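import Pool.Agent.Helper48.Y.Y11_c2_P3_m1n1_q

set_option autoImplicit false
set_option linter.all false

namespace Helper48.Y.Y11_c2_P3_m1n1

open Helper25.KG Helper25.KW Helper55.KE Helper11.CT

noncomputable def t30 : Tre :=
  (.Q [0,0,0,0,1,0,2,2,0,-1,2] (.p true [0,0,1] [1,0,-1] (⟨0,[(34,0)]⟩,⟨0,[(33,0)]⟩) .k 2 (⟨0,[(33,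
  0)]⟩,⟨0,[(34,0)]⟩) .k (.r 0 ⟨0,[(10,1)]⟩ ⟨0,[(19,1),(27,0)]⟩)) (.I [0,0,-2,-2,1,0,0,1] (.R ⟨0,
  false,false,true,[0,-1,1],[1,-1,-1],[1,0,1],(⟨0,[(25,0)]⟩,⟨22,[(26,2),(0,2),(7,22),(1,4),(4,5),(0,
  2)]⟩),(⟨0,[(24,0)]⟩,⟨22,[(26,2),(0,2),(8,22),(0,4),(4,5),(0,2)]⟩),⟨2,[(5,1),(29,0),(1,0),(4,2)]⟩,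
  .k,.k,(.r (-1) ⟨0,[(0,0)]⟩ ⟨0,[(32,0),(0,0),(11,0),(2,0)]⟩),.k,.k,.k,⟨false,0,⟨5,[(1,0),(0,1),(20,
  0),(21,3),(4,0)]⟩,⟨3,[(4,1),(16,1),(11,1),(4,0),(7,1),(2,4)]⟩⟩,⟨true,(-1),⟨30,[(0,5),(1,1),(1,9),
  (4,29),(13,0),(6,19),(19,4)]⟩,⟨1,[(33,3),(4,0),(10,0)]⟩⟩,⟨false,0,⟨0,[(21,0),(23,0)]⟩,⟨13,[(0,7),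
  (0,0),(0,1),(20,0),(25,6)]⟩⟩,⟨true,(-1),⟨0,[(6,0),(4,0),(36,0)]⟩,⟨0,[(1,0)]⟩⟩,⟨false,0,⟨0,[]⟩,⟨0,
  []⟩⟩,⟨false,0,⟨0,[]⟩,⟨0,[]⟩⟩,[.a ⟨true,(-1),⟨0,[(6,0)]⟩,⟨3,[(1,1),(24,0),(0,0),(15,0),(4,3),(1,
  1)]⟩⟩ ⟨false,0,⟨0,[]⟩,⟨1,[(26,0),(0,0),(21,0)]⟩⟩ ⟨true,(-1),⟨0,[(4,0),(4,0),(39,0)]⟩,⟨0,[(1,0),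
  (19,0),(23,0)]⟩⟩,.o ⟨false,0,⟨0,[(7,0)]⟩,⟨3,[(1,1),(24,0),(0,0),(10,0),(9,3)]⟩⟩,.e ⟨true,0,⟨2,[(3,
  0),(19,0),(9,0)]⟩,⟨0,[(46,0)]⟩⟩ ⟨true,(-1),⟨0,[(4,0),(4,0),(39,0)]⟩,⟨0,[(1,0),(19,0),(26,0)]⟩⟩,.o
  ⟨false,0,⟨0,[(3,0)]⟩,⟨1,[(30,1),(7,0),(10,0)]⟩⟩]⟩) (.R ⟨0,false,false,true,[0,-1,1],[1,-1,-1],[1,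
  0,1],(⟨0,[(25,0)]⟩,⟨22,[(26,2),(0,2),(7,22),(1,4),(4,5),(0,2)]⟩),(⟨0,[(24,0)]⟩,⟨22,[(26,2),(0,2),
  (8,22),(0,4),(4,5),(0,2)]⟩),⟨2,[(5,1),(29,0),(1,0),(4,2)]⟩,.k,.k,(.x 0 ⟨24,[(3,12),(14,5),(7,5),
  (0,5),(5,11),(1,24),(1,1),(4,11)]⟩ ⟨11,[(5,3),(3,5),(4,1),(10,15),(4,5),(7,4),(10,8)]⟩),.k,.k,.k,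
  ⟨false,0,⟨5,[(1,0),(0,1),(20,0),(21,3),(4,0)]⟩,⟨0,[(0,0),(13,0),(31,0)]⟩⟩,⟨true,(-1),⟨5,[(2,0),(1,
  1),(4,5),(4,0),(15,3),(19,0)]⟩,⟨1,[(33,3),(4,0),(10,0)]⟩⟩,⟨false,0,⟨5,[(0,2),(2,0),(17,2),(1,0),
  (9,0),(16,2)]⟩,⟨1,[(2,0),(11,0),(34,0)]⟩⟩,⟨true,(-1),⟨2,[(0,0),(5,1),(4,2),(18,0),(15,0)]⟩,⟨0,[(1,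
  0)]⟩⟩,⟨false,0,⟨0,[]⟩,⟨0,[]⟩⟩,⟨false,0,⟨0,[]⟩,⟨0,[]⟩⟩,[.a ⟨true,(-1),⟨0,[(6,0)]⟩,⟨3,[(1,1),(24,0),
  (0,0),(15,0),(4,3),(1,1)]⟩⟩ ⟨false,0,⟨0,[]⟩,⟨1,[(26,0),(0,0),(21,0)]⟩⟩ ⟨true,(-1),⟨0,[(4,0),(4,0),
  (39,0)]⟩,⟨2,[(0,0),(0,1),(1,0),(22,0),(0,0),(5,0),(11,0),(4,0)]⟩⟩,.o ⟨false,0,⟨0,[(7,0)]⟩,⟨3,[(1,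
  1),(24,0),(0,0),(10,0),(9,3)]⟩⟩,.e ⟨true,0,⟨2,[(3,0),(19,0),(9,0)]⟩,⟨0,[(46,0)]⟩⟩ ⟨true,(-1),⟨0,
  [(4,0),(4,0),(39,0)]⟩,⟨3,[(0,1),(0,3),(19,1),(4,0),(0,0),(21,0)]⟩⟩,.o ⟨false,0,⟨0,[(3,0)]⟩,⟨1,
  [(30,1),(7,0),(10,0)]⟩⟩]⟩)) (.R ⟨1,true,false,false,[0,0,1],[1,-1,-1],[1,1,0,-1,0,0,0,1],(⟨0,[(35,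
  0)]⟩,⟨0,[(34,0)]⟩),(⟨0,[(23,0)]⟩,⟨22,[(25,2),(0,2),(8,22),(0,4),(4,5),(0,2)]⟩),⟨0,[(24,0)]⟩,.k,.k,
  .k,(.x (-2) ⟨1,[(4,3),(27,3),(4,0),(3,1),(6,2)]⟩ ⟨99,[(0,1),(0,49),(4,95),(1,45),(8,1),(4,26),(12,
  199),(0,8),(4,28)]⟩),.k,.k,⟨true,(-1),⟨0,[(1,0),(44,0)]⟩,⟨1,[(0,1),(31,3),(4,0),(10,1),(0,0)]⟩⟩,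
  ⟨false,(-1),⟨3,[(0,2),(0,2),(11,0),(8,0)]⟩,⟨1,[(32,3),(4,0),(10,2)]⟩⟩,⟨true,0,⟨0,[(46,0)]⟩,⟨0,
  [(47,0)]⟩⟩,⟨false,0,⟨57,[(0,40),(5,15),(5,7),(0,5),(6,17),(1,8),(26,28)]⟩,⟨1,[(1,1),(30,3),(4,0),
  (10,2)]⟩⟩,⟨false,0,⟨0,[]⟩,⟨1,[(25,0),(0,0),(22,0)]⟩⟩,⟨true,(-1),⟨0,[(0,0)]⟩,⟨1,[(30,3),(6,0),(11,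
  0)]⟩⟩,[]⟩))

theorem ok30 : chk K t30 r28 = true := by decide +kernel

noncomputable def t35 : Tre :=
  (.R ⟨2,true,false,true,[0,1],[1,0,-1],[1,1,1],(⟨0,[]⟩,⟨0,[]⟩),(⟨0,[(29,0)]⟩,⟨0,[(30,0)]⟩),⟨0,[]⟩,
  .k,.k,.k,.k,.k,.k,⟨false,0,⟨0,[(6,0)]⟩,⟨0,[(15,0),(27,0)]⟩⟩,⟨true,(-1),⟨10,[(3,6),(3,2),(1,1),(7,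
  1),(13,1),(1,1),(3,1)]⟩,⟨1,[(27,1),(4,0),(10,0)]⟩⟩,⟨true,0,⟨0,[(41,0)]⟩,⟨0,[(42,0)]⟩⟩,⟨false,0,⟨2,
  [(1,0),(9,0),(3,1),(8,1)]⟩,⟨0,[(0,0)]⟩⟩,⟨false,0,⟨0,[]⟩,⟨1,[(20,0),(0,0),(22,0)]⟩⟩,⟨true,(-1),⟨1,
  [(1,1),(7,0),(27,0),(2,1),(1,0)]⟩,⟨3,[(0,1),(1,0),(17,0),(0,0),(3,0),(6,0)]⟩⟩,[]⟩)

theorem ok35 : chk K t35 r24 = true := by decide +kernel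

noncomputable def t40 : Tre :=
  (.S ⟨1,0,[0,0,0,0,0,0,0,1],[0,0,1],[0,1],(⟨0,[(26,0)]⟩,⟨0,[(25,0)]⟩),⟨0,[(15,0)]⟩,.k,.k,⟨true,0,
  ⟨0,[(0,0),(36,0)]⟩,⟨0,[(2,0)]⟩⟩,⟨false,1,⟨1,[(16,0),(0,0),(22,0)]⟩,⟨0,[]⟩⟩,⟨false,0,⟨0,[(0,0)]⟩,
  ⟨29,[(2,17),(0,1),(0,3),(4,11),(14,11),(3,0),(11,20)]⟩⟩,⟨true,0,⟨0,[(38,0)]⟩,⟨0,[(37,0)]⟩⟩,[.o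
  ⟨false,1,⟨1,[(21,1),(6,0),(11,0)]⟩,⟨0,[(1,0)]⟩⟩,.e ⟨false,1,⟨1,[(16,0),(0,0),(21,0)]⟩,⟨0,[]⟩⟩
  ⟨false,1,⟨1,[(2,1),(36,0),(0,0)]⟩,⟨0,[(0,0),(36,0)]⟩⟩,.o ⟨false,1,⟨1,[(23,1),(4,0),(10,0)]⟩,⟨0,
  [(12,0)]⟩⟩,.a ⟨true,0,⟨0,[(23,0)]⟩,⟨0,[(20,0)]⟩⟩ ⟨true,0,⟨0,[(36,0)]⟩,⟨1,[(23,0),(0,0)]⟩⟩ ⟨false,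
  1,⟨1,[(2,1),(36,0),(0,0)]⟩,⟨0,[(11,0)]⟩⟩]⟩)

theorem ok40 : chk K t40 r20 = true := by decide +kernel

noncomputable def t43 : Tre :=
  (.Q [0,-1,0,2,0,0,-1,-1,0,0,-1] (.p false [0,0,1] [] (⟨0,[(24,0)]⟩,⟨0,[(23,0)]⟩) .k 0 (⟨0,[]⟩,⟨0,
  []⟩) .k .k) (.R ⟨1,true,false,false,[0,0,1],[0,1],[0,0,0,0,0,0,0,1],(⟨0,[(25,0)]⟩,⟨0,[(24,0)]⟩),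
  (⟨0,[(29,0)]⟩,⟨0,[(28,0)]⟩),⟨0,[(14,0)]⟩,.k,.k,.k,.k,(.r (-2) ⟨5,[(3,3),(7,1),(0,1),(7,5),(6,0),
  (11,2)]⟩ ⟨7,[(0,1),(0,5),(2,6),(0,1),(16,1),(9,0),(4,2)]⟩),.k,⟨true,1,⟨1,[(8,1),(10,1),(7,0),(11,
  0)]⟩,⟨0,[(1,0),(2,0)]⟩⟩,⟨false,1,⟨1,[(19,1),(7,0),(10,0)]⟩,⟨0,[(22,0)]⟩⟩,⟨false,1,⟨1,[(15,0),(0,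
  0),(22,0)]⟩,⟨0,[]⟩⟩,⟨true,0,⟨1,[(0,0),(20,0)]⟩,⟨0,[(8,0)]⟩⟩,⟨true,0,⟨0,[(37,0)]⟩,⟨0,[(36,0)]⟩⟩,
  ⟨false,0,⟨0,[(0,0)]⟩,⟨17,[(2,1),(0,3),(4,17),(13,5),(0,5),(3,0),(11,8)]⟩⟩,[]⟩) (.I [0,-1,-1,0,1,0,
  0,1] (.S ⟨1,0,[0,0,1,1,0,0,0,-1],[1,1,-1],[1,1,1,0,0,0,0,-1],(⟨22,[(16,2),(0,2),(7,22),(1,4),(4,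
  5),(0,2)]⟩,⟨0,[(15,0)]⟩),⟨0,[(25,0)]⟩,.k,.k,⟨true,0,⟨0,[(37,0)]⟩,⟨0,[(38,0)]⟩⟩,⟨false,1,⟨1,[(16,
  0),(0,0),(22,0)]⟩,⟨0,[]⟩⟩,⟨false,0,⟨0,[]⟩,⟨1,[(16,0),(0,0),(22,0)]⟩⟩,⟨true,0,⟨0,[(38,0)]⟩,⟨0,[(37,
  0)]⟩⟩,[.o ⟨false,0,⟨0,[(2,0),(9,0),(25,0)]⟩,⟨1,[(0,0),(0,0),(21,0),(4,0)]⟩⟩,.a ⟨true,0,⟨0,[(2,0),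
  (17,0),(14,0)]⟩,⟨0,[(9,0)]⟩⟩ ⟨false,0,⟨0,[(2,0)]⟩,⟨15,[(0,11),(12,1),(2,2),(0,2),(3,3),(6,0),(2,
  3)]⟩⟩ ⟨true,0,⟨0,[(2,0),(2,0),(30,0),(3,0)]⟩,⟨1,[(1,0),(10,1),(8,0)]⟩⟩,.e ⟨false,0,⟨0,[(11,0)]⟩,
  ⟨0,[(0,0)]⟩⟩ ⟨false,0,⟨0,[(2,0),(2,0),(30,0),(3,0)]⟩,⟨9,[(0,4),(0,1),(2,1),(8,1),(7,2),(2,0),(3,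
  0)]⟩⟩,.o ⟨false,0,⟨0,[(12,0)]⟩,⟨1,[(23,1),(4,0),(10,0)]⟩⟩]⟩) (.Q [0,0,-1,0,1,0,1,0,0,-1,1] (.p
  true [0,0,1] [1] (⟨0,[(26,0)]⟩,⟨0,[(25,0)]⟩) .k 1 (⟨0,[]⟩,⟨0,[]⟩) .k .k) (.S ⟨1,0,[0,0,0,0,0,0,0,
  -1],[1,0,-1],[0,1,0,0,0,0,0,-1],(⟨0,[(26,0)]⟩,⟨0,[(27,0)]⟩),⟨0,[(15,0)]⟩,.k,.k,⟨true,0,⟨0,[(43,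
  0)]⟩,⟨0,[]⟩⟩,⟨false,1,⟨1,[(17,0),(0,0),(22,0)]⟩,⟨0,[]⟩⟩,⟨false,0,⟨0,[(39,0)]⟩,⟨17,[(4,1),(0,3),
  (18,5),(0,5),(3,0),(11,8)]⟩⟩,⟨true,0,⟨0,[(39,0)]⟩,⟨0,[(38,0)]⟩⟩,[.o ⟨false,0,⟨0,[(3,0),(9,0)]⟩,⟨1,
  [(22,1),(6,0),(11,0)]⟩⟩,.a ⟨true,0,⟨3,[(1,1),(1,1),(9,1),(7,1),(12,0),(6,2)]⟩,⟨0,[(22,0)]⟩⟩ ⟨true,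
  0,⟨0,[(1,0),(35,0),(3,0)]⟩,⟨3,[(2,0),(3,1),(6,3),(8,2),(18,1)]⟩⟩ ⟨false,1,⟨1,[(3,1),(36,0),(0,
  0)]⟩,⟨0,[(13,0),(8,0)]⟩⟩,.o ⟨false,0,⟨0,[(13,0)]⟩,⟨3,[(0,1),(16,0),(0,0),(5,1),(4,0)]⟩⟩,.o ⟨false,
  0,⟨0,[(25,0)]⟩,⟨0,[(0,0)]⟩⟩]⟩) (.I [1,0,0,-1,0,0,0,-1] (.Q [0,-1,0,2,1,0,1,1,0,-1,1] (.p true [0,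
  0,1] [1] (⟨0,[(28,0)]⟩,⟨0,[(27,0)]⟩) .k 1 (⟨0,[]⟩,⟨0,[]⟩) .k .k) (.R ⟨1,false,false,false,[1,0,
  -1],[0,1],[],(⟨0,[(28,0)]⟩,⟨0,[(29,0)]⟩),(⟨0,[(33,0)]⟩,⟨0,[(32,0)]⟩),⟨0,[(17,0)]⟩,.k,.k,.k,.k,(.x
  1 ⟨2,[(11,2),(3,0),(0,0),(1,2),(16,0)]⟩ ⟨3,[(0,3),(0,3),(11,1),(3,5),(0,1),(12,0),(7,1),(2,0)]⟩),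
  .k,⟨true,1,⟨2,[(7,0),(11,0),(0,0)]⟩,⟨0,[(8,0)]⟩⟩,⟨false,2,⟨0,[(0,0),(4,0),(7,0)]⟩,⟨0,[(2,0)]⟩⟩,
  ⟨false,1,⟨1,[(0,0),(3,0),(11,0),(26,0)]⟩,⟨0,[(5,0)]⟩⟩,⟨true,1,⟨3,[(0,1),(18,0),(0,0),(3,1),(6,
  0)]⟩,⟨0,[(1,0),(0,0),(36,0)]⟩⟩,⟨false,1,⟨1,[(0,1),(9,0),(5,0)]⟩,⟨0,[(1,0)]⟩⟩,⟨false,1,⟨0,[(0,0)]⟩,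
  ⟨1,[(1,1),(8,0),(5,0)]⟩⟩,[.e ⟨false,1,⟨1,[(19,0),(0,0),(21,0)]⟩,⟨0,[]⟩⟩ ⟨false,1,⟨0,[(0,0),(0,0),
  (37,0)]⟩,⟨1,[(10,0),(5,0)]⟩⟩,.o ⟨false,1,⟨3,[(0,1),(4,1),(9,1),(15,0),(11,0)]⟩,⟨0,[(40,0)]⟩⟩,.o
  ⟨false,0,⟨0,[(15,0)]⟩,⟨2,[(0,0),(4,0),(7,0),(12,1),(4,0)]⟩⟩,.a ⟨true,(-1),⟨0,[(2,0)]⟩,⟨0,[(26,0),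
  (15,0)]⟩⟩ ⟨false,1,⟨1,[(42,0),(0,0)]⟩,⟨1,[(26,0),(0,0)]⟩⟩ ⟨true,1,⟨0,[(0,0),(0,0),(37,0)]⟩,⟨0,[(2,
  0),(37,0)]⟩⟩]⟩) (.Q [0,0,2,0,-1,0,-1,0,0,0,-1] (.p false [0,0,1] [] (⟨0,[(29,0)]⟩,⟨0,[(28,0)]⟩)
  .k 0 (⟨0,[]⟩,⟨0,[]⟩) .k .k) (.Q [0,0,0,0,-1,0,-2,-2,0,1,-2] (.p false [0,0,1] [1,0,-1] (⟨0,[(30,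
  0)]⟩,⟨0,[(29,0)]⟩) .k 2 (⟨0,[(29,0)]⟩,⟨0,[(30,0)]⟩) .k (.r (-1) ⟨0,[(16,1),(8,1),(18,0)]⟩ ⟨0,[(2,
  1),(6,1),(30,3),(3,1)]⟩)) (.Q [0,0,0,-1,-1,0,-2,-2,0,1,-2] (.p false [0,0,1] [1,0,-1] (⟨0,[(31,
  0)]⟩,⟨0,[(30,0)]⟩) .k 2 (⟨0,[(30,0)]⟩,⟨0,[(31,0)]⟩) .k (.r (-1) ⟨0,[(17,1),(8,1),(18,0)]⟩ ⟨0,[(3,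
  1),(6,1),(30,3),(3,1)]⟩)) (.Q [0,1,1,1,-2,0,-2,-1,0,1,-2] (.p false [0,0,1] [1,0,-1] (⟨0,[(32,
  0)]⟩,⟨0,[(31,0)]⟩) .k 2 (⟨0,[(31,0)]⟩,⟨0,[(32,0)]⟩) .k (.r (-1) ⟨0,[(18,1),(8,1),(18,0)]⟩ ⟨0,[(4,
  1),(6,1),(30,3),(3,1)]⟩)) (.Q [0,0,0,0,0,2,0,0,0,0,-1] (.p false [0,0,1] [] (⟨0,[(33,0)]⟩,⟨0,[(32,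
  0)]⟩) .k 0 (⟨0,[]⟩,⟨0,[]⟩) .k .k) (.R ⟨0,false,false,false,[0,-1,1],[1,-1],[1,0,1],(⟨0,[(23,0)]⟩,
  ⟨4,[(0,1),(23,0),(0,0),(7,2),(1,0),(5,0)]⟩),(⟨0,[(37,0)]⟩,⟨0,[(38,0)]⟩),⟨0,[(0,0)]⟩,.k,.k,(.r
  (-2) ⟨5,[(12,3),(7,1),(0,1),(7,5),(6,0),(11,2)]⟩ ⟨0,[(10,0),(2,0),(32,0)]⟩),.k,.k,.k,⟨true,(-1),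
  ⟨0,[(13,0)]⟩,⟨2,[(12,0),(11,0),(0,0)]⟩⟩,⟨false,0,⟨0,[(28,0)]⟩,⟨1,[(31,1),(4,0),(10,0)]⟩⟩,⟨true,
  (-1),⟨0,[(10,0),(2,0)]⟩,⟨1,[(9,0),(18,1),(0,0),(6,0),(10,0)]⟩⟩,⟨false,0,⟨5,[(3,1),(15,1),(8,1),
  (12,0),(6,2)]⟩,⟨1,[(29,1),(6,0),(11,0)]⟩⟩,⟨false,0,⟨0,[]⟩,⟨0,[]⟩⟩,⟨false,0,⟨0,[]⟩,⟨0,[]⟩⟩,[.a
  ⟨true,0,⟨5,[(15,2),(8,0),(0,0),(9,0),(1,0),(3,0)]⟩,⟨0,[(46,0)]⟩⟩ ⟨false,0,⟨0,[]⟩,⟨1,[(24,0),(0,0),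
  (21,0)]⟩⟩ ⟨true,0,⟨0,[(1,0),(7,0),(37,0),(0,0)]⟩,⟨2,[(13,0),(0,0),(16,2),(4,0),(6,0)]⟩⟩,.o ⟨false,
  1,⟨17,[(11,1),(0,3),(18,5),(0,5),(3,0),(11,8)]⟩,⟨0,[(14,0)]⟩⟩,.e ⟨true,0,⟨1,[(31,0),(0,0)]⟩,⟨0,
  [(44,0)]⟩⟩ ⟨true,0,⟨0,[(1,0),(7,0),(37,0),(0,0)]⟩,⟨0,[(14,0),(16,0)]⟩⟩,.o ⟨false,0,⟨9,[(6,1),(2,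
  1),(3,5),(17,7),(4,4),(11,0)]⟩,⟨1,[(28,1),(7,0),(10,0)]⟩⟩]⟩) (.Q [0,0,0,0,1,0,2,0,0,-1,2] (.p
  true [0,0,1] [1,0,-1] (⟨0,[(34,0)]⟩,⟨0,[(33,0)]⟩) .k 2 (⟨0,[(33,0)]⟩,⟨0,[(34,0)]⟩) .k (.r (-1) ⟨0,
  [(20,1),(8,1),(18,0)]⟩ ⟨0,[(6,1),(6,1),(30,3),(3,1)]⟩)) (.R ⟨0,false,false,false,[1,-1,-1],[0,-1,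
  1],[],(⟨0,[(23,0)]⟩,⟨22,[(25,2),(0,2),(8,22),(0,4),(4,5),(0,2)]⟩),(⟨0,[(24,0)]⟩,⟨22,[(25,2),(0,2),
  (7,22),(1,4),(4,5),(0,2)]⟩),⟨2,[(1,0),(22,1),(11,0),(4,2)]⟩,.k,.k,(.x 1 ⟨6,[(5,2),(11,3),(4,1),
  (12,6),(5,1)]⟩ ⟨11,[(0,5),(0,3),(21,15),(1,0),(0,0),(10,4),(10,11)]⟩),.k,.k,.k,⟨false,0,⟨0,[(11,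
  0),(35,0)]⟩,⟨1,[(10,0),(18,1),(0,0),(6,0),(11,0)]⟩⟩,⟨true,1,⟨0,[(0,0)]⟩,⟨0,[(5,0),(23,0)]⟩⟩,⟨true,
  0,⟨0,[(21,0),(8,0),(13,0)]⟩,⟨0,[(7,0),(37,0)]⟩⟩,⟨false,2,⟨1,[(30,3),(6,0),(11,2)]⟩,⟨0,[(4,0)]⟩⟩,
  ⟨false,0,⟨0,[]⟩,⟨0,[]⟩⟩,⟨false,0,⟨0,[]⟩,⟨0,[]⟩⟩,[.o ⟨false,1,⟨1,[(10,0),(19,0),(6,0),(11,0)]⟩,⟨5,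
  [(4,1),(26,1),(5,0),(9,5),(1,0)]⟩⟩,.e ⟨false,1,⟨1,[(48,0),(0,0)]⟩,⟨0,[(51,0)]⟩⟩ ⟨false,3,⟨11,[(0,
  5),(12,3),(11,0),(0,0),(3,11),(6,2),(10,5),(0,11)]⟩,⟨0,[(2,0)]⟩⟩,.a ⟨true,(-1),⟨0,[(8,0)]⟩,⟨17,
  [(0,8),(24,3),(0,3),(9,0),(1,0),(3,3),(5,8)]⟩⟩ ⟨false,1,⟨1,[(25,0),(0,0),(22,0)]⟩,⟨0,[]⟩⟩ ⟨true,2,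
  ⟨11,[(0,5),(12,3),(11,0),(0,0),(3,11),(6,2),(11,5)]⟩,⟨0,[(2,0)]⟩⟩,.o ⟨false,(-1),⟨0,[(5,0)]⟩,⟨3,
  [(0,1),(24,0),(0,0),(10,0),(10,3)]⟩⟩]⟩) (.Q [0,0,-2,0,2,0,2,0,0,-1,2] (.p true [0,0,1] [1,0,-1]
  (⟨0,[(35,0)]⟩,⟨0,[(34,0)]⟩) .k 2 (⟨0,[(34,0)]⟩,⟨0,[(35,0)]⟩) .k (.r (-1) ⟨1,[(0,0),(21,0),(7,3),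
  (6,0),(11,1)]⟩ ⟨0,[(7,1),(6,1),(30,3),(3,1)]⟩)) (.R ⟨0,false,false,false,[1,-1,-1],[0,0,1],[1,1,
  1],(⟨0,[(24,0)]⟩,⟨27,[(0,2),(17,2),(4,2),(12,27),(0,3),(4,5),(0,2)]⟩),(⟨0,[(36,0)]⟩,⟨0,[(35,0)]⟩),
  ⟨2,[(2,0),(22,1),(11,0),(4,2)]⟩,.k,.k,(.x 1 ⟨6,[(6,2),(11,3),(4,1),(12,6),(5,1)]⟩ ⟨11,[(0,6),(1,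
  3),(20,0),(0,15),(13,4),(10,4)]⟩),(.r (-1) ⟨4,[(0,2),(3,1),(0,0),(8,0),(6,3)]⟩ ⟨1,[(1,1),(29,3),
  (6,0),(6,1),(4,0)]⟩),.k,.k,⟨true,(-1),⟨0,[(10,0)]⟩,⟨3,[(1,0),(21,0),(7,3),(6,0),(11,3)]⟩⟩,⟨false,
  2,⟨0,[(0,0)]⟩,⟨2,[(1,0),(4,0),(2,0),(13,0)]⟩⟩,⟨true,(-1),⟨3,[(1,0),(13,3),(7,0),(7,3),(6,0)]⟩,⟨0,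
  [(8,0),(40,0)]⟩⟩,⟨false,2,⟨1,[(31,3),(6,0),(9,1),(1,2)]⟩,⟨0,[(4,0)]⟩⟩,⟨false,0,⟨0,[]⟩,⟨0,[]⟩⟩,
  ⟨false,0,⟨0,[]⟩,⟨0,[]⟩⟩,[.o ⟨false,1,⟨1,[(31,1),(6,0),(11,0)]⟩,⟨5,[(5,1),(26,1),(5,0),(11,0)]⟩⟩,
  .e ⟨false,0,⟨0,[]⟩,⟨1,[(0,0),(22,0)]⟩⟩ ⟨false,3,⟨3,[(0,2),(22,0),(7,3),(6,0),(10,0),(0,3)]⟩,⟨0,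
  [(1,0),(8,0)]⟩⟩,.a ⟨true,(-1),⟨0,[(9,0)]⟩,⟨6,[(0,3),(22,0),(9,0),(3,0),(1,0),(3,0)]⟩⟩ ⟨false,0,⟨1,
  [(33,0),(0,0)]⟩,⟨1,[(49,0),(0,0)]⟩⟩ ⟨true,2,⟨5,[(0,3),(30,5),(2,1),(3,0),(11,2)]⟩,⟨0,[(1,0),(8,
  0)]⟩⟩,.o ⟨false,(-1),⟨0,[(6,0)]⟩,⟨3,[(0,2),(22,0),(14,0),(10,0)]⟩⟩]⟩) (.Q [-2,0,0,0,0,0,0,0,-2,1,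
  0,-2] (.p false [0,0,0,0,1] [1,0,0,0,-1] (⟨0,[(29,0)]⟩,⟨0,[(28,0)]⟩) .k 2 (⟨0,[(28,0)]⟩,⟨0,[(29,
  0)]⟩) .k (.r 0 ⟨0,[]⟩ ⟨4,[(26,2),(0,2),(22,1),(1,3)]⟩)) (.Q [0,0,0,0,0,1,0,0,0,-1,0,1] (.ed false
  [0,1,0,0,1] .k) (.R ⟨0,false,false,true,[1,0,0,0,-1],[0,1],[1,1,1],(⟨0,[(30,0)]⟩,⟨0,[(31,0)]⟩),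
  (⟨0,[(42,0)]⟩,⟨0,[(41,0)]⟩),⟨0,[(0,0)]⟩,.k,.k,(.r (-1) ⟨14,[(16,4),(11,2),(0,2),(22,1),(1,3)]⟩ ⟨0,
  [(47,0),(6,0)]⟩),(.r (-1) ⟨14,[(16,4),(11,2),(0,2),(22,1),(1,3)]⟩ ⟨0,[(47,0),(6,0)]⟩),.k,.k,
  ⟨false,1,⟨2,[(16,0),(11,0),(0,0)]⟩,⟨0,[(50,0)]⟩⟩,⟨true,1,⟨1,[(29,1),(10,0),(10,0)]⟩,⟨1,[(1,0),(15,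
  1),(1,0)]⟩⟩,⟨false,0,⟨1,[(35,0),(0,0)]⟩,⟨0,[(48,0),(3,0)]⟩⟩,⟨true,0,⟨0,[(18,0),(10,0)]⟩,⟨1,[(1,0),
  (17,0)]⟩⟩,⟨false,0,⟨0,[]⟩,⟨0,[]⟩⟩,⟨false,0,⟨0,[]⟩,⟨0,[]⟩⟩,[.o ⟨false,0,⟨0,[(18,0)]⟩,⟨17,[(15,1),
  (0,3),(18,5),(0,5),(3,0),(11,8)]⟩⟩,.e ⟨false,0,⟨0,[]⟩,⟨1,[(28,0),(0,0),(21,0)]⟩⟩ ⟨false,1,⟨1,[(29,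
  1),(10,0),(9,1),(0,0)]⟩,⟨1,[(1,0),(17,0)]⟩⟩,.a ⟨true,0,⟨16,[(1,5),(26,4),(10,0),(1,0),(3,4)]⟩,⟨0,
  [(29,0)]⟩⟩ ⟨false,0,⟨1,[(35,0),(0,0)]⟩,⟨1,[(51,0),(0,0)]⟩⟩ ⟨true,0,⟨0,[(18,0),(10,0)]⟩,⟨1,[(1,0),
  (17,0)]⟩⟩,.o ⟨false,0,⟨8,[(1,3),(6,2),(19,0),(6,2),(4,1)]⟩,⟨1,[(29,1),(10,0),(10,0)]⟩⟩]⟩) (.S ⟨1,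
  0,[-1,1],[1,0,0,0,-1],[-1],(⟨0,[(30,0)]⟩,⟨0,[(31,0)]⟩),⟨0,[(0,0)]⟩,.k,(.r (-1) ⟨14,[(16,4),(11,2),
  (0,2),(22,1),(1,3)]⟩ ⟨0,[(47,0),(6,0)]⟩),⟨false,1,⟨1,[(28,0),(0,0),(22,0)]⟩,⟨0,[]⟩⟩,⟨true,0,⟨0,
  [(54,0)]⟩,⟨0,[]⟩⟩,⟨true,0,⟨0,[(50,0)]⟩,⟨0,[(49,0)]⟩⟩,⟨false,0,⟨0,[(50,0)]⟩,⟨17,[(15,1),(0,3),(18,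
  5),(0,5),(3,0),(11,8)]⟩⟩,[.o ⟨false,0,⟨1,[(1,0),(16,0),(30,0)]⟩,⟨1,[(29,1),(10,0),(11,0)]⟩⟩,.e
  ⟨false,1,⟨0,[(48,0),(3,0)]⟩,⟨0,[(54,0)]⟩⟩ ⟨false,1,⟨9,[(28,3),(0,3),(21,4),(0,0),(1,1)]⟩,⟨0,[]⟩⟩,
  .a ⟨true,0,⟨16,[(1,5),(26,4),(10,0),(1,0),(3,4)]⟩,⟨0,[(29,0)]⟩⟩ ⟨false,1,⟨4,[(28,1),(0,1),(22,2),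
  (1,0)]⟩,⟨0,[]⟩⟩ ⟨true,0,⟨0,[(54,0)]⟩,⟨0,[]⟩⟩,.o ⟨false,0,⟨8,[(1,3),(6,2),(19,0),(6,2),(4,1)]⟩,⟨1,
  [(29,1),(10,0),(10,0)]⟩⟩]⟩)) (.Q [-1,-1,0,0,1,0,0,0,-1,0,0,-1] (.p false [0,0,0,0,1] [] (⟨0,[(30,
  0)]⟩,⟨0,[(29,0)]⟩) .k 0 (⟨0,[]⟩,⟨0,[]⟩) .k .k) (.Q [0,0,0,0,0,-1,0,0,0,0,0,1] (.ed false [1,-1,0,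
  0,1] .k) (.Q [-1,1,0,0,0,0,0,0,-1,0,0,-1] (.p false [0,0,0,0,1] [] (⟨0,[(32,0)]⟩,⟨0,[(31,0)]⟩) .k
  0 (⟨0,[]⟩,⟨0,[]⟩) .k .k) (.R ⟨1,false,false,false,[0,0,0,0,1],[0,1],[0,1],(⟨0,[(33,0)]⟩,⟨0,[(32,
  0)]⟩),(⟨0,[(44,0)]⟩,⟨0,[(43,0)]⟩),⟨0,[(1,0)]⟩,.k,.k,(.r (-1) ⟨2,[(18,0),(11,0),(0,0)]⟩ ⟨0,[(49,0),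
  (6,0)]⟩),(.r (-1) ⟨2,[(18,0),(11,0),(0,0)]⟩ ⟨0,[(49,0),(6,0)]⟩),(.r (-2) ⟨2,[(18,1),(11,1),(0,
  1)]⟩ ⟨0,[(19,1),(30,1),(3,0)]⟩),.k,⟨false,1,⟨11,[(18,3),(11,0),(0,0),(13,5),(7,2)]⟩,⟨0,[(49,0)]⟩⟩,
  ⟨true,1,⟨1,[(0,0),(1,0),(50,0)]⟩,⟨20,[(3,8),(2,1),(10,6),(1,20),(8,1),(2,2),(9,5)]⟩⟩,⟨true,0,⟨0,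
  [(56,0)]⟩,⟨0,[]⟩⟩,⟨false,1,⟨0,[(2,0),(49,0)]⟩,⟨2,[(3,0),(13,0),(13,0)]⟩⟩,⟨false,0,⟨0,[(19,0),(30,
  1),(3,0)]⟩,⟨17,[(3,3),(13,5),(12,7),(11,0),(11,8)]⟩⟩,⟨false,1,⟨0,[(2,0),(49,1)]⟩,⟨3,[(3,1),(4,0),
  (6,1),(1,0),(36,0)]⟩⟩,[.e ⟨false,0,⟨0,[(50,0)]⟩,⟨1,[(30,0),(0,0),(22,0)]⟩⟩ ⟨false,1,⟨1,[(0,0),(1,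
  0),(49,1),(0,0)]⟩,⟨20,[(3,8),(2,1),(10,6),(10,1),(2,2),(9,5)]⟩⟩,.o ⟨false,1,⟨1,[(42,0),(9,1),(1,
  0)]⟩,⟨0,[(51,0)]⟩⟩,.a ⟨true,0,⟨0,[(31,0)]⟩,⟨1,[(0,1),(46,0),(6,0)]⟩⟩ ⟨true,0,⟨0,[(56,0)]⟩,⟨0,[]⟩⟩
  ⟨false,1,⟨0,[(2,0),(49,0)]⟩,⟨20,[(3,8),(2,1),(10,6),(10,1),(2,2),(9,5)]⟩⟩,.o ⟨false,0,⟨13,[(3,6),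
  (6,0),(6,0),(1,2),(17,0),(10,3),(6,4)]⟩,⟨1,[(0,0),(1,0),(50,0)]⟩⟩]⟩) (.R ⟨2,true,false,false,[0,
  1],[0,0,0,0,1],[1,0,1],(⟨0,[]⟩,⟨0,[]⟩),(⟨0,[(33,0)]⟩,⟨0,[(32,0)]⟩),⟨0,[]⟩,.k,.k,.k,(.r 0 ⟨0,[(49,
  0),(6,0)]⟩ ⟨2,[(18,0),(11,0),(0,0)]⟩),.k,.k,⟨true,0,⟨1,[(37,0),(0,0)]⟩,⟨0,[]⟩⟩,⟨false,0,⟨0,[(31,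
  0)]⟩,⟨0,[(2,0),(47,0)]⟩⟩,⟨false,1,⟨17,[(3,3),(13,5),(12,7),(11,0),(11,8)]⟩,⟨0,[(52,0)]⟩⟩,⟨true,0,
  ⟨2,[(3,0),(13,0),(13,0)]⟩,⟨0,[(2,0),(16,0),(30,1)]⟩⟩,⟨true,0,⟨0,[]⟩,⟨0,[(56,0)]⟩⟩,⟨false,0,⟨0,[(0,
  0)]⟩,⟨2,[(2,0),(27,1),(25,0)]⟩⟩,[]⟩)) (.Q [0,0,0,0,0,0,0,0,-1,1,0,-1] (.p false [0,0,0,0,1] [1]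
  (⟨0,[(32,0)]⟩,⟨0,[(31,0)]⟩) .k 1 (⟨0,[]⟩,⟨0,[]⟩) .k .k) (.R ⟨0,false,false,false,[0,0,0,0,1],[0,
  1],[0,1],(⟨0,[(33,0)]⟩,⟨0,[(32,0)]⟩),(⟨0,[(44,0)]⟩,⟨0,[(43,0)]⟩),⟨0,[(1,0)]⟩,.k,.k,(.r (-1) ⟨2,
  [(18,0),(11,0),(0,0)]⟩ ⟨0,[(49,0),(6,0)]⟩),(.r (-1) ⟨2,[(18,0),(11,0),(0,0)]⟩ ⟨0,[(49,0),(6,0)]⟩),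
  .k,.k,⟨false,1,⟨11,[(18,3),(11,0),(0,0),(13,5),(7,2)]⟩,⟨0,[(49,0)]⟩⟩,⟨true,1,⟨0,[(2,0),(47,0)]⟩,
  ⟨20,[(3,8),(2,1),(10,6),(1,20),(8,1),(2,2),(9,5)]⟩⟩,⟨true,0,⟨0,[(56,0)]⟩,⟨0,[]⟩⟩,⟨false,1,⟨0,[(2,
  0),(49,0)]⟩,⟨2,[(3,0),(13,0),(13,0)]⟩⟩,⟨false,0,⟨0,[]⟩,⟨0,[]⟩⟩,⟨false,0,⟨0,[]⟩,⟨0,[]⟩⟩,[.e ⟨false,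
  0,⟨0,[(50,0)]⟩,⟨1,[(30,0),(0,0),(22,0)]⟩⟩ ⟨false,1,⟨1,[(0,0),(1,0),(17,0),(31,0),(0,0)]⟩,⟨20,[(3,
  8),(2,1),(10,6),(10,1),(2,2),(9,5)]⟩⟩,.o ⟨false,1,⟨1,[(42,0),(9,1),(1,0)]⟩,⟨0,[(51,0)]⟩⟩,.a ⟨true,
  0,⟨0,[(31,0)]⟩,⟨0,[(0,0)]⟩⟩ ⟨true,0,⟨0,[(56,0)]⟩,⟨0,[]⟩⟩ ⟨false,1,⟨0,[(2,0),(49,0)]⟩,⟨20,[(3,8),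
  (2,1),(10,6),(10,1),(2,2),(9,5)]⟩⟩,.o ⟨false,0,⟨13,[(3,6),(6,0),(6,0),(1,2),(17,0),(10,3),(6,4)]⟩,
  ⟨0,[(2,0),(47,0)]⟩⟩]⟩) (.R ⟨2,true,false,false,[0,1],[0,0,0,0,1],[1,0,1],(⟨0,[]⟩,⟨0,[]⟩),(⟨0,[(33,
  0)]⟩,⟨0,[(32,0)]⟩),⟨0,[]⟩,.k,.k,.k,(.r 0 ⟨0,[(49,0),(6,0)]⟩ ⟨2,[(18,0),(11,0),(0,0)]⟩),.k,.k,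
  ⟨true,0,⟨1,[(37,0),(0,0)]⟩,⟨0,[]⟩⟩,⟨false,0,⟨0,[(31,0)]⟩,⟨0,[(2,0),(47,0)]⟩⟩,⟨false,1,⟨17,[(3,3),
  (13,5),(12,7),(11,0),(11,8)]⟩,⟨0,[(52,0)]⟩⟩,⟨true,0,⟨2,[(3,0),(13,0),(13,0)]⟩,⟨0,[(2,0),(16,0),
  (30,1)]⟩⟩,⟨true,0,⟨0,[]⟩,⟨0,[(56,0)]⟩⟩,⟨false,0,⟨1,[(0,1),(46,0),(6,0)]⟩,⟨2,[(2,0),(27,1),(25,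
  0)]⟩⟩,[]⟩))) (.Q [0,0,0,0,0,-1,0,0,0,0,0,1] (.ed false [1,-1,0,0,1] .k) (.Q [0,0,1,-1,-1,0,0,0,1,
  0,0,1] (.p true [0,0,0,0,1] [] (⟨0,[(32,0)]⟩,⟨0,[(31,0)]⟩) .k 0 (⟨0,[]⟩,⟨0,[]⟩) .k .k) (.Q [0,0,0,
  0,0,0,1,0,1,-1,1,1] (.p true [0,0,1] [1,0,0,0,-1] (⟨0,[(40,0)]⟩,⟨0,[(39,0)]⟩) .k 2 (⟨0,[(32,0)]⟩,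
  ⟨0,[(33,0)]⟩) .k (.r (-1) ⟨5,[(3,0),(23,2),(2,1),(4,5),(6,0),(11,2)]⟩ ⟨0,[(12,0),(6,0),(30,1),(3,
  0)]⟩)) (.R ⟨1,false,false,true,[0,0,0,0,1],[0,1],[0,1],(⟨0,[(34,0)]⟩,⟨0,[(33,0)]⟩),(⟨0,[(45,0)]⟩,
  ⟨0,[(44,0)]⟩),⟨0,[(2,0)]⟩,.k,.k,(.r (-1) ⟨2,[(19,0),(11,0),(0,0)]⟩ ⟨0,[(50,0),(6,0)]⟩),(.r (-1)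
  ⟨2,[(19,0),(11,0),(0,0)]⟩ ⟨0,[(50,0),(6,0)]⟩),(.r (-2) ⟨2,[(19,1),(11,1),(0,1)]⟩ ⟨0,[(20,1),(30,
  1),(3,0)]⟩),.k,⟨true,1,⟨2,[(19,0),(11,0),(0,0)]⟩,⟨0,[(20,0)]⟩⟩,⟨false,2,⟨0,[(31,0),(22,0)]⟩,⟨9,
  [(0,3),(0,3),(3,1),(14,0),(11,1),(15,0),(4,2)]⟩⟩,⟨true,0,⟨0,[(57,0)]⟩,⟨0,[]⟩⟩,⟨false,1,⟨0,[(31,0),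
  (21,0)]⟩,⟨23,[(0,9),(0,11),(2,0),(1,4),(12,3),(28,2),(6,11)]⟩⟩,⟨false,0,⟨0,[(20,0),(30,1),(3,0)]⟩,
  ⟨17,[(4,3),(13,5),(12,7),(11,0),(11,8)]⟩⟩,⟨false,1,⟨0,[(31,0),(21,1)]⟩,⟨3,[(0,3),(5,1),(2,0),(6,
  1),(1,0),(36,2)]⟩⟩,[.o ⟨false,0,⟨0,[(21,0)]⟩,⟨17,[(4,3),(13,5),(12,7),(11,0),(11,8)]⟩⟩,.a ⟨true,0,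
  ⟨0,[(53,0)]⟩,⟨5,[(22,2),(8,0),(0,0),(9,0),(1,0),(3,0)]⟩⟩ ⟨false,1,⟨1,[(31,0),(0,0),(21,0)]⟩,⟨0,
  []⟩⟩ ⟨true,1,⟨0,[(31,0),(21,0)]⟩,⟨0,[(1,0)]⟩⟩,.o ⟨false,0,⟨41,[(0,21),(3,9),(1,10),(0,0),(21,0),
  (12,2),(6,10)]⟩,⟨0,[(31,0)]⟩⟩,.e ⟨true,0,⟨0,[(51,0)]⟩,⟨1,[(38,0),(0,0)]⟩⟩ ⟨true,1,⟨0,[(31,0),(19,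
  0),(1,0)]⟩,⟨0,[(1,0)]⟩⟩]⟩) (.S ⟨1,0,[1],[0,0,0,0,1],[1,0,1],(⟨0,[(34,0)]⟩,⟨0,[(33,0)]⟩),⟨0,[(2,
  0)]⟩,.k,(.r (-1) ⟨2,[(19,0),(11,0),(0,0)]⟩ ⟨0,[(50,0),(6,0)]⟩),⟨true,0,⟨1,[(38,0),(0,0)]⟩,⟨0,[(51,
  0)]⟩⟩,⟨false,1,⟨1,[(31,0),(0,0),(22,0)]⟩,⟨0,[]⟩⟩,⟨false,0,⟨0,[(20,0),(30,0),(3,0)]⟩,⟨2,[(19,0),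
  (11,0),(0,0)]⟩⟩,⟨true,0,⟨0,[(53,0)]⟩,⟨0,[(52,0)]⟩⟩,[.o ⟨false,0,⟨1,[(3,1),(39,0),(11,0)]⟩,⟨9,[(0,
  1),(14,1),(0,1),(14,7),(17,0),(1,1),(1,3),(1,2)]⟩⟩,.e ⟨false,1,⟨1,[(31,0),(0,0),(22,0)]⟩,⟨0,[(51,
  0)]⟩⟩ ⟨false,1,⟨1,[(54,0),(0,0)]⟩,⟨0,[(57,0)]⟩⟩,.o ⟨false,0,⟨1,[(3,1),(45,0),(5,0)]⟩,⟨0,[(31,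
  0)]⟩⟩,.a ⟨true,(-1),⟨2,[(1,1),(1,0),(46,0),(2,0)]⟩,⟨3,[(0,1),(30,1),(6,1),(9,0),(5,2)]⟩⟩ ⟨true,0,
  ⟨0,[]⟩,⟨0,[(57,0)]⟩⟩ ⟨false,1,⟨1,[(54,0),(0,0)]⟩,⟨1,[(38,0),(0,0)]⟩⟩]⟩)) (.Q [0,0,1,0,-1,0,0,0,1,
  0,0,1] (.p true [0,0,0,0,1] [] (⟨0,[(33,0)]⟩,⟨0,[(32,0)]⟩) .k 0 (⟨0,[]⟩,⟨0,[]⟩) .k .k) (.K ⟨0,[0,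
  0,0,0,1],(-1),(-1),(⟨0,[(34,0)]⟩,⟨0,[(33,0)]⟩),.k,(.r (-1) ⟨2,[(19,0),(11,0),(0,0)]⟩ ⟨0,[(50,0),
  (6,0)]⟩),(.r 0 ⟨0,[(50,0),(6,0)]⟩ ⟨14,[(19,4),(11,2),(0,2),(22,1),(1,3)]⟩),.k,.k,[⟨4,[(1,4),(11,
  1),(2,1),(3,0),(17,2),(16,0)]⟩,⟨0,[(0,0)]⟩,⟨0,[(31,0),(25,0)]⟩,⟨0,[(3,0)]⟩]⟩) (.R ⟨2,true,false,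
  true,[0,1],[0,0,0,0,1],[1,1,1],(⟨0,[]⟩,⟨0,[]⟩),(⟨0,[(34,0)]⟩,⟨0,[(33,0)]⟩),⟨0,[]⟩,.k,.k,.k,(.r 0
  ⟨0,[(50,0),(6,0)]⟩ ⟨2,[(19,0),(11,0),(0,0)]⟩),.k,.k,⟨true,0,⟨1,[(38,0),(0,0)]⟩,⟨0,[]⟩⟩,⟨false,0,
  ⟨0,[(32,0)]⟩,⟨0,[(0,0)]⟩⟩,⟨true,0,⟨0,[(52,0)]⟩,⟨0,[(53,0)]⟩⟩,⟨false,0,⟨2,[(4,0),(13,0),(13,0)]⟩,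
  ⟨1,[(0,1),(19,0),(32,0),(1,0)]⟩⟩,⟨false,0,⟨0,[]⟩,⟨1,[(31,0),(0,0),(22,0)]⟩⟩,⟨true,(-1),⟨0,[(3,
  0)]⟩,⟨1,[(0,0),(30,0),(24,0)]⟩⟩,[]⟩))) (.Q [1,-1,0,2,0,0,0,0,1,-1,0,1] (.p true [0,0,0,0,1] [1]
  (⟨0,[(32,0)]⟩,⟨0,[(31,0)]⟩) .k 1 (⟨0,[]⟩,⟨0,[]⟩) .k .k) (.R ⟨0,false,false,true,[0,0,0,0,1],[0,1],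
  [0,1],(⟨0,[(33,0)]⟩,⟨0,[(32,0)]⟩),(⟨0,[(44,0)]⟩,⟨0,[(43,0)]⟩),⟨0,[(1,0)]⟩,.k,.k,(.r (-1) ⟨2,[(18,
  0),(11,0),(0,0)]⟩ ⟨0,[(49,0),(6,0)]⟩),(.r (-1) ⟨2,[(18,0),(11,0),(0,0)]⟩ ⟨0,[(49,0),(6,0)]⟩),.k,
  .k,⟨true,1,⟨2,[(18,0),(11,0),(0,0)]⟩,⟨0,[(19,0)]⟩⟩,⟨false,2,⟨0,[(30,0),(22,0)]⟩,⟨89,[(0,56),(1,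
  32),(1,5),(1,9),(7,11),(0,11),(1,40),(1,32),(8,9),(12,29)]⟩⟩,⟨true,0,⟨0,[(56,0)]⟩,⟨0,[]⟩⟩,⟨false,
  1,⟨0,[(30,0),(21,0)]⟩,⟨0,[(0,0),(16,0)]⟩⟩,⟨false,0,⟨0,[]⟩,⟨0,[]⟩⟩,⟨false,0,⟨0,[]⟩,⟨0,[]⟩⟩,[.o
  ⟨false,0,⟨0,[(20,0)]⟩,⟨17,[(3,3),(13,5),(12,7),(11,0),(11,8)]⟩⟩,.a ⟨true,0,⟨0,[(52,0)]⟩,⟨5,[(21,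
  2),(8,0),(0,0),(9,0),(1,0),(3,0)]⟩⟩ ⟨false,1,⟨1,[(30,0),(0,0),(21,0)]⟩,⟨0,[]⟩⟩ ⟨true,1,⟨0,[(30,0),
  (21,0)]⟩,⟨44,[(0,44),(3,11),(1,4),(5,2),(1,20),(0,23),(1,27),(10,4),(12,14)]⟩⟩,.o ⟨false,0,⟨77,
  [(0,32),(1,32),(0,5),(2,4),(10,21),(10,4),(12,14),(6,32)]⟩,⟨0,[(30,0)]⟩⟩,.e ⟨true,0,⟨0,[(50,0)]⟩,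
  ⟨1,[(37,0),(0,0)]⟩⟩ ⟨true,1,⟨0,[(30,0),(19,0),(1,0)]⟩,⟨44,[(0,44),(3,11),(1,4),(5,2),(1,20),(0,
  23),(1,27),(10,4),(12,14)]⟩⟩]⟩) (.R ⟨1,false,false,false,[1,0,0,0,-1],[0,1],[-1],(⟨0,[(32,0)]⟩,⟨0,
  [(33,0)]⟩),(⟨0,[(44,0)]⟩,⟨0,[(43,0)]⟩),⟨1,[(1,0),(4,0),(21,0),(3,0)]⟩,.k,.k,(.r (-1) ⟨14,[(18,4),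
  (11,2),(0,2),(22,1),(1,3)]⟩ ⟨0,[(49,0),(6,0)]⟩),(.r (-1) ⟨14,[(18,4),(11,2),(0,2),(22,1),(1,3)]⟩
  ⟨0,[(49,0),(6,0)]⟩),(.r (-2) ⟨14,[(18,9),(11,8),(0,8),(22,0),(1,1)]⟩ ⟨0,[(19,0),(32,0)]⟩),.k,
  ⟨true,1,⟨14,[(18,4),(11,2),(0,2),(22,1),(1,3)]⟩,⟨0,[(19,0)]⟩⟩,⟨false,1,⟨1,[(2,1),(39,0),(10,1),(0,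
  0)]⟩,⟨3,[(0,1),(18,0),(10,1),(16,0),(1,1),(2,0)]⟩⟩,⟨false,1,⟨1,[(30,0),(0,0),(22,0)]⟩,⟨0,[]⟩⟩,
  ⟨true,0,⟨1,[(2,1),(39,0),(9,1),(1,0)]⟩,⟨6,[(0,5),(19,0),(9,0),(16,0),(4,3)]⟩⟩,⟨true,0,⟨0,[(52,
  0)]⟩,⟨0,[(51,0)]⟩⟩,⟨true,0,⟨1,[(2,1),(39,0),(9,3),(1,0)]⟩,⟨0,[(0,0)]⟩⟩,[.a ⟨true,0,⟨0,[(52,0)]⟩,
  ⟨5,[(21,2),(8,0),(0,0),(9,0),(1,0),(3,0)]⟩⟩ ⟨false,1,⟨9,[(30,3),(0,3),(21,4),(0,0),(1,1)]⟩,⟨0,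
  []⟩⟩ ⟨true,0,⟨1,[(2,1),(39,0),(9,1),(1,0)]⟩,⟨0,[(0,0),(48,0)]⟩⟩,.o ⟨false,1,⟨1,[(42,0),(9,1),(1,
  0)]⟩,⟨0,[(51,0)]⟩⟩,.o ⟨false,1,⟨0,[(30,0)]⟩,⟨1,[(2,1),(45,0),(5,0)]⟩⟩,.e ⟨false,1,⟨0,[(50,0),(3,
  0)]⟩,⟨1,[(37,0),(0,0)]⟩⟩ ⟨false,1,⟨1,[(2,1),(39,0),(9,1),(0,0),(0,1)]⟩,⟨0,[(0,0),(48,
  0)]⟩⟩]⟩)))))))) (.Q [0,0,0,0,0,2,0,0,0,0,-1] (.p false [0,0,1] [] (⟨0,[(33,0)]⟩,⟨0,[(32,0)]⟩) .k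
  0 (⟨0,[]⟩,⟨0,[]⟩) .k .k) (.R ⟨0,false,false,true,[0,-1,1],[1,-1,-1],[0,1],(⟨0,[(23,0)]⟩,⟨4,[(0,1),
  (23,0),(0,0),(7,2),(1,0),(5,0)]⟩),(⟨0,[(22,0)]⟩,⟨22,[(24,2),(0,2),(8,22),(0,4),(4,5),(0,2)]⟩),⟨0,
  [(0,0)]⟩,.k,.k,(.r (-2) ⟨1,[(1,0),(10,0),(7,0),(0,0),(7,0)]⟩ ⟨0,[(10,0),(2,0),(32,0)]⟩),.k,.k,.k,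
  ⟨true,0,⟨0,[(20,0),(8,0),(13,0)]⟩,⟨0,[(6,0)]⟩⟩,⟨false,0,⟨0,[(20,0),(7,0)]⟩,⟨0,[(1,0),(6,0),(37,
  0)]⟩⟩,⟨true,(-1),⟨0,[(8,0),(37,0)]⟩,⟨3,[(1,1),(7,0),(10,3),(7,1),(0,0)]⟩⟩,⟨false,(-1),⟨0,[(3,0)]⟩,
  ⟨0,[(1,0),(18,0),(8,0),(13,0)]⟩⟩,⟨false,0,⟨0,[]⟩,⟨0,[]⟩⟩,⟨false,0,⟨0,[]⟩,⟨0,[]⟩⟩,[.e ⟨false,0,⟨0,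
  [(44,0)]⟩,⟨1,[(24,0),(0,0),(22,0)]⟩⟩ ⟨false,0,⟨1,[(3,0),(14,0),(1,0),(7,0),(15,0)]⟩,⟨0,[(1,0),(11,
  0),(32,0)]⟩⟩,.o ⟨false,0,⟨9,[(2,3),(8,1),(18,1),(5,2),(11,0)]⟩,⟨1,[(1,0),(12,0),(5,0),(8,0),(13,
  0),(2,0)]⟩⟩,.a ⟨true,0,⟨0,[(31,0)]⟩,⟨0,[(28,0)]⟩⟩ ⟨true,0,⟨0,[(50,0)]⟩,⟨0,[]⟩⟩ ⟨false,0,⟨3,[(2,0),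
  (0,0),(8,0),(7,0),(0,0),(6,0)]⟩,⟨0,[(1,0),(11,0),(32,0)]⟩⟩,.o ⟨false,0,⟨5,[(1,0),(6,0),(2,0),(1,
  3),(17,3),(4,2)]⟩,⟨1,[(28,1),(7,0),(10,0)]⟩⟩]⟩) (.R ⟨0,false,false,false,[1,-1,-1],[0,-1,1],[],
  (⟨0,[(22,0)]⟩,⟨22,[(24,2),(0,2),(8,22),(0,4),(4,5),(0,2)]⟩),(⟨0,[(23,0)]⟩,⟨22,[(24,2),(0,2),(7,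
  22),(1,4),(4,5),(0,2)]⟩),⟨2,[(0,0),(22,1),(11,0),(4,2)]⟩,.k,.k,(.r (-1) ⟨0,[(1,0),(0,0),(41,0)]⟩
  ⟨2,[(14,0),(6,0),(7,2),(2,0),(10,4),(6,0)]⟩),.k,.k,.k,⟨false,0,⟨0,[(10,0),(35,0)]⟩,⟨3,[(1,1),(7,
  0),(10,3),(7,1),(0,0)]⟩⟩,⟨true,1,⟨0,[(1,0),(6,0),(37,0)]⟩,⟨0,[(4,0),(23,0)]⟩⟩,⟨true,0,⟨0,[(20,0),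
  (8,0),(13,0)]⟩,⟨0,[(6,0),(37,0)]⟩⟩,⟨false,2,⟨0,[(1,0),(18,0),(8,0),(13,0)]⟩,⟨0,[(3,0)]⟩⟩,⟨false,0,
  ⟨0,[]⟩,⟨0,[]⟩⟩,⟨false,0,⟨0,[]⟩,⟨0,[]⟩⟩,[.o ⟨false,1,⟨3,[(1,1),(2,0),(4,0),(10,0),(8,0),(6,0)]⟩,⟨5,
  [(3,1),(26,1),(5,0),(9,5),(1,0)]⟩⟩,.a ⟨true,1,⟨1,[(9,0),(19,0),(18,1)]⟩,⟨3,[(3,1),(9,0),(25,1),(1,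
  0),(4,2)]⟩⟩ ⟨false,1,⟨1,[(47,0),(0,0)]⟩,⟨0,[(50,0)]⟩⟩ ⟨true,2,⟨0,[(1,0)]⟩,⟨7,[(3,3),(0,0),(2,4),
  (5,5),(0,1),(6,0),(17,2)]⟩⟩,.e ⟨false,1,⟨1,[(24,0),(0,0),(22,0)]⟩,⟨0,[]⟩⟩ ⟨false,2,⟨0,[(1,0)]⟩,⟨1,
  [(3,0),(9,0),(7,0),(24,0)]⟩⟩,.o ⟨false,(-1),⟨0,[(4,0)]⟩,⟨1,[(1,0),(12,0),(4,0),(27,1)]⟩⟩]⟩))) (.R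
  ⟨1,true,false,true,[1,0,-1],[0,0,1],[1,0,0,-1,0,0,0,-1],(⟨0,[(31,0)]⟩,⟨0,[(32,0)]⟩),(⟨0,[(32,0)]⟩,
  ⟨0,[(31,0)]⟩),⟨0,[(20,0)]⟩,.k,.k,.k,.k,(.r (-1) ⟨2,[(8,3),(1,0),(6,1),(27,0)]⟩ ⟨0,[(0,0),(1,0),
  (23,0)]⟩),.k,⟨false,1,⟨1,[(4,1),(3,1),(36,0),(0,0)]⟩,⟨0,[(0,0),(1,0),(23,0),(15,0)]⟩⟩,⟨true,1,⟨0,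
  [(0,0),(3,0),(3,0)]⟩,⟨0,[(2,0),(23,0)]⟩⟩,⟨false,1,⟨17,[(9,1),(0,3),(18,5),(0,5),(3,0),(11,8)]⟩,⟨0,
  [(44,0)]⟩⟩,⟨true,1,⟨0,[(0,0),(42,0)]⟩,⟨0,[(1,0)]⟩⟩,⟨true,0,⟨0,[]⟩,⟨0,[(48,0)]⟩⟩,⟨false,1,⟨0,[(0,
  0)]⟩,⟨17,[(1,13),(7,5),(18,7),(5,0),(11,12)]⟩⟩,[]⟩)) (.Q [0,0,0,1,-1,0,-2,-2,0,1,-2] (.p false [0,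
  0,1] [1,0,-1] (⟨0,[(31,0)]⟩,⟨0,[(30,0)]⟩) .k 2 (⟨0,[(30,0)]⟩,⟨0,[(31,0)]⟩) .k (.r (-1) ⟨0,[(0,0),
  (17,0)]⟩ ⟨0,[(3,1),(6,1),(30,3),(3,1)]⟩)) (.I [0,0,-1,-1,1,0,0,2] (.R ⟨1,true,false,false,[0,0,1],
  [1,0,-1],[0,1,0,0,0,0,0,1],(⟨0,[(33,0)]⟩,⟨0,[(32,0)]⟩),(⟨0,[(32,0)]⟩,⟨0,[(33,0)]⟩),⟨0,[(22,0)]⟩,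
  .k,.k,.k,.k,(.r (-1) ⟨0,[(0,0)]⟩ ⟨0,[(9,0),(8,0),(26,0)]⟩),.k,⟨true,0,⟨0,[(0,0),(11,0),(30,0)]⟩,
  ⟨1,[(5,0),(3,2),(2,0),(34,0)]⟩⟩,⟨false,0,⟨0,[(19,0),(7,0)]⟩,⟨0,[(2,0),(6,1)]⟩⟩,⟨true,0,⟨0,[(49,
  0)]⟩,⟨0,[]⟩⟩,⟨false,0,⟨3,[(1,2),(8,0),(18,1),(17,2)]⟩,⟨0,[(2,0)]⟩⟩,⟨false,0,⟨0,[(45,0)]⟩,⟨89,[(2,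
  11),(7,13),(0,15),(6,23),(12,23),(3,0),(11,44)]⟩⟩,⟨true,(-1),⟨0,[(1,0)]⟩,⟨0,[(2,0),(41,0)]⟩⟩,[]⟩)
  (.Q [0,0,0,0,0,2,0,0,0,0,-1] (.p false [0,0,1] [] (⟨0,[(33,0)]⟩,⟨0,[(32,0)]⟩) .k 0 (⟨0,[]⟩,⟨0,
  []⟩) .k .k) (.R ⟨0,false,false,false,[0,-1,1],[1,-1],[1,0,1],(⟨0,[(23,0)]⟩,⟨4,[(0,1),(23,0),(0,0),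
  (7,2),(1,0),(5,0)]⟩),(⟨0,[(37,0)]⟩,⟨0,[(38,0)]⟩),⟨0,[(0,0)]⟩,.k,.k,(.r (-2) ⟨5,[(3,2),(8,3),(8,2),
  (2,0),(0,0)]⟩ ⟨2,[(1,0),(11,1),(5,0),(26,2)]⟩),.k,.k,.k,⟨true,(-1),⟨0,[(13,0)]⟩,⟨2,[(12,0),(11,0),
  (0,0)]⟩⟩,⟨false,0,⟨0,[(28,0)]⟩,⟨3,[(3,1),(6,1),(8,1),(16,0),(10,0)]⟩⟩,⟨true,(-1),⟨2,[(1,0),(11,1),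
  (5,0)]⟩,⟨1,[(3,0),(14,0),(1,0),(7,0),(15,0)]⟩⟩,⟨false,0,⟨37,[(2,15),(9,1),(2,4),(3,5),(1,2),(19,
  6),(6,18)]⟩,⟨3,[(3,1),(20,0),(0,0),(10,0)]⟩⟩,⟨false,0,⟨0,[]⟩,⟨0,[]⟩⟩,⟨false,0,⟨0,[]⟩,⟨0,[]⟩⟩,[.e
  ⟨false,0,⟨0,[]⟩,⟨1,[(24,0),(0,0),(21,0)]⟩⟩ ⟨false,1,⟨11,[(12,3),(8,5),(2,0),(0,0),(15,2),(5,5)]⟩,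
  ⟨5,[(1,2),(1,2),(9,0),(0,0),(21,0),(6,0)]⟩⟩,.o ⟨false,1,⟨89,[(3,11),(7,13),(0,15),(6,23),(12,23),
  (3,0),(11,44)]⟩,⟨0,[(14,0)]⟩⟩,.a ⟨true,0,⟨0,[(31,0)]⟩,⟨0,[(28,0)]⟩⟩ ⟨true,0,⟨1,[(31,0),(0,0)]⟩,⟨0,
  [(44,0)]⟩⟩ ⟨false,1,⟨11,[(12,3),(8,5),(2,0),(0,0),(15,2),(6,5)]⟩,⟨5,[(1,2),(1,2),(9,0),(0,0),(21,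
  0),(6,0)]⟩⟩,.o ⟨false,0,⟨8,[(1,0),(1,0),(7,1),(1,4),(17,6),(4,4)]⟩,⟨1,[(28,1),(7,0),(10,0)]⟩⟩]⟩)
  (.R ⟨1,true,false,false,[0,0,1],[1,0,-1],[0,1,0,0,0,0,0,1],(⟨0,[(34,0)]⟩,⟨0,[(33,0)]⟩),(⟨0,[(33,
  0)]⟩,⟨0,[(34,0)]⟩),⟨0,[(23,0)]⟩,.k,.k,.k,.k,(.x (-1) ⟨5,[(1,2),(1,3),(8,0),(6,1),(11,3),(1,11),(2,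
  1),(3,1),(1,0)]⟩ ⟨2,[(0,5),(6,0),(12,2),(7,1),(11,2),(3,1),(3,0)]⟩),.k,⟨true,0,⟨0,[(3,0),(0,0),
  (23,0),(15,0)]⟩,⟨1,[(1,0),(4,0),(12,0),(28,0)]⟩⟩,⟨false,0,⟨0,[(20,0),(7,0)]⟩,⟨0,[(3,0),(6,1)]⟩⟩,
  ⟨true,0,⟨0,[(50,0)]⟩,⟨0,[]⟩⟩,⟨false,0,⟨3,[(2,2),(8,0),(18,1),(17,2)]⟩,⟨0,[(3,0)]⟩⟩,⟨false,0,⟨0,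
  [(46,0)]⟩,⟨89,[(3,11),(7,13),(0,15),(6,23),(12,23),(3,0),(11,44)]⟩⟩,⟨true,(-1),⟨0,[(2,0)]⟩,⟨0,[(3,
  0),(41,0)]⟩⟩,[]⟩))) (.Q [0,0,0,2,-1,0,-2,-2,0,1,-2] (.p false [0,0,1] [1,0,-1] (⟨0,[(32,0)]⟩,⟨0,
  [(31,0)]⟩) .k 2 (⟨0,[(31,0)]⟩,⟨0,[(32,0)]⟩) .k (.r (-1) ⟨0,[(1,0),(17,0)]⟩ ⟨0,[(4,1),(6,1),(30,3),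
  (3,1)]⟩)) (.R ⟨1,true,false,false,[0,0,1],[1,1,-1],[0,1,0,0,0,0,0,1],(⟨0,[(33,0)]⟩,⟨0,[(32,0)]⟩),
  (⟨22,[(23,2),(0,2),(7,22),(1,4),(4,5),(0,2)]⟩,⟨0,[(22,0)]⟩),⟨0,[(22,0)]⟩,.k,.k,.k,(.r (-1) ⟨0,[(1,
  0),(17,0),(7,0)]⟩ ⟨1,[(0,0),(1,0),(6,1),(8,1)]⟩),(.r (-2) ⟨1,[(1,0),(0,0),(8,0),(7,0),(0,0),(6,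
  0)]⟩ ⟨1,[(0,0),(1,0),(6,3),(2,1)]⟩),.k,⟨false,1,⟨0,[(1,0),(17,0),(7,0),(15,0)]⟩,⟨0,[(9,1),(32,
  0)]⟩⟩,⟨true,0,⟨0,[(19,0),(7,0)]⟩,⟨0,[(2,0),(4,1),(39,0)]⟩⟩,⟨true,0,⟨0,[(49,0)]⟩,⟨0,[]⟩⟩,⟨false,0,
  ⟨21,[(0,16),(9,1),(0,1),(6,5),(1,2),(8,3),(17,12)]⟩,⟨0,[(1,0)]⟩⟩,⟨false,0,⟨0,[(45,0)]⟩,⟨21,[(1,0),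
  (0,1),(7,2),(0,3),(6,5),(12,5),(15,10)]⟩⟩,⟨true,(-1),⟨0,[(0,0)]⟩,⟨0,[(1,0),(42,0)]⟩⟩,[]⟩) (.Q [0,
  0,-1,-1,0,0,-1,0,0,1,-1] (.p false [0,0,1] [1] (⟨0,[(33,0)]⟩,⟨0,[(32,0)]⟩) .k 1 (⟨0,[]⟩,⟨0,[]⟩)
  .k .k) (.Q [0,0,0,0,0,2,0,0,0,0,-1] (.p false [0,0,1] [] (⟨0,[(34,0)]⟩,⟨0,[(33,0)]⟩) .k 0 (⟨0,[]⟩,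
  ⟨0,[]⟩) .k .k) (.R ⟨0,false,false,false,[0,-1,1],[1,-1],[1,0,1],(⟨0,[(24,0)]⟩,⟨22,[(25,2),(0,2),
  (7,22),(1,4),(4,5),(0,2)]⟩),(⟨0,[(38,0)]⟩,⟨0,[(39,0)]⟩),⟨0,[(0,0)]⟩,.k,.k,(.r (-2) ⟨5,[(4,2),(8,
  3),(8,2),(2,0),(0,0)]⟩ ⟨0,[(11,0),(2,0),(32,0)]⟩),.k,.k,.k,⟨true,(-1),⟨0,[(14,0)]⟩,⟨2,[(13,0),(11,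
  0),(0,0)]⟩⟩,⟨false,0,⟨0,[(29,0)]⟩,⟨3,[(4,1),(6,1),(8,1),(16,0),(10,0)]⟩⟩,⟨true,(-1),⟨0,[(11,0),(2,
  0)]⟩,⟨1,[(1,0),(2,0),(10,0),(3,0),(9,0)]⟩⟩,⟨false,0,⟨1,[(8,0),(2,1),(17,0),(19,0)]⟩,⟨3,[(4,1),(20,
  0),(0,0),(10,0)]⟩⟩,⟨false,0,⟨0,[]⟩,⟨0,[]⟩⟩,⟨false,0,⟨0,[]⟩,⟨0,[]⟩⟩,[.a ⟨true,0,⟨5,[(16,2),(8,0),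
  (0,0),(9,0),(1,0),(3,0)]⟩,⟨0,[(47,0)]⟩⟩ ⟨false,0,⟨0,[]⟩,⟨1,[(25,0),(0,0),(21,0)]⟩⟩ ⟨true,0,⟨0,[(1,
  0)]⟩,⟨2,[(14,0),(0,0),(16,2),(4,0),(6,0)]⟩⟩,.o ⟨false,1,⟨23,[(2,2),(10,3),(2,2),(3,5),(4,0),(0,0),
  (6,5),(15,11)]⟩,⟨0,[(15,0)]⟩⟩,.e ⟨true,0,⟨1,[(32,0),(0,0)]⟩,⟨0,[(45,0)]⟩⟩ ⟨true,0,⟨0,[(1,0)]⟩,⟨0,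
  [(15,0),(16,0)]⟩⟩,.o ⟨false,0,⟨4,[(2,0),(4,0),(6,2),(5,0),(11,2),(4,1)]⟩,⟨1,[(29,1),(7,0),(10,
  0)]⟩⟩]⟩) (.Q [-1,1,0,0,0,0,0,0,-1,0,0,-1] (.p false [0,0,0,0,1] [] (⟨0,[(28,0)]⟩,⟨0,[(27,0)]⟩) .k
  0 (⟨0,[]⟩,⟨0,[]⟩) .k .k) (.Q [0,0,0,0,0,1,0,0,0,-1,0,1] (.ed false [0,1,0,0,1] .k) (.Q [1,0,0,-2,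
  0,0,0,0,1,0,0,1] (.p true [0,0,0,0,1] [] (⟨0,[(30,0)]⟩,⟨0,[(29,0)]⟩) .k 0 (⟨0,[]⟩,⟨0,[]⟩) .k .k)
  (.R ⟨1,false,false,false,[0,0,0,0,1],[0,1],[0,1],(⟨0,[(31,0)]⟩,⟨0,[(30,0)]⟩),(⟨0,[(42,0)]⟩,⟨0,
  [(41,0)]⟩),⟨1,[(1,0),(1,0),(22,0),(4,0)]⟩,.k,.k,(.r (-1) ⟨2,[(16,0),(11,0),(0,0)]⟩ ⟨0,[(47,0),(6,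
  0)]⟩),(.r (-1) ⟨2,[(16,0),(11,0),(0,0)]⟩ ⟨0,[(47,0),(6,0)]⟩),(.r (-2) ⟨2,[(16,1),(11,1),(0,1)]⟩
  ⟨0,[(17,1),(30,1),(3,0)]⟩),.k,⟨false,1,⟨11,[(16,3),(11,0),(0,0),(13,5),(7,2)]⟩,⟨0,[(47,0)]⟩⟩,
  ⟨true,1,⟨1,[(2,1),(48,0),(0,0)]⟩,⟨4,[(0,2),(16,5),(11,1),(18,1),(3,0)]⟩⟩,⟨true,0,⟨0,[(54,0)]⟩,⟨0,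
  []⟩⟩,⟨false,1,⟨0,[(2,0),(47,0),(1,0)]⟩,⟨1,[(0,0),(28,0)]⟩⟩,⟨false,0,⟨0,[(17,0),(30,1),(3,0)]⟩,⟨1,
  [(0,0),(27,0),(23,0)]⟩⟩,⟨false,1,⟨0,[(2,0),(47,1),(1,0)]⟩,⟨0,[(0,0)]⟩⟩,[.e ⟨false,0,⟨0,[(48,0)]⟩,
  ⟨1,[(28,0),(0,0),(22,0)]⟩⟩ ⟨false,1,⟨1,[(2,1),(47,1),(0,0),(0,0)]⟩,⟨4,[(0,2),(16,0),(11,1),(18,1),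
  (3,0)]⟩⟩,.o ⟨false,1,⟨1,[(40,0),(9,1),(1,0)]⟩,⟨0,[(49,0)]⟩⟩,.a ⟨true,0,⟨0,[(29,0)]⟩,⟨1,[(2,1),(42,
  0),(6,0)]⟩⟩ ⟨true,0,⟨0,[(54,0)]⟩,⟨0,[]⟩⟩ ⟨false,1,⟨0,[(2,0),(47,0),(1,0)]⟩,⟨4,[(0,2),(16,0),(11,
  1),(18,1),(3,0)]⟩⟩,.o ⟨false,0,⟨3,[(0,0),(16,1),(11,2),(10,0),(5,0)]⟩,⟨1,[(2,1),(48,0),(0,
  0)]⟩⟩]⟩) (.R ⟨0,false,false,true,[1,0,0,0,-1],[0,1],[1,1,1],(⟨0,[(30,0)]⟩,⟨0,[(31,0)]⟩),(⟨0,[(42,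
  0)]⟩,⟨0,[(41,0)]⟩),⟨0,[(1,0)]⟩,.k,.k,(.r (-1) ⟨14,[(16,4),(11,2),(0,2),(22,1),(1,3)]⟩ ⟨0,[(47,0),
  (6,0)]⟩),(.r (-1) ⟨14,[(16,4),(11,2),(0,2),(22,1),(1,3)]⟩ ⟨0,[(47,0),(6,0)]⟩),.k,.k,⟨false,1,⟨2,
  [(16,0),(11,0),(0,0)]⟩,⟨0,[(50,0)]⟩⟩,⟨true,1,⟨1,[(29,1),(10,0),(10,0)]⟩,⟨0,[(0,0),(14,0),(1,0)]⟩⟩,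
  ⟨false,0,⟨1,[(35,0),(0,0)]⟩,⟨0,[(48,0),(3,0)]⟩⟩,⟨true,0,⟨0,[(18,0),(10,0)]⟩,⟨0,[(0,0),(14,0)]⟩⟩,
  ⟨false,0,⟨0,[]⟩,⟨0,[]⟩⟩,⟨false,0,⟨0,[]⟩,⟨0,[]⟩⟩,[.o ⟨false,0,⟨0,[(18,0)]⟩,⟨23,[(5,2),(10,3),(2,2),
  (3,5),(4,0),(0,0),(6,5),(15,11)]⟩⟩,.e ⟨false,0,⟨0,[]⟩,⟨1,[(28,0),(0,0),(21,0)]⟩⟩ ⟨false,1,⟨1,[(0,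
  0),(28,2),(10,0),(10,0)]⟩,⟨0,[(0,0),(14,0)]⟩⟩,.a ⟨true,0,⟨3,[(0,2),(14,1),(12,0),(16,0)]⟩,⟨0,[(29,
  0)]⟩⟩ ⟨false,0,⟨1,[(35,0),(0,0)]⟩,⟨1,[(51,0),(0,0)]⟩⟩ ⟨true,0,⟨0,[(18,0),(10,0)]⟩,⟨0,[(0,0),(14,
  0)]⟩⟩,.o ⟨false,0,⟨9,[(0,1),(1,7),(2,0),(2,1),(1,1),(4,0),(1,2),(34,3)]⟩,⟨1,[(29,1),(10,0),(10,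
  0)]⟩⟩]⟩)) (.Q [0,0,1,0,0,0,0,0,-1,0,0,-1] (.p false [0,0,0,0,1] [] (⟨0,[(30,0)]⟩,⟨0,[(29,0)]⟩) .k
  0 (⟨0,[]⟩,⟨0,[]⟩) .k .k) (.S ⟨1,0,[-1,1],[1,0,0,0,-1],[-1],(⟨0,[(30,0)]⟩,⟨0,[(31,0)]⟩),⟨0,[(1,
  0)]⟩,.k,(.r (-1) ⟨14,[(16,4),(11,2),(0,2),(22,1),(1,3)]⟩ ⟨0,[(47,0),(6,0)]⟩),⟨false,1,⟨1,[(28,0),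
  (0,0),(22,0)]⟩,⟨0,[]⟩⟩,⟨true,0,⟨0,[(54,0)]⟩,⟨0,[]⟩⟩,⟨true,0,⟨0,[(50,0)]⟩,⟨0,[(49,0)]⟩⟩,⟨false,0,
  ⟨0,[(50,0)]⟩,⟨23,[(5,2),(10,3),(2,2),(3,5),(4,0),(0,0),(6,5),(15,11)]⟩⟩,[.o ⟨false,0,⟨0,[(2,0)]⟩,
  ⟨1,[(29,1),(10,0),(11,0)]⟩⟩,.e ⟨false,1,⟨0,[(48,0),(3,0)]⟩,⟨0,[(54,0)]⟩⟩ ⟨false,1,⟨9,[(28,3),(0,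
  3),(21,4),(0,0),(1,1)]⟩,⟨0,[]⟩⟩,.a ⟨true,0,⟨1,[(2,1),(42,0),(6,0)]⟩,⟨0,[(29,0)]⟩⟩ ⟨false,1,⟨4,
  [(28,1),(0,1),(22,2),(1,0)]⟩,⟨0,[]⟩⟩ ⟨true,0,⟨0,[(54,0)]⟩,⟨0,[]⟩⟩,.o ⟨false,0,⟨0,[(0,0)]⟩,⟨1,[(29,
  1),(10,0),(10,0)]⟩⟩]⟩) (.S ⟨1,4,[],[1,0,0,0,-1],[0,1,0,-1],(⟨0,[(30,0)]⟩,⟨0,[(31,0)]⟩),⟨0,[(1,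
  0)]⟩,.k,(.r (-1) ⟨14,[(16,4),(11,2),(0,2),(22,1),(1,3)]⟩ ⟨0,[(47,0),(6,0)]⟩),⟨true,0,⟨0,[(49,0)]⟩,
  ⟨0,[(50,0)]⟩⟩,⟨false,0,⟨0,[(29,0)]⟩,⟨0,[(2,0),(49,0)]⟩⟩,⟨false,0,⟨0,[]⟩,⟨1,[(28,0),(0,0),(22,
  0)]⟩⟩,⟨true,(-1),⟨0,[(0,0),(16,0),(30,0)]⟩,⟨32,[(2,13),(12,9),(0,0),(11,18),(17,4),(5,6),(0,2)]⟩⟩,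
  [.o ⟨false,0,⟨0,[(54,0)]⟩,⟨1,[(40,0),(11,0)]⟩⟩,.e ⟨false,1,⟨2,[(16,0),(11,0),(0,0)]⟩,⟨0,[(50,
  0)]⟩⟩ ⟨false,0,⟨0,[(0,0)]⟩,⟨0,[(28,0)]⟩⟩,.a ⟨true,0,⟨1,[(2,1),(42,0),(6,0)]⟩,⟨0,[(29,0)]⟩⟩ ⟨true,
  0,⟨0,[(49,0)]⟩,⟨0,[(50,0)]⟩⟩ ⟨false,0,⟨0,[(29,0)]⟩,⟨0,[(2,0),(49,0)]⟩⟩,.e ⟨false,1,⟨2,[(16,0),(11,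
  0),(0,0)]⟩,⟨0,[(47,0)]⟩⟩ ⟨false,0,⟨0,[(0,0)]⟩,⟨17,[(2,1),(2,0),(2,1),(1,1),(4,0),(1,6),(10,15),
  (23,9)]⟩⟩]⟩))) (.Q [0,0,1,0,-1,0,0,0,1,0,0,1] (.p true [0,0,0,0,1] [] (⟨0,[(29,0)]⟩,⟨0,[(28,0)]⟩)
  .k 0 (⟨0,[]⟩,⟨0,[]⟩) .k .k) (.Q [0,0,0,0,1,0,1,0,-1,0,1,-1] (.p true [0,0,1] [0,0,0,0,1] (⟨0,[(37,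
  0)]⟩,⟨0,[(36,0)]⟩) .k 2 (⟨0,[(30,0)]⟩,⟨0,[(29,0)]⟩) .k (.r (-1) ⟨9,[(6,4),(17,4),(2,2),(0,2),(22,
  1),(1,3)]⟩ ⟨0,[(13,0)]⟩)) (.K ⟨0,[0,0,0,0,1],(-1),(-1),(⟨0,[(31,0)]⟩,⟨0,[(30,0)]⟩),.k,(.r (-1) ⟨2,
  [(16,0),(11,0),(0,0)]⟩ ⟨0,[(47,0),(6,0)]⟩),(.r 0 ⟨0,[(47,0),(6,0)]⟩ ⟨14,[(16,4),(11,2),(0,2),(22,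
  1),(1,3)]⟩),.k,.k,[⟨0,[(0,0)]⟩,⟨0,[(1,0)]⟩,⟨0,[(28,0),(25,0)]⟩,⟨0,[(1,0),(46,0)]⟩]⟩) (.Q [0,0,0,0,
  0,-1,0,0,0,0,0,1] (.ed false [1,-1,0,0,1] .k) (.R ⟨1,false,false,true,[0,0,0,0,1],[0,1],[0,1],(⟨0,
  [(32,0)]⟩,⟨0,[(31,0)]⟩),(⟨0,[(43,0)]⟩,⟨0,[(42,0)]⟩),⟨0,[(0,0)]⟩,.k,.k,(.r (-1) ⟨2,[(17,0),(11,0),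
  (0,0)]⟩ ⟨0,[(48,0),(6,0)]⟩),(.r (-1) ⟨2,[(17,0),(11,0),(0,0)]⟩ ⟨0,[(48,0),(6,0)]⟩),(.r (-2) ⟨2,
  [(17,1),(11,1),(0,1)]⟩ ⟨0,[(18,1),(30,1),(3,0)]⟩),.k,⟨true,1,⟨2,[(17,0),(11,0),(0,0)]⟩,⟨0,[(18,
  0)]⟩⟩,⟨false,2,⟨0,[(29,0),(22,0)]⟩,⟨0,[(2,0)]⟩⟩,⟨true,0,⟨0,[(55,0)]⟩,⟨0,[]⟩⟩,⟨false,1,⟨0,[(29,0),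
  (21,0)]⟩,⟨6,[(1,1),(1,4),(2,0),(4,1),(4,0),(36,0)]⟩⟩,⟨false,0,⟨0,[(18,0),(30,1),(3,0)]⟩,⟨23,[(6,
  2),(10,3),(2,2),(3,5),(4,0),(0,0),(6,5),(15,11)]⟩⟩,⟨false,1,⟨0,[(29,0),(21,1)]⟩,⟨6,[(1,3),(1,2),
  (2,1),(4,3),(4,1),(36,1)]⟩⟩,[.o ⟨false,0,⟨0,[(19,0)]⟩,⟨23,[(6,2),(10,3),(2,2),(3,5),(4,0),(0,0),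
  (6,5),(15,11)]⟩⟩,.a ⟨true,0,⟨0,[(51,0)]⟩,⟨5,[(20,2),(8,0),(0,0),(9,0),(1,0),(3,0)]⟩⟩ ⟨false,1,⟨1,
  [(29,0),(0,0),(21,0)]⟩,⟨0,[]⟩⟩ ⟨true,1,⟨0,[(29,0),(21,0)]⟩,⟨5,[(1,1),(0,3),(3,0),(4,1),(4,0),(1,
  0)]⟩⟩,.o ⟨false,0,⟨1,[(2,0),(0,0),(37,0),(7,0)]⟩,⟨0,[(29,0)]⟩⟩,.e ⟨true,0,⟨0,[(49,0)]⟩,⟨1,[(36,0),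
  (0,0)]⟩⟩ ⟨true,1,⟨0,[(29,0),(19,0),(1,0)]⟩,⟨5,[(1,1),(0,3),(3,0),(4,1),(4,0),(1,0)]⟩⟩]⟩) (.R ⟨0,
  false,false,true,[0,0,0,0,1],[0,1],[0,1],(⟨0,[(32,0)]⟩,⟨0,[(31,0)]⟩),(⟨0,[(43,0)]⟩,⟨0,[(42,0)]⟩),
  ⟨0,[(0,0)]⟩,.k,.k,(.r (-1) ⟨2,[(17,0),(11,0),(0,0)]⟩ ⟨0,[(48,0),(6,0)]⟩),(.r (-1) ⟨2,[(17,0),(11,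
  0),(0,0)]⟩ ⟨0,[(48,0),(6,0)]⟩),.k,.k,⟨true,1,⟨2,[(17,0),(11,0),(0,0)]⟩,⟨0,[(18,0)]⟩⟩,⟨false,2,⟨0,
  [(29,0),(22,0)]⟩,⟨0,[(2,0)]⟩⟩,⟨true,0,⟨0,[(55,0)]⟩,⟨0,[]⟩⟩,⟨false,1,⟨0,[(29,0),(21,0)]⟩,⟨6,[(1,1),
  (1,4),(2,0),(4,1),(4,0),(36,0)]⟩⟩,⟨false,0,⟨0,[]⟩,⟨0,[]⟩⟩,⟨false,0,⟨0,[]⟩,⟨0,[]⟩⟩,[.o ⟨false,0,⟨0,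
  [(19,0)]⟩,⟨23,[(6,2),(10,3),(2,2),(3,5),(4,0),(0,0),(6,5),(15,11)]⟩⟩,.a ⟨true,0,⟨0,[(51,0)]⟩,⟨5,
  [(20,2),(8,0),(0,0),(9,0),(1,0),(3,0)]⟩⟩ ⟨false,1,⟨1,[(29,0),(0,0),(21,0)]⟩,⟨0,[]⟩⟩ ⟨true,1,⟨0,
  [(29,0),(21,0)]⟩,⟨5,[(1,1),(0,3),(3,0),(4,1),(4,0),(1,0)]⟩⟩,.o ⟨false,0,⟨1,[(2,0),(0,0),(37,0),(7,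
  0)]⟩,⟨0,[(29,0)]⟩⟩,.e ⟨true,0,⟨0,[(49,0)]⟩,⟨1,[(36,0),(0,0)]⟩⟩ ⟨true,1,⟨0,[(29,0),(19,0),(1,0)]⟩,
  ⟨5,[(1,1),(0,3),(3,0),(4,1),(4,0),(1,0)]⟩⟩]⟩))) (.R ⟨2,true,false,false,[0,1],[0,0,0,0,1],[1,0,1],
  (⟨0,[]⟩,⟨0,[]⟩),(⟨0,[(30,0)]⟩,⟨0,[(29,0)]⟩),⟨0,[]⟩,.k,.k,.k,(.r 0 ⟨0,[(46,0),(6,0)]⟩ ⟨2,[(15,0),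
  (11,0),(0,0)]⟩),.k,.k,⟨true,0,⟨1,[(34,0),(0,0)]⟩,⟨0,[]⟩⟩,⟨false,0,⟨0,[(28,0)]⟩,⟨0,[(0,0)]⟩⟩,
  ⟨false,1,⟨23,[(4,2),(10,3),(2,2),(3,5),(4,0),(0,0),(6,5),(15,11)]⟩,⟨0,[(49,0)]⟩⟩,⟨true,0,⟨8,[(1,
  1),(2,0),(3,1),(5,0),(13,6),(10,0)]⟩,⟨0,[(0,0),(15,0),(30,0)]⟩⟩,⟨true,0,⟨0,[]⟩,⟨0,[(53,0)]⟩⟩,
  ⟨false,0,⟨0,[(1,0)]⟩,⟨1,[(0,0),(26,0),(24,0)]⟩⟩,[]⟩)))) (.Q [0,0,0,0,0,2,0,0,0,0,-1] (.p false [0,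
  0,1] [] (⟨0,[(34,0)]⟩,⟨0,[(33,0)]⟩) .k 0 (⟨0,[]⟩,⟨0,[]⟩) .k .k) (.R ⟨0,false,false,false,[0,-1,1],
  [1,-1],[1,0,1],(⟨0,[(24,0)]⟩,⟨22,[(25,2),(0,2),(7,22),(1,4),(4,5),(0,2)]⟩),(⟨0,[(38,0)]⟩,⟨0,[(39,
  0)]⟩),⟨0,[(0,0)]⟩,.k,.k,(.r (-2) ⟨5,[(4,2),(8,3),(8,2),(2,0),(0,0)]⟩ ⟨0,[(11,0),(2,0),(32,0)]⟩),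
  .k,.k,.k,⟨true,(-1),⟨0,[(14,0)]⟩,⟨2,[(13,0),(11,0),(0,0)]⟩⟩,⟨false,0,⟨0,[(29,0)]⟩,⟨6,[(1,2),(2,1),
  (8,0),(6,3),(16,0),(10,1)]⟩⟩,⟨true,(-1),⟨0,[(11,0),(2,0)]⟩,⟨1,[(4,0),(14,0),(1,0),(7,0),(15,0)]⟩⟩,
  ⟨false,0,⟨1,[(8,0),(2,1),(17,0),(19,0)]⟩,⟨3,[(4,1),(20,0),(0,0),(10,0)]⟩⟩,⟨false,0,⟨0,[]⟩,⟨0,[]⟩⟩,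
  ⟨false,0,⟨0,[]⟩,⟨0,[]⟩⟩,[.e ⟨false,0,⟨0,[]⟩,⟨1,[(25,0),(0,0),(21,0)]⟩⟩ ⟨false,1,⟨11,[(13,3),(8,5),
  (2,0),(0,0),(15,2),(5,5)]⟩,⟨0,[(1,0)]⟩⟩,.o ⟨false,1,⟨23,[(2,2),(10,3),(2,2),(3,5),(4,0),(0,0),(6,
  5),(15,11)]⟩,⟨0,[(15,0)]⟩⟩,.a ⟨true,0,⟨0,[(32,0)]⟩,⟨0,[(29,0)]⟩⟩ ⟨true,0,⟨1,[(32,0),(0,0)]⟩,⟨0,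
  [(45,0)]⟩⟩ ⟨false,1,⟨11,[(13,3),(8,5),(2,0),(0,0),(15,2),(6,5)]⟩,⟨0,[(1,0)]⟩⟩,.o ⟨false,0,⟨2,[(1,
  1),(0,0),(2,0),(14,1)]⟩,⟨1,[(29,1),(7,0),(10,0)]⟩⟩]⟩) (.Q [1,0,0,-2,0,0,0,0,1,0,0,1] (.p true [0,
  0,0,0,1] [] (⟨0,[(28,0)]⟩,⟨0,[(27,0)]⟩) .k 0 (⟨0,[]⟩,⟨0,[]⟩) .k .k) (.Q [-1,0,0,0,0,0,0,0,-1,1,0,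
  -1] (.p false [0,0,0,0,1] [1] (⟨0,[(29,0)]⟩,⟨0,[(28,0)]⟩) .k 1 (⟨0,[]⟩,⟨0,[]⟩) .k .k) (.Q [0,0,0,
  0,0,-1,0,0,0,0,0,1] (.ed false [1,-1,0,0,1] .k) (.S ⟨1,0,[1,1],[0,0,0,0,1],[1,1,1],(⟨0,[(31,0)]⟩,
  ⟨0,[(30,0)]⟩),⟨0,[(0,0)]⟩,.k,(.r (-1) ⟨2,[(16,0),(11,0),(0,0)]⟩ ⟨0,[(47,0),(6,0)]⟩),⟨false,0,⟨1,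
  [(35,0),(0,0)]⟩,⟨1,[(51,0),(0,0)]⟩⟩,⟨true,0,⟨0,[(54,0)]⟩,⟨0,[]⟩⟩,⟨true,(-1),⟨0,[(17,0),(30,0)]⟩,
  ⟨2,[(16,0),(11,0),(0,0)]⟩⟩,⟨false,0,⟨0,[(50,0)]⟩,⟨1,[(2,0),(25,0),(23,0)]⟩⟩,[.o ⟨false,0,⟨1,[(2,
  0),(15,1),(10,0)]⟩,⟨1,[(1,1),(38,0),(11,0)]⟩⟩,.a ⟨true,0,⟨0,[(29,0)]⟩,⟨0,[(1,0)]⟩⟩ ⟨false,0,⟨0,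
  []⟩,⟨1,[(28,0),(0,0),(21,0)]⟩⟩ ⟨true,0,⟨0,[]⟩,⟨1,[(35,0),(0,0)]⟩⟩,.e ⟨false,0,⟨1,[(35,0),(0,0)]⟩,
  ⟨1,[(51,0),(0,0)]⟩⟩ ⟨false,0,⟨0,[]⟩,⟨1,[(28,0),(0,0),(22,0)]⟩⟩,.o ⟨false,0,⟨5,[(2,0),(1,1),(3,1),
  (20,4),(10,0),(5,0)]⟩,⟨1,[(1,1),(38,0),(10,0)]⟩⟩]⟩) (.R ⟨0,false,false,false,[0,0,0,0,1],[0,1],[0,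
  1],(⟨0,[(31,0)]⟩,⟨0,[(30,0)]⟩),(⟨0,[(42,0)]⟩,⟨0,[(41,0)]⟩),⟨0,[(0,0)]⟩,.k,.k,(.r (-1) ⟨2,[(16,0),
  (11,0),(0,0)]⟩ ⟨0,[(47,0),(6,0)]⟩),(.r (-1) ⟨2,[(16,0),(11,0),(0,0)]⟩ ⟨0,[(47,0),(6,0)]⟩),.k,.k,
  ⟨false,1,⟨11,[(16,3),(11,0),(0,0),(13,5),(7,2)]⟩,⟨0,[(47,0)]⟩⟩,⟨true,1,⟨1,[(1,1),(38,0),(10,0)]⟩,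
  ⟨4,[(2,2),(14,5),(11,1),(18,1),(3,0)]⟩⟩,⟨true,0,⟨0,[(54,0)]⟩,⟨0,[]⟩⟩,⟨false,1,⟨1,[(1,1),(38,0),(9,
  1),(1,0)]⟩,⟨1,[(2,0),(26,0)]⟩⟩,⟨false,0,⟨0,[]⟩,⟨0,[]⟩⟩,⟨false,0,⟨0,[]⟩,⟨0,[]⟩⟩,[.e ⟨false,0,⟨0,
  [(48,0)]⟩,⟨1,[(28,0),(0,0),(22,0)]⟩⟩ ⟨false,1,⟨1,[(1,1),(38,0),(9,1),(0,0)]⟩,⟨4,[(2,2),(14,0),(11,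
  1),(18,1),(3,0)]⟩⟩,.o ⟨false,1,⟨1,[(40,0),(9,1),(1,0)]⟩,⟨0,[(49,0)]⟩⟩,.a ⟨true,0,⟨0,[(29,0)]⟩,⟨0,
  [(1,0)]⟩⟩ ⟨true,0,⟨0,[(54,0)]⟩,⟨0,[]⟩⟩ ⟨false,1,⟨1,[(1,1),(38,0),(9,1),(1,0)]⟩,⟨4,[(2,2),(14,0),
  (11,1),(18,1),(3,0)]⟩⟩,.o ⟨false,0,⟨5,[(2,0),(1,1),(3,1),(20,4),(10,0),(5,0)]⟩,⟨1,[(1,1),(38,0),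
  (10,0)]⟩⟩]⟩)) (.Q [0,0,0,0,0,-1,0,0,0,0,0,1] (.ed false [1,-1,0,0,1] .k) (.Q [0,0,1,0,-1,0,0,0,1,
  0,0,1] (.p true [0,0,0,0,1] [] (⟨0,[(31,0)]⟩,⟨0,[(30,0)]⟩) .k 0 (⟨0,[]⟩,⟨0,[]⟩) .k .k) (.Q [0,0,0,
  0,1,0,1,0,-1,0,1,-1] (.p true [0,0,1] [0,0,0,0,1] (⟨0,[(39,0)]⟩,⟨0,[(38,0)]⟩) .k 2 (⟨0,[(32,0)]⟩,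
  ⟨0,[(31,0)]⟩) .k (.r (-1) ⟨9,[(8,4),(17,4),(2,2),(0,2),(22,1),(1,3)]⟩ ⟨0,[(15,0)]⟩)) (.K ⟨0,[0,0,
  0,0,1],(-1),(-1),(⟨0,[(33,0)]⟩,⟨0,[(32,0)]⟩),.k,(.r (-1) ⟨2,[(18,0),(11,0),(0,0)]⟩ ⟨0,[(49,0),(6,
  0)]⟩),(.r 0 ⟨0,[(49,0),(6,0)]⟩ ⟨14,[(18,4),(11,2),(0,2),(22,1),(1,3)]⟩),.k,.k,[⟨0,[(0,0)]⟩,⟨0,[(1,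
  0)]⟩,⟨0,[(30,0),(25,0)]⟩,⟨0,[(1,0),(48,0)]⟩]⟩) (.R ⟨1,false,false,true,[0,0,0,0,1],[0,1],[0,1],
  (⟨0,[(33,0)]⟩,⟨0,[(32,0)]⟩),(⟨0,[(44,0)]⟩,⟨0,[(43,0)]⟩),⟨0,[(2,0)]⟩,.k,.k,(.r (-1) ⟨2,[(18,0),(11,
  0),(0,0)]⟩ ⟨0,[(49,0),(6,0)]⟩),(.r (-1) ⟨2,[(18,0),(11,0),(0,0)]⟩ ⟨0,[(49,0),(6,0)]⟩),(.r (-2) ⟨2,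
  [(18,1),(11,1),(0,1)]⟩ ⟨0,[(6,1),(3,1),(36,0),(2,3),(3,1)]⟩),.k,⟨true,1,⟨2,[(18,0),(11,0),(0,0)]⟩,
  ⟨0,[(19,0)]⟩⟩,⟨false,2,⟨0,[(30,0),(22,0)]⟩,⟨0,[(1,0)]⟩⟩,⟨true,0,⟨0,[(56,0)]⟩,⟨0,[]⟩⟩,⟨false,1,⟨0,
  [(30,0),(21,0)]⟩,⟨13,[(0,3),(0,9),(5,1),(4,3),(5,1),(28,0),(5,1),(0,6)]⟩⟩,⟨false,0,⟨1,[(6,1),(3,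
  1),(36,0),(2,5),(3,2)]⟩,⟨1,[(4,0),(25,0),(23,0)]⟩⟩,⟨false,1,⟨0,[(30,0),(21,1)]⟩,⟨5,[(0,3),(3,1),
  (2,1),(4,3),(34,0),(6,2)]⟩⟩,[.o ⟨false,0,⟨0,[(20,0)]⟩,⟨1,[(4,0),(25,0),(23,0)]⟩⟩,.a ⟨true,0,⟨0,
  [(52,0)]⟩,⟨5,[(21,2),(8,0),(0,0),(9,0),(1,0),(3,0)]⟩⟩ ⟨false,1,⟨1,[(30,0),(0,0),(21,0)]⟩,⟨0,[]⟩⟩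
  ⟨true,1,⟨0,[(30,0),(21,0)]⟩,⟨5,[(0,1),(0,3),(5,0),(4,1),(4,0),(1,0)]⟩⟩,.o ⟨false,0,⟨3,[(1,1),(1,
  1),(44,0),(4,0)]⟩,⟨0,[(30,0)]⟩⟩,.e ⟨true,0,⟨0,[(50,0)]⟩,⟨1,[(37,0),(0,0)]⟩⟩ ⟨true,1,⟨0,[(30,0),
  (19,0),(1,0)]⟩,⟨5,[(0,1),(0,3),(5,0),(4,1),(4,0),(1,0)]⟩⟩]⟩)) (.Q [1,-1,0,0,0,0,0,0,1,0,0,1] (.p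
  true [0,0,0,0,1] [] (⟨0,[(32,0)]⟩,⟨0,[(31,0)]⟩) .k 0 (⟨0,[]⟩,⟨0,[]⟩) .k .k) (.R ⟨2,true,false,
  false,[0,1],[0,0,0,0,1],[1,0,1],(⟨0,[]⟩,⟨0,[]⟩),(⟨0,[(33,0)]⟩,⟨0,[(32,0)]⟩),⟨0,[]⟩,.k,.k,.k,(.r 0
  ⟨0,[(49,0),(6,0)]⟩ ⟨2,[(18,0),(11,0),(0,0)]⟩),.k,.k,⟨true,0,⟨1,[(37,0),(0,0)]⟩,⟨0,[]⟩⟩,⟨false,0,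
  ⟨0,[(31,0)]⟩,⟨0,[(1,0)]⟩⟩,⟨false,1,⟨1,[(4,0),(25,0),(23,0)]⟩,⟨0,[(52,0)]⟩⟩,⟨true,0,⟨1,[(4,0),(26,
  0)]⟩,⟨0,[(1,0),(17,0),(30,0)]⟩⟩,⟨true,0,⟨0,[]⟩,⟨0,[(56,0)]⟩⟩,⟨false,0,⟨0,[(0,0)]⟩,⟨1,[(1,0),(28,
  0),(24,0)]⟩⟩,[]⟩) (.S ⟨1,0,[1],[0,0,0,0,1],[1,1],(⟨0,[(33,0)]⟩,⟨0,[(32,0)]⟩),⟨0,[(2,0)]⟩,.k,(.r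
  (-1) ⟨2,[(18,0),(11,0),(0,0)]⟩ ⟨0,[(49,0),(6,0)]⟩),⟨true,0,⟨0,[(56,0)]⟩,⟨0,[]⟩⟩,⟨false,1,⟨1,[(30,
  0),(0,0),(22,0)]⟩,⟨0,[]⟩⟩,⟨false,0,⟨0,[(52,0)]⟩,⟨1,[(4,0),(25,0),(23,0)]⟩⟩,⟨true,0,⟨0,[(52,0)]⟩,
  ⟨0,[(51,0)]⟩⟩,[.o ⟨false,0,⟨0,[(3,0)]⟩,⟨1,[(1,0),(28,0),(24,0)]⟩⟩,.o ⟨false,1,⟨1,[(31,1),(10,0),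
  (11,0)]⟩,⟨0,[(0,0)]⟩⟩,.a ⟨true,0,⟨0,[(31,0)]⟩,⟨1,[(0,1),(46,0),(6,0)]⟩⟩ ⟨false,0,⟨0,[]⟩,⟨1,[(30,
  0),(0,0),(22,0)]⟩⟩ ⟨true,0,⟨0,[]⟩,⟨0,[(56,0)]⟩⟩,.o ⟨false,0,⟨5,[(4,0),(1,1),(3,1),(20,4),(10,0),
  (5,0)]⟩,⟨0,[(1,0)]⟩⟩]⟩))) (.Q [1,1,0,0,-1,0,0,0,1,0,0,1] (.p true [0,0,0,0,1] [] (⟨0,[(31,0)]⟩,⟨0,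
  [(30,0)]⟩) .k 0 (⟨0,[]⟩,⟨0,[]⟩) .k .k) (.Q [1,-1,0,-1,0,0,0,0,1,0,0,1] (.p true [0,0,0,0,1] []
  (⟨0,[(32,0)]⟩,⟨0,[(31,0)]⟩) .k 0 (⟨0,[]⟩,⟨0,[]⟩) .k .k) (.Q [0,0,1,-1,-1,0,0,0,1,0,0,1] (.p true
  [0,0,0,0,1] [] (⟨0,[(33,0)]⟩,⟨0,[(32,0)]⟩) .k 0 (⟨0,[]⟩,⟨0,[]⟩) .k .k) (.R ⟨0,false,false,true,[0,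
  0,0,0,1],[0,1],[0,1],(⟨0,[(34,0)]⟩,⟨0,[(33,0)]⟩),(⟨0,[(45,0)]⟩,⟨0,[(44,0)]⟩),⟨0,[(3,0)]⟩,.k,.k,
  (.r (-1) ⟨2,[(19,0),(11,0),(0,0)]⟩ ⟨0,[(50,0),(6,0)]⟩),(.r (-1) ⟨2,[(19,0),(11,0),(0,0)]⟩ ⟨0,[(50,
  0),(6,0)]⟩),.k,.k,⟨true,1,⟨2,[(19,0),(11,0),(0,0)]⟩,⟨0,[(20,0)]⟩⟩,⟨false,2,⟨0,[(31,0),(22,0)]⟩,⟨2,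
  [(0,1),(1,0),(47,0),(2,0)]⟩⟩,⟨true,0,⟨0,[(57,0)]⟩,⟨0,[]⟩⟩,⟨false,1,⟨0,[(31,0),(21,0)]⟩,⟨0,[(1,
  0)]⟩⟩,⟨false,0,⟨0,[]⟩,⟨0,[]⟩⟩,⟨false,0,⟨0,[]⟩,⟨0,[]⟩⟩,[.o ⟨false,0,⟨0,[(21,0)]⟩,⟨1,[(5,0),(25,0),
  (23,0)]⟩⟩,.a ⟨true,0,⟨0,[(53,0)]⟩,⟨5,[(22,2),(8,0),(0,0),(9,0),(1,0),(3,0)]⟩⟩ ⟨false,1,⟨1,[(31,0),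
  (0,0),(21,0)]⟩,⟨0,[]⟩⟩ ⟨true,1,⟨0,[(31,0),(21,0)]⟩,⟨0,[(0,0)]⟩⟩,.o ⟨false,0,⟨5,[(0,1),(3,3),(44,
  0),(3,1),(0,0)]⟩,⟨0,[(31,0)]⟩⟩,.e ⟨true,0,⟨0,[(51,0)]⟩,⟨1,[(38,0),(0,0)]⟩⟩ ⟨true,1,⟨0,[(31,0),(19,
  0),(1,0)]⟩,⟨0,[(0,0)]⟩⟩]⟩) (.R ⟨0,false,false,true,[0,0,0,0,1],[0,1],[0,1],(⟨0,[(34,0)]⟩,⟨0,[(33,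
  0)]⟩),(⟨0,[(45,0)]⟩,⟨0,[(44,0)]⟩),⟨0,[(3,0)]⟩,.k,.k,(.r (-1) ⟨2,[(19,0),(11,0),(0,0)]⟩ ⟨0,[(50,0),
  (6,0)]⟩),(.r (-1) ⟨2,[(19,0),(11,0),(0,0)]⟩ ⟨0,[(50,0),(6,0)]⟩),.k,.k,⟨true,1,⟨2,[(19,0),(11,0),
  (0,0)]⟩,⟨0,[(20,0)]⟩⟩,⟨false,2,⟨2,[(0,2),(18,0),(11,0),(0,0)]⟩,⟨0,[(1,0),(18,0),(30,0)]⟩⟩,⟨true,0,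
  ⟨0,[(57,0)]⟩,⟨0,[]⟩⟩,⟨false,1,⟨1,[(0,0),(30,0),(18,0),(6,0)]⟩,⟨0,[(1,0)]⟩⟩,⟨false,0,⟨0,[]⟩,⟨0,
  []⟩⟩,⟨false,0,⟨0,[]⟩,⟨0,[]⟩⟩,[.o ⟨false,0,⟨0,[(21,0)]⟩,⟨1,[(5,0),(25,0),(23,0)]⟩⟩,.e ⟨false,1,⟨5,
  [(0,2),(18,0),(11,0),(0,3)]⟩,⟨0,[]⟩⟩ ⟨false,1,⟨0,[(0,0)]⟩,⟨34,[(1,0),(0,0),(2,16),(0,1),(22,1),(2,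
  15),(9,5),(6,0)]⟩⟩,.o ⟨false,0,⟨1,[(2,1),(46,0),(5,0)]⟩,⟨0,[(31,0)]⟩⟩,.a ⟨true,(-1),⟨0,[(1,0),(18,
  0),(30,0)]⟩,⟨53,[(0,26),(18,8),(11,27),(0,0),(9,15),(1,15),(3,18)]⟩⟩ ⟨true,0,⟨0,[(51,0)]⟩,⟨1,[(38,
  0),(0,0)]⟩⟩ ⟨false,1,⟨0,[(0,0)]⟩,⟨4,[(1,0),(3,2),(14,1),(11,0),(22,1),(0,0)]⟩⟩]⟩)) (.R ⟨1,false,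
  false,false,[1,0,0,0,-1],[0,1],[1,1,1],(⟨0,[(32,0)]⟩,⟨0,[(33,0)]⟩),(⟨0,[(44,0)]⟩,⟨0,[(43,0)]⟩),⟨1,
  [(2,0),(2,0),(22,0),(3,0)]⟩,.k,.k,(.r (-1) ⟨14,[(18,4),(11,2),(0,2),(22,1),(1,3)]⟩ ⟨0,[(49,0),(6,
  0)]⟩),(.r (-1) ⟨14,[(18,4),(11,2),(0,2),(22,1),(1,3)]⟩ ⟨0,[(49,0),(6,0)]⟩),(.r (-2) ⟨14,[(18,9),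
  (11,8),(0,8),(22,0),(1,1)]⟩ ⟨0,[(19,0),(32,0)]⟩),.k,⟨true,0,⟨0,[(51,0)]⟩,⟨1,[(6,1),(3,1),(36,0),
  (2,3),(3,2)]⟩⟩,⟨false,1,⟨0,[(3,0),(49,0)]⟩,⟨3,[(0,1),(18,1),(1,1),(8,1),(16,0),(6,0)]⟩⟩,⟨false,0,
  ⟨1,[(37,0),(0,0)]⟩,⟨0,[(50,0),(3,0)]⟩⟩,⟨true,0,⟨0,[(3,0),(48,0)]⟩,⟨0,[(0,0),(20,0)]⟩⟩,⟨true,(-1),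
  ⟨1,[(0,0),(0,0),(17,0)]⟩,⟨14,[(18,4),(11,2),(0,2),(22,1),(1,3)]⟩⟩,⟨true,0,⟨0,[(3,0),(48,1)]⟩,⟨0,
  [(0,0),(16,0)]⟩⟩,[.a ⟨true,0,⟨0,[(52,0)]⟩,⟨5,[(21,2),(8,0),(0,0),(9,0),(1,0),(3,0)]⟩⟩ ⟨false,0,⟨0,
  [(56,0)]⟩,⟨1,[(53,0),(0,0)]⟩⟩ ⟨true,0,⟨0,[(3,0),(48,0)]⟩,⟨7,[(0,5),(16,5),(1,3),(10,1),(16,0),(6,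
  2)]⟩⟩,.o ⟨false,1,⟨1,[(42,0),(9,1),(1,0)]⟩,⟨0,[(51,0)]⟩⟩,.o ⟨false,1,⟨0,[(30,0)]⟩,⟨1,[(1,1),(46,
  0),(5,0)]⟩⟩,.e ⟨false,0,⟨0,[]⟩,⟨1,[(30,0),(0,0),(22,0)]⟩⟩ ⟨false,1,⟨1,[(3,1),(48,1),(0,0),(0,0)]⟩,
  ⟨7,[(0,5),(16,5),(1,3),(10,1),(16,0),(6,2)]⟩⟩]⟩)) (.R ⟨1,false,false,false,[0,0,1],[1,0,0,0,-1],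
  [0,0,0,0,0,0,0,1],(⟨0,[(39,0)]⟩,⟨0,[(38,0)]⟩),(⟨0,[(31,0)]⟩,⟨0,[(32,0)]⟩),⟨0,[(28,0)]⟩,.k,.k,.k,
  .k,(.r (-1) ⟨7,[(6,0),(1,2),(8,1),(7,1),(0,1),(6,1)]⟩ ⟨1,[(5,17),(0,1),(2,15),(0,5),(35,6),(2,47),
  (3,26)]⟩),.k,⟨false,1,⟨1,[(8,0),(17,0),(25,0)]⟩,⟨1,[(5,3),(3,1),(0,1),(35,0),(2,7),(3,4)]⟩⟩,⟨true,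
  0,⟨0,[(0,0),(11,0),(36,0)]⟩,⟨15,[(2,0),(0,7),(0,0),(0,15),(21,0),(2,6),(9,2)]⟩⟩,⟨false,1,⟨1,[(29,
  0),(0,0),(22,0)]⟩,⟨0,[]⟩⟩,⟨true,0,⟨0,[(0,0),(12,0),(19,0)]⟩,⟨0,[(2,0),(31,0)]⟩⟩,⟨true,0,⟨0,[(51,
  0)]⟩,⟨0,[(50,0)]⟩⟩,⟨true,0,⟨0,[(0,0),(12,0),(19,0),(17,0)]⟩,⟨1,[(2,1),(11,0),(19,0)]⟩⟩,[.o ⟨false,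
  1,⟨2,[(0,0),(28,1),(25,0)]⟩,⟨0,[(2,0)]⟩⟩,.o ⟨false,1,⟨0,[(0,0)]⟩,⟨1,[(3,0),(15,1),(10,0)]⟩⟩,.o
  ⟨false,1,⟨6,[(5,2),(2,1),(8,0),(6,3),(16,0),(10,1)]⟩,⟨0,[(25,0)]⟩⟩,.a ⟨true,0,⟨0,[(36,0)]⟩,⟨0,
  [(33,0)]⟩⟩ ⟨true,1,⟨1,[(8,0),(17,0),(25,0)]⟩,⟨0,[(13,0)]⟩⟩ ⟨false,1,⟨0,[(0,0),(32,0)]⟩,⟨1,[(3,0),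
  (1,1),(24,0)]⟩⟩]⟩)))) (.Q [-1,0,0,1,0,0,0,0,-1,0,0,-1] (.p false [0,0,0,0,1] [] (⟨0,[(29,0)]⟩,⟨0,
  [(28,0)]⟩) .k 0 (⟨0,[]⟩,⟨0,[]⟩) .k .k) (.R ⟨2,true,false,false,[0,1],[0,0,0,0,1],[0,1,1,1],(⟨0,
  []⟩,⟨0,[]⟩),(⟨0,[(30,0)]⟩,⟨0,[(29,0)]⟩),⟨0,[]⟩,.k,.k,.k,(.r 0 ⟨0,[(46,0),(6,0)]⟩ ⟨2,[(15,0),(11,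
  0),(0,0)]⟩),.k,.k,⟨true,(-1),⟨1,[(3,1),(3,1),(36,0),(2,3),(3,0)]⟩,⟨23,[(4,2),(10,3),(2,2),(3,5),
  (4,0),(0,0),(6,5),(15,11)]⟩⟩,⟨false,0,⟨0,[(28,0)]⟩,⟨2,[(0,0),(0,0),(13,0),(11,0)]⟩⟩,⟨true,0,⟨0,
  [(53,0)]⟩,⟨0,[]⟩⟩,⟨false,1,⟨23,[(4,2),(10,3),(2,2),(3,5),(4,0),(0,24),(6,5),(15,11)]⟩,⟨0,[(0,
  0)]⟩⟩,⟨false,0,⟨0,[(49,0)]⟩,⟨23,[(4,2),(10,3),(2,2),(3,5),(4,0),(0,0),(6,5),(15,11)]⟩⟩,⟨true,0,⟨0,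
  [(28,0)]⟩,⟨55,[(0,41),(6,4),(0,7),(2,4),(0,12),(14,13),(11,3),(2,14)]⟩⟩,[]⟩) (.Q [0,0,2,0,-1,0,0,
  0,1,0,0,1] (.p true [0,0,0,0,1] [] (⟨0,[(30,0)]⟩,⟨0,[(29,0)]⟩) .k 0 (⟨0,[]⟩,⟨0,[]⟩) .k .k) (.R ⟨1,
  true,false,false,[1,-1],[1,0,0,0,-1],[0,1,-1,-1],(⟨0,[(41,0)]⟩,⟨0,[(42,0)]⟩),(⟨0,[(30,0)]⟩,⟨0,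
  [(31,0)]⟩),⟨1,[(3,0),(22,0),(14,0)]⟩,.k,.k,(.x 1 ⟨0,[(20,0)]⟩ ⟨2,[(3,1),(22,1),(1,1),(0,1),(10,0),
  (10,2)]⟩),(.r (-1) ⟨2,[(16,0),(11,0),(0,0)]⟩ ⟨0,[(47,0),(6,0)]⟩),(.r (-2) ⟨2,[(16,1),(11,1),(0,
  1)]⟩ ⟨0,[(0,0),(1,0)]⟩),.k,⟨false,1,⟨11,[(16,3),(11,0),(0,0),(13,5),(7,2)]⟩,⟨1,[(4,1),(3,1),(36,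
  0),(2,3),(3,2)]⟩⟩,⟨true,1,⟨11,[(2,8),(12,1),(0,3),(11,2),(11,0)]⟩,⟨0,[(0,0)]⟩⟩,⟨true,0,⟨0,[(54,
  0)]⟩,⟨0,[]⟩⟩,⟨false,1,⟨1,[(2,0),(25,0),(23,0)]⟩,⟨0,[(1,0)]⟩⟩,⟨false,0,⟨0,[(50,0)]⟩,⟨23,[(5,2),(10,
  3),(2,2),(3,5),(4,0),(0,0),(6,5),(15,11)]⟩⟩,⟨true,0,⟨0,[(2,0)]⟩,⟨0,[(0,0),(21,0)]⟩⟩,[]⟩) (.I [1,0,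
  1,0,-1,1,-1] (.I [0,0,1,1,0,-1,1] (.C [(0,0),(0,0),(0,0),(0,0)]) (.C [(0,0),(5,0),(21,0)])) (.C
  [(0,0),(3,0),(7,0),(32,0)])))))))))) (.I [0,0,1,1,0,0,0,2] (.Q [0,0,0,0,0,2,0,0,0,-1,1] (.p true
  [0,0,1] [1] (⟨0,[(31,0)]⟩,⟨0,[(30,0)]⟩) .k 1 (⟨0,[]⟩,⟨0,[]⟩) .k .k) (.R ⟨0,false,false,true,[1,-1,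
  -1],[1,-1],[0,1,0,-1],(⟨0,[(20,0)]⟩,⟨4,[(0,1),(21,0),(0,0),(8,2),(0,0),(5,0)]⟩),(⟨0,[(35,0)]⟩,⟨0,
  [(36,0)]⟩),⟨0,[(0,0)]⟩,.k,.k,(.r (-1) ⟨1,[(2,1),(0,1),(30,0),(11,0)]⟩ ⟨0,[(1,0),(15,0),(26,0)]⟩),
  .k,.k,.k,⟨true,0,⟨1,[(29,0),(0,0)]⟩,⟨0,[]⟩⟩,⟨false,1,⟨2,[(2,1),(19,0),(0,0),(5,0)]⟩,⟨0,[(18,0)]⟩⟩,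
  ⟨false,0,⟨19,[(1,9),(7,3),(1,1),(17,2),(0,2),(3,1)]⟩,⟨1,[(8,1),(36,0),(0,0)]⟩⟩,⟨true,0,⟨0,[(27,
  0)]⟩,⟨0,[(8,0),(9,0)]⟩⟩,⟨false,0,⟨0,[]⟩,⟨0,[]⟩⟩,⟨false,0,⟨0,[]⟩,⟨0,[]⟩⟩,[.o ⟨false,0,⟨0,[(43,0)]⟩,
  ⟨1,[(34,0),(9,1),(1,0)]⟩⟩,.a ⟨true,0,⟨5,[(13,2),(8,0),(0,0),(9,0),(1,0),(3,0)]⟩,⟨0,[(44,0)]⟩⟩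
  ⟨false,1,⟨2,[(10,0),(11,0),(0,0)]⟩,⟨0,[(44,0)]⟩⟩ ⟨true,1,⟨2,[(2,0),(7,0),(18,1)]⟩,⟨0,[(11,0),(6,
  0)]⟩⟩,.a ⟨true,(-1),⟨0,[(5,0)]⟩,⟨2,[(2,1),(19,0),(0,0),(5,0)]⟩⟩ ⟨true,0,⟨0,[(43,0)]⟩,⟨0,[(44,
  0)]⟩⟩ ⟨false,1,⟨2,[(2,0),(7,0),(18,1)]⟩,⟨0,[(18,0),(22,0)]⟩⟩,.a ⟨true,(-1),⟨1,[(11,1),(1,0),(5,
  0)]⟩,⟨0,[(2,0)]⟩⟩ ⟨false,1,⟨2,[(10,0),(11,0),(0,0)]⟩,⟨0,[(41,0)]⟩⟩ ⟨true,1,⟨13,[(2,8),(3,0),(0,0),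
  (8,5),(12,3),(7,2)]⟩,⟨0,[(11,0),(6,0)]⟩⟩]⟩) (.S ⟨1,0,[0,0,-1,-1,0,0,0,-1],[1,-1,-1],[0,1,-1,-1,0,
  0,0,-1],(⟨0,[(20,0)]⟩,⟨22,[(22,2),(0,2),(8,22),(0,4),(4,5),(0,2)]⟩),⟨0,[(0,0)]⟩,.k,(.r (-1) ⟨1,
  [(2,1),(0,1),(30,0),(11,0)]⟩ ⟨0,[(1,0),(15,0),(26,0)]⟩),⟨true,0,⟨0,[(48,0)]⟩,⟨0,[]⟩⟩,⟨false,1,⟨1,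
  [(22,0),(0,0),(22,0)]⟩,⟨0,[]⟩⟩,⟨false,0,⟨0,[(44,0)]⟩,⟨17,[(9,1),(0,3),(18,5),(0,5),(3,0),(11,
  8)]⟩⟩,⟨true,0,⟨0,[(44,0)]⟩,⟨0,[(43,0)]⟩⟩,[.o ⟨false,0,⟨3,[(3,1),(4,1),(9,1),(15,0),(11,0)]⟩,⟨23,
  [(1,11),(0,13),(9,5),(9,0),(0,0),(5,9),(4,8),(6,5)]⟩⟩,.a ⟨true,0,⟨3,[(3,1),(1,0),(2,1),(17,0),(19,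
  2)]⟩,⟨0,[(27,0),(16,0)]⟩⟩ ⟨false,1,⟨0,[(4,0),(40,0)]⟩,⟨2,[(1,1),(15,0),(26,0)]⟩⟩ ⟨true,1,⟨1,[(4,
  1),(40,0),(0,0)]⟩,⟨0,[(1,0),(4,0)]⟩⟩,.a ⟨true,(-1),⟨0,[(5,0)]⟩,⟨2,[(2,1),(19,0),(0,0),(5,0)]⟩⟩
  ⟨true,0,⟨4,[(2,2),(0,2),(2,0),(1,0),(3,0),(21,0)]⟩,⟨2,[(1,1),(15,0),(26,0)]⟩⟩ ⟨false,1,⟨1,[(4,1),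
  (40,0),(0,0)]⟩,⟨2,[(1,1),(15,0),(26,0)]⟩⟩,.a ⟨true,(-1),⟨1,[(11,1),(1,0),(5,0)]⟩,⟨0,[(2,0)]⟩⟩
  ⟨false,1,⟨0,[(4,0),(40,0)]⟩,⟨3,[(1,1),(9,1),(17,0),(0,0),(15,1)]⟩⟩ ⟨true,1,⟨0,[(4,0),(40,0)]⟩,⟨0,
  [(1,0),(4,0)]⟩⟩]⟩)) (.Q [0,0,0,0,0,2,0,0,0,0,-1] (.p false [0,0,1] [] (⟨0,[(31,0)]⟩,⟨0,[(30,0)]⟩)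
  .k 0 (⟨0,[]⟩,⟨0,[]⟩) .k .k) (.R ⟨0,false,false,true,[0,-1,1],[1,-1,-1],[0,1],(⟨0,[(21,0)]⟩,⟨22,
  [(22,2),(0,2),(7,22),(1,4),(4,5),(0,2)]⟩),(⟨0,[(20,0)]⟩,⟨22,[(22,2),(0,2),(8,22),(0,4),(4,5),(0,
  2)]⟩),⟨0,[(0,0)]⟩,.k,.k,(.r (-2) ⟨5,[(10,3),(7,1),(0,1),(7,5),(6,0),(11,2)]⟩ ⟨0,[(8,0),(2,0),(32,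
  0)]⟩),.k,.k,.k,⟨true,0,⟨0,[(18,0),(8,0),(13,0)]⟩,⟨0,[(4,0)]⟩⟩,⟨false,0,⟨0,[(18,0),(7,0)]⟩,⟨9,[(1,
  0),(0,8),(4,1),(3,4),(17,8),(4,4),(11,0)]⟩⟩,⟨true,(-1),⟨0,[(6,0),(37,0)]⟩,⟨1,[(7,0),(18,1),(0,0),
  (6,0),(11,0)]⟩⟩,⟨false,(-1),⟨0,[(1,0),(9,0),(6,0),(7,0)]⟩,⟨1,[(27,3),(6,0),(11,2)]⟩⟩,⟨false,0,⟨0,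
  []⟩,⟨0,[]⟩⟩,⟨false,0,⟨0,[]⟩,⟨0,[]⟩⟩,[.e ⟨false,0,⟨0,[(42,0)]⟩,⟨1,[(22,0),(0,0),(22,0)]⟩⟩ ⟨false,0,
  ⟨6,[(1,2),(1,0),(12,0),(1,6),(7,5),(10,1),(4,0)]⟩,⟨3,[(2,3),(4,0),(3,5),(15,2),(6,1),(11,3)]⟩⟩,.o
  ⟨false,0,⟨5,[(1,1),(1,1),(14,1),(11,1),(3,0),(11,0)]⟩,⟨1,[(27,1),(6,0),(9,1),(1,0)]⟩⟩,.a ⟨true,0,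
  ⟨0,[(29,0)]⟩,⟨0,[(26,0)]⟩⟩ ⟨true,0,⟨0,[(48,0)]⟩,⟨0,[]⟩⟩ ⟨false,0,⟨17,[(1,6),(1,3),(6,0),(7,11),(0,
  5),(6,7),(19,1)]⟩,⟨3,[(2,3),(4,0),(3,5),(15,2),(6,1),(11,3)]⟩⟩,.o ⟨false,0,⟨12,[(1,0),(5,1),(1,0),
  (1,7),(17,10),(4,6),(11,0)]⟩,⟨1,[(26,1),(7,0),(10,0)]⟩⟩]⟩) (.R ⟨0,false,false,true,[1,-1,-1],[1,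
  -1],[0,1,0,-1],(⟨0,[(20,0)]⟩,⟨22,[(22,2),(0,2),(8,22),(0,4),(4,5),(0,2)]⟩),(⟨0,[(35,0)]⟩,⟨0,[(36,
  0)]⟩),⟨2,[(0,0),(20,1),(11,0),(4,2)]⟩,.k,.k,(.r (-1) ⟨1,[(1,0),(8,0)]⟩ ⟨2,[(12,0),(6,0),(7,2),(2,
  0),(10,4),(6,0)]⟩),.k,.k,.k,⟨true,0,⟨1,[(29,0),(0,0)]⟩,⟨0,[]⟩⟩,⟨false,1,⟨2,[(2,1),(19,0),(0,0),(5,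
  0)]⟩,⟨0,[(18,0)]⟩⟩,⟨false,0,⟨3,[(7,0),(3,1),(6,3),(8,2),(18,1)]⟩,⟨2,[(1,0),(0,0),(25,0),(15,0),(1,
  1)]⟩⟩,⟨true,0,⟨0,[(27,0)]⟩,⟨2,[(1,0),(16,1),(9,0),(12,0)]⟩⟩,⟨false,0,⟨0,[]⟩,⟨0,[]⟩⟩,⟨false,0,⟨0,
  []⟩,⟨0,[]⟩⟩,[.o ⟨false,0,⟨0,[(43,0)]⟩,⟨1,[(34,0),(9,1),(1,0)]⟩⟩,.a ⟨true,0,⟨5,[(13,2),(8,0),(0,0),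
  (9,0),(1,0),(3,0)]⟩,⟨0,[(44,0)]⟩⟩ ⟨false,1,⟨2,[(10,0),(11,0),(0,0)]⟩,⟨0,[(44,0)]⟩⟩ ⟨true,1,⟨2,[(2,
  0),(7,0),(18,1)]⟩,⟨0,[(11,0),(6,0)]⟩⟩,.a ⟨true,(-1),⟨0,[(5,0)]⟩,⟨2,[(2,1),(19,0),(0,0),(5,0)]⟩⟩
  ⟨true,0,⟨0,[(43,0)]⟩,⟨0,[(44,0)]⟩⟩ ⟨false,1,⟨2,[(2,0),(7,0),(18,1)]⟩,⟨0,[(18,0),(22,0)]⟩⟩,.a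
  ⟨true,(-1),⟨1,[(11,1),(1,0),(5,0)]⟩,⟨0,[(2,0)]⟩⟩ ⟨false,1,⟨2,[(10,0),(11,0),(0,0)]⟩,⟨0,[(41,0)]⟩⟩
  ⟨true,1,⟨22,[(1,0),(0,13),(4,1),(8,8),(12,6),(7,5)]⟩,⟨0,[(11,0),(6,0)]⟩⟩]⟩))))) (.R ⟨1,false,
  false,true,[1,0,-1],[1,-1],[0,1],(⟨0,[(27,0)]⟩,⟨0,[(28,0)]⟩),(⟨0,[(31,0)]⟩,⟨0,[(32,0)]⟩),⟨0,[(16,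
  0)]⟩,.k,.k,.k,.k,.k,.k,⟨false,0,⟨0,[(40,0)]⟩,⟨2,[(6,0),(11,0),(0,0)]⟩⟩,⟨true,0,⟨0,[(25,0)]⟩,⟨0,
  [(14,0)]⟩⟩,⟨true,0,⟨2,[(0,0),(2,0),(4,0),(6,0),(7,0)]⟩,⟨0,[(4,0)]⟩⟩,⟨true,0,⟨0,[(11,0)]⟩,⟨0,[(4,
  0),(9,0),(25,0)]⟩⟩,⟨false,0,⟨0,[(0,0)]⟩,⟨17,[(4,5),(0,1),(0,3),(6,11),(16,0),(11,8)]⟩⟩,⟨true,0,⟨0,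
  [(23,0)]⟩,⟨0,[(4,0),(9,0)]⟩⟩,[.o ⟨false,0,⟨0,[(39,0)]⟩,⟨1,[(30,0),(9,1),(1,0)]⟩⟩,.e ⟨false,1,⟨1,
  [(18,0),(0,0),(21,0)]⟩,⟨0,[]⟩⟩ ⟨false,1,⟨3,[(3,1),(0,1),(20,1),(15,2),(0,0)]⟩,⟨0,[(14,0),(25,
  0)]⟩⟩,.o ⟨false,0,⟨0,[(14,0)]⟩,⟨1,[(25,1),(4,0),(10,0)]⟩⟩,.a ⟨true,(-1),⟨0,[(1,0)]⟩,⟨0,[(25,0),
  (15,0)]⟩⟩ ⟨true,0,⟨0,[(38,0)]⟩,⟨1,[(25,0),(0,0)]⟩⟩ ⟨false,1,⟨3,[(3,1),(0,1),(20,1),(15,2),(0,0)]⟩,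
  ⟨0,[(14,0),(22,0)]⟩⟩]⟩)))))

theorem ok43 : chk K t43 r18 = true := by decide +kernel

noncomputable def t46 : Tre :=
  (.I [0,0,-3,0,2,-3] (.R ⟨1,true,false,false,[1,-1],[0,1],[0,1,-1,-1],(⟨0,[(26,0)]⟩,⟨0,[(27,0)]⟩),
  (⟨0,[(27,0)]⟩,⟨0,[(26,0)]⟩),⟨0,[(11,0),(0,0)]⟩,.k,.k,(.x 1 ⟨0,[(5,0)]⟩ ⟨2,[(0,1),(12,1),(0,1)]⟩),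
  (.x 1 ⟨0,[(5,0)]⟩ ⟨2,[(0,1),(12,1),(0,1)]⟩),(.x 1 ⟨1,[(5,2),(7,0),(0,0)]⟩ ⟨0,[(0,0)]⟩),.k,⟨true,1,
  ⟨0,[(7,0)]⟩,⟨0,[(2,0),(29,0)]⟩⟩,⟨false,2,⟨0,[(0,0),(28,0)]⟩,⟨13,[(2,9),(1,4),(5,0),(9,1),(9,3),(7,
  5)]⟩⟩,⟨true,0,⟨0,[(39,0)]⟩,⟨0,[]⟩⟩,⟨false,1,⟨1,[(0,0),(2,0),(25,0),(2,2)]⟩,⟨0,[(4,0)]⟩⟩,⟨false,0,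
  ⟨0,[(35,0)]⟩,⟨3,[(4,1),(8,0),(0,0),(10,0),(11,1)]⟩⟩,⟨true,0,⟨0,[(0,0),(0,0),(27,0)]⟩,⟨0,[(4,0),
  (29,0)]⟩⟩,[]⟩) (.I [0,0,3,0,-2,3] (.R ⟨1,true,false,false,[1,-1],[0,1],[0,1,-1,-1],(⟨0,[(27,0)]⟩,
  ⟨0,[(28,0)]⟩),(⟨0,[(28,0)]⟩,⟨0,[(27,0)]⟩),⟨0,[(12,0),(0,0)]⟩,.k,.k,(.x 1 ⟨0,[(6,0)]⟩ ⟨0,[(26,0),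
  (0,1),(9,0)]⟩),(.x 1 ⟨0,[(6,0)]⟩ ⟨0,[(26,0),(0,1),(9,0)]⟩),(.x 2 ⟨0,[(0,0)]⟩ ⟨1,[(26,2),(0,5),(9,
  2)]⟩),.k,⟨true,1,⟨0,[(8,0)]⟩,⟨0,[(3,0),(29,0)]⟩⟩,⟨false,2,⟨1,[(26,0),(10,2)]⟩,⟨13,[(3,9),(1,4),(5,
  0),(9,1),(9,3),(7,5)]⟩⟩,⟨true,0,⟨0,[(40,0)]⟩,⟨0,[]⟩⟩,⟨false,1,⟨1,[(26,0),(9,3),(1,0)]⟩,⟨0,[(5,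
  0)]⟩⟩,⟨false,0,⟨0,[(36,0)]⟩,⟨3,[(5,1),(8,0),(0,0),(10,0),(11,1)]⟩⟩,⟨true,0,⟨1,[(2,1),(23,0),(10,
  2)]⟩,⟨0,[(5,0),(29,0)]⟩⟩,[]⟩) (.I [0,0,3,3,-2] (.R ⟨1,true,false,false,[1,-1],[0,1],[0,1,-1,-1],
  (⟨0,[(28,0)]⟩,⟨0,[(29,0)]⟩),(⟨0,[(29,0)]⟩,⟨0,[(28,0)]⟩),⟨0,[(13,0),(0,0)]⟩,.k,.k,(.x 1 ⟨0,[(7,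
  0)]⟩ ⟨2,[(1,1),(13,1),(0,1)]⟩),(.x 1 ⟨0,[(7,0)]⟩ ⟨2,[(1,1),(13,1),(0,1)]⟩),(.r (-3) ⟨3,[(9,5),(5,
  2),(0,2),(22,2)]⟩ ⟨0,[(0,0)]⟩),.k,⟨true,1,⟨0,[(9,0)]⟩,⟨0,[(4,0),(29,0)]⟩⟩,⟨false,2,⟨5,[(1,3),(29,
  3),(1,0),(4,2)]⟩,⟨21,[(0,5),(3,7),(1,12),(5,4),(9,9),(9,1)]⟩⟩,⟨true,0,⟨0,[(41,0)]⟩,⟨0,[]⟩⟩,⟨false,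
  1,⟨6,[(1,2),(3,1),(21,0),(3,2),(2,8),(2,2)]⟩,⟨0,[(6,0)]⟩⟩,⟨false,0,⟨0,[(37,0)]⟩,⟨3,[(6,1),(8,0),
  (0,0),(10,0),(11,1)]⟩⟩,⟨true,0,⟨0,[(0,0),(0,0),(29,0)]⟩,⟨0,[(6,0),(29,0)]⟩⟩,[]⟩) (.Q [0,1,0,0,0,0,
  1,1,0,-1,1] (.p true [0,0,1] [1] (⟨0,[(25,0)]⟩,⟨0,[(24,0)]⟩) .k 1 (⟨0,[]⟩,⟨0,[]⟩) .k .k) (.Q [0,1,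
  0,1,-1,0,-1,-1,0,1,-1] (.p false [0,0,1] [1] (⟨0,[(26,0)]⟩,⟨0,[(25,0)]⟩) .k 1 (⟨0,[]⟩,⟨0,[]⟩) .k
  .k) (.S ⟨1,1,[],[1,1,-1],[1,0,1,0,0,0,0,-1],(⟨22,[(17,2),(0,2),(7,22),(1,4),(4,5),(0,2)]⟩,⟨0,[(16,
  0)]⟩),⟨0,[(26,0)]⟩,.k,.k,⟨false,1,⟨9,[(2,1),(5,1),(15,2),(0,2),(3,0),(11,4)]⟩,⟨0,[(39,0)]⟩⟩,⟨true,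
  1,⟨1,[(10,1),(18,0),(11,0)]⟩,⟨0,[(0,0)]⟩⟩,⟨true,0,⟨0,[]⟩,⟨0,[(43,0)]⟩⟩,⟨false,1,⟨0,[(1,0),(39,
  0)]⟩,⟨65,[(0,29),(1,9),(9,35),(1,17),(13,1),(1,1),(3,7),(5,2),(0,14)]⟩⟩,[.fo,.o ⟨false,1,⟨1,[(29,
  0),(11,0)]⟩,⟨0,[(43,0)]⟩⟩,.a ⟨true,0,⟨0,[(21,0)]⟩,⟨0,[(24,0)]⟩⟩ ⟨true,0,⟨0,[(12,0)]⟩,⟨0,[(1,0),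
  (19,0)]⟩⟩ ⟨false,1,⟨1,[(24,1),(4,0),(11,0)]⟩,⟨0,[(21,0)]⟩⟩,.o ⟨false,0,⟨0,[(13,0)]⟩,⟨2,[(3,0),(20,
  2),(8,0),(1,0)]⟩⟩]⟩) (.Q [0,0,-1,0,1,0,1,0,0,-1,1] (.p true [0,0,1] [1] (⟨0,[(27,0)]⟩,⟨0,[(26,
  0)]⟩) .k 1 (⟨0,[]⟩,⟨0,[]⟩) .k .k) (.S ⟨1,0,[0,0,0,0,0,0,0,-1],[1,0,-1],[0,1,0,0,0,0,0,-1],(⟨0,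
  [(27,0)]⟩,⟨0,[(28,0)]⟩),⟨0,[(16,0)]⟩,.k,.k,⟨true,0,⟨0,[(44,0)]⟩,⟨0,[]⟩⟩,⟨false,1,⟨1,[(18,0),(0,0),
  (22,0)]⟩,⟨0,[]⟩⟩,⟨false,0,⟨0,[(40,0)]⟩,⟨8,[(1,0),(1,1),(5,0),(3,0),(11,1),(0,2),(15,3)]⟩⟩,⟨true,0,
  ⟨0,[(40,0)]⟩,⟨0,[(39,0)]⟩⟩,[.a ⟨true,0,⟨0,[(13,0),(8,0)]⟩,⟨5,[(1,2),(0,2),(1,0),(1,0),(22,2),(5,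
  2)]⟩⟩ ⟨true,0,⟨0,[(13,0),(24,0)]⟩,⟨2,[(1,2),(4,0),(7,0),(0,0),(19,0)]⟩⟩ ⟨false,1,⟨0,[(13,0),(27,
  0)]⟩,⟨5,[(1,2),(0,2),(3,0),(7,0),(0,0),(6,2),(12,0)]⟩⟩,.o ⟨false,1,⟨0,[(24,0),(17,0)]⟩,⟨0,[(2,
  0)]⟩⟩,.o ⟨false,0,⟨0,[(14,0)]⟩,⟨3,[(0,1),(17,0),(0,0),(5,1),(4,0)]⟩⟩,.o ⟨false,0,⟨0,[(26,0)]⟩,⟨0,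
  [(0,0)]⟩⟩]⟩) (.Q [0,0,0,-1,0,0,-1,-1,0,1,-1] (.p false [0,0,1] [1] (⟨0,[(28,0)]⟩,⟨0,[(27,0)]⟩) .k
  1 (⟨0,[]⟩,⟨0,[]⟩) .k .k) (.R ⟨1,true,false,false,[1,0,-1],[0,1],[1,1,0,-1,0,0,0,-1],(⟨0,[(28,0)]⟩,
  ⟨0,[(29,0)]⟩),(⟨0,[(33,0)]⟩,⟨0,[(32,0)]⟩),⟨0,[(17,0)]⟩,.k,.k,.k,.k,(.r (-2) ⟨5,[(4,3),(9,5),(4,0),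
  (0,0),(21,2)]⟩ ⟨7,[(2,1),(0,2),(3,5),(8,2),(6,1),(0,2),(18,1)]⟩),.k,⟨true,1,⟨0,[(13,0),(0,0)]⟩,⟨0,
  [(2,0),(4,0),(15,0)]⟩⟩,⟨false,2,⟨5,[(5,3),(20,5),(8,3),(1,0),(4,2)]⟩,⟨0,[(1,0)]⟩⟩,⟨true,0,⟨0,[(40,
  0)]⟩,⟨0,[(41,0)]⟩⟩,⟨false,1,⟨2,[(3,1),(1,0),(1,0),(16,0),(10,0),(7,2)]⟩,⟨0,[(0,0)]⟩⟩,⟨false,0,⟨0,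
  []⟩,⟨1,[(19,0),(0,0),(22,0)]⟩⟩,⟨true,0,⟨0,[(2,0),(4,0),(31,0),(2,0)]⟩,⟨0,[(10,0),(14,0)]⟩⟩,[]⟩)
  (.R ⟨2,true,false,false,[0,1],[1,0,-1],[0,1,1,1],(⟨0,[]⟩,⟨0,[]⟩),(⟨0,[(28,0)]⟩,⟨0,[(29,0)]⟩),⟨0,
  []⟩,.k,.k,.k,.k,.k,.k,⟨false,(-1),⟨0,[(0,0),(0,0),(37,0)]⟩,⟨5,[(4,1),(9,5),(4,1),(0,1),(21,2),(0,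
  2)]⟩⟩,⟨true,(-1),⟨0,[(1,0)]⟩,⟨2,[(5,0),(20,2),(8,0),(1,0)]⟩⟩,⟨true,0,⟨0,[(45,0)]⟩,⟨0,[]⟩⟩,⟨false,
  1,⟨17,[(4,5),(9,17),(1,8),(2,0),(0,0),(9,0),(1,0),(3,3),(6,8)]⟩,⟨0,[(0,0)]⟩⟩,⟨false,0,⟨0,[(41,
  0)]⟩,⟨8,[(2,0),(1,1),(5,0),(3,0),(11,1),(0,2),(15,3)]⟩⟩,⟨true,0,⟨0,[(14,0),(8,0)]⟩,⟨0,[(3,0)]⟩⟩,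
  []⟩)))) (.Q [0,0,1,1,0,0,1,0,0,-1,1] (.p true [0,0,1] [1] (⟨0,[(26,0)]⟩,⟨0,[(25,0)]⟩) .k 1 (⟨0,
  []⟩,⟨0,[]⟩) .k .k) (.Q [0,1,0,0,-1,0,-1,-1,0,1,-1] (.p false [0,0,1] [1] (⟨0,[(27,0)]⟩,⟨0,[(26,
  0)]⟩) .k 1 (⟨0,[]⟩,⟨0,[]⟩) .k .k) (.R ⟨0,false,false,false,[0,-1,1],[1,-1],[0,1],(⟨0,[(17,0)]⟩,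
  ⟨22,[(18,2),(0,2),(7,22),(1,4),(4,5),(0,2)]⟩),(⟨0,[(31,0)]⟩,⟨0,[(32,0)]⟩),⟨5,[(5,1),(10,5),(17,3),
  (1,0),(4,2)]⟩,.k,.k,(.r (-2) ⟨5,[(3,3),(10,1),(0,1),(7,5),(6,0),(11,2)]⟩ ⟨3,[(0,0),(0,1),(0,0),(3,
  1),(6,1),(27,0)]⟩),.k,.k,.k,⟨true,(-1),⟨2,[(0,0),(5,0),(1,0),(2,0)]⟩,⟨9,[(3,1),(5,1),(15,2),(0,2),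
  (3,0),(11,4)]⟩⟩,⟨false,0,⟨0,[(22,0)]⟩,⟨2,[(4,0),(20,2),(8,0),(1,0)]⟩⟩,⟨true,(-1),⟨0,[(0,0),(0,
  0)]⟩,⟨3,[(4,0),(6,3),(2,2),(7,0),(11,0),(7,1)]⟩⟩,⟨false,0,⟨0,[(2,0)]⟩,⟨1,[(23,1),(6,0),(11,0)]⟩⟩,
  ⟨false,0,⟨0,[]⟩,⟨0,[]⟩⟩,⟨false,0,⟨0,[]⟩,⟨0,[]⟩⟩,[.e ⟨false,0,⟨0,[(38,0)]⟩,⟨1,[(18,0),(0,0),(22,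
  0)]⟩⟩ ⟨false,1,⟨17,[(3,5),(11,8),(2,0),(0,0),(9,0),(1,0),(3,3),(5,8)]⟩,⟨0,[(1,0)]⟩⟩,.o ⟨false,1,
  ⟨9,[(3,1),(5,1),(15,2),(0,2),(3,0),(11,4)]⟩,⟨0,[(8,0)]⟩⟩,.a ⟨true,0,⟨0,[(25,0)]⟩,⟨0,[(22,0)]⟩⟩
  ⟨true,0,⟨0,[(44,0)]⟩,⟨0,[]⟩⟩ ⟨false,1,⟨17,[(3,5),(11,8),(2,0),(0,0),(9,0),(1,0),(3,3),(6,8)]⟩,⟨0,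
  [(1,0)]⟩⟩,.o ⟨false,0,⟨1,[(1,0),(5,0),(1,0),(15,0),(4,0)]⟩,⟨2,[(4,0),(9,1),(7,0),(11,0),(6,
  0)]⟩⟩]⟩) (.I [1,0,0,0,0,0,0,1] (.S ⟨1,1,[],[1,1,-1],[1,0,1,0,0,0,0,-1],(⟨22,[(19,2),(0,2),(7,22),
  (1,4),(4,5),(0,2)]⟩,⟨0,[(18,0)]⟩),⟨0,[(28,0)]⟩,.k,.k,⟨false,1,⟨9,[(4,1),(5,1),(15,2),(0,2),(3,0),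
  (11,4)]⟩,⟨0,[(41,0)]⟩⟩,⟨true,1,⟨19,[(1,9),(2,1),(5,1),(1,9),(13,2),(0,2),(3,5)]⟩,⟨3,[(3,2),(3,1),
  (2,0),(14,0),(13,5)]⟩⟩,⟨true,0,⟨0,[]⟩,⟨0,[(45,0)]⟩⟩,⟨false,1,⟨0,[(1,0)]⟩,⟨10,[(3,6),(15,1),(0,1),
  (4,3),(10,1),(8,2)]⟩⟩,[.fo,.o ⟨false,1,⟨1,[(31,0),(11,0)]⟩,⟨0,[(45,0)]⟩⟩,.a ⟨true,0,⟨0,[(23,0)]⟩,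
  ⟨0,[(26,0)]⟩⟩ ⟨true,0,⟨0,[(14,0)]⟩,⟨0,[(0,0),(38,0)]⟩⟩ ⟨false,1,⟨1,[(26,1),(4,0),(11,0)]⟩,⟨0,[(23,
  0)]⟩⟩,.o ⟨false,0,⟨0,[(15,0)]⟩,⟨2,[(5,0),(20,2),(8,0),(1,0)]⟩⟩]⟩) (.R ⟨2,true,false,false,[0,1],
  [1,0,-1],[1,0,1],(⟨0,[]⟩,⟨0,[]⟩),(⟨0,[(28,0)]⟩,⟨0,[(29,0)]⟩),⟨0,[]⟩,.k,.k,.k,.k,.k,.k,⟨true,0,⟨1,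
  [(1,0),(6,0),(3,0),(3,0)]⟩,⟨0,[(0,0)]⟩⟩,⟨false,0,⟨5,[(16,2),(2,0),(0,0),(9,0),(1,0),(3,0)]⟩,⟨0,
  [(0,0),(0,0),(37,0)]⟩⟩,⟨false,1,⟨9,[(4,1),(5,1),(15,2),(0,2),(3,0),(11,4)]⟩,⟨0,[(41,0)]⟩⟩,⟨true,0,
  ⟨1,[(3,0),(6,0),(14,0)]⟩,⟨2,[(1,1),(5,0),(1,0),(2,0),(26,2)]⟩⟩,⟨true,0,⟨0,[]⟩,⟨0,[(45,0)]⟩⟩,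
  ⟨false,0,⟨0,[(3,0)]⟩,⟨3,[(1,1),(17,0),(0,0),(3,1),(6,0)]⟩⟩,[]⟩))) (.Q [0,-1,0,-1,0,0,-1,-1,0,1,
  -1] (.p false [0,0,1] [1] (⟨0,[(27,0)]⟩,⟨0,[(26,0)]⟩) .k 1 (⟨0,[]⟩,⟨0,[]⟩) .k .k) (.R ⟨1,true,
  false,false,[0,0,1],[0,1],[1,0,0,-1,0,0,0,1],(⟨0,[(28,0)]⟩,⟨0,[(27,0)]⟩),(⟨0,[(32,0)]⟩,⟨0,[(31,
  0)]⟩),⟨0,[(17,0)]⟩,.k,.k,.k,.k,(.r (-2) ⟨5,[(3,3),(10,1),(0,1),(7,5),(6,0),(11,2)]⟩ ⟨2,[(0,2),(3,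
  0),(1,2),(18,2),(4,0),(3,0),(3,2)]⟩),.k,⟨true,1,⟨1,[(1,1),(9,1),(18,0),(11,0)]⟩,⟨2,[(0,2),(3,0),
  (1,2),(18,2),(4,0),(3,0),(3,2)]⟩⟩,⟨false,1,⟨2,[(4,0),(9,1),(7,0),(11,0),(6,0)]⟩,⟨0,[(25,0)]⟩⟩,
  ⟨false,1,⟨9,[(3,1),(5,1),(15,2),(0,2),(3,0),(11,4)]⟩,⟨0,[(40,0)]⟩⟩,⟨true,0,⟨0,[(2,0),(5,0)]⟩,⟨0,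
  [(11,0)]⟩⟩,⟨true,0,⟨0,[]⟩,⟨0,[(44,0)]⟩⟩,⟨false,0,⟨5,[(0,5),(3,3),(1,5),(27,3),(1,0),(4,2)]⟩,⟨9,
  [(3,1),(5,1),(1,9),(13,2),(0,2),(3,0),(11,4)]⟩⟩,[]⟩) (.R ⟨2,true,false,false,[0,1],[1,0,-1],[0,1],
  (⟨0,[]⟩,⟨0,[]⟩),(⟨0,[(27,0)]⟩,⟨0,[(28,0)]⟩),⟨0,[]⟩,.k,.k,.k,.k,.k,.k,⟨false,0,⟨0,[(0,0),(0,0)]⟩,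
  ⟨1,[(13,1),(27,0),(0,0)]⟩⟩,⟨true,(-1),⟨1,[(1,0),(4,0),(2,0),(4,0)]⟩,⟨2,[(4,0),(20,2),(8,0),(1,
  0)]⟩⟩,⟨false,1,⟨2,[(3,0),(14,0),(0,0)]⟩,⟨0,[(37,0)]⟩⟩,⟨true,0,⟨1,[(2,0),(6,0),(14,0)]⟩,⟨0,[(0,
  0)]⟩⟩,⟨true,0,⟨0,[(38,0)]⟩,⟨1,[(25,0),(0,0)]⟩⟩,⟨false,0,⟨0,[(2,0)]⟩,⟨1,[(23,1),(6,0),(11,0)]⟩⟩,
  []⟩)))))))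

theorem ok46 : chk K t46 r16 = true := by decide +kernel

noncomputable def t49 : Tre :=
  (.Q [0,1,0,2,0,0,0,0,0,-1] (.pp true [-1,1]) (.R ⟨2,true,false,false,[0,1],[1,-1],[0,1],(⟨0,[]⟩,
  ⟨0,[]⟩),(⟨0,[(24,0)]⟩,⟨0,[(25,0)]⟩),⟨0,[]⟩,.k,.k,.k,(.x (-2) ⟨0,[(23,0),(0,1),(9,0)]⟩ ⟨0,[(3,
  0)]⟩),.k,.k,⟨false,0,⟨3,[(0,1),(10,0),(0,0),(15,0),(8,1)]⟩,⟨1,[(1,1),(21,0),(10,0)]⟩⟩,⟨true,(-1),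
  ⟨0,[(3,0),(5,0),(0,0)]⟩,⟨1,[(23,0),(10,0)]⟩⟩,⟨false,1,⟨3,[(5,1),(5,0),(0,0),(22,0)]⟩,⟨0,[(30,
  0)]⟩⟩,⟨true,0,⟨0,[(2,0)]⟩,⟨0,[(0,0)]⟩⟩,⟨true,0,⟨0,[(31,0)]⟩,⟨1,[(18,0),(0,0)]⟩⟩,⟨false,0,⟨0,[(1,
  0)]⟩,⟨3,[(0,1),(10,1),(0,1),(10,0),(11,0)]⟩⟩,[]⟩) (.Q [0,1,0,3,0,0,0,0,0,-1] (.pp true [-1,1])
  (.I [0,0,3,3,-1] (.R ⟨1,true,false,true,[1,-1],[0,1],[1,1,-1,-2],(⟨0,[(26,0)]⟩,⟨0,[(27,0)]⟩),(⟨0,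
  [(27,0)]⟩,⟨0,[(26,0)]⟩),⟨0,[(11,0),(0,0)]⟩,.k,.k,(.x 1 ⟨0,[(5,0)]⟩ ⟨0,[(25,0),(0,1),(9,0)]⟩),(.x
  1 ⟨0,[(5,0)]⟩ ⟨0,[(25,0),(0,1),(9,0)]⟩),(.r (-2) ⟨3,[(2,1),(4,3),(17,0),(10,1),(0,0)]⟩ ⟨0,[(0,
  0)]⟩),.k,⟨true,1,⟨3,[(2,5),(22,2),(7,5),(2,0)]⟩,⟨0,[(0,0)]⟩⟩,⟨false,2,⟨1,[(25,0),(10,2)]⟩,⟨0,[(5,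
  0),(5,0),(0,0)]⟩⟩,⟨true,0,⟨0,[(34,0)]⟩,⟨0,[(35,0)]⟩⟩,⟨false,1,⟨5,[(1,3),(11,2),(0,2),(10,0),(11,
  1)]⟩,⟨0,[(2,0)]⟩⟩,⟨false,0,⟨0,[]⟩,⟨1,[(13,0),(0,0),(22,0)]⟩⟩,⟨true,0,⟨0,[(1,0)]⟩,⟨0,[(2,0),(31,
  0)]⟩⟩,[]⟩) (.I [1,0,3,3,-1] (.N [0,3] 1 ⟨0,[(0,0)]⟩ ⟨0,[(1,0)]⟩ (.x (-2) ⟨3,[(1,1),(0,1),(9,5),(0,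
  5),(12,1),(10,2),(0,0)]⟩ ⟨1,[(6,2),(7,0),(0,0)]⟩)) (.I [0,0,0,0,0,0,0,-1] (.S ⟨1,0,[0,0,1,1,0,0,0,
  -1],[1,1,-1],[1,1,1,0,0,0,0,-1],(⟨22,[(15,2),(0,2),(7,22),(1,4),(4,5),(0,2)]⟩,⟨0,[(14,0)]⟩),⟨0,
  [(24,0)]⟩,.k,.k,⟨true,0,⟨0,[(36,0)]⟩,⟨0,[(37,0)]⟩⟩,⟨false,1,⟨1,[(15,0),(0,0),(22,0)]⟩,⟨0,[]⟩⟩,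
  ⟨false,0,⟨0,[]⟩,⟨1,[(15,0),(0,0),(22,0)]⟩⟩,⟨true,0,⟨0,[(37,0)]⟩,⟨0,[(36,0)]⟩⟩,[.o ⟨false,0,⟨3,[(0,
  3),(2,0),(7,2),(7,0),(14,0)]⟩,⟨1,[(8,1),(18,0),(11,0)]⟩⟩,.a ⟨true,0,⟨0,[(0,0),(18,0),(14,0)]⟩,⟨0,
  [(8,0)]⟩⟩ ⟨false,0,⟨0,[(0,0)]⟩,⟨1,[(19,1),(0,1),(6,0),(11,0)]⟩⟩ ⟨true,0,⟨0,[(0,0),(33,0)]⟩,⟨0,[(8,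
  0),(2,0)]⟩⟩,.e ⟨false,0,⟨0,[(10,0)]⟩,⟨3,[(1,3),(1,0),(7,2),(7,0),(0,3),(13,8)]⟩⟩ ⟨false,0,⟨0,[(0,
  0),(33,0)]⟩,⟨5,[(1,1),(9,1),(0,1),(7,5),(6,0),(11,2)]⟩⟩,.o ⟨false,0,⟨0,[(11,0)]⟩,⟨1,[(22,1),(4,0),
  (10,0)]⟩⟩]⟩) (.I [1,0,0,-1,0,0,0,1] (.Q [0,0,-1,0,1,0,1,0,0,-1,1] (.p true [0,0,1] [1] (⟨0,[(26,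
  0)]⟩,⟨0,[(25,0)]⟩) .k 1 (⟨0,[]⟩,⟨0,[]⟩) .k .k) (.R ⟨1,false,false,false,[1,0,-1],[0,1],[0,1,0,0,0,
  0,0,-1],(⟨0,[(26,0)]⟩,⟨0,[(27,0)]⟩),(⟨0,[(31,0)]⟩,⟨0,[(30,0)]⟩),⟨0,[(15,0)]⟩,.k,.k,.k,.k,(.r (-1)
  ⟨5,[(3,5),(1,1),(6,5),(21,0),(6,0)]⟩ ⟨7,[(5,1),(8,1),(7,7),(1,0),(0,4),(10,9)]⟩),.k,⟨false,1,⟨5,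
  [(0,1),(2,1),(8,3),(10,1),(8,1),(1,0),(5,2)]⟩,⟨0,[(2,0),(33,0)]⟩⟩,⟨true,1,⟨0,[(0,0)]⟩,⟨0,[(9,0),
  (3,0),(1,0),(0,0)]⟩⟩,⟨true,0,⟨0,[(43,0)]⟩,⟨0,[]⟩⟩,⟨false,1,⟨0,[(0,0),(1,0),(33,0)]⟩,⟨1,[(6,0),(5,
  0),(8,0),(1,0)]⟩⟩,⟨false,0,⟨0,[(39,0)]⟩,⟨3,[(8,1),(8,0),(0,0),(10,0),(11,1)]⟩⟩,⟨false,1,⟨7,[(0,7),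
  (1,7),(2,1),(28,0),(1,7),(2,1),(1,0)]⟩,⟨0,[(6,0),(16,0)]⟩⟩,[.a ⟨true,0,⟨0,[(39,0)]⟩,⟨5,[(8,2),(8,
  0),(0,0),(9,0),(1,0),(3,0)]⟩⟩ ⟨true,0,⟨0,[(12,0),(24,0)]⟩,⟨0,[(1,0),(34,0)]⟩⟩ ⟨false,1,⟨7,[(0,7),
  (4,1),(28,0),(4,1),(1,0)]⟩,⟨1,[(8,0),(5,0)]⟩⟩,.o ⟨false,1,⟨2,[(5,0),(23,0),(11,1)]⟩,⟨0,[(38,0)]⟩⟩,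
  .o ⟨false,0,⟨0,[(13,0)]⟩,⟨3,[(0,1),(16,0),(0,0),(5,1),(4,0)]⟩⟩,.o ⟨false,0,⟨0,[(25,0)]⟩,⟨0,[(0,
  0)]⟩⟩]⟩) (.R ⟨1,false,false,false,[0,0,1],[1,-1],[1,0,0,-1,0,0,0,1],(⟨0,[(27,0)]⟩,⟨0,[(26,0)]⟩),
  (⟨0,[(30,0)]⟩,⟨0,[(31,0)]⟩),⟨0,[(16,0)]⟩,.k,.k,.k,.k,.k,.k,⟨false,0,⟨0,[(2,0)]⟩,⟨0,[(12,0),(27,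
  0)]⟩⟩,⟨true,(-1),⟨0,[(0,0)]⟩,⟨1,[(24,1),(4,0),(10,0)]⟩⟩,⟨false,1,⟨3,[(8,1),(8,0),(0,0),(10,0),(11,
  1)]⟩,⟨0,[(39,0)]⟩⟩,⟨false,0,⟨4,[(0,3),(2,4),(1,0),(6,3),(10,0),(10,0),(1,6)]⟩,⟨2,[(5,0),(16,2),(6,
  0),(11,1)]⟩⟩,⟨true,0,⟨0,[]⟩,⟨0,[(43,0)]⟩⟩,⟨false,0,⟨7,[(0,4),(2,7),(1,2),(6,4),(10,2),(10,2),(1,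
  13),(2,0)]⟩,⟨1,[(22,1),(6,0),(11,0)]⟩⟩,[.a ⟨true,0,⟨5,[(8,2),(8,0),(0,0),(9,0),(1,0),(3,0)]⟩,⟨0,
  [(39,0)]⟩⟩ ⟨true,0,⟨0,[(1,0)]⟩,⟨7,[(5,1),(6,7),(21,0),(4,1),(1,0)]⟩⟩ ⟨false,0,⟨19,[(0,3),(2,5),(4,
  0),(5,4),(6,5),(12,1)]⟩,⟨5,[(5,1),(18,5),(4,1),(10,2),(0,0)]⟩⟩,.e ⟨false,1,⟨1,[(1,1),(38,0),(0,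
  0)]⟩,⟨8,[(3,0),(1,3),(6,8),(19,0),(1,1),(2,2),(2,0)]⟩⟩ ⟨false,0,⟨7,[(0,6),(2,7),(1,1),(15,0),(12,
  0),(1,9)]⟩,⟨9,[(5,5),(5,3),(5,2),(0,2),(5,9),(4,1),(10,0)]⟩⟩,.o ⟨false,1,⟨1,[(24,1),(4,0),(10,
  0)]⟩,⟨0,[(13,0)]⟩⟩,.e ⟨false,1,⟨1,[(1,1),(38,0),(0,0)]⟩,⟨7,[(5,1),(6,7),(21,0),(4,1),(1,0)]⟩⟩
  ⟨false,0,⟨7,[(0,6),(2,7),(1,1),(15,0),(12,0),(1,9)]⟩,⟨5,[(5,1),(11,2),(0,2),(5,5),(4,1),(11,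
  0)]⟩⟩]⟩)) (.S ⟨1,0,[0,1,1,1,0,0,0,-1],[1,1,-1],[1,0,1],(⟨22,[(16,2),(0,2),(7,22),(1,4),(4,5),(0,
  2)]⟩,⟨0,[(15,0)]⟩),⟨0,[(25,0)]⟩,.k,.k,⟨false,1,⟨3,[(1,1),(5,0),(1,1),(3,0),(14,0),(11,2)]⟩,⟨0,[(0,
  0)]⟩⟩,⟨true,0,⟨0,[(42,0)]⟩,⟨0,[]⟩⟩,⟨true,0,⟨0,[(1,0)]⟩,⟨0,[(0,0),(36,0)]⟩⟩,⟨false,0,⟨0,[(38,0)]⟩,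
  ⟨3,[(7,1),(8,0),(0,0),(10,0),(11,1)]⟩⟩,[.e ⟨false,0,⟨0,[]⟩,⟨1,[(16,0),(0,0),(21,0)]⟩⟩ ⟨false,0,
  ⟨19,[(0,13),(3,1),(11,0),(0,0),(4,5),(0,5),(7,5),(1,0)]⟩,⟨4,[(1,4),(0,0),(7,0),(29,2)]⟩⟩,.o
  ⟨false,0,⟨0,[(0,0),(11,0)]⟩,⟨1,[(9,1),(18,0),(11,0)]⟩⟩,.a ⟨true,0,⟨0,[(20,0)]⟩,⟨0,[(23,0)]⟩⟩
  ⟨true,0,⟨1,[(23,0),(0,0)]⟩,⟨0,[(36,0)]⟩⟩ ⟨false,0,⟨6,[(0,2),(3,0),(6,3),(1,0),(9,1),(11,0)]⟩,⟨4,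
  [(1,4),(0,0),(7,0),(29,2)]⟩⟩,.o ⟨false,0,⟨0,[(12,0)]⟩,⟨1,[(23,1),(4,0),(10,0)]⟩⟩]⟩))))) (.I [0,0,
  0,0,0,0,0,1] (.Q [0,0,1,0,-1,0,-1,0,0,1,-1] (.p false [0,0,1] [1] (⟨0,[(23,0)]⟩,⟨0,[(22,0)]⟩) .k
  1 (⟨0,[]⟩,⟨0,[]⟩) .k .k) (.Q [0,-1,-1,-1,0,0,-1,0,0,1,-1] (.p false [0,0,1] [1] (⟨0,[(24,0)]⟩,⟨0,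
  [(23,0)]⟩) .k 1 (⟨0,[]⟩,⟨0,[]⟩) .k .k) (.R ⟨1,false,false,false,[0,0,1],[1,-1],[0,0,0,0,0,0,0,1],
  (⟨0,[(25,0)]⟩,⟨0,[(24,0)]⟩),(⟨0,[(28,0)]⟩,⟨0,[(29,0)]⟩),⟨0,[(14,0)]⟩,.k,.k,.k,.k,.k,.k,⟨false,0,
  ⟨0,[(2,0),(34,0)]⟩,⟨5,[(3,1),(6,5),(16,0),(7,1),(2,4)]⟩⟩,⟨true,(-1),⟨0,[(1,0)]⟩,⟨1,[(22,1),(4,0),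
  (10,0)]⟩⟩,⟨false,1,⟨1,[(15,0),(0,0),(22,0)]⟩,⟨0,[]⟩⟩,⟨false,0,⟨0,[(0,0),(9,0)]⟩,⟨1,[(20,1),(6,0),
  (9,1),(1,0)]⟩⟩,⟨true,0,⟨0,[(37,0)]⟩,⟨0,[(36,0)]⟩⟩,⟨false,0,⟨0,[(0,0),(9,0),(26,0)]⟩,⟨1,[(20,1),(6,
  0),(11,0)]⟩⟩,[.a ⟨true,0,⟨5,[(6,2),(8,0),(0,0),(9,0),(1,0),(3,0)]⟩,⟨0,[(37,0)]⟩⟩ ⟨true,0,⟨0,[(2,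
  0)]⟩,⟨0,[(10,0)]⟩⟩ ⟨false,0,⟨2,[(0,0),(0,0),(7,0),(9,0)]⟩,⟨1,[(22,1),(4,0),(9,1),(0,0)]⟩⟩,.e
  ⟨false,1,⟨1,[(2,1),(35,0),(0,0)]⟩,⟨0,[(10,0),(24,0)]⟩⟩ ⟨false,0,⟨0,[(0,0)]⟩,⟨3,[(15,0),(0,0),(5,
  3),(4,1),(2,1),(6,3),(0,0)]⟩⟩,.o ⟨false,1,⟨1,[(22,1),(4,0),(10,0)]⟩,⟨0,[(11,0)]⟩⟩,.e ⟨false,1,⟨1,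
  [(2,1),(35,0),(0,0)]⟩,⟨0,[(10,0)]⟩⟩ ⟨false,0,⟨0,[(0,0)]⟩,⟨1,[(15,0),(0,0),(5,1),(4,0),(9,1)]⟩⟩]⟩)
  (.Q [0,-1,0,-1,0,0,-1,-1,0,1,-1] (.p false [0,0,1] [1] (⟨0,[(25,0)]⟩,⟨0,[(24,0)]⟩) .k 1 (⟨0,[]⟩,
  ⟨0,[]⟩) .k .k) (.R ⟨1,false,false,false,[0,0,1],[1,-1],[0,0,0,0,0,0,0,1],(⟨0,[(26,0)]⟩,⟨0,[(25,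
  0)]⟩),(⟨0,[(29,0)]⟩,⟨0,[(30,0)]⟩),⟨0,[(15,0)]⟩,.k,.k,.k,.k,.k,.k,⟨false,0,⟨0,[(3,0),(34,0)]⟩,⟨5,
  [(4,1),(6,5),(16,0),(7,1),(2,4)]⟩⟩,⟨true,(-1),⟨0,[(2,0)]⟩,⟨1,[(23,1),(4,0),(10,0)]⟩⟩,⟨false,1,⟨1,
  [(16,0),(0,0),(22,0)]⟩,⟨0,[]⟩⟩,⟨false,0,⟨0,[(0,0)]⟩,⟨1,[(21,1),(6,0),(9,1),(1,0)]⟩⟩,⟨true,0,⟨0,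
  [(38,0)]⟩,⟨0,[(37,0)]⟩⟩,⟨false,0,⟨0,[(0,0),(37,0)]⟩,⟨1,[(21,1),(6,0),(11,0)]⟩⟩,[.a ⟨true,0,⟨5,[(7,
  2),(8,0),(0,0),(9,0),(1,0),(3,0)]⟩,⟨0,[(38,0)]⟩⟩ ⟨true,0,⟨0,[(3,0)]⟩,⟨0,[(11,0)]⟩⟩ ⟨false,0,⟨2,
  [(4,0),(7,0),(7,1),(15,0)]⟩,⟨1,[(1,1),(37,0),(0,0)]⟩⟩,.a ⟨true,0,⟨0,[(6,0)]⟩,⟨11,[(1,3),(11,1),(2,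
  0),(0,0),(13,3),(1,0),(4,7)]⟩⟩ ⟨false,1,⟨1,[(3,1),(35,0),(0,0)]⟩,⟨0,[(11,0),(24,0)]⟩⟩ ⟨true,0,⟨2,
  [(2,0),(1,0),(7,0),(7,0),(19,0)]⟩,⟨0,[(1,0)]⟩⟩,.o ⟨false,1,⟨1,[(23,1),(4,0),(10,0)]⟩,⟨0,[(12,
  0)]⟩⟩,.a ⟨true,0,⟨0,[(23,0)]⟩,⟨0,[(20,0)]⟩⟩ ⟨false,1,⟨1,[(3,1),(35,0),(0,0)]⟩,⟨0,[(11,0)]⟩⟩ ⟨true,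
  0,⟨2,[(4,0),(7,0),(7,1),(15,0)]⟩,⟨0,[(1,0)]⟩⟩]⟩) (.Q [0,0,1,-1,-1,0,-1,0,0,1,-1] (.p false [0,0,
  1] [1] (⟨0,[(26,0)]⟩,⟨0,[(25,0)]⟩) .k 1 (⟨0,[]⟩,⟨0,[]⟩) .k .k) (.R ⟨1,false,false,true,[1,0,-1],
  [0,1],[0,1,0,0,0,0,0,-1],(⟨0,[(26,0)]⟩,⟨0,[(27,0)]⟩),(⟨0,[(31,0)]⟩,⟨0,[(30,0)]⟩),⟨0,[(15,0)]⟩,.k,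
  .k,.k,.k,(.r (-2) ⟨1,[(11,1),(0,1),(27,0),(0,0)]⟩ ⟨0,[(1,0),(1,0),(32,0)]⟩),.k,⟨true,1,⟨5,[(5,1),
  (6,5),(16,0),(7,1),(2,4)]⟩,⟨0,[(0,0),(0,0),(34,0)]⟩⟩,⟨false,2,⟨1,[(24,1),(4,0),(10,2)]⟩,⟨0,[(3,
  0)]⟩⟩,⟨true,0,⟨0,[(43,0)]⟩,⟨0,[]⟩⟩,⟨true,0,⟨0,[(1,0)]⟩,⟨1,[(6,0),(5,0),(8,0),(1,0)]⟩⟩,⟨false,0,⟨0,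
  [(39,0)]⟩,⟨3,[(8,1),(8,0),(0,0),(10,0),(11,1)]⟩⟩,⟨true,0,⟨0,[(1,0),(37,0)]⟩,⟨0,[(6,0),(16,0)]⟩⟩,
  [.a ⟨true,0,⟨11,[(2,3),(11,1),(2,0),(0,0),(13,3),(1,0),(4,7)]⟩,⟨0,[(7,0)]⟩⟩ ⟨true,0,⟨0,[(12,0),
  (24,0)]⟩,⟨6,[(0,0),(0,0),(2,5),(0,1),(23,0),(6,5)]⟩⟩ ⟨false,1,⟨0,[(2,0),(37,0)]⟩,⟨2,[(3,0),(1,0),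
  (7,0),(7,0),(19,0)]⟩⟩,.a ⟨true,0,⟨0,[(39,0)]⟩,⟨5,[(8,2),(8,0),(0,0),(9,0),(1,0),(3,0)]⟩⟩ ⟨false,1,
  ⟨0,[(12,0),(27,0)]⟩,⟨0,[(4,0)]⟩⟩ ⟨true,1,⟨1,[(2,1),(37,0),(0,0)]⟩,⟨0,[(0,0)]⟩⟩,.o ⟨false,0,⟨0,
  [(13,0)]⟩,⟨1,[(24,1),(4,0),(10,0)]⟩⟩,.a ⟨true,(-1),⟨0,[(3,0)]⟩,⟨0,[(24,0),(15,0)]⟩⟩ ⟨false,1,⟨0,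
  [(12,0),(27,0)]⟩,⟨6,[(0,0),(0,0),(2,5),(0,1),(23,0),(6,5)]⟩⟩ ⟨true,1,⟨0,[(2,0),(37,0)]⟩,⟨0,[(0,
  0)]⟩⟩]⟩) (.R ⟨1,false,false,false,[1,0,-1],[1,-1],[0,1,0,0,0,0,0,-1],(⟨0,[(26,0)]⟩,⟨0,[(27,0)]⟩),
  (⟨0,[(30,0)]⟩,⟨0,[(31,0)]⟩),⟨0,[(15,0)]⟩,.k,.k,.k,.k,.k,.k,⟨false,0,⟨0,[(12,0),(24,0),(1,0)]⟩,⟨5,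
  [(4,5),(0,1),(23,0),(10,2),(0,1)]⟩⟩,⟨true,0,⟨0,[(24,0)]⟩,⟨0,[(13,0)]⟩⟩,⟨true,0,⟨0,[(43,0)]⟩,⟨0,
  []⟩⟩,⟨true,0,⟨0,[(1,0),(4,0)]⟩,⟨0,[(23,0),(15,0)]⟩⟩,⟨false,0,⟨0,[(39,0)]⟩,⟨3,[(8,1),(8,0),(0,0),
  (10,0),(11,1)]⟩⟩,⟨true,0,⟨0,[(1,0),(5,0)]⟩,⟨0,[(23,0)]⟩⟩,[.a ⟨true,0,⟨5,[(8,2),(8,0),(0,0),(9,0),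
  (1,0),(3,0)]⟩,⟨0,[(39,0)]⟩⟩ ⟨true,0,⟨0,[(12,0),(24,0)]⟩,⟨5,[(1,0),(1,0),(0,4),(0,1),(23,0),(6,
  4)]⟩⟩ ⟨false,1,⟨0,[(0,0),(7,0)]⟩,⟨0,[(13,0),(25,0)]⟩⟩,.e ⟨false,1,⟨0,[(12,0),(27,0)]⟩,⟨0,[(4,
  0)]⟩⟩ ⟨false,1,⟨0,[(0,0),(5,0)]⟩,⟨1,[(1,0),(12,0),(8,0),(15,0)]⟩⟩,.o ⟨false,0,⟨0,[(13,0)]⟩,⟨11,
  [(0,3),(10,1),(5,0),(0,0),(5,7),(4,3),(11,0)]⟩⟩,.e ⟨false,1,⟨0,[(12,0),(27,0)]⟩,⟨5,[(1,0),(1,0),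
  (0,4),(0,1),(23,0),(6,4)]⟩⟩ ⟨false,1,⟨0,[(0,0),(5,0)]⟩,⟨1,[(2,0),(10,0),(0,0),(21,0)]⟩⟩]⟩)))) (.Q
  [0,0,0,-1,0,0,1,1,0,0,1] (.p true [0,0,1] [] (⟨0,[(24,0)]⟩,⟨0,[(23,0)]⟩) .k 0 (⟨0,[]⟩,⟨0,[]⟩) .k
  .k) (.R ⟨1,false,false,false,[1,0,-1],[1,-1],[0,1,0,0,0,0,0,-1],(⟨0,[(24,0)]⟩,⟨0,[(25,0)]⟩),(⟨0,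
  [(28,0)]⟩,⟨0,[(29,0)]⟩),⟨0,[(13,0)]⟩,.k,.k,.k,.k,.k,.k,⟨false,0,⟨0,[(10,0),(24,0),(1,0)]⟩,⟨5,[(2,
  5),(0,1),(23,0),(10,2),(0,1)]⟩⟩,⟨true,0,⟨0,[(22,0)]⟩,⟨0,[(11,0)]⟩⟩,⟨true,0,⟨0,[(41,0)]⟩,⟨0,[]⟩⟩,
  ⟨true,0,⟨0,[(0,0)]⟩,⟨0,[(21,0),(15,0)]⟩⟩,⟨false,0,⟨0,[(37,0)]⟩,⟨3,[(6,1),(8,0),(0,0),(10,0),(11,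
  1)]⟩⟩,⟨true,0,⟨0,[(0,0),(36,0)]⟩,⟨0,[(21,0)]⟩⟩,[.a ⟨true,0,⟨5,[(6,2),(8,0),(0,0),(9,0),(1,0),(3,
  0)]⟩,⟨0,[(37,0)]⟩⟩ ⟨true,0,⟨0,[(10,0),(24,0)]⟩,⟨0,[(0,0),(10,0),(22,0)]⟩⟩ ⟨false,1,⟨3,[(1,1),(7,
  1),(12,1),(9,0),(6,0)]⟩,⟨0,[(11,0),(25,0)]⟩⟩,.e ⟨false,1,⟨0,[(10,0),(27,0)]⟩,⟨0,[(2,0)]⟩⟩ ⟨false,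
  1,⟨0,[(1,0),(3,0)]⟩,⟨1,[(11,0),(11,0),(6,0),(6,1)]⟩⟩,.o ⟨false,0,⟨0,[(11,0)]⟩,⟨3,[(1,1),(13,0),(0,
  0),(5,1),(4,0)]⟩⟩,.o ⟨false,0,⟨0,[(23,0)]⟩,⟨0,[(1,0)]⟩⟩]⟩) (.Q [0,0,2,0,-1,0,-1,-1,0,1,-1] (.p
  false [0,0,1] [1] (⟨0,[(25,0)]⟩,⟨0,[(24,0)]⟩) .k 1 (⟨0,[]⟩,⟨0,[]⟩) .k .k) (.I [1,1,0,-1,0,0,0,-1]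
  (.R ⟨1,false,false,false,[1,0,-1],[0,1],[1,1,0,-1,0,0,0,-1],(⟨0,[(26,0)]⟩,⟨0,[(27,0)]⟩),(⟨0,[(31,
  0)]⟩,⟨0,[(30,0)]⟩),⟨0,[(15,0)]⟩,.k,.k,.k,.k,(.r (-1) ⟨0,[(2,0),(0,0),(1,0),(31,0)]⟩ ⟨0,[(22,0),(2,
  0),(10,0),(2,0)]⟩),.k,⟨false,1,⟨2,[(0,1),(1,0),(0,0),(1,0),(5,0),(25,0),(2,0)]⟩,⟨0,[(4,0),(31,0),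
  (2,0)]⟩⟩,⟨true,1,⟨0,[(3,0)]⟩,⟨0,[(1,0),(2,0)]⟩⟩,⟨true,0,⟨0,[(38,0)]⟩,⟨0,[(39,0)]⟩⟩,⟨false,1,⟨0,
  [(3,0),(0,0),(31,0)]⟩,⟨7,[(1,1),(4,3),(16,5),(10,0),(5,1),(0,0)]⟩⟩,⟨false,0,⟨0,[]⟩,⟨1,[(17,0),(0,
  0),(22,0)]⟩⟩,⟨false,1,⟨0,[(3,0),(0,0),(31,0),(2,0)]⟩,⟨0,[(6,0),(16,0)]⟩⟩,[.a ⟨true,0,⟨0,[(39,0)]⟩,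
  ⟨5,[(8,2),(8,0),(0,0),(9,0),(1,0),(3,0)]⟩⟩ ⟨true,0,⟨0,[(0,0)]⟩,⟨0,[(4,0),(31,0)]⟩⟩ ⟨false,1,⟨0,
  [(3,0),(35,0)]⟩,⟨1,[(8,0),(5,0)]⟩⟩,.o ⟨false,1,⟨1,[(29,0),(9,1),(1,0)]⟩,⟨0,[(38,0)]⟩⟩,.o ⟨false,0,
  ⟨0,[(13,0)]⟩,⟨3,[(3,1),(13,0),(0,0),(5,1),(4,0)]⟩⟩,.o ⟨false,0,⟨0,[(25,0)]⟩,⟨0,[(3,0)]⟩⟩]⟩) (.R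
  ⟨1,false,false,false,[1,0,-1],[0,1],[0,1,0,0,0,0,0,-1],(⟨0,[(26,0)]⟩,⟨0,[(27,0)]⟩),(⟨0,[(31,0)]⟩,
  ⟨0,[(30,0)]⟩),⟨0,[(15,0)]⟩,.k,.k,.k,.k,(.r (-1) ⟨0,[(2,0),(0,0),(1,0),(31,0)]⟩ ⟨0,[(22,0),(2,0),
  (10,0),(2,0)]⟩),.k,⟨false,1,⟨12,[(2,6),(0,9),(1,1),(5,6),(0,2),(10,2),(10,3),(2,4)]⟩,⟨0,[(4,0),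
  (31,0)]⟩⟩,⟨true,1,⟨0,[(3,0)]⟩,⟨0,[(1,0),(2,0)]⟩⟩,⟨true,0,⟨0,[(43,0)]⟩,⟨0,[]⟩⟩,⟨false,1,⟨3,[(0,1),
  (2,1),(18,1),(6,0),(6,1),(4,0)]⟩,⟨7,[(1,1),(4,3),(16,5),(10,0),(5,1),(0,0)]⟩⟩,⟨false,0,⟨0,[(39,
  0)]⟩,⟨3,[(8,1),(8,0),(0,0),(10,0),(11,1)]⟩⟩,⟨false,1,⟨5,[(0,3),(2,3),(13,0),(0,0),(3,1),(6,0),(6,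
  3),(2,3)]⟩,⟨0,[(6,0),(16,0)]⟩⟩,[.a ⟨true,0,⟨0,[(39,0)]⟩,⟨5,[(8,2),(8,0),(0,0),(9,0),(1,0),(3,
  0)]⟩⟩ ⟨true,0,⟨0,[(12,0),(24,0)]⟩,⟨3,[(0,1),(0,0),(2,2),(0,0),(18,0),(4,0),(6,0)]⟩⟩ ⟨false,1,⟨0,
  [(3,0),(35,0)]⟩,⟨1,[(8,0),(5,0)]⟩⟩,.o ⟨false,1,⟨1,[(29,0),(9,1),(1,0)]⟩,⟨0,[(38,0)]⟩⟩,.o ⟨false,0,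
  ⟨0,[(13,0)]⟩,⟨3,[(3,1),(13,0),(0,0),(5,1),(4,0)]⟩⟩,.o ⟨false,0,⟨0,[(25,0)]⟩,⟨0,[(3,0)]⟩⟩]⟩)) (.R
  ⟨2,true,false,false,[0,1],[0,0,1],[0,1,1,1],(⟨0,[]⟩,⟨0,[]⟩),(⟨0,[(26,0)]⟩,⟨0,[(25,0)]⟩),⟨0,[]⟩,.k,
  .k,.k,.k,.k,.k,⟨false,0,⟨0,[(1,0),(21,0),(12,0)]⟩,⟨35,[(0,11),(2,23),(0,7),(5,5),(2,5),(14,0),(11,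
  16)]⟩⟩,⟨true,0,⟨0,[(23,0)]⟩,⟨0,[(12,0)]⟩⟩,⟨true,0,⟨0,[(42,0)]⟩,⟨0,[]⟩⟩,⟨false,1,⟨0,[(9,0),(30,
  0)]⟩,⟨0,[(1,0)]⟩⟩,⟨false,0,⟨0,[(38,0)]⟩,⟨3,[(7,1),(8,0),(0,0),(10,0),(11,1)]⟩⟩,⟨true,0,⟨0,[(0,0),
  (7,0),(5,0),(0,0)]⟩,⟨0,[(22,0)]⟩⟩,[]⟩)))) (.Q [0,1,0,-1,-1,0,-1,-1,0,1,-1] (.p false [0,0,1] [1]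
  (⟨0,[(23,0)]⟩,⟨0,[(22,0)]⟩) .k 1 (⟨0,[]⟩,⟨0,[]⟩) .k .k) (.R ⟨1,false,false,true,[1,-1],[1,-1,-1],
  [0,1,-1,-1],(⟨0,[(27,0)]⟩,⟨0,[(28,0)]⟩),(⟨0,[(12,0)]⟩,⟨22,[(14,2),(0,2),(8,22),(0,4),(4,5),(0,
  2)]⟩),⟨0,[(12,0),(0,0)]⟩,.k,.k,(.x 1 ⟨0,[(6,0)]⟩ ⟨0,[(26,0),(0,1),(9,0)]⟩),.k,.k,.k,⟨false,1,⟨1,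
  [(18,1),(0,1),(6,0),(11,0)]⟩,⟨0,[(1,0)]⟩⟩,⟨true,0,⟨0,[(10,0)]⟩,⟨0,[(21,0)]⟩⟩,⟨true,0,⟨0,[(40,0)]⟩,
  ⟨0,[]⟩⟩,⟨false,0,⟨0,[(1,0),(8,0)]⟩,⟨0,[(19,0),(18,0)]⟩⟩,⟨false,0,⟨0,[(36,0)]⟩,⟨3,[(5,1),(8,0),(0,
  0),(10,0),(11,1)]⟩⟩,⟨false,0,⟨0,[(1,0),(8,0),(25,0)]⟩,⟨0,[(7,0),(30,0)]⟩⟩,[.a ⟨true,(-1),⟨0,[(0,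
  0)]⟩,⟨0,[(19,0),(16,0),(1,0)]⟩⟩ ⟨false,1,⟨7,[(8,3),(5,0),(0,0),(13,1),(7,2)]⟩,⟨0,[(33,0)]⟩⟩ ⟨true,
  0,⟨1,[(0,1),(25,0),(10,0)]⟩,⟨0,[(7,0),(25,1)]⟩⟩,.o ⟨false,0,⟨1,[(0,1),(25,0),(11,0)]⟩,⟨1,[(19,1),
  (6,0),(9,1),(1,0)]⟩⟩,.o ⟨false,0,⟨1,[(21,0),(0,0)]⟩,⟨1,[(26,0),(10,0)]⟩⟩,.e ⟨false,1,⟨5,[(2,1),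
  (23,0),(7,1),(2,4)]⟩,⟨1,[(21,0),(0,0),(10,1)]⟩⟩ ⟨false,1,⟨1,[(0,1),(25,0),(10,1),(0,0)]⟩,⟨0,[(7,
  0),(25,1)]⟩⟩]⟩) (.I [1,1,-1,-1] (.R ⟨1,false,false,true,[1,-1],[0,0,1],[0,1,-1,-1],(⟨0,[(28,0)]⟩,
  ⟨0,[(29,0)]⟩),(⟨0,[(25,0)]⟩,⟨0,[(24,0)]⟩),⟨0,[(13,0),(0,0)]⟩,.k,.k,(.x 1 ⟨0,[(7,0)]⟩ ⟨0,[(27,0),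
  (0,1),(9,0)]⟩),.k,(.r (-1) ⟨3,[(0,1),(1,3),(0,1),(23,0),(10,2)]⟩ ⟨0,[(20,0),(2,0),(10,0),(2,0)]⟩),
  .k,⟨false,1,⟨7,[(0,1),(1,7),(0,1),(23,0),(10,6)]⟩,⟨0,[(11,0),(8,0),(13,0)]⟩⟩,⟨true,1,⟨0,[(0,0),(0,
  0),(0,0)]⟩,⟨0,[(7,0),(3,0),(1,0),(0,0)]⟩⟩,⟨true,0,⟨0,[(41,0)]⟩,⟨0,[]⟩⟩,⟨false,1,⟨0,[(1,0),(39,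
  0)]⟩,⟨2,[(2,2),(1,1),(6,1),(7,0),(14,0)]⟩⟩,⟨false,0,⟨0,[(37,0)]⟩,⟨3,[(6,1),(8,0),(0,0),(10,0),(11,
  1)]⟩⟩,⟨false,1,⟨0,[(1,0),(35,0),(3,0)]⟩,⟨0,[(2,0),(1,0),(6,0)]⟩⟩,[.e ⟨false,1,⟨7,[(9,3),(5,0),(0,
  0),(13,1),(7,2)]⟩,⟨0,[(34,0)]⟩⟩ ⟨false,1,⟨0,[(0,0),(0,0),(33,0)]⟩,⟨1,[(2,0),(2,0),(4,0),(1,0),(21,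
  0)]⟩⟩,.o ⟨false,1,⟨3,[(1,1),(6,1),(6,0),(0,0),(10,0)]⟩,⟨0,[(2,0),(8,0)]⟩⟩,.o ⟨false,0,⟨1,[(22,0),
  (0,0)]⟩,⟨1,[(27,0),(10,0)]⟩⟩,.a ⟨true,(-1),⟨0,[(7,0),(5,0),(0,0)]⟩,⟨0,[(38,0)]⟩⟩ ⟨false,1,⟨7,[(0,
  1),(2,1),(23,0),(10,6)]⟩,⟨1,[(22,0),(0,0),(10,1)]⟩⟩ ⟨true,1,⟨0,[(0,0),(0,0),(33,0)]⟩,⟨0,[(2,0),(4,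
  0),(3,0),(1,0),(0,0)]⟩⟩]⟩) (.S ⟨1,0,[0,0,1,1,0,0,0,-1],[1,1,-1],[1,1,1,0,0,0,0,-1],(⟨22,[(15,2),
  (0,2),(7,22),(1,4),(4,5),(0,2)]⟩,⟨0,[(14,0)]⟩),⟨0,[(24,0)]⟩,.k,.k,⟨true,0,⟨0,[(36,0)]⟩,⟨0,[(37,
  0)]⟩⟩,⟨false,1,⟨1,[(15,0),(0,0),(22,0)]⟩,⟨0,[]⟩⟩,⟨false,0,⟨0,[]⟩,⟨1,[(15,0),(0,0),(22,0)]⟩⟩,⟨true,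
  0,⟨0,[(37,0)]⟩,⟨0,[(36,0)]⟩⟩,[.o ⟨false,0,⟨0,[(2,0),(8,0),(25,0)]⟩,⟨1,[(1,0),(4,0),(1,0),(18,
  0)]⟩⟩,.a ⟨true,0,⟨0,[(2,0),(16,0),(14,0)]⟩,⟨0,[(8,0)]⟩⟩ ⟨false,0,⟨0,[(2,0)]⟩,⟨2,[(1,1),(7,0),(2,
  0),(6,0),(0,0)]⟩⟩ ⟨true,0,⟨0,[(0,0),(1,0)]⟩,⟨0,[(8,0),(2,0)]⟩⟩,.e ⟨false,0,⟨0,[(10,0)]⟩,⟨2,[(1,2),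
  (1,0),(7,0),(7,1),(15,0)]⟩⟩ ⟨false,0,⟨0,[(0,0),(1,0)]⟩,⟨12,[(1,7),(1,1),(4,4),(0,4),(1,3),(0,2),
  (6,2)]⟩⟩,.o ⟨false,0,⟨0,[(11,0)]⟩,⟨1,[(22,1),(4,0),(10,0)]⟩⟩]⟩))))))

theorem ok49 : chk K t49 r14 = true := by decide +kernel

noncomputable def t52 : Tre :=
  (.I [1,0,0,0,0,0,0,1] (.Q [0,0,0,0,0,0,-1,-1,0,0,-1] (.p false [0,0,1] [] (⟨0,[(19,0)]⟩,⟨0,[(18,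
  0)]⟩) .k 0 (⟨0,[]⟩,⟨0,[]⟩) .k .k) (.Q [0,-1,0,0,1,0,1,1,0,-1,1] (.p true [0,0,1] [1] (⟨0,[(20,
  0)]⟩,⟨0,[(19,0)]⟩) .k 1 (⟨0,[]⟩,⟨0,[]⟩) .k .k) (.S ⟨1,0,[0,0,0,0,0,0,0,1],[0,0,1],[0,1,0,0,0,0,0,
  1],(⟨0,[(21,0)]⟩,⟨0,[(20,0)]⟩),⟨0,[(10,0)]⟩,.k,.k,⟨true,0,⟨0,[(37,0)]⟩,⟨0,[]⟩⟩,⟨false,1,⟨1,[(11,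
  0),(0,0),(22,0)]⟩,⟨0,[]⟩⟩,⟨false,0,⟨0,[(33,0)]⟩,⟨0,[(32,0),(2,0)]⟩⟩,⟨true,0,⟨0,[(33,0)]⟩,⟨0,[(32,
  0)]⟩⟩,[.o ⟨false,1,⟨3,[(0,1),(10,0),(0,0),(3,1),(6,0)]⟩,⟨0,[(1,0)]⟩⟩,.o ⟨false,1,⟨0,[(0,0)]⟩,⟨0,
  [(17,0)]⟩⟩,.o ⟨false,1,⟨1,[(18,1),(4,0),(10,0)]⟩,⟨0,[(7,0)]⟩⟩,.a ⟨true,0,⟨0,[(18,0)]⟩,⟨0,[(15,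
  0)]⟩⟩ ⟨true,0,⟨0,[(2,0),(28,0)]⟩,⟨0,[(6,0)]⟩⟩ ⟨false,1,⟨0,[(0,0),(14,0)]⟩,⟨0,[(6,0)]⟩⟩]⟩) (.I [0,
  0,0,1,0,0,0,-1] (.S ⟨1,0,[0,0,0,0,0,0,0,1],[0,0,1],[0,1],(⟨0,[(22,0)]⟩,⟨0,[(21,0)]⟩),⟨0,[(11,0)]⟩,
  .k,.k,⟨true,0,⟨0,[(0,0),(32,0)]⟩,⟨0,[(3,0)]⟩⟩,⟨false,1,⟨1,[(12,0),(0,0),(22,0)]⟩,⟨0,[]⟩⟩,⟨false,0,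
  ⟨0,[(0,0)]⟩,⟨0,[(3,0),(29,0),(2,0)]⟩⟩,⟨true,0,⟨0,[(34,0)]⟩,⟨0,[(33,0)]⟩⟩,[.o ⟨false,1,⟨1,[(17,1),
  (6,0),(11,0)]⟩,⟨0,[(2,0)]⟩⟩,.e ⟨false,1,⟨1,[(12,0),(0,0),(21,0)]⟩,⟨0,[]⟩⟩ ⟨false,1,⟨1,[(3,1),(31,
  0),(0,0)]⟩,⟨0,[(0,0),(32,0)]⟩⟩,.o ⟨false,1,⟨1,[(19,1),(4,0),(10,0)]⟩,⟨0,[(8,0)]⟩⟩,.a ⟨true,0,⟨0,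
  [(19,0)]⟩,⟨0,[(16,0)]⟩⟩ ⟨true,0,⟨0,[(32,0)]⟩,⟨1,[(19,0),(0,0)]⟩⟩ ⟨false,1,⟨1,[(3,1),(31,0),(0,
  0)]⟩,⟨0,[(7,0)]⟩⟩]⟩) (.I [1,-1,-1,-1,1,0,0,-1] (.S ⟨1,0,[0,1,0,0,0,0,0,-1],[1,0,-1],[1,0,0,-1,0,0,
  0,-1],(⟨0,[(22,0)]⟩,⟨0,[(23,0)]⟩),⟨0,[(11,0)]⟩,.k,.k,⟨false,1,⟨0,[(34,0),(2,0)]⟩,⟨0,[(35,0)]⟩⟩,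
  ⟨true,0,⟨0,[(39,0)]⟩,⟨0,[]⟩⟩,⟨true,0,⟨0,[]⟩,⟨0,[(39,0)]⟩⟩,⟨false,0,⟨0,[(35,0)]⟩,⟨0,[(34,0),(2,
  0)]⟩⟩,[.a ⟨true,(-1),⟨0,[(2,0)]⟩,⟨0,[(18,0),(18,0)]⟩⟩ ⟨false,1,⟨2,[(0,0),(6,0),(0,1),(27,0)]⟩,⟨0,
  [(4,0),(30,0)]⟩⟩ ⟨true,0,⟨0,[(8,0),(24,0)]⟩,⟨0,[(1,0),(30,0)]⟩⟩,.o ⟨false,0,⟨0,[(3,0)]⟩,⟨1,[(18,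
  1),(6,0),(11,0)]⟩⟩,.o ⟨false,0,⟨0,[(9,0)]⟩,⟨1,[(20,1),(4,0),(10,0)]⟩⟩,.e ⟨false,1,⟨0,[(0,0)]⟩,⟨1,
  [(4,0),(13,0),(2,0),(10,0),(2,0)]⟩⟩ ⟨false,1,⟨0,[(8,0),(27,0)]⟩,⟨0,[(1,0),(30,0)]⟩⟩]⟩) (.Q [0,-1,
  0,1,1,0,1,1,0,-1,1] (.p true [0,0,1] [1] (⟨0,[(23,0)]⟩,⟨0,[(22,0)]⟩) .k 1 (⟨0,[]⟩,⟨0,[]⟩) .k .k)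
  (.R ⟨2,true,false,true,[0,1],[1,0,-1],[1,1,1],(⟨0,[]⟩,⟨0,[]⟩),(⟨0,[(23,0)]⟩,⟨0,[(24,0)]⟩),⟨0,[]⟩,
  .k,.k,.k,.k,.k,.k,⟨false,0,⟨0,[(5,0)]⟩,⟨0,[(9,0),(27,0)]⟩⟩,⟨true,(-1),⟨0,[(2,0),(0,0),(29,0)]⟩,⟨1,
  [(21,1),(4,0),(10,0)]⟩⟩,⟨true,0,⟨0,[(35,0)]⟩,⟨0,[(36,0)]⟩⟩,⟨false,0,⟨0,[(3,0),(31,0),(2,0)]⟩,⟨0,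
  [(0,0)]⟩⟩,⟨false,0,⟨0,[]⟩,⟨1,[(14,0),(0,0),(22,0)]⟩⟩,⟨true,(-1),⟨0,[(3,0)]⟩,⟨3,[(0,1),(6,1),(6,0),
  (0,0),(10,0)]⟩⟩,[]⟩) (.R ⟨1,true,false,false,[1,0,-1],[0,1],[1,0,0,-1,0,0,0,-1],(⟨0,[(23,0)]⟩,⟨0,
  [(24,0)]⟩),(⟨0,[(28,0)]⟩,⟨0,[(27,0)]⟩),⟨0,[(12,0)]⟩,.k,.k,.k,.k,(.r (-2) ⟨1,[(8,1),(0,1),(27,0),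
  (0,0)]⟩ ⟨0,[(1,0),(31,0)]⟩),.k,⟨true,1,⟨11,[(0,13),(1,1),(3,8),(1,3),(12,13),(4,3),(3,5),(7,8)]⟩,
  ⟨0,[(1,0),(31,0)]⟩⟩,⟨false,2,⟨1,[(21,1),(4,0),(10,2)]⟩,⟨5,[(0,3),(0,1),(0,1),(7,1),(20,0),(1,3),
  (4,0)]⟩⟩,⟨false,1,⟨0,[(35,0),(2,0)]⟩,⟨0,[(36,0)]⟩⟩,⟨true,1,⟨1,[(19,1),(6,0),(9,1),(1,0)]⟩,⟨0,[(0,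
  0)]⟩⟩,⟨true,0,⟨0,[]⟩,⟨0,[(40,0)]⟩⟩,⟨false,1,⟨3,[(1,2),(3,0),(0,5),(14,3),(8,3),(2,4),(4,0)]⟩,⟨0,
  [(0,0),(34,0),(2,0)]⟩⟩,[]⟩))))) (.Q [0,0,0,1,0,0,-1,-1,0,0,-1] (.p false [0,0,1] [] (⟨0,[(20,0)]⟩,
  ⟨0,[(19,0)]⟩) .k 0 (⟨0,[]⟩,⟨0,[]⟩) .k .k) (.R ⟨2,true,false,true,[0,1],[0,0,1],[0,1],(⟨0,[]⟩,⟨0,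
  []⟩),(⟨0,[(21,0)]⟩,⟨0,[(20,0)]⟩),⟨0,[]⟩,.k,.k,.k,.k,.k,.k,⟨false,1,⟨0,[(6,0),(27,0)]⟩,⟨0,[(2,
  0)]⟩⟩,⟨true,0,⟨0,[(18,0)]⟩,⟨0,[(7,0)]⟩⟩,⟨false,1,⟨3,[(5,1),(5,0),(0,0),(22,0)]⟩,⟨0,[(30,0)]⟩⟩,
  ⟨true,0,⟨0,[(4,0)]⟩,⟨0,[(0,0)]⟩⟩,⟨true,0,⟨0,[(31,0)]⟩,⟨1,[(18,0),(0,0)]⟩⟩,⟨false,0,⟨0,[(1,0)]⟩,⟨0,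
  [(17,0),(17,0)]⟩⟩,[]⟩) (.Q [0,-1,0,1,0,0,-1,-1,0,1,-1] (.p false [0,0,1] [1] (⟨0,[(21,0)]⟩,⟨0,
  [(20,0)]⟩) .k 1 (⟨0,[]⟩,⟨0,[]⟩) .k .k) (.S ⟨1,0,[0,0,1,1,0,0,0,-1],[1,1,-1],[1,1,1,0,0,0,0,-1],
  (⟨22,[(12,2),(0,2),(7,22),(1,4),(4,5),(0,2)]⟩,⟨0,[(11,0)]⟩),⟨0,[(21,0)]⟩,.k,.k,⟨true,0,⟨0,[(33,
  0)]⟩,⟨0,[(34,0)]⟩⟩,⟨false,1,⟨1,[(12,0),(0,0),(22,0)]⟩,⟨0,[]⟩⟩,⟨false,0,⟨0,[]⟩,⟨1,[(12,0),(0,0),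
  (22,0)]⟩⟩,⟨true,0,⟨0,[(34,0)]⟩,⟨0,[(33,0)]⟩⟩,[.a ⟨true,0,⟨0,[(0,0),(37,0)]⟩,⟨0,[(1,0)]⟩⟩ ⟨false,0,
  ⟨0,[(7,0),(24,0)]⟩,⟨1,[(3,1),(31,0),(0,0)]⟩⟩ ⟨true,0,⟨0,[(7,0),(26,0)]⟩,⟨0,[(1,0),(6,0)]⟩⟩,.a
  ⟨true,0,⟨0,[(0,0)]⟩,⟨0,[(5,0)]⟩⟩ ⟨true,0,⟨0,[(7,0)]⟩,⟨0,[(1,0),(6,0),(25,0)]⟩⟩ ⟨false,1,⟨1,[(7,1),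
  (26,1),(0,0),(0,0)]⟩,⟨0,[(1,0),(6,0),(23,0)]⟩⟩,.a ⟨true,0,⟨0,[(16,0)]⟩,⟨0,[(19,0)]⟩⟩ ⟨false,0,⟨0,
  [(7,0)]⟩,⟨1,[(3,1),(31,0),(0,0)]⟩⟩ ⟨true,0,⟨0,[(7,0),(26,0)]⟩,⟨0,[(1,0),(6,0),(23,0)]⟩⟩,.o ⟨false,
  0,⟨0,[(8,0)]⟩,⟨1,[(19,1),(4,0),(10,0)]⟩⟩]⟩) (.Q [0,0,-2,0,1,0,1,1,0,-1,1] (.p true [0,0,1] [1]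
  (⟨0,[(22,0)]⟩,⟨0,[(21,0)]⟩) .k 1 (⟨0,[]⟩,⟨0,[]⟩) .k .k) (.S ⟨1,0,[0,0,0,0,0,0,0,-1],[1,0,-1],[0,1,
  0,0,0,0,0,-1],(⟨0,[(22,0)]⟩,⟨0,[(23,0)]⟩),⟨0,[(11,0)]⟩,.k,.k,⟨true,0,⟨0,[(39,0)]⟩,⟨0,[]⟩⟩,⟨false,
  1,⟨1,[(13,0),(0,0),(22,0)]⟩,⟨0,[]⟩⟩,⟨false,0,⟨0,[(35,0)]⟩,⟨0,[(34,0),(2,0)]⟩⟩,⟨true,0,⟨0,[(35,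
  0)]⟩,⟨0,[(34,0)]⟩⟩,[.a ⟨true,0,⟨0,[(8,0),(8,0)]⟩,⟨0,[(3,0)]⟩⟩ ⟨true,0,⟨0,[(8,0),(24,0)]⟩,⟨0,[(2,
  0),(6,0),(22,0)]⟩⟩ ⟨false,1,⟨0,[(8,0),(27,0)]⟩,⟨0,[(4,0)]⟩⟩,.o ⟨false,1,⟨0,[(19,0),(17,0)]⟩,⟨0,
  [(1,0),(33,0)]⟩⟩,.o ⟨false,0,⟨0,[(9,0)]⟩,⟨1,[(20,1),(4,0),(10,0)]⟩⟩,.o ⟨false,0,⟨0,[(21,0)]⟩,⟨0,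
  [(0,0),(7,0)]⟩⟩]⟩) (.I [0,0,-2,-2,1] (.Q [0,0,-2,-1,1,0,-1,-1,0,0,-1] (.p false [0,0,1] [] (⟨0,
  [(24,0)]⟩,⟨0,[(23,0)]⟩) .k 0 (⟨0,[]⟩,⟨0,[]⟩) .k .k) (.R ⟨1,false,false,false,[1,-1],[1,-1,-1],[0,
  1,-1,-1],(⟨0,[(28,0)]⟩,⟨0,[(29,0)]⟩),(⟨0,[(13,0)]⟩,⟨22,[(15,2),(0,2),(8,22),(0,4),(4,5),(0,2)]⟩),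
  ⟨0,[(13,0),(0,0)]⟩,.k,.k,(.r (-1) ⟨0,[(1,0)]⟩ ⟨0,[(34,1),(6,1)]⟩),.k,.k,.k,⟨false,0,⟨0,[(6,0),(28,
  0)]⟩,⟨1,[(10,1),(27,0),(0,0)]⟩⟩,⟨true,0,⟨0,[(11,0)]⟩,⟨0,[(22,0)]⟩⟩,⟨true,0,⟨0,[(41,0)]⟩,⟨0,[]⟩⟩,
  ⟨false,1,⟨0,[(21,0),(17,0)]⟩,⟨0,[(5,0)]⟩⟩,⟨false,0,⟨0,[(37,0)]⟩,⟨0,[(36,0),(2,0)]⟩⟩,⟨false,1,⟨0,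
  [(21,0),(15,0),(1,0)]⟩,⟨0,[(4,0)]⟩⟩,[.e ⟨false,1,⟨7,[(9,3),(5,0),(0,0),(13,1),(7,2)]⟩,⟨0,[(34,
  0)]⟩⟩ ⟨false,1,⟨0,[(0,0)]⟩,⟨0,[(20,0),(13,0)]⟩⟩,.o ⟨false,1,⟨2,[(0,0),(1,1),(6,0),(17,0),(11,1)]⟩,
  ⟨0,[(3,0),(33,1)]⟩⟩,.o ⟨false,0,⟨1,[(22,0),(0,0)]⟩,⟨1,[(27,0),(10,0)]⟩⟩,.a ⟨true,(-1),⟨0,[(2,0),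
  (2,0)]⟩,⟨0,[(38,0)]⟩⟩ ⟨false,1,⟨1,[(1,0),(36,0)]⟩,⟨1,[(22,0),(0,0),(10,1)]⟩⟩ ⟨true,1,⟨0,[(0,0)]⟩,
  ⟨2,[(2,1),(0,3),(16,0),(11,0),(1,1),(2,4)]⟩⟩]⟩) (.I [0,0,0,0,1,0,0,0,-1] (.I [0,0,0,0,0,-1,-1]
  (.I [1,0,0,0,0,3,0,0,1] (.I [0,1,2,-1,-1] (.I [0,0,2,1,-1,0,0,1] (.I [0,1,0,-1,0,-1,1,1] (.I [5,0,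
  0,0,-1,6] (.I [1,0,2,0,-1,2,-1,-1] (.I [1,0,2,1,-1,2,1,1] (.I [1,0,4,1,-2,3] (.C [(0,0),(9,0),(0,
  0),(0,0),(4,2),(23,0)]) (.C [(0,0),(9,0),(1,0),(28,0)])) (.C [(0,0),(8,0),(12,0),(17,0)])) (.C
  [(0,0),(9,0),(11,0),(16,0)])) (.C [(0,0),(37,1),(0,0)])) (.C [(0,0),(8,0),(9,0)])) (.C [(0,0),(4,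
  0),(10,0)])) (.C [(0,0),(5,0),(0,0)])) (.C [(0,0),(18,0),(0,0),(13,0)])) (.C [(0,0),(12,0),(2,
  0)])) (.C [(0,0),(15,0),(2,0)]))) (.R ⟨1,true,false,false,[0,0,1],[0,1],[0,1,0,0,0,0,0,1],(⟨0,
  [(24,0)]⟩,⟨0,[(23,0)]⟩),(⟨0,[(28,0)]⟩,⟨0,[(27,0)]⟩),⟨0,[(13,0)]⟩,.k,.k,.k,.k,(.r (-1) ⟨18,[(1,10),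
  (1,29),(2,23),(1,3),(1,14),(7,3),(6,2),(4,14),(7,1)]⟩ ⟨1,[(0,1),(8,1),(4,0),(0,0),(21,0)]⟩),.k,
  ⟨true,0,⟨0,[(2,0),(15,0)]⟩,⟨1,[(0,0),(8,1),(28,0)]⟩⟩,⟨false,1,⟨4,[(6,2),(3,0),(0,1),(18,1),(6,
  1)]⟩,⟨0,[(21,0)]⟩⟩,⟨true,0,⟨0,[(40,0)]⟩,⟨0,[]⟩⟩,⟨false,1,⟨1,[(0,0),(19,1),(16,0),(0,1)]⟩,⟨0,[(3,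
  0)]⟩⟩,⟨false,0,⟨0,[(36,0)]⟩,⟨0,[(35,0),(2,0)]⟩⟩,⟨true,0,⟨1,[(0,0),(0,1),(4,2),(23,1),(5,1)]⟩,⟨0,
  [(3,0),(31,0)]⟩⟩,[]⟩)))))) (.Q [0,0,-1,0,1,0,1,0,0,-1,1] (.p true [0,0,1] [1] (⟨0,[(19,0)]⟩,⟨0,
  [(18,0)]⟩) .k 1 (⟨0,[]⟩,⟨0,[]⟩) .k .k) (.S ⟨1,0,[0,0,0,0,0,0,0,-1],[1,0,-1],[0,1,0,0,0,0,0,-1],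
  (⟨0,[(19,0)]⟩,⟨0,[(20,0)]⟩),⟨0,[(8,0)]⟩,.k,.k,⟨true,0,⟨0,[(36,0)]⟩,⟨0,[]⟩⟩,⟨false,1,⟨1,[(10,0),(0,
  0),(22,0)]⟩,⟨0,[]⟩⟩,⟨false,0,⟨0,[(32,0)]⟩,⟨0,[(31,0),(2,0)]⟩⟩,⟨true,0,⟨0,[(32,0)]⟩,⟨0,[(31,0)]⟩⟩,
  [.o ⟨false,0,⟨0,[(1,0),(4,0)]⟩,⟨1,[(15,1),(6,0),(11,0)]⟩⟩,.a ⟨true,0,⟨1,[(1,1),(4,1),(20,0),(6,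
  0)]⟩,⟨0,[(15,0)]⟩⟩ ⟨true,0,⟨0,[(1,0)]⟩,⟨0,[(3,0),(2,0),(22,0)]⟩⟩ ⟨false,1,⟨1,[(1,1),(31,0),(0,
  0)]⟩,⟨0,[(6,0),(8,0)]⟩⟩,.o ⟨false,0,⟨0,[(6,0)]⟩,⟨3,[(0,1),(9,0),(0,0),(5,1),(4,0)]⟩⟩,.o ⟨false,0,
  ⟨0,[(18,0)]⟩,⟨0,[(0,0)]⟩⟩]⟩) (.I [0,-1,-1,0,1,0,0,1] (.S ⟨1,0,[0,0,1,1,0,0,0,-1],[1,1,-1],[1,1,1,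
  0,0,0,0,-1],(⟨22,[(11,2),(0,2),(7,22),(1,4),(4,5),(0,2)]⟩,⟨0,[(10,0)]⟩),⟨0,[(20,0)]⟩,.k,.k,⟨true,
  0,⟨0,[(32,0)]⟩,⟨0,[(33,0)]⟩⟩,⟨false,1,⟨1,[(11,0),(0,0),(22,0)]⟩,⟨0,[]⟩⟩,⟨false,0,⟨0,[]⟩,⟨1,[(11,
  0),(0,0),(22,0)]⟩⟩,⟨true,0,⟨0,[(33,0)]⟩,⟨0,[(32,0)]⟩⟩,[.o ⟨false,0,⟨0,[(2,0),(4,0),(25,0)]⟩,⟨1,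
  [(4,1),(18,0),(11,0)]⟩⟩,.a ⟨true,0,⟨0,[(2,0),(12,0),(14,0)]⟩,⟨0,[(4,0)]⟩⟩ ⟨false,0,⟨0,[(2,0)]⟩,
  ⟨15,[(0,11),(7,1),(2,2),(0,2),(3,3),(6,0),(2,3)]⟩⟩ ⟨true,0,⟨0,[(2,0),(27,0)]⟩,⟨0,[(4,0),(2,0)]⟩⟩,
  .e ⟨false,0,⟨0,[(6,0)]⟩,⟨0,[(0,0)]⟩⟩ ⟨false,0,⟨0,[(2,0),(27,0)]⟩,⟨2,[(0,1),(3,0),(0,0),(13,0)]⟩⟩,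
  .o ⟨false,0,⟨0,[(7,0)]⟩,⟨1,[(18,1),(4,0),(10,0)]⟩⟩]⟩) (.I [0,0,0,0,1,0,0,0,-1] (.I [1,0,0,0,0,3,0,
  0,1] (.I [1,0,1,0,-1,2,-1] (.I [1,1,0,-1,0,2,1,1] (.I [5,0,0,0,-1,6] (.I [1,1,1,-1,-1,3,0,1] (.C
  [(0,0),(5,1),(0,0),(1,2),(0,0),(22,0),(2,1),(4,0)]) (.C [(0,0),(6,0),(2,0),(22,0)])) (.C [(0,0),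
  (31,1),(0,0)])) (.C [(0,0),(7,0),(4,0),(17,0)])) (.C [(0,0),(3,0),(8,0),(16,0)])) (.C [(0,0),(13,
  0),(0,0),(13,0)])) (.C [(0,0),(11,0),(2,0)])))))

theorem ok52 : chk K t52 r12 = true := by decide +kernel

noncomputable def t57 : Tre :=
  (.Q [0,1,0,-1,0,0,-1,-1,0,0,-1] (.p false [0,0,1] [] (⟨0,[(14,0)]⟩,⟨0,[(13,0)]⟩) .k 0 (⟨0,[]⟩,⟨0,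
  []⟩) .k .k) (.I [0,0,-2,-2,1,0,0,-1] (.K ⟨0,[0,1,1],0,0,(⟨22,[(6,2),(0,2),(8,22),(0,4),(4,5),(0,
  2)]⟩,⟨0,[(4,0)]⟩),.k,.k,(.r 0 ⟨0,[(11,0),(2,0),(10,0),(2,0)]⟩ ⟨0,[(0,0)]⟩),.k,.k,[⟨1,[(13,0),(0,
  0)]⟩,⟨0,[(2,0)]⟩,⟨0,[(1,0)]⟩,⟨0,[(11,0),(16,0)]⟩]⟩) (.I [0,0,2,0,-1,2,-1] (.K ⟨0,[0,1,1],0,0,(⟨22,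
  [(7,2),(0,2),(8,22),(0,4),(4,5),(0,2)]⟩,⟨0,[(5,0)]⟩),.k,.k,(.x (-2) ⟨0,[(3,0),(1,0),(13,0),(0,0),
  (9,0)]⟩ ⟨0,[(0,0)]⟩),.k,.k,[⟨1,[(14,0),(0,0)]⟩,⟨0,[(3,0)]⟩,⟨0,[(2,0)]⟩,⟨0,[(12,0),(16,0)]⟩]⟩) (.I
  [1,-1,1,1,0,0,0,1] (.I [0,0,2,2,-1,0,0,-1] (.I [0,1,-1,0,0,0,0,-1] (.S ⟨1,0,[0,1,1,1,0,0,0,1],[0,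
  1,1],[0,1],(⟨22,[(10,2),(0,2),(8,22),(0,4),(4,5),(0,2)]⟩,⟨0,[(8,0)]⟩),⟨0,[(20,0)]⟩,.k,.k,⟨false,1,
  ⟨0,[(0,0),(30,0),(2,0)]⟩,⟨0,[(2,0)]⟩⟩,⟨true,0,⟨0,[(36,0)]⟩,⟨0,[]⟩⟩,⟨true,0,⟨0,[(0,0)]⟩,⟨0,[(2,0),
  (28,0)]⟩⟩,⟨false,0,⟨0,[(32,0)]⟩,⟨0,[(31,0),(2,0)]⟩⟩,[.o ⟨false,0,⟨0,[(3,0),(0,0),(4,0),(16,0),(4,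
  0)]⟩,⟨0,[(5,0),(28,0)]⟩⟩,.e ⟨false,1,⟨1,[(10,0),(0,0),(21,0)]⟩,⟨0,[]⟩⟩ ⟨false,0,⟨0,[(2,0),(27,
  0)]⟩,⟨0,[(0,0),(30,0),(2,0)]⟩⟩,.o ⟨false,1,⟨1,[(6,1),(15,0),(10,0)]⟩,⟨0,[(18,0)]⟩⟩,.a ⟨true,0,⟨0,
  [(6,0)]⟩,⟨5,[(7,2),(2,0),(0,0),(9,0),(1,0),(3,0)]⟩⟩ ⟨true,0,⟨0,[(30,0)]⟩,⟨1,[(17,0),(0,0)]⟩⟩
  ⟨false,0,⟨0,[(2,0),(27,0)]⟩,⟨0,[(5,0),(0,0),(27,0)]⟩⟩]⟩) (.K ⟨0,[0,1,1],0,0,(⟨22,[(10,2),(0,2),(8,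
  22),(0,4),(4,5),(0,2)]⟩,⟨0,[(8,0)]⟩),.k,.k,(.r 1 ⟨0,[(0,1),(0,0),(28,1)]⟩ ⟨0,[(5,0),(0,0),(24,0),
  (1,0),(0,0)]⟩),.k,.k,[⟨1,[(17,0),(0,0)]⟩,⟨0,[(6,0)]⟩,⟨0,[(5,0)]⟩,⟨0,[(15,0),(16,0)]⟩]⟩)) (.I [0,
  -1,-1,0,1,0,0,-1] (.S ⟨1,0,[0,1,0,0,0,0,0,-1],[1,0,-1],[0,0,0,0,0,0,0,-1],(⟨0,[(19,0)]⟩,⟨0,[(20,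
  0)]⟩),⟨0,[(8,0)]⟩,.k,.k,⟨false,1,⟨1,[(10,0),(0,0),(22,0)]⟩,⟨0,[]⟩⟩,⟨true,0,⟨0,[(36,0)]⟩,⟨0,[]⟩⟩,
  ⟨true,0,⟨0,[(32,0)]⟩,⟨0,[(31,0)]⟩⟩,⟨false,0,⟨0,[(32,0)]⟩,⟨0,[(31,0),(2,0)]⟩⟩,[.o ⟨false,0,⟨0,[(16,
  0)]⟩,⟨5,[(1,1),(0,3),(3,5),(15,2),(11,0)]⟩⟩,.e ⟨false,1,⟨0,[(0,0)]⟩,⟨19,[(1,4),(2,6),(2,3),(7,7),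
  (6,1),(2,3),(5,3)]⟩⟩ ⟨false,1,⟨5,[(0,4),(9,0),(0,0),(4,0),(0,0),(7,1)]⟩,⟨1,[(1,0),(2,0)]⟩⟩,.a
  ⟨true,0,⟨5,[(7,2),(2,0),(0,0),(9,0),(1,0),(3,0)]⟩,⟨0,[(6,0)]⟩⟩ ⟨false,1,⟨1,[(0,0),(15,0),(0,0),
  (16,0)]⟩,⟨1,[(1,0),(2,0)]⟩⟩ ⟨true,0,⟨0,[(6,0),(9,0)]⟩,⟨1,[(1,0),(2,0)]⟩⟩,.o ⟨false,0,⟨0,[(18,0)]⟩,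
  ⟨1,[(6,1),(15,0),(10,0)]⟩⟩]⟩) (.K ⟨0,[0,1,1],0,0,(⟨22,[(10,2),(0,2),(8,22),(0,4),(4,5),(0,2)]⟩,⟨0,
  [(8,0)]⟩),.k,.k,(.r 1 ⟨2,[(0,5),(2,3),(1,2),(3,3),(4,0),(6,2),(4,2),(0,0),(1,8)]⟩ ⟨2,[(1,0),(3,3),
  (0,1),(10,1),(15,2),(0,1)]⟩),.k,.k,[⟨1,[(17,0),(0,0)]⟩,⟨0,[(6,0)]⟩,⟨0,[(5,0)]⟩,⟨0,[(15,0),(16,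
  0)]⟩]⟩))) (.Q [0,0,0,0,0,0,-1,-1,0,0,-1] (.p false [0,0,1] [] (⟨0,[(18,0)]⟩,⟨0,[(17,0)]⟩) .k 0
  (⟨0,[]⟩,⟨0,[]⟩) .k .k) (.Q [0,0,0,1,0,0,1,1,0,0,1] (.p true [0,0,1] [] (⟨0,[(19,0)]⟩,⟨0,[(18,
  0)]⟩) .k 0 (⟨0,[]⟩,⟨0,[]⟩) .k .k) (.R ⟨2,true,false,false,[0,1],[0,1,1],[1,1,1],(⟨0,[]⟩,⟨0,[]⟩),
  (⟨22,[(10,2),(0,2),(8,22),(0,4),(4,5),(0,2)]⟩,⟨0,[(8,0)]⟩),⟨0,[]⟩,.k,.k,.k,.k,.k,.k,⟨false,0,⟨0,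
  [(2,0)]⟩,⟨3,[(0,3),(6,1),(2,0),(0,0),(10,0),(11,1)]⟩⟩,⟨true,0,⟨0,[(6,0)]⟩,⟨0,[(18,0)]⟩⟩,⟨true,0,
  ⟨0,[(31,0)]⟩,⟨0,[(32,0)]⟩⟩,⟨false,1,⟨0,[(15,0),(18,0)]⟩,⟨0,[(1,0)]⟩⟩,⟨false,0,⟨0,[]⟩,⟨1,[(10,0),
  (0,0),(22,0)]⟩⟩,⟨true,0,⟨0,[(0,0)]⟩,⟨0,[(5,0)]⟩⟩,[]⟩) (.I [0,0,0,0,1,0,0,0,-1] (.I [0,0,0,-1,0,0,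
  0,-1] (.I [0,0,0,-1,0,-1,-1,-1] (.C [(0,1),(5,1),(0,1),(21,1),(0,0),(3,1),(2,0)]) (.C [(0,0),(2,
  0),(8,0)])) (.C [(0,0),(1,0),(5,0)])) (.C [(0,0),(10,0),(2,0)]))) (.R ⟨2,true,false,false,[0,1],
  [0,0,1],[1,0,0,0,0,0,0,1],(⟨0,[]⟩,⟨0,[]⟩),(⟨0,[(19,0)]⟩,⟨0,[(18,0)]⟩),⟨0,[]⟩,.k,.k,.k,.k,.k,.k,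
  ⟨true,0,⟨0,[]⟩,⟨1,[(16,0),(0,0)]⟩⟩,⟨false,0,⟨0,[(5,0)]⟩,⟨3,[(6,1),(2,0),(0,0),(10,0),(10,1)]⟩⟩,
  ⟨true,1,⟨1,[(0,1),(12,1),(7,0),(8,1),(2,0)]⟩,⟨0,[(1,1),(1,0),(24,0)]⟩⟩,⟨false,1,⟨0,[(0,0),(29,0),
  (2,0)]⟩,⟨1,[(1,2),(1,0),(9,1),(7,0),(6,2)]⟩⟩,⟨false,1,⟨1,[(0,1),(12,1),(7,0),(11,0)]⟩,⟨1,[(1,0),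
  (2,0),(11,0),(11,1)]⟩⟩,⟨true,0,⟨0,[(0,0)]⟩,⟨0,[(15,0)]⟩⟩,[]⟩))))) (.I [0,1,-2,-1,1,0,0,-1] (.R ⟨2,
  true,false,false,[0,1],[0,1,1],[0,1],(⟨0,[]⟩,⟨0,[]⟩),(⟨22,[(6,2),(0,2),(8,22),(0,4),(4,5),(0,2)]⟩,
  ⟨0,[(4,0)]⟩),⟨0,[]⟩,.k,.k,.k,.k,.k,.k,⟨false,1,⟨0,[(0,0)]⟩,⟨0,[(1,0),(12,0)]⟩⟩,⟨true,0,⟨0,[(2,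
  0)]⟩,⟨0,[(14,0)]⟩⟩,⟨false,1,⟨1,[(27,1),(1,0),(0,0)]⟩,⟨0,[(25,0)]⟩⟩,⟨true,0,⟨0,[(1,0),(25,0)]⟩,⟨0,
  [(12,0)]⟩⟩,⟨true,0,⟨0,[(26,0)]⟩,⟨1,[(13,0),(0,0)]⟩⟩,⟨false,0,⟨0,[(1,0)]⟩,⟨0,[(12,0),(14,0),(2,
  0)]⟩⟩,[]⟩) (.R ⟨2,true,false,false,[0,1],[0,1,1],[0,0,1,1],(⟨0,[]⟩,⟨0,[]⟩),(⟨22,[(6,2),(0,2),(8,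
  22),(0,4),(4,5),(0,2)]⟩,⟨0,[(4,0)]⟩),⟨0,[]⟩,.k,.k,.k,.k,.k,.k,⟨false,1,⟨1,[(2,1),(9,1),(16,0),(0,
  0)]⟩,⟨2,[(0,0),(0,1),(8,1),(7,0),(8,2)]⟩⟩,⟨true,0,⟨0,[(2,0)]⟩,⟨0,[(14,0)]⟩⟩,⟨false,1,⟨1,[(6,0),(0,
  0),(22,0)]⟩,⟨0,[]⟩⟩,⟨true,0,⟨0,[(1,0),(25,0)]⟩,⟨0,[(12,0)]⟩⟩,⟨true,0,⟨0,[(28,0)]⟩,⟨0,[(27,0)]⟩⟩,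
  ⟨false,0,⟨0,[(1,0)]⟩,⟨0,[(12,0),(14,0),(2,0)]⟩⟩,[]⟩)))

theorem ok57 : chk K t57 r0 = true := by decide +kernel


end Helper48.Y.Y11_c2_P3_m1n1
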