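import Pool.Agent.Helper48.Y.Y11_c2_P4_m1n1_q

set_option autoImplicit false
set_option linter.all false

namespace Helper48.Y.Y11_c2_P4_m1n1

open Helper25.KG Helper25.KW Helper55.KE Helper11.CT

noncomputable def t36 : Tre :=
  (.S ⟨1,0,[0,0,0,0,0,0,0,1],[0,0,1],[0,1,0,0,0,0,0,1],(⟨0,[(20,0)]⟩,⟨0,[(19,0)]⟩),⟨0,[(9,0)]⟩,.k,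
  .k,⟨true,0,⟨0,[(34,0)]⟩,⟨0,[]⟩⟩,⟨false,1,⟨1,[(10,0),(0,0),(20,0)]⟩,⟨0,[]⟩⟩,⟨false,0,⟨0,[(30,0)]⟩,
  ⟨0,[(29,0),(2,0)]⟩⟩,⟨true,0,⟨0,[(30,0)]⟩,⟨0,[(29,0)]⟩⟩,[.e ⟨false,0,⟨1,[(1,0),(0,0),(22,0)]⟩,⟨0,
  [(0,0)]⟩⟩ ⟨false,0,⟨0,[(1,0)]⟩,⟨0,[(0,0),(33,0)]⟩⟩,.o ⟨false,1,⟨1,[(1,1),(15,1),(4,0),(9,0)]⟩,⟨0,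
  [(16,0)]⟩⟩,.o ⟨false,1,⟨1,[(17,1),(4,0),(8,0)]⟩,⟨0,[(6,0)]⟩⟩,.a ⟨true,0,⟨0,[(17,0)]⟩,⟨0,[(14,
  0)]⟩⟩ ⟨false,0,⟨0,[(1,0)]⟩,⟨1,[(0,1),(16,0),(0,0)]⟩⟩ ⟨true,0,⟨0,[(1,0)]⟩,⟨0,[(16,0),(0,0)]⟩⟩]⟩)

theorem ok36 : chk K t36 l22 = true := by decide +kernel

noncomputable def t37 : Tre :=
  (.S ⟨1,0,[0,0,0,0,0,0,0,1],[0,0,1],[],(⟨0,[(21,0)]⟩,⟨0,[(20,0)]⟩),⟨0,[(10,0)]⟩,.k,.k,⟨true,1,⟨0,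
  [(0,0),(29,0)]⟩,⟨0,[(1,0)]⟩⟩,⟨false,1,⟨1,[(0,0),(4,0),(27,0)]⟩,⟨0,[]⟩⟩,⟨false,1,⟨0,[(0,0)]⟩,⟨0,
  [(1,0),(28,0),(2,0)]⟩⟩,⟨true,0,⟨0,[(31,0)]⟩,⟨0,[(30,0)]⟩⟩,[.e ⟨false,1,⟨1,[(0,0),(4,0),(26,0)]⟩,
  ⟨0,[]⟩⟩ ⟨false,0,⟨0,[(2,0)]⟩,⟨0,[(0,0),(29,0)]⟩⟩,.o ⟨false,1,⟨1,[(2,1),(15,1),(4,0),(9,0)]⟩,⟨0,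
  [(17,0)]⟩⟩,.o ⟨false,1,⟨1,[(18,1),(4,0),(8,0)]⟩,⟨0,[(7,0)]⟩⟩,.a ⟨true,0,⟨0,[(18,0)]⟩,⟨0,[(15,
  0)]⟩⟩ ⟨false,1,⟨1,[(32,0),(0,0)]⟩,⟨1,[(18,0),(0,0)]⟩⟩ ⟨true,0,⟨0,[(2,0)]⟩,⟨0,[(17,0),(0,0)]⟩⟩]⟩)

theorem ok37 : chk K t37 l23 = true := by decide +kernel

noncomputable def t38 : Tre :=
  (.R ⟨2,true,false,false,[0,1],[0,1,1],[0,0,1,1],(⟨0,[]⟩,⟨0,[]⟩),(⟨0,[(22,0),(3,0)]⟩,⟨0,[(10,0)]⟩),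
  ⟨0,[]⟩,.k,.k,.k,.k,.k,.k,⟨true,1,⟨1,[(18,1),(0,1),(13,0),(0,0)]⟩,⟨0,[(1,0),(27,0)]⟩⟩,⟨false,1,⟨0,
  [(19,0),(13,0)]⟩,⟨0,[(8,0)]⟩⟩,⟨false,1,⟨1,[(12,0),(0,0),(20,0)]⟩,⟨0,[]⟩⟩,⟨true,0,⟨1,[(0,0),(4,
  0)]⟩,⟨0,[(18,0)]⟩⟩,⟨true,0,⟨0,[(32,0)]⟩,⟨0,[(31,0)]⟩⟩,⟨false,0,⟨0,[(0,0)]⟩,⟨0,[(18,0),(12,0),(2,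
  0)]⟩⟩,[]⟩)

theorem ok38 : chk K t38 l24 = true := by decide +kernel

noncomputable def t39 : Tre :=
  (.Q [0,0,0,1,0,0,-1,-1,0,1,-1] (.p false [0,0,1] [1] (⟨0,[(24,0)]⟩,⟨0,[(23,0)]⟩) .k 1 (⟨0,[]⟩,⟨0,
  []⟩) .k .k) (.Q [0,0,2,0,-1,0,0,0,0,1] (.pp false [-1,1]) (.S ⟨1,0,[0,0,-1,-1],[1,-1],[0,1,-1,-1],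
  (⟨0,[(29,0)]⟩,⟨0,[(30,0)]⟩),⟨0,[(14,0),(0,0)]⟩,.k,(.r (-1) ⟨0,[(2,0)]⟩ ⟨1,[(1,0),(1,0),(17,0),(1,
  0),(0,0),(8,1)]⟩),⟨true,0,⟨0,[(40,0)]⟩,⟨0,[]⟩⟩,⟨false,1,⟨1,[(16,0),(0,0),(20,0)]⟩,⟨0,[]⟩⟩,⟨false,
  0,⟨0,[(36,0)]⟩,⟨0,[(35,0),(2,0)]⟩⟩,⟨true,0,⟨0,[(36,0)]⟩,⟨0,[(35,0)]⟩⟩,[.e ⟨false,1,⟨7,[(11,3),(4,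
  0),(0,0),(13,1),(5,2)]⟩,⟨0,[(33,0)]⟩⟩ ⟨false,1,⟨1,[(2,0),(34,0)]⟩,⟨3,[(1,0),(1,0),(17,0),(1,0),(0,
  0),(8,1)]⟩⟩,.o ⟨false,1,⟨0,[(35,0),(2,0)]⟩,⟨0,[(3,0)]⟩⟩,.o ⟨false,0,⟨1,[(23,0),(0,0)]⟩,⟨1,[(28,0),
  (8,0)]⟩⟩,.a ⟨true,(-1),⟨0,[(0,0)]⟩,⟨0,[(37,0)]⟩⟩ ⟨false,1,⟨1,[(2,0),(34,0)]⟩,⟨1,[(23,0),(0,0),(8,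
  1)]⟩⟩ ⟨true,1,⟨1,[(2,0),(34,0)]⟩,⟨0,[(0,0),(2,0)]⟩⟩]⟩) (.S ⟨1,0,[0,1,-1,-1],[1,-1],[0,0,-1,-1],
  (⟨0,[(29,0)]⟩,⟨0,[(30,0)]⟩),⟨0,[(14,0),(0,0)]⟩,.k,(.r (-1) ⟨0,[(2,0)]⟩ ⟨1,[(1,0),(1,0),(17,0),(1,
  0),(0,0),(8,1)]⟩),⟨false,1,⟨1,[(16,0),(0,0),(20,0)]⟩,⟨0,[]⟩⟩,⟨true,0,⟨0,[(40,0)]⟩,⟨0,[]⟩⟩,⟨true,0,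
  ⟨0,[(36,0)]⟩,⟨0,[(35,0)]⟩⟩,⟨false,0,⟨0,[(36,0)]⟩,⟨0,[(35,0),(2,0)]⟩⟩,[.e ⟨false,1,⟨1,[(2,0),(34,
  0)]⟩,⟨3,[(1,0),(1,0),(17,0),(1,0),(0,0),(8,1)]⟩⟩ ⟨false,1,⟨7,[(11,3),(4,0),(0,0),(13,1),(5,2)]⟩,
  ⟨0,[(33,0)]⟩⟩,.a ⟨true,0,⟨1,[(1,1),(0,0),(2,1),(17,1),(14,0)]⟩,⟨0,[(36,0)]⟩⟩ ⟨true,1,⟨1,[(2,0),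
  (35,0)]⟩,⟨0,[(6,0),(15,0),(0,0),(9,0)]⟩⟩ ⟨false,1,⟨1,[(2,0),(34,0)]⟩,⟨3,[(1,0),(1,0),(17,0),(1,0),
  (0,0),(8,1)]⟩⟩,.o ⟨false,0,⟨1,[(23,0),(0,0)]⟩,⟨1,[(28,0),(8,0)]⟩⟩,.o ⟨false,0,⟨0,[(23,0),(0,0)]⟩,
  ⟨0,[(0,0)]⟩⟩]⟩)) (.S ⟨1,0,[0,0,0,0,0,0,0,1],[0,0,1],[1,1,0,-1,0,0,0,1],(⟨0,[(25,0)]⟩,⟨0,[(24,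
  0)]⟩),⟨0,[(14,0)]⟩,.k,.k,⟨true,0,⟨0,[(34,0)]⟩,⟨0,[(35,0)]⟩⟩,⟨false,1,⟨1,[(15,0),(0,0),(20,0)]⟩,⟨0,
  []⟩⟩,⟨false,0,⟨0,[]⟩,⟨1,[(15,0),(0,0),(20,0)]⟩⟩,⟨true,0,⟨0,[(35,0)]⟩,⟨0,[(34,0)]⟩⟩,[.o ⟨false,0,
  ⟨0,[(0,0),(34,0)]⟩,⟨1,[(15,0),(0,0),(4,1),(15,0)]⟩⟩,.o ⟨false,1,⟨1,[(0,0),(1,0),(17,0),(16,1)]⟩,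
  ⟨0,[(21,0)]⟩⟩,.o ⟨false,1,⟨1,[(22,1),(4,0),(8,0)]⟩,⟨0,[(11,0)]⟩⟩,.a ⟨true,0,⟨0,[(22,0)]⟩,⟨0,[(19,
  0)]⟩⟩ ⟨false,0,⟨3,[(1,0),(2,1),(1,1),(30,0)]⟩,⟨0,[(21,0),(0,0),(12,0),(1,0)]⟩⟩ ⟨true,0,⟨0,[(6,
  0)]⟩,⟨0,[(21,0),(0,0)]⟩⟩]⟩))

theorem ok39 : chk K t39 l26 = true := by decide +kernel

noncomputable def t40 : Tre :=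
  (.I [0,0,-2,-2,2,0,0,-1] (.R ⟨1,true,false,false,[1,0,-1],[0,1],[0,1,0,0,0,0,0,-1],(⟨0,[(28,0)]⟩,
  ⟨0,[(29,0)]⟩),(⟨0,[(33,0)]⟩,⟨0,[(32,0)]⟩),⟨0,[(17,0)]⟩,.k,.k,.k,.k,(.r (-2) ⟨0,[(0,0)]⟩ ⟨1,[(1,3),
  (0,5),(5,3),(17,1),(8,0),(1,9),(3,6)]⟩),.k,⟨true,1,⟨1,[(0,0),(24,0),(0,0),(10,0)]⟩,⟨0,[(8,0),(27,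
  1)]⟩⟩,⟨false,2,⟨0,[(0,0),(0,0)]⟩,⟨1,[(2,0),(5,0),(14,0),(12,0)]⟩⟩,⟨true,0,⟨0,[(43,0)]⟩,⟨0,[]⟩⟩,
  ⟨false,1,⟨3,[(1,1),(22,1),(6,0),(9,2)]⟩,⟨0,[(3,0)]⟩⟩,⟨false,0,⟨0,[(39,0)]⟩,⟨10,[(0,2),(1,1),(5,1),
  (4,2),(12,1),(4,0),(9,7)]⟩⟩,⟨true,0,⟨0,[(1,0)]⟩,⟨0,[(3,0),(34,0)]⟩⟩,[]⟩) (.I [0,0,-2,0,2,-2,1]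
  (.R ⟨1,true,false,false,[1,0,-1],[0,1],[0,1,0,0,0,0,0,-1],(⟨0,[(29,0)]⟩,⟨0,[(30,0)]⟩),(⟨0,[(34,
  0)]⟩,⟨0,[(33,0)]⟩),⟨0,[(18,0)]⟩,.k,.k,.k,.k,(.x 1 ⟨12,[(1,2),(1,8),(5,5),(7,0),(10,1),(1,12),(1,
  4),(1,25),(7,2)]⟩ ⟨0,[(0,0)]⟩),.k,⟨true,1,⟨0,[(8,0),(18,0),(13,0)]⟩,⟨2,[(1,1),(7,0),(17,0),(0,0),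
  (13,1)]⟩⟩,⟨false,2,⟨1,[(27,1),(4,0),(8,2)]⟩,⟨16,[(1,2),(1,8),(5,4),(3,0),(3,0),(6,6),(17,2)]⟩⟩,
  ⟨true,0,⟨0,[(44,0)]⟩,⟨0,[]⟩⟩,⟨false,1,⟨3,[(2,1),(22,1),(6,0),(9,2)]⟩,⟨0,[(4,0)]⟩⟩,⟨false,0,⟨0,
  [(40,0)]⟩,⟨0,[(39,0),(2,0)]⟩⟩,⟨true,0,⟨0,[(2,0)]⟩,⟨0,[(4,0),(34,0)]⟩⟩,[]⟩) (.I [0,0,2,0,-2,2,-1]
  (.R ⟨1,true,false,true,[1,0,-1],[0,1],[0,0,0,0,0,0,0,-1],(⟨0,[(30,0)]⟩,⟨0,[(31,0)]⟩),(⟨0,[(35,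
  0)]⟩,⟨0,[(34,0)]⟩),⟨0,[(19,0)]⟩,.k,.k,.k,.k,(.x 2 ⟨0,[(0,0)]⟩ ⟨1,[(19,1),(1,0),(0,0),(5,1),(4,1),
  (0,1),(7,2)]⟩),.k,⟨true,2,⟨1,[(5,1),(22,1),(4,0),(8,1),(0,0)]⟩,⟨0,[(2,0),(37,0)]⟩⟩,⟨false,2,⟨1,
  [(28,1),(4,0),(8,2)]⟩,⟨7,[(0,0),(1,0),(1,2),(5,1),(7,0),(0,0),(5,1),(8,0),(8,0)]⟩⟩,⟨false,1,⟨1,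
  [(21,0),(0,0),(20,0)]⟩,⟨0,[]⟩⟩,⟨true,0,⟨1,[(3,0),(4,0),(5,0)]⟩,⟨0,[(5,0)]⟩⟩,⟨true,0,⟨0,[(41,0)]⟩,
  ⟨0,[(40,0)]⟩⟩,⟨false,0,⟨0,[(3,0)]⟩,⟨0,[(5,0),(34,0),(2,0)]⟩⟩,[]⟩) (.Q [0,0,0,1,0,0,-2,-2,0,1,-2]
  (.p false [0,0,1] [1,0,-1] (⟨0,[(31,0)]⟩,⟨0,[(30,0)]⟩) .k 2 (⟨0,[(30,0)]⟩,⟨0,[(31,0)]⟩) .k (.r 1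
  ⟨2,[(2,0),(7,1),(1,1),(0,0),(29,0)]⟩ ⟨0,[(27,1),(0,1),(13,0),(0,0)]⟩)) (.R ⟨1,true,false,false,[0,
  0,1],[1,0,-1],[1,1,0,-1,0,0,0,1],(⟨0,[(32,0)]⟩,⟨0,[(31,0)]⟩),(⟨0,[(31,0)]⟩,⟨0,[(32,0)]⟩),⟨0,[(21,
  0)]⟩,.k,.k,.k,.k,(.r 0 ⟨2,[(7,0),(3,0),(1,0),(0,2),(29,0)]⟩ ⟨1,[(0,1),(28,3),(4,0),(8,0)]⟩),.k,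
  ⟨false,(-1),⟨0,[(11,0),(1,0)]⟩,⟨1,[(0,1),(28,3),(4,0),(8,1),(0,0)]⟩⟩,⟨true,(-1),⟨4,[(0,3),(2,1),
  (3,1),(3,3),(7,0),(24,2)]⟩,⟨1,[(29,3),(4,0),(8,0)]⟩⟩,⟨true,0,⟨0,[(41,0)]⟩,⟨0,[(42,0)]⟩⟩,⟨false,1,
  ⟨5,[(0,3),(5,3),(15,1),(0,1),(10,0),(9,2)]⟩,⟨5,[(3,1),(0,3),(2,5),(21,7),(4,0),(9,2)]⟩⟩,⟨false,0,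
  ⟨0,[]⟩,⟨1,[(22,0),(0,0),(20,0)]⟩⟩,⟨true,0,⟨0,[(0,0)]⟩,⟨3,[(4,1),(2,1),(3,1),(3,1),(13,3),(4,0),(9,
  0)]⟩⟩,[]⟩) (.I [0,0,1,1,1,0,0,-2] (.Q [0,0,0,2,0,0,-2,-2,0,1,-2] (.p false [0,0,1] [1,0,-1] (⟨0,
  [(33,0)]⟩,⟨0,[(32,0)]⟩) .k 2 (⟨0,[(32,0)]⟩,⟨0,[(33,0)]⟩) .k (.r 1 ⟨12,[(1,3),(2,7),(3,5),(5,3),(5,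
  3),(24,2)]⟩ ⟨8,[(0,9),(16,1),(0,3),(25,0),(0,2)]⟩)) (.R ⟨1,true,false,false,[0,0,1],[1,1,-1],[1,1,
  0,-1,0,0,0,1],(⟨0,[(34,0)]⟩,⟨0,[(33,0)]⟩),(⟨0,[(33,0),(4,0)]⟩,⟨0,[(23,0)]⟩),⟨0,[(23,0)]⟩,.k,.k,.k,
  (.r 0 ⟨12,[(2,6),(2,0),(3,3),(5,6),(5,6),(24,1)]⟩ ⟨0,[(1,0)]⟩),(.r 0 ⟨12,[(2,1),(2,3),(3,15),(5,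
  1),(5,1),(24,7)]⟩ ⟨10,[(1,12),(4,0),(3,1),(10,0),(7,2),(2,1),(8,2)]⟩),.k,⟨true,(-1),⟨9,[(2,0),(2,
  1),(3,6),(3,8),(7,0),(24,2)]⟩,⟨0,[(1,0),(39,0)]⟩⟩,⟨false,0,⟨5,[(0,3),(4,1),(3,5),(18,3),(7,0),(9,
  2)]⟩,⟨0,[(1,0),(0,0)]⟩⟩,⟨true,0,⟨0,[(43,0)]⟩,⟨0,[(44,0)]⟩⟩,⟨false,1,⟨15,[(0,9),(0,3),(6,3),(10,1),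
  (1,3),(14,0),(9,8)]⟩,⟨0,[(2,0)]⟩⟩,⟨false,0,⟨0,[]⟩,⟨21,[(1,3),(16,3),(2,1),(7,3),(6,0),(8,1),(0,
  14)]⟩⟩,⟨true,0,⟨0,[(0,0)]⟩,⟨0,[(2,0),(40,0)]⟩⟩,[]⟩) (.Q [-1,0,0,1,0,0,0,0,-1,0,0,-1] (.p false [0,
  0,0,0,1] [] (⟨0,[(27,0)]⟩,⟨0,[(26,0)]⟩) .k 0 (⟨0,[]⟩,⟨0,[]⟩) .k .k) (.R ⟨2,true,false,true,[0,1],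
  [0,0,0,0,1],[0,0,1,1],(⟨0,[]⟩,⟨0,[]⟩),(⟨0,[(28,0)]⟩,⟨0,[(27,0)]⟩),⟨0,[]⟩,.k,.k,.k,(.r 0 ⟨66,[(2,
  10),(4,11),(3,15),(10,10),(7,9),(5,0),(1,0),(8,4),(0,23)]⟩ ⟨8,[(2,0),(16,1),(0,3),(25,0),(0,2)]⟩),
  .k,.k,⟨true,0,⟨21,[(2,1),(3,3),(4,5),(24,1),(1,1),(2,0),(5,10)]⟩,⟨0,[(44,0)]⟩⟩,⟨false,0,⟨0,[(26,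
  0)]⟩,⟨5,[(0,3),(19,1),(4,1),(20,0),(0,0)]⟩⟩,⟨false,1,⟨21,[(2,3),(16,3),(2,1),(7,3),(6,0),(8,1),(0,
  14)]⟩,⟨0,[]⟩⟩,⟨true,0,⟨0,[(26,0),(17,0)]⟩,⟨0,[(0,0)]⟩⟩,⟨true,0,⟨0,[(45,0)]⟩,⟨0,[(44,0)]⟩⟩,⟨false,
  0,⟨0,[(26,0)]⟩,⟨13,[(0,7),(0,1),(7,3),(15,5),(11,0),(9,6)]⟩⟩,[]⟩) (.Q [0,0,0,0,0,2,0,0,0,0,-1]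
  (.p false [0,0,1] [] (⟨0,[(35,0)]⟩,⟨0,[(34,0)]⟩) .k 0 (⟨0,[]⟩,⟨0,[]⟩) .k .k) (.R ⟨0,false,false,
  false,[0,-1,1],[1,0,-1],[0,1],(⟨0,[(25,0)]⟩,⟨0,[(35,0),(4,0)]⟩),(⟨0,[(35,0)]⟩,⟨0,[(36,0)]⟩),⟨0,
  [(0,0)]⟩,.k,.k,(.r (-1) ⟨4,[(11,2),(8,1),(0,0),(25,0),(0,2)]⟩ ⟨21,[(3,12),(4,0),(3,12),(10,0),(7,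
  2),(2,1),(8,2)]⟩),(.r 0 ⟨1,[(2,0),(14,1),(5,0)]⟩ ⟨0,[(3,0)]⟩),.k,.k,⟨true,(-1),⟨1,[(2,5),(0,3),(3,
  9),(2,11),(31,2),(1,23),(3,10)]⟩,⟨53,[(2,11),(0,31),(5,5),(0,7),(23,9),(3,0),(9,26)]⟩⟩,⟨false,0,
  ⟨5,[(7,5),(2,7),(0,1),(18,3),(7,2),(8,7),(0,0)]⟩,⟨0,[(3,0),(0,0)]⟩⟩,⟨true,0,⟨4,[(3,1),(5,0),(2,0),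
  (0,0),(19,0),(7,1)]⟩,⟨13,[(2,0),(4,1),(3,7),(5,1),(5,0),(24,3)]⟩⟩,⟨false,1,⟨1,[(3,0),(3,0),(2,0),
  (19,0),(1,1),(14,0),(0,1)]⟩,⟨0,[(4,0)]⟩⟩,⟨false,0,⟨0,[]⟩,⟨0,[]⟩⟩,⟨false,0,⟨0,[]⟩,⟨0,[]⟩⟩,[.a
  ⟨true,0,⟨3,[(3,0),(3,0),(2,2),(19,0),(16,0)]⟩,⟨4,[(4,1),(3,0),(21,2),(2,2)]⟩⟩ ⟨false,0,⟨0,[(44,
  0)]⟩,⟨21,[(3,3),(16,3),(2,1),(7,3),(6,0),(8,1),(0,14)]⟩⟩ ⟨true,0,⟨1,[(7,1),(2,3),(27,0),(8,2)]⟩,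
  ⟨3,[(4,1),(7,0),(20,4),(0,0),(3,0)]⟩⟩,.o ⟨false,1,⟨0,[(32,0),(15,0)]⟩,⟨2,[(4,0),(8,1),(5,0)]⟩⟩,.e
  ⟨true,0,⟨8,[(3,0),(8,0),(7,1),(20,2),(3,0)]⟩,⟨0,[]⟩⟩ ⟨true,0,⟨1,[(7,1),(2,3),(27,0),(8,2)]⟩,⟨2,
  [(2,0),(10,1),(17,0),(1,2)]⟩⟩,.o ⟨false,0,⟨2,[(2,1),(0,1),(3,0),(1,0),(28,0)]⟩,⟨1,[(30,1),(7,0),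
  (8,0)]⟩⟩]⟩) (.I [0,0,-2,0,2,-2,1,0,-1] (.Q [0,0,0,0,0,-1,0,0,0,0,0,1] (.ed false [1,-1,0,0,1] .k)
  (.S ⟨1,0,[1],[0,0,0,0,1],[0,1],(⟨0,[(31,0)]⟩,⟨0,[(30,0)]⟩),⟨0,[(0,0)]⟩,.k,(.r (-1) ⟨8,[(5,0),(16,
  1),(0,3),(25,0),(0,2)]⟩ ⟨66,[(5,10),(4,11),(3,15),(10,10),(7,9),(5,0),(1,0),(8,4),(0,23)]⟩),⟨true,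
  0,⟨0,[(52,0)]⟩,⟨0,[]⟩⟩,⟨false,1,⟨21,[(5,3),(16,3),(2,1),(7,3),(6,0),(8,1),(0,14)]⟩,⟨0,[]⟩⟩,⟨false,
  0,⟨1,[(4,1),(0,1),(3,3),(2,3),(31,0),(1,9),(3,4)]⟩,⟨79,[(4,13),(0,11),(6,27),(9,23),(0,5),(16,6),
  (9,54)]⟩⟩,⟨true,0,⟨0,[(48,0)]⟩,⟨0,[(47,0)]⟩⟩,[.a ⟨true,0,⟨0,[(29,0)]⟩,⟨0,[(1,0),(6,0),(21,0)]⟩⟩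
  ⟨false,0,⟨0,[(46,0)]⟩,⟨21,[(5,3),(16,3),(2,1),(7,3),(6,0),(8,1),(0,14)]⟩⟩ ⟨true,0,⟨0,[]⟩,⟨1,[(35,
  0),(0,0)]⟩⟩,.e ⟨false,1,⟨21,[(5,3),(16,3),(2,1),(7,3),(6,0),(8,12),(0,3)]⟩,⟨0,[]⟩⟩ ⟨false,1,⟨1,
  [(49,0),(0,0)]⟩,⟨8,[(5,0),(8,0),(7,1),(20,2),(3,0)]⟩⟩,.e ⟨true,0,⟨8,[(5,0),(8,0),(7,1),(20,2),(3,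
  0)]⟩,⟨0,[]⟩⟩ ⟨true,0,⟨0,[]⟩,⟨8,[(5,0),(8,0),(7,1),(20,2),(3,0)]⟩⟩,.o ⟨false,0,⟨5,[(3,5),(10,2),
  (25,0),(3,1)]⟩,⟨1,[(1,1),(6,1),(21,1),(9,0),(8,0)]⟩⟩]⟩) (.S ⟨1,0,[-1,1],[1,0,0,0,-1],[-1],(⟨0,
  [(30,0)]⟩,⟨0,[(31,0)]⟩),⟨1,[(0,0),(1,0),(23,0),(3,0)]⟩,.k,(.r (-1) ⟨8,[(5,0),(16,1),(0,3),(25,0),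
  (0,2)]⟩ ⟨10,[(5,1),(4,0),(3,1),(10,0),(7,2),(2,1),(8,2)]⟩),⟨false,1,⟨21,[(5,3),(16,3),(2,1),(7,3),
  (6,0),(8,1),(0,14)]⟩,⟨0,[]⟩⟩,⟨true,0,⟨8,[(5,0),(8,0),(7,1),(20,2),(3,0)]⟩,⟨0,[]⟩⟩,⟨true,0,⟨0,[(48,
  0)]⟩,⟨0,[(47,0)]⟩⟩,⟨false,0,⟨0,[(48,0)]⟩,⟨79,[(4,13),(0,11),(6,27),(9,23),(0,5),(16,6),(9,54)]⟩⟩,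
  [.o ⟨false,0,⟨65,[(0,51),(0,51),(0,12),(5,38),(0,15),(6,23),(0,7),(10,13),(6,10),(7,16)]⟩,⟨1,[(29,
  1),(10,0),(9,0)]⟩⟩,.e ⟨false,1,⟨0,[(46,0),(3,0)]⟩,⟨8,[(5,0),(8,0),(7,1),(20,2),(3,0)]⟩⟩ ⟨false,1,
  ⟨21,[(5,3),(16,3),(2,1),(7,3),(6,0),(8,12),(0,3)]⟩,⟨0,[]⟩⟩,.a ⟨true,0,⟨0,[(1,0),(6,0),(21,0)]⟩,⟨0,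
  [(29,0)]⟩⟩ ⟨false,1,⟨21,[(5,3),(16,3),(2,1),(7,3),(6,0),(8,1),(0,14)]⟩,⟨0,[]⟩⟩ ⟨true,0,⟨0,[(52,
  0)]⟩,⟨0,[]⟩⟩,.o ⟨false,0,⟨5,[(0,3),(0,3),(0,0),(1,0),(3,2),(0,0),(1,2),(16,1),(11,0)]⟩,⟨1,[(29,1),
  (10,0),(8,0)]⟩⟩]⟩)) (.Q [1,-1,0,0,0,0,0,0,1,-1,0,1] (.p true [0,0,0,0,1] [1] (⟨0,[(30,0)]⟩,⟨0,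
  [(29,0)]⟩) .k 1 (⟨0,[]⟩,⟨0,[]⟩) .k .k) (.Q [1,0,0,0,-1,0,0,0,1,0,0,1] (.p true [0,0,0,0,1] [] (⟨0,
  [(31,0)]⟩,⟨0,[(30,0)]⟩) .k 0 (⟨0,[]⟩,⟨0,[]⟩) .k .k) (.R ⟨2,true,false,false,[0,1],[0,0,0,0,1],[1,
  1,1],(⟨0,[]⟩,⟨0,[]⟩),(⟨0,[(32,0)]⟩,⟨0,[(31,0)]⟩),⟨0,[]⟩,.k,.k,.k,(.r 0 ⟨66,[(6,10),(4,11),(3,15),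
  (10,10),(7,9),(5,0),(1,0),(8,4),(0,23)]⟩ ⟨8,[(6,0),(16,1),(0,3),(25,0),(0,2)]⟩),.k,.k,⟨false,0,⟨8,
  [(6,0),(8,0),(7,1),(20,2),(3,0)]⟩,⟨1,[(50,0),(0,0)]⟩⟩,⟨true,(-1),⟨20,[(0,14),(3,5),(5,1),(1,1),(2,
  0),(20,1),(8,0),(6,8)]⟩,⟨0,[(29,0)]⟩⟩,⟨true,0,⟨0,[(48,0)]⟩,⟨0,[(49,0)]⟩⟩,⟨false,0,⟨6,[(0,2),(0,0),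
  (2,2),(0,0),(7,1),(37,2)]⟩,⟨0,[(29,0),(19,0)]⟩⟩,⟨false,0,⟨0,[]⟩,⟨21,[(6,3),(16,3),(2,1),(7,3),(6,
  0),(8,1),(0,14)]⟩⟩,⟨true,(-1),⟨0,[(0,0)]⟩,⟨10,[(6,0),(8,0),(7,1),(5,10),(14,2),(3,0),(4,1)]⟩⟩,
  []⟩) (.R ⟨1,false,false,true,[0,0,1],[1,0,0,0,-1],[0,0,0,0,0,0,0,1],(⟨0,[(39,0)]⟩,⟨0,[(38,0)]⟩),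
  (⟨0,[(31,0)]⟩,⟨0,[(32,0)]⟩),⟨0,[(28,0)]⟩,.k,.k,.k,.k,(.r 0 ⟨13,[(5,0),(4,1),(3,7),(5,1),(5,0),(24,
  3)]⟩ ⟨13,[(6,10),(4,1),(11,0),(2,1),(7,4),(2,2),(13,2)]⟩),.k,⟨true,0,⟨6,[(5,0),(4,1),(3,0),(5,1),
  (5,0),(24,3)]⟩,⟨4,[(6,0),(5,0),(3,0),(0,1),(18,2),(7,0)]⟩⟩,⟨false,1,⟨0,[(29,0),(3,0)]⟩,⟨0,[(1,0),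
  (34,0),(10,0)]⟩⟩,⟨false,1,⟨21,[(6,3),(16,3),(2,1),(7,3),(6,0),(8,1),(0,14)]⟩,⟨0,[]⟩⟩,⟨false,1,⟨3,
  [(0,1),(5,0),(3,0),(2,2),(15,1),(3,0),(16,0)]⟩,⟨39,[(1,29),(5,15),(1,1),(0,7),(19,9),(5,9),(1,1),
  (3,3),(7,14),(0,4)]⟩⟩,⟨true,0,⟨0,[(49,0)]⟩,⟨0,[(48,0)]⟩⟩,⟨false,1,⟨1,[(6,0),(3,0),(2,0),(15,1),(3,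
  0),(16,0)]⟩,⟨15,[(1,13),(2,1),(0,5),(1,1),(1,1),(26,1),(1,1),(3,3),(7,2),(0,0)]⟩⟩,[.o ⟨false,1,
  ⟨10,[(6,0),(8,0),(7,1),(5,10),(14,2),(3,0),(4,1)]⟩,⟨0,[(1,0)]⟩⟩,.o ⟨false,1,⟨0,[(0,0)]⟩,⟨1,[(1,0),
  (2,0),(11,0)]⟩⟩,.o ⟨false,1,⟨3,[(6,1),(0,1),(33,0),(8,0)]⟩,⟨0,[(25,0)]⟩⟩,.a ⟨true,0,⟨0,[(36,0)]⟩,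
  ⟨0,[(33,0)]⟩⟩ ⟨true,0,⟨0,[(20,0)]⟩,⟨4,[(6,0),(5,0),(3,0),(0,1),(18,2),(7,0)]⟩⟩ ⟨false,1,⟨0,[(0,0),
  (32,0)]⟩,⟨0,[(1,0),(34,0)]⟩⟩]⟩)) (.Q [-1,-1,0,-2,1,0,-1,-1,-1,1,-1,-1] (.p false [0,0,1] [1,0,0,0,
  -1] (⟨0,[(38,0)]⟩,⟨0,[(37,0)]⟩) .k 2 (⟨0,[(30,0)]⟩,⟨0,[(31,0)]⟩) .k (.r 0 ⟨0,[(20,0)]⟩ ⟨17,[(5,9),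
  (16,1),(0,3),(25,0),(0,2)]⟩)) (.Q [0,0,0,0,0,-1,0,0,0,0,0,1] (.ed false [1,-1,0,0,1] .k) (.S ⟨1,0,
  [1],[0,0,0,0,1],[0,1],(⟨0,[(33,0)]⟩,⟨0,[(32,0)]⟩),⟨0,[(0,0)]⟩,.k,(.r (-1) ⟨8,[(7,0),(16,1),(0,3),
  (25,0),(0,2)]⟩ ⟨66,[(7,10),(4,11),(3,15),(10,10),(7,9),(5,0),(1,0),(8,4),(0,23)]⟩),⟨true,0,⟨0,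
  [(54,0)]⟩,⟨0,[]⟩⟩,⟨false,1,⟨21,[(7,3),(16,3),(2,1),(7,3),(6,0),(8,1),(0,14)]⟩,⟨0,[]⟩⟩,⟨false,0,⟨1,
  [(6,1),(0,1),(3,3),(2,3),(31,0),(1,9),(3,4)]⟩,⟨151,[(1,27),(3,27),(0,13),(0,19),(16,39),(0,9),(16,
  6),(9,86)]⟩⟩,⟨true,0,⟨0,[(50,0)]⟩,⟨0,[(49,0)]⟩⟩,[.a ⟨true,0,⟨0,[(31,0)]⟩,⟨0,[(1,0),(9,0),(25,0),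
  (10,0),(2,0)]⟩⟩ ⟨false,0,⟨0,[(48,0)]⟩,⟨21,[(7,3),(16,3),(2,1),(7,3),(6,0),(8,1),(0,14)]⟩⟩ ⟨true,0,
  ⟨0,[]⟩,⟨1,[(37,0),(0,0)]⟩⟩,.o ⟨false,1,⟨1,[(31,1),(10,0),(9,0)]⟩,⟨2,[(1,2),(4,0),(0,0),(3,1),(0,
  0),(4,0),(30,4)]⟩⟩,.e ⟨true,0,⟨8,[(7,0),(8,0),(7,1),(20,2),(3,0)]⟩,⟨0,[]⟩⟩ ⟨true,0,⟨0,[]⟩,⟨8,[(7,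
  0),(8,0),(7,1),(20,2),(3,0)]⟩⟩,.o ⟨false,0,⟨5,[(5,5),(10,2),(25,0),(3,1)]⟩,⟨0,[(1,0),(10,0),(35,
  0)]⟩⟩]⟩) (.S ⟨1,0,[-1,1],[1,0,0,0,-1],[-1],(⟨0,[(32,0)]⟩,⟨0,[(33,0)]⟩),⟨1,[(0,0),(3,0),(23,0),(3,
  0)]⟩,.k,(.r (-1) ⟨8,[(7,0),(16,1),(0,3),(25,0),(0,2)]⟩ ⟨10,[(7,1),(4,0),(3,1),(10,0),(7,2),(2,1),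
  (8,2)]⟩),⟨false,1,⟨21,[(7,3),(16,3),(2,1),(7,3),(6,0),(8,1),(0,14)]⟩,⟨0,[]⟩⟩,⟨true,0,⟨8,[(7,0),(8,
  0),(7,1),(20,2),(3,0)]⟩,⟨0,[]⟩⟩,⟨true,0,⟨0,[(50,0)]⟩,⟨0,[(49,0)]⟩⟩,⟨false,0,⟨0,[(50,0)]⟩,⟨151,[(1,
  27),(3,27),(0,13),(0,19),(16,39),(0,9),(16,6),(9,86)]⟩⟩,[.o ⟨false,0,⟨2,[(1,2),(4,0),(0,0),(3,1),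
  (0,0),(4,0),(30,4)]⟩,⟨1,[(31,1),(10,0),(9,0)]⟩⟩,.e ⟨false,1,⟨0,[(48,0),(3,0)]⟩,⟨8,[(7,0),(8,0),(7,
  1),(20,2),(3,0)]⟩⟩ ⟨false,1,⟨21,[(7,3),(16,3),(2,1),(7,3),(6,0),(8,12),(0,3)]⟩,⟨0,[]⟩⟩,.a ⟨true,0,
  ⟨0,[(1,0),(9,0),(25,0),(10,0),(2,0)]⟩,⟨0,[(31,0)]⟩⟩ ⟨false,1,⟨21,[(7,3),(16,3),(2,1),(7,3),(6,0),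
  (8,1),(0,14)]⟩,⟨0,[]⟩⟩ ⟨true,0,⟨0,[(54,0)]⟩,⟨0,[]⟩⟩,.o ⟨false,0,⟨2,[(1,2),(4,0),(0,0),(3,1),(0,0),
  (4,0),(30,1)]⟩,⟨1,[(31,1),(10,0),(8,0)]⟩⟩]⟩)) (.Q [1,-1,0,0,0,0,0,0,1,0,0,1] (.p true [0,0,0,0,1]
  [] (⟨0,[(32,0)]⟩,⟨0,[(31,0)]⟩) .k 0 (⟨0,[]⟩,⟨0,[]⟩) .k .k) (.Q [0,0,0,0,0,-1,0,0,0,1,0,-1] (.ed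
  true [0,1,0,0,1] .k) (.I [2,-1,1] (.Q [0,0,0,0,0,0,0,0,1,-1,0,1] (.p true [0,0,0,0,1] [1] (⟨0,
  [(35,0)]⟩,⟨0,[(34,0)]⟩) .k 1 (⟨0,[]⟩,⟨0,[]⟩) .k .k) (.S ⟨1,0,[-1,1],[1,0,0,0,-1],[1,1,1],(⟨0,[(35,
  0)]⟩,⟨0,[(36,0)]⟩),⟨0,[(2,0)]⟩,.k,(.r (-1) ⟨8,[(10,0),(16,1),(0,3),(25,0),(0,2)]⟩ ⟨10,[(10,1),(4,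
  0),(3,1),(10,0),(7,2),(2,1),(8,2)]⟩),⟨false,0,⟨1,[(40,0),(0,0)]⟩,⟨0,[(51,0),(3,0)]⟩⟩,⟨true,0,⟨8,
  [(10,0),(8,0),(7,1),(20,2),(3,0)]⟩,⟨0,[]⟩⟩,⟨true,(-1),⟨6,[(10,0),(3,3),(6,1),(18,1),(7,0),(2,2)]⟩,
  ⟨8,[(10,0),(16,1),(0,3),(25,0),(0,2)]⟩⟩,⟨false,0,⟨0,[(53,0)]⟩,⟨79,[(9,13),(0,11),(6,27),(9,23),(0,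
  5),(16,6),(9,54)]⟩⟩,[.a ⟨true,0,⟨0,[(5,0)]⟩,⟨0,[(3,0)]⟩⟩ ⟨false,0,⟨8,[(10,0),(8,0),(7,1),(20,2),
  (3,0)]⟩,⟨1,[(54,0),(0,0)]⟩⟩ ⟨true,0,⟨0,[(57,0)]⟩,⟨0,[(1,0)]⟩⟩,.e ⟨false,0,⟨0,[]⟩,⟨21,[(10,3),(16,
  3),(2,1),(7,3),(6,0),(8,12),(0,3)]⟩⟩ ⟨false,1,⟨21,[(10,3),(16,3),(2,1),(7,3),(6,0),(8,12),(0,3)]⟩,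
  ⟨0,[]⟩⟩,.o ⟨false,1,⟨0,[(33,0)]⟩,⟨0,[(0,0)]⟩⟩,.e ⟨false,0,⟨0,[]⟩,⟨21,[(10,3),(16,3),(2,1),(7,3),
  (6,0),(8,1),(0,14)]⟩⟩ ⟨false,1,⟨21,[(10,3),(16,3),(2,1),(7,3),(6,0),(8,12),(0,3)]⟩,⟨0,[(1,
  0)]⟩⟩]⟩) (.R ⟨2,true,false,false,[0,1],[0,0,0,0,1],[1,0,1],(⟨0,[]⟩,⟨0,[]⟩),(⟨0,[(36,0)]⟩,⟨0,[(35,
  0)]⟩),⟨0,[]⟩,.k,.k,.k,(.r 0 ⟨66,[(10,10),(4,11),(3,15),(10,10),(7,9),(5,0),(1,0),(8,4),(0,23)]⟩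
  ⟨8,[(10,0),(16,1),(0,3),(25,0),(0,2)]⟩),.k,.k,⟨true,0,⟨1,[(40,0),(0,0)]⟩,⟨0,[]⟩⟩,⟨false,0,⟨0,[(34,
  0)]⟩,⟨1,[(0,1),(44,0),(8,0)]⟩⟩,⟨false,1,⟨79,[(9,13),(0,11),(6,27),(9,23),(0,5),(16,6),(9,54)]⟩,⟨0,
  [(53,0)]⟩⟩,⟨true,0,⟨0,[(8,0)]⟩,⟨16,[(0,15),(4,0),(4,0),(3,1),(5,10),(28,2),(1,4),(1,0)]⟩⟩,⟨true,0,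
  ⟨0,[]⟩,⟨8,[(10,0),(8,0),(7,1),(20,2),(3,0)]⟩⟩,⟨false,0,⟨0,[(3,0)]⟩,⟨5,[(5,1),(27,3),(15,0),(5,
  0)]⟩⟩,[]⟩)) (.Q [-1,-1,0,-1,1,0,0,0,-1,1,0,-1] (.p false [0,0,0,0,1] [1] (⟨0,[(35,0)]⟩,⟨0,[(34,
  0)]⟩) .k 1 (⟨0,[]⟩,⟨0,[]⟩) .k .k) (.Q [0,0,0,0,0,0,0,0,1,-1,0,1] (.p true [0,0,0,0,1] [1] (⟨0,
  [(36,0)]⟩,⟨0,[(35,0)]⟩) .k 1 (⟨0,[]⟩,⟨0,[]⟩) .k .k) (.S ⟨1,0,[-1,1],[1,0,0,0,-1],[1,1,1],(⟨0,[(36,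
  0)]⟩,⟨0,[(37,0)]⟩),⟨0,[(3,0)]⟩,.k,(.r (-1) ⟨8,[(11,0),(16,1),(0,3),(25,0),(0,2)]⟩ ⟨10,[(11,1),(4,
  0),(3,1),(10,0),(7,2),(2,1),(8,2)]⟩),⟨false,0,⟨1,[(41,0),(0,0)]⟩,⟨0,[(2,0),(53,0)]⟩⟩,⟨true,0,⟨8,
  [(11,0),(8,0),(7,1),(20,2),(3,0)]⟩,⟨0,[]⟩⟩,⟨true,(-1),⟨6,[(11,0),(3,3),(6,1),(18,1),(7,0),(2,2)]⟩,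
  ⟨8,[(11,0),(16,1),(0,3),(25,0),(0,2)]⟩⟩,⟨false,0,⟨0,[(54,0)]⟩,⟨3,[(1,1),(7,1),(36,0),(9,0)]⟩⟩,[.e
  ⟨false,0,⟨8,[(11,0),(8,0),(7,1),(20,2),(3,0)]⟩,⟨1,[(55,0),(0,0)]⟩⟩ ⟨false,0,⟨0,[(2,0)]⟩,⟨21,[(11,
  3),(16,3),(2,1),(7,3),(6,0),(8,1),(0,14)]⟩⟩,.e ⟨false,0,⟨0,[]⟩,⟨21,[(11,3),(16,3),(2,1),(7,3),(6,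
  0),(8,12),(0,3)]⟩⟩ ⟨false,1,⟨21,[(11,3),(16,3),(2,1),(7,3),(6,0),(8,12),(0,3)]⟩,⟨0,[]⟩⟩,.o ⟨false,
  1,⟨0,[(34,0)]⟩,⟨0,[(0,0)]⟩⟩,.a ⟨true,0,⟨4,[(1,1),(4,1),(8,0),(1,0),(16,0),(6,0)]⟩,⟨0,[(4,0),(47,
  0)]⟩⟩ ⟨false,0,⟨0,[]⟩,⟨21,[(11,3),(16,3),(2,1),(7,3),(6,0),(8,1),(0,14)]⟩⟩ ⟨true,0,⟨0,[(2,0)]⟩,⟨1,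
  [(41,0),(0,0)]⟩⟩]⟩) (.R ⟨2,true,false,false,[0,1],[0,0,0,0,1],[1,0,1],(⟨0,[]⟩,⟨0,[]⟩),(⟨0,[(37,
  0)]⟩,⟨0,[(36,0)]⟩),⟨0,[]⟩,.k,.k,.k,(.r 0 ⟨66,[(11,10),(4,11),(3,15),(10,10),(7,9),(5,0),(1,0),(8,
  4),(0,23)]⟩ ⟨8,[(11,0),(16,1),(0,3),(25,0),(0,2)]⟩),.k,.k,⟨true,0,⟨1,[(41,0),(0,0)]⟩,⟨0,[]⟩⟩,
  ⟨false,0,⟨0,[(35,0)]⟩,⟨1,[(0,1),(45,0),(8,0)]⟩⟩,⟨false,1,⟨3,[(1,1),(7,1),(36,0),(9,0)]⟩,⟨0,[(54,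
  0)]⟩⟩,⟨true,0,⟨0,[(9,0)]⟩,⟨21,[(0,20),(1,4),(3,0),(4,0),(3,1),(5,15),(28,2),(3,0)]⟩⟩,⟨true,0,⟨0,
  []⟩,⟨8,[(11,0),(8,0),(7,1),(20,2),(3,0)]⟩⟩,⟨false,0,⟨0,[(4,0)]⟩,⟨5,[(6,1),(27,3),(15,0),(5,0)]⟩⟩,
  []⟩)) (.Q [0,0,1,0,0,0,0,0,-1,1,0,-1] (.p false [0,0,0,0,1] [1] (⟨0,[(36,0)]⟩,⟨0,[(35,0)]⟩) .k 1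
  (⟨0,[]⟩,⟨0,[]⟩) .k .k) (.S ⟨1,0,[-1,1],[1,0,0,0,-1],[1,1,1],(⟨0,[(36,0)]⟩,⟨0,[(37,0)]⟩),⟨0,[(3,
  0)]⟩,.k,(.r (-1) ⟨8,[(11,0),(16,1),(0,3),(25,0),(0,2)]⟩ ⟨10,[(11,1),(4,0),(3,1),(10,0),(7,2),(2,
  1),(8,2)]⟩),⟨false,0,⟨1,[(41,0),(0,0)]⟩,⟨0,[(2,0),(53,0)]⟩⟩,⟨true,0,⟨8,[(11,0),(8,0),(7,1),(20,2),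
  (3,0)]⟩,⟨0,[]⟩⟩,⟨true,(-1),⟨4,[(1,1),(4,1),(8,0),(1,0),(3,0),(19,0)]⟩,⟨8,[(11,0),(16,1),(0,3),(25,
  0),(0,2)]⟩⟩,⟨false,0,⟨0,[(54,0)]⟩,⟨79,[(10,13),(0,11),(6,27),(9,23),(0,5),(16,6),(9,54)]⟩⟩,[.e
  ⟨false,0,⟨8,[(11,0),(8,0),(7,1),(20,2),(3,0)]⟩,⟨1,[(55,0),(0,0)]⟩⟩ ⟨false,0,⟨0,[(2,0)]⟩,⟨21,[(11,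
  3),(16,3),(2,1),(7,3),(6,0),(8,1),(0,14)]⟩⟩,.e ⟨false,0,⟨0,[]⟩,⟨21,[(11,3),(16,3),(2,1),(7,3),(6,
  0),(8,12),(0,3)]⟩⟩ ⟨false,1,⟨21,[(11,3),(16,3),(2,1),(7,3),(6,0),(8,12),(0,3)]⟩,⟨0,[]⟩⟩,.o ⟨false,
  1,⟨0,[(34,0)]⟩,⟨2,[(1,0),(2,0),(4,0),(40,0)]⟩⟩,.a ⟨true,0,⟨0,[(0,0)]⟩,⟨0,[(4,0),(47,0)]⟩⟩ ⟨false,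
  0,⟨0,[]⟩,⟨21,[(11,3),(16,3),(2,1),(7,3),(6,0),(8,1),(0,14)]⟩⟩ ⟨true,0,⟨0,[(2,0)]⟩,⟨1,[(41,0),(0,
  0)]⟩⟩]⟩) (.S ⟨1,4,[],[1,0,0,0,-1],[0,0,0,-1],(⟨0,[(36,0)]⟩,⟨0,[(37,0)]⟩),⟨0,[(3,0)]⟩,.k,(.r (-1)
  ⟨8,[(11,0),(16,1),(0,3),(25,0),(0,2)]⟩ ⟨10,[(11,1),(4,0),(3,1),(10,0),(7,2),(2,1),(8,2)]⟩),⟨false,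
  1,⟨79,[(10,13),(0,11),(6,27),(9,23),(0,5),(16,6),(9,54)]⟩,⟨0,[(54,0)]⟩⟩,⟨true,(-1),⟨5,[(1,1),(2,
  0),(0,2),(12,4),(0,0),(3,0),(17,1)]⟩,⟨5,[(6,1),(27,3),(15,0),(5,0)]⟩⟩,⟨true,0,⟨0,[]⟩,⟨8,[(11,0),
  (8,0),(7,1),(20,2),(3,0)]⟩⟩,⟨false,(-1),⟨0,[(0,0),(14,0),(2,0),(22,0),(13,0)]⟩,⟨79,[(10,13),(0,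
  11),(6,27),(9,23),(0,5),(4,79),(11,6),(9,54)]⟩⟩,[.o ⟨false,0,⟨8,[(11,0),(8,0),(7,1),(20,2),(3,
  0)]⟩,⟨1,[(46,0),(9,0)]⟩⟩,.fa ⟨true,1,⟨79,[(10,13),(0,11),(6,27),(9,23),(0,5),(16,6),(9,54)]⟩,⟨4,
  [(1,1),(4,1),(8,0),(1,0),(3,0),(19,0)]⟩⟩ ⟨false,0,⟨0,[(4,0),(47,0)]⟩,⟨0,[(34,0)]⟩⟩,.o ⟨false,1,⟨0,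
  [(34,0)]⟩,⟨2,[(1,0),(2,0),(4,0),(40,0)]⟩⟩,.o ⟨false,1,⟨1,[(34,1),(6,0),(0,0)]⟩,⟨0,[(0,0)]⟩⟩]⟩))))
  (.Q [0,0,1,0,-1,0,0,0,1,0,0,1] (.p true [0,0,0,0,1] [] (⟨0,[(34,0)]⟩,⟨0,[(33,0)]⟩) .k 0 (⟨0,[]⟩,
  ⟨0,[]⟩) .k .k) (.S ⟨1,0,[1],[0,0,0,0,1],[1,0,1],(⟨0,[(35,0)]⟩,⟨0,[(34,0)]⟩),⟨1,[(1,0),(4,0),(23,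
  0),(4,0)]⟩,.k,(.r (-1) ⟨8,[(9,0),(16,1),(0,3),(25,0),(0,2)]⟩ ⟨66,[(9,10),(4,11),(3,15),(10,10),(7,
  9),(5,0),(1,0),(8,4),(0,23)]⟩),⟨true,0,⟨1,[(39,0),(0,0)]⟩,⟨0,[(50,0)]⟩⟩,⟨false,1,⟨21,[(9,3),(16,
  3),(2,1),(7,3),(6,0),(8,1),(0,14)]⟩,⟨0,[]⟩⟩,⟨false,0,⟨1,[(18,0),(35,0)]⟩,⟨8,[(9,0),(16,1),(0,3),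
  (25,0),(0,2)]⟩⟩,⟨true,0,⟨0,[(52,0)]⟩,⟨0,[(51,0)]⟩⟩,[.o ⟨false,0,⟨1,[(0,0),(1,0),(41,0),(5,0)]⟩,⟨5,
  [(4,1),(27,3),(15,0),(5,0)]⟩⟩,.e ⟨false,1,⟨21,[(9,3),(16,3),(2,1),(7,3),(6,0),(8,1),(0,14)]⟩,⟨0,
  [(50,0)]⟩⟩ ⟨false,1,⟨1,[(53,0),(0,0)]⟩,⟨8,[(9,0),(8,0),(7,1),(20,2),(3,0)]⟩⟩,.o ⟨false,0,⟨1,[(0,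
  0),(1,0),(41,0),(5,0)]⟩,⟨0,[(32,0)]⟩⟩,.a ⟨true,(-1),⟨0,[(0,0)]⟩,⟨1,[(4,1),(48,0),(0,0)]⟩⟩ ⟨true,0,
  ⟨0,[]⟩,⟨8,[(9,0),(8,0),(7,1),(20,2),(3,0)]⟩⟩ ⟨false,1,⟨1,[(53,0),(0,0)]⟩,⟨1,[(39,0),(0,0)]⟩⟩]⟩)
  (.R ⟨2,true,false,false,[0,1],[0,0,0,0,1],[1,0,1],(⟨0,[]⟩,⟨0,[]⟩),(⟨0,[(35,0)]⟩,⟨0,[(34,0)]⟩),⟨0,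
  []⟩,.k,.k,.k,(.r 0 ⟨66,[(9,10),(4,11),(3,15),(10,10),(7,9),(5,0),(1,0),(8,4),(0,23)]⟩ ⟨8,[(9,0),
  (16,1),(0,3),(25,0),(0,2)]⟩),.k,.k,⟨true,0,⟨1,[(39,0),(0,0)]⟩,⟨0,[]⟩⟩,⟨false,0,⟨0,[(33,0)]⟩,⟨0,
  [(0,0)]⟩⟩,⟨false,1,⟨79,[(8,13),(0,11),(6,27),(9,23),(0,5),(16,6),(9,54)]⟩,⟨0,[(52,0)]⟩⟩,⟨true,0,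
  ⟨0,[(7,0)]⟩,⟨17,[(0,14),(3,2),(3,1),(0,4),(3,9),(5,0),(0,3),(29,9)]⟩⟩,⟨true,0,⟨0,[]⟩,⟨8,[(9,0),(8,
  0),(7,1),(20,2),(3,0)]⟩⟩,⟨false,0,⟨0,[(2,0)]⟩,⟨5,[(4,1),(27,3),(15,0),(5,0)]⟩⟩,[]⟩))) (.Q [-1,0,0,
  0,0,0,0,0,-1,1,0,-1] (.p false [0,0,0,0,1] [1] (⟨0,[(33,0)]⟩,⟨0,[(32,0)]⟩) .k 1 (⟨0,[]⟩,⟨0,[]⟩)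
  .k .k) (.R ⟨2,true,false,true,[0,1],[1,0,0,0,-1],[0,0,1,1],(⟨0,[]⟩,⟨0,[]⟩),(⟨0,[(33,0)]⟩,⟨0,[(34,
  0)]⟩),⟨0,[]⟩,.k,.k,.k,(.r 0 ⟨10,[(8,1),(4,0),(3,1),(10,0),(7,2),(2,1),(8,2)]⟩ ⟨8,[(8,0),(16,1),(0,
  3),(25,0),(0,2)]⟩),.k,.k,⟨true,0,⟨0,[(48,0)]⟩,⟨0,[(50,0)]⟩⟩,⟨false,0,⟨0,[(0,0)]⟩,⟨1,[(32,1),(10,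
  0),(8,0)]⟩⟩,⟨false,1,⟨21,[(8,3),(16,3),(2,1),(7,3),(6,0),(8,1),(0,14)]⟩,⟨0,[]⟩⟩,⟨true,0,⟨3,[(1,0),
  (1,2),(3,0),(7,1)]⟩,⟨1,[(2,1),(12,1),(27,0),(9,0)]⟩⟩,⟨true,0,⟨0,[(51,0)]⟩,⟨0,[(50,0)]⟩⟩,⟨false,0,
  ⟨0,[(0,0)]⟩,⟨1,[(32,1),(10,0),(9,0)]⟩⟩,[]⟩) (.R ⟨1,false,false,true,[0,0,1],[1,0,0,0,-1],[1,1,0,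
  -1,0,0,0,1],(⟨0,[(41,0)]⟩,⟨0,[(40,0)]⟩),(⟨0,[(33,0)]⟩,⟨0,[(34,0)]⟩),⟨0,[(30,0)]⟩,.k,.k,.k,.k,(.r
  0 ⟨13,[(7,0),(4,1),(3,7),(5,1),(5,0),(24,3)]⟩ ⟨13,[(8,10),(4,1),(11,0),(2,1),(7,4),(2,2),(13,
  2)]⟩),.k,⟨false,0,⟨13,[(7,0),(4,1),(3,7),(5,1),(5,0),(24,3)]⟩,⟨16,[(8,10),(4,2),(14,1),(6,0),(0,
  1),(15,4),(0,0)]⟩⟩,⟨true,0,⟨8,[(1,7),(1,0),(8,1),(2,2),(4,0),(7,0),(6,3),(17,4)]⟩,⟨3,[(0,3),(6,0),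
  (0,0),(3,0),(2,0),(22,2),(10,1),(3,0)]⟩⟩,⟨true,0,⟨0,[(50,0)]⟩,⟨0,[(51,0)]⟩⟩,⟨true,0,⟨3,[(1,3),(6,
  0),(3,0),(2,2),(19,0),(16,0)]⟩,⟨4,[(0,1),(8,1),(3,0),(18,2)]⟩⟩,⟨false,0,⟨0,[]⟩,⟨21,[(8,3),(16,3),
  (2,1),(7,3),(6,0),(8,1),(0,14)]⟩⟩,⟨true,0,⟨1,[(1,1),(6,0),(3,0),(2,0),(19,0),(16,0)]⟩,⟨1,[(0,0),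
  (5,0),(2,0)]⟩⟩,[.o ⟨false,0,⟨0,[(1,0)]⟩,⟨1,[(32,1),(10,0),(9,0)]⟩⟩,.o ⟨false,1,⟨5,[(3,1),(27,3),
  (15,0),(5,0)]⟩,⟨0,[(0,0)]⟩⟩,.o ⟨false,1,⟨3,[(8,1),(0,1),(33,0),(8,0)]⟩,⟨0,[(27,0)]⟩⟩,.a ⟨true,0,
  ⟨0,[(38,0)]⟩,⟨0,[(35,0)]⟩⟩ ⟨false,0,⟨13,[(7,0),(4,1),(3,7),(5,1),(5,0),(24,3)]⟩,⟨21,[(8,12),(4,0),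
  (14,0),(7,2),(2,1),(8,6),(4,8)]⟩⟩ ⟨true,0,⟨0,[(1,0),(33,0)]⟩,⟨0,[(0,0),(37,0)]⟩⟩]⟩))))))))) (.I
  [0,0,2,2,-2,0,0,1] (.R ⟨1,true,false,true,[1,0,-1],[0,1],[0,0,0,0,0,0,0,-1],(⟨0,[(33,0)]⟩,⟨0,[(34,
  0)]⟩),(⟨0,[(38,0)]⟩,⟨0,[(37,0)]⟩),⟨0,[(22,0)]⟩,.k,.k,.k,.k,(.r (-3) ⟨1,[(19,1),(4,0),(0,0),(4,1),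
  (0,1),(13,0),(0,1)]⟩ ⟨0,[(0,0)]⟩),.k,⟨true,2,⟨1,[(8,1),(22,1),(4,0),(8,1),(0,0)]⟩,⟨0,[(5,0),(37,
  0)]⟩⟩,⟨false,2,⟨1,[(31,1),(4,0),(8,2)]⟩,⟨10,[(1,1),(2,0),(0,0),(1,4),(13,1),(6,0),(4,0),(3,1)]⟩⟩,
  ⟨false,1,⟨1,[(24,0),(0,0),(20,0)]⟩,⟨0,[]⟩⟩,⟨true,0,⟨6,[(2,0),(3,1),(4,3),(17,2)]⟩,⟨0,[(8,0)]⟩⟩,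
  ⟨true,0,⟨0,[(44,0)]⟩,⟨0,[(43,0)]⟩⟩,⟨false,0,⟨0,[(6,0)]⟩,⟨0,[(8,0),(34,0),(2,0)]⟩⟩,[]⟩) (.Q [-1,0,
  0,1,0,0,0,0,-1,0,0,-1] (.p false [0,0,0,0,1] [] (⟨0,[(27,0)]⟩,⟨0,[(26,0)]⟩) .k 0 (⟨0,[]⟩,⟨0,[]⟩)
  .k .k) (.R ⟨2,true,false,false,[0,1],[0,0,0,0,1],[2],(⟨0,[]⟩,⟨0,[]⟩),(⟨0,[(28,0)]⟩,⟨0,[(27,0)]⟩),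
  ⟨0,[]⟩,.k,.k,.k,(.r 0 ⟨3,[(11,0),(13,0),(0,0),(15,1),(6,1)]⟩ ⟨5,[(1,1),(17,1),(26,0),(0,0)]⟩),.k,
  .k,⟨true,0,⟨0,[]⟩,⟨1,[(32,0),(0,0)]⟩⟩,⟨false,0,⟨0,[(26,0)]⟩,⟨8,[(0,4),(0,1),(0,0),(22,3),(20,
  1)]⟩⟩,⟨true,1,⟨5,[(1,1),(17,1),(26,0),(0,0)]⟩,⟨14,[(6,4),(1,4),(2,0),(0,2),(19,4),(8,0),(1,11)]⟩⟩,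
  ⟨false,1,⟨8,[(1,2),(1,1),(4,1),(10,0),(6,8),(6,1),(13,4)]⟩,⟨0,[(0,0)]⟩⟩,⟨false,1,⟨1,[(46,0),(0,
  0)]⟩,⟨0,[(48,0)]⟩⟩,⟨true,0,⟨0,[(26,0)]⟩,⟨0,[(0,0),(43,0)]⟩⟩,[]⟩) (.Q [1,-1,0,-1,0,0,0,0,1,0,0,1]
  (.p true [0,0,0,0,1] [] (⟨0,[(28,0)]⟩,⟨0,[(27,0)]⟩) .k 0 (⟨0,[]⟩,⟨0,[]⟩) .k .k) (.Q [0,0,0,0,0,1,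
  0,0,0,0,0,-1] (.ed true [1,-1,0,0,1] .k) (.Q [0,0,1,-1,-1,0,0,0,1,0,0,1] (.p true [0,0,0,0,1] []
  (⟨0,[(30,0)]⟩,⟨0,[(29,0)]⟩) .k 0 (⟨0,[]⟩,⟨0,[]⟩) .k .k) (.R ⟨0,false,false,true,[0,0,0,0,1],[0,1],
  [0,1],(⟨0,[(31,0)]⟩,⟨0,[(30,0)]⟩),(⟨0,[(42,0)]⟩,⟨0,[(41,0)]⟩),⟨0,[(1,0)]⟩,.k,.k,(.r (-1) ⟨5,[(4,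
  1),(17,1),(26,0),(0,0)]⟩ ⟨3,[(14,0),(13,0),(0,0),(15,1),(6,1)]⟩),(.r (-1) ⟨5,[(4,1),(17,1),(26,0),
  (0,0)]⟩ ⟨3,[(14,0),(13,0),(0,0),(15,1),(6,1)]⟩),.k,.k,⟨true,1,⟨5,[(4,1),(17,1),(26,0),(0,0)]⟩,⟨5,
  [(9,1),(1,1),(2,0),(20,1),(4,0)]⟩⟩,⟨false,2,⟨0,[(28,0),(20,0)]⟩,⟨0,[(0,0),(47,0)]⟩⟩,⟨true,0,⟨0,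
  [(52,0)]⟩,⟨0,[]⟩⟩,⟨false,1,⟨0,[(28,0),(19,0)]⟩,⟨0,[(2,0)]⟩⟩,⟨false,0,⟨0,[]⟩,⟨0,[]⟩⟩,⟨false,0,⟨0,
  []⟩,⟨0,[]⟩⟩,[.o ⟨false,0,⟨0,[(15,0)]⟩,⟨8,[(4,2),(1,1),(4,1),(10,0),(13,1),(13,4)]⟩⟩,.a ⟨true,0,⟨0,
  [(48,0)]⟩,⟨2,[(6,0),(5,1),(19,1),(2,1)]⟩⟩ ⟨false,1,⟨1,[(28,0),(0,0),(19,0)]⟩,⟨0,[]⟩⟩ ⟨true,1,⟨0,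
  [(28,0),(19,0)]⟩,⟨0,[(0,0)]⟩⟩,.o ⟨false,0,⟨7,[(0,1),(1,5),(12,5),(28,0),(3,1),(0,0)]⟩,⟨0,[(28,
  0)]⟩⟩,.e ⟨true,0,⟨0,[(46,0)]⟩,⟨1,[(35,0),(0,0)]⟩⟩ ⟨true,1,⟨0,[(28,0),(17,0),(1,0)]⟩,⟨0,[(0,
  0)]⟩⟩]⟩) (.R ⟨0,false,false,true,[0,0,0,0,1],[0,1],[0,1],(⟨0,[(31,0)]⟩,⟨0,[(30,0)]⟩),(⟨0,[(42,
  0)]⟩,⟨0,[(41,0)]⟩),⟨0,[(1,0)]⟩,.k,.k,(.r (-1) ⟨5,[(4,1),(17,1),(26,0),(0,0)]⟩ ⟨7,[(0,1),(13,2),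
  (13,0),(0,2),(21,3)]⟩),(.r (-1) ⟨5,[(4,1),(17,1),(26,0),(0,0)]⟩ ⟨7,[(0,1),(13,2),(13,0),(0,2),(21,
  3)]⟩),.k,.k,⟨true,1,⟨5,[(4,1),(17,1),(26,0),(0,0)]⟩,⟨5,[(9,1),(1,1),(2,0),(20,1),(4,0)]⟩⟩,⟨false,
  2,⟨5,[(0,5),(3,1),(17,1),(26,0),(0,0)]⟩,⟨14,[(2,14),(6,4),(1,4),(2,0),(0,2),(19,4),(8,0),(1,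
  11)]⟩⟩,⟨true,0,⟨0,[(52,0)]⟩,⟨0,[]⟩⟩,⟨false,1,⟨7,[(0,5),(13,0),(13,2),(0,0),(21,3)]⟩,⟨0,[(2,0)]⟩⟩,
  ⟨false,0,⟨0,[]⟩,⟨0,[]⟩⟩,⟨false,0,⟨0,[]⟩,⟨0,[]⟩⟩,[.o ⟨false,0,⟨0,[(15,0)]⟩,⟨8,[(4,2),(1,1),(4,1),
  (10,0),(13,1),(13,4)]⟩⟩,.e ⟨false,1,⟨13,[(0,3),(3,3),(5,1),(14,1),(3,3),(3,1),(15,0),(0,0)]⟩,⟨0,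
  []⟩⟩ ⟨false,1,⟨0,[(0,0)]⟩,⟨1,[(2,0),(0,0),(48,0)]⟩⟩,.o ⟨false,0,⟨4,[(2,4),(11,0),(0,2),(28,0),(1,
  1)]⟩,⟨0,[(28,0)]⟩⟩,.a ⟨true,(-1),⟨14,[(2,14),(6,4),(1,4),(2,0),(0,2),(19,4),(8,0),(1,11)]⟩,⟨2,[(0,
  2),(5,0),(5,1),(19,1),(2,1)]⟩⟩ ⟨true,0,⟨0,[(46,0)]⟩,⟨1,[(35,0),(0,0)]⟩⟩ ⟨false,1,⟨0,[(0,0)]⟩,⟨3,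
  [(2,3),(32,0),(0,0),(14,1)]⟩⟩]⟩)) (.Q [0,0,1,-1,0,0,0,0,-1,1,0,-1] (.p false [0,0,0,0,1] [1] (⟨0,
  [(30,0)]⟩,⟨0,[(29,0)]⟩) .k 1 (⟨0,[]⟩,⟨0,[]⟩) .k .k) (.S ⟨1,0,[1],[0,0,0,0,1],[1,0,1],(⟨0,[(31,
  0)]⟩,⟨0,[(30,0)]⟩),⟨0,[(1,0)]⟩,.k,(.r (-1) ⟨5,[(4,1),(17,1),(26,0),(0,0)]⟩ ⟨3,[(14,0),(13,0),(0,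
  0),(15,1),(6,1)]⟩),⟨true,0,⟨1,[(35,0),(0,0)]⟩,⟨0,[(46,0)]⟩⟩,⟨false,1,⟨1,[(28,0),(0,0),(20,0)]⟩,⟨0,
  []⟩⟩,⟨false,0,⟨1,[(14,0),(35,0)]⟩,⟨5,[(4,1),(17,1),(26,0),(0,0)]⟩⟩,⟨true,0,⟨0,[(48,0)]⟩,⟨0,[(47,
  0)]⟩⟩,[.o ⟨false,0,⟨0,[(2,0),(12,0)]⟩,⟨5,[(0,1),(27,3),(15,0),(3,1),(0,0)]⟩⟩,.e ⟨false,1,⟨1,[(28,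
  0),(0,0),(20,0)]⟩,⟨0,[(46,0)]⟩⟩ ⟨false,1,⟨1,[(49,0),(0,0)]⟩,⟨0,[(52,0)]⟩⟩,.o ⟨false,0,⟨4,[(2,4),
  (11,0),(0,2),(28,0),(1,1)]⟩,⟨0,[(28,0)]⟩⟩,.a ⟨true,(-1),⟨14,[(2,14),(6,4),(1,4),(2,0),(0,2),(19,
  4),(8,0),(1,11)]⟩,⟨0,[(0,0),(47,0),(0,0)]⟩⟩ ⟨true,0,⟨0,[]⟩,⟨0,[(52,0)]⟩⟩ ⟨false,1,⟨1,[(49,0),(0,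
  0)]⟩,⟨1,[(35,0),(0,0)]⟩⟩]⟩) (.R ⟨1,false,false,true,[0,0,0,0,1],[0,1],[0,1],(⟨0,[(31,0)]⟩,⟨0,[(30,
  0)]⟩),(⟨0,[(42,0)]⟩,⟨0,[(41,0)]⟩),⟨0,[(1,0)]⟩,.k,.k,(.r (-1) ⟨5,[(4,1),(17,1),(26,0),(0,0)]⟩ ⟨3,
  [(14,0),(13,0),(0,0),(15,1),(6,1)]⟩),(.r (-1) ⟨5,[(4,1),(17,1),(26,0),(0,0)]⟩ ⟨3,[(14,0),(13,0),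
  (0,0),(15,1),(6,1)]⟩),(.r (-2) ⟨2,[(4,1),(17,1),(26,0),(0,0)]⟩ ⟨8,[(9,1),(1,1),(2,3),(20,1),(8,0),
  (3,5)]⟩),.k,⟨true,1,⟨5,[(4,1),(17,1),(26,0),(0,0)]⟩,⟨5,[(9,1),(1,1),(2,0),(20,1),(4,0)]⟩⟩,⟨false,
  2,⟨0,[(28,0),(20,0)]⟩,⟨4,[(0,1),(1,2),(6,0),(1,1),(5,0),(17,1),(10,0),(5,0)]⟩⟩,⟨true,0,⟨0,[(52,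
  0)]⟩,⟨0,[]⟩⟩,⟨false,1,⟨0,[(28,0),(19,0)]⟩,⟨0,[(2,0)]⟩⟩,⟨false,0,⟨1,[(9,1),(2,1),(22,1),(8,0),(1,
  5),(3,2)]⟩,⟨8,[(4,2),(1,1),(4,1),(10,0),(13,1),(13,4)]⟩⟩,⟨false,1,⟨0,[(28,0),(19,1)]⟩,⟨1,[(0,1),
  (4,1),(6,3),(22,3),(4,0),(9,0)]⟩⟩,[.o ⟨false,0,⟨0,[(15,0)]⟩,⟨8,[(4,2),(1,1),(4,1),(10,0),(13,1),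
  (13,4)]⟩⟩,.a ⟨true,0,⟨0,[(48,0)]⟩,⟨2,[(6,0),(5,1),(19,1),(2,1)]⟩⟩ ⟨false,1,⟨1,[(28,0),(0,0),(19,
  0)]⟩,⟨0,[]⟩⟩ ⟨true,1,⟨0,[(28,0),(19,0)]⟩,⟨7,[(0,4),(1,2),(2,3),(5,3),(0,2),(3,1),(0,0),(17,8),(8,
  0)]⟩⟩,.o ⟨false,0,⟨65,[(0,32),(1,5),(0,26),(5,2),(1,8),(5,5),(17,8),(4,9),(3,10)]⟩,⟨0,[(28,0)]⟩⟩,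
  .e ⟨true,0,⟨0,[(46,0)]⟩,⟨1,[(35,0),(0,0)]⟩⟩ ⟨true,1,⟨0,[(28,0),(17,0),(1,0)]⟩,⟨7,[(0,4),(1,2),(2,
  3),(5,3),(0,2),(3,1),(0,0),(17,8),(8,0)]⟩⟩]⟩))) (.Q [-1,-1,0,0,1,0,0,0,-1,0,0,-1] (.p false [0,0,
  0,0,1] [] (⟨0,[(29,0)]⟩,⟨0,[(28,0)]⟩) .k 0 (⟨0,[]⟩,⟨0,[]⟩) .k .k) (.Q [-1,0,0,2,0,0,0,0,-1,0,0,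
  -1] (.p false [0,0,0,0,1] [] (⟨0,[(30,0)]⟩,⟨0,[(29,0)]⟩) .k 0 (⟨0,[]⟩,⟨0,[]⟩) .k .k) (.R ⟨1,true,
  false,true,[1,-1],[1,0,0,0,-1],[0,0,-1,-1],(⟨0,[(41,0)]⟩,⟨0,[(42,0)]⟩),(⟨0,[(30,0)]⟩,⟨0,[(31,
  0)]⟩),⟨0,[(26,0),(0,0)]⟩,.k,.k,(.r (-2) ⟨2,[(4,1),(17,1),(26,0),(0,0)]⟩ ⟨0,[(9,1),(2,1),(22,1),(8,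
  0),(1,3),(3,1)]⟩),(.r (-1) ⟨5,[(4,1),(17,1),(26,0),(0,0)]⟩ ⟨3,[(14,0),(13,0),(0,0),(15,1),(6,
  1)]⟩),(.r (-2) ⟨2,[(4,1),(17,1),(26,0),(0,0)]⟩ ⟨8,[(9,1),(1,1),(2,3),(20,1),(8,0),(3,5)]⟩),.k,
  ⟨false,2,⟨2,[(4,0),(17,0),(26,1),(0,1)]⟩,⟨2,[(9,0),(1,0),(3,0),(19,0),(10,1)]⟩⟩,⟨true,1,⟨1,[(0,0),
  (0,0),(21,0)]⟩,⟨13,[(3,11),(5,5),(1,5),(17,1),(5,5),(8,2),(1,1),(3,0)]⟩⟩,⟨false,1,⟨1,[(28,0),(0,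
  0),(20,0)]⟩,⟨0,[]⟩⟩,⟨true,0,⟨0,[(2,0)]⟩,⟨0,[(3,0)]⟩⟩,⟨true,0,⟨0,[(48,0)]⟩,⟨0,[(47,0)]⟩⟩,⟨false,0,
  ⟨0,[(0,0)]⟩,⟨8,[(3,8),(0,2),(1,1),(4,1),(10,0),(13,1),(13,4)]⟩⟩,[]⟩) (.Q [-1,0,0,0,0,0,0,0,-1,1,0,
  -1] (.p false [0,0,0,0,1] [1] (⟨0,[(31,0)]⟩,⟨0,[(30,0)]⟩) .k 1 (⟨0,[]⟩,⟨0,[]⟩) .k .k) (.Q [0,0,0,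
  0,0,-1,0,0,0,0,0,1] (.ed false [1,-1,0,0,1] .k) (.S ⟨1,0,[1,1],[0,0,0,0,1],[],(⟨0,[(33,0)]⟩,⟨0,
  [(32,0)]⟩),⟨0,[(0,0)]⟩,.k,(.r (-1) ⟨5,[(6,1),(17,1),(26,0),(0,0)]⟩ ⟨3,[(16,0),(13,0),(0,0),(15,1),
  (6,1)]⟩),⟨false,1,⟨4,[(30,1),(0,1),(20,2),(1,0)]⟩,⟨0,[]⟩⟩,⟨true,0,⟨0,[(54,0)]⟩,⟨0,[]⟩⟩,⟨true,0,⟨1,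
  [(11,1),(2,1),(22,1),(8,0),(1,5),(3,2)]⟩,⟨0,[(49,0)]⟩⟩,⟨false,0,⟨0,[(50,0)]⟩,⟨1,[(2,0),(27,0),(21,
  0)]⟩⟩,[.o ⟨false,0,⟨0,[(5,0),(11,0)]⟩,⟨0,[(3,0)]⟩⟩,.a ⟨true,0,⟨0,[(31,0)]⟩,⟨0,[(1,0)]⟩⟩ ⟨false,1,
  ⟨1,[(51,0),(0,0)]⟩,⟨0,[(54,0)]⟩⟩ ⟨true,0,⟨0,[]⟩,⟨1,[(37,0),(0,0)]⟩⟩,.e ⟨false,1,⟨1,[(30,0),(0,0),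
  (20,0)]⟩,⟨0,[]⟩⟩ ⟨false,0,⟨0,[]⟩,⟨1,[(30,0),(0,0),(20,0)]⟩⟩,.o ⟨false,0,⟨5,[(2,2),(13,2),(14,2),
  (10,1),(3,0)]⟩,⟨0,[(3,0),(44,0)]⟩⟩]⟩) (.R ⟨0,false,false,false,[0,0,0,0,1],[0,1],[0,1],(⟨0,[(33,
  0)]⟩,⟨0,[(32,0)]⟩),(⟨0,[(44,0)]⟩,⟨0,[(43,0)]⟩),⟨0,[(0,0)]⟩,.k,.k,(.r (-1) ⟨5,[(6,1),(17,1),(26,0),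
  (0,0)]⟩ ⟨3,[(16,0),(13,0),(0,0),(15,1),(6,1)]⟩),(.r (-1) ⟨5,[(6,1),(17,1),(26,0),(0,0)]⟩ ⟨3,[(16,
  0),(13,0),(0,0),(15,1),(6,1)]⟩),.k,.k,⟨false,1,⟨6,[(6,0),(17,0),(0,1),(19,1),(5,2)]⟩,⟨0,[(47,
  0)]⟩⟩,⟨true,1,⟨0,[(3,0),(44,0)]⟩,⟨5,[(2,2),(8,1),(1,1),(2,0),(14,2),(5,1),(8,0)]⟩⟩,⟨true,0,⟨0,
  [(54,0)]⟩,⟨0,[]⟩⟩,⟨false,1,⟨0,[(4,0),(47,0)]⟩,⟨0,[(5,0)]⟩⟩,⟨false,0,⟨0,[]⟩,⟨0,[]⟩⟩,⟨false,0,⟨0,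
  []⟩,⟨0,[]⟩⟩,[.e ⟨false,0,⟨0,[(48,0)]⟩,⟨1,[(30,0),(0,0),(20,0)]⟩⟩ ⟨false,1,⟨1,[(4,1),(46,0),(0,
  0)]⟩,⟨31,[(2,17),(8,1),(1,1),(17,13),(5,1),(8,0),(1,9),(3,4)]⟩⟩,.o ⟨false,1,⟨0,[(17,0),(34,0)]⟩,
  ⟨0,[(49,0)]⟩⟩,.a ⟨true,0,⟨0,[(31,0)]⟩,⟨0,[(1,0)]⟩⟩ ⟨true,0,⟨0,[(54,0)]⟩,⟨0,[]⟩⟩ ⟨false,1,⟨0,[(4,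
  0),(47,0)]⟩,⟨31,[(2,17),(8,1),(1,1),(17,13),(5,1),(8,0),(1,9),(3,4)]⟩⟩,.o ⟨false,0,⟨5,[(2,2),(13,
  2),(14,2),(10,1),(3,0)]⟩,⟨0,[(3,0),(44,0)]⟩⟩]⟩)) (.R ⟨1,false,false,true,[0,0,1],[0,0,0,0,1],[0,0,
  0,0,0,0,0,1],(⟨0,[(39,0)]⟩,⟨0,[(38,0)]⟩),(⟨0,[(32,0)]⟩,⟨0,[(31,0)]⟩),⟨0,[(28,0)]⟩,.k,.k,.k,.k,(.r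
  0 ⟨35,[(6,15),(13,3),(3,9),(15,1),(1,1),(2,0),(5,4),(0,3)]⟩ ⟨1,[(5,1),(9,2),(13,0),(0,0)]⟩),.k,
  ⟨true,0,⟨1,[(6,1),(3,3),(2,5),(22,5),(8,2),(1,11),(3,6)]⟩,⟨0,[(35,0),(0,0)]⟩⟩,⟨false,0,⟨14,[(0,
  10),(5,0),(3,2),(2,4),(16,3),(2,9),(11,1),(4,4)]⟩,⟨0,[(2,0),(33,0),(10,0)]⟩⟩,⟨false,1,⟨1,[(29,0),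
  (0,0),(20,0)]⟩,⟨0,[]⟩⟩,⟨false,0,⟨0,[(0,0),(12,0),(35,0)]⟩,⟨4,[(2,4),(4,1),(3,0),(21,2),(2,2)]⟩⟩,
  ⟨true,0,⟨0,[(49,0)]⟩,⟨0,[(48,0)]⟩⟩,⟨false,0,⟨0,[(0,0),(12,0),(35,1)]⟩,⟨2,[(2,2),(4,1),(5,0),(19,
  0),(2,0)]⟩⟩,[.o ⟨false,0,⟨0,[(4,0),(11,0)]⟩,⟨0,[(2,0)]⟩⟩,.o ⟨false,0,⟨0,[(0,0)]⟩,⟨2,[(2,0),(26,1),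
  (23,0)]⟩⟩,.o ⟨false,1,⟨2,[(5,0),(5,0),(24,1),(4,0)]⟩,⟨0,[(25,0)]⟩⟩,.a ⟨true,0,⟨0,[(36,0)]⟩,⟨0,
  [(33,0)]⟩⟩ ⟨true,0,⟨0,[(20,0)]⟩,⟨0,[(35,0),(0,0)]⟩⟩ ⟨false,0,⟨0,[(0,0),(32,0)]⟩,⟨0,[(2,0),(33,
  0)]⟩⟩]⟩))) (.Q [0,0,1,0,-1,0,0,0,1,0,0,1] (.p true [0,0,0,0,1] [] (⟨0,[(30,0)]⟩,⟨0,[(29,0)]⟩) .k
  0 (⟨0,[]⟩,⟨0,[]⟩) .k .k) (.R ⟨2,true,false,false,[0,1],[0,0,0,0,1],[2,0,1],(⟨0,[]⟩,⟨0,[]⟩),(⟨0,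
  [(31,0)]⟩,⟨0,[(30,0)]⟩),⟨0,[]⟩,.k,.k,.k,(.r 0 ⟨3,[(14,0),(13,0),(0,0),(15,1),(6,1)]⟩ ⟨5,[(4,1),
  (17,1),(26,0),(0,0)]⟩),.k,.k,⟨false,0,⟨0,[]⟩,⟨1,[(28,0),(0,0),(19,0)]⟩⟩,⟨true,(-1),⟨0,[(0,0)]⟩,⟨0,
  [(28,0)]⟩⟩,⟨false,1,⟨8,[(4,2),(1,1),(4,1),(10,0),(13,1),(13,4)]⟩,⟨1,[(9,1),(2,1),(22,1),(8,0),(1,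
  5),(3,2)]⟩⟩,⟨true,0,⟨0,[(3,0)]⟩,⟨0,[(2,0)]⟩⟩,⟨true,0,⟨0,[]⟩,⟨0,[(52,0)]⟩⟩,⟨false,0,⟨1,[(0,1),(48,
  0),(0,0)]⟩,⟨45,[(2,13),(3,1),(5,3),(10,3),(4,31),(15,0),(5,8),(0,7)]⟩⟩,[]⟩) (.R ⟨2,true,false,
  false,[0,1],[0,0,0,0,1],[1,0,1],(⟨0,[]⟩,⟨0,[]⟩),(⟨0,[(31,0)]⟩,⟨0,[(30,0)]⟩),⟨0,[]⟩,.k,.k,.k,(.r 0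
  ⟨3,[(14,0),(13,0),(0,0),(15,1),(6,1)]⟩ ⟨5,[(4,1),(17,1),(26,0),(0,0)]⟩),.k,.k,⟨true,0,⟨1,[(35,0),
  (0,0)]⟩,⟨0,[]⟩⟩,⟨false,0,⟨0,[(29,0)]⟩,⟨0,[(0,0)]⟩⟩,⟨false,1,⟨8,[(4,2),(1,1),(4,1),(10,0),(13,1),
  (13,4)]⟩,⟨0,[(48,0)]⟩⟩,⟨true,0,⟨0,[(3,0)]⟩,⟨0,[(2,0)]⟩⟩,⟨true,0,⟨0,[]⟩,⟨0,[(52,0)]⟩⟩,⟨false,0,⟨0,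
  [(1,0),(48,0)]⟩,⟨1,[(0,0),(27,0),(22,0)]⟩⟩,[]⟩)))))))))))

theorem ok40 : chk K t40 l30 = true := by decide +kernel

noncomputable def t41 : Tre :=
  (.Q [0,0,-1,-1,1,0,1,0,0,0,1] (.p true [0,0,1] [] (⟨0,[(28,0)]⟩,⟨0,[(27,0)]⟩) .k 0 (⟨0,[]⟩,⟨0,
  []⟩) .k .k) (.Q [0,0,0,0,0,2,0,0,0,-1,1] (.p true [0,0,1] [1] (⟨0,[(29,0)]⟩,⟨0,[(28,0)]⟩) .k 1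
  (⟨0,[]⟩,⟨0,[]⟩) .k .k) (.R ⟨0,false,false,true,[1,-1,-1],[1,-1],[],(⟨0,[(18,0)]⟩,⟨0,[(30,0),(3,
  0)]⟩),(⟨0,[(33,0)]⟩,⟨0,[(34,0)]⟩),⟨0,[(0,0)]⟩,.k,.k,(.r (-2) ⟨1,[(1,1),(2,1),(27,0),(8,0)]⟩ ⟨1,
  [(3,1),(2,3),(2,3),(17,1),(8,0),(1,9),(3,6)]⟩),.k,.k,.k,⟨true,0,⟨1,[(6,0),(35,0)]⟩,⟨0,[(39,0)]⟩⟩,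
  ⟨false,1,⟨0,[(27,0),(13,0)]⟩,⟨0,[(16,0)]⟩⟩,⟨true,(-1),⟨3,[(6,2),(2,1),(1,1),(30,0)]⟩,⟨0,[(1,0),
  (24,0)]⟩⟩,⟨false,0,⟨0,[(11,0),(15,0)]⟩,⟨0,[(26,0),(15,0)]⟩⟩,⟨false,0,⟨0,[]⟩,⟨0,[]⟩⟩,⟨false,0,⟨0,
  []⟩,⟨0,[]⟩⟩,[.o ⟨false,0,⟨0,[(39,0)]⟩,⟨0,[(7,0),(34,0)]⟩⟩,.a ⟨true,0,⟨6,[(2,1),(2,0),(3,0),(14,4),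
  (2,6),(14,0)]⟩,⟨0,[(40,0)]⟩⟩ ⟨false,1,⟨1,[(41,0),(0,0)]⟩,⟨0,[(44,0)]⟩⟩ ⟨true,1,⟨0,[(1,0)]⟩,⟨5,[(3,
  1),(2,2),(2,1),(6,3),(15,0),(4,1)]⟩⟩,.e ⟨false,1,⟨1,[(20,0),(0,0),(20,0)]⟩,⟨0,[]⟩⟩ ⟨false,1,⟨0,
  [(1,0)]⟩,⟨0,[(16,0),(20,0)]⟩⟩,.o ⟨false,(-1),⟨2,[(3,1),(5,1),(6,0),(15,0),(4,1)]⟩,⟨1,[(1,1),(5,1),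
  (33,0),(0,0)]⟩⟩]⟩) (.I [0,0,2,0,-1,2] (.I [0,0,-2,-1,1] (.S ⟨1,0,[0,1,-1,-1],[1,-1],[1,0,1],(⟨0,
  [(35,0)]⟩,⟨0,[(36,0)]⟩),⟨1,[(2,0),(18,0),(13,0)]⟩,.k,(.x 1 ⟨0,[(1,0)]⟩ ⟨2,[(2,1),(18,1),(0,1),(0,
  1),(10,0),(8,2)]⟩),⟨false,0,⟨1,[(29,0),(0,0),(8,1)]⟩,⟨0,[(0,0)]⟩⟩,⟨true,0,⟨0,[(46,0)]⟩,⟨0,[]⟩⟩,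
  ⟨true,(-1),⟨0,[(8,0)]⟩,⟨0,[(17,0)]⟩⟩,⟨false,0,⟨0,[(42,0)]⟩,⟨7,[(3,1),(0,1),(11,1),(12,0),(0,0),(3,
  0),(9,4)]⟩⟩,[.o ⟨false,0,⟨0,[(41,0)]⟩,⟨0,[(9,0),(34,0)]⟩⟩,.e ⟨false,1,⟨1,[(22,0),(0,0),(20,0)]⟩,
  ⟨0,[(40,0)]⟩⟩ ⟨false,1,⟨0,[(0,0)]⟩,⟨1,[(8,0),(13,0),(0,0)]⟩⟩,.o ⟨false,0,⟨1,[(29,0),(0,0)]⟩,⟨1,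
  [(34,0),(8,0)]⟩⟩,.a ⟨true,(-1),⟨2,[(1,0),(3,0),(5,0),(17,0),(5,1),(3,0)]⟩,⟨0,[(43,0)]⟩⟩ ⟨true,0,
  ⟨0,[]⟩,⟨0,[(46,0)]⟩⟩ ⟨false,1,⟨0,[(0,0)]⟩,⟨1,[(29,0),(0,0),(8,1)]⟩⟩]⟩) (.Q [0,0,-1,0,0,0,0,0,1,-1,
  0,1] (.p true [0,0,0,0,1] [1] (⟨0,[(25,0)]⟩,⟨0,[(24,0)]⟩) .k 1 (⟨0,[]⟩,⟨0,[]⟩) .k .k) (.Q [0,0,0,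
  0,0,-1,0,0,0,1,0,-1] (.ed true [0,1,0,0,1] .k) (.R ⟨1,false,false,false,[1,0,0,0,-1],[0,1],[0,1,0,
  -1],(⟨0,[(26,0)]⟩,⟨0,[(27,0)]⟩),(⟨0,[(38,0)]⟩,⟨0,[(37,0)]⟩),⟨0,[(0,0)]⟩,.k,.k,(.r (-1) ⟨9,[(19,4),
  (4,1),(0,1),(20,2),(1,0)]⟩ ⟨1,[(10,0),(13,0),(0,0)]⟩),(.r (-1) ⟨9,[(19,4),(4,1),(0,1),(20,2),(1,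
  0)]⟩ ⟨1,[(10,0),(13,0),(0,0)]⟩),(.r (-2) ⟨1,[(19,1),(4,0),(0,0),(20,0)]⟩ ⟨0,[(10,0)]⟩),.k,⟨false,
  1,⟨0,[(19,0)]⟩,⟨0,[(41,0),(2,0)]⟩⟩,⟨true,0,⟨0,[(1,0)]⟩,⟨7,[(2,1),(0,2),(3,1),(5,1),(10,7),(6,1),
  (5,5),(8,0)]⟩⟩,⟨true,0,⟨0,[(43,0)]⟩,⟨0,[(44,0)]⟩⟩,⟨false,0,⟨0,[(1,0),(39,0)]⟩,⟨9,[(3,2),(1,1),(0,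
  1),(2,1),(14,9),(10,1),(1,7),(8,0)]⟩⟩,⟨false,0,⟨0,[]⟩,⟨1,[(24,0),(0,0),(20,0)]⟩⟩,⟨false,0,⟨0,[(1,
  0),(39,0),(2,0)]⟩,⟨14,[(3,1),(2,7),(2,5),(3,1),(10,14),(6,7),(3,2),(1,6),(8,3)]⟩⟩,[.a ⟨true,0,⟨0,
  [(44,0)]⟩,⟨10,[(3,3),(1,2),(0,1),(2,1),(18,0),(8,7),(8,0)]⟩⟩ ⟨true,0,⟨0,[(43,0)]⟩,⟨0,[(41,0)]⟩⟩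
  ⟨false,0,⟨0,[(1,0),(42,0)]⟩,⟨10,[(3,3),(1,2),(0,1),(2,1),(14,10),(3,0),(8,7),(8,0)]⟩⟩,.o ⟨false,1,
  ⟨0,[(11,0),(34,0)]⟩,⟨0,[(43,0)]⟩⟩,.o ⟨false,1,⟨0,[(24,0)]⟩,⟨25,[(1,13),(0,5),(3,1),(6,1),(11,11),
  (5,1),(4,6),(9,0)]⟩⟩,.o ⟨false,1,⟨1,[(24,1),(6,0),(0,0)]⟩,⟨0,[(1,0)]⟩⟩]⟩) (.R ⟨0,false,false,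
  false,[1,0,0,0,-1],[0,1],[0,1,0,-1],(⟨0,[(26,0)]⟩,⟨0,[(27,0)]⟩),(⟨0,[(38,0)]⟩,⟨0,[(37,0)]⟩),⟨0,
  [(0,0)]⟩,.k,.k,(.r (-1) ⟨9,[(19,4),(4,1),(0,1),(20,2),(1,0)]⟩ ⟨1,[(10,0),(13,0),(0,0)]⟩),(.r (-1)
  ⟨9,[(19,4),(4,1),(0,1),(20,2),(1,0)]⟩ ⟨1,[(10,0),(13,0),(0,0)]⟩),.k,.k,⟨false,1,⟨0,[(19,0)]⟩,⟨0,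
  [(41,0),(2,0)]⟩⟩,⟨true,0,⟨0,[(1,0)]⟩,⟨7,[(2,1),(0,2),(3,1),(5,1),(10,7),(6,1),(5,5),(8,0)]⟩⟩,
  ⟨true,0,⟨0,[(43,0)]⟩,⟨0,[(44,0)]⟩⟩,⟨false,0,⟨0,[(1,0),(39,0)]⟩,⟨9,[(3,2),(1,1),(0,1),(2,1),(14,9),
  (10,1),(1,7),(8,0)]⟩⟩,⟨false,0,⟨0,[]⟩,⟨0,[]⟩⟩,⟨false,0,⟨0,[]⟩,⟨0,[]⟩⟩,[.a ⟨true,0,⟨0,[(44,0)]⟩,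
  ⟨10,[(3,3),(1,2),(0,1),(2,1),(18,0),(8,7),(8,0)]⟩⟩ ⟨true,0,⟨0,[(43,0)]⟩,⟨0,[(41,0)]⟩⟩ ⟨false,0,⟨0,
  [(1,0),(42,0)]⟩,⟨10,[(3,3),(1,2),(0,1),(2,1),(14,10),(3,0),(8,7),(8,0)]⟩⟩,.o ⟨false,1,⟨0,[(11,0),
  (34,0)]⟩,⟨0,[(43,0)]⟩⟩,.o ⟨false,1,⟨0,[(24,0)]⟩,⟨25,[(1,13),(0,5),(3,1),(6,1),(11,11),(5,1),(4,6),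
  (9,0)]⟩⟩,.o ⟨false,1,⟨1,[(24,1),(6,0),(0,0)]⟩,⟨0,[(1,0)]⟩⟩]⟩)) (.Q [-1,0,0,1,0,0,0,0,-1,0,0,-1]
  (.p false [0,0,0,0,1] [] (⟨0,[(26,0)]⟩,⟨0,[(25,0)]⟩) .k 0 (⟨0,[]⟩,⟨0,[]⟩) .k .k) (.R ⟨2,true,
  false,true,[0,1],[0,0,0,0,1],[2,1],(⟨0,[]⟩,⟨0,[]⟩),(⟨0,[(27,0)]⟩,⟨0,[(26,0)]⟩),⟨0,[]⟩,.k,.k,.k,
  (.r 0 ⟨3,[(10,0),(13,0),(0,0),(15,1),(6,1)]⟩ ⟨3,[(19,1),(4,0),(0,0),(20,0)]⟩),.k,.k,⟨true,0,⟨0,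
  []⟩,⟨1,[(31,0),(0,0)]⟩⟩,⟨false,0,⟨0,[(25,0)]⟩,⟨5,[(0,3),(18,1),(4,1),(20,0),(0,0)]⟩⟩,⟨false,1,⟨3,
  [(19,1),(4,0),(0,0),(20,0)]⟩,⟨0,[(2,0),(39,0),(3,0)]⟩⟩,⟨true,0,⟨0,[(25,0),(17,0)]⟩,⟨0,[(0,0)]⟩⟩,
  ⟨true,0,⟨0,[(42,0)]⟩,⟨0,[(47,0)]⟩⟩,⟨false,0,⟨0,[(25,0)]⟩,⟨8,[(0,4),(0,2),(3,0),(0,0),(2,0),(14,0),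
  (11,1),(9,4)]⟩⟩,[]⟩) (.Q [-1,-1,0,0,1,0,0,0,-1,0,0,-1] (.p false [0,0,0,0,1] [] (⟨0,[(27,0)]⟩,⟨0,
  [(26,0)]⟩) .k 0 (⟨0,[]⟩,⟨0,[]⟩) .k .k) (.Q [0,0,0,0,0,-1,0,0,0,1,0,-1] (.ed true [0,1,0,0,1] .k)
  (.Q [-1,0,0,0,0,0,0,0,-1,1,0,-1] (.p false [0,0,0,0,1] [1] (⟨0,[(29,0)]⟩,⟨0,[(28,0)]⟩) .k 1 (⟨0,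
  []⟩,⟨0,[]⟩) .k .k) (.Q [-1,0,0,-1,0,0,0,0,-1,1,0,-1] (.p false [0,0,0,0,1] [1] (⟨0,[(30,0)]⟩,⟨0,
  [(29,0)]⟩) .k 1 (⟨0,[]⟩,⟨0,[]⟩) .k .k) (.S ⟨1,0,[-1,1],[1,0,0,0,-1],[-1],(⟨0,[(30,0)]⟩,⟨0,[(31,
  0)]⟩),⟨0,[(2,0)]⟩,.k,(.r (-1) ⟨9,[(23,4),(4,1),(0,1),(20,2),(1,0)]⟩ ⟨1,[(14,0),(13,0),(0,0)]⟩),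
  ⟨false,1,⟨1,[(28,0),(0,0),(20,0)]⟩,⟨0,[]⟩⟩,⟨true,0,⟨0,[(52,0)]⟩,⟨0,[]⟩⟩,⟨true,0,⟨0,[(48,0)]⟩,⟨0,
  [(47,0)]⟩⟩,⟨false,0,⟨0,[(48,0)]⟩,⟨7,[(4,0),(4,0),(0,1),(11,1),(5,0),(6,0),(4,0),(9,4)]⟩⟩,[.o
  ⟨false,0,⟨0,[(0,0),(14,0)]⟩,⟨1,[(29,1),(10,0),(9,0)]⟩⟩,.e ⟨false,1,⟨0,[(46,0),(3,0)]⟩,⟨0,[(52,
  0)]⟩⟩ ⟨false,1,⟨9,[(28,3),(0,3),(19,4),(0,0),(1,1)]⟩,⟨0,[]⟩⟩,.a ⟨true,0,⟨0,[(1,0)]⟩,⟨0,[(29,0)]⟩⟩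
  ⟨false,1,⟨4,[(28,1),(0,1),(20,2),(1,0)]⟩,⟨0,[]⟩⟩ ⟨true,0,⟨0,[(52,0)]⟩,⟨0,[]⟩⟩,.o ⟨false,0,⟨3,[(0,
  2),(2,0),(2,1),(8,0),(24,0)]⟩,⟨1,[(29,1),(10,0),(8,0)]⟩⟩]⟩) (.R ⟨2,true,false,true,[0,1],[1,0,0,0,
  -1],[0,0,1,1],(⟨0,[]⟩,⟨0,[]⟩),(⟨0,[(30,0)]⟩,⟨0,[(31,0)]⟩),⟨0,[]⟩,.k,.k,.k,(.r 0 ⟨1,[(14,0),(13,0),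
  (0,0)]⟩ ⟨9,[(23,4),(4,1),(0,1),(20,2),(1,0)]⟩),.k,.k,⟨true,0,⟨0,[(45,0)]⟩,⟨0,[(47,0)]⟩⟩,⟨false,0,
  ⟨0,[(1,0)]⟩,⟨1,[(29,1),(10,0),(8,0)]⟩⟩,⟨false,1,⟨1,[(28,0),(0,0),(20,0)]⟩,⟨0,[]⟩⟩,⟨true,0,⟨0,[(1,
  0),(45,0)]⟩,⟨0,[(0,0)]⟩⟩,⟨true,0,⟨0,[(48,0)]⟩,⟨0,[(47,0)]⟩⟩,⟨false,0,⟨0,[(1,0)]⟩,⟨1,[(29,1),(10,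
  0),(9,0)]⟩⟩,[]⟩)) (.R ⟨1,false,false,true,[0,0,1],[0,0,0,0,1],[0,0,0,0,0,0,0,1],(⟨0,[(37,0)]⟩,⟨0,
  [(36,0)]⟩),(⟨0,[(30,0)]⟩,⟨0,[(29,0)]⟩),⟨0,[(26,0)]⟩,.k,.k,.k,.k,(.r 0 ⟨0,[(16,0),(28,0),(3,0)]⟩
  ⟨1,[(27,0),(0,0),(4,1),(0,1),(12,1),(1,0)]⟩),.k,⟨true,0,⟨2,[(5,0),(10,0),(1,1),(30,1)]⟩,⟨0,[(33,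
  0),(0,0)]⟩⟩,⟨false,0,⟨2,[(0,2),(8,0),(8,0),(12,1),(15,1)]⟩,⟨0,[(2,0),(31,0),(10,0)]⟩⟩,⟨false,1,⟨1,
  [(27,0),(0,0),(20,0)]⟩,⟨0,[]⟩⟩,⟨false,0,⟨0,[(0,0),(10,0),(35,0)]⟩,⟨0,[(2,0),(15,0),(15,0)]⟩⟩,
  ⟨true,0,⟨0,[(47,0)]⟩,⟨0,[(46,0)]⟩⟩,⟨false,0,⟨0,[(0,0),(10,0),(35,1)]⟩,⟨2,[(2,2),(9,0),(3,0),(1,0),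
  (15,2),(14,0)]⟩⟩,[.o ⟨false,0,⟨0,[(0,0),(50,0)]⟩,⟨0,[(2,0)]⟩⟩,.o ⟨false,0,⟨0,[(0,0)]⟩,⟨2,[(2,0),
  (24,1),(23,0)]⟩⟩,.o ⟨false,1,⟨3,[(8,1),(5,1),(19,1),(4,0),(9,0)]⟩,⟨0,[(23,0)]⟩⟩,.a ⟨true,0,⟨0,
  [(34,0)]⟩,⟨0,[(31,0)]⟩⟩ ⟨true,0,⟨0,[(18,0)]⟩,⟨0,[(33,0),(0,0)]⟩⟩ ⟨false,0,⟨0,[(0,0),(30,0)]⟩,⟨0,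
  [(2,0),(31,0)]⟩⟩]⟩)) (.Q [-1,0,0,0,0,0,0,0,-1,1,0,-1] (.p false [0,0,0,0,1] [1] (⟨0,[(29,0)]⟩,⟨0,
  [(28,0)]⟩) .k 1 (⟨0,[]⟩,⟨0,[]⟩) .k .k) (.S ⟨1,0,[1,1],[0,0,0,0,1],[],(⟨0,[(30,0)]⟩,⟨0,[(29,0)]⟩),
  ⟨1,[(1,0),(5,0),(18,0),(3,0)]⟩,.k,(.r (-1) ⟨3,[(22,1),(4,0),(0,0),(20,0)]⟩ ⟨3,[(13,0),(13,0),(0,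
  0),(15,1),(6,1)]⟩),⟨false,1,⟨4,[(27,1),(0,1),(20,2),(1,0)]⟩,⟨0,[]⟩⟩,⟨true,0,⟨0,[(51,0)]⟩,⟨0,[]⟩⟩,
  ⟨true,0,⟨0,[(5,0),(39,1),(3,0)]⟩,⟨0,[(46,0)]⟩⟩,⟨false,0,⟨0,[(47,0)]⟩,⟨7,[(3,0),(4,0),(0,1),(11,1),
  (5,0),(6,0),(4,0),(9,4)]⟩⟩,[.o ⟨false,0,⟨0,[(3,0),(10,0)]⟩,⟨0,[(2,0)]⟩⟩,.a ⟨true,0,⟨0,[(28,0)]⟩,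
  ⟨0,[(0,0)]⟩⟩ ⟨false,1,⟨1,[(48,0),(0,0)]⟩,⟨0,[(51,0)]⟩⟩ ⟨true,0,⟨0,[]⟩,⟨1,[(34,0),(0,0)]⟩⟩,.e
  ⟨false,1,⟨1,[(27,0),(0,0),(20,0)]⟩,⟨0,[]⟩⟩ ⟨false,0,⟨0,[]⟩,⟨1,[(27,0),(0,0),(20,0)]⟩⟩,.o ⟨false,0,
  ⟨5,[(3,2),(1,2),(22,2),(10,1),(3,0)]⟩,⟨0,[(2,0),(42,0)]⟩⟩]⟩) (.R ⟨1,false,false,true,[0,0,1],[0,0,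
  0,0,1],[0,0,0,0,0,0,0,1],(⟨0,[(37,0)]⟩,⟨0,[(36,0)]⟩),(⟨0,[(30,0)]⟩,⟨0,[(29,0)]⟩),⟨0,[(26,0)]⟩,.k,
  .k,.k,.k,(.r 0 ⟨0,[(16,0),(28,0),(3,0)]⟩ ⟨1,[(27,0),(0,0),(4,1),(0,1),(12,1),(1,0)]⟩),.k,⟨true,0,
  ⟨2,[(5,0),(10,0),(1,1),(30,1)]⟩,⟨0,[(33,0),(0,0)]⟩⟩,⟨false,0,⟨2,[(0,2),(8,0),(8,0),(12,1),(15,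
  1)]⟩,⟨0,[(2,0),(31,0),(10,0)]⟩⟩,⟨false,1,⟨1,[(27,0),(0,0),(20,0)]⟩,⟨0,[]⟩⟩,⟨false,0,⟨0,[(0,0),(10,
  0),(35,0)]⟩,⟨0,[(2,0),(15,0),(15,0)]⟩⟩,⟨true,0,⟨0,[(47,0)]⟩,⟨0,[(46,0)]⟩⟩,⟨false,0,⟨0,[(0,0),(10,
  0),(35,1)]⟩,⟨2,[(2,2),(9,0),(3,0),(1,0),(15,2),(14,0)]⟩⟩,[.o ⟨false,0,⟨0,[(0,0),(50,0)]⟩,⟨0,[(2,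
  0)]⟩⟩,.o ⟨false,0,⟨0,[(0,0)]⟩,⟨2,[(2,0),(24,1),(23,0)]⟩⟩,.o ⟨false,1,⟨3,[(8,1),(5,1),(19,1),(4,0),
  (9,0)]⟩,⟨0,[(23,0)]⟩⟩,.a ⟨true,0,⟨0,[(34,0)]⟩,⟨0,[(31,0)]⟩⟩ ⟨true,0,⟨0,[(18,0)]⟩,⟨0,[(33,0),(0,
  0)]⟩⟩ ⟨false,0,⟨0,[(0,0),(30,0)]⟩,⟨0,[(2,0),(31,0)]⟩⟩]⟩))) (.Q [0,0,1,0,-1,0,0,0,1,0,0,1] (.p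
  true [0,0,0,0,1] [] (⟨0,[(28,0)]⟩,⟨0,[(27,0)]⟩) .k 0 (⟨0,[]⟩,⟨0,[]⟩) .k .k) (.Q [0,0,0,0,0,-1,0,0,
  0,0,0,1] (.ed false [1,-1,0,0,1] .k) (.S ⟨1,0,[1],[0,0,0,0,1],[1,0,1],(⟨0,[(30,0)]⟩,⟨0,[(29,0)]⟩),
  ⟨0,[(0,0)]⟩,.k,(.r (-1) ⟨3,[(22,1),(4,0),(0,0),(20,0)]⟩ ⟨3,[(13,0),(13,0),(0,0),(15,1),(6,1)]⟩),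
  ⟨true,0,⟨1,[(34,0),(0,0)]⟩,⟨0,[(45,0)]⟩⟩,⟨false,1,⟨1,[(27,0),(0,0),(20,0)]⟩,⟨0,[]⟩⟩,⟨false,0,⟨1,
  [(13,0),(35,0)]⟩,⟨3,[(22,1),(4,0),(0,0),(20,0)]⟩⟩,⟨true,0,⟨0,[(47,0)]⟩,⟨0,[(46,0)]⟩⟩,[.o ⟨false,0,
  ⟨1,[(1,1),(37,0),(8,0)]⟩,⟨3,[(4,1),(22,1),(15,0),(4,0)]⟩⟩,.e ⟨false,1,⟨1,[(27,0),(0,0),(20,0)]⟩,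
  ⟨0,[(45,0)]⟩⟩ ⟨false,1,⟨1,[(48,0),(0,0)]⟩,⟨0,[(51,0)]⟩⟩,.o ⟨false,0,⟨1,[(1,1),(37,0),(8,0)]⟩,⟨0,
  [(27,0)]⟩⟩,.a ⟨true,(-1),⟨0,[(1,0)]⟩,⟨0,[(4,0),(43,0)]⟩⟩ ⟨true,0,⟨0,[]⟩,⟨0,[(51,0)]⟩⟩ ⟨false,1,⟨1,
  [(48,0),(0,0)]⟩,⟨1,[(34,0),(0,0)]⟩⟩]⟩) (.Q [0,0,1,-1,-1,0,0,0,1,0,0,1] (.p true [0,0,0,0,1] []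
  (⟨0,[(30,0)]⟩,⟨0,[(29,0)]⟩) .k 0 (⟨0,[]⟩,⟨0,[]⟩) .k .k) (.R ⟨0,false,false,true,[0,0,0,0,1],[0,1],
  [0,1],(⟨0,[(31,0)]⟩,⟨0,[(30,0)]⟩),(⟨0,[(42,0)]⟩,⟨0,[(41,0)]⟩),⟨0,[(1,0)]⟩,.k,.k,(.r (-1) ⟨3,[(23,
  1),(4,0),(0,0),(20,0)]⟩ ⟨3,[(14,0),(13,0),(0,0),(15,1),(6,1)]⟩),(.r (-1) ⟨3,[(23,1),(4,0),(0,0),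
  (20,0)]⟩ ⟨3,[(14,0),(13,0),(0,0),(15,1),(6,1)]⟩),.k,.k,⟨true,1,⟨3,[(23,1),(4,0),(0,0),(20,0)]⟩,⟨0,
  [(6,0)]⟩⟩,⟨false,2,⟨0,[(28,0),(20,0)]⟩,⟨0,[(2,0)]⟩⟩,⟨true,0,⟨0,[(52,0)]⟩,⟨0,[]⟩⟩,⟨false,1,⟨0,[(28,
  0),(19,0)]⟩,⟨1,[(0,1),(48,0),(0,0)]⟩⟩,⟨false,0,⟨0,[]⟩,⟨0,[]⟩⟩,⟨false,0,⟨0,[]⟩,⟨0,[]⟩⟩,[.o ⟨false,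
  0,⟨0,[(15,0)]⟩,⟨7,[(4,0),(4,0),(0,1),(11,1),(5,0),(6,0),(4,0),(9,4)]⟩⟩,.a ⟨true,0,⟨0,[(48,0)]⟩,
  ⟨10,[(7,3),(1,2),(0,1),(2,1),(18,0),(8,7),(8,0)]⟩⟩ ⟨false,1,⟨1,[(28,0),(0,0),(19,0)]⟩,⟨0,[]⟩⟩
  ⟨true,1,⟨0,[(28,0),(19,0)]⟩,⟨0,[(0,0)]⟩⟩,.o ⟨false,0,⟨1,[(2,1),(37,0),(8,0)]⟩,⟨0,[(28,0)]⟩⟩,.e
  ⟨true,0,⟨0,[(46,0)]⟩,⟨1,[(35,0),(0,0)]⟩⟩ ⟨true,1,⟨0,[(5,0),(9,0),(33,0)]⟩,⟨0,[(0,0)]⟩⟩]⟩) (.R ⟨1,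
  false,false,false,[1,0,0,0,-1],[0,-1,1],[-1],(⟨0,[(30,0)]⟩,⟨0,[(31,0)]⟩),(⟨0,[(27,0)]⟩,⟨0,[(37,0),
  (4,0)]⟩),⟨1,[(1,0),(6,0),(18,0),(2,0)]⟩,.k,.k,(.r (-1) ⟨9,[(23,4),(4,1),(0,1),(20,2),(1,0)]⟩ ⟨1,
  [(14,0),(13,0),(0,0)]⟩),(.r (-1) ⟨2,[(0,1),(28,1),(4,2),(0,2),(9,0),(4,0),(0,0)]⟩ ⟨2,[(13,0),(3,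
  0),(1,0),(30,0)]⟩),.k,.k,⟨false,1,⟨1,[(34,1),(0,1),(12,1),(0,0),(0,0)]⟩,⟨2,[(13,0),(3,0),(1,0),
  (30,0)]⟩⟩,⟨true,0,⟨3,[(2,3),(6,1),(5,1),(19,1),(4,0),(9,0)]⟩,⟨7,[(0,7),(9,0),(0,4),(5,5),(14,1),
  (17,2)]⟩⟩,⟨false,1,⟨1,[(28,0),(0,0),(20,0)]⟩,⟨0,[]⟩⟩,⟨true,0,⟨5,[(2,5),(6,1),(3,1),(5,3),(15,3),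
  (4,2),(9,0)]⟩,⟨0,[(0,0),(10,0),(34,0)]⟩⟩,⟨true,0,⟨0,[(48,0)]⟩,⟨0,[(47,0)]⟩⟩,⟨true,0,⟨3,[(2,3),(6,
  1),(5,1),(3,3),(15,1),(4,0),(9,0)]⟩,⟨0,[(0,0),(5,0),(3,0),(35,0)]⟩⟩,[.a ⟨true,0,⟨2,[(13,0),(3,0),
  (1,0),(15,2),(14,0)]⟩,⟨0,[(12,0),(35,1)]⟩⟩ ⟨false,1,⟨9,[(28,3),(0,3),(19,4),(0,0),(1,1)]⟩,⟨0,[]⟩⟩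
  ⟨true,0,⟨5,[(2,5),(6,1),(3,1),(5,3),(15,3),(4,2),(9,0)]⟩,⟨0,[(0,0),(10,0)]⟩⟩,.o ⟨false,1,⟨5,[(13,
  1),(3,1),(1,1),(15,5),(4,2),(9,4)]⟩,⟨0,[(34,0),(13,0)]⟩⟩,.o ⟨false,1,⟨0,[(28,0)]⟩,⟨1,[(2,1),(37,
  0),(8,0)]⟩⟩,.e ⟨false,1,⟨0,[(46,0),(3,0)]⟩,⟨1,[(35,0),(0,0)]⟩⟩ ⟨false,1,⟨1,[(2,1),(6,1),(9,1),(20,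
  0),(9,0)]⟩,⟨0,[(0,0),(10,0)]⟩⟩]⟩))) (.R ⟨2,true,false,true,[0,1],[0,0,0,0,1],[1,1,1],(⟨0,[]⟩,⟨0,
  []⟩),(⟨0,[(29,0)]⟩,⟨0,[(28,0)]⟩),⟨0,[]⟩,.k,.k,.k,(.r 0 ⟨3,[(12,0),(13,0),(0,0),(15,1),(6,1)]⟩ ⟨3,
  [(21,1),(4,0),(0,0),(20,0)]⟩),.k,.k,⟨true,0,⟨1,[(33,0),(0,0)]⟩,⟨0,[]⟩⟩,⟨false,0,⟨0,[(27,0)]⟩,⟨0,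
  [(0,0)]⟩⟩,⟨true,0,⟨0,[(45,0)]⟩,⟨0,[(46,0)]⟩⟩,⟨false,0,⟨0,[(2,0)]⟩,⟨1,[(0,1),(3,0),(41,0),(1,0)]⟩⟩,
  ⟨false,0,⟨0,[]⟩,⟨1,[(26,0),(0,0),(20,0)]⟩⟩,⟨true,(-1),⟨0,[(1,0)]⟩,⟨7,[(0,1),(2,1),(22,3),(15,0),
  (5,0),(1,1)]⟩⟩,[]⟩)))))) (.Q [0,0,-1,0,0,0,0,0,-1,1,0,-1] (.p false [0,0,0,0,1] [1] (⟨0,[(24,0)]⟩,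
  ⟨0,[(23,0)]⟩) .k 1 (⟨0,[]⟩,⟨0,[]⟩) .k .k) (.Q [0,0,0,0,0,-1,0,0,0,0,0,1] (.ed false [1,-1,0,0,1]
  .k) (.S ⟨1,0,[1],[0,0,0,0,1],[1,1],(⟨0,[(26,0)]⟩,⟨0,[(25,0)]⟩),⟨0,[(0,0)]⟩,.k,(.r (-1) ⟨3,[(18,1),
  (4,0),(0,0),(20,0)]⟩ ⟨3,[(9,0),(13,0),(0,0),(15,1),(6,1)]⟩),⟨true,0,⟨0,[(47,0)]⟩,⟨0,[]⟩⟩,⟨false,1,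
  ⟨1,[(23,0),(0,0),(20,0)]⟩,⟨0,[]⟩⟩,⟨false,0,⟨0,[(43,0)]⟩,⟨7,[(4,1),(0,1),(11,1),(12,0),(0,0),(3,0),
  (9,4)]⟩⟩,⟨true,0,⟨0,[(43,0)]⟩,⟨0,[(42,0)]⟩⟩,[.a ⟨true,0,⟨0,[(24,0)]⟩,⟨7,[(1,6),(4,0),(8,0),(7,0),
  (6,0),(15,3)]⟩⟩ ⟨false,0,⟨0,[(41,0)]⟩,⟨1,[(23,0),(0,0),(20,0)]⟩⟩ ⟨true,0,⟨0,[]⟩,⟨1,[(30,0),(0,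
  0)]⟩⟩,.o ⟨false,1,⟨1,[(24,1),(10,0),(9,0)]⟩,⟨3,[(1,2),(4,0),(3,1),(1,0),(10,0),(6,0),(8,0),(2,
  0)]⟩⟩,.a ⟨true,0,⟨0,[(24,0)]⟩,⟨3,[(1,2),(4,0),(8,0),(7,0),(6,0)]⟩⟩ ⟨false,0,⟨0,[]⟩,⟨1,[(23,0),(0,
  0),(20,0)]⟩⟩ ⟨true,0,⟨0,[]⟩,⟨0,[(47,0)]⟩⟩,.a ⟨true,0,⟨1,[(24,1),(5,0),(0,0)]⟩,⟨0,[(1,0)]⟩⟩ ⟨true,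
  0,⟨0,[(41,0)]⟩,⟨1,[(30,0),(0,0)]⟩⟩ ⟨false,1,⟨1,[(44,0),(0,0)]⟩,⟨1,[(30,0),(0,0)]⟩⟩]⟩) (.S ⟨1,0,
  [-1,1],[1,0,0,0,-1],[-1],(⟨0,[(25,0)]⟩,⟨0,[(26,0)]⟩),⟨1,[(0,0),(2,0),(18,0),(2,0)]⟩,.k,(.r (-1)
  ⟨9,[(18,4),(4,1),(0,1),(20,2),(1,0)]⟩ ⟨1,[(9,0),(13,0),(0,0)]⟩),⟨false,1,⟨1,[(23,0),(0,0),(20,
  0)]⟩,⟨0,[]⟩⟩,⟨true,0,⟨0,[(47,0)]⟩,⟨0,[]⟩⟩,⟨true,0,⟨0,[(43,0)]⟩,⟨0,[(42,0)]⟩⟩,⟨false,0,⟨0,[(43,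
  0)]⟩,⟨7,[(4,1),(0,1),(11,1),(12,0),(0,0),(3,0),(9,4)]⟩⟩,[.o ⟨false,0,⟨3,[(1,2),(4,0),(3,1),(1,0),
  (10,0),(6,0),(8,0),(2,0)]⟩,⟨1,[(24,1),(10,0),(9,0)]⟩⟩,.e ⟨false,1,⟨1,[(2,0),(31,1),(10,0)]⟩,⟨0,
  [(47,0)]⟩⟩ ⟨false,1,⟨9,[(23,3),(0,3),(19,4),(0,0),(1,1)]⟩,⟨0,[]⟩⟩,.a ⟨true,0,⟨3,[(1,2),(4,0),(8,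
  0),(7,0),(6,0)]⟩,⟨0,[(24,0)]⟩⟩ ⟨false,1,⟨4,[(23,1),(0,1),(20,2),(1,0)]⟩,⟨0,[]⟩⟩ ⟨true,0,⟨0,[(47,
  0)]⟩,⟨0,[]⟩⟩,.o ⟨false,0,⟨6,[(1,4),(4,2),(5,2),(10,1),(6,2),(4,3),(4,2)]⟩,⟨1,[(24,1),(10,0),(8,
  0)]⟩⟩]⟩)) (.Q [0,-1,0,2,0,0,1,1,0,0,1] (.p true [0,0,1] [] (⟨0,[(32,0)]⟩,⟨0,[(31,0)]⟩) .k 0 (⟨0,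
  []⟩,⟨0,[]⟩) .k .k) (.S ⟨1,3,[],[1,-1,-1],[1,0,-1,-2,0,0,0,-1],(⟨0,[(21,0)]⟩,⟨0,[(33,0),(3,0)]⟩),
  ⟨0,[(3,0)]⟩,.k,(.r (-2) ⟨1,[(4,1),(2,1),(27,0),(8,0)]⟩ ⟨1,[(0,3),(1,4),(3,5),(5,3),(17,1),(3,9),
  (4,2)]⟩),⟨false,1,⟨10,[(1,0),(2,1),(0,2),(11,2),(5,0),(6,0),(4,0),(9,6)]⟩,⟨0,[(43,0)]⟩⟩,⟨true,0,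
  ⟨1,[(0,0),(27,0)]⟩,⟨0,[(11,0)]⟩⟩,⟨true,0,⟨0,[]⟩,⟨0,[(47,0)]⟩⟩,⟨false,0,⟨0,[(0,0)]⟩,⟨9,[(1,3),(3,
  5),(1,3),(10,1),(4,3),(11,2),(9,0)]⟩⟩,[.fa ⟨false,2,⟨1,[(4,1),(2,1),(27,0),(8,0)]⟩,⟨1,[(0,0),(8,
  0),(3,0),(5,0)]⟩⟩ ⟨true,1,⟨0,[(30,0),(13,0)]⟩,⟨2,[(6,1),(5,1),(6,0),(15,0),(4,1)]⟩⟩,.a ⟨true,0,⟨0,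
  [(0,0),(4,0)]⟩,⟨0,[(47,0)]⟩⟩ ⟨true,2,⟨1,[(4,1),(2,1),(27,0),(9,0)]⟩,⟨1,[(2,0),(6,2),(2,1),(21,
  1)]⟩⟩ ⟨false,2,⟨1,[(30,1),(13,2),(0,0)]⟩,⟨1,[(6,0),(3,0),(1,0),(6,0)]⟩⟩,.a ⟨true,(-1),⟨1,[(6,0),
  (5,0),(14,0),(12,0)]⟩,⟨0,[(30,0),(13,0)]⟩⟩ ⟨false,2,⟨1,[(4,1),(2,1),(27,0),(9,0)]⟩,⟨1,[(0,0),(8,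
  0),(3,0),(5,0)]⟩⟩ ⟨true,1,⟨0,[(30,0),(13,0)]⟩,⟨1,[(6,0),(3,0),(1,0),(6,0)]⟩⟩,.o ⟨false,(-1),⟨2,
  [(6,1),(5,1),(6,0),(15,0),(4,1)]⟩,⟨1,[(4,1),(5,1),(33,0),(0,0)]⟩⟩]⟩) (.Q [0,0,-1,0,0,0,0,0,1,-1,0,
  1] (.p true [0,0,0,0,1] [1] (⟨0,[(26,0)]⟩,⟨0,[(25,0)]⟩) .k 1 (⟨0,[]⟩,⟨0,[]⟩) .k .k) (.Q [0,0,0,0,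
  0,-1,0,0,0,1,0,-1] (.ed true [0,1,0,0,1] .k) (.R ⟨1,false,false,false,[1,0,0,0,-1],[0,1],[0,1,0,
  -1],(⟨0,[(27,0)]⟩,⟨0,[(28,0)]⟩),(⟨0,[(39,0)]⟩,⟨0,[(38,0)]⟩),⟨0,[(0,0)]⟩,.k,.k,(.r (-1) ⟨9,[(20,4),
  (4,1),(0,1),(20,2),(1,0)]⟩ ⟨1,[(11,0),(13,0),(0,0)]⟩),(.r (-1) ⟨9,[(20,4),(4,1),(0,1),(20,2),(1,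
  0)]⟩ ⟨1,[(11,0),(13,0),(0,0)]⟩),(.r (-2) ⟨1,[(20,1),(4,0),(0,0),(20,0)]⟩ ⟨0,[(11,0)]⟩),.k,⟨false,
  1,⟨0,[(20,0)]⟩,⟨0,[(42,0),(2,0)]⟩⟩,⟨true,0,⟨0,[(1,0)]⟩,⟨1,[(8,0),(5,0),(10,1),(3,0),(2,1),(9,
  0)]⟩⟩,⟨true,0,⟨0,[(44,0)]⟩,⟨0,[(45,0)]⟩⟩,⟨false,0,⟨0,[(1,0),(40,0)]⟩,⟨6,[(7,1),(2,0),(3,0),(10,6),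
  (3,2),(2,4),(3,1),(1,1),(8,0)]⟩⟩,⟨false,0,⟨0,[]⟩,⟨1,[(25,0),(0,0),(20,0)]⟩⟩,⟨false,0,⟨0,[(1,0),
  (40,0),(2,0)]⟩,⟨20,[(7,11),(2,5),(3,5),(10,20),(3,3),(2,15),(3,4),(1,4),(8,5)]⟩⟩,[.a ⟨true,0,⟨0,
  [(45,0)]⟩,⟨6,[(7,1),(2,0),(3,0),(14,4),(2,6),(14,0)]⟩⟩ ⟨true,0,⟨0,[(44,0)]⟩,⟨0,[(42,0)]⟩⟩ ⟨false,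
  0,⟨0,[(1,0),(43,0)]⟩,⟨6,[(7,1),(2,0),(3,0),(10,6),(3,4),(2,6),(14,0)]⟩⟩,.o ⟨false,1,⟨0,[(12,0),
  (34,0)]⟩,⟨0,[(44,0)]⟩⟩,.o ⟨false,1,⟨0,[(25,0)]⟩,⟨1,[(1,0),(1,0)]⟩⟩,.o ⟨false,1,⟨1,[(25,1),(6,0),
  (0,0)]⟩,⟨0,[(1,0)]⟩⟩]⟩) (.R ⟨0,false,false,false,[1,0,0,0,-1],[0,1],[0,1,0,-1],(⟨0,[(27,0)]⟩,⟨0,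
  [(28,0)]⟩),(⟨0,[(39,0)]⟩,⟨0,[(38,0)]⟩),⟨0,[(0,0)]⟩,.k,.k,(.r (-1) ⟨9,[(20,4),(4,1),(0,1),(20,2),
  (1,0)]⟩ ⟨1,[(11,0),(13,0),(0,0)]⟩),(.r (-1) ⟨9,[(20,4),(4,1),(0,1),(20,2),(1,0)]⟩ ⟨1,[(11,0),(13,
  0),(0,0)]⟩),.k,.k,⟨false,1,⟨0,[(20,0)]⟩,⟨0,[(42,0),(2,0)]⟩⟩,⟨true,0,⟨0,[(1,0)]⟩,⟨1,[(8,0),(5,0),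
  (10,1),(3,0),(2,1),(9,0)]⟩⟩,⟨true,0,⟨0,[(44,0)]⟩,⟨0,[(45,0)]⟩⟩,⟨false,0,⟨0,[(1,0),(40,0)]⟩,⟨6,[(7,
  1),(2,0),(3,0),(10,6),(3,2),(2,4),(3,1),(1,1),(8,0)]⟩⟩,⟨false,0,⟨0,[]⟩,⟨0,[]⟩⟩,⟨false,0,⟨0,[]⟩,⟨0,
  []⟩⟩,[.a ⟨true,0,⟨0,[(45,0)]⟩,⟨6,[(7,1),(2,0),(3,0),(14,4),(2,6),(14,0)]⟩⟩ ⟨true,0,⟨0,[(44,0)]⟩,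
  ⟨0,[(42,0)]⟩⟩ ⟨false,0,⟨0,[(1,0),(43,0)]⟩,⟨6,[(7,1),(2,0),(3,0),(10,6),(3,4),(2,6),(14,0)]⟩⟩,.o
  ⟨false,1,⟨0,[(12,0),(34,0)]⟩,⟨0,[(44,0)]⟩⟩,.o ⟨false,1,⟨0,[(25,0)]⟩,⟨1,[(1,0),(1,0)]⟩⟩,.o ⟨false,
  1,⟨1,[(25,1),(6,0),(0,0)]⟩,⟨0,[(1,0)]⟩⟩]⟩)) (.Q [-1,0,0,0,0,0,0,0,-1,1,0,-1] (.p false [0,0,0,0,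
  1] [1] (⟨0,[(27,0)]⟩,⟨0,[(26,0)]⟩) .k 1 (⟨0,[]⟩,⟨0,[]⟩) .k .k) (.Q [0,0,0,0,0,-1,0,0,0,0,0,1]
  (.ed false [1,-1,0,0,1] .k) (.S ⟨1,0,[1,1],[0,0,0,0,1],[],(⟨0,[(29,0)]⟩,⟨0,[(28,0)]⟩),⟨0,[(0,0)]⟩,
  .k,(.r (-1) ⟨3,[(21,1),(4,0),(0,0),(20,0)]⟩ ⟨3,[(12,0),(13,0),(0,0),(15,1),(6,1)]⟩),⟨false,1,⟨4,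
  [(26,1),(0,1),(20,2),(1,0)]⟩,⟨0,[]⟩⟩,⟨true,0,⟨0,[(50,0)]⟩,⟨0,[]⟩⟩,⟨true,0,⟨1,[(5,0),(6,0),(24,
  1)]⟩,⟨0,[(45,0)]⟩⟩,⟨false,0,⟨0,[(46,0)]⟩,⟨10,[(4,0),(2,1),(0,2),(11,2),(5,0),(6,0),(4,0),(9,6)]⟩⟩,
  [.o ⟨false,0,⟨0,[(4,0),(39,0)]⟩,⟨1,[(1,1),(36,0),(9,0)]⟩⟩,.a ⟨true,0,⟨0,[(27,0)]⟩,⟨0,[(1,0)]⟩⟩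
  ⟨false,1,⟨1,[(47,0),(0,0)]⟩,⟨0,[(50,0)]⟩⟩ ⟨true,0,⟨0,[]⟩,⟨1,[(33,0),(0,0)]⟩⟩,.e ⟨false,1,⟨1,[(26,
  0),(0,0),(20,0)]⟩,⟨0,[]⟩⟩ ⟨false,0,⟨0,[]⟩,⟨1,[(26,0),(0,0),(20,0)]⟩⟩,.o ⟨false,0,⟨0,[(4,0)]⟩,⟨1,
  [(1,1),(36,0),(8,0)]⟩⟩]⟩) (.Q [-1,0,0,1,0,0,-1,-1,-1,1,-1,-1] (.p false [0,0,1] [1,0,0,0,-1] (⟨0,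
  [(36,0)]⟩,⟨0,[(35,0)]⟩) .k 2 (⟨0,[(28,0)]⟩,⟨0,[(29,0)]⟩) .k (.r 0 ⟨0,[(18,0)]⟩ ⟨1,[(32,1),(0,1),
  (13,0),(0,0)]⟩)) (.S ⟨1,0,[-1,1],[1,0,0,0,-1],[-1],(⟨0,[(29,0)]⟩,⟨0,[(30,0)]⟩),⟨1,[(1,0),(5,0),
  (18,0),(2,0)]⟩,.k,(.r (-1) ⟨9,[(22,4),(4,1),(0,1),(20,2),(1,0)]⟩ ⟨1,[(13,0),(13,0),(0,0)]⟩),
  ⟨false,1,⟨1,[(27,0),(0,0),(20,0)]⟩,⟨0,[]⟩⟩,⟨true,0,⟨0,[(51,0)]⟩,⟨0,[]⟩⟩,⟨true,0,⟨0,[(47,0)]⟩,⟨0,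
  [(46,0)]⟩⟩,⟨false,0,⟨0,[(47,0)]⟩,⟨10,[(5,0),(2,1),(0,2),(11,2),(5,0),(6,0),(4,0),(9,6)]⟩⟩,[.o
  ⟨false,0,⟨2,[(0,1),(1,0),(9,0),(1,0),(1,0),(17,1),(4,0)]⟩,⟨1,[(28,1),(10,0),(9,0)]⟩⟩,.e ⟨false,1,
  ⟨1,[(6,0),(31,1),(10,0)]⟩,⟨0,[(51,0)]⟩⟩ ⟨false,1,⟨9,[(27,3),(0,3),(19,4),(0,0),(1,1)]⟩,⟨0,[]⟩⟩,.a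
  ⟨true,0,⟨0,[(2,0)]⟩,⟨0,[(28,0)]⟩⟩ ⟨false,1,⟨4,[(27,1),(0,1),(20,2),(1,0)]⟩,⟨0,[]⟩⟩ ⟨true,0,⟨0,
  [(51,0)]⟩,⟨0,[]⟩⟩,.o ⟨false,0,⟨1,[(0,1),(15,1),(17,1),(4,0),(9,0)]⟩,⟨1,[(28,1),(10,0),(8,0)]⟩⟩]⟩)
  (.R ⟨0,false,false,false,[0,0,0,0,1],[0,1],[0,1],(⟨0,[(30,0)]⟩,⟨0,[(29,0)]⟩),(⟨0,[(41,0)]⟩,⟨0,
  [(40,0)]⟩),⟨0,[(1,0)]⟩,.k,.k,(.r (-1) ⟨3,[(22,1),(4,0),(0,0),(20,0)]⟩ ⟨3,[(13,0),(13,0),(0,0),(15,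
  1),(6,1)]⟩),(.r (-1) ⟨3,[(22,1),(4,0),(0,0),(20,0)]⟩ ⟨3,[(13,0),(13,0),(0,0),(15,1),(6,1)]⟩),.k,
  .k,⟨false,1,⟨7,[(22,3),(4,0),(0,0),(13,1),(5,2)]⟩,⟨0,[(44,0)]⟩⟩,⟨true,1,⟨1,[(2,1),(36,0),(8,0)]⟩,
  ⟨7,[(0,5),(5,0),(3,5),(2,2),(14,1),(9,1)]⟩⟩,⟨true,0,⟨0,[(51,0)]⟩,⟨0,[]⟩⟩,⟨false,1,⟨0,[(2,0),(11,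
  0),(34,0)]⟩,⟨2,[(0,0),(8,0),(18,1)]⟩⟩,⟨false,0,⟨0,[]⟩,⟨0,[]⟩⟩,⟨false,0,⟨0,[]⟩,⟨0,[]⟩⟩,[.e ⟨false,
  0,⟨0,[(45,0)]⟩,⟨1,[(27,0),(0,0),(20,0)]⟩⟩ ⟨false,1,⟨1,[(2,1),(11,1),(33,0),(0,0)]⟩,⟨15,[(0,5),(5,
  0),(2,4),(0,0),(17,9),(9,1)]⟩⟩,.o ⟨false,1,⟨0,[(14,0),(34,0)]⟩,⟨0,[(46,0)]⟩⟩,.a ⟨true,0,⟨0,[(28,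
  0)]⟩,⟨0,[(2,0)]⟩⟩ ⟨true,0,⟨0,[(51,0)]⟩,⟨0,[]⟩⟩ ⟨false,1,⟨0,[(2,0),(11,0),(34,0)]⟩,⟨15,[(0,5),(5,
  0),(2,4),(0,0),(17,9),(9,1)]⟩⟩,.o ⟨false,0,⟨0,[(5,0)]⟩,⟨1,[(2,1),(36,0),(8,0)]⟩⟩]⟩))) (.Q [1,1,0,
  0,-1,0,0,0,1,0,0,1] (.p true [0,0,0,0,1] [] (⟨0,[(28,0)]⟩,⟨0,[(27,0)]⟩) .k 0 (⟨0,[]⟩,⟨0,[]⟩) .k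
  .k) (.Q [0,0,1,0,-1,0,0,0,1,0,0,1] (.p true [0,0,0,0,1] [] (⟨0,[(29,0)]⟩,⟨0,[(28,0)]⟩) .k 0 (⟨0,
  []⟩,⟨0,[]⟩) .k .k) (.Q [0,0,0,0,0,1,0,0,0,0,0,-1] (.ed true [1,-1,0,0,1] .k) (.I [-1,1,-1] (.S ⟨1,
  0,[-1],[1,0,0,0,-1],[1,0,1],(⟨0,[(31,0)]⟩,⟨0,[(32,0)]⟩),⟨1,[(1,0),(7,0),(18,0),(2,0)]⟩,.k,(.r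
  (-1) ⟨9,[(24,4),(4,1),(0,1),(20,2),(1,0)]⟩ ⟨1,[(15,0),(13,0),(0,0)]⟩),⟨true,0,⟨1,[(36,0),(0,0)]⟩,
  ⟨0,[(0,0)]⟩⟩,⟨false,1,⟨1,[(29,0),(0,0),(20,0)]⟩,⟨0,[]⟩⟩,⟨false,0,⟨0,[(46,0)]⟩,⟨9,[(24,4),(4,1),(0,
  1),(20,2),(1,0)]⟩⟩,⟨true,0,⟨0,[(49,0)]⟩,⟨0,[(48,0)]⟩⟩,[.o ⟨false,1,⟨8,[(5,1),(2,0),(20,6),(10,1),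
  (4,0)]⟩,⟨0,[(4,0)]⟩⟩,.e ⟨false,1,⟨1,[(29,0),(0,0),(20,0)]⟩,⟨0,[(47,0)]⟩⟩ ⟨false,1,⟨1,[(8,0),(31,
  1),(10,0)]⟩,⟨0,[(53,0)]⟩⟩,.o ⟨false,1,⟨0,[(29,0)]⟩,⟨5,[(2,1),(1,3),(40,0),(4,0)]⟩⟩,.a ⟨true,0,⟨0,
  [(5,0)]⟩,⟨1,[(3,1),(46,0),(0,0)]⟩⟩ ⟨true,0,⟨0,[]⟩,⟨0,[(53,0)]⟩⟩ ⟨false,1,⟨1,[(8,0),(31,1),(10,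
  0)]⟩,⟨1,[(36,0),(0,0)]⟩⟩]⟩) (.S ⟨1,0,[-1,1],[1,0,0,0,-1],[-1],(⟨0,[(31,0)]⟩,⟨0,[(32,0)]⟩),⟨1,[(1,
  0),(7,0),(18,0),(2,0)]⟩,.k,(.r (-1) ⟨9,[(24,4),(4,1),(0,1),(20,2),(1,0)]⟩ ⟨1,[(15,0),(13,0),(0,
  0)]⟩),⟨false,1,⟨1,[(29,0),(0,0),(20,0)]⟩,⟨0,[]⟩⟩,⟨true,0,⟨0,[(53,0)]⟩,⟨0,[]⟩⟩,⟨true,0,⟨0,[(49,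
  0)]⟩,⟨0,[(48,0)]⟩⟩,⟨false,0,⟨0,[(49,0)]⟩,⟨10,[(7,0),(2,1),(0,2),(11,2),(5,0),(6,0),(4,0),(9,6)]⟩⟩,
  [.a ⟨true,0,⟨0,[(5,0),(41,0)]⟩,⟨0,[(3,0),(47,0)]⟩⟩ ⟨false,1,⟨9,[(29,3),(0,3),(19,4),(0,0),(1,1)]⟩,
  ⟨0,[]⟩⟩ ⟨true,0,⟨0,[(53,0)]⟩,⟨0,[(0,0)]⟩⟩,.o ⟨false,1,⟨8,[(5,1),(2,0),(20,6),(10,1),(4,0)]⟩,⟨0,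
  [(4,0)]⟩⟩,.o ⟨false,1,⟨0,[(29,0)]⟩,⟨5,[(2,1),(1,3),(40,0),(4,0)]⟩⟩,.e ⟨false,1,⟨0,[(0,0),(7,0),
  (31,1)]⟩,⟨1,[(36,0),(0,0)]⟩⟩ ⟨false,1,⟨9,[(29,3),(0,3),(19,4),(0,0),(1,1)]⟩,⟨0,[(0,0)]⟩⟩]⟩)) (.S
  ⟨1,0,[1],[0,0,0,0,1],[1,0,1],(⟨0,[(31,0)]⟩,⟨0,[(30,0)]⟩),⟨0,[(0,0)]⟩,.k,(.r (-1) ⟨3,[(23,1),(4,0),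
  (0,0),(20,0)]⟩ ⟨3,[(14,0),(13,0),(0,0),(15,1),(6,1)]⟩),⟨true,0,⟨1,[(35,0),(0,0)]⟩,⟨0,[(46,0)]⟩⟩,
  ⟨false,1,⟨1,[(28,0),(0,0),(20,0)]⟩,⟨0,[]⟩⟩,⟨false,0,⟨1,[(14,0),(35,0)]⟩,⟨3,[(23,1),(4,0),(0,0),
  (20,0)]⟩⟩,⟨true,0,⟨0,[(48,0)]⟩,⟨0,[(47,0)]⟩⟩,[.o ⟨false,0,⟨0,[(3,0)]⟩,⟨8,[(4,1),(2,0),(20,6),(10,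
  1),(4,0)]⟩⟩,.e ⟨false,1,⟨1,[(28,0),(0,0),(20,0)]⟩,⟨0,[(46,0)]⟩⟩ ⟨false,1,⟨1,[(49,0),(0,0)]⟩,⟨0,
  [(52,0)]⟩⟩,.o ⟨false,0,⟨5,[(1,1),(1,3),(40,0),(4,0)]⟩,⟨0,[(28,0)]⟩⟩,.a ⟨true,(-1),⟨0,[(1,0)]⟩,⟨0,
  [(4,0),(44,0)]⟩⟩ ⟨true,0,⟨0,[]⟩,⟨0,[(52,0)]⟩⟩ ⟨false,1,⟨1,[(49,0),(0,0)]⟩,⟨1,[(35,0),(0,0)]⟩⟩]⟩))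
  (.Q [-1,-1,0,1,1,0,0,0,-1,0,0,-1] (.p false [0,0,0,0,1] [] (⟨0,[(30,0)]⟩,⟨0,[(29,0)]⟩) .k 0 (⟨0,
  []⟩,⟨0,[]⟩) .k .k) (.R ⟨2,true,false,true,[0,1],[0,0,0,0,1],[1,1,1],(⟨0,[]⟩,⟨0,[]⟩),(⟨0,[(31,0)]⟩,
  ⟨0,[(30,0)]⟩),⟨0,[]⟩,.k,.k,.k,(.r 0 ⟨8,[(0,2),(5,0),(7,2),(10,0),(3,1),(5,1),(16,2)]⟩ ⟨3,[(23,1),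
  (4,0),(0,0),(20,0)]⟩),.k,.k,⟨true,0,⟨1,[(35,0),(0,0)]⟩,⟨0,[]⟩⟩,⟨false,0,⟨0,[(29,0)]⟩,⟨0,[(1,0)]⟩⟩,
  ⟨true,0,⟨0,[(47,0)]⟩,⟨0,[(48,0)]⟩⟩,⟨false,0,⟨2,[(2,0),(0,0),(6,0),(10,0),(7,0),(20,0)]⟩,⟨0,[(0,
  0)]⟩⟩,⟨false,0,⟨0,[]⟩,⟨1,[(28,0),(0,0),(20,0)]⟩⟩,⟨true,(-1),⟨0,[(2,0)]⟩,⟨7,[(0,1),(3,1),(18,0),(4,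
  3),(15,0),(7,0)]⟩⟩,[]⟩) (.I [1,1,-1,-1] (.C [(0,0),(0,0),(0,0),(12,0),(35,0)]) (.C [(0,0),(0,0),
  (0,0)])))) (.R ⟨1,false,false,true,[0,0,1],[0,0,0,0,1],[0,0,0,0,0,0,0,1],(⟨0,[(36,0)]⟩,⟨0,[(35,
  0)]⟩),(⟨0,[(29,0)]⟩,⟨0,[(28,0)]⟩),⟨0,[(25,0)]⟩,.k,.k,.k,.k,(.r 0 ⟨1,[(5,0),(9,1),(21,1),(10,0)]⟩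
  ⟨1,[(26,0),(0,0),(4,1),(0,1),(12,1),(1,0)]⟩),.k,⟨true,0,⟨3,[(12,0),(2,1),(1,1),(30,2)]⟩,⟨0,[(32,
  0),(0,0)]⟩⟩,⟨false,0,⟨6,[(1,6),(3,0),(3,0),(7,0),(12,5),(6,1)]⟩,⟨0,[(0,0),(32,0),(10,0)]⟩⟩,⟨false,
  1,⟨1,[(26,0),(0,0),(20,0)]⟩,⟨0,[]⟩⟩,⟨false,0,⟨0,[(1,0),(8,0),(35,0)]⟩,⟨0,[(0,0),(16,0),(15,0)]⟩⟩,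
  ⟨true,0,⟨0,[(46,0)]⟩,⟨0,[(45,0)]⟩⟩,⟨false,0,⟨0,[(1,0),(8,0),(35,1)]⟩,⟨2,[(0,2),(10,0),(3,0),(1,0),
  (15,2),(14,0)]⟩⟩,[.o ⟨false,0,⟨1,[(1,0),(2,0),(36,0)]⟩,⟨0,[(0,0)]⟩⟩,.o ⟨false,0,⟨0,[(1,0)]⟩,⟨2,
  [(0,0),(25,1),(23,0)]⟩⟩,.o ⟨false,1,⟨3,[(7,1),(5,1),(19,1),(4,0),(9,0)]⟩,⟨0,[(22,0)]⟩⟩,.a ⟨true,0,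
  ⟨0,[(33,0)]⟩,⟨0,[(30,0)]⟩⟩ ⟨true,0,⟨0,[(17,0)]⟩,⟨0,[(32,0),(0,0)]⟩⟩ ⟨false,0,⟨0,[(1,0),(28,0)]⟩,
  ⟨0,[(0,0),(32,0)]⟩⟩]⟩)))))))) (.Q [0,0,0,0,0,2,0,0,0,-1,1] (.p true [0,0,1] [1] (⟨0,[(29,0)]⟩,⟨0,
  [(28,0)]⟩) .k 1 (⟨0,[]⟩,⟨0,[]⟩) .k .k) (.R ⟨0,false,false,false,[1,-1,-1],[1,-1],[0,1],(⟨0,[(18,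
  0)]⟩,⟨0,[(30,0),(3,0)]⟩),(⟨0,[(33,0)]⟩,⟨0,[(34,0)]⟩),⟨0,[(0,0)]⟩,.k,.k,(.r (-2) ⟨1,[(2,1),(24,1),
  (4,0),(8,2)]⟩ ⟨1,[(1,15),(0,1),(2,3),(21,17),(8,0),(1,21),(3,12)]⟩),.k,.k,.k,⟨true,(-1),⟨0,[(1,0),
  (25,0),(10,0)]⟩,⟨9,[(2,1),(11,1),(0,1),(11,2),(0,0),(3,0),(9,6)]⟩⟩,⟨false,1,⟨0,[(27,0),(13,0)]⟩,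
  ⟨0,[(16,0)]⟩⟩,⟨false,(-1),⟨3,[(6,2),(2,1),(1,1),(30,0)]⟩,⟨1,[(4,1),(22,1),(4,0),(8,1),(0,0)]⟩⟩,
  ⟨true,0,⟨0,[(11,0),(15,0)]⟩,⟨0,[(26,0)]⟩⟩,⟨false,0,⟨0,[]⟩,⟨0,[]⟩⟩,⟨false,0,⟨0,[]⟩,⟨0,[]⟩⟩,[.e
  ⟨false,0,⟨0,[(38,0)]⟩,⟨1,[(20,0),(0,0),(20,0)]⟩⟩ ⟨false,2,⟨3,[(15,1),(4,0),(0,0),(5,3),(13,3),(0,
  0)]⟩,⟨0,[(1,0)]⟩⟩,.o ⟨false,1,⟨9,[(2,1),(11,1),(0,1),(11,2),(0,0),(3,0),(9,6)]⟩,⟨0,[(7,0)]⟩⟩,.a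
  ⟨true,(-1),⟨1,[(3,0),(5,0),(14,0),(12,0)]⟩,⟨0,[(27,0),(13,0)]⟩⟩ ⟨true,0,⟨0,[(44,0)]⟩,⟨0,[]⟩⟩
  ⟨false,2,⟨3,[(15,1),(4,0),(0,0),(5,3),(13,1),(0,2)]⟩,⟨0,[(1,0)]⟩⟩,.o ⟨false,(-1),⟨9,[(1,1),(1,5),
  (5,5),(18,1),(3,2),(4,3),(4,0)]⟩,⟨1,[(27,1),(4,0),(8,2)]⟩⟩]⟩) (.Q [-1,0,0,1,0,0,0,0,-1,0,0,-1]
  (.p false [0,0,0,0,1] [] (⟨0,[(23,0)]⟩,⟨0,[(22,0)]⟩) .k 0 (⟨0,[]⟩,⟨0,[]⟩) .k .k) (.R ⟨2,true,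
  false,false,[0,1],[0,0,0,0,1],[2],(⟨0,[]⟩,⟨0,[]⟩),(⟨0,[(24,0)]⟩,⟨0,[(23,0)]⟩),⟨0,[]⟩,.k,.k,.k,(.r
  0 ⟨3,[(7,0),(13,0),(0,0),(15,1),(6,1)]⟩ ⟨3,[(16,1),(4,0),(0,0),(20,0)]⟩),.k,.k,⟨true,0,⟨0,[]⟩,⟨1,
  [(28,0),(0,0)]⟩⟩,⟨false,0,⟨0,[(22,0)]⟩,⟨5,[(0,3),(15,1),(4,1),(20,0),(0,0)]⟩⟩,⟨true,1,⟨3,[(16,1),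
  (4,0),(0,0),(20,0)]⟩,⟨0,[(2,0),(25,0),(10,0)]⟩⟩,⟨false,1,⟨9,[(3,1),(11,1),(0,1),(5,9),(5,2),(0,0),
  (3,0),(9,6)]⟩,⟨0,[(0,0)]⟩⟩,⟨false,1,⟨1,[(42,0),(0,0)]⟩,⟨0,[(44,0)]⟩⟩,⟨true,0,⟨0,[(22,0)]⟩,⟨0,[(0,
  0),(39,0)]⟩⟩,[]⟩) (.Q [0,0,0,0,0,-1,0,0,0,0,0,1] (.ed false [1,-1,0,0,1] .k) (.Q [-1,0,0,0,0,0,0,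
  0,-1,1,0,-1] (.p false [0,0,0,0,1] [1] (⟨0,[(25,0)]⟩,⟨0,[(24,0)]⟩) .k 1 (⟨0,[]⟩,⟨0,[]⟩) .k .k)
  (.S ⟨1,0,[1,1],[0,0,0,0,1],[],(⟨0,[(26,0)]⟩,⟨0,[(25,0)]⟩),⟨0,[(1,0)]⟩,.k,(.r (-1) ⟨3,[(18,1),(4,
  0),(0,0),(20,0)]⟩ ⟨3,[(9,0),(13,0),(0,0),(15,1),(6,1)]⟩),⟨false,1,⟨4,[(23,1),(0,1),(20,2),(1,0)]⟩,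
  ⟨0,[]⟩⟩,⟨true,0,⟨0,[(47,0)]⟩,⟨0,[]⟩⟩,⟨true,0,⟨0,[(4,0),(25,0),(10,1),(3,0)]⟩,⟨0,[(42,0)]⟩⟩,⟨false,
  0,⟨0,[(43,0)]⟩,⟨8,[(2,0),(2,1),(11,1),(0,0),(4,0),(6,1),(4,0),(9,5)]⟩⟩,[.o ⟨false,0,⟨0,[(2,0),(7,
  0)]⟩,⟨1,[(0,1),(34,0),(9,0)]⟩⟩,.a ⟨true,0,⟨0,[(24,0)]⟩,⟨0,[(0,0)]⟩⟩ ⟨false,1,⟨1,[(44,0),(0,0)]⟩,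
  ⟨0,[(47,0)]⟩⟩ ⟨true,0,⟨0,[]⟩,⟨1,[(30,0),(0,0)]⟩⟩,.e ⟨false,1,⟨1,[(23,0),(0,0),(20,0)]⟩,⟨0,[]⟩⟩
  ⟨false,0,⟨0,[]⟩,⟨1,[(23,0),(0,0),(20,0)]⟩⟩,.o ⟨false,0,⟨5,[(2,5),(6,2),(25,0),(3,1)]⟩,⟨1,[(0,1),
  (34,0),(8,0)]⟩⟩]⟩) (.Q [1,-1,0,-2,0,0,0,0,1,0,0,1] (.p true [0,0,0,0,1] [] (⟨0,[(26,0)]⟩,⟨0,[(25,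
  0)]⟩) .k 0 (⟨0,[]⟩,⟨0,[]⟩) .k .k) (.R ⟨1,false,false,true,[0,0,0,0,1],[0,1],[0,1],(⟨0,[(27,0)]⟩,
  ⟨0,[(26,0)]⟩),(⟨0,[(38,0)]⟩,⟨0,[(37,0)]⟩),⟨0,[(2,0)]⟩,.k,.k,(.r (-1) ⟨3,[(19,1),(4,0),(0,0),(20,
  0)]⟩ ⟨3,[(10,0),(13,0),(0,0),(15,1),(6,1)]⟩),(.r (-1) ⟨3,[(19,1),(4,0),(0,0),(20,0)]⟩ ⟨3,[(10,0),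
  (13,0),(0,0),(15,1),(6,1)]⟩),(.r (-2) ⟨1,[(19,1),(4,0),(0,0),(20,0)]⟩ ⟨0,[(5,0),(25,0),(12,0)]⟩),
  .k,⟨true,1,⟨3,[(19,1),(4,0),(0,0),(20,0)]⟩,⟨0,[(5,0),(25,0)]⟩⟩,⟨false,2,⟨0,[(24,0),(20,0)]⟩,⟨0,
  [(0,0),(9,0),(31,0)]⟩⟩,⟨true,0,⟨0,[(48,0)]⟩,⟨0,[]⟩⟩,⟨false,1,⟨0,[(24,0),(19,0)]⟩,⟨0,[(0,0),(43,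
  0)]⟩⟩,⟨false,0,⟨0,[(5,0),(25,0),(10,1),(3,0)]⟩,⟨2,[(0,0),(2,0),(20,1),(21,0)]⟩⟩,⟨false,1,⟨0,[(24,
  0),(19,1)]⟩,⟨0,[(0,0)]⟩⟩,[.o ⟨false,0,⟨0,[(11,0)]⟩,⟨32,[(0,7),(2,8),(2,1),(11,1),(0,0),(4,16),(6,
  1),(4,0),(9,13)]⟩⟩,.a ⟨true,0,⟨0,[(44,0)]⟩,⟨6,[(6,1),(2,0),(3,0),(14,4),(2,6),(14,0)]⟩⟩ ⟨false,1,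
  ⟨1,[(24,0),(0,0),(19,0)]⟩,⟨0,[]⟩⟩ ⟨true,1,⟨0,[(24,0),(19,0)]⟩,⟨0,[(0,0),(4,0),(25,0),(10,0)]⟩⟩,.o
  ⟨false,0,⟨6,[(0,1),(0,4),(8,0),(29,0),(1,1),(1,1)]⟩,⟨0,[(24,0)]⟩⟩,.e ⟨true,0,⟨0,[(42,0)]⟩,⟨1,[(31,
  0),(0,0)]⟩⟩ ⟨true,1,⟨0,[(24,0),(17,0),(1,0)]⟩,⟨0,[(0,0),(4,0),(25,0),(10,0)]⟩⟩]⟩) (.Q [0,0,-1,0,1,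
  0,0,0,-1,0,0,-1] (.p false [0,0,0,0,1] [] (⟨0,[(27,0)]⟩,⟨0,[(26,0)]⟩) .k 0 (⟨0,[]⟩,⟨0,[]⟩) .k .k)
  (.Q [1,-1,0,0,0,0,0,0,1,0,0,1] (.p true [0,0,0,0,1] [] (⟨0,[(28,0)]⟩,⟨0,[(27,0)]⟩) .k 0 (⟨0,[]⟩,
  ⟨0,[]⟩) .k .k) (.R ⟨2,true,false,false,[0,1],[0,0,0,0,1],[1,0,1],(⟨0,[]⟩,⟨0,[]⟩),(⟨0,[(29,0)]⟩,⟨0,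
  [(28,0)]⟩),⟨0,[]⟩,.k,.k,.k,(.r 0 ⟨4,[(2,0),(9,0),(13,0),(0,1),(15,0),(5,1)]⟩ ⟨3,[(21,1),(4,0),(0,
  0),(20,0)]⟩),.k,.k,⟨true,0,⟨1,[(33,0),(0,0)]⟩,⟨0,[]⟩⟩,⟨false,0,⟨0,[(27,0)]⟩,⟨0,[(1,0)]⟩⟩,⟨false,1,
  ⟨8,[(5,0),(2,1),(11,1),(0,0),(4,0),(6,1),(4,0),(9,5)]⟩,⟨0,[(46,0)]⟩⟩,⟨true,0,⟨0,[(5,0)]⟩,⟨0,[(1,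
  0),(5,0),(25,0),(10,0)]⟩⟩,⟨true,0,⟨0,[]⟩,⟨0,[(50,0)]⟩⟩,⟨false,0,⟨0,[(0,0)]⟩,⟨1,[(1,0),(24,0),(22,
  0)]⟩⟩,[]⟩) (.R ⟨1,false,false,false,[0,0,1],[0,0,0,0,1],[0,1,0,0,0,0,0,1],(⟨0,[(36,0)]⟩,⟨0,[(35,
  0)]⟩),(⟨0,[(29,0)]⟩,⟨0,[(28,0)]⟩),⟨0,[(25,0)]⟩,.k,.k,.k,.k,(.r 0 ⟨0,[(7,0),(3,0),(21,0),(10,0),(3,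
  0)]⟩ ⟨3,[(2,1),(23,0),(0,2),(4,3),(0,3),(14,2)]⟩),.k,⟨true,(-1),⟨0,[(7,1),(3,0),(21,1),(10,1),(3,
  0)]⟩,⟨0,[(32,0),(0,0),(14,0)]⟩⟩,⟨false,0,⟨20,[(3,20),(2,1),(0,1),(0,0),(8,0),(7,1),(4,17),(6,5),
  (9,1)]⟩,⟨0,[(1,0),(31,0)]⟩⟩,⟨true,0,⟨0,[(50,0)]⟩,⟨0,[]⟩⟩,⟨true,0,⟨0,[(3,0),(6,0),(35,0)]⟩,⟨0,[(0,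
  0),(16,0),(15,0)]⟩⟩,⟨false,0,⟨0,[(46,0)]⟩,⟨8,[(5,0),(2,1),(11,1),(0,0),(4,0),(6,1),(4,0),(9,5)]⟩⟩,
  ⟨true,0,⟨0,[(3,0),(6,0),(35,1)]⟩,⟨4,[(0,2),(0,1),(9,0),(3,2),(1,0),(15,4),(14,0)]⟩⟩,[.o ⟨false,0,
  ⟨0,[(3,0)]⟩,⟨3,[(0,0),(25,2),(21,0),(1,0)]⟩⟩,.o ⟨false,1,⟨1,[(27,1),(10,0),(9,0)]⟩,⟨0,[(0,0)]⟩⟩,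
  .o ⟨false,1,⟨1,[(33,1),(4,0),(8,0)]⟩,⟨0,[(22,0)]⟩⟩,.a ⟨true,0,⟨0,[(33,0)]⟩,⟨0,[(30,0)]⟩⟩ ⟨false,0,
  ⟨0,[(17,0)]⟩,⟨0,[(32,0),(0,0),(14,0)]⟩⟩ ⟨true,0,⟨0,[(3,0),(26,0)]⟩,⟨0,[(0,0),(32,0)]⟩⟩]⟩)) (.S ⟨1,
  0,[1],[0,0,0,0,1],[1,0,1],(⟨0,[(28,0)]⟩,⟨0,[(27,0)]⟩),⟨0,[(3,0)]⟩,.k,(.r (-1) ⟨3,[(20,1),(4,0),(0,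
  0),(20,0)]⟩ ⟨4,[(1,0),(9,0),(13,0),(0,1),(15,0),(5,1)]⟩),⟨true,0,⟨1,[(32,0),(0,0)]⟩,⟨0,[(43,0)]⟩⟩,
  ⟨false,1,⟨1,[(25,0),(0,0),(20,0)]⟩,⟨0,[]⟩⟩,⟨false,0,⟨1,[(11,0),(35,0)]⟩,⟨3,[(20,1),(4,0),(0,0),
  (20,0)]⟩⟩,⟨true,0,⟨0,[(45,0)]⟩,⟨0,[(44,0)]⟩⟩,[.o ⟨false,0,⟨0,[(2,0)]⟩,⟨99,[(1,13),(3,5),(1,7),(2,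
  3),(3,3),(9,5),(0,85),(6,7),(3,17),(4,6),(5,10)]⟩⟩,.e ⟨false,1,⟨1,[(25,0),(0,0),(20,0)]⟩,⟨0,[(43,
  0)]⟩⟩ ⟨false,1,⟨1,[(46,0),(0,0)]⟩,⟨0,[(49,0)]⟩⟩,.o ⟨false,0,⟨5,[(0,1),(1,3),(38,0),(4,0)]⟩,⟨0,
  [(25,0)]⟩⟩,.a ⟨true,(-1),⟨0,[(0,0)]⟩,⟨3,[(1,3),(5,1),(2,1),(18,1),(2,3),(13,0),(0,2)]⟩⟩ ⟨true,0,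
  ⟨0,[]⟩,⟨0,[(49,0)]⟩⟩ ⟨false,1,⟨1,[(46,0),(0,0)]⟩,⟨1,[(32,0),(0,0)]⟩⟩]⟩)))) (.Q [0,0,1,-1,-1,0,0,0,
  1,0,0,1] (.p true [0,0,0,0,1] [] (⟨0,[(25,0)]⟩,⟨0,[(24,0)]⟩) .k 0 (⟨0,[]⟩,⟨0,[]⟩) .k .k) (.R ⟨0,
  false,false,true,[0,0,0,0,1],[0,1],[0,1],(⟨0,[(26,0)]⟩,⟨0,[(25,0)]⟩),(⟨0,[(37,0)]⟩,⟨0,[(36,0)]⟩),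
  ⟨0,[(1,0)]⟩,.k,.k,(.r (-1) ⟨3,[(18,1),(4,0),(0,0),(20,0)]⟩ ⟨3,[(9,0),(13,0),(0,0),(15,1),(6,1)]⟩),
  (.r (-1) ⟨3,[(18,1),(4,0),(0,0),(20,0)]⟩ ⟨3,[(9,0),(13,0),(0,0),(15,1),(6,1)]⟩),.k,.k,⟨true,1,⟨3,
  [(18,1),(4,0),(0,0),(20,0)]⟩,⟨0,[(4,0),(25,0)]⟩⟩,⟨false,2,⟨0,[(23,0),(20,0)]⟩,⟨0,[(0,0),(42,0)]⟩⟩,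
  ⟨true,0,⟨0,[(47,0)]⟩,⟨0,[]⟩⟩,⟨false,1,⟨0,[(23,0),(19,0)]⟩,⟨1,[(0,1),(43,0),(0,0)]⟩⟩,⟨false,0,⟨0,
  []⟩,⟨0,[]⟩⟩,⟨false,0,⟨0,[]⟩,⟨0,[]⟩⟩,[.o ⟨false,0,⟨0,[(10,0)]⟩,⟨8,[(2,0),(2,1),(11,1),(0,0),(4,0),
  (6,1),(4,0),(9,5)]⟩⟩,.a ⟨true,0,⟨0,[(43,0)]⟩,⟨6,[(5,1),(2,0),(3,0),(14,4),(2,6),(14,0)]⟩⟩ ⟨false,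
  1,⟨1,[(23,0),(0,0),(19,0)]⟩,⟨0,[]⟩⟩ ⟨true,1,⟨0,[(23,0),(19,0)]⟩,⟨0,[(0,0)]⟩⟩,.o ⟨false,0,⟨1,[(0,
  1),(9,1),(33,0),(0,0)]⟩,⟨0,[(23,0)]⟩⟩,.e ⟨true,0,⟨0,[(41,0)]⟩,⟨1,[(30,0),(0,0)]⟩⟩ ⟨true,1,⟨0,[(23,
  0),(17,0),(1,0)]⟩,⟨0,[(0,0)]⟩⟩]⟩) (.Q [0,0,2,0,0,0,1,0,-1,0,1,-1] (.p true [0,0,1] [0,0,0,0,1]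
  (⟨0,[(33,0)]⟩,⟨0,[(32,0)]⟩) .k 2 (⟨0,[(26,0)]⟩,⟨0,[(25,0)]⟩) .k (.r 0 ⟨1,[(4,11),(0,1),(2,3),(21,
  13),(8,0),(1,17),(3,10)]⟩ ⟨1,[(29,1),(0,1),(13,0),(0,0)]⟩)) (.Q [-1,0,0,0,0,0,0,0,-1,1,0,-1] (.p
  false [0,0,0,0,1] [1] (⟨0,[(27,0)]⟩,⟨0,[(26,0)]⟩) .k 1 (⟨0,[]⟩,⟨0,[]⟩) .k .k) (.Q [-1,0,0,1,0,0,1,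
  1,-1,0,1,-1] (.p true [0,0,1] [0,0,0,0,1] (⟨0,[(35,0)]⟩,⟨0,[(34,0)]⟩) .k 2 (⟨0,[(28,0)]⟩,⟨0,[(27,
  0)]⟩) .k (.r 0 ⟨1,[(6,11),(0,1),(2,3),(21,13),(8,0),(1,17),(3,10)]⟩ ⟨1,[(31,1),(0,1),(13,0),(0,
  0)]⟩)) (.S ⟨1,0,[-1,1],[1,0,0,0,-1],[-1],(⟨0,[(28,0)]⟩,⟨0,[(29,0)]⟩),⟨1,[(4,0),(1,0),(18,0),(2,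
  0)]⟩,.k,(.r (-1) ⟨9,[(21,4),(4,1),(0,1),(20,2),(1,0)]⟩ ⟨1,[(12,0),(13,0),(0,0)]⟩),⟨false,1,⟨1,
  [(26,0),(0,0),(20,0)]⟩,⟨0,[]⟩⟩,⟨true,0,⟨0,[(50,0)]⟩,⟨0,[]⟩⟩,⟨true,0,⟨0,[(46,0)]⟩,⟨0,[(45,0)]⟩⟩,
  ⟨false,0,⟨0,[(46,0)]⟩,⟨13,[(2,1),(2,3),(2,1),(11,1),(0,1),(4,1),(11,0),(9,8)]⟩⟩,[.o ⟨false,0,⟨0,
  [(0,0),(13,0)]⟩,⟨1,[(27,1),(10,0),(9,0)]⟩⟩,.e ⟨false,1,⟨0,[(44,0),(3,0)]⟩,⟨0,[(50,0)]⟩⟩ ⟨false,1,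
  ⟨9,[(26,3),(0,3),(19,4),(0,0),(1,1)]⟩,⟨0,[]⟩⟩,.a ⟨true,0,⟨0,[(1,0)]⟩,⟨0,[(27,0)]⟩⟩ ⟨false,1,⟨4,
  [(26,1),(0,1),(20,2),(1,0)]⟩,⟨0,[]⟩⟩ ⟨true,0,⟨0,[(50,0)]⟩,⟨0,[]⟩⟩,.o ⟨false,0,⟨2,[(0,0),(0,0),(0,
  0),(4,0),(0,0),(29,0)]⟩,⟨1,[(27,1),(10,0),(8,0)]⟩⟩]⟩) (.R ⟨0,false,false,false,[0,0,0,0,1],[0,1],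
  [0,1],(⟨0,[(29,0)]⟩,⟨0,[(28,0)]⟩),(⟨0,[(40,0)]⟩,⟨0,[(39,0)]⟩),⟨0,[(4,0)]⟩,.k,.k,(.r (-1) ⟨3,[(21,
  1),(4,0),(0,0),(20,0)]⟩ ⟨7,[(3,1),(8,2),(13,0),(0,2),(21,3)]⟩),(.r (-1) ⟨3,[(21,1),(4,0),(0,0),
  (20,0)]⟩ ⟨7,[(3,1),(8,2),(13,0),(0,2),(21,3)]⟩),.k,.k,⟨false,1,⟨7,[(21,3),(4,0),(0,0),(13,1),(5,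
  2)]⟩,⟨0,[(43,0)]⟩⟩,⟨true,1,⟨1,[(1,1),(36,0),(8,0)]⟩,⟨4,[(0,3),(11,2),(2,3),(11,0),(5,3),(12,1),(1,
  1)]⟩⟩,⟨true,0,⟨0,[(50,0)]⟩,⟨0,[]⟩⟩,⟨false,1,⟨19,[(1,3),(0,2),(0,12),(3,2),(4,1),(29,1),(5,9)]⟩,⟨0,
  [(5,0)]⟩⟩,⟨false,0,⟨0,[]⟩,⟨0,[]⟩⟩,⟨false,0,⟨0,[]⟩,⟨0,[]⟩⟩,[.e ⟨false,0,⟨0,[(44,0)]⟩,⟨1,[(26,0),(0,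
  0),(20,0)]⟩⟩ ⟨false,1,⟨0,[(3,0)]⟩,⟨6,[(0,2),(10,0),(3,1),(11,3),(5,2),(10,0),(3,1)]⟩⟩,.o ⟨false,1,
  ⟨0,[(13,0),(34,0)]⟩,⟨0,[(45,0)]⟩⟩,.a ⟨true,0,⟨0,[(27,0)]⟩,⟨0,[(1,0)]⟩⟩ ⟨true,0,⟨0,[(50,0)]⟩,⟨0,
  []⟩⟩ ⟨false,1,⟨3,[(2,0),(0,2),(3,0),(40,1)]⟩,⟨6,[(0,2),(10,0),(3,1),(11,3),(5,2),(10,0),(3,1)]⟩⟩,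
  .o ⟨false,0,⟨5,[(5,5),(6,2),(25,0),(3,1)]⟩,⟨1,[(1,1),(36,0),(8,0)]⟩⟩]⟩)) (.Q [-1,-1,0,0,1,0,0,0,
  -1,0,0,-1] (.p false [0,0,0,0,1] [] (⟨0,[(28,0)]⟩,⟨0,[(27,0)]⟩) .k 0 (⟨0,[]⟩,⟨0,[]⟩) .k .k) (.R
  ⟨1,false,false,true,[0,0,1],[0,0,0,0,1],[0,0,0,0,0,0,0,1],(⟨0,[(36,0)]⟩,⟨0,[(35,0)]⟩),(⟨0,[(29,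
  0)]⟩,⟨0,[(28,0)]⟩),⟨0,[(25,0)]⟩,.k,.k,.k,.k,(.r 0 ⟨0,[(7,0),(3,0),(21,0),(10,0),(3,0)]⟩ ⟨3,[(3,1),
  (22,0),(0,2),(4,3),(0,3),(9,1),(4,0)]⟩),.k,⟨true,0,⟨3,[(12,0),(2,1),(1,1),(30,2)]⟩,⟨0,[(32,0),(0,
  0)]⟩⟩,⟨false,0,⟨20,[(1,20),(4,1),(0,1),(0,0),(8,0),(7,1),(4,17),(6,5),(9,1)]⟩,⟨0,[(2,0),(44,0)]⟩⟩,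
  ⟨false,1,⟨1,[(26,0),(0,0),(20,0)]⟩,⟨0,[]⟩⟩,⟨false,0,⟨0,[(1,0),(8,0),(35,0)]⟩,⟨0,[(0,0),(16,0),(15,
  0)]⟩⟩,⟨true,0,⟨0,[(46,0)]⟩,⟨0,[(45,0)]⟩⟩,⟨false,0,⟨0,[(1,0),(8,0),(35,1)]⟩,⟨1,[(0,0),(1,0),(8,0),
  (5,0),(15,0),(14,0)]⟩⟩,[.o ⟨false,0,⟨0,[(5,0),(7,0)]⟩,⟨0,[(0,0)]⟩⟩,.o ⟨false,0,⟨0,[(1,0)]⟩,⟨2,[(0,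
  0),(25,1),(23,0)]⟩⟩,.o ⟨false,1,⟨1,[(33,1),(4,0),(8,0)]⟩,⟨0,[(22,0)]⟩⟩,.a ⟨true,0,⟨0,[(33,0)]⟩,⟨0,
  [(30,0)]⟩⟩ ⟨true,0,⟨0,[(17,0)]⟩,⟨0,[(32,0),(0,0)]⟩⟩ ⟨false,0,⟨0,[(1,0),(28,0)]⟩,⟨0,[(0,0),(32,
  0)]⟩⟩]⟩) (.R ⟨1,false,false,false,[1,0,0,0,-1],[0,1],[-1],(⟨0,[(28,0)]⟩,⟨0,[(29,0)]⟩),(⟨0,[(40,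
  0)]⟩,⟨0,[(39,0)]⟩),⟨1,[(4,0),(1,0),(18,0),(2,0)]⟩,.k,.k,(.r (-1) ⟨9,[(21,4),(4,1),(0,1),(20,2),(1,
  0)]⟩ ⟨1,[(12,0),(13,0),(0,0)]⟩),(.r (-1) ⟨9,[(21,4),(4,1),(0,1),(20,2),(1,0)]⟩ ⟨1,[(12,0),(13,0),
  (0,0)]⟩),(.r (-2) ⟨1,[(21,1),(4,0),(0,0),(20,0)]⟩ ⟨0,[(12,0)]⟩),.k,⟨true,1,⟨9,[(21,4),(4,1),(0,1),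
  (20,2),(1,0)]⟩,⟨1,[(0,0),(1,0),(4,0),(35,0)]⟩⟩,⟨false,1,⟨0,[(1,0),(45,0)]⟩,⟨0,[(2,0),(27,0)]⟩⟩,
  ⟨false,1,⟨1,[(26,0),(0,0),(20,0)]⟩,⟨0,[]⟩⟩,⟨true,0,⟨0,[(1,0),(44,0)]⟩,⟨9,[(2,8),(0,0),(4,2),(2,1),
  (3,0),(14,5),(6,0),(1,0),(4,6)]⟩⟩,⟨true,0,⟨0,[(46,0)]⟩,⟨0,[(45,0)]⟩⟩,⟨true,0,⟨0,[(1,0),(44,1)]⟩,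
  ⟨4,[(2,3),(0,0),(4,2),(2,1),(3,0),(14,0),(6,0),(1,0),(4,1)]⟩⟩,[.a ⟨true,0,⟨0,[(46,0)]⟩,⟨6,[(8,1),
  (2,0),(3,0),(14,4),(2,6),(14,0)]⟩⟩ ⟨false,1,⟨9,[(26,3),(0,3),(19,4),(0,0),(1,1)]⟩,⟨0,[]⟩⟩ ⟨true,0,
  ⟨0,[(1,0),(44,0)]⟩,⟨6,[(2,6),(5,1),(2,0),(3,0),(14,4),(17,0)]⟩⟩,.o ⟨false,1,⟨0,[(13,0),(34,0)]⟩,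
  ⟨0,[(45,0)]⟩⟩,.o ⟨false,1,⟨0,[(26,0)]⟩,⟨3,[(0,1),(0,1),(40,0),(5,0)]⟩⟩,.e ⟨false,1,⟨0,[(44,0),(3,
  0)]⟩,⟨1,[(33,0),(0,0)]⟩⟩ ⟨false,1,⟨1,[(1,1),(44,1),(0,0),(0,0)]⟩,⟨6,[(2,6),(5,1),(2,0),(3,0),(14,
  4),(17,0)]⟩⟩]⟩))) (.Q [0,0,1,0,0,0,1,0,1,-1,1,1] (.p true [0,0,1] [1,0,0,0,-1] (⟨0,[(34,0)]⟩,⟨0,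
  [(33,0)]⟩) .k 2 (⟨0,[(26,0)]⟩,⟨0,[(27,0)]⟩) .k (.r 0 ⟨0,[(16,0)]⟩ ⟨1,[(30,1),(0,1),(13,0),(0,
  0)]⟩)) (.Q [1,1,0,0,-1,0,0,0,1,0,0,1] (.p true [0,0,0,0,1] [] (⟨0,[(28,0)]⟩,⟨0,[(27,0)]⟩) .k 0
  (⟨0,[]⟩,⟨0,[]⟩) .k .k) (.R ⟨1,false,false,false,[1,0,0,0,-1],[0,-1,1],[-1],(⟨0,[(28,0)]⟩,⟨0,[(29,
  0)]⟩),(⟨0,[(25,0)]⟩,⟨0,[(35,0),(4,0)]⟩),⟨1,[(4,0),(1,0),(18,0),(2,0)]⟩,.k,.k,(.r (-1) ⟨9,[(21,4),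
  (4,1),(0,1),(20,2),(1,0)]⟩ ⟨1,[(12,0),(13,0),(0,0)]⟩),(.r (-1) ⟨2,[(1,0),(1,2),(5,0),(17,1),(4,1),
  (0,1),(14,0),(0,0)]⟩ ⟨2,[(11,0),(3,0),(1,0),(30,0)]⟩),.k,.k,⟨false,1,⟨0,[(1,0),(1,0),(6,0),(35,
  0)]⟩,⟨2,[(11,0),(3,0),(1,0),(30,0)]⟩⟩,⟨true,0,⟨0,[(1,0)]⟩,⟨7,[(3,7),(4,0),(0,4),(5,5),(14,1),(17,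
  2)]⟩⟩,⟨false,1,⟨1,[(26,0),(0,0),(20,0)]⟩,⟨0,[]⟩⟩,⟨true,0,⟨2,[(1,2),(9,0),(3,0),(1,0),(30,0)]⟩,⟨0,
  [(3,0),(5,0),(34,0)]⟩⟩,⟨true,0,⟨0,[(46,0)]⟩,⟨0,[(45,0)]⟩⟩,⟨true,0,⟨0,[(1,0),(15,0)]⟩,⟨0,[(3,0),(3,
  0),(0,0),(24,0),(10,0)]⟩⟩,[.a ⟨true,0,⟨2,[(11,0),(3,0),(1,0),(15,2),(14,0)]⟩,⟨0,[(10,0),(35,1)]⟩⟩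
  ⟨false,1,⟨9,[(26,3),(0,3),(19,4),(0,0),(1,1)]⟩,⟨0,[]⟩⟩ ⟨true,0,⟨2,[(1,2),(9,0),(3,0),(1,0),(30,
  0)]⟩,⟨0,[(3,0),(5,0)]⟩⟩,.o ⟨false,1,⟨5,[(11,1),(3,1),(1,1),(15,5),(4,2),(9,4)]⟩,⟨0,[(32,0),(13,
  0)]⟩⟩,.o ⟨false,1,⟨0,[(26,0)]⟩,⟨5,[(0,5),(37,1),(3,0),(5,2)]⟩⟩,.e ⟨false,1,⟨0,[(44,0),(3,0)]⟩,⟨1,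
  [(33,0),(0,0)]⟩⟩ ⟨false,1,⟨3,[(1,3),(9,1),(5,1),(29,0),(0,2)]⟩,⟨0,[(3,0),(5,0)]⟩⟩]⟩) (.Q [1,0,0,0,
  0,0,0,0,1,-1,0,1] (.p true [0,0,0,0,1] [1] (⟨0,[(29,0)]⟩,⟨0,[(28,0)]⟩) .k 1 (⟨0,[]⟩,⟨0,[]⟩) .k
  .k) (.R ⟨1,false,false,false,[0,0,1],[1,0,0,0,-1],[0,0,0,0,0,0,0,1],(⟨0,[(37,0)]⟩,⟨0,[(36,0)]⟩),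
  (⟨0,[(29,0)]⟩,⟨0,[(30,0)]⟩),⟨0,[(26,0)]⟩,.k,.k,.k,.k,(.r 0 ⟨2,[(12,0),(3,0),(1,0),(30,0)]⟩ ⟨2,[(2,
  0),(1,2),(5,0),(17,1),(4,1),(0,1),(14,0),(0,0)]⟩),.k,⟨false,0,⟨0,[(18,0)]⟩,⟨0,[(2,0),(1,0),(6,
  0)]⟩⟩,⟨true,0,⟨1,[(1,0),(2,0),(5,0),(5,0),(14,0)]⟩,⟨0,[(2,0)]⟩⟩,⟨false,1,⟨1,[(27,0),(0,0),(20,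
  0)]⟩,⟨0,[]⟩⟩,⟨false,1,⟨3,[(1,1),(2,1),(5,0),(0,2),(35,0),(1,0)]⟩,⟨0,[(2,0),(15,0)]⟩⟩,⟨true,0,⟨0,
  [(47,0)]⟩,⟨0,[(46,0)]⟩⟩,⟨false,1,⟨1,[(4,1),(5,0),(0,0),(35,0),(1,0)]⟩,⟨2,[(2,2),(9,0),(3,0),(1,0),
  (30,0)]⟩⟩,[.o ⟨false,1,⟨2,[(1,0),(25,1),(23,0)]⟩,⟨0,[(0,0)]⟩⟩,.o ⟨false,1,⟨0,[(1,0)]⟩,⟨13,[(0,8),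
  (1,4),(11,1),(0,0),(5,0),(2,1),(17,4)]⟩⟩,.o ⟨false,1,⟨1,[(34,1),(4,0),(8,0)]⟩,⟨0,[(23,0)]⟩⟩,.a
  ⟨true,0,⟨0,[(34,0)]⟩,⟨0,[(31,0)]⟩⟩ ⟨true,0,⟨0,[(18,0)]⟩,⟨0,[(33,0),(0,0)]⟩⟩ ⟨false,1,⟨0,[(1,0),
  (29,0)]⟩,⟨0,[(2,0)]⟩⟩]⟩) (.R ⟨2,true,false,true,[0,1],[1,0,0,0,-1],[0,0,1,1],(⟨0,[]⟩,⟨0,[]⟩),(⟨0,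
  [(29,0)]⟩,⟨0,[(30,0)]⟩),⟨0,[]⟩,.k,.k,.k,(.r 0 ⟨1,[(13,0),(13,0),(0,0)]⟩ ⟨9,[(22,4),(4,1),(0,1),
  (20,2),(1,0)]⟩),.k,.k,⟨true,0,⟨0,[(44,0)]⟩,⟨0,[(46,0)]⟩⟩,⟨false,0,⟨0,[(0,0)]⟩,⟨1,[(28,1),(10,0),
  (8,0)]⟩⟩,⟨false,1,⟨1,[(27,0),(0,0),(20,0)]⟩,⟨0,[]⟩⟩,⟨true,0,⟨0,[(0,0),(45,0)]⟩,⟨1,[(2,0),(0,0),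
  (10,0),(29,0)]⟩⟩,⟨true,0,⟨0,[(47,0)]⟩,⟨0,[(46,0)]⟩⟩,⟨false,0,⟨0,[(0,0)]⟩,⟨1,[(28,1),(10,0),(9,
  0)]⟩⟩,[]⟩))) (.R ⟨0,false,false,false,[0,0,0,0,1],[0,1],[0,1],(⟨0,[(28,0)]⟩,⟨0,[(27,0)]⟩),(⟨0,
  [(39,0)]⟩,⟨0,[(38,0)]⟩),⟨0,[(3,0)]⟩,.k,.k,(.r (-1) ⟨3,[(20,1),(4,0),(0,0),(20,0)]⟩ ⟨7,[(2,1),(8,
  2),(13,0),(0,2),(21,3)]⟩),(.r (-1) ⟨3,[(20,1),(4,0),(0,0),(20,0)]⟩ ⟨7,[(2,1),(8,2),(13,0),(0,2),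
  (21,3)]⟩),.k,.k,⟨false,1,⟨7,[(20,3),(4,0),(0,0),(13,1),(5,2)]⟩,⟨0,[(42,0)]⟩⟩,⟨true,1,⟨1,[(0,1),
  (31,1),(4,0),(8,0)]⟩,⟨5,[(1,1),(2,3),(1,1),(1,1),(2,1),(2,1),(17,5),(8,0),(5,0)]⟩⟩,⟨true,0,⟨0,
  [(49,0)]⟩,⟨0,[]⟩⟩,⟨false,1,⟨3,[(0,1),(1,1),(29,1),(8,0),(0,1),(4,0)]⟩,⟨0,[(4,0)]⟩⟩,⟨false,0,⟨0,
  []⟩,⟨0,[]⟩⟩,⟨false,0,⟨0,[]⟩,⟨0,[]⟩⟩,[.e ⟨false,0,⟨0,[(43,0)]⟩,⟨1,[(25,0),(0,0),(20,0)]⟩⟩ ⟨false,1,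
  ⟨0,[(2,0)]⟩,⟨28,[(1,3),(2,24),(0,1),(1,0),(0,0),(5,1),(9,1),(7,5),(3,5),(4,1),(5,0)]⟩⟩,.o ⟨false,
  1,⟨0,[(12,0),(34,0)]⟩,⟨0,[(44,0)]⟩⟩,.a ⟨true,0,⟨0,[(26,0)]⟩,⟨0,[(0,0),(31,0)]⟩⟩ ⟨true,0,⟨0,[(49,
  0)]⟩,⟨0,[]⟩⟩ ⟨false,1,⟨3,[(0,1),(1,1),(29,1),(4,0),(4,1),(4,0)]⟩,⟨28,[(1,3),(2,24),(0,1),(1,0),(0,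
  0),(5,1),(9,1),(7,5),(3,5),(4,1),(5,0)]⟩⟩,.o ⟨false,0,⟨5,[(4,5),(6,2),(25,0),(3,1)]⟩,⟨1,[(0,1),
  (31,1),(4,0),(8,0)]⟩⟩]⟩))))))))

theorem ok41 : chk K t41 r30 = true := by decide +kernel

noncomputable def t43 : Tre :=
  (.R ⟨1,true,false,false,[1,0,-1],[0,1],[0,1,0,0,0,0,0,-1],(⟨0,[(26,0)]⟩,⟨0,[(27,0)]⟩),(⟨0,[(31,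
  0)]⟩,⟨0,[(30,0)]⟩),⟨0,[(15,0)]⟩,.k,.k,.k,.k,(.r (-2) ⟨1,[(0,1),(0,3),(22,1),(4,0),(8,0)]⟩ ⟨1,[(3,
  2),(2,1),(8,1),(0,1),(11,3),(4,0),(1,1),(3,1)]⟩),.k,⟨true,1,⟨0,[(5,0),(18,0),(13,0)]⟩,⟨0,[(6,0),
  (27,1)]⟩⟩,⟨false,2,⟨1,[(24,1),(4,0),(8,2)]⟩,⟨2,[(1,1),(1,0),(2,1),(14,0),(12,1)]⟩⟩,⟨true,0,⟨0,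
  [(41,0)]⟩,⟨0,[]⟩⟩,⟨false,1,⟨3,[(0,1),(21,1),(6,0),(4,3),(4,0)]⟩,⟨0,[(1,0)]⟩⟩,⟨false,0,⟨0,[(37,
  0)]⟩,⟨0,[(36,0),(2,0)]⟩⟩,⟨true,0,⟨0,[(0,0),(2,0)]⟩,⟨0,[(1,0),(34,0)]⟩⟩,[]⟩)

theorem ok43 : chk K t43 r29 = true := by decide +kernel

noncomputable def t45 : Tre :=
  (.Q [0,0,1,0,-1,0,-1,0,0,1,-1] (.p false [0,0,1] [1] (⟨0,[(26,0)]⟩,⟨0,[(25,0)]⟩) .k 1 (⟨0,[]⟩,⟨0,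
  []⟩) .k .k) (.S ⟨1,0,[0,0,1,1,0,0,0,1],[0,1,1],[1,1,1,0,0,0,0,1],(⟨0,[(27,0),(3,0)]⟩,⟨0,[(15,
  0)]⟩),⟨0,[(27,0)]⟩,.k,.k,⟨true,0,⟨0,[(36,0)]⟩,⟨0,[(37,0)]⟩⟩,⟨false,1,⟨1,[(17,0),(0,0),(20,0)]⟩,⟨0,
  []⟩⟩,⟨false,0,⟨0,[]⟩,⟨1,[(17,0),(0,0),(20,0)]⟩⟩,⟨true,0,⟨0,[(37,0)]⟩,⟨0,[(36,0)]⟩⟩,[.o ⟨false,0,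
  ⟨0,[(1,0)]⟩,⟨1,[(5,1),(11,0),(0,0),(20,0)]⟩⟩,.o ⟨false,1,⟨1,[(1,0),(2,0),(17,0),(16,1)]⟩,⟨0,[(5,
  0)]⟩⟩,.a ⟨true,1,⟨0,[(24,0),(13,0)]⟩,⟨0,[(0,0)]⟩⟩ ⟨false,(-1),⟨0,[(6,0),(27,0)]⟩,⟨0,[(23,0),(0,0),
  (13,0),(0,0)]⟩⟩ ⟨true,(-1),⟨0,[(0,0),(0,0)]⟩,⟨0,[(5,0),(18,0),(13,0)]⟩⟩,.o ⟨false,1,⟨1,[(24,1),(4,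
  0),(8,0)]⟩,⟨0,[(13,0)]⟩⟩]⟩) (.S ⟨1,0,[0,0,0,0,0,0,0,1],[0,0,1],[1,1,0,-1,0,0,0,1],(⟨0,[(27,0)]⟩,
  ⟨0,[(26,0)]⟩),⟨0,[(16,0)]⟩,.k,.k,⟨true,0,⟨0,[(36,0)]⟩,⟨0,[(37,0)]⟩⟩,⟨false,1,⟨1,[(17,0),(0,0),(20,
  0)]⟩,⟨0,[]⟩⟩,⟨false,0,⟨0,[]⟩,⟨1,[(17,0),(0,0),(20,0)]⟩⟩,⟨true,0,⟨0,[(37,0)]⟩,⟨0,[(36,0)]⟩⟩,[.o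
  ⟨false,0,⟨0,[(0,0),(5,0),(27,0)]⟩,⟨1,[(17,0),(0,0),(4,1),(15,0)]⟩⟩,.o ⟨false,1,⟨3,[(1,1),(8,1),
  (18,0),(9,2)]⟩,⟨0,[(23,0)]⟩⟩,.o ⟨false,1,⟨3,[(0,1),(16,0),(0,0),(5,1),(4,0)]⟩,⟨0,[(13,0)]⟩⟩,.a
  ⟨true,0,⟨0,[(24,0)]⟩,⟨0,[(21,0)]⟩⟩ ⟨false,0,⟨2,[(2,0),(3,0),(1,0),(30,0)]⟩,⟨0,[(23,0),(0,0),(12,
  0),(1,0)]⟩⟩ ⟨true,0,⟨0,[(8,0)]⟩,⟨0,[(23,0),(0,0)]⟩⟩]⟩))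

theorem ok45 : chk K t45 r28 = true := by decide +kernel

noncomputable def t47 : Tre :=
  (.Q [0,0,0,2,0,0,-1,-1,0,0,-1] (.p false [0,0,1] [] (⟨0,[(25,0)]⟩,⟨0,[(24,0)]⟩) .k 0 (⟨0,[]⟩,⟨0,
  []⟩) .k .k) (.R ⟨1,true,false,false,[0,0,1],[0,1],[1,1,0,-1,0,0,0,1],(⟨0,[(26,0)]⟩,⟨0,[(25,0)]⟩),
  (⟨0,[(30,0)]⟩,⟨0,[(29,0)]⟩),⟨0,[(15,0)]⟩,.k,.k,.k,.k,(.r (-1) ⟨7,[(5,2),(1,3),(2,0),(0,5),(26,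
  4)]⟩ ⟨0,[(1,0),(38,0)]⟩),.k,⟨true,0,⟨3,[(5,2),(4,0),(0,1),(26,0)]⟩,⟨0,[(1,0)]⟩⟩,⟨false,1,⟨1,[(20,
  1),(7,0),(8,0)]⟩,⟨0,[(23,0)]⟩⟩,⟨true,0,⟨0,[(35,0)]⟩,⟨0,[(36,0)]⟩⟩,⟨false,1,⟨10,[(0,5),(0,3),(2,0),
  (6,3),(1,1),(14,0),(9,5)]⟩,⟨1,[(5,1),(17,1),(13,0),(0,0)]⟩⟩,⟨false,0,⟨0,[]⟩,⟨1,[(16,0),(0,0),(20,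
  0)]⟩⟩,⟨true,0,⟨0,[(0,0)]⟩,⟨2,[(5,1),(3,0),(1,0),(11,1),(11,0),(2,0)]⟩⟩,[]⟩) (.Q [0,0,0,1,0,0,1,1,
  0,-1,1] (.p true [0,0,1] [1] (⟨0,[(26,0)]⟩,⟨0,[(25,0)]⟩) .k 1 (⟨0,[]⟩,⟨0,[]⟩) .k .k) (.Q [0,0,1,0,
  -1,0,-1,0,0,1,-1] (.p false [0,0,1] [1] (⟨0,[(27,0)]⟩,⟨0,[(26,0)]⟩) .k 1 (⟨0,[]⟩,⟨0,[]⟩) .k .k)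
  (.S ⟨1,0,[0,0,1,1,0,0,0,1],[0,1,1],[1,1,1,0,0,0,0,1],(⟨0,[(28,0),(3,0)]⟩,⟨0,[(16,0)]⟩),⟨0,[(28,
  0)]⟩,.k,.k,⟨true,0,⟨0,[(37,0)]⟩,⟨0,[(38,0)]⟩⟩,⟨false,1,⟨1,[(18,0),(0,0),(20,0)]⟩,⟨0,[]⟩⟩,⟨false,0,
  ⟨0,[]⟩,⟨1,[(18,0),(0,0),(20,0)]⟩⟩,⟨true,0,⟨0,[(38,0)]⟩,⟨0,[(37,0)]⟩⟩,[.o ⟨false,0,⟨0,[(1,0)]⟩,⟨4,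
  [(3,1),(2,2),(6,2),(12,1),(13,1)]⟩⟩,.o ⟨false,1,⟨25,[(1,17),(1,3),(11,1),(7,11),(6,4),(8,3),(0,
  16)]⟩,⟨0,[(6,0)]⟩⟩,.a ⟨true,1,⟨0,[(25,0),(13,0)]⟩,⟨0,[(0,0)]⟩⟩ ⟨false,(-1),⟨0,[(7,0),(27,0)]⟩,⟨1,
  [(3,1),(9,1),(25,0),(0,0)]⟩⟩ ⟨true,(-1),⟨0,[(0,0),(0,0)]⟩,⟨0,[(6,0),(18,0),(13,0)]⟩⟩,.o ⟨false,1,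
  ⟨1,[(25,1),(4,0),(8,0)]⟩,⟨0,[(14,0)]⟩⟩]⟩) (.S ⟨1,0,[0,0,0,0,0,0,0,1],[0,0,1],[1,1,0,-1,0,0,0,1],
  (⟨0,[(28,0)]⟩,⟨0,[(27,0)]⟩),⟨0,[(17,0)]⟩,.k,.k,⟨true,0,⟨0,[(37,0)]⟩,⟨0,[(38,0)]⟩⟩,⟨false,1,⟨1,
  [(18,0),(0,0),(20,0)]⟩,⟨0,[]⟩⟩,⟨false,0,⟨0,[]⟩,⟨1,[(18,0),(0,0),(20,0)]⟩⟩,⟨true,0,⟨0,[(38,0)]⟩,⟨0,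
  [(37,0)]⟩⟩,[.o ⟨false,0,⟨2,[(0,1),(0,0),(1,0),(3,2),(32,0)]⟩,⟨5,[(3,3),(9,3),(1,1),(8,1),(5,0),(9,
  0)]⟩⟩,.o ⟨false,1,⟨9,[(1,3),(0,1),(20,3),(6,2),(9,6)]⟩,⟨0,[(24,0)]⟩⟩,.o ⟨false,1,⟨3,[(0,1),(17,0),
  (0,0),(5,1),(4,0)]⟩,⟨0,[(14,0)]⟩⟩,.a ⟨true,0,⟨0,[(25,0)]⟩,⟨0,[(22,0)]⟩⟩ ⟨false,0,⟨1,[(7,1),(31,0),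
  (0,0)]⟩,⟨3,[(3,3),(9,1),(4,0),(0,0),(20,0)]⟩⟩ ⟨true,0,⟨0,[(9,0)]⟩,⟨2,[(3,0),(2,1),(18,1),(7,
  0)]⟩⟩]⟩)) (.Q [0,0,0,2,0,0,1,1,0,-1,1] (.p true [0,0,1] [1] (⟨0,[(27,0)]⟩,⟨0,[(26,0)]⟩) .k 1 (⟨0,
  []⟩,⟨0,[]⟩) .k .k) (.I [0,0,-2,-2,2,0,0,-1] (.R ⟨1,true,false,false,[1,0,-1],[0,1],[0,1,0,0,0,0,0,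
  -1],(⟨0,[(28,0)]⟩,⟨0,[(29,0)]⟩),(⟨0,[(33,0)]⟩,⟨0,[(32,0)]⟩),⟨0,[(17,0)]⟩,.k,.k,.k,.k,(.r (-2) ⟨0,
  [(0,0)]⟩ ⟨1,[(2,1),(0,1),(0,11),(3,13),(26,0),(1,19),(3,10)]⟩),.k,⟨true,1,⟨5,[(0,2),(3,0),(2,1),
  (18,1),(7,0),(2,2)]⟩,⟨0,[(8,0),(27,1)]⟩⟩,⟨false,2,⟨0,[(0,0),(0,0)]⟩,⟨2,[(2,1),(2,0),(2,1),(14,0),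
  (12,1)]⟩⟩,⟨true,0,⟨0,[(43,0)]⟩,⟨0,[]⟩⟩,⟨false,1,⟨3,[(1,1),(22,1),(6,0),(9,2)]⟩,⟨0,[(2,0)]⟩⟩,
  ⟨false,0,⟨0,[(39,0)]⟩,⟨7,[(0,1),(2,1),(22,0),(0,2),(13,3)]⟩⟩,⟨true,0,⟨0,[(1,0)]⟩,⟨0,[(2,0),(35,
  0)]⟩⟩,[]⟩) (.Q [0,0,0,-1,0,0,2,2,0,-1,2] (.p true [0,0,1] [1,0,-1] (⟨0,[(29,0)]⟩,⟨0,[(28,0)]⟩) .k
  2 (⟨0,[(28,0)]⟩,⟨0,[(29,0)]⟩) .k (.r 1 ⟨2,[(0,0),(7,1),(1,1),(0,0),(29,0)]⟩ ⟨0,[(4,1),(9,1)]⟩))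
  (.R ⟨1,true,false,false,[0,0,1],[1,1,-1],[0,1,0,0,0,0,0,1],(⟨0,[(30,0)]⟩,⟨0,[(29,0)]⟩),(⟨0,[(29,
  0),(4,0)]⟩,⟨0,[(19,0)]⟩),⟨0,[(19,0)]⟩,.k,.k,.k,(.r 0 ⟨13,[(0,3),(3,3),(4,1),(1,13),(5,5),(14,0),
  (9,0)]⟩ ⟨0,[(5,0),(2,0),(18,0),(13,0)]⟩),(.r 0 ⟨0,[(9,1),(31,0),(0,0)]⟩ ⟨0,[(5,1),(9,0),(28,0)]⟩),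
  .k,⟨true,(-1),⟨0,[(9,0),(1,0)]⟩,⟨1,[(3,1),(1,1),(21,1),(4,0),(8,0)]⟩⟩,⟨false,0,⟨3,[(1,3),(1,5),(5,
  1),(14,1),(7,1),(8,6),(0,0)]⟩,⟨1,[(27,3),(4,0),(8,0)]⟩⟩,⟨true,0,⟨0,[(44,0)]⟩,⟨0,[]⟩⟩,⟨false,1,⟨2,
  [(3,0),(1,1),(18,1),(1,2),(14,0),(0,1)]⟩,⟨0,[(0,0)]⟩⟩,⟨false,0,⟨0,[(40,0)]⟩,⟨13,[(3,1),(0,1),(10,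
  3),(11,3),(0,3),(3,0),(9,8)]⟩⟩,⟨true,0,⟨0,[(1,0),(1,0),(1,0),(2,0),(32,1)]⟩,⟨0,[(0,0),(38,0)]⟩⟩,
  []⟩) (.R ⟨1,true,false,false,[0,0,1],[1,0,-1],[1,1,0,-1,0,0,0,1],(⟨0,[(30,0)]⟩,⟨0,[(29,0)]⟩),(⟨0,
  [(29,0)]⟩,⟨0,[(30,0)]⟩),⟨0,[(19,0)]⟩,.k,.k,.k,.k,(.r 0 ⟨9,[(4,3),(4,1),(1,9),(0,3),(4,1),(14,0),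
  (9,0)]⟩ ⟨1,[(0,1),(26,3),(4,0),(8,0)]⟩),.k,⟨false,(-1),⟨0,[(9,0),(1,0)]⟩,⟨1,[(0,1),(26,3),(4,0),
  (8,1),(0,0)]⟩⟩,⟨true,(-1),⟨4,[(0,3),(0,0),(7,5),(1,0),(4,0),(7,0),(17,2)]⟩,⟨1,[(27,3),(4,0),(8,
  0)]⟩⟩,⟨true,0,⟨0,[(39,0)]⟩,⟨0,[(40,0)]⟩⟩,⟨false,1,⟨29,[(0,19),(2,11),(1,7),(9,11),(12,7),(3,0),(9,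
  16)]⟩,⟨0,[(2,0),(1,0)]⟩⟩,⟨false,0,⟨0,[]⟩,⟨1,[(20,0),(0,0),(20,0)]⟩⟩,⟨true,0,⟨0,[(0,0)]⟩,⟨1,[(2,0),
  (1,1),(2,0),(5,0)]⟩⟩,[]⟩))) (.Q [0,0,0,0,0,-2,0,0,0,0,1] (.p true [0,0,1] [] (⟨0,[(28,0)]⟩,⟨0,
  [(27,0)]⟩) .k 0 (⟨0,[]⟩,⟨0,[]⟩) .k .k) (.Q [0,0,2,0,0,0,1,0,0,-1,1] (.p true [0,0,1] [1] (⟨0,[(29,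
  0)]⟩,⟨0,[(28,0)]⟩) .k 1 (⟨0,[]⟩,⟨0,[]⟩) .k .k) (.S ⟨1,0,[0,0,-1,-1,0,0,0,1],[0,-1,1],[1,0,1],(⟨0,
  [(19,0)]⟩,⟨0,[(29,0),(4,0)]⟩),⟨0,[(1,0)]⟩,.k,(.r (-1) ⟨19,[(4,3),(4,3),(1,11),(3,13),(1,1),(14,0),
  (9,8)]⟩ ⟨0,[(5,0),(38,0)]⟩),⟨true,0,⟨0,[(5,0),(33,0)]⟩,⟨0,[(9,0),(31,0)]⟩⟩,⟨false,1,⟨1,[(20,0),(0,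
  0),(20,0)]⟩,⟨0,[]⟩⟩,⟨false,0,⟨0,[(5,0)]⟩,⟨19,[(4,3),(4,3),(1,11),(3,13),(1,1),(14,0),(9,8)]⟩⟩,
  ⟨true,0,⟨0,[(40,0)]⟩,⟨0,[(39,0)]⟩⟩,[.a ⟨true,0,⟨1,[(4,0),(6,0),(15,0)]⟩,⟨2,[(3,0),(1,1),(18,1),
  (13,1)]⟩⟩ ⟨false,0,⟨0,[]⟩,⟨1,[(20,0),(0,0),(19,0)]⟩⟩ ⟨true,0,⟨1,[(9,1),(31,0),(0,0)]⟩,⟨0,[(5,0),
  (33,0)]⟩⟩,.o ⟨false,1,⟨1,[(4,0),(6,0),(15,0),(4,0),(9,0)]⟩,⟨2,[(5,0),(1,0),(16,0),(1,1),(11,0)]⟩⟩,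
  .e ⟨true,0,⟨2,[(0,0),(16,0),(9,0)]⟩,⟨0,[(38,0)]⟩⟩ ⟨true,0,⟨1,[(9,1),(31,0),(0,0)]⟩,⟨2,[(5,1),(2,
  0),(18,0),(7,1)]⟩⟩,.o ⟨false,0,⟨0,[(0,0)]⟩,⟨1,[(24,1),(7,0),(8,0)]⟩⟩]⟩) (.S ⟨1,0,[0,0,-1,-1,0,0,0,
  1],[0,-1,1],[1,1],(⟨0,[(19,0)]⟩,⟨0,[(29,0),(4,0)]⟩),⟨0,[(1,0)]⟩,.k,(.r (-1) ⟨6,[(0,0),(3,2),(6,3),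
  (3,3),(1,0),(14,0),(9,1)]⟩ ⟨0,[(5,0),(38,0)]⟩),⟨true,0,⟨2,[(5,1),(2,0),(18,0),(7,1)]⟩,⟨5,[(0,1),
  (3,1),(4,1),(1,1),(20,0),(9,0)]⟩⟩,⟨false,1,⟨1,[(20,0),(0,0),(20,0)]⟩,⟨0,[]⟩⟩,⟨false,0,⟨0,[(5,0),
  (32,0)]⟩,⟨6,[(0,1),(3,5),(6,0),(3,0),(1,1),(14,1),(9,3)]⟩⟩,⟨true,0,⟨0,[(40,0)]⟩,⟨0,[(39,0)]⟩⟩,[.a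
  ⟨true,0,⟨1,[(4,0),(6,0),(15,0)]⟩,⟨2,[(0,0),(2,0),(1,1),(18,0),(10,0)]⟩⟩ ⟨false,0,⟨0,[(38,0)]⟩,⟨1,
  [(20,0),(0,0),(20,0)]⟩⟩ ⟨true,0,⟨5,[(0,1),(3,1),(4,1),(1,1),(20,0),(9,0)]⟩,⟨0,[(5,0),(33,0)]⟩⟩,.o
  ⟨false,1,⟨1,[(4,0),(6,0),(15,0),(4,0),(9,0)]⟩,⟨19,[(0,4),(4,6),(1,5),(9,0),(8,12),(8,3)]⟩⟩,.a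
  ⟨true,0,⟨0,[(27,0)]⟩,⟨0,[(24,0)]⟩⟩ ⟨false,0,⟨0,[]⟩,⟨1,[(20,0),(0,0),(20,0)]⟩⟩ ⟨true,0,⟨5,[(0,1),
  (3,1),(4,1),(1,1),(20,0),(9,0)]⟩,⟨2,[(5,1),(2,0),(18,0),(7,1)]⟩⟩,.a ⟨true,0,⟨1,[(27,2),(0,0)]⟩,⟨0,
  [(0,0)]⟩⟩ ⟨true,0,⟨0,[(38,0)]⟩,⟨1,[(27,0),(0,0)]⟩⟩ ⟨false,1,⟨3,[(0,1),(3,1),(6,1),(20,0),(8,0),(0,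
  1)]⟩,⟨0,[(5,0),(33,0)]⟩⟩]⟩)) (.Q [0,0,0,0,0,2,0,0,0,-1,1] (.p true [0,0,1] [1] (⟨0,[(29,0)]⟩,⟨0,
  [(28,0)]⟩) .k 1 (⟨0,[]⟩,⟨0,[]⟩) .k .k) (.Q [0,0,-1,-1,1,0,1,0,0,0,1] (.p true [0,0,1] [] (⟨0,[(30,
  0)]⟩,⟨0,[(29,0)]⟩) .k 0 (⟨0,[]⟩,⟨0,[]⟩) .k .k) (.R ⟨0,false,false,false,[1,-1,-1],[1,-1],[0,1],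
  (⟨0,[(19,0)]⟩,⟨0,[(31,0),(3,0)]⟩),(⟨0,[(34,0)]⟩,⟨0,[(35,0)]⟩),⟨0,[(1,0)]⟩,.k,.k,(.r (-2) ⟨3,[(0,
  3),(2,1),(23,1),(5,0),(8,1),(0,0)]⟩ ⟨1,[(3,1),(1,1),(0,13),(3,15),(26,0),(1,23),(3,12)]⟩),.k,.k,
  .k,⟨true,(-1),⟨0,[(6,0),(3,0),(28,0)]⟩,⟨13,[(0,5),(2,1),(1,1),(23,5),(3,0),(9,6)]⟩⟩,⟨false,1,⟨0,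
  [(0,0),(40,0)]⟩,⟨0,[(17,0)]⟩⟩,⟨false,(-1),⟨3,[(7,2),(2,1),(1,1),(30,0)]⟩,⟨0,[(0,0),(26,0),(15,
  0)]⟩⟩,⟨true,0,⟨0,[(12,0),(15,0)]⟩,⟨0,[(27,0)]⟩⟩,⟨false,0,⟨0,[]⟩,⟨0,[]⟩⟩,⟨false,0,⟨0,[]⟩,⟨0,[]⟩⟩,
  [.a ⟨true,0,⟨3,[(3,0),(1,0),(19,2),(2,2)]⟩,⟨0,[(41,0)]⟩⟩ ⟨false,0,⟨0,[(39,0)]⟩,⟨1,[(21,0),(0,0),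
  (20,0)]⟩⟩ ⟨true,1,⟨0,[(0,0)]⟩,⟨5,[(3,1),(3,4),(2,1),(6,3),(15,0),(4,1)]⟩⟩,.o ⟨false,1,⟨13,[(0,5),
  (2,1),(1,1),(23,5),(3,0),(9,6)]⟩,⟨0,[(8,0)]⟩⟩,.e ⟨true,0,⟨0,[(45,0)]⟩,⟨0,[]⟩⟩ ⟨true,1,⟨0,[(0,0)]⟩,
  ⟨1,[(7,0),(3,0),(5,0),(9,0)]⟩⟩,.o ⟨false,(-1),⟨2,[(3,1),(3,1),(2,1),(6,0),(15,0),(4,1)]⟩,⟨1,[(0,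
  1),(7,1),(33,0),(0,0)]⟩⟩]⟩) (.R ⟨0,false,false,false,[1,-1,-1],[1,-1],[0,1],(⟨0,[(19,0)]⟩,⟨0,[(31,
  0),(3,0)]⟩),(⟨0,[(34,0)]⟩,⟨0,[(35,0)]⟩),⟨0,[(1,0)]⟩,.k,.k,(.r (-2) ⟨1,[(3,1),(24,1),(4,0),(8,2)]⟩
  ⟨1,[(0,15),(2,1),(1,17),(0,13),(30,0),(1,39),(3,12)]⟩),.k,.k,.k,⟨true,(-1),⟨0,[(0,0),(27,0),(10,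
  0)]⟩,⟨9,[(3,1),(11,1),(0,1),(11,2),(0,0),(3,0),(9,6)]⟩⟩,⟨false,1,⟨0,[(28,0),(13,0)]⟩,⟨0,[(17,
  0)]⟩⟩,⟨false,(-1),⟨2,[(0,0),(4,0),(1,1),(4,1)]⟩,⟨3,[(3,1),(2,1),(9,1),(11,1),(4,0),(8,2),(0,1)]⟩⟩,
  ⟨true,0,⟨0,[(12,0),(15,0)]⟩,⟨0,[(27,0)]⟩⟩,⟨false,0,⟨0,[]⟩,⟨0,[]⟩⟩,⟨false,0,⟨0,[]⟩,⟨0,[]⟩⟩,[.e
  ⟨false,0,⟨0,[(39,0)]⟩,⟨1,[(21,0),(0,0),(20,0)]⟩⟩ ⟨false,2,⟨7,[(6,1),(9,5),(9,1),(1,5),(13,6),(0,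
  2)]⟩,⟨0,[(0,0)]⟩⟩,.o ⟨false,1,⟨9,[(3,1),(11,1),(0,1),(11,2),(0,0),(3,0),(9,6)]⟩,⟨0,[(8,0)]⟩⟩,.a
  ⟨true,(-1),⟨4,[(0,1),(2,1),(1,1),(1,2),(17,2)]⟩,⟨0,[(28,0),(13,0)]⟩⟩ ⟨true,0,⟨0,[(45,0)]⟩,⟨0,[]⟩⟩
  ⟨false,2,⟨7,[(6,1),(9,5),(9,1),(1,5),(13,2),(0,6)]⟩,⟨0,[(0,0)]⟩⟩,.o ⟨false,(-1),⟨13,[(0,9),(2,5),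
  (1,5),(1,6),(21,3),(3,2)]⟩,⟨1,[(28,1),(4,0),(8,2)]⟩⟩]⟩)) (.Q [-1,0,0,1,0,0,0,0,-1,0,0,-1] (.p
  false [0,0,0,0,1] [] (⟨0,[(23,0)]⟩,⟨0,[(22,0)]⟩) .k 0 (⟨0,[]⟩,⟨0,[]⟩) .k .k) (.R ⟨2,true,false,
  false,[0,1],[0,0,0,0,1],[2],(⟨0,[]⟩,⟨0,[]⟩),(⟨0,[(24,0)]⟩,⟨0,[(23,0)]⟩),⟨0,[]⟩,.k,.k,.k,(.r 0 ⟨15,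
  [(6,6),(0,0),(5,2),(4,1),(7,3),(10,0),(7,2)]⟩ ⟨3,[(16,1),(4,0),(0,0),(20,0)]⟩),.k,.k,⟨true,0,⟨0,
  []⟩,⟨1,[(28,0),(0,0)]⟩⟩,⟨false,0,⟨0,[(22,0)]⟩,⟨5,[(0,3),(15,1),(4,1),(20,0),(0,0)]⟩⟩,⟨true,1,⟨3,
  [(16,1),(4,0),(0,0),(20,0)]⟩,⟨0,[(6,0),(3,0),(28,0)]⟩⟩,⟨false,1,⟨9,[(3,1),(11,1),(0,1),(5,9),(5,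
  2),(0,0),(3,0),(9,6)]⟩,⟨0,[(0,0)]⟩⟩,⟨false,1,⟨1,[(42,0),(0,0)]⟩,⟨0,[(44,0)]⟩⟩,⟨true,0,⟨0,[(22,
  0)]⟩,⟨0,[(0,0),(39,0)]⟩⟩,[]⟩) (.Q [-1,0,0,0,0,0,0,0,-1,1,0,-1] (.p false [0,0,0,0,1] [1] (⟨0,[(24,
  0)]⟩,⟨0,[(23,0)]⟩) .k 1 (⟨0,[]⟩,⟨0,[]⟩) .k .k) (.Q [0,0,0,0,0,-1,0,0,0,0,0,1] (.ed false [1,-1,0,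
  0,1] .k) (.S ⟨1,0,[1,1],[0,0,0,0,1],[],(⟨0,[(26,0)]⟩,⟨0,[(25,0)]⟩),⟨0,[(0,0)]⟩,.k,(.r (-1) ⟨3,
  [(18,1),(4,0),(0,0),(20,0)]⟩ ⟨15,[(8,6),(0,0),(5,2),(4,1),(7,3),(10,0),(7,2)]⟩),⟨false,1,⟨4,[(23,
  1),(0,1),(20,2),(1,0)]⟩,⟨0,[]⟩⟩,⟨true,0,⟨0,[(47,0)]⟩,⟨0,[]⟩⟩,⟨true,0,⟨0,[(8,0),(3,0),(28,1),(3,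
  0)]⟩,⟨0,[(42,0)]⟩⟩,⟨false,0,⟨0,[(43,0)]⟩,⟨13,[(2,5),(2,1),(1,1),(15,5),(11,0),(9,6)]⟩⟩,[.o ⟨false,
  0,⟨0,[(2,0),(7,0)]⟩,⟨1,[(1,1),(33,0),(9,0)]⟩⟩,.a ⟨true,0,⟨0,[(24,0)]⟩,⟨0,[(1,0)]⟩⟩ ⟨false,1,⟨1,
  [(44,0),(0,0)]⟩,⟨0,[(47,0)]⟩⟩ ⟨true,0,⟨0,[]⟩,⟨1,[(30,0),(0,0)]⟩⟩,.e ⟨false,1,⟨1,[(23,0),(0,0),(20,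
  0)]⟩,⟨0,[]⟩⟩ ⟨false,0,⟨0,[]⟩,⟨1,[(23,0),(0,0),(20,0)]⟩⟩,.o ⟨false,0,⟨5,[(2,5),(6,2),(25,0),(3,
  1)]⟩,⟨1,[(1,1),(33,0),(8,0)]⟩⟩]⟩) (.Q [-2,0,0,0,0,0,0,0,-2,1,0,-2] (.p false [0,0,0,0,1] [1,0,0,0,
  -1] (⟨0,[(26,0)]⟩,⟨0,[(25,0)]⟩) .k 2 (⟨0,[(25,0)]⟩,⟨0,[(26,0)]⟩) .k (.r 0 ⟨0,[]⟩ ⟨4,[(23,2),(0,2),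
  (20,1),(1,3)]⟩)) (.S ⟨1,0,[-1,1],[1,0,0,0,-1],[-1],(⟨0,[(26,0)]⟩,⟨0,[(27,0)]⟩),⟨1,[(1,0),(2,0),
  (18,0),(2,0)]⟩,.k,(.r (-1) ⟨9,[(19,4),(4,1),(0,1),(20,2),(1,0)]⟩ ⟨9,[(9,3),(0,0),(10,1),(7,3),(6,
  0)]⟩),⟨false,1,⟨1,[(24,0),(0,0),(20,0)]⟩,⟨0,[]⟩⟩,⟨true,0,⟨0,[(48,0)]⟩,⟨0,[]⟩⟩,⟨true,0,⟨0,[(44,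
  0)]⟩,⟨0,[(43,0)]⟩⟩,⟨false,0,⟨0,[(44,0)]⟩,⟨13,[(3,5),(2,1),(1,1),(15,5),(11,0),(9,6)]⟩⟩,[.o ⟨false,
  0,⟨1,[(0,0),(10,0),(31,0)]⟩,⟨1,[(25,1),(10,0),(9,0)]⟩⟩,.e ⟨false,1,⟨0,[(42,0),(3,0)]⟩,⟨0,[(48,
  0)]⟩⟩ ⟨false,1,⟨9,[(24,3),(0,3),(19,4),(0,0),(1,1)]⟩,⟨0,[]⟩⟩,.a ⟨true,0,⟨0,[(2,0)]⟩,⟨0,[(25,0)]⟩⟩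
  ⟨false,1,⟨4,[(24,1),(0,1),(20,2),(1,0)]⟩,⟨0,[]⟩⟩ ⟨true,0,⟨0,[(48,0)]⟩,⟨0,[]⟩⟩,.o ⟨false,0,⟨5,[(0,
  2),(5,0),(1,0),(1,1),(20,0),(0,0),(3,1)]⟩,⟨1,[(25,1),(10,0),(8,0)]⟩⟩]⟩) (.R ⟨0,false,false,false,
  [0,0,0,0,1],[0,1],[0,1],(⟨0,[(27,0)]⟩,⟨0,[(26,0)]⟩),(⟨0,[(38,0)]⟩,⟨0,[(37,0)]⟩),⟨0,[(1,0)]⟩,.k,.k,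
  (.r (-1) ⟨3,[(19,1),(4,0),(0,0),(20,0)]⟩ ⟨15,[(9,6),(0,0),(5,2),(4,1),(7,3),(10,0),(7,2)]⟩),(.r
  (-1) ⟨3,[(19,1),(4,0),(0,0),(20,0)]⟩ ⟨15,[(9,6),(0,0),(5,2),(4,1),(7,3),(10,0),(7,2)]⟩),.k,.k,
  ⟨false,1,⟨7,[(19,3),(4,0),(0,0),(13,1),(5,2)]⟩,⟨0,[(41,0)]⟩⟩,⟨true,1,⟨1,[(2,1),(33,0),(8,0)]⟩,⟨0,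
  [(3,0),(5,0),(3,0)]⟩⟩,⟨true,0,⟨0,[(48,0)]⟩,⟨0,[]⟩⟩,⟨false,1,⟨0,[(2,0),(8,0),(34,0)]⟩,⟨0,[(3,0)]⟩⟩,
  ⟨false,0,⟨0,[]⟩,⟨0,[]⟩⟩,⟨false,0,⟨0,[]⟩,⟨0,[]⟩⟩,[.e ⟨false,0,⟨0,[(42,0)]⟩,⟨1,[(24,0),(0,0),(20,
  0)]⟩⟩ ⟨false,1,⟨1,[(2,1),(8,1),(33,0),(0,0)]⟩,⟨8,[(0,1),(2,4),(0,0),(1,0),(1,0),(14,0),(11,2)]⟩⟩,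
  .o ⟨false,1,⟨0,[(11,0),(34,0)]⟩,⟨0,[(43,0)]⟩⟩,.a ⟨true,0,⟨0,[(25,0)]⟩,⟨0,[(2,0)]⟩⟩ ⟨true,0,⟨0,
  [(48,0)]⟩,⟨0,[]⟩⟩ ⟨false,1,⟨0,[(2,0),(8,0),(34,0)]⟩,⟨8,[(0,1),(2,4),(0,0),(1,0),(1,0),(14,0),(11,
  2)]⟩⟩,.o ⟨false,0,⟨17,[(0,8),(5,2),(1,2),(1,5),(25,3),(3,1),(6,5)]⟩,⟨1,[(2,1),(33,0),(8,
  0)]⟩⟩]⟩))) (.Q [1,-1,-1,0,0,0,-1,0,1,0,-1,1] (.p false [0,0,1] [0,0,0,0,1] (⟨0,[(32,0)]⟩,⟨0,[(31,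
  0)]⟩) .k 2 (⟨0,[(25,0)]⟩,⟨0,[(24,0)]⟩) .k (.r 0 ⟨1,[(4,1),(1,1),(0,9),(3,11),(26,0),(1,19),(3,
  10)]⟩ ⟨0,[(7,0),(9,0)]⟩)) (.Q [1,0,0,0,-1,0,0,0,1,0,0,1] (.p true [0,0,0,0,1] [] (⟨0,[(26,0)]⟩,⟨0,
  [(25,0)]⟩) .k 0 (⟨0,[]⟩,⟨0,[]⟩) .k .k) (.R ⟨2,true,false,true,[0,1],[0,0,0,0,1],[0,1],(⟨0,[]⟩,⟨0,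
  []⟩),(⟨0,[(27,0)]⟩,⟨0,[(26,0)]⟩),⟨0,[]⟩,.k,.k,.k,(.r 0 ⟨15,[(9,6),(0,0),(5,2),(4,1),(7,3),(10,0),
  (7,2)]⟩ ⟨3,[(19,1),(4,0),(0,0),(20,0)]⟩),.k,.k,⟨false,1,⟨9,[(24,3),(0,3),(19,4),(0,0),(1,1)]⟩,⟨0,
  []⟩⟩,⟨true,(-1),⟨24,[(0,18),(2,5),(2,1),(1,1),(1,6),(29,0),(6,10)]⟩,⟨0,[(24,0)]⟩⟩,⟨false,1,⟨3,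
  [(19,1),(4,0),(0,0),(20,0)]⟩,⟨0,[(41,0)]⟩⟩,⟨true,(-1),⟨0,[(0,0),(42,0)]⟩,⟨0,[(24,0),(19,0)]⟩⟩,
  ⟨true,0,⟨0,[(42,0)]⟩,⟨1,[(31,0),(0,0)]⟩⟩,⟨false,(-1),⟨0,[(0,0)]⟩,⟨4,[(24,6),(0,1),(20,2),(1,0)]⟩⟩,
  []⟩) (.Q [0,0,0,0,0,-1,0,0,0,0,0,1] (.ed false [1,-1,0,0,1] .k) (.Q [0,0,1,0,-1,0,0,0,1,0,0,1]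
  (.p true [0,0,0,0,1] [] (⟨0,[(28,0)]⟩,⟨0,[(27,0)]⟩) .k 0 (⟨0,[]⟩,⟨0,[]⟩) .k .k) (.Q [1,-1,0,-2,0,
  0,0,0,1,0,0,1] (.p true [0,0,0,0,1] [] (⟨0,[(29,0)]⟩,⟨0,[(28,0)]⟩) .k 0 (⟨0,[]⟩,⟨0,[]⟩) .k .k)
  (.R ⟨1,false,false,true,[0,0,0,0,1],[0,1],[0,1],(⟨0,[(30,0)]⟩,⟨0,[(29,0)]⟩),(⟨0,[(41,0)]⟩,⟨0,[(40,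
  0)]⟩),⟨0,[(2,0)]⟩,.k,.k,(.r (-1) ⟨3,[(22,1),(4,0),(0,0),(20,0)]⟩ ⟨15,[(12,6),(0,0),(5,2),(4,1),(7,
  3),(10,0),(7,2)]⟩),(.r (-1) ⟨3,[(22,1),(4,0),(0,0),(20,0)]⟩ ⟨15,[(12,6),(0,0),(5,2),(4,1),(7,3),
  (10,0),(7,2)]⟩),(.r (-2) ⟨1,[(22,1),(4,0),(0,0),(20,0)]⟩ ⟨0,[(12,1),(3,1),(28,1),(3,0)]⟩),.k,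
  ⟨true,1,⟨3,[(22,1),(4,0),(0,0),(20,0)]⟩,⟨0,[(12,0),(3,0)]⟩⟩,⟨false,2,⟨0,[(27,0),(20,0)]⟩,⟨0,[(1,
  0)]⟩⟩,⟨true,0,⟨0,[(51,0)]⟩,⟨0,[]⟩⟩,⟨false,1,⟨0,[(27,0),(19,0)]⟩,⟨1,[(0,0),(3,0),(29,0)]⟩⟩,⟨false,
  0,⟨0,[(12,0),(3,0),(28,1),(3,0)]⟩,⟨13,[(6,5),(2,1),(1,1),(15,5),(11,0),(9,6)]⟩⟩,⟨false,1,⟨0,[(27,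
  0),(19,1)]⟩,⟨0,[(0,0)]⟩⟩,[.o ⟨false,0,⟨0,[(14,0)]⟩,⟨13,[(6,5),(2,1),(1,1),(15,5),(11,0),(9,6)]⟩⟩,
  .a ⟨true,0,⟨0,[(47,0)]⟩,⟨3,[(9,0),(1,0),(19,2),(2,2)]⟩⟩ ⟨false,1,⟨1,[(27,0),(0,0),(19,0)]⟩,⟨0,
  []⟩⟩ ⟨true,1,⟨0,[(27,0),(19,0)]⟩,⟨0,[(0,0),(11,0),(3,0),(28,0)]⟩⟩,.o ⟨false,0,⟨5,[(1,1),(3,3),(37,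
  0),(4,0)]⟩,⟨0,[(27,0)]⟩⟩,.e ⟨true,0,⟨0,[(45,0)]⟩,⟨1,[(34,0),(0,0)]⟩⟩ ⟨true,1,⟨0,[(27,0),(17,0),(1,
  0)]⟩,⟨0,[(0,0),(11,0),(3,0),(28,0)]⟩⟩]⟩) (.S ⟨1,0,[1],[0,0,0,0,1],[1,0,1],(⟨0,[(30,0)]⟩,⟨0,[(29,
  0)]⟩),⟨0,[(2,0)]⟩,.k,(.r (-1) ⟨3,[(22,1),(4,0),(0,0),(20,0)]⟩ ⟨15,[(12,6),(0,0),(5,2),(4,1),(7,3),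
  (10,0),(7,2)]⟩),⟨true,0,⟨1,[(34,0),(0,0)]⟩,⟨0,[(45,0)]⟩⟩,⟨false,1,⟨1,[(27,0),(0,0),(20,0)]⟩,⟨0,
  []⟩⟩,⟨false,0,⟨1,[(13,0),(35,0)]⟩,⟨3,[(22,1),(4,0),(0,0),(20,0)]⟩⟩,⟨true,0,⟨0,[(47,0)]⟩,⟨0,[(46,
  0)]⟩⟩,[.o ⟨false,0,⟨0,[(5,0)]⟩,⟨0,[(3,0)]⟩⟩,.e ⟨false,1,⟨1,[(27,0),(0,0),(20,0)]⟩,⟨0,[(45,0)]⟩⟩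
  ⟨false,1,⟨1,[(48,0),(0,0)]⟩,⟨0,[(51,0)]⟩⟩,.o ⟨false,0,⟨5,[(1,1),(3,3),(37,0),(4,0)]⟩,⟨0,[(27,
  0)]⟩⟩,.a ⟨true,(-1),⟨0,[(1,0)]⟩,⟨1,[(0,1),(8,0),(1,0),(19,0),(2,0),(13,0),(0,0)]⟩⟩ ⟨true,0,⟨0,[]⟩,
  ⟨0,[(51,0)]⟩⟩ ⟨false,1,⟨1,[(48,0),(0,0)]⟩,⟨1,[(34,0),(0,0)]⟩⟩]⟩)) (.R ⟨2,true,false,false,[0,1],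
  [0,0,0,0,1],[1,0,1],(⟨0,[]⟩,⟨0,[]⟩),(⟨0,[(29,0)]⟩,⟨0,[(28,0)]⟩),⟨0,[]⟩,.k,.k,.k,(.r 0 ⟨15,[(11,6),
  (0,0),(5,2),(4,1),(7,3),(10,0),(7,2)]⟩ ⟨3,[(21,1),(4,0),(0,0),(20,0)]⟩),.k,.k,⟨true,0,⟨1,[(33,0),
  (0,0)]⟩,⟨0,[]⟩⟩,⟨false,0,⟨0,[(27,0)]⟩,⟨0,[(0,0)]⟩⟩,⟨false,1,⟨13,[(5,5),(2,1),(1,1),(15,5),(11,0),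
  (9,6)]⟩,⟨0,[(46,0)]⟩⟩,⟨true,0,⟨0,[(5,0)]⟩,⟨0,[(0,0),(10,0),(3,0),(28,0)]⟩⟩,⟨true,0,⟨0,[]⟩,⟨0,[(50,
  0)]⟩⟩,⟨false,0,⟨0,[(3,0),(29,0)]⟩,⟨0,[(2,0)]⟩⟩,[]⟩)) (.Q [0,0,1,-1,-1,0,0,0,1,0,0,1] (.p true [0,
  0,0,0,1] [] (⟨0,[(28,0)]⟩,⟨0,[(27,0)]⟩) .k 0 (⟨0,[]⟩,⟨0,[]⟩) .k .k) (.R ⟨0,false,false,true,[0,0,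
  0,0,1],[0,1],[0,1],(⟨0,[(29,0)]⟩,⟨0,[(28,0)]⟩),(⟨0,[(40,0)]⟩,⟨0,[(39,0)]⟩),⟨0,[(1,0)]⟩,.k,.k,(.r
  (-1) ⟨3,[(21,1),(4,0),(0,0),(20,0)]⟩ ⟨15,[(11,6),(0,0),(5,2),(4,1),(7,3),(10,0),(7,2)]⟩),(.r (-1)
  ⟨3,[(21,1),(4,0),(0,0),(20,0)]⟩ ⟨15,[(11,6),(0,0),(5,2),(4,1),(7,3),(10,0),(7,2)]⟩),.k,.k,⟨true,1,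
  ⟨3,[(21,1),(4,0),(0,0),(20,0)]⟩,⟨0,[(11,0),(3,0)]⟩⟩,⟨false,2,⟨0,[(26,0),(20,0)]⟩,⟨0,[(0,0),(45,
  0)]⟩⟩,⟨true,0,⟨0,[(50,0)]⟩,⟨0,[]⟩⟩,⟨false,1,⟨0,[(26,0),(19,0)]⟩,⟨1,[(0,1),(46,0),(0,0)]⟩⟩,⟨false,
  0,⟨0,[]⟩,⟨0,[]⟩⟩,⟨false,0,⟨0,[]⟩,⟨0,[]⟩⟩,[.o ⟨false,0,⟨0,[(13,0)]⟩,⟨13,[(5,5),(2,1),(1,1),(15,5),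
  (11,0),(9,6)]⟩⟩,.a ⟨true,0,⟨0,[(46,0)]⟩,⟨3,[(8,0),(1,0),(19,2),(2,2)]⟩⟩ ⟨false,1,⟨1,[(26,0),(0,0),
  (19,0)]⟩,⟨0,[]⟩⟩ ⟨true,1,⟨0,[(26,0),(19,0)]⟩,⟨0,[(0,0)]⟩⟩,.o ⟨false,0,⟨7,[(0,1),(3,5),(37,0),(3,
  1),(0,0)]⟩,⟨0,[(26,0)]⟩⟩,.e ⟨true,0,⟨0,[(44,0)]⟩,⟨1,[(33,0),(0,0)]⟩⟩ ⟨true,1,⟨0,[(26,0),(17,0),(1,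
  0)]⟩,⟨0,[(0,0)]⟩⟩]⟩) (.Q [0,0,1,0,-1,0,0,0,1,0,0,1] (.p true [0,0,0,0,1] [] (⟨0,[(29,0)]⟩,⟨0,[(28,
  0)]⟩) .k 0 (⟨0,[]⟩,⟨0,[]⟩) .k .k) (.R ⟨1,false,false,false,[1,0,0,0,-1],[0,1],[-1],(⟨0,[(29,0)]⟩,
  ⟨0,[(30,0)]⟩),(⟨0,[(41,0)]⟩,⟨0,[(40,0)]⟩),⟨1,[(2,0),(4,0),(18,0),(2,0)]⟩,.k,.k,(.r (-1) ⟨3,[(3,0),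
  (18,1),(5,0),(20,0)]⟩ ⟨9,[(12,3),(0,0),(10,1),(7,3),(6,0)]⟩),(.r (-1) ⟨3,[(3,0),(18,1),(5,0),(20,
  0)]⟩ ⟨9,[(12,3),(0,0),(10,1),(7,3),(6,0)]⟩),(.r (-2) ⟨1,[(22,1),(4,0),(0,0),(20,0)]⟩ ⟨0,[(13,
  0)]⟩),.k,⟨true,1,⟨3,[(3,0),(18,1),(5,0),(20,0)]⟩,⟨0,[(12,0),(3,0)]⟩⟩,⟨false,1,⟨0,[(5,0),(42,0)]⟩,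
  ⟨3,[(1,3),(7,2),(1,2),(1,3),(17,0),(2,0)]⟩⟩,⟨false,1,⟨1,[(27,0),(0,0),(20,0)]⟩,⟨0,[]⟩⟩,⟨true,0,⟨0,
  [(5,0),(41,0)]⟩,⟨29,[(1,29),(5,0),(1,23),(3,5),(2,23),(9,0),(7,23),(3,7),(1,4),(4,5)]⟩⟩,⟨true,0,
  ⟨0,[(47,0)]⟩,⟨0,[(46,0)]⟩⟩,⟨true,0,⟨0,[(5,0),(41,1)]⟩,⟨1,[(1,1),(7,1),(1,0),(0,0),(3,1),(17,0),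
  (10,0)]⟩⟩,[.a ⟨true,0,⟨0,[(47,0)]⟩,⟨3,[(9,0),(1,0),(19,2),(2,2)]⟩⟩ ⟨false,1,⟨1,[(3,0),(24,0),(19,
  0)]⟩,⟨0,[]⟩⟩ ⟨true,0,⟨0,[(5,0),(41,0)]⟩,⟨0,[(1,0),(7,0),(1,0),(1,0)]⟩⟩,.o ⟨false,1,⟨0,[(14,0),(34,
  0)]⟩,⟨0,[(46,0)]⟩⟩,.o ⟨false,1,⟨0,[(27,0)]⟩,⟨5,[(0,1),(4,3),(37,0),(4,0)]⟩⟩,.e ⟨false,1,⟨0,[(45,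
  0),(3,0)]⟩,⟨1,[(34,0),(0,0)]⟩⟩ ⟨false,1,⟨1,[(5,1),(41,1),(0,0),(0,0)]⟩,⟨0,[(1,0),(7,0),(1,0),(1,
  0)]⟩⟩]⟩) (.R ⟨2,true,false,false,[0,1],[0,0,0,0,1],[1,0,1],(⟨0,[]⟩,⟨0,[]⟩),(⟨0,[(30,0)]⟩,⟨0,[(29,
  0)]⟩),⟨0,[]⟩,.k,.k,.k,(.r 0 ⟨15,[(12,6),(0,0),(5,2),(4,1),(7,3),(10,0),(7,2)]⟩ ⟨3,[(22,1),(4,0),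
  (0,0),(20,0)]⟩),.k,.k,⟨true,0,⟨1,[(34,0),(0,0)]⟩,⟨0,[]⟩⟩,⟨false,0,⟨0,[(28,0)]⟩,⟨0,[(0,0)]⟩⟩,
  ⟨false,1,⟨13,[(6,5),(2,1),(1,1),(15,5),(11,0),(9,6)]⟩,⟨0,[(47,0)]⟩⟩,⟨true,0,⟨0,[(6,0)]⟩,⟨0,[(0,0),
  (11,0),(3,0),(28,0)]⟩⟩,⟨true,0,⟨0,[]⟩,⟨0,[(51,0)]⟩⟩,⟨false,0,⟨0,[(4,0),(29,0)]⟩,⟨0,[(3,0)]⟩⟩,
  []⟩))))) (.Q [-1,-1,0,0,1,0,0,0,-1,0,0,-1] (.p false [0,0,0,0,1] [] (⟨0,[(26,0)]⟩,⟨0,[(25,0)]⟩)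
  .k 0 (⟨0,[]⟩,⟨0,[]⟩) .k .k) (.R ⟨1,false,false,true,[0,0,1],[0,0,0,0,1],[0,0,0,0,0,0,0,1],(⟨0,
  [(34,0)]⟩,⟨0,[(33,0)]⟩),(⟨0,[(27,0)]⟩,⟨0,[(26,0)]⟩),⟨0,[(23,0)]⟩,.k,.k,.k,.k,(.r 0 ⟨0,[(13,0),(28,
  0),(3,0)]⟩ ⟨2,[(3,0),(5,2),(9,0),(4,1),(0,0),(13,0)]⟩),.k,⟨true,0,⟨3,[(10,0),(2,1),(1,1),(30,2)]⟩,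
  ⟨2,[(9,0),(2,1),(18,1),(7,0)]⟩⟩,⟨false,0,⟨2,[(2,2),(3,0),(8,0),(12,1),(15,1)]⟩,⟨1,[(1,1),(43,0),
  (0,0)]⟩⟩,⟨false,1,⟨1,[(24,0),(0,0),(20,0)]⟩,⟨0,[]⟩⟩,⟨false,0,⟨2,[(2,2),(4,1),(1,0),(18,0),(13,
  0)]⟩,⟨0,[(1,0),(13,0),(30,0)]⟩⟩,⟨true,0,⟨0,[(44,0)]⟩,⟨0,[(43,0)]⟩⟩,⟨false,0,⟨2,[(2,2),(4,0),(1,1),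
  (18,1),(13,1)]⟩,⟨1,[(0,0),(0,0),(6,0),(6,0),(30,0)]⟩⟩,[.o ⟨false,0,⟨0,[(3,0),(7,0)]⟩,⟨0,[(0,0)]⟩⟩,
  .o ⟨false,0,⟨0,[(2,0)]⟩,⟨2,[(0,0),(23,1),(23,0)]⟩⟩,.o ⟨false,1,⟨1,[(31,1),(4,0),(8,0)]⟩,⟨0,[(20,
  0)]⟩⟩,.a ⟨true,0,⟨0,[(31,0)]⟩,⟨0,[(28,0)]⟩⟩ ⟨true,0,⟨0,[(15,0)]⟩,⟨2,[(9,0),(2,1),(18,1),(7,0)]⟩⟩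
  ⟨false,0,⟨0,[(2,0),(25,0)]⟩,⟨0,[(1,0),(44,0)]⟩⟩]⟩) (.Q [0,0,0,0,0,-1,0,0,0,1,0,-1] (.ed true [0,1,
  0,0,1] .k) (.R ⟨1,false,false,false,[1,0,0,0,-1],[0,1],[-1],(⟨0,[(27,0)]⟩,⟨0,[(28,0)]⟩),(⟨0,[(39,
  0)]⟩,⟨0,[(38,0)]⟩),⟨0,[(0,0)]⟩,.k,.k,(.r (-1) ⟨9,[(20,4),(4,1),(0,1),(20,2),(1,0)]⟩ ⟨9,[(10,3),(0,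
  0),(10,1),(7,3),(6,0)]⟩),(.r (-1) ⟨9,[(20,4),(4,1),(0,1),(20,2),(1,0)]⟩ ⟨9,[(10,3),(0,0),(10,1),
  (7,3),(6,0)]⟩),(.r (-2) ⟨1,[(20,1),(4,0),(0,0),(20,0)]⟩ ⟨0,[(11,0)]⟩),.k,⟨true,1,⟨9,[(20,4),(4,1),
  (0,1),(20,2),(1,0)]⟩,⟨0,[(10,0),(3,0)]⟩⟩,⟨false,1,⟨0,[(3,0),(42,0)]⟩,⟨3,[(2,3),(4,0),(6,0),(14,2),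
  (12,2),(4,0)]⟩⟩,⟨false,1,⟨1,[(25,0),(0,0),(20,0)]⟩,⟨0,[]⟩⟩,⟨true,0,⟨0,[(3,0),(41,0)]⟩,⟨1,[(2,1),
  (4,0),(8,0),(12,0)]⟩⟩,⟨true,0,⟨0,[(45,0)]⟩,⟨0,[(44,0)]⟩⟩,⟨true,0,⟨0,[(3,0),(41,1)]⟩,⟨0,[(2,0),(4,
  0),(8,0)]⟩⟩,[.a ⟨true,0,⟨0,[(45,0)]⟩,⟨3,[(7,0),(1,0),(19,2),(2,2)]⟩⟩ ⟨false,1,⟨9,[(25,3),(0,3),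
  (19,4),(0,0),(1,1)]⟩,⟨0,[]⟩⟩ ⟨true,0,⟨0,[(3,0),(41,0)]⟩,⟨1,[(2,1),(4,0),(6,0),(14,0),(12,0),(4,
  0)]⟩⟩,.o ⟨false,1,⟨0,[(12,0),(34,0)]⟩,⟨0,[(44,0)]⟩⟩,.o ⟨false,1,⟨0,[(25,0)]⟩,⟨3,[(1,1),(1,1),(37,
  0),(5,0)]⟩⟩,.e ⟨false,1,⟨0,[(43,0),(3,0)]⟩,⟨1,[(32,0),(0,0)]⟩⟩ ⟨false,1,⟨1,[(3,1),(41,1),(0,0),(0,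
  0)]⟩,⟨1,[(2,1),(4,0),(6,0),(14,0),(12,0),(4,0)]⟩⟩]⟩) (.R ⟨0,false,false,false,[1,0,0,0,-1],[0,1],
  [-1],(⟨0,[(27,0)]⟩,⟨0,[(28,0)]⟩),(⟨0,[(39,0)]⟩,⟨0,[(38,0)]⟩),⟨0,[(0,0)]⟩,.k,.k,(.r (-1) ⟨9,[(20,
  4),(4,1),(0,1),(20,2),(1,0)]⟩ ⟨9,[(10,3),(0,0),(10,1),(7,3),(6,0)]⟩),(.r (-1) ⟨9,[(20,4),(4,1),(0,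
  1),(20,2),(1,0)]⟩ ⟨9,[(10,3),(0,0),(10,1),(7,3),(6,0)]⟩),.k,.k,⟨true,1,⟨9,[(20,4),(4,1),(0,1),(20,
  2),(1,0)]⟩,⟨0,[(10,0),(3,0)]⟩⟩,⟨false,1,⟨0,[(3,0),(42,0)]⟩,⟨3,[(2,3),(4,0),(6,0),(14,2),(12,2),(4,
  0)]⟩⟩,⟨false,1,⟨1,[(25,0),(0,0),(20,0)]⟩,⟨0,[]⟩⟩,⟨true,0,⟨0,[(3,0),(41,0)]⟩,⟨1,[(2,1),(4,0),(8,0),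
  (12,0)]⟩⟩,⟨false,0,⟨0,[]⟩,⟨0,[]⟩⟩,⟨false,0,⟨0,[]⟩,⟨0,[]⟩⟩,[.a ⟨true,0,⟨0,[(45,0)]⟩,⟨3,[(7,0),(1,
  0),(19,2),(2,2)]⟩⟩ ⟨false,1,⟨9,[(25,3),(0,3),(19,4),(0,0),(1,1)]⟩,⟨0,[]⟩⟩ ⟨true,0,⟨0,[(3,0),(41,
  0)]⟩,⟨1,[(2,1),(4,0),(6,0),(14,0),(12,0),(4,0)]⟩⟩,.o ⟨false,1,⟨0,[(12,0),(34,0)]⟩,⟨0,[(44,0)]⟩⟩,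
  .o ⟨false,1,⟨0,[(25,0)]⟩,⟨3,[(1,1),(1,1),(37,0),(5,0)]⟩⟩,.e ⟨false,1,⟨0,[(43,0),(3,0)]⟩,⟨1,[(32,
  0),(0,0)]⟩⟩ ⟨false,1,⟨1,[(3,1),(41,1),(0,0),(0,0)]⟩,⟨1,[(2,1),(4,0),(6,0),(14,0),(12,0),(4,
  0)]⟩⟩]⟩)))))))))))

theorem ok47 : chk K t47 r27 = true := by decide +kernel

noncomputable def t50 : Tre :=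
  (.R ⟨1,false,false,false,[1,0,-1],[1,-1],[0,0,0,0,0,0,0,-1],(⟨0,[(22,0)]⟩,⟨0,[(23,0)]⟩),(⟨0,[(26,
  0)]⟩,⟨0,[(27,0)]⟩),⟨0,[(11,0)]⟩,.k,.k,.k,.k,.k,.k,⟨false,1,⟨1,[(19,1),(0,1),(12,1),(0,0),(0,0)]⟩,
  ⟨1,[(2,1),(31,0),(0,0)]⟩⟩,⟨true,0,⟨0,[(20,0)]⟩,⟨0,[(9,0)]⟩⟩,⟨false,1,⟨1,[(13,0),(0,0),(20,0)]⟩,⟨0,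
  []⟩⟩,⟨true,0,⟨1,[(2,1),(17,1),(13,0),(0,0)]⟩,⟨0,[(19,0),(13,0)]⟩⟩,⟨true,0,⟨0,[(33,0)]⟩,⟨0,[(32,
  0)]⟩⟩,⟨true,0,⟨0,[(4,0),(15,0)]⟩,⟨0,[(19,0)]⟩⟩,[.a ⟨true,0,⟨5,[(0,4),(9,0),(9,1),(7,1),(3,0)]⟩,⟨0,
  [(33,0)]⟩⟩ ⟨true,1,⟨1,[(19,1),(0,1),(13,0),(0,0)]⟩,⟨0,[(2,0),(27,0)]⟩⟩ ⟨false,1,⟨1,[(0,1),(19,1),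
  (4,0),(5,1),(2,0)]⟩,⟨0,[(9,0),(23,0)]⟩⟩,.a ⟨true,0,⟨0,[(0,0)]⟩,⟨0,[(33,0),(3,0)]⟩⟩ ⟨false,2,⟨0,
  [(19,0),(0,0),(13,0),(0,0)]⟩,⟨0,[(3,0)]⟩⟩ ⟨true,1,⟨1,[(0,1),(19,1),(4,0),(8,0)]⟩,⟨0,[(3,0),(15,0),
  (10,0)]⟩⟩,.o ⟨false,0,⟨0,[(9,0)]⟩,⟨1,[(20,1),(4,0),(8,0)]⟩⟩,.a ⟨true,(-1),⟨0,[(0,0),(2,0),(15,0),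
  (10,0)]⟩,⟨0,[(20,0),(13,0)]⟩⟩ ⟨false,2,⟨0,[(19,0),(0,0),(13,0),(0,0)]⟩,⟨0,[(2,0),(27,0)]⟩⟩ ⟨true,
  1,⟨1,[(0,1),(19,1),(4,0),(5,1),(2,0)]⟩,⟨0,[(3,0),(15,0),(10,0)]⟩⟩]⟩)

theorem ok50 : chk K t50 r25 = true := by decide +kernel

noncomputable def t57 : Tre :=
  (.R ⟨2,true,false,true,[0,1],[0,0,1],[0,1,1,1],(⟨0,[]⟩,⟨0,[]⟩),(⟨0,[(17,0)]⟩,⟨0,[(16,0)]⟩),⟨0,[]⟩,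
  .k,.k,.k,.k,.k,.k,⟨false,0,⟨0,[(0,0),(13,0),(10,0)]⟩,⟨1,[(1,1),(26,0),(0,0)]⟩⟩,⟨true,0,⟨0,[(14,
  0)]⟩,⟨0,[(3,0)]⟩⟩,⟨true,0,⟨0,[(31,0)]⟩,⟨0,[]⟩⟩,⟨false,1,⟨7,[(1,3),(0,1),(4,0),(0,0),(3,3),(1,3),
  (14,4)]⟩,⟨0,[(0,0)]⟩⟩,⟨false,0,⟨0,[(27,0)]⟩,⟨0,[(26,0),(2,0)]⟩⟩,⟨true,0,⟨0,[(12,0)]⟩,⟨0,[(0,0),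
  (25,0)]⟩⟩,[]⟩)

theorem ok57 : chk K t57 r3 = true := by decide +kernel

noncomputable def t61 : Tre :=
  (.Q [0,1,0,-1,0,0,-1,-1,0,0,-1] (.p false [0,0,1] [] (⟨0,[(14,0)]⟩,⟨0,[(13,0)]⟩) .k 0 (⟨0,[]⟩,⟨0,
  []⟩) .k .k) (.I [0,0,-2,-2,1,0,0,-1] (.K ⟨0,[0,1,1],0,0,(⟨0,[(16,0),(3,0)]⟩,⟨0,[(4,0)]⟩),.k,.k,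
  (.r 0 ⟨0,[(11,0),(2,0),(8,0),(2,0)]⟩ ⟨0,[(0,0)]⟩),.k,.k,[⟨1,[(13,0),(0,0)]⟩,⟨0,[(2,0)]⟩,⟨0,[(1,
  0)]⟩,⟨0,[(11,0),(14,0)]⟩]⟩) (.I [0,0,2,0,-1,2,-1] (.K ⟨0,[0,1,1],0,0,(⟨0,[(17,0),(3,0)]⟩,⟨0,[(5,
  0)]⟩),.k,.k,(.x (-2) ⟨3,[(3,1),(1,5),(0,1),(7,1),(4,2),(8,4)]⟩ ⟨0,[(0,0)]⟩),.k,.k,[⟨1,[(14,0),(0,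
  0)]⟩,⟨0,[(3,0)]⟩,⟨0,[(2,0)]⟩,⟨0,[(12,0),(14,0)]⟩]⟩) (.I [0,0,-2,0,1,-2,1] (.K ⟨0,[0,1,1],0,0,(⟨0,
  [(18,0),(3,0)]⟩,⟨0,[(6,0)]⟩),.k,.k,(.x (-1) ⟨0,[(0,0)]⟩ ⟨1,[(15,0),(0,2),(1,1),(3,3)]⟩),.k,.k,[⟨1,
  [(15,0),(0,0)]⟩,⟨0,[(4,0)]⟩,⟨0,[(3,0)]⟩,⟨0,[(13,0),(14,0)]⟩]⟩) (.I [0,0,2,2,-1,0,0,1] (.K ⟨0,[0,1,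
  1],0,0,(⟨0,[(19,0),(3,0)]⟩,⟨0,[(7,0)]⟩),.k,.k,(.r 1 ⟨0,[(0,0)]⟩ ⟨0,[(4,0),(0,0),(22,0),(1,0),(0,
  0)]⟩),.k,.k,[⟨1,[(16,0),(0,0)]⟩,⟨0,[(5,0)]⟩,⟨0,[(4,0)]⟩,⟨0,[(14,0),(14,0)]⟩]⟩) (.I [0,0,0,1,0,0,0,
  1] (.S ⟨1,0,[0,0,1,1,0,0,0,1],[0,1,1],[0,1,1,1,0,0,0,1],(⟨0,[(20,0),(3,0)]⟩,⟨0,[(8,0)]⟩),⟨0,[(20,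
  0)]⟩,.k,.k,⟨true,0,⟨0,[(34,0)]⟩,⟨0,[]⟩⟩,⟨false,1,⟨1,[(10,0),(0,0),(20,0)]⟩,⟨0,[]⟩⟩,⟨false,0,⟨0,
  [(30,0)]⟩,⟨0,[(29,0),(2,0)]⟩⟩,⟨true,0,⟨0,[(30,0)]⟩,⟨0,[(29,0)]⟩⟩,[.e ⟨false,0,⟨19,[(0,11),(3,3),
  (2,1),(2,2),(0,2),(3,3),(6,0),(2,7)]⟩,⟨0,[(1,0),(25,0)]⟩⟩ ⟨false,0,⟨0,[(0,0)]⟩,⟨3,[(1,1),(14,1),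
  (0,1),(13,0),(0,0)]⟩⟩,.o ⟨false,1,⟨1,[(0,1),(5,1),(15,0),(9,0)]⟩,⟨0,[(5,0)]⟩⟩,.o ⟨false,1,⟨1,[(6,
  1),(15,0),(8,0)]⟩,⟨0,[(18,0)]⟩⟩,.a ⟨true,0,⟨0,[(6,0)]⟩,⟨1,[(7,0),(6,0),(2,0)]⟩⟩ ⟨false,0,⟨0,[(0,
  0)]⟩,⟨1,[(1,0),(3,0),(11,0),(9,0),(4,0)]⟩⟩ ⟨true,0,⟨0,[(0,0)]⟩,⟨0,[(5,0),(0,0)]⟩⟩]⟩) (.I [1,-1,1,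
  2,-1,0,0,-1] (.R ⟨2,true,false,true,[0,1],[0,0,1],[1,1,0,0,0,0,0,1],(⟨0,[]⟩,⟨0,[]⟩),(⟨0,[(21,0)]⟩,
  ⟨0,[(20,0)]⟩),⟨0,[]⟩,.k,.k,.k,.k,.k,.k,⟨true,0,⟨0,[]⟩,⟨1,[(18,0),(0,0)]⟩⟩,⟨false,0,⟨0,[(7,0)]⟩,⟨3,
  [(8,1),(2,0),(0,0),(10,0),(8,1)]⟩⟩,⟨true,1,⟨1,[(15,1),(0,1),(6,0),(6,1),(2,0)]⟩,⟨0,[(0,0),(29,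
  0)]⟩⟩,⟨false,1,⟨0,[(16,0),(13,0),(2,0)]⟩,⟨7,[(0,5),(1,1),(5,3),(14,1),(8,0),(0,0)]⟩⟩,⟨false,1,⟨1,
  [(15,1),(0,1),(6,0),(9,0)]⟩,⟨2,[(0,0),(0,1),(16,0),(0,0),(13,0)]⟩⟩,⟨true,0,⟨0,[(16,0)]⟩,⟨21,[(0,
  7),(1,3),(3,7),(1,5),(8,1),(5,2),(9,0)]⟩⟩,[]⟩) (.S ⟨1,0,[0,1,0,0,0,0,0,1],[0,0,1],[0,0,0,0,0,0,0,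
  1],(⟨0,[(21,0)]⟩,⟨0,[(20,0)]⟩),⟨0,[(10,0)]⟩,.k,.k,⟨false,1,⟨1,[(11,0),(0,0),(20,0)]⟩,⟨0,[]⟩⟩,
  ⟨true,0,⟨0,[(35,0)]⟩,⟨0,[]⟩⟩,⟨true,0,⟨0,[(31,0)]⟩,⟨0,[(30,0)]⟩⟩,⟨false,0,⟨0,[(31,0)]⟩,⟨5,[(0,1),
  (0,1),(16,0),(0,0),(13,3)]⟩⟩,[.a ⟨true,0,⟨0,[(16,0)]⟩,⟨0,[(1,0),(13,0),(12,0)]⟩⟩ ⟨false,1,⟨3,[(0,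
  1),(4,1),(26,2),(0,0)]⟩,⟨0,[(1,0),(29,0)]⟩⟩ ⟨true,0,⟨1,[(0,0),(4,0),(23,0)]⟩,⟨0,[(1,0),(26,0)]⟩⟩,
  .o ⟨false,1,⟨1,[(16,1),(6,0),(9,0)]⟩,⟨1,[(1,2),(3,0),(9,1),(7,0),(7,0)]⟩⟩,.a ⟨true,0,⟨0,[(7,0)]⟩,
  ⟨1,[(8,0),(6,0),(2,0)]⟩⟩ ⟨false,1,⟨3,[(0,1),(4,1),(26,0),(0,2)]⟩,⟨0,[(1,0),(29,0)]⟩⟩ ⟨true,0,⟨1,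
  [(0,0),(4,0),(23,0)]⟩,⟨0,[(1,0),(29,0)]⟩⟩,.a ⟨true,0,⟨0,[(18,0)]⟩,⟨0,[(15,0)]⟩⟩ ⟨true,1,⟨3,[(0,1),
  (4,1),(26,2),(0,0)]⟩,⟨0,[(1,1),(3,0),(23,0)]⟩⟩ ⟨false,1,⟨3,[(0,1),(4,1),(26,2),(0,0)]⟩,⟨0,[(1,0),
  (26,0)]⟩⟩]⟩))))))) (.I [1,1,0,-1,0,0,0,-1] (.R ⟨2,true,false,false,[0,1],[0,1,1],[0,1],(⟨0,[]⟩,⟨0,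
  []⟩),(⟨0,[(16,0),(3,0)]⟩,⟨0,[(4,0)]⟩),⟨0,[]⟩,.k,.k,.k,.k,.k,.k,⟨false,1,⟨0,[(0,0),(26,0)]⟩,⟨0,[(1,
  0),(12,0)]⟩⟩,⟨true,0,⟨0,[(2,0)]⟩,⟨0,[(14,0)]⟩⟩,⟨false,1,⟨1,[(25,1),(1,0),(0,0)]⟩,⟨0,[(23,0)]⟩⟩,
  ⟨true,0,⟨0,[(1,0),(23,0)]⟩,⟨0,[(12,0)]⟩⟩,⟨true,0,⟨0,[(24,0)]⟩,⟨1,[(13,0),(0,0)]⟩⟩,⟨false,0,⟨0,[(1,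
  0)]⟩,⟨3,[(0,3),(2,1),(2,0),(0,0),(10,0),(9,1)]⟩⟩,[]⟩) (.R ⟨2,true,false,false,[0,1],[0,1,1],[0,0,
  1,1],(⟨0,[]⟩,⟨0,[]⟩),(⟨0,[(16,0),(3,0)]⟩,⟨0,[(4,0)]⟩),⟨0,[]⟩,.k,.k,.k,.k,.k,.k,⟨false,1,⟨1,[(2,1),
  (9,1),(14,0),(0,0)]⟩,⟨0,[(0,0),(24,0)]⟩⟩,⟨true,0,⟨0,[(2,0)]⟩,⟨0,[(14,0)]⟩⟩,⟨false,1,⟨1,[(6,0),(0,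
  0),(20,0)]⟩,⟨0,[]⟩⟩,⟨true,0,⟨0,[(1,0),(23,0)]⟩,⟨0,[(12,0)]⟩⟩,⟨true,0,⟨0,[(26,0)]⟩,⟨0,[(25,0)]⟩⟩,
  ⟨false,0,⟨0,[(1,0)]⟩,⟨0,[(12,0),(12,0),(2,0)]⟩⟩,[]⟩)))

theorem ok61 : chk K t61 r0 = true := by decide +kernel


end Helper48.Y.Y11_c2_P4_m1n1
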