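import Pool.Agent.Helper48.Y.Y11_c2_P4_m1n1_p0
import Pool.Agent.Helper48.Y.Y11_c2_P4_m1n1_p1

set_option autoImplicit false
set_option linter.all false

namespace Helper48.Y.Y11_c2_P4_m1n1

open Helper25.KG Helper25.KW Helper55.KE Helper11.CT

noncomputable def t9 : Tre :=
  .Q [0,0,0,2,0,0,-1,-1,0,0,-1] (.p false [0,0,1] [] (⟨0,[(24,0)]⟩,⟨0,[(23,0)]⟩) .k 0 (⟨0,[]⟩,⟨0,
  []⟩) .k .k) t7 t8

theorem ok9 : chk K t9 r10 = true :=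
  chk_Q (e' := [0,0,0,-2,0,0,1,1,0,0,1]) (by decide +kernel) (by decide +kernel) ok7 ok8

noncomputable def t10 : Tre :=
  .Q [0,0,-2,-1,1,0,-1,-1,0,0,-1] (.p false [0,0,1] [] (⟨0,[(23,0)]⟩,⟨0,[(22,0)]⟩) .k 0 (⟨0,[]⟩,⟨0,
  []⟩) .k .k) t6 t9

theorem ok10 : chk K t10 r9 = true :=
  chk_Q (e' := [0,0,2,1,-1,0,1,1,0,0,1]) (by decide +kernel) (by decide +kernel) ok6 ok9

noncomputable def t11 : Tre :=
  .Q [0,0,-1,0,1,0,1,0,0,-1,1] (.p true [0,0,1] [1] (⟨0,[(22,0)]⟩,⟨0,[(21,0)]⟩) .k 1 (⟨0,[]⟩,⟨0,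
  []⟩) .k .k) t5 t10

theorem ok11 : chk K t11 r8 = true :=
  chk_Q (e' := [0,0,1,0,-1,0,-1,0,0,1,-1]) (by decide +kernel) (by decide +kernel) ok5 ok10

noncomputable def t12 : Tre :=
  .Q [0,-1,0,1,0,0,-1,-1,0,1,-1] (.p false [0,0,1] [1] (⟨0,[(21,0)]⟩,⟨0,[(20,0)]⟩) .k 1 (⟨0,[]⟩,⟨0,
  []⟩) .k .k) t4 t11

theorem ok12 : chk K t12 r7 = true :=
  chk_Q (e' := [0,1,0,-1,0,0,1,1,0,-1,1]) (by decide +kernel) (by decide +kernel) ok4 ok11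

noncomputable def t13 : Tre :=
  .Q [0,0,0,1,0,0,-1,-1,0,0,-1] (.p false [0,0,1] [] (⟨0,[(20,0)]⟩,⟨0,[(19,0)]⟩) .k 0 (⟨0,[]⟩,⟨0,
  []⟩) .k .k) t3 t12

theorem ok13 : chk K t13 l6 = true :=
  chk_Q (e' := [0,0,0,-1,0,0,1,1,0,0,1]) (by decide +kernel) (by decide +kernel) ok3 ok12

noncomputable def t24 : Tre :=
  .Q [0,0,0,0,0,-2,0,0,0,0,1] (.p true [0,0,1] [] (⟨0,[(29,0)]⟩,⟨0,[(28,0)]⟩) .k 0 (⟨0,[]⟩,⟨0,[]⟩)
  .k .k) t22 t23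

theorem ok24 : chk K t24 r20 = true :=
  chk_Q (e' := [0,0,0,0,0,2,0,0,0,0,-1]) (by decide +kernel) (by decide +kernel) ok22 ok23

noncomputable def t25 : Tre :=
  .I [0,0,2,0,-1,2] t21 t24

theorem ok25 : chk K t25 r19 = true :=
  chk_I (e' := [1,0,-2,0,1,-2]) (by decide +kernel) (by decide +kernel) ok21 ok24

noncomputable def t26 : Tre :=
  .Q [0,0,0,0,0,2,0,0,0,-1,1] (.p true [0,0,1] [1] (⟨0,[(27,0)]⟩,⟨0,[(26,0)]⟩) .k 1 (⟨0,[]⟩,⟨0,[]⟩)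
  .k .k) t20 t25

theorem ok26 : chk K t26 l18 = true :=
  chk_Q (e' := [0,0,0,0,0,-2,0,0,0,1,-1]) (by decide +kernel) (by decide +kernel) ok20 ok25

noncomputable def t28 : Tre :=
  .Q [0,0,-1,-1,1,0,1,0,0,0,1] (.p true [0,0,1] [] (⟨0,[(26,0)]⟩,⟨0,[(25,0)]⟩) .k 0 (⟨0,[]⟩,⟨0,[]⟩)
  .k .k) t26 t27

theorem ok28 : chk K t28 r17 = true :=
  chk_Q (e' := [0,0,1,1,-1,0,-1,0,0,0,-1]) (by decide +kernel) (by decide +kernel) ok26 ok27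

noncomputable def t29 : Tre :=
  .I [0,-1,-1,0,1,0,0,-1] t19 t28

theorem ok29 : chk K t29 r16 = true :=
  chk_I (e' := [1,1,1,0,-1,0,0,1]) (by decide +kernel) (by decide +kernel) ok19 ok28

noncomputable def t30 : Tre :=
  .Q [0,-1,0,2,1,0,1,1,0,-1,1] (.p true [0,0,1] [1] (⟨0,[(24,0)]⟩,⟨0,[(23,0)]⟩) .k 1 (⟨0,[]⟩,⟨0,
  []⟩) .k .k) t18 t29

theorem ok30 : chk K t30 r15 = true :=
  chk_Q (e' := [0,1,0,-2,-1,0,-1,-1,0,1,-1]) (by decide +kernel) (by decide +kernel) ok18 ok29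

noncomputable def t31 : Tre :=
  .I [0,0,-2,-2,1] t17 t30

theorem ok31 : chk K t31 r14 = true :=
  chk_I (e' := [1,0,2,2,-1]) (by decide +kernel) (by decide +kernel) ok17 ok30

noncomputable def t32 : Tre :=
  .Q [0,-1,0,1,1,0,1,1,0,-1,1] (.p true [0,0,1] [1] (⟨0,[(22,0)]⟩,⟨0,[(21,0)]⟩) .k 1 (⟨0,[]⟩,⟨0,
  []⟩) .k .k) t16 t31

theorem ok32 : chk K t32 r13 = true :=
  chk_Q (e' := [0,1,0,-1,-1,0,-1,-1,0,1,-1]) (by decide +kernel) (by decide +kernel) ok16 ok31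

noncomputable def t33 : Tre :=
  .I [0,0,0,1,0,0,0,-1] t15 t32

theorem ok33 : chk K t33 r12 = true :=
  chk_I (e' := [1,0,0,-1,0,0,0,1]) (by decide +kernel) (by decide +kernel) ok15 ok32

noncomputable def t34 : Tre :=
  .Q [0,-1,0,0,1,0,1,1,0,-1,1] (.p true [0,0,1] [1] (⟨0,[(20,0)]⟩,⟨0,[(19,0)]⟩) .k 1 (⟨0,[]⟩,⟨0,
  []⟩) .k .k) t14 t33

theorem ok34 : chk K t34 r6 = true :=
  chk_Q (e' := [0,1,0,0,-1,0,-1,-1,0,1,-1]) (by decide +kernel) (by decide +kernel) ok14 ok33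

noncomputable def t35 : Tre :=
  .Q [0,-1,0,-1,1,0,1,1,0,-1,1] (.p true [0,0,1] [1] (⟨0,[(19,0)]⟩,⟨0,[(18,0)]⟩) .k 1 (⟨0,[]⟩,⟨0,
  []⟩) .k .k) t13 t34

theorem ok35 : chk K t35 l5 = true :=
  chk_Q (e' := [0,1,0,1,-1,0,-1,-1,0,1,-1]) (by decide +kernel) (by decide +kernel) ok13 ok34

noncomputable def t42 : Tre :=
  .Q [0,0,0,2,0,0,1,1,0,-1,1] (.p true [0,0,1] [1] (⟨0,[(27,0)]⟩,⟨0,[(26,0)]⟩) .k 1 (⟨0,[]⟩,⟨0,[]⟩)
  .k .k) t40 t41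

theorem ok42 : chk K t42 l29 = true :=
  chk_Q (e' := [0,0,0,-2,0,0,-1,-1,0,1,-1]) (by decide +kernel) (by decide +kernel) ok40 ok41

noncomputable def t44 : Tre :=
  .Q [0,0,2,0,-1,0,-1,-1,0,1,-1] (.p false [0,0,1] [1] (⟨0,[(26,0)]⟩,⟨0,[(25,0)]⟩) .k 1 (⟨0,[]⟩,⟨0,
  []⟩) .k .k) t42 t43

theorem ok44 : chk K t44 l28 = true :=
  chk_Q (e' := [0,0,-2,0,1,0,1,1,0,-1,1]) (by decide +kernel) (by decide +kernel) ok42 ok43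

noncomputable def t46 : Tre :=
  .Q [0,0,0,-1,0,0,-1,-1,0,1,-1] (.p false [0,0,1] [1] (⟨0,[(25,0)]⟩,⟨0,[(24,0)]⟩) .k 1 (⟨0,[]⟩,⟨0,
  []⟩) .k .k) t44 t45

theorem ok46 : chk K t46 l27 = true :=
  chk_Q (e' := [0,0,0,1,0,0,1,1,0,-1,1]) (by decide +kernel) (by decide +kernel) ok44 ok45

noncomputable def t48 : Tre :=
  .I [1,1,-2,-2,0,0,0,1] t46 t47

theorem ok48 : chk K t48 r26 = true :=
  chk_I (e' := [0,-1,2,2,0,0,0,-1]) (by decide +kernel) (by decide +kernel) ok46 ok47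

noncomputable def t49 : Tre :=
  .I [0,0,-2,-2,1] t39 t48

theorem ok49 : chk K t49 l25 = true :=
  chk_I (e' := [1,0,2,2,-1]) (by decide +kernel) (by decide +kernel) ok39 ok48

noncomputable def t51 : Tre :=
  .Q [0,1,0,1,0,0,0,0,0,-1] (.pp true [-1,1]) t49 t50

theorem ok51 : chk K t51 r24 = true :=
  chk_Q (e' := [0,-1,0,-1,0,0,0,0,0,1]) (by decide +kernel) (by decide +kernel) ok49 ok50

noncomputable def t52 : Tre :=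
  .Q [0,-1,0,1,0,0,1,1,0,0,1] (.p true [0,0,1] [] (⟨0,[(21,0)]⟩,⟨0,[(20,0)]⟩) .k 0 (⟨0,[]⟩,⟨0,[]⟩)
  .k .k) t38 t51

theorem ok52 : chk K t52 r23 = true :=
  chk_Q (e' := [0,1,0,-1,0,0,-1,-1,0,0,-1]) (by decide +kernel) (by decide +kernel) ok38 ok51

noncomputable def t53 : Tre :=
  .I [0,-1,0,1,1,0,0,-1] t37 t52

theorem ok53 : chk K t53 r22 = true :=
  chk_I (e' := [1,1,0,-1,-1,0,0,1]) (by decide +kernel) (by decide +kernel) ok37 ok52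

noncomputable def t54 : Tre :=
  .I [0,-1,0,0,1,0,0,-1] t36 t53

theorem ok54 : chk K t54 r5 = true :=
  chk_I (e' := [1,1,0,0,-1,0,0,1]) (by decide +kernel) (by decide +kernel) ok36 ok53

noncomputable def t55 : Tre :=
  .I [1,0,1,0,0,0,0,-1] t35 t54

theorem ok55 : chk K t55 r4 = true :=
  chk_I (e' := [0,0,-1,0,0,0,0,1]) (by decide +kernel) (by decide +kernel) ok35 ok54

noncomputable def t56 : Tre :=
  .I [0,0,0,0,0,0,0,-1] t2 t55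

theorem ok56 : chk K t56 l3 = true :=
  chk_I (e' := [1,0,0,0,0,0,0,1]) (by decide +kernel) (by decide +kernel) ok2 ok55

noncomputable def t58 : Tre :=
  .Q [0,1,0,-1,0,0,1,1,0,0,1] (.p true [0,0,1] [] (⟨0,[(16,0)]⟩,⟨0,[(15,0)]⟩) .k 0 (⟨0,[]⟩,⟨0,[]⟩)
  .k .k) t56 t57

theorem ok58 : chk K t58 r2 = true :=
  chk_Q (e' := [0,-1,0,1,0,0,-1,-1,0,0,-1]) (by decide +kernel) (by decide +kernel) ok56 ok57

noncomputable def t59 : Tre :=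
  .I [1,-1,0,1,0,0,0,-1] t1 t58

theorem ok59 : chk K t59 r1 = true :=
  chk_I (e' := [0,1,0,-1,0,0,0,1]) (by decide +kernel) (by decide +kernel) ok1 ok58

noncomputable def t60 : Tre :=
  .I [1,-1,2,2,-1] t0 t59

theorem ok60 : chk K t60 l0 = true :=
  chk_I (e' := [0,1,-2,-2,1]) (by decide +kernel) (by decide +kernel) ok0 ok59

noncomputable def t62 : Tre :=
  .Q [0,0,0,0,0,0,-1,0,0,0,-1] (.p false [0,0,1] [] (⟨0,[(13,0)]⟩,⟨0,[(12,0)]⟩) .k 0 (⟨0,[]⟩,⟨0,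
  []⟩) .k .k) t60 t61

theorem ok62 : chk K t62 base = true :=
  chk_Q (e' := [0,0,0,0,0,0,1,0,0,0,1]) (by decide +kernel) (by decide +kernel) ok60 ok61

theorem closed {p a b c J l q : ℤ} {D dl : ℝ} {Cl : ℤ → ℤ → ℤ → ℤ → ℝ → Prop}
    (W : World p a b c J 1 l q D dl Cl) (g : G0 p a b c J D)
    {N X R : ℤ} {I : ℝ} (hk : KCl p l Cl N X R I) (kz : KF a b D (X + (1 : ℤ) * I) (X + (1 : ℤ) * I + R) I)
    {Ne Xe : ℤ} {Ie : ℝ} (he : EFac p 1 D Cl 1 Ne Xe Ie)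
    (hkf : ∀ kf ∈ (kfY 1 [0,0,0,0,0,0,1,0,0,0,1]), KOk p l Cl 1
      (xv [1, a, b, c, p, J, X, R, Xe] [D, I, Ie]) N kf)
    (h0 : 1 ≤ (c : ℝ))
    (h1 : 1 ≤ (a : ℝ) - (b : ℝ))
    (h2 : 1 ≤ 1 - (a : ℝ) + (b : ℝ) + (c : ℝ))
    (h3 : 0 < -3 + (p : ℝ) - 2 * D)
    (h4 : 1 ≤ 2 * (a : ℝ) - (b : ℝ))
    (h5 : 1 ≤ -2 + (J : ℝ))
    (h6 : 0 < -(b : ℝ) - (X : ℝ) + D - I)
    (h7 : 0 < -(J : ℝ) + I)
    (h8 : 0 < -(J : ℝ) + D - I)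
    (h9 : 0 < -2 * (X : ℝ) + D - 2 * I) : False := by
  have g1 := g.a2
  have g2 := g.b2
  have g3 := g.pa
  have g4 := g.pb
  have g5 := g.J1
  have g6 := g.JD
  have g7 := g.D2
  have g8 := g.ca
  have g9 := g.ca'
  have k1 := kz.I0
  have k2 := kz.ID
  have k3 := kz.z1
  have k4 := kz.z2
  have k5 := kz.s1
  have k6 := kz.s2
  have e1 := he.I0
  have e2 := he.ID
  have e3 := he.x0
  have e4 := he.xp
  push_cast at *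
  refine (val_E W.toBase hk he (row := [1]) (by simp) (by simp) (kfY 1 [0,0,0,0,0,0,1,0,0,0,1])).sound W rfl (Nk := N)
    (fun kf _ _ => ⟨_, rfl⟩) hkf ?_ ok62
  · simp only [base, List.forall_mem_cons, List.not_mem_nil, false_imp_iff, implies_true,
      and_true, hld, xv, evg_cons, evg_nil, List.map_cons, List.map_nil, List.cons_append,
      List.nil_append, if_true, if_false, Bool.false_eq_true]
    push_cast
    refine ⟨?_, ?_, ?_, ?_, ?_, ?_, ?_, ?_, ?_, ?_, ?_, ?_, ?_, ?_, ?_, ?_, ?_, ?_, ?_, ?_, ?_, ?_, ?_, ?_, ?_, ?_, ?_, ?_⟩ <;> linarith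

end Helper48.Y.Y11_c2_P4_m1n1
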