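import Pool.Agent.Helper48.Y.Y11_c35_P2_m1n1_CC_q

set_option autoImplicit false
set_option linter.all false

namespace Helper48.Y.Y11_c35_P2_m1n1_CC

open Helper25.KG Helper25.KW Helper55.KE Helper11.CT

noncomputable def t11 : Tre :=
  (.R ⟨2,true,false,false,[0,1],[0,1,1],[0,1,1,1],(⟨0,[]⟩,⟨0,[]⟩),(⟨0,[(20,0),(1,0)]⟩,⟨0,[(8,0)]⟩),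
  ⟨0,[]⟩,.k,.k,.k,.k,.k,.k,⟨true,0,⟨1,[(2,0),(23,0)]⟩,⟨2,[(0,0),(0,0),(1,1),(23,1),(6,0)]⟩⟩,⟨false,
  1,⟨0,[(17,0),(15,0)]⟩,⟨9,[(1,1),(1,1),(0,1),(2,0),(6,3),(12,1),(0,0)]⟩⟩,⟨true,0,⟨0,[(36,0)]⟩,⟨0,
  []⟩⟩,⟨false,1,⟨0,[(15,0),(18,0)]⟩,⟨0,[(4,0)]⟩⟩,⟨false,0,⟨0,[(32,0)]⟩,⟨3,[(6,1),(3,0),(0,0),(22,
  0)]⟩⟩,⟨true,0,⟨0,[(0,0)]⟩,⟨0,[(4,0),(26,0)]⟩⟩,[]⟩)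

theorem ok11 : chk K t11 r7 = true := by decide +kernel

noncomputable def t14 : Tre :=
  (.Q [0,-1,0,0,1,0,1,1,0,-1,1] (.p true [0,0,1] [1] (⟨0,[(18,0)]⟩,⟨0,[(17,0)]⟩) .k 1 (⟨0,[]⟩,⟨0,
  []⟩) .k .k) (.S ⟨1,0,[0,0,0,0,0,0,0,1],[0,0,1],[0,1,0,0,0,0,0,1],(⟨0,[(19,0)]⟩,⟨0,[(18,0)]⟩),⟨0,
  [(8,0)]⟩,.k,.k,⟨true,0,⟨0,[(35,0)]⟩,⟨0,[]⟩⟩,⟨false,1,⟨1,[(9,0),(0,0),(22,0)]⟩,⟨0,[]⟩⟩,⟨false,0,⟨0,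
  [(31,0)]⟩,⟨3,[(5,1),(3,0),(0,0),(22,0)]⟩⟩,⟨true,0,⟨0,[(31,0)]⟩,⟨0,[(30,0)]⟩⟩,[.o ⟨false,1,⟨20,[(0,
  10),(8,5),(0,5),(3,9),(12,1),(7,0)]⟩,⟨0,[(3,0)]⟩⟩,.o ⟨false,1,⟨0,[(0,0)]⟩,⟨0,[(15,0)]⟩⟩,.o ⟨false,
  1,⟨9,[(9,0),(0,0),(5,9),(10,1),(4,4)]⟩,⟨2,[(1,0),(1,1),(13,0)]⟩⟩,.a ⟨true,0,⟨0,[(16,0)]⟩,⟨0,[(13,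
  0)]⟩⟩ ⟨true,0,⟨1,[(1,0),(23,0)]⟩,⟨0,[(3,0),(12,0)]⟩⟩ ⟨false,1,⟨5,[(0,0),(0,1),(4,0),(7,0),(17,1),
  (0,2)]⟩,⟨0,[(3,0),(12,0)]⟩⟩]⟩) (.Q [0,-1,0,1,1,0,1,1,0,-1,1] (.p true [0,0,1] [1] (⟨0,[(19,0)]⟩,
  ⟨0,[(18,0)]⟩) .k 1 (⟨0,[]⟩,⟨0,[]⟩) .k .k) (.R ⟨2,true,false,true,[0,1],[1,0,-1],[1,1,1],(⟨0,[]⟩,
  ⟨0,[]⟩),(⟨0,[(19,0)]⟩,⟨0,[(20,0)]⟩),⟨0,[]⟩,.k,.k,.k,.k,.k,.k,⟨false,0,⟨3,[(2,1),(14,0),(0,0)]⟩,⟨0,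
  [(4,0),(12,0),(15,0)]⟩⟩,⟨true,(-1),⟨3,[(1,3),(0,1),(14,0),(0,0),(8,3)]⟩,⟨9,[(10,0),(0,0),(5,9),
  (10,1),(4,4)]⟩⟩,⟨true,0,⟨0,[(31,0)]⟩,⟨0,[(32,0)]⟩⟩,⟨false,0,⟨3,[(1,2),(4,1),(7,0),(1,0),(0,0),(16,
  0)]⟩,⟨0,[(0,0)]⟩⟩,⟨false,0,⟨0,[]⟩,⟨1,[(10,0),(0,0),(22,0)]⟩⟩,⟨true,(-1),⟨0,[(1,0)]⟩,⟨51,[(0,21),
  (5,10),(3,6),(0,6),(3,29),(12,5),(7,2)]⟩⟩,[]⟩) (.Q [0,-1,0,2,1,0,1,1,0,-1,1] (.p true [0,0,1] [1]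
  (⟨0,[(20,0)]⟩,⟨0,[(19,0)]⟩) .k 1 (⟨0,[]⟩,⟨0,[]⟩) .k .k) (.R ⟨1,true,false,false,[1,0,-1],[0,1],[0,
  0,0,0,0,0,0,-1],(⟨0,[(20,0)]⟩,⟨0,[(21,0)]⟩),(⟨0,[(26,0)]⟩,⟨0,[(25,0)]⟩),⟨0,[(9,0)]⟩,.k,.k,.k,.k,
  (.r (-2) ⟨21,[(1,9),(3,4),(1,16),(9,6),(0,21),(10,1),(4,32)]⟩ ⟨2,[(0,2),(1,7),(0,3),(14,4),(9,4),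
  (0,0)]⟩),.k,⟨true,1,⟨6,[(1,4),(3,1),(1,0),(10,6),(10,0),(4,6),(0,1)]⟩,⟨5,[(0,2),(1,12),(0,7),(14,
  9),(9,9),(0,1)]⟩⟩,⟨false,2,⟨9,[(11,0),(0,0),(5,9),(10,1),(4,14)]⟩,⟨3,[(2,3),(0,1),(14,0),(0,0),(8,
  3)]⟩⟩,⟨false,1,⟨1,[(11,0),(0,0),(22,0)]⟩,⟨0,[]⟩⟩,⟨true,1,⟨61,[(0,31),(6,0),(3,16),(0,16),(3,29),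
  (12,5),(7,2)]⟩,⟨0,[(1,0)]⟩⟩,⟨true,0,⟨0,[(33,0)]⟩,⟨0,[(32,0)]⟩⟩,⟨false,1,⟨0,[(0,0)]⟩,⟨0,[(2,0),(4,
  0)]⟩⟩,[]⟩) (.Q [0,0,0,0,0,2,0,0,0,-1,1] (.p true [0,0,1] [1] (⟨0,[(21,0)]⟩,⟨0,[(20,0)]⟩) .k 1 (⟨0,
  []⟩,⟨0,[]⟩) .k .k) (.Q [0,-1,1,0,-1,0,-2,-1,0,1,-2] (.p false [0,0,1] [1,0,-1] (⟨0,[(22,0)]⟩,⟨0,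
  [(21,0)]⟩) .k 2 (⟨0,[(21,0)]⟩,⟨0,[(22,0)]⟩) .k (.r 0 ⟨1,[(4,1),(14,0),(0,0)]⟩ ⟨0,[(6,1),(12,1),
  (15,0)]⟩)) (.R ⟨0,false,false,true,[1,-1,-1],[0,0,1],[1,1],(⟨0,[(11,0)]⟩,⟨1,[(1,0),(15,0),(2,0),
  (2,0)]⟩),(⟨0,[(23,0)]⟩,⟨0,[(22,0)]⟩),⟨0,[(1,0)]⟩,.k,.k,(.r (-2) ⟨15,[(2,4),(4,4),(1,10),(9,5),(0,
  15),(10,0),(4,23)]⟩ ⟨5,[(0,4),(3,4),(0,7),(14,14),(10,1),(3,11)]⟩),(.x 2 ⟨1,[(1,3),(0,2),(1,0),(0,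
  1),(18,5),(5,3),(4,5)]⟩ ⟨9,[(11,9),(1,6),(0,6),(5,19),(1,9),(8,3),(4,14)]⟩),.k,.k,⟨false,1,⟨0,[(7,
  0),(12,0),(15,0)]⟩,⟨3,[(5,1),(14,0),(0,0)]⟩⟩,⟨true,2,⟨9,[(13,0),(0,0),(5,19),(10,1),(4,14)]⟩,⟨2,
  [(0,3),(3,3),(0,3),(14,5),(10,0)]⟩⟩,⟨true,(-1),⟨2,[(0,0),(3,3),(0,3),(14,5),(10,0),(3,2)]⟩,⟨11,
  [(2,4),(4,6),(1,0),(10,11),(10,0),(4,11),(0,1)]⟩⟩,⟨false,1,⟨4,[(5,3),(12,1),(1,7),(10,0),(3,4),(0,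
  1),(0,0)]⟩,⟨1,[(2,0),(1,0),(2,1),(29,1)]⟩⟩,⟨false,0,⟨0,[]⟩,⟨0,[]⟩⟩,⟨false,0,⟨0,[]⟩,⟨0,[]⟩⟩,[.a
  ⟨true,0,⟨0,[(18,0)]⟩,⟨0,[(4,0),(32,0)]⟩⟩ ⟨true,0,⟨0,[(39,0)]⟩,⟨0,[(30,0)]⟩⟩ ⟨false,2,⟨9,[(13,0),
  (0,0),(3,9),(1,9),(10,1),(4,14)]⟩,⟨0,[(0,0)]⟩⟩,.o ⟨false,1,⟨9,[(13,0),(0,0),(3,9),(12,1),(5,4)]⟩,
  ⟨0,[(7,0)]⟩⟩,.e ⟨false,0,⟨0,[]⟩,⟨1,[(13,0),(0,0),(22,0)]⟩⟩ ⟨false,2,⟨9,[(13,0),(0,0),(3,9),(1,9),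
  (10,1),(4,9),(0,4)]⟩,⟨0,[(0,0)]⟩⟩,.o ⟨false,(-1),⟨2,[(0,3),(3,0),(0,0),(12,2),(1,2),(10,0)]⟩,⟨9,
  [(13,0),(0,0),(5,9),(10,1),(4,14)]⟩⟩]⟩) (.R ⟨0,false,false,true,[1,-1,-1],[0,0,1],[1,1],(⟨0,[(11,
  0)]⟩,⟨1,[(1,0),(15,0),(2,0),(2,0)]⟩),(⟨0,[(23,0)]⟩,⟨0,[(22,0)]⟩),⟨0,[(1,0)]⟩,.k,.k,(.r (-2) ⟨3,
  [(0,0),(1,0),(4,2),(1,2),(9,0),(0,2),(15,4)]⟩ ⟨2,[(4,4),(0,3),(14,4),(9,4),(0,0),(3,5)]⟩),(.x 2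
  ⟨1,[(1,3),(0,2),(1,0),(0,1),(18,5),(5,3),(4,5)]⟩ ⟨9,[(0,14),(6,3),(3,9),(7,10),(0,4),(1,9),(8,0),
  (5,12)]⟩),.k,.k,⟨false,1,⟨0,[(7,0),(12,0),(15,0)]⟩,⟨3,[(5,1),(14,0),(0,0)]⟩⟩,⟨true,2,⟨1,[(0,1),(6,
  1),(12,1),(15,0),(0,0)]⟩,⟨2,[(4,7),(0,3),(14,1),(9,7),(0,0)]⟩⟩,⟨true,(-1),⟨2,[(4,4),(0,3),(14,4),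
  (9,1),(0,0),(3,2)]⟩,⟨11,[(2,4),(4,6),(1,0),(10,11),(10,0),(4,11),(0,1)]⟩⟩,⟨false,1,⟨6,[(0,1),(4,
  3),(12,3),(1,5),(10,0),(3,6),(1,2)]⟩,⟨1,[(2,0),(1,0),(2,1),(29,1)]⟩⟩,⟨false,0,⟨0,[]⟩,⟨0,[]⟩⟩,
  ⟨false,0,⟨0,[]⟩,⟨0,[]⟩⟩,[.e ⟨true,0,⟨0,[(39,0)]⟩,⟨0,[(30,0)]⟩⟩ ⟨true,1,⟨0,[(0,0)]⟩,⟨9,[(4,11),(0,
  1),(1,1),(2,2),(19,21),(0,0)]⟩⟩,.o ⟨false,1,⟨5,[(0,0),(7,1),(9,2),(1,0),(10,0),(5,2)]⟩,⟨0,[(7,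
  0)]⟩⟩,.a ⟨true,(-1),⟨3,[(4,3),(0,1),(14,0),(0,0),(8,3)]⟩,⟨0,[(20,0),(15,0)]⟩⟩ ⟨false,0,⟨0,[]⟩,⟨1,
  [(13,0),(0,0),(22,0)]⟩⟩ ⟨true,1,⟨0,[(0,0)]⟩,⟨9,[(4,11),(0,1),(1,1),(2,2),(19,11),(0,0)]⟩⟩,.o
  ⟨false,(-1),⟨11,[(4,19),(0,9),(14,10),(0,2),(8,19),(0,3)]⟩,⟨1,[(0,1),(6,1),(28,0),(0,0)]⟩⟩]⟩))
  (.Q [0,0,-1,0,0,0,0,0,1,-1,0,1] (.p true [0,0,0,0,1] [1] (⟨0,[(15,0)]⟩,⟨0,[(14,0)]⟩) .k 1 (⟨0,[]⟩,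
  ⟨0,[]⟩) .k .k) (.Q [-1,0,0,0,1,0,0,0,-1,0,0,-1] (.p false [0,0,0,0,1] [] (⟨0,[(16,0)]⟩,⟨0,[(15,
  0)]⟩) .k 0 (⟨0,[]⟩,⟨0,[]⟩) .k .k) (.R ⟨1,false,false,true,[0,0,1],[1,0,0,0,-1],[1,1,0,-1,0,0,0,1],
  (⟨0,[(24,0)]⟩,⟨0,[(23,0)]⟩),(⟨0,[(16,0)]⟩,⟨0,[(17,0)]⟩),⟨0,[(13,0)]⟩,.k,.k,.k,.k,(.r (-1) ⟨11,[(6,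
  1),(2,7),(0,5),(26,4),(0,0)]⟩ ⟨0,[(8,0),(12,0),(14,0)]⟩),.k,⟨true,0,⟨0,[(7,0)]⟩,⟨0,[(8,0),(12,0),
  (14,0)]⟩⟩,⟨false,1,⟨0,[(0,0),(17,0)]⟩,⟨0,[(1,0),(19,0)]⟩⟩,⟨true,0,⟨0,[(35,0)]⟩,⟨0,[(36,0)]⟩⟩,
  ⟨true,0,⟨0,[(0,0),(4,0)]⟩,⟨3,[(1,3),(4,1),(14,4),(0,0)]⟩⟩,⟨false,0,⟨0,[]⟩,⟨1,[(0,0),(14,0),(22,
  0)]⟩⟩,⟨true,0,⟨0,[(0,0),(4,0),(30,0)]⟩,⟨0,[(1,0),(5,0),(13,0)]⟩⟩,[.o ⟨false,1,⟨0,[(0,0),(39,0)]⟩,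
  ⟨0,[(1,0),(29,0)]⟩⟩,.o ⟨false,1,⟨0,[(0,0)]⟩,⟨1,[(1,1),(19,0),(0,0)]⟩⟩,.o ⟨false,1,⟨9,[(0,0),(14,
  0),(5,9),(10,1),(4,4)]⟩,⟨9,[(5,1),(0,1),(1,1),(2,2),(19,1),(0,0)]⟩⟩,.a ⟨true,0,⟨0,[(21,0)]⟩,⟨0,
  [(18,0)]⟩⟩ ⟨true,0,⟨33,[(3,14),(2,16),(3,1),(8,14),(10,2),(1,2),(4,6)]⟩,⟨0,[(8,0),(12,0),(14,
  0)]⟩⟩ ⟨false,1,⟨0,[(0,0),(17,0)]⟩,⟨0,[(1,0),(19,0),(9,0)]⟩⟩]⟩) (.R ⟨2,true,false,false,[0,1],[0,0,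
  0,0,1],[1,1,1],(⟨0,[]⟩,⟨0,[]⟩),(⟨0,[(17,0)]⟩,⟨0,[(16,0)]⟩),⟨0,[]⟩,.k,.k,.k,(.r 0 ⟨1,[(21,0),(0,0),
  (13,1)]⟩ ⟨7,[(10,3),(3,0),(0,0),(14,1),(6,2)]⟩),.k,.k,⟨false,0,⟨0,[(40,0)]⟩,⟨1,[(37,0),(0,0)]⟩⟩,
  ⟨true,(-1),⟨3,[(0,3),(20,0),(0,0),(16,1)]⟩,⟨0,[(14,0)]⟩⟩,⟨true,0,⟨0,[(35,0)]⟩,⟨0,[(36,0)]⟩⟩,
  ⟨false,0,⟨3,[(0,2),(9,1),(4,0),(22,0)]⟩,⟨0,[(14,0),(21,0)]⟩⟩,⟨false,0,⟨0,[]⟩,⟨1,[(14,0),(0,0),(22,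
  0)]⟩⟩,⟨true,(-1),⟨0,[(0,0)]⟩,⟨0,[(14,0),(25,0)]⟩⟩,[]⟩)) (.Q [0,-1,1,1,0,0,0,0,1,-1,0,1] (.p true
  [0,0,0,0,1] [1] (⟨0,[(16,0)]⟩,⟨0,[(15,0)]⟩) .k 1 (⟨0,[]⟩,⟨0,[]⟩) .k .k) (.Q [-1,0,0,0,1,0,1,1,-1,
  0,1,-1] (.p true [0,0,1] [0,0,0,0,1] (⟨0,[(24,0)]⟩,⟨0,[(23,0)]⟩) .k 2 (⟨0,[(17,0)]⟩,⟨0,[(16,0)]⟩)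
  .k (.r 0 ⟨11,[(0,0),(0,0),(4,4),(0,0),(1,0),(29,2)]⟩ ⟨1,[(20,1),(0,1),(15,0),(0,0)]⟩)) (.Q [0,0,
  -2,0,0,0,-1,0,1,0,-1,1] (.p false [0,0,1] [0,0,0,0,1] (⟨0,[(25,0)]⟩,⟨0,[(24,0)]⟩) .k 2 (⟨0,[(18,
  0)]⟩,⟨0,[(17,0)]⟩) .k (.r 0 ⟨11,[(1,0),(0,0),(4,4),(0,0),(1,0),(29,2)]⟩ ⟨1,[(21,1),(0,1),(15,0),
  (0,0)]⟩)) (.Q [0,0,0,0,0,-1,0,0,0,0,0,1] (.ed false [1,-1,0,0,1] .k) (.S ⟨1,0,[1],[0,0,0,0,1],[1,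
  1],(⟨0,[(20,0)]⟩,⟨0,[(19,0)]⟩),⟨0,[(0,0)]⟩,.k,(.r (-1) ⟨7,[(13,3),(3,0),(0,0),(14,1),(6,2)]⟩ ⟨4,
  [(3,2),(0,2),(28,0),(5,1),(3,0)]⟩),⟨true,0,⟨0,[(43,0)]⟩,⟨0,[]⟩⟩,⟨false,1,⟨1,[(17,0),(0,0),(22,
  0)]⟩,⟨0,[]⟩⟩,⟨false,0,⟨0,[(39,0)]⟩,⟨3,[(13,1),(3,0),(0,0),(22,0)]⟩⟩,⟨true,0,⟨0,[(39,0)]⟩,⟨0,[(38,
  0)]⟩⟩,[.o ⟨false,0,⟨4,[(1,2),(1,1),(2,0),(1,0),(0,0),(14,4),(10,0)]⟩,⟨0,[(2,0),(8,0)]⟩⟩,.a ⟨true,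
  0,⟨0,[(1,0),(22,0),(9,0)]⟩,⟨0,[(2,0),(5,0)]⟩⟩ ⟨true,0,⟨0,[]⟩,⟨1,[(24,0),(0,0)]⟩⟩ ⟨false,1,⟨1,[(40,
  0),(0,0)]⟩,⟨0,[(43,0)]⟩⟩,.o ⟨false,0,⟨4,[(1,2),(1,1),(2,0),(1,0),(0,0),(14,4),(10,0)]⟩,⟨0,[(17,
  0)]⟩⟩,.e ⟨false,1,⟨1,[(17,0),(0,0),(21,0)]⟩,⟨0,[(34,0)]⟩⟩ ⟨false,1,⟨1,[(40,0),(0,0)]⟩,⟨1,[(24,0),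
  (0,0)]⟩⟩]⟩) (.S ⟨1,0,[-1,1],[1,0,0,0,-1],[-1],(⟨0,[(19,0)]⟩,⟨0,[(20,0)]⟩),⟨1,[(0,0),(4,0),(10,0),
  (2,0)]⟩,.k,(.r (-1) ⟨13,[(13,6),(3,0),(0,0),(14,1),(6,5),(2,2)]⟩ ⟨2,[(3,1),(0,1),(28,0),(5,0)]⟩),
  ⟨false,1,⟨1,[(17,0),(0,0),(22,0)]⟩,⟨0,[]⟩⟩,⟨true,0,⟨0,[(43,0)]⟩,⟨0,[]⟩⟩,⟨true,0,⟨0,[(39,0)]⟩,⟨0,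
  [(38,0)]⟩⟩,⟨false,0,⟨0,[(39,0)]⟩,⟨3,[(13,1),(3,0),(0,0),(22,0)]⟩⟩,[.a ⟨true,0,⟨0,[(2,0),(5,0)]⟩,
  ⟨0,[(1,0),(22,0),(9,0)]⟩⟩ ⟨false,1,⟨9,[(17,3),(0,3),(21,4),(0,0),(1,1)]⟩,⟨0,[]⟩⟩ ⟨true,0,⟨0,[(43,
  0)]⟩,⟨0,[(34,0)]⟩⟩,.o ⟨false,1,⟨0,[(2,0),(8,0)]⟩,⟨4,[(1,2),(1,1),(2,0),(1,0),(0,0),(14,4),(10,
  0)]⟩⟩,.o ⟨false,1,⟨0,[(17,0)]⟩,⟨4,[(1,2),(1,1),(2,0),(1,0),(0,0),(14,4),(10,0)]⟩⟩,.e ⟨false,1,⟨0,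
  [(34,0),(5,0)]⟩,⟨1,[(24,0),(0,0)]⟩⟩ ⟨false,1,⟨9,[(17,3),(0,3),(21,4),(0,0),(1,1)]⟩,⟨0,[(34,
  0)]⟩⟩]⟩)) (.Q [0,0,1,1,0,0,0,0,-1,0,0,-1] (.p false [0,0,0,0,1] [] (⟨0,[(19,0)]⟩,⟨0,[(18,0)]⟩) .k
  0 (⟨0,[]⟩,⟨0,[]⟩) .k .k) (.Q [0,0,0,0,0,-1,0,0,0,0,0,1] (.ed false [1,-1,0,0,1] .k) (.Q [1,0,0,0,
  0,0,0,0,1,-1,0,1] (.p true [0,0,0,0,1] [1] (⟨0,[(21,0)]⟩,⟨0,[(20,0)]⟩) .k 1 (⟨0,[]⟩,⟨0,[]⟩) .k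
  .k) (.Q [-1,-1,0,0,1,0,0,0,-1,0,0,-1] (.p false [0,0,0,0,1] [] (⟨0,[(22,0)]⟩,⟨0,[(21,0)]⟩) .k 0
  (⟨0,[]⟩,⟨0,[]⟩) .k .k) (.R ⟨1,false,false,true,[0,0,1],[0,0,0,0,1],[1,1,0,-1,0,0,0,1],(⟨0,[(30,
  0)]⟩,⟨0,[(29,0)]⟩),(⟨0,[(23,0)]⟩,⟨0,[(22,0)]⟩),⟨0,[(19,0)]⟩,.k,.k,.k,.k,(.r (-1) ⟨115,[(5,9),(6,
  23),(2,57),(0,57),(0,4),(3,9),(16,0),(4,45)]⟩ ⟨0,[(14,0),(12,0),(14,0)]⟩),.k,⟨true,0,⟨2,[(9,4),(2,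
  3),(14,4),(9,4),(0,0),(3,6),(0,2)]⟩,⟨0,[(14,0),(12,0),(14,0)]⟩⟩,⟨false,0,⟨10,[(1,5),(4,3),(2,1),
  (1,1),(0,1),(4,0),(3,0),(2,4),(18,3)]⟩,⟨0,[(4,0),(38,0)]⟩⟩,⟨true,0,⟨0,[(41,0)]⟩,⟨0,[(42,0)]⟩⟩,
  ⟨true,(-1),⟨0,[(1,0),(9,0)]⟩,⟨0,[(5,0)]⟩⟩,⟨false,0,⟨0,[]⟩,⟨1,[(20,0),(0,0),(22,0)]⟩⟩,⟨true,(-1),
  ⟨0,[(1,0),(9,0),(30,0)]⟩,⟨19,[(4,12),(0,6),(3,4),(2,8),(3,4),(10,4),(10,0),(4,10)]⟩⟩,[.o ⟨false,0,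
  ⟨0,[(1,0),(44,0)]⟩,⟨0,[(0,0)]⟩⟩,.o ⟨false,0,⟨0,[(1,0)]⟩,⟨2,[(0,0),(19,1),(25,0)]⟩⟩,.o ⟨false,1,⟨9,
  [(20,0),(0,0),(5,9),(10,1),(4,4)]⟩,⟨9,[(11,1),(0,1),(1,1),(2,2),(19,1),(0,0)]⟩⟩,.a ⟨true,0,⟨0,
  [(27,0)]⟩,⟨0,[(24,0)]⟩⟩ ⟨true,0,⟨33,[(9,14),(2,16),(3,1),(8,14),(10,2),(1,2),(4,6)]⟩,⟨0,[(14,0),
  (12,0),(14,0)]⟩⟩ ⟨false,0,⟨0,[(1,0),(22,0)]⟩,⟨1,[(4,1),(38,0),(0,0)]⟩⟩]⟩) (.K ⟨0,[0,0,0,0,1],(-1),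
  (-1),(⟨0,[(23,0)]⟩,⟨0,[(22,0)]⟩),.k,(.r (-1) ⟨7,[(16,3),(3,0),(0,0),(14,1),(6,2)]⟩ ⟨4,[(6,2),(0,
  2),(28,0),(5,1),(3,0)]⟩),(.r 0 ⟨2,[(6,1),(0,1),(28,0),(5,0)]⟩ ⟨13,[(16,6),(3,0),(0,0),(14,1),(6,
  5),(2,2)]⟩),.k,.k,[⟨0,[(4,0),(38,0)]⟩,⟨0,[(0,0),(36,0)]⟩,⟨0,[(5,0),(20,0)]⟩,⟨0,[(0,0)]⟩]⟩)) (.R
  ⟨1,false,false,true,[0,0,0,0,1],[0,0,1],[1,1],(⟨0,[(22,0)]⟩,⟨0,[(21,0)]⟩),(⟨0,[(29,0)]⟩,⟨0,[(28,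
  0)]⟩),⟨0,[(1,0)]⟩,.k,.k,(.r (-1) ⟨7,[(15,3),(3,0),(0,0),(14,1),(6,2)]⟩ ⟨4,[(5,2),(0,2),(28,0),(5,
  1),(3,0)]⟩),.k,(.r (-1) ⟨11,[(8,4),(4,6),(1,0),(10,11),(10,0),(4,11),(0,1)]⟩ ⟨4,[(5,2),(0,2),(4,
  0),(2,2),(26,1)]⟩),.k,⟨false,1,⟨0,[(13,0),(12,0),(15,0)]⟩,⟨11,[(3,1),(1,0),(5,4),(0,0),(1,0),(1,
  0),(3,0)]⟩⟩,⟨true,1,⟨0,[(3,0),(38,0)]⟩,⟨10,[(3,1),(1,11),(2,5),(1,4),(0,4),(2,0),(1,0),(3,0)]⟩⟩,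
  ⟨true,0,⟨0,[(45,0)]⟩,⟨0,[]⟩⟩,⟨false,1,⟨0,[(4,0)]⟩,⟨1,[(5,1),(2,0),(1,0),(31,0),(0,0)]⟩⟩,⟨false,0,
  ⟨0,[(41,0)]⟩,⟨3,[(15,1),(3,0),(0,0),(22,0)]⟩⟩,⟨false,1,⟨0,[(4,0),(36,0)]⟩,⟨1,[(5,1),(2,1),(33,0),
  (0,0)]⟩⟩,[.a ⟨true,0,⟨0,[(24,0)]⟩,⟨0,[(10,0),(32,0)]⟩⟩ ⟨true,0,⟨0,[(45,0)]⟩,⟨0,[(36,0)]⟩⟩ ⟨false,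
  1,⟨6,[(0,4),(3,1),(19,4),(10,0),(1,0),(4,2)]⟩,⟨1,[(5,1),(2,0),(1,0),(31,0),(0,0)]⟩⟩,.o ⟨false,1,
  ⟨4,[(4,0),(15,0),(3,3),(12,0),(5,1)]⟩,⟨0,[(13,0)]⟩⟩,.e ⟨false,0,⟨0,[]⟩,⟨1,[(19,0),(0,0),(22,0)]⟩⟩
  ⟨false,1,⟨0,[(4,0)]⟩,⟨1,[(5,1),(2,0),(1,0),(31,0),(0,0)]⟩⟩,.o ⟨false,0,⟨0,[(5,0),(34,0)]⟩,⟨5,[(0,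
  4),(18,0),(17,0),(4,2)]⟩⟩]⟩)) (.Q [-1,-1,0,0,1,0,0,0,-1,0,0,-1] (.p false [0,0,0,0,1] [] (⟨0,[(21,
  0)]⟩,⟨0,[(20,0)]⟩) .k 0 (⟨0,[]⟩,⟨0,[]⟩) .k .k) (.Q [0,0,-1,0,1,0,0,0,-1,0,0,-1] (.p false [0,0,0,
  0,1] [] (⟨0,[(22,0)]⟩,⟨0,[(21,0)]⟩) .k 0 (⟨0,[]⟩,⟨0,[]⟩) .k .k) (.R ⟨0,false,false,false,[0,0,0,0,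
  1],[0,1],[1,1],(⟨0,[(23,0)]⟩,⟨0,[(22,0)]⟩),(⟨0,[(35,0)]⟩,⟨0,[(34,0)]⟩),⟨0,[(2,0)]⟩,.k,.k,(.r (-1)
  ⟨7,[(16,3),(3,0),(0,0),(14,1),(6,2)]⟩ ⟨4,[(6,2),(0,2),(28,0),(5,1),(3,0)]⟩),(.r (-1) ⟨7,[(16,3),
  (3,0),(0,0),(14,1),(6,2)]⟩ ⟨4,[(6,2),(0,2),(28,0),(5,1),(3,0)]⟩),.k,.k,⟨false,1,⟨33,[(9,4),(6,11),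
  (8,4),(10,17),(1,0),(4,24)]⟩,⟨0,[(37,0),(4,0)]⟩⟩,⟨true,1,⟨0,[(0,0)]⟩,⟨1,[(4,0),(1,1),(2,0),(1,0),
  (0,0),(8,0),(5,0)]⟩⟩,⟨true,0,⟨0,[(46,0)]⟩,⟨0,[]⟩⟩,⟨false,1,⟨0,[(1,0),(40,0)]⟩,⟨32,[(6,12),(2,17),
  (2,8),(3,4),(4,19),(5,17),(10,0),(4,10)]⟩⟩,⟨false,0,⟨0,[]⟩,⟨0,[]⟩⟩,⟨false,0,⟨0,[]⟩,⟨0,[]⟩⟩,[.a
  ⟨true,0,⟨0,[(42,0)]⟩,⟨11,[(9,3),(2,1),(3,1),(7,7),(2,11),(15,0),(0,0)]⟩⟩ ⟨true,0,⟨0,[(46,0)]⟩,⟨0,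
  [(37,0)]⟩⟩ ⟨false,1,⟨0,[(0,0),(41,0)]⟩,⟨32,[(6,12),(2,17),(2,8),(3,4),(4,19),(5,17),(10,0),(4,
  10)]⟩⟩,.o ⟨false,1,⟨11,[(6,1),(13,1),(17,1),(3,9),(0,0),(0,4)]⟩,⟨0,[(41,0)]⟩⟩,.e ⟨false,0,⟨0,[]⟩,
  ⟨1,[(20,0),(0,0),(22,0)]⟩⟩ ⟨false,1,⟨0,[(1,0),(40,0)]⟩,⟨32,[(6,12),(2,17),(2,8),(3,4),(4,19),(5,
  17),(10,0),(4,10)]⟩⟩,.o ⟨false,0,⟨0,[(6,0),(34,0)]⟩,⟨0,[(0,0)]⟩⟩]⟩) (.R ⟨0,false,false,true,[0,0,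
  0,0,1],[1,-1],[0,0,1],(⟨0,[(23,0)]⟩,⟨0,[(22,0)]⟩),(⟨0,[(34,0)]⟩,⟨0,[(35,0)]⟩),⟨0,[(2,0)]⟩,.k,.k,
  (.r (-1) ⟨7,[(16,3),(3,0),(0,0),(14,1),(6,2)]⟩ ⟨4,[(6,2),(0,2),(28,0),(5,1),(3,0)]⟩),(.r 0 ⟨2,[(6,
  1),(0,1),(28,0),(5,0)]⟩ ⟨13,[(16,6),(3,0),(0,0),(14,1),(6,5),(2,2)]⟩),.k,.k,⟨false,0,⟨0,[(37,0),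
  (4,0)]⟩,⟨33,[(9,4),(6,11),(8,4),(10,17),(1,0),(4,24)]⟩⟩,⟨true,0,⟨0,[(7,0)]⟩,⟨4,[(0,3),(20,0),(16,
  0),(4,1)]⟩⟩,⟨false,0,⟨0,[(0,0),(0,0)]⟩,⟨1,[(20,0),(0,0),(21,0)]⟩⟩,⟨true,0,⟨1,[(5,1),(3,0),(1,0)]⟩,
  ⟨6,[(0,4),(5,1),(29,0),(1,0),(3,4),(0,2)]⟩⟩,⟨false,0,⟨0,[]⟩,⟨0,[]⟩⟩,⟨false,0,⟨0,[]⟩,⟨0,[]⟩⟩,[.o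
  ⟨false,0,⟨0,[(41,0)]⟩,⟨11,[(6,1),(13,1),(17,1),(3,9),(0,0),(0,4)]⟩⟩,.a ⟨true,0,⟨11,[(9,3),(2,1),
  (3,1),(7,7),(2,11),(15,0),(0,0)]⟩,⟨0,[(42,0)]⟩⟩ ⟨true,0,⟨0,[(37,0)]⟩,⟨0,[(46,0)]⟩⟩ ⟨false,1,⟨3,
  [(5,1),(1,1),(1,1),(33,2),(0,0)]⟩,⟨6,[(0,4),(5,1),(29,0),(1,0),(3,4),(0,2)]⟩⟩,.o ⟨false,0,⟨4,[(0,
  3),(20,0),(16,0),(4,1)]⟩,⟨0,[(20,0)]⟩⟩,.e ⟨false,1,⟨1,[(20,0),(0,0),(22,0)]⟩,⟨0,[]⟩⟩ ⟨false,1,⟨3,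
  [(5,1),(1,1),(1,1),(33,2),(0,0)]⟩,⟨0,[(6,0)]⟩⟩]⟩)) (.K ⟨0,[0,0,0,0,1],(-1),(-1),(⟨0,[(22,0)]⟩,⟨0,
  [(21,0)]⟩),.k,(.r (-1) ⟨7,[(15,3),(3,0),(0,0),(14,1),(6,2)]⟩ ⟨4,[(5,2),(0,2),(28,0),(5,1),(3,
  0)]⟩),(.r 0 ⟨2,[(5,1),(0,1),(28,0),(5,0)]⟩ ⟨13,[(15,6),(3,0),(0,0),(14,1),(6,5),(2,2)]⟩),.k,.k,
  [⟨0,[(3,0),(38,0)]⟩,⟨0,[(0,0),(35,0)]⟩,⟨0,[(4,0),(20,0)]⟩,⟨0,[(0,0)]⟩]⟩))) (.Q [1,1,0,0,-1,0,0,0,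
  1,0,0,1] (.p true [0,0,0,0,1] [] (⟨0,[(20,0)]⟩,⟨0,[(19,0)]⟩) .k 0 (⟨0,[]⟩,⟨0,[]⟩) .k .k) (.K ⟨0,
  [0,0,0,0,1],(-1),(-1),(⟨0,[(21,0)]⟩,⟨0,[(20,0)]⟩),.k,(.r (-1) ⟨7,[(14,3),(3,0),(0,0),(14,1),(6,
  2)]⟩ ⟨4,[(4,2),(0,2),(28,0),(5,1),(3,0)]⟩),(.r 0 ⟨2,[(4,1),(0,1),(28,0),(5,0)]⟩ ⟨13,[(14,6),(3,0),
  (0,0),(14,1),(6,5),(2,2)]⟩),.k,.k,[⟨0,[(2,0),(38,0)]⟩,⟨0,[(0,0),(34,0)]⟩,⟨0,[(3,0),(20,0)]⟩,⟨0,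
  [(0,0)]⟩]⟩) (.R ⟨1,false,false,true,[0,0,1],[0,0,0,0,1],[1,1,0,-1,0,0,0,1],(⟨0,[(28,0)]⟩,⟨0,[(27,
  0)]⟩),(⟨0,[(21,0)]⟩,⟨0,[(20,0)]⟩),⟨0,[(17,0)]⟩,.k,.k,.k,.k,(.r (-1) ⟨115,[(3,9),(6,23),(2,57),(0,
  57),(0,4),(3,9),(16,0),(4,45)]⟩ ⟨0,[(12,0),(12,0),(14,0)]⟩),.k,⟨true,0,⟨2,[(0,2),(0,7),(0,4),(4,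
  4),(2,3),(24,1),(0,0),(3,14)]⟩,⟨0,[(12,0),(12,0),(14,0)]⟩⟩,⟨false,0,⟨31,[(1,15),(2,15),(4,5),(0,
  2),(4,0),(6,23),(11,4),(1,2)]⟩,⟨0,[(2,0),(38,0)]⟩⟩,⟨true,0,⟨0,[(39,0)]⟩,⟨0,[(40,0)]⟩⟩,⟨true,(-1),
  ⟨4,[(1,2),(2,1),(4,6),(0,0),(14,1),(10,0),(3,0)]⟩,⟨0,[(3,0)]⟩⟩,⟨false,0,⟨0,[]⟩,⟨1,[(18,0),(0,0),
  (22,0)]⟩⟩,⟨true,(-1),⟨4,[(1,2),(2,1),(4,6),(0,0),(14,1),(10,0),(3,5)]⟩,⟨19,[(0,4),(0,9),(0,7),(0,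
  16),(3,4),(2,3),(25,0),(4,0)]⟩⟩,[.o ⟨false,0,⟨14,[(1,0),(2,8),(2,3),(11,4),(3,3),(10,7),(1,1)]⟩,
  ⟨0,[(0,0)]⟩⟩,.o ⟨false,0,⟨4,[(1,2),(2,1),(4,1),(0,0),(14,1),(10,0),(3,0)]⟩,⟨2,[(0,0),(17,1),(25,
  0)]⟩⟩,.o ⟨false,1,⟨9,[(18,0),(0,0),(5,9),(10,1),(4,4)]⟩,⟨9,[(9,1),(0,1),(1,1),(2,2),(19,1),(0,
  0)]⟩⟩,.a ⟨true,0,⟨0,[(25,0)]⟩,⟨0,[(22,0)]⟩⟩ ⟨true,0,⟨33,[(7,14),(2,16),(3,1),(8,14),(10,2),(1,2),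
  (4,6)]⟩,⟨0,[(12,0),(12,0),(14,0)]⟩⟩ ⟨false,0,⟨31,[(1,15),(2,15),(4,5),(0,2),(4,0),(6,23),(11,4),
  (1,2)]⟩,⟨1,[(2,1),(38,0),(0,0)]⟩⟩]⟩)))) (.Q [1,-1,0,0,0,0,0,0,1,-1,0,1] (.p true [0,0,0,0,1] [1]
  (⟨0,[(18,0)]⟩,⟨0,[(17,0)]⟩) .k 1 (⟨0,[]⟩,⟨0,[]⟩) .k .k) (.R ⟨1,false,false,false,[0,0,1],[0,0,0,0,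
  1],[0,1,0,0,0,0,0,1],(⟨0,[(26,0)]⟩,⟨0,[(25,0)]⟩),(⟨0,[(19,0)]⟩,⟨0,[(18,0)]⟩),⟨0,[(15,0)]⟩,.k,.k,
  .k,.k,(.r (-1) ⟨11,[(8,1),(2,7),(0,5),(26,4),(0,0)]⟩ ⟨0,[(10,0),(12,0),(14,0)]⟩),.k,⟨false,0,⟨2,
  [(5,4),(2,3),(14,4),(9,1),(0,0),(3,9),(0,2)]⟩,⟨1,[(10,1),(12,1),(15,0),(0,0)]⟩⟩,⟨true,(-1),⟨3,[(1,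
  1),(0,1),(2,0),(1,0),(0,1)]⟩,⟨0,[(16,0),(6,0)]⟩⟩,⟨true,0,⟨0,[(42,0)]⟩,⟨0,[]⟩⟩,⟨true,(-1),⟨0,[(1,
  0)]⟩,⟨1,[(8,0),(7,1),(6,1),(8,0)]⟩⟩,⟨false,0,⟨0,[(38,0)]⟩,⟨3,[(12,1),(3,0),(0,0),(22,0)]⟩⟩,⟨true,
  (-1),⟨0,[(1,0),(36,0)]⟩,⟨11,[(5,4),(2,6),(7,11),(4,2),(1,13),(8,0),(1,0),(2,1),(1,2)]⟩⟩,[.o
  ⟨false,0,⟨6,[(0,1),(0,1),(15,2),(3,1),(12,0)]⟩,⟨6,[(3,3),(0,0),(10,0),(0,2),(11,2),(5,0),(4,1)]⟩⟩,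
  .o ⟨false,0,⟨0,[(0,0)]⟩,⟨0,[(16,0),(25,0)]⟩⟩,.o ⟨false,1,⟨9,[(16,0),(0,0),(5,9),(10,1),(4,4)]⟩,⟨9,
  [(7,1),(0,1),(1,1),(2,2),(19,1),(0,0)]⟩⟩,.a ⟨true,0,⟨0,[(23,0)]⟩,⟨0,[(20,0)]⟩⟩ ⟨true,0,⟨1,[(8,0),
  (23,0)]⟩,⟨0,[(10,0),(12,0)]⟩⟩ ⟨false,0,⟨0,[(0,0),(19,0)]⟩,⟨6,[(3,3),(0,0),(10,0),(0,2),(6,6),(4,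
  2),(5,0),(4,1)]⟩⟩]⟩) (.Q [0,0,0,0,0,-1,0,0,0,0,0,1] (.ed false [1,-1,0,0,1] .k) (.S ⟨1,0,[1],[0,0,
  0,0,1],[1,1],(⟨0,[(20,0)]⟩,⟨0,[(19,0)]⟩),⟨0,[(0,0)]⟩,.k,(.r (-1) ⟨7,[(13,3),(3,0),(0,0),(14,1),(6,
  2)]⟩ ⟨0,[(1,0),(1,0)]⟩),⟨true,0,⟨0,[(43,0)]⟩,⟨0,[]⟩⟩,⟨false,1,⟨1,[(17,0),(0,0),(22,0)]⟩,⟨0,[]⟩⟩,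
  ⟨false,0,⟨0,[(39,0)]⟩,⟨3,[(13,1),(3,0),(0,0),(22,0)]⟩⟩,⟨true,0,⟨0,[(39,0)]⟩,⟨0,[(38,0)]⟩⟩,[.o
  ⟨false,0,⟨14,[(2,7),(6,3),(8,6),(5,7),(10,2),(4,1)]⟩,⟨8,[(1,4),(15,3),(17,0),(5,2),(1,0)]⟩⟩,.a
  ⟨true,0,⟨5,[(2,3),(6,1),(8,1),(5,3),(15,0),(0,2)]⟩,⟨0,[(1,0)]⟩⟩ ⟨true,0,⟨0,[]⟩,⟨1,[(24,0),(0,
  0)]⟩⟩ ⟨false,1,⟨1,[(40,0),(0,0)]⟩,⟨0,[(43,0)]⟩⟩,.o ⟨false,0,⟨24,[(2,13),(0,4),(5,6),(8,5),(5,13),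
  (10,3),(2,4),(1,5)]⟩,⟨0,[(17,0)]⟩⟩,.e ⟨false,1,⟨1,[(17,0),(0,0),(21,0)]⟩,⟨0,[(34,0)]⟩⟩ ⟨false,1,
  ⟨1,[(40,0),(0,0)]⟩,⟨1,[(24,0),(0,0)]⟩⟩]⟩) (.S ⟨1,0,[-1,1],[1,0,0,0,-1],[-1],(⟨0,[(19,0)]⟩,⟨0,[(20,
  0)]⟩),⟨1,[(0,0),(4,0),(10,0),(2,0)]⟩,.k,(.r (-1) ⟨13,[(13,6),(3,0),(0,0),(14,1),(6,5),(2,2)]⟩ ⟨0,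
  [(1,0),(1,0)]⟩),⟨false,1,⟨1,[(17,0),(0,0),(22,0)]⟩,⟨0,[]⟩⟩,⟨true,0,⟨0,[(43,0)]⟩,⟨0,[]⟩⟩,⟨true,0,
  ⟨0,[(39,0)]⟩,⟨0,[(38,0)]⟩⟩,⟨false,0,⟨0,[(39,0)]⟩,⟨3,[(13,1),(3,0),(0,0),(22,0)]⟩⟩,[.a ⟨true,0,⟨0,
  [(1,0)]⟩,⟨5,[(2,3),(6,1),(8,1),(5,3),(15,0),(0,2)]⟩⟩ ⟨false,1,⟨9,[(17,3),(0,3),(21,4),(0,0),(1,
  1)]⟩,⟨0,[]⟩⟩ ⟨true,0,⟨0,[(43,0)]⟩,⟨0,[(34,0)]⟩⟩,.o ⟨false,1,⟨8,[(1,4),(15,3),(17,0),(5,2),(1,0)]⟩,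
  ⟨14,[(2,7),(6,3),(8,6),(5,7),(10,2),(4,1)]⟩⟩,.o ⟨false,1,⟨0,[(17,0)]⟩,⟨24,[(2,13),(0,4),(5,6),(8,
  5),(5,13),(10,3),(2,4),(1,5)]⟩⟩,.e ⟨false,1,⟨0,[(34,0),(5,0)]⟩,⟨1,[(24,0),(0,0)]⟩⟩ ⟨false,1,⟨9,
  [(17,3),(0,3),(21,4),(0,0),(1,1)]⟩,⟨0,[(34,0)]⟩⟩]⟩)))) (.Q [0,0,0,0,0,-1,0,0,0,0,0,1] (.ed false
  [1,-1,0,0,1] .k) (.S ⟨1,0,[1],[0,0,0,0,1],[1,1],(⟨0,[(18,0)]⟩,⟨0,[(17,0)]⟩),⟨0,[(0,0)]⟩,.k,(.r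
  (-1) ⟨7,[(11,3),(3,0),(0,0),(14,1),(6,2)]⟩ ⟨1,[(22,0),(0,0),(13,1)]⟩),⟨true,0,⟨0,[(41,0)]⟩,⟨0,
  []⟩⟩,⟨false,1,⟨1,[(15,0),(0,0),(22,0)]⟩,⟨0,[]⟩⟩,⟨false,0,⟨0,[(37,0)]⟩,⟨3,[(11,1),(3,0),(0,0),(22,
  0)]⟩⟩,⟨true,0,⟨0,[(37,0)]⟩,⟨0,[(36,0)]⟩⟩,[.e ⟨true,0,⟨0,[(41,0)]⟩,⟨0,[(32,0)]⟩⟩ ⟨true,0,⟨0,[]⟩,⟨1,
  [(22,0),(0,0)]⟩⟩,.o ⟨false,1,⟨9,[(15,0),(0,10),(16,1),(5,4)]⟩,⟨2,[(1,2),(4,1),(0,0),(14,1),(9,1),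
  (0,0),(3,2)]⟩⟩,.a ⟨true,0,⟨0,[(16,0)]⟩,⟨0,[(1,0),(30,0),(4,0)]⟩⟩ ⟨false,0,⟨0,[]⟩,⟨1,[(15,0),(0,0),
  (22,0)]⟩⟩ ⟨true,0,⟨0,[]⟩,⟨0,[(41,0)]⟩⟩,.o ⟨false,0,⟨2,[(6,1),(0,0),(8,2),(5,1),(9,1),(0,0)]⟩,⟨11,
  [(1,9),(13,1),(17,1),(3,9),(0,0),(0,4)]⟩⟩]⟩) (.S ⟨1,0,[-1,1],[1,0,0,0,-1],[-1],(⟨0,[(17,0)]⟩,⟨0,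
  [(18,0)]⟩),⟨1,[(0,0),(2,0),(10,0),(2,0)]⟩,.k,(.r (-1) ⟨13,[(11,6),(3,0),(0,0),(14,1),(6,5),(2,
  2)]⟩ ⟨1,[(22,0),(0,0),(13,1)]⟩),⟨false,1,⟨1,[(15,0),(0,0),(22,0)]⟩,⟨0,[]⟩⟩,⟨true,0,⟨0,[(41,0)]⟩,
  ⟨0,[]⟩⟩,⟨true,0,⟨0,[(37,0)]⟩,⟨0,[(36,0)]⟩⟩,⟨false,0,⟨0,[(37,0)]⟩,⟨3,[(11,1),(3,0),(0,0),(22,0)]⟩⟩,
  [.o ⟨false,0,⟨2,[(1,2),(4,1),(0,0),(14,1),(9,1),(0,0),(3,2)]⟩,⟨9,[(15,0),(0,10),(16,1),(5,4)]⟩⟩,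
  .e ⟨false,1,⟨0,[(32,0),(5,0)]⟩,⟨0,[(41,0)]⟩⟩ ⟨false,1,⟨9,[(15,3),(0,3),(21,4),(0,0),(1,1)]⟩,⟨0,
  []⟩⟩,.a ⟨true,0,⟨0,[(1,0),(30,0),(4,0)]⟩,⟨0,[(16,0)]⟩⟩ ⟨false,1,⟨4,[(15,1),(0,1),(22,2),(1,0)]⟩,
  ⟨0,[]⟩⟩ ⟨true,0,⟨0,[(41,0)]⟩,⟨0,[]⟩⟩,.o ⟨false,0,⟨2,[(1,2),(4,1),(0,0),(14,1),(9,4),(0,0),(3,2)]⟩,
  ⟨9,[(15,0),(0,10),(16,1),(4,4)]⟩⟩]⟩))))))))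

theorem ok14 : chk K t14 r5 = true := by decide +kernel

noncomputable def t18 : Tre :=
  (.I [0,0,-2,-2,1,0,0,-1] (.Q [0,1,0,-1,0,0,-1,-1,0,0,-1] (.p false [0,0,1] [] (⟨0,[(16,0)]⟩,⟨0,
  [(15,0)]⟩) .k 0 (⟨0,[]⟩,⟨0,[]⟩) .k .k) (.K ⟨0,[0,1,1],0,0,(⟨0,[(17,0),(1,0)]⟩,⟨0,[(5,0)]⟩),.k,.k,
  (.r 0 ⟨0,[(12,0),(2,0),(8,0),(4,1)]⟩ ⟨0,[(1,0)]⟩),.k,.k,[⟨1,[(14,0),(0,0)]⟩,⟨0,[(2,0),(9,0)]⟩,⟨0,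
  [(0,0)]⟩,⟨0,[(12,0),(16,0)]⟩]⟩) (.R ⟨2,false,false,false,[0,1],[0,1,1],[1],(⟨0,[]⟩,⟨0,[]⟩),(⟨0,
  [(17,0),(1,0)]⟩,⟨0,[(5,0)]⟩),⟨0,[]⟩,.k,.k,.k,.k,.k,.k,⟨false,1,⟨7,[(1,3),(0,2),(10,0),(0,0),(8,0),
  (6,3)]⟩,⟨1,[(0,0),(11,0),(2,1),(13,0)]⟩⟩,⟨true,0,⟨0,[(2,0),(9,0)]⟩,⟨0,[(15,0)]⟩⟩,⟨false,1,⟨16,[(0,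
  4),(0,4),(1,5),(7,4),(13,0),(4,0),(0,2)]⟩,⟨1,[(14,0),(0,0),(13,1)]⟩⟩,⟨true,0,⟨0,[(0,0),(27,0)]⟩,
  ⟨0,[(13,0)]⟩⟩,⟨false,1,⟨1,[(30,0),(0,0)]⟩,⟨1,[(14,0),(0,0)]⟩⟩,⟨false,0,⟨0,[(0,0)]⟩,⟨3,[(3,1),(3,
  0),(0,0),(4,3),(17,0)]⟩⟩,[.a ⟨true,0,⟨1,[(0,0),(11,0),(16,0)]⟩,⟨1,[(2,1),(1,0),(6,0),(2,0),(13,
  1)]⟩⟩ ⟨true,0,⟨0,[]⟩,⟨1,[(14,0),(0,0)]⟩⟩ ⟨false,0,⟨1,[(0,0),(11,0),(16,0)]⟩,⟨31,[(1,9),(1,5),(0,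
  4),(8,21),(11,0),(4,5),(0,7)]⟩⟩,.e ⟨false,1,⟨1,[(30,0),(0,0)]⟩,⟨0,[(33,0)]⟩⟩ ⟨false,0,⟨0,[(0,0)]⟩,
  ⟨7,[(3,3),(3,0),(0,0),(4,7),(9,1),(6,2)]⟩⟩,.o ⟨false,1,⟨9,[(7,0),(0,0),(16,1),(4,4)]⟩,⟨1,[(14,0),
  (0,0)]⟩⟩,.fo]⟩)) (.R ⟨2,true,false,false,[0,1],[1,-1],[0,1,1,1],(⟨0,[]⟩,⟨0,[]⟩),(⟨0,[(20,0)]⟩,⟨0,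
  [(21,0)]⟩),⟨0,[]⟩,.k,.k,.k,(.r 1 ⟨3,[(0,3),(0,2),(10,0),(0,0),(8,0)]⟩ ⟨3,[(2,3),(3,0),(0,0),(14,
  1),(6,2)]⟩),.k,.k,⟨false,(-1),⟨0,[(0,0),(0,0),(20,0)]⟩,⟨0,[(2,0),(26,0)]⟩⟩,⟨true,(-1),⟨0,[(0,0),
  (0,1),(8,0),(0,0),(11,0),(3,1)]⟩,⟨9,[(6,0),(0,0),(16,1),(4,4)]⟩⟩,⟨true,0,⟨0,[(32,0)]⟩,⟨0,[]⟩⟩,
  ⟨false,1,⟨0,[(2,0),(7,0),(2,0)]⟩,⟨1,[(0,1),(0,4),(8,2),(0,2),(10,0),(1,0)]⟩⟩,⟨false,0,⟨0,[(28,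
  0)]⟩,⟨3,[(2,1),(3,0),(0,0),(22,0)]⟩⟩,⟨true,0,⟨0,[(1,0),(8,0),(0,0),(11,0),(3,0)]⟩,⟨3,[(0,1),(0,2),
  (8,0),(0,0),(10,2),(1,0)]⟩⟩,[]⟩))

theorem ok18 : chk K t18 r1 = true := by decide +kernel


end Helper48.Y.Y11_c35_P2_m1n1_CC
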