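import Pool.Agent.Helper48.Y.Y11_c35_P3_m1n1_CB_q

set_option autoImplicit false
set_option linter.all false

namespace Helper48.Y.Y11_c35_P3_m1n1_CB

open Helper25.KG Helper25.KW Helper55.KE Helper11.CT

noncomputable def t29 : Tre :=
  (.R ⟨0,false,false,true,[0,-1,1],[1,-1],[0,1,0,-1],(⟨0,[(14,0)]⟩,⟨10,[(15,0),(0,0),(7,10),(4,4),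
  (4,1),(0,0)]⟩),(⟨0,[(28,0)]⟩,⟨0,[(29,0)]⟩),⟨2,[(5,1),(18,0),(1,0),(7,2)]⟩,.k,.k,(.r (-1) ⟨8,[(0,
  4),(0,0),(2,1),(1,5),(2,7),(17,2),(14,1)]⟩ ⟨1,[(2,0),(18,1),(0,1),(17,2),(1,0)]⟩),.k,.k,.k,⟨true,
  0,⟨1,[(22,0),(0,0)]⟩,⟨0,[]⟩⟩,⟨false,0,⟨0,[(19,0)]⟩,⟨1,[(22,1),(4,0),(13,0)]⟩⟩,⟨true,0,⟨0,[(21,0),
  (0,0)]⟩,⟨0,[(8,0),(32,0)]⟩⟩,⟨false,0,⟨4,[(1,0),(19,3),(9,1),(3,1),(4,1)]⟩,⟨1,[(8,1),(13,1),(4,0),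
  (13,1),(0,0)]⟩⟩,⟨false,0,⟨0,[]⟩,⟨0,[]⟩⟩,⟨false,0,⟨0,[]⟩,⟨0,[]⟩⟩,[.o ⟨false,0,⟨0,[(39,0)]⟩,⟨1,[(27,
  0),(12,1),(1,0)]⟩⟩,.a ⟨true,0,⟨27,[(6,5),(4,10),(0,2),(13,1),(1,1),(6,5),(8,5)]⟩,⟨0,[(40,0)]⟩⟩
  ⟨false,1,⟨11,[(6,5),(0,1),(1,1),(2,1),(14,0),(11,1),(1,4)]⟩,⟨0,[(40,0)]⟩⟩ ⟨true,0,⟨17,[(0,7),(0,
  3),(2,1),(4,1),(1,2),(0,2),(29,1)]⟩,⟨1,[(2,0),(19,1),(4,0),(12,0)]⟩⟩,.a ⟨true,0,⟨0,[(22,0)]⟩,⟨0,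
  [(19,0)]⟩⟩ ⟨true,0,⟨0,[(39,0)]⟩,⟨0,[(40,0)]⟩⟩ ⟨false,0,⟨17,[(0,7),(0,3),(2,1),(4,1),(1,2),(0,2),
  (29,1)]⟩,⟨1,[(22,1),(4,0),(12,1),(1,0)]⟩⟩,.a ⟨true,0,⟨1,[(22,2),(0,0)]⟩,⟨0,[(0,0)]⟩⟩ ⟨false,1,⟨11,
  [(6,5),(0,1),(1,1),(2,1),(14,0),(11,1),(1,4)]⟩,⟨1,[(2,0),(37,0),(1,0)]⟩⟩ ⟨true,0,⟨2,[(0,1),(0,0),
  (7,0),(27,0)]⟩,⟨1,[(2,0),(19,1),(4,0),(12,0)]⟩⟩]⟩)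

theorem ok29 : chk K t29 r19 = true := by decide +kernel

noncomputable def t36 : Tre :=
  (.I [0,-1,0,1,1,0,0,-1] (.S ⟨1,0,[0,0,0,0,0,0,0,1],[0,0,1],[],(⟨0,[(20,0)]⟩,⟨0,[(19,0)]⟩),⟨0,[(9,
  0)]⟩,.k,.k,⟨true,1,⟨0,[(0,0),(33,0)]⟩,⟨0,[(3,0),(24,0)]⟩⟩,⟨false,1,⟨1,[(10,0),(0,0),(25,0)]⟩,⟨0,
  []⟩⟩,⟨false,1,⟨0,[(0,0)]⟩,⟨7,[(3,2),(0,3),(0,0),(0,1),(15,0),(14,1)]⟩⟩,⟨true,0,⟨0,[(35,0)]⟩,⟨0,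
  [(34,0)]⟩⟩,[.e ⟨false,1,⟨1,[(10,0),(0,0),(24,0)]⟩,⟨0,[]⟩⟩ ⟨false,0,⟨0,[(3,0),(32,0)]⟩,⟨0,[(0,0),
  (33,0)]⟩⟩,.o ⟨false,1,⟨1,[(3,1),(13,1),(4,0),(13,1),(0,0)]⟩,⟨0,[(16,0)]⟩⟩,.o ⟨false,1,⟨1,[(17,1),
  (4,0),(13,0)]⟩,⟨4,[(1,0),(0,0),(0,0),(3,0),(6,0),(7,0),(14,0)]⟩⟩,.a ⟨true,0,⟨0,[(17,0)]⟩,⟨0,[(14,
  0)]⟩⟩ ⟨false,1,⟨1,[(36,0),(0,0)]⟩,⟨1,[(17,0),(0,0)]⟩⟩ ⟨true,0,⟨0,[(3,0),(32,0)]⟩,⟨0,[(16,0),(0,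
  0)]⟩⟩]⟩) (.I [0,0,2,0,-2,2,-1] (.R ⟨0,false,false,true,[1,-1,-1],[1,-1],[],(⟨0,[(9,0)]⟩,⟨10,[(11,
  0),(0,0),(8,10),(3,4),(4,1),(0,0)]⟩),(⟨0,[(24,0)]⟩,⟨0,[(25,0)]⟩),⟨7,[(0,1),(9,5),(7,1),(11,5),(1,
  0),(4,2)]⟩,.k,.k,(.x 2 ⟨0,[(0,0)]⟩ ⟨1,[(9,1),(1,0),(0,0),(5,1),(4,1),(0,1),(12,2)]⟩),.k,.k,.k,
  ⟨true,0,⟨0,[(28,0),(7,0)]⟩,⟨0,[(35,0)]⟩⟩,⟨false,1,⟨0,[(18,0),(18,0)]⟩,⟨6,[(1,0),(0,1),(0,0),(4,1),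
  (14,0),(14,1)]⟩⟩,⟨true,(-1),⟨0,[(4,0),(31,0)]⟩,⟨0,[(3,0),(14,0),(18,0)]⟩⟩,⟨false,0,⟨0,[(4,0),(13,
  0),(18,0)]⟩,⟨0,[(17,0),(20,0)]⟩⟩,⟨false,0,⟨0,[]⟩,⟨0,[]⟩⟩,⟨false,0,⟨0,[]⟩,⟨0,[]⟩⟩,[.o ⟨false,0,⟨0,
  [(35,0)]⟩,⟨1,[(23,0),(12,1),(1,0)]⟩⟩,.e ⟨false,1,⟨1,[(37,0),(0,0)]⟩,⟨0,[(40,0)]⟩⟩ ⟨false,2,⟨3,[(7,
  1),(3,0),(0,0),(5,3),(4,0),(13,5)]⟩,⟨0,[(2,0),(25,0)]⟩⟩,.a ⟨true,(-1),⟨3,[(0,1),(7,0),(0,2),(0,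
  0)]⟩,⟨0,[(18,0),(18,0)]⟩⟩ ⟨false,1,⟨1,[(11,0),(0,0),(25,0)]⟩,⟨0,[]⟩⟩ ⟨true,1,⟨0,[(18,0),(16,0),(1,
  0)]⟩,⟨0,[(2,0),(25,0)]⟩⟩,.o ⟨false,(-1),⟨3,[(2,1),(0,1),(0,1),(13,0),(0,0),(8,3)]⟩,⟨1,[(18,1),(4,
  0),(13,2)]⟩⟩]⟩) (.Q [0,0,0,2,0,0,-1,-1,0,0,-1] (.p false [0,0,1] [] (⟨0,[(21,0)]⟩,⟨0,[(20,0)]⟩)
  .k 0 (⟨0,[]⟩,⟨0,[]⟩) .k .k) (.R ⟨1,true,false,false,[0,0,1],[0,1],[1,1,0,-1,0,0,0,1],(⟨0,[(22,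
  0)]⟩,⟨0,[(21,0)]⟩),(⟨0,[(26,0)]⟩,⟨0,[(25,0)]⟩),⟨0,[(11,0)]⟩,.k,.k,.k,.k,(.r (-1) ⟨3,[(2,1),(3,1),
  (1,1),(15,0),(13,2),(0,1)]⟩ ⟨1,[(0,1),(18,2),(0,0)]⟩),.k,⟨true,0,⟨3,[(2,1),(3,1),(1,1),(15,0),(13,
  0)]⟩,⟨0,[(0,0),(18,0),(9,0)]⟩⟩,⟨false,1,⟨1,[(16,1),(7,0),(13,0)]⟩,⟨0,[(19,0)]⟩⟩,⟨true,0,⟨0,[(36,
  0)]⟩,⟨0,[(37,0)]⟩⟩,⟨false,1,⟨3,[(0,1),(11,0),(0,0),(4,1),(20,2)]⟩,⟨1,[(2,1),(16,1),(18,0),(0,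
  0)]⟩⟩,⟨false,0,⟨0,[]⟩,⟨1,[(12,0),(0,0),(25,0)]⟩⟩,⟨true,0,⟨0,[(0,0)]⟩,⟨5,[(1,0),(0,2),(3,2),(1,2),
  (2,0),(7,4),(11,0),(1,0)]⟩⟩,[]⟩) (.I [1,-1,1,2,-1,0,0,1] (.I [1,-1,-1,-2,2,0,0,-1] (.Q [0,0,2,0,0,
  0,1,0,0,-1,1] (.p true [0,0,1] [1] (⟨0,[(24,0)]⟩,⟨0,[(23,0)]⟩) .k 1 (⟨0,[]⟩,⟨0,[]⟩) .k .k) (.I [0,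
  0,1,1,1,0,0,-2] (.Q [0,0,0,-1,0,0,2,2,0,-1,2] (.p true [0,0,1] [1,0,-1] (⟨0,[(26,0)]⟩,⟨0,[(25,
  0)]⟩) .k 2 (⟨0,[(25,0)]⟩,⟨0,[(26,0)]⟩) .k (.r 1 ⟨2,[(3,1),(2,1),(3,1),(32,0)]⟩ ⟨17,[(0,15),(1,7),
  (10,1),(7,3),(6,0),(9,1),(3,2)]⟩)) (.Q [0,0,0,2,0,0,-2,-2,0,1,-2] (.p false [0,0,1] [1,0,-1] (⟨0,
  [(27,0)]⟩,⟨0,[(26,0)]⟩) .k 2 (⟨0,[(26,0)]⟩,⟨0,[(27,0)]⟩) .k (.r 1 ⟨2,[(4,1),(2,1),(3,1),(32,0)]⟩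
  ⟨17,[(1,15),(1,7),(10,1),(7,3),(6,0),(9,1),(3,2)]⟩)) (.R ⟨1,true,false,false,[0,0,1],[1,1,-1],[0,
  1,0,0,0,0,0,1],(⟨0,[(28,0)]⟩,⟨0,[(27,0)]⟩),(⟨163,[(2,5),(1,2),(10,5),(6,2),(0,14),(3,163),(1,28),
  (7,44),(0,17),(6,5)]⟩,⟨0,[(17,0)]⟩),⟨0,[(17,0)]⟩,.k,.k,.k,(.r 0 ⟨2,[(5,0),(2,0),(3,3),(32,1)]⟩ ⟨0,
  [(2,0)]⟩),(.r 0 ⟨0,[(8,1),(35,0),(0,0)]⟩ ⟨7,[(2,10),(2,1),(3,0),(3,2),(9,0)]⟩),.k,⟨true,(-1),⟨5,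
  [(5,1),(2,7),(3,1),(31,2),(0,0)]⟩,⟨0,[(2,0),(32,0)]⟩⟩,⟨false,0,⟨3,[(8,1),(0,3),(0,1),(11,1),(15,
  0),(5,2),(0,3)]⟩,⟨0,[(1,0),(0,0)]⟩⟩,⟨true,0,⟨0,[(47,0)]⟩,⟨0,[]⟩⟩,⟨false,1,⟨6,[(0,4),(1,0),(1,1),
  (10,1),(19,0),(9,1)]⟩,⟨0,[(1,0)]⟩⟩,⟨false,0,⟨0,[(43,0)]⟩,⟨5,[(4,1),(1,0),(6,0),(12,0),(18,1)]⟩⟩,
  ⟨true,0,⟨0,[(0,0)]⟩,⟨0,[(1,0),(40,0)]⟩⟩,[]⟩) (.Q [0,0,0,0,0,2,0,0,0,0,-1] (.p false [0,0,1] []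
  (⟨0,[(28,0)]⟩,⟨0,[(27,0)]⟩) .k 0 (⟨0,[]⟩,⟨0,[]⟩) .k .k) (.R ⟨0,false,false,true,[0,-1,1],[1,0,-1],
  [1,1,1],(⟨0,[(18,0)]⟩,⟨103,[(0,44),(2,5),(1,2),(10,5),(6,2),(0,14),(3,58),(1,13),(8,17),(6,5)]⟩),
  (⟨0,[(28,0)]⟩,⟨0,[(29,0)]⟩),⟨0,[(0,0)]⟩,.k,.k,(.r (-1) ⟨11,[(1,5),(3,3),(3,1),(3,1),(9,11),(7,2),
  (13,2)]⟩ ⟨63,[(3,54),(0,15),(1,25),(3,20),(3,14),(9,4),(14,7)]⟩),(.r 0 ⟨5,[(1,2),(4,1),(6,3),(2,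
  0),(6,3),(7,0),(14,0)]⟩ ⟨0,[(3,0)]⟩),.k,.k,⟨true,(-1),⟨0,[(12,0)]⟩,⟨35,[(3,15),(1,7),(10,1),(7,3),
  (6,0),(9,1),(3,2)]⟩⟩,⟨false,0,⟨3,[(9,1),(0,3),(0,1),(11,1),(15,0),(5,2),(0,3)]⟩,⟨0,[(2,0),(0,
  0)]⟩⟩,⟨false,0,⟨24,[(3,13),(0,11),(1,4),(3,2),(0,1),(15,6),(11,5)]⟩,⟨0,[(9,0),(35,0),(0,0)]⟩⟩,
  ⟨true,0,⟨7,[(3,5),(6,5),(0,3),(11,5),(15,0),(6,0)]⟩,⟨0,[(2,0)]⟩⟩,⟨false,0,⟨0,[]⟩,⟨0,[]⟩⟩,⟨false,0,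
  ⟨0,[]⟩,⟨0,[]⟩⟩,[.o ⟨false,0,⟨0,[(25,0)]⟩,⟨38,[(2,10),(0,0),(2,4),(1,2),(15,13),(4,2),(1,12),(6,1),
  (7,23)]⟩⟩,.a ⟨true,0,⟨113,[(3,27),(6,29),(0,57),(5,1),(0,1),(4,25),(6,3),(4,43),(3,42),(5,0)]⟩,⟨7,
  [(2,1),(3,0),(17,2),(1,0),(8,0),(3,0),(5,0)]⟩⟩ ⟨false,0,⟨0,[]⟩,⟨53,[(3,7),(1,3),(8,15),(1,1),(7,
  3),(6,0),(13,36)]⟩⟩ ⟨true,0,⟨1,[(10,1),(0,1),(27,0),(5,0),(0,1)]⟩,⟨7,[(2,1),(1,5),(1,0),(17,2),(1,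
  2),(19,0)]⟩⟩,.e ⟨false,0,⟨25,[(3,1),(0,9),(9,3),(0,0),(0,4),(22,1)]⟩,⟨1,[(45,0),(0,0)]⟩⟩ ⟨false,0,
  ⟨1,[(10,1),(0,1),(27,0),(5,0),(0,1)]⟩,⟨53,[(2,51),(0,35),(2,7),(7,9),(9,3),(6,0),(14,24)]⟩⟩,.o
  ⟨false,0,⟨0,[(4,0)]⟩,⟨1,[(23,1),(7,0),(13,0)]⟩⟩]⟩) (.R ⟨0,false,false,true,[1,-1,-1],[0,-1,1],[1,
  1,1],(⟨0,[(17,0)]⟩,⟨163,[(3,5),(1,2),(10,5),(6,2),(0,14),(4,163),(0,28),(7,44),(0,17),(6,5)]⟩),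
  (⟨0,[(18,0)]⟩,⟨163,[(3,5),(1,2),(10,5),(6,2),(0,14),(3,163),(1,28),(7,44),(0,17),(6,5)]⟩),⟨2,[(0,
  0),(17,1),(11,0),(7,2)]⟩,.k,.k,(.r (-2) ⟨4,[(0,2),(0,1),(1,0),(4,2),(2,6),(23,5),(1,4),(0,3),(0,
  2)]⟩ ⟨63,[(3,14),(0,15),(1,41),(3,28),(3,38),(9,12),(14,7)]⟩),.k,.k,.k,⟨true,0,⟨24,[(3,13),(0,11),
  (1,4),(3,2),(0,1),(15,6),(11,5)]⟩,⟨1,[(9,1),(35,0),(0,0)]⟩⟩,⟨false,2,⟨0,[(2,0),(0,0),(41,0)]⟩,⟨3,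
  [(6,1),(2,1),(0,1),(0,3),(11,1),(15,0),(6,2)]⟩⟩,⟨true,(-2),⟨5,[(4,3),(1,0),(2,0),(0,4),(1,2),(11,
  0),(14,1)]⟩,⟨4,[(3,0),(1,2),(31,0),(3,0),(3,2)]⟩⟩,⟨false,0,⟨4,[(2,4),(0,0),(2,1),(34,0),(3,0)]⟩,
  ⟨3,[(3,1),(6,1),(0,3),(11,1),(15,0),(6,4)]⟩⟩,⟨false,0,⟨0,[]⟩,⟨0,[]⟩⟩,⟨false,0,⟨0,[]⟩,⟨0,[]⟩⟩,[.o
  ⟨false,0,⟨4,[(1,1),(2,0),(4,0),(21,0),(9,1)]⟩,⟨3,[(3,1),(6,1),(12,1),(7,0),(14,2)]⟩⟩,.e ⟨false,0,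
  ⟨0,[]⟩,⟨53,[(3,7),(1,3),(8,15),(1,1),(7,3),(6,0),(13,36)]⟩⟩ ⟨false,2,⟨5,[(1,0),(0,2),(0,0),(1,0),
  (2,2),(15,0),(4,2),(8,1),(6,2)]⟩,⟨134,[(0,0),(2,30),(2,103),(3,72),(0,176),(4,9),(0,0),(12,2),(4,
  72),(3,61)]⟩⟩,.a ⟨true,(-1),⟨75,[(0,1),(5,57),(4,57),(3,28),(0,8),(0,1),(12,5),(8,17),(7,17)]⟩,⟨0,
  [(26,0),(18,0)]⟩⟩ ⟨false,0,⟨25,[(3,1),(0,9),(9,3),(0,0),(0,4),(22,1)]⟩,⟨1,[(45,0),(0,0)]⟩⟩ ⟨true,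
  1,⟨1,[(1,0),(0,0),(0,0),(37,0),(3,0)]⟩,⟨134,[(0,0),(2,30),(2,103),(3,72),(0,176),(4,9),(0,0),(12,
  2),(4,72),(3,61)]⟩⟩,.o ⟨false,(-1),⟨28,[(3,2),(0,1),(1,10),(4,24),(0,19),(14,5),(8,13),(2,0)]⟩,⟨3,
  [(2,1),(0,1),(27,0),(13,4)]⟩⟩]⟩))) (.R ⟨1,true,false,false,[0,0,1],[1,0,-1],[1,1,0,-1,0,0,0,1],
  (⟨0,[(27,0)]⟩,⟨0,[(26,0)]⟩),(⟨0,[(26,0)]⟩,⟨0,[(27,0)]⟩),⟨0,[(16,0)]⟩,.k,.k,.k,.k,(.r 0 ⟨2,[(4,0),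
  (2,0),(3,3),(32,1)]⟩ ⟨0,[(1,0)]⟩),.k,⟨false,(-1),⟨5,[(4,1),(2,7),(3,1),(31,2),(0,0)]⟩,⟨1,[(1,1),
  (41,0),(0,0)]⟩⟩,⟨true,(-1),⟨10,[(0,7),(3,1),(2,13),(0,1),(5,0),(6,1),(22,6)]⟩,⟨2,[(6,0),(9,0),(7,
  4),(11,0),(1,0)]⟩⟩,⟨true,0,⟨0,[(41,0)]⟩,⟨0,[(42,0)]⟩⟩,⟨false,1,⟨14,[(0,10),(0,0),(1,5),(10,3),(19,
  4),(9,1)]⟩,⟨2,[(4,2),(0,2),(0,0),(9,0),(7,1),(10,2),(0,0),(1,0)]⟩⟩,⟨false,0,⟨0,[]⟩,⟨12,[(1,1),(1,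
  0),(8,4),(30,2),(0,5)]⟩⟩,⟨true,0,⟨0,[(0,0)]⟩,⟨1,[(4,0),(0,1),(16,0),(1,0),(4,0),(5,1)]⟩⟩,[]⟩))
  (.Q [0,0,0,0,0,2,0,0,0,0,-1] (.p false [0,0,1] [] (⟨0,[(26,0)]⟩,⟨0,[(25,0)]⟩) .k 0 (⟨0,[]⟩,⟨0,
  []⟩) .k .k) (.R ⟨0,false,false,true,[0,-1,1],[1,0,-1],[1,1,1],(⟨0,[(16,0)]⟩,⟨10,[(17,0),(0,0),(7,
  10),(4,4),(4,1),(0,0)]⟩),(⟨0,[(26,0)]⟩,⟨0,[(27,0)]⟩),⟨0,[(0,0)]⟩,.k,.k,(.r (-1) ⟨13,[(1,3),(1,5),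
  (7,11),(31,2),(0,2)]⟩ ⟨0,[(23,0),(0,0),(9,0),(7,1)]⟩),(.x (-1) ⟨1,[(0,1),(1,0),(3,0),(17,1),(1,
  0)]⟩ ⟨71,[(1,13),(6,41),(0,27),(4,7),(1,143),(4,57),(7,20),(6,23),(7,34)]⟩),.k,.k,⟨true,(-1),⟨0,
  [(10,0)]⟩,⟨1,[(3,0),(19,0),(0,0),(17,1)]⟩⟩,⟨false,0,⟨7,[(1,1),(6,5),(0,3),(11,5),(15,0),(5,3),(0,
  4)]⟩,⟨2,[(6,0),(9,0),(7,4),(11,0),(1,0)]⟩⟩,⟨false,0,⟨0,[(23,0),(0,0),(9,0),(7,0)]⟩,⟨6,[(1,2),(1,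
  0),(7,1),(31,3),(0,3)]⟩⟩,⟨true,0,⟨1,[(23,3),(13,0),(4,1),(1,0)]⟩,⟨2,[(1,2),(4,0),(9,0),(7,4),(11,
  0),(1,0)]⟩⟩,⟨false,0,⟨0,[]⟩,⟨0,[]⟩⟩,⟨false,0,⟨0,[]⟩,⟨0,[]⟩⟩,[.o ⟨false,0,⟨0,[(23,0)]⟩,⟨17,[(4,5),
  (0,5),(0,3),(9,3),(5,5),(1,1),(4,6),(6,3),(7,8)]⟩⟩,.a ⟨true,0,⟨1,[(9,0),(13,0),(9,0),(3,0),(4,
  0)]⟩,⟨2,[(4,0),(0,0),(16,0),(1,0),(18,0)]⟩⟩ ⟨false,0,⟨0,[]⟩,⟨45,[(6,11),(7,5),(2,11),(0,11),(8,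
  11),(8,7),(0,0),(5,10)]⟩⟩ ⟨true,0,⟨1,[(8,1),(0,1),(27,0),(5,0),(0,1)]⟩,⟨2,[(2,0),(1,0),(0,0),(16,
  0),(1,2),(4,0)]⟩⟩,.e ⟨false,0,⟨2,[(2,0),(11,0),(9,0)]⟩,⟨1,[(43,0),(0,0)]⟩⟩ ⟨false,0,⟨1,[(8,1),(0,
  1),(27,0),(5,0),(0,1)]⟩,⟨17,[(4,5),(0,5),(0,3),(9,3),(5,5),(1,19),(4,6),(6,3),(7,8)]⟩⟩,.o ⟨false,
  0,⟨0,[(2,0)]⟩,⟨1,[(21,1),(7,0),(13,0)]⟩⟩]⟩) (.I [0,0,-2,-2,2,0,0,-1] (.R ⟨0,false,false,true,[1,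
  -1,-1],[1,-1],[1,1,1],(⟨0,[(16,0)]⟩,⟨59,[(0,1),(14,2),(7,1),(1,3),(2,59),(3,20),(4,12),(0,4),(4,
  3),(1,0)]⟩),(⟨0,[(31,0)]⟩,⟨0,[(32,0)]⟩),⟨2,[(1,0),(15,1),(11,0),(7,2)]⟩,.k,.k,(.r (-2) ⟨0,[(0,
  0)]⟩ ⟨2,[(3,0),(1,2),(9,0),(9,0),(21,2)]⟩),.k,.k,.k,⟨true,(-1),⟨2,[(3,1),(1,1),(4,0),(13,0),(13,
  0)]⟩,⟨9,[(0,3),(11,1),(0,1),(30,0),(0,0)]⟩⟩,⟨false,1,⟨0,[(25,0),(18,0)]⟩,⟨12,[(2,0),(2,0),(3,1),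
  (0,2),(4,3),(14,1),(14,1)]⟩⟩,⟨true,(-2),⟨5,[(3,3),(1,0),(2,0),(0,4),(1,2),(11,0),(14,1)]⟩,⟨0,[(0,
  0),(42,0)]⟩⟩,⟨false,0,⟨2,[(5,0),(0,0),(16,0),(1,0),(18,0)]⟩,⟨0,[(24,0),(20,0)]⟩⟩,⟨false,0,⟨0,[]⟩,
  ⟨0,[]⟩⟩,⟨false,0,⟨0,[]⟩,⟨0,[]⟩⟩,[.o ⟨false,0,⟨0,[(42,0)]⟩,⟨1,[(30,0),(12,1),(1,0)]⟩⟩,.e ⟨false,0,
  ⟨0,[]⟩,⟨17,[(0,1),(6,5),(7,3),(7,1),(4,5),(8,3),(5,3),(0,0),(0,0)]⟩⟩ ⟨false,2,⟨3,[(0,1),(22,1),(1,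
  1),(18,2),(0,0)]⟩,⟨0,[(5,0),(4,0)]⟩⟩,.a ⟨true,(-1),⟨75,[(1,1),(3,57),(4,57),(3,28),(0,8),(0,1),
  (12,5),(8,17),(7,17)]⟩,⟨0,[(25,0),(18,0)]⟩⟩ ⟨false,0,⟨2,[(3,0),(11,0),(9,0)]⟩,⟨1,[(44,0),(0,0)]⟩⟩
  ⟨true,1,⟨7,[(0,2),(5,0),(16,1),(1,4),(14,2),(3,1)]⟩,⟨0,[(5,0),(4,0)]⟩⟩,.o ⟨false,(-1),⟨27,[(3,3),
  (1,12),(4,25),(0,12),(14,5),(8,12),(2,1),(7,2)]⟩,⟨5,[(7,3),(9,3),(7,1),(11,3),(1,0),(4,2)]⟩⟩]⟩)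
  (.I [0,0,0,0,1,0,0,0,-1] (.I [1,0,0,0,0,3,0,0,1] (.I [1,0,1,0,0,2,1] (.I [0,1,1,-1,0,0,0,-1] (.I
  [0,1,0,-1,0,-2,-1,-1] (.C [(0,3),(0,0),(3,2),(1,0),(4,2),(8,0),(8,0),(8,2),(1,0),(0,4),(0,1)])
  (.C [(0,0),(5,0),(8,0)])) (.C [(0,0),(13,0),(14,0)])) (.C [(0,0),(18,0),(8,0),(11,0)])) (.C [(0,
  0),(20,0),(0,0),(16,0)])) (.C [(0,0),(18,0),(2,0)]))))) (.I [0,0,-2,-2,2,0,0,-1] (.R ⟨1,true,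
  false,true,[1,0,-1],[0,1],[1,0,0,-1,0,0,0,-1],(⟨0,[(25,0)]⟩,⟨0,[(26,0)]⟩),(⟨0,[(30,0)]⟩,⟨0,[(29,
  0)]⟩),⟨0,[(14,0)]⟩,.k,.k,.k,.k,(.r (-2) ⟨0,[(0,0)]⟩ ⟨1,[(3,1),(19,0),(0,0),(20,1)]⟩),.k,⟨true,2,
  ⟨0,[(2,0)]⟩,⟨7,[(3,2),(3,9),(1,2),(1,0),(9,0),(1,8)]⟩⟩,⟨false,2,⟨5,[(5,3),(9,3),(7,1),(11,3),(1,
  0),(4,2)]⟩,⟨27,[(3,21),(4,21),(3,10),(0,2),(13,1),(1,1),(6,5),(7,5)]⟩⟩,⟨false,1,⟨5,[(2,1),(1,0),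
  (6,0),(12,0),(18,1)]⟩,⟨0,[(41,0)]⟩⟩,⟨true,0,⟨1,[(3,0),(17,0),(1,0),(4,0),(5,1)]⟩,⟨0,[(1,0),(6,0),
  (14,0),(9,0)]⟩⟩,⟨true,0,⟨0,[]⟩,⟨0,[(45,0)]⟩⟩,⟨false,0,⟨2,[(3,2),(1,0),(9,0),(7,1),(10,2),(0,0),(1,
  0)]⟩,⟨47,[(2,21),(5,25),(3,12),(0,10),(18,15),(0,19),(2,11),(7,1)]⟩⟩,[]⟩) (.Q [0,0,0,0,0,2,0,0,0,
  0,-1] (.p false [0,0,1] [] (⟨0,[(26,0)]⟩,⟨0,[(25,0)]⟩) .k 0 (⟨0,[]⟩,⟨0,[]⟩) .k .k) (.R ⟨0,false,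
  false,true,[0,-1,1],[1,-1],[0,1,0,-1],(⟨0,[(16,0)]⟩,⟨10,[(17,0),(0,0),(7,10),(4,4),(4,1),(0,0)]⟩),
  (⟨0,[(30,0)]⟩,⟨0,[(31,0)]⟩),⟨0,[(0,0)]⟩,.k,.k,(.r (-1) ⟨9,[(2,3),(0,1),(1,3),(5,7),(17,1),(13,0),
  (0,2)]⟩ ⟨2,[(1,0),(21,3),(0,3),(17,3),(1,1)]⟩),.k,.k,.k,⟨true,0,⟨1,[(24,0),(0,0)]⟩,⟨0,[]⟩⟩,⟨false,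
  0,⟨0,[(21,0)]⟩,⟨2,[(6,0),(9,0),(7,1),(11,0),(1,0)]⟩⟩,⟨true,0,⟨0,[(23,0),(0,0)]⟩,⟨9,[(2,1),(1,3),
  (0,1),(5,3),(17,0),(13,2)]⟩⟩,⟨false,0,⟨1,[(9,0),(13,0),(9,0),(3,0),(4,0)]⟩,⟨17,[(4,5),(0,5),(0,3),
  (9,3),(5,5),(1,1),(4,6),(6,3),(7,8)]⟩⟩,⟨false,0,⟨0,[]⟩,⟨0,[]⟩⟩,⟨false,0,⟨0,[]⟩,⟨0,[]⟩⟩,[.o ⟨false,
  0,⟨0,[(41,0)]⟩,⟨1,[(29,0),(12,1),(1,0)]⟩⟩,.a ⟨true,0,⟨7,[(3,0),(8,0),(0,2),(14,0),(1,0),(6,1),(8,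
  0)]⟩,⟨0,[(42,0)]⟩⟩ ⟨false,1,⟨25,[(3,9),(7,5),(2,1),(7,3),(6,0),(13,4)]⟩,⟨0,[(42,0)]⟩⟩ ⟨true,0,⟨5,
  [(2,2),(4,0),(1,0),(3,1),(0,0),(29,0)]⟩,⟨5,[(1,1),(21,1),(0,7),(4,2),(12,1),(1,0)]⟩⟩,.a ⟨true,0,
  ⟨0,[(24,0)]⟩,⟨0,[(21,0)]⟩⟩ ⟨true,0,⟨0,[(41,0)]⟩,⟨0,[(42,0)]⟩⟩ ⟨false,0,⟨5,[(2,2),(4,0),(1,0),(3,
  1),(0,0),(29,0)]⟩,⟨1,[(24,1),(4,0),(12,1),(1,0)]⟩⟩,.a ⟨true,0,⟨1,[(24,2),(0,0)]⟩,⟨0,[(2,0)]⟩⟩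
  ⟨false,1,⟨25,[(3,9),(7,5),(2,1),(7,3),(6,0),(13,4)]⟩,⟨2,[(1,0),(21,0),(0,0),(17,0),(1,1)]⟩⟩ ⟨true,
  0,⟨3,[(2,2),(6,0),(1,0),(1,0),(25,0)]⟩,⟨5,[(1,1),(21,1),(0,7),(4,2),(12,1),(1,0)]⟩⟩]⟩) (.I [0,0,0,
  0,1,0,0,0,-1] (.I [0,1,0,-3] (.I [1,0,-2,0,0,1,-1] (.C [(0,2),(0,0),(2,2),(0,0),(3,2),(2,2),(14,
  3),(9,3),(1,0)]) (.C [(0,0),(2,0),(1,0),(33,0)])) (.C [(0,0),(6,0),(3,0)])) (.C [(0,0),(17,0),(2,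
  0)]))))) (.Q [0,0,0,-1,0,0,-1,-1,0,1,-1] (.p false [0,0,1] [1] (⟨0,[(24,0)]⟩,⟨0,[(23,0)]⟩) .k 1
  (⟨0,[]⟩,⟨0,[]⟩) .k .k) (.R ⟨1,true,false,false,[1,0,-1],[0,1],[1,0,1,1],(⟨0,[(24,0)]⟩,⟨0,[(25,
  0)]⟩),(⟨0,[(29,0)]⟩,⟨0,[(28,0)]⟩),⟨0,[(13,0)]⟩,.k,.k,.k,.k,(.r (-3) ⟨14,[(0,3),(3,14),(2,10),(3,
  5),(3,7),(0,7),(8,14),(8,9),(4,2),(2,6)]⟩ ⟨0,[(1,0),(30,0)]⟩),.k,⟨true,0,⟨0,[]⟩,⟨1,[(22,0),(0,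
  0)]⟩⟩,⟨false,2,⟨5,[(4,3),(9,3),(7,1),(11,3),(1,0),(4,2)]⟩,⟨23,[(0,13),(0,6),(6,6),(3,3),(10,1),(8,
  6),(2,2),(7,0)]⟩⟩,⟨true,(-1),⟨3,[(1,0),(0,0),(5,0),(1,0)]⟩,⟨0,[(7,0),(14,0),(18,0)]⟩⟩,⟨false,1,⟨5,
  [(2,2),(1,1),(9,1),(5,2),(1,0),(4,1),(6,1),(7,2)]⟩,⟨0,[(0,0)]⟩⟩,⟨false,(-1),⟨0,[(2,0)]⟩,⟨35,[(4,
  23),(2,35),(3,17),(3,4),(0,4),(5,11),(2,23),(1,0),(6,15),(7,17)]⟩⟩,⟨true,0,⟨5,[(1,2),(0,2),(1,3),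
  (9,3),(7,1),(11,3),(1,0)]⟩,⟨0,[(0,0),(38,0)]⟩⟩,[]⟩) (.R ⟨2,true,false,false,[0,1],[1,0,-1],[1,1,
  1],(⟨0,[]⟩,⟨0,[]⟩),(⟨0,[(24,0)]⟩,⟨0,[(25,0)]⟩),⟨0,[]⟩,.k,.k,.k,.k,.k,.k,⟨false,(-1),⟨2,[(1,0),(3,
  0),(3,0)]⟩,⟨0,[(21,0),(0,0),(18,0),(0,0)]⟩⟩,⟨true,(-1),⟨11,[(1,4),(0,0),(4,5),(3,2),(0,2),(18,1),
  (0,5),(2,2)]⟩,⟨2,[(4,0),(9,0),(7,1),(11,0),(1,0)]⟩⟩,⟨true,0,⟨0,[(39,0)]⟩,⟨0,[(40,0)]⟩⟩,⟨false,1,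
  ⟨3,[(11,1),(3,0),(0,0),(4,3),(13,0),(6,3)]⟩,⟨0,[(0,0)]⟩⟩,⟨false,0,⟨0,[]⟩,⟨1,[(15,0),(0,0),(25,
  0)]⟩⟩,⟨true,0,⟨1,[(7,0),(13,0),(9,0),(3,0),(4,0)]⟩,⟨10,[(0,4),(2,0),(1,2),(14,1),(1,2),(4,2),(9,
  2)]⟩⟩,[]⟩))) (.Q [0,0,0,2,0,0,1,1,0,-1,1] (.p true [0,0,1] [1] (⟨0,[(23,0)]⟩,⟨0,[(22,0)]⟩) .k 1
  (⟨0,[]⟩,⟨0,[]⟩) .k .k) (.R ⟨1,true,false,false,[1,0,-1],[0,1],[0,1,0,0,0,0,0,-1],(⟨0,[(23,0)]⟩,⟨0,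
  [(24,0)]⟩),(⟨0,[(28,0)]⟩,⟨0,[(27,0)]⟩),⟨0,[(12,0)]⟩,.k,.k,.k,.k,(.r (-2) ⟨1,[(1,1),(38,0),(0,0)]⟩
  ⟨4,[(0,3),(4,1),(1,0),(13,0),(0,2),(8,1),(2,1),(7,2)]⟩),.k,⟨true,1,⟨0,[(1,0),(37,0)]⟩,⟨4,[(0,1),
  (4,0),(1,2),(14,0),(8,5),(2,0)]⟩⟩,⟨false,2,⟨5,[(0,1),(0,1),(1,3),(9,3),(19,3),(6,0),(0,0)]⟩,⟨31,
  [(5,25),(4,12),(0,2),(18,1),(0,21),(2,7),(7,9)]⟩⟩,⟨true,0,⟨0,[(43,0)]⟩,⟨0,[]⟩⟩,⟨false,1,⟨3,[(0,1),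
  (18,1),(6,0),(14,2)]⟩,⟨1,[(1,0),(3,0),(0,0),(23,0),(0,0),(2,0)]⟩⟩,⟨false,0,⟨0,[(39,0)]⟩,⟨5,[(1,1),
  (0,0),(6,0),(12,0),(18,3)]⟩⟩,⟨true,0,⟨0,[(0,0)]⟩,⟨7,[(1,1),(4,5),(3,2),(0,0),(22,1),(7,1)]⟩⟩,[]⟩)
  (.Q [0,0,0,0,0,2,0,0,0,-1,1] (.p true [0,0,1] [1] (⟨0,[(24,0)]⟩,⟨0,[(23,0)]⟩) .k 1 (⟨0,[]⟩,⟨0,
  []⟩) .k .k) (.R ⟨0,false,false,true,[1,-1,-1],[1,-1],[],(⟨0,[(13,0)]⟩,⟨6,[(0,1),(14,0),(0,0),(8,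
  4),(3,2),(5,0)]⟩),(⟨0,[(28,0)]⟩,⟨0,[(29,0)]⟩),⟨0,[(0,0)]⟩,.k,.k,(.r (-2) ⟨1,[(2,1),(38,0),(0,0)]⟩
  ⟨1,[(6,0),(1,0),(1,0),(11,0),(9,0),(7,2)]⟩),.k,.k,.k,⟨true,0,⟨0,[(32,0),(7,0)]⟩,⟨0,[(39,0)]⟩⟩,
  ⟨false,1,⟨5,[(0,1),(3,1),(17,3),(12,0),(5,2)]⟩,⟨9,[(1,0),(3,0),(0,2),(5,2),(14,1),(14,1)]⟩⟩,⟨true,
  (-1),⟨0,[(8,0),(31,0)]⟩,⟨0,[(2,0),(37,0)]⟩⟩,⟨false,0,⟨8,[(0,3),(2,2),(0,3),(3,5),(13,1),(12,1),(4,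
  5)]⟩,⟨0,[(21,0),(20,0)]⟩⟩,⟨false,0,⟨0,[]⟩,⟨0,[]⟩⟩,⟨false,0,⟨0,[]⟩,⟨0,[]⟩⟩,[.o ⟨false,0,⟨0,[(39,
  0)]⟩,⟨1,[(27,0),(12,1),(1,0)]⟩⟩,.e ⟨false,1,⟨1,[(41,0),(0,0)]⟩,⟨0,[(44,0)]⟩⟩ ⟨false,2,⟨3,[(0,1),
  (1,1),(1,1),(15,1),(14,0),(5,0),(0,1)]⟩,⟨0,[(6,0),(25,0)]⟩⟩,.a ⟨true,(-1),⟨50,[(1,12),(4,25),(1,
  12),(3,5),(18,3),(0,17),(2,15),(7,19)]⟩,⟨5,[(0,1),(3,1),(17,3),(12,0),(5,2)]⟩⟩ ⟨false,1,⟨1,[(15,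
  0),(0,0),(25,0)]⟩,⟨0,[]⟩⟩ ⟨true,1,⟨5,[(0,1),(1,2),(1,1),(15,2),(1,0),(12,0)]⟩,⟨0,[(6,0),(25,0)]⟩⟩,
  .o ⟨false,(-1),⟨3,[(6,1),(0,1),(0,1),(13,0),(0,0),(8,3)]⟩,⟨0,[(0,0),(3,0)]⟩⟩]⟩) (.Q [0,0,-2,0,0,0,
  -1,0,0,1,-1] (.p false [0,0,1] [1] (⟨0,[(25,0)]⟩,⟨0,[(24,0)]⟩) .k 1 (⟨0,[]⟩,⟨0,[]⟩) .k .k) (.R ⟨0,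
  false,false,true,[0,-1,1],[1,-1],[0,1,0,-1],(⟨0,[(15,0)]⟩,⟨10,[(16,0),(0,0),(7,10),(4,4),(4,1),(0,
  0)]⟩),(⟨0,[(29,0)]⟩,⟨0,[(30,0)]⟩),⟨2,[(1,1),(23,0),(1,0),(7,2)]⟩,.k,.k,(.r (-1) ⟨9,[(0,3),(2,1),
  (0,3),(5,7),(17,1),(13,0),(0,4)]⟩ ⟨0,[(22,0),(0,0),(9,0),(7,1)]⟩),.k,.k,.k,⟨true,0,⟨1,[(23,0),(0,
  0)]⟩,⟨0,[]⟩⟩,⟨false,0,⟨0,[(20,0)]⟩,⟨2,[(5,0),(9,0),(7,1),(11,0),(1,0)]⟩⟩,⟨true,0,⟨0,[(22,0),(0,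
  0)]⟩,⟨0,[(9,0),(32,0)]⟩⟩,⟨false,0,⟨4,[(2,0),(19,3),(9,1),(3,1),(4,1)]⟩,⟨15,[(4,0),(0,9),(3,14),(5,
  9),(7,4),(4,2),(6,9),(5,1),(1,7)]⟩⟩,⟨false,0,⟨0,[]⟩,⟨0,[]⟩⟩,⟨false,0,⟨0,[]⟩,⟨0,[]⟩⟩,[.o ⟨false,0,
  ⟨0,[(40,0)]⟩,⟨1,[(28,0),(12,1),(1,0)]⟩⟩,.a ⟨true,0,⟨9,[(3,0),(8,3),(0,0),(7,0),(1,0),(3,0),(1,0),
  (2,0),(3,1)]⟩,⟨0,[(41,0)]⟩⟩ ⟨false,1,⟨9,[(3,3),(6,1),(0,1),(30,2),(0,2)]⟩,⟨0,[(41,0)]⟩⟩ ⟨true,0,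
  ⟨3,[(0,1),(1,0),(1,0),(8,0)]⟩,⟨1,[(7,0),(15,2),(4,0),(4,0),(7,0)]⟩⟩,.a ⟨true,0,⟨0,[(23,0)]⟩,⟨0,
  [(20,0)]⟩⟩ ⟨true,0,⟨0,[(40,0)]⟩,⟨0,[(41,0)]⟩⟩ ⟨false,0,⟨3,[(0,1),(1,0),(1,0),(8,0)]⟩,⟨1,[(23,1),
  (4,0),(12,1),(1,0)]⟩⟩,.a ⟨true,0,⟨1,[(23,2),(0,0)]⟩,⟨0,[(0,0)]⟩⟩ ⟨false,1,⟨9,[(3,3),(6,1),(0,1),
  (30,2),(0,2)]⟩,⟨0,[(33,0),(7,0)]⟩⟩ ⟨true,0,⟨2,[(0,1),(1,0),(7,0),(27,0)]⟩,⟨1,[(7,0),(15,2),(4,0),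
  (4,0),(7,0)]⟩⟩]⟩) (.Q [0,0,0,0,0,0,2,2,0,-1,2] (.p true [0,0,1] [1,0,-1] (⟨0,[(26,0)]⟩,⟨0,[(25,
  0)]⟩) .k 2 (⟨0,[(25,0)]⟩,⟨0,[(26,0)]⟩) .k (.r 1 ⟨0,[(9,1),(32,0)]⟩ ⟨0,[(3,0),(18,0),(0,0),(17,1),
  (1,0)]⟩)) (.R ⟨0,false,false,true,[0,-1,1],[1,-1,-1],[],(⟨0,[(16,0)]⟩,⟨10,[(17,0),(0,0),(7,10),(4,
  4),(4,1),(0,0)]⟩),(⟨0,[(15,0)]⟩,⟨10,[(17,0),(0,0),(8,10),(3,4),(4,1),(0,0)]⟩),⟨2,[(2,1),(23,0),(1,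
  0),(7,2)]⟩,.k,.k,(.r (-1) ⟨7,[(3,1),(1,1),(1,1),(3,5),(17,0),(13,4),(0,3)]⟩ ⟨1,[(1,1),(21,1),(13,
  0),(4,3),(1,0)]⟩),.k,.k,.k,⟨false,0,⟨2,[(0,0),(7,0),(1,0),(10,0),(20,1),(1,1)]⟩,⟨0,[(4,0),(37,
  0)]⟩⟩,⟨true,(-1),⟨1,[(3,0),(4,1),(1,0),(10,0),(22,0)]⟩,⟨2,[(1,1),(4,0),(9,0),(7,2),(11,0),(6,
  0)]⟩⟩,⟨false,1,⟨0,[(23,0),(0,0),(17,0),(1,0)]⟩,⟨1,[(7,1),(35,0),(0,0)]⟩⟩,⟨true,0,⟨4,[(3,0),(19,8),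
  (9,1),(3,1),(4,1)]⟩,⟨0,[(0,0)]⟩⟩,⟨false,0,⟨0,[]⟩,⟨0,[]⟩⟩,⟨false,0,⟨0,[]⟩,⟨0,[]⟩⟩,[.o ⟨false,0,⟨0,
  [(9,0)]⟩,⟨2,[(0,0),(21,0),(6,0),(12,2),(1,1)]⟩⟩,.a ⟨true,0,⟨4,[(3,2),(19,1),(9,0),(3,0),(4,0)]⟩,
  ⟨5,[(0,1),(21,1),(14,0),(4,5),(1,0)]⟩⟩ ⟨false,1,⟨1,[(43,0),(0,0)]⟩,⟨0,[(46,0)]⟩⟩ ⟨true,0,⟨1,[(3,
  1),(4,1),(34,0),(0,0)]⟩,⟨4,[(0,1),(0,2),(10,0),(11,2),(17,4)]⟩⟩,.e ⟨false,1,⟨1,[(17,0),(0,0),(25,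
  0)]⟩,⟨0,[]⟩⟩ ⟨false,0,⟨1,[(3,1),(4,1),(34,0),(0,0)]⟩,⟨16,[(0,5),(0,8),(4,2),(15,4),(1,4),(2,2),(8,
  1),(5,16),(1,10)]⟩⟩,.o ⟨false,0,⟨0,[(1,0)]⟩,⟨1,[(21,1),(7,0),(13,0)]⟩⟩]⟩) (.Q [0,0,0,1,0,0,2,2,0,
  -1,2] (.p true [0,0,1] [1,0,-1] (⟨0,[(27,0)]⟩,⟨0,[(26,0)]⟩) .k 2 (⟨0,[(26,0)]⟩,⟨0,[(27,0)]⟩) .k
  (.r 1 ⟨0,[(10,1),(32,0)]⟩ ⟨54,[(0,54),(0,24),(4,44),(10,13),(0,13),(5,39),(2,44),(8,29),(7,5),(1,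
  11)]⟩)) (.I [0,0,-1,-1,2,0,0,-2] (.R ⟨1,true,false,false,[1,0,-1],[0,0,1],[0,1,0,0,0,0,0,-1],(⟨0,
  [(28,0)]⟩,⟨0,[(29,0)]⟩),(⟨0,[(29,0)]⟩,⟨0,[(28,0)]⟩),⟨0,[(17,0)]⟩,.k,.k,.k,.k,(.r (-2) ⟨0,[(0,0)]⟩
  ⟨1,[(1,0),(10,1),(3,0),(27,0)]⟩),.k,⟨true,1,⟨0,[(0,0),(9,0),(15,0)]⟩,⟨4,[(1,0),(7,1),(0,0),(1,5),
  (10,0),(22,3)]⟩⟩,⟨false,2,⟨0,[(0,0),(0,0)]⟩,⟨1,[(2,0),(6,0),(0,0),(1,0),(10,0),(22,0)]⟩⟩,⟨true,0,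
  ⟨0,[(48,0)]⟩,⟨0,[]⟩⟩,⟨false,1,⟨41,[(0,7),(0,35),(5,11),(5,3),(0,11),(16,2),(14,22)]⟩,⟨0,[(2,0)]⟩⟩,
  ⟨false,0,⟨0,[(44,0)]⟩,⟨19,[(5,1),(0,5),(0,1),(6,5),(16,0),(14,12)]⟩⟩,⟨true,0,⟨0,[(1,0)]⟩,⟨21,[(2,
  12),(0,1),(2,3),(4,13),(4,2),(22,3),(8,3)]⟩⟩,[]⟩) (.R ⟨1,true,false,false,[1,0,-1],[0,0,1],[0,1,0,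
  0,0,0,0,-1],(⟨0,[(28,0)]⟩,⟨0,[(29,0)]⟩),(⟨0,[(29,0)]⟩,⟨0,[(28,0)]⟩),⟨0,[(17,0)]⟩,.k,.k,.k,.k,(.x
  1 ⟨5,[(0,3),(1,2),(2,1),(10,0),(10,1),(1,11),(8,1),(1,1)]⟩ ⟨1,[(3,0),(0,2),(3,0),(17,1),(11,1),(6,
  1)]⟩),.k,⟨true,1,⟨2,[(2,2),(0,1),(4,0),(9,0),(7,2),(10,2),(0,0),(6,0)]⟩,⟨17,[(0,13),(6,6),(6,0),
  (1,1),(10,2),(3,0),(14,8)]⟩⟩,⟨false,2,⟨2,[(3,0),(4,1),(9,1),(7,2),(11,1),(6,1)]⟩,⟨12,[(0,7),(1,5),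
  (2,3),(10,0),(6,7),(7,2)]⟩⟩,⟨true,0,⟨0,[(48,0)]⟩,⟨0,[]⟩⟩,⟨false,1,⟨25,[(1,23),(4,7),(0,3),(6,7),
  (16,0),(14,16)]⟩,⟨0,[(2,0)]⟩⟩,⟨false,0,⟨0,[(44,0)]⟩,⟨19,[(5,1),(0,5),(0,1),(6,5),(16,0),(14,
  12)]⟩⟩,⟨true,0,⟨0,[(1,0)]⟩,⟨21,[(2,12),(0,1),(2,3),(4,13),(4,2),(22,3),(8,3)]⟩⟩,[]⟩)) (.Q [0,0,0,
  2,0,0,2,2,0,-1,2] (.p true [0,0,1] [1,0,-1] (⟨0,[(28,0)]⟩,⟨0,[(27,0)]⟩) .k 2 (⟨0,[(27,0)]⟩,⟨0,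
  [(28,0)]⟩) .k (.r 1 ⟨0,[(11,1),(32,0)]⟩ ⟨54,[(1,54),(0,24),(4,44),(10,13),(0,13),(5,39),(2,44),(8,
  29),(7,5),(1,11)]⟩)) (.R ⟨1,true,false,false,[1,0,-1],[0,1,1],[0,1,0,0,0,0,0,-1],(⟨0,[(28,0)]⟩,⟨0,
  [(29,0)]⟩),(⟨10,[(19,0),(0,0),(8,10),(3,4),(4,1),(0,0)]⟩,⟨0,[(17,0)]⟩),⟨0,[(17,0)]⟩,.k,.k,.k,(.r
  (-2) ⟨2,[(1,2),(1,0),(4,1),(9,1),(7,2),(11,1),(6,1)]⟩ ⟨1,[(0,0),(11,1),(3,0)]⟩),(.r (-3) ⟨21,[(2,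
  10),(0,0),(2,21),(1,14),(10,2),(0,2),(5,5),(2,14),(8,9),(7,10)]⟩ ⟨4,[(0,1),(9,3),(1,4),(1,0),(21,
  3),(2,0),(4,1)]⟩),.k,⟨false,2,⟨2,[(1,2),(1,0),(4,1),(9,1),(7,2),(10,2),(0,1),(6,1)]⟩,⟨2,[(0,0),(9,
  0),(1,3),(10,0),(22,1)]⟩⟩,⟨true,2,⟨2,[(3,0),(4,1),(9,1),(7,2),(11,1),(6,1)]⟩,⟨0,[(2,0),(9,1)]⟩⟩,
  ⟨true,0,⟨0,[(48,0)]⟩,⟨0,[]⟩⟩,⟨false,1,⟨15,[(0,9),(6,1),(16,9),(6,2),(14,12)]⟩,⟨0,[(1,0)]⟩⟩,⟨false,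
  0,⟨0,[(44,0)]⟩,⟨19,[(5,1),(0,5),(0,1),(6,5),(16,0),(14,12)]⟩⟩,⟨true,0,⟨0,[(0,0)]⟩,⟨0,[(1,0),(41,
  0)]⟩⟩,[]⟩) (.Q [0,0,-1,0,1,0,0,0,-1,0,0,-1] (.p false [0,0,0,0,1] [] (⟨0,[(22,0)]⟩,⟨0,[(21,0)]⟩)
  .k 0 (⟨0,[]⟩,⟨0,[]⟩) .k .k) (.Q [0,0,0,0,0,-1,0,0,0,1,0,-1] (.ed true [0,1,0,0,1] .k) (.Q [0,0,1,
  0,0,0,0,0,-1,0,0,-1] (.p false [0,0,0,0,1] [] (⟨0,[(24,0)]⟩,⟨0,[(23,0)]⟩) .k 0 (⟨0,[]⟩,⟨0,[]⟩) .k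
  .k) (.Q [0,0,0,-1,0,0,0,0,1,0,0,1] (.p true [0,0,0,0,1] [] (⟨0,[(25,0)]⟩,⟨0,[(24,0)]⟩) .k 0 (⟨0,
  []⟩,⟨0,[]⟩) .k .k) (.R ⟨1,false,false,true,[1,0,0,0,-1],[1,-1],[-1],(⟨0,[(25,0)]⟩,⟨0,[(26,0)]⟩),
  (⟨0,[(36,0)]⟩,⟨0,[(37,0)]⟩),⟨0,[(2,0)]⟩,.k,.k,(.r (-1) ⟨9,[(10,3),(6,1),(0,1),(30,2),(0,2)]⟩ ⟨2,
  [(7,0),(12,0),(9,0),(17,2)]⟩),(.r 0 ⟨2,[(7,0),(12,0),(9,0),(17,2)]⟩ ⟨9,[(10,3),(6,1),(0,1),(30,2),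
  (0,2)]⟩),.k,.k,⟨true,0,⟨0,[(14,0),(15,0),(8,0)]⟩,⟨0,[(47,0)]⟩⟩,⟨false,0,⟨0,[(24,0)]⟩,⟨0,[(3,0)]⟩⟩,
  ⟨false,1,⟨1,[(23,0),(0,0),(25,0)]⟩,⟨0,[]⟩⟩,⟨false,0,⟨0,[(0,0)]⟩,⟨1,[(1,0),(1,0),(44,1),(1,0)]⟩⟩,
  ⟨true,0,⟨0,[(48,0)]⟩,⟨0,[(47,0)]⟩⟩,⟨false,0,⟨0,[(24,0)]⟩,⟨1,[(1,0),(1,0),(35,0)]⟩⟩,[.o ⟨false,0,
  ⟨0,[(47,0)]⟩,⟨1,[(35,0),(12,1),(1,0)]⟩⟩,.a ⟨true,0,⟨9,[(10,0),(8,3),(0,0),(7,0),(1,0),(3,0),(1,0),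
  (2,0),(3,1)]⟩,⟨0,[(48,0)]⟩⟩ ⟨false,1,⟨1,[(39,0),(9,0)]⟩,⟨0,[(52,0)]⟩⟩ ⟨true,0,⟨0,[(0,0)]⟩,⟨0,[(1,
  0),(46,0)]⟩⟩,.e ⟨false,1,⟨4,[(23,1),(0,1),(25,2),(1,0)]⟩,⟨0,[]⟩⟩ ⟨false,0,⟨0,[(0,0)]⟩,⟨1,[(1,0),
  (1,0),(44,1),(1,0)]⟩⟩,.o ⟨false,0,⟨0,[(1,0)]⟩,⟨1,[(24,1),(10,0),(13,0)]⟩⟩]⟩) (.S ⟨1,0,[-1,1],[1,0,
  0,0,-1],[-1],(⟨0,[(25,0)]⟩,⟨0,[(26,0)]⟩),⟨0,[(2,0)]⟩,.k,(.r (-1) ⟨9,[(10,3),(6,1),(0,1),(30,2),(0,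
  2)]⟩ ⟨2,[(7,0),(12,0),(9,0),(17,2)]⟩),⟨false,1,⟨1,[(23,0),(0,0),(25,0)]⟩,⟨0,[]⟩⟩,⟨true,0,⟨0,[(52,
  0)]⟩,⟨0,[]⟩⟩,⟨true,0,⟨0,[(48,0)]⟩,⟨0,[(47,0)]⟩⟩,⟨false,0,⟨0,[(48,0)]⟩,⟨31,[(4,1),(5,9),(0,3),(6,
  9),(16,0),(14,20)]⟩⟩,[.o ⟨false,0,⟨8,[(0,5),(0,2),(8,1),(2,1),(31,0),(6,2)]⟩,⟨1,[(24,1),(10,0),
  (14,0)]⟩⟩,.e ⟨false,1,⟨1,[(39,0),(9,0)]⟩,⟨0,[(52,0)]⟩⟩ ⟨false,1,⟨9,[(23,3),(0,3),(24,4),(0,0),(1,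
  1)]⟩,⟨0,[]⟩⟩,.a ⟨true,0,⟨4,[(0,3),(18,1),(3,0),(10,0),(1,0),(6,0)]⟩,⟨0,[(24,0)]⟩⟩ ⟨false,1,⟨4,
  [(23,1),(0,1),(25,2),(1,0)]⟩,⟨0,[]⟩⟩ ⟨true,0,⟨0,[(52,0)]⟩,⟨0,[]⟩⟩,.o ⟨false,0,⟨0,[(1,0)]⟩,⟨1,[(24,
  1),(10,0),(13,0)]⟩⟩]⟩)) (.Q [-1,1,0,1,0,0,0,0,-1,0,0,-1] (.p false [0,0,0,0,1] [] (⟨0,[(25,0)]⟩,
  ⟨0,[(24,0)]⟩) .k 0 (⟨0,[]⟩,⟨0,[]⟩) .k .k) (.R ⟨2,true,false,false,[0,1],[0,0,0,0,1],[1,1],(⟨0,[]⟩,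
  ⟨0,[]⟩),(⟨0,[(26,0)]⟩,⟨0,[(25,0)]⟩),⟨0,[]⟩,.k,.k,.k,(.r 0 ⟨2,[(7,0),(12,0),(9,0),(17,2)]⟩ ⟨9,[(10,
  3),(6,1),(0,1),(30,2),(0,2)]⟩),.k,.k,⟨true,0,⟨0,[(52,0)]⟩,⟨0,[(46,0)]⟩⟩,⟨false,0,⟨0,[(24,0)]⟩,⟨0,
  [(3,0)]⟩⟩,⟨false,1,⟨9,[(10,3),(6,1),(0,1),(30,2),(0,2)]⟩,⟨0,[(40,0),(7,0)]⟩⟩,⟨true,0,⟨15,[(1,2),
  (2,2),(2,0),(3,4),(4,0),(7,12),(10,0)]⟩,⟨0,[(0,0)]⟩⟩,⟨true,0,⟨0,[(41,0)]⟩,⟨2,[(7,0),(12,0),(9,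
  0)]⟩⟩,⟨false,0,⟨0,[(1,0),(38,0)]⟩,⟨3,[(0,0),(22,2),(15,0),(7,0)]⟩⟩,[]⟩) (.I [1,0,1,0,0,1,1] (.I
  [0,0,-1,0,1,0,0,0,-1] (.I [1,0,0,-2,0,1] (.I [1,-1,-1,-1,1] (.C [(0,0),(17,0),(15,0)]) (.C [(0,0),
  (3,0),(2,0)])) (.C [(0,2),(6,0),(6,1),(30,0)])) (.C [(0,0),(4,0),(22,0)])) (.C [(0,0),(8,0),(21,
  0),(11,0)])))) (.Q [-1,0,0,-1,0,0,0,0,-1,1,0,-1] (.p false [0,0,0,0,1] [1] (⟨0,[(24,0)]⟩,⟨0,[(23,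
  0)]⟩) .k 1 (⟨0,[]⟩,⟨0,[]⟩) .k .k) (.R ⟨0,false,false,true,[1,0,0,0,-1],[0,1],[1,1,1],(⟨0,[(24,
  0)]⟩,⟨0,[(25,0)]⟩),(⟨0,[(36,0)]⟩,⟨0,[(35,0)]⟩),⟨0,[(1,0)]⟩,.k,.k,(.r (-1) ⟨9,[(9,3),(6,1),(0,1),
  (30,2),(0,2)]⟩ ⟨2,[(6,0),(12,0),(9,0),(17,2)]⟩),(.r (-1) ⟨9,[(9,3),(6,1),(0,1),(30,2),(0,2)]⟩ ⟨2,
  [(6,0),(12,0),(9,0),(17,2)]⟩),.k,.k,⟨false,1,⟨9,[(9,3),(6,1),(0,1),(30,2),(0,2)]⟩,⟨0,[(47,0)]⟩⟩,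
  ⟨true,1,⟨1,[(23,1),(10,0),(13,0)]⟩,⟨2,[(0,2),(5,1),(6,1),(25,1),(2,0),(4,0)]⟩⟩,⟨false,0,⟨2,[(6,0),
  (12,0),(9,0)]⟩,⟨1,[(38,0),(9,0)]⟩⟩,⟨true,0,⟨2,[(6,0),(6,0),(9,2),(10,0),(5,1),(6,1)]⟩,⟨0,[(0,
  0)]⟩⟩,⟨false,0,⟨0,[]⟩,⟨0,[]⟩⟩,⟨false,0,⟨0,[]⟩,⟨0,[]⟩⟩,[.o ⟨false,0,⟨2,[(6,0),(6,0),(20,0),(5,1),
  (6,1)]⟩,⟨31,[(3,1),(5,9),(0,3),(6,9),(16,0),(14,20)]⟩⟩,.e ⟨false,0,⟨0,[]⟩,⟨45,[(11,11),(7,5),(2,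
  11),(0,11),(8,11),(8,7),(0,0),(5,10)]⟩⟩ ⟨false,1,⟨1,[(23,1),(10,0),(12,1),(0,0)]⟩,⟨0,[(0,0)]⟩⟩,.a
  ⟨true,0,⟨0,[(0,0),(46,0)]⟩,⟨0,[(23,0)]⟩⟩ ⟨false,0,⟨2,[(6,0),(12,0),(9,0)]⟩,⟨1,[(48,0),(0,0)]⟩⟩
  ⟨true,0,⟨2,[(6,0),(6,0),(9,2),(10,0),(5,1),(6,1)]⟩,⟨0,[(0,0)]⟩⟩,.o ⟨false,0,⟨1,[(0,0),(1,0),(3,0),
  (6,0),(25,0)]⟩,⟨1,[(23,1),(10,0),(13,0)]⟩⟩]⟩) (.Q [1,-1,0,0,0,0,0,0,1,0,0,1] (.p true [0,0,0,0,1]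
  [] (⟨0,[(25,0)]⟩,⟨0,[(24,0)]⟩) .k 0 (⟨0,[]⟩,⟨0,[]⟩) .k .k) (.Q [-1,1,0,1,0,0,0,0,-1,0,0,-1] (.p
  false [0,0,0,0,1] [] (⟨0,[(26,0)]⟩,⟨0,[(25,0)]⟩) .k 0 (⟨0,[]⟩,⟨0,[]⟩) .k .k) (.R ⟨2,true,false,
  false,[0,1],[0,0,0,0,1],[1,1],(⟨0,[]⟩,⟨0,[]⟩),(⟨0,[(27,0)]⟩,⟨0,[(26,0)]⟩),⟨0,[]⟩,.k,.k,.k,(.r 0
  ⟨2,[(8,0),(12,0),(9,0),(17,2)]⟩ ⟨9,[(11,3),(6,1),(0,1),(30,2),(0,2)]⟩),.k,.k,⟨true,0,⟨0,[(53,0)]⟩,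
  ⟨0,[(47,0)]⟩⟩,⟨false,0,⟨0,[(25,0)]⟩,⟨0,[(4,0)]⟩⟩,⟨false,1,⟨9,[(11,3),(6,1),(0,1),(30,2),(0,2)]⟩,
  ⟨0,[(41,0),(7,0)]⟩⟩,⟨true,0,⟨2,[(1,0),(10,0),(3,0),(8,1)]⟩,⟨0,[(0,0)]⟩⟩,⟨true,0,⟨0,[(42,0)]⟩,⟨2,
  [(8,0),(12,0),(9,0)]⟩⟩,⟨false,0,⟨0,[(1,0)]⟩,⟨3,[(0,0),(23,2),(15,0),(7,0)]⟩⟩,[]⟩) (.I [1,0,1,0,0,
  1,1] (.I [1,0,0,-2,0,1] (.I [0,1,1,1,-1] (.C [(0,0),(2,0),(3,0)]) (.C [(0,0),(17,0),(15,0)])) (.C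
  [(0,2),(6,0),(6,1),(30,0)])) (.C [(0,0),(9,0),(21,0),(11,0)]))) (.R ⟨0,false,false,true,[1,0,0,0,
  -1],[1,-1],[],(⟨0,[(25,0)]⟩,⟨0,[(26,0)]⟩),(⟨0,[(36,0)]⟩,⟨0,[(37,0)]⟩),⟨0,[(2,0)]⟩,.k,.k,(.r (-1)
  ⟨9,[(10,3),(6,1),(0,1),(30,2),(0,2)]⟩ ⟨2,[(7,0),(12,0),(9,0),(17,2)]⟩),(.r 0 ⟨2,[(7,0),(12,0),(9,
  0),(17,2)]⟩ ⟨9,[(10,3),(6,1),(0,1),(30,2),(0,2)]⟩),.k,.k,⟨true,0,⟨0,[(40,0),(7,0)]⟩,⟨0,[(47,0)]⟩⟩,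
  ⟨false,0,⟨0,[(24,0)]⟩,⟨0,[(3,0)]⟩⟩,⟨true,0,⟨0,[]⟩,⟨0,[(52,0)]⟩⟩,⟨false,0,⟨4,[(1,0),(2,0),(6,1),
  (12,3)]⟩,⟨0,[(0,0),(47,0),(1,0)]⟩⟩,⟨false,0,⟨0,[]⟩,⟨0,[]⟩⟩,⟨false,0,⟨0,[]⟩,⟨0,[]⟩⟩,[.o ⟨false,0,
  ⟨0,[(47,0)]⟩,⟨1,[(35,0),(12,1),(1,0)]⟩⟩,.a ⟨true,0,⟨9,[(10,0),(8,3),(0,0),(7,0),(1,0),(3,0),(1,0),
  (2,0),(3,1)]⟩,⟨0,[(48,0)]⟩⟩ ⟨false,1,⟨1,[(49,0),(0,0)]⟩,⟨0,[(52,0)]⟩⟩ ⟨true,0,⟨38,[(1,8),(2,7),(3,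
  0),(2,15),(10,0),(1,29),(9,2)]⟩,⟨0,[(0,0),(39,0),(7,0)]⟩⟩,.e ⟨false,1,⟨1,[(23,0),(0,0),(25,0)]⟩,
  ⟨0,[]⟩⟩ ⟨false,0,⟨38,[(1,8),(2,7),(3,0),(2,15),(10,0),(1,29),(9,2)]⟩,⟨0,[(0,0),(47,0),(1,0)]⟩⟩,.o
  ⟨false,0,⟨0,[(0,0),(39,0)]⟩,⟨1,[(24,1),(10,0),(13,0)]⟩⟩]⟩)))) (.Q [0,0,0,0,0,-1,0,0,0,0,0,1] (.ed
  false [1,-1,0,0,1] .k) (.Q [-1,0,0,0,1,0,0,0,-1,0,0,-1] (.p false [0,0,0,0,1] [] (⟨0,[(24,0)]⟩,⟨0,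
  [(23,0)]⟩) .k 0 (⟨0,[]⟩,⟨0,[]⟩) .k .k) (.S ⟨1,0,[1,1],[0,0,0,0,1],[1,1,1],(⟨0,[(25,0)]⟩,⟨0,[(24,
  0)]⟩),⟨0,[(1,0)]⟩,.k,(.r (-1) ⟨9,[(9,3),(6,1),(0,1),(30,2),(0,2)]⟩ ⟨2,[(6,0),(12,0),(9,0),(17,
  2)]⟩),⟨false,0,⟨2,[(6,0),(12,0),(9,0)]⟩,⟨1,[(48,0),(0,0)]⟩⟩,⟨true,0,⟨0,[(51,0)]⟩,⟨0,[]⟩⟩,⟨true,
  (-1),⟨0,[(13,0),(15,0)]⟩,⟨9,[(9,3),(6,1),(0,1),(30,2),(0,2)]⟩⟩,⟨false,0,⟨0,[(47,0)]⟩,⟨31,[(3,1),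
  (5,9),(0,3),(6,9),(16,0),(14,20)]⟩⟩,[.e ⟨false,0,⟨0,[(51,0)]⟩,⟨1,[(48,0),(0,0)]⟩⟩ ⟨false,0,⟨0,
  [(40,0)]⟩,⟨1,[(22,0),(0,0),(25,0)]⟩⟩,.o ⟨false,0,⟨1,[(2,1),(31,0),(13,0)]⟩,⟨0,[(0,0)]⟩⟩,.o ⟨false,
  0,⟨1,[(2,1),(31,0),(13,0)]⟩,⟨0,[(22,0)]⟩⟩,.a ⟨true,(-1),⟨0,[(2,0)]⟩,⟨1,[(0,1),(41,0),(5,0)]⟩⟩
  ⟨false,0,⟨0,[]⟩,⟨1,[(22,0),(0,0),(25,0)]⟩⟩ ⟨true,0,⟨0,[(40,0)]⟩,⟨2,[(6,0),(12,0),(9,0)]⟩⟩]⟩) (.R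
  ⟨2,true,false,true,[0,1],[0,0,0,0,1],[1,1],(⟨0,[]⟩,⟨0,[]⟩),(⟨0,[(25,0)]⟩,⟨0,[(24,0)]⟩),⟨0,[]⟩,.k,
  .k,.k,(.r 0 ⟨2,[(6,0),(12,0),(9,0),(17,2)]⟩ ⟨9,[(9,3),(6,1),(0,1),(30,2),(0,2)]⟩),.k,.k,⟨false,1,
  ⟨45,[(11,11),(7,5),(2,11),(0,11),(8,11),(8,7),(0,0),(5,10)]⟩,⟨0,[]⟩⟩,⟨true,(-1),⟨0,[(2,0)]⟩,⟨0,
  [(22,0)]⟩⟩,⟨false,1,⟨9,[(9,3),(6,1),(0,1),(30,2),(0,2)]⟩,⟨0,[(39,0),(7,0)]⟩⟩,⟨true,(-1),⟨5,[(0,2),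
  (1,2),(6,1),(2,1),(31,0)]⟩,⟨0,[(22,0),(24,0)]⟩⟩,⟨true,0,⟨0,[(40,0)]⟩,⟨2,[(6,0),(12,0),(9,0)]⟩⟩,
  ⟨false,(-1),⟨0,[(0,0)]⟩,⟨4,[(22,6),(0,1),(25,2),(1,0)]⟩⟩,[]⟩)) (.Q [1,1,0,0,-1,0,-1,-1,1,0,-1,1]
  (.p false [0,0,1] [0,0,0,0,1] (⟨0,[(31,0)]⟩,⟨0,[(30,0)]⟩) .k 2 (⟨0,[(24,0)]⟩,⟨0,[(23,0)]⟩) .k (.r
  0 ⟨0,[(2,0),(2,0),(3,2),(2,7),(15,5),(8,7),(1,7)]⟩ ⟨21,[(4,10),(0,4),(4,8),(10,3),(0,3),(5,7),(2,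
  8),(8,5)]⟩)) (.R ⟨0,false,false,false,[0,0,0,0,1],[0,1],[],(⟨0,[(25,0)]⟩,⟨0,[(24,0)]⟩),(⟨0,[(36,
  0)]⟩,⟨0,[(35,0)]⟩),⟨0,[(1,0)]⟩,.k,.k,(.r (-1) ⟨9,[(9,3),(6,1),(0,1),(30,2),(0,2)]⟩ ⟨2,[(6,0),(12,
  0),(9,0),(17,2)]⟩),(.r (-1) ⟨9,[(9,3),(6,1),(0,1),(30,2),(0,2)]⟩ ⟨2,[(6,0),(12,0),(9,0),(17,2)]⟩),
  .k,.k,⟨true,1,⟨9,[(9,3),(6,1),(0,1),(30,2),(0,2)]⟩,⟨2,[(6,1),(6,1),(25,1),(2,0),(4,0)]⟩⟩,⟨false,2,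
  ⟨0,[(22,0),(25,0)]⟩,⟨0,[(2,0)]⟩⟩,⟨false,1,⟨4,[(22,1),(0,1),(25,2),(1,0)]⟩,⟨0,[]⟩⟩,⟨true,1,⟨0,[(22,
  0),(24,0)]⟩,⟨1,[(0,0),(1,0),(7,0),(29,0)]⟩⟩,⟨false,0,⟨0,[]⟩,⟨0,[]⟩⟩,⟨false,0,⟨0,[]⟩,⟨0,[]⟩⟩,[.a
  ⟨true,0,⟨0,[(47,0)]⟩,⟨9,[(9,0),(8,3),(0,0),(7,0),(1,0),(3,0),(1,0),(2,0),(3,1)]⟩⟩ ⟨false,1,⟨45,
  [(11,11),(7,5),(2,11),(0,11),(8,11),(8,7),(0,0),(5,10)]⟩,⟨0,[]⟩⟩ ⟨true,1,⟨0,[(22,0),(24,0)]⟩,⟨2,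
  [(0,1),(1,0),(7,0),(1,0),(16,0),(8,0),(0,0)]⟩⟩,.o ⟨false,1,⟨1,[(34,0),(12,1),(1,0)]⟩,⟨0,[(46,
  0)]⟩⟩,.o ⟨false,0,⟨1,[(2,1),(31,0),(13,0)]⟩,⟨0,[(22,0)]⟩⟩,.e ⟨false,1,⟨1,[(48,0),(0,0)]⟩,⟨2,[(6,
  0),(12,0),(9,0)]⟩⟩ ⟨false,2,⟨1,[(22,1),(24,1),(0,0),(0,0)]⟩,⟨2,[(0,1),(1,0),(7,0),(1,0),(16,0),(8,
  0),(0,0)]⟩⟩]⟩) (.S ⟨1,0,[-1,1],[1,0,0,0,-1],[-1],(⟨0,[(24,0)]⟩,⟨0,[(25,0)]⟩),⟨1,[(1,0),(5,0),(13,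
  0),(2,0)]⟩,.k,(.r (-1) ⟨9,[(9,3),(6,1),(0,1),(30,2),(0,2)]⟩ ⟨2,[(6,0),(12,0),(9,0),(17,2)]⟩),
  ⟨false,1,⟨1,[(22,0),(0,0),(25,0)]⟩,⟨0,[]⟩⟩,⟨true,0,⟨0,[(51,0)]⟩,⟨0,[]⟩⟩,⟨true,0,⟨0,[(47,0)]⟩,⟨0,
  [(46,0)]⟩⟩,⟨false,0,⟨0,[(47,0)]⟩,⟨31,[(3,1),(5,9),(0,3),(6,9),(16,0),(14,20)]⟩⟩,[.a ⟨true,0,⟨37,
  [(0,37),(2,9),(0,8),(2,0),(5,28),(7,0),(7,28),(3,2),(6,10),(1,8),(1,17)]⟩,⟨1,[(2,1),(45,0),(0,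
  0)]⟩⟩ ⟨false,1,⟨9,[(22,3),(0,3),(24,4),(0,0),(1,1)]⟩,⟨0,[]⟩⟩ ⟨true,0,⟨0,[(51,0)]⟩,⟨0,[(39,0)]⟩⟩,
  .o ⟨false,1,⟨44,[(0,9),(4,2),(0,1),(0,2),(1,3),(3,5),(7,2),(0,34),(10,8),(9,1),(3,1)]⟩,⟨1,[(2,1),
  (31,0),(13,0)]⟩⟩,.o ⟨false,1,⟨0,[(22,0)]⟩,⟨1,[(2,1),(31,0),(13,0)]⟩⟩,.e ⟨false,1,⟨1,[(38,0),(9,
  0)]⟩,⟨2,[(6,0),(12,0),(9,0)]⟩⟩ ⟨false,1,⟨9,[(22,3),(0,3),(24,4),(0,0),(1,1)]⟩,⟨0,[(39,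
  0)]⟩⟩]⟩))))))))))))))

theorem ok36 : chk K t36 r13 = true := by decide +kernel

noncomputable def t40 : Tre :=
  (.I [1,0,0,0,0,0,0,1] (.R ⟨2,true,false,true,[0,1],[0,0,1],[1,1,1,0,0,0,0,1],(⟨0,[]⟩,⟨0,[]⟩),(⟨0,
  [(19,0)]⟩,⟨0,[(18,0)]⟩),⟨0,[]⟩,.k,.k,.k,.k,.k,.k,⟨false,0,⟨0,[]⟩,⟨1,[(9,0),(0,0),(24,0)]⟩⟩,⟨true,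
  0,⟨0,[(16,0)]⟩,⟨0,[(2,0)]⟩⟩,⟨true,0,⟨0,[(0,0),(32,0)]⟩,⟨0,[(3,0),(23,0)]⟩⟩,⟨false,1,⟨3,[(5,1),(3,
  0),(0,0),(3,3),(6,0),(14,1)]⟩,⟨0,[(1,0)]⟩⟩,⟨false,0,⟨0,[(0,0)]⟩,⟨5,[(3,3),(1,1),(9,1),(0,1),(4,0),
  (13,2),(0,1)]⟩⟩,⟨true,0,⟨0,[(14,0)]⟩,⟨0,[(1,0),(31,0)]⟩⟩,[]⟩) (.R ⟨2,true,false,true,[0,1],[0,0,
  1],[1,1,1],(⟨0,[]⟩,⟨0,[]⟩),(⟨0,[(19,0)]⟩,⟨0,[(18,0)]⟩),⟨0,[]⟩,.k,.k,.k,.k,.k,.k,⟨false,0,⟨0,[(0,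
  0)]⟩,⟨0,[(4,0),(30,0)]⟩⟩,⟨true,0,⟨0,[(16,0)]⟩,⟨0,[(2,0)]⟩⟩,⟨true,0,⟨0,[(33,0)]⟩,⟨0,[(34,0)]⟩⟩,
  ⟨false,1,⟨3,[(5,1),(3,0),(0,0),(3,3),(6,0),(14,1)]⟩,⟨0,[(1,0)]⟩⟩,⟨false,0,⟨0,[]⟩,⟨1,[(9,0),(0,0),
  (25,0)]⟩⟩,⟨true,0,⟨0,[(14,0)]⟩,⟨0,[(1,0),(31,0)]⟩⟩,[]⟩))

theorem ok40 : chk K t40 l23 = true := by decide +kernel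

noncomputable def t41 : Tre :=
  (.S ⟨1,0,[0,0,1,1,0,0,0,-1],[1,1,-1],[0,1,1,1,0,0,0,-1],(⟨10,[(9,0),(0,0),(7,10),(4,4),(4,1),(0,
  0)]⟩,⟨0,[(8,0)]⟩),⟨0,[(18,0)]⟩,.k,.k,⟨true,0,⟨0,[(38,0)]⟩,⟨0,[]⟩⟩,⟨false,1,⟨1,[(9,0),(0,0),(25,
  0)]⟩,⟨0,[]⟩⟩,⟨false,0,⟨0,[(34,0)]⟩,⟨3,[(5,1),(3,0),(0,0),(10,0),(14,1)]⟩⟩,⟨true,0,⟨0,[(34,0)]⟩,⟨0,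
  [(33,0)]⟩⟩,[.o ⟨false,0,⟨0,[(2,0),(0,0),(23,0)]⟩,⟨1,[(1,1),(19,0),(14,0)]⟩⟩,.a ⟨true,0,⟨0,[(3,0),
  (9,0)]⟩,⟨0,[(1,0)]⟩⟩ ⟨false,0,⟨0,[(3,0),(23,0)]⟩,⟨15,[(0,11),(0,3),(4,1),(2,2),(0,2),(10,0),(9,
  3)]⟩⟩ ⟨true,0,⟨0,[(3,0)]⟩,⟨0,[(1,0),(0,0)]⟩⟩,.e ⟨false,0,⟨0,[(3,0),(34,0)]⟩,⟨0,[(0,0)]⟩⟩ ⟨false,0,
  ⟨0,[(3,0)]⟩,⟨15,[(0,11),(0,3),(4,1),(2,2),(0,2),(10,0),(9,3)]⟩⟩,.o ⟨false,0,⟨0,[(2,0)]⟩,⟨1,[(16,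
  1),(4,0),(13,0)]⟩⟩]⟩)

theorem ok41 : chk K t41 l24 = true := by decide +kernel

noncomputable def t42 : Tre :=
  (.R ⟨1,true,false,false,[0,0,1],[0,1],[0,0,0,0,0,0,0,1],(⟨0,[(20,0)]⟩,⟨0,[(19,0)]⟩),(⟨0,[(24,0)]⟩,
  ⟨0,[(23,0)]⟩),⟨0,[(9,0)]⟩,.k,.k,.k,.k,(.r (-2) ⟨1,[(2,1),(3,0),(0,0),(14,0),(13,1),(0,0)]⟩ ⟨1,[(0,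
  0),(0,1),(13,0),(11,1)]⟩),.k,⟨true,1,⟨1,[(2,1),(11,1),(7,0),(14,0)]⟩,⟨0,[(1,0),(25,0)]⟩⟩,⟨false,1,
  ⟨1,[(14,1),(7,0),(13,0)]⟩,⟨0,[(17,0)]⟩⟩,⟨false,1,⟨1,[(10,0),(0,0),(25,0)]⟩,⟨0,[]⟩⟩,⟨true,0,⟨1,[(0,
  0),(15,0)]⟩,⟨0,[(2,0)]⟩⟩,⟨true,0,⟨0,[(35,0)]⟩,⟨0,[(34,0)]⟩⟩,⟨false,0,⟨0,[(0,0)]⟩,⟨3,[(2,3),(3,1),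
  (3,0),(0,0),(10,0),(14,1)]⟩⟩,[]⟩)

theorem ok42 : chk K t42 l25 = true := by decide +kernel

noncomputable def t43 : Tre :=
  (.Q [0,0,0,-1,0,0,-1,-1,0,0,-1] (.p false [0,0,1] [] (⟨0,[(21,0)]⟩,⟨0,[(20,0)]⟩) .k 0 (⟨0,[]⟩,⟨0,
  []⟩) .k .k) (.I [0,0,2,0,-1,2] (.Q [0,1,0,0,-1,0,-1,-1,0,1,-1] (.p false [0,0,1] [1] (⟨0,[(23,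
  0)]⟩,⟨0,[(22,0)]⟩) .k 1 (⟨0,[]⟩,⟨0,[]⟩) .k .k) (.R ⟨1,false,false,true,[1,-1],[1,0,-1],[0,1,-1,
  -1],(⟨0,[(27,0)]⟩,⟨0,[(28,0)]⟩),(⟨0,[(23,0)]⟩,⟨0,[(24,0)]⟩),⟨0,[(12,0),(0,0)]⟩,.k,.k,(.x 1 ⟨0,[(1,
  0)]⟩ ⟨0,[(26,0),(0,1),(12,0)]⟩),.k,(.r (-2) ⟨11,[(3,15),(0,3),(4,7),(1,1),(2,4),(0,4),(10,0),(14,
  1)]⟩ ⟨0,[(5,0),(25,0),(7,0)]⟩),.k,⟨true,1,⟨0,[(3,0),(5,0)]⟩,⟨0,[(5,0),(25,0)]⟩⟩,⟨false,1,⟨1,[(18,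
  1),(7,0),(13,0)]⟩,⟨0,[(21,0)]⟩⟩,⟨true,0,⟨0,[(43,0)]⟩,⟨0,[]⟩⟩,⟨false,0,⟨1,[(5,0),(2,0),(9,1),(7,
  0)]⟩,⟨0,[(6,0),(34,0)]⟩⟩,⟨false,0,⟨0,[(39,0)]⟩,⟨3,[(10,1),(3,0),(0,0),(10,0),(14,1)]⟩⟩,⟨false,0,
  ⟨1,[(5,0),(2,0),(9,1),(7,0),(12,1)]⟩,⟨0,[(4,0),(36,0)]⟩⟩,[.a ⟨true,(-1),⟨0,[(0,0)]⟩,⟨0,[(19,0),
  (21,0)]⟩⟩ ⟨false,1,⟨4,[(3,3),(10,0),(0,0),(20,1),(1,0)]⟩,⟨0,[(31,0),(7,0)]⟩⟩ ⟨true,0,⟨1,[(0,1),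
  (25,0),(13,0)]⟩,⟨0,[(19,0),(11,1)]⟩⟩,.o ⟨false,0,⟨2,[(0,0),(1,0),(5,0),(9,0),(7,0)]⟩,⟨1,[(19,1),
  (6,0),(14,0)]⟩⟩,.o ⟨false,0,⟨1,[(21,0),(0,0)]⟩,⟨1,[(26,0),(13,0)]⟩⟩,.e ⟨false,1,⟨0,[(3,0)]⟩,⟨0,
  [(8,0),(0,0)]⟩⟩ ⟨false,1,⟨2,[(0,0),(1,0),(5,0),(9,0),(7,0),(13,2)]⟩,⟨0,[(19,0),(11,1)]⟩⟩]⟩) (.S
  ⟨1,0,[0,0,-1,-1],[1,-1],[0,1,-1,-1],(⟨0,[(27,0)]⟩,⟨0,[(28,0)]⟩),⟨0,[(12,0),(0,0)]⟩,.k,(.x 1 ⟨0,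
  [(1,0)]⟩ ⟨0,[(26,0),(0,1),(12,0)]⟩),⟨true,0,⟨0,[(43,0)]⟩,⟨0,[]⟩⟩,⟨false,1,⟨1,[(14,0),(0,0),(25,
  0)]⟩,⟨0,[]⟩⟩,⟨false,0,⟨0,[(39,0)]⟩,⟨3,[(10,1),(3,0),(0,0),(10,0),(14,1)]⟩⟩,⟨true,0,⟨0,[(39,0)]⟩,
  ⟨0,[(38,0)]⟩⟩,[.e ⟨false,1,⟨4,[(3,3),(10,0),(0,0),(20,1),(1,0)]⟩,⟨0,[(31,0),(7,0)]⟩⟩ ⟨false,1,⟨0,
  [(3,0)]⟩,⟨1,[(8,0),(0,0),(29,0),(3,0)]⟩⟩,.o ⟨false,1,⟨3,[(10,1),(3,0),(0,0),(10,0),(14,1)]⟩,⟨0,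
  [(0,0),(4,0),(1,0),(24,0)]⟩⟩,.o ⟨false,0,⟨1,[(21,0),(0,0)]⟩,⟨1,[(26,0),(13,0)]⟩⟩,.a ⟨true,(-1),⟨2,
  [(5,1),(3,1),(0,0),(20,1),(2,0)]⟩,⟨0,[(40,0)]⟩⟩ ⟨false,1,⟨0,[(3,0)]⟩,⟨0,[(8,0),(0,0)]⟩⟩ ⟨true,1,
  ⟨0,[(3,0)]⟩,⟨0,[(5,0),(3,0)]⟩⟩]⟩)) (.I [0,0,0,0,0,-1,-1] (.I [0,0,0,0,1,0,0,0,-1] (.I [1,0,0,0,0,
  3,0,0,1] (.I [0,1,0,-2,0,0,0,1] (.C [(0,0),(3,2),(2,0),(0,1),(1,0),(23,3),(1,1),(0,0),(4,1)]) (.C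
  [(0,0),(6,0),(2,0)])) (.C [(0,0),(16,0),(0,0),(16,0)])) (.C [(0,0),(14,0),(2,0)])) (.C [(0,0),(6,
  0),(5,0)]))) (.R ⟨2,true,false,false,[0,1],[0,1,1],[0,0,2,1,0,0,0,1],(⟨0,[]⟩,⟨0,[]⟩),(⟨10,[(12,0),
  (0,0),(8,10),(3,4),(4,1),(0,0)]⟩,⟨0,[(10,0)]⟩),⟨0,[]⟩,.k,.k,.k,.k,.k,.k,⟨true,0,⟨1,[(19,0),(0,
  0)]⟩,⟨0,[]⟩⟩,⟨false,1,⟨0,[(19,0),(18,0)]⟩,⟨0,[(5,0)]⟩⟩,⟨true,0,⟨0,[(7,0)]⟩,⟨0,[(1,0),(1,0)]⟩⟩,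
  ⟨false,1,⟨0,[(17,0),(21,0)]⟩,⟨0,[(1,0),(1,0),(1,0),(23,0)]⟩⟩,⟨false,0,⟨0,[(0,0),(4,0),(23,0)]⟩,⟨0,
  [(1,0),(4,0),(29,0)]⟩⟩,⟨true,0,⟨0,[(0,0)]⟩,⟨2,[(1,0),(1,1),(1,1),(2,1),(9,0),(5,0)]⟩⟩,[]⟩))

theorem ok43 : chk K t43 l26 = true := by decide +kernel

noncomputable def t44 : Tre :=
  (.S ⟨1,0,[0,0,1,1,0,0,0,-1],[1,1,-1],[],(⟨10,[(12,0),(0,0),(7,10),(4,4),(4,1),(0,0)]⟩,⟨0,[(11,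
  0)]⟩),⟨0,[(21,0)]⟩,.k,.k,⟨true,1,⟨7,[(0,3),(1,3),(6,1),(2,0),(0,0),(10,0),(13,1)]⟩,⟨0,[(3,0)]⟩⟩,
  ⟨false,1,⟨1,[(12,0),(0,0),(25,0)]⟩,⟨0,[]⟩⟩,⟨false,1,⟨0,[(0,0)]⟩,⟨0,[(6,0),(29,0)]⟩⟩,⟨true,0,⟨0,
  [(37,0)]⟩,⟨0,[(36,0)]⟩⟩,[.o ⟨false,0,⟨1,[(3,0),(2,0),(9,1),(7,0)]⟩,⟨1,[(4,1),(19,0),(14,0)]⟩⟩,.a
  ⟨true,0,⟨0,[(6,0),(9,0)]⟩,⟨0,[(4,0)]⟩⟩ ⟨false,1,⟨1,[(38,0),(0,0)]⟩,⟨0,[(41,0)]⟩⟩ ⟨true,0,⟨0,[(6,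
  0)]⟩,⟨0,[(4,0),(0,0)]⟩⟩,.e ⟨false,1,⟨1,[(12,0),(0,0),(25,0)]⟩,⟨0,[]⟩⟩ ⟨false,0,⟨0,[(6,0)]⟩,⟨7,[(0,
  3),(1,3),(6,1),(2,0),(0,0),(10,0),(13,1)]⟩⟩,.o ⟨false,0,⟨0,[(5,0)]⟩,⟨1,[(19,1),(4,0),(13,0)]⟩⟩]⟩)

theorem ok44 : chk K t44 l27 = true := by decide +kernel

noncomputable def t45 : Tre :=
  (.S ⟨1,0,[0,0,0,0,0,0,0,-1],[1,0,-1],[0,1,0,0,0,0,0,-1],(⟨0,[(22,0)]⟩,⟨0,[(23,0)]⟩),⟨0,[(11,0)]⟩,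
  .k,.k,⟨true,0,⟨0,[(42,0)]⟩,⟨0,[]⟩⟩,⟨false,1,⟨1,[(13,0),(0,0),(25,0)]⟩,⟨0,[]⟩⟩,⟨false,0,⟨0,[(38,
  0)]⟩,⟨3,[(9,1),(3,0),(0,0),(10,0),(14,1)]⟩⟩,⟨true,0,⟨0,[(38,0)]⟩,⟨0,[(37,0)]⟩⟩,[.o ⟨false,0,⟨1,
  [(1,1),(15,1),(7,0),(14,0)]⟩,⟨1,[(18,1),(6,0),(14,0)]⟩⟩,.a ⟨true,0,⟨0,[(1,0),(15,0),(22,0)]⟩,⟨0,
  [(18,0)]⟩⟩ ⟨true,0,⟨1,[(1,1),(37,0),(0,0)]⟩,⟨0,[(8,0)]⟩⟩ ⟨false,1,⟨0,[(1,0),(37,0),(0,0)]⟩,⟨0,[(6,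
  0),(11,0)]⟩⟩,.o ⟨false,0,⟨0,[(6,0)]⟩,⟨3,[(0,1),(12,0),(0,0),(5,1),(4,0)]⟩⟩,.o ⟨false,0,⟨0,[(21,
  0)]⟩,⟨0,[(0,0)]⟩⟩]⟩)

theorem ok45 : chk K t45 l28 = true := by decide +kernel

noncomputable def t46 : Tre :=
  (.R ⟨0,false,false,true,[0,-1,1],[1,-1],[],(⟨0,[(14,0)]⟩,⟨10,[(15,0),(0,0),(7,10),(4,4),(4,1),(0,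
  0)]⟩),(⟨0,[(28,0)]⟩,⟨0,[(29,0)]⟩),⟨0,[(0,0)]⟩,.k,.k,(.r (-2) ⟨3,[(5,3),(6,1),(2,0),(0,0),(10,0),
  (13,3),(0,1)]⟩ ⟨1,[(4,0),(1,0),(2,0),(30,0)]⟩),.k,.k,.k,⟨true,0,⟨1,[(4,0),(35,0),(1,0)]⟩,⟨0,[(39,
  0)]⟩⟩,⟨false,0,⟨0,[(19,0)]⟩,⟨1,[(22,1),(4,0),(13,0)]⟩⟩,⟨false,0,⟨0,[(9,0)]⟩,⟨5,[(1,1),(3,1),(4,3),
  (16,0),(13,3),(0,0)]⟩⟩,⟨true,(-1),⟨0,[(3,0),(15,0)]⟩,⟨1,[(20,1),(6,0),(14,0)]⟩⟩,⟨false,0,⟨0,[]⟩,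
  ⟨0,[]⟩⟩,⟨false,0,⟨0,[]⟩,⟨0,[]⟩⟩,[.o ⟨false,0,⟨0,[(39,0)]⟩,⟨1,[(27,0),(12,1),(1,0)]⟩⟩,.a ⟨true,0,
  ⟨9,[(11,4),(0,0),(9,1),(12,1),(5,0),(0,0),(1,1)]⟩,⟨0,[(40,0)]⟩⟩ ⟨false,1,⟨1,[(41,0),(0,0)]⟩,⟨0,
  [(44,0)]⟩⟩ ⟨true,0,⟨0,[(1,0)]⟩,⟨1,[(4,0),(4,0),(10,0),(1,0),(4,0)]⟩⟩,.e ⟨false,1,⟨1,[(15,0),(0,0),
  (25,0)]⟩,⟨0,[]⟩⟩ ⟨false,0,⟨0,[(1,0)]⟩,⟨1,[(9,1),(10,1),(6,0),(14,0)]⟩⟩,.o ⟨false,0,⟨5,[(3,0),(0,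
  1),(0,0),(16,4),(4,2),(4,1)]⟩,⟨1,[(19,1),(7,0),(13,0)]⟩⟩]⟩)

theorem ok46 : chk K t46 l30 = true := by decide +kernel

noncomputable def t47 : Tre :=
  (.R ⟨1,false,false,false,[1,0,-1],[0,1],[],(⟨0,[(26,0)]⟩,⟨0,[(27,0)]⟩),(⟨0,[(31,0)]⟩,⟨0,[(30,
  0)]⟩),⟨0,[(15,0)]⟩,.k,.k,.k,.k,(.x 1 ⟨56,[(1,4),(2,45),(1,14),(0,4),(17,15),(1,56),(6,4),(1,37),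
  (1,3),(6,16)]⟩ ⟨8,[(0,3),(0,5),(0,2),(6,1),(5,11),(8,2),(4,3),(9,0),(3,9)]⟩),.k,⟨true,1,⟨3,[(13,
  1),(3,0),(0,0),(10,0),(13,1)]⟩,⟨0,[(6,0)]⟩⟩,⟨false,2,⟨1,[(24,1),(4,0),(13,2)]⟩,⟨0,[(4,0)]⟩⟩,
  ⟨false,1,⟨1,[(0,0),(6,0),(6,0),(29,0)]⟩,⟨3,[(1,1),(6,0),(2,0),(31,0)]⟩⟩,⟨true,1,⟨3,[(0,1),(16,0),
  (0,0),(3,1),(6,0)]⟩,⟨0,[(3,0),(1,0)]⟩⟩,⟨false,1,⟨1,[(0,0),(13,0),(7,0),(21,0)]⟩,⟨0,[(1,0)]⟩⟩,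
  ⟨false,1,⟨0,[(0,0)]⟩,⟨1,[(1,1),(11,0),(0,0)]⟩⟩,[.e ⟨false,1,⟨1,[(17,0),(0,0),(24,0)]⟩,⟨0,[]⟩⟩
  ⟨false,1,⟨0,[(0,0),(0,0),(33,0)]⟩,⟨1,[(13,0),(0,0)]⟩⟩,.o ⟨false,1,⟨5,[(0,1),(10,1),(9,1),(7,2),
  (14,0)]⟩,⟨0,[(41,0)]⟩⟩,.o ⟨false,0,⟨0,[(10,0)]⟩,⟨1,[(24,1),(4,0),(13,0)]⟩⟩,.a ⟨true,(-1),⟨0,[(4,
  0)]⟩,⟨0,[(24,0),(18,0)]⟩⟩ ⟨false,1,⟨1,[(43,0),(0,0)]⟩,⟨1,[(24,0),(0,0)]⟩⟩ ⟨true,1,⟨0,[(0,0),(0,0),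
  (33,0)]⟩,⟨0,[(4,0),(36,0)]⟩⟩]⟩)

theorem ok47 : chk K t47 l32 = true := by decide +kernel

noncomputable def t48 : Tre :=
  (.R ⟨0,false,false,true,[1,-1,-1],[1,-1],[0,1,0,-1],(⟨0,[(16,0)]⟩,⟨33,[(0,1),(14,2),(9,3),(2,33),
  (3,12),(4,6),(0,1)]⟩),(⟨0,[(31,0)]⟩,⟨0,[(32,0)]⟩),⟨2,[(3,0),(13,1),(11,0),(7,2)]⟩,.k,.k,(.r (-1)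
  ⟨1,[(0,1),(0,1),(28,0),(14,0)]⟩ ⟨1,[(12,0),(0,2),(29,2),(3,0)]⟩),.k,.k,.k,⟨true,0,⟨1,[(25,0),(0,
  0)]⟩,⟨0,[]⟩⟩,⟨false,1,⟨2,[(0,1),(17,0),(0,0),(5,0)]⟩,⟨0,[(11,0)]⟩⟩,⟨false,0,⟨0,[(13,0)]⟩,⟨3,[(2,
  1),(9,1),(31,2),(0,0)]⟩⟩,⟨true,0,⟨0,[(23,0)]⟩,⟨5,[(1,1),(7,0),(2,2),(9,3),(7,2)]⟩⟩,⟨false,0,⟨0,
  []⟩,⟨0,[]⟩⟩,⟨false,0,⟨0,[]⟩,⟨0,[]⟩⟩,[.o ⟨false,0,⟨0,[(42,0)]⟩,⟨1,[(30,0),(12,1),(1,0)]⟩⟩,.a ⟨true,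
  0,⟨17,[(0,1),(13,8),(0,2),(9,3),(3,1),(1,1),(6,1)]⟩,⟨0,[(43,0)]⟩⟩ ⟨false,1,⟨3,[(14,1),(3,0),(0,0),
  (10,0),(13,1)]⟩,⟨0,[(43,0)]⟩⟩ ⟨true,1,⟨11,[(0,7),(13,5),(3,0),(0,0),(5,3),(4,2)]⟩,⟨0,[(7,0),(3,
  0)]⟩⟩,.a ⟨true,(-1),⟨0,[(5,0)]⟩,⟨2,[(0,1),(17,0),(0,0),(5,0)]⟩⟩ ⟨true,0,⟨0,[(42,0)]⟩,⟨0,[(43,
  0)]⟩⟩ ⟨false,1,⟨11,[(0,7),(13,5),(3,0),(0,0),(5,3),(4,2)]⟩,⟨1,[(7,0),(3,1),(31,0),(1,0)]⟩⟩,.a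
  ⟨true,(-1),⟨1,[(7,1),(6,0),(0,0)]⟩,⟨0,[(0,0)]⟩⟩ ⟨false,1,⟨3,[(14,1),(3,0),(0,0),(10,0),(13,1)]⟩,
  ⟨1,[(7,0),(35,0),(1,0)]⟩⟩ ⟨true,1,⟨0,[(0,0),(41,0)]⟩,⟨0,[(7,0),(3,0)]⟩⟩]⟩)

theorem ok48 : chk K t48 l33 = true := by decide +kernel

noncomputable def t49 : Tre :=
  (.I [1,0,-2,-2,1,0,0,-1] (.N [0,2,1] 1 ⟨0,[(2,0)]⟩ ⟨0,[(0,0)]⟩ (.x (-3) ⟨1,[(19,1),(1,0),(0,0),(5,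
  1),(4,1),(0,1),(12,2)]⟩ ⟨0,[(1,0)]⟩)) (.Q [-1,-1,0,-1,0,0,-1,-1,-1,1,-1,-1] (.p false [0,0,1] [1,
  0,0,0,-1] (⟨0,[(31,0)]⟩,⟨0,[(30,0)]⟩) .k 2 (⟨0,[(23,0)]⟩,⟨0,[(24,0)]⟩) .k (.r (-1) ⟨1,[(16,1),(4,
  0),(0,0),(24,0)]⟩ ⟨0,[(0,0),(4,1),(31,0),(1,1)]⟩)) (.I [0,0,-2,0,2,-2,1,0,-1] (.Q [-1,0,1,0,-1,0,
  -1,0,-1,1,-1,-1] (.p false [0,0,1] [1,0,0,0,-1] (⟨0,[(33,0)]⟩,⟨0,[(32,0)]⟩) .k 2 (⟨0,[(25,0)]⟩,⟨0,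
  [(26,0)]⟩) .k (.r (-1) ⟨1,[(18,1),(4,0),(0,0),(24,0)]⟩ ⟨0,[(2,0),(4,1),(31,0),(1,1)]⟩)) (.Q [1,1,
  0,0,0,0,0,0,1,-1,0,1] (.p true [0,0,0,0,1] [1] (⟨0,[(27,0)]⟩,⟨0,[(26,0)]⟩) .k 1 (⟨0,[]⟩,⟨0,[]⟩)
  .k .k) (.R ⟨0,false,false,true,[1,-1,-1],[0,0,0,0,1],[1,1,1],(⟨0,[(23,0)]⟩,⟨10,[(25,0),(0,0),(8,
  10),(3,4),(4,1),(0,0)]⟩),(⟨0,[(28,0)]⟩,⟨0,[(27,0)]⟩),⟨2,[(10,0),(13,1),(11,0),(7,2)]⟩,.k,.k,(.r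
  (-2) ⟨3,[(0,1),(8,3),(11,1),(3,2),(0,0),(24,3),(0,0)]⟩ ⟨0,[(4,0)]⟩),(.r (-1) ⟨9,[(9,9),(15,3),(0,
  3),(24,4),(0,0),(1,1)]⟩ ⟨3,[(4,1),(15,1),(4,0),(0,0),(24,0)]⟩),.k,.k,⟨true,0,⟨1,[(32,0),(0,0)]⟩,
  ⟨0,[]⟩⟩,⟨false,2,⟨1,[(0,1),(31,1),(18,2),(0,0)]⟩,⟨0,[(1,0)]⟩⟩,⟨true,(-1),⟨0,[(4,0),(44,0)]⟩,⟨0,
  [(9,0),(41,0)]⟩⟩,⟨false,1,⟨5,[(0,5),(3,1),(14,1),(10,5),(20,2),(0,4)]⟩,⟨0,[(3,0)]⟩⟩,⟨false,0,⟨0,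
  []⟩,⟨0,[]⟩⟩,⟨false,0,⟨0,[]⟩,⟨0,[]⟩⟩,[.o ⟨false,0,⟨0,[(0,0)]⟩,⟨33,[(1,17),(0,11),(7,11),(14,3),(1,
  11),(4,5),(4,3),(6,15),(1,2),(5,16)]⟩⟩,.e ⟨false,0,⟨0,[]⟩,⟨1,[(25,0),(0,0),(24,0)]⟩⟩ ⟨false,2,⟨1,
  [(0,1),(31,1),(18,2),(0,0)]⟩,⟨0,[(1,0)]⟩⟩,.a ⟨true,(-1),⟨0,[(12,0)]⟩,⟨0,[(32,0),(18,0)]⟩⟩ ⟨false,
  0,⟨1,[(32,0),(0,0)]⟩,⟨1,[(51,0),(0,0)]⟩⟩ ⟨true,1,⟨0,[(0,0),(31,0),(18,0)]⟩,⟨0,[(1,0)]⟩⟩,.o ⟨false,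
  (-1),⟨0,[(7,0)]⟩,⟨1,[(32,1),(4,0),(13,2)]⟩⟩]⟩) (.R ⟨0,false,false,true,[1,-1,-1],[0,0,0,0,1],[0,1,
  1],(⟨0,[(23,0)]⟩,⟨10,[(25,0),(0,0),(8,10),(3,4),(4,1),(0,0)]⟩),(⟨0,[(28,0)]⟩,⟨0,[(27,0)]⟩),⟨2,
  [(10,0),(13,1),(11,0),(7,2)]⟩,.k,.k,(.r (-2) ⟨3,[(9,3),(11,1),(3,2),(0,2),(10,0),(13,3)]⟩ ⟨0,[(4,
  0)]⟩),(.r (-1) ⟨9,[(9,9),(15,3),(0,3),(24,4),(0,0),(1,1)]⟩ ⟨3,[(4,1),(15,1),(4,0),(0,0),(24,0)]⟩),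
  .k,.k,⟨true,0,⟨0,[(53,0)]⟩,⟨0,[]⟩⟩,⟨false,2,⟨1,[(26,1),(5,1),(4,0),(13,2)]⟩,⟨0,[(1,0)]⟩⟩,⟨true,
  (-1),⟨0,[(4,0),(44,0)]⟩,⟨0,[(9,0),(41,0)]⟩⟩,⟨false,1,⟨5,[(4,1),(14,1),(6,5),(3,5),(6,2),(13,2),(0,
  1)]⟩,⟨0,[(3,0)]⟩⟩,⟨false,0,⟨0,[]⟩,⟨0,[]⟩⟩,⟨false,0,⟨0,[]⟩,⟨0,[]⟩⟩,[.a ⟨true,0,⟨0,[(26,0),(27,0)]⟩,
  ⟨0,[(0,0)]⟩⟩ ⟨false,0,⟨0,[(54,0)]⟩,⟨1,[(51,0),(0,0)]⟩⟩ ⟨true,1,⟨1,[(26,1),(5,1),(4,0),(5,1),(7,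
  0)]⟩,⟨0,[(0,0),(6,0)]⟩⟩,.a ⟨true,0,⟨0,[(26,0)]⟩,⟨16,[(0,10),(0,1),(23,3),(6,1),(12,1),(1,3),(6,
  2)]⟩⟩ ⟨true,0,⟨1,[(32,0),(0,0)]⟩,⟨0,[]⟩⟩ ⟨false,2,⟨1,[(26,1),(5,1),(4,0),(13,2)]⟩,⟨0,[(1,0)]⟩⟩,.a
  ⟨true,(-1),⟨0,[(12,0)]⟩,⟨0,[(32,0),(18,0)]⟩⟩ ⟨false,0,⟨1,[(32,0),(0,0)]⟩,⟨1,[(51,0),(0,0)]⟩⟩
  ⟨true,1,⟨1,[(26,1),(5,1),(4,0),(5,1),(7,0)]⟩,⟨0,[(1,0)]⟩⟩,.o ⟨false,(-1),⟨0,[(7,0)]⟩,⟨1,[(32,1),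
  (4,0),(13,2)]⟩⟩]⟩)) (.S ⟨1,0,[1,1],[0,0,0,0,1],[],(⟨0,[(27,0)]⟩,⟨0,[(26,0)]⟩),⟨3,[(0,1),(0,1),(2,
  3),(4,1),(12,3),(4,1),(8,0),(13,0)]⟩,.k,(.r (-1) ⟨9,[(0,1),(19,4),(0,0),(2,1),(11,1),(13,3)]⟩ ⟨5,
  [(0,0),(2,1),(14,1),(2,0),(2,0),(6,0),(21,1)]⟩),⟨false,1,⟨10,[(0,1),(20,1),(2,1),(6,1),(19,6),(1,
  2)]⟩,⟨0,[]⟩⟩,⟨true,0,⟨0,[(53,0)]⟩,⟨0,[]⟩⟩,⟨true,0,⟨0,[(3,0),(4,0),(31,0),(1,1)]⟩,⟨0,[(48,0)]⟩⟩,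
  ⟨false,0,⟨0,[(49,0)]⟩,⟨5,[(0,0),(19,2),(3,0),(7,0),(3,0),(14,2)]⟩⟩,[.o ⟨false,0,⟨1,[(0,0),(2,0),
  (3,0),(17,0),(10,0),(5,0)]⟩,⟨19,[(1,5),(0,11),(0,5),(5,5),(14,1),(1,5),(2,5),(6,4),(6,7),(7,6)]⟩⟩,
  .a ⟨true,0,⟨0,[(25,0)]⟩,⟨0,[(1,0),(2,0),(21,0)]⟩⟩ ⟨false,1,⟨1,[(50,0),(0,0)]⟩,⟨0,[(53,0)]⟩⟩ ⟨true,
  0,⟨0,[]⟩,⟨1,[(31,0),(0,0)]⟩⟩,.e ⟨false,1,⟨3,[(0,0),(20,0),(2,0),(6,0),(19,1)]⟩,⟨0,[]⟩⟩ ⟨false,0,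
  ⟨0,[]⟩,⟨3,[(0,0),(20,0),(2,0),(6,0),(19,1)]⟩⟩,.o ⟨false,0,⟨31,[(0,13),(3,2),(1,12),(1,1),(0,0),(3,
  5),(0,1),(7,3),(2,17),(15,1),(3,10)]⟩,⟨19,[(1,5),(0,11),(0,5),(5,5),(14,1),(1,5),(2,5),(6,4),(5,
  5),(0,7),(6,6)]⟩⟩]⟩)) (.Q [-1,0,1,0,-1,0,-1,0,-1,1,-1,-1] (.p false [0,0,1] [1,0,0,0,-1] (⟨0,[(33,
  0)]⟩,⟨0,[(32,0)]⟩) .k 2 (⟨0,[(25,0)]⟩,⟨0,[(26,0)]⟩) .k (.r (-1) ⟨1,[(18,1),(4,0),(0,0),(24,0)]⟩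
  ⟨0,[(2,0),(4,1),(31,0),(1,1)]⟩)) (.Q [1,1,0,0,0,0,0,0,1,-1,0,1] (.p true [0,0,0,0,1] [1] (⟨0,[(27,
  0)]⟩,⟨0,[(26,0)]⟩) .k 1 (⟨0,[]⟩,⟨0,[]⟩) .k .k) (.R ⟨0,false,false,true,[1,-1,-1],[0,0,0,0,1],[1,1,
  1],(⟨0,[(23,0)]⟩,⟨10,[(25,0),(0,0),(8,10),(3,4),(4,1),(0,0)]⟩),(⟨0,[(28,0)]⟩,⟨0,[(27,0)]⟩),⟨2,
  [(10,0),(13,1),(11,0),(7,2)]⟩,.k,.k,(.r (-2) ⟨3,[(0,1),(8,3),(11,1),(3,2),(0,0),(24,3),(0,0)]⟩ ⟨0,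
  [(4,0)]⟩),(.r (-1) ⟨9,[(9,9),(15,3),(0,3),(24,4),(0,0),(1,1)]⟩ ⟨3,[(4,1),(15,1),(4,0),(0,0),(24,
  0)]⟩),.k,.k,⟨true,0,⟨1,[(32,0),(0,0)]⟩,⟨0,[]⟩⟩,⟨false,2,⟨1,[(0,1),(31,1),(18,2),(0,0)]⟩,⟨0,[(1,
  0)]⟩⟩,⟨true,(-1),⟨0,[(4,0),(44,0)]⟩,⟨0,[(9,0),(41,0)]⟩⟩,⟨false,1,⟨5,[(0,5),(3,1),(14,1),(10,5),
  (20,2),(0,4)]⟩,⟨0,[(3,0)]⟩⟩,⟨false,0,⟨0,[]⟩,⟨0,[]⟩⟩,⟨false,0,⟨0,[]⟩,⟨0,[]⟩⟩,[.o ⟨false,0,⟨0,[(0,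
  0)]⟩,⟨5,[(3,5),(0,1),(14,1),(10,5),(6,2),(13,2),(0,1)]⟩⟩,.e ⟨false,0,⟨0,[]⟩,⟨1,[(25,0),(0,0),(24,
  0)]⟩⟩ ⟨false,2,⟨1,[(0,1),(31,1),(18,2),(0,0)]⟩,⟨0,[(1,0)]⟩⟩,.a ⟨true,(-1),⟨0,[(12,0)]⟩,⟨0,[(32,0),
  (18,0)]⟩⟩ ⟨false,0,⟨1,[(32,0),(0,0)]⟩,⟨1,[(51,0),(0,0)]⟩⟩ ⟨true,1,⟨0,[(0,0),(31,0),(18,0)]⟩,⟨0,
  [(1,0)]⟩⟩,.o ⟨false,(-1),⟨0,[(7,0)]⟩,⟨1,[(32,1),(4,0),(13,2)]⟩⟩]⟩) (.R ⟨0,false,false,true,[1,-1,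
  -1],[0,0,0,0,1],[0,1,1],(⟨0,[(23,0)]⟩,⟨10,[(25,0),(0,0),(8,10),(3,4),(4,1),(0,0)]⟩),(⟨0,[(28,0)]⟩,
  ⟨0,[(27,0)]⟩),⟨2,[(10,0),(13,1),(11,0),(7,2)]⟩,.k,.k,(.r (-2) ⟨3,[(9,3),(11,1),(3,2),(0,2),(10,0),
  (13,3)]⟩ ⟨0,[(4,0)]⟩),(.r (-1) ⟨9,[(9,9),(15,3),(0,3),(24,4),(0,0),(1,1)]⟩ ⟨3,[(4,1),(15,1),(4,0),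
  (0,0),(24,0)]⟩),.k,.k,⟨true,0,⟨0,[(53,0)]⟩,⟨0,[]⟩⟩,⟨false,2,⟨1,[(26,1),(5,1),(4,0),(13,2)]⟩,⟨0,
  [(1,0)]⟩⟩,⟨true,(-1),⟨0,[(4,0),(44,0)]⟩,⟨0,[(9,0),(41,0)]⟩⟩,⟨false,1,⟨5,[(4,1),(14,1),(6,5),(3,5),
  (6,2),(13,2),(0,1)]⟩,⟨0,[(3,0)]⟩⟩,⟨false,0,⟨0,[]⟩,⟨0,[]⟩⟩,⟨false,0,⟨0,[]⟩,⟨0,[]⟩⟩,[.a ⟨true,0,⟨0,
  [(26,0),(27,0)]⟩,⟨0,[(0,0)]⟩⟩ ⟨false,0,⟨0,[(54,0)]⟩,⟨1,[(51,0),(0,0)]⟩⟩ ⟨true,1,⟨1,[(26,1),(5,1),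
  (4,0),(5,1),(7,0)]⟩,⟨0,[(0,0),(6,0)]⟩⟩,.a ⟨true,0,⟨0,[(26,0)]⟩,⟨16,[(0,10),(0,1),(23,3),(6,1),(12,
  1),(1,3),(6,2)]⟩⟩ ⟨true,0,⟨1,[(32,0),(0,0)]⟩,⟨0,[]⟩⟩ ⟨false,2,⟨1,[(26,1),(5,1),(4,0),(13,2)]⟩,⟨0,
  [(1,0)]⟩⟩,.a ⟨true,(-1),⟨0,[(12,0)]⟩,⟨0,[(32,0),(18,0)]⟩⟩ ⟨false,0,⟨1,[(32,0),(0,0)]⟩,⟨1,[(51,0),
  (0,0)]⟩⟩ ⟨true,1,⟨1,[(26,1),(5,1),(4,0),(5,1),(7,0)]⟩,⟨0,[(1,0)]⟩⟩,.o ⟨false,(-1),⟨0,[(7,0)]⟩,⟨1,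
  [(32,1),(4,0),(13,2)]⟩⟩]⟩)) (.Q [0,0,-1,0,1,0,1,0,1,-1,1,1] (.p true [0,0,1] [1,0,0,0,-1] (⟨0,
  [(34,0)]⟩,⟨0,[(33,0)]⟩) .k 2 (⟨0,[(26,0)]⟩,⟨0,[(27,0)]⟩) .k (.r (-1) ⟨5,[(0,1),(18,3),(1,1),(2,1),
  (4,1),(20,0),(0,0)]⟩ ⟨0,[(3,0),(4,1),(31,0),(1,1)]⟩)) (.R ⟨0,false,false,true,[1,-1,-1],[0,0,0,0,
  1],[2,1,1],(⟨0,[(23,0)]⟩,⟨21,[(0,0),(21,0),(2,0),(6,0),(2,21),(3,9),(4,3),(0,1)]⟩),(⟨0,[(28,0)]⟩,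
  ⟨0,[(27,0)]⟩),⟨2,[(10,0),(13,1),(11,0),(7,2)]⟩,.k,.k,(.r (-2) ⟨9,[(0,5),(8,9),(11,4),(0,2),(2,5),
  (11,0),(13,6)]⟩ ⟨0,[(4,0)]⟩),(.r (-1) ⟨8,[(0,1),(8,5),(9,0),(1,1),(3,1),(5,1),(9,0),(9,3),(2,0)]⟩
  ⟨11,[(0,1),(3,5),(15,3),(1,1),(2,1),(4,1),(20,0),(0,0)]⟩),.k,.k,⟨false,0,⟨0,[]⟩,⟨9,[(0,3),(21,1),
  (2,3),(19,0),(5,2)]⟩⟩,⟨true,1,⟨0,[(0,0)]⟩,⟨6,[(3,3),(0,5),(2,0),(0,2),(6,0),(9,2)]⟩⟩,⟨true,(-1),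
  ⟨0,[(4,0),(44,0)]⟩,⟨0,[(9,0),(31,0),(1,1)]⟩⟩,⟨false,1,⟨11,[(0,13),(3,5),(15,3),(1,1),(2,1),(4,1),
  (20,0),(0,0)]⟩,⟨0,[(3,0)]⟩⟩,⟨false,0,⟨0,[]⟩,⟨0,[]⟩⟩,⟨false,0,⟨0,[]⟩,⟨0,[]⟩⟩,[.o ⟨false,0,⟨0,[(0,
  0),(6,0),(35,0)]⟩,⟨5,[(3,5),(0,1),(14,1),(10,5),(6,2),(13,2),(0,1)]⟩⟩,.a ⟨true,0,⟨0,[(26,0)]⟩,⟨0,
  [(3,0),(26,0),(19,0)]⟩⟩ ⟨false,0,⟨0,[]⟩,⟨31,[(0,9),(21,4),(2,9),(10,4),(1,4),(2,0),(9,10),(2,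
  1)]⟩⟩ ⟨true,1,⟨0,[(1,0)]⟩,⟨6,[(3,3),(0,5),(2,0),(0,2),(6,0),(9,2)]⟩⟩,.e ⟨false,0,⟨1,[(32,0),(0,
  0)]⟩,⟨1,[(41,0),(9,0)]⟩⟩ ⟨false,1,⟨0,[(1,0)]⟩,⟨21,[(3,15),(0,7),(15,7),(1,1),(2,5),(3,1),(15,0),
  (6,2)]⟩⟩,.o ⟨false,(-1),⟨0,[(7,0)]⟩,⟨1,[(32,1),(4,0),(13,2)]⟩⟩]⟩) (.R ⟨0,false,false,true,[1,-1,
  -1],[0,0,0,0,1],[1,1,1],(⟨0,[(23,0)]⟩,⟨22,[(1,0),(20,0),(2,0),(6,0),(2,22),(3,10),(4,3),(0,1)]⟩),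
  (⟨0,[(28,0)]⟩,⟨0,[(27,0)]⟩),⟨2,[(10,0),(13,1),(11,0),(7,2)]⟩,.k,.k,(.r (-2) ⟨9,[(1,5),(7,9),(11,
  4),(0,2),(2,5),(11,0),(13,6)]⟩ ⟨0,[(4,0)]⟩),(.r (-1) ⟨48,[(1,9),(7,33),(9,4),(1,9),(3,9),(5,9),(9,
  6),(9,21),(2,8)]⟩ ⟨11,[(1,1),(2,5),(15,3),(1,1),(2,1),(4,1),(20,0),(0,0)]⟩),.k,.k,⟨true,0,⟨1,[(32,
  0),(0,0)]⟩,⟨0,[]⟩⟩,⟨false,2,⟨33,[(1,41),(20,3),(2,7),(19,1),(5,12),(0,6),(1,13)]⟩,⟨0,[(0,0)]⟩⟩,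
  ⟨true,(-1),⟨0,[(4,0),(44,0)]⟩,⟨0,[(9,0),(41,0)]⟩⟩,⟨false,1,⟨11,[(1,13),(2,5),(15,3),(1,1),(2,1),
  (4,1),(20,0),(0,0)]⟩,⟨0,[(3,0)]⟩⟩,⟨false,0,⟨0,[]⟩,⟨0,[]⟩⟩,⟨false,0,⟨0,[]⟩,⟨0,[]⟩⟩,[.o ⟨false,0,⟨1,
  [(1,0),(2,0),(3,0),(17,0),(10,0),(5,0)]⟩,⟨1,[(0,0),(2,0),(15,0),(10,1),(6,0),(13,0),(0,0)]⟩⟩,.a
  ⟨true,0,⟨0,[(26,0)]⟩,⟨1,[(0,0),(2,0),(15,0),(10,1),(20,0)]⟩⟩ ⟨false,0,⟨0,[]⟩,⟨33,[(1,11),(20,5),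
  (2,11),(19,2),(5,10),(0,1),(1,3)]⟩⟩ ⟨true,1,⟨0,[(1,0)]⟩,⟨11,[(0,10),(6,1),(14,0),(2,0),(6,2),(20,
  5)]⟩⟩,.e ⟨false,0,⟨1,[(32,0),(0,0)]⟩,⟨1,[(51,0),(0,0)]⟩⟩ ⟨false,1,⟨0,[(1,0)]⟩,⟨5,[(0,1),(2,1),(0,
  1),(16,0),(0,0),(2,1),(26,1)]⟩⟩,.o ⟨false,(-1),⟨0,[(7,0)]⟩,⟨1,[(32,1),(4,0),(13,2)]⟩⟩]⟩)))) (.Q
  [1,0,0,0,0,0,0,0,1,-1,0,1] (.p true [0,0,0,0,1] [1] (⟨0,[(25,0)]⟩,⟨0,[(24,0)]⟩) .k 1 (⟨0,[]⟩,⟨0,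
  []⟩) .k .k) (.Q [0,0,-2,0,1,0,1,0,1,-1,1,1] (.p true [0,0,1] [1,0,0,0,-1] (⟨0,[(33,0)]⟩,⟨0,[(32,
  0)]⟩) .k 2 (⟨0,[(25,0)]⟩,⟨0,[(26,0)]⟩) .k (.r (-1) ⟨1,[(1,0),(13,0),(4,0),(2,0),(26,0)]⟩ ⟨0,[(2,
  0),(4,1),(31,0),(1,1)]⟩)) (.Q [0,0,0,0,0,-1,0,0,0,0,0,1] (.ed false [1,-1,0,0,1] .k) (.R ⟨1,false,
  false,false,[0,0,0,0,1],[0,1],[],(⟨0,[(28,0)]⟩,⟨0,[(27,0)]⟩),(⟨0,[(39,0)]⟩,⟨0,[(38,0)]⟩),⟨0,[(0,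
  0)]⟩,.k,.k,(.r (-1) ⟨5,[(1,1),(19,2),(0,0),(2,1),(11,0),(13,0)]⟩ ⟨32,[(3,5),(0,6),(14,12),(2,5),
  (2,5),(6,5),(19,0),(1,8)]⟩),(.r (-1) ⟨5,[(1,1),(19,2),(0,0),(2,1),(11,0),(13,0)]⟩ ⟨32,[(3,5),(0,
  6),(14,12),(2,5),(2,5),(6,5),(19,0),(1,8)]⟩),(.r (-2) ⟨2,[(1,1),(19,2),(0,0),(2,1),(11,0),(13,
  0)]⟩ ⟨2,[(4,1),(11,0),(2,0)]⟩),.k,⟨true,1,⟨5,[(1,1),(19,2),(0,0),(2,1),(11,0),(13,0)]⟩,⟨0,[(14,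
  0)]⟩⟩,⟨false,2,⟨0,[(25,0),(25,0)]⟩,⟨84,[(1,27),(0,43),(2,44),(4,14),(3,16),(0,16),(3,16),(3,59),
  (2,12),(18,5)]⟩⟩,⟨false,1,⟨4,[(25,1),(0,1),(25,2),(1,0)]⟩,⟨0,[]⟩⟩,⟨true,1,⟨0,[(25,0),(24,0)]⟩,⟨31,
  [(1,10),(0,20),(2,14),(2,5),(1,4),(2,3),(1,9),(7,19),(19,11),(1,2)]⟩⟩,⟨true,0,⟨0,[(4,0),(4,0),(31,
  0),(1,1)]⟩,⟨0,[(49,0)]⟩⟩,⟨true,1,⟨0,[(25,0),(24,1)]⟩,⟨3,[(1,2),(0,0),(2,2),(2,1),(1,0),(4,1),(7,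
  3),(13,0)]⟩⟩,[.a ⟨true,0,⟨0,[(50,0)]⟩,⟨9,[(21,4),(0,0),(9,1),(12,1),(5,0),(0,0),(1,1)]⟩⟩ ⟨false,1,
  ⟨1,[(25,0),(0,0),(24,0)]⟩,⟨0,[]⟩⟩ ⟨true,1,⟨0,[(25,0),(24,0)]⟩,⟨30,[(1,10),(0,19),(2,17),(2,4),(0,
  1),(0,5),(4,11),(3,4),(3,23),(18,11),(2,0)]⟩⟩,.o ⟨false,1,⟨5,[(4,1),(14,1),(17,2),(13,2),(0,1)]⟩,
  ⟨0,[(49,0)]⟩⟩,.o ⟨false,0,⟨8,[(1,0),(0,7),(2,0),(4,0),(12,1),(12,1),(9,0)]⟩,⟨0,[(25,0)]⟩⟩,.e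
  ⟨false,1,⟨1,[(51,0),(0,0)]⟩,⟨1,[(32,0),(0,0)]⟩⟩ ⟨false,2,⟨2,[(4,0),(14,0),(5,2),(25,2),(0,0)]⟩,
  ⟨30,[(1,10),(0,19),(2,17),(2,4),(0,1),(0,5),(4,11),(3,4),(3,23),(18,11),(2,0)]⟩⟩]⟩) (.R ⟨0,false,
  false,false,[0,0,0,0,1],[0,1],[],(⟨0,[(28,0)]⟩,⟨0,[(27,0)]⟩),(⟨0,[(39,0)]⟩,⟨0,[(38,0)]⟩),⟨0,[(0,
  0)]⟩,.k,.k,(.r (-1) ⟨5,[(1,1),(19,2),(0,0),(2,1),(11,0),(13,0)]⟩ ⟨32,[(3,5),(0,6),(14,12),(2,5),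
  (2,5),(6,5),(19,0),(1,8)]⟩),(.r (-1) ⟨5,[(1,1),(19,2),(0,0),(2,1),(11,0),(13,0)]⟩ ⟨32,[(3,5),(0,
  6),(14,12),(2,5),(2,5),(6,5),(19,0),(1,8)]⟩),.k,.k,⟨true,1,⟨5,[(1,1),(19,2),(0,0),(2,1),(11,0),
  (13,0)]⟩,⟨0,[(14,0)]⟩⟩,⟨false,2,⟨0,[(25,0),(25,0)]⟩,⟨84,[(1,27),(0,43),(2,44),(4,14),(3,16),(0,
  16),(3,16),(3,59),(2,12),(18,5)]⟩⟩,⟨false,1,⟨4,[(25,1),(0,1),(25,2),(1,0)]⟩,⟨0,[]⟩⟩,⟨true,1,⟨0,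
  [(25,0),(24,0)]⟩,⟨31,[(1,10),(0,20),(2,14),(2,5),(1,4),(2,3),(1,9),(7,19),(19,11),(1,2)]⟩⟩,⟨false,
  0,⟨0,[]⟩,⟨0,[]⟩⟩,⟨false,0,⟨0,[]⟩,⟨0,[]⟩⟩,[.a ⟨true,0,⟨0,[(50,0)]⟩,⟨9,[(21,4),(0,0),(9,1),(12,1),
  (5,0),(0,0),(1,1)]⟩⟩ ⟨false,1,⟨1,[(25,0),(0,0),(24,0)]⟩,⟨0,[]⟩⟩ ⟨true,1,⟨0,[(25,0),(24,0)]⟩,⟨30,
  [(1,10),(0,19),(2,17),(2,4),(0,1),(0,5),(4,11),(3,4),(3,23),(18,11),(2,0)]⟩⟩,.o ⟨false,1,⟨5,[(4,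
  1),(14,1),(17,2),(13,2),(0,1)]⟩,⟨0,[(49,0)]⟩⟩,.o ⟨false,0,⟨8,[(1,0),(0,7),(2,0),(4,0),(12,1),(12,
  1),(9,0)]⟩,⟨0,[(25,0)]⟩⟩,.e ⟨false,1,⟨1,[(51,0),(0,0)]⟩,⟨1,[(32,0),(0,0)]⟩⟩ ⟨false,2,⟨2,[(4,0),
  (14,0),(5,2),(25,2),(0,0)]⟩,⟨30,[(1,10),(0,19),(2,17),(2,4),(0,1),(0,5),(4,11),(3,4),(3,23),(18,
  11),(2,0)]⟩⟩]⟩)) (.I [2,0,-2,-2,1,0,0,-1] (.I [0,0,-2,0,3,-2,1,0,-1] (.N [0,2,1,0,-1] 1 ⟨0,[(5,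
  0)]⟩ ⟨0,[(1,0)]⟩ (.x (-3) ⟨0,[(0,0)]⟩ ⟨0,[(3,0),(2,0),(21,0)]⟩)) (.S ⟨1,0,[-1,1],[1,0,0,0,-1],
  [-1],(⟨0,[(28,0)]⟩,⟨0,[(29,0)]⟩),⟨3,[(0,1),(10,1),(12,3),(1,1),(1,1),(4,1),(4,0),(13,2)]⟩,.k,(.r
  (-1) ⟨29,[(1,3),(14,3),(6,1),(2,4),(0,4),(10,0),(11,13),(1,10),(0,8)]⟩ ⟨18,[(4,3),(0,3),(14,6),(2,
  3),(2,3),(5,0),(0,4),(14,0)]⟩),⟨false,1,⟨1,[(26,0),(0,0),(25,0)]⟩,⟨0,[]⟩⟩,⟨true,0,⟨0,[(55,0)]⟩,⟨0,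
  []⟩⟩,⟨true,0,⟨0,[(51,0)]⟩,⟨0,[(50,0)]⟩⟩,⟨false,0,⟨0,[(51,0)]⟩,⟨3,[(22,1),(3,0),(0,0),(10,0),(14,
  1)]⟩⟩,[.a ⟨true,0,⟨5,[(2,3),(14,2),(0,2),(7,1),(6,0),(12,0),(5,5)]⟩,⟨83,[(0,5),(0,3),(1,67),(0,5),
  (6,1),(8,1),(3,7),(2,3),(1,5),(12,43),(3,32),(5,2)]⟩⟩ ⟨false,1,⟨9,[(26,3),(0,3),(24,4),(0,0),(1,
  1)]⟩,⟨0,[]⟩⟩ ⟨true,0,⟨0,[(55,0)]⟩,⟨0,[(43,0)]⟩⟩,.o ⟨false,1,⟨38,[(2,5),(2,1),(10,5),(0,7),(8,32),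
  (15,6),(4,2),(4,11)]⟩,⟨0,[(3,0)]⟩⟩,.o ⟨false,1,⟨0,[(26,0)]⟩,⟨77,[(0,5),(2,69),(0,1),(6,5),(4,3),
  (0,5),(6,11),(4,5),(7,11),(4,5),(4,8),(4,8)]⟩⟩,.e ⟨false,1,⟨1,[(42,0),(9,0)]⟩,⟨1,[(33,0),(0,0)]⟩⟩
  ⟨false,1,⟨9,[(26,3),(0,3),(24,4),(0,0),(1,1)]⟩,⟨0,[(43,0)]⟩⟩]⟩)) (.I [0,0,2,0,-3,2,-1,0,2] (.I [3,
  0,-2,-2,1,0,0,-1] (.I [0,0,-2,0,4,-2,1,0,-2] (.N [0,2,1,0,-2] 1 ⟨0,[(3,0)]⟩ ⟨0,[(1,0)]⟩ (.x (-4)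
  ⟨0,[(0,0)]⟩ ⟨0,[(2,0)]⟩)) (.S ⟨1,0,[-1,1],[1,0,0,0,-1],[-1],(⟨0,[(30,0)]⟩,⟨0,[(31,0)]⟩),⟨9,[(0,1),
  (12,3),(12,5),(1,3),(1,5),(4,1),(4,0),(13,2)]⟩,.k,(.r (-1) ⟨33,[(1,3),(16,3),(6,1),(2,4),(0,4),
  (10,0),(11,17),(1,12),(0,10)]⟩ ⟨18,[(6,3),(0,3),(14,6),(2,3),(2,3),(5,0),(0,4),(14,0)]⟩),⟨false,1,
  ⟨1,[(28,0),(0,0),(25,0)]⟩,⟨0,[]⟩⟩,⟨true,0,⟨0,[(57,0)]⟩,⟨0,[]⟩⟩,⟨true,0,⟨0,[(53,0)]⟩,⟨0,[(52,0)]⟩⟩,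
  ⟨false,0,⟨0,[(53,0)]⟩,⟨3,[(24,1),(3,0),(0,0),(10,0),(14,1)]⟩⟩,[.a ⟨true,0,⟨5,[(4,3),(14,2),(0,2),
  (7,1),(6,0),(12,0),(5,5)]⟩,⟨135,[(0,5),(0,3),(3,107),(0,5),(6,1),(8,1),(3,7),(2,9),(1,11),(12,69),
  (3,52),(5,2)]⟩⟩ ⟨false,1,⟨9,[(28,3),(0,3),(24,4),(0,0),(1,1)]⟩,⟨0,[]⟩⟩ ⟨true,0,⟨0,[(57,0)]⟩,⟨0,
  [(45,0)]⟩⟩,.o ⟨false,1,⟨40,[(3,1),(0,5),(13,5),(0,7),(8,34),(15,6),(4,2),(4,11)]⟩,⟨0,[(5,0)]⟩⟩,.o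
  ⟨false,1,⟨0,[(28,0)]⟩,⟨143,[(0,5),(4,129),(0,1),(6,11),(4,3),(0,5),(6,17),(4,11),(7,29),(4,5),(4,
  14),(4,8)]⟩⟩,.e ⟨false,1,⟨1,[(44,0),(9,0)]⟩,⟨1,[(35,0),(0,0)]⟩⟩ ⟨false,1,⟨9,[(28,3),(0,3),(24,4),
  (0,0),(1,1)]⟩,⟨0,[(45,0)]⟩⟩]⟩)) (.Q [0,0,0,0,1,0,1,0,-1,0,1,-1] (.p true [0,0,1] [0,0,0,0,1] (⟨0,
  [(37,0)]⟩,⟨0,[(36,0)]⟩) .k 2 (⟨0,[(30,0)]⟩,⟨0,[(29,0)]⟩) .k (.r (-1) ⟨5,[(5,0),(13,0),(2,3),(1,0),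
  (2,2),(0,1),(24,1),(0,0)]⟩ ⟨3,[(11,1),(6,0),(2,0),(31,0)]⟩)) (.R ⟨0,false,false,false,[1,-1,-1],
  [0,0,0,0,1],[],(⟨0,[(26,0)]⟩,⟨25,[(0,1),(24,0),(3,1),(8,25),(3,10),(4,4),(0,1)]⟩),(⟨0,[(31,0)]⟩,
  ⟨0,[(30,0)]⟩),⟨2,[(13,0),(13,1),(11,0),(7,2)]⟩,.k,.k,(.r (-2) ⟨13,[(0,5),(11,7),(11,9),(4,5),(4,
  5),(5,4),(13,13),(0,2)]⟩ ⟨0,[(7,0)]⟩),(.r (-1) ⟨3,[(0,0),(11,2),(16,0),(4,0),(17,0),(1,1),(0,0)]⟩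
  ⟨4,[(6,0),(0,1),(15,0),(1,0),(2,0),(4,0),(21,0)]⟩),.k,.k,⟨false,1,⟨9,[(28,3),(0,3),(24,4),(0,0),
  (1,1)]⟩,⟨0,[]⟩⟩,⟨true,1,⟨1,[(6,1),(5,1),(41,0),(0,0)]⟩,⟨0,[(4,0)]⟩⟩,⟨true,0,⟨4,[(6,0),(0,1),(15,
  0),(1,0),(2,0),(4,0),(21,0)]⟩,⟨0,[(12,0),(33,0)]⟩⟩,⟨false,1,⟨0,[(6,0),(48,0)]⟩,⟨0,[(4,0),(7,0),
  (41,0)]⟩⟩,⟨false,0,⟨0,[]⟩,⟨0,[]⟩⟩,⟨false,0,⟨0,[]⟩,⟨0,[]⟩⟩,[.o ⟨false,0,⟨0,[(5,0)]⟩,⟨10,[(0,0),(3,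
  0),(8,0),(12,0),(1,8),(10,2),(9,0),(4,0)]⟩⟩,.e ⟨false,1,⟨1,[(54,0),(0,0)]⟩,⟨0,[(57,0)]⟩⟩ ⟨false,2,
  ⟨0,[(6,0),(5,0),(41,0),(0,0)]⟩,⟨37,[(0,1),(0,5),(2,35),(3,5),(3,7),(0,1),(4,1),(7,7),(19,35),(2,
  2),(4,10)]⟩⟩,.a ⟨true,(-1),⟨0,[(15,0)]⟩,⟨0,[(35,0),(18,0)]⟩⟩ ⟨false,1,⟨1,[(28,0),(0,0),(25,0)]⟩,
  ⟨0,[]⟩⟩ ⟨true,1,⟨1,[(6,1),(5,1),(41,0),(0,0)]⟩,⟨37,[(0,1),(0,5),(2,35),(3,5),(3,7),(0,1),(4,1),(7,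
  7),(19,35),(2,2),(4,10)]⟩⟩,.o ⟨false,(-1),⟨0,[(10,0)]⟩,⟨0,[(0,0),(4,0),(48,0)]⟩⟩]⟩) (.Q [0,0,2,0,
  -2,0,-1,0,1,0,-1,1] (.p false [0,0,1] [0,0,0,0,1] (⟨0,[(38,0)]⟩,⟨0,[(37,0)]⟩) .k 2 (⟨0,[(31,0)]⟩,
  ⟨0,[(30,0)]⟩) .k (.r (-1) ⟨5,[(6,0),(13,0),(2,3),(1,0),(2,2),(0,1),(24,1),(0,0)]⟩ ⟨3,[(12,1),(6,
  0),(2,0),(31,0)]⟩)) (.R ⟨0,false,false,false,[1,-1,-1],[1,0,0,0,-1],[-1],(⟨0,[(27,0)]⟩,⟨10,[(29,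
  0),(0,0),(8,10),(3,4),(4,1),(0,0)]⟩),(⟨0,[(31,0)]⟩,⟨0,[(32,0)]⟩),⟨2,[(14,0),(13,1),(11,0),(7,2)]⟩,
  .k,.k,(.r (-2) ⟨3,[(13,3),(11,1),(3,2),(0,2),(10,0),(13,3)]⟩ ⟨0,[(8,0)]⟩),(.r (-1) ⟨1,[(13,1),(15,
  0),(0,0),(24,0)]⟩ ⟨4,[(2,0),(4,0),(0,0),(15,0),(1,0),(2,0),(4,0),(21,0)]⟩),.k,.k,⟨false,1,⟨1,[(29,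
  0),(0,0),(24,0)]⟩,⟨0,[]⟩⟩,⟨true,2,⟨0,[(29,0),(6,0),(18,0)]⟩,⟨0,[(0,0)]⟩⟩,⟨true,0,⟨4,[(2,0),(4,0),
  (0,0),(15,0),(1,0),(2,0),(4,0),(21,0)]⟩,⟨0,[(13,0),(33,0)]⟩⟩,⟨false,2,⟨5,[(8,1),(14,1),(5,5),(4,
  5),(20,2),(0,4)]⟩,⟨0,[(1,0),(11,0)]⟩⟩,⟨false,0,⟨0,[]⟩,⟨0,[]⟩⟩,⟨false,0,⟨0,[]⟩,⟨0,[]⟩⟩,[.o ⟨false,
  1,⟨28,[(2,5),(2,1),(7,7),(5,1),(9,26),(15,0),(4,0),(4,7)]⟩,⟨0,[(6,0)]⟩⟩,.e ⟨false,1,⟨1,[(45,0),(9,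
  0)]⟩,⟨0,[(58,0)]⟩⟩ ⟨false,3,⟨1,[(29,1),(6,1),(18,2),(0,0)]⟩,⟨0,[(0,0),(46,0)]⟩⟩,.a ⟨true,(-1),⟨0,
  [(16,0)]⟩,⟨0,[(36,0),(18,0)]⟩⟩ ⟨false,1,⟨4,[(29,1),(0,1),(25,2),(1,0)]⟩,⟨0,[]⟩⟩ ⟨true,2,⟨0,[(29,
  0),(6,0),(18,0)]⟩,⟨0,[(0,0),(46,0)]⟩⟩,.o ⟨false,(-1),⟨0,[(11,0)]⟩,⟨1,[(36,1),(4,0),(13,2)]⟩⟩]⟩)
  (.S ⟨1,0,[-1,1],[1,0,0,0,-1],[-1],(⟨0,[(31,0)]⟩,⟨0,[(32,0)]⟩),⟨6,[(0,2),(2,1),(1,0),(8,2),(12,4),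
  (3,2),(9,0)]⟩,.k,(.r (-1) ⟨33,[(0,3),(24,9),(0,1),(3,3),(10,5),(11,13),(1,12),(0,6)]⟩ ⟨24,[(0,0),
  (6,4),(0,5),(14,7),(2,4),(2,3),(5,2),(0,6)]⟩),⟨false,1,⟨1,[(29,0),(0,0),(25,0)]⟩,⟨0,[]⟩⟩,⟨true,0,
  ⟨0,[(58,0)]⟩,⟨0,[]⟩⟩,⟨true,0,⟨0,[(54,0)]⟩,⟨0,[(53,0)]⟩⟩,⟨false,0,⟨0,[(54,0)]⟩,⟨3,[(25,1),(3,0),(0,
  0),(10,0),(14,1)]⟩⟩,[.a ⟨true,0,⟨50,[(0,31),(1,16),(2,18),(6,15),(6,2),(0,3),(28,7),(1,11),(6,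
  3)]⟩,⟨6,[(1,0),(4,4),(0,0),(5,0),(31,3),(3,2)]⟩⟩ ⟨false,1,⟨65,[(0,19),(25,9),(3,19),(14,7),(4,4),
  (4,12),(2,15)]⟩,⟨0,[]⟩⟩ ⟨true,0,⟨0,[(58,0)]⟩,⟨0,[(46,0)]⟩⟩,.o ⟨false,1,⟨6,[(0,1),(4,1),(23,2),(15,
  0),(4,0),(7,1)]⟩,⟨0,[(6,0)]⟩⟩,.o ⟨false,1,⟨0,[(29,0)]⟩,⟨29,[(1,5),(4,21),(0,1),(11,3),(0,5),(24,
  5),(4,2),(4,2)]⟩⟩,.e ⟨false,1,⟨1,[(45,0),(9,0)]⟩,⟨1,[(36,0),(0,0)]⟩⟩ ⟨false,1,⟨65,[(0,19),(25,9),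
  (3,19),(14,7),(4,4),(4,12),(2,15)]⟩,⟨0,[(46,0)]⟩⟩]⟩)))) (.I [0,0,-2,0,3,-2,1,0,-2] (.I [3,0,-2,-2,
  1,0,0,-1] (.I [0,0,2,0,-2,2,-1,0,2] (.N [0,2,1,0,-2] 1 ⟨0,[(4,0)]⟩ ⟨0,[(1,0)]⟩ (.x (-3) ⟨0,[(2,
  0)]⟩ ⟨0,[(0,0)]⟩)) (.I [1,0,0,0,0,0,0,0,1] (.C [(0,1),(0,0),(8,0),(4,0),(12,0),(20,0)]) (.C [(0,
  0),(6,0),(24,0)]))) (.Q [-1,1,1,0,-1,0,-1,0,-1,1,-1,-1] (.p false [0,0,1] [1,0,0,0,-1] (⟨0,[(38,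
  0)]⟩,⟨0,[(37,0)]⟩) .k 2 (⟨0,[(30,0)]⟩,⟨0,[(31,0)]⟩) .k (.r (-1) ⟨1,[(6,0),(13,0),(4,0),(2,0),(26,
  0)]⟩ ⟨0,[(0,0),(11,1),(31,0),(1,1)]⟩)) (.R ⟨0,false,false,false,[1,-1,-1],[0,0,0,0,1],[],(⟨0,[(27,
  0)]⟩,⟨89,[(3,1),(22,2),(3,3),(0,3),(4,3),(2,91),(3,36),(4,18),(0,5)]⟩),(⟨0,[(32,0)]⟩,⟨0,[(31,
  0)]⟩),⟨2,[(14,0),(13,1),(11,0),(7,2)]⟩,.k,.k,(.r (-2) ⟨3,[(13,3),(11,1),(3,2),(0,2),(10,0),(13,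
  3)]⟩ ⟨0,[(8,0)]⟩),(.r (-1) ⟨9,[(13,9),(15,3),(0,3),(24,4),(0,0),(1,1)]⟩ ⟨4,[(7,0),(0,1),(15,0),(1,
  0),(2,0),(4,0),(21,0)]⟩),.k,.k,⟨false,1,⟨9,[(29,3),(0,3),(24,4),(0,0),(1,1)]⟩,⟨0,[]⟩⟩,⟨true,1,⟨1,
  [(7,1),(5,1),(41,0),(0,0)]⟩,⟨0,[(5,0)]⟩⟩,⟨true,0,⟨4,[(7,0),(0,1),(15,0),(1,0),(2,0),(4,0),(21,
  0)]⟩,⟨0,[(13,0),(33,0)]⟩⟩,⟨false,1,⟨0,[(7,0),(48,0)]⟩,⟨1,[(0,1),(12,1),(41,0),(0,0)]⟩⟩,⟨false,0,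
  ⟨0,[]⟩,⟨0,[]⟩⟩,⟨false,0,⟨0,[]⟩,⟨0,[]⟩⟩,[.o ⟨false,0,⟨0,[(6,0)]⟩,⟨51,[(0,5),(0,1),(17,5),(0,7),(8,
  45),(15,9),(4,2),(4,8)]⟩⟩,.e ⟨false,1,⟨1,[(55,0),(0,0)]⟩,⟨0,[(58,0)]⟩⟩ ⟨false,2,⟨0,[(7,0),(5,0),
  (41,0),(0,0)]⟩,⟨0,[(0,0)]⟩⟩,.a ⟨true,(-1),⟨0,[(16,0)]⟩,⟨0,[(36,0),(18,0)]⟩⟩ ⟨false,1,⟨1,[(29,0),
  (0,0),(25,0)]⟩,⟨0,[]⟩⟩ ⟨true,1,⟨1,[(7,1),(5,1),(41,0),(0,0)]⟩,⟨0,[(0,0)]⟩⟩,.o ⟨false,(-1),⟨0,[(11,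
  0)]⟩,⟨1,[(36,1),(4,0),(13,2)]⟩⟩]⟩) (.R ⟨0,false,false,false,[1,-1,-1],[0,0,0,0,1],[],(⟨0,[(27,
  0)]⟩,⟨89,[(3,1),(22,2),(3,3),(0,3),(4,3),(2,91),(3,36),(4,18),(0,5)]⟩),(⟨0,[(32,0)]⟩,⟨0,[(31,
  0)]⟩),⟨2,[(14,0),(13,1),(11,0),(7,2)]⟩,.k,.k,(.r (-2) ⟨9,[(0,5),(12,3),(11,7),(3,5),(5,5),(5,0),
  (13,6)]⟩ ⟨0,[(8,0)]⟩),(.r (-1) ⟨54,[(0,10),(2,2),(9,40),(11,6),(3,4),(1,5),(3,13),(3,2),(8,1),(6,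
  18),(0,10),(1,18)]⟩ ⟨4,[(7,0),(0,1),(15,0),(1,0),(2,0),(4,0),(21,0)]⟩),.k,.k,⟨false,1,⟨9,[(29,3),
  (0,3),(24,4),(0,0),(1,1)]⟩,⟨0,[]⟩⟩,⟨true,1,⟨12,[(0,11),(6,0),(21,0),(0,0),(4,0),(0,0),(14,1),(1,
  0),(4,4)]⟩,⟨0,[(5,0)]⟩⟩,⟨true,0,⟨4,[(7,0),(0,1),(15,0),(1,0),(2,0),(4,0),(21,0)]⟩,⟨0,[(13,0),(33,
  0)]⟩⟩,⟨false,1,⟨0,[(7,0),(48,0)]⟩,⟨0,[(5,0),(7,0),(41,0)]⟩⟩,⟨false,0,⟨0,[]⟩,⟨0,[]⟩⟩,⟨false,0,⟨0,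
  []⟩,⟨0,[]⟩⟩,[.o ⟨false,0,⟨0,[(6,0)]⟩,⟨28,[(1,5),(3,1),(7,7),(5,1),(9,26),(15,0),(4,0),(4,7)]⟩⟩,.a
  ⟨true,0,⟨0,[(0,0),(15,0)]⟩,⟨4,[(2,1),(2,0),(3,1),(10,0),(0,0),(9,3),(15,2)]⟩⟩ ⟨false,1,⟨1,[(55,0),
  (0,0)]⟩,⟨0,[(58,0)]⟩⟩ ⟨true,1,⟨0,[(0,0)]⟩,⟨0,[(5,0),(52,0)]⟩⟩,.e ⟨false,1,⟨1,[(29,0),(0,0),(25,
  0)]⟩,⟨0,[]⟩⟩ ⟨false,1,⟨0,[(0,0)]⟩,⟨32,[(2,2),(2,17),(20,8),(1,1),(0,8),(1,5),(7,0),(0,7),(16,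
  2)]⟩⟩,.o ⟨false,(-1),⟨0,[(11,0)]⟩,⟨1,[(36,1),(4,0),(13,2)]⟩⟩]⟩))) (.Q [-1,1,1,0,-1,0,-1,0,-1,1,-1,
  -1] (.p false [0,0,1] [1,0,0,0,-1] (⟨0,[(37,0)]⟩,⟨0,[(36,0)]⟩) .k 2 (⟨0,[(29,0)]⟩,⟨0,[(30,0)]⟩)
  .k (.r (-1) ⟨1,[(5,0),(13,0),(4,0),(2,0),(26,0)]⟩ ⟨0,[(2,0),(8,1),(31,0),(1,1)]⟩)) (.R ⟨0,false,
  false,false,[1,-1,-1],[0,0,0,0,1],[],(⟨0,[(26,0)]⟩,⟨89,[(2,1),(22,2),(3,3),(0,3),(4,3),(2,91),(3,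
  36),(4,18),(0,5)]⟩),(⟨0,[(31,0)]⟩,⟨0,[(30,0)]⟩),⟨2,[(13,0),(13,1),(11,0),(7,2)]⟩,.k,.k,(.r (-2)
  ⟨3,[(12,3),(11,1),(3,2),(0,2),(10,0),(13,3)]⟩ ⟨0,[(7,0)]⟩),(.r (-1) ⟨9,[(12,9),(15,3),(0,3),(24,
  4),(0,0),(1,1)]⟩ ⟨4,[(6,0),(0,1),(15,0),(1,0),(2,0),(4,0),(21,0)]⟩),.k,.k,⟨false,1,⟨9,[(28,3),(0,
  3),(24,4),(0,0),(1,1)]⟩,⟨0,[]⟩⟩,⟨true,1,⟨1,[(6,1),(5,1),(41,0),(0,0)]⟩,⟨0,[(4,0)]⟩⟩,⟨true,0,⟨4,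
  [(6,0),(0,1),(15,0),(1,0),(2,0),(4,0),(21,0)]⟩,⟨0,[(12,0),(33,0)]⟩⟩,⟨false,1,⟨0,[(6,0),(48,0)]⟩,
  ⟨1,[(0,1),(11,1),(41,0),(0,0)]⟩⟩,⟨false,0,⟨0,[]⟩,⟨0,[]⟩⟩,⟨false,0,⟨0,[]⟩,⟨0,[]⟩⟩,[.o ⟨false,0,⟨0,
  [(5,0)]⟩,⟨12,[(0,1),(18,1),(0,1),(7,10),(15,2),(4,0),(4,1)]⟩⟩,.e ⟨false,1,⟨1,[(54,0),(0,0)]⟩,⟨0,
  [(57,0)]⟩⟩ ⟨false,2,⟨0,[(6,0),(5,0),(41,0),(0,0)]⟩,⟨0,[(0,0)]⟩⟩,.a ⟨true,(-1),⟨0,[(15,0)]⟩,⟨0,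
  [(35,0),(18,0)]⟩⟩ ⟨false,1,⟨1,[(28,0),(0,0),(25,0)]⟩,⟨0,[]⟩⟩ ⟨true,1,⟨1,[(6,1),(5,1),(41,0),(0,
  0)]⟩,⟨0,[(0,0)]⟩⟩,.o ⟨false,(-1),⟨0,[(10,0)]⟩,⟨1,[(35,1),(4,0),(13,2)]⟩⟩]⟩) (.S ⟨1,0,[1,1],[0,0,0,
  0,1],[1,1,1],(⟨0,[(31,0)]⟩,⟨0,[(30,0)]⟩),⟨3,[(0,1),(1,0),(5,2),(4,1),(12,3),(4,1),(8,0),(5,1)]⟩,
  .k,(.r (-1) ⟨7,[(0,1),(23,2),(0,0),(2,1),(11,0),(11,1),(1,2)]⟩ ⟨4,[(3,0),(2,0),(15,1),(2,0),(2,0),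
  (6,0),(21,0)]⟩),⟨false,0,⟨1,[(35,0),(0,0)]⟩,⟨1,[(54,0),(0,0)]⟩⟩,⟨true,0,⟨0,[(57,0)]⟩,⟨0,[]⟩⟩,
  ⟨true,(-1),⟨1,[(7,0),(8,0),(29,0)]⟩,⟨7,[(0,1),(23,2),(0,0),(2,1),(11,0),(11,1),(1,2)]⟩⟩,⟨false,0,
  ⟨0,[(53,0)]⟩,⟨7,[(0,1),(23,3),(3,1),(7,1),(3,0),(14,2)]⟩⟩,[.e ⟨false,0,⟨0,[(57,0)]⟩,⟨1,[(54,0),(0,
  0)]⟩⟩ ⟨false,0,⟨0,[(46,0)]⟩,⟨1,[(28,0),(0,0),(25,0)]⟩⟩,.o ⟨false,0,⟨0,[(5,0)]⟩,⟨40,[(3,1),(0,5),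
  (13,5),(0,7),(8,34),(15,6),(4,2),(4,11)]⟩⟩,.o ⟨false,0,⟨9,[(0,0),(0,0),(3,6),(7,0),(12,1),(4,1),
  (7,1),(6,0),(2,1)]⟩,⟨0,[(28,0)]⟩⟩,.a ⟨true,(-1),⟨9,[(0,0),(0,2),(1,0),(1,2),(7,0),(2,0),(1,1),(3,
  1),(3,3),(4,5)]⟩,⟨3,[(2,0),(5,0),(19,1),(1,1),(17,0),(5,1)]⟩⟩ ⟨false,0,⟨0,[]⟩,⟨1,[(28,0),(0,0),
  (25,0)]⟩⟩ ⟨true,0,⟨0,[(46,0)]⟩,⟨1,[(35,0),(0,0)]⟩⟩]⟩)))))) (.I [0,0,2,0,-2,2,-1,0,1] (.I [2,0,-2,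
  -2,1,0,0,-1] (.N [0,2,1,0,-1] 1 ⟨0,[(4,0)]⟩ ⟨0,[(0,0)]⟩ (.x (-3) ⟨5,[(2,1),(7,1),(12,7),(1,3),(2,
  5),(3,5),(4,4),(13,8)]⟩ ⟨0,[(1,0)]⟩)) (.Q [-1,1,0,2,-1,0,-1,-1,-1,1,-1,-1] (.p false [0,0,1] [1,0,
  0,0,-1] (⟨0,[(35,0)]⟩,⟨0,[(34,0)]⟩) .k 2 (⟨0,[(27,0)]⟩,⟨0,[(28,0)]⟩) .k (.r (-1) ⟨1,[(3,0),(13,0),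
  (4,0),(2,0),(26,0)]⟩ ⟨0,[(0,0),(8,1),(31,0),(1,1)]⟩)) (.I [0,0,2,0,-2,2,-1,0,2] (.I [3,0,-2,-2,1,
  0,0,-1] (.I [0,0,-2,0,3,-2,1,0,-2] (.N [0,2,1,0,-2] 1 ⟨0,[(4,0)]⟩ ⟨0,[(1,0)]⟩ (.x (-3) ⟨0,[(0,
  0)]⟩ ⟨0,[(2,0)]⟩)) (.S ⟨1,0,[-1,1],[1,0,0,0,-1],[-1],(⟨0,[(31,0)]⟩,⟨0,[(32,0)]⟩),⟨9,[(0,1),(5,3),
  (7,3),(12,5),(3,5),(4,1),(4,2),(13,2)]⟩,.k,(.r (-1) ⟨33,[(1,3),(17,3),(6,1),(2,4),(0,4),(10,0),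
  (11,17),(1,12),(0,10)]⟩ ⟨41,[(3,0),(3,9),(0,7),(14,13),(2,8),(2,8),(5,2),(0,11)]⟩),⟨false,1,⟨1,
  [(29,0),(0,0),(25,0)]⟩,⟨0,[]⟩⟩,⟨true,0,⟨0,[(58,0)]⟩,⟨0,[]⟩⟩,⟨true,0,⟨0,[(54,0)]⟩,⟨0,[(53,0)]⟩⟩,
  ⟨false,0,⟨0,[(54,0)]⟩,⟨3,[(25,1),(3,0),(0,0),(10,0),(14,1)]⟩⟩,[.o ⟨false,0,⟨1,[(3,0),(2,0),(12,0),
  (21,0)]⟩,⟨1,[(30,1),(10,0),(14,0)]⟩⟩,.e ⟨false,1,⟨1,[(45,0),(9,0)]⟩,⟨0,[(58,0)]⟩⟩ ⟨false,1,⟨9,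
  [(29,3),(0,3),(24,4),(0,0),(1,1)]⟩,⟨0,[]⟩⟩,.a ⟨true,0,⟨0,[(6,0)]⟩,⟨0,[(30,0)]⟩⟩ ⟨false,1,⟨4,[(29,
  1),(0,1),(25,2),(1,0)]⟩,⟨0,[]⟩⟩ ⟨true,0,⟨0,[(58,0)]⟩,⟨0,[]⟩⟩,.o ⟨false,0,⟨1,[(3,0),(2,0),(12,0),
  (21,0),(4,1)]⟩,⟨1,[(30,1),(10,0),(13,0)]⟩⟩]⟩)) (.Q [0,0,0,0,0,1,0,0,0,0,0,-1] (.ed true [1,-1,0,0,
  1] .k) (.S ⟨1,0,[-1,1],[1,0,0,0,-1],[-1],(⟨0,[(31,0)]⟩,⟨0,[(32,0)]⟩),⟨1,[(0,0),(13,0),(12,0),(3,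
  0)]⟩,.k,(.r (-1) ⟨5,[(25,1),(3,0),(0,0),(10,0),(11,1),(1,2),(0,0)]⟩ ⟨41,[(3,0),(3,9),(0,7),(14,
  13),(2,8),(2,8),(5,2),(0,11)]⟩),⟨false,1,⟨1,[(29,0),(0,0),(25,0)]⟩,⟨0,[]⟩⟩,⟨true,0,⟨0,[(58,0)]⟩,
  ⟨0,[]⟩⟩,⟨true,0,⟨0,[(54,0)]⟩,⟨0,[(53,0)]⟩⟩,⟨false,0,⟨0,[(54,0)]⟩,⟨3,[(25,1),(3,0),(0,0),(10,0),
  (14,1)]⟩⟩,[.o ⟨false,0,⟨1,[(3,0),(2,0),(12,0),(21,0)]⟩,⟨1,[(30,1),(10,0),(14,0)]⟩⟩,.e ⟨false,1,⟨1,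
  [(45,0),(9,0)]⟩,⟨0,[(58,0)]⟩⟩ ⟨false,1,⟨9,[(29,3),(0,3),(24,4),(0,0),(1,1)]⟩,⟨0,[]⟩⟩,.a ⟨true,0,
  ⟨0,[(6,0)]⟩,⟨0,[(30,0)]⟩⟩ ⟨false,1,⟨4,[(29,1),(0,1),(25,2),(1,0)]⟩,⟨0,[]⟩⟩ ⟨true,0,⟨0,[(58,0)]⟩,
  ⟨0,[]⟩⟩,.o ⟨false,0,⟨1,[(3,0),(2,0),(12,0),(21,0),(4,1)]⟩,⟨1,[(30,1),(10,0),(13,0)]⟩⟩]⟩) (.S ⟨1,0,
  [1,1],[0,0,0,0,1],[],(⟨0,[(32,0)]⟩,⟨0,[(31,0)]⟩),⟨0,[(0,0)]⟩,.k,(.r (-1) ⟨3,[(25,1),(3,0),(0,0),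
  (10,0),(13,1)]⟩ ⟨9,[(1,0),(5,1),(0,0),(14,3),(2,1),(2,1),(6,1),(21,1)]⟩),⟨false,1,⟨4,[(29,1),(0,
  1),(25,2),(1,0)]⟩,⟨0,[]⟩⟩,⟨true,0,⟨0,[(58,0)]⟩,⟨0,[]⟩⟩,⟨true,0,⟨11,[(1,1),(1,1),(3,1),(15,1),(31,
  2),(0,0)]⟩,⟨0,[(53,0)]⟩⟩,⟨false,0,⟨0,[(54,0)]⟩,⟨3,[(25,1),(3,0),(0,0),(10,0),(14,1)]⟩⟩,[.o ⟨false,
  0,⟨7,[(3,0),(3,3),(4,2),(17,4),(10,3)]⟩,⟨1,[(6,1),(34,0),(14,0)]⟩⟩,.a ⟨true,0,⟨0,[(30,0)]⟩,⟨0,[(6,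
  0)]⟩⟩ ⟨false,1,⟨1,[(55,0),(0,0)]⟩,⟨0,[(58,0)]⟩⟩ ⟨true,0,⟨0,[]⟩,⟨1,[(36,0),(0,0)]⟩⟩,.e ⟨false,1,⟨1,
  [(29,0),(0,0),(25,0)]⟩,⟨0,[]⟩⟩ ⟨false,0,⟨0,[]⟩,⟨1,[(29,0),(0,0),(25,0)]⟩⟩,.o ⟨false,0,⟨2,[(7,0),
  (3,0),(1,0),(16,1),(15,0),(3,0)]⟩,⟨1,[(6,1),(34,0),(13,0)]⟩⟩]⟩))) (.S ⟨1,0,[1,1],[0,0,0,0,1],[],
  (⟨0,[(30,0)]⟩,⟨0,[(29,0)]⟩),⟨3,[(0,0),(4,1),(1,2),(3,1),(0,1),(12,3),(4,1),(8,0),(13,1),(0,0)]⟩,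
  .k,(.r (-1) ⟨3,[(23,1),(3,0),(0,0),(10,0),(13,1)]⟩ ⟨4,[(2,0),(2,0),(15,1),(2,0),(2,0),(6,0),(21,
  0)]⟩),⟨false,1,⟨4,[(27,1),(0,1),(25,2),(1,0)]⟩,⟨0,[]⟩⟩,⟨true,0,⟨0,[(56,0)]⟩,⟨0,[]⟩⟩,⟨true,0,⟨8,
  [(1,0),(0,1),(2,0),(15,1),(31,2)]⟩,⟨0,[(51,0)]⟩⟩,⟨false,0,⟨0,[(52,0)]⟩,⟨3,[(23,1),(3,0),(0,0),(10,
  0),(14,1)]⟩⟩,[.o ⟨false,0,⟨7,[(1,0),(3,3),(4,2),(17,4),(10,3)]⟩,⟨1,[(4,1),(34,0),(14,0)]⟩⟩,.a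
  ⟨true,0,⟨0,[(28,0)]⟩,⟨0,[(4,0)]⟩⟩ ⟨false,1,⟨1,[(53,0),(0,0)]⟩,⟨0,[(56,0)]⟩⟩ ⟨true,0,⟨0,[]⟩,⟨1,
  [(34,0),(0,0)]⟩⟩,.e ⟨false,1,⟨1,[(27,0),(0,0),(25,0)]⟩,⟨0,[]⟩⟩ ⟨false,0,⟨0,[]⟩,⟨1,[(27,0),(0,0),
  (25,0)]⟩⟩,.o ⟨false,0,⟨2,[(5,0),(3,0),(1,0),(16,1),(15,0),(3,0)]⟩,⟨1,[(4,1),(34,0),(13,0)]⟩⟩]⟩))
  (.Q [1,0,0,1,0,0,0,0,1,-1,0,1] (.p true [0,0,0,0,1] [1] (⟨0,[(29,0)]⟩,⟨0,[(28,0)]⟩) .k 1 (⟨0,[]⟩,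
  ⟨0,[]⟩) .k .k) (.R ⟨2,true,false,true,[0,1],[1,0,0,0,-1],[1,1],(⟨0,[]⟩,⟨0,[]⟩),(⟨0,[(29,0)]⟩,⟨0,
  [(30,0)]⟩),⟨0,[]⟩,.k,.k,.k,(.r 0 ⟨18,[(5,3),(0,3),(14,6),(2,3),(2,3),(5,0),(0,4),(14,0)]⟩ ⟨5,[(1,
  0),(21,0),(3,0),(5,0),(9,0),(7,1),(1,2)]⟩),.k,.k,⟨true,0,⟨0,[]⟩,⟨0,[(55,0)]⟩⟩,⟨false,0,⟨0,[(4,
  0)]⟩,⟨1,[(28,1),(10,0),(13,0)]⟩⟩,⟨false,1,⟨3,[(1,0),(21,0),(3,0),(5,0),(19,1)]⟩,⟨2,[(6,0),(14,0),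
  (32,0)]⟩⟩,⟨true,0,⟨0,[(4,0),(46,0)]⟩,⟨0,[(0,0)]⟩⟩,⟨true,0,⟨0,[(45,0)]⟩,⟨1,[(34,0),(0,0)]⟩⟩,⟨false,
  0,⟨0,[(4,0)]⟩,⟨1,[(28,1),(10,0),(14,0)]⟩⟩,[]⟩) (.Q [1,0,0,2,0,0,0,0,1,-1,0,1] (.p true [0,0,0,0,
  1] [1] (⟨0,[(30,0)]⟩,⟨0,[(29,0)]⟩) .k 1 (⟨0,[]⟩,⟨0,[]⟩) .k .k) (.R ⟨1,true,false,false,[1,-1],[0,
  0,0,0,1],[0,1,-1,-1],(⟨0,[(41,0)]⟩,⟨0,[(42,0)]⟩),(⟨0,[(31,0)]⟩,⟨0,[(30,0)]⟩),⟨1,[(13,0),(12,0),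
  (14,0)]⟩,.k,.k,(.r (-2) ⟨1,[(2,0),(21,0),(3,0),(5,0),(19,1)]⟩ ⟨2,[(7,1),(11,0),(2,0)]⟩),(.r (-1)
  ⟨5,[(2,0),(21,0),(3,0),(5,0),(9,0),(7,1),(1,2)]⟩ ⟨18,[(0,3),(6,3),(14,2),(2,3),(2,3),(5,0),(0,8),
  (14,0)]⟩),(.r (-2) ⟨8,[(2,3),(21,3),(3,3),(5,3),(9,0),(7,1),(1,8)]⟩ ⟨2,[(7,1),(11,0),(2,0)]⟩),.k,
  ⟨false,1,⟨0,[(52,0),(1,0)]⟩,⟨2,[(7,0),(14,0),(32,0)]⟩⟩,⟨true,1,⟨3,[(0,0),(1,0),(26,1),(4,0),(5,0),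
  (13,1)]⟩,⟨0,[(1,0),(15,0)]⟩⟩,⟨true,0,⟨0,[(57,0)]⟩,⟨0,[]⟩⟩,⟨false,1,⟨3,[(0,2),(1,0),(25,0),(0,0),
  (4,0),(20,1)]⟩,⟨0,[(1,0)]⟩⟩,⟨false,0,⟨0,[(53,0)]⟩,⟨3,[(2,0),(21,0),(3,0),(5,0),(20,1)]⟩⟩,⟨true,0,
  ⟨0,[(0,0)]⟩,⟨0,[(1,0),(50,0)]⟩⟩,[]⟩) (.Q [0,0,0,0,0,-1,0,0,0,1,0,-1] (.ed true [0,1,0,0,1] .k)
  (.S ⟨1,0,[-1,1],[1,0,0,0,-1],[1,1,1],(⟨0,[(31,0)]⟩,⟨0,[(32,0)]⟩),⟨0,[(0,0)]⟩,.k,(.r (-1) ⟨5,[(3,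
  0),(21,0),(3,0),(5,0),(9,0),(7,1),(1,2)]⟩ ⟨18,[(7,3),(0,3),(14,6),(2,3),(2,3),(5,0),(0,4),(14,
  0)]⟩),⟨false,0,⟨1,[(36,0),(0,0)]⟩,⟨1,[(45,0),(9,0)]⟩⟩,⟨true,0,⟨0,[(58,0)]⟩,⟨0,[]⟩⟩,⟨true,(-1),⟨1,
  [(8,0),(8,0),(29,0)]⟩,⟨5,[(3,0),(21,0),(3,0),(5,0),(9,0),(7,1),(1,2)]⟩⟩,⟨false,0,⟨0,[(54,0)]⟩,⟨3,
  [(3,0),(21,0),(3,0),(5,0),(20,1)]⟩⟩,[.o ⟨false,0,⟨3,[(1,0),(4,2),(1,0),(8,0),(23,1),(5,2)]⟩,⟨1,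
  [(30,1),(10,0),(14,0)]⟩⟩,.e ⟨false,0,⟨0,[]⟩,⟨1,[(29,0),(0,0),(24,0)]⟩⟩ ⟨false,1,⟨9,[(29,3),(0,3),
  (24,4),(0,0),(1,1)]⟩,⟨0,[]⟩⟩,.a ⟨true,0,⟨0,[(6,0)]⟩,⟨0,[(30,0)]⟩⟩ ⟨false,0,⟨1,[(36,0),(0,0)]⟩,⟨1,
  [(55,0),(0,0)]⟩⟩ ⟨true,0,⟨0,[(58,0)]⟩,⟨0,[]⟩⟩,.e ⟨false,0,⟨0,[]⟩,⟨1,[(29,0),(0,0),(25,0)]⟩⟩
  ⟨false,1,⟨9,[(29,3),(0,3),(24,4),(0,0),(1,1)]⟩,⟨0,[(46,0)]⟩⟩]⟩) (.S ⟨1,0,[1,1],[0,0,0,0,1],[1,1,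
  1],(⟨0,[(32,0)]⟩,⟨0,[(31,0)]⟩),⟨1,[(0,0),(13,0),(12,0),(4,0)]⟩,.k,(.r (-1) ⟨3,[(3,0),(21,0),(3,0),
  (5,0),(19,1)]⟩ ⟨4,[(4,0),(2,0),(15,1),(2,0),(2,0),(6,0),(21,0)]⟩),⟨false,0,⟨1,[(36,0),(0,0)]⟩,⟨1,
  [(55,0),(0,0)]⟩⟩,⟨true,0,⟨0,[(58,0)]⟩,⟨0,[]⟩⟩,⟨true,(-1),⟨1,[(8,0),(8,0),(29,0)]⟩,⟨3,[(3,0),(21,
  0),(3,0),(5,0),(19,1)]⟩⟩,⟨false,0,⟨0,[(54,0)]⟩,⟨3,[(3,0),(21,0),(3,0),(5,0),(20,1)]⟩⟩,[.e ⟨false,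
  0,⟨0,[(58,0)]⟩,⟨1,[(55,0),(0,0)]⟩⟩ ⟨false,0,⟨0,[(47,0)]⟩,⟨1,[(29,0),(0,0),(25,0)]⟩⟩,.a ⟨true,0,⟨0,
  [(30,0)]⟩,⟨0,[(6,0)]⟩⟩ ⟨false,0,⟨0,[]⟩,⟨1,[(29,0),(0,0),(24,0)]⟩⟩ ⟨true,0,⟨0,[]⟩,⟨1,[(36,0),(0,
  0)]⟩⟩,.e ⟨false,0,⟨1,[(36,0),(0,0)]⟩,⟨1,[(55,0),(0,0)]⟩⟩ ⟨false,0,⟨0,[]⟩,⟨1,[(29,0),(0,0),(25,
  0)]⟩⟩,.o ⟨false,0,⟨8,[(3,1),(3,0),(3,2),(8,1),(2,0),(6,5),(10,2)]⟩,⟨1,[(6,1),(34,0),(13,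
  0)]⟩⟩]⟩)))))) (.S ⟨1,0,[1,1],[0,0,0,0,1],[],(⟨0,[(27,0)]⟩,⟨0,[(26,0)]⟩),⟨3,[(0,1),(1,1),(1,3),(3,
  1),(0,1),(12,3),(4,1),(8,0),(13,1),(0,0)]⟩,.k,(.r (-1) ⟨3,[(20,1),(3,0),(0,0),(10,0),(13,1)]⟩ ⟨32,
  [(2,5),(0,6),(14,12),(2,5),(2,5),(6,5),(19,0),(1,8)]⟩),⟨false,1,⟨4,[(24,1),(0,1),(25,2),(1,0)]⟩,
  ⟨0,[]⟩⟩,⟨true,0,⟨0,[(53,0)]⟩,⟨0,[]⟩⟩,⟨true,0,⟨0,[(3,0),(4,0),(31,0),(1,1)]⟩,⟨0,[(48,0)]⟩⟩,⟨false,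
  0,⟨0,[(49,0)]⟩,⟨3,[(20,1),(3,0),(0,0),(10,0),(14,1)]⟩⟩,[.o ⟨false,0,⟨5,[(2,2),(4,1),(7,0),(9,2),
  (2,0),(7,2)]⟩,⟨1,[(1,1),(34,0),(14,0)]⟩⟩,.a ⟨true,0,⟨0,[(25,0)]⟩,⟨0,[(1,0)]⟩⟩ ⟨false,1,⟨1,[(50,0),
  (0,0)]⟩,⟨0,[(53,0)]⟩⟩ ⟨true,0,⟨0,[]⟩,⟨1,[(31,0),(0,0)]⟩⟩,.e ⟨false,1,⟨1,[(24,0),(0,0),(25,0)]⟩,⟨0,
  []⟩⟩ ⟨false,0,⟨0,[]⟩,⟨1,[(24,0),(0,0),(25,0)]⟩⟩,.o ⟨false,0,⟨2,[(2,0),(3,0),(1,0),(16,1),(15,0),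
  (3,0)]⟩,⟨1,[(1,1),(34,0),(13,0)]⟩⟩]⟩)))))

theorem ok49 : chk K t49 l35 = true := by decide +kernel

noncomputable def t50 : Tre :=
  (.I [1,0,-2,-2,1,0,0,-1] (.I [0,0,-2,0,2,-2,1] (.N [0,2,1] 1 ⟨0,[(3,0)]⟩ ⟨0,[(1,0)]⟩ (.x (-2) ⟨0,
  [(0,0)]⟩ ⟨8,[(4,3),(4,4),(9,0),(9,1),(2,8),(8,5),(8,2)]⟩)) (.Q [0,-1,0,0,1,0,1,1,-1,0,1,-1] (.p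
  true [0,0,1] [0,0,0,0,1] (⟨0,[(32,0)]⟩,⟨0,[(31,0)]⟩) .k 2 (⟨0,[(25,0)]⟩,⟨0,[(24,0)]⟩) .k (.r (-1)
  ⟨23,[(2,5),(14,21),(1,3),(2,5),(0,5),(3,1),(4,5),(8,3),(6,4),(0,0)]⟩ ⟨2,[(1,0),(11,0),(2,0)]⟩))
  (.Q [0,0,0,0,0,1,0,0,0,-1,0,1] (.ed false [0,1,0,0,1] .k) (.R ⟨0,false,false,true,[1,0,0,0,-1],[0,
  1],[1,1,1],(⟨0,[(26,0)]⟩,⟨0,[(27,0)]⟩),(⟨0,[(38,0)]⟩,⟨0,[(37,0)]⟩),⟨0,[(0,0)]⟩,.k,.k,(.r (-1) ⟨15,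
  [(3,3),(10,3),(6,1),(2,2),(0,2),(10,0),(13,3),(0,3),(1,3)]⟩ ⟨2,[(5,0),(12,0),(5,0),(0,0),(27,
  0)]⟩),(.r (-1) ⟨15,[(3,3),(10,3),(6,1),(2,2),(0,2),(10,0),(13,3),(0,3),(1,3)]⟩ ⟨2,[(5,0),(12,0),
  (5,0),(0,0),(27,0)]⟩),.k,.k,⟨false,1,⟨23,[(3,5),(0,5),(9,5),(6,5),(2,1),(0,1),(8,5),(1,0),(6,3),
  (7,2)]⟩,⟨0,[(49,0)]⟩⟩,⟨true,1,⟨1,[(25,1),(10,0),(13,0)]⟩,⟨1,[(1,1),(5,0),(3,0),(1,0),(1,0)]⟩⟩,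
  ⟨false,0,⟨1,[(31,0),(0,0)]⟩,⟨1,[(40,0),(9,0)]⟩⟩,⟨true,0,⟨3,[(5,0),(9,0),(9,3),(10,1),(5,2),(6,
  0)]⟩,⟨23,[(1,23),(0,1),(4,15),(1,1),(5,7),(6,3),(5,5),(6,3),(9,0),(4,2)]⟩⟩,⟨false,0,⟨0,[]⟩,⟨0,
  []⟩⟩,⟨false,0,⟨0,[]⟩,⟨0,[]⟩⟩,[.o ⟨false,0,⟨3,[(5,0),(9,0),(20,1),(5,2),(6,0)]⟩,⟨3,[(20,1),(3,0),
  (0,0),(10,0),(14,1)]⟩⟩,.e ⟨false,0,⟨0,[]⟩,⟨1,[(24,0),(0,0),(24,0)]⟩⟩ ⟨false,1,⟨1,[(25,1),(10,0),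
  (12,1),(0,0)]⟩,⟨2,[(1,2),(5,1),(7,0),(12,0)]⟩⟩,.a ⟨true,0,⟨2,[(1,2),(5,0),(7,1),(12,1)]⟩,⟨0,[(25,
  0)]⟩⟩ ⟨false,0,⟨1,[(31,0),(0,0)]⟩,⟨1,[(50,0),(0,0)]⟩⟩ ⟨true,0,⟨3,[(5,0),(9,0),(9,3),(10,1),(5,2),
  (6,0)]⟩,⟨2,[(1,2),(5,1),(7,0),(12,0)]⟩⟩,.o ⟨false,0,⟨5,[(1,5),(4,0),(0,1),(7,3),(1,2),(18,0)]⟩,⟨1,
  [(25,1),(10,0),(13,0)]⟩⟩]⟩) (.S ⟨1,0,[-1,1],[1,0,0,0,-1],[-1],(⟨0,[(26,0)]⟩,⟨0,[(27,0)]⟩),⟨0,[(0,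
  0)]⟩,.k,(.r (-1) ⟨15,[(3,3),(10,3),(6,1),(2,2),(0,2),(10,0),(13,3),(0,3),(1,3)]⟩ ⟨2,[(5,0),(12,0),
  (5,0),(0,0),(27,0)]⟩),⟨false,1,⟨1,[(24,0),(0,0),(25,0)]⟩,⟨0,[]⟩⟩,⟨true,0,⟨0,[(53,0)]⟩,⟨0,[]⟩⟩,
  ⟨true,0,⟨0,[(49,0)]⟩,⟨0,[(48,0)]⟩⟩,⟨false,0,⟨0,[(49,0)]⟩,⟨3,[(20,1),(3,0),(0,0),(10,0),(14,1)]⟩⟩,
  [.o ⟨false,0,⟨2,[(1,2),(4,0),(0,0),(7,1),(12,0),(13,2),(2,0)]⟩,⟨1,[(25,1),(10,0),(14,0)]⟩⟩,.e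
  ⟨false,1,⟨1,[(40,0),(9,0)]⟩,⟨0,[(53,0)]⟩⟩ ⟨false,1,⟨9,[(24,3),(0,3),(24,4),(0,0),(1,1)]⟩,⟨0,[]⟩⟩,
  .a ⟨true,0,⟨2,[(1,2),(5,0),(7,1),(12,1)]⟩,⟨0,[(25,0)]⟩⟩ ⟨false,1,⟨4,[(24,1),(0,1),(25,2),(1,0)]⟩,
  ⟨0,[]⟩⟩ ⟨true,0,⟨0,[(53,0)]⟩,⟨0,[]⟩⟩,.o ⟨false,0,⟨5,[(1,5),(4,0),(0,1),(7,3),(1,2),(18,0)]⟩,⟨1,
  [(25,1),(10,0),(13,0)]⟩⟩]⟩)) (.I [0,0,2,0,-3,2,0,0,2] (.R ⟨0,false,false,false,[0,0,0,0,1],[0,1],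
  [],(⟨0,[(27,0)]⟩,⟨0,[(26,0)]⟩),(⟨0,[(38,0)]⟩,⟨0,[(37,0)]⟩),⟨1,[(0,0),(23,1),(25,0)]⟩,.k,.k,(.r
  (-1) ⟨23,[(3,5),(0,5),(9,5),(6,5),(2,1),(0,1),(8,5),(1,0),(6,3),(7,2)]⟩ ⟨2,[(5,0),(12,0),(5,0),(0,
  0),(27,0)]⟩),(.r (-1) ⟨23,[(3,5),(0,5),(9,5),(6,5),(2,1),(0,1),(8,5),(1,0),(6,3),(7,2)]⟩ ⟨2,[(5,
  0),(12,0),(5,0),(0,0),(27,0)]⟩),.k,.k,⟨true,1,⟨159,[(3,39),(0,35),(9,39),(6,37),(2,16),(0,16),(8,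
  35),(1,6),(6,23),(6,3),(0,19)]⟩,⟨0,[(13,0)]⟩⟩,⟨false,2,⟨0,[(24,0),(25,0)]⟩,⟨10,[(0,3),(3,1),(1,2),
  (2,1),(15,2),(1,7),(3,0)]⟩⟩,⟨false,1,⟨4,[(24,1),(0,1),(25,2),(1,0)]⟩,⟨0,[]⟩⟩,⟨true,1,⟨0,[(24,0),
  (24,0)]⟩,⟨123,[(0,40),(0,41),(1,5),(0,9),(4,23),(0,15),(3,47),(7,13),(4,81),(8,14),(5,33)]⟩⟩,
  ⟨false,0,⟨0,[]⟩,⟨0,[]⟩⟩,⟨false,0,⟨0,[]⟩,⟨0,[]⟩⟩,[.a ⟨true,0,⟨0,[(49,0)]⟩,⟨21,[(4,1),(15,10),(0,2),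
  (9,3),(2,1),(0,3),(8,3)]⟩⟩ ⟨false,1,⟨1,[(24,0),(0,0),(24,0)]⟩,⟨0,[]⟩⟩ ⟨true,1,⟨0,[(24,0),(24,0)]⟩,
  ⟨27,[(0,8),(0,9),(1,1),(2,1),(2,5),(4,11),(7,5),(4,17),(8,2),(4,9),(9,5)]⟩⟩,.o ⟨false,1,⟨1,[(36,
  0),(12,1),(1,0)]⟩,⟨0,[(48,0)]⟩⟩,.o ⟨false,0,⟨11,[(0,3),(3,1),(4,1),(15,3),(1,7),(0,1),(7,6),(13,
  0)]⟩,⟨0,[(24,0)]⟩⟩,.e ⟨false,1,⟨1,[(50,0),(0,0)]⟩,⟨1,[(31,0),(0,0)]⟩⟩ ⟨false,2,⟨1,[(24,1),(24,1),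
  (0,0),(0,0)]⟩,⟨27,[(0,8),(0,9),(1,1),(2,1),(2,5),(4,11),(7,5),(4,17),(8,2),(4,9),(9,5)]⟩⟩]⟩) (.Q
  [-1,0,0,0,0,0,0,0,-2,1,0,-2] (.p false [0,0,0,0,1] [1,0,0,0,-1] (⟨0,[(27,0)]⟩,⟨0,[(26,0)]⟩) .k 2
  (⟨0,[(26,0)]⟩,⟨0,[(27,0)]⟩) .k (.r 0 ⟨0,[]⟩ ⟨4,[(24,2),(0,2),(25,1),(1,3)]⟩)) (.Q [0,0,0,0,0,-1,0,
  0,0,0,0,1] (.ed false [1,-1,0,0,1] .k) (.S ⟨1,0,[1,1],[0,0,0,0,1],[],(⟨0,[(29,0)]⟩,⟨0,[(28,0)]⟩),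
  ⟨0,[(0,0)]⟩,.k,(.r (-1) ⟨127,[(2,14),(2,31),(10,31),(6,15),(3,29),(0,29),(9,17),(6,9),(6,16),(0,
  15)]⟩ ⟨2,[(7,0),(12,0),(5,0),(0,0),(27,0)]⟩),⟨false,1,⟨4,[(26,1),(0,1),(25,2),(1,0)]⟩,⟨0,[]⟩⟩,
  ⟨true,0,⟨0,[(55,0)]⟩,⟨0,[]⟩⟩,⟨true,0,⟨1,[(7,0),(6,0),(27,1),(1,2)]⟩,⟨0,[(50,0)]⟩⟩,⟨false,0,⟨0,
  [(51,0)]⟩,⟨3,[(22,1),(3,0),(0,0),(10,0),(14,1)]⟩⟩,[.o ⟨false,0,⟨1,[(3,0),(23,0),(3,0),(6,0)]⟩,⟨5,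
  [(1,1),(24,1),(20,0),(5,2)]⟩⟩,.a ⟨true,0,⟨0,[(27,0)]⟩,⟨41,[(1,18),(0,1),(25,3),(8,10),(1,6),(6,5),
  (7,3)]⟩⟩ ⟨false,1,⟨1,[(52,0),(0,0)]⟩,⟨0,[(55,0)]⟩⟩ ⟨true,0,⟨0,[]⟩,⟨1,[(33,0),(0,0)]⟩⟩,.e ⟨false,1,
  ⟨1,[(26,0),(0,0),(25,0)]⟩,⟨0,[]⟩⟩ ⟨false,0,⟨0,[]⟩,⟨1,[(26,0),(0,0),(25,0)]⟩⟩,.o ⟨false,0,⟨5,[(3,
  0),(11,1),(0,0),(10,4),(10,2),(4,1)]⟩,⟨5,[(1,1),(24,1),(11,0),(13,2)]⟩⟩]⟩) (.S ⟨1,0,[-1,1],[1,0,0,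
  0,-1],[-1],(⟨0,[(28,0)]⟩,⟨0,[(29,0)]⟩),⟨1,[(0,0),(10,0),(12,0),(3,0)]⟩,.k,(.r (-1) ⟨175,[(0,29),
  (1,14),(2,43),(10,43),(6,21),(3,29),(10,10),(13,28),(0,46),(1,49)]⟩ ⟨2,[(7,0),(12,0),(5,0),(0,0),
  (27,0)]⟩),⟨false,1,⟨1,[(26,0),(0,0),(25,0)]⟩,⟨0,[]⟩⟩,⟨true,0,⟨0,[(55,0)]⟩,⟨0,[]⟩⟩,⟨true,0,⟨0,[(51,
  0)]⟩,⟨0,[(50,0)]⟩⟩,⟨false,0,⟨0,[(51,0)]⟩,⟨3,[(22,1),(3,0),(0,0),(10,0),(14,1)]⟩⟩,[.o ⟨false,0,⟨11,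
  [(1,5),(6,0),(6,0),(0,0),(0,0),(20,2),(9,4)]⟩,⟨1,[(27,1),(10,0),(14,0)]⟩⟩,.e ⟨false,1,⟨1,[(42,0),
  (9,0)]⟩,⟨0,[(55,0)]⟩⟩ ⟨false,1,⟨21,[(0,7),(1,3),(24,7),(24,6),(0,2),(1,5)]⟩,⟨0,[]⟩⟩,.a ⟨true,0,
  ⟨21,[(1,8),(0,0),(20,0),(2,1),(1,1),(4,1),(3,1),(8,4)]⟩,⟨0,[(27,0)]⟩⟩ ⟨false,1,⟨4,[(26,1),(0,1),
  (25,2),(1,0)]⟩,⟨0,[]⟩⟩ ⟨true,0,⟨0,[(55,0)]⟩,⟨0,[]⟩⟩,.o ⟨false,0,⟨8,[(1,3),(6,2),(17,0),(6,2),(4,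
  1)]⟩,⟨1,[(27,1),(10,0),(13,0)]⟩⟩]⟩)) (.I [0,0,-2,0,2,-2,0,0,-2] (.Q [0,0,1,0,-1,0,0,0,1,0,0,1]
  (.p true [0,0,0,0,1] [] (⟨0,[(29,0)]⟩,⟨0,[(28,0)]⟩) .k 0 (⟨0,[]⟩,⟨0,[]⟩) .k .k) (.S ⟨1,0,[1,1],[0,
  0,0,0,1],[],(⟨0,[(30,0)]⟩,⟨0,[(29,0)]⟩),⟨1,[(0,1),(0,0)]⟩,.k,(.r (-1) ⟨103,[(2,14),(0,14),(2,25),
  (10,25),(6,12),(4,29),(9,8),(6,9),(6,10),(0,12)]⟩ ⟨200,[(2,25),(0,14),(4,66),(12,66),(2,5),(2,21),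
  (1,29),(4,11),(11,9),(8,17),(0,66)]⟩),⟨false,1,⟨48,[(2,7),(0,5),(23,3),(1,11),(16,3),(7,26),(0,
  11),(0,4)]⟩,⟨0,[]⟩⟩,⟨true,0,⟨0,[(56,0)]⟩,⟨0,[]⟩⟩,⟨true,0,⟨1,[(8,0),(6,0),(27,1),(1,2)]⟩,⟨0,[(51,
  0)]⟩⟩,⟨false,0,⟨0,[(52,0)]⟩,⟨5,[(2,0),(20,2),(3,1),(11,0),(14,2)]⟩⟩,[.e ⟨false,1,⟨113,[(2,27),(0,
  20),(23,13),(1,41),(13,0),(2,13),(6,35),(2,1)]⟩,⟨0,[]⟩⟩ ⟨false,0,⟨0,[(45,0)]⟩,⟨33,[(2,6),(0,2),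
  (20,2),(2,7),(1,5),(4,5),(11,1),(7,16)]⟩⟩,.o ⟨false,0,⟨1,[(0,1),(38,0),(13,0)]⟩,⟨60,[(1,7),(3,1),
  (5,1),(4,5),(0,1),(7,1),(1,44),(1,15),(8,13),(4,0),(4,8)]⟩⟩,.o ⟨false,0,⟨1,[(0,1),(38,0),(13,0)]⟩,
  ⟨0,[(27,0)]⟩⟩,.a ⟨true,(-1),⟨0,[(0,0)]⟩,⟨47,[(1,16),(1,6),(25,47),(8,5),(7,13),(0,6)]⟩⟩ ⟨false,1,
  ⟨1,[(53,0),(0,0)]⟩,⟨1,[(34,0),(0,0)]⟩⟩ ⟨true,0,⟨0,[(45,0)]⟩,⟨1,[(34,0),(0,0)]⟩⟩]⟩) (.Q [0,0,0,0,0,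
  1,0,0,0,0,0,-1] (.ed true [1,-1,0,0,1] .k) (.I [3,0,-2,-2,1] (.N [0,-2,0,0,2] (-1) ⟨0,[(0,0)]⟩ ⟨0,
  [(10,0),(6,0),(27,0),(1,0)]⟩ (.x 1 ⟨7,[(1,11),(2,7),(2,0),(10,5),(6,2),(5,3),(4,0),(1,0),(1,1),
  (16,0)]⟩ ⟨0,[(3,0)]⟩)) (.Q [0,0,0,0,0,0,0,0,-1,1,0,-1] (.p false [0,0,0,0,1] [1] (⟨0,[(32,0)]⟩,⟨0,
  [(31,0)]⟩) .k 1 (⟨0,[]⟩,⟨0,[]⟩) .k .k) (.R ⟨0,false,false,true,[0,0,0,0,1],[0,1],[1,1,1],(⟨0,[(33,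
  0)]⟩,⟨0,[(32,0)]⟩),(⟨0,[(44,0)]⟩,⟨0,[(43,0)]⟩),⟨0,[(2,0)]⟩,.k,.k,(.r (-1) ⟨31,[(2,8),(2,5),(0,5),
  (2,7),(10,7),(6,3),(4,2),(16,0),(6,1),(0,3)]⟩ ⟨33,[(1,16),(3,6),(0,2),(20,2),(2,7),(1,5),(4,5),
  (11,1)]⟩),(.r (-1) ⟨31,[(2,8),(2,5),(0,5),(2,7),(10,7),(6,3),(4,2),(16,0),(6,1),(0,3)]⟩ ⟨33,[(1,
  16),(3,6),(0,2),(20,2),(2,7),(1,5),(4,5),(11,1)]⟩),.k,.k,⟨false,1,⟨31,[(2,8),(2,5),(0,5),(2,7),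
  (10,7),(6,3),(4,2),(16,0),(6,1),(0,3)]⟩,⟨0,[(55,0)]⟩⟩,⟨true,1,⟨0,[(3,0)]⟩,⟨17,[(1,2),(3,8),(7,0),
  (5,13),(0,0),(5,7),(20,1)]⟩⟩,⟨false,0,⟨1,[(37,0),(0,0)]⟩,⟨1,[(56,0),(0,0)]⟩⟩,⟨true,0,⟨7,[(0,5),(0,
  0),(1,1),(7,1),(9,1),(26,5),(2,2)]⟩,⟨1,[(5,0),(20,0)]⟩⟩,⟨false,0,⟨0,[]⟩,⟨0,[]⟩⟩,⟨false,0,⟨0,[]⟩,
  ⟨0,[]⟩⟩,[.o ⟨false,0,⟨3,[(11,0),(9,0),(20,1),(5,2),(6,0)]⟩,⟨5,[(5,0),(20,2),(3,1),(11,0),(14,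
  2)]⟩⟩,.e ⟨false,0,⟨0,[]⟩,⟨113,[(5,27),(0,20),(23,13),(1,41),(13,0),(2,13),(6,35),(2,1)]⟩⟩ ⟨false,
  1,⟨0,[(3,0),(51,0)]⟩,⟨21,[(5,10),(7,0),(1,0),(4,0),(5,8),(1,0),(12,2),(4,0)]⟩⟩,.a ⟨true,0,⟨0,[(31,
  0)]⟩,⟨0,[(0,0)]⟩⟩ ⟨false,0,⟨1,[(37,0),(0,0)]⟩,⟨1,[(56,0),(0,0)]⟩⟩ ⟨true,0,⟨1,[(3,1),(7,0),(6,0),
  (29,0)]⟩,⟨21,[(5,10),(7,0),(1,0),(4,0),(5,8),(1,0),(12,2),(4,0)]⟩⟩,.o ⟨false,0,⟨3,[(5,1),(6,0),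
  (24,0),(4,0),(15,0)]⟩,⟨0,[(3,0)]⟩⟩]⟩) (.R ⟨0,false,false,false,[0,0,0,0,1],[0,1],[0,0,1],(⟨0,[(33,
  0)]⟩,⟨0,[(32,0)]⟩),(⟨0,[(44,0)]⟩,⟨0,[(43,0)]⟩),⟨0,[(2,0)]⟩,.k,.k,(.r (-1) ⟨31,[(2,8),(2,5),(0,5),
  (2,7),(10,7),(6,3),(4,2),(16,0),(6,1),(0,3)]⟩ ⟨33,[(1,16),(3,6),(0,2),(20,2),(2,7),(1,5),(4,5),
  (11,1)]⟩),(.r (-1) ⟨31,[(2,8),(2,5),(0,5),(2,7),(10,7),(6,3),(4,2),(16,0),(6,1),(0,3)]⟩ ⟨33,[(1,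
  16),(3,6),(0,2),(20,2),(2,7),(1,5),(4,5),(11,1)]⟩),.k,.k,⟨false,1,⟨31,[(2,6),(2,5),(0,4),(2,7),
  (10,7),(6,3),(2,1),(1,2),(16,0),(6,2),(0,3)]⟩,⟨0,[(55,0)]⟩⟩,⟨true,1,⟨0,[(3,0)]⟩,⟨17,[(1,2),(3,8),
  (7,0),(5,13),(0,0),(5,7),(20,1)]⟩⟩,⟨true,0,⟨0,[(58,0)]⟩,⟨0,[(48,0)]⟩⟩,⟨false,1,⟨7,[(1,0),(1,7),(7,
  1),(12,1),(32,2)]⟩,⟨1,[(5,0),(20,0)]⟩⟩,⟨false,0,⟨0,[]⟩,⟨0,[]⟩⟩,⟨false,0,⟨0,[]⟩,⟨0,[]⟩⟩,[.a ⟨true,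
  0,⟨0,[(55,0)]⟩,⟨19,[(6,0),(19,9),(0,0),(3,1),(0,1),(4,1),(3,2),(1,0),(6,2)]⟩⟩ ⟨true,0,⟨1,[(37,0),
  (0,0)]⟩,⟨0,[]⟩⟩ ⟨false,1,⟨0,[(3,0),(51,0)]⟩,⟨21,[(5,10),(7,0),(1,0),(4,0),(5,8),(1,0),(12,2),(4,
  0)]⟩⟩,.o ⟨false,1,⟨1,[(42,0),(12,1),(1,0)]⟩,⟨0,[(54,0)]⟩⟩,.o ⟨false,0,⟨0,[(0,0)]⟩,⟨0,[(30,0)]⟩⟩,
  .o ⟨false,0,⟨3,[(5,1),(6,0),(24,0),(4,0),(15,0)]⟩,⟨0,[(3,0)]⟩⟩]⟩))) (.Q [0,0,0,0,0,0,0,0,-1,1,0,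
  -1] (.p false [0,0,0,0,1] [1] (⟨0,[(31,0)]⟩,⟨0,[(30,0)]⟩) .k 1 (⟨0,[]⟩,⟨0,[]⟩) .k .k) (.R ⟨1,
  false,false,true,[0,0,0,0,1],[0,1],[],(⟨0,[(32,0)]⟩,⟨0,[(31,0)]⟩),(⟨0,[(43,0)]⟩,⟨0,[(42,0)]⟩),⟨0,
  [(1,0)]⟩,.k,.k,(.r (-1) ⟨103,[(4,14),(0,14),(2,25),(10,25),(6,12),(4,29),(9,8),(6,9),(6,10),(0,
  12)]⟩ ⟨200,[(4,25),(0,14),(4,66),(12,66),(2,5),(2,21),(1,29),(4,11),(11,9),(8,17),(0,66)]⟩),(.r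
  (-1) ⟨103,[(4,14),(0,14),(2,25),(10,25),(6,12),(4,29),(9,8),(6,9),(6,10),(0,12)]⟩ ⟨200,[(4,25),(0,
  14),(4,66),(12,66),(2,5),(2,21),(1,29),(4,11),(11,9),(8,17),(0,66)]⟩),(.r (-2) ⟨51,[(4,14),(0,14),
  (2,25),(10,25),(6,12),(4,29),(9,8),(6,9),(6,10),(0,12)]⟩ ⟨0,[(10,0),(6,0),(27,0),(1,0)]⟩),.k,
  ⟨false,2,⟨103,[(4,14),(0,14),(2,25),(10,25),(6,12),(4,29),(9,8),(6,9),(6,62),(0,64)]⟩,⟨1,[(10,0),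
  (6,0),(29,0)]⟩⟩,⟨true,1,⟨0,[(2,0)]⟩,⟨21,[(4,10),(7,0),(1,0),(3,21),(0,0),(5,8),(1,0),(12,2),(4,
  0)]⟩⟩,⟨false,1,⟨48,[(4,7),(0,5),(23,3),(1,11),(16,3),(7,26),(0,11),(0,4)]⟩,⟨0,[]⟩⟩,⟨true,0,⟨3,[(0,
  3),(9,0),(9,0),(26,2),(2,1),(3,0)]⟩,⟨1,[(4,0),(20,0)]⟩⟩,⟨true,0,⟨1,[(10,0),(6,0),(27,1),(1,2)]⟩,
  ⟨0,[(53,0)]⟩⟩,⟨true,0,⟨1,[(2,1),(7,0),(9,0),(26,0),(6,0)]⟩,⟨1,[(4,0),(7,0),(6,0),(36,0)]⟩⟩,[.o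
  ⟨false,0,⟨3,[(10,0),(9,0),(20,1),(5,2),(6,0)]⟩,⟨5,[(4,0),(20,2),(3,1),(11,0),(14,2)]⟩⟩,.e ⟨false,
  1,⟨1,[(55,0),(0,0)]⟩,⟨0,[(58,0)]⟩⟩ ⟨false,1,⟨0,[(2,0),(51,0)]⟩,⟨21,[(4,10),(7,0),(1,0),(4,0),(5,
  8),(1,0),(12,2),(4,0)]⟩⟩,.a ⟨true,0,⟨0,[(30,0)]⟩,⟨0,[(0,0)]⟩⟩ ⟨false,1,⟨33,[(4,6),(0,2),(20,2),(2,
  7),(1,5),(4,5),(11,1),(7,16)]⟩,⟨0,[]⟩⟩ ⟨true,0,⟨1,[(2,1),(7,0),(6,0),(29,0)]⟩,⟨21,[(4,10),(7,0),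
  (1,0),(4,0),(5,8),(1,0),(12,2),(4,0)]⟩⟩,.o ⟨false,0,⟨3,[(4,1),(6,0),(24,0),(4,0),(15,0)]⟩,⟨0,[(2,
  0)]⟩⟩]⟩) (.S ⟨1,0,[1],[0,0,0,0,1],[1,0,1],(⟨0,[(32,0)]⟩,⟨0,[(31,0)]⟩),⟨0,[(1,0)]⟩,.k,(.r (-1)
  ⟨103,[(4,14),(0,14),(2,25),(10,25),(6,12),(4,29),(9,8),(6,9),(6,10),(0,12)]⟩ ⟨200,[(4,25),(0,14),
  (4,66),(12,66),(2,5),(2,21),(1,29),(4,11),(11,9),(8,17),(0,66)]⟩),⟨true,0,⟨1,[(36,0),(0,0)]⟩,⟨0,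
  [(47,0)]⟩⟩,⟨false,1,⟨33,[(4,6),(0,2),(20,2),(2,7),(1,5),(4,5),(11,1),(7,16)]⟩,⟨0,[]⟩⟩,⟨false,0,⟨2,
  [(10,0),(12,0),(32,0)]⟩,⟨103,[(4,14),(0,14),(2,25),(10,25),(6,12),(4,29),(9,8),(6,9),(6,10),(0,
  12)]⟩⟩,⟨true,0,⟨0,[(54,0)]⟩,⟨0,[(53,0)]⟩⟩,[.o ⟨false,0,⟨0,[(0,0)]⟩,⟨1,[(2,0),(26,0),(27,0)]⟩⟩,.a
  ⟨true,0,⟨1,[(0,1),(48,0),(6,0)]⟩,⟨8,[(2,1),(0,2),(3,2),(12,2),(0,2),(7,0),(1,5),(6,2),(12,0),(6,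
  0)]⟩⟩ ⟨true,0,⟨0,[(52,0)]⟩,⟨0,[(58,0)]⟩⟩ ⟨false,1,⟨1,[(55,0),(0,0)]⟩,⟨0,[(58,0)]⟩⟩,.o ⟨false,0,⟨0,
  [(0,0)]⟩,⟨0,[(29,0)]⟩⟩,.o ⟨false,0,⟨3,[(4,1),(6,0),(24,0),(4,0),(15,0)]⟩,⟨0,[(2,0)]⟩⟩]⟩)))) (.Q
  [0,0,0,0,0,-1,0,0,0,1,0,-1] (.ed true [0,1,0,0,1] .k) (.Q [0,0,0,0,0,0,0,0,1,-1,0,1] (.p true [0,
  0,0,0,1] [1] (⟨0,[(30,0)]⟩,⟨0,[(29,0)]⟩) .k 1 (⟨0,[]⟩,⟨0,[]⟩) .k .k) (.Q [0,0,1,0,0,0,0,0,-1,1,0,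
  -1] (.p false [0,0,0,0,1] [1] (⟨0,[(31,0)]⟩,⟨0,[(30,0)]⟩) .k 1 (⟨0,[]⟩,⟨0,[]⟩) .k .k) (.Q [1,1,0,
  -1,-1,0,0,0,1,0,0,1] (.p true [0,0,0,0,1] [] (⟨0,[(32,0)]⟩,⟨0,[(31,0)]⟩) .k 0 (⟨0,[]⟩,⟨0,[]⟩) .k
  .k) (.R ⟨1,false,false,false,[1,0,0,0,-1],[1,-1],[-1],(⟨0,[(32,0)]⟩,⟨0,[(33,0)]⟩),(⟨0,[(43,0)]⟩,
  ⟨0,[(44,0)]⟩),⟨0,[(3,0)]⟩,.k,.k,(.r (-1) ⟨17,[(4,1),(0,0),(0,2),(19,8),(5,1),(8,1),(9,4),(4,7)]⟩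
  ⟨50,[(5,6),(0,2),(4,16),(12,16),(2,2),(2,7),(1,5),(4,5),(11,1),(9,16)]⟩),(.r 0 ⟨1,[(8,5),(2,6),(3,
  1),(2,12),(1,5),(7,7),(17,27),(1,36),(2,3)]⟩ ⟨103,[(5,14),(0,14),(2,25),(10,25),(6,12),(4,29),(9,
  8),(6,9),(6,10),(0,12)]⟩),.k,.k,⟨false,0,⟨1,[(11,0),(6,0),(27,1),(1,2)]⟩,⟨103,[(5,14),(0,14),(2,
  25),(10,25),(6,12),(4,29),(9,8),(6,9),(6,10),(0,12)]⟩⟩,⟨true,(-1),⟨2,[(0,2),(10,0),(12,0),(21,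
  0)]⟩,⟨0,[(30,0)]⟩⟩,⟨false,1,⟨33,[(5,6),(0,2),(20,2),(2,7),(1,5),(4,5),(11,1),(7,16)]⟩,⟨0,[]⟩⟩,
  ⟨false,0,⟨0,[(0,0),(56,0)]⟩,⟨0,[(30,0),(24,0)]⟩⟩,⟨true,0,⟨0,[(55,0)]⟩,⟨0,[(54,0)]⟩⟩,⟨false,0,⟨1,
  [(2,1),(47,0),(6,0)]⟩,⟨1,[(1,1),(49,0),(4,0)]⟩⟩,[.e ⟨false,1,⟨113,[(5,19),(0,14),(23,9),(1,29),
  (13,16),(2,9),(6,41),(2,33)]⟩,⟨0,[]⟩⟩ ⟨false,0,⟨1,[(0,1),(55,0),(0,0)]⟩,⟨0,[(30,0),(24,0)]⟩⟩,.o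
  ⟨false,1,⟨5,[(5,0),(20,2),(3,1),(11,0),(14,2)]⟩,⟨3,[(11,0),(9,0),(20,1),(5,2),(6,0)]⟩⟩,.o ⟨false,
  1,⟨0,[(30,0)]⟩,⟨0,[(2,0)]⟩⟩,.a ⟨true,0,⟨0,[(1,0)]⟩,⟨9,[(0,3),(1,5),(43,1),(3,2),(4,3),(0,4)]⟩⟩
  ⟨false,1,⟨1,[(46,0),(9,0)]⟩,⟨1,[(37,0),(0,0)]⟩⟩ ⟨true,0,⟨1,[(0,1),(55,0),(0,0)]⟩,⟨1,[(11,0),(6,0),
  (11,1),(17,0)]⟩⟩]⟩) (.S ⟨1,0,[-1,1],[1,0,0,0,-1],[-1],(⟨0,[(32,0)]⟩,⟨0,[(33,0)]⟩),⟨0,[(3,0)]⟩,.k,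
  (.r (-1) ⟨17,[(4,1),(0,0),(0,2),(19,8),(5,1),(8,1),(9,4),(4,7)]⟩ ⟨50,[(5,6),(0,2),(4,16),(12,16),
  (2,2),(2,7),(1,5),(4,5),(11,1),(9,16)]⟩),⟨false,1,⟨33,[(5,6),(0,2),(20,2),(2,7),(1,5),(4,5),(11,
  1),(7,16)]⟩,⟨0,[]⟩⟩,⟨true,0,⟨0,[(59,0)]⟩,⟨0,[]⟩⟩,⟨true,0,⟨0,[(55,0)]⟩,⟨0,[(54,0)]⟩⟩,⟨false,0,⟨0,
  [(55,0)]⟩,⟨5,[(5,0),(20,2),(3,1),(11,0),(14,2)]⟩⟩,[.a ⟨true,0,⟨67,[(0,10),(0,56),(9,2),(1,4),(1,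
  5),(4,4),(0,2),(6,5),(12,17),(6,65)]⟩,⟨1,[(2,1),(47,0),(6,0)]⟩⟩ ⟨false,1,⟨113,[(5,19),(0,14),(23,
  9),(1,29),(13,16),(2,9),(6,41),(2,33)]⟩,⟨0,[]⟩⟩ ⟨true,0,⟨0,[(59,0)]⟩,⟨0,[(47,0)]⟩⟩,.o ⟨false,1,⟨1,
  [(0,0),(29,0),(23,0)]⟩,⟨0,[(2,0)]⟩⟩,.o ⟨false,1,⟨0,[(30,0)]⟩,⟨0,[(2,0)]⟩⟩,.e ⟨false,1,⟨1,[(46,0),
  (9,0)]⟩,⟨1,[(37,0),(0,0)]⟩⟩ ⟨false,1,⟨113,[(5,19),(0,14),(23,9),(1,29),(13,16),(2,9),(6,41),(2,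
  33)]⟩,⟨0,[(47,0)]⟩⟩]⟩)) (.R ⟨1,false,false,false,[1,0,0,0,-1],[0,1],[0,1,0,-1],(⟨0,[(31,0)]⟩,⟨0,
  [(32,0)]⟩),(⟨0,[(43,0)]⟩,⟨0,[(42,0)]⟩),⟨0,[(2,0)]⟩,.k,.k,(.r (-1) ⟨17,[(3,1),(0,0),(0,2),(19,8),
  (5,1),(8,1),(9,4),(4,7)]⟩ ⟨50,[(4,6),(0,2),(4,16),(12,16),(2,2),(2,7),(1,5),(4,5),(11,1),(9,
  16)]⟩),(.r (-1) ⟨17,[(3,1),(0,0),(0,2),(19,8),(5,1),(8,1),(9,4),(4,7)]⟩ ⟨50,[(4,6),(0,2),(4,16),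
  (12,16),(2,2),(2,7),(1,5),(4,5),(11,1),(9,16)]⟩),(.r (-2) ⟨227,[(4,76),(0,14),(2,113),(10,113),(6,
  56),(2,123),(1,29),(13,73),(2,9),(6,98),(2,33)]⟩ ⟨2,[(10,1),(9,0),(2,0)]⟩),.k,⟨false,1,⟨7,[(8,3),
  (10,3),(6,1),(14,0),(9,1),(3,2)]⟩,⟨2,[(10,0),(12,0),(30,2),(1,0)]⟩⟩,⟨true,0,⟨0,[(0,0)]⟩,⟨0,[(16,
  0),(12,0),(6,0)]⟩⟩,⟨true,0,⟨0,[(53,0)]⟩,⟨0,[(54,0)]⟩⟩,⟨false,0,⟨2,[(0,2),(9,0),(12,0),(32,0)]⟩,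
  ⟨23,[(2,0),(2,2),(19,11),(3,17),(1,4),(8,6),(8,2),(7,5)]⟩⟩,⟨false,0,⟨0,[]⟩,⟨33,[(4,6),(0,2),(20,
  2),(2,7),(1,5),(4,5),(11,1),(7,16)]⟩⟩,⟨false,0,⟨2,[(0,2),(9,0),(12,0),(30,2),(1,0)]⟩,⟨33,[(2,3),
  (2,1),(6,4),(5,1),(0,4),(5,24),(3,29),(10,7),(4,4)]⟩⟩,[.a ⟨true,0,⟨0,[(54,0)]⟩,⟨19,[(5,0),(19,9),
  (0,0),(3,1),(0,1),(4,1),(3,2),(1,0),(6,2)]⟩⟩ ⟨true,0,⟨0,[(53,0)]⟩,⟨2,[(10,0),(12,0),(32,0)]⟩⟩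
  ⟨false,0,⟨0,[(0,0),(53,0)]⟩,⟨93,[(5,9),(19,46),(0,9),(2,73),(1,19),(4,19),(3,10),(7,2),(0,9)]⟩⟩,
  .o ⟨false,1,⟨1,[(41,0),(12,1),(1,0)]⟩,⟨0,[(53,0)]⟩⟩,.o ⟨false,1,⟨0,[(29,0)]⟩,⟨0,[(1,0)]⟩⟩,.o
  ⟨false,1,⟨1,[(29,1),(6,0),(0,0)]⟩,⟨0,[(0,0)]⟩⟩]⟩)) (.R ⟨0,false,false,true,[0,0,0,0,1],[0,1],[1,1,
  1],(⟨0,[(31,0)]⟩,⟨0,[(30,0)]⟩),(⟨0,[(42,0)]⟩,⟨0,[(41,0)]⟩),⟨1,[(0,1),(1,0),(37,0),(13,0)]⟩,.k,.k,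
  (.r (-1) ⟨103,[(3,14),(0,14),(2,25),(10,25),(6,12),(4,29),(9,8),(6,9),(6,10),(0,12)]⟩ ⟨1,[(6,5),
  (2,6),(3,1),(2,12),(1,5),(7,7),(17,27),(1,36),(2,3)]⟩),(.r (-1) ⟨103,[(3,14),(0,14),(2,25),(10,
  25),(6,12),(4,29),(9,8),(6,9),(6,10),(0,12)]⟩ ⟨1,[(6,5),(2,6),(3,1),(2,12),(1,5),(7,7),(17,27),(1,
  36),(2,3)]⟩),.k,.k,⟨false,1,⟨103,[(3,14),(0,14),(2,25),(10,25),(6,12),(4,29),(9,8),(6,9),(6,10),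
  (0,12)]⟩,⟨0,[(53,0)]⟩⟩,⟨true,1,⟨1,[(0,1),(39,0),(13,0)]⟩,⟨37,[(2,2),(0,15),(7,1),(1,1),(3,31),(0,
  1),(5,11),(1,1),(4,5),(12,1),(11,5)]⟩⟩,⟨false,0,⟨1,[(35,0),(0,0)]⟩,⟨1,[(54,0),(0,0)]⟩⟩,⟨true,0,⟨3,
  [(0,3),(8,0),(9,0),(26,2),(2,1),(3,0)]⟩,⟨1,[(3,0),(20,0)]⟩⟩,⟨false,0,⟨0,[]⟩,⟨0,[]⟩⟩,⟨false,0,⟨0,
  []⟩,⟨0,[]⟩⟩,[.o ⟨false,0,⟨3,[(9,0),(9,0),(20,1),(5,2),(6,0)]⟩,⟨5,[(3,0),(20,2),(3,1),(11,0),(14,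
  2)]⟩⟩,.e ⟨false,0,⟨0,[]⟩,⟨113,[(3,27),(0,20),(23,13),(1,41),(13,0),(2,13),(6,35),(2,1)]⟩⟩ ⟨false,
  1,⟨1,[(0,1),(39,0),(12,1),(0,0)]⟩,⟨21,[(3,10),(7,0),(1,0),(4,0),(5,8),(1,0),(12,2),(4,0)]⟩⟩,.a
  ⟨true,0,⟨0,[(29,0)]⟩,⟨0,[(0,0)]⟩⟩ ⟨false,0,⟨1,[(35,0),(0,0)]⟩,⟨1,[(54,0),(0,0)]⟩⟩ ⟨true,0,⟨3,[(0,
  3),(8,0),(9,0),(20,1),(5,2),(6,0)]⟩,⟨21,[(3,10),(7,0),(1,0),(4,0),(5,8),(1,0),(12,2),(4,0)]⟩⟩,.o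
  ⟨false,0,⟨3,[(3,1),(6,0),(24,0),(4,0),(15,0)]⟩,⟨1,[(0,1),(39,0),(13,0)]⟩⟩]⟩)) (.R ⟨1,false,false,
  false,[0,0,0,0,1],[0,1],[],(⟨0,[(30,0)]⟩,⟨0,[(29,0)]⟩),(⟨0,[(41,0)]⟩,⟨0,[(40,0)]⟩),⟨1,[(0,0),(11,
  0),(12,0),(4,0)]⟩,.k,.k,(.r (-1) ⟨103,[(2,14),(0,14),(2,25),(10,25),(6,12),(4,29),(9,8),(6,9),(6,
  10),(0,12)]⟩ ⟨1,[(5,5),(2,6),(3,1),(2,12),(1,5),(7,7),(17,27),(1,36),(2,3)]⟩),(.r (-1) ⟨103,[(2,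
  14),(0,14),(2,25),(10,25),(6,12),(4,29),(9,8),(6,9),(6,10),(0,12)]⟩ ⟨1,[(5,5),(2,6),(3,1),(2,12),
  (1,5),(7,7),(17,27),(1,36),(2,3)]⟩),(.r (-2) ⟨51,[(2,14),(0,14),(2,25),(10,25),(6,12),(4,29),(9,
  8),(6,9),(6,10),(0,12)]⟩ ⟨0,[(8,0),(6,0),(27,0),(1,0)]⟩),.k,⟨true,1,⟨87,[(2,12),(0,11),(2,21),(10,
  21),(6,10),(2,1),(1,23),(9,6),(6,7),(6,9),(0,10)]⟩,⟨0,[(16,0)]⟩⟩,⟨false,2,⟨0,[(27,0),(25,0)]⟩,⟨1,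
  [(0,0),(0,0),(10,0),(12,0),(4,0)]⟩⟩,⟨false,1,⟨48,[(2,7),(0,5),(23,3),(1,11),(16,3),(7,26),(0,11),
  (0,4)]⟩,⟨0,[]⟩⟩,⟨true,1,⟨0,[(27,0),(24,0)]⟩,⟨89,[(0,77),(0,38),(2,11),(1,9),(3,3),(1,51),(0,9),(3,
  25),(7,51),(19,47),(1,5)]⟩⟩,⟨true,0,⟨1,[(8,0),(6,0),(27,1),(1,2)]⟩,⟨0,[(51,0)]⟩⟩,⟨true,1,⟨0,[(27,
  0),(24,1)]⟩,⟨21,[(0,21),(0,10),(3,3),(0,7),(3,1),(1,15),(0,3),(3,9),(7,19),(13,1),(5,9)]⟩⟩,[.a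
  ⟨true,0,⟨0,[(52,0)]⟩,⟨19,[(3,0),(19,9),(0,0),(3,1),(0,1),(4,1),(3,2),(1,0),(6,2)]⟩⟩ ⟨false,1,⟨113,
  [(2,27),(0,20),(23,13),(1,41),(13,0),(2,13),(6,35),(2,1)]⟩,⟨0,[]⟩⟩ ⟨true,1,⟨0,[(27,0),(24,0)]⟩,
  ⟨19,[(0,17),(0,8),(0,0),(7,4),(1,11),(4,4),(7,11),(18,1),(2,0),(6,3)]⟩⟩,.o ⟨false,1,⟨1,[(39,0),
  (12,1),(1,0)]⟩,⟨0,[(51,0)]⟩⟩,.o ⟨false,0,⟨9,[(0,5),(0,2),(0,1),(9,3),(12,3),(13,2),(13,2)]⟩,⟨0,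
  [(27,0)]⟩⟩,.e ⟨false,1,⟨1,[(53,0),(0,0)]⟩,⟨1,[(34,0),(0,0)]⟩⟩ ⟨false,2,⟨1,[(27,1),(24,1),(0,0),(0,
  0)]⟩,⟨19,[(0,17),(0,8),(0,0),(7,4),(1,11),(4,4),(7,11),(18,1),(2,0),(6,3)]⟩⟩]⟩))))))) (.Q [0,0,0,
  0,1,0,2,2,0,-1,2] (.p true [0,0,1] [1,0,-1] (⟨0,[(31,0)]⟩,⟨0,[(30,0)]⟩) .k 2 (⟨0,[(30,0)]⟩,⟨0,
  [(31,0)]⟩) .k (.r (-1) ⟨0,[(16,1),(30,0)]⟩ ⟨1,[(5,1),(6,0),(2,0),(31,0)]⟩)) (.Q [0,0,0,1,-1,0,-2,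
  -2,0,1,-2] (.p false [0,0,1] [1,0,-1] (⟨0,[(32,0)]⟩,⟨0,[(31,0)]⟩) .k 2 (⟨0,[(31,0)]⟩,⟨0,[(32,
  0)]⟩) .k (.r (-1) ⟨0,[(0,0),(18,0)]⟩ ⟨1,[(6,1),(6,0),(2,0),(31,0)]⟩)) (.R ⟨1,true,false,false,[0,
  0,1],[1,0,-1],[1,1,0,-1,0,0,0,1],(⟨0,[(33,0)]⟩,⟨0,[(32,0)]⟩),(⟨0,[(32,0)]⟩,⟨0,[(33,0)]⟩),⟨0,[(22,
  0)]⟩,.k,.k,.k,.k,(.r (-1) ⟨0,[(1,0),(7,0),(6,0)]⟩ ⟨4,[(7,1),(9,6),(11,0),(0,0),(14,2)]⟩),.k,⟨true,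
  0,⟨2,[(1,0),(0,1),(6,2),(3,1),(2,0),(18,0),(5,0)]⟩,⟨3,[(7,1),(6,0),(2,4),(31,0)]⟩⟩,⟨false,0,⟨0,
  [(16,0),(10,0)]⟩,⟨1,[(1,1),(5,1),(6,0),(2,0),(31,0)]⟩⟩,⟨true,0,⟨0,[(47,0)]⟩,⟨0,[(48,0)]⟩⟩,⟨false,
  0,⟨5,[(0,3),(6,1),(11,0),(0,0),(8,1),(20,3)]⟩,⟨0,[(1,0)]⟩⟩,⟨false,0,⟨0,[]⟩,⟨1,[(23,0),(0,0),(25,
  0)]⟩⟩,⟨true,(-1),⟨0,[(0,0)]⟩,⟨0,[(1,0),(45,0)]⟩⟩,[]⟩) (.Q [0,0,0,2,-1,0,-2,-2,0,1,-2] (.p false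
  [0,0,1] [1,0,-1] (⟨0,[(33,0)]⟩,⟨0,[(32,0)]⟩) .k 2 (⟨0,[(32,0)]⟩,⟨0,[(33,0)]⟩) .k (.r (-1) ⟨0,[(1,
  0),(18,0)]⟩ ⟨1,[(7,1),(6,0),(2,0),(31,0)]⟩)) (.R ⟨1,true,false,false,[0,0,1],[1,1,-1],[0,1,0,0,0,
  0,0,1],(⟨0,[(34,0)]⟩,⟨0,[(33,0)]⟩),(⟨10,[(24,0),(0,0),(7,10),(4,4),(4,1),(0,0)]⟩,⟨0,[(23,0)]⟩),⟨0,
  [(23,0)]⟩,.k,.k,.k,(.r (-1) ⟨0,[(1,0),(15,0),(10,0)]⟩ ⟨4,[(8,1),(9,6),(11,0),(0,0),(14,2)]⟩),(.r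
  (-2) ⟨3,[(1,3),(8,1),(9,0),(0,2),(14,0),(13,2)]⟩ ⟨0,[(15,0),(2,0)]⟩),.k,⟨false,1,⟨0,[(1,0),(15,0),
  (10,0),(13,0)]⟩,⟨3,[(8,1),(6,0),(2,4),(31,0)]⟩⟩,⟨true,0,⟨0,[(17,0),(10,0)]⟩,⟨0,[(1,0),(10,0),(5,
  0)]⟩⟩,⟨true,0,⟨0,[(53,0)]⟩,⟨0,[]⟩⟩,⟨false,0,⟨3,[(0,2),(19,0),(9,1),(20,2)]⟩,⟨0,[(1,0)]⟩⟩,⟨false,0,
  ⟨0,[(49,0)]⟩,⟨3,[(20,1),(3,0),(0,0),(10,0),(14,1)]⟩⟩,⟨true,(-1),⟨0,[(0,0)]⟩,⟨0,[(1,0),(46,0)]⟩⟩,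
  []⟩) (.I [0,0,-2,0,2,-2,1,0,-1] (.I [2,0,-2,-2,1,0,0,-1] (.N [0,2,1,0,-1] 1 ⟨0,[(5,0)]⟩ ⟨0,[(0,
  0)]⟩ (.x (-2) ⟨0,[(1,0)]⟩ ⟨2,[(8,2),(2,0),(13,1),(1,2),(0,2),(8,0),(7,2)]⟩)) (.Q [1,0,0,-1,0,0,0,
  0,1,0,0,1] (.p true [0,0,0,0,1] [] (⟨0,[(29,0)]⟩,⟨0,[(28,0)]⟩) .k 0 (⟨0,[]⟩,⟨0,[]⟩) .k .k) (.Q [0,
  0,0,0,0,-1,0,0,0,0,0,1] (.ed false [1,-1,0,0,1] .k) (.Q [-1,0,0,0,0,0,0,0,-1,1,0,-1] (.p false [0,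
  0,0,0,1] [1] (⟨0,[(31,0)]⟩,⟨0,[(30,0)]⟩) .k 1 (⟨0,[]⟩,⟨0,[]⟩) .k .k) (.S ⟨1,0,[1,1],[0,0,0,0,1],
  [],(⟨0,[(32,0)]⟩,⟨0,[(31,0)]⟩),⟨0,[(1,0)]⟩,.k,(.r (-1) ⟨5,[(2,1),(22,1),(3,1),(11,0),(13,2)]⟩ ⟨2,
  [(8,0),(14,0),(5,0),(0,0),(27,0)]⟩),⟨false,1,⟨4,[(29,1),(0,1),(25,2),(1,0)]⟩,⟨0,[]⟩⟩,⟨true,0,⟨0,
  [(58,0)]⟩,⟨0,[]⟩⟩,⟨true,0,⟨0,[(3,0),(9,0),(31,0),(1,1)]⟩,⟨0,[(53,0)]⟩⟩,⟨false,0,⟨0,[(54,0)]⟩,⟨5,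
  [(2,1),(22,1),(3,1),(11,0),(14,2)]⟩⟩,[.o ⟨false,0,⟨3,[(2,1),(5,0),(8,0),(12,1),(10,1),(5,2)]⟩,⟨1,
  [(0,1),(40,0),(14,0)]⟩⟩,.a ⟨true,0,⟨0,[(30,0)]⟩,⟨0,[(0,0)]⟩⟩ ⟨false,1,⟨1,[(55,0),(0,0)]⟩,⟨0,[(58,
  0)]⟩⟩ ⟨true,0,⟨0,[]⟩,⟨1,[(36,0),(0,0)]⟩⟩,.e ⟨false,1,⟨1,[(29,0),(0,0),(25,0)]⟩,⟨0,[]⟩⟩ ⟨false,0,
  ⟨0,[]⟩,⟨1,[(29,0),(0,0),(25,0)]⟩⟩,.o ⟨false,0,⟨1,[(2,0),(15,0),(11,0),(19,0)]⟩,⟨1,[(0,1),(40,0),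
  (13,0)]⟩⟩]⟩) (.Q [0,0,1,0,-1,0,0,0,1,0,0,1] (.p true [0,0,0,0,1] [] (⟨0,[(32,0)]⟩,⟨0,[(31,0)]⟩)
  .k 0 (⟨0,[]⟩,⟨0,[]⟩) .k .k) (.K ⟨0,[0,0,0,0,1],(-1),(-1),(⟨0,[(33,0)]⟩,⟨0,[(32,0)]⟩),.k,(.r (-1)
  ⟨5,[(3,1),(22,1),(3,1),(11,0),(13,2)]⟩ ⟨2,[(9,0),(14,0),(5,0),(0,0),(27,0)]⟩),(.r 0 ⟨2,[(9,0),(14,
  0),(5,0),(0,0),(27,0)]⟩ ⟨21,[(3,3),(22,3),(3,3),(11,1),(11,9),(1,10),(0,4)]⟩),.k,.k,[⟨19,[(4,6),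
  (0,11),(0,3),(7,10),(0,11),(2,1),(0,2),(4,1),(5,7),(1,11),(16,15),(0,3)]⟩,⟨0,[(0,0)]⟩,⟨0,[(30,0),
  (28,0)]⟩,⟨0,[(0,0),(47,0)]⟩]⟩) (.R ⟨0,false,false,false,[1,-1,-1],[0,0,0,0,1],[],(⟨0,[(28,0)]⟩,
  ⟨10,[(30,0),(0,0),(8,10),(3,4),(4,1),(0,0)]⟩),(⟨0,[(33,0)]⟩,⟨0,[(32,0)]⟩),⟨2,[(15,0),(13,1),(11,
  0),(7,2)]⟩,.k,.k,(.r (-2) ⟨0,[(3,0),(10,0),(15,0),(25,0)]⟩ ⟨0,[(9,0)]⟩),(.r (-1) ⟨13,[(10,3),(3,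
  9),(11,1),(9,3),(3,3),(0,1),(7,1),(6,2),(0,2),(1,1)]⟩ ⟨3,[(8,0),(0,1),(17,0),(2,0),(0,0)]⟩),.k,.k,
  ⟨false,1,⟨9,[(30,3),(0,3),(24,4),(0,0),(1,1)]⟩,⟨0,[]⟩⟩,⟨true,1,⟨0,[(1,0),(35,0),(18,0)]⟩,⟨0,[(0,
  0),(8,0),(3,0),(33,0)]⟩⟩,⟨true,0,⟨3,[(8,0),(0,1),(17,0),(2,0),(0,0)]⟩,⟨0,[(14,0),(33,0)]⟩⟩,⟨false,
  1,⟨5,[(1,2),(6,2),(0,1),(14,1),(6,2),(24,2),(0,1)]⟩,⟨10,[(0,10),(3,0),(8,8),(3,1),(1,1),(4,2),(21,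
  2)]⟩⟩,⟨false,0,⟨0,[]⟩,⟨0,[]⟩⟩,⟨false,0,⟨0,[]⟩,⟨0,[]⟩⟩,[.o ⟨false,0,⟨0,[(1,0)]⟩,⟨1,[(0,0),(29,0),
  (27,0)]⟩⟩,.e ⟨false,1,⟨1,[(56,0),(0,0)]⟩,⟨0,[(59,0)]⟩⟩ ⟨false,2,⟨1,[(1,0),(1,0),(3,0),(16,1),(31,
  2)]⟩,⟨0,[(0,0),(8,0),(3,0)]⟩⟩,.a ⟨true,(-1),⟨0,[(17,0)]⟩,⟨0,[(37,0),(18,0)]⟩⟩ ⟨false,1,⟨1,[(30,0),
  (0,0),(25,0)]⟩,⟨0,[]⟩⟩ ⟨true,1,⟨0,[(1,0),(35,0),(18,0)]⟩,⟨0,[(0,0),(8,0),(3,0)]⟩⟩,.o ⟨false,(-1),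
  ⟨0,[(12,0)]⟩,⟨12,[(8,1),(1,8),(3,1),(6,0),(2,0),(4,2),(10,5),(1,1),(6,6),(6,4)]⟩⟩]⟩))) (.S ⟨1,0,
  [-1,1],[1,0,0,0,-1],[-1],(⟨0,[(30,0)]⟩,⟨0,[(31,0)]⟩),⟨1,[(0,0),(12,0),(12,0),(3,0)]⟩,.k,(.r (-1)
  ⟨21,[(1,3),(22,3),(3,3),(11,1),(11,9),(1,10),(0,4)]⟩ ⟨2,[(7,0),(14,0),(5,0),(0,0),(27,0)]⟩),
  ⟨false,1,⟨1,[(28,0),(0,0),(25,0)]⟩,⟨0,[]⟩⟩,⟨true,0,⟨0,[(57,0)]⟩,⟨0,[]⟩⟩,⟨true,0,⟨0,[(53,0)]⟩,⟨0,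
  [(52,0)]⟩⟩,⟨false,0,⟨0,[(53,0)]⟩,⟨5,[(1,1),(22,1),(3,1),(11,0),(14,2)]⟩⟩,[.o ⟨false,0,⟨0,[(0,0),
  (2,0),(3,0),(3,0),(1,0),(33,0)]⟩,⟨1,[(29,1),(10,0),(14,0)]⟩⟩,.e ⟨false,1,⟨1,[(44,0),(9,0)]⟩,⟨0,
  [(57,0)]⟩⟩ ⟨false,1,⟨9,[(28,3),(0,3),(24,4),(0,0),(1,1)]⟩,⟨0,[]⟩⟩,.a ⟨true,0,⟨7,[(0,7),(1,4),(0,
  7),(7,4),(1,7),(1,2),(28,0),(0,2),(1,7),(0,3)]⟩,⟨0,[(29,0)]⟩⟩ ⟨false,1,⟨4,[(28,1),(0,1),(25,2),(1,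
  0)]⟩,⟨0,[]⟩⟩ ⟨true,0,⟨0,[(57,0)]⟩,⟨0,[]⟩⟩,.o ⟨false,0,⟨0,[(0,0),(2,0),(3,0),(3,0),(1,0),(31,0),(1,
  0)]⟩,⟨1,[(29,1),(10,0),(13,0)]⟩⟩]⟩)) (.R ⟨2,true,false,false,[0,1],[0,0,0,0,1],[2],(⟨0,[]⟩,⟨0,
  []⟩),(⟨0,[(30,0)]⟩,⟨0,[(29,0)]⟩),⟨0,[]⟩,.k,.k,.k,(.r 0 ⟨2,[(6,0),(14,0),(5,0),(0,0),(27,0)]⟩ ⟨21,
  [(7,5),(15,10),(0,2),(12,5),(1,4),(6,3),(6,4)]⟩),.k,.k,⟨true,0,⟨0,[]⟩,⟨1,[(34,0),(0,0)]⟩⟩,⟨false,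
  0,⟨0,[(28,0)]⟩,⟨21,[(0,11),(2,1),(7,3),(1,3),(13,9),(11,0),(13,8)]⟩⟩,⟨true,1,⟨21,[(7,5),(15,10),
  (0,2),(12,5),(1,4),(6,3),(6,4)]⟩,⟨0,[(1,0),(9,0),(33,0)]⟩⟩,⟨false,1,⟨3,[(23,1),(3,0),(0,4),(10,0),
  (14,1)]⟩,⟨0,[(0,0)]⟩⟩,⟨false,1,⟨1,[(53,0),(0,0)]⟩,⟨0,[(55,0)]⟩⟩,⟨true,0,⟨0,[(28,0)]⟩,⟨55,[(0,41),
  (8,4),(0,7),(4,4),(1,12),(9,13),(11,3),(9,14)]⟩⟩,[]⟩))) (.Q [-1,0,0,0,1,0,0,0,-1,0,0,-1] (.p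
  false [0,0,0,0,1] [] (⟨0,[(28,0)]⟩,⟨0,[(27,0)]⟩) .k 0 (⟨0,[]⟩,⟨0,[]⟩) .k .k) (.Q [0,0,0,0,0,-1,0,
  0,0,1,0,-1] (.ed true [0,1,0,0,1] .k) (.Q [0,0,-1,0,0,0,0,0,1,0,0,1] (.p true [0,0,0,0,1] [] (⟨0,
  [(30,0)]⟩,⟨0,[(29,0)]⟩) .k 0 (⟨0,[]⟩,⟨0,[]⟩) .k .k) (.Q [0,0,2,0,-2,0,-1,0,1,0,-1,1] (.p false [0,
  0,1] [0,0,0,0,1] (⟨0,[(38,0)]⟩,⟨0,[(37,0)]⟩) .k 2 (⟨0,[(31,0)]⟩,⟨0,[(30,0)]⟩) .k (.r (-1) ⟨9,[(2,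
  3),(3,4),(18,4),(3,3),(14,0),(12,1)]⟩ ⟨3,[(12,1),(6,0),(2,0),(31,0)]⟩)) (.R ⟨0,false,false,false,
  [1,-1,-1],[1,0,0,0,-1],[-1],(⟨0,[(27,0)]⟩,⟨9,[(3,0),(26,0),(8,9),(3,3),(4,1),(0,0)]⟩),(⟨0,[(31,
  0)]⟩,⟨0,[(32,0)]⟩),⟨2,[(14,0),(13,1),(11,0),(7,2)]⟩,.k,.k,(.r (-2) ⟨33,[(9,17),(3,15),(11,25),(9,
  17),(3,17),(1,6),(6,11),(6,15),(0,8)]⟩ ⟨0,[(8,0)]⟩),(.r (-1) ⟨35,[(9,11),(3,21),(9,1),(1,7),(9,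
  11),(3,11),(8,7),(6,6),(0,4)]⟩ ⟨19,[(3,3),(3,4),(0,9),(17,4),(3,3),(14,0),(12,1)]⟩),.k,.k,⟨false,
  1,⟨1,[(3,0),(26,0),(24,0)]⟩,⟨0,[]⟩⟩,⟨true,2,⟨0,[(3,0),(32,0),(18,0)]⟩,⟨0,[(0,0)]⟩⟩,⟨true,0,⟨19,
  [(3,3),(3,4),(0,9),(17,4),(3,3),(14,0),(12,1)]⟩,⟨0,[(13,0),(33,0)]⟩⟩,⟨false,2,⟨11,[(3,11),(3,8),
  (0,1),(14,7),(2,2),(22,2),(5,5),(0,1)]⟩,⟨0,[(0,0),(12,0),(41,0)]⟩⟩,⟨false,0,⟨0,[]⟩,⟨0,[]⟩⟩,⟨false,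
  0,⟨0,[]⟩,⟨0,[]⟩⟩,[.o ⟨false,1,⟨0,[(3,0)]⟩,⟨3,[(0,0),(0,2),(34,0),(4,1)]⟩⟩,.e ⟨false,1,⟨1,[(45,0),
  (9,0)]⟩,⟨0,[(58,0)]⟩⟩ ⟨false,3,⟨1,[(3,1),(32,1),(18,2),(0,0)]⟩,⟨0,[(0,0),(46,0)]⟩⟩,.a ⟨true,(-1),
  ⟨0,[(16,0)]⟩,⟨0,[(36,0),(18,0)]⟩⟩ ⟨false,1,⟨1,[(3,0),(26,0),(25,0)]⟩,⟨0,[]⟩⟩ ⟨true,2,⟨0,[(3,0),
  (32,0),(18,0)]⟩,⟨0,[(0,0),(46,0)]⟩⟩,.o ⟨false,(-1),⟨0,[(11,0)]⟩,⟨12,[(7,1),(1,8),(3,1),(6,0),(2,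
  0),(4,2),(10,5),(1,1),(6,6),(6,4)]⟩⟩]⟩) (.Q [1,1,0,0,-1,0,0,0,1,0,0,1] (.p true [0,0,0,0,1] []
  (⟨0,[(32,0)]⟩,⟨0,[(31,0)]⟩) .k 0 (⟨0,[]⟩,⟨0,[]⟩) .k .k) (.S ⟨1,0,[-1,1],[1,0,0,0,-1],[-1],(⟨0,
  [(32,0)]⟩,⟨0,[(33,0)]⟩),⟨0,[(3,0)]⟩,.k,(.r (-1) ⟨33,[(1,3),(24,9),(0,1),(3,3),(10,5),(11,13),(1,
  12),(0,6)]⟩ ⟨14,[(1,0),(2,3),(4,5),(14,2),(6,4),(4,2),(0,1)]⟩),⟨false,1,⟨1,[(4,0),(26,0),(25,0)]⟩,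
  ⟨0,[]⟩⟩,⟨true,0,⟨0,[(59,0)]⟩,⟨0,[]⟩⟩,⟨true,0,⟨0,[(55,0)]⟩,⟨0,[(54,0)]⟩⟩,⟨false,0,⟨0,[(55,0)]⟩,⟨3,
  [(4,0),(21,1),(4,0),(10,0),(14,1)]⟩⟩,[.a ⟨true,0,⟨0,[(1,0),(7,0),(3,0)]⟩,⟨0,[(2,0),(44,0)]⟩⟩
  ⟨false,1,⟨65,[(1,19),(25,9),(3,19),(14,7),(4,4),(4,12),(2,15)]⟩,⟨0,[]⟩⟩ ⟨true,0,⟨0,[(59,0)]⟩,⟨0,
  [(47,0)]⟩⟩,.o ⟨false,1,⟨0,[(4,0)]⟩,⟨1,[(0,0),(1,0),(39,0),(4,0)]⟩⟩,.o ⟨false,1,⟨0,[(30,0)]⟩,⟨1,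
  [(0,0),(1,0),(44,0),(3,0)]⟩⟩,.e ⟨false,1,⟨1,[(46,0),(9,0)]⟩,⟨1,[(37,0),(0,0)]⟩⟩ ⟨false,1,⟨65,[(1,
  19),(25,9),(3,19),(14,7),(4,4),(4,12),(2,15)]⟩,⟨0,[(47,0)]⟩⟩]⟩) (.R ⟨2,true,false,false,[0,1],[0,
  0,0,0,1],[1,0,1],(⟨0,[]⟩,⟨0,[]⟩),(⟨0,[(33,0)]⟩,⟨0,[(32,0)]⟩),⟨0,[]⟩,.k,.k,.k,(.r 0 ⟨17,[(1,0),(2,
  4),(4,6),(14,3),(6,5),(4,2),(0,1),(21,0)]⟩ ⟨5,[(1,1),(0,1),(23,2),(0,0),(14,1)]⟩),.k,.k,⟨true,0,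
  ⟨1,[(37,0),(0,0)]⟩,⟨0,[]⟩⟩,⟨false,0,⟨0,[(31,0)]⟩,⟨0,[(0,0),(47,0)]⟩⟩,⟨false,1,⟨3,[(4,0),(21,1),(4,
  0),(10,0),(14,1)]⟩,⟨0,[(55,0)]⟩⟩,⟨true,0,⟨21,[(2,3),(3,3),(5,1),(0,5),(0,1),(16,17),(10,0),(14,
  2)]⟩,⟨1,[(0,1),(8,0),(8,0),(29,2)]⟩⟩,⟨true,0,⟨0,[]⟩,⟨0,[(59,0)]⟩⟩,⟨false,0,⟨0,[(2,0),(44,0)]⟩,⟨0,
  [(4,0)]⟩⟩,[]⟩))) (.R ⟨1,false,false,true,[1,0,0,0,-1],[1,-1],[1,1,1],(⟨0,[(30,0)]⟩,⟨0,[(31,0)]⟩),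
  (⟨0,[(41,0)]⟩,⟨0,[(42,0)]⟩),⟨0,[(1,0)]⟩,.k,.k,(.r (-1) ⟨9,[(2,1),(21,3),(4,1),(10,1),(11,1),(1,4),
  (0,0)]⟩ ⟨2,[(2,0),(4,0),(14,0),(6,0),(27,0)]⟩),(.r 0 ⟨2,[(2,0),(4,0),(14,0),(6,0),(27,0)]⟩ ⟨3,[(2,
  0),(21,1),(4,0),(10,0),(13,1)]⟩),.k,.k,⟨true,(-1),⟨0,[(17,0)]⟩,⟨3,[(2,0),(21,1),(4,0),(10,0),(13,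
  1)]⟩⟩,⟨false,0,⟨0,[(29,0)]⟩,⟨0,[(0,0),(53,0)]⟩⟩,⟨false,0,⟨1,[(35,0),(0,0)]⟩,⟨1,[(44,0),(9,0)]⟩⟩,
  ⟨false,0,⟨17,[(3,5),(0,3),(7,7),(0,1),(0,1),(11,7),(2,11),(1,5),(8,2),(13,4)]⟩,⟨2,[(0,2),(6,0),
  (14,0),(31,2),(0,0)]⟩⟩,⟨true,(-1),⟨1,[(7,0),(8,0),(29,0)]⟩,⟨9,[(2,1),(21,3),(4,1),(10,1),(11,1),
  (1,4),(0,0)]⟩⟩,⟨false,0,⟨0,[(29,0)]⟩,⟨1,[(0,1),(53,0),(0,0)]⟩⟩,[.o ⟨false,0,⟨0,[(52,0)]⟩,⟨5,[(7,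
  1),(14,1),(17,2),(13,2),(0,1)]⟩⟩,.a ⟨true,0,⟨15,[(2,2),(21,7),(4,2),(9,1),(1,1),(6,2)]⟩,⟨0,[(53,
  0)]⟩⟩ ⟨false,0,⟨0,[]⟩,⟨1,[(2,0),(26,0),(24,0)]⟩⟩ ⟨true,0,⟨17,[(3,5),(0,3),(7,7),(0,1),(0,1),(11,
  7),(2,11),(1,5),(8,2),(13,4)]⟩,⟨0,[(0,0),(52,0)]⟩⟩,.e ⟨false,0,⟨1,[(35,0),(0,0)]⟩,⟨1,[(54,0),(0,
  0)]⟩⟩ ⟨false,0,⟨17,[(3,5),(0,3),(7,7),(0,1),(0,1),(11,7),(2,11),(1,5),(8,2),(13,4)]⟩,⟨2,[(0,2),(6,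
  0),(14,0),(31,2),(0,0)]⟩⟩,.o ⟨false,0,⟨0,[(0,0)]⟩,⟨1,[(29,1),(10,0),(13,0)]⟩⟩]⟩)) (.Q [0,0,0,0,0,
  0,0,0,1,-1,0,1] (.p true [0,0,0,0,1] [1] (⟨0,[(30,0)]⟩,⟨0,[(29,0)]⟩) .k 1 (⟨0,[]⟩,⟨0,[]⟩) .k .k)
  (.Q [1,0,0,-1,0,0,1,1,1,-1,1,1] (.p true [0,0,1] [1,0,0,0,-1] (⟨0,[(38,0)]⟩,⟨0,[(37,0)]⟩) .k 2
  (⟨0,[(30,0)]⟩,⟨0,[(31,0)]⟩) .k (.r (-1) ⟨1,[(2,0),(3,0),(18,0),(3,0)]⟩ ⟨0,[(7,0),(4,1),(31,0),(1,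
  1)]⟩)) (.S ⟨1,0,[1,1],[0,0,0,0,1],[1,1,1],(⟨0,[(32,0)]⟩,⟨0,[(31,0)]⟩),⟨1,[(2,0),(11,0),(12,0),(4,
  0)]⟩,.k,(.r (-1) ⟨3,[(3,0),(21,1),(4,0),(10,0),(13,1)]⟩ ⟨2,[(3,0),(4,0),(14,0),(6,0),(27,0)]⟩),
  ⟨false,0,⟨1,[(36,0),(0,0)]⟩,⟨1,[(55,0),(0,0)]⟩⟩,⟨true,0,⟨0,[(58,0)]⟩,⟨0,[]⟩⟩,⟨true,(-1),⟨1,[(8,0),
  (8,0),(29,0)]⟩,⟨3,[(3,0),(21,1),(4,0),(10,0),(13,1)]⟩⟩,⟨false,0,⟨0,[(54,0)]⟩,⟨3,[(3,0),(21,1),(4,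
  0),(10,0),(14,1)]⟩⟩,[.e ⟨false,0,⟨0,[(58,0)]⟩,⟨1,[(55,0),(0,0)]⟩⟩ ⟨false,0,⟨0,[(47,0)]⟩,⟨1,[(3,0),
  (26,0),(25,0)]⟩⟩,.o ⟨false,0,⟨0,[(1,0)]⟩,⟨0,[(3,0)]⟩⟩,.o ⟨false,0,⟨0,[(1,0)]⟩,⟨0,[(29,0)]⟩⟩,.a
  ⟨true,(-1),⟨2,[(0,0),(0,1),(6,0),(3,0),(7,0),(24,0),(3,0)]⟩,⟨1,[(3,1),(45,0),(5,0)]⟩⟩ ⟨false,0,⟨0,
  []⟩,⟨1,[(3,0),(26,0),(25,0)]⟩⟩ ⟨true,0,⟨0,[(47,0)]⟩,⟨1,[(36,0),(0,0)]⟩⟩]⟩) (.R ⟨0,false,false,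
  false,[1,0,0,0,-1],[0,1],[1,1,1],(⟨0,[(31,0)]⟩,⟨0,[(32,0)]⟩),(⟨0,[(43,0)]⟩,⟨0,[(42,0)]⟩),⟨0,[(2,
  0)]⟩,.k,.k,(.r (-1) ⟨9,[(3,1),(21,3),(4,1),(10,1),(11,1),(1,4),(0,0)]⟩ ⟨2,[(3,0),(4,0),(14,0),(6,
  0),(27,0)]⟩),(.r (-1) ⟨9,[(3,1),(21,3),(4,1),(10,1),(11,1),(1,4),(0,0)]⟩ ⟨2,[(3,0),(4,0),(14,0),
  (6,0),(27,0)]⟩),.k,.k,⟨true,0,⟨0,[(53,0)]⟩,⟨2,[(8,0),(14,0),(32,0)]⟩⟩,⟨false,1,⟨0,[(1,0),(53,0)]⟩,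
  ⟨14,[(0,4),(2,9),(1,2),(6,0),(5,6),(6,1),(20,0),(2,4)]⟩⟩,⟨false,0,⟨1,[(36,0),(0,0)]⟩,⟨1,[(45,0),
  (9,0)]⟩⟩,⟨true,0,⟨0,[(1,0),(52,0)]⟩,⟨0,[(0,0),(18,0)]⟩⟩,⟨false,0,⟨0,[]⟩,⟨0,[]⟩⟩,⟨false,0,⟨0,[]⟩,
  ⟨0,[]⟩⟩,[.a ⟨true,0,⟨0,[(54,0)]⟩,⟨15,[(3,2),(21,7),(4,2),(9,1),(1,1),(6,2)]⟩⟩ ⟨false,0,⟨0,[(58,
  0)]⟩,⟨1,[(55,0),(0,0)]⟩⟩ ⟨true,0,⟨0,[(1,0),(52,0)]⟩,⟨6,[(0,2),(2,3),(1,2),(6,2),(5,1),(27,2),(2,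
  1)]⟩⟩,.o ⟨false,1,⟨5,[(8,1),(14,1),(17,2),(13,2),(0,1)]⟩,⟨0,[(53,0)]⟩⟩,.o ⟨false,1,⟨0,[(29,0)]⟩,
  ⟨0,[(1,0)]⟩⟩,.e ⟨false,0,⟨0,[]⟩,⟨1,[(3,0),(26,0),(25,0)]⟩⟩ ⟨false,1,⟨2,[(1,2),(6,0),(14,0),(31,2),
  (0,0)]⟩,⟨6,[(0,2),(2,3),(1,2),(6,2),(5,1),(27,2),(2,1)]⟩⟩]⟩)) (.R ⟨1,false,false,true,[0,0,0,0,1],
  [0,1],[1,1,1],(⟨0,[(31,0)]⟩,⟨0,[(30,0)]⟩),(⟨0,[(42,0)]⟩,⟨0,[(41,0)]⟩),⟨1,[(1,0),(11,0),(12,0),(4,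
  0)]⟩,.k,.k,(.r (-1) ⟨3,[(2,0),(21,1),(4,0),(10,0),(13,1)]⟩ ⟨2,[(2,0),(4,0),(14,0),(6,0),(27,0)]⟩),
  (.r (-1) ⟨3,[(2,0),(21,1),(4,0),(10,0),(13,1)]⟩ ⟨2,[(2,0),(4,0),(14,0),(6,0),(27,0)]⟩),(.r (-2)
  ⟨1,[(2,0),(21,1),(4,0),(10,0),(13,1)]⟩ ⟨2,[(7,1),(11,0),(2,0)]⟩),.k,⟨false,1,⟨3,[(2,0),(21,1),(4,
  0),(10,0),(13,1)]⟩,⟨0,[(53,0)]⟩⟩,⟨true,1,⟨1,[(0,1),(39,0),(13,0)]⟩,⟨24,[(1,2),(1,2),(0,3),(5,2),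
  (0,1),(0,5),(0,1),(3,17),(8,4),(2,21),(15,1)]⟩⟩,⟨false,0,⟨1,[(35,0),(0,0)]⟩,⟨1,[(54,0),(0,0)]⟩⟩,
  ⟨true,0,⟨5,[(0,5),(6,1),(11,1),(20,1),(5,3),(2,0),(4,0)]⟩,⟨11,[(1,2),(1,2),(0,1),(3,2),(2,3),(1,
  0),(12,0),(2,8),(25,1)]⟩⟩,⟨true,(-1),⟨1,[(7,0),(8,0),(29,0)]⟩,⟨3,[(2,0),(21,1),(4,0),(10,0),(13,
  1)]⟩⟩,⟨true,0,⟨3,[(0,3),(6,0),(11,0),(20,1),(5,2),(6,4)]⟩,⟨5,[(1,2),(1,2),(0,1),(3,2),(2,3),(1,0),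
  (12,0),(2,2),(25,1)]⟩⟩,[.o ⟨false,0,⟨3,[(7,0),(11,0),(20,1),(5,2),(6,0)]⟩,⟨3,[(2,0),(21,1),(4,0),
  (10,0),(14,1)]⟩⟩,.e ⟨false,0,⟨0,[]⟩,⟨1,[(2,0),(26,0),(24,0)]⟩⟩ ⟨false,1,⟨1,[(0,1),(39,0),(12,1),
  (0,0)]⟩,⟨11,[(1,2),(1,2),(0,1),(3,2),(2,3),(1,0),(12,0),(2,8),(25,1)]⟩⟩,.a ⟨true,0,⟨0,[(29,0)]⟩,
  ⟨0,[(0,0)]⟩⟩ ⟨false,0,⟨1,[(35,0),(0,0)]⟩,⟨1,[(54,0),(0,0)]⟩⟩ ⟨true,0,⟨3,[(0,3),(6,0),(11,0),(20,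
  1),(5,2),(6,0)]⟩,⟨11,[(1,2),(1,2),(0,1),(3,2),(2,3),(1,0),(12,0),(2,8),(25,1)]⟩⟩,.o ⟨false,0,⟨47,
  [(1,2),(1,2),(0,3),(5,4),(1,7),(0,1),(3,15),(8,4),(2,44),(10,22)]⟩,⟨1,[(0,1),(39,0),(13,
  0)]⟩⟩]⟩))) (.R ⟨2,true,false,true,[0,1],[0,0,0,0,1],[1,1],(⟨0,[]⟩,⟨0,[]⟩),(⟨0,[(29,0)]⟩,⟨0,[(28,
  0)]⟩),⟨0,[]⟩,.k,.k,.k,(.r 0 ⟨2,[(5,0),(14,0),(5,0),(0,0),(27,0)]⟩ ⟨21,[(6,5),(15,10),(0,2),(12,5),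
  (1,4),(6,3),(6,4)]⟩),.k,.k,⟨false,1,⟨1,[(26,0),(0,0),(24,0)]⟩,⟨0,[]⟩⟩,⟨true,(-1),⟨4,[(0,3),(7,0),
  (18,0),(5,0),(20,1)]⟩,⟨0,[(26,0)]⟩⟩,⟨false,1,⟨21,[(6,5),(15,10),(0,2),(12,5),(1,4),(6,3),(6,4)]⟩,
  ⟨2,[(5,0),(14,0),(32,0)]⟩⟩,⟨true,(-1),⟨0,[(0,0),(49,0)]⟩,⟨0,[(26,0),(24,0)]⟩⟩,⟨true,0,⟨0,[(44,
  0)]⟩,⟨1,[(33,0),(0,0)]⟩⟩,⟨false,(-1),⟨0,[(0,0)]⟩,⟨4,[(26,6),(0,1),(25,2),(1,0)]⟩⟩,[]⟩))))) (.Q [0,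
  0,0,1,1,0,2,2,0,-1,2] (.p true [0,0,1] [1,0,-1] (⟨0,[(32,0)]⟩,⟨0,[(31,0)]⟩) .k 2 (⟨0,[(31,0)]⟩,⟨0,
  [(32,0)]⟩) .k (.r (-1) ⟨0,[(17,1),(30,0)]⟩ ⟨1,[(6,1),(6,0),(2,0),(31,0)]⟩)) (.R ⟨1,true,false,
  true,[1,0,-1],[0,0,1],[1,0,0,-1,0,0,0,-1],(⟨0,[(32,0)]⟩,⟨0,[(33,0)]⟩),(⟨0,[(33,0)]⟩,⟨0,[(32,0)]⟩),
  ⟨0,[(21,0)]⟩,.k,.k,.k,.k,(.r (-1) ⟨16,[(3,2),(3,19),(9,6),(1,1),(9,6),(0,3),(2,2),(8,1),(6,10)]⟩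
  ⟨1,[(0,0),(1,0),(6,0),(6,0),(1,0)]⟩),.k,⟨false,1,⟨3,[(7,5),(9,1),(31,2),(0,0)]⟩,⟨8,[(0,4),(1,4),
  (10,2),(2,7),(10,4),(13,3),(3,0)]⟩⟩,⟨true,1,⟨3,[(0,3),(6,5),(6,0),(2,0),(31,0)]⟩,⟨0,[(5,0),(21,
  0)]⟩⟩,⟨false,1,⟨3,[(19,1),(3,0),(0,0),(10,0),(14,1)]⟩,⟨0,[(48,0)]⟩⟩,⟨true,1,⟨0,[(0,0),(46,0)]⟩,⟨0,
  [(1,0)]⟩⟩,⟨true,0,⟨0,[]⟩,⟨0,[(52,0)]⟩⟩,⟨false,1,⟨0,[(0,0)]⟩,⟨1,[(1,0),(5,1),(12,0),(29,0)]⟩⟩,[]⟩)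
  (.Q [0,0,0,0,1,0,2,0,0,-1,2] (.p true [0,0,1] [1,0,-1] (⟨0,[(33,0)]⟩,⟨0,[(32,0)]⟩) .k 2 (⟨0,[(32,
  0)]⟩,⟨0,[(33,0)]⟩) .k (.r (-1) ⟨0,[(18,1),(30,0)]⟩ ⟨1,[(7,1),(6,0),(2,0),(31,0)]⟩)) (.R ⟨0,false,
  false,false,[1,-1,-1],[0,-1,1],[],(⟨0,[(22,0)]⟩,⟨10,[(0,0),(20,0),(12,10),(3,4),(4,1),(0,0)]⟩),
  (⟨0,[(23,0)]⟩,⟨10,[(0,0),(20,0),(11,10),(4,4),(4,1),(0,0)]⟩),⟨2,[(9,0),(13,1),(11,0),(7,2)]⟩,.k,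
  .k,(.r (-2) ⟨7,[(0,2),(7,1),(11,6),(9,5),(5,1),(13,7),(0,2)]⟩ ⟨0,[(3,0)]⟩),.k,.k,.k,⟨false,0,⟨1,
  [(15,0),(2,0),(31,0)]⟩,⟨5,[(10,1),(3,1),(4,3),(16,0),(13,3),(0,0)]⟩⟩,⟨true,1,⟨0,[(0,0)]⟩,⟨0,[(6,
  0),(21,0)]⟩⟩,⟨true,0,⟨3,[(0,0),(2,1),(15,1),(1,0),(28,0)]⟩,⟨0,[(8,0),(33,0)]⟩⟩,⟨false,2,⟨1,[(29,
  3),(6,0),(14,2)]⟩,⟨0,[(2,0)]⟩⟩,⟨false,0,⟨0,[]⟩,⟨0,[]⟩⟩,⟨false,0,⟨0,[]⟩,⟨0,[]⟩⟩,[.o ⟨false,1,⟨1,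
  [(16,1),(19,0),(14,0)]⟩,⟨9,[(2,2),(15,1),(2,0),(8,1),(5,1),(12,7),(0,0)]⟩⟩,.e ⟨false,1,⟨1,[(50,0),
  (0,0)]⟩,⟨0,[(53,0)]⟩⟩ ⟨false,3,⟨4,[(0,0),(3,2),(11,4),(17,2),(1,0),(6,1),(6,1),(0,4)]⟩,⟨0,[(1,0),
  (1,0),(38,0)]⟩⟩,.a ⟨true,(-1),⟨0,[(11,0)]⟩,⟨45,[(0,31),(3,1),(16,9),(12,1),(0,3),(8,10),(5,20)]⟩⟩
  ⟨false,1,⟨1,[(0,0),(20,0),(29,0)]⟩,⟨0,[]⟩⟩ ⟨true,2,⟨23,[(0,6),(3,11),(11,23),(4,0),(12,11),(1,4),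
  (6,7),(7,11)]⟩,⟨0,[(1,0),(1,0),(38,0)]⟩⟩,.o ⟨false,(-1),⟨0,[(6,0)]⟩,⟨4,[(0,0),(3,2),(29,2),(1,0),
  (6,1),(6,1)]⟩⟩]⟩) (.Q [0,0,-2,0,2,0,2,0,0,-1,2] (.p true [0,0,1] [1,0,-1] (⟨0,[(34,0)]⟩,⟨0,[(33,
  0)]⟩) .k 2 (⟨0,[(33,0)]⟩,⟨0,[(34,0)]⟩) .k (.r (-1) ⟨0,[(19,1),(30,0)]⟩ ⟨1,[(8,1),(6,0),(2,0),(31,
  0)]⟩)) (.R ⟨0,false,false,false,[1,-1,-1],[0,0,1],[1,1,1],(⟨0,[(23,0)]⟩,⟨25,[(0,0),(21,1),(9,1),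
  (2,25),(3,10),(4,4),(0,1)]⟩),(⟨0,[(35,0)]⟩,⟨0,[(34,0)]⟩),⟨2,[(10,0),(13,1),(11,0),(7,2)]⟩,.k,.k,
  (.r (-2) ⟨2,[(0,2),(1,0),(6,0),(11,1),(0,1),(14,0)]⟩ ⟨0,[(4,0)]⟩),(.r (-1) ⟨19,[(0,12),(1,7),(6,
  7),(9,5),(1,4),(9,9),(20,1)]⟩ ⟨11,[(1,1),(2,9),(10,3),(4,9),(16,0),(13,8),(0,1)]⟩),.k,.k,⟨true,
  (-1),⟨0,[(13,0)]⟩,⟨1,[(20,1),(30,0),(0,0)]⟩⟩,⟨false,2,⟨0,[(0,0)]⟩,⟨2,[(1,0),(5,0),(4,0),(9,0)]⟩⟩,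
  ⟨true,(-1),⟨0,[(4,0),(44,0)]⟩,⟨0,[(9,0),(41,0)]⟩⟩,⟨false,2,⟨7,[(0,5),(3,5),(12,3),(2,5),(16,0),
  (13,2),(0,5)]⟩,⟨0,[(2,0)]⟩⟩,⟨false,0,⟨0,[]⟩,⟨0,[]⟩⟩,⟨false,0,⟨0,[]⟩,⟨0,[]⟩⟩,[.o ⟨false,1,⟨7,[(0,
  1),(3,1),(12,3),(2,1),(16,2),(13,0),(0,1)]⟩,⟨5,[(3,1),(27,1),(5,0),(14,0)]⟩⟩,.e ⟨false,0,⟨0,[]⟩,
  ⟨1,[(0,0),(21,0)]⟩⟩ ⟨false,3,⟨1,[(0,1),(19,1),(30,0),(0,0)]⟩,⟨0,[(1,0),(11,0)]⟩⟩,.a ⟨true,(-1),⟨0,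
  [(12,0)]⟩,⟨6,[(0,3),(21,0),(9,0),(3,0),(1,0),(6,0)]⟩⟩ ⟨false,0,⟨1,[(32,0),(0,0)]⟩,⟨1,[(51,0),(0,
  0)]⟩⟩ ⟨true,2,⟨0,[(0,0),(19,0)]⟩,⟨0,[(1,0),(11,0)]⟩⟩,.o ⟨false,(-1),⟨0,[(7,0)]⟩,⟨3,[(0,2),(21,0),
  (14,0),(13,0)]⟩⟩]⟩) (.Q [-1,0,1,0,-1,0,-1,0,-1,1,-1,-1] (.p false [0,0,1] [1,0,0,0,-1] (⟨0,[(35,
  0)]⟩,⟨0,[(34,0)]⟩) .k 2 (⟨0,[(27,0)]⟩,⟨0,[(28,0)]⟩) .k (.r (-1) ⟨13,[(5,5),(14,11),(1,3),(2,0),(0,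
  0),(3,1),(4,5),(8,3),(7,0)]⟩ ⟨0,[(4,0),(4,1),(31,0),(1,1)]⟩)) (.Q [-1,0,0,1,0,0,0,0,-1,0,0,-1]
  (.p false [0,0,0,0,1] [] (⟨0,[(29,0)]⟩,⟨0,[(28,0)]⟩) .k 0 (⟨0,[]⟩,⟨0,[]⟩) .k .k) (.R ⟨2,true,
  false,true,[0,1],[0,0,0,0,1],[2,1],(⟨0,[]⟩,⟨0,[]⟩),(⟨0,[(30,0)]⟩,⟨0,[(29,0)]⟩),⟨0,[]⟩,.k,.k,.k,
  (.r 0 ⟨2,[(6,0),(14,0),(5,0),(0,0),(27,0)]⟩ ⟨21,[(7,5),(15,10),(0,2),(12,5),(1,4),(6,3),(6,4)]⟩),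
  .k,.k,⟨true,0,⟨0,[]⟩,⟨1,[(34,0),(0,0)]⟩⟩,⟨false,0,⟨0,[(28,0)]⟩,⟨13,[(0,5),(0,1),(9,1),(5,1),(9,5),
  (11,0),(13,7),(0,0)]⟩⟩,⟨false,1,⟨21,[(7,5),(15,10),(0,2),(12,5),(1,4),(6,3),(6,4)]⟩,⟨0,[(6,0),(4,
  0),(31,0),(1,0)]⟩⟩,⟨true,0,⟨0,[(28,0),(22,0)]⟩,⟨0,[(0,0)]⟩⟩,⟨true,0,⟨0,[(45,0)]⟩,⟨0,[(55,0)]⟩⟩,
  ⟨false,0,⟨0,[(28,0)]⟩,⟨13,[(0,5),(0,1),(9,1),(5,1),(9,5),(11,0),(13,0),(0,7)]⟩⟩,[]⟩) (.R ⟨0,false,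
  false,true,[1,-1,-1],[0,0,0,0,1],[1,1,1],(⟨0,[(25,0)]⟩,⟨10,[(27,0),(0,0),(8,10),(3,4),(4,1),(0,
  0)]⟩),(⟨0,[(30,0)]⟩,⟨0,[(29,0)]⟩),⟨2,[(12,0),(13,1),(11,0),(7,2)]⟩,.k,.k,(.r (-2) ⟨0,[(0,0),(10,
  0),(15,0),(25,0)]⟩ ⟨0,[(6,0)]⟩),(.r (-1) ⟨13,[(7,3),(3,9),(11,1),(9,3),(3,3),(0,1),(7,1),(6,2),(0,
  2),(1,1)]⟩ ⟨27,[(6,13),(0,5),(14,11),(1,3),(2,0),(0,0),(3,1),(4,5),(8,3),(7,0)]⟩),.k,.k,⟨true,0,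
  ⟨1,[(34,0),(0,0)]⟩,⟨0,[]⟩⟩,⟨false,2,⟨4,[(7,2),(18,2),(1,4),(5,1),(4,0),(6,2),(6,2)]⟩,⟨0,[(1,0)]⟩⟩,
  ⟨true,(-1),⟨0,[(6,0),(44,0)]⟩,⟨0,[(11,0),(41,0)]⟩⟩,⟨false,1,⟨3,[(6,1),(0,1),(18,1),(1,3),(3,1),(6,
  0),(6,1),(7,0)]⟩,⟨1,[(1,1),(9,1),(41,0),(0,0)]⟩⟩,⟨false,0,⟨0,[]⟩,⟨0,[]⟩⟩,⟨false,0,⟨0,[]⟩,⟨0,[]⟩⟩,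
  [.o ⟨false,0,⟨3,[(0,1),(5,0),(8,0),(12,1),(10,1),(5,2)]⟩,⟨21,[(1,17),(5,11),(4,11),(14,3),(6,5),
  (8,7),(2,15),(1,0),(5,2)]⟩⟩,.e ⟨false,0,⟨0,[]⟩,⟨1,[(27,0),(0,0),(24,0)]⟩⟩ ⟨false,2,⟨0,[(7,0),(18,
  0),(1,0),(17,0)]⟩,⟨0,[(1,0)]⟩⟩,.a ⟨true,(-1),⟨0,[(14,0)]⟩,⟨0,[(34,0),(18,0)]⟩⟩ ⟨false,0,⟨1,[(34,
  0),(0,0)]⟩,⟨1,[(53,0),(0,0)]⟩⟩ ⟨true,1,⟨4,[(7,2),(10,1),(0,1),(6,2),(1,4),(10,0),(5,0),(0,2)]⟩,⟨0,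
  [(1,0)]⟩⟩,.o ⟨false,(-1),⟨0,[(9,0)]⟩,⟨4,[(7,2),(18,2),(7,1),(4,0),(6,2),(6,2)]⟩⟩]⟩)) (.Q [-1,0,0,
  -1,0,0,0,0,-1,1,0,-1] (.p false [0,0,0,0,1] [1] (⟨0,[(29,0)]⟩,⟨0,[(28,0)]⟩) .k 1 (⟨0,[]⟩,⟨0,[]⟩)
  .k .k) (.I [0,0,-2,0,2,-2,1,0,-1] (.Q [0,0,0,0,0,-1,0,0,0,0,0,1] (.ed false [1,-1,0,0,1] .k) (.S
  ⟨1,0,[1,1],[0,0,0,0,1],[],(⟨0,[(32,0)]⟩,⟨0,[(31,0)]⟩),⟨0,[(0,0)]⟩,.k,(.r (-1) ⟨9,[(3,1),(21,4),(0,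
  0),(2,1),(11,1),(13,3)]⟩ ⟨5,[(3,0),(4,1),(14,1),(2,0),(2,0),(6,0),(21,1)]⟩),⟨false,1,⟨10,[(3,1),
  (22,1),(2,1),(6,1),(19,6),(1,2)]⟩,⟨0,[]⟩⟩,⟨true,0,⟨0,[(58,0)]⟩,⟨0,[]⟩⟩,⟨true,0,⟨0,[(8,0),(4,0),
  (31,0),(1,1)]⟩,⟨0,[(53,0)]⟩⟩,⟨false,0,⟨0,[(54,0)]⟩,⟨5,[(3,0),(21,2),(3,0),(7,0),(3,0),(14,2)]⟩⟩,
  [.o ⟨false,0,⟨16,[(3,16),(0,7),(3,0),(2,1),(5,1),(1,0),(21,3),(9,6)]⟩,⟨5,[(2,5),(5,1),(14,1),(17,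
  2),(13,2),(0,1)]⟩⟩,.a ⟨true,0,⟨0,[(30,0)]⟩,⟨0,[(2,0),(51,0)]⟩⟩ ⟨false,1,⟨1,[(55,0),(0,0)]⟩,⟨0,
  [(58,0)]⟩⟩ ⟨true,0,⟨0,[]⟩,⟨1,[(36,0),(0,0)]⟩⟩,.e ⟨false,1,⟨3,[(3,0),(22,0),(2,0),(6,0),(19,1)]⟩,
  ⟨0,[]⟩⟩ ⟨false,0,⟨0,[]⟩,⟨3,[(3,0),(22,0),(2,0),(6,0),(19,1)]⟩⟩,.o ⟨false,0,⟨20,[(3,8),(0,1),(6,6),
  (1,1),(4,5),(0,1),(10,11),(14,0),(4,6)]⟩,⟨1,[(2,1),(38,0),(12,1),(0,0)]⟩⟩]⟩) (.R ⟨0,false,false,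
  true,[0,0,0,0,1],[0,1],[],(⟨0,[(32,0)]⟩,⟨0,[(31,0)]⟩),(⟨0,[(43,0)]⟩,⟨0,[(42,0)]⟩),⟨0,[(0,0)]⟩,.k,
  .k,(.r (-1) ⟨9,[(3,1),(21,4),(0,0),(2,1),(11,1),(13,3)]⟩ ⟨5,[(3,0),(4,1),(14,1),(2,0),(2,0),(6,0),
  (21,1)]⟩),(.r (-1) ⟨9,[(3,1),(21,4),(0,0),(2,1),(11,1),(13,3)]⟩ ⟨5,[(3,0),(4,1),(14,1),(2,0),(2,
  0),(6,0),(21,1)]⟩),.k,.k,⟨false,2,⟨9,[(3,1),(21,4),(0,0),(2,1),(11,1),(13,8),(0,4)]⟩,⟨1,[(8,0),(8,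
  0),(29,0)]⟩⟩,⟨true,1,⟨15,[(0,7),(0,7),(0,3),(2,2),(1,0),(0,1),(5,7),(14,3),(18,7),(6,1)]⟩,⟨6,[(3,
  1),(0,1),(8,1),(4,5),(0,1),(10,4),(14,0)]⟩⟩,⟨false,1,⟨10,[(3,1),(22,1),(2,1),(6,1),(19,6),(1,2)]⟩,
  ⟨0,[]⟩⟩,⟨true,0,⟨27,[(0,9),(0,9),(0,12),(4,4),(0,16),(5,9),(5,6),(8,4),(11,3),(5,20),(0,9)]⟩,⟨1,
  [(3,1),(0,0),(20,0)]⟩⟩,⟨false,0,⟨0,[]⟩,⟨0,[]⟩⟩,⟨false,0,⟨0,[]⟩,⟨0,[]⟩⟩,[.o ⟨false,0,⟨3,[(8,0),(11,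
  0),(20,1),(5,2),(6,0)]⟩,⟨5,[(3,0),(21,2),(3,0),(7,0),(3,0),(14,2)]⟩⟩,.e ⟨false,1,⟨1,[(55,0),(0,
  0)]⟩,⟨0,[(58,0)]⟩⟩ ⟨false,1,⟨3,[(0,1),(0,1),(0,0),(4,0),(0,1),(5,1),(14,0),(18,1),(5,0),(0,1)]⟩,
  ⟨4,[(3,1),(0,0),(1,0),(12,1),(10,2),(14,0)]⟩⟩,.a ⟨true,0,⟨0,[(30,0)]⟩,⟨0,[(2,0),(51,0)]⟩⟩ ⟨false,
  1,⟨3,[(3,0),(22,0),(2,0),(6,0),(19,1)]⟩,⟨0,[]⟩⟩ ⟨true,0,⟨27,[(0,9),(0,9),(0,12),(4,4),(0,16),(5,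
  9),(5,6),(8,4),(11,3),(5,20),(0,9)]⟩,⟨4,[(3,1),(0,0),(1,0),(12,1),(10,2),(14,0)]⟩⟩,.o ⟨false,0,
  ⟨20,[(3,8),(0,1),(6,6),(1,1),(4,5),(0,1),(10,11),(14,0),(4,6)]⟩,⟨15,[(0,7),(0,7),(0,3),(2,2),(1,
  0),(0,1),(5,7),(14,3),(18,7),(6,1)]⟩⟩]⟩)) (.Q [0,0,0,0,0,-1,0,0,0,0,0,1] (.ed false [1,-1,0,0,1]
  .k) (.S ⟨1,0,[1,1],[0,0,0,0,1],[],(⟨0,[(32,0)]⟩,⟨0,[(31,0)]⟩),⟨0,[(0,0)]⟩,.k,(.r (-1) ⟨9,[(3,1),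
  (21,4),(0,0),(2,1),(11,1),(13,3)]⟩ ⟨5,[(3,0),(4,1),(14,1),(2,0),(2,0),(6,0),(21,1)]⟩),⟨false,1,
  ⟨10,[(3,1),(22,1),(2,1),(6,1),(19,6),(1,2)]⟩,⟨0,[]⟩⟩,⟨true,0,⟨0,[(58,0)]⟩,⟨0,[]⟩⟩,⟨true,0,⟨0,[(8,
  0),(4,0),(31,0),(1,1)]⟩,⟨0,[(53,0)]⟩⟩,⟨false,0,⟨0,[(54,0)]⟩,⟨5,[(3,0),(21,2),(3,0),(7,0),(3,0),
  (14,2)]⟩⟩,[.o ⟨false,0,⟨16,[(3,16),(0,7),(3,0),(2,1),(5,1),(1,0),(21,3),(9,6)]⟩,⟨5,[(2,5),(5,1),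
  (14,1),(17,2),(13,2),(0,1)]⟩⟩,.a ⟨true,0,⟨0,[(30,0)]⟩,⟨0,[(2,0),(51,0)]⟩⟩ ⟨false,1,⟨1,[(55,0),(0,
  0)]⟩,⟨0,[(58,0)]⟩⟩ ⟨true,0,⟨0,[]⟩,⟨1,[(36,0),(0,0)]⟩⟩,.e ⟨false,1,⟨3,[(3,0),(22,0),(2,0),(6,0),
  (19,1)]⟩,⟨0,[]⟩⟩ ⟨false,0,⟨0,[]⟩,⟨3,[(3,0),(22,0),(2,0),(6,0),(19,1)]⟩⟩,.o ⟨false,0,⟨20,[(3,8),(0,
  1),(6,6),(1,1),(4,5),(0,1),(10,11),(14,0),(4,6)]⟩,⟨1,[(2,1),(38,0),(12,1),(0,0)]⟩⟩]⟩) (.S ⟨1,0,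
  [-1,1],[1,0,0,0,-1],[-1],(⟨0,[(31,0)]⟩,⟨0,[(32,0)]⟩),⟨1,[(0,0),(13,0),(12,0),(3,0)]⟩,.k,(.r (-1)
  ⟨17,[(3,1),(21,4),(0,0),(2,1),(11,1),(11,7),(1,7),(0,3)]⟩ ⟨5,[(3,0),(4,1),(14,1),(2,0),(2,0),(6,
  0),(21,1)]⟩),⟨false,1,⟨3,[(3,0),(22,0),(2,0),(6,0),(19,1)]⟩,⟨0,[]⟩⟩,⟨true,0,⟨0,[(58,0)]⟩,⟨0,[]⟩⟩,
  ⟨true,0,⟨0,[(54,0)]⟩,⟨0,[(53,0)]⟩⟩,⟨false,0,⟨0,[(54,0)]⟩,⟨5,[(3,0),(21,2),(3,0),(7,0),(3,0),(14,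
  2)]⟩⟩,[.o ⟨false,0,⟨3,[(2,3),(5,0),(11,0),(20,1),(5,2),(6,0)]⟩,⟨1,[(30,1),(10,0),(14,0)]⟩⟩,.e
  ⟨false,1,⟨1,[(45,0),(9,0)]⟩,⟨0,[(58,0)]⟩⟩ ⟨false,1,⟨35,[(3,9),(22,4),(2,9),(10,4),(1,4),(2,2),(9,
  12),(2,5)]⟩,⟨0,[]⟩⟩,.a ⟨true,0,⟨0,[(2,0),(51,0)]⟩,⟨0,[(30,0)]⟩⟩ ⟨false,1,⟨10,[(3,1),(22,1),(2,1),
  (6,1),(19,6),(1,2)]⟩,⟨0,[]⟩⟩ ⟨true,0,⟨0,[(58,0)]⟩,⟨0,[]⟩⟩,.o ⟨false,0,⟨5,[(2,5),(5,1),(11,0),(2,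
  0),(17,2)]⟩,⟨13,[(3,7),(1,1),(20,1),(3,5),(19,4),(4,2)]⟩⟩]⟩))) (.Q [1,0,0,0,0,0,0,0,1,-1,0,1] (.p
  true [0,0,0,0,1] [1] (⟨0,[(30,0)]⟩,⟨0,[(29,0)]⟩) .k 1 (⟨0,[]⟩,⟨0,[]⟩) .k .k) (.Q [-1,1,1,0,-1,0,
  -1,0,-1,1,-1,-1] (.p false [0,0,1] [1,0,0,0,-1] (⟨0,[(38,0)]⟩,⟨0,[(37,0)]⟩) .k 2 (⟨0,[(30,0)]⟩,⟨0,
  [(31,0)]⟩) .k (.r (-1) ⟨5,[(2,1),(20,3),(1,1),(2,1),(4,1),(20,0),(0,0)]⟩ ⟨0,[(7,0),(4,1),(31,0),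
  (1,1)]⟩)) (.R ⟨0,false,false,false,[1,-1,-1],[0,0,0,0,1],[],(⟨0,[(27,0)]⟩,⟨22,[(3,0),(22,0),(2,0),
  (6,0),(2,22),(3,10),(4,3),(0,1)]⟩),(⟨0,[(32,0)]⟩,⟨0,[(31,0)]⟩),⟨2,[(14,0),(13,1),(11,0),(7,2)]⟩,
  .k,.k,(.r (-2) ⟨8,[(3,5),(2,0),(6,6),(11,4),(0,1),(2,5),(11,0),(13,5)]⟩ ⟨0,[(8,0)]⟩),(.r (-1) ⟨48,
  [(3,9),(9,33),(9,4),(1,9),(3,9),(5,9),(9,6),(9,21),(2,8)]⟩ ⟨11,[(3,1),(4,5),(15,3),(1,1),(2,1),(4,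
  1),(20,0),(0,0)]⟩),.k,.k,⟨false,1,⟨35,[(3,9),(22,4),(2,9),(10,4),(1,4),(2,2),(9,12),(2,5)]⟩,⟨0,
  []⟩⟩,⟨true,1,⟨32,[(1,5),(1,26),(4,1),(10,5),(0,7),(24,6),(9,8)]⟩,⟨0,[(0,0),(45,0)]⟩⟩,⟨true,0,⟨11,
  [(3,1),(4,5),(15,3),(1,1),(2,1),(4,1),(20,0),(0,0)]⟩,⟨0,[(13,0),(33,0)]⟩⟩,⟨false,1,⟨2,[(1,0),(1,
  1),(4,1),(12,0),(33,0),(0,1)]⟩,⟨1,[(0,1),(12,1),(41,0),(0,0)]⟩⟩,⟨false,0,⟨0,[]⟩,⟨0,[]⟩⟩,⟨false,0,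
  ⟨0,[]⟩,⟨0,[]⟩⟩,[.o ⟨false,0,⟨0,[(1,0)]⟩,⟨12,[(0,1),(19,1),(0,1),(7,10),(15,2),(4,0),(4,1)]⟩⟩,.e
  ⟨false,1,⟨1,[(55,0),(0,0)]⟩,⟨0,[(58,0)]⟩⟩ ⟨false,2,⟨1,[(3,1),(51,0),(0,0)]⟩,⟨0,[(0,0)]⟩⟩,.a ⟨true,
  (-1),⟨0,[(16,0)]⟩,⟨0,[(36,0),(18,0)]⟩⟩ ⟨false,1,⟨3,[(3,0),(22,0),(2,0),(6,0),(19,1)]⟩,⟨0,[]⟩⟩
  ⟨true,1,⟨0,[(3,0)]⟩,⟨0,[(0,0)]⟩⟩,.o ⟨false,(-1),⟨0,[(11,0)]⟩,⟨4,[(9,2),(18,2),(7,1),(4,0),(6,2),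
  (6,2)]⟩⟩]⟩) (.Q [0,0,0,0,0,1,0,0,0,0,0,-1] (.ed true [1,-1,0,0,1] .k) (.R ⟨0,false,false,false,[0,
  0,0,0,1],[0,1],[],(⟨0,[(33,0)]⟩,⟨0,[(32,0)]⟩),(⟨0,[(44,0)]⟩,⟨0,[(43,0)]⟩),⟨0,[(0,0)]⟩,.k,.k,(.r
  (-1) ⟨9,[(4,1),(21,4),(0,0),(2,1),(11,1),(13,3)]⟩ ⟨5,[(4,0),(4,1),(14,1),(2,0),(2,0),(6,0),(21,
  1)]⟩),(.r (-1) ⟨9,[(4,1),(21,4),(0,0),(2,1),(11,1),(13,3)]⟩ ⟨5,[(4,0),(4,1),(14,1),(2,0),(2,0),(6,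
  0),(21,1)]⟩),.k,.k,⟨true,1,⟨9,[(4,1),(21,4),(0,0),(2,1),(11,1),(13,3)]⟩,⟨0,[(19,0)]⟩⟩,⟨false,2,⟨0,
  [(30,0),(25,0)]⟩,⟨0,[(1,0),(7,0),(3,0)]⟩⟩,⟨false,1,⟨10,[(4,1),(22,1),(2,1),(6,1),(19,6),(1,2)]⟩,
  ⟨0,[]⟩⟩,⟨true,1,⟨0,[(30,0),(24,0)]⟩,⟨22,[(1,16),(0,5),(2,10),(3,1),(3,5),(6,10),(0,6),(26,15),(1,
  2)]⟩⟩,⟨false,0,⟨0,[]⟩,⟨0,[]⟩⟩,⟨false,0,⟨0,[]⟩,⟨0,[]⟩⟩,[.a ⟨true,0,⟨0,[(55,0)]⟩,⟨37,[(4,2),(21,18),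
  (0,2),(2,2),(6,2),(3,6),(1,6),(6,5)]⟩⟩ ⟨false,1,⟨53,[(4,19),(22,9),(2,19),(10,3),(1,3),(6,2),(5,
  16)]⟩,⟨0,[]⟩⟩ ⟨true,1,⟨0,[(30,0),(24,0)]⟩,⟨223,[(1,213),(3,162),(7,27),(1,12),(4,139),(0,78),(2,
  32),(3,12),(2,9),(9,38),(8,4)]⟩⟩,.o ⟨false,1,⟨5,[(9,1),(14,1),(17,2),(13,2),(0,1)]⟩,⟨0,[(54,0)]⟩⟩,
  .o ⟨false,0,⟨142,[(1,31),(0,110),(2,18),(3,1),(5,12),(4,5),(0,7),(6,12),(12,38),(6,17),(2,15)]⟩,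
  ⟨0,[(30,0)]⟩⟩,.e ⟨false,1,⟨1,[(56,0),(0,0)]⟩,⟨1,[(37,0),(0,0)]⟩⟩ ⟨false,2,⟨2,[(9,0),(14,0),(5,2),
  (25,2),(0,0)]⟩,⟨223,[(1,213),(3,162),(7,27),(1,12),(4,139),(0,78),(2,32),(3,12),(2,9),(9,38),(8,
  4)]⟩⟩]⟩) (.R ⟨1,false,false,false,[0,0,0,0,1],[0,1],[],(⟨0,[(33,0)]⟩,⟨0,[(32,0)]⟩),(⟨0,[(44,0)]⟩,
  ⟨0,[(43,0)]⟩),⟨0,[(0,0)]⟩,.k,.k,(.r (-1) ⟨9,[(4,1),(21,4),(0,0),(2,1),(11,1),(13,3)]⟩ ⟨5,[(4,0),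
  (4,1),(14,1),(2,0),(2,0),(6,0),(21,1)]⟩),(.r (-1) ⟨9,[(4,1),(21,4),(0,0),(2,1),(11,1),(13,3)]⟩ ⟨5,
  [(4,0),(4,1),(14,1),(2,0),(2,0),(6,0),(21,1)]⟩),(.r (-2) ⟨4,[(4,1),(21,4),(0,0),(2,1),(11,1),(13,
  3)]⟩ ⟨2,[(9,1),(11,0),(2,0)]⟩),.k,⟨true,1,⟨9,[(4,1),(21,4),(0,0),(2,1),(11,1),(13,3)]⟩,⟨0,[(19,
  0)]⟩⟩,⟨false,2,⟨0,[(30,0),(25,0)]⟩,⟨0,[(1,0),(7,0),(3,0)]⟩⟩,⟨false,1,⟨10,[(4,1),(22,1),(2,1),(6,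
  1),(19,6),(1,2)]⟩,⟨0,[]⟩⟩,⟨true,1,⟨0,[(30,0),(24,0)]⟩,⟨22,[(1,16),(0,5),(2,10),(3,1),(3,5),(6,10),
  (0,6),(26,15),(1,2)]⟩⟩,⟨true,0,⟨0,[(9,0),(4,0),(31,0),(1,1)]⟩,⟨0,[(54,0)]⟩⟩,⟨true,1,⟨0,[(30,0),
  (24,1)]⟩,⟨2,[(1,2),(3,1),(7,0),(4,0),(1,1),(27,1)]⟩⟩,[.a ⟨true,0,⟨0,[(55,0)]⟩,⟨37,[(4,2),(21,18),
  (0,2),(2,2),(6,2),(3,6),(1,6),(6,5)]⟩⟩ ⟨false,1,⟨53,[(4,19),(22,9),(2,19),(10,3),(1,3),(6,2),(5,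
  16)]⟩,⟨0,[]⟩⟩ ⟨true,1,⟨0,[(30,0),(24,0)]⟩,⟨223,[(1,213),(3,162),(7,27),(1,12),(4,139),(0,78),(2,
  32),(3,12),(2,9),(9,38),(8,4)]⟩⟩,.o ⟨false,1,⟨5,[(9,1),(14,1),(17,2),(13,2),(0,1)]⟩,⟨0,[(54,0)]⟩⟩,
  .o ⟨false,0,⟨142,[(1,31),(0,110),(2,18),(3,1),(5,12),(4,5),(0,7),(6,12),(12,38),(6,17),(2,15)]⟩,
  ⟨0,[(30,0)]⟩⟩,.e ⟨false,1,⟨1,[(56,0),(0,0)]⟩,⟨1,[(37,0),(0,0)]⟩⟩ ⟨false,2,⟨2,[(9,0),(14,0),(5,2),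
  (25,2),(0,0)]⟩,⟨223,[(1,213),(3,162),(7,27),(1,12),(4,139),(0,78),(2,32),(3,12),(2,9),(9,38),(8,
  4)]⟩⟩]⟩))) (.R ⟨2,true,false,true,[0,1],[1,0,0,0,-1],[1,1],(⟨0,[]⟩,⟨0,[]⟩),(⟨0,[(30,0)]⟩,⟨0,[(31,
  0)]⟩),⟨0,[]⟩,.k,.k,.k,(.r 0 ⟨5,[(2,0),(4,1),(14,1),(2,0),(2,0),(6,0),(21,1)]⟩ ⟨17,[(2,1),(21,4),
  (0,0),(2,1),(11,1),(11,7),(1,7),(0,3)]⟩),.k,.k,⟨true,0,⟨0,[]⟩,⟨0,[(56,0)]⟩⟩,⟨false,0,⟨0,[(0,0)]⟩,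
  ⟨13,[(2,7),(1,1),(20,1),(3,5),(19,4),(4,2)]⟩⟩,⟨false,1,⟨9,[(2,1),(21,4),(0,0),(2,1),(11,1),(13,
  3)]⟩,⟨2,[(7,0),(14,0),(32,0)]⟩⟩,⟨true,0,⟨0,[(0,0),(51,0)]⟩,⟨0,[(1,0)]⟩⟩,⟨true,0,⟨0,[(46,0)]⟩,⟨1,
  [(35,0),(0,0)]⟩⟩,⟨false,0,⟨0,[(0,0)]⟩,⟨1,[(29,1),(10,0),(14,0)]⟩⟩,[]⟩)))))))))

theorem ok50 : chk K t50 r35 = true := by decide +kernel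

noncomputable def t52 : Tre :=
  (.Q [-1,0,0,1,0,0,0,0,-1,0,0,-1] (.p false [0,0,0,0,1] [] (⟨0,[(22,0)]⟩,⟨0,[(21,0)]⟩) .k 0 (⟨0,
  []⟩,⟨0,[]⟩) .k .k) (.R ⟨2,true,false,true,[0,1],[0,0,0,0,1],[2,1],(⟨0,[]⟩,⟨0,[]⟩),(⟨0,[(23,0)]⟩,
  ⟨0,[(22,0)]⟩),⟨0,[]⟩,.k,.k,.k,(.r 0 ⟨1,[(14,0),(0,0),(29,0),(3,0)]⟩ ⟨15,[(1,3),(8,3),(6,1),(2,4),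
  (0,4),(10,0),(13,3),(0,1)]⟩),.k,.k,⟨true,0,⟨0,[]⟩,⟨1,[(27,0),(0,0)]⟩⟩,⟨false,0,⟨0,[(21,0)]⟩,⟨17,
  [(0,9),(0,1),(4,1),(3,1),(9,7),(11,0),(13,5),(0,0)]⟩⟩,⟨false,1,⟨15,[(1,3),(8,3),(6,1),(2,4),(0,4),
  (10,0),(13,3),(0,1)]⟩,⟨1,[(9,0),(26,0),(8,0)]⟩⟩,⟨true,0,⟨0,[(21,0),(22,0)]⟩,⟨0,[(0,0)]⟩⟩,⟨true,0,
  ⟨0,[(38,0)]⟩,⟨0,[(48,0)]⟩⟩,⟨false,0,⟨0,[(21,0)]⟩,⟨13,[(0,7),(2,1),(6,1),(9,5),(11,0),(14,8)]⟩⟩,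
  []⟩) (.I [0,0,-2,0,1,-2,0,0,-2] (.S ⟨1,0,[1,1],[0,0,0,0,1],[],(⟨0,[(24,0)]⟩,⟨0,[(23,0)]⟩),⟨1,[(0,
  0),(0,0),(8,0),(11,0)]⟩,.k,(.r (-1) ⟨25,[(1,9),(0,3),(8,3),(6,1),(2,9),(11,0),(13,8),(0,1)]⟩ ⟨1,
  [(15,0),(0,0),(29,0),(3,0)]⟩),⟨false,1,⟨4,[(21,1),(0,1),(25,2),(1,0)]⟩,⟨0,[]⟩⟩,⟨true,0,⟨0,[(50,
  0)]⟩,⟨0,[]⟩⟩,⟨true,0,⟨0,[(10,0),(26,0),(1,1)]⟩,⟨0,[(45,0)]⟩⟩,⟨false,0,⟨0,[(46,0)]⟩,⟨5,[(1,1),(15,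
  1),(3,1),(11,0),(14,2)]⟩⟩,[.o ⟨false,0,⟨1,[(1,0),(8,0),(11,0),(10,0),(5,1)]⟩,⟨17,[(0,6),(20,3),(1,
  13),(8,1),(4,1),(0,13),(1,3),(1,4)]⟩⟩,.a ⟨true,0,⟨0,[(22,0)]⟩,⟨3,[(0,1),(9,1),(6,0),(5,3),(8,0),
  (7,0)]⟩⟩ ⟨false,1,⟨1,[(47,0),(0,0)]⟩,⟨0,[(50,0)]⟩⟩ ⟨true,0,⟨0,[]⟩,⟨1,[(28,0),(0,0)]⟩⟩,.e ⟨false,1,
  ⟨1,[(21,0),(0,0),(25,0)]⟩,⟨0,[]⟩⟩ ⟨false,0,⟨0,[]⟩,⟨1,[(21,0),(0,0),(25,0)]⟩⟩,.o ⟨false,0,⟨1,[(1,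
  0),(8,0),(11,0),(19,0)]⟩,⟨7,[(0,2),(20,1),(1,5),(9,1),(6,1),(6,0)]⟩⟩]⟩) (.Q [0,0,1,0,0,0,0,0,-1,1,
  0,-1] (.p false [0,0,0,0,1] [1] (⟨0,[(24,0)]⟩,⟨0,[(23,0)]⟩) .k 1 (⟨0,[]⟩,⟨0,[]⟩) .k .k) (.Q [0,0,
  0,0,0,0,0,0,1,-1,0,1] (.p true [0,0,0,0,1] [1] (⟨0,[(25,0)]⟩,⟨0,[(24,0)]⟩) .k 1 (⟨0,[]⟩,⟨0,[]⟩)
  .k .k) (.Q [0,0,0,0,0,-1,0,0,0,1,0,-1] (.ed true [0,1,0,0,1] .k) (.Q [0,0,0,0,0,0,1,0,1,-1,1,1]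
  (.p true [0,0,1] [1,0,0,0,-1] (⟨0,[(34,0)]⟩,⟨0,[(33,0)]⟩) .k 2 (⟨0,[(26,0)]⟩,⟨0,[(27,0)]⟩) .k (.r
  (-1) ⟨1,[(19,1),(4,0),(0,0),(24,0)]⟩ ⟨0,[(5,0),(7,1),(26,0),(1,1)]⟩)) (.R ⟨1,false,false,false,[1,
  0,0,0,-1],[1,-1],[-1],(⟨0,[(27,0)]⟩,⟨0,[(28,0)]⟩),(⟨0,[(38,0)]⟩,⟨0,[(39,0)]⟩),⟨0,[(1,0)]⟩,.k,.k,
  (.r (-1) ⟨165,[(5,37),(0,31),(8,31),(6,15),(2,37),(11,7),(13,50),(0,36),(1,41)]⟩ ⟨1,[(19,0),(0,0),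
  (29,0),(3,0)]⟩),(.r 0 ⟨1,[(19,0),(0,0),(29,0),(3,0)]⟩ ⟨25,[(5,9),(0,3),(8,3),(6,1),(2,9),(11,0),
  (13,8),(0,1)]⟩),.k,.k,⟨false,0,⟨0,[(14,0),(26,0),(1,1)]⟩,⟨25,[(5,9),(0,3),(8,3),(6,1),(2,9),(11,
  0),(13,8),(0,1)]⟩⟩,⟨true,(-1),⟨0,[(0,0),(11,0)]⟩,⟨0,[(25,0)]⟩⟩,⟨false,1,⟨1,[(25,0),(0,0),(25,0)]⟩,
  ⟨0,[]⟩⟩,⟨false,0,⟨0,[(0,0),(10,0),(30,0)]⟩,⟨0,[(25,0),(24,0)]⟩⟩,⟨true,0,⟨0,[(50,0)]⟩,⟨0,[(49,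
  0)]⟩⟩,⟨false,0,⟨1,[(2,1),(42,0),(6,0)]⟩,⟨1,[(3,1),(42,0),(4,0)]⟩⟩,[.e ⟨false,1,⟨9,[(25,3),(0,3),
  (24,4),(0,0),(1,1)]⟩,⟨0,[]⟩⟩ ⟨false,0,⟨0,[(0,0),(10,0)]⟩,⟨0,[(25,0),(24,0)]⟩⟩,.o ⟨false,1,⟨5,[(5,
  1),(15,1),(3,1),(11,0),(14,2)]⟩,⟨1,[(14,0),(22,0),(5,1),(6,0)]⟩⟩,.o ⟨false,1,⟨0,[(25,0)]⟩,⟨0,[(2,
  0)]⟩⟩,.a ⟨true,0,⟨0,[(3,0)]⟩,⟨0,[(0,0),(28,0)]⟩⟩ ⟨false,1,⟨1,[(41,0),(9,0)]⟩,⟨1,[(32,0),(0,0)]⟩⟩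
  ⟨true,0,⟨0,[(0,0),(10,0)]⟩,⟨0,[(14,0),(10,0),(17,0)]⟩⟩]⟩) (.S ⟨1,0,[-1,1],[1,0,0,0,-1],[-1],(⟨0,
  [(27,0)]⟩,⟨0,[(28,0)]⟩),⟨0,[(1,0)]⟩,.k,(.r (-1) ⟨165,[(5,37),(0,31),(8,31),(6,15),(2,37),(11,7),
  (13,50),(0,36),(1,41)]⟩ ⟨1,[(19,0),(0,0),(29,0),(3,0)]⟩),⟨false,1,⟨1,[(25,0),(0,0),(25,0)]⟩,⟨0,
  []⟩⟩,⟨true,0,⟨0,[(54,0)]⟩,⟨0,[]⟩⟩,⟨true,0,⟨0,[(50,0)]⟩,⟨0,[(49,0)]⟩⟩,⟨false,0,⟨0,[(50,0)]⟩,⟨5,[(5,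
  1),(15,1),(3,1),(11,0),(14,2)]⟩⟩,[.a ⟨true,0,⟨1,[(0,0),(2,0),(12,0),(0,0),(33,0)]⟩,⟨1,[(2,1),(42,
  0),(6,0)]⟩⟩ ⟨false,1,⟨9,[(25,3),(0,3),(24,4),(0,0),(1,1)]⟩,⟨0,[]⟩⟩ ⟨true,0,⟨0,[(54,0)]⟩,⟨0,[(42,
  0)]⟩⟩,.o ⟨false,1,⟨9,[(0,1),(14,1),(0,1),(8,7),(15,1),(4,0),(3,1),(0,0)]⟩,⟨0,[(2,0)]⟩⟩,.o ⟨false,
  1,⟨0,[(25,0)]⟩,⟨0,[(2,0)]⟩⟩,.e ⟨false,1,⟨1,[(41,0),(9,0)]⟩,⟨1,[(32,0),(0,0)]⟩⟩ ⟨false,1,⟨9,[(25,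
  3),(0,3),(24,4),(0,0),(1,1)]⟩,⟨0,[(42,0)]⟩⟩]⟩)) (.Q [0,0,0,0,1,0,1,0,-1,0,1,-1] (.p true [0,0,1]
  [0,0,0,0,1] (⟨0,[(34,0)]⟩,⟨0,[(33,0)]⟩) .k 2 (⟨0,[(27,0)]⟩,⟨0,[(26,0)]⟩) .k (.r (-1) ⟨1,[(19,1),
  (4,0),(0,0),(24,0)]⟩ ⟨2,[(5,0),(9,0),(2,0)]⟩)) (.Q [0,1,-1,0,0,0,-1,-1,-1,1,-1,-1] (.p false [0,0,
  1] [1,0,0,0,-1] (⟨0,[(35,0)]⟩,⟨0,[(34,0)]⟩) .k 2 (⟨0,[(27,0)]⟩,⟨0,[(28,0)]⟩) .k (.r (-1) ⟨1,[(20,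
  1),(4,0),(0,0),(24,0)]⟩ ⟨0,[(6,0),(7,1),(26,0),(1,1)]⟩)) (.R ⟨0,false,false,false,[1,0,0,0,-1],[0,
  1],[-1],(⟨0,[(28,0)]⟩,⟨0,[(29,0)]⟩),(⟨0,[(40,0)]⟩,⟨0,[(39,0)]⟩),⟨0,[(2,0)]⟩,.k,.k,(.r (-1) ⟨165,
  [(6,37),(0,31),(8,31),(6,15),(2,37),(11,7),(13,50),(0,36),(1,41)]⟩ ⟨1,[(20,0),(0,0),(29,0),(3,
  0)]⟩),(.r (-1) ⟨165,[(6,37),(0,31),(8,31),(6,15),(2,37),(11,7),(13,50),(0,36),(1,41)]⟩ ⟨1,[(20,0),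
  (0,0),(29,0),(3,0)]⟩),.k,.k,⟨true,1,⟨165,[(6,37),(0,31),(8,31),(6,15),(2,37),(11,7),(13,50),(0,
  36),(1,41)]⟩,⟨0,[(15,0)]⟩⟩,⟨false,1,⟨0,[(3,0),(48,0)]⟩,⟨0,[(4,0)]⟩⟩,⟨false,1,⟨1,[(26,0),(0,0),(25,
  0)]⟩,⟨0,[]⟩⟩,⟨true,0,⟨0,[(3,0),(47,0)]⟩,⟨5,[(0,4),(3,0),(10,1),(0,4),(25,1),(8,1)]⟩⟩,⟨false,0,⟨0,
  []⟩,⟨0,[]⟩⟩,⟨false,0,⟨0,[]⟩,⟨0,[]⟩⟩,[.a ⟨true,0,⟨0,[(51,0)]⟩,⟨13,[(1,1),(20,6),(0,0),(3,1),(9,1),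
  (1,1),(6,1)]⟩⟩ ⟨false,1,⟨9,[(26,3),(0,3),(24,4),(0,0),(1,1)]⟩,⟨0,[]⟩⟩ ⟨true,0,⟨0,[(3,0),(47,0)]⟩,
  ⟨1,[(0,0),(3,0),(11,0),(26,1)]⟩⟩,.o ⟨false,1,⟨1,[(38,0),(12,1),(1,0)]⟩,⟨0,[(50,0)]⟩⟩,.o ⟨false,1,
  ⟨0,[(26,0)]⟩,⟨0,[(3,0)]⟩⟩,.e ⟨false,1,⟨1,[(42,0),(9,0)]⟩,⟨1,[(33,0),(0,0)]⟩⟩ ⟨false,1,⟨1,[(3,1),
  (47,1),(0,0),(0,0)]⟩,⟨1,[(0,0),(3,0),(11,0),(26,1)]⟩⟩]⟩) (.K ⟨0,[0,0,0,0,1],(-1),(-1),(⟨0,[(29,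
  0)]⟩,⟨0,[(28,0)]⟩),.k,(.r (-1) ⟨25,[(6,9),(0,3),(8,3),(6,1),(2,9),(11,0),(13,8),(0,1)]⟩ ⟨1,[(20,
  0),(0,0),(29,0),(3,0)]⟩),(.r 0 ⟨1,[(20,0),(0,0),(29,0),(3,0)]⟩ ⟨165,[(6,37),(0,31),(8,31),(6,15),
  (2,37),(11,7),(13,50),(0,36),(1,41)]⟩),.k,.k,[⟨0,[(1,0)]⟩,⟨12,[(0,8),(2,3),(5,2),(3,1),(3,5),(12,
  3),(15,1)]⟩,⟨0,[(26,0),(28,0)]⟩,⟨10,[(0,2),(2,7),(5,1),(3,0),(1,2),(1,0),(26,10),(1,3)]⟩]⟩)) (.R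
  ⟨0,false,false,false,[1,0,0,0,-1],[1,-1],[],(⟨0,[(27,0)]⟩,⟨0,[(28,0)]⟩),(⟨0,[(38,0)]⟩,⟨0,[(39,
  0)]⟩),⟨0,[(1,0)]⟩,.k,.k,(.r (-1) ⟨165,[(5,37),(0,31),(8,31),(6,15),(2,37),(11,7),(13,50),(0,36),
  (1,41)]⟩ ⟨1,[(19,0),(0,0),(29,0),(3,0)]⟩),(.r 0 ⟨1,[(19,0),(0,0),(29,0),(3,0)]⟩ ⟨25,[(5,9),(0,3),
  (8,3),(6,1),(2,9),(11,0),(13,8),(0,1)]⟩),.k,.k,⟨false,0,⟨0,[(50,0)]⟩,⟨25,[(5,9),(0,3),(8,3),(6,1),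
  (2,9),(11,0),(13,8),(0,1)]⟩⟩,⟨true,(-1),⟨0,[(0,0),(31,0)]⟩,⟨0,[(25,0)]⟩⟩,⟨true,0,⟨0,[]⟩,⟨0,[(54,
  0)]⟩⟩,⟨false,0,⟨2,[(0,0),(1,1),(6,0),(5,0),(29,0),(6,1)]⟩,⟨0,[(25,0),(24,0)]⟩⟩,⟨false,0,⟨0,[]⟩,⟨0,
  []⟩⟩,⟨false,0,⟨0,[]⟩,⟨0,[]⟩⟩,[.e ⟨false,1,⟨1,[(25,0),(0,0),(24,0)]⟩,⟨0,[]⟩⟩ ⟨false,0,⟨9,[(0,3),(1,
  5),(3,3),(10,1),(12,1),(10,1),(3,2),(5,0)]⟩,⟨0,[(25,0),(24,0)]⟩⟩,.o ⟨false,1,⟨5,[(5,1),(15,1),(3,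
  1),(11,0),(14,2)]⟩,⟨1,[(14,0),(22,0),(5,1),(6,0)]⟩⟩,.o ⟨false,1,⟨0,[(25,0)]⟩,⟨0,[(2,0)]⟩⟩,.a
  ⟨true,0,⟨0,[(3,0)]⟩,⟨3,[(0,1),(1,1),(29,1),(12,0),(5,2)]⟩⟩ ⟨false,1,⟨1,[(51,0),(0,0)]⟩,⟨1,[(32,0),
  (0,0)]⟩⟩ ⟨true,0,⟨9,[(0,3),(1,5),(3,3),(10,1),(12,1),(10,1),(3,2),(5,0)]⟩,⟨0,[(14,0),(10,0),(17,
  0)]⟩⟩]⟩))) (.Q [0,0,0,0,0,-1,0,0,0,1,0,-1] (.ed true [0,1,0,0,1] .k) (.Q [-1,1,0,0,0,0,0,0,-1,0,0,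
  -1] (.p false [0,0,0,0,1] [] (⟨0,[(27,0)]⟩,⟨0,[(26,0)]⟩) .k 0 (⟨0,[]⟩,⟨0,[]⟩) .k .k) (.S ⟨1,0,[-1,
  1],[1,0,0,0,-1],[-1],(⟨0,[(27,0)]⟩,⟨0,[(28,0)]⟩),⟨0,[(1,0)]⟩,.k,(.r (-1) ⟨165,[(5,37),(0,31),(8,
  31),(6,15),(2,37),(11,7),(13,50),(0,36),(1,41)]⟩ ⟨1,[(19,0),(0,0),(29,0),(3,0)]⟩),⟨false,1,⟨1,
  [(25,0),(0,0),(25,0)]⟩,⟨0,[]⟩⟩,⟨true,0,⟨0,[(54,0)]⟩,⟨0,[]⟩⟩,⟨true,0,⟨0,[(50,0)]⟩,⟨0,[(49,0)]⟩⟩,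
  ⟨false,0,⟨0,[(50,0)]⟩,⟨5,[(5,1),(15,1),(3,1),(11,0),(14,2)]⟩⟩,[.o ⟨false,0,⟨0,[(0,0)]⟩,⟨1,[(26,1),
  (10,0),(14,0)]⟩⟩,.e ⟨false,1,⟨1,[(41,0),(9,0)]⟩,⟨0,[(54,0)]⟩⟩ ⟨false,1,⟨9,[(25,3),(0,3),(24,4),(0,
  0),(1,1)]⟩,⟨0,[]⟩⟩,.a ⟨true,0,⟨0,[(2,0)]⟩,⟨0,[(26,0)]⟩⟩ ⟨false,1,⟨4,[(25,1),(0,1),(25,2),(1,0)]⟩,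
  ⟨0,[]⟩⟩ ⟨true,0,⟨0,[(54,0)]⟩,⟨0,[]⟩⟩,.o ⟨false,0,⟨0,[(0,0),(41,0)]⟩,⟨1,[(26,1),(10,0),(13,
  0)]⟩⟩]⟩) (.R ⟨2,true,false,false,[0,1],[0,0,0,0,1],[1,1],(⟨0,[]⟩,⟨0,[]⟩),(⟨0,[(28,0)]⟩,⟨0,[(27,
  0)]⟩),⟨0,[]⟩,.k,.k,.k,(.r 0 ⟨1,[(19,0),(0,0),(29,0),(3,0)]⟩ ⟨25,[(5,9),(0,3),(8,3),(6,1),(2,9),
  (11,0),(13,8),(0,1)]⟩),.k,.k,⟨true,0,⟨0,[(54,0)]⟩,⟨0,[(48,0)]⟩⟩,⟨false,0,⟨0,[(26,0)]⟩,⟨1,[(2,1),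
  (34,0),(13,0)]⟩⟩,⟨false,1,⟨25,[(5,9),(0,3),(8,3),(6,1),(2,9),(11,0),(13,8),(0,1)]⟩,⟨1,[(14,0),(35,
  0),(1,0)]⟩⟩,⟨true,0,⟨0,[(5,0)]⟩,⟨1,[(2,1),(11,0),(28,1),(2,0),(3,0)]⟩⟩,⟨true,0,⟨0,[(43,0)]⟩,⟨1,
  [(32,0),(0,0)]⟩⟩,⟨false,0,⟨0,[(0,0)]⟩,⟨6,[(2,1),(22,4),(15,0),(4,0),(7,1)]⟩⟩,[]⟩)) (.Q [1,0,0,-2,
  0,0,0,0,1,0,0,1] (.p true [0,0,0,0,1] [] (⟨0,[(27,0)]⟩,⟨0,[(26,0)]⟩) .k 0 (⟨0,[]⟩,⟨0,[]⟩) .k .k)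
  (.R ⟨1,false,false,true,[0,0,0,0,1],[0,1],[],(⟨0,[(28,0)]⟩,⟨0,[(27,0)]⟩),(⟨0,[(39,0)]⟩,⟨0,[(38,
  0)]⟩),⟨1,[(1,0),(8,0),(12,0),(4,0)]⟩,.k,.k,(.r (-1) ⟨1,[(0,0),(24,0),(25,0)]⟩ ⟨1,[(19,0),(0,0),
  (29,0),(3,0)]⟩),(.r (-1) ⟨1,[(0,0),(24,0),(25,0)]⟩ ⟨1,[(19,0),(0,0),(29,0),(3,0)]⟩),(.r (-2) ⟨0,
  [(0,0),(24,0),(25,0)]⟩ ⟨0,[(14,1),(26,0),(1,1)]⟩),.k,⟨false,2,⟨1,[(0,0),(24,0),(25,1),(0,0)]⟩,⟨0,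
  [(14,0),(28,0)]⟩⟩,⟨true,1,⟨1,[(2,1),(34,0),(13,0)]⟩,⟨12,[(0,5),(0,1),(2,0),(5,1),(3,11),(8,1),(2,
  4),(9,1)]⟩⟩,⟨false,1,⟨4,[(25,1),(0,1),(25,2),(1,0)]⟩,⟨0,[]⟩⟩,⟨true,0,⟨1,[(2,1),(11,0),(28,1),(2,
  0),(3,0)]⟩,⟨0,[(5,0)]⟩⟩,⟨true,0,⟨0,[(14,0),(26,0),(1,1)]⟩,⟨0,[(49,0)]⟩⟩,⟨true,0,⟨1,[(2,1),(11,0),
  (22,0),(5,1),(6,2)]⟩,⟨0,[(0,0)]⟩⟩,[.o ⟨false,0,⟨1,[(14,0),(22,0),(5,1),(6,0)]⟩,⟨1,[(0,0),(24,0),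
  (26,0)]⟩⟩,.e ⟨false,1,⟨1,[(51,0),(0,0)]⟩,⟨0,[(54,0)]⟩⟩ ⟨false,1,⟨1,[(2,1),(34,0),(12,1),(0,0)]⟩,
  ⟨13,[(0,6),(0,1),(2,0),(5,1),(12,1),(2,4),(9,1),(14,0)]⟩⟩,.a ⟨true,0,⟨0,[(26,0)]⟩,⟨0,[(2,0)]⟩⟩
  ⟨false,1,⟨1,[(25,0),(0,0),(25,0)]⟩,⟨0,[]⟩⟩ ⟨true,0,⟨1,[(2,1),(11,0),(22,0),(5,1),(6,0)]⟩,⟨13,[(0,
  6),(0,1),(2,0),(5,1),(12,1),(2,4),(9,1),(14,0)]⟩⟩,.o ⟨false,0,⟨3,[(0,0),(13,1),(11,2),(10,0),(8,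
  0)]⟩,⟨1,[(2,1),(34,0),(13,0)]⟩⟩]⟩) (.R ⟨1,true,false,true,[0,0,0,0,1],[0,1],[],(⟨0,[(28,0)]⟩,⟨0,
  [(27,0)]⟩),(⟨0,[(39,0)]⟩,⟨0,[(38,0)]⟩),⟨1,[(1,0),(8,0),(12,0),(4,0)]⟩,.k,.k,(.r (-1) ⟨25,[(5,9),
  (0,3),(8,3),(6,1),(2,9),(11,0),(13,8),(0,1)]⟩ ⟨1,[(19,0),(0,0),(29,0),(3,0)]⟩),(.r (-1) ⟨25,[(5,
  9),(0,3),(8,3),(6,1),(2,9),(11,0),(13,8),(0,1)]⟩ ⟨1,[(19,0),(0,0),(29,0),(3,0)]⟩),(.r (-2) ⟨12,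
  [(5,9),(0,3),(8,3),(6,1),(2,9),(11,0),(13,8),(0,1)]⟩ ⟨0,[(0,5),(0,5),(2,2),(1,1),(3,3),(0,1),(3,
  1),(7,3),(24,1)]⟩),.k,⟨false,2,⟨25,[(5,9),(0,3),(8,3),(6,1),(2,9),(11,0),(13,21),(0,14)]⟩,⟨0,[(14,
  0),(28,0)]⟩⟩,⟨true,1,⟨1,[(2,1),(34,0),(13,0)]⟩,⟨24,[(1,7),(2,3),(0,16),(2,0),(1,6),(3,20),(0,0),
  (7,6),(12,4),(4,0)]⟩⟩,⟨false,1,⟨4,[(25,1),(0,1),(25,2),(1,0)]⟩,⟨0,[]⟩⟩,⟨true,0,⟨27,[(0,20),(6,2),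
  (0,1),(4,2),(1,4),(9,6),(11,0),(9,8)]⟩,⟨0,[(5,0)]⟩⟩,⟨true,0,⟨1,[(0,5),(0,5),(2,2),(1,1),(3,3),(0,
  1),(3,1),(7,3),(17,0)]⟩,⟨0,[(49,0)]⟩⟩,⟨false,0,⟨0,[(0,0)]⟩,⟨5,[(5,7),(15,1),(3,1),(11,0),(14,
  2)]⟩⟩,[]⟩)))) (.Q [1,0,0,0,-1,0,0,0,1,0,0,1] (.p true [0,0,0,0,1] [] (⟨0,[(25,0)]⟩,⟨0,[(24,0)]⟩)
  .k 0 (⟨0,[]⟩,⟨0,[]⟩) .k .k) (.R ⟨2,true,false,true,[0,1],[0,0,0,0,1],[1,1],(⟨0,[]⟩,⟨0,[]⟩),(⟨0,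
  [(26,0)]⟩,⟨0,[(25,0)]⟩),⟨0,[]⟩,.k,.k,.k,(.r 0 ⟨1,[(17,0),(0,0),(29,0),(3,0)]⟩ ⟨25,[(3,9),(0,3),(8,
  3),(6,1),(2,9),(11,0),(13,8),(0,1)]⟩),.k,.k,⟨false,1,⟨1,[(23,0),(0,0),(24,0)]⟩,⟨0,[]⟩⟩,⟨true,(-1),
  ⟨3,[(0,2),(2,0),(8,0),(38,1)]⟩,⟨0,[(23,0)]⟩⟩,⟨false,1,⟨25,[(3,9),(0,3),(8,3),(6,1),(2,9),(11,0),
  (13,8),(0,1)]⟩,⟨1,[(12,0),(35,0),(1,0)]⟩⟩,⟨true,(-1),⟨7,[(0,4),(0,0),(1,1),(1,0),(0,0),(4,0),(1,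
  1),(31,1)]⟩,⟨0,[(23,0),(24,0)]⟩⟩,⟨true,0,⟨0,[(41,0)]⟩,⟨1,[(30,0),(0,0)]⟩⟩,⟨false,(-1),⟨0,[(0,0)]⟩,
  ⟨4,[(23,6),(0,1),(25,2),(1,0)]⟩⟩,[]⟩) (.R ⟨1,false,false,true,[0,0,1],[1,0,0,0,-1],[1,0,0,-1,0,0,
  0,1],(⟨0,[(33,0)]⟩,⟨0,[(32,0)]⟩),(⟨0,[(25,0)]⟩,⟨0,[(26,0)]⟩),⟨0,[(22,0)]⟩,.k,.k,.k,.k,(.r (-1) ⟨5,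
  [(9,1),(3,1),(4,3),(16,0),(13,3),(0,0)]⟩ ⟨0,[(17,0),(34,0)]⟩),.k,⟨true,1,⟨5,[(9,1),(3,1),(4,3),
  (16,0),(13,0),(0,3)]⟩,⟨0,[(4,0),(7,2),(26,0),(1,2)]⟩⟩,⟨false,1,⟨0,[(0,0),(26,0)]⟩,⟨0,[(1,0),(28,
  0)]⟩⟩,⟨false,1,⟨5,[(0,1),(2,1),(15,1),(15,0),(14,2)]⟩,⟨0,[(48,0)]⟩⟩,⟨true,0,⟨2,[(0,2),(5,0),(7,1),
  (12,1)]⟩,⟨1,[(1,1),(10,0),(2,0),(12,0),(21,0)]⟩⟩,⟨true,0,⟨0,[]⟩,⟨0,[(52,0)]⟩⟩,⟨true,0,⟨0,[(0,0),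
  (13,0),(12,0)]⟩,⟨1,[(1,1),(10,0),(0,0),(1,0),(34,0)]⟩⟩,[.o ⟨false,1,⟨0,[(0,0),(51,0)]⟩,⟨0,[(1,0),
  (38,0)]⟩⟩,.o ⟨false,1,⟨0,[(0,0)]⟩,⟨3,[(1,1),(1,0),(8,0),(11,0),(10,0)]⟩⟩,.o ⟨false,1,⟨1,[(30,1),
  (4,0),(13,0)]⟩,⟨0,[(16,0)]⟩⟩,.a ⟨true,0,⟨0,[(30,0)]⟩,⟨0,[(27,0)]⟩⟩ ⟨true,1,⟨5,[(9,1),(3,1),(4,3),
  (16,0),(13,3),(0,0)]⟩,⟨0,[(14,0)]⟩⟩ ⟨false,1,⟨0,[(0,0),(26,0)]⟩,⟨0,[(1,0),(28,0),(9,0)]⟩⟩]⟩)))))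

theorem ok52 : chk K t52 r34 = true := by decide +kernel

noncomputable def t56 : Tre :=
  (.S ⟨1,0,[0,1,0,0,0,0,0,-1],[1,0,-1],[],(⟨0,[(25,0)]⟩,⟨0,[(26,0)]⟩),⟨0,[(14,0)]⟩,.k,.k,⟨false,1,
  ⟨1,[(11,1),(30,0),(0,0)]⟩,⟨1,[(4,1),(37,0),(0,0)]⟩⟩,⟨true,0,⟨0,[(45,0)]⟩,⟨0,[]⟩⟩,⟨true,0,⟨0,[(0,
  0)]⟩,⟨3,[(4,2),(7,1),(9,0),(0,0),(4,0),(13,1)]⟩⟩,⟨false,0,⟨0,[(41,0)]⟩,⟨3,[(12,1),(3,0),(0,0),(10,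
  0),(14,1)]⟩⟩,[.e ⟨false,1,⟨1,[(16,0),(0,0),(24,0)]⟩,⟨0,[]⟩⟩ ⟨false,0,⟨0,[(4,0),(37,0)]⟩,⟨1,[(11,
  1),(30,0),(0,0)]⟩⟩,.o ⟨false,0,⟨1,[(2,0),(1,0),(5,0),(9,0),(7,0)]⟩,⟨1,[(21,1),(6,0),(14,0)]⟩⟩,.o
  ⟨false,0,⟨0,[(9,0)]⟩,⟨1,[(23,1),(4,0),(13,0)]⟩⟩,.a ⟨true,(-1),⟨0,[(3,0)]⟩,⟨0,[(23,0),(18,0)]⟩⟩
  ⟨false,1,⟨1,[(42,0),(0,0)]⟩,⟨1,[(23,0),(0,0)]⟩⟩ ⟨true,0,⟨0,[(4,0),(37,0)]⟩,⟨0,[(11,0)]⟩⟩]⟩)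

theorem ok56 : chk K t56 r31 = true := by decide +kernel

noncomputable def t59 : Tre :=
  (.Q [0,0,0,0,0,2,0,0,0,0,-1] (.p false [0,0,1] [] (⟨0,[(24,0)]⟩,⟨0,[(23,0)]⟩) .k 0 (⟨0,[]⟩,⟨0,
  []⟩) .k .k) (.R ⟨0,false,false,true,[0,-1,1],[1,-1],[],(⟨0,[(14,0)]⟩,⟨10,[(15,0),(0,0),(7,10),(4,
  4),(4,1),(0,0)]⟩),(⟨0,[(28,0)]⟩,⟨0,[(29,0)]⟩),⟨0,[(0,0)]⟩,.k,.k,(.r (-2) ⟨3,[(5,3),(6,1),(2,0),(0,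
  0),(10,0),(13,3),(0,1)]⟩ ⟨1,[(4,0),(1,0),(2,0),(30,0)]⟩),.k,.k,.k,⟨true,0,⟨1,[(4,0),(35,0),(1,
  0)]⟩,⟨0,[(39,0)]⟩⟩,⟨false,0,⟨0,[(19,0)]⟩,⟨1,[(22,1),(4,0),(13,0)]⟩⟩,⟨false,0,⟨0,[(9,0)]⟩,⟨3,[(5,
  1),(4,1),(8,1),(7,0),(13,1),(0,0)]⟩⟩,⟨true,(-1),⟨0,[(3,0),(15,0)]⟩,⟨1,[(20,1),(6,0),(14,0)]⟩⟩,
  ⟨false,0,⟨0,[]⟩,⟨0,[]⟩⟩,⟨false,0,⟨0,[]⟩,⟨0,[]⟩⟩,[.o ⟨false,0,⟨0,[(39,0)]⟩,⟨1,[(27,0),(12,1),(1,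
  0)]⟩⟩,.e ⟨false,1,⟨1,[(41,0),(0,0)]⟩,⟨0,[(44,0)]⟩⟩ ⟨false,1,⟨1,[(11,0),(0,0),(28,1)]⟩,⟨0,[(1,
  0)]⟩⟩,.a ⟨true,0,⟨0,[(22,0)]⟩,⟨0,[(19,0)]⟩⟩ ⟨false,1,⟨1,[(15,0),(0,0),(25,0)]⟩,⟨0,[]⟩⟩ ⟨true,0,⟨0,
  [(19,0),(19,0)]⟩,⟨0,[(1,0)]⟩⟩,.o ⟨false,0,⟨5,[(3,0),(0,1),(0,0),(16,4),(4,2),(4,1)]⟩,⟨1,[(19,1),
  (7,0),(13,0)]⟩⟩]⟩) (.Q [0,0,-2,0,1,0,1,0,0,0,1] (.p true [0,0,1] [] (⟨0,[(25,0)]⟩,⟨0,[(24,0)]⟩)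
  .k 0 (⟨0,[]⟩,⟨0,[]⟩) .k .k) (.R ⟨0,false,false,true,[1,-1,-1],[1,-1],[0,1,0,-1],(⟨0,[(14,0)]⟩,⟨33,
  [(0,1),(12,2),(9,3),(2,33),(3,12),(4,6),(0,1)]⟩),(⟨0,[(29,0)]⟩,⟨0,[(30,0)]⟩),⟨2,[(1,0),(13,1),(11,
  0),(7,2)]⟩,.k,.k,(.x 1 ⟨26,[(3,20),(1,9),(6,4),(11,5),(1,26),(8,17),(1,3),(6,6)]⟩ ⟨0,[(0,0),(13,
  0),(13,0),(0,0)]⟩),.k,.k,.k,⟨true,0,⟨1,[(23,0),(0,0)]⟩,⟨0,[]⟩⟩,⟨false,1,⟨2,[(0,1),(15,0),(0,0),(5,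
  0)]⟩,⟨0,[(9,0)]⟩⟩,⟨false,0,⟨0,[(11,0)]⟩,⟨0,[(4,0),(37,0),(0,0)]⟩⟩,⟨true,0,⟨0,[(21,0)]⟩,⟨1,[(4,1),
  (15,1),(7,0),(14,0)]⟩⟩,⟨false,0,⟨0,[]⟩,⟨0,[]⟩⟩,⟨false,0,⟨0,[]⟩,⟨0,[]⟩⟩,[.o ⟨false,0,⟨0,[(40,0)]⟩,
  ⟨1,[(28,0),(12,1),(1,0)]⟩⟩,.a ⟨true,0,⟨17,[(0,1),(11,8),(0,2),(9,3),(3,1),(1,1),(6,1)]⟩,⟨0,[(41,
  0)]⟩⟩ ⟨false,1,⟨7,[(0,3),(11,3),(0,1),(2,0),(0,0),(10,2)]⟩,⟨0,[(41,0)]⟩⟩ ⟨true,1,⟨11,[(0,7),(11,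
  5),(3,0),(0,0),(5,3),(4,2)]⟩,⟨0,[(5,0),(3,0)]⟩⟩,.a ⟨true,(-1),⟨0,[(3,0)]⟩,⟨2,[(0,1),(15,0),(0,0),
  (5,0)]⟩⟩ ⟨true,0,⟨0,[(40,0)]⟩,⟨0,[(41,0)]⟩⟩ ⟨false,1,⟨11,[(0,7),(11,5),(3,0),(0,0),(5,3),(4,2)]⟩,
  ⟨1,[(5,0),(3,1),(31,0),(1,0)]⟩⟩,.a ⟨true,(-1),⟨1,[(5,1),(6,0),(0,0)]⟩,⟨0,[(0,0)]⟩⟩ ⟨false,1,⟨7,
  [(0,3),(11,3),(0,1),(2,0),(0,0),(10,2)]⟩,⟨1,[(5,0),(35,0),(1,0)]⟩⟩ ⟨true,1,⟨0,[(0,0),(39,0)]⟩,⟨0,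
  [(5,0),(3,0)]⟩⟩]⟩) (.I [0,0,0,1,0,0,0,1] (.S ⟨1,0,[0,1,0,0,0,0,0,-1],[1,0,-1],[],(⟨0,[(26,0)]⟩,⟨0,
  [(27,0)]⟩),⟨0,[(15,0)]⟩,.k,.k,⟨false,1,⟨1,[(12,1),(30,0),(0,0)]⟩,⟨1,[(5,1),(37,0),(0,0)]⟩⟩,⟨true,
  0,⟨0,[(46,0)]⟩,⟨0,[]⟩⟩,⟨true,0,⟨0,[(0,0)]⟩,⟨3,[(5,2),(7,1),(9,0),(0,0),(4,0),(13,1)]⟩⟩,⟨false,0,
  ⟨0,[(42,0)]⟩,⟨3,[(13,1),(3,0),(0,0),(10,0),(14,1)]⟩⟩,[.e ⟨false,1,⟨1,[(17,0),(0,0),(24,0)]⟩,⟨0,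
  []⟩⟩ ⟨false,0,⟨0,[(5,0),(37,0)]⟩,⟨1,[(12,1),(30,0),(0,0)]⟩⟩,.o ⟨false,0,⟨1,[(5,1),(15,1),(7,0),
  (14,0)]⟩,⟨1,[(22,1),(6,0),(14,0)]⟩⟩,.o ⟨false,0,⟨0,[(10,0)]⟩,⟨1,[(24,1),(4,0),(13,0)]⟩⟩,.a ⟨true,
  (-1),⟨0,[(4,0)]⟩,⟨0,[(24,0),(18,0)]⟩⟩ ⟨false,1,⟨1,[(43,0),(0,0)]⟩,⟨1,[(24,0),(0,0)]⟩⟩ ⟨true,0,⟨0,
  [(5,0),(37,0)]⟩,⟨0,[(12,0)]⟩⟩]⟩) (.Q [0,0,0,0,1,0,2,2,0,-1,2] (.p true [0,0,1] [1,0,-1] (⟨0,[(27,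
  0)]⟩,⟨0,[(26,0)]⟩) .k 2 (⟨0,[(26,0)]⟩,⟨0,[(27,0)]⟩) .k (.r (-1) ⟨0,[(12,1),(30,0)]⟩ ⟨1,[(0,1),(7,
  0),(2,0),(31,0)]⟩)) (.I [1,0,2,2,-1,0,0,1] (.Q [0,-1,0,2,1,0,1,1,0,-1,1] (.p true [0,0,1] [1] (⟨0,
  [(29,0)]⟩,⟨0,[(28,0)]⟩) .k 1 (⟨0,[]⟩,⟨0,[]⟩) .k .k) (.R ⟨1,false,false,false,[1,0,-1],[0,1],[],
  (⟨0,[(29,0)]⟩,⟨0,[(30,0)]⟩),(⟨0,[(34,0)]⟩,⟨0,[(33,0)]⟩),⟨0,[(18,0)]⟩,.k,.k,.k,.k,(.x 1 ⟨8,[(4,3),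
  (2,4),(9,0),(9,1),(2,8),(8,5),(8,2)]⟩ ⟨17,[(2,1),(0,3),(1,5),(0,3),(11,23),(8,9),(4,8),(13,24)]⟩),
  .k,⟨true,1,⟨3,[(16,1),(3,0),(0,0),(10,0),(13,1)]⟩,⟨0,[(9,0)]⟩⟩,⟨false,2,⟨1,[(27,1),(4,0),(13,2)]⟩,
  ⟨0,[(7,0)]⟩⟩,⟨false,1,⟨1,[(2,0),(14,0),(29,0)]⟩,⟨3,[(3,1),(7,0),(2,0),(31,0)]⟩⟩,⟨true,1,⟨1,[(0,0),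
  (1,0),(23,0)]⟩,⟨0,[(3,0),(3,0),(30,0)]⟩⟩,⟨false,1,⟨19,[(0,9),(1,4),(14,10),(2,0),(0,0),(5,1),(12,
  1),(5,0),(0,4)]⟩,⟨0,[(3,0)]⟩⟩,⟨false,1,⟨0,[(0,0)]⟩,⟨1,[(3,1),(12,0),(0,0)]⟩⟩,[.e ⟨false,1,⟨1,[(20,
  0),(0,0),(24,0)]⟩,⟨0,[]⟩⟩ ⟨false,1,⟨0,[(6,0),(39,0)]⟩,⟨1,[(16,0),(0,0)]⟩⟩,.o ⟨false,1,⟨5,[(0,1),
  (13,1),(9,1),(7,2),(14,0)]⟩,⟨0,[(44,0)]⟩⟩,.o ⟨false,0,⟨0,[(13,0)]⟩,⟨1,[(27,1),(4,0),(13,0)]⟩⟩,.a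
  ⟨true,(-1),⟨0,[(7,0)]⟩,⟨0,[(27,0),(18,0)]⟩⟩ ⟨false,1,⟨1,[(46,0),(0,0)]⟩,⟨1,[(27,0),(0,0)]⟩⟩ ⟨true,
  1,⟨0,[(6,0),(39,0)]⟩,⟨0,[(7,0),(36,0)]⟩⟩]⟩) (.I [1,0,-2,-2,1,0,0,-1] (.N [0,2,1] 1 ⟨0,[(2,0)]⟩ ⟨0,
  [(0,0)]⟩ (.x (-2) ⟨23,[(0,7),(2,9),(2,7),(0,3),(7,11),(3,31),(13,8),(9,5),(3,20)]⟩ ⟨8,[(5,3),(2,
  4),(9,0),(9,1),(2,8),(8,5),(8,2)]⟩)) (.Q [0,0,0,1,-1,0,-2,-2,0,1,-2] (.p false [0,0,1] [1,0,-1]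
  (⟨0,[(31,0)]⟩,⟨0,[(30,0)]⟩) .k 2 (⟨0,[(30,0)]⟩,⟨0,[(31,0)]⟩) .k (.r (-1) ⟨0,[(3,0),(14,0)]⟩ ⟨1,
  [(4,1),(7,0),(2,0),(31,0)]⟩)) (.I [0,0,-1,-1,1,0,0,2] (.R ⟨1,true,false,false,[0,0,1],[1,0,-1],[0,
  1,0,0,0,0,0,1],(⟨0,[(33,0)]⟩,⟨0,[(32,0)]⟩),(⟨0,[(32,0)]⟩,⟨0,[(33,0)]⟩),⟨0,[(22,0)]⟩,.k,.k,.k,.k,
  (.r (-1) ⟨0,[(0,0)]⟩ ⟨4,[(6,1),(10,6),(11,0),(0,0),(14,2)]⟩),.k,⟨true,0,⟨5,[(0,3),(1,2),(4,0),(5,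
  0),(27,2),(3,0)]⟩,⟨0,[(6,0),(10,0)]⟩⟩,⟨false,0,⟨0,[(16,0),(10,0)]⟩,⟨2,[(5,0),(0,1),(2,1),(20,1),
  (18,1)]⟩⟩,⟨true,0,⟨0,[(52,0)]⟩,⟨0,[]⟩⟩,⟨false,0,⟨5,[(1,3),(1,0),(15,0),(9,2),(20,4)]⟩,⟨0,[(5,
  0)]⟩⟩,⟨false,0,⟨0,[(48,0)]⟩,⟨3,[(19,1),(3,0),(0,0),(10,0),(14,1)]⟩⟩,⟨true,(-1),⟨0,[(1,0)]⟩,⟨0,[(5,
  0),(41,0)]⟩⟩,[]⟩) (.R ⟨1,true,false,false,[0,0,1],[1,0,-1],[0,1,0,0,0,0,0,1],(⟨0,[(33,0)]⟩,⟨0,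
  [(32,0)]⟩),(⟨0,[(32,0)]⟩,⟨0,[(33,0)]⟩),⟨0,[(22,0)]⟩,.k,.k,.k,.k,(.x (-1) ⟨29,[(0,7),(4,11),(0,7),
  (23,35),(1,59),(2,15),(6,9),(1,2),(4,6)]⟩ ⟨14,[(2,3),(0,3),(3,0),(0,29),(18,24),(11,1),(2,14),(1,
  6)]⟩),.k,⟨true,0,⟨1,[(2,0),(2,0),(7,0),(2,1),(10,0),(13,0)]⟩,⟨0,[(6,0),(10,0)]⟩⟩,⟨false,0,⟨0,[(16,
  0),(10,0)]⟩,⟨4,[(0,1),(4,2),(0,1),(23,3),(4,0),(13,2)]⟩⟩,⟨true,0,⟨0,[(52,0)]⟩,⟨0,[]⟩⟩,⟨false,0,⟨5,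
  [(1,3),(1,0),(15,0),(9,2),(20,4)]⟩,⟨0,[(5,0)]⟩⟩,⟨false,0,⟨0,[(48,0)]⟩,⟨3,[(19,1),(3,0),(0,0),(10,
  0),(14,1)]⟩⟩,⟨true,(-1),⟨0,[(1,0)]⟩,⟨0,[(5,0),(41,0)]⟩⟩,[]⟩)) (.Q [0,0,0,2,-1,0,-2,-2,0,1,-2] (.p
  false [0,0,1] [1,0,-1] (⟨0,[(32,0)]⟩,⟨0,[(31,0)]⟩) .k 2 (⟨0,[(31,0)]⟩,⟨0,[(32,0)]⟩) .k (.r (-1)
  ⟨0,[(4,0),(14,0)]⟩ ⟨1,[(5,1),(7,0),(2,0),(31,0)]⟩)) (.R ⟨1,true,false,false,[0,0,1],[1,1,-1],[0,1,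
  0,0,0,0,0,1],(⟨0,[(33,0)]⟩,⟨0,[(32,0)]⟩),(⟨10,[(23,0),(0,0),(7,10),(4,4),(4,1),(0,0)]⟩,⟨0,[(22,
  0)]⟩),⟨0,[(22,0)]⟩,.k,.k,.k,(.r (-1) ⟨0,[(1,0),(14,0),(10,0)]⟩ ⟨4,[(6,1),(10,6),(11,0),(0,0),(14,
  2)]⟩),(.r (-2) ⟨2,[(1,1),(11,1),(6,1),(6,1),(7,0),(13,1),(0,0)]⟩ ⟨0,[(14,0),(2,0)]⟩),.k,⟨false,1,
  ⟨0,[(1,0),(14,0),(10,0),(13,0)]⟩,⟨3,[(6,1),(7,0),(2,4),(31,0)]⟩⟩,⟨true,0,⟨0,[(16,0),(10,0)]⟩,⟨2,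
  [(1,0),(4,1),(2,1),(2,0),(17,1)]⟩⟩,⟨true,0,⟨0,[(52,0)]⟩,⟨0,[]⟩⟩,⟨false,0,⟨3,[(0,2),(18,0),(9,1),
  (20,2)]⟩,⟨0,[(1,0)]⟩⟩,⟨false,0,⟨0,[(48,0)]⟩,⟨3,[(19,1),(3,0),(0,0),(10,0),(14,1)]⟩⟩,⟨true,(-1),⟨0,
  [(0,0)]⟩,⟨0,[(1,0),(45,0)]⟩⟩,[]⟩) (.Q [-1,-1,0,1,1,0,0,0,-1,0,0,-1] (.p false [0,0,0,0,1] [] (⟨0,
  [(26,0)]⟩,⟨0,[(25,0)]⟩) .k 0 (⟨0,[]⟩,⟨0,[]⟩) .k .k) (.Q [1,0,0,-1,0,0,0,0,1,0,0,1] (.p true [0,0,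
  0,0,1] [] (⟨0,[(27,0)]⟩,⟨0,[(26,0)]⟩) .k 0 (⟨0,[]⟩,⟨0,[]⟩) .k .k) (.Q [0,0,-1,0,1,0,1,0,-1,0,1,
  -1] (.p true [0,0,1] [0,0,0,0,1] (⟨0,[(35,0)]⟩,⟨0,[(34,0)]⟩) .k 2 (⟨0,[(28,0)]⟩,⟨0,[(27,0)]⟩) .k
  (.r (-1) ⟨9,[(7,4),(14,4),(2,2),(0,2),(25,1),(1,3)]⟩ ⟨3,[(8,1),(7,0),(2,0),(31,0)]⟩)) (.Q [0,0,0,
  0,0,-1,0,0,0,0,0,1] (.ed false [1,-1,0,0,1] .k) (.S ⟨1,0,[1,1],[0,0,0,0,1],[],(⟨0,[(30,0)]⟩,⟨0,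
  [(29,0)]⟩),⟨0,[(0,0)]⟩,.k,(.r (-1) ⟨5,[(2,1),(20,1),(3,1),(11,0),(13,2)]⟩ ⟨2,[(6,0),(14,0),(5,0),
  (0,0),(27,0)]⟩),⟨false,1,⟨4,[(27,1),(0,1),(25,2),(1,0)]⟩,⟨0,[]⟩⟩,⟨true,0,⟨0,[(56,0)]⟩,⟨0,[]⟩⟩,
  ⟨true,0,⟨0,[(6,0),(0,0),(5,0),(29,1),(1,2)]⟩,⟨0,[(51,0)]⟩⟩,⟨false,0,⟨0,[(52,0)]⟩,⟨5,[(2,1),(20,1),
  (3,1),(11,0),(14,2)]⟩⟩,[.o ⟨false,0,⟨3,[(2,2),(3,0),(11,0),(9,0),(10,1),(5,2)]⟩,⟨1,[(1,1),(9,0),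
  (8,0),(22,0)]⟩⟩,.a ⟨true,0,⟨0,[(28,0)]⟩,⟨3,[(1,3),(4,1),(0,1),(6,0),(16,0),(11,0)]⟩⟩ ⟨false,1,⟨1,
  [(53,0),(0,0)]⟩,⟨0,[(56,0)]⟩⟩ ⟨true,0,⟨0,[]⟩,⟨1,[(34,0),(0,0)]⟩⟩,.e ⟨false,1,⟨1,[(27,0),(0,0),(25,
  0)]⟩,⟨0,[]⟩⟩ ⟨false,0,⟨0,[]⟩,⟨1,[(27,0),(0,0),(25,0)]⟩⟩,.o ⟨false,0,⟨1,[(2,0),(13,0),(11,0),(19,
  0)]⟩,⟨0,[(1,0),(18,0)]⟩⟩]⟩) (.S ⟨1,0,[-1,1],[1,0,0,0,-1],[-1],(⟨0,[(29,0)]⟩,⟨0,[(30,0)]⟩),⟨1,[(0,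
  0),(11,0),(12,0),(3,0)]⟩,.k,(.r (-1) ⟨21,[(2,3),(20,3),(3,3),(11,1),(11,9),(1,10),(0,4)]⟩ ⟨2,[(6,
  0),(14,0),(5,0),(0,0),(27,0)]⟩),⟨false,1,⟨1,[(27,0),(0,0),(25,0)]⟩,⟨0,[]⟩⟩,⟨true,0,⟨0,[(56,0)]⟩,
  ⟨0,[]⟩⟩,⟨true,0,⟨0,[(52,0)]⟩,⟨0,[(51,0)]⟩⟩,⟨false,0,⟨0,[(52,0)]⟩,⟨5,[(2,1),(20,1),(3,1),(11,0),
  (14,2)]⟩⟩,[.o ⟨false,0,⟨2,[(1,2),(4,1),(0,1),(12,0),(24,0),(2,0)]⟩,⟨1,[(28,1),(10,0),(14,0)]⟩⟩,.e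
  ⟨false,1,⟨1,[(43,0),(9,0)]⟩,⟨0,[(56,0)]⟩⟩ ⟨false,1,⟨9,[(27,3),(0,3),(24,4),(0,0),(1,1)]⟩,⟨0,[]⟩⟩,
  .a ⟨true,0,⟨0,[(1,0),(12,0)]⟩,⟨0,[(28,0)]⟩⟩ ⟨false,1,⟨4,[(27,1),(0,1),(25,2),(1,0)]⟩,⟨0,[]⟩⟩
  ⟨true,0,⟨0,[(56,0)]⟩,⟨0,[]⟩⟩,.o ⟨false,0,⟨0,[(1,0),(9,0)]⟩,⟨1,[(28,1),(10,0),(13,0)]⟩⟩]⟩)) (.Q [0,
  0,1,0,-1,0,0,0,1,0,0,1] (.p true [0,0,0,0,1] [] (⟨0,[(29,0)]⟩,⟨0,[(28,0)]⟩) .k 0 (⟨0,[]⟩,⟨0,[]⟩)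
  .k .k) (.K ⟨0,[0,0,0,0,1],(-1),(-1),(⟨0,[(30,0)]⟩,⟨0,[(29,0)]⟩),.k,(.r (-1) ⟨5,[(2,1),(20,1),(3,
  1),(11,0),(13,2)]⟩ ⟨2,[(6,0),(14,0),(5,0),(0,0),(27,0)]⟩),(.r 0 ⟨2,[(6,0),(14,0),(5,0),(0,0),(27,
  0)]⟩ ⟨21,[(2,3),(20,3),(3,3),(11,1),(11,9),(1,10),(0,4)]⟩),.k,.k,[⟨3,[(3,2),(5,1),(0,2),(4,0),(11,
  0),(19,0),(1,0)]⟩,⟨0,[(0,0)]⟩,⟨0,[(27,0),(28,0)]⟩,⟨0,[(0,0),(44,0)]⟩]⟩) (.Q [-1,0,0,0,0,0,0,0,-1,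
  1,0,-1] (.p false [0,0,0,0,1] [1] (⟨0,[(30,0)]⟩,⟨0,[(29,0)]⟩) .k 1 (⟨0,[]⟩,⟨0,[]⟩) .k .k) (.R ⟨2,
  true,false,true,[0,1],[1,0,0,0,-1],[1,1],(⟨0,[]⟩,⟨0,[]⟩),(⟨0,[(30,0)]⟩,⟨0,[(31,0)]⟩),⟨0,[]⟩,.k,.k,
  .k,(.r 0 ⟨2,[(7,0),(14,0),(5,0),(0,0),(27,0)]⟩ ⟨21,[(3,3),(20,3),(3,3),(11,1),(11,9),(1,10),(0,
  4)]⟩),.k,.k,⟨true,0,⟨0,[]⟩,⟨0,[(56,0)]⟩⟩,⟨false,0,⟨0,[(0,0)]⟩,⟨1,[(29,1),(10,0),(13,0)]⟩⟩,⟨false,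
  1,⟨5,[(3,1),(20,1),(3,1),(11,0),(13,2)]⟩,⟨2,[(7,0),(14,0),(32,0)]⟩⟩,⟨true,0,⟨0,[(0,0),(51,0)]⟩,⟨0,
  [(2,0),(11,0),(39,0)]⟩⟩,⟨true,0,⟨0,[(46,0)]⟩,⟨1,[(35,0),(0,0)]⟩⟩,⟨false,0,⟨0,[(0,0)]⟩,⟨1,[(29,1),
  (10,0),(14,0)]⟩⟩,[]⟩) (.R ⟨0,false,false,false,[1,-1,-1],[0,0,0,0,1],[],(⟨0,[(26,0)]⟩,⟨10,[(28,0),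
  (0,0),(8,10),(3,4),(4,1),(0,0)]⟩),(⟨0,[(31,0)]⟩,⟨0,[(30,0)]⟩),⟨2,[(13,0),(13,1),(11,0),(7,2)]⟩,.k,
  .k,(.r (-2) ⟨0,[(3,0),(7,0),(16,0),(25,0)]⟩ ⟨0,[(7,0)]⟩),(.r (-1) ⟨4,[(3,0),(7,3),(16,0),(5,0),(0,
  0),(18,2),(0,0),(1,0)]⟩ ⟨3,[(7,1),(2,0),(14,0),(2,0),(0,0)]⟩),.k,.k,⟨false,1,⟨9,[(28,3),(0,3),(24,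
  4),(0,0),(1,1)]⟩,⟨0,[]⟩⟩,⟨true,1,⟨0,[(0,0),(34,0),(18,0)]⟩,⟨0,[(1,0),(5,0),(0,0),(36,0)]⟩⟩,⟨true,
  0,⟨3,[(7,1),(2,0),(14,0),(2,0),(0,0)]⟩,⟨0,[(11,0),(34,0)]⟩⟩,⟨false,1,⟨5,[(0,2),(6,1),(2,2),(11,1),
  (6,2),(24,2),(0,1)]⟩,⟨0,[(4,0),(3,0)]⟩⟩,⟨false,0,⟨0,[]⟩,⟨0,[]⟩⟩,⟨false,0,⟨0,[]⟩,⟨0,[]⟩⟩,[.o
  ⟨false,0,⟨0,[(0,0)]⟩,⟨1,[(4,0),(23,0),(23,0)]⟩⟩,.e ⟨false,1,⟨1,[(54,0),(0,0)]⟩,⟨0,[(57,0)]⟩⟩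
  ⟨false,2,⟨3,[(0,1),(2,1),(1,0),(4,0),(11,3),(31,5)]⟩,⟨0,[(1,0),(5,0),(0,0)]⟩⟩,.a ⟨true,(-1),⟨0,
  [(15,0)]⟩,⟨0,[(35,0),(18,0)]⟩⟩ ⟨false,1,⟨1,[(28,0),(0,0),(25,0)]⟩,⟨0,[]⟩⟩ ⟨true,1,⟨0,[(0,0),(34,
  0),(18,0)]⟩,⟨0,[(1,0),(5,0),(0,0)]⟩⟩,.o ⟨false,(-1),⟨0,[(12,0)]⟩,⟨1,[(35,1),(4,0),(13,2)]⟩⟩]⟩))))
  (.R ⟨2,true,false,false,[0,1],[0,0,0,0,1],[2],(⟨0,[]⟩,⟨0,[]⟩),(⟨0,[(28,0)]⟩,⟨0,[(27,0)]⟩),⟨0,[]⟩,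
  .k,.k,.k,(.r 0 ⟨2,[(4,0),(14,0),(5,0),(0,0),(27,0)]⟩ ⟨3,[(2,0),(18,0),(9,1),(19,1),(0,0)]⟩),.k,.k,
  ⟨true,0,⟨0,[]⟩,⟨1,[(32,0),(0,0)]⟩⟩,⟨false,0,⟨0,[(26,0)]⟩,⟨21,[(0,11),(1,1),(2,3),(19,9),(11,0),
  (13,10),(0,1)]⟩⟩,⟨true,1,⟨3,[(2,0),(18,0),(9,1),(19,1),(0,0)]⟩,⟨4,[(4,2),(0,1),(5,1),(4,0),(26,1),
  (7,0)]⟩⟩,⟨false,1,⟨3,[(2,0),(18,0),(4,3),(4,1),(20,2)]⟩,⟨0,[(0,0)]⟩⟩,⟨false,1,⟨1,[(51,0),(0,0)]⟩,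
  ⟨0,[(53,0)]⟩⟩,⟨true,0,⟨0,[(26,0)]⟩,⟨55,[(0,41),(4,7),(3,4),(3,4),(1,12),(9,13),(11,3),(9,14)]⟩⟩,
  []⟩)) (.Q [1,0,0,0,-1,0,0,0,1,0,0,1] (.p true [0,0,0,0,1] [] (⟨0,[(27,0)]⟩,⟨0,[(26,0)]⟩) .k 0 (⟨0,
  []⟩,⟨0,[]⟩) .k .k) (.R ⟨2,true,false,true,[0,1],[0,0,0,0,1],[1,1],(⟨0,[]⟩,⟨0,[]⟩),(⟨0,[(28,0)]⟩,
  ⟨0,[(27,0)]⟩),⟨0,[]⟩,.k,.k,.k,(.r 0 ⟨2,[(4,0),(14,0),(5,0),(0,0),(27,0)]⟩ ⟨3,[(2,0),(18,0),(9,1),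
  (19,1),(0,0)]⟩),.k,.k,⟨false,1,⟨1,[(25,0),(0,0),(24,0)]⟩,⟨0,[]⟩⟩,⟨true,(-1),⟨4,[(0,3),(8,0),(16,
  0),(5,0),(20,1)]⟩,⟨0,[(25,0)]⟩⟩,⟨false,1,⟨3,[(2,0),(18,0),(9,1),(19,1),(0,0)]⟩,⟨2,[(4,0),(14,0),
  (32,0)]⟩⟩,⟨true,(-1),⟨0,[(1,0)]⟩,⟨0,[(25,0),(24,0)]⟩⟩,⟨true,0,⟨0,[(43,0)]⟩,⟨1,[(32,0),(0,0)]⟩⟩,
  ⟨false,(-1),⟨0,[(0,0)]⟩,⟨4,[(25,6),(0,1),(25,2),(1,0)]⟩⟩,[]⟩) (.Q [0,0,0,0,1,0,1,0,-1,0,1,-1] (.p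
  true [0,0,1] [0,0,0,0,1] (⟨0,[(35,0)]⟩,⟨0,[(34,0)]⟩) .k 2 (⟨0,[(28,0)]⟩,⟨0,[(27,0)]⟩) .k (.r (-1)
  ⟨9,[(0,3),(6,4),(14,4),(3,3),(14,0),(12,1)]⟩ ⟨3,[(8,1),(7,0),(2,0),(31,0)]⟩)) (.K ⟨0,[0,0,0,0,1],
  (-1),(-1),(⟨0,[(29,0)]⟩,⟨0,[(28,0)]⟩),.k,(.r (-1) ⟨3,[(3,0),(18,0),(9,1),(19,1),(0,0)]⟩ ⟨12,[(0,
  1),(0,2),(3,4),(14,2),(6,4),(4,1),(22,0)]⟩),(.r 0 ⟨4,[(0,0),(4,1),(14,0),(5,0),(0,1),(4,0)]⟩ ⟨9,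
  [(3,1),(18,1),(9,3),(17,1),(1,4),(0,2)]⟩),.k,.k,[⟨0,[(0,0)]⟩,⟨2,[(2,2),(2,0),(14,0),(32,0)]⟩,⟨0,
  [(26,0),(28,0)]⟩,⟨0,[(2,0),(48,0)]⟩]⟩) (.Q [1,-1,0,0,0,0,0,0,1,-1,0,1] (.p true [0,0,0,0,1] [1]
  (⟨0,[(29,0)]⟩,⟨0,[(28,0)]⟩) .k 1 (⟨0,[]⟩,⟨0,[]⟩) .k .k) (.R ⟨1,false,false,false,[0,0,1],[0,0,0,0,
  1],[0,0,0,0,0,0,0,1],(⟨0,[(37,0)]⟩,⟨0,[(36,0)]⟩),(⟨0,[(30,0)]⟩,⟨0,[(29,0)]⟩),⟨0,[(26,0)]⟩,.k,.k,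
  .k,.k,(.r (-1) ⟨9,[(4,4),(19,2),(6,3),(11,0),(4,0),(4,2),(2,1)]⟩ ⟨0,[(21,0),(34,0)]⟩),.k,⟨false,1,
  ⟨2,[(9,0),(12,0),(1,0),(28,1)]⟩,⟨3,[(10,1),(7,0),(2,0),(31,0)]⟩⟩,⟨true,(-1),⟨0,[(1,0)]⟩,⟨0,[(27,
  0),(6,0)]⟩⟩,⟨false,1,⟨1,[(27,0),(0,0),(25,0)]⟩,⟨0,[]⟩⟩,⟨true,(-1),⟨3,[(1,3),(8,1),(7,0),(2,0),(31,
  0)]⟩,⟨0,[(2,0),(29,0)]⟩⟩,⟨true,0,⟨0,[(52,0)]⟩,⟨0,[(51,0)]⟩⟩,⟨true,(-1),⟨1,[(1,1),(16,0),(2,0),(31,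
  0)]⟩,⟨0,[(2,0),(16,0)]⟩⟩,[.o ⟨false,0,⟨7,[(0,2),(0,0),(1,0),(9,0),(14,2),(10,1),(9,0)]⟩,⟨0,[(2,
  0)]⟩⟩,.o ⟨false,0,⟨0,[(0,0)]⟩,⟨0,[(27,0),(28,0)]⟩⟩,.o ⟨false,1,⟨1,[(34,1),(4,0),(13,0)]⟩,⟨0,[(20,
  0)]⟩⟩,.a ⟨true,0,⟨0,[(34,0)]⟩,⟨0,[(31,0)]⟩⟩ ⟨true,1,⟨1,[(9,0),(14,0),(28,0)]⟩,⟨0,[(15,0)]⟩⟩
  ⟨false,0,⟨1,[(1,1),(51,0),(0,0)]⟩,⟨0,[(2,0),(31,0)]⟩⟩]⟩) (.K ⟨0,[1,0,0,0,-1],0,0,(⟨0,[(29,0)]⟩,⟨0,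
  [(30,0)]⟩),.k,(.r (-1) ⟨9,[(4,1),(18,1),(9,3),(17,1),(1,4),(0,2)]⟩ ⟨2,[(6,0),(14,0),(5,0),(0,0),
  (27,0)]⟩),(.r 0 ⟨2,[(6,0),(14,0),(5,0),(0,0),(27,0)]⟩ ⟨3,[(4,0),(18,0),(9,1),(19,1),(0,0)]⟩),.k,
  .k,[⟨1,[(3,1),(9,1),(39,0),(0,0)]⟩,⟨0,[(0,0),(43,0)]⟩,⟨9,[(3,2),(2,0),(11,0),(9,6),(10,4),(9,2)]⟩,
  ⟨0,[(0,0)]⟩]⟩))))))))) (.Q [1,0,0,0,-1,0,0,0,1,0,0,1] (.p true [0,0,0,0,1] [] (⟨0,[(22,0)]⟩,⟨0,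
  [(21,0)]⟩) .k 0 (⟨0,[]⟩,⟨0,[]⟩) .k .k) (.R ⟨2,true,false,true,[0,1],[0,0,0,0,1],[1,1],(⟨0,[]⟩,⟨0,
  []⟩),(⟨0,[(23,0)]⟩,⟨0,[(22,0)]⟩),⟨0,[]⟩,.k,.k,.k,(.r 0 ⟨2,[(2,0),(6,0),(4,1),(2,0),(24,0)]⟩ ⟨3,
  [(1,1),(0,0),(14,0),(2,0),(0,0)]⟩),.k,.k,⟨false,1,⟨1,[(20,0),(0,0),(24,0)]⟩,⟨0,[]⟩⟩,⟨true,(-1),⟨4,
  [(0,3),(3,0),(16,0),(5,0),(20,1)]⟩,⟨0,[(20,0)]⟩⟩,⟨false,1,⟨3,[(1,1),(0,0),(14,0),(2,0),(0,0)]⟩,⟨1,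
  [(9,0),(35,0),(1,0)]⟩⟩,⟨true,(-1),⟨0,[(0,0),(43,0)]⟩,⟨0,[(20,0),(24,0)]⟩⟩,⟨true,0,⟨0,[(38,0)]⟩,⟨1,
  [(27,0),(0,0)]⟩⟩,⟨false,(-1),⟨0,[(0,0)]⟩,⟨4,[(20,6),(0,1),(25,2),(1,0)]⟩⟩,[]⟩) (.I [0,0,-1,-1,1,0,
  0,2] (.Q [0,0,0,1,-1,0,-2,-2,0,1,-2] (.p false [0,0,1] [1,0,-1] (⟨0,[(31,0)]⟩,⟨0,[(30,0)]⟩) .k 2
  (⟨0,[(30,0)]⟩,⟨0,[(31,0)]⟩) .k (.r (-1) ⟨0,[(3,0),(14,0)]⟩ ⟨2,[(2,1),(9,1),(2,1)]⟩)) (.R ⟨1,true,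
  false,false,[0,0,1],[1,0,-1],[0,1,0,0,0,0,0,1],(⟨0,[(32,0)]⟩,⟨0,[(31,0)]⟩),(⟨0,[(31,0)]⟩,⟨0,[(32,
  0)]⟩),⟨0,[(21,0)]⟩,.k,.k,.k,.k,(.r (-1) ⟨0,[(1,0)]⟩ ⟨8,[(3,1),(9,1),(2,10),(11,2),(0,2),(14,2)]⟩),
  .k,⟨true,0,⟨0,[(1,0),(9,0),(28,0)]⟩,⟨0,[(5,0),(10,0)]⟩⟩,⟨false,0,⟨0,[(15,0),(10,0)]⟩,⟨4,[(3,1),(0,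
  0),(3,3),(20,3),(18,1)]⟩⟩,⟨true,0,⟨0,[(51,0)]⟩,⟨0,[]⟩⟩,⟨false,0,⟨5,[(0,2),(2,0),(1,2),(10,1),(2,
  2),(29,1)]⟩,⟨0,[(4,0)]⟩⟩,⟨false,0,⟨0,[(47,0)]⟩,⟨3,[(18,1),(3,0),(0,0),(10,0),(14,1)]⟩⟩,⟨true,(-1),
  ⟨0,[(0,0)]⟩,⟨0,[(4,0),(41,0)]⟩⟩,[]⟩) (.Q [0,0,0,2,-1,0,-2,-2,0,1,-2] (.p false [0,0,1] [1,0,-1]
  (⟨0,[(32,0)]⟩,⟨0,[(31,0)]⟩) .k 2 (⟨0,[(31,0)]⟩,⟨0,[(32,0)]⟩) .k (.r (-1) ⟨0,[(4,0),(14,0)]⟩ ⟨2,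
  [(3,1),(9,1),(2,1)]⟩)) (.R ⟨1,true,false,false,[0,0,1],[1,1,-1],[0,1,0,0,0,0,0,1],(⟨0,[(33,0)]⟩,
  ⟨0,[(32,0)]⟩),(⟨9,[(3,0),(20,0),(7,9),(4,3),(4,1),(0,0)]⟩,⟨0,[(22,0)]⟩),⟨0,[(22,0)]⟩,.k,.k,.k,(.r
  (-1) ⟨0,[(2,0)]⟩ ⟨8,[(4,1),(9,1),(2,10),(11,2),(0,2),(14,2)]⟩),(.r (-2) ⟨4,[(2,5),(1,1),(18,1),(0,
  1)]⟩ ⟨0,[(14,0),(2,0)]⟩),.k,⟨false,1,⟨0,[(2,0),(38,0)]⟩,⟨2,[(4,0),(9,0),(2,3)]⟩⟩,⟨true,0,⟨0,[(16,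
  0),(10,0)]⟩,⟨2,[(1,0),(4,1),(2,1),(2,0),(17,1)]⟩⟩,⟨true,0,⟨0,[(52,0)]⟩,⟨0,[]⟩⟩,⟨false,0,⟨5,[(0,2),
  (3,1),(12,3),(2,2),(29,0)]⟩,⟨0,[(1,0)]⟩⟩,⟨false,0,⟨0,[(48,0)]⟩,⟨3,[(19,1),(3,0),(0,0),(10,0),(14,
  1)]⟩⟩,⟨true,(-1),⟨0,[(0,0)]⟩,⟨0,[(1,0),(45,0)]⟩⟩,[]⟩) (.Q [-1,-1,0,0,1,0,0,0,-1,0,0,-1] (.p false
  [0,0,0,0,1] [] (⟨0,[(26,0)]⟩,⟨0,[(25,0)]⟩) .k 0 (⟨0,[]⟩,⟨0,[]⟩) .k .k) (.Q [0,0,0,0,0,1,0,0,0,-1,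
  0,1] (.ed false [0,1,0,0,1] .k) (.Q [-1,0,0,0,0,0,0,0,-1,1,0,-1] (.p false [0,0,0,0,1] [1] (⟨0,
  [(28,0)]⟩,⟨0,[(27,0)]⟩) .k 1 (⟨0,[]⟩,⟨0,[]⟩) .k .k) (.Q [-1,0,0,1,0,0,0,0,-1,0,0,-1] (.p false [0,
  0,0,0,1] [] (⟨0,[(29,0)]⟩,⟨0,[(28,0)]⟩) .k 0 (⟨0,[]⟩,⟨0,[]⟩) .k .k) (.R ⟨2,true,false,true,[0,1],
  [0,0,0,0,1],[2,1],(⟨0,[]⟩,⟨0,[]⟩),(⟨0,[(30,0)]⟩,⟨0,[(29,0)]⟩),⟨0,[]⟩,.k,.k,.k,(.r 0 ⟨2,[(9,0),(6,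
  0),(4,1),(2,0),(24,0)]⟩ ⟨4,[(6,0),(1,1),(18,1),(0,1)]⟩),.k,.k,⟨true,0,⟨0,[]⟩,⟨1,[(34,0),(0,0)]⟩⟩,
  ⟨false,0,⟨0,[(28,0)]⟩,⟨8,[(0,4),(5,0),(1,1),(18,3),(25,1)]⟩⟩,⟨false,1,⟨4,[(6,0),(1,1),(18,1),(0,
  1)]⟩,⟨1,[(16,0),(26,0),(8,0)]⟩⟩,⟨true,0,⟨0,[(28,0),(22,0)]⟩,⟨0,[(0,0)]⟩⟩,⟨true,0,⟨0,[(45,0)]⟩,⟨0,
  [(55,0)]⟩⟩,⟨false,0,⟨0,[(28,0)]⟩,⟨0,[(3,0)]⟩⟩,[]⟩) (.S ⟨1,0,[1,1],[0,0,0,0,1],[],(⟨0,[(30,0)]⟩,⟨0,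
  [(29,0)]⟩),⟨1,[(2,0),(9,0),(12,0),(4,0)]⟩,.k,(.r (-1) ⟨4,[(6,0),(1,1),(18,1),(0,1)]⟩ ⟨2,[(9,0),(6,
  0),(4,1),(2,0),(24,0)]⟩),⟨false,1,⟨1,[(7,0),(20,0),(25,0)]⟩,⟨0,[]⟩⟩,⟨true,0,⟨0,[(56,0)]⟩,⟨0,[]⟩⟩,
  ⟨true,0,⟨0,[(13,0),(0,0),(28,0),(1,1)]⟩,⟨0,[(51,0)]⟩⟩,⟨false,0,⟨0,[(52,0)]⟩,⟨5,[(0,1),(22,1),(3,
  1),(11,0),(14,2)]⟩⟩,[.o ⟨false,0,⟨1,[(0,0),(15,0),(11,0),(10,0),(5,1)]⟩,⟨0,[(3,0)]⟩⟩,.a ⟨true,0,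
  ⟨0,[(28,0)]⟩,⟨0,[(1,0)]⟩⟩ ⟨false,1,⟨1,[(53,0),(0,0)]⟩,⟨0,[(56,0)]⟩⟩ ⟨true,0,⟨0,[]⟩,⟨1,[(34,0),(0,
  0)]⟩⟩,.e ⟨false,1,⟨1,[(27,0),(0,0),(25,0)]⟩,⟨0,[]⟩⟩ ⟨false,0,⟨0,[]⟩,⟨1,[(27,0),(0,0),(25,0)]⟩⟩,.o
  ⟨false,0,⟨1,[(0,0),(15,0),(11,0),(19,0)]⟩,⟨1,[(1,1),(37,0),(13,0)]⟩⟩]⟩)) (.R ⟨1,false,false,false,
  [0,0,1],[1,0,0,0,-1],[1,0,0,-1,0,0,0,1],(⟨0,[(36,0)]⟩,⟨0,[(35,0)]⟩),(⟨0,[(28,0)]⟩,⟨0,[(29,0)]⟩),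
  ⟨0,[(25,0)]⟩,.k,.k,.k,.k,(.r (-1) ⟨4,[(5,2),(1,0),(18,0),(0,0)]⟩ ⟨0,[(20,0),(34,0)]⟩),.k,⟨false,1,
  ⟨4,[(5,2),(1,0),(18,0),(0,0)]⟩,⟨1,[(17,0),(2,0),(31,0)]⟩⟩,⟨true,0,⟨0,[(2,0),(10,0),(30,0)]⟩,⟨2,
  [(0,1),(2,0),(13,0),(2,0),(6,0),(5,0)]⟩⟩,⟨false,1,⟨3,[(3,0),(18,0),(9,1),(20,2)]⟩,⟨0,[(51,0)]⟩⟩,
  ⟨true,0,⟨0,[(2,0),(11,0),(15,0)]⟩,⟨0,[(0,0),(30,0)]⟩⟩,⟨true,0,⟨0,[]⟩,⟨0,[(55,0)]⟩⟩,⟨true,0,⟨0,[(2,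
  0),(14,0),(12,0)]⟩,⟨0,[(0,0),(17,0)]⟩⟩,[.o ⟨false,1,⟨0,[(6,0)]⟩,⟨0,[(0,0)]⟩⟩,.o ⟨false,1,⟨0,[(2,
  0)]⟩,⟨0,[(0,0),(54,0)]⟩⟩,.o ⟨false,1,⟨1,[(33,1),(4,0),(13,0)]⟩,⟨0,[(19,0)]⟩⟩,.a ⟨true,0,⟨0,[(33,
  0)]⟩,⟨0,[(30,0)]⟩⟩ ⟨true,1,⟨4,[(5,2),(1,0),(18,0),(0,0)]⟩,⟨0,[(17,0)]⟩⟩ ⟨false,1,⟨0,[(2,0),(27,
  0)]⟩,⟨0,[(0,0),(32,0)]⟩⟩]⟩)) (.Q [-1,0,-1,0,1,0,1,0,-1,0,1,-1] (.p true [0,0,1] [0,0,0,0,1] (⟨0,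
  [(35,0)]⟩,⟨0,[(34,0)]⟩) .k 2 (⟨0,[(28,0)]⟩,⟨0,[(27,0)]⟩) .k (.r (-1) ⟨9,[(5,3),(1,4),(14,4),(3,3),
  (14,0),(12,1)]⟩ ⟨2,[(6,0),(9,0),(2,0)]⟩)) (.S ⟨1,0,[-1,1],[1,0,0,0,-1],[-1],(⟨0,[(28,0)]⟩,⟨0,[(29,
  0)]⟩),⟨0,[(1,0)]⟩,.k,(.r (-1) ⟨4,[(5,0),(0,1),(0,1),(19,1)]⟩ ⟨2,[(8,0),(6,0),(4,1),(2,0),(24,
  0)]⟩),⟨false,1,⟨1,[(26,0),(0,0),(25,0)]⟩,⟨0,[]⟩⟩,⟨true,0,⟨0,[(55,0)]⟩,⟨0,[]⟩⟩,⟨true,0,⟨0,[(51,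
  0)]⟩,⟨0,[(50,0)]⟩⟩,⟨false,0,⟨0,[(51,0)]⟩,⟨3,[(3,0),(18,0),(9,1),(20,2)]⟩⟩,[.o ⟨false,0,⟨0,[(0,0),
  (9,0),(33,0)]⟩,⟨1,[(27,1),(10,0),(14,0)]⟩⟩,.e ⟨false,1,⟨1,[(42,0),(9,0)]⟩,⟨0,[(55,0)]⟩⟩ ⟨false,1,
  ⟨1,[(6,0),(20,0),(24,0)]⟩,⟨0,[]⟩⟩,.a ⟨true,0,⟨0,[(0,0),(12,0)]⟩,⟨0,[(27,0)]⟩⟩ ⟨false,1,⟨1,[(6,0),
  (20,0),(25,0)]⟩,⟨0,[]⟩⟩ ⟨true,0,⟨0,[(55,0)]⟩,⟨0,[]⟩⟩,.o ⟨false,0,⟨0,[(0,0),(9,0)]⟩,⟨1,[(27,1),(10,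
  0),(13,0)]⟩⟩]⟩) (.Q [0,0,1,0,0,0,0,0,-1,0,0,-1] (.p false [0,0,0,0,1] [] (⟨0,[(29,0)]⟩,⟨0,[(28,
  0)]⟩) .k 0 (⟨0,[]⟩,⟨0,[]⟩) .k .k) (.R ⟨1,false,false,true,[1,0,0,0,-1],[1,-1],[1,1,1],(⟨0,[(29,
  0)]⟩,⟨0,[(30,0)]⟩),(⟨0,[(40,0)]⟩,⟨0,[(41,0)]⟩),⟨0,[(2,0)]⟩,.k,.k,(.r (-1) ⟨4,[(6,0),(0,1),(0,1),
  (19,1)]⟩ ⟨2,[(9,0),(6,0),(4,1),(2,0),(24,0)]⟩),(.r 0 ⟨2,[(9,0),(6,0),(4,1),(2,0),(24,0)]⟩ ⟨4,[(6,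
  0),(1,1),(18,1),(0,1)]⟩),.k,.k,⟨true,(-1),⟨0,[(16,0)]⟩,⟨4,[(6,0),(1,1),(18,1),(0,1)]⟩⟩,⟨false,0,
  ⟨0,[(28,0)]⟩,⟨0,[(0,0),(52,0)]⟩⟩,⟨false,0,⟨1,[(34,0),(0,0)]⟩,⟨1,[(43,0),(9,0)]⟩⟩,⟨false,0,⟨6,[(1,
  1),(2,0),(3,0),(1,0),(12,0),(4,4)]⟩,⟨0,[(3,0),(48,0)]⟩⟩,⟨true,(-1),⟨0,[(16,0),(28,0)]⟩,⟨4,[(6,0),
  (0,1),(0,1),(19,1)]⟩⟩,⟨false,0,⟨0,[(28,0)]⟩,⟨0,[(3,0)]⟩⟩,[.o ⟨false,0,⟨0,[(51,0)]⟩,⟨1,[(39,0),(12,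
  1),(1,0)]⟩⟩,.a ⟨true,0,⟨15,[(7,2),(15,7),(4,2),(9,1),(1,1),(6,2)]⟩,⟨0,[(52,0)]⟩⟩ ⟨false,0,⟨0,[]⟩,
  ⟨1,[(27,0),(0,0),(24,0)]⟩⟩ ⟨true,0,⟨8,[(1,2),(2,0),(3,1),(8,0),(3,0),(1,0),(4,5)]⟩,⟨0,[(0,0),(51,
  0)]⟩⟩,.e ⟨false,0,⟨1,[(34,0),(0,0)]⟩,⟨1,[(53,0),(0,0)]⟩⟩ ⟨false,0,⟨8,[(1,2),(2,0),(3,1),(8,0),(3,
  0),(1,0),(4,5)]⟩,⟨0,[(3,0),(48,0)]⟩⟩,.o ⟨false,0,⟨0,[(0,0)]⟩,⟨1,[(28,1),(10,0),(13,0)]⟩⟩]⟩) (.R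
  ⟨2,true,false,false,[0,1],[0,0,0,0,1],[1,0,1],(⟨0,[]⟩,⟨0,[]⟩),(⟨0,[(30,0)]⟩,⟨0,[(29,0)]⟩),⟨0,[]⟩,
  .k,.k,.k,(.r 0 ⟨2,[(9,0),(6,0),(4,1),(2,0),(24,0)]⟩ ⟨4,[(6,0),(1,1),(18,1),(0,1)]⟩),.k,.k,⟨true,0,
  ⟨1,[(34,0),(0,0)]⟩,⟨0,[]⟩⟩,⟨false,0,⟨0,[(28,0)]⟩,⟨0,[(3,0),(41,0)]⟩⟩,⟨false,1,⟨3,[(4,0),(18,0),(9,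
  1),(20,2)]⟩,⟨0,[(52,0)]⟩⟩,⟨true,0,⟨6,[(1,1),(2,0),(3,0),(1,0),(12,0),(4,4)]⟩,⟨0,[(3,0),(12,0),(28,
  1)]⟩⟩,⟨true,0,⟨0,[]⟩,⟨0,[(56,0)]⟩⟩,⟨false,0,⟨0,[(0,0),(43,0)]⟩,⟨0,[(7,0)]⟩⟩,[]⟩)))) (.Q [0,0,0,0,
  0,1,0,0,0,0,0,-1] (.ed true [1,-1,0,0,1] .k) (.Q [0,0,0,0,1,0,1,0,-1,0,1,-1] (.p true [0,0,1] [0,
  0,0,0,1] (⟨0,[(35,0)]⟩,⟨0,[(34,0)]⟩) .k 2 (⟨0,[(28,0)]⟩,⟨0,[(27,0)]⟩) .k (.r (-1) ⟨9,[(5,3),(1,4),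
  (14,4),(3,3),(14,0),(12,1)]⟩ ⟨2,[(6,0),(9,0),(2,0)]⟩)) (.Q [0,0,0,0,0,0,1,0,1,-1,1,1] (.p true [0,
  0,1] [1,0,0,0,-1] (⟨0,[(36,0)]⟩,⟨0,[(35,0)]⟩) .k 2 (⟨0,[(28,0)]⟩,⟨0,[(29,0)]⟩) .k (.r (-1) ⟨1,[(8,
  0),(14,0),(2,0),(0,0)]⟩ ⟨0,[(7,0),(4,1),(0,1),(28,0),(1,1)]⟩)) (.K ⟨0,[0,0,0,0,1],(-1),(-1),(⟨0,
  [(30,0)]⟩,⟨0,[(29,0)]⟩),.k,(.r (-1) ⟨4,[(6,0),(1,1),(18,1),(0,1)]⟩ ⟨2,[(9,0),(6,0),(4,1),(2,0),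
  (24,0)]⟩),(.r 0 ⟨2,[(9,0),(6,0),(4,1),(2,0),(24,0)]⟩ ⟨4,[(6,0),(0,1),(0,1),(19,1)]⟩),.k,.k,[⟨0,
  [(1,0)]⟩,⟨0,[(0,0),(13,0)]⟩,⟨0,[(27,0),(28,0)]⟩,⟨0,[(3,0)]⟩]⟩) (.S ⟨1,0,[-1,1],[1,0,0,0,-1],[-1],
  (⟨0,[(29,0)]⟩,⟨0,[(30,0)]⟩),⟨1,[(2,0),(9,0),(12,0),(3,0)]⟩,.k,(.r (-1) ⟨4,[(6,0),(0,1),(0,1),(19,
  1)]⟩ ⟨2,[(9,0),(6,0),(4,1),(2,0),(24,0)]⟩),⟨false,1,⟨1,[(27,0),(0,0),(25,0)]⟩,⟨0,[]⟩⟩,⟨true,0,⟨0,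
  [(56,0)]⟩,⟨0,[]⟩⟩,⟨true,0,⟨0,[(52,0)]⟩,⟨0,[(51,0)]⟩⟩,⟨false,0,⟨0,[(52,0)]⟩,⟨11,[(1,1),(2,0),(3,1),
  (14,2),(4,1),(6,3),(3,0),(14,5)]⟩⟩,[.a ⟨true,0,⟨20,[(0,12),(0,7),(10,1),(5,4),(0,4),(5,1),(12,5),
  (8,2),(1,4),(6,0)]⟩,⟨0,[(3,0),(50,0)]⟩⟩ ⟨false,1,⟨1,[(7,0),(20,0),(24,0)]⟩,⟨0,[]⟩⟩ ⟨true,0,⟨0,
  [(56,0)]⟩,⟨0,[(44,0)]⟩⟩,.o ⟨false,1,⟨0,[(7,0)]⟩,⟨1,[(3,1),(35,0),(14,0)]⟩⟩,.o ⟨false,1,⟨0,[(27,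
  0)]⟩,⟨1,[(3,1),(44,0),(5,0)]⟩⟩,.e ⟨false,1,⟨1,[(43,0),(9,0)]⟩,⟨1,[(34,0),(0,0)]⟩⟩ ⟨false,1,⟨1,[(7,
  0),(20,0),(24,0)]⟩,⟨0,[(44,0)]⟩⟩]⟩)) (.R ⟨0,false,false,false,[0,0,0,0,1],[0,1],[],(⟨0,[(29,0)]⟩,
  ⟨0,[(28,0)]⟩),(⟨0,[(40,0)]⟩,⟨0,[(39,0)]⟩),⟨0,[(1,0)]⟩,.k,.k,(.r (-1) ⟨4,[(5,0),(1,1),(18,1),(0,
  1)]⟩ ⟨2,[(8,0),(6,0),(4,1),(2,0),(24,0)]⟩),(.r (-1) ⟨4,[(5,0),(1,1),(18,1),(0,1)]⟩ ⟨2,[(8,0),(6,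
  0),(4,1),(2,0),(24,0)]⟩),.k,.k,⟨true,1,⟨4,[(5,0),(1,1),(18,1),(0,1)]⟩,⟨0,[(15,0)]⟩⟩,⟨false,2,⟨0,
  [(26,0),(25,0)]⟩,⟨0,[(0,0),(32,0)]⟩⟩,⟨false,1,⟨1,[(6,0),(20,0),(25,0)]⟩,⟨0,[]⟩⟩,⟨true,1,⟨0,[(26,
  0),(24,0)]⟩,⟨2,[(0,0),(1,1),(6,0),(6,0)]⟩⟩,⟨false,0,⟨0,[]⟩,⟨0,[]⟩⟩,⟨false,0,⟨0,[]⟩,⟨0,[]⟩⟩,[.a
  ⟨true,0,⟨0,[(51,0)]⟩,⟨15,[(6,2),(15,7),(4,2),(9,1),(1,1),(6,2)]⟩⟩ ⟨false,1,⟨1,[(26,0),(0,0),(24,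
  0)]⟩,⟨0,[]⟩⟩ ⟨true,1,⟨0,[(26,0),(24,0)]⟩,⟨4,[(0,4),(2,0),(5,1),(5,0),(6,0),(10,2)]⟩⟩,.o ⟨false,1,
  ⟨1,[(38,0),(12,1),(1,0)]⟩,⟨0,[(50,0)]⟩⟩,.o ⟨false,0,⟨10,[(0,5),(6,1),(0,0),(3,3),(14,4),(10,2)]⟩,
  ⟨0,[(26,0)]⟩⟩,.e ⟨false,1,⟨1,[(52,0),(0,0)]⟩,⟨1,[(33,0),(0,0)]⟩⟩ ⟨false,2,⟨1,[(26,1),(24,1),(0,0),
  (0,0)]⟩,⟨4,[(0,4),(2,0),(5,1),(5,0),(6,0),(10,2)]⟩⟩]⟩)) (.Q [0,0,1,0,-1,0,0,0,1,0,0,1] (.p true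
  [0,0,0,0,1] [] (⟨0,[(28,0)]⟩,⟨0,[(27,0)]⟩) .k 0 (⟨0,[]⟩,⟨0,[]⟩) .k .k) (.S ⟨1,0,[1,1],[0,0,0,0,1],
  [1,1,1],(⟨0,[(29,0)]⟩,⟨0,[(28,0)]⟩),⟨0,[(1,0)]⟩,.k,(.r (-1) ⟨4,[(5,0),(1,1),(18,1),(0,1)]⟩ ⟨2,[(8,
  0),(6,0),(4,1),(2,0),(24,0)]⟩),⟨false,0,⟨1,[(33,0),(0,0)]⟩,⟨1,[(52,0),(0,0)]⟩⟩,⟨true,0,⟨0,[(55,
  0)]⟩,⟨0,[]⟩⟩,⟨true,(-1),⟨0,[(12,0),(0,0),(30,0)]⟩,⟨4,[(5,0),(1,1),(18,1),(0,1)]⟩⟩,⟨false,0,⟨0,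
  [(51,0)]⟩,⟨3,[(3,0),(18,0),(9,1),(20,2)]⟩⟩,[.e ⟨false,0,⟨0,[(55,0)]⟩,⟨1,[(52,0),(0,0)]⟩⟩ ⟨false,0,
  ⟨0,[(44,0)]⟩,⟨1,[(26,0),(0,0),(25,0)]⟩⟩,.o ⟨false,0,⟨1,[(0,1),(37,0),(13,0)]⟩,⟨0,[(6,0)]⟩⟩,.o
  ⟨false,0,⟨1,[(0,1),(37,0),(13,0)]⟩,⟨0,[(26,0)]⟩⟩,.a ⟨true,(-1),⟨0,[(0,0)]⟩,⟨1,[(6,1),(39,0),(5,
  0)]⟩⟩ ⟨false,0,⟨0,[]⟩,⟨1,[(26,0),(0,0),(25,0)]⟩⟩ ⟨true,0,⟨0,[(44,0)]⟩,⟨1,[(33,0),(0,0)]⟩⟩]⟩) (.R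
  ⟨2,true,false,true,[0,1],[0,0,0,0,1],[1,1,1],(⟨0,[]⟩,⟨0,[]⟩),(⟨0,[(29,0)]⟩,⟨0,[(28,0)]⟩),⟨0,[]⟩,
  .k,.k,.k,(.r 0 ⟨2,[(8,0),(6,0),(4,1),(2,0),(24,0)]⟩ ⟨4,[(5,0),(1,1),(18,1),(0,1)]⟩),.k,.k,⟨true,0,
  ⟨1,[(33,0),(0,0)]⟩,⟨0,[]⟩⟩,⟨false,0,⟨0,[(27,0)]⟩,⟨0,[(0,0)]⟩⟩,⟨true,0,⟨0,[(50,0)]⟩,⟨0,[(51,0)]⟩⟩,
  ⟨false,0,⟨7,[(2,1),(0,0),(3,1),(2,1),(11,0),(4,5),(25,0)]⟩,⟨1,[(0,1),(14,0),(35,0),(1,0)]⟩⟩,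
  ⟨false,0,⟨0,[]⟩,⟨1,[(26,0),(0,0),(25,0)]⟩⟩,⟨true,(-1),⟨0,[(2,0)]⟩,⟨0,[(6,0)]⟩⟩,[]⟩)))))) (.R ⟨1,
  true,false,false,[0,0,1],[1,0,-1],[0,1,0,0,0,0,0,1],(⟨0,[(31,0)]⟩,⟨0,[(30,0)]⟩),(⟨0,[(30,0)]⟩,⟨0,
  [(31,0)]⟩),⟨0,[(20,0)]⟩,.k,.k,.k,.k,(.x (-1) ⟨92,[(0,25),(1,19),(0,42),(11,13),(12,99),(1,185),(2,
  55),(6,30),(2,6)]⟩ ⟨0,[(5,0),(0,1),(18,0),(14,0),(6,0)]⟩),.k,⟨true,0,⟨0,[(3,0),(1,0),(19,0),(13,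
  0)]⟩,⟨0,[(4,0),(10,0)]⟩⟩,⟨false,0,⟨0,[(14,0),(10,0)]⟩,⟨30,[(0,11),(1,13),(0,26),(11,15),(12,7),(4,
  1),(9,7)]⟩⟩,⟨true,0,⟨0,[(50,0)]⟩,⟨0,[]⟩⟩,⟨false,0,⟨9,[(0,7),(1,3),(2,0),(8,0),(3,7),(6,1),(22,
  4)]⟩,⟨0,[(3,0)]⟩⟩,⟨false,0,⟨0,[(46,0)]⟩,⟨3,[(17,1),(3,0),(0,0),(10,0),(14,1)]⟩⟩,⟨true,(-1),⟨0,[(0,
  0),(13,0),(10,0)]⟩,⟨0,[(3,0),(41,0)]⟩⟩,[]⟩)))) (.Q [0,0,0,-1,-1,0,-2,-2,0,1,-2] (.p false [0,0,1]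
  [1,0,-1] (⟨0,[(28,0)]⟩,⟨0,[(27,0)]⟩) .k 2 (⟨0,[(27,0)]⟩,⟨0,[(28,0)]⟩) .k (.r (-1) ⟨0,[(13,1),(30,
  0)]⟩ ⟨1,[(1,1),(7,0),(2,0),(31,0)]⟩)) (.R ⟨0,false,false,false,[1,-1,-1],[0,-1,1],[],(⟨0,[(17,
  0)]⟩,⟨10,[(19,0),(0,0),(8,10),(3,4),(4,1),(0,0)]⟩),(⟨0,[(18,0)]⟩,⟨10,[(19,0),(0,0),(7,10),(4,4),
  (4,1),(0,0)]⟩),⟨2,[(4,0),(13,1),(11,0),(7,2)]⟩,.k,.k,(.r (-1) ⟨1,[(0,1),(4,1),(3,1),(35,2),(0,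
  0)]⟩ ⟨1,[(13,0),(0,2),(29,2),(3,0)]⟩),.k,.k,.k,⟨false,0,⟨1,[(10,0),(2,0),(31,0)]⟩,⟨3,[(9,1),(4,1),
  (8,1),(7,0),(13,1),(0,0)]⟩⟩,⟨true,1,⟨5,[(2,1),(2,5),(3,1),(16,3),(18,4),(0,0)]⟩,⟨0,[(3,0),(19,
  0)]⟩⟩,⟨true,0,⟨0,[(14,0),(29,0)]⟩,⟨0,[(2,0),(34,0)]⟩⟩,⟨false,2,⟨1,[(24,3),(6,0),(14,2)]⟩,⟨0,[(1,
  0)]⟩⟩,⟨false,0,⟨0,[]⟩,⟨0,[]⟩⟩,⟨false,0,⟨0,[]⟩,⟨0,[]⟩⟩,[.o ⟨false,1,⟨1,[(11,1),(19,0),(14,0)]⟩,⟨9,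
  [(1,2),(11,1),(2,0),(8,1),(5,1),(12,7),(0,0)]⟩⟩,.a ⟨true,1,⟨0,[(11,0),(34,0)]⟩,⟨0,[(10,0),(12,
  0)]⟩⟩ ⟨false,1,⟨1,[(45,0),(0,0)]⟩,⟨0,[(48,0)]⟩⟩ ⟨true,2,⟨0,[(5,0),(3,0),(35,0),(0,0)]⟩,⟨1,[(1,0),
  (1,0),(4,1),(14,0),(17,0)]⟩⟩,.e ⟨false,1,⟨1,[(19,0),(0,0),(25,0)]⟩,⟨0,[]⟩⟩ ⟨false,2,⟨0,[(5,0),(3,
  0),(35,0),(0,0)]⟩,⟨1,[(1,0),(6,0),(7,0),(27,0)]⟩⟩,.o ⟨false,(-1),⟨0,[(3,0)]⟩,⟨1,[(26,1),(4,0),(13,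
  2)]⟩⟩]⟩) (.R ⟨1,true,false,false,[1,0,-1],[0,0,1],[1,1,0,-1,0,0,0,-1],(⟨0,[(28,0)]⟩,⟨0,[(29,0)]⟩),
  (⟨0,[(29,0)]⟩,⟨0,[(28,0)]⟩),⟨0,[(17,0)]⟩,.k,.k,.k,.k,(.r (-1) ⟨7,[(2,9),(10,1),(11,3),(0,3),(18,
  6),(0,0)]⟩ ⟨0,[(0,0),(2,0),(19,0)]⟩),.k,⟨false,0,⟨1,[(2,2),(7,0),(26,0),(7,0)]⟩,⟨1,[(0,1),(2,0),
  (8,0),(10,1),(22,0)]⟩⟩,⟨true,1,⟨1,[(0,0),(1,1),(2,0),(20,0),(18,0)]⟩,⟨0,[(3,0),(19,0)]⟩⟩,⟨true,0,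
  ⟨0,[(43,0)]⟩,⟨0,[(44,0)]⟩⟩,⟨false,2,⟨9,[(0,7),(8,3),(9,3),(0,3),(10,0),(14,6)]⟩,⟨0,[(1,0)]⟩⟩,
  ⟨false,0,⟨0,[]⟩,⟨1,[(19,0),(0,0),(25,0)]⟩⟩,⟨true,1,⟨0,[(0,0)]⟩,⟨0,[(1,0),(41,0)]⟩⟩,[]⟩))))))

theorem ok59 : chk K t59 r29 = true := by decide +kernel

noncomputable def t67 : Tre :=
  (.Q [0,1,0,-1,0,0,-1,-1,0,0,-1] (.p false [0,0,1] [] (⟨0,[(17,0)]⟩,⟨0,[(16,0)]⟩) .k 0 (⟨0,[]⟩,⟨0,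
  []⟩) .k .k) (.I [0,0,-2,-2,1,0,0,-1] (.K ⟨0,[0,1,1],0,0,(⟨10,[(9,0),(0,0),(8,10),(3,4),(4,1),(0,
  0)]⟩,⟨0,[(7,0)]⟩),.k,.k,(.r 0 ⟨1,[(3,0),(0,2),(29,2),(3,0)]⟩ ⟨0,[(0,0)]⟩),.k,.k,[⟨1,[(16,0),(0,
  0)]⟩,⟨0,[(2,0)]⟩,⟨0,[(1,0)]⟩,⟨0,[(14,0),(19,0)]⟩]⟩) (.I [0,0,2,0,-1,2,-1] (.K ⟨0,[0,1,1],0,0,(⟨9,
  [(0,1),(16,1),(2,7),(8,1),(0,0),(5,2)]⟩,⟨0,[(8,0)]⟩),.k,.k,(.x (-2) ⟨3,[(3,1),(4,5),(0,1),(7,1),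
  (4,2),(13,4)]⟩ ⟨0,[(0,0)]⟩),.k,.k,[⟨1,[(17,0),(0,0)]⟩,⟨0,[(3,0)]⟩,⟨0,[(2,0)]⟩,⟨0,[(15,0),(19,
  0)]⟩]⟩) (.S ⟨1,0,[0,0,1,1,0,0,0,1],[0,1,1],[0,1,1,1,0,0,0,1],(⟨10,[(10,0),(0,0),(8,10),(3,4),(4,
  1),(0,0)]⟩,⟨0,[(8,0)]⟩),⟨0,[(20,0)]⟩,.k,.k,⟨true,0,⟨0,[(39,0)]⟩,⟨0,[]⟩⟩,⟨false,1,⟨1,[(10,0),(0,0),
  (25,0)]⟩,⟨0,[]⟩⟩,⟨false,0,⟨0,[(35,0)]⟩,⟨3,[(6,1),(3,0),(0,0),(10,0),(14,1)]⟩⟩,⟨true,0,⟨0,[(35,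
  0)]⟩,⟨0,[(34,0)]⟩⟩,[.e ⟨false,0,⟨7,[(1,3),(5,1),(7,3),(6,0),(9,1),(3,2)]⟩,⟨1,[(0,1),(1,0),(1,0),
  (1,0),(2,1),(4,0),(12,1),(1,1)]⟩⟩ ⟨false,0,⟨1,[(0,0),(0,0),(3,0),(3,0),(4,0),(14,0)]⟩,⟨1,[(2,1),
  (0,1),(32,0),(0,0)]⟩⟩,.o ⟨false,1,⟨3,[(0,1),(0,1),(7,1),(5,1),(6,0),(6,1),(7,2)]⟩,⟨0,[(2,0)]⟩⟩,.o
  ⟨false,1,⟨1,[(3,1),(18,0),(13,0)]⟩,⟨0,[(18,0)]⟩⟩,.a ⟨true,0,⟨0,[(3,0)]⟩,⟨9,[(7,5),(9,1),(12,1),(5,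
  0),(0,0),(1,1)]⟩⟩ ⟨false,0,⟨1,[(0,0),(0,0),(3,0),(3,0),(4,0),(14,0)]⟩,⟨0,[(2,0),(0,0),(33,0)]⟩⟩
  ⟨true,0,⟨1,[(0,0),(0,0),(3,0),(3,0),(4,0),(14,0)]⟩,⟨0,[(2,0),(0,0)]⟩⟩]⟩))) (.R ⟨2,true,false,
  false,[0,1],[0,1,1],[1,0,1],(⟨0,[]⟩,⟨0,[]⟩),(⟨10,[(8,0),(0,0),(8,10),(3,4),(4,1),(0,0)]⟩,⟨0,[(6,
  0)]⟩),⟨0,[]⟩,.k,.k,.k,.k,.k,.k,⟨false,1,⟨1,[(2,1),(1,1),(15,0),(5,1),(7,0)]⟩,⟨0,[(0,0),(15,0),(9,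
  0)]⟩⟩,⟨true,0,⟨0,[(1,0)]⟩,⟨0,[(16,0)]⟩⟩,⟨false,1,⟨3,[(4,1),(3,0),(0,0),(10,0),(14,1)]⟩,⟨0,[(33,
  0)]⟩⟩,⟨true,0,⟨0,[(0,0),(31,0)]⟩,⟨0,[(14,0)]⟩⟩,⟨true,0,⟨0,[]⟩,⟨0,[(37,0)]⟩⟩,⟨false,0,⟨0,[(0,0)]⟩,
  ⟨3,[(4,1),(3,0),(0,0),(4,3),(5,0),(14,1)]⟩⟩,[]⟩))

theorem ok67 : chk K t67 r22 = true := by decide +kernel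


end Helper48.Y.Y11_c35_P3_m1n1_CB
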