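import Pool.Agent.Helper48.Y.Y11_c35_P3_m1n1_CB_q

set_option autoImplicit false
set_option linter.all false

namespace Helper48.Y.Y11_c35_P3_m1n1_CB

open Helper25.KG Helper25.KW Helper55.KE Helper11.CT

noncomputable def t70 : Tre :=
  (.K ⟨0,[0,1,1],0,0,(⟨10,[(5,0),(0,0),(8,10),(3,4),(4,1),(0,0)]⟩,⟨0,[(3,0)]⟩),.k,.k,(.r 0 ⟨0,[(10,
  0),(2,0),(8,0),(7,1)]⟩ ⟨1,[(0,1),(0,1),(15,0),(13,0)]⟩),.k,.k,[⟨1,[(12,0),(0,0)]⟩,⟨0,[(0,0),(9,0),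
  (11,0)]⟩,⟨0,[(0,0),(12,0),(15,0)]⟩,⟨0,[(10,0),(19,0)]⟩]⟩)

theorem ok70 : chk K t70 r1 = true := by decide +kernel


end Helper48.Y.Y11_c35_P3_m1n1_CB
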