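import Pool.Agent.Helper48.Y.Y11_c35_P3_m1n1_CB_p0
import Pool.Agent.Helper48.Y.Y11_c35_P3_m1n1_CB_p1
import Pool.Agent.Helper48.Y.Y11_c35_P3_m1n1_CB_p2

set_option autoImplicit false
set_option linter.all false

namespace Helper48.Y.Y11_c35_P3_m1n1_CB

open Helper25.KG Helper25.KW Helper55.KE Helper11.CT

noncomputable def t7 : Tre :=
  .I [1,1,2,1,-1,0,0,-1] t5 t6

theorem ok7 : chk K t7 r10 = true :=
  chk_I (e' := [0,-1,-2,-1,1,0,0,1]) (by decide +kernel) (by decide +kernel) ok5 ok6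

noncomputable def t8 : Tre :=
  .I [0,0,2,0,-1,2,1] t4 t7

theorem ok8 : chk K t8 r9 = true :=
  chk_I (e' := [1,0,-2,0,1,-2,-1]) (by decide +kernel) (by decide +kernel) ok4 ok7

noncomputable def t9 : Tre :=
  .Q [0,0,-1,-1,0,0,-1,0,0,1,-1] (.p false [0,0,1] [1] (⟨0,[(22,0)]⟩,⟨0,[(21,0)]⟩) .k 1 (⟨0,[]⟩,⟨0,
  []⟩) .k .k) t3 t8

theorem ok9 : chk K t9 r8 = true :=
  chk_Q (e' := [0,0,1,1,0,0,1,0,0,-1,1]) (by decide +kernel) (by decide +kernel) ok3 ok8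

noncomputable def t10 : Tre :=
  .Q [0,-1,0,1,0,0,-1,-1,0,1,-1] (.p false [0,0,1] [1] (⟨0,[(21,0)]⟩,⟨0,[(20,0)]⟩) .k 1 (⟨0,[]⟩,⟨0,
  []⟩) .k .k) t2 t9

theorem ok10 : chk K t10 l7 = true :=
  chk_Q (e' := [0,1,0,-1,0,0,1,1,0,-1,1]) (by decide +kernel) (by decide +kernel) ok2 ok9

noncomputable def t12 : Tre :=
  .Q [0,0,0,0,0,0,-1,0,0,0,-1] (.p false [0,0,1] [] (⟨0,[(20,0)]⟩,⟨0,[(19,0)]⟩) .k 0 (⟨0,[]⟩,⟨0,
  []⟩) .k .k) t10 t11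

theorem ok12 : chk K t12 r6 = true :=
  chk_Q (e' := [0,0,0,0,0,0,1,0,0,0,1]) (by decide +kernel) (by decide +kernel) ok10 ok11

noncomputable def t13 : Tre :=
  .Q [0,0,0,1,0,0,-1,-1,0,0,-1] (.p false [0,0,1] [] (⟨0,[(19,0)]⟩,⟨0,[(18,0)]⟩) .k 0 (⟨0,[]⟩,⟨0,
  []⟩) .k .k) t1 t12

theorem ok13 : chk K t13 l5 = true :=
  chk_Q (e' := [0,0,0,-1,0,0,1,1,0,0,1]) (by decide +kernel) (by decide +kernel) ok1 ok12

noncomputable def t15 : Tre :=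
  .Q [0,-1,0,-1,1,0,1,1,0,-1,1] (.p true [0,0,1] [1] (⟨0,[(18,0)]⟩,⟨0,[(17,0)]⟩) .k 1 (⟨0,[]⟩,⟨0,
  []⟩) .k .k) t13 t14

theorem ok15 : chk K t15 l4 = true :=
  chk_Q (e' := [0,1,0,1,-1,0,-1,-1,0,1,-1]) (by decide +kernel) (by decide +kernel) ok13 ok14

noncomputable def t17 : Tre :=
  .I [1,1,0,0,0,0,0,-1] t15 t16

theorem ok17 : chk K t17 l3 = true :=
  chk_I (e' := [0,-1,0,0,0,0,0,1]) (by decide +kernel) (by decide +kernel) ok15 ok16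

noncomputable def t27 : Tre :=
  .Q [1,0,0,0,-1,0,0,0,1,0,0,1] (.p true [0,0,0,0,1] [] (⟨0,[(19,0)]⟩,⟨0,[(18,0)]⟩) .k 0 (⟨0,[]⟩,⟨0,
  []⟩) .k .k) t25 t26

theorem ok27 : chk K t27 r20 = true :=
  chk_Q (e' := [-1,0,0,0,1,0,0,0,-1,0,0,-1]) (by decide +kernel) (by decide +kernel) ok25 ok26

noncomputable def t28 : Tre :=
  .Q [-1,0,0,1,0,0,0,0,-1,0,0,-1] (.p false [0,0,0,0,1] [] (⟨0,[(18,0)]⟩,⟨0,[(17,0)]⟩) .k 0 (⟨0,[]⟩,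
  ⟨0,[]⟩) .k .k) t24 t27

theorem ok28 : chk K t28 l19 = true :=
  chk_Q (e' := [1,0,0,-1,0,0,0,0,1,0,0,1]) (by decide +kernel) (by decide +kernel) ok24 ok27

noncomputable def t30 : Tre :=
  .Q [0,0,2,0,0,0,1,0,0,-1,1] (.p true [0,0,1] [1] (⟨0,[(24,0)]⟩,⟨0,[(23,0)]⟩) .k 1 (⟨0,[]⟩,⟨0,[]⟩)
  .k .k) t28 t29

theorem ok30 : chk K t30 r18 = true :=
  chk_Q (e' := [0,0,-2,0,0,0,-1,0,0,1,-1]) (by decide +kernel) (by decide +kernel) ok28 ok29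

noncomputable def t31 : Tre :=
  .Q [0,0,0,2,0,0,1,1,0,-1,1] (.p true [0,0,1] [1] (⟨0,[(23,0)]⟩,⟨0,[(22,0)]⟩) .k 1 (⟨0,[]⟩,⟨0,[]⟩)
  .k .k) t23 t30

theorem ok31 : chk K t31 r17 = true :=
  chk_Q (e' := [0,0,0,-2,0,0,-1,-1,0,1,-1]) (by decide +kernel) (by decide +kernel) ok23 ok30

noncomputable def t32 : Tre :=
  .I [0,0,-2,-1,1] t22 t31

theorem ok32 : chk K t32 r16 = true :=
  chk_I (e' := [1,0,2,1,-1]) (by decide +kernel) (by decide +kernel) ok22 ok31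

noncomputable def t33 : Tre :=
  .Q [0,-1,0,-1,0,0,0,0,0,1] (.pp false [-1,1]) t21 t32

theorem ok33 : chk K t33 r15 = true :=
  chk_Q (e' := [0,1,0,1,0,0,0,0,0,-1]) (by decide +kernel) (by decide +kernel) ok21 ok32

noncomputable def t34 : Tre :=
  .I [0,-1,0,1,1,0,0,-1] t20 t33

theorem ok34 : chk K t34 r14 = true :=
  chk_I (e' := [1,1,0,-1,-1,0,0,1]) (by decide +kernel) (by decide +kernel) ok20 ok33

noncomputable def t35 : Tre :=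
  .Q [0,0,0,0,0,2,0,0,0,-1,1] (.p true [0,0,1] [1] (⟨0,[(19,0)]⟩,⟨0,[(18,0)]⟩) .k 1 (⟨0,[]⟩,⟨0,[]⟩)
  .k .k) t19 t34

theorem ok35 : chk K t35 l13 = true :=
  chk_Q (e' := [0,0,0,0,0,-2,0,0,0,1,-1]) (by decide +kernel) (by decide +kernel) ok19 ok34

noncomputable def t37 : Tre :=
  .Q [0,-1,0,-1,1,0,1,0,0,0,1] (.p true [0,0,1] [] (⟨0,[(18,0)]⟩,⟨0,[(17,0)]⟩) .k 0 (⟨0,[]⟩,⟨0,[]⟩)
  .k .k) t35 t36

theorem ok37 : chk K t37 r12 = true :=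
  chk_Q (e' := [0,1,0,1,-1,0,-1,0,0,0,-1]) (by decide +kernel) (by decide +kernel) ok35 ok36

noncomputable def t38 : Tre :=
  .Q [0,-1,0,1,0,0,1,1,0,0,1] (.p true [0,0,1] [] (⟨0,[(17,0)]⟩,⟨0,[(16,0)]⟩) .k 0 (⟨0,[]⟩,⟨0,[]⟩)
  .k .k) t18 t37

theorem ok38 : chk K t38 r3 = true :=
  chk_Q (e' := [0,1,0,-1,0,0,-1,-1,0,0,-1]) (by decide +kernel) (by decide +kernel) ok18 ok37

noncomputable def t39 : Tre :=
  .I [0,0,-1,0,1,0,0,-1] t17 t38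

theorem ok39 : chk K t39 l2 = true :=
  chk_I (e' := [1,0,1,0,-1,0,0,1]) (by decide +kernel) (by decide +kernel) ok17 ok38

noncomputable def t51 : Tre :=
  .I [0,0,2,0,-2,2,-1] t49 t50

theorem ok51 : chk K t51 l34 = true :=
  chk_I (e' := [1,0,-2,0,2,-2,1]) (by decide +kernel) (by decide +kernel) ok49 ok50

noncomputable def t53 : Tre :=
  .I [1,0,2,2,-1,0,0,1] t51 t52

theorem ok53 : chk K t53 r33 = true :=
  chk_I (e' := [0,0,-2,-2,1,0,0,-1]) (by decide +kernel) (by decide +kernel) ok51 ok52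

noncomputable def t54 : Tre :=
  .Q [0,0,-2,0,1,0,1,0,0,0,1] (.p true [0,0,1] [] (⟨0,[(27,0)]⟩,⟨0,[(26,0)]⟩) .k 0 (⟨0,[]⟩,⟨0,[]⟩)
  .k .k) t48 t53

theorem ok54 : chk K t54 r32 = true :=
  chk_Q (e' := [0,0,2,0,-1,0,-1,0,0,0,-1]) (by decide +kernel) (by decide +kernel) ok48 ok53

noncomputable def t55 : Tre :=
  .Q [0,-1,0,2,1,0,1,1,0,-1,1] (.p true [0,0,1] [1] (⟨0,[(26,0)]⟩,⟨0,[(25,0)]⟩) .k 1 (⟨0,[]⟩,⟨0,
  []⟩) .k .k) t47 t54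

theorem ok55 : chk K t55 l31 = true :=
  chk_Q (e' := [0,1,0,-2,-1,0,-1,-1,0,1,-1]) (by decide +kernel) (by decide +kernel) ok47 ok54

noncomputable def t57 : Tre :=
  .I [1,0,0,-1,0,0,0,-1] t55 t56

theorem ok57 : chk K t57 r30 = true :=
  chk_I (e' := [0,0,0,1,0,0,0,1]) (by decide +kernel) (by decide +kernel) ok55 ok56

noncomputable def t58 : Tre :=
  .Q [0,0,0,0,0,2,0,0,0,0,-1] (.p false [0,0,1] [] (⟨0,[(24,0)]⟩,⟨0,[(23,0)]⟩) .k 0 (⟨0,[]⟩,⟨0,[]⟩)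
  .k .k) t46 t57

theorem ok58 : chk K t58 l29 = true :=
  chk_Q (e' := [0,0,0,0,0,-2,0,0,0,0,1]) (by decide +kernel) (by decide +kernel) ok46 ok57

noncomputable def t60 : Tre :=
  .Q [0,0,-1,-1,0,0,-1,0,0,1,-1] (.p false [0,0,1] [1] (⟨0,[(23,0)]⟩,⟨0,[(22,0)]⟩) .k 1 (⟨0,[]⟩,⟨0,
  []⟩) .k .k) t58 t59

theorem ok60 : chk K t60 r28 = true :=
  chk_Q (e' := [0,0,1,1,0,0,1,0,0,-1,1]) (by decide +kernel) (by decide +kernel) ok58 ok59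

noncomputable def t61 : Tre :=
  .Q [0,0,-1,0,1,0,1,0,0,-1,1] (.p true [0,0,1] [1] (⟨0,[(22,0)]⟩,⟨0,[(21,0)]⟩) .k 1 (⟨0,[]⟩,⟨0,
  []⟩) .k .k) t45 t60

theorem ok61 : chk K t61 r27 = true :=
  chk_Q (e' := [0,0,1,0,-1,0,-1,0,0,1,-1]) (by decide +kernel) (by decide +kernel) ok45 ok60

noncomputable def t62 : Tre :=
  .I [0,-1,-1,0,1,0,0,1] t44 t61

theorem ok62 : chk K t62 r26 = true :=
  chk_I (e' := [1,1,1,0,-1,0,0,-1]) (by decide +kernel) (by decide +kernel) ok44 ok61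

noncomputable def t63 : Tre :=
  .I [0,0,-2,-1,1] t43 t62

theorem ok63 : chk K t63 r25 = true :=
  chk_I (e' := [1,0,2,1,-1]) (by decide +kernel) (by decide +kernel) ok43 ok62

noncomputable def t64 : Tre :=
  .Q [0,-1,0,2,0,0,-1,-1,0,0,-1] (.p false [0,0,1] [] (⟨0,[(19,0)]⟩,⟨0,[(18,0)]⟩) .k 0 (⟨0,[]⟩,⟨0,
  []⟩) .k .k) t42 t63

theorem ok64 : chk K t64 r24 = true :=
  chk_Q (e' := [0,1,0,-2,0,0,1,1,0,0,1]) (by decide +kernel) (by decide +kernel) ok42 ok63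

noncomputable def t65 : Tre :=
  .I [1,-1,-1,-1,1,0,0,1] t41 t64

theorem ok65 : chk K t65 r23 = true :=
  chk_I (e' := [0,1,1,1,-1,0,0,-1]) (by decide +kernel) (by decide +kernel) ok41 ok64

noncomputable def t66 : Tre :=
  .Q [0,-1,0,1,0,0,-1,-1,0,0,-1] (.p false [0,0,1] [] (⟨0,[(17,0)]⟩,⟨0,[(16,0)]⟩) .k 0 (⟨0,[]⟩,⟨0,
  []⟩) .k .k) t40 t65

theorem ok66 : chk K t66 l22 = true :=
  chk_Q (e' := [0,1,0,-1,0,0,1,1,0,0,1]) (by decide +kernel) (by decide +kernel) ok40 ok65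

noncomputable def t68 : Tre :=
  .Q [0,0,0,0,0,0,-1,0,0,0,-1] (.p false [0,0,1] [] (⟨0,[(16,0)]⟩,⟨0,[(15,0)]⟩) .k 0 (⟨0,[]⟩,⟨0,
  []⟩) .k .k) t66 t67

theorem ok68 : chk K t68 r2 = true :=
  chk_Q (e' := [0,0,0,0,0,0,1,0,0,0,1]) (by decide +kernel) (by decide +kernel) ok66 ok67

noncomputable def t69 : Tre :=
  .I [1,1,-1,-1,0,0,0,1] t39 t68

theorem ok69 : chk K t69 l1 = true :=
  chk_I (e' := [0,-1,1,1,0,0,0,-1]) (by decide +kernel) (by decide +kernel) ok39 ok68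

noncomputable def t71 : Tre :=
  .I [0,0,1,0,0,0,0,1] t69 t70

theorem ok71 : chk K t71 r0 = true :=
  chk_I (e' := [1,0,-1,0,0,0,0,-1]) (by decide +kernel) (by decide +kernel) ok69 ok70

noncomputable def t72 : Tre :=
  .Q [0,0,0,2,0,0,0,0,0,-1] (.pp true [-1,1]) t0 t71

theorem ok72 : chk K t72 base = true :=
  chk_Q (e' := [0,0,0,-2,0,0,0,0,0,1]) (by decide +kernel) (by decide +kernel) ok0 ok71

theorem closed {p a b c J l q : ℤ} {D dl : ℝ} {Cl : ℤ → ℤ → ℤ → ℤ → ℝ → Prop}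
    (W : World p a b c J 1 l q D dl Cl) (g : G0 p a b c J D)
    {N X R : ℤ} {I : ℝ} (hk : KCl p l Cl N X R I) (kz : KF a b D (X + (1 : ℤ) * I) (X + (1 : ℤ) * I + R) I)
    {Ne Xe : ℤ} {Ie : ℝ} (he : EFac p 1 D Cl 1 Ne Xe Ie)
    (hkf : ∀ kf ∈ (kfY 1 [0,0,0,0,0,0,1,0,0,0,1]), KOk p l Cl 1
      (xv [1, a, b, c, p, J, X, R, Xe] [D, I, Ie]) N kf)
    (h0 : 1 ≤ (c : ℝ))
    (h1 : 1 ≤ 1 - (a : ℝ) + (b : ℝ))
    (h2 : 1 ≤ 2 * (a : ℝ) - (b : ℝ))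
    (h3 : 0 < -1 + (p : ℝ) - 2 * D)
    (h4 : 0 < 3 - (p : ℝ) + 2 * D)
    (h5 : 0 < 1 + 3 * (J : ℝ) - D)
    (h6 : 1 ≤ 1 + (a : ℝ) - (b : ℝ))
    (h7 : 1 ≤ 1 - (a : ℝ) + (b : ℝ))
    (h8 : 1 ≤ -1 - 2 * (a : ℝ) + (p : ℝ))
    (h9 : 1 ≤ 2 * (a : ℝ) - (b : ℝ))
    (h10 : 1 ≤ -2 + (J : ℝ))
    (h11 : 0 < -(b : ℝ) - (X : ℝ) + D - I)
    (h12 : 0 < -(J : ℝ) + I)
    (h13 : 0 < -(J : ℝ) + D - I)
    (h14 : 0 < -2 * (X : ℝ) + D - 2 * I) : False := by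
  have g1 := g.a2
  have g2 := g.b2
  have g3 := g.pa
  have g4 := g.pb
  have g5 := g.J1
  have g6 := g.JD
  have g7 := g.D2
  have g8 := g.ca
  have g9 := g.ca'
  have k1 := kz.I0
  have k2 := kz.ID
  have k3 := kz.z1
  have k4 := kz.z2
  have k5 := kz.s1
  have k6 := kz.s2
  have e1 := he.I0
  have e2 := he.ID
  have e3 := he.x0
  have e4 := he.xp
  push_cast at *
  refine (val_E W.toBase hk he (row := [1]) (by simp) (by simp) (kfY 1 [0,0,0,0,0,0,1,0,0,0,1])).sound W rfl (Nk := N)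
    (fun kf _ _ => ⟨_, rfl⟩) hkf ?_ ok72
  · simp only [base, List.forall_mem_cons, List.not_mem_nil, false_imp_iff, implies_true,
      and_true, hld, xv, evg_cons, evg_nil, List.map_cons, List.map_nil, List.cons_append,
      List.nil_append, if_true, if_false, Bool.false_eq_true]
    push_cast
    refine ⟨?_, ?_, ?_, ?_, ?_, ?_, ?_, ?_, ?_, ?_, ?_, ?_, ?_, ?_, ?_, ?_, ?_, ?_, ?_, ?_, ?_, ?_, ?_, ?_, ?_, ?_, ?_, ?_, ?_, ?_, ?_, ?_, ?_⟩ <;> linarith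

end Helper48.Y.Y11_c35_P3_m1n1_CB
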