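import Pool.Agent.Helper48.Y.Y11_c35_P3_m1n1_CC_q

set_option autoImplicit false
set_option linter.all false

namespace Helper48.Y.Y11_c35_P3_m1n1_CC

open Helper25.KG Helper25.KW Helper55.KE Helper11.CT

noncomputable def t29 : Tre :=
  (.I [0,0,-2,-2,1,0,0,1] (.R ⟨1,true,false,false,[0,0,1],[0,1],[0,1,0,0,0,0,0,1],(⟨0,[(23,0)]⟩,⟨0,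
  [(22,0)]⟩),(⟨0,[(27,0)]⟩,⟨0,[(26,0)]⟩),⟨0,[(12,0)]⟩,.k,.k,.k,.k,(.r (-1) ⟨0,[(0,0)]⟩ ⟨1,[(1,1),
  (18,2),(0,0)]⟩),.k,⟨true,0,⟨0,[(5,0)]⟩,⟨0,[(3,0),(30,0)]⟩⟩,⟨false,1,⟨0,[(0,0),(0,0)]⟩,⟨0,[(20,
  0)]⟩⟩,⟨true,0,⟨0,[(40,0)]⟩,⟨0,[]⟩⟩,⟨false,1,⟨7,[(1,1),(1,3),(6,1),(8,1),(5,0),(11,1),(0,4)]⟩,⟨0,
  [(4,0)]⟩⟩,⟨false,0,⟨0,[(36,0)]⟩,⟨3,[(8,1),(4,0),(0,0),(10,0),(12,1)]⟩⟩,⟨true,0,⟨0,[(1,0)]⟩,⟨0,[(4,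
  0),(30,0)]⟩⟩,[]⟩) (.Q [0,-1,0,1,0,0,-1,-1,0,1,-1] (.p false [0,0,1] [1] (⟨0,[(23,0)]⟩,⟨0,[(22,
  0)]⟩) .k 1 (⟨0,[]⟩,⟨0,[]⟩) .k .k) (.R ⟨2,true,false,false,[0,1],[1,1,-1],[1,0,1],(⟨0,[]⟩,⟨0,[]⟩),
  (⟨22,[(14,2),(0,2),(7,22),(1,4),(5,5),(0,2)]⟩,⟨0,[(13,0)]⟩),⟨0,[]⟩,.k,.k,.k,.k,.k,.k,⟨true,0,⟨0,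
  [(6,0),(28,0)]⟩,⟨0,[(4,0)]⟩⟩,⟨false,0,⟨0,[(18,0)]⟩,⟨1,[(21,1),(4,0),(11,0)]⟩⟩,⟨false,1,⟨3,[(9,1),
  (4,0),(0,0),(10,0),(12,1)]⟩,⟨0,[(37,0)]⟩⟩,⟨true,0,⟨13,[(0,7),(3,1),(4,4),(1,0),(8,3),(13,1)]⟩,⟨1,
  [(1,1),(3,1),(0,1),(19,0),(11,0)]⟩⟩,⟨true,0,⟨0,[]⟩,⟨0,[(41,0)]⟩⟩,⟨false,0,⟨0,[(0,0)]⟩,⟨2,[(5,0),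
  (3,0),(9,1),(6,1),(12,0)]⟩⟩,[]⟩) (.I [0,0,2,0,-1,2,1] (.R ⟨1,true,false,false,[0,0,1],[0,1],[0,1,
  0,0,0,0,0,1],(⟨0,[(25,0)]⟩,⟨0,[(24,0)]⟩),(⟨0,[(29,0)]⟩,⟨0,[(28,0)]⟩),⟨0,[(14,0)]⟩,.k,.k,.k,.k,(.x
  1 ⟨0,[(0,0)]⟩ ⟨3,[(12,1),(1,3),(0,0),(0,0),(10,2),(0,3),(10,3)]⟩),.k,⟨true,0,⟨0,[(7,0)]⟩,⟨3,[(2,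
  1),(1,1),(17,0),(0,0),(16,1)]⟩⟩,⟨false,1,⟨1,[(19,1),(7,0),(11,0)]⟩,⟨0,[(22,0)]⟩⟩,⟨true,0,⟨0,[(42,
  0)]⟩,⟨0,[]⟩⟩,⟨false,1,⟨7,[(3,1),(1,3),(6,1),(8,1),(5,0),(11,1),(0,4)]⟩,⟨0,[(6,0)]⟩⟩,⟨false,0,⟨0,
  [(38,0)]⟩,⟨3,[(10,1),(4,0),(0,0),(10,0),(12,1)]⟩⟩,⟨true,0,⟨0,[(3,0)]⟩,⟨2,[(1,1),(8,1),(9,0)]⟩⟩,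
  []⟩) (.I [0,0,-2,0,1,-2,-1] (.R ⟨1,true,false,false,[0,0,1],[0,1],[0,1,0,0,0,0,0,1],(⟨0,[(26,0)]⟩,
  ⟨0,[(25,0)]⟩),(⟨0,[(30,0)]⟩,⟨0,[(29,0)]⟩),⟨0,[(15,0)]⟩,.k,.k,.k,.k,(.x 0 ⟨11,[(2,1),(0,0),(1,0),
  (17,12),(0,2),(0,11),(2,0),(3,1),(0,7),(8,2)]⟩ ⟨0,[(0,0)]⟩),.k,⟨true,0,⟨0,[(8,0)]⟩,⟨3,[(3,1),(1,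
  1),(17,0),(0,0),(16,1)]⟩⟩,⟨false,1,⟨1,[(20,1),(7,0),(11,0)]⟩,⟨0,[(23,0)]⟩⟩,⟨true,0,⟨0,[(43,0)]⟩,
  ⟨0,[]⟩⟩,⟨false,1,⟨7,[(4,1),(1,3),(6,1),(8,1),(5,0),(11,1),(0,4)]⟩,⟨0,[(7,0)]⟩⟩,⟨false,0,⟨0,[(39,
  0)]⟩,⟨3,[(11,1),(4,0),(0,0),(10,0),(12,1)]⟩⟩,⟨true,0,⟨0,[(4,0)]⟩,⟨2,[(2,1),(8,1),(9,0)]⟩⟩,[]⟩)
  (.I [0,-1,0,2] (.S ⟨1,3,[],[1,-1],[1,0,-1,-2],(⟨0,[(30,0)]⟩,⟨0,[(31,0)]⟩),⟨0,[(15,0),(0,0)]⟩,.k,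
  (.r (-2) ⟨1,[(12,1),(4,0),(0,0),(10,0),(11,1)]⟩ ⟨2,[(0,0),(3,2),(4,1),(0,0),(14,0),(12,0)]⟩),
  ⟨false,1,⟨3,[(12,1),(4,0),(0,0),(10,0),(12,1)]⟩,⟨0,[(40,0)]⟩⟩,⟨true,0,⟨0,[(40,0)]⟩,⟨0,[(39,0)]⟩⟩,
  ⟨true,0,⟨0,[]⟩,⟨0,[(44,0)]⟩⟩,⟨false,0,⟨0,[(0,0)]⟩,⟨1,[(12,1),(4,0),(0,0),(10,0)]⟩⟩,[.fa ⟨true,1,
  ⟨1,[(12,1),(16,0),(11,0)]⟩,⟨2,[(0,0),(3,2),(4,1),(0,0),(14,0),(12,0)]⟩⟩ ⟨false,1,⟨0,[(41,0)]⟩,⟨1,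
  [(24,0),(0,0)]⟩⟩,.a ⟨true,0,⟨3,[(0,1),(11,1),(22,0),(6,0)]⟩,⟨0,[(44,0)]⟩⟩ ⟨false,2,⟨1,[(12,1),(16,
  0),(11,1),(0,0)]⟩,⟨4,[(0,1),(3,4),(4,3),(1,0),(25,0)]⟩⟩ ⟨true,1,⟨1,[(41,0),(0,0)]⟩,⟨1,[(3,0),(0,
  1),(4,0),(2,0),(12,0)]⟩⟩,.o ⟨false,0,⟨1,[(24,0),(0,0)]⟩,⟨1,[(29,0),(11,0)]⟩⟩,.a ⟨true,(-1),⟨11,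
  [(4,7),(3,4),(0,2),(2,3),(12,4),(7,2),(1,3),(7,2)]⟩,⟨0,[(41,0)]⟩⟩ ⟨false,2,⟨1,[(12,1),(16,0),(11,
  1),(0,0)]⟩,⟨2,[(0,0),(3,2),(4,1),(0,0),(14,0),(12,0)]⟩⟩ ⟨true,1,⟨0,[(41,0)]⟩,⟨1,[(3,0),(0,1),(4,
  0),(2,0),(12,0)]⟩⟩]⟩) (.I [0,0,2,2,-1,0,0,-1] (.R ⟨1,true,false,false,[0,0,1],[0,1],[0,1,0,0,0,0,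
  0,1],(⟨0,[(28,0)]⟩,⟨0,[(27,0)]⟩),(⟨0,[(32,0)]⟩,⟨0,[(31,0)]⟩),⟨0,[(17,0)]⟩,.k,.k,.k,.k,(.r (-2) ⟨7,
  [(10,1),(2,6),(1,2),(7,5),(6,4),(11,6),(0,3)]⟩ ⟨0,[(0,0)]⟩),.k,⟨true,0,⟨0,[(10,0)]⟩,⟨3,[(5,1),(1,
  1),(17,0),(0,0),(16,1)]⟩⟩,⟨false,1,⟨1,[(22,1),(7,0),(11,0)]⟩,⟨0,[(25,0)]⟩⟩,⟨true,0,⟨0,[(45,0)]⟩,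
  ⟨0,[]⟩⟩,⟨false,1,⟨7,[(6,1),(1,3),(6,1),(8,1),(5,0),(11,1),(0,4)]⟩,⟨0,[(9,0)]⟩⟩,⟨false,0,⟨0,[(41,
  0)]⟩,⟨3,[(13,1),(4,0),(0,0),(10,0),(12,1)]⟩⟩,⟨true,0,⟨0,[(6,0)]⟩,⟨2,[(4,1),(8,1),(9,0)]⟩⟩,[]⟩)
  (.Q [0,0,0,0,0,0,-1,0,0,0,-1] (.p false [0,0,1] [] (⟨0,[(28,0)]⟩,⟨0,[(27,0)]⟩) .k 0 (⟨0,[]⟩,⟨0,
  []⟩) .k .k) (.Q [0,0,-1,0,1,0,1,0,0,-1,1] (.p true [0,0,1] [1] (⟨0,[(29,0)]⟩,⟨0,[(28,0)]⟩) .k 1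
  (⟨0,[]⟩,⟨0,[]⟩) .k .k) (.S ⟨1,0,[0,1,0,0,0,0,0,-1],[1,0,-1],[0,0,0,0,0,0,0,-1],(⟨0,[(29,0)]⟩,⟨0,
  [(30,0)]⟩),⟨0,[(18,0)]⟩,.k,.k,⟨false,1,⟨1,[(20,0),(0,0),(23,0)]⟩,⟨0,[]⟩⟩,⟨true,0,⟨0,[(47,0)]⟩,⟨0,
  []⟩⟩,⟨true,0,⟨0,[(43,0)]⟩,⟨0,[(42,0)]⟩⟩,⟨false,0,⟨0,[(43,0)]⟩,⟨3,[(15,1),(4,0),(0,0),(10,0),(12,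
  1)]⟩⟩,[.o ⟨false,0,⟨0,[(26,0)]⟩,⟨1,[(13,1),(18,0),(12,0)]⟩⟩,.a ⟨true,0,⟨0,[(8,0),(6,0)]⟩,⟨0,[(13,
  0)]⟩⟩ ⟨true,1,⟨1,[(9,1),(34,0),(0,0)]⟩,⟨0,[(7,0),(4,1),(28,0)]⟩⟩ ⟨false,1,⟨0,[(9,0),(34,0)]⟩,⟨1,
  [(12,0),(0,0),(2,0),(24,0)]⟩⟩,.o ⟨false,0,⟨0,[(1,0)]⟩,⟨3,[(0,1),(19,0),(0,0),(5,1),(4,0)]⟩⟩,.o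
  ⟨false,0,⟨0,[(28,0)]⟩,⟨0,[(0,0)]⟩⟩]⟩) (.I [0,-1,0,1,0,0,0,1] (.R ⟨1,false,false,false,[1,0,-1],[1,
  -1],[],(⟨0,[(30,0)]⟩,⟨0,[(31,0)]⟩),(⟨0,[(34,0)]⟩,⟨0,[(35,0)]⟩),⟨0,[(19,0)]⟩,.k,.k,.k,.k,.k,.k,
  ⟨false,0,⟨0,[(44,0)]⟩,⟨3,[(16,1),(4,0),(0,0),(10,0),(11,1)]⟩⟩,⟨true,0,⟨0,[(28,0)]⟩,⟨0,[(2,0)]⟩⟩,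
  ⟨true,0,⟨4,[(0,1),(11,0),(0,0),(1,0),(13,0)]⟩,⟨0,[(4,0),(3,0),(36,0)]⟩⟩,⟨true,0,⟨0,[(12,0)]⟩,⟨6,
  [(9,2),(1,0),(15,2),(1,0),(11,1)]⟩⟩,⟨false,0,⟨0,[(0,0)]⟩,⟨3,[(10,3),(5,1),(4,0),(0,0),(10,0),(11,
  1)]⟩⟩,⟨true,0,⟨0,[(14,0)]⟩,⟨0,[(27,0)]⟩⟩,[.e ⟨false,1,⟨1,[(21,0),(0,0),(22,0)]⟩,⟨0,[]⟩⟩ ⟨false,1,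
  ⟨0,[(10,0),(1,0),(32,0)]⟩,⟨0,[(17,0)]⟩⟩,.o ⟨false,1,⟨3,[(16,1),(4,0),(0,0),(10,0),(12,1)]⟩,⟨0,[(7,
  0),(1,0)]⟩⟩,.o ⟨false,0,⟨0,[(2,0)]⟩,⟨1,[(28,1),(4,0),(11,0)]⟩⟩,.a ⟨true,(-1),⟨0,[(1,0)]⟩,⟨0,[(28,
  0),(16,0)]⟩⟩ ⟨false,1,⟨1,[(45,0),(0,0)]⟩,⟨1,[(28,0),(0,0)]⟩⟩ ⟨true,1,⟨0,[(10,0),(1,0),(32,0)]⟩,⟨2,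
  [(1,1),(6,1),(0,0),(3,2),(19,0)]⟩⟩]⟩) (.Q [0,0,1,1,-1,0,-2,-1,0,1,-2] (.p false [0,0,1] [1,0,-1]
  (⟨0,[(31,0)]⟩,⟨0,[(30,0)]⟩) .k 2 (⟨0,[(30,0)]⟩,⟨0,[(31,0)]⟩) .k (.r 0 ⟨2,[(1,1),(11,1),(0,3),(2,
  1),(15,0),(12,0)]⟩ ⟨1,[(0,1),(10,1),(33,0),(0,0)]⟩)) (.Q [0,0,0,0,0,2,0,0,0,-1,1] (.p true [0,0,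
  1] [1] (⟨0,[(32,0)]⟩,⟨0,[(31,0)]⟩) .k 1 (⟨0,[]⟩,⟨0,[]⟩) .k .k) (.R ⟨0,false,false,false,[1,-1,-1],
  [0,-1,1],[0,0,1],(⟨0,[(21,0)]⟩,⟨4,[(0,1),(22,0),(0,0),(8,2),(0,0),(6,0)]⟩),(⟨0,[(22,0)]⟩,⟨22,[(23,
  2),(0,2),(7,22),(1,4),(5,5),(0,2)]⟩),⟨0,[(0,0)]⟩,.k,.k,(.r (-2) ⟨2,[(2,3),(2,0),(17,0),(0,0),(22,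
  1),(0,1)]⟩ ⟨4,[(3,3),(6,2),(5,7),(2,3),(15,1)]⟩),.k,.k,.k,⟨false,0,⟨0,[(13,0)]⟩,⟨2,[(5,1),(10,0),
  (2,0),(27,0)]⟩⟩,⟨true,1,⟨3,[(2,1),(7,3),(3,5),(15,1),(4,1),(11,4),(0,0)]⟩,⟨0,[(3,0),(0,0)]⟩⟩,
  ⟨true,(-1),⟨4,[(3,5),(6,1),(5,6),(2,0),(15,2)]⟩,⟨0,[(2,0),(44,0)]⟩⟩,⟨false,1,⟨1,[(16,3),(18,0),
  (12,0)]⟩,⟨1,[(1,1),(0,1),(44,0),(0,0)]⟩⟩,⟨false,0,⟨0,[]⟩,⟨0,[]⟩⟩,⟨false,0,⟨0,[]⟩,⟨0,[]⟩⟩,[.a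
  ⟨true,0,⟨0,[(14,0)]⟩,⟨3,[(11,1),(1,1),(4,0),(1,0),(20,0),(5,0)]⟩⟩ ⟨true,0,⟨1,[(30,0),(0,0)]⟩,⟨0,
  []⟩⟩ ⟨false,2,⟨1,[(14,1),(15,1),(4,0),(11,2)]⟩,⟨0,[(1,0)]⟩⟩,.o ⟨false,1,⟨1,[(14,1),(20,0),(12,
  0)]⟩,⟨6,[(11,2),(1,0),(15,2),(1,0),(11,1)]⟩⟩,.e ⟨false,0,⟨0,[(39,0)]⟩,⟨1,[(23,0),(0,0),(22,0)]⟩⟩
  ⟨false,2,⟨1,[(14,1),(15,1),(4,0),(11,1),(0,0)]⟩,⟨0,[(1,0)]⟩⟩,.o ⟨false,(-1),⟨0,[(1,0),(7,0),(34,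
  0)]⟩,⟨1,[(30,1),(4,0),(11,2)]⟩⟩]⟩) (.I [0,0,0,0,1,0,0,0,-1] (.I [1,0,0,0,0,3,0,0,1] (.I [1,0,0,-1,
  0,1,1,1] (.I [0,1,1,0,-1,-1,-1] (.I [0,1,0,-1,0,-2,1,1] (.I [5,0,0,0,-1,6] (.I [0,0,0,1,0,-1] (.C
  [(0,1),(1,0),(6,0),(5,0),(30,1),(0,1),(0,0)]) (.C [(0,1),(1,1),(12,1),(1,1),(28,1),(0,1),(0,0),(5,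
  0)])) (.C [(0,0),(45,1),(0,0)])) (.C [(0,0),(4,0),(8,0)])) (.C [(0,0),(4,0),(7,0),(12,0)])) (.C
  [(0,0),(2,0),(13,0),(25,0)])) (.C [(0,0),(25,0),(0,0),(14,0)])) (.C [(0,0),(23,0),(2,0)]))) (.Q
  [0,0,0,0,0,0,-2,-2,0,1,-2] (.p false [0,0,1] [1,0,-1] (⟨0,[(32,0)]⟩,⟨0,[(31,0)]⟩) .k 2 (⟨0,[(31,
  0)]⟩,⟨0,[(32,0)]⟩) .k (.r 0 ⟨2,[(2,1),(11,1),(0,3),(2,1),(15,0),(12,0)]⟩ ⟨1,[(1,1),(10,1),(33,0),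
  (0,0)]⟩)) (.Q [0,0,0,0,0,2,0,0,0,-1,1] (.p true [0,0,1] [1] (⟨0,[(33,0)]⟩,⟨0,[(32,0)]⟩) .k 1 (⟨0,
  []⟩,⟨0,[]⟩) .k .k) (.R ⟨0,false,false,false,[1,-1,-1],[0,-1,1],[0,0,1],(⟨0,[(22,0)]⟩,⟨22,[(24,2),
  (0,2),(8,22),(0,4),(5,5),(0,2)]⟩),(⟨0,[(23,0)]⟩,⟨22,[(24,2),(0,2),(7,22),(1,4),(5,5),(0,2)]⟩),⟨0,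
  [(0,0)]⟩,.k,.k,(.r (-2) ⟨2,[(1,3),(0,3),(3,0),(17,0),(0,0)]⟩ ⟨4,[(4,3),(6,2),(5,7),(2,3),(15,
  1)]⟩),.k,.k,.k,⟨false,0,⟨0,[(14,0)]⟩,⟨2,[(6,1),(10,0),(2,0),(27,0)]⟩⟩,⟨true,1,⟨0,[(2,0),(11,0)]⟩,
  ⟨0,[(4,0),(0,0)]⟩⟩,⟨true,(-1),⟨4,[(4,5),(6,1),(5,6),(2,0),(15,2)]⟩,⟨0,[(3,0),(44,0)]⟩⟩,⟨false,1,
  ⟨1,[(17,3),(18,0),(12,0)]⟩,⟨0,[(1,0)]⟩⟩,⟨false,0,⟨0,[]⟩,⟨0,[]⟩⟩,⟨false,0,⟨0,[]⟩,⟨0,[]⟩⟩,[.e ⟨true,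
  0,⟨1,[(31,0),(0,0)]⟩,⟨0,[]⟩⟩ ⟨true,1,⟨0,[(2,0)]⟩,⟨3,[(1,0),(2,1),(6,1),(9,0),(10,1)]⟩⟩,.o ⟨false,
  1,⟨1,[(15,1),(20,0),(12,0)]⟩,⟨6,[(12,2),(1,0),(15,2),(1,0),(11,1)]⟩⟩,.a ⟨true,(-1),⟨0,[(4,0)]⟩,⟨0,
  [(31,0),(16,0)]⟩⟩ ⟨false,0,⟨0,[(40,0)]⟩,⟨1,[(24,0),(0,0),(22,0)]⟩⟩ ⟨true,1,⟨0,[(2,0)]⟩,⟨3,[(4,2),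
  (6,0),(0,0),(8,0),(8,1),(13,0)]⟩⟩,.e ⟨false,1,⟨1,[(24,0),(0,0),(23,0)]⟩,⟨0,[]⟩⟩ ⟨false,2,⟨1,[(2,
  1),(45,0),(0,0)]⟩,⟨3,[(1,0),(2,1),(6,1),(9,0),(10,1)]⟩⟩]⟩) (.I [0,0,0,0,1,0,0,0,-1] (.I [1,0,0,-1,
  0,1,1,1] (.I [1,0,0,0,0,3,0,0,1] (.I [0,1,1,-1,-1,0,0,1] (.I [1,0,1,0,-1,2,-1] (.I [0,1,0,-1,0,-2,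
  1,1] (.I [5,0,0,0,-1,6] (.I [1,0,-1,-1,1,-1,2,1] (.I [0,0,0,1,0,-1] (.C [(0,1),(2,0),(8,0),(5,0),
  (30,1),(0,1),(0,0)]) (.C [(0,1),(2,1),(14,1),(1,1),(28,1),(0,1),(0,0),(5,0)])) (.C [(0,0),(7,1),
  (1,0),(38,0)])) (.C [(0,0),(47,1),(0,0)])) (.C [(0,0),(5,0),(9,0)])) (.C [(0,0),(8,0),(18,0),(17,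
  0)])) (.C [(0,0),(7,0),(5,0)])) (.C [(0,0),(27,0),(0,0),(14,0)])) (.C [(0,0),(1,0),(1,0),(1,0),
  (36,0)])) (.C [(0,0),(24,0),(2,0)]))) (.R ⟨1,true,false,false,[1,0,-1],[0,1],[0,0,2,1],(⟨0,[(32,
  0)]⟩,⟨0,[(33,0)]⟩),(⟨0,[(37,0)]⟩,⟨0,[(36,0)]⟩),⟨0,[(21,0)]⟩,.k,.k,.k,.k,(.r (-2) ⟨2,[(2,3),(2,0),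
  (17,0),(0,0),(22,1),(0,1)]⟩ ⟨0,[(0,0),(9,0),(9,0)]⟩),.k,⟨true,0,⟨1,[(30,0),(0,0)]⟩,⟨0,[]⟩⟩,⟨false,
  2,⟨3,[(1,1),(11,1),(9,0),(0,0),(10,0),(11,3)]⟩,⟨0,[(3,0)]⟩⟩,⟨true,(-1),⟨3,[(0,2),(2,1),(6,1),(9,
  0),(10,1)]⟩,⟨0,[(2,0),(44,0)]⟩⟩,⟨false,1,⟨3,[(0,1),(10,1),(16,1),(6,0),(12,2)]⟩,⟨1,[(2,1),(0,0),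
  (23,0),(20,0)]⟩⟩,⟨false,(-1),⟨5,[(0,5),(2,7),(6,1),(0,3),(23,0),(12,2)]⟩,⟨2,[(2,3),(2,0),(17,0),
  (0,0),(22,1),(0,1)]⟩⟩,⟨true,0,⟨0,[(0,0),(10,0)]⟩,⟨0,[(18,0),(10,0)]⟩⟩,[]⟩))))) (.S ⟨1,0,[0,0,0,0,
  0,0,0,1],[0,0,1],[1,1,0,-1,0,0,0,1],(⟨0,[(29,0)]⟩,⟨0,[(28,0)]⟩),⟨0,[(18,0)]⟩,.k,.k,⟨true,0,⟨0,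
  [(41,0)]⟩,⟨0,[(42,0)]⟩⟩,⟨false,1,⟨1,[(19,0),(0,0),(23,0)]⟩,⟨0,[]⟩⟩,⟨false,0,⟨0,[]⟩,⟨1,[(19,0),(0,
  0),(23,0)]⟩⟩,⟨true,0,⟨0,[(42,0)]⟩,⟨0,[(41,0)]⟩⟩,[.a ⟨true,0,⟨0,[(12,0)]⟩,⟨0,[(7,0),(6,0)]⟩⟩
  ⟨false,0,⟨0,[(11,0)]⟩,⟨1,[(9,1),(33,0),(0,0)]⟩⟩ ⟨true,0,⟨1,[(11,0),(0,0),(2,0),(24,0)]⟩,⟨0,[(8,
  0)]⟩⟩,.o ⟨false,1,⟨1,[(12,1),(18,0),(12,0)]⟩,⟨0,[(25,0)]⟩⟩,.a ⟨true,0,⟨0,[(0,0)]⟩,⟨39,[(9,5),(4,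
  2),(1,22),(7,5),(5,1),(1,1),(4,5),(5,2),(0,2)]⟩⟩ ⟨false,0,⟨0,[(11,0),(28,0)]⟩,⟨1,[(9,1),(33,0),(0,
  0)]⟩⟩ ⟨true,0,⟨1,[(11,0),(0,0),(2,0),(24,0)]⟩,⟨0,[(0,0),(24,0)]⟩⟩,.a ⟨true,0,⟨0,[(26,0)]⟩,⟨0,[(23,
  0)]⟩⟩ ⟨true,0,⟨0,[(11,0)]⟩,⟨0,[(9,0)]⟩⟩ ⟨false,1,⟨5,[(1,1),(10,3),(2,3),(27,0),(0,2)]⟩,⟨0,[(8,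
  0)]⟩⟩]⟩))))))))

theorem ok29 : chk K t29 l21 = true := by decide +kernel

noncomputable def t30 : Tre :=
  (.Q [0,0,1,0,-1,0,-1,0,0,1,-1] (.p false [0,0,1] [1] (⟨0,[(26,0)]⟩,⟨0,[(25,0)]⟩) .k 1 (⟨0,[]⟩,⟨0,
  []⟩) .k .k) (.Q [0,0,0,-1,0,0,-2,-2,0,1,-2] (.p false [0,0,1] [1,0,-1] (⟨0,[(27,0)]⟩,⟨0,[(26,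
  0)]⟩) .k 2 (⟨0,[(26,0)]⟩,⟨0,[(27,0)]⟩) .k (.r 0 ⟨0,[(1,0),(9,0)]⟩ ⟨0,[(2,0),(4,0)]⟩)) (.R ⟨1,
  false,false,true,[0,0,1],[1,-1],[0,0,0,0,0,0,0,1],(⟨0,[(28,0)]⟩,⟨0,[(27,0)]⟩),(⟨0,[(31,0)]⟩,⟨0,
  [(32,0)]⟩),⟨0,[(17,0)]⟩,.k,.k,.k,.k,.k,.k,⟨false,0,⟨0,[(2,0),(38,0)]⟩,⟨0,[(3,0),(41,0)]⟩⟩,⟨true,
  (-1),⟨0,[(1,0)]⟩,⟨1,[(25,1),(4,0),(11,0)]⟩⟩,⟨false,1,⟨1,[(18,0),(0,0),(23,0)]⟩,⟨0,[]⟩⟩,⟨false,0,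
  ⟨37,[(0,15),(2,2),(4,2),(4,10),(1,2),(13,1),(1,1),(4,2)]⟩,⟨1,[(11,1),(18,0),(10,1),(1,0)]⟩⟩,⟨true,
  0,⟨0,[(41,0)]⟩,⟨0,[(40,0)]⟩⟩,⟨false,0,⟨35,[(0,9),(2,2),(4,12),(6,7),(13,1),(1,1),(4,7),(5,4)]⟩,⟨1,
  [(11,1),(18,0),(12,0)]⟩⟩,[.o ⟨false,0,⟨0,[(40,0)]⟩,⟨1,[(30,0),(10,1),(1,0)]⟩⟩,.a ⟨true,0,⟨57,[(3,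
  5),(9,25),(1,5),(7,5),(1,5),(3,7),(1,7),(4,8),(6,2)]⟩,⟨0,[(41,0)]⟩⟩ ⟨true,0,⟨0,[(2,0)]⟩,⟨2,[(0,0),
  (4,0),(2,0),(16,0),(12,0),(6,0)]⟩⟩ ⟨false,0,⟨3,[(0,1),(1,1),(7,1),(25,0),(5,0)]⟩,⟨1,[(25,1),(4,0),
  (10,1),(0,0)]⟩⟩,.o ⟨false,1,⟨1,[(25,1),(4,0),(11,0)]⟩,⟨0,[(4,0)]⟩⟩,.e ⟨false,1,⟨1,[(2,0),(9,0),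
  (29,0),(0,0)]⟩,⟨0,[(7,0)]⟩⟩ ⟨false,0,⟨3,[(0,1),(1,1),(7,1),(25,0),(5,0)]⟩,⟨1,[(25,1),(4,0),(10,1),
  (1,0)]⟩⟩]⟩) (.S ⟨1,0,[0,1,1,1,0,0,0,1],[0,1,1],[1,0,1,0,0,0,0,1],(⟨17,[(3,0),(4,0),(6,0),(7,1),(4,
  17),(0,2),(5,4),(0,1),(6,0)]⟩,⟨0,[(16,0)]⟩),⟨0,[(28,0)]⟩,.k,.k,⟨false,1,⟨3,[(13,1),(4,0),(0,0),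
  (10,0),(12,1)]⟩,⟨0,[(41,0)]⟩⟩,⟨true,0,⟨0,[(45,0)]⟩,⟨0,[]⟩⟩,⟨true,0,⟨0,[]⟩,⟨0,[(45,0)]⟩⟩,⟨false,0,
  ⟨0,[(41,0)]⟩,⟨3,[(13,1),(4,0),(0,0),(10,0),(12,1)]⟩⟩,[.o ⟨false,0,⟨0,[(0,0),(23,0)]⟩,⟨1,[(1,1),(1,
  1),(26,0),(12,0)]⟩⟩,.e ⟨false,0,⟨0,[(2,0)]⟩,⟨3,[(3,1),(4,1),(9,0),(0,0),(18,1),(3,0)]⟩⟩ ⟨false,0,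
  ⟨1,[(0,0),(14,0),(25,0)]⟩,⟨0,[(3,0)]⟩⟩,.a ⟨true,1,⟨0,[(25,0),(16,0)]⟩,⟨0,[(1,0)]⟩⟩ ⟨false,0,⟨18,
  [(0,3),(0,4),(0,8),(2,6),(0,1),(8,5),(27,4)]⟩,⟨1,[(3,0),(4,0),(33,0)]⟩⟩ ⟨true,(-1),⟨0,[(0,0),(0,
  0),(22,0)]⟩,⟨0,[(3,0)]⟩⟩,.o ⟨false,1,⟨7,[(0,1),(2,3),(4,1),(14,1),(1,1),(4,2),(12,0)]⟩,⟨0,[(4,
  0)]⟩⟩]⟩)) (.Q [0,1,0,0,0,0,1,1,0,-1,1] (.p true [0,0,1] [1] (⟨0,[(27,0)]⟩,⟨0,[(26,0)]⟩) .k 1 (⟨0,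
  []⟩,⟨0,[]⟩) .k .k) (.S ⟨1,0,[0,1,0,0,0,0,0,1],[0,0,1],[0,0,0,0,0,0,0,1],(⟨0,[(28,0)]⟩,⟨0,[(27,
  0)]⟩),⟨0,[(17,0)]⟩,.k,.k,⟨false,1,⟨1,[(18,0),(0,0),(23,0)]⟩,⟨0,[]⟩⟩,⟨true,0,⟨0,[(45,0)]⟩,⟨0,[]⟩⟩,
  ⟨true,0,⟨0,[(41,0)]⟩,⟨0,[(40,0)]⟩⟩,⟨false,0,⟨0,[(41,0)]⟩,⟨3,[(13,1),(4,0),(0,0),(10,0),(12,1)]⟩⟩,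
  [.o ⟨false,0,⟨0,[(0,0)]⟩,⟨0,[(24,0),(18,0)]⟩⟩,.e ⟨true,0,⟨0,[(2,0)]⟩,⟨0,[(8,0),(31,0)]⟩⟩ ⟨true,0,
  ⟨1,[(2,0),(9,0)]⟩,⟨0,[(7,0)]⟩⟩,.o ⟨false,1,⟨2,[(1,1),(3,0),(12,0),(0,0)]⟩,⟨0,[(4,0)]⟩⟩,.a ⟨true,0,
  ⟨0,[(25,0)]⟩,⟨0,[(22,0)]⟩⟩ ⟨false,1,⟨1,[(2,0),(9,0),(29,0),(0,0)]⟩,⟨0,[(7,0)]⟩⟩ ⟨true,0,⟨0,[(10,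
  0),(30,0)]⟩,⟨0,[(7,0)]⟩⟩]⟩) (.Q [0,0,0,0,0,2,0,0,0,0,-1] (.p false [0,0,1] [] (⟨0,[(28,0)]⟩,⟨0,
  [(27,0)]⟩) .k 0 (⟨0,[]⟩,⟨0,[]⟩) .k .k) (.R ⟨0,false,false,true,[0,-1,1],[1,-1],[],(⟨0,[(18,0)]⟩,
  ⟨33,[(0,14),(3,2),(4,2),(6,2),(7,5),(3,18),(1,3),(6,5),(6,2)]⟩),(⟨0,[(32,0)]⟩,⟨0,[(33,0)]⟩),⟨0,
  [(0,0)]⟩,.k,.k,(.r (-1) ⟨3,[(1,1),(5,1),(3,3),(19,0),(11,1),(0,0)]⟩ ⟨2,[(6,0),(2,2),(6,0),(9,0),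
  (15,2)]⟩),.k,.k,.k,⟨true,0,⟨0,[(40,0),(1,0)]⟩,⟨0,[(41,0)]⟩⟩,⟨false,0,⟨0,[(23,0)]⟩,⟨2,[(2,1),(3,0),
  (12,0),(0,0)]⟩⟩,⟨true,0,⟨0,[(9,0)]⟩,⟨0,[(11,0)]⟩⟩,⟨false,0,⟨13,[(1,5),(2,1),(4,3),(4,0),(1,2),(8,
  1),(11,1),(1,1)]⟩,⟨1,[(12,1),(18,0),(12,0)]⟩⟩,⟨false,0,⟨0,[]⟩,⟨0,[]⟩⟩,⟨false,0,⟨0,[]⟩,⟨0,[]⟩⟩,[.o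
  ⟨false,0,⟨0,[(41,0)]⟩,⟨1,[(31,0),(10,1),(1,0)]⟩⟩,.a ⟨true,0,⟨57,[(4,5),(9,25),(1,5),(7,5),(1,5),
  (3,7),(1,7),(4,8),(6,2)]⟩,⟨0,[(42,0)]⟩⟩ ⟨false,1,⟨1,[(43,0),(0,0)]⟩,⟨0,[(46,0)]⟩⟩ ⟨true,0,⟨0,[(1,
  0),(9,0)]⟩,⟨0,[(6,0),(35,0)]⟩⟩,.e ⟨false,1,⟨1,[(19,0),(0,0),(23,0)]⟩,⟨0,[]⟩⟩ ⟨false,0,⟨0,[(1,0),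
  (9,0)]⟩,⟨7,[(2,1),(3,3),(2,1),(14,1),(6,0),(10,5),(1,4)]⟩⟩,.o ⟨false,0,⟨0,[(6,0)]⟩,⟨1,[(23,1),(7,
  0),(11,0)]⟩⟩]⟩) (.R ⟨1,false,false,true,[0,-1,1],[1,-1],[0,0,-1,-1,0,0,0,1],(⟨0,[(18,0)]⟩,⟨17,[(4,
  0),(4,0),(6,0),(7,1),(3,17),(1,2),(5,4),(0,1),(6,0)]⟩),(⟨0,[(32,0)]⟩,⟨0,[(33,0)]⟩),⟨0,[(0,0)]⟩,.k,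
  .k,(.r (-1) ⟨3,[(1,1),(5,1),(3,3),(19,0),(11,1),(0,0)]⟩ ⟨2,[(6,0),(2,2),(6,0),(9,0),(15,2)]⟩),.k,
  .k,.k,⟨true,0,⟨0,[(3,0)]⟩,⟨0,[(9,0),(31,0)]⟩⟩,⟨false,0,⟨0,[(23,0)]⟩,⟨2,[(2,1),(3,0),(12,0),(0,
  0)]⟩⟩,⟨false,1,⟨1,[(19,0),(0,0),(23,0)]⟩,⟨0,[]⟩⟩,⟨false,0,⟨13,[(1,5),(2,1),(4,3),(4,0),(1,2),(8,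
  1),(11,1),(1,1)]⟩,⟨1,[(12,1),(18,0),(12,0)]⟩⟩,⟨true,0,⟨0,[(42,0)]⟩,⟨0,[(41,0)]⟩⟩,⟨false,0,⟨0,[(9,
  0),(13,0)]⟩,⟨1,[(7,0),(4,0),(18,0),(12,0)]⟩⟩,[.o ⟨false,0,⟨0,[(41,0)]⟩,⟨1,[(31,0),(10,1),(1,0)]⟩⟩,
  .a ⟨true,0,⟨57,[(4,5),(9,25),(1,5),(7,5),(1,5),(3,7),(1,7),(4,8),(6,2)]⟩,⟨0,[(42,0)]⟩⟩ ⟨false,1,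
  ⟨0,[(1,0),(0,0),(0,0),(7,0)]⟩,⟨0,[(9,0),(36,0)]⟩⟩ ⟨true,0,⟨0,[(1,0),(9,0)]⟩,⟨0,[(6,0),(35,0)]⟩⟩,
  .e ⟨false,1,⟨0,[(11,0),(32,0)]⟩,⟨0,[(9,0)]⟩⟩ ⟨false,0,⟨0,[(1,0),(9,0)]⟩,⟨7,[(2,1),(3,3),(2,1),(14,
  1),(6,0),(10,5),(1,4)]⟩⟩,.o ⟨false,0,⟨0,[(6,0)]⟩,⟨1,[(23,1),(7,0),(11,0)]⟩⟩]⟩))))

theorem ok30 : chk K t30 l25 = true := by decide +kernel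

noncomputable def t31 : Tre :=
  (.Q [0,0,0,0,0,2,0,0,0,0,-1] (.p false [0,0,1] [] (⟨0,[(27,0)]⟩,⟨0,[(26,0)]⟩) .k 0 (⟨0,[]⟩,⟨0,
  []⟩) .k .k) (.R ⟨0,false,false,true,[0,-1,1],[1,-1],[],(⟨0,[(17,0)]⟩,⟨33,[(0,14),(2,2),(4,2),(6,
  2),(7,5),(3,18),(1,3),(6,5),(6,2)]⟩),(⟨0,[(31,0)]⟩,⟨0,[(32,0)]⟩),⟨0,[(0,0)]⟩,.k,.k,(.r (-1) ⟨3,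
  [(1,1),(4,1),(3,1),(19,0),(11,1),(0,0)]⟩ ⟨2,[(5,0),(2,2),(6,0),(9,0),(15,2)]⟩),.k,.k,.k,⟨true,0,
  ⟨0,[(39,0),(1,0)]⟩,⟨0,[(40,0)]⟩⟩,⟨false,0,⟨0,[(22,0)]⟩,⟨1,[(25,1),(4,0),(11,0)]⟩⟩,⟨true,0,⟨0,[(8,
  0)]⟩,⟨0,[(10,0)]⟩⟩,⟨false,0,⟨0,[(1,0),(6,0)]⟩,⟨1,[(11,1),(18,0),(12,0)]⟩⟩,⟨false,0,⟨0,[]⟩,⟨0,[]⟩⟩,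
  ⟨false,0,⟨0,[]⟩,⟨0,[]⟩⟩,[.o ⟨false,0,⟨0,[(40,0)]⟩,⟨1,[(30,0),(10,1),(1,0)]⟩⟩,.a ⟨true,0,⟨57,[(3,
  5),(9,25),(1,5),(7,5),(1,5),(3,7),(1,7),(4,8),(6,2)]⟩,⟨0,[(41,0)]⟩⟩ ⟨false,1,⟨1,[(42,0),(0,0)]⟩,
  ⟨0,[(45,0)]⟩⟩ ⟨true,0,⟨0,[(1,0)]⟩,⟨0,[(5,0),(35,0)]⟩⟩,.e ⟨false,1,⟨1,[(18,0),(0,0),(23,0)]⟩,⟨0,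
  []⟩⟩ ⟨false,0,⟨0,[(1,0)]⟩,⟨1,[(25,1),(4,0),(10,1),(1,0)]⟩⟩,.o ⟨false,0,⟨0,[(5,0)]⟩,⟨3,[(1,1),(12,
  1),(15,0),(11,2)]⟩⟩]⟩) (.Q [0,-1,0,1,0,0,-1,-1,0,1,-1] (.p false [0,0,1] [1] (⟨0,[(28,0)]⟩,⟨0,
  [(27,0)]⟩) .k 1 (⟨0,[]⟩,⟨0,[]⟩) .k .k) (.S ⟨1,0,[0,0,1,1,0,0,0,-1],[1,1,-1],[1,1,1,0,0,0,0,-1],
  (⟨17,[(4,0),(4,0),(6,0),(7,1),(3,17),(1,2),(5,4),(0,1),(6,0)]⟩,⟨0,[(18,0)]⟩),⟨0,[(28,0)]⟩,.k,.k,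
  ⟨true,0,⟨0,[(41,0)]⟩,⟨0,[(42,0)]⟩⟩,⟨false,1,⟨1,[(19,0),(0,0),(23,0)]⟩,⟨0,[]⟩⟩,⟨false,0,⟨0,[]⟩,⟨1,
  [(19,0),(0,0),(23,0)]⟩⟩,⟨true,0,⟨0,[(42,0)]⟩,⟨0,[(41,0)]⟩⟩,[.a ⟨true,0,⟨19,[(0,13),(3,0),(4,6),(6,
  3),(7,1),(12,0),(1,5)]⟩,⟨0,[(10,0)]⟩⟩ ⟨false,0,⟨0,[(3,0)]⟩,⟨3,[(11,1),(0,1),(2,1),(27,0),(0,2)]⟩⟩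
  ⟨true,0,⟨0,[(9,0)]⟩,⟨0,[(11,0),(28,0)]⟩⟩,.a ⟨true,0,⟨0,[(0,0)]⟩,⟨2,[(7,0),(16,1),(16,0)]⟩⟩ ⟨true,
  0,⟨0,[(8,0)]⟩,⟨1,[(11,0),(0,0),(2,0),(24,0)]⟩⟩ ⟨false,1,⟨1,[(9,1),(33,0),(0,0)]⟩,⟨0,[(11,0)]⟩⟩,.a
  ⟨true,0,⟨0,[(23,0)]⟩,⟨0,[(26,0)]⟩⟩ ⟨false,0,⟨0,[(8,0)]⟩,⟨3,[(11,1),(0,1),(2,1),(27,0),(0,2)]⟩⟩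
  ⟨true,0,⟨0,[(9,0)]⟩,⟨0,[(11,0)]⟩⟩,.o ⟨false,0,⟨0,[(5,0)]⟩,⟨1,[(26,1),(4,0),(11,0)]⟩⟩]⟩) (.I [1,1,
  2,1,-1,0,0,-1] (.Q [0,-1,0,2,0,0,-1,-1,0,1,-1] (.p false [0,0,1] [1] (⟨0,[(30,0)]⟩,⟨0,[(29,0)]⟩)
  .k 1 (⟨0,[]⟩,⟨0,[]⟩) .k .k) (.S ⟨1,3,[],[0,-1,1],[0,0,-1,-1,0,0,0,1],(⟨0,[(20,0)]⟩,⟨19,[(0,2),(15,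
  2),(9,2),(3,19),(1,1),(5,5)]⟩),⟨0,[(3,0)]⟩,.k,(.r (-1) ⟨3,[(4,1),(4,1),(3,1),(19,0),(11,1),(0,
  0)]⟩ ⟨1,[(0,0),(7,0),(2,1),(3,0)]⟩),⟨false,1,⟨1,[(21,0),(0,0),(23,0)]⟩,⟨0,[]⟩⟩,⟨true,0,⟨11,[(0,4),
  (5,1),(4,3),(6,2),(8,0),(11,1),(1,1)]⟩,⟨0,[(2,0)]⟩⟩,⟨true,0,⟨0,[(44,0)]⟩,⟨0,[(43,0)]⟩⟩,⟨false,0,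
  ⟨0,[(0,0)]⟩,⟨3,[(9,1),(6,1),(9,1),(6,2),(12,0)]⟩⟩,[.fa ⟨false,1,⟨1,[(13,1),(31,0),(0,0)]⟩,⟨0,[(11,
  0)]⟩⟩ ⟨true,0,⟨0,[(25,0)]⟩,⟨0,[(8,0)]⟩⟩,.a ⟨true,0,⟨0,[(0,0),(8,0)]⟩,⟨0,[(48,0)]⟩⟩ ⟨true,1,⟨0,
  [(13,0),(32,0)]⟩,⟨0,[(1,0)]⟩⟩ ⟨false,1,⟨1,[(25,1),(19,0),(0,0)]⟩,⟨3,[(1,1),(0,1),(25,1),(4,0),(11,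
  0)]⟩⟩,.a ⟨true,0,⟨0,[(28,0)]⟩,⟨0,[(25,0)]⟩⟩ ⟨false,1,⟨0,[(13,0),(32,0)]⟩,⟨0,[(11,0)]⟩⟩ ⟨true,0,⟨0,
  [(25,0)]⟩,⟨3,[(1,1),(0,1),(25,1),(4,0),(11,0)]⟩⟩,.o ⟨false,0,⟨0,[(8,0)]⟩,⟨3,[(4,1),(12,1),(15,0),
  (11,2)]⟩⟩]⟩) (.I [1,1,-2,-2,1,0,0,-1] (.Q [0,-1,0,-1,0,0,0,0,0,1] (.pp false [-1,1]) (.R ⟨1,false,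
  false,false,[0,-1,1],[1,-1],[0,0,-1,-1,0,0,0,1],(⟨0,[(22,0)]⟩,⟨17,[(8,0),(4,0),(6,0),(7,1),(3,17),
  (1,2),(5,4),(0,1),(6,0)]⟩),(⟨0,[(36,0)]⟩,⟨0,[(37,0)]⟩),⟨0,[(5,0)]⟩,.k,.k,(.r (-1) ⟨3,[(6,1),(4,1),
  (3,1),(19,0),(11,1),(0,0)]⟩ ⟨2,[(10,0),(2,2),(6,0),(9,0),(15,2)]⟩),.k,.k,.k,⟨true,0,⟨1,[(15,0),(0,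
  0),(2,0),(24,0)]⟩,⟨0,[(12,0)]⟩⟩,⟨false,0,⟨0,[(27,0)]⟩,⟨1,[(30,1),(4,0),(11,0)]⟩⟩,⟨false,1,⟨1,[(23,
  0),(0,0),(23,0)]⟩,⟨0,[]⟩⟩,⟨true,0,⟨0,[(6,0),(6,0)]⟩,⟨0,[(4,0),(41,0)]⟩⟩,⟨true,0,⟨0,[(46,0)]⟩,⟨0,
  [(45,0)]⟩⟩,⟨true,0,⟨0,[(13,0),(13,0)]⟩,⟨0,[(4,0)]⟩⟩,[.a ⟨true,0,⟨57,[(8,5),(9,25),(1,5),(7,5),(1,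
  5),(3,7),(1,7),(4,8),(6,2)]⟩,⟨0,[(46,0)]⟩⟩ ⟨false,1,⟨1,[(15,1),(31,0),(0,0)]⟩,⟨0,[(13,0)]⟩⟩ ⟨true,
  0,⟨0,[(6,0)]⟩,⟨0,[(10,0),(35,0)]⟩⟩,.a ⟨true,0,⟨0,[(0,0)]⟩,⟨2,[(13,0),(5,0),(8,0),(14,0),(2,0)]⟩⟩
  ⟨true,1,⟨0,[(15,0),(32,0)]⟩,⟨0,[(3,0)]⟩⟩ ⟨false,1,⟨1,[(6,1),(40,0),(0,0)]⟩,⟨1,[(3,1),(12,1),(18,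
  0),(11,0)]⟩⟩,.a ⟨true,0,⟨0,[(30,0)]⟩,⟨0,[(27,0)]⟩⟩ ⟨false,1,⟨0,[(15,0),(32,0)]⟩,⟨0,[(13,0)]⟩⟩
  ⟨true,0,⟨0,[(6,0)]⟩,⟨1,[(3,1),(12,1),(18,0),(11,0)]⟩⟩,.o ⟨false,0,⟨0,[(10,0)]⟩,⟨3,[(6,1),(12,1),
  (15,0),(11,2)]⟩⟩]⟩) (.I [0,0,-2,-1,1] (.S ⟨1,0,[0,0,-1,-1],[1,-1],[1,1,1],(⟨0,[(37,0)]⟩,⟨0,[(38,
  0)]⟩),⟨1,[(6,0),(15,0),(14,0)]⟩,.k,(.x 1 ⟨23,[(4,14),(0,1),(4,0),(5,12),(15,0),(7,29),(0,15),(0,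
  8)]⟩ ⟨2,[(6,1),(15,1),(1,1),(0,1),(10,0),(11,2)]⟩),⟨true,(-1),⟨4,[(4,3),(0,1),(11,1),(2,2),(11,0),
  (9,0),(2,0)]⟩,⟨0,[(0,0)]⟩⟩,⟨false,1,⟨1,[(24,0),(0,0),(23,0)]⟩,⟨0,[]⟩⟩,⟨false,(-1),⟨0,[(1,1),(38,
  1),(1,0)]⟩,⟨5,[(0,3),(1,1),(15,1),(0,1),(16,0),(12,4)]⟩⟩,⟨true,0,⟨0,[(47,0)]⟩,⟨0,[(46,0)]⟩⟩,[.e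
  ⟨false,0,⟨0,[(51,0)]⟩,⟨1,[(48,0),(0,0)]⟩⟩ ⟨false,1,⟨0,[(0,0)]⟩,⟨2,[(11,0),(9,0),(9,0),(15,2)]⟩⟩,
  .o ⟨false,1,⟨3,[(19,1),(4,0),(0,0),(10,0),(12,1)]⟩,⟨0,[(1,0)]⟩⟩,.o ⟨false,0,⟨2,[(11,0),(9,0),(9,
  0)]⟩,⟨1,[(36,0),(11,0)]⟩⟩,.a ⟨true,(-1),⟨15,[(4,8),(7,3),(3,0),(1,3),(2,1),(18,13),(1,6),(7,0)]⟩,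
  ⟨0,[(48,0)]⟩⟩ ⟨false,0,⟨0,[]⟩,⟨1,[(24,0),(0,0),(23,0)]⟩⟩ ⟨true,1,⟨0,[(0,0)]⟩,⟨4,[(4,3),(0,1),(11,
  1),(2,2),(11,0),(9,0),(2,0)]⟩⟩]⟩) (.I [0,-1,-1,-1,1] (.S ⟨1,0,[0,1,-1,-1],[1,-1],[1,1],(⟨0,[(38,
  0)]⟩,⟨0,[(39,0)]⟩),⟨1,[(7,0),(15,0),(14,0)]⟩,.k,(.r (-2) ⟨7,[(0,7),(2,3),(18,1),(2,2),(0,2),(3,3),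
  (6,0)]⟩ ⟨0,[(1,0),(46,0)]⟩),⟨false,0,⟨13,[(1,2),(10,0),(2,5),(5,4),(0,0),(7,5),(19,2)]⟩,⟨0,[(0,
  0)]⟩⟩,⟨true,0,⟨0,[(52,0)]⟩,⟨0,[]⟩⟩,⟨true,(-1),⟨1,[(1,0),(0,1),(40,0),(4,0)]⟩,⟨3,[(0,1),(2,0),(15,
  0),(0,1),(16,0)]⟩⟩,⟨false,0,⟨0,[(48,0)]⟩,⟨3,[(20,1),(4,0),(0,0),(10,0),(12,1)]⟩⟩,[.o ⟨false,0,⟨0,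
  [(47,0)]⟩,⟨0,[(2,0),(47,0)]⟩⟩,.e ⟨true,0,⟨0,[]⟩,⟨2,[(12,0),(9,0),(9,0)]⟩⟩ ⟨true,1,⟨15,[(0,7),(2,
  3),(18,1),(2,2),(0,2),(3,3),(6,0)]⟩,⟨0,[(1,0)]⟩⟩,.o ⟨false,0,⟨2,[(12,0),(9,0),(9,0)]⟩,⟨1,[(37,0),
  (11,0)]⟩⟩,.a ⟨true,(-1),⟨13,[(1,9),(18,4),(1,0),(9,1),(10,3),(7,5)]⟩,⟨0,[(49,0)]⟩⟩ ⟨false,1,⟨1,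
  [(25,0),(0,0),(22,0)]⟩,⟨0,[(41,0)]⟩⟩ ⟨true,1,⟨1,[(3,0),(15,0),(29,0)]⟩,⟨0,[(1,0)]⟩⟩]⟩) (.Q [0,0,0,
  -1,0,0,0,0,1,0,0,1] (.p true [0,0,0,0,1] [] (⟨0,[(28,0)]⟩,⟨0,[(27,0)]⟩) .k 0 (⟨0,[]⟩,⟨0,[]⟩) .k
  .k) (.Q [-1,0,0,0,0,0,0,0,-1,1,0,-1] (.p false [0,0,0,0,1] [1] (⟨0,[(29,0)]⟩,⟨0,[(28,0)]⟩) .k 1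
  (⟨0,[]⟩,⟨0,[]⟩) .k .k) (.Q [0,0,0,0,0,-1,0,0,0,0,0,1] (.ed false [1,-1,0,0,1] .k) (.S ⟨1,0,[1,1],
  [0,0,0,0,1],[],(⟨0,[(31,0)]⟩,⟨0,[(30,0)]⟩),⟨0,[(0,0)]⟩,.k,(.r (-1) ⟨1,[(6,0),(15,0),(30,0)]⟩ ⟨3,
  [(4,0),(13,1),(3,0),(1,0),(8,0),(19,0)]⟩),⟨false,1,⟨4,[(28,1),(0,1),(23,2),(1,0)]⟩,⟨0,[]⟩⟩,⟨true,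
  0,⟨0,[(55,0)]⟩,⟨0,[]⟩⟩,⟨true,0,⟨0,[(3,0),(40,0),(7,0)]⟩,⟨0,[(50,0)]⟩⟩,⟨false,0,⟨0,[(51,0)]⟩,⟨5,
  [(2,1),(20,1),(4,1),(11,0),(12,2)]⟩⟩,[.o ⟨false,0,⟨0,[(2,0),(2,0)]⟩,⟨1,[(1,1),(38,0),(12,0)]⟩⟩,.a
  ⟨true,0,⟨0,[(29,0)]⟩,⟨0,[(1,0)]⟩⟩ ⟨false,1,⟨1,[(52,0),(0,0)]⟩,⟨0,[(55,0)]⟩⟩ ⟨true,0,⟨0,[]⟩,⟨2,
  [(15,0),(9,0),(9,0)]⟩⟩,.e ⟨false,1,⟨1,[(28,0),(0,0),(23,0)]⟩,⟨0,[]⟩⟩ ⟨false,0,⟨0,[]⟩,⟨1,[(28,0),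
  (0,0),(23,0)]⟩⟩,.o ⟨false,0,⟨1,[(2,0),(1,0),(24,0),(10,0)]⟩,⟨1,[(1,1),(38,0),(11,0)]⟩⟩]⟩) (.R ⟨0,
  false,false,false,[0,0,0,0,1],[0,1],[1,1],(⟨0,[(31,0)]⟩,⟨0,[(30,0)]⟩),(⟨0,[(42,0)]⟩,⟨0,[(41,0)]⟩),
  ⟨0,[(0,0)]⟩,.k,.k,(.r (-1) ⟨1,[(6,0),(15,0),(30,0)]⟩ ⟨3,[(4,0),(13,1),(3,0),(1,0),(8,0),(19,0)]⟩),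
  (.r (-1) ⟨1,[(6,0),(15,0),(30,0)]⟩ ⟨3,[(4,0),(13,1),(3,0),(1,0),(8,0),(19,0)]⟩),.k,.k,⟨false,1,⟨1,
  [(6,0),(15,0),(29,0)]⟩,⟨1,[(4,0),(46,0),(1,0)]⟩⟩,⟨true,1,⟨1,[(1,1),(38,0),(11,0)]⟩,⟨0,[(2,0),(1,
  0)]⟩⟩,⟨true,0,⟨0,[(55,0)]⟩,⟨0,[]⟩⟩,⟨false,1,⟨0,[(1,0),(3,0),(47,0)]⟩,⟨0,[(2,0)]⟩⟩,⟨false,0,⟨0,[]⟩,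
  ⟨0,[]⟩⟩,⟨false,0,⟨0,[]⟩,⟨0,[]⟩⟩,[.a ⟨true,0,⟨0,[(51,0)]⟩,⟨57,[(13,5),(9,25),(1,5),(7,5),(1,5),(3,
  7),(1,7),(4,8),(6,2)]⟩⟩ ⟨true,0,⟨0,[(55,0)]⟩,⟨0,[(44,0)]⟩⟩ ⟨false,1,⟨1,[(1,1),(3,1),(46,0),(0,
  0)]⟩,⟨0,[(2,0)]⟩⟩,.o ⟨false,1,⟨0,[(5,0),(47,0)]⟩,⟨0,[(50,0)]⟩⟩,.e ⟨false,0,⟨0,[]⟩,⟨1,[(28,0),(0,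
  0),(23,0)]⟩⟩ ⟨false,1,⟨0,[(1,0),(3,0),(47,0)]⟩,⟨0,[(2,0)]⟩⟩,.o ⟨false,0,⟨1,[(2,0),(1,0),(24,0),
  (10,0)]⟩,⟨1,[(1,1),(38,0),(11,0)]⟩⟩]⟩)) (.Q [-1,1,1,0,-1,0,-1,0,-1,1,-1,-1] (.p false [0,0,1] [1,
  0,0,0,-1] (⟨0,[(37,0)]⟩,⟨0,[(36,0)]⟩) .k 2 (⟨0,[(29,0)]⟩,⟨0,[(30,0)]⟩) .k (.r 0 ⟨2,[(3,0),(15,1),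
  (0,0),(2,0),(28,0)]⟩ ⟨9,[(12,4),(4,4),(9,3),(0,3),(23,0),(1,1)]⟩)) (.R ⟨0,false,false,false,[1,-1,
  -1],[0,0,0,0,1],[],(⟨0,[(26,0)]⟩,⟨17,[(13,0),(4,0),(6,0),(7,1),(4,17),(0,2),(5,4),(0,1),(6,0)]⟩),
  (⟨0,[(31,0)]⟩,⟨0,[(30,0)]⟩),⟨2,[(10,1),(27,0),(0,0),(5,2)]⟩,.k,.k,(.r (-2) ⟨1,[(6,1),(21,0),(0,0),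
  (23,0)]⟩ ⟨0,[(4,0),(16,0),(2,0)]⟩),(.r (-1) ⟨0,[(3,0),(2,0),(37,1),(7,0)]⟩ ⟨1,[(4,0),(17,0),(1,0),
  (8,0),(19,0)]⟩),.k,.k,⟨false,1,⟨9,[(28,3),(0,3),(22,4),(0,0),(1,1)]⟩,⟨0,[]⟩⟩,⟨true,1,⟨0,[(1,0),
  (33,0),(16,0)]⟩,⟨0,[(0,0),(48,0)]⟩⟩,⟨false,0,⟨2,[(4,1),(15,0),(0,1),(2,1),(28,1)]⟩,⟨0,[(13,0)]⟩⟩,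
  ⟨true,0,⟨0,[(1,0),(19,0),(29,0)]⟩,⟨0,[(0,0),(12,0)]⟩⟩,⟨false,0,⟨0,[]⟩,⟨0,[]⟩⟩,⟨false,0,⟨0,[]⟩,⟨0,
  []⟩⟩,[.o ⟨false,0,⟨0,[(1,0)]⟩,⟨5,[(0,1),(27,3),(6,1),(11,0),(4,1),(0,0)]⟩⟩,.e ⟨false,1,⟨1,[(52,0),
  (0,0)]⟩,⟨0,[(55,0)]⟩⟩ ⟨false,2,⟨1,[(1,1),(33,1),(16,2),(0,0)]⟩,⟨0,[(0,0)]⟩⟩,.a ⟨true,(-1),⟨0,[(4,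
  0),(6,0)]⟩,⟨0,[(35,0),(16,0)]⟩⟩ ⟨false,1,⟨1,[(28,0),(0,0),(23,0)]⟩,⟨0,[]⟩⟩ ⟨true,1,⟨0,[(1,0),(33,
  0),(16,0)]⟩,⟨0,[(0,0)]⟩⟩,.o ⟨false,(-1),⟨0,[(0,0),(0,0),(47,0)]⟩,⟨1,[(35,1),(4,0),(11,2)]⟩⟩]⟩)
  (.Q [0,0,0,0,0,1,0,0,0,0,0,-1] (.ed true [1,-1,0,0,1] .k) (.Q [1,1,0,-1,-1,0,0,0,1,0,0,1] (.p
  true [0,0,0,0,1] [] (⟨0,[(32,0)]⟩,⟨0,[(31,0)]⟩) .k 0 (⟨0,[]⟩,⟨0,[]⟩) .k .k) (.R ⟨0,false,false,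
  false,[0,0,0,0,1],[0,1],[],(⟨0,[(33,0)]⟩,⟨0,[(32,0)]⟩),(⟨0,[(44,0)]⟩,⟨0,[(43,0)]⟩),⟨0,[(1,0)]⟩,.k,
  .k,(.r (-1) ⟨4,[(2,1),(5,0),(13,0),(2,0),(1,0),(2,1)]⟩ ⟨3,[(6,0),(13,1),(3,0),(1,0),(8,0),(19,
  0)]⟩),(.r (-1) ⟨4,[(2,1),(5,0),(13,0),(2,0),(1,0),(2,1)]⟩ ⟨3,[(6,0),(13,1),(3,0),(1,0),(8,0),(19,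
  0)]⟩),.k,.k,⟨true,1,⟨11,[(2,3),(5,2),(13,1),(1,0),(0,1),(1,1),(2,3),(24,0)]⟩,⟨0,[(6,0)]⟩⟩,⟨false,
  2,⟨0,[(30,0),(23,0)]⟩,⟨1,[(0,1),(5,0),(46,0),(1,0)]⟩⟩,⟨false,1,⟨4,[(30,1),(0,1),(23,2),(1,0)]⟩,⟨0,
  []⟩⟩,⟨true,1,⟨0,[(30,0),(22,0)]⟩,⟨0,[(0,0)]⟩⟩,⟨false,0,⟨0,[]⟩,⟨0,[]⟩⟩,⟨false,0,⟨0,[]⟩,⟨0,[]⟩⟩,[.a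
  ⟨true,0,⟨0,[(53,0)]⟩,⟨57,[(15,5),(9,25),(1,5),(7,5),(1,5),(3,7),(1,7),(4,8),(6,2)]⟩⟩ ⟨false,1,⟨1,
  [(30,0),(0,0),(22,0)]⟩,⟨0,[]⟩⟩ ⟨true,1,⟨0,[(30,0),(22,0)]⟩,⟨0,[(0,0),(45,0)]⟩⟩,.o ⟨false,1,⟨0,[(7,
  0),(47,0)]⟩,⟨0,[(52,0)]⟩⟩,.o ⟨false,0,⟨3,[(0,1),(2,1),(45,0),(3,1),(1,0)]⟩,⟨0,[(30,0)]⟩⟩,.e
  ⟨false,1,⟨1,[(54,0),(0,0)]⟩,⟨2,[(17,0),(9,0),(9,0)]⟩⟩ ⟨false,2,⟨1,[(30,1),(22,1),(0,0),(0,0)]⟩,⟨0,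
  [(0,0),(45,0)]⟩⟩]⟩) (.Q [0,0,1,0,-1,0,0,0,1,0,0,1] (.p true [0,0,0,0,1] [] (⟨0,[(33,0)]⟩,⟨0,[(32,
  0)]⟩) .k 0 (⟨0,[]⟩,⟨0,[]⟩) .k .k) (.S ⟨1,0,[-1,1],[1,0,0,0,-1],[-1],(⟨0,[(33,0)]⟩,⟨0,[(34,0)]⟩),
  ⟨1,[(2,0),(10,0),(15,0),(3,0)]⟩,.k,(.r (-1) ⟨0,[(6,3),(2,0),(0,0),(3,0),(32,5),(7,3)]⟩ ⟨10,[(1,2),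
  (5,2),(10,0),(2,2),(5,1),(0,0),(3,2),(3,2)]⟩),⟨false,1,⟨1,[(31,0),(0,0),(23,0)]⟩,⟨0,[]⟩⟩,⟨true,0,
  ⟨0,[(58,0)]⟩,⟨0,[]⟩⟩,⟨true,0,⟨0,[(54,0)]⟩,⟨0,[(53,0)]⟩⟩,⟨false,0,⟨0,[(54,0)]⟩,⟨5,[(5,1),(20,1),(4,
  1),(11,0),(12,2)]⟩⟩,[.a ⟨true,0,⟨82,[(1,82),(4,93),(2,28),(3,1),(9,28),(2,44),(2,1),(12,5),(6,17),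
  (1,6)]⟩,⟨2,[(0,1),(2,0),(31,0),(20,0)]⟩⟩ ⟨false,1,⟨9,[(31,3),(0,3),(22,4),(0,0),(1,1)]⟩,⟨0,[]⟩⟩
  ⟨true,0,⟨0,[(58,0)]⟩,⟨0,[(52,0)]⟩⟩,.o ⟨false,1,⟨1,[(1,0),(29,0),(21,0)]⟩,⟨0,[(4,0)]⟩⟩,.o ⟨false,1,
  ⟨0,[(31,0)]⟩,⟨3,[(0,1),(3,1),(45,0),(4,0)]⟩⟩,.e ⟨false,1,⟨0,[(47,0),(7,0)]⟩,⟨2,[(18,0),(9,0),(9,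
  0)]⟩⟩ ⟨false,1,⟨9,[(31,3),(0,3),(22,4),(0,0),(1,1)]⟩,⟨0,[(52,0)]⟩⟩]⟩) (.R ⟨0,false,false,false,[0,
  0,0,0,1],[0,1],[1,1],(⟨0,[(34,0)]⟩,⟨0,[(33,0)]⟩),(⟨0,[(45,0)]⟩,⟨0,[(44,0)]⟩),⟨0,[(2,0)]⟩,.k,.k,
  (.r (-1) ⟨4,[(3,1),(5,0),(13,0),(2,0),(1,0),(2,1)]⟩ ⟨2,[(1,0),(5,0),(13,0),(3,0),(6,0)]⟩),(.r
  (-1) ⟨4,[(3,1),(5,0),(13,0),(2,0),(1,0),(2,1)]⟩ ⟨2,[(1,0),(5,0),(13,0),(3,0),(6,0)]⟩),.k,.k,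
  ⟨false,1,⟨1,[(9,0),(15,0),(29,0)]⟩,⟨1,[(7,0),(46,0),(1,0)]⟩⟩,⟨true,1,⟨0,[(0,0)]⟩,⟨0,[(5,0),(1,
  0)]⟩⟩,⟨true,0,⟨0,[(58,0)]⟩,⟨0,[]⟩⟩,⟨false,1,⟨0,[(1,0)]⟩,⟨0,[(5,0)]⟩⟩,⟨false,0,⟨0,[]⟩,⟨0,[]⟩⟩,
  ⟨false,0,⟨0,[]⟩,⟨0,[]⟩⟩,[.a ⟨true,0,⟨0,[(54,0)]⟩,⟨57,[(16,5),(9,25),(1,5),(7,5),(1,5),(3,7),(1,7),
  (4,8),(6,2)]⟩⟩ ⟨true,0,⟨0,[(58,0)]⟩,⟨0,[(47,0)]⟩⟩ ⟨false,1,⟨3,[(0,1),(0,1),(6,1),(40,0),(5,0)]⟩,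
  ⟨0,[(5,0)]⟩⟩,.o ⟨false,1,⟨9,[(1,3),(1,3),(3,1),(19,3),(15,2),(12,0)]⟩,⟨0,[(53,0)]⟩⟩,.e ⟨false,0,
  ⟨0,[]⟩,⟨1,[(31,0),(0,0),(23,0)]⟩⟩ ⟨false,1,⟨0,[(1,0)]⟩,⟨0,[(5,0)]⟩⟩,.o ⟨false,0,⟨4,[(4,3),(13,0),
  (13,0),(6,0),(17,1)]⟩,⟨0,[(0,0)]⟩⟩]⟩))) (.Q [0,0,2,0,-1,0,-1,0,-1,1,-1,-1] (.p false [0,0,1] [1,0,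
  0,0,-1] (⟨0,[(39,0)]⟩,⟨0,[(38,0)]⟩) .k 2 (⟨0,[(31,0)]⟩,⟨0,[(32,0)]⟩) .k (.r 0 ⟨2,[(5,0),(15,1),(0,
  0),(2,0),(28,0)]⟩ ⟨9,[(14,4),(4,4),(9,3),(0,3),(23,0),(1,1)]⟩)) (.Q [-1,-1,0,0,1,0,0,0,-1,0,0,-1]
  (.p false [0,0,0,0,1] [] (⟨0,[(33,0)]⟩,⟨0,[(32,0)]⟩) .k 0 (⟨0,[]⟩,⟨0,[]⟩) .k .k) (.R ⟨1,false,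
  false,true,[0,0,1],[0,0,0,0,1],[1,1,0,-1,0,0,0,1],(⟨0,[(41,0)]⟩,⟨0,[(40,0)]⟩),(⟨0,[(34,0)]⟩,⟨0,
  [(33,0)]⟩),⟨0,[(30,0)]⟩,.k,.k,.k,.k,(.r (-1) ⟨5,[(3,1),(19,3),(1,1),(0,0),(1,0),(2,1),(24,1)]⟩ ⟨0,
  [(21,0)]⟩),.k,⟨true,0,⟨5,[(1,1),(2,1),(14,0),(3,3),(0,0),(31,1)]⟩,⟨0,[(21,0)]⟩⟩,⟨false,0,⟨0,[(4,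
  0),(9,0),(39,0)]⟩,⟨0,[(0,0),(14,0),(8,0)]⟩⟩,⟨true,0,⟨0,[(53,0)]⟩,⟨0,[(54,0)]⟩⟩,⟨false,0,⟨0,[(4,0),
  (9,0),(6,0)]⟩,⟨0,[(0,0),(23,0)]⟩⟩,⟨false,0,⟨0,[]⟩,⟨1,[(31,0),(0,0),(23,0)]⟩⟩,⟨false,0,⟨0,[(4,0),
  (16,0),(13,0)]⟩,⟨1,[(0,1),(18,0),(4,0)]⟩⟩,[.o ⟨false,0,⟨5,[(4,4),(13,0),(13,0),(6,0),(11,2)]⟩,⟨0,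
  [(0,0)]⟩⟩,.o ⟨false,0,⟨0,[(4,0)]⟩,⟨2,[(0,0),(30,1),(26,0)]⟩⟩,.o ⟨false,1,⟨31,[(3,9),(4,5),(0,1),
  (2,1),(18,9),(6,19),(11,6),(4,2)]⟩,⟨0,[(17,0)]⟩⟩,.a ⟨true,0,⟨0,[(38,0)]⟩,⟨0,[(35,0)]⟩⟩ ⟨true,0,⟨0,
  [(23,0)]⟩,⟨0,[(21,0)]⟩⟩ ⟨false,0,⟨0,[(4,0),(30,0)]⟩,⟨0,[(0,0),(37,0)]⟩⟩]⟩) (.S ⟨1,0,[1],[0,0,0,0,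
  1],[1,1],(⟨0,[(34,0)]⟩,⟨0,[(33,0)]⟩),⟨0,[(2,0)]⟩,.k,(.r (-1) ⟨4,[(3,1),(5,0),(13,0),(2,0),(1,0),
  (2,1)]⟩ ⟨3,[(7,0),(13,1),(3,0),(1,0),(8,0),(19,0)]⟩),⟨true,0,⟨0,[(58,0)]⟩,⟨0,[]⟩⟩,⟨false,1,⟨1,
  [(31,0),(0,0),(23,0)]⟩,⟨0,[]⟩⟩,⟨false,0,⟨0,[(54,0)]⟩,⟨5,[(5,1),(20,1),(4,1),(11,0),(12,2)]⟩⟩,
  ⟨true,0,⟨0,[(54,0)]⟩,⟨0,[(53,0)]⟩⟩,[.o ⟨false,0,⟨0,[(4,0)]⟩,⟨4,[(1,0),(8,0),(10,0),(9,3),(15,0),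
  (6,0),(0,1)]⟩⟩,.a ⟨true,0,⟨3,[(0,1),(3,1),(44,0),(6,2)]⟩,⟨17,[(1,15),(4,11),(2,5),(14,5),(6,1),(6,
  9),(10,0),(5,20)]⟩⟩ ⟨true,0,⟨0,[]⟩,⟨2,[(18,0),(9,0),(9,0)]⟩⟩ ⟨false,1,⟨1,[(55,0),(0,0)]⟩,⟨0,[(58,
  0)]⟩⟩,.o ⟨false,0,⟨1,[(0,1),(49,0),(5,0)]⟩,⟨0,[(31,0)]⟩⟩,.e ⟨false,1,⟨1,[(31,0),(0,0),(22,0)]⟩,⟨0,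
  [(47,0)]⟩⟩ ⟨false,1,⟨1,[(55,0),(0,0)]⟩,⟨2,[(18,0),(9,0),(9,0)]⟩⟩]⟩)) (.Q [1,1,0,-2,-1,0,0,0,1,0,0,
  1] (.p true [0,0,0,0,1] [] (⟨0,[(33,0)]⟩,⟨0,[(32,0)]⟩) .k 0 (⟨0,[]⟩,⟨0,[]⟩) .k .k) (.R ⟨1,false,
  false,false,[0,0,0,0,1],[0,1],[],(⟨0,[(34,0)]⟩,⟨0,[(33,0)]⟩),(⟨0,[(45,0)]⟩,⟨0,[(44,0)]⟩),⟨0,[(2,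
  0)]⟩,.k,.k,(.r (-1) ⟨4,[(3,1),(5,0),(13,0),(2,0),(1,0),(2,1)]⟩ ⟨3,[(7,0),(13,1),(3,0),(1,0),(8,0),
  (19,0)]⟩),(.r (-1) ⟨4,[(3,1),(5,0),(13,0),(2,0),(1,0),(2,1)]⟩ ⟨3,[(7,0),(13,1),(3,0),(1,0),(8,0),
  (19,0)]⟩),(.r (-2) ⟨4,[(3,3),(5,1),(13,1),(2,1),(1,1),(2,3)]⟩ ⟨0,[(6,1),(40,1),(7,0)]⟩),.k,⟨true,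
  1,⟨11,[(3,3),(5,2),(13,1),(1,0),(0,1),(1,1),(2,3),(24,0)]⟩,⟨0,[(7,0)]⟩⟩,⟨false,2,⟨0,[(31,0),(23,
  0)]⟩,⟨7,[(0,5),(3,1),(2,3),(41,0),(4,7),(1,2)]⟩⟩,⟨false,1,⟨4,[(31,1),(0,1),(23,2),(1,0)]⟩,⟨0,[]⟩⟩,
  ⟨true,1,⟨0,[(31,0),(22,0)]⟩,⟨10,[(0,7),(0,0),(2,1),(1,2),(28,0),(13,0),(4,1)]⟩⟩,⟨true,0,⟨0,[(6,0),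
  (40,0),(7,0)]⟩,⟨0,[(53,0)]⟩⟩,⟨true,1,⟨0,[(31,0),(22,1)]⟩,⟨0,[(0,0)]⟩⟩,[.a ⟨true,0,⟨0,[(54,0)]⟩,
  ⟨57,[(16,5),(9,25),(1,5),(7,5),(1,5),(3,7),(1,7),(4,8),(6,2)]⟩⟩ ⟨false,1,⟨13,[(1,3),(26,1),(2,7),
  (0,3),(16,0),(5,2)]⟩,⟨0,[]⟩⟩ ⟨true,1,⟨0,[(31,0),(22,0)]⟩,⟨1,[(0,1),(6,0),(46,0),(1,0)]⟩⟩,.o
  ⟨false,1,⟨0,[(8,0),(47,0)]⟩,⟨0,[(53,0)]⟩⟩,.o ⟨false,0,⟨5,[(0,1),(3,3),(45,0),(3,3),(1,0)]⟩,⟨0,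
  [(31,0)]⟩⟩,.e ⟨false,1,⟨1,[(55,0),(0,0)]⟩,⟨2,[(18,0),(9,0),(9,0)]⟩⟩ ⟨false,2,⟨1,[(31,1),(22,1),(0,
  0),(0,0)]⟩,⟨1,[(0,1),(6,0),(46,0),(1,0)]⟩⟩]⟩) (.Q [0,0,0,0,0,0,0,0,1,-1,0,1] (.p true [0,0,0,0,1]
  [1] (⟨0,[(34,0)]⟩,⟨0,[(33,0)]⟩) .k 1 (⟨0,[]⟩,⟨0,[]⟩) .k .k) (.S ⟨1,0,[1],[0,0,0,0,1],[1,1],(⟨0,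
  [(35,0)]⟩,⟨0,[(34,0)]⟩),⟨0,[(3,0)]⟩,.k,(.r (-1) ⟨4,[(4,1),(5,0),(13,0),(2,0),(1,0),(2,1)]⟩ ⟨19,
  [(1,4),(6,4),(10,0),(2,4),(3,3),(2,0),(3,4),(3,0),(20,2)]⟩),⟨true,0,⟨0,[(59,0)]⟩,⟨0,[]⟩⟩,⟨false,1,
  ⟨1,[(32,0),(0,0),(23,0)]⟩,⟨0,[]⟩⟩,⟨false,0,⟨0,[(55,0)]⟩,⟨5,[(6,1),(20,1),(4,1),(11,0),(12,2)]⟩⟩,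
  ⟨true,0,⟨0,[(55,0)]⟩,⟨0,[(54,0)]⟩⟩,[.o ⟨false,0,⟨0,[(5,0)]⟩,⟨78,[(1,16),(8,3),(0,10),(0,6),(1,5),
  (0,10),(14,5),(1,61),(10,17),(4,4),(2,2)]⟩⟩,.a ⟨true,0,⟨1,[(0,1),(49,0),(6,0)]⟩,⟨56,[(1,38),(5,
  61),(2,23),(1,9),(1,4),(0,33),(4,33),(9,4),(1,17),(10,14),(6,8)]⟩⟩ ⟨true,0,⟨0,[]⟩,⟨2,[(19,0),(9,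
  0),(9,0)]⟩⟩ ⟨false,1,⟨1,[(56,0),(0,0)]⟩,⟨0,[(59,0)]⟩⟩,.o ⟨false,0,⟨0,[(0,0)]⟩,⟨0,[(32,0)]⟩⟩,.e
  ⟨false,1,⟨13,[(1,1),(0,3),(14,3),(11,3),(2,1),(4,3),(18,0),(0,0)]⟩,⟨0,[(48,0)]⟩⟩ ⟨false,1,⟨1,[(56,
  0),(0,0)]⟩,⟨2,[(19,0),(9,0),(9,0)]⟩⟩]⟩) (.R ⟨2,true,false,false,[0,1],[0,0,0,0,1],[1,0,1],(⟨0,[]⟩,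
  ⟨0,[]⟩),(⟨0,[(35,0)]⟩,⟨0,[(34,0)]⟩),⟨0,[]⟩,.k,.k,.k,(.r 0 ⟨19,[(1,4),(6,4),(10,0),(2,4),(3,3),(2,
  0),(3,4),(3,0),(20,2)]⟩ ⟨4,[(4,1),(5,0),(13,0),(2,0),(1,0),(2,1)]⟩),.k,.k,⟨true,0,⟨2,[(19,0),(9,
  0),(9,0)]⟩,⟨0,[]⟩⟩,⟨false,0,⟨0,[(33,0)]⟩,⟨1,[(0,1),(43,0),(11,0)]⟩⟩,⟨false,1,⟨5,[(6,1),(20,1),(4,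
  1),(11,0),(12,2)]⟩,⟨0,[(55,0)]⟩⟩,⟨true,0,⟨0,[(6,0)]⟩,⟨1,[(0,1),(6,1),(43,0),(4,0)]⟩⟩,⟨true,0,⟨0,
  []⟩,⟨0,[(59,0)]⟩⟩,⟨false,0,⟨7,[(2,1),(2,5),(30,1),(11,5),(1,2),(6,0)]⟩,⟨9,[(0,0),(13,0),(15,0),(1,
  8),(10,2),(7,0)]⟩⟩,[]⟩))))))) (.Q [0,0,0,0,0,1,0,0,0,-1,0,1] (.ed false [0,1,0,0,1] .k) (.S ⟨1,0,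
  [1],[0,0,0,0,1],[1,1],(⟨0,[(30,0)]⟩,⟨0,[(29,0)]⟩),⟨1,[(0,0),(8,0),(15,0),(4,0)]⟩,.k,(.r (-1) ⟨1,
  [(5,0),(15,0),(30,0)]⟩ ⟨3,[(3,0),(13,1),(3,0),(1,0),(8,0),(19,0)]⟩),⟨true,0,⟨0,[(54,0)]⟩,⟨0,[]⟩⟩,
  ⟨false,1,⟨1,[(27,0),(0,0),(23,0)]⟩,⟨0,[]⟩⟩,⟨false,0,⟨0,[(50,0)]⟩,⟨3,[(22,1),(4,0),(0,0),(10,0),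
  (12,1)]⟩⟩,⟨true,0,⟨0,[(50,0)]⟩,⟨0,[(49,0)]⟩⟩,[.e ⟨true,0,⟨0,[(54,0)]⟩,⟨0,[(43,0)]⟩⟩ ⟨true,0,⟨0,
  []⟩,⟨2,[(14,0),(9,0),(9,0)]⟩⟩,.o ⟨false,1,⟨1,[(28,1),(10,0),(12,0)]⟩,⟨0,[(1,0),(47,0)]⟩⟩,.a ⟨true,
  0,⟨0,[(28,0)]⟩,⟨4,[(1,3),(20,1),(4,0),(10,0),(1,0),(4,0)]⟩⟩ ⟨false,0,⟨0,[]⟩,⟨1,[(27,0),(0,0),(23,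
  0)]⟩⟩ ⟨true,0,⟨0,[]⟩,⟨0,[(54,0)]⟩⟩,.e ⟨false,1,⟨1,[(27,0),(0,0),(22,0)]⟩,⟨0,[(43,0)]⟩⟩ ⟨false,1,
  ⟨1,[(51,0),(0,0)]⟩,⟨2,[(14,0),(9,0),(9,0)]⟩⟩]⟩) (.S ⟨1,0,[-1,1],[1,0,0,0,-1],[-1],(⟨0,[(29,0)]⟩,
  ⟨0,[(30,0)]⟩),⟨0,[(0,0)]⟩,.k,(.r (-1) ⟨0,[(2,3),(2,0),(0,0),(3,0),(32,5),(7,3)]⟩ ⟨13,[(3,2),(10,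
  0),(2,5),(5,4),(0,0),(7,5),(19,2)]⟩),⟨false,1,⟨1,[(27,0),(0,0),(23,0)]⟩,⟨0,[]⟩⟩,⟨true,0,⟨0,[(54,
  0)]⟩,⟨0,[]⟩⟩,⟨true,0,⟨0,[(50,0)]⟩,⟨0,[(49,0)]⟩⟩,⟨false,0,⟨0,[(50,0)]⟩,⟨3,[(22,1),(4,0),(0,0),(10,
  0),(12,1)]⟩⟩,[.o ⟨false,0,⟨0,[(1,0),(47,0)]⟩,⟨1,[(28,1),(10,0),(12,0)]⟩⟩,.e ⟨false,1,⟨0,[(43,0),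
  (7,0)]⟩,⟨0,[(54,0)]⟩⟩ ⟨false,1,⟨9,[(27,3),(0,3),(22,4),(0,0),(1,1)]⟩,⟨0,[]⟩⟩,.a ⟨true,0,⟨4,[(1,3),
  (20,1),(4,0),(10,0),(1,0),(4,0)]⟩,⟨0,[(28,0)]⟩⟩ ⟨false,1,⟨4,[(27,1),(0,1),(23,2),(1,0)]⟩,⟨0,[]⟩⟩
  ⟨true,0,⟨0,[(54,0)]⟩,⟨0,[]⟩⟩,.o ⟨false,0,⟨10,[(1,10),(4,0),(0,0),(6,1),(7,4),(12,2),(3,0),(8,1)]⟩,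
  ⟨1,[(28,1),(10,0),(11,0)]⟩⟩]⟩)))))) (.I [1,-1,2,1,-1,0,0,1] (.S ⟨1,0,[0,0,0,0,0,0,0,-1],[1,0,-1],
  [1,1,0,-1,0,0,0,-1],(⟨0,[(32,0)]⟩,⟨0,[(33,0)]⟩),⟨0,[(21,0)]⟩,.k,.k,⟨true,0,⟨0,[(45,0)]⟩,⟨0,[(46,
  0)]⟩⟩,⟨false,1,⟨1,[(23,0),(0,0),(23,0)]⟩,⟨0,[]⟩⟩,⟨false,0,⟨0,[]⟩,⟨1,[(23,0),(0,0),(23,0)]⟩⟩,⟨true,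
  0,⟨0,[(46,0)]⟩,⟨0,[(45,0)]⟩⟩,[.e ⟨false,1,⟨0,[(8,0),(41,0)]⟩,⟨0,[(0,0),(46,0)]⟩⟩ ⟨false,1,⟨1,[(8,
  0),(4,0),(33,0)]⟩,⟨3,[(1,0),(13,1),(1,0),(30,0)]⟩⟩,.o ⟨false,1,⟨0,[(29,0),(18,0)]⟩,⟨0,[(4,0),(41,
  0)]⟩⟩,.o ⟨false,0,⟨0,[(9,0)]⟩,⟨1,[(30,1),(4,0),(11,0)]⟩⟩,.a ⟨true,(-1),⟨1,[(0,0),(2,0),(2,1)]⟩,⟨0,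
  [(30,0),(16,0)]⟩⟩ ⟨false,1,⟨0,[(8,0)]⟩,⟨1,[(1,0),(15,0),(30,0)]⟩⟩ ⟨true,1,⟨1,[(8,0),(4,0),(33,
  0)]⟩,⟨1,[(0,0),(2,0),(11,1)]⟩⟩]⟩) (.I [1,0,-2,-1,1] (.R ⟨1,false,false,true,[1,-1],[1,0,-1],[0,0,
  1],(⟨0,[(37,0)]⟩,⟨0,[(38,0)]⟩),(⟨0,[(33,0)]⟩,⟨0,[(34,0)]⟩),⟨1,[(6,0),(15,0),(14,0)]⟩,.k,.k,(.r
  (-2) ⟨3,[(0,0),(0,2),(16,2),(0,1),(16,0),(12,2)]⟩ ⟨1,[(2,0),(1,0),(42,0)]⟩),.k,(.r (-1) ⟨7,[(0,3),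
  (6,1),(4,1),(3,5),(19,0),(12,2)]⟩ ⟨15,[(2,3),(11,23),(6,1),(2,2),(0,2),(3,3),(6,0)]⟩),.k,⟨true,0,
  ⟨13,[(2,5),(9,5),(5,1),(2,1),(10,1),(3,0),(12,4)]⟩,⟨0,[(8,0)]⟩⟩,⟨false,1,⟨3,[(7,1),(12,1),(15,0),
  (11,2)]⟩,⟨0,[(31,0)]⟩⟩,⟨false,0,⟨2,[(2,0),(8,0),(2,0),(6,0),(9,0),(17,0)]⟩,⟨0,[(0,0)]⟩⟩,⟨true,0,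
  ⟨1,[(1,0),(2,0),(15,1)]⟩,⟨0,[(15,0)]⟩⟩,⟨true,(-1),⟨1,[(2,0),(1,0),(42,0)]⟩,⟨9,[(0,2),(0,4),(14,3),
  (1,0),(0,3),(16,1)]⟩⟩,⟨true,0,⟨1,[(1,0),(2,0),(15,1),(26,1)]⟩,⟨0,[(12,0)]⟩⟩,[.o ⟨false,0,⟨0,[(30,
  0)]⟩,⟨1,[(17,1),(18,0),(12,0)]⟩⟩,.e ⟨true,0,⟨0,[(40,0)]⟩,⟨0,[(51,0)]⟩⟩ ⟨true,1,⟨1,[(1,0),(18,0),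
  (9,0),(18,0)]⟩,⟨22,[(2,11),(1,6),(0,4),(5,2),(0,12),(18,1),(10,3)]⟩⟩,.o ⟨false,0,⟨2,[(11,0),(9,0),
  (9,0)]⟩,⟨1,[(36,0),(11,0)]⟩⟩,.a ⟨true,(-1),⟨41,[(2,17),(1,17),(6,1),(7,26),(1,4),(9,7),(10,5)]⟩,
  ⟨0,[(48,0)]⟩⟩ ⟨false,1,⟨1,[(24,0),(0,0),(23,0)]⟩,⟨0,[]⟩⟩ ⟨true,1,⟨0,[(1,0),(18,0)]⟩,⟨22,[(2,11),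
  (1,6),(0,4),(5,2),(0,12),(18,1),(10,3)]⟩⟩]⟩) (.I [0,-1,0,1,0,0,0,1] (.S ⟨1,0,[0,0,0,0,0,0,0,-1],
  [1,0,-1],[1,1,0,-1,0,0,0,-1],(⟨0,[(34,0)]⟩,⟨0,[(35,0)]⟩),⟨0,[(23,0)]⟩,.k,.k,⟨true,0,⟨0,[(47,0)]⟩,
  ⟨0,[(48,0)]⟩⟩,⟨false,1,⟨1,[(25,0),(0,0),(23,0)]⟩,⟨0,[]⟩⟩,⟨false,0,⟨0,[]⟩,⟨1,[(25,0),(0,0),(23,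
  0)]⟩⟩,⟨true,0,⟨0,[(48,0)]⟩,⟨0,[(47,0)]⟩⟩,[.e ⟨false,1,⟨2,[(2,2),(9,0),(9,0),(9,0)]⟩,⟨0,[(0,0)]⟩⟩
  ⟨false,1,⟨3,[(2,1),(12,1),(33,0),(0,0)]⟩,⟨8,[(0,3),(3,0),(8,0),(5,2),(2,0)]⟩⟩,.o ⟨false,1,⟨0,[(31,
  0),(18,0)]⟩,⟨0,[(6,0),(41,0)]⟩⟩,.o ⟨false,0,⟨0,[(11,0)]⟩,⟨1,[(32,1),(4,0),(11,0)]⟩⟩,.a ⟨true,(-1),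
  ⟨0,[(1,0),(6,0)]⟩,⟨0,[(32,0),(16,0)]⟩⟩ ⟨false,1,⟨0,[(10,0)]⟩,⟨1,[(3,0),(15,0),(30,0)]⟩⟩ ⟨true,1,
  ⟨3,[(2,1),(12,1),(33,0),(0,0)]⟩,⟨0,[(1,0),(15,0)]⟩⟩]⟩) (.I [0,0,3,3,-2,0,0,1] (.Q [0,0,0,0,0,0,2,
  2,0,-1,2] (.p true [0,0,1] [1,0,-1] (⟨0,[(36,0)]⟩,⟨0,[(35,0)]⟩) .k 2 (⟨0,[(35,0)]⟩,⟨0,[(36,0)]⟩)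
  .k (.r 0 ⟨1,[(4,0),(13,1),(1,0),(30,0)]⟩ ⟨0,[(11,0),(4,0)]⟩)) (.Q [0,0,0,1,0,0,-2,-2,0,1,-2] (.p
  false [0,0,1] [1,0,-1] (⟨0,[(37,0)]⟩,⟨0,[(36,0)]⟩) .k 2 (⟨0,[(36,0)]⟩,⟨0,[(37,0)]⟩) .k (.r 0 ⟨0,
  [(0,0),(23,0)]⟩ ⟨0,[(12,0),(4,0)]⟩)) (.R ⟨1,true,false,false,[0,0,1],[1,0,-1],[0,1,0,0,0,0,0,1],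
  (⟨0,[(38,0)]⟩,⟨0,[(37,0)]⟩),(⟨0,[(37,0)]⟩,⟨0,[(38,0)]⟩),⟨0,[(27,0)]⟩,.k,.k,.k,.k,(.r 0 ⟨2,[(1,1),
  (4,0),(4,3),(8,0),(19,0)]⟩ ⟨1,[(13,0),(4,2),(9,0),(0,0)]⟩),.k,⟨true,(-1),⟨0,[(2,0),(4,0),(3,0),
  (40,0)]⟩,⟨1,[(13,0),(3,1),(0,0),(34,0)]⟩⟩,⟨false,0,⟨0,[(11,0),(12,0)]⟩,⟨0,[(1,0),(11,0),(4,0)]⟩⟩,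
  ⟨true,0,⟨0,[(55,0)]⟩,⟨0,[]⟩⟩,⟨false,1,⟨7,[(0,5),(12,3),(1,1),(7,0),(1,2),(27,3)]⟩,⟨0,[(1,0)]⟩⟩,
  ⟨false,0,⟨0,[(51,0)]⟩,⟨3,[(23,1),(4,0),(0,0),(10,0),(12,1)]⟩⟩,⟨true,0,⟨0,[(0,0)]⟩,⟨1,[(1,0),(5,0),
  (25,0)]⟩⟩,[]⟩) (.Q [0,0,0,2,0,0,-2,-2,0,1,-2] (.p false [0,0,1] [1,0,-1] (⟨0,[(38,0)]⟩,⟨0,[(37,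
  0)]⟩) .k 2 (⟨0,[(37,0)]⟩,⟨0,[(38,0)]⟩) .k (.r 0 ⟨0,[(1,0),(23,0)]⟩ ⟨0,[(13,0),(4,0)]⟩)) (.R ⟨1,
  true,false,false,[0,0,1],[1,1,-1],[0,1,0,0,0,0,0,1],(⟨0,[(39,0)]⟩,⟨0,[(38,0)]⟩),(⟨13,[(0,0),(23,
  0),(9,1),(3,13),(1,1),(5,3),(0,0),(6,0)]⟩,⟨0,[(28,0)]⟩),⟨0,[(28,0)]⟩,.k,.k,.k,(.r 0 ⟨3,[(1,1),(5,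
  1),(4,3),(8,1),(19,0),(11,0)]⟩ ⟨1,[(14,0),(4,2),(9,0),(0,0)]⟩),(.r (-1) ⟨0,[(21,1),(32,0)]⟩ ⟨0,
  [(19,1)]⟩),.k,⟨false,0,⟨1,[(1,1),(1,1),(2,1),(5,3),(28,0),(11,0)]⟩,⟨1,[(14,0),(4,2),(34,0)]⟩⟩,
  ⟨true,0,⟨0,[(12,0),(12,0)]⟩,⟨0,[(1,0),(16,0),(0,0)]⟩⟩,⟨true,0,⟨0,[(56,0)]⟩,⟨0,[]⟩⟩,⟨false,1,⟨1,
  [(0,0),(13,0),(4,0),(6,0),(27,0)]⟩,⟨0,[(1,0)]⟩⟩,⟨false,0,⟨0,[(52,0)]⟩,⟨3,[(24,1),(4,0),(0,0),(10,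
  0),(12,1)]⟩⟩,⟨true,0,⟨0,[(0,0)]⟩,⟨4,[(1,1),(6,2),(8,0),(16,1)]⟩⟩,[]⟩) (.I [0,0,3,0,-2,3,-1,0,1]
  (.Q [0,0,1,0,0,0,0,0,-1,1,0,-1] (.p false [0,0,0,0,1] [1] (⟨0,[(33,0)]⟩,⟨0,[(32,0)]⟩) .k 1 (⟨0,
  []⟩,⟨0,[]⟩) .k .k) (.Q [0,0,0,0,0,0,1,0,1,-1,1,1] (.p true [0,0,1] [1,0,0,0,-1] (⟨0,[(41,0)]⟩,⟨0,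
  [(40,0)]⟩) .k 2 (⟨0,[(33,0)]⟩,⟨0,[(34,0)]⟩) .k (.r 0 ⟨1,[(4,0),(23,0)]⟩ ⟨13,[(8,1),(7,4),(4,6),(9,
  5),(0,5),(23,0),(0,1)]⟩)) (.Q [-1,1,0,0,0,0,0,0,-1,1,0,-1] (.p false [0,0,0,0,1] [1] (⟨0,[(35,
  0)]⟩,⟨0,[(34,0)]⟩) .k 1 (⟨0,[]⟩,⟨0,[]⟩) .k .k) (.K ⟨0,[1,0,0,0,-1],0,0,(⟨0,[(35,0)]⟩,⟨0,[(36,
  0)]⟩),.k,(.r (-1) ⟨8,[(10,3),(14,0),(1,2),(0,1),(16,0),(12,3)]⟩ ⟨15,[(11,3),(11,7),(6,1),(2,2),(0,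
  2),(3,3),(6,0)]⟩),(.r 0 ⟨3,[(11,0),(11,1),(3,0),(5,0),(0,0)]⟩ ⟨8,[(10,3),(14,0),(1,2),(0,1),(16,
  0),(12,3)]⟩),.k,.k,[⟨0,[(1,0)]⟩,⟨0,[(2,0)]⟩,⟨22,[(1,9),(5,2),(4,0),(12,6),(8,12),(4,10),(5,5),(7,
  1)]⟩,⟨0,[(0,0)]⟩]⟩) (.R ⟨1,false,false,true,[0,0,1],[1,0,0,0,-1],[1,1,0,-1,0,0,0,1],(⟨0,[(43,0)]⟩,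
  ⟨0,[(42,0)]⟩),(⟨0,[(35,0)]⟩,⟨0,[(36,0)]⟩),⟨0,[(32,0)]⟩,.k,.k,.k,.k,(.r (-1) ⟨17,[(10,3),(14,9),(1,
  11),(0,1),(16,0),(12,12)]⟩ ⟨0,[(7,0),(2,1),(38,1)]⟩),.k,⟨true,0,⟨1,[(4,0),(25,0)]⟩,⟨0,[(7,0),(2,
  1),(38,1)]⟩⟩,⟨false,1,⟨0,[(33,0),(3,0)]⟩,⟨0,[(1,0)]⟩⟩,⟨true,0,⟨0,[(55,0)]⟩,⟨0,[(56,0)]⟩⟩,⟨false,1,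
  ⟨0,[(16,0),(6,0),(9,0)]⟩,⟨7,[(0,5),(5,3),(27,1),(16,0),(6,0)]⟩⟩,⟨false,0,⟨0,[]⟩,⟨1,[(33,0),(0,0),
  (23,0)]⟩⟩,⟨false,1,⟨0,[(23,0),(9,0),(3,0)]⟩,⟨7,[(0,5),(3,3),(29,1),(16,0),(6,0)]⟩⟩,[.o ⟨false,1,
  ⟨0,[(33,0),(26,0)]⟩,⟨0,[(0,0)]⟩⟩,.o ⟨false,1,⟨1,[(2,1),(49,0),(4,0)]⟩,⟨60,[(0,42),(6,0),(4,3),(0,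
  4),(20,17),(6,3),(3,6),(7,16)]⟩⟩,.o ⟨false,1,⟨1,[(40,1),(4,0),(11,0)]⟩,⟨0,[(19,0)]⟩⟩,.a ⟨true,0,
  ⟨0,[(40,0)]⟩,⟨0,[(37,0)]⟩⟩ ⟨true,0,⟨0,[(25,0)]⟩,⟨0,[(23,0)]⟩⟩ ⟨false,1,⟨1,[(10,0),(0,0),(4,0),(16,
  1),(3,0)]⟩,⟨0,[(0,0),(39,0)]⟩⟩]⟩)) (.I [2,0,-3,-3,2,0,0,-1] (.I [0,0,-3,0,3,-3,1,0,-1] (.N [0,3,1,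
  0,-1] 2 ⟨0,[(8,0)]⟩ ⟨0,[(1,0)]⟩ (.x (-3) ⟨0,[(0,0)]⟩ ⟨0,[(4,0)]⟩)) (.Q [0,0,0,0,0,0,0,0,1,-1,0,1]
  (.p true [0,0,0,0,1] [1] (⟨0,[(37,0)]⟩,⟨0,[(36,0)]⟩) .k 1 (⟨0,[]⟩,⟨0,[]⟩) .k .k) (.R ⟨1,false,
  false,false,[1,0,0,0,-1],[1,0,-1],[-1],(⟨0,[(37,0)]⟩,⟨0,[(38,0)]⟩),(⟨0,[(44,0)]⟩,⟨0,[(45,0)]⟩),⟨1,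
  [(1,1),(1,1),(4,1),(3,1),(4,1),(7,1),(7,3),(13,0),(11,1),(0,0)]⟩,.k,.k,(.r (-1) ⟨3,[(1,5),(1,5),
  (2,5),(2,9),(2,21),(4,3),(15,9),(4,5),(12,21),(2,4),(4,14)]⟩ ⟨15,[(13,3),(11,7),(6,1),(2,2),(0,2),
  (3,3),(6,0)]⟩),.k,(.r (-1) ⟨13,[(2,3),(5,2),(18,1),(1,9),(2,2),(27,5)]⟩ ⟨0,[(25,0)]⟩),.k,⟨true,0,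
  ⟨9,[(8,0),(4,1),(13,3),(1,1),(2,0),(27,1)]⟩,⟨0,[(24,0)]⟩⟩,⟨false,0,⟨0,[(0,0),(38,0)]⟩,⟨1,[(2,0),
  (0,1),(4,1),(16,2)]⟩⟩,⟨false,1,⟨1,[(35,0),(0,0),(23,0)]⟩,⟨0,[]⟩⟩,⟨true,0,⟨0,[(0,0),(17,0),(6,0)]⟩,
  ⟨5,[(3,5),(3,1),(0,3),(0,0),(2,3),(2,1),(9,0)]⟩⟩,⟨true,0,⟨0,[(58,0)]⟩,⟨0,[(57,0)]⟩⟩,⟨true,0,⟨0,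
  [(0,0),(24,0),(13,0)]⟩,⟨2,[(3,2),(3,2),(3,0),(0,1),(2,0)]⟩⟩,[.a ⟨true,0,⟨0,[(18,0),(6,0)]⟩,⟨0,
  [(28,0)]⟩⟩ ⟨false,1,⟨9,[(35,3),(0,3),(22,4),(0,0),(1,1)]⟩,⟨0,[]⟩⟩ ⟨true,0,⟨0,[(0,0),(17,0),(6,
  0)]⟩,⟨0,[(3,0),(3,0),(17,0)]⟩⟩,.o ⟨false,1,⟨0,[(41,0),(18,0)]⟩,⟨27,[(8,9),(0,1),(5,0),(0,6),(5,0),
  (24,4),(7,9)]⟩⟩,.o ⟨false,1,⟨0,[(35,0)]⟩,⟨0,[(0,0)]⟩⟩,.e ⟨false,1,⟨0,[(51,0),(7,0)]⟩,⟨2,[(22,0),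
  (9,0),(9,0)]⟩⟩ ⟨false,1,⟨3,[(0,3),(1,0),(22,2),(13,3),(20,1)]⟩,⟨0,[(3,0),(3,0),(17,0)]⟩⟩]⟩) (.R
  ⟨0,false,false,false,[0,0,0,0,1],[0,1],[1,1],(⟨0,[(38,0)]⟩,⟨0,[(37,0)]⟩),(⟨0,[(49,0)]⟩,⟨0,[(48,
  0)]⟩),⟨4,[(0,3),(0,3),(6,1),(3,1),(4,0),(7,1),(7,4),(3,0),(9,3),(11,4),(0,0)]⟩,.k,.k,(.r (-1) ⟨11,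
  [(2,3),(29,1),(2,0),(0,0),(3,3),(6,0),(12,1)]⟩ ⟨3,[(13,0),(11,1),(3,0),(5,0),(0,0)]⟩),(.r (-1)
  ⟨11,[(2,3),(29,1),(2,0),(0,0),(3,3),(6,0),(12,1)]⟩ ⟨3,[(13,0),(11,1),(3,0),(5,0),(0,0)]⟩),.k,.k,
  ⟨false,1,⟨2,[(2,0),(26,0),(25,0),(3,0)]⟩,⟨2,[(13,0),(11,0),(34,0)]⟩⟩,⟨true,1,⟨1,[(0,1),(46,0),(11,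
  0)]⟩,⟨32,[(1,11),(15,7),(4,13),(10,19),(2,20),(1,11),(4,1),(3,2)]⟩⟩,⟨true,0,⟨0,[(62,0)]⟩,⟨0,[]⟩⟩,
  ⟨false,1,⟨1,[(0,1),(46,0),(10,1),(1,0)]⟩,⟨33,[(1,5),(0,5),(3,2),(10,3),(12,4),(2,9),(2,27),(1,5),
  (8,5)]⟩⟩,⟨false,0,⟨0,[]⟩,⟨0,[]⟩⟩,⟨false,0,⟨0,[]⟩,⟨0,[]⟩⟩,[.a ⟨true,0,⟨0,[(58,0)]⟩,⟨75,[(12,5),(17,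
  34),(1,8),(7,5),(1,11),(3,7),(1,7),(4,11),(6,5)]⟩⟩ ⟨true,0,⟨0,[(62,0)]⟩,⟨0,[(51,0)]⟩⟩ ⟨false,1,⟨1,
  [(0,1),(46,0),(10,1),(0,0)]⟩,⟨20,[(1,2),(0,3),(11,3),(2,1),(0,0),(14,4),(2,17),(1,2),(8,0),(3,
  3)]⟩⟩,.o ⟨false,1,⟨1,[(47,0),(10,1),(1,0)]⟩,⟨0,[(57,0)]⟩⟩,.e ⟨false,0,⟨0,[]⟩,⟨1,[(35,0),(0,0),(23,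
  0)]⟩⟩ ⟨false,1,⟨1,[(0,1),(46,0),(10,1),(1,0)]⟩,⟨20,[(1,2),(0,3),(11,3),(2,1),(0,0),(14,4),(2,17),
  (1,2),(8,0),(3,3)]⟩⟩,.o ⟨false,0,⟨32,[(1,5),(15,3),(4,6),(10,9),(2,26),(1,5),(4,0),(3,17)]⟩,⟨1,
  [(0,1),(46,0),(11,0)]⟩⟩]⟩))) (.Q [-1,0,1,0,-1,0,-1,0,-1,1,-1,-1] (.p false [0,0,1] [1,0,0,0,-1]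
  (⟨0,[(43,0)]⟩,⟨0,[(42,0)]⟩) .k 2 (⟨0,[(35,0)]⟩,⟨0,[(36,0)]⟩) .k (.r 0 ⟨1,[(6,0),(23,0)]⟩ ⟨13,[(10,
  1),(7,4),(4,6),(9,5),(0,5),(23,0),(0,1)]⟩)) (.Q [1,1,0,0,0,0,0,0,1,-1,0,1] (.p true [0,0,0,0,1]
  [1] (⟨0,[(37,0)]⟩,⟨0,[(36,0)]⟩) .k 1 (⟨0,[]⟩,⟨0,[]⟩) .k .k) (.R ⟨0,false,false,false,[1,-1,-1],[0,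
  0,0,0,1],[0,0,1],(⟨0,[(33,0)]⟩,⟨13,[(4,1),(31,1),(8,13),(0,1),(5,3),(0,0),(5,0)]⟩),(⟨0,[(38,0)]⟩,
  ⟨0,[(37,0)]⟩),⟨2,[(17,1),(27,0),(0,0),(5,2)]⟩,.k,.k,(.r (-2) ⟨7,[(0,1),(11,7),(17,3),(4,1),(11,0),
  (12,4)]⟩ ⟨8,[(0,0),(1,5),(26,0),(2,0),(2,0),(4,1),(19,1)]⟩),(.r (-1) ⟨0,[(12,0),(38,0)]⟩ ⟨8,[(0,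
  1),(1,2),(26,1),(2,1),(2,1),(4,3),(19,3)]⟩),.k,.k,⟨true,0,⟨0,[(61,0)]⟩,⟨0,[]⟩⟩,⟨false,2,⟨1,[(0,1),
  (41,1),(16,2),(0,0)]⟩,⟨0,[(1,0)]⟩⟩,⟨true,(-1),⟨7,[(2,3),(4,1),(14,1),(7,0),(1,2)]⟩,⟨0,[(12,0)]⟩⟩,
  ⟨false,1,⟨2,[(0,1),(7,0),(27,0),(3,0),(17,2),(1,2)]⟩,⟨0,[(1,0),(18,0)]⟩⟩,⟨false,0,⟨0,[]⟩,⟨0,[]⟩⟩,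
  ⟨false,0,⟨0,[]⟩,⟨0,[]⟩⟩,[.a ⟨true,0,⟨0,[(36,0)]⟩,⟨11,[(1,7),(2,1),(3,3),(3,3),(12,3),(9,1),(17,2),
  (5,2),(0,1)]⟩⟩ ⟨true,0,⟨2,[(22,0),(9,0),(9,0)]⟩,⟨0,[]⟩⟩ ⟨false,2,⟨1,[(0,1),(41,1),(16,2),(0,0)]⟩,
  ⟨0,[(1,0)]⟩⟩,.o ⟨false,1,⟨0,[(0,0),(59,0)]⟩,⟨22,[(1,15),(0,4),(5,7),(3,17),(2,2),(19,6),(11,3),(7,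
  0)]⟩⟩,.e ⟨false,0,⟨0,[(51,0)]⟩,⟨1,[(35,0),(0,0),(22,0)]⟩⟩ ⟨false,2,⟨0,[(0,0),(41,0),(16,0),(0,
  0)]⟩,⟨0,[(1,0)]⟩⟩,.o ⟨false,(-1),⟨0,[(0,0),(0,0),(54,0)]⟩,⟨1,[(42,1),(4,0),(11,2)]⟩⟩]⟩) (.R ⟨1,
  false,false,false,[0,0,1],[1,0,0,0,-1],[0,0,0,0,0,0,0,1],(⟨0,[(45,0)]⟩,⟨0,[(44,0)]⟩),(⟨0,[(37,
  0)]⟩,⟨0,[(38,0)]⟩),⟨0,[(34,0)]⟩,.k,.k,.k,.k,(.r (-1) ⟨17,[(12,3),(14,9),(1,11),(0,1),(16,0),(12,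
  12)]⟩ ⟨0,[(0,1),(1,0),(7,0),(1,0),(23,1),(17,0)]⟩),.k,⟨true,0,⟨1,[(8,0),(23,0)]⟩,⟨3,[(0,5),(1,1),
  (7,4),(1,0),(23,5),(17,2)]⟩⟩,⟨false,0,⟨0,[(1,0),(57,0)]⟩,⟨1,[(36,1),(5,1),(4,0),(11,0)]⟩⟩,⟨false,
  1,⟨1,[(35,0),(0,0),(23,0)]⟩,⟨0,[]⟩⟩,⟨true,0,⟨0,[(0,0),(40,0)]⟩,⟨27,[(2,1),(5,9),(6,0),(0,6),(5,0),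
  (13,27),(10,4),(7,9)]⟩⟩,⟨true,0,⟨0,[(58,0)]⟩,⟨0,[(57,0)]⟩⟩,⟨true,0,⟨3,[(0,3),(1,0),(9,1),(12,0),
  (5,1),(9,1)]⟩,⟨0,[(16,0),(19,0)]⟩⟩,[.a ⟨true,0,⟨2,[(0,1),(3,0),(50,0)]⟩,⟨0,[(36,0)]⟩⟩ ⟨true,0,⟨1,
  [(8,0),(23,0)]⟩,⟨0,[(24,0)]⟩⟩ ⟨false,0,⟨0,[(1,0),(57,0)]⟩,⟨1,[(36,1),(5,1),(4,0),(11,0)]⟩⟩,.a
  ⟨true,0,⟨0,[(0,0)]⟩,⟨0,[(36,0),(25,0)]⟩⟩ ⟨false,1,⟨1,[(8,0),(23,0),(26,0),(0,0)]⟩,⟨0,[(19,0)]⟩⟩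
  ⟨true,0,⟨5,[(0,3),(0,1),(16,1),(12,1),(15,0),(12,0)]⟩,⟨9,[(8,1),(3,1),(2,2),(0,0),(5,4),(13,9),
  (10,0),(7,1)]⟩⟩,.o ⟨false,1,⟨1,[(42,1),(4,0),(11,0)]⟩,⟨0,[(21,0)]⟩⟩,.a ⟨true,0,⟨0,[(42,0)]⟩,⟨0,
  [(39,0)]⟩⟩ ⟨false,1,⟨1,[(8,0),(23,0),(26,0),(0,0)]⟩,⟨0,[(24,0)]⟩⟩ ⟨true,0,⟨0,[(1,0),(57,0)]⟩,⟨9,
  [(8,1),(3,1),(2,2),(0,0),(5,4),(13,9),(10,0),(7,1)]⟩⟩]⟩)) (.Q [-1,-1,0,0,1,0,0,0,-1,0,0,-1] (.p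
  false [0,0,0,0,1] [] (⟨0,[(37,0)]⟩,⟨0,[(36,0)]⟩) .k 0 (⟨0,[]⟩,⟨0,[]⟩) .k .k) (.Q [-1,0,0,0,0,0,0,
  0,-1,1,0,-1] (.p false [0,0,0,0,1] [1] (⟨0,[(38,0)]⟩,⟨0,[(37,0)]⟩) .k 1 (⟨0,[]⟩,⟨0,[]⟩) .k .k)
  (.Q [0,0,0,0,0,-1,0,0,0,0,0,1] (.ed false [1,-1,0,0,1] .k) (.Q [0,0,1,0,0,0,0,0,1,-1,0,1] (.p
  true [0,0,0,0,1] [1] (⟨0,[(40,0)]⟩,⟨0,[(39,0)]⟩) .k 1 (⟨0,[]⟩,⟨0,[]⟩) .k .k) (.Q [1,1,0,0,0,0,0,0,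
  1,-1,0,1] (.p true [0,0,0,0,1] [1] (⟨0,[(41,0)]⟩,⟨0,[(40,0)]⟩) .k 1 (⟨0,[]⟩,⟨0,[]⟩) .k .k) (.S ⟨1,
  0,[1,1],[0,0,0,0,1],[],(⟨0,[(42,0)]⟩,⟨0,[(41,0)]⟩),⟨0,[(2,0)]⟩,.k,(.r (-1) ⟨29,[(5,5),(10,7),(14,
  7),(2,6),(1,2),(2,5),(11,1),(12,7)]⟩ ⟨73,[(1,4),(3,4),(0,12),(22,34),(3,6),(2,9),(2,9),(4,14),(19,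
  10)]⟩),⟨false,1,⟨10,[(5,1),(30,1),(2,1),(6,1),(17,6),(1,2)]⟩,⟨0,[]⟩⟩,⟨true,0,⟨0,[(66,0)]⟩,⟨0,[]⟩⟩,
  ⟨true,0,⟨1,[(6,0),(9,0),(38,0),(7,0)]⟩,⟨0,[(61,0)]⟩⟩,⟨false,0,⟨0,[(62,0)]⟩,⟨17,[(1,1),(3,1),(28,
  8),(1,0),(2,3),(11,2),(12,8)]⟩⟩,[.o ⟨false,0,⟨0,[(0,0)]⟩,⟨0,[(4,0)]⟩⟩,.a ⟨true,0,⟨0,[(40,0)]⟩,⟨0,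
  [(3,0)]⟩⟩ ⟨false,1,⟨1,[(63,0),(0,0)]⟩,⟨0,[(66,0)]⟩⟩ ⟨true,0,⟨0,[]⟩,⟨2,[(26,0),(9,0),(9,0)]⟩⟩,.e
  ⟨false,1,⟨3,[(5,0),(30,0),(2,0),(6,0),(17,1)]⟩,⟨0,[]⟩⟩ ⟨false,0,⟨0,[]⟩,⟨3,[(5,0),(30,0),(2,0),(6,
  0),(17,1)]⟩⟩,.o ⟨false,0,⟨0,[(1,0)]⟩,⟨1,[(3,1),(47,0),(11,0)]⟩⟩]⟩) (.S ⟨1,0,[1],[0,0,0,0,1],[1,1],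
  (⟨0,[(42,0)]⟩,⟨0,[(41,0)]⟩),⟨0,[(2,0)]⟩,.k,(.r (-1) ⟨29,[(5,5),(10,7),(14,7),(2,6),(1,2),(2,5),
  (11,1),(12,7)]⟩ ⟨73,[(1,4),(3,4),(0,12),(22,34),(3,6),(2,9),(2,9),(4,14),(19,10)]⟩),⟨true,0,⟨0,
  [(66,0)]⟩,⟨0,[]⟩⟩,⟨false,1,⟨3,[(5,0),(30,0),(2,0),(6,0),(17,1)]⟩,⟨0,[]⟩⟩,⟨false,0,⟨0,[(62,0)]⟩,
  ⟨17,[(1,1),(3,1),(28,8),(1,0),(2,3),(11,2),(12,8)]⟩⟩,⟨true,0,⟨0,[(62,0)]⟩,⟨0,[(61,0)]⟩⟩,[.e ⟨true,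
  0,⟨0,[(66,0)]⟩,⟨0,[(55,0)]⟩⟩ ⟨true,0,⟨0,[]⟩,⟨2,[(26,0),(9,0),(9,0)]⟩⟩,.o ⟨false,1,⟨1,[(1,1),(61,
  0),(0,0)]⟩,⟨20,[(0,18),(5,1),(0,1),(10,4),(0,3),(25,2),(5,7),(7,13)]⟩⟩,.a ⟨true,0,⟨0,[(40,0)]⟩,⟨0,
  [(3,0)]⟩⟩ ⟨false,0,⟨0,[]⟩,⟨3,[(5,0),(30,0),(2,0),(6,0),(17,1)]⟩⟩ ⟨true,0,⟨0,[]⟩,⟨0,[(66,0)]⟩⟩,.o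
  ⟨false,0,⟨0,[(1,0)]⟩,⟨3,[(0,1),(3,1),(46,0),(7,1),(3,0)]⟩⟩]⟩)) (.R ⟨2,true,false,true,[0,1],[0,0,
  0,0,1],[1,0,1],(⟨0,[]⟩,⟨0,[]⟩),(⟨0,[(41,0)]⟩,⟨0,[(40,0)]⟩),⟨0,[]⟩,.k,.k,.k,(.r 0 ⟨91,[(4,14),(0,
  18),(19,0),(2,34),(6,15),(2,14),(4,15),(19,7),(0,12)]⟩ ⟨29,[(4,5),(10,7),(14,7),(2,6),(1,2),(2,5),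
  (11,1),(12,7)]⟩),.k,.k,⟨true,0,⟨0,[(54,0)]⟩,⟨0,[(65,0)]⟩⟩,⟨false,0,⟨0,[(39,0)]⟩,⟨3,[(0,1),(37,1),
  (11,0),(11,0)]⟩⟩,⟨false,1,⟨5,[(4,0),(28,2),(4,0),(7,0),(3,0),(12,2)]⟩,⟨0,[(61,0)]⟩⟩,⟨true,0,⟨0,
  [(39,0),(20,0)]⟩,⟨3,[(0,3),(4,0),(22,0),(21,0),(6,0)]⟩⟩,⟨true,0,⟨0,[]⟩,⟨0,[(65,0)]⟩⟩,⟨false,0,⟨0,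
  [(39,0)]⟩,⟨0,[(3,0)]⟩⟩,[]⟩)) (.Q [-2,0,0,0,0,0,0,0,-2,1,0,-2] (.p false [0,0,0,0,1] [1,0,0,0,-1]
  (⟨0,[(40,0)]⟩,⟨0,[(39,0)]⟩) .k 2 (⟨0,[(39,0)]⟩,⟨0,[(40,0)]⟩) .k (.r 0 ⟨0,[]⟩ ⟨10,[(3,2),(30,2),(2,
  2),(6,2),(17,4),(1,9)]⟩)) (.S ⟨1,0,[-1,1],[1,0,0,0,-1],[-1],(⟨0,[(40,0)]⟩,⟨0,[(41,0)]⟩),⟨1,[(1,0),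
  (18,0),(15,0),(3,0)]⟩,.k,(.r (-1) ⟨21,[(4,1),(10,7),(14,3),(1,3),(0,4),(1,0),(2,1),(11,1),(12,
  7)]⟩ ⟨3,[(4,0),(0,0),(22,0),(6,0),(2,0),(6,0)]⟩),⟨false,1,⟨3,[(4,0),(30,0),(2,0),(6,0),(17,1)]⟩,
  ⟨0,[]⟩⟩,⟨true,0,⟨0,[(65,0)]⟩,⟨0,[]⟩⟩,⟨true,0,⟨0,[(61,0)]⟩,⟨0,[(60,0)]⟩⟩,⟨false,0,⟨0,[(61,0)]⟩,⟨5,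
  [(4,0),(28,2),(4,0),(7,0),(3,0),(12,2)]⟩⟩,[.o ⟨false,0,⟨73,[(0,36),(4,3),(11,8),(0,5),(25,6),(1,
  1),(3,13),(7,25)]⟩,⟨1,[(39,1),(10,0),(12,0)]⟩⟩,.e ⟨false,1,⟨0,[(54,0),(7,0)]⟩,⟨0,[(65,0)]⟩⟩
  ⟨false,1,⟨49,[(4,7),(10,3),(12,3),(6,7),(2,7),(4,7),(18,18),(0,10),(1,9)]⟩,⟨0,[]⟩⟩,.a ⟨true,0,⟨11,
  [(0,3),(6,1),(30,1),(17,2),(5,0)]⟩,⟨0,[(39,0)]⟩⟩ ⟨false,1,⟨10,[(4,1),(30,1),(2,1),(6,1),(17,6),(1,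
  2)]⟩,⟨0,[]⟩⟩ ⟨true,0,⟨0,[(65,0)]⟩,⟨0,[]⟩⟩,.o ⟨false,0,⟨23,[(0,11),(12,0),(0,2),(2,0),(7,4),(20,5),
  (3,2),(8,1)]⟩,⟨6,[(4,1),(16,0),(12,0),(4,4),(10,2),(11,1)]⟩⟩]⟩) (.R ⟨0,false,false,false,[0,0,0,0,
  1],[0,1],[1,1],(⟨0,[(41,0)]⟩,⟨0,[(40,0)]⟩),(⟨0,[(52,0)]⟩,⟨0,[(51,0)]⟩),⟨0,[(1,0)]⟩,.k,.k,(.r (-1)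
  ⟨29,[(4,5),(10,7),(14,7),(2,6),(1,2),(2,5),(11,1),(12,7)]⟩ ⟨67,[(0,0),(3,9),(0,13),(22,25),(6,10),
  (2,11),(4,11),(19,5),(0,9)]⟩),(.r (-1) ⟨29,[(4,5),(10,7),(14,7),(2,6),(1,2),(2,5),(11,1),(12,7)]⟩
  ⟨67,[(0,0),(3,9),(0,13),(22,25),(6,10),(2,11),(4,11),(19,5),(0,9)]⟩),.k,.k,⟨false,1,⟨27,[(4,3),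
  (10,13),(14,11),(2,0),(1,2),(2,3),(4,1),(18,5)]⟩,⟨3,[(5,0),(22,0),(34,1)]⟩⟩,⟨true,1,⟨1,[(2,1),(47,
  0),(11,0)]⟩,⟨1,[(0,0),(13,1),(18,0)]⟩⟩,⟨true,0,⟨0,[(65,0)]⟩,⟨0,[]⟩⟩,⟨false,1,⟨0,[(3,0),(57,0)]⟩,
  ⟨1,[(0,0),(32,0)]⟩⟩,⟨false,0,⟨0,[]⟩,⟨0,[]⟩⟩,⟨false,0,⟨0,[]⟩,⟨0,[]⟩⟩,[.a ⟨true,0,⟨0,[(61,0)]⟩,⟨75,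
  [(15,5),(17,34),(1,8),(7,5),(1,11),(3,7),(1,7),(4,11),(6,5)]⟩⟩ ⟨true,0,⟨0,[(65,0)]⟩,⟨0,[(54,0)]⟩⟩
  ⟨false,1,⟨3,[(2,1),(0,1),(1,1),(9,1),(34,0),(11,2)]⟩,⟨19,[(0,9),(8,0),(3,1),(6,1),(0,1),(11,6),(2,
  1),(12,5),(4,1)]⟩⟩,.o ⟨false,1,⟨1,[(50,0),(10,1),(1,0)]⟩,⟨0,[(60,0)]⟩⟩,.e ⟨false,0,⟨0,[]⟩,⟨3,[(4,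
  0),(30,0),(2,0),(6,0),(17,1)]⟩⟩ ⟨false,1,⟨0,[(3,0),(57,0)]⟩,⟨19,[(0,9),(8,0),(3,1),(6,1),(0,1),
  (11,6),(2,1),(12,5),(4,1)]⟩⟩,.o ⟨false,0,⟨15,[(0,7),(12,0),(0,2),(2,0),(7,0),(20,1),(7,1),(2,2),
  (6,3)]⟩,⟨1,[(2,1),(47,0),(11,0)]⟩⟩]⟩))) (.R ⟨1,false,false,true,[0,0,1],[0,0,0,0,1],[1,1,0,-1,0,0,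
  0,1],(⟨0,[(46,0)]⟩,⟨0,[(45,0)]⟩),(⟨0,[(39,0)]⟩,⟨0,[(38,0)]⟩),⟨0,[(35,0)]⟩,.k,.k,.k,.k,(.r (-1)
  ⟨21,[(2,5),(4,0),(20,15),(1,1),(0,1),(1,4),(2,5),(4,1),(19,9)]⟩ ⟨0,[(26,0)]⟩),.k,⟨true,0,⟨1,[(7,
  0),(25,0)]⟩,⟨0,[(26,0)]⟩⟩,⟨false,0,⟨7,[(0,7),(2,1),(9,1),(5,3),(20,3),(19,0),(0,0)]⟩,⟨1,[(1,0),(3,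
  0),(3,0),(3,0),(12,0)]⟩⟩,⟨true,0,⟨0,[(58,0)]⟩,⟨0,[(59,0)]⟩⟩,⟨false,0,⟨0,[(0,0),(18,0),(6,0)]⟩,⟨0,
  [(1,0),(27,0)]⟩⟩,⟨false,0,⟨0,[]⟩,⟨3,[(2,0),(30,0),(2,0),(6,0),(17,1)]⟩⟩,⟨false,0,⟨0,[(0,0),(25,0),
  (13,0)]⟩,⟨2,[(1,2),(6,0),(20,0),(1,0)]⟩⟩,[.o ⟨false,0,⟨5,[(0,4),(22,0),(13,0),(6,0),(11,2)]⟩,⟨0,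
  [(1,0)]⟩⟩,.o ⟨false,0,⟨0,[(0,0)]⟩,⟨2,[(1,0),(34,1),(26,0)]⟩⟩,.o ⟨false,1,⟨10,[(1,1),(0,3),(6,1),
  (3,1),(9,2),(2,1),(9,1),(11,0)]⟩,⟨0,[(22,0)]⟩⟩,.a ⟨true,0,⟨0,[(43,0)]⟩,⟨0,[(40,0)]⟩⟩ ⟨true,0,⟨0,
  [(28,0)]⟩,⟨0,[(26,0)]⟩⟩ ⟨false,0,⟨0,[(0,0),(39,0)]⟩,⟨0,[(1,0),(41,0)]⟩⟩]⟩)) (.K ⟨0,[0,0,0,0,1],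
  (-1),(-1),(⟨0,[(38,0)]⟩,⟨0,[(37,0)]⟩),.k,(.r (-1) ⟨29,[(1,5),(10,7),(14,7),(2,6),(1,2),(2,5),(11,
  1),(12,7)]⟩ ⟨91,[(1,14),(0,18),(19,0),(2,34),(6,15),(2,14),(4,15),(19,7),(0,12)]⟩),(.r 0 ⟨3,[(1,
  0),(0,0),(22,0),(6,0),(2,0),(6,0)]⟩ ⟨21,[(1,1),(10,7),(14,3),(1,3),(0,4),(1,0),(2,1),(11,1),(12,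
  7)]⟩),.k,.k,[⟨0,[(3,0),(4,0),(11,0),(4,0)]⟩,⟨0,[(0,0),(50,0)]⟩,⟨0,[(35,0),(26,0)]⟩,⟨0,[(0,
  0)]⟩]⟩))))) (.Q [1,0,0,0,-1,0,0,0,1,0,0,1] (.p true [0,0,0,0,1] [] (⟨0,[(34,0)]⟩,⟨0,[(33,0)]⟩) .k
  0 (⟨0,[]⟩,⟨0,[]⟩) .k .k) (.R ⟨2,true,false,false,[0,1],[0,0,0,0,1],[1,1,1],(⟨0,[]⟩,⟨0,[]⟩),(⟨0,
  [(35,0)]⟩,⟨0,[(34,0)]⟩),⟨0,[]⟩,.k,.k,.k,(.r 0 ⟨3,[(10,0),(11,1),(3,0),(5,0),(0,0)]⟩ ⟨8,[(9,3),(14,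
  0),(1,2),(0,1),(16,0),(12,3)]⟩),.k,.k,⟨false,0,⟨0,[(59,0)]⟩,⟨1,[(56,0),(0,0)]⟩⟩,⟨true,(-1),⟨9,[(0,
  7),(7,1),(10,0),(7,0),(5,1),(6,0),(17,2)]⟩,⟨0,[(32,0)]⟩⟩,⟨true,0,⟨0,[(54,0)]⟩,⟨0,[(55,0)]⟩⟩,
  ⟨false,0,⟨3,[(0,2),(26,1),(5,0),(10,0),(12,1)]⟩,⟨0,[(32,0),(22,0)]⟩⟩,⟨false,0,⟨0,[]⟩,⟨1,[(32,0),
  (0,0),(23,0)]⟩⟩,⟨true,(-1),⟨0,[(0,0)]⟩,⟨0,[(32,0),(26,0)]⟩⟩,[]⟩) (.R ⟨1,false,false,false,[0,0,1],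
  [0,0,0,0,1],[1,1,0,-1,0,0,0,1],(⟨0,[(42,0)]⟩,⟨0,[(41,0)]⟩),(⟨0,[(35,0)]⟩,⟨0,[(34,0)]⟩),⟨0,[(31,
  0)]⟩,.k,.k,.k,.k,(.r (-1) ⟨17,[(9,3),(14,9),(1,11),(0,1),(16,0),(12,12)]⟩ ⟨0,[(22,0)]⟩),.k,⟨false,
  0,⟨0,[(24,0)]⟩,⟨1,[(22,1),(33,0),(0,0)]⟩⟩,⟨true,(-1),⟨0,[(1,0),(6,0),(6,0)]⟩,⟨0,[(32,0),(6,0)]⟩⟩,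
  ⟨true,0,⟨0,[(54,0)]⟩,⟨0,[(55,0)]⟩⟩,⟨false,0,⟨0,[(1,0),(10,0),(2,0),(41,0)]⟩,⟨0,[(0,0),(24,0)]⟩⟩,
  ⟨false,0,⟨0,[]⟩,⟨1,[(32,0),(0,0),(23,0)]⟩⟩,⟨false,0,⟨2,[(1,2),(8,0),(4,2),(6,3),(34,0)]⟩,⟨2,[(0,
  2),(3,0),(20,0),(1,0)]⟩⟩,[.o ⟨false,0,⟨3,[(1,2),(17,0),(13,0),(6,0)]⟩,⟨0,[(0,0)]⟩⟩,.o ⟨false,0,⟨0,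
  [(1,0),(51,0)]⟩,⟨0,[(32,0),(26,0)]⟩⟩,.o ⟨false,1,⟨1,[(39,1),(4,0),(11,0)]⟩,⟨0,[(18,0)]⟩⟩,.a ⟨true,
  0,⟨0,[(39,0)]⟩,⟨0,[(36,0)]⟩⟩ ⟨true,0,⟨0,[(24,0)]⟩,⟨0,[(22,0)]⟩⟩ ⟨false,0,⟨2,[(1,2),(8,0),(4,2),(6,
  0),(34,0)]⟩,⟨0,[(0,0),(38,0)]⟩⟩]⟩))) (.S ⟨1,0,[1],[0,0,0,0,1],[1,1],(⟨0,[(33,0)]⟩,⟨0,[(32,0)]⟩),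
  ⟨8,[(0,5),(0,0),(3,1),(0,11),(5,5),(0,7),(17,5),(1,2),(13,6),(3,1)]⟩,.k,(.r (-1) ⟨8,[(7,3),(14,0),
  (1,2),(0,1),(16,0),(12,3)]⟩ ⟨3,[(8,0),(11,1),(3,0),(5,0),(0,0)]⟩),⟨true,0,⟨0,[(57,0)]⟩,⟨0,[]⟩⟩,
  ⟨false,1,⟨1,[(30,0),(0,0),(23,0)]⟩,⟨0,[]⟩⟩,⟨false,0,⟨0,[(53,0)]⟩,⟨3,[(25,1),(4,0),(0,0),(10,0),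
  (12,1)]⟩⟩,⟨true,0,⟨0,[(53,0)]⟩,⟨0,[(52,0)]⟩⟩,[.e ⟨true,0,⟨0,[(57,0)]⟩,⟨0,[(46,0)]⟩⟩ ⟨true,0,⟨0,
  []⟩,⟨2,[(17,0),(9,0),(9,0)]⟩⟩,.o ⟨false,1,⟨1,[(31,1),(10,0),(12,0)]⟩,⟨47,[(0,38),(3,19),(0,33),(0,
  54),(2,13),(2,38),(0,52),(16,8),(1,38),(8,8),(5,61),(1,7)]⟩⟩,.a ⟨true,0,⟨0,[(31,0)]⟩,⟨111,[(0,77),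
  (0,12),(3,25),(0,155),(5,77),(0,103),(16,33),(1,77),(8,14),(4,25),(0,124),(0,33)]⟩⟩ ⟨false,0,⟨0,
  []⟩,⟨1,[(30,0),(0,0),(23,0)]⟩⟩ ⟨true,0,⟨0,[]⟩,⟨0,[(57,0)]⟩⟩,.e ⟨false,1,⟨1,[(30,0),(0,0),(22,0)]⟩,
  ⟨0,[(46,0)]⟩⟩ ⟨false,1,⟨1,[(54,0),(0,0)]⟩,⟨2,[(17,0),(9,0),(9,0)]⟩⟩]⟩)))) (.Q [0,0,0,0,0,0,1,1,-1,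
  0,1,-1] (.p true [0,0,1] [0,0,0,0,1] (⟨0,[(37,0)]⟩,⟨0,[(36,0)]⟩) .k 2 (⟨0,[(30,0)]⟩,⟨0,[(29,0)]⟩)
  .k (.r 0 ⟨3,[(5,0),(13,1),(1,0),(30,0)]⟩ ⟨1,[(12,0),(4,0),(9,0),(0,0)]⟩)) (.Q [0,0,0,0,0,-1,0,0,0,
  0,0,1] (.ed false [1,-1,0,0,1] .k) (.S ⟨1,0,[1],[0,0,0,0,1],[1,1],(⟨0,[(32,0)]⟩,⟨0,[(31,0)]⟩),⟨0,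
  [(0,0)]⟩,.k,(.r (-1) ⟨8,[(6,3),(14,0),(1,2),(0,1),(16,0),(12,3)]⟩ ⟨3,[(7,0),(11,1),(3,0),(5,0),(0,
  0)]⟩),⟨true,0,⟨0,[(56,0)]⟩,⟨0,[]⟩⟩,⟨false,1,⟨1,[(29,0),(0,0),(23,0)]⟩,⟨0,[]⟩⟩,⟨false,0,⟨0,[(52,
  0)]⟩,⟨3,[(24,1),(4,0),(0,0),(10,0),(12,1)]⟩⟩,⟨true,0,⟨0,[(52,0)]⟩,⟨0,[(51,0)]⟩⟩,[.e ⟨true,0,⟨0,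
  [(56,0)]⟩,⟨0,[(45,0)]⟩⟩ ⟨true,0,⟨0,[]⟩,⟨2,[(16,0),(9,0),(9,0)]⟩⟩,.o ⟨false,1,⟨1,[(30,1),(10,0),
  (12,0)]⟩,⟨7,[(1,7),(0,3),(0,0),(0,1),(16,0),(26,1),(0,1),(6,0)]⟩⟩,.a ⟨true,0,⟨0,[(30,0)]⟩,⟨4,[(1,
  3),(0,1),(26,0),(10,0),(1,0),(4,0)]⟩⟩ ⟨false,0,⟨0,[]⟩,⟨1,[(29,0),(0,0),(23,0)]⟩⟩ ⟨true,0,⟨0,[]⟩,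
  ⟨0,[(56,0)]⟩⟩,.e ⟨false,1,⟨1,[(29,0),(0,0),(22,0)]⟩,⟨0,[(45,0)]⟩⟩ ⟨false,1,⟨1,[(53,0),(0,0)]⟩,⟨2,
  [(16,0),(9,0),(9,0)]⟩⟩]⟩) (.S ⟨1,0,[-1,1],[1,0,0,0,-1],[-1],(⟨0,[(31,0)]⟩,⟨0,[(32,0)]⟩),⟨1,[(0,0),
  (10,0),(15,0),(3,0)]⟩,.k,(.r (-1) ⟨8,[(6,3),(14,0),(1,2),(0,1),(16,0),(12,3)]⟩ ⟨15,[(7,3),(11,7),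
  (6,1),(2,2),(0,2),(3,3),(6,0)]⟩),⟨false,1,⟨1,[(29,0),(0,0),(23,0)]⟩,⟨0,[]⟩⟩,⟨true,0,⟨0,[(56,0)]⟩,
  ⟨0,[]⟩⟩,⟨true,0,⟨0,[(52,0)]⟩,⟨0,[(51,0)]⟩⟩,⟨false,0,⟨0,[(52,0)]⟩,⟨3,[(24,1),(4,0),(0,0),(10,0),
  (12,1)]⟩⟩,[.o ⟨false,0,⟨7,[(1,7),(0,3),(0,0),(0,1),(16,0),(26,1),(0,1),(6,0)]⟩,⟨1,[(30,1),(10,0),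
  (12,0)]⟩⟩,.e ⟨false,1,⟨0,[(45,0),(7,0)]⟩,⟨0,[(56,0)]⟩⟩ ⟨false,1,⟨9,[(29,3),(0,3),(22,4),(0,0),(1,
  1)]⟩,⟨0,[]⟩⟩,.a ⟨true,0,⟨4,[(1,3),(0,1),(26,0),(10,0),(1,0),(4,0)]⟩,⟨0,[(30,0)]⟩⟩ ⟨false,1,⟨4,
  [(29,1),(0,1),(23,2),(1,0)]⟩,⟨0,[]⟩⟩ ⟨true,0,⟨0,[(56,0)]⟩,⟨0,[]⟩⟩,.o ⟨false,0,⟨16,[(1,16),(0,8),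
  (2,1),(2,0),(7,3),(20,3),(3,1),(8,0)]⟩,⟨1,[(30,1),(10,0),(11,0)]⟩⟩]⟩)) (.Q [0,0,-1,-1,1,0,2,1,0,
  -1,2] (.p true [0,0,1] [1,0,-1] (⟨0,[(38,0)]⟩,⟨0,[(37,0)]⟩) .k 2 (⟨0,[(37,0)]⟩,⟨0,[(38,0)]⟩) .k
  (.r 0 ⟨1,[(6,0),(13,1),(1,0),(30,0)]⟩ ⟨0,[(13,0),(4,0)]⟩)) (.R ⟨0,false,false,true,[1,-1,-1],[0,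
  -1,1],[],(⟨0,[(27,0)]⟩,⟨45,[(6,1),(12,1),(6,2),(7,3),(1,1),(2,45),(0,6),(5,12),(0,4),(6,2)]⟩),(⟨0,
  [(28,0)]⟩,⟨45,[(6,1),(12,1),(6,2),(7,3),(1,1),(1,45),(1,6),(5,12),(0,4),(6,2)]⟩),⟨2,[(11,1),(27,
  0),(0,0),(5,2)]⟩,.k,.k,(.r (-2) ⟨1,[(0,0),(13,2),(11,0)]⟩ ⟨19,[(3,6),(3,7),(11,2),(6,3),(7,7),(6,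
  1)]⟩),.k,.k,.k,⟨false,1,⟨1,[(19,1),(33,0),(0,0)]⟩,⟨0,[(21,0)]⟩⟩,⟨true,1,⟨0,[(0,0),(18,0)]⟩,⟨7,[(2,
  4),(0,1),(3,3),(0,3),(3,5),(2,1),(10,0)]⟩⟩,⟨false,0,⟨1,[(7,0),(15,0),(30,0)]⟩,⟨0,[(14,0)]⟩⟩,⟨true,
  0,⟨18,[(0,14),(2,7),(6,1),(10,6),(12,5),(6,0),(7,1)]⟩,⟨0,[(2,0)]⟩⟩,⟨false,0,⟨0,[]⟩,⟨0,[]⟩⟩,⟨false,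
  0,⟨0,[]⟩,⟨0,[]⟩⟩,[.o ⟨false,0,⟨0,[(10,0)]⟩,⟨5,[(2,0),(16,3),(5,1),(0,0),(14,0),(11,1),(0,2)]⟩⟩,.a
  ⟨true,0,⟨0,[(20,0)]⟩,⟨3,[(2,0),(16,1),(6,0),(20,0),(4,1),(0,0)]⟩⟩ ⟨false,1,⟨1,[(53,0),(0,0)]⟩,⟨0,
  [(56,0)]⟩⟩ ⟨true,1,⟨0,[(0,0)]⟩,⟨1,[(2,0),(2,1),(20,0)]⟩⟩,.e ⟨false,1,⟨1,[(29,0),(0,0),(23,0)]⟩,⟨0,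
  []⟩⟩ ⟨false,1,⟨0,[(0,0)]⟩,⟨5,[(2,2),(4,1),(11,1),(6,2),(27,1)]⟩⟩,.o ⟨false,(-1),⟨0,[(2,0),(4,0),
  (0,0)]⟩,⟨3,[(0,1),(18,1),(9,0),(0,0),(10,0),(11,3)]⟩⟩]⟩) (.Q [0,0,0,0,0,1,0,0,0,-1,0,1] (.ed
  false [0,1,0,0,1] .k) (.Q [-1,-1,0,0,1,0,0,0,-1,0,0,-1] (.p false [0,0,0,0,1] [] (⟨0,[(33,0)]⟩,⟨0,
  [(32,0)]⟩) .k 0 (⟨0,[]⟩,⟨0,[]⟩) .k .k) (.I [2,0,-3,-3,2,0,0,-1] (.N [0,3,1,0,-1] 2 ⟨0,[(6,0)]⟩ ⟨0,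
  [(0,0)]⟩ (.x (-3) ⟨1,[(1,1),(0,1),(6,1),(4,1),(10,1),(4,3),(13,0),(10,1),(0,0)]⟩ ⟨4,[(3,2),(0,4),
  (1,1),(1,2),(5,4),(5,5),(13,4),(8,0),(5,7)]⟩)) (.Q [0,0,0,0,1,0,2,0,0,-1,2] (.p true [0,0,1] [1,0,
  -1] (⟨0,[(42,0)]⟩,⟨0,[(41,0)]⟩) .k 2 (⟨0,[(41,0)]⟩,⟨0,[(42,0)]⟩) .k (.r 0 ⟨1,[(10,0),(13,1),(1,0),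
  (30,0)]⟩ ⟨0,[(17,0),(4,0)]⟩)) (.R ⟨0,false,false,false,[1,-1,-1],[0,-1,1],[0,0,1],(⟨0,[(31,0)]⟩,
  ⟨22,[(0,2),(29,2),(12,22),(0,4),(5,5),(0,2)]⟩),(⟨0,[(32,0)]⟩,⟨22,[(0,2),(29,2),(11,22),(1,4),(5,
  5),(0,2)]⟩),⟨2,[(15,1),(27,0),(0,0),(5,2)]⟩,.k,.k,(.r (-2) ⟨3,[(0,0),(9,3),(17,1),(1,0),(14,0),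
  (12,1)]⟩ ⟨3,[(0,0),(0,1),(9,0),(15,0),(2,0)]⟩),.k,.k,.k,⟨false,0,⟨0,[(23,0)]⟩,⟨1,[(25,1),(31,0),
  (0,0)]⟩⟩,⟨true,1,⟨0,[(0,0)]⟩,⟨3,[(4,2),(6,0),(0,0),(3,0),(2,0),(1,0),(8,0)]⟩⟩,⟨true,(-1),⟨6,[(1,
  2),(9,0),(8,0),(0,1),(5,0),(2,0),(10,0)]⟩,⟨0,[(10,0)]⟩⟩,⟨false,1,⟨1,[(26,3),(18,0),(12,0)]⟩,⟨0,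
  [(6,0)]⟩⟩,⟨false,0,⟨0,[]⟩,⟨0,[]⟩⟩,⟨false,0,⟨0,[]⟩,⟨0,[]⟩⟩,[.a ⟨true,0,⟨0,[(24,0)]⟩,⟨3,[(6,0),(16,
  1),(6,0),(20,0),(4,1),(0,0)]⟩⟩ ⟨true,0,⟨2,[(20,0),(9,0),(9,0)]⟩,⟨0,[]⟩⟩ ⟨false,2,⟨1,[(0,1),(24,1),
  (31,0),(0,0)]⟩,⟨0,[(4,0)]⟩⟩,.o ⟨false,1,⟨1,[(21,0),(4,0),(18,0),(12,0)]⟩,⟨11,[(1,2),(4,3),(3,3),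
  (12,2),(5,3),(15,1),(7,3)]⟩⟩,.e ⟨false,0,⟨0,[(49,0)]⟩,⟨1,[(0,0),(29,0),(26,0)]⟩⟩ ⟨false,2,⟨0,[(0,
  0),(24,0),(32,0)]⟩,⟨0,[(4,0)]⟩⟩,.o ⟨false,(-1),⟨23,[(4,19),(6,4),(0,14),(7,2),(20,1),(3,0),(8,
  9)]⟩,⟨3,[(0,2),(29,0),(14,0),(11,3)]⟩⟩]⟩) (.Q [-1,0,0,0,0,0,0,0,-1,1,0,-1] (.p false [0,0,0,0,1]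
  [1] (⟨0,[(36,0)]⟩,⟨0,[(35,0)]⟩) .k 1 (⟨0,[]⟩,⟨0,[]⟩) .k .k) (.S ⟨1,0,[1,1],[0,0,0,0,1],[],(⟨0,
  [(37,0)]⟩,⟨0,[(36,0)]⟩),⟨1,[(4,0),(11,0),(15,0),(4,0)]⟩,.k,(.r (-1) ⟨8,[(11,3),(14,0),(1,2),(0,1),
  (16,0),(12,3)]⟩ ⟨13,[(2,2),(21,4),(3,1),(5,4),(0,4),(23,0)]⟩),⟨false,1,⟨4,[(34,1),(0,1),(23,2),(1,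
  0)]⟩,⟨0,[]⟩⟩,⟨true,0,⟨0,[(61,0)]⟩,⟨0,[]⟩⟩,⟨true,0,⟨1,[(2,0),(8,0),(38,0),(7,0)]⟩,⟨0,[(56,0)]⟩⟩,
  ⟨false,0,⟨0,[(57,0)]⟩,⟨3,[(29,1),(4,0),(0,0),(10,0),(12,1)]⟩⟩,[.o ⟨false,0,⟨5,[(2,1),(3,3),(4,1),
  (3,3),(19,1),(10,0),(11,0)]⟩,⟨0,[(3,0)]⟩⟩,.a ⟨true,0,⟨0,[(35,0)]⟩,⟨0,[(0,0)]⟩⟩ ⟨false,1,⟨1,[(58,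
  0),(0,0)]⟩,⟨0,[(61,0)]⟩⟩ ⟨true,0,⟨0,[]⟩,⟨2,[(21,0),(9,0),(9,0)]⟩⟩,.e ⟨false,1,⟨1,[(34,0),(0,0),
  (23,0)]⟩,⟨0,[]⟩⟩ ⟨false,0,⟨0,[]⟩,⟨1,[(34,0),(0,0),(23,0)]⟩⟩,.o ⟨false,0,⟨3,[(6,1),(5,0),(0,0),(7,
  0),(13,1),(10,0)]⟩,⟨1,[(0,1),(45,0),(11,0)]⟩⟩]⟩) (.R ⟨1,false,false,true,[0,0,1],[0,0,0,0,1],[1,1,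
  0,-1,0,0,0,1],(⟨0,[(44,0)]⟩,⟨0,[(43,0)]⟩),(⟨0,[(37,0)]⟩,⟨0,[(36,0)]⟩),⟨0,[(33,0)]⟩,.k,.k,.k,.k,
  (.r (-1) ⟨17,[(11,3),(14,9),(1,11),(0,1),(16,0),(12,12)]⟩ ⟨0,[(24,0)]⟩),.k,⟨true,0,⟨23,[(1,0),(10,
  3),(9,11),(3,7),(4,4),(14,2),(12,1)]⟩,⟨0,[(24,0)]⟩⟩,⟨false,0,⟨1,[(0,0),(0,0),(33,0),(22,0)]⟩,⟨1,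
  [(3,1),(7,0),(2,0),(12,1)]⟩⟩,⟨true,0,⟨0,[(56,0)]⟩,⟨0,[(57,0)]⟩⟩,⟨false,0,⟨0,[(6,0)]⟩,⟨0,[(3,0),
  (23,0)]⟩⟩,⟨false,0,⟨0,[]⟩,⟨1,[(34,0),(0,0),(23,0)]⟩⟩,⟨false,0,⟨0,[(6,0),(50,0)]⟩,⟨1,[(3,1),(18,0),
  (4,0)]⟩⟩,[.o ⟨false,0,⟨4,[(0,3),(5,0),(14,0),(6,0),(25,1)]⟩,⟨0,[(3,0)]⟩⟩,.o ⟨false,0,⟨0,[(0,0)]⟩,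
  ⟨2,[(3,0),(30,1),(26,0)]⟩⟩,.o ⟨false,1,⟨1,[(41,1),(4,0),(11,0)]⟩,⟨0,[(20,0)]⟩⟩,.a ⟨true,0,⟨0,[(41,
  0)]⟩,⟨0,[(38,0)]⟩⟩ ⟨true,0,⟨0,[(26,0)]⟩,⟨0,[(24,0)]⟩⟩ ⟨false,0,⟨1,[(0,0),(0,0),(33,0),(22,0)]⟩,⟨0,
  [(3,0),(37,0)]⟩⟩]⟩)))) (.Q [-1,1,0,0,0,0,0,0,-1,1,0,-1] (.p false [0,0,0,0,1] [1] (⟨0,[(34,0)]⟩,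
  ⟨0,[(33,0)]⟩) .k 1 (⟨0,[]⟩,⟨0,[]⟩) .k .k) (.S ⟨1,0,[1],[0,0,0,0,1],[1,1],(⟨0,[(35,0)]⟩,⟨0,[(34,
  0)]⟩),⟨1,[(2,0),(11,0),(15,0),(4,0)]⟩,.k,(.r (-1) ⟨8,[(9,3),(14,0),(1,2),(0,1),(16,0),(12,3)]⟩ ⟨3,
  [(10,0),(11,1),(3,0),(5,0),(0,0)]⟩),⟨true,0,⟨0,[(59,0)]⟩,⟨0,[]⟩⟩,⟨false,1,⟨1,[(32,0),(0,0),(23,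
  0)]⟩,⟨0,[]⟩⟩,⟨false,0,⟨0,[(55,0)]⟩,⟨3,[(27,1),(4,0),(0,0),(10,0),(12,1)]⟩⟩,⟨true,0,⟨0,[(55,0)]⟩,
  ⟨0,[(54,0)]⟩⟩,[.o ⟨false,0,⟨1,[(1,1),(42,0),(12,0)]⟩,⟨3,[(0,1),(31,1),(18,0),(5,0)]⟩⟩,.a ⟨true,0,
  ⟨0,[(1,0),(55,0)]⟩,⟨0,[(0,0)]⟩⟩ ⟨true,0,⟨0,[]⟩,⟨2,[(19,0),(9,0),(9,0)]⟩⟩ ⟨false,1,⟨1,[(56,0),(0,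
  0)]⟩,⟨0,[(59,0)]⟩⟩,.o ⟨false,0,⟨1,[(1,1),(49,0),(5,0)]⟩,⟨0,[(32,0)]⟩⟩,.e ⟨false,1,⟨1,[(32,0),(0,
  0),(22,0)]⟩,⟨0,[(48,0)]⟩⟩ ⟨false,1,⟨1,[(56,0),(0,0)]⟩,⟨2,[(19,0),(9,0),(9,0)]⟩⟩]⟩) (.R ⟨0,false,
  false,true,[1,0,0,0,-1],[1,-1],[1,1],(⟨0,[(34,0)]⟩,⟨0,[(35,0)]⟩),(⟨0,[(45,0)]⟩,⟨0,[(46,0)]⟩),⟨0,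
  [(2,0)]⟩,.k,.k,(.r (-1) ⟨8,[(9,3),(14,0),(1,2),(0,1),(16,0),(12,3)]⟩ ⟨15,[(10,3),(11,7),(6,1),(2,
  2),(0,2),(3,3),(6,0)]⟩),(.r 0 ⟨3,[(10,0),(11,1),(3,0),(5,0),(0,0)]⟩ ⟨8,[(9,3),(14,0),(1,2),(0,1),
  (16,0),(12,3)]⟩),.k,.k,⟨false,0,⟨0,[(55,0)]⟩,⟨8,[(9,3),(14,0),(1,2),(0,1),(16,0),(12,3)]⟩⟩,⟨true,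
  (-1),⟨0,[(1,0),(46,0)]⟩,⟨0,[(32,0)]⟩⟩,⟨false,0,⟨0,[]⟩,⟨4,[(32,1),(0,1),(23,2),(1,0)]⟩⟩,⟨true,(-1),
  ⟨23,[(0,6),(0,16),(1,5),(3,2),(1,2),(1,7),(2,0),(5,3),(9,0),(12,2),(6,3)]⟩,⟨0,[(32,0),(22,0)]⟩⟩,
  ⟨false,0,⟨0,[]⟩,⟨0,[]⟩⟩,⟨false,0,⟨0,[]⟩,⟨0,[]⟩⟩,[.o ⟨false,0,⟨0,[(54,0)]⟩,⟨1,[(44,0),(10,1),(1,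
  0)]⟩⟩,.a ⟨true,0,⟨75,[(9,5),(17,34),(1,8),(7,5),(1,11),(3,7),(1,7),(4,11),(6,5)]⟩,⟨0,[(55,0)]⟩⟩
  ⟨true,0,⟨0,[]⟩,⟨2,[(19,0),(9,0),(9,0)]⟩⟩ ⟨false,0,⟨51,[(0,26),(0,24),(7,1),(4,2),(0,1),(4,1),(6,
  21),(2,2),(12,8),(12,22)]⟩,⟨0,[(32,0),(22,0)]⟩⟩,.o ⟨false,1,⟨0,[(32,0)]⟩,⟨3,[(0,1),(0,0),(31,0),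
  (17,0),(7,0)]⟩⟩,.e ⟨false,1,⟨1,[(32,0),(0,0),(22,0)]⟩,⟨0,[(48,0)]⟩⟩ ⟨false,0,⟨51,[(0,26),(0,24),
  (7,1),(4,2),(0,1),(4,1),(6,21),(2,2),(12,8),(12,22)]⟩,⟨2,[(10,0),(11,0),(9,2),(24,0)]⟩⟩]⟩))) (.Q
  [0,0,0,0,1,0,2,0,0,-1,2] (.p true [0,0,1] [1,0,-1] (⟨0,[(40,0)]⟩,⟨0,[(39,0)]⟩) .k 2 (⟨0,[(39,0)]⟩,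
  ⟨0,[(40,0)]⟩) .k (.r 0 ⟨1,[(8,0),(13,1),(1,0),(30,0)]⟩ ⟨0,[(15,0),(4,0)]⟩)) (.R ⟨0,false,false,
  false,[1,-1,-1],[0,-1,1],[0,0,1],(⟨0,[(29,0)]⟩,⟨45,[(8,1),(12,1),(6,2),(7,3),(1,1),(2,45),(0,6),
  (5,12),(0,4),(6,2)]⟩),(⟨0,[(30,0)]⟩,⟨45,[(8,1),(12,1),(6,2),(7,3),(1,1),(1,45),(1,6),(5,12),(0,4),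
  (6,2)]⟩),⟨2,[(13,1),(27,0),(0,0),(5,2)]⟩,.k,.k,(.r (-2) ⟨5,[(8,3),(7,3),(8,1),(0,1),(16,0),(12,
  2)]⟩ ⟨19,[(5,6),(3,7),(11,2),(6,3),(7,7),(6,1)]⟩),.k,.k,.k,⟨false,0,⟨0,[(21,0)]⟩,⟨1,[(23,1),(31,
  0),(0,0)]⟩⟩,⟨true,1,⟨0,[(0,0)]⟩,⟨3,[(2,2),(6,0),(0,0),(3,0),(2,0),(1,0),(8,0)]⟩⟩,⟨true,(-1),⟨6,
  [(5,2),(3,0),(8,0),(0,1),(5,0),(2,0),(10,0)]⟩,⟨0,[(8,0)]⟩⟩,⟨false,1,⟨1,[(24,3),(18,0),(12,0)]⟩,⟨0,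
  [(4,0)]⟩⟩,⟨false,0,⟨0,[]⟩,⟨0,[]⟩⟩,⟨false,0,⟨0,[]⟩,⟨0,[]⟩⟩,[.a ⟨true,0,⟨0,[(22,0)]⟩,⟨3,[(4,0),(16,
  1),(6,0),(20,0),(4,1),(0,0)]⟩⟩ ⟨true,0,⟨2,[(18,0),(9,0),(9,0)]⟩,⟨0,[]⟩⟩ ⟨false,2,⟨1,[(0,1),(22,1),
  (31,0),(0,0)]⟩,⟨0,[(2,0)]⟩⟩,.o ⟨false,1,⟨1,[(19,0),(4,0),(18,0),(12,0)]⟩,⟨4,[(2,1),(5,0),(12,1),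
  (5,0),(15,0),(7,1),(2,0)]⟩⟩,.e ⟨false,0,⟨0,[(47,0)]⟩,⟨1,[(31,0),(0,0),(22,0)]⟩⟩ ⟨false,2,⟨0,[(0,
  0),(22,0),(32,0)]⟩,⟨0,[(2,0)]⟩⟩,.o ⟨false,(-1),⟨23,[(2,19),(6,4),(0,14),(7,2),(20,1),(3,0),(8,
  9)]⟩,⟨3,[(0,1),(30,0),(0,0),(10,0),(11,3)]⟩⟩]⟩) (.Q [0,0,0,0,0,0,0,0,1,-1,0,1] (.p true [0,0,0,0,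
  1] [1] (⟨0,[(34,0)]⟩,⟨0,[(33,0)]⟩) .k 1 (⟨0,[]⟩,⟨0,[]⟩) .k .k) (.Q [-1,1,0,0,0,0,0,0,-1,1,0,-1]
  (.p false [0,0,0,0,1] [1] (⟨0,[(35,0)]⟩,⟨0,[(34,0)]⟩) .k 1 (⟨0,[]⟩,⟨0,[]⟩) .k .k) (.S ⟨1,0,[-1,1],
  [1,0,0,0,-1],[-1],(⟨0,[(35,0)]⟩,⟨0,[(36,0)]⟩),⟨0,[(3,0)]⟩,.k,(.r (-1) ⟨8,[(10,3),(14,0),(1,2),(0,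
  1),(16,0),(12,3)]⟩ ⟨15,[(11,3),(11,7),(6,1),(2,2),(0,2),(3,3),(6,0)]⟩),⟨false,1,⟨1,[(33,0),(0,0),
  (23,0)]⟩,⟨0,[]⟩⟩,⟨true,0,⟨0,[(60,0)]⟩,⟨0,[]⟩⟩,⟨true,0,⟨0,[(56,0)]⟩,⟨0,[(55,0)]⟩⟩,⟨false,0,⟨0,[(56,
  0)]⟩,⟨3,[(28,1),(4,0),(0,0),(10,0),(12,1)]⟩⟩,[.a ⟨true,0,⟨0,[(0,0)]⟩,⟨1,[(1,1),(49,0),(6,0)]⟩⟩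
  ⟨false,1,⟨9,[(33,3),(0,3),(22,4),(0,0),(1,1)]⟩,⟨0,[]⟩⟩ ⟨true,0,⟨0,[(60,0)]⟩,⟨0,[(54,0)]⟩⟩,.o
  ⟨false,1,⟨3,[(0,1),(32,1),(18,0),(5,0)]⟩,⟨0,[(1,0)]⟩⟩,.o ⟨false,1,⟨0,[(33,0)]⟩,⟨0,[(1,0)]⟩⟩,.e
  ⟨false,1,⟨0,[(49,0),(7,0)]⟩,⟨2,[(20,0),(9,0),(9,0)]⟩⟩ ⟨false,1,⟨9,[(33,3),(0,3),(22,4),(0,0),(1,
  1)]⟩,⟨0,[(54,0)]⟩⟩]⟩) (.Q [1,0,0,0,-1,0,0,0,1,0,0,1] (.p true [0,0,0,0,1] [] (⟨0,[(36,0)]⟩,⟨0,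
  [(35,0)]⟩) .k 0 (⟨0,[]⟩,⟨0,[]⟩) .k .k) (.R ⟨2,true,false,false,[0,1],[0,0,0,0,1],[1,1,1],(⟨0,[]⟩,
  ⟨0,[]⟩),(⟨0,[(37,0)]⟩,⟨0,[(36,0)]⟩),⟨0,[]⟩,.k,.k,.k,(.r 0 ⟨3,[(12,0),(11,1),(3,0),(5,0),(0,0)]⟩
  ⟨8,[(11,3),(14,0),(1,2),(0,1),(16,0),(12,3)]⟩),.k,.k,⟨false,0,⟨0,[(61,0)]⟩,⟨1,[(58,0),(0,0)]⟩⟩,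
  ⟨true,(-1),⟨3,[(0,1),(5,0),(3,1),(11,0),(12,0)]⟩,⟨0,[(34,0)]⟩⟩,⟨true,0,⟨0,[(56,0)]⟩,⟨0,[(57,0)]⟩⟩,
  ⟨false,0,⟨7,[(1,5),(27,3),(5,1),(16,0),(6,0)]⟩,⟨0,[(34,0),(22,0)]⟩⟩,⟨false,0,⟨0,[]⟩,⟨1,[(34,0),(0,
  0),(23,0)]⟩⟩,⟨true,(-1),⟨0,[(0,0)]⟩,⟨0,[(34,0),(26,0)]⟩⟩,[]⟩) (.R ⟨1,false,false,false,[0,0,1],[0,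
  0,0,0,1],[1,1,0,-1,0,0,0,1],(⟨0,[(44,0)]⟩,⟨0,[(43,0)]⟩),(⟨0,[(37,0)]⟩,⟨0,[(36,0)]⟩),⟨0,[(33,0)]⟩,
  .k,.k,.k,.k,(.r (-1) ⟨17,[(11,3),(14,9),(1,11),(0,1),(16,0),(12,12)]⟩ ⟨0,[(24,0)]⟩),.k,⟨false,0,
  ⟨0,[(26,0)]⟩,⟨1,[(24,1),(33,0),(0,0)]⟩⟩,⟨true,(-1),⟨9,[(1,9),(1,4),(4,1),(0,2),(1,0),(4,0),(9,1),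
  (5,0),(12,2),(6,1),(1,1)]⟩,⟨0,[(34,0),(6,0)]⟩⟩,⟨true,0,⟨0,[(56,0)]⟩,⟨0,[(57,0)]⟩⟩,⟨false,0,⟨5,[(1,
  3),(4,1),(0,1),(44,0),(6,0)]⟩,⟨0,[(0,0),(26,0)]⟩⟩,⟨false,0,⟨0,[]⟩,⟨1,[(34,0),(0,0),(23,0)]⟩⟩,
  ⟨false,0,⟨5,[(1,3),(4,1),(0,1),(44,0),(4,5),(1,0)]⟩,⟨1,[(0,1),(21,0),(4,0)]⟩⟩,[.o ⟨false,0,⟨0,[(2,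
  0)]⟩,⟨0,[(0,0)]⟩⟩,.o ⟨false,0,⟨0,[(1,0)]⟩,⟨0,[(34,0),(26,0)]⟩⟩,.o ⟨false,1,⟨1,[(41,1),(4,0),(11,
  0)]⟩,⟨0,[(20,0)]⟩⟩,.a ⟨true,0,⟨0,[(41,0)]⟩,⟨0,[(38,0)]⟩⟩ ⟨true,0,⟨0,[(26,0)]⟩,⟨0,[(24,0)]⟩⟩
  ⟨false,0,⟨0,[(1,0),(36,0)]⟩,⟨0,[(0,0),(40,0)]⟩⟩]⟩))) (.Q [0,0,1,0,0,0,0,0,-1,0,0,-1] (.p false [0,
  0,0,0,1] [] (⟨0,[(35,0)]⟩,⟨0,[(34,0)]⟩) .k 0 (⟨0,[]⟩,⟨0,[]⟩) .k .k) (.R ⟨1,false,false,true,[1,0,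
  0,0,-1],[1,-1],[-1],(⟨0,[(35,0)]⟩,⟨0,[(36,0)]⟩),(⟨0,[(46,0)]⟩,⟨0,[(47,0)]⟩),⟨0,[(3,0)]⟩,.k,.k,(.r
  (-1) ⟨8,[(10,3),(14,0),(1,2),(0,1),(16,0),(12,3)]⟩ ⟨15,[(11,3),(11,7),(6,1),(2,2),(0,2),(3,3),(6,
  0)]⟩),(.r 0 ⟨3,[(11,0),(11,1),(3,0),(5,0),(0,0)]⟩ ⟨8,[(10,3),(14,0),(1,2),(0,1),(16,0),(12,3)]⟩),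
  .k,.k,⟨true,0,⟨1,[(7,0),(2,0),(38,2),(7,0)]⟩,⟨0,[(55,0)]⟩⟩,⟨false,0,⟨0,[(34,0)]⟩,⟨1,[(1,1),(43,0),
  (11,0)]⟩⟩,⟨false,1,⟨1,[(33,0),(0,0),(23,0)]⟩,⟨0,[]⟩⟩,⟨false,0,⟨1,[(5,0),(15,0),(12,0)]⟩,⟨1,[(1,1),
  (43,0),(10,1),(1,0)]⟩⟩,⟨true,0,⟨0,[(56,0)]⟩,⟨0,[(55,0)]⟩⟩,⟨false,0,⟨0,[(34,0)]⟩,⟨1,[(0,1),(56,0),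
  (0,0)]⟩⟩,[.o ⟨false,0,⟨0,[(55,0)]⟩,⟨1,[(45,0),(10,1),(1,0)]⟩⟩,.a ⟨true,0,⟨75,[(10,5),(17,34),(1,
  8),(7,5),(1,11),(3,7),(1,7),(4,11),(6,5)]⟩,⟨0,[(56,0)]⟩⟩ ⟨false,1,⟨0,[(49,0),(7,0)]⟩,⟨0,[(60,
  0)]⟩⟩ ⟨true,0,⟨1,[(5,0),(15,0),(12,0)]⟩,⟨0,[(0,0),(55,0)]⟩⟩,.e ⟨false,1,⟨4,[(33,1),(0,1),(23,2),
  (1,0)]⟩,⟨0,[]⟩⟩ ⟨false,0,⟨1,[(5,0),(15,0),(12,0)]⟩,⟨1,[(1,1),(43,0),(10,1),(1,0)]⟩⟩,.o ⟨false,0,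
  ⟨0,[(0,0)]⟩,⟨1,[(34,1),(10,0),(11,0)]⟩⟩]⟩) (.R ⟨1,false,false,true,[1,0,0,0,-1],[1,-1],[0,1,0,-1],
  (⟨0,[(35,0)]⟩,⟨0,[(36,0)]⟩),(⟨0,[(46,0)]⟩,⟨0,[(47,0)]⟩),⟨0,[(3,0)]⟩,.k,.k,(.r (-1) ⟨8,[(10,3),(14,
  0),(1,2),(0,1),(16,0),(12,3)]⟩ ⟨15,[(11,3),(11,7),(6,1),(2,2),(0,2),(3,3),(6,0)]⟩),(.r 0 ⟨3,[(11,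
  0),(11,1),(3,0),(5,0),(0,0)]⟩ ⟨8,[(10,3),(14,0),(1,2),(0,1),(16,0),(12,3)]⟩),.k,.k,⟨true,0,⟨2,
  [(20,0),(9,0),(9,0)]⟩,⟨0,[]⟩⟩,⟨false,0,⟨0,[(34,0)]⟩,⟨1,[(1,1),(43,0),(11,0)]⟩⟩,⟨true,0,⟨0,[(55,
  0)]⟩,⟨0,[(56,0)]⟩⟩,⟨false,0,⟨1,[(5,0),(15,0),(12,0)]⟩,⟨1,[(1,1),(43,0),(10,1),(1,0)]⟩⟩,⟨false,0,
  ⟨0,[]⟩,⟨1,[(33,0),(0,0),(23,0)]⟩⟩,⟨false,0,⟨0,[(34,0)]⟩,⟨1,[(1,1),(50,0),(5,0)]⟩⟩,[.o ⟨false,0,⟨0,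
  [(55,0)]⟩,⟨1,[(45,0),(10,1),(1,0)]⟩⟩,.a ⟨true,0,⟨75,[(10,5),(17,34),(1,8),(7,5),(1,11),(3,7),(1,
  7),(4,11),(6,5)]⟩,⟨0,[(56,0)]⟩⟩ ⟨false,1,⟨8,[(10,3),(14,0),(1,2),(0,1),(16,0),(12,3)]⟩,⟨0,[(56,
  0)]⟩⟩ ⟨true,0,⟨1,[(5,0),(15,0),(12,0)]⟩,⟨3,[(1,3),(5,0),(15,0),(21,1)]⟩⟩,.a ⟨true,0,⟨0,[(1,0)]⟩,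
  ⟨0,[(34,0)]⟩⟩ ⟨true,0,⟨0,[(55,0)]⟩,⟨0,[(56,0)]⟩⟩ ⟨false,0,⟨1,[(5,0),(15,0),(12,0)]⟩,⟨1,[(1,1),(43,
  0),(10,1),(1,0)]⟩⟩,.a ⟨true,0,⟨2,[(1,2),(18,0),(9,0),(9,0)]⟩,⟨0,[(0,0)]⟩⟩ ⟨false,1,⟨8,[(10,3),(14,
  0),(1,2),(0,1),(16,0),(12,3)]⟩,⟨2,[(11,0),(11,0),(34,0)]⟩⟩ ⟨true,0,⟨7,[(0,4),(4,1),(6,1),(15,1),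
  (5,0),(18,2)]⟩,⟨3,[(1,3),(5,0),(15,0),(21,1)]⟩⟩]⟩)))))))) (.S ⟨1,0,[0,1,-1,-1],[1,-1],[0,0,-1,-1],
  (⟨0,[(39,0)]⟩,⟨0,[(40,0)]⟩),⟨1,[(8,0),(15,0),(14,0)]⟩,.k,(.r (-2) ⟨5,[(0,3),(22,1),(2,0),(0,0),(3,
  3),(6,0),(12,1)]⟩ ⟨1,[(4,0),(1,0),(42,0)]⟩),⟨false,1,⟨1,[(26,0),(0,0),(23,0)]⟩,⟨0,[]⟩⟩,⟨true,0,⟨0,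
  [(53,0)]⟩,⟨0,[]⟩⟩,⟨true,0,⟨0,[(49,0)]⟩,⟨0,[(48,0)]⟩⟩,⟨false,0,⟨0,[(49,0)]⟩,⟨37,[(0,7),(12,11),(0,
  1),(5,5),(0,4),(1,6),(27,21)]⟩⟩,[.o ⟨false,0,⟨0,[(48,0)]⟩,⟨1,[(38,0),(10,1),(1,0)]⟩⟩,.e ⟨true,1,
  ⟨0,[(0,0),(3,0)]⟩,⟨1,[(2,0),(3,0),(13,0)]⟩⟩ ⟨true,1,⟨11,[(0,3),(22,1),(2,0),(0,0),(3,3),(6,0),(12,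
  1)]⟩,⟨0,[(2,0)]⟩⟩,.o ⟨false,0,⟨2,[(13,0),(9,0),(9,0)]⟩,⟨1,[(38,0),(11,0)]⟩⟩,.a ⟨true,(-1),⟨41,[(4,
  17),(1,17),(6,1),(7,26),(1,4),(9,7),(10,5)]⟩,⟨0,[(50,0)]⟩⟩ ⟨false,2,⟨11,[(0,3),(22,1),(2,0),(0,0),
  (3,3),(6,0),(11,5),(0,7)]⟩,⟨0,[(2,0)]⟩⟩ ⟨true,1,⟨2,[(0,0),(19,0),(25,0),(3,0)]⟩,⟨0,[(2,
  0)]⟩⟩]⟩))))))) (.S ⟨1,0,[0,1,-1,-1,0,0,0,1],[0,-1,1],[0,0,-1,-1,0,0,0,1],(⟨0,[(19,0)]⟩,⟨17,[(5,0),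
  (4,0),(6,0),(7,1),(3,17),(1,2),(5,4),(0,1),(6,0)]⟩),⟨0,[(2,0)]⟩,.k,(.r (-1) ⟨12,[(0,7),(4,2),(6,
  6),(1,0),(0,3),(16,1)]⟩ ⟨2,[(7,0),(2,2),(6,0),(9,0),(15,2)]⟩),⟨false,1,⟨1,[(20,0),(0,0),(23,0)]⟩,
  ⟨0,[]⟩⟩,⟨true,0,⟨0,[(47,0)]⟩,⟨0,[]⟩⟩,⟨true,0,⟨0,[(43,0)]⟩,⟨0,[(42,0)]⟩⟩,⟨false,0,⟨0,[(43,0)]⟩,⟨3,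
  [(15,1),(4,0),(0,0),(10,0),(12,1)]⟩⟩,[.o ⟨false,0,⟨0,[(1,0)]⟩,⟨1,[(5,0),(4,0),(5,1),(28,0)]⟩⟩,.e
  ⟨false,1,⟨0,[(0,0)]⟩,⟨0,[(10,0),(36,0)]⟩⟩ ⟨false,1,⟨4,[(0,3),(4,0),(8,1),(25,0)]⟩,⟨0,[(10,0)]⟩⟩,
  .a ⟨true,0,⟨0,[(27,0)]⟩,⟨0,[(24,0)]⟩⟩ ⟨false,1,⟨11,[(0,5),(7,1),(5,3),(0,0),(1,0),(14,0),(12,4)]⟩,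
  ⟨0,[(10,0)]⟩⟩ ⟨true,0,⟨0,[(12,0)]⟩,⟨0,[(10,0)]⟩⟩,.o ⟨false,0,⟨0,[(7,0)]⟩,⟨3,[(3,1),(12,1),(15,0),
  (11,2)]⟩⟩]⟩))))

theorem ok31 : chk K t31 l26 = true := by decide +kernel

noncomputable def t32 : Tre :=
  (.Q [0,0,0,0,0,2,0,0,0,0,-1] (.p false [0,0,1] [] (⟨0,[(27,0)]⟩,⟨0,[(26,0)]⟩) .k 0 (⟨0,[]⟩,⟨0,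
  []⟩) .k .k) (.R ⟨0,false,false,true,[0,-1,1],[1,-1],[],(⟨0,[(17,0)]⟩,⟨33,[(0,14),(2,2),(4,2),(6,
  2),(7,5),(3,18),(1,3),(6,5),(6,2)]⟩),(⟨0,[(31,0)]⟩,⟨0,[(32,0)]⟩),⟨0,[(0,0)]⟩,.k,.k,(.r (-1) ⟨1,
  [(6,1),(15,1),(7,0),(11,0)]⟩ ⟨1,[(1,0),(6,1),(6,0),(9,0),(15,0)]⟩),.k,.k,.k,⟨true,0,⟨3,[(1,1),(12,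
  1),(19,1),(1,0),(6,0)]⟩,⟨0,[(40,0)]⟩⟩,⟨false,0,⟨0,[(22,0)]⟩,⟨1,[(25,1),(4,0),(11,0)]⟩⟩,⟨true,0,⟨0,
  [(8,0)]⟩,⟨0,[(10,0)]⟩⟩,⟨false,0,⟨0,[(7,0),(14,0)]⟩,⟨1,[(11,1),(18,0),(12,0)]⟩⟩,⟨false,0,⟨0,[]⟩,⟨0,
  []⟩⟩,⟨false,0,⟨0,[]⟩,⟨0,[]⟩⟩,[.o ⟨false,0,⟨0,[(40,0)]⟩,⟨1,[(30,0),(10,1),(1,0)]⟩⟩,.e ⟨false,1,⟨1,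
  [(42,0),(0,0)]⟩,⟨0,[(45,0)]⟩⟩ ⟨false,1,⟨1,[(13,0),(1,0),(26,1)]⟩,⟨0,[(1,0)]⟩⟩,.a ⟨true,0,⟨0,[(25,
  0)]⟩,⟨0,[(22,0)]⟩⟩ ⟨false,1,⟨1,[(18,0),(0,0),(23,0)]⟩,⟨0,[]⟩⟩ ⟨true,0,⟨7,[(10,1),(2,2),(1,0),(6,
  3),(1,1),(13,1)]⟩,⟨0,[(1,0)]⟩⟩,.o ⟨false,0,⟨0,[(5,0)]⟩,⟨1,[(22,1),(7,0),(11,0)]⟩⟩]⟩) (.Q [0,0,-1,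
  0,1,0,1,0,0,-1,1] (.p true [0,0,1] [1] (⟨0,[(28,0)]⟩,⟨0,[(27,0)]⟩) .k 1 (⟨0,[]⟩,⟨0,[]⟩) .k .k)
  (.I [0,1,1,1,-1,0,0,1] (.R ⟨1,false,false,true,[1,0,-1],[1,-1],[1,0,0,-1,0,0,0,-1],(⟨0,[(29,0)]⟩,
  ⟨0,[(30,0)]⟩),(⟨0,[(33,0)]⟩,⟨0,[(34,0)]⟩),⟨0,[(18,0)]⟩,.k,.k,.k,.k,.k,.k,⟨false,1,⟨1,[(5,0),(4,0),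
  (34,0)]⟩,⟨1,[(0,0),(11,0),(31,0)]⟩⟩,⟨true,0,⟨0,[(27,0)]⟩,⟨0,[(6,0)]⟩⟩,⟨false,1,⟨3,[(15,1),(4,0),
  (0,0),(10,0),(12,1)]⟩,⟨0,[(43,0)]⟩⟩,⟨false,0,⟨0,[(11,0)]⟩,⟨1,[(5,0),(4,0),(5,1),(28,0)]⟩⟩,⟨true,0,
  ⟨0,[]⟩,⟨0,[(47,0)]⟩⟩,⟨false,0,⟨0,[(13,0)]⟩,⟨0,[(26,0),(18,0)]⟩⟩,[.o ⟨false,0,⟨0,[(42,0)]⟩,⟨1,[(32,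
  0),(10,1),(1,0)]⟩⟩,.a ⟨true,0,⟨57,[(5,5),(9,25),(1,5),(7,5),(1,5),(3,7),(1,7),(4,8),(6,2)]⟩,⟨0,
  [(43,0)]⟩⟩ ⟨true,1,⟨0,[(5,0),(35,0)]⟩,⟨0,[(0,0)]⟩⟩ ⟨false,1,⟨0,[(5,0),(7,0)]⟩,⟨0,[(16,0)]⟩⟩,.o
  ⟨false,0,⟨0,[(6,0)]⟩,⟨2,[(1,1),(5,0),(12,0),(0,0)]⟩⟩,.o ⟨false,0,⟨0,[(28,0)]⟩,⟨0,[(1,0)]⟩⟩]⟩) (.I
  [0,0,0,0,1,0,0,0,-1] (.I [1,0,-1,0,0,1,-1] (.I [0,0,0,0,0,-2,-1] (.I [0,1,0,-2] (.I [0,0,0,-2,0,0,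
  0,1] (.I [0,0,1,1,0,-1,1] (.C [(0,1),(2,1),(2,0),(11,0),(24,1),(0,0)]) (.C [(0,0),(8,0),(14,0)]))
  (.C [(0,0),(10,0),(1,0)])) (.C [(0,0),(11,0),(17,0)])) (.C [(0,0),(4,0),(3,0)])) (.C [(0,0),(3,0),
  (21,0),(12,0)])) (.C [(0,0),(20,0),(2,0)]))) (.I [1,-1,2,1,-1,0,0,1] (.S ⟨1,0,[0,0,0,0,0,0,0,-1],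
  [1,0,-1],[1,1,0,-1,0,0,0,-1],(⟨0,[(29,0)]⟩,⟨0,[(30,0)]⟩),⟨0,[(18,0)]⟩,.k,.k,⟨true,0,⟨0,[(42,0)]⟩,
  ⟨0,[(43,0)]⟩⟩,⟨false,1,⟨1,[(20,0),(0,0),(23,0)]⟩,⟨0,[]⟩⟩,⟨false,0,⟨0,[]⟩,⟨1,[(20,0),(0,0),(23,
  0)]⟩⟩,⟨true,0,⟨0,[(43,0)]⟩,⟨0,[(42,0)]⟩⟩,[.e ⟨false,1,⟨0,[(5,0),(41,0)]⟩,⟨0,[(0,0),(43,0)]⟩⟩
  ⟨false,1,⟨1,[(5,0),(4,0),(33,0)]⟩,⟨5,[(0,1),(11,1),(1,1),(29,0),(0,0)]⟩⟩,.o ⟨false,1,⟨0,[(26,0),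
  (18,0)]⟩,⟨0,[(3,0),(8,0)]⟩⟩,.o ⟨false,0,⟨0,[(6,0)]⟩,⟨1,[(27,1),(4,0),(11,0)]⟩⟩,.a ⟨true,(-1),⟨0,
  [(1,0)]⟩,⟨0,[(27,0),(16,0)]⟩⟩ ⟨false,1,⟨0,[(5,0)]⟩,⟨1,[(0,0),(15,0),(8,0),(19,0)]⟩⟩ ⟨true,1,⟨1,
  [(5,0),(4,0),(33,0)]⟩,⟨0,[(1,0),(1,0),(8,0)]⟩⟩]⟩) (.Q [0,0,0,0,0,0,2,2,0,-1,2] (.p true [0,0,1]
  [1,0,-1] (⟨0,[(30,0)]⟩,⟨0,[(29,0)]⟩) .k 2 (⟨0,[(29,0)]⟩,⟨0,[(30,0)]⟩) .k (.r 0 ⟨2,[(1,1),(10,1),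
  (0,3),(2,1),(15,0),(12,0)]⟩ ⟨0,[(5,0),(4,0)]⟩)) (.Q [0,0,0,1,0,0,-2,-2,0,1,-2] (.p false [0,0,1]
  [1,0,-1] (⟨0,[(31,0)]⟩,⟨0,[(30,0)]⟩) .k 2 (⟨0,[(30,0)]⟩,⟨0,[(31,0)]⟩) .k (.r 0 ⟨0,[(0,0),(17,0)]⟩
  ⟨0,[(6,0),(4,0)]⟩)) (.R ⟨1,true,false,true,[0,0,1],[1,0,-1],[0,0,0,0,0,0,0,1],(⟨0,[(32,0)]⟩,⟨0,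
  [(31,0)]⟩),(⟨0,[(31,0)]⟩,⟨0,[(32,0)]⟩),⟨0,[(21,0)]⟩,.k,.k,.k,.k,(.x (-1) ⟨8,[(1,1),(0,1),(2,3),(1,
  1),(1,0),(19,8),(1,17),(2,3),(4,2),(7,0)]⟩ ⟨0,[(3,0),(0,1),(3,0),(30,0),(6,0)]⟩),.k,⟨true,0,⟨1,
  [(1,1),(1,0),(4,1),(17,0),(20,0)]⟩,⟨0,[(6,0),(4,0)]⟩⟩,⟨false,0,⟨0,[(8,0),(17,0)]⟩,⟨2,[(1,0),(0,1),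
  (2,1),(23,1),(17,0)]⟩⟩,⟨false,1,⟨1,[(22,0),(0,0),(23,0)]⟩,⟨0,[]⟩⟩,⟨true,0,⟨0,[(0,0),(43,0)]⟩,⟨0,
  [(1,0)]⟩⟩,⟨true,0,⟨0,[(45,0)]⟩,⟨0,[(44,0)]⟩⟩,⟨false,0,⟨0,[(0,0)]⟩,⟨3,[(1,1),(8,1),(16,1),(6,0),
  (12,2)]⟩⟩,[]⟩) (.I [1,1,1,1,-1] (.Q [0,0,0,2,0,0,-2,-2,0,1,-2] (.p false [0,0,1] [1,0,-1] (⟨0,
  [(33,0)]⟩,⟨0,[(32,0)]⟩) .k 2 (⟨0,[(32,0)]⟩,⟨0,[(33,0)]⟩) .k (.r 0 ⟨0,[(2,0),(17,0)]⟩ ⟨0,[(8,0),(4,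
  0)]⟩)) (.R ⟨1,true,false,true,[0,0,1],[1,1,-1],[0,0,0,0,0,0,0,1],(⟨0,[(34,0)]⟩,⟨0,[(33,0)]⟩),(⟨13,
  [(0,0),(18,0),(9,1),(3,13),(1,1),(5,3),(0,0),(6,0)]⟩,⟨0,[(23,0)]⟩),⟨0,[(23,0)]⟩,.k,.k,.k,(.r 0 ⟨0,
  [(2,0),(7,0),(17,0)]⟩ ⟨1,[(9,0),(4,2),(9,0),(0,0)]⟩),(.r (-1) ⟨0,[(16,1),(32,0)]⟩ ⟨0,[(14,1)]⟩),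
  .k,⟨false,1,⟨1,[(2,1),(25,3),(7,0),(12,0)]⟩,⟨0,[(8,0),(5,0)]⟩⟩,⟨true,0,⟨0,[(10,0),(17,0)]⟩,⟨1,[(7,
  1),(4,0),(0,0),(17,0)]⟩⟩,⟨false,1,⟨1,[(24,0),(0,0),(23,0)]⟩,⟨0,[]⟩⟩,⟨true,0,⟨0,[(0,0),(45,0)]⟩,⟨0,
  [(2,0)]⟩⟩,⟨true,0,⟨0,[(47,0)]⟩,⟨0,[(46,0)]⟩⟩,⟨false,0,⟨0,[(0,0)]⟩,⟨9,[(2,3),(9,7),(16,3),(6,2),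
  (12,6)]⟩⟩,[]⟩) (.Q [0,0,-2,0,1,0,1,0,0,0,1] (.p true [0,0,1] [] (⟨0,[(34,0)]⟩,⟨0,[(33,0)]⟩) .k 0
  (⟨0,[]⟩,⟨0,[]⟩) .k .k) (.R ⟨0,false,false,false,[1,-1,-1],[1,-1],[0,0,0,-1],(⟨0,[(23,0)]⟩,⟨75,[(0,
  5),(21,8),(9,11),(2,75),(0,12),(5,20),(0,5)]⟩),(⟨0,[(38,0)]⟩,⟨0,[(39,0)]⟩),⟨2,[(7,1),(27,0),(0,0),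
  (5,2)]⟩,.k,.k,(.r (-2) ⟨2,[(10,4),(6,0),(1,0),(30,0)]⟩ ⟨1,[(2,3),(1,0),(17,0),(27,1)]⟩),.k,.k,.k,
  ⟨true,0,⟨2,[(12,0),(9,0),(9,0)]⟩,⟨0,[]⟩⟩,⟨false,1,⟨2,[(0,1),(24,0),(0,0),(5,0)]⟩,⟨0,[(11,0)]⟩⟩,
  ⟨false,0,⟨1,[(4,0),(1,0),(26,0),(16,0)]⟩,⟨3,[(5,1),(9,1),(33,0),(0,0)]⟩⟩,⟨true,0,⟨0,[(18,0)]⟩,⟨0,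
  [(31,0)]⟩⟩,⟨false,0,⟨0,[]⟩,⟨0,[]⟩⟩,⟨false,0,⟨0,[]⟩,⟨0,[]⟩⟩,[.a ⟨true,0,⟨17,[(0,1),(19,8),(1,2),(9,
  3),(3,1),(1,1),(4,1)]⟩,⟨0,[(48,0)]⟩⟩ ⟨false,1,⟨8,[(5,3),(11,0),(1,2),(0,1),(16,0),(12,3)]⟩,⟨0,
  [(48,0)]⟩⟩ ⟨true,1,⟨25,[(0,7),(0,2),(8,13),(9,2),(9,7),(1,3),(17,3)]⟩,⟨2,[(2,1),(3,1),(14,0),(15,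
  0),(8,1)]⟩⟩,.o ⟨false,1,⟨3,[(20,1),(4,0),(0,0),(10,0),(12,1)]⟩,⟨1,[(2,1),(34,0),(11,0)]⟩⟩,.a
  ⟨true,(-1),⟨0,[(6,0)]⟩,⟨2,[(0,1),(24,0),(0,0),(5,0)]⟩⟩ ⟨false,1,⟨3,[(20,1),(4,0),(0,0),(10,0),(12,
  1)]⟩,⟨0,[(48,0)]⟩⟩ ⟨true,1,⟨25,[(0,7),(0,2),(8,13),(9,2),(9,7),(1,3),(17,3)]⟩,⟨0,[(2,0),(8,0)]⟩⟩,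
  .a ⟨true,(-1),⟨2,[(6,2),(5,0),(9,0),(9,0)]⟩,⟨0,[(0,0)]⟩⟩ ⟨true,1,⟨8,[(5,3),(11,0),(1,2),(0,1),(16,
  0),(12,3)]⟩,⟨0,[(2,0)]⟩⟩ ⟨false,2,⟨9,[(0,3),(0,0),(3,5),(14,0),(9,3),(19,9)]⟩,⟨2,[(2,1),(3,1),(14,
  0),(15,0),(8,1)]⟩⟩]⟩) (.I [1,1,0,-1,0,0,0,-1] (.Q [0,0,0,0,0,0,-1,0,-1,1,-1,-1] (.p false [0,0,1]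
  [1,0,0,0,-1] (⟨0,[(36,0)]⟩,⟨0,[(35,0)]⟩) .k 2 (⟨0,[(28,0)]⟩,⟨0,[(29,0)]⟩) .k (.r 0 ⟨1,[(5,0),(17,
  0)]⟩ ⟨9,[(11,4),(4,4),(9,3),(0,3),(23,0),(1,1)]⟩)) (.Q [0,0,0,0,0,1,0,0,0,-1,0,1] (.ed false [0,1,
  0,0,1] .k) (.Q [-1,0,0,-1,0,0,0,0,-1,1,0,-1] (.p false [0,0,0,0,1] [1] (⟨0,[(31,0)]⟩,⟨0,[(30,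
  0)]⟩) .k 1 (⟨0,[]⟩,⟨0,[]⟩) .k .k) (.S ⟨1,0,[1],[0,0,0,0,1],[1,1],(⟨0,[(32,0)]⟩,⟨0,[(31,0)]⟩),⟨1,
  [(1,0),(9,0),(15,0),(4,0)]⟩,.k,(.r (-1) ⟨8,[(9,3),(11,0),(1,2),(0,1),(16,0),(12,3)]⟩ ⟨3,[(6,0),(9,
  0),(2,0),(6,0),(7,0),(17,1),(1,0)]⟩),⟨true,0,⟨0,[(56,0)]⟩,⟨0,[]⟩⟩,⟨false,1,⟨1,[(29,0),(0,0),(23,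
  0)]⟩,⟨0,[]⟩⟩,⟨false,0,⟨0,[(52,0)]⟩,⟨3,[(24,1),(4,0),(0,0),(10,0),(12,1)]⟩⟩,⟨true,0,⟨0,[(52,0)]⟩,
  ⟨0,[(51,0)]⟩⟩,[.e ⟨true,0,⟨0,[(56,0)]⟩,⟨0,[(45,0)]⟩⟩ ⟨true,0,⟨0,[]⟩,⟨2,[(16,0),(9,0),(9,0)]⟩⟩,.o
  ⟨false,1,⟨1,[(30,1),(10,0),(12,0)]⟩,⟨1,[(0,1),(5,1),(34,0),(11,0)]⟩⟩,.a ⟨true,0,⟨0,[(30,0)]⟩,⟨3,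
  [(0,1),(1,1),(9,1),(34,0),(5,0)]⟩⟩ ⟨false,0,⟨0,[]⟩,⟨1,[(29,0),(0,0),(23,0)]⟩⟩ ⟨true,0,⟨0,[]⟩,⟨0,
  [(56,0)]⟩⟩,.e ⟨false,1,⟨1,[(29,0),(0,0),(22,0)]⟩,⟨0,[(45,0)]⟩⟩ ⟨false,1,⟨1,[(53,0),(0,0)]⟩,⟨2,
  [(16,0),(9,0),(9,0)]⟩⟩]⟩) (.Q [-1,-1,0,0,1,0,0,0,-1,0,0,-1] (.p false [0,0,0,0,1] [] (⟨0,[(32,
  0)]⟩,⟨0,[(31,0)]⟩) .k 0 (⟨0,[]⟩,⟨0,[]⟩) .k .k) (.Q [0,0,-1,0,1,0,0,0,-1,0,0,-1] (.p false [0,0,0,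
  0,1] [] (⟨0,[(33,0)]⟩,⟨0,[(32,0)]⟩) .k 0 (⟨0,[]⟩,⟨0,[]⟩) .k .k) (.R ⟨1,false,false,false,[0,0,0,0,
  1],[0,1],[1,1],(⟨0,[(34,0)]⟩,⟨0,[(33,0)]⟩),(⟨0,[(45,0)]⟩,⟨0,[(44,0)]⟩),⟨1,[(3,0),(9,0),(15,0),(4,
  0)]⟩,.k,.k,(.r (-1) ⟨8,[(11,3),(11,0),(1,2),(0,1),(16,0),(12,3)]⟩ ⟨3,[(8,0),(9,0),(2,0),(6,0),(7,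
  0),(17,1),(1,0)]⟩),(.r (-1) ⟨8,[(11,3),(11,0),(1,2),(0,1),(16,0),(12,3)]⟩ ⟨3,[(8,0),(9,0),(2,0),
  (6,0),(7,0),(17,1),(1,0)]⟩),(.r (-2) ⟨8,[(11,7),(11,1),(1,5),(0,3),(16,1),(12,7)]⟩ ⟨6,[(8,5),(5,
  1),(12,1),(19,5),(1,0),(4,3)]⟩),.k,⟨false,1,⟨5,[(11,3),(11,1),(1,1),(29,0),(0,0)]⟩,⟨0,[(8,0),(47,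
  0)]⟩⟩,⟨true,1,⟨0,[(0,0)]⟩,⟨10,[(2,1),(2,2),(0,3),(0,1),(0,4),(11,0),(11,8),(14,7),(1,1)]⟩⟩,⟨true,
  0,⟨0,[(58,0)]⟩,⟨0,[]⟩⟩,⟨false,1,⟨0,[(1,0),(52,0)]⟩,⟨0,[(2,0),(23,0)]⟩⟩,⟨false,0,⟨0,[(54,0)]⟩,⟨3,
  [(26,1),(4,0),(0,0),(10,0),(12,1)]⟩⟩,⟨false,1,⟨0,[(1,0),(52,1)]⟩,⟨1,[(2,1),(4,0),(4,1),(3,1),(9,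
  0)]⟩⟩,[.a ⟨true,0,⟨0,[(54,0)]⟩,⟨75,[(11,5),(14,34),(1,8),(7,5),(1,11),(3,7),(1,7),(4,11),(6,5)]⟩⟩
  ⟨true,0,⟨0,[(58,0)]⟩,⟨0,[(47,0)]⟩⟩ ⟨false,1,⟨0,[(0,0),(53,0)]⟩,⟨5,[(2,3),(4,0),(3,1),(0,1),(13,2),
  (5,1),(14,1)]⟩⟩,.o ⟨false,1,⟨1,[(43,0),(10,1),(1,0)]⟩,⟨0,[(53,0)]⟩⟩,.e ⟨false,0,⟨0,[]⟩,⟨1,[(31,0),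
  (0,0),(23,0)]⟩⟩ ⟨false,1,⟨0,[(1,0),(52,0)]⟩,⟨5,[(2,3),(4,0),(3,1),(0,1),(13,2),(5,1),(14,1)]⟩⟩,.o
  ⟨false,0,⟨17,[(2,3),(2,1),(0,4),(0,0),(10,2),(13,13),(10,2),(3,1),(2,1)]⟩,⟨0,[(0,0)]⟩⟩]⟩) (.S ⟨1,
  0,[1],[0,0,0,0,1],[1,1],(⟨0,[(34,0)]⟩,⟨0,[(33,0)]⟩),⟨1,[(3,0),(9,0),(15,0),(4,0)]⟩,.k,(.r (-1) ⟨8,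
  [(11,3),(11,0),(1,2),(0,1),(16,0),(12,3)]⟩ ⟨3,[(8,0),(9,0),(2,0),(6,0),(7,0),(17,1),(1,0)]⟩),
  ⟨true,0,⟨0,[(58,0)]⟩,⟨0,[]⟩⟩,⟨false,1,⟨1,[(31,0),(0,0),(23,0)]⟩,⟨0,[]⟩⟩,⟨false,0,⟨0,[(54,0)]⟩,⟨3,
  [(26,1),(4,0),(0,0),(10,0),(12,1)]⟩⟩,⟨true,0,⟨0,[(54,0)]⟩,⟨0,[(53,0)]⟩⟩,[.o ⟨false,0,⟨1,[(0,1),
  (42,0),(11,0)]⟩,⟨2,[(1,0),(29,1),(26,0)]⟩⟩,.a ⟨true,0,⟨1,[(0,1),(54,0),(0,0)]⟩,⟨16,[(1,9),(2,6),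
  (2,1),(0,7),(2,3),(26,2),(10,5),(1,2),(6,8)]⟩⟩ ⟨true,0,⟨0,[]⟩,⟨2,[(18,0),(9,0),(9,0)]⟩⟩ ⟨false,1,
  ⟨1,[(55,0),(0,0)]⟩,⟨0,[(58,0)]⟩⟩,.o ⟨false,0,⟨1,[(0,1),(42,0),(11,0)]⟩,⟨0,[(31,0)]⟩⟩,.e ⟨false,1,
  ⟨1,[(31,0),(0,0),(22,0)]⟩,⟨0,[(47,0)]⟩⟩ ⟨false,1,⟨1,[(55,0),(0,0)]⟩,⟨2,[(18,0),(9,0),(9,0)]⟩⟩]⟩))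
  (.K ⟨0,[0,0,0,0,1],(-1),(-1),(⟨0,[(33,0)]⟩,⟨0,[(32,0)]⟩),.k,(.r (-1) ⟨8,[(10,3),(11,0),(1,2),(0,
  1),(16,0),(12,3)]⟩ ⟨3,[(7,0),(9,0),(2,0),(6,0),(7,0),(17,1),(1,0)]⟩),(.r 0 ⟨2,[(7,0),(5,0),(6,0),
  (6,0),(7,0),(19,0)]⟩ ⟨8,[(10,3),(11,0),(1,2),(0,1),(16,0),(12,3)]⟩),.k,.k,[⟨3,[(3,1),(4,0),(1,1),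
  (2,2),(16,1),(6,0),(10,0),(6,0)]⟩,⟨0,[(0,0),(45,0)]⟩,⟨0,[(30,0),(26,0)]⟩,⟨0,[(0,0)]⟩]⟩))) (.Q [-1,
  1,0,0,0,0,0,0,-1,0,0,-1] (.p false [0,0,0,0,1] [] (⟨0,[(31,0)]⟩,⟨0,[(30,0)]⟩) .k 0 (⟨0,[]⟩,⟨0,
  []⟩) .k .k) (.S ⟨1,0,[-1,1],[1,0,0,0,-1],[-1],(⟨0,[(31,0)]⟩,⟨0,[(32,0)]⟩),⟨0,[(1,0)]⟩,.k,(.r (-1)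
  ⟨8,[(9,3),(11,0),(1,2),(0,1),(16,0),(12,3)]⟩ ⟨2,[(6,0),(5,0),(6,0),(6,0),(7,0),(19,0)]⟩),⟨false,1,
  ⟨1,[(29,0),(0,0),(23,0)]⟩,⟨0,[]⟩⟩,⟨true,0,⟨0,[(56,0)]⟩,⟨0,[]⟩⟩,⟨true,0,⟨0,[(52,0)]⟩,⟨0,[(51,0)]⟩⟩,
  ⟨false,0,⟨0,[(52,0)]⟩,⟨3,[(24,1),(4,0),(0,0),(10,0),(12,1)]⟩⟩,[.o ⟨false,0,⟨0,[(0,0)]⟩,⟨1,[(30,1),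
  (10,0),(12,0)]⟩⟩,.e ⟨false,1,⟨0,[(45,0),(7,0)]⟩,⟨0,[(56,0)]⟩⟩ ⟨false,1,⟨9,[(29,3),(0,3),(22,4),(0,
  0),(1,1)]⟩,⟨0,[]⟩⟩,.a ⟨true,0,⟨1,[(0,1),(46,0),(6,0)]⟩,⟨0,[(30,0)]⟩⟩ ⟨false,1,⟨4,[(29,1),(0,1),
  (23,2),(1,0)]⟩,⟨0,[]⟩⟩ ⟨true,0,⟨0,[(56,0)]⟩,⟨0,[]⟩⟩,.o ⟨false,0,⟨0,[(0,0),(49,0)]⟩,⟨1,[(30,1),(10,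
  0),(11,0)]⟩⟩]⟩) (.Q [0,0,0,0,0,0,0,0,-1,1,0,-1] (.p false [0,0,0,0,1] [1] (⟨0,[(32,0)]⟩,⟨0,[(31,
  0)]⟩) .k 1 (⟨0,[]⟩,⟨0,[]⟩) .k .k) (.R ⟨2,true,false,false,[0,1],[0,0,0,0,1],[1,0,1],(⟨0,[]⟩,⟨0,
  []⟩),(⟨0,[(33,0)]⟩,⟨0,[(32,0)]⟩),⟨0,[]⟩,.k,.k,.k,(.r 0 ⟨3,[(7,0),(9,0),(2,0),(6,0),(7,0),(17,1),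
  (1,0)]⟩ ⟨8,[(10,3),(11,0),(1,2),(0,1),(16,0),(12,3)]⟩),.k,.k,⟨true,0,⟨2,[(17,0),(9,0),(9,0)]⟩,⟨0,
  []⟩⟩,⟨false,0,⟨0,[(31,0)]⟩,⟨1,[(0,1),(41,0),(11,0)]⟩⟩,⟨false,1,⟨3,[(25,1),(4,0),(0,0),(10,0),(12,
  1)]⟩,⟨0,[(53,0)]⟩⟩,⟨true,0,⟨21,[(1,9),(2,5),(0,1),(0,0),(15,3),(2,4),(5,11),(10,1)]⟩,⟨1,[(0,1),(6,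
  1),(41,0),(4,0)]⟩⟩,⟨true,0,⟨0,[]⟩,⟨0,[(57,0)]⟩⟩,⟨false,0,⟨0,[(1,0)]⟩,⟨9,[(0,0),(11,0),(15,0),(1,
  8),(10,2),(7,0)]⟩⟩,[]⟩) (.S ⟨1,0,[-1,1],[1,0,0,0,-1],[-1],(⟨0,[(32,0)]⟩,⟨0,[(33,0)]⟩),⟨0,[(2,0)]⟩,
  .k,(.r (-1) ⟨8,[(10,3),(11,0),(1,2),(0,1),(16,0),(12,3)]⟩ ⟨2,[(7,0),(5,0),(6,0),(6,0),(7,0),(19,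
  0)]⟩),⟨false,1,⟨1,[(30,0),(0,0),(23,0)]⟩,⟨0,[]⟩⟩,⟨true,0,⟨0,[(57,0)]⟩,⟨0,[]⟩⟩,⟨true,0,⟨0,[(53,
  0)]⟩,⟨0,[(52,0)]⟩⟩,⟨false,0,⟨0,[(53,0)]⟩,⟨3,[(25,1),(4,0),(0,0),(10,0),(12,1)]⟩⟩,[.a ⟨true,0,⟨86,
  [(3,86),(3,25),(1,19),(0,32),(1,5),(7,6),(7,5),(8,46),(3,17),(6,6),(1,13)]⟩,⟨0,[(1,0)]⟩⟩ ⟨false,1,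
  ⟨9,[(30,3),(0,3),(22,4),(0,0),(1,1)]⟩,⟨0,[]⟩⟩ ⟨true,0,⟨0,[(57,0)]⟩,⟨0,[(51,0)]⟩⟩,.o ⟨false,1,⟨50,
  [(3,5),(2,0),(3,1),(1,4),(0,3),(14,4),(1,44),(10,14),(7,2),(5,0)]⟩,⟨0,[(0,0)]⟩⟩,.o ⟨false,1,⟨0,
  [(30,0)]⟩,⟨0,[(0,0)]⟩⟩,.e ⟨false,1,⟨0,[(46,0),(7,0)]⟩,⟨2,[(17,0),(9,0),(9,0)]⟩⟩ ⟨false,1,⟨9,[(30,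
  3),(0,3),(22,4),(0,0),(1,1)]⟩,⟨0,[(51,0)]⟩⟩]⟩)))) (.Q [-1,1,0,0,0,0,0,0,-1,1,0,-1] (.p false [0,0,
  0,0,1] [1] (⟨0,[(30,0)]⟩,⟨0,[(29,0)]⟩) .k 1 (⟨0,[]⟩,⟨0,[]⟩) .k .k) (.K ⟨0,[1,0,0,0,-1],0,0,(⟨0,
  [(30,0)]⟩,⟨0,[(31,0)]⟩),.k,(.r (-1) ⟨8,[(8,3),(11,0),(1,2),(0,1),(16,0),(12,3)]⟩ ⟨2,[(5,0),(5,0),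
  (6,0),(6,0),(7,0),(19,0)]⟩),(.r 0 ⟨3,[(5,0),(9,0),(2,0),(6,0),(7,0),(17,1),(1,0)]⟩ ⟨8,[(8,3),(11,
  0),(1,2),(0,1),(16,0),(12,3)]⟩),.k,.k,[⟨0,[(1,0)]⟩,⟨0,[(0,0),(48,0)]⟩,⟨3,[(1,2),(1,0),(21,0),(3,
  0),(10,0),(7,1)]⟩,⟨0,[(0,0)]⟩]⟩) (.Q [1,0,0,0,-1,0,0,0,1,0,0,1] (.p true [0,0,0,0,1] [] (⟨0,[(31,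
  0)]⟩,⟨0,[(30,0)]⟩) .k 0 (⟨0,[]⟩,⟨0,[]⟩) .k .k) (.R ⟨2,true,false,false,[0,1],[0,0,0,0,1],[],(⟨0,
  []⟩,⟨0,[]⟩),(⟨0,[(32,0)]⟩,⟨0,[(31,0)]⟩),⟨0,[]⟩,.k,.k,.k,(.r 0 ⟨3,[(6,0),(9,0),(2,0),(6,0),(7,0),
  (17,1),(1,0)]⟩ ⟨8,[(9,3),(11,0),(1,2),(0,1),(16,0),(12,3)]⟩),.k,.k,⟨false,1,⟨9,[(29,3),(0,3),(22,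
  4),(0,0),(1,1)]⟩,⟨0,[]⟩⟩,⟨true,(-1),⟨4,[(0,3),(3,0),(25,0),(5,0),(18,1)]⟩,⟨0,[(29,0)]⟩⟩,⟨true,1,
  ⟨8,[(9,3),(11,0),(1,2),(0,1),(16,0),(12,3)]⟩,⟨0,[(6,0)]⟩⟩,⟨false,0,⟨7,[(1,5),(22,3),(5,1),(16,0),
  (6,0)]⟩,⟨0,[(29,0),(22,0)]⟩⟩,⟨false,1,⟨1,[(53,0),(0,0)]⟩,⟨2,[(16,0),(9,0),(9,0)]⟩⟩,⟨true,(-1),⟨0,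
  [(0,0)]⟩,⟨0,[(29,0),(26,0)]⟩⟩,[]⟩) (.R ⟨1,false,false,true,[0,0,1],[1,0,0,0,-1],[1,1,0,-1,0,0,0,
  1],(⟨0,[(39,0)]⟩,⟨0,[(38,0)]⟩),(⟨0,[(31,0)]⟩,⟨0,[(32,0)]⟩),⟨0,[(28,0)]⟩,.k,.k,.k,.k,(.r (-1) ⟨17,
  [(9,3),(11,9),(1,11),(0,1),(16,0),(12,12)]⟩ ⟨0,[(6,1),(2,0),(35,2),(7,0)]⟩),.k,⟨true,0,⟨1,[(5,0),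
  (20,0)]⟩,⟨0,[(6,1),(2,0),(35,2),(7,0)]⟩⟩,⟨false,1,⟨0,[(29,0),(3,0)]⟩,⟨0,[(2,0)]⟩⟩,⟨true,0,⟨0,[(51,
  0)]⟩,⟨0,[(52,0)]⟩⟩,⟨false,1,⟨1,[(0,0),(9,0),(3,0),(4,0),(9,0),(3,0)]⟩,⟨7,[(1,5),(6,3),(21,1),(16,
  0),(6,0)]⟩⟩,⟨false,0,⟨0,[]⟩,⟨1,[(29,0),(0,0),(23,0)]⟩⟩,⟨false,1,⟨0,[(19,0),(9,0),(3,0)]⟩,⟨7,[(1,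
  5),(3,3),(24,1),(16,0),(6,0)]⟩⟩,[.o ⟨false,1,⟨0,[(29,0),(26,0)]⟩,⟨0,[(1,0)]⟩⟩,.o ⟨false,1,⟨0,[(0,
  0)]⟩,⟨6,[(1,3),(0,0),(1,0),(25,1),(10,0),(7,1)]⟩⟩,.o ⟨false,1,⟨2,[(9,0),(2,0),(21,0),(1,0),(4,0),
  (12,0)]⟩,⟨0,[(15,0)]⟩⟩,.a ⟨true,0,⟨0,[(36,0)]⟩,⟨0,[(33,0)]⟩⟩ ⟨true,0,⟨0,[(21,0)]⟩,⟨0,[(19,0)]⟩⟩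
  ⟨false,1,⟨0,[(0,0),(32,0)]⟩,⟨0,[(1,0),(34,0)]⟩⟩]⟩)))) (.S ⟨1,0,[0,0,0,0,0,0,0,-1],[1,0,-1],[1,1,0,
  -1,0,0,0,-1],(⟨0,[(35,0)]⟩,⟨0,[(36,0)]⟩),⟨0,[(24,0)]⟩,.k,.k,⟨true,0,⟨0,[(48,0)]⟩,⟨0,[(49,0)]⟩⟩,
  ⟨false,1,⟨1,[(26,0),(0,0),(23,0)]⟩,⟨0,[]⟩⟩,⟨false,0,⟨0,[]⟩,⟨1,[(26,0),(0,0),(23,0)]⟩⟩,⟨true,0,⟨0,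
  [(49,0)]⟩,⟨0,[(48,0)]⟩⟩,[.e ⟨false,1,⟨2,[(6,2),(6,0),(9,0),(9,0)]⟩,⟨0,[(0,0)]⟩⟩ ⟨false,1,⟨3,[(6,
  1),(9,1),(33,0),(0,0)]⟩,⟨1,[(5,0),(17,0)]⟩⟩,.o ⟨false,1,⟨0,[(32,0),(18,0)]⟩,⟨6,[(3,1),(0,1),(0,0),
  (25,0),(6,1),(7,1)]⟩⟩,.o ⟨false,0,⟨0,[(12,0)]⟩,⟨2,[(6,0),(2,0),(21,0),(1,0),(4,0),(12,0)]⟩⟩,.a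
  ⟨true,(-1),⟨0,[(7,0)]⟩,⟨0,[(33,0),(16,0)]⟩⟩ ⟨false,1,⟨0,[(11,0)]⟩,⟨2,[(0,2),(12,0),(9,0),(9,0)]⟩⟩
  ⟨true,1,⟨3,[(6,1),(9,1),(33,0),(0,0)]⟩,⟨3,[(1,0),(1,1),(0,0),(2,0),(10,0),(1,0)]⟩⟩]⟩)))) (.S ⟨1,0,
  [0,1,-1,-1],[1,-1],[0,0,-1,-1],(⟨0,[(36,0)]⟩,⟨0,[(37,0)]⟩),⟨1,[(5,0),(15,0),(14,0)]⟩,.k,(.r (-2)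
  ⟨0,[(0,0),(7,0),(8,0)]⟩ ⟨0,[(4,0),(1,0),(39,0)]⟩),⟨false,1,⟨1,[(23,0),(0,0),(23,0)]⟩,⟨0,[]⟩⟩,
  ⟨true,0,⟨0,[(50,0)]⟩,⟨0,[]⟩⟩,⟨true,0,⟨0,[(46,0)]⟩,⟨0,[(45,0)]⟩⟩,⟨false,0,⟨0,[(46,0)]⟩,⟨3,[(18,1),
  (4,0),(0,0),(10,0),(12,1)]⟩⟩,[.o ⟨false,0,⟨0,[(45,0)]⟩,⟨1,[(35,0),(10,1),(1,0)]⟩⟩,.e ⟨true,1,⟨0,
  [(0,0)]⟩,⟨4,[(4,4),(1,3),(3,0),(2,0),(3,0),(25,1)]⟩⟩ ⟨true,1,⟨1,[(0,0),(7,0),(8,0)]⟩,⟨0,[(4,0),(1,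
  0)]⟩⟩,.o ⟨false,0,⟨2,[(10,0),(9,0),(9,0)]⟩,⟨1,[(35,0),(11,0)]⟩⟩,.a ⟨true,(-1),⟨0,[(4,0),(25,0)]⟩,
  ⟨0,[(47,0)]⟩⟩ ⟨false,2,⟨1,[(0,1),(22,0),(0,0),(22,0)]⟩,⟨0,[(4,0),(1,0)]⟩⟩ ⟨true,1,⟨4,[(0,0),(2,2),
  (11,0),(1,1),(29,0)]⟩,⟨0,[(4,0),(1,0)]⟩⟩]⟩))) (.R ⟨0,false,false,false,[1,-1,-1],[0,-1,1],[0,0,1],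
  (⟨0,[(19,0)]⟩,⟨45,[(1,1),(9,1),(6,2),(7,3),(1,1),(2,45),(0,6),(5,12),(0,4),(6,2)]⟩),(⟨0,[(20,0)]⟩,
  ⟨45,[(1,1),(9,1),(6,2),(7,3),(1,1),(1,45),(1,6),(5,12),(0,4),(6,2)]⟩),⟨2,[(3,1),(27,0),(0,0),(5,
  2)]⟩,.k,.k,(.r (-2) ⟨2,[(6,4),(6,0),(1,0),(30,0)]⟩ ⟨0,[(2,0),(1,0),(9,0),(2,0)]⟩),.k,.k,.k,⟨false,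
  0,⟨0,[(11,0)]⟩,⟨1,[(13,1),(31,0),(0,0)]⟩⟩,⟨true,1,⟨5,[(1,3),(2,5),(4,0),(4,2),(13,1),(17,1)]⟩,⟨0,
  [(2,0),(4,0)]⟩⟩,⟨true,(-1),⟨2,[(2,3),(1,1),(9,2),(2,0),(15,0)]⟩,⟨0,[(1,0)]⟩⟩,⟨false,1,⟨1,[(14,3),
  (18,0),(12,0)]⟩,⟨0,[(0,0)]⟩⟩,⟨false,0,⟨0,[]⟩,⟨0,[]⟩⟩,⟨false,0,⟨0,[]⟩,⟨0,[]⟩⟩,[.e ⟨true,0,⟨2,[(8,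
  0),(9,0),(9,0)]⟩,⟨0,[]⟩⟩ ⟨true,1,⟨0,[(4,0),(4,0),(35,0)]⟩,⟨5,[(0,0),(1,6),(8,3),(5,1),(11,0),(3,
  0)]⟩⟩,.o ⟨false,1,⟨1,[(9,0),(4,0),(18,0),(12,0)]⟩,⟨1,[(0,0),(3,0),(12,0),(23,0)]⟩⟩,.a ⟨true,(-1),
  ⟨0,[(2,0)]⟩,⟨0,[(28,0),(16,0)]⟩⟩ ⟨false,0,⟨0,[(37,0)]⟩,⟨1,[(21,0),(0,0),(22,0)]⟩⟩ ⟨true,1,⟨0,[(4,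
  0),(4,0),(35,0)]⟩,⟨1,[(0,0),(1,1),(1,0),(12,0),(23,0)]⟩⟩,.e ⟨false,1,⟨1,[(21,0),(0,0),(23,0)]⟩,⟨0,
  []⟩⟩ ⟨false,2,⟨1,[(4,1),(4,1),(35,2),(0,0)]⟩,⟨5,[(0,0),(1,6),(8,3),(5,1),(11,0),(3,0)]⟩⟩]⟩)))))

theorem ok32 : chk K t32 r26 = true := by decide +kernel

noncomputable def t35 : Tre :=
  (.S ⟨1,0,[0,1,0,0,0,0,0,-1],[1,0,-1],[0,0,1],(⟨0,[(24,0)]⟩,⟨0,[(25,0)]⟩),⟨0,[(13,0)]⟩,.k,.k,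
  ⟨false,0,⟨6,[(0,3),(1,0),(0,1),(5,0),(2,0),(10,0),(16,3)]⟩,⟨0,[(4,0),(34,0)]⟩⟩,⟨true,0,⟨0,[(42,
  0)]⟩,⟨0,[]⟩⟩,⟨true,(-1),⟨0,[(0,0)]⟩,⟨3,[(4,3),(5,1),(16,0),(7,1),(3,2)]⟩⟩,⟨false,0,⟨0,[(38,0)]⟩,
  ⟨3,[(10,1),(4,0),(0,0),(10,0),(12,1)]⟩⟩,[.o ⟨false,0,⟨0,[(21,0)]⟩,⟨1,[(8,1),(18,0),(12,0)]⟩⟩,.a
  ⟨true,0,⟨0,[(4,0),(14,0)]⟩,⟨0,[(8,0)]⟩⟩ ⟨true,0,⟨0,[(31,0)]⟩,⟨0,[(42,0)]⟩⟩ ⟨false,1,⟨0,[(4,0),(34,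
  0)]⟩,⟨2,[(0,0),(6,0),(1,0),(30,0)]⟩⟩,.o ⟨false,0,⟨0,[(1,0)]⟩,⟨1,[(22,1),(4,0),(11,0)]⟩⟩,.e ⟨false,
  1,⟨1,[(15,0),(0,0),(23,0)]⟩,⟨0,[]⟩⟩ ⟨false,1,⟨0,[(4,0),(34,0)]⟩,⟨6,[(0,3),(1,0),(0,1),(5,0),(2,0),
  (10,0),(16,3)]⟩⟩]⟩)

theorem ok35 : chk K t35 r24 = true := by decide +kernel

noncomputable def t37 : Tre :=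
  (.S ⟨1,0,[0,0,0,0,0,0,0,1],[0,0,1],[1,1,0,-1,0,0,0,1],(⟨0,[(24,0)]⟩,⟨0,[(23,0)]⟩),⟨0,[(13,0)]⟩,.k,
  .k,⟨true,0,⟨0,[(36,0)]⟩,⟨0,[(37,0)]⟩⟩,⟨false,1,⟨1,[(14,0),(0,0),(23,0)]⟩,⟨0,[]⟩⟩,⟨false,0,⟨0,[]⟩,
  ⟨1,[(14,0),(0,0),(23,0)]⟩⟩,⟨true,0,⟨0,[(37,0)]⟩,⟨0,[(36,0)]⟩⟩,[.a ⟨true,0,⟨0,[(7,0)]⟩,⟨0,[(3,0),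
  (14,0)]⟩⟩ ⟨false,0,⟨0,[(6,0)]⟩,⟨1,[(4,1),(33,0),(0,0)]⟩⟩ ⟨true,0,⟨1,[(6,0),(0,0),(2,0),(24,0)]⟩,
  ⟨0,[(3,0)]⟩⟩,.o ⟨false,1,⟨1,[(7,1),(18,0),(12,0)]⟩,⟨0,[(20,0)]⟩⟩,.a ⟨true,0,⟨0,[(0,0)]⟩,⟨39,[(4,
  5),(4,2),(1,22),(7,5),(5,1),(1,1),(4,5),(5,2),(0,2)]⟩⟩ ⟨false,0,⟨0,[(6,0),(28,0)]⟩,⟨1,[(4,1),(33,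
  0),(0,0)]⟩⟩ ⟨true,0,⟨1,[(6,0),(0,0),(2,0),(24,0)]⟩,⟨0,[(0,0),(19,0)]⟩⟩,.a ⟨true,0,⟨0,[(21,0)]⟩,⟨0,
  [(18,0)]⟩⟩ ⟨true,0,⟨0,[(6,0)]⟩,⟨0,[(4,0)]⟩⟩ ⟨false,1,⟨3,[(6,1),(0,1),(2,1),(27,0),(0,2)]⟩,⟨0,[(3,
  0)]⟩⟩]⟩)

theorem ok37 : chk K t37 r23 = true := by decide +kernel

noncomputable def t39 : Tre :=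
  (.Q [0,0,-2,-1,0,0,-1,0,0,1,-1] (.p false [0,0,1] [1] (⟨0,[(23,0)]⟩,⟨0,[(22,0)]⟩) .k 1 (⟨0,[]⟩,⟨0,
  []⟩) .k .k) (.Q [0,0,0,0,0,2,0,0,0,0,-1] (.p false [0,0,1] [] (⟨0,[(24,0)]⟩,⟨0,[(23,0)]⟩) .k 0
  (⟨0,[]⟩,⟨0,[]⟩) .k .k) (.R ⟨0,false,false,true,[0,-1,1],[1,-1],[1],(⟨0,[(14,0)]⟩,⟨37,[(0,17),(4,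
  5),(4,2),(1,2),(7,5),(3,19),(1,1),(6,5),(5,2),(0,2)]⟩),(⟨0,[(28,0)]⟩,⟨0,[(29,0)]⟩),⟨0,[(0,0)]⟩,.k,
  .k,(.r (-1) ⟨7,[(1,1),(1,1),(3,5),(2,1),(16,1),(11,2),(0,2)]⟩ ⟨0,[(5,0),(5,0),(10,0)]⟩),.k,.k,.k,
  ⟨true,0,⟨0,[(36,0),(1,0)]⟩,⟨0,[(37,0)]⟩⟩,⟨false,0,⟨0,[(19,0)]⟩,⟨1,[(22,1),(4,0),(11,0)]⟩⟩,⟨true,0,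
  ⟨0,[(5,0)]⟩,⟨0,[(7,0)]⟩⟩,⟨false,0,⟨3,[(2,1),(1,1),(0,1),(4,0),(1,0)]⟩,⟨1,[(8,1),(18,0),(12,0)]⟩⟩,
  ⟨false,0,⟨0,[]⟩,⟨0,[]⟩⟩,⟨false,0,⟨0,[]⟩,⟨0,[]⟩⟩,[.o ⟨false,0,⟨0,[(37,0)]⟩,⟨1,[(27,0),(10,1),(1,
  0)]⟩⟩,.e ⟨false,1,⟨1,[(39,0),(0,0)]⟩,⟨0,[(42,0)]⟩⟩ ⟨false,0,⟨0,[(1,0)]⟩,⟨1,[(5,1),(14,1),(6,0),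
  (12,0)]⟩⟩,.a ⟨true,0,⟨0,[(22,0)]⟩,⟨0,[(19,0)]⟩⟩ ⟨true,0,⟨0,[]⟩,⟨0,[(42,0)]⟩⟩ ⟨false,0,⟨3,[(1,1),
  (8,0),(1,0)]⟩,⟨1,[(22,1),(4,0),(10,1),(1,0)]⟩⟩,.e ⟨false,1,⟨1,[(39,0),(0,0)]⟩,⟨1,[(22,0),(0,0)]⟩⟩
  ⟨false,0,⟨0,[(1,0)]⟩,⟨1,[(11,1),(10,3),(4,0),(12,0)]⟩⟩]⟩) (.R ⟨1,false,false,true,[0,-1,1],[1,-1],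
  [0,1,-1,-1,0,0,0,1],(⟨0,[(14,0)]⟩,⟨22,[(15,2),(0,2),(7,22),(1,4),(5,5),(0,2)]⟩),(⟨0,[(28,0)]⟩,⟨0,
  [(29,0)]⟩),⟨0,[(0,0)]⟩,.k,.k,(.r (-1) ⟨7,[(1,1),(1,1),(3,5),(2,1),(16,1),(11,2),(0,2)]⟩ ⟨0,[(5,0),
  (5,0),(10,0)]⟩),.k,.k,.k,⟨true,0,⟨1,[(7,0),(0,0),(2,0),(24,0)]⟩,⟨0,[(4,0)]⟩⟩,⟨false,0,⟨0,[(19,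
  0)]⟩,⟨1,[(22,1),(4,0),(11,0)]⟩⟩,⟨true,0,⟨0,[(42,0)]⟩,⟨0,[]⟩⟩,⟨false,0,⟨3,[(2,1),(1,1),(0,1),(4,0),
  (1,0)]⟩,⟨1,[(8,1),(18,0),(12,0)]⟩⟩,⟨false,0,⟨0,[(38,0)]⟩,⟨3,[(10,1),(4,0),(0,0),(10,0),(12,1)]⟩⟩,
  ⟨false,0,⟨5,[(2,1),(2,5),(6,1),(20,0),(5,0)]⟩,⟨1,[(3,0),(4,0),(18,0),(12,0)]⟩⟩,[.o ⟨false,0,⟨0,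
  [(37,0)]⟩,⟨1,[(27,0),(10,1),(1,0)]⟩⟩,.e ⟨false,1,⟨1,[(7,1),(31,0),(0,0)]⟩,⟨0,[(5,0)]⟩⟩ ⟨false,0,
  ⟨0,[(1,0)]⟩,⟨1,[(5,1),(14,1),(6,0),(12,0)]⟩⟩,.a ⟨true,0,⟨0,[(22,0)]⟩,⟨0,[(19,0)]⟩⟩ ⟨true,0,⟨0,[(7,
  0)]⟩,⟨0,[(5,0)]⟩⟩ ⟨false,0,⟨3,[(1,1),(8,0),(1,0)]⟩,⟨1,[(22,1),(4,0),(10,1),(1,0)]⟩⟩,.e ⟨false,1,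
  ⟨1,[(7,1),(31,0),(0,0)]⟩,⟨0,[(5,0),(30,0)]⟩⟩ ⟨false,0,⟨0,[(1,0)]⟩,⟨1,[(11,1),(10,3),(4,0),(12,
  0)]⟩⟩]⟩)) (.Q [0,0,0,0,0,2,0,0,0,0,-1] (.p false [0,0,1] [] (⟨0,[(24,0)]⟩,⟨0,[(23,0)]⟩) .k 0 (⟨0,
  []⟩,⟨0,[]⟩) .k .k) (.R ⟨0,false,false,true,[0,-1,1],[1,-1],[1],(⟨0,[(14,0)]⟩,⟨37,[(0,17),(4,5),(4,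
  2),(1,2),(7,5),(3,19),(1,1),(6,5),(5,2),(0,2)]⟩),(⟨0,[(28,0)]⟩,⟨0,[(29,0)]⟩),⟨0,[(0,0)]⟩,.k,.k,
  (.r (-1) ⟨2,[(2,0),(0,0),(3,1),(2,0),(16,0),(11,0),(0,0)]⟩ ⟨13,[(1,5),(3,15),(6,3),(7,1),(12,0),
  (4,5),(1,0)]⟩),.k,.k,.k,⟨true,0,⟨0,[(36,0),(1,0)]⟩,⟨0,[(37,0)]⟩⟩,⟨false,0,⟨0,[(19,0)]⟩,⟨1,[(22,1),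
  (4,0),(11,0)]⟩⟩,⟨true,0,⟨0,[(5,0)]⟩,⟨0,[(7,0)]⟩⟩,⟨false,0,⟨3,[(2,1),(1,1),(0,1),(4,0),(1,0)]⟩,⟨1,
  [(8,1),(18,0),(12,0)]⟩⟩,⟨false,0,⟨0,[]⟩,⟨0,[]⟩⟩,⟨false,0,⟨0,[]⟩,⟨0,[]⟩⟩,[.o ⟨false,0,⟨0,[(37,0)]⟩,
  ⟨1,[(27,0),(10,1),(1,0)]⟩⟩,.a ⟨true,0,⟨39,[(5,5),(4,22),(1,2),(7,5),(5,1),(1,1),(4,5),(5,2),(0,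
  2)]⟩,⟨0,[(38,0)]⟩⟩ ⟨false,1,⟨1,[(39,0),(0,0)]⟩,⟨0,[(42,0)]⟩⟩ ⟨true,0,⟨3,[(2,2),(0,0),(6,0),(10,0),
  (1,0),(12,0)]⟩,⟨0,[(1,0)]⟩⟩,.a ⟨true,0,⟨0,[(22,0)]⟩,⟨0,[(19,0)]⟩⟩ ⟨true,0,⟨0,[]⟩,⟨0,[(42,0)]⟩⟩
  ⟨false,0,⟨3,[(2,2),(0,0),(6,0),(10,0),(1,0),(12,0)]⟩,⟨1,[(1,1),(37,0),(0,0)]⟩⟩,.a ⟨true,0,⟨1,[(22,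
  2),(0,0)]⟩,⟨0,[(2,0)]⟩⟩ ⟨false,1,⟨1,[(39,0),(0,0)]⟩,⟨1,[(22,0),(0,0)]⟩⟩ ⟨true,0,⟨0,[(2,0),(34,
  0)]⟩,⟨0,[(1,0)]⟩⟩]⟩) (.R ⟨1,false,false,true,[0,-1,1],[1,-1],[0,1,-1,-1,0,0,0,1],(⟨0,[(14,0)]⟩,
  ⟨22,[(15,2),(0,2),(7,22),(1,4),(5,5),(0,2)]⟩),(⟨0,[(28,0)]⟩,⟨0,[(29,0)]⟩),⟨0,[(0,0)]⟩,.k,.k,(.r
  (-1) ⟨2,[(2,0),(0,0),(3,1),(2,0),(16,0),(11,0),(0,0)]⟩ ⟨13,[(1,5),(3,15),(6,3),(7,1),(12,0),(4,5),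
  (1,0)]⟩),.k,.k,.k,⟨true,0,⟨1,[(7,0),(0,0),(2,0),(24,0)]⟩,⟨0,[(4,0)]⟩⟩,⟨false,0,⟨0,[(19,0)]⟩,⟨1,
  [(22,1),(4,0),(11,0)]⟩⟩,⟨true,0,⟨0,[(42,0)]⟩,⟨0,[]⟩⟩,⟨false,0,⟨3,[(2,1),(1,1),(0,1),(4,0),(1,0)]⟩,
  ⟨1,[(8,1),(18,0),(12,0)]⟩⟩,⟨false,0,⟨0,[(38,0)]⟩,⟨3,[(10,1),(4,0),(0,0),(10,0),(12,1)]⟩⟩,⟨false,0,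
  ⟨5,[(2,1),(2,5),(6,1),(20,0),(5,0)]⟩,⟨1,[(3,0),(4,0),(18,0),(12,0)]⟩⟩,[.o ⟨false,0,⟨0,[(37,0)]⟩,
  ⟨1,[(27,0),(10,1),(1,0)]⟩⟩,.a ⟨true,0,⟨39,[(5,5),(4,22),(1,2),(7,5),(5,1),(1,1),(4,5),(5,2),(0,
  2)]⟩,⟨0,[(38,0)]⟩⟩ ⟨false,1,⟨1,[(7,1),(31,0),(0,0)]⟩,⟨0,[(5,0)]⟩⟩ ⟨true,0,⟨3,[(2,2),(0,0),(6,0),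
  (10,0),(1,0),(12,0)]⟩,⟨0,[(1,0)]⟩⟩,.a ⟨true,0,⟨0,[(22,0)]⟩,⟨0,[(19,0)]⟩⟩ ⟨true,0,⟨0,[(7,0)]⟩,⟨0,
  [(5,0)]⟩⟩ ⟨false,0,⟨3,[(2,2),(0,0),(6,0),(10,0),(1,0),(12,0)]⟩,⟨1,[(1,1),(37,0),(0,0)]⟩⟩,.a ⟨true,
  0,⟨1,[(22,2),(0,0)]⟩,⟨0,[(2,0)]⟩⟩ ⟨false,1,⟨1,[(7,1),(31,0),(0,0)]⟩,⟨0,[(5,0),(30,0)]⟩⟩ ⟨true,0,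
  ⟨0,[(2,0),(34,0)]⟩,⟨0,[(1,0)]⟩⟩]⟩)))

theorem ok39 : chk K t39 r22 = true := by decide +kernel

noncomputable def t42 : Tre :=
  (.S ⟨1,0,[0,0,0,0,0,0,0,1],[0,0,1],[1,1,1],(⟨0,[(21,0)]⟩,⟨0,[(20,0)]⟩),⟨0,[(10,0)]⟩,.k,.k,⟨true,0,
  ⟨0,[(1,0),(31,0)]⟩,⟨0,[(0,0)]⟩⟩,⟨false,1,⟨1,[(11,0),(0,0),(23,0)]⟩,⟨0,[]⟩⟩,⟨false,0,⟨0,[(1,0)]⟩,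
  ⟨0,[(3,0),(32,0)]⟩⟩,⟨true,0,⟨0,[(34,0)]⟩,⟨0,[(33,0)]⟩⟩,[.e ⟨false,0,⟨0,[(38,0)]⟩,⟨1,[(35,0),(0,
  0)]⟩⟩ ⟨false,0,⟨0,[(0,0)]⟩,⟨3,[(1,3),(4,1),(4,0),(0,0),(10,0),(11,1)]⟩⟩,.o ⟨false,1,⟨1,[(4,1),(18,
  0),(12,0)]⟩,⟨0,[(17,0)]⟩⟩,.o ⟨false,1,⟨1,[(18,1),(4,0),(11,0)]⟩,⟨0,[(0,0),(16,0),(14,0)]⟩⟩,.a
  ⟨true,0,⟨0,[(18,0)]⟩,⟨0,[(15,0)]⟩⟩ ⟨false,0,⟨0,[]⟩,⟨1,[(11,0),(0,0),(23,0)]⟩⟩ ⟨true,0,⟨0,[(0,0)]⟩,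
  ⟨0,[(1,0),(31,0)]⟩⟩]⟩)

theorem ok42 : chk K t42 r20 = true := by decide +kernel

noncomputable def t45 : Tre :=
  (.R ⟨2,true,false,true,[0,1],[0,0,1],[0,0,1,1],(⟨0,[]⟩,⟨0,[]⟩),(⟨0,[(19,0)]⟩,⟨0,[(18,0)]⟩),⟨0,[]⟩,
  .k,.k,.k,.k,.k,.k,⟨false,1,⟨1,[(0,1),(15,1),(16,0),(0,0)]⟩,⟨0,[(1,0)]⟩⟩,⟨true,0,⟨0,[(16,0)]⟩,⟨0,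
  [(0,0),(0,0),(28,0)]⟩⟩,⟨false,1,⟨1,[(9,0),(0,0),(23,0)]⟩,⟨0,[]⟩⟩,⟨true,0,⟨0,[(1,0),(14,0)]⟩,⟨0,
  [(0,0)]⟩⟩,⟨true,0,⟨0,[(32,0)]⟩,⟨0,[(31,0)]⟩⟩,⟨false,0,⟨0,[(2,0)]⟩,⟨0,[(15,0),(18,0)]⟩⟩,[]⟩)

theorem ok45 : chk K t45 r11 = true := by decide +kernel

noncomputable def t47 : Tre :=
  (.I [0,0,0,0,0,0,0,1] (.Q [0,0,0,0,0,0,-1,0,0,0,-1] (.p false [0,0,1] [] (⟨0,[(19,0)]⟩,⟨0,[(18,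
  0)]⟩) .k 0 (⟨0,[]⟩,⟨0,[]⟩) .k .k) (.Q [0,1,-1,0,0,0,-1,0,0,0,-1] (.p false [0,0,1] [] (⟨0,[(20,
  0)]⟩,⟨0,[(19,0)]⟩) .k 0 (⟨0,[]⟩,⟨0,[]⟩) .k .k) (.R ⟨2,true,false,true,[0,1],[0,0,1],[1,0,1],(⟨0,
  []⟩,⟨0,[]⟩),(⟨0,[(21,0)]⟩,⟨0,[(20,0)]⟩),⟨0,[]⟩,.k,.k,.k,.k,.k,.k,⟨false,1,⟨5,[(3,3),(2,1),(10,1),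
  (0,1),(4,0),(11,2),(0,1)]⟩,⟨0,[(0,0),(3,0)]⟩⟩,⟨true,0,⟨0,[(18,0)]⟩,⟨0,[(1,0)]⟩⟩,⟨false,1,⟨3,[(6,
  1),(4,0),(0,0),(10,0),(12,1)]⟩,⟨0,[(34,0)]⟩⟩,⟨true,0,⟨0,[(4,0),(28,0)]⟩,⟨0,[(0,0),(2,0)]⟩⟩,⟨true,
  0,⟨0,[]⟩,⟨0,[(38,0)]⟩⟩,⟨false,0,⟨0,[(4,0)]⟩,⟨0,[(17,0),(18,0)]⟩⟩,[]⟩) (.Q [0,0,0,1,0,0,-1,-1,0,0,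
  -1] (.p false [0,0,1] [] (⟨0,[(21,0)]⟩,⟨0,[(20,0)]⟩) .k 0 (⟨0,[]⟩,⟨0,[]⟩) .k .k) (.R ⟨1,false,
  false,true,[1,0,-1],[1,-1],[1,1],(⟨0,[(21,0)]⟩,⟨0,[(22,0)]⟩),(⟨0,[(25,0)]⟩,⟨0,[(26,0)]⟩),⟨0,[(10,
  0)]⟩,.k,.k,.k,.k,.k,.k,⟨false,0,⟨0,[(35,0)]⟩,⟨3,[(7,1),(4,0),(0,0),(10,0),(11,1)]⟩⟩,⟨true,0,⟨0,
  [(19,0)]⟩,⟨0,[(2,0)]⟩⟩,⟨false,0,⟨0,[(3,0)]⟩,⟨5,[(4,3),(2,1),(10,1),(0,1),(4,0),(11,2),(0,1)]⟩⟩,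
  ⟨true,0,⟨0,[(5,0),(28,0)]⟩,⟨0,[(0,0)]⟩⟩,⟨false,0,⟨0,[(5,0),(2,0)]⟩,⟨1,[(4,1),(2,1),(16,0),(11,
  0)]⟩⟩,⟨false,0,⟨0,[(5,0)]⟩,⟨0,[(18,0),(18,0)]⟩⟩,[.o ⟨false,0,⟨0,[(34,0)]⟩,⟨1,[(24,0),(10,1),(1,
  0)]⟩⟩,.a ⟨true,0,⟨21,[(7,10),(1,2),(9,5),(3,1),(1,1),(4,2),(5,2)]⟩,⟨0,[(35,0)]⟩⟩ ⟨true,0,⟨0,[]⟩,
  ⟨1,[(19,0),(0,0)]⟩⟩ ⟨false,1,⟨3,[(1,3),(5,1),(16,0),(7,1),(3,2)]⟩,⟨0,[(8,0)]⟩⟩,.o ⟨false,0,⟨0,[(2,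
  0)]⟩,⟨1,[(19,1),(4,0),(11,0)]⟩⟩,.e ⟨false,1,⟨1,[(12,0),(0,0),(22,0)]⟩,⟨0,[(28,0)]⟩⟩ ⟨false,1,⟨3,
  [(1,3),(5,1),(16,0),(7,1),(3,2)]⟩,⟨0,[(8,0),(24,0)]⟩⟩]⟩) (.I [1,1,-1,-1,0,0,0,1] (.S ⟨1,0,[0,0,1,
  1,0,0,0,-1],[1,1,-1],[0,1,1,1,0,0,0,-1],(⟨22,[(13,2),(0,2),(7,22),(1,4),(5,5),(0,2)]⟩,⟨0,[(12,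
  0)]⟩),⟨0,[(22,0)]⟩,.k,.k,⟨true,0,⟨0,[(40,0)]⟩,⟨0,[]⟩⟩,⟨false,1,⟨1,[(13,0),(0,0),(23,0)]⟩,⟨0,[]⟩⟩,
  ⟨false,0,⟨0,[(36,0)]⟩,⟨3,[(8,1),(4,0),(0,0),(10,0),(12,1)]⟩⟩,⟨true,0,⟨0,[(36,0)]⟩,⟨0,[(35,0)]⟩⟩,
  [.a ⟨true,0,⟨3,[(5,3),(4,1),(20,0),(1,1),(3,0)]⟩,⟨0,[(1,0)]⟩⟩ ⟨false,0,⟨0,[(5,0),(27,0)]⟩,⟨0,[(0,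
  0),(37,0)]⟩⟩ ⟨true,0,⟨0,[(5,0),(34,0)]⟩,⟨0,[(1,0),(1,0)]⟩⟩,.a ⟨true,0,⟨0,[(5,0),(11,0)]⟩,⟨1,[(1,
  0),(16,0),(16,0)]⟩⟩ ⟨true,0,⟨0,[(5,0),(34,0)]⟩,⟨0,[(1,0),(1,0)]⟩⟩ ⟨false,1,⟨1,[(5,1),(7,0),(0,0),
  (22,0)]⟩,⟨0,[(0,0)]⟩⟩,.a ⟨true,0,⟨0,[(17,0)]⟩,⟨0,[(20,0)]⟩⟩ ⟨false,0,⟨0,[(5,0),(34,0)]⟩,⟨0,[(0,0),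
  (37,0)]⟩⟩ ⟨true,0,⟨0,[(5,0),(34,0)]⟩,⟨0,[(0,0)]⟩⟩,.o ⟨false,0,⟨0,[(3,0)]⟩,⟨1,[(20,1),(4,0),(11,
  0)]⟩⟩]⟩) (.S ⟨1,0,[0,0,1,1,0,0,0,-1],[1,1,-1],[0,1,1,1,0,0,0,-1],(⟨22,[(13,2),(0,2),(7,22),(1,4),
  (5,5),(0,2)]⟩,⟨0,[(12,0)]⟩),⟨0,[(22,0)]⟩,.k,.k,⟨true,0,⟨0,[(40,0)]⟩,⟨0,[]⟩⟩,⟨false,1,⟨1,[(13,0),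
  (0,0),(23,0)]⟩,⟨0,[]⟩⟩,⟨false,0,⟨0,[(36,0)]⟩,⟨3,[(8,1),(4,0),(0,0),(10,0),(12,1)]⟩⟩,⟨true,0,⟨0,
  [(36,0)]⟩,⟨0,[(35,0)]⟩⟩,[.a ⟨true,0,⟨3,[(5,3),(4,1),(20,0),(1,1),(3,0)]⟩,⟨0,[(1,0)]⟩⟩ ⟨false,0,⟨0,
  [(5,0),(27,0)]⟩,⟨1,[(1,1),(1,1),(33,0),(0,0)]⟩⟩ ⟨true,0,⟨0,[(5,0),(34,0)]⟩,⟨0,[(1,0),(1,0)]⟩⟩,.e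
  ⟨true,0,⟨0,[(5,0),(34,0)]⟩,⟨0,[(1,0),(1,0)]⟩⟩ ⟨true,0,⟨0,[(0,0)]⟩,⟨0,[(4,0),(30,0)]⟩⟩,.e ⟨false,0,
  ⟨0,[(5,0),(34,0)]⟩,⟨1,[(1,1),(1,1),(33,0),(0,0)]⟩⟩ ⟨false,0,⟨0,[(0,0)]⟩,⟨3,[(1,1),(5,1),(0,0),(1,
  0),(14,0),(11,1),(0,0)]⟩⟩,.o ⟨false,0,⟨0,[(3,0)]⟩,⟨1,[(20,1),(4,0),(11,0)]⟩⟩]⟩)))) (.I [0,-1,-1,0,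
  1,0,0,-1] (.S ⟨1,0,[0,1,0,0,0,0,0,-1],[1,0,-1],[0,0,0,0,0,0,0,-1],(⟨0,[(20,0)]⟩,⟨0,[(21,0)]⟩),⟨0,
  [(9,0)]⟩,.k,.k,⟨false,1,⟨1,[(11,0),(0,0),(23,0)]⟩,⟨0,[]⟩⟩,⟨true,0,⟨0,[(38,0)]⟩,⟨0,[]⟩⟩,⟨true,0,⟨0,
  [(34,0)]⟩,⟨0,[(33,0)]⟩⟩,⟨false,0,⟨0,[(34,0)]⟩,⟨3,[(6,1),(4,0),(0,0),(10,0),(12,1)]⟩⟩,[.o ⟨false,0,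
  ⟨0,[(17,0)]⟩,⟨1,[(4,1),(18,0),(12,0)]⟩⟩,.e ⟨false,1,⟨0,[(0,0)]⟩,⟨0,[(5,0)]⟩⟩ ⟨false,1,⟨5,[(0,4),
  (10,0),(0,0),(4,0),(0,0),(12,1)]⟩,⟨0,[(2,0)]⟩⟩,.a ⟨true,0,⟨21,[(8,13),(9,5),(3,1),(1,1),(4,2),(5,
  2)]⟩,⟨0,[(1,0)]⟩⟩ ⟨false,1,⟨1,[(0,0),(16,0),(0,0),(17,0)]⟩,⟨0,[(2,0)]⟩⟩ ⟨true,0,⟨0,[(1,0),(15,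
  0)]⟩,⟨0,[(2,0)]⟩⟩,.o ⟨false,0,⟨0,[(19,0)]⟩,⟨1,[(1,1),(21,0),(11,0)]⟩⟩]⟩) (.R ⟨2,true,false,false,
  [0,1],[1,1,-1],[0,0,1,1],(⟨0,[]⟩,⟨0,[]⟩),(⟨22,[(11,2),(0,2),(7,22),(1,4),(5,5),(0,2)]⟩,⟨0,[(10,
  0)]⟩),⟨0,[]⟩,.k,.k,.k,.k,.k,.k,⟨true,0,⟨0,[(2,0)]⟩,⟨0,[(3,0),(29,0)]⟩⟩,⟨false,0,⟨0,[(15,0)]⟩,⟨1,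
  [(18,1),(4,0),(11,0)]⟩⟩,⟨false,1,⟨1,[(11,0),(0,0),(23,0)]⟩,⟨0,[]⟩⟩,⟨true,0,⟨19,[(3,9),(2,4),(1,2),
  (6,3),(1,9),(4,1),(1,1),(4,2),(5,2)]⟩,⟨1,[(0,1),(0,1),(21,0),(11,0)]⟩⟩,⟨true,0,⟨0,[(34,0)]⟩,⟨0,
  [(33,0)]⟩⟩,⟨false,0,⟨0,[(3,0),(11,0)]⟩,⟨3,[(4,1),(1,1),(9,1),(6,2),(12,0)]⟩⟩,[]⟩))) (.R ⟨2,true,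
  false,true,[0,1],[0,0,1],[1,0,1],(⟨0,[]⟩,⟨0,[]⟩),(⟨0,[(19,0)]⟩,⟨0,[(18,0)]⟩),⟨0,[]⟩,.k,.k,.k,.k,
  .k,.k,⟨true,0,⟨0,[(0,0),(29,0)]⟩,⟨0,[(3,0)]⟩⟩,⟨false,0,⟨0,[(0,0),(1,0)]⟩,⟨3,[(6,1),(2,0),(0,0),
  (10,0),(11,1)]⟩⟩,⟨false,1,⟨3,[(4,1),(4,0),(0,0),(10,0),(12,1)]⟩,⟨0,[(32,0)]⟩⟩,⟨true,0,⟨0,[(2,0),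
  (28,0)]⟩,⟨0,[(0,0),(4,0)]⟩⟩,⟨true,0,⟨0,[]⟩,⟨0,[(36,0)]⟩⟩,⟨false,0,⟨0,[(2,0)]⟩,⟨0,[(15,0),(18,
  0)]⟩⟩,[]⟩))

theorem ok47 : chk K t47 r10 = true := by decide +kernel

noncomputable def t50 : Tre :=
  (.R ⟨1,false,false,true,[1,0,-1],[1,-1],[],(⟨0,[(15,0)]⟩,⟨0,[(16,0)]⟩),(⟨0,[(19,0)]⟩,⟨0,[(20,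
  0)]⟩),⟨0,[(4,0)]⟩,.k,.k,.k,.k,.k,.k,⟨true,0,⟨0,[(27,0),(1,0)]⟩,⟨0,[(28,0)]⟩⟩,⟨false,0,⟨0,[(0,0),
  (10,0)]⟩,⟨3,[(3,1),(2,0),(0,0),(10,0),(11,1)]⟩⟩,⟨false,1,⟨1,[(10,1),(0,1),(6,0),(8,1),(3,0)]⟩,⟨3,
  [(0,2),(11,0),(0,0),(12,0)]⟩⟩,⟨false,1,⟨3,[(1,1),(4,0),(0,0),(3,3),(6,0),(12,1)]⟩,⟨0,[(0,0),(1,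
  0)]⟩⟩,⟨false,1,⟨0,[(2,0),(8,0),(19,0)]⟩,⟨0,[(0,0),(27,0)]⟩⟩,⟨true,0,⟨0,[(11,0)]⟩,⟨0,[(0,0),(1,0),
  (25,0)]⟩⟩,[.o ⟨false,0,⟨0,[(28,0)]⟩,⟨1,[(18,0),(10,1),(1,0)]⟩⟩,.e ⟨false,1,⟨1,[(30,0),(0,0)]⟩,⟨0,
  [(33,0)]⟩⟩ ⟨false,1,⟨3,[(0,1),(0,1),(9,1),(1,1),(4,0),(11,2)]⟩,⟨0,[(2,0)]⟩⟩,.a ⟨true,0,⟨21,[(3,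
  13),(9,5),(3,1),(1,1),(4,2),(5,2)]⟩,⟨0,[(0,0),(10,0)]⟩⟩ ⟨false,1,⟨1,[(6,0),(0,0),(23,0)]⟩,⟨0,[]⟩⟩
  ⟨true,0,⟨0,[(0,0),(10,0),(16,0)]⟩,⟨0,[(2,0)]⟩⟩,.o ⟨false,0,⟨0,[(14,0)]⟩,⟨1,[(0,1),(10,1),(6,0),
  (11,0)]⟩⟩]⟩)

theorem ok50 : chk K t50 r2 = true := by decide +kernel

noncomputable def t52 : Tre :=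
  (.R ⟨2,true,false,true,[0,1],[1,-1],[1,0,1],(⟨0,[]⟩,⟨0,[]⟩),(⟨0,[(18,0)]⟩,⟨0,[(19,0)]⟩),⟨0,[]⟩,.k,
  .k,.k,(.r 1 ⟨0,[(0,1),(20,0),(1,0),(2,0),(0,1)]⟩ ⟨0,[(27,1),(1,0),(0,0)]⟩),.k,.k,⟨false,0,⟨5,[(0,
  2),(1,0),(9,1),(10,0),(2,3),(3,0)]⟩,⟨0,[(27,0),(1,0)]⟩⟩,⟨true,(-1),⟨0,[(0,0),(20,0),(1,0),(2,0),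
  (0,1)]⟩,⟨1,[(17,0),(11,0)]⟩⟩,⟨false,1,⟨0,[(27,0),(2,0)]⟩,⟨0,[(28,0)]⟩⟩,⟨true,0,⟨1,[(23,0),(3,3),
  (2,0)]⟩,⟨0,[(0,0)]⟩⟩,⟨true,0,⟨0,[]⟩,⟨0,[(32,0)]⟩⟩,⟨false,0,⟨1,[(23,0),(3,1),(2,0)]⟩,⟨3,[(0,1),(4,
  0),(0,0),(10,0),(12,1)]⟩⟩,[]⟩)

theorem ok52 : chk K t52 r1 = true := by decide +kernel


end Helper48.Y.Y11_c35_P3_m1n1_CC
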