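import Pool.Agent.Helper48.Y.Y11_c35_P3_m1n1_CC_p0
import Pool.Agent.Helper48.Y.Y11_c35_P3_m1n1_CC_p1

set_option autoImplicit false
set_option linter.all false

namespace Helper48.Y.Y11_c35_P3_m1n1_CC

open Helper25.KG Helper25.KW Helper55.KE Helper11.CT

noncomputable def t3 : Tre :=
  .I [0,0,-2,-1,1,0,0,-1] t1 t2

theorem ok3 : chk K t3 l8 = true :=
  chk_I (e' := [1,0,2,1,-1,0,0,1]) (by decide +kernel) (by decide +kernel) ok1 ok2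

noncomputable def t5 : Tre :=
  .Q [0,0,-1,-1,1,0,1,0,0,0,1] (.p true [0,0,1] [] (⟨0,[(21,0)]⟩,⟨0,[(20,0)]⟩) .k 0 (⟨0,[]⟩,⟨0,[]⟩)
  .k .k) t3 t4

theorem ok5 : chk K t5 l7 = true :=
  chk_Q (e' := [0,0,1,1,-1,0,-1,0,0,0,-1]) (by decide +kernel) (by decide +kernel) ok3 ok4

noncomputable def t7 : Tre :=
  .Q [0,0,0,-1,0,0,-1,-1,0,0,-1] (.p false [0,0,1] [] (⟨0,[(20,0)]⟩,⟨0,[(19,0)]⟩) .k 0 (⟨0,[]⟩,⟨0,
  []⟩) .k .k) t5 t6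

theorem ok7 : chk K t7 l6 = true :=
  chk_Q (e' := [0,0,0,1,0,0,1,1,0,0,1]) (by decide +kernel) (by decide +kernel) ok5 ok6

noncomputable def t9 : Tre :=
  .Q [0,0,0,0,0,0,-1,0,0,0,-1] (.p false [0,0,1] [] (⟨0,[(19,0)]⟩,⟨0,[(18,0)]⟩) .k 0 (⟨0,[]⟩,⟨0,
  []⟩) .k .k) t7 t8

theorem ok9 : chk K t9 l5 = true :=
  chk_Q (e' := [0,0,0,0,0,0,1,0,0,0,1]) (by decide +kernel) (by decide +kernel) ok7 ok8

noncomputable def t11 : Tre :=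
  .I [0,0,-1,-1,1,0,0,1] t9 t10

theorem ok11 : chk K t11 l4 = true :=
  chk_I (e' := [1,0,1,1,-1,0,0,-1]) (by decide +kernel) (by decide +kernel) ok9 ok10

noncomputable def t13 : Tre :=
  .I [1,0,0,1,0,0,0,-1] t11 t12

theorem ok13 : chk K t13 l3 = true :=
  chk_I (e' := [0,0,0,-1,0,0,0,1]) (by decide +kernel) (by decide +kernel) ok11 ok12

noncomputable def t22 : Tre :=
  .I [1,-1,-1,-1,1] t20 t21

theorem ok22 : chk K t22 r18 = true :=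
  chk_I (e' := [0,1,1,1,-1]) (by decide +kernel) (by decide +kernel) ok20 ok21

noncomputable def t23 : Tre :=
  .Q [0,0,0,2,0,0,-1,-1,0,0,-1] (.p false [0,0,1] [] (⟨0,[(25,0)]⟩,⟨0,[(24,0)]⟩) .k 0 (⟨0,[]⟩,⟨0,
  []⟩) .k .k) t19 t22

theorem ok23 : chk K t23 r17 = true :=
  chk_Q (e' := [0,0,0,-2,0,0,1,1,0,0,1]) (by decide +kernel) (by decide +kernel) ok19 ok22

noncomputable def t24 : Tre :=
  .I [0,0,2,2,-2,0,0,1] t18 t23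

theorem ok24 : chk K t24 r16 = true :=
  chk_I (e' := [1,0,-2,-2,2,0,0,-1]) (by decide +kernel) (by decide +kernel) ok18 ok23

noncomputable def t25 : Tre :=
  .Q [0,0,-1,-1,1,0,1,0,0,0,1] (.p true [0,0,1] [] (⟨0,[(23,0)]⟩,⟨0,[(22,0)]⟩) .k 0 (⟨0,[]⟩,⟨0,[]⟩)
  .k .k) t17 t24

theorem ok25 : chk K t25 r15 = true :=
  chk_Q (e' := [0,0,1,1,-1,0,-1,0,0,0,-1]) (by decide +kernel) (by decide +kernel) ok17 ok24

noncomputable def t26 : Tre :=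
  .Q [0,-1,-1,-1,0,0,-1,0,0,1,-1] (.p false [0,0,1] [1] (⟨0,[(22,0)]⟩,⟨0,[(21,0)]⟩) .k 1 (⟨0,[]⟩,⟨0,
  []⟩) .k .k) t16 t25

theorem ok26 : chk K t26 r14 = true :=
  chk_Q (e' := [0,1,1,1,0,0,1,0,0,-1,1]) (by decide +kernel) (by decide +kernel) ok16 ok25

noncomputable def t27 : Tre :=
  .Q [0,-1,0,1,0,0,1,1,0,0,1] (.p true [0,0,1] [] (⟨0,[(21,0)]⟩,⟨0,[(20,0)]⟩) .k 0 (⟨0,[]⟩,⟨0,[]⟩)
  .k .k) t15 t26

theorem ok27 : chk K t27 r13 = true :=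
  chk_Q (e' := [0,1,0,-1,0,0,-1,-1,0,0,-1]) (by decide +kernel) (by decide +kernel) ok15 ok26

noncomputable def t28 : Tre :=
  .I [0,-1,0,1,1,0,0,-1] t14 t27

theorem ok28 : chk K t28 l12 = true :=
  chk_I (e' := [1,1,0,-1,-1,0,0,1]) (by decide +kernel) (by decide +kernel) ok14 ok27

noncomputable def t33 : Tre :=
  .Q [0,0,-1,-1,0,0,-1,0,0,1,-1] (.p false [0,0,1] [1] (⟨0,[(26,0)]⟩,⟨0,[(25,0)]⟩) .k 1 (⟨0,[]⟩,⟨0,
  []⟩) .k .k) t31 t32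

theorem ok33 : chk K t33 r25 = true :=
  chk_Q (e' := [0,0,1,1,0,0,1,0,0,-1,1]) (by decide +kernel) (by decide +kernel) ok31 ok32

noncomputable def t34 : Tre :=
  .I [0,-1,0,0,0,0,0,1] t30 t33

theorem ok34 : chk K t34 l24 = true :=
  chk_I (e' := [1,1,0,0,0,0,0,-1]) (by decide +kernel) (by decide +kernel) ok30 ok33

noncomputable def t36 : Tre :=
  .I [1,0,-1,-1,1,0,0,-1] t34 t35

theorem ok36 : chk K t36 l23 = true :=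
  chk_I (e' := [0,0,1,1,-1,0,0,1]) (by decide +kernel) (by decide +kernel) ok34 ok35

noncomputable def t38 : Tre :=
  .Q [0,0,0,0,0,0,-1,0,0,0,-1] (.p false [0,0,1] [] (⟨0,[(23,0)]⟩,⟨0,[(22,0)]⟩) .k 0 (⟨0,[]⟩,⟨0,
  []⟩) .k .k) t36 t37

theorem ok38 : chk K t38 l22 = true :=
  chk_Q (e' := [0,0,0,0,0,0,1,0,0,0,1]) (by decide +kernel) (by decide +kernel) ok36 ok37

noncomputable def t40 : Tre :=
  .Q [0,0,2,0,0,0,1,0,0,-1,1] (.p true [0,0,1] [1] (⟨0,[(22,0)]⟩,⟨0,[(21,0)]⟩) .k 1 (⟨0,[]⟩,⟨0,[]⟩)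
  .k .k) t38 t39

theorem ok40 : chk K t40 r21 = true :=
  chk_Q (e' := [0,0,-2,0,0,0,-1,0,0,1,-1]) (by decide +kernel) (by decide +kernel) ok38 ok39

noncomputable def t41 : Tre :=
  .Q [0,0,0,2,0,0,-1,-1,0,0,-1] (.p false [0,0,1] [] (⟨0,[(21,0)]⟩,⟨0,[(20,0)]⟩) .k 0 (⟨0,[]⟩,⟨0,
  []⟩) .k .k) t29 t40

theorem ok41 : chk K t41 l20 = true :=
  chk_Q (e' := [0,0,0,-2,0,0,1,1,0,0,1]) (by decide +kernel) (by decide +kernel) ok29 ok40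

noncomputable def t43 : Tre :=
  .I [1,0,1,0,0,0,0,-1] t41 t42

theorem ok43 : chk K t43 r12 = true :=
  chk_I (e' := [0,0,-1,0,0,0,0,1]) (by decide +kernel) (by decide +kernel) ok41 ok42

noncomputable def t44 : Tre :=
  .I [1,0,-1,-1,0,0,0,1] t28 t43

theorem ok44 : chk K t44 l11 = true :=
  chk_I (e' := [0,0,1,1,0,0,0,-1]) (by decide +kernel) (by decide +kernel) ok28 ok43

noncomputable def t46 : Tre :=
  .Q [0,0,0,-1,0,0,1,1,0,0,1] (.p true [0,0,1] [] (⟨0,[(18,0)]⟩,⟨0,[(17,0)]⟩) .k 0 (⟨0,[]⟩,⟨0,[]⟩)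
  .k .k) t44 t45

theorem ok46 : chk K t46 l10 = true :=
  chk_Q (e' := [0,0,0,1,0,0,-1,-1,0,0,-1]) (by decide +kernel) (by decide +kernel) ok44 ok45

noncomputable def t48 : Tre :=
  .I [0,1,-1,-1,0,0,0,1] t46 t47

theorem ok48 : chk K t48 r3 = true :=
  chk_I (e' := [1,-1,1,1,0,0,0,-1]) (by decide +kernel) (by decide +kernel) ok46 ok47

noncomputable def t49 : Tre :=
  .Q [0,0,0,0,0,0,-1,-1,0,0,-1] (.p false [0,0,1] [] (⟨0,[(16,0)]⟩,⟨0,[(15,0)]⟩) .k 0 (⟨0,[]⟩,⟨0,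
  []⟩) .k .k) t13 t48

theorem ok49 : chk K t49 l2 = true :=
  chk_Q (e' := [0,0,0,0,0,0,1,1,0,0,1]) (by decide +kernel) (by decide +kernel) ok13 ok48

noncomputable def t51 : Tre :=
  .I [0,1,0,0,0,0,0,1] t49 t50

theorem ok51 : chk K t51 l1 = true :=
  chk_I (e' := [1,-1,0,0,0,0,0,-1]) (by decide +kernel) (by decide +kernel) ok49 ok50

noncomputable def t53 : Tre :=
  .Q [0,0,0,-2,0,0,0,0,0,1] (.pp false [-1,1]) t51 t52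

theorem ok53 : chk K t53 r0 = true :=
  chk_Q (e' := [0,0,0,2,0,0,0,0,0,-1]) (by decide +kernel) (by decide +kernel) ok51 ok52

noncomputable def t54 : Tre :=
  .Q [0,0,0,-1,0,0,1,0,0,0,1] (.p true [0,0,1] [] (⟨0,[(13,0)]⟩,⟨0,[(12,0)]⟩) .k 0 (⟨0,[]⟩,⟨0,[]⟩)
  .k .k) t0 t53

theorem ok54 : chk K t54 base = true :=
  chk_Q (e' := [0,0,0,1,0,0,-1,0,0,0,-1]) (by decide +kernel) (by decide +kernel) ok0 ok53

theorem closed {p a b c J l q : ℤ} {D dl : ℝ} {Cl : ℤ → ℤ → ℤ → ℤ → ℝ → Prop}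
    (W : World p a b c J 1 l q D dl Cl) (g : G0 p a b c J D)
    {N X R : ℤ} {I : ℝ} (hk : KCl p l Cl N X R I) (kz : KF a b D (X + (1 : ℤ) * I) (X + (1 : ℤ) * I + R) I)
    {Ne Xe : ℤ} {Ie : ℝ} (he : EFac p 1 D Cl 1 Ne Xe Ie)
    (hkf : ∀ kf ∈ (kfY 1 [0,0,0,0,0,0,1,0,0,0,1]), KOk p l Cl 1
      (xv [1, a, b, c, p, J, X, R, Xe] [D, I, Ie]) N kf)
    (h0 : 1 ≤ (c : ℝ))
    (h1 : 1 ≤ 1 - (a : ℝ) + (b : ℝ))
    (h2 : 1 ≤ 2 * (a : ℝ) - (b : ℝ))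
    (h3 : 0 < -1 + (p : ℝ) - 2 * D)
    (h4 : 0 < 3 - (p : ℝ) + 2 * D)
    (h5 : 0 < 1 + 3 * (J : ℝ) - D)
    (h6 : 1 ≤ -(a : ℝ) + (b : ℝ))
    (h7 : 1 ≤ 2 * (a : ℝ) - (b : ℝ))
    (h8 : 1 ≤ -2 + (J : ℝ))
    (h9 : 0 < -(b : ℝ) - (X : ℝ) + D - I)
    (h10 : 0 < -(J : ℝ) + I)
    (h11 : 0 < -(J : ℝ) + D - I)
    (h12 : 0 < -2 * (X : ℝ) + D - 2 * I) : False := by
  have g1 := g.a2
  have g2 := g.b2
  have g3 := g.pa
  have g4 := g.pb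
  have g5 := g.J1
  have g6 := g.JD
  have g7 := g.D2
  have g8 := g.ca
  have g9 := g.ca'
  have k1 := kz.I0
  have k2 := kz.ID
  have k3 := kz.z1
  have k4 := kz.z2
  have k5 := kz.s1
  have k6 := kz.s2
  have e1 := he.I0
  have e2 := he.ID
  have e3 := he.x0
  have e4 := he.xp
  push_cast at *
  refine (val_E W.toBase hk he (row := [1]) (by simp) (by simp) (kfY 1 [0,0,0,0,0,0,1,0,0,0,1])).sound W rfl (Nk := N)
    (fun kf _ _ => ⟨_, rfl⟩) hkf ?_ ok54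
  · simp only [base, List.forall_mem_cons, List.not_mem_nil, false_imp_iff, implies_true,
      and_true, hld, xv, evg_cons, evg_nil, List.map_cons, List.map_nil, List.cons_append,
      List.nil_append, if_true, if_false, Bool.false_eq_true]
    push_cast
    refine ⟨?_, ?_, ?_, ?_, ?_, ?_, ?_, ?_, ?_, ?_, ?_, ?_, ?_, ?_, ?_, ?_, ?_, ?_, ?_, ?_, ?_, ?_, ?_, ?_, ?_, ?_, ?_, ?_, ?_, ?_, ?_⟩ <;> linarith

end Helper48.Y.Y11_c35_P3_m1n1_CC
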