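import Pool.Agent.Helper48.Y.Y11_c35_P3_m1n1_K2_q

set_option autoImplicit false
set_option linter.all false

namespace Helper48.Y.Y11_c35_P3_m1n1_K2

open Helper25.KG Helper25.KW Helper55.KE Helper11.CT

noncomputable def t21 : Tre :=
  (.Q [0,0,0,0,0,2,0,0,0,0,-1] (.p false [0,0,1] [] (⟨0,[(22,0)]⟩,⟨0,[(21,0)]⟩) .k 0 (⟨0,[]⟩,⟨0,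
  []⟩) .k .k) (.R ⟨0,false,false,true,[0,-1,1],[1,-1],[],(⟨0,[(12,0)]⟩,⟨4,[(0,1),(12,0),(0,0),(7,2),
  (2,0),(9,0)]⟩),(⟨0,[(27,0)]⟩,⟨0,[(28,0)]⟩),⟨0,[(0,0)]⟩,.k,.k,(.r (-2) ⟨3,[(6,1),(1,1),(1,1),(7,1),
  (17,0),(4,0)]⟩ ⟨0,[(2,0),(21,1),(5,0),(1,1)]⟩),.k,.k,.k,⟨true,0,⟨0,[(24,0),(7,0)]⟩,⟨0,[(39,0)]⟩⟩,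
  ⟨false,0,⟨0,[(17,0)]⟩,⟨1,[(20,1),(15,0),(4,0)]⟩⟩,⟨false,0,⟨0,[(2,0),(21,0),(7,0)]⟩,⟨1,[(7,0),(9,
  1),(0,0),(17,0)]⟩⟩,⟨true,(-1),⟨2,[(1,0),(0,0),(0,1),(20,0),(5,2),(1,0)]⟩,⟨1,[(8,0),(9,0),(5,0),
  (11,0)]⟩⟩,⟨false,0,⟨0,[]⟩,⟨0,[]⟩⟩,⟨false,0,⟨0,[]⟩,⟨0,[]⟩⟩,[.o ⟨false,0,⟨0,[(39,0)]⟩,⟨1,[(24,1),
  (11,0),(5,0)]⟩⟩,.a ⟨true,0,⟨5,[(9,2),(3,0),(0,0),(10,0),(1,0),(7,0)]⟩,⟨0,[(40,0)]⟩⟩ ⟨false,1,⟨1,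
  [(41,0),(0,0)]⟩,⟨0,[(44,0)]⟩⟩ ⟨true,0,⟨0,[(1,0)]⟩,⟨1,[(20,1),(3,1),(5,0),(1,1),(3,0)]⟩⟩,.e ⟨false,
  1,⟨1,[(13,0),(0,0),(27,0)]⟩,⟨0,[]⟩⟩ ⟨false,0,⟨0,[(1,0)]⟩,⟨1,[(20,1),(3,1),(11,0),(5,0)]⟩⟩,.o
  ⟨false,0,⟨1,[(20,1),(9,0),(1,1),(3,0)]⟩,⟨1,[(17,1),(18,0),(4,0)]⟩⟩]⟩) (.I [0,0,0,1,0,0,0,1] (.S
  ⟨1,0,[0,1,0,0,0,0,0,-1],[1,0,-1],[],(⟨0,[(23,0)]⟩,⟨0,[(24,0)]⟩),⟨0,[(12,0)]⟩,.k,.k,⟨false,1,⟨7,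
  [(0,3),(8,3),(1,1),(2,0),(0,0),(21,0),(5,1)]⟩,⟨0,[(3,0)]⟩⟩,⟨true,0,⟨0,[(45,0)]⟩,⟨0,[]⟩⟩,⟨true,0,
  ⟨0,[(0,0)]⟩,⟨0,[(3,0),(36,0)]⟩⟩,⟨false,0,⟨0,[(41,0)]⟩,⟨23,[(5,5),(1,3),(0,5),(5,0),(0,0),(6,5),
  (20,8)]⟩⟩,[.e ⟨false,1,⟨1,[(14,0),(0,0),(26,0)]⟩,⟨0,[]⟩⟩ ⟨false,0,⟨1,[(3,1),(27,0),(10,0)]⟩,⟨7,
  [(0,3),(8,3),(1,1),(2,0),(0,0),(21,0),(5,1)]⟩⟩,.o ⟨false,0,⟨1,[(4,1),(26,0),(5,0)]⟩,⟨1,[(9,0),(9,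
  0),(5,0),(11,0)]⟩⟩,.o ⟨false,0,⟨1,[(18,1),(12,0),(1,1),(3,0)]⟩,⟨1,[(21,1),(15,0),(4,0)]⟩⟩,.a
  ⟨true,(-1),⟨2,[(0,0),(1,1),(1,0),(20,0),(5,2),(1,4)]⟩,⟨0,[(21,0),(20,0)]⟩⟩ ⟨false,1,⟨1,[(42,0),(0,
  0)]⟩,⟨1,[(21,0),(0,0)]⟩⟩ ⟨true,0,⟨1,[(3,1),(27,0),(10,0)]⟩,⟨5,[(0,3),(5,1),(14,0),(0,2),(10,
  1)]⟩⟩]⟩) (.Q [0,0,0,0,0,-1,0,0,0,0,0,1] (.ed false [1,-1,0,0,1] .k) (.Q [0,0,0,-1,0,0,0,0,-1,1,0,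
  -1] (.p false [0,0,0,0,1] [1] (⟨0,[(18,0)]⟩,⟨0,[(17,0)]⟩) .k 1 (⟨0,[]⟩,⟨0,[]⟩) .k .k) (.S ⟨1,0,[1,
  1],[0,0,0,0,1],[],(⟨0,[(19,0)]⟩,⟨0,[(18,0)]⟩),⟨0,[(1,0)]⟩,.k,(.r (-1) ⟨2,[(9,0),(6,0),(0,0)]⟩ ⟨1,
  [(23,0),(0,0),(2,1)]⟩),⟨false,1,⟨4,[(16,1),(0,1),(27,2),(1,0)]⟩,⟨0,[]⟩⟩,⟨true,0,⟨0,[(47,0)]⟩,⟨0,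
  []⟩⟩,⟨true,0,⟨0,[(27,0)]⟩,⟨0,[(42,0)]⟩⟩,⟨false,0,⟨0,[(43,0)]⟩,⟨23,[(7,5),(1,3),(0,5),(5,0),(0,0),
  (6,5),(20,8)]⟩⟩,[.o ⟨false,0,⟨1,[(17,1),(15,0),(5,0)]⟩,⟨1,[(0,1),(26,1),(1,0),(15,0)]⟩⟩,.a ⟨true,
  0,⟨0,[(17,0)]⟩,⟨0,[(0,0),(26,0)]⟩⟩ ⟨false,1,⟨1,[(44,0),(0,0)]⟩,⟨0,[(47,0)]⟩⟩ ⟨true,0,⟨0,[]⟩,⟨1,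
  [(23,0),(0,0)]⟩⟩,.e ⟨false,1,⟨1,[(16,0),(0,0),(27,0)]⟩,⟨0,[]⟩⟩ ⟨false,0,⟨0,[]⟩,⟨1,[(16,0),(0,0),
  (27,0)]⟩⟩,.o ⟨false,0,⟨1,[(17,1),(15,0),(1,1),(3,0)]⟩,⟨1,[(0,1),(26,1),(1,0),(14,0)]⟩⟩]⟩) (.Q [0,
  0,0,0,0,0,0,0,1,-1,0,1] (.p true [0,0,0,0,1] [1] (⟨0,[(19,0)]⟩,⟨0,[(18,0)]⟩) .k 1 (⟨0,[]⟩,⟨0,[]⟩)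
  .k .k) (.Q [1,1,0,-2,-1,0,0,0,1,0,0,1] (.p true [0,0,0,0,1] [] (⟨0,[(20,0)]⟩,⟨0,[(19,0)]⟩) .k 0
  (⟨0,[]⟩,⟨0,[]⟩) .k .k) (.R ⟨1,false,false,false,[0,0,0,0,1],[0,1],[],(⟨0,[(21,0)]⟩,⟨0,[(20,0)]⟩),
  (⟨0,[(33,0)]⟩,⟨0,[(32,0)]⟩),⟨0,[(3,0)]⟩,.k,.k,(.r (-1) ⟨2,[(11,0),(6,0),(0,0)]⟩ ⟨1,[(25,0),(0,0),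
  (2,1)]⟩),(.r (-1) ⟨2,[(11,0),(6,0),(0,0)]⟩ ⟨1,[(25,0),(0,0),(2,1)]⟩),(.r (-2) ⟨2,[(11,1),(6,1),(0,
  1)]⟩ ⟨0,[(29,1),(5,0),(1,1)]⟩),.k,⟨true,1,⟨2,[(11,0),(6,0),(0,0)]⟩,⟨0,[(29,0),(5,0),(1,1)]⟩⟩,
  ⟨false,2,⟨0,[(18,0),(27,0)]⟩,⟨13,[(0,7),(1,5),(26,9),(5,2),(1,13),(2,2)]⟩⟩,⟨false,1,⟨4,[(18,1),(0,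
  1),(27,2),(1,0)]⟩,⟨0,[]⟩⟩,⟨true,1,⟨0,[(18,0),(10,0)]⟩,⟨6,[(0,4),(1,1),(26,0),(5,0),(4,0)]⟩⟩,⟨true,
  0,⟨0,[(29,0)]⟩,⟨0,[(44,0)]⟩⟩,⟨true,1,⟨0,[(18,0),(10,1)]⟩,⟨0,[(0,0)]⟩⟩,[.a ⟨true,0,⟨0,[(45,0)]⟩,⟨5,
  [(14,2),(3,0),(0,0),(10,0),(1,0),(7,0)]⟩⟩ ⟨false,1,⟨1,[(18,0),(0,0),(26,0)]⟩,⟨0,[]⟩⟩ ⟨true,1,⟨0,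
  [(18,0),(10,0)]⟩,⟨13,[(0,11),(1,1),(26,7),(5,0),(1,13),(2,0)]⟩⟩,.o ⟨false,1,⟨1,[(29,1),(11,0),(5,
  0)]⟩,⟨0,[(44,0)]⟩⟩,.o ⟨false,0,⟨0,[(1,0)]⟩,⟨0,[(18,0)]⟩⟩,.e ⟨false,1,⟨1,[(46,0),(0,0)]⟩,⟨1,[(25,
  0),(0,0)]⟩⟩ ⟨false,2,⟨1,[(18,1),(10,1),(16,0),(0,0)]⟩,⟨13,[(0,11),(1,1),(26,7),(5,0),(1,13),(2,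
  0)]⟩⟩]⟩) (.Q [0,0,1,0,-1,0,0,0,1,0,0,1] (.p true [0,0,0,0,1] [] (⟨0,[(21,0)]⟩,⟨0,[(20,0)]⟩) .k 0
  (⟨0,[]⟩,⟨0,[]⟩) .k .k) (.K ⟨0,[0,0,0,0,1],(-1),(-1),(⟨0,[(22,0)]⟩,⟨0,[(21,0)]⟩),.k,(.r (-1) ⟨2,
  [(12,0),(6,0),(0,0)]⟩ ⟨3,[(0,1),(0,1),(24,0),(0,0),(22,1)]⟩),(.r 0 ⟨3,[(0,1),(0,1),(24,0),(0,0),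
  (22,1)]⟩ ⟨6,[(1,0),(10,2),(7,0),(28,1),(0,0)]⟩),.k,.k,[⟨1,[(1,1),(3,1),(5,0),(12,0)]⟩,⟨0,[(0,0)]⟩,
  ⟨0,[(19,0),(30,0)]⟩,⟨1,[(0,1),(35,0),(10,0)]⟩]⟩) (.R ⟨2,true,false,false,[0,1],[0,0,0,0,1],[1,0,
  1],(⟨0,[]⟩,⟨0,[]⟩),(⟨0,[(22,0)]⟩,⟨0,[(21,0)]⟩),⟨0,[]⟩,.k,.k,.k,(.r 0 ⟨1,[(26,0),(0,0),(2,1)]⟩ ⟨2,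
  [(12,0),(6,0),(0,0)]⟩),.k,.k,⟨true,0,⟨1,[(26,0),(0,0)]⟩,⟨0,[]⟩⟩,⟨false,0,⟨0,[(20,0)]⟩,⟨0,[(0,
  0)]⟩⟩,⟨false,1,⟨23,[(10,5),(1,3),(0,5),(5,0),(0,0),(6,5),(20,8)]⟩,⟨0,[(46,0)]⟩⟩,⟨true,0,⟨1,[(2,0),
  (12,0),(4,0)]⟩,⟨0,[(0,0),(29,0),(5,0),(1,0)]⟩⟩,⟨true,0,⟨0,[]⟩,⟨0,[(50,0)]⟩⟩,⟨false,0,⟨1,[(2,1),
  (38,0),(6,0)]⟩,⟨1,[(0,0),(18,0),(29,0)]⟩⟩,[]⟩))) (.R ⟨1,false,false,true,[0,0,0,0,1],[0,1],[1,1,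
  1],(⟨0,[(20,0)]⟩,⟨0,[(19,0)]⟩),(⟨0,[(32,0)]⟩,⟨0,[(31,0)]⟩),⟨0,[(2,0)]⟩,.k,.k,(.r (-1) ⟨2,[(10,0),
  (6,0),(0,0)]⟩ ⟨1,[(24,0),(0,0),(2,1)]⟩),(.r (-1) ⟨2,[(10,0),(6,0),(0,0)]⟩ ⟨1,[(24,0),(0,0),(2,
  1)]⟩),(.r (-2) ⟨2,[(10,1),(6,1),(0,1)]⟩ ⟨0,[(28,1),(5,0),(1,1)]⟩),.k,⟨false,1,⟨2,[(10,0),(6,0),(0,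
  0)]⟩,⟨0,[(44,0)]⟩⟩,⟨true,1,⟨1,[(0,1),(29,0),(14,0)]⟩,⟨8,[(1,1),(2,0),(8,0),(1,0),(2,6),(10,2),(4,
  8),(1,17)]⟩⟩,⟨false,0,⟨1,[(24,0),(0,0)]⟩,⟨1,[(45,0),(0,0)]⟩⟩,⟨true,0,⟨1,[(0,1),(27,1),(1,0),(3,
  0)]⟩,⟨0,[(1,0),(11,0)]⟩⟩,⟨true,(-1),⟨0,[(28,0),(5,0),(1,0)]⟩,⟨2,[(10,0),(6,0),(0,0)]⟩⟩,⟨true,0,⟨1,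
  [(0,1),(27,3),(5,0),(5,0)]⟩,⟨1,[(1,1),(1,0),(1,0),(3,0),(3,0),(22,0)]⟩⟩,[.o ⟨false,0,⟨1,[(28,1),
  (5,0),(5,0)]⟩,⟨23,[(8,5),(1,3),(0,5),(5,0),(0,0),(6,5),(20,8)]⟩⟩,.e ⟨false,0,⟨0,[]⟩,⟨1,[(17,0),(0,
  0),(26,0)]⟩⟩ ⟨false,1,⟨1,[(0,1),(27,1),(11,0),(4,0)]⟩,⟨0,[(1,0),(11,0)]⟩⟩,.a ⟨true,0,⟨0,[(18,0)]⟩,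
  ⟨0,[(0,0)]⟩⟩ ⟨false,0,⟨1,[(24,0),(0,0)]⟩,⟨1,[(45,0),(0,0)]⟩⟩ ⟨true,0,⟨1,[(0,1),(27,1),(5,0),(5,
  0)]⟩,⟨0,[(1,0),(11,0)]⟩⟩,.o ⟨false,0,⟨4,[(1,4),(1,0),(4,0),(0,1),(15,1),(10,1)]⟩,⟨1,[(0,1),(29,0),
  (14,0)]⟩⟩]⟩))) (.Q [0,0,0,0,0,0,1,0,1,-1,1,1] (.p true [0,0,1] [1,0,0,0,-1] (⟨0,[(25,0)]⟩,⟨0,[(24,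
  0)]⟩) .k 2 (⟨0,[(17,0)]⟩,⟨0,[(18,0)]⟩) .k (.r (-1) ⟨3,[(10,1),(1,1),(2,0),(0,0),(3,1),(5,1),(11,
  0)]⟩ ⟨0,[(1,0),(24,0)]⟩)) (.Q [0,0,0,0,1,0,1,0,-1,0,1,-1] (.p true [0,0,1] [0,0,0,0,1] (⟨0,[(26,
  0)]⟩,⟨0,[(25,0)]⟩) .k 2 (⟨0,[(19,0)]⟩,⟨0,[(18,0)]⟩) .k (.r (-1) ⟨3,[(11,1),(1,1),(2,0),(0,0),(3,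
  1),(5,1),(1,0)]⟩ ⟨0,[(5,0)]⟩)) (.K ⟨0,[0,0,0,0,1],(-1),(-1),(⟨0,[(20,0)]⟩,⟨0,[(19,0)]⟩),.k,(.r
  (-1) ⟨2,[(10,0),(6,0),(0,0)]⟩ ⟨1,[(24,0),(0,0),(2,1)]⟩),(.r 0 ⟨1,[(24,0),(0,0),(2,1)]⟩ ⟨14,[(10,
  4),(6,1),(0,1),(27,2),(1,5)]⟩),.k,.k,[⟨0,[(0,0)]⟩,⟨1,[(1,1),(3,0),(15,0),(6,0),(5,1),(1,3)]⟩,⟨0,
  [(17,0),(30,0)]⟩,⟨0,[(1,0),(19,0),(12,0),(1,0)]⟩]⟩) (.R ⟨0,false,false,false,[0,0,0,0,1],[0,1],[],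
  (⟨0,[(20,0)]⟩,⟨0,[(19,0)]⟩),(⟨0,[(32,0)]⟩,⟨0,[(31,0)]⟩),⟨0,[(2,0)]⟩,.k,.k,(.r (-1) ⟨2,[(10,0),(6,
  0),(0,0)]⟩ ⟨1,[(24,0),(0,0),(2,1)]⟩),(.r (-1) ⟨2,[(10,0),(6,0),(0,0)]⟩ ⟨1,[(24,0),(0,0),(2,1)]⟩),
  .k,.k,⟨true,1,⟨2,[(10,0),(6,0),(0,0)]⟩,⟨0,[(28,0),(5,0),(1,1)]⟩⟩,⟨false,2,⟨0,[(17,0),(27,0)]⟩,⟨0,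
  [(0,0),(23,0)]⟩⟩,⟨false,1,⟨4,[(17,1),(0,1),(27,2),(1,0)]⟩,⟨0,[]⟩⟩,⟨true,1,⟨0,[(17,0),(10,0)]⟩,⟨1,
  [(0,0),(0,0),(11,0),(20,0)]⟩⟩,⟨false,0,⟨0,[]⟩,⟨0,[]⟩⟩,⟨false,0,⟨0,[]⟩,⟨0,[]⟩⟩,[.a ⟨true,0,⟨0,[(44,
  0)]⟩,⟨5,[(13,2),(3,0),(0,0),(10,0),(1,0),(7,0)]⟩⟩ ⟨false,1,⟨1,[(17,0),(0,0),(26,0)]⟩,⟨0,[]⟩⟩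
  ⟨true,1,⟨0,[(17,0),(10,0)]⟩,⟨2,[(0,2),(2,0),(5,0),(14,1),(11,0)]⟩⟩,.o ⟨false,1,⟨1,[(28,1),(11,0),
  (5,0)]⟩,⟨0,[(43,0)]⟩⟩,.o ⟨false,0,⟨2,[(0,0),(0,0),(16,0),(21,0)]⟩,⟨0,[(17,0)]⟩⟩,.e ⟨false,1,⟨1,
  [(45,0),(0,0)]⟩,⟨1,[(24,0),(0,0)]⟩⟩ ⟨false,2,⟨1,[(17,1),(10,1),(16,0),(0,0)]⟩,⟨2,[(0,2),(2,0),(5,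
  0),(14,1),(11,0)]⟩⟩]⟩)) (.Q [1,0,0,-1,0,0,0,0,1,0,0,1] (.p true [0,0,0,0,1] [] (⟨0,[(19,0)]⟩,⟨0,
  [(18,0)]⟩) .k 0 (⟨0,[]⟩,⟨0,[]⟩) .k .k) (.Q [0,0,-1,1,1,0,0,0,-1,0,0,-1] (.p false [0,0,0,0,1] []
  (⟨0,[(20,0)]⟩,⟨0,[(19,0)]⟩) .k 0 (⟨0,[]⟩,⟨0,[]⟩) .k .k) (.Q [-1,0,0,2,0,0,0,0,-1,0,0,-1] (.p
  false [0,0,0,0,1] [] (⟨0,[(21,0)]⟩,⟨0,[(20,0)]⟩) .k 0 (⟨0,[]⟩,⟨0,[]⟩) .k .k) (.R ⟨1,true,false,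
  false,[1,-1],[1,0,0,0,-1],[0,1,-1,-1],(⟨0,[(33,0)]⟩,⟨0,[(34,0)]⟩),(⟨0,[(21,0)]⟩,⟨0,[(22,0)]⟩),⟨1,
  [(6,0),(10,0),(15,0)]⟩,.k,.k,(.r (-2) ⟨2,[(12,1),(6,1),(0,1)]⟩ ⟨0,[(0,0),(19,0),(15,0),(1,1)]⟩),
  (.r (-1) ⟨2,[(12,0),(6,0),(0,0)]⟩ ⟨7,[(0,3),(19,3),(5,2),(0,2),(21,1)]⟩),(.r (-2) ⟨2,[(12,1),(6,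
  1),(0,1)]⟩ ⟨2,[(0,1),(19,1),(9,1),(5,2),(1,5)]⟩),.k,⟨false,1,⟨7,[(1,0),(10,2),(7,0),(14,3),(11,
  0)]⟩,⟨1,[(0,0),(19,0),(17,1)]⟩⟩,⟨true,1,⟨17,[(0,11),(2,1),(1,1),(5,0),(0,5),(0,0),(5,3),(12,0)]⟩,
  ⟨0,[(2,0),(27,0),(5,0),(1,1)]⟩⟩,⟨true,0,⟨0,[(50,0)]⟩,⟨0,[]⟩⟩,⟨false,1,⟨1,[(0,0),(18,0),(28,0)]⟩,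
  ⟨0,[(2,0)]⟩⟩,⟨false,0,⟨0,[(46,0)]⟩,⟨23,[(10,5),(1,3),(0,5),(5,0),(0,0),(6,5),(20,8)]⟩⟩,⟨true,0,⟨0,
  [(0,0)]⟩,⟨0,[(2,0),(42,0)]⟩⟩,[]⟩) (.Q [0,0,0,0,0,0,0,0,-1,1,0,-1] (.p false [0,0,0,0,1] [1] (⟨0,
  [(22,0)]⟩,⟨0,[(21,0)]⟩) .k 1 (⟨0,[]⟩,⟨0,[]⟩) .k .k) (.R ⟨0,false,false,true,[0,0,0,0,1],[0,1],[1,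
  1,1],(⟨0,[(23,0)]⟩,⟨0,[(22,0)]⟩),(⟨0,[(35,0)]⟩,⟨0,[(34,0)]⟩),⟨0,[(5,0)]⟩,.k,.k,(.r (-1) ⟨2,[(13,
  0),(6,0),(0,0)]⟩ ⟨1,[(27,0),(0,0),(2,1)]⟩),(.r (-1) ⟨2,[(13,0),(6,0),(0,0)]⟩ ⟨1,[(27,0),(0,0),(2,
  1)]⟩),.k,.k,⟨false,1,⟨2,[(13,0),(6,0),(0,0)]⟩,⟨0,[(47,0)]⟩⟩,⟨true,1,⟨1,[(0,1),(32,0),(14,0)]⟩,⟨2,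
  [(1,0),(19,1),(9,1),(5,2),(1,5)]⟩⟩,⟨false,0,⟨1,[(27,0),(0,0)]⟩,⟨1,[(48,0),(0,0)]⟩⟩,⟨true,0,⟨2,[(0,
  1),(1,0),(28,1),(5,1),(1,0),(3,0)]⟩,⟨0,[(3,0)]⟩⟩,⟨false,0,⟨0,[]⟩,⟨0,[]⟩⟩,⟨false,0,⟨0,[]⟩,⟨0,[]⟩⟩,
  [.o ⟨false,0,⟨1,[(31,1),(5,0),(5,0)]⟩,⟨23,[(11,5),(1,3),(0,5),(5,0),(0,0),(6,5),(20,8)]⟩⟩,.e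
  ⟨false,0,⟨0,[]⟩,⟨5,[(2,2),(10,0),(6,0),(0,3)]⟩⟩ ⟨false,1,⟨0,[(2,0)]⟩,⟨2,[(1,1),(19,0),(9,0)]⟩⟩,.a
  ⟨true,0,⟨0,[(21,0)]⟩,⟨0,[(0,0)]⟩⟩ ⟨false,0,⟨1,[(27,0),(0,0)]⟩,⟨1,[(48,0),(0,0)]⟩⟩ ⟨true,0,⟨5,[(0,
  1),(1,3),(28,1),(5,4),(1,3),(3,0)]⟩,⟨2,[(1,1),(19,0),(9,0)]⟩⟩,.o ⟨false,0,⟨1,[(21,1),(15,0),(1,1),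
  (3,0)]⟩,⟨1,[(0,1),(32,0),(14,0)]⟩⟩]⟩) (.Q [0,0,1,0,-1,0,0,0,1,0,0,1] (.p true [0,0,0,0,1] [] (⟨0,
  [(23,0)]⟩,⟨0,[(22,0)]⟩) .k 0 (⟨0,[]⟩,⟨0,[]⟩) .k .k) (.K ⟨0,[0,0,0,0,1],(-1),(-1),(⟨0,[(24,0)]⟩,⟨0,
  [(23,0)]⟩),.k,(.r (-1) ⟨2,[(14,0),(6,0),(0,0)]⟩ ⟨1,[(28,0),(0,0),(2,1)]⟩),(.r 0 ⟨1,[(28,0),(0,0),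
  (2,1)]⟩ ⟨14,[(14,4),(6,1),(0,1),(27,2),(1,5)]⟩),.k,.k,[⟨2,[(3,2),(3,0),(5,0),(14,1),(11,0)]⟩,⟨0,
  [(0,0)]⟩,⟨0,[(21,0),(30,0)]⟩,⟨1,[(0,1),(37,0),(10,0)]⟩]⟩) (.R ⟨2,true,false,false,[0,1],[0,0,0,0,
  1],[1,0,1],(⟨0,[]⟩,⟨0,[]⟩),(⟨0,[(24,0)]⟩,⟨0,[(23,0)]⟩),⟨0,[]⟩,.k,.k,.k,(.r 0 ⟨1,[(28,0),(0,0),(2,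
  1)]⟩ ⟨2,[(14,0),(6,0),(0,0)]⟩),.k,.k,⟨true,0,⟨1,[(28,0),(0,0)]⟩,⟨0,[]⟩⟩,⟨false,0,⟨0,[(22,0)]⟩,⟨0,
  [(0,0)]⟩⟩,⟨false,1,⟨23,[(12,5),(1,3),(0,5),(5,0),(0,0),(6,5),(20,8)]⟩,⟨0,[(48,0)]⟩⟩,⟨true,0,⟨0,
  [(4,0)]⟩,⟨0,[(0,0),(31,0),(5,0),(1,0)]⟩⟩,⟨true,0,⟨0,[]⟩,⟨0,[(52,0)]⟩⟩,⟨false,0,⟨1,[(1,1),(41,0),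
  (6,0)]⟩,⟨1,[(0,0),(20,0),(29,0)]⟩⟩,[]⟩)))) (.R ⟨0,false,false,false,[0,0,0,0,1],[0,1],[],(⟨0,[(21,
  0)]⟩,⟨0,[(20,0)]⟩),(⟨0,[(33,0)]⟩,⟨0,[(32,0)]⟩),⟨0,[(3,0)]⟩,.k,.k,(.r (-1) ⟨2,[(11,0),(6,0),(0,
  0)]⟩ ⟨1,[(25,0),(0,0),(2,1)]⟩),(.r (-1) ⟨2,[(11,0),(6,0),(0,0)]⟩ ⟨1,[(25,0),(0,0),(2,1)]⟩),.k,.k,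
  ⟨true,1,⟨2,[(11,0),(6,0),(0,0)]⟩,⟨0,[(29,0),(5,0),(1,1)]⟩⟩,⟨false,2,⟨0,[(18,0),(27,0)]⟩,⟨0,[(0,0),
  (28,0)]⟩⟩,⟨false,1,⟨4,[(18,1),(0,1),(27,2),(1,0)]⟩,⟨0,[]⟩⟩,⟨true,1,⟨0,[(18,0),(10,0)]⟩,⟨1,[(0,1),
  (34,0),(10,0)]⟩⟩,⟨false,0,⟨0,[]⟩,⟨0,[]⟩⟩,⟨false,0,⟨0,[]⟩,⟨0,[]⟩⟩,[.a ⟨true,0,⟨0,[(45,0)]⟩,⟨5,[(14,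
  2),(3,0),(0,0),(10,0),(1,0),(7,0)]⟩⟩ ⟨false,1,⟨1,[(18,0),(0,0),(26,0)]⟩,⟨0,[]⟩⟩ ⟨true,1,⟨0,[(18,
  0),(10,0)]⟩,⟨0,[(0,0)]⟩⟩,.o ⟨false,1,⟨1,[(29,1),(11,0),(5,0)]⟩,⟨0,[(44,0)]⟩⟩,.o ⟨false,0,⟨1,[(0,
  1),(28,1),(11,0),(4,0)]⟩,⟨0,[(18,0)]⟩⟩,.e ⟨false,1,⟨1,[(46,0),(0,0)]⟩,⟨1,[(25,0),(0,0)]⟩⟩ ⟨false,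
  2,⟨1,[(18,1),(10,1),(16,0),(0,0)]⟩,⟨0,[(0,0)]⟩⟩]⟩)) (.R ⟨2,true,false,true,[0,1],[0,0,0,0,1],[2,
  1],(⟨0,[]⟩,⟨0,[]⟩),(⟨0,[(20,0)]⟩,⟨0,[(19,0)]⟩),⟨0,[]⟩,.k,.k,.k,(.r 0 ⟨1,[(24,0),(0,0),(2,1)]⟩ ⟨2,
  [(10,0),(6,0),(0,0)]⟩),.k,.k,⟨true,0,⟨0,[]⟩,⟨1,[(24,0),(0,0)]⟩⟩,⟨false,0,⟨0,[(18,0)]⟩,⟨4,[(0,2),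
  (9,0),(6,1),(27,0)]⟩⟩,⟨false,1,⟨2,[(10,0),(6,0),(0,0)]⟩,⟨0,[(28,0),(7,0)]⟩⟩,⟨true,0,⟨0,[(18,0),
  (24,0)]⟩,⟨0,[(0,0)]⟩⟩,⟨true,0,⟨1,[(34,0),(10,0)]⟩,⟨0,[(47,0)]⟩⟩,⟨false,0,⟨0,[(18,0)]⟩,⟨11,[(0,5),
  (0,1),(1,1),(7,1),(5,3),(22,0),(5,4)]⟩⟩,[]⟩))))))

theorem ok21 : chk K t21 l15 = true := by decide +kernel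

noncomputable def t22 : Tre :=
  (.Q [0,0,0,0,0,2,0,0,0,0,-1] (.p false [0,0,1] [] (⟨0,[(22,0)]⟩,⟨0,[(21,0)]⟩) .k 0 (⟨0,[]⟩,⟨0,
  []⟩) .k .k) (.R ⟨0,false,false,true,[0,-1,1],[1,-1],[],(⟨0,[(12,0)]⟩,⟨4,[(0,1),(12,0),(0,0),(7,2),
  (2,0),(9,0)]⟩),(⟨0,[(27,0)]⟩,⟨0,[(28,0)]⟩),⟨0,[(0,0)]⟩,.k,.k,(.r (-2) ⟨3,[(6,1),(1,1),(1,1),(7,1),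
  (17,0),(4,0)]⟩ ⟨0,[(1,0),(1,0),(20,0),(5,0),(1,0)]⟩),.k,.k,.k,⟨true,0,⟨0,[(24,0),(7,0)]⟩,⟨0,[(39,
  0)]⟩⟩,⟨false,0,⟨0,[(17,0)]⟩,⟨1,[(20,1),(15,0),(4,0)]⟩⟩,⟨false,0,⟨0,[(1,0),(1,0)]⟩,⟨1,[(7,0),(9,1),
  (0,0),(17,0)]⟩⟩,⟨true,(-1),⟨0,[(2,0),(14,0),(12,0),(1,0)]⟩,⟨1,[(8,0),(9,0),(5,0),(11,0)]⟩⟩,⟨false,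
  0,⟨0,[]⟩,⟨0,[]⟩⟩,⟨false,0,⟨0,[]⟩,⟨0,[]⟩⟩,[.o ⟨false,0,⟨0,[(39,0)]⟩,⟨1,[(24,1),(11,0),(5,0)]⟩⟩,.e
  ⟨false,1,⟨1,[(41,0),(0,0)]⟩,⟨0,[(44,0)]⟩⟩ ⟨false,1,⟨17,[(6,5),(3,8),(2,0),(0,0),(10,0),(1,0),(7,
  3),(5,8)]⟩,⟨0,[(1,0)]⟩⟩,.a ⟨true,0,⟨0,[(20,0)]⟩,⟨0,[(17,0)]⟩⟩ ⟨false,1,⟨1,[(13,0),(0,0),(27,0)]⟩,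
  ⟨0,[]⟩⟩ ⟨true,0,⟨15,[(6,1),(2,4),(0,4),(6,5),(11,3),(0,3)]⟩,⟨0,[(1,0)]⟩⟩,.o ⟨false,0,⟨9,[(1,7),(2,
  3),(0,3),(15,1),(8,0),(1,5),(3,0)]⟩,⟨1,[(17,1),(18,0),(4,0)]⟩⟩]⟩) (.Q [0,0,1,0,-1,0,-1,0,0,1,-1]
  (.p false [0,0,1] [1] (⟨0,[(23,0)]⟩,⟨0,[(22,0)]⟩) .k 1 (⟨0,[]⟩,⟨0,[]⟩) .k .k) (.I [0,0,0,1,0,0,0,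
  1] (.S ⟨1,0,[0,1,0,0,0,0,0,-1],[1,0,-1],[],(⟨0,[(24,0)]⟩,⟨0,[(25,0)]⟩),⟨0,[(13,0)]⟩,.k,.k,⟨false,
  1,⟨7,[(0,3),(9,3),(1,1),(2,0),(0,0),(21,0),(5,1)]⟩,⟨0,[(4,0)]⟩⟩,⟨true,0,⟨0,[(46,0)]⟩,⟨0,[]⟩⟩,
  ⟨true,0,⟨0,[(0,0)]⟩,⟨0,[(4,0),(36,0)]⟩⟩,⟨false,0,⟨0,[(42,0)]⟩,⟨23,[(6,5),(1,3),(0,5),(5,0),(0,0),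
  (6,5),(20,8)]⟩⟩,[.e ⟨false,1,⟨1,[(15,0),(0,0),(26,0)]⟩,⟨0,[]⟩⟩ ⟨false,0,⟨1,[(4,1),(27,0),(10,0)]⟩,
  ⟨7,[(0,3),(9,3),(1,1),(2,0),(0,0),(21,0),(5,1)]⟩⟩,.o ⟨false,0,⟨1,[(5,1),(26,0),(5,0)]⟩,⟨9,[(0,1),
  (2,1),(6,3),(4,0),(0,0),(3,3),(17,3),(4,0)]⟩⟩,.o ⟨false,0,⟨1,[(1,0),(17,0),(18,0)]⟩,⟨1,[(22,1),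
  (15,0),(4,0)]⟩⟩,.a ⟨true,(-1),⟨0,[(1,0)]⟩,⟨0,[(22,0),(20,0)]⟩⟩ ⟨false,1,⟨1,[(43,0),(0,0)]⟩,⟨1,
  [(22,0),(0,0)]⟩⟩ ⟨true,0,⟨1,[(4,1),(27,0),(10,0)]⟩,⟨7,[(0,3),(0,1),(1,1),(3,0),(1,1),(10,0),(2,
  3)]⟩⟩]⟩) (.Q [0,0,0,0,-1,0,-2,-2,0,1,-2] (.p false [0,0,1] [1,0,-1] (⟨0,[(25,0)]⟩,⟨0,[(24,0)]⟩)
  .k 2 (⟨0,[(24,0)]⟩,⟨0,[(25,0)]⟩) .k (.r (-1) ⟨0,[(1,0),(8,0),(8,0),(0,0),(5,0),(11,0)]⟩ ⟨0,[(4,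
  1)]⟩)) (.I [0,0,-2,-2,1,0,0,-1] (.R ⟨0,false,false,false,[1,-1,-1],[0,-1,1],[],(⟨0,[(15,0)]⟩,⟨22,
  [(17,2),(0,2),(8,22),(1,4),(8,5),(0,2)]⟩),(⟨0,[(16,0)]⟩,⟨22,[(17,2),(0,2),(7,22),(2,4),(8,5),(0,
  2)]⟩),⟨2,[(4,0),(11,1),(12,0),(8,2)]⟩,.k,.k,(.r (-1) ⟨0,[(0,0)]⟩ ⟨0,[(22,0),(2,0),(2,1),(7,0)]⟩),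
  .k,.k,.k,⟨false,0,⟨0,[(6,0),(21,0)]⟩,⟨1,[(11,0),(9,1),(0,0),(17,0)]⟩⟩,⟨true,1,⟨4,[(0,1),(4,4),(6,
  0),(9,0),(1,2),(20,1)]⟩,⟨1,[(3,2),(17,0),(18,0)]⟩⟩,⟨true,0,⟨1,[(3,1),(8,0),(9,0),(5,2),(11,0)]⟩,
  ⟨1,[(0,0),(5,0),(27,0)]⟩⟩,⟨false,2,⟨1,[(12,2),(9,0),(5,2),(11,0)]⟩,⟨0,[(1,0)]⟩⟩,⟨false,0,⟨0,[]⟩,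
  ⟨0,[]⟩⟩,⟨false,0,⟨0,[]⟩,⟨0,[]⟩⟩,[.o ⟨false,1,⟨1,[(11,0),(10,0),(17,0)]⟩,⟨5,[(1,1),(21,1),(4,5),
  (11,0),(5,0)]⟩⟩,.a ⟨true,1,⟨0,[(12,0)]⟩,⟨2,[(1,0),(21,0),(4,2),(5,0),(4,0)]⟩⟩ ⟨false,1,⟨1,[(45,0),
  (0,0)]⟩,⟨0,[(48,0)]⟩⟩ ⟨true,2,⟨0,[(5,0),(5,0),(33,0)]⟩,⟨1,[(1,0),(1,1),(1,0),(19,0),(2,0),(5,
  0)]⟩⟩,.e ⟨false,1,⟨1,[(17,0),(0,0),(27,0)]⟩,⟨0,[]⟩⟩ ⟨false,2,⟨0,[(5,0),(5,0),(33,0)]⟩,⟨1,[(1,0),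
  (1,0),(21,0),(2,1)]⟩⟩,.o ⟨false,(-1),⟨1,[(3,1),(30,0),(1,1),(3,0)]⟩,⟨1,[(24,1),(15,0),(4,2)]⟩⟩]⟩)
  (.R ⟨1,true,false,true,[1,0,-1],[0,0,1],[1,0,0,-1,0,0,0,-1],(⟨0,[(26,0)]⟩,⟨0,[(27,0)]⟩),(⟨0,[(27,
  0)]⟩,⟨0,[(26,0)]⟩),⟨0,[(15,0)]⟩,.k,.k,.k,.k,(.r (-1) ⟨2,[(6,3),(1,1),(1,0),(34,0)]⟩ ⟨1,[(0,5),(0,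
  3),(3,1),(3,5),(30,0),(4,5),(0,2)]⟩),.k,⟨false,1,⟨1,[(2,1),(3,1),(38,0),(0,0)]⟩,⟨1,[(0,1),(8,0),
  (11,1),(0,0),(17,0),(4,0)]⟩⟩,⟨true,1,⟨27,[(5,37),(0,3),(2,1),(0,9),(0,1),(12,13),(14,4),(5,10)]⟩,
  ⟨1,[(3,2),(17,0),(8,0)]⟩⟩,⟨false,1,⟨23,[(8,5),(1,3),(0,5),(5,0),(0,0),(6,5),(20,8)]⟩,⟨0,[(44,
  0)]⟩⟩,⟨true,1,⟨1,[(12,0),(9,2),(5,0),(11,0)]⟩,⟨0,[(1,0)]⟩⟩,⟨true,0,⟨0,[]⟩,⟨0,[(48,0)]⟩⟩,⟨false,1,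
  ⟨1,[(0,1),(4,1),(3,0),(1,0),(33,2)]⟩,⟨21,[(1,20),(6,5),(1,3),(0,3),(1,0),(11,5),(20,8)]⟩⟩,[]⟩))
  (.Q [0,0,0,1,-1,0,-2,-2,0,1,-2] (.p false [0,0,1] [1,0,-1] (⟨0,[(26,0)]⟩,⟨0,[(25,0)]⟩) .k 2 (⟨0,
  [(25,0)]⟩,⟨0,[(26,0)]⟩) .k (.r (-1) ⟨0,[(0,0),(12,0)]⟩ ⟨0,[(5,1)]⟩)) (.R ⟨1,true,false,false,[0,0,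
  1],[1,0,-1],[0,1,0,0,0,0,0,1],(⟨0,[(27,0)]⟩,⟨0,[(26,0)]⟩),(⟨0,[(26,0)]⟩,⟨0,[(27,0)]⟩),⟨0,[(16,
  0)]⟩,.k,.k,.k,.k,(.x (-1) ⟨2,[(5,2),(4,0),(13,2),(1,5),(11,0),(1,0)]⟩ ⟨1,[(3,1),(0,3),(16,1),(16,
  1),(1,0),(4,0)]⟩),.k,⟨true,0,⟨1,[(1,1),(1,1),(17,1),(12,0),(5,0)]⟩,⟨0,[(6,1),(29,0)]⟩⟩,⟨false,0,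
  ⟨1,[(3,0),(17,2),(8,0)]⟩,⟨0,[(1,0),(4,1)]⟩⟩,⟨true,0,⟨0,[(48,0)]⟩,⟨0,[]⟩⟩,⟨false,0,⟨7,[(0,1),(1,1),
  (4,8),(6,0),(8,0),(16,1)]⟩,⟨0,[(1,0)]⟩⟩,⟨false,0,⟨0,[(44,0)]⟩,⟨23,[(8,5),(1,3),(0,5),(5,0),(0,0),
  (6,5),(20,8)]⟩⟩,⟨true,(-1),⟨0,[(0,0)]⟩,⟨0,[(1,0),(41,0)]⟩⟩,[]⟩) (.I [1,0,2,2,-1,0,0,1] (.Q [0,-1,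
  0,2,1,0,1,1,0,-1,1] (.p true [0,0,1] [1] (⟨0,[(28,0)]⟩,⟨0,[(27,0)]⟩) .k 1 (⟨0,[]⟩,⟨0,[]⟩) .k .k)
  (.R ⟨1,false,false,false,[1,0,-1],[0,1],[],(⟨0,[(28,0)]⟩,⟨0,[(29,0)]⟩),(⟨0,[(34,0)]⟩,⟨0,[(33,
  0)]⟩),⟨0,[(17,0)]⟩,.k,.k,.k,.k,(.x 1 ⟨10,[(1,0),(3,9),(4,1),(0,0),(6,7),(8,1),(1,2),(8,0),(1,9),
  (8,4)]⟩ ⟨29,[(0,11),(5,9),(0,17),(0,11),(3,13),(4,39),(17,5),(6,4),(4,14)]⟩),.k,⟨true,1,⟨2,[(12,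
  0),(6,0),(0,0)]⟩,⟨0,[(5,0),(1,0)]⟩⟩,⟨false,2,⟨4,[(0,3),(6,0),(0,3),(3,2),(22,1)]⟩,⟨0,[(5,0)]⟩⟩,
  ⟨false,1,⟨1,[(0,0),(12,0),(2,0)]⟩,⟨0,[(8,0)]⟩⟩,⟨true,1,⟨1,[(0,0),(2,0),(21,0)]⟩,⟨1,[(4,1),(0,1),
  (30,0),(10,0)]⟩⟩,⟨false,1,⟨17,[(0,11),(13,5),(1,8),(2,0),(0,0),(10,0),(1,0),(7,0)]⟩,⟨0,[(4,0)]⟩⟩,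
  ⟨false,1,⟨0,[(0,0)]⟩,⟨1,[(4,1),(10,0),(0,0)]⟩⟩,[.e ⟨false,1,⟨1,[(19,0),(0,0),(26,0)]⟩,⟨0,[]⟩⟩
  ⟨false,1,⟨0,[(7,0),(39,0)]⟩,⟨1,[(15,0),(0,0)]⟩⟩,.o ⟨false,1,⟨1,[(0,0),(8,0),(32,0)]⟩,⟨0,[(45,
  0)]⟩⟩,.o ⟨false,0,⟨1,[(5,0),(17,0),(18,0)]⟩,⟨42,[(0,7),(2,5),(3,22),(2,19),(1,12),(22,3),(6,2)]⟩⟩,
  .a ⟨true,(-1),⟨0,[(5,0)]⟩,⟨0,[(26,0),(20,0)]⟩⟩ ⟨false,1,⟨1,[(47,0),(0,0)]⟩,⟨1,[(26,0),(0,0)]⟩⟩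
  ⟨true,1,⟨0,[(7,0),(39,0)]⟩,⟨0,[(5,0),(39,0)]⟩⟩]⟩) (.I [0,0,-2,0,2,-2,1,0,-1] (.Q [0,0,0,0,0,-1,0,
  0,0,0,0,1] (.ed false [1,-1,0,0,1] .k) (.Q [-1,0,0,0,0,0,0,0,-1,1,0,-1] (.p false [0,0,0,0,1] [1]
  (⟨0,[(24,0)]⟩,⟨0,[(23,0)]⟩) .k 1 (⟨0,[]⟩,⟨0,[]⟩) .k .k) (.S ⟨1,0,[1,1],[0,0,0,0,1],[],(⟨0,[(25,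
  0)]⟩,⟨0,[(24,0)]⟩),⟨0,[(1,0)]⟩,.k,(.r (-1) ⟨2,[(15,0),(6,0),(0,0)]⟩ ⟨9,[(4,2),(8,2),(8,2),(0,2),
  (9,3),(18,0)]⟩),⟨false,1,⟨4,[(22,1),(0,1),(27,2),(1,0)]⟩,⟨0,[]⟩⟩,⟨true,0,⟨0,[(53,0)]⟩,⟨0,[]⟩⟩,
  ⟨true,0,⟨0,[(33,0)]⟩,⟨0,[(48,0)]⟩⟩,⟨false,0,⟨0,[(49,0)]⟩,⟨23,[(13,5),(1,3),(0,5),(5,0),(0,0),(6,
  5),(20,8)]⟩⟩,[.o ⟨false,0,⟨1,[(23,1),(15,0),(5,0)]⟩,⟨1,[(0,1),(34,0),(15,0)]⟩⟩,.a ⟨true,0,⟨0,[(23,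
  0)]⟩,⟨0,[(0,0)]⟩⟩ ⟨false,1,⟨1,[(50,0),(0,0)]⟩,⟨0,[(53,0)]⟩⟩ ⟨true,0,⟨0,[]⟩,⟨1,[(29,0),(0,0)]⟩⟩,.e
  ⟨false,1,⟨1,[(22,0),(0,0),(27,0)]⟩,⟨0,[]⟩⟩ ⟨false,0,⟨0,[]⟩,⟨1,[(22,0),(0,0),(27,0)]⟩⟩,.o ⟨false,0,
  ⟨1,[(23,1),(15,0),(1,1),(3,0)]⟩,⟨1,[(0,1),(34,0),(14,0)]⟩⟩]⟩) (.Q [-1,-1,1,0,0,0,-1,0,-1,1,-1,-1]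
  (.p false [0,0,1] [1,0,0,0,-1] (⟨0,[(32,0)]⟩,⟨0,[(31,0)]⟩) .k 2 (⟨0,[(24,0)]⟩,⟨0,[(25,0)]⟩) .k
  (.r (-1) ⟨1,[(6,0),(12,0),(2,0),(0,0)]⟩ ⟨0,[(3,1),(0,0),(5,1),(39,1),(0,0)]⟩)) (.Q [-1,1,1,0,-1,0,
  -1,0,-1,1,-1,-1] (.p false [0,0,1] [1,0,0,0,-1] (⟨0,[(33,0)]⟩,⟨0,[(32,0)]⟩) .k 2 (⟨0,[(25,0)]⟩,⟨0,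
  [(26,0)]⟩) .k (.r (-1) ⟨1,[(7,0),(12,0),(2,0),(0,0)]⟩ ⟨0,[(4,1),(0,0),(5,1),(39,1),(0,0)]⟩)) (.R
  ⟨0,false,false,false,[1,-1,-1],[0,0,0,0,1],[],(⟨0,[(22,0)]⟩,⟨22,[(24,2),(0,2),(8,22),(1,4),(8,5),
  (0,2)]⟩),(⟨0,[(27,0)]⟩,⟨0,[(26,0)]⟩),⟨2,[(11,0),(11,1),(12,0),(8,2)]⟩,.k,.k,(.x 1 ⟨2,[(5,0),(0,0),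
  (3,0),(21,0),(1,2),(8,0),(1,1),(8,0)]⟩ ⟨0,[(2,0),(1,0),(21,0)]⟩),(.r (-1) ⟨1,[(5,15),(0,9),(0,1),
  (4,11),(34,0),(4,16),(0,7)]⟩ ⟨3,[(6,1),(1,0),(12,0),(2,0),(0,0)]⟩),.k,.k,⟨false,1,⟨9,[(24,3),(0,
  3),(26,4),(0,0),(1,1)]⟩,⟨0,[]⟩⟩,⟨true,1,⟨1,[(2,0),(5,0),(4,1),(11,0),(26,0)]⟩,⟨0,[(0,0),(42,0)]⟩⟩,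
  ⟨true,0,⟨3,[(6,1),(1,0),(12,0),(2,0),(0,0)]⟩,⟨1,[(9,1),(31,0),(10,0)]⟩⟩,⟨false,1,⟨1,[(2,0),(5,0),
  (16,0),(9,1),(17,0)]⟩,⟨1,[(0,0),(0,0),(7,1),(42,0)]⟩⟩,⟨false,0,⟨0,[]⟩,⟨0,[]⟩⟩,⟨false,0,⟨0,[]⟩,⟨0,
  []⟩⟩,[.o ⟨false,0,⟨0,[(2,0)]⟩,⟨198,[(0,8),(0,8),(2,11),(2,1),(3,11),(0,1),(0,3),(10,168),(1,11),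
  (9,47),(10,12),(6,3)]⟩⟩,.e ⟨false,1,⟨1,[(52,0),(0,0)]⟩,⟨0,[(55,0)]⟩⟩ ⟨false,2,⟨1,[(2,0),(5,0),(4,
  1),(11,0),(26,1),(0,0)]⟩,⟨0,[(0,0)]⟩⟩,.a ⟨true,(-1),⟨0,[(10,0)]⟩,⟨0,[(31,0),(20,0)]⟩⟩ ⟨false,1,⟨1,
  [(24,0),(0,0),(27,0)]⟩,⟨0,[]⟩⟩ ⟨true,1,⟨1,[(2,0),(5,0),(4,1),(11,0),(26,0)]⟩,⟨0,[(0,0)]⟩⟩,.o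
  ⟨false,(-1),⟨1,[(5,0),(0,0),(3,0),(32,0),(3,0)]⟩,⟨6,[(8,1),(3,2),(2,3),(1,0),(29,0),(4,8)]⟩⟩]⟩)
  (.R ⟨0,false,false,false,[1,-1,-1],[0,0,0,0,1],[],(⟨0,[(22,0)]⟩,⟨22,[(24,2),(0,2),(8,22),(1,4),(8,
  5),(0,2)]⟩),(⟨0,[(27,0)]⟩,⟨0,[(26,0)]⟩),⟨2,[(11,0),(11,1),(12,0),(8,2)]⟩,.k,.k,(.x 1 ⟨2,[(5,0),(0,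
  0),(3,0),(21,0),(1,2),(8,0),(1,1),(8,0)]⟩ ⟨51,[(0,27),(3,27),(6,7),(9,1),(0,31),(3,27),(13,13),(6,
  16),(4,2)]⟩),(.r (-1) ⟨1,[(5,15),(0,9),(0,1),(4,11),(34,0),(4,16),(0,7)]⟩ ⟨3,[(6,1),(1,0),(12,0),
  (2,0),(0,0)]⟩),.k,.k,⟨false,1,⟨9,[(24,3),(0,3),(26,4),(0,0),(1,1)]⟩,⟨0,[]⟩⟩,⟨true,1,⟨8,[(0,7),(7,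
  0),(6,0),(9,0),(4,0),(9,1),(14,2)]⟩,⟨0,[(1,0),(39,0),(1,0)]⟩⟩,⟨true,0,⟨3,[(6,1),(1,0),(12,0),(2,
  0),(0,0)]⟩,⟨1,[(9,1),(31,0),(10,0)]⟩⟩,⟨false,1,⟨3,[(0,3),(5,1),(1,0),(12,0),(2,0),(0,0)]⟩,⟨1,[(1,
  1),(7,1),(31,0),(10,0)]⟩⟩,⟨false,0,⟨0,[]⟩,⟨0,[]⟩⟩,⟨false,0,⟨0,[]⟩,⟨0,[]⟩⟩,[.o ⟨false,0,⟨0,[(2,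
  0)]⟩,⟨161,[(1,15),(2,9),(6,9),(0,3),(0,1),(2,1),(7,135),(1,9),(9,39),(4,4),(5,10),(7,3)]⟩⟩,.a
  ⟨true,0,⟨0,[(0,0),(9,0)]⟩,⟨28,[(1,8),(2,5),(18,5),(0,13),(1,5),(4,2),(4,17),(4,18),(4,6)]⟩⟩
  ⟨false,1,⟨1,[(52,0),(0,0)]⟩,⟨0,[(55,0)]⟩⟩ ⟨true,1,⟨0,[(0,0)]⟩,⟨2,[(1,2),(4,0),(8,0),(25,1),(8,
  1)]⟩⟩,.e ⟨false,1,⟨1,[(24,0),(0,0),(27,0)]⟩,⟨0,[]⟩⟩ ⟨false,1,⟨0,[(0,0)]⟩,⟨0,[(1,0),(53,0)]⟩⟩,.o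
  ⟨false,(-1),⟨1,[(5,0),(0,0),(3,0),(32,0),(3,0)]⟩,⟨6,[(0,3),(11,2),(4,0),(6,3),(15,1),(11,
  3)]⟩⟩]⟩)) (.K ⟨0,[0,0,0,0,1],(-1),(-1),(⟨0,[(26,0)]⟩,⟨0,[(25,0)]⟩),.k,(.r (-1) ⟨2,[(16,0),(6,0),
  (0,0)]⟩ ⟨9,[(5,2),(8,2),(8,2),(0,2),(9,3),(18,0)]⟩),(.r 0 ⟨2,[(5,0),(8,0),(8,0),(0,0),(9,0)]⟩ ⟨14,
  [(16,4),(6,1),(0,1),(27,2),(1,5)]⟩),.k,.k,[⟨108,[(3,62),(0,37),(0,13),(0,11),(3,62),(0,59),(11,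
  45),(1,62),(9,26),(6,37),(1,74),(0,22)]⟩,⟨0,[(0,0),(3,0),(0,0),(46,0)]⟩,⟨0,[(23,0),(30,0)]⟩,⟨0,
  [(0,0),(8,0)]⟩]⟩))) (.Q [0,0,1,0,0,0,1,0,1,-1,1,1] (.p true [0,0,1] [1,0,0,0,-1] (⟨0,[(31,0)]⟩,⟨0,
  [(30,0)]⟩) .k 2 (⟨0,[(23,0)]⟩,⟨0,[(24,0)]⟩) .k (.r (-1) ⟨1,[(5,0),(12,0),(2,0),(0,0)]⟩ ⟨0,[(2,1),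
  (0,0),(5,1),(39,1),(0,0)]⟩)) (.Q [0,0,0,-1,0,0,0,0,1,0,0,1] (.p true [0,0,0,0,1] [] (⟨0,[(25,0)]⟩,
  ⟨0,[(24,0)]⟩) .k 0 (⟨0,[]⟩,⟨0,[]⟩) .k .k) (.Q [0,0,0,0,0,0,0,0,-1,1,0,-1] (.p false [0,0,0,0,1]
  [1] (⟨0,[(26,0)]⟩,⟨0,[(25,0)]⟩) .k 1 (⟨0,[]⟩,⟨0,[]⟩) .k .k) (.R ⟨0,false,false,true,[0,0,0,0,1],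
  [0,1],[1,1,1],(⟨0,[(27,0)]⟩,⟨0,[(26,0)]⟩),(⟨0,[(39,0)]⟩,⟨0,[(38,0)]⟩),⟨0,[(3,0)]⟩,.k,.k,(.r (-1)
  ⟨2,[(17,0),(6,0),(0,0)]⟩ ⟨9,[(6,2),(8,2),(8,2),(0,2),(9,3),(18,0)]⟩),(.r (-1) ⟨2,[(17,0),(6,0),(0,
  0)]⟩ ⟨9,[(6,2),(8,2),(8,2),(0,2),(9,3),(18,0)]⟩),.k,.k,⟨false,1,⟨2,[(17,0),(6,0),(0,0)]⟩,⟨0,[(51,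
  0)]⟩⟩,⟨true,1,⟨1,[(0,1),(36,0),(14,0)]⟩,⟨0,[(2,0),(7,0)]⟩⟩,⟨false,0,⟨1,[(31,0),(0,0)]⟩,⟨1,[(52,0),
  (0,0)]⟩⟩,⟨true,0,⟨1,[(0,1),(34,1),(1,0),(3,0)]⟩,⟨0,[(1,0)]⟩⟩,⟨false,0,⟨0,[]⟩,⟨0,[]⟩⟩,⟨false,0,⟨0,
  []⟩,⟨0,[]⟩⟩,[.o ⟨false,0,⟨1,[(35,1),(5,0),(5,0)]⟩,⟨23,[(15,5),(1,3),(0,5),(5,0),(0,0),(6,5),(20,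
  8)]⟩⟩,.e ⟨false,0,⟨0,[]⟩,⟨1,[(24,0),(0,0),(26,0)]⟩⟩ ⟨false,1,⟨1,[(0,1),(34,1),(11,0),(4,0)]⟩,⟨0,
  [(1,0)]⟩⟩,.a ⟨true,0,⟨0,[(25,0)]⟩,⟨0,[(0,0)]⟩⟩ ⟨false,0,⟨1,[(31,0),(0,0)]⟩,⟨1,[(52,0),(0,0)]⟩⟩
  ⟨true,0,⟨1,[(0,1),(34,1),(1,0),(3,0)]⟩,⟨0,[(1,0)]⟩⟩,.o ⟨false,0,⟨1,[(2,0),(7,0),(14,0),(21,0)]⟩,
  ⟨1,[(0,1),(36,0),(14,0)]⟩⟩]⟩) (.I [0,0,1,1,0,-1,1] (.I [0,1,1,-1,-1,0,0,-1] (.I [1,1,0,-2,-1,1,-1,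
  -1] (.C [(0,1),(2,1),(2,1),(0,1),(1,1),(39,0),(6,0)]) (.C [(0,0),(7,0),(5,0),(33,0)])) (.C [(0,0),
  (6,0),(6,0)])) (.C [(0,0),(12,0),(9,0)]))) (.R ⟨1,true,false,true,[1,0,0,0,-1],[0,1,1],[-1,1],(⟨0,
  [(25,0)]⟩,⟨0,[(26,0)]⟩),(⟨22,[(23,2),(0,2),(8,22),(1,4),(8,5),(0,2)]⟩,⟨0,[(21,0)]⟩),⟨1,[(2,0),(7,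
  0),(10,0),(3,0)]⟩,.k,.k,(.r (-1) ⟨14,[(16,4),(6,1),(0,1),(27,2),(1,5)]⟩ ⟨2,[(5,0),(8,0),(8,0),(0,
  0),(9,0)]⟩),(.r (-1) ⟨1,[(0,11),(0,11),(2,15),(0,9),(0,1),(39,0),(4,16),(0,7)]⟩ ⟨3,[(5,1),(1,0),
  (12,0),(2,0),(0,0)]⟩),(.r (-2) ⟨29,[(14,29),(1,19),(6,1),(0,1),(26,14),(0,2),(1,5)]⟩ ⟨0,[(5,0)]⟩),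
  .k,⟨false,1,⟨1,[(0,1),(0,1),(2,1),(46,2),(0,0)]⟩,⟨3,[(5,1),(1,0),(12,0),(2,0),(0,0)]⟩⟩,⟨true,1,⟨0,
  [(1,0),(49,0)]⟩,⟨5,[(0,3),(3,3),(0,2),(3,1),(7,0),(5,1),(7,0),(10,2)]⟩⟩,⟨true,0,⟨0,[(54,0)]⟩,⟨0,
  []⟩⟩,⟨false,1,⟨3,[(7,1),(15,0),(0,4),(9,3),(11,0)]⟩,⟨0,[(0,0),(3,0),(47,0)]⟩⟩,⟨false,0,⟨0,[(50,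
  0)]⟩,⟨23,[(14,5),(1,3),(0,5),(5,0),(0,0),(6,5),(20,8)]⟩⟩,⟨true,0,⟨1,[(1,1),(3,1),(34,0),(10,2)]⟩,
  ⟨83,[(0,51),(2,1),(0,96),(5,1),(6,12),(2,0),(2,29),(1,1),(9,7),(10,7),(5,41),(0,3)]⟩⟩,[]⟩)) (.Q
  [-1,0,0,1,0,0,0,0,-1,0,0,-1] (.p false [0,0,0,0,1] [] (⟨0,[(25,0)]⟩,⟨0,[(24,0)]⟩) .k 0 (⟨0,[]⟩,⟨0,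
  []⟩) .k .k) (.R ⟨2,true,false,false,[0,1],[0,0,0,0,1],[2],(⟨0,[]⟩,⟨0,[]⟩),(⟨0,[(26,0)]⟩,⟨0,[(25,
  0)]⟩),⟨0,[]⟩,.k,.k,.k,(.r 0 ⟨9,[(5,2),(8,2),(8,2),(0,2),(9,3),(18,0)]⟩ ⟨2,[(16,0),(6,0),(0,0)]⟩),
  .k,.k,⟨true,0,⟨0,[]⟩,⟨1,[(30,0),(0,0)]⟩⟩,⟨false,0,⟨0,[(24,0)]⟩,⟨4,[(0,2),(15,0),(6,1),(27,0)]⟩⟩,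
  ⟨true,1,⟨2,[(16,0),(6,0),(0,0)]⟩,⟨2,[(4,0),(0,0),(5,0),(22,1),(5,0)]⟩⟩,⟨false,1,⟨23,[(14,5),(1,3),
  (0,5),(5,0),(0,24),(6,5),(20,8)]⟩,⟨0,[(0,0)]⟩⟩,⟨false,1,⟨1,[(51,0),(0,0)]⟩,⟨0,[(53,0)]⟩⟩,⟨true,0,
  ⟨0,[(24,0)]⟩,⟨23,[(0,17),(3,1),(10,1),(7,5),(16,4),(5,0),(2,9)]⟩⟩,[]⟩) (.R ⟨1,true,false,false,[1,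
  -1],[1,0,0,0,-1],[0,1,-1,-1],(⟨0,[(37,0)]⟩,⟨0,[(38,0)]⟩),(⟨0,[(25,0)]⟩,⟨0,[(26,0)]⟩),⟨1,[(10,0),
  (10,0),(15,0)]⟩,.k,.k,(.r (-2) ⟨2,[(16,1),(6,1),(0,1)]⟩ ⟨0,[(5,0),(6,0)]⟩),(.r (-1) ⟨2,[(16,0),(6,
  0),(0,0)]⟩ ⟨9,[(5,2),(8,2),(8,2),(0,2),(9,3),(18,0)]⟩),(.r (-2) ⟨2,[(16,1),(6,1),(0,1)]⟩ ⟨0,[(4,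
  1),(0,1),(5,1),(39,1),(0,0)]⟩),.k,⟨false,1,⟨11,[(16,3),(6,0),(0,0),(14,5),(11,2)]⟩,⟨2,[(5,0),(5,
  0),(1,0),(38,0)]⟩⟩,⟨true,1,⟨2,[(1,0),(0,0),(0,0),(6,0),(12,0),(20,0)]⟩,⟨1,[(0,1),(3,0),(0,0),(5,
  0),(22,0),(7,0)]⟩⟩,⟨true,0,⟨0,[(54,0)]⟩,⟨0,[]⟩⟩,⟨false,1,⟨1,[(1,0),(9,0),(11,0),(10,0),(17,0)]⟩,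
  ⟨0,[(0,0)]⟩⟩,⟨false,0,⟨0,[(50,0)]⟩,⟨23,[(14,5),(1,3),(0,5),(5,0),(0,0),(6,5),(20,8)]⟩⟩,⟨true,0,⟨0,
  [(1,0),(9,0),(22,0)]⟩,⟨0,[(0,0),(48,0)]⟩⟩,[]⟩)))) (.I [1,0,-2,-2,1,0,0,-1] (.N [0,2,1] 1 ⟨0,[(3,
  0)]⟩ ⟨0,[(0,0)]⟩ (.x (-2) ⟨47,[(0,9),(4,13),(2,15),(0,19),(2,17),(6,63),(24,14),(4,56)]⟩ ⟨0,[(1,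
  0),(19,0),(2,0)]⟩)) (.Q [0,0,0,2,-1,0,-2,-2,0,1,-2] (.p false [0,0,1] [1,0,-1] (⟨0,[(31,0)]⟩,⟨0,
  [(30,0)]⟩) .k 2 (⟨0,[(30,0)]⟩,⟨0,[(31,0)]⟩) .k (.r (-1) ⟨0,[(5,0),(12,0)]⟩ ⟨0,[(10,1)]⟩)) (.R ⟨1,
  true,false,false,[0,0,1],[1,1,-1],[0,1,0,0,0,0,0,1],(⟨0,[(32,0)]⟩,⟨0,[(31,0)]⟩),(⟨22,[(22,2),(0,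
  2),(7,22),(2,4),(8,5),(0,2)]⟩,⟨0,[(21,0)]⟩),⟨0,[(21,0)]⟩,.k,.k,.k,(.r (-1) ⟨1,[(5,1),(2,0),(17,2),
  (8,0)]⟩ ⟨2,[(0,0),(9,0),(0,0),(1,2),(15,0),(20,0)]⟩),(.r (-2) ⟨4,[(5,3),(0,0),(8,1),(3,2),(6,3),
  (8,0)]⟩ ⟨12,[(0,8),(2,2),(6,13),(0,2),(1,1),(15,6),(11,2),(2,0)]⟩),.k,⟨false,1,⟨1,[(5,1),(20,3),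
  (12,0),(5,0)]⟩,⟨7,[(0,1),(9,3),(0,9),(1,1),(27,1),(2,0),(6,2)]⟩⟩,⟨true,0,⟨1,[(8,0),(17,2),(18,
  0)]⟩,⟨2,[(3,0),(6,3),(5,0),(12,1)]⟩⟩,⟨true,0,⟨0,[(53,0)]⟩,⟨0,[]⟩⟩,⟨false,0,⟨1,[(0,0),(11,0),(15,
  0),(22,0)]⟩,⟨0,[(5,0)]⟩⟩,⟨false,0,⟨0,[(49,0)]⟩,⟨23,[(13,5),(1,3),(0,5),(5,0),(0,0),(6,5),(20,
  8)]⟩⟩,⟨true,(-1),⟨0,[(0,0)]⟩,⟨0,[(5,0),(42,0)]⟩⟩,[]⟩) (.I [2,0,-2,-2,1,0,0,-1] (.I [0,0,2,0,-2,2,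
  -1,0,1] (.N [0,2,1,0,-1] 1 ⟨0,[(3,0)]⟩ ⟨0,[(1,0)]⟩ (.x (-3) ⟨47,[(1,9),(6,13),(2,15),(0,19),(2,
  17),(6,63),(1,47),(2,47),(19,14),(4,56)]⟩ ⟨0,[(0,0)]⟩)) (.Q [0,0,1,0,-1,0,0,0,1,0,0,1] (.p true
  [0,0,0,0,1] [] (⟨0,[(27,0)]⟩,⟨0,[(26,0)]⟩) .k 0 (⟨0,[]⟩,⟨0,[]⟩) .k .k) (.K ⟨0,[0,0,0,0,1],(-1),
  (-1),(⟨0,[(28,0)]⟩,⟨0,[(27,0)]⟩),.k,(.r (-1) ⟨2,[(18,0),(6,0),(0,0)]⟩ ⟨2,[(4,0),(11,0),(8,0),(0,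
  0),(9,0)]⟩),(.r 0 ⟨2,[(4,0),(11,0),(8,0),(0,0),(9,0)]⟩ ⟨14,[(18,4),(6,1),(0,1),(27,2),(1,5)]⟩),.k,
  .k,[⟨10,[(1,6),(1,0),(0,1),(1,3),(5,6),(0,5),(11,3),(1,6),(9,3),(6,3),(1,7),(0,1)]⟩,⟨0,[(0,0)]⟩,
  ⟨0,[(25,0),(30,0)]⟩,⟨1,[(0,1),(41,0),(10,0)]⟩]⟩) (.Q [0,0,0,0,0,1,0,0,0,0,0,-1] (.ed true [1,-1,0,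
  0,1] .k) (.Q [0,0,0,0,0,0,0,0,-1,1,0,-1] (.p false [0,0,0,0,1] [1] (⟨0,[(29,0)]⟩,⟨0,[(28,0)]⟩) .k
  1 (⟨0,[]⟩,⟨0,[]⟩) .k .k) (.R ⟨0,false,false,true,[0,0,0,0,1],[0,1],[1,1,1],(⟨0,[(30,0)]⟩,⟨0,[(29,
  0)]⟩),(⟨0,[(42,0)]⟩,⟨0,[(41,0)]⟩),⟨0,[(1,0)]⟩,.k,.k,(.r (-1) ⟨2,[(20,0),(6,0),(0,0)]⟩ ⟨2,[(6,0),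
  (11,0),(8,0),(0,0),(9,0)]⟩),(.r (-1) ⟨2,[(20,0),(6,0),(0,0)]⟩ ⟨2,[(6,0),(11,0),(8,0),(0,0),(9,
  0)]⟩),.k,.k,⟨false,1,⟨2,[(20,0),(6,0),(0,0)]⟩,⟨0,[(54,0)]⟩⟩,⟨true,1,⟨0,[(2,0)]⟩,⟨48,[(5,3),(0,17),
  (0,5),(0,25),(5,1),(0,23),(9,7),(2,42),(1,5),(15,25),(3,2)]⟩⟩,⟨false,0,⟨1,[(34,0),(0,0)]⟩,⟨1,[(55,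
  0),(0,0)]⟩⟩,⟨true,0,⟨5,[(0,1),(1,3),(3,1),(9,1),(21,1),(5,2),(5,0)]⟩,⟨23,[(4,5),(0,3),(1,5),(0,1),
  (5,1),(10,7),(2,17),(1,5),(19,2),(5,0)]⟩⟩,⟨false,0,⟨0,[]⟩,⟨0,[]⟩⟩,⟨false,0,⟨0,[]⟩,⟨0,[]⟩⟩,[.o
  ⟨false,0,⟨1,[(38,1),(5,0),(5,0)]⟩,⟨23,[(18,5),(1,3),(0,5),(5,0),(0,0),(6,5),(20,8)]⟩⟩,.e ⟨false,0,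
  ⟨0,[]⟩,⟨1,[(27,0),(0,0),(26,0)]⟩⟩ ⟨false,1,⟨0,[(2,0),(35,0)]⟩,⟨22,[(4,5),(0,3),(1,5),(0,1),(5,1),
  (10,7),(2,16),(1,5),(7,0),(11,2),(5,0)]⟩⟩,.a ⟨true,0,⟨0,[(28,0)]⟩,⟨0,[(0,0)]⟩⟩ ⟨false,0,⟨1,[(34,
  0),(0,0)]⟩,⟨1,[(55,0),(0,0)]⟩⟩ ⟨true,0,⟨1,[(2,1),(3,0),(9,0),(27,0)]⟩,⟨22,[(4,5),(0,3),(1,5),(0,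
  1),(5,1),(10,7),(2,16),(1,5),(7,0),(11,2),(5,0)]⟩⟩,.o ⟨false,0,⟨48,[(5,1),(0,8),(0,2),(0,12),(5,
  0),(0,11),(9,3),(2,45),(1,2),(15,12),(3,25)]⟩,⟨0,[(2,0)]⟩⟩]⟩) (.I [0,0,1,1,0,-1,1] (.I [0,1,1,-1,
  -1,0,0,-1] (.I [5,0,0,0,-1,6] (.I [1,1,0,-2,-1,1,-1,-1] (.C [(0,1),(3,1),(0,1),(1,1),(2,1),(42,0),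
  (6,0)]) (.C [(0,0),(11,0),(5,0),(33,0)])) (.C [(0,0),(50,1),(0,0)])) (.C [(0,0),(9,0),(6,0)]))
  (.C [(0,0),(15,0),(9,0)]))) (.Q [1,-1,0,0,0,0,0,0,1,0,0,1] (.p true [0,0,0,0,1] [] (⟨0,[(29,0)]⟩,
  ⟨0,[(28,0)]⟩) .k 0 (⟨0,[]⟩,⟨0,[]⟩) .k .k) (.R ⟨2,true,false,false,[0,1],[0,0,0,0,1],[1,1],(⟨0,[]⟩,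
  ⟨0,[]⟩),(⟨0,[(30,0)]⟩,⟨0,[(29,0)]⟩),⟨0,[]⟩,.k,.k,.k,(.r 0 ⟨2,[(6,0),(11,0),(8,0),(0,0),(9,0)]⟩ ⟨2,
  [(20,0),(6,0),(0,0)]⟩),.k,.k,⟨true,0,⟨0,[(58,0)]⟩,⟨0,[(52,0)]⟩⟩,⟨false,0,⟨0,[(28,0)]⟩,⟨0,[(2,
  0)]⟩⟩,⟨false,1,⟨2,[(20,0),(6,0),(0,0)]⟩,⟨2,[(6,0),(8,0),(1,0),(38,0)]⟩⟩,⟨true,0,⟨9,[(0,1),(4,0),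
  (2,2),(12,0),(6,7),(21,0)]⟩,⟨4,[(2,4),(3,1),(1,0),(6,0),(0,0),(21,1),(5,1)]⟩⟩,⟨true,0,⟨0,[(47,
  0)]⟩,⟨1,[(34,0),(0,0)]⟩⟩,⟨false,0,⟨0,[(0,0)]⟩,⟨1,[(2,0),(24,0),(29,0)]⟩⟩,[]⟩) (.R ⟨1,false,false,
  true,[0,0,0,0,1],[0,1],[1,1,1],(⟨0,[(30,0)]⟩,⟨0,[(29,0)]⟩),(⟨0,[(42,0)]⟩,⟨0,[(41,0)]⟩),⟨0,[(1,
  0)]⟩,.k,.k,(.r (-1) ⟨2,[(20,0),(6,0),(0,0)]⟩ ⟨2,[(6,0),(11,0),(8,0),(0,0),(9,0)]⟩),(.r (-1) ⟨2,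
  [(20,0),(6,0),(0,0)]⟩ ⟨2,[(6,0),(11,0),(8,0),(0,0),(9,0)]⟩),(.r (-2) ⟨2,[(20,1),(6,1),(0,1)]⟩ ⟨0,
  [(6,0),(9,0)]⟩),.k,⟨false,1,⟨2,[(20,0),(6,0),(0,0)]⟩,⟨0,[(54,0)]⟩⟩,⟨true,1,⟨0,[(2,0)]⟩,⟨24,[(1,1),
  (3,1),(0,9),(0,1),(0,13),(6,11),(9,1),(2,22),(17,13),(3,0)]⟩⟩,⟨false,0,⟨1,[(34,0),(0,0)]⟩,⟨1,[(55,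
  0),(0,0)]⟩⟩,⟨true,0,⟨0,[(0,0),(37,0)]⟩,⟨11,[(1,1),(2,1),(0,1),(1,1),(0,1),(16,1),(2,9),(21,0),(5,
  0)]⟩⟩,⟨true,(-1),⟨1,[(6,0),(9,0),(27,0)]⟩,⟨2,[(20,0),(6,0),(0,0)]⟩⟩,⟨true,0,⟨0,[(0,0),(37,1)]⟩,⟨5,
  [(1,1),(2,1),(0,1),(1,1),(0,1),(16,1),(2,3),(21,0),(5,0)]⟩⟩,[.o ⟨false,0,⟨1,[(38,1),(5,0),(5,0)]⟩,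
  ⟨23,[(18,5),(1,3),(0,5),(5,0),(0,0),(6,5),(20,8)]⟩⟩,.e ⟨false,0,⟨0,[]⟩,⟨1,[(27,0),(0,0),(26,0)]⟩⟩
  ⟨false,1,⟨0,[(2,0),(35,0)]⟩,⟨11,[(1,1),(2,1),(0,1),(1,1),(0,1),(16,1),(2,9),(21,0),(5,0)]⟩⟩,.a
  ⟨true,0,⟨0,[(28,0)]⟩,⟨1,[(0,1),(48,0),(6,0)]⟩⟩ ⟨false,0,⟨1,[(34,0),(0,0)]⟩,⟨1,[(55,0),(0,0)]⟩⟩
  ⟨true,0,⟨0,[(0,0),(37,0)]⟩,⟨11,[(1,1),(2,1),(0,1),(1,1),(0,1),(16,1),(2,9),(21,0),(5,0)]⟩⟩,.o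
  ⟨false,0,⟨24,[(1,0),(3,0),(0,4),(0,0),(0,6),(6,5),(9,0),(2,23),(17,6),(3,12)]⟩,⟨0,[(2,
  0)]⟩⟩]⟩))))) (.Q [0,0,0,0,0,1,0,0,0,0,0,-1] (.ed true [1,-1,0,0,1] .k) (.Q [0,0,-1,1,1,0,0,0,-1,0,
  0,-1] (.p false [0,0,0,0,1] [] (⟨0,[(27,0)]⟩,⟨0,[(26,0)]⟩) .k 0 (⟨0,[]⟩,⟨0,[]⟩) .k .k) (.Q [0,0,0,
  0,0,0,0,0,-1,1,0,-1] (.p false [0,0,0,0,1] [1] (⟨0,[(28,0)]⟩,⟨0,[(27,0)]⟩) .k 1 (⟨0,[]⟩,⟨0,[]⟩)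
  .k .k) (.R ⟨0,false,false,true,[0,0,0,0,1],[0,1],[1,1,1],(⟨0,[(29,0)]⟩,⟨0,[(28,0)]⟩),(⟨0,[(41,
  0)]⟩,⟨0,[(40,0)]⟩),⟨0,[(2,0)]⟩,.k,.k,(.r (-1) ⟨2,[(19,0),(6,0),(0,0)]⟩ ⟨7,[(1,0),(1,2),(13,2),(8,
  1),(0,2),(9,0)]⟩),(.r (-1) ⟨2,[(19,0),(6,0),(0,0)]⟩ ⟨7,[(1,0),(1,2),(13,2),(8,1),(0,2),(9,0)]⟩),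
  .k,.k,⟨false,1,⟨2,[(19,0),(6,0),(0,0)]⟩,⟨0,[(53,0)]⟩⟩,⟨true,1,⟨1,[(0,1),(38,0),(14,0)]⟩,⟨48,[(4,
  3),(0,17),(0,5),(0,25),(5,1),(0,23),(9,7),(2,42),(1,5),(15,25),(3,2)]⟩⟩,⟨false,0,⟨1,[(33,0),(0,
  0)]⟩,⟨1,[(54,0),(0,0)]⟩⟩,⟨true,0,⟨5,[(0,3),(0,1),(1,0),(11,0),(21,1),(5,2),(5,1)]⟩,⟨17,[(4,3),(1,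
  5),(0,1),(3,5),(1,1),(10,7),(2,11),(1,5),(19,2),(4,5),(0,0)]⟩⟩,⟨false,0,⟨0,[]⟩,⟨0,[]⟩⟩,⟨false,0,
  ⟨0,[]⟩,⟨0,[]⟩⟩,[.o ⟨false,0,⟨1,[(37,1),(5,0),(5,0)]⟩,⟨23,[(17,5),(1,3),(0,5),(5,0),(0,0),(6,5),
  (20,8)]⟩⟩,.e ⟨false,0,⟨0,[]⟩,⟨5,[(1,2),(17,0),(6,0),(0,3)]⟩⟩ ⟨false,1,⟨0,[(1,0)]⟩,⟨17,[(4,3),(1,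
  5),(0,1),(3,5),(1,1),(10,7),(2,11),(1,5),(19,2),(4,5),(0,0)]⟩⟩,.a ⟨true,0,⟨0,[(27,0)]⟩,⟨0,[(0,
  0)]⟩⟩ ⟨false,0,⟨1,[(33,0),(0,0)]⟩,⟨1,[(54,0),(0,0)]⟩⟩ ⟨true,0,⟨3,[(0,1),(0,1),(3,0),(9,0),(23,0),
  (3,1)]⟩,⟨17,[(4,3),(1,5),(0,1),(3,5),(1,1),(10,7),(2,11),(1,5),(19,2),(4,5),(0,0)]⟩⟩,.o ⟨false,0,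
  ⟨48,[(4,1),(0,8),(0,2),(0,12),(5,0),(0,11),(9,3),(2,45),(1,2),(15,12),(3,25)]⟩,⟨1,[(0,1),(38,0),
  (14,0)]⟩⟩]⟩) (.Q [0,0,1,0,-1,0,0,0,1,0,0,1] (.p true [0,0,0,0,1] [] (⟨0,[(29,0)]⟩,⟨0,[(28,0)]⟩)
  .k 0 (⟨0,[]⟩,⟨0,[]⟩) .k .k) (.K ⟨0,[0,0,0,0,1],(-1),(-1),(⟨0,[(30,0)]⟩,⟨0,[(29,0)]⟩),.k,(.r (-1)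
  ⟨2,[(20,0),(6,0),(0,0)]⟩ ⟨7,[(2,0),(1,2),(13,2),(8,1),(0,2),(9,0)]⟩),(.r 0 ⟨4,[(2,0),(3,1),(11,1),
  (8,0),(0,1)]⟩ ⟨14,[(20,4),(6,1),(0,1),(27,2),(1,5)]⟩),.k,.k,[⟨4,[(2,4),(2,0),(2,0),(3,0),(21,3),
  (11,0)]⟩,⟨0,[(0,0)]⟩,⟨0,[(27,0),(30,0)]⟩,⟨3,[(0,1),(0,1),(42,1),(4,0),(5,0)]⟩]⟩) (.R ⟨2,true,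
  false,false,[0,1],[0,0,0,0,1],[1,0,1],(⟨0,[]⟩,⟨0,[]⟩),(⟨0,[(30,0)]⟩,⟨0,[(29,0)]⟩),⟨0,[]⟩,.k,.k,.k,
  (.r 0 ⟨7,[(2,0),(1,2),(13,2),(8,1),(0,2),(9,0)]⟩ ⟨2,[(20,0),(6,0),(0,0)]⟩),.k,.k,⟨true,0,⟨1,[(34,
  0),(0,0)]⟩,⟨0,[]⟩⟩,⟨false,0,⟨0,[(28,0)]⟩,⟨0,[(0,0)]⟩⟩,⟨false,1,⟨23,[(18,5),(1,3),(0,5),(5,0),(0,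
  0),(6,5),(20,8)]⟩,⟨0,[(54,0)]⟩⟩,⟨true,0,⟨3,[(1,0),(6,0),(12,0),(6,2)]⟩,⟨1,[(0,1),(3,0),(11,0),(27,
  0)]⟩⟩,⟨true,0,⟨0,[]⟩,⟨0,[(58,0)]⟩⟩,⟨false,0,⟨1,[(1,1),(47,0),(6,0)]⟩,⟨1,[(0,0),(26,0),(29,0)]⟩⟩,
  []⟩))) (.R ⟨0,false,false,false,[0,0,0,0,1],[0,1],[],(⟨0,[(28,0)]⟩,⟨0,[(27,0)]⟩),(⟨0,[(40,0)]⟩,⟨0,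
  [(39,0)]⟩),⟨0,[(1,0)]⟩,.k,.k,(.r (-1) ⟨2,[(18,0),(6,0),(0,0)]⟩ ⟨2,[(4,0),(11,0),(8,0),(0,0),(9,
  0)]⟩),(.r (-1) ⟨2,[(18,0),(6,0),(0,0)]⟩ ⟨2,[(4,0),(11,0),(8,0),(0,0),(9,0)]⟩),.k,.k,⟨true,1,⟨2,
  [(18,0),(6,0),(0,0)]⟩,⟨2,[(4,1),(1,0),(6,0),(0,0),(29,0)]⟩⟩,⟨false,2,⟨0,[(25,0),(27,0)]⟩,⟨0,[(0,
  0),(35,0)]⟩⟩,⟨false,1,⟨4,[(25,1),(0,1),(27,2),(1,0)]⟩,⟨0,[]⟩⟩,⟨true,1,⟨0,[(25,0),(10,0)]⟩,⟨1,[(0,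
  1),(41,0),(10,0)]⟩⟩,⟨false,0,⟨0,[]⟩,⟨0,[]⟩⟩,⟨false,0,⟨0,[]⟩,⟨0,[]⟩⟩,[.a ⟨true,0,⟨0,[(52,0)]⟩,⟨5,
  [(21,2),(3,0),(0,0),(10,0),(1,0),(7,0)]⟩⟩ ⟨false,1,⟨1,[(25,0),(0,0),(26,0)]⟩,⟨0,[]⟩⟩ ⟨true,1,⟨0,
  [(25,0),(10,0)]⟩,⟨0,[(0,0)]⟩⟩,.o ⟨false,1,⟨1,[(36,1),(11,0),(5,0)]⟩,⟨0,[(51,0)]⟩⟩,.o ⟨false,0,⟨1,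
  [(0,1),(35,1),(11,0),(4,0)]⟩,⟨0,[(25,0)]⟩⟩,.e ⟨false,1,⟨1,[(53,0),(0,0)]⟩,⟨1,[(32,0),(0,0)]⟩⟩
  ⟨false,2,⟨1,[(25,1),(10,1),(16,0),(0,0)]⟩,⟨0,[(0,0)]⟩⟩]⟩)) (.Q [0,0,0,0,1,0,1,0,-1,0,1,-1] (.p
  true [0,0,1] [0,0,0,0,1] (⟨0,[(34,0)]⟩,⟨0,[(33,0)]⟩) .k 2 (⟨0,[(27,0)]⟩,⟨0,[(26,0)]⟩) .k (.r (-1)
  ⟨9,[(8,4),(12,4),(2,2),(0,2),(27,1),(1,3)]⟩ ⟨0,[(13,0)]⟩)) (.Q [0,0,1,0,-1,0,0,0,1,0,0,1] (.p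
  true [0,0,0,0,1] [] (⟨0,[(28,0)]⟩,⟨0,[(27,0)]⟩) .k 0 (⟨0,[]⟩,⟨0,[]⟩) .k .k) (.K ⟨0,[0,0,0,0,1],
  (-1),(-1),(⟨0,[(29,0)]⟩,⟨0,[(28,0)]⟩),.k,(.r (-1) ⟨2,[(19,0),(6,0),(0,0)]⟩ ⟨2,[(5,0),(11,0),(8,0),
  (0,0),(9,0)]⟩),(.r 0 ⟨2,[(5,0),(11,0),(8,0),(0,0),(9,0)]⟩ ⟨14,[(19,4),(6,1),(0,1),(27,2),(1,5)]⟩),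
  .k,.k,[⟨0,[(1,0)]⟩,⟨0,[(0,0)]⟩,⟨0,[(26,0),(30,0)]⟩,⟨1,[(0,1),(42,0),(10,0)]⟩]⟩) (.Q [1,-1,0,0,0,0,
  0,0,1,0,0,1] (.p true [0,0,0,0,1] [] (⟨0,[(29,0)]⟩,⟨0,[(28,0)]⟩) .k 0 (⟨0,[]⟩,⟨0,[]⟩) .k .k) (.R
  ⟨2,true,false,false,[0,1],[0,0,0,0,1],[1,1],(⟨0,[]⟩,⟨0,[]⟩),(⟨0,[(30,0)]⟩,⟨0,[(29,0)]⟩),⟨0,[]⟩,.k,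
  .k,.k,(.r 0 ⟨2,[(6,0),(11,0),(8,0),(0,0),(9,0)]⟩ ⟨2,[(20,0),(6,0),(0,0)]⟩),.k,.k,⟨true,0,⟨0,[(58,
  0)]⟩,⟨0,[(52,0)]⟩⟩,⟨false,0,⟨0,[(28,0)]⟩,⟨0,[(1,0)]⟩⟩,⟨false,1,⟨2,[(20,0),(6,0),(0,0)]⟩,⟨2,[(6,0),
  (8,0),(1,0),(38,0)]⟩⟩,⟨true,0,⟨9,[(0,1),(4,0),(2,2),(12,0),(6,7),(21,0)]⟩,⟨1,[(1,1),(2,0),(11,0),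
  (27,0)]⟩⟩,⟨true,0,⟨0,[(47,0)]⟩,⟨1,[(34,0),(0,0)]⟩⟩,⟨false,0,⟨0,[(0,0)]⟩,⟨1,[(1,0),(25,0),(29,
  0)]⟩⟩,[]⟩) (.R ⟨1,false,false,true,[0,0,0,0,1],[0,1],[1,1,1],(⟨0,[(30,0)]⟩,⟨0,[(29,0)]⟩),(⟨0,[(42,
  0)]⟩,⟨0,[(41,0)]⟩),⟨0,[(3,0)]⟩,.k,.k,(.r (-1) ⟨2,[(20,0),(6,0),(0,0)]⟩ ⟨2,[(6,0),(11,0),(8,0),(0,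
  0),(9,0)]⟩),(.r (-1) ⟨2,[(20,0),(6,0),(0,0)]⟩ ⟨2,[(6,0),(11,0),(8,0),(0,0),(9,0)]⟩),(.r (-2) ⟨2,
  [(20,1),(6,1),(0,1)]⟩ ⟨0,[(6,0),(9,0)]⟩),.k,⟨false,1,⟨2,[(20,0),(6,0),(0,0)]⟩,⟨0,[(54,0)]⟩⟩,⟨true,
  1,⟨0,[(1,0)]⟩,⟨24,[(3,1),(1,1),(0,9),(0,1),(0,13),(6,11),(9,1),(2,22),(17,13),(3,0)]⟩⟩,⟨false,0,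
  ⟨1,[(34,0),(0,0)]⟩,⟨1,[(55,0),(0,0)]⟩⟩,⟨true,0,⟨0,[(0,0),(37,0)]⟩,⟨13,[(3,3),(1,1),(1,3),(4,3),(7,
  1),(4,3),(2,9),(21,0),(4,0)]⟩⟩,⟨true,(-1),⟨1,[(6,0),(9,0),(27,0)]⟩,⟨2,[(20,0),(6,0),(0,0)]⟩⟩,
  ⟨true,0,⟨0,[(0,0),(37,1)]⟩,⟨6,[(3,3),(1,1),(1,3),(4,3),(7,1),(4,3),(2,2),(21,0),(4,0)]⟩⟩,[.o
  ⟨false,0,⟨1,[(38,1),(5,0),(5,0)]⟩,⟨23,[(18,5),(1,3),(0,5),(5,0),(0,0),(6,5),(20,8)]⟩⟩,.e ⟨false,0,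
  ⟨0,[]⟩,⟨1,[(27,0),(0,0),(26,0)]⟩⟩ ⟨false,1,⟨0,[(1,0),(36,0)]⟩,⟨13,[(3,3),(1,1),(1,3),(4,3),(7,1),
  (4,3),(2,9),(21,0),(4,0)]⟩⟩,.a ⟨true,0,⟨0,[(28,0)]⟩,⟨1,[(0,1),(48,0),(6,0)]⟩⟩ ⟨false,0,⟨1,[(34,0),
  (0,0)]⟩,⟨1,[(55,0),(0,0)]⟩⟩ ⟨true,0,⟨0,[(0,0),(37,0)]⟩,⟨13,[(3,3),(1,1),(1,3),(4,3),(7,1),(4,3),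
  (2,9),(21,0),(4,0)]⟩⟩,.o ⟨false,0,⟨24,[(3,0),(1,0),(0,4),(0,0),(0,6),(6,5),(9,0),(2,23),(17,6),(3,
  12)]⟩,⟨0,[(1,0)]⟩⟩]⟩))) (.R ⟨1,false,false,false,[0,0,0,0,1],[0,1],[],(⟨0,[(28,0)]⟩,⟨0,[(27,0)]⟩),
  (⟨0,[(40,0)]⟩,⟨0,[(39,0)]⟩),⟨0,[(1,0)]⟩,.k,.k,(.r (-1) ⟨2,[(18,0),(6,0),(0,0)]⟩ ⟨2,[(4,0),(11,0),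
  (8,0),(0,0),(9,0)]⟩),(.r (-1) ⟨2,[(18,0),(6,0),(0,0)]⟩ ⟨2,[(4,0),(11,0),(8,0),(0,0),(9,0)]⟩),(.r
  (-2) ⟨2,[(18,1),(6,1),(0,1)]⟩ ⟨0,[(4,0),(9,0)]⟩),.k,⟨true,1,⟨2,[(18,0),(6,0),(0,0)]⟩,⟨2,[(4,1),(1,
  0),(6,0),(0,0),(29,0)]⟩⟩,⟨false,2,⟨0,[(25,0),(27,0)]⟩,⟨0,[(0,0),(31,0)]⟩⟩,⟨false,1,⟨4,[(25,1),(0,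
  1),(27,2),(1,0)]⟩,⟨0,[]⟩⟩,⟨true,1,⟨0,[(25,0),(10,0)]⟩,⟨5,[(0,3),(2,1),(6,1),(3,1),(11,1),(15,2),
  (4,0)]⟩⟩,⟨true,0,⟨0,[(36,0)]⟩,⟨0,[(51,0)]⟩⟩,⟨true,1,⟨0,[(25,0),(10,1)]⟩,⟨9,[(0,7),(2,1),(6,7),(6,
  3),(8,1),(15,2),(4,0)]⟩⟩,[.a ⟨true,0,⟨0,[(52,0)]⟩,⟨5,[(21,2),(3,0),(0,0),(10,0),(1,0),(7,0)]⟩⟩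
  ⟨false,1,⟨1,[(25,0),(0,0),(26,0)]⟩,⟨0,[]⟩⟩ ⟨true,1,⟨0,[(25,0),(10,0)]⟩,⟨4,[(0,4),(2,0),(2,0),(3,
  0),(21,3),(11,0)]⟩⟩,.o ⟨false,1,⟨1,[(36,1),(11,0),(5,0)]⟩,⟨0,[(51,0)]⟩⟩,.o ⟨false,0,⟨4,[(0,2),(12,
  2),(4,0),(7,1),(21,0)]⟩,⟨0,[(25,0)]⟩⟩,.e ⟨false,1,⟨1,[(53,0),(0,0)]⟩,⟨1,[(32,0),(0,0)]⟩⟩ ⟨false,2,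
  ⟨1,[(25,1),(10,1),(16,0),(0,0)]⟩,⟨4,[(0,4),(2,0),(2,0),(3,0),(21,3),(11,0)]⟩⟩]⟩)))))))) (.Q [0,0,
  0,2,-1,0,-2,-2,0,1,-2] (.p false [0,0,1] [1,0,-1] (⟨0,[(28,0)]⟩,⟨0,[(27,0)]⟩) .k 2 (⟨0,[(27,0)]⟩,
  ⟨0,[(28,0)]⟩) .k (.r (-1) ⟨0,[(2,0),(12,0)]⟩ ⟨0,[(7,1)]⟩)) (.R ⟨1,true,false,false,[0,0,1],[1,1,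
  -1],[0,1,0,0,0,0,0,1],(⟨0,[(29,0)]⟩,⟨0,[(28,0)]⟩),(⟨22,[(19,2),(0,2),(7,22),(2,4),(8,5),(0,2)]⟩,
  ⟨0,[(18,0)]⟩),⟨0,[(18,0)]⟩,.k,.k,.k,(.r (-1) ⟨1,[(2,1),(2,0),(17,2),(8,0)]⟩ ⟨2,[(0,0),(6,0),(0,0),
  (1,2),(15,0),(20,0)]⟩),(.r (-2) ⟨4,[(2,3),(0,0),(8,1),(3,2),(6,3),(8,0)]⟩ ⟨3,[(0,2),(3,1),(0,0),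
  (1,3),(18,2)]⟩),.k,⟨false,1,⟨1,[(2,1),(20,3),(12,0),(5,0)]⟩,⟨2,[(0,0),(6,0),(0,3),(17,0),(11,0),
  (9,0)]⟩⟩,⟨true,0,⟨1,[(5,0),(17,2),(8,0)]⟩,⟨2,[(4,0),(2,2),(3,0),(14,1),(11,0)]⟩⟩,⟨true,0,⟨0,[(50,
  0)]⟩,⟨0,[]⟩⟩,⟨false,0,⟨1,[(0,0),(8,0),(15,0),(22,0)]⟩,⟨0,[(2,0)]⟩⟩,⟨false,0,⟨0,[(46,0)]⟩,⟨23,[(10,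
  5),(1,3),(0,5),(5,0),(0,0),(6,5),(20,8)]⟩⟩,⟨true,(-1),⟨0,[(0,0)]⟩,⟨0,[(2,0),(42,0)]⟩⟩,[]⟩) (.Q [0,
  0,1,0,-1,0,0,0,1,0,0,1] (.p true [0,0,0,0,1] [] (⟨0,[(22,0)]⟩,⟨0,[(21,0)]⟩) .k 0 (⟨0,[]⟩,⟨0,[]⟩)
  .k .k) (.Q [0,0,0,0,1,0,1,0,-1,0,1,-1] (.p true [0,0,1] [0,0,0,0,1] (⟨0,[(30,0)]⟩,⟨0,[(29,0)]⟩)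
  .k 2 (⟨0,[(23,0)]⟩,⟨0,[(22,0)]⟩) .k (.r (-1) ⟨9,[(4,4),(12,4),(2,2),(0,2),(27,1),(1,3)]⟩ ⟨0,[(9,
  0)]⟩)) (.K ⟨0,[0,0,0,0,1],(-1),(-1),(⟨0,[(24,0)]⟩,⟨0,[(23,0)]⟩),.k,(.r (-1) ⟨2,[(14,0),(6,0),(0,
  0)]⟩ ⟨1,[(28,0),(0,0),(2,1)]⟩),(.r 0 ⟨1,[(28,0),(0,0),(2,1)]⟩ ⟨14,[(14,4),(6,1),(0,1),(27,2),(1,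
  5)]⟩),.k,.k,[⟨0,[(0,0)]⟩,⟨0,[(1,0)]⟩,⟨0,[(21,0),(30,0)]⟩,⟨1,[(1,1),(36,0),(10,0)]⟩]⟩) (.Q [0,0,0,
  0,0,1,0,0,0,0,0,-1] (.ed true [1,-1,0,0,1] .k) (.R ⟨0,false,false,false,[0,0,0,0,1],[0,1],[],(⟨0,
  [(25,0)]⟩,⟨0,[(24,0)]⟩),(⟨0,[(37,0)]⟩,⟨0,[(36,0)]⟩),⟨0,[(0,0)]⟩,.k,.k,(.r (-1) ⟨2,[(15,0),(6,0),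
  (0,0)]⟩ ⟨1,[(29,0),(0,0),(2,1)]⟩),(.r (-1) ⟨2,[(15,0),(6,0),(0,0)]⟩ ⟨1,[(29,0),(0,0),(2,1)]⟩),.k,
  .k,⟨true,1,⟨2,[(15,0),(6,0),(0,0)]⟩,⟨0,[(8,0),(1,0)]⟩⟩,⟨false,2,⟨0,[(22,0),(27,0)]⟩,⟨0,[(2,0)]⟩⟩,
  ⟨false,1,⟨4,[(22,1),(0,1),(27,2),(1,0)]⟩,⟨0,[]⟩⟩,⟨true,1,⟨0,[(22,0),(10,0)]⟩,⟨19,[(1,5),(0,11),(0,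
  1),(0,5),(9,1),(8,1),(15,8),(4,0)]⟩⟩,⟨false,0,⟨0,[]⟩,⟨0,[]⟩⟩,⟨false,0,⟨0,[]⟩,⟨0,[]⟩⟩,[.a ⟨true,0,
  ⟨0,[(49,0)]⟩,⟨5,[(18,2),(3,0),(0,0),(10,0),(1,0),(7,0)]⟩⟩ ⟨false,1,⟨1,[(22,0),(0,0),(26,0)]⟩,⟨0,
  []⟩⟩ ⟨true,1,⟨0,[(22,0),(10,0)]⟩,⟨3,[(1,0),(0,2),(0,0),(3,1),(0,0)]⟩⟩,.o ⟨false,1,⟨1,[(33,1),(11,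
  0),(5,0)]⟩,⟨0,[(48,0)]⟩⟩,.o ⟨false,0,⟨10,[(1,5),(2,1),(1,0),(3,3),(12,4),(21,2)]⟩,⟨0,[(22,0)]⟩⟩,
  .e ⟨false,1,⟨1,[(50,0),(0,0)]⟩,⟨1,[(29,0),(0,0)]⟩⟩ ⟨false,2,⟨1,[(22,1),(10,1),(16,0),(0,0)]⟩,⟨3,
  [(1,0),(0,2),(0,0),(3,1),(0,0)]⟩⟩]⟩) (.R ⟨1,false,false,false,[0,0,0,0,1],[0,1],[],(⟨0,[(25,0)]⟩,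
  ⟨0,[(24,0)]⟩),(⟨0,[(37,0)]⟩,⟨0,[(36,0)]⟩),⟨0,[(0,0)]⟩,.k,.k,(.r (-1) ⟨2,[(15,0),(6,0),(0,0)]⟩ ⟨1,
  [(29,0),(0,0),(2,1)]⟩),(.r (-1) ⟨2,[(15,0),(6,0),(0,0)]⟩ ⟨1,[(29,0),(0,0),(2,1)]⟩),(.r (-2) ⟨2,
  [(15,1),(6,1),(0,1)]⟩ ⟨0,[(8,0),(1,0),(22,0)]⟩),.k,⟨true,1,⟨2,[(15,0),(6,0),(0,0)]⟩,⟨0,[(8,0),(1,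
  0)]⟩⟩,⟨false,2,⟨0,[(22,0),(27,0)]⟩,⟨0,[(2,0)]⟩⟩,⟨false,1,⟨4,[(22,1),(0,1),(27,2),(1,0)]⟩,⟨0,[]⟩⟩,
  ⟨true,1,⟨0,[(22,0),(10,0)]⟩,⟨19,[(1,5),(0,11),(0,1),(0,5),(9,1),(8,1),(15,8),(4,0)]⟩⟩,⟨true,0,⟨0,
  [(33,0)]⟩,⟨0,[(48,0)]⟩⟩,⟨true,1,⟨0,[(22,0),(10,1)]⟩,⟨4,[(1,2),(0,1),(1,0),(2,1),(6,2),(24,0)]⟩⟩,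
  [.a ⟨true,0,⟨0,[(49,0)]⟩,⟨5,[(18,2),(3,0),(0,0),(10,0),(1,0),(7,0)]⟩⟩ ⟨false,1,⟨1,[(22,0),(0,0),
  (26,0)]⟩,⟨0,[]⟩⟩ ⟨true,1,⟨0,[(22,0),(10,0)]⟩,⟨3,[(1,0),(0,2),(0,0),(3,1),(0,0)]⟩⟩,.o ⟨false,1,⟨1,
  [(33,1),(11,0),(5,0)]⟩,⟨0,[(48,0)]⟩⟩,.o ⟨false,0,⟨10,[(1,5),(2,1),(1,0),(3,3),(12,4),(21,2)]⟩,⟨0,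
  [(22,0)]⟩⟩,.e ⟨false,1,⟨1,[(50,0),(0,0)]⟩,⟨1,[(29,0),(0,0)]⟩⟩ ⟨false,2,⟨1,[(22,1),(10,1),(16,0),
  (0,0)]⟩,⟨3,[(1,0),(0,2),(0,0),(3,1),(0,0)]⟩⟩]⟩))) (.Q [1,0,0,-2,0,0,0,0,1,0,0,1] (.p true [0,0,0,
  0,1] [] (⟨0,[(23,0)]⟩,⟨0,[(22,0)]⟩) .k 0 (⟨0,[]⟩,⟨0,[]⟩) .k .k) (.Q [0,0,0,0,0,-1,0,0,0,0,0,1]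
  (.ed false [1,-1,0,0,1] .k) (.Q [0,0,0,0,0,0,0,0,-1,1,0,-1] (.p false [0,0,0,0,1] [1] (⟨0,[(25,
  0)]⟩,⟨0,[(24,0)]⟩) .k 1 (⟨0,[]⟩,⟨0,[]⟩) .k .k) (.R ⟨1,false,false,true,[0,0,0,0,1],[0,1],[1,1,1],
  (⟨0,[(26,0)]⟩,⟨0,[(25,0)]⟩),(⟨0,[(38,0)]⟩,⟨0,[(37,0)]⟩),⟨0,[(1,0)]⟩,.k,.k,(.r (-1) ⟨2,[(16,0),(6,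
  0),(0,0)]⟩ ⟨1,[(30,0),(0,0),(2,1)]⟩),(.r (-1) ⟨2,[(16,0),(6,0),(0,0)]⟩ ⟨1,[(30,0),(0,0),(2,1)]⟩),
  (.r (-2) ⟨2,[(16,1),(6,1),(0,1)]⟩ ⟨0,[(9,0),(1,0),(22,0)]⟩),.k,⟨false,1,⟨2,[(16,0),(6,0),(0,0)]⟩,
  ⟨0,[(50,0)]⟩⟩,⟨true,1,⟨0,[(3,0)]⟩,⟨2,[(2,1),(6,2),(1,2),(12,0),(9,0)]⟩⟩,⟨false,0,⟨1,[(30,0),(0,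
  0)]⟩,⟨1,[(51,0),(0,0)]⟩⟩,⟨true,0,⟨1,[(0,1),(33,1),(1,0),(3,0)]⟩,⟨1,[(2,0),(21,0)]⟩⟩,⟨true,(-1),⟨1,
  [(9,0),(1,0),(22,0),(5,0)]⟩,⟨2,[(16,0),(6,0),(0,0)]⟩⟩,⟨true,0,⟨1,[(0,1),(33,3),(5,0),(5,0)]⟩,⟨0,
  [(2,0)]⟩⟩,[.o ⟨false,0,⟨1,[(34,1),(5,0),(5,0)]⟩,⟨23,[(14,5),(1,3),(0,5),(5,0),(0,0),(6,5),(20,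
  8)]⟩⟩,.e ⟨false,0,⟨0,[]⟩,⟨1,[(23,0),(0,0),(26,0)]⟩⟩ ⟨false,1,⟨0,[(3,0),(30,0)]⟩,⟨2,[(2,1),(21,0),
  (9,0)]⟩⟩,.a ⟨true,0,⟨0,[(24,0)]⟩,⟨0,[(0,0)]⟩⟩ ⟨false,0,⟨1,[(30,0),(0,0)]⟩,⟨1,[(51,0),(0,0)]⟩⟩
  ⟨true,0,⟨1,[(0,1),(33,1),(5,0),(5,0)]⟩,⟨2,[(2,1),(21,0),(9,0)]⟩⟩,.o ⟨false,0,⟨3,[(2,0),(6,1),(1,
  1),(12,2),(21,1)]⟩,⟨0,[(3,0)]⟩⟩]⟩) (.R ⟨2,true,false,false,[0,1],[0,0,0,0,1],[1,0,1],(⟨0,[]⟩,⟨0,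
  []⟩),(⟨0,[(26,0)]⟩,⟨0,[(25,0)]⟩),⟨0,[]⟩,.k,.k,.k,(.r 0 ⟨1,[(30,0),(0,0),(2,1)]⟩ ⟨2,[(16,0),(6,0),
  (0,0)]⟩),.k,.k,⟨true,0,⟨1,[(30,0),(0,0)]⟩,⟨0,[]⟩⟩,⟨false,0,⟨0,[(24,0)]⟩,⟨0,[(3,0)]⟩⟩,⟨false,1,⟨23,
  [(14,5),(1,3),(0,5),(5,0),(0,0),(6,5),(20,8)]⟩,⟨0,[(50,0)]⟩⟩,⟨true,0,⟨1,[(2,0),(21,0)]⟩,⟨0,[(3,0),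
  (30,0),(5,0),(1,0)]⟩⟩,⟨true,0,⟨0,[]⟩,⟨0,[(54,0)]⟩⟩,⟨false,0,⟨1,[(0,1),(44,0),(6,0)]⟩,⟨1,[(3,0),
  (19,0),(29,0)]⟩⟩,[]⟩)) (.Q [0,0,0,0,0,0,0,0,-1,1,0,-1] (.p false [0,0,0,0,1] [1] (⟨0,[(25,0)]⟩,⟨0,
  [(24,0)]⟩) .k 1 (⟨0,[]⟩,⟨0,[]⟩) .k .k) (.R ⟨0,false,false,true,[0,0,0,0,1],[0,1],[1,1,1],(⟨0,[(26,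
  0)]⟩,⟨0,[(25,0)]⟩),(⟨0,[(38,0)]⟩,⟨0,[(37,0)]⟩),⟨0,[(1,0)]⟩,.k,.k,(.r (-1) ⟨2,[(16,0),(6,0),(0,
  0)]⟩ ⟨1,[(30,0),(0,0),(2,1)]⟩),(.r (-1) ⟨2,[(16,0),(6,0),(0,0)]⟩ ⟨1,[(30,0),(0,0),(2,1)]⟩),.k,.k,
  ⟨false,1,⟨2,[(16,0),(6,0),(0,0)]⟩,⟨0,[(50,0)]⟩⟩,⟨true,1,⟨0,[(3,0)]⟩,⟨2,[(2,1),(6,2),(1,2),(12,0),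
  (9,0)]⟩⟩,⟨false,0,⟨1,[(30,0),(0,0)]⟩,⟨1,[(51,0),(0,0)]⟩⟩,⟨true,0,⟨1,[(0,1),(33,1),(1,0),(3,0)]⟩,
  ⟨1,[(2,0),(21,0)]⟩⟩,⟨false,0,⟨0,[]⟩,⟨0,[]⟩⟩,⟨false,0,⟨0,[]⟩,⟨0,[]⟩⟩,[.o ⟨false,0,⟨1,[(34,1),(5,0),
  (5,0)]⟩,⟨23,[(14,5),(1,3),(0,5),(5,0),(0,0),(6,5),(20,8)]⟩⟩,.e ⟨false,0,⟨0,[]⟩,⟨1,[(23,0),(0,0),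
  (26,0)]⟩⟩ ⟨false,1,⟨0,[(3,0),(30,0)]⟩,⟨2,[(2,1),(21,0),(9,0)]⟩⟩,.a ⟨true,0,⟨0,[(24,0)]⟩,⟨0,[(0,
  0)]⟩⟩ ⟨false,0,⟨1,[(30,0),(0,0)]⟩,⟨1,[(51,0),(0,0)]⟩⟩ ⟨true,0,⟨1,[(0,1),(33,1),(5,0),(5,0)]⟩,⟨2,
  [(2,1),(21,0),(9,0)]⟩⟩,.o ⟨false,0,⟨3,[(2,0),(6,1),(1,1),(12,2),(21,1)]⟩,⟨0,[(3,0)]⟩⟩]⟩) (.R ⟨2,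
  true,false,false,[0,1],[0,0,0,0,1],[1,0,1],(⟨0,[]⟩,⟨0,[]⟩),(⟨0,[(26,0)]⟩,⟨0,[(25,0)]⟩),⟨0,[]⟩,.k,
  .k,.k,(.r 0 ⟨1,[(30,0),(0,0),(2,1)]⟩ ⟨2,[(16,0),(6,0),(0,0)]⟩),.k,.k,⟨true,0,⟨1,[(30,0),(0,0)]⟩,
  ⟨0,[]⟩⟩,⟨false,0,⟨0,[(24,0)]⟩,⟨0,[(3,0)]⟩⟩,⟨false,1,⟨23,[(14,5),(1,3),(0,5),(5,0),(0,0),(6,5),(20,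
  8)]⟩,⟨0,[(50,0)]⟩⟩,⟨true,0,⟨1,[(2,0),(21,0)]⟩,⟨0,[(3,0),(30,0),(5,0),(1,0)]⟩⟩,⟨true,0,⟨0,[]⟩,⟨0,
  [(54,0)]⟩⟩,⟨false,0,⟨1,[(0,1),(44,0),(6,0)]⟩,⟨1,[(3,0),(19,0),(29,0)]⟩⟩,[]⟩))) (.Q [1,0,0,-1,0,0,
  0,0,1,0,0,1] (.p true [0,0,0,0,1] [] (⟨0,[(24,0)]⟩,⟨0,[(23,0)]⟩) .k 0 (⟨0,[]⟩,⟨0,[]⟩) .k .k) (.R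
  ⟨1,true,false,false,[1,-1],[1,0,0,0,-1],[0,1,-1,-1],(⟨0,[(36,0)]⟩,⟨0,[(37,0)]⟩),(⟨0,[(24,0)]⟩,⟨0,
  [(25,0)]⟩),⟨1,[(9,0),(10,0),(15,0)]⟩,.k,.k,(.r (-2) ⟨2,[(15,1),(6,1),(0,1)]⟩ ⟨0,[(8,0),(1,0),(22,
  0)]⟩),(.r (-1) ⟨2,[(15,0),(6,0),(0,0)]⟩ ⟨1,[(29,0),(0,0),(2,1)]⟩),(.r (-2) ⟨2,[(15,1),(6,1),(0,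
  1)]⟩ ⟨0,[(8,0),(1,0),(22,0)]⟩),.k,⟨false,1,⟨11,[(15,3),(6,0),(0,0),(14,5),(11,2)]⟩,⟨0,[(33,0),(7,
  0)]⟩⟩,⟨true,1,⟨0,[(2,0)]⟩,⟨0,[(0,0),(32,0),(5,0),(1,1)]⟩⟩,⟨true,0,⟨0,[(53,0)]⟩,⟨0,[]⟩⟩,⟨false,1,
  ⟨1,[(1,0),(20,0),(28,0)]⟩,⟨0,[(0,0)]⟩⟩,⟨false,0,⟨0,[(49,0)]⟩,⟨23,[(13,5),(1,3),(0,5),(5,0),(0,0),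
  (6,5),(20,8)]⟩⟩,⟨true,0,⟨0,[(1,0)]⟩,⟨0,[(0,0),(47,0)]⟩⟩,[]⟩) (.R ⟨2,true,false,true,[0,1],[0,0,0,
  0,1],[2,1],(⟨0,[]⟩,⟨0,[]⟩),(⟨0,[(25,0)]⟩,⟨0,[(24,0)]⟩),⟨0,[]⟩,.k,.k,.k,(.r 0 ⟨1,[(29,0),(0,0),(2,
  1)]⟩ ⟨2,[(15,0),(6,0),(0,0)]⟩),.k,.k,⟨true,0,⟨0,[]⟩,⟨1,[(29,0),(0,0)]⟩⟩,⟨false,0,⟨0,[(23,0)]⟩,⟨0,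
  [(2,0)]⟩⟩,⟨false,1,⟨2,[(15,0),(6,0),(0,0)]⟩,⟨0,[(33,0),(7,0)]⟩⟩,⟨true,0,⟨0,[(23,0),(24,0)]⟩,⟨0,
  [(0,0)]⟩⟩,⟨true,0,⟨1,[(39,0),(10,0)]⟩,⟨0,[(52,0)]⟩⟩,⟨false,0,⟨0,[(23,0)]⟩,⟨7,[(0,3),(1,1),(15,1),
  (3,1),(18,1),(3,0),(5,2)]⟩⟩,[]⟩))))))))) (.S ⟨1,0,[0,0,0,0,0,0,0,-1],[1,0,-1],[0,1,0,0,0,0,0,-1],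
  (⟨0,[(23,0)]⟩,⟨0,[(24,0)]⟩),⟨0,[(12,0)]⟩,.k,.k,⟨true,0,⟨0,[(45,0)]⟩,⟨0,[]⟩⟩,⟨false,1,⟨1,[(14,0),
  (0,0),(27,0)]⟩,⟨0,[]⟩⟩,⟨false,0,⟨0,[(41,0)]⟩,⟨23,[(5,5),(1,3),(0,5),(5,0),(0,0),(6,5),(20,8)]⟩⟩,
  ⟨true,0,⟨0,[(41,0)]⟩,⟨0,[(40,0)]⟩⟩,[.o ⟨false,0,⟨1,[(4,1),(26,0),(5,0)]⟩,⟨1,[(9,0),(9,0),(5,0),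
  (11,0)]⟩⟩,.a ⟨true,0,⟨0,[(4,0)]⟩,⟨0,[(19,0)]⟩⟩ ⟨true,0,⟨0,[(3,0)]⟩,⟨1,[(18,1),(0,1),(11,0),(1,3),
  (3,0)]⟩⟩ ⟨false,1,⟨0,[(0,0),(3,0)]⟩,⟨1,[(18,1),(0,1),(11,0),(1,1),(3,0)]⟩⟩,.o ⟨false,0,⟨1,[(18,1),
  (12,0),(1,1),(3,0)]⟩,⟨3,[(0,1),(13,0),(0,0),(5,1),(15,0)]⟩⟩,.o ⟨false,0,⟨0,[(22,0)]⟩,⟨0,[(0,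
  0)]⟩⟩]⟩)))

theorem ok22 : chk K t22 r15 = true := by decide +kernel

noncomputable def t25 : Tre :=
  (.Q [0,0,0,0,0,0,1,1,0,0,1] (.p true [0,0,1] [] (⟨0,[(21,0)]⟩,⟨0,[(20,0)]⟩) .k 0 (⟨0,[]⟩,⟨0,[]⟩)
  .k .k) (.R ⟨2,true,false,false,[0,1],[0,0,1],[1,1,1],(⟨0,[]⟩,⟨0,[]⟩),(⟨0,[(22,0)]⟩,⟨0,[(21,0)]⟩),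
  ⟨0,[]⟩,.k,.k,.k,.k,.k,.k,⟨false,0,⟨1,[(3,1),(25,0),(10,0)]⟩,⟨0,[(2,0),(13,0),(24,0)]⟩⟩,⟨true,0,⟨0,
  [(19,0)]⟩,⟨1,[(16,1),(12,0),(1,1),(3,0)]⟩⟩,⟨true,0,⟨0,[(38,0)]⟩,⟨0,[(39,0)]⟩⟩,⟨false,1,⟨0,[(7,
  0)]⟩,⟨0,[(1,0)]⟩⟩,⟨false,0,⟨0,[]⟩,⟨1,[(12,0),(0,0),(27,0)]⟩⟩,⟨true,0,⟨0,[(0,0)]⟩,⟨0,[(18,0)]⟩⟩,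
  []⟩) (.R ⟨2,true,false,false,[0,1],[1,1,-1],[0,0,1,1],(⟨0,[]⟩,⟨0,[]⟩),(⟨22,[(12,2),(0,2),(7,22),
  (2,4),(8,5),(0,2)]⟩,⟨0,[(11,0)]⟩),⟨0,[]⟩,.k,.k,.k,.k,.k,.k,⟨true,0,⟨0,[(2,0),(13,0),(14,0)]⟩,⟨0,
  [(3,0)]⟩⟩,⟨false,0,⟨0,[(16,0)]⟩,⟨1,[(19,1),(15,0),(4,0)]⟩⟩,⟨false,1,⟨1,[(12,0),(0,0),(27,0)]⟩,⟨0,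
  []⟩⟩,⟨true,0,⟨0,[(3,0),(12,0)]⟩,⟨0,[(2,0)]⟩⟩,⟨true,0,⟨0,[(39,0)]⟩,⟨0,[(38,0)]⟩⟩,⟨false,0,⟨1,[(0,
  0),(0,0),(21,0),(10,0),(6,0)]⟩,⟨1,[(6,0),(10,0),(17,0)]⟩⟩,[]⟩))

theorem ok25 : chk K t25 l16 = true := by decide +kernel

noncomputable def t26 : Tre :=
  (.S ⟨1,0,[0,1,0,0,0,0,0,-1],[1,0,-1],[0,0,0,0,0,0,0,-1],(⟨0,[(21,0)]⟩,⟨0,[(22,0)]⟩),⟨0,[(10,0)]⟩,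
  .k,.k,⟨false,1,⟨1,[(12,0),(0,0),(27,0)]⟩,⟨0,[]⟩⟩,⟨true,0,⟨0,[(43,0)]⟩,⟨0,[]⟩⟩,⟨true,0,⟨0,[(39,
  0)]⟩,⟨0,[(38,0)]⟩⟩,⟨false,0,⟨0,[(39,0)]⟩,⟨23,[(3,5),(1,3),(0,5),(5,0),(0,0),(6,5),(20,8)]⟩⟩,[.o
  ⟨false,0,⟨0,[(18,0)]⟩,⟨0,[(2,0),(38,0)]⟩⟩,.a ⟨true,0,⟨0,[(3,0),(12,0)]⟩,⟨0,[(1,0),(21,0)]⟩⟩ ⟨true,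
  1,⟨1,[(3,1),(36,0),(0,0)]⟩,⟨0,[(2,0),(13,0),(12,0),(1,1)]⟩⟩ ⟨false,1,⟨0,[(3,0),(36,0)]⟩,⟨0,[(2,0),
  (13,0),(14,0)]⟩⟩,.o ⟨false,0,⟨1,[(16,1),(12,0),(1,1),(3,0)]⟩,⟨3,[(0,1),(11,0),(0,0),(5,1),(15,
  0)]⟩⟩,.o ⟨false,0,⟨0,[(20,0)]⟩,⟨0,[(0,0)]⟩⟩]⟩)

theorem ok26 : chk K t26 l17 = true := by decide +kernel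

noncomputable def t27 : Tre :=
  (.I [0,0,2,0,-1,2,1] (.R ⟨0,false,false,true,[0,-1,1],[1,-1],[],(⟨0,[(14,0)]⟩,⟨22,[(15,2),(0,2),
  (7,22),(2,4),(8,5),(0,2)]⟩),(⟨0,[(29,0)]⟩,⟨0,[(30,0)]⟩),⟨5,[(0,1),(12,3),(5,1),(16,3),(1,0),(4,
  0)]⟩,.k,.k,(.x 1 ⟨0,[(0,0)]⟩ ⟨3,[(12,1),(1,3),(0,0),(0,0),(12,3),(8,2),(4,3)]⟩),.k,.k,.k,⟨true,0,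
  ⟨0,[(26,0),(7,0)]⟩,⟨0,[(41,0)]⟩⟩,⟨false,0,⟨0,[(19,0)]⟩,⟨2,[(1,2),(6,0),(6,0),(0,0)]⟩⟩,⟨true,0,⟨0,
  [(6,0),(19,0)]⟩,⟨1,[(4,1),(14,1),(12,0),(5,0)]⟩⟩,⟨false,0,⟨0,[(6,0),(12,0)]⟩,⟨0,[(5,0),(38,0)]⟩⟩,
  ⟨false,0,⟨0,[]⟩,⟨0,[]⟩⟩,⟨false,0,⟨0,[]⟩,⟨0,[]⟩⟩,[.o ⟨false,0,⟨0,[(41,0)]⟩,⟨1,[(26,1),(11,0),(5,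
  0)]⟩⟩,.e ⟨false,1,⟨1,[(43,0),(0,0)]⟩,⟨0,[(46,0)]⟩⟩ ⟨false,1,⟨17,[(8,5),(3,8),(2,0),(0,0),(10,0),
  (1,0),(7,3),(5,8)]⟩,⟨0,[(1,0)]⟩⟩,.a ⟨true,0,⟨0,[(22,0)]⟩,⟨0,[(19,0)]⟩⟩ ⟨false,1,⟨1,[(15,0),(0,0),
  (27,0)]⟩,⟨0,[]⟩⟩ ⟨true,0,⟨15,[(8,1),(2,4),(0,4),(6,5),(11,3),(0,3)]⟩,⟨0,[(1,0)]⟩⟩,.o ⟨false,0,⟨6,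
  [(1,5),(1,0),(2,2),(0,2),(15,0),(10,2),(3,0)]⟩,⟨1,[(19,1),(18,0),(4,0)]⟩⟩]⟩) (.Q [0,0,0,2,0,0,1,1,
  0,-1,1] (.p true [0,0,1] [1] (⟨0,[(25,0)]⟩,⟨0,[(24,0)]⟩) .k 1 (⟨0,[]⟩,⟨0,[]⟩) .k .k) (.R ⟨1,true,
  false,false,[1,0,-1],[0,1],[1,1,0,-1,0,0,0,-1],(⟨0,[(25,0)]⟩,⟨0,[(26,0)]⟩),(⟨0,[(31,0)]⟩,⟨0,[(30,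
  0)]⟩),⟨0,[(14,0)]⟩,.k,.k,.k,.k,(.r (-2) ⟨5,[(7,5),(1,3),(6,0),(0,0),(26,2)]⟩ ⟨1,[(0,1),(3,1),(18,
  0),(0,0)]⟩),.k,⟨true,1,⟨3,[(3,0),(3,2),(1,1),(22,0),(9,0)]⟩,⟨0,[(0,0),(3,0),(30,0)]⟩⟩,⟨false,2,⟨2,
  [(2,2),(6,0),(6,0),(0,0),(26,2)]⟩,⟨0,[(4,0)]⟩⟩,⟨true,0,⟨0,[(42,0)]⟩,⟨0,[(43,0)]⟩⟩,⟨false,1,⟨5,[(0,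
  3),(10,1),(4,0),(0,0),(21,0),(5,1)]⟩,⟨1,[(3,1),(0,0),(15,0),(24,0)]⟩⟩,⟨false,0,⟨0,[]⟩,⟨1,[(16,0),
  (0,0),(27,0)]⟩⟩,⟨true,0,⟨0,[(0,0)]⟩,⟨0,[(12,0),(9,0)]⟩⟩,[]⟩) (.Q [0,0,0,-1,0,0,-2,-2,0,1,-2] (.p
  false [0,0,1] [1,0,-1] (⟨0,[(26,0)]⟩,⟨0,[(25,0)]⟩) .k 2 (⟨0,[(25,0)]⟩,⟨0,[(26,0)]⟩) .k (.r 0 ⟨0,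
  [(4,0),(1,1),(13,0),(24,0)]⟩ ⟨0,[(7,1),(36,0)]⟩)) (.Q [0,0,0,0,0,2,0,0,0,-1,1] (.p true [0,0,1]
  [1] (⟨0,[(27,0)]⟩,⟨0,[(26,0)]⟩) .k 1 (⟨0,[]⟩,⟨0,[]⟩) .k .k) (.R ⟨0,false,false,true,[1,-1,-1],[0,
  0,1],[1,1,1],(⟨0,[(16,0)]⟩,⟨4,[(0,1),(17,0),(0,0),(8,2),(1,0),(9,0)]⟩),(⟨0,[(28,0)]⟩,⟨0,[(27,
  0)]⟩),⟨0,[(0,0)]⟩,.k,.k,(.r (-2) ⟨5,[(9,5),(1,3),(6,0),(0,0),(26,2)]⟩ ⟨0,[(6,0),(1,0),(20,1),(7,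
  0)]⟩),(.x 1 ⟨8,[(0,9),(2,2),(2,13),(10,4),(8,0),(4,1)]⟩ ⟨5,[(4,11),(6,3),(4,5),(1,0),(0,0),(7,5),
  (18,2)]⟩),.k,.k,⟨true,0,⟨0,[(9,0)]⟩,⟨1,[(6,0),(1,1),(13,0),(24,0)]⟩⟩,⟨false,2,⟨3,[(4,5),(6,1),(13,
  1),(14,0),(5,4)]⟩,⟨1,[(6,2),(15,0),(18,0)]⟩⟩,⟨false,(-1),⟨0,[(6,0),(1,0),(20,0),(7,0)]⟩,⟨0,[(5,0),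
  (40,0),(0,0)]⟩⟩,⟨true,0,⟨0,[(7,0),(0,0),(20,1)]⟩,⟨0,[(1,0)]⟩⟩,⟨false,0,⟨0,[]⟩,⟨0,[]⟩⟩,⟨false,0,⟨0,
  []⟩,⟨0,[]⟩⟩,[.o ⟨false,0,⟨0,[(8,0)]⟩,⟨0,[(24,0),(22,0)]⟩⟩,.a ⟨true,0,⟨0,[(7,0),(21,0)]⟩,⟨3,[(1,0),
  (7,1),(5,0),(13,0),(10,0),(5,0)]⟩⟩ ⟨false,0,⟨0,[]⟩,⟨1,[(18,0),(0,0),(26,0)]⟩⟩ ⟨true,1,⟨0,[(4,0),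
  (2,0),(38,0)]⟩,⟨1,[(1,0),(2,0),(1,1),(19,0)]⟩⟩,.e ⟨false,0,⟨1,[(25,0),(0,0)]⟩,⟨1,[(46,0),(0,0)]⟩⟩
  ⟨false,1,⟨0,[(4,0),(2,0),(38,0)]⟩,⟨1,[(1,0),(13,0),(13,0),(7,1)]⟩⟩,.o ⟨false,(-1),⟨1,[(6,1),(28,
  0),(1,1),(3,0)]⟩,⟨2,[(4,2),(6,0),(6,0),(0,0),(26,2)]⟩⟩]⟩) (.I [0,0,-2,-2,1,0,0,1] (.R ⟨0,false,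
  false,true,[0,-1,1],[1,-1],[],(⟨0,[(18,0)]⟩,⟨22,[(19,2),(0,2),(7,22),(2,4),(8,5),(0,2)]⟩),(⟨0,
  [(33,0)]⟩,⟨0,[(34,0)]⟩),⟨2,[(1,1),(26,0),(2,0),(8,2)]⟩,.k,.k,(.r (-1) ⟨0,[(0,0)]⟩ ⟨1,[(5,0),(4,1),
  (5,0),(9,0),(3,2)]⟩),.k,.k,.k,⟨true,0,⟨0,[(30,0),(7,0)]⟩,⟨0,[(45,0)]⟩⟩,⟨false,0,⟨0,[(23,0)]⟩,⟨2,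
  [(5,2),(6,0),(6,0),(0,0)]⟩⟩,⟨true,0,⟨0,[(10,0),(19,0)]⟩,⟨3,[(0,1),(6,0),(1,1),(13,0),(12,0)]⟩⟩,
  ⟨false,0,⟨3,[(2,0),(7,1),(5,0),(13,0),(10,0),(5,0)]⟩,⟨0,[(9,0),(38,0)]⟩⟩,⟨false,0,⟨0,[]⟩,⟨0,[]⟩⟩,
  ⟨false,0,⟨0,[]⟩,⟨0,[]⟩⟩,[.o ⟨false,0,⟨0,[(45,0)]⟩,⟨1,[(30,1),(11,0),(5,0)]⟩⟩,.e ⟨false,1,⟨1,[(47,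
  0),(0,0)]⟩,⟨0,[(50,0)]⟩⟩ ⟨false,1,⟨17,[(12,5),(3,8),(2,0),(0,0),(10,0),(1,0),(7,3),(5,8)]⟩,⟨0,[(5,
  0)]⟩⟩,.a ⟨true,0,⟨0,[(26,0)]⟩,⟨0,[(23,0)]⟩⟩ ⟨false,1,⟨1,[(19,0),(0,0),(27,0)]⟩,⟨0,[]⟩⟩ ⟨true,0,
  ⟨11,[(0,2),(2,2),(12,3),(6,0),(11,4),(0,0),(4,1)]⟩,⟨0,[(5,0)]⟩⟩,.o ⟨false,0,⟨6,[(5,5),(1,0),(2,2),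
  (0,2),(15,0),(10,2),(3,0)]⟩,⟨1,[(23,1),(8,0),(14,0)]⟩⟩]⟩) (.Q [0,0,0,2,0,0,2,2,0,-1,2] (.p true
  [0,0,1] [1,0,-1] (⟨0,[(29,0)]⟩,⟨0,[(28,0)]⟩) .k 2 (⟨0,[(28,0)]⟩,⟨0,[(29,0)]⟩) .k (.r 0 ⟨0,[(7,0),
  (1,1),(13,0),(24,0)]⟩ ⟨0,[(10,1),(36,0)]⟩)) (.I [0,0,1,1,-1,0,0,2] (.R ⟨1,false,false,false,[1,0,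
  -1],[0,1,1],[],(⟨0,[(30,0)]⟩,⟨0,[(31,0)]⟩),(⟨22,[(21,2),(0,2),(8,22),(1,4),(8,5),(0,2)]⟩,⟨0,[(19,
  0)]⟩),⟨0,[(19,0)]⟩,.k,.k,.k,(.r (-2) ⟨2,[(12,5),(1,0),(6,0),(0,0),(26,2)]⟩ ⟨0,[(0,0)]⟩),(.r (-2)
  ⟨0,[(8,1),(40,0),(0,0)]⟩ ⟨31,[(0,23),(0,8),(0,13),(13,5),(1,8),(7,5),(2,11)]⟩),.k,⟨true,1,⟨1,[(8,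
  1),(40,0),(0,0)]⟩,⟨9,[(0,5),(1,4),(10,1),(1,0),(13,2),(10,0)]⟩⟩,⟨false,2,⟨3,[(7,5),(6,1),(13,1),
  (14,0),(5,4)]⟩,⟨0,[(0,0),(3,0)]⟩⟩,⟨true,0,⟨23,[(0,8),(0,0),(12,2),(1,1),(1,2),(7,1),(17,0)]⟩,⟨3,
  [(2,0),(5,1),(3,0),(24,0),(11,0)]⟩⟩,⟨false,1,⟨7,[(1,5),(14,3),(4,0),(0,0),(21,0),(5,1)]⟩,⟨0,[(4,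
  0)]⟩⟩,⟨true,0,⟨1,[(1,0),(16,0)]⟩,⟨0,[(8,0)]⟩⟩,⟨true,0,⟨0,[(1,0)]⟩,⟨0,[(5,0),(21,0)]⟩⟩,[.e ⟨false,
  1,⟨1,[(21,0),(0,0),(26,0)]⟩,⟨0,[]⟩⟩ ⟨false,1,⟨7,[(1,3),(5,5),(6,1),(13,1),(14,0),(5,4)]⟩,⟨17,[(0,
  2),(3,9),(0,3),(8,0),(3,5),(15,0)]⟩⟩,.o ⟨false,1,⟨3,[(1,1),(19,0),(0,0),(21,0),(5,1)]⟩,⟨3,[(5,1),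
  (21,1),(10,0),(5,0)]⟩⟩,.o ⟨false,0,⟨2,[(0,0),(3,0),(20,0),(8,0)]⟩,⟨2,[(7,2),(6,0),(6,0),(0,0)]⟩⟩,
  .a ⟨true,(-1),⟨0,[(9,0)]⟩,⟨0,[(28,0),(20,0)]⟩⟩ ⟨false,1,⟨1,[(49,0),(0,0)]⟩,⟨1,[(28,0),(0,0)]⟩⟩
  ⟨true,1,⟨7,[(1,3),(5,5),(6,1),(13,1),(14,0),(5,4)]⟩,⟨4,[(4,1),(0,0),(3,3),(19,0),(8,1),(5,0),(2,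
  0)]⟩⟩]⟩) (.I [0,0,0,0,1,0,0,0,-1] (.I [1,0,0,0,0,3,0,0,1] (.I [1,0,0,-1,0,1,1,1] (.C [(0,8),(2,2),
  (1,8),(0,0),(2,9),(2,4),(0,5),(22,0),(8,3),(1,0)]) (.C [(0,0),(5,0),(6,0),(31,0)])) (.C [(0,0),
  (23,0),(0,0),(18,0)])) (.C [(0,0),(21,0),(2,0)]))) (.I [0,0,0,0,1,0,0,0,-1] (.I [1,0,0,0,0,3,0,0,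
  1] (.I [1,0,0,-1,0,1,1,1] (.C [(0,1),(2,0),(0,3),(0,1),(2,3),(3,3),(22,0),(8,2)]) (.C [(0,0),(4,
  0),(6,0),(31,0)])) (.C [(0,0),(22,0),(0,0),(18,0)])) (.C [(0,0),(20,0),(2,0)]))))) (.Q [0,0,0,0,0,
  0,-2,-2,0,1,-2] (.p false [0,0,1] [1,0,-1] (⟨0,[(27,0)]⟩,⟨0,[(26,0)]⟩) .k 2 (⟨0,[(26,0)]⟩,⟨0,[(27,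
  0)]⟩) .k (.r 0 ⟨2,[(0,1),(4,0),(0,1),(7,1),(6,0),(8,0)]⟩ ⟨0,[(8,1),(36,0)]⟩)) (.R ⟨1,true,false,
  false,[1,0,-1],[0,0,1],[1,1,0,-1,0,0,0,-1],(⟨0,[(27,0)]⟩,⟨0,[(28,0)]⟩),(⟨0,[(28,0)]⟩,⟨0,[(27,
  0)]⟩),⟨0,[(16,0)]⟩,.k,.k,.k,.k,(.r (-2) ⟨2,[(9,5),(1,0),(6,0),(0,0),(26,2)]⟩ ⟨1,[(1,1),(4,2),(15,
  0),(18,0)]⟩),.k,⟨false,1,⟨0,[(5,0),(3,0),(36,0)]⟩,⟨1,[(1,1),(4,1),(15,1),(18,0),(5,0)]⟩⟩,⟨true,1,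
  ⟨11,[(4,15),(0,1),(1,1),(3,3),(13,5),(14,1),(5,4),(0,0)]⟩,⟨1,[(6,2),(15,0),(18,0)]⟩⟩,⟨true,0,⟨0,
  [(44,0)]⟩,⟨0,[(45,0)]⟩⟩,⟨false,1,⟨5,[(1,3),(11,3),(27,0),(5,0)]⟩,⟨0,[(0,0)]⟩⟩,⟨false,0,⟨0,[]⟩,⟨1,
  [(18,0),(0,0),(27,0)]⟩⟩,⟨true,0,⟨0,[(1,0)]⟩,⟨1,[(0,0),(13,0),(9,1)]⟩⟩,[]⟩) (.Q [0,0,0,0,0,2,0,0,0,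
  0,-1] (.p false [0,0,1] [] (⟨0,[(28,0)]⟩,⟨0,[(27,0)]⟩) .k 0 (⟨0,[]⟩,⟨0,[]⟩) .k .k) (.R ⟨0,false,
  false,true,[0,-1,1],[1,-1],[],(⟨0,[(18,0)]⟩,⟨4,[(0,1),(18,0),(0,0),(7,2),(2,0),(9,0)]⟩),(⟨0,[(33,
  0)]⟩,⟨0,[(34,0)]⟩),⟨0,[(0,0)]⟩,.k,.k,(.r (-1) ⟨0,[(0,0),(0,0),(1,0),(0,0)]⟩ ⟨1,[(5,0),(4,1),(5,0),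
  (9,0),(3,2)]⟩),.k,.k,.k,⟨true,0,⟨0,[(30,0),(7,0)]⟩,⟨0,[(45,0)]⟩⟩,⟨false,0,⟨0,[(23,0)]⟩,⟨2,[(5,2),
  (6,0),(6,0),(0,0)]⟩⟩,⟨true,0,⟨0,[(10,0),(19,0)]⟩,⟨5,[(1,2),(5,1),(4,1),(3,0),(6,1),(12,2),(5,
  0)]⟩⟩,⟨false,0,⟨0,[(10,0),(12,0)]⟩,⟨2,[(2,0),(11,0),(27,0),(5,0)]⟩⟩,⟨false,0,⟨0,[]⟩,⟨0,[]⟩⟩,
  ⟨false,0,⟨0,[]⟩,⟨0,[]⟩⟩,[.o ⟨false,0,⟨0,[(45,0)]⟩,⟨1,[(30,1),(11,0),(5,0)]⟩⟩,.e ⟨false,1,⟨1,[(47,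
  0),(0,0)]⟩,⟨0,[(50,0)]⟩⟩ ⟨false,1,⟨17,[(12,5),(3,8),(2,0),(0,0),(10,0),(1,0),(7,3),(5,8)]⟩,⟨0,[(5,
  0)]⟩⟩,.a ⟨true,0,⟨0,[(26,0)]⟩,⟨0,[(23,0)]⟩⟩ ⟨false,1,⟨1,[(19,0),(0,0),(27,0)]⟩,⟨0,[]⟩⟩ ⟨true,0,
  ⟨15,[(12,1),(2,4),(0,4),(6,5),(11,3),(0,3)]⟩,⟨0,[(5,0)]⟩⟩,.o ⟨false,0,⟨6,[(5,5),(1,0),(2,2),(0,2),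
  (15,0),(10,2),(3,0)]⟩,⟨0,[(0,0),(3,0)]⟩⟩]⟩) (.Q [0,0,0,1,0,0,-2,-2,0,1,-2] (.p false [0,0,1] [1,0,
  -1] (⟨0,[(29,0)]⟩,⟨0,[(28,0)]⟩) .k 2 (⟨0,[(28,0)]⟩,⟨0,[(29,0)]⟩) .k (.r 0 ⟨0,[(1,0),(14,0)]⟩ ⟨0,
  [(10,1),(36,0)]⟩)) (.R ⟨1,true,false,false,[0,0,1],[1,0,-1],[0,1,0,0,0,0,0,1],(⟨0,[(30,0)]⟩,⟨0,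
  [(29,0)]⟩),(⟨0,[(29,0)]⟩,⟨0,[(30,0)]⟩),⟨0,[(19,0)]⟩,.k,.k,.k,.k,(.x (-1) ⟨2,[(6,2),(6,0),(13,2),
  (1,5),(11,0),(1,0)]⟩ ⟨3,[(1,5),(3,1),(2,5),(32,3),(1,0),(4,2)]⟩),.k,⟨true,(-1),⟨1,[(2,1),(5,1),
  (15,1),(12,0),(5,0)]⟩,⟨1,[(11,3),(36,0),(0,0)]⟩⟩,⟨false,0,⟨1,[(8,0),(15,2),(8,0)]⟩,⟨17,[(2,1),(3,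
  21),(0,3),(5,5),(13,9),(14,2),(5,6),(0,1)]⟩⟩,⟨true,0,⟨0,[(51,0)]⟩,⟨0,[]⟩⟩,⟨false,1,⟨5,[(0,7),(13,
  3),(28,0),(5,0)]⟩,⟨0,[(2,0)]⟩⟩,⟨false,0,⟨0,[(47,0)]⟩,⟨5,[(0,1),(13,3),(28,0),(5,0)]⟩⟩,⟨true,0,⟨0,
  [(0,0)]⟩,⟨1,[(2,0),(7,0),(1,0)]⟩⟩,[]⟩) (.Q [0,0,0,2,0,0,-2,-2,0,1,-2] (.p false [0,0,1] [1,0,-1]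
  (⟨0,[(30,0)]⟩,⟨0,[(29,0)]⟩) .k 2 (⟨0,[(29,0)]⟩,⟨0,[(30,0)]⟩) .k (.r 0 ⟨0,[(2,0),(14,0)]⟩ ⟨0,[(11,
  1),(36,0)]⟩)) (.R ⟨1,true,false,false,[0,0,1],[1,1,-1],[0,1,0,0,0,0,0,1],(⟨0,[(31,0)]⟩,⟨0,[(30,
  0)]⟩),(⟨75,[(0,5),(15,5),(0,2),(8,5),(3,75),(2,12),(8,20),(0,5)]⟩,⟨0,[(20,0)]⟩),⟨0,[(20,0)]⟩,.k,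
  .k,.k,(.r 0 ⟨1,[(1,1),(7,0),(15,2),(8,0)]⟩ ⟨2,[(0,1),(6,1),(4,1),(1,0),(6,0),(0,0),(5,1)]⟩),(.r
  (-1) ⟨4,[(1,3),(1,0),(10,1),(3,2),(6,3),(8,0)]⟩ ⟨2,[(0,1),(6,1),(4,1),(15,1)]⟩),.k,⟨false,0,⟨1,
  [(1,1),(23,3),(12,0),(5,0)]⟩,⟨5,[(0,1),(6,1),(4,7),(15,1),(20,2),(0,2)]⟩⟩,⟨true,0,⟨1,[(9,0),(15,
  2),(8,0)]⟩,⟨1,[(1,0),(5,0),(4,1),(15,0)]⟩⟩,⟨true,0,⟨0,[(52,0)]⟩,⟨0,[]⟩⟩,⟨false,1,⟨15,[(0,19),(4,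
  1),(9,9),(28,2),(5,2)]⟩,⟨0,[(1,0)]⟩⟩,⟨false,0,⟨0,[(48,0)]⟩,⟨15,[(0,3),(4,1),(9,9),(28,2),(5,2)]⟩⟩,
  ⟨true,0,⟨0,[(0,0)]⟩,⟨5,[(1,3),(11,3),(24,0),(5,0)]⟩⟩,[]⟩) (.Q [0,0,0,0,0,-1,0,0,0,1,0,-1] (.ed
  true [0,1,0,0,1] .k) (.Q [0,0,-1,0,1,0,0,0,-1,0,0,-1] (.p false [0,0,0,0,1] [] (⟨0,[(25,0)]⟩,⟨0,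
  [(24,0)]⟩) .k 0 (⟨0,[]⟩,⟨0,[]⟩) .k .k) (.Q [0,0,0,0,0,-1,0,0,0,0,0,1] (.ed false [1,-1,0,0,1] .k)
  (.Q [-1,0,0,0,0,0,0,0,-1,1,0,-1] (.p false [0,0,0,0,1] [1] (⟨0,[(27,0)]⟩,⟨0,[(26,0)]⟩) .k 1 (⟨0,
  []⟩,⟨0,[]⟩) .k .k) (.S ⟨1,0,[1,1],[0,0,0,0,1],[],(⟨0,[(28,0)]⟩,⟨0,[(27,0)]⟩),⟨0,[(1,0)]⟩,.k,(.r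
  (-1) ⟨2,[(18,0),(6,0),(0,0)]⟩ ⟨1,[(11,0),(10,0),(9,0),(3,0)]⟩),⟨false,1,⟨4,[(25,1),(0,1),(27,2),
  (1,0)]⟩,⟨0,[]⟩⟩,⟨true,0,⟨0,[(56,0)]⟩,⟨0,[]⟩⟩,⟨true,0,⟨0,[(36,0)]⟩,⟨0,[(51,0)]⟩⟩,⟨false,0,⟨0,[(52,
  0)]⟩,⟨23,[(16,5),(1,3),(0,5),(5,0),(0,0),(6,5),(20,8)]⟩⟩,[.o ⟨false,0,⟨1,[(26,1),(15,0),(5,0)]⟩,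
  ⟨3,[(0,1),(1,1),(41,1),(3,0),(5,0)]⟩⟩,.a ⟨true,0,⟨0,[(26,0)]⟩,⟨0,[(0,0)]⟩⟩ ⟨false,1,⟨1,[(53,0),(0,
  0)]⟩,⟨0,[(56,0)]⟩⟩ ⟨true,0,⟨0,[]⟩,⟨1,[(32,0),(0,0)]⟩⟩,.e ⟨false,1,⟨1,[(25,0),(0,0),(27,0)]⟩,⟨0,
  []⟩⟩ ⟨false,0,⟨0,[]⟩,⟨1,[(25,0),(0,0),(27,0)]⟩⟩,.o ⟨false,0,⟨1,[(26,1),(15,0),(1,1),(3,0)]⟩,⟨0,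
  [(2,0)]⟩⟩]⟩) (.Q [1,-1,0,0,0,0,0,0,1,0,0,1] (.p true [0,0,0,0,1] [] (⟨0,[(28,0)]⟩,⟨0,[(27,0)]⟩)
  .k 0 (⟨0,[]⟩,⟨0,[]⟩) .k .k) (.R ⟨2,true,false,false,[0,1],[0,0,0,0,1],[1,1],(⟨0,[]⟩,⟨0,[]⟩),(⟨0,
  [(29,0)]⟩,⟨0,[(28,0)]⟩),⟨0,[]⟩,.k,.k,.k,(.r 0 ⟨1,[(12,0),(10,0),(9,0),(3,0)]⟩ ⟨2,[(19,0),(6,0),(0,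
  0)]⟩),.k,.k,⟨true,0,⟨0,[(57,0)]⟩,⟨0,[(51,0)]⟩⟩,⟨false,0,⟨0,[(27,0)]⟩,⟨0,[(3,0)]⟩⟩,⟨false,1,⟨2,
  [(19,0),(6,0),(0,0)]⟩,⟨0,[(37,0),(7,0)]⟩⟩,⟨true,0,⟨5,[(1,0),(3,0),(4,1),(16,4)]⟩,⟨0,[(3,0),(33,0),
  (5,0),(1,0)]⟩⟩,⟨true,0,⟨0,[(46,0)]⟩,⟨1,[(33,0),(0,0)]⟩⟩,⟨false,0,⟨0,[(0,0)]⟩,⟨1,[(3,0),(22,0),(29,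
  0)]⟩⟩,[]⟩) (.S ⟨1,0,[1],[0,0,0,0,1],[1,1],(⟨0,[(29,0)]⟩,⟨0,[(28,0)]⟩),⟨0,[(2,0)]⟩,.k,(.r (-1) ⟨2,
  [(19,0),(6,0),(0,0)]⟩ ⟨1,[(12,0),(10,0),(9,0),(3,0)]⟩),⟨true,0,⟨0,[(57,0)]⟩,⟨0,[]⟩⟩,⟨false,1,⟨1,
  [(26,0),(0,0),(27,0)]⟩,⟨0,[]⟩⟩,⟨false,0,⟨0,[(53,0)]⟩,⟨23,[(17,5),(1,3),(0,5),(5,0),(0,0),(6,5),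
  (20,8)]⟩⟩,⟨true,0,⟨0,[(53,0)]⟩,⟨0,[(52,0)]⟩⟩,[.o ⟨false,0,⟨0,[(1,0)]⟩,⟨3,[(0,0),(25,2),(28,0),(1,
  0)]⟩⟩,.o ⟨false,1,⟨1,[(27,1),(21,0),(5,0)]⟩,⟨0,[(0,0)]⟩⟩,.a ⟨true,0,⟨0,[(27,0)]⟩,⟨1,[(0,1),(47,0),
  (6,0)]⟩⟩ ⟨false,0,⟨0,[]⟩,⟨1,[(26,0),(0,0),(27,0)]⟩⟩ ⟨true,0,⟨0,[]⟩,⟨0,[(57,0)]⟩⟩,.o ⟨false,0,⟨3,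
  [(1,3),(31,0),(0,0),(21,1)]⟩,⟨0,[(3,0)]⟩⟩]⟩))) (.Q [1,0,0,-1,0,0,0,0,1,0,0,1] (.p true [0,0,0,0,
  1] [] (⟨0,[(27,0)]⟩,⟨0,[(26,0)]⟩) .k 0 (⟨0,[]⟩,⟨0,[]⟩) .k .k) (.Q [0,0,0,0,0,0,0,0,-1,1,0,-1] (.p
  false [0,0,0,0,1] [1] (⟨0,[(28,0)]⟩,⟨0,[(27,0)]⟩) .k 1 (⟨0,[]⟩,⟨0,[]⟩) .k .k) (.Q [0,0,0,-1,0,0,0,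
  0,1,0,0,1] (.p true [0,0,0,0,1] [] (⟨0,[(29,0)]⟩,⟨0,[(28,0)]⟩) .k 0 (⟨0,[]⟩,⟨0,[]⟩) .k .k) (.R ⟨0,
  false,false,true,[0,0,0,0,1],[0,1],[1,1,1],(⟨0,[(30,0)]⟩,⟨0,[(29,0)]⟩),(⟨0,[(42,0)]⟩,⟨0,[(41,
  0)]⟩),⟨0,[(3,0)]⟩,.k,.k,(.r (-1) ⟨2,[(20,0),(6,0),(0,0)]⟩ ⟨1,[(13,0),(10,0),(9,0),(3,0)]⟩),(.r
  (-1) ⟨2,[(20,0),(6,0),(0,0)]⟩ ⟨1,[(13,0),(10,0),(9,0),(3,0)]⟩),.k,.k,⟨false,1,⟨2,[(20,0),(6,0),(0,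
  0)]⟩,⟨0,[(54,0)]⟩⟩,⟨true,1,⟨0,[(4,0)]⟩,⟨0,[(0,0),(12,0),(1,0)]⟩⟩,⟨false,0,⟨1,[(34,0),(0,0)]⟩,⟨1,
  [(55,0),(0,0)]⟩⟩,⟨true,0,⟨1,[(1,1),(36,1),(1,0),(3,0)]⟩,⟨0,[(2,0)]⟩⟩,⟨false,0,⟨0,[]⟩,⟨0,[]⟩⟩,
  ⟨false,0,⟨0,[]⟩,⟨0,[]⟩⟩,[.o ⟨false,0,⟨1,[(38,1),(5,0),(5,0)]⟩,⟨23,[(18,5),(1,3),(0,5),(5,0),(0,0),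
  (6,5),(20,8)]⟩⟩,.e ⟨false,0,⟨0,[]⟩,⟨1,[(27,0),(0,0),(26,0)]⟩⟩ ⟨false,1,⟨0,[(4,0),(33,0)]⟩,⟨0,[(0,
  0)]⟩⟩,.a ⟨true,0,⟨0,[(28,0)]⟩,⟨0,[(1,0)]⟩⟩ ⟨false,0,⟨1,[(34,0),(0,0)]⟩,⟨1,[(55,0),(0,0)]⟩⟩ ⟨true,
  0,⟨1,[(1,1),(36,1),(5,0),(5,0)]⟩,⟨0,[(0,0)]⟩⟩,.o ⟨false,0,⟨1,[(2,0),(10,0),(1,0),(12,0),(21,0)]⟩,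
  ⟨0,[(4,0)]⟩⟩]⟩) (.R ⟨1,true,false,false,[1,-1],[1,0,0,0,-1],[0,1,-1,-1],(⟨0,[(41,0)]⟩,⟨0,[(42,
  0)]⟩),(⟨0,[(29,0)]⟩,⟨0,[(30,0)]⟩),⟨1,[(8,0),(16,0),(15,0)]⟩,.k,.k,(.r (-2) ⟨2,[(20,1),(6,1),(0,
  1)]⟩ ⟨0,[(13,0),(1,0),(22,0)]⟩),(.r (-1) ⟨2,[(20,0),(6,0),(0,0)]⟩ ⟨1,[(13,0),(10,0),(9,0),(3,
  0)]⟩),(.r (-2) ⟨2,[(20,1),(6,1),(0,1)]⟩ ⟨0,[(13,0),(1,0),(22,0)]⟩),.k,⟨false,1,⟨11,[(20,3),(6,0),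
  (0,0),(14,5),(11,2)]⟩,⟨0,[(38,0),(7,0)]⟩⟩,⟨true,1,⟨0,[(4,0)]⟩,⟨0,[(2,0),(35,0),(5,0),(1,1)]⟩⟩,
  ⟨true,0,⟨0,[(58,0)]⟩,⟨0,[]⟩⟩,⟨false,1,⟨1,[(0,0),(26,0),(10,0),(17,0)]⟩,⟨0,[(2,0)]⟩⟩,⟨false,0,⟨0,
  [(54,0)]⟩,⟨23,[(18,5),(1,3),(0,5),(5,0),(0,0),(6,5),(20,8)]⟩⟩,⟨true,0,⟨0,[(0,0),(37,0)]⟩,⟨0,[(2,
  0),(50,0)]⟩⟩,[]⟩)) (.R ⟨2,true,false,false,[0,1],[0,0,0,0,1],[1,0,1],(⟨0,[]⟩,⟨0,[]⟩),(⟨0,[(29,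
  0)]⟩,⟨0,[(28,0)]⟩),⟨0,[]⟩,.k,.k,.k,(.r 0 ⟨1,[(12,0),(10,0),(9,0),(3,0)]⟩ ⟨2,[(19,0),(6,0),(0,
  0)]⟩),.k,.k,⟨true,0,⟨1,[(33,0),(0,0)]⟩,⟨0,[]⟩⟩,⟨false,0,⟨0,[(27,0)]⟩,⟨0,[(3,0)]⟩⟩,⟨false,1,⟨23,
  [(17,5),(1,3),(0,5),(5,0),(0,0),(6,5),(20,8)]⟩,⟨0,[(53,0)]⟩⟩,⟨true,0,⟨0,[(1,0)]⟩,⟨0,[(3,0),(33,0),
  (5,0),(1,0)]⟩⟩,⟨true,0,⟨0,[]⟩,⟨0,[(57,0)]⟩⟩,⟨false,0,⟨1,[(0,1),(47,0),(6,0)]⟩,⟨1,[(3,0),(22,0),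
  (29,0)]⟩⟩,[]⟩)) (.R ⟨2,true,false,true,[0,1],[0,0,0,0,1],[2,1],(⟨0,[]⟩,⟨0,[]⟩),(⟨0,[(28,0)]⟩,⟨0,
  [(27,0)]⟩),⟨0,[]⟩,.k,.k,.k,(.r 0 ⟨1,[(11,0),(10,0),(9,0),(3,0)]⟩ ⟨2,[(18,0),(6,0),(0,0)]⟩),.k,.k,
  ⟨true,0,⟨0,[]⟩,⟨1,[(32,0),(0,0)]⟩⟩,⟨false,0,⟨0,[(26,0)]⟩,⟨0,[(2,0)]⟩⟩,⟨false,1,⟨2,[(18,0),(6,0),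
  (0,0)]⟩,⟨0,[(36,0),(7,0)]⟩⟩,⟨true,0,⟨0,[(26,0),(24,0)]⟩,⟨0,[(0,0)]⟩⟩,⟨true,0,⟨1,[(42,0),(10,0)]⟩,
  ⟨0,[(55,0)]⟩⟩,⟨false,0,⟨0,[(26,0)]⟩,⟨21,[(0,11),(3,1),(4,3),(15,9),(12,0),(15,10)]⟩⟩,[]⟩))) (.Q
  [1,1,0,0,-1,0,0,0,1,-1,0,1] (.p true [0,0,0,0,1] [1] (⟨0,[(26,0)]⟩,⟨0,[(25,0)]⟩) .k 1 (⟨0,[]⟩,⟨0,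
  []⟩) .k .k) (.R ⟨1,false,false,false,[1,0,0,0,-1],[0,1],[0,1,0,-1],(⟨0,[(26,0)]⟩,⟨0,[(27,0)]⟩),
  (⟨0,[(39,0)]⟩,⟨0,[(38,0)]⟩),⟨0,[(2,0)]⟩,.k,.k,(.r (-1) ⟨14,[(17,4),(6,1),(0,1),(27,2),(1,5)]⟩ ⟨1,
  [(10,0),(10,0),(9,0),(3,0)]⟩),(.r (-1) ⟨14,[(17,4),(6,1),(0,1),(27,2),(1,5)]⟩ ⟨1,[(10,0),(10,0),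
  (9,0),(3,0)]⟩),(.r (-2) ⟨14,[(17,9),(6,6),(0,6),(27,2),(1,5)]⟩ ⟨0,[(10,0),(1,0),(22,0)]⟩),.k,
  ⟨false,1,⟨4,[(17,2),(22,0),(0,0),(8,0)]⟩,⟨0,[(35,1),(7,0)]⟩⟩,⟨true,0,⟨1,[(0,1),(51,0),(0,0)]⟩,⟨0,
  [(12,0),(11,0),(6,0)]⟩⟩,⟨true,0,⟨0,[(50,0)]⟩,⟨0,[(51,0)]⟩⟩,⟨false,0,⟨0,[(0,0),(34,0),(17,0)]⟩,⟨17,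
  [(20,8),(3,18),(0,0),(10,6),(1,6),(7,0)]⟩⟩,⟨false,0,⟨0,[]⟩,⟨1,[(24,0),(0,0),(27,0)]⟩⟩,⟨false,0,⟨0,
  [(0,0),(34,1),(17,0)]⟩,⟨17,[(3,0),(1,1),(2,1),(11,14),(1,1),(1,17),(11,5)]⟩⟩,[.a ⟨true,0,⟨0,[(51,
  0)]⟩,⟨5,[(20,2),(3,0),(0,0),(10,0),(1,0),(7,0)]⟩⟩ ⟨true,0,⟨0,[(50,0)]⟩,⟨0,[(35,0),(7,0)]⟩⟩ ⟨false,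
  0,⟨1,[(0,1),(34,1),(16,0),(0,0)]⟩,⟨5,[(20,2),(3,6),(0,0),(10,0),(1,0),(7,0)]⟩⟩,.o ⟨false,1,⟨1,
  [(35,1),(11,0),(5,0)]⟩,⟨0,[(50,0)]⟩⟩,.o ⟨false,1,⟨0,[(24,0)]⟩,⟨3,[(0,1),(24,1),(21,0),(5,0)]⟩⟩,.o
  ⟨false,1,⟨1,[(24,1),(6,0),(0,0)]⟩,⟨1,[(0,1),(51,0),(0,0)]⟩⟩]⟩) (.Q [0,0,0,0,1,0,1,0,-1,0,1,-1]
  (.p true [0,0,1] [0,0,0,0,1] (⟨0,[(34,0)]⟩,⟨0,[(33,0)]⟩) .k 2 (⟨0,[(27,0)]⟩,⟨0,[(26,0)]⟩) .k (.r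
  0 ⟨3,[(3,0),(2,0),(14,1),(13,1)]⟩ ⟨1,[(15,1),(8,0),(0,0),(26,0)]⟩)) (.K ⟨0,[0,0,0,0,1],(-1),(-1),
  (⟨0,[(28,0)]⟩,⟨0,[(27,0)]⟩),.k,(.r (-1) ⟨2,[(18,0),(6,0),(0,0)]⟩ ⟨1,[(11,0),(10,0),(9,0),(3,0)]⟩),
  (.r 0 ⟨1,[(11,0),(10,0),(9,0),(3,0)]⟩ ⟨11,[(1,1),(16,3),(7,1),(21,0),(5,0),(1,3)]⟩),.k,.k,[⟨0,[(0,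
  0)]⟩,⟨0,[(2,0)]⟩,⟨0,[(25,0),(30,0)]⟩,⟨1,[(2,1),(39,0),(10,0)]⟩]⟩) (.R ⟨2,true,false,false,[0,1],
  [1,0,0,0,-1],[1,0,1],(⟨0,[]⟩,⟨0,[]⟩),(⟨0,[(27,0)]⟩,⟨0,[(28,0)]⟩),⟨0,[]⟩,.k,.k,.k,(.r 0 ⟨1,[(11,0),
  (10,0),(9,0),(3,0)]⟩ ⟨11,[(1,1),(16,3),(7,1),(21,0),(5,0),(1,3)]⟩),.k,.k,⟨false,0,⟨0,[]⟩,⟨6,[(1,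
  1),(23,0),(0,2),(14,0),(6,0),(4,2)]⟩⟩,⟨true,0,⟨0,[(1,0),(40,0),(1,0)]⟩,⟨4,[(0,2),(10,2),(6,0),(7,
  1),(21,0)]⟩⟩,⟨false,1,⟨47,[(1,1),(14,11),(1,7),(0,11),(6,1),(6,11),(14,0),(5,16)]⟩,⟨0,[(52,0)]⟩⟩,
  ⟨true,1,⟨0,[(1,0),(49,0)]⟩,⟨1,[(0,1),(10,1),(30,0),(10,0)]⟩⟩,⟨true,0,⟨0,[]⟩,⟨0,[(56,0)]⟩⟩,⟨false,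
  1,⟨0,[(1,0)]⟩,⟨4,[(0,2),(10,2),(6,0),(7,1),(21,0)]⟩⟩,[]⟩)))) (.Q [-1,-1,0,0,1,0,0,0,-1,0,0,-1]
  (.p false [0,0,0,0,1] [] (⟨0,[(25,0)]⟩,⟨0,[(24,0)]⟩) .k 0 (⟨0,[]⟩,⟨0,[]⟩) .k .k) (.Q [-1,0,0,-1,0,
  0,1,1,-1,0,1,-1] (.p true [0,0,1] [0,0,0,0,1] (⟨0,[(33,0)]⟩,⟨0,[(32,0)]⟩) .k 2 (⟨0,[(26,0)]⟩,⟨0,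
  [(25,0)]⟩) .k (.r 0 ⟨3,[(2,0),(2,0),(14,1),(13,1)]⟩ ⟨1,[(14,1),(8,0),(0,0),(26,0)]⟩)) (.S ⟨1,0,[1,
  1],[0,0,0,0,1],[],(⟨0,[(27,0)]⟩,⟨0,[(26,0)]⟩),⟨1,[(2,0),(2,0),(16,0),(4,0)]⟩,.k,(.r (-1) ⟨2,[(17,
  0),(6,0),(0,0)]⟩ ⟨1,[(10,0),(10,0),(9,0),(3,0)]⟩),⟨false,1,⟨4,[(24,1),(0,1),(27,2),(1,0)]⟩,⟨0,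
  []⟩⟩,⟨true,0,⟨0,[(55,0)]⟩,⟨0,[]⟩⟩,⟨true,0,⟨0,[(35,0)]⟩,⟨0,[(50,0)]⟩⟩,⟨false,0,⟨0,[(51,0)]⟩,⟨23,
  [(15,5),(1,3),(0,5),(5,0),(0,0),(6,5),(20,8)]⟩⟩,[.o ⟨false,0,⟨1,[(25,1),(15,0),(5,0)]⟩,⟨0,[(1,
  0)]⟩⟩,.a ⟨true,0,⟨0,[(25,0)]⟩,⟨12,[(0,6),(0,5),(6,0),(21,5),(4,8),(10,5)]⟩⟩ ⟨false,1,⟨1,[(52,0),
  (0,0)]⟩,⟨0,[(55,0)]⟩⟩ ⟨true,0,⟨0,[]⟩,⟨1,[(31,0),(0,0)]⟩⟩,.e ⟨false,1,⟨1,[(24,0),(0,0),(27,0)]⟩,⟨0,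
  []⟩⟩ ⟨false,0,⟨0,[]⟩,⟨1,[(24,0),(0,0),(27,0)]⟩⟩,.o ⟨false,0,⟨1,[(25,1),(15,0),(1,1),(3,0)]⟩,⟨1,
  [(1,1),(39,0),(10,0)]⟩⟩]⟩) (.R ⟨0,false,false,true,[1,0,0,0,-1],[1,-1],[],(⟨0,[(26,0)]⟩,⟨0,[(27,
  0)]⟩),(⟨0,[(38,0)]⟩,⟨0,[(39,0)]⟩),⟨0,[(2,0)]⟩,.k,.k,(.r (-1) ⟨26,[(0,1),(16,8),(1,1),(4,1),(28,4),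
  (1,11)]⟩ ⟨1,[(10,0),(10,0),(9,0),(3,0)]⟩),(.r 0 ⟨1,[(10,0),(10,0),(9,0),(3,0)]⟩ ⟨9,[(0,1),(16,2),
  (0,0),(0,0),(4,1),(15,0)]⟩),.k,.k,⟨true,0,⟨0,[(35,0),(7,0)]⟩,⟨0,[(50,0)]⟩⟩,⟨false,0,⟨0,[(25,0)]⟩,
  ⟨1,[(1,1),(39,0),(10,0)]⟩⟩,⟨true,0,⟨0,[]⟩,⟨0,[(55,0)]⟩⟩,⟨false,0,⟨2,[(0,0),(2,0),(4,0),(16,1)]⟩,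
  ⟨0,[(1,0),(33,0)]⟩⟩,⟨false,0,⟨0,[]⟩,⟨0,[]⟩⟩,⟨false,0,⟨0,[]⟩,⟨0,[]⟩⟩,[.o ⟨false,0,⟨0,[(50,0)]⟩,⟨1,
  [(35,1),(11,0),(5,0)]⟩⟩,.a ⟨true,0,⟨33,[(0,2),(18,2),(0,16),(3,2),(11,4),(1,4),(7,5),(8,2)]⟩,⟨0,
  [(51,0)]⟩⟩ ⟨false,1,⟨1,[(52,0),(0,0)]⟩,⟨0,[(55,0)]⟩⟩ ⟨true,0,⟨20,[(0,8),(2,7),(1,0),(2,6),(13,0),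
  (2,11),(10,2)]⟩,⟨1,[(1,1),(8,0),(1,0),(22,0),(5,0)]⟩⟩,.e ⟨false,1,⟨2,[(0,0),(18,0),(4,0),(28,0)]⟩,
  ⟨0,[]⟩⟩ ⟨false,0,⟨20,[(0,8),(2,7),(1,0),(2,6),(13,0),(2,11),(10,2)]⟩,⟨0,[(1,0),(33,0)]⟩⟩,.o
  ⟨false,0,⟨0,[(1,0),(39,0),(1,0)]⟩,⟨7,[(0,3),(6,1),(9,1),(7,3),(21,2),(4,0)]⟩⟩]⟩)) (.Q [0,0,1,-1,
  -1,0,0,0,1,0,0,1] (.p true [0,0,0,0,1] [] (⟨0,[(26,0)]⟩,⟨0,[(25,0)]⟩) .k 0 (⟨0,[]⟩,⟨0,[]⟩) .k .k)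
  (.I [0,0,1,0,0,1,-1,0,-2] (.Q [0,0,0,0,1,0,1,0,-1,0,1,-1] (.p true [0,0,1] [0,0,0,0,1] (⟨0,[(35,
  0)]⟩,⟨0,[(34,0)]⟩) .k 2 (⟨0,[(28,0)]⟩,⟨0,[(27,0)]⟩) .k (.r 0 ⟨3,[(4,0),(2,0),(14,1),(13,1)]⟩ ⟨1,
  [(16,1),(8,0),(0,0),(26,0)]⟩)) (.K ⟨0,[0,0,0,0,1],(-1),(-1),(⟨0,[(29,0)]⟩,⟨0,[(28,0)]⟩),.k,(.r
  (-1) ⟨2,[(19,0),(6,0),(0,0)]⟩ ⟨1,[(12,0),(10,0),(9,0),(3,0)]⟩),(.r 0 ⟨1,[(12,0),(10,0),(9,0),(3,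
  0)]⟩ ⟨14,[(19,4),(6,1),(0,1),(27,2),(1,5)]⟩),.k,.k,[⟨0,[(0,0)]⟩,⟨0,[(2,0),(34,0)]⟩,⟨0,[(26,0),(30,
  0)]⟩,⟨0,[(3,0)]⟩]⟩) (.Q [0,0,1,0,0,0,0,0,-1,1,0,-1] (.p false [0,0,0,0,1] [1] (⟨0,[(29,0)]⟩,⟨0,
  [(28,0)]⟩) .k 1 (⟨0,[]⟩,⟨0,[]⟩) .k .k) (.R ⟨0,false,false,false,[1,0,0,0,-1],[1,-1],[],(⟨0,[(29,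
  0)]⟩,⟨0,[(30,0)]⟩),(⟨0,[(41,0)]⟩,⟨0,[(42,0)]⟩),⟨0,[(5,0)]⟩,.k,.k,(.r (-1) ⟨14,[(20,4),(6,1),(0,1),
  (27,2),(1,5)]⟩ ⟨2,[(0,0),(12,1),(10,0),(3,0),(9,0)]⟩),(.r 0 ⟨1,[(13,0),(10,0),(9,0),(3,0)]⟩ ⟨2,
  [(20,0),(6,0),(0,0)]⟩),.k,.k,⟨false,0,⟨0,[(54,0)]⟩,⟨2,[(20,0),(6,0),(0,0)]⟩⟩,⟨true,(-1),⟨16,[(1,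
  3),(1,8),(9,5),(1,1),(12,3),(9,2),(10,1)]⟩,⟨0,[(27,0)]⟩⟩,⟨true,0,⟨0,[]⟩,⟨0,[(58,0)]⟩⟩,⟨false,0,⟨1,
  [(3,1),(51,0),(0,0)]⟩,⟨0,[(27,0),(10,0)]⟩⟩,⟨false,0,⟨0,[]⟩,⟨0,[]⟩⟩,⟨false,0,⟨0,[]⟩,⟨0,[]⟩⟩,[.e
  ⟨false,1,⟨1,[(27,0),(0,0),(26,0)]⟩,⟨0,[]⟩⟩ ⟨false,0,⟨0,[(3,0),(51,0)]⟩,⟨0,[(27,0),(10,0)]⟩⟩,.o
  ⟨false,1,⟨23,[(18,5),(1,3),(0,5),(5,0),(0,0),(6,5),(20,8)]⟩,⟨1,[(38,1),(5,0),(5,0)]⟩⟩,.o ⟨false,1,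
  ⟨0,[(27,0)]⟩,⟨4,[(1,2),(11,2),(6,0),(7,1),(21,0)]⟩⟩,.a ⟨true,0,⟨0,[(0,0)]⟩,⟨1,[(4,1),(50,0),(0,
  0)]⟩⟩ ⟨false,1,⟨1,[(55,0),(0,0)]⟩,⟨1,[(34,0),(0,0)]⟩⟩ ⟨true,0,⟨0,[(3,0),(51,0)]⟩,⟨1,[(13,0),(1,0),
  (11,1),(10,0),(5,0)]⟩⟩]⟩) (.R ⟨0,false,false,false,[1,0,0,0,-1],[1,-1],[0,1,0,-1],(⟨0,[(29,0)]⟩,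
  ⟨0,[(30,0)]⟩),(⟨0,[(41,0)]⟩,⟨0,[(42,0)]⟩),⟨0,[(5,0)]⟩,.k,.k,(.r (-1) ⟨14,[(20,4),(6,1),(0,1),(27,
  2),(1,5)]⟩ ⟨1,[(13,0),(10,0),(9,0),(3,0)]⟩),(.r 0 ⟨1,[(13,0),(10,0),(9,0),(3,0)]⟩ ⟨2,[(20,0),(6,
  0),(0,0)]⟩),.k,.k,⟨false,0,⟨0,[(58,0)]⟩,⟨1,[(55,0),(0,0)]⟩⟩,⟨true,(-1),⟨16,[(1,3),(1,8),(9,5),(1,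
  1),(12,3),(9,2),(10,1)]⟩,⟨0,[(27,0)]⟩⟩,⟨true,0,⟨0,[(53,0)]⟩,⟨0,[(54,0)]⟩⟩,⟨false,0,⟨7,[(0,1),(2,
  4),(16,0),(7,0),(20,0),(6,3)]⟩,⟨0,[(27,0),(10,0)]⟩⟩,⟨false,0,⟨0,[]⟩,⟨0,[]⟩⟩,⟨false,0,⟨0,[]⟩,⟨0,
  []⟩⟩,[.a ⟨true,0,⟨39,[(2,2),(17,1),(2,16),(4,5),(0,5),(4,2),(1,2),(2,2),(1,5),(7,3)]⟩,⟨0,[(54,
  0)]⟩⟩ ⟨true,0,⟨0,[(53,0)]⟩,⟨0,[(38,0),(7,0)]⟩⟩ ⟨false,0,⟨6,[(0,1),(2,3),(16,0),(7,0),(20,0),(5,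
  2)]⟩,⟨0,[(27,0),(10,0)]⟩⟩,.o ⟨false,1,⟨23,[(18,5),(1,3),(0,5),(5,0),(0,0),(6,5),(20,8)]⟩,⟨1,[(38,
  1),(5,0),(5,0)]⟩⟩,.o ⟨false,1,⟨0,[(27,0)]⟩,⟨6,[(0,1),(0,0),(1,0),(9,0),(14,2),(21,1)]⟩⟩,.o ⟨false,
  1,⟨1,[(27,1),(6,0),(0,0)]⟩,⟨0,[(0,0)]⟩⟩]⟩))) (.R ⟨1,false,false,false,[0,0,0,0,1],[0,1],[],(⟨0,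
  [(28,0)]⟩,⟨0,[(27,0)]⟩),(⟨0,[(40,0)]⟩,⟨0,[(39,0)]⟩),⟨1,[(3,0),(2,0),(16,0),(4,0)]⟩,.k,.k,(.r (-1)
  ⟨2,[(18,0),(6,0),(0,0)]⟩ ⟨1,[(11,0),(10,0),(9,0),(3,0)]⟩),(.r (-1) ⟨2,[(18,0),(6,0),(0,0)]⟩ ⟨1,
  [(11,0),(10,0),(9,0),(3,0)]⟩),(.r (-2) ⟨2,[(18,1),(6,1),(0,1)]⟩ ⟨0,[(11,0),(1,0),(22,0)]⟩),.k,
  ⟨true,1,⟨2,[(18,0),(6,0),(0,0)]⟩,⟨0,[(11,0),(1,0)]⟩⟩,⟨false,2,⟨0,[(25,0),(27,0)]⟩,⟨0,[(1,0),(34,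
  0)]⟩⟩,⟨false,1,⟨4,[(25,1),(0,1),(27,2),(1,0)]⟩,⟨0,[]⟩⟩,⟨true,1,⟨0,[(25,0),(10,0)]⟩,⟨65,[(0,5),(0,
  41),(0,11),(0,11),(6,5),(7,7),(23,26),(3,1),(0,6)]⟩⟩,⟨true,0,⟨0,[(36,0)]⟩,⟨0,[(51,0)]⟩⟩,⟨true,1,
  ⟨0,[(25,0),(10,1)]⟩,⟨65,[(0,11),(0,41),(1,23),(0,13),(4,27),(0,11),(7,1),(23,32),(3,3),(0,6)]⟩⟩,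
  [.a ⟨true,0,⟨0,[(52,0)]⟩,⟨5,[(21,2),(3,0),(0,0),(10,0),(1,0),(7,0)]⟩⟩ ⟨false,1,⟨1,[(25,0),(0,0),
  (26,0)]⟩,⟨0,[]⟩⟩ ⟨true,1,⟨0,[(25,0),(10,0)]⟩,⟨0,[(1,0)]⟩⟩,.o ⟨false,1,⟨1,[(36,1),(11,0),(5,0)]⟩,
  ⟨0,[(51,0)]⟩⟩,.o ⟨false,0,⟨1,[(2,1),(45,0),(5,0)]⟩,⟨0,[(25,0)]⟩⟩,.e ⟨false,1,⟨1,[(53,0),(0,0)]⟩,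
  ⟨1,[(32,0),(0,0)]⟩⟩ ⟨false,2,⟨1,[(25,1),(10,1),(16,0),(0,0)]⟩,⟨0,[(1,0)]⟩⟩]⟩)) (.Q [0,0,1,0,-1,0,
  0,0,1,0,0,1] (.p true [0,0,0,0,1] [] (⟨0,[(27,0)]⟩,⟨0,[(26,0)]⟩) .k 0 (⟨0,[]⟩,⟨0,[]⟩) .k .k) (.K
  ⟨0,[0,0,0,0,1],(-1),(-1),(⟨0,[(28,0)]⟩,⟨0,[(27,0)]⟩),.k,(.r (-1) ⟨2,[(18,0),(6,0),(0,0)]⟩ ⟨1,[(11,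
  0),(10,0),(9,0),(3,0)]⟩),(.r 0 ⟨1,[(11,0),(10,0),(9,0),(3,0)]⟩ ⟨14,[(18,4),(6,1),(0,1),(27,2),(1,
  5)]⟩),.k,.k,[⟨3,[(1,3),(2,0),(11,1),(4,0),(10,1)]⟩,⟨0,[(0,0)]⟩,⟨0,[(25,0),(30,0)]⟩,⟨0,[(2,0)]⟩]⟩)
  (.R ⟨2,true,false,true,[0,1],[0,0,0,0,1],[1,1,1],(⟨0,[]⟩,⟨0,[]⟩),(⟨0,[(28,0)]⟩,⟨0,[(27,0)]⟩),⟨0,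
  []⟩,.k,.k,.k,(.r 0 ⟨1,[(11,0),(10,0),(9,0),(3,0)]⟩ ⟨2,[(18,0),(6,0),(0,0)]⟩),.k,.k,⟨true,0,⟨1,
  [(32,0),(0,0)]⟩,⟨0,[]⟩⟩,⟨false,0,⟨0,[(26,0)]⟩,⟨0,[(0,0)]⟩⟩,⟨true,0,⟨0,[(51,0)]⟩,⟨0,[(52,0)]⟩⟩,
  ⟨false,0,⟨11,[(2,1),(1,1),(4,3),(16,9),(21,0),(5,0)]⟩,⟨1,[(0,0),(0,0),(34,0),(7,1)]⟩⟩,⟨false,0,⟨0,
  []⟩,⟨1,[(25,0),(0,0),(27,0)]⟩⟩,⟨true,(-1),⟨0,[(2,0)]⟩,⟨1,[(0,0),(24,0),(29,0)]⟩⟩,[]⟩))))))))))))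

theorem ok27 : chk K t27 l19 = true := by decide +kernel

noncomputable def t28 : Tre :=
  (.Q [0,0,0,0,0,2,0,0,0,0,-1] (.p false [0,0,1] [] (⟨0,[(24,0)]⟩,⟨0,[(23,0)]⟩) .k 0 (⟨0,[]⟩,⟨0,
  []⟩) .k .k) (.R ⟨0,false,false,true,[0,-1,1],[1,-1],[],(⟨0,[(14,0)]⟩,⟨4,[(0,1),(14,0),(0,0),(7,2),
  (2,0),(9,0)]⟩),(⟨0,[(29,0)]⟩,⟨0,[(30,0)]⟩),⟨0,[(0,0)]⟩,.k,.k,(.r (-1) ⟨1,[(1,1),(2,1),(23,0),(14,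
  0)]⟩ ⟨1,[(6,1),(15,0),(0,0),(2,3)]⟩),.k,.k,.k,⟨true,0,⟨0,[(26,0),(7,0)]⟩,⟨0,[(41,0)]⟩⟩,⟨false,0,
  ⟨0,[(19,0)]⟩,⟨1,[(22,1),(15,0),(4,0)]⟩⟩,⟨true,0,⟨0,[(6,0),(19,0)]⟩,⟨0,[(1,0),(3,0)]⟩⟩,⟨false,0,⟨0,
  [(6,0),(12,0)]⟩,⟨0,[(5,0),(38,0)]⟩⟩,⟨false,0,⟨0,[]⟩,⟨0,[]⟩⟩,⟨false,0,⟨0,[]⟩,⟨0,[]⟩⟩,[.o ⟨false,0,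
  ⟨0,[(41,0)]⟩,⟨1,[(26,1),(11,0),(5,0)]⟩⟩,.a ⟨true,0,⟨5,[(11,2),(3,0),(0,0),(10,0),(1,0),(7,0)]⟩,⟨0,
  [(42,0)]⟩⟩ ⟨false,1,⟨1,[(43,0),(0,0)]⟩,⟨0,[(46,0)]⟩⟩ ⟨true,0,⟨0,[(1,0)]⟩,⟨0,[(5,0),(0,0),(19,0),
  (7,0)]⟩⟩,.e ⟨false,1,⟨1,[(15,0),(0,0),(27,0)]⟩,⟨0,[]⟩⟩ ⟨false,0,⟨0,[(1,0)]⟩,⟨1,[(22,1),(3,1),(11,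
  0),(5,0)]⟩⟩,.o ⟨false,0,⟨0,[(5,0),(0,0),(27,0)]⟩,⟨1,[(19,1),(18,0),(4,0)]⟩⟩]⟩) (.Q [0,0,0,2,0,0,
  -1,-1,0,0,-1] (.p false [0,0,1] [] (⟨0,[(25,0)]⟩,⟨0,[(24,0)]⟩) .k 0 (⟨0,[]⟩,⟨0,[]⟩) .k .k) (.R ⟨1,
  true,false,false,[0,0,1],[0,1],[0,1,0,0,0,0,0,1],(⟨0,[(26,0)]⟩,⟨0,[(25,0)]⟩),(⟨0,[(31,0)]⟩,⟨0,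
  [(30,0)]⟩),⟨0,[(15,0)]⟩,.k,.k,.k,.k,(.r (-1) ⟨1,[(2,1),(2,1),(23,0),(14,0)]⟩ ⟨1,[(0,1),(22,2),(0,
  0)]⟩),.k,⟨true,0,⟨0,[(2,0),(3,0)]⟩,⟨1,[(0,0),(6,0),(15,0),(11,1)]⟩⟩,⟨false,1,⟨1,[(20,1),(18,0),(4,
  0)]⟩,⟨0,[(23,0)]⟩⟩,⟨true,0,⟨0,[(47,0)]⟩,⟨0,[]⟩⟩,⟨false,1,⟨3,[(0,1),(15,0),(0,0),(4,1),(22,2)]⟩,⟨0,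
  [(5,0)]⟩⟩,⟨false,0,⟨0,[(43,0)]⟩,⟨23,[(7,5),(1,3),(0,5),(5,0),(0,0),(6,5),(20,8)]⟩⟩,⟨true,0,⟨0,[(0,
  0)]⟩,⟨0,[(8,0)]⟩⟩,[]⟩) (.Q [0,0,0,0,0,0,1,1,-1,0,1,-1] (.p true [0,0,1] [0,0,0,0,1] (⟨0,[(26,0)]⟩,
  ⟨0,[(25,0)]⟩) .k 2 (⟨0,[(19,0)]⟩,⟨0,[(18,0)]⟩) .k (.r 0 ⟨3,[(2,0),(1,1),(1,3),(13,0),(6,0),(17,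
  1)]⟩ ⟨1,[(7,1),(8,0),(0,0),(26,0)]⟩)) (.Q [0,0,0,0,0,-1,0,0,0,0,0,1] (.ed false [1,-1,0,0,1] .k)
  (.S ⟨1,0,[1,1],[0,0,0,0,1],[],(⟨0,[(21,0)]⟩,⟨0,[(20,0)]⟩),⟨0,[(0,0)]⟩,.k,(.r (-1) ⟨2,[(11,0),(6,
  0),(0,0)]⟩ ⟨1,[(25,0),(0,0),(2,1)]⟩),⟨false,1,⟨4,[(18,1),(0,1),(27,2),(1,0)]⟩,⟨0,[]⟩⟩,⟨true,0,⟨0,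
  [(49,0)]⟩,⟨0,[]⟩⟩,⟨true,0,⟨0,[(29,0)]⟩,⟨0,[(44,0)]⟩⟩,⟨false,0,⟨0,[(45,0)]⟩,⟨23,[(9,5),(1,3),(0,5),
  (5,0),(0,0),(6,5),(20,8)]⟩⟩,[.o ⟨false,0,⟨1,[(19,1),(15,0),(5,0)]⟩,⟨0,[(1,0),(22,0),(22,0)]⟩⟩,.a
  ⟨true,0,⟨0,[(19,0)]⟩,⟨1,[(1,1),(2,0),(4,1),(12,0),(6,0)]⟩⟩ ⟨false,1,⟨1,[(46,0),(0,0)]⟩,⟨0,[(49,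
  0)]⟩⟩ ⟨true,0,⟨0,[]⟩,⟨1,[(25,0),(0,0)]⟩⟩,.e ⟨false,1,⟨1,[(18,0),(0,0),(27,0)]⟩,⟨0,[]⟩⟩ ⟨false,0,
  ⟨0,[]⟩,⟨1,[(18,0),(0,0),(27,0)]⟩⟩,.o ⟨false,0,⟨1,[(19,1),(15,0),(1,1),(3,0)]⟩,⟨1,[(1,1),(22,1),
  (21,0),(0,0)]⟩⟩]⟩) (.Q [0,0,0,-1,0,0,0,0,1,0,0,1] (.p true [0,0,0,0,1] [] (⟨0,[(21,0)]⟩,⟨0,[(20,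
  0)]⟩) .k 0 (⟨0,[]⟩,⟨0,[]⟩) .k .k) (.R ⟨0,false,false,true,[0,0,0,0,1],[0,1],[1,1,1],(⟨0,[(22,0)]⟩,
  ⟨0,[(21,0)]⟩),(⟨0,[(34,0)]⟩,⟨0,[(33,0)]⟩),⟨0,[(1,0)]⟩,.k,.k,(.r (-1) ⟨2,[(12,0),(6,0),(0,0)]⟩ ⟨1,
  [(26,0),(0,0),(2,1)]⟩),(.r (-1) ⟨2,[(12,0),(6,0),(0,0)]⟩ ⟨1,[(26,0),(0,0),(2,1)]⟩),.k,.k,⟨false,1,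
  ⟨2,[(12,0),(6,0),(0,0)]⟩,⟨0,[(46,0)]⟩⟩,⟨true,1,⟨1,[(2,1),(22,1),(21,0),(0,0)]⟩,⟨1,[(0,0),(19,0),
  (9,0),(5,1),(1,3)]⟩⟩,⟨false,0,⟨1,[(26,0),(0,0)]⟩,⟨1,[(47,0),(0,0)]⟩⟩,⟨true,0,⟨0,[(2,0),(22,0),(4,
  0)]⟩,⟨0,[(0,0)]⟩⟩,⟨false,0,⟨0,[]⟩,⟨0,[]⟩⟩,⟨false,0,⟨0,[]⟩,⟨0,[]⟩⟩,[.o ⟨false,0,⟨1,[(30,1),(5,0),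
  (5,0)]⟩,⟨23,[(10,5),(1,3),(0,5),(5,0),(0,0),(6,5),(20,8)]⟩⟩,.e ⟨false,0,⟨0,[]⟩,⟨1,[(19,0),(0,0),
  (26,0)]⟩⟩ ⟨false,1,⟨1,[(2,1),(22,1),(4,1),(16,0),(0,0)]⟩,⟨0,[(0,0)]⟩⟩,.a ⟨true,0,⟨0,[(20,0)]⟩,⟨0,
  [(2,0),(7,0),(12,0)]⟩⟩ ⟨false,0,⟨1,[(26,0),(0,0)]⟩,⟨1,[(47,0),(0,0)]⟩⟩ ⟨true,0,⟨0,[(2,0),(22,0),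
  (4,0)]⟩,⟨0,[(0,0)]⟩⟩,.o ⟨false,0,⟨1,[(20,1),(15,0),(1,1),(3,0)]⟩,⟨1,[(2,1),(22,1),(21,0),(0,
  0)]⟩⟩]⟩) (.Q [-1,0,0,1,0,0,0,0,-1,0,0,-1] (.p false [0,0,0,0,1] [] (⟨0,[(22,0)]⟩,⟨0,[(21,0)]⟩) .k
  0 (⟨0,[]⟩,⟨0,[]⟩) .k .k) (.R ⟨2,true,false,true,[0,1],[0,0,0,0,1],[2,1],(⟨0,[]⟩,⟨0,[]⟩),(⟨0,[(23,
  0)]⟩,⟨0,[(22,0)]⟩),⟨0,[]⟩,.k,.k,.k,(.r 0 ⟨1,[(27,0),(0,0),(2,1)]⟩ ⟨2,[(13,0),(6,0),(0,0)]⟩),.k,.k,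
  ⟨true,0,⟨0,[]⟩,⟨1,[(27,0),(0,0)]⟩⟩,⟨false,0,⟨0,[(21,0)]⟩,⟨4,[(1,2),(11,0),(6,1),(27,0)]⟩⟩,⟨false,
  1,⟨2,[(13,0),(6,0),(0,0)]⟩,⟨0,[(31,0),(7,0)]⟩⟩,⟨true,0,⟨0,[(21,0),(24,0)]⟩,⟨0,[(0,0)]⟩⟩,⟨true,0,
  ⟨1,[(37,0),(10,0)]⟩,⟨0,[(50,0)]⟩⟩,⟨false,0,⟨0,[(21,0)]⟩,⟨5,[(0,1),(0,1),(14,1),(3,1),(22,0),(5,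
  2)]⟩⟩,[]⟩) (.R ⟨1,true,false,false,[1,-1],[1,0,0,0,-1],[0,1,-1,-1],(⟨0,[(34,0)]⟩,⟨0,[(35,0)]⟩),
  (⟨0,[(22,0)]⟩,⟨0,[(23,0)]⟩),⟨1,[(5,0),(12,0),(15,0)]⟩,.k,.k,(.r (-2) ⟨2,[(13,1),(6,1),(0,1)]⟩ ⟨0,
  [(31,1),(5,0),(1,1)]⟩),(.r (-1) ⟨2,[(13,0),(6,0),(0,0)]⟩ ⟨1,[(27,0),(0,0),(2,1)]⟩),(.r (-2) ⟨2,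
  [(13,1),(6,1),(0,1)]⟩ ⟨0,[(31,1),(5,0),(1,1)]⟩),.k,⟨false,1,⟨11,[(13,3),(6,0),(0,0),(14,5),(11,
  2)]⟩,⟨0,[(31,0),(7,0)]⟩⟩,⟨true,1,⟨4,[(1,2),(11,0),(6,1),(27,0)]⟩,⟨0,[(0,0),(30,0),(5,0),(1,1)]⟩⟩,
  ⟨true,0,⟨0,[(51,0)]⟩,⟨0,[]⟩⟩,⟨false,1,⟨1,[(1,0),(18,0),(10,0),(17,0)]⟩,⟨0,[(0,0)]⟩⟩,⟨false,0,⟨0,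
  [(47,0)]⟩,⟨23,[(11,5),(1,3),(0,5),(5,0),(0,0),(6,5),(20,8)]⟩⟩,⟨true,0,⟨0,[(1,0),(29,0)]⟩,⟨0,[(0,
  0),(45,0)]⟩⟩,[]⟩)))) (.Q [0,0,1,1,-1,0,-2,-1,0,1,-2] (.p false [0,0,1] [1,0,-1] (⟨0,[(27,0)]⟩,⟨0,
  [(26,0)]⟩) .k 2 (⟨0,[(26,0)]⟩,⟨0,[(27,0)]⟩) .k (.r 0 ⟨0,[(5,0),(1,1),(13,0),(24,0)]⟩ ⟨0,[(8,1),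
  (36,0)]⟩)) (.Q [0,0,0,0,1,0,2,0,0,-1,2] (.p true [0,0,1] [1,0,-1] (⟨0,[(28,0)]⟩,⟨0,[(27,0)]⟩) .k
  2 (⟨0,[(27,0)]⟩,⟨0,[(28,0)]⟩) .k (.r 0 ⟨0,[(6,0),(1,1),(13,0),(24,0)]⟩ ⟨0,[(9,1),(36,0)]⟩)) (.R
  ⟨0,false,false,true,[1,-1,-1],[0,-1,1],[],(⟨0,[(17,0)]⟩,⟨22,[(0,2),(15,2),(12,22),(1,4),(8,5),(0,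
  2)]⟩),(⟨0,[(18,0)]⟩,⟨22,[(0,2),(15,2),(11,22),(2,4),(8,5),(0,2)]⟩),⟨2,[(4,0),(13,1),(12,0),(8,
  2)]⟩,.k,.k,(.r (-2) ⟨17,[(0,1),(1,3),(7,13),(1,11),(6,3),(21,0),(5,6)]⟩ ⟨0,[(7,0),(1,0),(20,1),(7,
  0)]⟩),.k,.k,.k,⟨false,1,⟨1,[(10,1),(19,1),(16,0),(0,0)]⟩,⟨0,[(5,0),(3,0)]⟩⟩,⟨true,1,⟨0,[(0,0)]⟩,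
  ⟨1,[(7,2),(15,0),(8,0)]⟩⟩,⟨false,0,⟨0,[(7,0),(1,0),(20,0),(17,0)]⟩,⟨1,[(6,1),(40,0),(0,0)]⟩⟩,
  ⟨true,0,⟨0,[(8,0),(0,0),(20,0)]⟩,⟨1,[(1,1),(4,1),(40,0),(0,0)]⟩⟩,⟨false,0,⟨0,[]⟩,⟨0,[]⟩⟩,⟨false,0,
  ⟨0,[]⟩,⟨0,[]⟩⟩,[.o ⟨false,0,⟨3,[(3,1),(5,1),(26,0),(5,0)]⟩,⟨0,[(25,0),(4,0),(17,0)]⟩⟩,.e ⟨false,1,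
  ⟨1,[(47,0),(0,0)]⟩,⟨0,[(50,0)]⟩⟩ ⟨false,2,⟨1,[(0,0),(8,0),(3,0),(33,1)]⟩,⟨0,[(1,0)]⟩⟩,.a ⟨true,
  (-1),⟨0,[(7,0)]⟩,⟨17,[(0,12),(15,3),(14,0),(1,0),(7,3),(5,8)]⟩⟩ ⟨false,1,⟨1,[(0,0),(15,0),(31,
  0)]⟩,⟨0,[]⟩⟩ ⟨true,1,⟨9,[(0,4),(7,3),(0,4),(2,1),(11,0),(10,1),(11,0)]⟩,⟨0,[(1,0)]⟩⟩,.o ⟨false,
  (-1),⟨1,[(7,1),(28,0),(1,1),(3,0)]⟩,⟨3,[(0,2),(15,0),(25,0),(4,3)]⟩⟩]⟩) (.Q [1,0,0,0,-1,0,0,0,1,0,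
  0,1] (.p true [0,0,0,0,1] [] (⟨0,[(22,0)]⟩,⟨0,[(21,0)]⟩) .k 0 (⟨0,[]⟩,⟨0,[]⟩) .k .k) (.R ⟨2,true,
  false,true,[0,1],[0,0,0,0,1],[1,1],(⟨0,[]⟩,⟨0,[]⟩),(⟨0,[(23,0)]⟩,⟨0,[(22,0)]⟩),⟨0,[]⟩,.k,.k,.k,
  (.r 0 ⟨1,[(27,0),(0,0),(2,1)]⟩ ⟨2,[(13,0),(6,0),(0,0)]⟩),.k,.k,⟨false,1,⟨1,[(20,0),(0,0),(26,0)]⟩,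
  ⟨0,[]⟩⟩,⟨true,(-1),⟨3,[(0,3),(26,0),(0,0),(21,1)]⟩,⟨0,[(20,0)]⟩⟩,⟨false,1,⟨2,[(13,0),(6,0),(0,
  0)]⟩,⟨0,[(31,0),(7,0)]⟩⟩,⟨true,(-1),⟨0,[(0,0),(45,0)]⟩,⟨0,[(20,0),(10,0)]⟩⟩,⟨true,0,⟨0,[(40,0)]⟩,
  ⟨1,[(27,0),(0,0)]⟩⟩,⟨false,(-1),⟨0,[(0,0)]⟩,⟨4,[(20,6),(0,1),(27,2),(1,0)]⟩⟩,[]⟩) (.Q [-1,0,1,0,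
  -1,0,-1,0,-1,1,-1,-1] (.p false [0,0,1] [1,0,0,0,-1] (⟨0,[(30,0)]⟩,⟨0,[(29,0)]⟩) .k 2 (⟨0,[(22,
  0)]⟩,⟨0,[(23,0)]⟩) .k (.r 0 ⟨1,[(1,0),(8,0),(4,0),(15,0)]⟩ ⟨1,[(0,0),(10,1),(9,0),(26,0)]⟩)) (.R
  ⟨0,false,false,true,[1,-1,-1],[0,0,0,0,1],[1,1,1],(⟨0,[(19,0)]⟩,⟨21,[(1,2),(20,2),(8,21),(1,3),(8,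
  5),(0,2)]⟩),(⟨0,[(24,0)]⟩,⟨0,[(23,0)]⟩),⟨2,[(6,0),(13,1),(12,0),(8,2)]⟩,.k,.k,(.r (-2) ⟨5,[(12,5),
  (1,3),(6,0),(0,0),(26,2)]⟩ ⟨0,[(9,0),(1,0),(20,1),(7,0)]⟩),(.x 1 ⟨0,[(0,0),(5,0),(17,0),(17,0)]⟩
  ⟨0,[(19,0),(2,0),(0,0),(4,0),(15,0),(4,0)]⟩),.k,.k,⟨true,0,⟨1,[(28,0),(0,0)]⟩,⟨0,[]⟩⟩,⟨false,2,⟨1,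
  [(22,1),(5,1),(15,0),(4,2)]⟩,⟨0,[(0,0)]⟩⟩,⟨false,(-1),⟨0,[(9,0),(1,0),(20,0),(7,0)]⟩,⟨0,[(8,0),
  (40,0),(0,0)]⟩⟩,⟨true,0,⟨0,[(11,0),(10,0),(9,0)]⟩,⟨1,[(0,1),(7,1),(40,0),(0,0)]⟩⟩,⟨false,0,⟨0,[]⟩,
  ⟨0,[]⟩⟩,⟨false,0,⟨0,[]⟩,⟨0,[]⟩⟩,[.o ⟨false,0,⟨1,[(22,1),(15,0),(5,0)]⟩,⟨1,[(0,1),(27,1),(5,0),(14,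
  1),(0,0)]⟩⟩,.e ⟨false,0,⟨0,[]⟩,⟨1,[(21,0),(0,0),(26,0)]⟩⟩ ⟨false,2,⟨1,[(22,1),(5,1),(15,0),(4,
  2)]⟩,⟨0,[(0,0)]⟩⟩,.a ⟨true,(-1),⟨0,[(9,0)]⟩,⟨0,[(28,0),(20,0)]⟩⟩ ⟨false,0,⟨1,[(28,0),(0,0)]⟩,⟨1,
  [(49,0),(0,0)]⟩⟩ ⟨true,1,⟨0,[(11,0),(0,0),(9,0),(26,0)]⟩,⟨0,[(0,0)]⟩⟩,.o ⟨false,(-1),⟨1,[(9,1),
  (28,0),(1,1),(3,0)]⟩,⟨1,[(28,1),(15,0),(4,2)]⟩⟩]⟩) (.Q [0,0,-2,0,2,0,2,0,0,-1,2] (.p true [0,0,1]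
  [1,0,-1] (⟨0,[(31,0)]⟩,⟨0,[(30,0)]⟩) .k 2 (⟨0,[(30,0)]⟩,⟨0,[(31,0)]⟩) .k (.r 0 ⟨0,[(2,0),(8,0),(4,
  0),(15,0)]⟩ ⟨0,[(12,1),(36,0)]⟩)) (.R ⟨0,false,false,true,[1,-1,-1],[0,0,1],[1,1,1],(⟨0,[(20,0)]⟩,
  ⟨55,[(0,2),(18,5),(9,5),(2,55),(1,10),(8,14),(0,5)]⟩),(⟨0,[(32,0)]⟩,⟨0,[(31,0)]⟩),⟨2,[(7,0),(13,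
  1),(12,0),(8,2)]⟩,.k,.k,(.r (-2) ⟨7,[(0,2),(3,1),(8,5),(1,5),(3,0)]⟩ ⟨0,[(10,0),(1,0),(20,1),(7,
  0)]⟩),(.r (-2) ⟨3,[(0,2),(3,1),(8,5),(1,1),(3,0)]⟩ ⟨0,[(3,0),(7,0),(0,0),(20,1),(7,0)]⟩),.k,.k,
  ⟨true,0,⟨0,[(13,0)]⟩,⟨1,[(3,0),(8,0),(4,0),(15,0)]⟩⟩,⟨false,2,⟨0,[(0,0)]⟩,⟨1,[(3,0),(6,0),(19,
  0)]⟩⟩,⟨false,(-1),⟨0,[(10,0),(1,0),(20,0),(7,0)]⟩,⟨0,[(9,0),(40,0),(0,0)]⟩⟩,⟨true,0,⟨0,[(11,0),(0,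
  0),(20,1)]⟩,⟨3,[(3,1),(0,1),(4,5),(40,0),(0,2)]⟩⟩,⟨false,0,⟨0,[]⟩,⟨0,[]⟩⟩,⟨false,0,⟨0,[]⟩,⟨0,[]⟩⟩,
  [.o ⟨false,0,⟨0,[(12,0)]⟩,⟨0,[(28,0),(22,0)]⟩⟩,.e ⟨false,0,⟨0,[]⟩,⟨1,[(0,0),(18,0)]⟩⟩ ⟨false,2,⟨1,
  [(0,0),(11,0),(4,0),(15,0),(16,0)]⟩,⟨0,[(3,0),(9,0)]⟩⟩,.a ⟨true,(-1),⟨0,[(10,0)]⟩,⟨6,[(0,3),(18,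
  0),(9,0),(4,0),(1,0),(7,0)]⟩⟩ ⟨false,0,⟨1,[(29,0),(0,0)]⟩,⟨1,[(50,0),(0,0)]⟩⟩ ⟨true,1,⟨1,[(0,0),
  (11,0),(14,0)]⟩,⟨0,[(3,0),(9,0)]⟩⟩,.o ⟨false,(-1),⟨1,[(10,1),(28,0),(1,1),(3,0)]⟩,⟨3,[(0,2),(18,
  0),(25,0),(4,0)]⟩⟩]⟩) (.Q [0,0,0,0,0,-1,0,0,0,0,0,1] (.ed false [1,-1,0,0,1] .k) (.Q [0,0,0,0,0,0,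
  0,0,1,-1,0,1] (.p true [0,0,0,0,1] [1] (⟨0,[(26,0)]⟩,⟨0,[(25,0)]⟩) .k 1 (⟨0,[]⟩,⟨0,[]⟩) .k .k)
  (.Q [0,0,1,0,-1,0,0,0,1,0,0,1] (.p true [0,0,0,0,1] [] (⟨0,[(27,0)]⟩,⟨0,[(26,0)]⟩) .k 0 (⟨0,[]⟩,
  ⟨0,[]⟩) .k .k) (.S ⟨1,0,[1,1],[0,0,0,0,1],[1,1,1],(⟨0,[(28,0)]⟩,⟨0,[(27,0)]⟩),⟨0,[(2,0)]⟩,.k,(.r
  (-1) ⟨7,[(4,1),(13,1),(2,0),(0,0),(2,1)]⟩ ⟨1,[(32,0),(0,0),(2,1)]⟩),⟨false,0,⟨1,[(32,0),(0,0)]⟩,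
  ⟨1,[(53,0),(0,0)]⟩⟩,⟨true,0,⟨0,[(56,0)]⟩,⟨0,[]⟩⟩,⟨true,(-1),⟨0,[(36,0),(5,0),(1,0)]⟩,⟨7,[(4,1),
  (13,1),(2,0),(0,0),(2,1)]⟩⟩,⟨false,0,⟨0,[(52,0)]⟩,⟨13,[(8,0),(7,2),(1,1),(0,3),(5,0),(7,2),(20,
  4)]⟩⟩,[.e ⟨false,0,⟨0,[(56,0)]⟩,⟨1,[(53,0),(0,0)]⟩⟩ ⟨false,0,⟨0,[(45,0)]⟩,⟨1,[(25,0),(0,0),(27,
  0)]⟩⟩,.o ⟨false,0,⟨0,[(1,0)]⟩,⟨0,[(5,0)]⟩⟩,.o ⟨false,0,⟨0,[(1,0)]⟩,⟨0,[(25,0)]⟩⟩,.a ⟨true,(-1),⟨0,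
  [(0,0)]⟩,⟨1,[(5,1),(41,0),(5,0)]⟩⟩ ⟨false,0,⟨0,[]⟩,⟨1,[(25,0),(0,0),(27,0)]⟩⟩ ⟨true,0,⟨0,[(45,
  0)]⟩,⟨1,[(32,0),(0,0)]⟩⟩]⟩) (.R ⟨2,true,false,false,[0,1],[0,0,0,0,1],[1,0,1],(⟨0,[]⟩,⟨0,[]⟩),(⟨0,
  [(28,0)]⟩,⟨0,[(27,0)]⟩),⟨0,[]⟩,.k,.k,.k,(.r 0 ⟨1,[(32,0),(0,0),(2,1)]⟩ ⟨7,[(4,1),(13,1),(2,0),(0,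
  0),(2,1)]⟩),.k,.k,⟨true,0,⟨1,[(32,0),(0,0)]⟩,⟨0,[]⟩⟩,⟨false,0,⟨0,[(26,0)]⟩,⟨0,[(0,0)]⟩⟩,⟨false,1,
  ⟨13,[(8,0),(7,2),(1,1),(0,3),(5,0),(7,2),(20,4)]⟩,⟨0,[(52,0)]⟩⟩,⟨true,0,⟨1,[(1,0),(19,0),(4,0)]⟩,
  ⟨0,[(0,0),(35,0),(5,0),(1,0)]⟩⟩,⟨true,0,⟨0,[]⟩,⟨0,[(56,0)]⟩⟩,⟨false,0,⟨1,[(1,1),(45,0),(6,0)]⟩,⟨0,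
  [(5,0)]⟩⟩,[]⟩)) (.R ⟨1,false,false,true,[0,0,0,0,1],[0,1],[1,1,1],(⟨0,[(27,0)]⟩,⟨0,[(26,0)]⟩),(⟨0,
  [(39,0)]⟩,⟨0,[(38,0)]⟩),⟨0,[(1,0)]⟩,.k,.k,(.r (-1) ⟨7,[(3,1),(13,1),(2,0),(0,0),(2,1)]⟩ ⟨1,[(31,
  0),(0,0),(2,1)]⟩),(.r (-1) ⟨7,[(3,1),(13,1),(2,0),(0,0),(2,1)]⟩ ⟨1,[(31,0),(0,0),(2,1)]⟩),(.r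
  (-2) ⟨3,[(3,1),(13,1),(2,0),(0,0),(2,1)]⟩ ⟨0,[(35,1),(5,0),(1,1)]⟩),.k,⟨false,1,⟨7,[(3,1),(13,1),
  (2,0),(0,0),(2,1)]⟩,⟨0,[(51,0)]⟩⟩,⟨true,1,⟨1,[(0,1),(36,0),(14,0)]⟩,⟨3,[(2,3),(0,3),(4,0),(6,0),
  (15,2),(3,1)]⟩⟩,⟨false,0,⟨1,[(31,0),(0,0)]⟩,⟨1,[(52,0),(0,0)]⟩⟩,⟨true,0,⟨1,[(0,1),(34,1),(1,0),(3,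
  0)]⟩,⟨1,[(7,0),(0,0),(16,0)]⟩⟩,⟨true,(-1),⟨0,[(35,0),(5,0),(1,0)]⟩,⟨7,[(3,1),(13,1),(2,0),(0,0),
  (2,1)]⟩⟩,⟨true,0,⟨1,[(0,1),(34,3),(5,0),(5,0)]⟩,⟨0,[(7,0),(0,0)]⟩⟩,[.o ⟨false,0,⟨1,[(35,1),(5,0),
  (5,0)]⟩,⟨13,[(7,0),(7,2),(1,1),(0,3),(5,0),(7,2),(20,4)]⟩⟩,.e ⟨false,0,⟨0,[]⟩,⟨9,[(3,3),(0,3),(16,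
  1),(24,0),(5,2)]⟩⟩ ⟨false,1,⟨1,[(0,1),(34,1),(11,0),(4,0)]⟩,⟨1,[(7,0),(0,0),(16,0)]⟩⟩,.a ⟨true,0,
  ⟨0,[(25,0)]⟩,⟨0,[(0,0)]⟩⟩ ⟨false,0,⟨1,[(31,0),(0,0)]⟩,⟨1,[(52,0),(0,0)]⟩⟩ ⟨true,0,⟨1,[(0,1),(34,
  1),(5,0),(5,0)]⟩,⟨1,[(7,0),(0,0),(16,0)]⟩⟩,.o ⟨false,0,⟨1,[(2,0),(0,0),(21,0),(5,0),(15,0)]⟩,⟨1,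
  [(0,1),(36,0),(14,0)]⟩⟩]⟩)) (.Q [0,0,1,-1,-1,0,0,0,1,0,0,1] (.p true [0,0,0,0,1] [] (⟨0,[(26,0)]⟩,
  ⟨0,[(25,0)]⟩) .k 0 (⟨0,[]⟩,⟨0,[]⟩) .k .k) (.R ⟨0,false,false,false,[0,0,0,0,1],[0,1],[],(⟨0,[(27,
  0)]⟩,⟨0,[(26,0)]⟩),(⟨0,[(39,0)]⟩,⟨0,[(38,0)]⟩),⟨0,[(1,0)]⟩,.k,.k,(.r (-1) ⟨7,[(3,1),(13,1),(2,0),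
  (0,0),(2,1)]⟩ ⟨1,[(31,0),(0,0),(2,1)]⟩),(.r (-1) ⟨7,[(3,1),(13,1),(2,0),(0,0),(2,1)]⟩ ⟨1,[(31,0),
  (0,0),(2,1)]⟩),.k,.k,⟨true,1,⟨7,[(3,1),(0,1),(12,1),(2,0),(0,0)]⟩,⟨0,[(35,0),(5,0),(1,1)]⟩⟩,
  ⟨false,2,⟨0,[(24,0),(27,0)]⟩,⟨0,[(0,0),(34,0)]⟩⟩,⟨false,1,⟨1,[(4,0),(20,0),(27,0)]⟩,⟨0,[]⟩⟩,⟨true,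
  1,⟨0,[(24,0),(10,0)]⟩,⟨1,[(0,1),(40,0),(10,0)]⟩⟩,⟨false,0,⟨0,[]⟩,⟨0,[]⟩⟩,⟨false,0,⟨0,[]⟩,⟨0,[]⟩⟩,
  [.a ⟨true,0,⟨0,[(51,0)]⟩,⟨15,[(4,2),(15,7),(4,2),(10,1),(1,1),(7,2)]⟩⟩ ⟨false,1,⟨9,[(3,3),(0,3),
  (16,1),(24,0),(5,2)]⟩,⟨0,[]⟩⟩ ⟨true,1,⟨0,[(24,0),(10,0)]⟩,⟨0,[(0,0)]⟩⟩,.o ⟨false,1,⟨1,[(35,1),(11,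
  0),(5,0)]⟩,⟨0,[(50,0)]⟩⟩,.o ⟨false,0,⟨1,[(0,1),(34,1),(11,0),(4,0)]⟩,⟨0,[(24,0)]⟩⟩,.e ⟨false,1,⟨1,
  [(52,0),(0,0)]⟩,⟨1,[(31,0),(0,0)]⟩⟩ ⟨false,2,⟨1,[(24,1),(10,1),(16,0),(0,0)]⟩,⟨0,[(0,0)]⟩⟩]⟩) (.Q
  [0,0,0,0,0,0,0,0,-1,1,0,-1] (.p false [0,0,0,0,1] [1] (⟨0,[(27,0)]⟩,⟨0,[(26,0)]⟩) .k 1 (⟨0,[]⟩,⟨0,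
  []⟩) .k .k) (.R ⟨0,false,false,true,[0,0,0,0,1],[0,1],[1,1,1],(⟨0,[(28,0)]⟩,⟨0,[(27,0)]⟩),(⟨0,
  [(40,0)]⟩,⟨0,[(39,0)]⟩),⟨0,[(2,0)]⟩,.k,.k,(.r (-1) ⟨7,[(4,1),(13,1),(2,0),(0,0),(2,1)]⟩ ⟨1,[(32,
  0),(0,0),(2,1)]⟩),(.r (-1) ⟨7,[(4,1),(13,1),(2,0),(0,0),(2,1)]⟩ ⟨1,[(32,0),(0,0),(2,1)]⟩),.k,.k,
  ⟨false,1,⟨7,[(4,1),(13,1),(2,0),(0,0),(2,1)]⟩,⟨0,[(52,0)]⟩⟩,⟨true,1,⟨1,[(0,1),(37,0),(14,0)]⟩,⟨3,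
  [(3,3),(0,3),(4,0),(6,0),(15,2),(3,1)]⟩⟩,⟨false,0,⟨1,[(32,0),(0,0)]⟩,⟨1,[(53,0),(0,0)]⟩⟩,⟨true,0,
  ⟨2,[(0,1),(0,0),(34,1),(5,1),(1,0),(3,0)]⟩,⟨1,[(8,0),(0,0),(16,0)]⟩⟩,⟨false,0,⟨0,[]⟩,⟨0,[]⟩⟩,
  ⟨false,0,⟨0,[]⟩,⟨0,[]⟩⟩,[.o ⟨false,0,⟨1,[(36,1),(5,0),(5,0)]⟩,⟨13,[(8,0),(7,2),(1,1),(0,3),(5,0),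
  (7,2),(20,4)]⟩⟩,.e ⟨false,0,⟨0,[]⟩,⟨39,[(1,17),(2,3),(0,6),(12,5),(3,1),(3,20),(20,0)]⟩⟩ ⟨false,1,
  ⟨0,[(1,0)]⟩,⟨1,[(8,0),(0,0),(16,0)]⟩⟩,.a ⟨true,0,⟨0,[(26,0)]⟩,⟨0,[(0,0)]⟩⟩ ⟨false,0,⟨1,[(32,0),(0,
  0)]⟩,⟨1,[(53,0),(0,0)]⟩⟩ ⟨true,0,⟨5,[(0,1),(0,3),(34,1),(5,4),(1,3),(3,0)]⟩,⟨1,[(8,0),(0,0),(16,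
  0)]⟩⟩,.o ⟨false,0,⟨1,[(3,0),(0,0),(21,0),(5,0),(15,0)]⟩,⟨1,[(0,1),(37,0),(14,0)]⟩⟩]⟩) (.I [0,0,-1,
  0,1,-1,1,0,1] (.R ⟨0,false,false,false,[1,-1,-1],[0,0,0,0,1],[],(⟨0,[(24,0)]⟩,⟨21,[(6,2),(20,2),
  (8,21),(1,3),(8,5),(0,2)]⟩),(⟨0,[(29,0)]⟩,⟨0,[(28,0)]⟩),⟨2,[(11,0),(13,1),(12,0),(8,2)]⟩,.k,.k,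
  (.r (-2) ⟨33,[(2,9),(2,1),(3,1),(7,31),(1,25),(7,5),(20,0),(5,4)]⟩ ⟨1,[(4,0),(11,0),(14,0),(5,3),
  (7,1)]⟩),(.x 0 ⟨1,[(4,0),(1,0),(18,0),(0,0),(2,1),(6,0),(10,0)]⟩ ⟨0,[(0,0)]⟩),.k,.k,⟨false,1,⟨1,
  [(6,0),(20,0),(26,0)]⟩,⟨0,[]⟩⟩,⟨true,1,⟨15,[(1,1),(3,13),(4,1),(2,1),(23,5),(16,0),(0,0)]⟩,⟨1,[(2,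
  1),(1,1),(5,0),(6,0),(15,0)]⟩⟩,⟨false,0,⟨1,[(4,0),(11,0),(4,0),(15,2),(17,0)]⟩,⟨1,[(13,1),(40,0),
  (0,0)]⟩⟩,⟨true,0,⟨0,[(1,0),(13,0),(21,1)]⟩,⟨37,[(2,37),(1,18),(2,1),(2,3),(0,3),(1,41),(8,12),(1,
  3),(13,11),(16,1)]⟩⟩,⟨false,0,⟨0,[]⟩,⟨0,[]⟩⟩,⟨false,0,⟨0,[]⟩,⟨0,[]⟩⟩,[.o ⟨false,0,⟨0,[(1,0)]⟩,⟨0,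
  [(6,0)]⟩⟩,.e ⟨false,1,⟨1,[(54,0),(0,0)]⟩,⟨0,[(57,0)]⟩⟩ ⟨false,2,⟨1,[(5,1),(48,0),(0,0)]⟩,⟨79,[(2,
  77),(1,65),(1,1),(3,25),(0,11),(1,25),(10,11),(8,25),(4,35),(4,26),(4,0)]⟩⟩,.a ⟨true,(-1),⟨0,[(14,
  0)]⟩,⟨23,[(2,5),(2,5),(4,1),(2,1),(19,15),(14,2),(5,13),(0,0)]⟩⟩ ⟨false,1,⟨1,[(26,0),(0,0),(27,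
  0)]⟩,⟨0,[]⟩⟩ ⟨true,1,⟨0,[(5,0)]⟩,⟨79,[(2,77),(1,65),(1,1),(3,25),(0,11),(1,25),(10,11),(8,25),(4,
  35),(4,26),(4,0)]⟩⟩,.o ⟨false,(-1),⟨5,[(4,3),(28,2),(0,0),(14,1)]⟩,⟨17,[(2,11),(2,11),(4,3),(2,3),
  (19,1),(15,2),(4,6),(0,1)]⟩⟩]⟩) (.Q [0,0,-1,0,1,0,0,0,-1,0,0,-1] (.p false [0,0,0,0,1] [] (⟨0,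
  [(29,0)]⟩,⟨0,[(28,0)]⟩) .k 0 (⟨0,[]⟩,⟨0,[]⟩) .k .k) (.R ⟨2,true,false,false,[0,1],[0,0,0,0,1],[1,
  0,1],(⟨0,[]⟩,⟨0,[]⟩),(⟨0,[(30,0)]⟩,⟨0,[(29,0)]⟩),⟨0,[]⟩,.k,.k,.k,(.r 0 ⟨1,[(34,0),(0,0),(2,1)]⟩
  ⟨7,[(6,1),(13,1),(2,0),(0,0),(2,1)]⟩),.k,.k,⟨true,0,⟨1,[(34,0),(0,0)]⟩,⟨0,[]⟩⟩,⟨false,0,⟨0,[(28,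
  0)]⟩,⟨0,[(0,0)]⟩⟩,⟨false,1,⟨13,[(10,0),(7,2),(1,1),(0,3),(5,0),(7,2),(20,4)]⟩,⟨0,[(54,0)]⟩⟩,⟨true,
  0,⟨1,[(2,0),(20,0),(4,0)]⟩,⟨0,[(0,0),(37,0),(5,0),(1,0)]⟩⟩,⟨true,0,⟨0,[]⟩,⟨0,[(58,0)]⟩⟩,⟨false,0,
  ⟨1,[(2,1),(46,0),(6,0)]⟩,⟨0,[(7,0)]⟩⟩,[]⟩) (.K ⟨0,[0,0,0,0,1],(-1),(-1),(⟨0,[(30,0)]⟩,⟨0,[(29,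
  0)]⟩),.k,(.r (-1) ⟨7,[(6,1),(13,1),(2,0),(0,0),(2,1)]⟩ ⟨1,[(34,0),(0,0),(2,1)]⟩),(.r 0 ⟨1,[(34,0),
  (0,0),(2,1)]⟩ ⟨5,[(7,0),(12,1),(7,0),(27,0),(1,1)]⟩),.k,.k,[⟨1,[(3,1),(7,0),(6,0),(15,0)]⟩,⟨0,[(0,
  0)]⟩,⟨0,[(27,0),(30,0)]⟩,⟨3,[(0,1),(1,1),(41,1),(4,0),(5,0)]⟩]⟩)))))))))) (.Q [0,0,0,0,0,0,-2,-2,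
  0,1,-2] (.p false [0,0,1] [1,0,-1] (⟨0,[(28,0)]⟩,⟨0,[(27,0)]⟩) .k 2 (⟨0,[(27,0)]⟩,⟨0,[(28,0)]⟩)
  .k (.r 0 ⟨0,[(6,0),(1,1),(13,0),(24,0)]⟩ ⟨0,[(9,1),(36,0)]⟩)) (.R ⟨0,false,false,true,[1,-1,-1],
  [0,-1,1],[],(⟨0,[(17,0)]⟩,⟨22,[(19,2),(0,2),(8,22),(1,4),(8,5),(0,2)]⟩),(⟨0,[(18,0)]⟩,⟨22,[(19,2),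
  (0,2),(7,22),(2,4),(8,5),(0,2)]⟩),⟨2,[(4,0),(13,1),(12,0),(8,2)]⟩,.k,.k,(.r (-2) ⟨5,[(10,5),(1,3),
  (6,0),(0,0),(26,2)]⟩ ⟨0,[(7,0),(1,0),(20,1),(7,0)]⟩),.k,.k,.k,⟨false,1,⟨1,[(10,1),(19,1),(16,0),
  (0,0)]⟩,⟨0,[(5,0),(3,0)]⟩⟩,⟨true,1,⟨0,[(1,0),(8,0),(19,0)]⟩,⟨1,[(7,2),(15,0),(18,0)]⟩⟩,⟨false,0,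
  ⟨0,[(7,0),(1,0),(20,0),(17,0)]⟩,⟨0,[(0,0),(0,0)]⟩⟩,⟨true,0,⟨0,[(8,0),(0,0),(20,0)]⟩,⟨0,[(0,0)]⟩⟩,
  ⟨false,0,⟨0,[]⟩,⟨0,[]⟩⟩,⟨false,0,⟨0,[]⟩,⟨0,[]⟩⟩,[.o ⟨false,0,⟨3,[(3,1),(5,1),(26,0),(5,0)]⟩,⟨5,
  [(0,1),(1,1),(16,1),(10,5),(11,0),(5,2)]⟩⟩,.a ⟨true,0,⟨0,[(8,0)]⟩,⟨3,[(0,1),(18,0),(0,0),(9,3),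
  (10,0)]⟩⟩ ⟨false,1,⟨1,[(47,0),(0,0)]⟩,⟨0,[(50,0)]⟩⟩ ⟨true,1,⟨0,[(1,0)]⟩,⟨3,[(0,0),(6,4),(2,1),(16,
  0),(2,3),(11,0)]⟩⟩,.e ⟨false,1,⟨1,[(19,0),(0,0),(27,0)]⟩,⟨0,[]⟩⟩ ⟨false,1,⟨0,[(1,0)]⟩,⟨1,[(0,0),
  (15,0),(13,1),(7,1)]⟩⟩,.o ⟨false,(-1),⟨1,[(7,1),(28,0),(1,1),(3,0)]⟩,⟨1,[(26,1),(15,0),(4,
  2)]⟩⟩]⟩) (.Q [0,0,0,1,0,0,-2,-2,0,1,-2] (.p false [0,0,1] [1,0,-1] (⟨0,[(29,0)]⟩,⟨0,[(28,0)]⟩) .k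
  2 (⟨0,[(28,0)]⟩,⟨0,[(29,0)]⟩) .k (.r 0 ⟨0,[(0,0),(15,0)]⟩ ⟨0,[(10,1),(36,0)]⟩)) (.R ⟨1,true,false,
  false,[0,0,1],[1,0,-1],[0,1,0,0,0,0,0,1],(⟨0,[(30,0)]⟩,⟨0,[(29,0)]⟩),(⟨0,[(29,0)]⟩,⟨0,[(30,0)]⟩),
  ⟨0,[(19,0)]⟩,.k,.k,.k,.k,(.r 0 ⟨1,[(1,1),(4,1),(1,0),(15,0),(8,0)]⟩ ⟨1,[(0,1),(26,3),(15,0),(4,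
  0)]⟩),.k,⟨true,(-1),⟨1,[(1,1),(6,1),(15,1),(12,0),(5,0)]⟩,⟨1,[(11,3),(36,0),(0,0)]⟩⟩,⟨false,0,⟨1,
  [(8,0),(15,2),(8,0)]⟩,⟨0,[(2,0),(8,0),(19,0)]⟩⟩,⟨true,0,⟨0,[(51,0)]⟩,⟨0,[]⟩⟩,⟨false,1,⟨5,[(0,7),
  (13,3),(28,0),(5,0)]⟩,⟨0,[(1,0)]⟩⟩,⟨false,0,⟨0,[(47,0)]⟩,⟨5,[(0,1),(13,3),(28,0),(5,0)]⟩⟩,⟨true,0,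
  ⟨0,[(0,0)]⟩,⟨1,[(1,0),(8,0),(1,0)]⟩⟩,[]⟩) (.Q [0,0,1,0,-1,0,0,0,1,0,0,1] (.p true [0,0,0,0,1] []
  (⟨0,[(23,0)]⟩,⟨0,[(22,0)]⟩) .k 0 (⟨0,[]⟩,⟨0,[]⟩) .k .k) (.Q [0,0,0,0,1,0,1,0,-1,0,1,-1] (.p true
  [0,0,1] [0,0,0,0,1] (⟨0,[(31,0)]⟩,⟨0,[(30,0)]⟩) .k 2 (⟨0,[(24,0)]⟩,⟨0,[(23,0)]⟩) .k (.r 0 ⟨1,[(1,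
  0),(16,0),(13,0)]⟩ ⟨1,[(12,1),(8,0),(0,0),(26,0)]⟩)) (.K ⟨0,[0,0,0,0,1],(-1),(-1),(⟨0,[(25,0)]⟩,
  ⟨0,[(24,0)]⟩),.k,(.r (-1) ⟨2,[(15,0),(6,0),(0,0)]⟩ ⟨1,[(29,0),(0,0),(2,1)]⟩),(.r 0 ⟨1,[(29,0),(0,
  0),(2,1)]⟩ ⟨14,[(15,4),(6,1),(0,1),(27,2),(1,5)]⟩),.k,.k,[⟨0,[(0,0)]⟩,⟨0,[(1,0)]⟩,⟨0,[(22,0),(30,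
  0)]⟩,⟨1,[(1,1),(37,0),(10,0)]⟩]⟩) (.Q [0,0,0,0,0,1,0,0,0,0,0,-1] (.ed true [1,-1,0,0,1] .k) (.R
  ⟨0,false,false,false,[0,0,0,0,1],[0,1],[],(⟨0,[(26,0)]⟩,⟨0,[(25,0)]⟩),(⟨0,[(38,0)]⟩,⟨0,[(37,0)]⟩),
  ⟨0,[(0,0)]⟩,.k,.k,(.r (-1) ⟨2,[(16,0),(6,0),(0,0)]⟩ ⟨1,[(30,0),(0,0),(2,1)]⟩),(.r (-1) ⟨2,[(16,0),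
  (6,0),(0,0)]⟩ ⟨1,[(30,0),(0,0),(2,1)]⟩),.k,.k,⟨true,1,⟨2,[(16,0),(6,0),(0,0)]⟩,⟨0,[(34,0),(5,0),
  (1,1)]⟩⟩,⟨false,2,⟨0,[(23,0),(27,0)]⟩,⟨0,[(2,0)]⟩⟩,⟨false,1,⟨4,[(23,1),(0,1),(27,2),(1,0)]⟩,⟨0,
  []⟩⟩,⟨true,1,⟨0,[(23,0),(10,0)]⟩,⟨12,[(1,4),(0,7),(2,1),(1,0),(2,2),(5,1),(23,4),(4,0)]⟩⟩,⟨false,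
  0,⟨0,[]⟩,⟨0,[]⟩⟩,⟨false,0,⟨0,[]⟩,⟨0,[]⟩⟩,[.a ⟨true,0,⟨0,[(50,0)]⟩,⟨5,[(19,2),(3,0),(0,0),(10,0),
  (1,0),(7,0)]⟩⟩ ⟨false,1,⟨1,[(23,0),(0,0),(26,0)]⟩,⟨0,[]⟩⟩ ⟨true,1,⟨0,[(23,0),(10,0)]⟩,⟨1,[(1,0),
  (0,0),(4,0),(6,0)]⟩⟩,.o ⟨false,1,⟨1,[(34,1),(11,0),(5,0)]⟩,⟨0,[(49,0)]⟩⟩,.o ⟨false,0,⟨2,[(1,0),(0,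
  0),(2,0),(0,0),(27,0),(11,0)]⟩,⟨0,[(23,0)]⟩⟩,.e ⟨false,1,⟨1,[(51,0),(0,0)]⟩,⟨1,[(30,0),(0,0)]⟩⟩
  ⟨false,2,⟨1,[(23,1),(10,1),(16,0),(0,0)]⟩,⟨1,[(1,0),(0,0),(4,0),(6,0)]⟩⟩]⟩) (.R ⟨1,false,false,
  false,[0,0,0,0,1],[0,1],[],(⟨0,[(26,0)]⟩,⟨0,[(25,0)]⟩),(⟨0,[(38,0)]⟩,⟨0,[(37,0)]⟩),⟨0,[(0,0)]⟩,.k,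
  .k,(.r (-1) ⟨2,[(16,0),(6,0),(0,0)]⟩ ⟨1,[(30,0),(0,0),(2,1)]⟩),(.r (-1) ⟨2,[(16,0),(6,0),(0,0)]⟩
  ⟨1,[(30,0),(0,0),(2,1)]⟩),(.r (-2) ⟨2,[(16,1),(6,1),(0,1)]⟩ ⟨0,[(34,1),(5,0),(1,1)]⟩),.k,⟨true,1,
  ⟨2,[(16,0),(6,0),(0,0)]⟩,⟨0,[(34,0),(5,0),(1,1)]⟩⟩,⟨false,2,⟨0,[(23,0),(27,0)]⟩,⟨0,[(2,0)]⟩⟩,
  ⟨false,1,⟨4,[(23,1),(0,1),(27,2),(1,0)]⟩,⟨0,[]⟩⟩,⟨true,1,⟨0,[(23,0),(10,0)]⟩,⟨12,[(1,4),(0,7),(2,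
  1),(1,0),(2,2),(5,1),(23,4),(4,0)]⟩⟩,⟨true,0,⟨0,[(34,0)]⟩,⟨0,[(49,0)]⟩⟩,⟨true,1,⟨0,[(23,0),(10,
  1)]⟩,⟨25,[(1,17),(0,7),(2,1),(1,13),(2,15),(5,1),(23,4),(4,0)]⟩⟩,[.a ⟨true,0,⟨0,[(50,0)]⟩,⟨5,[(19,
  2),(3,0),(0,0),(10,0),(1,0),(7,0)]⟩⟩ ⟨false,1,⟨1,[(23,0),(0,0),(26,0)]⟩,⟨0,[]⟩⟩ ⟨true,1,⟨0,[(23,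
  0),(10,0)]⟩,⟨1,[(1,0),(0,0),(4,0),(6,0)]⟩⟩,.o ⟨false,1,⟨1,[(34,1),(11,0),(5,0)]⟩,⟨0,[(49,0)]⟩⟩,.o
  ⟨false,0,⟨2,[(1,0),(0,0),(2,0),(0,0),(27,0),(11,0)]⟩,⟨0,[(23,0)]⟩⟩,.e ⟨false,1,⟨1,[(51,0),(0,0)]⟩,
  ⟨1,[(30,0),(0,0)]⟩⟩ ⟨false,2,⟨1,[(23,1),(10,1),(16,0),(0,0)]⟩,⟨1,[(1,0),(0,0),(4,0),(6,0)]⟩⟩]⟩)))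
  (.Q [0,0,0,2,0,0,-2,-2,0,1,-2] (.p false [0,0,1] [1,0,-1] (⟨0,[(31,0)]⟩,⟨0,[(30,0)]⟩) .k 2 (⟨0,
  [(30,0)]⟩,⟨0,[(31,0)]⟩) .k (.r 0 ⟨0,[(2,0),(15,0)]⟩ ⟨0,[(12,1),(36,0)]⟩)) (.R ⟨1,true,false,false,
  [0,0,1],[1,1,-1],[0,1,0,0,0,0,0,1],(⟨0,[(32,0)]⟩,⟨0,[(31,0)]⟩),(⟨75,[(0,5),(16,5),(0,2),(8,5),(3,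
  75),(2,12),(8,20),(0,5)]⟩,⟨0,[(21,0)]⟩),⟨0,[(21,0)]⟩,.k,.k,.k,(.r 0 ⟨1,[(3,1),(4,1),(1,0),(15,0),
  (8,0)]⟩ ⟨7,[(0,5),(3,3),(8,7),(8,2),(0,2),(5,3),(15,0)]⟩),(.r (-1) ⟨4,[(3,4),(4,3),(6,1),(3,2),
  (15,0)]⟩ ⟨0,[(13,1),(19,1)]⟩),.k,⟨false,0,⟨1,[(3,1),(4,1),(17,1),(12,0),(5,0)]⟩,⟨1,[(0,0),(3,0),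
  (8,2),(19,0),(17,0)]⟩⟩,⟨true,0,⟨1,[(10,0),(15,2),(8,0)]⟩,⟨0,[(3,0),(9,1)]⟩⟩,⟨true,0,⟨0,[(53,0)]⟩,
  ⟨0,[]⟩⟩,⟨false,1,⟨27,[(0,29),(12,5),(1,3),(0,9),(13,5),(14,0),(5,8)]⟩,⟨0,[(2,0)]⟩⟩,⟨false,0,⟨0,
  [(49,0)]⟩,⟨27,[(0,1),(12,5),(1,3),(0,9),(13,5),(14,0),(5,8)]⟩⟩,⟨true,0,⟨0,[(0,0)]⟩,⟨5,[(2,3),(11,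
  3),(24,0),(5,0)]⟩⟩,[]⟩) (.Q [1,-1,0,0,0,0,0,0,1,0,0,1] (.p true [0,0,0,0,1] [] (⟨0,[(25,0)]⟩,⟨0,
  [(24,0)]⟩) .k 0 (⟨0,[]⟩,⟨0,[]⟩) .k .k) (.R ⟨2,true,false,false,[0,1],[0,0,0,0,1],[1,1],(⟨0,[]⟩,⟨0,
  []⟩),(⟨0,[(26,0)]⟩,⟨0,[(25,0)]⟩),⟨0,[]⟩,.k,.k,.k,(.r 0 ⟨1,[(30,0),(0,0),(2,1)]⟩ ⟨2,[(16,0),(6,0),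
  (0,0)]⟩),.k,.k,⟨true,0,⟨0,[(54,0)]⟩,⟨0,[(48,0)]⟩⟩,⟨false,0,⟨0,[(24,0)]⟩,⟨0,[(2,0)]⟩⟩,⟨false,1,⟨2,
  [(16,0),(6,0),(0,0)]⟩,⟨0,[(34,0),(7,0)]⟩⟩,⟨true,0,⟨1,[(6,0),(0,0),(16,0)]⟩,⟨0,[(2,0),(31,0),(5,0),
  (1,0)]⟩⟩,⟨true,0,⟨0,[(43,0)]⟩,⟨1,[(30,0),(0,0)]⟩⟩,⟨false,0,⟨0,[(0,0)]⟩,⟨1,[(2,0),(20,0),(29,0)]⟩⟩,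
  []⟩) (.Q [0,0,0,0,0,-1,0,0,0,0,0,1] (.ed false [1,-1,0,0,1] .k) (.R ⟨1,false,false,true,[0,0,0,0,
  1],[0,1],[1,1,1],(⟨0,[(27,0)]⟩,⟨0,[(26,0)]⟩),(⟨0,[(39,0)]⟩,⟨0,[(38,0)]⟩),⟨0,[(0,0)]⟩,.k,.k,(.r
  (-1) ⟨2,[(17,0),(6,0),(0,0)]⟩ ⟨1,[(31,0),(0,0),(2,1)]⟩),(.r (-1) ⟨2,[(17,0),(6,0),(0,0)]⟩ ⟨1,[(31,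
  0),(0,0),(2,1)]⟩),(.r (-2) ⟨2,[(17,1),(6,1),(0,1)]⟩ ⟨0,[(35,1),(5,0),(1,1)]⟩),.k,⟨false,1,⟨2,[(17,
  0),(6,0),(0,0)]⟩,⟨0,[(51,0)]⟩⟩,⟨true,1,⟨0,[(3,0)]⟩,⟨0,[(5,0),(1,0),(4,0),(2,0)]⟩⟩,⟨false,0,⟨1,
  [(31,0),(0,0)]⟩,⟨1,[(52,0),(0,0)]⟩⟩,⟨true,0,⟨0,[(1,0),(33,0)]⟩,⟨1,[(7,0),(0,0),(16,0)]⟩⟩,⟨true,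
  (-1),⟨0,[(35,0),(5,0),(1,0)]⟩,⟨2,[(17,0),(6,0),(0,0)]⟩⟩,⟨true,0,⟨0,[(1,0),(33,1)]⟩,⟨0,[(7,0),(0,
  0)]⟩⟩,[.o ⟨false,0,⟨1,[(35,1),(5,0),(5,0)]⟩,⟨13,[(7,0),(7,2),(1,1),(0,3),(5,0),(7,2),(20,4)]⟩⟩,.e
  ⟨false,0,⟨0,[]⟩,⟨1,[(24,0),(0,0),(26,0)]⟩⟩ ⟨false,1,⟨0,[(3,0),(31,0)]⟩,⟨1,[(7,0),(0,0),(16,0)]⟩⟩,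
  .a ⟨true,0,⟨0,[(25,0)]⟩,⟨1,[(1,1),(44,0),(6,0)]⟩⟩ ⟨false,0,⟨1,[(31,0),(0,0)]⟩,⟨1,[(52,0),(0,0)]⟩⟩
  ⟨true,0,⟨0,[(1,0),(33,0)]⟩,⟨1,[(7,0),(0,0),(16,0)]⟩⟩,.o ⟨false,0,⟨1,[(25,1),(15,0),(1,1),(3,0)]⟩,
  ⟨0,[(3,0)]⟩⟩]⟩) (.R ⟨0,false,false,true,[0,0,0,0,1],[0,1],[1,1,1],(⟨0,[(27,0)]⟩,⟨0,[(26,0)]⟩),(⟨0,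
  [(39,0)]⟩,⟨0,[(38,0)]⟩),⟨0,[(0,0)]⟩,.k,.k,(.r (-1) ⟨2,[(17,0),(6,0),(0,0)]⟩ ⟨1,[(31,0),(0,0),(2,
  1)]⟩),(.r (-1) ⟨2,[(17,0),(6,0),(0,0)]⟩ ⟨1,[(31,0),(0,0),(2,1)]⟩),.k,.k,⟨false,1,⟨2,[(17,0),(6,0),
  (0,0)]⟩,⟨0,[(51,0)]⟩⟩,⟨true,1,⟨0,[(3,0)]⟩,⟨0,[(5,0),(1,0),(4,0),(2,0)]⟩⟩,⟨false,0,⟨1,[(31,0),(0,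
  0)]⟩,⟨1,[(52,0),(0,0)]⟩⟩,⟨true,0,⟨0,[(1,0),(33,0)]⟩,⟨1,[(7,0),(0,0),(16,0)]⟩⟩,⟨false,0,⟨0,[]⟩,⟨0,
  []⟩⟩,⟨false,0,⟨0,[]⟩,⟨0,[]⟩⟩,[.o ⟨false,0,⟨1,[(35,1),(5,0),(5,0)]⟩,⟨13,[(7,0),(7,2),(1,1),(0,3),
  (5,0),(7,2),(20,4)]⟩⟩,.e ⟨false,0,⟨0,[]⟩,⟨1,[(24,0),(0,0),(26,0)]⟩⟩ ⟨false,1,⟨0,[(3,0),(31,0)]⟩,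
  ⟨1,[(7,0),(0,0),(16,0)]⟩⟩,.a ⟨true,0,⟨0,[(25,0)]⟩,⟨1,[(1,1),(44,0),(6,0)]⟩⟩ ⟨false,0,⟨1,[(31,0),
  (0,0)]⟩,⟨1,[(52,0),(0,0)]⟩⟩ ⟨true,0,⟨0,[(1,0),(33,0)]⟩,⟨1,[(7,0),(0,0),(16,0)]⟩⟩,.o ⟨false,0,⟨1,
  [(25,1),(15,0),(1,1),(3,0)]⟩,⟨0,[(3,0)]⟩⟩]⟩)))))))))))

theorem ok28 : chk K t28 r19 = true := by decide +kernel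

noncomputable def t30 : Tre :=
  (.S ⟨1,0,[0,0,0,0,0,0,0,-1],[1,0,-1],[1,1,1],(⟨0,[(22,0)]⟩,⟨0,[(23,0)]⟩),⟨0,[(11,0)]⟩,.k,.k,⟨true,
  (-1),⟨0,[(1,0),(1,0)]⟩,⟨0,[(4,0),(36,0)]⟩⟩,⟨false,1,⟨1,[(13,0),(0,0),(27,0)]⟩,⟨0,[]⟩⟩,⟨false,(-1),
  ⟨0,[(0,0),(29,0),(1,0)]⟩,⟨5,[(4,5),(1,1),(6,1),(0,1),(26,2),(0,2)]⟩⟩,⟨true,0,⟨0,[(40,0)]⟩,⟨0,[(39,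
  0)]⟩⟩,[.e ⟨false,0,⟨0,[(44,0)]⟩,⟨1,[(41,0),(0,0)]⟩⟩ ⟨false,1,⟨0,[(4,0),(36,0)]⟩,⟨3,[(0,1),(2,0),
  (1,0),(4,0)]⟩⟩,.o ⟨false,1,⟨0,[(19,0),(22,0)]⟩,⟨0,[(3,0)]⟩⟩,.o ⟨false,0,⟨1,[(1,0),(15,0),(18,0)]⟩,
  ⟨1,[(20,1),(15,0),(4,0)]⟩⟩,.a ⟨true,(-1),⟨0,[(1,0)]⟩,⟨0,[(20,0),(20,0)]⟩⟩ ⟨false,0,⟨0,[]⟩,⟨1,[(13,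
  0),(0,0),(27,0)]⟩⟩ ⟨true,1,⟨0,[(4,0),(36,0)]⟩,⟨0,[(1,0),(1,0)]⟩⟩]⟩)

theorem ok30 : chk K t30 r18 = true := by decide +kernel


end Helper48.Y.Y11_c35_P3_m1n1_K2
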