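import Pool.Agent.Helper48.Y.Y11_c35_P3_m1n1_K2_p0
import Pool.Agent.Helper48.Y.Y11_c35_P3_m1n1_K2_p1

set_option autoImplicit false
set_option linter.all false

namespace Helper48.Y.Y11_c35_P3_m1n1_K2

open Helper25.KG Helper25.KW Helper55.KE Helper11.CT

noncomputable def t9 : Tre :=
  .Q [0,0,0,0,0,2,0,0,0,-1,1] (.p true [0,0,1] [1] (⟨0,[(22,0)]⟩,⟨0,[(21,0)]⟩) .k 1 (⟨0,[]⟩,⟨0,[]⟩)
  .k .k) t7 t8

theorem ok9 : chk K t9 r8 = true :=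
  chk_Q (e' := [0,0,0,0,0,-2,0,0,0,1,-1]) (by decide +kernel) (by decide +kernel) ok7 ok8

noncomputable def t10 : Tre :=
  .Q [0,0,1,1,-1,0,-1,0,0,0,-1] (.p false [0,0,1] [] (⟨0,[(21,0)]⟩,⟨0,[(20,0)]⟩) .k 0 (⟨0,[]⟩,⟨0,
  []⟩) .k .k) t6 t9

theorem ok10 : chk K t10 l7 = true :=
  chk_Q (e' := [0,0,-1,-1,1,0,1,0,0,0,1]) (by decide +kernel) (by decide +kernel) ok6 ok9

noncomputable def t12 : Tre :=
  .I [0,0,-1,-1,0,0,0,1] t10 t11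

theorem ok12 : chk K t12 r6 = true :=
  chk_I (e' := [1,0,1,1,0,0,0,-1]) (by decide +kernel) (by decide +kernel) ok10 ok11

noncomputable def t13 : Tre :=
  .Q [0,0,0,1,0,0,1,1,0,-1,1] (.p true [0,0,1] [1] (⟨0,[(19,0)]⟩,⟨0,[(18,0)]⟩) .k 1 (⟨0,[]⟩,⟨0,[]⟩)
  .k .k) t5 t12

theorem ok13 : chk K t13 l5 = true :=
  chk_Q (e' := [0,0,0,-1,0,0,-1,-1,0,1,-1]) (by decide +kernel) (by decide +kernel) ok5 ok12

noncomputable def t18 : Tre :=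
  .Q [0,0,-1,-1,1,0,1,0,0,0,1] (.p true [0,0,1] [] (⟨0,[(23,0)]⟩,⟨0,[(22,0)]⟩) .k 0 (⟨0,[]⟩,⟨0,[]⟩)
  .k .k) t16 t17

theorem ok18 : chk K t18 r13 = true :=
  chk_Q (e' := [0,0,1,1,-1,0,-1,0,0,0,-1]) (by decide +kernel) (by decide +kernel) ok16 ok17

noncomputable def t19 : Tre :=
  .Q [0,0,1,-1,0,0,1,0,0,0,1] (.p true [0,0,1] [] (⟨0,[(22,0)]⟩,⟨0,[(21,0)]⟩) .k 0 (⟨0,[]⟩,⟨0,[]⟩)
  .k .k) t15 t18

theorem ok19 : chk K t19 r12 = true :=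
  chk_Q (e' := [0,0,-1,1,0,0,-1,0,0,0,-1]) (by decide +kernel) (by decide +kernel) ok15 ok18

noncomputable def t20 : Tre :=
  .Q [0,0,0,1,0,0,1,1,0,0,1] (.p true [0,0,1] [] (⟨0,[(21,0)]⟩,⟨0,[(20,0)]⟩) .k 0 (⟨0,[]⟩,⟨0,[]⟩)
  .k .k) t14 t19

theorem ok20 : chk K t20 l11 = true :=
  chk_Q (e' := [0,0,0,-1,0,0,-1,-1,0,0,-1]) (by decide +kernel) (by decide +kernel) ok14 ok19

noncomputable def t23 : Tre :=
  .Q [0,0,-1,-1,0,0,-1,0,0,1,-1] (.p false [0,0,1] [1] (⟨0,[(21,0)]⟩,⟨0,[(20,0)]⟩) .k 1 (⟨0,[]⟩,⟨0,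
  []⟩) .k .k) t21 t22

theorem ok23 : chk K t23 r11 = true :=
  chk_Q (e' := [0,0,1,1,0,0,1,0,0,-1,1]) (by decide +kernel) (by decide +kernel) ok21 ok22

noncomputable def t24 : Tre :=
  .I [1,0,0,0,0,0,0,1] t20 t23

theorem ok24 : chk K t24 l10 = true :=
  chk_I (e' := [0,0,0,0,0,0,0,-1]) (by decide +kernel) (by decide +kernel) ok20 ok23

noncomputable def t29 : Tre :=
  .Q [0,0,1,1,0,0,1,0,0,-1,1] (.p true [0,0,1] [1] (⟨0,[(23,0)]⟩,⟨0,[(22,0)]⟩) .k 1 (⟨0,[]⟩,⟨0,[]⟩)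
  .k .k) t27 t28

theorem ok29 : chk K t29 l18 = true :=
  chk_Q (e' := [0,0,-1,-1,0,0,-1,0,0,1,-1]) (by decide +kernel) (by decide +kernel) ok27 ok28

noncomputable def t31 : Tre :=
  .I [1,1,0,-1,0,0,0,-1] t29 t30

theorem ok31 : chk K t31 r17 = true :=
  chk_I (e' := [0,-1,0,1,0,0,0,1]) (by decide +kernel) (by decide +kernel) ok29 ok30

noncomputable def t32 : Tre :=
  .Q [0,0,-1,0,1,0,1,0,0,-1,1] (.p true [0,0,1] [1] (⟨0,[(21,0)]⟩,⟨0,[(20,0)]⟩) .k 1 (⟨0,[]⟩,⟨0,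
  []⟩) .k .k) t26 t31

theorem ok32 : chk K t32 r16 = true :=
  chk_Q (e' := [0,0,1,0,-1,0,-1,0,0,1,-1]) (by decide +kernel) (by decide +kernel) ok26 ok31

noncomputable def t33 : Tre :=
  .Q [0,0,0,1,0,0,-1,-1,0,0,-1] (.p false [0,0,1] [] (⟨0,[(20,0)]⟩,⟨0,[(19,0)]⟩) .k 0 (⟨0,[]⟩,⟨0,
  []⟩) .k .k) t25 t32

theorem ok33 : chk K t33 r10 = true :=
  chk_Q (e' := [0,0,0,-1,0,0,1,1,0,0,1]) (by decide +kernel) (by decide +kernel) ok25 ok32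

noncomputable def t34 : Tre :=
  .Q [0,-1,0,0,0,0,-1,-1,0,1,-1] (.p false [0,0,1] [1] (⟨0,[(19,0)]⟩,⟨0,[(18,0)]⟩) .k 1 (⟨0,[]⟩,⟨0,
  []⟩) .k .k) t24 t33

theorem ok34 : chk K t34 r5 = true :=
  chk_Q (e' := [0,1,0,0,0,0,1,1,0,-1,1]) (by decide +kernel) (by decide +kernel) ok24 ok33

noncomputable def t35 : Tre :=
  .I [0,0,-1,0,0,0,0,1] t13 t34

theorem ok35 : chk K t35 r4 = true :=
  chk_I (e' := [1,0,1,0,0,0,0,-1]) (by decide +kernel) (by decide +kernel) ok13 ok34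

noncomputable def t36 : Tre :=
  .Q [0,-1,0,2,0,0,-1,-1,0,0,-1] (.p false [0,0,1] [] (⟨0,[(17,0)]⟩,⟨0,[(16,0)]⟩) .k 0 (⟨0,[]⟩,⟨0,
  []⟩) .k .k) t4 t35

theorem ok36 : chk K t36 r3 = true :=
  chk_Q (e' := [0,1,0,-2,0,0,1,1,0,0,1]) (by decide +kernel) (by decide +kernel) ok4 ok35

noncomputable def t37 : Tre :=
  .I [0,0,3,3,-2] t3 t36

theorem ok37 : chk K t37 r2 = true :=
  chk_I (e' := [1,0,-3,-3,2]) (by decide +kernel) (by decide +kernel) ok3 ok36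

noncomputable def t38 : Tre :=
  .Q [0,1,0,2,-1,0,-1,-1,0,0,-1] (.p false [0,0,1] [] (⟨0,[(15,0)]⟩,⟨0,[(14,0)]⟩) .k 0 (⟨0,[]⟩,⟨0,
  []⟩) .k .k) t2 t37

theorem ok38 : chk K t38 r1 = true :=
  chk_Q (e' := [0,-1,0,-2,1,0,1,1,0,0,1]) (by decide +kernel) (by decide +kernel) ok2 ok37

noncomputable def t39 : Tre :=
  .Q [0,1,0,1,-1,0,-1,-1,0,0,-1] (.p false [0,0,1] [] (⟨0,[(14,0)]⟩,⟨0,[(13,0)]⟩) .k 0 (⟨0,[]⟩,⟨0,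
  []⟩) .k .k) t1 t38

theorem ok39 : chk K t39 r0 = true :=
  chk_Q (e' := [0,-1,0,-1,1,0,1,1,0,0,1]) (by decide +kernel) (by decide +kernel) ok1 ok38

noncomputable def t40 : Tre :=
  .Q [0,0,0,2,0,0,0,0,0,-1] (.pp true [-1,1]) t0 t39

theorem ok40 : chk K t40 base = true :=
  chk_Q (e' := [0,0,0,-2,0,0,0,0,0,1]) (by decide +kernel) (by decide +kernel) ok0 ok39

theorem closed {p a b c J l q : ℤ} {D dl : ℝ} {Cl : ℤ → ℤ → ℤ → ℤ → ℝ → Prop}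
    (W : World p a b c J 1 l q D dl Cl) (g : G0 p a b c J D)
    {N X R : ℤ} {I : ℝ} (hk : KCl p l Cl N X R I) (kz : KF a b D (X + (1 : ℤ) * I) (X + (1 : ℤ) * I + R) I)
    {Ne Xe : ℤ} {Ie : ℝ} (he : EFac p 1 D Cl 1 Ne Xe Ie)
    (hkf : ∀ kf ∈ (kfY 1 [0,0,0,0,0,0,1,0,0,0,1]), KOk p l Cl 1
      (xv [1, a, b, c, p, J, X, R, Xe] [D, I, Ie]) N kf)
    (h0 : 1 ≤ (c : ℝ))
    (h1 : 1 ≤ 1 - (a : ℝ) + (b : ℝ))
    (h2 : 1 ≤ 2 * (a : ℝ) - (b : ℝ))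
    (h3 : 0 < -1 + (p : ℝ) - 2 * D)
    (h4 : 0 < 3 - (p : ℝ) + 2 * D)
    (h5 : 0 < 1 + 3 * (J : ℝ) - D)
    (h6 : 1 ≤ 1 + (a : ℝ) - (b : ℝ))
    (h7 : 1 ≤ 1 - (a : ℝ) + (b : ℝ))
    (h8 : 1 ≤ 2 + 2 * (a : ℝ) - (p : ℝ))
    (h9 : 1 ≤ 2 * (a : ℝ) - (b : ℝ))
    (h10 : 1 ≤ -2 + (J : ℝ))
    (h11 : 1 ≤ -1 + (c : ℝ))
    (h12 : 0 < -(b : ℝ) - (X : ℝ) + D - I)
    (h13 : 0 < -(J : ℝ) + I)
    (h14 : 0 < -(J : ℝ) + D - I)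
    (h15 : 0 < -2 * (X : ℝ) + D - 2 * I) : False := by
  have g1 := g.a2
  have g2 := g.b2
  have g3 := g.pa
  have g4 := g.pb
  have g5 := g.J1
  have g6 := g.JD
  have g7 := g.D2
  have g8 := g.ca
  have g9 := g.ca'
  have k1 := kz.I0
  have k2 := kz.ID
  have k3 := kz.z1
  have k4 := kz.z2
  have k5 := kz.s1
  have k6 := kz.s2
  have e1 := he.I0
  have e2 := he.ID
  have e3 := he.x0
  have e4 := he.xp
  push_cast at *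
  refine (val_E W.toBase hk he (row := [1]) (by simp) (by simp) (kfY 1 [0,0,0,0,0,0,1,0,0,0,1])).sound W rfl (Nk := N)
    (fun kf _ _ => ⟨_, rfl⟩) hkf ?_ ok40
  · simp only [base, List.forall_mem_cons, List.not_mem_nil, false_imp_iff, implies_true,
      and_true, hld, xv, evg_cons, evg_nil, List.map_cons, List.map_nil, List.cons_append,
      List.nil_append, if_true, if_false, Bool.false_eq_true]
    push_cast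
    refine ⟨?_, ?_, ?_, ?_, ?_, ?_, ?_, ?_, ?_, ?_, ?_, ?_, ?_, ?_, ?_, ?_, ?_, ?_, ?_, ?_, ?_, ?_, ?_, ?_, ?_, ?_, ?_, ?_, ?_, ?_, ?_, ?_, ?_, ?_, ?_⟩ <;> linarith

end Helper48.Y.Y11_c35_P3_m1n1_K2
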