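import Pool.Agent.Helper48.Y.Y11_c35_P4_m1n1_CB_q

set_option autoImplicit false
set_option linter.all false

namespace Helper48.Y.Y11_c35_P4_m1n1_CB

open Helper25.KG Helper25.KW Helper55.KE Helper11.CT

noncomputable def t21 : Tre :=
  (.I [0,0,-2,-2,2,0,0,-1] (.R ⟨1,true,false,false,[1,0,-1],[0,1],[0,1,0,0,0,0,0,-1],(⟨0,[(24,0)]⟩,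
  ⟨0,[(25,0)]⟩),(⟨0,[(29,0)]⟩,⟨0,[(28,0)]⟩),⟨0,[(13,0)]⟩,.k,.k,.k,.k,(.r (-2) ⟨0,[(0,0)]⟩ ⟨1,[(3,1),
  (6,0),(0,0),(28,0)]⟩),.k,⟨true,1,⟨1,[(0,0),(20,0),(0,0),(10,0)]⟩,⟨1,[(3,0),(6,1),(21,1),(7,0)]⟩⟩,
  ⟨false,2,⟨0,[(0,0),(0,0)]⟩,⟨2,[(2,1),(0,0),(2,1),(12,0)]⟩⟩,⟨true,0,⟨0,[(42,0)]⟩,⟨0,[]⟩⟩,⟨false,1,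
  ⟨3,[(1,1),(18,1),(6,0),(12,2)]⟩,⟨0,[(4,0)]⟩⟩,⟨false,0,⟨0,[(38,0)]⟩,⟨7,[(0,1),(5,1),(15,0),(0,2),
  (16,3)]⟩⟩,⟨true,0,⟨0,[(1,0)]⟩,⟨0,[(4,0),(32,0)]⟩⟩,[]⟩) (.I [0,0,-2,0,2,-2,1] (.R ⟨1,true,false,
  false,[1,0,-1],[0,1],[0,1,0,0,0,0,0,-1],(⟨0,[(25,0)]⟩,⟨0,[(26,0)]⟩),(⟨0,[(30,0)]⟩,⟨0,[(29,0)]⟩),
  ⟨0,[(14,0)]⟩,.k,.k,.k,.k,(.x 1 ⟨4,[(1,1),(7,0),(0,2),(13,1),(1,4),(0,9),(5,3)]⟩ ⟨0,[(0,0)]⟩),.k,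
  ⟨true,1,⟨0,[(10,0),(12,0),(16,0)]⟩,⟨9,[(1,6),(5,1),(13,0),(2,2),(8,2),(7,3)]⟩⟩,⟨false,2,⟨1,[(23,
  1),(4,0),(11,2)]⟩,⟨3,[(1,1),(3,1),(0,0),(0,0),(5,0)]⟩⟩,⟨true,0,⟨0,[(43,0)]⟩,⟨0,[]⟩⟩,⟨false,1,⟨3,
  [(2,1),(18,1),(6,0),(12,2)]⟩,⟨0,[(5,0)]⟩⟩,⟨false,0,⟨0,[(39,0)]⟩,⟨0,[(38,0),(2,0)]⟩⟩,⟨true,0,⟨0,
  [(2,0)]⟩,⟨0,[(5,0),(32,0)]⟩⟩,[]⟩) (.I [0,0,2,0,-2,2,-1] (.R ⟨1,true,false,false,[1,0,-1],[0,1],[0,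
  1,0,0,0,0,0,-1],(⟨0,[(26,0)]⟩,⟨0,[(27,0)]⟩),(⟨0,[(31,0)]⟩,⟨0,[(30,0)]⟩),⟨0,[(15,0)]⟩,.k,.k,.k,.k,
  (.x 2 ⟨0,[(0,0)]⟩ ⟨1,[(15,1),(1,0),(0,0),(5,1),(4,1),(0,1),(10,2)]⟩),.k,⟨true,1,⟨0,[(11,0),(12,0),
  (16,0)]⟩,⟨9,[(2,6),(5,1),(13,0),(2,2),(8,2),(7,3)]⟩⟩,⟨false,2,⟨1,[(24,1),(4,0),(11,2)]⟩,⟨11,[(0,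
  2),(1,0),(1,3),(3,2),(5,1),(0,2),(14,2)]⟩⟩,⟨true,0,⟨0,[(44,0)]⟩,⟨0,[]⟩⟩,⟨false,1,⟨3,[(3,1),(18,1),
  (6,0),(12,2)]⟩,⟨0,[(6,0)]⟩⟩,⟨false,0,⟨0,[(40,0)]⟩,⟨0,[(39,0),(2,0)]⟩⟩,⟨true,0,⟨0,[(3,0)]⟩,⟨0,[(6,
  0),(32,0)]⟩⟩,[]⟩) (.I [0,0,2,2,-2,0,0,1] (.R ⟨1,true,false,false,[1,0,-1],[0,1],[0,1,0,0,0,0,0,
  -1],(⟨0,[(27,0)]⟩,⟨0,[(28,0)]⟩),(⟨0,[(32,0)]⟩,⟨0,[(31,0)]⟩),⟨0,[(16,0)]⟩,.k,.k,.k,.k,(.r (-3) ⟨1,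
  [(7,1),(10,0),(0,0),(5,1),(4,0),(9,1),(1,2),(0,0)]⟩ ⟨0,[(0,0)]⟩),.k,⟨true,1,⟨0,[(12,0),(12,0),(16,
  0)]⟩,⟨9,[(0,6),(8,1),(13,0),(2,2),(8,2),(7,3)]⟩⟩,⟨false,2,⟨1,[(25,1),(4,0),(11,2)]⟩,⟨11,[(0,0),(1,
  2),(2,3),(3,2),(5,1),(0,2),(14,2)]⟩⟩,⟨true,0,⟨0,[(45,0)]⟩,⟨0,[]⟩⟩,⟨false,1,⟨3,[(4,1),(18,1),(6,0),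
  (12,2)]⟩,⟨0,[(7,0)]⟩⟩,⟨false,0,⟨0,[(41,0)]⟩,⟨0,[(40,0),(2,0)]⟩⟩,⟨true,0,⟨0,[(4,0)]⟩,⟨0,[(7,0),(32,
  0)]⟩⟩,[]⟩) (.Q [0,0,0,1,0,0,-2,-2,0,1,-2] (.p false [0,0,1] [1,0,-1] (⟨0,[(28,0)]⟩,⟨0,[(27,0)]⟩)
  .k 2 (⟨0,[(27,0)]⟩,⟨0,[(28,0)]⟩) .k (.r 1 ⟨0,[(13,1),(29,0)]⟩ ⟨0,[(3,1),(3,3),(17,3),(8,3),(1,7),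
  (0,1)]⟩)) (.R ⟨1,true,false,false,[0,0,1],[1,0,-1],[1,1,0,-1,0,0,0,1],(⟨0,[(29,0)]⟩,⟨0,[(28,0)]⟩),
  (⟨0,[(28,0)]⟩,⟨0,[(29,0)]⟩),⟨0,[(18,0)]⟩,.k,.k,.k,.k,(.r 0 ⟨1,[(5,0),(4,0),(1,1),(3,0),(26,0),(0,
  0)]⟩ ⟨2,[(0,2),(0,0),(3,0),(20,4),(4,0)]⟩),.k,⟨false,(-1),⟨1,[(12,1),(1,1),(28,0),(0,0)]⟩,⟨5,[(0,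
  5),(0,3),(3,3),(20,7),(4,0),(12,2)]⟩⟩,⟨true,(-1),⟨1,[(6,1),(5,1),(30,0),(0,0)]⟩,⟨2,[(1,0),(3,0),
  (20,4),(4,0)]⟩⟩,⟨true,0,⟨0,[(41,0)]⟩,⟨0,[(42,0)]⟩⟩,⟨false,1,⟨7,[(0,5),(0,1),(6,1),(17,0),(0,2),
  (16,3)]⟩,⟨0,[(5,0),(4,0)]⟩⟩,⟨false,0,⟨0,[]⟩,⟨1,[(19,0),(0,0),(23,0)]⟩⟩,⟨true,0,⟨0,[(0,0)]⟩,⟨4,[(5,
  1),(4,5),(0,2),(12,1)]⟩⟩,[]⟩) (.I [0,0,1,1,1,0,0,-2] (.Q [0,0,0,2,0,0,-2,-2,0,1,-2] (.p false [0,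
  0,1] [1,0,-1] (⟨0,[(30,0)]⟩,⟨0,[(29,0)]⟩) .k 2 (⟨0,[(29,0)]⟩,⟨0,[(30,0)]⟩) .k (.r 1 ⟨0,[(15,1),
  (29,0)]⟩ ⟨12,[(0,11),(1,5),(13,3),(28,1)]⟩)) (.R ⟨1,true,false,false,[0,0,1],[1,1,-1],[0,1,0,0,0,
  0,0,1],(⟨0,[(31,0)]⟩,⟨0,[(30,0)]⟩),(⟨0,[(30,0),(1,0)]⟩,⟨0,[(20,0)]⟩),⟨0,[(20,0)]⟩,.k,.k,.k,(.r 0
  ⟨1,[(2,0),(11,0),(1,0),(1,0),(26,0),(0,0)]⟩ ⟨0,[(1,0)]⟩),(.r 0 ⟨0,[(14,1),(30,0),(0,0)]⟩ ⟨4,[(1,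
  5),(7,1),(7,1),(28,0)]⟩),.k,⟨true,(-1),⟨1,[(14,1),(1,1),(28,0),(0,0)]⟩,⟨0,[(1,0),(36,0)]⟩⟩,⟨false,
  0,⟨1,[(8,1),(5,1),(30,2),(0,0)]⟩,⟨0,[(1,0),(0,0)]⟩⟩,⟨true,0,⟨10,[(1,0),(7,0),(7,1),(23,2),(1,2)]⟩,
  ⟨0,[]⟩⟩,⟨false,1,⟨3,[(0,1),(0,0),(1,0),(4,0),(9,0),(27,1)]⟩,⟨0,[(2,0)]⟩⟩,⟨false,0,⟨0,[(44,0)]⟩,⟨7,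
  [(3,1),(8,1),(15,0),(0,2),(16,3)]⟩⟩,⟨true,0,⟨0,[(0,0)]⟩,⟨0,[(2,0),(40,0)]⟩⟩,[]⟩) (.Q [-1,0,0,1,0,
  0,0,0,-1,0,0,-1] (.p false [0,0,0,0,1] [] (⟨0,[(24,0)]⟩,⟨0,[(23,0)]⟩) .k 0 (⟨0,[]⟩,⟨0,[]⟩) .k .k)
  (.R ⟨2,true,false,false,[0,1],[0,0,0,0,1],[0,1,1,1],(⟨0,[]⟩,⟨0,[]⟩),(⟨0,[(25,0)]⟩,⟨0,[(24,0)]⟩),
  ⟨0,[]⟩,.k,.k,.k,(.r 0 ⟨11,[(2,1),(5,1),(1,2),(8,1),(7,1),(10,0),(9,3)]⟩ ⟨13,[(3,1),(0,5),(13,1),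
  (0,1),(26,0),(0,0)]⟩),.k,.k,⟨true,(-1),⟨9,[(1,0),(0,2),(4,5),(8,2),(0,0),(2,0),(0,0),(7,0),(3,1),
  (6,5)]⟩,⟨7,[(4,1),(8,1),(15,0),(0,2),(16,3)]⟩⟩,⟨false,0,⟨0,[(23,0)]⟩,⟨7,[(0,5),(0,0),(2,1),(14,0),
  (2,1),(23,1)]⟩⟩,⟨true,0,⟨10,[(2,0),(7,0),(7,1),(23,2),(1,2)]⟩,⟨0,[]⟩⟩,⟨false,1,⟨7,[(4,1),(8,1),(9,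
  7),(5,0),(0,2),(16,3)]⟩,⟨0,[(0,0)]⟩⟩,⟨false,0,⟨0,[(45,0)]⟩,⟨7,[(4,1),(8,1),(15,0),(0,2),(16,3)]⟩⟩,
  ⟨true,0,⟨0,[(23,0)]⟩,⟨0,[(0,0),(43,0)]⟩⟩,[]⟩) (.Q [0,0,0,0,0,2,0,0,0,0,-1] (.p false [0,0,1] []
  (⟨0,[(32,0)]⟩,⟨0,[(31,0)]⟩) .k 0 (⟨0,[]⟩,⟨0,[]⟩) .k .k) (.R ⟨0,false,false,true,[0,-1,1],[1,0,-1],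
  [],(⟨0,[(22,0)]⟩,⟨0,[(0,0),(35,0)]⟩),(⟨0,[(32,0)]⟩,⟨0,[(33,0)]⟩),⟨0,[(0,0)]⟩,.k,.k,(.r (-1) ⟨2,
  [(2,0),(2,0),(10,1),(3,0),(26,1),(0,0)]⟩ ⟨9,[(3,5),(7,6),(7,1),(28,0)]⟩),(.r 0 ⟨1,[(4,0),(11,0),
  (1,0),(1,0),(26,0),(0,0)]⟩ ⟨0,[(3,0)]⟩),.k,.k,⟨true,0,⟨0,[(18,0),(29,0)]⟩,⟨4,[(3,0),(7,0),(5,2),
  (12,2),(12,0)]⟩⟩,⟨false,0,⟨1,[(10,1),(5,1),(30,2),(0,0)]⟩,⟨0,[(3,0),(0,0)]⟩⟩,⟨false,1,⟨4,[(3,2),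
  (7,0),(7,0),(28,2)]⟩,⟨1,[(16,1),(30,0),(0,0)]⟩⟩,⟨true,0,⟨4,[(3,1),(1,0),(4,4),(30,0),(1,1),(3,
  0)]⟩,⟨0,[(4,0)]⟩⟩,⟨false,0,⟨0,[]⟩,⟨0,[]⟩⟩,⟨false,0,⟨0,[]⟩,⟨0,[]⟩⟩,[.o ⟨false,0,⟨0,[(29,0)]⟩,⟨15,
  [(4,3),(4,1),(18,5),(6,4),(12,10)]⟩⟩,.a ⟨true,0,⟨0,[(13,0)]⟩,⟨4,[(4,1),(4,0),(15,2),(0,2)]⟩⟩
  ⟨false,1,⟨1,[(47,0),(0,0)]⟩,⟨10,[(3,0),(7,0),(7,1),(23,2),(1,2)]⟩⟩ ⟨true,0,⟨1,[(8,1),(3,3),(22,0),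
  (11,2)]⟩,⟨3,[(4,1),(6,0),(18,4),(0,0),(3,0)]⟩⟩,.e ⟨false,1,⟨12,[(3,1),(1,0),(13,4),(28,8)]⟩,⟨0,
  []⟩⟩ ⟨false,0,⟨1,[(8,1),(3,3),(22,0),(11,2)]⟩,⟨15,[(4,3),(4,1),(18,5),(1,15),(4,4),(12,10)]⟩⟩,.o
  ⟨false,0,⟨2,[(2,0),(0,0),(4,0),(8,0),(12,1),(4,0),(4,0)]⟩,⟨1,[(27,1),(7,0),(11,0)]⟩⟩]⟩) (.Q [0,0,
  0,0,1,0,1,0,-1,0,1,-1] (.p true [0,0,1] [0,0,0,0,1] (⟨0,[(33,0)]⟩,⟨0,[(32,0)]⟩) .k 2 (⟨0,[(26,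
  0)]⟩,⟨0,[(25,0)]⟩) .k (.r 0 ⟨14,[(4,1),(4,0),(8,4),(0,3),(0,2),(7,0),(10,4)]⟩ ⟨12,[(3,5),(1,2),
  (13,1),(28,0)]⟩)) (.Q [0,0,1,0,0,0,0,0,-1,0,0,-1] (.p false [0,0,0,0,1] [] (⟨0,[(27,0)]⟩,⟨0,[(26,
  0)]⟩) .k 0 (⟨0,[]⟩,⟨0,[]⟩) .k .k) (.Q [-1,0,0,2,0,0,0,0,-1,0,0,-1] (.p false [0,0,0,0,1] [] (⟨0,
  [(28,0)]⟩,⟨0,[(27,0)]⟩) .k 0 (⟨0,[]⟩,⟨0,[]⟩) .k .k) (.R ⟨1,true,false,false,[1,-1],[1,0,0,0,-1],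
  [0,1,-1,-1],(⟨0,[(39,0)]⟩,⟨0,[(40,0)]⟩),(⟨0,[(28,0)]⟩,⟨0,[(29,0)]⟩),⟨1,[(3,0),(20,0),(14,0)]⟩,.k,
  .k,(.r (-2) ⟨6,[(7,1),(0,5),(13,1),(0,1),(26,0),(0,0)]⟩ ⟨0,[(5,1),(0,1),(4,3),(3,3),(26,3),(1,7),
  (0,0)]⟩),(.r (-1) ⟨13,[(7,1),(0,5),(13,1),(0,1),(26,0),(0,0)]⟩ ⟨11,[(6,1),(5,1),(1,2),(8,1),(7,1),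
  (10,0),(9,3)]⟩),(.r (-2) ⟨6,[(7,1),(0,5),(13,1),(0,1),(26,0),(0,0)]⟩ ⟨24,[(3,0),(2,4),(2,0),(1,9),
  (0,0),(0,0),(0,10),(22,3),(14,3)]⟩),.k,⟨false,1,⟨12,[(8,4),(10,2),(2,1),(23,3),(3,5)]⟩,⟨1,[(14,0),
  (36,0)]⟩⟩,⟨true,1,⟨0,[(1,0),(48,0)]⟩,⟨9,[(3,0),(0,9),(1,1),(3,2),(0,3),(12,3),(8,2),(11,1),(6,
  0)]⟩⟩,⟨true,0,⟨10,[(6,0),(7,0),(7,1),(23,2),(1,2)]⟩,⟨0,[]⟩⟩,⟨false,1,⟨1,[(0,0),(25,0),(24,0)]⟩,⟨0,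
  [(4,0)]⟩⟩,⟨false,0,⟨0,[(49,0)]⟩,⟨7,[(8,1),(8,1),(15,0),(0,2),(16,3)]⟩⟩,⟨true,0,⟨0,[(0,0)]⟩,⟨0,[(4,
  0),(43,0)]⟩⟩,[]⟩) (.Q [0,0,0,0,0,-1,0,0,0,1,0,-1] (.ed true [0,1,0,0,1] .k) (.R ⟨1,false,false,
  true,[1,0,0,0,-1],[1,-1],[1,1,1],(⟨0,[(29,0)]⟩,⟨0,[(30,0)]⟩),(⟨0,[(40,0)]⟩,⟨0,[(41,0)]⟩),⟨0,[(0,
  0)]⟩,.k,.k,(.r (-1) ⟨25,[(6,3),(2,8),(13,0),(0,3),(18,3),(7,3),(2,6)]⟩ ⟨4,[(7,0),(7,1),(7,1),(28,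
  0)]⟩),(.r 0 ⟨11,[(7,1),(5,1),(1,2),(8,1),(7,1),(10,0),(9,3)]⟩ ⟨13,[(8,1),(0,5),(13,1),(0,1),(26,
  0),(0,0)]⟩),.k,.k,⟨true,(-1),⟨2,[(12,0),(2,0),(5,0),(12,0),(9,0)]⟩,⟨13,[(8,1),(0,5),(13,1),(0,1),
  (26,0),(0,0)]⟩⟩,⟨false,0,⟨0,[(28,0)]⟩,⟨0,[(2,0),(48,0)]⟩⟩,⟨false,0,⟨1,[(34,0),(0,0)]⟩,⟨1,[(43,0),
  (7,0)]⟩⟩,⟨false,0,⟨0,[(5,0)]⟩,⟨5,[(2,3),(0,1),(9,1),(0,1),(36,2),(0,2)]⟩⟩,⟨true,(-1),⟨6,[(7,0),(4,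
  3),(8,1),(12,1),(10,2),(1,0)]⟩,⟨25,[(6,3),(2,8),(13,0),(0,3),(18,3),(7,3),(2,6)]⟩⟩,⟨false,0,⟨0,
  [(28,0)]⟩,⟨1,[(2,1),(48,0),(0,0)]⟩⟩,[.o ⟨false,0,⟨0,[(49,0)]⟩,⟨53,[(7,5),(5,19),(0,7),(9,1),(14,
  21),(11,6),(0,26)]⟩⟩,.a ⟨true,0,⟨1,[(17,0),(0,0),(10,0),(0,0)]⟩,⟨0,[(50,0)]⟩⟩ ⟨false,0,⟨0,[]⟩,⟨45,
  [(7,3),(1,11),(3,9),(10,9),(7,9),(18,12),(0,4)]⟩⟩ ⟨true,0,⟨45,[(1,27),(2,1),(2,1),(4,3),(12,1),(2,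
  17),(9,5),(7,0),(4,4)]⟩,⟨2,[(2,1),(0,0),(9,0),(0,0)]⟩⟩,.e ⟨false,0,⟨1,[(34,0),(0,0)]⟩,⟨1,[(51,0),
  (0,0)]⟩⟩ ⟨false,0,⟨45,[(1,27),(2,1),(2,1),(4,3),(12,1),(2,17),(9,5),(7,0),(4,4)]⟩,⟨5,[(2,3),(0,1),
  (9,1),(0,1),(36,2),(0,2)]⟩⟩,.o ⟨false,0,⟨0,[(2,0)]⟩,⟨1,[(28,1),(10,0),(11,0)]⟩⟩]⟩) (.R ⟨0,false,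
  false,true,[1,0,0,0,-1],[1,-1],[],(⟨0,[(29,0)]⟩,⟨0,[(30,0)]⟩),(⟨0,[(40,0)]⟩,⟨0,[(41,0)]⟩),⟨0,[(0,
  0)]⟩,.k,.k,(.r (-1) ⟨25,[(6,3),(2,8),(13,0),(0,3),(18,3),(7,3),(2,6)]⟩ ⟨4,[(7,0),(7,1),(7,1),(28,
  0)]⟩),(.r 0 ⟨11,[(7,1),(5,1),(1,2),(8,1),(7,1),(10,0),(9,3)]⟩ ⟨13,[(8,1),(0,5),(13,1),(0,1),(26,
  0),(0,0)]⟩),.k,.k,⟨true,0,⟨1,[(15,0),(36,0)]⟩,⟨0,[(49,0)]⟩⟩,⟨false,0,⟨0,[(28,0)]⟩,⟨0,[(2,0),(48,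
  0)]⟩⟩,⟨true,0,⟨0,[]⟩,⟨10,[(7,0),(7,0),(7,1),(23,2),(1,2)]⟩⟩,⟨false,0,⟨0,[(5,0)]⟩,⟨5,[(2,3),(0,1),
  (9,1),(0,1),(36,2),(0,2)]⟩⟩,⟨false,0,⟨0,[]⟩,⟨0,[]⟩⟩,⟨false,0,⟨0,[]⟩,⟨0,[]⟩⟩,[.o ⟨false,0,⟨0,[(49,
  0)]⟩,⟨53,[(7,5),(5,19),(0,7),(9,1),(14,21),(11,6),(0,26)]⟩⟩,.a ⟨true,0,⟨1,[(17,0),(0,0),(10,0),(0,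
  0)]⟩,⟨0,[(50,0)]⟩⟩ ⟨false,1,⟨1,[(51,0),(0,0)]⟩,⟨10,[(7,0),(7,0),(7,1),(23,2),(1,2)]⟩⟩ ⟨true,0,⟨45,
  [(1,27),(2,1),(2,1),(4,3),(12,1),(2,17),(9,5),(7,0),(4,4)]⟩,⟨2,[(2,1),(0,0),(9,0),(0,0)]⟩⟩,.e
  ⟨false,1,⟨12,[(7,1),(1,0),(13,4),(28,8)]⟩,⟨0,[]⟩⟩ ⟨false,0,⟨45,[(1,27),(2,1),(2,1),(4,3),(12,1),
  (2,17),(9,5),(7,0),(4,4)]⟩,⟨5,[(2,3),(0,1),(9,1),(0,1),(36,2),(0,2)]⟩⟩,.o ⟨false,0,⟨0,[(2,0)]⟩,⟨1,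
  [(28,1),(10,0),(11,0)]⟩⟩]⟩))) (.Q [1,-1,0,1,0,0,1,1,1,-1,1,1] (.p true [0,0,1] [1,0,0,0,-1] (⟨0,
  [(35,0)]⟩,⟨0,[(34,0)]⟩) .k 2 (⟨0,[(27,0)]⟩,⟨0,[(28,0)]⟩) .k (.r 0 ⟨38,[(6,13),(3,0),(0,5),(10,17),
  (6,1),(0,3),(19,1)]⟩ ⟨0,[(4,1),(0,1),(4,2),(3,3),(26,3),(1,7),(0,0)]⟩)) (.R ⟨1,true,false,false,
  [1,0,-1],[0,0,0,0,1],[1,0,0,-1,0,0,0,-1],(⟨0,[(35,0)]⟩,⟨0,[(36,0)]⟩),(⟨0,[(29,0)]⟩,⟨0,[(28,0)]⟩),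
  ⟨0,[(24,0)]⟩,.k,.k,.k,.k,(.r (-2) ⟨0,[(5,5),(0,4),(4,8),(3,11),(26,11),(1,23),(0,2)]⟩ ⟨38,[(7,6),
  (3,19),(0,2),(10,8),(6,0),(0,1),(19,0)]⟩),.k,⟨true,1,⟨18,[(6,6),(1,5),(8,4),(2,3),(13,0),(8,3)]⟩,
  ⟨38,[(7,6),(3,19),(0,2),(10,8),(6,0),(0,1),(19,0)]⟩⟩,⟨false,1,⟨2,[(0,0),(0,1),(4,0),(0,0),(0,0),
  (9,0)]⟩,⟨1,[(2,1),(10,1),(5,1),(30,0),(0,0)]⟩⟩,⟨false,1,⟨7,[(8,1),(8,1),(15,0),(0,2),(16,3)]⟩,⟨0,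
  [(49,0)]⟩⟩,⟨true,0,⟨8,[(0,3),(3,4),(2,1),(10,2),(12,0)]⟩,⟨0,[(2,0),(8,0),(3,0),(4,0),(29,0)]⟩⟩,
  ⟨true,0,⟨0,[]⟩,⟨10,[(6,0),(7,0),(7,1),(23,2),(1,2)]⟩⟩,⟨false,0,⟨0,[(0,0)]⟩,⟨26,[(2,3),(0,1),(9,1),
  (1,26),(3,1),(4,1),(1,22),(10,5),(4,0),(2,1),(4,0)]⟩⟩,[]⟩) (.Q [0,0,-1,0,1,0,0,0,-1,0,0,-1] (.p
  false [0,0,0,0,1] [] (⟨0,[(29,0)]⟩,⟨0,[(28,0)]⟩) .k 0 (⟨0,[]⟩,⟨0,[]⟩) .k .k) (.R ⟨2,true,false,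
  false,[0,1],[0,0,0,0,1],[1,1],(⟨0,[]⟩,⟨0,[]⟩),(⟨0,[(30,0)]⟩,⟨0,[(29,0)]⟩),⟨0,[]⟩,.k,.k,.k,(.r 0
  ⟨11,[(7,1),(5,1),(1,2),(8,1),(7,1),(10,0),(9,3)]⟩ ⟨13,[(8,1),(0,5),(13,1),(0,1),(26,0),(0,0)]⟩),
  .k,.k,⟨true,0,⟨10,[(7,0),(7,0),(7,1),(23,2),(1,2)]⟩,⟨0,[(48,0)]⟩⟩,⟨false,0,⟨0,[(28,0)]⟩,⟨0,[(0,
  0)]⟩⟩,⟨false,1,⟨13,[(8,1),(0,5),(13,1),(0,1),(26,0),(0,0)]⟩,⟨1,[(15,0),(36,0)]⟩⟩,⟨true,0,⟨0,[(5,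
  0)]⟩,⟨0,[(1,0),(11,0)]⟩⟩,⟨true,0,⟨0,[(45,0)]⟩,⟨1,[(34,0),(0,0)]⟩⟩,⟨false,0,⟨0,[(2,0),(41,0)]⟩,⟨23,
  [(0,1),(0,1),(1,1),(8,0),(9,0),(4,17),(15,3),(2,0),(7,4)]⟩⟩,[]⟩) (.R ⟨2,true,false,false,[0,1],[0,
  0,0,0,1],[2,0,1],(⟨0,[]⟩,⟨0,[]⟩),(⟨0,[(30,0)]⟩,⟨0,[(29,0)]⟩),⟨0,[]⟩,.k,.k,.k,(.r 0 ⟨11,[(7,1),(5,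
  1),(1,2),(8,1),(7,1),(10,0),(9,3)]⟩ ⟨13,[(8,1),(0,5),(13,1),(0,1),(26,0),(0,0)]⟩),.k,.k,⟨false,0,
  ⟨0,[]⟩,⟨45,[(7,3),(1,11),(3,9),(10,9),(7,9),(18,12),(0,4)]⟩⟩,⟨true,(-1),⟨0,[(0,0)]⟩,⟨0,[(27,0)]⟩⟩,
  ⟨false,1,⟨7,[(9,1),(8,1),(15,0),(0,2),(16,3)]⟩,⟨1,[(0,3),(0,3),(4,1),(0,1),(4,3),(30,8),(1,13),(0,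
  0)]⟩⟩,⟨true,0,⟨0,[(5,0)]⟩,⟨0,[(1,0),(11,0)]⟩⟩,⟨true,0,⟨0,[]⟩,⟨0,[(54,0)]⟩⟩,⟨false,0,⟨1,[(0,0),(1,
  0),(49,0)]⟩,⟨23,[(1,1),(1,0),(0,0),(5,0),(1,0),(9,0),(4,20),(10,3),(4,1),(2,0),(7,0)]⟩⟩,[]⟩))))
  (.Q [0,0,0,0,0,1,0,0,0,0,0,-1] (.ed true [1,-1,0,0,1] .k) (.Q [1,-1,0,0,0,0,0,0,1,-1,0,1] (.p
  true [0,0,0,0,1] [1] (⟨0,[(28,0)]⟩,⟨0,[(27,0)]⟩) .k 1 (⟨0,[]⟩,⟨0,[]⟩) .k .k) (.R ⟨0,false,false,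
  false,[0,0,0,0,1],[0,0,1],[],(⟨0,[(29,0)]⟩,⟨0,[(28,0)]⟩),(⟨0,[(36,0)]⟩,⟨0,[(35,0)]⟩),⟨0,[(1,0)]⟩,
  .k,.k,(.r (-1) ⟨13,[(7,1),(0,5),(13,1),(0,1),(26,0),(0,0)]⟩ ⟨11,[(6,1),(5,1),(1,2),(8,1),(7,1),
  (10,0),(9,3)]⟩),.k,.k,.k,⟨true,1,⟨12,[(6,5),(1,2),(13,1),(28,0)]⟩,⟨5,[(5,0),(5,1),(7,1),(3,0),(19,
  1)]⟩⟩,⟨false,2,⟨0,[(26,0),(6,0),(16,0)]⟩,⟨0,[(2,0)]⟩⟩,⟨false,1,⟨12,[(6,1),(1,0),(13,4),(19,8)]⟩,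
  ⟨0,[]⟩⟩,⟨true,1,⟨14,[(7,5),(4,2),(13,14),(1,3),(0,3),(7,4),(1,4)]⟩,⟨5,[(0,4),(1,0),(3,0),(4,2),(3,
  4),(4,1),(12,1),(10,8)]⟩⟩,⟨false,0,⟨0,[]⟩,⟨0,[]⟩⟩,⟨false,0,⟨0,[]⟩,⟨0,[]⟩⟩,[.a ⟨true,0,⟨4,[(7,1),
  (4,0),(15,2),(0,2)]⟩,⟨0,[(16,0)]⟩⟩ ⟨false,1,⟨45,[(6,3),(1,11),(3,9),(10,9),(7,9),(18,12),(0,4)]⟩,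
  ⟨0,[]⟩⟩ ⟨true,1,⟨4,[(7,1),(4,0),(13,4),(1,2),(0,2)]⟩,⟨45,[(0,42),(1,2),(0,3),(2,6),(4,24),(3,38),
  (4,17),(3,3),(8,13),(3,11),(6,24)]⟩⟩,.o ⟨false,1,⟨15,[(7,3),(4,1),(18,5),(6,4),(12,10)]⟩,⟨0,[(32,
  0)]⟩⟩,.o ⟨false,0,⟨5,[(0,2),(1,0),(1,0),(13,0),(8,0),(5,0),(11,0),(0,0)]⟩,⟨0,[(26,0)]⟩⟩,.e ⟨false,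
  1,⟨1,[(50,0),(0,0)]⟩,⟨1,[(33,0),(0,0)]⟩⟩ ⟨false,2,⟨9,[(7,3),(4,1),(13,9),(1,5),(0,5),(20,4),(0,
  4)]⟩,⟨45,[(0,42),(1,2),(0,3),(2,6),(4,24),(3,38),(4,17),(3,3),(8,13),(3,11),(6,24)]⟩⟩]⟩) (.S ⟨1,0,
  [-1,1],[1,0,0,0,-1],[1,1,1],(⟨0,[(28,0)]⟩,⟨0,[(29,0)]⟩),⟨1,[(1,0),(1,0),(20,0),(3,0)]⟩,.k,(.r
  (-1) ⟨25,[(5,3),(2,8),(13,0),(0,3),(18,3),(7,3),(2,6)]⟩ ⟨4,[(6,0),(7,1),(7,1),(28,0)]⟩),⟨false,0,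
  ⟨1,[(33,0),(0,0)]⟩,⟨1,[(42,0),(7,0)]⟩⟩,⟨true,0,⟨10,[(6,0),(7,0),(7,1),(23,2),(1,2)]⟩,⟨0,[]⟩⟩,
  ⟨true,(-1),⟨6,[(6,0),(4,3),(8,1),(12,1),(10,2),(1,0)]⟩,⟨25,[(5,3),(2,8),(13,0),(0,3),(18,3),(7,3),
  (2,6)]⟩⟩,⟨false,0,⟨0,[(49,0)]⟩,⟨7,[(8,1),(8,1),(15,0),(0,2),(16,3)]⟩⟩,[.a ⟨true,0,⟨0,[(0,0)]⟩,⟨1,
  [(2,1),(30,1),(16,0),(0,0)]⟩⟩ ⟨false,0,⟨10,[(6,0),(7,0),(7,1),(23,2),(1,2)]⟩,⟨1,[(50,0),(0,0)]⟩⟩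
  ⟨true,0,⟨0,[(53,0)]⟩,⟨0,[(43,0)]⟩⟩,.e ⟨false,0,⟨0,[]⟩,⟨45,[(6,3),(1,11),(3,9),(10,9),(7,9),(18,
  12),(0,4)]⟩⟩ ⟨false,1,⟨25,[(6,3),(1,1),(13,9),(19,4),(7,12)]⟩,⟨0,[]⟩⟩,.o ⟨false,1,⟨0,[(26,0)]⟩,
  ⟨26,[(2,24),(1,1),(0,7),(0,9),(1,4),(3,8),(25,4)]⟩⟩,.e ⟨false,0,⟨0,[]⟩,⟨12,[(6,1),(1,0),(13,4),
  (28,8)]⟩⟩ ⟨false,1,⟨25,[(6,3),(1,1),(13,9),(19,4),(7,12)]⟩,⟨0,[(43,0)]⟩⟩]⟩)) (.Q [0,0,1,0,0,0,0,0,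
  -1,1,0,-1] (.p false [0,0,0,0,1] [1] (⟨0,[(28,0)]⟩,⟨0,[(27,0)]⟩) .k 1 (⟨0,[]⟩,⟨0,[]⟩) .k .k) (.S
  ⟨1,0,[1,1],[0,0,0,0,1],[],(⟨0,[(29,0)]⟩,⟨0,[(28,0)]⟩),⟨0,[(1,0)]⟩,.k,(.r (-1) ⟨13,[(7,1),(0,5),
  (13,1),(0,1),(26,0),(0,0)]⟩ ⟨11,[(6,1),(5,1),(1,2),(8,1),(7,1),(10,0),(9,3)]⟩),⟨false,1,⟨12,[(6,
  1),(1,0),(13,4),(19,8)]⟩,⟨0,[]⟩⟩,⟨true,0,⟨10,[(6,0),(7,0),(7,1),(23,2),(1,2)]⟩,⟨0,[]⟩⟩,⟨true,0,⟨1,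
  [(5,1),(0,1),(4,3),(3,3),(26,4),(1,9),(0,0)]⟩,⟨0,[(48,0)]⟩⟩,⟨false,0,⟨0,[(49,0)]⟩,⟨7,[(8,1),(8,1),
  (15,0),(0,2),(16,3)]⟩⟩,[.e ⟨false,1,⟨45,[(6,3),(1,11),(3,9),(10,9),(7,9),(18,12),(0,4)]⟩,⟨0,[]⟩⟩
  ⟨false,0,⟨0,[(44,0)]⟩,⟨12,[(6,1),(1,0),(13,4),(28,8)]⟩⟩,.o ⟨false,0,⟨26,[(2,24),(1,1),(0,7),(0,9),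
  (1,4),(3,8),(25,4)]⟩,⟨3,[(0,1),(25,1),(18,0),(4,0)]⟩⟩,.e ⟨false,1,⟨12,[(6,1),(1,0),(13,4),(28,
  8)]⟩,⟨0,[]⟩⟩ ⟨false,0,⟨0,[]⟩,⟨12,[(6,1),(1,0),(13,4),(28,8)]⟩⟩,.a ⟨true,(-1),⟨0,[(2,0),(30,0)]⟩,
  ⟨0,[(0,0),(49,0)]⟩⟩ ⟨false,1,⟨1,[(50,0),(0,0)]⟩,⟨1,[(33,0),(0,0)]⟩⟩ ⟨true,0,⟨0,[(44,0)]⟩,⟨1,[(33,
  0),(0,0)]⟩⟩]⟩) (.R ⟨1,true,false,true,[0,0,0,0,1],[0,1,1],[1,1],(⟨0,[(29,0)]⟩,⟨0,[(28,0)]⟩),(⟨0,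
  [(36,0),(0,0)]⟩,⟨0,[(24,0)]⟩),⟨0,[(1,0)]⟩,.k,.k,(.r (-1) ⟨13,[(7,1),(0,5),(13,1),(0,1),(26,0),(0,
  0)]⟩ ⟨11,[(6,1),(5,1),(1,2),(8,1),(7,1),(10,0),(9,3)]⟩),(.r (-2) ⟨12,[(6,4),(1,8),(13,5),(28,2)]⟩
  ⟨0,[(5,3),(0,2),(4,6),(3,7),(26,7),(1,15),(0,1)]⟩),(.r (-2) ⟨0,[(8,0)]⟩ ⟨7,[(11,2),(0,0),(1,3),(7,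
  2),(0,0),(7,0),(10,1),(9,1)]⟩),.k,⟨false,2,⟨45,[(6,9),(1,29),(3,1),(10,1),(7,1),(18,20),(0,0)]⟩,
  ⟨38,[(7,6),(3,19),(0,2),(10,8),(6,0),(0,1),(19,0)]⟩⟩,⟨true,2,⟨0,[(26,0),(6,0),(16,0)]⟩,⟨30,[(0,4),
  (1,25),(0,1),(1,2),(4,5),(0,11),(8,17),(3,7),(8,12),(9,17)]⟩⟩,⟨true,0,⟨10,[(6,0),(7,0),(7,1),(23,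
  2),(1,2)]⟩,⟨0,[]⟩⟩,⟨false,1,⟨14,[(7,2),(4,8),(13,14),(1,6),(0,6),(7,4),(1,4)]⟩,⟨0,[(0,0),(14,0),
  (27,0)]⟩⟩,⟨false,0,⟨0,[(49,0)]⟩,⟨7,[(8,1),(8,1),(15,0),(0,2),(16,3)]⟩⟩,⟨true,0,⟨0,[(11,0),(14,0),
  (6,0),(10,0),(5,0)]⟩,⟨4,[(0,2),(3,1),(10,2),(1,0),(2,2),(22,2)]⟩⟩,[]⟩))))))) (.Q [0,0,0,0,0,2,0,0,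
  0,0,-1] (.p false [0,0,1] [] (⟨0,[(30,0)]⟩,⟨0,[(29,0)]⟩) .k 0 (⟨0,[]⟩,⟨0,[]⟩) .k .k) (.Q [0,0,0,2,
  0,0,-2,-2,0,1,-2] (.p false [0,0,1] [1,0,-1] (⟨0,[(31,0)]⟩,⟨0,[(30,0)]⟩) .k 2 (⟨0,[(30,0)]⟩,⟨0,
  [(31,0)]⟩) .k (.r 1 ⟨52,[(1,27),(0,11),(3,13),(0,5),(10,17),(7,5),(19,2)]⟩ ⟨0,[(6,1),(3,3),(17,3),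
  (8,3),(1,7),(0,1)]⟩)) (.R ⟨1,true,false,false,[0,0,1],[1,1,-1],[1,1,0,-1,0,0,0,1],(⟨0,[(32,0)]⟩,
  ⟨0,[(31,0)]⟩),(⟨1,[(1,0),(22,0),(0,0),(5,0)]⟩,⟨0,[(21,0)]⟩),⟨0,[(21,0)]⟩,.k,.k,.k,(.x (-1) ⟨15,
  [(1,17),(3,5),(14,7),(8,26),(0,0),(3,3)]⟩ ⟨105,[(0,64),(1,77),(1,25),(1,11),(12,34),(1,129),(10,
  69),(1,49)]⟩),(.r 0 ⟨14,[(2,13),(0,3),(0,5),(14,3),(26,1)]⟩ ⟨1,[(0,1),(21,0),(0,0),(5,3),(4,0)]⟩),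
  .k,⟨true,(-1),⟨0,[(2,0),(41,0)]⟩,⟨1,[(0,1),(28,3),(4,0),(12,0)]⟩⟩,⟨false,0,⟨6,[(0,4),(1,5),(1,1),
  (14,1),(26,1)]⟩,⟨2,[(4,0),(3,0),(20,4),(4,0)]⟩⟩,⟨true,0,⟨0,[(44,0)]⟩,⟨0,[(45,0)]⟩⟩,⟨false,1,⟨7,
  [(0,5),(3,1),(7,1),(16,0),(0,2),(16,3)]⟩,⟨0,[(3,0)]⟩⟩,⟨false,0,⟨0,[]⟩,⟨1,[(22,0),(0,0),(23,0)]⟩⟩,
  ⟨true,0,⟨0,[(0,0)]⟩,⟨0,[(3,0),(40,0)]⟩⟩,[]⟩) (.Q [0,0,2,0,0,0,1,0,0,-1,1] (.p true [0,0,1] [1]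
  (⟨0,[(32,0)]⟩,⟨0,[(31,0)]⟩) .k 1 (⟨0,[]⟩,⟨0,[]⟩) .k .k) (.R ⟨0,false,false,true,[0,-1,1],[1,0,-1],
  [],(⟨0,[(22,0)]⟩,⟨1,[(2,0),(22,0),(0,0),(5,0)]⟩),(⟨0,[(32,0)]⟩,⟨0,[(33,0)]⟩),⟨0,[(2,0)]⟩,.k,.k,
  (.r (-1) ⟨4,[(3,1),(0,1),(0,2),(14,1),(26,0)]⟩ ⟨0,[(8,2),(3,3),(17,3),(8,3),(1,7),(0,1)]⟩),(.x
  (-1) ⟨1,[(0,0),(1,1),(3,0),(23,1),(1,0)]⟩ ⟨5,[(3,2),(1,0),(4,4),(9,0),(1,5),(10,5),(1,2),(11,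
  2)]⟩),.k,.k,⟨true,0,⟨52,[(3,13),(0,5),(3,6),(0,2),(10,8),(7,2),(19,27)]⟩,⟨0,[(29,0),(0,0)]⟩⟩,
  ⟨false,0,⟨5,[(3,2),(1,0),(4,4),(9,0),(26,5)]⟩,⟨1,[(0,0),(4,0),(3,0),(20,1)]⟩⟩,⟨false,1,⟨1,[(5,1),
  (5,2),(36,0)]⟩,⟨14,[(3,6),(0,1),(0,2),(14,1),(26,0)]⟩⟩,⟨true,0,⟨0,[(13,1),(1,0)]⟩,⟨0,[(4,0)]⟩⟩,
  ⟨false,0,⟨0,[]⟩,⟨0,[]⟩⟩,⟨false,0,⟨0,[]⟩,⟨0,[]⟩⟩,[.o ⟨false,0,⟨0,[(29,0)]⟩,⟨15,[(4,3),(4,1),(18,5),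
  (6,4),(12,10)]⟩⟩,.a ⟨true,0,⟨0,[(13,0)]⟩,⟨4,[(4,1),(4,0),(15,2),(0,2)]⟩⟩ ⟨false,1,⟨1,[(47,0),(0,
  0)]⟩,⟨0,[(50,0)]⟩⟩ ⟨true,0,⟨1,[(8,1),(3,3),(22,0),(11,2)]⟩,⟨5,[(0,3),(3,1),(6,0),(16,1),(1,1),(17,
  0)]⟩⟩,.e ⟨false,1,⟨1,[(23,0),(0,0),(23,0)]⟩,⟨0,[]⟩⟩ ⟨false,0,⟨1,[(8,1),(3,3),(22,0),(11,2)]⟩,⟨31,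
  [(0,14),(3,7),(0,4),(3,8),(18,11),(1,11),(17,21)]⟩⟩,.o ⟨false,0,⟨0,[(0,0)]⟩,⟨23,[(3,2),(1,0),(4,
  4),(9,6),(14,5),(11,23)]⟩⟩]⟩) (.R ⟨0,false,false,true,[0,-1,1],[1,0,-1],[0,1,1,0,0,0,0,-1],(⟨0,
  [(22,0)]⟩,⟨1,[(2,0),(22,0),(0,0),(5,0)]⟩),(⟨0,[(32,0)]⟩,⟨0,[(33,0)]⟩),⟨0,[(2,0)]⟩,.k,.k,(.r (-1)
  ⟨4,[(3,1),(0,1),(0,2),(14,1),(26,0)]⟩ ⟨0,[(0,11),(7,2),(8,3),(12,15),(11,5),(1,3)]⟩),(.x (-1) ⟨15,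
  [(2,17),(3,5),(14,7),(8,26),(0,0),(3,3)]⟩ ⟨15,[(0,12),(6,4),(12,6),(1,25),(10,0),(1,9)]⟩),.k,.k,
  ⟨true,0,⟨1,[(30,0),(0,0)]⟩,⟨0,[]⟩⟩,⟨false,0,⟨23,[(0,23),(2,2),(1,0),(4,4),(9,6),(14,5)]⟩,⟨2,[(5,
  0),(3,0),(20,4),(4,0)]⟩⟩,⟨false,1,⟨3,[(5,5),(4,1),(0,6),(18,3),(4,0)]⟩,⟨1,[(3,1),(43,0),(0,0)]⟩⟩,
  ⟨true,0,⟨0,[(13,1),(1,0)]⟩,⟨0,[(4,0)]⟩⟩,⟨false,0,⟨0,[]⟩,⟨0,[]⟩⟩,⟨false,0,⟨0,[]⟩,⟨0,[]⟩⟩,[.o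
  ⟨false,0,⟨0,[(29,0)]⟩,⟨15,[(4,3),(4,1),(18,5),(6,4),(12,10)]⟩⟩,.a ⟨true,0,⟨0,[(13,0)]⟩,⟨31,[(0,8),
  (3,7),(3,2),(0,0),(18,11),(1,11),(17,5)]⟩⟩ ⟨false,1,⟨0,[(0,5),(7,0),(8,1),(12,7),(11,2),(1,1)]⟩,
  ⟨25,[(0,3),(2,7),(5,3),(9,5),(27,4),(0,2)]⟩⟩ ⟨true,0,⟨4,[(0,2),(4,0),(4,2),(1,0),(22,0)]⟩,⟨3,[(4,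
  1),(6,0),(18,4),(0,0),(3,0)]⟩⟩,.a ⟨true,0,⟨0,[(30,0)]⟩,⟨0,[(27,0)]⟩⟩ ⟨true,0,⟨0,[(29,0),(0,0)]⟩,
  ⟨25,[(0,3),(2,7),(5,3),(9,5),(27,4),(0,2)]⟩⟩ ⟨false,0,⟨4,[(0,2),(4,0),(4,2),(1,0),(22,0)]⟩,⟨15,
  [(4,3),(4,1),(18,5),(1,15),(4,4),(12,10)]⟩⟩,.a ⟨true,0,⟨1,[(30,2),(0,0)]⟩,⟨0,[(0,0)]⟩⟩ ⟨false,1,
  ⟨0,[(0,5),(7,0),(8,1),(12,7),(11,2),(1,1)]⟩,⟨52,[(3,13),(0,5),(3,6),(0,2),(10,8),(7,2),(19,27)]⟩⟩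
  ⟨true,0,⟨0,[(0,0),(28,0)]⟩,⟨3,[(4,1),(6,0),(18,4),(0,0),(3,0)]⟩⟩]⟩))) (.Q [-1,0,0,0,1,0,0,0,-1,0,
  0,-1] (.p false [0,0,0,0,1] [] (⟨0,[(24,0)]⟩,⟨0,[(23,0)]⟩) .k 0 (⟨0,[]⟩,⟨0,[]⟩) .k .k) (.Q [-1,0,
  0,0,0,0,0,0,-1,1,0,-1] (.p false [0,0,0,0,1] [1] (⟨0,[(25,0)]⟩,⟨0,[(24,0)]⟩) .k 1 (⟨0,[]⟩,⟨0,[]⟩)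
  .k .k) (.Q [0,0,0,0,0,-1,0,0,0,1,0,-1] (.ed true [0,1,0,0,1] .k) (.Q [0,0,1,0,0,0,0,0,-1,0,0,-1]
  (.p false [0,0,0,0,1] [] (⟨0,[(27,0)]⟩,⟨0,[(26,0)]⟩) .k 0 (⟨0,[]⟩,⟨0,[]⟩) .k .k) (.Q [-1,1,0,0,0,
  0,0,0,-1,0,0,-1] (.p false [0,0,0,0,1] [] (⟨0,[(28,0)]⟩,⟨0,[(27,0)]⟩) .k 0 (⟨0,[]⟩,⟨0,[]⟩) .k .k)
  (.S ⟨1,0,[-1,1],[1,0,0,0,-1],[-1],(⟨0,[(28,0)]⟩,⟨0,[(29,0)]⟩),⟨0,[(2,0)]⟩,.k,(.r (-1) ⟨81,[(8,24),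
  (8,15),(4,8),(0,7),(18,11),(2,3),(4,15),(2,14)]⟩ ⟨1,[(14,0),(11,0),(0,0)]⟩),⟨false,1,⟨1,[(26,0),
  (0,0),(23,0)]⟩,⟨0,[]⟩⟩,⟨true,0,⟨0,[(53,0)]⟩,⟨0,[]⟩⟩,⟨true,0,⟨0,[(49,0)]⟩,⟨0,[(48,0)]⟩⟩,⟨false,0,
  ⟨0,[(49,0)]⟩,⟨7,[(8,1),(8,1),(15,0),(0,2),(16,3)]⟩⟩,[.o ⟨false,0,⟨0,[(0,0)]⟩,⟨1,[(27,1),(10,0),
  (12,0)]⟩⟩,.e ⟨false,1,⟨1,[(42,0),(7,0)]⟩,⟨0,[(53,0)]⟩⟩ ⟨false,1,⟨1,[(4,0),(22,0),(22,0)]⟩,⟨0,[]⟩⟩,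
  .a ⟨true,0,⟨0,[(3,0)]⟩,⟨0,[(27,0)]⟩⟩ ⟨false,1,⟨1,[(4,0),(22,0),(23,0)]⟩,⟨0,[]⟩⟩ ⟨true,0,⟨0,[(53,
  0)]⟩,⟨0,[]⟩⟩,.o ⟨false,0,⟨0,[(1,0)]⟩,⟨1,[(27,1),(10,0),(11,0)]⟩⟩]⟩) (.R ⟨2,true,false,true,[0,1],
  [1,0,0,0,-1],[0,0,1,1],(⟨0,[]⟩,⟨0,[]⟩),(⟨0,[(28,0)]⟩,⟨0,[(29,0)]⟩),⟨0,[]⟩,.k,.k,.k,(.r 0 ⟨1,[(14,
  0),(11,0),(0,0)]⟩ ⟨81,[(8,24),(8,15),(4,8),(0,7),(18,11),(2,3),(4,15),(2,14)]⟩),.k,.k,⟨true,0,⟨1,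
  [(14,0),(36,0)]⟩,⟨0,[(48,0)]⟩⟩,⟨false,0,⟨0,[(3,0)]⟩,⟨1,[(27,1),(10,0),(11,0)]⟩⟩,⟨false,1,⟨1,[(26,
  0),(0,0),(23,0)]⟩,⟨0,[]⟩⟩,⟨true,0,⟨0,[(3,0),(44,0)]⟩,⟨0,[(0,0),(17,0)]⟩⟩,⟨true,0,⟨0,[(49,0)]⟩,⟨0,
  [(48,0)]⟩⟩,⟨false,0,⟨0,[(3,0)]⟩,⟨1,[(27,1),(10,0),(12,0)]⟩⟩,[]⟩)) (.R ⟨2,true,false,true,[0,1],[1,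
  0,0,0,-1],[1,0,1],(⟨0,[]⟩,⟨0,[]⟩),(⟨0,[(27,0)]⟩,⟨0,[(28,0)]⟩),⟨0,[]⟩,.k,.k,.k,(.r 0 ⟨1,[(13,0),
  (11,0),(0,0)]⟩ ⟨81,[(7,24),(8,15),(4,8),(0,7),(18,11),(2,3),(4,15),(2,14)]⟩),.k,.k,⟨true,0,⟨0,
  [(42,0)]⟩,⟨0,[(52,0)]⟩⟩,⟨false,0,⟨0,[(2,0)]⟩,⟨1,[(26,1),(10,0),(11,0)]⟩⟩,⟨false,1,⟨7,[(7,1),(8,1),
  (15,0),(0,2),(16,3)]⟩,⟨0,[(48,0)]⟩⟩,⟨true,0,⟨0,[(2,0),(44,0)]⟩,⟨1,[(0,1),(12,0),(23,0)]⟩⟩,⟨true,0,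
  ⟨0,[]⟩,⟨0,[(52,0)]⟩⟩,⟨false,0,⟨0,[(2,0)]⟩,⟨1,[(26,1),(10,0),(12,0)]⟩⟩,[]⟩)) (.Q [-1,0,0,1,0,0,0,0,
  -1,0,0,-1] (.p false [0,0,0,0,1] [] (⟨0,[(27,0)]⟩,⟨0,[(26,0)]⟩) .k 0 (⟨0,[]⟩,⟨0,[]⟩) .k .k) (.R
  ⟨2,true,false,false,[0,1],[0,0,0,0,1],[0,1,1,1],(⟨0,[]⟩,⟨0,[]⟩),(⟨0,[(28,0)]⟩,⟨0,[(27,0)]⟩),⟨0,
  []⟩,.k,.k,.k,(.r 0 ⟨9,[(3,3),(9,4),(12,3),(14,0),(10,1)]⟩ ⟨13,[(6,1),(0,5),(13,1),(0,1),(26,0),(0,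
  0)]⟩),.k,.k,⟨true,(-1),⟨4,[(10,2),(3,1),(4,0),(12,2),(10,3),(0,0),(3,1)]⟩,⟨7,[(7,1),(8,1),(15,0),
  (0,2),(16,3)]⟩⟩,⟨false,0,⟨0,[(26,0)]⟩,⟨8,[(0,4),(4,0),(1,1),(17,3),(23,1)]⟩⟩,⟨true,0,⟨0,[(52,0)]⟩,
  ⟨0,[]⟩⟩,⟨false,1,⟨7,[(7,1),(8,1),(9,7),(5,0),(0,2),(16,3)]⟩,⟨0,[(0,0)]⟩⟩,⟨false,0,⟨0,[(48,0)]⟩,⟨7,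
  [(7,1),(8,1),(15,0),(0,2),(16,3)]⟩⟩,⟨true,0,⟨0,[(26,0)]⟩,⟨0,[(0,0),(46,0)]⟩⟩,[]⟩) (.S ⟨1,0,[1,1],
  [0,0,0,0,1],[],(⟨0,[(28,0)]⟩,⟨0,[(27,0)]⟩),⟨1,[(1,0),(2,0),(18,0),(4,0)]⟩,.k,(.r (-1) ⟨13,[(6,1),
  (0,5),(13,1),(0,1),(26,0),(0,0)]⟩ ⟨9,[(3,3),(9,4),(12,3),(14,0),(10,1)]⟩),⟨false,1,⟨1,[(3,0),(22,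
  0),(23,0)]⟩,⟨0,[]⟩⟩,⟨true,0,⟨0,[(52,0)]⟩,⟨0,[]⟩⟩,⟨true,0,⟨1,[(10,1),(3,1),(17,1),(8,2),(1,5),(0,
  0)]⟩,⟨0,[(47,0)]⟩⟩,⟨false,0,⟨0,[(48,0)]⟩,⟨7,[(7,1),(8,1),(15,0),(0,2),(16,3)]⟩⟩,[.o ⟨false,0,⟨0,
  [(0,0),(16,0)]⟩,⟨1,[(2,1),(34,0),(12,0)]⟩⟩,.a ⟨true,0,⟨0,[(26,0)]⟩,⟨0,[(2,0)]⟩⟩ ⟨false,1,⟨1,[(49,
  0),(0,0)]⟩,⟨0,[(52,0)]⟩⟩ ⟨true,0,⟨0,[]⟩,⟨1,[(32,0),(0,0)]⟩⟩,.e ⟨false,1,⟨1,[(25,0),(0,0),(23,0)]⟩,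
  ⟨0,[]⟩⟩ ⟨false,0,⟨0,[]⟩,⟨1,[(25,0),(0,0),(23,0)]⟩⟩,.o ⟨false,0,⟨5,[(0,5),(12,2),(23,0),(6,1)]⟩,⟨1,
  [(2,1),(34,0),(11,0)]⟩⟩]⟩))) (.Q [0,0,0,0,0,-1,0,0,0,0,0,1] (.ed false [1,-1,0,0,1] .k) (.Q [1,0,
  0,-2,0,0,-1,-1,1,0,-1,1] (.p false [0,0,1] [0,0,0,0,1] (⟨0,[(34,0)]⟩,⟨0,[(33,0)]⟩) .k 2 (⟨0,[(27,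
  0)]⟩,⟨0,[(26,0)]⟩) .k (.r 0 ⟨0,[(4,1),(4,4),(3,7),(17,7),(8,7),(1,15),(0,3)]⟩ ⟨0,[(6,0),(5,0)]⟩))
  (.Q [-1,-1,0,-1,1,0,0,0,-1,1,0,-1] (.p false [0,0,0,0,1] [1] (⟨0,[(28,0)]⟩,⟨0,[(27,0)]⟩) .k 1 (⟨0,
  []⟩,⟨0,[]⟩) .k .k) (.S ⟨1,0,[1,1],[0,0,0,0,1],[1,1,1],(⟨0,[(29,0)]⟩,⟨0,[(28,0)]⟩),⟨0,[(2,0)]⟩,.k,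
  (.r (-1) ⟨13,[(7,1),(0,5),(13,1),(0,1),(26,0),(0,0)]⟩ ⟨9,[(4,3),(9,4),(12,3),(14,0),(10,1)]⟩),
  ⟨false,0,⟨1,[(33,0),(0,0)]⟩,⟨1,[(50,0),(0,0)]⟩⟩,⟨true,0,⟨0,[(53,0)]⟩,⟨0,[]⟩⟩,⟨true,(-1),⟨1,[(11,
  0),(20,0),(0,0),(10,0)]⟩,⟨13,[(7,1),(0,5),(13,1),(0,1),(26,0),(0,0)]⟩⟩,⟨false,0,⟨0,[(49,0)]⟩,⟨7,
  [(8,1),(8,1),(15,0),(0,2),(16,3)]⟩⟩,[.e ⟨false,0,⟨0,[(53,0)]⟩,⟨1,[(50,0),(0,0)]⟩⟩ ⟨false,0,⟨0,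
  [(44,0)]⟩,⟨1,[(26,0),(0,0),(23,0)]⟩⟩,.o ⟨false,0,⟨0,[(3,0)]⟩,⟨0,[(4,0)]⟩⟩,.o ⟨false,0,⟨5,[(1,1),
  (1,3),(7,1),(21,1),(11,0),(4,2)]⟩,⟨0,[(26,0)]⟩⟩,.a ⟨true,(-1),⟨0,[(1,0),(9,0),(21,0),(16,0)]⟩,⟨1,
  [(0,1),(11,0),(3,0),(27,1)]⟩⟩ ⟨false,0,⟨0,[]⟩,⟨1,[(26,0),(0,0),(23,0)]⟩⟩ ⟨true,0,⟨0,[(44,0)]⟩,⟨1,
  [(33,0),(0,0)]⟩⟩]⟩) (.R ⟨1,false,false,false,[0,0,0,0,1],[0,1],[],(⟨0,[(29,0)]⟩,⟨0,[(28,0)]⟩),(⟨0,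
  [(40,0)]⟩,⟨0,[(39,0)]⟩),⟨0,[(2,0)]⟩,.k,.k,(.r (-1) ⟨13,[(7,1),(0,5),(13,1),(0,1),(26,0),(0,0)]⟩
  ⟨9,[(4,3),(9,4),(12,3),(14,0),(10,1)]⟩),(.r (-1) ⟨13,[(7,1),(0,5),(13,1),(0,1),(26,0),(0,0)]⟩ ⟨9,
  [(4,3),(9,4),(12,3),(14,0),(10,1)]⟩),(.r (-2) ⟨6,[(7,1),(0,5),(13,1),(0,1),(26,0),(0,0)]⟩ ⟨6,[(11,
  1),(1,1),(0,1),(18,3),(11,0),(3,3)]⟩),.k,⟨true,1,⟨13,[(7,1),(0,5),(13,1),(0,1),(26,0),(0,0)]⟩,⟨2,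
  [(11,0),(2,0),(5,0),(12,0),(9,0)]⟩⟩,⟨false,2,⟨0,[(26,0),(23,0)]⟩,⟨84,[(0,49),(0,23),(4,9),(3,20),
  (0,3),(12,20),(2,10),(5,44),(3,7),(1,28),(2,24)]⟩⟩,⟨false,1,⟨1,[(4,0),(22,0),(23,0)]⟩,⟨0,[]⟩⟩,
  ⟨true,1,⟨0,[(26,0),(22,0)]⟩,⟨0,[(0,0),(15,0),(0,0)]⟩⟩,⟨true,0,⟨1,[(11,1),(3,1),(17,1),(8,2),(1,5),
  (0,0)]⟩,⟨0,[(48,0)]⟩⟩,⟨true,1,⟨1,[(12,0),(3,0),(9,1),(22,1)]⟩,⟨0,[(0,0),(14,0),(1,0)]⟩⟩,[.a ⟨true,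
  0,⟨0,[(49,0)]⟩,⟨1,[(16,0),(0,0),(10,0),(0,0)]⟩⟩ ⟨false,1,⟨9,[(8,3),(3,3),(3,1),(6,1),(7,1),(18,0),
  (0,0)]⟩,⟨0,[]⟩⟩ ⟨true,1,⟨1,[(12,0),(3,0),(9,1)]⟩,⟨83,[(0,35),(0,47),(3,4),(0,29),(4,17),(3,29),(8,
  4),(8,77),(3,15),(1,0),(2,17)]⟩⟩,.o ⟨false,1,⟨0,[(18,0),(32,0)]⟩,⟨0,[(48,0)]⟩⟩,.o ⟨false,0,⟨32,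
  [(0,9),(0,3),(1,10),(3,1),(19,7),(14,4),(2,4)]⟩,⟨0,[(26,0)]⟩⟩,.e ⟨false,1,⟨1,[(50,0),(0,0)]⟩,⟨1,
  [(33,0),(0,0)]⟩⟩ ⟨false,2,⟨1,[(12,0),(3,0),(9,1),(23,0),(0,0)]⟩,⟨83,[(0,35),(0,47),(3,4),(0,29),
  (4,17),(3,29),(8,4),(8,77),(3,15),(1,0),(2,17)]⟩⟩]⟩)) (.R ⟨1,true,false,false,[0,0,0,0,1],[0,1,1],
  [0,1],(⟨0,[(28,0)]⟩,⟨0,[(27,0)]⟩),(⟨0,[(35,0),(0,0)]⟩,⟨0,[(23,0)]⟩),⟨0,[(1,0)]⟩,.k,.k,(.r (-1)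
  ⟨13,[(6,1),(0,5),(13,1),(0,1),(26,0),(0,0)]⟩ ⟨9,[(3,3),(9,4),(12,3),(14,0),(10,1)]⟩),(.r (-2) ⟨1,
  [(7,1),(5,0),(11,0),(0,0)]⟩ ⟨51,[(0,0),(9,23),(0,0),(8,16),(0,8),(0,0),(3,0),(14,12),(9,3)]⟩),(.r
  (-2) ⟨0,[(7,0)]⟩ ⟨7,[(10,2),(0,0),(1,3),(7,2),(0,0),(7,0),(10,1),(9,1)]⟩),.k,⟨true,1,⟨1,[(7,0),
  (23,0),(0,0),(10,0)]⟩,⟨11,[(6,1),(3,6),(11,1),(7,0),(2,0),(8,8),(7,1)]⟩⟩,⟨false,2,⟨0,[(0,0),(6,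
  0)]⟩,⟨10,[(2,7),(2,1),(4,1),(1,4),(1,2),(1,1),(9,2),(24,3)]⟩⟩,⟨true,0,⟨0,[(52,0)]⟩,⟨0,[]⟩⟩,⟨false,
  1,⟨7,[(0,4),(15,0),(8,2),(4,1),(19,4)]⟩,⟨0,[(2,0),(11,0)]⟩⟩,⟨false,0,⟨1,[(10,1),(3,1),(17,1),(8,
  2),(1,5),(0,0)]⟩,⟨7,[(7,1),(8,1),(15,0),(0,2),(16,3)]⟩⟩,⟨true,0,⟨0,[(0,0)]⟩,⟨2,[(2,0),(11,0),(1,
  0),(2,2),(6,1)]⟩⟩,[]⟩)) (.Q [0,0,1,-1,-1,0,0,0,1,0,0,1] (.p true [0,0,0,0,1] [] (⟨0,[(27,0)]⟩,⟨0,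
  [(26,0)]⟩) .k 0 (⟨0,[]⟩,⟨0,[]⟩) .k .k) (.R ⟨0,false,false,false,[0,0,0,0,1],[0,1],[],(⟨0,[(28,
  0)]⟩,⟨0,[(27,0)]⟩),(⟨0,[(39,0)]⟩,⟨0,[(38,0)]⟩),⟨0,[(1,0)]⟩,.k,.k,(.r (-1) ⟨13,[(6,1),(0,5),(13,1),
  (0,1),(26,0),(0,0)]⟩ ⟨9,[(3,3),(9,4),(12,3),(14,0),(10,1)]⟩),(.r (-1) ⟨13,[(6,1),(0,5),(13,1),(0,
  1),(26,0),(0,0)]⟩ ⟨9,[(3,3),(9,4),(12,3),(14,0),(10,1)]⟩),.k,.k,⟨true,1,⟨13,[(6,1),(0,5),(13,1),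
  (0,1),(26,0),(0,0)]⟩,⟨2,[(10,0),(2,0),(5,0),(12,0),(9,0)]⟩⟩,⟨false,2,⟨0,[(25,0),(23,0)]⟩,⟨1,[(0,
  1),(10,0),(3,0)]⟩⟩,⟨false,1,⟨1,[(3,0),(22,0),(23,0)]⟩,⟨0,[]⟩⟩,⟨true,1,⟨0,[(25,0),(22,0)]⟩,⟨0,[(0,
  0),(42,0)]⟩⟩,⟨false,0,⟨0,[]⟩,⟨0,[]⟩⟩,⟨false,0,⟨0,[]⟩,⟨0,[]⟩⟩,[.a ⟨true,0,⟨0,[(48,0)]⟩,⟨1,[(15,0),
  (0,0),(10,0),(0,0)]⟩⟩ ⟨false,1,⟨9,[(7,3),(3,3),(3,1),(6,1),(7,1),(18,0),(0,0)]⟩,⟨0,[]⟩⟩ ⟨true,1,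
  ⟨1,[(11,0),(3,0),(9,1)]⟩,⟨0,[(0,0)]⟩⟩,.o ⟨false,1,⟨0,[(17,0),(32,0)]⟩,⟨0,[(47,0)]⟩⟩,.o ⟨false,0,
  ⟨7,[(0,1),(1,5),(41,0),(3,1),(0,0)]⟩,⟨0,[(25,0)]⟩⟩,.e ⟨false,1,⟨1,[(49,0),(0,0)]⟩,⟨1,[(32,0),(0,
  0)]⟩⟩ ⟨false,2,⟨1,[(11,0),(3,0),(9,1),(23,0),(0,0)]⟩,⟨0,[(0,0)]⟩⟩]⟩) (.Q [0,0,0,0,0,0,0,0,1,-1,0,
  1] (.p true [0,0,0,0,1] [1] (⟨0,[(28,0)]⟩,⟨0,[(27,0)]⟩) .k 1 (⟨0,[]⟩,⟨0,[]⟩) .k .k) (.Q [-1,1,0,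
  -2,0,0,0,0,-1,1,0,-1] (.p false [0,0,0,0,1] [1] (⟨0,[(29,0)]⟩,⟨0,[(28,0)]⟩) .k 1 (⟨0,[]⟩,⟨0,[]⟩)
  .k .k) (.R ⟨1,false,false,false,[1,0,0,0,-1],[0,1],[-1],(⟨0,[(29,0)]⟩,⟨0,[(30,0)]⟩),(⟨0,[(41,0)]⟩,
  ⟨0,[(40,0)]⟩),⟨1,[(3,0),(2,0),(18,0),(3,0)]⟩,.k,.k,(.r (-1) ⟨81,[(9,24),(8,15),(4,8),(0,7),(18,
  11),(2,3),(4,15),(2,14)]⟩ ⟨1,[(15,0),(11,0),(0,0)]⟩),(.r (-1) ⟨81,[(9,24),(8,15),(4,8),(0,7),(18,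
  11),(2,3),(4,15),(2,14)]⟩ ⟨1,[(15,0),(11,0),(0,0)]⟩),(.r (-2) ⟨40,[(9,28),(8,11),(4,16),(0,5),(18,
  8),(2,2),(4,11),(2,0)]⟩ ⟨0,[(15,0)]⟩),.k,⟨true,1,⟨81,[(9,24),(8,15),(4,8),(0,7),(18,11),(2,3),(4,
  15),(2,14)]⟩,⟨2,[(12,0),(2,0),(5,0),(12,0),(9,0)]⟩⟩,⟨false,1,⟨0,[(4,0),(46,0)]⟩,⟨6,[(0,3),(1,1),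
  (8,0),(3,2),(11,0),(6,0),(1,0),(3,1),(11,1)]⟩⟩,⟨false,1,⟨1,[(27,0),(0,0),(23,0)]⟩,⟨0,[]⟩⟩,⟨true,0,
  ⟨1,[(4,1),(8,0),(3,0)]⟩,⟨21,[(0,15),(1,5),(8,0),(0,1),(4,1),(16,2),(1,0),(1,0),(1,2),(6,2)]⟩⟩,
  ⟨true,0,⟨0,[(50,0)]⟩,⟨0,[(49,0)]⟩⟩,⟨true,0,⟨0,[(4,0),(8,0),(3,0)]⟩,⟨0,[(0,0)]⟩⟩,[.a ⟨true,0,⟨0,
  [(50,0)]⟩,⟨1,[(17,0),(0,0),(10,0),(0,0)]⟩⟩ ⟨false,1,⟨31,[(2,9),(6,4),(13,4),(4,9),(14,5),(7,5),(2,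
  6)]⟩,⟨0,[]⟩⟩ ⟨true,0,⟨0,[(4,0),(45,0)]⟩,⟨1,[(0,1),(14,0),(36,0)]⟩⟩,.o ⟨false,1,⟨0,[(19,0),(32,
  0)]⟩,⟨0,[(49,0)]⟩⟩,.o ⟨false,1,⟨0,[(27,0)]⟩,⟨0,[(1,0)]⟩⟩,.e ⟨false,1,⟨1,[(43,0),(7,0)]⟩,⟨1,[(34,
  0),(0,0)]⟩⟩ ⟨false,1,⟨1,[(4,1),(8,0),(3,0),(33,0),(0,0)]⟩,⟨1,[(0,1),(14,0),(36,0)]⟩⟩]⟩) (.I [0,1,
  1,-1,0,0,0,-1] (.C [(0,0),(0,0),(1,0),(4,0),(8,0),(17,0)]) (.C [(0,0),(21,0),(12,0)]))) (.S ⟨1,0,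
  [-1],[1,0,0,0,-1],[0,1,0,-1],(⟨0,[(28,0)]⟩,⟨0,[(29,0)]⟩),⟨1,[(2,0),(2,0),(18,0),(3,0)]⟩,.k,(.r
  (-1) ⟨81,[(8,24),(8,15),(4,8),(0,7),(18,11),(2,3),(4,15),(2,14)]⟩ ⟨1,[(14,0),(11,0),(0,0)]⟩),
  ⟨true,0,⟨0,[(48,0)]⟩,⟨0,[(49,0)]⟩⟩,⟨false,1,⟨1,[(26,0),(0,0),(23,0)]⟩,⟨0,[]⟩⟩,⟨false,0,⟨0,[]⟩,⟨1,
  [(26,0),(0,0),(23,0)]⟩⟩,⟨true,0,⟨0,[(49,0)]⟩,⟨0,[(48,0)]⟩⟩,[.o ⟨false,1,⟨0,[(4,0)]⟩,⟨0,[(3,0)]⟩⟩,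
  .o ⟨false,1,⟨5,[(0,5),(37,1),(6,0),(5,2)]⟩,⟨0,[(3,0),(49,0)]⟩⟩,.a ⟨true,0,⟨0,[(0,0)]⟩,⟨0,[(27,
  0)]⟩⟩ ⟨true,0,⟨0,[(48,0)]⟩,⟨1,[(12,0),(3,0)]⟩⟩ ⟨false,1,⟨1,[(4,0),(22,0),(23,0)]⟩,⟨0,[]⟩⟩,.e
  ⟨false,1,⟨13,[(7,1),(0,5),(13,1),(0,1),(26,0),(0,0)]⟩,⟨1,[(14,0),(36,0)]⟩⟩ ⟨false,1,⟨1,[(42,0),(7,
  0)]⟩,⟨1,[(33,0),(0,0)]⟩⟩]⟩))))) (.R ⟨2,true,false,true,[0,1],[0,0,0,0,1],[1,1],(⟨0,[]⟩,⟨0,[]⟩),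
  (⟨0,[(25,0)]⟩,⟨0,[(24,0)]⟩),⟨0,[]⟩,.k,.k,.k,(.r 0 ⟨5,[(10,2),(11,1),(0,1),(14,0),(10,1)]⟩ ⟨13,[(3,
  1),(0,5),(13,1),(0,1),(26,0),(0,0)]⟩),.k,.k,⟨false,1,⟨9,[(4,3),(3,3),(3,1),(6,1),(7,1),(18,0),(0,
  0)]⟩,⟨0,[]⟩⟩,⟨true,(-1),⟨3,[(0,3),(28,0),(0,0),(17,1)]⟩,⟨0,[(22,0)]⟩⟩,⟨false,1,⟨13,[(3,1),(0,5),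
  (13,1),(0,1),(26,0),(0,0)]⟩,⟨1,[(10,0),(36,0)]⟩⟩,⟨true,(-1),⟨0,[(0,0),(43,0)]⟩,⟨0,[(22,0),(22,
  0)]⟩⟩,⟨true,0,⟨0,[(40,0)]⟩,⟨1,[(29,0),(0,0)]⟩⟩,⟨false,(-1),⟨0,[(0,0)]⟩,⟨1,[(22,2),(0,0),(14,0)]⟩⟩,
  []⟩)))))))))

theorem ok21 : chk K t21 r17 = true := by decide +kernel

noncomputable def t23 : Tre :=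
  (.Q [0,0,0,-2,0,0,-1,-1,0,1,-1] (.p false [0,0,1] [1] (⟨0,[(23,0)]⟩,⟨0,[(22,0)]⟩) .k 1 (⟨0,[]⟩,⟨0,
  []⟩) .k .k) (.Q [0,0,0,0,0,2,0,0,0,-1,1] (.p true [0,0,1] [1] (⟨0,[(24,0)]⟩,⟨0,[(23,0)]⟩) .k 1
  (⟨0,[]⟩,⟨0,[]⟩) .k .k) (.R ⟨0,false,false,true,[1,-1,-1],[1,-1],[],(⟨0,[(13,0)]⟩,⟨1,[(0,0),(16,0),
  (0,0),(6,0)]⟩),(⟨0,[(28,0)]⟩,⟨0,[(29,0)]⟩),⟨0,[(0,0)]⟩,.k,.k,(.r (-2) ⟨1,[(1,0),(0,1),(2,2),(21,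
  0),(11,0)]⟩ ⟨1,[(3,1),(6,0),(0,0),(28,0)]⟩),.k,.k,.k,⟨true,0,⟨1,[(3,0),(36,0)]⟩,⟨0,[(37,0)]⟩⟩,
  ⟨false,1,⟨0,[(22,0),(16,0)]⟩,⟨9,[(1,1),(1,2),(4,1),(10,7),(7,4),(4,1)]⟩⟩,⟨true,(-1),⟨1,[(3,0),(6,
  1),(29,0)]⟩,⟨0,[(2,0),(2,0),(15,0)]⟩⟩,⟨false,0,⟨2,[(2,1),(0,1),(2,0),(12,1)]⟩,⟨1,[(5,1),(21,0),
  (12,0)]⟩⟩,⟨false,0,⟨0,[]⟩,⟨0,[]⟩⟩,⟨false,0,⟨0,[]⟩,⟨0,[]⟩⟩,[.o ⟨false,0,⟨0,[(37,0)]⟩,⟨0,[(7,0),(32,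
  0)]⟩⟩,.a ⟨true,0,⟨3,[(1,0),(4,0),(10,2),(0,2)]⟩,⟨0,[(38,0)]⟩⟩ ⟨false,1,⟨1,[(39,0),(0,0)]⟩,⟨0,[(42,
  0)]⟩⟩ ⟨true,1,⟨0,[(2,0),(2,0)]⟩,⟨9,[(1,3),(1,10),(4,3),(10,5),(7,4),(4,3)]⟩⟩,.e ⟨false,1,⟨1,[(15,
  0),(0,0),(23,0)]⟩,⟨0,[]⟩⟩ ⟨false,1,⟨0,[(2,0),(2,0)]⟩,⟨1,[(3,0),(15,1),(7,0),(4,1)]⟩⟩,.o ⟨false,
  (-1),⟨9,[(1,5),(1,8),(4,5),(10,3),(7,4),(4,5)]⟩,⟨1,[(22,1),(4,0),(11,2)]⟩⟩]⟩) (.Q [0,-1,0,2,0,0,1,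
  1,0,0,1] (.p true [0,0,1] [] (⟨0,[(25,0)]⟩,⟨0,[(24,0)]⟩) .k 0 (⟨0,[]⟩,⟨0,[]⟩) .k .k) (.S ⟨1,3,[],
  [1,-1,-1],[1,0,-1,-2,0,0,0,-1],(⟨0,[(14,0)]⟩,⟨0,[(26,0),(0,0)]⟩),⟨0,[(1,0)]⟩,.k,(.r (-2) ⟨1,[(2,
  0),(0,1),(2,2),(21,0),(11,0)]⟩ ⟨6,[(0,2),(3,4),(2,0),(3,1),(0,0),(11,3)]⟩),⟨false,1,⟨5,[(2,1),(0,
  1),(12,0),(0,0),(6,1),(16,2)]⟩,⟨0,[(39,0)]⟩⟩,⟨true,0,⟨1,[(0,0),(20,0)]⟩,⟨0,[(10,0)]⟩⟩,⟨true,0,⟨0,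
  []⟩,⟨0,[(43,0)]⟩⟩,⟨false,0,⟨0,[(0,0)]⟩,⟨1,[(2,1),(13,0),(0,0),(10,0)]⟩⟩,[.fa ⟨false,2,⟨1,[(2,0),
  (0,1),(2,2),(21,0),(11,0)]⟩,⟨5,[(0,1),(3,3),(6,3),(8,1),(7,0),(12,0)]⟩⟩ ⟨true,1,⟨0,[(23,0),(16,
  0)]⟩,⟨9,[(2,5),(1,8),(4,5),(10,3),(7,4),(4,5)]⟩⟩,.a ⟨true,0,⟨0,[(0,0),(1,0)]⟩,⟨0,[(43,0)]⟩⟩ ⟨true,
  2,⟨1,[(2,0),(0,1),(2,2),(21,0),(12,0)]⟩,⟨0,[(4,0),(6,0)]⟩⟩ ⟨false,2,⟨1,[(23,1),(16,2),(0,0)]⟩,⟨9,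
  [(2,1),(1,6),(4,5),(0,3),(9,3),(7,2)]⟩⟩,.a ⟨true,(-1),⟨4,[(2,1),(1,2),(4,1),(10,2),(12,1)]⟩,⟨0,
  [(23,0),(16,0)]⟩⟩ ⟨false,2,⟨1,[(2,0),(0,1),(2,2),(21,0),(12,0)]⟩,⟨5,[(0,1),(3,3),(6,3),(8,1),(7,
  0),(12,0)]⟩⟩ ⟨true,1,⟨0,[(23,0),(16,0)]⟩,⟨9,[(2,1),(1,6),(4,5),(0,3),(9,3),(7,2)]⟩⟩,.o ⟨false,
  (-1),⟨9,[(2,5),(1,8),(4,5),(10,3),(7,4),(4,5)]⟩,⟨1,[(23,1),(4,0),(11,2)]⟩⟩]⟩) (.Q [0,0,-1,0,0,0,0,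
  0,1,-1,0,1] (.p true [0,0,0,0,1] [1] (⟨0,[(19,0)]⟩,⟨0,[(18,0)]⟩) .k 1 (⟨0,[]⟩,⟨0,[]⟩) .k .k) (.Q
  [-1,0,0,0,1,0,0,0,-1,0,0,-1] (.p false [0,0,0,0,1] [] (⟨0,[(20,0)]⟩,⟨0,[(19,0)]⟩) .k 0 (⟨0,[]⟩,⟨0,
  []⟩) .k .k) (.R ⟨1,false,false,true,[0,0,1],[1,0,0,0,-1],[1,0,0,-1,0,0,0,1],(⟨0,[(28,0)]⟩,⟨0,[(27,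
  0)]⟩),(⟨0,[(20,0)]⟩,⟨0,[(21,0)]⟩),⟨0,[(17,0)]⟩,.k,.k,.k,.k,(.r 0 ⟨1,[(11,1),(30,0),(0,0)]⟩ ⟨1,[(0,
  0),(7,1),(1,1),(8,0),(5,1),(17,0)]⟩),.k,⟨true,0,⟨0,[(11,0),(31,0)]⟩,⟨0,[(24,0),(0,0),(15,0)]⟩⟩,
  ⟨false,1,⟨0,[(0,0),(21,0)]⟩,⟨0,[(1,0),(23,0)]⟩⟩,⟨false,1,⟨5,[(0,0),(3,1),(0,1),(13,0),(6,1),(16,
  2)]⟩,⟨0,[(41,0)]⟩⟩,⟨false,1,⟨0,[(0,0),(7,0)]⟩,⟨5,[(1,5),(3,1),(0,4),(2,3),(12,1),(20,2)]⟩⟩,⟨true,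
  0,⟨0,[]⟩,⟨0,[(45,0)]⟩⟩,⟨false,1,⟨0,[(0,0),(7,0),(32,0)]⟩,⟨1,[(1,1),(4,0),(2,1),(33,0)]⟩⟩,[.o
  ⟨false,1,⟨0,[(0,0),(44,0)]⟩,⟨0,[(1,0),(33,0)]⟩⟩,.o ⟨false,1,⟨0,[(0,0)]⟩,⟨8,[(1,4),(0,0),(3,1),(2,
  0),(9,3),(10,1),(4,0)]⟩⟩,.o ⟨false,1,⟨1,[(25,1),(4,0),(11,0)]⟩,⟨11,[(2,1),(3,2),(4,1),(10,9),(7,
  4),(4,3)]⟩⟩,.a ⟨true,0,⟨0,[(25,0)]⟩,⟨0,[(22,0)]⟩⟩ ⟨true,0,⟨1,[(11,1),(30,0),(0,0)]⟩,⟨0,[(8,0),(1,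
  0),(14,0)]⟩⟩ ⟨false,1,⟨0,[(0,0),(21,0)]⟩,⟨0,[(1,0),(23,0),(9,0)]⟩⟩]⟩) (.R ⟨2,true,false,true,[0,
  1],[0,0,0,0,1],[1,1],(⟨0,[]⟩,⟨0,[]⟩),(⟨0,[(21,0)]⟩,⟨0,[(20,0)]⟩),⟨0,[]⟩,.k,.k,.k,(.r 0 ⟨5,[(6,2),
  (11,1),(0,1),(14,0),(10,1)]⟩ ⟨11,[(4,3),(0,3),(9,1),(2,2),(0,2),(10,0),(11,3)]⟩),.k,.k,⟨false,1,
  ⟨1,[(18,0),(0,0),(22,0)]⟩,⟨0,[]⟩⟩,⟨true,(-1),⟨3,[(0,3),(24,0),(0,0),(17,1)]⟩,⟨0,[(18,0)]⟩⟩,⟨false,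
  1,⟨11,[(4,3),(0,3),(9,1),(2,2),(0,2),(10,0),(11,3)]⟩,⟨1,[(6,0),(36,0)]⟩⟩,⟨true,(-1),⟨0,[(0,0),(39,
  0)]⟩,⟨0,[(18,0),(22,0)]⟩⟩,⟨true,0,⟨0,[(36,0)]⟩,⟨1,[(25,0),(0,0)]⟩⟩,⟨false,(-1),⟨0,[(0,0)]⟩,⟨1,
  [(18,2),(0,0),(14,0)]⟩⟩,[]⟩)) (.I [2,1,-1,-1] (.N [0,2] 1 ⟨0,[(6,0)]⟩ ⟨0,[(0,1),(33,0)]⟩ (.x (-2)
  ⟨0,[(30,0),(0,1),(10,0)]⟩ ⟨0,[(0,1),(5,0),(22,1),(5,1)]⟩)) (.Q [-1,-1,0,0,1,0,0,0,-1,0,0,-1] (.p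
  false [0,0,0,0,1] [] (⟨0,[(21,0)]⟩,⟨0,[(20,0)]⟩) .k 0 (⟨0,[]⟩,⟨0,[]⟩) .k .k) (.Q [-1,0,0,1,0,0,0,
  0,-1,0,0,-1] (.p false [0,0,0,0,1] [] (⟨0,[(22,0)]⟩,⟨0,[(21,0)]⟩) .k 0 (⟨0,[]⟩,⟨0,[]⟩) .k .k) (.R
  ⟨2,true,false,true,[0,1],[0,0,0,0,1],[2,1],(⟨0,[]⟩,⟨0,[]⟩),(⟨0,[(23,0)]⟩,⟨0,[(22,0)]⟩),⟨0,[]⟩,.k,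
  .k,.k,(.r 0 ⟨7,[(2,1),(5,2),(11,2),(0,2),(25,1)]⟩ ⟨11,[(6,3),(0,3),(9,1),(2,2),(0,2),(10,0),(11,
  3)]⟩),.k,.k,⟨true,0,⟨0,[]⟩,⟨1,[(27,0),(0,0)]⟩⟩,⟨false,0,⟨0,[(21,0)]⟩,⟨7,[(0,3),(0,0),(2,0),(6,0),
  (8,2),(23,3)]⟩⟩,⟨false,1,⟨11,[(6,3),(0,3),(9,1),(2,2),(0,2),(10,0),(11,3)]⟩,⟨0,[(2,0)]⟩⟩,⟨true,0,
  ⟨0,[(21,0),(20,0)]⟩,⟨0,[(0,0)]⟩⟩,⟨true,0,⟨0,[(38,0)]⟩,⟨0,[(46,0)]⟩⟩,⟨false,0,⟨0,[(21,0)]⟩,⟨0,[(1,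
  0)]⟩⟩,[]⟩) (.Q [-1,0,0,0,0,0,0,0,-1,1,0,-1] (.p false [0,0,0,0,1] [1] (⟨0,[(23,0)]⟩,⟨0,[(22,0)]⟩)
  .k 1 (⟨0,[]⟩,⟨0,[]⟩) .k .k) (.Q [0,0,0,0,0,-1,0,0,0,0,0,1] (.ed false [1,-1,0,0,1] .k) (.S ⟨1,0,
  [1,1],[0,0,0,0,1],[],(⟨0,[(25,0)]⟩,⟨0,[(24,0)]⟩),⟨0,[(0,0)]⟩,.k,(.r (-1) ⟨17,[(2,5),(5,3),(0,3),
  (9,1),(2,5),(11,0),(11,6)]⟩ ⟨7,[(4,1),(5,2),(11,2),(0,2),(25,1)]⟩),⟨false,1,⟨1,[(22,0),(0,0),(14,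
  0)]⟩,⟨0,[]⟩⟩,⟨true,0,⟨0,[(49,0)]⟩,⟨0,[]⟩⟩,⟨true,0,⟨0,[(4,0),(35,0)]⟩,⟨0,[(44,0)]⟩⟩,⟨false,0,⟨0,
  [(45,0)]⟩,⟨13,[(2,5),(5,1),(4,1),(8,5),(11,0),(12,6)]⟩⟩,[.o ⟨false,0,⟨0,[(2,0),(11,0)]⟩,⟨0,[(3,
  0)]⟩⟩,.a ⟨true,0,⟨0,[(23,0)]⟩,⟨0,[(1,0)]⟩⟩ ⟨false,1,⟨1,[(46,0),(0,0)]⟩,⟨0,[(49,0)]⟩⟩ ⟨true,0,⟨0,
  []⟩,⟨1,[(29,0),(0,0)]⟩⟩,.e ⟨false,1,⟨1,[(22,0),(0,0),(23,0)]⟩,⟨0,[]⟩⟩ ⟨false,0,⟨0,[]⟩,⟨1,[(22,0),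
  (0,0),(23,0)]⟩⟩,.o ⟨false,0,⟨5,[(2,5),(7,2),(23,0),(6,1)]⟩,⟨0,[(3,0),(36,0)]⟩⟩]⟩) (.Q [-1,0,0,-2,
  0,0,0,0,-1,1,0,-1] (.p false [0,0,0,0,1] [1] (⟨0,[(25,0)]⟩,⟨0,[(24,0)]⟩) .k 1 (⟨0,[]⟩,⟨0,[]⟩) .k
  .k) (.S ⟨1,0,[-1,1],[1,0,0,0,-1],[-1],(⟨0,[(25,0)]⟩,⟨0,[(26,0)]⟩),⟨1,[(1,0),(6,0),(13,0),(2,0)]⟩,
  .k,(.r (-1) ⟨81,[(3,17),(5,11),(0,11),(9,5),(2,17),(15,13),(2,2),(2,27),(1,34)]⟩ ⟨1,[(11,0),(11,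
  0),(0,0)]⟩),⟨false,1,⟨1,[(23,0),(0,0),(23,0)]⟩,⟨0,[]⟩⟩,⟨true,0,⟨0,[(50,0)]⟩,⟨0,[]⟩⟩,⟨true,0,⟨0,
  [(46,0)]⟩,⟨0,[(45,0)]⟩⟩,⟨false,0,⟨0,[(46,0)]⟩,⟨13,[(3,5),(5,1),(4,1),(8,5),(11,0),(12,6)]⟩⟩,[.o
  ⟨false,0,⟨1,[(0,0),(1,0),(12,1)]⟩,⟨1,[(24,1),(10,0),(12,0)]⟩⟩,.e ⟨false,1,⟨1,[(39,0),(7,0)]⟩,⟨0,
  [(50,0)]⟩⟩ ⟨false,1,⟨11,[(23,4),(0,4),(14,0),(7,5),(2,1)]⟩,⟨0,[]⟩⟩,.a ⟨true,0,⟨0,[(2,0)]⟩,⟨0,[(24,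
  0)]⟩⟩ ⟨false,1,⟨1,[(23,0),(0,0),(14,0)]⟩,⟨0,[]⟩⟩ ⟨true,0,⟨0,[(50,0)]⟩,⟨0,[]⟩⟩,.o ⟨false,0,⟨5,[(0,
  3),(3,1),(6,2),(3,1),(19,0)]⟩,⟨1,[(24,1),(10,0),(11,0)]⟩⟩]⟩) (.R ⟨0,false,false,true,[0,0,0,0,1],
  [0,1],[1,1,1],(⟨0,[(26,0)]⟩,⟨0,[(25,0)]⟩),(⟨0,[(37,0)]⟩,⟨0,[(36,0)]⟩),⟨0,[(1,0)]⟩,.k,.k,(.r (-1)
  ⟨17,[(3,5),(5,3),(0,3),(9,1),(2,5),(11,0),(11,6)]⟩ ⟨16,[(0,2),(4,4),(5,2),(8,2),(2,2),(6,5),(19,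
  4)]⟩),(.r (-1) ⟨17,[(3,5),(5,3),(0,3),(9,1),(2,5),(11,0),(11,6)]⟩ ⟨16,[(0,2),(4,4),(5,2),(8,2),(2,
  2),(6,5),(19,4)]⟩),.k,.k,⟨false,1,⟨17,[(3,5),(5,3),(0,3),(9,1),(2,5),(11,0),(11,6)]⟩,⟨0,[(46,
  0)]⟩⟩,⟨true,1,⟨0,[(4,0),(36,0)]⟩,⟨3,[(0,2),(2,0),(1,1),(3,2),(1,0),(4,2),(13,2),(9,0)]⟩⟩,⟨false,0,
  ⟨1,[(30,0),(0,0)]⟩,⟨1,[(47,0),(0,0)]⟩⟩,⟨true,0,⟨0,[(2,0),(12,0)]⟩,⟨0,[(3,0)]⟩⟩,⟨false,0,⟨0,[]⟩,⟨0,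
  []⟩⟩,⟨false,0,⟨0,[]⟩,⟨0,[]⟩⟩,[.o ⟨false,0,⟨0,[(15,0)]⟩,⟨13,[(3,5),(5,1),(4,1),(8,5),(11,0),(12,
  6)]⟩⟩,.e ⟨false,0,⟨0,[]⟩,⟨1,[(23,0),(0,0),(22,0)]⟩⟩ ⟨false,1,⟨3,[(0,0),(1,2),(1,1),(10,1),(31,
  1)]⟩,⟨23,[(0,4),(2,18),(1,2),(2,1),(0,5),(0,2),(5,2),(5,1),(11,5)]⟩⟩,.a ⟨true,0,⟨0,[(24,0)]⟩,⟨0,
  [(2,0)]⟩⟩ ⟨false,0,⟨1,[(30,0),(0,0)]⟩,⟨1,[(47,0),(0,0)]⟩⟩ ⟨true,0,⟨0,[(2,0),(12,0)]⟩,⟨23,[(0,4),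
  (2,18),(1,2),(2,1),(0,5),(0,2),(5,2),(5,1),(11,5)]⟩⟩,.o ⟨false,0,⟨5,[(3,5),(7,2),(23,0),(6,1)]⟩,
  ⟨0,[(4,0),(36,0)]⟩⟩]⟩))) (.R ⟨1,false,false,false,[0,0,1],[1,0,0,0,-1],[1,0,0,-1,0,0,0,1],(⟨0,
  [(31,0)]⟩,⟨0,[(30,0)]⟩),(⟨0,[(23,0)]⟩,⟨0,[(24,0)]⟩),⟨0,[(20,0)]⟩,.k,.k,.k,.k,(.r 0 ⟨1,[(14,1),(30,
  0),(0,0)]⟩ ⟨5,[(3,1),(7,5),(1,3),(7,2),(0,2),(5,5),(4,0),(11,0),(0,0)]⟩),.k,⟨false,0,⟨1,[(14,1),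
  (30,0),(0,0)]⟩,⟨1,[(11,1),(1,1),(14,1),(16,0),(0,0)]⟩⟩,⟨true,0,⟨0,[(2,0),(8,0),(4,0)]⟩,⟨1,[(0,1),
  (2,0),(3,0),(0,0),(0,0),(18,0),(10,0)]⟩⟩,⟨false,1,⟨13,[(1,5),(5,1),(4,1),(8,5),(11,0),(12,6)]⟩,⟨0,
  [(44,0)]⟩⟩,⟨false,1,⟨0,[(2,0),(8,0)]⟩,⟨1,[(0,0),(2,0),(4,0),(7,0),(5,0)]⟩⟩,⟨true,0,⟨0,[]⟩,⟨0,[(48,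
  0)]⟩⟩,⟨false,1,⟨0,[(2,0),(8,0),(32,0)]⟩,⟨3,[(0,2),(2,0),(4,0),(3,1),(3,0),(5,0)]⟩⟩,[.o ⟨false,1,
  ⟨2,[(2,0),(18,1),(26,0)]⟩,⟨0,[(0,0)]⟩⟩,.o ⟨false,1,⟨0,[(2,0)]⟩,⟨0,[(1,0),(11,0)]⟩⟩,.o ⟨false,1,⟨1,
  [(28,1),(4,0),(11,0)]⟩,⟨11,[(5,1),(3,2),(4,1),(10,9),(7,4),(4,3)]⟩⟩,.a ⟨true,0,⟨0,[(28,0)]⟩,⟨0,
  [(25,0)]⟩⟩ ⟨true,0,⟨1,[(14,1),(30,0),(0,0)]⟩,⟨0,[(11,0),(1,0),(14,0)]⟩⟩ ⟨false,1,⟨0,[(2,0),(22,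
  0)]⟩,⟨0,[(0,0),(27,0)]⟩⟩]⟩))) (.Q [0,0,0,0,0,-1,0,0,0,0,0,1] (.ed false [1,-1,0,0,1] .k) (.Q [0,0,
  1,0,-1,0,0,0,1,0,0,1] (.p true [0,0,0,0,1] [] (⟨0,[(23,0)]⟩,⟨0,[(22,0)]⟩) .k 0 (⟨0,[]⟩,⟨0,[]⟩) .k
  .k) (.S ⟨1,0,[1,1],[0,0,0,0,1],[],(⟨0,[(24,0)]⟩,⟨0,[(23,0)]⟩),⟨0,[(1,0)]⟩,.k,(.r (-1) ⟨11,[(7,3),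
  (0,3),(9,1),(2,2),(0,2),(10,0),(11,3)]⟩ ⟨7,[(3,1),(5,2),(11,2),(0,2),(25,1)]⟩),⟨false,1,⟨1,[(21,
  0),(0,0),(14,0)]⟩,⟨0,[]⟩⟩,⟨true,0,⟨0,[(48,0)]⟩,⟨0,[]⟩⟩,⟨true,0,⟨0,[(3,0),(35,0)]⟩,⟨0,[(43,0)]⟩⟩,
  ⟨false,0,⟨0,[(44,0)]⟩,⟨5,[(7,1),(0,1),(12,0),(0,0),(6,1),(16,2)]⟩⟩,[.e ⟨false,1,⟨1,[(21,0),(0,0),
  (22,0)]⟩,⟨0,[]⟩⟩ ⟨false,0,⟨0,[(39,0)]⟩,⟨1,[(21,0),(0,0),(23,0)]⟩⟩,.o ⟨false,0,⟨1,[(2,1),(30,0),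
  (12,0)]⟩,⟨3,[(4,1),(16,1),(18,0),(4,0)]⟩⟩,.o ⟨false,0,⟨5,[(2,5),(30,1),(6,0),(5,2)]⟩,⟨0,[(21,
  0)]⟩⟩,.a ⟨true,(-1),⟨0,[(0,0)]⟩,⟨0,[(4,0),(40,0)]⟩⟩ ⟨false,1,⟨1,[(45,0),(0,0)]⟩,⟨1,[(28,0),(0,
  0)]⟩⟩ ⟨true,0,⟨0,[(39,0)]⟩,⟨1,[(28,0),(0,0)]⟩⟩]⟩) (.R ⟨2,true,false,true,[0,1],[0,0,0,0,1],[1,1,
  1],(⟨0,[]⟩,⟨0,[]⟩),(⟨0,[(24,0)]⟩,⟨0,[(23,0)]⟩),⟨0,[]⟩,.k,.k,.k,(.r 0 ⟨7,[(3,1),(5,2),(11,2),(0,2),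
  (25,1)]⟩ ⟨11,[(7,3),(0,3),(9,1),(2,2),(0,2),(10,0),(11,3)]⟩),.k,.k,⟨true,0,⟨1,[(28,0),(0,0)]⟩,⟨0,
  []⟩⟩,⟨false,0,⟨0,[(22,0)]⟩,⟨0,[(0,0)]⟩⟩,⟨true,0,⟨0,[(43,0)]⟩,⟨0,[(44,0)]⟩⟩,⟨false,0,⟨7,[(2,1),(4,
  1),(4,1),(9,5),(10,0),(12,0)]⟩,⟨0,[(0,0),(2,0)]⟩⟩,⟨false,0,⟨0,[]⟩,⟨1,[(21,0),(0,0),(23,0)]⟩⟩,
  ⟨true,(-1),⟨0,[(2,0)]⟩,⟨8,[(0,1),(3,1),(16,4),(15,0),(2,0),(7,1)]⟩⟩,[]⟩)) (.Q [1,1,0,0,-1,0,-1,-1,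
  1,0,-1,1] (.p false [0,0,1] [0,0,0,0,1] (⟨0,[(30,0)]⟩,⟨0,[(29,0)]⟩) .k 2 (⟨0,[(23,0)]⟩,⟨0,[(22,
  0)]⟩) .k (.r 0 ⟨1,[(15,0),(0,0),(19,0)]⟩ ⟨1,[(10,1),(16,1),(4,0),(11,0)]⟩)) (.R ⟨0,false,false,
  false,[0,0,0,0,1],[0,1],[1,1,1],(⟨0,[(24,0)]⟩,⟨0,[(23,0)]⟩),(⟨0,[(35,0)]⟩,⟨0,[(34,0)]⟩),⟨0,[(1,
  0)]⟩,.k,.k,(.r (-1) ⟨11,[(7,3),(0,3),(9,1),(2,2),(0,2),(10,0),(11,3)]⟩ ⟨7,[(3,1),(5,2),(11,2),(0,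
  2),(25,1)]⟩),(.r (-1) ⟨11,[(7,3),(0,3),(9,1),(2,2),(0,2),(10,0),(11,3)]⟩ ⟨7,[(3,1),(5,2),(11,2),
  (0,2),(25,1)]⟩),.k,.k,⟨true,0,⟨0,[(43,0)]⟩,⟨0,[(3,0)]⟩⟩,⟨false,2,⟨0,[(21,0),(23,0)]⟩,⟨3,[(0,0),(1,
  2),(0,1),(8,0),(25,1)]⟩⟩,⟨false,0,⟨1,[(28,0),(0,0)]⟩,⟨1,[(45,0),(0,0)]⟩⟩,⟨true,1,⟨0,[(21,0),(22,
  0)]⟩,⟨1,[(0,0),(1,0),(9,0)]⟩⟩,⟨false,0,⟨0,[]⟩,⟨0,[]⟩⟩,⟨false,0,⟨0,[]⟩,⟨0,[]⟩⟩,[.a ⟨true,0,⟨0,[(44,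
  0)]⟩,⟨3,[(7,0),(4,0),(10,2),(0,2)]⟩⟩ ⟨false,0,⟨0,[(48,0)]⟩,⟨1,[(45,0),(0,0)]⟩⟩ ⟨true,1,⟨0,[(21,0),
  (22,0)]⟩,⟨3,[(0,2),(1,0),(0,1),(8,2),(25,1)]⟩⟩,.o ⟨false,1,⟨0,[(13,0),(32,0)]⟩,⟨0,[(43,0)]⟩⟩,.o
  ⟨false,0,⟨5,[(2,5),(30,1),(6,0),(5,2)]⟩,⟨0,[(21,0)]⟩⟩,.e ⟨false,0,⟨0,[]⟩,⟨1,[(21,0),(0,0),(23,
  0)]⟩⟩ ⟨false,2,⟨0,[(3,0),(17,0),(23,0)]⟩,⟨3,[(0,2),(1,0),(0,1),(8,2),(25,1)]⟩⟩]⟩) (.S ⟨1,0,[-1,1],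
  [1,0,0,0,-1],[-1],(⟨0,[(23,0)]⟩,⟨0,[(24,0)]⟩),⟨1,[(1,0),(4,0),(13,0),(2,0)]⟩,.k,(.r (-1) ⟨45,[(7,
  11),(0,11),(9,5),(2,8),(0,8),(14,4),(2,2),(2,9),(1,16)]⟩ ⟨1,[(9,0),(11,0),(0,0)]⟩),⟨false,1,⟨1,
  [(21,0),(0,0),(23,0)]⟩,⟨0,[]⟩⟩,⟨true,0,⟨0,[(48,0)]⟩,⟨0,[]⟩⟩,⟨true,0,⟨0,[(44,0)]⟩,⟨0,[(43,0)]⟩⟩,
  ⟨false,0,⟨0,[(44,0)]⟩,⟨5,[(7,1),(0,1),(12,0),(0,0),(6,1),(16,2)]⟩⟩,[.a ⟨true,0,⟨0,[(0,0),(6,0),(1,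
  0),(29,1)]⟩,⟨0,[(2,0),(43,0)]⟩⟩ ⟨false,1,⟨11,[(21,4),(0,4),(14,0),(7,5),(2,1)]⟩,⟨0,[]⟩⟩ ⟨true,0,
  ⟨0,[(48,0)]⟩,⟨0,[(38,0)]⟩⟩,.o ⟨false,1,⟨3,[(4,1),(16,1),(18,0),(4,0)]⟩,⟨1,[(2,1),(30,0),(12,0)]⟩⟩,
  .o ⟨false,1,⟨0,[(21,0)]⟩,⟨5,[(2,5),(30,1),(6,0),(5,2)]⟩⟩,.e ⟨false,1,⟨1,[(37,0),(7,0)]⟩,⟨1,[(28,
  0),(0,0)]⟩⟩ ⟨false,1,⟨11,[(21,4),(0,4),(14,0),(7,5),(2,1)]⟩,⟨0,[(38,0)]⟩⟩]⟩)))))))) (.R ⟨1,true,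
  false,false,[1,0,-1],[0,1],[0,1,0,0,0,0,0,-1],(⟨0,[(23,0)]⟩,⟨0,[(24,0)]⟩),(⟨0,[(28,0)]⟩,⟨0,[(27,
  0)]⟩),⟨0,[(12,0)]⟩,.k,.k,.k,.k,(.r (-2) ⟨1,[(1,1),(1,1),(0,1),(21,0),(11,0)]⟩ ⟨1,[(2,1),(6,0),(0,
  0),(28,0)]⟩),.k,⟨true,1,⟨0,[(1,0),(2,0),(15,0)]⟩,⟨1,[(2,0),(6,1),(21,1),(7,0)]⟩⟩,⟨false,2,⟨1,[(21,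
  1),(4,0),(11,2)]⟩,⟨1,[(2,0),(0,0),(3,0),(10,0),(12,0)]⟩⟩,⟨true,0,⟨0,[(41,0)]⟩,⟨0,[]⟩⟩,⟨false,1,⟨3,
  [(0,1),(18,1),(6,0),(12,2)]⟩,⟨0,[(3,0)]⟩⟩,⟨false,0,⟨0,[(37,0)]⟩,⟨0,[(36,0),(2,0)]⟩⟩,⟨true,0,⟨0,
  [(0,0)]⟩,⟨0,[(3,0),(32,0)]⟩⟩,[]⟩))

theorem ok23 : chk K t23 r16 = true := by decide +kernel

noncomputable def t25 : Tre :=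
  (.S ⟨1,0,[0,0,-1,-1],[1,-1],[1,1,-1,-2],(⟨0,[(25,0)]⟩,⟨0,[(26,0)]⟩),⟨0,[(10,0),(0,0)]⟩,.k,(.r
  (-1) ⟨0,[(0,0)]⟩ ⟨0,[(19,0),(0,0),(14,1)]⟩),⟨true,0,⟨0,[(34,0)]⟩,⟨0,[(35,0)]⟩⟩,⟨false,1,⟨1,[(12,
  0),(0,0),(23,0)]⟩,⟨0,[]⟩⟩,⟨false,0,⟨0,[]⟩,⟨1,[(12,0),(0,0),(23,0)]⟩⟩,⟨true,0,⟨0,[(35,0)]⟩,⟨0,[(34,
  0)]⟩⟩,[.e ⟨false,1,⟨5,[(0,4),(11,0),(0,0),(18,1),(1,1)]⟩,⟨0,[(29,0),(5,1)]⟩⟩ ⟨false,1,⟨1,[(0,0),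
  (35,0)]⟩,⟨1,[(19,0),(0,0),(14,1)]⟩⟩,.o ⟨false,1,⟨0,[(34,0),(2,0)]⟩,⟨0,[(4,0)]⟩⟩,.o ⟨false,0,⟨1,
  [(19,0),(0,0)]⟩,⟨1,[(24,0),(11,0)]⟩⟩,.a ⟨true,(-1),⟨0,[(2,0),(4,0),(11,0),(9,0)]⟩,⟨0,[(36,0)]⟩⟩
  ⟨false,1,⟨0,[(0,0)]⟩,⟨1,[(19,0),(0,0),(8,1),(5,3)]⟩⟩ ⟨true,1,⟨1,[(0,0),(35,0)]⟩,⟨0,[(2,0),(1,0),
  (2,0),(11,0),(9,0)]⟩⟩]⟩)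

theorem ok25 : chk K t25 r15 = true := by decide +kernel

noncomputable def t27 : Tre :=
  (.R ⟨2,true,false,false,[0,1],[1,0,-1],[0,1,1,1],(⟨0,[]⟩,⟨0,[]⟩),(⟨0,[(20,0)]⟩,⟨0,[(21,0)]⟩),⟨0,
  []⟩,.k,.k,.k,.k,.k,.k,⟨false,(-1),⟨0,[(6,0),(27,0)]⟩,⟨0,[(5,0),(12,0),(16,0),(0,0)]⟩⟩,⟨true,(-1),
  ⟨0,[(1,0),(4,0),(21,0)]⟩,⟨1,[(18,1),(4,0),(11,0)]⟩⟩,⟨true,0,⟨0,[(38,0)]⟩,⟨0,[]⟩⟩,⟨false,1,⟨0,[(1,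
  0),(31,0),(2,0)]⟩,⟨0,[(0,0)]⟩⟩,⟨false,0,⟨0,[(34,0)]⟩,⟨0,[(33,0),(2,0)]⟩⟩,⟨true,0,⟨0,[(1,0)]⟩,⟨3,
  [(0,0),(1,1),(0,2),(12,0)]⟩⟩,[]⟩)

theorem ok27 : chk K t27 r14 = true := by decide +kernel

noncomputable def t29 : Tre :=
  (.S ⟨1,0,[0,0,0,0,0,0,0,1],[0,0,1],[1,1,0,-1,0,0,0,1],(⟨0,[(20,0)]⟩,⟨0,[(19,0)]⟩),⟨0,[(9,0)]⟩,.k,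
  .k,⟨true,0,⟨0,[(32,0)]⟩,⟨0,[(33,0)]⟩⟩,⟨false,1,⟨1,[(10,0),(0,0),(23,0)]⟩,⟨0,[]⟩⟩,⟨false,0,⟨0,[]⟩,
  ⟨1,[(10,0),(0,0),(23,0)]⟩⟩,⟨true,0,⟨0,[(33,0)]⟩,⟨0,[(32,0)]⟩⟩,[.o ⟨false,0,⟨0,[(0,0)]⟩,⟨1,[(10,0),
  (0,0),(4,1),(18,0)]⟩⟩,.o ⟨false,1,⟨3,[(0,1),(14,1),(6,0),(12,2)]⟩,⟨0,[(16,0)]⟩⟩,.o ⟨false,1,⟨1,
  [(17,1),(4,0),(11,0)]⟩,⟨2,[(5,0),(8,1),(1,0),(5,0),(4,1)]⟩⟩,.a ⟨true,0,⟨0,[(17,0)]⟩,⟨0,[(14,0)]⟩⟩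
  ⟨false,0,⟨1,[(3,1),(30,0),(0,0)]⟩,⟨0,[(16,0),(0,0),(15,0),(1,0)]⟩⟩ ⟨true,0,⟨1,[(5,1),(28,0),(0,
  0)]⟩,⟨0,[(16,0),(0,0)]⟩⟩]⟩)

theorem ok29 : chk K t29 r13 = true := by decide +kernel


end Helper48.Y.Y11_c35_P4_m1n1_CB
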