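import Pool.Agent.Helper25.KG.S1b
import Pool.Agent.Helper11.CT.Clo

set_option autoImplicit false
set_option linter.all false

namespace Helper48.Y.Y11_c2_L2_m1n0

open Helper25.KG Helper25.KW Helper55.KE Helper11.CT

noncomputable def K : Cls :=
  cE 1 [1] (kfY 1 [0,0,0,0,0,0,1,0,0,0,1])

noncomputable def base : List Con :=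
  [(false,[0,0,0,0,0,0,-2,0,0,1,-2]),
  (false,[0,0,0,0,0,1,0,0,0,-1,1]),
  (false,[0,0,0,0,0,-1,0,0,0,0,1]),
  (false,[0,0,0,0,1,0,0,0,-1,0,0,-1]),
  (false,[0,0,0,0,0,0,0,0,1,0,0,1]),
  (false,[0,0,0,0,0,0,0,0,0,1,0,-1]),
  (false,[0,0,0,0,0,0,0,0,0,0,0,1]),
  (false,[0,0,-1,0,0,0,-1,0,0,1,-1]),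
  (false,[0,1,0,0,0,0,1,1,0,0,1]),
  (false,[0,1,0,0,0,0,-1,-1,0,0,-1]),
  (false,[0,0,1,0,0,0,1,0,0,0,1]),
  (false,[0,0,1,0,0,0,-1,0,0,0,-1]),
  (false,[0,0,0,0,0,0,0,0,0,1,-1]),
  (false,[0,0,0,0,0,0,0,0,0,0,1]),
  (true,[2,0,0,0,0,-1]),
  (false,[0,0,0,0,1,0,0,0,0,-2]),
  (false,[0,0,0,0,0,-1,0,0,0,1]),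
  (true,[0,0,0,0,0,1]),
  (true,[0,2,-1]),
  (false,[1,0,0,0,-1,0,0,0,0,2]),
  (true,[1,-1,1,1]),
  (true,[0,1,-1]),
  (true,[0,1,0,-1]),
  (true,[0,0,0,1]),
  (true,[0,0,-2,0,1]),
  (true,[0,-2,0,0,1]),
  (true,[-1,0,1]),
  (true,[-1,1])]

noncomputable def l0 : List Con := (true, [1,0,2,1,-1]) :: base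

noncomputable def r0 : List Con := (true, [0,0,-2,-1,1]) :: base

noncomputable def t0 : Tre :=
  (.I [0,-1,0,2] (.S ⟨1,3,[],[1,-1],[0,0,-1,-1],(⟨0,[(18,0)]⟩,⟨0,[(19,0)]⟩),⟨3,[(16,5),(1,1),(2,0),
  (1,1),(3,0),(0,1)]⟩,.k,(.r (-2) ⟨0,[(24,1),(1,0),(0,0)]⟩ ⟨1,[(0,0),(0,1),(27,0)]⟩),⟨false,1,⟨1,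
  [(5,0),(0,0),(20,0)]⟩,⟨0,[]⟩⟩,⟨true,0,⟨0,[(25,0)]⟩,⟨0,[(24,0)]⟩⟩,⟨true,0,⟨0,[(25,0)]⟩,⟨0,[(24,
  0)]⟩⟩,⟨false,0,⟨0,[(0,0)]⟩,⟨0,[(24,1),(2,0)]⟩⟩,[.fa ⟨true,1,⟨1,[(24,1),(1,0),(0,0)]⟩,⟨0,[(1,0)]⟩⟩
  ⟨false,1,⟨0,[(26,0)]⟩,⟨1,[(12,0),(0,0)]⟩⟩,.a ⟨true,0,⟨1,[(21,0),(5,0)]⟩,⟨0,[(29,0)]⟩⟩ ⟨false,2,⟨0,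
  [(24,0),(1,0),(0,0)]⟩,⟨0,[(1,0),(21,0)]⟩⟩ ⟨true,1,⟨1,[(26,0),(0,0)]⟩,⟨0,[(1,0),(22,0)]⟩⟩,.o
  ⟨false,0,⟨1,[(12,0),(0,0)]⟩,⟨1,[(17,0),(8,0)]⟩⟩,.a ⟨true,(-1),⟨1,[(1,1),(19,0),(2,1),(2,0)]⟩,⟨0,
  [(26,0)]⟩⟩ ⟨false,2,⟨0,[(24,0),(1,0),(0,0)]⟩,⟨0,[(1,0)]⟩⟩ ⟨true,1,⟨0,[(26,0)]⟩,⟨0,[(1,0),(22,
  0)]⟩⟩]⟩) (.Q [0,0,0,3,0,0,0,0,0,-1] (.pp true [-1,1]) (.R ⟨1,true,false,false,[1,-1],[0,1],[0,1,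
  -1,-1],(⟨0,[(19,0)]⟩,⟨0,[(20,0)]⟩),(⟨0,[(20,0)]⟩,⟨0,[(19,0)]⟩),⟨3,[(17,5),(1,1),(2,0),(1,1),(3,0),
  (0,1)]⟩,.k,.k,(.r (-2) ⟨1,[(1,1),(4,0),(0,0),(19,1),(0,0)]⟩ ⟨28,[(0,10),(1,24),(0,2),(9,5),(8,3),
  (6,1)]⟩),(.r (-2) ⟨1,[(1,1),(4,0),(0,0),(19,1),(0,0)]⟩ ⟨28,[(0,10),(1,24),(0,2),(9,5),(8,3),(6,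
  1)]⟩),(.x 1 ⟨5,[(1,3),(0,7),(10,0),(0,0),(5,17),(7,1)]⟩ ⟨5,[(17,13),(0,1),(0,3),(7,8),(0,0),(1,
  1)]⟩),.k,⟨true,1,⟨0,[(1,0),(25,0)]⟩,⟨0,[(2,0),(20,0)]⟩⟩,⟨false,2,⟨1,[(18,0),(8,2)]⟩,⟨11,[(1,3),(0,
  7),(10,2),(0,2),(7,5),(5,1),(0,1)]⟩⟩,⟨true,0,⟨0,[(30,0)]⟩,⟨0,[]⟩⟩,⟨false,1,⟨5,[(0,3),(5,1),(0,1),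
  (10,0),(9,2)]⟩,⟨1,[(1,1),(20,0),(5,0)]⟩⟩,⟨false,0,⟨0,[(26,0)]⟩,⟨3,[(1,1),(4,0),(0,0),(20,2)]⟩⟩,
  ⟨true,0,⟨0,[(0,0)]⟩,⟨9,[(1,13),(4,1),(0,1),(14,4),(2,1),(2,2)]⟩⟩,[]⟩) (.Q [0,0,0,0,0,0,-1,-1,0,0,
  -1] (.p false [0,0,1] [] (⟨0,[(16,0)]⟩,⟨0,[(15,0)]⟩) .k 0 (⟨0,[]⟩,⟨0,[]⟩) .k .k) (.I [1,-1,1,0,0,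
  0,0,1] (.Q [0,1,0,1,0,0,1,1,0,-1,1] (.p true [0,0,1] [1] (⟨0,[(18,0)]⟩,⟨0,[(17,0)]⟩) .k 1 (⟨0,[]⟩,
  ⟨0,[]⟩) .k .k) (.Q [0,0,1,0,-1,0,-1,0,0,1,-1] (.p false [0,0,1] [1] (⟨0,[(19,0)]⟩,⟨0,[(18,0)]⟩)
  .k 1 (⟨0,[]⟩,⟨0,[]⟩) .k .k) (.R ⟨2,true,false,false,[0,1],[1,0,-1],[0,1],(⟨0,[]⟩,⟨0,[]⟩),(⟨0,[(19,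
  0)]⟩,⟨0,[(20,0)]⟩),⟨0,[]⟩,.k,.k,.k,.k,.k,.k,⟨false,0,⟨0,[(2,0),(25,1)]⟩,⟨1,[(3,1),(13,1),(13,0),
  (0,0)]⟩⟩,⟨true,(-1),⟨0,[(0,0)]⟩,⟨1,[(17,1),(4,0),(8,0)]⟩⟩,⟨false,1,⟨5,[(4,1),(5,1),(0,1),(10,0),
  (8,2)]⟩,⟨0,[(27,0)]⟩⟩,⟨true,0,⟨2,[(3,0),(0,0),(11,1),(9,0),(5,0)]⟩,⟨0,[(1,0)]⟩⟩,⟨true,0,⟨0,[(28,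
  0)]⟩,⟨1,[(17,0),(0,0)]⟩⟩,⟨false,0,⟨1,[(3,1),(22,0),(5,0)]⟩,⟨1,[(15,1),(6,0),(9,0)]⟩⟩,[]⟩) (.R ⟨2,
  true,false,true,[0,1],[1,1,-1],[0,1,1,1],(⟨0,[]⟩,⟨0,[]⟩),(⟨0,[(19,0),(4,0)]⟩,⟨0,[(9,0)]⟩),⟨0,[]⟩,
  .k,.k,.k,.k,.k,.k,⟨true,0,⟨0,[(2,0),(25,0)]⟩,⟨0,[(3,0),(13,0)]⟩⟩,⟨false,0,⟨0,[(14,0)]⟩,⟨3,[(0,1),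
  (9,0),(0,0),(5,1),(4,0)]⟩⟩,⟨true,0,⟨0,[(34,0)]⟩,⟨0,[]⟩⟩,⟨false,0,⟨1,[(16,1),(9,0),(5,0)]⟩,⟨0,[(0,
  0),(1,0)]⟩⟩,⟨false,0,⟨0,[(30,0)]⟩,⟨5,[(4,1),(5,1),(0,1),(10,0),(9,2)]⟩⟩,⟨true,(-1),⟨1,[(3,1),(2,
  0),(19,0),(1,1),(1,0)]⟩,⟨5,[(0,1),(1,1),(1,1),(10,3),(6,2),(9,0)]⟩⟩,[]⟩)) (.R ⟨0,false,false,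
  false,[-1,1,1],[0,0,1],[0,1],(⟨0,[(7,0)]⟩,⟨0,[(18,0),(3,0)]⟩),(⟨0,[(19,0)]⟩,⟨0,[(18,0)]⟩),⟨0,[(18,
  0)]⟩,.k,.k,.k,.k,.k,.k,⟨true,0,⟨0,[(2,0),(13,0),(10,0)]⟩,⟨0,[(1,0)]⟩⟩,⟨false,0,⟨9,[(9,3),(0,3),
  (14,4),(5,0),(1,1)]⟩,⟨1,[(21,0),(8,0)]⟩⟩,⟨false,1,⟨1,[(0,1),(15,1),(4,0),(5,1),(2,0)]⟩,⟨0,[(1,0),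
  (27,0)]⟩⟩,⟨true,0,⟨14,[(3,4),(5,3),(0,3),(14,4),(5,0),(1,1)]⟩,⟨1,[(5,0),(15,0),(5,1),(1,0)]⟩⟩,
  ⟨false,0,⟨0,[]⟩,⟨0,[]⟩⟩,⟨false,0,⟨0,[]⟩,⟨0,[]⟩⟩,[.o ⟨false,1,⟨1,[(14,1),(6,0),(9,0)]⟩,⟨0,[(2,
  0)]⟩⟩,.e ⟨false,1,⟨1,[(9,0),(0,0),(19,0)]⟩,⟨0,[]⟩⟩ ⟨false,0,⟨1,[(1,1),(23,0),(4,0)]⟩,⟨1,[(2,1),
  (13,1),(4,0),(5,1),(2,0)]⟩⟩,.o ⟨false,2,⟨0,[(16,0),(4,0),(8,0)]⟩,⟨0,[(0,0),(0,0),(3,0),(21,1)]⟩⟩,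
  .a ⟨true,1,⟨1,[(16,1),(4,0),(8,0)]⟩,⟨1,[(0,0),(0,0),(3,0),(7,0),(11,0),(1,1)]⟩⟩ ⟨true,0,⟨0,[(27,
  0)]⟩,⟨1,[(16,0),(0,0)]⟩⟩ ⟨false,0,⟨1,[(1,1),(23,0),(4,0)]⟩,⟨1,[(2,1),(13,1),(4,0),(8,0)]⟩⟩]⟩))
  (.Q [0,0,1,0,0,0,2,0,0,-1,2] (.p true [0,0,1] [1,0,-1] (⟨0,[(18,0)]⟩,⟨0,[(17,0)]⟩) .k 2 (⟨0,[(17,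
  0)]⟩,⟨0,[(18,0)]⟩) .k (.i 0 ⟨0,[(6,0),(0,0)]⟩ ⟨0,[(17,1)]⟩)) (.K ⟨0,[1,1,-1],0,(-1),(⟨0,[(18,0),
  (4,0)]⟩,⟨0,[(8,0)]⟩),.k,.k,(.r 1 ⟨0,[(1,0),(3,0),(20,0)]⟩ ⟨5,[(3,3),(2,1),(6,1),(0,5),(6,3),(8,4),
  (0,2)]⟩),(.x 0 ⟨13,[(3,4),(1,14),(1,18),(0,8),(4,27),(6,23),(0,6),(5,15),(3,7)]⟩ ⟨3,[(0,1),(15,3),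
  (1,7),(2,2),(1,3),(6,0)]⟩),.k,[⟨0,[(0,0)]⟩,⟨19,[(6,9),(2,3),(0,3),(14,4),(5,0),(1,1)]⟩,⟨2,[(3,0),
  (5,0),(0,0),(3,2),(6,1)]⟩,⟨0,[(1,0),(3,0),(7,0)]⟩]⟩) (.Q [0,0,1,-1,-1,0,-1,0,0,1,-1] (.p false [0,
  0,1] [1] (⟨0,[(19,0)]⟩,⟨0,[(18,0)]⟩) .k 1 (⟨0,[]⟩,⟨0,[]⟩) .k .k) (.R ⟨0,false,false,true,[1,0,-1],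
  [0,1],[1,0,1],(⟨0,[(19,0)]⟩,⟨0,[(20,0)]⟩),(⟨0,[(24,0)]⟩,⟨0,[(23,0)]⟩),⟨0,[(8,0)]⟩,.k,.k,.k,.k,.k,
  .k,⟨true,1,⟨5,[(4,1),(5,1),(0,1),(10,0),(9,2)]⟩,⟨0,[(6,0),(21,0)]⟩⟩,⟨false,2,⟨1,[(17,1),(4,0),(8,
  2)]⟩,⟨7,[(0,3),(0,1),(4,2),(19,0),(3,0)]⟩⟩,⟨true,0,⟨4,[(0,2),(0,0),(13,4),(6,1),(4,2),(4,0)]⟩,⟨0,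
  [(2,0)]⟩⟩,⟨false,1,⟨1,[(15,1),(6,0),(7,1),(1,0)]⟩,⟨0,[(0,0),(1,0),(29,0)]⟩⟩,⟨false,0,⟨0,[]⟩,⟨0,
  []⟩⟩,⟨false,0,⟨0,[]⟩,⟨0,[]⟩⟩,[.o ⟨false,0,⟨1,[(6,0),(15,0),(5,1),(1,0)]⟩,⟨5,[(4,1),(5,1),(0,1),
  (10,0),(9,2)]⟩⟩,.a ⟨true,0,⟨0,[(30,0)]⟩,⟨14,[(4,4),(5,3),(0,3),(14,4),(5,0),(1,1)]⟩⟩ ⟨false,1,⟨1,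
  [(10,0),(0,0),(20,0)]⟩,⟨0,[(28,0)]⟩⟩ ⟨true,1,⟨1,[(17,1),(4,0),(7,1),(0,0)]⟩,⟨0,[(0,0)]⟩⟩,.o
  ⟨false,0,⟨6,[(0,0),(0,2),(4,0),(15,1)]⟩,⟨1,[(17,1),(4,0),(8,0)]⟩⟩,.e ⟨true,0,⟨0,[]⟩,⟨0,[(34,0)]⟩⟩
  ⟨true,1,⟨1,[(2,0),(12,0),(1,0),(4,0),(7,1),(0,0)]⟩,⟨0,[(0,0)]⟩⟩]⟩) (.Q [0,0,0,1,-1,0,-1,-1,0,1,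
  -1] (.p false [0,0,1] [1] (⟨0,[(20,0)]⟩,⟨0,[(19,0)]⟩) .k 1 (⟨0,[]⟩,⟨0,[]⟩) .k .k) (.I [1,0,-1,-1,
  1,0,0,1] (.R ⟨2,true,false,false,[0,1],[1,1,-1],[0,1,1,1],(⟨0,[]⟩,⟨0,[]⟩),(⟨0,[(21,0),(4,0)]⟩,⟨0,
  [(11,0)]⟩),⟨0,[]⟩,.k,.k,.k,.k,.k,.k,⟨true,0,⟨0,[(0,0),(7,0),(21,0)]⟩,⟨1,[(1,1),(0,1),(3,1),(1,1),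
  (15,0),(9,0)]⟩⟩,⟨false,0,⟨0,[(16,0)]⟩,⟨5,[(2,2),(3,0),(5,0),(0,0),(5,2),(4,1)]⟩⟩,⟨true,0,⟨0,[(36,
  0)]⟩,⟨0,[]⟩⟩,⟨false,0,⟨9,[(1,5),(4,1),(11,3),(9,0),(5,6)]⟩,⟨1,[(17,1),(6,0),(9,0)]⟩⟩,⟨false,0,⟨0,
  [(32,0)]⟩,⟨5,[(6,1),(5,1),(0,1),(10,0),(9,2)]⟩⟩,⟨true,(-1),⟨0,[(1,0)]⟩,⟨1,[(0,0),(16,0),(1,0),(4,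
  0),(6,0)]⟩⟩,[]⟩) (.R ⟨1,false,false,false,[0,-1,1],[1,-1],[0,1],(⟨0,[(11,0)]⟩,⟨0,[(21,0),(4,0)]⟩),
  (⟨0,[(25,0)]⟩,⟨0,[(26,0)]⟩),⟨6,[(6,0),(1,2),(1,0),(0,5),(11,8),(6,5),(3,2)]⟩,.k,.k,(.r (-2) ⟨11,
  [(3,1),(2,7),(2,3),(7,11),(6,6),(8,10),(0,5)]⟩ ⟨2,[(0,0),(0,0),(0,0),(5,1),(9,0),(0,0),(9,0)]⟩),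
  .k,.k,.k,⟨true,(-1),⟨0,[(8,0),(21,0)]⟩,⟨5,[(6,1),(5,1),(0,1),(10,0),(9,2)]⟩⟩,⟨false,0,⟨0,[(16,
  0)]⟩,⟨5,[(2,2),(3,0),(5,0),(0,0),(5,2),(4,1)]⟩⟩,⟨false,(-1),⟨0,[(0,0)]⟩,⟨11,[(6,3),(2,5),(2,0),(0,
  0),(3,11),(6,4),(8,5),(0,11)]⟩⟩,⟨false,0,⟨9,[(1,5),(4,1),(11,3),(9,0),(5,6)]⟩,⟨1,[(17,1),(6,0),(9,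
  0)]⟩⟩,⟨false,(-1),⟨1,[(0,0),(0,0),(0,0),(5,0)]⟩,⟨11,[(3,1),(2,7),(2,3),(7,11),(6,6),(8,4),(0,
  11)]⟩⟩,⟨true,(-1),⟨0,[(1,0)]⟩,⟨2,[(6,0),(5,0),(0,0),(3,2),(6,1)]⟩⟩,[.e ⟨false,0,⟨0,[(30,0)]⟩,⟨1,
  [(12,0),(0,0),(20,0)]⟩⟩ ⟨false,1,⟨11,[(6,3),(2,5),(2,0),(0,0),(14,0),(4,11)]⟩,⟨1,[(0,1),(16,1),(6,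
  0),(9,0)]⟩⟩,.o ⟨false,1,⟨5,[(6,1),(5,1),(0,1),(10,0),(9,2)]⟩,⟨1,[(8,0),(15,0),(5,1),(1,0)]⟩⟩,.a
  ⟨true,0,⟨0,[(19,0)]⟩,⟨0,[(16,0)]⟩⟩ ⟨true,0,⟨0,[(36,0)]⟩,⟨0,[]⟩⟩ ⟨false,1,⟨11,[(6,3),(2,5),(2,0),
  (0,0),(14,0),(4,5),(0,5)]⟩,⟨1,[(0,1),(16,1),(6,0),(9,0)]⟩⟩,.o ⟨false,0,⟨7,[(0,1),(5,1),(1,3),(8,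
  1),(1,5),(4,4),(9,0)]⟩,⟨3,[(3,1),(20,0),(8,2)]⟩⟩]⟩)) (.Q [0,0,0,2,-1,0,-1,-1,0,1,-1] (.p false [0,
  0,1] [1] (⟨0,[(21,0)]⟩,⟨0,[(20,0)]⟩) .k 1 (⟨0,[]⟩,⟨0,[]⟩) .k .k) (.I [1,-1,1,0,0,0,0,-1] (.S ⟨1,3,
  [],[0,-1,1],[0,1,-1,-1,0,0,0,1],(⟨0,[(12,0)]⟩,⟨0,[(22,0),(4,0)]⟩),⟨6,[(7,0),(1,2),(1,0),(0,5),(11,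
  8),(6,5),(3,2)]⟩,.k,(.r (-2) ⟨15,[(2,13),(4,5),(2,7),(2,0),(0,0),(3,1),(15,15),(0,0)]⟩ ⟨5,[(0,1),
  (0,1),(1,1),(1,0),(3,5),(9,0),(0,0)]⟩),⟨true,0,⟨0,[(37,0)]⟩,⟨0,[]⟩⟩,⟨false,0,⟨3,[(1,1),(17,1),(9,
  0),(5,2)]⟩,⟨0,[(2,0)]⟩⟩,⟨false,0,⟨0,[(33,0)]⟩,⟨7,[(2,1),(4,1),(5,0),(0,0),(4,1),(15,4)]⟩⟩,⟨true,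
  (-1),⟨0,[(1,0)]⟩,⟨0,[(2,0),(29,0)]⟩⟩,[.fa ⟨false,1,⟨0,[(2,0),(14,0),(13,0)]⟩,⟨9,[(0,6),(0,1),(1,
  1),(15,0),(0,0),(9,3)]⟩⟩ ⟨true,0,⟨0,[(17,0)]⟩,⟨1,[(0,0),(1,1),(2,0),(3,1)]⟩⟩,.a ⟨true,0,⟨1,[(29,
  0),(5,0)]⟩,⟨0,[(37,0)]⟩⟩ ⟨true,1,⟨0,[(2,0),(14,0)]⟩,⟨1,[(0,0),(4,0),(3,1)]⟩⟩ ⟨false,1,⟨1,[(17,1),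
  (16,0),(0,0)]⟩,⟨0,[(2,0),(2,0),(3,0)]⟩⟩,.a ⟨true,0,⟨0,[(20,0)]⟩,⟨0,[(17,0)]⟩⟩ ⟨false,1,⟨0,[(2,0),
  (14,0)]⟩,⟨9,[(0,6),(0,1),(1,1),(15,0),(0,0),(9,3)]⟩⟩ ⟨true,0,⟨0,[(17,0)]⟩,⟨0,[(2,0),(2,0),(3,
  0)]⟩⟩,.o ⟨false,0,⟨1,[(0,0),(1,1),(2,0),(3,1)]⟩,⟨3,[(4,1),(20,0),(8,2)]⟩⟩]⟩) (.R ⟨1,true,false,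
  false,[0,0,1],[0,1],[1,0,0,-1,0,0,0,1],(⟨0,[(23,0)]⟩,⟨0,[(22,0)]⟩),(⟨0,[(27,0)]⟩,⟨0,[(26,0)]⟩),⟨0,
  [(12,0)]⟩,.k,.k,.k,.k,(.r (-2) ⟨15,[(2,13),(4,5),(2,7),(2,0),(0,0),(3,1),(15,15),(0,0)]⟩ ⟨0,[(5,
  0),(3,0),(20,0)]⟩),.k,⟨true,1,⟨7,[(0,3),(1,3),(1,1),(2,3),(17,0),(8,0),(0,1)]⟩,⟨0,[(5,0),(3,0),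
  (20,0)]⟩⟩,⟨false,1,⟨3,[(4,1),(20,0),(8,2)]⟩,⟨0,[(20,0)]⟩⟩,⟨false,1,⟨7,[(2,1),(4,1),(5,0),(0,0),(4,
  1),(15,4)]⟩,⟨0,[(33,0)]⟩⟩,⟨true,0,⟨3,[(1,1),(17,1),(5,0),(9,0)]⟩,⟨0,[(0,0),(2,0),(3,0),(1,0)]⟩⟩,
  ⟨true,0,⟨0,[]⟩,⟨0,[(37,0)]⟩⟩,⟨false,0,⟨1,[(1,1),(23,0),(9,0)]⟩,⟨3,[(2,1),(4,1),(5,0),(0,0),(3,1),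
  (16,0)]⟩⟩,[]⟩)) (.Q [0,0,0,0,0,0,-1,0,0,0,-1] (.p false [0,0,1] [] (⟨0,[(22,0)]⟩,⟨0,[(21,0)]⟩) .k
  0 (⟨0,[]⟩,⟨0,[]⟩) .k .k) (.I [0,-1,-1,0,1,0,0,1] (.S ⟨1,0,[0,0,1,1,0,0,0,-1],[1,1,-1],[],(⟨0,[(23,
  0),(4,0)]⟩,⟨0,[(13,0)]⟩),⟨0,[(23,0)]⟩,.k,.k,⟨true,1,⟨5,[(0,3),(1,0),(0,0),(4,0),(2,0),(17,1)]⟩,⟨0,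
  [(6,0),(3,0)]⟩⟩,⟨false,1,⟨1,[(14,0),(0,0),(20,0)]⟩,⟨0,[]⟩⟩,⟨false,1,⟨0,[(0,0)]⟩,⟨0,[(7,0),(13,
  0)]⟩⟩,⟨true,0,⟨0,[(34,0)]⟩,⟨0,[(33,0)]⟩⟩,[.o ⟨false,0,⟨0,[(7,0),(26,0)]⟩,⟨0,[(3,0)]⟩⟩,.a ⟨true,0,
  ⟨3,[(6,1),(0,1),(10,1),(11,0),(0,3),(4,0)]⟩,⟨2,[(2,1),(7,0),(8,0),(10,0),(1,1)]⟩⟩ ⟨false,1,⟨1,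
  [(35,0),(0,0)]⟩,⟨0,[(38,0)]⟩⟩ ⟨true,0,⟨0,[(6,0),(3,0),(25,0)]⟩,⟨5,[(2,4),(2,2),(4,3),(8,0),(10,0),
  (1,4)]⟩⟩,.e ⟨false,1,⟨1,[(14,0),(0,0),(20,0)]⟩,⟨0,[]⟩⟩ ⟨false,0,⟨0,[(6,0),(3,0),(25,0)]⟩,⟨5,[(0,
  3),(1,0),(0,0),(4,0),(2,0),(17,1)]⟩⟩,.o ⟨false,0,⟨0,[(1,0)]⟩,⟨9,[(3,1),(0,4),(3,0),(11,1),(0,4),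
  (4,1),(9,0)]⟩⟩]⟩) (.Q [0,0,-1,0,1,0,1,0,0,-1,1] (.p true [0,0,1] [1] (⟨0,[(24,0)]⟩,⟨0,[(23,0)]⟩)
  .k 1 (⟨0,[]⟩,⟨0,[]⟩) .k .k) (.R ⟨0,false,false,true,[1,0,-1],[1,-1],[0,1,-1,-1],(⟨0,[(24,0)]⟩,⟨0,
  [(25,0)]⟩),(⟨0,[(28,0)]⟩,⟨0,[(29,0)]⟩),⟨0,[(13,0)]⟩,.k,.k,.k,.k,.k,.k,⟨false,1,⟨1,[(15,0),(0,0),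
  (19,0)]⟩,⟨0,[]⟩⟩,⟨true,0,⟨0,[(22,0)]⟩,⟨0,[(2,0)]⟩⟩,⟨false,1,⟨0,[(4,0),(14,0)]⟩,⟨1,[(1,0),(5,0),
  (24,1),(4,0)]⟩⟩,⟨true,0,⟨2,[(3,1),(7,0),(8,0),(10,0),(1,1)]⟩,⟨0,[(8,0),(26,0)]⟩⟩,⟨false,0,⟨0,[]⟩,
  ⟨0,[]⟩⟩,⟨false,0,⟨0,[]⟩,⟨0,[]⟩⟩,[.o ⟨false,0,⟨0,[(34,0)]⟩,⟨4,[(5,1),(0,0),(20,1),(4,2),(4,0)]⟩⟩,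
  .a ⟨true,0,⟨14,[(9,4),(5,3),(0,3),(14,4),(5,0),(1,1)]⟩,⟨0,[(35,0)]⟩⟩ ⟨true,1,⟨7,[(4,1),(4,1),(5,
  0),(0,0),(4,1),(14,3),(0,0)]⟩,⟨0,[(11,0)]⟩⟩ ⟨false,1,⟨1,[(5,0),(3,0),(12,0),(13,0)]⟩,⟨3,[(6,1),(4,
  0),(15,0),(7,2)]⟩⟩,.o ⟨false,0,⟨0,[(2,0)]⟩,⟨7,[(0,1),(3,1),(0,1),(15,1),(0,3),(4,0),(9,0)]⟩⟩,.o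
  ⟨false,0,⟨0,[(23,0)]⟩,⟨0,[(0,0)]⟩⟩]⟩) (.Q [0,0,-1,-1,0,0,0,-1,0,1] (.pp false [-1,1]) (.R ⟨0,
  false,false,true,[1,0,-1],[0,1],[0,1],(⟨0,[(25,0)]⟩,⟨0,[(26,0)]⟩),(⟨0,[(30,0)]⟩,⟨0,[(29,0)]⟩),⟨0,
  [(14,0)]⟩,.k,.k,.k,.k,.k,.k,⟨true,1,⟨7,[(5,1),(4,1),(5,0),(0,0),(4,1),(14,3),(0,0)]⟩,⟨0,[(12,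
  0)]⟩⟩,⟨false,2,⟨7,[(0,1),(4,3),(0,5),(9,0),(0,0),(4,1),(14,3),(0,0)]⟩,⟨0,[(1,0)]⟩⟩,⟨true,0,⟨0,[(3,
  0),(17,0)]⟩,⟨1,[(2,0),(5,0),(29,0)]⟩⟩,⟨false,1,⟨3,[(5,0),(0,1),(0,0),(13,2),(6,0),(4,2)]⟩,⟨1,[(0,
  1),(0,1),(26,0),(9,0)]⟩⟩,⟨false,0,⟨0,[]⟩,⟨0,[]⟩⟩,⟨false,0,⟨0,[]⟩,⟨0,[]⟩⟩,[.o ⟨false,0,⟨1,[(12,0),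
  (15,0),(5,1),(1,0)]⟩,⟨7,[(5,1),(4,1),(5,0),(0,0),(4,1),(15,4)]⟩⟩,.e ⟨false,1,⟨1,[(16,0),(0,0),(19,
  0)]⟩,⟨0,[]⟩⟩ ⟨false,1,⟨0,[(6,0)]⟩,⟨59,[(10,19),(2,29),(2,3),(0,3),(14,4),(5,0),(1,1)]⟩⟩,.o ⟨false,
  0,⟨0,[(3,0)]⟩,⟨9,[(0,0),(4,2),(0,3),(15,1),(0,4),(4,1),(9,0)]⟩⟩,.a ⟨true,(-1),⟨0,[(1,0)]⟩,⟨0,[(23,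
  0),(13,0)]⟩⟩ ⟨true,0,⟨0,[(34,0)]⟩,⟨1,[(23,0),(0,0)]⟩⟩ ⟨false,1,⟨0,[(6,0)]⟩,⟨3,[(1,0),(8,1),(2,0),
  (10,0),(8,1),(4,0)]⟩⟩]⟩) (.R ⟨0,false,false,true,[-1,1,1],[0,1],[0,1],(⟨0,[(14,0)]⟩,⟨0,[(25,0),(3,
  0)]⟩),(⟨0,[(30,0)]⟩,⟨0,[(29,0)]⟩),⟨0,[(25,0)]⟩,.k,.k,.k,.k,.k,.k,⟨true,1,⟨7,[(5,1),(4,1),(5,0),(0,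
  0),(4,1),(14,3),(0,0)]⟩,⟨0,[(12,0)]⟩⟩,⟨false,0,⟨0,[(20,0)]⟩,⟨9,[(5,1),(0,4),(3,0),(11,1),(0,4),(4,
  1),(9,0)]⟩⟩,⟨false,1,⟨1,[(6,0),(1,0),(1,0),(11,0),(15,0)]⟩,⟨1,[(0,1),(31,0),(5,0)]⟩⟩,⟨true,(-1),
  ⟨3,[(2,2),(4,1),(0,0),(23,0)]⟩,⟨7,[(0,1),(4,3),(0,1),(9,0),(0,0),(3,1),(16,0)]⟩⟩,⟨false,0,⟨0,[]⟩,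
  ⟨0,[]⟩⟩,⟨false,0,⟨0,[]⟩,⟨0,[]⟩⟩,[.o ⟨false,0,⟨0,[(0,0),(7,0)]⟩,⟨7,[(5,1),(4,1),(5,0),(0,0),(4,1),
  (15,4)]⟩⟩,.a ⟨true,0,⟨0,[(36,0)]⟩,⟨14,[(10,4),(5,3),(0,3),(14,4),(5,0),(1,1)]⟩⟩ ⟨false,1,⟨1,[(16,
  0),(0,0),(19,0)]⟩,⟨0,[]⟩⟩ ⟨true,(-1),⟨3,[(7,1),(4,2),(19,0),(3,0)]⟩,⟨1,[(6,0),(3,0),(12,0),(4,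
  0)]⟩⟩,.o ⟨false,2,⟨4,[(5,1),(0,4),(3,0),(11,1),(5,1),(9,0)]⟩,⟨0,[(1,0)]⟩⟩,.e ⟨true,0,⟨0,[(34,0)]⟩,
  ⟨1,[(23,0),(0,0)]⟩⟩ ⟨true,(-1),⟨3,[(7,1),(4,2),(19,0),(1,3),(1,0)]⟩,⟨1,[(6,0),(3,0),(12,0),(4,
  0)]⟩⟩]⟩)))) (.R ⟨0,false,false,false,[1,0,-1],[1,-1],[1,0,1],(⟨0,[(22,0)]⟩,⟨0,[(23,0)]⟩),(⟨0,[(26,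
  0)]⟩,⟨0,[(27,0)]⟩),⟨0,[(11,0)]⟩,.k,.k,.k,.k,.k,.k,⟨true,(-1),⟨0,[(9,0)]⟩,⟨7,[(2,1),(4,1),(5,0),(0,
  0),(4,1),(14,3),(0,0)]⟩⟩,⟨false,0,⟨0,[(0,0)]⟩,⟨3,[(10,1),(2,0),(0,0),(10,0),(8,1)]⟩⟩,⟨true,0,⟨5,
  [(2,4),(1,2),(4,3),(8,0),(10,0),(0,0)]⟩,⟨0,[(5,0)]⟩⟩,⟨false,1,⟨1,[(2,1),(26,0),(5,0)]⟩,⟨0,[(6,0),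
  (26,0)]⟩⟩,⟨false,0,⟨0,[]⟩,⟨0,[]⟩⟩,⟨false,0,⟨0,[]⟩,⟨0,[]⟩⟩,[.e ⟨false,0,⟨0,[]⟩,⟨1,[(13,0),(0,0),
  (19,0)]⟩⟩ ⟨false,1,⟨1,[(3,0),(3,0),(12,0),(13,0)]⟩,⟨3,[(4,1),(4,0),(15,0),(7,2)]⟩⟩,.o ⟨false,1,⟨7,
  [(2,1),(4,1),(5,0),(0,0),(4,1),(15,4)]⟩,⟨1,[(9,0),(15,0),(5,1),(1,0)]⟩⟩,.a ⟨true,0,⟨19,[(10,9),(2,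
  3),(0,3),(14,4),(5,0),(1,1)]⟩,⟨0,[(0,0)]⟩⟩ ⟨true,0,⟨1,[(20,0),(0,0)]⟩,⟨0,[(31,0)]⟩⟩ ⟨false,1,⟨1,
  [(3,0),(3,0),(12,0),(14,0)]⟩,⟨3,[(4,1),(4,0),(15,0),(7,2)]⟩⟩,.o ⟨false,0,⟨0,[(21,0)]⟩,⟨1,[(0,1),
  (24,0),(8,0)]⟩⟩]⟩))))))) (.Q [0,1,0,0,0,0,1,1,0,-1,1] (.p true [0,0,1] [1] (⟨0,[(17,0)]⟩,⟨0,[(16,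
  0)]⟩) .k 1 (⟨0,[]⟩,⟨0,[]⟩) .k .k) (.Q [0,0,0,0,0,0,-1,0,0,0,-1] (.p false [0,0,1] [] (⟨0,[(18,
  0)]⟩,⟨0,[(17,0)]⟩) .k 0 (⟨0,[]⟩,⟨0,[]⟩) .k .k) (.Q [0,-1,0,-1,1,0,1,1,0,-1,1] (.p true [0,0,1]
  [1] (⟨0,[(19,0)]⟩,⟨0,[(18,0)]⟩) .k 1 (⟨0,[]⟩,⟨0,[]⟩) .k .k) (.Q [0,0,1,0,-1,0,-1,0,0,1,-1] (.p
  false [0,0,1] [1] (⟨0,[(20,0)]⟩,⟨0,[(19,0)]⟩) .k 1 (⟨0,[]⟩,⟨0,[]⟩) .k .k) (.Q [0,0,0,1,0,0,1,1,0,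
  -1,1] (.p true [0,0,1] [1] (⟨0,[(21,0)]⟩,⟨0,[(20,0)]⟩) .k 1 (⟨0,[]⟩,⟨0,[]⟩) .k .k) (.I [1,0,-1,0,
  0,0,0,1] (.R ⟨2,true,false,false,[0,1],[1,0,-1],[1],(⟨0,[]⟩,⟨0,[]⟩),(⟨0,[(22,0)]⟩,⟨0,[(23,0)]⟩),
  ⟨0,[]⟩,.k,.k,.k,.k,.k,.k,⟨false,0,⟨0,[(0,0)]⟩,⟨1,[(19,1),(0,1),(13,0),(0,0)]⟩⟩,⟨true,(-1),⟨0,[(2,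
  0)]⟩,⟨1,[(20,1),(4,0),(8,0)]⟩⟩,⟨true,1,⟨5,[(7,1),(5,1),(0,1),(10,0),(8,2)]⟩,⟨0,[(9,0),(21,0)]⟩⟩,
  ⟨false,1,⟨2,[(7,0),(5,0),(0,0),(4,2),(9,0),(5,2)]⟩,⟨0,[(1,0)]⟩⟩,⟨false,1,⟨1,[(34,0),(0,0)]⟩,⟨1,
  [(20,0),(0,0)]⟩⟩,⟨true,0,⟨1,[(19,1),(9,0),(5,0)]⟩,⟨0,[(5,0)]⟩⟩,[]⟩) (.R ⟨2,true,false,false,[0,1],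
  [1,0,-1],[0,1,1,1],(⟨0,[]⟩,⟨0,[]⟩),(⟨0,[(22,0)]⟩,⟨0,[(23,0)]⟩),⟨0,[]⟩,.k,.k,.k,.k,.k,.k,⟨false,
  (-1),⟨0,[(1,0),(0,0),(28,0)]⟩,⟨5,[(0,5),(6,1),(5,1),(0,1),(10,0),(8,5),(0,2)]⟩⟩,⟨true,(-1),⟨0,[(2,
  0)]⟩,⟨1,[(20,1),(4,0),(8,0)]⟩⟩,⟨true,0,⟨0,[(37,0)]⟩,⟨0,[]⟩⟩,⟨false,1,⟨11,[(0,11),(6,3),(2,5),(2,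
  0),(0,0),(14,0),(4,5),(0,5)]⟩,⟨0,[(1,0)]⟩⟩,⟨false,0,⟨0,[(33,0)]⟩,⟨5,[(7,1),(5,1),(0,1),(10,0),(9,
  2)]⟩⟩,⟨true,0,⟨0,[(0,0),(16,0)]⟩,⟨0,[(5,0)]⟩⟩,[]⟩)) (.I [0,-1,0,0,0,0,0,1] (.I [0,0,-1,-1,0,0,0,
  1] (.R ⟨0,false,false,false,[-1,1,1],[0,0,1],[1,1,1],(⟨0,[(12,0)]⟩,⟨0,[(23,0),(3,0)]⟩),(⟨0,[(24,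
  0)]⟩,⟨0,[(23,0)]⟩),⟨0,[(23,0)]⟩,.k,.k,.k,.k,.k,.k,⟨true,0,⟨0,[(20,0),(0,0)]⟩,⟨0,[(1,0)]⟩⟩,⟨false,
  0,⟨9,[(14,3),(0,3),(14,4),(5,0),(1,1)]⟩,⟨1,[(26,0),(8,0)]⟩⟩,⟨false,1,⟨1,[(2,1),(18,1),(4,0),(8,
  0)]⟩,⟨0,[(1,0),(32,0)]⟩⟩,⟨true,0,⟨14,[(8,4),(5,3),(0,3),(14,4),(5,0),(1,1)]⟩,⟨1,[(10,0),(15,0),(5,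
  1),(1,0)]⟩⟩,⟨false,0,⟨0,[]⟩,⟨0,[]⟩⟩,⟨false,0,⟨0,[]⟩,⟨0,[]⟩⟩,[.e ⟨false,0,⟨0,[(38,0)]⟩,⟨1,[(35,0),
  (0,0)]⟩⟩ ⟨false,(-1),⟨1,[(0,0),(0,0),(8,0),(19,0),(1,0)]⟩,⟨1,[(20,1),(0,1),(4,0),(8,1),(0,0)]⟩⟩,
  .o ⟨false,1,⟨0,[(6,0),(29,0)]⟩,⟨0,[(20,0)]⟩⟩,.o ⟨false,2,⟨0,[(21,0),(4,0),(8,0)]⟩,⟨0,[(3,0)]⟩⟩,.a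
  ⟨true,1,⟨1,[(21,1),(4,0),(8,0)]⟩,⟨5,[(3,3),(14,1),(11,2),(1,1),(3,0)]⟩⟩ ⟨false,0,⟨0,[]⟩,⟨1,[(14,
  0),(0,0),(20,0)]⟩⟩ ⟨true,(-1),⟨1,[(0,0),(0,0),(8,0),(19,0),(1,0)]⟩,⟨1,[(20,1),(0,1),(4,0),(8,
  0)]⟩⟩]⟩) (.S ⟨1,0,[0,1,0,0,0,0,0,1],[0,0,1],[1,0,1],(⟨0,[(24,0)]⟩,⟨0,[(23,0)]⟩),⟨0,[(13,0)]⟩,.k,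
  .k,⟨false,1,⟨5,[(0,5),(7,1),(5,1),(0,1),(10,0),(9,2)]⟩,⟨0,[(1,0),(30,0)]⟩⟩,⟨true,0,⟨0,[(38,0)]⟩,
  ⟨0,[]⟩⟩,⟨true,0,⟨0,[(0,0)]⟩,⟨1,[(1,0),(4,0),(2,0),(8,0),(13,0)]⟩⟩,⟨false,0,⟨0,[(34,0)]⟩,⟨5,[(8,1),
  (5,1),(0,1),(10,0),(9,2)]⟩⟩,[.o ⟨false,0,⟨0,[(6,0)]⟩,⟨0,[(20,0),(15,0)]⟩⟩,.e ⟨false,1,⟨1,[(14,0),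
  (0,0),(20,0)]⟩,⟨0,[(32,0)]⟩⟩ ⟨false,0,⟨0,[(1,0),(30,0)]⟩,⟨5,[(0,5),(7,1),(5,1),(0,1),(10,0),(8,
  2)]⟩⟩,.o ⟨false,1,⟨1,[(21,1),(4,0),(8,0)]⟩,⟨0,[(5,0)]⟩⟩,.a ⟨true,0,⟨0,[(21,0)]⟩,⟨0,[(18,0)]⟩⟩
  ⟨true,0,⟨0,[]⟩,⟨0,[(38,0)]⟩⟩ ⟨false,0,⟨0,[(1,0),(30,0)]⟩,⟨5,[(0,5),(7,1),(5,1),(0,1),(10,0),(9,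
  2)]⟩⟩]⟩)) (.Q [0,0,-1,1,1,0,1,0,0,-1,1] (.p true [0,0,1] [1] (⟨0,[(23,0)]⟩,⟨0,[(22,0)]⟩) .k 1 (⟨0,
  []⟩,⟨0,[]⟩) .k .k) (.R ⟨0,false,false,false,[1,0,-1],[0,1],[],(⟨0,[(23,0)]⟩,⟨0,[(24,0)]⟩),(⟨0,
  [(28,0)]⟩,⟨0,[(27,0)]⟩),⟨0,[(12,0)]⟩,.k,.k,.k,.k,.k,.k,⟨true,1,⟨5,[(8,1),(5,1),(0,1),(10,0),(8,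
  2)]⟩,⟨0,[(10,0)]⟩⟩,⟨false,2,⟨5,[(0,5),(7,1),(5,1),(0,1),(10,0),(8,2)]⟩,⟨0,[(3,0)]⟩⟩,⟨true,0,⟨0,
  [(5,0),(1,0)]⟩,⟨0,[(1,0)]⟩⟩,⟨false,1,⟨2,[(0,0),(5,2),(11,0),(12,1),(4,1)]⟩,⟨0,[(2,0)]⟩⟩,⟨false,0,
  ⟨0,[]⟩,⟨0,[]⟩⟩,⟨false,0,⟨0,[]⟩,⟨0,[]⟩⟩,[.e ⟨false,1,⟨1,[(14,0),(0,0),(19,0)]⟩,⟨0,[]⟩⟩ ⟨false,1,⟨0,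
  [(0,0)]⟩,⟨59,[(8,19),(2,29),(2,3),(0,3),(14,4),(5,0),(1,1)]⟩⟩,.o ⟨false,1,⟨5,[(0,1),(17,1),(7,2),
  (4,3),(4,0)]⟩,⟨0,[(33,0)]⟩⟩,.o ⟨false,0,⟨0,[(5,0)]⟩,⟨5,[(0,2),(7,0),(5,0),(0,0),(5,2),(4,1)]⟩⟩,.a
  ⟨true,(-1),⟨0,[(3,0)]⟩,⟨0,[(21,0),(13,0)]⟩⟩ ⟨false,1,⟨1,[(35,0),(0,0)]⟩,⟨1,[(21,0),(0,0)]⟩⟩ ⟨true,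
  1,⟨0,[(0,0)]⟩,⟨0,[(3,0),(29,0)]⟩⟩]⟩) (.R ⟨0,false,false,false,[1,0,-1],[0,1],[],(⟨0,[(23,0)]⟩,⟨0,
  [(24,0)]⟩),(⟨0,[(28,0)]⟩,⟨0,[(27,0)]⟩),⟨0,[(12,0)]⟩,.k,.k,.k,.k,.k,.k,⟨true,1,⟨5,[(8,1),(5,1),(0,
  1),(10,0),(8,2)]⟩,⟨0,[(10,0)]⟩⟩,⟨false,2,⟨1,[(21,1),(4,0),(8,2)]⟩,⟨0,[(3,0)]⟩⟩,⟨true,0,⟨0,[(5,0),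
  (1,0)]⟩,⟨0,[(1,0)]⟩⟩,⟨false,1,⟨0,[(6,0),(27,0),(1,0)]⟩,⟨0,[(2,0)]⟩⟩,⟨false,0,⟨0,[]⟩,⟨0,[]⟩⟩,
  ⟨false,0,⟨0,[]⟩,⟨0,[]⟩⟩,[.a ⟨true,0,⟨0,[(34,0)]⟩,⟨14,[(8,4),(5,3),(0,3),(14,4),(5,0),(1,1)]⟩⟩
  ⟨false,1,⟨1,[(14,0),(0,0),(19,0)]⟩,⟨0,[]⟩⟩ ⟨true,1,⟨1,[(21,1),(4,0),(7,1),(0,0)]⟩,⟨0,[(0,0)]⟩⟩,.o
  ⟨false,1,⟨1,[(26,0),(7,1),(1,0)]⟩,⟨0,[(33,0)]⟩⟩,.o ⟨false,0,⟨0,[(5,0)]⟩,⟨1,[(21,1),(4,0),(8,0)]⟩⟩,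
  .e ⟨false,1,⟨1,[(35,0),(0,0)]⟩,⟨1,[(21,0),(0,0)]⟩⟩ ⟨false,2,⟨1,[(21,1),(4,0),(7,1),(0,1),(0,0)]⟩,
  ⟨0,[(0,0)]⟩⟩]⟩)))) (.I [1,-1,0,1,0,0,0,1] (.R ⟨0,false,false,true,[1,0,-1],[1,-1],[0,1,-1,-1],(⟨0,
  [(21,0)]⟩,⟨0,[(22,0)]⟩),(⟨0,[(25,0)]⟩,⟨0,[(26,0)]⟩),⟨0,[(10,0)]⟩,.k,.k,.k,.k,.k,.k,⟨false,1,⟨1,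
  [(12,0),(0,0),(19,0)]⟩,⟨0,[]⟩⟩,⟨true,0,⟨0,[(19,0)]⟩,⟨0,[(3,0)]⟩⟩,⟨true,0,⟨1,[(0,0),(2,0),(0,0),(1,
  0),(23,1)]⟩,⟨1,[(1,1),(6,1),(9,1),(9,0),(5,0)]⟩⟩,⟨false,0,⟨0,[(0,0),(0,0),(4,0),(1,0),(21,0)]⟩,⟨0,
  [(18,0),(13,0),(1,0)]⟩⟩,⟨false,0,⟨0,[]⟩,⟨0,[]⟩⟩,⟨false,0,⟨0,[]⟩,⟨0,[]⟩⟩,[.o ⟨false,0,⟨0,[(31,0)]⟩,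
  ⟨1,[(24,0),(7,1),(1,0)]⟩⟩,.a ⟨true,0,⟨14,[(6,4),(5,3),(0,3),(14,4),(5,0),(1,1)]⟩,⟨0,[(32,0)]⟩⟩
  ⟨true,1,⟨5,[(6,1),(5,1),(0,1),(10,0),(8,2)]⟩,⟨0,[(8,0)]⟩⟩ ⟨false,1,⟨2,[(1,0),(4,0),(12,1),(13,
  1)]⟩,⟨0,[(3,0),(28,0)]⟩⟩,.o ⟨false,0,⟨0,[(3,0)]⟩,⟨3,[(1,1),(10,0),(0,0),(5,1),(4,0)]⟩⟩,.o ⟨false,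
  0,⟨0,[(20,0)]⟩,⟨0,[(1,0)]⟩⟩]⟩) (.R ⟨0,false,false,false,[1,0,-1],[0,1],[1,0,2,1],(⟨0,[(21,0)]⟩,⟨0,
  [(22,0)]⟩),(⟨0,[(26,0)]⟩,⟨0,[(25,0)]⟩),⟨0,[(10,0)]⟩,.k,.k,.k,.k,.k,.k,⟨false,0,⟨0,[]⟩,⟨1,[(12,0),
  (0,0),(19,0)]⟩⟩,⟨true,1,⟨0,[(1,0)]⟩,⟨28,[(6,8),(1,26),(0,15),(9,2),(8,1),(6,0)]⟩⟩,⟨true,(-1),⟨0,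
  [(3,0),(1,0),(2,0)]⟩,⟨0,[(0,0),(32,0)]⟩⟩,⟨false,1,⟨0,[(4,0),(27,0),(1,0)]⟩,⟨1,[(0,1),(2,1),(24,0),
  (5,0)]⟩⟩,⟨false,0,⟨0,[]⟩,⟨0,[]⟩⟩,⟨false,0,⟨0,[]⟩,⟨0,[]⟩⟩,[.a ⟨true,0,⟨0,[(32,0)]⟩,⟨14,[(6,4),(5,
  3),(0,3),(14,4),(5,0),(1,1)]⟩⟩ ⟨true,(-1),⟨0,[(8,0)]⟩,⟨5,[(6,1),(5,1),(0,1),(10,0),(8,2)]⟩⟩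
  ⟨false,1,⟨0,[(1,0),(30,0)]⟩,⟨59,[(6,19),(2,29),(2,3),(0,3),(14,4),(5,0),(1,1)]⟩⟩,.o ⟨false,1,⟨1,
  [(24,0),(7,1),(1,0)]⟩,⟨0,[(31,0)]⟩⟩,.o ⟨false,0,⟨0,[(3,0)]⟩,⟨3,[(1,1),(10,0),(0,0),(5,1),(4,0)]⟩⟩,
  .o ⟨false,0,⟨0,[(20,0)]⟩,⟨0,[(1,0)]⟩⟩]⟩))) (.I [1,1,0,0,0,0,0,-1] (.R ⟨2,true,false,false,[0,1],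
  [0,0,1],[1,1,1],(⟨0,[]⟩,⟨0,[]⟩),(⟨0,[(21,0)]⟩,⟨0,[(20,0)]⟩),⟨0,[]⟩,.k,.k,.k,.k,.k,.k,⟨false,0,⟨0,
  [(0,0)]⟩,⟨0,[(3,0),(11,0),(17,0)]⟩⟩,⟨true,0,⟨0,[(18,0)]⟩,⟨0,[(2,0)]⟩⟩,⟨true,0,⟨0,[(30,0)]⟩,⟨0,
  [(31,0)]⟩⟩,⟨false,1,⟨2,[(3,0),(1,0),(10,1),(16,2)]⟩,⟨1,[(1,1),(21,0),(9,0)]⟩⟩,⟨false,0,⟨0,[]⟩,⟨1,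
  [(11,0),(0,0),(20,0)]⟩⟩,⟨true,0,⟨0,[(4,0)]⟩,⟨0,[(17,0)]⟩⟩,[]⟩) (.R ⟨2,true,false,false,[0,1],[0,0,
  1],[0,1,1,1],(⟨0,[]⟩,⟨0,[]⟩),(⟨0,[(21,0)]⟩,⟨0,[(20,0)]⟩),⟨0,[]⟩,.k,.k,.k,.k,.k,.k,⟨false,0,⟨1,[(1,
  1),(16,1),(4,0),(8,0)]⟩,⟨29,[(0,21),(4,9),(2,3),(7,7),(6,6),(8,14),(0,7)]⟩⟩,⟨true,0,⟨0,[(18,0)]⟩,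
  ⟨0,[(2,0)]⟩⟩,⟨true,0,⟨0,[(35,0)]⟩,⟨0,[]⟩⟩,⟨false,1,⟨2,[(3,0),(1,0),(10,1),(16,2)]⟩,⟨1,[(1,1),(21,
  0),(9,0)]⟩⟩,⟨false,0,⟨0,[(31,0)]⟩,⟨5,[(5,1),(5,1),(0,1),(10,0),(9,2)]⟩⟩,⟨true,0,⟨0,[(4,0)]⟩,⟨0,
  [(17,0)]⟩⟩,[]⟩))) (.I [1,0,0,-1,0,0,0,1] (.R ⟨0,false,false,false,[1,0,-1],[1,-1],[1,0,1],(⟨0,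
  [(19,0)]⟩,⟨0,[(20,0)]⟩),(⟨0,[(23,0)]⟩,⟨0,[(24,0)]⟩),⟨0,[(8,0)]⟩,.k,.k,.k,.k,.k,.k,⟨true,(-1),⟨0,
  [(6,0)]⟩,⟨5,[(4,1),(5,1),(0,1),(10,0),(8,2)]⟩⟩,⟨false,0,⟨0,[(1,0)]⟩,⟨3,[(7,1),(2,0),(0,0),(10,0),
  (8,1)]⟩⟩,⟨false,0,⟨0,[(0,0),(26,0)]⟩,⟨1,[(1,1),(14,1),(14,0),(0,0)]⟩⟩,⟨true,0,⟨0,[(0,0),(0,0)]⟩,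
  ⟨0,[(16,0),(13,0)]⟩⟩,⟨false,0,⟨0,[]⟩,⟨0,[]⟩⟩,⟨false,0,⟨0,[]⟩,⟨0,[]⟩⟩,[.e ⟨false,0,⟨0,[]⟩,⟨1,[(10,
  0),(0,0),(19,0)]⟩⟩ ⟨false,1,⟨5,[(1,1),(2,1),(12,3),(4,0),(8,4)]⟩,⟨1,[(6,0),(7,1),(7,0),(7,0)]⟩⟩,
  .o ⟨false,1,⟨5,[(4,1),(5,1),(0,1),(10,0),(9,2)]⟩,⟨1,[(6,0),(15,0),(5,1),(1,0)]⟩⟩,.a ⟨true,0,⟨19,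
  [(7,9),(2,3),(0,3),(14,4),(5,0),(1,1)]⟩,⟨0,[(1,0)]⟩⟩ ⟨true,0,⟨1,[(17,0),(0,0)]⟩,⟨0,[(28,0)]⟩⟩
  ⟨false,1,⟨5,[(1,1),(2,1),(12,3),(4,0),(8,1),(0,2)]⟩,⟨1,[(6,0),(7,1),(7,0),(7,0)]⟩⟩,.o ⟨false,0,⟨0,
  [(18,0)]⟩,⟨1,[(1,1),(20,0),(8,0)]⟩⟩]⟩) (.Q [0,1,0,-1,-1,0,-2,-2,0,2,-2] (.p false [0,0,1] [2,-1,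
  -1] (⟨0,[(20,0)]⟩,⟨0,[(19,0)]⟩) .k 2 (⟨0,[(19,0),(3,0)]⟩,⟨0,[(8,0)]⟩) .k (.x (-1) ⟨0,[(1,1),(17,
  1),(2,0)]⟩ ⟨0,[(7,0),(0,0),(0,0)]⟩)) (.Q [0,-1,0,1,0,0,-1,-1,0,1,-1] (.p false [0,0,1] [1] (⟨0,
  [(21,0)]⟩,⟨0,[(20,0)]⟩) .k 1 (⟨0,[]⟩,⟨0,[]⟩) .k .k) (.R ⟨1,false,false,false,[1,-1],[2,-1,-1],[0,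
  1],(⟨0,[(25,0)]⟩,⟨0,[(26,0)]⟩),(⟨0,[(21,0),(3,0)]⟩,⟨0,[(10,0)]⟩),⟨3,[(23,5),(1,1),(2,0),(1,1),(3,
  0),(0,1)]⟩,.k,.k,(.r (-2) ⟨2,[(6,1),(5,1),(0,1),(10,0),(8,2)]⟩ ⟨0,[(8,0),(23,0)]⟩),.k,.k,.k,⟨true,
  (-1),⟨0,[(4,0),(3,0),(7,0)]⟩,⟨11,[(1,1),(0,7),(3,5),(12,3),(4,4),(8,1),(0,6)]⟩⟩,⟨false,0,⟨0,[(16,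
  0)]⟩,⟨1,[(19,1),(4,0),(8,0)]⟩⟩,⟨true,(-1),⟨0,[(8,0),(21,0)]⟩,⟨5,[(6,1),(5,1),(0,1),(10,0),(8,
  2)]⟩⟩,⟨true,0,⟨2,[(0,0),(0,0),(10,0),(0,0)]⟩,⟨0,[(4,0)]⟩⟩,⟨true,(-1),⟨0,[(8,0),(21,0),(1,0)]⟩,⟨5,
  [(6,3),(5,0),(0,0),(10,1),(8,2)]⟩⟩,⟨false,0,⟨0,[(0,0)]⟩,⟨5,[(4,1),(1,1),(10,3),(6,2),(9,2)]⟩⟩,[.o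
  ⟨false,0,⟨9,[(1,3),(4,1),(5,0),(0,0),(4,1),(15,2)]⟩,⟨1,[(4,1),(19,0),(7,1),(1,0)]⟩⟩,.a ⟨true,0,
  ⟨11,[(1,5),(4,1),(5,1),(0,1),(14,4),(5,8)]⟩,⟨0,[(4,0),(27,0)]⟩⟩ ⟨false,1,⟨1,[(12,0),(0,0),(19,
  0)]⟩,⟨0,[]⟩⟩ ⟨true,1,⟨9,[(1,3),(4,1),(5,0),(0,0),(4,1),(14,4),(0,7)]⟩,⟨0,[(4,0),(3,0)]⟩⟩,.o
  ⟨false,0,⟨1,[(19,0),(0,0)]⟩,⟨1,[(24,0),(8,0)]⟩⟩,.e ⟨true,0,⟨0,[(30,0)]⟩,⟨1,[(19,0),(0,0)]⟩⟩ ⟨true,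
  1,⟨9,[(1,3),(4,1),(5,0),(0,0),(4,1),(14,9),(0,2)]⟩,⟨0,[(4,0),(3,0)]⟩⟩]⟩) (.R ⟨1,true,false,false,
  [1,-1],[1,0,-1],[1,0,0,0,0,0,0,-1],(⟨0,[(25,0)]⟩,⟨0,[(26,0)]⟩),(⟨0,[(21,0)]⟩,⟨0,[(22,0)]⟩),⟨3,
  [(23,5),(1,1),(2,0),(1,1),(3,0),(0,1)]⟩,.k,.k,(.r (-2) ⟨2,[(6,1),(5,1),(0,1),(10,0),(8,2)]⟩ ⟨0,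
  [(8,0),(23,0)]⟩),.k,(.r (-2) ⟨7,[(0,0),(5,4),(2,3),(7,6),(6,3),(8,7),(0,3)]⟩ ⟨0,[(2,0),(5,0)]⟩),
  .k,⟨true,0,⟨0,[]⟩,⟨1,[(19,0),(0,0)]⟩⟩,⟨false,1,⟨1,[(16,1),(7,0),(8,0)]⟩,⟨0,[(19,0)]⟩⟩,⟨true,0,⟨1,
  [(2,1),(16,0),(0,0)]⟩,⟨0,[(0,0),(15,0)]⟩⟩,⟨false,1,⟨3,[(2,3),(6,1),(2,0),(0,0),(10,0),(9,1)]⟩,⟨1,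
  [(0,1),(27,0),(5,0)]⟩⟩,⟨false,0,⟨0,[(2,0),(26,0)]⟩,⟨7,[(0,6),(5,2),(2,3),(7,0),(15,3),(0,3)]⟩⟩,
  ⟨true,0,⟨1,[(2,1),(5,0),(7,1),(7,0),(7,0)]⟩,⟨1,[(0,0),(5,0),(10,0)]⟩⟩,[]⟩)) (.S ⟨1,0,[0,1,1,1,0,0,
  0,-1],[1,1,-1],[1,0,1,0,0,0,0,-1],(⟨0,[(20,0),(4,0)]⟩,⟨0,[(10,0)]⟩),⟨0,[(20,0)]⟩,.k,.k,⟨false,1,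
  ⟨5,[(5,1),(5,1),(0,1),(10,0),(9,2)]⟩,⟨0,[(31,0)]⟩⟩,⟨true,0,⟨0,[(35,0)]⟩,⟨0,[]⟩⟩,⟨true,0,⟨0,[]⟩,⟨0,
  [(35,0)]⟩⟩,⟨false,0,⟨0,[(31,0)]⟩,⟨5,[(5,1),(5,1),(0,1),(10,0),(9,2)]⟩⟩,[.o ⟨false,0,⟨0,[(17,0),
  (13,0)]⟩,⟨3,[(0,1),(4,1),(17,0),(9,0)]⟩⟩,.e ⟨false,1,⟨9,[(1,5),(3,1),(11,3),(0,3),(4,0),(8,1),(0,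
  6)]⟩,⟨0,[(3,0),(11,0)]⟩⟩ ⟨false,0,⟨0,[(1,0)]⟩,⟨35,[(0,11),(4,15),(2,17),(2,0),(0,0),(3,11),(6,4),
  (8,17)]⟩⟩,.a ⟨true,0,⟨0,[(15,0)]⟩,⟨0,[(18,0)]⟩⟩ ⟨true,0,⟨5,[(1,3),(3,1),(1,1),(9,1),(0,1),(4,0),
  (9,0)]⟩,⟨0,[(3,0),(11,0)]⟩⟩ ⟨false,0,⟨1,[(1,0),(15,0),(0,0),(9,0)]⟩,⟨3,[(0,1),(4,1),(9,3),(7,0),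
  (9,0)]⟩⟩,.e ⟨false,1,⟨9,[(1,5),(3,1),(11,3),(0,3),(4,0),(8,1),(0,6)]⟩,⟨11,[(0,3),(2,3),(1,2),(1,
  4),(0,0),(6,9),(7,0)]⟩⟩ ⟨false,0,⟨0,[(1,0)]⟩,⟨3,[(0,1),(4,1),(2,1),(2,0),(0,0),(20,0)]⟩⟩]⟩))))
  (.I [1,1,-1,-1,0,0,0,1] (.R ⟨2,true,false,false,[0,1],[0,0,1],[0,1,1,1],(⟨0,[]⟩,⟨0,[]⟩),(⟨0,[(19,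
  0)]⟩,⟨0,[(18,0)]⟩),⟨0,[]⟩,.k,.k,.k,.k,.k,.k,⟨false,0,⟨1,[(1,1),(3,0),(10,1),(4,0),(5,3),(1,0)]⟩,
  ⟨0,[(0,0),(30,0)]⟩⟩,⟨true,0,⟨0,[(16,0)]⟩,⟨1,[(0,0),(0,0),(3,0),(7,0),(7,0)]⟩⟩,⟨true,0,⟨0,[(33,
  0)]⟩,⟨0,[]⟩⟩,⟨false,1,⟨5,[(2,1),(0,1),(10,3),(6,0),(9,4)]⟩,⟨1,[(1,1),(3,0),(15,0),(5,1),(1,0)]⟩⟩,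
  ⟨false,0,⟨0,[(29,0)]⟩,⟨5,[(3,1),(5,1),(0,1),(10,0),(9,2)]⟩⟩,⟨true,0,⟨0,[(2,0)]⟩,⟨0,[(15,0)]⟩⟩,
  []⟩) (.R ⟨1,false,false,false,[1,-1],[1,0,-1],[1,0,-1,-2],(⟨0,[(22,0)]⟩,⟨0,[(23,0)]⟩),(⟨0,[(18,
  0)]⟩,⟨0,[(19,0)]⟩),⟨3,[(20,5),(1,1),(2,0),(1,1),(3,0),(0,1)]⟩,.k,.k,(.r (-2) ⟨2,[(3,1),(5,1),(0,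
  1),(10,0),(8,2)]⟩ ⟨0,[(5,0),(23,0)]⟩),.k,(.r (-2) ⟨11,[(2,1),(0,7),(2,5),(7,9),(6,6),(8,11),(0,
  4)]⟩ ⟨0,[(0,0),(4,0),(21,0)]⟩),.k,⟨true,1,⟨2,[(2,2),(0,1),(2,0),(6,0),(7,1),(8,0)]⟩,⟨0,[(0,0),(4,
  0),(21,0)]⟩⟩,⟨false,1,⟨1,[(13,1),(7,0),(8,0)]⟩,⟨0,[(16,0)]⟩⟩,⟨false,1,⟨5,[(3,1),(5,1),(0,1),(10,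
  0),(9,2)]⟩,⟨0,[(29,0)]⟩⟩,⟨true,0,⟨1,[(1,1),(3,0),(15,0),(5,1),(1,0)]⟩,⟨1,[(2,0),(1,0),(9,0)]⟩⟩,
  ⟨true,0,⟨0,[]⟩,⟨0,[(33,0)]⟩⟩,⟨true,0,⟨1,[(1,1),(3,0),(15,0),(5,1),(1,2)]⟩,⟨0,[(2,0),(1,0)]⟩⟩,[.a
  ⟨true,0,⟨5,[(1,4),(4,0),(8,0),(0,1),(7,1)]⟩,⟨0,[(2,0)]⟩⟩ ⟨true,1,⟨5,[(3,3),(5,0),(0,0),(10,1),(8,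
  2)]⟩,⟨0,[(5,0),(23,0)]⟩⟩ ⟨false,1,⟨1,[(1,1),(19,0),(5,1),(2,0)]⟩,⟨1,[(2,1),(13,0),(0,0)]⟩⟩,.a
  ⟨true,0,⟨0,[(1,0)]⟩,⟨0,[(14,0)]⟩⟩ ⟨false,2,⟨5,[(3,3),(5,0),(0,0),(10,1),(8,5),(0,2)]⟩,⟨0,[(5,0),
  (21,0),(1,0)]⟩⟩ ⟨true,1,⟨1,[(1,1),(19,0),(8,0)]⟩,⟨1,[(2,0),(1,0),(0,1),(8,0)]⟩⟩,.o ⟨false,0,⟨1,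
  [(16,0),(0,0)]⟩,⟨1,[(21,0),(8,0)]⟩⟩,.a ⟨true,(-1),⟨28,[(3,6),(1,20),(0,5),(9,11),(8,7),(6,3)]⟩,⟨0,
  [(30,0)]⟩⟩ ⟨false,2,⟨5,[(3,3),(5,0),(0,0),(10,1),(8,5),(0,2)]⟩,⟨0,[(5,0),(23,0)]⟩⟩ ⟨true,1,⟨1,[(1,
  1),(19,0),(5,1),(2,0)]⟩,⟨1,[(2,0),(1,0),(0,1),(8,0)]⟩⟩]⟩))))))

theorem ok0 : chk K t0 l0 = true := by decide +kernel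

noncomputable def t1 : Tre :=
  (.Q [0,0,-1,0,1,0,2,0,0,-2,2] (.p true [0,0,1] [2,-1,-1] (⟨0,[(14,0)]⟩,⟨0,[(13,0)]⟩) .k 2 (⟨0,
  [(13,0),(3,0)]⟩,⟨0,[(2,0)]⟩) .k (.i 1 ⟨0,[(2,0),(0,0)]⟩ ⟨0,[(13,1)]⟩)) (.I [0,0,-1,-1,0,0,0,-2]
  (.I [0,0,-2,-2,1,0,0,-1] (.K ⟨0,[2,-1,-1],(-1),(-1),(⟨0,[(16,0),(3,0)]⟩,⟨0,[(5,0)]⟩),.k,(.r (-1)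
  ⟨0,[(0,0)]⟩ ⟨0,[(12,0),(2,0),(8,0),(2,0)]⟩),.k,(.r 0 ⟨0,[(1,0)]⟩ ⟨1,[(4,1),(7,3),(6,0),(4,1),(4,
  0)]⟩),.k,[⟨0,[(2,0)]⟩,⟨3,[(14,0),(0,4),(7,3),(6,1)]⟩,⟨0,[(12,0),(6,0),(7,0)]⟩,⟨1,[(1,0),(13,1),(7,
  1),(1,0),(0,0)]⟩]⟩) (.K ⟨0,[2,-1,-1],(-1),(-1),(⟨0,[(16,0),(3,0)]⟩,⟨0,[(5,0)]⟩),.k,(.x 0 ⟨1,[(4,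
  1),(0,1),(8,2),(0,0),(5,1)]⟩ ⟨1,[(0,1),(0,0),(0,0),(0,2),(12,1),(1,3)]⟩),.k,(.r 0 ⟨0,[(1,0)]⟩ ⟨7,
  [(0,3),(3,5),(2,2),(0,2),(3,11),(6,2),(9,5)]⟩),.k,[⟨0,[(2,0)]⟩,⟨3,[(14,0),(0,4),(7,3),(6,1)]⟩,⟨0,
  [(12,0),(6,0),(7,0)]⟩,⟨5,[(0,0),(0,2),(2,1),(8,0),(1,0),(7,4),(2,4)]⟩]⟩)) (.I [1,0,0,-1,0,0,0,1]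
  (.S ⟨1,0,[0,1,1,1,0,0,0,-1],[1,1,-1],[0,0,1,1,0,0,0,-1],(⟨0,[(16,0),(4,0)]⟩,⟨0,[(6,0)]⟩),⟨0,[(16,
  0)]⟩,.k,.k,⟨false,1,⟨1,[(7,0),(0,0),(20,0)]⟩,⟨0,[]⟩⟩,⟨true,0,⟨0,[(31,0)]⟩,⟨0,[]⟩⟩,⟨true,0,⟨0,[(27,
  0)]⟩,⟨0,[(26,0)]⟩⟩,⟨false,0,⟨0,[(27,0)]⟩,⟨0,[(26,0),(2,0)]⟩⟩,[.o ⟨false,0,⟨0,[(13,0),(13,0)]⟩,⟨5,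
  [(0,5),(1,1),(11,1),(4,0),(9,2)]⟩⟩,.a ⟨true,0,⟨1,[(13,1),(9,0),(3,1),(1,0)]⟩,⟨4,[(0,4),(1,1),(11,
  0),(8,1),(6,0)]⟩⟩ ⟨false,1,⟨2,[(2,0),(10,2),(0,0),(8,0),(3,2),(1,2)]⟩,⟨0,[(0,0),(24,0)]⟩⟩ ⟨true,0,
  ⟨4,[(2,1),(10,4),(0,0),(8,1),(0,4),(5,0)]⟩,⟨0,[(0,0)]⟩⟩,.a ⟨true,0,⟨0,[(11,0)]⟩,⟨0,[(14,0)]⟩⟩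
  ⟨true,0,⟨4,[(2,1),(10,4),(0,0),(8,1),(0,4),(5,0)]⟩,⟨0,[(0,0),(24,0)]⟩⟩ ⟨false,0,⟨4,[(2,1),(10,4),
  (0,0),(8,1),(0,4),(5,0)]⟩,⟨1,[(0,1),(27,0),(0,0)]⟩⟩,.a ⟨true,0,⟨19,[(4,9),(2,3),(0,3),(14,4),(5,
  0),(1,1)]⟩,⟨4,[(2,1),(11,0),(8,1),(6,0)]⟩⟩ ⟨false,1,⟨2,[(2,0),(10,2),(0,0),(8,0),(3,2),(1,2)]⟩,⟨0,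
  [(0,0)]⟩⟩ ⟨true,0,⟨2,[(2,0),(10,2),(0,0),(8,0),(3,2)]⟩,⟨0,[(0,0)]⟩⟩]⟩) (.I [1,0,-1,0,0,0,0,-1]
  (.R ⟨0,false,false,true,[1,0,-1],[2,-1,-1],[1,0,0,0,0,0,0,-1],(⟨0,[(17,0)]⟩,⟨0,[(18,0)]⟩),(⟨0,
  [(17,0),(3,0)]⟩,⟨0,[(6,0)]⟩),⟨0,[(6,0)]⟩,.k,.k,.k,.k,.k,.k,⟨true,0,⟨0,[(25,0)]⟩,⟨0,[(27,0)]⟩⟩,
  ⟨false,0,⟨9,[(8,3),(0,3),(14,4),(5,0),(1,1)]⟩,⟨1,[(20,0),(8,0)]⟩⟩,⟨true,0,⟨0,[]⟩,⟨0,[(32,0)]⟩⟩,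
  ⟨false,0,⟨1,[(24,0),(2,1),(2,0)]⟩,⟨1,[(20,0),(7,1),(1,0)]⟩⟩,⟨false,0,⟨0,[]⟩,⟨0,[]⟩⟩,⟨false,0,⟨0,
  []⟩,⟨0,[]⟩⟩,[.e ⟨false,0,⟨0,[(0,0)]⟩,⟨7,[(2,3),(1,1),(3,4),(0,4),(17,1),(2,0)]⟩⟩ ⟨false,0,⟨1,[(0,
  0),(3,0),(9,0),(0,0),(8,0),(2,0)]⟩,⟨1,[(0,1),(1,1),(17,0),(9,0)]⟩⟩,.o ⟨false,0,⟨1,[(0,1),(15,1),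
  (7,0),(2,1),(2,0)]⟩,⟨1,[(2,0),(0,0),(16,0),(7,0)]⟩⟩,.a ⟨true,0,⟨19,[(5,9),(2,3),(0,3),(14,4),(5,
  0),(1,1)]⟩,⟨4,[(3,1),(11,0),(8,1),(6,0)]⟩⟩ ⟨true,0,⟨1,[(0,1),(14,0),(0,0)]⟩,⟨1,[(2,0),(23,0),(0,
  0)]⟩⟩ ⟨false,0,⟨1,[(0,1),(14,0),(0,0),(7,0),(2,1),(2,0)]⟩,⟨1,[(0,1),(1,1),(17,0),(9,0)]⟩⟩,.o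
  ⟨false,0,⟨0,[(16,0)]⟩,⟨3,[(3,1),(4,0),(0,0),(19,0)]⟩⟩]⟩) (.I [0,0,-1,0,0,0,0,1] (.S ⟨1,0,[0,0,0,0,
  0,0,0,1],[0,0,1],[1,1],(⟨0,[(19,0)]⟩,⟨0,[(18,0)]⟩),⟨0,[(8,0)]⟩,.k,.k,⟨true,0,⟨0,[(2,0),(25,0)]⟩,
  ⟨1,[(0,0),(0,0)]⟩⟩,⟨false,1,⟨1,[(9,0),(0,0),(20,0)]⟩,⟨0,[]⟩⟩,⟨false,0,⟨0,[(2,0)]⟩,⟨1,[(0,0),(0,0),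
  (26,1),(2,1)]⟩⟩,⟨true,0,⟨0,[(29,0)]⟩,⟨0,[(28,0)]⟩⟩,[.e ⟨false,0,⟨0,[(27,0)]⟩,⟨1,[(9,0),(0,0),(20,
  0)]⟩⟩ ⟨false,0,⟨0,[(0,0)]⟩,⟨1,[(15,1),(0,1),(13,0),(0,0)]⟩⟩,.o ⟨false,1,⟨3,[(0,0),(0,2),(2,1),(26,
  1)]⟩,⟨0,[(15,0)]⟩⟩,.a ⟨true,0,⟨4,[(4,1),(11,0),(8,1),(6,0)]⟩,⟨19,[(6,9),(2,3),(0,3),(14,4),(5,0),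
  (1,1)]⟩⟩ ⟨false,0,⟨0,[]⟩,⟨1,[(9,0),(0,0),(20,0)]⟩⟩ ⟨true,0,⟨1,[(0,0),(0,0)]⟩,⟨0,[(2,0),(25,0)]⟩⟩,
  .e ⟨true,0,⟨0,[(27,0)]⟩,⟨1,[(16,0),(0,0)]⟩⟩ ⟨true,0,⟨0,[(0,0)]⟩,⟨0,[(15,0),(0,0)]⟩⟩]⟩) (.I [0,1,
  -1,-1,0,0,0,-1] (.Q [0,-1,0,1,1,0,0,1,0,-1] (.pp true [-1,1]) (.R ⟨0,false,false,true,[1,0,-1],[2,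
  -1,-1],[1,0,1],(⟨0,[(20,0)]⟩,⟨0,[(21,0)]⟩),(⟨0,[(20,0),(3,0)]⟩,⟨0,[(9,0)]⟩),⟨0,[(9,0)]⟩,.k,.k,.k,
  .k,.k,.k,⟨true,0,⟨0,[(3,0),(24,0)]⟩,⟨0,[(1,0)]⟩⟩,⟨false,0,⟨9,[(11,3),(0,3),(14,4),(5,0),(1,1)]⟩,
  ⟨1,[(23,0),(8,0)]⟩⟩,⟨true,0,⟨0,[(3,0)]⟩,⟨1,[(1,0),(2,0),(24,0)]⟩⟩,⟨false,0,⟨1,[(27,0),(2,1),(2,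
  0)]⟩,⟨3,[(0,1),(3,1),(18,0),(9,0)]⟩⟩,⟨false,0,⟨0,[]⟩,⟨0,[]⟩⟩,⟨false,0,⟨0,[]⟩,⟨0,[]⟩⟩,[.e ⟨false,0,
  ⟨0,[]⟩,⟨1,[(11,0),(0,0),(19,0)]⟩⟩ ⟨false,0,⟨7,[(1,2),(0,4),(4,3),(18,1),(0,3),(2,0)]⟩,⟨0,[(0,
  0)]⟩⟩,.o ⟨false,0,⟨1,[(1,1),(17,1),(7,0),(5,0)]⟩,⟨1,[(5,0),(0,0),(16,0),(7,0)]⟩⟩,.a ⟨true,0,⟨19,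
  [(8,9),(2,3),(0,3),(14,4),(5,0),(1,1)]⟩,⟨4,[(6,1),(11,0),(8,1),(6,0)]⟩⟩ ⟨true,0,⟨1,[(18,0),(0,
  0)]⟩,⟨0,[(29,0)]⟩⟩ ⟨false,0,⟨1,[(1,0),(0,0),(24,0),(2,0),(2,0)]⟩,⟨0,[(0,0)]⟩⟩,.o ⟨false,0,⟨0,[(19,
  0)]⟩,⟨3,[(6,1),(4,0),(0,0),(19,0)]⟩⟩]⟩) (.R ⟨0,false,false,true,[1,0,-1],[2,-1,-1],[1,0,1],(⟨0,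
  [(20,0)]⟩,⟨0,[(21,0)]⟩),(⟨0,[(20,0),(3,0)]⟩,⟨0,[(9,0)]⟩),⟨0,[(9,0)]⟩,.k,.k,.k,.k,.k,.k,⟨true,0,⟨0,
  [(3,0),(24,0)]⟩,⟨0,[(1,0)]⟩⟩,⟨false,0,⟨9,[(11,3),(0,3),(14,4),(5,0),(1,1)]⟩,⟨1,[(23,0),(8,0)]⟩⟩,
  ⟨true,0,⟨0,[(3,0)]⟩,⟨1,[(1,0),(2,0),(24,0)]⟩⟩,⟨false,0,⟨1,[(27,0),(2,1),(2,0)]⟩,⟨1,[(23,0),(7,1),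
  (1,0)]⟩⟩,⟨false,0,⟨0,[]⟩,⟨0,[]⟩⟩,⟨false,0,⟨0,[]⟩,⟨0,[]⟩⟩,[.a ⟨true,(-1),⟨10,[(0,9),(1,0),(4,0),(0,
  5),(2,0),(0,0),(5,0),(8,2),(7,0)]⟩,⟨1,[(5,0),(0,0),(24,0),(1,0)]⟩⟩ ⟨false,0,⟨0,[]⟩,⟨1,[(11,0),(0,
  0),(19,0)]⟩⟩ ⟨true,(-1),⟨0,[(0,0)]⟩,⟨3,[(5,1),(5,0),(0,0),(10,1),(4,1),(4,0)]⟩⟩,.o ⟨false,0,⟨3,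
  [(0,1),(0,0),(0,0),(5,1),(21,0),(2,1)]⟩,⟨1,[(5,0),(0,0),(16,0),(7,0)]⟩⟩,.e ⟨true,0,⟨1,[(18,0),(0,
  0)]⟩,⟨0,[(29,0)]⟩⟩ ⟨true,(-1),⟨0,[(0,0)]⟩,⟨5,[(4,1),(0,3),(5,0),(0,0),(10,2),(8,1)]⟩⟩,.o ⟨false,0,
  ⟨0,[(19,0)]⟩,⟨3,[(6,1),(4,0),(0,0),(19,0)]⟩⟩]⟩)) (.I [0,0,0,0,0,0,0,1] (.S ⟨1,0,[0,0,0,0,0,0,0,1],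
  [0,0,1],[1,1],(⟨0,[(21,0)]⟩,⟨0,[(20,0)]⟩),⟨0,[(10,0)]⟩,.k,.k,⟨true,0,⟨3,[(2,1),(3,0),(10,1),(8,0),
  (0,0)]⟩,⟨0,[(0,0)]⟩⟩,⟨false,1,⟨1,[(11,0),(0,0),(20,0)]⟩,⟨0,[]⟩⟩,⟨false,0,⟨0,[(4,0)]⟩,⟨0,[(0,0),
  (29,0),(2,0)]⟩⟩,⟨true,0,⟨0,[(31,0)]⟩,⟨0,[(30,0)]⟩⟩,[.a ⟨true,0,⟨2,[(0,2),(5,0),(11,0),(8,0)]⟩,⟨0,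
  [(2,0),(12,0)]⟩⟩ ⟨false,0,⟨0,[(29,0)]⟩,⟨1,[(11,0),(0,0),(20,0)]⟩⟩ ⟨true,0,⟨0,[(0,0)]⟩,⟨0,[(2,
  0)]⟩⟩,.o ⟨false,1,⟨1,[(0,0),(2,0),(2,0),(26,0)]⟩,⟨0,[(17,0)]⟩⟩,.a ⟨true,0,⟨4,[(6,1),(11,0),(8,1),
  (6,0)]⟩,⟨19,[(8,9),(2,3),(0,3),(14,4),(5,0),(1,1)]⟩⟩ ⟨false,0,⟨0,[]⟩,⟨1,[(11,0),(0,0),(20,0)]⟩⟩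
  ⟨true,0,⟨0,[(0,0)]⟩,⟨3,[(2,1),(3,0),(10,1),(8,0),(0,0)]⟩⟩,.a ⟨true,0,⟨0,[(18,0)]⟩,⟨0,[(15,0)]⟩⟩
  ⟨true,0,⟨0,[(29,0)]⟩,⟨1,[(18,0),(0,0)]⟩⟩ ⟨false,1,⟨1,[(0,1),(31,0),(0,0)]⟩,⟨0,[(2,0)]⟩⟩]⟩) (.Q [0,
  1,0,-1,-1,0,-2,-2,0,2,-2] (.p false [0,0,1] [2,-1,-1] (⟨0,[(21,0)]⟩,⟨0,[(20,0)]⟩) .k 2 (⟨0,[(20,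
  0),(3,0)]⟩,⟨0,[(9,0)]⟩) .k (.x (-1) ⟨2,[(6,1),(11,1),(1,5),(2,0)]⟩ ⟨0,[(8,0),(0,0),(0,0)]⟩)) (.R
  ⟨0,false,false,false,[1,0,-1],[-1,1,1],[],(⟨0,[(21,0)]⟩,⟨0,[(22,0)]⟩),(⟨0,[(10,0)]⟩,⟨0,[(21,0),(3,
  0)]⟩),⟨0,[(10,0)]⟩,.k,.k,.k,(.r (-1) ⟨0,[(1,0),(1,0),(4,0)]⟩ ⟨0,[(2,0),(1,0),(25,0)]⟩),.k,.k,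
  ⟨false,1,⟨0,[(1,0),(6,0)]⟩,⟨3,[(3,0),(1,0),(0,2)]⟩⟩,⟨true,1,⟨0,[(7,0)]⟩,⟨0,[(0,0),(1,0),(1,0)]⟩⟩,
  ⟨false,1,⟨7,[(6,3),(1,1),(3,0),(0,0),(17,1),(2,4)]⟩,⟨0,[(1,0)]⟩⟩,⟨true,1,⟨0,[(6,0),(0,0)]⟩,⟨0,[(0,
  0)]⟩⟩,⟨false,0,⟨0,[]⟩,⟨0,[]⟩⟩,⟨false,0,⟨0,[]⟩,⟨0,[]⟩⟩,[.o ⟨false,1,⟨1,[(6,0),(0,0),(16,0),(7,0)]⟩,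
  ⟨1,[(0,0),(30,0),(2,0)]⟩⟩,.a ⟨true,1,⟨1,[(6,0),(0,0),(24,0),(1,0)]⟩,⟨1,[(0,0),(27,0),(2,0)]⟩⟩
  ⟨false,1,⟨1,[(33,0),(0,0)]⟩,⟨0,[(36,0)]⟩⟩ ⟨true,1,⟨0,[(2,0),(4,0)]⟩,⟨0,[(0,0),(3,0)]⟩⟩,.e ⟨false,
  1,⟨1,[(12,0),(0,0),(20,0)]⟩,⟨0,[]⟩⟩ ⟨false,1,⟨0,[(2,0),(4,0)]⟩,⟨3,[(0,2),(8,1),(7,1),(13,0),(2,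
  2)]⟩⟩,.o ⟨false,0,⟨0,[(20,0)]⟩,⟨3,[(7,1),(4,0),(0,0),(19,0)]⟩⟩]⟩) (.I [0,0,0,0,0,0,0,-1] (.Q [0,0,
  0,1,0,0,-1,0,0,0,-1] (.p false [0,0,1] [] (⟨0,[(23,0)]⟩,⟨0,[(22,0)]⟩) .k 0 (⟨0,[]⟩,⟨0,[]⟩) .k .k)
  (.R ⟨2,true,false,true,[0,1],[0,0,1],[0,1],(⟨0,[]⟩,⟨0,[]⟩),(⟨0,[(24,0)]⟩,⟨0,[(23,0)]⟩),⟨0,[]⟩,.k,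
  .k,.k,.k,.k,.k,⟨true,0,⟨0,[(1,0)]⟩,⟨0,[(6,0)]⟩⟩,⟨false,0,⟨4,[(9,1),(11,0),(8,1),(6,0)]⟩,⟨3,[(11,
  1),(2,0),(0,0),(10,0),(8,1)]⟩⟩,⟨false,1,⟨3,[(10,1),(3,0),(0,0),(17,1),(2,0)]⟩,⟨0,[(31,0)]⟩⟩,⟨true,
  0,⟨1,[(2,0),(27,0),(2,2)]⟩,⟨0,[(0,0),(2,0)]⟩⟩,⟨true,0,⟨0,[(32,0)]⟩,⟨1,[(21,0),(0,0)]⟩⟩,⟨false,0,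
  ⟨1,[(2,0),(27,0),(2,0)]⟩,⟨0,[(20,0),(15,0)]⟩⟩,[]⟩) (.Q [0,-1,0,0,0,0,-2,-1,0,1,-2] (.p false [0,0,
  1] [1,0,-1] (⟨0,[(24,0)]⟩,⟨0,[(23,0)]⟩) .k 2 (⟨0,[(23,0)]⟩,⟨0,[(24,0)]⟩) .k (.r (-1) ⟨3,[(8,3),(1,
  1),(3,0),(0,0),(17,1),(2,0)]⟩ ⟨0,[(1,1)]⟩)) (.R ⟨0,false,false,true,[1,0,-1],[0,0,1],[1,1],(⟨0,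
  [(24,0)]⟩,⟨0,[(25,0)]⟩),(⟨0,[(25,0)]⟩,⟨0,[(24,0)]⟩),⟨0,[(13,0)]⟩,.k,.k,.k,.k,.k,.k,⟨true,0,⟨0,[(4,
  0)]⟩,⟨0,[(7,0)]⟩⟩,⟨false,1,⟨5,[(10,3),(11,3),(8,0),(4,2)]⟩,⟨0,[(12,0)]⟩⟩,⟨true,0,⟨1,[(9,0),(23,0),
  (0,0)]⟩,⟨0,[(2,0)]⟩⟩,⟨false,1,⟨1,[(3,0),(16,1),(13,0),(2,0)]⟩,⟨0,[(0,0),(3,0)]⟩⟩,⟨false,0,⟨0,[]⟩,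
  ⟨0,[]⟩⟩,⟨false,0,⟨0,[]⟩,⟨0,[]⟩⟩,[.e ⟨false,0,⟨0,[(33,0)]⟩,⟨1,[(15,0),(0,0),(20,0)]⟩⟩ ⟨false,1,⟨3,
  [(10,1),(4,0),(0,0),(3,3),(15,0)]⟩,⟨0,[(0,0)]⟩⟩,.a ⟨true,0,⟨1,[(3,0),(27,0),(2,0)]⟩,⟨9,[(0,1),(5,
  5),(5,1),(8,1),(9,2),(4,2)]⟩⟩ ⟨true,0,⟨0,[]⟩,⟨1,[(22,0),(0,0)]⟩⟩ ⟨false,1,⟨11,[(3,1),(6,5),(0,1),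
  (8,7),(10,1),(4,0),(0,2)]⟩,⟨9,[(0,3),(5,1),(5,3),(8,3),(9,0),(4,0)]⟩⟩,.e ⟨false,0,⟨0,[]⟩,⟨1,[(15,
  0),(0,0),(20,0)]⟩⟩ ⟨false,1,⟨5,[(10,1),(9,5),(1,1),(4,0),(9,2)]⟩,⟨0,[(0,0)]⟩⟩,.o ⟨false,0,⟨0,[(23,
  0)]⟩,⟨3,[(10,1),(4,0),(0,0),(19,0)]⟩⟩]⟩) (.Q [0,1,0,-1,-1,0,-1,-1,0,2,-1] (.p false [-1,1,1] [1]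
  (⟨0,[(13,0)]⟩,⟨0,[(24,0),(3,0)]⟩) .k 1 (⟨0,[]⟩,⟨0,[]⟩) .k .k) (.K ⟨0,[2,-1,-1],(-1),(-1),(⟨0,[(25,
  0),(3,0)]⟩,⟨0,[(14,0)]⟩),.k,(.r (-1) ⟨0,[(2,1),(2,0),(14,1),(7,0)]⟩ ⟨3,[(7,2),(1,2),(0,4)]⟩),.k,
  (.r (-1) ⟨0,[(5,0),(1,0),(4,0)]⟩ ⟨0,[(0,0),(1,0),(3,2),(21,0),(5,1)]⟩),.k,[⟨0,[(11,0)]⟩,⟨0,[(0,0),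
  (7,0),(24,0)]⟩,⟨2,[(4,0),(4,0),(0,0),(12,0),(4,1),(2,1)]⟩,⟨0,[(0,0)]⟩]⟩) (.R ⟨0,false,false,true,
  [1,0,-1],[2,-1,-1],[1,0,0,0,0,0,0,-1],(⟨0,[(25,0)]⟩,⟨0,[(26,0)]⟩),(⟨0,[(25,0),(3,0)]⟩,⟨0,[(14,
  0)]⟩),⟨0,[(14,0)]⟩,.k,.k,.k,.k,.k,.k,⟨true,0,⟨0,[(33,0)]⟩,⟨0,[(35,0)]⟩⟩,⟨false,0,⟨9,[(16,3),(0,3),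
  (14,4),(5,0),(1,1)]⟩,⟨1,[(28,0),(8,0)]⟩⟩,⟨true,0,⟨0,[]⟩,⟨0,[(40,0)]⟩⟩,⟨false,0,⟨1,[(32,0),(2,1),
  (2,0)]⟩,⟨13,[(0,3),(8,7),(0,1),(2,1),(14,3),(8,0),(0,4)]⟩⟩,⟨false,0,⟨0,[]⟩,⟨0,[]⟩⟩,⟨false,0,⟨0,
  []⟩,⟨0,[]⟩⟩,[.o ⟨false,0,⟨2,[(7,1),(4,0),(0,0),(8,0),(9,0),(2,1)]⟩,⟨0,[(0,0)]⟩⟩,.o ⟨false,0,⟨0,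
  [(2,0),(2,0),(7,0)]⟩,⟨12,[(0,9),(8,0),(0,1),(12,2),(4,2),(2,4)]⟩⟩,.a ⟨true,0,⟨19,[(13,9),(2,3),(0,
  3),(14,4),(5,0),(1,1)]⟩,⟨9,[(1,1),(1,1),(7,1),(11,1),(8,2),(5,0)]⟩⟩ ⟨true,0,⟨0,[(5,0)]⟩,⟨1,[(10,
  0),(23,0),(0,0)]⟩⟩ ⟨false,0,⟨1,[(5,1),(26,0),(2,1),(2,0)]⟩,⟨13,[(0,7),(8,1),(0,3),(2,3),(14,0),(8,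
  1),(0,2)]⟩⟩,.o ⟨false,0,⟨0,[(24,0)]⟩,⟨3,[(11,1),(4,0),(0,0),(19,0)]⟩⟩]⟩)))) (.N [0,0,1] 0 ⟨0,[(0,
  0)]⟩ ⟨0,[(2,0)]⟩ .k))))))))) (.Q [0,0,0,0,0,0,1,1,0,0,1] (.p true [0,0,1] [] (⟨0,[(15,0)]⟩,⟨0,
  [(14,0)]⟩) .k 0 (⟨0,[]⟩,⟨0,[]⟩) .k .k) (.I [0,0,-2,-2,1] (.I [0,0,0,0,0,0,0,1] (.I [0,0,-1,0,1,0,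
  0,-1] (.I [0,0,1,1,0,0,0,-1] (.Q [0,0,0,1,0,0,-1,-1,0,0,-1] (.p false [0,0,1] [] (⟨0,[(20,0)]⟩,⟨0,
  [(19,0)]⟩) .k 0 (⟨0,[]⟩,⟨0,[]⟩) .k .k) (.Q [0,0,0,0,0,0,-1,0,0,0,-1] (.p false [0,0,1] [] (⟨0,
  [(21,0)]⟩,⟨0,[(20,0)]⟩) .k 0 (⟨0,[]⟩,⟨0,[]⟩) .k .k) (.R ⟨2,true,false,false,[0,1],[0,0,1],[0,1,1,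
  1],(⟨0,[]⟩,⟨0,[]⟩),(⟨0,[(22,0)]⟩,⟨0,[(21,0)]⟩),⟨0,[]⟩,.k,.k,.k,.k,.k,.k,⟨false,0,⟨0,[(2,0),(27,
  0)]⟩,⟨1,[(4,1),(0,0),(28,0)]⟩⟩,⟨true,0,⟨0,[(19,0)]⟩,⟨0,[(0,0)]⟩⟩,⟨true,0,⟨0,[(36,0)]⟩,⟨0,[]⟩⟩,
  ⟨false,1,⟨0,[(6,0),(24,0),(2,0)]⟩,⟨0,[(1,0)]⟩⟩,⟨false,0,⟨0,[(32,0)]⟩,⟨0,[(31,0),(2,0)]⟩⟩,⟨true,0,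
  ⟨0,[(6,0)]⟩,⟨0,[(18,0)]⟩⟩,[]⟩) (.S ⟨1,1,[],[0,0,1],[1,1],(⟨0,[(22,0)]⟩,⟨0,[(21,0)]⟩),⟨0,[(11,0)]⟩,
  .k,.k,⟨true,0,⟨0,[(0,0),(17,0)]⟩,⟨0,[(4,0)]⟩⟩,⟨false,1,⟨0,[(18,0),(15,0)]⟩,⟨0,[(6,0)]⟩⟩,⟨false,0,
  ⟨0,[(0,0),(0,0)]⟩,⟨0,[(4,0),(26,0),(2,0)]⟩⟩,⟨true,0,⟨0,[(1,0)]⟩,⟨0,[(6,0),(24,0)]⟩⟩,[.fo,.o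
  ⟨false,1,⟨1,[(24,0),(9,0)]⟩,⟨0,[(36,0)]⟩⟩,.e ⟨false,0,⟨0,[]⟩,⟨1,[(12,0),(0,0),(20,0)]⟩⟩ ⟨false,1,
  ⟨3,[(9,1),(2,0),(0,0),(10,0),(9,1)]⟩,⟨0,[(0,0)]⟩⟩,.a ⟨true,0,⟨0,[(19,0)]⟩,⟨0,[(16,0)]⟩⟩ ⟨true,0,
  ⟨0,[(30,0)]⟩,⟨1,[(19,0),(0,0)]⟩⟩ ⟨false,1,⟨1,[(16,1),(7,0),(9,0)]⟩,⟨0,[(19,0)]⟩⟩]⟩)) (.Q [0,0,2,0,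
  -1,0,1,1,0,0,1] (.p true [0,0,1] [] (⟨0,[(21,0)]⟩,⟨0,[(20,0)]⟩) .k 0 (⟨0,[]⟩,⟨0,[]⟩) .k .k) (.I
  [1,1,0,-1,0,0,0,-1] (.R ⟨1,false,false,false,[1,-1],[1,0,-1],[0,1,-1,-1],(⟨0,[(26,0)]⟩,⟨0,[(27,
  0)]⟩),(⟨0,[(22,0)]⟩,⟨0,[(23,0)]⟩),⟨3,[(24,5),(1,1),(2,0),(1,1),(3,0),(0,1)]⟩,.k,.k,(.r (-1) ⟨0,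
  [(6,0)]⟩ ⟨2,[(3,1),(14,1),(2,1),(8,1),(2,1)]⟩),.k,(.r (-1) ⟨0,[(5,0),(0,0)]⟩ ⟨2,[(3,3),(14,0),(2,
  0),(8,0),(2,0)]⟩),.k,⟨true,0,⟨1,[(1,1),(4,0),(10,1),(7,0),(5,1)]⟩,⟨0,[(0,0),(29,1)]⟩⟩,⟨false,1,⟨1,
  [(17,1),(7,0),(8,0)]⟩,⟨0,[(20,0)]⟩⟩,⟨true,0,⟨0,[(37,0)]⟩,⟨0,[]⟩⟩,⟨false,1,⟨1,[(3,1),(13,1),(7,0),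
  (9,0)]⟩,⟨0,[(2,0)]⟩⟩,⟨false,0,⟨0,[(33,0)]⟩,⟨0,[(32,0),(2,0)]⟩⟩,⟨false,1,⟨1,[(3,1),(13,1),(7,0),(7,
  1),(1,0)]⟩,⟨0,[(1,0),(4,0)]⟩⟩,[.a ⟨true,0,⟨1,[(19,1),(9,0),(5,0)]⟩,⟨0,[(7,0)]⟩⟩ ⟨false,1,⟨15,[(4,
  3),(1,7),(3,1),(7,3),(6,0),(2,5),(5,2)]⟩,⟨0,[(30,0)]⟩⟩ ⟨true,1,⟨3,[(4,1),(12,1),(1,1),(5,0),(9,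
  0)]⟩,⟨0,[(1,0)]⟩⟩,.o ⟨false,1,⟨0,[(19,0),(15,0)]⟩,⟨1,[(1,0),(5,0),(17,0),(5,1)]⟩⟩,.o ⟨false,0,⟨1,
  [(20,0),(0,0)]⟩,⟨1,[(25,0),(8,0)]⟩⟩,.e ⟨false,1,⟨0,[(9,0)]⟩,⟨1,[(20,0),(0,0),(8,1)]⟩⟩ ⟨false,2,⟨1,
  [(4,1),(12,1),(7,0),(9,0)]⟩,⟨0,[(1,0)]⟩⟩]⟩) (.S ⟨1,0,[0,1,-1,-1,0,0,0,1],[0,-1,1],[0,0,-1,-1,0,0,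
  0,1],(⟨0,[(12,0)]⟩,⟨0,[(22,0),(4,0)]⟩),⟨12,[(0,4),(0,3),(1,8),(2,6),(1,1),(2,5),(0,6),(11,24),(4,
  0),(1,4)]⟩,.k,(.r (-1) ⟨0,[(5,0),(0,0)]⟩ ⟨2,[(3,3),(14,0),(2,0),(8,0),(2,0)]⟩),⟨false,1,⟨1,[(13,
  0),(0,0),(20,0)]⟩,⟨0,[]⟩⟩,⟨true,0,⟨0,[(37,0)]⟩,⟨0,[]⟩⟩,⟨true,0,⟨0,[(33,0)]⟩,⟨0,[(32,0)]⟩⟩,⟨false,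
  0,⟨0,[(33,0)]⟩,⟨0,[(32,0),(2,0)]⟩⟩,[.o ⟨false,0,⟨1,[(1,1),(4,0),(18,0),(5,1)]⟩,⟨1,[(3,1),(13,1),
  (7,0),(9,0)]⟩⟩,.e ⟨false,1,⟨0,[(0,0),(5,0)]⟩,⟨0,[(3,0),(33,0)]⟩⟩ ⟨false,1,⟨1,[(5,1),(0,0),(27,
  0)]⟩,⟨0,[(3,0)]⟩⟩,.a ⟨true,0,⟨0,[(20,0)]⟩,⟨0,[(17,0)]⟩⟩ ⟨false,1,⟨1,[(5,1),(0,0),(28,0)]⟩,⟨0,[(3,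
  0)]⟩⟩ ⟨true,0,⟨2,[(0,0),(0,1),(4,1),(1,0),(16,0),(5,3)]⟩,⟨0,[(3,0)]⟩⟩,.o ⟨false,0,⟨1,[(1,1),(1,1),
  (2,0),(18,0)]⟩,⟨1,[(17,1),(7,0),(8,0)]⟩⟩]⟩)) (.Q [0,0,0,0,0,0,1,0,0,0,1] (.p true [0,0,1] [] (⟨0,
  [(22,0)]⟩,⟨0,[(21,0)]⟩) .k 0 (⟨0,[]⟩,⟨0,[]⟩) .k .k) (.I [1,0,0,-1,0,0,0,1] (.S ⟨1,0,[0,1,1,1,0,0,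
  0,-1],[1,1,-1],[0,0,1,1,0,0,0,-1],(⟨0,[(23,0),(4,0)]⟩,⟨0,[(13,0)]⟩),⟨0,[(23,0)]⟩,.k,.k,⟨false,1,
  ⟨1,[(14,0),(0,0),(20,0)]⟩,⟨0,[]⟩⟩,⟨true,0,⟨0,[(38,0)]⟩,⟨0,[]⟩⟩,⟨true,0,⟨0,[(34,0)]⟩,⟨0,[(33,0)]⟩⟩,
  ⟨false,0,⟨0,[(34,0)]⟩,⟨0,[(33,0),(2,0)]⟩⟩,[.o ⟨false,0,⟨0,[(20,0),(13,0)]⟩,⟨1,[(3,1),(22,0),(9,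
  0)]⟩⟩,.a ⟨true,0,⟨0,[(4,0),(13,0)]⟩,⟨0,[(3,0)]⟩⟩ ⟨false,1,⟨1,[(4,0),(0,0),(28,0),(1,0)]⟩,⟨0,[(0,
  0),(31,0)]⟩⟩ ⟨true,0,⟨0,[(4,0)]⟩,⟨0,[(0,0)]⟩⟩,.a ⟨true,0,⟨0,[(18,0)]⟩,⟨0,[(21,0)]⟩⟩ ⟨true,0,⟨0,
  [(4,0)]⟩,⟨0,[(0,0),(31,0)]⟩⟩ ⟨false,0,⟨0,[(4,0)]⟩,⟨1,[(6,1),(0,0),(28,0)]⟩⟩,.a ⟨true,0,⟨9,[(5,1),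
  (3,1),(1,3),(7,1),(10,0),(5,0)]⟩,⟨0,[(1,0)]⟩⟩ ⟨false,1,⟨1,[(4,0),(0,0),(28,0),(1,0)]⟩,⟨0,[(0,
  0)]⟩⟩ ⟨true,0,⟨0,[(4,0),(27,0)]⟩,⟨0,[(0,0)]⟩⟩]⟩) (.S ⟨1,0,[0,1,1,1,0,0,0,-1],[1,1,-1],[0,0,1],(⟨0,
  [(23,0),(4,0)]⟩,⟨0,[(13,0)]⟩),⟨0,[(23,0)]⟩,.k,.k,⟨false,1,⟨5,[(3,3),(3,0),(3,1),(7,1),(2,1),(3,0),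
  (9,3)]⟩,⟨0,[(0,0)]⟩⟩,⟨true,0,⟨0,[(38,0)]⟩,⟨0,[]⟩⟩,⟨true,0,⟨0,[(6,0)]⟩,⟨0,[(0,0),(32,0)]⟩⟩,⟨false,
  0,⟨0,[(34,0)]⟩,⟨0,[(33,0),(2,0)]⟩⟩,[.o ⟨false,0,⟨0,[(20,0),(13,0)]⟩,⟨1,[(3,1),(22,0),(9,0)]⟩⟩,.e
  ⟨false,1,⟨1,[(14,0),(0,0),(20,0)]⟩,⟨0,[(32,0)]⟩⟩ ⟨false,0,⟨0,[(0,0)]⟩,⟨5,[(6,1),(0,2),(3,1),(7,3),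
  (6,0),(9,1)]⟩⟩,.a ⟨true,0,⟨0,[(18,0)]⟩,⟨0,[(21,0)]⟩⟩ ⟨true,0,⟨1,[(21,0),(0,0)]⟩,⟨0,[(32,0)]⟩⟩
  ⟨false,0,⟨0,[(4,0)]⟩,⟨1,[(6,1),(0,0),(28,0)]⟩⟩,.e ⟨false,1,⟨1,[(14,0),(0,0),(20,0)]⟩,⟨0,[]⟩⟩
  ⟨false,0,⟨0,[(0,0)]⟩,⟨5,[(3,3),(3,0),(3,1),(7,1),(2,1),(3,0),(9,3)]⟩⟩]⟩)) (.Q [0,-1,0,1,0,0,-1,-1,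
  0,1,-1] (.p false [0,0,1] [1] (⟨0,[(23,0)]⟩,⟨0,[(22,0)]⟩) .k 1 (⟨0,[]⟩,⟨0,[]⟩) .k .k) (.S ⟨1,0,[0,
  0,1,1,0,0,0,-1],[1,1,-1],[0,1,1,1,0,0,0,-1],(⟨0,[(23,0),(4,0)]⟩,⟨0,[(13,0)]⟩),⟨0,[(23,0)]⟩,.k,.k,
  ⟨true,0,⟨0,[(38,0)]⟩,⟨0,[]⟩⟩,⟨false,1,⟨1,[(14,0),(0,0),(20,0)]⟩,⟨0,[]⟩⟩,⟨false,0,⟨0,[(34,0)]⟩,⟨0,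
  [(33,0),(2,0)]⟩⟩,⟨true,0,⟨0,[(34,0)]⟩,⟨0,[(33,0)]⟩⟩,[.a ⟨true,0,⟨9,[(0,6),(3,2),(0,0),(3,0),(1,0),
  (7,0),(9,2)]⟩,⟨0,[(3,0)]⟩⟩ ⟨false,0,⟨0,[(4,0),(27,0)]⟩,⟨1,[(6,1),(0,0),(28,0)]⟩⟩ ⟨true,0,⟨0,[(4,
  0)]⟩,⟨0,[(1,0),(1,0)]⟩⟩,.a ⟨true,0,⟨0,[(0,0)]⟩,⟨1,[(3,0),(15,0),(13,0)]⟩⟩ ⟨true,0,⟨0,[(4,0)]⟩,⟨0,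
  [(1,0),(1,0)]⟩⟩ ⟨false,1,⟨1,[(4,0),(0,0),(28,0),(1,0)]⟩,⟨0,[(1,0),(1,0),(28,0)]⟩⟩,.a ⟨true,0,⟨0,
  [(18,0)]⟩,⟨0,[(21,0)]⟩⟩ ⟨false,0,⟨0,[(4,0)]⟩,⟨1,[(6,1),(0,0),(28,0)]⟩⟩ ⟨true,0,⟨0,[(4,0)]⟩,⟨0,[(1,
  0),(1,0),(28,0)]⟩⟩,.o ⟨false,0,⟨0,[(1,0)]⟩,⟨1,[(5,0),(2,0),(12,0),(4,0)]⟩⟩]⟩) (.Q [0,0,0,-2,0,0,1,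
  1,0,0,1] (.p true [0,0,1] [] (⟨0,[(24,0)]⟩,⟨0,[(23,0)]⟩) .k 0 (⟨0,[]⟩,⟨0,[]⟩) .k .k) (.Q [0,0,2,0,
  -1,0,0,0,0,1] (.pp false [-1,1]) (.R ⟨1,false,false,false,[1,-1],[1,0,-1],[1,1,-1,-2],(⟨0,[(29,
  0)]⟩,⟨0,[(30,0)]⟩),(⟨0,[(25,0)]⟩,⟨0,[(26,0)]⟩),⟨3,[(9,0),(17,5),(1,1),(2,0),(3,1),(2,1)]⟩,.k,.k,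
  (.r (-1) ⟨0,[(9,0)]⟩ ⟨2,[(6,1),(14,1),(2,1),(8,1),(2,1)]⟩),.k,(.r (-1) ⟨0,[(8,0),(0,0)]⟩ ⟨2,[(6,
  3),(14,0),(2,0),(8,0),(2,0)]⟩),.k,⟨true,0,⟨0,[(1,0),(1,0),(30,0)]⟩,⟨0,[(6,0),(26,0)]⟩⟩,⟨false,1,
  ⟨1,[(20,1),(7,0),(8,0)]⟩,⟨0,[(23,0)]⟩⟩,⟨true,0,⟨0,[(35,0)]⟩,⟨0,[(36,0)]⟩⟩,⟨false,1,⟨5,[(4,1),(1,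
  3),(6,1),(14,0),(7,1),(1,2)]⟩,⟨0,[(5,0)]⟩⟩,⟨false,0,⟨0,[]⟩,⟨1,[(16,0),(0,0),(20,0)]⟩⟩,⟨false,1,⟨5,
  [(4,1),(1,3),(6,1),(14,0),(7,7),(1,2)]⟩,⟨0,[(1,0)]⟩⟩,[.e ⟨false,1,⟨25,[(7,3),(1,20),(3,1),(7,3),
  (6,0),(2,5),(3,9)]⟩,⟨0,[(33,0),(2,0)]⟩⟩ ⟨false,1,⟨0,[(4,0)]⟩,⟨3,[(0,1),(9,1),(10,1),(6,0),(9,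
  0)]⟩⟩,.o ⟨false,1,⟨0,[(22,0),(15,0)]⟩,⟨0,[(2,0),(33,0)]⟩⟩,.o ⟨false,0,⟨1,[(23,0),(0,0)]⟩,⟨1,[(28,
  0),(8,0)]⟩⟩,.a ⟨true,(-1),⟨0,[(0,0)]⟩,⟨0,[(37,0)]⟩⟩ ⟨false,1,⟨0,[(9,0)]⟩,⟨2,[(6,0),(14,0),(2,0),
  (8,3),(2,0)]⟩⟩ ⟨true,1,⟨0,[(4,0)]⟩,⟨0,[(0,0),(1,0),(33,0)]⟩⟩]⟩) (.R ⟨0,false,false,false,[1,0,-1],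
  [1,-1],[0,0,1],(⟨0,[(25,0)]⟩,⟨0,[(26,0)]⟩),(⟨0,[(29,0)]⟩,⟨0,[(30,0)]⟩),⟨0,[(14,0)]⟩,.k,.k,.k,.k,
  .k,.k,⟨false,0,⟨2,[(6,0),(14,0),(2,0),(8,0),(2,0)]⟩,⟨1,[(9,0),(27,0)]⟩⟩,⟨true,0,⟨0,[(23,0)]⟩,⟨0,
  [(3,0)]⟩⟩,⟨false,0,⟨1,[(1,0),(1,0),(4,0),(24,1)]⟩,⟨0,[(7,0)]⟩⟩,⟨true,0,⟨0,[(5,0)]⟩,⟨0,[(22,0),(13,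
  0)]⟩⟩,⟨false,0,⟨0,[]⟩,⟨0,[]⟩⟩,⟨false,0,⟨0,[]⟩,⟨0,[]⟩⟩,[.a ⟨true,0,⟨5,[(9,2),(1,1),(11,3),(8,0)]⟩,
  ⟨0,[(36,0)]⟩⟩ ⟨true,0,⟨1,[(23,0),(0,0)]⟩,⟨0,[]⟩⟩ ⟨false,1,⟨1,[(7,0),(1,0),(0,0),(12,0)]⟩,⟨0,[(3,
  0),(32,0)]⟩⟩,.e ⟨false,1,⟨1,[(16,0),(0,0),(20,0)]⟩,⟨0,[(34,0)]⟩⟩ ⟨false,1,⟨1,[(0,1),(0,1),(4,1),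
  (25,0),(5,0)]⟩,⟨1,[(11,0),(16,0),(2,0),(4,1)]⟩⟩,.o ⟨false,0,⟨0,[(3,0)]⟩,⟨7,[(0,1),(6,1),(13,1),(1,
  5),(4,2),(9,0)]⟩⟩,.o ⟨false,0,⟨0,[(24,0)]⟩,⟨0,[(0,0),(22,0)]⟩⟩]⟩)) (.R ⟨1,true,false,false,[0,0,
  1],[0,1],[1,1,0,-1,0,0,0,1],(⟨0,[(25,0)]⟩,⟨0,[(24,0)]⟩),(⟨0,[(29,0)]⟩,⟨0,[(28,0)]⟩),⟨0,[(14,0)]⟩,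
  .k,.k,.k,.k,(.r (-1) ⟨0,[(7,0),(0,0)]⟩ ⟨6,[(0,0),(4,8),(14,2),(2,1),(8,2)]⟩),.k,⟨true,0,⟨1,[(1,1),
  (0,1),(5,0),(22,0)]⟩,⟨0,[(5,0),(26,0)]⟩⟩,⟨false,1,⟨1,[(19,1),(7,0),(8,0)]⟩,⟨0,[(22,0)]⟩⟩,⟨true,0,
  ⟨0,[(34,0)]⟩,⟨0,[(35,0)]⟩⟩,⟨false,1,⟨5,[(0,1),(4,1),(0,1),(5,1),(14,0),(9,2)]⟩,⟨0,[(4,0)]⟩⟩,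
  ⟨false,0,⟨0,[]⟩,⟨1,[(15,0),(0,0),(20,0)]⟩⟩,⟨true,0,⟨0,[(0,0)]⟩,⟨0,[(4,0),(29,0)]⟩⟩,[]⟩)))))) (.S
  ⟨1,0,[0,0,0,0,0,0,0,1],[0,0,1],[1,1,0,-1,0,0,0,1],(⟨0,[(20,0)]⟩,⟨0,[(19,0)]⟩),⟨0,[(9,0)]⟩,.k,.k,
  ⟨true,0,⟨0,[(29,0)]⟩,⟨0,[(30,0)]⟩⟩,⟨false,1,⟨1,[(10,0),(0,0),(20,0)]⟩,⟨0,[]⟩⟩,⟨false,0,⟨0,[]⟩,⟨1,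
  [(10,0),(0,0),(20,0)]⟩⟩,⟨true,0,⟨0,[(30,0)]⟩,⟨0,[(29,0)]⟩⟩,[.e ⟨false,0,⟨2,[(0,1),(1,0),(22,0),(3,
  0)]⟩,⟨0,[(1,0),(25,0)]⟩⟩ ⟨false,0,⟨0,[(0,0),(29,0)]⟩,⟨1,[(1,1),(15,0),(0,0)]⟩⟩,.o ⟨false,1,⟨1,[(4,
  1),(17,0),(9,0)]⟩,⟨0,[(16,0)]⟩⟩,.o ⟨false,1,⟨1,[(1,0),(2,0),(12,0),(4,0)]⟩,⟨0,[(0,0),(15,0),(10,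
  0)]⟩⟩,.a ⟨true,0,⟨0,[(17,0)]⟩,⟨0,[(14,0)]⟩⟩ ⟨false,0,⟨0,[(0,0)]⟩,⟨1,[(1,1),(15,0),(0,0),(8,1)]⟩⟩
  ⟨true,0,⟨0,[(0,0),(29,0)]⟩,⟨0,[(16,0),(0,0)]⟩⟩]⟩)) (.R ⟨0,false,false,true,[1,0,-1],[1,-1],[1,0,
  1],(⟨0,[(18,0)]⟩,⟨0,[(19,0)]⟩),(⟨0,[(22,0)]⟩,⟨0,[(23,0)]⟩),⟨0,[(7,0)]⟩,.k,.k,.k,.k,.k,.k,⟨false,0,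
  ⟨0,[(26,0)]⟩,⟨3,[(2,1),(6,0),(0,0),(13,1),(5,0)]⟩⟩,⟨true,0,⟨0,[(16,0)]⟩,⟨3,[(0,1),(12,1),(1,1),(5,
  0),(9,0)]⟩⟩,⟨true,(-1),⟨0,[(0,0)]⟩,⟨0,[(15,0),(0,0),(13,0)]⟩⟩,⟨false,0,⟨1,[(0,0),(1,0),(0,0),(12,
  0)]⟩,⟨0,[(15,0),(13,0),(1,0)]⟩⟩,⟨false,0,⟨0,[]⟩,⟨0,[]⟩⟩,⟨false,0,⟨0,[]⟩,⟨0,[]⟩⟩,[.o ⟨false,0,⟨0,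
  [(28,0)]⟩,⟨1,[(21,0),(7,1),(1,0)]⟩⟩,.e ⟨false,1,⟨1,[(9,0),(0,0),(20,0)]⟩,⟨0,[(27,0)]⟩⟩ ⟨false,1,
  ⟨1,[(2,0),(13,1),(13,0)]⟩,⟨2,[(0,0),(12,1),(1,0),(5,0),(4,0),(2,1)]⟩⟩,.o ⟨false,0,⟨3,[(0,1),(12,
  1),(1,1),(5,0),(9,0)]⟩,⟨1,[(16,1),(4,0),(8,0)]⟩⟩,.a ⟨true,(-1),⟨1,[(0,1),(14,1),(9,0),(5,0)]⟩,⟨0,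
  [(16,0),(13,0)]⟩⟩ ⟨true,0,⟨0,[]⟩,⟨0,[(33,0)]⟩⟩ ⟨false,1,⟨1,[(2,0),(13,1),(13,0)]⟩,⟨3,[(0,1),(12,
  1),(1,1),(5,0),(4,3),(4,0)]⟩⟩]⟩)) (.Q [0,1,0,-1,-1,0,-2,-2,0,2,-2] (.p false [0,0,1] [2,-1,-1]
  (⟨0,[(18,0)]⟩,⟨0,[(17,0)]⟩) .k 2 (⟨0,[(17,0),(3,0)]⟩,⟨0,[(6,0)]⟩) .k (.x (-1) ⟨0,[(0,1),(1,1),(14,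
  1),(2,0)]⟩ ⟨0,[(5,0),(0,0),(0,0)]⟩)) (.R ⟨0,false,false,true,[-1,1,1],[1,0,-1],[],(⟨0,[(7,0)]⟩,⟨0,
  [(18,0),(3,0)]⟩),(⟨0,[(18,0)]⟩,⟨0,[(19,0)]⟩),⟨0,[(18,0)]⟩,.k,.k,.k,(.r 0 ⟨0,[(3,1),(0,0),(16,0),
  (7,0)]⟩ ⟨1,[(1,3),(0,0),(6,0),(0,0)]⟩),.k,.k,⟨false,1,⟨1,[(3,1),(9,1),(7,0),(9,0)]⟩,⟨2,[(1,1),(13,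
  0),(0,0),(7,0)]⟩⟩,⟨true,(-1),⟨0,[(4,0)]⟩,⟨0,[(1,1),(1,1),(17,0)]⟩⟩,⟨false,1,⟨1,[(1,1),(0,0),(28,
  0)]⟩,⟨1,[(3,0),(0,0),(9,0),(6,0),(4,0),(2,0)]⟩⟩,⟨true,(-1),⟨0,[(0,0)]⟩,⟨0,[(3,1),(17,0),(7,0)]⟩⟩,
  ⟨false,0,⟨0,[]⟩,⟨0,[]⟩⟩,⟨false,0,⟨0,[]⟩,⟨0,[]⟩⟩,[.o ⟨false,0,⟨0,[(15,0)]⟩,⟨1,[(3,1),(17,0),(9,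
  0)]⟩⟩,.a ⟨true,0,⟨3,[(0,1),(8,0),(0,0),(18,1),(1,0)]⟩,⟨0,[(3,0)]⟩⟩ ⟨false,1,⟨1,[(30,0),(0,0)]⟩,⟨0,
  [(33,0)]⟩⟩ ⟨true,(-1),⟨1,[(0,0),(3,0),(21,0)]⟩,⟨0,[(1,0),(1,1),(17,0)]⟩⟩,.e ⟨false,1,⟨1,[(9,0),(0,
  0),(20,0)]⟩,⟨0,[]⟩⟩ ⟨false,(-1),⟨1,[(0,0),(3,0),(21,0)]⟩,⟨1,[(1,1),(1,3),(17,1),(8,0),(0,0)]⟩⟩,.o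
  ⟨false,1,⟨0,[(1,0),(1,0),(17,0)]⟩,⟨7,[(4,1),(1,1),(2,1),(0,1),(14,0),(4,0)]⟩⟩]⟩) (.R ⟨1,true,
  false,true,[0,0,1],[2,-1,-1],[0,1,0,0,0,0,0,1],(⟨0,[(19,0)]⟩,⟨0,[(18,0)]⟩),(⟨0,[(18,0),(3,0)]⟩,⟨0,
  [(7,0)]⟩),⟨0,[(8,0)]⟩,.k,.k,.k,(.r 0 ⟨4,[(0,3),(3,3),(9,1),(2,1),(6,0),(4,0)]⟩ ⟨1,[(1,3),(0,0),(6,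
  0),(0,0)]⟩),.k,.k,⟨false,0,⟨0,[(0,0),(3,0),(22,0)]⟩,⟨1,[(1,3),(0,0),(6,0),(0,0)]⟩⟩,⟨true,(-1),⟨0,
  [(4,0)]⟩,⟨0,[(0,0),(0,1),(26,0)]⟩⟩,⟨true,0,⟨0,[(33,0)]⟩,⟨0,[]⟩⟩,⟨false,0,⟨5,[(1,5),(0,2),(1,3),
  (10,5),(0,1),(8,1),(5,2)]⟩,⟨0,[(0,0)]⟩⟩,⟨false,0,⟨0,[(29,0)]⟩,⟨0,[(28,0),(2,0)]⟩⟩,⟨true,(-1),⟨0,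
  [(1,1),(2,0),(22,0)]⟩,⟨0,[(0,0),(27,0)]⟩⟩,[]⟩))) (.I [0,0,2,2,-1] (.Q [0,0,2,0,-1,0,0,0,0,1] (.pp
  false [-1,1]) (.S ⟨1,0,[0,1,-1,-1],[1,-1],[1,0,1],(⟨0,[(22,0)]⟩,⟨0,[(23,0)]⟩),⟨3,[(20,5),(1,1),(2,
  0),(1,1),(3,0),(0,1)]⟩,.k,(.r (-2) ⟨1,[(5,1),(3,0),(0,0),(17,1),(2,0)]⟩ ⟨0,[(1,0)]⟩),⟨false,0,⟨1,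
  [(1,0),(14,0),(0,0),(13,0)]⟩,⟨0,[(5,0)]⟩⟩,⟨true,0,⟨0,[(33,0)]⟩,⟨0,[]⟩⟩,⟨true,(-1),⟨0,[(2,0)]⟩,⟨0,
  [(5,0),(22,0)]⟩⟩,⟨false,0,⟨0,[(29,0)]⟩,⟨0,[(28,0),(2,0)]⟩⟩,[.o ⟨false,0,⟨0,[(28,0)]⟩,⟨1,[(21,0),
  (7,1),(1,0)]⟩⟩,.e ⟨false,1,⟨1,[(9,0),(0,0),(20,0)]⟩,⟨0,[(27,0)]⟩⟩ ⟨false,1,⟨0,[(5,0)]⟩,⟨1,[(1,0),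
  (7,0),(0,0)]⟩⟩,.o ⟨false,0,⟨1,[(16,0),(0,0)]⟩,⟨1,[(21,0),(8,0)]⟩⟩,.a ⟨true,(-1),⟨0,[(0,0)]⟩,⟨0,
  [(30,0)]⟩⟩ ⟨true,0,⟨0,[]⟩,⟨0,[(33,0)]⟩⟩ ⟨false,1,⟨0,[(5,0)]⟩,⟨1,[(1,0),(14,0),(0,0),(13,0)]⟩⟩]⟩)
  (.S ⟨1,2,[],[1,-1],[0,0,1],(⟨0,[(22,0)]⟩,⟨0,[(23,0)]⟩),⟨3,[(20,5),(1,1),(2,0),(1,1),(3,0),(0,1)]⟩,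
  .k,(.r (-2) ⟨1,[(5,1),(3,0),(0,0),(17,1),(2,0)]⟩ ⟨0,[(1,0)]⟩),⟨false,0,⟨1,[(1,0),(14,0),(0,0),(13,
  0)]⟩,⟨0,[(5,0)]⟩⟩,⟨true,0,⟨1,[(1,0),(19,0),(5,1)]⟩,⟨1,[(25,0),(2,1),(2,0)]⟩⟩,⟨true,(-1),⟨0,[(1,
  0)]⟩,⟨0,[(5,0),(22,0)]⟩⟩,⟨false,0,⟨0,[(0,0),(0,0)]⟩,⟨1,[(25,0),(2,3),(2,2)]⟩⟩,[.a ⟨true,0,⟨0,[(33,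
  0)]⟩,⟨1,[(25,0),(5,0)]⟩⟩ ⟨true,0,⟨1,[(16,0),(0,0)]⟩,⟨0,[]⟩⟩ ⟨false,1,⟨3,[(0,1),(20,0),(2,1),(5,
  0)]⟩,⟨5,[(4,1),(11,3),(8,0),(5,2)]⟩⟩,.fo,.o ⟨false,0,⟨1,[(16,0),(0,0)]⟩,⟨1,[(21,0),(8,0)]⟩⟩,.o
  ⟨false,0,⟨0,[(16,0),(0,0)]⟩,⟨0,[(0,0)]⟩⟩]⟩)) (.N [0,2] 1 ⟨0,[(1,0)]⟩ ⟨0,[(0,0)]⟩ (.x (-1) ⟨0,[(19,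
  1),(6,1),(3,0)]⟩ ⟨0,[(15,0),(0,0),(5,1)]⟩)))) (.I [1,0,1,1,0,0,0,1] (.Q [0,0,0,0,0,0,-1,0,0,0,-1]
  (.p false [0,0,1] [] (⟨0,[(17,0)]⟩,⟨0,[(16,0)]⟩) .k 0 (⟨0,[]⟩,⟨0,[]⟩) .k .k) (.Q [0,-1,0,1,0,0,-1,
  -1,0,0,-1] (.p false [0,0,1] [] (⟨0,[(18,0)]⟩,⟨0,[(17,0)]⟩) .k 0 (⟨0,[]⟩,⟨0,[]⟩) .k .k) (.I [0,0,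
  -1,-1,0,0,0,-2] (.R ⟨2,true,false,true,[0,1],[0,0,1],[1,1,1],(⟨0,[]⟩,⟨0,[]⟩),(⟨0,[(20,0)]⟩,⟨0,
  [(19,0)]⟩),⟨0,[]⟩,.k,.k,.k,.k,.k,.k,⟨false,0,⟨5,[(0,1),(0,0),(14,0),(0,1),(12,0)]⟩,⟨0,[(3,0),(2,
  0)]⟩⟩,⟨true,0,⟨0,[(17,0)]⟩,⟨0,[(2,0)]⟩⟩,⟨true,0,⟨0,[(29,0)]⟩,⟨0,[(30,0)]⟩⟩,⟨false,1,⟨0,[(15,0),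
  (13,0),(2,0)]⟩,⟨0,[(1,0)]⟩⟩,⟨false,0,⟨0,[]⟩,⟨1,[(10,0),(0,0),(20,0)]⟩⟩,⟨true,0,⟨0,[(15,0)]⟩,⟨0,
  [(4,0)]⟩⟩,[]⟩) (.I [1,-1,1,0,0,0,0,-1] (.R ⟨2,true,false,true,[0,1],[0,0,1],[1,1,1],(⟨0,[]⟩,⟨0,
  []⟩),(⟨0,[(21,0)]⟩,⟨0,[(20,0)]⟩),⟨0,[]⟩,.k,.k,.k,.k,.k,.k,⟨false,0,⟨0,[(0,0),(28,0)]⟩,⟨3,[(1,1),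
  (5,1),(3,0),(0,0),(19,0)]⟩⟩,⟨true,0,⟨0,[(18,0)]⟩,⟨0,[(3,0)]⟩⟩,⟨true,0,⟨0,[(30,0)]⟩,⟨0,[(31,0)]⟩⟩,
  ⟨false,1,⟨0,[(16,0),(13,0),(2,0)]⟩,⟨0,[(2,0)]⟩⟩,⟨false,0,⟨0,[]⟩,⟨1,[(11,0),(0,0),(20,0)]⟩⟩,⟨true,
  0,⟨0,[(16,0)]⟩,⟨0,[(5,0)]⟩⟩,[]⟩) (.R ⟨2,true,false,true,[0,1],[0,0,1],[0,1,1,1],(⟨0,[]⟩,⟨0,[]⟩),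
  (⟨0,[(21,0)]⟩,⟨0,[(20,0)]⟩),⟨0,[]⟩,.k,.k,.k,.k,.k,.k,⟨false,0,⟨0,[(2,0),(15,0),(10,0)]⟩,⟨0,[(0,0),
  (29,0),(2,0)]⟩⟩,⟨true,0,⟨0,[(18,0)]⟩,⟨0,[(3,0)]⟩⟩,⟨true,0,⟨0,[(35,0)]⟩,⟨0,[]⟩⟩,⟨false,1,⟨0,[(16,
  0),(13,0),(2,0)]⟩,⟨0,[(2,0)]⟩⟩,⟨false,0,⟨0,[(31,0)]⟩,⟨0,[(30,0),(2,0)]⟩⟩,⟨true,0,⟨0,[(16,0)]⟩,⟨0,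
  [(5,0)]⟩⟩,[]⟩))) (.Q [0,0,-1,0,1,0,1,0,0,-1,1] (.p true [0,0,1] [1] (⟨0,[(19,0)]⟩,⟨0,[(18,0)]⟩)
  .k 1 (⟨0,[]⟩,⟨0,[]⟩) .k .k) (.R ⟨0,false,false,true,[1,0,-1],[1,-1],[0,1,1],(⟨0,[(19,0)]⟩,⟨0,[(20,
  0)]⟩),(⟨0,[(23,0)]⟩,⟨0,[(24,0)]⟩),⟨0,[(8,0)]⟩,.k,.k,.k,.k,.k,.k,⟨false,0,⟨2,[(3,0),(12,0),(0,0),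
  (9,0),(2,0)]⟩,⟨0,[(6,0)]⟩⟩,⟨true,0,⟨0,[(17,0)]⟩,⟨0,[(2,0)]⟩⟩,⟨false,0,⟨0,[(1,0),(0,0),(24,0)]⟩,⟨1,
  [(0,1),(3,1),(21,0),(5,0)]⟩⟩,⟨true,0,⟨0,[(1,0)]⟩,⟨0,[(4,0),(25,0)]⟩⟩,⟨false,0,⟨0,[]⟩,⟨0,[]⟩⟩,
  ⟨false,0,⟨0,[]⟩,⟨0,[]⟩⟩,[.o ⟨false,0,⟨0,[(29,0)]⟩,⟨1,[(22,0),(7,1),(1,0)]⟩⟩,.a ⟨true,0,⟨1,[(26,0),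
  (2,1),(2,0)]⟩,⟨0,[(30,0)]⟩⟩ ⟨true,0,⟨1,[(17,0),(0,0)]⟩,⟨0,[]⟩⟩ ⟨false,1,⟨0,[(6,0),(10,0)]⟩,⟨0,[(2,
  0),(27,0)]⟩⟩,.o ⟨false,0,⟨0,[(2,0)]⟩,⟨3,[(0,1),(9,0),(0,0),(5,1),(4,0)]⟩⟩,.o ⟨false,0,⟨0,[(18,
  0)]⟩,⟨0,[(0,0)]⟩⟩]⟩) (.I [0,0,0,0,0,0,0,1] (.R ⟨0,false,false,true,[1,0,-1],[1,-1],[0,1],(⟨0,[(20,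
  0)]⟩,⟨0,[(21,0)]⟩),(⟨0,[(24,0)]⟩,⟨0,[(25,0)]⟩),⟨0,[(9,0)]⟩,.k,.k,.k,.k,.k,.k,⟨false,0,⟨0,[(31,
  0)]⟩,⟨3,[(7,1),(3,0),(0,0),(17,1),(2,0)]⟩⟩,⟨true,0,⟨0,[(18,0)]⟩,⟨0,[(3,0)]⟩⟩,⟨false,0,⟨0,[(0,0)]⟩,
  ⟨1,[(5,1),(12,1),(13,0),(0,0)]⟩⟩,⟨true,0,⟨0,[(2,0)]⟩,⟨0,[(5,0),(25,0)]⟩⟩,⟨false,0,⟨0,[]⟩,⟨0,[]⟩⟩,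
  ⟨false,0,⟨0,[]⟩,⟨0,[]⟩⟩,[.o ⟨false,0,⟨0,[(30,0)]⟩,⟨1,[(23,0),(7,1),(1,0)]⟩⟩,.e ⟨false,1,⟨1,[(11,
  0),(0,0),(19,0)]⟩,⟨0,[]⟩⟩ ⟨false,1,⟨0,[(7,0),(10,0)]⟩,⟨0,[(3,0),(27,0)]⟩⟩,.o ⟨false,0,⟨0,[(3,0)]⟩,
  ⟨1,[(18,1),(4,0),(8,0)]⟩⟩,.a ⟨true,(-1),⟨0,[(1,0)]⟩,⟨0,[(18,0),(13,0)]⟩⟩ ⟨true,0,⟨0,[(29,0)]⟩,⟨1,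
  [(18,0),(0,0)]⟩⟩ ⟨false,1,⟨0,[(7,0),(10,0)]⟩,⟨0,[(3,0),(24,0)]⟩⟩]⟩) (.I [0,1,-1,-1,0,0,0,-1] (.R
  ⟨0,false,false,true,[1,0,-1],[2,-1,-1],[1,0,1],(⟨0,[(21,0)]⟩,⟨0,[(22,0)]⟩),(⟨0,[(21,0),(3,0)]⟩,⟨0,
  [(10,0)]⟩),⟨0,[(10,0)]⟩,.k,.k,.k,.k,.k,.k,⟨true,0,⟨3,[(2,1),(0,1),(1,1),(18,0),(4,3),(4,0)]⟩,⟨0,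
  [(0,0)]⟩⟩,⟨false,0,⟨9,[(7,1),(4,1),(0,1),(5,3),(8,2),(4,2)]⟩,⟨1,[(24,0),(8,0)]⟩⟩,⟨true,0,⟨3,[(2,
  1),(0,1),(1,1),(18,0),(9,0)]⟩,⟨0,[(1,0),(28,0)]⟩⟩,⟨false,0,⟨1,[(28,0),(2,1),(2,0)]⟩,⟨1,[(24,0),(7,
  1),(1,0)]⟩⟩,⟨false,0,⟨0,[]⟩,⟨0,[]⟩⟩,⟨false,0,⟨0,[]⟩,⟨0,[]⟩⟩,[.o ⟨false,(-1),⟨0,[(0,0),(1,0)]⟩,⟨0,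
  [(17,0),(6,0),(7,0),(1,0)]⟩⟩,.e ⟨false,1,⟨1,[(12,0),(0,0),(20,0)]⟩,⟨0,[(30,0)]⟩⟩ ⟨false,0,⟨1,[(0,
  1),(27,0),(5,0)]⟩,⟨1,[(5,1),(18,0),(8,0)]⟩⟩,.o ⟨false,0,⟨0,[(4,0)]⟩,⟨1,[(19,1),(4,0),(8,0)]⟩⟩,.a
  ⟨true,(-1),⟨0,[(2,0)]⟩,⟨0,[(19,0),(13,0)]⟩⟩ ⟨true,0,⟨0,[]⟩,⟨0,[(36,0)]⟩⟩ ⟨false,0,⟨1,[(0,1),(27,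
  0),(5,0)]⟩,⟨1,[(5,1),(18,0),(9,0)]⟩⟩]⟩) (.I [0,1,-1,0,0,0,0,1] (.S ⟨1,0,[0,0,0,0,0,0,0,1],[0,0,1],
  [0,1,0,0,0,0,0,1],(⟨0,[(23,0)]⟩,⟨0,[(22,0)]⟩),⟨0,[(12,0)]⟩,.k,.k,⟨true,0,⟨0,[(37,0)]⟩,⟨0,[]⟩⟩,
  ⟨false,1,⟨1,[(13,0),(0,0),(20,0)]⟩,⟨0,[]⟩⟩,⟨false,0,⟨0,[(33,0)]⟩,⟨0,[(32,0),(2,0)]⟩⟩,⟨true,0,⟨0,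
  [(33,0)]⟩,⟨0,[(32,0)]⟩⟩,[.o ⟨false,1,⟨1,[(18,1),(6,0),(9,0)]⟩,⟨0,[(7,0)]⟩⟩,.e ⟨false,1,⟨0,[(6,0),
  (2,0)]⟩,⟨0,[(2,0)]⟩⟩ ⟨false,1,⟨0,[(0,0),(34,0)]⟩,⟨2,[(2,1),(16,0),(0,0),(7,0)]⟩⟩,.o ⟨false,1,⟨1,
  [(20,1),(4,0),(8,0)]⟩,⟨0,[(5,0)]⟩⟩,.a ⟨true,0,⟨0,[(20,0)]⟩,⟨0,[(17,0)]⟩⟩ ⟨true,0,⟨0,[(0,0)]⟩,⟨0,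
  [(7,0),(12,0)]⟩⟩ ⟨false,1,⟨0,[(0,0),(34,0)]⟩,⟨0,[(7,0),(12,0)]⟩⟩]⟩) (.S ⟨1,0,[0,1,0,0,0,0,0,1],[0,
  0,1],[0,0,0,0,0,0,0,1],(⟨0,[(23,0)]⟩,⟨0,[(22,0)]⟩),⟨0,[(12,0)]⟩,.k,.k,⟨false,1,⟨1,[(13,0),(0,0),
  (20,0)]⟩,⟨0,[]⟩⟩,⟨true,0,⟨0,[(37,0)]⟩,⟨0,[]⟩⟩,⟨true,0,⟨0,[(33,0)]⟩,⟨0,[(32,0)]⟩⟩,⟨false,0,⟨0,[(33,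
  0)]⟩,⟨0,[(32,0),(2,0)]⟩⟩,[.a ⟨true,0,⟨0,[(18,0)]⟩,⟨0,[(0,0),(16,0)]⟩⟩ ⟨false,1,⟨0,[(6,0),(2,0)]⟩,
  ⟨0,[(2,0)]⟩⟩ ⟨true,0,⟨0,[(5,0),(12,0)]⟩,⟨0,[(0,0)]⟩⟩,.o ⟨false,1,⟨1,[(18,1),(6,0),(9,0)]⟩,⟨0,[(7,
  0)]⟩⟩,.o ⟨false,1,⟨1,[(20,1),(4,0),(8,0)]⟩,⟨0,[(5,0)]⟩⟩,.e ⟨false,1,⟨0,[(1,0),(7,0)]⟩,⟨1,[(0,0),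
  (18,0),(0,0)]⟩⟩ ⟨false,1,⟨0,[(6,0),(2,0)]⟩,⟨0,[(0,0)]⟩⟩]⟩)))))) (.I [1,0,-1,-1,1,0,0,1] (.I [1,1,
  -1,0,0,0,0,1] (.S ⟨1,0,[0,0,0,0,0,0,0,1],[0,0,1],[0,0,1],(⟨0,[(20,0)]⟩,⟨0,[(19,0)]⟩),⟨0,[(9,0)]⟩,
  .k,.k,⟨true,0,⟨0,[(4,0),(12,0)]⟩,⟨0,[(0,0)]⟩⟩,⟨false,1,⟨1,[(10,0),(0,0),(20,0)]⟩,⟨0,[]⟩⟩,⟨false,0,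
  ⟨0,[(2,0),(1,0),(22,0)]⟩,⟨0,[(1,0)]⟩⟩,⟨true,0,⟨0,[(30,0)]⟩,⟨0,[(29,0)]⟩⟩,[.o ⟨false,1,⟨1,[(15,1),
  (6,0),(9,0)]⟩,⟨0,[(4,0)]⟩⟩,.e ⟨false,1,⟨1,[(10,0),(0,0),(20,0)]⟩,⟨0,[(28,0)]⟩⟩ ⟨false,1,⟨0,[(0,0),
  (31,0)]⟩,⟨0,[(2,0),(13,0)]⟩⟩,.a ⟨true,0,⟨0,[(2,0)]⟩,⟨7,[(5,1),(1,1),(2,1),(0,1),(14,0),(4,0)]⟩⟩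
  ⟨true,0,⟨1,[(17,0),(0,0)]⟩,⟨0,[(28,0)]⟩⟩ ⟨false,1,⟨1,[(1,0),(1,0),(28,0)]⟩,⟨0,[(2,0),(1,0)]⟩⟩,.e
  ⟨false,1,⟨1,[(10,0),(0,0),(20,0)]⟩,⟨0,[]⟩⟩ ⟨false,1,⟨0,[(0,0),(31,0)]⟩,⟨0,[(4,0),(12,0)]⟩⟩]⟩) (.Q
  [0,-1,0,1,2,0,2,2,0,-2,2] (.p true [0,0,1] [2,-1,-1] (⟨0,[(20,0)]⟩,⟨0,[(19,0)]⟩) .k 2 (⟨0,[(19,0),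
  (3,0)]⟩,⟨0,[(8,0)]⟩) .k (.x (-1) ⟨0,[(2,1),(16,1),(2,0)]⟩ ⟨0,[(7,0),(0,0),(0,0)]⟩)) (.I [0,0,-1,
  -1,0,0,0,-2] (.Q [0,-1,-1,0,2,0,2,1,0,-2,2] (.p true [0,0,1] [2,-1,-1] (⟨0,[(22,0)]⟩,⟨0,[(21,
  0)]⟩) .k 2 (⟨0,[(21,0),(3,0)]⟩,⟨0,[(10,0)]⟩) .k (.x (-1) ⟨0,[(4,1),(16,1),(2,0)]⟩ ⟨0,[(9,0),(0,0),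
  (0,0)]⟩)) (.R ⟨0,false,false,true,[-1,1,1],[1,0,-1],[0,1],(⟨0,[(11,0)]⟩,⟨0,[(22,0),(3,0)]⟩),(⟨0,
  [(22,0)]⟩,⟨0,[(23,0)]⟩),⟨0,[(22,0)]⟩,.k,.k,.k,(.r (-1) ⟨0,[(2,0),(5,0),(28,0)]⟩ ⟨0,[(1,0)]⟩),.k,
  .k,⟨false,1,⟨11,[(2,3),(1,3),(5,1),(6,3),(10,1),(0,0),(4,0)]⟩,⟨5,[(1,1),(1,0),(15,0),(0,0),(12,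
  1)]⟩⟩,⟨true,(-1),⟨0,[(8,0)]⟩,⟨0,[(5,1),(19,0)]⟩⟩,⟨true,0,⟨1,[(1,0),(29,0),(0,0)]⟩,⟨0,[(6,0)]⟩⟩,
  ⟨false,(-1),⟨0,[(1,0),(6,0)]⟩,⟨0,[(2,0)]⟩⟩,⟨false,0,⟨0,[]⟩,⟨0,[]⟩⟩,⟨false,0,⟨0,[]⟩,⟨0,[]⟩⟩,[.e
  ⟨false,0,⟨0,[(31,0)]⟩,⟨1,[(13,0),(0,0),(20,0)]⟩⟩ ⟨false,(-1),⟨1,[(7,1),(0,0),(19,0),(0,0)]⟩,⟨0,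
  [(0,0)]⟩⟩,.o ⟨false,0,⟨0,[(7,0)]⟩,⟨1,[(2,0),(29,0)]⟩⟩,.a ⟨true,1,⟨3,[(0,1),(0,0),(26,0),(4,0)]⟩,
  ⟨4,[(8,2),(11,0),(8,1),(6,0)]⟩⟩ ⟨true,0,⟨0,[(37,0)]⟩,⟨0,[]⟩⟩ ⟨false,(-1),⟨2,[(3,0),(3,0),(0,1),
  (10,0),(9,0)]⟩,⟨0,[(0,0)]⟩⟩,.o ⟨false,1,⟨0,[(5,0),(19,0)]⟩,⟨7,[(8,1),(1,1),(2,1),(0,1),(14,0),(4,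
  0)]⟩⟩]⟩) (.R ⟨0,false,false,true,[-1,1,1],[1,0,-1],[0,1],(⟨0,[(11,0)]⟩,⟨0,[(22,0),(3,0)]⟩),(⟨0,
  [(22,0)]⟩,⟨0,[(23,0)]⟩),⟨0,[(22,0)]⟩,.k,.k,.k,(.r (-1) ⟨0,[(2,0),(5,0),(28,0)]⟩ ⟨0,[(1,0)]⟩),.k,
  .k,⟨false,1,⟨11,[(2,3),(1,3),(5,1),(6,3),(10,1),(0,0),(4,0)]⟩,⟨5,[(1,1),(1,0),(15,0),(0,0),(12,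
  1)]⟩⟩,⟨true,(-1),⟨0,[(8,0)]⟩,⟨0,[(5,1),(19,0)]⟩⟩,⟨true,0,⟨1,[(1,0),(29,0),(0,0)]⟩,⟨0,[(6,0)]⟩⟩,
  ⟨false,(-1),⟨0,[(1,0),(6,0)]⟩,⟨0,[(2,0)]⟩⟩,⟨false,0,⟨0,[]⟩,⟨0,[]⟩⟩,⟨false,0,⟨0,[]⟩,⟨0,[]⟩⟩,[.a
  ⟨true,(-1),⟨3,[(0,1),(0,0),(26,0),(4,0)]⟩,⟨2,[(2,0),(1,0),(15,0),(8,0),(5,0)]⟩⟩ ⟨false,0,⟨0,[(31,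
  0)]⟩,⟨1,[(13,0),(0,0),(20,0)]⟩⟩ ⟨true,(-2),⟨0,[(0,0)]⟩,⟨1,[(2,0),(2,1),(19,0),(6,0),(2,0)]⟩⟩,.o
  ⟨false,0,⟨0,[(7,0)]⟩,⟨1,[(2,0),(29,0)]⟩⟩,.e ⟨true,0,⟨0,[(37,0)]⟩,⟨0,[]⟩⟩ ⟨true,(-2),⟨0,[(0,0)]⟩,
  ⟨5,[(1,2),(0,4),(6,0),(8,1),(6,0),(2,0),(3,0)]⟩⟩,.o ⟨false,1,⟨0,[(5,0),(19,0)]⟩,⟨7,[(8,1),(1,1),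
  (2,1),(0,1),(14,0),(4,0)]⟩⟩]⟩)) (.I [0,-1,-1,0,1,0,0,1] (.S ⟨1,0,[0,0,0,0,0,0,0,1],[0,0,1],[0,1,0,
  0,0,0,0,1],(⟨0,[(23,0)]⟩,⟨0,[(22,0)]⟩),⟨0,[(12,0)]⟩,.k,.k,⟨true,0,⟨0,[(37,0)]⟩,⟨0,[]⟩⟩,⟨false,1,
  ⟨1,[(13,0),(0,0),(20,0)]⟩,⟨0,[]⟩⟩,⟨false,0,⟨0,[(33,0)]⟩,⟨0,[(32,0),(2,0)]⟩⟩,⟨true,0,⟨0,[(33,0)]⟩,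
  ⟨0,[(32,0)]⟩⟩,[.o ⟨false,1,⟨1,[(2,0),(29,0)]⟩,⟨0,[(7,0)]⟩⟩,.e ⟨false,1,⟨11,[(2,3),(1,3),(5,1),(6,
  3),(10,1),(0,0),(4,0)]⟩,⟨0,[(5,0),(1,0)]⟩⟩ ⟨false,1,⟨0,[(0,0)]⟩,⟨0,[(3,0),(24,0)]⟩⟩,.a ⟨true,0,⟨0,
  [(5,0)]⟩,⟨7,[(8,1),(1,1),(2,1),(0,1),(14,0),(4,0)]⟩⟩ ⟨true,0,⟨1,[(1,0),(29,0),(0,0)]⟩,⟨0,[(5,0),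
  (1,0)]⟩⟩ ⟨false,1,⟨2,[(2,0),(1,0),(3,0),(26,0)]⟩,⟨0,[(5,0),(1,0)]⟩⟩,.e ⟨false,1,⟨11,[(2,3),(1,3),
  (5,1),(6,3),(10,1),(0,0),(4,0)]⟩,⟨0,[(3,0)]⟩⟩ ⟨false,1,⟨0,[(0,0)]⟩,⟨1,[(3,0),(15,0),(0,0)]⟩⟩]⟩)
  (.S ⟨1,0,[0,1,0,0,0,0,0,1],[0,0,1],[0,0,0,0,0,0,0,1],(⟨0,[(23,0)]⟩,⟨0,[(22,0)]⟩),⟨0,[(12,0)]⟩,.k,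
  .k,⟨false,1,⟨1,[(13,0),(0,0),(20,0)]⟩,⟨0,[]⟩⟩,⟨true,0,⟨0,[(37,0)]⟩,⟨0,[]⟩⟩,⟨true,0,⟨0,[(33,0)]⟩,
  ⟨0,[(32,0)]⟩⟩,⟨false,0,⟨0,[(33,0)]⟩,⟨0,[(32,0),(2,0)]⟩⟩,[.a ⟨true,0,⟨0,[(18,0)]⟩,⟨0,[(3,0),(13,
  0)]⟩⟩ ⟨false,1,⟨11,[(2,3),(1,3),(5,1),(6,3),(10,1),(0,0),(4,0)]⟩,⟨1,[(0,0),(2,0),(30,0)]⟩⟩ ⟨true,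
  0,⟨1,[(1,0),(29,0),(0,0)]⟩,⟨0,[(3,0)]⟩⟩,.o ⟨false,1,⟨1,[(2,0),(29,0)]⟩,⟨0,[(7,0)]⟩⟩,.a ⟨true,0,⟨0,
  [(5,0)]⟩,⟨7,[(8,1),(1,1),(2,1),(0,1),(14,0),(4,0)]⟩⟩ ⟨false,1,⟨2,[(2,0),(1,0),(3,0),(26,0)]⟩,⟨1,
  [(0,0),(2,0),(30,0)]⟩⟩ ⟨true,0,⟨1,[(1,0),(29,0),(0,0)]⟩,⟨1,[(0,0),(2,0),(30,0)]⟩⟩,.a ⟨true,0,⟨0,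
  [(20,0)]⟩,⟨0,[(17,0)]⟩⟩ ⟨true,1,⟨11,[(2,3),(1,3),(5,1),(6,3),(10,1),(0,0),(4,0)]⟩,⟨0,[(0,0)]⟩⟩
  ⟨false,1,⟨11,[(2,3),(1,3),(5,1),(6,3),(10,1),(0,0),(4,0)]⟩,⟨0,[(3,0)]⟩⟩]⟩))) (.R ⟨1,false,false,
  false,[0,0,1],[2,-1,-1],[0,0,0,0,0,0,0,1],(⟨0,[(21,0)]⟩,⟨0,[(20,0)]⟩),(⟨0,[(20,0),(3,0)]⟩,⟨0,[(9,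
  0)]⟩),⟨0,[(10,0)]⟩,.k,.k,.k,(.r (-1) ⟨1,[(2,0),(1,2),(6,0),(0,0)]⟩ ⟨1,[(0,1),(2,3),(19,1),(8,0),
  (0,0)]⟩),.k,.k,⟨false,1,⟨1,[(2,0),(1,2),(27,0)]⟩,⟨1,[(0,1),(2,3),(19,1),(8,0),(0,0)]⟩⟩,⟨true,(-1),
  ⟨0,[(6,0)]⟩,⟨0,[(3,1),(19,0)]⟩⟩,⟨false,1,⟨1,[(11,0),(0,0),(20,0)]⟩,⟨0,[]⟩⟩,⟨false,(-1),⟨0,[(0,0),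
  (32,0)]⟩,⟨0,[(16,1),(6,0),(7,0),(1,0)]⟩⟩,⟨true,0,⟨0,[(31,0)]⟩,⟨0,[(30,0)]⟩⟩,⟨false,(-1),⟨0,[(0,0),
  (30,0),(1,0)]⟩,⟨0,[(16,1),(6,0),(9,0)]⟩⟩,[.a ⟨true,(-1),⟨1,[(0,0),(26,0),(2,0),(2,0)]⟩,⟨1,[(16,1),
  (6,0),(7,1),(1,0)]⟩⟩ ⟨false,1,⟨1,[(2,0),(1,0),(27,0)]⟩,⟨0,[(3,0),(1,0)]⟩⟩ ⟨true,(-1),⟨2,[(0,1),(1,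
  0),(3,0),(26,0)]⟩,⟨0,[(3,0),(12,0),(6,0),(4,0)]⟩⟩,.o ⟨false,0,⟨1,[(0,0),(29,0),(2,1)]⟩,⟨0,[(16,0),
  (6,0),(7,0)]⟩⟩,.a ⟨true,0,⟨0,[(3,0)]⟩,⟨7,[(6,1),(1,1),(2,1),(0,1),(14,0),(4,0)]⟩⟩ ⟨false,1,⟨1,[(2,
  0),(1,0),(28,0)]⟩,⟨0,[(3,0),(1,0)]⟩⟩ ⟨true,(-1),⟨2,[(0,1),(1,0),(3,0),(26,0)]⟩,⟨0,[(3,0),(12,0),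
  (6,0),(7,0)]⟩⟩,.a ⟨true,0,⟨0,[(18,0)]⟩,⟨0,[(15,0)]⟩⟩ ⟨true,1,⟨1,[(2,0),(1,0),(27,0)]⟩,⟨0,[(0,0),
  (2,0),(12,0),(6,0),(4,0)]⟩⟩ ⟨false,0,⟨3,[(0,1),(6,1),(0,1),(18,0),(5,2)]⟩,⟨0,[(3,0),(12,0),(6,0),
  (4,0)]⟩⟩]⟩))) (.R ⟨2,true,false,true,[0,1],[0,0,1],[1,1,0,0,0,0,0,1],(⟨0,[]⟩,⟨0,[]⟩),(⟨0,[(19,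
  0)]⟩,⟨0,[(18,0)]⟩),⟨0,[]⟩,.k,.k,.k,.k,.k,.k,⟨true,0,⟨0,[]⟩,⟨1,[(16,0),(0,0)]⟩⟩,⟨false,0,⟨0,[(1,
  0)]⟩,⟨3,[(6,1),(2,0),(0,0),(10,0),(8,1)]⟩⟩,⟨true,1,⟨3,[(5,1),(0,1),(7,3),(6,0),(6,1),(2,0)]⟩,⟨0,
  [(0,0)]⟩⟩,⟨false,1,⟨0,[(14,0),(13,0),(2,0)]⟩,⟨1,[(0,1),(12,1),(7,0),(9,0)]⟩⟩,⟨false,1,⟨0,[(2,0),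
  (2,0)]⟩,⟨0,[(0,0),(27,0),(2,0)]⟩⟩,⟨true,0,⟨0,[(14,0)]⟩,⟨0,[(3,0)]⟩⟩,[]⟩))) (.R ⟨0,false,false,
  false,[-1,1,1],[1,0,-1],[],(⟨0,[(5,0)]⟩,⟨0,[(16,0),(3,0)]⟩),(⟨0,[(16,0)]⟩,⟨0,[(17,0)]⟩),⟨0,[(16,
  0)]⟩,.k,.k,.k,(.r (-1) ⟨1,[(4,1),(7,3),(6,0),(4,1),(4,0)]⟩ ⟨1,[(0,2),(0,0),(12,0),(12,0)]⟩),.k,.k,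
  ⟨false,1,⟨1,[(11,1),(0,1),(6,0),(9,0)]⟩,⟨1,[(0,0),(0,0),(12,0),(12,0)]⟩⟩,⟨true,(-1),⟨0,[(2,0)]⟩,
  ⟨0,[(0,1),(11,1),(6,0),(4,1)]⟩⟩,⟨true,0,⟨0,[(0,0)]⟩,⟨0,[(12,0),(2,0),(11,0)]⟩⟩,⟨false,(-1),⟨0,[(0,
  1),(1,0),(21,0)]⟩,⟨0,[(12,1),(6,0),(7,0),(1,0)]⟩⟩,⟨false,0,⟨0,[]⟩,⟨0,[]⟩⟩,⟨false,0,⟨0,[]⟩,⟨0,[]⟩⟩,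
  [.o ⟨false,0,⟨0,[(1,0)]⟩,⟨1,[(12,1),(6,0),(9,0)]⟩⟩,.a ⟨true,0,⟨1,[(1,1),(21,0),(5,0)]⟩,⟨0,[(12,
  0)]⟩⟩ ⟨false,1,⟨1,[(28,0),(0,0)]⟩,⟨0,[(31,0)]⟩⟩ ⟨true,(-1),⟨0,[(0,0),(1,0),(21,0)]⟩,⟨0,[(0,0),(11,
  1),(6,0),(4,0)]⟩⟩,.e ⟨false,1,⟨1,[(7,0),(0,0),(20,0)]⟩,⟨0,[]⟩⟩ ⟨false,(-1),⟨0,[(0,0),(1,0),(21,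
  0)]⟩,⟨0,[(0,0),(11,1),(6,0),(7,0),(1,0)]⟩⟩,.o ⟨false,1,⟨0,[(0,0),(11,0),(6,0),(4,0)]⟩,⟨7,[(2,1),
  (1,1),(2,1),(0,1),(14,0),(4,0)]⟩⟩]⟩))))

theorem ok1 : chk K t1 r0 = true := by decide +kernel

noncomputable def t2 : Tre :=
  .I [1,0,2,1,-1] t0 t1

theorem ok2 : chk K t2 base = true :=
  chk_I (e' := [0,0,-2,-1,1]) (by decide +kernel) (by decide +kernel) ok0 ok1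

theorem closed {p a b c J l q : ℤ} {D dl : ℝ} {Cl : ℤ → ℤ → ℤ → ℤ → ℝ → Prop}
    (W : World p a b c J 1 l q D dl Cl) (g : G0 p a b c J D)
    {N X R : ℤ} {I : ℝ} (hk : KCl p l Cl N X R I) (kz : KF a b D (X + (1 : ℤ) * I) (X + (1 : ℤ) * I + R) I)
    {Ne Xe : ℤ} {Ie : ℝ} (he : EFac p 1 D Cl 1 Ne Xe Ie)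
    (hkf : ∀ kf ∈ (kfY 1 [0,0,0,0,0,0,1,0,0,0,1]), KOk p l Cl 1
      (xv [1, a, b, c, p, J, X, R, Xe] [D, I, Ie]) N kf)
    (h0 : 1 ≤ (c : ℝ))
    (h1 : 1 ≤ (a : ℝ) - (b : ℝ))
    (h2 : 1 ≤ 1 - (a : ℝ) + (b : ℝ) + (c : ℝ))
    (h3 : 0 < 1 - (p : ℝ) + 2 * D)
    (h4 : 1 ≤ 2 * (a : ℝ) - (b : ℝ))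
    (h5 : 1 ≤ 2 - (J : ℝ))
    (h6 : 0 < -(b : ℝ) - (X : ℝ) + D - I)
    (h7 : 0 < -(J : ℝ) + I)
    (h8 : 0 < (J : ℝ) - D + I)
    (h9 : 0 < -2 * (X : ℝ) + D - 2 * I) : False := by
  have g1 := g.a2
  have g2 := g.b2
  have g3 := g.pa
  have g4 := g.pb
  have g5 := g.J1
  have g6 := g.JD
  have g7 := g.D2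
  have g8 := g.ca
  have g9 := g.ca'
  have k1 := kz.I0
  have k2 := kz.ID
  have k3 := kz.z1
  have k4 := kz.z2
  have k5 := kz.s1
  have k6 := kz.s2
  have e1 := he.I0
  have e2 := he.ID
  have e3 := he.x0
  have e4 := he.xp
  push_cast at *
  refine (val_E W.toBase hk he (row := [1]) (by simp) (by simp) (kfY 1 [0,0,0,0,0,0,1,0,0,0,1])).sound W rfl (Nk := N)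
    (fun kf _ _ => ⟨_, rfl⟩) hkf ?_ ok2
  · simp only [base, List.forall_mem_cons, List.not_mem_nil, false_imp_iff, implies_true,
      and_true, hld, xv, evg_cons, evg_nil, List.map_cons, List.map_nil, List.cons_append,
      List.nil_append, if_true, if_false, Bool.false_eq_true]
    push_cast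
    refine ⟨?_, ?_, ?_, ?_, ?_, ?_, ?_, ?_, ?_, ?_, ?_, ?_, ?_, ?_, ?_, ?_, ?_, ?_, ?_, ?_, ?_, ?_, ?_, ?_, ?_, ?_, ?_, ?_⟩ <;> linarith

end Helper48.Y.Y11_c2_L2_m1n0

namespace Helper48.Y.Y11_c2_P1

open Helper25.KG Helper25.KW Helper55.KE Helper11.CT

noncomputable def K : Cls :=
  cE 1 [1] (kfY 1 [0,0,0,0,0,0,1,0,0,0,1])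

noncomputable def base : List Con :=
  [(false,[0,0,0,0,0,0,-2,0,0,1,-2]),
  (false,[0,0,0,0,1,0,0,0,-1,0,0,-1]),
  (false,[0,0,0,0,0,0,0,0,1,0,0,1]),
  (false,[0,0,0,0,0,0,0,0,0,1,0,-1]),
  (false,[0,0,0,0,0,0,0,0,0,0,0,1]),
  (false,[0,0,-1,0,0,0,-1,0,0,1,-1]),
  (false,[0,1,0,0,0,0,1,1,0,0,1]),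
  (false,[0,1,0,0,0,0,-1,-1,0,0,-1]),
  (false,[0,0,1,0,0,0,1,0,0,0,1]),
  (false,[0,0,1,0,0,0,-1,0,0,0,-1]),
  (false,[0,0,0,0,0,0,0,0,0,1,-1]),
  (false,[0,0,0,0,0,0,0,0,0,0,1]),
  (true,[2,0,0,0,0,-1]),
  (false,[0,0,0,0,1,0,0,0,0,-2]),
  (false,[0,0,0,0,0,-1,0,0,0,1]),
  (true,[0,0,0,0,0,1]),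
  (true,[0,2,-1]),
  (false,[1,0,0,0,1,0,0,0,0,-3]),
  (true,[1,-1,1,1]),
  (true,[0,1,-1]),
  (true,[0,1,0,-1]),
  (true,[0,0,0,1]),
  (true,[0,0,-2,0,1]),
  (true,[0,-2,0,0,1]),
  (true,[-1,0,1]),
  (true,[-1,1])]

noncomputable def l0 : List Con := (false, [0,0,0,0,0,0,-1,0,0,0,-1]) :: base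

noncomputable def r0 : List Con := (false, [0,0,0,0,0,0,1,0,0,0,1]) :: base

noncomputable def l1 : List Con := (true, [1,-1,0,1,0,0,0,-1]) :: l0

noncomputable def r1 : List Con := (true, [0,1,0,-1,0,0,0,1]) :: l0

noncomputable def l2 : List Con := (false, [0,1,0,-1,0,0,1,1,0,0,1]) :: r1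

noncomputable def r2 : List Con := (false, [0,-1,0,1,0,0,-1,-1,0,0,-1]) :: r1

noncomputable def l3 : List Con := (false, [0,0,0,1,0,0,-1,-1,0,0,-1]) :: l2

noncomputable def r3 : List Con := (false, [0,0,0,-1,0,0,1,1,0,0,1]) :: l2

noncomputable def l4 : List Con := (false, [0,0,0,0,0,0,1,1,0,0,1]) :: l3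

noncomputable def r4 : List Con := (false, [0,0,0,0,0,0,-1,-1,0,0,-1]) :: l3

noncomputable def l5 : List Con := (true, [0,1,-1,0,0,0,0,1]) :: r4

noncomputable def r5 : List Con := (true, [1,-1,1,0,0,0,0,-1]) :: r4

noncomputable def l6 : List Con := (false, [0,0,0,0,0,0,1,1,0,-1,1]) :: r3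

noncomputable def r6 : List Con := (false, [0,0,0,0,0,0,-1,-1,0,1,-1]) :: r3

noncomputable def l7 : List Con := (true, [0,-1,2,2,0,0,0,-1]) :: r6

noncomputable def r7 : List Con := (true, [1,1,-2,-2,0,0,0,1]) :: r6

noncomputable def t0 : Tre :=
  (.R ⟨2,true,false,true,[0,1],[0,0,1],[1,1,1],(⟨0,[]⟩,⟨0,[]⟩),(⟨0,[(13,0)]⟩,⟨0,[(12,0)]⟩),⟨0,[]⟩,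
  .k,.k,.k,.k,.k,.k,⟨false,0,⟨0,[(0,0),(21,0)]⟩,⟨3,[(2,0),(4,1),(0,3),(10,0),(4,0),(0,1)]⟩⟩,⟨true,0,
  ⟨0,[(10,0)]⟩,⟨0,[(1,0)]⟩⟩,⟨true,0,⟨0,[(22,0)]⟩,⟨0,[(23,0)]⟩⟩,⟨false,1,⟨0,[(8,0),(13,0),(2,0)]⟩,⟨0,
  [(0,0),(0,0)]⟩⟩,⟨false,0,⟨0,[]⟩,⟨1,[(3,0),(0,0),(20,0)]⟩⟩,⟨true,0,⟨0,[(8,0)]⟩,⟨0,[(0,0),(0,0),(20,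
  0)]⟩⟩,[]⟩)

theorem ok0 : chk K t0 l1 = true := by decide +kernel

noncomputable def t1 : Tre :=
  (.I [0,0,-1,0,1,0,0,-1] (.R ⟨2,true,false,true,[0,1],[0,0,1],[0,1],(⟨0,[]⟩,⟨0,[]⟩),(⟨0,[(17,0)]⟩,
  ⟨0,[(16,0)]⟩),⟨0,[]⟩,.k,.k,.k,.k,.k,.k,⟨false,1,⟨0,[(0,0)]⟩,⟨0,[(1,0),(3,0)]⟩⟩,⟨true,0,⟨0,[(14,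
  0)]⟩,⟨0,[(5,0)]⟩⟩,⟨false,1,⟨1,[(26,1),(1,0),(0,0)]⟩,⟨0,[(24,0)]⟩⟩,⟨true,0,⟨0,[(3,0)]⟩,⟨0,[(2,
  0)]⟩⟩,⟨true,0,⟨0,[(25,0)]⟩,⟨1,[(14,0),(0,0)]⟩⟩,⟨false,0,⟨0,[(1,0)]⟩,⟨0,[(13,0),(15,0)]⟩⟩,[]⟩) (.R
  ⟨2,true,false,false,[0,1],[0,0,1],[0,1,1,1],(⟨0,[]⟩,⟨0,[]⟩),(⟨0,[(17,0)]⟩,⟨0,[(16,0)]⟩),⟨0,[]⟩,.k,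
  .k,.k,.k,.k,.k,⟨false,0,⟨0,[(2,0),(11,0),(10,0)]⟩,⟨0,[(0,0),(25,0),(1,0),(0,0)]⟩⟩,⟨true,0,⟨0,[(14,
  0)]⟩,⟨0,[(5,0)]⟩⟩,⟨true,0,⟨0,[(31,0)]⟩,⟨0,[]⟩⟩,⟨false,1,⟨0,[(3,0),(25,0)]⟩,⟨0,[(2,0)]⟩⟩,⟨false,0,
  ⟨0,[(27,0)]⟩,⟨0,[(26,0),(2,0)]⟩⟩,⟨true,0,⟨0,[(1,0)]⟩,⟨0,[(13,0)]⟩⟩,[]⟩))

theorem ok1 : chk K t1 l4 = true := by decide +kernel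

noncomputable def t2 : Tre :=
  (.Q [0,-1,0,0,1,0,1,1,0,-1,1] (.p true [0,0,1] [1] (⟨0,[(17,0)]⟩,⟨0,[(16,0)]⟩) .k 1 (⟨0,[]⟩,⟨0,
  []⟩) .k .k) (.Q [0,0,0,0,0,-1,0,0,0,0,1] (.ed false [1,-1,1] .k) (.S ⟨1,0,[0,0,0,0,0,0,0,1],[0,0,
  1],[0,1,0,0,0,0,0,1],(⟨0,[(19,0)]⟩,⟨0,[(18,0)]⟩),⟨0,[(0,0)]⟩,.k,.k,⟨true,0,⟨0,[(33,0)]⟩,⟨0,[]⟩⟩,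
  ⟨false,1,⟨1,[(9,0),(0,0),(20,0)]⟩,⟨0,[]⟩⟩,⟨false,0,⟨0,[(29,0)]⟩,⟨0,[(28,0),(2,0)]⟩⟩,⟨true,0,⟨0,
  [(29,0)]⟩,⟨0,[(28,0)]⟩⟩,[.o ⟨false,1,⟨3,[(1,1),(7,0),(0,0),(3,1),(6,0)]⟩,⟨0,[(3,0)]⟩⟩,.o ⟨false,1,
  ⟨0,[(1,0)]⟩,⟨0,[(15,0)]⟩⟩,.o ⟨false,1,⟨1,[(16,1),(4,0),(8,0)]⟩,⟨0,[(7,0)]⟩⟩,.a ⟨true,0,⟨0,[(16,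
  0)]⟩,⟨0,[(13,0)]⟩⟩ ⟨true,0,⟨0,[(2,0)]⟩,⟨0,[(3,0),(12,0)]⟩⟩ ⟨false,1,⟨0,[(1,0),(11,0)]⟩,⟨0,[(3,0),
  (12,0)]⟩⟩]⟩) (.Q [0,0,1,0,0,0,2,0,0,0,2] (.p true [0,0,1] [0,1,-1] (⟨0,[(19,0)]⟩,⟨0,[(18,0)]⟩) .k
  2 (⟨0,[(0,0)]⟩,⟨0,[(19,0),(2,0)]⟩) .k (.x (-1) ⟨1,[(0,3),(15,3),(3,3),(6,1),(2,0),(0,0)]⟩ ⟨0,[(7,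
  1),(11,1)]⟩)) (.K ⟨0,[0,1,-1],0,0,(⟨0,[(1,0)]⟩,⟨0,[(20,0),(2,0)]⟩),.k,.k,(.x (-1) ⟨1,[(3,1),(0,1),
  (15,1),(0,3),(9,0),(0,0)]⟩ ⟨1,[(1,1),(15,2),(0,0),(5,1)]⟩),(.r 0 ⟨0,[(0,0),(3,0),(0,0)]⟩ ⟨0,[(2,
  0),(4,0),(6,0)]⟩),.k,[⟨0,[(0,0)]⟩,⟨0,[(8,0)]⟩,⟨0,[(6,0)]⟩,⟨0,[(5,0),(28,0)]⟩]⟩) (.I [1,-1,0,1,0,0,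
  0,1] (.R ⟨0,false,false,false,[0,0,1],[0,1],[1,1,1],(⟨0,[(21,0)]⟩,⟨0,[(20,0)]⟩),(⟨0,[(25,0)]⟩,⟨0,
  [(24,0)]⟩),⟨0,[(2,0)]⟩,.k,.k,.k,.k,.k,.k,⟨true,0,⟨0,[(30,0)]⟩,⟨0,[(0,0),(4,0),(12,0)]⟩⟩,⟨false,1,
  ⟨7,[(1,1),(8,1),(12,0),(8,6)]⟩,⟨0,[(18,0)]⟩⟩,⟨false,0,⟨0,[(5,0),(12,0)]⟩,⟨0,[(3,0),(11,0)]⟩⟩,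
  ⟨true,0,⟨0,[(6,0)]⟩,⟨0,[(7,0)]⟩⟩,⟨false,0,⟨0,[]⟩,⟨0,[]⟩⟩,⟨false,0,⟨0,[]⟩,⟨0,[]⟩⟩,[.e ⟨false,0,⟨0,
  [(35,0)]⟩,⟨1,[(32,0),(0,0)]⟩⟩ ⟨false,0,⟨0,[(0,0),(4,0),(23,0)]⟩,⟨1,[(18,1),(11,1),(1,0),(0,0)]⟩⟩,
  .o ⟨false,1,⟨0,[(3,0),(2,0)]⟩,⟨0,[(30,0)]⟩⟩,.o ⟨false,1,⟨1,[(18,1),(4,0),(8,0)]⟩,⟨0,[(9,0)]⟩⟩,.a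
  ⟨true,0,⟨0,[(18,0)]⟩,⟨0,[(15,0)]⟩⟩ ⟨false,0,⟨0,[]⟩,⟨1,[(11,0),(0,0),(20,0)]⟩⟩ ⟨true,0,⟨0,[(0,0),
  (4,0),(23,0)]⟩,⟨0,[(18,0),(11,0)]⟩⟩]⟩) (.Q [0,-1,0,-1,1,0,2,1,0,0,2] (.p true [0,0,1] [0,1,-1]
  (⟨0,[(21,0)]⟩,⟨0,[(20,0)]⟩) .k 2 (⟨0,[(2,0)]⟩,⟨0,[(21,0),(2,0)]⟩) .k (.x (-1) ⟨1,[(2,3),(15,3),(3,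
  3),(6,1),(2,0),(0,0)]⟩ ⟨2,[(1,1),(17,1),(1,5)]⟩)) (.I [0,0,1,1,0,0,0,-2] (.I [1,0,0,0,0,0,0,1]
  (.Q [0,0,-1,1,0,0,-2,-1,0,0,-2] (.p false [0,0,1] [0,1,-1] (⟨0,[(24,0)]⟩,⟨0,[(23,0)]⟩) .k 2 (⟨0,
  [(5,0)]⟩,⟨0,[(24,0),(2,0)]⟩) .k (.x (-1) ⟨4,[(1,1),(0,3),(2,6),(15,1),(1,2),(1,6),(4,0),(1,3),(1,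
  1)]⟩ ⟨2,[(4,1),(17,1),(1,5)]⟩)) (.R ⟨0,false,false,true,[0,0,1],[0,1,-1],[0,1],(⟨0,[(25,0)]⟩,⟨0,
  [(24,0)]⟩),(⟨0,[(6,0)]⟩,⟨0,[(25,0),(2,0)]⟩),⟨0,[(6,0)]⟩,.k,.k,.k,(.r (-1) ⟨4,[(3,2),(1,1),(1,1),
  (0,2),(3,1),(1,1)]⟩ ⟨0,[(2,0)]⟩),.k,.k,⟨false,1,⟨0,[(3,0),(1,0),(27,0)]⟩,⟨4,[(2,2),(17,0),(2,0),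
  (8,0),(2,0)]⟩⟩,⟨true,0,⟨0,[(5,0)]⟩,⟨0,[(22,1)]⟩⟩,⟨true,0,⟨2,[(2,0),(1,0),(25,0)]⟩,⟨0,[(1,0)]⟩⟩,
  ⟨false,0,⟨4,[(0,2),(1,1),(6,2),(13,0)]⟩,⟨0,[(1,0),(1,0)]⟩⟩,⟨false,0,⟨0,[]⟩,⟨0,[]⟩⟩,⟨false,0,⟨0,
  []⟩,⟨0,[]⟩⟩,[.e ⟨false,0,⟨0,[(33,0)]⟩,⟨1,[(15,0),(0,0),(20,0)]⟩⟩ ⟨false,0,⟨3,[(0,2),(9,0),(12,0),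
  (6,1)]⟩,⟨0,[(3,0)]⟩⟩,.e ⟨false,1,⟨1,[(15,0),(0,0),(19,0)]⟩,⟨0,[]⟩⟩ ⟨false,0,⟨0,[(0,0)]⟩,⟨0,[(3,0),
  (35,0)]⟩⟩,.o ⟨false,1,⟨2,[(2,0),(0,0),(3,0),(19,0),(2,0)]⟩,⟨0,[(13,0)]⟩⟩,.a ⟨true,0,⟨0,[(22,0)]⟩,
  ⟨0,[(19,0)]⟩⟩ ⟨true,0,⟨0,[(33,0)]⟩,⟨1,[(22,0),(0,0)]⟩⟩ ⟨false,0,⟨0,[(0,0)]⟩,⟨1,[(3,1),(18,0),(0,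
  0)]⟩⟩]⟩) (.R ⟨0,false,false,true,[0,0,1],[0,1,-1],[0,1],(⟨0,[(25,0)]⟩,⟨0,[(24,0)]⟩),(⟨0,[(6,0)]⟩,
  ⟨0,[(25,0),(2,0)]⟩),⟨0,[(6,0)]⟩,.k,.k,.k,(.r (-1) ⟨4,[(3,2),(1,1),(1,1),(0,2),(3,1),(1,1)]⟩ ⟨0,
  [(2,0)]⟩),.k,.k,⟨false,1,⟨0,[(3,0),(1,0),(27,0)]⟩,⟨4,[(2,2),(17,0),(2,0),(8,0),(2,0)]⟩⟩,⟨true,0,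
  ⟨0,[(5,0)]⟩,⟨0,[(22,1)]⟩⟩,⟨true,0,⟨2,[(2,0),(1,0),(25,0)]⟩,⟨0,[(1,0)]⟩⟩,⟨false,0,⟨0,[(9,0),(0,
  0)]⟩,⟨0,[(1,0),(1,0)]⟩⟩,⟨false,0,⟨0,[]⟩,⟨0,[]⟩⟩,⟨false,0,⟨0,[]⟩,⟨0,[]⟩⟩,[.e ⟨false,0,⟨0,[(33,0)]⟩,
  ⟨1,[(15,0),(0,0),(20,0)]⟩⟩ ⟨false,0,⟨1,[(5,0),(4,1),(19,0)]⟩,⟨0,[(3,0)]⟩⟩,.a ⟨true,0,⟨0,[(10,0)]⟩,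
  ⟨0,[(0,0),(18,0)]⟩⟩ ⟨false,1,⟨1,[(15,0),(0,0),(19,0)]⟩,⟨0,[]⟩⟩ ⟨true,0,⟨2,[(5,0),(4,2),(12,0)]⟩,
  ⟨0,[(0,0)]⟩⟩,.o ⟨false,1,⟨2,[(2,0),(0,0),(3,0),(19,0),(2,0)]⟩,⟨0,[(13,0)]⟩⟩,.e ⟨true,0,⟨0,[(33,
  0)]⟩,⟨1,[(22,0),(0,0)]⟩⟩ ⟨true,0,⟨1,[(5,0),(4,1),(19,0)]⟩,⟨0,[(0,0)]⟩⟩]⟩)) (.R ⟨0,false,false,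
  false,[0,0,1],[0,1,-1],[1,0,0,0,0,0,0,1],(⟨0,[(24,0)]⟩,⟨0,[(23,0)]⟩),(⟨0,[(5,0)]⟩,⟨0,[(24,0),(2,
  0)]⟩),⟨0,[(5,0)]⟩,.k,.k,.k,(.r (-1) ⟨4,[(2,2),(1,1),(1,1),(0,2),(3,1),(1,1)]⟩ ⟨0,[(1,0)]⟩),.k,.k,
  ⟨false,1,⟨0,[(2,0),(1,0),(2,0)]⟩,⟨0,[(1,0)]⟩⟩,⟨true,0,⟨0,[(4,0)]⟩,⟨0,[(21,1)]⟩⟩,⟨true,0,⟨0,[]⟩,⟨0,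
  [(38,0)]⟩⟩,⟨false,0,⟨0,[(0,1),(3,0),(26,0)]⟩,⟨3,[(2,2),(3,0),(4,0),(1,0),(5,2)]⟩⟩,⟨false,0,⟨0,[]⟩,
  ⟨0,[]⟩⟩,⟨false,0,⟨0,[]⟩,⟨0,[]⟩⟩,[.e ⟨false,1,⟨1,[(6,0),(6,0),(5,0),(15,0)]⟩,⟨0,[(0,0)]⟩⟩ ⟨false,0,
  ⟨0,[(0,0),(3,0),(29,0)]⟩,⟨0,[(2,0),(35,0)]⟩⟩,.o ⟨false,1,⟨1,[(9,1),(16,0),(9,0)]⟩,⟨0,[(10,0)]⟩⟩,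
  .o ⟨false,1,⟨2,[(1,0),(0,0),(3,0),(19,0),(2,0)]⟩,⟨0,[(12,0)]⟩⟩,.a ⟨true,0,⟨0,[(21,0)]⟩,⟨0,[(18,
  0)]⟩⟩ ⟨false,1,⟨0,[(6,0),(11,0)]⟩,⟨0,[(8,0),(12,0)]⟩⟩ ⟨true,0,⟨0,[(0,0),(3,0),(29,0)]⟩,⟨0,[(10,0),
  (10,0)]⟩⟩]⟩)) (.I [1,1,1,0,-1,0,0,1] (.Q [0,0,-1,-1,0,0,0,1,0,1] (.pp false [-1,1]) (.R ⟨0,false,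
  false,true,[0,0,1],[1,-1,1],[1,0,1],(⟨0,[(25,0)]⟩,⟨0,[(24,0)]⟩),(⟨0,[(25,0),(2,0)]⟩,⟨0,[(6,0)]⟩),
  ⟨0,[(6,0)]⟩,.k,.k,.k,.k,.k,.k,⟨true,0,⟨0,[(9,0),(12,0),(9,0)]⟩,⟨2,[(2,1),(1,0),(25,0)]⟩⟩,⟨false,0,
  ⟨0,[(19,0),(2,0)]⟩,⟨1,[(27,0),(8,0)]⟩⟩,⟨true,0,⟨0,[(9,0),(12,0)]⟩,⟨0,[(8,0)]⟩⟩,⟨false,0,⟨0,[(0,0),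
  (8,0),(12,0)]⟩,⟨0,[(7,0),(2,0)]⟩⟩,⟨false,0,⟨0,[]⟩,⟨0,[]⟩⟩,⟨false,0,⟨0,[]⟩,⟨0,[]⟩⟩,[.o ⟨false,0,⟨0,
  [(11,0)]⟩,⟨1,[(10,1),(16,0),(9,0)]⟩⟩,.e ⟨false,1,⟨1,[(15,0),(0,0),(20,0)]⟩,⟨0,[(33,0)]⟩⟩ ⟨false,0,
  ⟨0,[(0,0)]⟩,⟨1,[(10,1),(11,1),(4,0),(8,0)]⟩⟩,.o ⟨false,1,⟨1,[(22,1),(4,0),(8,0)]⟩,⟨0,[(13,0)]⟩⟩,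
  .a ⟨true,0,⟨0,[(22,0)]⟩,⟨0,[(19,0)]⟩⟩ ⟨true,0,⟨0,[]⟩,⟨0,[(39,0)]⟩⟩ ⟨false,0,⟨0,[(0,0)]⟩,⟨1,[(10,
  1),(11,1),(4,0),(9,0)]⟩⟩]⟩) (.R ⟨0,false,false,true,[0,0,1],[1,0,-1],[1,0,1],(⟨0,[(25,0)]⟩,⟨0,
  [(24,0)]⟩),(⟨0,[(24,0)]⟩,⟨0,[(25,0)]⟩),⟨0,[(6,0)]⟩,.k,.k,.k,.k,.k,.k,⟨true,0,⟨0,[(1,0),(35,0)]⟩,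
  ⟨0,[(4,0),(30,0)]⟩⟩,⟨false,0,⟨2,[(5,0),(8,0),(4,1)]⟩,⟨0,[(0,0),(2,0),(29,0)]⟩⟩,⟨true,0,⟨0,[(9,0),
  (12,0)]⟩,⟨0,[(8,0)]⟩⟩,⟨false,0,⟨0,[(9,1),(9,0),(2,0)]⟩,⟨0,[(0,0),(1,0),(0,0),(31,0)]⟩⟩,⟨false,0,
  ⟨0,[]⟩,⟨0,[]⟩⟩,⟨false,0,⟨0,[]⟩,⟨0,[]⟩⟩,[.o ⟨false,0,⟨0,[(21,0)]⟩,⟨0,[(7,0)]⟩⟩,.o ⟨false,0,⟨0,[(9,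
  0)]⟩,⟨3,[(7,1),(7,0),(0,0),(3,1),(6,0)]⟩⟩,.o ⟨false,1,⟨7,[(0,3),(2,3),(11,0),(0,0),(10,1),(2,1),
  (5,0)]⟩,⟨0,[(13,0)]⟩⟩,.a ⟨true,0,⟨0,[(22,0)]⟩,⟨0,[(19,0)]⟩⟩ ⟨true,0,⟨0,[]⟩,⟨0,[(39,0)]⟩⟩ ⟨false,0,
  ⟨0,[(9,0),(9,0)]⟩,⟨0,[(7,0),(14,0)]⟩⟩]⟩)) (.Q [0,0,-2,0,1,0,0,0,0,-1] (.pp true [-1,1]) (.R ⟨0,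
  false,false,true,[0,0,1],[1,0,-1],[1,0,1],(⟨0,[(25,0)]⟩,⟨0,[(24,0)]⟩),(⟨0,[(24,0)]⟩,⟨0,[(25,0)]⟩),
  ⟨0,[(6,0)]⟩,.k,.k,.k,.k,.k,.k,⟨true,0,⟨0,[(2,0),(6,0),(12,0),(9,0)]⟩,⟨0,[(4,0),(30,0)]⟩⟩,⟨false,0,
  ⟨2,[(5,0),(8,0),(4,1)]⟩,⟨0,[(0,0),(21,1)]⟩⟩,⟨true,0,⟨0,[(9,0),(12,0)]⟩,⟨0,[(8,0)]⟩⟩,⟨false,0,⟨0,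
  [(9,1),(9,0),(2,0)]⟩,⟨0,[(0,0),(1,0),(19,1),(9,0)]⟩⟩,⟨false,0,⟨0,[]⟩,⟨0,[]⟩⟩,⟨false,0,⟨0,[]⟩,⟨0,
  []⟩⟩,[.o ⟨false,0,⟨0,[(21,0)]⟩,⟨0,[(7,0)]⟩⟩,.o ⟨false,0,⟨0,[(9,0)]⟩,⟨3,[(7,1),(7,0),(0,0),(3,1),
  (6,0)]⟩⟩,.o ⟨false,1,⟨2,[(1,0),(5,0),(14,1),(4,0),(2,0)]⟩,⟨0,[(13,0)]⟩⟩,.a ⟨true,0,⟨0,[(22,0)]⟩,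
  ⟨0,[(19,0)]⟩⟩ ⟨true,0,⟨0,[]⟩,⟨0,[(39,0)]⟩⟩ ⟨false,0,⟨0,[(9,0),(9,0)]⟩,⟨0,[(7,0),(14,0)]⟩⟩]⟩) (.R
  ⟨0,false,false,true,[0,0,1],[1,-1,1],[1,0,1],(⟨0,[(25,0)]⟩,⟨0,[(24,0)]⟩),(⟨0,[(25,0),(2,0)]⟩,⟨0,
  [(6,0)]⟩),⟨0,[(6,0)]⟩,.k,.k,.k,.k,.k,.k,⟨true,0,⟨0,[(9,0),(12,0),(9,0)]⟩,⟨2,[(2,1),(1,0),(25,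
  0)]⟩⟩,⟨false,0,⟨0,[(19,0),(2,0)]⟩,⟨1,[(27,0),(8,0)]⟩⟩,⟨true,0,⟨0,[(9,0),(12,0)]⟩,⟨0,[(8,0)]⟩⟩,
  ⟨false,0,⟨3,[(0,1),(0,0),(0,0),(0,0),(0,1),(14,1)]⟩,⟨0,[(7,0),(2,0)]⟩⟩,⟨false,0,⟨0,[]⟩,⟨0,[]⟩⟩,
  ⟨false,0,⟨0,[]⟩,⟨0,[]⟩⟩,[.o ⟨false,0,⟨0,[(11,0)]⟩,⟨1,[(10,1),(16,0),(9,0)]⟩⟩,.e ⟨false,1,⟨1,[(15,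
  0),(0,0),(20,0)]⟩,⟨0,[(33,0)]⟩⟩ ⟨false,0,⟨0,[(0,0),(0,0),(0,0),(30,0)]⟩,⟨9,[(1,3),(8,5),(4,0),(0,
  0),(5,5),(4,4),(2,1),(4,3)]⟩⟩,.o ⟨false,1,⟨2,[(1,0),(5,0),(14,1),(4,0),(2,0)]⟩,⟨0,[(13,0)]⟩⟩,.a
  ⟨true,0,⟨0,[(22,0)]⟩,⟨0,[(19,0)]⟩⟩ ⟨true,0,⟨0,[]⟩,⟨0,[(39,0)]⟩⟩ ⟨false,0,⟨0,[(0,0),(0,0),(0,0),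
  (30,0)]⟩,⟨1,[(10,1),(11,1),(4,0),(9,0)]⟩⟩]⟩)))) (.I [1,0,0,0,0,0,0,-1] (.R ⟨0,false,false,false,
  [0,0,1],[0,1,-1],[0,0,1],(⟨0,[(23,0)]⟩,⟨0,[(22,0)]⟩),(⟨0,[(4,0)]⟩,⟨0,[(23,0),(2,0)]⟩),⟨0,[(4,0)]⟩,
  .k,.k,.k,(.r (-1) ⟨0,[(5,0),(4,0),(6,0)]⟩ ⟨0,[(0,0),(7,0),(11,0)]⟩),.k,.k,⟨false,1,⟨1,[(10,1),(23,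
  0),(0,0)]⟩,⟨0,[(0,0),(32,0)]⟩⟩,⟨true,0,⟨0,[(3,0)]⟩,⟨0,[(20,1)]⟩⟩,⟨true,0,⟨0,[(7,0),(12,0)]⟩,⟨0,
  [(6,0)]⟩⟩,⟨false,0,⟨0,[(0,0),(0,0),(33,0)]⟩,⟨0,[(9,0),(8,0),(16,0)]⟩⟩,⟨false,0,⟨0,[]⟩,⟨0,[]⟩⟩,
  ⟨false,0,⟨0,[]⟩,⟨0,[]⟩⟩,[.o ⟨false,0,⟨0,[(0,0),(0,0),(3,0)]⟩,⟨1,[(9,1),(3,0),(0,0),(20,0)]⟩⟩,.o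
  ⟨false,1,⟨1,[(8,1),(16,0),(9,0)]⟩,⟨0,[(9,0)]⟩⟩,.o ⟨false,1,⟨1,[(20,1),(4,0),(8,0)]⟩,⟨0,[(11,0)]⟩⟩,
  .a ⟨true,0,⟨0,[(20,0)]⟩,⟨0,[(17,0)]⟩⟩ ⟨false,1,⟨1,[(13,0),(0,0),(20,0)]⟩,⟨0,[]⟩⟩ ⟨true,0,⟨1,[(1,
  1),(32,0),(0,0)]⟩,⟨0,[(9,0),(10,0)]⟩⟩]⟩) (.Q [0,0,0,1,0,0,1,1,0,0,1] (.p true [0,0,1] [] (⟨0,[(23,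
  0)]⟩,⟨0,[(22,0)]⟩) .k 0 (⟨0,[]⟩,⟨0,[]⟩) .k .k) (.Q [0,0,0,0,0,-1,0,0,0,1,-1] (.ed true [0,1,1]
  .k) (.R ⟨2,true,false,false,[0,1],[0,1,1],[1,1,1],(⟨0,[]⟩,⟨0,[]⟩),(⟨0,[(25,0),(3,0)]⟩,⟨0,[(0,
  0)]⟩),⟨0,[]⟩,.k,.k,.k,.k,.k,.k,⟨true,0,⟨0,[(4,0)]⟩,⟨0,[(2,0),(29,0)]⟩⟩,⟨false,1,⟨0,[(22,0),(13,
  0)]⟩,⟨0,[(13,0)]⟩⟩,⟨true,0,⟨0,[(34,0)]⟩,⟨0,[(35,0)]⟩⟩,⟨false,1,⟨0,[(20,0),(16,0)]⟩,⟨0,[(9,0)]⟩⟩,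
  ⟨false,0,⟨0,[]⟩,⟨1,[(15,0),(0,0),(20,0)]⟩⟩,⟨true,0,⟨0,[(1,0)]⟩,⟨2,[(4,2),(0,0),(17,0)]⟩⟩,[]⟩) (.Q
  [0,-1,0,0,1,0,2,2,0,-1,2] (.p true [0,0,1] [1,0,-1] (⟨0,[(25,0)]⟩,⟨0,[(24,0)]⟩) .k 2 (⟨0,[(24,
  0)]⟩,⟨0,[(25,0)]⟩) .k (.r 0 ⟨0,[(2,1)]⟩ ⟨1,[(4,1),(5,1),(11,1),(13,0),(0,0)]⟩)) (.R ⟨0,false,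
  false,true,[0,0,1],[1,0,-1],[0,1],(⟨0,[(26,0)]⟩,⟨0,[(25,0)]⟩),(⟨0,[(25,0)]⟩,⟨0,[(26,0)]⟩),⟨0,[(7,
  0)]⟩,.k,.k,.k,.k,.k,.k,⟨true,0,⟨0,[(3,0)]⟩,⟨0,[(10,0),(12,0)]⟩⟩,⟨false,0,⟨2,[(6,0),(8,0),(4,1)]⟩,
  ⟨1,[(1,1),(5,1),(15,3),(3,3),(6,1),(2,0),(0,0)]⟩⟩,⟨true,0,⟨0,[(5,0),(30,0)]⟩,⟨0,[(3,0)]⟩⟩,⟨false,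
  0,⟨0,[(10,1),(9,0),(2,0)]⟩,⟨0,[(0,0)]⟩⟩,⟨false,0,⟨0,[]⟩,⟨0,[]⟩⟩,⟨false,0,⟨0,[]⟩,⟨0,[]⟩⟩,[.o
  ⟨false,0,⟨0,[(22,0)]⟩,⟨0,[(8,0)]⟩⟩,.o ⟨false,0,⟨0,[(10,0)]⟩,⟨2,[(0,0),(15,0),(0,0),(3,0),(6,0)]⟩⟩,
  .o ⟨false,1,⟨1,[(23,1),(4,0),(8,0)]⟩,⟨0,[(14,0)]⟩⟩,.a ⟨true,0,⟨0,[(23,0)]⟩,⟨0,[(20,0)]⟩⟩ ⟨true,0,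
  ⟨0,[(34,0)]⟩,⟨1,[(23,0),(0,0)]⟩⟩ ⟨false,0,⟨0,[(10,0),(9,0)]⟩,⟨3,[(0,1),(22,3),(4,0),(9,0)]⟩⟩]⟩)
  (.I [0,0,0,0,1,0,0,0,-1] (.I [0,0,-1,0,0,1,-1] (.I [0,0,1,0,0,1,1] (.I [0,0,0,1,0,1,1,1] (.C [(0,
  0),(3,0),(0,0),(10,0),(14,1),(10,0)]) (.C [(0,0),(5,0),(4,0)])) (.C [(0,0),(9,0),(15,0)])) (.C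
  [(0,0),(2,0),(18,0)])) (.C [(0,0),(16,0),(2,0)])))) (.Q [0,0,0,0,0,0,-1,0,0,-1,-1] (.p false [1,
  -1,1] [] (⟨0,[(24,0),(2,0)]⟩,⟨0,[(5,0)]⟩) .k 0 (⟨0,[]⟩,⟨0,[]⟩) .k .k) (.Q [0,0,0,-1,0,0,0,0,0,1]
  (.pp false [-1,1]) (.R ⟨0,false,false,false,[0,1,-1],[0,1],[0,1,1,0,0,0,0,-1],(⟨0,[(7,0)]⟩,⟨0,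
  [(26,0),(2,0)]⟩),(⟨0,[(30,0)]⟩,⟨0,[(29,0)]⟩),⟨0,[(26,0)]⟩,.k,.k,.k,.k,.k,.k,⟨true,0,⟨0,[(5,0)]⟩,
  ⟨0,[(3,0),(29,0)]⟩⟩,⟨false,1,⟨0,[(23,0),(13,0)]⟩,⟨0,[(14,0)]⟩⟩,⟨true,0,⟨0,[(35,0)]⟩,⟨0,[(36,0)]⟩⟩,
  ⟨false,1,⟨0,[(21,0),(16,0)]⟩,⟨0,[(10,0)]⟩⟩,⟨false,0,⟨0,[]⟩,⟨0,[]⟩⟩,⟨false,0,⟨0,[]⟩,⟨0,[]⟩⟩,[.a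
  ⟨true,0,⟨0,[(36,0)]⟩,⟨0,[(0,0)]⟩⟩ ⟨false,0,⟨0,[(5,0),(30,0)]⟩,⟨0,[(8,0),(11,0)]⟩⟩ ⟨true,0,⟨0,[(23,
  0),(12,0)]⟩,⟨0,[(0,0),(0,0)]⟩⟩,.o ⟨false,1,⟨0,[(8,0),(2,0)]⟩,⟨0,[(35,0)]⟩⟩,.o ⟨false,1,⟨7,[(6,1),
  (8,1),(12,4),(8,2)]⟩,⟨0,[(23,0)]⟩⟩,.o ⟨false,0,⟨0,[(1,0)]⟩,⟨1,[(16,0),(0,0),(5,1),(13,0)]⟩⟩]⟩)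
  (.I [0,-1,1,1] (.R ⟨0,false,false,false,[0,0,1],[0,1],[1,1,1],(⟨0,[(27,0)]⟩,⟨0,[(26,0)]⟩),(⟨0,
  [(31,0)]⟩,⟨0,[(30,0)]⟩),⟨0,[(8,0)]⟩,.k,.k,.k,.k,.k,.k,⟨true,0,⟨0,[(36,0)]⟩,⟨0,[(0,0)]⟩⟩,⟨false,1,
  ⟨7,[(7,1),(8,1),(12,0),(8,6)]⟩,⟨0,[(24,0)]⟩⟩,⟨false,0,⟨0,[(11,0),(12,0)]⟩,⟨0,[(9,0),(11,0)]⟩⟩,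
  ⟨true,0,⟨0,[(12,0)]⟩,⟨0,[(13,0)]⟩⟩,⟨false,0,⟨0,[]⟩,⟨0,[]⟩⟩,⟨false,0,⟨0,[]⟩,⟨0,[]⟩⟩,[.o ⟨false,0,
  ⟨0,[(1,0)]⟩,⟨1,[(17,0),(0,0),(17,1),(2,0)]⟩⟩,.o ⟨false,1,⟨0,[(9,0),(2,0)]⟩,⟨0,[(36,0)]⟩⟩,.o
  ⟨false,1,⟨1,[(24,1),(4,0),(8,0)]⟩,⟨0,[(15,0)]⟩⟩,.a ⟨true,0,⟨0,[(24,0)]⟩,⟨0,[(21,0)]⟩⟩ ⟨false,0,⟨0,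
  []⟩,⟨1,[(17,0),(0,0),(20,0)]⟩⟩ ⟨true,0,⟨0,[(1,0),(19,0)]⟩,⟨0,[(24,0),(11,0)]⟩⟩]⟩) (.R ⟨0,false,
  false,true,[0,0,1],[1,-1],[0,1,0,-1],(⟨0,[(27,0)]⟩,⟨0,[(26,0)]⟩),(⟨0,[(30,0)]⟩,⟨0,[(31,0)]⟩),⟨0,
  [(8,0)]⟩,.k,.k,.k,.k,.k,.k,⟨true,0,⟨1,[(24,0),(0,0)]⟩,⟨0,[]⟩⟩,⟨false,0,⟨1,[(16,0),(4,0),(2,0)]⟩,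
  ⟨1,[(0,1),(0,1),(22,1),(13,0),(0,0)]⟩⟩,⟨true,0,⟨0,[(6,0)]⟩,⟨0,[(4,0),(32,0)]⟩⟩,⟨false,0,⟨0,[(3,0),
  (17,0),(2,0)]⟩,⟨0,[(9,0),(27,0)]⟩⟩,⟨false,0,⟨0,[]⟩,⟨0,[]⟩⟩,⟨false,0,⟨0,[]⟩,⟨0,[]⟩⟩,[.o ⟨false,0,
  ⟨0,[(36,0)]⟩,⟨0,[(9,0),(2,0)]⟩⟩,.o ⟨false,1,⟨1,[(17,0),(0,0),(17,1),(2,0)]⟩,⟨0,[(1,0)]⟩⟩,.o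
  ⟨false,1,⟨1,[(24,1),(4,0),(8,0)]⟩,⟨0,[(15,0)]⟩⟩,.a ⟨true,0,⟨0,[(24,0)]⟩,⟨0,[(21,0)]⟩⟩ ⟨false,1,⟨1,
  [(36,1),(1,0),(0,0)]⟩,⟨0,[(34,0)]⟩⟩ ⟨true,0,⟨0,[(21,0),(14,0)]⟩,⟨0,[(1,0),(22,0)]⟩⟩]⟩))) (.R ⟨0,
  false,false,true,[0,1,-1],[1,0,-1],[0,1,1,0,0,0,0,-1],(⟨0,[(6,0)]⟩,⟨0,[(25,0),(2,0)]⟩),(⟨0,[(24,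
  0)]⟩,⟨0,[(25,0)]⟩),⟨0,[(25,0)]⟩,.k,.k,.k,.k,.k,.k,⟨true,0,⟨1,[(22,0),(0,0)]⟩,⟨0,[]⟩⟩,⟨false,0,⟨2,
  [(0,1),(13,0)]⟩,⟨1,[(27,0),(8,0)]⟩⟩,⟨true,0,⟨0,[(34,0)]⟩,⟨0,[(35,0)]⟩⟩,⟨false,0,⟨0,[(0,0),(0,0),
  (0,0)]⟩,⟨0,[(7,0),(2,0)]⟩⟩,⟨false,0,⟨0,[]⟩,⟨0,[]⟩⟩,⟨false,0,⟨0,[]⟩,⟨0,[]⟩⟩,[.o ⟨false,0,⟨0,[(21,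
  0)]⟩,⟨0,[(7,0)]⟩⟩,.o ⟨false,0,⟨0,[(9,0)]⟩,⟨3,[(7,1),(7,0),(0,0),(3,1),(6,0)]⟩⟩,.o ⟨false,1,⟨7,[(5,
  1),(8,1),(12,4),(8,2)]⟩,⟨0,[(22,0)]⟩⟩,.a ⟨true,0,⟨0,[(13,0)]⟩,⟨0,[(0,0)]⟩⟩ ⟨true,0,⟨0,[(4,0),(30,
  0)]⟩,⟨0,[(2,0)]⟩⟩ ⟨false,0,⟨0,[(0,0),(8,0)]⟩,⟨2,[(5,0),(1,2),(15,0)]⟩⟩]⟩)))))))) (.I [1,-1,1,1,0,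
  0,0,-1] (.Q [0,0,0,0,0,-1,0,0,0,0,1] (.ed false [1,-1,1] .k) (.S ⟨1,0,[0,0,0,0,0,0,0,1],[0,0,1],
  [1,0,1],(⟨0,[(20,0)]⟩,⟨0,[(19,0)]⟩),⟨0,[(0,0)]⟩,.k,.k,⟨true,0,⟨0,[(4,0),(12,0)]⟩,⟨0,[(3,0)]⟩⟩,
  ⟨false,1,⟨1,[(10,0),(0,0),(20,0)]⟩,⟨0,[]⟩⟩,⟨false,0,⟨0,[(1,0)]⟩,⟨1,[(7,1),(23,0),(0,0)]⟩⟩,⟨true,0,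
  ⟨0,[(30,0)]⟩,⟨0,[(29,0)]⟩⟩,[.o ⟨false,1,⟨1,[(15,1),(6,0),(9,0)]⟩,⟨0,[(4,0)]⟩⟩,.e ⟨false,1,⟨1,[(10,
  0),(0,0),(20,0)]⟩,⟨0,[(28,0)]⟩⟩ ⟨false,1,⟨0,[(3,0),(28,0)]⟩,⟨4,[(2,2),(1,1),(12,4),(7,0),(0,0),(4,
  1)]⟩⟩,.o ⟨false,1,⟨1,[(17,1),(4,0),(8,0)]⟩,⟨0,[(8,0)]⟩⟩,.a ⟨true,0,⟨0,[(17,0)]⟩,⟨0,[(14,0)]⟩⟩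
  ⟨true,0,⟨0,[]⟩,⟨0,[(34,0)]⟩⟩ ⟨false,1,⟨0,[(3,0),(28,0)]⟩,⟨0,[(4,0),(12,0)]⟩⟩]⟩) (.Q [0,0,0,1,0,0,
  -1,-1,0,-1,-1] (.p false [1,-1,1] [] (⟨0,[(20,0),(2,0)]⟩,⟨0,[(0,0)]⟩) .k 0 (⟨0,[]⟩,⟨0,[]⟩) .k .k)
  (.R ⟨0,false,false,true,[0,0,1],[1,-1,1],[0,1,0,-1,0,0,0,1],(⟨0,[(21,0)]⟩,⟨0,[(20,0)]⟩),(⟨0,[(21,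
  0),(2,0)]⟩,⟨0,[(1,0)]⟩),⟨0,[(1,0)]⟩,.k,.k,.k,.k,.k,.k,⟨true,0,⟨1,[(18,0),(0,0)]⟩,⟨0,[]⟩⟩,⟨false,0,
  ⟨0,[(15,0),(2,0)]⟩,⟨1,[(23,0),(8,0)]⟩⟩,⟨true,0,⟨0,[(30,0)]⟩,⟨0,[(31,0)]⟩⟩,⟨false,0,⟨0,[(3,0),(3,
  0),(25,0)]⟩,⟨1,[(23,0),(7,1),(1,0)]⟩⟩,⟨false,0,⟨0,[]⟩,⟨0,[]⟩⟩,⟨false,0,⟨0,[]⟩,⟨0,[]⟩⟩,[.o ⟨false,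
  0,⟨0,[(7,0)]⟩,⟨1,[(6,1),(16,0),(9,0)]⟩⟩,.o ⟨false,1,⟨1,[(7,1),(3,0),(0,0),(20,0)]⟩,⟨0,[(0,0)]⟩⟩,
  .o ⟨false,1,⟨1,[(18,1),(4,0),(8,0)]⟩,⟨0,[(9,0)]⟩⟩,.a ⟨true,0,⟨0,[(18,0)]⟩,⟨0,[(15,0)]⟩⟩ ⟨false,1,
  ⟨1,[(8,1),(23,0),(0,0)]⟩,⟨0,[(2,0)]⟩⟩ ⟨true,0,⟨0,[(7,0),(7,0)]⟩,⟨0,[(0,0),(17,0)]⟩⟩]⟩) (.I [0,-1,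
  -1,-1,1,0,0,1] (.R ⟨0,false,false,false,[0,0,1],[1,-1,1],[1,1,1],(⟨0,[(22,0)]⟩,⟨0,[(21,0)]⟩),(⟨0,
  [(22,0),(2,0)]⟩,⟨0,[(2,0)]⟩),⟨0,[(2,0)]⟩,.k,.k,.k,.k,.k,.k,⟨true,(-1),⟨1,[(4,2),(12,0),(1,1),(8,
  0),(0,1)]⟩,⟨0,[(0,0)]⟩⟩,⟨false,0,⟨6,[(1,3),(1,3),(7,0),(4,1),(10,1)]⟩,⟨1,[(24,0),(8,0)]⟩⟩,⟨false,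
  0,⟨0,[(6,0),(12,0)]⟩,⟨0,[(5,0),(28,0)]⟩⟩,⟨true,0,⟨0,[(1,0),(4,0)]⟩,⟨1,[(4,0),(12,0),(10,0),(3,
  1)]⟩⟩,⟨false,0,⟨0,[]⟩,⟨0,[]⟩⟩,⟨false,0,⟨0,[]⟩,⟨0,[]⟩⟩,[.a ⟨true,0,⟨0,[(1,0)]⟩,⟨0,[(7,0)]⟩⟩ ⟨false,
  0,⟨0,[(36,0)]⟩,⟨1,[(33,0),(0,0)]⟩⟩ ⟨true,0,⟨0,[(1,0),(8,0)]⟩,⟨1,[(3,0),(0,0),(14,0),(8,0),(3,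
  0)]⟩⟩,.o ⟨false,1,⟨1,[(1,1),(22,0),(9,0)]⟩,⟨1,[(4,0),(2,0),(20,0),(3,0),(3,0)]⟩⟩,.o ⟨false,1,⟨1,
  [(19,1),(4,0),(8,0)]⟩,⟨0,[(10,0)]⟩⟩,.e ⟨false,0,⟨0,[]⟩,⟨1,[(12,0),(0,0),(20,0)]⟩⟩ ⟨false,1,⟨2,[(0,
  0),(0,1),(9,0),(21,0),(0,0)]⟩,⟨1,[(3,0),(0,0),(14,0),(8,0),(3,0)]⟩⟩]⟩) (.I [0,-1,1,1] (.R ⟨0,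
  false,false,false,[0,0,1],[0,1],[1,1,1],(⟨0,[(23,0)]⟩,⟨0,[(22,0)]⟩),(⟨0,[(27,0)]⟩,⟨0,[(26,0)]⟩),
  ⟨0,[(3,0)]⟩,.k,.k,.k,.k,.k,.k,⟨true,0,⟨0,[(32,0)]⟩,⟨0,[(0,0)]⟩⟩,⟨false,1,⟨3,[(12,0),(4,1),(11,0),
  (4,2)]⟩,⟨0,[(20,0)]⟩⟩,⟨false,0,⟨0,[(7,0),(12,0)]⟩,⟨0,[(6,0),(28,0)]⟩⟩,⟨true,0,⟨0,[(8,0)]⟩,⟨0,[(9,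
  0)]⟩⟩,⟨false,0,⟨0,[]⟩,⟨0,[]⟩⟩,⟨false,0,⟨0,[]⟩,⟨0,[]⟩⟩,[.a ⟨true,0,⟨0,[(33,0)]⟩,⟨0,[(2,0),(4,0)]⟩⟩
  ⟨false,0,⟨0,[(37,0)]⟩,⟨1,[(34,0),(0,0)]⟩⟩ ⟨true,0,⟨1,[(6,0),(1,0),(2,0),(18,0)]⟩,⟨0,[(1,0),(0,1),
  (2,0),(23,0),(5,0)]⟩⟩,.o ⟨false,1,⟨1,[(25,0),(7,1),(1,0)]⟩,⟨0,[(32,0)]⟩⟩,.o ⟨false,1,⟨1,[(20,1),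
  (4,0),(8,0)]⟩,⟨0,[(11,0)]⟩⟩,.e ⟨false,0,⟨0,[]⟩,⟨1,[(13,0),(0,0),(20,0)]⟩⟩ ⟨false,1,⟨3,[(12,0),(4,
  1),(11,0),(3,3),(0,0),(0,1)]⟩,⟨0,[(1,0),(0,1),(2,0),(23,0),(5,0)]⟩⟩]⟩) (.R ⟨0,false,false,false,
  [0,0,1],[1,0,-1],[1,0,1],(⟨0,[(23,0)]⟩,⟨0,[(22,0)]⟩),(⟨0,[(22,0)]⟩,⟨0,[(23,0)]⟩),⟨0,[(3,0)]⟩,.k,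
  .k,.k,.k,.k,.k,⟨true,0,⟨0,[(10,0),(19,0)]⟩,⟨0,[(0,0),(0,0),(33,0)]⟩⟩,⟨false,0,⟨0,[(11,0),(5,0)]⟩,
  ⟨0,[(1,0),(0,1),(1,0),(24,0),(4,0)]⟩⟩,⟨true,0,⟨0,[(7,0),(12,0)]⟩,⟨0,[(6,0)]⟩⟩,⟨false,0,⟨0,[(5,0),
  (1,0),(27,0)]⟩,⟨0,[(2,1),(26,0),(3,1)]⟩⟩,⟨false,0,⟨0,[]⟩,⟨0,[]⟩⟩,⟨false,0,⟨0,[]⟩,⟨0,[]⟩⟩,[.o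
  ⟨false,0,⟨0,[(7,0)]⟩,⟨1,[(18,1),(6,0),(9,0)]⟩⟩,.a ⟨true,0,⟨0,[(5,0),(29,0)]⟩,⟨0,[(18,0)]⟩⟩ ⟨false,
  1,⟨1,[(13,0),(0,0),(20,0)]⟩,⟨0,[(31,0)]⟩⟩ ⟨true,0,⟨0,[(5,0),(5,0),(23,0)]⟩,⟨0,[(1,0),(0,1),(26,0),
  (3,0)]⟩⟩,.o ⟨false,1,⟨1,[(20,1),(4,0),(8,0)]⟩,⟨0,[(11,0)]⟩⟩,.e ⟨true,0,⟨0,[]⟩,⟨0,[(37,0)]⟩⟩ ⟨true,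
  0,⟨0,[(7,0),(9,0)]⟩,⟨0,[(1,0),(0,1),(26,0),(3,0)]⟩⟩]⟩))))) (.I [0,0,-2,-2,1] (.Q [0,0,2,0,-1,0,0,
  0,0,1] (.pp false [-1,1]) (.S ⟨1,0,[0,0,-1,-1],[1,-1],[0,1,-1,-1],(⟨0,[(24,0)]⟩,⟨0,[(25,0)]⟩),⟨1,
  [(0,0),(0,0),(20,2),(1,0),(6,1)]⟩,.k,(.r (-1) ⟨0,[(1,0)]⟩ ⟨0,[(28,1),(6,1)]⟩),⟨true,0,⟨0,[(35,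
  0)]⟩,⟨0,[]⟩⟩,⟨false,1,⟨1,[(11,0),(0,0),(20,0)]⟩,⟨0,[]⟩⟩,⟨false,0,⟨0,[(31,0)]⟩,⟨0,[(30,0),(2,0)]⟩⟩,
  ⟨true,0,⟨0,[(31,0)]⟩,⟨0,[(30,0)]⟩⟩,[.e ⟨false,1,⟨3,[(1,1),(9,0),(0,0),(13,1),(5,0)]⟩,⟨0,[(28,
  0)]⟩⟩ ⟨false,1,⟨1,[(1,0),(30,0)]⟩,⟨0,[(28,0),(6,0)]⟩⟩,.o ⟨false,1,⟨0,[(30,0),(2,0)]⟩,⟨1,[(3,0),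
  (12,0),(10,0),(3,1)]⟩⟩,.o ⟨false,0,⟨1,[(18,0),(0,0)]⟩,⟨1,[(23,0),(8,0)]⟩⟩,.a ⟨true,(-1),⟨0,[(0,
  0)]⟩,⟨0,[(32,0)]⟩⟩ ⟨false,1,⟨1,[(1,0),(30,0)]⟩,⟨1,[(18,0),(0,0),(8,1)]⟩⟩ ⟨true,1,⟨1,[(1,0),(30,
  0)]⟩,⟨1,[(0,1),(2,0),(12,0),(10,0),(3,1)]⟩⟩]⟩) (.S ⟨1,0,[0,1,-1,-1],[1,-1],[0,0,-1,-1],(⟨0,[(24,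
  0)]⟩,⟨0,[(25,0)]⟩),⟨1,[(2,0),(0,0),(14,0),(3,2),(1,0),(6,0),(1,0)]⟩,.k,(.r (-1) ⟨0,[(1,0)]⟩ ⟨0,
  [(28,1),(6,1)]⟩),⟨false,1,⟨1,[(11,0),(0,0),(20,0)]⟩,⟨0,[]⟩⟩,⟨true,0,⟨0,[(35,0)]⟩,⟨0,[]⟩⟩,⟨true,0,
  ⟨0,[(31,0)]⟩,⟨0,[(30,0)]⟩⟩,⟨false,0,⟨0,[(31,0)]⟩,⟨0,[(30,0),(2,0)]⟩⟩,[.o ⟨false,0,⟨0,[(30,0)]⟩,⟨1,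
  [(23,0),(7,1),(1,0)]⟩⟩,.a ⟨true,0,⟨0,[(3,0),(3,0),(25,0)]⟩,⟨0,[(31,0)]⟩⟩ ⟨true,1,⟨1,[(1,0),(31,
  0)]⟩,⟨1,[(3,2),(3,1),(8,0),(10,0),(0,3)]⟩⟩ ⟨false,1,⟨1,[(1,0),(30,0)]⟩,⟨0,[(28,0),(6,0)]⟩⟩,.o
  ⟨false,0,⟨1,[(18,0),(0,0)]⟩,⟨1,[(23,0),(8,0)]⟩⟩,.o ⟨false,0,⟨0,[(18,0),(0,0)]⟩,⟨0,[(0,0)]⟩⟩]⟩))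
  (.I [0,0,2,2,-1] (.Q [0,-1,0,1,1,0,1,1,0,-1,1] (.p true [0,0,1] [1] (⟨0,[(21,0)]⟩,⟨0,[(20,0)]⟩)
  .k 1 (⟨0,[]⟩,⟨0,[]⟩) .k .k) (.Q [0,0,1,0,-1,0,-1,0,0,1,-1] (.p false [0,0,1] [1] (⟨0,[(22,0)]⟩,⟨0,
  [(21,0)]⟩) .k 1 (⟨0,[]⟩,⟨0,[]⟩) .k .k) (.R ⟨2,true,false,true,[0,1],[1,0,-1],[1,1,1],(⟨0,[]⟩,⟨0,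
  []⟩),(⟨0,[(22,0)]⟩,⟨0,[(23,0)]⟩),⟨0,[]⟩,.k,.k,.k,.k,.k,.k,⟨false,0,⟨1,[(0,0),(0,0),(2,0)]⟩,⟨0,[(7,
  0),(12,0),(13,0)]⟩⟩,⟨true,(-1),⟨0,[(0,0)]⟩,⟨1,[(20,1),(4,0),(8,0)]⟩⟩,⟨true,0,⟨0,[(32,0)]⟩,⟨0,[(33,
  0)]⟩⟩,⟨false,0,⟨0,[(5,0),(26,0),(2,0)]⟩,⟨0,[(1,0)]⟩⟩,⟨false,0,⟨0,[]⟩,⟨1,[(13,0),(0,0),(20,0)]⟩⟩,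
  ⟨true,(-1),⟨0,[(5,0)]⟩,⟨3,[(1,1),(7,1),(3,0),(0,0),(10,0)]⟩⟩,[]⟩) (.Q [0,0,0,0,0,-1,0,0,0,1,-1]
  (.ed true [0,1,1] .k) (.R ⟨1,false,false,true,[1,0,-1],[1,-1],[1,0,0,-1,0,0,0,-1],(⟨0,[(23,0)]⟩,
  ⟨0,[(24,0)]⟩),(⟨0,[(27,0)]⟩,⟨0,[(28,0)]⟩),⟨0,[(0,0)]⟩,.k,.k,.k,.k,.k,.k,⟨false,1,⟨1,[(8,1),(12,1),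
  (13,0),(0,0)]⟩,⟨0,[(7,0)]⟩⟩,⟨true,0,⟨0,[(21,0)]⟩,⟨0,[(12,0)]⟩⟩,⟨false,1,⟨0,[(33,0),(2,0)]⟩,⟨0,
  [(34,0)]⟩⟩,⟨true,0,⟨0,[(10,0)]⟩,⟨0,[(9,0)]⟩⟩,⟨true,0,⟨0,[]⟩,⟨0,[(38,0)]⟩⟩,⟨true,0,⟨0,[(19,0)]⟩,⟨0,
  [(8,0)]⟩⟩,[.o ⟨false,0,⟨0,[(33,0)]⟩,⟨3,[(2,1),(6,1),(16,0),(9,0)]⟩⟩,.a ⟨true,0,⟨0,[(6,0),(3,0),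
  (25,0)]⟩,⟨0,[(34,0)]⟩⟩ ⟨true,1,⟨1,[(1,0),(4,3),(3,1),(10,0),(8,0),(5,3)]⟩,⟨0,[(3,0),(1,0)]⟩⟩
  ⟨false,1,⟨0,[(1,0),(4,0),(3,0),(25,0)]⟩,⟨15,[(2,1),(0,4),(3,1),(1,3),(3,2),(4,7),(11,2)]⟩⟩,.o
  ⟨false,0,⟨0,[(12,0)]⟩,⟨3,[(1,1),(12,0),(0,0),(5,1),(4,0)]⟩⟩,.o ⟨false,0,⟨0,[(22,0)]⟩,⟨0,[(1,
  0)]⟩⟩]⟩) (.R ⟨0,false,false,true,[1,0,-1],[1,-1],[1,0,0,-1,0,0,0,-1],(⟨0,[(23,0)]⟩,⟨0,[(24,0)]⟩),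
  (⟨0,[(27,0)]⟩,⟨0,[(28,0)]⟩),⟨0,[(0,0)]⟩,.k,.k,.k,.k,.k,.k,⟨false,1,⟨1,[(8,1),(12,1),(13,0),(0,
  0)]⟩,⟨0,[(7,0)]⟩⟩,⟨true,0,⟨0,[(21,0)]⟩,⟨0,[(12,0)]⟩⟩,⟨false,1,⟨0,[(33,0),(2,0)]⟩,⟨0,[(34,0)]⟩⟩,
  ⟨true,0,⟨0,[(10,0)]⟩,⟨0,[(9,0)]⟩⟩,⟨false,0,⟨0,[]⟩,⟨0,[]⟩⟩,⟨false,0,⟨0,[]⟩,⟨0,[]⟩⟩,[.o ⟨false,0,⟨0,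
  [(33,0)]⟩,⟨3,[(2,1),(6,1),(16,0),(9,0)]⟩⟩,.a ⟨true,0,⟨0,[(6,0),(3,0),(25,0)]⟩,⟨0,[(34,0)]⟩⟩ ⟨true,
  1,⟨1,[(1,0),(4,3),(3,1),(10,0),(8,0),(5,3)]⟩,⟨0,[(3,0),(1,0)]⟩⟩ ⟨false,1,⟨0,[(1,0),(4,0),(3,0),
  (25,0)]⟩,⟨15,[(2,1),(0,4),(3,1),(1,3),(3,2),(4,7),(11,2)]⟩⟩,.o ⟨false,0,⟨0,[(12,0)]⟩,⟨3,[(1,1),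
  (12,0),(0,0),(5,1),(4,0)]⟩⟩,.o ⟨false,0,⟨0,[(22,0)]⟩,⟨0,[(1,0)]⟩⟩]⟩))) (.I [0,0,-2,-1,1] (.S ⟨1,0,
  [0,1,-1,-1],[1,-1],[1,0,1],(⟨0,[(26,0)]⟩,⟨0,[(27,0)]⟩),⟨4,[(0,1),(0,0),(0,1),(1,0),(15,0),(3,5),
  (1,3),(8,0)]⟩,.k,(.r (-2) ⟨1,[(0,1),(12,0),(0,0),(17,1),(2,0)]⟩ ⟨0,[(2,0)]⟩),⟨false,0,⟨1,[(2,0),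
  (17,0),(0,0),(13,0)]⟩,⟨0,[(0,0)]⟩⟩,⟨true,0,⟨0,[(37,0)]⟩,⟨0,[]⟩⟩,⟨true,(-1),⟨0,[(3,0)]⟩,⟨0,[(0,0),
  (31,0)]⟩⟩,⟨false,0,⟨0,[(33,0)]⟩,⟨0,[(32,0),(2,0)]⟩⟩,[.o ⟨false,0,⟨0,[(32,0)]⟩,⟨1,[(2,0),(22,0),(8,
  0),(0,0)]⟩⟩,.e ⟨false,1,⟨1,[(13,0),(0,0),(20,0)]⟩,⟨0,[(31,0)]⟩⟩ ⟨false,1,⟨0,[(0,0)]⟩,⟨1,[(2,0),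
  (10,0),(0,0)]⟩⟩,.o ⟨false,0,⟨1,[(20,0),(0,0)]⟩,⟨1,[(25,0),(8,0)]⟩⟩,.a ⟨true,(-1),⟨0,[(1,0),(0,0),
  (6,0),(25,0)]⟩,⟨0,[(34,0)]⟩⟩ ⟨true,0,⟨0,[]⟩,⟨0,[(37,0)]⟩⟩ ⟨false,1,⟨0,[(0,0)]⟩,⟨1,[(2,0),(17,0),
  (0,0),(13,0)]⟩⟩]⟩) (.Q [0,-1,0,2,1,0,1,1,0,-1,1] (.p true [0,0,1] [1] (⟨0,[(23,0)]⟩,⟨0,[(22,0)]⟩)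
  .k 1 (⟨0,[]⟩,⟨0,[]⟩) .k .k) (.R ⟨1,true,false,false,[1,-1],[0,0,1],[1,0,-1,-2],(⟨0,[(27,0)]⟩,⟨0,
  [(28,0)]⟩),(⟨0,[(24,0)]⟩,⟨0,[(23,0)]⟩),⟨4,[(2,0),(0,0),(1,0),(15,0),(3,5),(1,3),(4,1),(3,1)]⟩,.k,
  .k,(.r (-2) ⟨0,[(33,1),(1,0),(0,0)]⟩ ⟨0,[(3,0)]⟩),.k,(.r (-2) ⟨3,[(2,2),(5,0),(12,3),(8,0),(2,4),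
  (1,5),(0,3)]⟩ ⟨1,[(1,1),(1,0),(3,1),(28,0)]⟩),.k,⟨true,1,⟨1,[(2,2),(7,0),(10,1),(8,0),(4,1),(0,
  1)]⟩,⟨1,[(1,1),(1,0),(3,1),(28,0)]⟩⟩,⟨false,2,⟨1,[(21,1),(4,0),(8,2)]⟩,⟨1,[(1,1),(0,0),(2,0),(12,
  0),(17,0)]⟩⟩,⟨false,1,⟨0,[(33,0),(2,0)]⟩,⟨0,[(34,0)]⟩⟩,⟨true,1,⟨3,[(0,1),(13,0),(0,0),(3,1),(6,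
  0)]⟩,⟨0,[(2,0)]⟩⟩,⟨true,0,⟨0,[]⟩,⟨0,[(38,0)]⟩⟩,⟨false,1,⟨0,[(0,0)]⟩,⟨0,[(2,0),(30,0),(2,0)]⟩⟩,
  []⟩) (.Q [0,0,0,0,0,1,0,0,0,-1,1] (.ed false [0,1,1] .k) (.R ⟨0,false,false,true,[-1,1,1],[0,1],
  [0,1],(⟨0,[(0,0)]⟩,⟨0,[(24,0),(3,0)]⟩),(⟨0,[(29,0)]⟩,⟨0,[(28,0)]⟩),⟨0,[(24,0)]⟩,.k,.k,.k,.k,.k,.k,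
  ⟨true,1,⟨1,[(34,1),(1,0),(0,0)]⟩,⟨0,[(2,0)]⟩⟩,⟨false,0,⟨0,[(19,0)]⟩,⟨1,[(22,1),(4,0),(8,0)]⟩⟩,
  ⟨false,1,⟨3,[(1,1),(7,1),(12,3),(4,0),(8,3),(0,0)]⟩,⟨0,[(4,0),(1,0),(30,0)]⟩⟩,⟨true,(-1),⟨0,[(7,
  0)]⟩,⟨1,[(20,1),(6,0),(9,0)]⟩⟩,⟨false,0,⟨0,[]⟩,⟨0,[]⟩⟩,⟨false,0,⟨0,[]⟩,⟨0,[]⟩⟩,[.o ⟨false,0,⟨5,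
  [(4,2),(25,1),(0,1),(1,1),(2,0)]⟩,⟨0,[(34,0),(2,0)]⟩⟩,.a ⟨true,0,⟨0,[(35,0)]⟩,⟨2,[(1,0),(9,0),(7,
  1),(2,1),(14,0)]⟩⟩ ⟨false,1,⟨1,[(15,0),(0,0),(19,0)]⟩,⟨0,[]⟩⟩ ⟨true,(-1),⟨0,[(2,0),(16,0)]⟩,⟨13,
  [(1,3),(9,3),(10,13),(8,5),(2,1),(1,6),(0,4)]⟩⟩,.o ⟨false,2,⟨0,[(22,0),(4,0),(8,0)]⟩,⟨2,[(1,0),(0,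
  2),(3,0),(12,1),(17,0)]⟩⟩,.e ⟨true,0,⟨0,[(33,0)]⟩,⟨1,[(22,0),(0,0)]⟩⟩ ⟨true,(-1),⟨1,[(4,0),(2,0),
  (0,0),(10,0)]⟩,⟨13,[(1,3),(9,3),(10,13),(8,5),(2,1),(1,6),(0,4)]⟩⟩]⟩) (.Q [-1,0,0,0,0,0,0,0,-1,1,
  0,-1] (.p false [0,0,0,0,1] [1] (⟨0,[(18,0)]⟩,⟨0,[(17,0)]⟩) .k 1 (⟨0,[]⟩,⟨0,[]⟩) .k .k) (.Q [0,0,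
  1,0,-1,0,-1,0,-1,1,-1,-1] (.p false [0,0,1] [1,0,0,0,-1] (⟨0,[(26,0)]⟩,⟨0,[(25,0)]⟩) .k 2 (⟨0,
  [(18,0)]⟩,⟨0,[(19,0)]⟩) .k (.r 0 ⟨1,[(3,0),(3,0),(1,0),(28,0)]⟩ ⟨1,[(22,1),(0,1),(13,0),(0,0)]⟩))
  (.Q [0,0,0,0,0,-1,0,0,0,0,0,1] (.ed false [1,-1,0,0,1] .k) (.S ⟨1,0,[1],[0,0,0,0,1],[0,1],(⟨0,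
  [(21,0)]⟩,⟨0,[(20,0)]⟩),⟨0,[(0,0)]⟩,.k,(.r (-1) ⟨1,[(37,1),(1,0),(0,0)]⟩ ⟨9,[(7,4),(10,3),(0,3),
  (20,0),(1,1)]⟩),⟨true,0,⟨0,[(42,0)]⟩,⟨0,[]⟩⟩,⟨false,1,⟨1,[(18,0),(0,0),(20,0)]⟩,⟨0,[]⟩⟩,⟨false,0,
  ⟨0,[(5,0),(30,1),(3,0)]⟩,⟨0,[(37,0),(2,0)]⟩⟩,⟨true,0,⟨0,[(38,0)]⟩,⟨0,[(37,0)]⟩⟩,[.a ⟨true,0,⟨0,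
  [(19,0)]⟩,⟨0,[(2,0)]⟩⟩ ⟨false,0,⟨0,[(36,0)]⟩,⟨1,[(18,0),(0,0),(20,0)]⟩⟩ ⟨true,0,⟨0,[]⟩,⟨1,[(25,0),
  (0,0)]⟩⟩,.o ⟨false,1,⟨1,[(19,1),(10,0),(9,0)]⟩,⟨2,[(1,0),(0,1),(22,0),(7,0),(0,0),(1,0)]⟩⟩,.e
  ⟨true,0,⟨0,[(42,0)]⟩,⟨0,[]⟩⟩ ⟨true,0,⟨0,[]⟩,⟨0,[(42,0)]⟩⟩,.o ⟨false,0,⟨31,[(4,3),(0,11),(9,3),(3,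
  31),(5,4),(0,0),(7,11),(5,3),(0,1)]⟩,⟨3,[(2,2),(15,0),(15,0),(4,1)]⟩⟩]⟩) (.S ⟨1,0,[-1,1],[1,0,0,0,
  -1],[-1],(⟨0,[(20,0)]⟩,⟨0,[(21,0)]⟩),⟨13,[(0,1),(3,1),(2,2),(1,1),(10,11),(4,1),(3,15),(6,5),(3,
  4)]⟩,.k,(.r (-1) ⟨1,[(37,1),(1,0),(0,0)]⟩ ⟨1,[(7,0),(10,0),(0,0)]⟩),⟨false,1,⟨1,[(18,0),(0,0),(20,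
  0)]⟩,⟨0,[]⟩⟩,⟨true,0,⟨0,[(42,0)]⟩,⟨0,[]⟩⟩,⟨true,0,⟨0,[(38,0)]⟩,⟨0,[(37,0)]⟩⟩,⟨false,0,⟨0,[(38,
  0)]⟩,⟨0,[(37,0),(2,0)]⟩⟩,[.o ⟨false,0,⟨2,[(1,0),(0,1),(22,0),(7,0),(0,0),(1,0)]⟩,⟨1,[(19,1),(10,
  0),(9,0)]⟩⟩,.e ⟨false,1,⟨0,[(36,0),(3,0)]⟩,⟨0,[(42,0)]⟩⟩ ⟨false,1,⟨9,[(18,3),(0,3),(19,4),(0,0),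
  (1,1)]⟩,⟨0,[]⟩⟩,.a ⟨true,0,⟨0,[(2,0)]⟩,⟨0,[(19,0)]⟩⟩ ⟨false,1,⟨4,[(18,1),(0,1),(20,2),(1,0)]⟩,⟨0,
  []⟩⟩ ⟨true,0,⟨0,[(42,0)]⟩,⟨0,[]⟩⟩,.o ⟨false,0,⟨3,[(1,1),(0,0),(15,0),(6,1),(8,0)]⟩,⟨1,[(19,1),(10,
  0),(8,0)]⟩⟩]⟩)) (.Q [0,0,0,0,0,-1,0,0,0,0,0,1] (.ed false [1,-1,0,0,1] .k) (.S ⟨1,0,[1],[0,0,0,0,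
  1],[0,1],(⟨0,[(21,0)]⟩,⟨0,[(20,0)]⟩),⟨0,[(0,0)]⟩,.k,(.r (-1) ⟨1,[(37,1),(1,0),(0,0)]⟩ ⟨9,[(1,1),
  (5,4),(9,1),(0,1),(6,1),(14,0),(1,1)]⟩),⟨true,0,⟨0,[(42,0)]⟩,⟨0,[]⟩⟩,⟨false,1,⟨3,[(1,0),(15,0),(0,
  0),(6,0),(14,1)]⟩,⟨0,[]⟩⟩,⟨false,0,⟨0,[(5,0),(30,1),(3,0)]⟩,⟨0,[(37,0),(2,0)]⟩⟩,⟨true,0,⟨0,[(38,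
  0)]⟩,⟨0,[(37,0)]⟩⟩,[.a ⟨true,0,⟨0,[(19,0)]⟩,⟨0,[(2,0)]⟩⟩ ⟨false,0,⟨0,[(36,0)]⟩,⟨3,[(1,0),(15,0),
  (0,0),(6,0),(14,1)]⟩⟩ ⟨true,0,⟨0,[]⟩,⟨1,[(25,0),(0,0)]⟩⟩,.o ⟨false,1,⟨1,[(19,1),(10,0),(9,0)]⟩,
  ⟨10,[(2,10),(1,0),(0,2),(8,0),(18,2),(0,3),(1,2)]⟩⟩,.e ⟨true,0,⟨0,[(42,0)]⟩,⟨0,[]⟩⟩ ⟨true,0,⟨0,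
  []⟩,⟨0,[(42,0)]⟩⟩,.o ⟨false,0,⟨31,[(4,3),(0,11),(9,3),(3,31),(5,4),(0,0),(7,11),(5,3),(0,1)]⟩,⟨3,
  [(2,2),(15,0),(15,0),(4,1)]⟩⟩]⟩) (.R ⟨0,false,false,false,[0,0,0,0,1],[0,1],[0,1],(⟨0,[(21,0)]⟩,
  ⟨0,[(20,0)]⟩),(⟨0,[(32,0)]⟩,⟨0,[(31,0)]⟩),⟨0,[(0,0)]⟩,.k,.k,(.r (-1) ⟨1,[(37,1),(1,0),(0,0)]⟩ ⟨9,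
  [(1,1),(5,4),(9,1),(0,1),(6,1),(14,0),(1,1)]⟩),(.r (-1) ⟨1,[(37,1),(1,0),(0,0)]⟩ ⟨9,[(1,1),(5,4),
  (9,1),(0,1),(6,1),(14,0),(1,1)]⟩),.k,.k,⟨false,1,⟨0,[(37,0),(1,0)]⟩,⟨0,[(35,0)]⟩⟩,⟨true,1,⟨3,[(2,
  2),(15,0),(15,0),(4,1)]⟩,⟨1,[(1,0),(2,0),(0,2),(3,0),(9,0),(20,0)]⟩⟩,⟨true,0,⟨0,[(42,0)]⟩,⟨0,[]⟩⟩,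
  ⟨false,1,⟨3,[(2,2),(4,1),(10,0),(15,0),(4,1),(0,1)]⟩,⟨1,[(1,0),(2,0),(0,0),(3,0),(9,0),(20,0)]⟩⟩,
  ⟨false,0,⟨0,[]⟩,⟨0,[]⟩⟩,⟨false,0,⟨0,[]⟩,⟨0,[]⟩⟩,[.e ⟨false,0,⟨0,[(36,0)]⟩,⟨3,[(1,0),(15,0),(0,0),
  (6,0),(14,1)]⟩⟩ ⟨false,1,⟨3,[(2,2),(4,1),(10,0),(15,0),(4,3)]⟩,⟨1,[(1,0),(2,0),(0,0),(3,0),(9,0),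
  (20,0)]⟩⟩,.o ⟨false,1,⟨1,[(7,0),(22,0),(8,0),(0,0)]⟩,⟨0,[(37,0)]⟩⟩,.a ⟨true,0,⟨0,[(19,0)]⟩,⟨0,[(2,
  0)]⟩⟩ ⟨true,0,⟨0,[(42,0)]⟩,⟨0,[]⟩⟩ ⟨false,1,⟨3,[(2,2),(4,1),(10,0),(15,0),(4,1),(0,1)]⟩,⟨1,[(1,0),
  (2,0),(0,0),(3,0),(9,0),(20,0)]⟩⟩,.o ⟨false,0,⟨31,[(4,3),(0,11),(9,3),(3,31),(5,4),(0,0),(7,11),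
  (5,3),(0,1)]⟩,⟨3,[(2,2),(15,0),(15,0),(4,1)]⟩⟩]⟩))) (.Q [-1,-1,0,0,1,0,0,0,-1,0,0,-1] (.p false
  [0,0,0,0,1] [] (⟨0,[(19,0)]⟩,⟨0,[(18,0)]⟩) .k 0 (⟨0,[]⟩,⟨0,[]⟩) .k .k) (.R ⟨1,false,false,false,
  [1,0,-1],[1,0,0,0,-1],[1,0,0,-1,0,0,0,-1],(⟨0,[(26,0)]⟩,⟨0,[(27,0)]⟩),(⟨0,[(19,0)]⟩,⟨0,[(20,0)]⟩),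
  ⟨0,[(2,0)]⟩,.k,.k,.k,.k,(.r (-1) ⟨3,[(3,1),(7,1),(12,3),(4,0),(8,3),(0,0)]⟩ ⟨7,[(6,4),(3,1),(3,1),
  (1,1),(5,3),(6,0),(9,3)]⟩),.k,⟨false,1,⟨3,[(3,1),(7,1),(12,3),(4,0),(8,3),(0,0)]⟩,⟨1,[(6,0),(3,1),
  (28,0)]⟩⟩,⟨true,1,⟨0,[(0,0),(23,0),(10,0)]⟩,⟨4,[(1,4),(1,1),(0,3),(1,0),(1,1),(12,2),(17,1)]⟩⟩,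
  ⟨false,1,⟨0,[(36,0),(2,0)]⟩,⟨0,[(37,0)]⟩⟩,⟨true,1,⟨0,[(0,0),(21,0)]⟩,⟨0,[(1,0),(7,0)]⟩⟩,⟨true,0,
  ⟨0,[]⟩,⟨0,[(41,0)]⟩⟩,⟨true,1,⟨1,[(0,1),(5,0),(15,1),(15,0)]⟩,⟨1,[(1,1),(1,0),(5,0)]⟩⟩,[.o ⟨false,
  1,⟨2,[(0,0),(16,1),(23,0)]⟩,⟨0,[(1,0)]⟩⟩,.o ⟨false,1,⟨0,[(0,0)]⟩,⟨0,[(1,0),(39,0)]⟩⟩,.o ⟨false,0,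
  ⟨0,[(15,0)]⟩,⟨1,[(24,1),(4,0),(8,0)]⟩⟩,.a ⟨true,(-1),⟨2,[(3,0),(0,2),(3,0),(12,1),(17,0)]⟩,⟨0,
  [(24,0),(13,0)]⟩⟩ ⟨true,1,⟨3,[(3,1),(7,1),(12,3),(4,0),(8,3),(0,0)]⟩,⟨0,[(6,0),(1,0)]⟩⟩ ⟨false,2,
  ⟨0,[(0,0),(23,0),(13,0)]⟩,⟨2,[(1,2),(1,0),(0,2),(3,0),(12,1),(17,0)]⟩⟩]⟩) (.Q [0,0,-1,0,1,0,0,0,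
  -1,1,0,-1] (.p false [0,0,0,0,1] [1] (⟨0,[(20,0)]⟩,⟨0,[(19,0)]⟩) .k 1 (⟨0,[]⟩,⟨0,[]⟩) .k .k) (.Q
  [0,0,1,0,-1,0,0,0,1,0,0,1] (.p true [0,0,0,0,1] [] (⟨0,[(21,0)]⟩,⟨0,[(20,0)]⟩) .k 0 (⟨0,[]⟩,⟨0,
  []⟩) .k .k) (.Q [0,0,0,0,0,-1,0,0,0,0,0,1] (.ed false [1,-1,0,0,1] .k) (.S ⟨1,0,[1],[0,0,0,0,1],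
  [1,0,1],(⟨0,[(23,0)]⟩,⟨0,[(22,0)]⟩),⟨0,[(0,0)]⟩,.k,(.r (-1) ⟨1,[(39,1),(1,0),(0,0)]⟩ ⟨9,[(9,4),
  (10,3),(0,3),(20,0),(1,1)]⟩),⟨true,0,⟨1,[(27,0),(0,0)]⟩,⟨0,[(38,0)]⟩⟩,⟨false,1,⟨1,[(20,0),(0,0),
  (20,0)]⟩,⟨0,[]⟩⟩,⟨false,0,⟨1,[(9,0),(32,0)]⟩,⟨1,[(39,1),(1,0),(0,0)]⟩⟩,⟨true,0,⟨0,[(40,0)]⟩,⟨0,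
  [(39,0)]⟩⟩,[.o ⟨false,0,⟨0,[(4,0)]⟩,⟨7,[(2,3),(3,1),(2,2),(1,1),(8,3),(6,1),(8,1),(1,1),(3,2)]⟩⟩,
  .e ⟨false,1,⟨1,[(20,0),(0,0),(20,0)]⟩,⟨0,[(38,0)]⟩⟩ ⟨false,1,⟨1,[(41,0),(0,0)]⟩,⟨0,[(44,0)]⟩⟩,.o
  ⟨false,0,⟨11,[(1,5),(2,5),(31,1),(4,2),(0,0),(1,1)]⟩,⟨0,[(20,0)]⟩⟩,.a ⟨true,(-1),⟨0,[(1,0)]⟩,⟨0,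
  [(2,0)]⟩⟩ ⟨true,0,⟨0,[]⟩,⟨0,[(44,0)]⟩⟩ ⟨false,1,⟨1,[(41,0),(0,0)]⟩,⟨1,[(27,0),(0,0)]⟩⟩]⟩) (.Q [0,
  0,1,-1,-1,0,0,0,1,0,0,1] (.p true [0,0,0,0,1] [] (⟨0,[(23,0)]⟩,⟨0,[(22,0)]⟩) .k 0 (⟨0,[]⟩,⟨0,[]⟩)
  .k .k) (.R ⟨0,false,false,true,[0,0,0,0,1],[0,1],[0,1],(⟨0,[(24,0)]⟩,⟨0,[(23,0)]⟩),(⟨0,[(35,0)]⟩,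
  ⟨0,[(34,0)]⟩),⟨0,[(1,0)]⟩,.k,.k,(.r (-1) ⟨1,[(40,1),(1,0),(0,0)]⟩ ⟨9,[(10,4),(10,3),(0,3),(20,0),
  (1,1)]⟩),(.r (-1) ⟨1,[(40,1),(1,0),(0,0)]⟩ ⟨9,[(10,4),(10,3),(0,3),(20,0),(1,1)]⟩),.k,.k,⟨true,1,
  ⟨1,[(40,1),(1,0),(0,0)]⟩,⟨0,[(8,0)]⟩⟩,⟨false,2,⟨1,[(3,1),(29,0),(8,0)]⟩,⟨0,[(2,0)]⟩⟩,⟨true,0,⟨0,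
  [(45,0)]⟩,⟨0,[]⟩⟩,⟨false,1,⟨1,[(10,0),(10,1),(20,0)]⟩,⟨1,[(0,1),(41,0),(0,0)]⟩⟩,⟨false,0,⟨0,[]⟩,
  ⟨0,[]⟩⟩,⟨false,0,⟨0,[]⟩,⟨0,[]⟩⟩,[.o ⟨false,0,⟨5,[(10,2),(25,1),(0,1),(1,1),(2,0)]⟩,⟨0,[(40,0),(2,
  0)]⟩⟩,.a ⟨true,0,⟨0,[(41,0)]⟩,⟨0,[(0,0),(2,0)]⟩⟩ ⟨false,1,⟨3,[(3,1),(18,1),(10,0),(8,0)]⟩,⟨0,[]⟩⟩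
  ⟨true,1,⟨1,[(3,1),(6,0),(22,0)]⟩,⟨0,[(0,0)]⟩⟩,.o ⟨false,0,⟨17,[(0,5),(4,11),(4,2),(26,1),(4,5),(0,
  0),(1,1)]⟩,⟨0,[(21,0)]⟩⟩,.e ⟨true,0,⟨0,[(39,0)]⟩,⟨1,[(28,0),(0,0)]⟩⟩ ⟨true,1,⟨5,[(3,5),(6,2),(25,
  1),(0,1),(1,1),(2,0)]⟩,⟨0,[(0,0)]⟩⟩]⟩) (.Q [-1,-1,0,1,1,0,0,0,-1,0,0,-1] (.p false [0,0,0,0,1] []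
  (⟨0,[(24,0)]⟩,⟨0,[(23,0)]⟩) .k 0 (⟨0,[]⟩,⟨0,[]⟩) .k .k) (.R ⟨2,true,false,true,[0,1],[0,0,0,0,1],
  [2,1,1],(⟨0,[]⟩,⟨0,[]⟩),(⟨0,[(25,0)]⟩,⟨0,[(24,0)]⟩),⟨0,[]⟩,.k,.k,.k,(.r 0 ⟨8,[(0,0),(10,3),(10,2),
  (0,3),(21,0),(0,0)]⟩ ⟨1,[(41,1),(1,0),(0,0)]⟩),.k,.k,⟨false,0,⟨0,[]⟩,⟨3,[(4,1),(18,1),(10,0),(8,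
  0)]⟩⟩,⟨true,(-1),⟨0,[(3,0)]⟩,⟨0,[(22,0)]⟩⟩,⟨true,0,⟨0,[(41,0)]⟩,⟨0,[(9,0),(30,1),(3,0)]⟩⟩,⟨false,
  0,⟨2,[(6,0),(1,0),(9,0),(4,1),(20,0)]⟩,⟨0,[(0,0)]⟩⟩,⟨false,0,⟨0,[]⟩,⟨4,[(22,1),(0,1),(20,2),(1,
  0)]⟩⟩,⟨true,(-1),⟨0,[(5,0)]⟩,⟨1,[(0,0),(21,0),(18,0)]⟩⟩,[]⟩) (.R ⟨1,true,false,false,[1,-1],[1,0,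
  0,0,-1],[1,0,-1,-2],(⟨0,[(35,0)]⟩,⟨0,[(36,0)]⟩),(⟨0,[(24,0)]⟩,⟨0,[(25,0)]⟩),⟨13,[(8,1),(2,2),(1,
  1),(15,1),(3,15),(1,11),(4,5),(3,4)]⟩,.k,.k,(.r (-2) ⟨0,[(41,1),(1,0),(0,0)]⟩ ⟨0,[(11,0)]⟩),(.r
  (-1) ⟨1,[(41,1),(1,0),(0,0)]⟩ ⟨9,[(11,4),(10,3),(0,3),(20,0),(1,1)]⟩),(.r (-2) ⟨0,[(41,1),(1,0),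
  (0,0)]⟩ ⟨0,[(9,1),(30,1),(3,0)]⟩),.k,⟨true,1,⟨13,[(8,5),(9,5),(19,1),(2,9),(1,6),(0,10)]⟩,⟨0,[(9,
  1),(30,1),(3,0)]⟩⟩,⟨false,2,⟨1,[(4,1),(29,0),(8,0)]⟩,⟨0,[(3,0)]⟩⟩,⟨false,1,⟨0,[(41,0),(2,0)]⟩,⟨0,
  [(42,0)]⟩⟩,⟨true,1,⟨19,[(1,9),(9,4),(10,11),(0,1),(20,2),(1,5)]⟩,⟨0,[(0,0)]⟩⟩,⟨true,0,⟨0,[]⟩,⟨0,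
  [(46,0)]⟩⟩,⟨false,1,⟨1,[(1,1),(9,0),(32,0)]⟩,⟨0,[(0,0),(40,0),(2,0)]⟩⟩,[]⟩)))) (.R ⟨2,true,false,
  true,[0,1],[0,0,0,0,1],[1,1,1],(⟨0,[]⟩,⟨0,[]⟩),(⟨0,[(22,0)]⟩,⟨0,[(21,0)]⟩),⟨0,[]⟩,.k,.k,.k,(.r 0
  ⟨9,[(8,4),(10,3),(0,3),(20,0),(1,1)]⟩ ⟨1,[(38,1),(1,0),(0,0)]⟩),.k,.k,⟨true,0,⟨1,[(26,0),(0,0)]⟩,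
  ⟨0,[]⟩⟩,⟨false,0,⟨0,[(20,0)]⟩,⟨0,[(0,0)]⟩⟩,⟨true,0,⟨0,[(38,0)]⟩,⟨0,[(39,0)]⟩⟩,⟨false,0,⟨2,[(3,0),
  (1,0),(9,0),(4,1),(20,0)]⟩,⟨1,[(0,1),(7,0),(32,0)]⟩⟩,⟨false,0,⟨0,[]⟩,⟨1,[(19,0),(0,0),(20,0)]⟩⟩,
  ⟨true,(-1),⟨0,[(2,0)]⟩,⟨1,[(0,0),(18,0),(22,0)]⟩⟩,[]⟩)) (.Q [0,0,0,0,0,-1,0,0,0,1,0,-1] (.ed true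
  [0,1,0,0,1] .k) (.R ⟨1,false,false,false,[1,0,0,0,-1],[0,1],[0,0,1],(⟨0,[(21,0)]⟩,⟨0,[(22,0)]⟩),
  (⟨0,[(33,0)]⟩,⟨0,[(32,0)]⟩),⟨0,[(0,0)]⟩,.k,.k,(.r (-1) ⟨1,[(38,1),(1,0),(0,0)]⟩ ⟨1,[(8,0),(10,0),
  (0,0)]⟩),(.r (-1) ⟨1,[(38,1),(1,0),(0,0)]⟩ ⟨1,[(8,0),(10,0),(0,0)]⟩),(.r (-2) ⟨0,[(38,1),(1,0),(0,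
  0)]⟩ ⟨0,[(9,0)]⟩),.k,⟨false,1,⟨1,[(38,1),(1,0),(0,0)]⟩,⟨1,[(8,0),(31,0)]⟩⟩,⟨true,0,⟨0,[(1,0),(38,
  0)]⟩,⟨2,[(5,0),(0,2),(8,0),(3,2),(3,1),(2,1),(14,0)]⟩⟩,⟨true,0,⟨1,[(26,0),(0,0)]⟩,⟨0,[(37,0)]⟩⟩,
  ⟨false,0,⟨1,[(1,1),(6,0),(31,1),(0,0)]⟩,⟨2,[(5,0),(9,0),(3,2),(12,1),(0,1),(7,0)]⟩⟩,⟨false,0,⟨0,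
  [(36,0)]⟩,⟨1,[(38,1),(1,0),(0,0)]⟩⟩,⟨false,0,⟨1,[(1,1),(6,1),(31,2),(0,0)]⟩,⟨2,[(5,1),(9,1),(3,2),
  (12,0),(0,0),(7,1)]⟩⟩,[.a ⟨true,0,⟨0,[(39,0)]⟩,⟨2,[(5,0),(9,0),(7,1),(2,1),(14,0)]⟩⟩ ⟨true,0,⟨1,
  [(26,0),(0,0)]⟩,⟨0,[]⟩⟩ ⟨false,0,⟨1,[(1,1),(6,0),(31,2)]⟩,⟨2,[(5,0),(9,0),(3,2),(3,1),(2,1),(14,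
  0)]⟩⟩,.o ⟨false,1,⟨1,[(8,0),(22,0),(8,0),(0,0)]⟩,⟨0,[(38,0)]⟩⟩,.o ⟨false,1,⟨0,[(19,0)]⟩,⟨7,[(1,1),
  (1,5),(36,0),(0,0),(1,1)]⟩⟩,.o ⟨false,1,⟨1,[(19,1),(6,0),(0,0)]⟩,⟨0,[(1,0),(38,0)]⟩⟩]⟩) (.R ⟨0,
  false,false,false,[1,0,0,0,-1],[0,1],[0,1,0,-1],(⟨0,[(21,0)]⟩,⟨0,[(22,0)]⟩),(⟨0,[(33,0)]⟩,⟨0,[(32,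
  0)]⟩),⟨0,[(0,0)]⟩,.k,.k,(.r (-1) ⟨1,[(38,1),(1,0),(0,0)]⟩ ⟨1,[(8,0),(10,0),(0,0)]⟩),(.r (-1) ⟨1,
  [(38,1),(1,0),(0,0)]⟩ ⟨1,[(8,0),(10,0),(0,0)]⟩),.k,.k,⟨false,1,⟨6,[(5,2),(9,2),(19,0),(2,4),(1,6),
  (0,1)]⟩,⟨1,[(8,1),(31,0),(0,0)]⟩⟩,⟨true,0,⟨0,[(1,0),(38,0)]⟩,⟨2,[(5,0),(0,2),(8,0),(3,2),(3,1),(2,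
  1),(14,0)]⟩⟩,⟨true,0,⟨0,[(38,0)]⟩,⟨0,[(39,0)]⟩⟩,⟨false,0,⟨1,[(1,1),(6,0),(31,1),(0,0)]⟩,⟨2,[(5,0),
  (9,0),(3,2),(12,1),(0,1),(7,0)]⟩⟩,⟨false,0,⟨0,[]⟩,⟨0,[]⟩⟩,⟨false,0,⟨0,[]⟩,⟨0,[]⟩⟩,[.a ⟨true,0,⟨0,
  [(39,0)]⟩,⟨2,[(5,0),(9,0),(7,1),(2,1),(14,0)]⟩⟩ ⟨true,0,⟨0,[(38,0)]⟩,⟨0,[(36,0)]⟩⟩ ⟨false,0,⟨1,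
  [(1,1),(6,0),(31,2)]⟩,⟨2,[(5,0),(9,0),(3,2),(3,1),(2,1),(14,0)]⟩⟩,.o ⟨false,1,⟨1,[(8,0),(22,0),(8,
  0),(0,0)]⟩,⟨0,[(38,0)]⟩⟩,.o ⟨false,1,⟨0,[(19,0)]⟩,⟨7,[(1,1),(1,5),(36,0),(0,0),(1,1)]⟩⟩,.o ⟨false,
  1,⟨1,[(19,1),(6,0),(0,0)]⟩,⟨0,[(1,0),(38,0)]⟩⟩]⟩))))))))) (.N [0,2] 1 ⟨0,[(1,0)]⟩ ⟨0,[(0,0)]⟩ (.x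
  (-1) ⟨0,[(22,1),(6,1),(3,0)]⟩ ⟨0,[(18,0),(0,0),(5,1)]⟩))))))

theorem ok2 : chk K t2 l5 = true := by decide +kernel

noncomputable def t3 : Tre :=
  (.Q [0,0,0,0,0,-1,0,0,0,1,-1] (.ed true [0,1,1] .k) (.Q [0,0,-1,0,1,0,1,0,0,-1,1] (.p true [0,0,
  1] [1] (⟨0,[(18,0)]⟩,⟨0,[(17,0)]⟩) .k 1 (⟨0,[]⟩,⟨0,[]⟩) .k .k) (.R ⟨1,false,false,true,[1,0,-1],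
  [1,-1],[0,1,0,0,0,0,0,-1],(⟨0,[(18,0)]⟩,⟨0,[(19,0)]⟩),(⟨0,[(22,0)]⟩,⟨0,[(23,0)]⟩),⟨0,[(1,0)]⟩,.k,
  .k,.k,.k,.k,.k,⟨false,0,⟨0,[(2,0),(24,0),(1,0)]⟩,⟨1,[(6,1),(23,0),(0,0)]⟩⟩,⟨true,0,⟨0,[(16,0)]⟩,
  ⟨0,[(7,0)]⟩⟩,⟨true,0,⟨0,[(33,0)]⟩,⟨0,[]⟩⟩,⟨true,0,⟨0,[(5,0)]⟩,⟨0,[(4,0)]⟩⟩,⟨false,0,⟨0,[(29,0)]⟩,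
  ⟨0,[(28,0),(2,0)]⟩⟩,⟨true,0,⟨0,[(14,0)]⟩,⟨0,[(3,0)]⟩⟩,[.o ⟨false,0,⟨0,[(28,0)]⟩,⟨1,[(21,0),(7,1),
  (1,0)]⟩⟩,.a ⟨true,0,⟨0,[(2,0),(2,0),(7,0)]⟩,⟨0,[(29,0)]⟩⟩ ⟨true,0,⟨0,[(2,0),(24,0)]⟩,⟨0,[(6,0),
  (19,0)]⟩⟩ ⟨false,1,⟨0,[(2,0),(2,0),(24,0)]⟩,⟨0,[(7,0),(21,0)]⟩⟩,.o ⟨false,0,⟨0,[(7,0)]⟩,⟨3,[(0,1),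
  (8,0),(0,0),(5,1),(4,0)]⟩⟩,.o ⟨false,0,⟨0,[(17,0)]⟩,⟨0,[(0,0)]⟩⟩]⟩) (.I [1,0,2,1,-1] (.Q [0,-1,0,
  2,0,0,-1,-1,0,0,-1] (.p false [0,0,1] [] (⟨0,[(20,0)]⟩,⟨0,[(19,0)]⟩) .k 0 (⟨0,[]⟩,⟨0,[]⟩) .k .k)
  (.R ⟨1,true,false,false,[1,-1],[1,0,-1],[0,0,-1,-1],(⟨0,[(24,0)]⟩,⟨0,[(25,0)]⟩),(⟨0,[(20,0)]⟩,⟨0,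
  [(21,0)]⟩),⟨4,[(1,0),(0,0),(1,0),(2,0),(14,5),(1,3),(4,3),(3,1)]⟩,.k,.k,(.r (-2) ⟨0,[(30,1),(1,0),
  (0,0)]⟩ ⟨1,[(0,0),(0,1),(14,0)]⟩),.k,(.r (-2) ⟨0,[(8,0),(21,0),(1,0),(0,0)]⟩ ⟨1,[(0,0),(0,1),(2,
  0),(13,0),(10,1)]⟩),.k,⟨true,1,⟨1,[(8,1),(23,0),(0,0)]⟩,⟨0,[(1,0),(2,0),(24,0)]⟩⟩,⟨false,1,⟨3,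
  [(10,0),(4,1),(11,0),(4,2)]⟩,⟨0,[(18,0)]⟩⟩,⟨false,1,⟨1,[(11,0),(0,0),(20,0)]⟩,⟨0,[]⟩⟩,⟨true,0,⟨0,
  [(6,0)]⟩,⟨0,[(7,0)]⟩⟩,⟨true,0,⟨0,[(31,0)]⟩,⟨0,[(30,0)]⟩⟩,⟨false,0,⟨0,[(0,0)]⟩,⟨0,[(7,0),(22,0),(2,
  0)]⟩⟩,[]⟩) (.I [0,0,0,1,0,0,0,1] (.R ⟨1,false,false,true,[1,0,-1],[1,-1],[0,1],(⟨0,[(21,0)]⟩,⟨0,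
  [(22,0)]⟩),(⟨0,[(25,0)]⟩,⟨0,[(26,0)]⟩),⟨0,[(4,0)]⟩,.k,.k,.k,.k,.k,.k,⟨false,0,⟨0,[(32,0)]⟩,⟨1,
  [(31,1),(1,0),(0,0)]⟩⟩,⟨true,0,⟨0,[(19,0)]⟩,⟨0,[(10,0)]⟩⟩,⟨true,0,⟨4,[(0,1),(8,1),(7,0),(2,0),(6,
  0)]⟩,⟨0,[(5,0),(24,0)]⟩⟩,⟨true,0,⟨0,[(8,0)]⟩,⟨0,[(7,0)]⟩⟩,⟨false,0,⟨0,[(0,0)]⟩,⟨1,[(5,1),(25,1),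
  (1,0),(0,0)]⟩⟩,⟨true,0,⟨0,[(17,0)]⟩,⟨0,[(6,0)]⟩⟩,[.o ⟨false,0,⟨0,[(31,0)]⟩,⟨1,[(24,0),(7,1),(1,
  0)]⟩⟩,.e ⟨false,1,⟨1,[(12,0),(0,0),(19,0)]⟩,⟨0,[]⟩⟩ ⟨false,1,⟨1,[(1,0),(3,0),(13,0),(13,1)]⟩,⟨7,
  [(0,3),(2,0),(3,3),(3,0),(4,0),(11,0)]⟩⟩,.o ⟨false,0,⟨0,[(10,0)]⟩,⟨1,[(19,1),(4,0),(8,0)]⟩⟩,.a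
  ⟨true,(-1),⟨0,[(3,0)]⟩,⟨0,[(19,0),(13,0)]⟩⟩ ⟨true,0,⟨0,[(30,0)]⟩,⟨1,[(19,0),(0,0)]⟩⟩ ⟨false,1,⟨1,
  [(1,0),(3,0),(13,0),(13,1)]⟩,⟨8,[(0,0),(2,2),(3,0),(3,1),(4,0),(11,1),(0,6),(4,0)]⟩⟩]⟩) (.Q [0,-1,
  0,2,1,0,1,1,0,-1,1] (.p true [0,0,1] [1] (⟨0,[(22,0)]⟩,⟨0,[(21,0)]⟩) .k 1 (⟨0,[]⟩,⟨0,[]⟩) .k .k)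
  (.R ⟨1,false,false,false,[1,0,-1],[0,1],[],(⟨0,[(22,0)]⟩,⟨0,[(23,0)]⟩),(⟨0,[(27,0)]⟩,⟨0,[(26,
  0)]⟩),⟨0,[(5,0)]⟩,.k,.k,.k,.k,(.x 1 ⟨5,[(2,0),(0,1),(0,5),(1,0),(14,0),(1,5),(3,11),(1,1)]⟩ ⟨1,
  [(5,1),(14,1),(3,1),(0,0),(8,2)]⟩),.k,⟨true,1,⟨1,[(32,1),(1,0),(0,0)]⟩,⟨0,[(3,0)]⟩⟩,⟨false,2,⟨1,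
  [(20,1),(4,0),(8,2)]⟩,⟨0,[(4,0)]⟩⟩,⟨false,1,⟨1,[(0,0),(1,0),(9,0),(22,0)]⟩,⟨0,[(1,0),(31,0)]⟩⟩,
  ⟨true,1,⟨3,[(0,1),(12,0),(0,0),(3,1),(6,0)]⟩,⟨0,[(1,0),(2,0),(26,0)]⟩⟩,⟨false,1,⟨1,[(0,0),(11,0),
  (5,0),(16,0)]⟩,⟨0,[(1,0)]⟩⟩,⟨false,1,⟨0,[(0,0)]⟩,⟨1,[(1,1),(0,0),(3,0),(5,0),(4,0)]⟩⟩,[.e ⟨false,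
  1,⟨1,[(13,0),(0,0),(19,0)]⟩,⟨0,[]⟩⟩ ⟨false,1,⟨0,[(0,0),(0,0),(29,0)]⟩,⟨1,[(2,0),(3,0),(5,0),(4,
  0)]⟩⟩,.o ⟨false,1,⟨2,[(0,0),(7,0),(16,0),(9,0)]⟩,⟨0,[(32,0)]⟩⟩,.o ⟨false,0,⟨0,[(11,0)]⟩,⟨1,[(20,
  1),(4,0),(8,0)]⟩⟩,.a ⟨true,(-1),⟨0,[(4,0)]⟩,⟨0,[(20,0),(13,0)]⟩⟩ ⟨false,1,⟨1,[(34,0),(0,0)]⟩,⟨1,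
  [(20,0),(0,0)]⟩⟩ ⟨true,1,⟨0,[(0,0),(0,0),(29,0)]⟩,⟨0,[(4,0),(27,0)]⟩⟩]⟩) (.Q [-1,0,0,-1,0,0,0,0,
  -1,1,0,-1] (.p false [0,0,0,0,1] [1] (⟨0,[(16,0)]⟩,⟨0,[(15,0)]⟩) .k 1 (⟨0,[]⟩,⟨0,[]⟩) .k .k) (.Q
  [0,0,0,0,0,-1,0,0,0,0,0,1] (.ed false [1,-1,0,0,1] .k) (.S ⟨1,0,[1],[0,0,0,0,1],[0,1],(⟨0,[(18,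
  0)]⟩,⟨0,[(17,0)]⟩),⟨0,[(0,0)]⟩,.k,(.r (-1) ⟨1,[(34,1),(1,0),(0,0)]⟩ ⟨0,[(32,0),(6,0)]⟩),⟨true,0,
  ⟨0,[(39,0)]⟩,⟨0,[]⟩⟩,⟨false,1,⟨1,[(15,0),(0,0),(20,0)]⟩,⟨0,[]⟩⟩,⟨false,0,⟨0,[(5,0),(27,1),(3,0)]⟩,
  ⟨0,[(34,0),(2,0)]⟩⟩,⟨true,0,⟨0,[(35,0)]⟩,⟨0,[(34,0)]⟩⟩,[.a ⟨true,0,⟨0,[(16,0)]⟩,⟨0,[(1,0),(33,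
  0)]⟩⟩ ⟨false,0,⟨0,[(33,0)]⟩,⟨1,[(15,0),(0,0),(20,0)]⟩⟩ ⟨true,0,⟨0,[]⟩,⟨1,[(22,0),(0,0)]⟩⟩,.o
  ⟨false,1,⟨1,[(16,1),(10,0),(9,0)]⟩,⟨2,[(1,2),(3,0),(24,0),(0,0),(1,0),(1,1)]⟩⟩,.e ⟨true,0,⟨0,[(39,
  0)]⟩,⟨0,[]⟩⟩ ⟨true,0,⟨0,[]⟩,⟨0,[(39,0)]⟩⟩,.o ⟨false,0,⟨39,[(2,1),(1,4),(0,13),(2,2),(7,39),(6,2),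
  (7,13),(5,1),(0,5)]⟩,⟨3,[(1,2),(13,0),(15,0),(3,2),(0,1)]⟩⟩]⟩) (.S ⟨1,0,[-1,1],[1,0,0,0,-1],[-1],
  (⟨0,[(17,0)]⟩,⟨0,[(18,0)]⟩),⟨11,[(0,0),(1,0),(1,0),(0,3),(11,10),(8,12),(6,7),(3,4)]⟩,.k,(.r (-1)
  ⟨1,[(34,1),(1,0),(0,0)]⟩ ⟨0,[(32,0),(6,0)]⟩),⟨false,1,⟨1,[(15,0),(0,0),(20,0)]⟩,⟨0,[]⟩⟩,⟨true,0,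
  ⟨0,[(39,0)]⟩,⟨0,[]⟩⟩,⟨true,0,⟨0,[(35,0)]⟩,⟨0,[(34,0)]⟩⟩,⟨false,0,⟨0,[(35,0)]⟩,⟨0,[(34,0),(2,0)]⟩⟩,
  [.o ⟨false,0,⟨2,[(1,2),(3,0),(24,0),(0,0),(1,0),(1,1)]⟩,⟨1,[(16,1),(10,0),(9,0)]⟩⟩,.e ⟨false,1,⟨0,
  [(33,0),(3,0)]⟩,⟨0,[(39,0)]⟩⟩ ⟨false,1,⟨9,[(15,3),(0,3),(19,4),(0,0),(1,1)]⟩,⟨0,[]⟩⟩,.a ⟨true,0,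
  ⟨0,[(1,0),(33,0)]⟩,⟨0,[(16,0)]⟩⟩ ⟨false,1,⟨4,[(15,1),(0,1),(20,2),(1,0)]⟩,⟨0,[]⟩⟩ ⟨true,0,⟨0,[(39,
  0)]⟩,⟨0,[]⟩⟩,.o ⟨false,0,⟨3,[(1,2),(3,1),(9,0),(15,0),(3,0)]⟩,⟨1,[(16,1),(10,0),(8,0)]⟩⟩]⟩)) (.Q
  [0,0,1,0,0,0,0,0,-1,1,0,-1] (.p false [0,0,0,0,1] [1] (⟨0,[(17,0)]⟩,⟨0,[(16,0)]⟩) .k 1 (⟨0,[]⟩,⟨0,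
  []⟩) .k .k) (.Q [0,0,0,0,0,0,1,0,1,-1,1,1] (.p true [0,0,1] [1,0,0,0,-1] (⟨0,[(25,0)]⟩,⟨0,[(24,
  0)]⟩) .k 2 (⟨0,[(17,0)]⟩,⟨0,[(18,0)]⟩) .k (.r (-1) ⟨3,[(14,1),(0,0),(0,0),(3,3),(6,0),(9,1)]⟩ ⟨0,
  [(3,0),(1,0),(27,1),(3,0)]⟩)) (.K ⟨0,[1,0,0,0,-1],0,0,(⟨0,[(18,0)]⟩,⟨0,[(19,0)]⟩),.k,(.r (-1) ⟨1,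
  [(35,1),(1,0),(0,0)]⟩ ⟨0,[(33,0),(6,0)]⟩),(.r 0 ⟨0,[(33,0),(6,0)]⟩ ⟨1,[(35,1),(1,0),(0,0)]⟩),.k,
  .k,[⟨0,[(0,0)]⟩,⟨0,[(1,0)]⟩,⟨0,[(2,0),(32,0)]⟩,⟨0,[(1,0),(32,0)]⟩]⟩) (.Q [1,0,0,0,0,0,0,0,1,-1,0,
  1] (.p true [0,0,0,0,1] [1] (⟨0,[(19,0)]⟩,⟨0,[(18,0)]⟩) .k 1 (⟨0,[]⟩,⟨0,[]⟩) .k .k) (.Q [-1,-1,0,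
  0,1,0,0,0,-1,0,0,-1] (.p false [0,0,0,0,1] [] (⟨0,[(20,0)]⟩,⟨0,[(19,0)]⟩) .k 0 (⟨0,[]⟩,⟨0,[]⟩) .k
  .k) (.R ⟨1,false,false,true,[1,0,-1],[0,0,0,0,1],[0,1,0,0,0,0,0,-1],(⟨0,[(27,0)]⟩,⟨0,[(28,0)]⟩),
  (⟨0,[(21,0)]⟩,⟨0,[(20,0)]⟩),⟨0,[(10,0)]⟩,.k,.k,.k,.k,(.r (-1) ⟨4,[(6,3),(11,0),(0,0),(4,0),(0,0),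
  (11,0),(1,2),(0,0)]⟩ ⟨4,[(8,0),(6,0),(1,0),(4,1),(0,3),(10,0),(0,4)]⟩),.k,⟨true,0,⟨0,[(6,0),(1,0),
  (27,1),(3,0)]⟩,⟨0,[(15,0),(19,0)]⟩⟩,⟨false,1,⟨0,[(1,0),(23,0),(13,0)]⟩,⟨0,[(2,0)]⟩⟩,⟨true,0,⟨0,
  [(42,0)]⟩,⟨0,[]⟩⟩,⟨true,0,⟨1,[(4,1),(2,0),(15,0)]⟩,⟨0,[(2,0),(3,0),(31,0)]⟩⟩,⟨false,0,⟨0,[(38,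
  0)]⟩,⟨0,[(37,0),(2,0)]⟩⟩,⟨true,0,⟨0,[(4,0),(18,0)]⟩,⟨1,[(0,0),(1,0),(2,0),(0,0),(31,0)]⟩⟩,[.o
  ⟨false,0,⟨0,[(1,0),(40,0)]⟩,⟨0,[(0,0)]⟩⟩,.o ⟨false,0,⟨0,[(1,0)]⟩,⟨2,[(0,0),(17,1),(23,0)]⟩⟩,.o
  ⟨false,0,⟨0,[(16,0)]⟩,⟨1,[(25,1),(4,0),(8,0)]⟩⟩,.a ⟨true,(-1),⟨0,[(9,0)]⟩,⟨0,[(25,0),(13,0)]⟩⟩
  ⟨true,0,⟨0,[(6,0),(29,0),(1,0)]⟩,⟨0,[(15,0),(19,0)]⟩⟩ ⟨false,1,⟨0,[(1,0),(23,0),(13,0)]⟩,⟨0,[(0,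
  0),(8,0)]⟩⟩]⟩) (.Q [0,0,0,0,0,-1,0,0,0,1,0,-1] (.ed true [0,1,0,0,1] .k) (.R ⟨1,false,false,false,
  [1,0,0,0,-1],[0,1],[-1],(⟨0,[(21,0)]⟩,⟨0,[(22,0)]⟩),(⟨0,[(33,0)]⟩,⟨0,[(32,0)]⟩),⟨0,[(0,0)]⟩,.k,.k,
  (.r (-1) ⟨1,[(38,1),(1,0),(0,0)]⟩ ⟨0,[(36,0),(6,0)]⟩),(.r (-1) ⟨1,[(38,1),(1,0),(0,0)]⟩ ⟨0,[(36,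
  0),(6,0)]⟩),(.r (-2) ⟨0,[(38,1),(1,0),(0,0)]⟩ ⟨0,[(9,0),(29,0)]⟩),.k,⟨true,1,⟨1,[(38,1),(1,0),(0,
  0)]⟩,⟨0,[(9,0)]⟩⟩,⟨false,1,⟨0,[(2,0),(37,0)]⟩,⟨0,[(4,0)]⟩⟩,⟨false,1,⟨1,[(19,0),(0,0),(20,0)]⟩,⟨0,
  []⟩⟩,⟨true,0,⟨0,[(5,0)]⟩,⟨7,[(3,2),(0,4),(2,2),(0,2),(0,0),(27,6),(3,0)]⟩⟩,⟨true,0,⟨0,[(39,0)]⟩,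
  ⟨0,[(38,0)]⟩⟩,⟨true,0,⟨0,[(5,0),(33,0)]⟩,⟨3,[(3,2),(0,0),(2,2),(0,2),(0,0),(27,2),(3,0)]⟩⟩,[.a
  ⟨true,0,⟨0,[(39,0)]⟩,⟨3,[(6,0),(1,0),(14,2),(2,2),(14,0)]⟩⟩ ⟨false,1,⟨9,[(19,3),(0,3),(19,4),(0,
  0),(1,1)]⟩,⟨0,[]⟩⟩ ⟨true,0,⟨0,[(2,0),(36,0)]⟩,⟨1,[(3,0),(0,0),(3,0),(3,0)]⟩⟩,.o ⟨false,1,⟨1,[(31,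
  0),(7,1),(1,0)]⟩,⟨0,[(38,0)]⟩⟩,.o ⟨false,1,⟨0,[(19,0)]⟩,⟨2,[(1,2),(33,0),(5,1),(1,0)]⟩⟩,.e ⟨false,
  1,⟨0,[(37,0),(3,0)]⟩,⟨1,[(26,0),(0,0)]⟩⟩ ⟨false,1,⟨1,[(5,1),(34,0),(0,0)]⟩,⟨1,[(3,0),(0,0),(3,0),
  (3,0)]⟩⟩]⟩) (.R ⟨0,false,false,false,[1,0,0,0,-1],[0,1],[-1],(⟨0,[(21,0)]⟩,⟨0,[(22,0)]⟩),(⟨0,[(33,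
  0)]⟩,⟨0,[(32,0)]⟩),⟨0,[(0,0)]⟩,.k,.k,(.r (-1) ⟨1,[(38,1),(1,0),(0,0)]⟩ ⟨0,[(36,0),(6,0)]⟩),(.r
  (-1) ⟨1,[(38,1),(1,0),(0,0)]⟩ ⟨0,[(36,0),(6,0)]⟩),.k,.k,⟨true,1,⟨1,[(38,1),(1,0),(0,0)]⟩,⟨0,[(9,
  0)]⟩⟩,⟨false,1,⟨0,[(2,0),(37,0)]⟩,⟨0,[(4,0)]⟩⟩,⟨false,1,⟨1,[(19,0),(0,0),(20,0)]⟩,⟨0,[]⟩⟩,⟨true,0,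
  ⟨0,[(5,0)]⟩,⟨7,[(3,2),(0,4),(2,2),(0,2),(0,0),(27,6),(3,0)]⟩⟩,⟨false,0,⟨0,[]⟩,⟨0,[]⟩⟩,⟨false,0,⟨0,
  []⟩,⟨0,[]⟩⟩,[.a ⟨true,0,⟨0,[(39,0)]⟩,⟨3,[(6,0),(1,0),(14,2),(2,2),(14,0)]⟩⟩ ⟨false,1,⟨9,[(19,3),
  (0,3),(19,4),(0,0),(1,1)]⟩,⟨0,[]⟩⟩ ⟨true,0,⟨0,[(2,0),(36,0)]⟩,⟨1,[(3,0),(0,0),(3,0),(3,0)]⟩⟩,.o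
  ⟨false,1,⟨1,[(31,0),(7,1),(1,0)]⟩,⟨0,[(38,0)]⟩⟩,.o ⟨false,1,⟨0,[(19,0)]⟩,⟨2,[(1,2),(33,0),(5,1),
  (1,0)]⟩⟩,.e ⟨false,1,⟨0,[(37,0),(3,0)]⟩,⟨1,[(26,0),(0,0)]⟩⟩ ⟨false,1,⟨1,[(5,1),(34,0),(0,0)]⟩,⟨1,
  [(3,0),(0,0),(3,0),(3,0)]⟩⟩]⟩))) (.R ⟨2,true,false,true,[0,1],[1,0,0,0,-1],[0,0,1,1],(⟨0,[]⟩,⟨0,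
  []⟩),(⟨0,[(19,0)]⟩,⟨0,[(20,0)]⟩),⟨0,[]⟩,.k,.k,.k,(.r 0 ⟨0,[(34,0),(6,0)]⟩ ⟨1,[(36,1),(1,0),(0,
  0)]⟩),.k,.k,⟨true,0,⟨0,[(34,0)]⟩,⟨0,[(36,0)]⟩⟩,⟨false,0,⟨0,[(0,0)]⟩,⟨1,[(18,1),(10,0),(8,0)]⟩⟩,
  ⟨false,1,⟨1,[(17,0),(0,0),(20,0)]⟩,⟨0,[]⟩⟩,⟨true,0,⟨4,[(0,2),(1,0),(1,0),(1,0),(10,0),(14,0),(3,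
  0)]⟩,⟨0,[(3,0)]⟩⟩,⟨true,0,⟨0,[(37,0)]⟩,⟨0,[(36,0)]⟩⟩,⟨false,0,⟨0,[(0,0)]⟩,⟨1,[(18,1),(10,0),(9,
  0)]⟩⟩,[]⟩))) (.Q [0,0,0,0,0,-1,0,0,0,1,0,-1] (.ed true [0,1,0,0,1] .k) (.R ⟨1,false,false,false,
  [1,0,0,0,-1],[0,1],[0,0,1],(⟨0,[(18,0)]⟩,⟨0,[(19,0)]⟩),(⟨0,[(30,0)]⟩,⟨0,[(29,0)]⟩),⟨0,[(0,0)]⟩,.k,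
  .k,(.r (-1) ⟨1,[(35,1),(1,0),(0,0)]⟩ ⟨0,[(33,0),(6,0)]⟩),(.r (-1) ⟨1,[(35,1),(1,0),(0,0)]⟩ ⟨0,
  [(33,0),(6,0)]⟩),(.r (-2) ⟨0,[(35,1),(1,0),(0,0)]⟩ ⟨0,[(6,0),(29,0)]⟩),.k,⟨false,1,⟨1,[(35,1),(1,
  0),(0,0)]⟩,⟨0,[(36,0)]⟩⟩,⟨true,0,⟨0,[(1,0)]⟩,⟨0,[(7,0),(8,0),(6,0)]⟩⟩,⟨true,0,⟨1,[(23,0),(0,0)]⟩,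
  ⟨0,[(34,0)]⟩⟩,⟨false,0,⟨0,[(1,0),(31,0)]⟩,⟨3,[(3,0),(1,0),(10,3),(12,2),(0,2),(7,0)]⟩⟩,⟨false,0,
  ⟨0,[(33,0)]⟩,⟨1,[(35,1),(1,0),(0,0)]⟩⟩,⟨false,0,⟨0,[(1,0),(31,0),(2,0)]⟩,⟨1,[(3,0),(1,0),(10,1),
  (12,0),(0,0),(7,0)]⟩⟩,[.a ⟨true,0,⟨0,[(36,0)]⟩,⟨3,[(3,0),(1,0),(14,2),(2,2),(14,0)]⟩⟩ ⟨true,0,⟨1,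
  [(23,0),(0,0)]⟩,⟨0,[]⟩⟩ ⟨false,0,⟨0,[(1,0),(34,0)]⟩,⟨3,[(3,0),(1,0),(10,3),(3,2),(2,2),(14,0)]⟩⟩,
  .o ⟨false,1,⟨1,[(28,0),(7,1),(1,0)]⟩,⟨0,[(35,0)]⟩⟩,.o ⟨false,1,⟨0,[(16,0)]⟩,⟨40,[(1,18),(1,1),(1,
  1),(0,7),(10,21),(14,7),(5,1),(0,2)]⟩⟩,.o ⟨false,1,⟨1,[(16,1),(6,0),(0,0)]⟩,⟨0,[(1,0)]⟩⟩]⟩) (.R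
  ⟨0,false,false,false,[1,0,0,0,-1],[0,1],[0,1,0,-1],(⟨0,[(18,0)]⟩,⟨0,[(19,0)]⟩),(⟨0,[(30,0)]⟩,⟨0,
  [(29,0)]⟩),⟨0,[(0,0)]⟩,.k,.k,(.r (-1) ⟨1,[(35,1),(1,0),(0,0)]⟩ ⟨0,[(33,0),(6,0)]⟩),(.r (-1) ⟨1,
  [(35,1),(1,0),(0,0)]⟩ ⟨0,[(33,0),(6,0)]⟩),.k,.k,⟨false,1,⟨5,[(3,1),(1,1),(22,0),(6,3),(1,5),(0,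
  0)]⟩,⟨0,[(33,0),(2,0)]⟩⟩,⟨true,0,⟨0,[(1,0)]⟩,⟨0,[(7,0),(8,0),(6,0)]⟩⟩,⟨true,0,⟨0,[(35,0)]⟩,⟨0,
  [(36,0)]⟩⟩,⟨false,0,⟨0,[(1,0),(31,0)]⟩,⟨3,[(3,0),(1,0),(10,3),(12,2),(0,2),(7,0)]⟩⟩,⟨false,0,⟨0,
  []⟩,⟨0,[]⟩⟩,⟨false,0,⟨0,[]⟩,⟨0,[]⟩⟩,[.a ⟨true,0,⟨0,[(36,0)]⟩,⟨3,[(3,0),(1,0),(14,2),(2,2),(14,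
  0)]⟩⟩ ⟨true,0,⟨0,[(35,0)]⟩,⟨0,[(33,0)]⟩⟩ ⟨false,0,⟨0,[(1,0),(34,0)]⟩,⟨3,[(3,0),(1,0),(10,3),(3,2),
  (2,2),(14,0)]⟩⟩,.o ⟨false,1,⟨1,[(28,0),(7,1),(1,0)]⟩,⟨0,[(35,0)]⟩⟩,.o ⟨false,1,⟨0,[(16,0)]⟩,⟨40,
  [(1,18),(1,1),(1,1),(0,7),(10,21),(14,7),(5,1),(0,2)]⟩⟩,.o ⟨false,1,⟨1,[(16,1),(6,0),(0,0)]⟩,⟨0,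
  [(1,0)]⟩⟩]⟩))))))) (.S ⟨1,0,[0,0,-1,-1],[1,-1],[0,1,-1,-1],(⟨0,[(23,0)]⟩,⟨0,[(24,0)]⟩),⟨2,[(1,0),
  (1,0),(2,0),(14,3),(1,1),(4,1),(1,0),(1,0)]⟩,.k,(.x 0 ⟨0,[(17,0),(0,0),(5,1)]⟩ ⟨0,[(21,1),(6,1),
  (3,0)]⟩),⟨true,0,⟨0,[(34,0)]⟩,⟨0,[]⟩⟩,⟨false,1,⟨1,[(10,0),(0,0),(20,0)]⟩,⟨0,[]⟩⟩,⟨false,0,⟨0,[(30,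
  0)]⟩,⟨0,[(29,0),(2,0)]⟩⟩,⟨true,0,⟨0,[(30,0)]⟩,⟨0,[(29,0)]⟩⟩,[.e ⟨false,1,⟨4,[(0,3),(9,0),(0,0),
  (13,1),(3,0)]⟩,⟨0,[(27,0)]⟩⟩ ⟨false,1,⟨0,[(0,0)]⟩,⟨0,[(27,0),(6,0)]⟩⟩,.o ⟨false,1,⟨0,[(29,0),(2,
  0)]⟩,⟨1,[(1,0),(15,0),(8,0),(1,1),(1,1)]⟩⟩,.o ⟨false,0,⟨1,[(17,0),(0,0)]⟩,⟨1,[(22,0),(8,0)]⟩⟩,.a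
  ⟨true,(-1),⟨0,[(1,0),(15,0)]⟩,⟨0,[(31,0)]⟩⟩ ⟨false,1,⟨0,[(0,0)]⟩,⟨1,[(17,0),(0,0),(8,1)]⟩⟩ ⟨true,
  1,⟨0,[(0,0)]⟩,⟨1,[(1,2),(15,2),(8,0),(1,1),(1,1)]⟩⟩]⟩))) (.I [0,-1,-1,0,1,0,0,1] (.Q [0,0,0,0,0,
  -1,0,0,0,0,1] (.ed false [1,-1,1] .k) (.S ⟨1,0,[0,1,0,0,0,0,0,1],[0,0,1],[0,0,0,0,0,0,0,1],(⟨0,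
  [(20,0)]⟩,⟨0,[(19,0)]⟩),⟨0,[(0,0)]⟩,.k,.k,⟨false,1,⟨1,[(10,0),(0,0),(20,0)]⟩,⟨0,[]⟩⟩,⟨true,0,⟨0,
  [(34,0)]⟩,⟨0,[]⟩⟩,⟨true,0,⟨0,[(30,0)]⟩,⟨0,[(29,0)]⟩⟩,⟨false,0,⟨0,[(30,0)]⟩,⟨0,[(29,0),(2,0)]⟩⟩,
  [.a ⟨true,0,⟨0,[(15,0)]⟩,⟨0,[(3,0),(10,0)]⟩⟩ ⟨false,1,⟨15,[(1,11),(7,1),(0,2),(0,2),(3,3),(6,0),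
  (2,3)]⟩,⟨0,[(3,0),(24,0)]⟩⟩ ⟨true,0,⟨0,[(7,0),(22,0)]⟩,⟨0,[(3,0)]⟩⟩,.o ⟨false,1,⟨1,[(15,1),(6,0),
  (9,0)]⟩,⟨0,[(4,0)]⟩⟩,.o ⟨false,1,⟨1,[(17,1),(4,0),(8,0)]⟩,⟨0,[(8,0)]⟩⟩,.e ⟨false,1,⟨0,[(1,0)]⟩,⟨1,
  [(3,0),(12,0),(0,0)]⟩⟩ ⟨false,1,⟨15,[(1,11),(7,1),(0,2),(0,2),(3,3),(6,0),(2,3)]⟩,⟨0,[(3,0)]⟩⟩]⟩)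
  (.I [0,0,0,0,1,0,0,0,-1] (.I [0,0,-1,0,0,1,-1] (.C [(0,0),(1,0),(2,0),(2,0),(14,1),(8,0)]) (.C
  [(0,0),(3,0),(11,0)])) (.C [(0,0),(10,0),(2,0)]))) (.Q [0,-1,0,2,0,0,-1,-1,0,0,-1] (.p false [0,0,
  1] [] (⟨0,[(19,0)]⟩,⟨0,[(18,0)]⟩) .k 0 (⟨0,[]⟩,⟨0,[]⟩) .k .k) (.R ⟨1,true,false,false,[0,0,1],[0,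
  1],[0,0,0,0,0,0,0,1],(⟨0,[(20,0)]⟩,⟨0,[(19,0)]⟩),(⟨0,[(24,0)]⟩,⟨0,[(23,0)]⟩),⟨0,[(1,0),(0,0),(3,
  0),(7,0),(6,1),(8,0),(1,0)]⟩,.k,.k,.k,.k,(.r (-2) ⟨0,[(7,0),(21,0),(1,0),(0,0)]⟩ ⟨1,[(0,0),(0,1),
  (13,0),(11,1)]⟩),.k,⟨true,1,⟨1,[(7,1),(23,0),(0,0)]⟩,⟨0,[(1,0),(25,0)]⟩⟩,⟨false,1,⟨3,[(9,0),(4,1),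
  (11,0),(4,2)]⟩,⟨0,[(17,0)]⟩⟩,⟨false,1,⟨1,[(10,0),(0,0),(20,0)]⟩,⟨0,[]⟩⟩,⟨true,0,⟨0,[(5,0)]⟩,⟨0,
  [(6,0)]⟩⟩,⟨true,0,⟨0,[(30,0)]⟩,⟨0,[(29,0)]⟩⟩,⟨false,0,⟨0,[(0,0)]⟩,⟨0,[(6,0),(22,0),(2,0)]⟩⟩,[]⟩)
  (.I [0,0,-2,-1,1] (.S ⟨1,0,[0,0,-1,-1],[1,-1],[0,1,-1,-1],(⟨0,[(24,0)]⟩,⟨0,[(25,0)]⟩),⟨1,[(1,0),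
  (0,0),(12,0),(6,2),(1,0),(6,1),(1,0)]⟩,.k,(.x 0 ⟨0,[(18,0),(0,0),(5,1)]⟩ ⟨0,[(22,1),(6,1),(3,
  0)]⟩),⟨true,0,⟨0,[(35,0)]⟩,⟨0,[]⟩⟩,⟨false,1,⟨1,[(11,0),(0,0),(20,0)]⟩,⟨0,[]⟩⟩,⟨false,0,⟨0,[(31,
  0)]⟩,⟨0,[(30,0),(2,0)]⟩⟩,⟨true,0,⟨0,[(31,0)]⟩,⟨0,[(30,0)]⟩⟩,[.e ⟨false,1,⟨4,[(0,3),(10,0),(0,0),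
  (13,1),(3,0)]⟩,⟨0,[(28,0)]⟩⟩ ⟨false,1,⟨0,[(0,0)]⟩,⟨0,[(28,0),(6,0)]⟩⟩,.o ⟨false,1,⟨0,[(30,0),(2,
  0)]⟩,⟨2,[(2,0),(5,0),(18,0),(1,0),(1,3)]⟩⟩,.o ⟨false,0,⟨1,[(18,0),(0,0)]⟩,⟨1,[(23,0),(8,0)]⟩⟩,.a
  ⟨true,(-1),⟨0,[(1,0),(0,0),(12,0),(12,1)]⟩,⟨0,[(32,0)]⟩⟩ ⟨false,1,⟨0,[(0,0)]⟩,⟨1,[(18,0),(0,0),(8,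
  1)]⟩⟩ ⟨true,1,⟨0,[(0,0)]⟩,⟨0,[(2,0),(5,0),(19,0),(2,0)]⟩⟩]⟩) (.Q [0,0,-1,0,1,0,1,0,0,-1,1] (.p
  true [0,0,1] [1] (⟨0,[(21,0)]⟩,⟨0,[(20,0)]⟩) .k 1 (⟨0,[]⟩,⟨0,[]⟩) .k .k) (.R ⟨0,false,false,true,
  [1,0,-1],[1,-1],[0,1,-1,-1],(⟨0,[(21,0)]⟩,⟨0,[(22,0)]⟩),(⟨0,[(25,0)]⟩,⟨0,[(26,0)]⟩),⟨0,[(4,0)]⟩,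
  .k,.k,.k,.k,.k,.k,⟨false,1,⟨1,[(12,0),(0,0),(19,0)]⟩,⟨0,[]⟩⟩,⟨true,0,⟨0,[(19,0)]⟩,⟨0,[(10,0)]⟩⟩,
  ⟨false,1,⟨1,[(9,1),(23,0),(0,0)]⟩,⟨0,[(5,0),(26,0)]⟩⟩,⟨true,0,⟨0,[(8,0)]⟩,⟨0,[(7,0)]⟩⟩,⟨false,0,
  ⟨0,[]⟩,⟨0,[]⟩⟩,⟨false,0,⟨0,[]⟩,⟨0,[]⟩⟩,[.o ⟨false,0,⟨0,[(31,0)]⟩,⟨1,[(24,0),(7,1),(1,0)]⟩⟩,.a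
  ⟨true,0,⟨1,[(2,0),(2,0),(10,1),(2,0)]⟩,⟨0,[(32,0)]⟩⟩ ⟨true,1,⟨1,[(31,1),(1,0),(0,0)]⟩,⟨0,[(1,
  0)]⟩⟩ ⟨false,1,⟨1,[(2,0),(2,0),(13,0),(13,1)]⟩,⟨3,[(1,0),(9,0),(4,1),(11,0),(3,2)]⟩⟩,.o ⟨false,0,
  ⟨0,[(10,0)]⟩,⟨3,[(0,1),(11,0),(0,0),(5,1),(4,0)]⟩⟩,.o ⟨false,0,⟨0,[(20,0)]⟩,⟨0,[(0,0)]⟩⟩]⟩) (.Q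
  [0,0,0,0,1,0,1,0,0,-2,1] (.p true [-1,1,1] [1] (⟨0,[(4,0)]⟩,⟨0,[(21,0),(3,0)]⟩) .k 1 (⟨0,[]⟩,⟨0,
  []⟩) .k .k) (.R ⟨0,false,false,false,[-1,1,1],[0,1],[0,1,1,0,0,0,0,1],(⟨0,[(5,0)]⟩,⟨0,[(22,0),(3,
  0)]⟩),(⟨0,[(27,0)]⟩,⟨0,[(26,0)]⟩),⟨0,[(22,0)]⟩,.k,.k,.k,.k,.k,.k,⟨true,0,⟨0,[(10,0)]⟩,⟨0,[(6,0),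
  (26,0)]⟩⟩,⟨false,0,⟨0,[(17,0)]⟩,⟨3,[(0,1),(12,0),(0,0),(5,1),(13,0)]⟩⟩,⟨true,0,⟨0,[(32,0)]⟩,⟨0,
  [(33,0)]⟩⟩,⟨false,0,⟨0,[(6,0),(10,0)]⟩,⟨1,[(18,1),(6,0),(9,0)]⟩⟩,⟨false,0,⟨0,[]⟩,⟨0,[]⟩⟩,⟨false,0,
  ⟨0,[]⟩,⟨0,[]⟩⟩,[.a ⟨true,0,⟨0,[(33,0)]⟩,⟨1,[(3,0),(2,0),(10,1),(2,0)]⟩⟩ ⟨false,0,⟨4,[(2,0),(7,0),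
  (1,0),(4,1),(0,3),(10,0)]⟩,⟨0,[(6,0),(27,0)]⟩⟩ ⟨true,(-1),⟨0,[(2,0),(14,0)]⟩,⟨3,[(0,1),(2,0),(2,
  0),(13,0),(11,1),(1,0),(0,0)]⟩⟩,.o ⟨false,1,⟨1,[(25,0),(7,1),(1,0)]⟩,⟨0,[(32,0)]⟩⟩,.o ⟨false,2,⟨1,
  [(0,1),(12,0),(0,0),(19,0)]⟩,⟨0,[(1,0)]⟩⟩,.o ⟨false,1,⟨0,[(0,0)]⟩,⟨1,[(12,0),(4,0),(2,0)]⟩⟩]⟩)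
  (.R ⟨0,false,false,false,[1,0,-1],[0,1],[],(⟨0,[(22,0)]⟩,⟨0,[(23,0)]⟩),(⟨0,[(27,0)]⟩,⟨0,[(26,
  0)]⟩),⟨0,[(5,0)]⟩,.k,.k,.k,.k,.k,.k,⟨true,1,⟨1,[(32,1),(1,0),(0,0)]⟩,⟨0,[(2,0)]⟩⟩,⟨false,2,⟨1,
  [(20,1),(4,0),(8,2)]⟩,⟨0,[(1,0)]⟩⟩,⟨false,1,⟨5,[(10,1),(1,0),(4,1),(0,3),(10,0),(0,1),(4,4)]⟩,⟨1,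
  [(4,0),(1,0),(27,0)]⟩⟩,⟨true,1,⟨1,[(18,1),(6,0),(7,1),(1,0)]⟩,⟨7,[(0,9),(2,3),(0,6),(1,2),(0,1),
  (21,3),(4,4)]⟩⟩,⟨false,0,⟨0,[]⟩,⟨0,[]⟩⟩,⟨false,0,⟨0,[]⟩,⟨0,[]⟩⟩,[.a ⟨true,0,⟨0,[(33,0)]⟩,⟨3,[(0,
  1),(2,0),(2,0),(13,0),(11,1),(1,0),(0,0)]⟩⟩ ⟨false,1,⟨1,[(13,0),(0,0),(19,0)]⟩,⟨0,[]⟩⟩ ⟨true,1,⟨1,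
  [(20,1),(4,0),(7,1),(0,0)]⟩,⟨1,[(0,1),(0,0),(1,0),(0,0),(24,0),(5,0)]⟩⟩,.o ⟨false,1,⟨1,[(25,0),(7,
  1),(1,0)]⟩,⟨0,[(32,0)]⟩⟩,.o ⟨false,0,⟨0,[(11,0)]⟩,⟨1,[(20,1),(4,0),(8,0)]⟩⟩,.e ⟨false,1,⟨1,[(34,
  0),(0,0)]⟩,⟨1,[(20,0),(0,0)]⟩⟩ ⟨false,2,⟨1,[(20,1),(4,0),(7,1),(0,1),(0,0)]⟩,⟨1,[(0,1),(0,0),(1,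
  0),(0,0),(24,0),(5,0)]⟩⟩]⟩)))))))

theorem ok3 : chk K t3 r5 = true := by decide +kernel

noncomputable def t6 : Tre :=
  (.Q [0,0,0,0,0,-1,0,0,0,0,1] (.ed false [1,-1,1] .k) (.S ⟨1,0,[0,0,0,0,0,0,0,1],[0,0,1],[0,1,0,0,
  0,0,0,1],(⟨0,[(17,0)]⟩,⟨0,[(16,0)]⟩),⟨0,[(0,0)]⟩,.k,.k,⟨true,0,⟨0,[(31,0)]⟩,⟨0,[]⟩⟩,⟨false,1,⟨1,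
  [(7,0),(0,0),(20,0)]⟩,⟨0,[]⟩⟩,⟨false,0,⟨0,[(27,0)]⟩,⟨0,[(26,0),(2,0)]⟩⟩,⟨true,0,⟨0,[(27,0)]⟩,⟨0,
  [(26,0)]⟩⟩,[.o ⟨false,0,⟨0,[(1,0)]⟩,⟨1,[(7,0),(0,0),(4,1),(15,0)]⟩⟩,.o ⟨false,1,⟨3,[(1,1),(10,1),
  (6,0),(9,2)]⟩,⟨0,[(13,0)]⟩⟩,.o ⟨false,1,⟨1,[(14,1),(4,0),(8,0)]⟩,⟨0,[(5,0)]⟩⟩,.a ⟨true,0,⟨0,[(14,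
  0)]⟩,⟨0,[(11,0)]⟩⟩ ⟨false,0,⟨0,[(1,0),(9,0)]⟩,⟨0,[(13,0),(0,0),(14,0)]⟩⟩ ⟨true,0,⟨0,[(1,0),(9,
  0)]⟩,⟨0,[(13,0),(0,0)]⟩⟩]⟩) (.Q [0,0,1,0,0,0,2,0,0,0,2] (.p true [0,0,1] [0,1,-1] (⟨0,[(17,0)]⟩,
  ⟨0,[(16,0)]⟩) .k 2 (⟨0,[(0,0)]⟩,⟨0,[(17,0),(2,0)]⟩) .k (.x (-1) ⟨1,[(0,3),(13,3),(3,3),(6,1),(2,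
  0),(0,0)]⟩ ⟨0,[(5,1),(11,1)]⟩)) (.Q [0,-1,0,-1,0,0,2,2,0,0,2] (.p true [0,0,1] [0,1,-1] (⟨0,[(18,
  0)]⟩,⟨0,[(17,0)]⟩) .k 2 (⟨0,[(1,0)]⟩,⟨0,[(18,0),(2,0)]⟩) .k (.x (-1) ⟨3,[(0,3),(0,1),(15,5),(1,1),
  (4,1),(1,1),(2,0),(0,0)]⟩ ⟨0,[(6,1),(11,1)]⟩)) (.Q [0,0,0,-1,0,0,0,0,0,1] (.pp false [-1,1]) (.I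
  [0,0,-2,-2,1,0,0,1] (.K ⟨0,[0,1,-1],0,0,(⟨0,[(4,0)]⟩,⟨0,[(21,0),(2,0)]⟩),.k,.k,(.r 0 ⟨1,[(3,0),
  (13,1),(10,2),(2,0),(3,0)]⟩ ⟨0,[(0,0)]⟩),(.r (-1) ⟨0,[(3,0),(13,1),(13,0),(1,0)]⟩ ⟨0,[(5,0),(0,0),
  (2,0),(5,0)]⟩),.k,[⟨0,[(3,0)]⟩,⟨0,[(9,0)]⟩,⟨0,[(7,0)]⟩,⟨0,[(17,0),(13,0)]⟩]⟩) (.K ⟨0,[0,1,-1],0,0,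
  (⟨0,[(4,0)]⟩,⟨0,[(21,0),(2,0)]⟩),.k,.k,(.x (-1) ⟨1,[(9,1),(11,1),(0,3),(6,1),(2,0),(0,0)]⟩ ⟨1,[(4,
  1),(13,2),(0,0),(5,1)]⟩),(.r (-1) ⟨7,[(0,3),(2,5),(7,2),(0,2),(4,11),(14,2),(0,5)]⟩ ⟨0,[(5,0),(0,
  0),(2,0),(5,0)]⟩),.k,[⟨0,[(3,0)]⟩,⟨0,[(9,0)]⟩,⟨0,[(7,0)]⟩,⟨7,[(0,3),(9,1),(6,3),(5,0),(2,1),(5,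
  2)]⟩]⟩)) (.R ⟨0,false,false,false,[0,1,-1],[0,0,1],[0,0,1],(⟨0,[(3,0)]⟩,⟨0,[(20,0),(2,0)]⟩),(⟨0,
  [(20,0)]⟩,⟨0,[(19,0)]⟩),⟨0,[(20,0)]⟩,.k,.k,.k,(.r (-1) ⟨0,[(2,0),(13,1),(13,0),(1,0)]⟩ ⟨0,[(4,0),
  (0,0),(2,0),(5,0)]⟩),.k,.k,⟨false,1,⟨3,[(2,1),(7,0),(0,0),(4,3),(14,0),(0,1)]⟩,⟨0,[(4,0),(9,0)]⟩⟩,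
  ⟨true,0,⟨0,[(2,0)]⟩,⟨0,[(8,1)]⟩⟩,⟨true,0,⟨0,[(5,0),(2,0)]⟩,⟨0,[(0,0),(1,0),(11,0),(1,0)]⟩⟩,⟨false,
  0,⟨0,[(1,0)]⟩,⟨0,[(16,1),(13,0),(1,0)]⟩⟩,⟨false,0,⟨0,[]⟩,⟨0,[]⟩⟩,⟨false,0,⟨0,[]⟩,⟨0,[]⟩⟩,[.o
  ⟨false,0,⟨0,[(4,0)]⟩,⟨1,[(10,0),(0,0),(4,1),(15,0)]⟩⟩,.o ⟨false,1,⟨3,[(4,1),(10,1),(6,0),(9,2)]⟩,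
  ⟨0,[(16,0)]⟩⟩,.o ⟨false,1,⟨1,[(9,0),(16,0),(4,0)]⟩,⟨0,[(17,0)]⟩⟩,.a ⟨true,0,⟨0,[(8,0)]⟩,⟨0,[(2,0),
  (11,0)]⟩⟩ ⟨false,1,⟨1,[(10,0),(0,0),(20,0)]⟩,⟨0,[]⟩⟩ ⟨true,0,⟨1,[(1,0),(0,0),(25,0),(1,0)]⟩,⟨0,
  [(8,0),(7,0)]⟩⟩]⟩)) (.K ⟨0,[0,1,-1],0,0,(⟨0,[(2,0)]⟩,⟨0,[(19,0),(2,0)]⟩),.k,.k,(.x (-1) ⟨1,[(7,1),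
  (11,1),(0,3),(6,1),(2,0),(0,0)]⟩ ⟨1,[(2,1),(13,2),(0,0),(5,1)]⟩),(.r (-1) ⟨1,[(0,1),(0,1),(7,0),
  (0,0),(20,0)]⟩ ⟨0,[(3,0),(0,0),(2,0),(5,0)]⟩),.k,[⟨0,[(1,0)]⟩,⟨0,[(7,0)]⟩,⟨0,[(5,0)]⟩,⟨2,[(0,1),
  (13,0),(14,0)]⟩]⟩)) (.I [1,0,1,1,0,0,0,-1] (.Q [0,-1,0,1,1,0,-2,-2,0,0,-2] (.p false [0,0,1] [0,1,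
  -1] (⟨0,[(19,0)]⟩,⟨0,[(18,0)]⟩) .k 2 (⟨0,[(2,0)]⟩,⟨0,[(19,0),(2,0)]⟩) .k (.x (-1) ⟨1,[(2,3),(13,
  3),(3,3),(6,1),(2,0),(0,0)]⟩ ⟨2,[(1,1),(15,1),(1,5)]⟩)) (.R ⟨0,false,false,false,[0,0,1],[0,1,-1],
  [0,1,0,-1,0,0,0,1],(⟨0,[(20,0)]⟩,⟨0,[(19,0)]⟩),(⟨0,[(3,0)]⟩,⟨0,[(20,0),(2,0)]⟩),⟨0,[(3,0)]⟩,.k,.k,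
  .k,(.r 0 ⟨2,[(2,0),(1,2),(0,2),(3,0),(4,1)]⟩ ⟨1,[(0,0),(0,1),(15,1),(11,0),(1,0)]⟩),.k,.k,⟨false,
  0,⟨0,[(2,0),(2,1),(22,0)]⟩,⟨1,[(1,3),(29,0),(0,0)]⟩⟩,⟨true,0,⟨0,[(2,0)]⟩,⟨0,[(17,1)]⟩⟩,⟨true,0,⟨0,
  [(29,0)]⟩,⟨0,[(30,0)]⟩⟩,⟨false,1,⟨0,[(0,0)]⟩,⟨0,[(5,1),(24,0)]⟩⟩,⟨false,0,⟨0,[]⟩,⟨0,[]⟩⟩,⟨false,0,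
  ⟨0,[]⟩,⟨0,[]⟩⟩,[.o ⟨false,1,⟨9,[(0,4),(0,0),(13,0),(2,0),(3,4),(2,1),(4,3)]⟩,⟨0,[(5,0)]⟩⟩,.o
  ⟨false,1,⟨0,[(0,0),(3,0)]⟩,⟨0,[(6,0)]⟩⟩,.o ⟨false,1,⟨1,[(17,1),(4,0),(8,0)]⟩,⟨0,[(8,0)]⟩⟩,.a
  ⟨true,0,⟨0,[(17,0)]⟩,⟨0,[(14,0)]⟩⟩ ⟨true,0,⟨1,[(2,0),(2,1),(19,0)]⟩,⟨0,[(1,0)]⟩⟩ ⟨false,1,⟨3,[(0,
  1),(1,1),(27,1),(0,0),(0,0)]⟩,⟨0,[(5,0),(11,0)]⟩⟩]⟩) (.I [0,0,-2,-2,1,0,0,1] (.Q [0,0,0,0,0,-2,0,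
  0,0,1,1] (.p true [1,-1,1] [] (⟨0,[(21,0),(2,0)]⟩,⟨0,[(4,0)]⟩) .k 0 (⟨0,[]⟩,⟨0,[]⟩) .k .k) (.R ⟨1,
  true,false,false,[1,-1,1],[1,0,-1],[0,0,-1,-1,0,0,0,1],(⟨1,[(0,0),(15,0),(2,0),(2,0)]⟩,⟨0,[(5,
  0)]⟩),(⟨0,[(21,0)]⟩,⟨0,[(22,0)]⟩),⟨0,[(0,0)]⟩,.k,.k,(.r (-1) ⟨0,[(1,0)]⟩ ⟨2,[(3,3),(13,0),(2,0),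
  (8,0),(2,0)]⟩),(.r 0 ⟨3,[(1,0),(0,1),(1,0),(1,2),(4,1),(4,0),(17,0)]⟩ ⟨1,[(3,3),(27,1),(1,0),(0,
  0)]⟩),(.x 0 ⟨0,[(5,1),(13,1)]⟩ ⟨1,[(0,1),(3,1),(17,1),(1,0),(8,0)]⟩),.k,⟨false,0,⟨1,[(2,1),(1,1),
  (28,0),(0,0)]⟩,⟨1,[(3,3),(27,1),(1,0),(0,0)]⟩⟩,⟨true,0,⟨0,[(4,0)]⟩,⟨0,[(19,1)]⟩⟩,⟨false,1,⟨1,[(12,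
  0),(0,0),(20,0)]⟩,⟨0,[]⟩⟩,⟨true,1,⟨7,[(3,7),(0,1),(6,1),(6,7),(5,0),(8,2),(0,3)]⟩,⟨0,[(2,0)]⟩⟩,
  ⟨true,0,⟨0,[(32,0)]⟩,⟨0,[(31,0)]⟩⟩,⟨false,1,⟨1,[(3,3),(0,1),(28,0),(0,0)]⟩,⟨0,[(7,1)]⟩⟩,[]⟩) (.I
  [0,0,0,0,1,0,0,0,-1] (.I [0,0,-1,0,0,0,-2] (.I [0,1,0,0,0,0,-1,-1] (.C [(0,0),(2,0),(1,0),(0,0),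
  (12,0),(6,1),(10,0)]) (.C [(0,0),(20,0),(3,0)])) (.C [(0,0),(5,0),(17,1)])) (.C [(0,0),(12,0),(2,
  0)]))) (.R ⟨1,true,false,false,[1,-1,1],[1,0,-1],[0,0,-1,-1,0,0,0,1],(⟨0,[(21,0),(2,0)]⟩,⟨0,[(4,
  0)]⟩),(⟨0,[(20,0)]⟩,⟨0,[(21,0)]⟩),⟨5,[(0,1),(0,0),(13,1),(5,5),(0,7),(1,3),(4,1),(0,2),(2,2)]⟩,.k,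
  .k,(.x 0 ⟨1,[(4,1),(13,2),(0,0),(5,1)]⟩ ⟨3,[(3,1),(17,3),(0,7),(9,2),(0,0),(1,1)]⟩),(.r 0 ⟨13,[(1,
  9),(1,7),(1,3),(2,3),(1,3),(21,2),(0,6)]⟩ ⟨1,[(2,3),(27,1),(1,0),(0,0)]⟩),(.x 0 ⟨0,[(4,1),(13,
  1)]⟩ ⟨5,[(3,5),(17,11),(0,7),(0,1),(0,3),(7,2),(0,0),(1,1)]⟩),.k,⟨false,0,⟨1,[(1,1),(1,1),(28,0),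
  (0,0)]⟩,⟨1,[(2,3),(27,1),(1,0),(0,0)]⟩⟩,⟨true,0,⟨0,[(3,0)]⟩,⟨0,[(18,1)]⟩⟩,⟨false,1,⟨1,[(11,0),(0,
  0),(20,0)]⟩,⟨0,[]⟩⟩,⟨true,1,⟨7,[(2,7),(0,1),(6,1),(6,7),(5,0),(8,2),(0,3)]⟩,⟨0,[(1,0)]⟩⟩,⟨true,0,
  ⟨0,[(31,0)]⟩,⟨0,[(30,0)]⟩⟩,⟨false,1,⟨1,[(2,3),(0,1),(28,0),(0,0)]⟩,⟨0,[(6,1)]⟩⟩,[]⟩))) (.Q [0,-1,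
  0,1,1,0,-2,-2,0,0,-2] (.p false [0,0,1] [0,1,-1] (⟨0,[(19,0)]⟩,⟨0,[(18,0)]⟩) .k 2 (⟨0,[(2,0)]⟩,⟨0,
  [(19,0),(2,0)]⟩) .k (.x (-1) ⟨1,[(2,3),(13,3),(3,3),(6,1),(2,0),(0,0)]⟩ ⟨2,[(1,1),(15,1),(1,
  5)]⟩)) (.R ⟨0,false,false,false,[0,0,1],[0,1,-1],[1,0,0,0,0,0,0,1],(⟨0,[(20,0)]⟩,⟨0,[(19,0)]⟩),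
  (⟨0,[(3,0)]⟩,⟨0,[(20,0),(2,0)]⟩),⟨0,[(3,0)]⟩,.k,.k,.k,(.r 0 ⟨2,[(1,3),(2,0),(4,0),(5,0),(11,0)]⟩
  ⟨0,[(0,0),(16,1),(10,0)]⟩),.k,.k,⟨false,0,⟨0,[(1,0),(2,0),(9,0)]⟩,⟨0,[(0,0),(16,1),(10,0)]⟩⟩,
  ⟨true,0,⟨0,[(2,0)]⟩,⟨0,[(17,1)]⟩⟩,⟨true,0,⟨0,[]⟩,⟨0,[(34,0)]⟩⟩,⟨false,1,⟨0,[(0,0)]⟩,⟨0,[(5,1),(24,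
  0)]⟩⟩,⟨false,0,⟨0,[]⟩,⟨0,[]⟩⟩,⟨false,0,⟨0,[]⟩,⟨0,[]⟩⟩,[.o ⟨false,1,⟨1,[(0,0),(21,0),(7,0),(3,0)]⟩,
  ⟨0,[(5,0)]⟩⟩,.o ⟨false,1,⟨0,[(0,0),(3,0)]⟩,⟨0,[(6,0)]⟩⟩,.o ⟨false,1,⟨1,[(17,1),(4,0),(8,0)]⟩,⟨0,
  [(8,0)]⟩⟩,.a ⟨true,0,⟨0,[(17,0)]⟩,⟨0,[(14,0)]⟩⟩ ⟨true,0,⟨0,[(4,0),(9,0)]⟩,⟨0,[(16,0),(0,0)]⟩⟩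
  ⟨false,1,⟨3,[(0,1),(1,1),(27,1),(0,0),(0,0)]⟩,⟨0,[(5,0),(11,0)]⟩⟩]⟩) (.Q [0,0,1,0,-1,0,-1,0,0,1,
  -1] (.p false [0,0,1] [1] (⟨0,[(20,0)]⟩,⟨0,[(19,0)]⟩) .k 1 (⟨0,[]⟩,⟨0,[]⟩) .k .k) (.S ⟨1,0,[0,1,0,
  0,0,0,0,-1],[1,0,-1],[0,0,0,0,0,0,0,-1],(⟨0,[(20,0)]⟩,⟨0,[(21,0)]⟩),⟨1,[(0,0),(3,0),(13,0),(1,0),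
  (1,2),(6,1),(3,0)]⟩,.k,.k,⟨false,1,⟨1,[(11,0),(0,0),(20,0)]⟩,⟨0,[]⟩⟩,⟨true,0,⟨0,[(35,0)]⟩,⟨0,[]⟩⟩,
  ⟨true,0,⟨0,[(31,0)]⟩,⟨0,[(30,0)]⟩⟩,⟨false,0,⟨0,[(31,0)]⟩,⟨0,[(30,0),(2,0)]⟩⟩,[.o ⟨false,0,⟨0,[(17,
  0)]⟩,⟨3,[(5,1),(10,1),(6,0),(9,2)]⟩⟩,.o ⟨false,1,⟨1,[(11,0),(0,0),(4,1),(15,0)]⟩,⟨0,[(5,0)]⟩⟩,.o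
  ⟨false,0,⟨0,[(9,0)]⟩,⟨1,[(18,1),(4,0),(8,0)]⟩⟩,.a ⟨true,(-1),⟨0,[(0,0)]⟩,⟨0,[(18,0),(13,0)]⟩⟩
  ⟨false,2,⟨0,[(17,0),(0,0),(13,0),(0,0)]⟩,⟨0,[(0,0),(4,0)]⟩⟩ ⟨true,1,⟨0,[(17,0),(0,0),(13,0)]⟩,⟨0,
  [(0,0),(4,0)]⟩⟩]⟩) (.I [0,0,1,1,1,0,0,-2] (.Q [0,0,0,-1,0,0,0,0,0,1] (.pp false [-1,1]) (.I [1,-1,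
  0,1,1,0,0,-1] (.R ⟨0,false,false,false,[0,0,1],[0,1,-1],[0,1],(⟨0,[(24,0)]⟩,⟨0,[(23,0)]⟩),(⟨0,[(7,
  0)]⟩,⟨0,[(24,0),(2,0)]⟩),⟨0,[(7,0)]⟩,.k,.k,.k,(.r 0 ⟨5,[(4,1),(0,3),(2,3),(4,3),(21,0),(0,0)]⟩ ⟨0,
  [(2,0)]⟩),.k,.k,⟨false,0,⟨0,[(5,0),(26,0)]⟩,⟨23,[(2,13),(10,1),(5,3),(6,0),(4,9),(4,8)]⟩⟩,⟨true,0,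
  ⟨0,[(6,0)]⟩,⟨0,[(21,1)]⟩⟩,⟨false,1,⟨3,[(2,1),(30,1),(1,0),(0,0)]⟩,⟨1,[(4,0),(1,0),(24,0),(4,0)]⟩⟩,
  ⟨true,1,⟨0,[(2,0),(3,0)]⟩,⟨0,[(4,0)]⟩⟩,⟨false,0,⟨0,[]⟩,⟨0,[]⟩⟩,⟨false,0,⟨0,[]⟩,⟨0,[]⟩⟩,[.o ⟨false,
  1,⟨1,[(2,0),(3,0),(19,0),(7,0)]⟩,⟨0,[(9,0)]⟩⟩,.e ⟨false,1,⟨21,[(2,3),(8,3),(1,1),(5,3),(6,0),(8,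
  12),(0,3)]⟩,⟨0,[]⟩⟩ ⟨false,1,⟨0,[(0,0),(5,0)]⟩,⟨2,[(1,0),(0,0),(0,0),(0,1),(5,0)]⟩⟩,.o ⟨false,1,
  ⟨6,[(2,0),(0,2),(6,0),(8,0),(1,1),(4,1),(9,0)]⟩,⟨0,[(12,0)]⟩⟩,.a ⟨true,0,⟨0,[(21,0)]⟩,⟨0,[(18,
  0)]⟩⟩ ⟨true,0,⟨0,[(32,0)]⟩,⟨1,[(21,0),(0,0)]⟩⟩ ⟨false,1,⟨0,[(0,0),(5,0)]⟩,⟨0,[(9,0),(11,0)]⟩⟩]⟩)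
  (.Q [0,1,0,0,-1,0,2,2,0,-1,2] (.p true [0,0,1] [1,0,-1] (⟨0,[(24,0)]⟩,⟨0,[(23,0)]⟩) .k 2 (⟨0,[(23,
  0)]⟩,⟨0,[(24,0)]⟩) .k (.r 1 ⟨0,[(4,0),(1,0),(24,0)]⟩ ⟨1,[(2,1),(30,1),(1,0),(0,0)]⟩)) (.R ⟨0,
  false,false,false,[0,0,1],[1,0,-1],[1,0,0,-1,0,0,0,1],(⟨0,[(25,0)]⟩,⟨0,[(24,0)]⟩),(⟨0,[(24,0)]⟩,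
  ⟨0,[(25,0)]⟩),⟨0,[(8,0)]⟩,.k,.k,.k,.k,.k,.k,⟨true,(-1),⟨1,[(1,1),(3,0),(1,0),(24,0),(4,0)]⟩,⟨0,
  [(3,0)]⟩⟩,⟨false,0,⟨2,[(7,0),(6,0),(4,1)]⟩,⟨0,[(4,0),(17,0)]⟩⟩,⟨false,1,⟨0,[(34,0),(2,0)]⟩,⟨0,
  [(35,0)]⟩⟩,⟨true,1,⟨0,[(2,0),(0,0),(3,0)]⟩,⟨0,[(0,0)]⟩⟩,⟨false,0,⟨0,[]⟩,⟨0,[]⟩⟩,⟨false,0,⟨0,[]⟩,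
  ⟨0,[]⟩⟩,[.o ⟨false,1,⟨7,[(3,3),(3,1),(6,1),(12,0),(6,3),(1,0),(0,1)]⟩,⟨0,[(9,0)]⟩⟩,.o ⟨false,1,⟨0,
  [(21,0),(15,0)]⟩,⟨3,[(0,0),(19,1),(10,0),(7,0)]⟩⟩,.o ⟨false,1,⟨6,[(3,0),(0,2),(6,0),(8,0),(1,1),
  (4,1),(9,0)]⟩,⟨0,[(13,0)]⟩⟩,.a ⟨true,0,⟨0,[(22,0)]⟩,⟨0,[(19,0)]⟩⟩ ⟨true,0,⟨0,[(6,0)]⟩,⟨0,[(21,0),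
  (0,0),(12,0)]⟩⟩ ⟨false,1,⟨0,[(19,0),(1,0),(15,0)]⟩,⟨0,[(9,0),(12,0)]⟩⟩]⟩) (.Q [0,0,0,0,0,-1,0,0,0,
  1,-1] (.ed true [0,1,1] .k) (.R ⟨1,false,false,false,[1,0,-1],[1,-1],[0,0,0,0,0,0,0,-1],(⟨0,[(25,
  0)]⟩,⟨0,[(26,0)]⟩),(⟨0,[(29,0)]⟩,⟨0,[(30,0)]⟩),⟨0,[(0,0)]⟩,.k,.k,.k,.k,.k,.k,⟨false,1,⟨23,[(4,13),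
  (10,1),(5,3),(6,0),(7,9),(0,6),(0,1)]⟩,⟨0,[(7,0)]⟩⟩,⟨true,0,⟨0,[(23,0)]⟩,⟨0,[(14,0)]⟩⟩,⟨false,1,
  ⟨21,[(4,3),(8,3),(1,1),(5,3),(6,0),(8,1),(0,14)]⟩,⟨0,[]⟩⟩,⟨true,0,⟨0,[(11,0)]⟩,⟨0,[(22,0),(13,
  0)]⟩⟩,⟨true,0,⟨0,[(36,0)]⟩,⟨0,[(35,0)]⟩⟩,⟨true,0,⟨2,[(6,0),(14,0),(14,0),(1,0)]⟩,⟨0,[(22,0)]⟩⟩,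
  [.a ⟨true,0,⟨0,[(3,0)]⟩,⟨0,[(36,0)]⟩⟩ ⟨true,1,⟨2,[(1,0),(2,0),(0,0),(6,0)]⟩,⟨0,[(2,0),(30,0)]⟩⟩
  ⟨false,1,⟨0,[(3,0),(1,0)]⟩,⟨2,[(8,0),(15,0),(11,2)]⟩⟩,.o ⟨false,1,⟨0,[(35,0),(2,0)]⟩,⟨2,[(6,0),
  (15,1),(9,0),(3,3)]⟩⟩,.o ⟨false,0,⟨0,[(14,0)]⟩,⟨6,[(4,0),(0,2),(6,0),(8,0),(1,1),(4,1),(9,0)]⟩⟩,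
  .o ⟨false,0,⟨0,[(24,0)]⟩,⟨0,[(5,0)]⟩⟩]⟩) (.R ⟨0,false,false,false,[1,0,-1],[1,-1],[0,0,0,0,0,0,0,
  -1],(⟨0,[(25,0)]⟩,⟨0,[(26,0)]⟩),(⟨0,[(29,0)]⟩,⟨0,[(30,0)]⟩),⟨0,[(0,0)]⟩,.k,.k,.k,.k,.k,.k,⟨false,
  1,⟨23,[(4,13),(10,1),(5,3),(6,0),(7,9),(0,6),(0,1)]⟩,⟨0,[(7,0)]⟩⟩,⟨true,0,⟨0,[(23,0)]⟩,⟨0,[(14,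
  0)]⟩⟩,⟨false,1,⟨21,[(4,3),(8,3),(1,1),(5,3),(6,0),(8,1),(0,14)]⟩,⟨0,[]⟩⟩,⟨true,0,⟨0,[(11,0)]⟩,⟨0,
  [(22,0),(13,0)]⟩⟩,⟨false,0,⟨0,[]⟩,⟨0,[]⟩⟩,⟨false,0,⟨0,[]⟩,⟨0,[]⟩⟩,[.a ⟨true,0,⟨0,[(3,0)]⟩,⟨0,[(36,
  0)]⟩⟩ ⟨true,1,⟨2,[(1,0),(2,0),(0,0),(6,0)]⟩,⟨0,[(2,0),(30,0)]⟩⟩ ⟨false,1,⟨0,[(3,0),(1,0)]⟩,⟨2,[(8,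
  0),(15,0),(11,2)]⟩⟩,.o ⟨false,1,⟨0,[(35,0),(2,0)]⟩,⟨2,[(6,0),(15,1),(9,0),(3,3)]⟩⟩,.o ⟨false,0,⟨0,
  [(14,0)]⟩,⟨6,[(4,0),(0,2),(6,0),(8,0),(1,1),(4,1),(9,0)]⟩⟩,.o ⟨false,0,⟨0,[(24,0)]⟩,⟨0,[(5,
  0)]⟩⟩]⟩)))) (.R ⟨0,false,false,false,[0,0,1],[0,1,-1],[0,1],(⟨0,[(23,0)]⟩,⟨0,[(22,0)]⟩),(⟨0,[(6,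
  0)]⟩,⟨0,[(23,0),(2,0)]⟩),⟨0,[(6,0)]⟩,.k,.k,.k,(.r 0 ⟨5,[(3,1),(0,3),(2,3),(4,3),(21,0),(0,0)]⟩ ⟨0,
  [(1,0)]⟩),.k,.k,⟨false,0,⟨0,[(4,0),(26,0)]⟩,⟨23,[(1,13),(10,1),(5,3),(6,0),(4,9),(4,8)]⟩⟩,⟨true,0,
  ⟨0,[(5,0)]⟩,⟨0,[(20,1)]⟩⟩,⟨false,1,⟨3,[(1,1),(30,1),(1,0),(0,0)]⟩,⟨1,[(3,0),(1,0),(24,0),(4,0)]⟩⟩,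
  ⟨true,1,⟨0,[(1,0),(3,0)]⟩,⟨0,[(3,0)]⟩⟩,⟨false,0,⟨0,[]⟩,⟨0,[]⟩⟩,⟨false,0,⟨0,[]⟩,⟨0,[]⟩⟩,[.o ⟨false,
  1,⟨7,[(0,3),(0,3),(3,1),(6,1),(12,2),(8,0)]⟩,⟨0,[(8,0)]⟩⟩,.o ⟨false,1,⟨0,[(0,0),(18,0),(15,0)]⟩,
  ⟨0,[(9,0)]⟩⟩,.o ⟨false,1,⟨6,[(1,0),(0,2),(6,0),(8,0),(1,1),(4,1),(9,0)]⟩,⟨0,[(11,0)]⟩⟩,.a ⟨true,0,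
  ⟨0,[(20,0)]⟩,⟨0,[(17,0)]⟩⟩ ⟨true,0,⟨0,[(31,0)]⟩,⟨1,[(20,0),(0,0)]⟩⟩ ⟨false,1,⟨0,[(0,0),(16,0),(1,
  0),(15,0)]⟩,⟨0,[(8,0),(11,0)]⟩⟩]⟩)) (.R ⟨0,false,false,true,[0,0,1],[1,0,-1],[1,1,1],(⟨0,[(22,
  0)]⟩,⟨0,[(21,0)]⟩),(⟨0,[(21,0)]⟩,⟨0,[(22,0)]⟩),⟨0,[(5,0)]⟩,.k,.k,.k,.k,.k,.k,⟨true,(-1),⟨0,[(0,0),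
  (17,0),(0,0),(9,0)]⟩,⟨1,[(18,1),(0,1),(13,0),(0,0)]⟩⟩,⟨false,0,⟨2,[(4,0),(6,0),(4,1)]⟩,⟨0,[(1,0),
  (17,0)]⟩⟩,⟨true,0,⟨0,[(18,0),(0,0)]⟩,⟨15,[(0,5),(5,1),(4,1),(5,1),(14,5),(0,4),(0,0)]⟩⟩,⟨false,1,
  ⟨0,[(16,0),(1,1),(0,0),(14,0)]⟩,⟨0,[(0,0),(0,0),(17,0),(9,0)]⟩⟩,⟨false,0,⟨0,[]⟩,⟨0,[]⟩⟩,⟨false,0,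
  ⟨0,[]⟩,⟨0,[]⟩⟩,[.o ⟨false,0,⟨0,[(18,0)]⟩,⟨3,[(6,1),(10,1),(6,0),(9,2)]⟩⟩,.o ⟨false,1,⟨1,[(12,0),
  (0,0),(4,1),(15,0)]⟩,⟨0,[(6,0)]⟩⟩,.o ⟨false,1,⟨3,[(1,1),(10,0),(0,0),(5,1),(4,0)]⟩,⟨0,[(10,0)]⟩⟩,
  .a ⟨true,0,⟨0,[(19,0)]⟩,⟨0,[(16,0)]⟩⟩ ⟨false,0,⟨0,[]⟩,⟨1,[(12,0),(0,0),(20,0)]⟩⟩ ⟨true,0,⟨0,[(16,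
  0),(1,0)]⟩,⟨0,[(6,0),(12,0)]⟩⟩]⟩)))))))

theorem ok6 : chk K t6 l6 = true := by decide +kernel

noncomputable def t7 : Tre :=
  (.Q [0,0,0,0,0,-1,0,0,0,0,1] (.ed false [1,-1,1] .k) (.Q [0,1,0,0,0,0,1,1,0,-1,1] (.p true [0,0,
  1] [1] (⟨0,[(18,0)]⟩,⟨0,[(17,0)]⟩) .k 1 (⟨0,[]⟩,⟨0,[]⟩) .k .k) (.I [1,-1,2,1,0,0,0,-1] (.I [1,0,1,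
  0,0,0,0,-1] (.Q [0,0,0,2,0,0,-1,-1,0,0,-1] (.p false [0,0,1] [] (⟨0,[(21,0)]⟩,⟨0,[(20,0)]⟩) .k 0
  (⟨0,[]⟩,⟨0,[]⟩) .k .k) (.I [1,0,-1,-2,1] (.I [0,0,-2,-2,1,0,0,1] (.R ⟨1,true,false,false,[0,0,1],
  [0,1],[0,1,0,0,0,0,0,1],(⟨0,[(24,0)]⟩,⟨0,[(23,0)]⟩),(⟨0,[(28,0)]⟩,⟨0,[(27,0)]⟩),⟨0,[(6,0)]⟩,.k,.k,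
  .k,.k,(.r (-1) ⟨0,[(0,0)]⟩ ⟨0,[(7,0),(30,0)]⟩),.k,⟨true,0,⟨0,[(9,0),(2,0),(19,0)]⟩,⟨0,[(4,0)]⟩⟩,
  ⟨false,1,⟨3,[(13,0),(4,1),(11,0),(4,2)]⟩,⟨0,[(21,0)]⟩⟩,⟨true,0,⟨0,[(38,0)]⟩,⟨0,[]⟩⟩,⟨false,1,⟨5,
  [(2,0),(4,1),(0,2),(4,0),(12,1),(8,1),(0,1)]⟩,⟨0,[(9,0)]⟩⟩,⟨false,0,⟨0,[(34,0)]⟩,⟨3,[(1,1),(2,0),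
  (6,0),(24,1)]⟩⟩,⟨true,0,⟨0,[(2,0)]⟩,⟨0,[(9,0),(23,0)]⟩⟩,[]⟩) (.R ⟨1,true,false,false,[0,0,1],[0,
  1],[0,1,0,0,0,0,0,1],(⟨0,[(24,0)]⟩,⟨0,[(23,0)]⟩),(⟨0,[(28,0)]⟩,⟨0,[(27,0)]⟩),⟨0,[(6,0)]⟩,.k,.k,.k,
  .k,(.x 0 ⟨2,[(0,0),(2,0),(0,0),(4,1),(1,0),(9,0),(1,2),(4,5),(1,0)]⟩ ⟨0,[(6,0),(5,0),(12,0),(9,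
  0)]⟩),.k,⟨true,0,⟨0,[(9,0),(2,0),(19,0)]⟩,⟨0,[(4,0)]⟩⟩,⟨false,1,⟨3,[(13,0),(4,1),(11,0),(4,2)]⟩,
  ⟨0,[(21,0)]⟩⟩,⟨true,0,⟨0,[(38,0)]⟩,⟨0,[]⟩⟩,⟨false,1,⟨5,[(2,0),(4,1),(0,2),(4,0),(12,1),(8,1),(0,
  1)]⟩,⟨0,[(9,0)]⟩⟩,⟨false,0,⟨0,[(34,0)]⟩,⟨3,[(1,1),(2,0),(6,0),(24,1)]⟩⟩,⟨true,0,⟨0,[(2,0)]⟩,⟨0,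
  [(9,0),(23,0)]⟩⟩,[]⟩)) (.R ⟨1,true,false,false,[0,0,1],[0,1],[0,1,0,0,0,0,0,1],(⟨0,[(23,0)]⟩,⟨0,
  [(22,0)]⟩),(⟨0,[(27,0)]⟩,⟨0,[(26,0)]⟩),⟨0,[(5,0)]⟩,.k,.k,.k,.k,(.r (-2) ⟨0,[(10,0),(21,0),(1,0),
  (0,0)]⟩ ⟨0,[(0,0),(1,0)]⟩),.k,⟨true,0,⟨0,[(8,0),(2,0),(19,0)]⟩,⟨0,[(3,0)]⟩⟩,⟨false,1,⟨3,[(12,0),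
  (4,1),(11,0),(4,2)]⟩,⟨0,[(20,0)]⟩⟩,⟨true,0,⟨0,[(37,0)]⟩,⟨0,[]⟩⟩,⟨false,1,⟨5,[(1,0),(4,1),(0,2),(4,
  0),(12,1),(8,1),(0,1)]⟩,⟨0,[(8,0)]⟩⟩,⟨false,0,⟨0,[(33,0)]⟩,⟨0,[(32,0),(2,0)]⟩⟩,⟨true,0,⟨0,[(1,
  0)]⟩,⟨0,[(8,0),(23,0)]⟩⟩,[]⟩)) (.Q [0,1,0,-1,0,0,1,1,0,-1,1] (.p true [0,0,1] [1] (⟨0,[(22,0)]⟩,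
  ⟨0,[(21,0)]⟩) .k 1 (⟨0,[]⟩,⟨0,[]⟩) .k .k) (.Q [0,0,0,0,0,-1,0,0,0,1,-1] (.ed true [0,1,1] .k) (.Q
  [0,0,-1,0,1,0,1,0,0,-1,1] (.p true [0,0,1] [1] (⟨0,[(24,0)]⟩,⟨0,[(23,0)]⟩) .k 1 (⟨0,[]⟩,⟨0,[]⟩)
  .k .k) (.S ⟨1,0,[0,0,0,0,0,0,0,-1],[1,0,-1],[0,1,0,0,0,0,0,-1],(⟨0,[(24,0)]⟩,⟨0,[(25,0)]⟩),⟨0,[(1,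
  0)]⟩,.k,.k,⟨true,0,⟨0,[(39,0)]⟩,⟨0,[]⟩⟩,⟨false,1,⟨1,[(15,0),(0,0),(20,0)]⟩,⟨0,[]⟩⟩,⟨false,0,⟨0,
  [(35,0)]⟩,⟨0,[(34,0),(2,0)]⟩⟩,⟨true,0,⟨0,[(35,0)]⟩,⟨0,[(34,0)]⟩⟩,[.a ⟨true,0,⟨0,[(9,0)]⟩,⟨0,[(10,
  0),(24,0)]⟩⟩ ⟨true,0,⟨0,[(4,0),(28,0)]⟩,⟨0,[(10,0),(2,0),(18,0)]⟩⟩ ⟨false,1,⟨0,[(0,0),(8,0)]⟩,⟨1,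
  [(6,0),(3,0),(2,0),(5,0),(12,0)]⟩⟩,.o ⟨false,1,⟨1,[(9,1),(17,0),(9,0)]⟩,⟨0,[(6,0)]⟩⟩,.o ⟨false,0,
  ⟨0,[(13,0)]⟩,⟨3,[(0,1),(14,0),(0,0),(5,1),(4,0)]⟩⟩,.o ⟨false,0,⟨0,[(23,0)]⟩,⟨0,[(0,0)]⟩⟩]⟩) (.I
  [0,0,-2,-2,1] (.S ⟨1,0,[0,0,-1,-1],[1,-1],[0,1,-1,-1],(⟨0,[(29,0)]⟩,⟨0,[(30,0)]⟩),⟨0,[(2,0),(5,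
  0)]⟩,.k,(.r (-1) ⟨0,[(0,0)]⟩ ⟨1,[(7,0),(1,1),(5,0),(5,0)]⟩),⟨true,0,⟨0,[(40,0)]⟩,⟨0,[]⟩⟩,⟨false,1,
  ⟨1,[(16,0),(0,0),(20,0)]⟩,⟨0,[]⟩⟩,⟨false,0,⟨0,[(36,0)]⟩,⟨0,[(35,0),(2,0)]⟩⟩,⟨true,0,⟨0,[(36,0)]⟩,
  ⟨0,[(35,0)]⟩⟩,[.e ⟨false,1,⟨3,[(0,1),(15,0),(0,0),(13,1),(5,0)]⟩,⟨0,[(33,0)]⟩⟩ ⟨false,1,⟨1,[(0,0),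
  (36,0)]⟩,⟨3,[(7,0),(1,1),(5,0),(5,0)]⟩⟩,.o ⟨false,1,⟨0,[(35,0),(2,0)]⟩,⟨2,[(1,0),(5,0),(1,0),(22,
  0),(1,2),(1,0)]⟩⟩,.o ⟨false,0,⟨1,[(6,0),(6,0)]⟩,⟨1,[(28,0),(8,0)]⟩⟩,.a ⟨true,(-1),⟨0,[(1,0),(21,
  0)]⟩,⟨0,[(37,0)]⟩⟩ ⟨false,1,⟨1,[(0,0),(36,0)]⟩,⟨1,[(6,0),(6,0),(19,1)]⟩⟩ ⟨true,1,⟨1,[(0,0),(36,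
  0)]⟩,⟨1,[(1,1),(3,0),(1,1),(1,0),(24,0)]⟩⟩]⟩) (.I [0,-1,0,1,0,0,0,1] (.S ⟨1,0,[0,0,0,0,0,0,0,-1],
  [1,0,-1],[],(⟨0,[(26,0)]⟩,⟨0,[(27,0)]⟩),⟨0,[(3,0)]⟩,.k,.k,⟨true,0,⟨1,[(0,0),(13,0)]⟩,⟨0,[(6,0),
  (28,0)]⟩⟩,⟨false,1,⟨1,[(17,0),(0,0),(20,0)]⟩,⟨0,[]⟩⟩,⟨false,0,⟨0,[(0,0)]⟩,⟨1,[(6,1),(29,1),(1,0),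
  (0,0)]⟩⟩,⟨true,0,⟨0,[(37,0)]⟩,⟨0,[(36,0)]⟩⟩,[.e ⟨false,1,⟨1,[(17,0),(0,0),(19,0)]⟩,⟨0,[]⟩⟩ ⟨false,
  1,⟨0,[(6,0),(31,0)]⟩,⟨1,[(0,0),(13,0)]⟩⟩,.o ⟨false,1,⟨1,[(11,1),(17,0),(9,0)]⟩,⟨0,[(8,0)]⟩⟩,.o
  ⟨false,0,⟨0,[(15,0)]⟩,⟨1,[(24,1),(4,0),(8,0)]⟩⟩,.a ⟨true,(-1),⟨0,[(2,0)]⟩,⟨0,[(24,0),(13,0)]⟩⟩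
  ⟨false,1,⟨1,[(38,0),(0,0)]⟩,⟨1,[(7,0),(6,0)]⟩⟩ ⟨true,1,⟨0,[(6,0),(31,0)]⟩,⟨0,[(2,0),(5,0)]⟩⟩]⟩)
  (.I [0,0,-2,-1,1] (.S ⟨1,0,[0,1,-1,-1],[1,-1],[1,0,1],(⟨0,[(31,0)]⟩,⟨0,[(32,0)]⟩),⟨0,[(4,0),(5,
  0)]⟩,.k,(.x 0 ⟨0,[(8,0),(6,0),(16,1)]⟩ ⟨0,[(29,1),(6,1),(3,0)]⟩),⟨false,0,⟨1,[(2,0),(5,0),(6,0),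
  (24,0)]⟩,⟨0,[(0,0)]⟩⟩,⟨true,0,⟨0,[(42,0)]⟩,⟨0,[]⟩⟩,⟨true,(-1),⟨0,[(2,0)]⟩,⟨0,[(0,0),(36,0)]⟩⟩,
  ⟨false,0,⟨0,[(38,0)]⟩,⟨0,[(37,0),(2,0)]⟩⟩,[.o ⟨false,0,⟨0,[(37,0)]⟩,⟨1,[(2,0),(27,0),(8,0),(0,
  0)]⟩⟩,.e ⟨false,1,⟨1,[(18,0),(0,0),(20,0)]⟩,⟨0,[(36,0)]⟩⟩ ⟨false,1,⟨0,[(0,0)]⟩,⟨9,[(2,0),(8,3),(5,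
  1),(5,3),(6,0)]⟩⟩,.o ⟨false,0,⟨1,[(8,0),(6,0)]⟩,⟨1,[(30,0),(8,0)]⟩⟩,.a ⟨true,(-1),⟨0,[(3,0),(21,
  0)]⟩,⟨0,[(39,0)]⟩⟩ ⟨true,0,⟨0,[]⟩,⟨0,[(42,0)]⟩⟩ ⟨false,1,⟨0,[(0,0)]⟩,⟨1,[(2,0),(5,0),(6,0),(24,
  0)]⟩⟩]⟩) (.Q [0,0,0,-1,0,0,0,0,-1,1,0,-1] (.p false [0,0,0,0,1] [1] (⟨0,[(21,0)]⟩,⟨0,[(20,0)]⟩)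
  .k 1 (⟨0,[]⟩,⟨0,[]⟩) .k .k) (.Q [0,0,0,0,0,-1,0,0,0,0,0,1] (.ed false [1,-1,0,0,1] .k) (.S ⟨1,0,
  [1],[0,0,0,0,1],[0,1],(⟨0,[(23,0)]⟩,⟨0,[(22,0)]⟩),⟨0,[(0,0)]⟩,.k,(.r (-1) ⟨1,[(39,1),(1,0),(0,
  0)]⟩ ⟨21,[(4,0),(8,9),(3,5),(1,1),(5,3),(6,0),(7,5)]⟩),⟨true,0,⟨0,[(44,0)]⟩,⟨0,[]⟩⟩,⟨false,1,⟨1,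
  [(20,0),(0,0),(20,0)]⟩,⟨0,[]⟩⟩,⟨false,0,⟨0,[(2,0),(35,1),(3,0)]⟩,⟨0,[(39,0),(2,0)]⟩⟩,⟨true,0,⟨0,
  [(40,0)]⟩,⟨0,[(39,0)]⟩⟩,[.a ⟨true,0,⟨0,[(21,0)]⟩,⟨0,[(1,0),(38,0)]⟩⟩ ⟨false,0,⟨0,[(38,0)]⟩,⟨1,
  [(20,0),(0,0),(20,0)]⟩⟩ ⟨true,0,⟨0,[]⟩,⟨1,[(10,0),(6,0)]⟩⟩,.o ⟨false,1,⟨1,[(21,1),(10,0),(9,0)]⟩,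
  ⟨9,[(1,8),(2,3),(15,0),(15,2),(1,7),(1,0),(3,1)]⟩⟩,.e ⟨true,0,⟨0,[(44,0)]⟩,⟨0,[]⟩⟩ ⟨true,0,⟨0,[]⟩,
  ⟨0,[(44,0)]⟩⟩,.o ⟨false,0,⟨21,[(2,5),(2,1),(2,2),(0,2),(11,21),(6,0),(7,7),(6,3)]⟩,⟨7,[(1,5),(2,
  2),(15,1),(15,1),(4,6)]⟩⟩]⟩) (.S ⟨1,0,[-1,1],[1,0,0,0,-1],[-1],(⟨0,[(22,0)]⟩,⟨0,[(23,0)]⟩),⟨0,[(0,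
  0),(5,0),(5,0)]⟩,.k,(.r (-1) ⟨1,[(39,1),(1,0),(0,0)]⟩ ⟨9,[(4,0),(8,3),(5,1),(5,3),(6,0)]⟩),⟨false,
  1,⟨1,[(20,0),(0,0),(20,0)]⟩,⟨0,[]⟩⟩,⟨true,0,⟨0,[(44,0)]⟩,⟨0,[]⟩⟩,⟨true,0,⟨0,[(40,0)]⟩,⟨0,[(39,
  0)]⟩⟩,⟨false,0,⟨0,[(40,0)]⟩,⟨0,[(39,0),(2,0)]⟩⟩,[.o ⟨false,0,⟨9,[(1,8),(2,3),(15,0),(15,2),(1,7),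
  (1,0),(3,1)]⟩,⟨1,[(21,1),(10,0),(9,0)]⟩⟩,.e ⟨false,1,⟨0,[(38,0),(3,0)]⟩,⟨0,[(44,0)]⟩⟩ ⟨false,1,⟨9,
  [(20,3),(0,3),(19,4),(0,0),(1,1)]⟩,⟨0,[]⟩⟩,.a ⟨true,0,⟨1,[(1,1),(2,0),(36,0)]⟩,⟨0,[(21,0)]⟩⟩
  ⟨false,1,⟨4,[(20,1),(0,1),(20,2),(1,0)]⟩,⟨0,[]⟩⟩ ⟨true,0,⟨0,[(44,0)]⟩,⟨0,[]⟩⟩,.o ⟨false,0,⟨6,[(1,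
  5),(2,2),(15,0),(15,1),(6,0)]⟩,⟨1,[(21,1),(10,0),(8,0)]⟩⟩]⟩)) (.Q [0,0,0,2,0,0,1,1,0,-1,1] (.p
  true [0,0,1] [1] (⟨0,[(29,0)]⟩,⟨0,[(28,0)]⟩) .k 1 (⟨0,[]⟩,⟨0,[]⟩) .k .k) (.R ⟨1,false,false,false,
  [1,0,-1],[0,1],[],(⟨0,[(29,0)]⟩,⟨0,[(30,0)]⟩),(⟨0,[(34,0)]⟩,⟨0,[(33,0)]⟩),⟨0,[(6,0)]⟩,.k,.k,.k,.k,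
  (.r (-2) ⟨0,[(3,0),(35,0),(1,0),(0,0)]⟩ ⟨1,[(0,0),(1,0),(1,0),(10,0),(3,0)]⟩),.k,⟨true,1,⟨1,[(39,
  1),(1,0),(0,0)]⟩,⟨0,[(2,0)]⟩⟩,⟨false,2,⟨1,[(27,1),(4,0),(8,2)]⟩,⟨0,[(5,0)]⟩⟩,⟨true,0,⟨1,[(0,0),(7,
  0),(10,0)]⟩,⟨2,[(3,1),(9,0),(24,1)]⟩⟩,⟨false,1,⟨3,[(0,1),(24,1),(6,0),(9,2)]⟩,⟨1,[(3,1),(1,0),(18,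
  0),(17,0)]⟩⟩,⟨true,0,⟨9,[(0,5),(4,0),(9,1),(3,3),(4,0),(0,1),(16,0)]⟩,⟨0,[(3,0)]⟩⟩,⟨true,0,⟨0,[(0,
  0)]⟩,⟨1,[(3,1),(4,0),(5,0),(4,0)]⟩⟩,[.e ⟨false,1,⟨1,[(20,0),(0,0),(19,0)]⟩,⟨0,[]⟩⟩ ⟨false,1,⟨1,
  [(0,1),(2,1),(37,0),(0,0)]⟩,⟨1,[(8,0),(5,0),(4,0)]⟩⟩,.o ⟨false,1,⟨7,[(0,1),(12,1),(5,0),(12,1),(3,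
  0),(4,1),(0,2)]⟩,⟨0,[(39,0)]⟩⟩,.o ⟨false,0,⟨0,[(18,0)]⟩,⟨1,[(27,1),(4,0),(8,0)]⟩⟩,.a ⟨true,(-1),
  ⟨0,[(5,0)]⟩,⟨0,[(27,0),(13,0)]⟩⟩ ⟨false,1,⟨1,[(41,0),(0,0)]⟩,⟨1,[(10,0),(6,0)]⟩⟩ ⟨true,1,⟨1,[(0,
  1),(2,1),(37,0),(0,0)]⟩,⟨0,[(5,0),(33,0)]⟩⟩]⟩) (.Q [-1,0,0,0,0,0,0,0,-1,1,0,-1] (.p false [0,0,0,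
  0,1] [1] (⟨0,[(23,0)]⟩,⟨0,[(22,0)]⟩) .k 1 (⟨0,[]⟩,⟨0,[]⟩) .k .k) (.R ⟨2,true,false,true,[0,1],[1,
  0,0,0,-1],[0,0,1,1],(⟨0,[]⟩,⟨0,[]⟩),(⟨0,[(23,0)]⟩,⟨0,[(24,0)]⟩),⟨0,[]⟩,.k,.k,.k,(.r 0 ⟨9,[(5,0),
  (8,3),(5,1),(5,3),(6,0)]⟩ ⟨7,[(1,1),(15,1),(3,0),(0,0),(10,0),(6,1),(1,3),(0,1)]⟩),.k,.k,⟨true,0,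
  ⟨0,[(38,0)]⟩,⟨0,[(40,0)]⟩⟩,⟨false,0,⟨0,[(0,0)]⟩,⟨1,[(22,1),(10,0),(8,0)]⟩⟩,⟨false,1,⟨1,[(21,0),(0,
  0),(20,0)]⟩,⟨0,[]⟩⟩,⟨true,0,⟨0,[(0,0),(39,0)]⟩,⟨0,[(2,0)]⟩⟩,⟨true,0,⟨0,[(41,0)]⟩,⟨0,[(40,0)]⟩⟩,
  ⟨false,0,⟨0,[(0,0)]⟩,⟨1,[(22,1),(10,0),(9,0)]⟩⟩,[]⟩) (.Q [0,0,1,0,0,0,0,0,-1,1,0,-1] (.p false [0,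
  0,0,0,1] [1] (⟨0,[(24,0)]⟩,⟨0,[(23,0)]⟩) .k 1 (⟨0,[]⟩,⟨0,[]⟩) .k .k) (.Q [-1,-1,0,0,1,0,0,0,-1,0,
  0,-1] (.p false [0,0,0,0,1] [] (⟨0,[(25,0)]⟩,⟨0,[(24,0)]⟩) .k 0 (⟨0,[]⟩,⟨0,[]⟩) .k .k) (.R ⟨1,
  false,false,true,[0,0,1],[0,0,0,0,1],[0,1,0,0,0,0,0,1],(⟨0,[(33,0)]⟩,⟨0,[(32,0)]⟩),(⟨0,[(26,0)]⟩,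
  ⟨0,[(25,0)]⟩),⟨0,[(15,0)]⟩,.k,.k,.k,.k,(.r (-1) ⟨1,[(20,1),(23,0),(0,0)]⟩ ⟨2,[(6,0),(9,1),(24,
  0)]⟩),.k,⟨true,0,⟨1,[(8,0),(1,0),(3,0),(12,0),(15,0),(1,0)]⟩,⟨0,[(12,0)]⟩⟩,⟨false,0,⟨2,[(2,2),(5,
  0),(18,1),(13,1),(3,0)]⟩,⟨0,[(0,0),(29,0),(10,0)]⟩⟩,⟨true,0,⟨0,[(47,0)]⟩,⟨0,[]⟩⟩,⟨false,0,⟨0,[(2,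
  0),(14,0)]⟩,⟨1,[(0,1),(6,0),(10,1),(25,0)]⟩⟩,⟨false,0,⟨0,[(43,0)]⟩,⟨5,[(3,1),(15,1),(3,0),(0,0),
  (10,0),(9,3)]⟩⟩,⟨false,0,⟨0,[(4,0),(12,0)]⟩,⟨0,[(0,0),(17,0)]⟩⟩,[.o ⟨false,0,⟨0,[(2,0),(44,0)]⟩,
  ⟨0,[(0,0)]⟩⟩,.o ⟨false,0,⟨0,[(2,0)]⟩,⟨2,[(0,0),(22,1),(23,0)]⟩⟩,.o ⟨false,1,⟨1,[(30,1),(4,0),(8,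
  0)]⟩,⟨0,[(21,0)]⟩⟩,.a ⟨true,0,⟨0,[(30,0)]⟩,⟨0,[(27,0)]⟩⟩ ⟨true,0,⟨0,[(14,0),(12,0)]⟩,⟨0,[(12,
  0)]⟩⟩ ⟨false,0,⟨0,[(2,0),(24,0)]⟩,⟨0,[(0,0),(29,0)]⟩⟩]⟩) (.Q [0,0,0,0,0,0,1,0,1,-1,1,1] (.p true
  [0,0,1] [1,0,0,0,-1] (⟨0,[(33,0)]⟩,⟨0,[(32,0)]⟩) .k 2 (⟨0,[(25,0)]⟩,⟨0,[(26,0)]⟩) .k (.r 0 ⟨5,[(7,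
  1),(6,1),(3,3),(3,0),(4,3),(11,0),(5,0)]⟩ ⟨9,[(12,9),(10,3),(0,3),(19,4),(0,0),(1,1)]⟩)) (.K ⟨0,
  [1,0,0,0,-1],0,0,(⟨0,[(26,0)]⟩,⟨0,[(27,0)]⟩),.k,(.r (-1) ⟨7,[(4,1),(15,1),(3,0),(0,0),(10,0),(6,
  1),(1,3),(0,1)]⟩ ⟨9,[(8,0),(8,3),(5,1),(5,3),(6,0)]⟩),(.r 0 ⟨21,[(8,0),(8,9),(3,5),(1,1),(5,3),(6,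
  0),(7,5)]⟩ ⟨5,[(4,1),(15,1),(3,0),(0,0),(10,0),(8,2),(0,0)]⟩),.k,.k,[⟨0,[(0,0)]⟩,⟨0,[(2,0)]⟩,⟨0,
  [(3,0),(44,0)]⟩,⟨0,[(2,0),(39,0)]⟩]⟩) (.Q [0,0,0,0,0,-1,0,0,0,1,0,-1] (.ed true [0,1,0,0,1] .k)
  (.R ⟨1,false,false,false,[1,0,0,0,-1],[0,1],[-1],(⟨0,[(27,0)]⟩,⟨0,[(28,0)]⟩),(⟨0,[(39,0)]⟩,⟨0,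
  [(38,0)]⟩),⟨0,[(0,0)]⟩,.k,.k,(.r (-1) ⟨7,[(5,1),(15,1),(3,0),(0,0),(10,0),(6,1),(1,3),(0,1)]⟩ ⟨9,
  [(9,0),(8,3),(5,1),(5,3),(6,0)]⟩),(.r (-1) ⟨7,[(5,1),(15,1),(3,0),(0,0),(10,0),(6,1),(1,3),(0,
  1)]⟩ ⟨9,[(9,0),(8,3),(5,1),(5,3),(6,0)]⟩),(.r (-2) ⟨2,[(5,1),(15,1),(3,0),(0,0),(10,0),(8,2),(0,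
  0)]⟩ ⟨0,[(9,0)]⟩),.k,⟨true,1,⟨7,[(5,1),(15,1),(3,0),(0,0),(10,0),(6,1),(1,3),(0,1)]⟩,⟨0,[(7,0)]⟩⟩,
  ⟨false,1,⟨0,[(4,0),(41,0)]⟩,⟨0,[(3,0)]⟩⟩,⟨false,1,⟨1,[(25,0),(0,0),(20,0)]⟩,⟨0,[]⟩⟩,⟨true,0,⟨0,
  [(6,0)]⟩,⟨5,[(1,2),(1,2),(4,1),(4,2),(4,0),(24,4)]⟩⟩,⟨true,0,⟨0,[(45,0)]⟩,⟨0,[(44,0)]⟩⟩,⟨true,0,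
  ⟨1,[(6,1),(2,0),(36,0)]⟩,⟨2,[(1,2),(6,1),(4,2),(4,0),(24,1)]⟩⟩,[.a ⟨true,0,⟨0,[(45,0)]⟩,⟨3,[(5,0),
  (7,0),(15,2),(2,2)]⟩⟩ ⟨false,1,⟨9,[(25,3),(0,3),(19,4),(0,0),(1,1)]⟩,⟨0,[]⟩⟩ ⟨true,0,⟨0,[(6,0)]⟩,
  ⟨1,[(1,0),(1,0),(9,0),(0,0)]⟩⟩,.o ⟨false,1,⟨1,[(9,0),(27,0),(8,0),(0,0)]⟩,⟨0,[(44,0)]⟩⟩,.o ⟨false,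
  1,⟨0,[(25,0)]⟩,⟨11,[(2,7),(2,0),(0,3),(6,0),(27,2),(1,1),(3,4),(0,1)]⟩⟩,.e ⟨false,1,⟨0,[(43,0),(3,
  0)]⟩,⟨1,[(15,0),(6,0)]⟩⟩ ⟨false,1,⟨1,[(6,1),(39,0),(0,0)]⟩,⟨1,[(1,0),(1,0),(9,0),(0,0)]⟩⟩]⟩) (.R
  ⟨0,false,false,false,[1,0,0,0,-1],[0,1],[-1],(⟨0,[(27,0)]⟩,⟨0,[(28,0)]⟩),(⟨0,[(39,0)]⟩,⟨0,[(38,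
  0)]⟩),⟨0,[(0,0)]⟩,.k,.k,(.r (-1) ⟨7,[(5,1),(15,1),(3,0),(0,0),(10,0),(6,1),(1,3),(0,1)]⟩ ⟨9,[(9,
  0),(8,3),(5,1),(5,3),(6,0)]⟩),(.r (-1) ⟨7,[(5,1),(15,1),(3,0),(0,0),(10,0),(6,1),(1,3),(0,1)]⟩ ⟨9,
  [(9,0),(8,3),(5,1),(5,3),(6,0)]⟩),.k,.k,⟨true,1,⟨7,[(5,1),(15,1),(3,0),(0,0),(10,0),(6,1),(1,3),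
  (0,1)]⟩,⟨0,[(7,0)]⟩⟩,⟨false,1,⟨0,[(4,0),(41,0)]⟩,⟨0,[(3,0)]⟩⟩,⟨false,1,⟨1,[(25,0),(0,0),(20,0)]⟩,
  ⟨0,[]⟩⟩,⟨true,0,⟨0,[(6,0)]⟩,⟨5,[(1,2),(1,2),(4,1),(4,2),(4,0),(24,4)]⟩⟩,⟨false,0,⟨0,[]⟩,⟨0,[]⟩⟩,
  ⟨false,0,⟨0,[]⟩,⟨0,[]⟩⟩,[.a ⟨true,0,⟨0,[(45,0)]⟩,⟨3,[(5,0),(7,0),(15,2),(2,2)]⟩⟩ ⟨false,1,⟨9,[(25,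
  3),(0,3),(19,4),(0,0),(1,1)]⟩,⟨0,[]⟩⟩ ⟨true,0,⟨0,[(6,0)]⟩,⟨1,[(1,0),(1,0),(9,0),(0,0)]⟩⟩,.o
  ⟨false,1,⟨1,[(9,0),(27,0),(8,0),(0,0)]⟩,⟨0,[(44,0)]⟩⟩,.o ⟨false,1,⟨0,[(25,0)]⟩,⟨11,[(2,7),(2,0),
  (0,3),(6,0),(27,2),(1,1),(3,4),(0,1)]⟩⟩,.e ⟨false,1,⟨0,[(43,0),(3,0)]⟩,⟨1,[(15,0),(6,0)]⟩⟩ ⟨false,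
  1,⟨1,[(6,1),(39,0),(0,0)]⟩,⟨1,[(1,0),(1,0),(9,0),(0,0)]⟩⟩]⟩)))) (.Q [0,0,0,0,0,-1,0,0,0,1,0,-1]
  (.ed true [0,1,0,0,1] .k) (.R ⟨1,false,false,false,[1,0,0,0,-1],[0,1],[0,0,1],(⟨0,[(25,0)]⟩,⟨0,
  [(26,0)]⟩),(⟨0,[(37,0)]⟩,⟨0,[(36,0)]⟩),⟨0,[(0,0)]⟩,.k,.k,(.r (-1) ⟨7,[(3,1),(15,1),(3,0),(0,0),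
  (10,0),(6,1),(1,3),(0,1)]⟩ ⟨9,[(7,0),(8,3),(5,1),(5,3),(6,0)]⟩),(.r (-1) ⟨7,[(3,1),(15,1),(3,0),
  (0,0),(10,0),(6,1),(1,3),(0,1)]⟩ ⟨9,[(7,0),(8,3),(5,1),(5,3),(6,0)]⟩),(.r (-2) ⟨2,[(3,1),(15,1),
  (3,0),(0,0),(10,0),(8,2),(0,0)]⟩ ⟨0,[(7,0)]⟩),.k,⟨false,1,⟨5,[(3,1),(15,1),(3,0),(0,0),(10,0),(8,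
  2),(0,0)]⟩,⟨1,[(7,0),(36,0)]⟩⟩,⟨true,0,⟨0,[(1,0)]⟩,⟨0,[(8,0),(14,0),(6,0)]⟩⟩,⟨true,0,⟨1,[(13,0),
  (6,0)]⟩,⟨0,[(41,0)]⟩⟩,⟨false,0,⟨1,[(1,1),(5,0),(37,0)]⟩,⟨15,[(3,3),(4,0),(2,4),(4,0),(6,15),(12,
  10),(0,10),(3,2),(3,0)]⟩⟩,⟨false,0,⟨0,[(40,0)]⟩,⟨5,[(3,1),(15,1),(3,0),(0,0),(10,0),(8,2),(0,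
  0)]⟩⟩,⟨false,0,⟨1,[(1,1),(5,1),(36,0),(0,0)]⟩,⟨7,[(3,3),(4,0),(2,4),(4,0),(6,7),(12,2),(0,2),(3,
  2),(3,0)]⟩⟩,[.a ⟨true,0,⟨0,[(43,0)]⟩,⟨3,[(3,0),(7,0),(15,2),(2,2)]⟩⟩ ⟨true,0,⟨1,[(13,0),(6,0)]⟩,
  ⟨0,[]⟩⟩ ⟨false,0,⟨1,[(1,1),(5,0),(36,0)]⟩,⟨3,[(3,0),(7,0),(11,3),(3,2),(2,2)]⟩⟩,.o ⟨false,1,⟨1,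
  [(7,0),(27,0),(8,0),(0,0)]⟩,⟨0,[(42,0)]⟩⟩,.o ⟨false,1,⟨0,[(23,0)]⟩,⟨2,[(1,0),(0,1),(43,0)]⟩⟩,.o
  ⟨false,1,⟨1,[(13,0),(6,0),(2,1)]⟩,⟨0,[(1,0)]⟩⟩]⟩) (.R ⟨0,false,false,false,[1,0,0,0,-1],[0,1],[0,
  1,0,-1],(⟨0,[(25,0)]⟩,⟨0,[(26,0)]⟩),(⟨0,[(37,0)]⟩,⟨0,[(36,0)]⟩),⟨0,[(0,0)]⟩,.k,.k,(.r (-1) ⟨7,[(3,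
  1),(15,1),(3,0),(0,0),(10,0),(6,1),(1,3),(0,1)]⟩ ⟨9,[(7,0),(8,3),(5,1),(5,3),(6,0)]⟩),(.r (-1) ⟨7,
  [(3,1),(15,1),(3,0),(0,0),(10,0),(6,1),(1,3),(0,1)]⟩ ⟨9,[(7,0),(8,3),(5,1),(5,3),(6,0)]⟩),.k,.k,
  ⟨false,1,⟨1,[(3,0),(6,0),(31,0),(1,1)]⟩,⟨1,[(7,1),(36,0),(0,0)]⟩⟩,⟨true,0,⟨0,[(1,0)]⟩,⟨0,[(8,0),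
  (14,0),(6,0)]⟩⟩,⟨true,0,⟨0,[(42,0)]⟩,⟨0,[(43,0)]⟩⟩,⟨false,0,⟨1,[(1,1),(5,0),(37,0)]⟩,⟨15,[(3,3),
  (4,0),(2,4),(4,0),(6,15),(12,10),(0,10),(3,2),(3,0)]⟩⟩,⟨false,0,⟨0,[]⟩,⟨0,[]⟩⟩,⟨false,0,⟨0,[]⟩,⟨0,
  []⟩⟩,[.a ⟨true,0,⟨0,[(43,0)]⟩,⟨3,[(3,0),(7,0),(15,2),(2,2)]⟩⟩ ⟨true,0,⟨0,[(42,0)]⟩,⟨0,[(40,0)]⟩⟩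
  ⟨false,0,⟨1,[(1,1),(5,0),(36,0)]⟩,⟨3,[(3,0),(7,0),(11,3),(3,2),(2,2)]⟩⟩,.o ⟨false,1,⟨1,[(7,0),(27,
  0),(8,0),(0,0)]⟩,⟨0,[(42,0)]⟩⟩,.o ⟨false,1,⟨0,[(23,0)]⟩,⟨2,[(1,0),(0,1),(43,0)]⟩⟩,.o ⟨false,1,⟨1,
  [(13,0),(6,0),(2,1)]⟩,⟨0,[(1,0)]⟩⟩]⟩)))))))))) (.I [0,-1,-2,-1,1,0,0,1] (.Q [0,0,0,0,0,-2,0,0,0,0,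
  1] (.p true [0,0,1] [] (⟨0,[(25,0)]⟩,⟨0,[(24,0)]⟩) .k 0 (⟨0,[]⟩,⟨0,[]⟩) .k .k) (.S ⟨1,0,[0,1,-1,
  -1,0,0,0,1],[0,-1,1],[0,0,-1,-1,0,0,0,1],(⟨0,[(8,0)]⟩,⟨0,[(25,0),(4,0)]⟩),⟨0,[(0,0)]⟩,.k,(.r (-1)
  ⟨0,[(1,0),(33,0)]⟩ ⟨0,[(9,0),(30,0)]⟩),⟨false,1,⟨1,[(16,0),(0,0),(20,0)]⟩,⟨0,[]⟩⟩,⟨true,0,⟨0,[(40,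
  0)]⟩,⟨0,[]⟩⟩,⟨true,0,⟨0,[(36,0)]⟩,⟨0,[(35,0)]⟩⟩,⟨false,0,⟨0,[(36,0)]⟩,⟨0,[(35,0),(2,0)]⟩⟩,[.o
  ⟨false,0,⟨0,[(3,0)]⟩,⟨3,[(9,1),(0,1),(4,0),(16,0),(4,1),(0,0)]⟩⟩,.e ⟨false,1,⟨0,[(1,0)]⟩,⟨1,[(5,
  0),(3,0),(21,0),(8,0)]⟩⟩ ⟨false,1,⟨1,[(1,0),(11,0),(23,0)]⟩,⟨1,[(5,0),(3,0),(24,0)]⟩⟩,.a ⟨true,0,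
  ⟨0,[(23,0)]⟩,⟨0,[(20,0)]⟩⟩ ⟨false,1,⟨1,[(1,0),(11,0),(24,0)]⟩,⟨1,[(5,0),(3,0),(24,0)]⟩⟩ ⟨true,0,
  ⟨0,[(3,0),(16,0)]⟩,⟨1,[(5,0),(3,0),(24,0)]⟩⟩,.o ⟨false,0,⟨0,[(3,0),(2,0)]⟩,⟨3,[(15,0),(4,1),(11,
  0),(4,2)]⟩⟩]⟩) (.I [0,0,0,0,0,-1,-1] (.I [0,0,0,0,1,0,0,0,-1] (.I [0,0,-1,0,0,1,-1] (.C [(0,0),(2,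
  0),(3,0),(4,0),(17,2),(6,0)]) (.C [(0,0),(4,0),(17,0)])) (.C [(0,0),(17,0),(2,0)])) (.C [(0,0),(8,
  0),(5,0)]))) (.Q [0,0,-1,0,1,0,1,0,0,-1,1] (.p true [0,0,1] [1] (⟨0,[(25,0)]⟩,⟨0,[(24,0)]⟩) .k 1
  (⟨0,[]⟩,⟨0,[]⟩) .k .k) (.R ⟨0,false,false,false,[1,0,-1],[1,-1],[1,1,0,0,0,0,0,-1],(⟨0,[(25,0)]⟩,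
  ⟨0,[(26,0)]⟩),(⟨0,[(29,0)]⟩,⟨0,[(30,0)]⟩),⟨0,[(2,0)]⟩,.k,.k,.k,.k,.k,.k,⟨false,0,⟨0,[(1,0),(35,
  0)]⟩,⟨7,[(11,5),(1,1),(6,5),(11,1),(4,0),(0,4)]⟩⟩,⟨true,0,⟨0,[(23,0)]⟩,⟨0,[(14,0)]⟩⟩,⟨false,0,⟨0,
  []⟩,⟨1,[(16,0),(0,0),(20,0)]⟩⟩,⟨true,0,⟨0,[(11,0)]⟩,⟨0,[(22,0),(13,0)]⟩⟩,⟨false,0,⟨0,[]⟩,⟨0,[]⟩⟩,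
  ⟨false,0,⟨0,[]⟩,⟨0,[]⟩⟩,[.a ⟨true,0,⟨1,[(4,0),(5,0),(9,0),(2,0)]⟩,⟨0,[(36,0)]⟩⟩ ⟨true,0,⟨0,[(5,0),
  (28,0)]⟩,⟨0,[(11,0),(2,0),(18,0)]⟩⟩ ⟨false,1,⟨1,[(0,0),(3,0),(5,0),(12,0),(13,0)]⟩,⟨0,[(14,0),(21,
  0)]⟩⟩,.o ⟨false,1,⟨0,[(35,0),(2,0)]⟩,⟨3,[(1,0),(5,0),(6,0),(17,0),(1,1),(1,2)]⟩⟩,.o ⟨false,0,⟨0,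
  [(14,0)]⟩,⟨3,[(0,1),(15,0),(0,0),(5,1),(4,0)]⟩⟩,.o ⟨false,0,⟨0,[(24,0)]⟩,⟨0,[(0,0)]⟩⟩]⟩) (.Q [0,0,
  0,0,1,0,1,0,0,-2,1] (.p true [-1,1,1] [1] (⟨0,[(2,0)]⟩,⟨0,[(25,0),(3,0)]⟩) .k 1 (⟨0,[]⟩,⟨0,[]⟩)
  .k .k) (.R ⟨0,false,false,false,[-1,1,1],[0,1],[1,0,1,1],(⟨0,[(3,0)]⟩,⟨0,[(26,0),(3,0)]⟩),(⟨0,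
  [(31,0)]⟩,⟨0,[(30,0)]⟩),⟨0,[(26,0)]⟩,.k,.k,.k,.k,.k,.k,⟨true,0,⟨0,[]⟩,⟨1,[(7,0),(6,0)]⟩⟩,⟨false,0,
  ⟨0,[(21,0)]⟩,⟨3,[(0,1),(16,0),(0,0),(5,1),(13,0)]⟩⟩,⟨false,1,⟨1,[(6,1),(31,0),(0,0)]⟩,⟨9,[(1,1),
  (6,5),(3,3),(3,0),(4,5),(11,0),(0,3),(4,0)]⟩⟩,⟨true,0,⟨0,[(11,0)]⟩,⟨0,[(8,0)]⟩⟩,⟨false,0,⟨0,[]⟩,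
  ⟨0,[]⟩⟩,⟨false,0,⟨0,[]⟩,⟨0,[]⟩⟩,[.a ⟨true,0,⟨0,[(37,0)]⟩,⟨1,[(5,0),(5,0),(9,0),(2,0)]⟩⟩ ⟨false,0,
  ⟨0,[(37,0)]⟩,⟨1,[(36,1),(1,0),(0,0)]⟩⟩ ⟨true,(-1),⟨0,[(1,0),(35,0)]⟩,⟨3,[(0,1),(4,0),(0,0),(17,0),
  (11,1),(1,0),(0,0)]⟩⟩,.o ⟨false,1,⟨1,[(29,0),(7,1),(1,0)]⟩,⟨0,[(36,0)]⟩⟩,.o ⟨false,2,⟨1,[(0,1),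
  (16,0),(0,0),(19,0)]⟩,⟨0,[(1,0)]⟩⟩,.o ⟨false,1,⟨0,[(0,0)]⟩,⟨1,[(16,0),(4,0),(2,0)]⟩⟩]⟩) (.I [0,-1,
  1,1] (.R ⟨0,false,false,false,[1,0,-1],[0,1],[1,1,1],(⟨0,[(27,0)]⟩,⟨0,[(28,0)]⟩),(⟨0,[(32,0)]⟩,⟨0,
  [(31,0)]⟩),⟨0,[(4,0)]⟩,.k,.k,.k,.k,.k,.k,⟨true,0,⟨0,[(37,0)]⟩,⟨0,[(0,0)]⟩⟩,⟨false,2,⟨1,[(25,1),(4,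
  0),(8,2)]⟩,⟨0,[(2,0)]⟩⟩,⟨true,(-1),⟨0,[(2,0),(6,0)]⟩,⟨0,[(7,0),(31,0)]⟩⟩,⟨false,1,⟨0,[(9,0),(28,
  0),(1,0)]⟩,⟨1,[(1,1),(4,0),(0,1),(4,0),(21,0),(4,0)]⟩⟩,⟨false,0,⟨0,[]⟩,⟨0,[]⟩⟩,⟨false,0,⟨0,[]⟩,⟨0,
  []⟩⟩,[.a ⟨true,0,⟨0,[(38,0)]⟩,⟨9,[(1,1),(4,3),(5,5),(1,1),(10,1),(13,0),(0,0)]⟩⟩ ⟨false,0,⟨0,[(42,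
  0)]⟩,⟨1,[(39,0),(0,0)]⟩⟩ ⟨true,1,⟨3,[(9,1),(1,1),(13,1),(4,0),(8,2)]⟩,⟨2,[(0,0),(0,3),(0,0),(3,1),
  (0,1),(26,1),(1,0)]⟩⟩,.o ⟨false,1,⟨1,[(30,0),(7,1),(1,0)]⟩,⟨0,[(37,0)]⟩⟩,.o ⟨false,0,⟨0,[(16,0)]⟩,
  ⟨1,[(25,1),(4,0),(8,0)]⟩⟩,.e ⟨false,0,⟨0,[]⟩,⟨1,[(18,0),(0,0),(20,0)]⟩⟩ ⟨false,2,⟨3,[(9,1),(1,1),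
  (13,1),(4,0),(8,4),(0,1)]⟩,⟨2,[(0,0),(0,3),(0,0),(3,1),(0,1),(26,1),(1,0)]⟩⟩]⟩) (.S ⟨1,0,[0,0,-1,
  -1],[1,-1],[0,1,-1,-1],(⟨0,[(31,0)]⟩,⟨0,[(32,0)]⟩),⟨4,[(1,0),(4,0),(4,0),(17,6),(1,2),(4,2),(3,0),
  (0,0)]⟩,.k,(.r (-1) ⟨0,[(0,1),(39,0)]⟩ ⟨1,[(9,0),(1,1),(5,0),(5,0)]⟩),⟨true,0,⟨0,[(42,0)]⟩,⟨0,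
  []⟩⟩,⟨false,1,⟨1,[(18,0),(0,0),(20,0)]⟩,⟨0,[]⟩⟩,⟨false,0,⟨0,[(38,0)]⟩,⟨0,[(37,0),(2,0)]⟩⟩,⟨true,0,
  ⟨0,[(38,0)]⟩,⟨0,[(37,0)]⟩⟩,[.e ⟨false,1,⟨0,[(37,0),(1,0)]⟩,⟨0,[(35,0)]⟩⟩ ⟨false,1,⟨1,[(0,1),(38,
  0),(0,0)]⟩,⟨3,[(9,0),(1,1),(5,0),(5,0)]⟩⟩,.o ⟨false,1,⟨0,[(37,0),(2,0)]⟩,⟨5,[(2,0),(0,0),(5,0),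
  (23,0),(0,1),(1,1),(1,4)]⟩⟩,.o ⟨false,0,⟨1,[(8,0),(6,0)]⟩,⟨1,[(30,0),(8,0)]⟩⟩,.a ⟨true,(-1),⟨0,
  [(2,0),(22,0)]⟩,⟨0,[(39,0)]⟩⟩ ⟨false,1,⟨1,[(0,1),(38,0),(0,0)]⟩,⟨1,[(8,0),(6,0),(19,1)]⟩⟩ ⟨true,1,
  ⟨1,[(0,1),(38,0),(0,0)]⟩,⟨7,[(2,3),(0,3),(5,4),(1,1),(5,0),(5,0)]⟩⟩]⟩)))))) (.R ⟨2,true,false,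
  false,[0,1],[1,1,-1],[0,1],(⟨0,[]⟩,⟨0,[]⟩),(⟨0,[(22,0),(4,0)]⟩,⟨0,[(5,0)]⟩),⟨0,[]⟩,.k,.k,.k,.k,.k,
  .k,⟨true,0,⟨1,[(1,0),(2,0),(6,0),(5,0),(13,0)]⟩,⟨0,[(3,0)]⟩⟩,⟨false,0,⟨0,[(17,0)]⟩,⟨1,[(20,1),(4,
  0),(8,0)]⟩⟩,⟨false,1,⟨1,[(32,1),(1,0),(0,0)]⟩,⟨0,[(30,0)]⟩⟩,⟨true,0,⟨0,[(7,0)]⟩,⟨0,[(4,0)]⟩⟩,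
  ⟨true,0,⟨0,[(31,0)]⟩,⟨1,[(3,0),(6,0)]⟩⟩,⟨false,0,⟨0,[(0,0)]⟩,⟨1,[(9,1),(15,0),(9,0)]⟩⟩,[]⟩))) (.S
  ⟨1,0,[0,1,0,0,0,0,0,1],[0,0,1],[1,0,1],(⟨0,[(21,0)]⟩,⟨0,[(20,0)]⟩),⟨0,[(3,0)]⟩,.k,.k,⟨false,1,⟨1,
  [(5,1),(12,1),(4,0),(9,0)]⟩,⟨0,[(0,0)]⟩⟩,⟨true,0,⟨0,[(35,0)]⟩,⟨0,[]⟩⟩,⟨true,0,⟨0,[(1,0),(27,0)]⟩,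
  ⟨0,[(0,0),(29,0)]⟩⟩,⟨false,0,⟨0,[(31,0)]⟩,⟨0,[(30,0),(2,0)]⟩⟩,[.o ⟨false,0,⟨0,[(2,0)]⟩,⟨1,[(5,1),
  (17,0),(9,0)]⟩⟩,.e ⟨false,1,⟨1,[(11,0),(0,0),(20,0)]⟩,⟨0,[(29,0)]⟩⟩ ⟨false,0,⟨0,[(0,0)]⟩,⟨1,[(5,
  1),(12,1),(4,0),(8,0)]⟩⟩,.o ⟨false,1,⟨1,[(18,1),(4,0),(8,0)]⟩,⟨0,[(9,0)]⟩⟩,.a ⟨true,0,⟨0,[(18,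
  0)]⟩,⟨0,[(15,0)]⟩⟩ ⟨true,0,⟨0,[]⟩,⟨0,[(35,0)]⟩⟩ ⟨false,0,⟨0,[(0,0)]⟩,⟨1,[(5,1),(12,1),(4,0),(9,
  0)]⟩⟩]⟩)) (.Q [0,0,0,2,0,0,-1,-1,0,0,-1] (.p false [0,0,1] [] (⟨0,[(20,0)]⟩,⟨0,[(19,0)]⟩) .k 0
  (⟨0,[]⟩,⟨0,[]⟩) .k .k) (.R ⟨1,true,false,false,[0,0,1],[0,1],[0,0,2,1],(⟨0,[(21,0)]⟩,⟨0,[(20,
  0)]⟩),(⟨0,[(25,0)]⟩,⟨0,[(24,0)]⟩),⟨0,[(3,0)]⟩,.k,.k,.k,.k,(.r (-1) ⟨0,[(1,0),(28,0),(2,0)]⟩ ⟨0,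
  [(4,0),(30,0)]⟩),.k,⟨true,0,⟨1,[(18,0),(0,0)]⟩,⟨0,[]⟩⟩,⟨false,1,⟨3,[(10,0),(4,1),(11,0),(4,2)]⟩,
  ⟨0,[(18,0)]⟩⟩,⟨true,0,⟨0,[(4,0),(25,0)]⟩,⟨0,[(1,0)]⟩⟩,⟨false,1,⟨5,[(0,0),(3,1),(0,2),(4,0),(12,1),
  (8,1),(0,1)]⟩,⟨0,[(6,0)]⟩⟩,⟨false,0,⟨0,[(4,0)]⟩,⟨0,[(1,0),(28,0),(2,0)]⟩⟩,⟨true,0,⟨0,[(0,0)]⟩,⟨0,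
  [(6,0),(23,0)]⟩⟩,[]⟩) (.I [1,-1,0,0,1,0,0,-1] (.S ⟨1,0,[0,0,0,0,0,0,0,1],[0,0,1],[0,1,0,0,0,0,0,
  1],(⟨0,[(22,0)]⟩,⟨0,[(21,0)]⟩),⟨0,[(4,0)]⟩,.k,.k,⟨true,0,⟨0,[(36,0)]⟩,⟨0,[]⟩⟩,⟨false,1,⟨1,[(12,0),
  (0,0),(20,0)]⟩,⟨0,[]⟩⟩,⟨false,0,⟨0,[(32,0)]⟩,⟨9,[(0,5),(0,3),(7,1),(1,1),(12,0),(9,2)]⟩⟩,⟨true,0,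
  ⟨0,[(32,0)]⟩,⟨0,[(31,0)]⟩⟩,[.e ⟨false,0,⟨3,[(2,1),(0,0),(7,0),(5,0),(14,1)]⟩,⟨0,[(0,0)]⟩⟩ ⟨false,
  0,⟨0,[(2,0),(26,0)]⟩,⟨0,[(0,0),(35,0)]⟩⟩,.o ⟨false,1,⟨0,[(3,0),(30,0)]⟩,⟨0,[(18,0)]⟩⟩,.o ⟨false,1,
  ⟨1,[(19,1),(4,0),(8,0)]⟩,⟨0,[(10,0)]⟩⟩,.a ⟨true,0,⟨0,[(19,0)]⟩,⟨0,[(16,0)]⟩⟩ ⟨false,0,⟨0,[(2,0),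
  (26,0)]⟩,⟨1,[(0,1),(18,0),(0,0)]⟩⟩ ⟨true,0,⟨0,[(2,0),(26,0)]⟩,⟨0,[(18,0),(0,0)]⟩⟩]⟩) (.I [0,-1,0,
  1,1,0,0,-1] (.S ⟨1,0,[0,0,0,0,0,0,0,1],[0,0,1],[],(⟨0,[(23,0)]⟩,⟨0,[(22,0)]⟩),⟨0,[(5,0)]⟩,.k,.k,
  ⟨true,1,⟨0,[(0,0),(31,0)]⟩,⟨0,[(1,0)]⟩⟩,⟨false,1,⟨1,[(0,0),(9,0),(24,0)]⟩,⟨0,[]⟩⟩,⟨false,1,⟨0,[(0,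
  0)]⟩,⟨15,[(1,5),(0,5),(7,3),(1,2),(16,0),(5,4)]⟩⟩,⟨true,0,⟨0,[(33,0)]⟩,⟨0,[(32,0)]⟩⟩,[.e ⟨false,1,
  ⟨1,[(0,0),(9,0),(23,0)]⟩,⟨0,[]⟩⟩ ⟨false,0,⟨0,[(3,0),(26,0)]⟩,⟨0,[(0,0),(31,0)]⟩⟩,.o ⟨false,1,⟨0,
  [(4,0),(30,0)]⟩,⟨0,[(19,0)]⟩⟩,.o ⟨false,1,⟨1,[(20,1),(4,0),(8,0)]⟩,⟨0,[(11,0)]⟩⟩,.a ⟨true,0,⟨0,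
  [(20,0)]⟩,⟨0,[(17,0)]⟩⟩ ⟨false,1,⟨1,[(34,0),(0,0)]⟩,⟨1,[(20,0),(0,0)]⟩⟩ ⟨true,0,⟨0,[(3,0),(26,
  0)]⟩,⟨0,[(19,0),(0,0)]⟩⟩]⟩) (.Q [0,0,0,1,0,0,1,1,0,-1,1] (.p true [0,0,1] [1] (⟨0,[(23,0)]⟩,⟨0,
  [(22,0)]⟩) .k 1 (⟨0,[]⟩,⟨0,[]⟩) .k .k) (.R ⟨2,true,false,false,[0,1],[1,0,-1],[1,1,1],(⟨0,[]⟩,⟨0,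
  []⟩),(⟨0,[(23,0)]⟩,⟨0,[(24,0)]⟩),⟨0,[]⟩,.k,.k,.k,.k,.k,.k,⟨false,(-1),⟨0,[(2,0)]⟩,⟨1,[(8,1),(12,
  1),(4,0),(8,1),(0,0)]⟩⟩,⟨true,(-1),⟨0,[(1,0),(6,0),(22,0)]⟩,⟨1,[(21,1),(4,0),(8,0)]⟩⟩,⟨true,0,⟨0,
  [(33,0)]⟩,⟨0,[(34,0)]⟩⟩,⟨false,1,⟨0,[(8,0),(24,0),(2,0)]⟩,⟨0,[(0,0)]⟩⟩,⟨false,0,⟨0,[]⟩,⟨1,[(14,0),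
  (0,0),(20,0)]⟩⟩,⟨true,0,⟨0,[(8,0)]⟩,⟨0,[(5,0)]⟩⟩,[]⟩) (.Q [0,0,0,0,0,-2,0,0,0,0,1] (.p true [0,0,
  1] [] (⟨0,[(24,0)]⟩,⟨0,[(23,0)]⟩) .k 0 (⟨0,[]⟩,⟨0,[]⟩) .k .k) (.S ⟨1,0,[0,0,-1,-1,0,0,0,1],[0,-1,
  1],[1,0,1],(⟨0,[(7,0)]⟩,⟨0,[(24,0),(4,0)]⟩),⟨0,[(0,0)]⟩,.k,(.r (-1) ⟨13,[(1,1),(2,9),(0,5),(8,3),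
  (12,2),(8,7),(0,2)]⟩ ⟨0,[(8,0),(30,0)]⟩),⟨true,0,⟨0,[(8,0),(25,0)]⟩,⟨0,[(5,0)]⟩⟩,⟨false,1,⟨1,[(15,
  0),(0,0),(20,0)]⟩,⟨0,[]⟩⟩,⟨false,0,⟨0,[(8,0)]⟩,⟨13,[(1,1),(2,9),(0,5),(8,3),(12,2),(8,7),(0,2)]⟩⟩,
  ⟨true,0,⟨0,[(35,0)]⟩,⟨0,[(34,0)]⟩⟩,[.a ⟨true,0,⟨0,[(10,0)]⟩,⟨0,[(9,0),(25,0)]⟩⟩ ⟨false,0,⟨0,[]⟩,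
  ⟨1,[(15,0),(0,0),(19,0)]⟩⟩ ⟨true,0,⟨1,[(2,0),(2,0),(31,0)]⟩,⟨0,[(8,0),(25,0)]⟩⟩,.o ⟨false,1,⟨1,
  [(10,1),(16,0),(9,0)]⟩,⟨0,[(21,0),(13,0)]⟩⟩,.e ⟨true,0,⟨1,[(22,0),(0,0)]⟩,⟨0,[(33,0)]⟩⟩ ⟨true,0,
  ⟨1,[(2,0),(2,0),(31,0)]⟩,⟨1,[(8,0),(12,0),(0,0),(7,0)]⟩⟩,.o ⟨false,0,⟨7,[(1,0),(0,2),(1,0),(3,2),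
  (13,8),(0,0),(7,2)]⟩,⟨3,[(14,0),(4,1),(11,0),(4,2)]⟩⟩]⟩) (.Q [0,0,0,2,0,0,1,1,0,-1,1] (.p true [0,
  0,1] [1] (⟨0,[(25,0)]⟩,⟨0,[(24,0)]⟩) .k 1 (⟨0,[]⟩,⟨0,[]⟩) .k .k) (.R ⟨1,true,false,true,[1,0,-1],
  [0,1],[1,0,0,-1,0,0,0,-1],(⟨0,[(25,0)]⟩,⟨0,[(26,0)]⟩),(⟨0,[(30,0)]⟩,⟨0,[(29,0)]⟩),⟨9,[(1,0),(0,0),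
  (0,2),(1,0),(3,2),(15,8),(1,11),(6,5),(3,2)]⟩,.k,.k,.k,.k,(.r (-2) ⟨5,[(2,7),(2,1),(17,5),(4,0),
  (3,1),(4,8)]⟩ ⟨8,[(0,0),(3,8),(4,3),(5,0),(5,2),(2,1),(8,7)]⟩),.k,⟨true,2,⟨5,[(2,7),(2,1),(17,5),
  (4,0),(3,1),(4,5),(0,2)]⟩,⟨0,[(4,1),(4,0)]⟩⟩,⟨false,2,⟨1,[(23,1),(4,0),(8,2)]⟩,⟨0,[(3,0),(6,0),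
  (22,0)]⟩⟩,⟨false,1,⟨0,[(35,0),(2,0)]⟩,⟨0,[(36,0)]⟩⟩,⟨true,0,⟨1,[(0,0),(6,0),(32,0)]⟩,⟨0,[(2,0)]⟩⟩,
  ⟨true,0,⟨0,[]⟩,⟨0,[(40,0)]⟩⟩,⟨false,0,⟨0,[(0,0)]⟩,⟨0,[(2,0),(32,0),(2,0)]⟩⟩,[]⟩) (.Q [-1,1,0,0,0,
  0,0,0,-1,0,0,-1] (.p false [0,0,0,0,1] [] (⟨0,[(19,0)]⟩,⟨0,[(18,0)]⟩) .k 0 (⟨0,[]⟩,⟨0,[]⟩) .k .k)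
  (.Q [-1,0,0,0,0,0,0,0,-1,1,0,-1] (.p false [0,0,0,0,1] [1] (⟨0,[(20,0)]⟩,⟨0,[(19,0)]⟩) .k 1 (⟨0,
  []⟩,⟨0,[]⟩) .k .k) (.Q [0,0,0,0,0,-1,0,0,0,0,0,1] (.ed false [1,-1,0,0,1] .k) (.S ⟨1,0,[1],[0,0,0,
  0,1],[0,1],(⟨0,[(22,0)]⟩,⟨0,[(21,0)]⟩),⟨0,[(0,0)]⟩,.k,(.r (-1) ⟨5,[(3,1),(11,1),(3,0),(0,0),(10,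
  0),(8,2),(0,0)]⟩ ⟨7,[(10,0),(1,3),(3,1),(1,0),(5,0),(14,1)]⟩),⟨true,0,⟨0,[(43,0)]⟩,⟨0,[]⟩⟩,⟨false,
  1,⟨1,[(19,0),(0,0),(20,0)]⟩,⟨0,[]⟩⟩,⟨false,0,⟨0,[(6,0),(5,0),(24,1),(3,0)]⟩,⟨5,[(3,1),(11,1),(3,
  0),(0,0),(10,0),(9,3)]⟩⟩,⟨true,0,⟨0,[(39,0)]⟩,⟨0,[(38,0)]⟩⟩,[.a ⟨true,0,⟨0,[(20,0)]⟩,⟨0,[(1,0)]⟩⟩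
  ⟨false,0,⟨0,[(37,0)]⟩,⟨1,[(19,0),(0,0),(20,0)]⟩⟩ ⟨true,0,⟨0,[]⟩,⟨1,[(26,0),(0,0)]⟩⟩,.o ⟨false,1,
  ⟨1,[(20,1),(10,0),(9,0)]⟩,⟨0,[(2,0)]⟩⟩,.e ⟨true,0,⟨0,[(43,0)]⟩,⟨0,[]⟩⟩ ⟨true,0,⟨0,[]⟩,⟨0,[(43,
  0)]⟩⟩,.o ⟨false,0,⟨21,[(3,1),(2,7),(1,1),(3,7),(7,21),(5,2),(0,2),(7,7)]⟩,⟨3,[(1,2),(17,0),(15,0),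
  (4,1)]⟩⟩]⟩) (.S ⟨1,0,[-1,1],[1,0,0,0,-1],[-1],(⟨0,[(21,0)]⟩,⟨0,[(22,0)]⟩),⟨8,[(0,0),(2,0),(3,1),
  (0,0),(3,1),(8,7),(8,9),(6,3),(3,1)]⟩,.k,(.r (-1) ⟨7,[(3,1),(11,1),(3,0),(0,0),(10,0),(6,1),(1,3),
  (0,1)]⟩ ⟨3,[(10,0),(1,1),(5,0),(5,0)]⟩),⟨false,1,⟨1,[(19,0),(0,0),(20,0)]⟩,⟨0,[]⟩⟩,⟨true,0,⟨0,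
  [(43,0)]⟩,⟨0,[]⟩⟩,⟨true,0,⟨0,[(39,0)]⟩,⟨0,[(38,0)]⟩⟩,⟨false,0,⟨0,[(39,0)]⟩,⟨5,[(3,1),(11,1),(3,0),
  (0,0),(10,0),(9,3)]⟩⟩,[.o ⟨false,0,⟨0,[(2,0)]⟩,⟨1,[(20,1),(10,0),(9,0)]⟩⟩,.e ⟨false,1,⟨0,[(37,0),
  (3,0)]⟩,⟨0,[(43,0)]⟩⟩ ⟨false,1,⟨9,[(19,3),(0,3),(19,4),(0,0),(1,1)]⟩,⟨0,[]⟩⟩,.a ⟨true,0,⟨0,[(1,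
  0)]⟩,⟨0,[(20,0)]⟩⟩ ⟨false,1,⟨4,[(19,1),(0,1),(20,2),(1,0)]⟩,⟨0,[]⟩⟩ ⟨true,0,⟨0,[(43,0)]⟩,⟨0,[]⟩⟩,
  .o ⟨false,0,⟨24,[(1,21),(0,2),(0,1),(2,7),(1,4),(3,10),(14,2),(7,7)]⟩,⟨1,[(20,1),(10,0),(8,
  0)]⟩⟩]⟩)) (.R ⟨1,false,false,true,[0,0,1],[1,0,0,0,-1],[1,1,0,-1,0,0,0,1],(⟨0,[(28,0)]⟩,⟨0,[(27,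
  0)]⟩),(⟨0,[(20,0)]⟩,⟨0,[(21,0)]⟩),⟨0,[(10,0)]⟩,.k,.k,.k,.k,(.r 0 ⟨1,[(5,0),(2,0),(31,0)]⟩ ⟨13,[(2,
  0),(8,7),(0,4),(5,8),(0,8),(5,5),(4,2),(2,3),(5,1)]⟩),.k,⟨false,0,⟨1,[(5,0),(2,0),(31,0)]⟩,⟨7,
  [(11,3),(0,3),(5,0),(0,0),(5,3),(4,1),(2,1),(5,4)]⟩⟩,⟨true,0,⟨3,[(1,3),(0,0),(2,0),(16,2),(12,2),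
  (4,0)]⟩,⟨1,[(0,1),(6,0),(3,0),(13,0),(10,0)]⟩⟩,⟨true,0,⟨0,[(37,0)]⟩,⟨0,[(38,0)]⟩⟩,⟨true,0,⟨0,[(1,
  0),(10,0)]⟩,⟨0,[(0,0),(12,0),(24,0)]⟩⟩,⟨false,0,⟨0,[]⟩,⟨1,[(18,0),(0,0),(20,0)]⟩⟩,⟨true,0,⟨0,[(1,
  0),(10,0),(25,0)]⟩,⟨0,[(0,0),(12,0)]⟩⟩,[.o ⟨false,0,⟨0,[(1,0)]⟩,⟨1,[(19,1),(10,0),(9,0)]⟩⟩,.o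
  ⟨false,1,⟨3,[(1,0),(16,2),(21,0),(1,0)]⟩,⟨0,[(0,0)]⟩⟩,.o ⟨false,1,⟨1,[(25,1),(4,0),(8,0)]⟩,⟨0,
  [(16,0)]⟩⟩,.a ⟨true,0,⟨0,[(25,0)]⟩,⟨0,[(22,0)]⟩⟩ ⟨false,0,⟨1,[(5,0),(2,0),(31,0)]⟩,⟨7,[(2,1),(8,
  5),(6,2),(0,2),(5,1),(4,0),(8,2),(0,0)]⟩⟩ ⟨true,0,⟨0,[(1,0),(20,0)]⟩,⟨0,[(0,0),(24,0)]⟩⟩]⟩)) (.Q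
  [1,-1,0,0,0,0,0,0,1,-1,0,1] (.p true [0,0,0,0,1] [1] (⟨0,[(20,0)]⟩,⟨0,[(19,0)]⟩) .k 1 (⟨0,[]⟩,⟨0,
  []⟩) .k .k) (.R ⟨0,false,false,false,[0,-1,1],[0,0,0,0,1],[1,0,1],(⟨0,[(10,0)]⟩,⟨0,[(27,0),(4,
  0)]⟩),(⟨0,[(21,0)]⟩,⟨0,[(20,0)]⟩),⟨0,[(3,0)]⟩,.k,.k,(.r (-1) ⟨9,[(2,0),(4,6),(0,3),(8,2),(12,1),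
  (8,5),(0,1)]⟩ ⟨0,[(11,0),(30,0)]⟩),(.r 0 ⟨0,[(5,0),(30,0),(3,0)]⟩ ⟨7,[(11,3),(0,3),(5,4),(0,4),(5,
  3),(4,1),(2,1),(5,0)]⟩),.k,.k,⟨true,0,⟨1,[(25,0),(0,0)]⟩,⟨0,[]⟩⟩,⟨false,0,⟨0,[(0,0),(21,0),(13,
  0)]⟩,⟨0,[(18,0),(6,0)]⟩⟩,⟨true,0,⟨0,[(11,0),(25,0)]⟩,⟨0,[(8,0)]⟩⟩,⟨false,0,⟨0,[(0,0),(11,0),(25,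
  0)]⟩,⟨0,[(7,0),(10,0),(19,0)]⟩⟩,⟨false,0,⟨0,[]⟩,⟨0,[]⟩⟩,⟨false,0,⟨0,[]⟩,⟨0,[]⟩⟩,[.e ⟨false,0,⟨0,
  []⟩,⟨1,[(18,0),(0,0),(19,0)]⟩⟩ ⟨false,0,⟨0,[(0,0),(21,0),(13,0)]⟩,⟨1,[(7,0),(3,0),(6,1),(6,0),(10,
  0)]⟩⟩,.o ⟨false,0,⟨0,[(0,0)]⟩,⟨0,[(18,0),(23,0)]⟩⟩,.a ⟨true,0,⟨0,[(25,0)]⟩,⟨0,[(22,0)]⟩⟩ ⟨true,0,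
  ⟨1,[(25,0),(0,0)]⟩,⟨0,[(36,0)]⟩⟩ ⟨false,0,⟨0,[(0,0),(21,0)]⟩,⟨1,[(7,0),(3,0),(6,1),(6,0),(10,
  0)]⟩⟩,.o ⟨false,0,⟨21,[(2,1),(2,7),(1,1),(3,7),(13,24),(0,2),(7,7)]⟩,⟨3,[(17,0),(4,1),(11,0),(4,
  2)]⟩⟩]⟩) (.Q [0,0,-1,0,1,0,0,0,-1,0,0,-1] (.p false [0,0,0,0,1] [] (⟨0,[(21,0)]⟩,⟨0,[(20,0)]⟩) .k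
  0 (⟨0,[]⟩,⟨0,[]⟩) .k .k) (.R ⟨2,true,false,false,[0,1],[0,0,0,0,1],[1,0,1],(⟨0,[]⟩,⟨0,[]⟩),(⟨0,
  [(22,0)]⟩,⟨0,[(21,0)]⟩),⟨0,[]⟩,.k,.k,.k,(.r 0 ⟨7,[(10,0),(1,3),(3,1),(1,0),(5,0),(14,1)]⟩ ⟨5,[(3,
  1),(11,1),(3,0),(0,0),(10,0),(8,2),(0,0)]⟩),.k,.k,⟨true,0,⟨1,[(26,0),(0,0)]⟩,⟨0,[]⟩⟩,⟨false,0,⟨0,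
  [(20,0)]⟩,⟨0,[(0,0)]⟩⟩,⟨false,1,⟨5,[(3,1),(11,1),(3,0),(0,0),(10,0),(9,3)]⟩,⟨0,[(39,0)]⟩⟩,⟨true,0,
  ⟨10,[(2,2),(0,2),(2,0),(1,1),(11,7),(5,0),(7,0),(0,0)]⟩,⟨0,[(0,0),(5,0),(5,0),(24,0)]⟩⟩,⟨true,0,
  ⟨0,[]⟩,⟨0,[(43,0)]⟩⟩,⟨false,0,⟨0,[(2,0)]⟩,⟨1,[(0,0),(18,0),(22,0)]⟩⟩,[]⟩) (.Q [0,0,0,0,0,-1,0,0,0,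
  0,0,1] (.ed false [1,-1,0,0,1] .k) (.S ⟨1,0,[1],[0,0,0,0,1],[1,0,1],(⟨0,[(23,0)]⟩,⟨0,[(22,0)]⟩),
  ⟨0,[(0,0)]⟩,.k,(.r (-1) ⟨5,[(4,1),(11,1),(3,0),(0,0),(10,0),(8,2),(0,0)]⟩ ⟨7,[(11,0),(1,3),(3,1),
  (1,0),(5,0),(14,1)]⟩),⟨true,0,⟨1,[(27,0),(0,0)]⟩,⟨0,[(38,0)]⟩⟩,⟨false,1,⟨1,[(20,0),(0,0),(20,0)]⟩,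
  ⟨0,[]⟩⟩,⟨false,0,⟨0,[(7,0),(5,0),(24,0),(3,0)]⟩,⟨5,[(4,1),(11,1),(3,0),(0,0),(10,0),(8,2),(0,
  0)]⟩⟩,⟨true,0,⟨0,[(40,0)]⟩,⟨0,[(39,0)]⟩⟩,[.o ⟨false,0,⟨2,[(1,0),(1,1),(31,0),(0,0)]⟩,⟨2,[(2,1),
  (17,0),(11,0),(9,0)]⟩⟩,.e ⟨false,1,⟨1,[(20,0),(0,0),(20,0)]⟩,⟨0,[(38,0)]⟩⟩ ⟨false,1,⟨1,[(41,0),(0,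
  0)]⟩,⟨0,[(44,0)]⟩⟩,.o ⟨false,0,⟨2,[(1,1),(19,0),(14,0),(4,0)]⟩,⟨0,[(20,0)]⟩⟩,.a ⟨true,(-1),⟨0,[(1,
  0)]⟩,⟨1,[(2,1),(38,0),(0,0)]⟩⟩ ⟨true,0,⟨0,[]⟩,⟨0,[(44,0)]⟩⟩ ⟨false,1,⟨1,[(41,0),(0,0)]⟩,⟨1,[(27,
  0),(0,0)]⟩⟩]⟩) (.Q [1,-1,0,0,0,0,-1,-1,1,0,-1,1] (.p false [0,0,1] [0,0,0,0,1] (⟨0,[(30,0)]⟩,⟨0,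
  [(29,0)]⟩) .k 2 (⟨0,[(23,0)]⟩,⟨0,[(22,0)]⟩) .k (.r 0 ⟨3,[(8,1),(2,0),(7,0),(5,0),(16,1)]⟩ ⟨1,[(14,
  1),(12,1),(4,0),(8,0)]⟩)) (.R ⟨0,false,false,true,[0,0,0,0,1],[0,1],[0,1],(⟨0,[(24,0)]⟩,⟨0,[(23,
  0)]⟩),(⟨0,[(35,0)]⟩,⟨0,[(34,0)]⟩),⟨0,[(1,0)]⟩,.k,.k,(.r (-1) ⟨5,[(5,1),(11,1),(3,0),(0,0),(10,0),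
  (8,2),(0,0)]⟩ ⟨7,[(12,0),(1,3),(3,1),(1,0),(5,0),(14,1)]⟩),(.r (-1) ⟨5,[(5,1),(11,1),(3,0),(0,0),
  (10,0),(8,2),(0,0)]⟩ ⟨7,[(12,0),(1,3),(3,1),(1,0),(5,0),(14,1)]⟩),.k,.k,⟨true,1,⟨5,[(5,1),(11,1),
  (3,0),(0,0),(10,0),(8,2),(0,0)]⟩,⟨0,[(8,0),(5,0)]⟩⟩,⟨false,2,⟨0,[(21,0),(20,0)]⟩,⟨0,[(2,0)]⟩⟩,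
  ⟨true,0,⟨0,[(45,0)]⟩,⟨0,[]⟩⟩,⟨false,1,⟨0,[(21,0),(19,0)]⟩,⟨1,[(0,0),(3,0),(5,0)]⟩⟩,⟨false,0,⟨0,
  []⟩,⟨0,[]⟩⟩,⟨false,0,⟨0,[]⟩,⟨0,[]⟩⟩,[.o ⟨false,0,⟨2,[(9,0),(4,0),(21,0),(0,0),(1,0),(1,0)]⟩,⟨5,
  [(5,1),(11,1),(3,0),(0,0),(10,0),(9,3)]⟩⟩,.a ⟨true,0,⟨0,[(41,0)]⟩,⟨1,[(10,0),(4,0),(9,0),(2,0)]⟩⟩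
  ⟨false,1,⟨1,[(21,0),(0,0),(19,0)]⟩,⟨0,[]⟩⟩ ⟨true,1,⟨0,[(21,0),(19,0)]⟩,⟨1,[(0,1),(7,1),(1,0),(3,
  0),(13,0),(10,0)]⟩⟩,.o ⟨false,0,⟨2,[(2,1),(19,0),(14,0),(4,0)]⟩,⟨0,[(21,0)]⟩⟩,.e ⟨true,0,⟨0,[(39,
  0)]⟩,⟨1,[(28,0),(0,0)]⟩⟩ ⟨true,1,⟨4,[(3,2),(17,1),(14,0),(0,0),(3,4),(0,1)]⟩,⟨1,[(0,1),(7,1),(1,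
  0),(3,0),(13,0),(10,0)]⟩⟩]⟩) (.R ⟨1,false,false,false,[1,0,0,0,-1],[0,1],[-1],(⟨0,[(23,0)]⟩,⟨0,
  [(24,0)]⟩),(⟨0,[(35,0)]⟩,⟨0,[(34,0)]⟩),⟨8,[(1,0),(3,0),(3,1),(0,0),(3,1),(8,7),(8,9),(6,3),(3,
  1)]⟩,.k,.k,(.r (-1) ⟨7,[(5,1),(11,1),(3,0),(0,0),(10,0),(6,1),(1,3),(0,1)]⟩ ⟨3,[(12,0),(1,1),(5,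
  0),(5,0)]⟩),(.r (-1) ⟨7,[(5,1),(11,1),(3,0),(0,0),(10,0),(6,1),(1,3),(0,1)]⟩ ⟨3,[(12,0),(1,1),(5,
  0),(5,0)]⟩),(.r (-2) ⟨2,[(5,1),(11,1),(3,0),(0,0),(10,0),(8,2),(0,0)]⟩ ⟨0,[(9,0),(4,0)]⟩),.k,
  ⟨true,1,⟨7,[(5,1),(11,1),(3,0),(0,0),(10,0),(6,1),(1,3),(0,1)]⟩,⟨0,[(8,0),(5,0)]⟩⟩,⟨false,1,⟨2,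
  [(4,2),(31,0),(0,0),(1,0),(2,1)]⟩,⟨1,[(0,0),(2,0),(1,0),(32,1)]⟩⟩,⟨false,1,⟨1,[(21,0),(0,0),(20,
  0)]⟩,⟨0,[]⟩⟩,⟨true,0,⟨2,[(2,0),(1,1),(31,0),(0,0),(3,2)]⟩,⟨1,[(0,0),(2,0),(1,0)]⟩⟩,⟨true,0,⟨0,
  [(41,0)]⟩,⟨0,[(40,0)]⟩⟩,⟨true,0,⟨2,[(2,0),(1,1),(31,0),(0,0),(3,5)]⟩,⟨0,[(0,0),(4,0)]⟩⟩,[.a ⟨true,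
  0,⟨0,[(41,0)]⟩,⟨1,[(10,0),(4,0),(9,0),(2,0)]⟩⟩ ⟨false,1,⟨9,[(21,3),(0,3),(19,4),(0,0),(1,1)]⟩,⟨0,
  []⟩⟩ ⟨true,0,⟨2,[(2,0),(1,1),(31,0),(0,0),(3,2)]⟩,⟨0,[(0,0),(4,0),(32,0)]⟩⟩,.o ⟨false,1,⟨1,[(33,
  0),(7,1),(1,0)]⟩,⟨0,[(40,0)]⟩⟩,.o ⟨false,1,⟨0,[(21,0)]⟩,⟨2,[(2,1),(19,0),(14,0),(4,0)]⟩⟩,.e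
  ⟨false,1,⟨0,[(39,0),(3,0)]⟩,⟨1,[(28,0),(0,0)]⟩⟩ ⟨false,1,⟨1,[(4,1),(28,0),(7,1),(0,0)]⟩,⟨0,[(0,0),
  (4,0),(32,0)]⟩⟩]⟩))))))))))))) (.I [1,1,0,0,0,0,0,-1] (.S ⟨1,0,[0,0,1,1,0,0,0,-1],[1,1,-1],[0,1,1,
  1,0,0,0,-1],(⟨0,[(19,0),(4,0)]⟩,⟨0,[(2,0)]⟩),⟨0,[(19,0)]⟩,.k,.k,⟨true,0,⟨0,[(34,0)]⟩,⟨0,[]⟩⟩,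
  ⟨false,1,⟨1,[(10,0),(0,0),(20,0)]⟩,⟨0,[]⟩⟩,⟨false,0,⟨0,[(30,0)]⟩,⟨0,[(29,0),(2,0)]⟩⟩,⟨true,0,⟨0,
  [(30,0)]⟩,⟨0,[(29,0)]⟩⟩,[.a ⟨true,0,⟨0,[(4,0),(25,0)]⟩,⟨0,[(5,0)]⟩⟩ ⟨false,0,⟨0,[(0,0),(29,0)]⟩,
  ⟨7,[(5,5),(1,1),(6,5),(11,1),(4,0),(0,4)]⟩⟩ ⟨true,0,⟨1,[(0,0),(2,0)]⟩,⟨0,[(5,0),(2,0)]⟩⟩,.a ⟨true,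
  0,⟨0,[(1,0),(28,0)]⟩,⟨0,[(6,0)]⟩⟩ ⟨true,0,⟨1,[(0,0),(2,0)]⟩,⟨0,[(5,0),(2,0)]⟩⟩ ⟨false,1,⟨1,[(0,0),
  (2,0),(27,0),(0,0)]⟩,⟨0,[(5,0),(2,0),(19,0)]⟩⟩,.a ⟨true,0,⟨0,[(14,0)]⟩,⟨0,[(17,0)]⟩⟩ ⟨false,0,⟨1,
  [(0,0),(2,0)]⟩,⟨7,[(5,5),(1,1),(6,5),(11,1),(4,0),(0,4)]⟩⟩ ⟨true,0,⟨1,[(0,0),(2,0)]⟩,⟨0,[(5,0),(2,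
  0),(19,0)]⟩⟩,.o ⟨false,0,⟨0,[(8,0)]⟩,⟨1,[(17,1),(4,0),(8,0)]⟩⟩]⟩) (.S ⟨1,0,[0,0,0,0,0,0,0,1],[0,0,
  1],[0,1,0,0,0,0,0,1],(⟨0,[(20,0)]⟩,⟨0,[(19,0)]⟩),⟨0,[(2,0)]⟩,.k,.k,⟨true,0,⟨0,[(34,0)]⟩,⟨0,[]⟩⟩,
  ⟨false,1,⟨1,[(10,0),(0,0),(20,0)]⟩,⟨0,[]⟩⟩,⟨false,0,⟨0,[(30,0)]⟩,⟨0,[(29,0),(2,0)]⟩⟩,⟨true,0,⟨0,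
  [(30,0)]⟩,⟨0,[(29,0)]⟩⟩,[.e ⟨false,0,⟨0,[(0,0),(24,0)]⟩,⟨5,[(1,3),(2,1),(12,5),(8,1),(4,2),(0,
  0)]⟩⟩ ⟨false,0,⟨0,[(0,0),(27,0)]⟩,⟨1,[(4,1),(12,1),(4,0),(8,0)]⟩⟩,.o ⟨false,1,⟨2,[(5,1),(9,0),(10,
  0),(3,1),(1,1)]⟩,⟨0,[(16,0)]⟩⟩,.o ⟨false,1,⟨1,[(17,1),(4,0),(8,0)]⟩,⟨0,[(8,0)]⟩⟩,.a ⟨true,0,⟨0,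
  [(17,0)]⟩,⟨0,[(14,0)]⟩⟩ ⟨false,0,⟨0,[(0,0),(27,0)]⟩,⟨1,[(4,1),(12,1),(4,0),(9,0)]⟩⟩ ⟨true,0,⟨0,
  [(0,0),(27,0)]⟩,⟨0,[(16,0),(0,0)]⟩⟩]⟩))) (.Q [0,0,-1,1,0,0,-1,0,0,0,-1] (.p false [0,0,1] [] (⟨0,
  [(18,0)]⟩,⟨0,[(17,0)]⟩) .k 0 (⟨0,[]⟩,⟨0,[]⟩) .k .k) (.Q [0,-1,0,1,1,0,-1,-1,0,-1,-1] (.p false [1,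
  -1,1] [] (⟨0,[(19,0),(2,0)]⟩,⟨0,[(1,0)]⟩) .k 0 (⟨0,[]⟩,⟨0,[]⟩) .k .k) (.R ⟨0,false,false,true,[0,
  0,1],[1,-1,1],[1,0,0,0,0,0,0,1],(⟨0,[(20,0)]⟩,⟨0,[(19,0)]⟩),(⟨0,[(20,0),(2,0)]⟩,⟨0,[(2,0)]⟩),⟨0,
  [(2,0)]⟩,.k,.k,.k,.k,.k,.k,⟨true,0,⟨0,[(27,0)]⟩,⟨0,[(29,0)]⟩⟩,⟨false,0,⟨0,[(14,0),(2,0)]⟩,⟨1,[(22,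
  0),(8,0)]⟩⟩,⟨true,0,⟨0,[]⟩,⟨0,[(34,0)]⟩⟩,⟨false,0,⟨0,[(4,0),(0,0)]⟩,⟨1,[(22,0),(7,1),(1,0)]⟩⟩,
  ⟨false,0,⟨0,[]⟩,⟨0,[]⟩⟩,⟨false,0,⟨0,[]⟩,⟨0,[]⟩⟩,[.o ⟨false,0,⟨0,[(6,0)]⟩,⟨0,[(0,0)]⟩⟩,.o ⟨false,0,
  ⟨0,[(5,0)]⟩,⟨23,[(0,15),(2,3),(5,1),(0,2),(0,2),(4,3),(5,4),(2,7)]⟩⟩,.o ⟨false,1,⟨1,[(17,1),(4,0),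
  (8,0)]⟩,⟨0,[(8,0)]⟩⟩,.a ⟨true,0,⟨0,[(17,0)]⟩,⟨0,[(14,0)]⟩⟩ ⟨true,0,⟨0,[(1,0),(3,0)]⟩,⟨0,[(16,0),
  (0,0)]⟩⟩ ⟨false,0,⟨0,[(5,0),(8,0)]⟩,⟨0,[(0,0),(16,0)]⟩⟩]⟩) (.R ⟨0,false,false,true,[0,0,1],[1,-1,
  1],[1,1,1],(⟨0,[(20,0)]⟩,⟨0,[(19,0)]⟩),(⟨0,[(20,0),(2,0)]⟩,⟨0,[(2,0)]⟩),⟨0,[(2,0)]⟩,.k,.k,.k,.k,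
  .k,.k,⟨true,0,⟨0,[(3,0),(25,0)]⟩,⟨0,[(0,1),(0,0),(2,0),(21,0),(5,0)]⟩⟩,⟨false,0,⟨11,[(0,3),(2,1),
  (0,5),(9,1),(0,3),(15,0),(0,2)]⟩,⟨1,[(22,0),(8,0)]⟩⟩,⟨true,0,⟨0,[(16,0),(0,0)]⟩,⟨0,[(1,0),(3,
  0)]⟩⟩,⟨false,0,⟨1,[(0,0),(3,0),(24,0),(2,0)]⟩,⟨1,[(22,0),(7,1),(1,0)]⟩⟩,⟨false,0,⟨0,[]⟩,⟨0,[]⟩⟩,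
  ⟨false,0,⟨0,[]⟩,⟨0,[]⟩⟩,[.a ⟨true,(-1),⟨0,[(0,0)]⟩,⟨13,[(1,1),(1,5),(0,7),(4,1),(12,4),(8,4),(0,
  3)]⟩⟩ ⟨false,0,⟨0,[(34,0)]⟩,⟨1,[(31,0),(0,0)]⟩⟩ ⟨true,(-1),⟨0,[(0,0),(7,0)]⟩,⟨3,[(3,1),(0,1),(12,
  1),(8,1),(4,0),(0,0)]⟩⟩,.o ⟨false,0,⟨0,[(5,0)]⟩,⟨13,[(1,1),(1,5),(0,1),(4,1),(6,5),(5,8),(8,4)]⟩⟩,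
  .o ⟨false,1,⟨1,[(17,1),(4,0),(8,0)]⟩,⟨0,[(8,0)]⟩⟩,.e ⟨false,0,⟨0,[]⟩,⟨1,[(10,0),(0,0),(20,0)]⟩⟩
  ⟨false,0,⟨0,[(5,0),(8,0)]⟩,⟨3,[(3,1),(0,1),(12,1),(8,1),(4,0),(0,0)]⟩⟩]⟩)) (.I [1,0,1,0,0,0,0,-1]
  (.Q [0,-1,0,1,1,0,-1,-1,0,-1,-1] (.p false [1,-1,1] [] (⟨0,[(20,0),(2,0)]⟩,⟨0,[(2,0)]⟩) .k 0 (⟨0,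
  []⟩,⟨0,[]⟩) .k .k) (.R ⟨0,false,false,true,[0,0,1],[1,-1,1],[1,0,1],(⟨0,[(21,0)]⟩,⟨0,[(20,0)]⟩),
  (⟨0,[(21,0),(2,0)]⟩,⟨0,[(3,0)]⟩),⟨0,[(3,0)]⟩,.k,.k,.k,.k,.k,.k,⟨true,0,⟨0,[(1,0),(26,0)]⟩,⟨0,[(6,
  0),(2,0),(19,0)]⟩⟩,⟨false,0,⟨0,[(15,0),(2,0)]⟩,⟨1,[(23,0),(8,0)]⟩⟩,⟨true,0,⟨0,[(1,0)]⟩,⟨0,[(6,0),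
  (2,0),(19,0),(1,0)]⟩⟩,⟨false,0,⟨0,[(5,0),(0,0)]⟩,⟨1,[(23,0),(7,1),(1,0)]⟩⟩,⟨false,0,⟨0,[]⟩,⟨0,
  []⟩⟩,⟨false,0,⟨0,[]⟩,⟨0,[]⟩⟩,[.o ⟨false,0,⟨0,[(7,0)]⟩,⟨0,[(0,0)]⟩⟩,.o ⟨false,0,⟨0,[(6,0)]⟩,⟨0,[(0,
  0),(34,0)]⟩⟩,.o ⟨false,1,⟨1,[(18,1),(4,0),(8,0)]⟩,⟨0,[(9,0)]⟩⟩,.a ⟨true,0,⟨0,[(18,0)]⟩,⟨0,[(15,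
  0)]⟩⟩ ⟨true,0,⟨0,[]⟩,⟨0,[(35,0)]⟩⟩ ⟨false,0,⟨0,[(6,0),(8,0)]⟩,⟨0,[(0,0),(17,0)]⟩⟩]⟩) (.K ⟨0,[1,-1,
  1],(-1),(-1),(⟨0,[(21,0),(2,0)]⟩,⟨0,[(3,0)]⟩),.k,(.r (-1) ⟨1,[(0,2),(4,0),(9,1),(11,1),(2,0),(1,
  0),(0,1)]⟩ ⟨0,[(4,0),(30,0)]⟩),.k,.k,.k,[⟨1,[(23,0),(8,0)]⟩,⟨0,[(0,0),(0,0),(26,0)]⟩,⟨7,[(4,3),(0,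
  3),(4,1),(12,6),(2,5),(5,0)]⟩,⟨0,[(0,0)]⟩]⟩)) (.I [0,-1,1,1] (.R ⟨0,false,false,false,[0,0,1],[0,
  1],[1,1,1],(⟨0,[(21,0)]⟩,⟨0,[(20,0)]⟩),(⟨0,[(25,0)]⟩,⟨0,[(24,0)]⟩),⟨0,[(3,0)]⟩,.k,.k,.k,.k,.k,.k,
  ⟨true,0,⟨0,[(30,0)]⟩,⟨0,[(0,0)]⟩⟩,⟨false,1,⟨3,[(10,0),(4,1),(11,0),(4,2)]⟩,⟨0,[(18,0)]⟩⟩,⟨true,0,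
  ⟨0,[(17,0),(0,0)]⟩,⟨0,[(1,0)]⟩⟩,⟨false,1,⟨3,[(4,1),(0,1),(4,0),(16,0),(4,1),(0,0)]⟩,⟨0,[(6,0)]⟩⟩,
  ⟨false,0,⟨0,[]⟩,⟨0,[]⟩⟩,⟨false,0,⟨0,[]⟩,⟨0,[]⟩⟩,[.a ⟨true,0,⟨0,[(31,0)]⟩,⟨0,[(5,0),(0,0)]⟩⟩
  ⟨false,0,⟨0,[(35,0)]⟩,⟨1,[(32,0),(0,0)]⟩⟩ ⟨true,0,⟨0,[(9,0),(21,0)]⟩,⟨0,[(2,0)]⟩⟩,.o ⟨false,1,⟨1,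
  [(0,1),(22,0),(8,0)]⟩,⟨0,[(30,0)]⟩⟩,.o ⟨false,1,⟨1,[(18,1),(4,0),(8,0)]⟩,⟨0,[(9,0)]⟩⟩,.e ⟨false,0,
  ⟨0,[]⟩,⟨1,[(11,0),(0,0),(20,0)]⟩⟩ ⟨false,1,⟨3,[(0,3),(9,0),(4,1),(11,0),(4,2)]⟩,⟨0,[(2,0)]⟩⟩]⟩)
  (.Q [0,-1,0,1,1,0,-1,-1,0,-1,-1] (.p false [1,-1,1] [] (⟨0,[(21,0),(2,0)]⟩,⟨0,[(3,0)]⟩) .k 0 (⟨0,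
  []⟩,⟨0,[]⟩) .k .k) (.R ⟨0,false,false,true,[0,0,1],[1,-1,1],[1,0,0,0,0,0,0,1],(⟨0,[(22,0)]⟩,⟨0,
  [(21,0)]⟩),(⟨0,[(22,0),(2,0)]⟩,⟨0,[(4,0)]⟩),⟨0,[(4,0)]⟩,.k,.k,.k,.k,.k,.k,⟨true,0,⟨0,[(29,0)]⟩,⟨0,
  [(31,0)]⟩⟩,⟨false,0,⟨0,[(16,0),(2,0)]⟩,⟨1,[(24,0),(8,0)]⟩⟩,⟨true,0,⟨0,[]⟩,⟨0,[(36,0)]⟩⟩,⟨false,0,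
  ⟨0,[(6,0),(0,0)]⟩,⟨1,[(24,0),(7,1),(1,0)]⟩⟩,⟨false,0,⟨0,[]⟩,⟨0,[]⟩⟩,⟨false,0,⟨0,[]⟩,⟨0,[]⟩⟩,[.o
  ⟨false,0,⟨0,[(8,0)]⟩,⟨0,[(0,0)]⟩⟩,.o ⟨false,0,⟨0,[(7,0)]⟩,⟨23,[(0,15),(4,3),(5,1),(0,2),(0,2),(4,
  3),(5,4),(2,7)]⟩⟩,.o ⟨false,1,⟨1,[(19,1),(4,0),(8,0)]⟩,⟨0,[(10,0)]⟩⟩,.a ⟨true,0,⟨0,[(19,0)]⟩,⟨0,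
  [(16,0)]⟩⟩ ⟨true,0,⟨0,[(2,0)]⟩,⟨0,[(18,0),(0,0)]⟩⟩ ⟨false,0,⟨0,[(7,0),(8,0)]⟩,⟨0,[(0,0),(18,
  0)]⟩⟩]⟩) (.R ⟨0,false,false,true,[0,0,1],[1,0,-1],[1,0,1],(⟨0,[(22,0)]⟩,⟨0,[(21,0)]⟩),(⟨0,[(21,
  0)]⟩,⟨0,[(22,0)]⟩),⟨0,[(4,0)]⟩,.k,.k,.k,.k,.k,.k,⟨true,0,⟨0,[(7,0),(2,0),(18,0)]⟩,⟨0,[(1,1),(3,
  0)]⟩⟩,⟨false,0,⟨0,[(10,0),(5,0)]⟩,⟨0,[(0,1),(0,1),(3,1),(22,0),(4,0),(0,0)]⟩⟩,⟨false,1,⟨1,[(6,1),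
  (12,1),(4,0),(9,0)]⟩,⟨0,[(2,0)]⟩⟩,⟨true,0,⟨0,[(6,0),(11,0)]⟩,⟨0,[(0,1),(27,0),(3,1),(1,0)]⟩⟩,
  ⟨false,0,⟨0,[]⟩,⟨0,[]⟩⟩,⟨false,0,⟨0,[]⟩,⟨0,[]⟩⟩,[.o ⟨false,0,⟨0,[(18,0)]⟩,⟨2,[(2,1),(14,0),(1,1),
  (8,0),(5,1)]⟩⟩,.a ⟨true,0,⟨0,[(6,0)]⟩,⟨0,[(2,0),(16,0)]⟩⟩ ⟨false,1,⟨1,[(12,0),(0,0),(20,0)]⟩,⟨0,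
  [(30,0)]⟩⟩ ⟨true,0,⟨0,[(6,0),(3,0)]⟩,⟨1,[(0,3),(4,1),(22,1),(4,0),(0,0)]⟩⟩,.o ⟨false,1,⟨1,[(19,1),
  (4,0),(8,0)]⟩,⟨0,[(10,0)]⟩⟩,.e ⟨true,0,⟨0,[]⟩,⟨0,[(36,0)]⟩⟩ ⟨true,0,⟨0,[(16,0),(1,0)]⟩,⟨1,[(0,3),
  (4,1),(22,1),(4,0),(0,0)]⟩⟩]⟩))))))

theorem ok7 : chk K t7 l7 = true := by decide +kernel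

noncomputable def t8 : Tre :=
  (.I [0,0,-1,-1,0,0,0,1] (.Q [0,0,0,0,0,-1,0,0,0,0,1] (.ed false [1,-1,1] .k) (.I [0,-1,0,1,1,0,0,
  -1] (.S ⟨1,0,[0,0,0,0,0,0,0,1],[0,0,1],[1,1,0,-1,0,0,0,1],(⟨0,[(20,0)]⟩,⟨0,[(19,0)]⟩),⟨0,[(1,0)]⟩,
  .k,.k,⟨true,0,⟨0,[(29,0)]⟩,⟨0,[(30,0)]⟩⟩,⟨false,1,⟨1,[(0,0),(6,0),(24,0)]⟩,⟨0,[]⟩⟩,⟨false,0,⟨0,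
  []⟩,⟨1,[(0,0),(6,0),(24,0)]⟩⟩,⟨true,0,⟨0,[(30,0)]⟩,⟨0,[(29,0)]⟩⟩,[.e ⟨false,0,⟨2,[(2,1),(4,0),(17,
  0)]⟩,⟨0,[(0,0)]⟩⟩ ⟨false,0,⟨0,[(2,0),(27,0)]⟩,⟨0,[(0,0),(28,0)]⟩⟩,.o ⟨false,1,⟨2,[(5,1),(9,0),(10,
  0),(3,1),(1,1)]⟩,⟨0,[(16,0)]⟩⟩,.o ⟨false,1,⟨1,[(17,1),(4,0),(8,0)]⟩,⟨0,[(8,0)]⟩⟩,.a ⟨true,0,⟨0,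
  [(17,0)]⟩,⟨0,[(14,0)]⟩⟩ ⟨false,0,⟨0,[(2,0)]⟩,⟨1,[(0,1),(16,0),(0,0)]⟩⟩ ⟨true,0,⟨0,[(2,0),(27,0)]⟩,
  ⟨0,[(16,0),(0,0)]⟩⟩]⟩) (.Q [0,0,0,1,0,0,1,1,0,-1,1] (.p true [0,0,1] [1] (⟨0,[(20,0)]⟩,⟨0,[(19,
  0)]⟩) .k 1 (⟨0,[]⟩,⟨0,[]⟩) .k .k) (.R ⟨2,true,false,false,[0,1],[1,0,-1],[1,1,1],(⟨0,[]⟩,⟨0,[]⟩),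
  (⟨0,[(20,0)]⟩,⟨0,[(21,0)]⟩),⟨0,[]⟩,.k,.k,.k,.k,.k,.k,⟨false,(-1),⟨0,[(1,0),(29,0)]⟩,⟨1,[(5,1),(12,
  1),(4,0),(8,1),(0,0)]⟩⟩,⟨true,(-1),⟨0,[(1,0),(3,0),(22,0)]⟩,⟨1,[(18,1),(4,0),(8,0)]⟩⟩,⟨true,0,⟨0,
  [(30,0)]⟩,⟨0,[(31,0)]⟩⟩,⟨false,1,⟨0,[(5,0),(24,0),(2,0)]⟩,⟨0,[(0,0)]⟩⟩,⟨false,0,⟨0,[]⟩,⟨1,[(11,0),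
  (0,0),(20,0)]⟩⟩,⟨true,0,⟨0,[(5,0)]⟩,⟨4,[(0,1),(0,0),(5,0),(8,0),(1,0),(7,0),(0,0)]⟩⟩,[]⟩) (.I [0,
  0,-2,-2,1] (.S ⟨1,0,[0,0,-1,-1],[1,-1],[0,1,-1,-1],(⟨0,[(25,0)]⟩,⟨0,[(26,0)]⟩),⟨5,[(0,0),(0,1),(0,
  1),(16,1),(3,7),(1,3),(6,5),(1,0)]⟩,.k,(.r (-1) ⟨0,[(0,0)]⟩ ⟨0,[(29,1),(6,1)]⟩),⟨true,0,⟨0,[(36,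
  0)]⟩,⟨0,[]⟩⟩,⟨false,1,⟨1,[(12,0),(0,0),(20,0)]⟩,⟨0,[]⟩⟩,⟨false,0,⟨0,[(32,0)]⟩,⟨0,[(31,0),(2,0)]⟩⟩,
  ⟨true,0,⟨0,[(32,0)]⟩,⟨0,[(31,0)]⟩⟩,[.e ⟨false,1,⟨3,[(0,1),(11,0),(0,0),(13,1),(5,0)]⟩,⟨0,[(29,
  0)]⟩⟩ ⟨false,1,⟨1,[(0,0),(32,0)]⟩,⟨0,[(29,0),(6,0)]⟩⟩,.o ⟨false,1,⟨0,[(31,0),(2,0)]⟩,⟨2,[(2,0),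
  (15,0),(0,0),(8,0),(1,0),(1,3)]⟩⟩,.o ⟨false,0,⟨1,[(19,0),(0,0)]⟩,⟨1,[(24,0),(8,0)]⟩⟩,.a ⟨true,
  (-1),⟨0,[(2,0),(3,0),(12,0),(9,0)]⟩,⟨0,[(33,0)]⟩⟩ ⟨false,1,⟨1,[(0,0),(32,0)]⟩,⟨1,[(19,0),(0,0),(8,
  1)]⟩⟩ ⟨true,1,⟨1,[(0,0),(32,0)]⟩,⟨0,[(2,0),(15,0),(0,0),(9,0),(2,0)]⟩⟩]⟩) (.I [0,0,-2,-1,1] (.S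
  ⟨1,0,[0,1,-1,-1],[1,-1],[1,0,1],(⟨0,[(26,0)]⟩,⟨0,[(27,0)]⟩),⟨3,[(1,0),(0,0),(0,0),(16,0),(3,4),(1,
  2),(4,2),(3,1)]⟩,.k,(.x 0 ⟨0,[(20,0),(0,0),(5,1)]⟩ ⟨0,[(24,1),(6,1),(3,0)]⟩),⟨false,0,⟨1,[(20,0),
  (0,0),(8,1)]⟩,⟨0,[(0,0)]⟩⟩,⟨true,0,⟨0,[(37,0)]⟩,⟨0,[]⟩⟩,⟨true,(-1),⟨0,[(1,0)]⟩,⟨0,[(0,0),(31,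
  0)]⟩⟩,⟨false,0,⟨0,[(33,0)]⟩,⟨0,[(32,0),(2,0)]⟩⟩,[.o ⟨false,0,⟨0,[(32,0)]⟩,⟨1,[(25,0),(7,1),(1,
  0)]⟩⟩,.e ⟨false,1,⟨1,[(13,0),(0,0),(20,0)]⟩,⟨0,[(31,0)]⟩⟩ ⟨false,1,⟨0,[(0,0)]⟩,⟨1,[(1,0),(11,0),
  (0,0)]⟩⟩,.o ⟨false,0,⟨1,[(20,0),(0,0)]⟩,⟨1,[(25,0),(8,0)]⟩⟩,.a ⟨true,(-1),⟨0,[(1,0),(0,0),(5,0)]⟩,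
  ⟨0,[(34,0)]⟩⟩ ⟨true,0,⟨0,[]⟩,⟨0,[(37,0)]⟩⟩ ⟨false,1,⟨0,[(0,0)]⟩,⟨1,[(20,0),(0,0),(8,1)]⟩⟩]⟩) (.Q
  [0,0,0,2,0,0,1,1,0,-1,1] (.p true [0,0,1] [1] (⟨0,[(23,0)]⟩,⟨0,[(22,0)]⟩) .k 1 (⟨0,[]⟩,⟨0,[]⟩) .k
  .k) (.R ⟨1,true,false,false,[1,-1],[0,0,1],[0,1,-1,-1],(⟨0,[(27,0)]⟩,⟨0,[(28,0)]⟩),(⟨0,[(24,0)]⟩,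
  ⟨0,[(23,0)]⟩),⟨5,[(1,1),(1,0),(2,0),(14,0),(3,6),(1,4),(4,3),(3,1)]⟩,.k,.k,(.r (-2) ⟨0,[(33,1),(1,
  0),(0,0)]⟩ ⟨0,[(1,1),(30,1),(3,0)]⟩),.k,(.r (-2) ⟨5,[(3,7),(3,1),(13,7),(4,0),(3,1),(4,7),(0,0)]⟩
  ⟨1,[(0,0),(0,0),(0,0),(6,0),(3,0)]⟩),.k,⟨true,1,⟨2,[(3,2),(17,2),(7,0),(0,0),(1,0),(2,1)]⟩,⟨0,[(1,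
  0),(4,0),(24,0)]⟩⟩,⟨false,2,⟨1,[(21,1),(4,0),(8,2)]⟩,⟨4,[(1,3),(1,1),(0,1),(13,2),(17,0)]⟩⟩,⟨true,
  0,⟨0,[(38,0)]⟩,⟨0,[]⟩⟩,⟨false,1,⟨3,[(0,1),(18,1),(6,0),(9,2)]⟩,⟨0,[(3,0)]⟩⟩,⟨false,0,⟨0,[(34,0)]⟩,
  ⟨0,[(33,0),(2,0)]⟩⟩,⟨true,0,⟨0,[(0,0)]⟩,⟨0,[(3,0),(29,0)]⟩⟩,[]⟩) (.Q [-2,0,0,1,0,0,0,0,-2,1,0,-2]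
  (.p false [0,0,0,0,1] [1,0,0,0,-1] (⟨0,[(17,0)]⟩,⟨0,[(16,0)]⟩) .k 2 (⟨0,[(16,0)]⟩,⟨0,[(17,0)]⟩)
  .k (.r 0 ⟨0,[]⟩ ⟨4,[(14,2),(0,2),(20,1),(1,3)]⟩)) (.Q [0,0,0,0,0,-1,0,0,0,0,0,1] (.ed false [1,-1,
  0,0,1] .k) (.S ⟨1,0,[1],[0,0,0,0,1],[0,1],(⟨0,[(19,0)]⟩,⟨0,[(18,0)]⟩),⟨0,[(0,0)]⟩,.k,(.r (-1) ⟨1,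
  [(35,1),(1,0),(0,0)]⟩ ⟨9,[(4,4),(11,2),(0,2),(20,1),(1,3)]⟩),⟨true,0,⟨0,[(40,0)]⟩,⟨0,[]⟩⟩,⟨false,
  1,⟨1,[(16,0),(0,0),(20,0)]⟩,⟨0,[]⟩⟩,⟨false,0,⟨0,[(3,0),(30,1),(3,0)]⟩,⟨0,[(35,0),(2,0)]⟩⟩,⟨true,0,
  ⟨0,[(36,0)]⟩,⟨0,[(35,0)]⟩⟩,[.a ⟨true,0,⟨0,[(17,0)]⟩,⟨3,[(1,1),(3,0),(5,0),(8,0),(2,0)]⟩⟩ ⟨false,0,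
  ⟨0,[(34,0)]⟩,⟨1,[(16,0),(0,0),(20,0)]⟩⟩ ⟨true,0,⟨0,[]⟩,⟨1,[(23,0),(0,0)]⟩⟩,.o ⟨false,1,⟨1,[(17,1),
  (10,0),(9,0)]⟩,⟨5,[(1,2),(4,0),(15,0),(0,0),(7,0),(0,0),(2,1)]⟩⟩,.e ⟨true,0,⟨0,[(40,0)]⟩,⟨0,[]⟩⟩
  ⟨true,0,⟨0,[]⟩,⟨0,[(40,0)]⟩⟩,.o ⟨false,0,⟨31,[(2,3),(0,11),(7,3),(5,31),(5,0),(0,0),(7,11),(6,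
  5)]⟩,⟨27,[(1,8),(0,2),(8,2),(4,9),(15,3),(4,13)]⟩⟩]⟩) (.S ⟨1,0,[-1,1],[1,0,0,0,-1],[-1],(⟨0,[(18,
  0)]⟩,⟨0,[(19,0)]⟩),⟨8,[(0,0),(1,0),(0,2),(4,0),(9,7),(4,0),(3,9),(6,5),(3,2)]⟩,.k,(.r (-1) ⟨1,
  [(35,1),(1,0),(0,0)]⟩ ⟨1,[(4,0),(11,0),(0,0)]⟩),⟨false,1,⟨1,[(16,0),(0,0),(20,0)]⟩,⟨0,[]⟩⟩,⟨true,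
  0,⟨0,[(40,0)]⟩,⟨0,[]⟩⟩,⟨true,0,⟨0,[(36,0)]⟩,⟨0,[(35,0)]⟩⟩,⟨false,0,⟨0,[(36,0)]⟩,⟨0,[(35,0),(2,
  0)]⟩⟩,[.o ⟨false,0,⟨5,[(1,2),(4,0),(15,0),(0,0),(7,0),(0,0),(2,1)]⟩,⟨1,[(17,1),(10,0),(9,0)]⟩⟩,.e
  ⟨false,1,⟨0,[(34,0),(3,0)]⟩,⟨0,[(40,0)]⟩⟩ ⟨false,1,⟨9,[(16,3),(0,3),(19,4),(0,0),(1,1)]⟩,⟨0,[]⟩⟩,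
  .a ⟨true,0,⟨3,[(1,1),(3,0),(5,0),(8,0),(2,0)]⟩,⟨0,[(17,0)]⟩⟩ ⟨false,1,⟨4,[(16,1),(0,1),(20,2),(1,
  0)]⟩,⟨0,[]⟩⟩ ⟨true,0,⟨0,[(40,0)]⟩,⟨0,[]⟩⟩,.o ⟨false,0,⟨13,[(1,4),(0,3),(0,6),(7,3),(4,3),(15,2)]⟩,
  ⟨1,[(17,1),(10,0),(8,0)]⟩⟩]⟩)) (.Q [0,0,0,0,0,1,0,0,0,-1,1] (.ed false [0,1,1] .k) (.R ⟨0,false,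
  false,false,[-1,1,1],[0,1],[],(⟨0,[(0,0)]⟩,⟨0,[(25,0),(3,0)]⟩),(⟨0,[(30,0)]⟩,⟨0,[(29,0)]⟩),⟨0,
  [(25,0)]⟩,.k,.k,.k,.k,.k,.k,⟨true,1,⟨13,[(1,1),(0,3),(9,3),(3,3),(11,0),(8,6),(0,1)]⟩,⟨0,[(3,
  0)]⟩⟩,⟨false,0,⟨0,[(20,0)]⟩,⟨1,[(23,1),(4,0),(8,0)]⟩⟩,⟨false,2,⟨1,[(5,1),(17,1),(4,0),(8,1),(0,
  0)]⟩,⟨0,[(4,0),(3,0)]⟩⟩,⟨true,0,⟨0,[(10,0)]⟩,⟨2,[(4,0),(6,1),(9,0),(10,0),(1,1)]⟩⟩,⟨false,0,⟨0,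
  []⟩,⟨0,[]⟩⟩,⟨false,0,⟨0,[]⟩,⟨0,[]⟩⟩,[.a ⟨true,0,⟨0,[(36,0)]⟩,⟨1,[(5,0),(5,0),(8,0),(2,0)]⟩⟩
  ⟨false,1,⟨1,[(16,0),(0,0),(19,0)]⟩,⟨0,[]⟩⟩ ⟨true,(-1),⟨0,[(3,0),(16,0)]⟩,⟨5,[(2,1),(8,1),(11,5),
  (4,0),(3,1),(4,2)]⟩⟩,.o ⟨false,1,⟨1,[(28,0),(7,1),(1,0)]⟩,⟨0,[(35,0)]⟩⟩,.o ⟨false,2,⟨0,[(23,0),(4,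
  0),(8,0)]⟩,⟨6,[(2,1),(0,5),(2,1),(13,4),(17,0)]⟩⟩,.e ⟨false,1,⟨1,[(37,0),(0,0)]⟩,⟨1,[(23,0),(0,
  0)]⟩⟩ ⟨false,0,⟨0,[(20,0),(12,0)]⟩,⟨5,[(2,1),(8,1),(11,5),(4,0),(3,1),(4,2)]⟩⟩]⟩) (.Q [0,0,0,0,0,
  0,0,0,1,-1,0,1] (.p true [0,0,0,0,1] [1] (⟨0,[(19,0)]⟩,⟨0,[(18,0)]⟩) .k 1 (⟨0,[]⟩,⟨0,[]⟩) .k .k)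
  (.Q [0,0,1,0,-1,0,0,0,1,0,0,1] (.p true [0,0,0,0,1] [] (⟨0,[(20,0)]⟩,⟨0,[(19,0)]⟩) .k 0 (⟨0,[]⟩,
  ⟨0,[]⟩) .k .k) (.Q [0,0,-1,0,0,0,0,0,1,-1,0,1] (.p true [0,0,0,0,1] [1] (⟨0,[(21,0)]⟩,⟨0,[(20,
  0)]⟩) .k 1 (⟨0,[]⟩,⟨0,[]⟩) .k .k) (.Q [0,0,0,0,0,-1,0,0,0,1,0,-1] (.ed true [0,1,0,0,1] .k) (.R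
  ⟨1,false,false,false,[1,0,0,0,-1],[0,1],[0,0,1],(⟨0,[(22,0)]⟩,⟨0,[(23,0)]⟩),(⟨0,[(34,0)]⟩,⟨0,[(33,
  0)]⟩),⟨0,[(0,0)]⟩,.k,.k,(.r (-1) ⟨45,[(5,3),(0,7),(9,7),(3,7),(11,1),(6,17),(1,22),(0,12)]⟩ ⟨1,
  [(8,0),(11,0),(0,0)]⟩),(.r (-1) ⟨45,[(5,3),(0,7),(9,7),(3,7),(11,1),(6,17),(1,22),(0,12)]⟩ ⟨1,[(8,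
  0),(11,0),(0,0)]⟩),(.r (-2) ⟨22,[(5,5),(0,11),(9,11),(3,11),(11,2),(6,3),(1,22),(0,7)]⟩ ⟨0,[(8,
  0)]⟩),.k,⟨false,1,⟨13,[(5,1),(0,3),(9,3),(3,3),(11,0),(8,6),(0,1)]⟩,⟨0,[(40,0)]⟩⟩,⟨true,0,⟨0,[(1,
  0)]⟩,⟨1,[(7,1),(1,0),(5,0),(4,1),(3,0),(2,0)]⟩⟩,⟨true,0,⟨1,[(27,0),(0,0)]⟩,⟨0,[(38,0)]⟩⟩,⟨false,0,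
  ⟨0,[(1,0),(35,0)]⟩,⟨2,[(6,0),(5,0),(7,2),(6,0),(5,1),(0,1)]⟩⟩,⟨false,0,⟨0,[(37,0)]⟩,⟨13,[(5,1),(0,
  3),(9,3),(3,3),(11,0),(8,6),(0,1)]⟩⟩,⟨false,0,⟨0,[(1,0),(35,0),(2,0)]⟩,⟨2,[(6,1),(5,1),(7,2),(6,
  1),(5,0),(0,0)]⟩⟩,[.a ⟨true,0,⟨0,[(40,0)]⟩,⟨1,[(9,0),(5,0),(8,0),(2,0)]⟩⟩ ⟨true,0,⟨1,[(27,0),(0,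
  0)]⟩,⟨0,[]⟩⟩ ⟨false,0,⟨0,[(1,0),(38,0)]⟩,⟨1,[(9,0),(5,0),(4,1),(3,0),(2,0)]⟩⟩,.o ⟨false,1,⟨1,[(32,
  0),(7,1),(1,0)]⟩,⟨0,[(39,0)]⟩⟩,.o ⟨false,1,⟨0,[(20,0)]⟩,⟨0,[(3,0)]⟩⟩,.o ⟨false,1,⟨1,[(20,1),(6,0),
  (0,0)]⟩,⟨0,[(1,0)]⟩⟩]⟩) (.R ⟨0,false,false,false,[1,0,0,0,-1],[0,1],[0,1,0,-1],(⟨0,[(22,0)]⟩,⟨0,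
  [(23,0)]⟩),(⟨0,[(34,0)]⟩,⟨0,[(33,0)]⟩),⟨0,[(0,0)]⟩,.k,.k,(.r (-1) ⟨45,[(5,3),(0,7),(9,7),(3,7),
  (11,1),(6,17),(1,22),(0,12)]⟩ ⟨1,[(8,0),(11,0),(0,0)]⟩),(.r (-1) ⟨45,[(5,3),(0,7),(9,7),(3,7),(11,
  1),(6,17),(1,22),(0,12)]⟩ ⟨1,[(8,0),(11,0),(0,0)]⟩),.k,.k,⟨false,1,⟨5,[(6,1),(6,1),(13,1),(4,0),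
  (6,3),(1,4)]⟩,⟨0,[(37,0),(2,0)]⟩⟩,⟨true,0,⟨0,[(1,0)]⟩,⟨1,[(7,1),(1,0),(5,0),(4,1),(3,0),(2,0)]⟩⟩,
  ⟨true,0,⟨0,[(39,0)]⟩,⟨0,[(40,0)]⟩⟩,⟨false,0,⟨0,[(1,0),(35,0)]⟩,⟨2,[(6,0),(5,0),(7,2),(6,0),(5,1),
  (0,1)]⟩⟩,⟨false,0,⟨0,[]⟩,⟨0,[]⟩⟩,⟨false,0,⟨0,[]⟩,⟨0,[]⟩⟩,[.a ⟨true,0,⟨0,[(40,0)]⟩,⟨1,[(9,0),(5,0),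
  (8,0),(2,0)]⟩⟩ ⟨true,0,⟨0,[(39,0)]⟩,⟨0,[(37,0)]⟩⟩ ⟨false,0,⟨0,[(1,0),(38,0)]⟩,⟨1,[(9,0),(5,0),(4,
  1),(3,0),(2,0)]⟩⟩,.o ⟨false,1,⟨1,[(32,0),(7,1),(1,0)]⟩,⟨0,[(39,0)]⟩⟩,.o ⟨false,1,⟨0,[(20,0)]⟩,⟨0,
  [(3,0)]⟩⟩,.o ⟨false,1,⟨1,[(20,1),(6,0),(0,0)]⟩,⟨0,[(1,0)]⟩⟩]⟩)) (.Q [0,0,0,0,0,-1,0,0,0,0,0,1]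
  (.ed false [1,-1,0,0,1] .k) (.S ⟨1,0,[1],[0,0,0,0,1],[1,0,1],(⟨0,[(23,0)]⟩,⟨0,[(22,0)]⟩),⟨0,[(0,
  0)]⟩,.k,(.r (-1) ⟨13,[(5,1),(0,3),(9,3),(3,3),(11,0),(8,6),(0,1)]⟩ ⟨9,[(8,4),(11,2),(0,2),(20,1),
  (1,3)]⟩),⟨true,0,⟨1,[(27,0),(0,0)]⟩,⟨0,[(38,0)]⟩⟩,⟨false,1,⟨1,[(20,0),(0,0),(20,0)]⟩,⟨0,[]⟩⟩,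
  ⟨false,0,⟨1,[(8,0),(33,0)]⟩,⟨13,[(5,1),(0,3),(9,3),(3,3),(11,0),(8,6),(0,1)]⟩⟩,⟨true,0,⟨0,[(40,
  0)]⟩,⟨0,[(39,0)]⟩⟩,[.o ⟨false,0,⟨0,[(3,0)]⟩,⟨6,[(1,2),(18,3),(15,0),(1,3),(3,1),(0,0)]⟩⟩,.e
  ⟨false,1,⟨1,[(20,0),(0,0),(20,0)]⟩,⟨0,[(38,0)]⟩⟩ ⟨false,1,⟨1,[(41,0),(0,0)]⟩,⟨0,[(44,0)]⟩⟩,.o
  ⟨false,0,⟨0,[(3,0)]⟩,⟨0,[(20,0)]⟩⟩,.a ⟨true,(-1),⟨0,[(2,0)]⟩,⟨0,[(1,0),(39,0)]⟩⟩ ⟨true,0,⟨0,[]⟩,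
  ⟨0,[(44,0)]⟩⟩ ⟨false,1,⟨1,[(41,0),(0,0)]⟩,⟨1,[(27,0),(0,0)]⟩⟩]⟩) (.Q [1,-1,0,0,0,0,-1,-1,1,0,-1,
  1] (.p false [0,0,1] [0,0,0,0,1] (⟨0,[(30,0)]⟩,⟨0,[(29,0)]⟩) .k 2 (⟨0,[(23,0)]⟩,⟨0,[(22,0)]⟩) .k
  (.r 0 ⟨37,[(8,10),(3,21),(4,3),(1,5),(5,11),(6,2),(7,3),(1,7)]⟩ ⟨1,[(14,1),(12,1),(4,0),(8,0)]⟩))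
  (.R ⟨0,false,false,true,[0,0,0,0,1],[0,-1,1],[0,1],(⟨0,[(24,0)]⟩,⟨0,[(23,0)]⟩),(⟨0,[(12,0)]⟩,⟨0,
  [(30,0),(4,0)]⟩),⟨0,[(1,0)]⟩,.k,.k,(.r (-1) ⟨13,[(6,1),(0,3),(9,3),(3,3),(11,0),(8,6),(0,1)]⟩ ⟨9,
  [(9,4),(11,2),(0,2),(20,1),(1,3)]⟩),(.r (-1) ⟨1,[(15,1),(5,0),(0,0),(5,1),(4,0),(7,1)]⟩ ⟨0,[(11,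
  0),(27,0),(3,0)]⟩),.k,.k,⟨false,1,⟨1,[(15,1),(12,1),(4,0),(7,1),(0,0)]⟩,⟨0,[(13,0)]⟩⟩,⟨true,1,⟨0,
  [(21,0),(6,0)]⟩,⟨0,[(0,0),(10,0),(29,0)]⟩⟩,⟨true,0,⟨0,[(45,0)]⟩,⟨0,[]⟩⟩,⟨false,1,⟨0,[(13,0),(7,0),
  (6,0)]⟩,⟨0,[(0,0),(40,0)]⟩⟩,⟨false,0,⟨0,[]⟩,⟨0,[]⟩⟩,⟨false,0,⟨0,[]⟩,⟨0,[]⟩⟩,[.o ⟨false,0,⟨2,[(11,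
  0),(4,1),(11,0),(7,0),(0,0)]⟩,⟨1,[(15,1),(17,0),(7,1),(1,0)]⟩⟩,.a ⟨true,0,⟨0,[(16,0)]⟩,⟨0,[(15,0),
  (25,0)]⟩⟩ ⟨false,1,⟨1,[(21,0),(0,0),(19,0)]⟩,⟨0,[]⟩⟩ ⟨true,1,⟨0,[(16,0),(4,0)]⟩,⟨0,[(0,0),(7,0),
  (30,0)]⟩⟩,.o ⟨false,0,⟨0,[(4,0)]⟩,⟨0,[(21,0)]⟩⟩,.e ⟨true,0,⟨0,[(39,0)]⟩,⟨1,[(28,0),(0,0)]⟩⟩ ⟨true,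
  1,⟨0,[(16,0),(4,0),(17,0)]⟩,⟨0,[(0,0),(7,0),(30,0)]⟩⟩]⟩) (.R ⟨1,false,false,false,[1,0,0,0,-1],[0,
  1],[-1],(⟨0,[(23,0)]⟩,⟨0,[(24,0)]⟩),(⟨0,[(35,0)]⟩,⟨0,[(34,0)]⟩),⟨0,[(1,0),(3,0),(6,0)]⟩,.k,.k,(.r
  (-1) ⟨45,[(6,3),(0,7),(9,7),(3,7),(11,1),(6,17),(1,22),(0,12)]⟩ ⟨1,[(9,0),(11,0),(0,0)]⟩),(.r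
  (-1) ⟨45,[(6,3),(0,7),(9,7),(3,7),(11,1),(6,17),(1,22),(0,12)]⟩ ⟨1,[(9,0),(11,0),(0,0)]⟩),(.r
  (-2) ⟨22,[(6,5),(0,11),(9,11),(3,11),(11,2),(6,3),(1,22),(0,7)]⟩ ⟨0,[(9,0)]⟩),.k,⟨true,1,⟨45,[(6,
  3),(0,7),(9,7),(3,7),(11,1),(6,17),(1,22),(0,12)]⟩,⟨0,[(8,0)]⟩⟩,⟨false,1,⟨0,[(4,0),(37,0)]⟩,⟨0,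
  [(2,0)]⟩⟩,⟨false,1,⟨1,[(21,0),(0,0),(20,0)]⟩,⟨0,[]⟩⟩,⟨true,0,⟨0,[(4,0),(36,0)]⟩,⟨0,[(0,0),(9,
  0)]⟩⟩,⟨true,0,⟨0,[(41,0)]⟩,⟨0,[(40,0)]⟩⟩,⟨true,0,⟨0,[(4,0),(36,1)]⟩,⟨0,[(0,0),(6,0)]⟩⟩,[.a ⟨true,
  0,⟨0,[(41,0)]⟩,⟨1,[(10,0),(5,0),(8,0),(2,0)]⟩⟩ ⟨false,1,⟨9,[(21,3),(0,3),(19,4),(0,0),(1,1)]⟩,⟨0,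
  []⟩⟩ ⟨true,0,⟨0,[(4,0),(36,0)]⟩,⟨2,[(0,1),(1,0),(4,1),(0,0),(34,0)]⟩⟩,.o ⟨false,1,⟨1,[(33,0),(7,
  1),(1,0)]⟩,⟨0,[(40,0)]⟩⟩,.o ⟨false,1,⟨0,[(21,0)]⟩,⟨0,[(4,0)]⟩⟩,.e ⟨false,1,⟨0,[(39,0),(3,0)]⟩,⟨1,
  [(28,0),(0,0)]⟩⟩ ⟨false,1,⟨1,[(4,1),(36,1),(0,0),(0,0)]⟩,⟨2,[(0,1),(1,0),(4,1),(0,0),(34,
  0)]⟩⟩]⟩)))) (.Q [-1,1,0,0,0,0,0,0,-1,0,0,-1] (.p false [0,0,0,0,1] [] (⟨0,[(21,0)]⟩,⟨0,[(20,0)]⟩)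
  .k 0 (⟨0,[]⟩,⟨0,[]⟩) .k .k) (.R ⟨1,false,false,true,[0,0,1],[1,0,0,0,-1],[1,1,0,-1,0,0,0,1],(⟨0,
  [(29,0)]⟩,⟨0,[(28,0)]⟩),(⟨0,[(21,0)]⟩,⟨0,[(22,0)]⟩),⟨0,[(10,0)]⟩,.k,.k,.k,.k,(.r 0 ⟨0,[(11,0)]⟩
  ⟨1,[(13,1),(5,0),(0,0),(5,1),(4,0),(7,1)]⟩),.k,⟨false,0,⟨0,[(11,0)]⟩,⟨1,[(13,1),(12,1),(4,0),(7,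
  1),(0,0)]⟩⟩,⟨true,0,⟨6,[(0,6),(4,0),(0,2),(2,0),(13,5),(17,3)]⟩,⟨0,[(2,0),(23,0)]⟩⟩,⟨true,0,⟨0,
  [(38,0)]⟩,⟨0,[(39,0)]⟩⟩,⟨true,0,⟨0,[(0,0),(12,0)]⟩,⟨0,[(2,0),(11,0),(24,0)]⟩⟩,⟨false,0,⟨0,[]⟩,⟨1,
  [(19,0),(0,0),(20,0)]⟩⟩,⟨true,0,⟨1,[(0,0),(0,0),(5,0),(5,1),(23,0)]⟩,⟨0,[(2,0),(11,0)]⟩⟩,[.o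
  ⟨false,0,⟨0,[(0,0)]⟩,⟨1,[(20,1),(10,0),(9,0)]⟩⟩,.o ⟨false,1,⟨3,[(0,0),(18,2),(21,0),(1,0)]⟩,⟨0,
  [(2,0)]⟩⟩,.o ⟨false,1,⟨1,[(26,1),(4,0),(8,0)]⟩,⟨0,[(17,0)]⟩⟩,.a ⟨true,0,⟨0,[(26,0)]⟩,⟨0,[(23,
  0)]⟩⟩ ⟨false,0,⟨0,[(11,0)]⟩,⟨1,[(13,1),(12,1),(4,0),(7,1),(1,0)]⟩⟩ ⟨true,0,⟨0,[(0,0),(22,0)]⟩,⟨0,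
  [(2,0),(23,0)]⟩⟩]⟩) (.R ⟨2,true,false,false,[0,1],[0,0,0,0,1],[1,0,1],(⟨0,[]⟩,⟨0,[]⟩),(⟨0,[(22,
  0)]⟩,⟨0,[(21,0)]⟩),⟨0,[]⟩,.k,.k,.k,(.r 0 ⟨9,[(7,4),(11,2),(0,2),(20,1),(1,3)]⟩ ⟨13,[(4,1),(0,3),
  (9,3),(3,3),(11,0),(8,6),(0,1)]⟩),.k,.k,⟨true,0,⟨1,[(26,0),(0,0)]⟩,⟨0,[]⟩⟩,⟨false,0,⟨0,[(20,0)]⟩,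
  ⟨0,[(1,0)]⟩⟩,⟨false,1,⟨13,[(4,1),(0,3),(9,3),(3,3),(11,0),(9,8)]⟩,⟨0,[(39,0)]⟩⟩,⟨true,0,⟨3,[(4,0),
  (0,0),(8,0),(5,1)]⟩,⟨0,[(1,0),(4,0),(30,0)]⟩⟩,⟨true,0,⟨0,[]⟩,⟨0,[(43,0)]⟩⟩,⟨false,0,⟨0,[(0,0)]⟩,
  ⟨1,[(1,0),(17,0),(22,0)]⟩⟩,[]⟩))) (.Q [0,0,0,0,0,-1,0,0,0,0,0,1] (.ed false [1,-1,0,0,1] .k) (.R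
  ⟨1,false,false,false,[0,0,0,0,1],[0,1],[0,1],(⟨0,[(21,0)]⟩,⟨0,[(20,0)]⟩),(⟨0,[(32,0)]⟩,⟨0,[(31,
  0)]⟩),⟨0,[(0,0)]⟩,.k,.k,(.r (-1) ⟨13,[(3,1),(0,3),(9,3),(3,3),(11,0),(8,6),(0,1)]⟩ ⟨9,[(6,4),(11,
  2),(0,2),(20,1),(1,3)]⟩),(.r (-1) ⟨13,[(3,1),(0,3),(9,3),(3,3),(11,0),(8,6),(0,1)]⟩ ⟨9,[(6,4),(11,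
  2),(0,2),(20,1),(1,3)]⟩),(.r (-2) ⟨6,[(3,1),(0,3),(9,3),(3,3),(11,0),(8,6),(0,1)]⟩ ⟨0,[(5,1),(30,
  1),(3,0)]⟩),.k,⟨false,1,⟨0,[(37,0),(1,0)]⟩,⟨0,[(35,0)]⟩⟩,⟨true,1,⟨3,[(1,2),(16,0),(15,0),(4,1)]⟩,
  ⟨10,[(3,2),(0,2),(0,11),(4,2),(8,4),(5,2),(10,1),(3,0)]⟩⟩,⟨true,0,⟨0,[(42,0)]⟩,⟨0,[]⟩⟩,⟨false,1,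
  ⟨3,[(1,2),(16,0),(15,0),(3,3),(1,1)]⟩,⟨3,[(3,0),(0,0),(8,0),(5,1)]⟩⟩,⟨false,0,⟨0,[(5,0),(30,1),(3,
  0)]⟩,⟨13,[(3,1),(0,3),(9,3),(3,3),(11,0),(9,8)]⟩⟩,⟨false,1,⟨3,[(1,2),(16,0),(15,0),(3,7),(1,1)]⟩,
  ⟨1,[(3,0),(0,0),(8,0)]⟩⟩,[.e ⟨false,0,⟨0,[(36,0)]⟩,⟨1,[(18,0),(0,0),(20,0)]⟩⟩ ⟨false,1,⟨3,[(1,2),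
  (16,0),(15,0),(3,3),(0,1)]⟩,⟨10,[(3,2),(0,2),(0,0),(4,2),(8,4),(5,2),(10,1),(3,0)]⟩⟩,.o ⟨false,1,
  ⟨1,[(30,0),(7,1),(1,0)]⟩,⟨0,[(37,0)]⟩⟩,.a ⟨true,0,⟨0,[(19,0)]⟩,⟨0,[(1,0)]⟩⟩ ⟨true,0,⟨0,[(42,0)]⟩,
  ⟨0,[]⟩⟩ ⟨false,1,⟨3,[(1,2),(16,0),(15,0),(3,3),(1,1)]⟩,⟨10,[(3,2),(0,2),(0,0),(4,2),(8,4),(5,2),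
  (10,1),(3,0)]⟩⟩,.o ⟨false,0,⟨3,[(3,1),(2,0),(23,0),(10,1)]⟩,⟨3,[(1,2),(16,0),(15,0),(4,1)]⟩⟩]⟩)
  (.R ⟨0,false,false,false,[0,0,0,0,1],[0,1],[0,1],(⟨0,[(21,0)]⟩,⟨0,[(20,0)]⟩),(⟨0,[(32,0)]⟩,⟨0,
  [(31,0)]⟩),⟨0,[(0,0)]⟩,.k,.k,(.r (-1) ⟨13,[(3,1),(0,3),(9,3),(3,3),(11,0),(8,6),(0,1)]⟩ ⟨9,[(6,4),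
  (11,2),(0,2),(20,1),(1,3)]⟩),(.r (-1) ⟨13,[(3,1),(0,3),(9,3),(3,3),(11,0),(8,6),(0,1)]⟩ ⟨9,[(6,4),
  (11,2),(0,2),(20,1),(1,3)]⟩),.k,.k,⟨false,1,⟨0,[(37,0),(1,0)]⟩,⟨0,[(35,0)]⟩⟩,⟨true,1,⟨3,[(1,2),
  (16,0),(15,0),(4,1)]⟩,⟨10,[(3,2),(0,2),(0,11),(4,2),(8,4),(5,2),(10,1),(3,0)]⟩⟩,⟨true,0,⟨0,[(42,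
  0)]⟩,⟨0,[]⟩⟩,⟨false,1,⟨3,[(1,2),(16,0),(15,0),(3,3),(1,1)]⟩,⟨3,[(3,0),(0,0),(8,0),(5,1)]⟩⟩,⟨false,
  0,⟨0,[]⟩,⟨0,[]⟩⟩,⟨false,0,⟨0,[]⟩,⟨0,[]⟩⟩,[.e ⟨false,0,⟨0,[(36,0)]⟩,⟨1,[(18,0),(0,0),(20,0)]⟩⟩
  ⟨false,1,⟨3,[(1,2),(16,0),(15,0),(3,3),(0,1)]⟩,⟨10,[(3,2),(0,2),(0,0),(4,2),(8,4),(5,2),(10,1),(3,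
  0)]⟩⟩,.o ⟨false,1,⟨1,[(30,0),(7,1),(1,0)]⟩,⟨0,[(37,0)]⟩⟩,.a ⟨true,0,⟨0,[(19,0)]⟩,⟨0,[(1,0)]⟩⟩
  ⟨true,0,⟨0,[(42,0)]⟩,⟨0,[]⟩⟩ ⟨false,1,⟨3,[(1,2),(16,0),(15,0),(3,3),(1,1)]⟩,⟨10,[(3,2),(0,2),(0,
  0),(4,2),(8,4),(5,2),(10,1),(3,0)]⟩⟩,.o ⟨false,0,⟨3,[(3,1),(2,0),(23,0),(10,1)]⟩,⟨3,[(1,2),(16,0),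
  (15,0),(4,1)]⟩⟩]⟩)))))))))) (.Q [0,0,-1,0,0,0,-2,0,0,0,-2] (.p false [0,0,1] [0,1,-1] (⟨0,[(19,
  0)]⟩,⟨0,[(18,0)]⟩) .k 2 (⟨0,[(0,0)]⟩,⟨0,[(19,0),(2,0)]⟩) .k (.x (-1) ⟨1,[(0,3),(15,3),(3,3),(6,1),
  (2,0),(0,0)]⟩ ⟨0,[(7,1),(11,1)]⟩)) (.Q [0,0,-2,0,1,0,-1,0,0,-1,-1] (.p false [1,-1,1] [] (⟨0,[(20,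
  0),(2,0)]⟩,⟨0,[(1,0)]⟩) .k 0 (⟨0,[]⟩,⟨0,[]⟩) .k .k) (.R ⟨1,false,false,true,[1,-1,1],[1,-1],[0,1,
  -1,-1,0,0,0,1],(⟨0,[(21,0),(2,0)]⟩,⟨0,[(2,0)]⟩),(⟨0,[(24,0)]⟩,⟨0,[(25,0)]⟩),⟨0,[(3,0),(1,0),(12,
  0),(2,0),(0,1),(8,0)]⟩,.k,.k,(.r (-1) ⟨2,[(4,1),(3,0),(21,0),(1,0),(0,1)]⟩ ⟨0,[(17,0),(0,0),(9,0),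
  (2,0)]⟩),.k,.k,.k,⟨false,0,⟨0,[(3,0),(27,0)]⟩,⟨1,[(5,1),(12,1),(4,0),(8,0)]⟩⟩,⟨true,0,⟨0,[(9,0)]⟩,
  ⟨0,[(18,0)]⟩⟩,⟨true,0,⟨0,[(35,0)]⟩,⟨0,[]⟩⟩,⟨true,0,⟨0,[(17,0)]⟩,⟨0,[(6,0),(24,0)]⟩⟩,⟨false,0,⟨0,
  [(31,0)]⟩,⟨0,[(30,0),(2,0)]⟩⟩,⟨true,0,⟨0,[(17,0),(13,0)]⟩,⟨0,[(6,0)]⟩⟩,[.o ⟨false,0,⟨0,[(30,0)]⟩,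
  ⟨1,[(23,0),(7,1),(1,0)]⟩⟩,.a ⟨true,0,⟨0,[(5,0),(0,0)]⟩,⟨0,[(31,0)]⟩⟩ ⟨true,0,⟨0,[(3,0)]⟩,⟨0,[(17,
  0),(0,0),(9,0)]⟩⟩ ⟨false,1,⟨8,[(0,3),(3,2),(0,2),(4,0),(19,2),(1,1),(0,2)]⟩,⟨0,[(18,0),(12,0)]⟩⟩,
  .o ⟨false,0,⟨0,[(18,0)]⟩,⟨5,[(0,1),(9,1),(12,2),(8,0)]⟩⟩,.o ⟨false,0,⟨1,[(18,2),(0,0)]⟩,⟨0,[(0,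
  0)]⟩⟩]⟩) (.K ⟨0,[1,-1,1],(-1),(-1),(⟨0,[(21,0),(2,0)]⟩,⟨0,[(2,0)]⟩),.k,(.r (-1) ⟨2,[(4,1),(3,0),
  (21,0),(1,0),(0,1)]⟩ ⟨0,[(17,0),(0,0),(9,0),(2,0)]⟩),.k,.k,.k,[⟨1,[(23,0),(8,0)]⟩,⟨0,[(0,0)]⟩,⟨1,
  [(11,0),(0,0),(4,1),(5,0),(7,1)]⟩,⟨0,[(0,0),(2,0),(25,0)]⟩]⟩)) (.K ⟨0,[0,1,-1],0,0,(⟨0,[(1,0)]⟩,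
  ⟨0,[(20,0),(2,0)]⟩),.k,.k,(.r 0 ⟨1,[(0,0),(15,1),(10,2),(2,0),(3,0)]⟩ ⟨2,[(3,1),(3,0),(21,0),(1,
  0),(0,1)]⟩),(.r (-1) ⟨0,[(0,0),(3,1),(17,0),(7,0)]⟩ ⟨1,[(2,2),(4,0),(19,0),(2,0)]⟩),.k,[⟨0,[(0,
  0)]⟩,⟨0,[(8,0)]⟩,⟨0,[(6,0)]⟩,⟨0,[(16,0),(13,0)]⟩]⟩))) (.N [0,-1,1] 0 ⟨0,[(1,0),(23,0)]⟩ ⟨0,[(0,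
  0)]⟩ .k))

theorem ok8 : chk K t8 r7 = true := by decide +kernel

noncomputable def t12 : Tre :=
  (.R ⟨2,true,false,true,[0,1],[0,0,1],[0,1,1,1],(⟨0,[]⟩,⟨0,[]⟩),(⟨0,[(14,0)]⟩,⟨0,[(13,0)]⟩),⟨0,[]⟩,
  .k,.k,.k,.k,.k,.k,⟨false,0,⟨0,[(0,0),(10,0),(10,0)]⟩,⟨1,[(1,1),(23,0),(0,0)]⟩⟩,⟨true,0,⟨0,[(11,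
  0)]⟩,⟨0,[(2,0)]⟩⟩,⟨true,0,⟨0,[(28,0)]⟩,⟨0,[]⟩⟩,⟨false,1,⟨0,[(9,0),(13,0),(2,0)]⟩,⟨0,[(0,0)]⟩⟩,
  ⟨false,0,⟨0,[(24,0)]⟩,⟨0,[(23,0),(2,0)]⟩⟩,⟨true,0,⟨0,[(9,0)]⟩,⟨0,[(0,0),(22,0)]⟩⟩,[]⟩)

theorem ok12 : chk K t12 r2 = true := by decide +kernel

noncomputable def t15 : Tre :=
  (.Q [0,1,0,-1,0,0,-1,-1,0,0,-1] (.p false [0,0,1] [] (⟨0,[(12,0)]⟩,⟨0,[(11,0)]⟩) .k 0 (⟨0,[]⟩,⟨0,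
  []⟩) .k .k) (.Q [0,0,0,0,0,-1,0,0,0,1,-1] (.ed true [0,1,1] .k) (.I [0,0,-2,-2,1,0,0,-1] (.K ⟨0,
  [0,1,1],0,0,(⟨0,[(15,0),(3,0)]⟩,⟨0,[(1,0)]⟩),.k,.k,(.r 0 ⟨0,[(10,0),(2,0),(8,0),(2,0)]⟩ ⟨0,[(0,
  0)]⟩),.k,.k,[⟨1,[(12,0),(0,0)]⟩,⟨0,[(3,0)]⟩,⟨0,[(2,0)]⟩,⟨0,[(10,0),(14,0)]⟩]⟩) (.I [0,0,-2,0,1,-2,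
  1] (.K ⟨0,[0,1,1],0,0,(⟨0,[(16,0),(3,0)]⟩,⟨0,[(2,0)]⟩),.k,.k,(.x (-1) ⟨0,[(0,0)]⟩ ⟨1,[(13,0),(0,
  2),(1,1),(3,3)]⟩),.k,.k,[⟨1,[(13,0),(0,0)]⟩,⟨0,[(4,0)]⟩,⟨0,[(3,0)]⟩,⟨0,[(11,0),(14,0)]⟩]⟩) (.I [0,
  0,2,2,-1,0,0,1] (.K ⟨0,[0,1,1],0,0,(⟨0,[(17,0),(3,0)]⟩,⟨0,[(3,0)]⟩),.k,.k,(.r 1 ⟨0,[(0,0)]⟩ ⟨0,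
  [(4,0),(0,0),(20,0),(1,0),(0,0)]⟩),.k,.k,[⟨1,[(14,0),(0,0)]⟩,⟨0,[(5,0)]⟩,⟨0,[(4,0)]⟩,⟨0,[(12,0),
  (14,0)]⟩]⟩) (.I [0,0,-2,-1,1] (.S ⟨1,0,[0,0,1,1,0,0,0,1],[0,1,1],[0,1,1,1,0,0,0,1],(⟨0,[(18,0),(3,
  0)]⟩,⟨0,[(4,0)]⟩),⟨0,[(18,0)]⟩,.k,.k,⟨true,0,⟨0,[(32,0)]⟩,⟨0,[]⟩⟩,⟨false,1,⟨1,[(8,0),(0,0),(20,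
  0)]⟩,⟨0,[]⟩⟩,⟨false,0,⟨0,[(28,0)]⟩,⟨0,[(27,0),(2,0)]⟩⟩,⟨true,0,⟨0,[(28,0)]⟩,⟨0,[(27,0)]⟩⟩,[.e
  ⟨false,0,⟨7,[(3,3),(3,1),(5,3),(6,0),(2,1),(5,2)]⟩,⟨0,[(1,0),(23,0)]⟩⟩ ⟨false,0,⟨0,[(0,0),(2,0)]⟩,
  ⟨3,[(1,1),(12,1),(0,1),(13,0),(0,0)]⟩⟩,.o ⟨false,1,⟨2,[(0,0),(2,1),(2,1),(6,0),(10,0),(4,0),(0,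
  1)]⟩,⟨0,[(5,0)]⟩⟩,.o ⟨false,1,⟨1,[(6,1),(13,0),(8,0)]⟩,⟨0,[(16,0)]⟩⟩,.a ⟨true,0,⟨0,[(6,0)]⟩,⟨4,
  [(2,0),(4,1),(9,0),(3,1),(7,0)]⟩⟩ ⟨false,0,⟨0,[(0,0),(2,0)]⟩,⟨1,[(1,0),(3,0),(9,0),(9,0),(4,0)]⟩⟩
  ⟨true,0,⟨0,[(0,0),(2,0)]⟩,⟨0,[(5,0),(0,0)]⟩⟩]⟩) (.R ⟨2,true,false,false,[0,1],[1,0,-1],[0,0,1,1],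
  (⟨0,[]⟩,⟨0,[]⟩),(⟨0,[(17,0)]⟩,⟨0,[(18,0)]⟩),⟨0,[]⟩,.k,.k,.k,.k,.k,.k,⟨true,0,⟨7,[(3,3),(3,1),(0,
  0),(0,0),(3,3),(6,0),(9,1)]⟩,⟨0,[(0,0),(0,0)]⟩⟩,⟨false,0,⟨4,[(2,0),(4,1),(9,0),(3,1),(7,0)]⟩,⟨1,
  [(6,1),(13,0),(8,0)]⟩⟩,⟨false,1,⟨1,[(8,0),(0,0),(20,0)]⟩,⟨0,[]⟩⟩,⟨true,0,⟨4,[(0,2),(0,2),(0,0),(2,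
  1),(6,1),(4,0),(3,1),(8,0)]⟩,⟨1,[(3,0),(2,1),(5,0),(0,0),(10,0),(1,0)]⟩⟩,⟨true,0,⟨0,[(28,0)]⟩,⟨0,
  [(27,0)]⟩⟩,⟨false,0,⟨0,[(0,0),(0,0),(10,0),(12,0)]⟩,⟨1,[(13,1),(6,0),(9,0)]⟩⟩,[]⟩))))) (.I [1,-1,
  0,0,0,0,0,-1] (.I [0,0,1,1,-1,0,0,-1] (.R ⟨2,true,false,true,[0,1],[0,0,1],[1,1,0,0,0,0,0,1],(⟨0,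
  []⟩,⟨0,[]⟩),(⟨0,[(16,0)]⟩,⟨0,[(15,0)]⟩),⟨0,[]⟩,.k,.k,.k,.k,.k,.k,⟨true,0,⟨0,[]⟩,⟨1,[(13,0),(0,
  0)]⟩⟩,⟨false,0,⟨0,[(4,0)]⟩,⟨3,[(5,1),(0,0),(0,0),(10,0),(8,1)]⟩⟩,⟨true,1,⟨3,[(5,0),(4,1),(0,3),
  (10,0),(2,3),(1,0),(0,1)]⟩,⟨0,[(0,0)]⟩⟩,⟨false,1,⟨0,[(11,0),(13,0),(2,0)]⟩,⟨3,[(0,3),(4,0),(4,1),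
  (11,0),(4,0),(0,1)]⟩⟩,⟨false,1,⟨3,[(5,0),(4,1),(0,3),(10,0),(4,0),(0,1)]⟩,⟨1,[(1,1),(11,0),(0,
  0)]⟩⟩,⟨true,0,⟨0,[(11,0)]⟩,⟨8,[(0,0),(0,3),(1,0),(1,1),(4,0),(1,2),(9,0)]⟩⟩,[]⟩) (.Q [0,0,0,-1,0,
  0,0,0,0,1] (.pp false [-1,1]) (.Q [0,0,-1,0,1,0,1,0,0,-2,1] (.p true [-1,1,1] [1] (⟨0,[(3,0)]⟩,⟨0,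
  [(16,0),(3,0)]⟩) .k 1 (⟨0,[]⟩,⟨0,[]⟩) .k .k) (.R ⟨0,false,false,true,[-1,1,1],[0,0,1],[0,1,1,0,0,
  0,0,1],(⟨0,[(4,0)]⟩,⟨0,[(17,0),(3,0)]⟩),(⟨0,[(18,0)]⟩,⟨0,[(17,0)]⟩),⟨0,[(17,0)]⟩,.k,.k,.k,.k,.k,
  .k,⟨true,0,⟨1,[(15,0),(0,0)]⟩,⟨0,[]⟩⟩,⟨false,0,⟨0,[(12,0),(2,0)]⟩,⟨1,[(20,0),(8,0)]⟩⟩,⟨true,0,⟨0,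
  [(27,0)]⟩,⟨0,[(28,0)]⟩⟩,⟨false,0,⟨0,[(1,0)]⟩,⟨1,[(20,0),(7,1),(1,0)]⟩⟩,⟨false,0,⟨0,[]⟩,⟨0,[]⟩⟩,
  ⟨false,0,⟨0,[]⟩,⟨0,[]⟩⟩,[.a ⟨true,0,⟨0,[(13,0)]⟩,⟨4,[(1,1),(1,3),(3,0),(4,1),(1,0),(10,1)]⟩⟩
  ⟨true,0,⟨0,[(13,0),(2,0)]⟩,⟨0,[(3,0)]⟩⟩ ⟨false,0,⟨1,[(7,0),(4,0),(0,1),(1,0)]⟩,⟨1,[(3,1),(16,0),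
  (8,0)]⟩⟩,.o ⟨false,1,⟨1,[(13,1),(6,0),(9,0)]⟩,⟨0,[(3,0),(12,0),(9,0)]⟩⟩,.o ⟨false,1,⟨0,[(0,0)]⟩,
  ⟨0,[(7,0),(7,0)]⟩⟩,.o ⟨false,1,⟨1,[(0,0),(14,0),(4,0)]⟩,⟨1,[(7,0),(4,0),(2,0)]⟩⟩]⟩) (.S ⟨1,0,[0,1,
  0,0,0,0,0,1],[0,0,1],[0,0,0,0,0,0,0,1],(⟨0,[(18,0)]⟩,⟨0,[(17,0)]⟩),⟨2,[(0,0),(3,1),(1,0),(11,0),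
  (0,4),(6,1),(3,0),(0,0)]⟩,.k,.k,⟨false,1,⟨1,[(8,0),(0,0),(20,0)]⟩,⟨0,[]⟩⟩,⟨true,0,⟨0,[(32,0)]⟩,⟨0,
  []⟩⟩,⟨true,0,⟨0,[(28,0)]⟩,⟨0,[(27,0)]⟩⟩,⟨false,0,⟨0,[(28,0)]⟩,⟨0,[(27,0),(2,0)]⟩⟩,[.e ⟨false,1,⟨0,
  [(2,0),(25,0)]⟩,⟨3,[(3,2),(10,0),(0,0),(7,0)]⟩⟩ ⟨false,1,⟨11,[(2,7),(4,1),(0,2),(0,2),(3,3),(6,0),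
  (2,3),(4,7)]⟩,⟨0,[(3,0)]⟩⟩,.o ⟨false,1,⟨1,[(13,1),(6,0),(9,0)]⟩,⟨4,[(0,0),(2,2),(3,0),(6,1),(9,0),
  (1,0)]⟩⟩,.e ⟨false,1,⟨1,[(0,0),(11,0),(0,1),(10,0),(5,1)]⟩,⟨3,[(3,2),(10,0),(0,0),(7,0)]⟩⟩ ⟨false,
  1,⟨7,[(2,3),(4,1),(0,2),(0,2),(3,3),(6,0),(4,3)]⟩,⟨0,[(3,0)]⟩⟩,.a ⟨true,0,⟨0,[(15,0)]⟩,⟨0,[(12,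
  0)]⟩⟩ ⟨true,1,⟨0,[(2,0),(25,0)]⟩,⟨0,[(0,2),(2,0),(2,2),(17,1),(1,1)]⟩⟩ ⟨false,1,⟨0,[(2,0),(25,
  0)]⟩,⟨1,[(3,1),(11,0),(0,0)]⟩⟩]⟩)) (.R ⟨0,false,false,false,[1,0,-1],[0,1],[0,1,1],(⟨0,[(16,0)]⟩,
  ⟨0,[(17,0)]⟩),(⟨0,[(21,0)]⟩,⟨0,[(20,0)]⟩),⟨0,[(3,0)]⟩,.k,.k,.k,.k,.k,.k,⟨true,0,⟨0,[(26,0)]⟩,⟨0,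
  [(24,0)]⟩⟩,⟨false,1,⟨0,[(0,0),(0,0),(0,0),(2,0),(19,0)]⟩,⟨0,[(6,0),(7,0)]⟩⟩,⟨true,0,⟨0,[(12,0),(2,
  0)]⟩,⟨0,[(2,0),(22,0)]⟩⟩,⟨false,1,⟨0,[(0,0),(11,0),(16,0)]⟩,⟨1,[(2,1),(3,0),(4,0),(2,0),(11,1)]⟩⟩,
  ⟨false,0,⟨0,[]⟩,⟨0,[]⟩⟩,⟨false,0,⟨0,[]⟩,⟨0,[]⟩⟩,[.o ⟨false,0,⟨0,[(0,0)]⟩,⟨3,[(1,1),(2,1),(2,0),(0,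
  0),(5,1),(14,0)]⟩⟩,.o ⟨false,1,⟨1,[(19,0),(7,1),(1,0)]⟩,⟨0,[(26,0)]⟩⟩,.a ⟨true,0,⟨1,[(6,0),(4,0),
  (2,0)]⟩,⟨0,[(5,0)]⟩⟩ ⟨false,0,⟨1,[(14,0),(0,0)]⟩,⟨1,[(28,0),(0,0)]⟩⟩ ⟨true,0,⟨0,[(0,0),(4,0)]⟩,⟨1,
  [(6,0),(4,0),(2,0),(11,1)]⟩⟩,.o ⟨false,0,⟨0,[(15,0)]⟩,⟨1,[(5,1),(13,0),(8,0)]⟩⟩]⟩))) (.I [1,0,0,0,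
  0,0,0,-1] (.I [1,1,0,1,-1,0,0,-1] (.Q [0,1,0,1,-1,0,-1,-1,0,0,-1] (.p false [0,0,1] [] (⟨0,[(17,
  0)]⟩,⟨0,[(16,0)]⟩) .k 0 (⟨0,[]⟩,⟨0,[]⟩) .k .k) (.S ⟨1,1,[],[0,0,1],[1,1],(⟨0,[(18,0)]⟩,⟨0,[(17,
  0)]⟩),⟨0,[(4,0),(1,0),(5,0),(6,1),(11,0)]⟩,.k,.k,⟨false,0,⟨0,[(2,0)]⟩,⟨0,[(3,0),(26,0)]⟩⟩,⟨true,0,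
  ⟨1,[(0,0),(4,0),(24,0)]⟩,⟨0,[(13,0)]⟩⟩,⟨true,(-1),⟨0,[(1,0)]⟩,⟨0,[(3,0),(23,0),(2,0)]⟩⟩,⟨false,0,
  ⟨0,[(0,0),(29,0)]⟩,⟨0,[(13,0),(13,0),(2,0)]⟩⟩,[.fo,.o ⟨false,1,⟨1,[(20,0),(9,0)]⟩,⟨0,[(32,0)]⟩⟩,
  .e ⟨false,0,⟨0,[]⟩,⟨1,[(8,0),(0,0),(20,0)]⟩⟩ ⟨false,1,⟨3,[(7,1),(0,0),(0,0),(10,0),(9,1)]⟩,⟨0,[(6,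
  0)]⟩⟩,.a ⟨true,0,⟨0,[(15,0)]⟩,⟨0,[(12,0)]⟩⟩ ⟨true,0,⟨0,[(26,0)]⟩,⟨1,[(15,0),(0,0)]⟩⟩ ⟨false,1,⟨3,
  [(7,0),(4,1),(11,0),(4,0),(0,1)]⟩,⟨0,[(15,0)]⟩⟩]⟩) (.R ⟨1,true,false,true,[0,0,1],[0,1],[1,1,1,1],
  (⟨0,[(18,0)]⟩,⟨0,[(17,0)]⟩),(⟨0,[(22,0)]⟩,⟨0,[(21,0)]⟩),⟨0,[(4,0),(1,0),(5,0),(6,1),(11,0)]⟩,.k,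
  .k,.k,.k,(.r (-2) ⟨3,[(0,3),(6,0),(4,1),(11,0),(2,3),(1,2)]⟩ ⟨1,[(1,1),(13,0),(0,0),(8,1)]⟩),.k,
  ⟨true,0,⟨0,[]⟩,⟨1,[(15,0),(0,0)]⟩⟩,⟨false,1,⟨3,[(7,0),(4,1),(11,0),(4,2)]⟩,⟨0,[(15,0)]⟩⟩,⟨true,
  (-1),⟨1,[(1,1),(13,0),(0,0)]⟩,⟨3,[(0,2),(2,0),(8,2),(11,0),(1,0),(0,0)]⟩⟩,⟨false,0,⟨9,[(1,5),(5,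
  2),(6,3),(9,0),(3,3),(1,4)]⟩,⟨0,[(0,0)]⟩⟩,⟨false,(-1),⟨0,[(1,0),(23,0)]⟩,⟨3,[(0,5),(4,1),(1,0),(4,
  1),(11,0),(4,0)]⟩⟩,⟨true,(-1),⟨3,[(1,4),(1,0),(3,0),(4,1),(11,0),(0,1),(2,0)]⟩,⟨0,[(0,0),(26,
  0)]⟩⟩,[]⟩)) (.I [1,0,1,2,-1,0,0,-1] (.Q [0,1,0,2,-1,0,-1,-1,0,0,-1] (.p false [0,0,1] [] (⟨0,[(18,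
  0)]⟩,⟨0,[(17,0)]⟩) .k 0 (⟨0,[]⟩,⟨0,[]⟩) .k .k) (.R ⟨1,true,false,true,[1,-1],[1,0,-1],[1,1,0,0,0,
  0,0,-1],(⟨0,[(22,0)]⟩,⟨0,[(23,0)]⟩),(⟨0,[(18,0)]⟩,⟨0,[(19,0)]⟩),⟨0,[(7,0),(5,0),(6,1),(11,0)]⟩,.k,
  .k,(.x 0 ⟨0,[(16,0),(0,0),(5,1)]⟩ ⟨0,[(20,1),(6,1),(3,0)]⟩),.k,(.r (-2) ⟨0,[(2,0),(25,0),(1,0)]⟩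
  ⟨1,[(1,1),(14,0),(0,0)]⟩),.k,⟨true,0,⟨0,[]⟩,⟨1,[(16,0),(0,0)]⟩⟩,⟨false,1,⟨3,[(8,0),(4,1),(11,0),
  (4,2)]⟩,⟨0,[(16,0)]⟩⟩,⟨true,(-1),⟨0,[(1,0),(26,0)]⟩,⟨0,[(2,0),(24,0)]⟩⟩,⟨false,0,⟨1,[(0,0),(14,0),
  (15,0)]⟩,⟨0,[(2,0),(4,0)]⟩⟩,⟨false,(-1),⟨0,[(1,0)]⟩,⟨1,[(2,1),(25,1),(1,0),(0,0)]⟩⟩,⟨true,(-1),⟨0,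
  [(0,0)]⟩,⟨0,[(2,0),(4,0),(20,0)]⟩⟩,[]⟩) (.R ⟨2,true,false,false,[0,1],[1,-1],[0,0,0,-1],(⟨0,[]⟩,
  ⟨0,[]⟩),(⟨0,[(22,0)]⟩,⟨0,[(23,0)]⟩),⟨0,[]⟩,.k,.k,.k,(.x (-1) ⟨0,[(0,5),(0,6),(2,0),(8,5),(6,1),(4,
  1),(1,2),(0,1)]⟩ ⟨0,[(16,0),(0,0),(5,1)]⟩),.k,.k,⟨true,0,⟨1,[(16,0),(0,0)]⟩,⟨0,[]⟩⟩,⟨false,0,⟨1,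
  [(8,0),(4,0),(2,2)]⟩,⟨0,[(0,0),(0,0),(5,0),(5,1),(11,0),(1,0)]⟩⟩,⟨true,1,⟨5,[(0,4),(2,2),(2,1),(6,
  2),(11,0),(1,2)]⟩,⟨0,[(1,0),(2,0)]⟩⟩,⟨false,1,⟨1,[(0,1),(2,1),(4,0),(4,0),(2,0)]⟩,⟨0,[(0,0),(0,1),
  (2,0),(2,0),(5,1),(11,0)]⟩⟩,⟨false,1,⟨1,[(0,2),(0,1),(1,0),(9,2),(11,0),(1,0)]⟩,⟨0,[(26,0),(6,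
  0)]⟩⟩,⟨true,0,⟨0,[(0,0),(0,0),(11,0),(14,0)]⟩,⟨2,[(1,0),(2,0),(19,0),(0,0),(3,0)]⟩⟩,[]⟩)) (.I [1,
  1,-1,0,0,0,0,1] (.I [1,-1,-1,-1,1,0,0,1] (.Q [0,0,0,0,0,0,-1,-1,0,0,-1] (.p false [0,0,1] [] (⟨0,
  [(20,0)]⟩,⟨0,[(19,0)]⟩) .k 0 (⟨0,[]⟩,⟨0,[]⟩) .k .k) (.S ⟨1,0,[0,0,0,0,0,0,0,1],[0,0,1],[0,0,1],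
  (⟨0,[(21,0)]⟩,⟨0,[(20,0)]⟩),⟨0,[(7,0),(1,0),(5,0),(6,1),(11,0)]⟩,.k,.k,⟨true,0,⟨0,[(0,0),(17,0)]⟩,
  ⟨0,[(2,0)]⟩⟩,⟨false,1,⟨1,[(11,0),(0,0),(20,0)]⟩,⟨0,[]⟩⟩,⟨false,0,⟨0,[(0,0),(8,0),(18,0)]⟩,⟨2,[(3,
  0),(0,0),(1,0),(25,0)]⟩⟩,⟨true,0,⟨0,[(31,0)]⟩,⟨0,[(30,0)]⟩⟩,[.o ⟨false,1,⟨1,[(16,1),(6,0),(9,0)]⟩,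
  ⟨0,[(0,0)]⟩⟩,.o ⟨false,1,⟨2,[(1,1),(4,0),(2,2),(17,0),(0,1)]⟩,⟨0,[(17,0)]⟩⟩,.a ⟨true,0,⟨0,[(9,
  0)]⟩,⟨1,[(10,0),(4,0),(2,0)]⟩⟩ ⟨true,0,⟨1,[(18,0),(0,0)]⟩,⟨0,[(29,0)]⟩⟩ ⟨false,1,⟨0,[(6,0),(26,
  0)]⟩,⟨0,[(5,0)]⟩⟩,.e ⟨false,1,⟨1,[(11,0),(0,0),(20,0)]⟩,⟨0,[]⟩⟩ ⟨false,1,⟨0,[(1,0),(29,0)]⟩,⟨0,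
  [(0,0),(17,0)]⟩⟩]⟩) (.I [1,0,0,0,0,0,0,1] (.N [0,0,1] 0 ⟨0,[(0,0)]⟩ ⟨0,[(6,0)]⟩ .k) (.Q [0,1,0,1,
  0,0,0,0,0,-1] (.pp true [-1,1]) (.Q [0,0,0,1,0,0,-1,-1,0,0,-1] (.p false [0,0,1] [] (⟨0,[(23,0)]⟩,
  ⟨0,[(22,0)]⟩) .k 0 (⟨0,[]⟩,⟨0,[]⟩) .k .k) (.R ⟨2,true,false,true,[0,1],[0,0,1],[0,1],(⟨0,[]⟩,⟨0,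
  []⟩),(⟨0,[(24,0)]⟩,⟨0,[(23,0)]⟩),⟨0,[]⟩,.k,.k,.k,.k,.k,.k,⟨true,0,⟨0,[(2,0)]⟩,⟨0,[(3,0),(18,0)]⟩⟩,
  ⟨false,0,⟨0,[(12,0)]⟩,⟨3,[(13,1),(0,0),(0,0),(10,0),(8,1)]⟩⟩,⟨false,1,⟨5,[(6,1),(4,1),(9,1),(13,
  2),(0,0)]⟩,⟨0,[(31,0)]⟩⟩,⟨true,0,⟨0,[(3,0),(29,0)]⟩,⟨0,[(0,0)]⟩⟩,⟨true,0,⟨0,[(32,0)]⟩,⟨1,[(21,0),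
  (0,0)]⟩⟩,⟨false,0,⟨0,[(3,0)]⟩,⟨0,[(20,0),(15,0)]⟩⟩,[]⟩) (.R ⟨0,false,false,true,[1,0,-1],[2,-1,
  -1],[1,0,0,0,0,0,0,-1],(⟨0,[(23,0)]⟩,⟨0,[(24,0)]⟩),(⟨0,[(23,0),(3,0)]⟩,⟨0,[(10,0)]⟩),⟨0,[(10,0)]⟩,
  .k,.k,.k,.k,.k,.k,⟨true,0,⟨0,[(31,0)]⟩,⟨0,[(33,0)]⟩⟩,⟨false,0,⟨0,[(18,0),(2,0)]⟩,⟨1,[(26,0),(8,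
  0)]⟩⟩,⟨true,0,⟨0,[]⟩,⟨0,[(38,0)]⟩⟩,⟨false,0,⟨1,[(0,1),(7,1),(4,0),(4,0),(2,0)]⟩,⟨0,[(1,0),(34,
  0)]⟩⟩,⟨false,0,⟨0,[]⟩,⟨0,[]⟩⟩,⟨false,0,⟨0,[]⟩,⟨0,[]⟩⟩,[.o ⟨false,0,⟨0,[(11,0),(6,0),(2,0)]⟩,⟨0,
  [(2,0),(0,1),(14,0),(11,0),(0,0)]⟩⟩,.o ⟨false,0,⟨0,[(0,0),(7,1),(4,0)]⟩,⟨1,[(1,1),(1,1),(22,0),(9,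
  0)]⟩⟩,.a ⟨true,0,⟨1,[(13,0),(4,0),(2,0)]⟩,⟨0,[(12,0)]⟩⟩ ⟨true,0,⟨0,[(8,0)]⟩,⟨0,[(9,0)]⟩⟩ ⟨false,0,
  ⟨1,[(0,1),(7,3),(4,0),(4,0),(2,0)]⟩,⟨0,[(1,0),(2,0),(26,0)]⟩⟩,.o ⟨false,0,⟨0,[(22,0)]⟩,⟨1,[(12,1),
  (13,0),(8,0)]⟩⟩]⟩)) (.R ⟨0,false,false,true,[1,0,-1],[2,-1,-1],[1,0,0,0,0,0,0,-1],(⟨0,[(22,0)]⟩,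
  ⟨0,[(23,0)]⟩),(⟨0,[(22,0),(3,0)]⟩,⟨0,[(9,0)]⟩),⟨0,[(9,0)]⟩,.k,.k,.k,.k,.k,.k,⟨true,0,⟨0,[(30,0)]⟩,
  ⟨0,[(32,0)]⟩⟩,⟨false,0,⟨0,[(17,0),(2,0)]⟩,⟨1,[(25,0),(8,0)]⟩⟩,⟨true,0,⟨0,[]⟩,⟨0,[(37,0)]⟩⟩,⟨false,
  0,⟨5,[(0,4),(11,0),(7,1),(7,1),(3,0)]⟩,⟨1,[(25,0),(7,1),(1,0)]⟩⟩,⟨false,0,⟨0,[]⟩,⟨0,[]⟩⟩,⟨false,0,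
  ⟨0,[]⟩,⟨0,[]⟩⟩,[.o ⟨false,0,⟨0,[(10,0),(6,0),(2,0)]⟩,⟨1,[(0,0),(1,1),(8,0),(5,0),(11,1),(0,0),(2,
  1)]⟩⟩,.o ⟨false,0,⟨0,[(0,0),(18,0)]⟩,⟨0,[(2,0),(22,0),(7,0)]⟩⟩,.a ⟨true,0,⟨1,[(12,0),(4,0),(2,
  0)]⟩,⟨0,[(11,0)]⟩⟩ ⟨true,0,⟨0,[(7,0)]⟩,⟨0,[(8,0)]⟩⟩ ⟨false,0,⟨2,[(0,2),(6,1),(11,0),(0,0),(7,0)]⟩,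
  ⟨1,[(3,0),(0,0),(20,0),(4,1),(2,0)]⟩⟩,.o ⟨false,0,⟨0,[(21,0)]⟩,⟨1,[(11,1),(13,0),(8,0)]⟩⟩]⟩))))
  (.S ⟨1,0,[0,1,1,1,0,0,0,-1],[1,1,-1],[1,1],(⟨0,[(19,0),(4,0)]⟩,⟨0,[(6,0),(1,0),(5,0),(6,1),(11,
  0)]⟩),⟨0,[(19,0)]⟩,.k,.k,⟨false,1,⟨2,[(2,0),(0,0),(1,0),(25,0)]⟩,⟨0,[(0,0),(31,0)]⟩⟩,⟨true,0,⟨0,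
  [(34,0)]⟩,⟨0,[]⟩⟩,⟨true,0,⟨0,[(1,0)]⟩,⟨1,[(4,0),(2,0),(9,0),(9,0)]⟩⟩,⟨false,0,⟨0,[(30,0)]⟩,⟨2,[(2,
  0),(4,0),(9,0),(14,1)]⟩⟩,[.a ⟨true,(-1),⟨0,[(0,0),(13,0)]⟩,⟨0,[(3,0),(4,0)]⟩⟩ ⟨false,0,⟨0,[(28,
  0)]⟩,⟨1,[(10,0),(0,0),(20,0)]⟩⟩ ⟨true,(-1),⟨0,[(0,0)]⟩,⟨0,[(3,0)]⟩⟩,.o ⟨false,0,⟨3,[(0,0),(3,2),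
  (4,0),(4,1),(11,0),(0,0),(2,1)]⟩,⟨2,[(2,0),(0,0),(4,0),(6,0),(1,0),(8,0)]⟩⟩,.a ⟨true,0,⟨0,[(14,
  0)]⟩,⟨0,[(17,0)]⟩⟩ ⟨false,0,⟨0,[]⟩,⟨1,[(10,0),(0,0),(20,0)]⟩⟩ ⟨true,(-1),⟨0,[(0,0)]⟩,⟨2,[(2,0),(0,
  0),(1,0),(25,0)]⟩⟩,.a ⟨true,0,⟨1,[(9,0),(4,0),(2,0)]⟩,⟨0,[(8,0)]⟩⟩ ⟨true,0,⟨0,[(28,0)]⟩,⟨1,[(17,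
  0),(0,0)]⟩⟩ ⟨false,0,⟨0,[(4,0),(25,0)]⟩,⟨0,[(3,0)]⟩⟩]⟩)) (.I [1,-1,-1,-1,1,0,0,1] (.Q [0,0,0,0,0,
  0,-1,-1,0,0,-1] (.p false [0,0,1] [] (⟨0,[(20,0)]⟩,⟨0,[(19,0)]⟩) .k 0 (⟨0,[]⟩,⟨0,[]⟩) .k .k) (.S
  ⟨1,0,[0,0,0,0,0,0,0,1],[0,0,1],[0,1,0,0,0,0,0,1],(⟨0,[(21,0)]⟩,⟨0,[(20,0)]⟩),⟨0,[(7,0),(1,0),(5,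
  0),(6,1),(11,0)]⟩,.k,.k,⟨true,0,⟨0,[(35,0)]⟩,⟨0,[]⟩⟩,⟨false,1,⟨1,[(11,0),(0,0),(20,0)]⟩,⟨0,[]⟩⟩,
  ⟨false,0,⟨0,[(31,0)]⟩,⟨2,[(3,0),(4,0),(9,0),(14,1)]⟩⟩,⟨true,0,⟨0,[(31,0)]⟩,⟨0,[(30,0)]⟩⟩,[.o
  ⟨false,1,⟨1,[(16,1),(6,0),(9,0)]⟩,⟨0,[(0,0)]⟩⟩,.o ⟨false,1,⟨2,[(1,1),(4,0),(2,2),(17,0),(0,1)]⟩,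
  ⟨0,[(17,0)]⟩⟩,.a ⟨true,0,⟨0,[(9,0)]⟩,⟨1,[(10,0),(4,0),(2,0)]⟩⟩ ⟨true,0,⟨0,[(6,0)]⟩,⟨0,[(5,0)]⟩⟩
  ⟨false,1,⟨0,[(6,0),(26,0)]⟩,⟨0,[(5,0)]⟩⟩,.e ⟨false,1,⟨1,[(6,1),(25,0),(0,0)]⟩,⟨0,[(2,0)]⟩⟩ ⟨false,
  1,⟨0,[(1,0),(29,0)]⟩,⟨1,[(2,0),(14,0),(0,0)]⟩⟩]⟩) (.R ⟨0,false,false,true,[1,0,-1],[2,-1,-1],[1,0,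
  0,0,0,0,0,-1],(⟨0,[(20,0)]⟩,⟨0,[(21,0)]⟩),(⟨0,[(20,0),(3,0)]⟩,⟨0,[(7,0)]⟩),⟨0,[(7,0)]⟩,.k,.k,.k,
  .k,.k,.k,⟨true,0,⟨0,[(28,0)]⟩,⟨0,[(30,0)]⟩⟩,⟨false,0,⟨0,[(15,0),(2,0)]⟩,⟨1,[(23,0),(8,0)]⟩⟩,⟨true,
  0,⟨0,[]⟩,⟨0,[(35,0)]⟩⟩,⟨false,0,⟨0,[(0,0),(1,0),(12,0),(14,0)]⟩,⟨1,[(23,0),(7,1),(1,0)]⟩⟩,⟨false,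
  0,⟨0,[]⟩,⟨0,[]⟩⟩,⟨false,0,⟨0,[]⟩,⟨0,[]⟩⟩,[.o ⟨false,0,⟨0,[(8,0),(6,0),(2,0)]⟩,⟨1,[(0,2),(1,0),(6,
  0),(5,1),(11,1),(0,0),(2,0)]⟩⟩,.o ⟨false,0,⟨0,[(2,0),(12,0),(14,0)]⟩,⟨0,[(0,0),(22,0),(7,0)]⟩⟩,.a
  ⟨true,0,⟨1,[(10,0),(4,0),(2,0)]⟩,⟨0,[(9,0)]⟩⟩ ⟨true,0,⟨0,[(5,0)]⟩,⟨0,[(6,0)]⟩⟩ ⟨false,0,⟨0,[(2,0),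
  (6,0),(5,0),(14,0)]⟩,⟨2,[(1,1),(4,0),(20,0),(0,1),(2,2)]⟩⟩,.o ⟨false,0,⟨0,[(19,0)]⟩,⟨1,[(9,1),(13,
  0),(8,0)]⟩⟩]⟩)) (.S ⟨1,0,[0,1,0,0,0,0,0,1],[0,0,1],[1,0,0,-1,0,0,0,1],(⟨0,[(20,0)]⟩,⟨0,[(19,0)]⟩),
  ⟨0,[(6,0),(1,0),(5,0),(6,1),(11,0)]⟩,.k,.k,⟨false,1,⟨2,[(2,0),(4,0),(9,0),(14,1)]⟩,⟨0,[(30,0)]⟩⟩,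
  ⟨true,0,⟨0,[(34,0)]⟩,⟨0,[]⟩⟩,⟨true,0,⟨0,[]⟩,⟨0,[(34,0)]⟩⟩,⟨false,0,⟨0,[(30,0)]⟩,⟨2,[(2,0),(4,0),
  (9,0),(14,1)]⟩⟩,[.a ⟨true,0,⟨0,[(15,0)]⟩,⟨0,[(1,0),(12,0)]⟩⟩ ⟨false,1,⟨2,[(2,0),(0,0),(1,0),(25,
  0)]⟩,⟨0,[(4,0),(25,0)]⟩⟩ ⟨true,0,⟨0,[(5,0)]⟩,⟨0,[(1,0)]⟩⟩,.o ⟨false,1,⟨1,[(15,1),(6,0),(9,0)]⟩,⟨3,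
  [(0,0),(0,1),(5,0),(6,2),(11,0)]⟩⟩,.a ⟨true,0,⟨0,[(8,0)]⟩,⟨1,[(9,0),(4,0),(2,0)]⟩⟩ ⟨false,1,⟨0,
  [(3,0)]⟩,⟨0,[(4,0),(25,0)]⟩⟩ ⟨true,0,⟨0,[(5,0)]⟩,⟨0,[(4,0)]⟩⟩,.a ⟨true,0,⟨0,[(17,0)]⟩,⟨0,[(14,
  0)]⟩⟩ ⟨true,1,⟨2,[(2,0),(0,0),(1,0),(25,0)]⟩,⟨0,[(0,0)]⟩⟩ ⟨false,1,⟨1,[(5,1),(25,0),(0,0)]⟩,⟨0,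
  [(1,0)]⟩⟩]⟩))))) (.S ⟨1,0,[0,0,0,0,0,0,0,1],[0,0,1],[0,1,0,0,0,0,0,1],(⟨0,[(16,0)]⟩,⟨0,[(15,0)]⟩),
  ⟨0,[(2,0),(1,0),(5,0),(6,1),(11,0)]⟩,.k,.k,⟨true,0,⟨0,[(30,0)]⟩,⟨0,[]⟩⟩,⟨false,1,⟨1,[(6,0),(0,0),
  (20,0)]⟩,⟨0,[]⟩⟩,⟨false,0,⟨0,[(26,0)]⟩,⟨0,[(25,0),(2,0)]⟩⟩,⟨true,0,⟨0,[(26,0)]⟩,⟨0,[(25,0)]⟩⟩,[.a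
  ⟨true,0,⟨0,[(0,0),(3,0)]⟩,⟨0,[(3,0),(0,0),(5,0),(12,0)]⟩⟩ ⟨false,0,⟨0,[(0,0),(23,0)]⟩,⟨0,[(4,0),
  (7,0),(15,0)]⟩⟩ ⟨true,0,⟨0,[(0,0)]⟩,⟨0,[(3,0),(0,0),(18,0)]⟩⟩,.o ⟨false,1,⟨2,[(0,1),(3,1),(6,0),
  (10,0),(5,1)]⟩,⟨0,[(12,0)]⟩⟩,.a ⟨true,0,⟨0,[(4,0)]⟩,⟨1,[(5,0),(4,0),(2,0)]⟩⟩ ⟨false,0,⟨0,[(0,0)]⟩,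
  ⟨0,[(4,0),(7,0),(15,0)]⟩⟩ ⟨true,0,⟨0,[(0,0)]⟩,⟨0,[(4,0),(7,0)]⟩⟩,.a ⟨true,0,⟨0,[(13,0)]⟩,⟨0,[(10,
  0)]⟩⟩ ⟨true,0,⟨0,[(0,0),(23,0)]⟩,⟨0,[(3,0),(0,0),(18,0)]⟩⟩ ⟨false,1,⟨1,[(0,1),(26,0),(0,0)]⟩,⟨0,
  [(3,0),(0,0),(18,0)]⟩⟩]⟩)))) (.Q [0,0,0,0,0,-1,0,0,0,1,-1] (.ed true [0,1,1] .k) (.I [0,1,-2,-1,1,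
  0,0,-1] (.R ⟨2,true,false,false,[0,1],[0,1,1],[0,1],(⟨0,[]⟩,⟨0,[]⟩),(⟨0,[(15,0),(3,0)]⟩,⟨0,[(1,
  0)]⟩),⟨0,[]⟩,.k,.k,.k,.k,.k,.k,⟨false,1,⟨0,[(0,0)]⟩,⟨0,[(2,0),(10,0)]⟩⟩,⟨true,0,⟨0,[(3,0)]⟩,⟨0,
  [(13,0)]⟩⟩,⟨false,1,⟨1,[(24,1),(1,0),(0,0)]⟩,⟨0,[(22,0)]⟩⟩,⟨true,0,⟨0,[(2,0),(21,0)]⟩,⟨0,[(11,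
  0)]⟩⟩,⟨true,0,⟨0,[(23,0)]⟩,⟨1,[(12,0),(0,0)]⟩⟩,⟨false,0,⟨0,[(2,0)]⟩,⟨0,[(11,0),(12,0),(2,0)]⟩⟩,
  []⟩) (.R ⟨2,true,false,false,[0,1],[0,1,1],[0,0,1,1],(⟨0,[]⟩,⟨0,[]⟩),(⟨0,[(15,0),(3,0)]⟩,⟨0,[(1,
  0)]⟩),⟨0,[]⟩,.k,.k,.k,.k,.k,.k,⟨false,1,⟨1,[(3,1),(7,1),(14,0),(0,0)]⟩,⟨4,[(0,0),(1,3),(1,0),(4,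
  1),(11,0),(2,4)]⟩⟩,⟨true,0,⟨0,[(3,0)]⟩,⟨0,[(13,0)]⟩⟩,⟨false,1,⟨1,[(5,0),(0,0),(20,0)]⟩,⟨0,[]⟩⟩,
  ⟨true,0,⟨0,[(2,0),(21,0)]⟩,⟨0,[(11,0)]⟩⟩,⟨true,0,⟨0,[(25,0)]⟩,⟨0,[(24,0)]⟩⟩,⟨false,0,⟨0,[(2,0)]⟩,
  ⟨0,[(11,0),(12,0),(2,0)]⟩⟩,[]⟩)) (.I [0,0,0,1,0,0,0,-1] (.I [1,0,0,0,0,0,0,1] (.I [1,0,1,0,0,0,0,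
  -1] (.I [0,0,0,0,0,0,0,1] (.S ⟨1,0,[0,0,0,0,0,0,0,1],[0,0,1],[1,1],(⟨0,[(18,0)]⟩,⟨0,[(17,0)]⟩),⟨0,
  [(4,0),(1,0),(5,0),(6,1),(11,0)]⟩,.k,.k,⟨true,0,⟨0,[(3,0),(23,0)]⟩,⟨0,[(0,0)]⟩⟩,⟨false,1,⟨1,[(8,
  0),(0,0),(20,0)]⟩,⟨0,[]⟩⟩,⟨false,0,⟨0,[(3,0)]⟩,⟨0,[(2,0),(24,0),(2,0)]⟩⟩,⟨true,0,⟨0,[(28,0)]⟩,⟨0,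
  [(27,0)]⟩⟩,[.a ⟨true,0,⟨0,[(5,0),(21,0)]⟩,⟨0,[(1,0),(10,0)]⟩⟩ ⟨false,0,⟨0,[(26,0)]⟩,⟨1,[(8,0),(0,
  0),(20,0)]⟩⟩ ⟨true,0,⟨0,[(0,0)]⟩,⟨0,[(1,0)]⟩⟩,.o ⟨false,1,⟨2,[(5,1),(7,0),(10,0),(2,1),(2,1)]⟩,⟨0,
  [(14,0)]⟩⟩,.a ⟨true,0,⟨0,[(6,0)]⟩,⟨1,[(7,0),(4,0),(2,0)]⟩⟩ ⟨false,0,⟨0,[]⟩,⟨1,[(8,0),(0,0),(20,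
  0)]⟩⟩ ⟨true,0,⟨0,[(0,0)]⟩,⟨0,[(3,0),(23,0)]⟩⟩,.a ⟨true,0,⟨0,[(15,0)]⟩,⟨0,[(12,0)]⟩⟩ ⟨true,0,⟨0,
  [(26,0)]⟩,⟨1,[(15,0),(0,0)]⟩⟩ ⟨false,1,⟨1,[(2,1),(26,0),(0,0)]⟩,⟨0,[(1,0)]⟩⟩]⟩) (.N [0,0,1] 0 ⟨0,
  [(2,0)]⟩ ⟨0,[(0,0)]⟩ .k)) (.S ⟨1,0,[0,0,0,0,0,0,0,1],[0,0,1],[1,1],(⟨0,[(17,0)]⟩,⟨0,[(16,0)]⟩),⟨0,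
  [(3,0),(1,0),(5,0),(6,1),(11,0)]⟩,.k,.k,⟨true,0,⟨0,[(2,0),(23,0)]⟩,⟨0,[(0,0),(29,0)]⟩⟩,⟨false,1,
  ⟨1,[(7,0),(0,0),(20,0)]⟩,⟨0,[]⟩⟩,⟨false,0,⟨0,[(2,0)]⟩,⟨0,[(1,0),(24,0),(2,0)]⟩⟩,⟨true,0,⟨0,[(27,
  0)]⟩,⟨0,[(26,0)]⟩⟩,[.e ⟨false,0,⟨0,[(25,0)]⟩,⟨1,[(7,0),(0,0),(20,0)]⟩⟩ ⟨false,0,⟨0,[(0,0)]⟩,⟨1,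
  [(13,1),(0,1),(13,0),(0,0)]⟩⟩,.o ⟨false,1,⟨2,[(4,1),(7,0),(10,0),(2,1),(2,1)]⟩,⟨0,[(13,0)]⟩⟩,.a
  ⟨true,0,⟨0,[(5,0)]⟩,⟨1,[(6,0),(4,0),(2,0)]⟩⟩ ⟨false,0,⟨0,[]⟩,⟨1,[(7,0),(0,0),(20,0)]⟩⟩ ⟨true,0,⟨0,
  [(0,0),(29,0)]⟩,⟨0,[(2,0),(23,0)]⟩⟩,.e ⟨true,0,⟨0,[(25,0)]⟩,⟨1,[(14,0),(0,0)]⟩⟩ ⟨true,0,⟨0,[(0,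
  0)]⟩,⟨0,[(13,0),(0,0)]⟩⟩]⟩)) (.Q [0,0,0,1,0,0,-1,-1,0,0,-1] (.p false [0,0,1] [] (⟨0,[(16,0)]⟩,⟨0,
  [(15,0)]⟩) .k 0 (⟨0,[]⟩,⟨0,[]⟩) .k .k) (.R ⟨2,true,false,true,[0,1],[0,0,1],[0,1],(⟨0,[]⟩,⟨0,[]⟩),
  (⟨0,[(17,0)]⟩,⟨0,[(16,0)]⟩),⟨0,[]⟩,.k,.k,.k,.k,.k,.k,⟨true,0,⟨0,[(1,0)]⟩,⟨0,[(4,0),(10,0),(10,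
  0)]⟩⟩,⟨false,0,⟨0,[(5,0)]⟩,⟨3,[(6,1),(0,0),(0,0),(10,0),(8,1)]⟩⟩,⟨false,1,⟨1,[(26,1),(1,0),(0,
  0)]⟩,⟨0,[(24,0)]⟩⟩,⟨true,0,⟨0,[(4,0),(21,1)]⟩,⟨0,[(0,0)]⟩⟩,⟨true,0,⟨0,[(25,0)]⟩,⟨1,[(14,0),(0,
  0)]⟩⟩,⟨false,0,⟨0,[(4,0),(21,0)]⟩,⟨0,[(13,0),(15,0)]⟩⟩,[]⟩) (.R ⟨0,false,false,true,[1,0,-1],[2,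
  -1,-1],[1,0,0,0,0,0,0,-1],(⟨0,[(16,0)]⟩,⟨0,[(17,0)]⟩),(⟨0,[(16,0),(3,0)]⟩,⟨0,[(3,0)]⟩),⟨0,[(3,
  0)]⟩,.k,.k,.k,.k,.k,.k,⟨true,0,⟨0,[(24,0)]⟩,⟨0,[(26,0)]⟩⟩,⟨false,0,⟨0,[(11,0),(2,0)]⟩,⟨1,[(19,0),
  (8,0)]⟩⟩,⟨true,0,⟨0,[]⟩,⟨0,[(31,0)]⟩⟩,⟨false,0,⟨1,[(0,1),(0,1),(4,0),(4,0),(2,0)]⟩,⟨1,[(19,0),(7,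
  1),(1,0)]⟩⟩,⟨false,0,⟨0,[]⟩,⟨0,[]⟩⟩,⟨false,0,⟨0,[]⟩,⟨0,[]⟩⟩,[.o ⟨false,0,⟨1,[(1,1),(4,0),(4,0),(2,
  0),(11,1)]⟩,⟨0,[(4,0),(14,0)]⟩⟩,.o ⟨false,0,⟨0,[(0,0),(0,1),(4,0)]⟩,⟨1,[(4,0),(7,0),(6,1),(7,
  0)]⟩⟩,.a ⟨true,0,⟨1,[(6,0),(4,0),(2,0)]⟩,⟨0,[(5,0)]⟩⟩ ⟨true,0,⟨0,[(1,0)]⟩,⟨1,[(0,0),(3,0),(10,1),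
  (6,0),(2,0)]⟩⟩ ⟨false,0,⟨1,[(0,1),(0,3),(4,0),(4,0),(2,0)]⟩,⟨3,[(4,2),(1,1),(5,0),(6,2),(7,0),(1,
  0)]⟩⟩,.o ⟨false,0,⟨0,[(15,0)]⟩,⟨1,[(5,1),(13,0),(8,0)]⟩⟩]⟩))) (.S ⟨1,0,[0,1,1,1,0,0,0,-1],[1,1,
  -1],[0,0,1,1,0,0,0,-1],(⟨0,[(14,0),(4,0)]⟩,⟨0,[(1,0),(1,0),(5,0),(6,1),(11,0)]⟩),⟨0,[(14,0)]⟩,.k,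
  .k,⟨false,1,⟨1,[(5,0),(0,0),(20,0)]⟩,⟨0,[]⟩⟩,⟨true,0,⟨0,[(29,0)]⟩,⟨0,[]⟩⟩,⟨true,0,⟨0,[(25,0)]⟩,⟨0,
  [(24,0)]⟩⟩,⟨false,0,⟨0,[(25,0)]⟩,⟨0,[(24,0),(2,0)]⟩⟩,[.o ⟨false,0,⟨0,[(11,0),(13,0)]⟩,⟨1,[(0,1),
  (2,1),(13,0),(9,0)]⟩⟩,.a ⟨true,0,⟨0,[(3,0),(5,0),(1,0),(10,0)]⟩,⟨0,[(0,0),(2,0)]⟩⟩ ⟨false,1,⟨0,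
  [(3,0),(7,0),(13,0),(1,0)]⟩,⟨0,[(0,0),(22,0)]⟩⟩ ⟨true,0,⟨0,[(3,0),(7,0),(10,0)]⟩,⟨0,[(0,0)]⟩⟩,.a
  ⟨true,0,⟨0,[(9,0)]⟩,⟨0,[(12,0)]⟩⟩ ⟨true,0,⟨0,[(3,0),(7,0),(10,0)]⟩,⟨0,[(0,0),(22,0)]⟩⟩ ⟨false,0,
  ⟨0,[(3,0),(7,0),(10,0)]⟩,⟨1,[(0,1),(25,0),(0,0)]⟩⟩,.a ⟨true,0,⟨1,[(4,0),(4,0),(2,0)]⟩,⟨0,[(3,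
  0)]⟩⟩ ⟨false,1,⟨0,[(3,0),(7,0),(13,0),(1,0)]⟩,⟨0,[(0,0)]⟩⟩ ⟨true,0,⟨0,[(3,0),(7,0),(13,0)]⟩,⟨0,
  [(0,0)]⟩⟩]⟩))))

theorem ok15 : chk K t15 r0 = true := by decide +kernel

noncomputable def t4 : Tre :=
  .I [0,1,-1,0,0,0,0,1] t2 t3

theorem ok4 : chk K t4 r4 = true :=
  chk_I (e' := [1,-1,1,0,0,0,0,-1]) (by decide +kernel) (by decide +kernel) ok2 ok3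

noncomputable def t5 : Tre :=
  .Q [0,0,0,0,0,0,1,1,0,0,1] (.p true [0,0,1] [] (⟨0,[(15,0)]⟩,⟨0,[(14,0)]⟩) .k 0 (⟨0,[]⟩,⟨0,[]⟩)
  .k .k) t1 t4

theorem ok5 : chk K t5 l3 = true :=
  chk_Q (e' := [0,0,0,0,0,0,-1,-1,0,0,-1]) (by decide +kernel) (by decide +kernel) ok1 ok4

noncomputable def t9 : Tre :=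
  .I [0,-1,2,2,0,0,0,-1] t7 t8

theorem ok9 : chk K t9 r6 = true :=
  chk_I (e' := [1,1,-2,-2,0,0,0,1]) (by decide +kernel) (by decide +kernel) ok7 ok8

noncomputable def t10 : Tre :=
  .Q [0,0,0,0,0,0,1,1,0,-1,1] (.p true [0,0,1] [1] (⟨0,[(15,0)]⟩,⟨0,[(14,0)]⟩) .k 1 (⟨0,[]⟩,⟨0,[]⟩)
  .k .k) t6 t9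

theorem ok10 : chk K t10 r3 = true :=
  chk_Q (e' := [0,0,0,0,0,0,-1,-1,0,1,-1]) (by decide +kernel) (by decide +kernel) ok6 ok9

noncomputable def t11 : Tre :=
  .Q [0,0,0,1,0,0,-1,-1,0,0,-1] (.p false [0,0,1] [] (⟨0,[(14,0)]⟩,⟨0,[(13,0)]⟩) .k 0 (⟨0,[]⟩,⟨0,
  []⟩) .k .k) t5 t10

theorem ok11 : chk K t11 l2 = true :=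
  chk_Q (e' := [0,0,0,-1,0,0,1,1,0,0,1]) (by decide +kernel) (by decide +kernel) ok5 ok10

noncomputable def t13 : Tre :=
  .Q [0,1,0,-1,0,0,1,1,0,0,1] (.p true [0,0,1] [] (⟨0,[(13,0)]⟩,⟨0,[(12,0)]⟩) .k 0 (⟨0,[]⟩,⟨0,[]⟩)
  .k .k) t11 t12

theorem ok13 : chk K t13 r1 = true :=
  chk_Q (e' := [0,-1,0,1,0,0,-1,-1,0,0,-1]) (by decide +kernel) (by decide +kernel) ok11 ok12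

noncomputable def t14 : Tre :=
  .I [1,-1,0,1,0,0,0,-1] t0 t13

theorem ok14 : chk K t14 l0 = true :=
  chk_I (e' := [0,1,0,-1,0,0,0,1]) (by decide +kernel) (by decide +kernel) ok0 ok13

noncomputable def t16 : Tre :=
  .Q [0,0,0,0,0,0,-1,0,0,0,-1] (.p false [0,0,1] [] (⟨0,[(11,0)]⟩,⟨0,[(10,0)]⟩) .k 0 (⟨0,[]⟩,⟨0,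
  []⟩) .k .k) t14 t15

theorem ok16 : chk K t16 base = true :=
  chk_Q (e' := [0,0,0,0,0,0,1,0,0,0,1]) (by decide +kernel) (by decide +kernel) ok14 ok15

theorem closed {p a b c J l q : ℤ} {D dl : ℝ} {Cl : ℤ → ℤ → ℤ → ℤ → ℝ → Prop}
    (W : World p a b c J 1 l q D dl Cl) (g : G0 p a b c J D)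
    {N X R : ℤ} {I : ℝ} (hk : KCl p l Cl N X R I) (kz : KF a b D (X + (1 : ℤ) * I) (X + (1 : ℤ) * I + R) I)
    {Ne Xe : ℤ} {Ie : ℝ} (he : EFac p 1 D Cl 1 Ne Xe Ie)
    (hkf : ∀ kf ∈ (kfY 1 [0,0,0,0,0,0,1,0,0,0,1]), KOk p l Cl 1
      (xv [1, a, b, c, p, J, X, R, Xe] [D, I, Ie]) N kf)
    (h0 : 1 ≤ (c : ℝ))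
    (h1 : 1 ≤ (a : ℝ) - (b : ℝ))
    (h2 : 1 ≤ 1 - (a : ℝ) + (b : ℝ) + (c : ℝ))
    (h3 : 0 < 1 + (p : ℝ) - 3 * D)
    (h4 : 1 ≤ 2 * (a : ℝ) - (b : ℝ))
    (h5 : 1 ≤ 2 - (J : ℝ))
    (h6 : 0 < -(b : ℝ) - (X : ℝ) + D - I)
    (h7 : 0 < -2 * (X : ℝ) + D - 2 * I) : False := by
  have g1 := g.a2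
  have g2 := g.b2
  have g3 := g.pa
  have g4 := g.pb
  have g5 := g.J1
  have g6 := g.JD
  have g7 := g.D2
  have g8 := g.ca
  have g9 := g.ca'
  have k1 := kz.I0
  have k2 := kz.ID
  have k3 := kz.z1
  have k4 := kz.z2
  have k5 := kz.s1
  have k6 := kz.s2
  have e1 := he.I0
  have e2 := he.ID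
  have e3 := he.x0
  have e4 := he.xp
  push_cast at *
  refine (val_E W.toBase hk he (row := [1]) (by simp) (by simp) (kfY 1 [0,0,0,0,0,0,1,0,0,0,1])).sound W rfl (Nk := N)
    (fun kf _ _ => ⟨_, rfl⟩) hkf ?_ ok16
  · simp only [base, List.forall_mem_cons, List.not_mem_nil, false_imp_iff, implies_true,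
      and_true, hld, xv, evg_cons, evg_nil, List.map_cons, List.map_nil, List.cons_append,
      List.nil_append, if_true, if_false, Bool.false_eq_true]
    push_cast
    refine ⟨?_, ?_, ?_, ?_, ?_, ?_, ?_, ?_, ?_, ?_, ?_, ?_, ?_, ?_, ?_, ?_, ?_, ?_, ?_, ?_, ?_, ?_, ?_, ?_, ?_, ?_⟩ <;> linarith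

end Helper48.Y.Y11_c2_P1
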