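import Pool.Agent.Helper25.KG.S1b
import Pool.Agent.Helper11.CT.Clo

set_option autoImplicit false
set_option linter.all false

namespace Helper48.Y.Y11_c35_P1_m1n1_CB

open Helper25.KG Helper25.KW Helper55.KE Helper11.CT

noncomputable def K : Cls :=
  cE 1 [1] (kfY 1 [0,0,0,0,0,0,1,0,0,0,1])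

noncomputable def base : List Con :=
  [(false,[0,0,0,0,0,0,-2,0,0,1,-2]),
  (false,[0,0,0,0,0,-1,0,0,0,1,-1]),
  (false,[0,0,0,0,0,-1,0,0,0,0,1]),
  (false,[0,0,0,0,1,0,0,0,-1,0,0,-1]),
  (false,[0,0,0,0,0,0,0,0,1,0,0,1]),
  (false,[0,0,0,0,0,0,0,0,0,1,0,-1]),
  (false,[0,0,0,0,0,0,0,0,0,0,0,1]),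
  (false,[0,0,-1,0,0,0,-1,0,0,1,-1]),
  (false,[0,1,0,0,0,0,1,1,0,0,1]),
  (false,[0,1,0,0,0,0,-1,-1,0,0,-1]),
  (false,[0,0,1,0,0,0,1,0,0,0,1]),
  (false,[0,0,1,0,0,0,-1,0,0,0,-1]),
  (false,[0,0,0,0,0,0,0,0,0,1,-1]),
  (false,[0,0,0,0,0,0,0,0,0,0,1]),
  (true,[2,0,0,0,0,-1]),
  (false,[0,0,0,0,1,0,0,0,0,-2]),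
  (false,[0,0,0,0,0,-1,0,0,0,1]),
  (true,[0,0,0,0,0,1]),
  (true,[0,2,-1]),
  (true,[-1,-2,0,0,1]),
  (true,[1,-1,1]),
  (true,[1,1,-1]),
  (false,[1,0,0,0,1,0,0,0,0,-3]),
  (true,[0,2,-1]),
  (true,[1,-1,1]),
  (true,[0,1,0,-1]),
  (true,[0,0,0,1]),
  (true,[0,0,-2,0,1]),
  (true,[0,-2,0,0,1]),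
  (true,[-1,0,1]),
  (true,[-1,1])]

noncomputable def l0 : List Con := (true, [0,1,0,0,0,0,0,1]) :: base

noncomputable def r0 : List Con := (true, [1,-1,0,0,0,0,0,-1]) :: base

noncomputable def l1 : List Con := (true, [0,0,1,2,-1]) :: l0

noncomputable def r1 : List Con := (true, [1,0,-1,-2,1]) :: l0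

noncomputable def l2 : List Con := (true, [1,1,-1,-1,0,0,0,1]) :: r1

noncomputable def r2 : List Con := (true, [0,-1,1,1,0,0,0,-1]) :: r1

noncomputable def t0 : Tre :=
  (.Q [0,0,2,0,-1,0,0,0,0,1] (.pp false [-1,1]) (.S ⟨1,3,[],[1,-1],[],(⟨0,[(19,0)]⟩,⟨0,[(20,0)]⟩),
  ⟨0,[(4,0),(0,0)]⟩,.k,(.r (-2) ⟨0,[(28,1),(1,0),(0,0)]⟩ ⟨1,[(1,1),(11,0),(0,0)]⟩),⟨false,0,⟨3,[(1,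
  1),(11,0),(0,0),(16,1)]⟩,⟨1,[(28,1),(1,0),(0,0)]⟩⟩,⟨true,0,⟨0,[(29,0)]⟩,⟨0,[(28,0)]⟩⟩,⟨true,(-1),
  ⟨0,[(1,0)]⟩,⟨1,[(28,3),(1,0),(0,0)]⟩⟩,⟨false,0,⟨1,[(1,1),(28,0),(0,0)]⟩,⟨0,[(28,1),(2,0)]⟩⟩,[.e
  ⟨false,1,⟨1,[(6,0),(0,0),(22,0)]⟩,⟨0,[]⟩⟩ ⟨false,1,⟨0,[(30,0)]⟩,⟨1,[(13,0),(0,0)]⟩⟩,.o ⟨false,1,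
  ⟨1,[(6,0),(0,0),(23,0)]⟩,⟨2,[(1,0),(22,0),(0,0),(2,1)]⟩⟩,.o ⟨false,0,⟨1,[(13,0),(0,0)]⟩,⟨1,[(18,
  0),(11,0)]⟩⟩,.a ⟨true,(-1),⟨0,[(0,0)]⟩,⟨0,[(30,0)]⟩⟩ ⟨false,1,⟨1,[(30,0),(0,0)]⟩,⟨1,[(13,0),(0,
  0)]⟩⟩ ⟨true,1,⟨0,[(30,0)]⟩,⟨3,[(0,2),(0,1),(23,0),(2,3)]⟩⟩]⟩) (.S ⟨1,3,[],[1,-1],[0,0,-1,-1],(⟨0,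
  [(19,0)]⟩,⟨0,[(20,0)]⟩),⟨0,[(4,0),(0,0)]⟩,.k,(.r (-2) ⟨0,[(28,1),(1,0),(0,0)]⟩ ⟨1,[(1,1),(11,0),
  (0,0)]⟩),⟨false,1,⟨1,[(6,0),(0,0),(23,0)]⟩,⟨0,[]⟩⟩,⟨true,0,⟨0,[(29,0)]⟩,⟨0,[(28,0)]⟩⟩,⟨true,0,⟨0,
  [(29,0)]⟩,⟨0,[(28,0)]⟩⟩,⟨false,0,⟨1,[(1,1),(28,0),(0,0)]⟩,⟨0,[(28,1),(2,0)]⟩⟩,[.fa ⟨true,1,⟨1,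
  [(28,1),(1,0),(0,0)]⟩,⟨0,[(1,0),(21,0),(4,0)]⟩⟩ ⟨false,1,⟨0,[(30,0)]⟩,⟨1,[(13,0),(0,0)]⟩⟩,.o
  ⟨false,1,⟨1,[(6,0),(0,0),(23,0)]⟩,⟨2,[(1,0),(22,0),(0,0),(2,1)]⟩⟩,.o ⟨false,0,⟨1,[(13,0),(0,0)]⟩,
  ⟨1,[(18,0),(11,0)]⟩⟩,.o ⟨false,0,⟨0,[(13,0),(0,0)]⟩,⟨0,[(0,0)]⟩⟩]⟩))

theorem ok0 : chk K t0 l1 = true := by decide +kernel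

noncomputable def t1 : Tre :=
  (.Q [0,0,0,0,0,0,-1,-1,0,1,-1] (.p false [0,0,1] [1] (⟨0,[(16,0)]⟩,⟨0,[(15,0)]⟩) .k 1 (⟨0,[]⟩,⟨0,
  []⟩) .k .k) (.I [0,1,0,1,0,0,0,-1] (.Q [0,0,0,0,0,0,-1,0,0,0,-1] (.p false [0,0,1] [] (⟨0,[(18,
  0)]⟩,⟨0,[(17,0)]⟩) .k 0 (⟨0,[]⟩,⟨0,[]⟩) .k .k) (.Q [0,-1,0,-1,1,0,1,1,0,-1,1] (.p true [0,0,1]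
  [1] (⟨0,[(19,0)]⟩,⟨0,[(18,0)]⟩) .k 1 (⟨0,[]⟩,⟨0,[]⟩) .k .k) (.Q [0,0,0,1,0,0,-1,-1,0,0,-1] (.p
  false [0,0,1] [] (⟨0,[(20,0)]⟩,⟨0,[(19,0)]⟩) .k 0 (⟨0,[]⟩,⟨0,[]⟩) .k .k) (.S ⟨1,0,[0,1,1,1,0,0,0,
  -1],[1,1,-1],[0,0,1,1,0,0,0,-1],(⟨0,[(20,0),(4,0)]⟩,⟨0,[(10,0)]⟩),⟨0,[(20,0)]⟩,.k,.k,⟨false,1,⟨1,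
  [(11,0),(0,0),(23,0)]⟩,⟨0,[]⟩⟩,⟨true,0,⟨0,[(38,0)]⟩,⟨0,[]⟩⟩,⟨true,0,⟨0,[(34,0)]⟩,⟨0,[(33,0)]⟩⟩,
  ⟨false,0,⟨0,[(34,0)]⟩,⟨3,[(6,1),(11,0),(0,0),(16,1)]⟩⟩,[.o ⟨false,0,⟨2,[(0,1),(2,0),(15,0),(11,
  0)]⟩,⟨0,[(1,0)]⟩⟩,.o ⟨false,0,⟨0,[(0,0)]⟩,⟨7,[(1,3),(4,1),(9,3),(1,0),(0,0),(3,1)]⟩⟩,.a ⟨true,0,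
  ⟨0,[(15,0)]⟩,⟨0,[(18,0)]⟩⟩ ⟨true,0,⟨0,[(3,0),(24,0)]⟩,⟨0,[(5,0)]⟩⟩ ⟨false,0,⟨0,[(3,0),(24,0)]⟩,⟨0,
  [(1,0),(13,0)]⟩⟩,.o ⟨false,0,⟨0,[(2,0)]⟩,⟨0,[(1,0),(1,0)]⟩⟩]⟩) (.Q [0,0,0,2,0,0,-1,-1,0,0,-1] (.p
  false [0,0,1] [] (⟨0,[(21,0)]⟩,⟨0,[(20,0)]⟩) .k 0 (⟨0,[]⟩,⟨0,[]⟩) .k .k) (.I [0,0,-2,-2,1,0,0,1]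
  (.R ⟨1,true,false,false,[0,0,1],[0,1],[0,1,0,0,0,0,0,1],(⟨0,[(23,0)]⟩,⟨0,[(22,0)]⟩),(⟨0,[(27,0)]⟩,
  ⟨0,[(26,0)]⟩),⟨0,[(12,0)]⟩,.k,.k,.k,.k,(.r (-1) ⟨0,[(0,0)]⟩ ⟨1,[(1,1),(18,2),(0,0)]⟩),.k,⟨true,0,
  ⟨0,[(2,0),(1,0),(26,0)]⟩,⟨0,[(5,0),(24,1)]⟩⟩,⟨false,1,⟨3,[(10,0),(6,1),(14,0),(4,2)]⟩,⟨0,[(20,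
  0)]⟩⟩,⟨true,0,⟨0,[(40,0)]⟩,⟨0,[]⟩⟩,⟨false,1,⟨3,[(1,0),(3,1),(0,0),(3,0),(14,0),(12,2)]⟩,⟨0,[(2,
  0)]⟩⟩,⟨false,0,⟨0,[(36,0)]⟩,⟨3,[(8,1),(11,0),(0,0),(16,1)]⟩⟩,⟨true,0,⟨0,[(1,0)]⟩,⟨0,[(2,0),(32,
  0)]⟩⟩,[]⟩) (.R ⟨1,true,false,false,[0,0,1],[0,1],[0,1,0,0,0,0,0,1],(⟨0,[(23,0)]⟩,⟨0,[(22,0)]⟩),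
  (⟨0,[(27,0)]⟩,⟨0,[(26,0)]⟩),⟨0,[(12,0)]⟩,.k,.k,.k,.k,(.x 0 ⟨5,[(0,1),(1,1),(17,4),(0,0),(0,5),(4,
  11),(2,1),(1,1),(2,1)]⟩ ⟨0,[(4,0),(7,0),(11,0),(12,0)]⟩),.k,⟨true,0,⟨1,[(0,0),(1,2),(14,2),(13,0),
  (0,0),(2,0)]⟩,⟨3,[(0,1),(5,1),(13,1),(4,0),(4,1),(7,0)]⟩⟩,⟨false,1,⟨3,[(10,0),(6,1),(14,0),(4,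
  2)]⟩,⟨0,[(20,0)]⟩⟩,⟨true,0,⟨0,[(40,0)]⟩,⟨0,[]⟩⟩,⟨false,1,⟨3,[(1,0),(3,1),(0,0),(3,0),(14,0),(12,
  2)]⟩,⟨0,[(2,0)]⟩⟩,⟨false,0,⟨0,[(36,0)]⟩,⟨3,[(8,1),(11,0),(0,0),(16,1)]⟩⟩,⟨true,0,⟨0,[(1,0)]⟩,⟨0,
  [(2,0),(32,0)]⟩⟩,[]⟩)) (.Q [0,1,0,-1,0,0,1,1,0,-1,1] (.p true [0,0,1] [1] (⟨0,[(22,0)]⟩,⟨0,[(21,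
  0)]⟩) .k 1 (⟨0,[]⟩,⟨0,[]⟩) .k .k) (.I [1,1,0,0,0,0,0,-1] (.I [0,1,0,0,0,0,0,-1] (.Q [0,0,-1,0,1,0,
  1,0,0,-1,1] (.p true [0,0,1] [1] (⟨0,[(25,0)]⟩,⟨0,[(24,0)]⟩) .k 1 (⟨0,[]⟩,⟨0,[]⟩) .k .k) (.S ⟨1,0,
  [0,0,0,0,0,0,0,-1],[1,0,-1],[0,1,0,0,0,0,0,-1],(⟨0,[(25,0)]⟩,⟨0,[(26,0)]⟩),⟨0,[(14,0)]⟩,.k,.k,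
  ⟨true,0,⟨0,[(43,0)]⟩,⟨0,[]⟩⟩,⟨false,1,⟨1,[(16,0),(0,0),(23,0)]⟩,⟨0,[]⟩⟩,⟨false,0,⟨0,[(39,0)]⟩,⟨3,
  [(11,1),(11,0),(0,0),(16,1)]⟩⟩,⟨true,0,⟨0,[(39,0)]⟩,⟨0,[(38,0)]⟩⟩,[.a ⟨true,0,⟨0,[(9,0)]⟩,⟨0,[(5,
  0),(33,0)]⟩⟩ ⟨true,0,⟨0,[(1,0)]⟩,⟨0,[(10,0),(22,1),(5,0)]⟩⟩ ⟨false,1,⟨1,[(1,1),(38,0),(0,0)]⟩,⟨0,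
  [(10,0),(22,0),(5,0)]⟩⟩,.o ⟨false,1,⟨1,[(9,1),(18,0),(12,0)]⟩,⟨0,[(3,0),(35,0)]⟩⟩,.o ⟨false,0,⟨0,
  [(7,0)]⟩,⟨3,[(0,1),(15,0),(0,0),(5,1),(4,0)]⟩⟩,.o ⟨false,0,⟨0,[(24,0)]⟩,⟨0,[(0,0)]⟩⟩]⟩) (.I [0,0,
  -2,-2,1] (.S ⟨1,0,[0,0,-1,-1],[1,-1],[1,1,-1,-2],(⟨0,[(30,0)]⟩,⟨0,[(31,0)]⟩),⟨0,[(15,0),(0,0)]⟩,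
  .k,(.r (-1) ⟨0,[(0,0)]⟩ ⟨0,[(24,0),(0,0),(14,1)]⟩),⟨true,0,⟨0,[(39,0)]⟩,⟨0,[(40,0)]⟩⟩,⟨false,1,⟨1,
  [(17,0),(0,0),(23,0)]⟩,⟨0,[]⟩⟩,⟨false,0,⟨0,[]⟩,⟨1,[(17,0),(0,0),(23,0)]⟩⟩,⟨true,0,⟨0,[(40,0)]⟩,⟨0,
  [(39,0)]⟩⟩,[.e ⟨false,1,⟨1,[(0,0),(11,0),(24,0)]⟩,⟨0,[(34,0),(5,1)]⟩⟩ ⟨false,1,⟨1,[(0,0),(40,0)]⟩,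
  ⟨1,[(24,0),(0,0),(14,1)]⟩⟩,.o ⟨false,1,⟨3,[(12,1),(11,0),(0,0),(16,1)]⟩,⟨2,[(1,0),(2,0),(4,0),(25,
  0),(0,0),(3,2)]⟩⟩,.o ⟨false,0,⟨1,[(24,0),(0,0)]⟩,⟨1,[(29,0),(11,0)]⟩⟩,.a ⟨true,(-1),⟨0,[(1,0),(22,
  0)]⟩,⟨0,[(41,0)]⟩⟩ ⟨false,1,⟨0,[(0,0)]⟩,⟨1,[(24,0),(0,0),(8,1),(5,3)]⟩⟩ ⟨true,1,⟨1,[(0,0),(40,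
  0)]⟩,⟨3,[(1,4),(2,1),(4,1),(14,2),(11,0),(3,3)]⟩⟩]⟩) (.I [0,-1,0,1,0,0,0,1] (.S ⟨1,0,[0,0,0,0,0,0,
  0,-1],[1,0,-1],[],(⟨0,[(27,0)]⟩,⟨0,[(28,0)]⟩),⟨0,[(16,0)]⟩,.k,.k,⟨true,0,⟨6,[(0,2),(4,0),(0,0),(7,
  1),(0,0)]⟩,⟨0,[(4,0)]⟩⟩,⟨false,1,⟨1,[(18,0),(0,0),(23,0)]⟩,⟨0,[]⟩⟩,⟨false,0,⟨0,[(0,0)]⟩,⟨3,[(3,1),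
  (7,1),(1,1),(11,1),(4,0),(12,0)]⟩⟩,⟨true,0,⟨0,[(41,0)]⟩,⟨0,[(40,0)]⟩⟩,[.e ⟨false,1,⟨1,[(18,0),(0,
  0),(22,0)]⟩,⟨0,[]⟩⟩ ⟨false,1,⟨1,[(3,1),(38,0),(0,0)]⟩,⟨6,[(0,2),(4,0),(0,0),(7,1),(0,0)]⟩⟩,.o
  ⟨false,1,⟨1,[(11,1),(18,0),(12,0)]⟩,⟨1,[(0,0),(4,1),(4,0)]⟩⟩,.o ⟨false,0,⟨0,[(9,0)]⟩,⟨0,[(8,0),(1,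
  0)]⟩⟩,.a ⟨true,(-1),⟨0,[(2,0)]⟩,⟨0,[(25,0),(16,0)]⟩⟩ ⟨false,1,⟨1,[(42,0),(0,0)]⟩,⟨1,[(25,0),(0,
  0)]⟩⟩ ⟨true,1,⟨1,[(3,1),(38,0),(0,0)]⟩,⟨1,[(1,0),(0,0),(2,0),(6,0)]⟩⟩]⟩) (.Q [1,1,0,0,-1,0,0,0,1,
  -1,0,1] (.p true [0,0,0,0,1] [1] (⟨0,[(21,0)]⟩,⟨0,[(20,0)]⟩) .k 1 (⟨0,[]⟩,⟨0,[]⟩) .k .k) (.Q [1,0,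
  0,0,-1,0,0,0,1,0,0,1] (.p true [0,0,0,0,1] [] (⟨0,[(22,0)]⟩,⟨0,[(21,0)]⟩) .k 0 (⟨0,[]⟩,⟨0,[]⟩) .k
  .k) (.R ⟨2,true,false,true,[0,1],[0,0,0,0,1],[1,1],(⟨0,[]⟩,⟨0,[]⟩),(⟨0,[(23,0)]⟩,⟨0,[(22,0)]⟩),⟨0,
  []⟩,.k,.k,.k,(.r 0 ⟨4,[(3,1),(8,0),(3,0),(3,0),(0,0),(23,0),(0,0)]⟩ ⟨3,[(15,1),(4,0),(0,0),(22,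
  0)]⟩),.k,.k,⟨false,1,⟨1,[(20,0),(0,0),(22,0)]⟩,⟨0,[]⟩⟩,⟨true,(-1),⟨3,[(0,3),(26,0),(0,0),(17,1)]⟩,
  ⟨0,[(20,0)]⟩⟩,⟨false,1,⟨3,[(15,1),(4,0),(0,0),(22,0)]⟩,⟨1,[(3,0),(41,0)]⟩⟩,⟨true,(-1),⟨0,[(0,0),
  (41,0)]⟩,⟨0,[(20,0),(22,0)]⟩⟩,⟨true,0,⟨0,[(38,0)]⟩,⟨1,[(27,0),(0,0)]⟩⟩,⟨false,(-1),⟨0,[(0,0)]⟩,⟨1,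
  [(20,2),(0,0),(14,0)]⟩⟩,[]⟩) (.R ⟨1,false,false,false,[0,0,1],[1,0,0,0,-1],[1,0,0,-1,0,0,0,1],(⟨0,
  [(30,0)]⟩,⟨0,[(29,0)]⟩),(⟨0,[(22,0)]⟩,⟨0,[(23,0)]⟩),⟨0,[(19,0)]⟩,.k,.k,.k,.k,(.r (-1) ⟨12,[(8,0),
  (1,5),(3,0),(0,1),(1,5),(7,4),(18,4)]⟩ ⟨1,[(3,0),(1,1),(39,0)]⟩),.k,⟨true,0,⟨1,[(4,0),(5,0),(3,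
  0)]⟩,⟨1,[(3,0),(1,1),(39,0)]⟩⟩,⟨false,1,⟨0,[(20,0),(3,0)]⟩,⟨1,[(1,1),(25,1),(16,0),(0,0)]⟩⟩,
  ⟨false,1,⟨3,[(15,1),(11,0),(0,0),(16,1)]⟩,⟨0,[(43,0)]⟩⟩,⟨true,1,⟨0,[(0,0),(12,0)]⟩,⟨0,[(1,0),(7,
  0),(33,0)]⟩⟩,⟨true,0,⟨0,[]⟩,⟨0,[(47,0)]⟩⟩,⟨true,1,⟨3,[(0,0),(2,0),(8,1),(0,1),(6,2),(3,1),(20,
  0)]⟩,⟨0,[(1,0),(7,0)]⟩⟩,[.o ⟨false,1,⟨0,[(0,0)]⟩,⟨4,[(1,1),(19,2),(17,0),(5,0)]⟩⟩,.o ⟨false,2,⟨1,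
  [(0,0),(19,1),(0,0),(23,0)]⟩,⟨0,[(1,0)]⟩⟩,.o ⟨false,1,⟨0,[(10,0),(1,0)]⟩,⟨0,[(11,0)]⟩⟩,.a ⟨true,0,
  ⟨0,[(27,0)]⟩,⟨0,[(24,0)]⟩⟩ ⟨false,1,⟨0,[(10,0),(13,0)]⟩,⟨0,[(12,0),(24,0)]⟩⟩ ⟨true,1,⟨0,[(0,0),
  (23,0)]⟩,⟨0,[(1,0),(25,0)]⟩⟩]⟩)) (.Q [0,0,0,0,0,1,0,0,0,-1,0,1] (.ed false [0,1,0,0,1] .k) (.Q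
  [-1,0,0,-1,0,0,0,0,-1,1,0,-1] (.p false [0,0,0,0,1] [1] (⟨0,[(23,0)]⟩,⟨0,[(22,0)]⟩) .k 1 (⟨0,[]⟩,
  ⟨0,[]⟩) .k .k) (.Q [0,0,2,0,-1,0,0,0,-1,1,0,-1] (.p false [0,0,0,0,1] [1] (⟨0,[(24,0)]⟩,⟨0,[(23,
  0)]⟩) .k 1 (⟨0,[]⟩,⟨0,[]⟩) .k .k) (.R ⟨0,false,false,true,[1,0,0,0,-1],[0,1],[1,1,1],(⟨0,[(24,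
  0)]⟩,⟨0,[(25,0)]⟩),(⟨0,[(36,0)]⟩,⟨0,[(35,0)]⟩),⟨0,[(2,0)]⟩,.k,.k,(.r (-1) ⟨7,[(17,3),(4,0),(0,0),
  (14,0),(7,1),(2,1)]⟩ ⟨1,[(5,0),(16,0),(0,0)]⟩),(.r (-1) ⟨7,[(17,3),(4,0),(0,0),(14,0),(7,1),(2,
  1)]⟩ ⟨1,[(5,0),(16,0),(0,0)]⟩),.k,.k,⟨false,1,⟨3,[(17,1),(4,0),(0,0),(22,0)]⟩,⟨0,[(45,0)]⟩⟩,⟨true,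
  1,⟨1,[(23,1),(10,0),(11,0)]⟩,⟨0,[(0,0)]⟩⟩,⟨false,0,⟨1,[(29,0),(0,0)]⟩,⟨1,[(38,0),(7,0)]⟩⟩,⟨true,0,
  ⟨2,[(5,0),(17,2),(16,0),(0,0),(0,0),(2,0)]⟩,⟨0,[(1,0)]⟩⟩,⟨false,0,⟨0,[]⟩,⟨0,[]⟩⟩,⟨false,0,⟨0,[]⟩,
  ⟨0,[]⟩⟩,[.o ⟨false,0,⟨2,[(5,0),(34,0),(0,0),(0,0),(2,0)]⟩,⟨3,[(17,1),(11,0),(0,0),(16,1)]⟩⟩,.e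
  ⟨false,0,⟨0,[]⟩,⟨1,[(22,0),(0,0),(22,0)]⟩⟩ ⟨false,1,⟨1,[(23,1),(10,0),(10,1),(0,0)]⟩,⟨0,[(1,0)]⟩⟩,
  .a ⟨true,0,⟨0,[(0,0),(45,0)]⟩,⟨0,[(23,0)]⟩⟩ ⟨false,0,⟨1,[(29,0),(0,0)]⟩,⟨1,[(46,0),(0,0)]⟩⟩ ⟨true,
  0,⟨2,[(5,0),(17,2),(16,0),(0,0),(0,0),(2,0)]⟩,⟨0,[(1,0)]⟩⟩,.o ⟨false,0,⟨3,[(0,2),(21,0),(18,0),(4,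
  0)]⟩,⟨1,[(23,1),(10,0),(11,0)]⟩⟩]⟩) (.R ⟨0,false,false,true,[1,0,0,0,-1],[0,1],[-1],(⟨0,[(24,0)]⟩,
  ⟨0,[(25,0)]⟩),(⟨0,[(36,0)]⟩,⟨0,[(35,0)]⟩),⟨0,[(2,0)]⟩,.k,.k,(.r (-1) ⟨15,[(0,2),(2,2),(13,7),(20,
  0),(7,0),(2,4)]⟩ ⟨1,[(5,0),(16,0),(0,0)]⟩),(.r (-1) ⟨15,[(0,2),(2,2),(13,7),(20,0),(7,0),(2,4)]⟩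
  ⟨1,[(5,0),(16,0),(0,0)]⟩),.k,.k,⟨true,1,⟨0,[(0,0),(0,0),(37,0)]⟩,⟨0,[(5,0),(38,0)]⟩⟩,⟨false,1,⟨0,
  [(0,0)]⟩,⟨18,[(1,12),(1,1),(1,5),(8,0),(4,3),(2,3),(4,0),(1,6)]⟩⟩,⟨false,1,⟨1,[(22,0),(0,0),(23,
  0)]⟩,⟨0,[]⟩⟩,⟨true,0,⟨3,[(0,0),(4,1),(17,2),(17,0),(0,1)]⟩,⟨0,[(1,0)]⟩⟩,⟨false,0,⟨0,[]⟩,⟨0,[]⟩⟩,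
  ⟨false,0,⟨0,[]⟩,⟨0,[]⟩⟩,[.o ⟨false,0,⟨2,[(5,0),(34,0),(0,0),(0,0),(2,0)]⟩,⟨3,[(17,1),(11,0),(0,0),
  (16,1)]⟩⟩,.e ⟨false,1,⟨1,[(38,0),(7,0)]⟩,⟨0,[(49,0)]⟩⟩ ⟨false,1,⟨1,[(0,1),(4,0),(16,0),(0,0)]⟩,⟨0,
  [(1,0)]⟩⟩,.a ⟨true,0,⟨0,[(1,0),(43,0)]⟩,⟨0,[(23,0)]⟩⟩ ⟨false,1,⟨1,[(22,0),(0,0),(14,0)]⟩,⟨0,[]⟩⟩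
  ⟨true,0,⟨3,[(0,0),(4,1),(17,2),(17,0),(0,1)]⟩,⟨0,[(1,0)]⟩⟩,.o ⟨false,0,⟨13,[(1,11),(3,5),(16,1),
  (6,0),(0,0),(10,3)]⟩,⟨3,[(0,1),(21,0),(0,2),(10,0)]⟩⟩]⟩)) (.Q [0,0,1,0,0,0,0,0,-1,0,0,-1] (.p
  false [0,0,0,0,1] [] (⟨0,[(24,0)]⟩,⟨0,[(23,0)]⟩) .k 0 (⟨0,[]⟩,⟨0,[]⟩) .k .k) (.R ⟨0,false,false,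
  true,[1,0,0,0,-1],[1,-1],[],(⟨0,[(24,0)]⟩,⟨0,[(25,0)]⟩),(⟨0,[(35,0)]⟩,⟨0,[(36,0)]⟩),⟨0,[(2,0)]⟩,
  .k,.k,(.r (-1) ⟨7,[(17,3),(4,0),(0,0),(14,0),(7,1),(2,1)]⟩ ⟨1,[(5,0),(16,0),(0,0)]⟩),(.r 0 ⟨4,[(5,
  1),(8,0),(3,0),(3,0),(0,0),(23,0),(0,0)]⟩ ⟨3,[(17,1),(4,0),(0,0),(22,0)]⟩),.k,.k,⟨true,0,⟨1,[(5,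
  0),(41,0)]⟩,⟨0,[(44,0)]⟩⟩,⟨false,0,⟨0,[(23,0)]⟩,⟨0,[(0,0),(45,0)]⟩⟩,⟨true,0,⟨0,[]⟩,⟨0,[(49,0)]⟩⟩,
  ⟨false,0,⟨3,[(1,1),(2,1),(1,0),(3,1),(12,1),(2,0),(20,0)]⟩,⟨1,[(0,1),(44,1),(0,0),(0,0)]⟩⟩,⟨false,
  0,⟨0,[]⟩,⟨0,[]⟩⟩,⟨false,0,⟨0,[]⟩,⟨0,[]⟩⟩,[.o ⟨false,0,⟨0,[(44,0)]⟩,⟨1,[(34,0),(10,1),(1,0)]⟩⟩,.a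
  ⟨true,0,⟨1,[(10,0),(4,0),(8,0),(0,0)]⟩,⟨0,[(45,0)]⟩⟩ ⟨false,1,⟨1,[(46,0),(0,0)]⟩,⟨0,[(49,0)]⟩⟩
  ⟨true,0,⟨3,[(1,1),(2,1),(1,0),(3,1),(12,1),(2,0),(11,0)]⟩,⟨0,[(0,0),(44,0)]⟩⟩,.e ⟨false,1,⟨1,[(22,
  0),(0,0),(23,0)]⟩,⟨0,[]⟩⟩ ⟨false,0,⟨3,[(1,1),(2,1),(1,0),(3,1),(12,1),(2,0),(11,0)]⟩,⟨1,[(0,1),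
  (44,1),(0,0),(0,0)]⟩⟩,.o ⟨false,0,⟨0,[(0,0)]⟩,⟨1,[(23,1),(10,0),(11,0)]⟩⟩]⟩) (.Q [1,-1,0,1,0,0,0,
  0,1,-1,0,1] (.p true [0,0,0,0,1] [1] (⟨0,[(25,0)]⟩,⟨0,[(24,0)]⟩) .k 1 (⟨0,[]⟩,⟨0,[]⟩) .k .k) (.Q
  [1,-1,0,0,0,0,0,0,1,-1,0,1] (.p true [0,0,0,0,1] [1] (⟨0,[(26,0)]⟩,⟨0,[(25,0)]⟩) .k 1 (⟨0,[]⟩,⟨0,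
  []⟩) .k .k) (.S ⟨1,0,[1],[0,0,0,0,1],[1,1],(⟨0,[(27,0)]⟩,⟨0,[(26,0)]⟩),⟨0,[(4,0),(17,0),(0,0)]⟩,
  .k,(.r (-1) ⟨3,[(19,1),(4,0),(0,0),(22,0)]⟩ ⟨4,[(7,1),(8,0),(3,0),(3,0),(0,0),(23,0),(0,0)]⟩),
  ⟨true,0,⟨0,[(51,0)]⟩,⟨0,[]⟩⟩,⟨false,1,⟨1,[(24,0),(0,0),(23,0)]⟩,⟨0,[]⟩⟩,⟨false,0,⟨0,[(47,0)]⟩,⟨3,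
  [(19,1),(11,0),(0,0),(16,1)]⟩⟩,⟨true,0,⟨0,[(47,0)]⟩,⟨0,[(46,0)]⟩⟩,[.o ⟨false,0,⟨1,[(0,0),(2,0),
  (42,0)]⟩,⟨3,[(5,2),(2,0),(0,0),(1,0),(12,0),(17,0),(0,0),(3,0)]⟩⟩,.o ⟨false,0,⟨0,[(0,0)]⟩,⟨0,[(24,
  0),(26,0)]⟩⟩,.o ⟨false,0,⟨2,[(0,1),(2,0),(42,0),(4,0)]⟩,⟨0,[(24,0)]⟩⟩,.a ⟨true,(-1),⟨1,[(0,0),(1,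
  0),(4,0),(0,0),(0,0),(2,0)]⟩,⟨0,[(5,0),(36,0)]⟩⟩ ⟨true,0,⟨0,[(42,0)]⟩,⟨1,[(31,0),(0,0)]⟩⟩ ⟨false,
  1,⟨1,[(48,0),(0,0)]⟩,⟨1,[(31,0),(0,0)]⟩⟩]⟩) (.K ⟨0,[1,0,0,0,-1],0,0,(⟨0,[(26,0)]⟩,⟨0,[(27,0)]⟩),
  .k,(.r (-1) ⟨7,[(19,3),(4,0),(0,0),(14,0),(7,1),(2,1)]⟩ ⟨1,[(7,0),(16,0),(0,0)]⟩),(.r 0 ⟨4,[(7,1),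
  (8,0),(3,0),(3,0),(0,0),(23,0),(0,0)]⟩ ⟨3,[(19,1),(4,0),(0,0),(22,0)]⟩),.k,.k,[⟨0,[(1,0),(10,0),
  (3,0)]⟩,⟨0,[(0,0),(40,0)]⟩,⟨0,[(3,0),(42,0)]⟩,⟨0,[(0,0)]⟩]⟩)) (.R ⟨0,false,false,false,[1,0,0,0,
  -1],[0,1],[1,1,1],(⟨0,[(25,0)]⟩,⟨0,[(26,0)]⟩),(⟨0,[(37,0)]⟩,⟨0,[(36,0)]⟩),⟨0,[(3,0)]⟩,.k,.k,(.r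
  (-1) ⟨7,[(18,3),(4,0),(0,0),(14,0),(7,1),(2,1)]⟩ ⟨1,[(6,0),(16,0),(0,0)]⟩),(.r (-1) ⟨7,[(18,3),(4,
  0),(0,0),(14,0),(7,1),(2,1)]⟩ ⟨1,[(6,0),(16,0),(0,0)]⟩),.k,.k,⟨true,0,⟨0,[(45,0)]⟩,⟨1,[(6,0),(41,
  0)]⟩⟩,⟨false,1,⟨1,[(1,1),(33,0),(11,0)]⟩,⟨2,[(0,1),(3,0),(1,0),(33,0)]⟩⟩,⟨false,0,⟨1,[(30,0),(0,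
  0)]⟩,⟨1,[(39,0),(7,0)]⟩⟩,⟨true,0,⟨0,[(2,0)]⟩,⟨0,[(0,0)]⟩⟩,⟨false,0,⟨0,[]⟩,⟨0,[]⟩⟩,⟨false,0,⟨0,[]⟩,
  ⟨0,[]⟩⟩,[.a ⟨true,0,⟨0,[(46,0)]⟩,⟨1,[(11,0),(4,0),(8,0),(0,0)]⟩⟩ ⟨false,0,⟨0,[(50,0)]⟩,⟨1,[(47,0),
  (0,0)]⟩⟩ ⟨true,0,⟨9,[(1,5),(0,3),(3,2),(32,0),(2,1),(7,1)]⟩,⟨0,[(0,0),(39,0)]⟩⟩,.o ⟨false,1,⟨1,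
  [(35,0),(10,1),(1,0)]⟩,⟨0,[(45,0)]⟩⟩,.o ⟨false,1,⟨0,[(23,0)]⟩,⟨25,[(1,24),(3,3),(0,5),(0,3),(3,3),
  (12,0),(15,3),(1,9),(6,4)]⟩⟩,.e ⟨false,0,⟨0,[]⟩,⟨1,[(23,0),(0,0),(23,0)]⟩⟩ ⟨false,1,⟨1,[(2,1),(44,
  0),(0,0)]⟩,⟨0,[(0,0),(39,0)]⟩⟩]⟩)))) (.Q [0,0,0,0,0,0,0,0,-1,1,0,-1] (.p false [0,0,0,0,1] [1]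
  (⟨0,[(23,0)]⟩,⟨0,[(22,0)]⟩) .k 1 (⟨0,[]⟩,⟨0,[]⟩) .k .k) (.S ⟨1,0,[-1,1],[1,0,0,0,-1],[-1],(⟨0,
  [(23,0)]⟩,⟨0,[(24,0)]⟩),⟨0,[(1,0)]⟩,.k,(.r (-1) ⟨7,[(16,3),(4,0),(0,0),(14,0),(7,1),(2,1)]⟩ ⟨1,
  [(4,0),(16,0),(0,0)]⟩),⟨false,1,⟨1,[(21,0),(0,0),(23,0)]⟩,⟨0,[]⟩⟩,⟨true,0,⟨0,[(48,0)]⟩,⟨0,[]⟩⟩,
  ⟨true,0,⟨0,[(44,0)]⟩,⟨0,[(43,0)]⟩⟩,⟨false,0,⟨0,[(44,0)]⟩,⟨3,[(16,1),(11,0),(0,0),(16,1)]⟩⟩,[.o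
  ⟨false,0,⟨1,[(0,1),(4,0),(0,0),(2,0),(29,0),(0,0),(3,1)]⟩,⟨1,[(22,1),(10,0),(12,0)]⟩⟩,.e ⟨false,1,
  ⟨1,[(37,0),(7,0)]⟩,⟨0,[(48,0)]⟩⟩ ⟨false,1,⟨11,[(21,4),(0,4),(14,0),(7,5),(2,1)]⟩,⟨0,[]⟩⟩,.a ⟨true,
  0,⟨0,[(0,0)]⟩,⟨0,[(22,0)]⟩⟩ ⟨false,1,⟨1,[(21,0),(0,0),(14,0)]⟩,⟨0,[]⟩⟩ ⟨true,0,⟨0,[(48,0)]⟩,⟨0,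
  []⟩⟩,.o ⟨false,0,⟨36,[(0,35),(2,5),(0,8),(0,5),(3,5),(11,0),(16,5),(1,13),(6,6)]⟩,⟨1,[(22,1),(10,
  0),(11,0)]⟩⟩]⟩) (.Q [-1,1,0,0,0,0,0,0,-1,1,0,-1] (.p false [0,0,0,0,1] [1] (⟨0,[(24,0)]⟩,⟨0,[(23,
  0)]⟩) .k 1 (⟨0,[]⟩,⟨0,[]⟩) .k .k) (.Q [1,-1,0,0,0,0,0,0,1,0,0,1] (.p true [0,0,0,0,1] [] (⟨0,[(25,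
  0)]⟩,⟨0,[(24,0)]⟩) .k 0 (⟨0,[]⟩,⟨0,[]⟩) .k .k) (.S ⟨1,0,[-1,1],[1,0,0,0,-1],[-1],(⟨0,[(25,0)]⟩,⟨0,
  [(26,0)]⟩),⟨0,[(3,0)]⟩,.k,(.r (-1) ⟨7,[(18,3),(4,0),(0,0),(14,0),(7,1),(2,1)]⟩ ⟨1,[(6,0),(16,0),
  (0,0)]⟩),⟨false,1,⟨1,[(23,0),(0,0),(23,0)]⟩,⟨0,[]⟩⟩,⟨true,0,⟨0,[(50,0)]⟩,⟨0,[]⟩⟩,⟨true,0,⟨0,[(46,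
  0)]⟩,⟨0,[(45,0)]⟩⟩,⟨false,0,⟨0,[(46,0)]⟩,⟨3,[(18,1),(11,0),(0,0),(16,1)]⟩⟩,[.a ⟨true,0,⟨0,[(1,
  0)]⟩,⟨0,[(0,0)]⟩⟩ ⟨false,1,⟨11,[(23,4),(0,4),(14,0),(7,5),(2,1)]⟩,⟨0,[]⟩⟩ ⟨true,0,⟨0,[(50,0)]⟩,⟨0,
  [(40,0)]⟩⟩,.o ⟨false,1,⟨3,[(1,1),(21,1),(11,0),(3,0)]⟩,⟨0,[(2,0)]⟩⟩,.o ⟨false,1,⟨0,[(23,0)]⟩,⟨0,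
  [(2,0)]⟩⟩,.e ⟨false,1,⟨1,[(39,0),(7,0)]⟩,⟨1,[(30,0),(0,0)]⟩⟩ ⟨false,1,⟨11,[(23,4),(0,4),(14,0),(7,
  5),(2,1)]⟩,⟨0,[(40,0)]⟩⟩]⟩) (.R ⟨1,false,false,false,[0,0,1],[0,0,0,0,1],[1,0,0,-1,0,0,0,1],(⟨0,
  [(33,0)]⟩,⟨0,[(32,0)]⟩),(⟨0,[(26,0)]⟩,⟨0,[(25,0)]⟩),⟨0,[(22,0)]⟩,.k,.k,.k,.k,(.r (-1) ⟨28,[(11,4),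
  (1,8),(4,4),(0,10),(0,8),(7,3),(10,2),(7,11)]⟩ ⟨0,[(15,0),(24,0)]⟩),.k,⟨true,0,⟨1,[(7,0),(5,0),(3,
  0)]⟩,⟨0,[(15,0),(24,0)]⟩⟩,⟨false,0,⟨0,[(2,0),(24,0)]⟩,⟨1,[(0,1),(29,1),(16,0),(0,0)]⟩⟩,⟨false,1,
  ⟨3,[(18,1),(11,0),(0,0),(16,1)]⟩,⟨0,[(46,0)]⟩⟩,⟨true,0,⟨0,[(2,0),(13,0)]⟩,⟨0,[(0,0),(11,0),(33,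
  0)]⟩⟩,⟨true,0,⟨0,[]⟩,⟨0,[(50,0)]⟩⟩,⟨true,0,⟨3,[(2,3),(3,0),(8,1),(0,1),(10,1),(20,0)]⟩,⟨0,[(0,0),
  (11,0)]⟩⟩,[.o ⟨false,0,⟨0,[(2,0)]⟩,⟨4,[(0,0),(22,3),(15,0),(10,0)]⟩⟩,.o ⟨false,1,⟨1,[(24,1),(10,
  0),(12,0)]⟩,⟨0,[(0,0)]⟩⟩,.o ⟨false,1,⟨0,[(13,0),(1,0)]⟩,⟨0,[(14,0)]⟩⟩,.a ⟨true,0,⟨0,[(30,0)]⟩,⟨0,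
  [(27,0)]⟩⟩ ⟨false,1,⟨0,[(13,0),(13,0)]⟩,⟨0,[(15,0),(24,0)]⟩⟩ ⟨true,0,⟨0,[(2,0),(24,0)]⟩,⟨0,[(0,0),
  (29,0)]⟩⟩]⟩)) (.R ⟨1,false,false,true,[0,0,1],[1,0,0,0,-1],[1,1,0,-1,0,0,0,1],(⟨0,[(32,0)]⟩,⟨0,
  [(31,0)]⟩),(⟨0,[(24,0)]⟩,⟨0,[(25,0)]⟩),⟨0,[(21,0)]⟩,.k,.k,.k,.k,(.r (-1) ⟨12,[(10,0),(1,5),(3,0),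
  (0,1),(1,5),(7,4),(18,4)]⟩ ⟨1,[(5,0),(1,1),(39,0)]⟩),.k,⟨true,0,⟨1,[(6,0),(5,0),(3,0)]⟩,⟨1,[(5,0),
  (1,1),(39,0)]⟩⟩,⟨false,1,⟨0,[(22,0),(3,0)]⟩,⟨0,[(0,0),(10,0),(2,0)]⟩⟩,⟨true,0,⟨0,[(44,0)]⟩,⟨0,
  [(45,0)]⟩⟩,⟨false,1,⟨0,[(3,0),(24,0)]⟩,⟨0,[(0,0),(10,0),(33,0)]⟩⟩,⟨false,0,⟨0,[]⟩,⟨1,[(22,0),(0,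
  0),(23,0)]⟩⟩,⟨false,1,⟨5,[(3,3),(1,0),(8,3),(0,1),(3,0),(2,1),(3,1),(14,0)]⟩,⟨0,[(0,0),(10,0)]⟩⟩,
  [.o ⟨false,1,⟨0,[(22,0),(26,0)]⟩,⟨0,[(0,0)]⟩⟩,.o ⟨false,1,⟨3,[(3,2),(2,0),(0,0),(1,0),(12,0),(17,
  0),(0,0),(3,0)]⟩,⟨0,[(1,0)]⟩⟩,.o ⟨false,1,⟨0,[(12,0),(1,0)]⟩,⟨0,[(13,0)]⟩⟩,.a ⟨true,0,⟨0,[(29,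
  0)]⟩,⟨0,[(26,0)]⟩⟩ ⟨true,0,⟨0,[(16,0)]⟩,⟨0,[(14,0),(24,0)]⟩⟩ ⟨false,1,⟨0,[(3,0),(9,0),(26,0)]⟩,⟨0,
  [(0,0),(28,0)]⟩⟩]⟩)))))))) (.Q [0,0,-1,0,1,0,1,0,0,-1,1] (.p true [0,0,1] [1] (⟨0,[(25,0)]⟩,⟨0,
  [(24,0)]⟩) .k 1 (⟨0,[]⟩,⟨0,[]⟩) .k .k) (.I [1,1,1,0,-1,0,0,1] (.S ⟨1,0,[0,1,0,0,0,0,0,-1],[1,0,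
  -1],[0,0,0,0,0,0,0,-1],(⟨0,[(26,0)]⟩,⟨0,[(27,0)]⟩),⟨0,[(15,0)]⟩,.k,.k,⟨false,1,⟨1,[(17,0),(0,0),
  (23,0)]⟩,⟨0,[]⟩⟩,⟨true,0,⟨0,[(44,0)]⟩,⟨0,[]⟩⟩,⟨true,0,⟨0,[(40,0)]⟩,⟨0,[(39,0)]⟩⟩,⟨false,0,⟨0,[(40,
  0)]⟩,⟨3,[(12,1),(11,0),(0,0),(16,1)]⟩⟩,[.o ⟨false,0,⟨0,[(23,0)]⟩,⟨0,[(7,0),(32,0)]⟩⟩,.a ⟨true,0,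
  ⟨0,[(10,0)]⟩,⟨0,[(6,0),(33,0)]⟩⟩ ⟨true,1,⟨0,[(3,0),(38,0)]⟩,⟨0,[(0,0)]⟩⟩ ⟨false,1,⟨0,[(1,0),(8,
  0)]⟩,⟨1,[(2,0),(10,0)]⟩⟩,.o ⟨false,0,⟨0,[(8,0)]⟩,⟨3,[(1,1),(15,0),(0,0),(5,1),(4,0)]⟩⟩,.o ⟨false,
  0,⟨0,[(25,0)]⟩,⟨0,[(1,0)]⟩⟩]⟩) (.Q [0,0,0,0,0,-2,0,0,0,0,1] (.p true [0,0,1] [] (⟨0,[(27,0)]⟩,⟨0,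
  [(26,0)]⟩) .k 0 (⟨0,[]⟩,⟨0,[]⟩) .k .k) (.S ⟨1,0,[0,1,-1,-1,0,0,0,1],[0,-1,1],[1,0,-1,-2,0,0,0,1],
  (⟨0,[(17,0)]⟩,⟨0,[(27,0),(4,0)]⟩),⟨0,[(0,0)]⟩,.k,(.r (-1) ⟨6,[(3,1),(2,2),(5,1),(0,2),(8,2),(14,
  0),(4,2)]⟩ ⟨1,[(10,1),(14,0),(0,0),(8,1),(5,1)]⟩),⟨false,1,⟨3,[(13,1),(11,0),(0,0),(16,1)]⟩,⟨0,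
  [(41,0)]⟩⟩,⟨true,0,⟨0,[(45,0)]⟩,⟨0,[]⟩⟩,⟨true,0,⟨0,[]⟩,⟨0,[(45,0)]⟩⟩,⟨false,0,⟨0,[(41,0)]⟩,⟨3,
  [(13,1),(11,0),(0,0),(16,1)]⟩⟩,[.o ⟨false,0,⟨0,[(5,0)]⟩,⟨3,[(10,1),(0,1),(3,0),(21,0),(3,1),(1,
  2)]⟩⟩,.e ⟨false,1,⟨2,[(1,1),(1,1),(2,2),(15,2),(13,0),(0,0)]⟩,⟨1,[(10,1),(14,0),(0,0),(14,1)]⟩⟩
  ⟨false,1,⟨11,[(3,4),(4,0),(3,4),(0,2),(1,0),(7,0),(18,7)]⟩,⟨0,[(10,0),(24,0)]⟩⟩,.a ⟨true,0,⟨0,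
  [(25,0)]⟩,⟨0,[(22,0)]⟩⟩ ⟨false,1,⟨0,[(3,0),(9,0)]⟩,⟨0,[(10,0),(24,0),(5,0)]⟩⟩ ⟨true,0,⟨0,[(6,0),
  (2,0),(26,0),(4,0)]⟩,⟨0,[(10,0),(24,0)]⟩⟩,.o ⟨false,0,⟨0,[(5,0),(4,0),(24,1)]⟩,⟨3,[(15,0),(6,1),
  (14,0),(4,2)]⟩⟩]⟩) (.Q [0,0,-1,-1,0,0,-1,0,0,1,-1] (.p false [0,0,1] [1] (⟨0,[(28,0)]⟩,⟨0,[(27,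
  0)]⟩) .k 1 (⟨0,[]⟩,⟨0,[]⟩) .k .k) (.R ⟨0,false,false,true,[0,-1,1],[1,-1],[],(⟨0,[(18,0)]⟩,⟨0,[(1,
  0),(30,0)]⟩),(⟨0,[(32,0)]⟩,⟨0,[(33,0)]⟩),⟨0,[(1,0)]⟩,.k,.k,(.r (-1) ⟨12,[(0,2),(3,4),(2,2),(5,4),
  (0,5),(23,0),(4,5)]⟩ ⟨1,[(11,1),(14,0),(0,0),(8,1),(5,1)]⟩),.k,.k,.k,⟨true,0,⟨0,[(36,0),(5,0)]⟩,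
  ⟨0,[(41,0)]⟩⟩,⟨false,0,⟨0,[(23,0)]⟩,⟨3,[(3,1),(15,0),(0,0),(5,1),(4,0)]⟩⟩,⟨true,0,⟨0,[(11,0),(24,
  0)]⟩,⟨0,[(13,0)]⟩⟩,⟨false,0,⟨0,[(12,0)]⟩,⟨0,[(9,0),(32,0)]⟩⟩,⟨false,0,⟨0,[]⟩,⟨0,[]⟩⟩,⟨false,0,⟨0,
  []⟩,⟨0,[]⟩⟩,[.o ⟨false,0,⟨0,[(41,0)]⟩,⟨1,[(31,0),(10,1),(1,0)]⟩⟩,.a ⟨true,0,⟨1,[(7,0),(4,0),(8,0),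
  (0,0)]⟩,⟨0,[(42,0)]⟩⟩ ⟨false,1,⟨1,[(43,0),(0,0)]⟩,⟨0,[(46,0)]⟩⟩ ⟨true,0,⟨0,[(0,0)]⟩,⟨0,[(6,0),(4,
  0),(24,1),(5,0)]⟩⟩,.e ⟨false,1,⟨1,[(19,0),(0,0),(23,0)]⟩,⟨0,[]⟩⟩ ⟨false,0,⟨0,[(0,0)]⟩,⟨1,[(26,1),
  (4,0),(10,1),(1,0)]⟩⟩,.o ⟨false,0,⟨0,[(6,0),(4,0),(24,1)]⟩,⟨3,[(16,0),(6,1),(14,0),(4,2)]⟩⟩]⟩)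
  (.R ⟨0,false,false,true,[0,-1,1],[1,-1],[],(⟨0,[(18,0)]⟩,⟨0,[(1,0),(30,0)]⟩),(⟨0,[(32,0)]⟩,⟨0,
  [(33,0)]⟩),⟨0,[(1,0)]⟩,.k,.k,(.r (-1) ⟨6,[(4,1),(2,2),(5,1),(0,2),(8,2),(14,0),(4,2)]⟩ ⟨1,[(0,0),
  (10,1),(4,0),(9,0),(9,1),(5,0)]⟩),.k,.k,.k,⟨true,0,⟨0,[(36,0),(5,0)]⟩,⟨0,[(41,0)]⟩⟩,⟨false,0,⟨0,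
  [(23,0)]⟩,⟨3,[(3,1),(15,0),(0,0),(5,1),(4,0)]⟩⟩,⟨true,0,⟨0,[(11,0),(24,0)]⟩,⟨0,[(13,0)]⟩⟩,⟨false,
  0,⟨0,[(12,0)]⟩,⟨4,[(0,0),(2,0),(0,1),(4,0),(14,1),(6,0),(12,1)]⟩⟩,⟨false,0,⟨0,[]⟩,⟨0,[]⟩⟩,⟨false,
  0,⟨0,[]⟩,⟨0,[]⟩⟩,[.o ⟨false,0,⟨0,[(41,0)]⟩,⟨1,[(31,0),(10,1),(1,0)]⟩⟩,.e ⟨false,1,⟨1,[(43,0),(0,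
  0)]⟩,⟨0,[(46,0)]⟩⟩ ⟨false,1,⟨11,[(12,1),(1,5),(1,1),(6,7),(0,1),(18,4),(0,0)]⟩,⟨0,[(0,0)]⟩⟩,.a
  ⟨true,0,⟨0,[(26,0)]⟩,⟨0,[(23,0)]⟩⟩ ⟨false,1,⟨1,[(19,0),(0,0),(23,0)]⟩,⟨0,[]⟩⟩ ⟨true,0,⟨0,[(23,0),
  (17,0)]⟩,⟨0,[(0,0)]⟩⟩,.o ⟨false,0,⟨1,[(0,0),(5,0),(18,0),(0,0),(9,1)]⟩,⟨3,[(16,0),(6,1),(14,0),(4,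
  2)]⟩⟩]⟩)))) (.S ⟨1,0,[0,0,0,0,0,0,0,-1],[1,0,-1],[0,1,0,0,0,0,0,-1],(⟨0,[(25,0)]⟩,⟨0,[(26,0)]⟩),
  ⟨0,[(14,0)]⟩,.k,.k,⟨true,0,⟨0,[(43,0)]⟩,⟨0,[]⟩⟩,⟨false,1,⟨1,[(16,0),(0,0),(23,0)]⟩,⟨0,[]⟩⟩,⟨false,
  0,⟨0,[(39,0)]⟩,⟨3,[(11,1),(11,0),(0,0),(16,1)]⟩⟩,⟨true,0,⟨0,[(39,0)]⟩,⟨0,[(38,0)]⟩⟩,[.e ⟨false,1,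
  ⟨3,[(8,3),(2,1),(4,0),(0,0),(22,0)]⟩,⟨0,[(1,0)]⟩⟩ ⟨false,1,⟨1,[(2,1),(37,0),(0,0)]⟩,⟨1,[(1,0),(10,
  0)]⟩⟩,.o ⟨false,1,⟨1,[(9,1),(18,0),(12,0)]⟩,⟨0,[(3,0),(35,0)]⟩⟩,.o ⟨false,0,⟨0,[(7,0)]⟩,⟨0,[(6,0),
  (1,0)]⟩⟩,.a ⟨true,(-1),⟨0,[(0,0)]⟩,⟨0,[(23,0),(16,0)]⟩⟩ ⟨false,1,⟨1,[(2,1),(37,0),(0,0)]⟩,⟨2,[(1,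
  1),(19,0),(2,0),(8,1)]⟩⟩ ⟨true,1,⟨1,[(2,1),(37,0),(0,0)]⟩,⟨0,[(0,0),(2,0),(35,0)]⟩⟩]⟩))) (.S ⟨1,0,
  [0,0,0,0,0,0,0,1],[0,0,1],[1,1,1],(⟨0,[(24,0)]⟩,⟨0,[(23,0)]⟩),⟨0,[(13,0)]⟩,.k,.k,⟨true,0,⟨0,[(20,
  0),(0,0)]⟩,⟨0,[(0,0),(31,0)]⟩⟩,⟨false,1,⟨1,[(14,0),(0,0),(23,0)]⟩,⟨0,[]⟩⟩,⟨false,0,⟨0,[(6,0),(24,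
  0)]⟩,⟨5,[(0,1),(1,1),(1,1),(6,1),(26,2),(0,0)]⟩⟩,⟨true,0,⟨0,[(37,0)]⟩,⟨0,[(36,0)]⟩⟩,[.e ⟨false,0,
  ⟨0,[(41,0)]⟩,⟨1,[(38,0),(0,0)]⟩⟩ ⟨false,0,⟨0,[(0,0),(31,0)]⟩,⟨3,[(6,3),(2,1),(11,0),(0,0),(16,
  1)]⟩⟩,.o ⟨false,1,⟨0,[(4,0),(32,0)]⟩,⟨0,[(20,0)]⟩⟩,.o ⟨false,1,⟨0,[(4,0),(1,0)]⟩,⟨0,[(5,0)]⟩⟩,.a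
  ⟨true,0,⟨0,[(21,0)]⟩,⟨0,[(18,0)]⟩⟩ ⟨false,0,⟨0,[]⟩,⟨1,[(14,0),(0,0),(23,0)]⟩⟩ ⟨true,0,⟨0,[(0,0),
  (31,0)]⟩,⟨0,[(20,0),(0,0)]⟩⟩]⟩)) (.S ⟨1,0,[0,0,1,1,0,0,0,-1],[1,1,-1],[0,1,1,1,0,0,0,-1],(⟨0,[(22,
  0),(4,0)]⟩,⟨0,[(12,0)]⟩),⟨0,[(22,0)]⟩,.k,.k,⟨true,0,⟨0,[(40,0)]⟩,⟨0,[]⟩⟩,⟨false,1,⟨1,[(13,0),(0,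
  0),(23,0)]⟩,⟨0,[]⟩⟩,⟨false,0,⟨0,[(36,0)]⟩,⟨3,[(8,1),(11,0),(0,0),(16,1)]⟩⟩,⟨true,0,⟨0,[(36,0)]⟩,
  ⟨0,[(35,0)]⟩⟩,[.a ⟨true,0,⟨4,[(0,2),(4,1),(0,0),(3,0),(7,0)]⟩,⟨0,[(2,0)]⟩⟩ ⟨false,0,⟨0,[(5,0)]⟩,
  ⟨0,[(3,0),(13,0)]⟩⟩ ⟨true,0,⟨0,[(5,0),(24,0)]⟩,⟨0,[(7,0),(22,0)]⟩⟩,.a ⟨true,0,⟨0,[(0,0)]⟩,⟨2,[(1,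
  0),(16,1),(16,0)]⟩⟩ ⟨true,0,⟨0,[(5,0),(24,0)]⟩,⟨0,[(7,0),(22,0)]⟩⟩ ⟨false,1,⟨0,[(5,0),(32,0)]⟩,⟨0,
  [(7,0)]⟩⟩,.a ⟨true,0,⟨0,[(17,0)]⟩,⟨0,[(20,0)]⟩⟩ ⟨false,0,⟨0,[(5,0),(24,0)]⟩,⟨0,[(3,0),(13,0)]⟩⟩
  ⟨true,0,⟨0,[(5,0),(24,0)]⟩,⟨0,[(7,0)]⟩⟩,.o ⟨false,0,⟨0,[(4,0)]⟩,⟨0,[(3,0),(1,0)]⟩⟩]⟩)))) (.Q [0,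
  -1,0,0,1,0,1,1,0,-1,1] (.p true [0,0,1] [1] (⟨0,[(20,0)]⟩,⟨0,[(19,0)]⟩) .k 1 (⟨0,[]⟩,⟨0,[]⟩) .k
  .k) (.R ⟨2,true,false,true,[0,1],[1,1,-1],[1,1,1],(⟨0,[]⟩,⟨0,[]⟩),(⟨0,[(20,0),(4,0)]⟩,⟨0,[(10,
  0)]⟩),⟨0,[]⟩,.k,.k,.k,.k,.k,.k,⟨true,0,⟨0,[(5,0),(22,0)]⟩,⟨0,[(3,0),(24,0)]⟩⟩,⟨false,0,⟨0,[(15,
  0)]⟩,⟨1,[(18,1),(4,0),(11,0)]⟩⟩,⟨true,0,⟨0,[(33,0)]⟩,⟨0,[(34,0)]⟩⟩,⟨false,0,⟨0,[(4,0)]⟩,⟨0,[(0,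
  0)]⟩⟩,⟨false,0,⟨0,[]⟩,⟨1,[(11,0),(0,0),(23,0)]⟩⟩,⟨true,(-1),⟨0,[(1,0)]⟩,⟨0,[(0,0),(32,0)]⟩⟩,[]⟩)
  (.Q [0,-1,0,1,1,0,1,1,0,-1,1] (.p true [0,0,1] [1] (⟨0,[(21,0)]⟩,⟨0,[(20,0)]⟩) .k 1 (⟨0,[]⟩,⟨0,
  []⟩) .k .k) (.R ⟨2,true,false,true,[0,1],[1,0,-1],[1,1,1],(⟨0,[]⟩,⟨0,[]⟩),(⟨0,[(21,0)]⟩,⟨0,[(22,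
  0)]⟩),⟨0,[]⟩,.k,.k,.k,.k,.k,.k,⟨false,0,⟨1,[(0,0),(1,0),(3,1),(22,1)]⟩,⟨9,[(1,5),(2,3),(2,1),(11,
  5),(11,1),(4,6),(0,4)]⟩⟩,⟨true,(-1),⟨0,[(2,0),(3,0),(22,1)]⟩,⟨1,[(19,1),(4,0),(11,0)]⟩⟩,⟨true,0,
  ⟨0,[(34,0)]⟩,⟨0,[(35,0)]⟩⟩,⟨false,0,⟨1,[(1,0),(3,0),(1,0),(21,0)]⟩,⟨0,[(0,0)]⟩⟩,⟨false,0,⟨0,[]⟩,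
  ⟨1,[(12,0),(0,0),(23,0)]⟩⟩,⟨true,(-1),⟨0,[(1,0)]⟩,⟨7,[(0,3),(6,1),(9,3),(1,0),(0,0),(3,1)]⟩⟩,[]⟩)
  (.I [0,-1,-1,0,1,0,0,-1] (.S ⟨1,0,[0,1,0,0,0,0,0,-1],[1,0,-1],[0,0,0,0,0,0,0,-1],(⟨0,[(22,0)]⟩,⟨0,
  [(23,0)]⟩),⟨0,[(11,0)]⟩,.k,.k,⟨false,1,⟨1,[(13,0),(0,0),(23,0)]⟩,⟨0,[]⟩⟩,⟨true,0,⟨0,[(40,0)]⟩,⟨0,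
  []⟩⟩,⟨true,0,⟨0,[(36,0)]⟩,⟨0,[(35,0)]⟩⟩,⟨false,0,⟨0,[(36,0)]⟩,⟨3,[(8,1),(11,0),(0,0),(16,1)]⟩⟩,
  [.a ⟨true,(-1),⟨0,[(2,0)]⟩,⟨0,[(18,0),(19,0)]⟩⟩ ⟨false,1,⟨7,[(0,3),(4,3),(2,1),(4,0),(0,0),(22,
  0)]⟩,⟨0,[(7,0),(22,0),(5,0)]⟩⟩ ⟨true,0,⟨8,[(0,0),(0,2),(3,4),(2,0),(11,2),(11,0),(0,0)]⟩,⟨0,[(7,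
  0),(22,1),(5,0)]⟩⟩,.o ⟨false,0,⟨6,[(0,1),(0,1),(1,1),(2,0),(3,0),(19,1),(1,1)]⟩,⟨1,[(18,1),(6,0),
  (12,0)]⟩⟩,.o ⟨false,0,⟨0,[(4,0)]⟩,⟨1,[(0,0),(17,0),(1,0),(4,0)]⟩⟩,.e ⟨false,1,⟨0,[(0,0)]⟩,⟨0,[(9,
  0),(20,0)]⟩⟩ ⟨false,1,⟨7,[(0,3),(4,3),(2,1),(4,0),(0,0),(22,0)]⟩,⟨0,[(7,0),(22,1),(5,0)]⟩⟩]⟩) (.Q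
  [0,-1,0,2,1,0,1,1,0,-1,1] (.p true [0,0,1] [1] (⟨0,[(23,0)]⟩,⟨0,[(22,0)]⟩) .k 1 (⟨0,[]⟩,⟨0,[]⟩)
  .k .k) (.R ⟨1,true,false,false,[1,0,-1],[0,1],[1,0,0,-1,0,0,0,-1],(⟨0,[(23,0)]⟩,⟨0,[(24,0)]⟩),(⟨0,
  [(28,0)]⟩,⟨0,[(27,0)]⟩),⟨0,[(12,0)]⟩,.k,.k,.k,.k,(.r (-2) ⟨7,[(2,2),(3,4),(2,8),(11,2),(11,0),(4,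
  4),(0,3)]⟩ ⟨2,[(0,1),(0,2),(2,1),(26,2)]⟩),.k,⟨true,1,⟨1,[(2,2),(5,0),(12,2),(11,0),(4,1),(0,1)]⟩,
  ⟨2,[(0,1),(0,2),(2,1),(26,2)]⟩⟩,⟨false,2,⟨1,[(21,1),(4,0),(11,2)]⟩,⟨3,[(1,1),(0,0),(1,0),(13,1),
  (12,3)]⟩⟩,⟨false,1,⟨3,[(9,1),(11,0),(0,0),(16,1)]⟩,⟨0,[(37,0)]⟩⟩,⟨true,1,⟨3,[(0,1),(13,0),(0,0),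
  (3,1),(6,0)]⟩,⟨0,[(2,0)]⟩⟩,⟨true,0,⟨0,[]⟩,⟨0,[(41,0)]⟩⟩,⟨false,1,⟨0,[(0,0)]⟩,⟨2,[(2,1),(4,0),(1,
  1),(21,1)]⟩⟩,[]⟩) (.Q [0,0,-1,0,0,0,0,0,1,-1,0,1] (.p true [0,0,0,0,1] [1] (⟨0,[(17,0)]⟩,⟨0,[(16,
  0)]⟩) .k 1 (⟨0,[]⟩,⟨0,[]⟩) .k .k) (.Q [-1,0,0,0,1,0,0,0,-1,0,0,-1] (.p false [0,0,0,0,1] [] (⟨0,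
  [(18,0)]⟩,⟨0,[(17,0)]⟩) .k 0 (⟨0,[]⟩,⟨0,[]⟩) .k .k) (.R ⟨1,false,false,true,[0,0,1],[1,0,0,0,-1],
  [1,1,0,-1,0,0,0,1],(⟨0,[(26,0)]⟩,⟨0,[(25,0)]⟩),(⟨0,[(18,0)]⟩,⟨0,[(19,0)]⟩),⟨0,[(15,0)]⟩,.k,.k,.k,
  .k,(.r (-1) ⟨5,[(10,1),(0,1),(0,3),(27,0),(0,2)]⟩ ⟨1,[(2,2),(0,0),(19,2),(8,2),(1,1),(0,0),(3,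
  7)]⟩),.k,⟨true,0,⟨0,[(10,0),(22,0)]⟩,⟨1,[(2,2),(0,0),(19,2),(8,2),(1,1),(0,0),(3,7)]⟩⟩,⟨false,1,
  ⟨0,[(16,0),(3,0)]⟩,⟨0,[(1,0),(21,0)]⟩⟩,⟨true,0,⟨0,[(38,0)]⟩,⟨0,[(39,0)]⟩⟩,⟨true,0,⟨1,[(0,1),(3,0),
  (1,0)]⟩,⟨1,[(1,1),(1,0),(17,0),(1,0),(17,0)]⟩⟩,⟨false,0,⟨0,[]⟩,⟨1,[(16,0),(0,0),(23,0)]⟩⟩,⟨true,0,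
  ⟨0,[(0,0),(5,0)]⟩,⟨0,[(1,0),(8,0),(12,0),(9,0)]⟩⟩,[.o ⟨false,1,⟨0,[(16,0),(26,0)]⟩,⟨0,[(1,0),(31,
  0)]⟩⟩,.o ⟨false,1,⟨0,[(0,0)]⟩,⟨17,[(1,7),(1,1),(0,0),(1,0),(10,9),(5,1),(9,3),(1,3)]⟩⟩,.o ⟨false,
  1,⟨1,[(23,1),(4,0),(11,0)]⟩,⟨0,[(7,0)]⟩⟩,.a ⟨true,0,⟨0,[(23,0)]⟩,⟨0,[(20,0)]⟩⟩ ⟨true,0,⟨0,[(10,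
  0)]⟩,⟨0,[(8,0),(24,0)]⟩⟩ ⟨false,1,⟨0,[(0,0),(19,0)]⟩,⟨0,[(1,0),(21,0),(9,0)]⟩⟩]⟩) (.R ⟨2,true,
  false,true,[0,1],[0,0,0,0,1],[1,1],(⟨0,[]⟩,⟨0,[]⟩),(⟨0,[(19,0)]⟩,⟨0,[(18,0)]⟩),⟨0,[]⟩,.k,.k,.k,
  (.r 0 ⟨1,[(23,0),(0,0),(14,1)]⟩ ⟨3,[(11,1),(4,0),(0,0),(22,0)]⟩),.k,.k,⟨false,1,⟨1,[(16,0),(0,0),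
  (22,0)]⟩,⟨0,[]⟩⟩,⟨true,(-1),⟨3,[(0,3),(22,0),(0,0),(17,1)]⟩,⟨0,[(16,0)]⟩⟩,⟨false,1,⟨3,[(11,1),(4,
  0),(0,0),(22,0)]⟩,⟨0,[(33,0),(5,0)]⟩⟩,⟨true,(-1),⟨0,[(0,0),(37,0)]⟩,⟨0,[(16,0),(22,0)]⟩⟩,⟨true,0,
  ⟨0,[(34,0)]⟩,⟨1,[(23,0),(0,0)]⟩⟩,⟨false,(-1),⟨0,[(0,0)]⟩,⟨1,[(16,2),(0,0),(14,0)]⟩⟩,[]⟩)) (.Q [0,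
  0,0,0,0,1,0,0,0,-1,0,1] (.ed false [0,1,0,0,1] .k) (.Q [1,0,0,1,0,0,0,0,1,-1,0,1] (.p true [0,0,0,
  0,1] [1] (⟨0,[(19,0)]⟩,⟨0,[(18,0)]⟩) .k 1 (⟨0,[]⟩,⟨0,[]⟩) .k .k) (.Q [0,0,-1,0,0,0,0,0,1,0,0,1]
  (.p true [0,0,0,0,1] [] (⟨0,[(20,0)]⟩,⟨0,[(19,0)]⟩) .k 0 (⟨0,[]⟩,⟨0,[]⟩) .k .k) (.Q [-1,0,0,0,1,0,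
  1,1,-1,0,1,-1] (.p true [0,0,1] [0,0,0,0,1] (⟨0,[(28,0)]⟩,⟨0,[(27,0)]⟩) .k 2 (⟨0,[(21,0)]⟩,⟨0,
  [(20,0)]⟩) .k (.r 0 ⟨1,[(5,1),(28,0),(7,0)]⟩ ⟨3,[(10,3),(2,1),(11,0),(0,0),(16,1)]⟩)) (.R ⟨0,
  false,false,false,[1,0,0,0,-1],[0,1],[1,1,1],(⟨0,[(21,0)]⟩,⟨0,[(22,0)]⟩),(⟨0,[(33,0)]⟩,⟨0,[(32,
  0)]⟩),⟨0,[(3,0)]⟩,.k,.k,(.r (-1) ⟨7,[(14,3),(4,0),(0,0),(14,0),(7,1),(2,1)]⟩ ⟨0,[(2,0),(1,0)]⟩),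
  (.r (-1) ⟨7,[(14,3),(4,0),(0,0),(14,0),(7,1),(2,1)]⟩ ⟨0,[(2,0),(1,0)]⟩),.k,.k,⟨true,0,⟨0,[(41,
  0)]⟩,⟨0,[(36,0),(5,0)]⟩⟩,⟨false,1,⟨1,[(1,1),(29,0),(11,0)]⟩,⟨0,[(4,0)]⟩⟩,⟨false,0,⟨1,[(26,0),(0,
  0)]⟩,⟨1,[(35,0),(7,0)]⟩⟩,⟨true,0,⟨0,[(2,0)]⟩,⟨0,[(0,0),(6,0)]⟩⟩,⟨false,0,⟨0,[]⟩,⟨0,[]⟩⟩,⟨false,0,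
  ⟨0,[]⟩,⟨0,[]⟩⟩,[.a ⟨true,0,⟨0,[(42,0)]⟩,⟨1,[(1,0),(2,0),(0,0),(18,0),(19,0)]⟩⟩ ⟨false,0,⟨0,[(46,
  0)]⟩,⟨1,[(43,0),(0,0)]⟩⟩ ⟨true,0,⟨11,[(1,4),(0,6),(2,0),(0,0),(19,0),(9,1),(1,1),(3,6),(2,0)]⟩,⟨1,
  [(0,0),(3,0),(0,0),(30,0)]⟩⟩,.o ⟨false,1,⟨1,[(31,0),(10,1),(1,0)]⟩,⟨0,[(41,0)]⟩⟩,.o ⟨false,1,⟨0,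
  [(19,0)]⟩,⟨5,[(1,4),(0,0),(2,0),(0,0),(19,0),(9,1),(1,1),(3,0),(2,0)]⟩⟩,.e ⟨false,0,⟨0,[]⟩,⟨1,
  [(19,0),(0,0),(23,0)]⟩⟩ ⟨false,1,⟨1,[(2,1),(40,0),(0,0)]⟩,⟨1,[(0,0),(3,0),(0,0),(30,0)]⟩⟩]⟩) (.R
  ⟨0,false,false,false,[1,0,0,0,-1],[1,-1],[],(⟨0,[(21,0)]⟩,⟨0,[(22,0)]⟩),(⟨0,[(32,0)]⟩,⟨0,[(33,
  0)]⟩),⟨0,[(3,0)]⟩,.k,.k,(.r (-1) ⟨7,[(14,3),(4,0),(0,0),(14,0),(7,1),(2,1)]⟩ ⟨0,[(2,0),(1,0)]⟩),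
  (.r 0 ⟨1,[(26,0),(0,0),(14,1)]⟩ ⟨3,[(14,1),(4,0),(0,0),(22,0)]⟩),.k,.k,⟨false,0,⟨0,[(42,0)]⟩,⟨3,
  [(14,1),(4,0),(0,0),(22,0)]⟩⟩,⟨true,(-1),⟨2,[(0,1),(0,0),(4,1),(19,1),(8,0)]⟩,⟨0,[(19,0)]⟩⟩,⟨true,
  0,⟨0,[]⟩,⟨0,[(46,0)]⟩⟩,⟨false,0,⟨0,[(0,0),(12,0),(12,0),(17,0)]⟩,⟨0,[(19,0),(22,0)]⟩⟩,⟨false,0,⟨0,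
  []⟩,⟨0,[]⟩⟩,⟨false,0,⟨0,[]⟩,⟨0,[]⟩⟩,[.e ⟨false,1,⟨1,[(19,0),(0,0),(22,0)]⟩,⟨0,[]⟩⟩ ⟨false,0,⟨1,
  [(0,1),(12,1),(12,1),(16,0),(0,0)]⟩,⟨0,[(19,0),(22,0)]⟩⟩,.o ⟨false,1,⟨3,[(14,1),(11,0),(0,0),(16,
  1)]⟩,⟨2,[(6,0),(4,0),(25,0),(0,0),(3,1)]⟩⟩,.o ⟨false,1,⟨0,[(19,0)]⟩,⟨11,[(0,1),(0,8),(4,1),(13,0),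
  (5,1),(9,1),(1,3),(6,2)]⟩⟩,.a ⟨true,0,⟨0,[(4,0)]⟩,⟨0,[(1,0)]⟩⟩ ⟨false,1,⟨1,[(43,0),(0,0)]⟩,⟨1,
  [(26,0),(0,0)]⟩⟩ ⟨true,0,⟨1,[(0,1),(12,1),(12,1),(16,0),(0,0)]⟩,⟨2,[(4,2),(1,0),(4,0),(25,0),(0,
  0),(3,1)]⟩⟩]⟩)) (.R ⟨0,false,false,true,[1,0,0,0,-1],[1,-1],[],(⟨0,[(20,0)]⟩,⟨0,[(21,0)]⟩),(⟨0,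
  [(31,0)]⟩,⟨0,[(32,0)]⟩),⟨0,[(2,0)]⟩,.k,.k,(.r (-1) ⟨7,[(13,3),(4,0),(0,0),(14,0),(7,1),(2,1)]⟩ ⟨0,
  [(1,0),(1,0)]⟩),(.r 0 ⟨1,[(25,0),(0,0),(14,1)]⟩ ⟨3,[(13,1),(4,0),(0,0),(22,0)]⟩),.k,.k,⟨true,0,⟨0,
  [(35,0),(5,0)]⟩,⟨0,[(40,0)]⟩⟩,⟨false,0,⟨0,[(19,0)]⟩,⟨0,[(0,0),(41,0)]⟩⟩,⟨true,0,⟨0,[]⟩,⟨0,[(45,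
  0)]⟩⟩,⟨false,0,⟨1,[(1,0),(2,0),(7,0),(6,0),(5,0),(17,0)]⟩,⟨1,[(0,1),(40,1),(0,0),(0,0)]⟩⟩,⟨false,
  0,⟨0,[]⟩,⟨0,[]⟩⟩,⟨false,0,⟨0,[]⟩,⟨0,[]⟩⟩,[.o ⟨false,0,⟨0,[(40,0)]⟩,⟨1,[(30,0),(10,1),(1,0)]⟩⟩,.a
  ⟨true,0,⟨1,[(4,0),(15,0),(0,0),(1,0),(19,0)]⟩,⟨0,[(41,0)]⟩⟩ ⟨false,1,⟨1,[(42,0),(0,0)]⟩,⟨0,[(45,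
  0)]⟩⟩ ⟨true,0,⟨1,[(1,0),(2,0),(7,0),(6,0),(5,0),(17,0)]⟩,⟨0,[(0,0),(40,0)]⟩⟩,.e ⟨false,1,⟨1,[(18,
  0),(0,0),(23,0)]⟩,⟨0,[]⟩⟩ ⟨false,0,⟨1,[(1,0),(2,0),(7,0),(6,0),(5,0),(17,0)]⟩,⟨1,[(0,1),(40,1),(0,
  0),(0,0)]⟩⟩,.o ⟨false,0,⟨0,[(0,0)]⟩,⟨1,[(19,1),(10,0),(11,0)]⟩⟩]⟩)) (.Q [0,0,1,0,-1,0,-1,0,-1,1,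
  -1,-1] (.p false [0,0,1] [1,0,0,0,-1] (⟨0,[(27,0)]⟩,⟨0,[(26,0)]⟩) .k 2 (⟨0,[(19,0)]⟩,⟨0,[(20,
  0)]⟩) .k (.r 0 ⟨1,[(4,1),(36,0),(0,0)]⟩ ⟨3,[(9,3),(2,1),(11,0),(0,0),(16,1)]⟩)) (.R ⟨0,false,
  false,true,[1,0,0,0,-1],[0,1],[1,1,1],(⟨0,[(20,0)]⟩,⟨0,[(21,0)]⟩),(⟨0,[(32,0)]⟩,⟨0,[(31,0)]⟩),⟨0,
  [(2,0)]⟩,.k,.k,(.r (-1) ⟨7,[(13,3),(4,0),(0,0),(14,0),(7,1),(2,1)]⟩ ⟨1,[(25,0),(0,0),(14,1)]⟩),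
  (.r (-1) ⟨7,[(13,3),(4,0),(0,0),(14,0),(7,1),(2,1)]⟩ ⟨1,[(25,0),(0,0),(14,1)]⟩),.k,.k,⟨false,1,⟨3,
  [(13,1),(4,0),(0,0),(22,0)]⟩,⟨0,[(41,0)]⟩⟩,⟨true,1,⟨1,[(19,1),(10,0),(11,0)]⟩,⟨0,[(0,0),(24,0)]⟩⟩,
  ⟨false,0,⟨1,[(25,0),(0,0)]⟩,⟨1,[(34,0),(7,0)]⟩⟩,⟨true,0,⟨2,[(5,0),(4,0),(8,2),(16,0),(0,0),(3,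
  1)]⟩,⟨0,[(1,0)]⟩⟩,⟨false,0,⟨0,[]⟩,⟨0,[]⟩⟩,⟨false,0,⟨0,[]⟩,⟨0,[]⟩⟩,[.o ⟨false,0,⟨2,[(5,0),(4,0),
  (25,0),(0,0),(3,1)]⟩,⟨3,[(13,1),(11,0),(0,0),(16,1)]⟩⟩,.e ⟨false,0,⟨0,[]⟩,⟨1,[(18,0),(0,0),(22,
  0)]⟩⟩ ⟨false,1,⟨1,[(19,1),(10,0),(10,1),(0,0)]⟩,⟨0,[(1,0)]⟩⟩,.a ⟨true,0,⟨0,[(1,0),(39,0)]⟩,⟨0,
  [(19,0)]⟩⟩ ⟨false,0,⟨1,[(25,0),(0,0)]⟩,⟨1,[(42,0),(0,0)]⟩⟩ ⟨true,0,⟨2,[(5,0),(4,0),(8,2),(16,0),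
  (0,0),(3,1)]⟩,⟨0,[(1,0)]⟩⟩,.o ⟨false,0,⟨3,[(0,1),(0,0),(16,0),(6,1),(11,0),(3,0)]⟩,⟨1,[(19,1),(10,
  0),(11,0)]⟩⟩]⟩) (.R ⟨0,false,false,true,[1,0,0,0,-1],[1,-1],[],(⟨0,[(20,0)]⟩,⟨0,[(21,0)]⟩),(⟨0,
  [(31,0)]⟩,⟨0,[(32,0)]⟩),⟨0,[(2,0)]⟩,.k,.k,(.r (-1) ⟨61,[(0,5),(2,2),(9,30),(1,2),(2,2),(15,7),(7,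
  13),(2,15)]⟩ ⟨1,[(25,0),(0,0),(14,1)]⟩),(.r 0 ⟨1,[(25,0),(0,0),(14,1)]⟩ ⟨9,[(0,1),(2,0),(9,4),(1,
  0),(2,0),(23,1)]⟩),.k,.k,⟨true,0,⟨0,[(35,0),(5,0)]⟩,⟨0,[(40,0)]⟩⟩,⟨false,0,⟨0,[(19,0)]⟩,⟨3,[(1,2),
  (16,0),(18,0),(3,2),(0,1)]⟩⟩,⟨true,0,⟨0,[]⟩,⟨0,[(45,0)]⟩⟩,⟨false,0,⟨2,[(0,0),(3,0),(7,0),(6,1),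
  (15,1)]⟩,⟨3,[(1,2),(16,0),(18,0),(3,6),(1,1)]⟩⟩,⟨false,0,⟨0,[]⟩,⟨0,[]⟩⟩,⟨false,0,⟨0,[]⟩,⟨0,[]⟩⟩,
  [.o ⟨false,0,⟨0,[(40,0)]⟩,⟨1,[(30,0),(10,1),(1,0)]⟩⟩,.a ⟨true,0,⟨0,[(1,0),(17,0)]⟩,⟨0,[(41,0)]⟩⟩
  ⟨false,1,⟨1,[(42,0),(0,0)]⟩,⟨0,[(45,0)]⟩⟩ ⟨true,0,⟨2,[(0,0),(3,0),(7,0),(6,1),(15,1)]⟩,⟨4,[(1,3),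
  (1,0),(1,0),(2,0),(16,0),(9,1),(1,1),(3,7)]⟩⟩,.e ⟨false,1,⟨3,[(0,0),(14,0),(2,0),(6,0),(17,1)]⟩,
  ⟨0,[]⟩⟩ ⟨false,0,⟨2,[(0,0),(3,0),(7,0),(6,1),(15,1)]⟩,⟨3,[(1,2),(16,0),(18,0),(3,6),(1,1)]⟩⟩,.o
  ⟨false,0,⟨4,[(1,3),(1,0),(1,0),(2,0),(16,0),(9,1),(1,1),(3,2)]⟩,⟨3,[(0,1),(14,0),(3,1),(17,0),(4,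
  0)]⟩⟩]⟩))) (.Q [0,0,0,0,0,0,0,0,-1,1,0,-1] (.p false [0,0,0,0,1] [1] (⟨0,[(19,0)]⟩,⟨0,[(18,0)]⟩)
  .k 1 (⟨0,[]⟩,⟨0,[]⟩) .k .k) (.S ⟨1,0,[-1,1],[1,0,0,0,-1],[-1],(⟨0,[(19,0)]⟩,⟨0,[(20,0)]⟩),⟨0,[(1,
  0)]⟩,.k,(.r (-1) ⟨7,[(12,3),(4,0),(0,0),(14,0),(7,1),(2,1)]⟩ ⟨1,[(24,0),(0,0),(14,1)]⟩),⟨false,1,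
  ⟨1,[(17,0),(0,0),(23,0)]⟩,⟨0,[]⟩⟩,⟨true,0,⟨0,[(44,0)]⟩,⟨0,[]⟩⟩,⟨true,0,⟨0,[(40,0)]⟩,⟨0,[(39,0)]⟩⟩,
  ⟨false,0,⟨0,[(40,0)]⟩,⟨3,[(12,1),(11,0),(0,0),(16,1)]⟩⟩,[.o ⟨false,0,⟨10,[(0,10),(2,3),(0,3),(19,
  3),(8,2),(1,7),(0,4),(3,7),(3,0)]⟩,⟨1,[(18,1),(10,0),(12,0)]⟩⟩,.e ⟨false,1,⟨1,[(33,0),(7,0)]⟩,⟨0,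
  [(44,0)]⟩⟩ ⟨false,1,⟨11,[(17,4),(0,4),(14,0),(7,5),(2,1)]⟩,⟨0,[]⟩⟩,.a ⟨true,0,⟨0,[(0,0)]⟩,⟨0,[(18,
  0)]⟩⟩ ⟨false,1,⟨1,[(17,0),(0,0),(14,0)]⟩,⟨0,[]⟩⟩ ⟨true,0,⟨0,[(44,0)]⟩,⟨0,[]⟩⟩,.o ⟨false,0,⟨9,[(0,
  9),(3,1),(0,0),(1,0),(16,1),(9,3),(1,3),(6,1)]⟩,⟨1,[(18,1),(10,0),(11,0)]⟩⟩]⟩) (.Q [-1,0,0,0,0,0,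
  -1,-1,-1,1,-1,-1] (.p false [0,0,1] [1,0,0,0,-1] (⟨0,[(27,0)]⟩,⟨0,[(26,0)]⟩) .k 2 (⟨0,[(19,0)]⟩,
  ⟨0,[(20,0)]⟩) .k (.r 0 ⟨1,[(4,1),(36,0),(0,0)]⟩ ⟨3,[(9,3),(2,1),(11,0),(0,0),(16,1)]⟩)) (.R ⟨1,
  false,false,true,[1,0,0,0,-1],[0,-1,1],[-1],(⟨0,[(20,0)]⟩,⟨0,[(21,0)]⟩),(⟨0,[(17,0)]⟩,⟨0,[(27,0),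
  (4,0)]⟩),⟨0,[(2,0)]⟩,.k,.k,(.r (-1) ⟨7,[(13,3),(4,0),(0,0),(14,0),(7,1),(2,1)]⟩ ⟨1,[(25,0),(0,0),
  (14,1)]⟩),(.r 0 ⟨1,[(4,2),(0,0),(19,2),(8,2),(1,1),(0,0),(3,7)]⟩ ⟨5,[(12,1),(0,1),(0,3),(27,0),(0,
  2)]⟩),.k,.k,⟨false,1,⟨0,[(10,0),(32,0)]⟩,⟨0,[(12,0)]⟩⟩,⟨true,0,⟨0,[(1,0),(23,0)]⟩,⟨1,[(0,1),(4,1),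
  (36,0),(0,0)]⟩⟩,⟨false,1,⟨1,[(18,0),(0,0),(23,0)]⟩,⟨0,[]⟩⟩,⟨true,0,⟨0,[(1,0),(10,0),(12,0)]⟩,⟨0,
  [(0,0),(40,0)]⟩⟩,⟨true,0,⟨0,[(41,0)]⟩,⟨0,[(40,0)]⟩⟩,⟨true,0,⟨0,[(1,0),(21,0)]⟩,⟨0,[(0,0)]⟩⟩,[.a
  ⟨true,0,⟨0,[(12,0),(12,0)]⟩,⟨0,[(8,0),(34,0)]⟩⟩ ⟨false,1,⟨11,[(18,4),(0,4),(14,0),(7,5),(2,1)]⟩,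
  ⟨0,[]⟩⟩ ⟨true,0,⟨0,[(1,0),(10,0),(12,0)]⟩,⟨0,[(0,0),(34,0),(5,0)]⟩⟩,.o ⟨false,1,⟨5,[(5,0),(6,1),
  (0,1),(9,2),(1,2),(11,1),(5,2)]⟩,⟨9,[(8,7),(1,1),(4,0),(21,2),(5,4)]⟩⟩,.o ⟨false,1,⟨0,[(18,0)]⟩,
  ⟨0,[(1,0)]⟩⟩,.e ⟨false,1,⟨1,[(34,0),(7,0)]⟩,⟨1,[(25,0),(0,0)]⟩⟩ ⟨false,1,⟨1,[(1,1),(10,1),(12,1),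
  (16,0),(0,0)]⟩,⟨0,[(0,0),(34,0),(5,0)]⟩⟩]⟩) (.Q [1,0,0,-2,-1,0,-1,-1,1,0,-1,1] (.p false [0,0,1]
  [0,0,0,0,1] (⟨0,[(28,0)]⟩,⟨0,[(27,0)]⟩) .k 2 (⟨0,[(21,0)]⟩,⟨0,[(20,0)]⟩) .k (.r 0 ⟨1,[(5,1),(28,
  0),(7,0)]⟩ ⟨3,[(10,3),(2,1),(11,0),(0,0),(16,1)]⟩)) (.R ⟨1,false,false,true,[1,0,0,0,-1],[1,0,-1],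
  [-1],(⟨0,[(21,0)]⟩,⟨0,[(22,0)]⟩),(⟨0,[(28,0)]⟩,⟨0,[(29,0)]⟩),⟨0,[(3,0)]⟩,.k,.k,(.r (-1) ⟨7,[(14,
  3),(4,0),(0,0),(14,0),(7,1),(2,1)]⟩ ⟨1,[(26,0),(0,0),(14,1)]⟩),.k,(.r (-1) ⟨5,[(13,1),(0,1),(0,3),
  (27,0),(0,2)]⟩ ⟨0,[(11,0),(24,0)]⟩),.k,⟨false,1,⟨0,[(6,0),(36,0),(0,0)]⟩,⟨10,[(5,2),(5,7),(2,0),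
  (11,2),(11,0),(4,0)]⟩⟩,⟨true,(-1),⟨1,[(0,1),(5,1),(35,3),(0,0),(0,0)]⟩,⟨0,[(19,0),(6,0)]⟩⟩,⟨false,
  1,⟨1,[(19,0),(0,0),(23,0)]⟩,⟨0,[]⟩⟩,⟨false,(-1),⟨0,[(0,0),(41,1)]⟩,⟨0,[(19,0),(4,0),(19,0)]⟩⟩,
  ⟨true,0,⟨0,[(42,0)]⟩,⟨0,[(41,0)]⟩⟩,⟨false,(-1),⟨0,[(0,0),(41,2)]⟩,⟨0,[(13,0),(5,0),(6,0),(17,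
  0)]⟩⟩,[.e ⟨false,1,⟨11,[(19,4),(0,4),(14,0),(7,5),(2,1)]⟩,⟨0,[]⟩⟩ ⟨false,(-1),⟨0,[(0,0),(36,0),(4,
  1)]⟩,⟨0,[(19,0),(4,0),(19,0)]⟩⟩,.o ⟨false,0,⟨2,[(7,0),(1,0),(2,0),(25,0),(5,0)]⟩,⟨2,[(1,0),(17,0),
  (4,1),(6,0),(12,0)]⟩⟩,.o ⟨false,1,⟨0,[(19,0)]⟩,⟨0,[(2,0)]⟩⟩,.a ⟨true,0,⟨0,[(4,0)]⟩,⟨3,[(0,0),(0,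
  2),(7,1),(11,0),(0,0),(12,0),(7,1)]⟩⟩ ⟨false,1,⟨1,[(35,0),(7,0)]⟩,⟨1,[(26,0),(0,0)]⟩⟩ ⟨true,(-1),
  ⟨0,[(0,0),(36,0),(4,1)]⟩,⟨2,[(1,0),(2,0),(1,0),(12,2),(4,0),(1,0),(17,0)]⟩⟩]⟩) (.S ⟨1,0,[-1,1],[1,
  0,0,0,-1],[-1],(⟨0,[(21,0)]⟩,⟨0,[(22,0)]⟩),⟨0,[(3,0)]⟩,.k,(.r (-1) ⟨67,[(0,3),(10,3),(2,39),(1,1),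
  (3,3),(10,0),(3,8),(7,13),(2,13)]⟩ ⟨7,[(0,1),(0,1),(7,1),(1,1),(14,0),(0,2),(8,3)]⟩),⟨false,1,⟨1,
  [(19,0),(0,0),(23,0)]⟩,⟨0,[]⟩⟩,⟨true,0,⟨0,[(46,0)]⟩,⟨0,[]⟩⟩,⟨true,0,⟨0,[(42,0)]⟩,⟨0,[(41,0)]⟩⟩,
  ⟨false,0,⟨0,[(42,0)]⟩,⟨3,[(14,1),(11,0),(0,0),(16,1)]⟩⟩,[.a ⟨true,0,⟨0,[(0,0),(4,0)]⟩,⟨1,[(1,1),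
  (5,0),(1,0),(34,1)]⟩⟩ ⟨false,1,⟨101,[(0,19),(10,19),(2,29),(1,9),(3,19),(10,4),(3,10),(7,35),(2,
  1)]⟩,⟨0,[]⟩⟩ ⟨true,0,⟨0,[(46,0)]⟩,⟨0,[(36,0)]⟩⟩,.o ⟨false,1,⟨7,[(0,2),(4,2),(13,4),(15,1),(2,0),
  (7,0)]⟩,⟨0,[(2,0)]⟩⟩,.o ⟨false,1,⟨0,[(19,0)]⟩,⟨0,[(2,0)]⟩⟩,.e ⟨false,1,⟨1,[(35,0),(7,0)]⟩,⟨1,[(26,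
  0),(0,0)]⟩⟩ ⟨false,1,⟨101,[(0,19),(10,19),(2,29),(1,9),(3,19),(10,4),(3,10),(7,35),(2,1)]⟩,⟨0,
  [(36,0)]⟩⟩]⟩))))))))))) (.S ⟨1,0,[0,0,0,0,0,0,0,1],[0,0,1],[1,1,0,-1,0,0,0,1],(⟨0,[(19,0)]⟩,⟨0,
  [(18,0)]⟩),⟨0,[(8,0)]⟩,.k,.k,⟨true,0,⟨0,[(31,0)]⟩,⟨0,[(32,0)]⟩⟩,⟨false,1,⟨1,[(9,0),(0,0),(23,0)]⟩,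
  ⟨0,[]⟩⟩,⟨false,0,⟨0,[]⟩,⟨1,[(9,0),(0,0),(23,0)]⟩⟩,⟨true,0,⟨0,[(32,0)]⟩,⟨0,[(31,0)]⟩⟩,[.a ⟨true,0,
  ⟨0,[(0,0),(2,0),(22,0),(5,0)]⟩,⟨0,[(2,0)]⟩⟩ ⟨false,0,⟨0,[(3,0)]⟩,⟨0,[(1,0),(32,0)]⟩⟩ ⟨true,0,⟨0,
  [(3,0),(22,0),(5,0)]⟩,⟨0,[(0,0),(14,0),(10,0)]⟩⟩,.o ⟨false,1,⟨2,[(0,1),(2,1),(10,0),(11,1),(1,0),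
  (3,1),(1,1)]⟩,⟨0,[(15,0)]⟩⟩,.a ⟨true,0,⟨0,[(0,0)]⟩,⟨1,[(6,0),(4,0),(0,0)]⟩⟩ ⟨false,0,⟨0,[(3,0),
  (22,0)]⟩,⟨0,[(1,0),(32,0)]⟩⟩ ⟨true,0,⟨0,[(3,0),(22,0),(5,0)]⟩,⟨0,[(0,0),(14,0)]⟩⟩,.a ⟨true,0,⟨0,
  [(16,0)]⟩,⟨0,[(13,0)]⟩⟩ ⟨true,0,⟨0,[(3,0)]⟩,⟨0,[(1,0),(24,0)]⟩⟩ ⟨false,1,⟨0,[(3,0),(28,0),(1,0)]⟩,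
  ⟨0,[(0,0),(14,0),(10,0)]⟩⟩]⟩)) (.I [0,-1,0,1,1,0,0,-1] (.S ⟨1,0,[0,0,0,0,0,0,0,1],[0,0,1],[1,1,0,
  -1,0,0,0,1],(⟨0,[(19,0)]⟩,⟨0,[(18,0)]⟩),⟨0,[(8,0)]⟩,.k,.k,⟨true,0,⟨0,[(31,0)]⟩,⟨0,[(32,0)]⟩⟩,
  ⟨false,1,⟨1,[(9,0),(0,0),(23,0)]⟩,⟨0,[]⟩⟩,⟨false,0,⟨0,[]⟩,⟨1,[(9,0),(0,0),(23,0)]⟩⟩,⟨true,0,⟨0,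
  [(32,0)]⟩,⟨0,[(31,0)]⟩⟩,[.e ⟨false,0,⟨0,[(3,0)]⟩,⟨0,[(0,0)]⟩⟩ ⟨false,0,⟨0,[(1,0),(25,0),(4,0)]⟩,
  ⟨0,[(0,0),(30,0)]⟩⟩,.o ⟨false,1,⟨2,[(1,1),(12,0),(1,1),(11,0),(3,1),(0,0),(0,0)]⟩,⟨0,[(15,0)]⟩⟩,
  .o ⟨false,1,⟨1,[(16,1),(4,0),(11,0)]⟩,⟨0,[(1,0),(13,0),(16,0)]⟩⟩,.a ⟨true,0,⟨0,[(16,0)]⟩,⟨0,[(13,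
  0)]⟩⟩ ⟨false,0,⟨0,[(1,0),(25,0)]⟩,⟨1,[(0,1),(15,0),(0,0)]⟩⟩ ⟨true,0,⟨0,[(1,0),(25,0),(4,0)]⟩,⟨0,
  [(15,0),(0,0)]⟩⟩]⟩) (.Q [0,0,0,1,0,0,1,1,0,-1,1] (.p true [0,0,1] [1] (⟨0,[(19,0)]⟩,⟨0,[(18,0)]⟩)
  .k 1 (⟨0,[]⟩,⟨0,[]⟩) .k .k) (.R ⟨2,true,false,false,[0,1],[1,0,-1],[1,1,1],(⟨0,[]⟩,⟨0,[]⟩),(⟨0,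
  [(19,0)]⟩,⟨0,[(20,0)]⟩),⟨0,[]⟩,.k,.k,.k,.k,.k,.k,⟨false,(-1),⟨0,[(1,0),(31,0)]⟩,⟨1,[(3,1),(13,1),
  (4,0),(11,1),(0,0)]⟩⟩,⟨true,(-1),⟨0,[(1,0),(1,0),(23,0),(5,0)]⟩,⟨1,[(17,1),(4,0),(11,0)]⟩⟩,⟨true,
  0,⟨0,[(32,0)]⟩,⟨0,[(33,0)]⟩⟩,⟨false,1,⟨3,[(3,3),(1,1),(11,0),(0,0),(16,1)]⟩,⟨0,[(0,0)]⟩⟩,⟨false,0,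
  ⟨0,[]⟩,⟨1,[(10,0),(0,0),(23,0)]⟩⟩,⟨true,0,⟨0,[(3,0)]⟩,⟨14,[(0,5),(0,3),(3,0),(9,4),(1,3),(11,2),
  (0,2)]⟩⟩,[]⟩) (.Q [0,0,0,2,0,0,1,1,0,-1,1] (.p true [0,0,1] [1] (⟨0,[(20,0)]⟩,⟨0,[(19,0)]⟩) .k 1
  (⟨0,[]⟩,⟨0,[]⟩) .k .k) (.R ⟨1,true,false,false,[1,0,-1],[0,1],[0,1,0,0,0,0,0,-1],(⟨0,[(20,0)]⟩,⟨0,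
  [(21,0)]⟩),(⟨0,[(25,0)]⟩,⟨0,[(24,0)]⟩),⟨0,[(9,0)]⟩,.k,.k,.k,.k,(.r (-2) ⟨3,[(1,5),(0,0),(0,0),(14,
  5),(11,1),(4,6)]⟩ ⟨1,[(2,1),(15,0),(0,0),(8,1),(5,5)]⟩),.k,⟨true,1,⟨4,[(1,2),(4,0),(10,1),(0,4),
  (10,2),(0,0),(4,2)]⟩,⟨0,[(2,0),(25,1),(5,1)]⟩⟩,⟨false,2,⟨1,[(18,1),(4,0),(11,2)]⟩,⟨0,[(2,0),(1,0),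
  (23,0),(5,0)]⟩⟩,⟨true,0,⟨0,[(38,0)]⟩,⟨0,[]⟩⟩,⟨false,1,⟨3,[(0,1),(15,1),(6,0),(12,2)]⟩,⟨0,[(1,
  0)]⟩⟩,⟨false,0,⟨0,[(34,0)]⟩,⟨3,[(6,1),(11,0),(0,0),(16,1)]⟩⟩,⟨true,0,⟨0,[(0,0)]⟩,⟨0,[(1,0),(31,
  0)]⟩⟩,[]⟩) (.I [0,0,-2,-2,1] (.S ⟨1,0,[0,0,-1,-1],[1,-1],[1,1,-1,-2],(⟨0,[(25,0)]⟩,⟨0,[(26,0)]⟩),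
  ⟨0,[(10,0),(0,0)]⟩,.k,(.r (-1) ⟨0,[(0,0)]⟩ ⟨0,[(19,0),(0,0),(14,1)]⟩),⟨true,0,⟨0,[(34,0)]⟩,⟨0,
  [(35,0)]⟩⟩,⟨false,1,⟨1,[(12,0),(0,0),(23,0)]⟩,⟨0,[]⟩⟩,⟨false,0,⟨0,[]⟩,⟨1,[(12,0),(0,0),(23,0)]⟩⟩,
  ⟨true,0,⟨0,[(35,0)]⟩,⟨0,[(34,0)]⟩⟩,[.e ⟨false,1,⟨1,[(0,0),(6,0),(24,0)]⟩,⟨0,[(29,0),(5,1)]⟩⟩
  ⟨false,1,⟨1,[(0,0),(35,0)]⟩,⟨1,[(19,0),(0,0),(14,1)]⟩⟩,.o ⟨false,1,⟨3,[(7,1),(11,0),(0,0),(16,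
  1)]⟩,⟨2,[(3,0),(14,0),(0,0),(10,0),(0,0),(3,3)]⟩⟩,.o ⟨false,0,⟨1,[(19,0),(0,0)]⟩,⟨1,[(24,0),(11,
  0)]⟩⟩,.a ⟨true,(-1),⟨0,[(3,0),(1,0),(13,0),(9,0),(5,0)]⟩,⟨0,[(36,0)]⟩⟩ ⟨false,1,⟨0,[(0,0)]⟩,⟨1,
  [(19,0),(0,0),(8,1),(5,3)]⟩⟩ ⟨true,1,⟨1,[(0,0),(35,0)]⟩,⟨0,[(3,0),(14,0),(0,0),(9,0),(5,1)]⟩⟩]⟩)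
  (.Q [0,0,-1,0,0,0,0,0,1,-1,0,1] (.p true [0,0,0,0,1] [1] (⟨0,[(15,0)]⟩,⟨0,[(14,0)]⟩) .k 1 (⟨0,[]⟩,
  ⟨0,[]⟩) .k .k) (.Q [1,0,0,0,-1,0,0,0,1,0,0,1] (.p true [0,0,0,0,1] [] (⟨0,[(16,0)]⟩,⟨0,[(15,0)]⟩)
  .k 0 (⟨0,[]⟩,⟨0,[]⟩) .k .k) (.R ⟨2,true,false,true,[0,1],[0,0,0,0,1],[1,1],(⟨0,[]⟩,⟨0,[]⟩),(⟨0,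
  [(17,0)]⟩,⟨0,[(16,0)]⟩),⟨0,[]⟩,.k,.k,.k,(.r 0 ⟨5,[(2,2),(11,1),(0,1),(14,0),(10,1)]⟩ ⟨3,[(9,1),(4,
  0),(0,0),(22,0)]⟩),.k,.k,⟨false,1,⟨1,[(14,0),(0,0),(22,0)]⟩,⟨0,[]⟩⟩,⟨true,(-1),⟨3,[(0,3),(20,0),
  (0,0),(17,1)]⟩,⟨0,[(14,0)]⟩⟩,⟨false,1,⟨3,[(9,1),(4,0),(0,0),(22,0)]⟩,⟨1,[(2,0),(36,0)]⟩⟩,⟨true,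
  (-1),⟨0,[(0,0),(35,0)]⟩,⟨0,[(14,0),(22,0)]⟩⟩,⟨true,0,⟨0,[(32,0)]⟩,⟨1,[(21,0),(0,0)]⟩⟩,⟨false,(-1),
  ⟨0,[(0,0)]⟩,⟨1,[(14,2),(0,0),(14,0)]⟩⟩,[]⟩) (.R ⟨1,false,false,true,[0,0,1],[1,0,0,0,-1],[1,0,0,
  -1,0,0,0,1],(⟨0,[(24,0)]⟩,⟨0,[(23,0)]⟩),(⟨0,[(16,0)]⟩,⟨0,[(17,0)]⟩),⟨0,[(13,0)]⟩,.k,.k,.k,.k,(.r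
  0 ⟨1,[(5,0),(0,0),(31,0)]⟩ ⟨1,[(7,1),(6,0),(0,0),(5,1),(4,0),(10,1)]⟩),.k,⟨true,0,⟨0,[(6,0)]⟩,⟨0,
  [(20,0),(0,0),(15,0)]⟩⟩,⟨false,1,⟨0,[(14,0),(3,0)]⟩,⟨0,[(1,0),(19,0)]⟩⟩,⟨false,1,⟨3,[(9,1),(11,0),
  (0,0),(16,1)]⟩,⟨0,[(37,0)]⟩⟩,⟨false,1,⟨0,[(0,0),(6,0)]⟩,⟨0,[(1,0),(4,0),(14,0),(15,0)]⟩⟩,⟨true,0,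
  ⟨0,[]⟩,⟨0,[(41,0)]⟩⟩,⟨false,1,⟨0,[(7,0),(6,0),(22,0)]⟩,⟨0,[(1,0),(4,0),(14,0)]⟩⟩,[.o ⟨false,1,⟨0,
  [(14,0),(26,0)]⟩,⟨0,[(1,0),(29,0)]⟩⟩,.o ⟨false,1,⟨0,[(0,0)]⟩,⟨22,[(1,9),(0,2),(0,1),(1,1),(9,12),
  (5,1),(9,1),(1,4)]⟩⟩,.o ⟨false,1,⟨1,[(21,1),(4,0),(11,0)]⟩,⟨41,[(2,6),(1,5),(0,7),(5,9),(6,13),(1,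
  1),(9,4),(2,9)]⟩⟩,.a ⟨true,0,⟨0,[(21,0)]⟩,⟨0,[(18,0)]⟩⟩ ⟨true,0,⟨1,[(5,0),(0,0),(31,0)]⟩,⟨0,[(20,
  0),(0,0),(15,0)]⟩⟩ ⟨false,1,⟨0,[(0,0),(17,0)]⟩,⟨0,[(1,0),(19,0),(9,0)]⟩⟩]⟩)) (.Q [0,0,0,0,0,1,0,0,
  0,-1,0,1] (.ed false [0,1,0,0,1] .k) (.Q [-1,0,0,-1,0,0,0,0,-1,1,0,-1] (.p false [0,0,0,0,1] [1]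
  (⟨0,[(17,0)]⟩,⟨0,[(16,0)]⟩) .k 1 (⟨0,[]⟩,⟨0,[]⟩) .k .k) (.Q [0,0,0,-1,0,0,-1,-1,-1,1,-1,-1] (.p
  false [0,0,1] [1,0,0,0,-1] (⟨0,[(25,0)]⟩,⟨0,[(24,0)]⟩) .k 2 (⟨0,[(17,0)]⟩,⟨0,[(18,0)]⟩) .k (.r 0
  ⟨1,[(7,0),(3,0),(26,0)]⟩ ⟨3,[(8,1),(12,1),(0,3),(4,0),(3,0),(7,1)]⟩)) (.R ⟨0,false,false,true,[1,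
  0,0,0,-1],[0,1],[1,1,1],(⟨0,[(18,0)]⟩,⟨0,[(19,0)]⟩),(⟨0,[(30,0)]⟩,⟨0,[(29,0)]⟩),⟨0,[(2,0)]⟩,.k,.k,
  (.r (-1) ⟨7,[(11,3),(4,0),(0,0),(14,0),(7,1),(2,1)]⟩ ⟨1,[(4,0),(11,0),(0,0)]⟩),(.r (-1) ⟨7,[(11,
  3),(4,0),(0,0),(14,0),(7,1),(2,1)]⟩ ⟨1,[(4,0),(11,0),(0,0)]⟩),.k,.k,⟨false,1,⟨3,[(11,1),(4,0),(0,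
  0),(22,0)]⟩,⟨0,[(39,0)]⟩⟩,⟨true,1,⟨1,[(17,1),(10,0),(11,0)]⟩,⟨2,[(0,0),(0,1),(2,1),(2,0),(15,0),
  (9,0)]⟩⟩,⟨false,0,⟨1,[(23,0),(0,0)]⟩,⟨1,[(32,0),(7,0)]⟩⟩,⟨true,0,⟨2,[(4,0),(12,2),(16,0),(0,0),(0,
  0),(2,0)]⟩,⟨0,[(1,0)]⟩⟩,⟨false,0,⟨0,[]⟩,⟨0,[]⟩⟩,⟨false,0,⟨0,[]⟩,⟨0,[]⟩⟩,[.o ⟨false,0,⟨2,[(4,0),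
  (29,0),(0,0),(0,0),(2,0)]⟩,⟨3,[(11,1),(11,0),(0,0),(16,1)]⟩⟩,.e ⟨false,0,⟨0,[]⟩,⟨1,[(16,0),(0,0),
  (22,0)]⟩⟩ ⟨false,1,⟨1,[(17,1),(10,0),(10,1),(0,0)]⟩,⟨0,[(1,0)]⟩⟩,.a ⟨true,0,⟨0,[(1,0),(37,0)]⟩,⟨0,
  [(17,0)]⟩⟩ ⟨false,0,⟨1,[(23,0),(0,0)]⟩,⟨1,[(40,0),(0,0)]⟩⟩ ⟨true,0,⟨2,[(4,0),(12,2),(16,0),(0,0),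
  (0,0),(2,0)]⟩,⟨0,[(1,0)]⟩⟩,.o ⟨false,0,⟨2,[(1,1),(1,0),(0,0),(30,0)]⟩,⟨1,[(17,1),(10,0),(11,
  0)]⟩⟩]⟩) (.R ⟨0,false,false,true,[1,0,0,0,-1],[1,-1],[],(⟨0,[(18,0)]⟩,⟨0,[(19,0)]⟩),(⟨0,[(29,0)]⟩,
  ⟨0,[(30,0)]⟩),⟨0,[(2,0)]⟩,.k,.k,(.r (-1) ⟨7,[(11,3),(4,0),(0,0),(14,0),(7,1),(2,1)]⟩ ⟨1,[(4,0),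
  (11,0),(0,0)]⟩),(.r 0 ⟨5,[(4,2),(11,1),(0,1),(14,0),(10,1)]⟩ ⟨3,[(11,1),(4,0),(0,0),(22,0)]⟩),.k,
  .k,⟨true,0,⟨1,[(4,0),(36,0)]⟩,⟨0,[(38,0)]⟩⟩,⟨false,0,⟨0,[(17,0)]⟩,⟨3,[(1,2),(14,0),(18,0),(3,2),
  (0,1)]⟩⟩,⟨true,0,⟨0,[]⟩,⟨0,[(43,0)]⟩⟩,⟨false,0,⟨0,[(0,0),(4,0)]⟩,⟨3,[(1,2),(14,0),(18,0),(3,6),(1,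
  1)]⟩⟩,⟨false,0,⟨0,[]⟩,⟨0,[]⟩⟩,⟨false,0,⟨0,[]⟩,⟨0,[]⟩⟩,[.o ⟨false,0,⟨0,[(38,0)]⟩,⟨1,[(28,0),(10,1),
  (1,0)]⟩⟩,.a ⟨true,0,⟨0,[(1,0),(15,0)]⟩,⟨0,[(39,0)]⟩⟩ ⟨false,1,⟨1,[(40,0),(0,0)]⟩,⟨0,[(43,0)]⟩⟩
  ⟨true,0,⟨0,[(0,0),(4,0)]⟩,⟨3,[(1,2),(2,1),(11,0),(18,0),(3,2)]⟩⟩,.e ⟨false,1,⟨1,[(16,0),(0,0),(23,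
  0)]⟩,⟨0,[]⟩⟩ ⟨false,0,⟨0,[(0,0),(4,0)]⟩,⟨3,[(1,2),(14,0),(18,0),(3,6),(1,1)]⟩⟩,.o ⟨false,0,⟨2,[(1,
  1),(1,0),(0,0),(30,0)]⟩,⟨1,[(17,1),(10,0),(11,0)]⟩⟩]⟩)) (.Q [0,0,-1,0,0,0,0,0,1,0,0,1] (.p true
  [0,0,0,0,1] [] (⟨0,[(18,0)]⟩,⟨0,[(17,0)]⟩) .k 0 (⟨0,[]⟩,⟨0,[]⟩) .k .k) (.Q [-2,0,0,0,1,0,0,0,-2,1,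
  0,-2] (.p false [0,0,0,0,1] [1,0,0,0,-1] (⟨0,[(19,0)]⟩,⟨0,[(18,0)]⟩) .k 2 (⟨0,[(18,0)]⟩,⟨0,[(19,
  0)]⟩) .k (.r 0 ⟨0,[]⟩ ⟨2,[(16,1),(0,1),(14,0),(10,1)]⟩)) (.R ⟨0,false,false,false,[1,0,0,0,-1],[0,
  1],[1,1,1],(⟨0,[(19,0)]⟩,⟨0,[(20,0)]⟩),(⟨0,[(31,0)]⟩,⟨0,[(30,0)]⟩),⟨0,[(3,0)]⟩,.k,.k,(.r (-1) ⟨7,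
  [(12,3),(4,0),(0,0),(14,0),(7,1),(2,1)]⟩ ⟨1,[(5,0),(11,0),(0,0)]⟩),(.r (-1) ⟨7,[(12,3),(4,0),(0,
  0),(14,0),(7,1),(2,1)]⟩ ⟨1,[(5,0),(11,0),(0,0)]⟩),.k,.k,⟨true,0,⟨0,[(39,0)]⟩,⟨1,[(5,0),(36,0)]⟩⟩,
  ⟨false,1,⟨1,[(1,1),(27,0),(11,0)]⟩,⟨0,[(4,0)]⟩⟩,⟨false,0,⟨1,[(24,0),(0,0)]⟩,⟨1,[(33,0),(7,0)]⟩⟩,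
  ⟨true,0,⟨0,[(2,0)]⟩,⟨1,[(0,0),(6,0),(0,0),(15,0),(10,0)]⟩⟩,⟨false,0,⟨0,[]⟩,⟨0,[]⟩⟩,⟨false,0,⟨0,
  []⟩,⟨0,[]⟩⟩,[.a ⟨true,0,⟨0,[(40,0)]⟩,⟨5,[(6,1),(1,0),(0,0),(9,3),(0,3),(3,1),(16,0)]⟩⟩ ⟨false,0,
  ⟨0,[(44,0)]⟩,⟨1,[(41,0),(0,0)]⟩⟩ ⟨true,0,⟨9,[(1,5),(0,3),(2,2),(27,0),(2,1),(7,1)]⟩,⟨2,[(0,0),(3,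
  0),(1,0),(1,0),(15,0),(9,0)]⟩⟩,.o ⟨false,1,⟨1,[(29,0),(10,1),(1,0)]⟩,⟨0,[(39,0)]⟩⟩,.o ⟨false,1,⟨0,
  [(17,0)]⟩,⟨18,[(1,17),(0,0),(2,3),(0,2),(1,2),(15,2),(9,2),(1,6),(6,3)]⟩⟩,.e ⟨false,0,⟨0,[]⟩,⟨1,
  [(17,0),(0,0),(23,0)]⟩⟩ ⟨false,1,⟨1,[(2,1),(38,0),(0,0)]⟩,⟨2,[(0,0),(3,0),(1,0),(1,0),(15,0),(9,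
  0)]⟩⟩]⟩) (.R ⟨0,false,false,false,[1,0,0,0,-1],[1,-1],[],(⟨0,[(19,0)]⟩,⟨0,[(20,0)]⟩),(⟨0,[(30,
  0)]⟩,⟨0,[(31,0)]⟩),⟨0,[(3,0)]⟩,.k,.k,(.r (-1) ⟨7,[(12,3),(4,0),(0,0),(14,0),(7,1),(2,1)]⟩ ⟨1,[(5,
  0),(11,0),(0,0)]⟩),(.r 0 ⟨5,[(5,2),(11,1),(0,1),(14,0),(10,1)]⟩ ⟨3,[(12,1),(4,0),(0,0),(22,0)]⟩),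
  .k,.k,⟨false,0,⟨0,[(40,0)]⟩,⟨3,[(12,1),(4,0),(0,0),(22,0)]⟩⟩,⟨true,(-1),⟨4,[(0,1),(0,0),(3,1),(0,
  1),(1,1),(15,1),(8,0),(6,1)]⟩,⟨0,[(17,0)]⟩⟩,⟨true,0,⟨0,[]⟩,⟨0,[(44,0)]⟩⟩,⟨false,0,⟨2,[(0,0),(0,0),
  (4,0),(2,0),(14,0),(17,0)]⟩,⟨0,[(17,0),(22,0)]⟩⟩,⟨false,0,⟨0,[]⟩,⟨0,[]⟩⟩,⟨false,0,⟨0,[]⟩,⟨0,[]⟩⟩,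
  [.e ⟨false,1,⟨1,[(17,0),(0,0),(22,0)]⟩,⟨0,[]⟩⟩ ⟨false,0,⟨11,[(0,3),(0,3),(4,3),(1,2),(0,0),(14,3),
  (8,0),(7,5)]⟩,⟨0,[(17,0),(22,0)]⟩⟩,.o ⟨false,1,⟨3,[(12,1),(11,0),(0,0),(16,1)]⟩,⟨2,[(5,0),(29,0),
  (0,0),(0,0),(2,0)]⟩⟩,.o ⟨false,1,⟨0,[(17,0)]⟩,⟨6,[(0,2),(17,0),(10,1),(3,0),(10,1)]⟩⟩,.a ⟨true,0,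
  ⟨0,[(4,0)]⟩,⟨0,[(1,0)]⟩⟩ ⟨false,1,⟨1,[(41,0),(0,0)]⟩,⟨1,[(24,0),(0,0)]⟩⟩ ⟨true,0,⟨11,[(0,3),(0,3),
  (4,3),(1,2),(0,0),(14,3),(8,0),(7,5)]⟩,⟨3,[(4,2),(0,1),(11,0),(17,1),(0,0),(0,0)]⟩⟩]⟩)) (.R ⟨0,
  false,false,true,[1,0,0,0,-1],[1,0,-1],[],(⟨0,[(18,0)]⟩,⟨0,[(19,0)]⟩),(⟨0,[(25,0)]⟩,⟨0,[(26,0)]⟩),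
  ⟨0,[(2,0)]⟩,.k,.k,(.r (-1) ⟨7,[(11,3),(4,0),(0,0),(14,0),(7,1),(2,1)]⟩ ⟨1,[(4,0),(11,0),(0,0)]⟩),
  .k,.k,.k,⟨true,0,⟨0,[(8,0),(30,0)]⟩,⟨0,[(22,0),(0,0)]⟩⟩,⟨false,0,⟨6,[(1,6),(4,3),(0,3),(12,2),(11,
  1),(6,0),(0,1)]⟩,⟨0,[(0,0),(22,0),(16,0)]⟩⟩,⟨true,0,⟨0,[]⟩,⟨0,[(43,0)]⟩⟩,⟨false,0,⟨0,[(1,0),(4,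
  0)]⟩,⟨0,[(0,0),(7,0),(14,0),(15,0),(0,0)]⟩⟩,⟨false,0,⟨0,[]⟩,⟨0,[]⟩⟩,⟨false,0,⟨0,[]⟩,⟨0,[]⟩⟩,[.o
  ⟨false,0,⟨0,[(22,0)]⟩,⟨2,[(8,1),(12,0),(1,1),(11,0),(3,1),(0,0),(0,0)]⟩⟩,.a ⟨true,0,⟨0,[(9,0)]⟩,
  ⟨1,[(7,0),(0,0),(14,1),(15,1),(0,0)]⟩⟩ ⟨false,1,⟨1,[(40,0),(0,0)]⟩,⟨0,[(43,0)]⟩⟩ ⟨true,0,⟨0,[(1,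
  0),(3,0),(33,0)]⟩,⟨1,[(0,1),(6,0),(0,0),(14,1),(15,1),(0,0)]⟩⟩,.e ⟨false,1,⟨1,[(16,0),(0,0),(23,
  0)]⟩,⟨0,[]⟩⟩ ⟨false,0,⟨0,[(1,0),(3,0),(33,0)]⟩,⟨0,[(0,0),(7,0),(14,0),(15,0),(0,0)]⟩⟩,.o ⟨false,0,
  ⟨0,[(0,0)]⟩,⟨1,[(17,1),(10,0),(11,0)]⟩⟩]⟩))) (.Q [0,0,0,0,0,0,0,0,-1,1,0,-1] (.p false [0,0,0,0,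
  1] [1] (⟨0,[(17,0)]⟩,⟨0,[(16,0)]⟩) .k 1 (⟨0,[]⟩,⟨0,[]⟩) .k .k) (.S ⟨1,0,[-1,1],[1,0,0,0,-1],[-1],
  (⟨0,[(17,0)]⟩,⟨0,[(18,0)]⟩),⟨0,[(1,0)]⟩,.k,(.r (-1) ⟨7,[(10,3),(4,0),(0,0),(14,0),(7,1),(2,1)]⟩
  ⟨1,[(3,0),(11,0),(0,0)]⟩),⟨false,1,⟨1,[(15,0),(0,0),(23,0)]⟩,⟨0,[]⟩⟩,⟨true,0,⟨0,[(42,0)]⟩,⟨0,[]⟩⟩,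
  ⟨true,0,⟨0,[(38,0)]⟩,⟨0,[(37,0)]⟩⟩,⟨false,0,⟨0,[(38,0)]⟩,⟨3,[(10,1),(11,0),(0,0),(16,1)]⟩⟩,[.o
  ⟨false,0,⟨1,[(0,1),(3,0),(1,0),(15,0),(10,0),(0,0),(3,2)]⟩,⟨1,[(16,1),(10,0),(12,0)]⟩⟩,.e ⟨false,
  1,⟨1,[(31,0),(7,0)]⟩,⟨0,[(42,0)]⟩⟩ ⟨false,1,⟨11,[(15,4),(0,4),(14,0),(7,5),(2,1)]⟩,⟨0,[]⟩⟩,.a
  ⟨true,0,⟨0,[(0,0)]⟩,⟨0,[(16,0)]⟩⟩ ⟨false,1,⟨1,[(15,0),(0,0),(14,0)]⟩,⟨0,[]⟩⟩ ⟨true,0,⟨0,[(42,0)]⟩,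
  ⟨0,[]⟩⟩,.o ⟨false,0,⟨25,[(0,24),(1,0),(0,5),(0,3),(1,3),(15,3),(9,3),(1,9),(6,4)]⟩,⟨1,[(16,1),(10,
  0),(11,0)]⟩⟩]⟩) (.Q [0,0,-1,1,0,0,-1,-1,1,0,-1,1] (.p false [0,0,1] [0,0,0,0,1] (⟨0,[(25,0)]⟩,⟨0,
  [(24,0)]⟩) .k 2 (⟨0,[(18,0)]⟩,⟨0,[(17,0)]⟩) .k (.r 0 ⟨1,[(4,2),(1,4),(15,2),(8,3),(1,2),(0,0),(3,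
  10)]⟩ ⟨1,[(8,1),(13,1),(4,0),(11,0)]⟩)) (.R ⟨1,false,false,false,[1,0,0,0,-1],[1,1,-1],[-1],(⟨0,
  [(18,0)]⟩,⟨0,[(19,0)]⟩),(⟨0,[(25,0),(4,0)]⟩,⟨0,[(15,0)]⟩),⟨0,[(2,0)]⟩,.k,.k,(.r (-1) ⟨7,[(11,3),
  (4,0),(0,0),(14,0),(7,1),(2,1)]⟩ ⟨1,[(4,0),(11,0),(0,0)]⟩),(.r 0 ⟨0,[(7,0),(24,0),(1,0)]⟩ ⟨1,[(0,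
  1),(15,1),(6,2),(0,0)]⟩),(.r (-1) ⟨1,[(5,2),(1,4),(15,2),(8,5),(1,6),(0,0),(3,6)]⟩ ⟨3,[(0,1),(3,
  2),(4,1),(6,1),(6,3),(4,0)]⟩),.k,⟨true,0,⟨0,[(7,0),(24,0),(1,0)]⟩,⟨1,[(4,0),(4,1),(13,1),(4,0)]⟩⟩,
  ⟨false,0,⟨1,[(0,1),(6,0),(0,0),(31,0)]⟩,⟨0,[(16,0),(6,0)]⟩⟩,⟨false,1,⟨1,[(16,0),(0,0),(23,0)]⟩,⟨0,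
  []⟩⟩,⟨false,0,⟨0,[(0,0),(32,0)]⟩,⟨3,[(7,2),(0,0),(7,3),(6,3),(8,0),(7,1)]⟩⟩,⟨true,0,⟨0,[(39,0)]⟩,
  ⟨0,[(38,0)]⟩⟩,⟨false,0,⟨1,[(0,1),(3,0),(36,0)]⟩,⟨4,[(3,4),(1,0),(1,3),(0,1),(2,0),(11,5),(8,0),(2,
  1),(4,4)]⟩⟩,[.e ⟨false,1,⟨11,[(16,4),(0,4),(14,0),(7,5),(2,1)]⟩,⟨0,[]⟩⟩ ⟨false,0,⟨0,[(0,0)]⟩,⟨1,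
  [(7,0),(0,0),(7,1),(6,1),(16,0)]⟩⟩,.o ⟨false,1,⟨3,[(0,1),(3,0),(4,1),(6,1),(11,0),(12,1)]⟩,⟨8,[(7,
  6),(3,0),(9,1),(1,6),(11,2),(4,2)]⟩⟩,.o ⟨false,1,⟨0,[(16,0)]⟩,⟨0,[(1,0)]⟩⟩,.a ⟨true,0,⟨0,[(3,0)]⟩,
  ⟨1,[(0,1),(6,0),(0,0),(14,1),(16,0)]⟩⟩ ⟨false,1,⟨1,[(32,0),(7,0)]⟩,⟨1,[(23,0),(0,0)]⟩⟩ ⟨true,0,⟨0,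
  [(0,0)]⟩,⟨0,[(7,0),(8,0),(6,0)]⟩⟩]⟩) (.I [2,0,2,1,-1] (.R ⟨1,false,false,false,[1,0,0,0,-1],[0,1],
  [-1],(⟨0,[(19,0)]⟩,⟨0,[(20,0)]⟩),(⟨0,[(31,0)]⟩,⟨0,[(30,0)]⟩),⟨0,[(3,0)]⟩,.k,.k,(.r (-1) ⟨7,[(12,
  3),(4,0),(0,0),(14,0),(7,1),(2,1)]⟩ ⟨1,[(5,0),(11,0),(0,0)]⟩),(.r (-1) ⟨7,[(12,3),(4,0),(0,0),(14,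
  0),(7,1),(2,1)]⟩ ⟨1,[(5,0),(11,0),(0,0)]⟩),(.r (-2) ⟨11,[(12,11),(4,4),(0,4),(14,0),(7,5),(2,1)]⟩
  ⟨0,[(5,0)]⟩),.k,⟨true,1,⟨7,[(12,3),(4,0),(0,0),(14,0),(7,1),(2,1)]⟩,⟨0,[(0,0)]⟩⟩,⟨false,1,⟨0,[(2,
  0),(38,0)]⟩,⟨0,[(4,0)]⟩⟩,⟨false,1,⟨1,[(17,0),(0,0),(23,0)]⟩,⟨0,[]⟩⟩,⟨true,0,⟨0,[(2,0),(37,0)]⟩,⟨2,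
  [(1,1),(2,0),(1,1),(28,2),(4,2)]⟩⟩,⟨true,0,⟨0,[(40,0)]⟩,⟨0,[(39,0)]⟩⟩,⟨true,0,⟨0,[(2,0),(37,1)]⟩,
  ⟨0,[(1,0),(4,0),(28,0),(4,0)]⟩⟩,[.a ⟨true,0,⟨0,[(40,0)]⟩,⟨5,[(6,1),(1,0),(0,0),(9,3),(0,3),(3,1),
  (16,0)]⟩⟩ ⟨false,1,⟨11,[(17,4),(0,4),(14,0),(7,5),(2,1)]⟩,⟨0,[]⟩⟩ ⟨true,0,⟨0,[(2,0),(37,0)]⟩,⟨2,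
  [(1,0),(2,1),(1,0)]⟩⟩,.o ⟨false,1,⟨1,[(29,0),(10,1),(1,0)]⟩,⟨0,[(39,0)]⟩⟩,.o ⟨false,1,⟨0,[(17,
  0)]⟩,⟨0,[(2,0)]⟩⟩,.e ⟨false,1,⟨1,[(33,0),(7,0)]⟩,⟨1,[(24,0),(0,0)]⟩⟩ ⟨false,1,⟨1,[(2,1),(37,1),(0,
  0),(0,0)]⟩,⟨2,[(1,0),(2,1),(1,0)]⟩⟩]⟩) (.S ⟨1,0,[0,0,-1,-1],[1,-1],[1,1,1],(⟨0,[(30,0)]⟩,⟨0,[(31,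
  0)]⟩),⟨0,[(15,0),(0,0)]⟩,.k,(.x 0 ⟨0,[(24,0),(0,0),(5,1)]⟩ ⟨0,[(0,1),(4,0),(22,1)]⟩),⟨true,(-1),
  ⟨0,[(5,0),(33,0)]⟩,⟨0,[(0,0)]⟩⟩,⟨false,1,⟨1,[(17,0),(0,0),(23,0)]⟩,⟨0,[]⟩⟩,⟨false,(-1),⟨0,[(5,
  0)]⟩,⟨1,[(12,1),(28,0),(0,0)]⟩⟩,⟨true,0,⟨0,[(40,0)]⟩,⟨0,[(39,0)]⟩⟩,[.e ⟨false,0,⟨0,[(44,0)]⟩,⟨1,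
  [(41,0),(0,0)]⟩⟩ ⟨false,1,⟨0,[(0,0)]⟩,⟨1,[(5,0),(11,0),(0,0)]⟩⟩,.o ⟨false,1,⟨3,[(12,1),(11,0),(0,
  0),(16,1)]⟩,⟨2,[(5,0),(29,0),(0,0),(0,0),(2,0)]⟩⟩,.o ⟨false,0,⟨1,[(24,0),(0,0)]⟩,⟨1,[(29,0),(11,
  0)]⟩⟩,.a ⟨true,(-1),⟨2,[(5,1),(1,1),(0,0),(0,0),(9,0),(0,0),(3,1)]⟩,⟨0,[(41,0)]⟩⟩ ⟨false,0,⟨0,[]⟩,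
  ⟨1,[(17,0),(0,0),(23,0)]⟩⟩ ⟨true,1,⟨0,[(0,0)]⟩,⟨0,[(5,0),(33,0)]⟩⟩]⟩))))))))))) (.S ⟨1,0,[0,0,0,0,
  0,0,0,1],[0,0,1],[0,1,0,0,0,0,0,1],(⟨0,[(17,0)]⟩,⟨0,[(16,0)]⟩),⟨0,[(6,0)]⟩,.k,.k,⟨true,0,⟨0,[(34,
  0)]⟩,⟨0,[]⟩⟩,⟨false,1,⟨1,[(7,0),(0,0),(23,0)]⟩,⟨0,[]⟩⟩,⟨false,0,⟨0,[(30,0)]⟩,⟨3,[(2,1),(11,0),(0,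
  0),(16,1)]⟩⟩,⟨true,0,⟨0,[(30,0)]⟩,⟨0,[(29,0)]⟩⟩,[.o ⟨false,0,⟨0,[(0,0)]⟩,⟨1,[(7,0),(0,0),(4,1),
  (18,0)]⟩⟩,.o ⟨false,1,⟨3,[(0,1),(11,1),(6,0),(12,2)]⟩,⟨0,[(13,0)]⟩⟩,.o ⟨false,1,⟨1,[(14,1),(4,0),
  (11,0)]⟩,⟨0,[(0,0),(10,0),(1,0),(10,0)]⟩⟩,.a ⟨true,0,⟨0,[(14,0)]⟩,⟨0,[(11,0)]⟩⟩ ⟨false,0,⟨0,[(0,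
  0),(10,0)]⟩,⟨0,[(13,0),(0,0),(17,0)]⟩⟩ ⟨true,0,⟨0,[(0,0),(10,0)]⟩,⟨0,[(13,0),(0,0)]⟩⟩]⟩))

theorem ok1 : chk K t1 l2 = true := by decide +kernel

noncomputable def t2 : Tre :=
  (.Q [0,0,0,0,0,0,-1,0,0,0,-1] (.p false [0,0,1] [] (⟨0,[(16,0)]⟩,⟨0,[(15,0)]⟩) .k 0 (⟨0,[]⟩,⟨0,
  []⟩) .k .k) (.Q [0,-1,0,1,0,0,-1,-1,0,0,-1] (.p false [0,0,1] [] (⟨0,[(17,0)]⟩,⟨0,[(16,0)]⟩) .k 0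
  (⟨0,[]⟩,⟨0,[]⟩) .k .k) (.I [1,0,-1,-1,1,0,0,1] (.R ⟨2,true,false,true,[0,1],[0,0,1],[0,1,1,1],(⟨0,
  []⟩,⟨0,[]⟩),(⟨0,[(19,0)]⟩,⟨0,[(18,0)]⟩),⟨0,[]⟩,.k,.k,.k,.k,.k,.k,⟨false,0,⟨0,[(3,0),(23,0)]⟩,⟨0,
  [(0,0)]⟩⟩,⟨true,0,⟨0,[(16,0)]⟩,⟨0,[(2,0)]⟩⟩,⟨true,0,⟨0,[(36,0)]⟩,⟨0,[]⟩⟩,⟨false,1,⟨0,[(0,0),(15,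
  0)]⟩,⟨0,[(1,0)]⟩⟩,⟨false,0,⟨0,[(32,0)]⟩,⟨3,[(4,1),(11,0),(0,0),(16,1)]⟩⟩,⟨true,0,⟨0,[(14,0)]⟩,⟨0,
  [(1,0),(29,0)]⟩⟩,[]⟩) (.R ⟨2,true,false,true,[0,1],[0,0,1],[1,1,1],(⟨0,[]⟩,⟨0,[]⟩),(⟨0,[(19,0)]⟩,
  ⟨0,[(18,0)]⟩),⟨0,[]⟩,.k,.k,.k,.k,.k,.k,⟨false,0,⟨5,[(0,3),(2,1),(0,2),(24,0),(3,0)]⟩,⟨1,[(5,1),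
  (27,0),(0,0)]⟩⟩,⟨true,0,⟨0,[(16,0)]⟩,⟨0,[(2,0)]⟩⟩,⟨true,0,⟨0,[(31,0)]⟩,⟨0,[(32,0)]⟩⟩,⟨false,1,⟨3,
  [(4,1),(9,3),(1,0),(0,0),(16,1)]⟩,⟨0,[(1,0)]⟩⟩,⟨false,0,⟨0,[]⟩,⟨1,[(9,0),(0,0),(23,0)]⟩⟩,⟨true,0,
  ⟨0,[(14,0)]⟩,⟨2,[(0,0),(0,0),(0,0),(1,0),(10,0)]⟩⟩,[]⟩)) (.I [1,0,-2,-1,1,0,0,1] (.S ⟨1,0,[0,0,1,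
  1,0,0,0,-1],[1,1,-1],[0,1,1,1,0,0,0,-1],(⟨0,[(18,0),(4,0)]⟩,⟨0,[(8,0)]⟩),⟨0,[(18,0)]⟩,.k,.k,⟨true,
  0,⟨0,[(36,0)]⟩,⟨0,[]⟩⟩,⟨false,1,⟨1,[(9,0),(0,0),(23,0)]⟩,⟨0,[]⟩⟩,⟨false,0,⟨0,[(32,0)]⟩,⟨3,[(4,1),
  (11,0),(0,0),(16,1)]⟩⟩,⟨true,0,⟨0,[(32,0)]⟩,⟨0,[(31,0)]⟩⟩,[.o ⟨false,0,⟨0,[(2,0),(0,0),(23,0)]⟩,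
  ⟨1,[(1,1),(19,0),(12,0)]⟩⟩,.a ⟨true,0,⟨0,[(3,0),(9,0)]⟩,⟨0,[(1,0)]⟩⟩ ⟨false,0,⟨0,[(3,0),(23,0)]⟩,
  ⟨2,[(0,0),(3,0),(0,1),(28,0)]⟩⟩ ⟨true,0,⟨0,[(3,0)]⟩,⟨0,[(1,0),(0,0)]⟩⟩,.e ⟨false,0,⟨0,[(3,0),(32,
  0)]⟩,⟨0,[(0,0),(25,0)]⟩⟩ ⟨false,0,⟨0,[(3,0)]⟩,⟨2,[(0,0),(3,0),(0,1),(28,0)]⟩⟩,.o ⟨false,0,⟨0,[(2,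
  0)]⟩,⟨1,[(16,1),(4,0),(11,0)]⟩⟩]⟩) (.Q [0,-1,0,2,0,0,-1,-1,0,0,-1] (.p false [0,0,1] [] (⟨0,[(19,
  0)]⟩,⟨0,[(18,0)]⟩) .k 0 (⟨0,[]⟩,⟨0,[]⟩) .k .k) (.R ⟨1,true,false,false,[0,0,1],[0,1],[0,0,0,0,0,0,
  0,1],(⟨0,[(20,0)]⟩,⟨0,[(19,0)]⟩),(⟨0,[(24,0)]⟩,⟨0,[(23,0)]⟩),⟨0,[(9,0)]⟩,.k,.k,.k,.k,(.r (-2) ⟨1,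
  [(5,1),(0,1),(27,0),(0,0)]⟩ ⟨1,[(0,0),(0,1),(13,0)]⟩),.k,⟨true,1,⟨9,[(2,5),(2,1),(0,3),(7,5),(14,
  1),(4,0),(0,4)]⟩,⟨0,[(1,0)]⟩⟩,⟨false,1,⟨3,[(7,0),(6,1),(14,0),(4,2)]⟩,⟨0,[(17,0)]⟩⟩,⟨false,1,⟨1,
  [(10,0),(0,0),(23,0)]⟩,⟨0,[]⟩⟩,⟨true,0,⟨1,[(0,0),(15,0)]⟩,⟨0,[(2,0)]⟩⟩,⟨true,0,⟨0,[(33,0)]⟩,⟨0,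
  [(32,0)]⟩⟩,⟨false,0,⟨0,[(0,0)]⟩,⟨3,[(2,3),(2,1),(11,0),(0,0),(16,1)]⟩⟩,[]⟩) (.I [0,-1,-1,0,1,0,0,
  1] (.S ⟨1,0,[0,0,1,1,0,0,0,-1],[1,1,-1],[],(⟨0,[(20,0),(4,0)]⟩,⟨0,[(10,0)]⟩),⟨0,[(20,0)]⟩,.k,.k,
  ⟨true,1,⟨1,[(0,0),(5,0),(0,0)]⟩,⟨0,[(2,0),(26,0)]⟩⟩,⟨false,1,⟨1,[(11,0),(0,0),(23,0)]⟩,⟨0,[]⟩⟩,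
  ⟨false,1,⟨0,[(0,0)]⟩,⟨2,[(2,0),(2,0),(0,0),(10,0),(0,0)]⟩⟩,⟨true,0,⟨0,[(34,0)]⟩,⟨0,[(33,0)]⟩⟩,[.o
  ⟨false,0,⟨3,[(2,0),(2,1),(9,2),(1,0),(11,0),(0,0),(3,0)]⟩,⟨1,[(3,1),(19,0),(12,0)]⟩⟩,.a ⟨true,0,
  ⟨0,[(5,0),(9,0)]⟩,⟨0,[(3,0)]⟩⟩ ⟨false,1,⟨1,[(35,0),(0,0)]⟩,⟨0,[(38,0)]⟩⟩ ⟨true,0,⟨0,[(5,0)]⟩,⟨1,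
  [(1,0),(2,0),(2,0)]⟩⟩,.e ⟨false,1,⟨1,[(11,0),(0,0),(23,0)]⟩,⟨0,[]⟩⟩ ⟨false,0,⟨0,[(5,0)]⟩,⟨1,[(0,
  0),(5,0),(0,0)]⟩⟩,.o ⟨false,0,⟨0,[(4,0)]⟩,⟨1,[(18,1),(4,0),(11,0)]⟩⟩]⟩) (.Q [0,0,-1,0,1,0,1,0,0,
  -1,1] (.p true [0,0,1] [1] (⟨0,[(21,0)]⟩,⟨0,[(20,0)]⟩) .k 1 (⟨0,[]⟩,⟨0,[]⟩) .k .k) (.S ⟨1,0,[0,0,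
  0,0,0,0,0,-1],[1,0,-1],[0,1,0,0,0,0,0,-1],(⟨0,[(21,0)]⟩,⟨0,[(22,0)]⟩),⟨0,[(10,0)]⟩,.k,.k,⟨true,0,
  ⟨0,[(39,0)]⟩,⟨0,[]⟩⟩,⟨false,1,⟨1,[(12,0),(0,0),(23,0)]⟩,⟨0,[]⟩⟩,⟨false,0,⟨0,[(35,0)]⟩,⟨3,[(7,1),
  (11,0),(0,0),(16,1)]⟩⟩,⟨true,0,⟨0,[(35,0)]⟩,⟨0,[(34,0)]⟩⟩,[.o ⟨false,0,⟨3,[(1,2),(14,2),(1,0),(12,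
  0),(5,1)]⟩,⟨1,[(17,1),(6,0),(12,0)]⟩⟩,.a ⟨true,0,⟨0,[(1,0),(14,0),(20,0)]⟩,⟨0,[(17,0)]⟩⟩ ⟨true,0,
  ⟨1,[(1,1),(34,0),(0,0)]⟩,⟨0,[(8,0),(20,0)]⟩⟩ ⟨false,1,⟨0,[(1,0),(34,0),(0,0)]⟩,⟨0,[(8,0)]⟩⟩,.o
  ⟨false,0,⟨0,[(5,0)]⟩,⟨3,[(0,1),(11,0),(0,0),(5,1),(4,0)]⟩⟩,.o ⟨false,0,⟨0,[(20,0)]⟩,⟨0,[(0,
  0)]⟩⟩]⟩) (.Q [0,0,0,0,0,1,0,0,0,-1,0,1] (.ed false [0,1,0,0,1] .k) (.Q [0,0,2,0,-1,0,0,0,-1,1,0,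
  -1] (.p false [0,0,0,0,1] [1] (⟨0,[(16,0)]⟩,⟨0,[(15,0)]⟩) .k 1 (⟨0,[]⟩,⟨0,[]⟩) .k .k) (.Q [-1,0,0,
  0,0,0,0,0,-2,1,0,-2] (.p false [0,0,0,0,1] [1,0,0,0,-1] (⟨0,[(17,0)]⟩,⟨0,[(16,0)]⟩) .k 2 (⟨0,[(16,
  0)]⟩,⟨0,[(17,0)]⟩) .k (.r 0 ⟨0,[]⟩ ⟨2,[(14,1),(0,1),(14,0),(10,1)]⟩)) (.R ⟨0,false,false,true,[1,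
  0,0,0,-1],[0,1],[1,1,1],(⟨0,[(17,0)]⟩,⟨0,[(18,0)]⟩),(⟨0,[(29,0)]⟩,⟨0,[(28,0)]⟩),⟨0,[(2,0)]⟩,.k,.k,
  (.r (-1) ⟨7,[(10,3),(4,0),(0,0),(14,0),(7,1),(2,1)]⟩ ⟨1,[(22,0),(0,0),(14,1)]⟩),(.r (-1) ⟨7,[(10,
  3),(4,0),(0,0),(14,0),(7,1),(2,1)]⟩ ⟨1,[(22,0),(0,0),(14,1)]⟩),.k,.k,⟨false,1,⟨3,[(10,1),(4,0),(0,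
  0),(22,0)]⟩,⟨0,[(38,0)]⟩⟩,⟨true,1,⟨1,[(16,1),(10,0),(11,0)]⟩,⟨0,[(1,0)]⟩⟩,⟨false,0,⟨1,[(22,0),(0,
  0)]⟩,⟨1,[(31,0),(7,0)]⟩⟩,⟨true,0,⟨2,[(6,0),(4,0),(4,2),(16,1),(0,0),(3,1)]⟩,⟨1,[(0,0),(3,0),(0,0),
  (13,0),(20,0)]⟩⟩,⟨false,0,⟨0,[]⟩,⟨0,[]⟩⟩,⟨false,0,⟨0,[]⟩,⟨0,[]⟩⟩,[.o ⟨false,0,⟨2,[(6,0),(4,0),(21,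
  1),(0,0),(3,1)]⟩,⟨3,[(10,1),(11,0),(0,0),(16,1)]⟩⟩,.e ⟨false,0,⟨0,[]⟩,⟨1,[(15,0),(0,0),(22,0)]⟩⟩
  ⟨false,1,⟨1,[(16,1),(10,0),(10,1),(0,0)]⟩,⟨1,[(0,0),(3,0),(0,0),(13,0),(20,0)]⟩⟩,.a ⟨true,0,⟨1,
  [(0,0),(16,0),(0,0)]⟩,⟨0,[(16,0)]⟩⟩ ⟨false,0,⟨1,[(22,0),(0,0)]⟩,⟨1,[(39,0),(0,0)]⟩⟩ ⟨true,0,⟨2,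
  [(6,0),(4,0),(4,2),(16,1),(0,0),(3,1)]⟩,⟨1,[(0,0),(3,0),(0,0),(13,0),(20,0)]⟩⟩,.o ⟨false,0,⟨7,[(0,
  0),(0,3),(13,1),(11,0),(6,0)]⟩,⟨1,[(16,1),(10,0),(11,0)]⟩⟩]⟩) (.R ⟨0,false,false,true,[1,0,0,0,
  -1],[1,-1],[],(⟨0,[(17,0)]⟩,⟨0,[(18,0)]⟩),(⟨0,[(28,0)]⟩,⟨0,[(29,0)]⟩),⟨0,[(2,0)]⟩,.k,.k,(.r (-1)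
  ⟨7,[(10,3),(4,0),(0,0),(14,0),(7,1),(2,1)]⟩ ⟨1,[(22,0),(0,0),(14,1)]⟩),(.r 0 ⟨1,[(22,0),(0,0),(14,
  1)]⟩ ⟨3,[(10,1),(4,0),(0,0),(22,0)]⟩),.k,.k,⟨true,0,⟨0,[(32,0),(5,0)]⟩,⟨0,[(37,0)]⟩⟩,⟨false,0,⟨0,
  [(16,0)]⟩,⟨3,[(1,2),(13,0),(18,0),(4,4)]⟩⟩,⟨true,0,⟨0,[]⟩,⟨0,[(42,0)]⟩⟩,⟨false,0,⟨1,[(0,0),(3,0),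
  (0,0),(13,0),(20,0)]⟩,⟨3,[(1,2),(13,0),(18,0),(3,3),(0,2),(0,1)]⟩⟩,⟨false,0,⟨0,[]⟩,⟨0,[]⟩⟩,⟨false,
  0,⟨0,[]⟩,⟨0,[]⟩⟩,[.o ⟨false,0,⟨0,[(37,0)]⟩,⟨1,[(27,0),(10,1),(1,0)]⟩⟩,.a ⟨true,0,⟨1,[(4,0),(0,0),
  (11,0),(0,0),(0,0),(20,0)]⟩,⟨0,[(38,0)]⟩⟩ ⟨false,1,⟨1,[(39,0),(0,0)]⟩,⟨0,[(42,0)]⟩⟩ ⟨true,0,⟨1,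
  [(0,0),(3,0),(0,0),(13,0),(20,0)]⟩,⟨3,[(1,2),(13,0),(18,0),(3,3),(0,0)]⟩⟩,.e ⟨false,1,⟨1,[(15,0),
  (0,0),(23,0)]⟩,⟨0,[]⟩⟩ ⟨false,0,⟨1,[(0,0),(3,0),(0,0),(13,0),(20,0)]⟩,⟨3,[(1,2),(13,0),(18,0),(3,
  3),(0,2),(0,1)]⟩⟩,.o ⟨false,0,⟨3,[(1,2),(13,0),(18,0),(4,0)]⟩,⟨39,[(0,25),(14,11),(11,6),(3,0),(7,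
  19),(2,1)]⟩⟩]⟩)) (.Q [0,0,-1,0,0,0,0,0,1,-1,0,1] (.p true [0,0,0,0,1] [1] (⟨0,[(17,0)]⟩,⟨0,[(16,
  0)]⟩) .k 1 (⟨0,[]⟩,⟨0,[]⟩) .k .k) (.R ⟨0,false,false,false,[1,0,0,0,-1],[0,1],[0,1,0,-1],(⟨0,[(17,
  0)]⟩,⟨0,[(18,0)]⟩),(⟨0,[(29,0)]⟩,⟨0,[(28,0)]⟩),⟨0,[(2,0)]⟩,.k,.k,(.r (-1) ⟨7,[(10,3),(4,0),(0,0),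
  (14,0),(7,1),(2,1)]⟩ ⟨1,[(22,0),(0,0),(14,1)]⟩),(.r (-1) ⟨7,[(10,3),(4,0),(0,0),(14,0),(7,1),(2,
  1)]⟩ ⟨1,[(22,0),(0,0),(14,1)]⟩),.k,.k,⟨false,1,⟨1,[(3,2),(0,2),(0,2),(25,6),(1,9),(0,0),(3,1)]⟩,
  ⟨0,[(32,0),(5,1)]⟩⟩,⟨true,0,⟨0,[(0,0)]⟩,⟨0,[(3,0),(11,0),(6,0)]⟩⟩,⟨true,0,⟨0,[(37,0)]⟩,⟨0,[(38,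
  0)]⟩⟩,⟨false,0,⟨0,[(0,0),(31,0),(5,0)]⟩,⟨1,[(4,0),(0,0),(9,1),(1,0),(0,0),(0,0),(11,0)]⟩⟩,⟨false,
  0,⟨0,[]⟩,⟨0,[]⟩⟩,⟨false,0,⟨0,[]⟩,⟨0,[]⟩⟩,[.a ⟨true,0,⟨0,[(38,0)]⟩,⟨1,[(4,0),(0,0),(11,0),(0,0),(0,
  0),(20,0)]⟩⟩ ⟨true,0,⟨0,[(37,0)]⟩,⟨0,[(32,0),(5,0)]⟩⟩ ⟨false,0,⟨0,[(0,0),(37,0)]⟩,⟨1,[(4,0),(0,0),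
  (9,1),(1,0),(0,0),(0,0),(20,0)]⟩⟩,.o ⟨false,1,⟨1,[(27,0),(10,1),(1,0)]⟩,⟨0,[(37,0)]⟩⟩,.o ⟨false,1,
  ⟨0,[(15,0)]⟩,⟨14,[(0,6),(2,0),(1,0),(0,1),(4,0),(4,7),(15,1),(1,2)]⟩⟩,.o ⟨false,1,⟨1,[(15,1),(6,
  0),(0,0)]⟩,⟨0,[(0,0)]⟩⟩]⟩) (.Q [0,0,1,0,0,0,0,0,-1,0,0,-1] (.p false [0,0,0,0,1] [] (⟨0,[(18,0)]⟩,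
  ⟨0,[(17,0)]⟩) .k 0 (⟨0,[]⟩,⟨0,[]⟩) .k .k) (.R ⟨0,false,false,true,[1,0,0,0,-1],[1,-1],[],(⟨0,[(18,
  0)]⟩,⟨0,[(19,0)]⟩),(⟨0,[(29,0)]⟩,⟨0,[(30,0)]⟩),⟨0,[(3,0)]⟩,.k,.k,(.r (-1) ⟨7,[(11,3),(4,0),(0,0),
  (14,0),(7,1),(2,1)]⟩ ⟨1,[(23,0),(0,0),(14,1)]⟩),(.r 0 ⟨1,[(23,0),(0,0),(14,1)]⟩ ⟨3,[(11,1),(4,0),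
  (0,0),(22,0)]⟩),.k,.k,⟨true,0,⟨0,[(33,0),(5,0)]⟩,⟨0,[(38,0)]⟩⟩,⟨false,0,⟨0,[(17,0)]⟩,⟨0,[(0,0),
  (39,0)]⟩⟩,⟨true,0,⟨0,[]⟩,⟨0,[(43,0)]⟩⟩,⟨false,0,⟨1,[(2,0),(1,0),(0,0),(0,0),(10,0),(23,0)]⟩,⟨1,
  [(0,1),(38,1),(0,0),(0,0)]⟩⟩,⟨false,0,⟨0,[]⟩,⟨0,[]⟩⟩,⟨false,0,⟨0,[]⟩,⟨0,[]⟩⟩,[.o ⟨false,0,⟨0,[(38,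
  0)]⟩,⟨1,[(28,0),(10,1),(1,0)]⟩⟩,.a ⟨true,0,⟨1,[(5,0),(0,0),(11,0),(0,0),(0,0),(20,0)]⟩,⟨0,[(39,
  0)]⟩⟩ ⟨false,1,⟨1,[(40,0),(0,0)]⟩,⟨0,[(43,0)]⟩⟩ ⟨true,0,⟨1,[(2,0),(1,0),(0,0),(0,0),(10,0),(23,
  0)]⟩,⟨0,[(0,0),(38,0)]⟩⟩,.e ⟨false,1,⟨1,[(16,0),(0,0),(23,0)]⟩,⟨0,[]⟩⟩ ⟨false,0,⟨1,[(2,0),(1,0),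
  (0,0),(0,0),(10,0),(23,0)]⟩,⟨1,[(0,1),(38,1),(0,0),(0,0)]⟩⟩,.o ⟨false,0,⟨0,[(0,0)]⟩,⟨3,[(2,1),(13,
  0),(0,2),(10,0)]⟩⟩]⟩) (.Q [1,0,0,0,-1,0,-1,-1,1,0,-1,1] (.p false [0,0,1] [0,0,0,0,1] (⟨0,[(26,
  0)]⟩,⟨0,[(25,0)]⟩) .k 2 (⟨0,[(19,0)]⟩,⟨0,[(18,0)]⟩) .k (.r (-1) ⟨1,[(12,1),(3,0),(0,0),(23,0)]⟩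
  ⟨1,[(5,1),(34,0),(0,0)]⟩)) (.R ⟨0,false,false,false,[1,0,0,0,-1],[1,-1],[],(⟨0,[(19,0)]⟩,⟨0,[(20,
  0)]⟩),(⟨0,[(30,0)]⟩,⟨0,[(31,0)]⟩),⟨0,[(4,0)]⟩,.k,.k,(.r (-1) ⟨7,[(12,3),(4,0),(0,0),(14,0),(7,1),
  (2,1)]⟩ ⟨1,[(24,0),(0,0),(14,1)]⟩),(.r 0 ⟨1,[(24,0),(0,0),(14,1)]⟩ ⟨3,[(12,1),(4,0),(0,0),(22,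
  0)]⟩),.k,.k,⟨false,0,⟨0,[(40,0)]⟩,⟨3,[(12,1),(4,0),(0,0),(22,0)]⟩⟩,⟨true,(-1),⟨0,[(0,0),(8,0),(24,
  0),(5,0)]⟩,⟨0,[(17,0)]⟩⟩,⟨true,0,⟨0,[]⟩,⟨0,[(44,0)]⟩⟩,⟨false,0,⟨1,[(0,0),(0,0),(5,0),(26,0),(7,
  0)]⟩,⟨0,[(17,0),(22,0)]⟩⟩,⟨false,0,⟨0,[]⟩,⟨0,[]⟩⟩,⟨false,0,⟨0,[]⟩,⟨0,[]⟩⟩,[.e ⟨false,1,⟨1,[(17,0),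
  (0,0),(22,0)]⟩,⟨0,[]⟩⟩ ⟨false,0,⟨3,[(0,1),(0,1),(5,1),(33,0),(0,0)]⟩,⟨0,[(17,0),(22,0)]⟩⟩,.o
  ⟨false,1,⟨3,[(12,1),(11,0),(0,0),(16,1)]⟩,⟨2,[(8,0),(4,0),(21,1),(0,0),(3,1)]⟩⟩,.o ⟨false,1,⟨0,
  [(17,0)]⟩,⟨8,[(0,0),(0,6),(5,0),(0,1),(4,1),(4,0),(15,2),(1,2)]⟩⟩,.a ⟨true,0,⟨0,[(2,0)]⟩,⟨0,[(1,
  0)]⟩⟩ ⟨false,1,⟨1,[(41,0),(0,0)]⟩,⟨1,[(24,0),(0,0)]⟩⟩ ⟨true,0,⟨3,[(0,1),(0,1),(5,1),(33,0),(0,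
  0)]⟩,⟨2,[(2,2),(5,0),(4,0),(21,1),(0,0),(3,1)]⟩⟩]⟩) (.R ⟨0,false,false,true,[1,0,0,0,-1],[1,0,-1],
  [-1],(⟨0,[(19,0)]⟩,⟨0,[(20,0)]⟩),(⟨0,[(26,0)]⟩,⟨0,[(27,0)]⟩),⟨0,[(4,0)]⟩,.k,.k,(.r (-1) ⟨7,[(12,
  3),(4,0),(0,0),(14,0),(7,1),(2,1)]⟩ ⟨1,[(24,0),(0,0),(14,1)]⟩),.k,.k,.k,⟨true,1,⟨0,[(13,0),(28,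
  0)]⟩,⟨0,[(6,0)]⟩⟩,⟨false,0,⟨0,[(3,0),(1,0)]⟩,⟨1,[(0,1),(5,1),(34,0),(0,0)]⟩⟩,⟨false,1,⟨1,[(17,0),
  (0,0),(23,0)]⟩,⟨0,[]⟩⟩,⟨true,(-1),⟨0,[(3,0),(1,0),(0,0)]⟩,⟨0,[(0,0)]⟩⟩,⟨false,0,⟨0,[]⟩,⟨0,[]⟩⟩,
  ⟨false,0,⟨0,[]⟩,⟨0,[]⟩⟩,[.a ⟨true,(-1),⟨0,[(6,0),(14,0)]⟩,⟨0,[(22,0),(19,0)]⟩⟩ ⟨false,1,⟨11,[(17,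
  4),(0,4),(14,0),(7,5),(2,1)]⟩,⟨0,[]⟩⟩ ⟨true,(-1),⟨0,[(3,0),(1,0),(0,0)]⟩,⟨0,[(0,0),(33,0)]⟩⟩,.o
  ⟨false,0,⟨3,[(6,2),(14,2),(1,0),(12,0),(5,1)]⟩,⟨1,[(22,1),(6,0),(12,0)]⟩⟩,.o ⟨false,1,⟨0,[(17,
  0)]⟩,⟨7,[(1,6),(3,0),(1,0),(0,1),(4,0),(4,0),(15,1),(1,2)]⟩⟩,.e ⟨false,1,⟨1,[(33,0),(7,0)]⟩,⟨1,
  [(24,0),(0,0)]⟩⟩ ⟨false,0,⟨1,[(3,1),(1,0),(0,1),(14,0),(20,0)]⟩,⟨0,[(0,0),(33,0)]⟩⟩]⟩))))) (.Q [0,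
  0,-1,0,0,0,0,0,1,-1,0,1] (.p true [0,0,0,0,1] [1] (⟨0,[(16,0)]⟩,⟨0,[(15,0)]⟩) .k 1 (⟨0,[]⟩,⟨0,
  []⟩) .k .k) (.R ⟨1,false,false,true,[1,0,0,0,-1],[1,0,-1],[-1,1],(⟨0,[(16,0)]⟩,⟨0,[(17,0)]⟩),(⟨0,
  [(23,0)]⟩,⟨0,[(24,0)]⟩),⟨0,[(1,0)]⟩,.k,.k,(.r (-1) ⟨7,[(9,3),(4,0),(0,0),(14,0),(7,1),(2,1)]⟩ ⟨1,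
  [(21,0),(0,0),(14,1)]⟩),.k,(.r (-1) ⟨7,[(4,3),(5,3),(0,0),(6,1),(14,0),(4,2),(0,3)]⟩ ⟨0,[(8,0),
  (32,0)]⟩),.k,⟨false,1,⟨1,[(10,1),(27,0),(0,0)]⟩,⟨1,[(3,1),(34,0),(0,0)]⟩⟩,⟨true,(-1),⟨0,[(0,0),(1,
  0)]⟩,⟨0,[(14,0),(6,0)]⟩⟩,⟨true,0,⟨0,[(41,0)]⟩,⟨0,[]⟩⟩,⟨false,(-1),⟨1,[(0,1),(1,0),(0,1),(14,0),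
  (20,0)]⟩,⟨0,[(14,0),(4,0),(19,0)]⟩⟩,⟨false,0,⟨0,[(37,0)]⟩,⟨3,[(9,1),(11,0),(0,0),(16,1)]⟩⟩,⟨false,
  (-1),⟨0,[(0,0),(4,0),(12,0)]⟩,⟨0,[(6,0),(7,0),(24,0)]⟩⟩,[.a ⟨true,(-1),⟨0,[(3,0),(14,0)]⟩,⟨0,[(19,
  0),(19,0)]⟩⟩ ⟨true,0,⟨0,[(41,0)]⟩,⟨0,[(31,0)]⟩⟩ ⟨false,(-1),⟨0,[(0,0),(2,0),(14,0)]⟩,⟨0,[(14,0),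
  (4,0),(19,0)]⟩⟩,.o ⟨false,0,⟨3,[(3,2),(14,2),(1,0),(12,0),(5,1)]⟩,⟨1,[(19,1),(6,0),(12,0)]⟩⟩,.o
  ⟨false,1,⟨0,[(14,0)]⟩,⟨14,[(0,6),(1,0),(1,0),(0,1),(4,0),(4,7),(15,1),(1,2)]⟩⟩,.o ⟨false,1,⟨1,
  [(14,1),(6,0),(0,0)]⟩,⟨0,[(0,0)]⟩⟩]⟩) (.Q [0,0,0,0,0,0,0,0,-1,1,0,-1] (.p false [0,0,0,0,1] [1]
  (⟨0,[(17,0)]⟩,⟨0,[(16,0)]⟩) .k 1 (⟨0,[]⟩,⟨0,[]⟩) .k .k) (.S ⟨1,0,[-1,1],[1,0,0,0,-1],[-1],(⟨0,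
  [(17,0)]⟩,⟨0,[(18,0)]⟩),⟨0,[(2,0)]⟩,.k,(.r (-1) ⟨7,[(10,3),(4,0),(0,0),(14,0),(7,1),(2,1)]⟩ ⟨1,
  [(22,0),(0,0),(14,1)]⟩),⟨false,1,⟨1,[(15,0),(0,0),(23,0)]⟩,⟨0,[]⟩⟩,⟨true,0,⟨0,[(42,0)]⟩,⟨0,[]⟩⟩,
  ⟨true,0,⟨0,[(38,0)]⟩,⟨0,[(37,0)]⟩⟩,⟨false,0,⟨0,[(38,0)]⟩,⟨3,[(10,1),(11,0),(0,0),(16,1)]⟩⟩,[.o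
  ⟨false,0,⟨10,[(0,10),(2,3),(1,3),(0,3),(24,2),(1,11),(0,4),(3,3),(3,0)]⟩,⟨1,[(16,1),(10,0),(12,
  0)]⟩⟩,.e ⟨false,1,⟨1,[(31,0),(7,0)]⟩,⟨0,[(42,0)]⟩⟩ ⟨false,1,⟨11,[(15,4),(0,4),(14,0),(7,5),(2,
  1)]⟩,⟨0,[]⟩⟩,.a ⟨true,0,⟨0,[(0,0)]⟩,⟨0,[(16,0)]⟩⟩ ⟨false,1,⟨1,[(15,0),(0,0),(14,0)]⟩,⟨0,[]⟩⟩
  ⟨true,0,⟨0,[(42,0)]⟩,⟨0,[]⟩⟩,.o ⟨false,0,⟨7,[(0,6),(0,0),(1,0),(1,0),(0,1),(4,0),(20,1),(1,2)]⟩,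
  ⟨1,[(16,1),(10,0),(11,0)]⟩⟩]⟩) (.Q [-1,0,0,-1,1,0,1,1,-1,0,1,-1] (.p true [0,0,1] [0,0,0,0,1] (⟨0,
  [(25,0)]⟩,⟨0,[(24,0)]⟩) .k 2 (⟨0,[(18,0)]⟩,⟨0,[(17,0)]⟩) .k (.r (-1) ⟨1,[(11,1),(3,0),(0,0),(23,
  0)]⟩ ⟨1,[(4,1),(34,0),(0,0)]⟩)) (.R ⟨1,false,false,true,[1,0,0,0,-1],[1,0,-1],[-1],(⟨0,[(18,0)]⟩,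
  ⟨0,[(19,0)]⟩),(⟨0,[(25,0)]⟩,⟨0,[(26,0)]⟩),⟨0,[(3,0)]⟩,.k,.k,(.r (-1) ⟨7,[(11,3),(4,0),(0,0),(14,
  0),(7,1),(2,1)]⟩ ⟨1,[(23,0),(0,0),(14,1)]⟩),.k,(.r (-1) ⟨7,[(6,3),(5,3),(0,0),(6,1),(14,0),(4,2),
  (0,3)]⟩ ⟨0,[(10,0),(32,0)]⟩),.k,⟨true,1,⟨0,[(12,0),(28,0)]⟩,⟨0,[(5,0)]⟩⟩,⟨false,0,⟨0,[(1,0),(18,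
  0)]⟩,⟨0,[(0,0),(9,0),(23,0)]⟩⟩,⟨false,1,⟨1,[(16,0),(0,0),(23,0)]⟩,⟨0,[]⟩⟩,⟨true,(-1),⟨0,[(1,0),(3,
  0),(14,0)]⟩,⟨0,[(0,0),(38,0)]⟩⟩,⟨true,0,⟨0,[(39,0)]⟩,⟨0,[(38,0)]⟩⟩,⟨true,(-1),⟨0,[(1,0),(5,0),(12,
  0),(13,0)]⟩,⟨0,[(0,0)]⟩⟩,[.a ⟨true,(-1),⟨0,[(5,0),(14,0)]⟩,⟨0,[(21,0),(19,0)]⟩⟩ ⟨false,1,⟨11,[(16,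
  4),(0,4),(14,0),(7,5),(2,1)]⟩,⟨0,[]⟩⟩ ⟨true,(-1),⟨0,[(1,0),(3,0),(14,0)]⟩,⟨0,[(0,0),(32,0),(5,
  0)]⟩⟩,.o ⟨false,0,⟨3,[(5,2),(14,2),(1,0),(12,0),(5,1)]⟩,⟨1,[(21,1),(6,0),(12,0)]⟩⟩,.o ⟨false,1,⟨0,
  [(16,0)]⟩,⟨0,[(1,0)]⟩⟩,.e ⟨false,1,⟨1,[(32,0),(7,0)]⟩,⟨1,[(23,0),(0,0)]⟩⟩ ⟨false,0,⟨1,[(1,1),(3,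
  1),(14,1),(19,0),(0,0)]⟩,⟨0,[(0,0),(32,0),(5,0)]⟩⟩]⟩) (.Q [-1,1,0,0,0,0,0,0,-1,1,0,-1] (.p false
  [0,0,0,0,1] [1] (⟨0,[(19,0)]⟩,⟨0,[(18,0)]⟩) .k 1 (⟨0,[]⟩,⟨0,[]⟩) .k .k) (.S ⟨1,0,[-1,1],[1,0,0,0,
  -1],[-1],(⟨0,[(19,0)]⟩,⟨0,[(20,0)]⟩),⟨0,[(4,0)]⟩,.k,(.r (-1) ⟨7,[(12,3),(4,0),(0,0),(14,0),(7,1),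
  (2,1)]⟩ ⟨1,[(24,0),(0,0),(14,1)]⟩),⟨false,1,⟨1,[(17,0),(0,0),(23,0)]⟩,⟨0,[]⟩⟩,⟨true,0,⟨0,[(44,
  0)]⟩,⟨0,[]⟩⟩,⟨true,0,⟨0,[(40,0)]⟩,⟨0,[(39,0)]⟩⟩,⟨false,0,⟨0,[(40,0)]⟩,⟨3,[(12,1),(11,0),(0,0),(16,
  1)]⟩⟩,[.a ⟨true,0,⟨0,[(0,0)]⟩,⟨0,[(1,0),(7,0),(32,0)]⟩⟩ ⟨false,1,⟨11,[(17,4),(0,4),(14,0),(7,5),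
  (2,1)]⟩,⟨0,[]⟩⟩ ⟨true,0,⟨0,[(44,0)]⟩,⟨0,[(34,0)]⟩⟩,.o ⟨false,1,⟨3,[(0,1),(16,1),(11,0),(3,0)]⟩,⟨0,
  [(2,0)]⟩⟩,.o ⟨false,1,⟨0,[(17,0)]⟩,⟨0,[(2,0)]⟩⟩,.e ⟨false,1,⟨1,[(33,0),(7,0)]⟩,⟨1,[(24,0),(0,
  0)]⟩⟩ ⟨false,1,⟨11,[(17,4),(0,4),(14,0),(7,5),(2,1)]⟩,⟨0,[(34,0)]⟩⟩]⟩) (.R ⟨1,false,false,false,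
  [1,0,-1],[0,0,0,0,1],[0,1,0,0,0,0,0,-1],(⟨0,[(26,0)]⟩,⟨0,[(27,0)]⟩),(⟨0,[(20,0)]⟩,⟨0,[(19,0)]⟩),
  ⟨0,[(15,0)]⟩,.k,.k,.k,.k,(.r (-1) ⟨5,[(6,1),(4,3),(0,4),(24,0),(3,2)]⟩ ⟨0,[(13,0),(20,0),(5,0)]⟩),
  .k,⟨false,0,⟨0,[(6,0),(26,0),(1,1)]⟩,⟨0,[(13,0),(28,0)]⟩⟩,⟨true,0,⟨2,[(0,2),(5,0),(1,0),(0,0),(12,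
  0),(1,0),(16,1)]⟩,⟨0,[(5,0),(11,0)]⟩⟩,⟨true,0,⟨0,[(44,0)]⟩,⟨0,[]⟩⟩,⟨true,0,⟨0,[(0,0),(21,0)]⟩,⟨0,
  [(5,0),(0,0),(10,0),(23,0)]⟩⟩,⟨false,0,⟨0,[(40,0)]⟩,⟨3,[(12,1),(11,0),(0,0),(16,1)]⟩⟩,⟨true,0,⟨0,
  [(0,0),(21,0),(17,0)]⟩,⟨1,[(3,1),(2,2),(0,0),(13,2),(11,0),(2,0),(4,0)]⟩⟩,[.o ⟨false,0,⟨0,[(2,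
  0)]⟩,⟨6,[(3,5),(13,0),(15,0),(2,1),(4,2),(2,1)]⟩⟩,.o ⟨false,0,⟨0,[(0,0)]⟩,⟨0,[(17,0),(26,0)]⟩⟩,.o
  ⟨false,0,⟨0,[(10,0)]⟩,⟨1,[(24,1),(4,0),(11,0)]⟩⟩,.a ⟨true,(-1),⟨0,[(5,0)]⟩,⟨0,[(24,0),(16,0)]⟩⟩
  ⟨true,0,⟨0,[(6,0),(34,0)]⟩,⟨0,[(13,0),(20,0)]⟩⟩ ⟨false,1,⟨0,[(0,0),(23,0),(16,0)]⟩,⟨6,[(3,5),(1,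
  6),(11,0),(15,0),(2,1),(4,2),(2,1)]⟩⟩]⟩))))))))))) (.I [1,1,-1,-1,0,0,0,-1] (.K ⟨0,[0,1,1],0,0,
  (⟨0,[(18,0),(3,0)]⟩,⟨0,[(6,0)]⟩),.k,.k,(.r 0 ⟨0,[(13,0),(2,0),(8,0),(5,1)]⟩ ⟨0,[(0,0),(0,2),(10,
  2),(12,1),(1,0),(2,0)]⟩),.k,.k,[⟨1,[(15,0),(0,0)]⟩,⟨0,[(1,0)]⟩,⟨0,[(0,0),(15,0)]⟩,⟨0,[(13,0),(17,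
  0)]⟩]⟩) (.Q [0,1,0,-1,0,0,-1,-1,0,0,-1] (.p false [0,0,1] [] (⟨0,[(18,0)]⟩,⟨0,[(17,0)]⟩) .k 0 (⟨0,
  []⟩,⟨0,[]⟩) .k .k) (.S ⟨1,0,[0,0,1,1,0,0,0,1],[0,1,1],[0,1,1,1,0,0,0,1],(⟨0,[(19,0),(3,0)]⟩,⟨0,
  [(7,0)]⟩),⟨0,[(19,0)]⟩,.k,.k,⟨true,0,⟨0,[(36,0)]⟩,⟨0,[]⟩⟩,⟨false,1,⟨1,[(9,0),(0,0),(23,0)]⟩,⟨0,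
  []⟩⟩,⟨false,0,⟨0,[(32,0)]⟩,⟨3,[(4,1),(11,0),(0,0),(16,1)]⟩⟩,⟨true,0,⟨0,[(32,0)]⟩,⟨0,[(31,0)]⟩⟩,
  [.e ⟨false,0,⟨0,[(1,0),(27,0)]⟩,⟨0,[(0,0),(1,3),(10,2),(12,1),(1,0)]⟩⟩ ⟨false,0,⟨0,[(1,0),(25,
  0)]⟩,⟨1,[(0,0),(1,0),(0,0),(0,0),(28,0)]⟩⟩,.o ⟨false,1,⟨1,[(1,1),(0,1),(18,0),(11,0)]⟩,⟨0,[(0,
  0)]⟩⟩,.o ⟨false,1,⟨1,[(2,1),(18,0),(11,0)]⟩,⟨0,[(17,0)]⟩⟩,.a ⟨true,0,⟨0,[(2,0)]⟩,⟨1,[(6,0),(4,0),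
  (0,0)]⟩⟩ ⟨false,0,⟨0,[(1,0),(25,0)]⟩,⟨0,[(3,0),(0,0)]⟩⟩ ⟨true,0,⟨0,[(1,0),(25,0)]⟩,⟨0,[(0,0),(1,
  0)]⟩⟩]⟩) (.R ⟨2,true,false,false,[0,1],[0,1,1],[1,1],(⟨0,[]⟩,⟨0,[]⟩),(⟨0,[(19,0),(3,0)]⟩,⟨0,[(7,
  0)]⟩),⟨0,[]⟩,.k,.k,.k,.k,.k,.k,⟨false,1,⟨0,[(3,0),(0,0),(22,1)]⟩,⟨0,[(1,0)]⟩⟩,⟨true,0,⟨0,[(2,0)]⟩,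
  ⟨0,[(17,0)]⟩⟩,⟨false,1,⟨3,[(4,1),(4,0),(0,0),(22,0)]⟩,⟨1,[(1,0),(1,0)]⟩⟩,⟨true,0,⟨0,[(0,0),(30,
  0)]⟩,⟨0,[(15,0)]⟩⟩,⟨true,0,⟨0,[(27,0)]⟩,⟨1,[(16,0),(0,0)]⟩⟩,⟨false,0,⟨0,[(0,0)]⟩,⟨3,[(4,1),(10,3),
  (0,0),(0,0),(16,1)]⟩⟩,[]⟩))))

theorem ok2 : chk K t2 r2 = true := by decide +kernel

noncomputable def t5 : Tre :=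
  (.K ⟨0,[0,1,1],0,0,(⟨0,[(14,0),(3,0)]⟩,⟨0,[(2,0)]⟩),.k,.k,(.r 0 ⟨0,[(9,0),(2,0),(8,0),(5,1)]⟩ ⟨0,
  [(0,3),(7,2),(0,2),(11,0),(1,0),(2,1)]⟩),.k,.k,[⟨1,[(11,0),(0,0)]⟩,⟨0,[(0,0),(8,0)]⟩,⟨0,[(0,0),
  (11,0),(9,0),(3,0)]⟩,⟨0,[(9,0),(17,0)]⟩]⟩)

theorem ok5 : chk K t5 r0 = true := by decide +kernel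

noncomputable def t3 : Tre :=
  .I [1,1,-1,-1,0,0,0,1] t1 t2

theorem ok3 : chk K t3 r1 = true :=
  chk_I (e' := [0,-1,1,1,0,0,0,-1]) (by decide +kernel) (by decide +kernel) ok1 ok2

noncomputable def t4 : Tre :=
  .I [0,0,1,2,-1] t0 t3

theorem ok4 : chk K t4 l0 = true :=
  chk_I (e' := [1,0,-1,-2,1]) (by decide +kernel) (by decide +kernel) ok0 ok3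

noncomputable def t6 : Tre :=
  .I [0,1,0,0,0,0,0,1] t4 t5

theorem ok6 : chk K t6 base = true :=
  chk_I (e' := [1,-1,0,0,0,0,0,-1]) (by decide +kernel) (by decide +kernel) ok4 ok5

theorem closed {p a b c J l q : ℤ} {D dl : ℝ} {Cl : ℤ → ℤ → ℤ → ℤ → ℝ → Prop}
    (W : World p a b c J 1 l q D dl Cl) (g : G0 p a b c J D)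
    {N X R : ℤ} {I : ℝ} (hk : KCl p l Cl N X R I) (kz : KF a b D (X + (1 : ℤ) * I) (X + (1 : ℤ) * I + R) I)
    {Ne Xe : ℤ} {Ie : ℝ} (he : EFac p 1 D Cl 1 Ne Xe Ie)
    (hkf : ∀ kf ∈ (kfY 1 [0,0,0,0,0,0,1,0,0,0,1]), KOk p l Cl 1
      (xv [1, a, b, c, p, J, X, R, Xe] [D, I, Ie]) N kf)
    (h0 : 1 ≤ (c : ℝ))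
    (h1 : 1 ≤ 1 - (a : ℝ) + (b : ℝ))
    (h2 : 1 ≤ 2 * (a : ℝ) - (b : ℝ))
    (h3 : 0 < 1 + (p : ℝ) - 3 * D)
    (h4 : 1 ≤ 1 + (a : ℝ) - (b : ℝ))
    (h5 : 1 ≤ 1 - (a : ℝ) + (b : ℝ))
    (h6 : 1 ≤ -1 - 2 * (a : ℝ) + (p : ℝ))
    (h7 : 1 ≤ 2 * (a : ℝ) - (b : ℝ))
    (h8 : 1 ≤ 2 - (J : ℝ))
    (h9 : 0 < -(b : ℝ) - (X : ℝ) + D - I)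
    (h10 : 0 < -(J : ℝ) + I)
    (h11 : 0 < -(J : ℝ) + D - I)
    (h12 : 0 < -2 * (X : ℝ) + D - 2 * I) : False := by
  have g1 := g.a2
  have g2 := g.b2
  have g3 := g.pa
  have g4 := g.pb
  have g5 := g.J1
  have g6 := g.JD
  have g7 := g.D2
  have g8 := g.ca
  have g9 := g.ca'
  have k1 := kz.I0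
  have k2 := kz.ID
  have k3 := kz.z1
  have k4 := kz.z2
  have k5 := kz.s1
  have k6 := kz.s2
  have e1 := he.I0
  have e2 := he.ID
  have e3 := he.x0
  have e4 := he.xp
  push_cast at *
  refine (val_E W.toBase hk he (row := [1]) (by simp) (by simp) (kfY 1 [0,0,0,0,0,0,1,0,0,0,1])).sound W rfl (Nk := N)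
    (fun kf _ _ => ⟨_, rfl⟩) hkf ?_ ok6
  · simp only [base, List.forall_mem_cons, List.not_mem_nil, false_imp_iff, implies_true,
      and_true, hld, xv, evg_cons, evg_nil, List.map_cons, List.map_nil, List.cons_append,
      List.nil_append, if_true, if_false, Bool.false_eq_true]
    push_cast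
    refine ⟨?_, ?_, ?_, ?_, ?_, ?_, ?_, ?_, ?_, ?_, ?_, ?_, ?_, ?_, ?_, ?_, ?_, ?_, ?_, ?_, ?_, ?_, ?_, ?_, ?_, ?_, ?_, ?_, ?_, ?_, ?_⟩ <;> linarith

end Helper48.Y.Y11_c35_P1_m1n1_CB

namespace Helper48.Y.Y11_c35_P1_m1n1_CC

open Helper25.KG Helper25.KW Helper55.KE Helper11.CT

noncomputable def K : Cls :=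
  cE 1 [1] (kfY 1 [0,0,0,0,0,0,1,0,0,0,1])

noncomputable def base : List Con :=
  [(false,[0,0,0,0,0,0,-2,0,0,1,-2]),
  (false,[0,0,0,0,0,-1,0,0,0,1,-1]),
  (false,[0,0,0,0,0,-1,0,0,0,0,1]),
  (false,[0,0,0,0,1,0,0,0,-1,0,0,-1]),
  (false,[0,0,0,0,0,0,0,0,1,0,0,1]),
  (false,[0,0,0,0,0,0,0,0,0,1,0,-1]),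
  (false,[0,0,0,0,0,0,0,0,0,0,0,1]),
  (false,[0,0,-1,0,0,0,-1,0,0,1,-1]),
  (false,[0,1,0,0,0,0,1,1,0,0,1]),
  (false,[0,1,0,0,0,0,-1,-1,0,0,-1]),
  (false,[0,0,1,0,0,0,1,0,0,0,1]),
  (false,[0,0,1,0,0,0,-1,0,0,0,-1]),
  (false,[0,0,0,0,0,0,0,0,0,1,-1]),
  (false,[0,0,0,0,0,0,0,0,0,0,1]),
  (true,[2,0,0,0,0,-1]),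
  (false,[0,0,0,0,1,0,0,0,0,-2]),
  (false,[0,0,0,0,0,-1,0,0,0,1]),
  (true,[0,0,0,0,0,1]),
  (true,[0,2,-1]),
  (true,[0,-1,1]),
  (false,[1,0,0,0,1,0,0,0,0,-3]),
  (true,[0,2,-1]),
  (true,[1,-1,1]),
  (true,[0,1,0,-1]),
  (true,[0,0,0,1]),
  (true,[0,0,-2,0,1]),
  (true,[0,-2,0,0,1]),
  (true,[-1,0,1]),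
  (true,[-1,1])]

noncomputable def l0 : List Con := (true, [0,1,0,0,0,0,0,1]) :: base

noncomputable def r0 : List Con := (true, [1,-1,0,0,0,0,0,-1]) :: base

noncomputable def l1 : List Con := (false, [0,0,0,0,0,0,-1,-1,0,0,-1]) :: l0

noncomputable def r1 : List Con := (false, [0,0,0,0,0,0,1,1,0,0,1]) :: l0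

noncomputable def l2 : List Con := (true, [0,1,0,2,-1]) :: l1

noncomputable def r2 : List Con := (true, [1,-1,0,-2,1]) :: l1

noncomputable def l3 : List Con := (false, [0,0,0,0,0,0,-1,0,0,0,-1]) :: r2

noncomputable def r3 : List Con := (false, [0,0,0,0,0,0,1,0,0,0,1]) :: r2

noncomputable def l4 : List Con := (true, [0,0,0,1,0,0,0,-1]) :: l3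

noncomputable def r4 : List Con := (true, [1,0,0,-1,0,0,0,1]) :: l3

noncomputable def l5 : List Con := (true, [0,0,-1,0,0,0,0,2]) :: r4

noncomputable def r5 : List Con := (true, [1,0,1,0,0,0,0,-2]) :: r4

noncomputable def l6 : List Con := (true, [1,-1,1,0,0,0,0,1]) :: r1

noncomputable def r6 : List Con := (true, [0,1,-1,0,0,0,0,-1]) :: r1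

noncomputable def l7 : List Con := (true, [0,0,1,1,0,0,0,-1]) :: l6

noncomputable def r7 : List Con := (true, [1,0,-1,-1,0,0,0,1]) :: l6

noncomputable def t0 : Tre :=
  (.S ⟨1,4,[],[1,-1],[1,1],(⟨0,[(19,0)]⟩,⟨0,[(20,0)]⟩),⟨0,[(4,0),(0,0)]⟩,.k,(.r (-2) ⟨0,[(26,1),(1,
  0),(0,0)]⟩ ⟨1,[(0,1),(12,0),(0,0),(7,1)]⟩),⟨true,(-1),⟨0,[(0,0),(21,0),(3,0)]⟩,⟨1,[(26,1),(1,0),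
  (0,0)]⟩⟩,⟨false,0,⟨0,[(27,0)]⟩,⟨0,[(26,0),(2,0)]⟩⟩,⟨false,(-1),⟨0,[(0,0),(21,0)]⟩,⟨1,[(26,3),(1,
  0),(0,2)]⟩⟩,⟨true,(-1),⟨0,[(0,0)]⟩,⟨0,[(26,1),(2,0)]⟩⟩,[.o ⟨false,0,⟨0,[(31,0)]⟩,⟨1,[(18,0),(10,
  0)]⟩⟩,.fa ⟨true,0,⟨0,[]⟩,⟨1,[(13,0),(0,0)]⟩⟩ ⟨false,1,⟨0,[(28,0)]⟩,⟨1,[(13,0),(0,0)]⟩⟩,.o ⟨false,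
  0,⟨1,[(13,0),(0,0)]⟩,⟨1,[(18,0),(9,0)]⟩⟩,.e ⟨false,1,⟨1,[(6,0),(0,0),(20,0)]⟩,⟨0,[(22,0)]⟩⟩
  ⟨false,1,⟨0,[(28,0)]⟩,⟨1,[(13,0),(0,0),(7,1)]⟩⟩]⟩)

theorem ok0 : chk K t0 l2 = true := by decide +kernel

noncomputable def t1 : Tre :=
  (.Q [0,-1,0,1,0,0,-1,-1,0,0,-1] (.p false [0,0,1] [] (⟨0,[(18,0)]⟩,⟨0,[(17,0)]⟩) .k 0 (⟨0,[]⟩,⟨0,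
  []⟩) .k .k) (.I [1,0,0,0,0,0,0,-1] (.R ⟨2,true,false,true,[0,1],[0,0,1],[1,1,1],(⟨0,[]⟩,⟨0,[]⟩),
  (⟨0,[(20,0)]⟩,⟨0,[(19,0)]⟩),⟨0,[]⟩,.k,.k,.k,.k,.k,.k,⟨false,0,⟨0,[(0,0)]⟩,⟨1,[(6,1),(25,0),(0,
  0)]⟩⟩,⟨true,0,⟨0,[(17,0)]⟩,⟨0,[(3,0)]⟩⟩,⟨true,0,⟨0,[(30,0)]⟩,⟨0,[(31,0)]⟩⟩,⟨false,1,⟨3,[(4,1),(5,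
  0),(0,0),(3,3),(17,0)]⟩,⟨0,[(1,0)]⟩⟩,⟨false,0,⟨0,[]⟩,⟨1,[(10,0),(0,0),(21,0)]⟩⟩,⟨true,0,⟨0,[(15,
  0)]⟩,⟨0,[(5,0)]⟩⟩,[]⟩) (.R ⟨2,true,false,true,[0,1],[0,0,1],[0,1,1,1],(⟨0,[]⟩,⟨0,[]⟩),(⟨0,[(20,
  0)]⟩,⟨0,[(19,0)]⟩),⟨0,[]⟩,.k,.k,.k,.k,.k,.k,⟨false,0,⟨0,[(2,0)]⟩,⟨1,[(0,0),(3,0),(1,0),(25,0)]⟩⟩,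
  ⟨true,0,⟨0,[(17,0)]⟩,⟨0,[(3,0)]⟩⟩,⟨true,0,⟨0,[(35,0)]⟩,⟨0,[]⟩⟩,⟨false,1,⟨3,[(4,1),(5,0),(0,0),(3,
  3),(17,0)]⟩,⟨0,[(1,0)]⟩⟩,⟨false,0,⟨0,[(31,0)]⟩,⟨3,[(4,1),(5,0),(0,0),(21,0)]⟩⟩,⟨true,0,⟨0,[(15,
  0)]⟩,⟨0,[(5,0)]⟩⟩,[]⟩)) (.I [1,-1,-1,-1,1,0,0,1] (.S ⟨1,0,[0,0,1,1,0,0,0,-1],[1,1,-1],[0,1,1,1,0,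
  0,0,-1],(⟨0,[(19,0),(4,0)]⟩,⟨0,[(9,0)]⟩),⟨0,[(19,0)]⟩,.k,.k,⟨true,0,⟨0,[(35,0)]⟩,⟨0,[]⟩⟩,⟨false,1,
  ⟨1,[(10,0),(0,0),(21,0)]⟩,⟨0,[]⟩⟩,⟨false,0,⟨0,[(31,0)]⟩,⟨3,[(4,1),(5,0),(0,0),(21,0)]⟩⟩,⟨true,0,
  ⟨0,[(31,0)]⟩,⟨0,[(30,0)]⟩⟩,[.o ⟨false,0,⟨0,[(5,0),(25,0)]⟩,⟨2,[(1,0),(2,0),(10,1),(11,0),(5,0)]⟩⟩,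
  .a ⟨true,0,⟨0,[(2,0),(11,0),(11,0)]⟩,⟨0,[(1,0)]⟩⟩ ⟨false,0,⟨0,[(2,0)]⟩,⟨6,[(0,4),(3,0),(1,1),(3,
  0),(0,0),(13,1)]⟩⟩ ⟨true,0,⟨0,[(2,0),(23,0)]⟩,⟨0,[(1,0),(1,0)]⟩⟩,.e ⟨false,0,⟨1,[(2,1),(14,0),(0,
  0)]⟩,⟨0,[(0,0)]⟩⟩ ⟨false,0,⟨0,[(2,0),(23,0)]⟩,⟨6,[(0,4),(3,0),(1,1),(3,0),(0,0),(13,1)]⟩⟩,.o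
  ⟨false,0,⟨0,[(3,0)]⟩,⟨1,[(17,1),(4,0),(9,0)]⟩⟩]⟩) (.Q [0,-1,0,2,0,0,-1,-1,0,0,-1] (.p false [0,0,
  1] [] (⟨0,[(20,0)]⟩,⟨0,[(19,0)]⟩) .k 0 (⟨0,[]⟩,⟨0,[]⟩) .k .k) (.R ⟨1,true,false,false,[0,0,1],[0,
  1],[0,0,0,0,0,0,0,1],(⟨0,[(21,0)]⟩,⟨0,[(20,0)]⟩),(⟨0,[(25,0)]⟩,⟨0,[(24,0)]⟩),⟨0,[(10,0)]⟩,.k,.k,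
  .k,.k,(.r (-2) ⟨0,[(5,0),(1,0),(25,0)]⟩ ⟨1,[(0,0),(0,1),(14,0),(10,1)]⟩),.k,⟨true,1,⟨4,[(2,2),(2,
  0),(1,1),(7,2),(12,0),(4,0),(0,1)]⟩,⟨0,[(1,0),(25,0)]⟩⟩,⟨false,1,⟨3,[(8,0),(6,1),(12,0),(4,2)]⟩,
  ⟨0,[(18,0)]⟩⟩,⟨false,1,⟨1,[(11,0),(0,0),(21,0)]⟩,⟨0,[]⟩⟩,⟨true,0,⟨1,[(0,0),(16,0)]⟩,⟨0,[(2,0)]⟩⟩,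
  ⟨true,0,⟨0,[(32,0)]⟩,⟨0,[(31,0)]⟩⟩,⟨false,0,⟨0,[(0,0)]⟩,⟨0,[(5,0),(10,0)]⟩⟩,[]⟩) (.I [0,-1,-1,0,1,
  0,0,1] (.S ⟨1,0,[0,0,1,1,0,0,0,-1],[1,1,-1],[],(⟨0,[(21,0),(4,0)]⟩,⟨0,[(11,0)]⟩),⟨0,[(21,0)]⟩,.k,
  .k,⟨true,1,⟨27,[(0,18),(0,5),(4,7),(1,2),(0,2),(17,8),(1,0)]⟩,⟨0,[(2,0)]⟩⟩,⟨false,1,⟨1,[(12,0),(0,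
  0),(21,0)]⟩,⟨0,[]⟩⟩,⟨false,1,⟨0,[(0,0)]⟩,⟨2,[(2,1),(3,0),(11,0),(0,0),(15,0)]⟩⟩,⟨true,0,⟨0,[(33,
  0)]⟩,⟨0,[(32,0)]⟩⟩,[.o ⟨false,0,⟨0,[(7,0),(25,0)]⟩,⟨5,[(1,0),(4,1),(10,4),(11,1),(5,1)]⟩⟩,.a
  ⟨true,0,⟨0,[(2,0),(13,0),(18,0)]⟩,⟨0,[(3,0)]⟩⟩ ⟨false,1,⟨1,[(34,0),(0,0)]⟩,⟨0,[(37,0)]⟩⟩ ⟨true,0,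
  ⟨0,[(2,0),(32,0)]⟩,⟨1,[(1,0),(3,0),(2,0)]⟩⟩,.e ⟨false,1,⟨1,[(12,0),(0,0),(21,0)]⟩,⟨0,[]⟩⟩ ⟨false,
  0,⟨0,[(2,0),(32,0)]⟩,⟨27,[(0,18),(0,5),(4,7),(1,2),(0,2),(17,8),(1,0)]⟩⟩,.o ⟨false,0,⟨0,[(5,0)]⟩,
  ⟨1,[(19,1),(4,0),(9,0)]⟩⟩]⟩) (.Q [0,0,-1,0,1,0,1,0,0,-1,1] (.p true [0,0,1] [1] (⟨0,[(22,0)]⟩,⟨0,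
  [(21,0)]⟩) .k 1 (⟨0,[]⟩,⟨0,[]⟩) .k .k) (.R ⟨1,false,false,true,[1,0,-1],[1,-1],[0,1,0,0,0,0,0,-1],
  (⟨0,[(22,0)]⟩,⟨0,[(23,0)]⟩),(⟨0,[(26,0)]⟩,⟨0,[(27,0)]⟩),⟨0,[(11,0)]⟩,.k,.k,.k,.k,.k,.k,⟨false,0,
  ⟨0,[(5,0)]⟩,⟨15,[(2,5),(4,1),(1,9),(7,5),(12,1),(4,4),(0,6)]⟩⟩,⟨true,0,⟨0,[(20,0)]⟩,⟨0,[(6,0)]⟩⟩,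
  ⟨true,0,⟨0,[(38,0)]⟩,⟨0,[]⟩⟩,⟨true,0,⟨0,[(4,0)]⟩,⟨0,[(8,0),(25,0)]⟩⟩,⟨false,0,⟨0,[(34,0)]⟩,⟨3,[(7,
  1),(5,0),(0,0),(21,0)]⟩⟩,⟨true,0,⟨0,[(18,0)]⟩,⟨0,[(8,0)]⟩⟩,[.o ⟨false,0,⟨0,[(33,0)]⟩,⟨1,[(25,0),
  (8,1),(1,0)]⟩⟩,.a ⟨true,0,⟨1,[(1,0),(0,0),(14,0),(4,0),(0,0),(12,0)]⟩,⟨0,[(34,0)]⟩⟩ ⟨true,0,⟨1,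
  [(1,1),(33,0),(0,0)]⟩,⟨0,[(9,0),(19,0)]⟩⟩ ⟨false,1,⟨1,[(1,0),(0,0),(17,0),(14,1),(0,0)]⟩,⟨0,[(6,
  0),(27,0)]⟩⟩,.o ⟨false,0,⟨0,[(6,0)]⟩,⟨3,[(0,1),(12,0),(0,0),(5,1),(4,0)]⟩⟩,.o ⟨false,0,⟨0,[(21,
  0)]⟩,⟨0,[(0,0)]⟩⟩]⟩) (.Q [0,0,0,0,0,0,0,0,1,-1,0,1] (.p true [0,0,0,0,1] [1] (⟨0,[(16,0)]⟩,⟨0,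
  [(15,0)]⟩) .k 1 (⟨0,[]⟩,⟨0,[]⟩) .k .k) (.Q [1,-1,0,0,0,0,0,0,1,-1,0,1] (.p true [0,0,0,0,1] [1]
  (⟨0,[(17,0)]⟩,⟨0,[(16,0)]⟩) .k 1 (⟨0,[]⟩,⟨0,[]⟩) .k .k) (.Q [-1,0,0,0,1,0,0,0,-1,0,0,-1] (.p
  false [0,0,0,0,1] [] (⟨0,[(18,0)]⟩,⟨0,[(17,0)]⟩) .k 0 (⟨0,[]⟩,⟨0,[]⟩) .k .k) (.Q [0,0,0,0,-1,0,-1,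
  0,1,0,-1,1] (.p false [0,0,1] [0,0,0,0,1] (⟨0,[(26,0)]⟩,⟨0,[(25,0)]⟩) .k 2 (⟨0,[(19,0)]⟩,⟨0,[(18,
  0)]⟩) .k (.r (-1) ⟨1,[(12,1),(3,0),(0,0),(21,0)]⟩ ⟨1,[(4,1),(33,0),(0,0)]⟩)) (.R ⟨1,false,false,
  false,[0,0,1],[0,0,0,0,1],[0,0,0,0,0,0,0,1],(⟨0,[(27,0)]⟩,⟨0,[(26,0)]⟩),(⟨0,[(20,0)]⟩,⟨0,[(19,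
  0)]⟩),⟨0,[(16,0)]⟩,.k,.k,.k,.k,(.r (-1) ⟨15,[(6,5),(4,1),(1,9),(7,5),(12,1),(4,4),(0,6)]⟩ ⟨1,[(9,
  1),(14,0),(0,0)]⟩),.k,⟨false,1,⟨1,[(13,1),(25,0),(0,0)]⟩,⟨1,[(5,1),(33,0),(0,0)]⟩⟩,⟨true,(-1),⟨0,
  [(0,0)]⟩,⟨0,[(17,0),(6,0)]⟩⟩,⟨false,1,⟨1,[(17,0),(0,0),(21,0)]⟩,⟨0,[]⟩⟩,⟨true,(-1),⟨0,[(2,0),(2,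
  0),(15,0)]⟩,⟨0,[(1,0),(20,0)]⟩⟩,⟨true,0,⟨0,[(38,0)]⟩,⟨0,[(37,0)]⟩⟩,⟨true,(-1),⟨0,[(0,0),(8,0)]⟩,
  ⟨1,[(1,1),(4,0),(15,0)]⟩⟩,[.o ⟨false,0,⟨0,[(3,0)]⟩,⟨0,[(1,0)]⟩⟩,.o ⟨false,0,⟨0,[(2,0)]⟩,⟨0,[(17,
  0),(24,0)]⟩⟩,.o ⟨false,1,⟨1,[(24,1),(4,0),(9,0)]⟩,⟨0,[(10,0)]⟩⟩,.a ⟨true,0,⟨0,[(24,0)]⟩,⟨0,[(21,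
  0)]⟩⟩ ⟨true,1,⟨1,[(13,1),(25,0),(0,0)]⟩,⟨0,[(5,0)]⟩⟩ ⟨false,0,⟨0,[(2,0),(18,0)]⟩,⟨0,[(1,0),(22,
  0)]⟩⟩]⟩) (.K ⟨0,[0,0,0,0,1],(-1),(-1),(⟨0,[(20,0)]⟩,⟨0,[(19,0)]⟩),.k,(.r (-1) ⟨7,[(11,3),(5,0),(0,
  0),(13,1),(6,2)]⟩ ⟨1,[(24,0),(0,0),(12,1)]⟩),(.r 0 ⟨1,[(24,0),(0,0),(12,1)]⟩ ⟨13,[(11,6),(5,0),(0,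
  0),(13,1),(6,5),(2,2)]⟩),.k,.k,[⟨0,[(0,0)]⟩,⟨3,[(2,3),(1,1),(1,0),(0,1),(14,0),(7,1),(0,1)]⟩,⟨0,
  [(17,0),(24,0)]⟩,⟨0,[(2,0),(2,0),(15,0),(0,0)]⟩]⟩)) (.R ⟨2,true,false,false,[0,1],[0,0,0,0,1],[1,
  1,1],(⟨0,[]⟩,⟨0,[]⟩),(⟨0,[(19,0)]⟩,⟨0,[(18,0)]⟩),⟨0,[]⟩,.k,.k,.k,(.r 0 ⟨1,[(23,0),(0,0),(12,1)]⟩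
  ⟨7,[(10,3),(5,0),(0,0),(13,1),(6,2)]⟩),.k,.k,⟨false,0,⟨0,[(41,0)]⟩,⟨1,[(38,0),(0,0)]⟩⟩,⟨true,(-1),
  ⟨3,[(0,3),(22,0),(0,0),(15,1)]⟩,⟨0,[(16,0)]⟩⟩,⟨true,0,⟨0,[(36,0)]⟩,⟨0,[(37,0)]⟩⟩,⟨false,0,⟨3,[(0,
  2),(9,1),(6,0),(21,0)]⟩,⟨0,[(16,0),(20,0)]⟩⟩,⟨false,0,⟨0,[]⟩,⟨1,[(16,0),(0,0),(21,0)]⟩⟩,⟨true,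
  (-1),⟨0,[(0,0)]⟩,⟨0,[(16,0),(24,0)]⟩⟩,[]⟩)) (.Q [-1,-1,0,0,1,0,0,0,-1,0,0,-1] (.p false [0,0,0,0,
  1] [] (⟨0,[(18,0)]⟩,⟨0,[(17,0)]⟩) .k 0 (⟨0,[]⟩,⟨0,[]⟩) .k .k) (.R ⟨1,false,false,true,[0,0,1],[0,
  0,0,0,1],[0,0,0,0,0,0,0,1],(⟨0,[(26,0)]⟩,⟨0,[(25,0)]⟩),(⟨0,[(19,0)]⟩,⟨0,[(18,0)]⟩),⟨0,[(15,0)]⟩,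
  .k,.k,.k,.k,(.r (-1) ⟨15,[(5,5),(4,1),(1,9),(7,5),(12,1),(4,4),(0,6)]⟩ ⟨1,[(8,1),(14,0),(0,0)]⟩),
  .k,⟨true,1,⟨0,[(12,0),(26,0)]⟩,⟨0,[(4,0)]⟩⟩,⟨false,0,⟨0,[(2,0),(17,0)]⟩,⟨1,[(0,1),(3,0),(16,0),(1,
  0),(14,0)]⟩⟩,⟨false,1,⟨1,[(16,0),(0,0),(21,0)]⟩,⟨0,[]⟩⟩,⟨true,(-1),⟨0,[(2,0),(1,0),(15,0)]⟩,⟨0,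
  [(0,0),(20,0)]⟩⟩,⟨true,0,⟨0,[(37,0)]⟩,⟨0,[(36,0)]⟩⟩,⟨true,(-1),⟨0,[(2,0),(3,0),(13,0)]⟩,⟨1,[(0,1),
  (4,0),(15,0)]⟩⟩,[.o ⟨false,0,⟨0,[(2,0),(38,0)]⟩,⟨0,[(0,0)]⟩⟩,.o ⟨false,0,⟨0,[(2,0)]⟩,⟨2,[(0,0),
  (15,1),(24,0)]⟩⟩,.o ⟨false,1,⟨1,[(23,1),(4,0),(9,0)]⟩,⟨0,[(9,0)]⟩⟩,.a ⟨true,0,⟨0,[(23,0)]⟩,⟨0,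
  [(20,0)]⟩⟩ ⟨true,1,⟨1,[(12,1),(25,0),(0,0)]⟩,⟨0,[(4,0)]⟩⟩ ⟨false,0,⟨0,[(2,0),(17,0)]⟩,⟨0,[(0,0),
  (22,0)]⟩⟩]⟩) (.Q [0,0,0,0,1,0,1,0,-1,0,1,-1] (.p true [0,0,1] [0,0,0,0,1] (⟨0,[(26,0)]⟩,⟨0,[(25,
  0)]⟩) .k 2 (⟨0,[(19,0)]⟩,⟨0,[(18,0)]⟩) .k (.r (-1) ⟨1,[(12,1),(3,0),(0,0),(21,0)]⟩ ⟨1,[(4,1),(33,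
  0),(0,0)]⟩)) (.K ⟨0,[0,0,0,0,1],(-1),(-1),(⟨0,[(20,0)]⟩,⟨0,[(19,0)]⟩),.k,(.r (-1) ⟨7,[(11,3),(5,
  0),(0,0),(13,1),(6,2)]⟩ ⟨1,[(24,0),(0,0),(12,1)]⟩),(.r 0 ⟨1,[(24,0),(0,0),(12,1)]⟩ ⟨13,[(11,6),(5,
  0),(0,0),(13,1),(6,5),(2,2)]⟩),.k,.k,[⟨0,[(0,0)]⟩,⟨0,[(1,0),(31,0)]⟩,⟨0,[(17,0),(24,0)]⟩,⟨0,[(1,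
  0)]⟩]⟩) (.Q [0,0,0,0,0,-1,0,0,0,0,0,1] (.ed false [1,-1,0,0,1] .k) (.S ⟨1,0,[1],[0,0,0,0,1],[1,1],
  (⟨0,[(21,0)]⟩,⟨0,[(20,0)]⟩),⟨0,[(0,0)]⟩,.k,(.r (-1) ⟨7,[(12,3),(5,0),(0,0),(13,1),(6,2)]⟩ ⟨1,[(25,
  0),(0,0),(12,1)]⟩),⟨true,0,⟨0,[(43,0)]⟩,⟨0,[]⟩⟩,⟨false,1,⟨1,[(18,0),(0,0),(21,0)]⟩,⟨0,[]⟩⟩,⟨false,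
  0,⟨0,[(39,0)]⟩,⟨3,[(12,1),(5,0),(0,0),(21,0)]⟩⟩,⟨true,0,⟨0,[(39,0)]⟩,⟨0,[(38,0)]⟩⟩,[.o ⟨false,0,
  ⟨0,[(4,0)]⟩,⟨5,[(3,2),(14,2),(16,0),(5,1),(1,0)]⟩⟩,.a ⟨true,0,⟨0,[(2,0),(38,0)]⟩,⟨0,[(3,0)]⟩⟩
  ⟨true,0,⟨0,[]⟩,⟨1,[(25,0),(0,0)]⟩⟩ ⟨false,1,⟨1,[(40,0),(0,0)]⟩,⟨0,[(43,0)]⟩⟩,.o ⟨false,0,⟨0,[(4,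
  0)]⟩,⟨0,[(18,0)]⟩⟩,.e ⟨false,1,⟨1,[(18,0),(0,0),(20,0)]⟩,⟨0,[(34,0)]⟩⟩ ⟨false,1,⟨1,[(40,0),(0,
  0)]⟩,⟨1,[(25,0),(0,0)]⟩⟩]⟩) (.S ⟨1,0,[-1,1],[1,0,0,0,-1],[-1],(⟨0,[(20,0)]⟩,⟨0,[(21,0)]⟩),⟨0,[(0,
  0),(15,0),(0,0)]⟩,.k,(.r (-1) ⟨13,[(12,6),(5,0),(0,0),(13,1),(6,5),(2,2)]⟩ ⟨1,[(25,0),(0,0),(12,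
  1)]⟩),⟨false,1,⟨1,[(18,0),(0,0),(21,0)]⟩,⟨0,[]⟩⟩,⟨true,0,⟨0,[(43,0)]⟩,⟨0,[]⟩⟩,⟨true,0,⟨0,[(39,
  0)]⟩,⟨0,[(38,0)]⟩⟩,⟨false,0,⟨0,[(39,0)]⟩,⟨3,[(12,1),(5,0),(0,0),(21,0)]⟩⟩,[.a ⟨true,0,⟨0,[(3,0)]⟩,
  ⟨0,[(2,0),(38,0)]⟩⟩ ⟨false,1,⟨9,[(18,3),(0,3),(20,4),(0,0),(1,1)]⟩,⟨0,[]⟩⟩ ⟨true,0,⟨0,[(43,0)]⟩,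
  ⟨0,[(34,0)]⟩⟩,.o ⟨false,1,⟨5,[(3,2),(14,2),(16,0),(5,1),(1,0)]⟩,⟨0,[(4,0)]⟩⟩,.o ⟨false,1,⟨0,[(18,
  0)]⟩,⟨0,[(4,0)]⟩⟩,.e ⟨false,1,⟨0,[(34,0),(5,0)]⟩,⟨1,[(25,0),(0,0)]⟩⟩ ⟨false,1,⟨9,[(18,3),(0,3),
  (20,4),(0,0),(1,1)]⟩,⟨0,[(34,0)]⟩⟩]⟩))))) (.Q [0,0,0,0,0,-1,0,0,0,0,0,1] (.ed false [1,-1,0,0,1]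
  .k) (.S ⟨1,0,[1],[0,0,0,0,1],[1,1],(⟨0,[(18,0)]⟩,⟨0,[(17,0)]⟩),⟨0,[(0,0)]⟩,.k,(.r (-1) ⟨7,[(9,3),
  (5,0),(0,0),(13,1),(6,2)]⟩ ⟨1,[(22,0),(0,0),(12,1)]⟩),⟨true,0,⟨0,[(40,0)]⟩,⟨0,[]⟩⟩,⟨false,1,⟨1,
  [(15,0),(0,0),(21,0)]⟩,⟨0,[]⟩⟩,⟨false,0,⟨0,[(36,0)]⟩,⟨3,[(9,1),(5,0),(0,0),(21,0)]⟩⟩,⟨true,0,⟨0,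
  [(36,0)]⟩,⟨0,[(35,0)]⟩⟩,[.e ⟨true,0,⟨0,[(40,0)]⟩,⟨0,[(31,0)]⟩⟩ ⟨true,0,⟨0,[]⟩,⟨1,[(22,0),(0,0)]⟩⟩,
  .o ⟨false,1,⟨1,[(16,1),(10,0),(10,0)]⟩,⟨1,[(1,1),(0,0),(1,0),(0,0),(26,0),(3,0),(0,0)]⟩⟩,.a ⟨true,
  0,⟨0,[(16,0)]⟩,⟨0,[(1,0)]⟩⟩ ⟨false,0,⟨0,[]⟩,⟨1,[(15,0),(0,0),(21,0)]⟩⟩ ⟨true,0,⟨0,[]⟩,⟨0,[(40,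
  0)]⟩⟩,.o ⟨false,0,⟨7,[(2,0),(0,1),(12,7),(3,1),(2,0),(7,3),(0,2)]⟩,⟨3,[(1,2),(13,0),(16,0),(4,
  1)]⟩⟩]⟩) (.S ⟨1,0,[-1,1],[1,0,0,0,-1],[-1],(⟨0,[(17,0)]⟩,⟨0,[(18,0)]⟩),⟨0,[(0,0),(12,0),(0,0)]⟩,
  .k,(.r (-1) ⟨13,[(9,6),(5,0),(0,0),(13,1),(6,5),(2,2)]⟩ ⟨1,[(22,0),(0,0),(12,1)]⟩),⟨false,1,⟨1,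
  [(15,0),(0,0),(21,0)]⟩,⟨0,[]⟩⟩,⟨true,0,⟨0,[(40,0)]⟩,⟨0,[]⟩⟩,⟨true,0,⟨0,[(36,0)]⟩,⟨0,[(35,0)]⟩⟩,
  ⟨false,0,⟨0,[(36,0)]⟩,⟨3,[(9,1),(5,0),(0,0),(21,0)]⟩⟩,[.o ⟨false,0,⟨1,[(1,1),(0,0),(1,0),(0,0),
  (26,0),(3,0),(0,0)]⟩,⟨1,[(16,1),(10,0),(10,0)]⟩⟩,.e ⟨false,1,⟨0,[(31,0),(5,0)]⟩,⟨0,[(40,0)]⟩⟩
  ⟨false,1,⟨9,[(15,3),(0,3),(20,4),(0,0),(1,1)]⟩,⟨0,[]⟩⟩,.a ⟨true,0,⟨0,[(1,0)]⟩,⟨0,[(16,0)]⟩⟩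
  ⟨false,1,⟨4,[(15,1),(0,1),(21,2),(1,0)]⟩,⟨0,[]⟩⟩ ⟨true,0,⟨0,[(40,0)]⟩,⟨0,[]⟩⟩,.o ⟨false,0,⟨7,[(1,
  7),(0,0),(0,1),(16,1),(2,0),(7,3),(0,2)]⟩,⟨1,[(16,1),(10,0),(9,0)]⟩⟩]⟩))))))))

theorem ok1 : chk K t1 l4 = true := by decide +kernel

noncomputable def t2 : Tre :=
  (.Q [0,-1,-2,0,2,0,1,1,0,-1,1] (.p true [0,0,1] [1] (⟨0,[(19,0)]⟩,⟨0,[(18,0)]⟩) .k 1 (⟨0,[]⟩,⟨0,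
  []⟩) .k .k) (.Q [0,-1,0,0,1,0,1,1,0,-1,1] (.p true [0,0,1] [1] (⟨0,[(20,0)]⟩,⟨0,[(19,0)]⟩) .k 1
  (⟨0,[]⟩,⟨0,[]⟩) .k .k) (.S ⟨1,0,[0,0,0,0,0,0,0,1],[0,0,1],[0,1,0,0,0,0,0,1],(⟨0,[(21,0)]⟩,⟨0,[(20,
  0)]⟩),⟨0,[(10,0)]⟩,.k,.k,⟨true,0,⟨0,[(36,0)]⟩,⟨0,[]⟩⟩,⟨false,1,⟨1,[(11,0),(0,0),(21,0)]⟩,⟨0,[]⟩⟩,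
  ⟨false,0,⟨0,[(32,0)]⟩,⟨3,[(5,1),(5,0),(0,0),(21,0)]⟩⟩,⟨true,0,⟨0,[(32,0)]⟩,⟨0,[(31,0)]⟩⟩,[.o
  ⟨false,1,⟨3,[(0,0),(0,0),(14,1),(1,0),(0,0),(3,0)]⟩,⟨0,[(6,0)]⟩⟩,.o ⟨false,1,⟨0,[(0,0)]⟩,⟨0,[(17,
  0)]⟩⟩,.o ⟨false,1,⟨3,[(1,0),(15,0),(0,3),(9,0),(4,0)]⟩,⟨0,[(4,0)]⟩⟩,.a ⟨true,0,⟨0,[(18,0)]⟩,⟨0,
  [(15,0)]⟩⟩ ⟨true,0,⟨1,[(2,0),(23,0)]⟩,⟨0,[(6,0),(11,0)]⟩⟩ ⟨false,1,⟨6,[(1,1),(0,1),(5,0),(6,0),(0,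
  0),(17,2)]⟩,⟨0,[(6,0),(11,0)]⟩⟩]⟩) (.Q [0,-1,0,1,1,0,1,1,0,-1,1] (.p true [0,0,1] [1] (⟨0,[(21,
  0)]⟩,⟨0,[(20,0)]⟩) .k 1 (⟨0,[]⟩,⟨0,[]⟩) .k .k) (.R ⟨2,true,false,true,[0,1],[1,0,-1],[1,1,1],(⟨0,
  []⟩,⟨0,[]⟩),(⟨0,[(21,0)]⟩,⟨0,[(22,0)]⟩),⟨0,[]⟩,.k,.k,.k,.k,.k,.k,⟨false,0,⟨4,[(3,1),(13,0),(2,0),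
  (7,0)]⟩,⟨0,[(7,0),(11,0),(14,0)]⟩⟩,⟨true,(-1),⟨4,[(1,4),(1,1),(13,0),(2,0),(7,5)]⟩,⟨3,[(2,0),(15,
  0),(0,3),(9,0),(4,0)]⟩⟩,⟨true,0,⟨0,[(32,0)]⟩,⟨0,[(33,0)]⟩⟩,⟨false,0,⟨3,[(1,2),(4,1),(11,0),(2,0),
  (0,0),(12,0)]⟩,⟨0,[(0,0)]⟩⟩,⟨false,0,⟨0,[]⟩,⟨1,[(12,0),(0,0),(21,0)]⟩⟩,⟨true,(-1),⟨0,[(1,0)]⟩,⟨9,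
  [(0,3),(5,1),(5,0),(0,0),(3,5),(6,2)]⟩⟩,[]⟩) (.Q [0,-1,0,2,1,0,1,1,0,-1,1] (.p true [0,0,1] [1]
  (⟨0,[(22,0)]⟩,⟨0,[(21,0)]⟩) .k 1 (⟨0,[]⟩,⟨0,[]⟩) .k .k) (.R ⟨1,true,false,false,[1,0,-1],[0,1],[1,
  0,0,-1,0,0,0,-1],(⟨0,[(22,0)]⟩,⟨0,[(23,0)]⟩),(⟨0,[(27,0)]⟩,⟨0,[(26,0)]⟩),⟨0,[(11,0)]⟩,.k,.k,.k,.k,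
  (.r (-2) ⟨13,[(1,5),(5,10),(0,2),(10,4),(0,13),(9,1),(4,20)]⟩ ⟨1,[(2,2),(1,1),(13,0),(1,1),(8,3),
  (0,0),(3,3)]⟩),.k,⟨true,1,⟨2,[(1,3),(1,0),(3,0),(12,2),(9,0),(4,1),(0,0)]⟩,⟨1,[(2,2),(1,1),(13,0),
  (1,1),(8,3),(0,0),(3,3)]⟩⟩,⟨false,2,⟨3,[(3,0),(15,0),(0,3),(9,0),(4,4)]⟩,⟨4,[(2,4),(1,1),(13,0),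
  (2,0),(7,5)]⟩⟩,⟨false,1,⟨3,[(7,1),(5,0),(0,0),(21,0)]⟩,⟨0,[(34,0)]⟩⟩,⟨true,1,⟨3,[(0,1),(12,0),(0,
  0),(3,1),(6,0)]⟩,⟨0,[(1,0)]⟩⟩,⟨true,0,⟨0,[]⟩,⟨0,[(38,0)]⟩⟩,⟨false,1,⟨0,[(0,0)]⟩,⟨0,[(2,0),(4,
  0)]⟩⟩,[]⟩) (.S ⟨1,0,[0,0,-1,-1],[1,-1],[0,1,-1,-1],(⟨0,[(26,0)]⟩,⟨0,[(27,0)]⟩),⟨0,[(11,0),(0,0)]⟩,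
  .k,(.r (-1) ⟨0,[(0,0),(2,0)]⟩ ⟨0,[(20,0),(0,0),(12,1)]⟩),⟨true,0,⟨0,[(38,0)]⟩,⟨0,[]⟩⟩,⟨false,1,⟨1,
  [(13,0),(0,0),(21,0)]⟩,⟨0,[]⟩⟩,⟨false,0,⟨0,[(34,0)]⟩,⟨3,[(7,1),(5,0),(0,0),(21,0)]⟩⟩,⟨true,0,⟨0,
  [(34,0)]⟩,⟨0,[(33,0)]⟩⟩,[.e ⟨false,1,⟨5,[(0,0),(2,0),(3,1),(20,3),(6,2)]⟩,⟨0,[(29,0),(4,0)]⟩⟩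
  ⟨false,1,⟨1,[(0,0),(2,0),(31,0)]⟩,⟨1,[(20,0),(0,0),(12,1)]⟩⟩,.o ⟨false,1,⟨3,[(7,1),(5,0),(0,0),
  (21,0)]⟩,⟨1,[(2,0),(15,0),(11,0),(3,1)]⟩⟩,.o ⟨false,0,⟨1,[(20,0),(0,0)]⟩,⟨3,[(3,0),(15,0),(10,0),
  (4,0)]⟩⟩,.a ⟨true,(-1),⟨0,[(2,0),(15,0),(10,1)]⟩,⟨0,[(35,0)]⟩⟩ ⟨false,1,⟨1,[(0,0),(2,0),(31,0)]⟩,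
  ⟨1,[(20,0),(0,0),(7,1),(4,1)]⟩⟩ ⟨true,1,⟨1,[(0,0),(2,0),(31,0)]⟩,⟨1,[(2,2),(15,2),(10,3),(0,0),(3,
  1)]⟩⟩]⟩)))) (.Q [0,-1,0,1,1,0,1,1,0,-1,1] (.p true [0,0,1] [1] (⟨0,[(20,0)]⟩,⟨0,[(19,0)]⟩) .k 1
  (⟨0,[]⟩,⟨0,[]⟩) .k .k) (.R ⟨2,true,false,true,[0,1],[1,0,-1],[1,1,1],(⟨0,[]⟩,⟨0,[]⟩),(⟨0,[(20,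
  0)]⟩,⟨0,[(21,0)]⟩),⟨0,[]⟩,.k,.k,.k,.k,.k,.k,⟨false,0,⟨4,[(2,1),(13,0),(2,0),(7,0)]⟩,⟨0,[(6,0),(11,
  0),(14,0)]⟩⟩,⟨true,(-1),⟨5,[(1,3),(0,1),(5,0),(11,0),(0,0),(12,1)]⟩,⟨1,[(18,1),(4,0),(9,0)]⟩⟩,
  ⟨true,0,⟨0,[(31,0)]⟩,⟨0,[(32,0)]⟩⟩,⟨false,0,⟨1,[(1,0),(3,0),(0,0),(13,0),(0,0),(11,0)]⟩,⟨0,[(0,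
  0)]⟩⟩,⟨false,0,⟨0,[]⟩,⟨1,[(11,0),(0,0),(21,0)]⟩⟩,⟨true,(-1),⟨0,[(1,0),(31,0)]⟩,⟨9,[(0,3),(4,1),(5,
  0),(0,0),(3,5),(6,2)]⟩⟩,[]⟩) (.Q [0,-1,0,2,1,0,1,1,0,-1,1] (.p true [0,0,1] [1] (⟨0,[(21,0)]⟩,⟨0,
  [(20,0)]⟩) .k 1 (⟨0,[]⟩,⟨0,[]⟩) .k .k) (.R ⟨1,true,false,false,[1,0,-1],[0,1],[1,0,0,-1,0,0,0,-1],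
  (⟨0,[(21,0)]⟩,⟨0,[(22,0)]⟩),(⟨0,[(26,0)]⟩,⟨0,[(25,0)]⟩),⟨0,[(10,0)]⟩,.k,.k,.k,.k,(.r (-2) ⟨13,[(1,
  5),(4,10),(0,2),(10,4),(0,13),(9,1),(4,20)]⟩ ⟨4,[(0,4),(1,4),(0,1),(13,0),(2,0),(7,0)]⟩),.k,⟨true,
  1,⟨7,[(1,11),(1,1),(2,1),(12,11),(9,3),(4,8),(0,4)]⟩,⟨4,[(0,4),(1,4),(0,1),(13,0),(2,0),(7,0)]⟩⟩,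
  ⟨false,2,⟨1,[(19,1),(4,0),(9,2)]⟩,⟨5,[(2,3),(0,1),(5,0),(11,0),(0,0),(12,1)]⟩⟩,⟨false,1,⟨3,[(6,1),
  (5,0),(0,0),(21,0)]⟩,⟨0,[(33,0)]⟩⟩,⟨true,1,⟨3,[(0,1),(11,0),(0,0),(3,1),(6,0)]⟩,⟨0,[(1,0)]⟩⟩,
  ⟨true,0,⟨0,[]⟩,⟨0,[(37,0)]⟩⟩,⟨false,1,⟨0,[(0,0)]⟩,⟨4,[(1,3),(4,2),(11,0),(2,0),(0,0),(12,0)]⟩⟩,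
  []⟩) (.Q [0,0,0,0,0,0,0,0,1,-1,0,1] (.p true [0,0,0,0,1] [1] (⟨0,[(15,0)]⟩,⟨0,[(14,0)]⟩) .k 1 (⟨0,
  []⟩,⟨0,[]⟩) .k .k) (.Q [0,1,-1,-1,0,0,1,1,1,-1,1,1] (.p true [0,0,1] [1,0,0,0,-1] (⟨0,[(23,0)]⟩,
  ⟨0,[(22,0)]⟩) .k 2 (⟨0,[(15,0)]⟩,⟨0,[(16,0)]⟩) .k (.r 0 ⟨4,[(4,1),(13,0),(2,0),(7,0)]⟩ ⟨1,[(19,1),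
  (0,1),(14,0),(0,0)]⟩)) (.Q [0,0,0,0,0,0,-1,0,-1,1,-1,-1] (.p false [0,0,1] [1,0,0,0,-1] (⟨0,[(24,
  0)]⟩,⟨0,[(23,0)]⟩) .k 2 (⟨0,[(16,0)]⟩,⟨0,[(17,0)]⟩) .k (.r 0 ⟨4,[(5,1),(13,0),(2,0),(7,0)]⟩ ⟨1,
  [(20,1),(0,1),(14,0),(0,0)]⟩)) (.Q [0,0,0,0,0,-1,0,0,0,1,0,-1] (.ed true [0,1,0,0,1] .k) (.R ⟨1,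
  false,false,true,[1,0,0,0,-1],[0,0,1],[-1],(⟨0,[(18,0)]⟩,⟨0,[(19,0)]⟩),(⟨0,[(26,0)]⟩,⟨0,[(25,
  0)]⟩),⟨0,[(0,0)]⟩,.k,.k,(.r (-1) ⟨13,[(10,6),(5,0),(0,0),(13,1),(6,5),(2,2)]⟩ ⟨1,[(23,0),(0,0),
  (12,1)]⟩),.k,(.r (-1) ⟨7,[(4,2),(5,0),(0,4),(11,7),(9,0),(4,7),(0,0)]⟩ ⟨4,[(7,0),(13,2),(2,2),(7,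
  2),(4,4)]⟩),.k,⟨true,1,⟨1,[(11,1),(11,1),(14,0),(0,0)]⟩,⟨24,[(6,14),(0,11),(13,15),(2,0),(7,5),(0,
  4)]⟩⟩,⟨false,1,⟨0,[(3,0),(19,0),(14,0)]⟩,⟨0,[(1,0)]⟩⟩,⟨false,1,⟨1,[(16,0),(0,0),(21,0)]⟩,⟨0,[]⟩⟩,
  ⟨false,0,⟨0,[(2,0),(29,0),(4,0)]⟩,⟨0,[(6,0),(9,0),(21,0),(0,0)]⟩⟩,⟨true,0,⟨0,[(37,0)]⟩,⟨0,[(36,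
  0)]⟩⟩,⟨false,0,⟨0,[(2,0),(29,0),(4,1)]⟩,⟨0,[(5,0),(10,0),(22,0)]⟩⟩,[.e ⟨false,1,⟨9,[(16,3),(0,3),
  (20,4),(0,0),(1,1)]⟩,⟨0,[]⟩⟩ ⟨false,0,⟨0,[(2,0),(34,0)]⟩,⟨0,[(6,0),(9,0),(21,0),(0,0)]⟩⟩,.o
  ⟨false,1,⟨1,[(21,1),(6,0),(10,0)]⟩,⟨0,[(11,0)]⟩⟩,.o ⟨false,1,⟨0,[(16,0)]⟩,⟨0,[(3,0)]⟩⟩,.a ⟨true,0,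
  ⟨0,[(1,0),(21,0)]⟩,⟨0,[(2,0),(3,0),(30,0),(0,0),(0,0)]⟩⟩ ⟨false,1,⟨0,[(32,0),(5,0)]⟩,⟨1,[(23,0),
  (0,0)]⟩⟩ ⟨true,0,⟨0,[(2,0),(34,0)]⟩,⟨1,[(6,1),(9,1),(21,0),(0,0)]⟩⟩]⟩) (.R ⟨0,false,false,false,
  [1,0,0,0,-1],[0,0,1],[1,1],(⟨0,[(18,0)]⟩,⟨0,[(19,0)]⟩),(⟨0,[(26,0)]⟩,⟨0,[(25,0)]⟩),⟨0,[(0,0)]⟩,.k,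
  .k,(.r (-1) ⟨13,[(10,6),(5,0),(0,0),(13,1),(6,5),(2,2)]⟩ ⟨1,[(23,0),(0,0),(12,1)]⟩),.k,.k,.k,
  ⟨true,0,⟨4,[(6,2),(4,1),(11,4),(7,0),(1,0),(4,4)]⟩,⟨4,[(7,1),(13,0),(2,0),(7,5)]⟩⟩,⟨false,1,⟨0,
  [(3,0),(19,0),(14,0)]⟩,⟨0,[(1,0)]⟩⟩,⟨false,0,⟨0,[]⟩,⟨4,[(16,1),(0,1),(21,2),(1,0)]⟩⟩,⟨true,0,⟨0,
  [(2,0),(29,0),(4,0)]⟩,⟨0,[(6,0),(9,0),(21,0)]⟩⟩,⟨false,0,⟨0,[]⟩,⟨0,[]⟩⟩,⟨false,0,⟨0,[]⟩,⟨0,[]⟩⟩,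
  [.o ⟨false,1,⟨1,[(21,1),(6,0),(10,0)]⟩,⟨0,[(11,0)]⟩⟩,.a ⟨true,1,⟨0,[(21,0),(17,0)]⟩,⟨0,[(6,0),(31,
  0)]⟩⟩ ⟨true,0,⟨0,[]⟩,⟨1,[(23,0),(0,0)]⟩⟩ ⟨false,1,⟨0,[(2,0),(34,0),(1,0)]⟩,⟨0,[(6,0),(9,0),(21,
  0)]⟩⟩,.o ⟨false,1,⟨0,[(16,0)]⟩,⟨0,[(3,0)]⟩⟩,.e ⟨false,1,⟨1,[(16,0),(0,0),(20,0)]⟩,⟨0,[(32,0)]⟩⟩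
  ⟨false,1,⟨0,[(2,0),(34,0),(1,0)]⟩,⟨1,[(6,1),(9,1),(21,0),(0,0)]⟩⟩]⟩)) (.Q [-1,0,0,0,1,0,0,0,-1,0,
  0,-1] (.p false [0,0,0,0,1] [] (⟨0,[(18,0)]⟩,⟨0,[(17,0)]⟩) .k 0 (⟨0,[]⟩,⟨0,[]⟩) .k .k) (.Q [1,-1,
  0,0,0,0,0,0,1,-1,0,1] (.p true [0,0,0,0,1] [1] (⟨0,[(19,0)]⟩,⟨0,[(18,0)]⟩) .k 1 (⟨0,[]⟩,⟨0,[]⟩)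
  .k .k) (.R ⟨1,false,false,true,[0,0,1],[1,0,0,0,-1],[1,1,0,-1,0,0,0,1],(⟨0,[(27,0)]⟩,⟨0,[(26,
  0)]⟩),(⟨0,[(19,0)]⟩,⟨0,[(20,0)]⟩),⟨0,[(16,0)]⟩,.k,.k,.k,.k,(.r (-1) ⟨11,[(8,1),(2,5),(1,7),(25,4),
  (0,0)]⟩ ⟨0,[(12,0),(11,0),(13,0)]⟩),.k,⟨true,0,⟨0,[(9,0)]⟩,⟨0,[(12,0),(11,0),(13,0)]⟩⟩,⟨false,1,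
  ⟨0,[(17,0),(3,0)]⟩,⟨0,[(2,0)]⟩⟩,⟨true,0,⟨0,[(37,0)]⟩,⟨0,[(38,0)]⟩⟩,⟨true,0,⟨0,[(7,0),(9,0),(21,
  0)]⟩,⟨0,[(0,0),(21,0)]⟩⟩,⟨false,0,⟨0,[]⟩,⟨1,[(17,0),(0,0),(21,0)]⟩⟩,⟨true,0,⟨0,[(7,0),(9,0),(20,
  0),(0,0)]⟩,⟨0,[(3,0),(29,0)]⟩⟩,[.o ⟨false,1,⟨0,[(17,0),(24,0)]⟩,⟨0,[(0,0)]⟩⟩,.o ⟨false,1,⟨0,[(1,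
  0)]⟩,⟨0,[(4,0)]⟩⟩,.o ⟨false,1,⟨0,[(2,0),(14,0)]⟩,⟨0,[(10,0)]⟩⟩,.a ⟨true,0,⟨0,[(24,0)]⟩,⟨0,[(21,
  0)]⟩⟩ ⟨true,0,⟨5,[(3,1),(1,1),(2,2),(8,1),(14,0)]⟩,⟨0,[(12,0),(11,0),(13,0)]⟩⟩ ⟨false,1,⟨0,[(1,0),
  (19,0)]⟩,⟨0,[(2,0),(30,0)]⟩⟩]⟩) (.K ⟨0,[1,0,0,0,-1],0,0,(⟨0,[(19,0)]⟩,⟨0,[(20,0)]⟩),.k,(.r (-1)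
  ⟨13,[(11,6),(5,0),(0,0),(13,1),(6,5),(2,2)]⟩ ⟨1,[(24,0),(0,0),(12,1)]⟩),(.r 0 ⟨1,[(24,0),(0,0),
  (12,1)]⟩ ⟨7,[(11,3),(5,0),(0,0),(13,1),(6,2)]⟩),.k,.k,[⟨0,[(2,0)]⟩,⟨0,[(0,0),(32,0)]⟩,⟨1,[(2,0),
  (1,0),(20,0),(6,0)]⟩,⟨0,[(0,0)]⟩]⟩)) (.R ⟨2,true,false,false,[0,1],[0,0,0,0,1],[1,1,1],(⟨0,[]⟩,⟨0,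
  []⟩),(⟨0,[(19,0)]⟩,⟨0,[(18,0)]⟩),⟨0,[]⟩,.k,.k,.k,(.r 0 ⟨1,[(23,0),(0,0),(12,1)]⟩ ⟨7,[(10,3),(5,0),
  (0,0),(13,1),(6,2)]⟩),.k,.k,⟨false,0,⟨0,[(41,0)]⟩,⟨1,[(38,0),(0,0)]⟩⟩,⟨true,(-1),⟨4,[(0,0),(0,1),
  (4,1),(0,0),(9,1),(14,1)]⟩,⟨0,[(16,0)]⟩⟩,⟨true,0,⟨0,[(36,0)]⟩,⟨0,[(37,0)]⟩⟩,⟨false,0,⟨3,[(0,2),(9,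
  1),(6,0),(21,0)]⟩,⟨0,[(16,0),(20,0)]⟩⟩,⟨false,0,⟨0,[]⟩,⟨1,[(16,0),(0,0),(21,0)]⟩⟩,⟨true,(-1),⟨0,
  [(0,0)]⟩,⟨0,[(16,0),(24,0)]⟩⟩,[]⟩))) (.Q [0,0,0,0,0,-1,0,0,0,0,0,1] (.ed false [1,-1,0,0,1] .k)
  (.R ⟨1,false,false,true,[0,0,0,0,1],[1,-1],[1,1],(⟨0,[(18,0)]⟩,⟨0,[(17,0)]⟩),(⟨0,[(28,0)]⟩,⟨0,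
  [(29,0)]⟩),⟨0,[(0,0)]⟩,.k,.k,(.r (-1) ⟨7,[(9,3),(5,0),(0,0),(13,1),(6,2)]⟩ ⟨1,[(22,0),(0,0),(12,
  1)]⟩),(.r 0 ⟨1,[(22,0),(0,0),(12,1)]⟩ ⟨13,[(9,6),(5,0),(0,0),(13,1),(6,5),(2,2)]⟩),.k,.k,⟨false,0,
  ⟨0,[(36,0)]⟩,⟨7,[(9,3),(5,0),(0,0),(13,1),(6,2)]⟩⟩,⟨true,0,⟨2,[(1,1),(1,0),(2,0),(8,0),(4,0),(1,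
  1)]⟩,⟨0,[(2,0)]⟩⟩,⟨true,0,⟨0,[(40,0)]⟩,⟨0,[]⟩⟩,⟨true,0,⟨1,[(1,1),(1,0),(0,1),(1,1),(13,0),(1,3),
  (9,0),(4,1)]⟩,⟨0,[(2,0),(33,0)]⟩⟩,⟨false,0,⟨0,[(36,0)]⟩,⟨3,[(9,1),(5,0),(0,0),(21,0)]⟩⟩,⟨true,0,
  ⟨1,[(1,1),(2,1),(0,0),(0,1),(13,0),(1,3),(9,0),(4,2)]⟩,⟨0,[(2,0)]⟩⟩,[.o ⟨false,0,⟨0,[(35,0)]⟩,⟨1,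
  [(27,0),(8,1),(1,0)]⟩⟩,.a ⟨true,0,⟨1,[(3,0),(16,0),(3,0),(0,0),(12,0)]⟩,⟨0,[(36,0)]⟩⟩ ⟨true,0,⟨0,
  []⟩,⟨1,[(22,0),(0,0)]⟩⟩ ⟨false,1,⟨8,[(1,4),(1,6),(2,5),(8,3),(6,11),(9,0),(4,9),(0,0)]⟩,⟨0,[(2,0),
  (33,0)]⟩⟩,.o ⟨false,0,⟨0,[(2,0)]⟩,⟨0,[(15,0)]⟩⟩,.e ⟨false,1,⟨1,[(15,0),(0,0),(20,0)]⟩,⟨0,[(31,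
  0)]⟩⟩ ⟨false,1,⟨8,[(1,4),(1,6),(2,5),(8,3),(6,11),(9,0),(4,9),(0,0)]⟩,⟨0,[(2,0),(28,0),(4,
  0)]⟩⟩]⟩) (.I [1,0,2,2,-1] (.I [0,0,2,2,-1] (.I [2,0,2,1,-1] (.R ⟨1,false,false,false,[1,0,0,0,-1],
  [0,1],[-1],(⟨0,[(20,0)]⟩,⟨0,[(21,0)]⟩),(⟨0,[(32,0)]⟩,⟨0,[(31,0)]⟩),⟨0,[(3,0),(12,0),(0,0)]⟩,.k,.k,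
  (.r (-1) ⟨13,[(12,6),(5,0),(0,0),(13,1),(6,5),(2,2)]⟩ ⟨1,[(1,0),(16,0),(0,0)]⟩),(.r (-1) ⟨13,[(12,
  6),(5,0),(0,0),(13,1),(6,5),(2,2)]⟩ ⟨1,[(1,0),(16,0),(0,0)]⟩),(.r (-2) ⟨3,[(12,3),(5,0),(0,0),(13,
  1),(6,2)]⟩ ⟨0,[(2,0)]⟩),.k,⟨true,1,⟨13,[(12,6),(5,0),(0,0),(13,1),(6,5),(2,2)]⟩,⟨0,[(0,0)]⟩⟩,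
  ⟨false,1,⟨0,[(5,0),(34,0)]⟩,⟨2,[(4,1),(1,0),(2,0),(8,0),(4,0),(1,1)]⟩⟩,⟨false,1,⟨1,[(18,0),(0,0),
  (21,0)]⟩,⟨0,[]⟩⟩,⟨true,0,⟨0,[(5,0),(33,0)]⟩,⟨1,[(4,1),(1,0),(0,1),(1,1),(13,0),(1,3),(9,0),(4,
  1)]⟩⟩,⟨true,0,⟨0,[(39,0)]⟩,⟨0,[(38,0)]⟩⟩,⟨true,0,⟨0,[(5,0),(33,1)]⟩,⟨1,[(4,1),(1,2),(2,1),(13,0),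
  (1,3),(9,0),(4,1)]⟩⟩,[.a ⟨true,0,⟨0,[(39,0)]⟩,⟨1,[(6,0),(16,0),(3,0),(0,0),(12,0)]⟩⟩ ⟨false,1,⟨9,
  [(18,3),(0,3),(20,4),(0,0),(1,1)]⟩,⟨0,[]⟩⟩ ⟨true,0,⟨0,[(5,0),(33,0)]⟩,⟨8,[(4,4),(1,6),(2,5),(8,3),
  (6,11),(9,0),(4,0),(0,0)]⟩⟩,.o ⟨false,1,⟨1,[(30,0),(8,1),(1,0)]⟩,⟨0,[(38,0)]⟩⟩,.o ⟨false,1,⟨0,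
  [(18,0)]⟩,⟨0,[(5,0)]⟩⟩,.e ⟨false,1,⟨0,[(34,0),(5,0)]⟩,⟨1,[(25,0),(0,0)]⟩⟩ ⟨false,1,⟨1,[(5,1),(33,
  1),(0,0),(0,0)]⟩,⟨8,[(4,4),(1,6),(2,5),(8,3),(6,11),(9,0),(4,0),(0,0)]⟩⟩]⟩) (.R ⟨1,false,false,
  false,[1,0,0,0,-1],[0,1],[0,0,0,-1],(⟨0,[(20,0)]⟩,⟨0,[(21,0)]⟩),(⟨0,[(32,0)]⟩,⟨0,[(31,0)]⟩),⟨0,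
  [(3,0),(12,0),(0,0)]⟩,.k,.k,(.r (-1) ⟨6,[(0,2),(11,1),(5,1),(0,1),(13,0)]⟩ ⟨1,[(1,0),(16,0),(0,
  0)]⟩),(.r (-1) ⟨6,[(0,2),(11,1),(5,1),(0,1),(13,0)]⟩ ⟨1,[(1,0),(16,0),(0,0)]⟩),(.r (-2) ⟨3,[(12,
  3),(5,0),(0,0),(13,1),(6,2)]⟩ ⟨0,[(2,0)]⟩),.k,⟨true,1,⟨1,[(0,0),(11,0),(25,0)]⟩,⟨0,[(2,0)]⟩⟩,
  ⟨false,1,⟨0,[(5,0),(34,0)]⟩,⟨2,[(4,1),(1,0),(2,0),(8,0),(4,0),(1,1)]⟩⟩,⟨false,1,⟨3,[(12,1),(5,0),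
  (0,0),(21,0)]⟩,⟨0,[(39,0)]⟩⟩,⟨true,0,⟨0,[(5,0),(33,0)]⟩,⟨1,[(4,1),(1,0),(0,1),(1,1),(13,0),(1,3),
  (9,0),(4,1)]⟩⟩,⟨true,0,⟨0,[]⟩,⟨0,[(43,0)]⟩⟩,⟨true,0,⟨0,[(5,0),(33,1)]⟩,⟨1,[(4,1),(1,2),(2,1),(13,
  0),(1,3),(9,0),(4,1)]⟩⟩,[.a ⟨true,0,⟨0,[(39,0)]⟩,⟨1,[(6,0),(16,0),(3,0),(0,0),(12,0)]⟩⟩ ⟨false,1,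
  ⟨7,[(12,3),(5,0),(0,0),(13,1),(6,2)]⟩,⟨0,[(39,0)]⟩⟩ ⟨true,0,⟨0,[(5,0),(33,0)]⟩,⟨10,[(0,0),(3,5),
  (1,7),(2,6),(8,4),(6,13),(9,0),(5,0)]⟩⟩,.o ⟨false,1,⟨1,[(30,0),(8,1),(1,0)]⟩,⟨0,[(38,0)]⟩⟩,.o
  ⟨false,1,⟨0,[(18,0)]⟩,⟨0,[(5,0)]⟩⟩,.e ⟨false,1,⟨0,[(0,0),(33,0)]⟩,⟨1,[(1,0),(16,0),(0,0)]⟩⟩
  ⟨false,1,⟨1,[(5,1),(33,1),(0,0),(0,0)]⟩,⟨10,[(0,0),(3,5),(1,7),(2,6),(8,4),(6,13),(9,0),(5,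
  0)]⟩⟩]⟩)) (.R ⟨1,false,false,false,[1,0,0,0,-1],[0,1],[0,0,0,-1],(⟨0,[(19,0)]⟩,⟨0,[(20,0)]⟩),(⟨0,
  [(31,0)]⟩,⟨0,[(30,0)]⟩),⟨0,[(2,0),(12,0),(0,0)]⟩,.k,.k,(.r (-1) ⟨13,[(11,6),(5,0),(0,0),(13,1),(6,
  5),(2,2)]⟩ ⟨1,[(1,0),(15,0),(0,0)]⟩),(.r (-1) ⟨13,[(11,6),(5,0),(0,0),(13,1),(6,5),(2,2)]⟩ ⟨1,[(1,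
  0),(15,0),(0,0)]⟩),(.r (-2) ⟨3,[(11,3),(5,0),(0,0),(13,1),(6,2)]⟩ ⟨0,[(1,0)]⟩),.k,⟨true,1,⟨2,[(0,
  0),(10,1),(20,0)]⟩,⟨0,[(1,0)]⟩⟩,⟨false,1,⟨0,[(4,0),(34,0)]⟩,⟨2,[(3,1),(1,0),(2,0),(8,0),(4,0),(1,
  1)]⟩⟩,⟨false,1,⟨3,[(11,1),(5,0),(0,0),(21,0)]⟩,⟨0,[(38,0)]⟩⟩,⟨true,0,⟨0,[(4,0),(33,0)]⟩,⟨1,[(3,1),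
  (1,0),(0,1),(1,1),(13,0),(1,3),(9,0),(4,1)]⟩⟩,⟨true,0,⟨0,[]⟩,⟨0,[(42,0)]⟩⟩,⟨true,0,⟨0,[(4,0),(33,
  1)]⟩,⟨1,[(3,1),(1,2),(2,1),(13,0),(1,3),(9,0),(4,1)]⟩⟩,[.a ⟨true,0,⟨0,[(38,0)]⟩,⟨1,[(5,0),(16,0),
  (3,0),(0,0),(12,0)]⟩⟩ ⟨false,1,⟨7,[(11,3),(5,0),(0,0),(13,1),(6,2)]⟩,⟨0,[(38,0)]⟩⟩ ⟨true,0,⟨0,[(4,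
  0),(33,0)]⟩,⟨14,[(0,1),(2,8),(1,8),(2,7),(0,1),(7,5),(6,17),(9,0)]⟩⟩,.o ⟨false,1,⟨1,[(29,0),(8,1),
  (1,0)]⟩,⟨0,[(37,0)]⟩⟩,.o ⟨false,1,⟨0,[(17,0)]⟩,⟨0,[(4,0)]⟩⟩,.e ⟨false,1,⟨1,[(0,0),(39,0)]⟩,⟨1,[(1,
  0),(15,0),(0,0)]⟩⟩ ⟨false,1,⟨1,[(4,1),(33,1),(0,0),(0,0)]⟩,⟨14,[(0,1),(2,8),(1,8),(2,7),(0,1),(7,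
  5),(6,17),(9,0)]⟩⟩]⟩)) (.S ⟨1,0,[0,0,-1,-1],[1,-1],[1,1,-1,-2],(⟨0,[(29,0)]⟩,⟨0,[(30,0)]⟩),⟨0,
  [(14,0),(0,0)]⟩,.k,(.r (-1) ⟨0,[(0,0)]⟩ ⟨0,[(23,0),(0,0),(12,1)]⟩),⟨true,0,⟨0,[(36,0)]⟩,⟨0,[(37,
  0)]⟩⟩,⟨false,1,⟨1,[(16,0),(0,0),(21,0)]⟩,⟨0,[]⟩⟩,⟨false,0,⟨0,[]⟩,⟨1,[(16,0),(0,0),(21,0)]⟩⟩,⟨true,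
  0,⟨0,[(37,0)]⟩,⟨0,[(36,0)]⟩⟩,[.e ⟨false,1,⟨2,[(0,1),(9,0),(20,1)]⟩,⟨0,[(32,0),(4,1)]⟩⟩ ⟨false,1,
  ⟨1,[(0,0),(37,0)]⟩,⟨1,[(23,0),(0,0),(12,1)]⟩⟩,.o ⟨false,1,⟨3,[(10,1),(5,0),(0,0),(21,0)]⟩,⟨1,[(6,
  0),(14,0),(11,0),(3,1),(0,0)]⟩⟩,.o ⟨false,0,⟨1,[(23,0),(0,0)]⟩,⟨1,[(28,0),(9,0)]⟩⟩,.a ⟨true,(-1),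
  ⟨0,[(6,0),(14,0),(17,0)]⟩,⟨0,[(38,0)]⟩⟩ ⟨false,1,⟨0,[(0,0)]⟩,⟨1,[(23,0),(0,0),(7,1),(4,3)]⟩⟩
  ⟨true,1,⟨1,[(0,0),(37,0)]⟩,⟨9,[(6,5),(14,5),(1,2),(0,2),(7,1),(0,1),(3,9)]⟩⟩]⟩)))) (.Q [0,0,0,0,0,
  -1,0,0,0,0,0,1] (.ed false [1,-1,0,0,1] .k) (.S ⟨1,0,[1],[0,0,0,0,1],[1,1],(⟨0,[(17,0)]⟩,⟨0,[(16,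
  0)]⟩),⟨0,[(0,0)]⟩,.k,(.r (-1) ⟨7,[(8,3),(5,0),(0,0),(13,1),(6,2)]⟩ ⟨1,[(21,0),(0,0),(12,1)]⟩),
  ⟨true,0,⟨0,[(39,0)]⟩,⟨0,[]⟩⟩,⟨false,1,⟨1,[(14,0),(0,0),(21,0)]⟩,⟨0,[]⟩⟩,⟨false,0,⟨0,[(35,0)]⟩,⟨3,
  [(8,1),(5,0),(0,0),(21,0)]⟩⟩,⟨true,0,⟨0,[(35,0)]⟩,⟨0,[(34,0)]⟩⟩,[.e ⟨true,0,⟨0,[(39,0)]⟩,⟨0,[(30,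
  0)]⟩⟩ ⟨true,0,⟨0,[]⟩,⟨1,[(21,0),(0,0)]⟩⟩,.o ⟨false,1,⟨1,[(15,1),(10,0),(10,0)]⟩,⟨3,[(1,3),(0,1),
  (2,0),(15,1),(7,0),(1,1),(3,3)]⟩⟩,.a ⟨true,0,⟨0,[(15,0)]⟩,⟨0,[(1,0)]⟩⟩ ⟨false,0,⟨0,[]⟩,⟨1,[(14,0),
  (0,0),(21,0)]⟩⟩ ⟨true,0,⟨0,[]⟩,⟨0,[(39,0)]⟩⟩,.o ⟨false,0,⟨9,[(4,1),(10,9),(3,1),(1,0),(0,0),(7,3),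
  (0,3)]⟩,⟨3,[(1,2),(12,0),(16,0),(4,1)]⟩⟩]⟩) (.S ⟨1,0,[-1,1],[1,0,0,0,-1],[-1],(⟨0,[(16,0)]⟩,⟨0,
  [(17,0)]⟩),⟨0,[(0,0),(11,0),(0,0)]⟩,.k,(.r (-1) ⟨13,[(8,6),(5,0),(0,0),(13,1),(6,5),(2,2)]⟩ ⟨1,
  [(21,0),(0,0),(12,1)]⟩),⟨false,1,⟨1,[(14,0),(0,0),(21,0)]⟩,⟨0,[]⟩⟩,⟨true,0,⟨0,[(39,0)]⟩,⟨0,[]⟩⟩,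
  ⟨true,0,⟨0,[(35,0)]⟩,⟨0,[(34,0)]⟩⟩,⟨false,0,⟨0,[(35,0)]⟩,⟨3,[(8,1),(5,0),(0,0),(21,0)]⟩⟩,[.o
  ⟨false,0,⟨3,[(1,3),(0,1),(2,0),(15,1),(7,0),(1,1),(3,3)]⟩,⟨1,[(15,1),(10,0),(10,0)]⟩⟩,.e ⟨false,1,
  ⟨0,[(30,0),(5,0)]⟩,⟨0,[(39,0)]⟩⟩ ⟨false,1,⟨9,[(14,3),(0,3),(20,4),(0,0),(1,1)]⟩,⟨0,[]⟩⟩,.a ⟨true,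
  0,⟨0,[(1,0)]⟩,⟨0,[(15,0)]⟩⟩ ⟨false,1,⟨4,[(14,1),(0,1),(21,2),(1,0)]⟩,⟨0,[]⟩⟩ ⟨true,0,⟨0,[(39,0)]⟩,
  ⟨0,[]⟩⟩,.o ⟨false,0,⟨7,[(1,6),(2,1),(9,0),(4,1),(10,3),(0,2)]⟩,⟨1,[(15,1),(10,0),(9,0)]⟩⟩]⟩))))))

theorem ok2 : chk K t2 l5 = true := by decide +kernel

noncomputable def t3 : Tre :=
  (.Q [0,-1,-1,-1,1,0,1,0,0,0,1] (.p true [0,0,1] [] (⟨0,[(19,0)]⟩,⟨0,[(18,0)]⟩) .k 0 (⟨0,[]⟩,⟨0,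
  []⟩) .k .k) (.Q [0,0,-1,0,1,0,1,0,0,-1,1] (.p true [0,0,1] [1] (⟨0,[(20,0)]⟩,⟨0,[(19,0)]⟩) .k 1
  (⟨0,[]⟩,⟨0,[]⟩) .k .k) (.Q [0,0,0,-1,0,0,0,0,0,1] (.pp false [-1,1]) (.R ⟨1,false,false,false,[1,
  0,-1],[1,-1],[0,1,0,0,0,0,0,-1],(⟨0,[(21,0)]⟩,⟨0,[(22,0)]⟩),(⟨0,[(25,0)]⟩,⟨0,[(26,0)]⟩),⟨0,[(10,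
  0)]⟩,.k,.k,.k,.k,.k,.k,⟨false,0,⟨1,[(3,0),(23,0),(5,1)]⟩,⟨1,[(4,1),(29,0),(0,0)]⟩⟩,⟨true,0,⟨0,
  [(19,0)]⟩,⟨0,[(5,0)]⟩⟩,⟨true,0,⟨0,[(37,0)]⟩,⟨0,[]⟩⟩,⟨false,1,⟨3,[(2,0),(1,0),(1,0),(10,2),(10,0),
  (6,1)]⟩,⟨0,[(7,0),(25,0)]⟩⟩,⟨false,0,⟨0,[(33,0)]⟩,⟨3,[(6,1),(5,0),(0,0),(21,0)]⟩⟩,⟨false,1,⟨0,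
  [(17,0),(17,0)]⟩,⟨0,[(7,0)]⟩⟩,[.a ⟨true,0,⟨0,[(0,0)]⟩,⟨0,[(33,0)]⟩⟩ ⟨true,0,⟨1,[(3,0),(23,0)]⟩,⟨0,
  [(4,0),(23,0),(4,0)]⟩⟩ ⟨false,1,⟨8,[(2,6),(0,0),(2,0),(5,0),(0,0),(3,1),(9,2)]⟩,⟨0,[(5,0),(27,
  0)]⟩⟩,.e ⟨false,1,⟨3,[(3,1),(8,0),(0,0),(20,2)]⟩,⟨0,[(4,0),(28,0)]⟩⟩ ⟨false,1,⟨0,[(2,0)]⟩,⟨1,[(5,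
  0),(14,0),(6,0),(5,1)]⟩⟩,.o ⟨false,0,⟨0,[(5,0)]⟩,⟨3,[(1,1),(10,0),(0,0),(5,1),(4,0)]⟩⟩,.o ⟨false,
  0,⟨0,[(20,0)]⟩,⟨0,[(1,0)]⟩⟩]⟩) (.R ⟨1,false,false,true,[0,0,1],[1,-1],[1,0,0,-1,0,0,0,1],(⟨0,[(22,
  0)]⟩,⟨0,[(21,0)]⟩),(⟨0,[(25,0)]⟩,⟨0,[(26,0)]⟩),⟨0,[(11,0)]⟩,.k,.k,.k,.k,.k,.k,⟨true,0,⟨0,[(4,0),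
  (23,0),(4,0)]⟩,⟨1,[(3,0),(23,0)]⟩⟩,⟨false,0,⟨1,[(9,0),(11,0),(0,0)]⟩,⟨0,[(1,0)]⟩⟩,⟨false,1,⟨3,[(6,
  1),(5,0),(0,0),(21,0)]⟩,⟨0,[(33,0)]⟩⟩,⟨false,0,⟨0,[(3,0),(0,0),(11,0)]⟩,⟨0,[(0,0),(16,0),(17,
  0)]⟩⟩,⟨true,0,⟨0,[]⟩,⟨0,[(37,0)]⟩⟩,⟨false,0,⟨3,[(3,1),(5,0),(6,1),(4,0),(0,0)]⟩,⟨6,[(0,3),(1,1),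
  (1,1),(12,4),(10,1),(0,0),(5,3)]⟩⟩,[.o ⟨false,0,⟨0,[(32,0)]⟩,⟨1,[(24,0),(8,1),(1,0)]⟩⟩,.o ⟨false,
  1,⟨2,[(6,0),(5,1),(0,1),(18,0)]⟩,⟨0,[(0,0)]⟩⟩,.o ⟨false,1,⟨3,[(1,1),(10,0),(0,0),(5,1),(4,0)]⟩,⟨0,
  [(5,0)]⟩⟩,.a ⟨true,0,⟨0,[(19,0)]⟩,⟨0,[(16,0)]⟩⟩ ⟨false,1,⟨1,[(4,1),(29,0),(0,0)]⟩,⟨3,[(3,1),(15,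
  0),(0,0),(12,3)]⟩⟩ ⟨true,0,⟨0,[(16,0),(15,0)]⟩,⟨0,[(0,0),(18,0)]⟩⟩]⟩)) (.R ⟨1,false,false,false,
  [1,0,-1],[1,-1],[0,1,0,0,0,0,0,-1],(⟨0,[(20,0)]⟩,⟨0,[(21,0)]⟩),(⟨0,[(24,0)]⟩,⟨0,[(25,0)]⟩),⟨0,[(9,
  0)]⟩,.k,.k,.k,.k,.k,.k,⟨false,0,⟨1,[(2,0),(23,0),(5,1)]⟩,⟨1,[(3,1),(29,0),(0,0)]⟩⟩,⟨true,0,⟨0,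
  [(18,0)]⟩,⟨0,[(4,0)]⟩⟩,⟨true,0,⟨0,[(36,0)]⟩,⟨0,[]⟩⟩,⟨false,1,⟨3,[(1,0),(1,0),(1,0),(10,2),(10,0),
  (6,1)]⟩,⟨0,[(6,0),(25,0)]⟩⟩,⟨false,0,⟨0,[(32,0)]⟩,⟨3,[(5,1),(5,0),(0,0),(21,0)]⟩⟩,⟨false,1,⟨0,
  [(16,0),(17,0)]⟩,⟨0,[(6,0)]⟩⟩,[.a ⟨true,0,⟨1,[(0,0),(0,0),(18,0),(0,0),(9,0)]⟩,⟨0,[(32,0)]⟩⟩
  ⟨true,0,⟨1,[(2,0),(23,0)]⟩,⟨0,[(3,0),(23,0),(4,0)]⟩⟩ ⟨false,1,⟨8,[(1,6),(0,0),(2,0),(5,0),(0,0),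
  (3,1),(9,2)]⟩,⟨0,[(4,0),(27,0)]⟩⟩,.e ⟨false,1,⟨3,[(2,1),(8,0),(0,0),(20,2)]⟩,⟨0,[(3,0),(28,0)]⟩⟩
  ⟨false,1,⟨0,[(1,0)]⟩,⟨7,[(0,0),(7,1),(10,2),(6,3),(1,0),(3,7)]⟩⟩,.o ⟨false,0,⟨0,[(4,0)]⟩,⟨1,[(18,
  1),(4,0),(9,0)]⟩⟩,.e ⟨false,1,⟨3,[(2,1),(8,0),(0,0),(20,2)]⟩,⟨0,[(3,0),(23,0),(4,0)]⟩⟩ ⟨false,1,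
  ⟨0,[(1,0)]⟩,⟨0,[(19,0),(12,0)]⟩⟩]⟩)) (.Q [0,0,0,-1,0,0,-1,-1,0,0,-1] (.p false [0,0,1] [] (⟨0,
  [(20,0)]⟩,⟨0,[(19,0)]⟩) .k 0 (⟨0,[]⟩,⟨0,[]⟩) .k .k) (.Q [0,0,1,0,-1,0,-1,0,0,1,-1] (.p false [0,0,
  1] [1] (⟨0,[(21,0)]⟩,⟨0,[(20,0)]⟩) .k 1 (⟨0,[]⟩,⟨0,[]⟩) .k .k) (.Q [0,1,0,0,-1,0,-1,-1,0,1,-1]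
  (.p false [0,0,1] [1] (⟨0,[(22,0)]⟩,⟨0,[(21,0)]⟩) .k 1 (⟨0,[]⟩,⟨0,[]⟩) .k .k) (.Q [0,-1,0,1,1,0,1,
  1,0,-1,1] (.p true [0,0,1] [1] (⟨0,[(23,0)]⟩,⟨0,[(22,0)]⟩) .k 1 (⟨0,[]⟩,⟨0,[]⟩) .k .k) (.R ⟨2,
  true,false,true,[0,1],[1,0,-1],[1,1,1],(⟨0,[]⟩,⟨0,[]⟩),(⟨0,[(23,0)]⟩,⟨0,[(24,0)]⟩),⟨0,[]⟩,.k,.k,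
  .k,.k,.k,.k,⟨false,0,⟨0,[(6,0),(28,0)]⟩,⟨3,[(5,1),(8,0),(0,0),(20,2)]⟩⟩,⟨true,(-1),⟨0,[(2,0)]⟩,
  ⟨12,[(0,3),(4,4),(2,1),(10,5),(1,2),(9,2),(4,3)]⟩⟩,⟨true,0,⟨0,[(34,0)]⟩,⟨0,[(35,0)]⟩⟩,⟨false,0,⟨7,
  [(1,3),(3,1),(2,3),(2,0),(6,1),(4,0),(0,0)]⟩,⟨0,[(0,0)]⟩⟩,⟨false,0,⟨0,[]⟩,⟨1,[(14,0),(0,0),(21,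
  0)]⟩⟩,⟨true,(-1),⟨0,[(1,0)]⟩,⟨9,[(0,3),(7,1),(5,0),(0,0),(3,5),(6,2)]⟩⟩,[]⟩) (.I [0,-1,-1,0,1,0,0,
  -1] (.S ⟨1,0,[0,1,0,0,0,0,0,-1],[1,0,-1],[0,0,0,0,0,0,0,-1],(⟨0,[(24,0)]⟩,⟨0,[(25,0)]⟩),⟨0,[(13,
  0)]⟩,.k,.k,⟨false,1,⟨1,[(15,0),(0,0),(21,0)]⟩,⟨0,[]⟩⟩,⟨true,0,⟨0,[(40,0)]⟩,⟨0,[]⟩⟩,⟨true,0,⟨0,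
  [(36,0)]⟩,⟨0,[(35,0)]⟩⟩,⟨false,0,⟨0,[(36,0)]⟩,⟨3,[(9,1),(5,0),(0,0),(21,0)]⟩⟩,[.a ⟨true,(-1),⟨0,
  [(2,0)]⟩,⟨0,[(20,0),(17,0)]⟩⟩ ⟨false,1,⟨7,[(0,5),(5,0),(8,1),(0,1),(13,2)]⟩,⟨0,[(7,0),(28,0)]⟩⟩
  ⟨true,0,⟨1,[(6,0),(23,0)]⟩,⟨0,[(7,0),(23,0),(4,0)]⟩⟩,.o ⟨false,0,⟨0,[(10,0)]⟩,⟨1,[(20,1),(6,0),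
  (10,0)]⟩⟩,.o ⟨false,0,⟨0,[(8,0)]⟩,⟨1,[(0,0),(19,0),(1,0),(4,0)]⟩⟩,.e ⟨false,1,⟨0,[(0,0)]⟩,⟨0,[(11,
  0),(19,0)]⟩⟩ ⟨false,1,⟨7,[(0,5),(5,0),(8,1),(0,1),(13,2)]⟩,⟨0,[(7,0),(23,0),(4,0)]⟩⟩]⟩) (.Q [0,-1,
  0,2,1,0,1,1,0,-1,1] (.p true [0,0,1] [1] (⟨0,[(25,0)]⟩,⟨0,[(24,0)]⟩) .k 1 (⟨0,[]⟩,⟨0,[]⟩) .k .k)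
  (.R ⟨1,true,false,false,[1,0,-1],[0,1],[1,0,0,-1,0,0,0,-1],(⟨0,[(25,0)]⟩,⟨0,[(26,0)]⟩),(⟨0,[(30,
  0)]⟩,⟨0,[(29,0)]⟩),⟨0,[(14,0)]⟩,.k,.k,.k,.k,(.r (-2) ⟨1,[(7,0),(2,1),(20,0),(6,1)]⟩ ⟨0,[(1,0),(30,
  0),(4,1)]⟩),.k,⟨true,1,⟨3,[(2,5),(5,1),(14,5),(9,1),(4,4),(0,2)]⟩,⟨0,[(1,0),(30,0),(4,1)]⟩⟩,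
  ⟨false,2,⟨10,[(0,1),(6,2),(2,1),(10,3),(1,4),(9,2),(4,14)]⟩,⟨0,[(4,0)]⟩⟩,⟨false,1,⟨3,[(10,1),(5,
  0),(0,0),(21,0)]⟩,⟨0,[(37,0)]⟩⟩,⟨true,1,⟨3,[(0,1),(15,0),(0,0),(3,1),(6,0)]⟩,⟨0,[(2,0)]⟩⟩,⟨true,0,
  ⟨0,[]⟩,⟨0,[(41,0)]⟩⟩,⟨false,1,⟨0,[(0,0)]⟩,⟨11,[(2,7),(4,1),(2,7),(2,0),(6,1),(4,0),(0,0)]⟩⟩,[]⟩)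
  (.I [0,0,-2,0,1,-2,0,0,-1] (.Q [0,0,0,0,0,-1,0,0,0,0,0,1] (.ed false [1,-1,0,0,1] .k) (.Q [0,0,0,
  0,0,0,0,0,-1,1,0,-1] (.p false [0,0,0,0,1] [1] (⟨0,[(21,0)]⟩,⟨0,[(20,0)]⟩) .k 1 (⟨0,[]⟩,⟨0,[]⟩)
  .k .k) (.S ⟨1,0,[1],[0,0,0,0,1],[1,1],(⟨0,[(22,0)]⟩,⟨0,[(21,0)]⟩),⟨0,[(1,0)]⟩,.k,(.r (-1) ⟨7,[(13,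
  3),(5,0),(0,0),(13,1),(6,2)]⟩ ⟨1,[(26,0),(0,0),(12,1)]⟩),⟨true,0,⟨0,[(44,0)]⟩,⟨0,[]⟩⟩,⟨false,1,⟨1,
  [(19,0),(0,0),(21,0)]⟩,⟨0,[]⟩⟩,⟨false,0,⟨0,[(40,0)]⟩,⟨3,[(13,1),(5,0),(0,0),(21,0)]⟩⟩,⟨true,0,⟨0,
  [(40,0)]⟩,⟨0,[(39,0)]⟩⟩,[.e ⟨true,0,⟨0,[(44,0)]⟩,⟨0,[(35,0)]⟩⟩ ⟨true,0,⟨0,[]⟩,⟨1,[(26,0),(0,0)]⟩⟩,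
  .o ⟨false,1,⟨1,[(20,1),(10,0),(10,0)]⟩,⟨5,[(0,4),(1,0),(0,2),(0,0),(16,0),(2,1),(1,0),(6,1),(2,2),
  (3,5)]⟩⟩,.a ⟨true,0,⟨0,[(20,0)]⟩,⟨0,[(0,0)]⟩⟩ ⟨false,0,⟨0,[]⟩,⟨1,[(19,0),(0,0),(21,0)]⟩⟩ ⟨true,0,
  ⟨0,[]⟩,⟨0,[(44,0)]⟩⟩,.o ⟨false,0,⟨11,[(4,3),(5,1),(9,11),(5,0),(0,0),(7,3),(0,3)]⟩,⟨3,[(0,2),(18,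
  0),(16,0),(4,1)]⟩⟩]⟩) (.R ⟨1,false,false,false,[0,0,0,0,1],[0,1],[1,1],(⟨0,[(22,0)]⟩,⟨0,[(21,
  0)]⟩),(⟨0,[(33,0)]⟩,⟨0,[(32,0)]⟩),⟨0,[(1,0)]⟩,.k,.k,(.r (-1) ⟨7,[(13,3),(5,0),(0,0),(13,1),(6,
  2)]⟩ ⟨1,[(26,0),(0,0),(12,1)]⟩),(.r (-1) ⟨7,[(13,3),(5,0),(0,0),(13,1),(6,2)]⟩ ⟨1,[(26,0),(0,0),
  (12,1)]⟩),(.x 0 ⟨0,[(0,0),(20,0),(4,0),(0,0),(5,1)]⟩ ⟨0,[(2,0)]⟩),.k,⟨false,1,⟨21,[(3,2),(9,7),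
  (10,2),(9,11),(1,0),(4,15)]⟩,⟨0,[(35,0),(4,0)]⟩⟩,⟨true,1,⟨6,[(2,5),(1,1),(5,0),(8,0),(1,5),(11,
  11),(1,1),(0,1)]⟩,⟨0,[(0,0),(6,0),(18,0)]⟩⟩,⟨true,0,⟨0,[(44,0)]⟩,⟨0,[]⟩⟩,⟨false,1,⟨6,[(2,5),(1,1),
  (5,0),(8,0),(1,5),(11,11),(1,8),(0,1),(3,6)]⟩,⟨5,[(0,1),(2,1),(7,1),(8,3),(5,1),(14,0),(0,0)]⟩⟩,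
  ⟨false,0,⟨0,[(40,0)]⟩,⟨3,[(13,1),(5,0),(0,0),(21,0)]⟩⟩,⟨false,1,⟨6,[(2,5),(1,1),(5,0),(8,0),(1,5),
  (11,11),(1,8),(0,1),(3,13)]⟩,⟨2,[(0,1),(2,1),(7,1),(8,0),(5,1),(14,0),(0,0)]⟩⟩,[.a ⟨true,0,⟨0,
  [(40,0)]⟩,⟨1,[(3,0),(20,0),(3,0),(0,0),(12,0)]⟩⟩ ⟨true,0,⟨0,[(44,0)]⟩,⟨0,[(35,0)]⟩⟩ ⟨false,1,⟨6,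
  [(2,5),(1,1),(5,0),(8,0),(1,5),(11,11),(1,1),(0,1),(3,6)]⟩,⟨5,[(0,1),(2,1),(7,1),(8,3),(5,1),(14,
  0),(0,0)]⟩⟩,.o ⟨false,1,⟨1,[(31,0),(8,1),(1,0)]⟩,⟨0,[(39,0)]⟩⟩,.o ⟨false,0,⟨0,[(0,0)]⟩,⟨0,[(19,
  0)]⟩⟩,.o ⟨false,0,⟨1,[(0,1),(25,0),(0,0)]⟩,⟨6,[(2,5),(1,1),(5,0),(8,0),(1,5),(11,11),(1,1),(0,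
  1)]⟩⟩]⟩)) (.S ⟨1,0,[-1,1],[1,0,0,0,-1],[-1],(⟨0,[(20,0)]⟩,⟨0,[(21,0)]⟩),⟨0,[(0,0),(15,0),(0,0)]⟩,
  .k,(.r (-1) ⟨13,[(12,6),(5,0),(0,0),(13,1),(6,5),(2,2)]⟩ ⟨1,[(25,0),(0,0),(12,1)]⟩),⟨false,1,⟨1,
  [(18,0),(0,0),(21,0)]⟩,⟨0,[]⟩⟩,⟨true,0,⟨0,[(43,0)]⟩,⟨0,[]⟩⟩,⟨true,0,⟨0,[(39,0)]⟩,⟨0,[(38,0)]⟩⟩,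
  ⟨false,0,⟨0,[(39,0)]⟩,⟨3,[(12,1),(5,0),(0,0),(21,0)]⟩⟩,[.o ⟨false,0,⟨3,[(0,2),(0,2),(1,3),(5,1),
  (8,0),(13,2)]⟩,⟨1,[(19,1),(10,0),(10,0)]⟩⟩,.e ⟨false,1,⟨0,[(0,0),(0,0),(17,0),(12,0),(1,0)]⟩,⟨0,
  [(43,0)]⟩⟩ ⟨false,1,⟨9,[(18,3),(0,3),(20,4),(0,0),(1,1)]⟩,⟨0,[]⟩⟩,.a ⟨true,0,⟨0,[(0,0),(0,0),(4,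
  0),(18,0),(6,0)]⟩,⟨0,[(19,0)]⟩⟩ ⟨false,1,⟨4,[(18,1),(0,1),(21,2),(1,0)]⟩,⟨0,[]⟩⟩ ⟨true,0,⟨0,[(43,
  0)]⟩,⟨0,[]⟩⟩,.o ⟨false,0,⟨3,[(0,2),(0,2),(1,3),(5,1),(8,0),(13,2),(1,3)]⟩,⟨1,[(19,1),(10,0),(9,
  0)]⟩⟩]⟩)) (.Q [-1,0,0,0,1,0,0,0,-1,0,0,-1] (.p false [0,0,0,0,1] [] (⟨0,[(20,0)]⟩,⟨0,[(19,0)]⟩)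
  .k 0 (⟨0,[]⟩,⟨0,[]⟩) .k .k) (.I [1,1,-1,-1,0,0,0,1] (.Q [0,0,1,0,0,0,0,0,-1,1,0,-1] (.p false [0,
  0,0,0,1] [1] (⟨0,[(22,0)]⟩,⟨0,[(21,0)]⟩) .k 1 (⟨0,[]⟩,⟨0,[]⟩) .k .k) (.I [1,0,2,2,-1] (.Q [1,0,0,
  1,0,0,0,0,1,-1,0,1] (.p true [0,0,0,0,1] [1] (⟨0,[(24,0)]⟩,⟨0,[(23,0)]⟩) .k 1 (⟨0,[]⟩,⟨0,[]⟩) .k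
  .k) (.I [1,0,-2,-2,1,0,0,1] (.Q [0,0,1,-1,0,0,0,0,-1,1,0,-1] (.p false [0,0,0,0,1] [1] (⟨0,[(26,
  0)]⟩,⟨0,[(25,0)]⟩) .k 1 (⟨0,[]⟩,⟨0,[]⟩) .k .k) (.I [1,0,2,1,-1] (.I [0,-1,-1,-1,1] (.S ⟨1,0,[0,1,
  -1,-1],[1,-1],[0,0,-1,-1],(⟨0,[(39,0)]⟩,⟨0,[(40,0)]⟩),⟨0,[(24,0),(0,0)]⟩,.k,(.r (-2) ⟨3,[(20,3),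
  (5,0),(0,0),(13,1),(6,2)]⟩ ⟨0,[(1,0),(45,0)]⟩),⟨false,1,⟨1,[(26,0),(0,0),(21,0)]⟩,⟨0,[]⟩⟩,⟨true,0,
  ⟨0,[(51,0)]⟩,⟨0,[]⟩⟩,⟨true,0,⟨0,[(47,0)]⟩,⟨0,[(46,0)]⟩⟩,⟨false,0,⟨0,[(47,0)]⟩,⟨3,[(20,1),(5,0),(0,
  0),(21,0)]⟩⟩,[.o ⟨false,0,⟨0,[(46,0)]⟩,⟨3,[(4,0),(21,0),(16,0),(3,2),(1,1)]⟩⟩,.e ⟨true,1,⟨0,[(0,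
  0)]⟩,⟨0,[(1,0),(49,0)]⟩⟩ ⟨true,1,⟨7,[(20,3),(5,0),(0,0),(13,1),(6,2)]⟩,⟨0,[(1,0)]⟩⟩,.o ⟨false,0,
  ⟨1,[(33,0),(0,0)]⟩,⟨1,[(38,0),(9,0)]⟩⟩,.a ⟨true,(-1),⟨0,[(14,0),(18,0)]⟩,⟨0,[(48,0)]⟩⟩ ⟨false,2,
  ⟨3,[(20,1),(5,0),(0,0),(20,3),(0,0)]⟩,⟨0,[(1,0)]⟩⟩ ⟨true,1,⟨7,[(3,1),(13,0),(2,1),(20,4),(6,3)]⟩,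
  ⟨0,[(1,0)]⟩⟩]⟩) (.I [1,0,2,2,-1,0,0,-1] (.N [0,-2,1] (-1) ⟨0,[(4,0)]⟩ ⟨0,[(0,0)]⟩ (.x 0 ⟨4,[(2,0),
  (0,0),(6,0),(19,0),(3,4),(1,4),(4,7),(2,1)]⟩ ⟨0,[(20,0),(5,0),(11,0),(10,0)]⟩)) (.Q [-1,0,0,0,1,0,
  1,1,-1,0,1,-1] (.p true [0,0,1] [0,0,0,0,1] (⟨0,[(37,0)]⟩,⟨0,[(36,0)]⟩) .k 2 (⟨0,[(30,0)]⟩,⟨0,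
  [(29,0)]⟩) .k (.r 0 ⟨2,[(0,0),(11,1),(35,1),(1,0)]⟩ ⟨3,[(18,1),(8,2),(0,2),(20,0)]⟩)) (.Q [0,0,0,
  0,0,0,0,0,1,-1,0,1] (.p true [0,0,0,0,1] [1] (⟨0,[(31,0)]⟩,⟨0,[(30,0)]⟩) .k 1 (⟨0,[]⟩,⟨0,[]⟩) .k
  .k) (.Q [0,0,0,0,0,-1,0,0,0,0,0,1] (.ed false [1,-1,0,0,1] .k) (.R ⟨1,false,false,true,[0,0,0,0,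
  1],[1,-1],[1,1],(⟨0,[(33,0)]⟩,⟨0,[(32,0)]⟩),(⟨0,[(43,0)]⟩,⟨0,[(44,0)]⟩),⟨0,[(0,0)]⟩,.k,.k,(.r
  (-1) ⟨7,[(24,3),(5,0),(0,0),(13,1),(6,2)]⟩ ⟨9,[(9,4),(20,2),(0,2),(21,1),(1,3)]⟩),(.r 0 ⟨1,[(9,0),
  (20,0),(0,0)]⟩ ⟨13,[(24,6),(5,0),(0,0),(13,1),(6,5),(2,2)]⟩),.k,.k,⟨false,0,⟨0,[(51,0)]⟩,⟨7,[(24,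
  3),(5,0),(0,0),(13,1),(6,2)]⟩⟩,⟨true,0,⟨0,[(10,0)]⟩,⟨0,[(1,0)]⟩⟩,⟨true,0,⟨0,[(55,0)]⟩,⟨0,[]⟩⟩,
  ⟨true,0,⟨0,[(2,0),(13,0)]⟩,⟨0,[(8,0)]⟩⟩,⟨false,0,⟨0,[(51,0)]⟩,⟨3,[(24,1),(5,0),(0,0),(21,0)]⟩⟩,
  ⟨true,0,⟨0,[(2,0),(14,0)]⟩,⟨0,[(1,0)]⟩⟩,[.o ⟨false,0,⟨0,[(50,0)]⟩,⟨3,[(8,0),(21,0),(16,0),(3,2),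
  (1,1)]⟩⟩,.a ⟨true,0,⟨7,[(3,1),(10,1),(3,0),(18,2),(1,4),(0,4),(12,0)]⟩,⟨0,[(51,0)]⟩⟩ ⟨true,0,⟨0,
  []⟩,⟨1,[(37,0),(0,0)]⟩⟩ ⟨false,1,⟨0,[(6,0),(45,0)]⟩,⟨1,[(1,0),(6,0),(42,0)]⟩⟩,.o ⟨false,0,⟨0,[(1,
  0)]⟩,⟨0,[(30,0)]⟩⟩,.e ⟨false,1,⟨1,[(30,0),(0,0),(20,0)]⟩,⟨0,[(46,0)]⟩⟩ ⟨false,1,⟨0,[(6,0),(45,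
  0)]⟩,⟨1,[(1,0),(3,0),(2,0),(44,0)]⟩⟩]⟩) (.R ⟨1,false,false,false,[1,0,0,0,-1],[0,1],[-1],(⟨0,[(32,
  0)]⟩,⟨0,[(33,0)]⟩),(⟨0,[(44,0)]⟩,⟨0,[(43,0)]⟩),⟨0,[(0,0),(27,0),(0,0)]⟩,.k,.k,(.r (-1) ⟨13,[(24,
  6),(5,0),(0,0),(13,1),(6,5),(2,2)]⟩ ⟨1,[(9,0),(20,0),(0,0)]⟩),(.r (-1) ⟨13,[(24,6),(5,0),(0,0),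
  (13,1),(6,5),(2,2)]⟩ ⟨1,[(9,0),(20,0),(0,0)]⟩),(.r (-2) ⟨3,[(24,3),(5,0),(0,0),(13,1),(6,2)]⟩ ⟨0,
  [(9,0)]⟩),.k,⟨true,1,⟨13,[(24,6),(5,0),(0,0),(13,1),(6,5),(2,2)]⟩,⟨0,[(5,0)]⟩⟩,⟨false,1,⟨0,[(1,0),
  (50,0)]⟩,⟨0,[(10,0)]⟩⟩,⟨false,1,⟨1,[(30,0),(0,0),(21,0)]⟩,⟨0,[]⟩⟩,⟨true,0,⟨0,[(8,0)]⟩,⟨0,[(2,0),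
  (13,0)]⟩⟩,⟨true,0,⟨0,[(51,0)]⟩,⟨0,[(50,0)]⟩⟩,⟨true,0,⟨0,[(8,0),(42,0)]⟩,⟨0,[(2,0),(11,0)]⟩⟩,[.a
  ⟨true,0,⟨0,[(51,0)]⟩,⟨7,[(3,1),(10,1),(3,0),(18,2),(1,4),(0,4),(12,0)]⟩⟩ ⟨false,1,⟨9,[(30,3),(0,
  3),(20,4),(0,0),(1,1)]⟩,⟨0,[]⟩⟩ ⟨true,0,⟨1,[(1,0),(6,0),(42,0)]⟩,⟨0,[(6,0)]⟩⟩,.o ⟨false,1,⟨3,[(8,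
  0),(21,0),(16,0),(3,2),(1,1)]⟩,⟨0,[(50,0)]⟩⟩,.o ⟨false,1,⟨0,[(30,0)]⟩,⟨0,[(1,0)]⟩⟩,.e ⟨false,1,⟨0,
  [(46,0),(5,0)]⟩,⟨1,[(37,0),(0,0)]⟩⟩ ⟨false,1,⟨1,[(8,1),(43,0),(0,0)]⟩,⟨0,[(6,0)]⟩⟩]⟩)) (.Q [-1,0,
  0,0,0,0,0,0,-1,1,0,-1] (.p false [0,0,0,0,1] [1] (⟨0,[(32,0)]⟩,⟨0,[(31,0)]⟩) .k 1 (⟨0,[]⟩,⟨0,[]⟩)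
  .k .k) (.R ⟨2,true,false,false,[0,1],[1,0,0,0,-1],[0,1,1,1],(⟨0,[]⟩,⟨0,[]⟩),(⟨0,[(32,0)]⟩,⟨0,[(33,
  0)]⟩),⟨0,[]⟩,.k,.k,.k,(.r 0 ⟨1,[(9,0),(20,0),(0,0)]⟩ ⟨13,[(24,6),(5,0),(0,0),(13,1),(6,5),(2,
  2)]⟩),.k,.k,⟨true,(-1),⟨0,[(4,0)]⟩,⟨3,[(24,1),(5,0),(0,0),(21,0)]⟩⟩,⟨false,0,⟨0,[(1,0)]⟩,⟨1,[(31,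
  1),(10,0),(9,0)]⟩⟩,⟨true,0,⟨0,[(55,0)]⟩,⟨0,[]⟩⟩,⟨false,1,⟨3,[(0,1),(9,1),(13,1),(27,0),(0,0)]⟩,⟨0,
  [(8,0)]⟩⟩,⟨false,0,⟨0,[(51,0)]⟩,⟨3,[(24,1),(5,0),(0,0),(21,0)]⟩⟩,⟨true,0,⟨0,[(0,0)]⟩,⟨0,[(8,0),
  (41,0)]⟩⟩,[]⟩) (.R ⟨1,false,false,true,[0,0,1],[0,0,0,0,1],[1,1,0,-1,0,0,0,1],(⟨0,[(40,0)]⟩,⟨0,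
  [(39,0)]⟩),(⟨0,[(33,0)]⟩,⟨0,[(32,0)]⟩),⟨0,[(29,0)]⟩,.k,.k,.k,.k,(.r (-1) ⟨3,[(3,1),(22,1),(3,0),
  (0,0),(21,0)]⟩ ⟨3,[(9,0),(11,1),(8,0),(0,0),(19,1)]⟩),.k,⟨true,0,⟨0,[(3,0),(0,0),(41,0)]⟩,⟨3,[(9,
  0),(11,1),(8,0),(0,0),(19,1)]⟩⟩,⟨false,0,⟨8,[(0,8),(2,1),(12,1),(1,0),(15,5),(16,5),(1,0)]⟩,⟨4,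
  [(1,2),(0,1),(18,0),(15,2),(9,0),(4,1)]⟩⟩,⟨true,0,⟨0,[(50,0)]⟩,⟨0,[(51,0)]⟩⟩,⟨true,(-1),⟨0,[(8,0),
  (7,0)]⟩,⟨0,[(2,0)]⟩⟩,⟨false,0,⟨0,[]⟩,⟨1,[(30,0),(0,0),(21,0)]⟩⟩,⟨true,(-1),⟨0,[(8,0),(8,0)]⟩,⟨12,
  [(1,3),(0,7),(0,4),(2,0),(7,0),(0,0),(21,5),(8,1),(0,1)]⟩⟩,[.o ⟨false,0,⟨0,[(0,0),(54,0)]⟩,⟨2,[(1,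
  2),(45,0),(5,1),(1,0)]⟩⟩,.o ⟨false,0,⟨0,[(0,0)]⟩,⟨0,[(12,0)]⟩⟩,.o ⟨false,1,⟨1,[(37,1),(4,0),(9,
  0)]⟩,⟨0,[(23,0)]⟩⟩,.a ⟨true,0,⟨0,[(37,0)]⟩,⟨0,[(34,0)]⟩⟩ ⟨true,0,⟨0,[(11,0)]⟩,⟨3,[(9,0),(11,1),(8,
  0),(0,0),(19,1)]⟩⟩ ⟨false,0,⟨0,[(0,0),(33,0)]⟩,⟨9,[(1,5),(0,3),(18,1),(15,5),(8,3),(0,1),(4,0),(0,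
  2)]⟩⟩]⟩))) (.Q [0,0,0,0,0,-1,0,0,0,0,0,1] (.ed false [1,-1,0,0,1] .k) (.S ⟨1,0,[1],[0,0,0,0,1],[1,
  1],(⟨0,[(32,0)]⟩,⟨0,[(31,0)]⟩),⟨0,[(0,0)]⟩,.k,(.r (-1) ⟨7,[(23,3),(5,0),(0,0),(13,1),(6,2)]⟩ ⟨9,
  [(8,4),(20,2),(0,2),(21,1),(1,3)]⟩),⟨true,0,⟨0,[(54,0)]⟩,⟨0,[]⟩⟩,⟨false,1,⟨1,[(29,0),(0,0),(21,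
  0)]⟩,⟨0,[]⟩⟩,⟨false,0,⟨0,[(50,0)]⟩,⟨3,[(23,1),(5,0),(0,0),(21,0)]⟩⟩,⟨true,0,⟨0,[(50,0)]⟩,⟨0,[(49,
  0)]⟩⟩,[.o ⟨false,0,⟨5,[(1,1),(0,0),(4,2),(13,0),(8,0),(5,1),(9,0)]⟩,⟨0,[(11,0)]⟩⟩,.a ⟨true,0,⟨0,
  [(1,0),(32,0),(17,0)]⟩,⟨0,[(3,0),(1,0),(45,0)]⟩⟩ ⟨true,0,⟨0,[]⟩,⟨1,[(36,0),(0,0)]⟩⟩ ⟨false,1,⟨1,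
  [(51,0),(0,0)]⟩,⟨0,[(54,0)]⟩⟩,.o ⟨false,0,⟨5,[(1,2),(0,1),(4,2),(26,0),(1,1),(8,1),(0,0),(3,0),(3,
  0)]⟩,⟨0,[(29,0)]⟩⟩,.e ⟨false,1,⟨1,[(29,0),(0,0),(20,0)]⟩,⟨0,[(45,0)]⟩⟩ ⟨false,1,⟨1,[(51,0),(0,
  0)]⟩,⟨1,[(36,0),(0,0)]⟩⟩]⟩) (.S ⟨1,0,[-1,1],[1,0,0,0,-1],[-1],(⟨0,[(31,0)]⟩,⟨0,[(32,0)]⟩),⟨0,[(0,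
  0),(26,0),(0,0)]⟩,.k,(.r (-1) ⟨13,[(23,6),(5,0),(0,0),(13,1),(6,5),(2,2)]⟩ ⟨1,[(8,0),(20,0),(0,
  0)]⟩),⟨false,1,⟨1,[(29,0),(0,0),(21,0)]⟩,⟨0,[]⟩⟩,⟨true,0,⟨0,[(54,0)]⟩,⟨0,[]⟩⟩,⟨true,0,⟨0,[(50,
  0)]⟩,⟨0,[(49,0)]⟩⟩,⟨false,0,⟨0,[(50,0)]⟩,⟨3,[(23,1),(5,0),(0,0),(21,0)]⟩⟩,[.a ⟨true,0,⟨0,[(3,0),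
  (1,0),(45,0)]⟩,⟨0,[(1,0),(32,0),(17,0)]⟩⟩ ⟨false,1,⟨9,[(29,3),(0,3),(20,4),(0,0),(1,1)]⟩,⟨0,[]⟩⟩
  ⟨true,0,⟨0,[(54,0)]⟩,⟨0,[(45,0)]⟩⟩,.o ⟨false,1,⟨0,[(11,0)]⟩,⟨5,[(1,1),(0,0),(4,2),(13,0),(8,0),(5,
  1),(9,0)]⟩⟩,.o ⟨false,1,⟨0,[(29,0)]⟩,⟨5,[(1,2),(0,1),(4,2),(26,0),(1,1),(8,1),(0,0),(3,0),(3,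
  0)]⟩⟩,.e ⟨false,1,⟨0,[(45,0),(5,0)]⟩,⟨1,[(36,0),(0,0)]⟩⟩ ⟨false,1,⟨9,[(29,3),(0,3),(20,4),(0,0),
  (1,1)]⟩,⟨0,[(45,0)]⟩⟩]⟩))))) (.Q [0,0,0,0,0,0,0,0,1,-1,0,1] (.p true [0,0,0,0,1] [1] (⟨0,[(28,
  0)]⟩,⟨0,[(27,0)]⟩) .k 1 (⟨0,[]⟩,⟨0,[]⟩) .k .k) (.Q [-1,-1,0,0,1,0,0,0,-1,0,0,-1] (.p false [0,0,0,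
  0,1] [] (⟨0,[(29,0)]⟩,⟨0,[(28,0)]⟩) .k 0 (⟨0,[]⟩,⟨0,[]⟩) .k .k) (.R ⟨1,false,false,false,[0,0,1],
  [1,0,0,0,-1],[1,1,0,-1,0,0,0,1],(⟨0,[(37,0)]⟩,⟨0,[(36,0)]⟩),(⟨0,[(29,0)]⟩,⟨0,[(30,0)]⟩),⟨0,[(26,
  0)]⟩,.k,.k,.k,.k,(.r (-1) ⟨3,[(4,1),(18,1),(3,0),(0,0),(21,0)]⟩ ⟨19,[(6,4),(11,9),(8,2),(0,2),(19,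
  9),(1,1),(1,3)]⟩),.k,⟨false,0,⟨0,[(8,0)]⟩,⟨3,[(18,1),(8,0),(0,0),(19,3),(0,0),(0,1)]⟩⟩,⟨true,0,⟨1,
  [(0,1),(11,0),(1,0),(16,0)]⟩,⟨0,[(1,0),(32,0)]⟩⟩,⟨true,0,⟨0,[(47,0)]⟩,⟨0,[(48,0)]⟩⟩,⟨true,0,⟨0,
  [(0,0),(13,0)]⟩,⟨0,[(1,0),(30,0)]⟩⟩,⟨false,0,⟨0,[]⟩,⟨1,[(27,0),(0,0),(21,0)]⟩⟩,⟨true,0,⟨0,[(0,0),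
  (13,0),(33,0)]⟩,⟨0,[(1,0),(6,0),(25,0)]⟩⟩,[.o ⟨false,1,⟨0,[(9,0)]⟩,⟨0,[(1,0)]⟩⟩,.o ⟨false,1,⟨0,
  [(0,0)]⟩,⟨0,[(5,0),(41,0)]⟩⟩,.o ⟨false,1,⟨1,[(34,1),(4,0),(9,0)]⟩,⟨0,[(20,0)]⟩⟩,.a ⟨true,0,⟨0,
  [(34,0)]⟩,⟨0,[(31,0)]⟩⟩ ⟨true,0,⟨0,[(8,0)]⟩,⟨3,[(6,0),(11,1),(8,0),(0,0),(19,1)]⟩⟩ ⟨false,1,⟨0,
  [(0,0),(30,0)]⟩,⟨0,[(1,0),(32,0)]⟩⟩]⟩) (.Q [-1,1,0,0,0,0,0,0,-1,1,0,-1] (.p false [0,0,0,0,1] [1]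
  (⟨0,[(30,0)]⟩,⟨0,[(29,0)]⟩) .k 1 (⟨0,[]⟩,⟨0,[]⟩) .k .k) (.Q [0,0,0,0,0,-1,0,0,0,1,0,-1] (.ed true
  [0,1,0,0,1] .k) (.S ⟨1,0,[-1,1],[1,0,0,0,-1],[0,0,0,-1],(⟨0,[(31,0)]⟩,⟨0,[(32,0)]⟩),⟨0,[(0,0)]⟩,
  .k,(.r (-1) ⟨3,[(4,1),(18,0),(5,0),(0,0),(23,0)]⟩ ⟨1,[(8,0),(20,0),(0,0)]⟩),⟨false,1,⟨3,[(23,1),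
  (5,0),(0,0),(21,0)]⟩,⟨0,[(50,0)]⟩⟩,⟨true,0,⟨0,[(54,0)]⟩,⟨0,[]⟩⟩,⟨true,0,⟨0,[]⟩,⟨0,[(54,0)]⟩⟩,
  ⟨false,0,⟨0,[(50,0)]⟩,⟨3,[(23,1),(5,0),(0,0),(21,0)]⟩⟩,[.a ⟨true,0,⟨0,[(1,0)]⟩,⟨0,[(2,0),(49,
  0)]⟩⟩ ⟨false,1,⟨6,[(4,2),(18,1),(5,1),(0,1),(13,0)]⟩,⟨0,[(50,0)]⟩⟩ ⟨true,0,⟨0,[(54,0)]⟩,⟨0,[(45,
  0)]⟩⟩,.o ⟨false,1,⟨0,[(11,0)]⟩,⟨0,[(3,0)]⟩⟩,.o ⟨false,1,⟨0,[(29,0)]⟩,⟨0,[(3,0)]⟩⟩,.e ⟨false,1,⟨0,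
  [(4,0),(40,0)]⟩,⟨1,[(8,0),(20,0),(0,0)]⟩⟩ ⟨false,1,⟨9,[(29,3),(0,3),(20,4),(0,0),(1,1)]⟩,⟨0,[(45,
  0)]⟩⟩]⟩) (.S ⟨1,0,[1],[0,0,0,0,1],[1,1],(⟨0,[(32,0)]⟩,⟨0,[(31,0)]⟩),⟨0,[(0,0),(26,0),(0,0)]⟩,.k,
  (.r (-1) ⟨6,[(4,2),(18,1),(5,1),(0,1),(13,0)]⟩ ⟨9,[(8,4),(20,2),(0,2),(21,1),(1,3)]⟩),⟨true,0,⟨0,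
  [(54,0)]⟩,⟨0,[]⟩⟩,⟨false,1,⟨1,[(29,0),(0,0),(21,0)]⟩,⟨0,[]⟩⟩,⟨false,0,⟨0,[(50,0)]⟩,⟨3,[(23,1),(5,
  0),(0,0),(21,0)]⟩⟩,⟨true,0,⟨0,[(50,0)]⟩,⟨0,[(49,0)]⟩⟩,[.o ⟨false,0,⟨0,[(3,0)]⟩,⟨0,[(11,0)]⟩⟩,.a
  ⟨true,0,⟨0,[(2,0),(49,0)]⟩,⟨0,[(1,0)]⟩⟩ ⟨true,0,⟨0,[]⟩,⟨1,[(36,0),(0,0)]⟩⟩ ⟨false,1,⟨1,[(51,0),(0,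
  0)]⟩,⟨0,[(54,0)]⟩⟩,.o ⟨false,0,⟨0,[(3,0)]⟩,⟨0,[(29,0)]⟩⟩,.e ⟨false,1,⟨1,[(29,0),(0,0),(20,0)]⟩,⟨0,
  [(45,0)]⟩⟩ ⟨false,1,⟨1,[(51,0),(0,0)]⟩,⟨1,[(36,0),(0,0)]⟩⟩]⟩)) (.R ⟨1,false,false,false,[0,0,1],
  [0,0,0,0,1],[1,1,0,-1,0,0,0,1],(⟨0,[(38,0)]⟩,⟨0,[(37,0)]⟩),(⟨0,[(31,0)]⟩,⟨0,[(30,0)]⟩),⟨0,[(27,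
  0)]⟩,.k,.k,.k,.k,(.r (-1) ⟨17,[(3,1),(1,6),(16,0),(1,10),(3,2),(0,2),(21,4)]⟩ ⟨3,[(7,0),(11,1),(8,
  0),(0,0),(19,1)]⟩),.k,⟨false,0,⟨0,[(3,0),(9,0)]⟩,⟨3,[(19,1),(8,0),(0,0),(19,3),(0,0),(0,1)]⟩⟩,
  ⟨true,(-1),⟨1,[(0,1),(2,0),(9,0),(1,0),(0,0),(32,0)]⟩,⟨0,[(28,0),(6,0)]⟩⟩,⟨true,0,⟨0,[(48,0)]⟩,⟨0,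
  [(49,0)]⟩⟩,⟨true,(-1),⟨0,[(0,0),(14,0)]⟩,⟨0,[(10,0),(22,0)]⟩⟩,⟨false,0,⟨0,[]⟩,⟨1,[(28,0),(0,0),
  (21,0)]⟩⟩,⟨true,(-1),⟨0,[(0,0),(14,0),(33,0)]⟩,⟨4,[(3,1),(0,2),(5,1),(22,4),(11,0),(6,0)]⟩⟩,[.o
  ⟨false,0,⟨0,[(2,0)]⟩,⟨0,[(10,0)]⟩⟩,.o ⟨false,0,⟨0,[(0,0)]⟩,⟨0,[(28,0),(24,0)]⟩⟩,.o ⟨false,1,⟨1,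
  [(35,1),(4,0),(9,0)]⟩,⟨0,[(21,0)]⟩⟩,.a ⟨true,0,⟨0,[(35,0)]⟩,⟨0,[(32,0)]⟩⟩ ⟨true,0,⟨0,[(9,0)]⟩,⟨3,
  [(7,0),(11,1),(8,0),(0,0),(19,1)]⟩⟩ ⟨false,0,⟨0,[(0,0),(31,0)]⟩,⟨0,[(10,0),(24,0)]⟩⟩]⟩))) (.Q [-1,
  0,0,0,0,0,0,0,-1,1,0,-1] (.p false [0,0,0,0,1] [1] (⟨0,[(29,0)]⟩,⟨0,[(28,0)]⟩) .k 1 (⟨0,[]⟩,⟨0,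
  []⟩) .k .k) (.R ⟨2,true,false,true,[0,1],[1,0,0,0,-1],[1,0,1],(⟨0,[]⟩,⟨0,[]⟩),(⟨0,[(29,0)]⟩,⟨0,
  [(30,0)]⟩),⟨0,[]⟩,.k,.k,.k,(.r 0 ⟨1,[(6,0),(20,0),(0,0)]⟩ ⟨3,[(2,1),(18,0),(5,0),(0,0),(23,0)]⟩),
  .k,.k,⟨true,0,⟨0,[(43,0)]⟩,⟨0,[(52,0)]⟩⟩,⟨false,0,⟨0,[(1,0)]⟩,⟨1,[(28,1),(10,0),(9,0)]⟩⟩,⟨false,1,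
  ⟨3,[(21,1),(5,0),(0,0),(21,0)]⟩,⟨0,[(48,0)]⟩⟩,⟨true,0,⟨20,[(0,10),(1,1),(0,9),(7,2),(20,2),(9,5),
  (1,0),(2,2)]⟩,⟨0,[(5,0)]⟩⟩,⟨true,0,⟨0,[]⟩,⟨0,[(52,0)]⟩⟩,⟨false,0,⟨0,[(0,0)]⟩,⟨1,[(28,1),(10,0),
  (10,0)]⟩⟩,[]⟩) (.R ⟨1,false,false,true,[0,0,1],[0,0,0,0,1],[1,1,0,-1,0,0,0,1],(⟨0,[(37,0)]⟩,⟨0,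
  [(36,0)]⟩),(⟨0,[(30,0)]⟩,⟨0,[(29,0)]⟩),⟨0,[(26,0)]⟩,.k,.k,.k,.k,(.r (-1) ⟨17,[(2,1),(1,6),(16,0),
  (1,10),(3,2),(0,2),(21,4)]⟩ ⟨3,[(6,0),(11,1),(8,0),(0,0),(19,1)]⟩),.k,⟨true,0,⟨0,[(2,0),(9,0),(30,
  0)]⟩,⟨3,[(6,0),(11,1),(8,0),(0,0),(19,1)]⟩⟩,⟨false,0,⟨0,[(2,0),(2,0),(9,0)]⟩,⟨3,[(1,2),(25,0),(6,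
  3),(9,0),(4,1)]⟩⟩,⟨true,0,⟨0,[(47,0)]⟩,⟨0,[(48,0)]⟩⟩,⟨true,(-1),⟨0,[(5,0),(7,0)]⟩,⟨11,[(1,8),(0,
  1),(6,2),(22,11),(10,3),(0,2),(3,1),(1,3)]⟩⟩,⟨false,0,⟨0,[]⟩,⟨1,[(27,0),(0,0),(21,0)]⟩⟩,⟨true,
  (-1),⟨0,[(5,0),(8,0)]⟩,⟨11,[(1,7),(0,5),(0,3),(0,0),(27,10),(1,0),(8,8),(0,3),(5,0)]⟩⟩,[.o ⟨false,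
  0,⟨0,[(0,0),(51,0)]⟩,⟨11,[(1,8),(0,1),(6,2),(33,3),(0,2),(3,1),(1,3)]⟩⟩,.o ⟨false,0,⟨0,[(0,0)]⟩,
  ⟨0,[(9,0)]⟩⟩,.o ⟨false,1,⟨1,[(34,1),(4,0),(9,0)]⟩,⟨0,[(20,0)]⟩⟩,.a ⟨true,0,⟨0,[(34,0)]⟩,⟨0,[(31,
  0)]⟩⟩ ⟨true,0,⟨0,[(8,0)]⟩,⟨3,[(6,0),(11,1),(8,0),(0,0),(19,1)]⟩⟩ ⟨false,0,⟨0,[(0,0),(30,0)]⟩,⟨11,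
  [(1,8),(0,1),(6,2),(24,11),(8,3),(0,2),(3,1),(1,3)]⟩⟩]⟩)))) (.Q [0,0,0,0,0,-1,0,0,0,1,0,-1] (.ed
  true [0,1,0,0,1] .k) (.R ⟨1,false,false,true,[1,0,0,0,-1],[1,0,-1],[-1],(⟨0,[(27,0)]⟩,⟨0,[(28,
  0)]⟩),(⟨0,[(34,0)]⟩,⟨0,[(35,0)]⟩),⟨0,[(0,0)]⟩,.k,.k,(.r (-1) ⟨13,[(19,6),(5,0),(0,0),(13,1),(6,5),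
  (2,2)]⟩ ⟨1,[(4,0),(20,0),(0,0)]⟩),.k,(.r (-1) ⟨7,[(2,2),(16,0),(1,4),(3,0),(0,0),(20,0),(0,1)]⟩
  ⟨3,[(4,0),(11,1),(8,0),(0,0),(19,1)]⟩),.k,⟨false,1,⟨0,[(10,0),(36,0),(0,0)]⟩,⟨1,[(16,0),(23,0)]⟩⟩,
  ⟨true,(-1),⟨2,[(1,2),(7,0),(3,1),(3,0),(23,0)]⟩,⟨0,[(25,0),(6,0)]⟩⟩,⟨false,1,⟨1,[(25,0),(0,0),(21,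
  0)]⟩,⟨0,[]⟩⟩,⟨false,(-1),⟨0,[(1,0),(9,0),(29,0)]⟩,⟨0,[(25,0),(4,0),(17,0)]⟩⟩,⟨true,0,⟨0,[(46,0)]⟩,
  ⟨0,[(45,0)]⟩⟩,⟨false,(-1),⟨1,[(1,1),(2,0),(6,1),(36,0)]⟩,⟨7,[(2,2),(2,2),(1,2),(11,0),(5,1),(4,4),
  (1,2),(9,0),(5,5)]⟩⟩,[.e ⟨false,1,⟨9,[(25,3),(0,3),(20,4),(0,0),(1,1)]⟩,⟨0,[]⟩⟩ ⟨false,(-1),⟨0,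
  [(1,0),(9,0)]⟩,⟨0,[(25,0),(4,0),(17,0)]⟩⟩,.o ⟨false,0,⟨0,[(20,0)]⟩,⟨1,[(30,1),(6,0),(10,0)]⟩⟩,.o
  ⟨false,1,⟨0,[(25,0)]⟩,⟨18,[(1,9),(7,2),(0,2),(8,1),(6,8),(5,2),(8,3),(0,3)]⟩⟩,.a ⟨true,0,⟨0,[(5,
  0)]⟩,⟨7,[(1,7),(0,1),(6,1),(3,0),(18,2),(1,4),(0,4),(12,0)]⟩⟩ ⟨false,1,⟨0,[(41,0),(5,0)]⟩,⟨1,[(32,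
  0),(0,0)]⟩⟩ ⟨true,(-1),⟨0,[(1,0),(9,0)]⟩,⟨7,[(5,5),(19,1),(4,7),(1,0),(0,0),(8,1),(5,3)]⟩⟩]⟩) (.R
  ⟨0,false,false,false,[1,0,0,0,-1],[1,0,-1],[1,1],(⟨0,[(27,0)]⟩,⟨0,[(28,0)]⟩),(⟨0,[(34,0)]⟩,⟨0,
  [(35,0)]⟩),⟨0,[(0,0)]⟩,.k,.k,(.r (-1) ⟨13,[(19,6),(5,0),(0,0),(13,1),(6,5),(2,2)]⟩ ⟨1,[(4,0),(20,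
  0),(0,0)]⟩),.k,.k,.k,⟨false,0,⟨0,[(6,0),(39,0)]⟩,⟨3,[(16,1),(8,0),(0,0),(20,0),(0,1)]⟩⟩,⟨true,
  (-1),⟨2,[(1,2),(7,0),(3,1),(3,0),(23,0)]⟩,⟨0,[(25,0),(6,0)]⟩⟩,⟨false,0,⟨0,[]⟩,⟨4,[(25,1),(0,1),
  (21,2),(1,0)]⟩⟩,⟨true,(-1),⟨0,[(1,0),(9,0),(29,0)]⟩,⟨0,[(7,0),(22,0)]⟩⟩,⟨false,0,⟨0,[]⟩,⟨0,[]⟩⟩,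
  ⟨false,0,⟨0,[]⟩,⟨0,[]⟩⟩,[.o ⟨false,0,⟨0,[(20,0)]⟩,⟨1,[(30,1),(6,0),(10,0)]⟩⟩,.a ⟨true,0,⟨0,[(12,
  0),(35,0)]⟩,⟨0,[(30,0)]⟩⟩ ⟨true,0,⟨0,[]⟩,⟨1,[(32,0),(0,0)]⟩⟩ ⟨false,0,⟨0,[(1,0),(9,0),(36,0)]⟩,⟨0,
  [(25,0),(4,0)]⟩⟩,.o ⟨false,1,⟨0,[(25,0)]⟩,⟨18,[(1,9),(7,2),(0,2),(8,1),(6,8),(5,2),(8,3),(0,3)]⟩⟩,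
  .e ⟨false,1,⟨1,[(25,0),(0,0),(20,0)]⟩,⟨0,[(41,0)]⟩⟩ ⟨false,0,⟨0,[(1,0),(9,0),(36,0)]⟩,⟨7,[(5,5),
  (19,1),(4,7),(1,0),(0,0),(8,1),(5,3)]⟩⟩]⟩))) (.Q [0,-1,0,2,0,0,-1,-1,0,0,-1] (.p false [0,0,1] []
  (⟨0,[(33,0)]⟩,⟨0,[(32,0)]⟩) .k 0 (⟨0,[]⟩,⟨0,[]⟩) .k .k) (.R ⟨1,true,false,false,[0,0,1],[0,1],[1,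
  0,0,-1,0,0,0,1],(⟨0,[(34,0)]⟩,⟨0,[(33,0)]⟩),(⟨0,[(38,0)]⟩,⟨0,[(37,0)]⟩),⟨0,[(23,0)]⟩,.k,.k,.k,.k,
  (.r (-2) ⟨0,[(18,0),(1,0),(25,0)]⟩ ⟨0,[(1,0)]⟩),.k,⟨true,1,⟨5,[(5,3),(12,3),(1,1),(25,0),(0,0)]⟩,
  ⟨0,[(1,0)]⟩⟩,⟨false,1,⟨3,[(21,0),(6,1),(12,0),(4,2)]⟩,⟨0,[(31,0)]⟩⟩,⟨false,1,⟨3,[(18,1),(5,0),(0,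
  0),(21,0)]⟩,⟨0,[(45,0)]⟩⟩,⟨true,0,⟨1,[(0,0),(29,0)]⟩,⟨0,[(5,0),(25,0)]⟩⟩,⟨true,0,⟨0,[]⟩,⟨0,[(49,
  0)]⟩⟩,⟨false,0,⟨0,[(0,0)]⟩,⟨0,[(18,0),(10,0)]⟩⟩,[]⟩) (.Q [0,0,0,0,0,-2,0,0,0,0,1] (.p true [0,0,
  1] [] (⟨0,[(34,0)]⟩,⟨0,[(33,0)]⟩) .k 0 (⟨0,[]⟩,⟨0,[]⟩) .k .k) (.S ⟨1,0,[0,0,-1,-1,0,0,0,1],[0,-1,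
  1],[],(⟨0,[(24,0)]⟩,⟨0,[(34,0),(4,0)]⟩),⟨0,[(0,0)]⟩,.k,(.r (-2) ⟨0,[(19,0),(1,0),(25,0)]⟩ ⟨0,[(2,
  0)]⟩),⟨true,0,⟨7,[(2,3),(13,1),(8,2),(0,2),(20,0)]⟩,⟨0,[(6,0)]⟩⟩,⟨false,1,⟨1,[(25,0),(0,0),(21,
  0)]⟩,⟨0,[]⟩⟩,⟨false,0,⟨1,[(2,1),(44,0),(0,0)]⟩,⟨5,[(6,3),(12,3),(1,1),(25,0),(0,0)]⟩⟩,⟨true,0,⟨0,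
  [(46,0)]⟩,⟨0,[(45,0)]⟩⟩,[.o ⟨false,1,⟨5,[(1,0),(17,1),(10,4),(11,1),(5,1)]⟩,⟨0,[(20,0),(25,0)]⟩⟩,
  .a ⟨true,1,⟨1,[(1,0),(28,0),(17,1)]⟩,⟨0,[(12,0),(33,0)]⟩⟩ ⟨false,1,⟨1,[(47,0),(0,0)]⟩,⟨0,[(50,
  0)]⟩⟩ ⟨true,1,⟨0,[(6,0),(41,0)]⟩,⟨2,[(2,0),(7,0),(4,0),(0,1),(13,0)]⟩⟩,.e ⟨false,1,⟨1,[(25,0),(0,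
  0),(21,0)]⟩,⟨0,[]⟩⟩ ⟨false,1,⟨0,[(6,0),(41,0)]⟩,⟨7,[(2,3),(13,1),(8,2),(0,2),(20,0)]⟩⟩,.o ⟨false,
  0,⟨11,[(10,3),(5,1),(15,12),(0,0),(7,3),(0,3)]⟩,⟨3,[(22,0),(6,1),(12,0),(4,2)]⟩⟩]⟩) (.Q [0,0,-1,0,
  1,0,0,0,-1,0,0,-1] (.p false [0,0,0,0,1] [] (⟨0,[(28,0)]⟩,⟨0,[(27,0)]⟩) .k 0 (⟨0,[]⟩,⟨0,[]⟩) .k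
  .k) (.Q [-1,0,0,0,0,0,0,0,-1,1,0,-1] (.p false [0,0,0,0,1] [1] (⟨0,[(29,0)]⟩,⟨0,[(28,0)]⟩) .k 1
  (⟨0,[]⟩,⟨0,[]⟩) .k .k) (.R ⟨2,true,false,true,[0,1],[1,0,0,0,-1],[1,0,1],(⟨0,[]⟩,⟨0,[]⟩),(⟨0,[(29,
  0)]⟩,⟨0,[(30,0)]⟩),⟨0,[]⟩,.k,.k,.k,(.r 0 ⟨1,[(6,0),(20,0),(0,0)]⟩ ⟨13,[(21,6),(5,0),(0,0),(13,1),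
  (6,5),(2,2)]⟩),.k,.k,⟨true,0,⟨0,[(43,0)]⟩,⟨0,[(52,0)]⟩⟩,⟨false,0,⟨0,[(0,0)]⟩,⟨1,[(28,1),(10,0),(9,
  0)]⟩⟩,⟨false,1,⟨3,[(21,1),(5,0),(0,0),(21,0)]⟩,⟨0,[(48,0)]⟩⟩,⟨true,0,⟨4,[(0,2),(2,0),(3,0),(3,0),
  (15,0),(14,0),(4,0)]⟩,⟨0,[(5,0)]⟩⟩,⟨true,0,⟨0,[]⟩,⟨0,[(52,0)]⟩⟩,⟨false,0,⟨0,[(0,0)]⟩,⟨1,[(28,1),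
  (10,0),(10,0)]⟩⟩,[]⟩) (.R ⟨0,false,false,true,[0,-1,1],[0,0,0,0,1],[1,1,-1,-1,0,0,0,1],(⟨0,[(26,
  0)]⟩,⟨0,[(2,0),(37,0)]⟩),(⟨0,[(30,0)]⟩,⟨0,[(29,0)]⟩),⟨0,[(2,0)]⟩,.k,.k,(.r (-2) ⟨0,[(21,0),(1,0),
  (25,0)]⟩ ⟨0,[(4,0)]⟩),(.r (-1) ⟨2,[(8,0),(12,0),(1,1),(25,0),(0,0)]⟩ ⟨7,[(4,3),(13,1),(8,2),(0,2),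
  (20,0)]⟩),.k,.k,⟨false,1,⟨1,[(8,1),(40,0),(0,0)]⟩,⟨7,[(4,3),(13,1),(8,2),(0,2),(20,0)]⟩⟩,⟨true,0,
  ⟨0,[(0,0),(14,0),(33,0)]⟩,⟨0,[(1,0),(1,0),(0,0),(38,0)]⟩⟩,⟨false,0,⟨0,[]⟩,⟨1,[(27,0),(0,0),(21,
  0)]⟩⟩,⟨true,(-1),⟨0,[(5,0),(8,0)]⟩,⟨1,[(1,1),(1,0),(28,0),(10,1)]⟩⟩,⟨false,0,⟨0,[]⟩,⟨0,[]⟩⟩,
  ⟨false,0,⟨0,[]⟩,⟨0,[]⟩⟩,[.o ⟨false,0,⟨0,[(0,0),(51,0)]⟩,⟨0,[(1,0),(41,0)]⟩⟩,.o ⟨false,0,⟨0,[(0,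
  0)]⟩,⟨0,[(9,0)]⟩⟩,.a ⟨true,0,⟨0,[(34,0)]⟩,⟨0,[(31,0)]⟩⟩ ⟨true,0,⟨0,[(8,0)]⟩,⟨7,[(4,3),(13,1),(8,
  2),(0,2),(20,0)]⟩⟩ ⟨false,0,⟨0,[(0,0),(30,0)]⟩,⟨0,[(1,0),(32,0),(8,0)]⟩⟩,.o ⟨false,0,⟨11,[(12,3),
  (5,1),(15,12),(0,0),(7,3),(0,3)]⟩,⟨3,[(24,0),(6,1),(12,0),(4,2)]⟩⟩]⟩)) (.Q [0,0,-2,0,1,0,-1,0,-1,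
  1,-1,-1] (.p false [0,0,1] [1,0,0,0,-1] (⟨0,[(36,0)]⟩,⟨0,[(35,0)]⟩) .k 2 (⟨0,[(28,0)]⟩,⟨0,[(29,
  0)]⟩) .k (.r 0 ⟨1,[(11,1),(36,0),(0,0)]⟩ ⟨19,[(17,9),(8,11),(0,11),(20,4),(0,2),(1,5)]⟩)) (.Q [0,
  0,0,0,0,-1,0,0,0,1,0,-1] (.ed true [0,1,0,0,1] .k) (.S ⟨1,0,[-1,1],[1,0,0,0,-1],[-1],(⟨0,[(30,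
  0)]⟩,⟨0,[(31,0)]⟩),⟨0,[(0,0)]⟩,.k,(.r (-1) ⟨13,[(22,6),(5,0),(0,0),(13,1),(6,5),(2,2)]⟩ ⟨1,[(7,0),
  (20,0),(0,0)]⟩),⟨false,1,⟨1,[(28,0),(0,0),(21,0)]⟩,⟨0,[]⟩⟩,⟨true,0,⟨0,[(53,0)]⟩,⟨0,[]⟩⟩,⟨true,0,
  ⟨0,[(49,0)]⟩,⟨0,[(48,0)]⟩⟩,⟨false,0,⟨0,[(49,0)]⟩,⟨3,[(22,1),(5,0),(0,0),(21,0)]⟩⟩,[.a ⟨true,0,⟨0,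
  [(1,0),(2,0),(0,0)]⟩,⟨1,[(2,1),(47,0),(0,0)]⟩⟩ ⟨false,1,⟨9,[(28,3),(0,3),(20,4),(0,0),(1,1)]⟩,⟨0,
  []⟩⟩ ⟨true,0,⟨0,[(53,0)]⟩,⟨0,[(44,0)]⟩⟩,.o ⟨false,1,⟨0,[(10,0)]⟩,⟨15,[(2,7),(1,0),(1,7),(5,0),(9,
  1),(22,2),(4,3)]⟩⟩,.o ⟨false,1,⟨0,[(28,0)]⟩,⟨2,[(2,1),(26,0),(15,0),(4,0)]⟩⟩,.e ⟨false,1,⟨0,[(44,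
  0),(5,0)]⟩,⟨1,[(35,0),(0,0)]⟩⟩ ⟨false,1,⟨9,[(28,3),(0,3),(20,4),(0,0),(1,1)]⟩,⟨0,[(44,0)]⟩⟩]⟩)
  (.S ⟨1,0,[1],[0,0,0,0,1],[1,1],(⟨0,[(31,0)]⟩,⟨0,[(30,0)]⟩),⟨0,[(0,0),(25,0),(0,0)]⟩,.k,(.r (-1)
  ⟨7,[(22,3),(5,0),(0,0),(13,1),(6,2)]⟩ ⟨9,[(7,4),(20,2),(0,2),(21,1),(1,3)]⟩),⟨true,0,⟨0,[(53,0)]⟩,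
  ⟨0,[]⟩⟩,⟨false,1,⟨1,[(28,0),(0,0),(21,0)]⟩,⟨0,[]⟩⟩,⟨false,0,⟨0,[(49,0)]⟩,⟨3,[(22,1),(5,0),(0,0),
  (21,0)]⟩⟩,⟨true,0,⟨0,[(49,0)]⟩,⟨0,[(48,0)]⟩⟩,[.o ⟨false,0,⟨15,[(2,7),(1,0),(1,7),(5,0),(9,1),(22,
  2),(4,3)]⟩,⟨0,[(10,0)]⟩⟩,.a ⟨true,0,⟨1,[(2,1),(47,0),(0,0)]⟩,⟨0,[(1,0),(2,0),(0,0)]⟩⟩ ⟨true,0,⟨0,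
  []⟩,⟨1,[(35,0),(0,0)]⟩⟩ ⟨false,1,⟨1,[(50,0),(0,0)]⟩,⟨0,[(53,0)]⟩⟩,.o ⟨false,0,⟨2,[(2,1),(26,0),
  (15,0),(4,0)]⟩,⟨0,[(28,0)]⟩⟩,.e ⟨false,1,⟨1,[(28,0),(0,0),(20,0)]⟩,⟨0,[(44,0)]⟩⟩ ⟨false,1,⟨1,[(50,
  0),(0,0)]⟩,⟨1,[(35,0),(0,0)]⟩⟩]⟩)) (.I [2,0,-2,-2,1,0,0,1] (.N [0,-2,1,0,1] (-1) ⟨0,[(0,0)]⟩ ⟨0,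
  [(5,0)]⟩ (.x 1 ⟨0,[(1,0),(1,0),(26,0)]⟩ ⟨3,[(10,1),(14,0),(1,3),(0,1),(2,3),(0,1),(6,3),(5,0),(4,
  2)]⟩)) (.Q [0,0,0,0,0,-1,0,0,0,0,0,1] (.ed false [1,-1,0,0,1] .k) (.S ⟨1,0,[1,1],[0,0,0,0,1],[1,1,
  1],(⟨0,[(32,0)]⟩,⟨0,[(31,0)]⟩),⟨0,[(0,0)]⟩,.k,(.r (-1) ⟨7,[(23,3),(5,0),(0,0),(13,1),(6,2)]⟩ ⟨13,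
  [(1,3),(6,2),(16,3),(3,4),(0,4),(21,1)]⟩),⟨false,0,⟨1,[(36,0),(0,0)]⟩,⟨1,[(51,0),(0,0)]⟩⟩,⟨true,0,
  ⟨0,[(54,0)]⟩,⟨0,[]⟩⟩,⟨true,(-1),⟨0,[(6,0),(3,0)]⟩,⟨7,[(23,3),(5,0),(0,0),(13,1),(6,2)]⟩⟩,⟨false,0,
  ⟨0,[(50,0)]⟩,⟨3,[(23,1),(5,0),(0,0),(21,0)]⟩⟩,[.a ⟨true,(-1),⟨1,[(2,0),(0,0),(10,0),(1,0),(34,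
  1)]⟩,⟨1,[(9,1),(41,0),(0,0)]⟩⟩ ⟨false,0,⟨0,[(54,0)]⟩,⟨1,[(51,0),(0,0)]⟩⟩ ⟨true,0,⟨0,[(54,0)]⟩,⟨0,
  [(45,0)]⟩⟩,.o ⟨false,0,⟨12,[(2,0),(0,4),(3,6),(2,0),(2,0),(9,1),(22,1),(4,2)]⟩,⟨0,[(11,0)]⟩⟩,.o
  ⟨false,0,⟨2,[(3,1),(26,0),(15,0),(4,0)]⟩,⟨0,[(29,0)]⟩⟩,.e ⟨false,0,⟨0,[]⟩,⟨1,[(29,0),(0,0),(21,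
  0)]⟩⟩ ⟨false,1,⟨1,[(29,0),(0,0),(20,0)]⟩,⟨0,[(45,0)]⟩⟩]⟩) (.R ⟨0,false,false,true,[0,0,0,0,1],[0,
  1],[1,1],(⟨0,[(32,0)]⟩,⟨0,[(31,0)]⟩),(⟨0,[(43,0)]⟩,⟨0,[(42,0)]⟩),⟨0,[(0,0)]⟩,.k,.k,(.r (-1) ⟨7,
  [(23,3),(5,0),(0,0),(13,1),(6,2)]⟩ ⟨13,[(1,3),(6,2),(16,3),(3,4),(0,4),(21,1)]⟩),(.r (-1) ⟨7,[(23,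
  3),(5,0),(0,0),(13,1),(6,2)]⟩ ⟨13,[(1,3),(6,2),(16,3),(3,4),(0,4),(21,1)]⟩),.k,.k,⟨true,1,⟨7,[(23,
  3),(5,0),(0,0),(13,1),(6,2)]⟩,⟨1,[(6,0),(7,0),(30,0)]⟩⟩,⟨false,2,⟨0,[(29,0),(21,0)]⟩,⟨0,[(3,0)]⟩⟩,
  ⟨true,0,⟨0,[(54,0)]⟩,⟨0,[]⟩⟩,⟨false,1,⟨0,[(29,0),(20,0)]⟩,⟨5,[(2,1),(0,3),(6,1),(2,1),(37,2),(0,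
  4)]⟩⟩,⟨false,0,⟨0,[]⟩,⟨0,[]⟩⟩,⟨false,0,⟨0,[]⟩,⟨0,[]⟩⟩,[.o ⟨false,0,⟨2,[(6,0),(7,0),(29,0),(1,0),
  (3,0),(0,0)]⟩,⟨3,[(23,1),(5,0),(0,0),(21,0)]⟩⟩,.e ⟨true,0,⟨0,[]⟩,⟨1,[(36,0),(0,0)]⟩⟩ ⟨true,1,⟨0,
  [(29,0),(20,0)]⟩,⟨2,[(2,0),(0,1),(6,0),(2,0),(38,0)]⟩⟩,.o ⟨false,0,⟨2,[(3,1),(26,0),(15,0),(4,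
  0)]⟩,⟨0,[(29,0)]⟩⟩,.a ⟨true,(-1),⟨0,[(3,0)]⟩,⟨0,[(9,0),(41,0)]⟩⟩ ⟨false,1,⟨1,[(29,0),(0,0),(20,
  0)]⟩,⟨0,[(45,0)]⟩⟩ ⟨true,1,⟨2,[(6,0),(2,2),(4,0),(29,0),(1,0),(3,0),(0,3)]⟩,⟨2,[(2,0),(0,1),(6,0),
  (2,0),(38,0)]⟩⟩]⟩)))))))) (.S ⟨1,0,[-1,1],[1,0,0,0,-1],[-1],(⟨0,[(24,0)]⟩,⟨0,[(25,0)]⟩),⟨0,[(0,0),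
  (4,0),(27,2),(9,0),(0,0)]⟩,.k,(.r (-1) ⟨13,[(16,6),(5,0),(0,0),(13,1),(6,5),(2,2)]⟩ ⟨1,[(1,0),(20,
  0),(0,0)]⟩),⟨false,1,⟨1,[(22,0),(0,0),(21,0)]⟩,⟨0,[]⟩⟩,⟨true,0,⟨0,[(47,0)]⟩,⟨0,[]⟩⟩,⟨true,0,⟨0,
  [(43,0)]⟩,⟨0,[(42,0)]⟩⟩,⟨false,0,⟨0,[(43,0)]⟩,⟨3,[(16,1),(5,0),(0,0),(21,0)]⟩⟩,[.o ⟨false,0,⟨1,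
  [(0,1),(8,0),(17,0),(11,0),(3,1)]⟩,⟨1,[(23,1),(10,0),(10,0)]⟩⟩,.e ⟨false,1,⟨0,[(38,0),(5,0)]⟩,⟨0,
  [(47,0)]⟩⟩ ⟨false,1,⟨9,[(22,3),(0,3),(20,4),(0,0),(1,1)]⟩,⟨0,[]⟩⟩,.a ⟨true,0,⟨0,[(0,0),(42,0)]⟩,
  ⟨0,[(23,0)]⟩⟩ ⟨false,1,⟨4,[(22,1),(0,1),(21,2),(1,0)]⟩,⟨0,[]⟩⟩ ⟨true,0,⟨0,[(47,0)]⟩,⟨0,[]⟩⟩,.o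
  ⟨false,0,⟨2,[(0,1),(0,0),(0,0),(36,0)]⟩,⟨1,[(23,1),(10,0),(9,0)]⟩⟩]⟩)) (.S ⟨1,0,[0,0,-1,-1],[1,
  -1],[1,1,-1,-2],(⟨0,[(34,0)]⟩,⟨0,[(35,0)]⟩),⟨0,[(19,0),(0,0)]⟩,.k,(.r (-1) ⟨0,[(0,0)]⟩ ⟨0,[(28,0),
  (0,0),(12,1)]⟩),⟨true,0,⟨0,[(41,0)]⟩,⟨0,[(42,0)]⟩⟩,⟨false,1,⟨1,[(21,0),(0,0),(21,0)]⟩,⟨0,[]⟩⟩,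
  ⟨false,0,⟨0,[]⟩,⟨1,[(21,0),(0,0),(21,0)]⟩⟩,⟨true,0,⟨0,[(42,0)]⟩,⟨0,[(41,0)]⟩⟩,[.e ⟨false,1,⟨2,[(0,
  1),(14,0),(20,1)]⟩,⟨0,[(37,0),(4,1)]⟩⟩ ⟨false,1,⟨1,[(0,0),(42,0)]⟩,⟨1,[(28,0),(0,0),(12,1)]⟩⟩,.o
  ⟨false,1,⟨3,[(15,1),(5,0),(0,0),(21,0)]⟩,⟨1,[(8,0),(17,0),(11,0),(3,1)]⟩⟩,.o ⟨false,0,⟨1,[(28,0),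
  (0,0)]⟩,⟨1,[(33,0),(9,0)]⟩⟩,.a ⟨true,(-1),⟨0,[(9,0),(18,0)]⟩,⟨0,[(43,0)]⟩⟩ ⟨false,1,⟨0,[(0,0)]⟩,
  ⟨0,[(11,0),(16,0),(13,0),(1,0)]⟩⟩ ⟨true,1,⟨1,[(0,0),(42,0)]⟩,⟨0,[(11,0),(16,0)]⟩⟩]⟩)) (.R ⟨1,
  false,false,true,[0,0,1],[1,0,0,0,-1],[1,1,0,-1,0,0,0,1],(⟨0,[(30,0)]⟩,⟨0,[(29,0)]⟩),(⟨0,[(22,
  0)]⟩,⟨0,[(23,0)]⟩),⟨0,[(19,0)]⟩,.k,.k,.k,.k,(.r (-1) ⟨2,[(1,0),(12,0),(1,1),(25,0),(0,0)]⟩ ⟨3,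
  [(11,1),(15,0),(0,0),(12,3)]⟩),.k,⟨true,0,⟨0,[(12,0)]⟩,⟨3,[(11,1),(15,0),(0,0),(12,3)]⟩⟩,⟨false,1,
  ⟨0,[(20,0),(3,0)]⟩,⟨0,[(0,0),(26,0)]⟩⟩,⟨true,0,⟨0,[(40,0)]⟩,⟨0,[(41,0)]⟩⟩,⟨true,0,⟨0,[(2,0),(4,
  0)]⟩,⟨0,[(0,0),(24,0),(10,0)]⟩⟩,⟨false,0,⟨0,[]⟩,⟨1,[(20,0),(0,0),(21,0)]⟩⟩,⟨true,0,⟨0,[(7,0),(12,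
  0),(20,0)]⟩,⟨0,[(0,0),(11,0),(14,0)]⟩⟩,[.o ⟨false,1,⟨0,[(20,0),(24,0)]⟩,⟨0,[(0,0),(35,0)]⟩⟩,.o
  ⟨false,1,⟨0,[(2,0)]⟩,⟨10,[(0,4),(4,1),(5,0),(9,5),(14,1),(0,1)]⟩⟩,.o ⟨false,1,⟨1,[(27,1),(4,0),(9,
  0)]⟩,⟨0,[(13,0)]⟩⟩,.a ⟨true,0,⟨0,[(27,0)]⟩,⟨0,[(24,0)]⟩⟩ ⟨true,0,⟨0,[(1,0)]⟩,⟨3,[(11,1),(15,0),(0,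
  0),(12,3)]⟩⟩ ⟨false,1,⟨0,[(2,0),(21,0)]⟩,⟨0,[(0,0),(26,0),(8,0)]⟩⟩]⟩)) (.S ⟨1,0,[0,0,0,0,0,0,0,1],
  [0,0,1],[1,1,0,-1,0,0,0,1],(⟨0,[(29,0)]⟩,⟨0,[(28,0)]⟩),⟨0,[(18,0)]⟩,.k,.k,⟨true,0,⟨0,[(39,0)]⟩,⟨0,
  [(40,0)]⟩⟩,⟨false,1,⟨1,[(19,0),(0,0),(21,0)]⟩,⟨0,[]⟩⟩,⟨false,0,⟨0,[]⟩,⟨1,[(19,0),(0,0),(21,0)]⟩⟩,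
  ⟨true,0,⟨0,[(40,0)]⟩,⟨0,[(39,0)]⟩⟩,[.o ⟨false,1,⟨1,[(24,1),(6,0),(10,0)]⟩,⟨0,[(14,0)]⟩⟩,.a ⟨true,
  1,⟨0,[(24,0),(17,0)]⟩,⟨0,[(6,0)]⟩⟩ ⟨true,0,⟨0,[(11,0)]⟩,⟨0,[(0,0),(43,0)]⟩⟩ ⟨false,1,⟨0,[(4,0),
  (36,0),(0,0)]⟩,⟨1,[(10,0),(23,0)]⟩⟩,.o ⟨false,1,⟨1,[(26,1),(4,0),(9,0)]⟩,⟨0,[(12,0)]⟩⟩,.e ⟨false,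
  1,⟨5,[(11,1),(1,1),(1,3),(25,2),(0,0)]⟩,⟨0,[(0,0)]⟩⟩ ⟨false,1,⟨0,[(4,0),(36,0),(0,0)]⟩,⟨3,[(10,1),
  (15,0),(0,0)]⟩⟩]⟩)) (.R ⟨2,true,false,false,[0,1],[0,0,0,0,1],[1,1,1],(⟨0,[]⟩,⟨0,[]⟩),(⟨0,[(21,
  0)]⟩,⟨0,[(20,0)]⟩),⟨0,[]⟩,.k,.k,.k,(.r 0 ⟨1,[(25,0),(0,0),(12,1)]⟩ ⟨7,[(12,3),(5,0),(0,0),(13,1),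
  (6,2)]⟩),.k,.k,⟨false,0,⟨0,[(43,0)]⟩,⟨1,[(40,0),(0,0)]⟩⟩,⟨true,(-1),⟨5,[(0,3),(2,1),(5,0),(9,1),
  (14,1),(7,0)]⟩,⟨0,[(18,0)]⟩⟩,⟨true,0,⟨0,[(38,0)]⟩,⟨0,[(39,0)]⟩⟩,⟨false,0,⟨3,[(0,2),(11,1),(6,0),
  (21,0)]⟩,⟨0,[(18,0),(20,0)]⟩⟩,⟨false,0,⟨0,[]⟩,⟨1,[(18,0),(0,0),(21,0)]⟩⟩,⟨true,(-1),⟨0,[(0,0)]⟩,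
  ⟨0,[(18,0),(24,0)]⟩⟩,[]⟩)))))) (.I [0,1,-1,0,0,0,0,1] (.S ⟨1,0,[0,0,0,0,0,0,0,1],[0,0,1],[0,1,0,0,
  0,0,0,1],(⟨0,[(24,0)]⟩,⟨0,[(23,0)]⟩),⟨0,[(13,0)]⟩,.k,.k,⟨true,0,⟨0,[(39,0)]⟩,⟨0,[]⟩⟩,⟨false,1,⟨1,
  [(14,0),(0,0),(21,0)]⟩,⟨0,[]⟩⟩,⟨false,0,⟨0,[(35,0)]⟩,⟨3,[(8,1),(5,0),(0,0),(21,0)]⟩⟩,⟨true,0,⟨0,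
  [(35,0)]⟩,⟨0,[(34,0)]⟩⟩,[.o ⟨false,1,⟨3,[(1,1),(12,0),(0,0),(3,1),(6,0)]⟩,⟨0,[(9,0)]⟩⟩,.o ⟨false,
  1,⟨0,[(1,0)]⟩,⟨0,[(20,0)]⟩⟩,.o ⟨false,1,⟨3,[(1,1),(3,1),(13,1),(6,0),(9,0)]⟩,⟨0,[(7,0)]⟩⟩,.a
  ⟨true,0,⟨0,[(21,0)]⟩,⟨0,[(18,0)]⟩⟩ ⟨true,0,⟨0,[(0,0)]⟩,⟨3,[(5,1),(15,0),(0,0)]⟩⟩ ⟨false,1,⟨0,[(0,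
  0),(36,0)]⟩,⟨3,[(5,1),(15,0),(0,0)]⟩⟩]⟩) (.I [1,0,2,1,-1] (.S ⟨1,0,[0,1,-1,-1],[1,-1],[0,0,-1,-1],
  (⟨0,[(28,0)]⟩,⟨0,[(29,0)]⟩),⟨0,[(13,0),(0,0)]⟩,.k,(.r (-2) ⟨3,[(9,3),(5,0),(0,0),(13,1),(6,2)]⟩
  ⟨0,[(0,0),(35,0)]⟩),⟨false,1,⟨1,[(15,0),(0,0),(21,0)]⟩,⟨0,[]⟩⟩,⟨true,0,⟨0,[(40,0)]⟩,⟨0,[]⟩⟩,⟨true,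
  0,⟨0,[(36,0)]⟩,⟨0,[(35,0)]⟩⟩,⟨false,0,⟨0,[(36,0)]⟩,⟨3,[(9,1),(5,0),(0,0),(21,0)]⟩⟩,[.o ⟨false,0,
  ⟨0,[(35,0)]⟩,⟨1,[(27,0),(8,1),(1,0)]⟩⟩,.e ⟨true,1,⟨0,[(1,0),(5,0),(29,0)]⟩,⟨0,[(0,0),(39,0)]⟩⟩
  ⟨true,1,⟨7,[(9,3),(5,0),(0,0),(13,1),(6,2)]⟩,⟨0,[(0,0)]⟩⟩,.o ⟨false,0,⟨1,[(22,0),(0,0)]⟩,⟨1,[(27,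
  0),(9,0)]⟩⟩,.a ⟨true,(-1),⟨0,[(3,0),(18,0)]⟩,⟨0,[(37,0)]⟩⟩ ⟨false,2,⟨3,[(9,1),(5,0),(0,0),(20,3),
  (0,0)]⟩,⟨0,[(0,0)]⟩⟩ ⟨true,1,⟨0,[(35,0),(1,0)]⟩,⟨0,[(0,0)]⟩⟩]⟩) (.R ⟨1,false,false,true,[0,0,1],
  [1,-1],[0,1,0,0,0,0,0,1],(⟨0,[(25,0)]⟩,⟨0,[(24,0)]⟩),(⟨0,[(28,0)]⟩,⟨0,[(29,0)]⟩),⟨0,[(14,0)]⟩,.k,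
  .k,.k,.k,.k,.k,⟨false,0,⟨0,[(7,0),(28,1)]⟩,⟨13,[(0,9),(5,6),(2,1),(5,1),(0,1),(13,0)]⟩⟩,⟨true,
  (-1),⟨0,[(3,0)]⟩,⟨3,[(2,1),(3,1),(13,1),(6,0),(9,0)]⟩⟩,⟨true,0,⟨0,[(40,0)]⟩,⟨0,[]⟩⟩,⟨false,0,⟨3,
  [(0,0),(2,1),(2,1),(2,0),(9,1),(15,0)]⟩,⟨0,[(2,0),(33,0)]⟩⟩,⟨false,0,⟨0,[(36,0)]⟩,⟨3,[(9,1),(5,0),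
  (0,0),(21,0)]⟩⟩,⟨false,0,⟨3,[(6,1),(5,0),(6,1),(4,0),(0,0)]⟩,⟨0,[(2,0)]⟩⟩,[.o ⟨false,0,⟨0,[(35,
  0)]⟩,⟨1,[(27,0),(8,1),(1,0)]⟩⟩,.a ⟨true,0,⟨0,[(0,0),(2,0),(18,0)]⟩,⟨0,[(36,0)]⟩⟩ ⟨true,0,⟨0,[(7,
  0),(28,0)]⟩,⟨3,[(6,1),(15,0),(0,0)]⟩⟩ ⟨false,0,⟨0,[(0,0),(2,0)]⟩,⟨3,[(2,1),(3,1),(13,1),(6,0),(8,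
  3),(0,0)]⟩⟩,.o ⟨false,1,⟨3,[(2,1),(3,1),(13,1),(6,0),(9,0)]⟩,⟨0,[(8,0)]⟩⟩,.e ⟨false,1,⟨1,[(11,1),
  (25,0),(0,0)]⟩,⟨0,[(1,0)]⟩⟩ ⟨false,0,⟨0,[(0,0),(2,0)]⟩,⟨3,[(2,3),(3,1),(15,0),(0,0),(12,
  3)]⟩⟩]⟩)))) (.I [1,0,2,1,-1] (.Q [0,1,1,0,0,0,2,1,0,-1,2] (.p true [0,0,1] [1,0,-1] (⟨0,[(23,0)]⟩,
  ⟨0,[(22,0)]⟩) .k 2 (⟨0,[(22,0)]⟩,⟨0,[(23,0)]⟩) .k (.r 0 ⟨0,[(5,1),(28,1)]⟩ ⟨1,[(4,1),(8,0),(0,0),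
  (20,0)]⟩)) (.Q [0,-1,0,-1,0,0,-2,-2,0,1,-2] (.p false [0,0,1] [1,0,-1] (⟨0,[(24,0)]⟩,⟨0,[(23,
  0)]⟩) .k 2 (⟨0,[(23,0)]⟩,⟨0,[(24,0)]⟩) .k (.r 0 ⟨0,[(6,1),(28,1)]⟩ ⟨1,[(5,1),(8,0),(0,0),(20,
  0)]⟩)) (.Q [0,0,0,-2,0,0,-1,-1,0,1,-1] (.p false [0,0,1] [1] (⟨0,[(25,0)]⟩,⟨0,[(24,0)]⟩) .k 1 (⟨0,
  []⟩,⟨0,[]⟩) .k .k) (.Q [0,0,2,0,-1,0,0,0,0,1] (.pp false [-1,1]) (.R ⟨1,false,false,false,[1,-1],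
  [0,-1,1],[0,1,-1,-1],(⟨0,[(30,0)]⟩,⟨0,[(31,0)]⟩),(⟨0,[(16,0)]⟩,⟨0,[(26,0),(4,0)]⟩),⟨0,[(15,0),(0,
  0)]⟩,.k,.k,(.r (-2) ⟨3,[(11,3),(5,0),(0,0),(13,1),(6,2)]⟩ ⟨0,[(4,0),(33,0)]⟩),.k,.k,.k,⟨true,0,⟨1,
  [(8,0),(23,0)]⟩,⟨1,[(4,0),(4,1),(28,0),(1,0)]⟩⟩,⟨false,1,⟨0,[(5,0)]⟩,⟨3,[(0,0),(13,0),(2,0),(0,0),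
  (2,1)]⟩⟩,⟨true,0,⟨0,[(42,0)]⟩,⟨0,[]⟩⟩,⟨false,1,⟨1,[(4,0),(0,1),(3,1),(28,0),(1,0)]⟩,⟨7,[(0,0),(7,
  3),(5,0),(2,0),(0,0),(2,5)]⟩⟩,⟨false,0,⟨0,[(38,0)]⟩,⟨3,[(11,1),(5,0),(0,0),(21,0)]⟩⟩,⟨false,1,⟨1,
  [(4,0),(0,1),(3,1),(28,2),(1,0)]⟩,⟨15,[(0,0),(0,7),(6,3),(5,0),(2,0),(0,0),(2,5)]⟩⟩,[.o ⟨false,1,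
  ⟨18,[(3,1),(1,1),(3,2),(1,7),(1,0),(8,12),(11,4),(5,3)]⟩,⟨0,[(12,0),(25,0)]⟩⟩,.o ⟨false,1,⟨0,[(5,
  0),(3,0),(23,0)]⟩,⟨0,[(23,0),(14,0)]⟩⟩,.o ⟨false,0,⟨1,[(24,0),(0,0)]⟩,⟨1,[(29,0),(9,0)]⟩⟩,.a
  ⟨true,(-1),⟨0,[(0,0)]⟩,⟨0,[(39,0)]⟩⟩ ⟨true,1,⟨0,[(37,0),(1,0)]⟩,⟨0,[(4,0)]⟩⟩ ⟨false,2,⟨1,[(5,1),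
  (3,1),(29,0),(0,0)]⟩,⟨7,[(0,4),(1,1),(1,0),(2,1),(0,1),(5,0),(23,6)]⟩⟩]⟩) (.R ⟨1,false,false,true,
  [0,0,1],[1,-1],[1,0,0,-1,0,0,0,1],(⟨0,[(27,0)]⟩,⟨0,[(26,0)]⟩),(⟨0,[(30,0)]⟩,⟨0,[(31,0)]⟩),⟨0,[(16,
  0)]⟩,.k,.k,.k,.k,.k,.k,⟨true,0,⟨1,[(4,0),(4,1),(28,0),(1,0)]⟩,⟨1,[(8,0),(23,0)]⟩⟩,⟨false,0,⟨1,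
  [(14,0),(11,0),(0,0)]⟩,⟨0,[(5,0)]⟩⟩,⟨false,1,⟨3,[(11,1),(5,0),(0,0),(21,0)]⟩,⟨0,[(38,0)]⟩⟩,⟨false,
  0,⟨7,[(1,3),(6,1),(5,0),(6,1),(4,0),(0,0)]⟩,⟨3,[(0,1),(2,1),(0,0),(4,1),(28,4),(1,2)]⟩⟩,⟨true,0,
  ⟨0,[]⟩,⟨0,[(42,0)]⟩⟩,⟨false,0,⟨3,[(8,1),(5,0),(6,1),(4,0),(0,0)]⟩,⟨3,[(0,1),(2,1),(0,0),(4,1),(28,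
  0),(1,2)]⟩⟩,[.o ⟨false,0,⟨0,[(37,0)]⟩,⟨1,[(29,0),(8,1),(1,0)]⟩⟩,.o ⟨false,1,⟨2,[(11,0),(5,1),(0,
  1),(18,0)]⟩,⟨0,[(0,0),(3,0)]⟩⟩,.o ⟨false,1,⟨6,[(3,1),(1,2),(2,0),(8,1),(0,1),(10,0),(10,0)]⟩,⟨0,
  [(10,0)]⟩⟩,.a ⟨true,0,⟨0,[(24,0)]⟩,⟨0,[(21,0)]⟩⟩ ⟨false,1,⟨1,[(9,1),(29,0),(0,0)]⟩,⟨3,[(4,0),(3,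
  1),(8,0),(0,0),(19,2)]⟩⟩ ⟨true,0,⟨4,[(1,1),(7,0),(3,0),(7,2),(10,1)]⟩,⟨0,[(4,0),(0,0)]⟩⟩]⟩)) (.R
  ⟨1,true,false,true,[1,0,-1],[0,1],[1,0,0,-1,0,0,0,-1],(⟨0,[(25,0)]⟩,⟨0,[(26,0)]⟩),(⟨0,[(30,0)]⟩,
  ⟨0,[(29,0)]⟩),⟨0,[(14,0)]⟩,.k,.k,.k,.k,(.r (-2) ⟨1,[(7,0),(2,1),(20,0),(6,1)]⟩ ⟨14,[(0,7),(2,16),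
  (4,2),(4,3),(6,3),(0,3),(17,1)]⟩),.k,⟨false,2,⟨0,[(1,0),(2,0),(3,0),(14,0),(14,0)]⟩,⟨1,[(0,0),(2,
  0),(2,0),(13,0),(0,0)]⟩⟩,⟨true,1,⟨0,[(4,0)]⟩,⟨3,[(1,1),(1,3),(4,1),(4,0),(7,1),(3,0),(0,0)]⟩⟩,
  ⟨false,1,⟨3,[(10,1),(5,0),(0,0),(21,0)]⟩,⟨0,[(37,0)]⟩⟩,⟨true,0,⟨30,[(0,16),(1,7),(3,1),(1,4),(3,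
  0),(18,9),(1,1)]⟩,⟨0,[(1,0),(19,0)]⟩⟩,⟨true,0,⟨0,[]⟩,⟨0,[(41,0)]⟩⟩,⟨false,0,⟨0,[(0,0)]⟩,⟨9,[(1,3),
  (5,0),(2,7),(2,0),(2,1),(0,1),(7,4),(0,4),(4,0)]⟩⟩,[]⟩)) (.S ⟨1,0,[0,0,0,0,0,0,0,1],[0,0,1],[0,1,
  0,0,0,0,0,1],(⟨0,[(25,0)]⟩,⟨0,[(24,0)]⟩),⟨0,[(14,0)]⟩,.k,.k,⟨true,0,⟨0,[(40,0)]⟩,⟨0,[]⟩⟩,⟨false,1,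
  ⟨1,[(15,0),(0,0),(21,0)]⟩,⟨0,[]⟩⟩,⟨false,0,⟨0,[(36,0)]⟩,⟨3,[(9,1),(5,0),(0,0),(21,0)]⟩⟩,⟨true,0,
  ⟨0,[(36,0)]⟩,⟨0,[(35,0)]⟩⟩,[.o ⟨false,1,⟨7,[(0,3),(8,1),(5,2),(0,2),(10,1),(10,0)]⟩,⟨0,[(10,0)]⟩⟩,
  .o ⟨false,1,⟨6,[(0,2),(2,0),(3,0),(1,0),(21,0),(0,0),(5,3)]⟩,⟨0,[(21,0)]⟩⟩,.o ⟨false,1,⟨6,[(1,1),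
  (1,2),(2,0),(8,1),(0,1),(10,0),(10,0)]⟩,⟨0,[(8,0)]⟩⟩,.a ⟨true,0,⟨0,[(22,0)]⟩,⟨0,[(19,0)]⟩⟩ ⟨true,
  0,⟨0,[(0,0),(3,0),(14,0)]⟩,⟨3,[(6,1),(15,0),(0,0)]⟩⟩ ⟨false,1,⟨11,[(0,3),(6,3),(4,0),(6,5),(12,0),
  (4,2),(0,7)]⟩,⟨3,[(6,1),(15,0),(0,0)]⟩⟩]⟩)) (.Q [0,1,0,1,0,0,1,1,0,-1,1] (.p true [0,0,1] [1] (⟨0,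
  [(24,0)]⟩,⟨0,[(23,0)]⟩) .k 1 (⟨0,[]⟩,⟨0,[]⟩) .k .k) (.R ⟨1,false,false,true,[1,0,-1],[0,0,1],[0,1,
  0,0,0,0,0,-1],(⟨0,[(24,0)]⟩,⟨0,[(25,0)]⟩),(⟨0,[(25,0)]⟩,⟨0,[(24,0)]⟩),⟨0,[(13,0)]⟩,.k,.k,.k,.k,
  (.x 1 ⟨0,[(0,0),(0,0),(0,0),(1,0),(2,0),(17,1),(3,0)]⟩ ⟨3,[(3,5),(9,3),(1,0),(0,0),(5,1),(1,3),(2,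
  0)]⟩),.k,⟨false,1,⟨0,[(6,0),(30,0)]⟩,⟨4,[(0,3),(1,1),(4,5),(11,3),(18,1)]⟩⟩,⟨true,1,⟨0,[(3,0),(18,
  0)]⟩,⟨4,[(1,2),(0,3),(2,0),(1,2),(4,0),(6,0),(15,1)]⟩⟩,⟨true,0,⟨0,[(40,0)]⟩,⟨0,[]⟩⟩,⟨false,1,⟨2,
  [(0,1),(2,0),(3,1),(12,1),(1,0),(15,1)]⟩,⟨4,[(1,3),(4,2),(5,0),(18,0)]⟩⟩,⟨false,0,⟨0,[(36,0)]⟩,⟨3,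
  [(9,1),(5,0),(0,0),(21,0)]⟩⟩,⟨false,1,⟨0,[(0,0),(19,0),(17,0)]⟩,⟨0,[(1,0),(4,0),(0,0)]⟩⟩,[.a
  ⟨true,0,⟨0,[(20,0)]⟩,⟨0,[(1,0),(20,0)]⟩⟩ ⟨true,0,⟨1,[(6,0),(23,0)]⟩,⟨4,[(0,0),(1,2),(4,3),(11,0),
  (18,2)]⟩⟩ ⟨false,1,⟨0,[(3,0),(16,0)]⟩,⟨4,[(1,2),(4,0),(5,1),(18,1)]⟩⟩,.o ⟨false,1,⟨1,[(20,1),(6,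
  0),(10,0)]⟩,⟨0,[(10,0)]⟩⟩,.o ⟨false,0,⟨0,[(8,0)]⟩,⟨3,[(3,1),(11,0),(0,0),(5,1),(4,0)]⟩⟩,.o ⟨false,
  0,⟨0,[(23,0)]⟩,⟨0,[(3,0)]⟩⟩]⟩) (.R ⟨1,false,false,true,[1,0,-1],[1,-1],[0,1,-1,-1],(⟨0,[(24,0)]⟩,
  ⟨0,[(25,0)]⟩),(⟨0,[(28,0)]⟩,⟨0,[(29,0)]⟩),⟨0,[(13,0)]⟩,.k,.k,.k,.k,.k,.k,⟨false,1,⟨1,[(15,0),(0,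
  0),(20,0)]⟩,⟨0,[]⟩⟩,⟨true,0,⟨0,[(22,0)]⟩,⟨0,[(8,0)]⟩⟩,⟨false,1,⟨5,[(7,1),(1,1),(1,3),(25,2),(0,
  0)]⟩,⟨0,[(0,0),(1,0),(0,0),(32,0)]⟩⟩,⟨false,1,⟨3,[(9,1),(5,0),(0,0),(3,3),(17,0)]⟩,⟨0,[(1,0),(0,
  0),(0,0)]⟩⟩,⟨false,1,⟨1,[(11,1),(25,0),(0,0)]⟩,⟨0,[(0,0),(1,0),(0,0)]⟩⟩,⟨true,0,⟨0,[(20,0)]⟩,⟨0,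
  [(10,0)]⟩⟩,[.o ⟨false,0,⟨0,[(35,0)]⟩,⟨1,[(27,0),(8,1),(1,0)]⟩⟩,.a ⟨true,0,⟨0,[(0,0),(19,0)]⟩,⟨0,
  [(36,0)]⟩⟩ ⟨true,1,⟨7,[(9,3),(5,0),(0,0),(13,1),(6,2)]⟩,⟨0,[(2,0)]⟩⟩ ⟨false,1,⟨0,[(0,0),(2,0),(16,
  0)]⟩,⟨5,[(5,1),(6,0),(6,1),(12,0),(3,3),(1,0)]⟩⟩,.o ⟨false,0,⟨0,[(8,0)]⟩,⟨3,[(3,1),(11,0),(0,0),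
  (5,1),(4,0)]⟩⟩,.o ⟨false,0,⟨0,[(23,0)]⟩,⟨0,[(3,0)]⟩⟩]⟩))) (.Q [0,0,0,-2,0,0,-1,-1,0,1,-1] (.p
  false [0,0,1] [1] (⟨0,[(23,0)]⟩,⟨0,[(22,0)]⟩) .k 1 (⟨0,[]⟩,⟨0,[]⟩) .k .k) (.Q [0,0,0,-1,0,0,0,0,0,
  1] (.pp false [-1,1]) (.R ⟨1,false,false,false,[1,0,-1],[1,-1],[0,1,0,0,0,0,0,-1],(⟨0,[(24,0)]⟩,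
  ⟨0,[(25,0)]⟩),(⟨0,[(28,0)]⟩,⟨0,[(29,0)]⟩),⟨0,[(13,0)]⟩,.k,.k,.k,.k,.k,.k,⟨false,0,⟨1,[(6,0),(23,
  0),(5,1)]⟩,⟨1,[(7,1),(29,0),(0,0)]⟩⟩,⟨true,0,⟨0,[(22,0)]⟩,⟨0,[(8,0)]⟩⟩,⟨true,0,⟨0,[(40,0)]⟩,⟨0,
  []⟩⟩,⟨false,1,⟨2,[(0,0),(2,0),(3,1),(12,0),(1,0),(15,1)]⟩,⟨0,[(10,0),(25,0)]⟩⟩,⟨false,0,⟨0,[(36,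
  0)]⟩,⟨3,[(9,1),(5,0),(0,0),(21,0)]⟩⟩,⟨false,1,⟨0,[(20,0),(17,0)]⟩,⟨0,[(10,0)]⟩⟩,[.a ⟨true,0,⟨0,
  [(0,0)]⟩,⟨0,[(36,0)]⟩⟩ ⟨true,0,⟨1,[(6,0),(23,0)]⟩,⟨0,[(7,0),(23,0),(4,0)]⟩⟩ ⟨false,1,⟨0,[(0,0),(2,
  0)]⟩,⟨5,[(5,1),(6,0),(6,1),(12,0),(3,3),(1,0)]⟩⟩,.o ⟨false,1,⟨3,[(9,1),(5,0),(0,0),(21,0)]⟩,⟨0,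
  [(3,0),(1,0)]⟩⟩,.o ⟨false,0,⟨0,[(8,0)]⟩,⟨3,[(3,1),(11,0),(0,0),(5,1),(4,0)]⟩⟩,.o ⟨false,0,⟨0,[(23,
  0)]⟩,⟨0,[(3,0)]⟩⟩]⟩) (.R ⟨1,false,false,true,[0,0,1],[1,-1],[1,0,0,-1,0,0,0,1],(⟨0,[(25,0)]⟩,⟨0,
  [(24,0)]⟩),(⟨0,[(28,0)]⟩,⟨0,[(29,0)]⟩),⟨0,[(14,0)]⟩,.k,.k,.k,.k,.k,.k,⟨true,0,⟨0,[(7,0),(23,0),(4,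
  0)]⟩,⟨1,[(6,0),(23,0)]⟩⟩,⟨false,0,⟨1,[(12,0),(11,0),(0,0)]⟩,⟨0,[(3,0)]⟩⟩,⟨false,1,⟨3,[(9,1),(5,0),
  (0,0),(21,0)]⟩,⟨0,[(36,0)]⟩⟩,⟨false,0,⟨7,[(1,3),(4,1),(5,0),(6,1),(4,0),(0,0)]⟩,⟨0,[(0,0),(19,0),
  (17,0)]⟩⟩,⟨true,0,⟨0,[]⟩,⟨0,[(40,0)]⟩⟩,⟨false,0,⟨3,[(6,1),(5,0),(6,1),(4,0),(0,0)]⟩,⟨1,[(0,0),(2,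
  0),(3,0),(12,0),(10,0),(6,0)]⟩⟩,[.o ⟨false,0,⟨0,[(35,0)]⟩,⟨1,[(27,0),(8,1),(1,0)]⟩⟩,.o ⟨false,1,
  ⟨2,[(9,0),(5,1),(0,1),(18,0)]⟩,⟨0,[(0,0)]⟩⟩,.o ⟨false,1,⟨3,[(3,1),(11,0),(0,0),(5,1),(4,0)]⟩,⟨0,
  [(8,0)]⟩⟩,.a ⟨true,0,⟨0,[(22,0)]⟩,⟨0,[(19,0)]⟩⟩ ⟨false,1,⟨1,[(7,1),(29,0),(0,0)]⟩,⟨3,[(6,1),(15,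
  0),(0,0),(12,3)]⟩⟩ ⟨true,0,⟨4,[(1,1),(5,0),(3,0),(7,2),(10,1)]⟩,⟨0,[(0,0),(21,0)]⟩⟩]⟩)) (.R ⟨1,
  false,false,true,[0,0,1],[1,-1],[1,0,0,-1,0,0,0,1],(⟨0,[(24,0)]⟩,⟨0,[(23,0)]⟩),(⟨0,[(27,0)]⟩,⟨0,
  [(28,0)]⟩),⟨0,[(13,0)]⟩,.k,.k,.k,.k,.k,.k,⟨true,0,⟨6,[(0,1),(5,3),(4,0),(6,0),(0,0),(10,7)]⟩,⟨1,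
  [(5,0),(23,0)]⟩⟩,⟨false,0,⟨1,[(11,0),(11,0),(0,0)]⟩,⟨0,[(2,0)]⟩⟩,⟨false,1,⟨3,[(8,1),(5,0),(0,0),
  (21,0)]⟩,⟨0,[(35,0)]⟩⟩,⟨false,0,⟨0,[(3,0),(19,0),(0,0)]⟩,⟨3,[(0,1),(18,1),(6,0),(10,2)]⟩⟩,⟨true,0,
  ⟨0,[]⟩,⟨0,[(39,0)]⟩⟩,⟨false,0,⟨3,[(5,1),(5,0),(6,1),(4,0),(0,0)]⟩,⟨0,[(0,0),(7,0)]⟩⟩,[.o ⟨false,0,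
  ⟨0,[(34,0)]⟩,⟨3,[(0,1),(19,1),(5,0),(10,2)]⟩⟩,.o ⟨false,1,⟨2,[(8,0),(5,1),(0,1),(18,0)]⟩,⟨0,[(0,
  0),(2,0)]⟩⟩,.o ⟨false,1,⟨3,[(2,1),(11,0),(0,0),(5,1),(4,0)]⟩,⟨0,[(7,0)]⟩⟩,.a ⟨true,0,⟨0,[(21,0)]⟩,
  ⟨0,[(18,0)]⟩⟩ ⟨false,1,⟨1,[(6,1),(29,0),(0,0)]⟩,⟨3,[(5,1),(15,0),(0,0),(12,3)]⟩⟩ ⟨true,0,⟨0,[(18,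
  0),(15,0)]⟩,⟨0,[(0,0),(4,0),(0,0)]⟩⟩]⟩)))) (.R ⟨2,true,false,false,[0,1],[0,1,1],[0,1,1,1],(⟨0,
  []⟩,⟨0,[]⟩),(⟨0,[(21,0),(3,0)]⟩,⟨0,[(9,0)]⟩),⟨0,[]⟩,.k,.k,.k,.k,.k,.k,⟨true,0,⟨1,[(2,0),(23,0)]⟩,
  ⟨2,[(0,0),(0,0),(1,1),(23,1),(6,0)]⟩⟩,⟨false,1,⟨0,[(18,0),(14,0)]⟩,⟨0,[(4,0)]⟩⟩,⟨true,0,⟨0,[(36,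
  0)]⟩,⟨0,[]⟩⟩,⟨false,1,⟨0,[(16,0),(17,0)]⟩,⟨0,[(6,0)]⟩⟩,⟨false,0,⟨0,[(32,0)]⟩,⟨3,[(5,1),(5,0),(0,
  0),(21,0)]⟩⟩,⟨true,0,⟨0,[(0,0)]⟩,⟨0,[(6,0),(24,0)]⟩⟩,[]⟩)))

theorem ok3 : chk K t3 r5 = true := by decide +kernel

noncomputable def t6 : Tre :=
  (.S ⟨1,0,[0,1,0,0,0,0,0,-1],[1,0,-1],[0,0,0,0,0,0,0,-1],(⟨0,[(16,0)]⟩,⟨0,[(17,0)]⟩),⟨0,[(5,0)]⟩,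
  .k,.k,⟨false,1,⟨1,[(7,0),(0,0),(21,0)]⟩,⟨0,[]⟩⟩,⟨true,0,⟨0,[(32,0)]⟩,⟨0,[]⟩⟩,⟨true,0,⟨0,[(28,0)]⟩,
  ⟨0,[(27,0)]⟩⟩,⟨false,0,⟨0,[(28,0)]⟩,⟨3,[(1,1),(5,0),(0,0),(21,0)]⟩⟩,[.o ⟨false,0,⟨0,[(13,0)]⟩,⟨0,
  [(0,1),(10,1),(0,0),(10,1),(0,0)]⟩⟩,.o ⟨false,0,⟨0,[(2,0)]⟩,⟨1,[(12,1),(6,0),(10,0)]⟩⟩,.a ⟨true,0,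
  ⟨1,[(4,0),(11,0),(0,0)]⟩,⟨0,[(0,0)]⟩⟩ ⟨true,0,⟨0,[(0,0),(1,0)]⟩,⟨0,[(3,0)]⟩⟩ ⟨false,0,⟨0,[(0,0),
  (1,0)]⟩,⟨0,[(3,0),(26,0)]⟩⟩,.o ⟨false,0,⟨0,[(15,0)]⟩,⟨1,[(0,1),(18,0),(9,0)]⟩⟩]⟩)

theorem ok6 : chk K t6 r3 = true := by decide +kernel

noncomputable def t9 : Tre :=
  (.I [1,0,1,0,0,0,0,-1] (.Q [0,0,0,0,0,0,-1,0,0,0,-1] (.p false [0,0,1] [] (⟨0,[(18,0)]⟩,⟨0,[(17,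
  0)]⟩) .k 0 (⟨0,[]⟩,⟨0,[]⟩) .k .k) (.I [1,0,-1,-1,1,0,0,-1] (.I [0,0,0,-1,0,0,0,1] (.Q [0,0,0,1,0,
  0,-1,-1,0,0,-1] (.p false [0,0,1] [] (⟨0,[(21,0)]⟩,⟨0,[(20,0)]⟩) .k 0 (⟨0,[]⟩,⟨0,[]⟩) .k .k) (.Q
  [0,0,0,-1,0,0,0,0,0,1] (.pp false [-1,1]) (.R ⟨1,false,false,true,[1,0,-1],[1,-1],[0,0,1],(⟨0,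
  [(22,0)]⟩,⟨0,[(23,0)]⟩),(⟨0,[(26,0)]⟩,⟨0,[(27,0)]⟩),⟨0,[(11,0)]⟩,.k,.k,.k,.k,.k,.k,⟨false,0,⟨0,
  [(29,0),(4,0)]⟩,⟨1,[(2,0),(0,0),(24,0),(6,0)]⟩⟩,⟨true,0,⟨0,[(20,0)]⟩,⟨0,[(4,0)]⟩⟩,⟨false,0,⟨0,[(2,
  0),(26,0),(4,0)]⟩,⟨1,[(3,0),(2,0),(28,0)]⟩⟩,⟨true,0,⟨0,[(8,0),(24,0)]⟩,⟨0,[(1,0)]⟩⟩,⟨false,0,⟨0,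
  [(7,0),(26,0)]⟩,⟨0,[(3,0)]⟩⟩,⟨false,0,⟨0,[(8,0)]⟩,⟨1,[(1,0),(1,0),(17,0),(14,0)]⟩⟩,[.o ⟨false,0,
  ⟨0,[(33,0)]⟩,⟨1,[(25,0),(8,1),(1,0)]⟩⟩,.a ⟨true,0,⟨0,[(0,0)]⟩,⟨0,[(34,0)]⟩⟩ ⟨true,0,⟨0,[(29,0)]⟩,
  ⟨0,[(38,0)]⟩⟩ ⟨false,1,⟨0,[(3,0),(4,0)]⟩,⟨0,[(4,0),(29,0)]⟩⟩,.o ⟨false,0,⟨0,[(4,0)]⟩,⟨1,[(20,1),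
  (4,0),(9,0)]⟩⟩,.e ⟨false,1,⟨1,[(13,0),(0,0),(21,0)]⟩,⟨0,[]⟩⟩ ⟨false,1,⟨0,[(3,0),(4,0)]⟩,⟨0,[(1,0),
  (5,0)]⟩⟩]⟩) (.R ⟨2,true,false,true,[0,1],[0,0,1],[1,0,1],(⟨0,[]⟩,⟨0,[]⟩),(⟨0,[(23,0)]⟩,⟨0,[(22,
  0)]⟩),⟨0,[]⟩,.k,.k,.k,.k,.k,.k,⟨false,1,⟨1,[(3,0),(2,0),(29,0)]⟩,⟨1,[(0,0),(1,0),(5,0),(8,0),(10,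
  0)]⟩⟩,⟨true,0,⟨0,[(20,0)]⟩,⟨0,[(4,0)]⟩⟩,⟨false,1,⟨0,[(33,0),(2,0)]⟩,⟨0,[(34,0)]⟩⟩,⟨true,0,⟨0,[(8,
  0),(24,0)]⟩,⟨0,[(1,0)]⟩⟩,⟨true,0,⟨0,[]⟩,⟨0,[(38,0)]⟩⟩,⟨false,0,⟨0,[(8,0)]⟩,⟨1,[(1,0),(1,0),(17,0),
  (14,0)]⟩⟩,[]⟩)) (.Q [0,0,0,2,0,0,-1,-1,0,0,-1] (.p false [0,0,1] [] (⟨0,[(22,0)]⟩,⟨0,[(21,0)]⟩)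
  .k 0 (⟨0,[]⟩,⟨0,[]⟩) .k .k) (.Q [0,-1,-2,0,1,0,-1,-1,0,0,-1] (.p false [0,0,1] [] (⟨0,[(23,0)]⟩,
  ⟨0,[(22,0)]⟩) .k 0 (⟨0,[]⟩,⟨0,[]⟩) .k .k) (.R ⟨1,false,false,false,[0,0,1],[0,1],[1,1,1],(⟨0,[(24,
  0)]⟩,⟨0,[(23,0)]⟩),(⟨0,[(28,0)]⟩,⟨0,[(27,0)]⟩),⟨0,[(13,0)]⟩,.k,.k,.k,.k,(.r (-1) ⟨3,[(0,1),(1,1),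
  (0,4),(0,0),(24,0),(6,0)]⟩ ⟨4,[(1,0),(5,7),(0,1),(1,0),(8,0)]⟩),.k,⟨true,0,⟨0,[(34,0)]⟩,⟨1,[(1,0),
  (7,0),(20,1)]⟩⟩,⟨false,1,⟨3,[(11,0),(6,1),(12,0),(4,2)]⟩,⟨0,[(21,0)]⟩⟩,⟨false,0,⟨0,[(6,0)]⟩,⟨0,
  [(8,0),(27,0)]⟩⟩,⟨false,1,⟨5,[(1,3),(2,1),(9,0),(0,0),(6,1),(14,2)]⟩,⟨0,[(2,0)]⟩⟩,⟨false,0,⟨0,[(7,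
  0)]⟩,⟨1,[(3,1),(32,0),(0,0)]⟩⟩,⟨true,0,⟨0,[(1,0)]⟩,⟨0,[(2,0),(31,0)]⟩⟩,[.a ⟨true,0,⟨0,[(35,0)]⟩,
  ⟨0,[(2,0),(3,0),(11,0)]⟩⟩ ⟨false,0,⟨0,[(39,0)]⟩,⟨1,[(36,0),(0,0)]⟩⟩ ⟨true,0,⟨1,[(1,0),(3,1),(3,
  0)]⟩,⟨0,[(2,0),(3,0)]⟩⟩,.o ⟨false,1,⟨5,[(1,2),(7,0),(9,1),(11,1),(5,3)]⟩,⟨0,[(34,0)]⟩⟩,.o ⟨false,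
  1,⟨1,[(21,1),(4,0),(9,0)]⟩,⟨0,[(5,0)]⟩⟩,.e ⟨false,0,⟨0,[]⟩,⟨1,[(14,0),(0,0),(21,0)]⟩⟩ ⟨false,1,
  ⟨15,[(0,1),(0,7),(6,9),(2,2),(19,0),(4,10),(0,1)]⟩,⟨0,[(2,0),(3,0)]⟩⟩]⟩) (.R ⟨1,false,false,false,
  [0,0,1],[0,1],[1,1,1],(⟨0,[(24,0)]⟩,⟨0,[(23,0)]⟩),(⟨0,[(28,0)]⟩,⟨0,[(27,0)]⟩),⟨0,[(13,0)]⟩,.k,.k,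
  .k,.k,(.x 0 ⟨2,[(0,0),(5,0),(14,1),(1,2),(4,5),(1,0),(0,0)]⟩ ⟨0,[(5,0),(7,0),(11,0),(10,0)]⟩),.k,
  ⟨true,0,⟨0,[(34,0)]⟩,⟨1,[(1,0),(7,0),(20,1)]⟩⟩,⟨false,1,⟨3,[(11,0),(6,1),(12,0),(4,2)]⟩,⟨0,[(21,
  0)]⟩⟩,⟨false,0,⟨0,[(6,0)]⟩,⟨0,[(8,0),(27,0)]⟩⟩,⟨false,1,⟨5,[(1,3),(2,1),(9,0),(0,0),(6,1),(14,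
  2)]⟩,⟨0,[(2,0)]⟩⟩,⟨false,0,⟨0,[(7,0)]⟩,⟨1,[(3,1),(32,0),(0,0)]⟩⟩,⟨true,0,⟨0,[(1,0)]⟩,⟨0,[(2,0),
  (31,0)]⟩⟩,[.a ⟨true,0,⟨0,[(35,0)]⟩,⟨0,[(2,0),(3,0),(11,0)]⟩⟩ ⟨false,0,⟨0,[(39,0)]⟩,⟨1,[(36,0),(0,
  0)]⟩⟩ ⟨true,0,⟨1,[(1,0),(3,1),(3,0)]⟩,⟨0,[(2,0),(3,0)]⟩⟩,.o ⟨false,1,⟨5,[(1,2),(7,0),(9,1),(11,1),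
  (5,3)]⟩,⟨0,[(34,0)]⟩⟩,.o ⟨false,1,⟨1,[(21,1),(4,0),(9,0)]⟩,⟨0,[(5,0)]⟩⟩,.e ⟨false,0,⟨0,[]⟩,⟨1,
  [(14,0),(0,0),(21,0)]⟩⟩ ⟨false,1,⟨7,[(1,3),(6,3),(2,0),(6,1),(12,0),(4,4),(0,1)]⟩,⟨0,[(2,0),(3,
  0)]⟩⟩]⟩)) (.I [0,-1,0,0,0,0,0,1] (.Q [0,1,0,0,0,0,1,1,0,-1,1] (.p true [0,0,1] [1] (⟨0,[(24,0)]⟩,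
  ⟨0,[(23,0)]⟩) .k 1 (⟨0,[]⟩,⟨0,[]⟩) .k .k) (.S ⟨1,0,[0,1,0,0,0,0,0,1],[0,0,1],[0,0,0,0,0,0,0,1],
  (⟨0,[(25,0)]⟩,⟨0,[(24,0)]⟩),⟨0,[(14,0)]⟩,.k,.k,⟨false,1,⟨1,[(15,0),(0,0),(21,0)]⟩,⟨0,[]⟩⟩,⟨true,0,
  ⟨0,[(40,0)]⟩,⟨0,[]⟩⟩,⟨true,0,⟨0,[(36,0)]⟩,⟨0,[(35,0)]⟩⟩,⟨false,0,⟨0,[(36,0)]⟩,⟨5,[(2,1),(2,1),(9,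
  0),(0,0),(6,1),(14,2)]⟩⟩,[.o ⟨false,0,⟨0,[(0,0)]⟩,⟨0,[(21,0),(16,0)]⟩⟩,.e ⟨true,0,⟨0,[(1,0)]⟩,⟨0,
  [(8,0),(26,0)]⟩⟩ ⟨true,0,⟨1,[(1,0),(9,0)]⟩,⟨0,[(7,0)]⟩⟩,.o ⟨false,1,⟨1,[(22,1),(4,0),(9,0)]⟩,⟨0,
  [(6,0)]⟩⟩,.a ⟨true,0,⟨0,[(22,0)]⟩,⟨0,[(19,0)]⟩⟩ ⟨false,1,⟨1,[(1,0),(9,0),(25,0),(0,0)]⟩,⟨0,[(7,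
  0)]⟩⟩ ⟨true,0,⟨0,[(1,0),(28,0)]⟩,⟨0,[(7,0)]⟩⟩]⟩) (.Q [0,0,2,0,0,0,1,0,0,-1,1] (.p true [0,0,1]
  [1] (⟨0,[(25,0)]⟩,⟨0,[(24,0)]⟩) .k 1 (⟨0,[]⟩,⟨0,[]⟩) .k .k) (.Q [0,0,0,0,0,-2,0,0,0,0,1] (.p true
  [0,0,1] [] (⟨0,[(26,0)]⟩,⟨0,[(25,0)]⟩) .k 0 (⟨0,[]⟩,⟨0,[]⟩) .k .k) (.I [0,0,-1,-1,0,0,0,2] (.I [0,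
  -1,-2,-1,1,0,0,1] (.Q [0,0,-1,-1,0,0,-1,0,0,1,-1] (.p false [0,0,1] [1] (⟨0,[(29,0)]⟩,⟨0,[(28,
  0)]⟩) .k 1 (⟨0,[]⟩,⟨0,[]⟩) .k .k) (.R ⟨1,false,false,true,[0,-1,1],[1,-1],[0,0,-1,-1,0,0,0,1],(⟨0,
  [(19,0)]⟩,⟨0,[(29,0),(4,0)]⟩),(⟨0,[(33,0)]⟩,⟨0,[(34,0)]⟩),⟨0,[(3,0)]⟩,.k,.k,(.r (-1) ⟨0,[(1,0),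
  (38,0)]⟩ ⟨2,[(13,4),(0,0),(1,0),(24,0)]⟩),.k,.k,.k,⟨true,0,⟨0,[(6,0)]⟩,⟨0,[(13,0),(26,0)]⟩⟩,
  ⟨false,0,⟨0,[(24,0)]⟩,⟨0,[(4,0),(37,0)]⟩⟩,⟨false,1,⟨1,[(20,0),(0,0),(21,0)]⟩,⟨0,[]⟩⟩,⟨false,0,⟨7,
  [(5,6),(7,1),(3,0),(7,0),(9,1),(4,1)]⟩,⟨2,[(15,1),(9,0),(11,0),(5,1)]⟩⟩,⟨true,0,⟨0,[(41,0)]⟩,⟨0,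
  [(40,0)]⟩⟩,⟨false,0,⟨0,[(13,0),(10,0)]⟩,⟨1,[(8,1),(23,0),(10,0)]⟩⟩,[.o ⟨false,0,⟨0,[(40,0)]⟩,⟨1,
  [(32,0),(8,1),(1,0)]⟩⟩,.a ⟨true,0,⟨0,[(0,0),(26,0)]⟩,⟨0,[(41,0)]⟩⟩ ⟨false,1,⟨0,[(1,0)]⟩,⟨0,[(13,
  0),(31,0)]⟩⟩ ⟨true,0,⟨0,[(0,0)]⟩,⟨0,[(4,0),(36,0)]⟩⟩,.e ⟨false,1,⟨15,[(1,8),(5,2),(2,0),(5,4),(11,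
  2),(14,5)]⟩,⟨0,[(13,0)]⟩⟩ ⟨false,0,⟨0,[(0,0)]⟩,⟨2,[(13,2),(1,1),(9,0),(11,0),(5,1)]⟩⟩,.o ⟨false,0,
  ⟨0,[(4,0)]⟩,⟨3,[(17,0),(6,1),(12,0),(4,2)]⟩⟩]⟩) (.R ⟨1,false,false,true,[0,-1,1],[1,-1],[0,0,-1,
  -1,0,0,0,1],(⟨0,[(19,0)]⟩,⟨0,[(29,0),(4,0)]⟩),(⟨0,[(33,0)]⟩,⟨0,[(34,0)]⟩),⟨0,[(3,0)]⟩,.k,.k,(.r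
  (-1) ⟨0,[(1,0),(38,0)]⟩ ⟨2,[(13,4),(0,0),(1,0),(24,0)]⟩),.k,.k,.k,⟨true,0,⟨0,[(6,0)]⟩,⟨0,[(13,0),
  (26,0)]⟩⟩,⟨false,0,⟨0,[(24,0)]⟩,⟨3,[(0,1),(9,1),(14,1),(6,0),(10,0)]⟩⟩,⟨false,1,⟨1,[(20,0),(0,0),
  (21,0)]⟩,⟨0,[]⟩⟩,⟨false,0,⟨7,[(5,6),(7,1),(3,0),(7,0),(9,1),(4,1)]⟩,⟨2,[(15,1),(9,0),(11,0),(5,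
  1)]⟩⟩,⟨true,0,⟨0,[(41,0)]⟩,⟨0,[(40,0)]⟩⟩,⟨false,0,⟨0,[(13,0),(10,0)]⟩,⟨1,[(8,1),(23,0),(10,0)]⟩⟩,
  [.o ⟨false,0,⟨0,[(40,0)]⟩,⟨1,[(32,0),(8,1),(1,0)]⟩⟩,.e ⟨false,1,⟨0,[(1,0)]⟩,⟨0,[(13,0),(31,0)]⟩⟩
  ⟨false,1,⟨2,[(1,0),(8,1),(6,0),(6,1),(0,0)]⟩,⟨0,[(0,0)]⟩⟩,.a ⟨true,0,⟨0,[(27,0)]⟩,⟨0,[(24,0)]⟩⟩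
  ⟨false,1,⟨15,[(1,8),(5,2),(2,0),(5,4),(11,2),(14,5)]⟩,⟨0,[(13,0)]⟩⟩ ⟨true,0,⟨0,[(24,0),(15,0)]⟩,
  ⟨0,[(0,0)]⟩⟩,.o ⟨false,0,⟨0,[(4,0)]⟩,⟨3,[(17,0),(6,1),(12,0),(4,2)]⟩⟩]⟩)) (.S ⟨1,0,[0,1,0,0,0,0,0,
  1],[0,0,1],[1,0,0,-1,0,0,0,1],(⟨0,[(29,0)]⟩,⟨0,[(28,0)]⟩),⟨0,[(18,0)]⟩,.k,.k,⟨false,1,⟨5,[(6,1),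
  (2,1),(9,0),(0,0),(6,1),(14,2)]⟩,⟨0,[(40,0)]⟩⟩,⟨true,0,⟨0,[(44,0)]⟩,⟨0,[]⟩⟩,⟨true,0,⟨0,[]⟩,⟨0,
  [(44,0)]⟩⟩,⟨false,0,⟨0,[(40,0)]⟩,⟨5,[(6,1),(2,1),(9,0),(0,0),(6,1),(14,2)]⟩⟩,[.a ⟨true,0,⟨0,[(24,
  0)]⟩,⟨0,[(4,0)]⟩⟩ ⟨true,0,⟨2,[(1,0),(4,0),(20,0)]⟩,⟨0,[(12,0)]⟩⟩ ⟨false,0,⟨1,[(1,0),(32,0),(5,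
  0)]⟩,⟨1,[(9,0),(2,0),(29,0)]⟩⟩,.a ⟨true,0,⟨0,[(14,0)]⟩,⟨4,[(0,0),(3,3),(4,0),(6,0),(7,0),(9,0)]⟩⟩
  ⟨false,1,⟨4,[(1,2),(7,1),(5,0),(26,2)]⟩,⟨0,[(0,0),(40,0)]⟩⟩ ⟨true,0,⟨1,[(5,0),(9,0)]⟩,⟨0,[(11,
  0)]⟩⟩,.o ⟨false,1,⟨0,[(3,0),(37,0)]⟩,⟨0,[(10,0)]⟩⟩,.a ⟨true,0,⟨0,[(26,0)]⟩,⟨0,[(23,0)]⟩⟩ ⟨false,1,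
  ⟨4,[(1,2),(7,1),(5,0),(26,2)]⟩,⟨0,[(12,0)]⟩⟩ ⟨true,0,⟨1,[(1,0),(32,0),(5,0)]⟩,⟨0,[(11,0)]⟩⟩]⟩))
  (.S ⟨1,0,[0,1,0,0,0,0,0,1],[0,0,1],[1,0,0,-1,0,0,0,1],(⟨0,[(28,0)]⟩,⟨0,[(27,0)]⟩),⟨0,[(17,0)]⟩,.k,
  .k,⟨false,1,⟨5,[(5,1),(2,1),(9,0),(0,0),(6,1),(14,2)]⟩,⟨0,[(39,0)]⟩⟩,⟨true,0,⟨0,[(43,0)]⟩,⟨0,[]⟩⟩,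
  ⟨true,0,⟨0,[]⟩,⟨0,[(43,0)]⟩⟩,⟨false,0,⟨0,[(39,0)]⟩,⟨5,[(5,1),(2,1),(9,0),(0,0),(6,1),(14,2)]⟩⟩,
  [.a ⟨true,0,⟨0,[(23,0)]⟩,⟨0,[(3,0)]⟩⟩ ⟨true,0,⟨0,[(7,0)]⟩,⟨0,[(11,0)]⟩⟩ ⟨false,0,⟨0,[(4,0),(28,
  0)]⟩,⟨1,[(8,0),(2,0),(29,0)]⟩⟩,.a ⟨true,0,⟨0,[(13,0)]⟩,⟨4,[(0,0),(2,3),(11,0),(7,0),(9,0),(4,
  0)]⟩⟩ ⟨false,1,⟨1,[(7,1),(32,0),(0,0)]⟩,⟨1,[(0,0),(32,0),(5,0)]⟩⟩ ⟨true,0,⟨1,[(4,0),(9,0)]⟩,⟨0,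
  [(10,0)]⟩⟩,.o ⟨false,1,⟨0,[(2,0),(37,0)]⟩,⟨0,[(9,0)]⟩⟩,.a ⟨true,0,⟨0,[(25,0)]⟩,⟨0,[(22,0)]⟩⟩
  ⟨false,1,⟨1,[(7,1),(32,0),(0,0)]⟩,⟨0,[(11,0)]⟩⟩ ⟨true,0,⟨0,[(4,0),(28,0)]⟩,⟨0,[(10,0)]⟩⟩]⟩)) (.I
  [1,-1,0,-1,0,0,0,1] (.R ⟨0,false,false,true,[0,-1,1],[1,-1],[],(⟨0,[(17,0)]⟩,⟨0,[(1,0),(29,0)]⟩),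
  (⟨0,[(31,0)]⟩,⟨0,[(32,0)]⟩),⟨0,[(1,0)]⟩,.k,.k,(.r (-1) ⟨4,[(5,2),(1,2),(0,0),(13,2),(12,0),(4,
  2)]⟩ ⟨2,[(11,4),(0,0),(1,0),(24,0)]⟩),.k,.k,.k,⟨true,0,⟨0,[(4,0),(6,0)]⟩,⟨0,[(38,0)]⟩⟩,⟨false,0,
  ⟨0,[(22,0)]⟩,⟨0,[(2,0),(37,0)]⟩⟩,⟨true,0,⟨0,[(11,0)]⟩,⟨0,[(0,0),(32,0)]⟩⟩,⟨false,0,⟨7,[(3,6),(7,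
  1),(3,0),(7,0),(9,1),(4,1)]⟩,⟨2,[(13,1),(9,0),(11,0),(5,1)]⟩⟩,⟨false,0,⟨0,[]⟩,⟨0,[]⟩⟩,⟨false,0,⟨0,
  []⟩,⟨0,[]⟩⟩,[.o ⟨false,0,⟨0,[(38,0)]⟩,⟨1,[(30,0),(8,1),(1,0)]⟩⟩,.a ⟨true,0,⟨2,[(3,2),(1,0),(17,1),
  (14,0)]⟩,⟨0,[(39,0)]⟩⟩ ⟨false,1,⟨1,[(40,0),(0,0)]⟩,⟨0,[(43,0)]⟩⟩ ⟨true,0,⟨0,[(0,0),(2,0),(29,0)]⟩,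
  ⟨0,[(2,0),(36,0)]⟩⟩,.e ⟨false,1,⟨1,[(18,0),(0,0),(21,0)]⟩,⟨0,[]⟩⟩ ⟨false,0,⟨0,[(0,0),(2,0),(29,
  0)]⟩,⟨2,[(11,2),(1,1),(9,0),(11,0),(5,1)]⟩⟩,.o ⟨false,0,⟨0,[(2,0)]⟩,⟨3,[(15,0),(6,1),(12,0),(4,
  2)]⟩⟩]⟩) (.S ⟨1,0,[0,1,0,0,0,0,0,1],[0,0,1],[1,0,0,-1,0,0,0,1],(⟨0,[(28,0)]⟩,⟨0,[(27,0)]⟩),⟨0,
  [(17,0)]⟩,.k,.k,⟨false,1,⟨5,[(5,1),(2,1),(9,0),(0,0),(6,1),(14,2)]⟩,⟨0,[(39,0)]⟩⟩,⟨true,0,⟨0,[(43,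
  0)]⟩,⟨0,[]⟩⟩,⟨true,0,⟨0,[]⟩,⟨0,[(43,0)]⟩⟩,⟨false,0,⟨0,[(39,0)]⟩,⟨5,[(5,1),(2,1),(9,0),(0,0),(6,1),
  (14,2)]⟩⟩,[.a ⟨true,0,⟨0,[(23,0)]⟩,⟨0,[(3,0)]⟩⟩ ⟨true,0,⟨0,[(7,0)]⟩,⟨0,[(11,0)]⟩⟩ ⟨false,0,⟨0,[(4,
  0),(28,0)]⟩,⟨1,[(8,0),(2,0),(29,0)]⟩⟩,.a ⟨true,0,⟨0,[(13,0)]⟩,⟨7,[(3,6),(7,1),(3,0),(7,0),(9,1),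
  (4,1)]⟩⟩ ⟨false,1,⟨1,[(7,1),(32,0),(0,0)]⟩,⟨0,[(0,0)]⟩⟩ ⟨true,0,⟨1,[(4,0),(9,0)]⟩,⟨0,[(10,0)]⟩⟩,
  .o ⟨false,1,⟨0,[(2,0),(37,0)]⟩,⟨0,[(9,0)]⟩⟩,.a ⟨true,0,⟨0,[(25,0)]⟩,⟨0,[(22,0)]⟩⟩ ⟨false,1,⟨1,[(7,
  1),(32,0),(0,0)]⟩,⟨0,[(11,0)]⟩⟩ ⟨true,0,⟨0,[(4,0),(28,0)]⟩,⟨0,[(10,0)]⟩⟩]⟩))) (.I [0,-1,-1,-1,0,0,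
  0,2] (.R ⟨1,false,false,true,[0,0,1],[1,1,-1],[0,0,0,0,0,0,0,1],(⟨0,[(27,0)]⟩,⟨0,[(26,0)]⟩),(⟨0,
  [(26,0),(4,0)]⟩,⟨0,[(16,0)]⟩),⟨0,[(16,0)]⟩,.k,.k,.k,(.r 0 ⟨5,[(0,4),(12,1),(18,0),(4,0)]⟩ ⟨1,[(7,
  0),(2,2),(6,0),(0,0)]⟩),(.r (-1) ⟨0,[(0,0),(6,0),(5,0)]⟩ ⟨0,[(10,1)]⟩),.k,⟨true,0,⟨0,[(0,0)]⟩,⟨0,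
  [(10,1),(26,0)]⟩⟩,⟨false,0,⟨0,[(1,0),(6,0)]⟩,⟨1,[(24,3),(4,0),(9,0)]⟩⟩,⟨false,1,⟨1,[(17,0),(0,0),
  (21,0)]⟩,⟨0,[]⟩⟩,⟨false,0,⟨0,[(2,0),(20,0),(14,0)]⟩,⟨2,[(5,2),(6,1),(9,0),(11,0),(5,1)]⟩⟩,⟨true,0,
  ⟨0,[(38,0)]⟩,⟨0,[(37,0)]⟩⟩,⟨false,0,⟨0,[(2,0),(20,0),(14,1)]⟩,⟨1,[(5,3),(23,0),(10,0)]⟩⟩,[.o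
  ⟨false,0,⟨0,[(23,0),(14,0)]⟩,⟨1,[(5,1),(23,0),(10,0)]⟩⟩,.a ⟨true,0,⟨0,[(10,0),(10,0)]⟩,⟨0,[(5,
  0)]⟩⟩ ⟨true,0,⟨0,[(3,0)]⟩,⟨0,[(10,0),(26,0)]⟩⟩ ⟨false,0,⟨1,[(1,0),(0,0),(5,0),(14,0),(14,1)]⟩,⟨1,
  [(5,0),(1,0),(4,1),(11,0),(4,0)]⟩⟩,.o ⟨false,1,⟨1,[(24,1),(4,0),(9,0)]⟩,⟨0,[(8,0)]⟩⟩,.e ⟨false,1,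
  ⟨7,[(0,1),(12,3),(24,1),(0,2),(0,4)]⟩,⟨0,[(9,0)]⟩⟩ ⟨false,0,⟨1,[(1,0),(0,0),(5,0),(14,0),(14,1)]⟩,
  ⟨1,[(5,1),(18,1),(4,0),(10,0)]⟩⟩]⟩) (.Q [0,0,-2,-1,0,0,-1,0,0,1,-1] (.p false [0,0,1] [1] (⟨0,
  [(27,0)]⟩,⟨0,[(26,0)]⟩) .k 1 (⟨0,[]⟩,⟨0,[]⟩) .k .k) (.Q [0,0,0,0,0,-2,0,0,0,0,1] (.p true [0,0,1]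
  [] (⟨0,[(28,0)]⟩,⟨0,[(27,0)]⟩) .k 0 (⟨0,[]⟩,⟨0,[]⟩) .k .k) (.I [0,1,-1,-1,0,0,0,1] (.R ⟨1,false,
  false,true,[0,-1,1],[1,-1],[0,1,-1,-1,0,0,0,1],(⟨0,[(19,0)]⟩,⟨0,[(29,0),(4,0)]⟩),(⟨0,[(33,0)]⟩,⟨0,
  [(34,0)]⟩),⟨0,[(1,0)]⟩,.k,.k,(.r (-1) ⟨27,[(0,29),(1,5),(4,5),(2,7),(26,1),(4,2),(0,14)]⟩ ⟨2,[(13,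
  4),(0,0),(1,0),(24,0)]⟩),.k,.k,.k,⟨true,0,⟨1,[(6,0),(9,0)]⟩,⟨0,[(12,0)]⟩⟩,⟨false,0,⟨0,[(24,0)]⟩,
  ⟨8,[(3,0),(6,0),(14,2),(1,5),(9,2),(4,2),(0,1)]⟩⟩,⟨true,0,⟨5,[(3,0),(12,1),(18,0),(4,0)]⟩,⟨0,[]⟩⟩,
  ⟨false,0,⟨7,[(3,1),(1,4),(11,0),(6,1),(0,0),(14,1)]⟩,⟨2,[(15,1),(9,0),(11,0),(5,1)]⟩⟩,⟨false,0,⟨0,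
  [(41,0)]⟩,⟨5,[(7,1),(2,1),(9,0),(0,0),(6,1),(14,2)]⟩⟩,⟨false,0,⟨0,[(13,0),(10,0)]⟩,⟨1,[(8,1),(23,
  0),(10,0)]⟩⟩,[.o ⟨false,0,⟨0,[(40,0)]⟩,⟨1,[(32,0),(8,1),(1,0)]⟩⟩,.e ⟨false,1,⟨1,[(0,1),(41,0),(0,
  0)]⟩,⟨0,[(13,0)]⟩⟩ ⟨false,0,⟨0,[(2,0)]⟩,⟨1,[(13,1),(11,1),(6,0),(10,0)]⟩⟩,.a ⟨true,0,⟨0,[(27,0)]⟩,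
  ⟨0,[(24,0)]⟩⟩ ⟨true,0,⟨0,[(0,0)]⟩,⟨0,[(13,0)]⟩⟩ ⟨false,0,⟨4,[(2,1),(2,0),(1,0),(9,0),(6,0),(15,
  0)]⟩,⟨2,[(13,2),(1,1),(9,0),(11,0),(5,1)]⟩⟩,.e ⟨false,1,⟨1,[(0,1),(41,0),(0,0)]⟩,⟨0,[(13,0),(22,
  0)]⟩⟩ ⟨false,0,⟨0,[(2,0)]⟩,⟨1,[(13,1),(0,0),(10,0),(1,0),(4,0),(10,0)]⟩⟩]⟩) (.S ⟨1,0,[0,1,0,0,0,0,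
  0,1],[0,0,1],[1,0,0,-1,0,0,0,1],(⟨0,[(30,0)]⟩,⟨0,[(29,0)]⟩),⟨0,[(19,0)]⟩,.k,.k,⟨false,1,⟨5,[(7,1),
  (2,1),(9,0),(0,0),(6,1),(14,2)]⟩,⟨0,[(41,0)]⟩⟩,⟨true,0,⟨5,[(3,0),(12,1),(18,0),(4,0)]⟩,⟨0,[]⟩⟩,
  ⟨true,0,⟨0,[]⟩,⟨5,[(3,0),(12,1),(18,0),(4,0)]⟩⟩,⟨false,0,⟨0,[(41,0)]⟩,⟨5,[(7,1),(2,1),(9,0),(0,0),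
  (6,1),(14,2)]⟩⟩,[.a ⟨true,0,⟨0,[(25,0)]⟩,⟨0,[(5,0)]⟩⟩ ⟨true,0,⟨0,[(9,0)]⟩,⟨0,[(13,0)]⟩⟩ ⟨false,0,
  ⟨0,[(6,0),(28,0)]⟩,⟨2,[(3,0),(6,0),(32,1)]⟩⟩,.a ⟨true,0,⟨0,[(15,0)]⟩,⟨7,[(3,1),(1,4),(11,0),(6,1),
  (0,0),(14,1)]⟩⟩ ⟨false,1,⟨1,[(9,1),(32,0),(0,0)]⟩,⟨0,[(0,0),(34,0)]⟩⟩ ⟨true,0,⟨1,[(6,0),(9,0)]⟩,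
  ⟨0,[(12,0)]⟩⟩,.o ⟨false,1,⟨8,[(3,0),(6,0),(14,2),(1,5),(9,2),(4,2),(0,1)]⟩,⟨0,[(11,0)]⟩⟩,.a ⟨true,
  0,⟨0,[(27,0)]⟩,⟨0,[(24,0)]⟩⟩ ⟨false,1,⟨1,[(9,1),(32,0),(0,0)]⟩,⟨0,[(13,0)]⟩⟩ ⟨true,0,⟨0,[(6,0),
  (28,0)]⟩,⟨0,[(12,0)]⟩⟩]⟩)) (.I [1,1,1,0,0,0,0,-2] (.I [0,0,-1,-1,0,0,0,2] (.R ⟨1,false,false,true,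
  [0,0,1],[1,0,-1],[0,0,0,0,0,0,0,1],(⟨0,[(31,0)]⟩,⟨0,[(30,0)]⟩),(⟨0,[(30,0)]⟩,⟨0,[(31,0)]⟩),⟨0,
  [(20,0)]⟩,.k,.k,.k,.k,(.r 0 ⟨0,[(0,0)]⟩ ⟨1,[(4,1),(16,0),(0,0),(21,0)]⟩),.k,⟨true,0,⟨1,[(7,2),(9,
  0)]⟩,⟨0,[(1,0)]⟩⟩,⟨false,0,⟨1,[(5,0),(6,0),(5,0)]⟩,⟨0,[(5,1),(3,0),(4,0),(13,2),(9,0)]⟩⟩,⟨false,1,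
  ⟨1,[(21,0),(0,0),(21,0)]⟩,⟨0,[]⟩⟩,⟨false,0,⟨0,[(6,0),(20,0)]⟩,⟨2,[(16,4),(9,0),(11,0),(5,1)]⟩⟩,
  ⟨true,0,⟨0,[(42,0)]⟩,⟨0,[(41,0)]⟩⟩,⟨false,0,⟨0,[(6,0),(20,0),(14,0)]⟩,⟨2,[(9,2),(6,1),(9,0),(11,
  0),(5,1)]⟩⟩,[.o ⟨false,0,⟨0,[(27,0)]⟩,⟨2,[(16,1),(9,0),(11,0),(5,1)]⟩⟩,.a ⟨true,0,⟨5,[(1,1),(4,2),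
  (11,0),(6,1),(0,0)]⟩,⟨0,[(16,0)]⟩⟩ ⟨true,0,⟨0,[(7,0)]⟩,⟨2,[(1,1),(24,0),(2,0)]⟩⟩ ⟨false,0,⟨1,[(5,
  0),(0,0),(5,0),(14,0)]⟩,⟨5,[(16,3),(9,1),(1,5),(9,1),(4,2),(0,0)]⟩⟩,.o ⟨false,1,⟨8,[(4,0),(6,0),
  (14,2),(1,5),(9,2),(4,2),(0,1)]⟩,⟨0,[(12,0)]⟩⟩,.e ⟨false,1,⟨2,[(0,0),(16,0),(24,0),(0,0),(0,1)]⟩,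
  ⟨0,[(13,0)]⟩⟩ ⟨false,0,⟨1,[(5,0),(0,0),(5,0),(14,0)]⟩,⟨2,[(16,1),(9,0),(1,2),(9,0),(5,1)]⟩⟩]⟩)
  (.R ⟨1,false,false,true,[0,0,1],[1,0,-1],[0,0,0,0,0,0,0,1],(⟨0,[(31,0)]⟩,⟨0,[(30,0)]⟩),(⟨0,[(30,
  0)]⟩,⟨0,[(31,0)]⟩),⟨0,[(20,0)]⟩,.k,.k,.k,.k,(.x 0 ⟨0,[(0,0),(1,1),(5,1),(23,2),(9,2)]⟩ ⟨1,[(18,1),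
  (1,1),(10,1),(1,0),(9,0)]⟩),.k,⟨true,0,⟨1,[(7,2),(9,0)]⟩,⟨0,[(1,0)]⟩⟩,⟨false,0,⟨1,[(5,0),(6,0),(5,
  0)]⟩,⟨2,[(0,1),(8,0),(1,0),(4,3),(11,0),(9,0),(4,0)]⟩⟩,⟨false,1,⟨1,[(21,0),(0,0),(21,0)]⟩,⟨0,[]⟩⟩,
  ⟨false,0,⟨0,[(6,0),(20,0)]⟩,⟨2,[(16,4),(9,0),(11,0),(5,1)]⟩⟩,⟨true,0,⟨0,[(42,0)]⟩,⟨0,[(41,0)]⟩⟩,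
  ⟨false,0,⟨1,[(0,1),(4,0),(6,0),(5,0)]⟩,⟨2,[(9,2),(6,1),(9,0),(11,0),(5,1)]⟩⟩,[.o ⟨false,0,⟨0,[(27,
  0)]⟩,⟨2,[(16,1),(9,0),(11,0),(5,1)]⟩⟩,.a ⟨true,0,⟨5,[(1,1),(4,2),(11,0),(6,1),(0,0)]⟩,⟨0,[(16,
  0)]⟩⟩ ⟨true,0,⟨0,[(7,0)]⟩,⟨2,[(1,1),(24,0),(2,0)]⟩⟩ ⟨false,0,⟨1,[(5,0),(0,0),(5,0),(14,0)]⟩,⟨5,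
  [(16,3),(9,1),(1,5),(9,1),(4,2),(0,0)]⟩⟩,.o ⟨false,1,⟨8,[(4,0),(6,0),(14,2),(1,5),(9,2),(4,2),(0,
  1)]⟩,⟨0,[(12,0)]⟩⟩,.e ⟨false,1,⟨1,[(7,0),(9,0),(25,0),(0,0)]⟩,⟨0,[(13,0)]⟩⟩ ⟨false,0,⟨1,[(5,0),(0,
  0),(5,0),(14,0)]⟩,⟨2,[(16,1),(9,0),(1,2),(9,0),(5,1)]⟩⟩]⟩)) (.R ⟨0,false,false,true,[0,-1,1],[1,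
  -1],[1],(⟨0,[(19,0)]⟩,⟨1,[(1,0),(3,0),(19,0),(3,0)]⟩),(⟨0,[(33,0)]⟩,⟨0,[(34,0)]⟩),⟨0,[(1,0)]⟩,.k,
  .k,(.r (-1) ⟨13,[(2,2),(4,2),(1,14),(0,3),(26,0),(4,8)]⟩ ⟨2,[(13,4),(0,0),(1,0),(24,0)]⟩),.k,.k,
  .k,⟨true,0,⟨1,[(0,0),(12,1),(22,0)]⟩,⟨0,[(40,0)]⟩⟩,⟨false,0,⟨0,[(24,0)]⟩,⟨8,[(3,0),(6,0),(14,2),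
  (1,5),(9,2),(4,2),(0,1)]⟩⟩,⟨true,0,⟨0,[(13,0)]⟩,⟨1,[(0,0),(6,0),(18,0),(8,0)]⟩⟩,⟨false,0,⟨7,[(3,
  1),(1,4),(11,0),(6,1),(0,0),(14,1)]⟩,⟨2,[(15,1),(9,0),(11,0),(5,1)]⟩⟩,⟨false,0,⟨0,[]⟩,⟨0,[]⟩⟩,
  ⟨false,0,⟨0,[]⟩,⟨0,[]⟩⟩,[.o ⟨false,0,⟨0,[(40,0)]⟩,⟨1,[(32,0),(8,1),(1,0)]⟩⟩,.e ⟨false,1,⟨1,[(42,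
  0),(0,0)]⟩,⟨5,[(3,0),(12,1),(18,0),(4,0)]⟩⟩ ⟨false,0,⟨0,[(2,0)]⟩,⟨1,[(13,1),(11,1),(6,0),(10,
  0)]⟩⟩,.a ⟨true,0,⟨0,[(27,0)]⟩,⟨0,[(24,0)]⟩⟩ ⟨true,0,⟨0,[]⟩,⟨5,[(3,0),(12,1),(18,0),(4,0)]⟩⟩
  ⟨false,0,⟨4,[(2,1),(2,0),(1,0),(9,0),(6,0),(15,0)]⟩,⟨2,[(13,2),(1,1),(9,0),(11,0),(5,1)]⟩⟩,.e
  ⟨false,1,⟨1,[(42,0),(0,0)]⟩,⟨1,[(27,0),(0,0)]⟩⟩ ⟨false,0,⟨0,[(2,0)]⟩,⟨1,[(13,1),(0,0),(10,0),(1,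
  0),(4,0),(10,0)]⟩⟩]⟩))) (.Q [0,0,0,0,0,-2,0,0,0,0,1] (.p true [0,0,1] [] (⟨0,[(28,0)]⟩,⟨0,[(27,
  0)]⟩) .k 0 (⟨0,[]⟩,⟨0,[]⟩) .k .k) (.I [0,1,-1,-1,0,0,0,1] (.R ⟨1,false,false,true,[0,-1,1],[1,-1],
  [0,1,-1,-1,0,0,0,1],(⟨0,[(19,0)]⟩,⟨0,[(29,0),(4,0)]⟩),(⟨0,[(33,0)]⟩,⟨0,[(34,0)]⟩),⟨0,[(1,0)]⟩,.k,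
  .k,(.r (-1) ⟨10,[(0,11),(3,2),(2,2),(2,3),(26,0),(5,5)]⟩ ⟨4,[(2,0),(10,6),(0,0),(2,0),(7,0),(15,
  1)]⟩),.k,.k,.k,⟨true,0,⟨1,[(6,0),(9,0)]⟩,⟨0,[(12,0)]⟩⟩,⟨false,0,⟨0,[(24,0)]⟩,⟨11,[(2,5),(7,5),(4,
  3),(9,1),(11,1),(4,2),(0,0)]⟩⟩,⟨true,0,⟨5,[(3,0),(12,1),(18,0),(4,0)]⟩,⟨0,[]⟩⟩,⟨false,0,⟨7,[(3,1),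
  (1,4),(11,0),(6,1),(0,0),(14,1)]⟩,⟨2,[(15,1),(9,0),(11,0),(5,1)]⟩⟩,⟨false,0,⟨0,[(41,0)]⟩,⟨5,[(7,
  1),(2,1),(9,0),(0,0),(6,1),(14,2)]⟩⟩,⟨false,0,⟨0,[(13,0),(10,0)]⟩,⟨1,[(8,1),(23,0),(10,0)]⟩⟩,[.o
  ⟨false,0,⟨0,[(40,0)]⟩,⟨1,[(32,0),(8,1),(1,0)]⟩⟩,.a ⟨true,0,⟨2,[(5,2),(1,0),(17,1),(14,0)]⟩,⟨0,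
  [(41,0)]⟩⟩ ⟨false,1,⟨1,[(0,1),(41,0),(0,0)]⟩,⟨0,[(13,0)]⟩⟩ ⟨true,0,⟨0,[(0,0),(4,0)]⟩,⟨0,[(2,0)]⟩⟩,
  .a ⟨true,0,⟨0,[(27,0)]⟩,⟨0,[(24,0)]⟩⟩ ⟨true,0,⟨0,[(0,0)]⟩,⟨0,[(13,0)]⟩⟩ ⟨false,0,⟨0,[(0,0),(4,
  0)]⟩,⟨1,[(2,1),(39,0),(0,0)]⟩⟩,.a ⟨true,0,⟨1,[(27,2),(0,0)]⟩,⟨0,[(4,0)]⟩⟩ ⟨false,1,⟨1,[(0,1),(41,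
  0),(0,0)]⟩,⟨0,[(13,0),(22,0)]⟩⟩ ⟨true,0,⟨0,[(4,0),(35,0)]⟩,⟨0,[(2,0)]⟩⟩]⟩) (.S ⟨1,0,[0,1,0,0,0,0,
  0,1],[0,0,1],[1,0,0,-1,0,0,0,1],(⟨0,[(30,0)]⟩,⟨0,[(29,0)]⟩),⟨0,[(19,0)]⟩,.k,.k,⟨false,1,⟨5,[(7,1),
  (2,1),(9,0),(0,0),(6,1),(14,2)]⟩,⟨0,[(41,0)]⟩⟩,⟨true,0,⟨5,[(3,0),(12,1),(18,0),(4,0)]⟩,⟨0,[]⟩⟩,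
  ⟨true,0,⟨0,[]⟩,⟨5,[(3,0),(12,1),(18,0),(4,0)]⟩⟩,⟨false,0,⟨0,[(41,0)]⟩,⟨5,[(7,1),(2,1),(9,0),(0,0),
  (6,1),(14,2)]⟩⟩,[.a ⟨true,0,⟨0,[(25,0)]⟩,⟨0,[(5,0)]⟩⟩ ⟨true,0,⟨0,[(9,0)]⟩,⟨0,[(13,0)]⟩⟩ ⟨false,0,
  ⟨0,[(6,0),(28,0)]⟩,⟨2,[(3,0),(6,0),(32,1)]⟩⟩,.a ⟨true,0,⟨0,[(15,0)]⟩,⟨7,[(3,1),(1,4),(11,0),(6,1),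
  (0,0),(14,1)]⟩⟩ ⟨false,1,⟨1,[(9,1),(32,0),(0,0)]⟩,⟨0,[(0,0),(34,0)]⟩⟩ ⟨true,0,⟨1,[(6,0),(9,0)]⟩,
  ⟨0,[(12,0)]⟩⟩,.o ⟨false,1,⟨11,[(2,5),(7,5),(4,3),(9,1),(11,1),(4,2),(0,0)]⟩,⟨0,[(11,0)]⟩⟩,.a
  ⟨true,0,⟨0,[(27,0)]⟩,⟨0,[(24,0)]⟩⟩ ⟨false,1,⟨1,[(9,1),(32,0),(0,0)]⟩,⟨0,[(13,0)]⟩⟩ ⟨true,0,⟨0,[(6,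
  0),(28,0)]⟩,⟨0,[(12,0)]⟩⟩]⟩)) (.I [0,1,-1,-1,0,0,0,1] (.R ⟨0,false,false,true,[0,-1,1],[1,-1],[1],
  (⟨0,[(19,0)]⟩,⟨1,[(1,0),(3,0),(19,0),(3,0)]⟩),(⟨0,[(33,0)]⟩,⟨0,[(34,0)]⟩),⟨0,[(1,0)]⟩,.k,.k,(.r
  (-1) ⟨10,[(0,11),(3,2),(2,2),(2,3),(26,0),(5,5)]⟩ ⟨4,[(2,0),(10,6),(0,0),(2,0),(7,0),(15,1)]⟩),.k,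
  .k,.k,⟨true,0,⟨0,[(6,0),(6,0)]⟩,⟨0,[(40,0)]⟩⟩,⟨false,0,⟨0,[(24,0)]⟩,⟨11,[(2,5),(7,5),(4,3),(9,1),
  (11,1),(4,2),(0,0)]⟩⟩,⟨true,0,⟨0,[(13,0)]⟩,⟨0,[(0,0)]⟩⟩,⟨false,0,⟨7,[(3,1),(1,4),(11,0),(6,1),(0,
  0),(14,1)]⟩,⟨2,[(15,1),(9,0),(11,0),(5,1)]⟩⟩,⟨false,0,⟨0,[]⟩,⟨0,[]⟩⟩,⟨false,0,⟨0,[]⟩,⟨0,[]⟩⟩,[.o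
  ⟨false,0,⟨0,[(40,0)]⟩,⟨1,[(32,0),(8,1),(1,0)]⟩⟩,.a ⟨true,0,⟨2,[(5,2),(1,0),(17,1),(14,0)]⟩,⟨0,
  [(41,0)]⟩⟩ ⟨false,1,⟨1,[(42,0),(0,0)]⟩,⟨5,[(3,0),(12,1),(18,0),(4,0)]⟩⟩ ⟨true,0,⟨0,[(0,0),(4,0)]⟩,
  ⟨0,[(2,0)]⟩⟩,.a ⟨true,0,⟨0,[(27,0)]⟩,⟨0,[(24,0)]⟩⟩ ⟨true,0,⟨0,[]⟩,⟨5,[(3,0),(12,1),(18,0),(4,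
  0)]⟩⟩ ⟨false,0,⟨0,[(0,0),(4,0)]⟩,⟨1,[(2,1),(39,0),(0,0)]⟩⟩,.a ⟨true,0,⟨1,[(27,2),(0,0)]⟩,⟨0,[(4,
  0)]⟩⟩ ⟨false,1,⟨1,[(42,0),(0,0)]⟩,⟨1,[(27,0),(0,0)]⟩⟩ ⟨true,0,⟨0,[(4,0),(35,0)]⟩,⟨0,[(2,0)]⟩⟩]⟩)
  (.S ⟨1,0,[0,1,0,0,0,0,0,1],[0,0,1],[1,0,0,-1,0,0,0,1],(⟨0,[(30,0)]⟩,⟨0,[(29,0)]⟩),⟨0,[(19,0)]⟩,.k,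
  .k,⟨false,1,⟨5,[(7,1),(2,1),(9,0),(0,0),(6,1),(14,2)]⟩,⟨0,[(41,0)]⟩⟩,⟨true,0,⟨5,[(3,0),(12,1),(18,
  0),(4,0)]⟩,⟨0,[]⟩⟩,⟨true,0,⟨0,[]⟩,⟨5,[(3,0),(12,1),(18,0),(4,0)]⟩⟩,⟨false,0,⟨0,[(41,0)]⟩,⟨5,[(7,
  1),(2,1),(9,0),(0,0),(6,1),(14,2)]⟩⟩,[.a ⟨true,0,⟨0,[(25,0)]⟩,⟨0,[(5,0)]⟩⟩ ⟨true,0,⟨0,[(9,0)]⟩,⟨0,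
  [(13,0)]⟩⟩ ⟨false,0,⟨0,[(6,0),(28,0)]⟩,⟨2,[(3,0),(6,0),(32,1)]⟩⟩,.a ⟨true,0,⟨0,[(15,0)]⟩,⟨7,[(3,
  1),(1,4),(11,0),(6,1),(0,0),(14,1)]⟩⟩ ⟨false,1,⟨1,[(9,1),(32,0),(0,0)]⟩,⟨0,[(0,0),(34,0)]⟩⟩ ⟨true,
  0,⟨1,[(6,0),(9,0)]⟩,⟨0,[(12,0)]⟩⟩,.o ⟨false,1,⟨11,[(2,5),(7,5),(4,3),(9,1),(11,1),(4,2),(0,0)]⟩,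
  ⟨0,[(11,0)]⟩⟩,.a ⟨true,0,⟨0,[(27,0)]⟩,⟨0,[(24,0)]⟩⟩ ⟨false,1,⟨1,[(9,1),(32,0),(0,0)]⟩,⟨0,[(13,
  0)]⟩⟩ ⟨true,0,⟨0,[(6,0),(28,0)]⟩,⟨0,[(12,0)]⟩⟩]⟩))))))) (.I [1,1,1,0,-1,0,0,1] (.Q [0,0,-1,0,1,0,
  1,0,0,-1,1] (.p true [0,0,1] [1] (⟨0,[(25,0)]⟩,⟨0,[(24,0)]⟩) .k 1 (⟨0,[]⟩,⟨0,[]⟩) .k .k) (.S ⟨1,0,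
  [0,1,0,0,0,0,0,-1],[1,0,-1],[1,0,0,-1,0,0,0,-1],(⟨0,[(25,0)]⟩,⟨0,[(26,0)]⟩),⟨0,[(14,0)]⟩,.k,.k,
  ⟨false,1,⟨5,[(3,1),(2,1),(9,0),(0,0),(6,1),(14,2)]⟩,⟨0,[(37,0)]⟩⟩,⟨true,0,⟨0,[(41,0)]⟩,⟨0,[]⟩⟩,
  ⟨true,0,⟨0,[]⟩,⟨0,[(41,0)]⟩⟩,⟨false,0,⟨0,[(37,0)]⟩,⟨5,[(3,1),(2,1),(9,0),(0,0),(6,1),(14,2)]⟩⟩,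
  [.o ⟨false,0,⟨0,[(22,0)]⟩,⟨2,[(11,1),(9,0),(11,0),(5,1)]⟩⟩,.a ⟨true,0,⟨0,[(8,0),(11,0)]⟩,⟨0,[(11,
  0)]⟩⟩ ⟨true,1,⟨0,[(6,0),(25,0)]⟩,⟨0,[(1,0),(35,0)]⟩⟩ ⟨false,1,⟨1,[(6,0),(2,0),(28,0)]⟩,⟨1,[(1,0),
  (8,0),(27,0)]⟩⟩,.o ⟨false,0,⟨0,[(7,0)]⟩,⟨3,[(0,1),(15,0),(0,0),(5,1),(4,0)]⟩⟩,.o ⟨false,0,⟨0,[(24,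
  0)]⟩,⟨0,[(0,0)]⟩⟩]⟩) (.Q [0,0,0,0,0,0,0,0,-1,1,0,-1] (.p false [0,0,0,0,1] [1] (⟨0,[(19,0)]⟩,⟨0,
  [(18,0)]⟩) .k 1 (⟨0,[]⟩,⟨0,[]⟩) .k .k) (.Q [-1,0,0,2,0,0,0,0,-1,0,0,-1] (.p false [0,0,0,0,1] []
  (⟨0,[(20,0)]⟩,⟨0,[(19,0)]⟩) .k 0 (⟨0,[]⟩,⟨0,[]⟩) .k .k) (.Q [-1,0,0,-1,0,0,1,1,-1,0,1,-1] (.p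
  true [0,0,1] [0,0,0,0,1] (⟨0,[(28,0)]⟩,⟨0,[(27,0)]⟩) .k 2 (⟨0,[(21,0)]⟩,⟨0,[(20,0)]⟩) .k (.r 0 ⟨1,
  [(2,2),(1,0),(0,2),(28,0),(0,0),(3,5),(0,1)]⟩ ⟨1,[(8,0),(2,0),(6,0),(0,0)]⟩)) (.Q [0,0,0,0,0,-1,0,
  0,0,0,0,1] (.ed false [1,-1,0,0,1] .k) (.S ⟨1,0,[1],[0,0,0,0,1],[1,1],(⟨0,[(23,0)]⟩,⟨0,[(22,0)]⟩),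
  ⟨0,[(0,0)]⟩,.k,(.r (-1) ⟨5,[(9,1),(0,3),(5,1),(25,0),(0,0)]⟩ ⟨2,[(13,1),(0,0),(1,0),(24,0)]⟩),
  ⟨true,0,⟨0,[(45,0)]⟩,⟨0,[]⟩⟩,⟨false,1,⟨1,[(20,0),(0,0),(21,0)]⟩,⟨0,[]⟩⟩,⟨false,0,⟨0,[(41,0)]⟩,⟨5,
  [(7,1),(2,1),(9,0),(0,0),(6,1),(14,2)]⟩⟩,⟨true,0,⟨0,[(41,0)]⟩,⟨0,[(40,0)]⟩⟩,[.e ⟨true,0,⟨0,[(45,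
  0)]⟩,⟨0,[(36,0)]⟩⟩ ⟨true,0,⟨0,[]⟩,⟨1,[(27,0),(0,0)]⟩⟩,.o ⟨false,1,⟨1,[(21,1),(10,0),(10,0)]⟩,⟨9,
  [(1,5),(0,2),(2,0),(0,0),(13,0),(5,5),(8,0)]⟩⟩,.a ⟨true,0,⟨0,[(21,0)]⟩,⟨0,[(3,0)]⟩⟩ ⟨false,0,⟨0,
  []⟩,⟨1,[(20,0),(0,0),(21,0)]⟩⟩ ⟨true,0,⟨0,[]⟩,⟨0,[(45,0)]⟩⟩,.o ⟨false,0,⟨2,[(5,0),(6,0),(8,2),(14,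
  0),(0,0)]⟩,⟨3,[(3,2),(16,0),(16,0),(4,1)]⟩⟩]⟩) (.S ⟨1,0,[-1,1],[1,0,0,0,-1],[-1],(⟨0,[(22,0)]⟩,⟨0,
  [(23,0)]⟩),⟨0,[(0,0),(17,0),(0,0)]⟩,.k,(.r (-1) ⟨45,[(7,7),(2,19),(5,11),(0,3),(14,1),(7,9),(1,
  12),(0,10)]⟩ ⟨2,[(13,1),(0,0),(1,0),(24,0)]⟩),⟨false,1,⟨1,[(20,0),(0,0),(21,0)]⟩,⟨0,[]⟩⟩,⟨true,0,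
  ⟨0,[(45,0)]⟩,⟨0,[]⟩⟩,⟨true,0,⟨0,[(41,0)]⟩,⟨0,[(40,0)]⟩⟩,⟨false,0,⟨0,[(41,0)]⟩,⟨5,[(7,1),(2,1),(9,
  0),(0,0),(6,1),(14,2)]⟩⟩,[.o ⟨false,0,⟨9,[(1,5),(0,2),(2,0),(0,0),(13,0),(5,5),(8,0)]⟩,⟨1,[(21,1),
  (10,0),(10,0)]⟩⟩,.e ⟨false,1,⟨0,[(36,0),(5,0)]⟩,⟨0,[(45,0)]⟩⟩ ⟨false,1,⟨9,[(20,3),(0,3),(20,4),(0,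
  0),(1,1)]⟩,⟨0,[]⟩⟩,.a ⟨true,0,⟨0,[(3,0)]⟩,⟨0,[(21,0)]⟩⟩ ⟨false,1,⟨4,[(20,1),(0,1),(21,2),(1,0)]⟩,
  ⟨0,[]⟩⟩ ⟨true,0,⟨0,[(45,0)]⟩,⟨0,[]⟩⟩,.o ⟨false,0,⟨7,[(1,3),(0,1),(0,1),(0,0),(7,3),(15,2),(8,0)]⟩,
  ⟨1,[(21,1),(10,0),(9,0)]⟩⟩]⟩)) (.R ⟨1,true,false,true,[0,0,1],[0,0,0,0,1],[0,0,0,0,0,0,0,1],(⟨0,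
  [(29,0)]⟩,⟨0,[(28,0)]⟩),(⟨0,[(22,0)]⟩,⟨0,[(21,0)]⟩),⟨0,[(18,0)]⟩,.k,.k,.k,.k,(.r (-1) ⟨2,[(8,1),
  (0,0),(5,1),(25,0),(0,0)]⟩ ⟨0,[(12,0)]⟩),.k,⟨false,1,⟨1,[(3,2),(1,0),(0,2),(28,2),(0,0),(3,5),(0,
  3)]⟩,⟨0,[(5,0)]⟩⟩,⟨true,0,⟨0,[(10,0),(9,0)]⟩,⟨0,[(1,0),(4,0),(4,0)]⟩⟩,⟨false,1,⟨1,[(19,0),(0,0),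
  (21,0)]⟩,⟨0,[]⟩⟩,⟨true,0,⟨0,[(0,0),(38,0)]⟩,⟨0,[(1,0),(4,0)]⟩⟩,⟨true,0,⟨0,[(40,0)]⟩,⟨0,[(39,0)]⟩⟩,
  ⟨false,0,⟨0,[(0,0)]⟩,⟨1,[(1,0),(4,1),(12,0),(22,0)]⟩⟩,[]⟩)) (.Q [0,0,0,0,0,-1,0,0,0,1,0,-1] (.ed
  true [0,1,0,0,1] .k) (.R ⟨1,false,false,true,[1,0,0,0,-1],[1,-1],[-1],(⟨0,[(21,0)]⟩,⟨0,[(22,0)]⟩),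
  (⟨0,[(32,0)]⟩,⟨0,[(33,0)]⟩),⟨0,[(0,0)]⟩,.k,.k,(.r (-1) ⟨3,[(1,0),(6,0),(0,0),(9,0),(21,1),(1,0)]⟩
  ⟨2,[(12,1),(0,0),(1,0),(24,0)]⟩),(.r 0 ⟨2,[(12,1),(0,0),(1,0),(24,0)]⟩ ⟨1,[(1,0),(17,0),(21,0)]⟩),
  .k,.k,⟨true,0,⟨0,[(35,0),(4,0)]⟩,⟨0,[(39,0)]⟩⟩,⟨false,0,⟨0,[(20,0)]⟩,⟨3,[(2,2),(16,0),(16,0),(4,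
  1)]⟩⟩,⟨false,1,⟨1,[(19,0),(0,0),(21,0)]⟩,⟨0,[]⟩⟩,⟨false,0,⟨1,[(1,0),(18,0)]⟩,⟨3,[(2,2),(16,0),(16,
  0),(3,3),(1,1)]⟩⟩,⟨true,0,⟨0,[(40,0)]⟩,⟨0,[(39,0)]⟩⟩,⟨false,0,⟨0,[(20,0)]⟩,⟨2,[(2,2),(33,0),(5,1),
  (1,0)]⟩⟩,[.o ⟨false,0,⟨0,[(39,0)]⟩,⟨1,[(31,0),(8,1),(1,0)]⟩⟩,.a ⟨true,0,⟨1,[(1,0),(0,0),(29,0),(0,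
  0)]⟩,⟨0,[(40,0)]⟩⟩ ⟨false,1,⟨0,[(35,0),(5,0)]⟩,⟨0,[(44,0)]⟩⟩ ⟨true,0,⟨0,[(1,0),(38,0)]⟩,⟨2,[(2,2),
  (1,0),(7,0),(22,0),(0,0),(3,1)]⟩⟩,.e ⟨false,1,⟨4,[(19,1),(0,1),(21,2),(1,0)]⟩,⟨0,[]⟩⟩ ⟨false,0,⟨0,
  [(1,0),(38,0)]⟩,⟨3,[(2,2),(16,0),(16,0),(3,3),(1,1)]⟩⟩,.o ⟨false,0,⟨2,[(2,2),(1,0),(6,0),(23,0),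
  (0,0)]⟩,⟨1,[(20,1),(10,0),(9,0)]⟩⟩]⟩) (.R ⟨0,false,false,true,[1,0,0,0,-1],[1,-1],[],(⟨0,[(21,
  0)]⟩,⟨0,[(22,0)]⟩),(⟨0,[(32,0)]⟩,⟨0,[(33,0)]⟩),⟨0,[(0,0)]⟩,.k,.k,(.r (-1) ⟨3,[(1,0),(6,0),(0,0),
  (9,0),(21,1),(1,0)]⟩ ⟨2,[(12,1),(0,0),(1,0),(24,0)]⟩),(.r 0 ⟨2,[(12,1),(0,0),(1,0),(24,0)]⟩ ⟨1,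
  [(1,0),(17,0),(21,0)]⟩),.k,.k,⟨true,0,⟨0,[(35,0),(4,0)]⟩,⟨0,[(39,0)]⟩⟩,⟨false,0,⟨0,[(20,0)]⟩,⟨3,
  [(2,2),(16,0),(16,0),(4,1)]⟩⟩,⟨true,0,⟨0,[]⟩,⟨0,[(44,0)]⟩⟩,⟨false,0,⟨1,[(1,0),(18,0)]⟩,⟨3,[(2,2),
  (16,0),(16,0),(3,3),(1,1)]⟩⟩,⟨false,0,⟨0,[]⟩,⟨0,[]⟩⟩,⟨false,0,⟨0,[]⟩,⟨0,[]⟩⟩,[.o ⟨false,0,⟨0,[(39,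
  0)]⟩,⟨1,[(31,0),(8,1),(1,0)]⟩⟩,.a ⟨true,0,⟨1,[(1,0),(0,0),(29,0),(0,0)]⟩,⟨0,[(40,0)]⟩⟩ ⟨false,1,
  ⟨1,[(41,0),(0,0)]⟩,⟨0,[(44,0)]⟩⟩ ⟨true,0,⟨0,[(1,0),(38,0)]⟩,⟨2,[(2,2),(1,0),(7,0),(22,0),(0,0),(3,
  1)]⟩⟩,.e ⟨false,1,⟨1,[(19,0),(0,0),(21,0)]⟩,⟨0,[]⟩⟩ ⟨false,0,⟨0,[(1,0),(38,0)]⟩,⟨3,[(2,2),(16,0),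
  (16,0),(3,3),(1,1)]⟩⟩,.o ⟨false,0,⟨2,[(2,2),(1,0),(6,0),(23,0),(0,0)]⟩,⟨1,[(20,1),(10,0),(9,
  0)]⟩⟩]⟩))) (.Q [-1,-1,0,0,1,0,0,0,-1,0,0,-1] (.p false [0,0,0,0,1] [] (⟨0,[(20,0)]⟩,⟨0,[(19,0)]⟩)
  .k 0 (⟨0,[]⟩,⟨0,[]⟩) .k .k) (.R ⟨1,false,false,true,[0,0,1],[0,0,0,0,1],[0,1,0,0,0,0,0,1],(⟨0,
  [(28,0)]⟩,⟨0,[(27,0)]⟩),(⟨0,[(21,0)]⟩,⟨0,[(20,0)]⟩),⟨0,[(17,0)]⟩,.k,.k,.k,.k,(.r (-1) ⟨2,[(7,1),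
  (0,0),(5,1),(25,0),(0,0)]⟩ ⟨0,[(11,0)]⟩),.k,⟨true,0,⟨1,[(2,2),(1,0),(0,2),(28,0),(0,0),(3,5),(0,
  1)]⟩,⟨0,[(10,0)]⟩⟩,⟨false,0,⟨0,[(1,0),(20,0)]⟩,⟨0,[(0,0),(3,0),(8,0)]⟩⟩,⟨true,0,⟨0,[(43,0)]⟩,⟨0,
  []⟩⟩,⟨false,0,⟨1,[(1,1),(0,0),(5,0),(2,0),(10,0)]⟩,⟨0,[(0,0),(12,0)]⟩⟩,⟨false,0,⟨0,[(39,0)]⟩,⟨5,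
  [(5,1),(2,1),(9,0),(0,0),(6,1),(14,2)]⟩⟩,⟨false,0,⟨0,[(1,0),(9,0),(10,0)]⟩,⟨0,[(0,0),(5,0)]⟩⟩,[.o
  ⟨false,0,⟨0,[(1,0),(41,0)]⟩,⟨0,[(0,0)]⟩⟩,.o ⟨false,0,⟨0,[(1,0)]⟩,⟨2,[(0,0),(17,1),(24,0)]⟩⟩,.o
  ⟨false,1,⟨1,[(25,1),(4,0),(9,0)]⟩,⟨0,[(9,0)]⟩⟩,.a ⟨true,0,⟨0,[(25,0)]⟩,⟨0,[(22,0)]⟩⟩ ⟨true,0,⟨0,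
  [(3,0),(36,0)]⟩,⟨0,[(10,0)]⟩⟩ ⟨false,0,⟨0,[(1,0),(20,0)]⟩,⟨0,[(0,0),(24,0)]⟩⟩]⟩) (.Q [0,0,0,0,-1,
  0,-1,0,1,0,-1,1] (.p false [0,0,1] [0,0,0,0,1] (⟨0,[(28,0)]⟩,⟨0,[(27,0)]⟩) .k 2 (⟨0,[(21,0)]⟩,⟨0,
  [(20,0)]⟩) .k (.r 0 ⟨1,[(2,2),(1,0),(0,2),(28,0),(0,0),(3,5),(0,1)]⟩ ⟨1,[(8,0),(2,0),(6,0),(0,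
  0)]⟩)) (.Q [-1,0,0,0,1,0,0,0,-1,0,0,-1] (.p false [0,0,0,0,1] [] (⟨0,[(22,0)]⟩,⟨0,[(21,0)]⟩) .k 0
  (⟨0,[]⟩,⟨0,[]⟩) .k .k) (.Q [1,-1,0,0,0,0,0,0,1,-1,0,1] (.p true [0,0,0,0,1] [1] (⟨0,[(23,0)]⟩,⟨0,
  [(22,0)]⟩) .k 1 (⟨0,[]⟩,⟨0,[]⟩) .k .k) (.R ⟨1,false,false,true,[0,0,1],[1,0,0,0,-1],[0,1,0,0,0,0,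
  0,1],(⟨0,[(31,0)]⟩,⟨0,[(30,0)]⟩),(⟨0,[(23,0)]⟩,⟨0,[(24,0)]⟩),⟨0,[(20,0)]⟩,.k,.k,.k,.k,(.r (-1) ⟨2,
  [(10,1),(0,0),(5,1),(25,0),(0,0)]⟩ ⟨0,[(7,0),(29,0),(4,0)]⟩),.k,⟨true,0,⟨1,[(6,0),(8,0),(27,0)]⟩,
  ⟨0,[(7,0),(29,0)]⟩⟩,⟨false,1,⟨0,[(21,0),(3,0)]⟩,⟨0,[(0,0),(6,0),(1,0),(32,0)]⟩⟩,⟨true,0,⟨0,[(46,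
  0)]⟩,⟨0,[]⟩⟩,⟨false,1,⟨1,[(1,0),(3,0),(5,0),(2,0),(6,0),(3,0)]⟩,⟨0,[(0,0),(15,0)]⟩⟩,⟨false,0,⟨0,
  [(42,0)]⟩,⟨5,[(8,1),(2,1),(9,0),(0,0),(6,1),(14,2)]⟩⟩,⟨false,1,⟨0,[(14,0),(6,0),(3,0)]⟩,⟨0,[(0,0),
  (8,0)]⟩⟩,[.o ⟨false,1,⟨0,[(21,0),(24,0)]⟩,⟨0,[(0,0)]⟩⟩,.o ⟨false,1,⟨0,[(1,0)]⟩,⟨0,[(4,0)]⟩⟩,.o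
  ⟨false,1,⟨1,[(28,1),(4,0),(9,0)]⟩,⟨0,[(12,0)]⟩⟩,.a ⟨true,0,⟨0,[(28,0)]⟩,⟨0,[(25,0)]⟩⟩ ⟨true,0,⟨0,
  [(6,0),(36,0)]⟩,⟨0,[(13,0)]⟩⟩ ⟨false,1,⟨0,[(1,0),(23,0)]⟩,⟨0,[(0,0),(27,0)]⟩⟩]⟩) (.Q [0,0,0,0,0,0,
  1,0,1,-1,1,1] (.p true [0,0,1] [1,0,0,0,-1] (⟨0,[(31,0)]⟩,⟨0,[(30,0)]⟩) .k 2 (⟨0,[(23,0)]⟩,⟨0,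
  [(24,0)]⟩) .k (.r 0 ⟨1,[(6,0),(8,0),(27,0)]⟩ ⟨1,[(1,0),(9,0),(2,0),(7,0)]⟩)) (.K ⟨0,[1,0,0,0,-1],
  0,0,(⟨0,[(24,0)]⟩,⟨0,[(25,0)]⟩),.k,(.r (-1) ⟨45,[(9,7),(2,19),(5,11),(0,3),(14,1),(7,9),(1,12),(0,
  10)]⟩ ⟨2,[(15,1),(0,0),(1,0),(24,0)]⟩),(.r 0 ⟨2,[(15,1),(0,0),(1,0),(24,0)]⟩ ⟨5,[(11,1),(0,3),(5,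
  1),(25,0),(0,0)]⟩),.k,.k,[⟨0,[(0,0)]⟩,⟨0,[(1,0),(36,0)]⟩,⟨0,[(5,0),(41,0)]⟩,⟨0,[(1,0)]⟩]⟩) (.Q [0,
  0,0,0,0,-1,0,0,0,0,0,1] (.ed false [1,-1,0,0,1] .k) (.S ⟨1,0,[1],[0,0,0,0,1],[1,1],(⟨0,[(26,0)]⟩,
  ⟨0,[(25,0)]⟩),⟨0,[(0,0)]⟩,.k,(.r (-1) ⟨5,[(12,1),(0,3),(5,1),(25,0),(0,0)]⟩ ⟨2,[(16,1),(0,0),(1,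
  0),(24,0)]⟩),⟨true,0,⟨0,[(48,0)]⟩,⟨0,[]⟩⟩,⟨false,1,⟨1,[(23,0),(0,0),(21,0)]⟩,⟨0,[]⟩⟩,⟨false,0,⟨0,
  [(44,0)]⟩,⟨5,[(10,1),(2,1),(9,0),(0,0),(6,1),(14,2)]⟩⟩,⟨true,0,⟨0,[(44,0)]⟩,⟨0,[(43,0)]⟩⟩,[.o
  ⟨false,0,⟨0,[(6,0)]⟩,⟨0,[(3,0)]⟩⟩,.a ⟨true,0,⟨0,[(5,0),(40,0)]⟩,⟨0,[(2,0)]⟩⟩ ⟨true,0,⟨0,[]⟩,⟨1,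
  [(30,0),(0,0)]⟩⟩ ⟨false,1,⟨1,[(45,0),(0,0)]⟩,⟨0,[(48,0)]⟩⟩,.o ⟨false,0,⟨0,[(6,0)]⟩,⟨0,[(23,0)]⟩⟩,
  .e ⟨false,1,⟨1,[(23,0),(0,0),(20,0)]⟩,⟨0,[(39,0)]⟩⟩ ⟨false,1,⟨1,[(45,0),(0,0)]⟩,⟨1,[(30,0),(0,
  0)]⟩⟩]⟩) (.S ⟨1,0,[-1,1],[1,0,0,0,-1],[-1],(⟨0,[(25,0)]⟩,⟨0,[(26,0)]⟩),⟨0,[(0,0),(20,0),(0,0)]⟩,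
  .k,(.r (-1) ⟨45,[(10,7),(2,19),(5,11),(0,3),(14,1),(7,9),(1,12),(0,10)]⟩ ⟨2,[(16,1),(0,0),(1,0),
  (24,0)]⟩),⟨false,1,⟨1,[(23,0),(0,0),(21,0)]⟩,⟨0,[]⟩⟩,⟨true,0,⟨0,[(48,0)]⟩,⟨0,[]⟩⟩,⟨true,0,⟨0,[(44,
  0)]⟩,⟨0,[(43,0)]⟩⟩,⟨false,0,⟨0,[(44,0)]⟩,⟨5,[(10,1),(2,1),(9,0),(0,0),(6,1),(14,2)]⟩⟩,[.a ⟨true,0,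
  ⟨0,[(2,0)]⟩,⟨0,[(5,0),(40,0)]⟩⟩ ⟨false,1,⟨1,[(3,0),(20,0),(20,0)]⟩,⟨0,[]⟩⟩ ⟨true,0,⟨0,[(48,0)]⟩,
  ⟨0,[(39,0)]⟩⟩,.o ⟨false,1,⟨0,[(3,0)]⟩,⟨0,[(6,0)]⟩⟩,.o ⟨false,1,⟨0,[(23,0)]⟩,⟨0,[(6,0)]⟩⟩,.e
  ⟨false,1,⟨0,[(39,0),(5,0)]⟩,⟨1,[(30,0),(0,0)]⟩⟩ ⟨false,1,⟨1,[(3,0),(20,0),(20,0)]⟩,⟨0,[(39,
  0)]⟩⟩]⟩)))) (.R ⟨2,true,false,false,[0,1],[0,0,0,0,1],[1,1,1],(⟨0,[]⟩,⟨0,[]⟩),(⟨0,[(23,0)]⟩,⟨0,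
  [(22,0)]⟩),⟨0,[]⟩,.k,.k,.k,(.r 0 ⟨2,[(13,1),(0,0),(1,0),(24,0)]⟩ ⟨5,[(9,1),(0,3),(5,1),(25,0),(0,
  0)]⟩),.k,.k,⟨false,0,⟨0,[(45,0)]⟩,⟨1,[(42,0),(0,0)]⟩⟩,⟨true,(-1),⟨3,[(0,3),(26,0),(0,0),(15,1)]⟩,
  ⟨0,[(20,0)]⟩⟩,⟨true,0,⟨0,[(40,0)]⟩,⟨0,[(41,0)]⟩⟩,⟨false,0,⟨2,[(0,0),(0,0),(5,0),(2,0),(10,0),(14,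
  0),(6,0)]⟩,⟨0,[(20,0),(20,0)]⟩⟩,⟨false,0,⟨0,[]⟩,⟨1,[(20,0),(0,0),(21,0)]⟩⟩,⟨true,(-1),⟨0,[(0,0)]⟩,
  ⟨0,[(20,0),(24,0)]⟩⟩,[]⟩)) (.K ⟨0,[0,0,0,0,1],(-1),(-1),(⟨0,[(22,0)]⟩,⟨0,[(21,0)]⟩),.k,(.r (-1)
  ⟨5,[(8,1),(0,3),(5,1),(25,0),(0,0)]⟩ ⟨2,[(12,1),(0,0),(1,0),(24,0)]⟩),(.r 0 ⟨2,[(12,1),(0,0),(1,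
  0),(24,0)]⟩ ⟨45,[(6,7),(2,19),(5,11),(0,3),(14,1),(7,9),(1,12),(0,10)]⟩),.k,.k,[⟨0,[(0,0)]⟩,⟨0,
  [(1,0),(33,0)]⟩,⟨0,[(19,0),(24,0)]⟩,⟨0,[(1,0)]⟩]⟩))))) (.I [0,1,0,0,0,0,0,-1] (.S ⟨1,0,[0,0,0,0,0,
  0,0,-1],[1,0,-1],[0,1,0,0,0,0,0,-1],(⟨0,[(25,0)]⟩,⟨0,[(26,0)]⟩),⟨0,[(14,0)]⟩,.k,.k,⟨true,0,⟨0,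
  [(41,0)]⟩,⟨0,[]⟩⟩,⟨false,1,⟨1,[(16,0),(0,0),(21,0)]⟩,⟨0,[]⟩⟩,⟨false,0,⟨0,[(37,0)]⟩,⟨5,[(3,1),(2,
  1),(9,0),(0,0),(6,1),(14,2)]⟩⟩,⟨true,0,⟨0,[(37,0)]⟩,⟨0,[(36,0)]⟩⟩,[.a ⟨true,0,⟨0,[(8,0),(11,0)]⟩,
  ⟨0,[(11,0)]⟩⟩ ⟨true,0,⟨0,[(0,0)]⟩,⟨0,[(10,0)]⟩⟩ ⟨false,1,⟨1,[(6,0),(2,0),(28,0)]⟩,⟨0,[(7,0),(3,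
  0)]⟩⟩,.e ⟨false,1,⟨1,[(6,0),(2,0),(28,0)]⟩,⟨0,[(7,0),(3,0)]⟩⟩ ⟨false,1,⟨0,[(1,0)]⟩,⟨0,[(12,0)]⟩⟩,
  .o ⟨false,0,⟨0,[(7,0)]⟩,⟨1,[(1,0),(19,0),(1,0),(4,0)]⟩⟩,.e ⟨false,1,⟨1,[(6,0),(2,0),(28,0)]⟩,⟨0,
  [(10,0)]⟩⟩ ⟨false,1,⟨0,[(1,0)]⟩,⟨1,[(10,0),(10,0),(2,0)]⟩⟩]⟩) (.Q [0,1,0,0,0,0,1,1,0,-1,1] (.p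
  true [0,0,1] [1] (⟨0,[(26,0)]⟩,⟨0,[(25,0)]⟩) .k 1 (⟨0,[]⟩,⟨0,[]⟩) .k .k) (.Q [0,1,0,-1,0,0,1,1,0,
  -1,1] (.p true [0,0,1] [1] (⟨0,[(27,0)]⟩,⟨0,[(26,0)]⟩) .k 1 (⟨0,[]⟩,⟨0,[]⟩) .k .k) (.Q [0,0,0,0,0,
  2,0,0,0,0,-1] (.p false [0,0,1] [] (⟨0,[(28,0)]⟩,⟨0,[(27,0)]⟩) .k 0 (⟨0,[]⟩,⟨0,[]⟩) .k .k) (.Q [0,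
  0,-1,-1,0,0,-1,0,0,1,-1] (.p false [0,0,1] [1] (⟨0,[(29,0)]⟩,⟨0,[(28,0)]⟩) .k 1 (⟨0,[]⟩,⟨0,[]⟩)
  .k .k) (.R ⟨0,false,false,true,[0,-1,1],[1,-1],[1,0,-1,-1,0,0,0,1],(⟨0,[(19,0)]⟩,⟨0,[(1,0),(31,
  0)]⟩),(⟨0,[(33,0)]⟩,⟨0,[(34,0)]⟩),⟨0,[(1,0)]⟩,.k,.k,(.r (-1) ⟨7,[(0,2),(6,2),(1,5),(0,0),(26,0),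
  (4,5)]⟩ ⟨2,[(13,4),(0,0),(1,0),(24,0)]⟩),.k,.k,.k,⟨true,0,⟨0,[(4,0)]⟩,⟨0,[(13,0),(26,0)]⟩⟩,⟨false,
  0,⟨0,[(24,0)]⟩,⟨1,[(5,0),(19,0),(1,0),(4,0)]⟩⟩,⟨true,0,⟨0,[]⟩,⟨0,[(45,0)]⟩⟩,⟨false,0,⟨0,[(0,0),
  (12,0)]⟩,⟨2,[(15,1),(9,0),(11,0),(5,1)]⟩⟩,⟨false,0,⟨0,[]⟩,⟨0,[]⟩⟩,⟨false,0,⟨0,[]⟩,⟨0,[]⟩⟩,[.o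
  ⟨false,0,⟨0,[(40,0)]⟩,⟨1,[(32,0),(8,1),(1,0)]⟩⟩,.a ⟨true,0,⟨0,[(0,0),(26,0)]⟩,⟨0,[(41,0)]⟩⟩
  ⟨false,1,⟨1,[(0,0),(1,0),(1,1),(0,0),(36,0)]⟩,⟨0,[(13,0),(31,0)]⟩⟩ ⟨true,0,⟨0,[(0,0)]⟩,⟨0,[(3,0),
  (9,0),(22,0)]⟩⟩,.e ⟨false,1,⟨1,[(9,1),(32,0),(0,0)]⟩,⟨0,[(13,0)]⟩⟩ ⟨false,0,⟨0,[(0,0)]⟩,⟨2,[(13,
  2),(1,1),(9,0),(11,0),(5,1)]⟩⟩,.o ⟨false,0,⟨0,[(3,0),(8,0),(23,0)]⟩,⟨3,[(17,0),(6,1),(12,0),(4,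
  2)]⟩⟩]⟩) (.R ⟨0,false,false,true,[0,-1,1],[1,-1],[1,0,-1,-1,0,0,0,1],(⟨0,[(19,0)]⟩,⟨0,[(1,0),(31,
  0)]⟩),(⟨0,[(33,0)]⟩,⟨0,[(34,0)]⟩),⟨0,[(1,0)]⟩,.k,.k,(.r (-1) ⟨4,[(7,2),(1,2),(0,0),(13,2),(12,0),
  (4,2)]⟩ ⟨2,[(13,4),(0,0),(1,0),(24,0)]⟩),.k,.k,.k,⟨true,0,⟨0,[(4,0)]⟩,⟨0,[(13,0),(26,0)]⟩⟩,⟨false,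
  0,⟨0,[(24,0)]⟩,⟨3,[(0,1),(9,1),(14,1),(6,0),(10,0)]⟩⟩,⟨true,0,⟨0,[]⟩,⟨0,[(45,0)]⟩⟩,⟨false,0,⟨0,
  [(12,0),(11,0)]⟩,⟨2,[(15,1),(9,0),(11,0),(5,1)]⟩⟩,⟨false,0,⟨0,[]⟩,⟨0,[]⟩⟩,⟨false,0,⟨0,[]⟩,⟨0,[]⟩⟩,
  [.o ⟨false,0,⟨0,[(40,0)]⟩,⟨1,[(32,0),(8,1),(1,0)]⟩⟩,.e ⟨false,1,⟨0,[(2,0),(1,0),(0,0),(18,0)]⟩,⟨0,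
  [(13,0),(31,0)]⟩⟩ ⟨false,1,⟨13,[(7,3),(2,5),(6,5),(6,7),(0,1),(16,6),(0,0)]⟩,⟨0,[(0,0)]⟩⟩,.a
  ⟨true,0,⟨0,[(27,0)]⟩,⟨0,[(24,0)]⟩⟩ ⟨false,1,⟨1,[(9,1),(32,0),(0,0)]⟩,⟨0,[(13,0)]⟩⟩ ⟨true,0,⟨0,
  [(24,0),(15,0)]⟩,⟨0,[(0,0)]⟩⟩,.o ⟨false,0,⟨1,[(0,1),(6,0),(4,0),(15,0)]⟩,⟨3,[(17,0),(6,1),(12,0),
  (4,2)]⟩⟩]⟩)) (.S ⟨1,0,[0,1,-1,-1,0,0,0,1],[0,-1,1],[0,0,-1,-1,0,0,0,1],(⟨0,[(18,0)]⟩,⟨0,[(28,0),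
  (4,0)]⟩),⟨0,[(0,0)]⟩,.k,(.r (-1) ⟨4,[(6,2),(1,2),(0,0),(13,2),(12,0),(4,2)]⟩ ⟨2,[(12,4),(0,0),(1,
  0),(24,0)]⟩),⟨false,1,⟨1,[(19,0),(0,0),(21,0)]⟩,⟨0,[]⟩⟩,⟨true,0,⟨0,[(44,0)]⟩,⟨0,[]⟩⟩,⟨true,0,⟨0,
  [(40,0)]⟩,⟨0,[(39,0)]⟩⟩,⟨false,0,⟨0,[(40,0)]⟩,⟨5,[(6,1),(2,1),(9,0),(0,0),(6,1),(14,2)]⟩⟩,[.o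
  ⟨false,0,⟨0,[(1,0)]⟩,⟨3,[(4,1),(7,1),(3,1),(14,0),(8,1),(1,0)]⟩⟩,.e ⟨false,1,⟨0,[(1,0),(1,0),(0,
  0),(18,0)]⟩,⟨0,[(12,0),(31,0)]⟩⟩ ⟨false,1,⟨0,[(8,0),(32,0)]⟩,⟨0,[(12,0)]⟩⟩,.a ⟨true,0,⟨0,[(26,
  0)]⟩,⟨0,[(23,0)]⟩⟩ ⟨false,1,⟨1,[(8,1),(32,0),(0,0)]⟩,⟨0,[(12,0)]⟩⟩ ⟨true,0,⟨0,[(1,0),(21,0)]⟩,⟨0,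
  [(12,0)]⟩⟩,.o ⟨false,0,⟨0,[(2,0),(8,0),(23,0)]⟩,⟨3,[(16,0),(6,1),(12,0),(4,2)]⟩⟩]⟩)) (.R ⟨2,true,
  false,false,[0,1],[1,1,-1],[1,0,1],(⟨0,[]⟩,⟨0,[]⟩),(⟨0,[(27,0),(4,0)]⟩,⟨0,[(17,0)]⟩),⟨0,[]⟩,.k,.k,
  .k,.k,.k,.k,⟨true,0,⟨0,[(7,0)]⟩,⟨0,[(11,0)]⟩⟩,⟨false,0,⟨0,[(22,0)]⟩,⟨1,[(3,0),(19,0),(1,0),(4,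
  0)]⟩⟩,⟨false,1,⟨5,[(5,1),(2,1),(9,0),(0,0),(6,1),(14,2)]⟩,⟨0,[(39,0)]⟩⟩,⟨true,0,⟨0,[(0,0),(37,
  0)]⟩,⟨0,[(1,0)]⟩⟩,⟨true,0,⟨0,[]⟩,⟨0,[(43,0)]⟩⟩,⟨false,0,⟨0,[(0,0)]⟩,⟨3,[(5,1),(12,0),(0,0),(3,1),
  (6,1),(10,0)]⟩⟩,[]⟩)) (.S ⟨1,0,[0,1,0,0,0,0,0,1],[0,0,1],[0,0,0,0,0,0,0,1],(⟨0,[(27,0)]⟩,⟨0,[(26,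
  0)]⟩),⟨0,[(16,0)]⟩,.k,.k,⟨false,1,⟨1,[(17,0),(0,0),(21,0)]⟩,⟨0,[]⟩⟩,⟨true,0,⟨0,[(42,0)]⟩,⟨0,[]⟩⟩,
  ⟨true,0,⟨0,[(38,0)]⟩,⟨0,[(37,0)]⟩⟩,⟨false,0,⟨0,[(38,0)]⟩,⟨5,[(4,1),(2,1),(9,0),(0,0),(6,1),(14,
  2)]⟩⟩,[.a ⟨true,0,⟨0,[(22,0)]⟩,⟨0,[(0,0)]⟩⟩ ⟨true,0,⟨1,[(1,0),(11,0)]⟩,⟨0,[(9,0)]⟩⟩ ⟨false,0,⟨0,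
  [(1,0),(30,0)]⟩,⟨1,[(7,0),(2,0),(29,0)]⟩⟩,.a ⟨true,0,⟨0,[(12,0)]⟩,⟨3,[(0,2),(2,1),(10,0),(7,0)]⟩⟩
  ⟨false,1,⟨1,[(1,0),(11,0),(25,0),(0,0)]⟩,⟨0,[(3,0)]⟩⟩ ⟨true,0,⟨1,[(1,0),(11,0)]⟩,⟨0,[(9,0)]⟩⟩,.o
  ⟨false,1,⟨1,[(2,0),(19,0),(1,0),(4,0)]⟩,⟨0,[(8,0)]⟩⟩,.a ⟨true,0,⟨0,[(24,0)]⟩,⟨0,[(21,0)]⟩⟩ ⟨false,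
  1,⟨1,[(1,0),(11,0),(25,0),(0,0)]⟩,⟨0,[(9,0)]⟩⟩ ⟨true,0,⟨0,[(1,0),(30,0)]⟩,⟨0,[(9,0)]⟩⟩]⟩)))))))
  (.R ⟨2,true,false,false,[0,1],[0,0,1],[1,1,1],(⟨0,[]⟩,⟨0,[]⟩),(⟨0,[(21,0)]⟩,⟨0,[(20,0)]⟩),⟨0,[]⟩,
  .k,.k,.k,.k,.k,.k,⟨false,0,⟨0,[(0,0),(30,0)]⟩,⟨0,[(5,0),(27,0)]⟩⟩,⟨true,0,⟨0,[(18,0)]⟩,⟨0,[(2,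
  0)]⟩⟩,⟨true,0,⟨0,[(31,0)]⟩,⟨0,[(32,0)]⟩⟩,⟨false,1,⟨0,[(6,0),(24,0),(2,0)]⟩,⟨0,[(0,0),(1,0)]⟩⟩,
  ⟨false,0,⟨0,[]⟩,⟨1,[(11,0),(0,0),(21,0)]⟩⟩,⟨true,0,⟨0,[(6,0)]⟩,⟨0,[(17,0)]⟩⟩,[]⟩)) (.S ⟨1,0,[0,1,
  0,0,0,0,0,-1],[1,0,-1],[0,0,1],(⟨0,[(19,0)]⟩,⟨0,[(20,0)]⟩),⟨0,[(8,0)]⟩,.k,.k,⟨false,0,⟨0,[(0,0),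
  (25,1),(3,0),(1,0)]⟩,⟨0,[(2,0),(29,0)]⟩⟩,⟨true,0,⟨0,[(35,0)]⟩,⟨0,[]⟩⟩,⟨true,(-1),⟨0,[(0,0)]⟩,⟨0,
  [(2,0),(27,0),(1,0)]⟩⟩,⟨false,0,⟨0,[(31,0)]⟩,⟨0,[(30,0),(2,0)]⟩⟩,[.o ⟨false,0,⟨0,[(16,0)]⟩,⟨2,[(5,
  1),(9,0),(11,0),(5,1)]⟩⟩,.a ⟨true,0,⟨0,[(2,0),(11,0)]⟩,⟨0,[(5,0)]⟩⟩ ⟨true,0,⟨0,[(26,0)]⟩,⟨0,[(35,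
  0)]⟩⟩ ⟨false,1,⟨0,[(2,0),(29,0)]⟩,⟨6,[(0,0),(3,1),(0,2),(0,0),(7,2),(12,0),(2,0)]⟩⟩,.o ⟨false,0,
  ⟨0,[(1,0)]⟩,⟨1,[(17,1),(4,0),(9,0)]⟩⟩,.e ⟨false,1,⟨1,[(10,0),(0,0),(21,0)]⟩,⟨0,[]⟩⟩ ⟨false,1,⟨0,
  [(2,0),(29,0)]⟩,⟨0,[(4,0)]⟩⟩]⟩)) (.I [1,0,0,0,0,0,0,1] (.S ⟨1,0,[0,1,0,0,0,0,0,-1],[1,0,-1],[0,0,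
  0,0,0,0,0,-1],(⟨0,[(19,0)]⟩,⟨0,[(20,0)]⟩),⟨0,[(8,0)]⟩,.k,.k,⟨false,1,⟨1,[(10,0),(0,0),(21,0)]⟩,⟨0,
  []⟩⟩,⟨true,0,⟨0,[(35,0)]⟩,⟨0,[]⟩⟩,⟨true,0,⟨0,[(31,0)]⟩,⟨0,[(30,0)]⟩⟩,⟨false,0,⟨0,[(31,0)]⟩,⟨0,
  [(30,0),(2,0)]⟩⟩,[.o ⟨false,0,⟨0,[(16,0)]⟩,⟨2,[(5,1),(9,0),(11,0),(5,1)]⟩⟩,.e ⟨false,1,⟨0,[(1,2),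
  (0,0),(11,2),(11,0),(0,0)]⟩,⟨0,[(6,0)]⟩⟩ ⟨false,1,⟨0,[(2,0),(29,0)]⟩,⟨0,[(0,0)]⟩⟩,.a ⟨true,0,⟨1,
  [(7,0),(11,0),(0,0)]⟩,⟨0,[(1,0)]⟩⟩ ⟨false,1,⟨1,[(2,1),(29,0),(0,0)]⟩,⟨0,[(0,0)]⟩⟩ ⟨true,0,⟨0,[(1,
  0),(14,0)]⟩,⟨0,[(0,0)]⟩⟩,.o ⟨false,0,⟨0,[(18,0)]⟩,⟨1,[(1,1),(20,0),(9,0)]⟩⟩]⟩) (.Q [0,0,0,1,0,0,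
  -1,-1,0,0,-1] (.p false [0,0,1] [] (⟨0,[(20,0)]⟩,⟨0,[(19,0)]⟩) .k 0 (⟨0,[]⟩,⟨0,[]⟩) .k .k) (.R ⟨2,
  true,false,true,[0,1],[0,0,1],[1,0,1],(⟨0,[]⟩,⟨0,[]⟩),(⟨0,[(21,0)]⟩,⟨0,[(20,0)]⟩),⟨0,[]⟩,.k,.k,.k,
  .k,.k,.k,⟨true,0,⟨0,[(1,0),(25,0)]⟩,⟨0,[(7,0)]⟩⟩,⟨false,0,⟨0,[(2,0)]⟩,⟨3,[(8,1),(2,0),(0,0),(10,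
  0),(9,1)]⟩⟩,⟨false,1,⟨0,[(31,0),(2,0)]⟩,⟨0,[(32,0)]⟩⟩,⟨true,0,⟨0,[(6,0),(24,0)]⟩,⟨0,[(0,0)]⟩⟩,
  ⟨true,0,⟨0,[]⟩,⟨0,[(36,0)]⟩⟩,⟨false,0,⟨0,[(6,0)]⟩,⟨0,[(17,0),(16,0)]⟩⟩,[]⟩) (.Q [0,-1,0,1,0,0,1,1,
  0,0,1] (.p true [0,0,1] [] (⟨0,[(21,0)]⟩,⟨0,[(20,0)]⟩) .k 0 (⟨0,[]⟩,⟨0,[]⟩) .k .k) (.R ⟨2,false,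
  false,false,[0,1],[0,1,1],[1],(⟨0,[]⟩,⟨0,[]⟩),(⟨0,[(22,0),(3,0)]⟩,⟨0,[(10,0)]⟩),⟨0,[]⟩,.k,.k,.k,
  .k,.k,.k,⟨false,1,⟨7,[(1,5),(0,13),(13,5),(12,1),(2,1),(1,4),(0,0)]⟩,⟨2,[(0,1),(4,0),(2,1),(11,
  1)]⟩⟩,⟨true,0,⟨0,[(3,0)]⟩,⟨0,[(20,0)]⟩⟩,⟨false,1,⟨7,[(1,5),(0,5),(13,5),(12,1),(2,1),(1,0),(0,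
  4)]⟩,⟨2,[(0,0),(4,1),(2,0),(11,0)]⟩⟩,⟨true,0,⟨0,[(7,0)]⟩,⟨0,[(18,0)]⟩⟩,⟨false,1,⟨1,[(34,0),(0,
  0)]⟩,⟨1,[(19,0),(0,0)]⟩⟩,⟨false,0,⟨0,[(0,0)]⟩,⟨0,[(18,0),(13,0),(2,0)]⟩⟩,[.a ⟨true,0,⟨1,[(0,0),
  (16,0),(15,0)]⟩,⟨0,[(2,0),(13,0),(11,0),(3,0)]⟩⟩ ⟨true,0,⟨0,[]⟩,⟨1,[(19,0),(0,0)]⟩⟩ ⟨false,0,⟨1,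
  [(0,0),(16,0),(15,0)]⟩,⟨7,[(2,5),(13,5),(1,1),(10,1),(2,7),(1,0),(0,4)]⟩⟩,.e ⟨false,1,⟨1,[(34,0),
  (0,0)]⟩,⟨0,[(37,0)]⟩⟩ ⟨false,0,⟨0,[(0,0)]⟩,⟨1,[(18,1),(13,1),(1,0),(0,0)]⟩⟩,.o ⟨false,1,⟨1,[(24,
  0),(9,0)]⟩,⟨1,[(19,0),(0,0)]⟩⟩,.fo]⟩) (.K ⟨0,[0,1,1],0,0,(⟨0,[(22,0),(3,0)]⟩,⟨0,[(10,0)]⟩),.k,.k,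
  (.r 0 ⟨0,[(5,0),(0,0),(1,0),(24,0)]⟩ ⟨4,[(0,1),(0,7),(0,10),(13,5),(12,1),(4,1),(0,0)]⟩),.k,.k,
  [⟨1,[(19,0),(0,0)]⟩,⟨0,[(3,0)]⟩,⟨0,[(0,0)]⟩,⟨0,[(17,0),(15,0)]⟩]⟩))))) (.S ⟨1,0,[0,0,0,0,0,0,0,1],
  [0,0,1],[1,1,1],(⟨0,[(18,0)]⟩,⟨0,[(17,0)]⟩),⟨0,[(7,0)]⟩,.k,.k,⟨true,0,⟨0,[(1,0),(26,0)]⟩,⟨0,[(0,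
  0)]⟩⟩,⟨false,1,⟨1,[(8,0),(0,0),(21,0)]⟩,⟨0,[]⟩⟩,⟨false,0,⟨0,[(1,0)]⟩,⟨0,[(0,0),(27,0),(2,0)]⟩⟩,
  ⟨true,0,⟨0,[(29,0)]⟩,⟨0,[(28,0)]⟩⟩,[.e ⟨false,0,⟨0,[(33,0)]⟩,⟨1,[(30,0),(0,0)]⟩⟩ ⟨false,0,⟨0,[(0,
  0)]⟩,⟨1,[(1,1),(26,1),(1,0),(0,0)]⟩⟩,.o ⟨false,1,⟨2,[(3,1),(9,0),(11,0),(5,1)]⟩,⟨0,[(14,0)]⟩⟩,.o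
  ⟨false,1,⟨1,[(15,1),(4,0),(9,0)]⟩,⟨0,[(0,0),(13,0),(9,0)]⟩⟩,.a ⟨true,0,⟨0,[(15,0)]⟩,⟨0,[(12,0)]⟩⟩
  ⟨false,0,⟨0,[]⟩,⟨1,[(8,0),(0,0),(21,0)]⟩⟩ ⟨true,0,⟨0,[(0,0)]⟩,⟨0,[(1,0),(26,0)]⟩⟩]⟩))

theorem ok9 : chk K t9 l7 = true := by decide +kernel

noncomputable def t10 : Tre :=
  (.I [0,-1,0,1,1,0,0,-1] (.S ⟨1,0,[0,0,0,0,0,0,0,1],[0,0,1],[1,1,0,-1,0,0,0,1],(⟨0,[(18,0)]⟩,⟨0,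
  [(17,0)]⟩),⟨0,[(7,0)]⟩,.k,.k,⟨true,0,⟨0,[(28,0)]⟩,⟨0,[(29,0)]⟩⟩,⟨false,1,⟨1,[(8,0),(0,0),(21,0)]⟩,
  ⟨0,[]⟩⟩,⟨false,0,⟨0,[]⟩,⟨1,[(8,0),(0,0),(21,0)]⟩⟩,⟨true,0,⟨0,[(29,0)]⟩,⟨0,[(28,0)]⟩⟩,[.e ⟨false,0,
  ⟨3,[(1,2),(2,0),(18,0),(4,0)]⟩,⟨0,[(0,0)]⟩⟩ ⟨false,0,⟨0,[(1,0),(27,0)]⟩,⟨0,[(0,0),(27,0)]⟩⟩,.o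
  ⟨false,1,⟨2,[(3,1),(9,0),(11,0),(5,1)]⟩,⟨0,[(14,0)]⟩⟩,.o ⟨false,1,⟨1,[(15,1),(4,0),(9,0)]⟩,⟨0,[(1,
  0),(12,0),(9,0),(4,0)]⟩⟩,.a ⟨true,0,⟨0,[(15,0)]⟩,⟨0,[(12,0)]⟩⟩ ⟨false,0,⟨0,[(1,0)]⟩,⟨1,[(0,1),(14,
  0),(0,0)]⟩⟩ ⟨true,0,⟨0,[(1,0),(27,0)]⟩,⟨0,[(14,0),(0,0)]⟩⟩]⟩) (.Q [0,-1,0,1,0,0,1,1,0,0,1] (.p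
  true [0,0,1] [] (⟨0,[(18,0)]⟩,⟨0,[(17,0)]⟩) .k 0 (⟨0,[]⟩,⟨0,[]⟩) .k .k) (.R ⟨2,true,false,false,
  [0,1],[0,1,1],[0,0,1,1],(⟨0,[]⟩,⟨0,[]⟩),(⟨0,[(19,0),(3,0)]⟩,⟨0,[(7,0)]⟩),⟨0,[]⟩,.k,.k,.k,.k,.k,.k,
  ⟨true,1,⟨1,[(15,1),(0,1),(14,0),(0,0)]⟩,⟨0,[(1,0),(23,0),(4,0)]⟩⟩,⟨false,1,⟨0,[(16,0),(14,0)]⟩,⟨4,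
  [(1,0),(4,0),(6,1),(1,0),(9,1),(0,0),(3,0)]⟩⟩,⟨false,1,⟨1,[(9,0),(0,0),(21,0)]⟩,⟨0,[]⟩⟩,⟨true,0,
  ⟨0,[(4,0)]⟩,⟨0,[(15,0)]⟩⟩,⟨true,0,⟨0,[(30,0)]⟩,⟨0,[(29,0)]⟩⟩,⟨false,0,⟨0,[(0,0)]⟩,⟨0,[(15,0),(13,
  0),(2,0)]⟩⟩,[]⟩) (.Q [1,0,0,0,-1,0,0,0,1,0,0,1] (.p true [0,0,0,0,1] [] (⟨0,[(12,0)]⟩,⟨0,[(11,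
  0)]⟩) .k 0 (⟨0,[]⟩,⟨0,[]⟩) .k .k) (.R ⟨2,true,false,false,[0,1],[0,0,0,0,1],[1,1,1],(⟨0,[]⟩,⟨0,
  []⟩),(⟨0,[(13,0)]⟩,⟨0,[(12,0)]⟩),⟨0,[]⟩,.k,.k,.k,(.r 0 ⟨1,[(17,0),(0,0),(12,1)]⟩ ⟨1,[(30,1),(1,0),
  (0,0)]⟩),.k,.k,⟨false,0,⟨0,[(35,0)]⟩,⟨1,[(32,0),(0,0)]⟩⟩,⟨true,(-1),⟨3,[(0,3),(16,0),(0,0),(15,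
  1)]⟩,⟨0,[(10,0)]⟩⟩,⟨true,0,⟨0,[(30,0)]⟩,⟨0,[(31,0)]⟩⟩,⟨false,0,⟨0,[(0,0),(29,0),(2,0)]⟩,⟨0,[(10,
  0),(20,0)]⟩⟩,⟨false,0,⟨0,[]⟩,⟨1,[(10,0),(0,0),(21,0)]⟩⟩,⟨true,(-1),⟨0,[(0,0)]⟩,⟨0,[(10,0),(24,
  0)]⟩⟩,[]⟩) (.I [0,0,-2,0,1,-2,0,0,-1] (.Q [-1,0,0,-2,0,0,0,0,-1,1,0,-1] (.p false [0,0,0,0,1] [1]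
  (⟨0,[(14,0)]⟩,⟨0,[(13,0)]⟩) .k 1 (⟨0,[]⟩,⟨0,[]⟩) .k .k) (.Q [0,0,0,0,0,-1,0,0,0,0,0,1] (.ed false
  [1,-1,0,0,1] .k) (.Q [-1,1,0,0,0,0,0,0,-1,0,0,-1] (.p false [0,0,0,0,1] [] (⟨0,[(16,0)]⟩,⟨0,[(15,
  0)]⟩) .k 0 (⟨0,[]⟩,⟨0,[]⟩) .k .k) (.S ⟨1,0,[1],[0,0,0,0,1],[1,1],(⟨0,[(17,0)]⟩,⟨0,[(16,0)]⟩),⟨0,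
  [(1,0)]⟩,.k,(.r (-1) ⟨1,[(34,1),(1,0),(0,0)]⟩ ⟨1,[(21,0),(0,0),(12,1)]⟩),⟨true,0,⟨0,[(39,0)]⟩,⟨0,
  []⟩⟩,⟨false,1,⟨1,[(14,0),(0,0),(21,0)]⟩,⟨0,[]⟩⟩,⟨false,0,⟨0,[(35,0)]⟩,⟨0,[(34,0),(2,0)]⟩⟩,⟨true,0,
  ⟨0,[(35,0)]⟩,⟨0,[(34,0)]⟩⟩,[.e ⟨true,0,⟨0,[(39,0)]⟩,⟨0,[(30,0)]⟩⟩ ⟨true,0,⟨0,[]⟩,⟨1,[(21,0),(0,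
  0)]⟩⟩,.o ⟨false,1,⟨1,[(15,1),(10,0),(10,0)]⟩,⟨0,[(0,0)]⟩⟩,.a ⟨true,0,⟨0,[(15,0)]⟩,⟨0,[(2,0),(32,
  1)]⟩⟩ ⟨false,0,⟨0,[]⟩,⟨1,[(14,0),(0,0),(21,0)]⟩⟩ ⟨true,0,⟨0,[]⟩,⟨0,[(39,0)]⟩⟩,.o ⟨false,0,⟨2,[(6,
  0),(8,2),(4,0),(0,0),(8,1),(0,0),(3,0)]⟩,⟨1,[(0,1),(35,0),(0,0)]⟩⟩]⟩) (.R ⟨1,false,false,false,[0,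
  0,0,0,1],[0,1],[1,1],(⟨0,[(17,0)]⟩,⟨0,[(16,0)]⟩),(⟨0,[(28,0)]⟩,⟨0,[(27,0)]⟩),⟨0,[(1,0)]⟩,.k,.k,
  (.r (-1) ⟨1,[(34,1),(1,0),(0,0)]⟩ ⟨1,[(21,0),(0,0),(12,1)]⟩),(.r (-1) ⟨1,[(34,1),(1,0),(0,0)]⟩ ⟨1,
  [(21,0),(0,0),(12,1)]⟩),(.x 0 ⟨5,[(6,1),(8,5),(0,5),(3,1),(0,4),(0,2),(5,11),(1,3),(0,1),(3,1)]⟩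
  ⟨0,[(3,0)]⟩),.k,⟨false,1,⟨0,[(34,0),(1,0)]⟩,⟨0,[(30,0),(4,0)]⟩⟩,⟨true,1,⟨3,[(2,2),(11,0),(16,0),
  (3,5),(0,1)]⟩,⟨0,[(0,0),(5,0),(13,0),(0,0),(8,0),(4,0)]⟩⟩,⟨true,0,⟨0,[(39,0)]⟩,⟨0,[]⟩⟩,⟨false,1,
  ⟨3,[(2,2),(11,0),(16,0),(3,9),(1,1)]⟩,⟨0,[(0,0),(33,0)]⟩⟩,⟨false,0,⟨0,[(35,0)]⟩,⟨0,[(34,0),(2,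
  0)]⟩⟩,⟨false,1,⟨3,[(2,2),(11,0),(16,0),(3,13),(1,1)]⟩,⟨6,[(0,9),(1,2),(2,0),(0,0),(14,0),(7,0),(1,
  0),(2,5)]⟩⟩,[.a ⟨true,0,⟨0,[(35,0)]⟩,⟨1,[(2,0),(12,0),(7,0),(0,0)]⟩⟩ ⟨true,0,⟨0,[(39,0)]⟩,⟨0,[(30,
  0)]⟩⟩ ⟨false,1,⟨3,[(2,2),(11,0),(16,0),(3,9),(0,1)]⟩,⟨0,[(0,0),(33,0)]⟩⟩,.o ⟨false,1,⟨1,[(26,0),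
  (8,1),(1,0)]⟩,⟨0,[(34,0)]⟩⟩,.e ⟨false,0,⟨0,[]⟩,⟨1,[(14,0),(0,0),(21,0)]⟩⟩ ⟨false,1,⟨3,[(2,2),(11,
  0),(16,0),(3,9),(1,1)]⟩,⟨0,[(0,0),(33,0)]⟩⟩,.o ⟨false,0,⟨2,[(6,0),(8,2),(4,0),(0,0),(8,1),(0,0),
  (3,0)]⟩,⟨3,[(2,2),(11,0),(16,0),(3,5),(0,1)]⟩⟩]⟩)) (.S ⟨1,0,[-1,1],[1,0,0,0,-1],[-1],(⟨0,[(15,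
  0)]⟩,⟨0,[(16,0)]⟩),⟨0,[(0,0),(10,0),(0,0)]⟩,.k,(.r (-1) ⟨1,[(33,1),(1,0),(0,0)]⟩ ⟨1,[(20,0),(0,0),
  (12,1)]⟩),⟨false,1,⟨1,[(13,0),(0,0),(21,0)]⟩,⟨0,[]⟩⟩,⟨true,0,⟨0,[(38,0)]⟩,⟨0,[]⟩⟩,⟨true,0,⟨0,[(34,
  0)]⟩,⟨0,[(33,0)]⟩⟩,⟨false,0,⟨0,[(34,0)]⟩,⟨0,[(33,0),(2,0)]⟩⟩,[.o ⟨false,0,⟨3,[(0,0),(0,2),(0,0),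
  (2,1),(13,1),(0,1),(6,0),(2,0),(3,7)]⟩,⟨1,[(14,1),(10,0),(10,0)]⟩⟩,.e ⟨false,1,⟨0,[(0,0),(1,0),
  (11,0),(12,0),(1,0)]⟩,⟨0,[(38,0)]⟩⟩ ⟨false,1,⟨1,[(3,0),(10,0),(20,0)]⟩,⟨0,[]⟩⟩,.a ⟨true,0,⟨0,[(1,
  0),(32,1)]⟩,⟨0,[(14,0)]⟩⟩ ⟨false,1,⟨1,[(3,0),(10,0),(21,0)]⟩,⟨0,[]⟩⟩ ⟨true,0,⟨0,[(38,0)]⟩,⟨0,[]⟩⟩,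
  .o ⟨false,0,⟨2,[(1,2),(3,0),(13,0),(0,0),(8,1),(0,0),(3,6)]⟩,⟨1,[(14,1),(10,0),(9,0)]⟩⟩]⟩)) (.I
  [1,0,2,1,-1] (.Q [0,0,0,0,0,-1,0,0,0,0,0,1] (.ed false [1,-1,0,0,1] .k) (.Q [0,0,0,0,0,0,0,0,-1,1,
  0,-1] (.p false [0,0,0,0,1] [1] (⟨0,[(17,0)]⟩,⟨0,[(16,0)]⟩) .k 1 (⟨0,[]⟩,⟨0,[]⟩) .k .k) (.Q [-1,1,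
  0,0,0,0,0,0,-1,0,0,-1] (.p false [0,0,0,0,1] [] (⟨0,[(18,0)]⟩,⟨0,[(17,0)]⟩) .k 0 (⟨0,[]⟩,⟨0,[]⟩)
  .k .k) (.S ⟨1,0,[1],[0,0,0,0,1],[1,1],(⟨0,[(19,0)]⟩,⟨0,[(18,0)]⟩),⟨0,[(2,0)]⟩,.k,(.r (-1) ⟨1,[(36,
  1),(1,0),(0,0)]⟩ ⟨10,[(3,1),(0,1),(1,1),(6,1),(9,3),(13,4),(2,2)]⟩),⟨true,0,⟨0,[(41,0)]⟩,⟨0,[]⟩⟩,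
  ⟨false,1,⟨1,[(16,0),(0,0),(21,0)]⟩,⟨0,[]⟩⟩,⟨false,0,⟨0,[(37,0)]⟩,⟨0,[(36,0),(2,0)]⟩⟩,⟨true,0,⟨0,
  [(37,0)]⟩,⟨0,[(36,0)]⟩⟩,[.e ⟨true,0,⟨0,[(41,0)]⟩,⟨0,[(32,0)]⟩⟩ ⟨true,0,⟨0,[]⟩,⟨1,[(23,0),(0,0)]⟩⟩,
  .o ⟨false,1,⟨1,[(17,1),(10,0),(10,0)]⟩,⟨0,[(0,0)]⟩⟩,.a ⟨true,0,⟨0,[(17,0)]⟩,⟨0,[(1,0)]⟩⟩ ⟨false,0,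
  ⟨0,[]⟩,⟨1,[(16,0),(0,0),(21,0)]⟩⟩ ⟨true,0,⟨0,[]⟩,⟨0,[(41,0)]⟩⟩,.o ⟨false,0,⟨2,[(3,0),(13,2),(14,
  0),(0,0),(2,0)]⟩,⟨3,[(1,2),(14,0),(16,0),(4,1)]⟩⟩]⟩) (.S ⟨1,0,[0,1,-1,-1],[1,-1],[0,0,-1,-1],(⟨0,
  [(29,0)]⟩,⟨0,[(30,0)]⟩),⟨0,[(14,0),(0,0)]⟩,.k,(.r (-2) ⟨0,[(36,1),(1,0),(0,0)]⟩ ⟨2,[(1,0),(1,2),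
  (0,0),(32,0)]⟩),⟨false,1,⟨1,[(16,0),(0,0),(21,0)]⟩,⟨0,[]⟩⟩,⟨true,0,⟨0,[(41,0)]⟩,⟨0,[]⟩⟩,⟨true,0,
  ⟨0,[(37,0)]⟩,⟨0,[(36,0)]⟩⟩,⟨false,0,⟨0,[(37,0)]⟩,⟨0,[(36,0),(2,0)]⟩⟩,[.o ⟨false,0,⟨0,[(36,0)]⟩,⟨3,
  [(1,0),(2,1),(1,0),(26,0),(5,1)]⟩⟩,.e ⟨true,1,⟨3,[(0,5),(0,4),(3,0),(1,1),(0,1),(9,0),(4,1),(6,1),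
  (1,1),(0,1),(4,2)]⟩,⟨0,[(3,0),(37,0)]⟩⟩ ⟨true,1,⟨1,[(36,1),(1,0),(0,0)]⟩,⟨0,[(3,0)]⟩⟩,.o ⟨false,0,
  ⟨1,[(23,0),(0,0)]⟩,⟨1,[(28,0),(9,0)]⟩⟩,.a ⟨true,(-1),⟨0,[(0,0),(0,0),(1,0),(32,0)]⟩,⟨0,[(38,0)]⟩⟩
  ⟨false,2,⟨0,[(36,0),(1,0),(0,0)]⟩,⟨0,[(3,0)]⟩⟩ ⟨true,1,⟨0,[(36,0),(1,0)]⟩,⟨0,[(3,0)]⟩⟩]⟩)) (.S ⟨1,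
  3,[],[0,0,0,0,1],[0,1],(⟨0,[(18,0)]⟩,⟨0,[(17,0)]⟩),⟨0,[(1,0)]⟩,.k,(.r (-1) ⟨1,[(35,1),(1,0),(0,
  0)]⟩ ⟨10,[(2,1),(0,1),(1,1),(6,1),(9,3),(13,4),(2,2)]⟩),⟨true,0,⟨0,[(40,0)]⟩,⟨0,[]⟩⟩,⟨false,1,⟨1,
  [(4,0),(10,0),(1,0),(6,0),(0,0),(3,1),(1,1)]⟩,⟨0,[(0,0)]⟩⟩,⟨false,0,⟨0,[(0,0),(1,0),(1,0),(12,0),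
  (11,1)]⟩,⟨0,[(35,0),(2,0)]⟩⟩,⟨true,0,⟨0,[(2,0),(1,0),(12,0),(11,1)]⟩,⟨0,[(0,0),(34,0)]⟩⟩,[.fa
  ⟨true,0,⟨0,[(40,0)]⟩,⟨0,[(34,0)]⟩⟩ ⟨false,1,⟨1,[(4,0),(10,0),(1,0),(6,0),(0,0),(3,1)]⟩,⟨0,[(0,
  0)]⟩⟩,.e ⟨false,1,⟨1,[(15,0),(0,0),(20,0)]⟩,⟨0,[]⟩⟩ ⟨false,1,⟨0,[(4,0),(12,0),(11,1),(1,0)]⟩,⟨0,
  [(0,0),(39,0)]⟩⟩,.o ⟨false,0,⟨0,[(0,0)]⟩,⟨0,[(15,0)]⟩⟩,.o ⟨false,0,⟨1,[(0,1),(21,0),(0,0)]⟩,⟨10,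
  [(2,1),(1,8),(1,0),(0,0),(7,1),(1,8),(4,0),(6,17),(1,1),(0,2)]⟩⟩]⟩)) (.R ⟨2,true,false,true,[0,1],
  [0,0,0,0,1],[1,0,1],(⟨0,[]⟩,⟨0,[]⟩),(⟨0,[(17,0)]⟩,⟨0,[(16,0)]⟩),⟨0,[]⟩,.k,.k,.k,(.r 0 ⟨10,[(1,1),
  (0,1),(1,1),(6,1),(9,3),(13,4),(2,2)]⟩ ⟨1,[(34,1),(1,0),(0,0)]⟩),.k,.k,⟨true,0,⟨0,[(30,0)]⟩,⟨0,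
  [(39,0)]⟩⟩,⟨false,0,⟨0,[(15,0)]⟩,⟨1,[(0,0),(2,0),(10,0),(13,0)]⟩⟩,⟨false,1,⟨0,[(34,0),(2,0)]⟩,⟨0,
  [(35,0)]⟩⟩,⟨true,0,⟨0,[(15,0),(18,0)]⟩,⟨0,[(0,0),(0,0),(1,0),(24,0)]⟩⟩,⟨true,0,⟨0,[]⟩,⟨0,[(39,
  0)]⟩⟩,⟨false,0,⟨0,[(15,0)]⟩,⟨1,[(0,0),(2,0),(10,0),(13,0),(1,1)]⟩⟩,[]⟩)) (.Q [0,0,0,1,0,0,-1,-1,1,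
  0,-1,1] (.p false [0,0,1] [0,0,0,0,1] (⟨0,[(23,0)]⟩,⟨0,[(22,0)]⟩) .k 2 (⟨0,[(16,0)]⟩,⟨0,[(15,
  0)]⟩) .k (.r 0 ⟨0,[(0,1),(3,0),(0,1),(14,0),(8,2),(4,4)]⟩ ⟨1,[(19,1),(0,1),(14,0),(0,0)]⟩)) (.Q
  [1,0,0,-2,0,0,0,0,1,0,0,1] (.p true [0,0,0,0,1] [] (⟨0,[(17,0)]⟩,⟨0,[(16,0)]⟩) .k 0 (⟨0,[]⟩,⟨0,
  []⟩) .k .k) (.Q [0,0,0,-1,0,0,0,0,0,1] (.pp false [-1,1]) (.R ⟨1,false,false,false,[0,0,0,0,1],[0,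
  1],[1,1],(⟨0,[(19,0)]⟩,⟨0,[(18,0)]⟩),(⟨0,[(30,0)]⟩,⟨0,[(29,0)]⟩),⟨3,[(2,0),(2,0),(2,0),(10,2),(3,
  0),(3,1),(4,0)]⟩,.k,.k,(.r (-1) ⟨1,[(1,0),(14,0),(21,0)]⟩ ⟨1,[(23,0),(0,0),(12,1)]⟩),(.r (-1) ⟨1,
  [(1,0),(14,0),(21,0)]⟩ ⟨1,[(23,0),(0,0),(12,1)]⟩),(.x 0 ⟨13,[(1,5),(2,7),(2,1),(0,1),(9,13),(4,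
  12),(0,10),(5,27),(1,3),(0,1)]⟩ ⟨0,[(5,0)]⟩),.k,⟨false,1,⟨3,[(1,0),(1,1),(12,0),(14,1),(6,0)]⟩,⟨0,
  [(32,0),(4,0)]⟩⟩,⟨true,1,⟨2,[(5,2),(2,0),(9,2),(3,0),(0,0),(6,5),(1,1),(0,0),(3,0)]⟩,⟨0,[(2,0),(5,
  0),(14,0),(8,0)]⟩⟩,⟨true,0,⟨0,[(41,0)]⟩,⟨0,[]⟩⟩,⟨false,1,⟨2,[(5,2),(2,0),(9,2),(3,0),(0,0),(6,5),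
  (1,4),(0,0),(3,3)]⟩,⟨1,[(1,0),(15,0)]⟩⟩,⟨false,0,⟨0,[(37,0)]⟩,⟨1,[(1,0),(14,0),(22,0)]⟩⟩,⟨false,1,
  ⟨2,[(5,2),(2,0),(9,2),(3,0),(0,0),(6,5),(1,4),(0,0),(3,6)]⟩,⟨0,[(1,0)]⟩⟩,[.a ⟨true,0,⟨0,[(37,0)]⟩,
  ⟨0,[(0,0)]⟩⟩ ⟨true,0,⟨0,[(41,0)]⟩,⟨0,[(32,0)]⟩⟩ ⟨false,1,⟨2,[(5,2),(2,0),(9,2),(3,0),(0,0),(6,5),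
  (1,1),(0,0),(3,3)]⟩,⟨4,[(1,1),(0,0),(0,0),(4,0),(8,1),(5,0),(8,0)]⟩⟩,.o ⟨false,1,⟨3,[(4,0),(11,0),
  (16,0),(3,1),(1,1)]⟩,⟨0,[(36,0)]⟩⟩,.e ⟨false,0,⟨0,[]⟩,⟨1,[(16,0),(0,0),(21,0)]⟩⟩ ⟨false,1,⟨2,[(5,
  2),(2,0),(9,2),(3,0),(0,0),(6,5),(1,4),(0,0),(3,3)]⟩,⟨4,[(1,1),(0,0),(0,0),(4,0),(8,1),(5,0),(8,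
  0)]⟩⟩,.o ⟨false,0,⟨13,[(1,5),(2,7),(2,1),(0,1),(14,2),(0,0),(7,3),(0,1),(6,5)]⟩,⟨2,[(5,2),(2,0),
  (9,2),(3,0),(0,0),(6,5),(1,1),(0,0),(3,0)]⟩⟩]⟩) (.S ⟨1,0,[0,0,0,0,0,0,0,1],[0,0,1],[0,1,0,0,0,0,0,
  1],(⟨0,[(26,0)]⟩,⟨0,[(25,0)]⟩),⟨0,[(15,0)]⟩,.k,.k,⟨true,0,⟨0,[(41,0)]⟩,⟨0,[]⟩⟩,⟨false,1,⟨1,[(16,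
  0),(0,0),(21,0)]⟩,⟨0,[]⟩⟩,⟨false,0,⟨0,[(37,0)]⟩,⟨1,[(1,0),(14,0),(22,0)]⟩⟩,⟨true,0,⟨0,[(37,0)]⟩,
  ⟨0,[(36,0)]⟩⟩,[.o ⟨false,0,⟨0,[(0,0),(8,0),(13,0)]⟩,⟨5,[(1,0),(0,3),(4,1),(8,4),(22,0)]⟩⟩,.o
  ⟨false,1,⟨2,[(11,1),(9,0),(11,0),(5,1)]⟩,⟨0,[(22,0)]⟩⟩,.o ⟨false,1,⟨1,[(23,1),(4,0),(9,0)]⟩,⟨8,
  [(0,1),(6,0),(0,0),(4,2),(6,1),(11,1),(0,0)]⟩⟩,.a ⟨true,0,⟨0,[(23,0)]⟩,⟨0,[(20,0)]⟩⟩ ⟨false,0,⟨0,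
  [(9,0),(27,0)]⟩,⟨0,[(22,0),(0,0),(15,0)]⟩⟩ ⟨true,0,⟨0,[(9,0),(27,0)]⟩,⟨0,[(22,0),(0,0)]⟩⟩]⟩)) (.R
  ⟨1,true,false,false,[0,0,1],[0,0,0,0,1],[0,1,0,0,0,0,0,1],(⟨0,[(25,0)]⟩,⟨0,[(24,0)]⟩),(⟨0,[(18,
  0)]⟩,⟨0,[(17,0)]⟩),⟨0,[(14,0)]⟩,.k,.k,.k,.k,(.r 0 ⟨0,[(0,0),(0,0),(0,1),(4,1),(14,0),(8,1)]⟩ ⟨0,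
  [(1,0),(13,0),(6,0)]⟩),.k,⟨true,(-1),⟨0,[(0,0),(0,0),(0,0),(4,1),(14,0),(8,0)]⟩,⟨0,[(21,0),(0,0),
  (15,0)]⟩⟩,⟨false,0,⟨0,[(1,0),(6,0)]⟩,⟨4,[(0,2),(1,3),(3,0),(0,0),(7,1),(6,5),(8,1)]⟩⟩,⟨true,0,⟨0,
  [(40,0)]⟩,⟨0,[]⟩⟩,⟨false,1,⟨3,[(1,1),(4,1),(8,0),(0,2),(21,2)]⟩,⟨0,[(0,0),(1,0),(4,0),(14,0),(8,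
  0)]⟩⟩,⟨false,0,⟨0,[(36,0)]⟩,⟨0,[(35,0),(2,0)]⟩⟩,⟨true,0,⟨0,[(1,0)]⟩,⟨4,[(0,2),(1,3),(3,0),(0,5),
  (7,1),(6,5),(8,1)]⟩⟩,[]⟩)) (.Q [0,0,0,0,0,0,1,1,0,-1,1] (.p true [0,0,1] [1] (⟨0,[(24,0)]⟩,⟨0,
  [(23,0)]⟩) .k 1 (⟨0,[]⟩,⟨0,[]⟩) .k .k) (.S ⟨1,0,[0,0,0,0,0,0,0,1],[0,0,1],[1,1,0,-1,0,0,0,1],(⟨0,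
  [(25,0)]⟩,⟨0,[(24,0)]⟩),⟨0,[(14,0)]⟩,.k,.k,⟨true,0,⟨0,[(35,0)]⟩,⟨0,[(36,0)]⟩⟩,⟨false,1,⟨1,[(15,0),
  (0,0),(21,0)]⟩,⟨0,[]⟩⟩,⟨false,0,⟨0,[]⟩,⟨1,[(15,0),(0,0),(21,0)]⟩⟩,⟨true,0,⟨0,[(36,0)]⟩,⟨0,[(35,
  0)]⟩⟩,[.o ⟨false,0,⟨0,[(0,0)]⟩,⟨1,[(15,0),(0,0),(4,1),(16,0)]⟩⟩,.o ⟨false,1,⟨4,[(0,1),(19,2),(11,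
  0),(5,3)]⟩,⟨0,[(21,0)]⟩⟩,.o ⟨false,1,⟨1,[(22,1),(4,0),(9,0)]⟩,⟨4,[(7,0),(4,0),(6,1),(1,0),(9,1),
  (0,0),(3,0)]⟩⟩,.a ⟨true,0,⟨0,[(22,0)]⟩,⟨0,[(19,0)]⟩⟩ ⟨false,0,⟨0,[(8,0)]⟩,⟨0,[(21,0),(0,0),(13,0),
  (1,0)]⟩⟩ ⟨true,0,⟨0,[(0,0),(18,0)]⟩,⟨0,[(21,0),(0,0)]⟩⟩]⟩) (.Q [0,0,1,0,-1,0,-1,0,1,0,-1,1] (.p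
  false [0,0,1] [0,0,0,0,1] (⟨0,[(25,0)]⟩,⟨0,[(24,0)]⟩) .k 2 (⟨0,[(18,0)]⟩,⟨0,[(17,0)]⟩) .k (.r 0
  ⟨0,[(2,1),(3,0),(0,1),(14,0),(8,2),(4,4)]⟩ ⟨1,[(0,1),(21,1),(4,0),(9,0)]⟩)) (.S ⟨1,0,[1],[0,0,0,0,
  1],[1,1],(⟨0,[(19,0)]⟩,⟨0,[(18,0)]⟩),⟨2,[(0,0),(4,0),(13,1),(3,0),(3,0)]⟩,.k,(.r (-1) ⟨3,[(3,1),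
  (12,0),(0,0),(18,1),(2,0)]⟩ ⟨1,[(23,0),(0,0),(12,1)]⟩),⟨true,0,⟨0,[(41,0)]⟩,⟨0,[]⟩⟩,⟨false,1,⟨1,
  [(16,0),(0,0),(21,0)]⟩,⟨0,[]⟩⟩,⟨false,0,⟨0,[(37,0)]⟩,⟨0,[(36,0),(2,0)]⟩⟩,⟨true,0,⟨0,[(37,0)]⟩,⟨0,
  [(36,0)]⟩⟩,[.e ⟨true,0,⟨0,[(41,0)]⟩,⟨0,[(32,0)]⟩⟩ ⟨true,0,⟨0,[]⟩,⟨1,[(23,0),(0,0)]⟩⟩,.o ⟨false,1,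
  ⟨1,[(17,1),(10,0),(10,0)]⟩,⟨0,[(2,0),(19,0),(14,0)]⟩⟩,.a ⟨true,0,⟨0,[(17,0)]⟩,⟨0,[(1,0),(0,0),(34,
  0)]⟩⟩ ⟨false,0,⟨0,[]⟩,⟨1,[(16,0),(0,0),(21,0)]⟩⟩ ⟨true,0,⟨0,[]⟩,⟨0,[(41,0)]⟩⟩,.o ⟨false,0,⟨11,[(0,
  3),(16,7),(5,4),(0,0),(8,3),(6,1)]⟩,⟨3,[(1,2),(0,2),(13,0),(16,0),(3,2),(0,1)]⟩⟩]⟩) (.R ⟨2,true,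
  false,false,[0,1],[1,0,-1],[0,1,1,1],(⟨0,[]⟩,⟨0,[]⟩),(⟨0,[(25,0)]⟩,⟨0,[(26,0)]⟩),⟨0,[]⟩,.k,.k,.k,
  .k,.k,.k,⟨false,(-1),⟨0,[(8,0),(28,1)]⟩,⟨0,[(0,0),(6,0),(9,0),(21,0)]⟩⟩,⟨true,(-1),⟨0,[(1,0),(6,
  0),(23,0),(4,0)]⟩,⟨1,[(0,0),(16,0),(5,0),(4,0)]⟩⟩,⟨true,0,⟨0,[(41,0)]⟩,⟨0,[]⟩⟩,⟨false,1,⟨0,[(1,0),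
  (34,0),(2,0)]⟩,⟨0,[(0,0),(3,0),(3,0),(23,0)]⟩⟩,⟨false,0,⟨0,[(37,0)]⟩,⟨0,[(36,0),(2,0)]⟩⟩,⟨true,0,
  ⟨0,[(1,0)]⟩,⟨7,[(2,1),(1,1),(3,1),(2,2),(9,0),(1,1),(7,1),(1,1),(7,0)]⟩⟩,[]⟩)))))) (.Q [0,0,0,0,0,
  0,-1,-1,0,1,-1] (.p false [0,0,1] [1] (⟨0,[(21,0)]⟩,⟨0,[(20,0)]⟩) .k 1 (⟨0,[]⟩,⟨0,[]⟩) .k .k) (.Q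
  [0,0,0,-1,0,0,-1,-1,0,1,-1] (.p false [0,0,1] [1] (⟨0,[(22,0)]⟩,⟨0,[(21,0)]⟩) .k 1 (⟨0,[]⟩,⟨0,
  []⟩) .k .k) (.Q [0,0,0,2,0,0,1,1,0,-1,1] (.p true [0,0,1] [1] (⟨0,[(23,0)]⟩,⟨0,[(22,0)]⟩) .k 1
  (⟨0,[]⟩,⟨0,[]⟩) .k .k) (.R ⟨1,true,false,false,[1,0,-1],[0,1],[0,1,0,0,0,0,0,-1],(⟨0,[(23,0)]⟩,⟨0,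
  [(24,0)]⟩),(⟨0,[(28,0)]⟩,⟨0,[(27,0)]⟩),⟨0,[(12,0)]⟩,.k,.k,.k,.k,(.r (-2) ⟨1,[(1,2),(5,0),(13,2),
  (9,0),(4,2)]⟩ ⟨1,[(0,2),(1,2),(3,1),(14,0),(0,0),(7,1)]⟩),.k,⟨true,1,⟨0,[(5,0),(15,0),(14,0)]⟩,⟨0,
  [(0,0),(1,0),(3,0),(23,1)]⟩⟩,⟨false,2,⟨1,[(21,1),(4,0),(9,2)]⟩,⟨1,[(0,0),(1,2),(3,1),(23,1)]⟩⟩,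
  ⟨true,0,⟨0,[(39,0)]⟩,⟨0,[]⟩⟩,⟨false,1,⟨3,[(0,1),(18,1),(6,0),(10,2)]⟩,⟨0,[(1,0)]⟩⟩,⟨false,0,⟨0,
  [(35,0)]⟩,⟨0,[(34,0),(2,0)]⟩⟩,⟨true,0,⟨0,[(0,0)]⟩,⟨0,[(1,0),(32,0)]⟩⟩,[]⟩) (.Q [-1,1,0,0,0,0,0,0,
  -1,1,0,-1] (.p false [0,0,0,0,1] [1] (⟨0,[(17,0)]⟩,⟨0,[(16,0)]⟩) .k 1 (⟨0,[]⟩,⟨0,[]⟩) .k .k) (.Q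
  [1,0,0,1,0,0,0,0,1,-1,0,1] (.p true [0,0,0,0,1] [1] (⟨0,[(18,0)]⟩,⟨0,[(17,0)]⟩) .k 1 (⟨0,[]⟩,⟨0,
  []⟩) .k .k) (.Q [0,0,-1,0,1,0,0,0,-1,0,0,-1] (.p false [0,0,0,0,1] [] (⟨0,[(19,0)]⟩,⟨0,[(18,0)]⟩)
  .k 0 (⟨0,[]⟩,⟨0,[]⟩) .k .k) (.Q [1,0,0,0,0,0,0,0,1,-1,0,1] (.p true [0,0,0,0,1] [1] (⟨0,[(20,0)]⟩,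
  ⟨0,[(19,0)]⟩) .k 1 (⟨0,[]⟩,⟨0,[]⟩) .k .k) (.R ⟨1,false,false,true,[0,0,1],[0,0,0,0,1],[1,0,0,-1,0,
  0,0,1],(⟨0,[(28,0)]⟩,⟨0,[(27,0)]⟩),(⟨0,[(21,0)]⟩,⟨0,[(20,0)]⟩),⟨0,[(17,0)]⟩,.k,.k,.k,.k,(.r 0 ⟨0,
  [(10,0),(23,0),(5,0)]⟩ ⟨0,[(2,0),(3,0),(11,0),(6,0)]⟩),.k,⟨true,0,⟨0,[(11,0),(22,0)]⟩,⟨0,[(24,0),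
  (0,0),(13,0)]⟩⟩,⟨false,0,⟨4,[(0,4),(3,0),(5,0),(11,3),(11,0),(4,2),(0,0)]⟩,⟨0,[(1,0),(23,0)]⟩⟩,
  ⟨false,1,⟨0,[(38,0),(2,0)]⟩,⟨0,[(39,0)]⟩⟩,⟨false,0,⟨1,[(2,1),(1,0),(1,0)]⟩,⟨0,[(1,0),(11,0),(20,
  0)]⟩⟩,⟨true,0,⟨0,[]⟩,⟨0,[(43,0)]⟩⟩,⟨false,0,⟨0,[(2,0),(3,0)]⟩,⟨0,[(1,0),(9,0),(13,0),(8,0)]⟩⟩,[.o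
  ⟨false,0,⟨0,[(2,0),(35,0)]⟩,⟨0,[(1,0),(32,0)]⟩⟩,.o ⟨false,0,⟨0,[(0,0)]⟩,⟨0,[(8,0)]⟩⟩,.o ⟨false,1,
  ⟨1,[(25,1),(4,0),(9,0)]⟩,⟨3,[(6,0),(3,0),(4,0),(6,0),(11,0),(0,0),(3,0)]⟩⟩,.a ⟨true,0,⟨0,[(25,
  0)]⟩,⟨0,[(22,0)]⟩⟩ ⟨true,0,⟨0,[(11,0)]⟩,⟨0,[(24,0),(0,0),(13,0)]⟩⟩ ⟨false,0,⟨0,[(0,0),(21,0)]⟩,⟨0,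
  [(1,0),(23,0),(8,0)]⟩⟩]⟩) (.R ⟨2,true,false,true,[0,1],[1,0,0,0,-1],[1,0,1],(⟨0,[]⟩,⟨0,[]⟩),(⟨0,
  [(20,0)]⟩,⟨0,[(21,0)]⟩),⟨0,[]⟩,.k,.k,.k,(.r 0 ⟨1,[(25,0),(0,0),(12,1)]⟩ ⟨1,[(38,1),(1,0),(0,0)]⟩),
  .k,.k,⟨true,0,⟨0,[(34,0)]⟩,⟨0,[(43,0)]⟩⟩,⟨false,0,⟨0,[(0,0)]⟩,⟨1,[(19,1),(10,0),(9,0)]⟩⟩,⟨false,1,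
  ⟨0,[(38,0),(2,0)]⟩,⟨0,[(39,0)]⟩⟩,⟨true,0,⟨3,[(0,0),(0,0),(1,1),(0,0),(5,0),(14,0),(12,0)]⟩,⟨0,[(2,
  0)]⟩⟩,⟨true,0,⟨0,[]⟩,⟨0,[(43,0)]⟩⟩,⟨false,0,⟨0,[(0,0)]⟩,⟨1,[(19,1),(10,0),(10,0)]⟩⟩,[]⟩)) (.Q [0,
  0,0,0,0,-1,0,0,0,0,0,1] (.ed false [1,-1,0,0,1] .k) (.S ⟨1,0,[1],[0,0,0,0,1],[1,1],(⟨0,[(21,0)]⟩,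
  ⟨0,[(20,0)]⟩),⟨0,[(0,0)]⟩,.k,(.r (-1) ⟨1,[(38,1),(1,0),(0,0)]⟩ ⟨1,[(25,0),(0,0),(12,1)]⟩),⟨true,0,
  ⟨0,[(43,0)]⟩,⟨0,[]⟩⟩,⟨false,1,⟨1,[(18,0),(0,0),(21,0)]⟩,⟨0,[]⟩⟩,⟨false,0,⟨0,[(39,0)]⟩,⟨0,[(38,0),
  (2,0)]⟩⟩,⟨true,0,⟨0,[(39,0)]⟩,⟨0,[(38,0)]⟩⟩,[.o ⟨false,0,⟨2,[(1,1),(17,0),(15,0),(4,0)]⟩,⟨0,[(8,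
  0)]⟩⟩,.a ⟨true,0,⟨1,[(1,1),(38,0),(0,0)]⟩,⟨0,[(3,0)]⟩⟩ ⟨true,0,⟨0,[]⟩,⟨1,[(25,0),(0,0)]⟩⟩ ⟨false,
  1,⟨1,[(40,0),(0,0)]⟩,⟨0,[(43,0)]⟩⟩,.o ⟨false,0,⟨2,[(1,1),(17,0),(15,0),(4,0)]⟩,⟨0,[(18,0)]⟩⟩,.e
  ⟨false,1,⟨1,[(18,0),(0,0),(20,0)]⟩,⟨0,[(34,0)]⟩⟩ ⟨false,1,⟨1,[(40,0),(0,0)]⟩,⟨1,[(25,0),(0,
  0)]⟩⟩]⟩) (.S ⟨1,0,[-1,1],[1,0,0,0,-1],[-1],(⟨0,[(20,0)]⟩,⟨0,[(21,0)]⟩),⟨0,[(0,0),(15,0),(0,0)]⟩,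
  .k,(.r (-1) ⟨1,[(38,1),(1,0),(0,0)]⟩ ⟨1,[(25,0),(0,0),(12,1)]⟩),⟨false,1,⟨1,[(18,0),(0,0),(21,
  0)]⟩,⟨0,[]⟩⟩,⟨true,0,⟨0,[(43,0)]⟩,⟨0,[]⟩⟩,⟨true,0,⟨0,[(39,0)]⟩,⟨0,[(38,0)]⟩⟩,⟨false,0,⟨0,[(39,
  0)]⟩,⟨0,[(38,0),(2,0)]⟩⟩,[.a ⟨true,0,⟨0,[(3,0)]⟩,⟨1,[(1,1),(38,0),(0,0)]⟩⟩ ⟨false,1,⟨1,[(8,0),(10,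
  0),(20,0)]⟩,⟨0,[]⟩⟩ ⟨true,0,⟨0,[(43,0)]⟩,⟨0,[(34,0)]⟩⟩,.o ⟨false,1,⟨0,[(8,0)]⟩,⟨2,[(1,1),(17,0),
  (15,0),(4,0)]⟩⟩,.o ⟨false,1,⟨0,[(18,0)]⟩,⟨2,[(1,1),(17,0),(15,0),(4,0)]⟩⟩,.e ⟨false,1,⟨0,[(34,0),
  (5,0)]⟩,⟨1,[(25,0),(0,0)]⟩⟩ ⟨false,1,⟨1,[(8,0),(10,0),(20,0)]⟩,⟨0,[(34,0)]⟩⟩]⟩))) (.Q [1,0,0,2,0,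
  0,0,0,1,-1,0,1] (.p true [0,0,0,0,1] [1] (⟨0,[(19,0)]⟩,⟨0,[(18,0)]⟩) .k 1 (⟨0,[]⟩,⟨0,[]⟩) .k .k)
  (.R ⟨1,false,false,true,[1,0,0,0,-1],[1,-1],[-1],(⟨0,[(19,0)]⟩,⟨0,[(20,0)]⟩),(⟨0,[(30,0)]⟩,⟨0,
  [(31,0)]⟩),⟨0,[(1,0),(4,0),(21,2),(9,0),(0,0)]⟩,.k,.k,(.r (-1) ⟨1,[(37,1),(1,0),(0,0)]⟩ ⟨3,[(0,1),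
  (1,1),(21,0),(0,0),(7,1)]⟩),(.r 0 ⟨7,[(0,3),(1,3),(21,0),(0,0),(7,3),(7,1)]⟩ ⟨1,[(37,1),(1,0),(0,
  0)]⟩),.k,.k,⟨true,0,⟨0,[(33,0),(4,0)]⟩,⟨0,[(37,0)]⟩⟩,⟨false,0,⟨0,[(18,0)]⟩,⟨3,[(1,2),(15,0),(16,
  0),(3,2),(0,1)]⟩⟩,⟨false,1,⟨1,[(17,0),(0,0),(21,0)]⟩,⟨0,[]⟩⟩,⟨false,0,⟨0,[(0,0),(2,0),(6,0),(13,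
  0)]⟩,⟨3,[(1,2),(15,0),(16,0),(3,6),(1,1)]⟩⟩,⟨true,0,⟨0,[(38,0)]⟩,⟨0,[(37,0)]⟩⟩,⟨false,0,⟨0,[(18,
  0)]⟩,⟨3,[(1,2),(15,0),(16,0),(3,2),(1,1)]⟩⟩,[.o ⟨false,0,⟨0,[(37,0)]⟩,⟨3,[(0,0),(16,0),(16,0),(3,
  1),(1,1)]⟩⟩,.a ⟨true,0,⟨1,[(3,0),(1,0),(6,1)]⟩,⟨0,[(38,0)]⟩⟩ ⟨false,1,⟨0,[(33,0),(5,0)]⟩,⟨0,[(42,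
  0)]⟩⟩ ⟨true,0,⟨1,[(0,1),(2,1),(5,0),(0,0),(13,1),(8,0),(5,0)]⟩,⟨2,[(1,2),(7,0),(13,0),(0,0),(8,1),
  (0,0),(3,6)]⟩⟩,.e ⟨false,1,⟨1,[(7,0),(10,0),(21,0)]⟩,⟨0,[]⟩⟩ ⟨false,0,⟨1,[(0,1),(2,1),(5,0),(0,0),
  (13,1),(8,0),(5,0)]⟩,⟨3,[(1,2),(15,0),(16,0),(3,6),(1,1)]⟩⟩,.o ⟨false,0,⟨2,[(1,2),(7,0),(13,0),(0,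
  0),(8,1),(0,0),(3,3)]⟩,⟨1,[(18,1),(10,0),(9,0)]⟩⟩]⟩) (.Q [0,0,0,0,0,0,1,1,1,-1,1,1] (.p true [0,0,
  1] [1,0,0,0,-1] (⟨0,[(27,0)]⟩,⟨0,[(26,0)]⟩) .k 2 (⟨0,[(19,0)]⟩,⟨0,[(20,0)]⟩) .k (.r 0 ⟨2,[(10,0),
  (0,0),(1,0),(24,0)]⟩ ⟨1,[(23,1),(0,1),(14,0),(0,0)]⟩)) (.R ⟨1,false,false,true,[1,0,0,0,-1],[1,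
  -1],[-1],(⟨0,[(20,0)]⟩,⟨0,[(21,0)]⟩),(⟨0,[(31,0)]⟩,⟨0,[(32,0)]⟩),⟨1,[(1,0),(5,0),(12,0),(8,3),(9,
  1),(0,0)]⟩,.k,.k,(.r (-1) ⟨1,[(38,1),(1,0),(0,0)]⟩ ⟨1,[(25,0),(0,0),(12,1)]⟩),(.r 0 ⟨1,[(25,0),(0,
  0),(12,1)]⟩ ⟨1,[(38,1),(1,0),(0,0)]⟩),.k,.k,⟨true,0,⟨0,[(34,0),(4,0)]⟩,⟨0,[(38,0)]⟩⟩,⟨false,0,⟨0,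
  [(19,0)]⟩,⟨3,[(2,2),(15,0),(16,0),(3,2),(0,1)]⟩⟩,⟨false,1,⟨1,[(18,0),(0,0),(21,0)]⟩,⟨0,[]⟩⟩,
  ⟨false,0,⟨1,[(0,0),(3,0),(14,0)]⟩,⟨3,[(2,2),(15,0),(16,0),(3,6),(1,1)]⟩⟩,⟨true,0,⟨0,[(39,0)]⟩,⟨0,
  [(38,0)]⟩⟩,⟨false,0,⟨0,[(19,0)]⟩,⟨3,[(2,2),(15,0),(16,0),(3,2),(1,1)]⟩⟩,[.o ⟨false,0,⟨0,[(38,0)]⟩,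
  ⟨1,[(30,0),(8,1),(1,0)]⟩⟩,.a ⟨true,0,⟨1,[(4,0),(1,0),(6,1)]⟩,⟨0,[(39,0)]⟩⟩ ⟨false,1,⟨0,[(34,0),(5,
  0)]⟩,⟨0,[(43,0)]⟩⟩ ⟨true,0,⟨1,[(0,0),(3,0),(14,0)]⟩,⟨2,[(2,2),(7,0),(13,0),(0,0),(8,1),(0,0),(3,
  6)]⟩⟩,.e ⟨false,1,⟨1,[(8,0),(10,0),(21,0)]⟩,⟨0,[]⟩⟩ ⟨false,0,⟨1,[(0,0),(3,0),(14,0)]⟩,⟨3,[(2,2),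
  (15,0),(16,0),(3,6),(1,1)]⟩⟩,.o ⟨false,0,⟨2,[(2,2),(7,0),(13,0),(0,0),(8,1),(0,0),(3,3)]⟩,⟨1,[(19,
  1),(10,0),(9,0)]⟩⟩]⟩) (.S ⟨1,0,[-1,1],[1,0,0,0,-1],[-1],(⟨0,[(20,0)]⟩,⟨0,[(21,0)]⟩),⟨1,[(1,0),(5,
  0),(12,0),(8,3),(9,1),(0,0)]⟩,.k,(.r (-1) ⟨1,[(38,1),(1,0),(0,0)]⟩ ⟨1,[(25,0),(0,0),(12,1)]⟩),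
  ⟨false,1,⟨1,[(18,0),(0,0),(21,0)]⟩,⟨0,[]⟩⟩,⟨true,0,⟨0,[(43,0)]⟩,⟨0,[]⟩⟩,⟨true,0,⟨0,[(39,0)]⟩,⟨0,
  [(38,0)]⟩⟩,⟨false,0,⟨0,[(39,0)]⟩,⟨0,[(38,0),(2,0)]⟩⟩,[.o ⟨false,0,⟨2,[(0,1),(1,0),(7,0),(2,0),(11,
  0),(7,0),(1,0),(3,1)]⟩,⟨1,[(19,1),(10,0),(10,0)]⟩⟩,.e ⟨false,1,⟨0,[(34,0),(5,0)]⟩,⟨0,[(43,0)]⟩⟩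
  ⟨false,1,⟨1,[(8,0),(10,0),(20,0)]⟩,⟨0,[]⟩⟩,.a ⟨true,0,⟨0,[(0,0),(12,0)]⟩,⟨0,[(19,0)]⟩⟩ ⟨false,1,
  ⟨1,[(8,0),(10,0),(21,0)]⟩,⟨0,[]⟩⟩ ⟨true,0,⟨0,[(43,0)]⟩,⟨0,[]⟩⟩,.o ⟨false,0,⟨2,[(0,1),(2,0),(6,0),
  (2,0),(11,0),(8,1),(0,0),(3,0)]⟩,⟨1,[(19,1),(10,0),(9,0)]⟩⟩]⟩)))) (.R ⟨1,false,false,false,[0,0,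
  1],[0,0,0,0,1],[1,0,0,-1,0,0,0,1],(⟨0,[(25,0)]⟩,⟨0,[(24,0)]⟩),(⟨0,[(18,0)]⟩,⟨0,[(17,0)]⟩),⟨0,[(14,
  0)]⟩,.k,.k,.k,.k,(.r 0 ⟨0,[(7,0),(23,0),(5,0)]⟩ ⟨1,[(15,0),(0,0),(4,1),(0,1),(13,1),(1,0)]⟩),.k,
  ⟨false,0,⟨0,[(7,0),(23,0),(5,0)]⟩,⟨1,[(21,1),(0,1),(13,1),(0,0),(0,0)]⟩⟩,⟨true,(-1),⟨0,[(0,0),(2,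
  0),(3,0),(28,0)]⟩,⟨0,[(15,0),(6,0)]⟩⟩,⟨false,1,⟨0,[(35,0),(2,0)]⟩,⟨0,[(36,0)]⟩⟩,⟨false,0,⟨0,[(0,
  0),(2,0)]⟩,⟨0,[(5,0),(4,0)]⟩⟩,⟨true,0,⟨0,[]⟩,⟨0,[(40,0)]⟩⟩,⟨false,0,⟨0,[(0,0),(2,0),(32,0)]⟩,⟨0,
  [(5,0),(2,0),(13,0)]⟩⟩,[.o ⟨false,0,⟨6,[(0,3),(3,0),(11,1),(1,0),(7,1),(3,1),(1,0)]⟩,⟨0,[(5,0)]⟩⟩,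
  .o ⟨false,0,⟨0,[(0,0)]⟩,⟨0,[(15,0),(24,0)]⟩⟩,.o ⟨false,1,⟨1,[(22,1),(4,0),(9,0)]⟩,⟨3,[(3,0),(3,0),
  (4,0),(6,0),(11,0),(0,0),(3,0)]⟩⟩,.a ⟨true,0,⟨0,[(22,0)]⟩,⟨0,[(19,0)]⟩⟩ ⟨true,0,⟨0,[(8,0)]⟩,⟨0,
  [(21,0),(0,0),(13,0)]⟩⟩ ⟨false,0,⟨0,[(0,0),(18,0)]⟩,⟨0,[(5,0),(16,0)]⟩⟩]⟩))) (.R ⟨2,true,false,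
  false,[0,1],[1,0,-1],[0,1,1,1],(⟨0,[]⟩,⟨0,[]⟩),(⟨0,[(22,0)]⟩,⟨0,[(23,0)]⟩),⟨0,[]⟩,.k,.k,.k,.k,.k,
  .k,⟨false,(-1),⟨0,[(5,0),(28,1)]⟩,⟨0,[(4,0),(15,0),(14,0),(0,0)]⟩⟩,⟨true,(-1),⟨0,[(1,0),(3,0),(23,
  0),(4,0)]⟩,⟨1,[(20,1),(4,0),(9,0)]⟩⟩,⟨true,0,⟨0,[(38,0)]⟩,⟨0,[]⟩⟩,⟨false,1,⟨0,[(1,0),(31,0),(2,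
  0)]⟩,⟨0,[(0,0)]⟩⟩,⟨false,0,⟨0,[(34,0)]⟩,⟨0,[(33,0),(2,0)]⟩⟩,⟨true,0,⟨0,[(1,0)]⟩,⟨3,[(0,0),(4,0),
  (2,0),(9,0),(1,0),(7,0),(1,0)]⟩⟩,[]⟩)) (.S ⟨1,0,[0,0,0,0,0,0,0,1],[0,0,1],[1,1,0,-1,0,0,0,1],(⟨0,
  [(22,0)]⟩,⟨0,[(21,0)]⟩),⟨0,[(11,0)]⟩,.k,.k,⟨true,0,⟨0,[(32,0)]⟩,⟨0,[(33,0)]⟩⟩,⟨false,1,⟨1,[(12,0),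
  (0,0),(21,0)]⟩,⟨0,[]⟩⟩,⟨false,0,⟨0,[]⟩,⟨1,[(12,0),(0,0),(21,0)]⟩⟩,⟨true,0,⟨0,[(33,0)]⟩,⟨0,[(32,
  0)]⟩⟩,[.o ⟨false,0,⟨0,[(0,0)]⟩,⟨1,[(12,0),(0,0),(4,1),(16,0)]⟩⟩,.o ⟨false,1,⟨2,[(7,1),(9,0),(11,
  0),(5,1)]⟩,⟨0,[(18,0)]⟩⟩,.o ⟨false,1,⟨1,[(19,1),(4,0),(9,0)]⟩,⟨4,[(4,0),(4,0),(6,1),(1,0),(9,1),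
  (0,0),(3,0)]⟩⟩,.a ⟨true,0,⟨0,[(19,0)]⟩,⟨0,[(16,0)]⟩⟩ ⟨false,0,⟨0,[(5,0)]⟩,⟨0,[(18,0),(0,0),(13,0),
  (1,0)]⟩⟩ ⟨true,0,⟨0,[(5,0),(27,0)]⟩,⟨0,[(18,0),(0,0)]⟩⟩]⟩))))))

theorem ok10 : chk K t10 r7 = true := by decide +kernel

noncomputable def t12 : Tre :=
  (.S ⟨1,0,[0,0,0,0,0,0,0,-1],[1,0,-1],[0,1,0,0,0,0,0,-1],(⟨0,[(15,0)]⟩,⟨0,[(16,0)]⟩),⟨0,[(4,0)]⟩,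
  .k,.k,⟨true,0,⟨0,[(31,0)]⟩,⟨0,[]⟩⟩,⟨false,1,⟨1,[(6,0),(0,0),(21,0)]⟩,⟨0,[]⟩⟩,⟨false,0,⟨0,[(27,
  0)]⟩,⟨0,[(26,0),(2,0)]⟩⟩,⟨true,0,⟨0,[(27,0)]⟩,⟨0,[(26,0)]⟩⟩,[.a ⟨true,0,⟨1,[(0,0),(9,0),(1,0),(2,
  0),(0,0),(5,1)]⟩,⟨0,[(1,0)]⟩⟩ ⟨false,0,⟨0,[(0,0)]⟩,⟨0,[(2,0),(26,0)]⟩⟩ ⟨true,0,⟨0,[(0,0),(21,0)]⟩,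
  ⟨0,[(1,0),(12,0)]⟩⟩,.a ⟨true,0,⟨0,[(0,0),(9,0),(11,1)]⟩,⟨0,[(11,0)]⟩⟩ ⟨true,0,⟨0,[(0,0),(21,0)]⟩,
  ⟨0,[(1,0),(12,0)]⟩⟩ ⟨false,1,⟨0,[(0,0),(28,0)]⟩,⟨0,[(2,0)]⟩⟩,.a ⟨true,0,⟨1,[(3,0),(11,0),(0,0)]⟩,
  ⟨0,[(0,0),(0,0),(20,0)]⟩⟩ ⟨false,0,⟨0,[(0,0),(21,0)]⟩,⟨0,[(2,0),(26,0)]⟩⟩ ⟨true,0,⟨0,[(0,0),(21,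
  0)]⟩,⟨0,[(2,0)]⟩⟩,.o ⟨false,0,⟨0,[(14,0)]⟩,⟨2,[(0,1),(0,1),(11,0),(9,0),(4,0),(0,0)]⟩⟩]⟩)

theorem ok12 : chk K t12 r6 = true := by decide +kernel

noncomputable def t15 : Tre :=
  (.Q [0,1,0,-1,0,0,-1,-1,0,0,-1] (.p false [0,0,1] [] (⟨0,[(14,0)]⟩,⟨0,[(13,0)]⟩) .k 0 (⟨0,[]⟩,⟨0,
  []⟩) .k .k) (.K ⟨0,[0,1,1],0,0,(⟨0,[(15,0),(3,0)]⟩,⟨0,[(3,0)]⟩),.k,.k,(.r 0 ⟨0,[(10,0),(2,0),(7,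
  0),(4,1)]⟩ ⟨0,[(1,3),(7,2),(0,2),(10,0),(0,0),(2,1)]⟩),.k,.k,[⟨1,[(12,0),(0,0)]⟩,⟨0,[(1,0),(8,
  0)]⟩,⟨0,[(0,0)]⟩,⟨0,[(10,0),(15,0)]⟩]⟩) (.R ⟨2,false,false,false,[0,1],[0,1,1],[1],(⟨0,[]⟩,⟨0,
  []⟩),(⟨0,[(15,0),(3,0)]⟩,⟨0,[(3,0)]⟩),⟨0,[]⟩,.k,.k,.k,.k,.k,.k,⟨false,1,⟨0,[(1,0),(23,0),(1,0)]⟩,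
  ⟨1,[(0,0),(9,0),(2,1),(12,0)]⟩⟩,⟨true,0,⟨0,[(1,0),(8,0)]⟩,⟨0,[(13,0)]⟩⟩,⟨false,1,⟨7,[(0,5),(0,5),
  (7,5),(12,1),(2,13),(1,0),(0,4)]⟩,⟨1,[(12,0),(0,0),(12,1)]⟩⟩,⟨true,0,⟨0,[(0,0),(24,0)]⟩,⟨0,[(11,
  0)]⟩⟩,⟨false,1,⟨1,[(27,0),(0,0)]⟩,⟨1,[(12,0),(0,0)]⟩⟩,⟨false,0,⟨0,[(0,0)]⟩,⟨0,[(11,0),(13,0),(2,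
  0)]⟩⟩,[.a ⟨true,0,⟨1,[(0,0),(9,0),(15,0)]⟩,⟨1,[(1,1),(0,0),(11,0),(0,0),(9,1)]⟩⟩ ⟨true,0,⟨0,[]⟩,
  ⟨1,[(12,0),(0,0)]⟩⟩ ⟨false,0,⟨1,[(0,0),(9,0),(15,0)]⟩,⟨9,[(1,5),(0,2),(8,3),(10,0),(2,9),(1,4),(0,
  3)]⟩⟩,.e ⟨false,1,⟨1,[(27,0),(0,0)]⟩,⟨0,[(30,0)]⟩⟩ ⟨false,0,⟨0,[(0,0)]⟩,⟨1,[(11,1),(13,1),(1,0),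
  (0,0)]⟩⟩,.o ⟨false,1,⟨1,[(17,0),(9,0)]⟩,⟨1,[(12,0),(0,0)]⟩⟩,.fo]⟩))

theorem ok15 : chk K t15 r0 = true := by decide +kernel

noncomputable def t4 : Tre :=
  .I [0,0,-1,0,0,0,0,2] t2 t3

theorem ok4 : chk K t4 r4 = true :=
  chk_I (e' := [1,0,1,0,0,0,0,-2]) (by decide +kernel) (by decide +kernel) ok2 ok3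

noncomputable def t5 : Tre :=
  .I [0,0,0,1,0,0,0,-1] t1 t4

theorem ok5 : chk K t5 l3 = true :=
  chk_I (e' := [1,0,0,-1,0,0,0,1]) (by decide +kernel) (by decide +kernel) ok1 ok4

noncomputable def t7 : Tre :=
  .Q [0,0,0,0,0,0,-1,0,0,0,-1] (.p false [0,0,1] [] (⟨0,[(16,0)]⟩,⟨0,[(15,0)]⟩) .k 0 (⟨0,[]⟩,⟨0,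
  []⟩) .k .k) t5 t6

theorem ok7 : chk K t7 r2 = true :=
  chk_Q (e' := [0,0,0,0,0,0,1,0,0,0,1]) (by decide +kernel) (by decide +kernel) ok5 ok6

noncomputable def t8 : Tre :=
  .I [0,1,0,2,-1] t0 t7

theorem ok8 : chk K t8 l1 = true :=
  chk_I (e' := [1,-1,0,-2,1]) (by decide +kernel) (by decide +kernel) ok0 ok7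

noncomputable def t11 : Tre :=
  .I [0,0,1,1,0,0,0,-1] t9 t10

theorem ok11 : chk K t11 l6 = true :=
  chk_I (e' := [1,0,-1,-1,0,0,0,1]) (by decide +kernel) (by decide +kernel) ok9 ok10

noncomputable def t13 : Tre :=
  .I [1,-1,1,0,0,0,0,1] t11 t12

theorem ok13 : chk K t13 r1 = true :=
  chk_I (e' := [0,1,-1,0,0,0,0,-1]) (by decide +kernel) (by decide +kernel) ok11 ok12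

noncomputable def t14 : Tre :=
  .Q [0,0,0,0,0,0,-1,-1,0,0,-1] (.p false [0,0,1] [] (⟨0,[(14,0)]⟩,⟨0,[(13,0)]⟩) .k 0 (⟨0,[]⟩,⟨0,
  []⟩) .k .k) t8 t13

theorem ok14 : chk K t14 l0 = true :=
  chk_Q (e' := [0,0,0,0,0,0,1,1,0,0,1]) (by decide +kernel) (by decide +kernel) ok8 ok13

noncomputable def t16 : Tre :=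
  .I [0,1,0,0,0,0,0,1] t14 t15

theorem ok16 : chk K t16 base = true :=
  chk_I (e' := [1,-1,0,0,0,0,0,-1]) (by decide +kernel) (by decide +kernel) ok14 ok15

theorem closed {p a b c J l q : ℤ} {D dl : ℝ} {Cl : ℤ → ℤ → ℤ → ℤ → ℝ → Prop}
    (W : World p a b c J 1 l q D dl Cl) (g : G0 p a b c J D)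
    {N X R : ℤ} {I : ℝ} (hk : KCl p l Cl N X R I) (kz : KF a b D (X + (1 : ℤ) * I) (X + (1 : ℤ) * I + R) I)
    {Ne Xe : ℤ} {Ie : ℝ} (he : EFac p 1 D Cl 1 Ne Xe Ie)
    (hkf : ∀ kf ∈ (kfY 1 [0,0,0,0,0,0,1,0,0,0,1]), KOk p l Cl 1
      (xv [1, a, b, c, p, J, X, R, Xe] [D, I, Ie]) N kf)
    (h0 : 1 ≤ (c : ℝ))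
    (h1 : 1 ≤ 1 - (a : ℝ) + (b : ℝ))
    (h2 : 1 ≤ 2 * (a : ℝ) - (b : ℝ))
    (h3 : 0 < 1 + (p : ℝ) - 3 * D)
    (h4 : 1 ≤ -(a : ℝ) + (b : ℝ))
    (h5 : 1 ≤ 2 * (a : ℝ) - (b : ℝ))
    (h6 : 1 ≤ 2 - (J : ℝ))
    (h7 : 0 < -(b : ℝ) - (X : ℝ) + D - I)
    (h8 : 0 < -(J : ℝ) + I)
    (h9 : 0 < -(J : ℝ) + D - I)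
    (h10 : 0 < -2 * (X : ℝ) + D - 2 * I) : False := by
  have g1 := g.a2
  have g2 := g.b2
  have g3 := g.pa
  have g4 := g.pb
  have g5 := g.J1
  have g6 := g.JD
  have g7 := g.D2
  have g8 := g.ca
  have g9 := g.ca'
  have k1 := kz.I0
  have k2 := kz.ID
  have k3 := kz.z1
  have k4 := kz.z2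
  have k5 := kz.s1
  have k6 := kz.s2
  have e1 := he.I0
  have e2 := he.ID
  have e3 := he.x0
  have e4 := he.xp
  push_cast at *
  refine (val_E W.toBase hk he (row := [1]) (by simp) (by simp) (kfY 1 [0,0,0,0,0,0,1,0,0,0,1])).sound W rfl (Nk := N)
    (fun kf _ _ => ⟨_, rfl⟩) hkf ?_ ok16
  · simp only [base, List.forall_mem_cons, List.not_mem_nil, false_imp_iff, implies_true,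
      and_true, hld, xv, evg_cons, evg_nil, List.map_cons, List.map_nil, List.cons_append,
      List.nil_append, if_true, if_false, Bool.false_eq_true]
    push_cast
    refine ⟨?_, ?_, ?_, ?_, ?_, ?_, ?_, ?_, ?_, ?_, ?_, ?_, ?_, ?_, ?_, ?_, ?_, ?_, ?_, ?_, ?_, ?_, ?_, ?_, ?_, ?_, ?_, ?_, ?_⟩ <;> linarith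

end Helper48.Y.Y11_c35_P1_m1n1_CC
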