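import Pool.Agent.Helper25.KG.S1b
import Pool.Agent.Helper11.CT.Clo

set_option autoImplicit false
set_option linter.all false

namespace Helper48.Y.Y11_c2_L2_m1n1

open Helper25.KG Helper25.KW Helper55.KE Helper11.CT

noncomputable def K : Cls :=
  cE 1 [1] (kfY 1 [0,0,0,0,0,0,1,0,0,0,1])

noncomputable def base : List Con :=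
  [(false,[0,0,0,0,0,0,-2,0,0,1,-2]),
  (false,[0,0,0,0,0,-1,0,0,0,1,-1]),
  (false,[0,0,0,0,0,-1,0,0,0,0,1]),
  (false,[0,0,0,0,1,0,0,0,-1,0,0,-1]),
  (false,[0,0,0,0,0,0,0,0,1,0,0,1]),
  (false,[0,0,0,0,0,0,0,0,0,1,0,-1]),
  (false,[0,0,0,0,0,0,0,0,0,0,0,1]),
  (false,[0,0,-1,0,0,0,-1,0,0,1,-1]),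
  (false,[0,1,0,0,0,0,1,1,0,0,1]),
  (false,[0,1,0,0,0,0,-1,-1,0,0,-1]),
  (false,[0,0,1,0,0,0,1,0,0,0,1]),
  (false,[0,0,1,0,0,0,-1,0,0,0,-1]),
  (false,[0,0,0,0,0,0,0,0,0,1,-1]),
  (false,[0,0,0,0,0,0,0,0,0,0,1]),
  (true,[2,0,0,0,0,-1]),
  (false,[0,0,0,0,1,0,0,0,0,-2]),
  (false,[0,0,0,0,0,-1,0,0,0,1]),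
  (true,[0,0,0,0,0,1]),
  (true,[0,2,-1]),
  (false,[1,0,0,0,-1,0,0,0,0,2]),
  (true,[1,-1,1,1]),
  (true,[0,1,-1]),
  (true,[0,1,0,-1]),
  (true,[0,0,0,1]),
  (true,[0,0,-2,0,1]),
  (true,[0,-2,0,0,1]),
  (true,[-1,0,1]),
  (true,[-1,1])]

noncomputable def l0 : List Con := (true, [1,-1,2,2,-1]) :: base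

noncomputable def r0 : List Con := (true, [0,1,-2,-2,1]) :: base

noncomputable def l1 : List Con := (true, [1,-1,0,0,0,0,0,-1]) :: r0

noncomputable def r1 : List Con := (true, [0,1,0,0,0,0,0,1]) :: r0

noncomputable def l2 : List Con := (false, [0,0,0,0,0,0,-1,0,0,0,-1]) :: r1

noncomputable def r2 : List Con := (false, [0,0,0,0,0,0,1,0,0,0,1]) :: r1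

noncomputable def l3 : List Con := (false, [0,0,0,0,0,0,1,1,0,0,1]) :: l2

noncomputable def r3 : List Con := (false, [0,0,0,0,0,0,-1,-1,0,0,-1]) :: l2

noncomputable def l4 : List Con := (true, [1,-1,0,1,0,0,0,-1]) :: r3

noncomputable def r4 : List Con := (true, [0,1,0,-1,0,0,0,1]) :: r3

noncomputable def l5 : List Con := (false, [0,-1,0,1,0,0,-1,-1,0,0,-1]) :: r4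

noncomputable def r5 : List Con := (false, [0,1,0,-1,0,0,1,1,0,0,1]) :: r4

noncomputable def l6 : List Con := (true, [1,0,0,0,0,0,0,1]) :: r5

noncomputable def r6 : List Con := (true, [0,0,0,0,0,0,0,-1]) :: r5

noncomputable def l7 : List Con := (false, [0,-1,0,0,1,0,1,1,0,-1,1]) :: l6

noncomputable def r7 : List Con := (false, [0,1,0,0,-1,0,-1,-1,0,1,-1]) :: l6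

noncomputable def l8 : List Con := (true, [1,0,0,-1,0,0,0,1]) :: r7

noncomputable def r8 : List Con := (true, [0,0,0,1,0,0,0,-1]) :: r7

noncomputable def l9 : List Con := (false, [0,-1,0,1,1,0,1,1,0,-1,1]) :: l8

noncomputable def r9 : List Con := (false, [0,1,0,-1,-1,0,-1,-1,0,1,-1]) :: l8

noncomputable def l10 : List Con := (true, [0,0,-2,-2,1]) :: r9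

noncomputable def r10 : List Con := (true, [1,0,2,2,-1]) :: r9

noncomputable def l11 : List Con := (false, [0,-1,0,2,1,0,1,1,0,-1,1]) :: r10

noncomputable def r11 : List Con := (false, [0,1,0,-2,-1,0,-1,-1,0,1,-1]) :: r10

noncomputable def l12 : List Con := (true, [0,0,-2,-1,1]) :: r11

noncomputable def r12 : List Con := (true, [1,0,2,1,-1]) :: r11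

noncomputable def l13 : List Con := (true, [1,0,2,2,-1,0,0,-1]) :: r12

noncomputable def r13 : List Con := (true, [0,0,-2,-2,1,0,0,1]) :: r12

noncomputable def t0 : Tre :=
  (.R ⟨2,true,false,true,[0,1],[1,-1],[0,1],(⟨0,[]⟩,⟨0,[]⟩),(⟨0,[(17,0)]⟩,⟨0,[(18,0)]⟩),⟨0,[]⟩,.k,
  .k,.k,(.r 1 ⟨0,[(0,0),(27,0)]⟩ ⟨0,[(23,1),(1,0),(0,0)]⟩),.k,.k,⟨false,0,⟨0,[(24,0)]⟩,⟨1,[(23,1),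
  (1,0),(0,0)]⟩⟩,⟨true,(-1),⟨1,[(0,1),(19,0),(2,3),(2,0)]⟩,⟨1,[(16,0),(8,0)]⟩⟩,⟨false,1,⟨1,[(23,1),
  (1,0),(0,0)]⟩,⟨0,[(21,0)]⟩⟩,⟨true,0,⟨1,[(20,0),(2,3),(2,0)]⟩,⟨1,[(0,1),(15,0),(5,1),(2,0)]⟩⟩,
  ⟨true,0,⟨0,[(22,0)]⟩,⟨1,[(11,0),(0,0)]⟩⟩,⟨false,0,⟨1,[(20,0),(2,1),(2,0)]⟩,⟨1,[(16,0),(7,1),(1,
  0)]⟩⟩,[]⟩)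

theorem ok0 : chk K t0 l0 = true := by decide +kernel

noncomputable def t1 : Tre :=
  (.K ⟨0,[0,1,1],0,0,(⟨0,[(15,0),(3,0)]⟩,⟨0,[(3,0)]⟩),.k,.k,(.r 0 ⟨0,[(10,0),(2,0),(8,0),(2,0)]⟩ ⟨0,
  [(0,0),(0,0)]⟩),.k,.k,[⟨1,[(12,0),(0,0)]⟩,⟨0,[(0,0),(9,0)]⟩,⟨0,[(0,0),(12,0),(9,0),(0,0)]⟩,⟨0,
  [(10,0),(14,0)]⟩]⟩)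

theorem ok1 : chk K t1 l1 = true := by decide +kernel

noncomputable def t2 : Tre :=
  (.Q [0,0,0,1,0,0,-1,-1,0,0,-1] (.p false [0,0,1] [] (⟨0,[(17,0)]⟩,⟨0,[(16,0)]⟩) .k 0 (⟨0,[]⟩,⟨0,
  []⟩) .k .k) (.I [1,1,0,0,0,0,0,-1] (.R ⟨2,true,false,false,[0,1],[0,0,1],[1,1,1],(⟨0,[]⟩,⟨0,[]⟩),
  (⟨0,[(19,0)]⟩,⟨0,[(18,0)]⟩),⟨0,[]⟩,.k,.k,.k,.k,.k,.k,⟨false,0,⟨0,[(0,0)]⟩,⟨1,[(2,1),(10,1),(7,0),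
  (9,0)]⟩⟩,⟨true,0,⟨0,[(16,0)]⟩,⟨0,[(3,0)]⟩⟩,⟨true,0,⟨0,[(28,0)]⟩,⟨0,[(29,0)]⟩⟩,⟨false,1,⟨0,[(2,0),
  (25,0),(2,0)]⟩,⟨0,[(1,0)]⟩⟩,⟨false,0,⟨0,[]⟩,⟨1,[(9,0),(0,0),(20,0)]⟩⟩,⟨true,0,⟨0,[(2,0)]⟩,⟨0,[(15,
  0)]⟩⟩,[]⟩) (.R ⟨2,true,false,false,[0,1],[0,0,1],[0,1,1,1],(⟨0,[]⟩,⟨0,[]⟩),(⟨0,[(19,0)]⟩,⟨0,[(18,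
  0)]⟩),⟨0,[]⟩,.k,.k,.k,.k,.k,.k,⟨false,0,⟨0,[(1,0),(14,0),(10,0)]⟩,⟨3,[(0,2),(3,0),(0,1),(25,1)]⟩⟩,
  ⟨true,0,⟨0,[(16,0)]⟩,⟨0,[(3,0)]⟩⟩,⟨true,0,⟨0,[(33,0)]⟩,⟨0,[]⟩⟩,⟨false,1,⟨0,[(2,0),(25,0),(2,0)]⟩,
  ⟨0,[(1,0)]⟩⟩,⟨false,0,⟨0,[(29,0)]⟩,⟨0,[(28,0),(2,0)]⟩⟩,⟨true,0,⟨0,[(2,0)]⟩,⟨0,[(15,0)]⟩⟩,[]⟩))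
  (.I [1,0,-1,-1,0,0,0,1] (.I [0,-1,0,1,1,0,0,-1] (.S ⟨1,0,[0,0,0,0,0,0,0,1],[0,0,1],[1,1,0,-1,0,0,
  0,1],(⟨0,[(20,0)]⟩,⟨0,[(19,0)]⟩),⟨0,[(9,0)]⟩,.k,.k,⟨true,0,⟨0,[(29,0)]⟩,⟨0,[(30,0)]⟩⟩,⟨false,1,⟨1,
  [(10,0),(0,0),(20,0)]⟩,⟨0,[]⟩⟩,⟨false,0,⟨0,[]⟩,⟨1,[(10,0),(0,0),(20,0)]⟩⟩,⟨true,0,⟨0,[(30,0)]⟩,⟨0,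
  [(29,0)]⟩⟩,[.e ⟨false,0,⟨3,[(1,2),(3,0),(19,0),(3,0)]⟩,⟨0,[(0,0)]⟩⟩ ⟨false,0,⟨0,[(1,0),(28,0)]⟩,
  ⟨0,[(0,0),(28,0)]⟩⟩,.o ⟨false,1,⟨1,[(3,1),(18,0),(9,0)]⟩,⟨0,[(16,0)]⟩⟩,.o ⟨false,1,⟨1,[(17,1),(4,
  0),(8,0)]⟩,⟨0,[(4,0)]⟩⟩,.a ⟨true,0,⟨0,[(17,0)]⟩,⟨0,[(14,0)]⟩⟩ ⟨false,0,⟨0,[(1,0)]⟩,⟨1,[(0,1),(16,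
  0),(0,0)]⟩⟩ ⟨true,0,⟨0,[(1,0),(28,0)]⟩,⟨0,[(16,0),(0,0)]⟩⟩]⟩) (.Q [0,-1,0,1,0,0,1,1,0,0,1] (.p
  true [0,0,1] [] (⟨0,[(20,0)]⟩,⟨0,[(19,0)]⟩) .k 0 (⟨0,[]⟩,⟨0,[]⟩) .k .k) (.R ⟨2,true,false,false,
  [0,1],[0,1,1],[0,0,1,1],(⟨0,[]⟩,⟨0,[]⟩),(⟨0,[(21,0),(3,0)]⟩,⟨0,[(9,0)]⟩),⟨0,[]⟩,.k,.k,.k,.k,.k,.k,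
  ⟨true,1,⟨1,[(17,1),(0,1),(13,0),(0,0)]⟩,⟨0,[(1,0),(26,0)]⟩⟩,⟨false,1,⟨0,[(18,0),(13,0)]⟩,⟨0,[(5,
  0)]⟩⟩,⟨false,1,⟨1,[(11,0),(0,0),(20,0)]⟩,⟨0,[]⟩⟩,⟨true,0,⟨0,[(4,0)]⟩,⟨0,[(17,0)]⟩⟩,⟨true,0,⟨0,
  [(31,0)]⟩,⟨0,[(30,0)]⟩⟩,⟨false,0,⟨0,[(0,0)]⟩,⟨0,[(17,0),(12,0),(2,0)]⟩⟩,[]⟩) (.Q [0,0,2,1,-1,0,-1,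
  -1,0,1,-1] (.p false [0,0,1] [1] (⟨0,[(21,0)]⟩,⟨0,[(20,0)]⟩) .k 1 (⟨0,[]⟩,⟨0,[]⟩) .k .k) (.I [0,0,
  -2,-1,1] (.R ⟨1,false,false,false,[1,-1],[0,-1,1],[0,1,-1,-1],(⟨0,[(26,0)]⟩,⟨0,[(27,0)]⟩),(⟨0,
  [(12,0)]⟩,⟨0,[(22,0),(4,0)]⟩),⟨0,[(11,0),(0,0)]⟩,.k,.k,(.x 0 ⟨0,[(20,0),(0,0),(5,1)]⟩ ⟨0,[(24,1),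
  (6,1),(3,0)]⟩),.k,.k,.k,⟨false,1,⟨0,[(19,0),(0,0),(13,0)]⟩,⟨0,[(4,0),(25,0)]⟩⟩,⟨true,1,⟨1,[(20,1),
  (4,0),(8,0)]⟩,⟨2,[(1,1),(1,1),(13,0),(17,0)]⟩⟩,⟨true,0,⟨0,[(37,0)]⟩,⟨0,[]⟩⟩,⟨false,1,⟨1,[(6,1),
  (18,0),(9,0)]⟩,⟨0,[(0,0),(0,0)]⟩⟩,⟨false,0,⟨0,[(33,0)]⟩,⟨0,[(32,0),(2,0)]⟩⟩,⟨false,1,⟨1,[(6,1),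
  (18,0),(7,1),(1,0)]⟩,⟨1,[(2,1),(26,0),(5,0)]⟩⟩,[.a ⟨true,0,⟨0,[(5,0)]⟩,⟨0,[(1,0),(32,0)]⟩⟩ ⟨false,
  1,⟨7,[(9,3),(3,0),(0,0),(13,1),(5,2)]⟩,⟨0,[(30,0)]⟩⟩ ⟨true,1,⟨1,[(0,0),(4,0),(0,0),(18,0)]⟩,⟨0,
  [(1,0)]⟩⟩,.o ⟨false,1,⟨1,[(5,1),(19,0),(9,0)]⟩,⟨0,[(19,0),(13,0)]⟩⟩,.o ⟨false,0,⟨1,[(20,0),(0,
  0)]⟩,⟨1,[(25,0),(8,0)]⟩⟩,.e ⟨false,1,⟨0,[(0,0)]⟩,⟨1,[(20,0),(0,0),(8,1)]⟩⟩ ⟨false,2,⟨1,[(0,1),(5,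
  1),(18,0),(9,0)]⟩,⟨0,[(1,0)]⟩⟩]⟩) (.Q [0,0,0,2,0,0,-1,-1,0,0,-1] (.p false [0,0,1] [] (⟨0,[(23,
  0)]⟩,⟨0,[(22,0)]⟩) .k 0 (⟨0,[]⟩,⟨0,[]⟩) .k .k) (.R ⟨1,false,false,false,[0,0,1],[0,1],[],(⟨0,[(24,
  0)]⟩,⟨0,[(23,0)]⟩),(⟨0,[(28,0)]⟩,⟨0,[(27,0)]⟩),⟨0,[(13,0)]⟩,.k,.k,.k,.k,(.r (-1) ⟨4,[(5,3),(3,0),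
  (0,2),(25,1)]⟩ ⟨1,[(0,1),(20,2),(0,0)]⟩),.k,⟨true,1,⟨3,[(10,1),(3,0),(0,0),(20,0)]⟩,⟨0,[(1,0)]⟩⟩,
  ⟨false,1,⟨1,[(18,1),(7,0),(8,0)]⟩,⟨0,[(21,0)]⟩⟩,⟨true,1,⟨1,[(20,1),(0,1),(13,0),(0,0)]⟩,⟨0,[(4,0),
  (29,0)]⟩⟩,⟨false,1,⟨3,[(0,1),(13,0),(0,0),(4,1),(15,2)]⟩,⟨0,[(6,0)]⟩⟩,⟨true,1,⟨3,[(0,3),(9,1),(3,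
  0),(0,0),(5,3),(14,0)]⟩,⟨0,[(4,0)]⟩⟩,⟨true,0,⟨0,[(0,0)]⟩,⟨0,[(6,0),(26,0)]⟩⟩,[.e ⟨false,1,⟨1,[(14,
  0),(0,0),(19,0)]⟩,⟨0,[]⟩⟩ ⟨false,0,⟨0,[(0,0),(4,0)]⟩,⟨3,[(10,1),(3,0),(0,0),(5,3),(14,0)]⟩⟩,.o
  ⟨false,1,⟨1,[(26,0),(7,1),(1,0)]⟩,⟨0,[(33,0)]⟩⟩,.o ⟨false,1,⟨1,[(21,1),(4,0),(8,0)]⟩,⟨0,[(8,0)]⟩⟩,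
  .a ⟨true,0,⟨0,[(21,0)]⟩,⟨0,[(18,0)]⟩⟩ ⟨false,1,⟨1,[(35,0),(0,0)]⟩,⟨1,[(21,0),(0,0)]⟩⟩ ⟨true,0,⟨0,
  [(0,0),(4,0)]⟩,⟨0,[(21,0),(11,0)]⟩⟩]⟩) (.Q [-1,0,0,1,0,0,0,0,-1,0,0,-1] (.p false [0,0,0,0,1] []
  (⟨0,[(17,0)]⟩,⟨0,[(16,0)]⟩) .k 0 (⟨0,[]⟩,⟨0,[]⟩) .k .k) (.R ⟨2,true,false,true,[0,1],[0,0,0,0,1],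
  [2,1],(⟨0,[]⟩,⟨0,[]⟩),(⟨0,[(18,0)]⟩,⟨0,[(17,0)]⟩),⟨0,[]⟩,.k,.k,.k,(.r 0 ⟨9,[(3,1),(11,0),(0,0),(3,
  1),(6,0),(4,5),(2,1),(3,3)]⟩ ⟨3,[(11,1),(3,0),(0,0),(20,0)]⟩),.k,.k,⟨true,0,⟨0,[]⟩,⟨1,[(22,0),(0,
  0)]⟩⟩,⟨false,0,⟨0,[(16,0)]⟩,⟨5,[(0,3),(10,1),(3,1),(20,0),(0,0)]⟩⟩,⟨false,1,⟨3,[(11,1),(3,0),(0,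
  0),(20,0)]⟩,⟨0,[(2,0),(30,0),(3,0)]⟩⟩,⟨true,0,⟨0,[(16,0),(17,0)]⟩,⟨0,[(0,0)]⟩⟩,⟨true,0,⟨0,[(33,
  0)]⟩,⟨0,[(38,0)]⟩⟩,⟨false,0,⟨0,[(16,0)]⟩,⟨4,[(0,2),(0,0),(2,0),(10,1),(21,2)]⟩⟩,[]⟩) (.Q [-1,0,0,
  2,0,0,-1,-1,-1,1,-1,-1] (.p false [0,0,1] [1,0,0,0,-1] (⟨0,[(25,0)]⟩,⟨0,[(24,0)]⟩) .k 2 (⟨0,[(17,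
  0)]⟩,⟨0,[(18,0)]⟩) .k (.r 0 ⟨1,[(6,0),(3,0),(21,0)]⟩ ⟨1,[(21,1),(0,1),(13,0),(0,0)]⟩)) (.Q [0,0,0,
  0,0,-1,0,0,0,0,0,1] (.ed false [1,-1,0,0,1] .k) (.S ⟨1,0,[1,1],[0,0,0,0,1],[],(⟨0,[(20,0)]⟩,⟨0,
  [(19,0)]⟩),⟨0,[(0,0)]⟩,.k,(.r (-1) ⟨3,[(13,1),(3,0),(0,0),(20,0)]⟩ ⟨7,[(1,0),(3,0),(6,0),(5,0),(3,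
  0),(1,0),(4,0),(4,4),(6,2)]⟩),⟨false,1,⟨4,[(17,1),(0,1),(20,2),(1,0)]⟩,⟨0,[]⟩⟩,⟨true,0,⟨0,[(41,
  0)]⟩,⟨0,[]⟩⟩,⟨true,0,⟨0,[(4,0),(30,1),(3,0)]⟩,⟨0,[(36,0)]⟩⟩,⟨false,0,⟨0,[(37,0)]⟩,⟨4,[(2,1),(0,0),
  (2,0),(10,1),(21,2)]⟩⟩,[.o ⟨false,0,⟨1,[(2,0),(1,0),(13,0),(10,0),(5,1)]⟩,⟨1,[(1,1),(1,1),(25,0),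
  (9,0)]⟩⟩,.a ⟨true,0,⟨0,[(18,0)]⟩,⟨0,[(1,0),(1,0)]⟩⟩ ⟨false,1,⟨1,[(38,0),(0,0)]⟩,⟨0,[(41,0)]⟩⟩
  ⟨true,0,⟨0,[]⟩,⟨1,[(24,0),(0,0)]⟩⟩,.e ⟨false,1,⟨1,[(17,0),(0,0),(20,0)]⟩,⟨0,[]⟩⟩ ⟨false,0,⟨0,[]⟩,
  ⟨1,[(17,0),(0,0),(20,0)]⟩⟩,.o ⟨false,0,⟨3,[(2,2),(1,2),(13,0),(10,1),(5,1),(3,0)]⟩,⟨1,[(1,1),(1,
  1),(25,0),(8,0)]⟩⟩]⟩) (.Q [0,0,0,0,0,0,-1,-1,1,0,-1,1] (.p false [0,0,1] [0,0,0,0,1] (⟨0,[(27,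
  0)]⟩,⟨0,[(26,0)]⟩) .k 2 (⟨0,[(20,0)]⟩,⟨0,[(19,0)]⟩) .k (.r 0 ⟨0,[(3,0),(0,3),(1,0),(0,0),(27,7),
  (3,4)]⟩ ⟨1,[(23,1),(0,1),(13,0),(0,0)]⟩)) (.R ⟨0,false,false,false,[0,0,0,0,1],[0,1],[0,1],(⟨0,
  [(21,0)]⟩,⟨0,[(20,0)]⟩),(⟨0,[(32,0)]⟩,⟨0,[(31,0)]⟩),⟨0,[(1,0)]⟩,.k,.k,(.r (-1) ⟨3,[(14,1),(3,0),
  (0,0),(20,0)]⟩ ⟨7,[(2,0),(3,0),(6,0),(5,0),(3,0),(1,0),(4,0),(4,4),(6,2)]⟩),(.r (-1) ⟨3,[(14,1),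
  (3,0),(0,0),(20,0)]⟩ ⟨7,[(2,0),(3,0),(6,0),(5,0),(3,0),(1,0),(4,0),(4,4),(6,2)]⟩),.k,.k,⟨false,1,
  ⟨7,[(14,3),(3,0),(0,0),(13,1),(5,2)]⟩,⟨0,[(35,0)]⟩⟩,⟨true,1,⟨1,[(2,1),(1,1),(25,0),(8,0)]⟩,⟨1,[(0,
  0),(3,0),(0,1),(13,0)]⟩⟩,⟨true,0,⟨0,[(42,0)]⟩,⟨0,[]⟩⟩,⟨false,1,⟨1,[(2,1),(7,1),(19,0),(9,0)]⟩,⟨0,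
  [(3,0)]⟩⟩,⟨false,0,⟨0,[]⟩,⟨0,[]⟩⟩,⟨false,0,⟨0,[]⟩,⟨0,[]⟩⟩,[.e ⟨false,0,⟨0,[(36,0)]⟩,⟨1,[(18,0),(0,
  0),(20,0)]⟩⟩ ⟨false,1,⟨1,[(2,1),(7,1),(19,0),(8,0)]⟩,⟨1,[(0,0),(3,0),(14,0)]⟩⟩,.o ⟨false,1,⟨1,
  [(30,0),(7,1),(1,0)]⟩,⟨0,[(37,0)]⟩⟩,.a ⟨true,0,⟨0,[(19,0)]⟩,⟨0,[(2,0),(1,0)]⟩⟩ ⟨true,0,⟨0,[(42,
  0)]⟩,⟨0,[]⟩⟩ ⟨false,1,⟨1,[(2,1),(7,1),(19,0),(9,0)]⟩,⟨1,[(0,0),(3,0),(14,0)]⟩⟩,.o ⟨false,0,⟨3,[(0,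
  0),(3,0),(0,1),(13,2),(10,1)]⟩,⟨1,[(2,1),(1,1),(25,0),(8,0)]⟩⟩]⟩) (.S ⟨1,0,[-1,1],[1,0,0,0,-1],
  [-1],(⟨0,[(20,0)]⟩,⟨0,[(21,0)]⟩),⟨0,[(1,0),(14,0),(0,0)]⟩,.k,(.r (-1) ⟨9,[(14,4),(3,1),(0,1),(20,
  2),(1,0)]⟩ ⟨4,[(2,0),(3,0),(6,0),(5,0),(3,0),(1,0),(4,0),(4,1)]⟩),⟨false,1,⟨1,[(18,0),(0,0),(20,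
  0)]⟩,⟨0,[]⟩⟩,⟨true,0,⟨0,[(42,0)]⟩,⟨0,[]⟩⟩,⟨true,0,⟨0,[(38,0)]⟩,⟨0,[(37,0)]⟩⟩,⟨false,0,⟨0,[(38,
  0)]⟩,⟨4,[(3,1),(0,0),(2,0),(10,1),(21,2)]⟩⟩,[.o ⟨false,0,⟨8,[(0,6),(1,1),(2,0),(1,4),(22,0),(5,2),
  (4,0),(0,0)]⟩,⟨1,[(19,1),(10,0),(9,0)]⟩⟩,.e ⟨false,1,⟨0,[(36,0),(3,0)]⟩,⟨0,[(42,0)]⟩⟩ ⟨false,1,⟨9,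
  [(18,3),(0,3),(19,4),(0,0),(1,1)]⟩,⟨0,[]⟩⟩,.a ⟨true,0,⟨4,[(0,2),(1,0),(4,1),(10,0),(15,1),(5,0)]⟩,
  ⟨0,[(19,0)]⟩⟩ ⟨false,1,⟨4,[(18,1),(0,1),(20,2),(1,0)]⟩,⟨0,[]⟩⟩ ⟨true,0,⟨0,[(42,0)]⟩,⟨0,[]⟩⟩,.o
  ⟨false,0,⟨3,[(0,3),(5,1),(0,1),(22,0),(9,0)]⟩,⟨1,[(19,1),(10,0),(8,0)]⟩⟩]⟩))) (.Q [0,0,-1,0,0,0,0,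
  0,1,-1,0,1] (.p true [0,0,0,0,1] [1] (⟨0,[(19,0)]⟩,⟨0,[(18,0)]⟩) .k 1 (⟨0,[]⟩,⟨0,[]⟩) .k .k) (.Q
  [0,0,0,0,0,-1,0,0,0,0,0,1] (.ed false [1,-1,0,0,1] .k) (.R ⟨1,false,false,true,[0,0,0,0,1],[0,1],
  [0,1],(⟨0,[(21,0)]⟩,⟨0,[(20,0)]⟩),(⟨0,[(32,0)]⟩,⟨0,[(31,0)]⟩),⟨0,[(0,0)]⟩,.k,.k,(.r (-1) ⟨3,[(14,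
  1),(3,0),(0,0),(20,0)]⟩ ⟨9,[(6,1),(11,0),(0,0),(3,1),(6,0),(4,5),(2,1),(3,3)]⟩),(.r (-1) ⟨3,[(14,
  1),(3,0),(0,0),(20,0)]⟩ ⟨9,[(6,1),(11,0),(0,0),(3,1),(6,0),(4,5),(2,1),(3,3)]⟩),(.r (-2) ⟨1,[(14,
  1),(3,0),(0,0),(20,0)]⟩ ⟨0,[(5,1),(30,1),(3,0)]⟩),.k,⟨true,1,⟨3,[(14,1),(3,0),(0,0),(20,0)]⟩,⟨0,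
  [(5,0)]⟩⟩,⟨false,2,⟨0,[(18,0),(20,0)]⟩,⟨2,[(1,1),(0,0),(2,0),(0,0),(27,0),(6,0)]⟩⟩,⟨true,0,⟨0,
  [(42,0)]⟩,⟨0,[]⟩⟩,⟨false,1,⟨0,[(18,0),(19,0)]⟩,⟨7,[(1,3),(0,3),(3,1),(0,1),(26,2),(5,4)]⟩⟩,⟨false,
  0,⟨0,[(5,0),(30,1),(3,0)]⟩,⟨4,[(3,1),(0,0),(2,0),(10,1),(21,2)]⟩⟩,⟨false,1,⟨0,[(18,0),(19,1)]⟩,⟨3,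
  [(1,3),(2,3),(1,1),(0,1),(26,0),(5,2)]⟩⟩,[.o ⟨false,0,⟨1,[(5,0),(24,0),(5,1),(1,0)]⟩,⟨4,[(3,1),(0,
  0),(2,0),(10,1),(21,2)]⟩⟩,.a ⟨true,0,⟨0,[(38,0)]⟩,⟨4,[(4,0),(2,0),(6,0),(0,0),(9,1),(8,1),(5,
  0)]⟩⟩ ⟨false,1,⟨1,[(18,0),(0,0),(19,0)]⟩,⟨0,[]⟩⟩ ⟨true,1,⟨0,[(18,0),(19,0)]⟩,⟨0,[(1,0),(2,0),(1,
  0)]⟩⟩,.o ⟨false,0,⟨16,[(1,8),(0,1),(2,1),(0,1),(12,5),(10,3),(10,0)]⟩,⟨0,[(18,0)]⟩⟩,.e ⟨true,0,⟨0,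
  [(36,0)]⟩,⟨1,[(25,0),(0,0)]⟩⟩ ⟨true,1,⟨0,[(18,0),(17,0),(1,0)]⟩,⟨0,[(1,0),(2,0),(1,0)]⟩⟩]⟩) (.R
  ⟨0,false,false,true,[0,0,0,0,1],[0,1],[0,1],(⟨0,[(21,0)]⟩,⟨0,[(20,0)]⟩),(⟨0,[(32,0)]⟩,⟨0,[(31,
  0)]⟩),⟨0,[(0,0)]⟩,.k,.k,(.r (-1) ⟨3,[(14,1),(3,0),(0,0),(20,0)]⟩ ⟨9,[(6,1),(11,0),(0,0),(3,1),(6,
  0),(4,5),(2,1),(3,3)]⟩),(.r (-1) ⟨3,[(14,1),(3,0),(0,0),(20,0)]⟩ ⟨9,[(6,1),(11,0),(0,0),(3,1),(6,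
  0),(4,5),(2,1),(3,3)]⟩),.k,.k,⟨true,1,⟨3,[(14,1),(3,0),(0,0),(20,0)]⟩,⟨0,[(5,0)]⟩⟩,⟨false,2,⟨0,
  [(18,0),(20,0)]⟩,⟨2,[(1,1),(0,0),(2,0),(0,0),(27,0),(6,0)]⟩⟩,⟨true,0,⟨0,[(42,0)]⟩,⟨0,[]⟩⟩,⟨false,
  1,⟨0,[(18,0),(19,0)]⟩,⟨7,[(1,3),(0,3),(3,1),(0,1),(26,2),(5,4)]⟩⟩,⟨false,0,⟨0,[]⟩,⟨0,[]⟩⟩,⟨false,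
  0,⟨0,[]⟩,⟨0,[]⟩⟩,[.o ⟨false,0,⟨1,[(5,0),(24,0),(5,1),(1,0)]⟩,⟨4,[(3,1),(0,0),(2,0),(10,1),(21,
  2)]⟩⟩,.a ⟨true,0,⟨0,[(38,0)]⟩,⟨4,[(4,0),(2,0),(6,0),(0,0),(9,1),(8,1),(5,0)]⟩⟩ ⟨false,1,⟨1,[(18,
  0),(0,0),(19,0)]⟩,⟨0,[]⟩⟩ ⟨true,1,⟨0,[(18,0),(19,0)]⟩,⟨0,[(1,0),(2,0),(1,0)]⟩⟩,.o ⟨false,0,⟨16,
  [(1,8),(0,1),(2,1),(0,1),(12,5),(10,3),(10,0)]⟩,⟨0,[(18,0)]⟩⟩,.e ⟨true,0,⟨0,[(36,0)]⟩,⟨1,[(25,0),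
  (0,0)]⟩⟩ ⟨true,1,⟨0,[(18,0),(17,0),(1,0)]⟩,⟨0,[(1,0),(2,0),(1,0)]⟩⟩]⟩)) (.Q [0,0,0,2,0,0,1,1,0,-1,
  1] (.p true [0,0,1] [1] (⟨0,[(27,0)]⟩,⟨0,[(26,0)]⟩) .k 1 (⟨0,[]⟩,⟨0,[]⟩) .k .k) (.I [0,0,-2,-2,2,
  0,0,-1] (.R ⟨1,true,false,false,[1,0,-1],[0,1],[0,1,0,0,0,0,0,-1],(⟨0,[(28,0)]⟩,⟨0,[(29,0)]⟩),(⟨0,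
  [(33,0)]⟩,⟨0,[(32,0)]⟩),⟨0,[(17,0)]⟩,.k,.k,.k,.k,(.r (-2) ⟨0,[(0,0)]⟩ ⟨1,[(1,0),(4,1),(5,0),(3,
  0)]⟩),.k,⟨true,1,⟨1,[(0,0),(24,0),(0,0),(10,0)]⟩,⟨0,[(9,0),(26,1)]⟩⟩,⟨false,2,⟨0,[(0,0),(0,0)]⟩,
  ⟨2,[(7,1),(1,1),(13,0),(17,0)]⟩⟩,⟨true,0,⟨0,[(43,0)]⟩,⟨0,[]⟩⟩,⟨false,1,⟨3,[(1,1),(22,1),(6,0),(9,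
  2)]⟩,⟨1,[(8,1),(26,0),(5,0)]⟩⟩,⟨false,0,⟨0,[(39,0)]⟩,⟨3,[(0,0),(1,0),(0,0),(23,0),(13,1)]⟩⟩,⟨true,
  0,⟨0,[(1,0)]⟩,⟨64,[(0,15),(1,5),(1,5),(0,19),(1,12),(0,55),(7,7),(18,18),(2,8)]⟩⟩,[]⟩) (.R ⟨1,
  true,false,false,[1,0,-1],[0,1],[0,1,0,0,0,0,0,-1],(⟨0,[(28,0)]⟩,⟨0,[(29,0)]⟩),(⟨0,[(33,0)]⟩,⟨0,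
  [(32,0)]⟩),⟨0,[(17,0)]⟩,.k,.k,.k,.k,(.x 1 ⟨6,[(0,1),(5,3),(1,4),(0,2),(17,1),(1,6),(3,13),(7,3)]⟩
  ⟨1,[(17,1),(8,1),(3,1),(0,0),(8,2)]⟩),.k,⟨true,1,⟨0,[(8,0),(17,0),(13,0)]⟩,⟨3,[(0,2),(1,0),(0,0),
  (23,0),(13,1)]⟩⟩,⟨false,2,⟨1,[(26,1),(4,0),(8,2)]⟩,⟨2,[(7,1),(1,1),(13,0),(17,0)]⟩⟩,⟨true,0,⟨0,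
  [(43,0)]⟩,⟨0,[]⟩⟩,⟨false,1,⟨3,[(1,1),(22,1),(6,0),(9,2)]⟩,⟨1,[(8,1),(26,0),(5,0)]⟩⟩,⟨false,0,⟨0,
  [(39,0)]⟩,⟨10,[(2,1),(0,1),(0,2),(3,1),(6,0),(3,2),(21,6)]⟩⟩,⟨true,0,⟨0,[(1,0)]⟩,⟨29,[(2,7),(1,7),
  (0,1),(2,31),(6,3),(19,10),(2,7),(2,6)]⟩⟩,[]⟩)) (.Q [0,0,-1,0,0,0,-1,-1,1,0,-1,1] (.p false [0,0,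
  1] [0,0,0,0,1] (⟨0,[(28,0)]⟩,⟨0,[(27,0)]⟩) .k 2 (⟨0,[(21,0)]⟩,⟨0,[(20,0)]⟩) .k (.r 0 ⟨1,[(0,1),(3,
  1),(0,9),(2,1),(21,0),(5,19),(3,10)]⟩ ⟨1,[(24,1),(0,1),(13,0),(0,0)]⟩)) (.Q [0,0,0,0,0,-1,0,0,0,0,
  0,1] (.ed false [1,-1,0,0,1] .k) (.S ⟨1,0,[1],[0,0,0,0,1],[1,0,1],(⟨0,[(23,0)]⟩,⟨0,[(22,0)]⟩),⟨0,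
  [(0,0)]⟩,.k,(.r (-1) ⟨3,[(16,1),(3,0),(0,0),(20,0)]⟩ ⟨9,[(8,1),(11,0),(0,0),(3,1),(6,0),(4,5),(2,
  1),(3,3)]⟩),⟨true,0,⟨1,[(27,0),(0,0)]⟩,⟨0,[(38,0)]⟩⟩,⟨false,1,⟨1,[(20,0),(0,0),(20,0)]⟩,⟨0,[]⟩⟩,
  ⟨false,0,⟨0,[(7,0),(30,0),(3,0)]⟩,⟨3,[(16,1),(3,0),(0,0),(20,0)]⟩⟩,⟨true,0,⟨0,[(40,0)]⟩,⟨0,[(39,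
  0)]⟩⟩,[.o ⟨false,0,⟨3,[(1,1),(2,1),(2,0),(24,0),(7,2)]⟩,⟨2,[(3,1),(16,0),(11,0),(5,1),(3,0)]⟩⟩,.e
  ⟨false,1,⟨1,[(20,0),(0,0),(20,0)]⟩,⟨0,[(38,0)]⟩⟩ ⟨false,1,⟨1,[(41,0),(0,0)]⟩,⟨0,[(44,0)]⟩⟩,.o
  ⟨false,0,⟨3,[(1,1),(2,1),(2,0),(24,0),(7,2)]⟩,⟨0,[(20,0)]⟩⟩,.a ⟨true,(-1),⟨5,[(1,3),(2,1),(1,1),
  (0,4),(28,0),(3,2)]⟩,⟨1,[(20,1),(15,0),(4,0)]⟩⟩ ⟨true,0,⟨0,[]⟩,⟨0,[(44,0)]⟩⟩ ⟨false,1,⟨1,[(41,0),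
  (0,0)]⟩,⟨1,[(27,0),(0,0)]⟩⟩]⟩) (.R ⟨0,false,false,true,[0,0,0,0,1],[0,1],[0,1],(⟨0,[(23,0)]⟩,⟨0,
  [(22,0)]⟩),(⟨0,[(34,0)]⟩,⟨0,[(33,0)]⟩),⟨0,[(0,0)]⟩,.k,.k,(.r (-1) ⟨3,[(16,1),(3,0),(0,0),(20,0)]⟩
  ⟨9,[(8,1),(11,0),(0,0),(3,1),(6,0),(4,5),(2,1),(3,3)]⟩),(.r (-1) ⟨3,[(16,1),(3,0),(0,0),(20,0)]⟩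
  ⟨9,[(8,1),(11,0),(0,0),(3,1),(6,0),(4,5),(2,1),(3,3)]⟩),.k,.k,⟨true,1,⟨3,[(16,1),(3,0),(0,0),(20,
  0)]⟩,⟨0,[(7,0)]⟩⟩,⟨false,2,⟨0,[(20,0),(20,0)]⟩,⟨5,[(1,3),(2,1),(1,1),(0,4),(28,0),(3,2)]⟩⟩,⟨true,
  0,⟨0,[(44,0)]⟩,⟨0,[]⟩⟩,⟨false,1,⟨0,[(20,0),(19,0)]⟩,⟨5,[(1,3),(2,1),(1,1),(0,1),(28,0),(5,2)]⟩⟩,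
  ⟨false,0,⟨0,[]⟩,⟨0,[]⟩⟩,⟨false,0,⟨0,[]⟩,⟨0,[]⟩⟩,[.o ⟨false,0,⟨1,[(7,0),(24,0),(5,1),(1,0)]⟩,⟨5,
  [(2,0),(1,0),(0,1),(14,2),(21,2)]⟩⟩,.a ⟨true,0,⟨0,[(40,0)]⟩,⟨3,[(2,1),(22,1),(10,0),(5,0)]⟩⟩
  ⟨false,1,⟨1,[(20,0),(0,0),(19,0)]⟩,⟨0,[]⟩⟩ ⟨true,1,⟨0,[(20,0),(19,0)]⟩,⟨0,[(1,0),(4,0),(0,0)]⟩⟩,
  .o ⟨false,0,⟨3,[(1,1),(2,1),(2,0),(24,0),(7,2)]⟩,⟨0,[(20,0)]⟩⟩,.e ⟨true,0,⟨0,[(38,0)]⟩,⟨1,[(27,0),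
  (0,0)]⟩⟩ ⟨true,1,⟨0,[(20,0),(17,0),(1,0)]⟩,⟨0,[(1,0),(4,0),(0,0)]⟩⟩]⟩)) (.Q [0,0,0,0,0,0,0,0,-1,1,
  0,-1] (.p false [0,0,0,0,1] [1] (⟨0,[(22,0)]⟩,⟨0,[(21,0)]⟩) .k 1 (⟨0,[]⟩,⟨0,[]⟩) .k .k) (.Q [0,0,
  0,0,0,-1,0,0,0,0,0,1] (.ed false [1,-1,0,0,1] .k) (.R ⟨1,false,false,false,[0,0,0,0,1],[0,1],[0,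
  1],(⟨0,[(24,0)]⟩,⟨0,[(23,0)]⟩),(⟨0,[(35,0)]⟩,⟨0,[(34,0)]⟩),⟨0,[(0,0)]⟩,.k,.k,(.r (-1) ⟨3,[(17,1),
  (3,0),(0,0),(20,0)]⟩ ⟨9,[(9,1),(11,0),(0,0),(3,1),(6,0),(4,5),(2,1),(3,3)]⟩),(.r (-1) ⟨3,[(17,1),
  (3,0),(0,0),(20,0)]⟩ ⟨9,[(9,1),(11,0),(0,0),(3,1),(6,0),(4,5),(2,1),(3,3)]⟩),(.r (-2) ⟨1,[(17,1),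
  (3,0),(0,0),(20,0)]⟩ ⟨0,[(8,1),(30,1),(3,0)]⟩),.k,⟨false,1,⟨7,[(17,3),(3,0),(0,0),(13,1),(5,2)]⟩,
  ⟨0,[(38,0)]⟩⟩,⟨true,1,⟨1,[(1,1),(31,0),(8,0)]⟩,⟨10,[(3,2),(1,2),(2,11),(13,7),(16,1),(3,0)]⟩⟩,
  ⟨true,0,⟨0,[(45,0)]⟩,⟨0,[]⟩⟩,⟨false,1,⟨1,[(1,1),(31,0),(7,1),(1,0)]⟩,⟨0,[(6,0)]⟩⟩,⟨false,0,⟨0,[(8,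
  0),(30,1),(3,0)]⟩,⟨5,[(3,0),(1,0),(0,1),(14,2),(21,2)]⟩⟩,⟨false,1,⟨1,[(1,1),(31,0),(7,3),(1,0)]⟩,
  ⟨2,[(3,0),(1,0),(0,1)]⟩⟩,[.e ⟨false,0,⟨0,[(39,0)]⟩,⟨1,[(21,0),(0,0),(20,0)]⟩⟩ ⟨false,1,⟨1,[(1,1),
  (31,0),(7,1),(0,0)]⟩,⟨10,[(3,2),(1,2),(2,0),(13,7),(16,1),(3,0)]⟩⟩,.o ⟨false,1,⟨1,[(33,0),(7,1),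
  (1,0)]⟩,⟨0,[(40,0)]⟩⟩,.a ⟨true,0,⟨0,[(22,0)]⟩,⟨0,[(1,0)]⟩⟩ ⟨true,0,⟨0,[(45,0)]⟩,⟨0,[]⟩⟩ ⟨false,1,
  ⟨1,[(1,1),(31,0),(7,1),(1,0)]⟩,⟨10,[(3,2),(1,2),(2,0),(13,7),(16,1),(3,0)]⟩⟩,.o ⟨false,0,⟨9,[(5,
  1),(2,4),(1,1),(11,7),(10,3),(7,0),(1,0)]⟩,⟨1,[(1,1),(31,0),(8,0)]⟩⟩]⟩) (.R ⟨0,false,false,false,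
  [0,0,0,0,1],[0,1],[0,1],(⟨0,[(24,0)]⟩,⟨0,[(23,0)]⟩),(⟨0,[(35,0)]⟩,⟨0,[(34,0)]⟩),⟨0,[(0,0)]⟩,.k,.k,
  (.r (-1) ⟨3,[(17,1),(3,0),(0,0),(20,0)]⟩ ⟨9,[(9,1),(11,0),(0,0),(3,1),(6,0),(4,5),(2,1),(3,3)]⟩),
  (.r (-1) ⟨3,[(17,1),(3,0),(0,0),(20,0)]⟩ ⟨9,[(9,1),(11,0),(0,0),(3,1),(6,0),(4,5),(2,1),(3,3)]⟩),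
  .k,.k,⟨false,1,⟨7,[(17,3),(3,0),(0,0),(13,1),(5,2)]⟩,⟨0,[(38,0)]⟩⟩,⟨true,1,⟨1,[(1,1),(31,0),(8,
  0)]⟩,⟨10,[(3,2),(1,2),(2,11),(13,7),(16,1),(3,0)]⟩⟩,⟨true,0,⟨0,[(45,0)]⟩,⟨0,[]⟩⟩,⟨false,1,⟨1,[(1,
  1),(31,0),(7,1),(1,0)]⟩,⟨0,[(6,0)]⟩⟩,⟨false,0,⟨0,[]⟩,⟨0,[]⟩⟩,⟨false,0,⟨0,[]⟩,⟨0,[]⟩⟩,[.e ⟨false,0,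
  ⟨0,[(39,0)]⟩,⟨1,[(21,0),(0,0),(20,0)]⟩⟩ ⟨false,1,⟨1,[(1,1),(31,0),(7,1),(0,0)]⟩,⟨10,[(3,2),(1,2),
  (2,0),(13,7),(16,1),(3,0)]⟩⟩,.o ⟨false,1,⟨1,[(33,0),(7,1),(1,0)]⟩,⟨0,[(40,0)]⟩⟩,.a ⟨true,0,⟨0,
  [(22,0)]⟩,⟨0,[(1,0)]⟩⟩ ⟨true,0,⟨0,[(45,0)]⟩,⟨0,[]⟩⟩ ⟨false,1,⟨1,[(1,1),(31,0),(7,1),(1,0)]⟩,⟨10,
  [(3,2),(1,2),(2,0),(13,7),(16,1),(3,0)]⟩⟩,.o ⟨false,0,⟨9,[(5,1),(2,4),(1,1),(11,7),(10,3),(7,0),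
  (1,0)]⟩,⟨1,[(1,1),(31,0),(8,0)]⟩⟩]⟩)) (.Q [0,0,0,0,0,-1,0,0,0,1,0,-1] (.ed true [0,1,0,0,1] .k)
  (.R ⟨1,false,false,false,[1,0,0,0,-1],[0,1],[-1],(⟨0,[(23,0)]⟩,⟨0,[(24,0)]⟩),(⟨0,[(35,0)]⟩,⟨0,
  [(34,0)]⟩),⟨0,[(0,0)]⟩,.k,.k,(.r (-1) ⟨9,[(17,4),(3,1),(0,1),(20,2),(1,0)]⟩ ⟨5,[(9,1),(11,0),(0,
  0),(3,1),(6,0),(4,1),(2,1)]⟩),(.r (-1) ⟨9,[(17,4),(3,1),(0,1),(20,2),(1,0)]⟩ ⟨5,[(9,1),(11,0),(0,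
  0),(3,1),(6,0),(4,1),(2,1)]⟩),(.r (-2) ⟨1,[(17,1),(3,0),(0,0),(20,0)]⟩ ⟨0,[(8,0),(32,0)]⟩),.k,
  ⟨true,1,⟨9,[(17,4),(3,1),(0,1),(20,2),(1,0)]⟩,⟨0,[(8,0)]⟩⟩,⟨false,1,⟨0,[(1,0),(40,0)]⟩,⟨0,[(4,
  0)]⟩⟩,⟨false,1,⟨1,[(21,0),(0,0),(20,0)]⟩,⟨0,[]⟩⟩,⟨true,0,⟨0,[(1,0),(39,0)]⟩,⟨1,[(2,0),(0,0),(0,0),
  (34,1)]⟩⟩,⟨true,0,⟨0,[(41,0)]⟩,⟨0,[(40,0)]⟩⟩,⟨true,0,⟨0,[(1,0),(39,1)]⟩,⟨0,[(2,0),(0,0),(35,0)]⟩⟩,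
  [.a ⟨true,0,⟨0,[(41,0)]⟩,⟨3,[(3,1),(22,1),(10,0),(5,0)]⟩⟩ ⟨false,1,⟨9,[(21,3),(0,3),(19,4),(0,0),
  (1,1)]⟩,⟨0,[]⟩⟩ ⟨true,0,⟨0,[(1,0),(39,0)]⟩,⟨1,[(2,0),(0,0),(0,0)]⟩⟩,.o ⟨false,1,⟨1,[(33,0),(7,1),
  (1,0)]⟩,⟨0,[(40,0)]⟩⟩,.o ⟨false,1,⟨0,[(21,0)]⟩,⟨0,[(1,0)]⟩⟩,.e ⟨false,1,⟨0,[(39,0),(3,0)]⟩,⟨1,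
  [(28,0),(0,0)]⟩⟩ ⟨false,1,⟨1,[(1,1),(39,1),(0,0),(0,0)]⟩,⟨1,[(2,0),(0,0),(0,0)]⟩⟩]⟩) (.R ⟨0,false,
  false,false,[1,0,0,0,-1],[0,1],[-1],(⟨0,[(23,0)]⟩,⟨0,[(24,0)]⟩),(⟨0,[(35,0)]⟩,⟨0,[(34,0)]⟩),⟨0,
  [(0,0)]⟩,.k,.k,(.r (-1) ⟨9,[(17,4),(3,1),(0,1),(20,2),(1,0)]⟩ ⟨5,[(9,1),(11,0),(0,0),(3,1),(6,0),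
  (4,1),(2,1)]⟩),(.r (-1) ⟨9,[(17,4),(3,1),(0,1),(20,2),(1,0)]⟩ ⟨5,[(9,1),(11,0),(0,0),(3,1),(6,0),
  (4,1),(2,1)]⟩),.k,.k,⟨true,1,⟨9,[(17,4),(3,1),(0,1),(20,2),(1,0)]⟩,⟨0,[(8,0)]⟩⟩,⟨false,1,⟨0,[(1,
  0),(40,0)]⟩,⟨0,[(4,0)]⟩⟩,⟨false,1,⟨1,[(21,0),(0,0),(20,0)]⟩,⟨0,[]⟩⟩,⟨true,0,⟨0,[(1,0),(39,0)]⟩,⟨1,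
  [(2,0),(0,0),(0,0),(34,1)]⟩⟩,⟨false,0,⟨0,[]⟩,⟨0,[]⟩⟩,⟨false,0,⟨0,[]⟩,⟨0,[]⟩⟩,[.a ⟨true,0,⟨0,[(41,
  0)]⟩,⟨3,[(3,1),(22,1),(10,0),(5,0)]⟩⟩ ⟨false,1,⟨9,[(21,3),(0,3),(19,4),(0,0),(1,1)]⟩,⟨0,[]⟩⟩
  ⟨true,0,⟨0,[(1,0),(39,0)]⟩,⟨1,[(2,0),(0,0),(0,0)]⟩⟩,.o ⟨false,1,⟨1,[(33,0),(7,1),(1,0)]⟩,⟨0,[(40,
  0)]⟩⟩,.o ⟨false,1,⟨0,[(21,0)]⟩,⟨0,[(1,0)]⟩⟩,.e ⟨false,1,⟨0,[(39,0),(3,0)]⟩,⟨1,[(28,0),(0,0)]⟩⟩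
  ⟨false,1,⟨1,[(1,1),(39,1),(0,0),(0,0)]⟩,⟨1,[(2,0),(0,0),(0,0)]⟩⟩]⟩)))))))))) (.R ⟨1,false,false,
  false,[1,-1],[0,-1,1],[0,1,-1,-1],(⟨0,[(25,0)]⟩,⟨0,[(26,0)]⟩),(⟨0,[(11,0)]⟩,⟨0,[(21,0),(4,0)]⟩),
  ⟨0,[(10,0),(0,0)]⟩,.k,.k,(.r (-1) ⟨1,[(0,1),(0,1),(26,0),(5,0)]⟩ ⟨0,[(29,1),(6,1)]⟩),.k,.k,.k,
  ⟨false,1,⟨0,[(18,0),(0,0),(13,0)]⟩,⟨0,[(3,0),(25,0)]⟩⟩,⟨true,1,⟨1,[(19,1),(4,0),(8,0)]⟩,⟨5,[(1,3),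
  (0,3),(3,1),(21,2),(0,5),(2,1),(1,0)]⟩⟩,⟨true,0,⟨0,[(36,0)]⟩,⟨0,[]⟩⟩,⟨false,1,⟨1,[(5,1),(18,0),(9,
  0)]⟩,⟨1,[(18,1),(9,0),(5,0)]⟩⟩,⟨false,0,⟨0,[(32,0)]⟩,⟨0,[(31,0),(2,0)]⟩⟩,⟨false,1,⟨3,[(0,1),(16,
  1),(6,0),(4,3),(2,1),(1,0)]⟩,⟨1,[(1,1),(26,0),(5,0)]⟩⟩,[.e ⟨false,1,⟨7,[(8,3),(3,0),(0,0),(13,1),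
  (5,2)]⟩,⟨0,[(29,0)]⟩⟩ ⟨false,1,⟨0,[(0,0)]⟩,⟨6,[(9,0),(2,1),(0,1),(4,6),(0,1),(8,2),(0,4),(2,1),(1,
  0)]⟩⟩,.o ⟨false,1,⟨1,[(4,1),(19,0),(9,0)]⟩,⟨0,[(18,0),(13,0)]⟩⟩,.o ⟨false,0,⟨1,[(19,0),(0,0)]⟩,⟨1,
  [(24,0),(8,0)]⟩⟩,.a ⟨true,(-1),⟨7,[(1,3),(0,3),(16,4),(0,0),(7,3),(0,7),(5,1)]⟩,⟨0,[(33,0)]⟩⟩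
  ⟨false,1,⟨3,[(0,1),(0,1),(26,0),(4,1),(0,0)]⟩,⟨1,[(19,0),(0,0),(8,1)]⟩⟩ ⟨true,1,⟨0,[(0,0)]⟩,⟨1,
  [(2,0),(15,2),(0,0),(8,0),(0,2),(6,0)]⟩⟩]⟩)))) (.Q [0,-1,0,1,0,0,-1,-1,0,1,-1] (.p false [0,0,1]
  [1] (⟨0,[(19,0)]⟩,⟨0,[(18,0)]⟩) .k 1 (⟨0,[]⟩,⟨0,[]⟩) .k .k) (.S ⟨1,0,[0,0,1,1,0,0,0,-1],[1,1,-1],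
  [0,1,1,1,0,0,0,-1],(⟨0,[(19,0),(4,0)]⟩,⟨0,[(9,0)]⟩),⟨0,[(19,0)]⟩,.k,.k,⟨true,0,⟨0,[(34,0)]⟩,⟨0,
  []⟩⟩,⟨false,1,⟨1,[(10,0),(0,0),(20,0)]⟩,⟨0,[]⟩⟩,⟨false,0,⟨0,[(30,0)]⟩,⟨0,[(29,0),(2,0)]⟩⟩,⟨true,0,
  ⟨0,[(30,0)]⟩,⟨0,[(29,0)]⟩⟩,[.a ⟨true,0,⟨11,[(0,7),(0,3),(5,1),(2,0),(0,0),(13,3),(0,0)]⟩,⟨0,[(2,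
  0)]⟩⟩ ⟨false,0,⟨0,[(1,0),(26,0)]⟩,⟨1,[(2,1),(11,1),(7,0),(9,0)]⟩⟩ ⟨true,0,⟨0,[(1,0)]⟩,⟨0,[(2,0),
  (1,0)]⟩⟩,.a ⟨true,0,⟨0,[(0,0)]⟩,⟨1,[(2,0),(12,0),(13,0)]⟩⟩ ⟨true,0,⟨0,[(1,0)]⟩,⟨0,[(2,0),(1,0)]⟩⟩
  ⟨false,1,⟨1,[(1,1),(29,0),(0,0)]⟩,⟨0,[(2,0),(1,0),(23,0)]⟩⟩,.a ⟨true,0,⟨0,[(14,0)]⟩,⟨0,[(17,0)]⟩⟩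
  ⟨false,0,⟨0,[(1,0)]⟩,⟨1,[(2,1),(11,1),(7,0),(9,0)]⟩⟩ ⟨true,0,⟨0,[(1,0)]⟩,⟨0,[(2,0),(1,0),(23,
  0)]⟩⟩,.o ⟨false,0,⟨0,[(4,0)]⟩,⟨1,[(17,1),(4,0),(8,0)]⟩⟩]⟩) (.I [0,0,-1,0,0,0,0,1] (.S ⟨1,0,[0,0,0,
  0,0,0,0,1],[0,0,1],[1,1,1],(⟨0,[(21,0)]⟩,⟨0,[(20,0)]⟩),⟨0,[(10,0)]⟩,.k,.k,⟨true,0,⟨0,[(2,0),(27,
  0)]⟩,⟨0,[(0,0)]⟩⟩,⟨false,1,⟨1,[(11,0),(0,0),(20,0)]⟩,⟨0,[]⟩⟩,⟨false,0,⟨0,[(2,0)]⟩,⟨7,[(0,3),(2,3),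
  (3,1),(0,1),(14,0),(9,4)]⟩⟩,⟨true,0,⟨0,[(31,0)]⟩,⟨0,[(30,0)]⟩⟩,[.e ⟨false,0,⟨0,[(35,0)]⟩,⟨1,[(32,
  0),(0,0)]⟩⟩ ⟨false,0,⟨0,[(0,0)]⟩,⟨3,[(2,3),(4,1),(3,0),(0,0),(20,0)]⟩⟩,.o ⟨false,1,⟨1,[(4,1),(18,
  0),(9,0)]⟩,⟨0,[(17,0)]⟩⟩,.o ⟨false,1,⟨1,[(18,1),(4,0),(8,0)]⟩,⟨0,[(5,0)]⟩⟩,.a ⟨true,0,⟨0,[(18,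
  0)]⟩,⟨0,[(15,0)]⟩⟩ ⟨false,0,⟨0,[]⟩,⟨1,[(11,0),(0,0),(20,0)]⟩⟩ ⟨true,0,⟨0,[(0,0)]⟩,⟨0,[(2,0),(27,
  0)]⟩⟩]⟩) (.Q [0,0,-1,0,1,0,1,0,0,-1,1] (.p true [0,0,1] [1] (⟨0,[(21,0)]⟩,⟨0,[(20,0)]⟩) .k 1 (⟨0,
  []⟩,⟨0,[]⟩) .k .k) (.S ⟨1,0,[0,0,0,0,0,0,0,-1],[1,0,-1],[0,1,0,0,0,0,0,-1],(⟨0,[(21,0)]⟩,⟨0,[(22,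
  0)]⟩),⟨0,[(10,0)]⟩,.k,.k,⟨true,0,⟨0,[(36,0)]⟩,⟨0,[]⟩⟩,⟨false,1,⟨1,[(12,0),(0,0),(20,0)]⟩,⟨0,[]⟩⟩,
  ⟨false,0,⟨0,[(32,0)]⟩,⟨0,[(31,0),(2,0)]⟩⟩,⟨true,0,⟨0,[(32,0)]⟩,⟨0,[(31,0)]⟩⟩,[.a ⟨true,0,⟨0,[(1,
  0),(14,0)]⟩,⟨0,[(5,0)]⟩⟩ ⟨true,0,⟨0,[(1,0),(28,0)]⟩,⟨0,[(4,0),(1,0),(22,0)]⟩⟩ ⟨false,1,⟨0,[(1,0),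
  (31,0)]⟩,⟨0,[(5,0),(0,0)]⟩⟩,.o ⟨false,1,⟨0,[(18,0),(15,0)]⟩,⟨0,[(2,0),(29,0)]⟩⟩,.o ⟨false,0,⟨0,
  [(6,0)]⟩,⟨3,[(0,1),(11,0),(0,0),(5,1),(4,0)]⟩⟩,.o ⟨false,0,⟨0,[(20,0)]⟩,⟨0,[(0,0)]⟩⟩]⟩) (.I [0,-1,
  0,1,0,0,0,1] (.S ⟨1,0,[0,0,0,0,0,0,0,-1],[1,0,-1],[],(⟨0,[(22,0)]⟩,⟨0,[(23,0)]⟩),⟨0,[(11,0)]⟩,.k,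
  .k,⟨true,0,⟨4,[(0,1),(2,0),(1,0),(2,0),(1,0)]⟩,⟨0,[(2,0),(28,0)]⟩⟩,⟨false,1,⟨1,[(13,0),(0,0),(20,
  0)]⟩,⟨0,[]⟩⟩,⟨false,0,⟨0,[(0,0)]⟩,⟨3,[(2,3),(6,1),(3,0),(0,0),(20,0)]⟩⟩,⟨true,0,⟨0,[(33,0)]⟩,⟨0,
  [(32,0)]⟩⟩,[.e ⟨false,1,⟨1,[(13,0),(0,0),(19,0)]⟩,⟨0,[]⟩⟩ ⟨false,1,⟨0,[(2,0),(31,0)]⟩,⟨4,[(0,1),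
  (2,0),(1,0),(2,0),(1,0)]⟩⟩,.o ⟨false,1,⟨0,[(19,0),(15,0)]⟩,⟨0,[(3,0),(29,0)]⟩⟩,.o ⟨false,0,⟨0,[(7,
  0)]⟩,⟨1,[(20,1),(4,0),(8,0)]⟩⟩,.a ⟨true,(-1),⟨0,[(1,0)]⟩,⟨0,[(20,0),(13,0)]⟩⟩ ⟨false,1,⟨1,[(34,0),
  (0,0)]⟩,⟨1,[(20,0),(0,0)]⟩⟩ ⟨true,1,⟨0,[(2,0),(31,0)]⟩,⟨0,[(1,0),(1,0),(29,0)]⟩⟩]⟩) (.Q [0,0,2,1,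
  -1,0,1,1,0,0,1] (.p true [0,0,1] [] (⟨0,[(23,0)]⟩,⟨0,[(22,0)]⟩) .k 0 (⟨0,[]⟩,⟨0,[]⟩) .k .k) (.I
  [0,0,-2,-1,1] (.R ⟨1,false,false,false,[1,-1],[1,-1,-1],[0,1,-1,-1],(⟨0,[(28,0)]⟩,⟨0,[(29,0)]⟩),
  (⟨0,[(13,0)]⟩,⟨0,[(25,0),(3,0)]⟩),⟨0,[(13,0),(0,0)]⟩,.k,.k,(.x 0 ⟨0,[(22,0),(0,0),(5,1)]⟩ ⟨0,[(26,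
  1),(6,1),(3,0)]⟩),.k,.k,.k,⟨false,0,⟨0,[(5,0),(13,0),(15,0)]⟩,⟨1,[(4,1),(31,0),(0,0)]⟩⟩,⟨true,0,
  ⟨0,[(9,0)]⟩,⟨0,[(22,0)]⟩⟩,⟨true,0,⟨0,[(39,0)]⟩,⟨0,[]⟩⟩,⟨false,1,⟨0,[(21,0),(15,0)]⟩,⟨0,[(8,0)]⟩⟩,
  ⟨false,0,⟨0,[(35,0)]⟩,⟨0,[(34,0),(2,0)]⟩⟩,⟨false,1,⟨1,[(6,1),(12,1),(7,0),(9,0)]⟩,⟨0,[(7,0)]⟩⟩,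
  [.a ⟨true,0,⟨1,[(2,1),(0,0),(15,0),(17,0)]⟩,⟨0,[(8,0),(26,0)]⟩⟩ ⟨false,1,⟨7,[(11,3),(3,0),(0,0),
  (13,1),(5,2)]⟩,⟨0,[(32,0)]⟩⟩ ⟨true,1,⟨1,[(0,0),(1,0),(6,0),(11,0),(15,0)]⟩,⟨0,[(1,0)]⟩⟩,.o ⟨false,
  1,⟨0,[(2,0),(6,0),(27,0)]⟩,⟨0,[(5,0),(29,1)]⟩⟩,.o ⟨false,0,⟨1,[(22,0),(0,0)]⟩,⟨1,[(27,0),(8,0)]⟩⟩,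
  .e ⟨false,1,⟨0,[(0,0)]⟩,⟨1,[(22,0),(0,0),(8,1)]⟩⟩ ⟨false,2,⟨0,[(0,0),(20,0),(15,0)]⟩,⟨0,[(1,
  0)]⟩⟩]⟩) (.Q [0,0,0,2,0,0,-1,-1,0,0,-1] (.p false [0,0,1] [] (⟨0,[(25,0)]⟩,⟨0,[(24,0)]⟩) .k 0 (⟨0,
  []⟩,⟨0,[]⟩) .k .k) (.R ⟨1,true,false,false,[0,0,1],[0,1],[0,1,0,0,0,0,0,1],(⟨0,[(26,0)]⟩,⟨0,[(25,
  0)]⟩),(⟨0,[(30,0)]⟩,⟨0,[(29,0)]⟩),⟨0,[(15,0)]⟩,.k,.k,.k,.k,(.x 0 ⟨1,[(1,0),(3,0),(2,0),(14,0),(1,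
  1),(2,0),(1,3)]⟩ ⟨0,[(10,0),(4,0),(11,0),(9,0)]⟩),.k,⟨true,0,⟨0,[(6,0),(13,0)]⟩,⟨0,[(5,0),(27,
  0)]⟩⟩,⟨false,1,⟨1,[(20,1),(7,0),(8,0)]⟩,⟨0,[(23,0)]⟩⟩,⟨true,0,⟨0,[(40,0)]⟩,⟨0,[]⟩⟩,⟨false,1,⟨11,
  [(0,7),(4,3),(6,1),(0,1),(2,1),(0,1),(10,0),(9,6)]⟩,⟨0,[(8,0)]⟩⟩,⟨false,0,⟨0,[(36,0)]⟩,⟨0,[(35,0),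
  (2,0)]⟩⟩,⟨true,0,⟨0,[(0,0)]⟩,⟨0,[(8,0),(26,0)]⟩⟩,[]⟩) (.Q [0,0,0,2,0,0,1,1,0,-1,1] (.p true [0,0,
  1] [1] (⟨0,[(26,0)]⟩,⟨0,[(25,0)]⟩) .k 1 (⟨0,[]⟩,⟨0,[]⟩) .k .k) (.R ⟨1,false,false,false,[1,0,-1],
  [0,1],[],(⟨0,[(26,0)]⟩,⟨0,[(27,0)]⟩),(⟨0,[(31,0)]⟩,⟨0,[(30,0)]⟩),⟨0,[(15,0)]⟩,.k,.k,.k,.k,(.r
  (-2) ⟨1,[(6,1),(6,1),(24,0),(0,0)]⟩ ⟨1,[(0,0),(1,0),(0,0),(10,0)]⟩),.k,⟨true,1,⟨3,[(13,1),(3,0),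
  (0,0),(20,0)]⟩,⟨0,[(2,0)]⟩⟩,⟨false,2,⟨1,[(24,1),(4,0),(8,2)]⟩,⟨0,[(5,0)]⟩⟩,⟨true,0,⟨1,[(0,0),(0,
  0),(12,0)]⟩,⟨1,[(4,0),(3,0),(26,0)]⟩⟩,⟨false,1,⟨3,[(0,1),(21,1),(6,0),(9,2)]⟩,⟨1,[(4,1),(0,0),(15,
  0),(17,0)]⟩⟩,⟨true,0,⟨1,[(0,0),(9,0),(3,0)]⟩,⟨0,[(4,0)]⟩⟩,⟨true,0,⟨0,[(0,0)]⟩,⟨5,[(1,1),(2,7),(9,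
  3),(18,0),(5,0)]⟩⟩,[.e ⟨false,1,⟨1,[(17,0),(0,0),(19,0)]⟩,⟨0,[]⟩⟩ ⟨false,1,⟨1,[(0,1),(3,1),(33,0),
  (0,0)]⟩,⟨5,[(1,1),(2,1),(9,3),(18,0),(5,0)]⟩⟩,.o ⟨false,1,⟨1,[(29,0),(7,1),(1,0)]⟩,⟨0,[(36,0)]⟩⟩,
  .o ⟨false,0,⟨0,[(11,0)]⟩,⟨1,[(24,1),(4,0),(8,0)]⟩⟩,.a ⟨true,(-1),⟨0,[(5,0)]⟩,⟨0,[(24,0),(13,0)]⟩⟩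
  ⟨false,1,⟨1,[(38,0),(0,0)]⟩,⟨1,[(24,0),(0,0)]⟩⟩ ⟨true,1,⟨1,[(0,1),(3,1),(33,0),(0,0)]⟩,⟨0,[(5,0),
  (30,0)]⟩⟩]⟩) (.Q [-1,0,0,1,0,0,0,0,-1,0,0,-1] (.p false [0,0,0,0,1] [] (⟨0,[(20,0)]⟩,⟨0,[(19,
  0)]⟩) .k 0 (⟨0,[]⟩,⟨0,[]⟩) .k .k) (.R ⟨2,true,false,true,[0,1],[0,0,0,0,1],[2,1],(⟨0,[]⟩,⟨0,[]⟩),
  (⟨0,[(21,0)]⟩,⟨0,[(20,0)]⟩),⟨0,[]⟩,.k,.k,.k,(.r 0 ⟨1,[(1,1),(0,1),(0,9),(26,0),(5,17),(3,8)]⟩ ⟨3,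
  [(14,1),(3,0),(0,0),(20,0)]⟩),.k,.k,⟨true,0,⟨0,[]⟩,⟨1,[(25,0),(0,0)]⟩⟩,⟨false,0,⟨0,[(19,0)]⟩,⟨5,
  [(0,3),(13,1),(3,1),(20,0),(0,0)]⟩⟩,⟨false,1,⟨3,[(14,1),(3,0),(0,0),(20,0)]⟩,⟨0,[(3,0),(32,0),(3,
  0)]⟩⟩,⟨true,0,⟨0,[(19,0),(17,0)]⟩,⟨0,[(0,0)]⟩⟩,⟨true,0,⟨0,[(36,0)]⟩,⟨0,[(41,0)]⟩⟩,⟨false,0,⟨0,
  [(19,0)]⟩,⟨13,[(0,7),(0,1),(0,1),(15,5),(11,0),(9,6)]⟩⟩,[]⟩) (.Q [0,0,1,0,-1,0,0,0,1,0,0,1] (.p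
  true [0,0,0,0,1] [] (⟨0,[(21,0)]⟩,⟨0,[(20,0)]⟩) .k 0 (⟨0,[]⟩,⟨0,[]⟩) .k .k) (.Q [0,0,0,0,0,-1,0,0,
  0,0,0,1] (.ed false [1,-1,0,0,1] .k) (.Q [1,1,0,0,-1,0,1,1,1,-1,1,1] (.p true [0,0,1] [1,0,0,0,
  -1] (⟨0,[(30,0)]⟩,⟨0,[(29,0)]⟩) .k 2 (⟨0,[(22,0)]⟩,⟨0,[(23,0)]⟩) .k (.r 0 ⟨0,[(13,0),(0,0)]⟩ ⟨3,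
  [(11,3),(4,1),(3,0),(0,0),(20,0)]⟩)) (.R ⟨1,false,false,true,[0,0,0,0,1],[0,1],[0,1],(⟨0,[(24,
  0)]⟩,⟨0,[(23,0)]⟩),(⟨0,[(35,0)]⟩,⟨0,[(34,0)]⟩),⟨0,[(1,0)]⟩,.k,.k,(.r (-1) ⟨3,[(17,1),(3,0),(0,0),
  (20,0)]⟩ ⟨1,[(4,1),(0,1),(0,9),(26,0),(5,17),(3,8)]⟩),(.r (-1) ⟨3,[(17,1),(3,0),(0,0),(20,0)]⟩ ⟨1,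
  [(4,1),(0,1),(0,9),(26,0),(5,17),(3,8)]⟩),(.r (-2) ⟨1,[(17,1),(3,0),(0,0),(20,0)]⟩ ⟨0,[(6,1),(32,
  1),(3,0)]⟩),.k,⟨true,1,⟨3,[(17,1),(3,0),(0,0),(20,0)]⟩,⟨0,[(6,0)]⟩⟩,⟨false,2,⟨0,[(21,0),(20,0)]⟩,
  ⟨0,[(2,0)]⟩⟩,⟨true,0,⟨0,[(45,0)]⟩,⟨0,[]⟩⟩,⟨false,1,⟨0,[(21,0),(19,0)]⟩,⟨3,[(0,1),(1,1),(1,1),(37,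
  0),(0,2)]⟩⟩,⟨false,0,⟨0,[(6,0),(32,1),(3,0)]⟩,⟨13,[(3,5),(0,1),(0,1),(15,5),(11,0),(9,6)]⟩⟩,
  ⟨false,1,⟨0,[(21,0),(19,1)]⟩,⟨0,[(0,0),(3,0),(38,0)]⟩⟩,[.o ⟨false,0,⟨1,[(6,0),(26,0),(5,1),(1,
  0)]⟩,⟨13,[(3,5),(0,1),(0,1),(15,5),(11,0),(9,6)]⟩⟩,.a ⟨true,0,⟨0,[(41,0)]⟩,⟨3,[(4,1),(21,1),(10,
  0),(5,0)]⟩⟩ ⟨false,1,⟨1,[(21,0),(0,0),(19,0)]⟩,⟨0,[]⟩⟩ ⟨true,1,⟨0,[(21,0),(19,0)]⟩,⟨3,[(0,2),(1,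
  0),(1,2),(1,1),(32,0),(3,1)]⟩⟩,.o ⟨false,0,⟨1,[(2,1),(30,0),(8,0)]⟩,⟨0,[(21,0)]⟩⟩,.e ⟨true,0,⟨0,
  [(39,0)]⟩,⟨1,[(28,0),(0,0)]⟩⟩ ⟨true,1,⟨0,[(21,0),(17,0),(1,0)]⟩,⟨3,[(0,2),(1,0),(1,2),(1,1),(32,
  0),(3,1)]⟩⟩]⟩) (.S ⟨1,0,[1],[0,0,0,0,1],[1,0,1],(⟨0,[(24,0)]⟩,⟨0,[(23,0)]⟩),⟨0,[(1,0)]⟩,.k,(.r
  (-1) ⟨3,[(17,1),(3,0),(0,0),(20,0)]⟩ ⟨1,[(4,1),(0,1),(0,9),(26,0),(5,17),(3,8)]⟩),⟨true,0,⟨1,[(28,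
  0),(0,0)]⟩,⟨0,[(39,0)]⟩⟩,⟨false,1,⟨1,[(21,0),(0,0),(20,0)]⟩,⟨0,[]⟩⟩,⟨false,0,⟨0,[(6,0),(32,0),(3,
  0)]⟩,⟨3,[(17,1),(3,0),(0,0),(20,0)]⟩⟩,⟨true,0,⟨0,[(41,0)]⟩,⟨0,[(40,0)]⟩⟩,[.o ⟨false,0,⟨1,[(2,1),
  (30,0),(8,0)]⟩,⟨1,[(0,0),(10,0),(9,0),(19,0)]⟩⟩,.e ⟨false,1,⟨1,[(21,0),(0,0),(20,0)]⟩,⟨0,[(39,
  0)]⟩⟩ ⟨false,1,⟨1,[(42,0),(0,0)]⟩,⟨0,[(45,0)]⟩⟩,.o ⟨false,0,⟨1,[(2,1),(30,0),(8,0)]⟩,⟨0,[(21,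
  0)]⟩⟩,.a ⟨true,(-1),⟨0,[(2,0)]⟩,⟨1,[(21,1),(15,0),(4,0)]⟩⟩ ⟨true,0,⟨0,[]⟩,⟨0,[(45,0)]⟩⟩ ⟨false,1,
  ⟨1,[(42,0),(0,0)]⟩,⟨1,[(28,0),(0,0)]⟩⟩]⟩)) (.Q [0,0,1,1,-1,0,1,1,1,-1,1,1] (.p true [0,0,1] [1,0,
  0,0,-1] (⟨0,[(30,0)]⟩,⟨0,[(29,0)]⟩) .k 2 (⟨0,[(22,0)]⟩,⟨0,[(23,0)]⟩) .k (.r 0 ⟨0,[(13,0),(0,0)]⟩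
  ⟨3,[(11,3),(4,1),(3,0),(0,0),(20,0)]⟩)) (.R ⟨0,false,false,true,[0,0,0,0,1],[0,1],[0,1],(⟨0,[(24,
  0)]⟩,⟨0,[(23,0)]⟩),(⟨0,[(35,0)]⟩,⟨0,[(34,0)]⟩),⟨0,[(1,0)]⟩,.k,.k,(.r (-1) ⟨3,[(17,1),(3,0),(0,0),
  (20,0)]⟩ ⟨1,[(4,1),(0,1),(0,9),(26,0),(5,17),(3,8)]⟩),(.r (-1) ⟨3,[(17,1),(3,0),(0,0),(20,0)]⟩ ⟨1,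
  [(4,1),(0,1),(0,9),(26,0),(5,17),(3,8)]⟩),.k,.k,⟨true,1,⟨3,[(17,1),(3,0),(0,0),(20,0)]⟩,⟨0,[(6,
  0)]⟩⟩,⟨false,2,⟨0,[(21,0),(20,0)]⟩,⟨0,[(2,0)]⟩⟩,⟨true,0,⟨0,[(45,0)]⟩,⟨0,[]⟩⟩,⟨false,1,⟨0,[(21,0),
  (19,0)]⟩,⟨1,[(0,1),(3,1),(37,0),(0,0)]⟩⟩,⟨false,0,⟨0,[]⟩,⟨0,[]⟩⟩,⟨false,0,⟨0,[]⟩,⟨0,[]⟩⟩,[.o
  ⟨false,0,⟨1,[(6,0),(26,0),(5,1),(1,0)]⟩,⟨13,[(3,5),(0,1),(0,1),(15,5),(11,0),(9,6)]⟩⟩,.a ⟨true,0,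
  ⟨0,[(41,0)]⟩,⟨3,[(4,1),(21,1),(10,0),(5,0)]⟩⟩ ⟨false,1,⟨1,[(21,0),(0,0),(19,0)]⟩,⟨0,[]⟩⟩ ⟨true,1,
  ⟨0,[(21,0),(19,0)]⟩,⟨0,[(0,0),(3,0)]⟩⟩,.o ⟨false,0,⟨1,[(2,1),(30,0),(8,0)]⟩,⟨0,[(21,0)]⟩⟩,.e
  ⟨true,0,⟨0,[(39,0)]⟩,⟨1,[(28,0),(0,0)]⟩⟩ ⟨true,1,⟨0,[(21,0),(17,0),(1,0)]⟩,⟨0,[(0,0),(3,0)]⟩⟩]⟩)
  (.R ⟨1,false,false,false,[1,0,0,0,-1],[0,1],[-1],(⟨0,[(23,0)]⟩,⟨0,[(24,0)]⟩),(⟨0,[(35,0)]⟩,⟨0,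
  [(34,0)]⟩),⟨0,[(1,0),(17,0),(0,0)]⟩,.k,.k,(.r (-1) ⟨9,[(17,4),(3,1),(0,1),(20,2),(1,0)]⟩ ⟨1,[(12,
  0),(3,0),(21,0)]⟩),(.r (-1) ⟨9,[(17,4),(3,1),(0,1),(20,2),(1,0)]⟩ ⟨1,[(12,0),(3,0),(21,0)]⟩),(.r
  (-2) ⟨1,[(17,1),(3,0),(0,0),(20,0)]⟩ ⟨0,[(6,0),(34,0)]⟩),.k,⟨true,1,⟨9,[(17,4),(3,1),(0,1),(20,2),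
  (1,0)]⟩,⟨0,[(6,0)]⟩⟩,⟨false,1,⟨1,[(2,1),(30,0),(8,2)]⟩,⟨0,[(0,0),(6,0)]⟩⟩,⟨false,1,⟨1,[(21,0),(0,
  0),(20,0)]⟩,⟨0,[]⟩⟩,⟨true,0,⟨1,[(2,1),(30,0),(7,1),(0,0)]⟩,⟨1,[(0,1),(4,0),(0,0),(0,0),(31,1)]⟩⟩,
  ⟨true,0,⟨0,[(41,0)]⟩,⟨0,[(40,0)]⟩⟩,⟨true,0,⟨1,[(2,1),(30,0),(7,3),(0,0)]⟩,⟨0,[(0,0),(4,0),(0,0),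
  (32,0)]⟩⟩,[.a ⟨true,0,⟨0,[(41,0)]⟩,⟨3,[(4,1),(21,1),(10,0),(5,0)]⟩⟩ ⟨false,1,⟨9,[(21,3),(0,3),(19,
  4),(0,0),(1,1)]⟩,⟨0,[]⟩⟩ ⟨true,0,⟨1,[(2,1),(30,0),(7,1),(0,0)]⟩,⟨1,[(0,1),(4,0),(0,0),(0,0)]⟩⟩,.o
  ⟨false,1,⟨1,[(33,0),(7,1),(1,0)]⟩,⟨0,[(40,0)]⟩⟩,.o ⟨false,1,⟨0,[(21,0)]⟩,⟨1,[(2,1),(30,0),(8,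
  0)]⟩⟩,.e ⟨false,1,⟨0,[(39,0),(3,0)]⟩,⟨1,[(28,0),(0,0)]⟩⟩ ⟨false,1,⟨1,[(2,1),(30,0),(7,1),(0,1),(0,
  0)]⟩,⟨1,[(0,1),(4,0),(0,0),(0,0)]⟩⟩]⟩))) (.Q [0,0,0,0,0,-1,0,0,0,1,0,-1] (.ed true [0,1,0,0,1]
  .k) (.Q [-1,0,0,0,0,0,0,0,-1,1,0,-1] (.p false [0,0,0,0,1] [1] (⟨0,[(23,0)]⟩,⟨0,[(22,0)]⟩) .k 1
  (⟨0,[]⟩,⟨0,[]⟩) .k .k) (.Q [-1,1,0,0,0,0,0,0,-1,0,0,-1] (.p false [0,0,0,0,1] [] (⟨0,[(24,0)]⟩,⟨0,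
  [(23,0)]⟩) .k 0 (⟨0,[]⟩,⟨0,[]⟩) .k .k) (.Q [0,0,1,0,0,0,0,0,-1,0,0,-1] (.p false [0,0,0,0,1] []
  (⟨0,[(25,0)]⟩,⟨0,[(24,0)]⟩) .k 0 (⟨0,[]⟩,⟨0,[]⟩) .k .k) (.S ⟨1,0,[-1,1],[1,0,0,0,-1],[-1],(⟨0,
  [(25,0)]⟩,⟨0,[(26,0)]⟩),⟨0,[(3,0)]⟩,.k,(.r (-1) ⟨9,[(19,4),(3,1),(0,1),(20,2),(1,0)]⟩ ⟨1,[(14,0),
  (3,0),(21,0)]⟩),⟨false,1,⟨1,[(23,0),(0,0),(20,0)]⟩,⟨0,[]⟩⟩,⟨true,0,⟨0,[(47,0)]⟩,⟨0,[]⟩⟩,⟨true,0,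
  ⟨0,[(43,0)]⟩,⟨0,[(42,0)]⟩⟩,⟨false,0,⟨0,[(43,0)]⟩,⟨13,[(5,5),(0,1),(0,1),(15,5),(11,0),(9,6)]⟩⟩,
  [.o ⟨false,0,⟨0,[(1,0)]⟩,⟨1,[(24,1),(10,0),(9,0)]⟩⟩,.e ⟨false,1,⟨0,[(41,0),(3,0)]⟩,⟨0,[(47,0)]⟩⟩
  ⟨false,1,⟨9,[(23,3),(0,3),(19,4),(0,0),(1,1)]⟩,⟨0,[]⟩⟩,.a ⟨true,0,⟨0,[(2,0)]⟩,⟨0,[(24,0)]⟩⟩
  ⟨false,1,⟨4,[(23,1),(0,1),(20,2),(1,0)]⟩,⟨0,[]⟩⟩ ⟨true,0,⟨0,[(47,0)]⟩,⟨0,[]⟩⟩,.o ⟨false,0,⟨0,[(0,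
  0)]⟩,⟨1,[(24,1),(10,0),(8,0)]⟩⟩]⟩) (.R ⟨2,true,false,true,[0,1],[1,0,0,0,-1],[0,0,1,1],(⟨0,[]⟩,⟨0,
  []⟩),(⟨0,[(25,0)]⟩,⟨0,[(26,0)]⟩),⟨0,[]⟩,.k,.k,.k,(.r 0 ⟨1,[(14,0),(3,0),(21,0)]⟩ ⟨9,[(19,4),(3,1),
  (0,1),(20,2),(1,0)]⟩),.k,.k,⟨true,0,⟨0,[(40,0)]⟩,⟨0,[(42,0)]⟩⟩,⟨false,0,⟨0,[(2,0)]⟩,⟨1,[(24,1),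
  (10,0),(8,0)]⟩⟩,⟨false,1,⟨1,[(23,0),(0,0),(20,0)]⟩,⟨0,[]⟩⟩,⟨true,0,⟨0,[(2,0),(39,0)]⟩,⟨1,[(0,1),
  (7,0),(26,0),(7,0)]⟩⟩,⟨true,0,⟨0,[(43,0)]⟩,⟨0,[(42,0)]⟩⟩,⟨false,0,⟨0,[(2,0)]⟩,⟨1,[(24,1),(10,0),
  (9,0)]⟩⟩,[]⟩)) (.R ⟨2,true,false,false,[0,1],[0,0,0,0,1],[1,0,1],(⟨0,[]⟩,⟨0,[]⟩),(⟨0,[(25,0)]⟩,⟨0,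
  [(24,0)]⟩),⟨0,[]⟩,.k,.k,.k,(.r 0 ⟨1,[(5,1),(0,1),(0,9),(26,0),(5,17),(3,8)]⟩ ⟨3,[(18,1),(3,0),(0,
  0),(20,0)]⟩),.k,.k,⟨true,0,⟨1,[(29,0),(0,0)]⟩,⟨0,[]⟩⟩,⟨false,0,⟨0,[(23,0)]⟩,⟨0,[(3,0)]⟩⟩,⟨false,1,
  ⟨13,[(4,5),(0,1),(0,1),(15,5),(11,0),(9,6)]⟩,⟨0,[(42,0)]⟩⟩,⟨true,0,⟨0,[(4,0)]⟩,⟨0,[(3,0),(3,0),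
  (32,0)]⟩⟩,⟨true,0,⟨0,[]⟩,⟨0,[(46,0)]⟩⟩,⟨false,0,⟨0,[(0,0)]⟩,⟨6,[(1,1),(20,4),(11,0),(9,0),(1,
  1)]⟩⟩,[]⟩)) (.R ⟨2,true,false,false,[0,1],[0,0,0,0,1],[1,0,1],(⟨0,[]⟩,⟨0,[]⟩),(⟨0,[(24,0)]⟩,⟨0,
  [(23,0)]⟩),⟨0,[]⟩,.k,.k,.k,(.r 0 ⟨1,[(4,1),(0,1),(0,9),(26,0),(5,17),(3,8)]⟩ ⟨3,[(17,1),(3,0),(0,
  0),(20,0)]⟩),.k,.k,⟨true,0,⟨1,[(28,0),(0,0)]⟩,⟨0,[]⟩⟩,⟨false,0,⟨0,[(22,0)]⟩,⟨0,[(2,0)]⟩⟩,⟨false,1,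
  ⟨13,[(3,5),(0,1),(0,1),(15,5),(11,0),(9,6)]⟩,⟨0,[(41,0)]⟩⟩,⟨true,0,⟨0,[(3,0)]⟩,⟨0,[(2,0),(3,0),
  (32,0)]⟩⟩,⟨true,0,⟨0,[]⟩,⟨0,[(45,0)]⟩⟩,⟨false,0,⟨1,[(0,1),(36,0),(5,0)]⟩,⟨1,[(2,0),(18,0),(22,
  0)]⟩⟩,[]⟩)) (.Q [-1,1,0,0,0,0,0,0,-1,0,0,-1] (.p false [0,0,0,0,1] [] (⟨0,[(23,0)]⟩,⟨0,[(22,0)]⟩)
  .k 0 (⟨0,[]⟩,⟨0,[]⟩) .k .k) (.S ⟨1,0,[1],[0,0,0,0,1],[0,1],(⟨0,[(24,0)]⟩,⟨0,[(23,0)]⟩),⟨0,[(1,0),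
  (17,0),(0,0)]⟩,.k,(.r (-1) ⟨3,[(17,1),(3,0),(0,0),(20,0)]⟩ ⟨1,[(4,1),(0,1),(0,9),(26,0),(5,17),(3,
  8)]⟩),⟨true,0,⟨0,[(45,0)]⟩,⟨0,[]⟩⟩,⟨false,1,⟨1,[(21,0),(0,0),(20,0)]⟩,⟨0,[]⟩⟩,⟨false,0,⟨0,[(6,0),
  (32,1),(3,0)]⟩,⟨13,[(3,5),(0,1),(0,1),(15,5),(11,0),(9,6)]⟩⟩,⟨true,0,⟨0,[(41,0)]⟩,⟨0,[(40,0)]⟩⟩,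
  [.a ⟨true,0,⟨0,[(22,0)]⟩,⟨1,[(0,1),(36,0),(5,0)]⟩⟩ ⟨false,0,⟨0,[(39,0)]⟩,⟨1,[(21,0),(0,0),(20,
  0)]⟩⟩ ⟨true,0,⟨0,[]⟩,⟨1,[(28,0),(0,0)]⟩⟩,.o ⟨false,1,⟨1,[(22,1),(10,0),(9,0)]⟩,⟨0,[(0,0)]⟩⟩,.e
  ⟨true,0,⟨0,[(45,0)]⟩,⟨0,[]⟩⟩ ⟨true,0,⟨0,[]⟩,⟨0,[(45,0)]⟩⟩,.o ⟨false,0,⟨3,[(3,2),(2,2),(15,0),(10,
  1),(5,1),(3,0)]⟩,⟨0,[(2,0)]⟩⟩]⟩) (.R ⟨2,true,false,false,[0,1],[0,0,0,0,1],[1,0,1],(⟨0,[]⟩,⟨0,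
  []⟩),(⟨0,[(24,0)]⟩,⟨0,[(23,0)]⟩),⟨0,[]⟩,.k,.k,.k,(.r 0 ⟨1,[(4,1),(0,1),(0,9),(26,0),(5,17),(3,
  8)]⟩ ⟨3,[(17,1),(3,0),(0,0),(20,0)]⟩),.k,.k,⟨true,0,⟨1,[(28,0),(0,0)]⟩,⟨0,[]⟩⟩,⟨false,0,⟨0,[(22,
  0)]⟩,⟨0,[(2,0)]⟩⟩,⟨false,1,⟨13,[(3,5),(0,1),(0,1),(15,5),(11,0),(9,6)]⟩,⟨0,[(41,0)]⟩⟩,⟨true,0,⟨0,
  [(3,0)]⟩,⟨0,[(2,0),(3,0),(32,0)]⟩⟩,⟨true,0,⟨0,[]⟩,⟨0,[(45,0)]⟩⟩,⟨false,0,⟨0,[(0,0)]⟩,⟨1,[(2,0),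
  (18,0),(22,0)]⟩⟩,[]⟩)))))))) (.R ⟨1,false,false,false,[1,-1],[1,-1,-1],[0,1,-1,-1],(⟨0,[(27,0)]⟩,
  ⟨0,[(28,0)]⟩),(⟨0,[(12,0)]⟩,⟨0,[(24,0),(3,0)]⟩),⟨0,[(12,0),(0,0)]⟩,.k,.k,(.r (-1) ⟨0,[(0,0),(5,
  0)]⟩ ⟨0,[(5,0),(3,0),(21,0)]⟩),.k,.k,.k,⟨false,0,⟨0,[(4,0),(13,0),(15,0)]⟩,⟨1,[(3,1),(31,0),(0,
  0)]⟩⟩,⟨true,0,⟨0,[(8,0)]⟩,⟨0,[(21,0)]⟩⟩,⟨true,0,⟨0,[(38,0)]⟩,⟨0,[]⟩⟩,⟨false,1,⟨5,[(0,1),(2,1),(1,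
  1),(5,1),(14,0),(9,2)]⟩,⟨0,[(7,0)]⟩⟩,⟨false,0,⟨0,[(34,0)]⟩,⟨0,[(33,0),(2,0)]⟩⟩,⟨false,1,⟨5,[(0,1),
  (4,3),(5,1),(14,0),(7,3),(1,2)]⟩,⟨0,[(6,0)]⟩⟩,[.e ⟨false,1,⟨7,[(10,3),(3,0),(0,0),(13,1),(5,2)]⟩,
  ⟨0,[(31,0)]⟩⟩ ⟨false,1,⟨0,[(0,0)]⟩,⟨0,[(19,0),(11,0)]⟩⟩,.o ⟨false,1,⟨5,[(0,1),(0,3),(0,1),(19,1),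
  (3,0),(9,4)]⟩,⟨0,[(4,0),(29,1)]⟩⟩,.o ⟨false,0,⟨1,[(21,0),(0,0)]⟩,⟨1,[(26,0),(8,0)]⟩⟩,.a ⟨true,
  (-1),⟨0,[(2,0),(18,0)]⟩,⟨0,[(35,0)]⟩⟩ ⟨false,1,⟨1,[(0,0),(5,0),(28,0)]⟩,⟨1,[(21,0),(0,0),(8,1)]⟩⟩
  ⟨true,1,⟨0,[(0,0)]⟩,⟨0,[(2,0),(1,0),(16,0),(12,1)]⟩⟩]⟩))))))))

theorem ok2 : chk K t2 l3 = true := by decide +kernel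

noncomputable def t3 : Tre :=
  (.R ⟨2,true,false,true,[0,1],[0,0,1],[1,1,1],(⟨0,[]⟩,⟨0,[]⟩),(⟨0,[(18,0)]⟩,⟨0,[(17,0)]⟩),⟨0,[]⟩,
  .k,.k,.k,.k,.k,.k,⟨false,0,⟨0,[(0,0),(26,0)]⟩,⟨1,[(3,1),(25,0),(0,0)]⟩⟩,⟨true,0,⟨0,[(15,0)]⟩,⟨0,
  [(2,0)]⟩⟩,⟨true,0,⟨0,[(27,0)]⟩,⟨0,[(28,0)]⟩⟩,⟨false,1,⟨0,[(13,0),(13,0),(2,0)]⟩,⟨0,[(0,0),(1,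
  0)]⟩⟩,⟨false,0,⟨0,[]⟩,⟨1,[(8,0),(0,0),(20,0)]⟩⟩,⟨true,0,⟨0,[(13,0)]⟩,⟨0,[(1,0)]⟩⟩,[]⟩)

theorem ok3 : chk K t3 l4 = true := by decide +kernel

noncomputable def t4 : Tre :=
  (.R ⟨2,true,false,true,[0,1],[0,0,1],[0,1,1,1],(⟨0,[]⟩,⟨0,[]⟩),(⟨0,[(19,0)]⟩,⟨0,[(18,0)]⟩),⟨0,[]⟩,
  .k,.k,.k,.k,.k,.k,⟨false,0,⟨0,[(0,0),(15,0),(10,0)]⟩,⟨1,[(1,1),(28,0),(0,0)]⟩⟩,⟨true,0,⟨0,[(16,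
  0)]⟩,⟨0,[(3,0)]⟩⟩,⟨true,0,⟨0,[(33,0)]⟩,⟨0,[]⟩⟩,⟨false,1,⟨7,[(1,3),(3,1),(3,0),(0,0),(3,3),(1,3),
  (14,4)]⟩,⟨0,[(0,0)]⟩⟩,⟨false,0,⟨0,[(29,0)]⟩,⟨0,[(28,0),(2,0)]⟩⟩,⟨true,0,⟨0,[(14,0)]⟩,⟨0,[(2,0)]⟩⟩,
  []⟩)

theorem ok4 : chk K t4 l5 = true := by decide +kernel

noncomputable def t5 : Tre :=
  (.S ⟨1,0,[0,0,0,0,0,0,0,1],[0,0,1],[0,1,0,0,0,0,0,1],(⟨0,[(21,0)]⟩,⟨0,[(20,0)]⟩),⟨0,[(10,0)]⟩,.k,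
  .k,⟨true,0,⟨0,[(35,0)]⟩,⟨0,[]⟩⟩,⟨false,1,⟨1,[(11,0),(0,0),(20,0)]⟩,⟨0,[]⟩⟩,⟨false,0,⟨0,[(31,0)]⟩,
  ⟨0,[(30,0),(2,0)]⟩⟩,⟨true,0,⟨0,[(31,0)]⟩,⟨0,[(30,0)]⟩⟩,[.o ⟨false,1,⟨3,[(0,1),(10,0),(0,0),(3,1),
  (6,0)]⟩,⟨0,[(4,0)]⟩⟩,.o ⟨false,1,⟨0,[(0,0)]⟩,⟨0,[(17,0)]⟩⟩,.o ⟨false,1,⟨1,[(18,1),(4,0),(8,0)]⟩,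
  ⟨0,[(5,0)]⟩⟩,.a ⟨true,0,⟨0,[(18,0)]⟩,⟨0,[(15,0)]⟩⟩ ⟨true,0,⟨0,[(1,0),(27,0)]⟩,⟨0,[(4,0),(13,0)]⟩⟩
  ⟨false,1,⟨0,[(0,0),(14,0)]⟩,⟨0,[(4,0),(13,0)]⟩⟩]⟩)

theorem ok5 : chk K t5 l7 = true := by decide +kernel

noncomputable def t6 : Tre :=
  (.R ⟨2,true,false,true,[0,1],[1,0,-1],[1,1,1],(⟨0,[]⟩,⟨0,[]⟩),(⟨0,[(22,0)]⟩,⟨0,[(23,0)]⟩),⟨0,[]⟩,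
  .k,.k,.k,.k,.k,.k,⟨false,0,⟨0,[(3,0)]⟩,⟨0,[(6,0),(13,0),(13,0)]⟩⟩,⟨true,(-1),⟨0,[(1,0),(0,0),(27,
  0)]⟩,⟨1,[(20,1),(4,0),(8,0)]⟩⟩,⟨true,0,⟨0,[(32,0)]⟩,⟨0,[(33,0)]⟩⟩,⟨false,0,⟨0,[(2,0),(29,0),(2,
  0)]⟩,⟨0,[(0,0)]⟩⟩,⟨false,0,⟨0,[]⟩,⟨1,[(13,0),(0,0),(20,0)]⟩⟩,⟨true,(-1),⟨0,[(2,0)]⟩,⟨13,[(0,7),(4,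
  3),(3,1),(3,0),(0,0),(3,1),(1,3),(4,2)]⟩⟩,[]⟩)

theorem ok6 : chk K t6 l9 = true := by decide +kernel

noncomputable def t7 : Tre :=
  (.R ⟨1,false,false,true,[1,-1],[0,-1,1],[0,1,-1,-1],(⟨0,[(27,0)]⟩,⟨0,[(28,0)]⟩),(⟨0,[(13,0)]⟩,⟨0,
  [(23,0),(4,0)]⟩),⟨0,[(12,0),(0,0)]⟩,.k,.k,(.r (-1) ⟨0,[(0,0)]⟩ ⟨0,[(31,1),(6,1)]⟩),.k,.k,.k,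
  ⟨false,1,⟨0,[(7,0),(13,0),(13,0)]⟩,⟨0,[(4,0)]⟩⟩,⟨true,1,⟨1,[(21,1),(4,0),(8,0)]⟩,⟨0,[(2,0),(0,0),
  (27,0)]⟩⟩,⟨true,0,⟨0,[(38,0)]⟩,⟨0,[]⟩⟩,⟨false,1,⟨1,[(19,1),(6,0),(9,0)]⟩,⟨0,[(3,0),(32,0)]⟩⟩,
  ⟨false,0,⟨0,[(34,0)]⟩,⟨0,[(33,0),(2,0)]⟩⟩,⟨false,1,⟨1,[(19,1),(6,0),(7,1),(1,0)]⟩,⟨0,[(1,0),(34,
  0)]⟩⟩,[.a ⟨true,0,⟨0,[(5,0)]⟩,⟨0,[(3,0),(30,0),(1,0)]⟩⟩ ⟨false,1,⟨7,[(10,3),(3,0),(0,0),(13,1),(5,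
  2)]⟩,⟨0,[(31,0)]⟩⟩ ⟨true,1,⟨1,[(0,0),(18,1),(6,0)]⟩,⟨0,[(1,0),(29,1)]⟩⟩,.o ⟨false,1,⟨1,[(5,1),(20,
  0),(9,0)]⟩,⟨0,[(7,0),(26,0)]⟩⟩,.o ⟨false,0,⟨1,[(21,0),(0,0)]⟩,⟨1,[(26,0),(8,0)]⟩⟩,.e ⟨false,1,⟨1,
  [(0,0),(34,0)]⟩,⟨1,[(21,0),(0,0),(8,1)]⟩⟩ ⟨false,2,⟨1,[(0,0),(18,1),(6,0),(8,0),(0,0)]⟩,⟨0,[(1,0),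
  (29,1)]⟩⟩]⟩)

theorem ok7 : chk K t7 l10 = true := by decide +kernel

noncomputable def t8 : Tre :=
  (.R ⟨1,true,false,false,[1,0,-1],[0,1],[0,0,0,0,0,0,0,-1],(⟨0,[(24,0)]⟩,⟨0,[(25,0)]⟩),(⟨0,[(29,
  0)]⟩,⟨0,[(28,0)]⟩),⟨0,[(13,0)]⟩,.k,.k,.k,.k,(.r (-2) ⟨1,[(8,1),(2,1),(10,1),(13,0),(0,0)]⟩ ⟨1,[(1,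
  2),(1,1),(29,1),(3,0)]⟩),.k,⟨true,1,⟨1,[(2,1),(19,1),(4,0),(8,1),(0,0)]⟩,⟨0,[(1,0),(1,0)]⟩⟩,
  ⟨false,2,⟨1,[(22,1),(4,0),(8,2)]⟩,⟨3,[(1,1),(0,1),(0,1),(5,1),(21,0),(5,0)]⟩⟩,⟨false,1,⟨1,[(15,0),
  (0,0),(20,0)]⟩,⟨0,[]⟩⟩,⟨true,1,⟨3,[(0,1),(14,0),(0,0),(3,1),(6,0)]⟩,⟨0,[(2,0)]⟩⟩,⟨true,0,⟨0,[(35,
  0)]⟩,⟨0,[(34,0)]⟩⟩,⟨false,1,⟨0,[(0,0)]⟩,⟨0,[(2,0),(31,0),(2,0)]⟩⟩,[]⟩)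

theorem ok8 : chk K t8 l11 = true := by decide +kernel

noncomputable def t9 : Tre :=
  (.S ⟨1,0,[0,1,-1,-1],[1,-1],[1,0,1],(⟨0,[(29,0)]⟩,⟨0,[(30,0)]⟩),⟨0,[(14,0),(0,0)]⟩,.k,(.x 0 ⟨0,
  [(23,0),(0,0),(5,1)]⟩ ⟨0,[(27,1),(6,1),(3,0)]⟩),⟨false,0,⟨1,[(23,0),(0,0),(8,1)]⟩,⟨0,[(0,0)]⟩⟩,
  ⟨true,0,⟨0,[(40,0)]⟩,⟨0,[]⟩⟩,⟨true,(-1),⟨0,[(2,0)]⟩,⟨0,[(12,0)]⟩⟩,⟨false,0,⟨0,[(36,0)]⟩,⟨0,[(35,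
  0),(2,0)]⟩⟩,[.o ⟨false,0,⟨0,[(35,0)]⟩,⟨1,[(28,0),(7,1),(1,0)]⟩⟩,.e ⟨false,1,⟨1,[(16,0),(0,0),(20,
  0)]⟩,⟨0,[(34,0)]⟩⟩ ⟨false,1,⟨0,[(0,0)]⟩,⟨1,[(2,0),(13,0),(0,0)]⟩⟩,.o ⟨false,0,⟨1,[(23,0),(0,0)]⟩,
  ⟨1,[(28,0),(8,0)]⟩⟩,.a ⟨true,(-1),⟨11,[(1,3),(0,3),(1,3),(18,6),(0,2),(7,3),(0,3),(5,1)]⟩,⟨0,[(37,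
  0)]⟩⟩ ⟨true,0,⟨0,[]⟩,⟨0,[(40,0)]⟩⟩ ⟨false,1,⟨0,[(0,0)]⟩,⟨1,[(23,0),(0,0),(8,1)]⟩⟩]⟩)

theorem ok9 : chk K t9 l12 = true := by decide +kernel

noncomputable def t10 : Tre :=
  (.I [1,0,-2,-2,1,0,0,1] (.I [0,0,2,0,0,2,1] (.N [0,-2,1] (-1) ⟨0,[(1,0)]⟩ ⟨0,[(2,0)]⟩ (.x 0 ⟨0,
  [(0,0)]⟩ ⟨0,[(13,0),(4,0),(11,0),(9,0)]⟩)) (.Q [0,0,0,1,1,0,2,2,0,-1,2] (.p true [0,0,1] [1,0,-1]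
  (⟨0,[(29,0)]⟩,⟨0,[(28,0)]⟩) .k 2 (⟨0,[(28,0)]⟩,⟨0,[(29,0)]⟩) .k (.r 0 ⟨0,[(0,3),(2,1),(3,1),(9,3),
  (8,3),(4,1),(1,11)]⟩ ⟨0,[(12,1),(13,1),(13,0)]⟩)) (.I [0,0,-1,-1,1,0,0,-2] (.R ⟨1,true,false,true,
  [1,0,-1],[0,0,1],[0,0,0,0,0,0,0,-1],(⟨0,[(30,0)]⟩,⟨0,[(31,0)]⟩),(⟨0,[(31,0)]⟩,⟨0,[(30,0)]⟩),⟨0,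
  [(19,0)]⟩,.k,.k,.k,.k,(.r (-1) ⟨0,[(0,0)]⟩ ⟨1,[(1,0),(3,0),(5,1),(6,0)]⟩),.k,⟨true,1,⟨39,[(0,33),
  (0,1),(2,15),(13,1),(9,0),(0,0),(13,19)]⟩,⟨0,[(5,0),(3,0),(1,0),(27,0)]⟩⟩,⟨false,2,⟨0,[(0,0),(0,
  0)]⟩,⟨5,[(2,5),(2,5),(0,1),(2,1),(5,3),(14,5),(2,0),(1,11),(7,0)]⟩⟩,⟨false,1,⟨7,[(0,1),(0,1),(16,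
  1),(9,0),(0,0),(13,3)]⟩,⟨0,[]⟩⟩,⟨true,1,⟨0,[(1,0),(38,0)]⟩,⟨1,[(2,1),(1,1),(1,1),(23,1),(2,0),(1,
  3),(7,0)]⟩⟩,⟨true,0,⟨0,[(41,0)]⟩,⟨0,[(40,0)]⟩⟩,⟨false,1,⟨0,[(1,0)]⟩,⟨1,[(6,0),(3,0),(3,1),(28,
  1)]⟩⟩,[]⟩) (.R ⟨1,true,false,true,[1,0,-1],[0,0,1],[0,0,0,0,0,0,0,-1],(⟨0,[(30,0)]⟩,⟨0,[(31,0)]⟩),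
  (⟨0,[(31,0)]⟩,⟨0,[(30,0)]⟩),⟨0,[(19,0)]⟩,.k,.k,.k,.k,(.x 2 ⟨1,[(0,0),(1,2),(2,2),(0,1),(21,0),(2,
  0),(1,0),(1,7),(7,0)]⟩ ⟨1,[(19,1),(1,0),(0,0),(5,3),(1,1),(2,1),(8,2)]⟩),.k,⟨true,1,⟨1,[(4,1),(1,
  1),(21,1),(4,0),(8,2),(0,1)]⟩,⟨27,[(0,20),(4,4),(0,3),(5,3),(0,13),(19,1),(2,2)]⟩⟩,⟨false,2,⟨1,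
  [(28,3),(4,0),(8,2)]⟩,⟨7,[(0,5),(1,1),(3,2),(3,0),(3,7),(10,1),(4,1),(4,3),(7,1)]⟩⟩,⟨false,1,⟨1,
  [(21,0),(0,0),(20,0)]⟩,⟨0,[]⟩⟩,⟨true,1,⟨0,[(1,0),(38,0)]⟩,⟨1,[(2,1),(1,1),(1,1),(23,1),(2,0),(1,
  3),(7,0)]⟩⟩,⟨true,0,⟨0,[(41,0)]⟩,⟨0,[(40,0)]⟩⟩,⟨false,1,⟨0,[(1,0)]⟩,⟨1,[(6,0),(3,0),(3,1),(28,
  1)]⟩⟩,[]⟩)) (.Q [0,0,0,2,1,0,2,2,0,-1,2] (.p true [0,0,1] [1,0,-1] (⟨0,[(30,0)]⟩,⟨0,[(29,0)]⟩) .k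
  2 (⟨0,[(29,0)]⟩,⟨0,[(30,0)]⟩) .k (.r 0 ⟨0,[(1,3),(2,1),(3,1),(9,3),(8,3),(4,1),(1,11)]⟩ ⟨7,[(0,3),
  (2,1),(22,5),(0,13),(4,1),(8,8),(0,2)]⟩)) (.R ⟨1,true,false,false,[1,0,-1],[0,1,1],[0,1,0,0,0,0,0,
  -1],(⟨0,[(30,0)]⟩,⟨0,[(31,0)]⟩),(⟨0,[(31,0),(3,0)]⟩,⟨0,[(19,0)]⟩),⟨0,[(19,0)]⟩,.k,.k,.k,(.r (-1)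
  ⟨1,[(1,1),(26,3),(4,0),(8,2)]⟩ ⟨1,[(0,0),(4,0),(3,0),(1,0),(6,0)]⟩),(.r (-2) ⟨6,[(1,5),(15,3),(9,
  1),(0,13),(4,2),(8,9),(0,2)]⟩ ⟨0,[(2,5),(2,3),(3,1),(9,5),(8,5),(4,2),(1,17)]⟩),.k,⟨false,1,⟨1,
  [(1,1),(26,3),(4,0),(5,1),(2,2)]⟩,⟨0,[(11,1),(26,0)]⟩⟩,⟨true,2,⟨1,[(28,3),(4,0),(8,2)]⟩,⟨0,[(1,0),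
  (3,0),(5,1)]⟩⟩,⟨true,0,⟨0,[(45,0)]⟩,⟨0,[]⟩⟩,⟨false,2,⟨19,[(0,17),(12,3),(3,5),(10,7),(0,3),(3,0),
  (9,14)]⟩,⟨0,[(1,0)]⟩⟩,⟨false,0,⟨0,[(41,0)]⟩,⟨0,[(40,0),(2,0)]⟩⟩,⟨true,1,⟨0,[(0,0)]⟩,⟨9,[(1,3),(4,
  7),(20,3),(5,0),(9,0)]⟩⟩,[]⟩) (.I [1,0,-2,-1,1] (.Q [0,0,0,0,0,2,0,0,0,-1,1] (.p true [0,0,1] [1]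
  (⟨0,[(32,0)]⟩,⟨0,[(31,0)]⟩) .k 1 (⟨0,[]⟩,⟨0,[]⟩) .k .k) (.R ⟨0,false,false,true,[1,-1,-1],[1,-1],
  [1,1,-1,-1],(⟨0,[(21,0)]⟩,⟨4,[(0,1),(22,0),(0,0),(8,2),(3,0),(1,0)]⟩),(⟨0,[(36,0)]⟩,⟨0,[(37,0)]⟩),
  ⟨0,[(0,0)]⟩,.k,.k,(.r (-2) ⟨19,[(1,23),(0,1),(16,5),(9,15),(0,19),(4,0),(9,10)]⟩ ⟨0,[(4,3),(2,2),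
  (3,0),(9,3),(8,3),(4,1),(1,11)]⟩),.k,.k,.k,⟨true,0,⟨0,[]⟩,⟨1,[(30,0),(0,0)]⟩⟩,⟨false,1,⟨0,[(30,0),
  (13,0)]⟩,⟨0,[(17,0)]⟩⟩,⟨false,0,⟨0,[(13,0)]⟩,⟨9,[(2,1),(3,1),(22,3),(0,7),(4,0),(8,5),(0,6)]⟩⟩,
  ⟨true,0,⟨0,[(28,0)]⟩,⟨0,[(16,0)]⟩⟩,⟨false,0,⟨0,[]⟩,⟨0,[]⟩⟩,⟨false,0,⟨0,[]⟩,⟨0,[]⟩⟩,[.o ⟨false,0,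
  ⟨0,[(42,0)]⟩,⟨1,[(35,0),(7,1),(1,0)]⟩⟩,.a ⟨true,0,⟨43,[(5,7),(2,7),(10,5),(0,9),(9,27),(8,12),(5,
  6)]⟩,⟨0,[(43,0)]⟩⟩ ⟨false,1,⟨0,[(1,0)]⟩,⟨1,[(9,0),(13,0),(0,0)]⟩⟩ ⟨true,1,⟨0,[(1,0),(28,0)]⟩,⟨0,
  [(7,0),(9,0)]⟩⟩,.e ⟨false,1,⟨3,[(19,1),(3,0),(0,0),(20,0)]⟩,⟨1,[(9,0),(35,0)]⟩⟩ ⟨false,1,⟨0,[(1,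
  0),(28,0)]⟩,⟨0,[(17,0),(22,0)]⟩⟩,.o ⟨false,(-1),⟨8,[(2,1),(4,7),(3,3),(5,2),(13,1),(3,0)]⟩,⟨1,
  [(30,1),(4,0),(8,2)]⟩⟩]⟩) (.Q [-1,0,0,1,0,0,0,0,-1,0,0,-1] (.p false [0,0,0,0,1] [] (⟨0,[(26,0)]⟩,
  ⟨0,[(25,0)]⟩) .k 0 (⟨0,[]⟩,⟨0,[]⟩) .k .k) (.R ⟨2,true,false,true,[0,1],[0,0,0,0,1],[2,1],(⟨0,[]⟩,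
  ⟨0,[]⟩),(⟨0,[(27,0)]⟩,⟨0,[(26,0)]⟩),⟨0,[]⟩,.k,.k,.k,(.r 0 ⟨3,[(10,0),(13,0),(0,0),(15,1),(6,1)]⟩
  ⟨3,[(20,1),(3,0),(0,0),(20,0)]⟩),.k,.k,⟨true,0,⟨0,[]⟩,⟨1,[(31,0),(0,0)]⟩⟩,⟨false,0,⟨0,[(25,0)]⟩,
  ⟨1,[(0,0),(1,0),(21,0)]⟩⟩,⟨false,1,⟨3,[(20,1),(3,0),(0,0),(20,0)]⟩,⟨1,[(1,1),(3,1),(2,1),(22,1),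
  (4,0),(1,7),(7,0)]⟩⟩,⟨true,0,⟨0,[(25,0),(17,0)]⟩,⟨0,[(0,0)]⟩⟩,⟨true,0,⟨0,[(42,0)]⟩,⟨0,[(47,0)]⟩⟩,
  ⟨false,0,⟨0,[(25,0)]⟩,⟨17,[(0,9),(2,1),(2,1),(5,1),(11,7),(6,3),(4,0),(9,8)]⟩⟩,[]⟩) (.Q [0,0,-1,0,
  0,0,0,0,1,-1,0,1] (.p true [0,0,0,0,1] [1] (⟨0,[(27,0)]⟩,⟨0,[(26,0)]⟩) .k 1 (⟨0,[]⟩,⟨0,[]⟩) .k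
  .k) (.Q [0,0,0,0,0,-1,0,0,0,1,0,-1] (.ed true [0,1,0,0,1] .k) (.R ⟨1,false,false,false,[1,0,0,0,
  -1],[0,1],[0,1,0,-1],(⟨0,[(28,0)]⟩,⟨0,[(29,0)]⟩),(⟨0,[(40,0)]⟩,⟨0,[(39,0)]⟩),⟨0,[(0,0)]⟩,.k,.k,
  (.r (-1) ⟨9,[(22,4),(3,1),(0,1),(20,2),(1,0)]⟩ ⟨1,[(12,0),(13,0),(0,0)]⟩),(.r (-1) ⟨9,[(22,4),(3,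
  1),(0,1),(20,2),(1,0)]⟩ ⟨1,[(12,0),(13,0),(0,0)]⟩),(.r (-2) ⟨1,[(22,1),(3,0),(0,0),(20,0)]⟩ ⟨0,
  [(12,0)]⟩),.k,⟨false,1,⟨0,[(22,0)]⟩,⟨0,[(43,0),(2,0)]⟩⟩,⟨true,0,⟨0,[(1,0)]⟩,⟨11,[(10,5),(0,1),(2,
  1),(11,11),(6,5),(0,3),(7,4),(5,0),(0,1)]⟩⟩,⟨true,0,⟨0,[(45,0)]⟩,⟨0,[(46,0)]⟩⟩,⟨false,0,⟨0,[(1,0),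
  (41,0)]⟩,⟨79,[(11,11),(6,11),(3,21),(0,1),(2,79),(6,15),(8,32),(5,22),(0,27)]⟩⟩,⟨false,0,⟨0,[]⟩,
  ⟨1,[(26,0),(0,0),(20,0)]⟩⟩,⟨false,0,⟨0,[(1,0),(41,0),(2,0)]⟩,⟨13,[(11,7),(5,5),(0,1),(3,1),(3,13),
  (6,1),(8,2),(5,8),(0,1)]⟩⟩,[.a ⟨true,0,⟨0,[(46,0)]⟩,⟨43,[(8,7),(2,7),(10,5),(0,9),(9,27),(8,12),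
  (5,6)]⟩⟩ ⟨true,0,⟨0,[(45,0)]⟩,⟨0,[(43,0)]⟩⟩ ⟨false,0,⟨0,[(1,0),(44,0)]⟩,⟨43,[(8,7),(2,7),(10,5),
  (0,9),(2,43),(6,27),(8,12),(5,6)]⟩⟩,.o ⟨false,1,⟨1,[(38,0),(7,1),(1,0)]⟩,⟨0,[(45,0)]⟩⟩,.o ⟨false,
  1,⟨0,[(26,0)]⟩,⟨8,[(1,4),(0,1),(7,1),(16,1),(10,1),(10,0)]⟩⟩,.o ⟨false,1,⟨1,[(26,1),(6,0),(0,0)]⟩,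
  ⟨0,[(1,0)]⟩⟩]⟩) (.R ⟨0,false,false,false,[1,0,0,0,-1],[0,1],[1],(⟨0,[(28,0)]⟩,⟨0,[(29,0)]⟩),(⟨0,
  [(40,0)]⟩,⟨0,[(39,0)]⟩),⟨0,[(0,0)]⟩,.k,.k,(.r (-1) ⟨9,[(22,4),(3,1),(0,1),(20,2),(1,0)]⟩ ⟨1,[(12,
  0),(13,0),(0,0)]⟩),(.r (-1) ⟨9,[(22,4),(3,1),(0,1),(20,2),(1,0)]⟩ ⟨1,[(12,0),(13,0),(0,0)]⟩),.k,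
  .k,⟨false,1,⟨0,[(4,0)]⟩,⟨1,[(12,0),(13,0),(0,0)]⟩⟩,⟨true,0,⟨0,[(1,0)]⟩,⟨11,[(10,5),(0,1),(2,1),
  (11,11),(6,5),(0,3),(7,4),(5,0),(0,1)]⟩⟩,⟨true,0,⟨0,[]⟩,⟨0,[(50,0)]⟩⟩,⟨false,0,⟨0,[(1,0),(41,0)]⟩,
  ⟨79,[(11,11),(6,11),(3,21),(0,1),(2,79),(6,15),(8,32),(5,22),(0,27)]⟩⟩,⟨false,0,⟨0,[]⟩,⟨0,[]⟩⟩,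
  ⟨false,0,⟨0,[]⟩,⟨0,[]⟩⟩,[.a ⟨true,0,⟨0,[(46,0)]⟩,⟨43,[(8,7),(2,7),(10,5),(0,9),(9,27),(8,12),(5,
  6)]⟩⟩ ⟨true,0,⟨0,[]⟩,⟨1,[(33,0),(0,0)]⟩⟩ ⟨false,0,⟨0,[(1,0),(44,0)]⟩,⟨43,[(8,7),(2,7),(10,5),(0,
  9),(2,43),(6,27),(8,12),(5,6)]⟩⟩,.o ⟨false,1,⟨1,[(38,0),(7,1),(1,0)]⟩,⟨0,[(45,0)]⟩⟩,.o ⟨false,1,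
  ⟨0,[(26,0)]⟩,⟨8,[(1,4),(0,1),(7,1),(16,1),(10,1),(10,0)]⟩⟩,.o ⟨false,1,⟨1,[(26,1),(6,0),(0,0)]⟩,
  ⟨0,[(1,0)]⟩⟩]⟩)) (.Q [0,0,0,0,0,0,0,0,1,-1,0,1] (.p true [0,0,0,0,1] [1] (⟨0,[(28,0)]⟩,⟨0,[(27,
  0)]⟩) .k 1 (⟨0,[]⟩,⟨0,[]⟩) .k .k) (.Q [0,0,1,0,-1,0,0,0,1,0,0,1] (.p true [0,0,0,0,1] [] (⟨0,[(29,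
  0)]⟩,⟨0,[(28,0)]⟩) .k 0 (⟨0,[]⟩,⟨0,[]⟩) .k .k) (.Q [0,0,0,0,0,-1,0,0,0,0,0,1] (.ed false [1,-1,0,
  0,1] .k) (.S ⟨1,0,[1],[0,0,0,0,1],[1,0,1],(⟨0,[(31,0)]⟩,⟨0,[(30,0)]⟩),⟨0,[(0,0)]⟩,.k,(.r (-1) ⟨3,
  [(24,1),(3,0),(0,0),(20,0)]⟩ ⟨3,[(14,0),(13,0),(0,0),(15,1),(6,1)]⟩),⟨true,0,⟨1,[(35,0),(0,0)]⟩,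
  ⟨0,[(46,0)]⟩⟩,⟨false,1,⟨1,[(28,0),(0,0),(20,0)]⟩,⟨0,[]⟩⟩,⟨false,0,⟨1,[(14,0),(35,0)]⟩,⟨3,[(24,1),
  (3,0),(0,0),(20,0)]⟩⟩,⟨true,0,⟨0,[(48,0)]⟩,⟨0,[(47,0)]⟩⟩,[.o ⟨false,0,⟨0,[(2,0)]⟩,⟨2,[(3,1),(24,
  0),(11,0),(5,1),(3,0)]⟩⟩,.e ⟨false,1,⟨1,[(28,0),(0,0),(20,0)]⟩,⟨0,[(46,0)]⟩⟩ ⟨false,1,⟨1,[(49,0),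
  (0,0)]⟩,⟨0,[(52,0)]⟩⟩,.o ⟨false,0,⟨0,[(2,0)]⟩,⟨0,[(28,0)]⟩⟩,.a ⟨true,(-1),⟨0,[(1,0)]⟩,⟨1,[(28,1),
  (15,0),(4,0)]⟩⟩ ⟨true,0,⟨0,[]⟩,⟨0,[(52,0)]⟩⟩ ⟨false,1,⟨1,[(49,0),(0,0)]⟩,⟨1,[(35,0),(0,0)]⟩⟩]⟩)
  (.Q [1,-1,0,-1,0,0,0,0,1,0,0,1] (.p true [0,0,0,0,1] [] (⟨0,[(31,0)]⟩,⟨0,[(30,0)]⟩) .k 0 (⟨0,[]⟩,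
  ⟨0,[]⟩) .k .k) (.R ⟨1,false,false,false,[1,0,0,0,-1],[1,-1],[-1],(⟨0,[(31,0)]⟩,⟨0,[(32,0)]⟩),(⟨0,
  [(42,0)]⟩,⟨0,[(43,0)]⟩),⟨1,[(1,0),(4,0),(21,0),(2,0)]⟩,.k,.k,(.r (-1) ⟨9,[(25,4),(3,1),(0,1),(20,
  2),(1,0)]⟩ ⟨1,[(15,0),(13,0),(0,0)]⟩),(.r 0 ⟨3,[(15,0),(13,0),(0,0),(15,1),(6,1)]⟩ ⟨3,[(25,1),(3,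
  0),(0,0),(20,0)]⟩),.k,.k,⟨false,0,⟨0,[(6,1),(3,1),(2,0),(22,1),(4,0),(1,7)]⟩,⟨3,[(25,1),(3,0),(0,
  0),(20,0)]⟩⟩,⟨true,(-1),⟨0,[(2,0)]⟩,⟨0,[(29,0)]⟩⟩,⟨false,1,⟨1,[(29,0),(0,0),(20,0)]⟩,⟨0,[]⟩⟩,
  ⟨false,0,⟨0,[(0,0)]⟩,⟨0,[(29,0),(19,0)]⟩⟩,⟨true,0,⟨0,[(49,0)]⟩,⟨0,[(48,0)]⟩⟩,⟨false,0,⟨1,[(3,1),
  (41,0),(5,0)]⟩,⟨2,[(4,1),(24,0),(11,0),(5,1),(3,0)]⟩⟩,[.e ⟨false,1,⟨9,[(29,3),(0,3),(19,4),(0,0),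
  (1,1)]⟩,⟨0,[]⟩⟩ ⟨false,0,⟨0,[(2,0),(4,0)]⟩,⟨0,[(29,0),(19,0)]⟩⟩,.o ⟨false,1,⟨0,[(48,0),(2,0)]⟩,⟨1,
  [(15,0),(25,0),(5,1)]⟩⟩,.o ⟨false,1,⟨0,[(29,0)]⟩,⟨0,[(3,0)]⟩⟩,.a ⟨true,0,⟨0,[(4,0)]⟩,⟨1,[(3,1),
  (41,0),(4,0)]⟩⟩ ⟨false,1,⟨1,[(6,1),(3,1),(25,1),(4,0),(1,7),(7,0)]⟩,⟨1,[(36,0),(0,0)]⟩⟩ ⟨true,0,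
  ⟨0,[(2,0),(4,0)]⟩,⟨0,[(13,0),(15,0),(17,0)]⟩⟩]⟩) (.R ⟨2,true,false,false,[0,1],[0,0,0,0,1],[2,0,
  1],(⟨0,[]⟩,⟨0,[]⟩),(⟨0,[(32,0)]⟩,⟨0,[(31,0)]⟩),⟨0,[]⟩,.k,.k,.k,(.r 0 ⟨3,[(15,0),(13,0),(0,0),(15,
  1),(6,1)]⟩ ⟨3,[(25,1),(3,0),(0,0),(20,0)]⟩),.k,.k,⟨false,0,⟨0,[]⟩,⟨1,[(29,0),(0,0),(19,0)]⟩⟩,
  ⟨true,(-1),⟨0,[(2,0)]⟩,⟨0,[(29,0)]⟩⟩,⟨false,1,⟨0,[(48,0),(2,0)]⟩,⟨0,[(6,1),(3,1),(2,0),(22,1),(4,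
  0),(1,7)]⟩⟩,⟨true,0,⟨0,[(5,0)]⟩,⟨0,[(0,0)]⟩⟩,⟨true,0,⟨0,[]⟩,⟨0,[(53,0)]⟩⟩,⟨false,0,⟨1,[(3,1),(41,
  0),(5,0)]⟩,⟨2,[(0,0),(28,1),(18,0),(2,0)]⟩⟩,[]⟩))) (.R ⟨2,true,false,false,[0,1],[0,0,0,0,1],[1,0,
  1],(⟨0,[]⟩,⟨0,[]⟩),(⟨0,[(30,0)]⟩,⟨0,[(29,0)]⟩),⟨0,[]⟩,.k,.k,.k,(.r 0 ⟨3,[(13,0),(13,0),(0,0),(15,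
  1),(6,1)]⟩ ⟨3,[(23,1),(3,0),(0,0),(20,0)]⟩),.k,.k,⟨true,0,⟨1,[(34,0),(0,0)]⟩,⟨0,[]⟩⟩,⟨false,0,⟨0,
  [(28,0)]⟩,⟨0,[(0,0)]⟩⟩,⟨false,1,⟨0,[(46,0),(2,0)]⟩,⟨0,[(47,0)]⟩⟩,⟨true,0,⟨0,[(3,0)]⟩,⟨0,[(0,0),
  (10,0),(33,0)]⟩⟩,⟨true,0,⟨0,[]⟩,⟨0,[(51,0)]⟩⟩,⟨false,0,⟨1,[(1,1),(41,0),(5,0)]⟩,⟨1,[(0,0),(26,0),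
  (22,0)]⟩⟩,[]⟩)) (.Q [1,1,0,0,-1,0,-1,-1,1,0,-1,1] (.p false [0,0,1] [0,0,0,0,1] (⟨0,[(36,0)]⟩,⟨0,
  [(35,0)]⟩) .k 2 (⟨0,[(29,0)]⟩,⟨0,[(28,0)]⟩) .k (.r 0 ⟨0,[(3,1),(3,1),(2,0),(3,0),(18,1),(4,0),(1,
  7)]⟩ ⟨1,[(32,1),(0,1),(13,0),(0,0)]⟩)) (.Q [0,0,0,0,0,-1,0,0,0,0,0,1] (.ed false [1,-1,0,0,1] .k)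
  (.R ⟨1,false,false,true,[0,0,0,0,1],[0,-1,1],[0,1],(⟨0,[(31,0)]⟩,⟨0,[(30,0)]⟩),(⟨0,[(27,0)]⟩,⟨0,
  [(37,0),(4,0)]⟩),⟨0,[(0,0)]⟩,.k,.k,(.r (-1) ⟨3,[(24,1),(3,0),(0,0),(20,0)]⟩ ⟨3,[(14,0),(13,0),(0,
  0),(15,1),(6,1)]⟩),(.r 0 ⟨3,[(11,1),(22,1),(0,1),(13,0),(0,0)]⟩ ⟨11,[(10,4),(12,6),(0,0),(3,1),(0,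
  1),(20,3)]⟩),.k,.k,⟨true,0,⟨3,[(11,1),(22,1),(0,1),(13,0),(0,0)]⟩,⟨0,[(16,0)]⟩⟩,⟨false,1,⟨1,[(2,
  1),(32,1),(4,0),(8,0)]⟩,⟨1,[(1,1),(16,1),(30,0),(0,0)]⟩⟩,⟨true,0,⟨0,[(52,0)]⟩,⟨0,[]⟩⟩,⟨false,1,⟨1,
  [(2,1),(13,0),(2,0),(15,0),(4,0),(5,0),(3,0)]⟩,⟨0,[(1,0),(46,0),(1,0)]⟩⟩,⟨false,0,⟨0,[(5,1),(3,1),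
  (2,0),(22,1),(4,0),(1,7)]⟩,⟨0,[(47,0),(2,0)]⟩⟩,⟨false,1,⟨1,[(2,1),(16,0),(13,0),(6,0),(7,0),(1,
  0)]⟩,⟨0,[(1,0),(48,0)]⟩⟩,[.e ⟨false,0,⟨0,[(46,0)]⟩,⟨1,[(28,0),(0,0),(20,0)]⟩⟩ ⟨false,1,⟨1,[(2,1),
  (3,0),(12,0),(13,0),(6,0)]⟩,⟨0,[(1,0),(46,0),(1,0)]⟩⟩,.o ⟨false,1,⟨1,[(19,1),(20,0),(9,0)]⟩,⟨3,
  [(11,1),(9,1),(10,1),(7,0),(8,0)]⟩⟩,.a ⟨true,0,⟨0,[(29,0)]⟩,⟨0,[(2,0)]⟩⟩ ⟨true,0,⟨0,[(52,0)]⟩,⟨0,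
  []⟩⟩ ⟨false,1,⟨1,[(2,1),(16,1),(20,0),(9,0)]⟩,⟨0,[(1,0),(46,0),(1,0)]⟩⟩,.o ⟨false,0,⟨7,[(1,2),(10,
  2),(3,2),(12,4),(5,2),(4,3),(5,0),(3,1)]⟩,⟨1,[(2,1),(37,0),(8,0)]⟩⟩]⟩) (.R ⟨0,false,false,false,
  [0,0,0,0,1],[0,1],[0,1],(⟨0,[(31,0)]⟩,⟨0,[(30,0)]⟩),(⟨0,[(42,0)]⟩,⟨0,[(41,0)]⟩),⟨0,[(0,0)]⟩,.k,.k,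
  (.r (-1) ⟨3,[(24,1),(3,0),(0,0),(20,0)]⟩ ⟨3,[(14,0),(13,0),(0,0),(15,1),(6,1)]⟩),(.r (-1) ⟨3,[(24,
  1),(3,0),(0,0),(20,0)]⟩ ⟨3,[(14,0),(13,0),(0,0),(15,1),(6,1)]⟩),.k,.k,⟨false,1,⟨7,[(24,3),(3,0),
  (0,0),(13,1),(5,2)]⟩,⟨0,[(45,0)]⟩⟩,⟨true,1,⟨1,[(2,1),(37,0),(8,0)]⟩,⟨3,[(1,2),(10,2),(3,2),(12,0),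
  (5,2),(10,0),(3,1)]⟩⟩,⟨true,0,⟨0,[(52,0)]⟩,⟨0,[]⟩⟩,⟨false,1,⟨1,[(2,1),(37,0),(7,1),(1,0)]⟩,⟨0,[(4,
  0)]⟩⟩,⟨false,0,⟨0,[]⟩,⟨0,[]⟩⟩,⟨false,0,⟨0,[]⟩,⟨0,[]⟩⟩,[.e ⟨false,0,⟨0,[(46,0)]⟩,⟨1,[(28,0),(0,0),
  (20,0)]⟩⟩ ⟨false,1,⟨1,[(2,1),(37,0),(7,1),(0,0)]⟩,⟨1,[(1,0),(2,0),(11,0),(18,0),(10,0),(3,0)]⟩⟩,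
  .o ⟨false,1,⟨1,[(40,0),(7,1),(1,0)]⟩,⟨0,[(47,0)]⟩⟩,.a ⟨true,0,⟨0,[(29,0)]⟩,⟨0,[(2,0)]⟩⟩ ⟨true,0,
  ⟨0,[(52,0)]⟩,⟨0,[]⟩⟩ ⟨false,1,⟨1,[(2,1),(37,0),(7,1),(1,0)]⟩,⟨1,[(1,0),(2,0),(11,0),(18,0),(10,0),
  (3,0)]⟩⟩,.o ⟨false,0,⟨7,[(1,2),(10,2),(3,2),(12,4),(5,2),(4,3),(5,0),(3,1)]⟩,⟨1,[(2,1),(37,0),(8,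
  0)]⟩⟩]⟩)) (.Q [1,1,0,1,-1,0,-1,-1,1,0,-1,1] (.p false [0,0,1] [0,0,0,0,1] (⟨0,[(37,0)]⟩,⟨0,[(36,
  0)]⟩) .k 2 (⟨0,[(30,0)]⟩,⟨0,[(29,0)]⟩) .k (.r 0 ⟨0,[(4,1),(3,1),(2,0),(3,0),(18,1),(4,0),(1,7)]⟩
  ⟨1,[(33,1),(0,1),(13,0),(0,0)]⟩)) (.R ⟨1,true,false,true,[0,0,1],[0,0,0,0,1],[2,1],(⟨0,[(38,0)]⟩,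
  ⟨0,[(37,0)]⟩),(⟨0,[(31,0)]⟩,⟨0,[(30,0)]⟩),⟨0,[(27,0)]⟩,.k,.k,.k,.k,(.r (-1) ⟨11,[(10,4),(12,6),(0,
  0),(3,1),(0,1),(20,3)]⟩ ⟨3,[(11,1),(22,1),(0,1),(13,0),(0,0)]⟩),.k,⟨true,0,⟨0,[]⟩,⟨1,[(35,0),(0,
  0)]⟩⟩,⟨false,0,⟨1,[(0,1),(9,0),(5,0),(31,0),(1,0)]⟩,⟨1,[(2,1),(32,1),(4,0),(8,0)]⟩⟩,⟨true,0,⟨0,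
  [(11,0),(12,0)]⟩,⟨0,[(5,1),(3,1),(2,0),(3,0),(18,1),(4,0),(1,7)]⟩⟩,⟨false,0,⟨1,[(0,0),(3,0),(29,
  0),(15,0)]⟩,⟨0,[(1,0)]⟩⟩,⟨false,0,⟨0,[(6,0),(4,0)]⟩,⟨0,[(20,0),(29,0)]⟩⟩,⟨true,(-1),⟨0,[(0,0)]⟩,
  ⟨0,[(1,0),(45,0)]⟩⟩,[]⟩) (.R ⟨1,true,false,false,[0,0,1],[0,0,0,0,1],[2],(⟨0,[(38,0)]⟩,⟨0,[(37,
  0)]⟩),(⟨0,[(31,0)]⟩,⟨0,[(30,0)]⟩),⟨0,[(27,0)]⟩,.k,.k,.k,.k,(.r (-1) ⟨11,[(10,4),(12,6),(0,0),(3,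
  1),(0,1),(20,3)]⟩ ⟨3,[(11,1),(22,1),(0,1),(13,0),(0,0)]⟩),.k,⟨true,0,⟨0,[]⟩,⟨1,[(35,0),(0,0)]⟩⟩,
  ⟨false,0,⟨1,[(4,0),(4,1),(2,0),(16,0),(7,1),(2,0),(1,3)]⟩,⟨1,[(2,1),(32,1),(4,0),(8,0)]⟩⟩,⟨false,
  1,⟨9,[(7,1),(3,1),(22,3),(0,7),(4,0),(8,5),(0,6)]⟩,⟨0,[(0,1),(3,1),(0,1),(3,1),(1,0),(0,1),(27,0),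
  (1,7),(3,1)]⟩⟩,⟨true,0,⟨0,[(21,0),(7,0)]⟩,⟨0,[(0,0),(11,0),(33,1)]⟩⟩,⟨true,0,⟨0,[(6,0),(4,0)]⟩,⟨0,
  [(0,10),(3,10),(0,8),(1,0),(1,8),(1,7),(0,6),(27,4),(1,35),(3,11)]⟩⟩,⟨false,0,⟨1,[(4,1),(4,1),(1,
  1),(25,1),(2,0),(1,3),(7,0)]⟩,⟨4,[(0,2),(18,1),(8,1),(23,0)]⟩⟩,[]⟩))))))) (.Q [-1,0,0,1,0,0,0,0,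
  -1,0,0,-1] (.p false [0,0,0,0,1] [] (⟨0,[(25,0)]⟩,⟨0,[(24,0)]⟩) .k 0 (⟨0,[]⟩,⟨0,[]⟩) .k .k) (.R
  ⟨2,true,false,false,[0,1],[0,0,0,0,1],[2],(⟨0,[]⟩,⟨0,[]⟩),(⟨0,[(26,0)]⟩,⟨0,[(25,0)]⟩),⟨0,[]⟩,.k,
  .k,.k,(.r 0 ⟨3,[(9,0),(13,0),(0,0),(15,1),(6,1)]⟩ ⟨3,[(19,1),(3,0),(0,0),(20,0)]⟩),.k,.k,⟨true,0,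
  ⟨0,[]⟩,⟨1,[(30,0),(0,0)]⟩⟩,⟨false,0,⟨0,[(24,0)]⟩,⟨5,[(0,3),(18,1),(3,1),(20,0),(0,0)]⟩⟩,⟨true,1,
  ⟨3,[(19,1),(3,0),(0,0),(20,0)]⟩,⟨0,[(1,0),(39,0)]⟩⟩,⟨false,1,⟨0,[(24,0),(17,0),(2,0)]⟩,⟨0,[(0,
  0)]⟩⟩,⟨false,1,⟨1,[(44,0),(0,0)]⟩,⟨0,[(46,0)]⟩⟩,⟨true,0,⟨0,[(24,0)]⟩,⟨0,[(0,0),(41,0)]⟩⟩,[]⟩) (.Q
  [-1,1,0,1,0,0,1,1,-1,0,1,-1] (.p true [0,0,1] [0,0,0,0,1] (⟨0,[(33,0)]⟩,⟨0,[(32,0)]⟩) .k 2 (⟨0,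
  [(26,0)]⟩,⟨0,[(25,0)]⟩) .k (.r 0 ⟨0,[(1,1),(2,1),(0,0),(15,1),(8,1),(4,0),(1,5)]⟩ ⟨1,[(29,1),(0,
  1),(13,0),(0,0)]⟩)) (.Q [-1,0,0,2,0,0,0,0,-1,0,0,-1] (.p false [0,0,0,0,1] [] (⟨0,[(27,0)]⟩,⟨0,
  [(26,0)]⟩) .k 0 (⟨0,[]⟩,⟨0,[]⟩) .k .k) (.R ⟨1,true,false,false,[1,-1],[1,0,0,0,-1],[0,1,-1,-1],
  (⟨0,[(38,0)]⟩,⟨0,[(39,0)]⟩),(⟨0,[(27,0)]⟩,⟨0,[(28,0)]⟩),⟨0,[(23,0),(0,0)]⟩,.k,.k,(.r (-2) ⟨1,[(21,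
  1),(3,0),(0,0),(20,0)]⟩ ⟨0,[(3,1),(2,1),(16,1),(8,1),(4,0),(1,5)]⟩),(.r (-1) ⟨3,[(21,1),(3,0),(0,
  0),(20,0)]⟩ ⟨3,[(11,0),(13,0),(0,0),(15,1),(6,1)]⟩),(.r (-2) ⟨1,[(21,1),(3,0),(0,0),(20,0)]⟩ ⟨0,
  [(3,1),(2,1),(16,1),(8,1),(4,0),(1,5)]⟩),.k,⟨false,1,⟨7,[(21,3),(3,0),(0,0),(13,1),(5,2)]⟩,⟨1,
  [(11,0),(35,0)]⟩⟩,⟨true,1,⟨11,[(0,5),(0,3),(2,1),(16,5),(3,1),(11,0),(9,4)]⟩,⟨0,[(2,0),(0,0)]⟩⟩,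
  ⟨true,0,⟨0,[(49,0)]⟩,⟨0,[]⟩⟩,⟨false,1,⟨1,[(0,0),(24,0),(21,0)]⟩,⟨0,[(2,0)]⟩⟩,⟨false,0,⟨0,[(45,
  0)]⟩,⟨0,[(44,0),(2,0)]⟩⟩,⟨true,0,⟨0,[(0,0)]⟩,⟨0,[(2,0),(41,0)]⟩⟩,[]⟩) (.R ⟨1,true,false,true,[1,0,
  -1],[1,0,0,0,-1],[0,1,0,0,0,0,0,-1],(⟨0,[(34,0)]⟩,⟨0,[(35,0)]⟩),(⟨0,[(27,0)]⟩,⟨0,[(28,0)]⟩),⟨0,
  [(23,0)]⟩,.k,.k,.k,.k,(.r (-1) ⟨15,[(4,5),(16,1),(9,3),(0,15),(4,2),(8,13),(0,2)]⟩ ⟨1,[(11,0),(8,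
  1),(26,0)]⟩),.k,⟨false,1,⟨9,[(4,1),(3,1),(22,3),(0,7),(4,0),(8,10),(0,1)]⟩,⟨0,[(3,1),(2,1),(0,0),
  (15,1),(8,1),(4,0),(1,5)]⟩⟩,⟨true,1,⟨5,[(1,3),(2,1),(20,1),(6,5),(4,0),(8,2),(0,1)]⟩,⟨1,[(0,0),(1,
  0),(3,1),(2,2),(24,1),(2,0),(1,3)]⟩⟩,⟨true,0,⟨0,[(49,0)]⟩,⟨0,[]⟩⟩,⟨false,1,⟨1,[(1,0),(14,0),(8,0),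
  (21,0)]⟩,⟨1,[(0,1),(5,1),(1,1),(25,1),(2,0),(1,3),(7,0)]⟩⟩,⟨false,0,⟨0,[(45,0)]⟩,⟨1,[(0,0),(24,0),
  (21,0)]⟩⟩,⟨true,0,⟨0,[(1,0)]⟩,⟨0,[(2,0),(15,0)]⟩⟩,[]⟩)) (.Q [0,1,-1,-1,0,0,1,1,1,-1,1,1] (.p true
  [0,0,1] [1,0,0,0,-1] (⟨0,[(34,0)]⟩,⟨0,[(33,0)]⟩) .k 2 (⟨0,[(26,0)]⟩,⟨0,[(27,0)]⟩) .k (.r 0 ⟨0,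
  [(14,0)]⟩ ⟨1,[(30,1),(0,1),(13,0),(0,0)]⟩)) (.Q [0,0,0,0,0,2,0,0,0,-1,1] (.p true [0,0,1] [1] (⟨0,
  [(35,0)]⟩,⟨0,[(34,0)]⟩) .k 1 (⟨0,[]⟩,⟨0,[]⟩) .k .k) (.Q [0,0,1,1,-1,0,-1,0,0,0,-1] (.p false [0,0,
  1] [] (⟨0,[(36,0)]⟩,⟨0,[(35,0)]⟩) .k 0 (⟨0,[]⟩,⟨0,[]⟩) .k .k) (.R ⟨0,false,false,true,[1,-1,-1],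
  [1,-1],[1,1,1],(⟨0,[(25,0)]⟩,⟨4,[(1,1),(25,0),(0,0),(8,2),(3,0),(1,0)]⟩),(⟨0,[(40,0)]⟩,⟨0,[(41,
  0)]⟩),⟨0,[(1,0)]⟩,.k,.k,(.r (-2) ⟨7,[(6,1),(16,5),(9,3),(0,7),(4,0),(8,5),(0,4)]⟩ ⟨0,[(5,3),(2,3),
  (0,0),(15,3),(8,3),(4,1),(1,11)]⟩),.k,.k,.k,⟨true,(-1),⟨0,[(11,0)]⟩,⟨3,[(23,1),(3,0),(0,0),(20,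
  0)]⟩⟩,⟨false,1,⟨0,[(34,0),(13,0)]⟩,⟨0,[(21,0)]⟩⟩,⟨false,(-1),⟨0,[(11,0),(5,0)]⟩,⟨15,[(6,5),(16,1),
  (9,3),(0,15),(4,2),(8,21),(0,10)]⟩⟩,⟨true,0,⟨0,[(32,0)]⟩,⟨0,[(20,0)]⟩⟩,⟨false,0,⟨0,[]⟩,⟨0,[]⟩⟩,
  ⟨false,0,⟨0,[]⟩,⟨0,[]⟩⟩,[.o ⟨false,0,⟨0,[(46,0)]⟩,⟨1,[(39,0),(7,1),(1,0)]⟩⟩,.e ⟨false,0,⟨0,[]⟩,⟨1,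
  [(27,0),(0,0),(19,0)]⟩⟩ ⟨false,2,⟨3,[(23,1),(3,0),(0,0),(5,3),(13,3),(0,0)]⟩,⟨0,[(0,0)]⟩⟩,.a
  ⟨true,(-1),⟨6,[(0,0),(4,1),(0,0),(4,0),(3,1),(8,1),(18,1)]⟩,⟨0,[(34,0),(13,0)]⟩⟩ ⟨false,0,⟨1,[(34,
  0),(0,0)]⟩,⟨1,[(48,0),(0,0)]⟩⟩ ⟨true,1,⟨7,[(23,3),(3,0),(0,0),(5,7),(7,1),(5,2)]⟩,⟨0,[(0,0)]⟩⟩,.o
  ⟨false,(-1),⟨17,[(0,2),(5,3),(4,12),(3,7),(19,6),(3,1)]⟩,⟨1,[(34,1),(4,0),(8,2)]⟩⟩]⟩) (.R ⟨0,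
  false,false,true,[1,-1,-1],[1,-1],[1,1,1],(⟨0,[(25,0)]⟩,⟨4,[(1,1),(25,0),(0,0),(8,2),(3,0),(1,
  0)]⟩),(⟨0,[(40,0)]⟩,⟨0,[(41,0)]⟩),⟨0,[(1,0)]⟩,.k,.k,(.r (-2) ⟨15,[(0,15),(5,1),(16,5),(9,11),(5,
  0),(8,1),(0,8)]⟩ ⟨0,[(0,3),(4,7),(2,3),(0,0),(15,3),(13,1),(1,11)]⟩),.k,.k,.k,⟨true,(-1),⟨0,[(11,
  0)]⟩,⟨7,[(0,3),(22,1),(0,1),(14,0),(9,0)]⟩⟩,⟨false,1,⟨0,[(34,0),(13,0)]⟩,⟨0,[(21,0)]⟩⟩,⟨false,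
  (-1),⟨0,[(11,0),(5,0)]⟩,⟨1,[(0,1),(19,1),(27,0),(0,0)]⟩⟩,⟨true,0,⟨0,[(32,0)]⟩,⟨0,[(20,0)]⟩⟩,
  ⟨false,0,⟨0,[]⟩,⟨0,[]⟩⟩,⟨false,0,⟨0,[]⟩,⟨0,[]⟩⟩,[.o ⟨false,0,⟨0,[(46,0)]⟩,⟨1,[(39,0),(7,1),(1,
  0)]⟩⟩,.a ⟨true,0,⟨17,[(0,3),(8,1),(2,3),(6,1),(4,3),(9,7),(8,4),(5,2)]⟩,⟨0,[(47,0)]⟩⟩ ⟨false,0,⟨0,
  []⟩,⟨1,[(27,0),(0,0),(19,0)]⟩⟩ ⟨true,1,⟨0,[(0,0)]⟩,⟨0,[(11,0),(9,0)]⟩⟩,.e ⟨false,0,⟨1,[(34,0),(0,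
  0)]⟩,⟨1,[(48,0),(0,0)]⟩⟩ ⟨false,1,⟨0,[(0,0)]⟩,⟨0,[(21,0),(22,0)]⟩⟩,.o ⟨false,(-1),⟨8,[(6,1),(4,7),
  (3,3),(5,2),(13,1),(3,0)]⟩,⟨1,[(34,1),(4,0),(8,2)]⟩⟩]⟩)) (.Q [0,0,0,0,0,-1,0,0,0,0,0,1] (.ed
  false [1,-1,0,0,1] .k) (.R ⟨1,false,false,true,[0,0,0,0,1],[0,1],[0,1],(⟨0,[(30,0)]⟩,⟨0,[(29,
  0)]⟩),(⟨0,[(41,0)]⟩,⟨0,[(40,0)]⟩),⟨0,[(0,0)]⟩,.k,.k,(.r (-1) ⟨3,[(23,1),(3,0),(0,0),(20,0)]⟩ ⟨3,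
  [(13,0),(13,0),(0,0),(15,1),(6,1)]⟩),(.r (-1) ⟨3,[(23,1),(3,0),(0,0),(20,0)]⟩ ⟨3,[(13,0),(13,0),
  (0,0),(15,1),(6,1)]⟩),(.r (-2) ⟨1,[(23,1),(3,0),(0,0),(20,0)]⟩ ⟨0,[(1,1),(3,1),(2,1),(25,1),(4,0),
  (1,7)]⟩),.k,⟨true,1,⟨3,[(23,1),(3,0),(0,0),(20,0)]⟩,⟨0,[(11,0)]⟩⟩,⟨false,2,⟨0,[(27,0),(20,0)]⟩,⟨7,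
  [(2,3),(0,3),(1,4),(7,0),(29,1),(3,0)]⟩⟩,⟨true,0,⟨0,[(51,0)]⟩,⟨0,[]⟩⟩,⟨false,1,⟨0,[(27,0),(19,
  0)]⟩,⟨12,[(2,6),(0,5),(2,0),(4,2),(3,0),(18,0),(8,2),(5,6)]⟩⟩,⟨false,0,⟨0,[(1,1),(3,0),(2,1),(25,
  1),(4,0),(1,7)]⟩,⟨0,[(46,0),(2,0)]⟩⟩,⟨false,1,⟨0,[(27,0),(19,1)]⟩,⟨12,[(2,8),(0,3),(2,4),(4,1),(3,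
  4),(18,4),(8,1),(5,8)]⟩⟩,[.o ⟨false,0,⟨1,[(13,0),(25,0),(5,1)]⟩,⟨0,[(46,0),(2,0)]⟩⟩,.a ⟨true,0,⟨0,
  [(47,0)]⟩,⟨43,[(9,7),(2,7),(10,5),(0,9),(9,27),(8,12),(5,6)]⟩⟩ ⟨false,1,⟨1,[(27,0),(0,0),(19,0)]⟩,
  ⟨0,[]⟩⟩ ⟨true,1,⟨0,[(27,0),(19,0)]⟩,⟨31,[(2,21),(1,9),(0,3),(0,11),(4,21),(3,1),(18,1),(8,4),(5,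
  10)]⟩⟩,.o ⟨false,0,⟨3,[(2,1),(0,1),(9,0),(25,0),(7,1)]⟩,⟨0,[(27,0)]⟩⟩,.e ⟨true,0,⟨0,[(45,0)]⟩,⟨1,
  [(34,0),(0,0)]⟩⟩ ⟨true,1,⟨0,[(27,0),(17,0),(1,0)]⟩,⟨31,[(2,21),(1,9),(0,3),(0,11),(4,21),(3,1),
  (18,1),(8,4),(5,10)]⟩⟩]⟩) (.R ⟨0,false,false,true,[0,0,0,0,1],[0,1],[0,1],(⟨0,[(30,0)]⟩,⟨0,[(29,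
  0)]⟩),(⟨0,[(41,0)]⟩,⟨0,[(40,0)]⟩),⟨0,[(0,0)]⟩,.k,.k,(.r (-1) ⟨3,[(23,1),(3,0),(0,0),(20,0)]⟩ ⟨3,
  [(13,0),(13,0),(0,0),(15,1),(6,1)]⟩),(.r (-1) ⟨3,[(23,1),(3,0),(0,0),(20,0)]⟩ ⟨3,[(13,0),(13,0),
  (0,0),(15,1),(6,1)]⟩),.k,.k,⟨true,1,⟨3,[(23,1),(3,0),(0,0),(20,0)]⟩,⟨0,[(11,0)]⟩⟩,⟨false,2,⟨0,
  [(27,0),(20,0)]⟩,⟨7,[(2,3),(0,3),(1,4),(7,0),(29,1),(3,0)]⟩⟩,⟨true,0,⟨0,[(51,0)]⟩,⟨0,[]⟩⟩,⟨false,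
  1,⟨0,[(27,0),(19,0)]⟩,⟨12,[(2,6),(0,5),(2,0),(4,2),(3,0),(18,0),(8,2),(5,6)]⟩⟩,⟨false,0,⟨0,[]⟩,⟨0,
  []⟩⟩,⟨false,0,⟨0,[]⟩,⟨0,[]⟩⟩,[.o ⟨false,0,⟨1,[(13,0),(25,0),(5,1)]⟩,⟨0,[(46,0),(2,0)]⟩⟩,.a ⟨true,
  0,⟨0,[(47,0)]⟩,⟨43,[(9,7),(2,7),(10,5),(0,9),(9,27),(8,12),(5,6)]⟩⟩ ⟨false,1,⟨1,[(27,0),(0,0),(19,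
  0)]⟩,⟨0,[]⟩⟩ ⟨true,1,⟨0,[(27,0),(19,0)]⟩,⟨31,[(2,21),(1,9),(0,3),(0,11),(4,21),(3,1),(18,1),(8,4),
  (5,10)]⟩⟩,.o ⟨false,0,⟨3,[(2,1),(0,1),(9,0),(25,0),(7,1)]⟩,⟨0,[(27,0)]⟩⟩,.e ⟨true,0,⟨0,[(45,0)]⟩,
  ⟨1,[(34,0),(0,0)]⟩⟩ ⟨true,1,⟨0,[(27,0),(17,0),(1,0)]⟩,⟨31,[(2,21),(1,9),(0,3),(0,11),(4,21),(3,1),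
  (18,1),(8,4),(5,10)]⟩⟩]⟩))) (.Q [1,1,0,-1,-1,0,-1,-1,1,0,-1,1] (.p false [0,0,1] [0,0,0,0,1] (⟨0,
  [(35,0)]⟩,⟨0,[(34,0)]⟩) .k 2 (⟨0,[(28,0)]⟩,⟨0,[(27,0)]⟩) .k (.r 0 ⟨0,[(3,1),(2,1),(0,0),(15,1),(8,
  1),(4,0),(1,5)]⟩ ⟨1,[(31,1),(0,1),(13,0),(0,0)]⟩)) (.Q [0,0,0,0,0,2,0,0,0,-1,1] (.p true [0,0,1]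
  [1] (⟨0,[(36,0)]⟩,⟨0,[(35,0)]⟩) .k 1 (⟨0,[]⟩,⟨0,[]⟩) .k .k) (.Q [0,0,1,1,-1,0,-1,0,0,0,-1] (.p
  false [0,0,1] [] (⟨0,[(37,0)]⟩,⟨0,[(36,0)]⟩) .k 0 (⟨0,[]⟩,⟨0,[]⟩) .k .k) (.R ⟨0,false,false,true,
  [1,-1,-1],[1,-1],[1,1,1],(⟨0,[(26,0)]⟩,⟨4,[(1,1),(26,0),(0,0),(8,2),(3,0),(1,0)]⟩),(⟨0,[(41,0)]⟩,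
  ⟨0,[(42,0)]⟩),⟨0,[(1,0)]⟩,.k,.k,(.r (-2) ⟨7,[(7,1),(16,5),(9,3),(0,7),(4,0),(8,5),(0,4)]⟩ ⟨0,[(6,
  3),(2,3),(0,0),(15,3),(8,3),(4,1),(1,11)]⟩),.k,.k,.k,⟨true,(-1),⟨0,[(12,0)]⟩,⟨3,[(24,1),(3,0),(0,
  0),(20,0)]⟩⟩,⟨false,1,⟨0,[(35,0),(13,0)]⟩,⟨0,[(22,0)]⟩⟩,⟨false,(-1),⟨0,[(12,0),(5,0)]⟩,⟨15,[(7,5),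
  (16,1),(9,3),(0,15),(4,2),(8,21),(0,10)]⟩⟩,⟨true,0,⟨0,[(33,0)]⟩,⟨0,[(21,0)]⟩⟩,⟨false,0,⟨0,[]⟩,⟨0,
  []⟩⟩,⟨false,0,⟨0,[]⟩,⟨0,[]⟩⟩,[.o ⟨false,0,⟨0,[(47,0)]⟩,⟨1,[(40,0),(7,1),(1,0)]⟩⟩,.e ⟨false,0,⟨0,
  []⟩,⟨1,[(28,0),(0,0),(19,0)]⟩⟩ ⟨false,2,⟨3,[(24,1),(3,0),(0,0),(5,3),(13,3),(0,0)]⟩,⟨0,[(0,0)]⟩⟩,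
  .a ⟨true,(-1),⟨6,[(0,0),(5,1),(0,0),(4,0),(3,1),(8,1),(18,1)]⟩,⟨0,[(35,0),(13,0)]⟩⟩ ⟨false,0,⟨1,
  [(35,0),(0,0)]⟩,⟨1,[(49,0),(0,0)]⟩⟩ ⟨true,1,⟨7,[(24,3),(3,0),(0,0),(5,7),(7,1),(5,2)]⟩,⟨0,[(0,
  0)]⟩⟩,.o ⟨false,(-1),⟨17,[(0,2),(6,3),(4,12),(3,7),(19,6),(3,1)]⟩,⟨1,[(35,1),(4,0),(8,2)]⟩⟩]⟩)
  (.R ⟨0,false,false,true,[1,-1,-1],[1,-1],[1,1,1],(⟨0,[(26,0)]⟩,⟨15,[(0,1),(0,6),(1,1),(21,0),(3,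
  1),(3,1),(4,8),(3,1),(1,1)]⟩),(⟨0,[(41,0)]⟩,⟨0,[(42,0)]⟩),⟨0,[(1,0)]⟩,.k,.k,(.r (-2) ⟨15,[(0,15),
  (6,1),(16,5),(9,11),(5,0),(8,1),(0,8)]⟩ ⟨0,[(0,3),(5,7),(2,3),(0,0),(15,3),(13,1),(1,11)]⟩),.k,.k,
  .k,⟨true,(-1),⟨0,[(12,0)]⟩,⟨7,[(0,3),(23,1),(0,1),(14,0),(9,0)]⟩⟩,⟨false,1,⟨0,[(0,0),(47,0)]⟩,⟨0,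
  [(22,0)]⟩⟩,⟨false,(-1),⟨0,[(12,0),(5,0)]⟩,⟨1,[(0,1),(20,1),(27,0),(0,0)]⟩⟩,⟨true,0,⟨0,[(33,0)]⟩,
  ⟨0,[(21,0)]⟩⟩,⟨false,0,⟨0,[]⟩,⟨0,[]⟩⟩,⟨false,0,⟨0,[]⟩,⟨0,[]⟩⟩,[.o ⟨false,0,⟨0,[(47,0)]⟩,⟨1,[(40,
  0),(7,1),(1,0)]⟩⟩,.a ⟨true,0,⟨16,[(0,4),(12,3),(6,3),(4,2),(9,4),(8,4),(5,3)]⟩,⟨0,[(48,0)]⟩⟩
  ⟨false,0,⟨0,[]⟩,⟨1,[(28,0),(0,0),(19,0)]⟩⟩ ⟨true,1,⟨0,[(0,0)]⟩,⟨0,[(12,0),(9,0)]⟩⟩,.e ⟨false,0,⟨1,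
  [(35,0),(0,0)]⟩,⟨1,[(49,0),(0,0)]⟩⟩ ⟨false,1,⟨0,[(0,0)]⟩,⟨0,[(22,0),(22,0)]⟩⟩,.o ⟨false,(-1),⟨8,
  [(7,1),(4,7),(3,3),(5,2),(13,1),(3,0)]⟩,⟨1,[(0,1),(39,0),(7,1),(0,0)]⟩⟩]⟩)) (.Q [0,0,1,0,-1,0,0,0,
  1,0,0,1] (.p true [0,0,0,0,1] [] (⟨0,[(30,0)]⟩,⟨0,[(29,0)]⟩) .k 0 (⟨0,[]⟩,⟨0,[]⟩) .k .k) (.Q [0,0,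
  0,0,0,-1,0,0,0,0,0,1] (.ed false [1,-1,0,0,1] .k) (.S ⟨1,0,[1],[0,0,0,0,1],[1,0,1],(⟨0,[(32,0)]⟩,
  ⟨0,[(31,0)]⟩),⟨0,[(0,0)]⟩,.k,(.r (-1) ⟨3,[(25,1),(3,0),(0,0),(20,0)]⟩ ⟨3,[(15,0),(13,0),(0,0),(15,
  1),(6,1)]⟩),⟨true,0,⟨1,[(36,0),(0,0)]⟩,⟨0,[(47,0)]⟩⟩,⟨false,1,⟨1,[(29,0),(0,0),(20,0)]⟩,⟨0,[]⟩⟩,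
  ⟨false,0,⟨1,[(15,0),(35,0)]⟩,⟨3,[(25,1),(3,0),(0,0),(20,0)]⟩⟩,⟨true,0,⟨0,[(49,0)]⟩,⟨0,[(48,0)]⟩⟩,
  [.o ⟨false,0,⟨1,[(1,1),(39,0),(8,0)]⟩,⟨6,[(4,1),(2,1),(3,1),(17,4),(6,1),(4,0),(5,3),(3,0)]⟩⟩,.e
  ⟨false,1,⟨1,[(29,0),(0,0),(20,0)]⟩,⟨0,[(47,0)]⟩⟩ ⟨false,1,⟨1,[(50,0),(0,0)]⟩,⟨0,[(53,0)]⟩⟩,.o
  ⟨false,0,⟨1,[(1,1),(39,0),(8,0)]⟩,⟨0,[(29,0)]⟩⟩,.a ⟨true,(-1),⟨0,[(1,0)]⟩,⟨1,[(29,1),(15,0),(4,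
  0)]⟩⟩ ⟨true,0,⟨0,[]⟩,⟨0,[(53,0)]⟩⟩ ⟨false,1,⟨1,[(50,0),(0,0)]⟩,⟨1,[(36,0),(0,0)]⟩⟩]⟩) (.Q [0,1,1,
  -1,-2,0,-1,-1,1,0,-1,1] (.p false [0,0,1] [0,0,0,0,1] (⟨0,[(39,0)]⟩,⟨0,[(38,0)]⟩) .k 2 (⟨0,[(32,
  0)]⟩,⟨0,[(31,0)]⟩) .k (.r 0 ⟨0,[(2,1),(4,1),(2,1),(0,0),(24,1),(4,0),(1,7)]⟩ ⟨1,[(35,1),(0,1),(13,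
  0),(0,0)]⟩)) (.R ⟨0,false,false,true,[0,0,0,0,1],[0,1],[0,1],(⟨0,[(33,0)]⟩,⟨0,[(32,0)]⟩),(⟨0,[(44,
  0)]⟩,⟨0,[(43,0)]⟩),⟨0,[(1,0)]⟩,.k,.k,(.r (-1) ⟨3,[(26,1),(3,0),(0,0),(20,0)]⟩ ⟨3,[(16,0),(13,0),
  (0,0),(15,1),(6,1)]⟩),(.r (-1) ⟨3,[(26,1),(3,0),(0,0),(20,0)]⟩ ⟨3,[(16,0),(13,0),(0,0),(15,1),(6,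
  1)]⟩),.k,.k,⟨true,1,⟨3,[(26,1),(3,0),(0,0),(20,0)]⟩,⟨0,[(14,0)]⟩⟩,⟨false,2,⟨0,[(30,0),(20,0)]⟩,⟨0,
  [(2,0)]⟩⟩,⟨true,0,⟨0,[(54,0)]⟩,⟨0,[]⟩⟩,⟨false,1,⟨0,[(30,0),(19,0)]⟩,⟨2,[(0,0),(1,1),(9,0),(24,0),
  (13,0),(0,1)]⟩⟩,⟨false,0,⟨0,[]⟩,⟨0,[]⟩⟩,⟨false,0,⟨0,[]⟩,⟨0,[]⟩⟩,[.o ⟨false,0,⟨1,[(16,0),(25,0),(5,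
  1)]⟩,⟨0,[(49,0),(2,0)]⟩⟩,.a ⟨true,0,⟨0,[(50,0)]⟩,⟨43,[(12,7),(2,7),(10,5),(0,9),(9,27),(8,12),(5,
  6)]⟩⟩ ⟨false,1,⟨1,[(30,0),(0,0),(19,0)]⟩,⟨0,[]⟩⟩ ⟨true,1,⟨0,[(30,0),(19,0)]⟩,⟨4,[(0,1),(1,2),(9,
  0),(5,0),(18,1),(14,0)]⟩⟩,.o ⟨false,0,⟨1,[(2,1),(39,0),(8,0)]⟩,⟨0,[(30,0)]⟩⟩,.e ⟨true,0,⟨0,[(48,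
  0)]⟩,⟨1,[(37,0),(0,0)]⟩⟩ ⟨true,1,⟨0,[(30,0),(17,0),(1,0)]⟩,⟨4,[(0,1),(1,2),(9,0),(5,0),(18,1),(14,
  0)]⟩⟩]⟩) (.R ⟨1,false,false,true,[1,0,0,0,-1],[0,-1,1],[-1],(⟨0,[(32,0)]⟩,⟨0,[(33,0)]⟩),(⟨0,[(29,
  0)]⟩,⟨0,[(39,0),(4,0)]⟩),⟨1,[(1,0),(1,0),(25,0),(2,0)]⟩,.k,.k,(.r (-1) ⟨26,[(0,2),(6,1),(18,13),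
  (4,0),(4,2),(15,6),(0,3)]⟩ ⟨9,[(0,1),(12,1),(2,1),(14,1),(5,0),(0,2),(15,1)]⟩),(.r 0 ⟨5,[(13,3),
  (12,0),(9,1),(0,1),(13,0),(0,1),(1,0)]⟩ ⟨13,[(0,3),(6,3),(4,4),(7,0),(1,3),(4,1),(14,0)]⟩),.k,.k,
  ⟨false,1,⟨3,[(13,1),(22,1),(0,1),(13,2),(0,2)]⟩,⟨0,[(18,0),(29,0)]⟩⟩,⟨true,0,⟨1,[(2,1),(34,1),(4,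
  0),(8,0)]⟩,⟨0,[(5,0),(12,0),(29,0)]⟩⟩,⟨false,1,⟨7,[(0,1),(6,1),(28,1),(0,0),(0,0),(13,3)]⟩,⟨0,
  []⟩⟩,⟨true,0,⟨1,[(2,1),(18,1),(20,0),(8,0)]⟩,⟨0,[(5,0),(42,0)]⟩⟩,⟨true,0,⟨0,[(50,0)]⟩,⟨0,[(49,
  0)]⟩⟩,⟨true,0,⟨1,[(2,1),(32,1),(6,0),(8,0)]⟩,⟨0,[(0,0),(8,0),(4,0),(33,0)]⟩⟩,[.a ⟨true,0,⟨0,[(21,
  0)]⟩,⟨7,[(5,1),(0,1),(6,3),(20,3),(11,0),(4,2),(0,1)]⟩⟩ ⟨false,1,⟨17,[(0,3),(25,1),(4,3),(4,3),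
  (14,4),(0,2),(1,3)]⟩,⟨0,[]⟩⟩ ⟨true,0,⟨1,[(2,1),(18,1),(20,0),(8,0)]⟩,⟨0,[(5,0)]⟩⟩,.o ⟨false,1,⟨1,
  [(21,1),(20,0),(9,0)]⟩,⟨3,[(13,1),(9,1),(10,1),(7,0),(8,0)]⟩⟩,.o ⟨false,1,⟨0,[(30,0)]⟩,⟨1,[(2,1),
  (39,0),(8,0)]⟩⟩,.e ⟨false,1,⟨1,[(3,1),(7,1),(25,1),(4,0),(1,7),(7,0)]⟩,⟨1,[(37,0),(0,0)]⟩⟩ ⟨false,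
  1,⟨9,[(0,1),(1,11),(9,5),(22,1),(1,5),(4,4),(8,6)]⟩,⟨0,[(5,0)]⟩⟩]⟩))) (.Q [-1,1,0,0,0,0,0,0,-1,0,
  0,-1] (.p false [0,0,0,0,1] [] (⟨0,[(31,0)]⟩,⟨0,[(30,0)]⟩) .k 0 (⟨0,[]⟩,⟨0,[]⟩) .k .k) (.Q [0,0,0,
  0,0,-1,0,0,0,0,0,1] (.ed false [1,-1,0,0,1] .k) (.S ⟨1,0,[1],[0,0,0,0,1],[0,1],(⟨0,[(33,0)]⟩,⟨0,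
  [(32,0)]⟩),⟨0,[(0,0)]⟩,.k,(.r (-1) ⟨3,[(26,1),(3,0),(0,0),(20,0)]⟩ ⟨3,[(16,0),(13,0),(0,0),(15,1),
  (6,1)]⟩),⟨true,0,⟨0,[(54,0)]⟩,⟨0,[]⟩⟩,⟨false,1,⟨1,[(30,0),(0,0),(20,0)]⟩,⟨0,[]⟩⟩,⟨false,0,⟨0,[(3,
  1),(4,0),(2,1),(25,1),(4,0),(1,7)]⟩,⟨0,[(49,0),(2,0)]⟩⟩,⟨true,0,⟨0,[(50,0)]⟩,⟨0,[(49,0)]⟩⟩,[.a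
  ⟨true,0,⟨0,[(31,0)]⟩,⟨1,[(1,1),(44,0),(5,0)]⟩⟩ ⟨false,0,⟨0,[(48,0)]⟩,⟨1,[(30,0),(0,0),(20,0)]⟩⟩
  ⟨true,0,⟨0,[]⟩,⟨1,[(37,0),(0,0)]⟩⟩,.o ⟨false,1,⟨1,[(31,1),(10,0),(9,0)]⟩,⟨0,[(1,0)]⟩⟩,.e ⟨true,0,
  ⟨0,[(54,0)]⟩,⟨0,[]⟩⟩ ⟨true,0,⟨0,[]⟩,⟨0,[(54,0)]⟩⟩,.o ⟨false,0,⟨1,[(7,0),(0,0),(22,0),(10,0)]⟩,⟨0,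
  [(2,0)]⟩⟩]⟩) (.R ⟨0,false,false,false,[0,0,0,0,1],[0,1],[0,1],(⟨0,[(33,0)]⟩,⟨0,[(32,0)]⟩),(⟨0,
  [(44,0)]⟩,⟨0,[(43,0)]⟩),⟨0,[(0,0)]⟩,.k,.k,(.r (-1) ⟨3,[(26,1),(3,0),(0,0),(20,0)]⟩ ⟨3,[(16,0),(13,
  0),(0,0),(15,1),(6,1)]⟩),(.r (-1) ⟨3,[(26,1),(3,0),(0,0),(20,0)]⟩ ⟨3,[(16,0),(13,0),(0,0),(15,1),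
  (6,1)]⟩),.k,.k,⟨false,1,⟨7,[(26,3),(3,0),(0,0),(13,1),(5,2)]⟩,⟨0,[(47,0)]⟩⟩,⟨true,1,⟨0,[(2,0)]⟩,
  ⟨0,[(7,0),(0,0)]⟩⟩,⟨true,0,⟨0,[(54,0)]⟩,⟨0,[]⟩⟩,⟨false,1,⟨4,[(1,0),(0,3),(13,1),(33,0),(1,2)]⟩,⟨0,
  [(7,0)]⟩⟩,⟨false,0,⟨0,[]⟩,⟨0,[]⟩⟩,⟨false,0,⟨0,[]⟩,⟨0,[]⟩⟩,[.e ⟨false,0,⟨0,[(48,0)]⟩,⟨1,[(30,0),(0,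
  0),(20,0)]⟩⟩ ⟨false,1,⟨0,[(2,0),(47,0)]⟩,⟨1,[(4,0),(16,0),(9,0),(20,0)]⟩⟩,.o ⟨false,1,⟨1,[(42,0),
  (7,1),(1,0)]⟩,⟨0,[(49,0)]⟩⟩,.a ⟨true,0,⟨0,[(31,0)]⟩,⟨1,[(1,1),(44,0),(5,0)]⟩⟩ ⟨true,0,⟨0,[(54,
  0)]⟩,⟨0,[]⟩⟩ ⟨false,1,⟨0,[(2,0),(44,0)]⟩,⟨1,[(4,0),(16,0),(9,0),(20,0)]⟩⟩,.o ⟨false,0,⟨1,[(7,0),
  (0,0),(22,0),(10,0)]⟩,⟨0,[(2,0)]⟩⟩]⟩)) (.R ⟨2,true,false,false,[0,1],[0,0,0,0,1],[1,0,1],(⟨0,[]⟩,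
  ⟨0,[]⟩),(⟨0,[(32,0)]⟩,⟨0,[(31,0)]⟩),⟨0,[]⟩,.k,.k,.k,(.r 0 ⟨3,[(15,0),(13,0),(0,0),(15,1),(6,1)]⟩
  ⟨3,[(25,1),(3,0),(0,0),(20,0)]⟩),.k,.k,⟨true,0,⟨1,[(36,0),(0,0)]⟩,⟨0,[]⟩⟩,⟨false,0,⟨0,[(30,0)]⟩,
  ⟨0,[(1,0)]⟩⟩,⟨false,1,⟨0,[(48,0),(2,0)]⟩,⟨0,[(49,0)]⟩⟩,⟨true,0,⟨0,[(6,0)]⟩,⟨0,[(1,0),(11,0),(33,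
  0)]⟩⟩,⟨true,0,⟨0,[]⟩,⟨0,[(53,0)]⟩⟩,⟨false,0,⟨0,[(0,0)]⟩,⟨1,[(1,0),(27,0),(22,0)]⟩⟩,[]⟩)))) (.R ⟨1,
  true,false,false,[1,0,-1],[1,0,0,0,-1],[0,0,0,0,0,0,0,-1],(⟨0,[(35,0)]⟩,⟨0,[(36,0)]⟩),(⟨0,[(28,
  0)]⟩,⟨0,[(29,0)]⟩),⟨0,[(24,0)]⟩,.k,.k,.k,.k,(.r (-1) ⟨15,[(5,5),(16,1),(9,3),(0,15),(4,2),(8,13),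
  (0,2)]⟩ ⟨4,[(0,0),(11,1),(3,0),(4,2),(5,0),(6,0),(13,0)]⟩),.k,⟨false,1,⟨9,[(5,1),(3,1),(22,3),(0,
  7),(4,0),(8,10),(0,1)]⟩,⟨0,[(4,1),(2,1),(0,0),(15,1),(8,1),(4,0),(1,5)]⟩⟩,⟨true,1,⟨6,[(0,5),(4,1),
  (3,1),(12,2),(3,0),(6,4),(4,0),(5,2)]⟩,⟨0,[(2,0),(7,0),(5,0),(27,0)]⟩⟩,⟨false,1,⟨1,[(26,0),(0,0),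
  (20,0)]⟩,⟨0,[]⟩⟩,⟨true,1,⟨2,[(0,1),(16,0),(8,0),(18,0)]⟩,⟨0,[(2,0),(7,0),(33,1)]⟩⟩,⟨true,0,⟨0,
  [(46,0)]⟩,⟨0,[(45,0)]⟩⟩,⟨false,1,⟨0,[(0,0)]⟩,⟨1,[(2,0),(0,0),(28,0)]⟩⟩,[]⟩))))))))) (.Q [0,-1,0,2,
  0,0,-1,-1,0,0,-1] (.p false [0,0,1] [] (⟨0,[(28,0)]⟩,⟨0,[(27,0)]⟩) .k 0 (⟨0,[]⟩,⟨0,[]⟩) .k .k)
  (.R ⟨1,true,false,false,[0,0,1],[0,1],[1,0,0,-1,0,0,0,1],(⟨0,[(29,0)]⟩,⟨0,[(28,0)]⟩),(⟨0,[(33,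
  0)]⟩,⟨0,[(32,0)]⟩),⟨0,[(18,0)]⟩,.k,.k,.k,.k,(.r (-2) ⟨0,[(14,0),(0,0),(25,0)]⟩ ⟨0,[(1,0)]⟩),.k,
  ⟨true,1,⟨1,[(7,0),(3,0),(3,0),(25,0)]⟩,⟨0,[(1,0)]⟩⟩,⟨false,1,⟨1,[(23,1),(7,0),(8,0)]⟩,⟨0,[(26,
  0)]⟩⟩,⟨false,1,⟨0,[(38,0),(2,0)]⟩,⟨0,[(39,0)]⟩⟩,⟨true,0,⟨1,[(0,0),(24,0)]⟩,⟨0,[(10,0)]⟩⟩,⟨true,0,
  ⟨0,[]⟩,⟨0,[(43,0)]⟩⟩,⟨false,0,⟨0,[(0,0)]⟩,⟨0,[(10,0),(27,0),(2,0)]⟩⟩,[]⟩) (.Q [0,0,0,0,0,-2,0,0,0,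
  0,1] (.p true [0,0,1] [] (⟨0,[(29,0)]⟩,⟨0,[(28,0)]⟩) .k 0 (⟨0,[]⟩,⟨0,[]⟩) .k .k) (.S ⟨1,0,[0,1,-1,
  -1,0,0,0,1],[0,-1,1],[1,0,1],(⟨0,[(19,0)]⟩,⟨0,[(29,0),(4,0)]⟩),⟨0,[(0,0)]⟩,.k,(.r (-2) ⟨0,[(15,0),
  (0,0),(25,0)]⟩ ⟨0,[(2,0)]⟩),⟨false,0,⟨15,[(2,9),(2,1),(20,3),(0,8),(0,2),(3,0),(9,10)]⟩,⟨0,[(8,0),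
  (32,0)]⟩⟩,⟨true,0,⟨0,[(44,0)]⟩,⟨0,[]⟩⟩,⟨true,(-1),⟨0,[(3,0)]⟩,⟨1,[(8,0),(3,0),(3,0),(24,0)]⟩⟩,
  ⟨false,0,⟨0,[(40,0)]⟩,⟨0,[(39,0),(2,0)]⟩⟩,[.a ⟨true,0,⟨0,[(11,0)]⟩,⟨3,[(2,1),(6,1),(14,1),(16,0),
  (0,2)]⟩⟩ ⟨false,0,⟨0,[]⟩,⟨1,[(20,0),(0,0),(19,0)]⟩⟩ ⟨true,0,⟨0,[(8,0),(29,0)]⟩,⟨15,[(2,9),(2,1),
  (20,3),(0,8),(0,2),(3,0),(9,10)]⟩⟩,.o ⟨false,1,⟨1,[(1,0),(23,0),(6,0),(9,0)]⟩,⟨3,[(2,1),(10,1),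
  (10,1),(7,0),(8,0)]⟩⟩,.e ⟨true,0,⟨1,[(27,0),(0,0)]⟩,⟨0,[(38,0)]⟩⟩ ⟨true,0,⟨0,[(8,0),(29,0)]⟩,⟨3,
  [(2,1),(23,1),(0,1),(13,0),(0,0)]⟩⟩,.o ⟨false,0,⟨1,[(1,1),(0,1),(29,0),(9,0)]⟩,⟨1,[(24,1),(7,0),
  (8,0)]⟩⟩]⟩) (.Q [-1,0,1,0,0,0,1,0,-1,0,1,-1] (.p true [0,0,1] [0,0,0,0,1] (⟨0,[(30,0)]⟩,⟨0,[(29,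
  0)]⟩) .k 2 (⟨0,[(23,0)]⟩,⟨0,[(22,0)]⟩) .k (.r 0 ⟨0,[(2,0),(5,1),(29,1),(3,0)]⟩ ⟨1,[(26,1),(0,1),
  (13,0),(0,0)]⟩)) (.R ⟨0,false,false,false,[0,-1,1],[0,0,0,0,1],[1,0,1],(⟨0,[(20,0)]⟩,⟨4,[(1,1),
  (19,0),(0,0),(7,2),(4,0),(1,0)]⟩),(⟨0,[(24,0)]⟩,⟨0,[(23,0)]⟩),⟨0,[(1,0)]⟩,.k,.k,(.r (-2) ⟨0,[(16,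
  0),(0,0),(25,0)]⟩ ⟨0,[(3,0)]⟩),(.r (-1) ⟨1,[(13,1),(28,0),(0,0)]⟩ ⟨3,[(3,1),(23,1),(0,1),(13,0),
  (0,0)]⟩),.k,.k,⟨true,0,⟨1,[(28,0),(0,0)]⟩,⟨0,[]⟩⟩,⟨false,1,⟨1,[(22,1),(2,1),(7,0),(8,0)]⟩,⟨0,[(0,
  0)]⟩⟩,⟨false,0,⟨15,[(3,9),(2,1),(20,3),(0,8),(0,2),(3,0),(9,10)]⟩,⟨0,[(9,0),(32,0)]⟩⟩,⟨true,0,⟨3,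
  [(3,1),(10,1),(7,3),(2,1),(7,0),(8,0)]⟩,⟨0,[(0,0),(8,0),(29,0)]⟩⟩,⟨false,0,⟨0,[]⟩,⟨0,[]⟩⟩,⟨false,
  0,⟨0,[]⟩,⟨0,[]⟩⟩,[.e ⟨false,0,⟨0,[]⟩,⟨1,[(21,0),(0,0),(19,0)]⟩⟩ ⟨false,1,⟨1,[(22,1),(2,1),(7,0),
  (8,0)]⟩,⟨0,[(0,0)]⟩⟩,.o ⟨false,1,⟨1,[(22,1),(10,0),(9,0)]⟩,⟨0,[(0,0),(14,0),(23,0)]⟩⟩,.a ⟨true,0,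
  ⟨0,[(28,0)]⟩,⟨0,[(25,0)]⟩⟩ ⟨true,0,⟨1,[(28,0),(0,0)]⟩,⟨0,[(39,0)]⟩⟩ ⟨false,1,⟨1,[(22,1),(2,1),(7,
  0),(9,0)]⟩,⟨0,[(0,0)]⟩⟩,.o ⟨false,0,⟨1,[(2,1),(0,1),(29,0),(9,0)]⟩,⟨1,[(25,1),(7,0),(8,0)]⟩⟩]⟩)
  (.I [0,0,2,0,-1,2,1,0,1] (.I [2,0,-2,-2,1,0,0,1] (.N [0,-2,1,0,1] (-1) ⟨0,[(0,0)]⟩ ⟨0,[(5,0)]⟩
  (.x 1 ⟨0,[(1,0)]⟩ ⟨0,[(17,0),(4,0),(0,0),(2,0),(7,0),(9,0)]⟩)) (.Q [0,0,1,0,0,0,0,0,-1,1,0,-1]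
  (.p false [0,0,0,0,1] [1] (⟨0,[(26,0)]⟩,⟨0,[(25,0)]⟩) .k 1 (⟨0,[]⟩,⟨0,[]⟩) .k .k) (.Q [1,-1,0,-1,
  0,0,0,0,1,0,0,1] (.p true [0,0,0,0,1] [] (⟨0,[(27,0)]⟩,⟨0,[(26,0)]⟩) .k 0 (⟨0,[]⟩,⟨0,[]⟩) .k .k)
  (.Q [0,0,0,0,0,-1,0,0,0,1,0,-1] (.ed true [0,1,0,0,1] .k) (.R ⟨1,false,false,false,[1,0,0,0,-1],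
  [1,-1],[-1],(⟨0,[(28,0)]⟩,⟨0,[(29,0)]⟩),(⟨0,[(39,0)]⟩,⟨0,[(40,0)]⟩),⟨0,[(0,0)]⟩,.k,.k,(.r (-1) ⟨9,
  [(22,4),(3,1),(0,1),(20,2),(1,0)]⟩ ⟨1,[(12,0),(13,0),(0,0)]⟩),(.r 0 ⟨2,[(3,0),(17,0),(4,0),(0,0),
  (15,0)]⟩ ⟨3,[(22,1),(3,0),(0,0),(20,0)]⟩),.k,.k,⟨false,0,⟨0,[(3,0),(10,0),(29,1),(3,0)]⟩,⟨3,[(22,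
  1),(3,0),(0,0),(20,0)]⟩⟩,⟨true,(-1),⟨0,[(1,0),(8,0),(33,0)]⟩,⟨0,[(26,0)]⟩⟩,⟨false,1,⟨1,[(26,0),(0,
  0),(20,0)]⟩,⟨0,[]⟩⟩,⟨false,0,⟨0,[(1,0)]⟩,⟨0,[(26,0),(19,0)]⟩⟩,⟨true,0,⟨0,[(46,0)]⟩,⟨0,[(45,0)]⟩⟩,
  ⟨false,0,⟨0,[(1,0),(44,0)]⟩,⟨2,[(2,1),(23,0),(11,0),(5,1),(3,0)]⟩⟩,[.e ⟨false,1,⟨9,[(26,3),(0,3),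
  (19,4),(0,0),(1,1)]⟩,⟨0,[]⟩⟩ ⟨false,0,⟨0,[(1,0),(42,0)]⟩,⟨0,[(26,0),(19,0)]⟩⟩,.o ⟨false,1,⟨0,[(45,
  0),(2,0)]⟩,⟨1,[(12,0),(25,0),(5,1)]⟩⟩,.o ⟨false,1,⟨0,[(26,0)]⟩,⟨1,[(1,1),(10,0),(25,0),(5,1)]⟩⟩,
  .a ⟨true,0,⟨0,[(2,0)]⟩,⟨0,[(1,0),(42,0),(1,0)]⟩⟩ ⟨false,1,⟨0,[(44,0),(3,0)]⟩,⟨1,[(33,0),(0,0)]⟩⟩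
  ⟨true,0,⟨0,[(1,0),(42,0)]⟩,⟨0,[(10,0),(15,0),(17,0)]⟩⟩]⟩) (.K ⟨0,[1,0,0,0,-1],0,0,(⟨0,[(28,0)]⟩,
  ⟨0,[(29,0)]⟩),.k,(.r (-1) ⟨9,[(22,4),(3,1),(0,1),(20,2),(1,0)]⟩ ⟨1,[(12,0),(13,0),(0,0)]⟩),(.r 0
  ⟨2,[(3,0),(17,0),(4,0),(0,0),(15,0)]⟩ ⟨3,[(22,1),(3,0),(0,0),(20,0)]⟩),.k,.k,[⟨0,[(0,0),(3,0),(20,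
  0),(11,1),(9,0)]⟩,⟨0,[(2,0)]⟩,⟨3,[(1,2),(3,0),(2,0),(1,0),(20,0),(6,1),(2,2)]⟩,⟨0,[(2,0),(41,
  0)]⟩]⟩)) (.I [3,0,-2,-2,1,0,0,1] (.N [0,-2,1,0,2] (-1) ⟨0,[(0,0)]⟩ ⟨0,[(3,0)]⟩ (.x 1 ⟨3,[(4,5),(0,
  1),(19,1),(2,1),(8,1),(0,0),(8,0)]⟩ ⟨0,[(0,0),(0,1),(17,0),(5,0),(3,1),(7,0),(10,0)]⟩)) (.Q [0,0,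
  0,0,0,0,0,0,1,-1,0,1] (.p true [0,0,0,0,1] [1] (⟨0,[(29,0)]⟩,⟨0,[(28,0)]⟩) .k 1 (⟨0,[]⟩,⟨0,[]⟩)
  .k .k) (.R ⟨1,false,false,false,[1,0,0,0,-1],[0,1],[-1],(⟨0,[(29,0)]⟩,⟨0,[(30,0)]⟩),(⟨0,[(41,0)]⟩,
  ⟨0,[(40,0)]⟩),⟨16,[(1,1),(0,0),(2,0),(6,0),(2,2),(10,0),(2,15),(8,17),(6,5),(3,3)]⟩,.k,.k,(.r
  (-1) ⟨9,[(23,4),(3,1),(0,1),(20,2),(1,0)]⟩ ⟨1,[(13,0),(13,0),(0,0)]⟩),(.r (-1) ⟨9,[(23,4),(3,1),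
  (0,1),(20,2),(1,0)]⟩ ⟨1,[(13,0),(13,0),(0,0)]⟩),(.r (-2) ⟨1,[(23,1),(3,0),(0,0),(20,0)]⟩ ⟨0,[(13,
  0)]⟩),.k,⟨true,1,⟨9,[(23,4),(3,1),(0,1),(20,2),(1,0)]⟩,⟨0,[(11,0)]⟩⟩,⟨false,1,⟨0,[(0,0),(47,0)]⟩,
  ⟨0,[(3,0)]⟩⟩,⟨false,1,⟨1,[(27,0),(0,0),(20,0)]⟩,⟨0,[]⟩⟩,⟨true,0,⟨0,[(0,0),(46,0)]⟩,⟨117,[(1,3),(0,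
  65),(0,51),(4,31),(3,31),(6,3),(3,29),(19,16),(5,22)]⟩⟩,⟨true,0,⟨0,[(47,0)]⟩,⟨0,[(46,0)]⟩⟩,⟨true,
  0,⟨0,[(0,0),(46,1)]⟩,⟨5,[(2,3),(5,3),(3,3),(14,1),(15,0),(5,2)]⟩⟩,[.a ⟨true,0,⟨0,[(47,0)]⟩,⟨27,
  [(8,3),(3,3),(10,5),(0,5),(9,11),(8,8),(5,6)]⟩⟩ ⟨false,1,⟨9,[(27,3),(0,3),(19,4),(0,0),(1,1)]⟩,⟨0,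
  []⟩⟩ ⟨true,0,⟨0,[(0,0),(46,0)]⟩,⟨4,[(2,1),(0,2),(4,1),(2,0),(0,1),(36,2)]⟩⟩,.o ⟨false,1,⟨1,[(39,
  0),(7,1),(1,0)]⟩,⟨0,[(46,0)]⟩⟩,.o ⟨false,1,⟨0,[(27,0)]⟩,⟨0,[(0,0)]⟩⟩,.e ⟨false,1,⟨0,[(45,0),(3,
  0)]⟩,⟨1,[(34,0),(0,0)]⟩⟩ ⟨false,1,⟨1,[(0,1),(46,1),(0,0),(0,0)]⟩,⟨4,[(2,1),(0,2),(4,1),(2,0),(0,
  1),(36,2)]⟩⟩]⟩) (.Q [-1,1,0,0,0,0,0,0,-1,0,0,-1] (.p false [0,0,0,0,1] [] (⟨0,[(30,0)]⟩,⟨0,[(29,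
  0)]⟩) .k 0 (⟨0,[]⟩,⟨0,[]⟩) .k .k) (.Q [1,0,0,1,0,0,0,0,1,-1,0,1] (.p true [0,0,0,0,1] [1] (⟨0,
  [(31,0)]⟩,⟨0,[(30,0)]⟩) .k 1 (⟨0,[]⟩,⟨0,[]⟩) .k .k) (.R ⟨2,true,false,true,[0,1],[1,0,0,0,-1],[0,
  0,1,1],(⟨0,[]⟩,⟨0,[]⟩),(⟨0,[(31,0)]⟩,⟨0,[(32,0)]⟩),⟨0,[]⟩,.k,.k,.k,(.r 0 ⟨1,[(15,0),(13,0),(0,
  0)]⟩ ⟨9,[(25,4),(3,1),(0,1),(20,2),(1,0)]⟩),.k,.k,⟨true,0,⟨0,[(46,0)]⟩,⟨0,[(48,0)]⟩⟩,⟨false,0,⟨0,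
  [(2,0)]⟩,⟨1,[(30,1),(10,0),(8,0)]⟩⟩,⟨false,1,⟨1,[(29,0),(0,0),(20,0)]⟩,⟨0,[]⟩⟩,⟨true,0,⟨5,[(1,0),
  (0,2),(2,1),(4,0),(3,0),(10,0),(27,1)]⟩,⟨0,[(0,0)]⟩⟩,⟨true,0,⟨0,[(49,0)]⟩,⟨0,[(48,0)]⟩⟩,⟨false,0,
  ⟨1,[(1,1),(43,0),(5,0)]⟩,⟨1,[(30,1),(10,0),(9,0)]⟩⟩,[]⟩) (.S ⟨1,0,[-1,1],[1,0,0,0,-1],[-1],(⟨0,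
  [(31,0)]⟩,⟨0,[(32,0)]⟩),⟨56,[(0,1),(2,7),(3,1),(6,1),(2,9),(10,1),(2,54),(8,58),(0,0),(5,19),(3,
  10)]⟩,.k,(.r (-1) ⟨9,[(25,4),(3,1),(0,1),(20,2),(1,0)]⟩ ⟨1,[(15,0),(13,0),(0,0)]⟩),⟨false,1,⟨1,
  [(29,0),(0,0),(20,0)]⟩,⟨0,[]⟩⟩,⟨true,0,⟨0,[(53,0)]⟩,⟨0,[]⟩⟩,⟨true,0,⟨0,[(49,0)]⟩,⟨0,[(48,0)]⟩⟩,
  ⟨false,0,⟨0,[(49,0)]⟩,⟨0,[(48,0),(2,0)]⟩⟩,[.o ⟨false,0,⟨0,[(1,0)]⟩,⟨1,[(30,1),(10,0),(9,0)]⟩⟩,.e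
  ⟨false,1,⟨0,[(47,0),(3,0)]⟩,⟨0,[(53,0)]⟩⟩ ⟨false,1,⟨9,[(29,3),(0,3),(19,4),(0,0),(1,1)]⟩,⟨0,[]⟩⟩,
  .a ⟨true,0,⟨0,[(2,0)]⟩,⟨0,[(30,0)]⟩⟩ ⟨false,1,⟨4,[(29,1),(0,1),(20,2),(1,0)]⟩,⟨0,[]⟩⟩ ⟨true,0,⟨0,
  [(53,0)]⟩,⟨0,[]⟩⟩,.o ⟨false,0,⟨3,[(0,1),(0,1),(11,1),(27,0),(9,0)]⟩,⟨1,[(30,1),(10,0),(8,
  0)]⟩⟩]⟩)) (.R ⟨2,true,false,false,[0,1],[0,0,0,0,1],[1,0,1],(⟨0,[]⟩,⟨0,[]⟩),(⟨0,[(31,0)]⟩,⟨0,[(30,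
  0)]⟩),⟨0,[]⟩,.k,.k,.k,(.r 0 ⟨7,[(2,1),(11,0),(8,1),(4,2),(0,2),(15,1)]⟩ ⟨3,[(24,1),(3,0),(0,0),
  (20,0)]⟩),.k,.k,⟨true,0,⟨1,[(35,0),(0,0)]⟩,⟨0,[]⟩⟩,⟨false,0,⟨0,[(29,0)]⟩,⟨1,[(1,1),(38,0),(8,
  0)]⟩⟩,⟨false,1,⟨0,[(47,0),(2,0)]⟩,⟨0,[(48,0)]⟩⟩,⟨true,0,⟨7,[(0,1),(8,1),(3,1),(15,5),(10,0),(9,
  0)]⟩,⟨0,[(3,0)]⟩⟩,⟨true,0,⟨0,[]⟩,⟨0,[(52,0)]⟩⟩,⟨false,0,⟨0,[(0,0)]⟩,⟨64,[(3,19),(5,1),(3,1),(10,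
  5),(3,44),(11,0),(9,14),(0,11)]⟩⟩,[]⟩))))) (.Q [0,0,0,0,0,-1,0,0,0,1,0,-1] (.ed true [0,1,0,0,1]
  .k) (.R ⟨1,false,false,false,[1,0,0,0,-1],[0,1],[0,1,0,-1],(⟨0,[(27,0)]⟩,⟨0,[(28,0)]⟩),(⟨0,[(39,
  0)]⟩,⟨0,[(38,0)]⟩),⟨0,[(0,0)]⟩,.k,.k,(.r (-1) ⟨9,[(21,4),(3,1),(0,1),(20,2),(1,0)]⟩ ⟨1,[(11,0),
  (13,0),(0,0)]⟩),(.r (-1) ⟨9,[(21,4),(3,1),(0,1),(20,2),(1,0)]⟩ ⟨1,[(11,0),(13,0),(0,0)]⟩),(.r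
  (-2) ⟨1,[(21,1),(3,0),(0,0),(20,0)]⟩ ⟨0,[(11,0)]⟩),.k,⟨false,1,⟨0,[(21,0)]⟩,⟨0,[(42,0),(2,0)]⟩⟩,
  ⟨true,0,⟨0,[(1,0)]⟩,⟨38,[(6,6),(2,27),(0,6),(11,9),(2,38),(6,19),(8,10),(5,6),(0,1)]⟩⟩,⟨true,0,⟨0,
  [(44,0)]⟩,⟨0,[(45,0)]⟩⟩,⟨false,0,⟨0,[(1,0),(40,0)]⟩,⟨35,[(6,3),(3,3),(10,9),(0,1),(2,35),(6,3),(8,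
  14),(5,8),(0,15)]⟩⟩,⟨false,0,⟨0,[]⟩,⟨1,[(25,0),(0,0),(20,0)]⟩⟩,⟨false,0,⟨0,[(1,0),(40,0),(2,0)]⟩,
  ⟨53,[(6,21),(3,21),(10,9),(0,1),(2,53),(6,3),(8,14),(5,26),(0,15)]⟩⟩,[.a ⟨true,0,⟨0,[(45,0)]⟩,⟨27,
  [(6,3),(3,3),(10,5),(0,5),(9,11),(8,8),(5,6)]⟩⟩ ⟨true,0,⟨0,[(44,0)]⟩,⟨0,[(42,0)]⟩⟩ ⟨false,0,⟨0,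
  [(1,0),(43,0)]⟩,⟨27,[(6,3),(3,3),(10,5),(0,5),(2,27),(6,11),(8,8),(5,6)]⟩⟩,.o ⟨false,1,⟨1,[(37,0),
  (7,1),(1,0)]⟩,⟨0,[(44,0)]⟩⟩,.o ⟨false,1,⟨0,[(25,0)]⟩,⟨14,[(1,7),(4,0),(2,3),(0,0),(15,6),(10,3),
  (9,0)]⟩⟩,.o ⟨false,1,⟨1,[(25,1),(6,0),(0,0)]⟩,⟨0,[(1,0)]⟩⟩]⟩) (.R ⟨0,false,false,false,[1,0,0,0,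
  -1],[0,1],[0,1,0,-1],(⟨0,[(27,0)]⟩,⟨0,[(28,0)]⟩),(⟨0,[(39,0)]⟩,⟨0,[(38,0)]⟩),⟨0,[(0,0)]⟩,.k,.k,
  (.r (-1) ⟨9,[(21,4),(3,1),(0,1),(20,2),(1,0)]⟩ ⟨1,[(11,0),(13,0),(0,0)]⟩),(.r (-1) ⟨9,[(21,4),(3,
  1),(0,1),(20,2),(1,0)]⟩ ⟨1,[(11,0),(13,0),(0,0)]⟩),.k,.k,⟨false,1,⟨0,[(21,0)]⟩,⟨0,[(42,0),(2,
  0)]⟩⟩,⟨true,0,⟨0,[(1,0)]⟩,⟨38,[(6,6),(2,27),(0,6),(11,9),(2,38),(6,19),(8,10),(5,6),(0,1)]⟩⟩,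
  ⟨true,0,⟨0,[(44,0)]⟩,⟨0,[(45,0)]⟩⟩,⟨false,0,⟨0,[(1,0),(40,0)]⟩,⟨35,[(6,3),(3,3),(10,9),(0,1),(2,
  35),(6,3),(8,14),(5,8),(0,15)]⟩⟩,⟨false,0,⟨0,[]⟩,⟨0,[]⟩⟩,⟨false,0,⟨0,[]⟩,⟨0,[]⟩⟩,[.a ⟨true,0,⟨0,
  [(45,0)]⟩,⟨27,[(6,3),(3,3),(10,5),(0,5),(9,11),(8,8),(5,6)]⟩⟩ ⟨true,0,⟨0,[(44,0)]⟩,⟨0,[(42,0)]⟩⟩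
  ⟨false,0,⟨0,[(1,0),(43,0)]⟩,⟨27,[(6,3),(3,3),(10,5),(0,5),(2,27),(6,11),(8,8),(5,6)]⟩⟩,.o ⟨false,
  1,⟨1,[(37,0),(7,1),(1,0)]⟩,⟨0,[(44,0)]⟩⟩,.o ⟨false,1,⟨0,[(25,0)]⟩,⟨14,[(1,7),(4,0),(2,3),(0,0),
  (15,6),(10,3),(9,0)]⟩⟩,.o ⟨false,1,⟨1,[(25,1),(6,0),(0,0)]⟩,⟨0,[(1,0)]⟩⟩]⟩)))) (.Q [-1,1,0,0,-1,0,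
  -1,-1,-1,1,-1,-1] (.p false [0,0,1] [1,0,0,0,-1] (⟨0,[(32,0)]⟩,⟨0,[(31,0)]⟩) .k 2 (⟨0,[(24,0)]⟩,
  ⟨0,[(25,0)]⟩) .k (.r 0 ⟨0,[(12,0)]⟩ ⟨1,[(28,1),(0,1),(13,0),(0,0)]⟩)) (.Q [1,-1,0,1,1,0,1,1,1,-1,
  1,1] (.p true [0,0,1] [1,0,0,0,-1] (⟨0,[(33,0)]⟩,⟨0,[(32,0)]⟩) .k 2 (⟨0,[(25,0)]⟩,⟨0,[(26,0)]⟩)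
  .k (.r 0 ⟨0,[(13,0)]⟩ ⟨1,[(29,1),(0,1),(13,0),(0,0)]⟩)) (.R ⟨1,true,false,false,[1,0,-1],[0,0,0,0,
  1],[0,0,0,0,0,0,0,-1],(⟨0,[(33,0)]⟩,⟨0,[(34,0)]⟩),(⟨0,[(27,0)]⟩,⟨0,[(26,0)]⟩),⟨0,[(22,0)]⟩,.k,.k,
  .k,.k,(.r (-1) ⟨3,[(9,1),(7,1),(13,3),(4,0),(8,3),(0,0)]⟩ ⟨0,[(19,0),(21,0)]⟩),.k,⟨false,1,⟨0,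
  [(17,0),(13,0),(13,0)]⟩,⟨0,[(14,0)]⟩⟩,⟨true,1,⟨1,[(25,1),(5,1),(4,0),(8,0)]⟩,⟨1,[(1,1),(6,0),(3,
  0),(1,0),(31,0)]⟩⟩,⟨false,1,⟨1,[(24,0),(0,0),(20,0)]⟩,⟨0,[]⟩⟩,⟨true,1,⟨0,[(0,0),(42,0)]⟩,⟨0,[(1,
  0)]⟩⟩,⟨true,0,⟨0,[(44,0)]⟩,⟨0,[(43,0)]⟩⟩,⟨false,1,⟨0,[(0,0)]⟩,⟨1,[(1,0),(7,0),(14,0),(21,0)]⟩⟩,
  []⟩) (.I [2,0,-2,-2,1,0,0,1] (.N [0,-2,1,0,1] (-1) ⟨0,[(0,0)]⟩ ⟨0,[(7,0)]⟩ (.x 0 ⟨1,[(5,1),(0,1),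
  (0,1),(18,1),(0,1),(9,0),(9,0)]⟩ ⟨1,[(1,1),(5,3),(5,5),(10,1),(3,1),(7,1),(0,0),(5,11),(3,6)]⟩))
  (.Q [0,0,0,0,0,-1,0,0,0,0,0,1] (.ed false [1,-1,0,0,1] .k) (.S ⟨1,0,[1],[0,0,0,0,1],[0,1],(⟨0,
  [(29,0)]⟩,⟨0,[(28,0)]⟩),⟨0,[(0,0)]⟩,.k,(.r (-1) ⟨3,[(22,1),(3,0),(0,0),(20,0)]⟩ ⟨2,[(1,0),(19,0),
  (4,0),(0,0),(15,0)]⟩),⟨true,0,⟨0,[(50,0)]⟩,⟨0,[]⟩⟩,⟨false,1,⟨1,[(26,0),(0,0),(20,0)]⟩,⟨0,[]⟩⟩,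
  ⟨false,0,⟨0,[(1,0),(12,0),(29,1),(3,0)]⟩,⟨0,[(45,0),(2,0)]⟩⟩,⟨true,0,⟨0,[(46,0)]⟩,⟨0,[(45,0)]⟩⟩,
  [.a ⟨true,0,⟨0,[(27,0)]⟩,⟨0,[(3,0),(27,0),(16,0)]⟩⟩ ⟨false,0,⟨0,[(44,0)]⟩,⟨1,[(26,0),(0,0),(20,
  0)]⟩⟩ ⟨true,0,⟨0,[]⟩,⟨1,[(33,0),(0,0)]⟩⟩,.o ⟨false,1,⟨1,[(27,1),(10,0),(9,0)]⟩,⟨1,[(3,1),(27,1),
  (6,0),(9,0)]⟩⟩,.e ⟨true,0,⟨0,[(50,0)]⟩,⟨0,[]⟩⟩ ⟨true,0,⟨0,[]⟩,⟨0,[(50,0)]⟩⟩,.o ⟨false,0,⟨1,[(5,1),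
  (1,1),(0,1),(29,0),(9,0)]⟩,⟨1,[(3,1),(27,1),(6,0),(8,0),(0,1)]⟩⟩]⟩) (.S ⟨1,0,[-1,1],[1,0,0,0,-1],
  [-1],(⟨0,[(28,0)]⟩,⟨0,[(29,0)]⟩),⟨0,[(0,0),(23,0),(0,0)]⟩,.k,(.r (-1) ⟨9,[(22,4),(3,1),(0,1),(20,
  2),(1,0)]⟩ ⟨1,[(12,0),(13,0),(0,0)]⟩),⟨false,1,⟨1,[(26,0),(0,0),(20,0)]⟩,⟨0,[]⟩⟩,⟨true,0,⟨0,[(50,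
  0)]⟩,⟨0,[]⟩⟩,⟨true,0,⟨0,[(46,0)]⟩,⟨0,[(45,0)]⟩⟩,⟨false,0,⟨0,[(46,0)]⟩,⟨0,[(45,0),(2,0)]⟩⟩,[.o
  ⟨false,0,⟨1,[(3,1),(27,1),(6,0),(9,0)]⟩,⟨1,[(27,1),(10,0),(9,0)]⟩⟩,.e ⟨false,1,⟨0,[(44,0),(3,0)]⟩,
  ⟨0,[(50,0)]⟩⟩ ⟨false,1,⟨9,[(26,3),(0,3),(19,4),(0,0),(1,1)]⟩,⟨0,[]⟩⟩,.a ⟨true,0,⟨0,[(3,0),(27,0),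
  (16,0)]⟩,⟨0,[(27,0)]⟩⟩ ⟨false,1,⟨4,[(26,1),(0,1),(20,2),(1,0)]⟩,⟨0,[]⟩⟩ ⟨true,0,⟨0,[(50,0)]⟩,⟨0,
  []⟩⟩,.o ⟨false,0,⟨3,[(3,3),(3,0),(2,1),(20,2),(6,1),(9,3)]⟩,⟨1,[(27,1),(10,0),(8,0)]⟩⟩]⟩)))) (.Q
  [0,0,1,0,-1,0,0,0,1,0,0,1] (.p true [0,0,0,0,1] [] (⟨0,[(26,0)]⟩,⟨0,[(25,0)]⟩) .k 0 (⟨0,[]⟩,⟨0,
  []⟩) .k .k) (.S ⟨1,0,[1],[0,0,0,0,1],[1,0,1],(⟨0,[(27,0)]⟩,⟨0,[(26,0)]⟩),⟨2,[(0,0),(1,0),(1,0),(0,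
  0),(0,0),(20,1),(7,2),(6,0),(3,0)]⟩,.k,(.r (-1) ⟨3,[(20,1),(3,0),(0,0),(20,0)]⟩ ⟨5,[(1,0),(4,2),
  (12,0),(1,0),(2,0),(4,0),(16,0),(1,0)]⟩),⟨true,0,⟨1,[(31,0),(0,0)]⟩,⟨0,[(42,0)]⟩⟩,⟨false,1,⟨1,
  [(24,0),(0,0),(20,0)]⟩,⟨0,[]⟩⟩,⟨false,0,⟨1,[(10,0),(35,0)]⟩,⟨3,[(20,1),(3,0),(0,0),(20,0)]⟩⟩,
  ⟨true,0,⟨0,[(44,0)]⟩,⟨0,[(43,0)]⟩⟩,[.o ⟨false,0,⟨1,[(0,1),(35,0),(8,0)]⟩,⟨2,[(2,1),(1,1),(0,1),(0,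
  1),(17,0),(1,1),(9,0),(9,0)]⟩⟩,.e ⟨false,1,⟨1,[(24,0),(0,0),(20,0)]⟩,⟨0,[(42,0)]⟩⟩ ⟨false,1,⟨1,
  [(45,0),(0,0)]⟩,⟨0,[(48,0)]⟩⟩,.o ⟨false,0,⟨1,[(0,1),(35,0),(8,0)]⟩,⟨0,[(24,0)]⟩⟩,.a ⟨true,(-1),⟨0,
  [(0,0)]⟩,⟨1,[(24,1),(15,0),(4,0)]⟩⟩ ⟨true,0,⟨0,[]⟩,⟨0,[(48,0)]⟩⟩ ⟨false,1,⟨1,[(45,0),(0,0)]⟩,⟨1,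
  [(31,0),(0,0)]⟩⟩]⟩) (.Q [-1,1,0,1,-1,0,-1,-1,-1,1,-1,-1] (.p false [0,0,1] [1,0,0,0,-1] (⟨0,[(34,
  0)]⟩,⟨0,[(33,0)]⟩) .k 2 (⟨0,[(26,0)]⟩,⟨0,[(27,0)]⟩) .k (.r 0 ⟨0,[(14,0)]⟩ ⟨1,[(30,1),(0,1),(13,0),
  (0,0)]⟩)) (.R ⟨1,true,false,true,[0,0,1],[1,0,0,0,-1],[0,1,0,0,0,0,0,1],(⟨0,[(35,0)]⟩,⟨0,[(34,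
  0)]⟩),(⟨0,[(27,0)]⟩,⟨0,[(28,0)]⟩),⟨0,[(24,0)]⟩,.k,.k,.k,.k,(.r (-1) ⟨5,[(1,1),(0,1),(10,0),(3,2),
  (3,0),(7,1),(17,0)]⟩ ⟨3,[(7,1),(23,1),(0,1),(13,0),(0,0)]⟩),.k,⟨true,0,⟨0,[(15,0)]⟩,⟨0,[(18,0),
  (13,0)]⟩⟩,⟨false,0,⟨1,[(0,1),(12,1),(32,0),(0,0)]⟩,⟨0,[(2,0),(4,0),(13,0)]⟩⟩,⟨true,0,⟨0,[(49,0)]⟩,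
  ⟨0,[]⟩⟩,⟨false,0,⟨3,[(0,1),(9,0),(3,0),(10,1),(21,1)]⟩,⟨0,[(2,0)]⟩⟩,⟨false,0,⟨0,[(45,0)]⟩,⟨0,[(44,
  0),(2,0)]⟩⟩,⟨true,(-1),⟨0,[(0,0)]⟩,⟨0,[(2,0),(41,0)]⟩⟩,[]⟩) (.Q [-1,1,0,0,0,0,0,0,-1,0,0,-1] (.p
  false [0,0,0,0,1] [] (⟨0,[(28,0)]⟩,⟨0,[(27,0)]⟩) .k 0 (⟨0,[]⟩,⟨0,[]⟩) .k .k) (.Q [0,0,0,0,0,-1,0,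
  0,0,0,0,1] (.ed false [1,-1,0,0,1] .k) (.S ⟨1,0,[1],[0,0,0,0,1],[0,1],(⟨0,[(30,0)]⟩,⟨0,[(29,0)]⟩),
  ⟨0,[(0,0)]⟩,.k,(.r (-1) ⟨3,[(23,1),(3,0),(0,0),(20,0)]⟩ ⟨5,[(4,0),(4,2),(12,0),(1,0),(2,0),(4,0),
  (16,0),(1,0)]⟩),⟨true,0,⟨0,[(51,0)]⟩,⟨0,[]⟩⟩,⟨false,1,⟨1,[(27,0),(0,0),(20,0)]⟩,⟨0,[]⟩⟩,⟨false,0,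
  ⟨0,[(9,0),(5,0),(29,1),(3,0)]⟩,⟨14,[(2,4),(9,3),(10,0),(0,0),(2,4),(5,0),(0,1),(14,7)]⟩⟩,⟨true,0,
  ⟨0,[(47,0)]⟩,⟨0,[(46,0)]⟩⟩,[.a ⟨true,0,⟨0,[(28,0)]⟩,⟨1,[(1,1),(41,0),(5,0)]⟩⟩ ⟨false,0,⟨0,[(45,
  0)]⟩,⟨1,[(27,0),(0,0),(20,0)]⟩⟩ ⟨true,0,⟨0,[]⟩,⟨1,[(34,0),(0,0)]⟩⟩,.o ⟨false,1,⟨0,[(4,0),(15,0)]⟩,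
  ⟨0,[(1,0)]⟩⟩,.e ⟨true,0,⟨0,[(51,0)]⟩,⟨0,[]⟩⟩ ⟨true,0,⟨0,[]⟩,⟨0,[(51,0)]⟩⟩,.o ⟨false,0,⟨4,[(2,1),
  (3,0),(2,0),(1,1),(0,0),(15,1),(10,1),(11,0)]⟩,⟨0,[(3,0)]⟩⟩]⟩) (.R ⟨0,false,false,false,[0,0,0,0,
  1],[0,1],[0,1],(⟨0,[(30,0)]⟩,⟨0,[(29,0)]⟩),(⟨0,[(41,0)]⟩,⟨0,[(40,0)]⟩),⟨0,[(0,0)]⟩,.k,.k,(.r (-1)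
  ⟨3,[(23,1),(3,0),(0,0),(20,0)]⟩ ⟨5,[(4,0),(4,2),(12,0),(1,0),(2,0),(4,0),(16,0),(1,0)]⟩),(.r (-1)
  ⟨3,[(23,1),(3,0),(0,0),(20,0)]⟩ ⟨5,[(4,0),(4,2),(12,0),(1,0),(2,0),(4,0),(16,0),(1,0)]⟩),.k,.k,
  ⟨false,1,⟨7,[(23,3),(3,0),(0,0),(13,1),(5,2)]⟩,⟨0,[(44,0)]⟩⟩,⟨true,1,⟨0,[(3,0)]⟩,⟨2,[(2,0),(6,0),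
  (1,1),(0,0),(2,0),(12,1)]⟩⟩,⟨true,0,⟨0,[(51,0)]⟩,⟨0,[]⟩⟩,⟨false,1,⟨4,[(1,0),(1,3),(9,1),(33,0),(1,
  2)]⟩,⟨2,[(2,0),(9,0),(15,1)]⟩⟩,⟨false,0,⟨0,[]⟩,⟨0,[]⟩⟩,⟨false,0,⟨0,[]⟩,⟨0,[]⟩⟩,[.e ⟨false,0,⟨0,
  [(45,0)]⟩,⟨1,[(27,0),(0,0),(20,0)]⟩⟩ ⟨false,1,⟨0,[(3,0),(43,0)]⟩,⟨10,[(2,3),(6,0),(2,3),(2,0),(12,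
  6),(16,1),(3,0)]⟩⟩,.o ⟨false,1,⟨1,[(39,0),(7,1),(1,0)]⟩,⟨0,[(46,0)]⟩⟩,.a ⟨true,0,⟨0,[(28,0)]⟩,⟨1,
  [(1,1),(41,0),(5,0)]⟩⟩ ⟨true,0,⟨0,[(51,0)]⟩,⟨0,[]⟩⟩ ⟨false,1,⟨0,[(3,0),(40,0)]⟩,⟨10,[(2,3),(6,0),
  (2,3),(2,0),(12,6),(16,1),(3,0)]⟩⟩,.o ⟨false,0,⟨4,[(2,1),(3,0),(2,0),(1,1),(0,0),(15,1),(10,1),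
  (11,0)]⟩,⟨0,[(3,0)]⟩⟩]⟩)) (.R ⟨2,true,false,false,[0,1],[0,0,0,0,1],[1,0,1],(⟨0,[]⟩,⟨0,[]⟩),(⟨0,
  [(29,0)]⟩,⟨0,[(28,0)]⟩),⟨0,[]⟩,.k,.k,.k,(.r 0 ⟨5,[(3,0),(4,2),(12,0),(1,0),(2,0),(4,0),(16,0),(1,
  0)]⟩ ⟨3,[(22,1),(3,0),(0,0),(20,0)]⟩),.k,.k,⟨true,0,⟨1,[(33,0),(0,0)]⟩,⟨0,[]⟩⟩,⟨false,0,⟨0,[(27,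
  0)]⟩,⟨0,[(2,0)]⟩⟩,⟨false,1,⟨14,[(1,4),(9,3),(10,0),(0,0),(2,4),(5,0),(0,1),(14,7)]⟩,⟨0,[(46,0)]⟩⟩,
  ⟨true,0,⟨2,[(1,0),(9,0),(15,1)]⟩,⟨0,[(2,0),(7,0),(33,0)]⟩⟩,⟨true,0,⟨0,[]⟩,⟨0,[(50,0)]⟩⟩,⟨false,0,
  ⟨0,[(0,0)]⟩,⟨1,[(2,0),(23,0),(22,0)]⟩⟩,[]⟩))))))))))

theorem ok10 : chk K t10 l13 = true := by decide +kernel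

noncomputable def t11 : Tre :=
  (.Q [-1,0,0,1,0,0,0,0,-1,0,0,-1] (.p false [0,0,0,0,1] [] (⟨0,[(20,0)]⟩,⟨0,[(19,0)]⟩) .k 0 (⟨0,
  []⟩,⟨0,[]⟩) .k .k) (.R ⟨2,true,false,true,[0,1],[0,0,0,0,1],[2,1],(⟨0,[]⟩,⟨0,[]⟩),(⟨0,[(21,0)]⟩,
  ⟨0,[(20,0)]⟩),⟨0,[]⟩,.k,.k,.k,(.r 0 ⟨3,[(4,0),(13,0),(0,0),(15,1),(6,1)]⟩ ⟨3,[(14,1),(3,0),(0,0),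
  (20,0)]⟩),.k,.k,⟨true,0,⟨0,[]⟩,⟨1,[(25,0),(0,0)]⟩⟩,⟨false,0,⟨0,[(19,0)]⟩,⟨5,[(0,3),(13,1),(3,1),
  (20,0),(0,0)]⟩⟩,⟨false,1,⟨3,[(14,1),(3,0),(0,0),(20,0)]⟩,⟨0,[(2,0),(33,0),(3,0)]⟩⟩,⟨true,0,⟨0,
  [(19,0),(17,0)]⟩,⟨0,[(0,0)]⟩⟩,⟨true,0,⟨0,[(36,0)]⟩,⟨0,[(41,0)]⟩⟩,⟨false,0,⟨0,[(19,0)]⟩,⟨11,[(0,6),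
  (0,0),(1,1),(2,0),(11,4),(6,1),(4,0),(9,6)]⟩⟩,[]⟩) (.Q [-1,1,0,0,0,0,0,0,-1,0,0,-1] (.p false [0,
  0,0,0,1] [] (⟨0,[(21,0)]⟩,⟨0,[(20,0)]⟩) .k 0 (⟨0,[]⟩,⟨0,[]⟩) .k .k) (.Q [0,0,0,0,0,-1,0,0,0,0,0,
  1] (.ed false [1,-1,0,0,1] .k) (.S ⟨1,0,[1],[0,0,0,0,1],[0,1],(⟨0,[(23,0)]⟩,⟨0,[(22,0)]⟩),⟨0,[(0,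
  0)]⟩,.k,(.r (-1) ⟨3,[(16,1),(3,0),(0,0),(20,0)]⟩ ⟨3,[(6,0),(13,0),(0,0),(15,1),(6,1)]⟩),⟨true,0,
  ⟨0,[(44,0)]⟩,⟨0,[]⟩⟩,⟨false,1,⟨1,[(20,0),(0,0),(20,0)]⟩,⟨0,[]⟩⟩,⟨false,0,⟨0,[(4,0),(33,1),(3,0)]⟩,
  ⟨0,[(39,0),(2,0)]⟩⟩,⟨true,0,⟨0,[(40,0)]⟩,⟨0,[(39,0)]⟩⟩,[.a ⟨true,0,⟨0,[(21,0)]⟩,⟨1,[(1,1),(34,0),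
  (5,0)]⟩⟩ ⟨false,0,⟨0,[(38,0)]⟩,⟨1,[(20,0),(0,0),(20,0)]⟩⟩ ⟨true,0,⟨0,[]⟩,⟨1,[(27,0),(0,0)]⟩⟩,.o
  ⟨false,1,⟨1,[(21,1),(10,0),(9,0)]⟩,⟨0,[(1,0)]⟩⟩,.e ⟨true,0,⟨0,[(44,0)]⟩,⟨0,[]⟩⟩ ⟨true,0,⟨0,[]⟩,⟨0,
  [(44,0)]⟩⟩,.o ⟨false,0,⟨3,[(2,2),(1,2),(16,0),(10,1),(5,1),(3,0)]⟩,⟨1,[(1,1),(39,0),(0,0)]⟩⟩]⟩)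
  (.Q [0,1,0,1,-1,0,-1,-1,1,0,-1,1] (.p false [0,0,1] [0,0,0,0,1] (⟨0,[(30,0)]⟩,⟨0,[(29,0)]⟩) .k 2
  (⟨0,[(23,0)]⟩,⟨0,[(22,0)]⟩) .k (.r 0 ⟨0,[(3,0),(0,1),(33,1),(3,0)]⟩ ⟨1,[(26,1),(0,1),(13,0),(0,
  0)]⟩)) (.R ⟨0,false,false,true,[0,0,0,0,1],[0,-1,1],[0,1],(⟨0,[(24,0)]⟩,⟨0,[(23,0)]⟩),(⟨0,[(20,
  0)]⟩,⟨0,[(30,0),(4,0)]⟩),⟨0,[(1,0)]⟩,.k,.k,(.r (-1) ⟨3,[(17,1),(3,0),(0,0),(20,0)]⟩ ⟨3,[(7,0),(13,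
  0),(0,0),(15,1),(6,1)]⟩),(.r 0 ⟨0,[(14,0),(13,0),(12,0)]⟩ ⟨3,[(4,0),(11,2),(0,0),(25,1)]⟩),.k,.k,
  ⟨true,0,⟨0,[(14,0),(13,0),(12,0)]⟩,⟨0,[(9,0)]⟩⟩,⟨false,1,⟨1,[(2,1),(25,1),(13,0),(0,0)]⟩,⟨1,[(0,
  1),(3,0),(6,0),(31,0)]⟩⟩,⟨true,0,⟨0,[(45,0)]⟩,⟨0,[]⟩⟩,⟨false,1,⟨0,[(2,0),(9,0),(30,0)]⟩,⟨0,[(0,0),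
  (42,0)]⟩⟩,⟨false,0,⟨0,[]⟩,⟨0,[]⟩⟩,⟨false,0,⟨0,[]⟩,⟨0,[]⟩⟩,[.e ⟨false,0,⟨0,[(39,0)]⟩,⟨1,[(21,0),(0,
  0),(20,0)]⟩⟩ ⟨false,1,⟨3,[(2,3),(1,1),(21,1),(1,1),(13,0),(0,0)]⟩,⟨0,[(0,0),(42,0)]⟩⟩,.o ⟨false,1,
  ⟨1,[(12,1),(20,0),(9,0)]⟩,⟨0,[(14,0),(26,0)]⟩⟩,.a ⟨true,0,⟨0,[(22,0)]⟩,⟨1,[(2,1),(34,0),(5,0)]⟩⟩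
  ⟨true,0,⟨0,[(45,0)]⟩,⟨0,[]⟩⟩ ⟨false,1,⟨0,[(2,0),(9,0),(30,0)]⟩,⟨0,[(0,0),(42,0)]⟩⟩,.o ⟨false,0,⟨7,
  [(0,1),(2,2),(0,1),(0,4),(16,2),(5,1),(4,3),(9,0)]⟩,⟨1,[(2,1),(39,0),(0,0)]⟩⟩]⟩) (.S ⟨1,0,[-1,1],
  [1,0,0,0,-1],[-1],(⟨0,[(23,0)]⟩,⟨0,[(24,0)]⟩),⟨0,[(1,0),(17,0),(0,0)]⟩,.k,(.r (-1) ⟨9,[(17,4),(3,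
  1),(0,1),(20,2),(1,0)]⟩ ⟨1,[(7,0),(13,0),(0,0)]⟩),⟨false,1,⟨1,[(21,0),(0,0),(20,0)]⟩,⟨0,[]⟩⟩,
  ⟨true,0,⟨0,[(45,0)]⟩,⟨0,[]⟩⟩,⟨true,0,⟨0,[(41,0)]⟩,⟨0,[(40,0)]⟩⟩,⟨false,0,⟨0,[(41,0)]⟩,⟨13,[(0,1),
  (2,7),(2,1),(14,5),(11,0),(9,6)]⟩⟩,[.o ⟨false,0,⟨0,[(2,0)]⟩,⟨1,[(22,1),(10,0),(9,0)]⟩⟩,.e ⟨false,
  1,⟨0,[(39,0),(3,0)]⟩,⟨0,[(45,0)]⟩⟩ ⟨false,1,⟨9,[(21,3),(0,3),(19,4),(0,0),(1,1)]⟩,⟨0,[]⟩⟩,.a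
  ⟨true,0,⟨1,[(2,1),(34,0),(5,0)]⟩,⟨0,[(22,0)]⟩⟩ ⟨false,1,⟨4,[(21,1),(0,1),(20,2),(1,0)]⟩,⟨0,[]⟩⟩
  ⟨true,0,⟨0,[(45,0)]⟩,⟨0,[]⟩⟩,.o ⟨false,0,⟨1,[(0,0),(1,0),(2,0),(8,0)]⟩,⟨1,[(22,1),(10,0),(8,
  0)]⟩⟩]⟩))) (.Q [-1,1,0,0,0,0,0,0,-1,1,0,-1] (.p false [0,0,0,0,1] [1] (⟨0,[(22,0)]⟩,⟨0,[(21,0)]⟩)
  .k 1 (⟨0,[]⟩,⟨0,[]⟩) .k .k) (.Q [0,0,1,0,-1,0,0,0,1,0,0,1] (.p true [0,0,0,0,1] [] (⟨0,[(23,0)]⟩,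
  ⟨0,[(22,0)]⟩) .k 0 (⟨0,[]⟩,⟨0,[]⟩) .k .k) (.Q [0,0,0,0,0,-1,0,0,0,0,0,1] (.ed false [1,-1,0,0,1]
  .k) (.S ⟨1,0,[1],[0,0,0,0,1],[1,0,1],(⟨0,[(25,0)]⟩,⟨0,[(24,0)]⟩),⟨0,[(0,0)]⟩,.k,(.r (-1) ⟨3,[(18,
  1),(3,0),(0,0),(20,0)]⟩ ⟨3,[(8,0),(13,0),(0,0),(15,1),(6,1)]⟩),⟨true,0,⟨1,[(29,0),(0,0)]⟩,⟨0,[(40,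
  0)]⟩⟩,⟨false,1,⟨1,[(22,0),(0,0),(20,0)]⟩,⟨0,[]⟩⟩,⟨false,0,⟨1,[(8,0),(35,0)]⟩,⟨3,[(18,1),(3,0),(0,
  0),(20,0)]⟩⟩,⟨true,0,⟨0,[(42,0)]⟩,⟨0,[(41,0)]⟩⟩,[.o ⟨false,0,⟨1,[(1,1),(32,0),(8,0)]⟩,⟨2,[(2,1),
  (19,0),(11,0),(9,0)]⟩⟩,.e ⟨false,1,⟨1,[(22,0),(0,0),(20,0)]⟩,⟨0,[(40,0)]⟩⟩ ⟨false,1,⟨1,[(43,0),(0,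
  0)]⟩,⟨0,[(46,0)]⟩⟩,.o ⟨false,0,⟨1,[(1,1),(32,0),(8,0)]⟩,⟨0,[(22,0)]⟩⟩,.a ⟨true,(-1),⟨0,[(1,0)]⟩,
  ⟨1,[(2,1),(40,0),(0,0)]⟩⟩ ⟨true,0,⟨0,[]⟩,⟨0,[(46,0)]⟩⟩ ⟨false,1,⟨1,[(43,0),(0,0)]⟩,⟨1,[(29,0),(0,
  0)]⟩⟩]⟩) (.Q [0,0,1,-1,-1,0,0,0,1,0,0,1] (.p true [0,0,0,0,1] [] (⟨0,[(25,0)]⟩,⟨0,[(24,0)]⟩) .k 0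
  (⟨0,[]⟩,⟨0,[]⟩) .k .k) (.R ⟨0,false,false,true,[0,0,0,0,1],[0,1],[0,1],(⟨0,[(26,0)]⟩,⟨0,[(25,
  0)]⟩),(⟨0,[(37,0)]⟩,⟨0,[(36,0)]⟩),⟨0,[(1,0)]⟩,.k,.k,(.r (-1) ⟨3,[(19,1),(3,0),(0,0),(20,0)]⟩ ⟨3,
  [(9,0),(13,0),(0,0),(15,1),(6,1)]⟩),(.r (-1) ⟨3,[(19,1),(3,0),(0,0),(20,0)]⟩ ⟨3,[(9,0),(13,0),(0,
  0),(15,1),(6,1)]⟩),.k,.k,⟨true,1,⟨3,[(19,1),(3,0),(0,0),(20,0)]⟩,⟨0,[(7,0)]⟩⟩,⟨false,2,⟨0,[(23,0),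
  (20,0)]⟩,⟨0,[(2,0)]⟩⟩,⟨true,0,⟨0,[(47,0)]⟩,⟨0,[]⟩⟩,⟨false,1,⟨0,[(23,0),(19,0)]⟩,⟨1,[(0,1),(43,0),
  (0,0)]⟩⟩,⟨false,0,⟨0,[]⟩,⟨0,[]⟩⟩,⟨false,0,⟨0,[]⟩,⟨0,[]⟩⟩,[.o ⟨false,0,⟨1,[(9,0),(25,0),(5,1)]⟩,⟨0,
  [(42,0),(2,0)]⟩⟩,.a ⟨true,0,⟨0,[(43,0)]⟩,⟨21,[(3,7),(1,7),(0,1),(1,3),(6,1),(14,3),(8,4),(5,6)]⟩⟩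
  ⟨false,1,⟨1,[(23,0),(0,0),(19,0)]⟩,⟨0,[]⟩⟩ ⟨true,1,⟨0,[(23,0),(19,0)]⟩,⟨0,[(0,0)]⟩⟩,.o ⟨false,0,
  ⟨1,[(2,1),(32,0),(8,0)]⟩,⟨0,[(23,0)]⟩⟩,.e ⟨true,0,⟨0,[(41,0)]⟩,⟨1,[(30,0),(0,0)]⟩⟩ ⟨true,1,⟨1,[(3,
  1),(31,0),(7,1),(0,0)]⟩,⟨0,[(0,0)]⟩⟩]⟩) (.R ⟨1,false,false,false,[1,0,0,0,-1],[0,1],[-1],(⟨0,[(25,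
  0)]⟩,⟨0,[(26,0)]⟩),(⟨0,[(37,0)]⟩,⟨0,[(36,0)]⟩),⟨0,[(1,0),(19,0),(0,0)]⟩,.k,.k,(.r (-1) ⟨9,[(19,4),
  (3,1),(0,1),(20,2),(1,0)]⟩ ⟨1,[(9,0),(13,0),(0,0)]⟩),(.r (-1) ⟨9,[(19,4),(3,1),(0,1),(20,2),(1,
  0)]⟩ ⟨1,[(9,0),(13,0),(0,0)]⟩),(.r (-2) ⟨1,[(19,1),(3,0),(0,0),(20,0)]⟩ ⟨0,[(9,0)]⟩),.k,⟨true,1,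
  ⟨9,[(19,4),(3,1),(0,1),(20,2),(1,0)]⟩,⟨0,[(7,0)]⟩⟩,⟨false,1,⟨1,[(2,1),(32,0),(8,2)]⟩,⟨3,[(0,0),(2,
  2),(3,1),(0,0),(2,0),(18,0),(14,1)]⟩⟩,⟨false,1,⟨1,[(23,0),(0,0),(20,0)]⟩,⟨0,[]⟩⟩,⟨true,0,⟨1,[(2,
  1),(32,0),(7,1),(0,0)]⟩,⟨1,[(0,0),(2,0),(2,0),(0,0),(0,0),(21,0)]⟩⟩,⟨true,0,⟨0,[(43,0)]⟩,⟨0,[(42,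
  0)]⟩⟩,⟨true,0,⟨1,[(2,1),(32,0),(7,3),(0,0)]⟩,⟨0,[(0,0),(5,0),(0,0),(0,0),(21,0)]⟩⟩,[.a ⟨true,0,⟨0,
  [(43,0)]⟩,⟨21,[(3,7),(1,7),(0,1),(1,3),(6,1),(14,3),(8,4),(5,6)]⟩⟩ ⟨false,1,⟨9,[(23,3),(0,3),(19,
  4),(0,0),(1,1)]⟩,⟨0,[]⟩⟩ ⟨true,0,⟨1,[(2,1),(32,0),(7,1),(0,0)]⟩,⟨3,[(0,2),(2,0),(3,1),(0,2),(2,2),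
  (18,2),(14,1)]⟩⟩,.o ⟨false,1,⟨1,[(35,0),(7,1),(1,0)]⟩,⟨0,[(42,0)]⟩⟩,.o ⟨false,1,⟨0,[(23,0)]⟩,⟨1,
  [(2,1),(32,0),(8,0)]⟩⟩,.e ⟨false,1,⟨0,[(41,0),(3,0)]⟩,⟨1,[(30,0),(0,0)]⟩⟩ ⟨false,1,⟨1,[(4,1),(30,
  0),(7,1),(0,0)]⟩,⟨3,[(0,2),(2,0),(3,1),(0,2),(2,2),(18,2),(14,1)]⟩⟩]⟩))) (.R ⟨2,true,false,false,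
  [0,1],[0,0,0,0,1],[1,0,1],(⟨0,[]⟩,⟨0,[]⟩),(⟨0,[(24,0)]⟩,⟨0,[(23,0)]⟩),⟨0,[]⟩,.k,.k,.k,(.r 0 ⟨3,
  [(7,0),(13,0),(0,0),(15,1),(6,1)]⟩ ⟨3,[(17,1),(3,0),(0,0),(20,0)]⟩),.k,.k,⟨true,0,⟨1,[(28,0),(0,
  0)]⟩,⟨0,[]⟩⟩,⟨false,0,⟨0,[(22,0)]⟩,⟨0,[(0,0)]⟩⟩,⟨false,1,⟨0,[(40,0),(2,0)]⟩,⟨0,[(41,0)]⟩⟩,⟨true,0,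
  ⟨0,[(3,0)]⟩,⟨0,[(0,0),(4,0),(33,0)]⟩⟩,⟨true,0,⟨0,[]⟩,⟨0,[(45,0)]⟩⟩,⟨false,0,⟨0,[(2,0)]⟩,⟨1,[(0,0),
  (20,0),(22,0)]⟩⟩,[]⟩)) (.Q [1,0,0,0,-1,0,0,0,1,0,0,1] (.p true [0,0,0,0,1] [] (⟨0,[(23,0)]⟩,⟨0,
  [(22,0)]⟩) .k 0 (⟨0,[]⟩,⟨0,[]⟩) .k .k) (.R ⟨2,true,false,true,[0,1],[0,0,0,0,1],[0,1],(⟨0,[]⟩,⟨0,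
  []⟩),(⟨0,[(24,0)]⟩,⟨0,[(23,0)]⟩),⟨0,[]⟩,.k,.k,.k,(.r 0 ⟨3,[(7,0),(13,0),(0,0),(15,1),(6,1)]⟩ ⟨3,
  [(17,1),(3,0),(0,0),(20,0)]⟩),.k,.k,⟨false,1,⟨9,[(21,3),(0,3),(19,4),(0,0),(1,1)]⟩,⟨0,[]⟩⟩,⟨true,
  (-1),⟨3,[(0,2),(2,0),(1,0),(38,1)]⟩,⟨0,[(21,0)]⟩⟩,⟨false,1,⟨3,[(17,1),(3,0),(0,0),(20,0)]⟩,⟨0,
  [(38,0)]⟩⟩,⟨true,(-1),⟨0,[(0,0),(39,0)]⟩,⟨0,[(21,0),(19,0)]⟩⟩,⟨true,0,⟨0,[(39,0)]⟩,⟨1,[(28,0),(0,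
  0)]⟩⟩,⟨false,(-1),⟨0,[(0,0)]⟩,⟨4,[(21,6),(0,1),(20,2),(1,0)]⟩⟩,[]⟩) (.R ⟨1,false,false,true,[0,0,
  1],[1,0,0,0,-1],[0,1,0,0,0,0,0,1],(⟨0,[(31,0)]⟩,⟨0,[(30,0)]⟩),(⟨0,[(23,0)]⟩,⟨0,[(24,0)]⟩),⟨0,[(20,
  0)]⟩,.k,.k,.k,.k,(.r (-1) ⟨3,[(0,0),(3,1),(11,1),(5,0),(20,0)]⟩ ⟨0,[(14,0),(13,0),(12,0)]⟩),.k,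
  ⟨true,0,⟨0,[(11,0)]⟩,⟨0,[(14,0),(13,0)]⟩⟩,⟨false,1,⟨0,[(0,0),(24,0)]⟩,⟨0,[(1,0),(26,0),(10,0)]⟩⟩,
  ⟨true,0,⟨0,[(45,0)]⟩,⟨0,[]⟩⟩,⟨true,0,⟨0,[(0,0),(9,0)]⟩,⟨0,[(1,0),(24,0)]⟩⟩,⟨false,0,⟨0,[(41,0)]⟩,
  ⟨0,[(40,0),(2,0)]⟩⟩,⟨true,0,⟨0,[(0,0),(9,0),(30,0)]⟩,⟨0,[(1,0),(10,0)]⟩⟩,[.o ⟨false,1,⟨0,[(0,0),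
  (44,0)]⟩,⟨0,[(1,0)]⟩⟩,.o ⟨false,1,⟨0,[(0,0)]⟩,⟨5,[(1,3),(1,0),(1,0),(16,0),(10,0),(2,1)]⟩⟩,.o
  ⟨false,1,⟨1,[(28,1),(4,0),(8,0)]⟩,⟨0,[(15,0)]⟩⟩,.a ⟨true,0,⟨0,[(28,0)]⟩,⟨0,[(25,0)]⟩⟩ ⟨true,0,⟨0,
  [(11,0),(27,0)]⟩,⟨0,[(14,0),(13,0)]⟩⟩ ⟨false,1,⟨0,[(0,0),(24,0)]⟩,⟨0,[(1,0),(26,0)]⟩⟩]⟩)))))

theorem ok11 : chk K t11 r13 = true := by decide +kernel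

noncomputable def t17 : Tre :=
  (.S ⟨1,0,[0,0,0,0,0,0,0,1],[0,0,1],[0,1],(⟨0,[(22,0)]⟩,⟨0,[(21,0)]⟩),⟨0,[(11,0)]⟩,.k,.k,⟨true,0,
  ⟨0,[(0,0),(30,0)]⟩,⟨0,[(2,0)]⟩⟩,⟨false,1,⟨1,[(12,0),(0,0),(20,0)]⟩,⟨0,[]⟩⟩,⟨false,0,⟨0,[(0,0)]⟩,
  ⟨0,[(4,0),(29,0)]⟩⟩,⟨true,0,⟨0,[(32,0)]⟩,⟨0,[(31,0)]⟩⟩,[.o ⟨false,1,⟨1,[(17,1),(6,0),(9,0)]⟩,⟨0,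
  [(5,0)]⟩⟩,.e ⟨false,1,⟨1,[(12,0),(0,0),(19,0)]⟩,⟨0,[]⟩⟩ ⟨false,1,⟨1,[(2,1),(30,0),(0,0)]⟩,⟨0,[(0,
  0),(30,0)]⟩⟩,.o ⟨false,1,⟨1,[(19,1),(4,0),(8,0)]⟩,⟨0,[(6,0)]⟩⟩,.a ⟨true,0,⟨0,[(19,0)]⟩,⟨0,[(16,
  0)]⟩⟩ ⟨true,0,⟨0,[(30,0)]⟩,⟨1,[(19,0),(0,0)]⟩⟩ ⟨false,1,⟨1,[(2,1),(30,0),(0,0)]⟩,⟨0,[(5,0),(13,
  0)]⟩⟩]⟩)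

theorem ok17 : chk K t17 r8 = true := by decide +kernel

noncomputable def t20 : Tre :=
  (.Q [0,0,-1,0,1,0,1,0,0,-1,1] (.p true [0,0,1] [1] (⟨0,[(20,0)]⟩,⟨0,[(19,0)]⟩) .k 1 (⟨0,[]⟩,⟨0,
  []⟩) .k .k) (.S ⟨1,0,[0,0,0,0,0,0,0,-1],[1,0,-1],[0,1,0,0,0,0,0,-1],(⟨0,[(20,0)]⟩,⟨0,[(21,0)]⟩),
  ⟨0,[(9,0)]⟩,.k,.k,⟨true,0,⟨0,[(35,0)]⟩,⟨0,[]⟩⟩,⟨false,1,⟨1,[(11,0),(0,0),(20,0)]⟩,⟨0,[]⟩⟩,⟨false,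
  0,⟨0,[(31,0)]⟩,⟨0,[(30,0),(2,0)]⟩⟩,⟨true,0,⟨0,[(31,0)]⟩,⟨0,[(30,0)]⟩⟩,[.o ⟨false,0,⟨0,[(4,0)]⟩,⟨1,
  [(16,1),(6,0),(9,0)]⟩⟩,.a ⟨true,0,⟨1,[(4,1),(22,0),(5,0)]⟩,⟨0,[(16,0)]⟩⟩ ⟨true,0,⟨0,[(1,0)]⟩,⟨0,
  [(3,0),(24,0)]⟩⟩ ⟨false,1,⟨1,[(1,1),(30,0),(0,0)]⟩,⟨0,[(6,0)]⟩⟩,.o ⟨false,0,⟨0,[(5,0)]⟩,⟨3,[(0,1),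
  (10,0),(0,0),(5,1),(4,0)]⟩⟩,.o ⟨false,0,⟨0,[(19,0)]⟩,⟨0,[(0,0)]⟩⟩]⟩) (.I [1,1,-1,-1] (.R ⟨1,false,
  false,true,[1,-1],[1,-1,-1],[0,1,-1,-1],(⟨0,[(25,0)]⟩,⟨0,[(26,0)]⟩),(⟨0,[(10,0)]⟩,⟨0,[(22,0),(3,
  0)]⟩),⟨0,[(10,0),(0,0)]⟩,.k,.k,(.r (-1) ⟨0,[(0,1),(33,0)]⟩ ⟨0,[(29,1),(6,1)]⟩),.k,.k,.k,⟨false,1,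
  ⟨1,[(7,1),(25,0),(0,0)]⟩,⟨0,[(2,0)]⟩⟩,⟨true,0,⟨0,[(6,0)]⟩,⟨0,[(19,0)]⟩⟩,⟨true,0,⟨0,[(36,0)]⟩,⟨0,
  []⟩⟩,⟨false,0,⟨0,[(5,0)]⟩,⟨0,[(17,0),(16,0)]⟩⟩,⟨false,0,⟨0,[(32,0)]⟩,⟨0,[(31,0),(2,0)]⟩⟩,⟨false,0,
  ⟨0,[(5,0),(26,0)]⟩,⟨0,[(3,0),(30,0)]⟩⟩,[.a ⟨true,(-1),⟨0,[(0,0),(0,0),(0,0)]⟩,⟨0,[(17,0),(14,0),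
  (1,0)]⟩⟩ ⟨false,1,⟨7,[(8,3),(3,0),(0,0),(13,1),(5,2)]⟩,⟨0,[(29,0)]⟩⟩ ⟨true,0,⟨0,[(0,0),(4,0)]⟩,⟨0,
  [(3,0),(25,1)]⟩⟩,.o ⟨false,0,⟨1,[(0,1),(0,1),(0,1),(21,0),(9,0)]⟩,⟨1,[(17,1),(6,0),(7,1),(1,0)]⟩⟩,
  .o ⟨false,0,⟨1,[(19,0),(0,0)]⟩,⟨1,[(24,0),(8,0)]⟩⟩,.e ⟨false,1,⟨1,[(0,1),(32,0),(0,0)]⟩,⟨1,[(19,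
  0),(0,0),(8,1)]⟩⟩ ⟨false,1,⟨1,[(0,1),(4,1),(27,0),(0,0)]⟩,⟨0,[(3,0),(25,1)]⟩⟩]⟩) (.I [0,-1,-1,0,1,
  0,0,1] (.S ⟨1,0,[0,0,1,1,0,0,0,-1],[1,1,-1],[1,1,1,0,0,0,0,-1],(⟨0,[(22,0),(4,0)]⟩,⟨0,[(12,0)]⟩),
  ⟨0,[(22,0)]⟩,.k,.k,⟨true,0,⟨0,[(32,0)]⟩,⟨0,[(33,0)]⟩⟩,⟨false,1,⟨1,[(13,0),(0,0),(20,0)]⟩,⟨0,[]⟩⟩,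
  ⟨false,0,⟨0,[]⟩,⟨1,[(13,0),(0,0),(20,0)]⟩⟩,⟨true,0,⟨0,[(33,0)]⟩,⟨0,[(32,0)]⟩⟩,[.o ⟨false,0,⟨0,[(6,
  0),(26,0)]⟩,⟨1,[(4,1),(20,0),(9,0)]⟩⟩,.a ⟨true,0,⟨0,[(3,0),(13,0),(12,0)]⟩,⟨0,[(4,0)]⟩⟩ ⟨false,0,
  ⟨0,[(3,0)]⟩,⟨3,[(0,2),(7,0),(4,0),(0,0),(13,0)]⟩⟩ ⟨true,0,⟨0,[(3,0),(26,0)]⟩,⟨0,[(5,0)]⟩⟩,.e
  ⟨false,0,⟨0,[(6,0),(13,0)]⟩,⟨0,[(0,0)]⟩⟩ ⟨false,0,⟨0,[(3,0),(26,0)]⟩,⟨7,[(0,3),(4,3),(3,1),(3,0),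
  (0,0),(20,0)]⟩⟩,.o ⟨false,0,⟨0,[(7,0)]⟩,⟨1,[(20,1),(4,0),(8,0)]⟩⟩]⟩) (.Q [0,-1,0,2,0,0,-1,-1,0,0,
  -1] (.p false [0,0,1] [] (⟨0,[(23,0)]⟩,⟨0,[(22,0)]⟩) .k 0 (⟨0,[]⟩,⟨0,[]⟩) .k .k) (.R ⟨1,true,
  false,false,[0,0,1],[0,1],[0,0,0,0,0,0,0,1],(⟨0,[(24,0)]⟩,⟨0,[(23,0)]⟩),(⟨0,[(28,0)]⟩,⟨0,[(27,
  0)]⟩),⟨0,[(13,0)]⟩,.k,.k,.k,.k,(.r (-2) ⟨0,[(9,0),(0,0),(25,0)]⟩ ⟨0,[(1,0),(29,0),(2,0)]⟩),.k,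
  ⟨true,1,⟨1,[(6,1),(28,0),(0,0)]⟩,⟨0,[(1,0),(29,0)]⟩⟩,⟨false,1,⟨1,[(18,1),(7,0),(8,0)]⟩,⟨0,[(21,
  0)]⟩⟩,⟨false,1,⟨1,[(14,0),(0,0),(20,0)]⟩,⟨0,[]⟩⟩,⟨true,0,⟨1,[(0,0),(19,0)]⟩,⟨0,[(5,0)]⟩⟩,⟨true,0,
  ⟨0,[(34,0)]⟩,⟨0,[(33,0)]⟩⟩,⟨false,0,⟨0,[(0,0)]⟩,⟨0,[(5,0),(27,0),(2,0)]⟩⟩,[]⟩) (.I [0,0,-2,-1,1]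
  (.R ⟨1,false,false,true,[1,-1],[1,-1,-1],[0,1,-1,-1],(⟨0,[(28,0)]⟩,⟨0,[(29,0)]⟩),(⟨0,[(13,0)]⟩,⟨0,
  [(25,0),(3,0)]⟩),⟨0,[(13,0),(0,0)]⟩,.k,.k,(.x 0 ⟨0,[(22,0),(0,0),(5,1)]⟩ ⟨0,[(26,1),(6,1),(3,
  0)]⟩),.k,.k,.k,⟨false,1,⟨1,[(10,1),(25,0),(0,0)]⟩,⟨0,[(5,0)]⟩⟩,⟨true,0,⟨0,[(9,0)]⟩,⟨0,[(22,0)]⟩⟩,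
  ⟨true,0,⟨0,[(39,0)]⟩,⟨0,[]⟩⟩,⟨false,0,⟨0,[(8,0)]⟩,⟨0,[(20,0),(16,0)]⟩⟩,⟨false,0,⟨0,[(35,0)]⟩,⟨0,
  [(34,0),(2,0)]⟩⟩,⟨false,0,⟨0,[(8,0),(26,0)]⟩,⟨1,[(1,0),(18,0),(16,1)]⟩⟩,[.a ⟨true,(-1),⟨0,[(0,0),
  (1,0),(1,0)]⟩,⟨0,[(20,0),(14,0),(1,0)]⟩⟩ ⟨false,1,⟨7,[(11,3),(3,0),(0,0),(13,1),(5,2)]⟩,⟨0,[(32,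
  0)]⟩⟩ ⟨true,0,⟨0,[(0,0),(1,0),(6,0)]⟩,⟨1,[(1,0),(18,0),(11,3)]⟩⟩,.o ⟨false,0,⟨1,[(0,1),(1,1),(1,
  1),(22,0),(9,0)]⟩,⟨1,[(20,1),(6,0),(7,1),(1,0)]⟩⟩,.o ⟨false,0,⟨1,[(22,0),(0,0)]⟩,⟨1,[(27,0),(8,
  0)]⟩⟩,.e ⟨false,1,⟨0,[(0,0)]⟩,⟨1,[(22,0),(0,0),(8,1)]⟩⟩ ⟨false,1,⟨0,[(0,0),(7,0)]⟩,⟨1,[(1,0),(18,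
  0),(11,3)]⟩⟩]⟩) (.I [0,0,0,1,0,0,0,1] (.R ⟨1,false,false,true,[1,0,-1],[1,-1],[0,1],(⟨0,[(25,0)]⟩,
  ⟨0,[(26,0)]⟩),(⟨0,[(29,0)]⟩,⟨0,[(30,0)]⟩),⟨0,[(14,0)]⟩,.k,.k,.k,.k,.k,.k,⟨false,0,⟨0,[(36,0)]⟩,⟨3,
  [(12,1),(3,0),(0,0),(20,0)]⟩⟩,⟨true,0,⟨0,[(23,0)]⟩,⟨0,[(10,0)]⟩⟩,⟨true,0,⟨0,[(11,0)]⟩,⟨0,[(6,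
  0)]⟩⟩,⟨true,0,⟨0,[(7,0)]⟩,⟨0,[(9,0),(26,0)]⟩⟩,⟨false,0,⟨0,[(0,0)]⟩,⟨0,[(6,0),(28,0),(2,0)]⟩⟩,
  ⟨true,0,⟨0,[(21,0)]⟩,⟨0,[(9,0)]⟩⟩,[.o ⟨false,0,⟨0,[(35,0)]⟩,⟨1,[(28,0),(7,1),(1,0)]⟩⟩,.e ⟨false,1,
  ⟨1,[(16,0),(0,0),(19,0)]⟩,⟨0,[]⟩⟩ ⟨false,1,⟨3,[(2,1),(3,1),(16,1),(13,2),(0,0)]⟩,⟨0,[(10,0),(25,
  0)]⟩⟩,.o ⟨false,0,⟨0,[(10,0)]⟩,⟨1,[(23,1),(4,0),(8,0)]⟩⟩,.a ⟨true,(-1),⟨0,[(5,0)]⟩,⟨0,[(23,0),(13,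
  0)]⟩⟩ ⟨true,0,⟨0,[(34,0)]⟩,⟨1,[(23,0),(0,0)]⟩⟩ ⟨false,1,⟨3,[(2,1),(3,1),(16,1),(13,2),(0,0)]⟩,⟨0,
  [(10,0),(22,0)]⟩⟩]⟩) (.Q [-1,0,0,1,0,0,0,0,-1,0,0,-1] (.p false [0,0,0,0,1] [] (⟨0,[(19,0)]⟩,⟨0,
  [(18,0)]⟩) .k 0 (⟨0,[]⟩,⟨0,[]⟩) .k .k) (.R ⟨2,true,false,true,[0,1],[0,0,0,0,1],[2,1],(⟨0,[]⟩,⟨0,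
  []⟩),(⟨0,[(20,0)]⟩,⟨0,[(19,0)]⟩),⟨0,[]⟩,.k,.k,.k,(.r 0 ⟨0,[(34,0),(6,0)]⟩ ⟨3,[(13,1),(3,0),(0,0),
  (20,0)]⟩),.k,.k,⟨true,0,⟨0,[]⟩,⟨1,[(24,0),(0,0)]⟩⟩,⟨false,0,⟨0,[(18,0)]⟩,⟨5,[(0,3),(12,1),(3,1),
  (20,0),(0,0)]⟩⟩,⟨false,1,⟨3,[(13,1),(3,0),(0,0),(20,0)]⟩,⟨0,[(2,0),(32,0),(3,0)]⟩⟩,⟨true,0,⟨0,
  [(18,0),(17,0)]⟩,⟨0,[(0,0)]⟩⟩,⟨true,0,⟨0,[(35,0)]⟩,⟨0,[(40,0)]⟩⟩,⟨false,0,⟨0,[(18,0)]⟩,⟨4,[(0,2),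
  (0,0),(1,0),(7,0),(5,1),(21,2)]⟩⟩,[]⟩) (.Q [-2,0,0,1,0,0,0,0,-2,1,0,-2] (.p false [0,0,0,0,1] [1,
  0,0,0,-1] (⟨0,[(20,0)]⟩,⟨0,[(19,0)]⟩) .k 2 (⟨0,[(19,0)]⟩,⟨0,[(20,0)]⟩) .k (.r 0 ⟨0,[]⟩ ⟨4,[(17,2),
  (0,2),(20,1),(1,3)]⟩)) (.Q [0,0,0,0,0,-1,0,0,0,0,0,1] (.ed false [1,-1,0,0,1] .k) (.S ⟨1,0,[1],[0,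
  0,0,0,1],[0,1],(⟨0,[(22,0)]⟩,⟨0,[(21,0)]⟩),⟨0,[(0,0)]⟩,.k,(.r (-1) ⟨3,[(15,1),(3,0),(0,0),(20,
  0)]⟩ ⟨0,[(36,0),(6,0)]⟩),⟨true,0,⟨0,[(43,0)]⟩,⟨0,[]⟩⟩,⟨false,1,⟨1,[(19,0),(0,0),(20,0)]⟩,⟨0,[]⟩⟩,
  ⟨false,0,⟨0,[(4,0),(32,1),(3,0)]⟩,⟨10,[(2,2),(0,1),(1,1),(9,0),(3,2),(7,1),(13,6)]⟩⟩,⟨true,0,⟨0,
  [(39,0)]⟩,⟨0,[(38,0)]⟩⟩,[.a ⟨true,0,⟨0,[(20,0)]⟩,⟨35,[(1,15),(1,3),(1,3),(9,1),(0,1),(2,3),(15,8),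
  (5,2),(0,3)]⟩⟩ ⟨false,0,⟨0,[(37,0)]⟩,⟨1,[(19,0),(0,0),(20,0)]⟩⟩ ⟨true,0,⟨0,[]⟩,⟨1,[(26,0),(0,
  0)]⟩⟩,.o ⟨false,1,⟨1,[(20,1),(10,0),(9,0)]⟩,⟨11,[(1,5),(4,3),(4,3),(3,0),(15,2),(2,0),(2,0)]⟩⟩,.e
  ⟨true,0,⟨0,[(43,0)]⟩,⟨0,[]⟩⟩ ⟨true,0,⟨0,[]⟩,⟨0,[(43,0)]⟩⟩,.o ⟨false,0,⟨3,[(2,2),(1,2),(15,0),(10,
  1),(5,1),(3,0)]⟩,⟨9,[(1,3),(13,1),(3,1),(11,1),(8,2),(0,0)]⟩⟩]⟩) (.S ⟨1,0,[-1,1],[1,0,0,0,-1],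
  [-1],(⟨0,[(21,0)]⟩,⟨0,[(22,0)]⟩),⟨0,[(0,0),(16,0),(0,0)]⟩,.k,(.r (-1) ⟨9,[(15,4),(3,1),(0,1),(20,
  2),(1,0)]⟩ ⟨0,[(36,0),(6,0)]⟩),⟨false,1,⟨1,[(19,0),(0,0),(20,0)]⟩,⟨0,[]⟩⟩,⟨true,0,⟨0,[(43,0)]⟩,⟨0,
  []⟩⟩,⟨true,0,⟨0,[(39,0)]⟩,⟨0,[(38,0)]⟩⟩,⟨false,0,⟨0,[(39,0)]⟩,⟨10,[(2,2),(0,1),(1,1),(9,0),(3,2),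
  (7,1),(13,6)]⟩⟩,[.o ⟨false,0,⟨11,[(1,5),(4,3),(4,3),(3,0),(15,2),(2,0),(2,0)]⟩,⟨1,[(20,1),(10,0),
  (9,0)]⟩⟩,.e ⟨false,1,⟨0,[(37,0),(3,0)]⟩,⟨0,[(43,0)]⟩⟩ ⟨false,1,⟨9,[(19,3),(0,3),(19,4),(0,0),(1,
  1)]⟩,⟨0,[]⟩⟩,.a ⟨true,0,⟨14,[(1,5),(1,1),(1,1),(10,0),(2,2),(15,3),(5,0)]⟩,⟨0,[(20,0)]⟩⟩ ⟨false,1,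
  ⟨4,[(19,1),(0,1),(20,2),(1,0)]⟩,⟨0,[]⟩⟩ ⟨true,0,⟨0,[(43,0)]⟩,⟨0,[]⟩⟩,.o ⟨false,0,⟨13,[(1,6),(1,3),
  (0,4),(0,3),(2,0),(18,2),(3,3),(9,1)]⟩,⟨1,[(20,1),(10,0),(8,0)]⟩⟩]⟩)) (.Q [0,-1,0,2,1,0,1,1,0,-1,
  1] (.p true [0,0,1] [1] (⟨0,[(28,0)]⟩,⟨0,[(27,0)]⟩) .k 1 (⟨0,[]⟩,⟨0,[]⟩) .k .k) (.I [0,0,2,0,-1,2,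
  -1] (.R ⟨1,false,false,false,[1,0,-1],[0,1],[],(⟨0,[(29,0)]⟩,⟨0,[(30,0)]⟩),(⟨0,[(34,0)]⟩,⟨0,[(33,
  0)]⟩),⟨0,[(18,0)]⟩,.k,.k,.k,.k,(.x 1 ⟨0,[(0,0)]⟩ ⟨1,[(18,1),(8,1),(3,1),(0,0),(8,2)]⟩),.k,⟨true,1,
  ⟨3,[(16,1),(3,0),(0,0),(20,0)]⟩,⟨0,[(5,0)]⟩⟩,⟨false,2,⟨1,[(27,1),(4,0),(8,2)]⟩,⟨0,[(9,0)]⟩⟩,
  ⟨false,1,⟨3,[(1,0),(10,1),(4,0),(7,0),(16,2)]⟩,⟨0,[(10,0)]⟩⟩,⟨true,1,⟨6,[(1,3),(0,0),(17,1),(4,2),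
  (6,0),(11,0)]⟩,⟨0,[(4,0),(4,0),(28,0)]⟩⟩,⟨false,1,⟨1,[(1,0),(15,0),(7,0),(16,0)]⟩,⟨0,[(4,0)]⟩⟩,
  ⟨false,1,⟨0,[(1,0)]⟩,⟨5,[(4,7),(1,1),(10,3),(18,0),(5,0)]⟩⟩,[.e ⟨false,1,⟨1,[(20,0),(0,0),(19,
  0)]⟩,⟨0,[]⟩⟩ ⟨false,1,⟨0,[(1,0),(2,0),(33,0)]⟩,⟨5,[(4,1),(1,1),(10,3),(18,0),(5,0)]⟩⟩,.o ⟨false,1,
  ⟨3,[(1,1),(11,1),(18,0),(9,0)]⟩,⟨0,[(39,0)]⟩⟩,.o ⟨false,0,⟨0,[(14,0)]⟩,⟨1,[(27,1),(4,0),(8,0)]⟩⟩,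
  .a ⟨true,(-1),⟨0,[(9,0)]⟩,⟨0,[(27,0),(13,0)]⟩⟩ ⟨false,1,⟨1,[(41,0),(0,0)]⟩,⟨1,[(27,0),(0,0)]⟩⟩
  ⟨true,1,⟨0,[(1,0),(2,0),(33,0)]⟩,⟨0,[(9,0),(29,0)]⟩⟩]⟩) (.Q [0,0,0,1,-1,0,-2,-2,0,1,-2] (.p false
  [0,0,1] [1,0,-1] (⟨0,[(30,0)]⟩,⟨0,[(29,0)]⟩) .k 2 (⟨0,[(29,0)]⟩,⟨0,[(30,0)]⟩) .k (.r (-1) ⟨1,[(1,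
  0),(10,1),(4,0),(7,0),(16,0)]⟩ ⟨0,[(10,1)]⟩)) (.I [0,0,-1,-1,1,0,0,2] (.R ⟨1,true,false,true,[0,0,
  1],[1,0,-1],[0,0,0,0,0,0,0,1],(⟨0,[(32,0)]⟩,⟨0,[(31,0)]⟩),(⟨0,[(31,0)]⟩,⟨0,[(32,0)]⟩),⟨0,[(21,
  0)]⟩,.k,.k,.k,.k,(.r (-1) ⟨0,[(0,0)]⟩ ⟨13,[(1,5),(1,3),(8,13),(15,5),(0,13),(4,0),(9,0)]⟩),.k,
  ⟨true,1,⟨0,[(0,0),(38,0)]⟩,⟨0,[(9,0),(2,0)]⟩⟩,⟨false,0,⟨0,[(16,0),(9,0)]⟩,⟨0,[(3,0),(2,1),(20,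
  0)]⟩⟩,⟨false,1,⟨1,[(22,0),(0,0),(20,0)]⟩,⟨0,[]⟩⟩,⟨true,(-1),⟨0,[(1,0),(39,0)]⟩,⟨0,[(3,0),(4,0)]⟩⟩,
  ⟨true,0,⟨0,[(42,0)]⟩,⟨0,[(41,0)]⟩⟩,⟨false,(-1),⟨0,[(1,0)]⟩,⟨31,[(0,11),(2,17),(4,21),(9,5),(10,
  23),(4,6),(9,20)]⟩⟩,[]⟩) (.R ⟨1,true,false,true,[0,0,1],[1,0,-1],[0,0,0,0,0,0,0,1],(⟨0,[(32,0)]⟩,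
  ⟨0,[(31,0)]⟩),(⟨0,[(31,0)]⟩,⟨0,[(32,0)]⟩),⟨0,[(21,0)]⟩,.k,.k,.k,.k,(.x 0 ⟨1,[(0,0),(1,2),(4,2),(0,
  1),(2,0),(19,0),(2,0),(1,7),(7,0)]⟩ ⟨1,[(19,1),(1,1),(10,1),(1,0),(8,0)]⟩),.k,⟨true,1,⟨1,[(3,1),
  (4,1),(2,0),(4,1),(9,0),(17,0)]⟩,⟨6,[(0,2),(5,2),(2,3),(18,0),(0,0),(7,0)]⟩⟩,⟨false,0,⟨0,[(16,0),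
  (9,0)]⟩,⟨1,[(0,0),(2,1),(2,0),(1,0),(9,0),(10,0)]⟩⟩,⟨false,1,⟨1,[(22,0),(0,0),(20,0)]⟩,⟨0,[]⟩⟩,
  ⟨true,(-1),⟨0,[(1,0),(39,0)]⟩,⟨0,[(3,0),(4,0)]⟩⟩,⟨true,0,⟨0,[(42,0)]⟩,⟨0,[(41,0)]⟩⟩,⟨false,(-1),
  ⟨0,[(1,0)]⟩,⟨7,[(3,5),(0,1),(3,8),(13,3),(4,0),(16,5)]⟩⟩,[]⟩)) (.Q [0,0,0,2,-1,0,-2,-2,0,1,-2]
  (.p false [0,0,1] [1,0,-1] (⟨0,[(31,0)]⟩,⟨0,[(30,0)]⟩) .k 2 (⟨0,[(30,0)]⟩,⟨0,[(31,0)]⟩) .k (.r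
  (-1) ⟨2,[(0,1),(1,0),(15,2),(7,0)]⟩ ⟨0,[(11,1)]⟩)) (.R ⟨1,true,false,true,[0,0,1],[1,1,-1],[0,0,0,
  0,0,0,0,1],(⟨0,[(32,0)]⟩,⟨0,[(31,0)]⟩),(⟨0,[(31,0),(4,0)]⟩,⟨0,[(21,0)]⟩),⟨0,[(21,0)]⟩,.k,.k,.k,
  (.r (-1) ⟨0,[(1,0),(14,0),(9,0)]⟩ ⟨7,[(0,2),(2,0),(8,7),(15,2),(0,7),(4,0),(9,0)]⟩),(.r (-2) ⟨3,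
  [(1,3),(16,1),(0,1),(6,3),(7,0),(9,0)]⟩ ⟨2,[(0,0),(2,0),(5,2),(2,1),(16,0),(9,1)]⟩),.k,⟨false,2,
  ⟨1,[(1,1),(24,3),(7,0),(9,0)]⟩,⟨15,[(0,2),(2,4),(5,16),(2,13),(16,0),(7,1),(0,0)]⟩⟩,⟨true,0,⟨0,
  [(16,0),(9,0)]⟩,⟨1,[(1,0),(1,0),(2,1),(0,0),(1,0),(19,0)]⟩⟩,⟨false,1,⟨1,[(22,0),(0,0),(20,0)]⟩,⟨0,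
  []⟩⟩,⟨true,(-1),⟨21,[(0,14),(8,9),(8,3),(0,4),(8,3),(8,1),(0,0)]⟩,⟨0,[(1,0)]⟩⟩,⟨true,0,⟨0,[(42,
  0)]⟩,⟨0,[(41,0)]⟩⟩,⟨false,(-1),⟨0,[(0,0)]⟩,⟨3,[(1,2),(2,0),(3,1),(13,1),(21,2)]⟩⟩,[]⟩) (.Q [0,0,0,
  0,0,0,0,0,-1,1,0,-1] (.p false [0,0,0,0,1] [1] (⟨0,[(25,0)]⟩,⟨0,[(24,0)]⟩) .k 1 (⟨0,[]⟩,⟨0,[]⟩)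
  .k .k) (.Q [0,0,0,0,0,-1,0,0,0,0,0,1] (.ed false [1,-1,0,0,1] .k) (.R ⟨1,false,false,false,[0,0,0,
  0,1],[0,1],[1,0,1],(⟨0,[(27,0)]⟩,⟨0,[(26,0)]⟩),(⟨0,[(38,0)]⟩,⟨0,[(37,0)]⟩),⟨0,[(0,0)]⟩,.k,.k,(.r
  (-1) ⟨3,[(20,1),(3,0),(0,0),(20,0)]⟩ ⟨6,[(5,0),(3,0),(11,0),(8,0),(0,1),(9,2),(2,0),(3,2)]⟩),(.r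
  (-1) ⟨3,[(20,1),(3,0),(0,0),(20,0)]⟩ ⟨6,[(5,0),(3,0),(11,0),(8,0),(0,1),(9,2),(2,0),(3,2)]⟩),(.r
  (-2) ⟨1,[(20,1),(3,0),(0,0),(20,0)]⟩ ⟨0,[(4,1),(4,1),(3,1),(9,1),(12,0),(1,5)]⟩),.k,⟨false,1,⟨3,
  [(20,1),(3,0),(0,0),(20,0)]⟩,⟨0,[(44,0)]⟩⟩,⟨true,1,⟨1,[(1,1),(34,0),(8,0)]⟩,⟨21,[(2,2),(3,10),(2,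
  14),(2,1),(0,5),(0,5),(25,3),(1,1),(4,7)]⟩⟩,⟨true,0,⟨1,[(31,0),(0,0)]⟩,⟨0,[(42,0)]⟩⟩,⟨false,1,⟨4,
  [(1,4),(3,0),(11,0),(18,1),(7,2),(1,1)]⟩,⟨0,[(7,0)]⟩⟩,⟨false,0,⟨0,[(12,0)]⟩,⟨3,[(20,1),(3,0),(0,
  0),(20,0)]⟩⟩,⟨false,1,⟨4,[(1,4),(3,2),(11,2),(18,0),(7,3),(1,0)]⟩,⟨3,[(6,1),(1,1),(1,1),(2,0),(14,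
  0),(17,0)]⟩⟩,[.e ⟨false,0,⟨0,[]⟩,⟨1,[(24,0),(0,0),(19,0)]⟩⟩ ⟨false,1,⟨1,[(1,1),(34,0),(7,1),(0,
  0)]⟩,⟨19,[(6,9),(3,3),(2,3),(0,3),(5,0),(19,2),(1,1),(3,5),(1,4)]⟩⟩,.o ⟨false,1,⟨3,[(5,1),(11,1),
  (18,0),(9,0)]⟩,⟨0,[(43,0)]⟩⟩,.a ⟨true,0,⟨0,[(25,0)]⟩,⟨0,[(1,0)]⟩⟩ ⟨true,0,⟨1,[(31,0),(0,0)]⟩,⟨0,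
  [(42,0)]⟩⟩ ⟨false,1,⟨3,[(1,3),(3,1),(11,1),(18,0),(9,0)]⟩,⟨19,[(6,9),(3,3),(2,3),(0,3),(5,0),(19,
  2),(1,1),(3,5),(1,4)]⟩⟩,.o ⟨false,0,⟨17,[(5,0),(0,8),(2,4),(2,1),(17,0),(5,3),(10,5),(0,1)]⟩,⟨1,
  [(1,1),(34,0),(8,0)]⟩⟩]⟩) (.R ⟨0,false,false,false,[0,0,0,0,1],[0,1],[1,0,1],(⟨0,[(27,0)]⟩,⟨0,
  [(26,0)]⟩),(⟨0,[(38,0)]⟩,⟨0,[(37,0)]⟩),⟨0,[(0,0)]⟩,.k,.k,(.r (-1) ⟨3,[(20,1),(3,0),(0,0),(20,0)]⟩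
  ⟨6,[(5,0),(3,0),(11,0),(8,0),(0,1),(9,2),(2,0),(3,2)]⟩),(.r (-1) ⟨3,[(20,1),(3,0),(0,0),(20,0)]⟩
  ⟨6,[(5,0),(3,0),(11,0),(8,0),(0,1),(9,2),(2,0),(3,2)]⟩),.k,.k,⟨false,1,⟨3,[(20,1),(3,0),(0,0),(20,
  0)]⟩,⟨0,[(44,0)]⟩⟩,⟨true,1,⟨1,[(1,1),(34,0),(8,0)]⟩,⟨21,[(2,2),(3,10),(2,14),(2,1),(0,5),(0,5),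
  (25,3),(1,1),(4,7)]⟩⟩,⟨true,0,⟨1,[(31,0),(0,0)]⟩,⟨0,[(42,0)]⟩⟩,⟨false,1,⟨4,[(1,4),(3,0),(11,0),
  (18,1),(7,2),(1,1)]⟩,⟨0,[(7,0)]⟩⟩,⟨false,0,⟨0,[]⟩,⟨0,[]⟩⟩,⟨false,0,⟨0,[]⟩,⟨0,[]⟩⟩,[.e ⟨false,0,⟨0,
  []⟩,⟨1,[(24,0),(0,0),(19,0)]⟩⟩ ⟨false,1,⟨1,[(1,1),(34,0),(7,1),(0,0)]⟩,⟨19,[(6,9),(3,3),(2,3),(0,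
  3),(5,0),(19,2),(1,1),(3,5),(1,4)]⟩⟩,.o ⟨false,1,⟨3,[(5,1),(11,1),(18,0),(9,0)]⟩,⟨0,[(43,0)]⟩⟩,.a
  ⟨true,0,⟨0,[(25,0)]⟩,⟨0,[(1,0)]⟩⟩ ⟨true,0,⟨1,[(31,0),(0,0)]⟩,⟨0,[(42,0)]⟩⟩ ⟨false,1,⟨3,[(1,3),(3,
  1),(11,1),(18,0),(9,0)]⟩,⟨19,[(6,9),(3,3),(2,3),(0,3),(5,0),(19,2),(1,1),(3,5),(1,4)]⟩⟩,.o ⟨false,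
  0,⟨17,[(5,0),(0,8),(2,4),(2,1),(17,0),(5,3),(10,5),(0,1)]⟩,⟨1,[(1,1),(34,0),(8,0)]⟩⟩]⟩)) (.I [0,0,
  -2,-2,1,0,0,-1] (.R ⟨1,false,false,false,[1,0,-1],[0,1],[],(⟨0,[(33,0)]⟩,⟨0,[(34,0)]⟩),(⟨0,[(38,
  0)]⟩,⟨0,[(37,0)]⟩),⟨0,[(22,0)]⟩,.k,.k,.k,.k,(.r (-1) ⟨0,[(0,0)]⟩ ⟨2,[(5,1),(3,1),(9,0),(1,1),(9,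
  1),(16,0)]⟩),.k,⟨true,1,⟨3,[(20,1),(3,0),(0,0),(20,0)]⟩,⟨0,[(9,0)]⟩⟩,⟨false,2,⟨16,[(0,13),(4,14),
  (0,1),(17,3),(5,0),(0,2),(7,6),(5,0)]⟩,⟨0,[(13,0)]⟩⟩,⟨false,1,⟨19,[(3,7),(1,3),(15,9),(2,0),(0,0),
  (14,0),(5,7)]⟩,⟨0,[(14,0)]⟩⟩,⟨true,1,⟨15,[(3,2),(1,9),(0,0),(17,1),(11,0),(11,9)]⟩,⟨1,[(0,0),(10,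
  0),(1,1),(28,0)]⟩⟩,⟨false,1,⟨19,[(3,3),(1,11),(15,9),(2,2),(0,2),(14,2),(5,3)]⟩,⟨0,[(8,0)]⟩⟩,
  ⟨false,1,⟨0,[(5,0)]⟩,⟨5,[(8,7),(1,1),(10,3),(18,0),(5,0)]⟩⟩,[.e ⟨false,1,⟨1,[(24,0),(0,0),(19,
  0)]⟩,⟨0,[]⟩⟩ ⟨false,1,⟨1,[(0,0),(4,1),(5,0),(30,0)]⟩,⟨5,[(8,1),(1,1),(10,3),(18,0),(5,0)]⟩⟩,.o
  ⟨false,1,⟨3,[(5,1),(11,1),(18,0),(9,0)]⟩,⟨0,[(43,0)]⟩⟩,.o ⟨false,0,⟨0,[(18,0)]⟩,⟨48,[(0,13),(4,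
  14),(0,1),(17,3),(5,0),(0,34),(4,15),(2,6)]⟩⟩,.a ⟨true,(-1),⟨0,[(13,0)]⟩,⟨0,[(31,0),(13,0)]⟩⟩
  ⟨false,1,⟨1,[(45,0),(0,0)]⟩,⟨1,[(31,0),(0,0)]⟩⟩ ⟨true,1,⟨1,[(0,0),(4,1),(5,0),(30,0)]⟩,⟨0,[(13,0),
  (29,0)]⟩⟩]⟩) (.I [0,0,2,2,-1,0,0,1] (.R ⟨1,false,false,false,[1,0,-1],[0,1],[],(⟨0,[(34,0)]⟩,⟨0,
  [(35,0)]⟩),(⟨0,[(39,0)]⟩,⟨0,[(38,0)]⟩),⟨0,[(23,0)]⟩,.k,.k,.k,.k,(.r (-2) ⟨3,[(15,1),(5,3),(9,1),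
  (0,1),(13,0),(0,2)]⟩ ⟨0,[(0,0)]⟩),.k,⟨true,1,⟨3,[(21,1),(3,0),(0,0),(20,0)]⟩,⟨0,[(10,0)]⟩⟩,⟨false,
  2,⟨1,[(32,1),(4,0),(8,2)]⟩,⟨0,[(14,0)]⟩⟩,⟨false,1,⟨19,[(4,7),(1,3),(15,9),(2,0),(0,0),(14,0),(5,
  7)]⟩,⟨0,[(15,0)]⟩⟩,⟨true,1,⟨15,[(4,2),(1,9),(0,0),(17,1),(11,0),(11,9)]⟩,⟨0,[(9,0),(4,0),(28,
  0)]⟩⟩,⟨false,1,⟨19,[(4,3),(1,11),(15,9),(2,2),(0,2),(14,2),(5,3)]⟩,⟨0,[(9,0)]⟩⟩,⟨false,1,⟨0,[(6,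
  0)]⟩,⟨5,[(9,7),(1,1),(10,3),(18,0),(5,0)]⟩⟩,[.e ⟨false,1,⟨1,[(25,0),(0,0),(19,0)]⟩,⟨0,[]⟩⟩ ⟨false,
  1,⟨0,[(6,0),(2,0),(33,0)]⟩,⟨5,[(9,1),(1,1),(10,3),(18,0),(5,0)]⟩⟩,.o ⟨false,1,⟨3,[(6,1),(11,1),
  (18,0),(9,0)]⟩,⟨0,[(44,0)]⟩⟩,.o ⟨false,0,⟨0,[(19,0)]⟩,⟨1,[(32,1),(4,0),(8,0)]⟩⟩,.a ⟨true,(-1),⟨0,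
  [(14,0)]⟩,⟨0,[(32,0),(13,0)]⟩⟩ ⟨false,1,⟨1,[(46,0),(0,0)]⟩,⟨1,[(32,0),(0,0)]⟩⟩ ⟨true,1,⟨0,[(6,0),
  (2,0),(33,0)]⟩,⟨0,[(14,0),(29,0)]⟩⟩]⟩) (.Q [0,-1,-1,0,1,0,0,0,-1,1,0,-1] (.p false [0,0,0,0,1]
  [1] (⟨0,[(28,0)]⟩,⟨0,[(27,0)]⟩) .k 1 (⟨0,[]⟩,⟨0,[]⟩) .k .k) (.Q [0,0,0,0,0,-1,0,0,0,0,0,1] (.ed
  false [1,-1,0,0,1] .k) (.S ⟨1,3,[],[0,0,0,0,1],[0,0,1],(⟨0,[(30,0)]⟩,⟨0,[(29,0)]⟩),⟨0,[(0,0)]⟩,.k,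
  (.r (-1) ⟨2,[(1,0),(7,0),(13,0),(3,0)]⟩ ⟨10,[(3,0),(4,0),(15,0),(8,1),(0,2),(9,5),(2,0),(3,4)]⟩),
  ⟨true,0,⟨0,[(50,0)]⟩,⟨0,[(45,0)]⟩⟩,⟨false,1,⟨10,[(1,8),(14,0),(7,0),(2,1),(6,2),(14,0),(0,4)]⟩,⟨0,
  [(4,0)]⟩⟩,⟨false,0,⟨1,[(7,1),(4,1),(3,1),(9,1),(12,0),(1,5),(7,0)]⟩,⟨2,[(1,0),(7,0),(13,0),(3,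
  0)]⟩⟩,⟨true,0,⟨0,[(1,0),(10,0),(32,0)]⟩,⟨8,[(4,0),(4,3),(4,2),(4,2),(3,0),(15,1),(2,0)]⟩⟩,[.fa
  ⟨true,0,⟨1,[(34,0),(0,0)]⟩,⟨0,[]⟩⟩ ⟨false,1,⟨6,[(1,5),(22,0),(2,0),(6,1),(7,2)]⟩,⟨0,[(4,0)]⟩⟩,.e
  ⟨false,1,⟨1,[(27,0),(0,0),(20,0)]⟩,⟨0,[(45,0)]⟩⟩ ⟨false,1,⟨0,[(1,0)]⟩,⟨52,[(3,5),(0,12),(3,3),(0,
  19),(4,5),(18,3),(5,7),(2,17),(8,10)]⟩⟩,.o ⟨false,0,⟨0,[(4,0)]⟩,⟨0,[(27,0)]⟩⟩,.e ⟨false,1,⟨1,[(27,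
  0),(0,0),(20,0)]⟩,⟨0,[]⟩⟩ ⟨false,1,⟨0,[(1,0)]⟩,⟨10,[(4,0),(3,0),(0,4),(2,2),(20,0),(5,1),(10,
  4)]⟩⟩]⟩) (.R ⟨1,false,false,false,[1,0,0,0,-1],[0,1],[1,1,1],(⟨0,[(29,0)]⟩,⟨0,[(30,0)]⟩),(⟨0,[(41,
  0)]⟩,⟨0,[(40,0)]⟩),⟨28,[(0,0),(4,0),(1,9),(3,1),(0,3),(3,11),(9,9),(2,27),(9,4)]⟩,.k,.k,(.r (-1)
  ⟨9,[(23,4),(3,1),(0,1),(20,2),(1,0)]⟩ ⟨21,[(3,3),(4,4),(15,2),(8,8),(0,9),(8,0),(0,3)]⟩),(.r (-1)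
  ⟨9,[(23,4),(3,1),(0,1),(20,2),(1,0)]⟩ ⟨21,[(3,3),(4,4),(15,2),(8,8),(0,9),(8,0),(0,3)]⟩),(.r (-2)
  ⟨12,[(1,1),(7,1),(13,11),(3,6),(0,4),(20,4)]⟩ ⟨0,[(12,0),(34,0)]⟩),.k,⟨true,0,⟨0,[(46,0)]⟩,⟨0,
  [(15,0)]⟩⟩,⟨false,1,⟨0,[(4,0),(43,0)]⟩,⟨10,[(1,3),(10,3),(0,1),(0,1),(1,2),(10,6),(6,0),(8,1),(6,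
  0)]⟩⟩,⟨false,0,⟨1,[(34,0),(0,0)]⟩,⟨1,[(7,1),(8,1),(9,1),(12,0),(1,5),(7,0)]⟩⟩,⟨true,0,⟨0,[(4,0),
  (42,0)]⟩,⟨0,[(1,0),(12,0),(4,0)]⟩⟩,⟨true,(-1),⟨1,[(3,0),(10,0),(30,0)]⟩,⟨9,[(23,4),(3,1),(0,1),
  (20,2),(1,0)]⟩⟩,⟨true,0,⟨0,[(4,0),(42,1)]⟩,⟨3,[(1,3),(3,0),(5,1),(1,0),(0,2),(1,2),(2,1),(19,0),
  (5,1)]⟩⟩,[.a ⟨true,0,⟨0,[(47,0)]⟩,⟨53,[(2,11),(8,1),(1,13),(10,15),(9,17),(8,18),(5,6),(0,5)]⟩⟩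
  ⟨false,0,⟨0,[(51,0)]⟩,⟨1,[(48,0),(0,0)]⟩⟩ ⟨true,0,⟨0,[(4,0),(42,0)]⟩,⟨1,[(1,0),(9,0),(0,0),(0,0),
  (2,0),(10,0)]⟩⟩,.o ⟨false,1,⟨3,[(8,1),(11,1),(18,0),(9,0)]⟩,⟨0,[(46,0)]⟩⟩,.o ⟨false,1,⟨0,[(27,
  0)]⟩,⟨0,[(4,0)]⟩⟩,.e ⟨false,0,⟨0,[]⟩,⟨1,[(27,0),(0,0),(20,0)]⟩⟩ ⟨false,1,⟨3,[(4,3),(3,1),(8,1),
  (13,1),(16,0),(0,0)]⟩,⟨1,[(1,0),(9,0),(0,0),(0,0),(2,0),(10,0)]⟩⟩]⟩)) (.Q [0,0,-1,0,0,0,0,0,1,-1,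
  0,1] (.p true [0,0,0,0,1] [1] (⟨0,[(29,0)]⟩,⟨0,[(28,0)]⟩) .k 1 (⟨0,[]⟩,⟨0,[]⟩) .k .k) (.Q [0,0,0,
  0,0,-1,0,0,0,1,0,-1] (.ed true [0,1,0,0,1] .k) (.R ⟨1,false,false,false,[1,0,0,0,-1],[0,1],[0,1,0,
  -1],(⟨0,[(30,0)]⟩,⟨0,[(31,0)]⟩),(⟨0,[(42,0)]⟩,⟨0,[(41,0)]⟩),⟨0,[(0,0)]⟩,.k,.k,(.r (-1) ⟨9,[(24,4),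
  (3,1),(0,1),(20,2),(1,0)]⟩ ⟨21,[(4,3),(4,4),(15,2),(8,8),(0,9),(8,0),(0,3)]⟩),(.r (-1) ⟨9,[(24,4),
  (3,1),(0,1),(20,2),(1,0)]⟩ ⟨21,[(4,3),(4,4),(15,2),(8,8),(0,9),(8,0),(0,3)]⟩),(.r (-2) ⟨1,[(24,1),
  (3,0),(0,0),(20,0)]⟩ ⟨0,[(13,0),(34,0)]⟩),.k,⟨false,1,⟨0,[(24,0)]⟩,⟨0,[(45,0),(2,0)]⟩⟩,⟨true,0,⟨0,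
  [(1,0)]⟩,⟨0,[(17,0),(10,0),(6,0)]⟩⟩,⟨true,0,⟨0,[(47,0)]⟩,⟨0,[(48,0)]⟩⟩,⟨false,0,⟨0,[(1,0),(43,
  0)]⟩,⟨19,[(3,3),(10,3),(9,1),(0,1),(2,19),(15,8),(5,2),(0,11)]⟩⟩,⟨false,0,⟨0,[]⟩,⟨1,[(28,0),(0,0),
  (20,0)]⟩⟩,⟨false,0,⟨0,[(1,0),(43,0),(2,0)]⟩,⟨3,[(3,1),(10,1),(2,1),(10,3),(15,0),(5,0),(0,1)]⟩⟩,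
  [.a ⟨true,0,⟨0,[(48,0)]⟩,⟨53,[(3,11),(8,1),(1,13),(10,15),(9,17),(8,18),(5,6),(0,5)]⟩⟩ ⟨true,0,⟨0,
  [(47,0)]⟩,⟨0,[(45,0)]⟩⟩ ⟨false,0,⟨0,[(1,0),(46,0)]⟩,⟨53,[(3,11),(8,1),(1,13),(10,15),(2,53),(6,
  17),(8,18),(5,6),(0,5)]⟩⟩,.o ⟨false,1,⟨3,[(9,1),(11,1),(18,0),(9,0)]⟩,⟨0,[(47,0)]⟩⟩,.o ⟨false,1,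
  ⟨0,[(28,0)]⟩,⟨0,[(5,0)]⟩⟩,.o ⟨false,1,⟨1,[(28,1),(6,0),(0,0)]⟩,⟨0,[(1,0)]⟩⟩]⟩) (.R ⟨0,false,false,
  true,[1,0,0,0,-1],[1,-1],[0,1,-1,-1],(⟨0,[(30,0)]⟩,⟨0,[(31,0)]⟩),(⟨0,[(41,0)]⟩,⟨0,[(42,0)]⟩),⟨0,
  [(0,0)]⟩,.k,.k,(.r (-1) ⟨9,[(24,4),(3,1),(0,1),(20,2),(1,0)]⟩ ⟨21,[(4,3),(4,4),(15,2),(8,8),(0,9),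
  (8,0),(0,3)]⟩),(.r 0 ⟨10,[(4,0),(4,0),(15,0),(8,1),(0,2),(9,5),(2,0),(3,4)]⟩ ⟨3,[(24,1),(3,0),(0,
  0),(20,0)]⟩),.k,.k,⟨false,1,⟨1,[(28,0),(0,0),(19,0)]⟩,⟨0,[]⟩⟩,⟨true,(-1),⟨1,[(2,1),(41,0),(5,0)]⟩,
  ⟨0,[(28,0)]⟩⟩,⟨false,1,⟨3,[(24,1),(3,0),(0,0),(20,0)]⟩,⟨0,[(16,0)]⟩⟩,⟨true,(-1),⟨9,[(1,2),(0,6),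
  (0,1),(10,1),(2,1),(6,0),(19,3)]⟩,⟨0,[(28,0),(19,0)]⟩⟩,⟨false,0,⟨0,[]⟩,⟨0,[]⟩⟩,⟨false,0,⟨0,[]⟩,⟨0,
  []⟩⟩,[.o ⟨false,0,⟨0,[(47,0)]⟩,⟨3,[(9,1),(11,1),(18,0),(9,0)]⟩⟩,.a ⟨true,0,⟨53,[(3,11),(8,1),(1,
  13),(10,15),(9,17),(8,18),(5,6),(0,5)]⟩,⟨0,[(48,0)]⟩⟩ ⟨true,1,⟨3,[(24,1),(3,0),(0,0),(20,0)]⟩,⟨0,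
  [(13,0)]⟩⟩ ⟨false,0,⟨57,[(1,37),(1,5),(6,9),(3,5),(2,5),(6,11),(19,20),(5,8),(0,9)]⟩,⟨0,[(28,0),
  (19,0)]⟩⟩,.o ⟨false,1,⟨0,[(28,0)]⟩,⟨0,[(5,0)]⟩⟩,.o ⟨false,1,⟨1,[(28,1),(6,0),(0,0)]⟩,⟨0,[(1,
  0)]⟩⟩]⟩)) (.Q [1,1,0,-1,-1,0,0,0,1,0,0,1] (.p true [0,0,0,0,1] [] (⟨0,[(30,0)]⟩,⟨0,[(29,0)]⟩) .k
  0 (⟨0,[]⟩,⟨0,[]⟩) .k .k) (.K ⟨0,[1,0,0,0,-1],0,0,(⟨0,[(30,0)]⟩,⟨0,[(31,0)]⟩),.k,(.r (-1) ⟨9,[(24,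
  4),(3,1),(0,1),(20,2),(1,0)]⟩ ⟨21,[(4,3),(4,4),(15,2),(8,8),(0,9),(8,0),(0,3)]⟩),(.r 0 ⟨10,[(4,0),
  (4,0),(15,0),(8,1),(0,2),(9,5),(2,0),(3,4)]⟩ ⟨3,[(24,1),(3,0),(0,0),(20,0)]⟩),.k,.k,[⟨6,[(0,6),(7,
  1),(0,4),(2,4),(0,1),(13,1),(12,0),(1,5),(7,0)]⟩,⟨0,[(1,0)]⟩,⟨10,[(2,2),(6,1),(0,3),(23,1),(5,0),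
  (2,2),(8,1)]⟩,⟨0,[(1,0),(44,0)]⟩]⟩) (.K ⟨0,[0,0,0,0,1],(-1),(-1),(⟨0,[(31,0)]⟩,⟨0,[(30,0)]⟩),.k,
  (.r (-1) ⟨3,[(24,1),(3,0),(0,0),(20,0)]⟩ ⟨10,[(4,0),(4,0),(15,0),(8,1),(0,2),(9,5),(2,0),(3,4)]⟩),
  (.r 0 ⟨21,[(4,3),(4,4),(15,2),(8,8),(0,9),(8,0),(0,3)]⟩ ⟨9,[(24,4),(3,1),(0,1),(20,2),(1,0)]⟩),.k,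
  .k,[⟨7,[(0,6),(0,0),(1,2),(3,0),(7,2),(17,3),(1,1)]⟩,⟨1,[(2,1),(41,0),(5,0)]⟩,⟨0,[(28,0),(23,0)]⟩,
  ⟨1,[(2,1),(41,0),(4,0)]⟩]⟩)))))))))) (.Q [0,0,1,0,0,0,0,0,-1,1,0,-1] (.p false [0,0,0,0,1] [1]
  (⟨0,[(22,0)]⟩,⟨0,[(21,0)]⟩) .k 1 (⟨0,[]⟩,⟨0,[]⟩) .k .k) (.Q [0,0,0,0,0,0,1,0,1,-1,1,1] (.p true
  [0,0,1] [1,0,0,0,-1] (⟨0,[(30,0)]⟩,⟨0,[(29,0)]⟩) .k 2 (⟨0,[(22,0)]⟩,⟨0,[(23,0)]⟩) .k (.r (-1) ⟨1,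
  [(15,1),(4,0),(0,0),(20,0)]⟩ ⟨0,[(4,0),(0,0),(32,1),(3,0)]⟩)) (.K ⟨0,[1,0,0,0,-1],0,0,(⟨0,[(23,
  0)]⟩,⟨0,[(24,0)]⟩),.k,(.r (-1) ⟨9,[(17,4),(3,1),(0,1),(20,2),(1,0)]⟩ ⟨0,[(38,0),(6,0)]⟩),(.r 0 ⟨0,
  [(38,0),(6,0)]⟩ ⟨3,[(17,1),(3,0),(0,0),(20,0)]⟩),.k,.k,[⟨0,[(0,0)]⟩,⟨0,[(1,0)]⟩,⟨3,[(3,1),(2,0),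
  (26,0),(2,1),(4,0)]⟩,⟨0,[(1,0),(37,0)]⟩]⟩) (.Q [0,0,0,0,0,0,0,0,1,-1,0,1] (.p true [0,0,0,0,1]
  [1] (⟨0,[(24,0)]⟩,⟨0,[(23,0)]⟩) .k 1 (⟨0,[]⟩,⟨0,[]⟩) .k .k) (.Q [0,0,0,0,0,-1,0,0,0,1,0,-1] (.ed
  true [0,1,0,0,1] .k) (.R ⟨1,false,false,false,[1,0,0,0,-1],[0,1],[-1],(⟨0,[(25,0)]⟩,⟨0,[(26,0)]⟩),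
  (⟨0,[(37,0)]⟩,⟨0,[(36,0)]⟩),⟨0,[(0,0)]⟩,.k,.k,(.r (-1) ⟨9,[(19,4),(3,1),(0,1),(20,2),(1,0)]⟩ ⟨0,
  [(40,0),(6,0)]⟩),(.r (-1) ⟨9,[(19,4),(3,1),(0,1),(20,2),(1,0)]⟩ ⟨0,[(40,0),(6,0)]⟩),(.r (-2) ⟨1,
  [(19,1),(3,0),(0,0),(20,0)]⟩ ⟨0,[(8,0),(34,0)]⟩),.k,⟨true,1,⟨9,[(19,4),(3,1),(0,1),(20,2),(1,0)]⟩,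
  ⟨0,[(8,0)]⟩⟩,⟨false,1,⟨0,[(1,0),(42,0)]⟩,⟨0,[(3,0)]⟩⟩,⟨false,1,⟨1,[(23,0),(0,0),(20,0)]⟩,⟨0,[]⟩⟩,
  ⟨true,0,⟨0,[(1,0),(41,0)]⟩,⟨1,[(2,0),(0,0),(5,0),(3,0),(27,0)]⟩⟩,⟨true,0,⟨0,[(43,0)]⟩,⟨0,[(42,
  0)]⟩⟩,⟨true,0,⟨0,[(1,0),(41,1)]⟩,⟨0,[(2,0),(6,0),(3,0)]⟩⟩,[.a ⟨true,0,⟨0,[(43,0)]⟩,⟨85,[(3,25),(0,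
  5),(1,25),(2,5),(9,17),(19,26),(5,14),(0,9)]⟩⟩ ⟨false,1,⟨9,[(23,3),(0,3),(19,4),(0,0),(1,1)]⟩,⟨0,
  []⟩⟩ ⟨true,0,⟨0,[(1,0),(41,0)]⟩,⟨4,[(2,1),(0,2),(3,1),(0,0),(0,1),(35,0)]⟩⟩,.o ⟨false,1,⟨1,[(35,
  0),(7,1),(1,0)]⟩,⟨0,[(42,0)]⟩⟩,.o ⟨false,1,⟨0,[(23,0)]⟩,⟨0,[(1,0)]⟩⟩,.e ⟨false,1,⟨0,[(41,0),(3,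
  0)]⟩,⟨1,[(30,0),(0,0)]⟩⟩ ⟨false,1,⟨1,[(1,1),(41,1),(0,0),(0,0)]⟩,⟨4,[(2,1),(0,2),(3,1),(0,0),(0,
  1),(35,0)]⟩⟩]⟩) (.R ⟨0,false,false,false,[1,0,0,0,-1],[0,1],[-1],(⟨0,[(25,0)]⟩,⟨0,[(26,0)]⟩),(⟨0,
  [(37,0)]⟩,⟨0,[(36,0)]⟩),⟨0,[(0,0)]⟩,.k,.k,(.r (-1) ⟨9,[(19,4),(3,1),(0,1),(20,2),(1,0)]⟩ ⟨0,[(40,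
  0),(6,0)]⟩),(.r (-1) ⟨9,[(19,4),(3,1),(0,1),(20,2),(1,0)]⟩ ⟨0,[(40,0),(6,0)]⟩),.k,.k,⟨true,1,⟨9,
  [(19,4),(3,1),(0,1),(20,2),(1,0)]⟩,⟨0,[(8,0)]⟩⟩,⟨false,1,⟨0,[(1,0),(42,0)]⟩,⟨0,[(3,0)]⟩⟩,⟨false,1,
  ⟨1,[(23,0),(0,0),(20,0)]⟩,⟨0,[]⟩⟩,⟨true,0,⟨0,[(1,0),(41,0)]⟩,⟨1,[(2,0),(0,0),(5,0),(3,0),(27,
  0)]⟩⟩,⟨false,0,⟨0,[]⟩,⟨0,[]⟩⟩,⟨false,0,⟨0,[]⟩,⟨0,[]⟩⟩,[.a ⟨true,0,⟨0,[(43,0)]⟩,⟨85,[(3,25),(0,5),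
  (1,25),(2,5),(9,17),(19,26),(5,14),(0,9)]⟩⟩ ⟨false,1,⟨9,[(23,3),(0,3),(19,4),(0,0),(1,1)]⟩,⟨0,
  []⟩⟩ ⟨true,0,⟨0,[(1,0),(41,0)]⟩,⟨4,[(2,1),(0,2),(3,1),(0,0),(0,1),(35,0)]⟩⟩,.o ⟨false,1,⟨1,[(35,
  0),(7,1),(1,0)]⟩,⟨0,[(42,0)]⟩⟩,.o ⟨false,1,⟨0,[(23,0)]⟩,⟨0,[(1,0)]⟩⟩,.e ⟨false,1,⟨0,[(41,0),(3,
  0)]⟩,⟨1,[(30,0),(0,0)]⟩⟩ ⟨false,1,⟨1,[(1,1),(41,1),(0,0),(0,0)]⟩,⟨4,[(2,1),(0,2),(3,1),(0,0),(0,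
  1),(35,0)]⟩⟩]⟩)) (.Q [0,0,0,0,0,-1,0,0,0,0,0,1] (.ed false [1,-1,0,0,1] .k) (.R ⟨1,false,false,
  false,[0,0,0,0,1],[0,1],[1,0,1],(⟨0,[(26,0)]⟩,⟨0,[(25,0)]⟩),(⟨0,[(37,0)]⟩,⟨0,[(36,0)]⟩),⟨0,[(0,
  0)]⟩,.k,.k,(.r (-1) ⟨3,[(19,1),(3,0),(0,0),(20,0)]⟩ ⟨0,[(40,0),(6,0)]⟩),(.r (-1) ⟨3,[(19,1),(3,0),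
  (0,0),(20,0)]⟩ ⟨0,[(40,0),(6,0)]⟩),(.r (-2) ⟨1,[(19,1),(3,0),(0,0),(20,0)]⟩ ⟨0,[(8,1),(32,1),(3,
  0)]⟩),.k,⟨false,1,⟨3,[(19,1),(3,0),(0,0),(20,0)]⟩,⟨0,[(43,0)]⟩⟩,⟨true,1,⟨1,[(1,1),(33,0),(8,0)]⟩,
  ⟨21,[(4,2),(0,10),(2,14),(0,2),(1,7),(27,3),(1,1),(4,7)]⟩⟩,⟨true,0,⟨1,[(30,0),(0,0)]⟩,⟨0,[(41,
  0)]⟩⟩,⟨false,1,⟨1,[(1,1),(33,0),(7,1),(1,0)]⟩,⟨0,[(6,0)]⟩⟩,⟨false,0,⟨0,[(11,0)]⟩,⟨3,[(19,1),(3,0),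
  (0,0),(20,0)]⟩⟩,⟨false,1,⟨1,[(1,1),(33,0),(7,3),(1,0)]⟩,⟨2,[(4,0),(0,0),(0,0),(2,0),(35,0)]⟩⟩,[.e
  ⟨false,0,⟨0,[]⟩,⟨1,[(23,0),(0,0),(19,0)]⟩⟩ ⟨false,1,⟨1,[(1,1),(33,0),(7,1),(0,0)]⟩,⟨11,[(4,1),(0,
  3),(3,1),(14,3),(14,0),(1,1),(3,2),(0,1)]⟩⟩,.o ⟨false,1,⟨1,[(35,0),(7,1),(1,0)]⟩,⟨0,[(42,0)]⟩⟩,.a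
  ⟨true,0,⟨0,[(24,0)]⟩,⟨0,[(1,0)]⟩⟩ ⟨true,0,⟨1,[(30,0),(0,0)]⟩,⟨0,[(41,0)]⟩⟩ ⟨false,1,⟨1,[(1,1),(33,
  0),(7,1),(1,0)]⟩,⟨11,[(4,1),(0,3),(3,1),(14,3),(14,0),(1,1),(3,2),(0,1)]⟩⟩,.o ⟨false,0,⟨2,[(5,0),
  (2,0),(15,0),(10,0),(10,0)]⟩,⟨1,[(1,1),(33,0),(8,0)]⟩⟩]⟩) (.R ⟨0,false,false,false,[0,0,0,0,1],[0,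
  1],[0,1],(⟨0,[(26,0)]⟩,⟨0,[(25,0)]⟩),(⟨0,[(37,0)]⟩,⟨0,[(36,0)]⟩),⟨0,[(0,0)]⟩,.k,.k,(.r (-1) ⟨3,
  [(19,1),(3,0),(0,0),(20,0)]⟩ ⟨0,[(40,0),(6,0)]⟩),(.r (-1) ⟨3,[(19,1),(3,0),(0,0),(20,0)]⟩ ⟨0,[(40,
  0),(6,0)]⟩),.k,.k,⟨false,1,⟨7,[(19,3),(3,0),(0,0),(13,1),(5,2)]⟩,⟨0,[(40,0)]⟩⟩,⟨true,1,⟨1,[(1,1),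
  (33,0),(8,0)]⟩,⟨21,[(4,2),(0,10),(2,14),(0,2),(1,7),(27,3),(1,1),(4,7)]⟩⟩,⟨true,0,⟨0,[(47,0)]⟩,⟨0,
  []⟩⟩,⟨false,1,⟨1,[(1,1),(33,0),(7,1),(1,0)]⟩,⟨0,[(6,0)]⟩⟩,⟨false,0,⟨0,[]⟩,⟨0,[]⟩⟩,⟨false,0,⟨0,[]⟩,
  ⟨0,[]⟩⟩,[.e ⟨false,0,⟨0,[(41,0)]⟩,⟨1,[(23,0),(0,0),(20,0)]⟩⟩ ⟨false,1,⟨1,[(1,1),(33,0),(7,1),(0,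
  0)]⟩,⟨11,[(4,1),(0,3),(3,1),(14,3),(14,0),(1,1),(3,2),(0,1)]⟩⟩,.o ⟨false,1,⟨1,[(35,0),(7,1),(1,
  0)]⟩,⟨0,[(42,0)]⟩⟩,.a ⟨true,0,⟨0,[(24,0)]⟩,⟨0,[(1,0)]⟩⟩ ⟨true,0,⟨0,[(47,0)]⟩,⟨0,[]⟩⟩ ⟨false,1,⟨1,
  [(1,1),(33,0),(7,1),(1,0)]⟩,⟨11,[(4,1),(0,3),(3,1),(14,3),(14,0),(1,1),(3,2),(0,1)]⟩⟩,.o ⟨false,0,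
  ⟨2,[(5,0),(2,0),(15,0),(10,0),(10,0)]⟩,⟨1,[(1,1),(33,0),(8,0)]⟩⟩]⟩)))) (.Q [0,0,0,0,0,-1,0,0,0,1,
  0,-1] (.ed true [0,1,0,0,1] .k) (.R ⟨1,false,false,false,[1,0,0,0,-1],[0,1],[0,1,0,-1],(⟨0,[(23,
  0)]⟩,⟨0,[(24,0)]⟩),(⟨0,[(35,0)]⟩,⟨0,[(34,0)]⟩),⟨0,[(0,0)]⟩,.k,.k,(.r (-1) ⟨9,[(17,4),(3,1),(0,1),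
  (20,2),(1,0)]⟩ ⟨0,[(38,0),(6,0)]⟩),(.r (-1) ⟨9,[(17,4),(3,1),(0,1),(20,2),(1,0)]⟩ ⟨0,[(38,0),(6,
  0)]⟩),(.r (-2) ⟨1,[(17,1),(3,0),(0,0),(20,0)]⟩ ⟨0,[(6,0),(34,0)]⟩),.k,⟨false,1,⟨0,[(17,0)]⟩,⟨0,
  [(38,0),(2,0)]⟩⟩,⟨true,0,⟨0,[(1,0)]⟩,⟨0,[(10,0),(10,0),(6,0)]⟩⟩,⟨true,0,⟨0,[(40,0)]⟩,⟨0,[(41,
  0)]⟩⟩,⟨false,0,⟨0,[(1,0),(36,0)]⟩,⟨35,[(2,3),(4,3),(9,9),(0,1),(2,35),(6,3),(8,14),(5,8),(0,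
  15)]⟩⟩,⟨false,0,⟨0,[]⟩,⟨1,[(21,0),(0,0),(20,0)]⟩⟩,⟨false,0,⟨0,[(1,0),(36,0),(2,0)]⟩,⟨53,[(2,21),
  (4,21),(9,9),(0,1),(2,53),(6,3),(8,14),(5,26),(0,15)]⟩⟩,[.a ⟨true,0,⟨0,[(41,0)]⟩,⟨27,[(2,3),(4,3),
  (9,5),(0,5),(9,11),(8,8),(5,6)]⟩⟩ ⟨true,0,⟨0,[(40,0)]⟩,⟨0,[(38,0)]⟩⟩ ⟨false,0,⟨0,[(1,0),(39,0)]⟩,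
  ⟨27,[(2,3),(4,3),(9,5),(0,5),(2,27),(6,11),(8,8),(5,6)]⟩⟩,.o ⟨false,1,⟨1,[(33,0),(7,1),(1,0)]⟩,⟨0,
  [(40,0)]⟩⟩,.o ⟨false,1,⟨0,[(21,0)]⟩,⟨14,[(1,6),(1,3),(2,1),(2,1),(23,1),(10,0),(0,1)]⟩⟩,.o ⟨false,
  1,⟨1,[(21,1),(6,0),(0,0)]⟩,⟨0,[(1,0)]⟩⟩]⟩) (.R ⟨0,false,false,false,[1,0,0,0,-1],[0,1],[0,1,0,-1],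
  (⟨0,[(23,0)]⟩,⟨0,[(24,0)]⟩),(⟨0,[(35,0)]⟩,⟨0,[(34,0)]⟩),⟨0,[(0,0)]⟩,.k,.k,(.r (-1) ⟨9,[(17,4),(3,
  1),(0,1),(20,2),(1,0)]⟩ ⟨0,[(38,0),(6,0)]⟩),(.r (-1) ⟨9,[(17,4),(3,1),(0,1),(20,2),(1,0)]⟩ ⟨0,
  [(38,0),(6,0)]⟩),.k,.k,⟨false,1,⟨0,[(17,0)]⟩,⟨0,[(38,0),(2,0)]⟩⟩,⟨true,0,⟨0,[(1,0)]⟩,⟨0,[(10,0),
  (10,0),(6,0)]⟩⟩,⟨true,0,⟨0,[(40,0)]⟩,⟨0,[(41,0)]⟩⟩,⟨false,0,⟨0,[(1,0),(36,0)]⟩,⟨35,[(2,3),(4,3),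
  (9,9),(0,1),(2,35),(6,3),(8,14),(5,8),(0,15)]⟩⟩,⟨false,0,⟨0,[]⟩,⟨0,[]⟩⟩,⟨false,0,⟨0,[]⟩,⟨0,[]⟩⟩,
  [.a ⟨true,0,⟨0,[(41,0)]⟩,⟨27,[(2,3),(4,3),(9,5),(0,5),(9,11),(8,8),(5,6)]⟩⟩ ⟨true,0,⟨0,[(40,0)]⟩,
  ⟨0,[(38,0)]⟩⟩ ⟨false,0,⟨0,[(1,0),(39,0)]⟩,⟨27,[(2,3),(4,3),(9,5),(0,5),(2,27),(6,11),(8,8),(5,
  6)]⟩⟩,.o ⟨false,1,⟨1,[(33,0),(7,1),(1,0)]⟩,⟨0,[(40,0)]⟩⟩,.o ⟨false,1,⟨0,[(21,0)]⟩,⟨14,[(1,6),(1,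
  3),(2,1),(2,1),(23,1),(10,0),(0,1)]⟩⟩,.o ⟨false,1,⟨1,[(21,1),(6,0),(0,0)]⟩,⟨0,[(1,
  0)]⟩⟩]⟩))))))))))))

theorem ok20 : chk K t20 r6 = true := by decide +kernel

noncomputable def t25 : Tre :=
  (.I [1,-1,1,1,0,0,0,1] (.I [1,-1,0,1,0,0,0,1] (.R ⟨2,true,false,false,[0,1],[0,1,1],[0,0,1,1],(⟨0,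
  []⟩,⟨0,[]⟩),(⟨0,[(18,0),(3,0)]⟩,⟨0,[(6,0)]⟩),⟨0,[]⟩,.k,.k,.k,.k,.k,.k,⟨false,1,⟨1,[(2,1),(11,1),
  (14,0),(0,0)]⟩,⟨0,[(0,0),(26,0)]⟩⟩,⟨true,0,⟨0,[(2,0)]⟩,⟨0,[(16,0)]⟩⟩,⟨false,1,⟨1,[(8,0),(0,0),(20,
  0)]⟩,⟨0,[]⟩⟩,⟨true,0,⟨0,[(0,0),(1,0),(24,0)]⟩,⟨0,[(14,0)]⟩⟩,⟨true,0,⟨0,[(28,0)]⟩,⟨0,[(27,0)]⟩⟩,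
  ⟨false,0,⟨0,[(0,0),(1,0)]⟩,⟨0,[(14,0),(12,0),(2,0)]⟩⟩,[]⟩) (.I [1,0,0,0,0,0,0,-1] (.Q [0,1,0,-1,0,
  0,-1,-1,0,0,-1] (.p false [0,0,1] [] (⟨0,[(19,0)]⟩,⟨0,[(18,0)]⟩) .k 0 (⟨0,[]⟩,⟨0,[]⟩) .k .k) (.S
  ⟨1,0,[0,0,1,1,0,0,0,1],[0,1,1],[1,1,1],(⟨0,[(20,0),(3,0)]⟩,⟨0,[(8,0)]⟩),⟨0,[(20,0)]⟩,.k,.k,⟨true,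
  0,⟨0,[(2,0)]⟩,⟨0,[(3,0),(24,0)]⟩⟩,⟨false,1,⟨1,[(10,0),(0,0),(20,0)]⟩,⟨0,[]⟩⟩,⟨false,0,⟨0,[(1,0)]⟩,
  ⟨0,[(5,0),(26,0)]⟩⟩,⟨true,0,⟨0,[(30,0)]⟩,⟨0,[(29,0)]⟩⟩,[.e ⟨false,0,⟨0,[(34,0)]⟩,⟨1,[(31,0),(0,
  0)]⟩⟩ ⟨false,0,⟨0,[(3,0),(24,0)]⟩,⟨1,[(2,1),(28,0),(0,0)]⟩⟩,.o ⟨false,1,⟨1,[(3,1),(0,1),(17,0),(8,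
  0)]⟩,⟨0,[(0,0)]⟩⟩,.o ⟨false,1,⟨1,[(4,1),(17,0),(8,0)]⟩,⟨0,[(18,0)]⟩⟩,.a ⟨true,0,⟨0,[(4,0)]⟩,⟨19,
  [(7,9),(2,3),(0,3),(14,4),(5,0),(1,1)]⟩⟩ ⟨false,0,⟨0,[]⟩,⟨1,[(10,0),(0,0),(20,0)]⟩⟩ ⟨true,0,⟨0,
  [(3,0),(24,0)]⟩,⟨0,[(2,0)]⟩⟩]⟩) (.R ⟨2,true,false,false,[0,1],[0,1,1],[0,1],(⟨0,[]⟩,⟨0,[]⟩),(⟨0,
  [(20,0),(3,0)]⟩,⟨0,[(8,0)]⟩),⟨0,[]⟩,.k,.k,.k,.k,.k,.k,⟨false,1,⟨0,[(2,0),(28,0)]⟩,⟨0,[(3,0)]⟩⟩,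
  ⟨true,0,⟨0,[(4,0)]⟩,⟨0,[(18,0)]⟩⟩,⟨false,1,⟨3,[(6,1),(3,0),(0,0),(20,0)]⟩,⟨0,[(27,0)]⟩⟩,⟨true,0,
  ⟨0,[(0,0),(28,0)]⟩,⟨0,[(16,0)]⟩⟩,⟨true,0,⟨0,[(28,0)]⟩,⟨1,[(17,0),(0,0)]⟩⟩,⟨false,0,⟨0,[(0,0)]⟩,⟨3,
  [(2,3),(4,1),(2,0),(0,0),(10,0),(9,1)]⟩⟩,[]⟩)) (.S ⟨1,0,[0,0,0,0,0,0,0,1],[0,0,1],[0,1,0,0,0,0,0,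
  1],(⟨0,[(19,0)]⟩,⟨0,[(18,0)]⟩),⟨0,[(8,0)]⟩,.k,.k,⟨true,0,⟨0,[(33,0)]⟩,⟨0,[]⟩⟩,⟨false,1,⟨1,[(9,0),
  (0,0),(20,0)]⟩,⟨0,[]⟩⟩,⟨false,0,⟨0,[(29,0)]⟩,⟨0,[(28,0),(2,0)]⟩⟩,⟨true,0,⟨0,[(29,0)]⟩,⟨0,[(28,
  0)]⟩⟩,[.a ⟨true,0,⟨0,[(0,0),(2,0)]⟩,⟨1,[(15,1),(9,0),(5,0)]⟩⟩ ⟨false,0,⟨0,[(0,0),(26,0)]⟩,⟨0,[(1,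
  0),(27,0),(1,0)]⟩⟩ ⟨true,0,⟨0,[(0,0)]⟩,⟨0,[(1,0),(24,0)]⟩⟩,.o ⟨false,1,⟨1,[(0,1),(2,1),(17,0),(9,
  0)]⟩,⟨0,[(15,0)]⟩⟩,.a ⟨true,0,⟨0,[(3,0)]⟩,⟨19,[(6,9),(2,3),(0,3),(14,4),(5,0),(1,1)]⟩⟩ ⟨false,0,
  ⟨0,[(0,0)]⟩,⟨0,[(1,0),(27,0),(1,0)]⟩⟩ ⟨true,0,⟨0,[(0,0)]⟩,⟨0,[(1,0),(27,0)]⟩⟩,.a ⟨true,0,⟨0,[(16,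
  0)]⟩,⟨0,[(13,0)]⟩⟩ ⟨true,0,⟨0,[(0,0),(26,0)]⟩,⟨0,[(1,0),(24,0)]⟩⟩ ⟨false,1,⟨1,[(0,1),(29,0),(0,
  0)]⟩,⟨0,[(1,0),(24,0)]⟩⟩]⟩))) (.I [0,0,-2,-2,1,0,0,-1] (.K ⟨0,[0,1,1],0,0,(⟨0,[(18,0),(3,0)]⟩,⟨0,
  [(6,0)]⟩),.k,.k,(.r 0 ⟨0,[(3,0),(21,1),(6,0)]⟩ ⟨0,[(0,0)]⟩),.k,.k,[⟨1,[(15,0),(0,0)]⟩,⟨0,[(2,0)]⟩,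
  ⟨0,[(1,0),(14,0)]⟩,⟨0,[(13,0),(14,0)]⟩]⟩) (.I [0,0,0,1,0,0,0,1] (.S ⟨1,0,[0,1,1,1,0,0,0,1],[0,1,
  1],[1,0,1],(⟨0,[(19,0),(3,0)]⟩,⟨0,[(7,0)]⟩),⟨0,[(19,0)]⟩,.k,.k,⟨false,1,⟨1,[(2,1),(13,0),(0,0),
  (13,1)]⟩,⟨0,[(0,0)]⟩⟩,⟨true,0,⟨0,[(33,0)]⟩,⟨0,[]⟩⟩,⟨true,0,⟨0,[(2,0),(23,0)]⟩,⟨0,[(4,0)]⟩⟩,⟨false,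
  0,⟨0,[(29,0)]⟩,⟨0,[(28,0),(2,0)]⟩⟩,[.e ⟨false,0,⟨0,[]⟩,⟨1,[(9,0),(0,0),(19,0)]⟩⟩ ⟨false,0,⟨4,[(0,
  2),(0,0),(2,0),(4,0),(0,0),(13,1)]⟩,⟨0,[(2,0),(28,0)]⟩⟩,.e ⟨false,1,⟨1,[(9,0),(0,0),(20,0)]⟩,⟨0,
  [(27,0)]⟩⟩ ⟨false,0,⟨0,[(0,0)]⟩,⟨4,[(2,2),(2,0),(9,1),(0,1),(13,0),(0,2)]⟩⟩,.o ⟨false,1,⟨1,[(3,1),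
  (17,0),(8,0)]⟩,⟨0,[(17,0)]⟩⟩,.a ⟨true,0,⟨0,[(3,0)]⟩,⟨19,[(6,9),(2,3),(0,3),(14,4),(5,0),(1,1)]⟩⟩
  ⟨true,0,⟨0,[]⟩,⟨0,[(33,0)]⟩⟩ ⟨false,0,⟨0,[(0,0)]⟩,⟨1,[(2,1),(13,0),(0,0),(13,1)]⟩⟩]⟩) (.S ⟨1,0,[0,
  1,0,0,0,0,0,1],[0,0,1],[0,0,0,0,0,0,0,1],(⟨0,[(19,0)]⟩,⟨0,[(18,0)]⟩),⟨0,[(8,0)]⟩,.k,.k,⟨false,1,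
  ⟨1,[(9,0),(0,0),(20,0)]⟩,⟨0,[]⟩⟩,⟨true,0,⟨0,[(33,0)]⟩,⟨0,[]⟩⟩,⟨true,0,⟨0,[(29,0)]⟩,⟨0,[(28,0)]⟩⟩,
  ⟨false,0,⟨0,[(29,0)]⟩,⟨0,[(28,0),(2,0)]⟩⟩,[.a ⟨true,0,⟨0,[(14,0)]⟩,⟨0,[(0,0),(12,0),(12,0)]⟩⟩
  ⟨false,1,⟨1,[(4,1),(25,0),(0,0)]⟩,⟨0,[(2,0),(23,0)]⟩⟩ ⟨true,0,⟨0,[(4,0)]⟩,⟨0,[(0,0),(25,0)]⟩⟩,.o
  ⟨false,1,⟨1,[(14,1),(6,0),(9,0)]⟩,⟨1,[(0,1),(0,0),(0,0),(10,1),(7,0),(4,0)]⟩⟩,.a ⟨true,0,⟨0,[(3,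
  0)]⟩,⟨19,[(6,9),(2,3),(0,3),(14,4),(5,0),(1,1)]⟩⟩ ⟨false,1,⟨0,[(4,0),(26,0)]⟩,⟨0,[(2,0),(23,0)]⟩⟩
  ⟨true,0,⟨0,[(4,0)]⟩,⟨0,[(2,0),(23,0)]⟩⟩,.a ⟨true,0,⟨0,[(16,0)]⟩,⟨0,[(13,0)]⟩⟩ ⟨true,1,⟨1,[(4,1),
  (25,0),(0,0)]⟩,⟨0,[(0,0),(0,0),(0,0)]⟩⟩ ⟨false,1,⟨1,[(4,1),(25,0),(0,0)]⟩,⟨0,[(0,0),(25,
  0)]⟩⟩]⟩))))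

theorem ok25 : chk K t25 r2 = true := by decide +kernel

noncomputable def t12 : Tre :=
  .I [1,0,2,2,-1,0,0,-1] t10 t11

theorem ok12 : chk K t12 r12 = true :=
  chk_I (e' := [0,0,-2,-2,1,0,0,1]) (by decide +kernel) (by decide +kernel) ok10 ok11

noncomputable def t13 : Tre :=
  .I [0,0,-2,-1,1] t9 t12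

theorem ok13 : chk K t13 r11 = true :=
  chk_I (e' := [1,0,2,1,-1]) (by decide +kernel) (by decide +kernel) ok9 ok12

noncomputable def t14 : Tre :=
  .Q [0,-1,0,2,1,0,1,1,0,-1,1] (.p true [0,0,1] [1] (⟨0,[(24,0)]⟩,⟨0,[(23,0)]⟩) .k 1 (⟨0,[]⟩,⟨0,
  []⟩) .k .k) t8 t13

theorem ok14 : chk K t14 r10 = true :=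
  chk_Q (e' := [0,1,0,-2,-1,0,-1,-1,0,1,-1]) (by decide +kernel) (by decide +kernel) ok8 ok13

noncomputable def t15 : Tre :=
  .I [0,0,-2,-2,1] t7 t14

theorem ok15 : chk K t15 r9 = true :=
  chk_I (e' := [1,0,2,2,-1]) (by decide +kernel) (by decide +kernel) ok7 ok14

noncomputable def t16 : Tre :=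
  .Q [0,-1,0,1,1,0,1,1,0,-1,1] (.p true [0,0,1] [1] (⟨0,[(22,0)]⟩,⟨0,[(21,0)]⟩) .k 1 (⟨0,[]⟩,⟨0,
  []⟩) .k .k) t6 t15

theorem ok16 : chk K t16 l8 = true :=
  chk_Q (e' := [0,1,0,-1,-1,0,-1,-1,0,1,-1]) (by decide +kernel) (by decide +kernel) ok6 ok15

noncomputable def t18 : Tre :=
  .I [1,0,0,-1,0,0,0,1] t16 t17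

theorem ok18 : chk K t18 r7 = true :=
  chk_I (e' := [0,0,0,1,0,0,0,-1]) (by decide +kernel) (by decide +kernel) ok16 ok17

noncomputable def t19 : Tre :=
  .Q [0,-1,0,0,1,0,1,1,0,-1,1] (.p true [0,0,1] [1] (⟨0,[(20,0)]⟩,⟨0,[(19,0)]⟩) .k 1 (⟨0,[]⟩,⟨0,
  []⟩) .k .k) t5 t18

theorem ok19 : chk K t19 l6 = true :=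
  chk_Q (e' := [0,1,0,0,-1,0,-1,-1,0,1,-1]) (by decide +kernel) (by decide +kernel) ok5 ok18

noncomputable def t21 : Tre :=
  .I [1,0,0,0,0,0,0,1] t19 t20

theorem ok21 : chk K t21 r5 = true :=
  chk_I (e' := [0,0,0,0,0,0,0,-1]) (by decide +kernel) (by decide +kernel) ok19 ok20

noncomputable def t22 : Tre :=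
  .Q [0,-1,0,1,0,0,-1,-1,0,0,-1] (.p false [0,0,1] [] (⟨0,[(18,0)]⟩,⟨0,[(17,0)]⟩) .k 0 (⟨0,[]⟩,⟨0,
  []⟩) .k .k) t4 t21

theorem ok22 : chk K t22 r4 = true :=
  chk_Q (e' := [0,1,0,-1,0,0,1,1,0,0,1]) (by decide +kernel) (by decide +kernel) ok4 ok21

noncomputable def t23 : Tre :=
  .I [1,-1,0,1,0,0,0,-1] t3 t22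

theorem ok23 : chk K t23 r3 = true :=
  chk_I (e' := [0,1,0,-1,0,0,0,1]) (by decide +kernel) (by decide +kernel) ok3 ok22

noncomputable def t24 : Tre :=
  .Q [0,0,0,0,0,0,1,1,0,0,1] (.p true [0,0,1] [] (⟨0,[(16,0)]⟩,⟨0,[(15,0)]⟩) .k 0 (⟨0,[]⟩,⟨0,[]⟩)
  .k .k) t2 t23

theorem ok24 : chk K t24 l2 = true :=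
  chk_Q (e' := [0,0,0,0,0,0,-1,-1,0,0,-1]) (by decide +kernel) (by decide +kernel) ok2 ok23

noncomputable def t26 : Tre :=
  .Q [0,0,0,0,0,0,-1,0,0,0,-1] (.p false [0,0,1] [] (⟨0,[(15,0)]⟩,⟨0,[(14,0)]⟩) .k 0 (⟨0,[]⟩,⟨0,
  []⟩) .k .k) t24 t25

theorem ok26 : chk K t26 r1 = true :=
  chk_Q (e' := [0,0,0,0,0,0,1,0,0,0,1]) (by decide +kernel) (by decide +kernel) ok24 ok25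

noncomputable def t27 : Tre :=
  .I [1,-1,0,0,0,0,0,-1] t1 t26

theorem ok27 : chk K t27 r0 = true :=
  chk_I (e' := [0,1,0,0,0,0,0,1]) (by decide +kernel) (by decide +kernel) ok1 ok26

noncomputable def t28 : Tre :=
  .I [1,-1,2,2,-1] t0 t27

theorem ok28 : chk K t28 base = true :=
  chk_I (e' := [0,1,-2,-2,1]) (by decide +kernel) (by decide +kernel) ok0 ok27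

theorem closed {p a b c J l q : ℤ} {D dl : ℝ} {Cl : ℤ → ℤ → ℤ → ℤ → ℝ → Prop}
    (W : World p a b c J 1 l q D dl Cl) (g : G0 p a b c J D)
    {N X R : ℤ} {I : ℝ} (hk : KCl p l Cl N X R I) (kz : KF a b D (X + (1 : ℤ) * I) (X + (1 : ℤ) * I + R) I)
    {Ne Xe : ℤ} {Ie : ℝ} (he : EFac p 1 D Cl 1 Ne Xe Ie)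
    (hkf : ∀ kf ∈ (kfY 1 [0,0,0,0,0,0,1,0,0,0,1]), KOk p l Cl 1
      (xv [1, a, b, c, p, J, X, R, Xe] [D, I, Ie]) N kf)
    (h0 : 1 ≤ (c : ℝ))
    (h1 : 1 ≤ (a : ℝ) - (b : ℝ))
    (h2 : 1 ≤ 1 - (a : ℝ) + (b : ℝ) + (c : ℝ))
    (h3 : 0 < 1 - (p : ℝ) + 2 * D)
    (h4 : 1 ≤ 2 * (a : ℝ) - (b : ℝ))
    (h5 : 1 ≤ 2 - (J : ℝ))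
    (h6 : 0 < -(b : ℝ) - (X : ℝ) + D - I)
    (h7 : 0 < -(J : ℝ) + I)
    (h8 : 0 < -(J : ℝ) + D - I)
    (h9 : 0 < -2 * (X : ℝ) + D - 2 * I) : False := by
  have g1 := g.a2
  have g2 := g.b2
  have g3 := g.pa
  have g4 := g.pb
  have g5 := g.J1
  have g6 := g.JD
  have g7 := g.D2
  have g8 := g.ca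
  have g9 := g.ca'
  have k1 := kz.I0
  have k2 := kz.ID
  have k3 := kz.z1
  have k4 := kz.z2
  have k5 := kz.s1
  have k6 := kz.s2
  have e1 := he.I0
  have e2 := he.ID
  have e3 := he.x0
  have e4 := he.xp
  push_cast at *
  refine (val_E W.toBase hk he (row := [1]) (by simp) (by simp) (kfY 1 [0,0,0,0,0,0,1,0,0,0,1])).sound W rfl (Nk := N)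
    (fun kf _ _ => ⟨_, rfl⟩) hkf ?_ ok28
  · simp only [base, List.forall_mem_cons, List.not_mem_nil, false_imp_iff, implies_true,
      and_true, hld, xv, evg_cons, evg_nil, List.map_cons, List.map_nil, List.cons_append,
      List.nil_append, if_true, if_false, Bool.false_eq_true]
    push_cast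
    refine ⟨?_, ?_, ?_, ?_, ?_, ?_, ?_, ?_, ?_, ?_, ?_, ?_, ?_, ?_, ?_, ?_, ?_, ?_, ?_, ?_, ?_, ?_, ?_, ?_, ?_, ?_, ?_, ?_⟩ <;> linarith

end Helper48.Y.Y11_c2_L2_m1n1

namespace Helper48.Y.Y11_c35_P2_m1n0

open Helper25.KG Helper25.KW Helper55.KE Helper11.CT

noncomputable def K : Cls :=
  cE 1 [1] (kfY 1 [0,0,0,0,0,0,1,0,0,0,1])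

noncomputable def base : List Con :=
  [(false,[0,0,0,0,0,0,-2,0,0,1,-2]),
  (false,[0,0,0,0,0,1,0,0,0,-1,1]),
  (false,[0,0,0,0,0,-1,0,0,0,0,1]),
  (false,[0,0,0,0,1,0,0,0,-1,0,0,-1]),
  (false,[0,0,0,0,0,0,0,0,1,0,0,1]),
  (false,[0,0,0,0,0,0,0,0,0,1,0,-1]),
  (false,[0,0,0,0,0,0,0,0,0,0,0,1]),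
  (false,[0,0,-1,0,0,0,-1,0,0,1,-1]),
  (false,[0,1,0,0,0,0,1,1,0,0,1]),
  (false,[0,1,0,0,0,0,-1,-1,0,0,-1]),
  (false,[0,0,1,0,0,0,1,0,0,0,1]),
  (false,[0,0,1,0,0,0,-1,0,0,0,-1]),
  (false,[0,0,0,0,0,0,0,0,0,1,-1]),
  (false,[0,0,0,0,0,0,0,0,0,0,1]),
  (true,[3,0,0,0,0,-1]),
  (true,[-1,0,0,0,0,1]),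
  (false,[0,0,0,0,1,0,0,0,0,-2]),
  (false,[0,0,0,0,0,-1,0,0,0,1]),
  (true,[0,0,0,0,0,1]),
  (true,[0,2,-1]),
  (false,[1,0,0,0,2,0,0,0,0,-5]),
  (true,[0,2,-1]),
  (true,[1,-1,1]),
  (true,[0,1,0,-1]),
  (true,[0,0,0,1]),
  (true,[0,0,-2,0,1]),
  (true,[0,-2,0,0,1]),
  (true,[-1,0,1]),
  (true,[-1,1])]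

noncomputable def l0 : List Con := (true, [1,1,0,0,0,0,0,1]) :: base

noncomputable def r0 : List Con := (true, [0,-1,0,0,0,0,0,-1]) :: base

noncomputable def l1 : List Con := (false, [0,0,0,1,0,0,-1,-1,0,0,-1]) :: l0

noncomputable def r1 : List Con := (false, [0,0,0,-1,0,0,1,1,0,0,1]) :: l0

noncomputable def l2 : List Con := (false, [0,1,0,-1,0,0,1,1,0,0,1]) :: l1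

noncomputable def r2 : List Con := (false, [0,-1,0,1,0,0,-1,-1,0,0,-1]) :: l1

noncomputable def t0 : Tre :=
  (.Q [0,0,0,1,0,0,-1,0,0,0,-1] (.p false [0,0,1] [] (⟨0,[(16,0)]⟩,⟨0,[(15,0)]⟩) .k 0 (⟨0,[]⟩,⟨0,
  []⟩) .k .k) (.I [1,0,-1,0,0,0,0,1] (.R ⟨2,true,false,true,[0,1],[0,0,1],[0,0,1,1],(⟨0,[]⟩,⟨0,[]⟩),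
  (⟨0,[(18,0)]⟩,⟨0,[(17,0)]⟩),⟨0,[]⟩,.k,.k,.k,.k,.k,.k,⟨false,1,⟨1,[(3,1),(11,1),(14,0),(0,0)]⟩,⟨0,
  [(0,0),(27,0)]⟩⟩,⟨true,0,⟨0,[(15,0)]⟩,⟨0,[(0,0),(13,0),(12,0)]⟩⟩,⟨false,1,⟨1,[(8,0),(0,0),(21,
  0)]⟩,⟨0,[]⟩⟩,⟨true,0,⟨0,[(2,0)]⟩,⟨0,[(3,0)]⟩⟩,⟨true,0,⟨0,[(29,0)]⟩,⟨0,[(28,0)]⟩⟩,⟨false,0,⟨0,[(0,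
  0),(14,0)]⟩,⟨0,[(14,0),(16,0)]⟩⟩,[]⟩) (.I [0,0,2,2,-1,0,0,-1] (.Q [0,1,0,0,0,0,1,1,0,-1,1] (.p
  true [0,0,1] [1] (⟨0,[(19,0)]⟩,⟨0,[(18,0)]⟩) .k 1 (⟨0,[]⟩,⟨0,[]⟩) .k .k) (.Q [0,-1,0,1,0,0,-1,-1,
  0,1,-1] (.p false [0,0,1] [1] (⟨0,[(20,0)]⟩,⟨0,[(19,0)]⟩) .k 1 (⟨0,[]⟩,⟨0,[]⟩) .k .k) (.R ⟨2,true,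
  false,false,[0,1],[1,1,-1],[0,0,1,1],(⟨0,[]⟩,⟨0,[]⟩),(⟨0,[(20,0),(5,0)]⟩,⟨0,[(10,0)]⟩),⟨0,[]⟩,.k,
  .k,.k,.k,.k,.k,⟨true,0,⟨0,[(1,0),(13,0),(14,0)]⟩,⟨0,[(3,0)]⟩⟩,⟨false,0,⟨0,[(15,0)]⟩,⟨9,[(11,0),(0,
  0),(5,9),(9,1),(4,4)]⟩⟩,⟨false,1,⟨1,[(11,0),(0,0),(21,0)]⟩,⟨0,[]⟩⟩,⟨true,0,⟨0,[(0,0),(30,0)]⟩,⟨0,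
  [(1,0)]⟩⟩,⟨true,0,⟨0,[(32,0)]⟩,⟨0,[(31,0)]⟩⟩,⟨false,0,⟨0,[(0,0)]⟩,⟨9,[(5,9),(5,0),(0,0),(15,1),(5,
  4)]⟩⟩,[]⟩) (.S ⟨1,0,[0,0,1,1,0,0,0,-1],[1,1,-1],[1,1,1,0,0,0,0,-1],(⟨0,[(20,0),(5,0)]⟩,⟨0,[(10,
  0)]⟩),⟨0,[(20,0)]⟩,.k,.k,⟨true,0,⟨0,[(31,0)]⟩,⟨0,[(32,0)]⟩⟩,⟨false,1,⟨1,[(11,0),(0,0),(21,0)]⟩,⟨0,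
  []⟩⟩,⟨false,0,⟨0,[]⟩,⟨1,[(11,0),(0,0),(21,0)]⟩⟩,⟨true,0,⟨0,[(32,0)]⟩,⟨0,[(31,0)]⟩⟩,[.o ⟨false,0,
  ⟨0,[(6,0)]⟩,⟨9,[(5,9),(5,0),(0,0),(15,1),(5,4)]⟩⟩,.o ⟨false,1,⟨1,[(6,1),(4,0),(0,0),(21,0)]⟩,⟨0,
  [(0,0)]⟩⟩,.a ⟨true,0,⟨0,[(15,0)]⟩,⟨0,[(18,0)]⟩⟩ ⟨false,0,⟨0,[(3,0)]⟩,⟨0,[(1,0),(13,0),(18,0)]⟩⟩
  ⟨true,0,⟨3,[(2,1),(0,1),(7,0),(0,0),(20,0)]⟩,⟨0,[(0,0),(14,0)]⟩⟩,.o ⟨false,0,⟨0,[(0,0),(5,0),(8,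
  0),(14,0)]⟩,⟨9,[(11,0),(0,0),(5,9),(9,1),(4,4)]⟩⟩]⟩)) (.Q [0,0,0,0,0,0,-1,0,0,0,-1] (.p false [0,
  0,1] [] (⟨0,[(20,0)]⟩,⟨0,[(19,0)]⟩) .k 0 (⟨0,[]⟩,⟨0,[]⟩) .k .k) (.Q [0,-1,-1,-1,1,0,1,0,0,0,1]
  (.p true [0,0,1] [] (⟨0,[(21,0)]⟩,⟨0,[(20,0)]⟩) .k 0 (⟨0,[]⟩,⟨0,[]⟩) .k .k) (.Q [0,-1,0,2,0,0,-1,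
  -1,0,0,-1] (.p false [0,0,1] [] (⟨0,[(22,0)]⟩,⟨0,[(21,0)]⟩) .k 0 (⟨0,[]⟩,⟨0,[]⟩) .k .k) (.R ⟨1,
  true,false,false,[0,0,1],[0,1],[1,0,0,-1,0,0,0,1],(⟨0,[(23,0)]⟩,⟨0,[(22,0)]⟩),(⟨0,[(28,0)]⟩,⟨0,
  [(27,0)]⟩),⟨0,[(12,0)]⟩,.k,.k,.k,.k,(.r (-2) ⟨5,[(1,7),(5,1),(1,3),(0,4),(19,0),(2,1),(1,1)]⟩ ⟨0,
  [(4,0)]⟩),.k,⟨true,1,⟨0,[(1,0),(0,1),(4,0)]⟩,⟨0,[(4,0)]⟩⟩,⟨false,1,⟨5,[(10,0),(6,3),(12,0),(4,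
  3)]⟩,⟨0,[(20,0)]⟩⟩,⟨false,1,⟨0,[(33,0),(2,0)]⟩,⟨0,[(34,0)]⟩⟩,⟨true,0,⟨0,[(8,0)]⟩,⟨0,[(7,0)]⟩⟩,
  ⟨true,0,⟨0,[]⟩,⟨0,[(38,0)]⟩⟩,⟨false,0,⟨0,[(0,0)]⟩,⟨0,[(7,0),(25,0),(2,0)]⟩⟩,[]⟩) (.I [1,0,0,0,0,0,
  0,-1] (.R ⟨0,false,false,false,[1,0,-1],[1,-1],[0,1],(⟨0,[(23,0)]⟩,⟨0,[(24,0)]⟩),(⟨0,[(28,0)]⟩,⟨0,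
  [(29,0)]⟩),⟨0,[(12,0)]⟩,.k,.k,.k,.k,.k,.k,⟨false,0,⟨4,[(5,0),(1,0),(6,0),(0,0),(3,0),(12,1),(2,
  1)]⟩,⟨0,[(2,0),(0,0)]⟩⟩,⟨true,0,⟨0,[(21,0)]⟩,⟨0,[(3,0)]⟩⟩,⟨true,0,⟨0,[(1,0),(1,0),(31,1)]⟩,⟨0,[(0,
  0)]⟩⟩,⟨false,1,⟨1,[(1,0),(17,0),(17,1)]⟩,⟨0,[(9,0)]⟩⟩,⟨false,0,⟨0,[]⟩,⟨0,[]⟩⟩,⟨false,0,⟨0,[]⟩,⟨0,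
  []⟩⟩,[.a ⟨true,0,⟨1,[(1,0),(2,1),(14,0)]⟩,⟨0,[(35,0)]⟩⟩ ⟨true,0,⟨0,[(39,0)]⟩,⟨0,[(33,0)]⟩⟩ ⟨false,
  1,⟨5,[(2,4),(11,0),(0,0),(5,0),(10,1),(1,0)]⟩,⟨0,[(7,0)]⟩⟩,.e ⟨false,1,⟨1,[(14,0),(0,0),(20,0)]⟩,
  ⟨0,[]⟩⟩ ⟨false,1,⟨0,[(2,0)]⟩,⟨8,[(5,0),(1,6),(2,0),(3,0),(0,0),(6,1),(9,3)]⟩⟩,.o ⟨false,0,⟨0,[(3,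
  0)]⟩,⟨9,[(14,0),(0,0),(5,9),(9,1),(4,4)]⟩⟩,.e ⟨false,1,⟨1,[(14,0),(0,0),(20,0)]⟩,⟨0,[(33,0)]⟩⟩
  ⟨false,1,⟨0,[(2,0)]⟩,⟨9,[(5,1),(1,5),(6,0),(0,0),(3,1),(2,5),(14,0)]⟩⟩]⟩) (.Q [0,0,-1,0,1,0,1,0,0,
  -1,1] (.p true [0,0,1] [1] (⟨0,[(24,0)]⟩,⟨0,[(23,0)]⟩) .k 1 (⟨0,[]⟩,⟨0,[]⟩) .k .k) (.R ⟨0,false,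
  false,true,[1,0,-1],[1,-1],[1,1],(⟨0,[(24,0)]⟩,⟨0,[(25,0)]⟩),(⟨0,[(29,0)]⟩,⟨0,[(30,0)]⟩),⟨0,[(13,
  0)]⟩,.k,.k,.k,.k,.k,.k,⟨false,0,⟨0,[(36,0)]⟩,⟨19,[(3,9),(8,4),(2,2),(0,2),(15,0),(2,9),(1,4)]⟩⟩,
  ⟨true,0,⟨0,[(22,0)]⟩,⟨0,[(4,0)]⟩⟩,⟨false,0,⟨0,[(1,0)]⟩,⟨3,[(0,1),(4,1),(1,1),(7,0),(0,0),(21,
  0)]⟩⟩,⟨true,0,⟨0,[(9,0)]⟩,⟨0,[(10,0)]⟩⟩,⟨false,0,⟨0,[]⟩,⟨0,[]⟩⟩,⟨false,0,⟨0,[]⟩,⟨0,[]⟩⟩,[.o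
  ⟨false,0,⟨0,[(35,0)]⟩,⟨9,[(15,0),(0,0),(15,1),(3,9),(1,4)]⟩⟩,.a ⟨true,0,⟨1,[(2,0),(2,1),(14,0)]⟩,
  ⟨0,[(36,0)]⟩⟩ ⟨true,0,⟨0,[]⟩,⟨1,[(22,0),(0,0)]⟩⟩ ⟨false,1,⟨5,[(3,4),(11,0),(0,0),(5,0),(10,1),(1,
  0)]⟩,⟨0,[(8,0)]⟩⟩,.o ⟨false,0,⟨0,[(4,0)]⟩,⟨20,[(0,10),(14,5),(0,5),(5,9),(9,1),(6,0)]⟩⟩,.o ⟨false,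
  0,⟨0,[(23,0)]⟩,⟨0,[(0,0)]⟩⟩]⟩) (.R ⟨0,false,false,true,[1,0,-1],[1,-1],[1,1],(⟨0,[(24,0)]⟩,⟨0,
  [(25,0)]⟩),(⟨0,[(29,0)]⟩,⟨0,[(30,0)]⟩),⟨0,[(13,0)]⟩,.k,.k,.k,.k,.k,.k,⟨false,0,⟨0,[(36,0)]⟩,⟨19,
  [(3,9),(8,4),(2,2),(0,2),(15,0),(2,9),(1,4)]⟩⟩,⟨true,0,⟨0,[(22,0)]⟩,⟨0,[(4,0)]⟩⟩,⟨false,0,⟨0,[(1,
  0)]⟩,⟨1,[(7,1),(29,0),(0,0)]⟩⟩,⟨true,0,⟨0,[(9,0)]⟩,⟨0,[(10,0)]⟩⟩,⟨false,0,⟨0,[]⟩,⟨0,[]⟩⟩,⟨false,0,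
  ⟨0,[]⟩,⟨0,[]⟩⟩,[.o ⟨false,0,⟨0,[(35,0)]⟩,⟨9,[(15,0),(0,0),(15,1),(3,9),(1,4)]⟩⟩,.a ⟨true,0,⟨1,[(2,
  0),(2,1),(14,0)]⟩,⟨0,[(36,0)]⟩⟩ ⟨true,0,⟨0,[]⟩,⟨1,[(22,0),(0,0)]⟩⟩ ⟨false,1,⟨5,[(3,4),(11,0),(0,
  0),(5,0),(10,1),(1,0)]⟩,⟨0,[(8,0)]⟩⟩,.o ⟨false,0,⟨0,[(4,0)]⟩,⟨9,[(15,0),(0,0),(5,9),(9,1),(4,
  4)]⟩⟩,.e ⟨false,1,⟨1,[(15,0),(0,0),(20,0)]⟩,⟨2,[(0,4),(0,1),(0,0),(0,3),(2,2),(25,0),(4,1)]⟩⟩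
  ⟨false,1,⟨5,[(3,4),(11,0),(0,0),(5,0),(10,1),(1,0)]⟩,⟨11,[(0,4),(0,2),(4,2),(1,5),(14,0),(8,0),(5,
  5)]⟩⟩]⟩)))) (.Q [0,0,0,-1,1,0,1,0,0,-1,1] (.p true [0,0,1] [1] (⟨0,[(22,0)]⟩,⟨0,[(21,0)]⟩) .k 1
  (⟨0,[]⟩,⟨0,[]⟩) .k .k) (.I [1,1,-2,-2,1,0,0,1] (.Q [0,-1,0,2,0,0,-1,-1,0,0,-1] (.p false [0,0,1]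
  [] (⟨0,[(24,0)]⟩,⟨0,[(23,0)]⟩) .k 0 (⟨0,[]⟩,⟨0,[]⟩) .k .k) (.R ⟨1,true,false,false,[0,0,1],[0,1],
  [1,0,0,-1,0,0,0,1],(⟨0,[(25,0)]⟩,⟨0,[(24,0)]⟩),(⟨0,[(30,0)]⟩,⟨0,[(29,0)]⟩),⟨0,[(14,0)]⟩,.k,.k,.k,
  .k,(.r (-2) ⟨1,[(1,1),(13,0),(0,0),(21,0)]⟩ ⟨0,[(6,0)]⟩),.k,⟨true,1,⟨0,[(1,0),(32,0)]⟩,⟨0,[(6,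
  0)]⟩⟩,⟨false,1,⟨5,[(12,0),(6,3),(12,0),(4,3)]⟩,⟨0,[(22,0)]⟩⟩,⟨false,1,⟨0,[(35,0),(2,0)]⟩,⟨0,[(36,
  0)]⟩⟩,⟨true,0,⟨0,[(10,0)]⟩,⟨0,[(9,0)]⟩⟩,⟨true,0,⟨0,[]⟩,⟨0,[(40,0)]⟩⟩,⟨false,0,⟨0,[(0,0)]⟩,⟨0,[(9,
  0),(25,0),(2,0)]⟩⟩,[]⟩) (.Q [0,0,1,0,-1,0,-1,0,0,1,-1] (.p false [0,0,1] [1] (⟨0,[(25,0)]⟩,⟨0,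
  [(24,0)]⟩) .k 1 (⟨0,[]⟩,⟨0,[]⟩) .k .k) (.Q [0,1,0,1,0,0,1,1,0,-1,1] (.p true [0,0,1] [1] (⟨0,[(26,
  0)]⟩,⟨0,[(25,0)]⟩) .k 1 (⟨0,[]⟩,⟨0,[]⟩) .k .k) (.I [1,0,-1,-1,1,0,0,-1] (.R ⟨2,true,false,false,
  [0,1],[1,0,-1],[0,0,1,1],(⟨0,[]⟩,⟨0,[]⟩),(⟨0,[(27,0)]⟩,⟨0,[(28,0)]⟩),⟨0,[]⟩,.k,.k,.k,.k,.k,.k,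
  ⟨false,0,⟨1,[(1,1),(0,0),(19,0),(18,0)]⟩,⟨0,[(0,0)]⟩⟩,⟨true,(-1),⟨0,[(2,0)]⟩,⟨7,[(1,1),(3,5),(3,
  1),(8,0),(0,0),(20,1),(0,0)]⟩⟩,⟨false,1,⟨1,[(18,0),(0,0),(21,0)]⟩,⟨0,[]⟩⟩,⟨true,0,⟨0,[(8,0),(29,
  0)]⟩,⟨0,[(1,0)]⟩⟩,⟨true,0,⟨0,[(39,0)]⟩,⟨0,[(38,0)]⟩⟩,⟨false,0,⟨0,[(8,0)]⟩,⟨9,[(18,0),(0,0),(3,9),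
  (11,1),(5,4)]⟩⟩,[]⟩) (.R ⟨2,true,false,false,[0,1],[1,0,-1],[1,0,1],(⟨0,[]⟩,⟨0,[]⟩),(⟨0,[(27,0)]⟩,
  ⟨0,[(28,0)]⟩),⟨0,[]⟩,.k,.k,.k,.k,.k,.k,⟨false,0,⟨3,[(0,1),(3,0),(9,0),(26,0)]⟩,⟨0,[(10,0),(29,
  0)]⟩⟩,⟨true,(-1),⟨0,[(2,0)]⟩,⟨7,[(1,1),(3,5),(3,1),(8,0),(0,0),(20,1),(0,0)]⟩⟩,⟨false,1,⟨3,[(3,0),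
  (1,1),(2,0),(6,0),(25,1)]⟩,⟨0,[(39,0)]⟩⟩,⟨true,0,⟨0,[(8,0),(29,0)]⟩,⟨0,[(1,0)]⟩⟩,⟨true,0,⟨0,[]⟩,
  ⟨0,[(43,0)]⟩⟩,⟨false,0,⟨0,[(8,0)]⟩,⟨9,[(18,0),(0,0),(3,9),(11,1),(5,4)]⟩⟩,[]⟩)) (.Q [0,0,0,0,1,0,
  1,0,0,-2,1] (.p true [-1,1,1] [1] (⟨0,[(15,0)]⟩,⟨0,[(26,0),(4,0)]⟩) .k 1 (⟨0,[]⟩,⟨0,[]⟩) .k .k)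
  (.I [1,-1,1,0,0,0,0,-1] (.R ⟨0,false,false,false,[-1,1,1],[0,1],[1,1,1,0,0,0,0,1],(⟨0,[(17,0)]⟩,
  ⟨0,[(28,0),(4,0)]⟩),(⟨0,[(34,0)]⟩,⟨0,[(33,0)]⟩),⟨0,[(28,0)]⟩,.k,.k,.k,.k,.k,.k,⟨true,0,⟨15,[(3,3),
  (0,5),(0,1),(9,7),(0,0),(19,0)]⟩,⟨3,[(0,1),(9,1),(30,0),(0,0)]⟩⟩,⟨false,0,⟨0,[(23,0)]⟩,⟨3,[(1,1),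
  (17,0),(0,0),(5,1),(14,0)]⟩⟩,⟨true,0,⟨0,[(39,0)]⟩,⟨0,[(40,0)]⟩⟩,⟨false,0,⟨0,[(9,0)]⟩,⟨9,[(19,0),
  (0,0),(3,9),(11,1),(5,4)]⟩⟩,⟨false,0,⟨0,[]⟩,⟨0,[]⟩⟩,⟨false,0,⟨0,[]⟩,⟨0,[]⟩⟩,[.a ⟨true,0,⟨0,[(40,
  0)]⟩,⟨1,[(4,0),(4,1),(14,0)]⟩⟩ ⟨false,0,⟨0,[(15,0)]⟩,⟨0,[(0,0),(40,0)]⟩⟩ ⟨true,(-1),⟨0,[(3,0),(36,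
  0)]⟩,⟨0,[(6,0)]⟩⟩,.o ⟨false,1,⟨9,[(19,0),(0,0),(15,1),(3,9),(1,4)]⟩,⟨0,[(39,0)]⟩⟩,.o ⟨false,2,⟨1,
  [(1,1),(17,0),(0,0),(20,0)]⟩,⟨0,[(3,0)]⟩⟩,.o ⟨false,1,⟨0,[(1,0)]⟩,⟨1,[(9,0),(6,0),(7,0)]⟩⟩]⟩) (.R
  ⟨0,false,false,false,[-1,1,1],[0,1],[1,0,1,1,0,0,0,1],(⟨0,[(17,0)]⟩,⟨0,[(28,0),(4,0)]⟩),(⟨0,[(34,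
  0)]⟩,⟨0,[(33,0)]⟩),⟨0,[(28,0)]⟩,.k,.k,.k,.k,.k,.k,⟨true,0,⟨0,[(0,0),(37,0)]⟩,⟨0,[(11,0)]⟩⟩,⟨false,
  0,⟨0,[(23,0)]⟩,⟨3,[(1,1),(17,0),(0,0),(5,1),(14,0)]⟩⟩,⟨true,0,⟨0,[]⟩,⟨0,[(44,0)]⟩⟩,⟨false,0,⟨0,
  [(9,0)]⟩,⟨9,[(19,0),(0,0),(3,9),(11,1),(5,4)]⟩⟩,⟨false,0,⟨0,[]⟩,⟨0,[]⟩⟩,⟨false,0,⟨0,[]⟩,⟨0,[]⟩⟩,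
  [.a ⟨true,0,⟨0,[(40,0)]⟩,⟨1,[(4,0),(4,1),(14,0)]⟩⟩ ⟨false,0,⟨1,[(0,2),(9,0),(27,0),(3,0)]⟩,⟨5,[(1,
  0),(0,4),(1,0),(1,2),(3,1),(26,1),(3,3)]⟩⟩ ⟨true,(-1),⟨0,[(3,0),(36,0)]⟩,⟨0,[(6,0)]⟩⟩,.o ⟨false,1,
  ⟨9,[(19,0),(0,0),(15,1),(3,9),(1,4)]⟩,⟨0,[(39,0)]⟩⟩,.o ⟨false,2,⟨1,[(1,1),(17,0),(0,0),(20,0)]⟩,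
  ⟨0,[(3,0)]⟩⟩,.o ⟨false,1,⟨0,[(1,0)]⟩,⟨1,[(9,0),(6,0),(7,0)]⟩⟩]⟩)) (.I [0,0,0,1,0,0,0,1] (.Q [0,0,
  0,0,-1,0,-2,-2,0,2,-2] (.p false [0,0,1] [2,-1,-1] (⟨0,[(29,0)]⟩,⟨0,[(28,0)]⟩) .k 2 (⟨0,[(28,0),
  (4,0)]⟩,⟨0,[(17,0)]⟩) .k (.i 1 ⟨0,[(17,0),(0,0)]⟩ ⟨0,[(28,1)]⟩)) (.Q [0,0,0,-1,-1,0,-2,-2,0,2,-2]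
  (.p false [0,0,1] [2,-1,-1] (⟨0,[(30,0)]⟩,⟨0,[(29,0)]⟩) .k 2 (⟨0,[(29,0),(4,0)]⟩,⟨0,[(18,0)]⟩) .k
  (.i 1 ⟨0,[(18,0),(0,0)]⟩ ⟨0,[(29,1)]⟩)) (.R ⟨0,false,false,false,[-1,1,1],[0,1],[1,1,1],(⟨0,[(19,
  0)]⟩,⟨0,[(30,0),(4,0)]⟩),(⟨0,[(36,0)]⟩,⟨0,[(35,0)]⟩),⟨0,[(30,0)]⟩,.k,.k,.k,.k,.k,.k,⟨true,0,⟨0,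
  [(41,0)]⟩,⟨2,[(2,0),(9,0),(27,0),(3,0)]⟩⟩,⟨false,0,⟨0,[(25,0)]⟩,⟨29,[(8,19),(3,9),(8,0),(0,0),(3,
  9),(11,1),(4,9),(0,4)]⟩⟩,⟨true,0,⟨28,[(0,15),(5,24),(1,6),(3,21),(25,4),(0,1),(3,20)]⟩,⟨0,[(2,
  0)]⟩⟩,⟨false,0,⟨0,[(11,0)]⟩,⟨9,[(21,0),(0,0),(3,9),(11,1),(5,4)]⟩⟩,⟨false,0,⟨0,[]⟩,⟨0,[]⟩⟩,⟨false,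
  0,⟨0,[]⟩,⟨0,[]⟩⟩,[.a ⟨true,0,⟨0,[(42,0)]⟩,⟨3,[(3,0),(2,0),(0,0),(3,1),(16,1)]⟩⟩ ⟨false,0,⟨0,[(46,
  0)]⟩,⟨1,[(43,0),(0,0)]⟩⟩ ⟨true,(-1),⟨3,[(2,0),(0,0),(1,1),(6,0),(1,0)]⟩,⟨0,[(8,0)]⟩⟩,.o ⟨false,1,
  ⟨9,[(21,0),(0,0),(15,1),(3,9),(1,4)]⟩,⟨0,[(41,0)]⟩⟩,.o ⟨false,2,⟨29,[(8,19),(3,9),(8,3),(0,3),(3,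
  9),(11,7),(4,24),(0,4)]⟩,⟨0,[(5,0)]⟩⟩,.e ⟨false,0,⟨0,[]⟩,⟨1,[(21,0),(0,0),(21,0)]⟩⟩ ⟨false,0,⟨0,
  [(2,0),(8,0)]⟩,⟨0,[(8,0)]⟩⟩]⟩) (.Q [0,0,0,0,0,-2,0,0,0,1] (.pp false [-1,1]) (.R ⟨1,false,false,
  true,[1,-1],[1,0,-1],[1,1,-1,-2],(⟨0,[(36,0)]⟩,⟨0,[(37,0)]⟩),(⟨0,[(31,0)]⟩,⟨0,[(32,0)]⟩),⟨0,[(0,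
  0)]⟩,.k,.k,(.r (-2) ⟨2,[(8,1),(0,1),(2,1),(9,0),(0,0),(20,0)]⟩ ⟨3,[(1,0),(1,0),(2,1),(6,2)]⟩),.k,
  (.r (-2) ⟨1,[(8,1),(13,0),(0,0),(21,0)]⟩ ⟨0,[(13,0)]⟩),.k,⟨true,1,⟨15,[(6,3),(0,5),(0,9),(10,0),
  (19,0),(5,7)]⟩,⟨0,[(13,0)]⟩⟩,⟨false,1,⟨5,[(19,0),(6,3),(12,0),(4,3)]⟩,⟨0,[(29,0)]⟩⟩,⟨true,0,⟨0,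
  [(42,0)]⟩,⟨0,[(43,0)]⟩⟩,⟨false,0,⟨0,[(17,0)]⟩,⟨1,[(7,0),(19,0),(17,1)]⟩⟩,⟨false,0,⟨0,[]⟩,⟨1,[(22,
  0),(0,0),(21,0)]⟩⟩,⟨false,0,⟨0,[(17,0),(25,0)]⟩,⟨0,[(7,0),(37,0)]⟩⟩,[.o ⟨false,0,⟨0,[(28,0)]⟩,⟨0,
  [(1,0),(3,0)]⟩⟩,.o ⟨false,0,⟨22,[(2,9),(25,2),(10,3),(5,1),(1,0)]⟩,⟨41,[(1,17),(5,3),(0,1),(0,5),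
  (12,12),(0,12),(6,3),(14,2)]⟩⟩,.o ⟨false,0,⟨1,[(29,0),(0,0)]⟩,⟨9,[(22,0),(0,0),(15,1),(4,4)]⟩⟩,.a
  ⟨true,(-1),⟨0,[(6,0),(22,0)]⟩,⟨0,[(44,0)]⟩⟩ ⟨true,1,⟨41,[(2,18),(4,29),(0,7),(0,7),(29,5),(0,1),
  (3,32)]⟩,⟨3,[(1,0),(1,0),(2,1),(6,2)]⟩⟩ ⟨false,1,⟨5,[(2,1),(9,0),(15,0),(10,0),(4,5)]⟩,⟨0,[(27,0),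
  (13,1)]⟩⟩]⟩) (.I [0,0,0,0,1,0,0,0,-1] (.I [0,0,0,-1,0,1] (.C [(0,6),(2,1),(2,3),(0,0),(1,0),(5,3),
  (19,6),(5,0),(4,3)]) (.C [(0,1),(1,0),(0,0),(0,0),(2,0),(1,0)])) (.C [(0,0),(22,0),(2,0)])))) (.R
  ⟨0,false,false,true,[1,0,-1],[1,-1],[1,1],(⟨0,[(29,0)]⟩,⟨0,[(30,0)]⟩),(⟨0,[(34,0)]⟩,⟨0,[(35,0)]⟩),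
  ⟨0,[(18,0)]⟩,.k,.k,.k,.k,.k,.k,⟨false,0,⟨0,[(41,0)]⟩,⟨5,[(6,1),(0,1),(2,1),(9,0),(0,0),(20,0)]⟩⟩,
  ⟨true,0,⟨0,[(27,0)]⟩,⟨0,[(9,0)]⟩⟩,⟨false,0,⟨1,[(0,0),(3,0),(19,0)]⟩,⟨1,[(12,1),(29,0),(0,0)]⟩⟩,
  ⟨true,0,⟨0,[(14,0)]⟩,⟨0,[(15,0)]⟩⟩,⟨false,0,⟨0,[]⟩,⟨0,[]⟩⟩,⟨false,0,⟨0,[]⟩,⟨0,[]⟩⟩,[.o ⟨false,0,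
  ⟨0,[(40,0)]⟩,⟨1,[(0,0),(14,1),(27,0)]⟩⟩,.a ⟨true,0,⟨3,[(2,0),(2,0),(0,0),(3,1),(16,1)]⟩,⟨0,[(41,
  0)]⟩⟩ ⟨true,0,⟨0,[]⟩,⟨1,[(27,0),(0,0)]⟩⟩ ⟨false,1,⟨1,[(0,0),(2,1),(1,1),(5,1),(30,2)]⟩,⟨0,[(13,
  0)]⟩⟩,.o ⟨false,0,⟨0,[(9,0)]⟩,⟨5,[(0,0),(6,3),(3,1),(8,0),(0,0),(20,1)]⟩⟩,.e ⟨false,1,⟨1,[(20,0),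
  (0,0),(20,0)]⟩,⟨9,[(0,8),(1,7),(0,11),(1,1),(5,7),(25,1),(4,2)]⟩⟩ ⟨false,1,⟨1,[(0,0),(2,1),(1,1),
  (5,1),(30,2)]⟩,⟨0,[(8,0),(34,0)]⟩⟩]⟩)) (.Q [0,0,-2,0,2,0,1,0,0,-2,1] (.p true [-1,1,1] [1] (⟨0,
  [(17,0)]⟩,⟨0,[(28,0),(4,0)]⟩) .k 1 (⟨0,[]⟩,⟨0,[]⟩) .k .k) (.R ⟨1,false,false,true,[2,-1,-1],[1,
  -1],[0,0,-1,-1,0,0,0,-1],(⟨0,[(29,0),(4,0)]⟩,⟨0,[(18,0)]⟩),(⟨0,[(34,0)]⟩,⟨0,[(35,0)]⟩),⟨1,[(1,1),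
  (2,1),(0,1),(23,1),(1,3),(9,5),(0,0),(0,0)]⟩,.k,.k,(.x 1 ⟨1,[(4,1),(13,1),(8,0),(0,0),(6,1)]⟩ ⟨10,
  [(0,2),(0,7),(3,7),(23,10),(1,16),(2,4),(2,1),(3,23),(0,7),(0,3)]⟩),.k,.k,.k,⟨false,1,⟨5,[(1,3),
  (9,1),(30,4),(0,2)]⟩,⟨0,[(16,0)]⟩⟩,⟨true,1,⟨31,[(0,10),(19,5),(0,5),(5,20),(9,1),(6,0)]⟩,⟨0,[(4,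
  0)]⟩⟩,⟨false,1,⟨1,[(20,0),(0,0),(21,0)]⟩,⟨0,[]⟩⟩,⟨false,1,⟨9,[(20,0),(0,0),(3,9),(11,1),(5,4)]⟩,
  ⟨0,[(10,0)]⟩⟩,⟨true,0,⟨0,[(41,0)]⟩,⟨0,[(40,0)]⟩⟩,⟨false,1,⟨6,[(0,0),(10,0),(1,1),(11,7),(11,0),(3,
  2),(1,3)]⟩,⟨0,[(3,0)]⟩⟩,[.o ⟨false,0,⟨0,[(40,0)]⟩,⟨6,[(0,0),(10,0),(1,1),(11,0),(11,0),(3,2),(1,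
  3)]⟩⟩,.a ⟨true,0,⟨3,[(2,0),(2,0),(0,0),(3,1),(16,1)]⟩,⟨0,[(41,0)]⟩⟩ ⟨true,1,⟨1,[(1,1),(40,0),(0,
  0)]⟩,⟨0,[(8,0),(16,0),(13,0)]⟩⟩ ⟨false,2,⟨0,[(7,0),(34,0)]⟩,⟨1,[(2,0),(5,0),(30,0),(1,0)]⟩⟩,.o
  ⟨false,(-1),⟨0,[(4,0)]⟩,⟨15,[(0,10),(19,5),(0,5),(5,4),(9,1),(6,0)]⟩⟩,.o ⟨false,(-1),⟨1,[(4,1),
  (22,0),(0,0)]⟩,⟨0,[(0,0)]⟩⟩]⟩) (.I [1,-1,1,1,0,0,0,1] (.S ⟨1,0,[0,0,-1,-1,0,0,0,-1],[2,-1,-1],[0,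
  1,-1,-1,0,0,0,-1],(⟨0,[(30,0),(4,0)]⟩,⟨0,[(19,0)]⟩),⟨10,[(1,7),(0,7),(3,7),(23,10),(1,16),(2,4),
  (2,1),(3,23),(0,7),(0,3)]⟩,.k,(.x 1 ⟨3,[(1,1),(17,3),(8,0),(0,2),(6,3)]⟩ ⟨3,[(2,0),(3,3),(5,2),
  (17,3),(1,6),(2,0),(2,0),(3,2),(0,6),(0,1)]⟩),⟨true,0,⟨0,[(46,0)]⟩,⟨0,[]⟩⟩,⟨false,1,⟨1,[(21,0),(0,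
  0),(21,0)]⟩,⟨0,[]⟩⟩,⟨false,0,⟨0,[(42,0)]⟩,⟨11,[(4,2),(1,1),(0,0),(0,2),(12,1),(0,1),(6,1),(14,
  5)]⟩⟩,⟨true,0,⟨0,[(42,0)]⟩,⟨0,[(41,0)]⟩⟩,[.e ⟨false,1,⟨4,[(2,2),(1,0),(3,0),(4,0),(25,2),(3,3)]⟩,
  ⟨0,[(0,0)]⟩⟩ ⟨false,1,⟨0,[(2,0),(40,0)]⟩,⟨4,[(0,2),(11,0),(4,2),(3,0),(0,0)]⟩⟩,.o ⟨false,0,⟨0,[(4,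
  0)]⟩,⟨4,[(21,0),(0,0),(3,4),(11,1),(3,4)]⟩⟩,.o ⟨false,(-1),⟨0,[(5,0)]⟩,⟨29,[(8,19),(3,9),(8,3),(0,
  3),(3,9),(11,7),(4,24),(0,4)]⟩⟩,.a ⟨true,(-2),⟨0,[(1,0)]⟩,⟨29,[(8,19),(3,9),(8,0),(0,0),(3,9),(11,
  1),(4,39),(0,4)]⟩⟩ ⟨false,1,⟨0,[(2,0),(40,0)]⟩,⟨1,[(0,1),(27,0),(0,0)]⟩⟩ ⟨true,1,⟨0,[(2,0),(40,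
  0)]⟩,⟨63,[(0,16),(0,24),(7,20),(2,12),(13,59),(2,13),(8,9)]⟩⟩]⟩) (.R ⟨0,false,false,false,[1,0,
  -1],[0,1],[1,1,1],(⟨0,[(30,0)]⟩,⟨0,[(31,0)]⟩),(⟨0,[(36,0)]⟩,⟨0,[(35,0)]⟩),⟨0,[(19,0)]⟩,.k,.k,.k,
  .k,.k,.k,⟨true,0,⟨0,[(41,0)]⟩,⟨0,[(40,0),(1,0)]⟩⟩,⟨false,2,⟨29,[(8,19),(3,9),(8,0),(0,0),(3,9),
  (11,1),(4,39),(0,4)]⟩,⟨0,[(5,0)]⟩⟩,⟨false,0,⟨0,[(17,0),(22,0)]⟩,⟨5,[(0,3),(11,1),(30,2),(0,4)]⟩⟩,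
  ⟨true,1,⟨9,[(21,0),(0,0),(3,9),(11,1),(3,9),(1,4)]⟩,⟨9,[(0,9),(0,5),(16,0),(6,1),(12,0)]⟩⟩,⟨false,
  0,⟨0,[]⟩,⟨0,[]⟩⟩,⟨false,0,⟨0,[]⟩,⟨0,[]⟩⟩,[.a ⟨true,0,⟨0,[(42,0)]⟩,⟨3,[(3,0),(2,0),(0,0),(3,1),(16,
  1)]⟩⟩ ⟨false,0,⟨0,[(46,0)]⟩,⟨1,[(43,0),(0,0)]⟩⟩ ⟨true,1,⟨14,[(8,4),(3,9),(8,0),(0,0),(3,9),(11,1),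
  (4,9),(0,4)]⟩,⟨8,[(0,0),(0,4),(0,1),(0,6),(2,2),(31,2),(5,1)]⟩⟩,.o ⟨false,1,⟨9,[(21,0),(0,0),(15,
  1),(3,9),(1,4)]⟩,⟨0,[(41,0)]⟩⟩,.o ⟨false,0,⟨0,[(10,0)]⟩,⟨29,[(8,19),(3,9),(8,0),(0,0),(3,9),(11,
  1),(4,9),(0,4)]⟩⟩,.e ⟨false,0,⟨0,[]⟩,⟨1,[(21,0),(0,0),(21,0)]⟩⟩ ⟨false,2,⟨29,[(8,9),(3,19),(8,1),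
  (0,1),(3,19),(11,3),(4,34),(0,24)]⟩,⟨8,[(0,0),(0,4),(0,1),(0,6),(2,2),(31,2),(5,1)]⟩⟩]⟩)))))) (.I
  [1,0,0,0,0,0,0,-1] (.R ⟨0,false,false,true,[1,0,-1],[1,-1],[1,1,0,0,0,0,0,-1],(⟨0,[(26,0)]⟩,⟨0,
  [(27,0)]⟩),(⟨0,[(31,0)]⟩,⟨0,[(32,0)]⟩),⟨0,[(15,0)]⟩,.k,.k,.k,.k,.k,.k,⟨false,0,⟨1,[(0,0),(7,0),
  (30,0)]⟩,⟨1,[(3,0),(9,0),(26,0)]⟩⟩,⟨true,0,⟨0,[(24,0)]⟩,⟨0,[(6,0)]⟩⟩,⟨false,0,⟨0,[]⟩,⟨1,[(17,0),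
  (0,0),(21,0)]⟩⟩,⟨true,0,⟨0,[(11,0)]⟩,⟨0,[(12,0)]⟩⟩,⟨false,0,⟨0,[]⟩,⟨0,[]⟩⟩,⟨false,0,⟨0,[]⟩,⟨0,
  []⟩⟩,[.o ⟨false,0,⟨0,[(37,0)]⟩,⟨9,[(17,0),(0,0),(15,1),(3,9),(1,4)]⟩⟩,.a ⟨true,0,⟨1,[(2,0),(4,1),
  (14,0)]⟩,⟨0,[(38,0)]⟩⟩ ⟨true,0,⟨0,[(0,0)]⟩,⟨0,[(2,0),(2,0),(32,0),(1,0)]⟩⟩ ⟨false,1,⟨1,[(1,0),(0,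
  0),(4,0),(16,0),(14,0)]⟩,⟨0,[(10,0)]⟩⟩,.o ⟨false,0,⟨0,[(6,0)]⟩,⟨35,[(1,16),(2,3),(3,1),(8,9),(0,
  9),(3,1),(1,12),(9,2),(5,0)]⟩⟩,.o ⟨false,0,⟨0,[(25,0)]⟩,⟨0,[(1,0)]⟩⟩]⟩) (.R ⟨0,false,false,true,
  [1,0,-1],[1,-1],[1,1],(⟨0,[(26,0)]⟩,⟨0,[(27,0)]⟩),(⟨0,[(31,0)]⟩,⟨0,[(32,0)]⟩),⟨0,[(15,0)]⟩,.k,.k,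
  .k,.k,.k,.k,⟨false,0,⟨0,[(38,0)]⟩,⟨5,[(3,1),(0,1),(2,1),(9,0),(0,0),(20,0)]⟩⟩,⟨true,0,⟨0,[(24,
  0)]⟩,⟨0,[(6,0)]⟩⟩,⟨false,0,⟨0,[(0,0)]⟩,⟨1,[(9,1),(29,0),(0,0)]⟩⟩,⟨true,0,⟨0,[(11,0)]⟩,⟨0,[(12,
  0)]⟩⟩,⟨false,0,⟨0,[]⟩,⟨0,[]⟩⟩,⟨false,0,⟨0,[]⟩,⟨0,[]⟩⟩,[.o ⟨false,0,⟨0,[(37,0)]⟩,⟨9,[(17,0),(0,0),
  (15,1),(3,9),(1,4)]⟩⟩,.a ⟨true,0,⟨1,[(2,0),(4,1),(14,0)]⟩,⟨0,[(38,0)]⟩⟩ ⟨true,0,⟨0,[]⟩,⟨1,[(24,0),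
  (0,0)]⟩⟩ ⟨false,1,⟨1,[(1,0),(0,0),(4,0),(16,0),(14,0)]⟩,⟨0,[(10,0)]⟩⟩,.o ⟨false,0,⟨0,[(6,0)]⟩,⟨35,
  [(1,16),(2,3),(3,1),(8,9),(0,9),(3,1),(1,12),(9,2),(5,0)]⟩⟩,.o ⟨false,0,⟨0,[(25,0)]⟩,⟨0,[(1,
  0)]⟩⟩]⟩)))) (.R ⟨1,true,false,false,[0,0,1],[0,1],[0,0,0,0,0,0,0,1],(⟨0,[(24,0)]⟩,⟨0,[(23,0)]⟩),
  (⟨0,[(29,0)]⟩,⟨0,[(28,0)]⟩),⟨0,[(13,0)]⟩,.k,.k,.k,.k,(.r (-2) ⟨5,[(8,5),(2,0),(6,3),(12,0),(2,5),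
  (1,3),(0,5)]⟩ ⟨0,[(5,0)]⟩),.k,⟨true,1,⟨5,[(8,5),(2,0),(6,3),(12,0),(4,0),(0,2)]⟩,⟨0,[(0,0),(33,
  0)]⟩⟩,⟨false,1,⟨5,[(11,0),(6,3),(12,0),(4,3)]⟩,⟨0,[(21,0)]⟩⟩,⟨false,1,⟨1,[(14,0),(0,0),(21,0)]⟩,
  ⟨0,[]⟩⟩,⟨true,0,⟨0,[(9,0)]⟩,⟨0,[(8,0)]⟩⟩,⟨true,0,⟨0,[(35,0)]⟩,⟨0,[(34,0)]⟩⟩,⟨false,0,⟨6,[(0,5),(3,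
  0),(2,1),(10,3),(12,0),(4,3)]⟩,⟨0,[(8,0),(25,0),(2,0)]⟩⟩,[]⟩)) (.I [1,-1,-1,-1,1,0,0,1] (.Q [0,-1,
  0,2,0,0,-1,-1,0,0,-1] (.p false [0,0,1] [] (⟨0,[(24,0)]⟩,⟨0,[(23,0)]⟩) .k 0 (⟨0,[]⟩,⟨0,[]⟩) .k
  .k) (.R ⟨1,true,false,false,[0,0,1],[0,1],[1,0,0,-1,0,0,0,1],(⟨0,[(25,0)]⟩,⟨0,[(24,0)]⟩),(⟨0,[(30,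
  0)]⟩,⟨0,[(29,0)]⟩),⟨0,[(14,0)]⟩,.k,.k,.k,.k,(.r (-2) ⟨1,[(1,1),(13,0),(0,0),(18,1),(1,0)]⟩ ⟨0,[(6,
  0)]⟩),.k,⟨true,1,⟨0,[(1,0),(33,0)]⟩,⟨0,[(6,0)]⟩⟩,⟨false,1,⟨5,[(12,0),(6,3),(12,0),(4,3)]⟩,⟨0,[(22,
  0)]⟩⟩,⟨false,1,⟨0,[(35,0),(2,0)]⟩,⟨0,[(36,0)]⟩⟩,⟨true,0,⟨0,[(10,0)]⟩,⟨0,[(9,0)]⟩⟩,⟨true,0,⟨0,[]⟩,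
  ⟨0,[(40,0)]⟩⟩,⟨false,0,⟨0,[(0,0)]⟩,⟨0,[(9,0),(25,0),(2,0)]⟩⟩,[]⟩) (.R ⟨0,false,false,false,[1,0,
  -1],[1,-1],[],(⟨0,[(24,0)]⟩,⟨0,[(25,0)]⟩),(⟨0,[(29,0)]⟩,⟨0,[(30,0)]⟩),⟨0,[(13,0)]⟩,.k,.k,.k,.k,.k,
  .k,⟨false,0,⟨0,[(36,0)]⟩,⟨1,[(35,1),(1,0),(0,0)]⟩⟩,⟨true,0,⟨0,[(22,0)]⟩,⟨0,[(4,0)]⟩⟩,⟨true,0,⟨17,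
  [(0,1),(0,6),(0,9),(0,0),(16,8),(11,1),(1,4),(4,0)]⟩,⟨1,[(0,4),(1,1),(2,2),(0,3),(25,0),(4,3)]⟩⟩,
  ⟨false,1,⟨1,[(0,0),(19,0),(17,1)]⟩,⟨0,[(10,0)]⟩⟩,⟨false,0,⟨0,[]⟩,⟨0,[]⟩⟩,⟨false,0,⟨0,[]⟩,⟨0,[]⟩⟩,
  [.a ⟨true,0,⟨1,[(0,0),(4,1),(14,0)]⟩,⟨0,[(36,0)]⟩⟩ ⟨false,1,⟨1,[(15,0),(0,0),(20,0)]⟩,⟨0,[]⟩⟩
  ⟨true,1,⟨3,[(0,1),(6,1),(7,0),(0,0),(5,1),(14,1),(0,0)]⟩,⟨7,[(0,2),(1,8),(0,0),(1,0),(0,1),(25,1),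
  (1,2)]⟩⟩,.o ⟨false,1,⟨0,[(35,0),(2,0)]⟩,⟨6,[(0,0),(1,2),(3,2),(13,1),(11,1),(0,1),(3,1)]⟩⟩,.o
  ⟨false,0,⟨0,[(4,0)]⟩,⟨9,[(15,0),(0,0),(5,9),(9,1),(4,4)]⟩⟩,.e ⟨false,1,⟨1,[(37,0),(0,0)]⟩,⟨1,[(22,
  0),(0,0)]⟩⟩ ⟨false,2,⟨3,[(0,1),(6,1),(7,0),(0,0),(5,1),(14,3),(0,2)]⟩,⟨7,[(0,2),(1,8),(0,0),(1,0),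
  (0,1),(25,1),(1,2)]⟩⟩]⟩)) (.R ⟨1,true,false,false,[0,0,1],[0,1],[0,1,1],(⟨0,[(24,0)]⟩,⟨0,[(23,
  0)]⟩),(⟨0,[(29,0)]⟩,⟨0,[(28,0)]⟩),⟨0,[(13,0)]⟩,.k,.k,.k,.k,(.r (-2) ⟨5,[(8,5),(2,0),(6,3),(12,0),
  (2,5),(1,3),(0,5)]⟩ ⟨0,[(5,0)]⟩),.k,⟨true,0,⟨0,[(34,0)]⟩,⟨17,[(1,4),(0,0),(2,5),(13,5),(11,0),(1,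
  4),(3,9)]⟩⟩,⟨false,1,⟨5,[(11,0),(6,3),(12,0),(4,3)]⟩,⟨0,[(21,0)]⟩⟩,⟨false,0,⟨0,[(6,0)]⟩,⟨5,[(1,4),
  (6,4),(1,0),(20,0),(4,2),(0,5)]⟩⟩,⟨true,0,⟨0,[(9,0)]⟩,⟨0,[(8,0)]⟩⟩,⟨true,(-1),⟨0,[(0,0)]⟩,⟨5,[(8,
  5),(2,0),(6,3),(12,0),(4,0),(0,2)]⟩⟩,⟨false,0,⟨4,[(0,1),(0,3),(2,0),(0,1),(25,0),(4,2),(0,2)]⟩,⟨0,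
  [(8,0),(25,0),(2,0)]⟩⟩,[]⟩)))) (.I [0,0,0,0,0,0,0,-1] (.R ⟨0,false,false,true,[1,0,-1],[1,-1],[],
  (⟨0,[(21,0)]⟩,⟨0,[(22,0)]⟩),(⟨0,[(26,0)]⟩,⟨0,[(27,0)]⟩),⟨0,[(10,0)]⟩,.k,.k,.k,.k,.k,.k,⟨true,0,⟨0,
  [(31,0),(1,0)]⟩,⟨0,[(32,0)]⟩⟩,⟨false,0,⟨0,[(1,0)]⟩,⟨9,[(9,4),(2,2),(0,2),(15,0),(4,4)]⟩⟩,⟨false,1,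
  ⟨0,[(8,0),(26,0)]⟩,⟨0,[(0,0)]⟩⟩,⟨true,0,⟨0,[(6,0)]⟩,⟨0,[(7,0)]⟩⟩,⟨false,0,⟨0,[]⟩,⟨0,[]⟩⟩,⟨false,0,
  ⟨0,[]⟩,⟨0,[]⟩⟩,[.o ⟨false,0,⟨0,[(32,0)]⟩,⟨9,[(12,0),(0,0),(15,1),(3,9),(1,4)]⟩⟩,.e ⟨false,1,⟨1,
  [(34,0),(0,0)]⟩,⟨0,[(37,0)]⟩⟩ ⟨false,1,⟨1,[(1,1),(30,1),(1,0),(0,0)]⟩,⟨0,[(5,0)]⟩⟩,.a ⟨true,0,⟨1,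
  [(2,0),(6,0),(7,0)]⟩,⟨0,[(1,0)]⟩⟩ ⟨false,1,⟨1,[(12,0),(0,0),(21,0)]⟩,⟨0,[]⟩⟩ ⟨true,0,⟨0,[(1,0),
  (30,0)]⟩,⟨0,[(5,0)]⟩⟩,.o ⟨false,0,⟨0,[(20,0)]⟩,⟨4,[(1,3),(17,0),(9,0),(4,2)]⟩⟩]⟩) (.R ⟨2,true,
  false,true,[0,1],[0,0,1],[0,0,1,1],(⟨0,[]⟩,⟨0,[]⟩),(⟨0,[(22,0)]⟩,⟨0,[(21,0)]⟩),⟨0,[]⟩,.k,.k,.k,.k,
  .k,.k,⟨true,0,⟨23,[(1,9),(0,9),(0,11),(0,1),(24,1),(4,0),(0,6)]⟩,⟨0,[(0,0),(31,0)]⟩⟩,⟨false,0,⟨0,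
  [(1,0)]⟩,⟨9,[(9,4),(2,2),(0,2),(15,0),(4,4)]⟩⟩,⟨false,1,⟨1,[(12,0),(0,0),(21,0)]⟩,⟨0,[]⟩⟩,⟨true,0,
  ⟨0,[(6,0)]⟩,⟨0,[(7,0)]⟩⟩,⟨true,0,⟨0,[(33,0)]⟩,⟨0,[(32,0)]⟩⟩,⟨false,0,⟨0,[(0,0),(0,0)]⟩,⟨0,[(18,0),
  (16,0)]⟩⟩,[]⟩)))) (.Q [0,0,0,0,0,0,-1,0,0,0,-1] (.p false [0,0,1] [] (⟨0,[(19,0)]⟩,⟨0,[(18,0)]⟩)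
  .k 0 (⟨0,[]⟩,⟨0,[]⟩) .k .k) (.I [1,0,0,-1,0,0,0,1] (.Q [0,-1,0,0,1,0,1,1,0,-1,1] (.p true [0,0,1]
  [1] (⟨0,[(21,0)]⟩,⟨0,[(20,0)]⟩) .k 1 (⟨0,[]⟩,⟨0,[]⟩) .k .k) (.I [0,1,-1,0,0,0,0,1] (.Q [0,0,0,0,0,
  0,-1,-1,0,0,-1] (.p false [0,0,1] [] (⟨0,[(23,0)]⟩,⟨0,[(22,0)]⟩) .k 0 (⟨0,[]⟩,⟨0,[]⟩) .k .k) (.S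
  ⟨1,0,[0,0,0,0,0,0,0,1],[0,0,1],[0,1,0,0,0,0,0,1],(⟨0,[(24,0)]⟩,⟨0,[(23,0)]⟩),⟨0,[(13,0)]⟩,.k,.k,
  ⟨true,0,⟨0,[(39,0)]⟩,⟨0,[]⟩⟩,⟨false,1,⟨1,[(14,0),(0,0),(21,0)]⟩,⟨0,[]⟩⟩,⟨false,0,⟨0,[(35,0)]⟩,⟨0,
  [(34,0),(2,0)]⟩⟩,⟨true,0,⟨0,[(35,0)]⟩,⟨0,[(34,0)]⟩⟩,[.o ⟨false,1,⟨20,[(2,10),(11,5),(0,5),(3,9),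
  (11,1),(7,0)]⟩,⟨0,[(0,0)]⟩⟩,.o ⟨false,1,⟨0,[(2,0)]⟩,⟨0,[(20,0)]⟩⟩,.o ⟨false,1,⟨9,[(14,0),(0,0),(5,
  9),(9,1),(4,4)]⟩,⟨0,[(4,0)]⟩⟩,.a ⟨true,0,⟨0,[(21,0)]⟩,⟨0,[(18,0)]⟩⟩ ⟨true,0,⟨0,[(1,0)]⟩,⟨0,[(6,
  0)]⟩⟩ ⟨false,1,⟨0,[(2,0),(15,0)]⟩,⟨0,[(6,0)]⟩⟩]⟩) (.R ⟨2,true,false,true,[0,1],[0,0,1],[1,0,1],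
  (⟨0,[]⟩,⟨0,[]⟩),(⟨0,[(24,0)]⟩,⟨0,[(23,0)]⟩),⟨0,[]⟩,.k,.k,.k,.k,.k,.k,⟨false,1,⟨1,[(6,1),(29,0),(0,
  0)]⟩,⟨0,[(1,0)]⟩⟩,⟨true,0,⟨0,[(21,0)]⟩,⟨0,[(4,0)]⟩⟩,⟨false,1,⟨0,[(34,0),(2,0)]⟩,⟨0,[(35,0)]⟩⟩,
  ⟨true,0,⟨0,[(8,0)]⟩,⟨0,[(9,0)]⟩⟩,⟨true,0,⟨0,[]⟩,⟨0,[(39,0)]⟩⟩,⟨false,0,⟨0,[(0,0)]⟩,⟨0,[(20,0),(16,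
  0)]⟩⟩,[]⟩)) (.R ⟨0,false,false,true,[1,0,-1],[1,-1],[1,1],(⟨0,[(22,0)]⟩,⟨0,[(23,0)]⟩),(⟨0,[(27,
  0)]⟩,⟨0,[(28,0)]⟩),⟨0,[(11,0)]⟩,.k,.k,.k,.k,.k,.k,⟨false,0,⟨0,[(34,0)]⟩,⟨3,[(4,1),(0,1),(7,0),(0,
  0),(20,0)]⟩⟩,⟨true,0,⟨0,[(20,0)]⟩,⟨0,[(3,0)]⟩⟩,⟨false,0,⟨0,[(2,0),(31,0)]⟩,⟨1,[(5,1),(29,0),(0,
  0)]⟩⟩,⟨true,0,⟨0,[(7,0)]⟩,⟨0,[(8,0)]⟩⟩,⟨false,0,⟨0,[]⟩,⟨0,[]⟩⟩,⟨false,0,⟨0,[]⟩,⟨0,[]⟩⟩,[.o ⟨false,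
  0,⟨0,[(33,0)]⟩,⟨0,[(1,0),(6,0)]⟩⟩,.a ⟨true,0,⟨0,[(0,0),(6,0),(9,0)]⟩,⟨0,[(34,0)]⟩⟩ ⟨true,0,⟨0,[]⟩,
  ⟨1,[(20,0),(0,0)]⟩⟩ ⟨false,1,⟨0,[(0,0),(6,0),(27,0)]⟩,⟨0,[(6,0)]⟩⟩,.o ⟨false,0,⟨0,[(3,0)]⟩,⟨9,
  [(13,0),(0,0),(5,9),(9,1),(4,4)]⟩⟩,.e ⟨false,1,⟨1,[(13,0),(0,0),(20,0)]⟩,⟨0,[(0,0),(1,0),(31,
  0)]⟩⟩ ⟨false,1,⟨0,[(0,0),(6,0),(27,0)]⟩,⟨0,[(6,0),(25,0)]⟩⟩]⟩)) (.Q [0,-1,0,1,1,0,1,1,0,-1,1] (.p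
  true [0,0,1] [1] (⟨0,[(22,0)]⟩,⟨0,[(21,0)]⟩) .k 1 (⟨0,[]⟩,⟨0,[]⟩) .k .k) (.R ⟨2,true,false,true,
  [0,1],[1,0,-1],[1,1,1],(⟨0,[]⟩,⟨0,[]⟩),(⟨0,[(22,0)]⟩,⟨0,[(23,0)]⟩),⟨0,[]⟩,.k,.k,.k,.k,.k,.k,
  ⟨false,0,⟨0,[(2,0),(31,0)]⟩,⟨0,[(5,0),(29,0)]⟩⟩,⟨true,(-1),⟨0,[(1,0),(0,0),(29,0),(1,0)]⟩,⟨9,[(13,
  0),(0,0),(5,9),(9,1),(4,4)]⟩⟩,⟨true,0,⟨0,[(33,0)]⟩,⟨0,[(34,0)]⟩⟩,⟨false,0,⟨0,[(1,0),(31,0),(2,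
  0)]⟩,⟨0,[(0,0)]⟩⟩,⟨false,0,⟨0,[]⟩,⟨1,[(13,0),(0,0),(21,0)]⟩⟩,⟨true,(-1),⟨0,[(1,0)]⟩,⟨7,[(0,2),(6,
  2),(5,1),(0,1),(3,1),(11,0),(5,0)]⟩⟩,[]⟩) (.Q [0,0,0,-1,1,0,1,0,0,-1,1] (.p true [0,0,1] [1] (⟨0,
  [(23,0)]⟩,⟨0,[(22,0)]⟩) .k 1 (⟨0,[]⟩,⟨0,[]⟩) .k .k) (.R ⟨0,false,false,false,[-1,1,1],[0,1],[1,1,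
  1],(⟨0,[(12,0)]⟩,⟨0,[(23,0),(4,0)]⟩),(⟨0,[(29,0)]⟩,⟨0,[(28,0)]⟩),⟨0,[(23,0)]⟩,.k,.k,.k,.k,.k,.k,
  ⟨true,0,⟨0,[(34,0)]⟩,⟨0,[(33,0),(1,0)]⟩⟩,⟨false,0,⟨0,[(18,0)]⟩,⟨0,[(0,0),(34,0)]⟩⟩,⟨true,0,⟨0,[(0,
  0),(1,0)]⟩,⟨0,[(3,0),(31,1)]⟩⟩,⟨false,0,⟨0,[(2,0),(34,0)]⟩,⟨9,[(14,0),(0,0),(3,9),(11,1),(5,4)]⟩⟩,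
  ⟨false,0,⟨0,[]⟩,⟨0,[]⟩⟩,⟨false,0,⟨0,[]⟩,⟨0,[]⟩⟩,[.a ⟨true,0,⟨0,[(35,0)]⟩,⟨1,[(1,0),(6,0),(14,0),
  (0,0),(12,0)]⟩⟩ ⟨false,0,⟨0,[(39,0)]⟩,⟨1,[(36,0),(0,0)]⟩⟩ ⟨true,(-1),⟨0,[(2,0),(0,0),(29,0),(1,
  1)]⟩,⟨0,[(0,0)]⟩⟩,.o ⟨false,1,⟨9,[(14,0),(0,0),(15,1),(3,9),(1,4)]⟩,⟨0,[(34,0)]⟩⟩,.o ⟨false,2,⟨9,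
  [(0,9),(13,0),(0,0),(15,1),(3,9),(0,4)]⟩,⟨0,[(2,0),(0,0),(29,0),(1,0)]⟩⟩,.e ⟨false,0,⟨0,[]⟩,⟨1,
  [(14,0),(0,0),(21,0)]⟩⟩ ⟨false,0,⟨0,[(18,0),(14,0),(1,0)]⟩,⟨0,[(0,0)]⟩⟩]⟩) (.R ⟨0,false,false,
  false,[-1,1,1],[0,1],[1,1,1],(⟨0,[(12,0)]⟩,⟨0,[(23,0),(4,0)]⟩),(⟨0,[(29,0)]⟩,⟨0,[(28,0)]⟩),⟨0,
  [(23,0)]⟩,.k,.k,.k,.k,.k,.k,⟨true,0,⟨0,[(34,0)]⟩,⟨0,[(33,0),(1,0)]⟩⟩,⟨false,0,⟨0,[(18,0)]⟩,⟨9,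
  [(14,0),(0,0),(5,9),(9,1),(4,4)]⟩⟩,⟨true,0,⟨5,[(1,4),(4,0),(14,4),(9,0),(2,0),(1,2)]⟩,⟨5,[(0,4),
  (6,0),(11,5),(11,0),(5,2)]⟩⟩,⟨false,0,⟨0,[(2,0),(34,0)]⟩,⟨9,[(14,0),(0,0),(3,9),(11,1),(5,4)]⟩⟩,
  ⟨false,0,⟨0,[]⟩,⟨0,[]⟩⟩,⟨false,0,⟨0,[]⟩,⟨0,[]⟩⟩,[.e ⟨false,0,⟨0,[(39,0)]⟩,⟨1,[(36,0),(0,0)]⟩⟩
  ⟨false,(-1),⟨0,[(0,0)]⟩,⟨19,[(5,9),(0,9),(7,6),(0,6),(5,19),(9,3),(4,14)]⟩⟩,.o ⟨false,1,⟨9,[(14,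
  0),(0,0),(15,1),(3,9),(1,4)]⟩,⟨0,[(34,0)]⟩⟩,.o ⟨false,2,⟨4,[(14,0),(0,0),(5,4),(9,1),(4,4)]⟩,⟨2,
  [(0,1),(0,0),(6,0),(13,0),(10,1)]⟩⟩,.a ⟨true,1,⟨9,[(14,0),(0,0),(5,9),(9,1),(4,4)]⟩,⟨1,[(0,1),(0,
  0),(6,0),(14,0),(0,0),(12,0)]⟩⟩ ⟨false,0,⟨0,[]⟩,⟨1,[(14,0),(0,0),(21,0)]⟩⟩ ⟨true,(-1),⟨0,[(0,0)]⟩,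
  ⟨9,[(14,0),(0,0),(5,9),(9,1),(2,9),(1,4)]⟩⟩]⟩)))) (.S ⟨1,0,[0,0,1,1,0,0,0,-1],[1,1,-1],[0,1,1,1,0,
  0,0,-1],(⟨0,[(20,0),(5,0)]⟩,⟨0,[(10,0)]⟩),⟨0,[(20,0)]⟩,.k,.k,⟨true,0,⟨0,[(36,0)]⟩,⟨0,[]⟩⟩,⟨false,
  1,⟨1,[(11,0),(0,0),(21,0)]⟩,⟨0,[]⟩⟩,⟨false,0,⟨0,[(32,0)]⟩,⟨0,[(31,0),(2,0)]⟩⟩,⟨true,0,⟨0,[(32,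
  0)]⟩,⟨0,[(31,0)]⟩⟩,[.o ⟨false,0,⟨0,[(6,0)]⟩,⟨9,[(5,9),(5,0),(0,0),(15,1),(5,4)]⟩⟩,.a ⟨true,0,⟨0,
  [(0,0),(14,0),(14,0)]⟩,⟨0,[(5,0)]⟩⟩ ⟨false,0,⟨0,[(0,0)]⟩,⟨3,[(2,1),(4,1),(3,0),(0,0),(21,0)]⟩⟩
  ⟨true,0,⟨0,[(0,0),(29,0)]⟩,⟨0,[(1,0),(3,0)]⟩⟩,.e ⟨false,0,⟨0,[(6,0),(11,0)]⟩,⟨0,[(2,0),(27,0),(1,
  0)]⟩⟩ ⟨false,0,⟨0,[(0,0),(29,0)]⟩,⟨3,[(2,1),(4,1),(3,0),(0,0),(21,0)]⟩⟩,.o ⟨false,0,⟨0,[(1,0)]⟩,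
  ⟨9,[(11,0),(0,0),(5,9),(9,1),(4,4)]⟩⟩]⟩)) (.R ⟨0,false,false,true,[1,0,-1],[1,-1],[1,1,-1,-1],(⟨0,
  [(19,0)]⟩,⟨0,[(20,0)]⟩),(⟨0,[(24,0)]⟩,⟨0,[(25,0)]⟩),⟨0,[(8,0)]⟩,.k,.k,.k,.k,.k,.k,⟨true,0,⟨0,[]⟩,
  ⟨1,[(17,0),(0,0)]⟩⟩,⟨false,0,⟨0,[(0,0)]⟩,⟨9,[(7,4),(2,2),(0,2),(15,0),(4,4)]⟩⟩,⟨false,1,⟨3,[(1,1),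
  (4,1),(3,0),(0,0),(21,0)]⟩,⟨0,[(0,0),(4,0),(23,0)]⟩⟩,⟨true,0,⟨0,[(4,0)]⟩,⟨0,[(5,0)]⟩⟩,⟨false,0,⟨0,
  []⟩,⟨0,[]⟩⟩,⟨false,0,⟨0,[]⟩,⟨0,[]⟩⟩,[.o ⟨false,0,⟨0,[(30,0)]⟩,⟨9,[(10,0),(0,0),(15,1),(3,9),(1,
  4)]⟩⟩,.e ⟨false,1,⟨0,[(0,0),(0,0),(3,0)]⟩,⟨1,[(17,0),(0,0),(12,1)]⟩⟩ ⟨false,1,⟨1,[(0,0),(0,0),(0,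
  0),(14,0),(14,0)]⟩,⟨0,[(3,0)]⟩⟩,.a ⟨true,0,⟨1,[(7,0),(11,0),(0,0)]⟩,⟨0,[(0,0)]⟩⟩ ⟨false,1,⟨3,[(1,
  1),(0,1),(7,0),(0,0),(20,0)]⟩,⟨0,[(29,0),(1,0)]⟩⟩ ⟨true,0,⟨0,[(0,0),(29,0)]⟩,⟨0,[(3,0)]⟩⟩,.o
  ⟨false,0,⟨0,[(18,0)]⟩,⟨4,[(0,3),(16,0),(9,0),(4,2)]⟩⟩]⟩)))) (.R ⟨0,false,false,true,[1,0,-1],[1,
  -1],[],(⟨0,[(16,0)]⟩,⟨0,[(17,0)]⟩),(⟨0,[(21,0)]⟩,⟨0,[(22,0)]⟩),⟨0,[(5,0)]⟩,.k,.k,.k,.k,.k,.k,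
  ⟨true,0,⟨0,[(26,0),(1,0)]⟩,⟨0,[(27,0)]⟩⟩,⟨false,0,⟨0,[(0,0),(27,0)]⟩,⟨9,[(4,4),(2,2),(0,2),(15,0),
  (4,4)]⟩⟩,⟨false,1,⟨0,[(3,0),(26,0)]⟩,⟨0,[(0,0),(1,0)]⟩⟩,⟨true,0,⟨0,[(1,0)]⟩,⟨0,[(2,0)]⟩⟩,⟨false,0,
  ⟨0,[]⟩,⟨0,[]⟩⟩,⟨false,0,⟨0,[]⟩,⟨0,[]⟩⟩,[.o ⟨false,0,⟨0,[(27,0)]⟩,⟨9,[(7,0),(0,0),(15,1),(3,9),(1,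
  4)]⟩⟩,.a ⟨true,0,⟨1,[(0,1),(3,0),(11,0),(0,0)]⟩,⟨0,[(28,0)]⟩⟩ ⟨false,1,⟨1,[(29,0),(0,0)]⟩,⟨0,[(32,
  0)]⟩⟩ ⟨true,0,⟨0,[(0,0)]⟩,⟨0,[(15,0),(12,0)]⟩⟩,.e ⟨false,1,⟨1,[(7,0),(0,0),(21,0)]⟩,⟨0,[]⟩⟩
  ⟨false,0,⟨0,[(0,0)]⟩,⟨9,[(4,4),(2,2),(0,2),(15,0),(3,9),(1,4)]⟩⟩,.o ⟨false,0,⟨0,[(15,0)]⟩,⟨4,[(0,
  3),(13,0),(9,0),(3,3),(0,2)]⟩⟩]⟩))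

theorem ok0 : chk K t0 l2 = true := by decide +kernel

noncomputable def t1 : Tre :=
  (.I [0,0,-1,-1,1,0,0,1] (.I [0,0,1,0,-1,0,0,-2] (.Q [0,0,0,0,0,0,-1,0,0,0,-1] (.p false [0,0,1]
  [] (⟨0,[(18,0)]⟩,⟨0,[(17,0)]⟩) .k 0 (⟨0,[]⟩,⟨0,[]⟩) .k .k) (.R ⟨2,true,false,true,[0,1],[0,0,1],
  [1,1,1],(⟨0,[]⟩,⟨0,[]⟩),(⟨0,[(19,0)]⟩,⟨0,[(18,0)]⟩),⟨0,[]⟩,.k,.k,.k,.k,.k,.k,⟨false,0,⟨9,[(1,3),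
  (13,1),(0,1),(14,2),(0,0)]⟩,⟨0,[(2,0),(27,0)]⟩⟩,⟨true,0,⟨0,[(16,0)]⟩,⟨0,[(0,0)]⟩⟩,⟨true,0,⟨0,[(29,
  0)]⟩,⟨0,[(30,0)]⟩⟩,⟨false,1,⟨0,[(2,0),(13,0)]⟩,⟨0,[(3,0)]⟩⟩,⟨false,0,⟨0,[]⟩,⟨1,[(9,0),(0,0),(21,
  0)]⟩⟩,⟨true,0,⟨0,[(14,0)]⟩,⟨21,[(1,9),(4,9),(8,1),(10,1),(4,4),(0,0)]⟩⟩,[]⟩) (.S ⟨1,1,[],[0,0,1],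
  [1,0,0,-1,0,0,0,1],(⟨0,[(19,0)]⟩,⟨0,[(18,0)]⟩),⟨0,[(8,0)]⟩,.k,.k,⟨false,1,⟨0,[(29,0),(2,0)]⟩,⟨0,
  [(30,0)]⟩⟩,⟨true,0,⟨21,[(1,9),(4,9),(8,1),(10,1),(4,4),(0,0)]⟩,⟨0,[(14,0)]⟩⟩,⟨true,0,⟨0,[]⟩,⟨0,
  [(34,0)]⟩⟩,⟨false,0,⟨0,[(3,0)]⟩,⟨0,[(2,0),(13,0)]⟩⟩,[.fo,.o ⟨false,1,⟨9,[(9,0),(0,0),(15,1),(5,
  4)]⟩,⟨0,[(34,0)]⟩⟩,.e ⟨false,1,⟨0,[(2,0),(25,0)]⟩,⟨0,[(0,0),(3,0)]⟩⟩ ⟨false,1,⟨9,[(6,4),(2,2),(0,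
  2),(15,0),(5,4)]⟩,⟨0,[(0,0)]⟩⟩,.a ⟨true,0,⟨0,[(16,0)]⟩,⟨0,[(13,0)]⟩⟩ ⟨true,1,⟨0,[(2,0)]⟩,⟨0,[(1,
  0),(3,0),(24,0)]⟩⟩ ⟨false,1,⟨5,[(6,0),(6,3),(12,0),(4,0),(0,2)]⟩,⟨0,[(16,0)]⟩⟩]⟩)) (.Q [0,0,0,1,
  -1,0,-1,-1,0,1,-1] (.p false [0,0,1] [1] (⟨0,[(18,0)]⟩,⟨0,[(17,0)]⟩) .k 1 (⟨0,[]⟩,⟨0,[]⟩) .k .k)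
  (.Q [0,0,0,0,0,0,-1,0,0,0,-1] (.p false [0,0,1] [] (⟨0,[(19,0)]⟩,⟨0,[(18,0)]⟩) .k 0 (⟨0,[]⟩,⟨0,
  []⟩) .k .k) (.R ⟨2,true,false,true,[0,1],[0,0,1],[0,1,1,1],(⟨0,[]⟩,⟨0,[]⟩),(⟨0,[(20,0)]⟩,⟨0,[(19,
  0)]⟩),⟨0,[]⟩,.k,.k,.k,.k,.k,.k,⟨false,0,⟨5,[(1,4),(3,0),(11,5),(9,0),(4,2)]⟩,⟨0,[(3,0)]⟩⟩,⟨true,0,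
  ⟨0,[(17,0)]⟩,⟨0,[(0,0)]⟩⟩,⟨true,0,⟨0,[(35,0)]⟩,⟨0,[]⟩⟩,⟨false,1,⟨0,[(3,0),(13,0)]⟩,⟨0,[(4,0)]⟩⟩,
  ⟨false,0,⟨0,[(31,0)]⟩,⟨0,[(30,0),(2,0)]⟩⟩,⟨true,0,⟨0,[(15,0)]⟩,⟨0,[(4,0),(25,0)]⟩⟩,[]⟩) (.R ⟨2,
  true,false,true,[0,1],[1,1,-1],[1,0,1],(⟨0,[]⟩,⟨0,[]⟩),(⟨0,[(19,0),(5,0)]⟩,⟨0,[(9,0)]⟩),⟨0,[]⟩,.k,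
  .k,.k,.k,.k,.k,⟨true,1,⟨0,[(3,0),(25,0)]⟩,⟨2,[(0,0),(0,4),(13,1),(1,1),(9,0),(1,0),(0,1)]⟩⟩,
  ⟨false,0,⟨0,[(14,0)]⟩,⟨9,[(10,0),(0,0),(5,9),(9,1),(4,4)]⟩⟩,⟨false,1,⟨0,[(30,0),(2,0)]⟩,⟨0,[(31,
  0)]⟩⟩,⟨true,(-1),⟨0,[(1,0),(28,0)]⟩,⟨9,[(10,0),(0,0),(3,9),(11,1),(5,4)]⟩⟩,⟨true,0,⟨0,[]⟩,⟨0,[(35,
  0)]⟩⟩,⟨false,(-1),⟨0,[(1,0)]⟩,⟨9,[(3,9),(6,0),(0,0),(5,9),(9,1),(5,4)]⟩⟩,[]⟩)) (.I [0,1,0,0,0,0,0,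
  1] (.I [0,0,0,1,0,0,0,-1] (.Q [0,0,0,0,0,0,-1,0,0,0,-1] (.p false [0,0,1] [] (⟨0,[(21,0)]⟩,⟨0,
  [(20,0)]⟩) .k 0 (⟨0,[]⟩,⟨0,[]⟩) .k .k) (.R ⟨2,true,false,true,[0,1],[0,0,1],[0,1,1,1],(⟨0,[]⟩,⟨0,
  []⟩),(⟨0,[(22,0)]⟩,⟨0,[(21,0)]⟩),⟨0,[]⟩,.k,.k,.k,.k,.k,.k,⟨false,0,⟨0,[(1,0)]⟩,⟨0,[(5,0)]⟩⟩,⟨true,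
  0,⟨0,[(19,0)]⟩,⟨0,[(0,0)]⟩⟩,⟨true,0,⟨0,[(37,0)]⟩,⟨0,[]⟩⟩,⟨false,1,⟨0,[(5,0),(13,0)]⟩,⟨0,[(6,0)]⟩⟩,
  ⟨false,0,⟨0,[(33,0)]⟩,⟨0,[(32,0),(2,0)]⟩⟩,⟨true,0,⟨0,[(17,0)]⟩,⟨0,[(6,0),(25,0)]⟩⟩,[]⟩) (.I [1,1,
  1,1,-1,0,0,-1] (.I [0,1,1,1,-1,0,0,-1] (.S ⟨1,1,[],[0,0,1],[1,0,0,-1,0,0,0,1],(⟨0,[(24,0)]⟩,⟨0,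
  [(23,0)]⟩),⟨0,[(13,0)]⟩,.k,.k,⟨false,1,⟨0,[(34,0),(2,0)]⟩,⟨0,[(35,0)]⟩⟩,⟨true,0,⟨0,[(8,0),(25,
  0)]⟩,⟨0,[(19,0)]⟩⟩,⟨true,0,⟨0,[]⟩,⟨0,[(39,0)]⟩⟩,⟨false,0,⟨0,[(8,0)]⟩,⟨0,[(7,0),(13,0)]⟩⟩,[.fo,.o
  ⟨false,1,⟨9,[(14,0),(0,0),(15,1),(5,4)]⟩,⟨0,[(39,0)]⟩⟩,.e ⟨false,1,⟨0,[(7,0),(25,0)]⟩,⟨0,[(3,
  0)]⟩⟩ ⟨false,1,⟨9,[(11,4),(2,2),(0,2),(15,0),(5,4)]⟩,⟨0,[(2,0)]⟩⟩,.a ⟨true,0,⟨0,[(21,0)]⟩,⟨0,[(18,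
  0)]⟩⟩ ⟨true,1,⟨0,[(7,0)]⟩,⟨0,[(0,0)]⟩⟩ ⟨false,1,⟨5,[(11,0),(6,3),(12,0),(4,0),(0,2)]⟩,⟨0,[(21,
  0)]⟩⟩]⟩) (.S ⟨1,0,[0,1,1,1,0,0,0,-1],[1,1,-1],[1,0,1,0,0,0,0,-1],(⟨0,[(23,0),(5,0)]⟩,⟨0,[(13,
  0)]⟩),⟨0,[(23,0)]⟩,.k,.k,⟨false,1,⟨0,[(34,0),(2,0)]⟩,⟨0,[(35,0)]⟩⟩,⟨true,0,⟨0,[(39,0)]⟩,⟨0,[]⟩⟩,
  ⟨true,0,⟨0,[]⟩,⟨0,[(39,0)]⟩⟩,⟨false,0,⟨0,[(35,0)]⟩,⟨0,[(34,0),(2,0)]⟩⟩,[.e ⟨false,0,⟨0,[(2,0),(5,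
  0),(25,0)]⟩,⟨3,[(6,1),(7,0),(0,0),(20,0)]⟩⟩ ⟨false,0,⟨0,[(3,0),(35,0)]⟩,⟨0,[(0,0)]⟩⟩,.o ⟨false,0,
  ⟨0,[(9,0)]⟩,⟨0,[(5,0)]⟩⟩,.e ⟨false,0,⟨0,[(2,0),(5,0),(24,0),(0,0)]⟩,⟨3,[(6,1),(7,0),(0,0),(20,
  0)]⟩⟩ ⟨false,0,⟨0,[(9,0),(11,0)]⟩,⟨0,[(0,0)]⟩⟩,.a ⟨true,0,⟨1,[(11,0),(11,0),(0,0)]⟩,⟨0,[(2,0)]⟩⟩
  ⟨true,0,⟨0,[(2,0),(5,0),(25,0)]⟩,⟨0,[(4,0)]⟩⟩ ⟨false,0,⟨0,[(3,0)]⟩,⟨0,[(7,0),(25,0)]⟩⟩]⟩)) (.S ⟨1,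
  0,[0,1,1,1,0,0,0,-1],[1,1,-1],[1,0,1,0,0,0,0,-1],(⟨0,[(22,0),(5,0)]⟩,⟨0,[(12,0)]⟩),⟨0,[(22,0)]⟩,
  .k,.k,⟨false,1,⟨0,[(33,0),(2,0)]⟩,⟨0,[(34,0)]⟩⟩,⟨true,0,⟨0,[(38,0)]⟩,⟨0,[]⟩⟩,⟨true,0,⟨0,[]⟩,⟨0,
  [(38,0)]⟩⟩,⟨false,0,⟨0,[(34,0)]⟩,⟨0,[(33,0),(2,0)]⟩⟩,[.e ⟨false,0,⟨0,[(1,0),(5,0),(25,0)]⟩,⟨3,[(5,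
  1),(7,0),(0,0),(20,0)]⟩⟩ ⟨false,0,⟨0,[(2,0),(35,0)]⟩,⟨0,[(0,0)]⟩⟩,.o ⟨false,0,⟨0,[(8,0)]⟩,⟨0,[(4,
  0)]⟩⟩,.e ⟨false,0,⟨0,[(1,0),(5,0),(24,0),(0,0)]⟩,⟨3,[(5,1),(7,0),(0,0),(20,0)]⟩⟩ ⟨false,0,⟨0,[(8,
  0),(11,0)]⟩,⟨0,[(0,0)]⟩⟩,.a ⟨true,0,⟨1,[(10,0),(11,0),(0,0)]⟩,⟨0,[(1,0)]⟩⟩ ⟨true,0,⟨0,[(1,0),(5,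
  0),(25,0)]⟩,⟨0,[(3,0)]⟩⟩ ⟨false,0,⟨0,[(2,0)]⟩,⟨0,[(6,0),(25,0)]⟩⟩]⟩))) (.Q [0,-1,0,-1,1,0,1,1,0,
  -1,1] (.p true [0,0,1] [1] (⟨0,[(21,0)]⟩,⟨0,[(20,0)]⟩) .k 1 (⟨0,[]⟩,⟨0,[]⟩) .k .k) (.I [0,1,-1,0,
  0,0,0,1] (.S ⟨1,0,[0,1,1,1,0,0,0,-1],[1,1,-1],[1,0,1,0,0,0,0,-1],(⟨0,[(22,0),(5,0)]⟩,⟨0,[(12,
  0)]⟩),⟨0,[(22,0)]⟩,.k,.k,⟨false,1,⟨0,[(33,0),(2,0)]⟩,⟨0,[(34,0)]⟩⟩,⟨true,0,⟨0,[(38,0)]⟩,⟨0,[]⟩⟩,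
  ⟨true,0,⟨0,[]⟩,⟨0,[(38,0)]⟩⟩,⟨false,0,⟨0,[(34,0)]⟩,⟨0,[(33,0),(2,0)]⟩⟩,[.o ⟨false,0,⟨0,[(8,0),(29,
  0)]⟩,⟨0,[(1,0)]⟩⟩,.o ⟨false,0,⟨0,[(8,0)]⟩,⟨0,[(4,0)]⟩⟩,.a ⟨true,0,⟨0,[(17,0)]⟩,⟨0,[(20,0)]⟩⟩
  ⟨true,0,⟨0,[(7,0),(12,0),(12,0)]⟩,⟨0,[(0,0)]⟩⟩ ⟨false,0,⟨0,[(8,0),(11,0)]⟩,⟨0,[(1,0),(15,0)]⟩⟩,.o
  ⟨false,0,⟨3,[(0,0),(1,1),(4,1),(11,0),(1,0)]⟩,⟨9,[(13,0),(0,0),(5,9),(9,1),(4,4)]⟩⟩]⟩) (.Q [0,0,1,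
  0,-1,0,-1,0,0,1,-1] (.p false [0,0,1] [1] (⟨0,[(23,0)]⟩,⟨0,[(22,0)]⟩) .k 1 (⟨0,[]⟩,⟨0,[]⟩) .k .k)
  (.I [0,0,-1,-1,1,0,0,-2] (.Q [0,0,0,-1,0,0,0,0,0,1] (.pp false [-1,1]) (.R ⟨0,false,false,false,
  [-1,1,1],[0,1],[0,1,1,0,0,0,0,1],(⟨0,[(14,0)]⟩,⟨0,[(25,0),(4,0)]⟩),(⟨0,[(31,0)]⟩,⟨0,[(30,0)]⟩),⟨0,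
  [(25,0)]⟩,.k,.k,.k,.k,.k,.k,⟨true,0,⟨1,[(5,0),(0,0),(29,0)]⟩,⟨0,[(3,0),(33,0)]⟩⟩,⟨false,0,⟨0,[(20,
  0)]⟩,⟨4,[(1,0),(19,1),(1,2),(9,0),(3,0),(0,0),(0,0)]⟩⟩,⟨true,0,⟨0,[(36,0)]⟩,⟨0,[(37,0)]⟩⟩,⟨false,
  0,⟨0,[(0,0),(9,0)]⟩,⟨9,[(16,0),(0,0),(3,9),(11,1),(5,4)]⟩⟩,⟨false,0,⟨0,[]⟩,⟨0,[]⟩⟩,⟨false,0,⟨0,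
  []⟩,⟨0,[]⟩⟩,[.a ⟨true,0,⟨0,[(37,0)]⟩,⟨0,[(0,0)]⟩⟩ ⟨false,0,⟨0,[(6,0)]⟩,⟨0,[(3,0),(34,0)]⟩⟩ ⟨true,
  (-1),⟨0,[(2,0),(34,0)]⟩,⟨8,[(1,2),(2,3),(16,1),(1,2),(9,0),(2,1)]⟩⟩,.o ⟨false,1,⟨9,[(16,0),(0,0),
  (15,1),(3,9),(1,4)]⟩,⟨0,[(36,0)]⟩⟩,.o ⟨false,2,⟨4,[(1,1),(19,3),(1,0),(9,1),(3,1),(0,1),(0,1)]⟩,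
  ⟨0,[(2,0)]⟩⟩,.e ⟨false,0,⟨0,[(5,0),(31,0)]⟩,⟨5,[(1,1),(9,1),(4,0),(0,0),(5,1),(15,2)]⟩⟩ ⟨false,0,
  ⟨1,[(2,0),(17,0),(16,1),(1,0)]⟩,⟨8,[(1,2),(2,3),(16,1),(1,2),(9,0),(2,1)]⟩⟩]⟩) (.R ⟨2,true,false,
  false,[0,1],[1,0,-1],[1,0,1],(⟨0,[]⟩,⟨0,[]⟩),(⟨0,[(25,0)]⟩,⟨0,[(26,0)]⟩),⟨0,[]⟩,.k,.k,.k,.k,.k,.k,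
  ⟨false,0,⟨0,[(5,0),(31,0)]⟩,⟨3,[(1,1),(14,0),(0,0),(19,1),(0,0)]⟩⟩,⟨true,(-1),⟨0,[(2,0)]⟩,⟨4,[(1,
  0),(19,1),(1,2),(9,0),(3,0),(0,0),(0,0)]⟩⟩,⟨false,1,⟨0,[(36,0),(2,0)]⟩,⟨0,[(37,0)]⟩⟩,⟨true,0,⟨2,
  [(1,1),(0,2),(6,0)]⟩,⟨0,[(0,0),(20,0)]⟩⟩,⟨true,0,⟨0,[]⟩,⟨0,[(41,0)]⟩⟩,⟨false,0,⟨0,[(3,0),(16,0)]⟩,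
  ⟨9,[(16,0),(0,0),(3,9),(11,1),(5,4)]⟩⟩,[]⟩)) (.Q [0,0,0,0,-1,0,-2,0,0,1,-2] (.p false [0,0,1] [1,
  0,-1] (⟨0,[(25,0)]⟩,⟨0,[(24,0)]⟩) .k 2 (⟨0,[(24,0)]⟩,⟨0,[(25,0)]⟩) .k (.r 0 ⟨0,[(0,1),(1,1),(32,
  1),(1,1)]⟩ ⟨0,[(2,0),(18,0),(0,0),(14,0)]⟩)) (.R ⟨0,false,false,true,[1,0,-1],[0,0,1],[0,1,1,0,0,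
  0,0,1],(⟨0,[(25,0)]⟩,⟨0,[(26,0)]⟩),(⟨0,[(26,0)]⟩,⟨0,[(25,0)]⟩),⟨0,[(14,0)]⟩,.k,.k,.k,.k,.k,.k,
  ⟨true,0,⟨1,[(23,0),(0,0)]⟩,⟨0,[]⟩⟩,⟨false,2,⟨9,[(16,0),(0,0),(5,19),(9,1),(4,14)]⟩,⟨0,[(0,0)]⟩⟩,
  ⟨true,(-1),⟨0,[(1,0),(34,0)]⟩,⟨0,[(3,1),(30,0),(3,0)]⟩⟩,⟨false,1,⟨0,[(4,0),(16,0),(15,0)]⟩,⟨1,[(0,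
  0),(2,2),(16,0),(1,0),(15,0)]⟩⟩,⟨false,0,⟨0,[]⟩,⟨0,[]⟩⟩,⟨false,0,⟨0,[]⟩,⟨0,[]⟩⟩,[.a ⟨true,0,⟨0,
  [(21,0)]⟩,⟨0,[(3,0),(16,0)]⟩⟩ ⟨false,0,⟨0,[(6,0)]⟩,⟨0,[(3,0),(34,0)]⟩⟩ ⟨true,1,⟨9,[(16,0),(0,0),
  (3,9),(1,9),(9,1),(4,4)]⟩,⟨0,[(0,0),(2,0)]⟩⟩,.o ⟨false,1,⟨9,[(16,0),(0,0),(3,9),(11,1),(5,4)]⟩,⟨0,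
  [(10,0),(25,0)]⟩⟩,.o ⟨false,0,⟨49,[(0,10),(12,13),(19,4),(5,0),(1,1)]⟩,⟨9,[(16,0),(0,0),(5,9),(9,
  1),(4,4)]⟩⟩,.e ⟨false,0,⟨0,[(1,0),(1,0),(32,0),(1,0)]⟩,⟨1,[(3,1),(12,0),(0,0),(20,0)]⟩⟩ ⟨false,2,
  ⟨9,[(16,0),(0,0),(3,9),(1,9),(9,1),(4,9),(0,4)]⟩,⟨0,[(0,0),(2,0)]⟩⟩]⟩) (.Q [0,0,0,-1,0,0,0,0,0,1]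
  (.pp false [-1,1]) (.R ⟨0,false,false,false,[-1,1,1],[0,1],[0,1,1,0,0,0,0,1],(⟨0,[(15,0)]⟩,⟨0,
  [(26,0),(4,0)]⟩),(⟨0,[(32,0)]⟩,⟨0,[(31,0)]⟩),⟨0,[(26,0)]⟩,.k,.k,.k,.k,.k,.k,⟨true,0,⟨1,[(6,0),(0,
  0),(29,0)]⟩,⟨0,[(4,0),(33,0)]⟩⟩,⟨false,0,⟨0,[(21,0)]⟩,⟨49,[(1,24),(15,13),(0,13),(15,4),(5,0),(1,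
  1)]⟩⟩,⟨true,0,⟨0,[(37,0)]⟩,⟨0,[(38,0)]⟩⟩,⟨false,0,⟨0,[(0,0),(10,0)]⟩,⟨112,[(1,59),(0,12),(5,12),
  (0,36),(15,19),(8,7),(6,3)]⟩⟩,⟨false,0,⟨0,[]⟩,⟨0,[]⟩⟩,⟨false,0,⟨0,[]⟩,⟨0,[]⟩⟩,[.a ⟨true,0,⟨0,[(38,
  0)]⟩,⟨0,[(0,0)]⟩⟩ ⟨false,0,⟨0,[(7,0)]⟩,⟨0,[(4,0),(34,0)]⟩⟩ ⟨true,(-1),⟨0,[(3,0),(34,0)]⟩,⟨7,[(0,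
  1),(0,2),(2,1),(0,1),(28,0),(2,3),(1,0)]⟩⟩,.o ⟨false,1,⟨37,[(1,2),(7,1),(2,3),(12,1),(8,6),(3,33),
  (1,18)]⟩,⟨0,[(37,0)]⟩⟩,.o ⟨false,2,⟨9,[(1,4),(15,3),(0,3),(15,2),(4,4)]⟩,⟨0,[(3,0)]⟩⟩,.e ⟨false,0,
  ⟨0,[(2,0),(1,0),(32,0),(1,0)]⟩,⟨5,[(0,1),(0,1),(2,1),(7,1),(10,1),(15,0),(0,2)]⟩⟩ ⟨false,0,⟨1,[(3,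
  0),(17,0),(16,1),(1,0)]⟩,⟨7,[(0,1),(0,2),(2,1),(0,1),(28,0),(2,3),(1,0)]⟩⟩]⟩) (.R ⟨2,true,false,
  false,[0,1],[1,0,-1],[1,0,1],(⟨0,[]⟩,⟨0,[]⟩),(⟨0,[(26,0)]⟩,⟨0,[(27,0)]⟩),⟨0,[]⟩,.k,.k,.k,.k,.k,.k,
  ⟨false,0,⟨4,[(2,0),(3,0),(2,0)]⟩,⟨3,[(1,0),(2,1),(18,1),(2,0),(0,0),(11,2)]⟩⟩,⟨true,(-1),⟨0,[(3,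
  0)]⟩,⟨49,[(1,24),(15,13),(0,13),(15,4),(5,0),(1,1)]⟩⟩,⟨false,1,⟨0,[(37,0),(2,0)]⟩,⟨0,[(38,0)]⟩⟩,
  ⟨true,0,⟨0,[(4,0),(16,0),(15,0)]⟩,⟨0,[(0,0),(21,0)]⟩⟩,⟨true,0,⟨0,[]⟩,⟨0,[(42,0)]⟩⟩,⟨false,0,⟨0,
  [(4,0),(16,0)]⟩,⟨112,[(1,59),(0,12),(5,12),(0,36),(15,19),(8,7),(6,3)]⟩⟩,[]⟩)))) (.Q [0,1,-1,-1,0,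
  0,0,-1,0,1] (.pp false [-1,1]) (.Q [0,0,2,0,-1,0,-1,0,0,1,-1] (.p false [0,0,1] [1] (⟨0,[(25,0)]⟩,
  ⟨0,[(24,0)]⟩) .k 1 (⟨0,[]⟩,⟨0,[]⟩) .k .k) (.R ⟨0,false,false,false,[1,0,-1],[0,1],[1],(⟨0,[(25,
  0)]⟩,⟨0,[(26,0)]⟩),(⟨0,[(31,0)]⟩,⟨0,[(30,0)]⟩),⟨0,[(14,0)]⟩,.k,.k,.k,.k,.k,.k,⟨false,1,⟨1,[(1,0),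
  (0,0),(2,1),(4,0),(27,0)]⟩,⟨1,[(23,0),(0,0),(12,1)]⟩⟩,⟨true,1,⟨0,[(2,0)]⟩,⟨0,[(0,0)]⟩⟩,⟨true,0,⟨0,
  [(5,0),(31,0)]⟩,⟨0,[(3,0),(30,0)]⟩⟩,⟨false,1,⟨0,[(4,0),(32,1)]⟩,⟨32,[(0,1),(0,22),(1,18),(1,13),
  (4,4),(2,12),(19,0),(2,0)]⟩⟩,⟨false,0,⟨0,[]⟩,⟨0,[]⟩⟩,⟨false,0,⟨0,[]⟩,⟨0,[]⟩⟩,[.a ⟨true,0,⟨0,[(37,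
  0)]⟩,⟨1,[(1,0),(3,0),(19,0),(0,0),(8,0)]⟩⟩ ⟨true,0,⟨0,[]⟩,⟨1,[(23,0),(0,0)]⟩⟩ ⟨false,1,⟨0,[(2,0),
  (34,0)]⟩,⟨6,[(0,0),(0,2),(1,0),(1,3),(7,2),(25,0)]⟩⟩,.o ⟨false,1,⟨9,[(16,0),(0,0),(15,1),(3,9),(1,
  4)]⟩,⟨0,[(36,0)]⟩⟩,.o ⟨false,0,⟨6,[(0,1),(4,1),(4,1),(9,2),(12,0),(0,0)]⟩,⟨20,[(2,10),(13,5),(0,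
  5),(5,9),(9,1),(6,0)]⟩⟩,.o ⟨false,0,⟨0,[(24,0)]⟩,⟨0,[(2,0)]⟩⟩]⟩) (.R ⟨0,false,false,false,[1,0,
  -1],[1,-1],[1],(⟨0,[(25,0)]⟩,⟨0,[(26,0)]⟩),(⟨0,[(30,0)]⟩,⟨0,[(31,0)]⟩),⟨0,[(14,0)]⟩,.k,.k,.k,.k,
  .k,.k,⟨false,0,⟨0,[(37,0)]⟩,⟨19,[(1,9),(7,9),(6,0),(0,0),(15,1),(5,4)]⟩⟩,⟨true,0,⟨0,[(23,0)]⟩,⟨0,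
  [(5,0),(5,0)]⟩⟩,⟨true,0,⟨0,[(5,0),(31,0)]⟩,⟨0,[(3,0),(30,0)]⟩⟩,⟨false,1,⟨3,[(1,0),(2,0),(0,1),(15,
  1),(1,0),(15,2)]⟩,⟨0,[(11,0)]⟩⟩,⟨false,0,⟨0,[]⟩,⟨0,[]⟩⟩,⟨false,0,⟨0,[]⟩,⟨0,[]⟩⟩,[.a ⟨true,0,⟨1,
  [(1,0),(3,0),(19,0),(0,0),(8,0)]⟩,⟨0,[(37,0)]⟩⟩ ⟨true,0,⟨0,[]⟩,⟨1,[(23,0),(0,0)]⟩⟩ ⟨false,1,⟨2,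
  [(1,1),(0,0),(1,0),(16,0),(17,0)]⟩,⟨0,[(6,0),(3,0)]⟩⟩,.e ⟨false,1,⟨1,[(38,0),(0,0)]⟩,⟨0,[(41,
  0)]⟩⟩ ⟨false,1,⟨1,[(0,1),(0,0),(3,0),(19,0),(0,0),(8,2)]⟩,⟨0,[(6,0),(4,0)]⟩⟩,.o ⟨false,0,⟨0,[(5,
  0),(5,0)]⟩,⟨20,[(2,10),(13,5),(0,5),(5,9),(9,1),(6,0)]⟩⟩,.o ⟨false,0,⟨0,[(24,0)]⟩,⟨0,[(2,
  0)]⟩⟩]⟩)) (.Q [0,0,1,0,-1,0,-2,0,0,1,-2] (.p false [0,0,1] [1,0,-1] (⟨0,[(25,0)]⟩,⟨0,[(24,0)]⟩)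
  .k 2 (⟨0,[(24,0)]⟩,⟨0,[(25,0)]⟩) .k (.r 0 ⟨2,[(0,1),(3,1),(14,1),(0,1)]⟩ ⟨0,[(2,0),(18,0),(0,0),
  (14,0)]⟩)) (.R ⟨0,false,false,true,[1,0,-1],[0,0,1],[1],(⟨0,[(25,0)]⟩,⟨0,[(26,0)]⟩),(⟨0,[(26,0)]⟩,
  ⟨0,[(25,0)]⟩),⟨0,[(14,0)]⟩,.k,.k,.k,.k,.k,.k,⟨false,1,⟨0,[(3,0),(34,0)]⟩,⟨0,[(6,0)]⟩⟩,⟨true,1,⟨0,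
  [(2,0),(20,0)]⟩,⟨0,[(0,0)]⟩⟩,⟨true,0,⟨2,[(1,0),(3,0),(14,0),(0,0)]⟩,⟨0,[(3,0),(30,0)]⟩⟩,⟨false,1,
  ⟨2,[(1,0),(0,0),(1,0),(16,3),(17,0)]⟩,⟨0,[(3,0),(6,0),(9,0),(15,0)]⟩⟩,⟨false,0,⟨0,[]⟩,⟨0,[]⟩⟩,
  ⟨false,0,⟨0,[]⟩,⟨0,[]⟩⟩,[.a ⟨true,0,⟨0,[(21,0)]⟩,⟨0,[(3,0),(16,0)]⟩⟩ ⟨true,0,⟨0,[]⟩,⟨1,[(23,0),(0,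
  0)]⟩⟩ ⟨false,1,⟨0,[(2,0),(18,0)]⟩,⟨8,[(0,2),(2,7),(16,10),(1,0),(10,0),(5,0)]⟩⟩,.o ⟨false,1,⟨5,
  [(2,0),(5,1),(12,1),(1,2),(9,0),(5,0)]⟩,⟨0,[(10,0),(25,0)]⟩⟩,.o ⟨false,0,⟨8,[(0,2),(12,0),(6,0),
  (12,0),(4,0)]⟩,⟨20,[(2,10),(13,5),(0,5),(5,9),(9,1),(6,0)]⟩⟩,.o ⟨false,0,⟨0,[(24,0)]⟩,⟨0,[(2,
  0)]⟩⟩]⟩) (.Q [0,0,0,-1,0,0,0,0,0,1] (.pp false [-1,1]) (.R ⟨0,false,false,false,[1,0,-1],[1,-1],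
  [1],(⟨0,[(26,0)]⟩,⟨0,[(27,0)]⟩),(⟨0,[(31,0)]⟩,⟨0,[(32,0)]⟩),⟨0,[(15,0)]⟩,.k,.k,.k,.k,.k,.k,⟨false,
  0,⟨0,[(38,0)]⟩,⟨12,[(0,10),(0,0),(8,1),(12,1),(10,1),(4,4),(0,0)]⟩⟩,⟨true,0,⟨0,[(24,0)]⟩,⟨6,[(2,
  0),(3,3),(4,2),(2,0),(8,1),(11,0)]⟩⟩,⟨true,0,⟨2,[(2,0),(3,0),(14,0),(0,0)]⟩,⟨0,[(4,0),(30,0)]⟩⟩,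
  ⟨false,1,⟨1,[(0,0),(4,0),(16,0),(17,0)]⟩,⟨0,[(12,0)]⟩⟩,⟨false,0,⟨0,[]⟩,⟨0,[]⟩⟩,⟨false,0,⟨0,[]⟩,⟨0,
  []⟩⟩,[.a ⟨true,0,⟨0,[(0,0)]⟩,⟨0,[(38,0)]⟩⟩ ⟨true,0,⟨0,[]⟩,⟨1,[(24,0),(0,0)]⟩⟩ ⟨false,1,⟨25,[(0,
  23),(0,13),(8,1),(12,1),(10,1),(4,4),(0,0)]⟩,⟨4,[(2,1),(9,1),(1,0),(6,0),(13,0),(2,0)]⟩⟩,.e
  ⟨false,1,⟨1,[(39,0),(0,0)]⟩,⟨0,[(42,0)]⟩⟩ ⟨false,1,⟨0,[(0,0),(0,0),(4,0),(4,0)]⟩,⟨0,[(7,0),(4,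
  0)]⟩⟩,.o ⟨false,0,⟨6,[(2,0),(3,3),(4,2),(2,0),(8,1),(11,0)]⟩,⟨30,[(1,10),(15,11),(0,11),(5,8),(9,
  3),(6,1)]⟩⟩,.o ⟨false,0,⟨0,[(25,0)]⟩,⟨0,[(3,0)]⟩⟩]⟩) (.R ⟨1,false,false,true,[0,0,1],[1,-1],[1,0,
  0,-1,0,0,0,1],(⟨0,[(27,0)]⟩,⟨0,[(26,0)]⟩),(⟨0,[(31,0)]⟩,⟨0,[(32,0)]⟩),⟨0,[(16,0)]⟩,.k,.k,.k,.k,.k,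
  .k,⟨true,0,⟨2,[(2,0),(3,0),(14,0),(0,0),(13,2)]⟩,⟨0,[(4,0),(30,0)]⟩⟩,⟨false,0,⟨1,[(14,0),(11,0),
  (0,0)]⟩,⟨0,[(3,0)]⟩⟩,⟨false,1,⟨0,[(37,0),(2,0)]⟩,⟨0,[(38,0)]⟩⟩,⟨false,0,⟨0,[(4,0),(16,0),(15,0)]⟩,
  ⟨8,[(1,3),(0,4),(6,1),(7,0),(0,0),(5,0),(13,3),(1,1)]⟩⟩,⟨true,0,⟨0,[]⟩,⟨0,[(42,0)]⟩⟩,⟨false,0,⟨1,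
  [(4,0),(16,0),(1,0),(2,0),(0,0)]⟩,⟨10,[(1,2),(0,3),(2,1),(2,1),(0,0),(12,0),(17,2)]⟩⟩,[.o ⟨false,
  0,⟨0,[(37,0)]⟩,⟨9,[(17,0),(0,0),(15,1),(3,9),(1,4)]⟩⟩,.o ⟨false,1,⟨1,[(17,0),(0,0),(18,1),(2,0)]⟩,
  ⟨0,[(0,0)]⟩⟩,.o ⟨false,1,⟨30,[(1,10),(15,11),(0,11),(5,8),(9,3),(6,1)]⟩,⟨3,[(0,0),(5,1),(4,0),(2,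
  0),(8,0)]⟩⟩,.a ⟨true,0,⟨0,[(24,0)]⟩,⟨0,[(21,0)]⟩⟩ ⟨false,1,⟨0,[(5,0),(15,0)]⟩,⟨0,[(12,0),(11,
  0)]⟩⟩ ⟨true,0,⟨0,[(21,0),(15,0)]⟩,⟨0,[(0,0),(23,0)]⟩⟩]⟩)))))) (.S ⟨1,0,[0,1,1,1,0,0,0,-1],[1,1,
  -1],[0,0,1,1,0,0,0,-1],(⟨0,[(21,0),(5,0)]⟩,⟨0,[(11,0)]⟩),⟨0,[(21,0)]⟩,.k,.k,⟨false,1,⟨1,[(12,0),
  (0,0),(21,0)]⟩,⟨0,[]⟩⟩,⟨true,0,⟨0,[(37,0)]⟩,⟨0,[]⟩⟩,⟨true,0,⟨0,[(33,0)]⟩,⟨0,[(32,0)]⟩⟩,⟨false,0,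
  ⟨0,[(33,0)]⟩,⟨0,[(32,0),(2,0)]⟩⟩,[.a ⟨true,(-1),⟨0,[(0,0)]⟩,⟨1,[(1,1),(17,1),(14,0),(0,0)]⟩⟩
  ⟨true,0,⟨0,[(7,0),(11,0)]⟩,⟨0,[(1,0)]⟩⟩ ⟨false,0,⟨6,[(0,4),(6,1),(11,6),(9,0),(0,0),(3,2)]⟩,⟨1,
  [(1,1),(32,0),(0,0)]⟩⟩,.o ⟨false,0,⟨0,[(7,0)]⟩,⟨0,[(3,0)]⟩⟩,.e ⟨false,0,⟨0,[(6,0),(12,0)]⟩,⟨0,[(5,
  0)]⟩⟩ ⟨false,0,⟨0,[(7,0),(11,0)]⟩,⟨1,[(1,1),(32,0),(0,0)]⟩⟩,.o ⟨false,0,⟨20,[(0,3),(0,8),(4,4),(2,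
  5),(19,1),(7,0)]⟩,⟨9,[(12,0),(0,0),(5,9),(9,1),(4,4)]⟩⟩]⟩))) (.Q [0,0,-1,0,1,0,1,0,0,-2,1] (.p
  true [-1,1,1] [1] (⟨0,[(8,0)]⟩,⟨0,[(19,0),(4,0)]⟩) .k 1 (⟨0,[]⟩,⟨0,[]⟩) .k .k) (.R ⟨0,false,false,
  true,[-1,1,1],[0,0,1],[0,1,1,0,0,0,0,1],(⟨0,[(9,0)]⟩,⟨0,[(20,0),(4,0)]⟩),(⟨0,[(21,0)]⟩,⟨0,[(20,
  0)]⟩),⟨0,[(20,0)]⟩,.k,.k,.k,.k,.k,.k,⟨true,0,⟨1,[(18,0),(0,0)]⟩,⟨0,[]⟩⟩,⟨false,0,⟨0,[(20,0),(0,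
  0)]⟩,⟨9,[(11,0),(0,0),(15,1),(4,4)]⟩⟩,⟨true,0,⟨0,[(31,0)]⟩,⟨0,[(32,0)]⟩⟩,⟨false,0,⟨0,[(1,0),(13,
  0),(0,0),(13,0),(0,0)]⟩,⟨9,[(11,0),(0,0),(15,1),(3,9),(1,4)]⟩⟩,⟨false,0,⟨0,[]⟩,⟨0,[]⟩⟩,⟨false,0,
  ⟨0,[]⟩,⟨0,[]⟩⟩,[.a ⟨true,0,⟨0,[(16,0)]⟩,⟨1,[(1,1),(6,0),(11,0),(0,0)]⟩⟩ ⟨true,0,⟨0,[(16,0),(2,
  0)]⟩,⟨0,[(1,0)]⟩⟩ ⟨false,0,⟨1,[(8,0),(7,1),(3,0),(0,0)]⟩,⟨6,[(0,0),(0,5),(15,0),(10,0),(4,2),(0,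
  0)]⟩⟩,.o ⟨false,1,⟨9,[(11,0),(0,0),(3,9),(11,1),(5,4)]⟩,⟨0,[(5,0),(25,0)]⟩⟩,.o ⟨false,1,⟨0,[(0,
  0)]⟩,⟨0,[(8,0),(9,0)]⟩⟩,.o ⟨false,1,⟨49,[(0,24),(10,2),(0,2),(5,24),(9,9),(5,1),(1,3)]⟩,⟨1,[(8,0),
  (11,0),(0,0)]⟩⟩]⟩) (.I [0,1,1,1,-1,0,0,-1] (.S ⟨1,0,[0,1,0,0,0,0,0,1],[0,0,1],[1,0,0,-1,0,0,0,1],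
  (⟨0,[(22,0)]⟩,⟨0,[(21,0)]⟩),⟨0,[(11,0)]⟩,.k,.k,⟨false,1,⟨0,[(32,0),(2,0)]⟩,⟨0,[(33,0)]⟩⟩,⟨true,0,
  ⟨0,[(37,0)]⟩,⟨0,[]⟩⟩,⟨true,0,⟨0,[]⟩,⟨0,[(37,0)]⟩⟩,⟨false,0,⟨0,[(33,0)]⟩,⟨0,[(32,0),(2,0)]⟩⟩,[.e
  ⟨false,1,⟨0,[(5,0)]⟩,⟨2,[(0,0),(1,0),(4,0),(11,0),(13,0),(0,0)]⟩⟩ ⟨false,1,⟨1,[(4,0),(7,0),(0,0),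
  (16,0)]⟩,⟨0,[(2,0)]⟩⟩,.o ⟨false,1,⟨9,[(12,0),(0,0),(3,9),(11,1),(5,4)]⟩,⟨9,[(0,1),(1,5),(6,2),(6,
  1),(1,1),(10,0),(2,1)]⟩⟩,.e ⟨false,1,⟨0,[(5,0),(25,0)]⟩,⟨2,[(0,0),(1,0),(4,0),(11,0),(13,0),(0,
  0)]⟩⟩ ⟨false,1,⟨3,[(4,1),(7,1),(0,1),(5,0),(0,0)]⟩,⟨0,[(2,0)]⟩⟩,.a ⟨true,0,⟨0,[(19,0)]⟩,⟨0,[(16,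
  0)]⟩⟩ ⟨true,1,⟨0,[(5,0)]⟩,⟨0,[(0,0)]⟩⟩ ⟨false,1,⟨3,[(4,1),(7,0),(0,0),(20,0)]⟩,⟨1,[(2,1),(16,0),
  (0,0)]⟩⟩]⟩) (.I [0,0,1,0,0,0,0,1] (.R ⟨0,false,false,true,[-1,1,1],[0,0,1],[0,1,1,0,0,0,0,1],(⟨0,
  [(11,0)]⟩,⟨0,[(22,0),(4,0)]⟩),(⟨0,[(23,0)]⟩,⟨0,[(22,0)]⟩),⟨0,[(22,0)]⟩,.k,.k,.k,.k,.k,.k,⟨true,0,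
  ⟨1,[(20,0),(0,0)]⟩,⟨0,[]⟩⟩,⟨false,0,⟨1,[(2,0),(17,0),(14,0)]⟩,⟨9,[(13,0),(0,0),(15,1),(4,4)]⟩⟩,
  ⟨true,0,⟨0,[(33,0)]⟩,⟨0,[(34,0)]⟩⟩,⟨false,0,⟨5,[(1,1),(0,2),(0,3),(14,1),(1,0),(12,3),(1,0)]⟩,⟨9,
  [(13,0),(0,0),(15,1),(3,9),(1,4)]⟩⟩,⟨false,0,⟨0,[]⟩,⟨0,[]⟩⟩,⟨false,0,⟨0,[]⟩,⟨0,[]⟩⟩,[.a ⟨true,0,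
  ⟨0,[(18,0)]⟩,⟨2,[(2,0),(0,1),(13,0),(1,0),(16,0)]⟩⟩ ⟨true,0,⟨0,[(18,0),(2,0)]⟩,⟨0,[(3,0)]⟩⟩
  ⟨false,0,⟨3,[(2,1),(2,0),(7,0),(0,0),(3,1),(12,0)]⟩,⟨14,[(3,13),(15,0),(0,0),(9,2),(4,7),(0,0)]⟩⟩,
  .o ⟨false,1,⟨9,[(13,0),(0,0),(3,9),(11,1),(5,4)]⟩,⟨0,[(7,0),(25,0)]⟩⟩,.e ⟨false,0,⟨0,[(0,0)]⟩,⟨2,
  [(3,1),(15,0),(0,0),(14,1),(0,0)]⟩⟩ ⟨false,0,⟨5,[(0,1),(1,2),(2,1),(7,0),(0,0),(5,2)]⟩,⟨14,[(3,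
  13),(15,0),(0,0),(9,2),(4,7),(0,0)]⟩⟩,.o ⟨false,1,⟨12,[(3,8),(0,0),(13,7),(1,3),(9,4),(3,0),(0,1),
  (2,0)]⟩,⟨5,[(2,1),(7,1),(2,0),(0,0),(20,0)]⟩⟩]⟩) (.Q [0,0,0,1,1,0,2,1,0,-2,2] (.p true [0,0,1] [2,
  -1,-1] (⟨0,[(23,0)]⟩,⟨0,[(22,0)]⟩) .k 2 (⟨0,[(22,0),(4,0)]⟩,⟨0,[(11,0)]⟩) .k (.r (-1) ⟨1,[(5,1),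
  (14,0),(0,0)]⟩ ⟨2,[(0,1),(2,1),(15,1),(0,1)]⟩)) (.Q [0,0,-1,0,1,0,2,0,0,-2,2] (.p true [0,0,1] [2,
  -1,-1] (⟨0,[(24,0)]⟩,⟨0,[(23,0)]⟩) .k 2 (⟨0,[(23,0),(4,0)]⟩,⟨0,[(12,0)]⟩) .k (.r (-1) ⟨1,[(6,1),
  (14,0),(0,0)]⟩ ⟨2,[(1,1),(2,1),(15,1),(0,1)]⟩)) (.K ⟨0,[2,-1,-1],(-1),(-1),(⟨0,[(24,0),(4,0)]⟩,⟨0,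
  [(13,0)]⟩),.k,(.r (-1) ⟨1,[(2,0),(0,0),(1,1),(29,2),(1,0)]⟩ ⟨0,[(1,0),(2,0),(18,0),(12,0)]⟩),.k,
  (.r 0 ⟨0,[(2,0),(2,0),(29,0)]⟩ ⟨7,[(1,6),(2,6),(2,4),(2,0),(4,2),(0,2),(6,5)]⟩),.k,[⟨0,[(0,0)]⟩,
  ⟨1,[(4,1),(17,0),(0,0)]⟩,⟨23,[(1,18),(5,0),(2,4),(0,7),(11,8),(8,1),(0,7)]⟩,⟨0,[(2,0),(1,0),(30,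
  0)]⟩]⟩) (.R ⟨1,true,false,false,[0,0,1],[2,-1,-1],[1,0,0,-1,0,0,0,1],(⟨0,[(25,0)]⟩,⟨0,[(24,0)]⟩),
  (⟨0,[(24,0),(4,0)]⟩,⟨0,[(13,0)]⟩),⟨0,[(14,0)]⟩,.k,.k,.k,(.r (-1) ⟨3,[(0,3),(0,3),(5,1),(7,1),(0,
  1),(5,0),(0,0)]⟩ ⟨0,[(2,0),(2,0),(29,0)]⟩),.k,.k,⟨false,1,⟨1,[(7,1),(14,0),(0,0)]⟩,⟨2,[(2,3),(2,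
  0),(15,0),(0,0)]⟩⟩,⟨true,(-1),⟨0,[(0,0)]⟩,⟨0,[(1,0),(3,0),(29,0)]⟩⟩,⟨false,1,⟨0,[(35,0),(2,0)]⟩,
  ⟨0,[(36,0)]⟩⟩,⟨true,(-1),⟨0,[(0,0),(1,0),(2,0),(29,0)]⟩,⟨0,[(1,0),(9,0)]⟩⟩,⟨true,0,⟨0,[]⟩,⟨0,[(40,
  0)]⟩⟩,⟨false,(-1),⟨0,[(0,0),(1,0),(2,0)]⟩,⟨5,[(1,3),(4,3),(0,1),(7,1),(0,1),(5,0),(0,0)]⟩⟩,[]⟩))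
  (.Q [0,0,0,0,0,-2,0,0,0,2,-1] (.p false [-1,1,1] [1] (⟨0,[(12,0)]⟩,⟨0,[(23,0),(4,0)]⟩) .k 1 (⟨0,
  []⟩,⟨0,[]⟩) .k .k) (.R ⟨1,false,false,true,[2,-1,-1],[0,-1,1],[0,1,-1,-1,0,0,0,-1],(⟨3,[(0,1),(3,
  0),(17,0),(1,1),(12,0)]⟩,⟨0,[(13,0)]⟩),(⟨0,[(14,0)]⟩,⟨0,[(24,0),(5,0)]⟩),⟨0,[(0,0)]⟩,.k,.k,(.r
  (-1) ⟨1,[(2,0),(0,0),(1,1),(29,2),(1,0)]⟩ ⟨0,[(20,0),(2,0),(10,0),(1,1)]⟩),.k,(.r 0 ⟨0,[(2,0),(2,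
  0),(29,0)]⟩ ⟨0,[(7,0),(14,0),(0,0),(12,0)]⟩),.k,⟨false,0,⟨2,[(2,3),(2,0),(15,0),(0,0)]⟩,⟨1,[(7,1),
  (14,0),(0,0)]⟩⟩,⟨true,1,⟨12,[(5,21),(0,0),(13,20),(1,3),(9,4),(3,0),(0,1),(2,0)]⟩,⟨1,[(1,0),(2,0),
  (4,0),(1,1),(22,0)]⟩⟩,⟨true,0,⟨0,[(40,0)]⟩,⟨0,[]⟩⟩,⟨false,2,⟨4,[(15,0),(0,0),(3,9),(11,1),(5,4)]⟩,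
  ⟨1,[(1,0),(0,0),(1,0),(0,0),(3,0)]⟩⟩,⟨false,0,⟨0,[(36,0)]⟩,⟨0,[(35,0),(2,0)]⟩⟩,⟨false,2,⟨4,[(15,
  0),(0,0),(3,9),(11,1),(3,4),(1,4)]⟩,⟨0,[(1,0),(3,0)]⟩⟩,[.o ⟨false,1,⟨0,[(6,0),(33,0)]⟩,⟨0,[(9,
  0)]⟩⟩,.o ⟨false,1,⟨0,[(6,0)]⟩,⟨0,[(10,0)]⟩⟩,.a ⟨true,(-1),⟨0,[(4,0)]⟩,⟨4,[(5,3),(14,3),(1,0),(9,
  0),(4,2)]⟩⟩ ⟨true,0,⟨0,[(2,0),(32,0)]⟩,⟨0,[(11,0),(22,0),(1,0)]⟩⟩ ⟨false,2,⟨4,[(5,3),(0,4),(13,3),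
  (1,0),(9,0),(4,2)]⟩,⟨0,[(4,0),(4,0)]⟩⟩,.e ⟨false,1,⟨0,[(5,0),(29,0),(1,0)]⟩,⟨0,[(11,0),(22,1),(1,
  0)]⟩⟩ ⟨false,2,⟨2,[(2,1),(0,1),(1,2),(0,0),(13,4),(11,0),(4,0)]⟩,⟨0,[(4,0),(5,0),(23,0)]⟩⟩]⟩) (.I
  [0,0,0,0,1,0,0,0,-1] (.I [0,1,0,0,0,2,1,1] (.I [0,1,0,-1,-1,2,-1] (.C [(0,0),(3,1),(1,0),(1,3),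
  (14,4),(3,0),(1,1),(5,0),(1,0),(1,3)]) (.C [(0,0),(2,0),(0,0),(18,0)])) (.C [(0,0),(1,0),(19,0),
  (3,1)])) (.C [(0,0),(15,0),(2,0)])))))))))) (.R ⟨2,true,false,true,[0,1],[1,1,-1],[0,0,1,1],(⟨0,
  []⟩,⟨0,[]⟩),(⟨0,[(16,0),(5,0)]⟩,⟨0,[(6,0)]⟩),⟨0,[]⟩,.k,.k,.k,.k,.k,.k,⟨true,1,⟨0,[(3,0),(26,0)]⟩,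
  ⟨0,[(0,0),(26,0)]⟩⟩,⟨false,0,⟨0,[(11,0)]⟩,⟨9,[(7,0),(0,0),(5,9),(9,1),(4,4)]⟩⟩,⟨false,1,⟨1,[(7,0),
  (0,0),(21,0)]⟩,⟨0,[]⟩⟩,⟨true,(-1),⟨0,[(0,0),(10,0),(15,0)]⟩,⟨9,[(7,0),(0,0),(3,9),(11,1),(5,4)]⟩⟩,
  ⟨true,0,⟨0,[(28,0)]⟩,⟨0,[(27,0)]⟩⟩,⟨false,(-1),⟨0,[(0,0),(10,0)]⟩,⟨9,[(7,0),(0,0),(3,9),(11,1),(2,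
  9),(2,14)]⟩⟩,[]⟩))

theorem ok1 : chk K t1 r2 = true := by decide +kernel

noncomputable def t3 : Tre :=
  (.Q [0,0,0,0,0,0,1,1,0,-1,1] (.p true [0,0,1] [1] (⟨0,[(15,0)]⟩,⟨0,[(14,0)]⟩) .k 1 (⟨0,[]⟩,⟨0,
  []⟩) .k .k) (.S ⟨1,0,[0,0,0,0,0,0,0,1],[0,0,1],[0,1,0,0,0,0,0,1],(⟨0,[(16,0)]⟩,⟨0,[(15,0)]⟩),⟨0,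
  [(5,0)]⟩,.k,.k,⟨true,0,⟨0,[(31,0)]⟩,⟨0,[]⟩⟩,⟨false,1,⟨1,[(6,0),(0,0),(21,0)]⟩,⟨0,[]⟩⟩,⟨false,0,⟨0,
  [(27,0)]⟩,⟨0,[(26,0),(2,0)]⟩⟩,⟨true,0,⟨0,[(27,0)]⟩,⟨0,[(26,0)]⟩⟩,[.o ⟨false,0,⟨0,[(0,0)]⟩,⟨1,[(6,
  0),(0,0),(4,1),(16,0)]⟩⟩,.o ⟨false,1,⟨8,[(0,3),(10,4),(11,0),(5,6)]⟩,⟨0,[(12,0)]⟩⟩,.o ⟨false,1,⟨9,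
  [(6,0),(0,0),(5,9),(9,1),(4,4)]⟩,⟨0,[(0,0),(9,0),(1,0),(12,0)]⟩⟩,.a ⟨true,0,⟨0,[(13,0)]⟩,⟨0,[(10,
  0)]⟩⟩ ⟨false,0,⟨0,[(0,0),(9,0)]⟩,⟨0,[(12,0),(0,0),(15,0)]⟩⟩ ⟨true,0,⟨0,[(0,0),(9,0)]⟩,⟨0,[(12,0),
  (0,0)]⟩⟩]⟩) (.I [0,0,1,0,0,0,0,-1] (.Q [0,0,0,0,0,0,-1,0,0,0,-1] (.p false [0,0,1] [] (⟨0,[(17,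
  0)]⟩,⟨0,[(16,0)]⟩) .k 0 (⟨0,[]⟩,⟨0,[]⟩) .k .k) (.Q [0,-1,-1,-1,1,0,1,0,0,0,1] (.p true [0,0,1] []
  (⟨0,[(18,0)]⟩,⟨0,[(17,0)]⟩) .k 0 (⟨0,[]⟩,⟨0,[]⟩) .k .k) (.R ⟨0,false,false,false,[1,0,-1],[1,-1],
  [0,1],(⟨0,[(18,0)]⟩,⟨0,[(19,0)]⟩),(⟨0,[(23,0)]⟩,⟨0,[(24,0)]⟩),⟨0,[(7,0)]⟩,.k,.k,.k,.k,.k,.k,
  ⟨false,0,⟨0,[(30,0),(3,0)]⟩,⟨0,[(0,0),(0,0)]⟩⟩,⟨true,0,⟨0,[(16,0)]⟩,⟨0,[(1,0)]⟩⟩,⟨false,0,⟨0,[(1,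
  0),(2,0),(25,0)]⟩,⟨1,[(2,1),(28,0),(0,0)]⟩⟩,⟨true,0,⟨0,[(4,0)]⟩,⟨0,[(15,0),(14,0)]⟩⟩,⟨false,0,⟨0,
  []⟩,⟨0,[]⟩⟩,⟨false,0,⟨0,[]⟩,⟨0,[]⟩⟩,[.a ⟨true,0,⟨0,[(3,0),(0,0)]⟩,⟨0,[(30,0)]⟩⟩ ⟨true,0,⟨0,[(34,
  0)]⟩,⟨0,[(28,0)]⟩⟩ ⟨false,1,⟨6,[(0,5),(1,0),(6,0),(0,0),(3,0),(12,1),(1,0)]⟩,⟨0,[(1,0),(28,0)]⟩⟩,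
  .e ⟨false,1,⟨1,[(9,0),(0,0),(20,0)]⟩,⟨0,[]⟩⟩ ⟨false,1,⟨0,[(0,0)]⟩,⟨1,[(1,0),(15,0),(9,0),(2,1)]⟩⟩,
  .o ⟨false,0,⟨0,[(1,0)]⟩,⟨9,[(9,0),(0,0),(5,9),(9,1),(4,4)]⟩⟩,.e ⟨false,1,⟨1,[(9,0),(0,0),(20,0)]⟩,
  ⟨0,[(28,0)]⟩⟩ ⟨false,1,⟨0,[(0,0)]⟩,⟨0,[(17,0),(12,0)]⟩⟩]⟩) (.Q [0,0,1,-1,-1,0,-1,0,0,1,-1] (.p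
  false [0,0,1] [1] (⟨0,[(19,0)]⟩,⟨0,[(18,0)]⟩) .k 1 (⟨0,[]⟩,⟨0,[]⟩) .k .k) (.R ⟨0,false,false,
  false,[1,0,-1],[0,1],[1,1,1],(⟨0,[(19,0)]⟩,⟨0,[(20,0)]⟩),(⟨0,[(25,0)]⟩,⟨0,[(24,0)]⟩),⟨0,[(8,0)]⟩,
  .k,.k,.k,.k,.k,.k,⟨true,0,⟨0,[(30,0)]⟩,⟨0,[(29,0),(1,0)]⟩⟩,⟨false,2,⟨9,[(10,0),(0,0),(5,9),(9,1),
  (4,14)]⟩,⟨0,[(0,0),(30,0)]⟩⟩,⟨true,(-1),⟨0,[(1,0),(3,0)]⟩,⟨0,[(3,0),(28,0)]⟩⟩,⟨false,1,⟨4,[(5,3),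
  (9,0),(11,0),(3,8),(1,2)]⟩,⟨0,[(0,0),(2,0),(28,0)]⟩⟩,⟨false,0,⟨0,[]⟩,⟨0,[]⟩⟩,⟨false,0,⟨0,[]⟩,⟨0,
  []⟩⟩,[.a ⟨true,0,⟨0,[(31,0)]⟩,⟨0,[(4,0),(0,0)]⟩⟩ ⟨false,0,⟨0,[(35,0)]⟩,⟨1,[(32,0),(0,0)]⟩⟩ ⟨true,
  1,⟨9,[(10,0),(0,0),(5,9),(9,1),(3,9),(0,4)]⟩,⟨0,[(0,0)]⟩⟩,.o ⟨false,1,⟨9,[(10,0),(0,0),(15,1),(3,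
  9),(1,4)]⟩,⟨0,[(30,0)]⟩⟩,.o ⟨false,0,⟨0,[(2,0)]⟩,⟨9,[(10,0),(0,0),(5,9),(9,1),(4,4)]⟩⟩,.e ⟨false,
  0,⟨0,[]⟩,⟨1,[(10,0),(0,0),(21,0)]⟩⟩ ⟨false,2,⟨9,[(10,0),(0,0),(5,9),(9,1),(3,9),(0,9),(0,4)]⟩,⟨0,
  [(0,0)]⟩⟩]⟩) (.I [1,1,-1,-2,0,0,0,1] (.Q [0,0,0,2,0,0,-1,-1,0,0,-1] (.p false [0,0,1] [] (⟨0,[(21,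
  0)]⟩,⟨0,[(20,0)]⟩) .k 0 (⟨0,[]⟩,⟨0,[]⟩) .k .k) (.R ⟨1,true,false,false,[0,0,1],[0,1],[1,1,0,-1,0,
  0,0,1],(⟨0,[(22,0)]⟩,⟨0,[(21,0)]⟩),(⟨0,[(27,0)]⟩,⟨0,[(26,0)]⟩),⟨0,[(11,0)]⟩,.k,.k,.k,.k,(.r (-1)
  ⟨1,[(1,1),(32,0),(0,0)]⟩ ⟨1,[(0,1),(18,2),(0,0)]⟩),.k,⟨true,0,⟨0,[(1,0)]⟩,⟨0,[(0,0),(18,0),(11,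
  0)]⟩⟩,⟨false,1,⟨5,[(9,0),(6,3),(12,0),(4,3)]⟩,⟨0,[(19,0)]⟩⟩,⟨true,0,⟨0,[(32,0)]⟩,⟨0,[(33,0)]⟩⟩,
  ⟨false,1,⟨9,[(0,4),(5,4),(5,2),(0,2),(15,0),(5,4)]⟩,⟨0,[(7,0)]⟩⟩,⟨false,0,⟨0,[]⟩,⟨1,[(12,0),(0,0),
  (21,0)]⟩⟩,⟨true,0,⟨0,[(0,0)]⟩,⟨0,[(7,0),(24,0)]⟩⟩,[]⟩) (.Q [0,0,1,0,-1,0,-1,0,0,1,-1] (.p false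
  [0,0,1] [1] (⟨0,[(22,0)]⟩,⟨0,[(21,0)]⟩) .k 1 (⟨0,[]⟩,⟨0,[]⟩) .k .k) (.Q [0,0,0,0,1,0,1,0,0,-2,1]
  (.p true [-1,1,1] [1] (⟨0,[(11,0)]⟩,⟨0,[(22,0),(4,0)]⟩) .k 1 (⟨0,[]⟩,⟨0,[]⟩) .k .k) (.R ⟨0,false,
  false,false,[-1,1,1],[0,1],[1,0,1,1],(⟨0,[(12,0)]⟩,⟨0,[(23,0),(4,0)]⟩),(⟨0,[(29,0)]⟩,⟨0,[(28,
  0)]⟩),⟨0,[(23,0)]⟩,.k,.k,.k,.k,.k,.k,⟨true,0,⟨0,[]⟩,⟨1,[(21,0),(0,0)]⟩⟩,⟨false,0,⟨0,[(18,0)]⟩,⟨5,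
  [(0,1),(1,0),(1,1),(2,0),(6,1),(0,1),(5,0)]⟩⟩,⟨false,1,⟨1,[(7,1),(28,0),(0,0)]⟩,⟨10,[(5,4),(3,9),
  (0,0),(7,4),(12,0),(3,4),(1,2)]⟩⟩,⟨true,0,⟨0,[(8,0)]⟩,⟨0,[(2,0),(1,0),(0,0)]⟩⟩,⟨false,0,⟨0,[]⟩,⟨0,
  []⟩⟩,⟨false,0,⟨0,[]⟩,⟨0,[]⟩⟩,[.a ⟨true,0,⟨0,[(35,0)]⟩,⟨0,[(8,0),(0,0)]⟩⟩ ⟨false,0,⟨0,[(35,0)]⟩,⟨1,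
  [(34,1),(1,0),(0,0)]⟩⟩ ⟨true,(-1),⟨0,[(1,0),(33,0)]⟩,⟨2,[(0,0),(1,0),(1,0),(2,0),(26,1),(2,0)]⟩⟩,
  .o ⟨false,1,⟨5,[(4,0),(17,0),(8,0),(3,4),(1,2)]⟩,⟨0,[(34,0)]⟩⟩,.o ⟨false,2,⟨1,[(0,1),(13,0),(0,0),
  (20,0)]⟩,⟨0,[(1,0)]⟩⟩,.o ⟨false,1,⟨0,[(0,0)]⟩,⟨1,[(11,0),(11,0),(0,0)]⟩⟩]⟩) (.Q [0,-1,0,-1,0,0,-1,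
  -1,0,2,-1] (.p false [-1,1,1] [1] (⟨0,[(12,0)]⟩,⟨0,[(23,0),(4,0)]⟩) .k 1 (⟨0,[]⟩,⟨0,[]⟩) .k .k)
  (.Q [0,1,0,-1,-1,0,-1,-1,0,2,-1] (.p false [-1,1,1] [1] (⟨0,[(13,0)]⟩,⟨0,[(24,0),(4,0)]⟩) .k 1
  (⟨0,[]⟩,⟨0,[]⟩) .k .k) (.R ⟨0,false,false,false,[1,0,-1],[0,1],[1,1,1],(⟨0,[(25,0)]⟩,⟨0,[(26,
  0)]⟩),(⟨0,[(31,0)]⟩,⟨0,[(30,0)]⟩),⟨0,[(14,0)]⟩,.k,.k,.k,.k,.k,.k,⟨true,0,⟨0,[(36,0)]⟩,⟨0,[(35,0),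
  (1,0)]⟩⟩,⟨false,2,⟨19,[(1,4),(2,4),(1,19),(9,5),(0,5),(15,1),(2,4),(1,9)]⟩,⟨0,[(3,0)]⟩⟩,⟨true,
  (-1),⟨0,[(7,0),(3,0)]⟩,⟨0,[(9,0),(28,0)]⟩⟩,⟨false,1,⟨4,[(11,3),(9,0),(11,0),(3,8),(1,2)]⟩,⟨6,[(0,
  1),(0,3),(20,0),(10,0),(2,0)]⟩⟩,⟨false,0,⟨0,[]⟩,⟨0,[]⟩⟩,⟨false,0,⟨0,[]⟩,⟨0,[]⟩⟩,[.e ⟨false,0,⟨0,
  [(41,0)]⟩,⟨1,[(38,0),(0,0)]⟩⟩ ⟨false,1,⟨0,[(6,0)]⟩,⟨3,[(1,0),(2,0),(8,1),(22,0)]⟩⟩,.o ⟨false,1,⟨5,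
  [(6,0),(17,0),(8,0),(3,4),(1,2)]⟩,⟨0,[(36,0)]⟩⟩,.o ⟨false,0,⟨0,[(8,0)]⟩,⟨19,[(4,4),(1,9),(2,4),(6,
  5),(0,5),(5,4),(9,1)]⟩⟩,.a ⟨true,(-1),⟨0,[(3,0)]⟩,⟨5,[(1,2),(2,0),(1,5),(14,1),(14,0)]⟩⟩ ⟨false,0,
  ⟨0,[]⟩,⟨1,[(16,0),(0,0),(21,0)]⟩⟩ ⟨true,1,⟨0,[(6,0)]⟩,⟨1,[(0,0),(3,0),(2,0),(16,0)]⟩⟩]⟩) (.R ⟨0,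
  false,false,false,[-1,1,1],[0,1],[1,1,1],(⟨0,[(14,0)]⟩,⟨0,[(25,0),(4,0)]⟩),(⟨0,[(31,0)]⟩,⟨0,[(30,
  0)]⟩),⟨0,[(25,0)]⟩,.k,.k,.k,.k,.k,.k,⟨true,0,⟨0,[(36,0)]⟩,⟨0,[(35,0),(1,0)]⟩⟩,⟨false,0,⟨0,[(20,
  0)]⟩,⟨19,[(4,4),(1,9),(2,4),(6,5),(0,5),(5,4),(9,1)]⟩⟩,⟨false,1,⟨39,[(1,24),(2,4),(1,19),(2,19),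
  (6,7),(0,7),(15,5),(2,24)]⟩,⟨0,[(0,0),(1,0)]⟩⟩,⟨true,0,⟨0,[(10,0)]⟩,⟨0,[(4,0),(1,0),(0,0)]⟩⟩,
  ⟨false,0,⟨0,[]⟩,⟨0,[]⟩⟩,⟨false,0,⟨0,[]⟩,⟨0,[]⟩⟩,[.a ⟨true,0,⟨0,[(37,0)]⟩,⟨5,[(1,2),(2,0),(16,1),
  (14,0)]⟩⟩ ⟨false,0,⟨0,[(41,0)]⟩,⟨1,[(38,0),(0,0)]⟩⟩ ⟨true,(-1),⟨1,[(2,0),(4,0),(27,0),(1,0)]⟩,⟨39,
  [(1,4),(2,24),(1,19),(2,19),(6,7),(0,7),(15,5),(2,4)]⟩⟩,.o ⟨false,1,⟨5,[(6,0),(17,0),(8,0),(3,4),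
  (1,2)]⟩,⟨0,[(36,0)]⟩⟩,.o ⟨false,2,⟨53,[(1,12),(2,12),(1,53),(9,20),(0,20),(15,15),(2,14),(2,0)]⟩,
  ⟨0,[(3,0)]⟩⟩,.e ⟨false,0,⟨0,[]⟩,⟨1,[(16,0),(0,0),(21,0)]⟩⟩ ⟨false,0,⟨2,[(2,0),(4,0),(12,0),(16,1),
  (1,1)]⟩,⟨39,[(1,4),(2,24),(1,19),(2,19),(6,7),(0,7),(15,5),(2,4)]⟩⟩]⟩)) (.R ⟨0,false,false,false,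
  [-1,1,1],[0,1],[],(⟨0,[(13,0)]⟩,⟨0,[(24,0),(4,0)]⟩),(⟨0,[(30,0)]⟩,⟨0,[(29,0)]⟩),⟨0,[(24,0)]⟩,.k,
  .k,.k,.k,.k,.k,⟨true,1,⟨1,[(35,1),(1,0),(0,0)]⟩,⟨0,[(0,0),(0,0),(6,0),(25,0)]⟩⟩,⟨false,0,⟨0,[(19,
  0)]⟩,⟨19,[(3,4),(1,9),(2,4),(6,5),(0,5),(5,4),(9,1)]⟩⟩,⟨false,2,⟨0,[(8,0),(26,0),(1,0),(0,0)]⟩,⟨0,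
  [(0,0),(0,0),(32,0)]⟩⟩,⟨true,0,⟨0,[(9,0)]⟩,⟨5,[(0,2),(2,0),(16,1),(14,0)]⟩⟩,⟨false,0,⟨0,[]⟩,⟨0,
  []⟩⟩,⟨false,0,⟨0,[]⟩,⟨0,[]⟩⟩,[.a ⟨true,0,⟨0,[(36,0)]⟩,⟨11,[(1,1),(1,5),(5,7),(10,1),(1,1),(14,0),
  (0,0)]⟩⟩ ⟨false,1,⟨1,[(15,0),(0,0),(20,0)]⟩,⟨0,[]⟩⟩ ⟨true,(-1),⟨1,[(1,0),(4,0),(27,0),(1,0)]⟩,⟨19,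
  [(3,9),(1,9),(2,9),(6,0),(0,0),(15,1),(2,9),(2,4)]⟩⟩,.o ⟨false,1,⟨5,[(5,0),(17,0),(8,0),(3,4),(1,
  2)]⟩,⟨0,[(35,0)]⟩⟩,.o ⟨false,2,⟨9,[(5,9),(9,0),(0,0),(15,1),(2,9),(2,4)]⟩,⟨0,[(2,0)]⟩⟩,.e ⟨false,
  1,⟨1,[(37,0),(0,0)]⟩,⟨1,[(22,0),(0,0)]⟩⟩ ⟨false,0,⟨2,[(1,0),(4,0),(12,0),(16,1),(1,1)]⟩,⟨19,[(3,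
  9),(1,9),(2,9),(6,0),(0,0),(15,1),(2,9),(2,4)]⟩⟩]⟩))) (.R ⟨0,false,false,true,[1,0,-1],[1,-1],[1,
  0,0,0,0,0,0,-1],(⟨0,[(22,0)]⟩,⟨0,[(23,0)]⟩),(⟨0,[(27,0)]⟩,⟨0,[(28,0)]⟩),⟨0,[(11,0)]⟩,.k,.k,.k,.k,
  .k,.k,⟨false,1,⟨1,[(3,0),(2,0),(0,0),(26,0),(1,0)]⟩,⟨2,[(2,1),(0,0),(0,0),(3,0),(8,0)]⟩⟩,⟨true,0,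
  ⟨0,[(20,0)]⟩,⟨0,[(5,0)]⟩⟩,⟨true,0,⟨0,[]⟩,⟨0,[(38,0)]⟩⟩,⟨false,0,⟨0,[(8,0)]⟩,⟨5,[(3,0),(3,5),(13,
  0),(8,0),(3,4),(1,2)]⟩⟩,⟨false,0,⟨0,[]⟩,⟨0,[]⟩⟩,⟨false,0,⟨0,[]⟩,⟨0,[]⟩⟩,[.o ⟨false,0,⟨0,[(33,0)]⟩,
  ⟨5,[(3,0),(17,0),(8,0),(3,4),(1,2)]⟩⟩,.a ⟨true,0,⟨0,[(7,0),(0,0)]⟩,⟨0,[(34,0)]⟩⟩ ⟨true,1,⟨1,[(6,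
  1),(28,0),(0,0)]⟩,⟨0,[(4,0),(3,0)]⟩⟩ ⟨false,1,⟨1,[(1,0),(4,0),(13,0),(14,1)]⟩,⟨9,[(4,3),(5,0),(6,
  3),(12,0),(3,5),(1,1)]⟩⟩,.o ⟨false,0,⟨0,[(5,0)]⟩,⟨29,[(0,12),(2,1),(9,7),(0,7),(5,14),(9,2),(2,1),
  (2,0)]⟩⟩,.o ⟨false,0,⟨0,[(21,0)]⟩,⟨0,[(0,0)]⟩⟩]⟩))) (.I [0,0,-2,0,1,-2,-1] (.Q [0,0,0,2,0,0,-1,-1,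
  0,0,-1] (.p false [0,0,1] [] (⟨0,[(22,0)]⟩,⟨0,[(21,0)]⟩) .k 0 (⟨0,[]⟩,⟨0,[]⟩) .k .k) (.R ⟨1,false,
  false,false,[0,0,1],[0,1],[1,1,1],(⟨0,[(23,0)]⟩,⟨0,[(22,0)]⟩),(⟨0,[(28,0)]⟩,⟨0,[(27,0)]⟩),⟨0,[(12,
  0)]⟩,.k,.k,.k,.k,(.x 0 ⟨4,[(2,0),(1,1),(1,2),(1,3),(11,2),(1,4),(5,9),(1,0),(1,0)]⟩ ⟨0,[(1,0)]⟩),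
  .k,⟨true,0,⟨0,[(33,0)]⟩,⟨1,[(2,0),(1,0),(3,0),(27,0)]⟩⟩,⟨false,1,⟨5,[(10,0),(6,3),(12,0),(4,3)]⟩,
  ⟨0,[(20,0)]⟩⟩,⟨false,0,⟨0,[(6,0)]⟩,⟨11,[(3,0),(4,9),(0,1),(7,10),(12,1),(3,8),(1,6)]⟩⟩,⟨false,1,
  ⟨9,[(0,4),(6,4),(5,2),(0,2),(15,0),(5,4)]⟩,⟨0,[(8,0)]⟩⟩,⟨false,0,⟨1,[(2,0),(3,0),(31,0)]⟩,⟨5,[(8,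
  5),(1,0),(6,3),(12,0),(4,0),(0,2)]⟩⟩,⟨true,0,⟨0,[(0,0)]⟩,⟨0,[(8,0),(24,0)]⟩⟩,[.a ⟨true,0,⟨0,[(34,
  0)]⟩,⟨0,[(7,0),(0,0)]⟩⟩ ⟨false,0,⟨0,[(38,0)]⟩,⟨1,[(35,0),(0,0)]⟩⟩ ⟨true,0,⟨9,[(4,3),(5,0),(6,3),
  (12,0),(3,5),(1,1)]⟩,⟨0,[(6,0),(1,0)]⟩⟩,.o ⟨false,1,⟨10,[(0,0),(1,0),(0,0),(5,1),(20,1),(3,5),(1,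
  5)]⟩,⟨0,[(33,0)]⟩⟩,.o ⟨false,1,⟨19,[(3,9),(9,0),(0,0),(5,9),(9,1),(2,9),(2,4)]⟩,⟨0,[(5,0)]⟩⟩,.e
  ⟨false,0,⟨0,[]⟩,⟨1,[(13,0),(0,0),(21,0)]⟩⟩ ⟨false,1,⟨5,[(3,0),(6,0),(6,4),(12,0),(3,4),(1,2)]⟩,⟨0,
  [(6,0),(1,0)]⟩⟩]⟩) (.Q [0,-1,0,-1,0,0,0,0,0,1] (.pp false [-1,1]) (.R ⟨0,false,false,false,[1,0,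
  -1],[0,1],[1,1,1],(⟨0,[(23,0)]⟩,⟨0,[(24,0)]⟩),(⟨0,[(29,0)]⟩,⟨0,[(28,0)]⟩),⟨0,[(12,0)]⟩,.k,.k,.k,
  .k,.k,.k,⟨true,0,⟨0,[(34,0)]⟩,⟨1,[(3,0),(1,0),(3,0),(27,0)]⟩⟩,⟨false,2,⟨1,[(4,1),(29,1),(1,0),(0,
  0)]⟩,⟨0,[(0,0),(4,0)]⟩⟩,⟨true,(-1),⟨0,[(5,0),(3,0)]⟩,⟨0,[(7,0),(28,0)]⟩⟩,⟨false,1,⟨4,[(9,3),(9,0),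
  (11,0),(3,8),(1,2)]⟩,⟨0,[(0,0),(19,0)]⟩⟩,⟨false,0,⟨0,[]⟩,⟨0,[]⟩⟩,⟨false,0,⟨0,[]⟩,⟨0,[]⟩⟩,[.e
  ⟨false,0,⟨0,[(39,0)]⟩,⟨1,[(36,0),(0,0)]⟩⟩ ⟨false,1,⟨0,[(4,0)]⟩,⟨1,[(0,0),(10,0),(22,0)]⟩⟩,.o
  ⟨false,1,⟨15,[(3,1),(0,1),(5,1),(0,0),(19,2),(3,9),(1,7)]⟩,⟨0,[(34,0)]⟩⟩,.o ⟨false,0,⟨0,[(6,0)]⟩,
  ⟨19,[(4,9),(9,0),(0,0),(5,9),(9,1),(2,9),(2,4)]⟩⟩,.a ⟨true,(-1),⟨0,[(0,0),(4,0)]⟩,⟨0,[(21,0),(14,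
  0)]⟩⟩ ⟨false,0,⟨0,[]⟩,⟨1,[(14,0),(0,0),(21,0)]⟩⟩ ⟨true,1,⟨0,[(4,0)]⟩,⟨0,[(0,0),(4,0),(28,0)]⟩⟩]⟩)
  (.Q [0,0,0,0,0,-2,0,0,0,0,1] (.p true [0,0,1] [] (⟨0,[(24,0)]⟩,⟨0,[(23,0)]⟩) .k 0 (⟨0,[]⟩,⟨0,[]⟩)
  .k .k) (.R ⟨1,false,false,true,[0,-1,1],[1,-1],[],(⟨0,[(14,0)]⟩,⟨0,[(24,0),(5,0)]⟩),(⟨0,[(29,0)]⟩,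
  ⟨0,[(30,0)]⟩),⟨0,[(0,0)]⟩,.k,.k,(.x 0 ⟨4,[(2,1),(1,0),(1,1),(1,0),(13,4),(1,4),(5,9),(1,0),(1,
  0)]⟩ ⟨0,[(3,0)]⟩),.k,.k,.k,⟨true,0,⟨1,[(4,0),(1,0),(3,0),(27,0)]⟩,⟨0,[(35,0)]⟩⟩,⟨false,0,⟨0,[(19,
  0)]⟩,⟨19,[(5,9),(9,0),(0,0),(5,9),(9,1),(2,9),(2,4)]⟩⟩,⟨true,0,⟨1,[(4,0),(3,0),(31,0)]⟩,⟨0,[(1,0),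
  (0,0),(16,0)]⟩⟩,⟨false,0,⟨0,[(9,0)]⟩,⟨4,[(10,3),(9,0),(11,0),(3,3),(1,2)]⟩⟩,⟨false,0,⟨0,[(4,0)]⟩,
  ⟨9,[(2,9),(9,4),(2,2),(0,2),(15,0),(4,4)]⟩⟩,⟨false,0,⟨9,[(4,4),(4,5),(2,0),(6,2),(0,0),(12,1)]⟩,
  ⟨4,[(2,0),(7,2),(9,0),(11,0),(5,2)]⟩⟩,[.o ⟨false,0,⟨0,[(35,0)]⟩,⟨15,[(4,1),(0,1),(5,1),(0,0),(19,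
  2),(3,9),(1,7)]⟩⟩,.e ⟨false,1,⟨1,[(37,0),(0,0)]⟩,⟨0,[(40,0)]⟩⟩ ⟨false,1,⟨1,[(2,0),(6,0),(2,0),(24,
  1)]⟩,⟨0,[(1,0),(0,0),(1,0)]⟩⟩,.a ⟨true,0,⟨0,[(22,0)]⟩,⟨0,[(19,0)]⟩⟩ ⟨false,1,⟨1,[(15,0),(0,0),(21,
  0)]⟩,⟨0,[]⟩⟩ ⟨true,0,⟨0,[(19,0),(15,0)]⟩,⟨0,[(1,0),(0,0),(1,0)]⟩⟩,.o ⟨false,0,⟨4,[(2,1),(1,0),(1,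
  1),(1,0),(13,4),(9,0),(1,0)]⟩,⟨5,[(12,0),(6,3),(12,0),(4,3)]⟩⟩]⟩) (.I [0,0,0,0,1,0,0,0,-1] (.I [0,
  0,0,-2,0,0,0,1] (.I [0,1,0,-2] (.C [(0,0),(2,0),(1,2),(1,2),(1,1),(6,0),(5,0),(6,2),(10,1)]) (.C
  [(0,0),(4,0),(18,0)])) (.C [(0,3),(3,7),(1,2),(1,1),(12,4),(1,0),(10,0)])) (.C [(0,0),(15,0),(2,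
  0)]))))) (.R ⟨0,false,false,false,[1,0,-1],[1,-1],[0,0,-1,-1],(⟨0,[(21,0)]⟩,⟨0,[(22,0)]⟩),(⟨0,
  [(26,0)]⟩,⟨0,[(27,0)]⟩),⟨0,[(10,0)]⟩,.k,.k,.k,.k,.k,.k,⟨false,1,⟨1,[(12,0),(0,0),(20,0)]⟩,⟨0,[]⟩⟩,
  ⟨true,0,⟨0,[(19,0)]⟩,⟨0,[(4,0)]⟩⟩,⟨false,1,⟨5,[(7,5),(1,0),(6,3),(12,0),(4,0),(0,2)]⟩,⟨1,[(1,0),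
  (3,0),(31,0)]⟩⟩,⟨true,0,⟨0,[(7,0)]⟩,⟨8,[(1,2),(0,0),(0,1),(5,0),(8,5),(11,1),(3,0)]⟩⟩,⟨false,0,⟨0,
  []⟩,⟨0,[]⟩⟩,⟨false,0,⟨0,[]⟩,⟨0,[]⟩⟩,[.a ⟨true,0,⟨0,[(6,0),(0,0)]⟩,⟨0,[(33,0)]⟩⟩ ⟨true,1,⟨1,[(32,
  1),(1,0),(0,0)]⟩,⟨2,[(0,0),(0,0),(1,1),(3,0),(3,0),(11,0),(7,0)]⟩⟩ ⟨false,1,⟨0,[(5,0),(1,0),(26,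
  0)]⟩,⟨9,[(3,3),(5,0),(6,3),(12,0),(3,5),(1,1)]⟩⟩,.o ⟨false,1,⟨0,[(32,0),(2,0)]⟩,⟨4,[(0,2),(2,2),
  (7,2),(11,2),(5,0),(0,0),(2,1),(0,3)]⟩⟩,.o ⟨false,0,⟨0,[(4,0)]⟩,⟨19,[(2,9),(9,0),(0,0),(5,9),(9,
  1),(2,9),(2,4)]⟩⟩,.o ⟨false,0,⟨0,[(20,0)]⟩,⟨14,[(0,10),(0,1),(3,1),(1,3),(3,10),(11,10),(5,2),(0,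
  0),(3,19)]⟩⟩]⟩))))) (.I [1,0,0,0,0,0,0,-1] (.Q [0,0,0,2,0,0,-1,-1,0,0,-1] (.p false [0,0,1] []
  (⟨0,[(19,0)]⟩,⟨0,[(18,0)]⟩) .k 0 (⟨0,[]⟩,⟨0,[]⟩) .k .k) (.R ⟨1,false,false,false,[0,0,1],[0,1],[0,
  1,1],(⟨0,[(20,0)]⟩,⟨0,[(19,0)]⟩),(⟨0,[(25,0)]⟩,⟨0,[(24,0)]⟩),⟨0,[(9,0)]⟩,.k,.k,.k,.k,(.r (-1) ⟨5,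
  [(1,3),(3,9),(8,9),(12,1),(2,1),(1,0),(0,0)]⟩ ⟨1,[(0,1),(16,2),(0,0)]⟩),.k,⟨true,0,⟨0,[(30,0)]⟩,
  ⟨0,[(29,0),(1,0)]⟩⟩,⟨false,1,⟨5,[(7,0),(6,3),(12,0),(4,3)]⟩,⟨0,[(17,0)]⟩⟩,⟨false,0,⟨0,[(3,0)]⟩,
  ⟨11,[(5,9),(0,1),(7,9),(12,1),(3,9),(0,0),(0,6)]⟩⟩,⟨false,1,⟨9,[(0,4),(3,4),(5,2),(0,2),(15,0),(5,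
  4)]⟩,⟨0,[(5,0)]⟩⟩,⟨false,0,⟨1,[(0,0),(2,0),(13,0)]⟩,⟨5,[(5,5),(1,0),(6,3),(12,0),(4,0),(0,2)]⟩⟩,
  ⟨true,0,⟨0,[(0,0)]⟩,⟨0,[(5,0),(24,0)]⟩⟩,[.e ⟨false,0,⟨0,[(35,0)]⟩,⟨1,[(32,0),(0,0)]⟩⟩ ⟨false,1,
  ⟨19,[(0,9),(5,9),(0,4),(2,2),(0,2),(15,0),(4,9),(0,4)]⟩,⟨0,[(1,0),(3,0)]⟩⟩,.o ⟨false,1,⟨4,[(0,0),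
  (14,0),(11,0),(3,2),(1,2)]⟩,⟨0,[(30,0)]⟩⟩,.e ⟨false,0,⟨1,[(17,0),(0,0)]⟩,⟨1,[(32,0),(0,0)]⟩⟩
  ⟨false,1,⟨19,[(0,9),(5,9),(0,4),(2,2),(0,2),(15,0),(5,14)]⟩,⟨0,[(1,0),(3,0)]⟩⟩,.a ⟨true,0,⟨0,[(17,
  0)]⟩,⟨0,[(14,0)]⟩⟩ ⟨true,0,⟨0,[(35,0)]⟩,⟨0,[]⟩⟩ ⟨false,1,⟨11,[(0,1),(5,1),(7,9),(12,1),(3,7),(0,
  0),(0,6)]⟩,⟨0,[(3,0),(1,0)]⟩⟩]⟩) (.I [0,0,0,0,0,0,0,-1] (.I [0,0,1,0,0,0,0,2] (.Q [0,0,-1,-1,0,0,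
  -1,0,0,1,-1] (.p false [0,0,1] [1] (⟨0,[(22,0)]⟩,⟨0,[(21,0)]⟩) .k 1 (⟨0,[]⟩,⟨0,[]⟩) .k .k) (.I [1,
  1,0,-1,0,0,0,1] (.R ⟨1,false,false,true,[0,0,1],[1,-1],[1,1,0,-1,0,0,0,1],(⟨0,[(24,0)]⟩,⟨0,[(23,
  0)]⟩),(⟨0,[(28,0)]⟩,⟨0,[(29,0)]⟩),⟨0,[(13,0)]⟩,.k,.k,.k,.k,.k,.k,⟨true,0,⟨2,[(2,1),(4,0)]⟩,⟨0,[(3,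
  0)]⟩⟩,⟨false,0,⟨2,[(2,0),(5,1),(9,0)]⟩,⟨4,[(6,3),(14,0),(9,0),(4,2)]⟩⟩,⟨true,0,⟨0,[(34,0)]⟩,⟨0,
  [(35,0)]⟩⟩,⟨false,0,⟨0,[(1,0),(5,0)]⟩,⟨4,[(9,3),(9,0),(11,0),(3,8),(1,2)]⟩⟩,⟨false,0,⟨0,[]⟩,⟨1,
  [(14,0),(0,0),(21,0)]⟩⟩,⟨false,0,⟨0,[(8,0)]⟩,⟨4,[(9,3),(9,0),(11,0),(3,3),(1,2)]⟩⟩,[.o ⟨false,0,
  ⟨0,[(34,0)]⟩,⟨9,[(14,0),(0,0),(15,1),(3,9),(1,4)]⟩⟩,.e ⟨false,1,⟨1,[(0,1),(35,0),(0,0)]⟩,⟨0,[(5,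
  0),(29,0)]⟩⟩ ⟨false,0,⟨0,[(1,0)]⟩,⟨9,[(14,0),(0,0),(5,9),(9,1),(3,9),(0,4)]⟩⟩,.a ⟨true,0,⟨0,[(6,
  0)]⟩,⟨2,[(2,0),(5,1),(9,0)]⟩⟩ ⟨true,0,⟨0,[(0,0)]⟩,⟨0,[(5,0),(29,0)]⟩⟩ ⟨false,0,⟨1,[(4,0),(3,0),(2,
  0)]⟩,⟨9,[(6,7),(14,1),(9,1),(3,9),(0,0),(0,4)]⟩⟩,.e ⟨false,1,⟨1,[(0,1),(35,0),(0,0)]⟩,⟨0,[(5,0),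
  (27,0),(1,0)]⟩⟩ ⟨false,0,⟨0,[(1,0)]⟩,⟨9,[(14,0),(0,0),(5,9),(9,1),(3,9),(1,4)]⟩⟩]⟩) (.R ⟨1,false,
  false,true,[0,0,1],[1,-1],[1],(⟨0,[(24,0)]⟩,⟨0,[(23,0)]⟩),(⟨0,[(28,0)]⟩,⟨0,[(29,0)]⟩),⟨0,[(13,
  0)]⟩,.k,.k,.k,.k,.k,.k,⟨true,0,⟨2,[(0,2),(1,1),(4,0)]⟩,⟨0,[(34,0)]⟩⟩,⟨false,0,⟨2,[(2,0),(5,1),(9,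
  0)]⟩,⟨4,[(6,3),(14,0),(9,0),(4,2)]⟩⟩,⟨true,0,⟨0,[(5,0)]⟩,⟨1,[(2,0),(29,0)]⟩⟩,⟨false,0,⟨0,[(1,0),
  (5,0)]⟩,⟨4,[(9,3),(9,0),(11,0),(3,8),(1,2)]⟩⟩,⟨false,0,⟨0,[(0,0)]⟩,⟨39,[(2,9),(1,19),(6,9),(2,30),
  (0,30),(15,1),(4,4)]⟩⟩,⟨false,0,⟨0,[(8,0)]⟩,⟨4,[(9,3),(9,0),(11,0),(3,3),(1,2)]⟩⟩,[.o ⟨false,0,⟨0,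
  [(34,0)]⟩,⟨9,[(14,0),(0,0),(15,1),(3,9),(1,4)]⟩⟩,.e ⟨false,1,⟨1,[(36,0),(0,0)]⟩,⟨0,[(39,0)]⟩⟩
  ⟨false,0,⟨0,[(1,0)]⟩,⟨9,[(14,0),(0,0),(5,9),(9,1),(3,9),(0,4)]⟩⟩,.a ⟨true,0,⟨0,[(6,0)]⟩,⟨2,[(2,0),
  (5,1),(9,0)]⟩⟩ ⟨true,0,⟨0,[]⟩,⟨0,[(39,0)]⟩⟩ ⟨false,0,⟨1,[(4,0),(3,0),(2,0)]⟩,⟨9,[(0,7),(18,7),(1,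
  1),(9,1),(3,1),(0,0),(0,4)]⟩⟩,.e ⟨false,1,⟨1,[(36,0),(0,0)]⟩,⟨2,[(2,0),(4,1)]⟩⟩ ⟨false,0,⟨0,[(1,
  0)]⟩,⟨9,[(14,0),(0,0),(5,9),(9,1),(3,9),(1,4)]⟩⟩]⟩)) (.R ⟨1,false,false,true,[0,0,1],[1,0,-1],[0,
  1,0,0,0,0,0,1],(⟨0,[(23,0)]⟩,⟨0,[(22,0)]⟩),(⟨0,[(22,0)]⟩,⟨0,[(23,0)]⟩),⟨0,[(12,0)]⟩,.k,.k,.k,.k,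
  (.r (-1) ⟨39,[(1,29),(1,19),(6,9),(2,0),(0,0),(15,1),(4,34)]⟩ ⟨0,[(4,0),(1,0),(27,0)]⟩),.k,⟨false,
  1,⟨0,[(1,0),(33,0)]⟩,⟨0,[(4,1)]⟩⟩,⟨true,0,⟨0,[(10,0)]⟩,⟨1,[(0,1),(2,0),(0,0),(0,0)]⟩⟩,⟨true,0,⟨0,
  [(38,0)]⟩,⟨0,[]⟩⟩,⟨false,0,⟨0,[(4,1),(5,0)]⟩,⟨13,[(0,3),(0,1),(6,23),(21,1),(3,19),(0,2),(0,6)]⟩⟩,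
  ⟨false,0,⟨0,[(34,0)]⟩,⟨0,[(33,0),(2,0)]⟩⟩,⟨false,0,⟨0,[(4,1),(5,0),(23,0)]⟩,⟨13,[(0,3),(0,1),(6,
  23),(21,1),(3,5),(0,2),(0,6)]⟩⟩,[.o ⟨false,0,⟨0,[(19,0)]⟩,⟨13,[(0,3),(0,1),(6,9),(21,1),(3,5),(0,
  2),(0,6)]⟩⟩,.a ⟨true,0,⟨0,[(7,0)]⟩,⟨0,[(8,0),(25,0)]⟩⟩ ⟨false,1,⟨3,[(1,1),(11,0),(0,0),(20,2)]⟩,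
  ⟨0,[(4,0)]⟩⟩ ⟨true,0,⟨0,[(4,0),(5,0)]⟩,⟨0,[(0,0),(7,0)]⟩⟩,.a ⟨true,0,⟨0,[(5,0)]⟩,⟨2,[(1,0),(5,1),
  (9,0)]⟩⟩ ⟨true,0,⟨1,[(1,0),(29,0)]⟩,⟨0,[(4,0)]⟩⟩ ⟨false,0,⟨0,[(4,0),(5,0)]⟩,⟨1,[(0,1),(7,1),(26,
  0),(0,0)]⟩⟩,.a ⟨true,0,⟨0,[(20,0)]⟩,⟨0,[(17,0)]⟩⟩ ⟨false,1,⟨3,[(1,1),(11,0),(0,0),(20,2)]⟩,⟨0,[(4,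
  0),(27,0)]⟩⟩ ⟨true,0,⟨0,[(17,0),(1,0)]⟩,⟨0,[(0,0),(7,0)]⟩⟩]⟩)) (.R ⟨0,false,false,false,[-1,1,1],
  [1,0,-1],[1,0,1],(⟨0,[(10,0)]⟩,⟨0,[(21,0),(4,0)]⟩),(⟨0,[(21,0)]⟩,⟨0,[(22,0)]⟩),⟨0,[(21,0)]⟩,.k,.k,
  .k,(.x (-1) ⟨14,[(0,12),(3,3),(2,25),(13,29),(1,9),(2,4),(2,6),(3,25),(0,0)]⟩ ⟨1,[(9,0),(0,0),(9,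
  1),(1,2),(4,0)]⟩),.k,.k,⟨true,0,⟨0,[(8,0),(22,0)]⟩,⟨0,[(1,0)]⟩⟩,⟨false,0,⟨0,[(9,0),(11,0),(0,0)]⟩,
  ⟨4,[(0,2),(3,3),(2,5),(21,1),(3,5),(0,0)]⟩⟩,⟨true,0,⟨5,[(0,3),(1,2),(2,0),(14,2)]⟩,⟨0,[(8,0),(24,
  0)]⟩⟩,⟨false,0,⟨5,[(0,3),(1,2),(3,6),(2,2),(6,1),(14,5)]⟩,⟨4,[(7,7),(9,1),(11,1),(3,12),(1,0)]⟩⟩,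
  ⟨false,0,⟨0,[]⟩,⟨0,[]⟩⟩,⟨false,0,⟨0,[]⟩,⟨0,[]⟩⟩,[.e ⟨false,0,⟨0,[]⟩,⟨1,[(12,0),(0,0),(20,0)]⟩⟩
  ⟨false,0,⟨1,[(6,1),(2,0),(11,0),(0,0)]⟩,⟨6,[(0,3),(6,14),(8,0),(12,2),(3,14),(0,0)]⟩⟩,.a ⟨true,0,
  ⟨2,[(0,0),(5,0),(9,1),(14,2)]⟩,⟨0,[(17,0)]⟩⟩ ⟨true,0,⟨0,[(31,0)]⟩,⟨0,[(37,0)]⟩⟩ ⟨false,0,⟨0,[(6,
  0),(9,0),(14,0)]⟩,⟨9,[(0,4),(6,11),(9,7),(11,3),(0,0),(2,11),(0,1)]⟩⟩,.o ⟨false,1,⟨6,[(0,3),(6,7),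
  (8,0),(12,2),(3,7),(0,0)]⟩,⟨0,[(9,0),(9,0)]⟩⟩,.o ⟨false,1,⟨19,[(4,13),(14,5),(9,7),(4,2),(0,0),(1,
  1)]⟩,⟨1,[(9,0),(11,0),(0,0)]⟩⟩]⟩)) (.N [0,0,1] 0 ⟨0,[(0,0)]⟩ ⟨0,[(2,0)]⟩ .k))) (.I [0,1,-1,0,0,0,
  0,1] (.S ⟨1,0,[0,0,0,0,0,0,0,1],[0,0,1],[0,1,0,0,0,0,0,1],(⟨0,[(20,0)]⟩,⟨0,[(19,0)]⟩),⟨0,[(9,0)]⟩,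
  .k,.k,⟨true,0,⟨0,[(35,0)]⟩,⟨0,[]⟩⟩,⟨false,1,⟨1,[(10,0),(0,0),(21,0)]⟩,⟨0,[]⟩⟩,⟨false,0,⟨0,[(31,
  0)]⟩,⟨0,[(30,0),(2,0)]⟩⟩,⟨true,0,⟨0,[(31,0)]⟩,⟨0,[(30,0)]⟩⟩,[.a ⟨true,0,⟨0,[(5,0),(25,0)]⟩,⟨0,[(4,
  0)]⟩⟩ ⟨false,0,⟨0,[(0,0)]⟩,⟨1,[(3,1),(28,0),(0,0)]⟩⟩ ⟨true,0,⟨0,[(1,0)]⟩,⟨0,[(3,0)]⟩⟩,.o ⟨false,1,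
  ⟨4,[(5,3),(9,0),(11,0),(3,3),(1,2)]⟩,⟨0,[(16,0)]⟩⟩,.a ⟨true,0,⟨0,[(2,0)]⟩,⟨1,[(7,0),(11,0),(0,
  0)]⟩⟩ ⟨false,0,⟨0,[(1,0)]⟩,⟨1,[(3,1),(28,0),(0,0)]⟩⟩ ⟨true,0,⟨0,[(1,0)]⟩,⟨0,[(2,0),(13,0)]⟩⟩,.a
  ⟨true,0,⟨0,[(17,0)]⟩,⟨0,[(14,0)]⟩⟩ ⟨true,0,⟨0,[(0,0)]⟩,⟨0,[(3,0)]⟩⟩ ⟨false,1,⟨0,[(0,0),(32,0)]⟩,
  ⟨0,[(3,0)]⟩⟩]⟩) (.S ⟨1,0,[0,0,0,0,0,0,0,1],[0,0,1],[0,1,0,0,0,0,0,1],(⟨0,[(20,0)]⟩,⟨0,[(19,0)]⟩),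
  ⟨0,[(9,0)]⟩,.k,.k,⟨true,0,⟨0,[(35,0)]⟩,⟨0,[]⟩⟩,⟨false,1,⟨1,[(10,0),(0,0),(21,0)]⟩,⟨0,[]⟩⟩,⟨false,
  0,⟨0,[(31,0)]⟩,⟨0,[(30,0),(2,0)]⟩⟩,⟨true,0,⟨0,[(31,0)]⟩,⟨0,[(30,0)]⟩⟩,[.e ⟨true,0,⟨0,[(1,0),(33,
  0)]⟩,⟨0,[(0,0)]⟩⟩ ⟨true,0,⟨0,[(1,0)]⟩,⟨0,[(3,0)]⟩⟩,.o ⟨false,1,⟨4,[(5,3),(9,0),(11,0),(3,3),(1,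
  2)]⟩,⟨0,[(16,0)]⟩⟩,.a ⟨true,0,⟨0,[(2,0)]⟩,⟨1,[(7,0),(11,0),(0,0)]⟩⟩ ⟨false,0,⟨0,[(1,0)]⟩,⟨1,[(3,
  1),(28,0),(0,0)]⟩⟩ ⟨true,0,⟨0,[(1,0)]⟩,⟨0,[(0,0),(27,0)]⟩⟩,.e ⟨false,1,⟨1,[(6,1),(25,0),(0,0)]⟩,
  ⟨0,[(0,0)]⟩⟩ ⟨false,1,⟨1,[(1,1),(30,0),(0,0)]⟩,⟨0,[(3,0)]⟩⟩]⟩)))) (.Q [0,0,-1,-1,1,0,1,0,0,0,1]
  (.p true [0,0,1] [] (⟨0,[(17,0)]⟩,⟨0,[(16,0)]⟩) .k 0 (⟨0,[]⟩,⟨0,[]⟩) .k .k) (.Q [0,-1,-1,-1,1,0,1,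
  0,0,0,1] (.p true [0,0,1] [] (⟨0,[(18,0)]⟩,⟨0,[(17,0)]⟩) .k 0 (⟨0,[]⟩,⟨0,[]⟩) .k .k) (.R ⟨0,false,
  false,false,[1,0,-1],[1,-1],[0,1],(⟨0,[(18,0)]⟩,⟨0,[(19,0)]⟩),(⟨0,[(23,0)]⟩,⟨0,[(24,0)]⟩),⟨0,[(7,
  0)]⟩,.k,.k,.k,.k,.k,.k,⟨false,0,⟨0,[(30,0),(3,0)]⟩,⟨0,[(0,0),(1,0),(12,0),(12,0)]⟩⟩,⟨true,0,⟨0,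
  [(16,0)]⟩,⟨0,[(2,0),(12,0),(12,0)]⟩⟩,⟨false,0,⟨0,[(2,0),(30,0)]⟩,⟨0,[(0,0),(14,0),(12,0),(1,0)]⟩⟩,
  ⟨true,0,⟨0,[(4,0)]⟩,⟨0,[(15,0),(14,0)]⟩⟩,⟨false,0,⟨0,[]⟩,⟨0,[]⟩⟩,⟨false,0,⟨0,[]⟩,⟨0,[]⟩⟩,[.a
  ⟨true,0,⟨0,[(3,0),(0,0)]⟩,⟨0,[(30,0)]⟩⟩ ⟨true,0,⟨0,[(34,0)]⟩,⟨0,[(28,0)]⟩⟩ ⟨false,1,⟨0,[(1,0)]⟩,
  ⟨0,[(2,0),(12,0),(12,0),(1,0)]⟩⟩,.e ⟨false,1,⟨1,[(9,0),(0,0),(20,0)]⟩,⟨0,[]⟩⟩ ⟨false,1,⟨0,[(0,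
  0)]⟩,⟨2,[(2,0),(12,0),(1,1),(9,0),(2,2)]⟩⟩,.o ⟨false,0,⟨0,[(2,0),(12,0),(12,0)]⟩,⟨9,[(1,4),(7,0),
  (0,0),(5,4),(9,1),(3,4)]⟩⟩,.e ⟨false,1,⟨1,[(9,0),(0,0),(20,0)]⟩,⟨0,[(28,0)]⟩⟩ ⟨false,1,⟨0,[(0,
  0)]⟩,⟨0,[(17,0),(12,0)]⟩⟩]⟩) (.Q [0,0,1,0,-1,0,-1,0,0,1,-1] (.p false [0,0,1] [1] (⟨0,[(19,0)]⟩,
  ⟨0,[(18,0)]⟩) .k 1 (⟨0,[]⟩,⟨0,[]⟩) .k .k) (.Q [0,1,0,1,0,0,0,0,0,-1] (.pp true [-1,1]) (.I [1,0,1,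
  0,-1,0,0,1] (.R ⟨0,false,false,false,[1,0,-1],[1,-1],[],(⟨0,[(21,0)]⟩,⟨0,[(22,0)]⟩),(⟨0,[(26,0)]⟩,
  ⟨0,[(27,0)]⟩),⟨0,[(10,0)]⟩,.k,.k,.k,.k,.k,.k,⟨false,0,⟨0,[(33,0)]⟩,⟨9,[(4,5),(4,0),(6,3),(12,0),
  (2,3),(2,1)]⟩⟩,⟨true,0,⟨0,[(19,0)]⟩,⟨5,[(2,2),(6,0),(6,0),(12,0),(4,0)]⟩⟩,⟨false,0,⟨1,[(0,0),(4,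
  0),(29,0)]⟩,⟨9,[(4,4),(1,9),(5,0),(0,0),(5,4),(9,1),(3,4)]⟩⟩,⟨true,0,⟨0,[(7,0)]⟩,⟨0,[(18,0),(14,
  0)]⟩⟩,⟨false,0,⟨0,[]⟩,⟨0,[]⟩⟩,⟨false,0,⟨0,[]⟩,⟨0,[]⟩⟩,[.e ⟨false,1,⟨1,[(12,0),(0,0),(20,0)]⟩,⟨0,
  []⟩⟩ ⟨false,1,⟨0,[(4,0)]⟩,⟨9,[(3,3),(5,0),(6,3),(12,0),(3,5),(1,1)]⟩⟩,.o ⟨false,1,⟨0,[(32,0),(2,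
  0)]⟩,⟨0,[(1,0)]⟩⟩,.o ⟨false,0,⟨5,[(2,2),(6,0),(6,0),(12,0),(4,0)]⟩,⟨9,[(4,4),(7,0),(0,0),(5,4),(9,
  1),(3,4)]⟩⟩,.a ⟨true,(-1),⟨0,[(2,0)]⟩,⟨0,[(4,0),(28,0)]⟩⟩ ⟨false,1,⟨1,[(34,0),(0,0)]⟩,⟨1,[(19,0),
  (0,0)]⟩⟩ ⟨true,1,⟨0,[(4,0)]⟩,⟨0,[(3,0)]⟩⟩]⟩) (.Q [0,0,0,-1,1,0,1,0,0,-1,1] (.p true [0,0,1] [1]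
  (⟨0,[(22,0)]⟩,⟨0,[(21,0)]⟩) .k 1 (⟨0,[]⟩,⟨0,[]⟩) .k .k) (.R ⟨0,false,false,false,[-1,1,1],[0,1],
  [1,1,1],(⟨0,[(11,0)]⟩,⟨0,[(22,0),(4,0)]⟩),(⟨0,[(28,0)]⟩,⟨0,[(27,0)]⟩),⟨0,[(22,0)]⟩,.k,.k,.k,.k,.k,
  .k,⟨true,0,⟨0,[(33,0)]⟩,⟨0,[(32,0),(1,0)]⟩⟩,⟨false,0,⟨0,[(17,0)]⟩,⟨9,[(1,1),(3,2),(12,1),(1,4),(9,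
  1),(3,2),(1,0)]⟩⟩,⟨false,1,⟨0,[(0,0),(6,0)]⟩,⟨0,[(6,0),(25,0),(1,0)]⟩⟩,⟨true,0,⟨0,[(7,0)]⟩,⟨0,[(2,
  0),(5,0)]⟩⟩,⟨false,0,⟨0,[]⟩,⟨0,[]⟩⟩,⟨false,0,⟨0,[]⟩,⟨0,[]⟩⟩,[.a ⟨true,0,⟨0,[(34,0)]⟩,⟨0,[(7,0),(0,
  0)]⟩⟩ ⟨false,0,⟨0,[(38,0)]⟩,⟨1,[(35,0),(0,0)]⟩⟩ ⟨true,(-1),⟨0,[(3,0),(30,0)]⟩,⟨0,[(0,0)]⟩⟩,.o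
  ⟨false,1,⟨9,[(13,0),(0,0),(15,1),(3,9),(1,4)]⟩,⟨0,[(33,0)]⟩⟩,.o ⟨false,2,⟨4,[(1,1),(3,2),(12,1),
  (11,1),(3,2),(1,0)]⟩,⟨0,[(3,0)]⟩⟩,.e ⟨false,0,⟨0,[]⟩,⟨1,[(13,0),(0,0),(21,0)]⟩⟩ ⟨false,0,⟨1,[(3,
  0),(13,0),(16,1),(1,0)]⟩,⟨0,[(0,0)]⟩⟩]⟩) (.R ⟨0,false,false,false,[-1,1,1],[0,1],[1,1,1],(⟨0,[(11,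
  0)]⟩,⟨0,[(22,0),(4,0)]⟩),(⟨0,[(28,0)]⟩,⟨0,[(27,0)]⟩),⟨0,[(22,0)]⟩,.k,.k,.k,.k,.k,.k,⟨true,0,⟨0,
  [(33,0)]⟩,⟨0,[(32,0),(1,0)]⟩⟩,⟨false,0,⟨0,[(17,0)]⟩,⟨9,[(1,1),(3,2),(12,1),(1,4),(9,1),(3,2),(1,
  0)]⟩⟩,⟨false,1,⟨0,[(1,0),(30,0),(0,0)]⟩,⟨0,[(6,0),(25,0),(1,0)]⟩⟩,⟨true,0,⟨0,[(7,0)]⟩,⟨0,[(2,0),
  (5,0)]⟩⟩,⟨false,0,⟨0,[]⟩,⟨0,[]⟩⟩,⟨false,0,⟨0,[]⟩,⟨0,[]⟩⟩,[.e ⟨false,0,⟨0,[(38,0)]⟩,⟨1,[(35,0),(0,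
  0)]⟩⟩ ⟨false,(-1),⟨0,[(0,0)]⟩,⟨24,[(5,24),(7,13),(0,13),(15,4),(5,0),(1,1)]⟩⟩,.o ⟨false,1,⟨9,[(13,
  0),(0,0),(15,1),(3,9),(1,4)]⟩,⟨0,[(33,0)]⟩⟩,.o ⟨false,2,⟨4,[(1,1),(3,2),(12,1),(11,1),(3,2),(1,
  0)]⟩,⟨0,[(3,0)]⟩⟩,.a ⟨true,1,⟨9,[(1,1),(3,2),(12,1),(1,4),(9,1),(3,2),(1,0)]⟩,⟨0,[(0,0),(6,0),(0,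
  0)]⟩⟩ ⟨false,0,⟨0,[]⟩,⟨1,[(13,0),(0,0),(21,0)]⟩⟩ ⟨true,(-1),⟨0,[(0,0)]⟩,⟨19,[(1,4),(3,4),(7,1),(0,
  1),(3,4),(1,9),(9,3),(2,14)]⟩⟩]⟩))) (.R ⟨0,false,false,false,[1,0,-1],[1,-1],[1],(⟨0,[(20,0)]⟩,⟨0,
  [(21,0)]⟩),(⟨0,[(25,0)]⟩,⟨0,[(26,0)]⟩),⟨0,[(9,0)]⟩,.k,.k,.k,.k,.k,.k,⟨false,0,⟨0,[(32,0)]⟩,⟨9,[(0,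
  1),(2,5),(4,2),(19,0),(2,1),(1,1)]⟩⟩,⟨true,0,⟨0,[(18,0)]⟩,⟨5,[(1,2),(6,0),(6,0),(12,0),(4,0)]⟩⟩,
  ⟨false,0,⟨0,[(4,0),(25,0)]⟩,⟨9,[(3,4),(1,9),(5,0),(0,0),(5,4),(9,1),(3,4)]⟩⟩,⟨true,0,⟨0,[(6,0)]⟩,
  ⟨0,[(17,0),(14,0)]⟩⟩,⟨false,0,⟨0,[]⟩,⟨0,[]⟩⟩,⟨false,0,⟨0,[]⟩,⟨0,[]⟩⟩,[.a ⟨true,0,⟨2,[(0,1),(4,0),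
  (10,0),(14,0)]⟩,⟨0,[(32,0)]⟩⟩ ⟨true,0,⟨0,[]⟩,⟨1,[(18,0),(0,0)]⟩⟩ ⟨false,1,⟨0,[(3,0)]⟩,⟨9,[(2,3),
  (5,0),(6,3),(12,0),(3,5),(1,1)]⟩⟩,.a ⟨true,0,⟨0,[(0,0)]⟩,⟨0,[(32,0),(3,0)]⟩⟩ ⟨false,1,⟨1,[(33,0),
  (0,0)]⟩,⟨0,[(36,0)]⟩⟩ ⟨true,1,⟨11,[(0,4),(2,5),(14,5),(9,0),(2,0),(2,3)]⟩,⟨0,[(2,0)]⟩⟩,.o ⟨false,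
  0,⟨5,[(1,2),(6,0),(6,0),(12,0),(4,0)]⟩,⟨9,[(3,4),(7,0),(0,0),(5,4),(9,1),(3,4)]⟩⟩,.a ⟨true,(-1),
  ⟨0,[(1,0)]⟩,⟨0,[(3,0),(28,0)]⟩⟩ ⟨false,1,⟨1,[(33,0),(0,0)]⟩,⟨1,[(18,0),(0,0)]⟩⟩ ⟨true,1,⟨0,[(3,
  0)]⟩,⟨0,[(2,0)]⟩⟩]⟩)) (.R ⟨0,false,false,true,[1,0,-1],[1,-1],[1,0,0,0,0,0,0,-1],(⟨0,[(19,0)]⟩,⟨0,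
  [(20,0)]⟩),(⟨0,[(24,0)]⟩,⟨0,[(25,0)]⟩),⟨0,[(8,0)]⟩,.k,.k,.k,.k,.k,.k,⟨false,1,⟨0,[(0,0),(3,0),(24,
  0),(1,0)]⟩,⟨0,[(3,0),(26,0)]⟩⟩,⟨true,0,⟨0,[(17,0)]⟩,⟨0,[(3,0),(12,0),(12,0)]⟩⟩,⟨true,0,⟨0,[]⟩,⟨0,
  [(35,0)]⟩⟩,⟨false,0,⟨0,[(5,0)]⟩,⟨9,[(4,9),(5,0),(0,0),(15,1),(3,9),(1,4)]⟩⟩,⟨false,0,⟨0,[]⟩,⟨0,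
  []⟩⟩,⟨false,0,⟨0,[]⟩,⟨0,[]⟩⟩,[.o ⟨false,0,⟨0,[(30,0)]⟩,⟨9,[(10,0),(0,0),(15,1),(3,9),(1,4)]⟩⟩,.a
  ⟨true,0,⟨0,[(4,0),(0,0)]⟩,⟨0,[(31,0)]⟩⟩ ⟨true,1,⟨0,[(0,0),(3,0),(24,0)]⟩,⟨0,[(1,0),(3,0)]⟩⟩
  ⟨false,1,⟨0,[(2,0)]⟩,⟨9,[(1,3),(5,0),(6,3),(12,0),(3,5),(1,1)]⟩⟩,.o ⟨false,0,⟨0,[(3,0),(12,0),(12,
  0)]⟩,⟨20,[(0,10),(9,5),(0,5),(5,9),(9,1),(6,0)]⟩⟩,.o ⟨false,0,⟨0,[(18,0)]⟩,⟨0,[(0,0)]⟩⟩]⟩))) (.Q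
  [0,1,0,1,0,0,0,0,0,-1] (.pp true [-1,1]) (.R ⟨0,false,false,false,[1,0,-1],[1,-1],[],(⟨0,[(18,
  0)]⟩,⟨0,[(19,0)]⟩),(⟨0,[(23,0)]⟩,⟨0,[(24,0)]⟩),⟨0,[(7,0)]⟩,.k,.k,.k,.k,.k,.k,⟨false,0,⟨0,[(30,
  0)]⟩,⟨1,[(29,1),(1,0),(0,0)]⟩⟩,⟨true,0,⟨0,[(16,0)]⟩,⟨7,[(1,1),(4,0),(6,3),(12,0),(1,1),(0,1)]⟩⟩,
  ⟨false,0,⟨1,[(1,0),(0,0),(1,0),(27,0)]⟩,⟨9,[(3,9),(5,0),(0,0),(5,9),(9,1),(4,4)]⟩⟩,⟨true,0,⟨0,[(4,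
  0)]⟩,⟨0,[(15,0),(14,0)]⟩⟩,⟨false,0,⟨0,[]⟩,⟨0,[]⟩⟩,⟨false,0,⟨0,[]⟩,⟨0,[]⟩⟩,[.a ⟨true,0,⟨0,[(3,0),
  (0,0)]⟩,⟨0,[(30,0)]⟩⟩ ⟨false,1,⟨1,[(9,0),(0,0),(20,0)]⟩,⟨0,[]⟩⟩ ⟨true,1,⟨1,[(16,1),(12,1),(1,0),
  (0,0)]⟩,⟨0,[(1,0)]⟩⟩,.o ⟨false,1,⟨0,[(29,0),(2,0)]⟩,⟨0,[(0,0)]⟩⟩,.o ⟨false,0,⟨7,[(1,1),(4,0),(6,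
  3),(12,0),(1,1),(0,1)]⟩,⟨9,[(9,0),(0,0),(5,9),(9,1),(4,4)]⟩⟩,.e ⟨false,1,⟨1,[(31,0),(0,0)]⟩,⟨1,
  [(16,0),(0,0)]⟩⟩ ⟨false,2,⟨0,[(16,0),(12,0),(1,0),(0,0)]⟩,⟨0,[(1,0)]⟩⟩]⟩) (.R ⟨0,false,false,
  false,[1,0,-1],[1,-1],[1],(⟨0,[(18,0)]⟩,⟨0,[(19,0)]⟩),(⟨0,[(23,0)]⟩,⟨0,[(24,0)]⟩),⟨0,[(7,0)]⟩,.k,
  .k,.k,.k,.k,.k,⟨false,0,⟨0,[(30,0)]⟩,⟨1,[(29,1),(1,0),(0,0)]⟩⟩,⟨true,0,⟨0,[(16,0)]⟩,⟨7,[(0,0),(0,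
  1),(4,1),(6,1),(12,0),(2,0)]⟩⟩,⟨false,0,⟨1,[(1,0),(0,0),(1,0),(27,0)]⟩,⟨9,[(3,9),(5,0),(0,0),(5,
  9),(9,1),(4,4)]⟩⟩,⟨true,0,⟨0,[(4,0)]⟩,⟨0,[(15,0),(14,0)]⟩⟩,⟨false,0,⟨0,[]⟩,⟨0,[]⟩⟩,⟨false,0,⟨0,
  []⟩,⟨0,[]⟩⟩,[.e ⟨true,0,⟨0,[]⟩,⟨1,[(16,0),(0,0)]⟩⟩ ⟨true,1,⟨1,[(16,1),(12,1),(1,0),(0,0)]⟩,⟨0,[(1,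
  0)]⟩⟩,.a ⟨true,0,⟨0,[(0,0)]⟩,⟨0,[(30,0),(3,0)]⟩⟩ ⟨false,1,⟨1,[(31,0),(0,0)]⟩,⟨0,[(34,0)]⟩⟩ ⟨true,
  1,⟨5,[(0,4),(15,5),(9,0),(2,0),(1,2),(0,0)]⟩,⟨0,[(1,0),(32,0)]⟩⟩,.o ⟨false,0,⟨7,[(0,0),(0,1),(4,
  1),(6,1),(12,0),(2,0)]⟩,⟨9,[(9,0),(0,0),(5,9),(9,1),(4,4)]⟩⟩,.e ⟨false,1,⟨1,[(31,0),(0,0)]⟩,⟨1,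
  [(16,0),(0,0)]⟩⟩ ⟨false,2,⟨0,[(16,0),(12,0),(1,0),(0,0)]⟩,⟨0,[(1,0)]⟩⟩]⟩)))))

theorem ok3 : chk K t3 r1 = true := by decide +kernel

noncomputable def t5 : Tre :=
  (.Q [0,0,-1,0,1,0,1,0,0,-2,1] (.p true [-1,1,1] [1] (⟨0,[(2,0)]⟩,⟨0,[(13,0),(4,0)]⟩) .k 1 (⟨0,[]⟩,
  ⟨0,[]⟩) .k .k) (.Q [0,0,0,0,0,0,-1,-1,0,0,-1] (.p false [0,0,1] [] (⟨0,[(15,0)]⟩,⟨0,[(14,0)]⟩) .k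
  0 (⟨0,[]⟩,⟨0,[]⟩) .k .k) (.R ⟨0,false,false,true,[-1,1,1],[0,0,1],[0,1,1,0,0,0,0,1],(⟨0,[(4,0)]⟩,
  ⟨0,[(15,0),(4,0)]⟩),(⟨0,[(16,0)]⟩,⟨0,[(15,0)]⟩),⟨0,[(15,0)]⟩,.k,.k,.k,.k,.k,.k,⟨true,0,⟨1,[(13,0),
  (0,0)]⟩,⟨0,[]⟩⟩,⟨false,0,⟨0,[(15,0),(0,0)]⟩,⟨9,[(6,0),(0,0),(15,1),(4,4)]⟩⟩,⟨true,0,⟨0,[(26,0)]⟩,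
  ⟨0,[(27,0)]⟩⟩,⟨false,0,⟨0,[(2,0),(7,0),(0,0),(13,0),(0,0)]⟩,⟨9,[(6,0),(0,0),(15,1),(3,9),(1,4)]⟩⟩,
  ⟨false,0,⟨0,[]⟩,⟨0,[]⟩⟩,⟨false,0,⟨0,[]⟩,⟨0,[]⟩⟩,[.a ⟨true,0,⟨0,[(11,0)]⟩,⟨1,[(2,1),(0,0),(11,0),
  (0,0)]⟩⟩ ⟨true,0,⟨0,[(11,0),(2,0)]⟩,⟨0,[(2,0)]⟩⟩ ⟨false,0,⟨1,[(3,0),(7,1),(3,0),(0,0)]⟩,⟨6,[(1,0),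
  (0,5),(9,0),(10,0),(4,2),(0,0)]⟩⟩,.o ⟨false,1,⟨9,[(6,0),(0,0),(3,9),(11,1),(5,4)]⟩,⟨0,[(0,0)]⟩⟩,
  .o ⟨false,1,⟨0,[(1,0)]⟩,⟨0,[(3,0),(9,0)]⟩⟩,.o ⟨false,1,⟨49,[(1,24),(4,2),(0,2),(5,24),(9,9),(5,1),
  (1,3)]⟩,⟨1,[(3,0),(11,0),(0,0)]⟩⟩]⟩) (.I [0,1,-1,-1,0,0,0,-1] (.R ⟨0,false,false,true,[-1,1,1],[0,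
  0,1],[0,1],(⟨0,[(5,0)]⟩,⟨0,[(16,0),(4,0)]⟩),(⟨0,[(17,0)]⟩,⟨0,[(16,0)]⟩),⟨0,[(16,0)]⟩,.k,.k,.k,.k,
  .k,.k,⟨true,0,⟨3,[(3,2),(9,0),(0,0),(10,0)]⟩,⟨0,[(1,0),(13,0)]⟩⟩,⟨false,0,⟨0,[(16,0),(0,0)]⟩,⟨9,
  [(7,0),(0,0),(15,1),(4,4)]⟩⟩,⟨true,0,⟨0,[(0,0)]⟩,⟨0,[(1,0),(13,0),(12,0)]⟩⟩,⟨false,0,⟨1,[(1,0),(1,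
  0),(7,0),(4,0),(0,0),(8,0),(0,1)]⟩,⟨9,[(7,0),(0,0),(15,1),(3,9),(1,4)]⟩⟩,⟨false,0,⟨0,[]⟩,⟨0,[]⟩⟩,
  ⟨false,0,⟨0,[]⟩,⟨0,[]⟩⟩,[.a ⟨true,0,⟨0,[(12,0)]⟩,⟨1,[(3,1),(0,0),(11,0),(0,0)]⟩⟩ ⟨true,0,⟨0,[(32,
  0)]⟩,⟨0,[(26,0)]⟩⟩ ⟨false,0,⟨1,[(4,0),(7,1),(3,0),(0,0)]⟩,⟨6,[(2,0),(0,5),(9,0),(10,0),(4,2),(0,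
  0)]⟩⟩,.e ⟨false,1,⟨1,[(7,0),(0,0),(20,0)]⟩,⟨0,[]⟩⟩ ⟨false,0,⟨1,[(1,1),(2,0),(11,0),(0,0)]⟩,⟨5,[(2,
  2),(0,1),(9,3),(0,0),(14,1),(0,0)]⟩⟩,.o ⟨false,1,⟨0,[(2,0)]⟩,⟨0,[(4,0),(9,0)]⟩⟩,.o ⟨false,1,⟨49,
  [(2,24),(4,2),(0,2),(5,24),(9,9),(5,1),(1,3)]⟩,⟨1,[(4,0),(11,0),(0,0)]⟩⟩]⟩) (.R ⟨0,false,false,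
  false,[-1,1,1],[1,0,-1],[1,0,1],(⟨0,[(5,0)]⟩,⟨0,[(16,0),(4,0)]⟩),(⟨0,[(16,0)]⟩,⟨0,[(17,0)]⟩),⟨0,
  [(16,0)]⟩,.k,.k,.k,(.x (-1) ⟨1,[(1,0),(0,1),(0,1),(8,0),(3,3),(1,1),(13,0)]⟩ ⟨1,[(4,0),(0,0),(9,
  1),(1,2),(4,0)]⟩),.k,.k,⟨true,0,⟨0,[(0,0),(26,0)]⟩,⟨3,[(3,2),(9,0),(0,0),(10,0)]⟩⟩,⟨false,0,⟨0,
  [(4,0),(11,0),(0,0)]⟩,⟨0,[(2,0),(0,0),(8,0)]⟩⟩,⟨true,0,⟨0,[(3,0),(23,0)]⟩,⟨0,[(0,0),(24,0)]⟩⟩,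
  ⟨false,0,⟨0,[(3,1),(0,0),(11,0),(0,0),(9,0)]⟩,⟨0,[(0,0),(1,0),(9,0)]⟩⟩,⟨false,0,⟨0,[]⟩,⟨0,[]⟩⟩,
  ⟨false,0,⟨0,[]⟩,⟨0,[]⟩⟩,[.e ⟨false,0,⟨0,[]⟩,⟨1,[(7,0),(0,0),(20,0)]⟩⟩ ⟨false,0,⟨3,[(3,1),(0,2),(8,
  1),(2,4),(0,4)]⟩,⟨0,[(1,0),(0,0)]⟩⟩,.a ⟨true,0,⟨1,[(3,1),(0,0),(11,0),(0,0)]⟩,⟨0,[(12,0)]⟩⟩ ⟨true,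
  0,⟨0,[(26,0)]⟩,⟨0,[(32,0)]⟩⟩ ⟨false,0,⟨0,[(3,0),(0,0),(11,0),(0,0)]⟩,⟨0,[(2,0),(9,0)]⟩⟩,.o ⟨false,
  1,⟨0,[(2,0)]⟩,⟨0,[(4,0),(9,0)]⟩⟩,.o ⟨false,1,⟨49,[(2,24),(4,2),(0,2),(5,24),(9,9),(5,1),(1,3)]⟩,
  ⟨1,[(4,0),(11,0),(0,0)]⟩⟩]⟩))) (.I [1,1,1,0,-1,0,0,-1] (.S ⟨1,0,[0,1,0,0,0,0,0,1],[0,0,1],[0,0,0,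
  0,0,0,0,1],(⟨0,[(16,0)]⟩,⟨0,[(15,0)]⟩),⟨0,[(5,0)]⟩,.k,.k,⟨false,1,⟨1,[(6,0),(0,0),(21,0)]⟩,⟨0,
  []⟩⟩,⟨true,0,⟨0,[(31,0)]⟩,⟨0,[]⟩⟩,⟨true,0,⟨0,[(27,0)]⟩,⟨0,[(26,0)]⟩⟩,⟨false,0,⟨0,[(27,0)]⟩,⟨0,
  [(26,0),(2,0)]⟩⟩,[.e ⟨false,1,⟨5,[(3,0),(6,3),(0,5),(11,0),(4,0),(0,2)]⟩,⟨3,[(2,2),(9,0),(0,0),
  (10,0)]⟩⟩ ⟨false,1,⟨9,[(3,4),(2,2),(0,2),(3,9),(11,0),(4,4)]⟩,⟨0,[(2,0)]⟩⟩,.o ⟨false,1,⟨9,[(6,0),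
  (0,0),(3,9),(11,1),(5,4)]⟩,⟨11,[(0,1),(1,5),(0,2),(6,1),(1,3),(10,0)]⟩⟩,.e ⟨false,1,⟨5,[(3,0),(6,
  3),(0,5),(11,0),(1,3),(3,3)]⟩,⟨3,[(2,2),(9,0),(0,0),(10,0)]⟩⟩ ⟨false,1,⟨9,[(3,4),(2,2),(0,2),(3,
  9),(11,0),(5,4)]⟩,⟨0,[(2,0)]⟩⟩,.a ⟨true,0,⟨0,[(13,0)]⟩,⟨0,[(10,0)]⟩⟩ ⟨true,1,⟨5,[(3,0),(6,3),(0,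
  5),(11,0),(4,0),(0,2)]⟩,⟨0,[(0,0)]⟩⟩ ⟨false,1,⟨5,[(3,0),(6,3),(0,5),(11,0),(4,0),(0,2)]⟩,⟨0,[(0,
  0),(28,0)]⟩⟩]⟩) (.I [0,0,1,0,0,0,0,1] (.R ⟨0,false,false,true,[-1,1,1],[0,0,1],[0,1,1,0,0,0,0,1],
  (⟨0,[(5,0)]⟩,⟨0,[(16,0),(4,0)]⟩),(⟨0,[(17,0)]⟩,⟨0,[(16,0)]⟩),⟨0,[(16,0)]⟩,.k,.k,.k,.k,.k,.k,⟨true,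
  0,⟨1,[(14,0),(0,0)]⟩,⟨0,[]⟩⟩,⟨false,0,⟨1,[(2,0),(11,0),(14,0)]⟩,⟨9,[(7,0),(0,0),(15,1),(4,4)]⟩⟩,
  ⟨true,0,⟨0,[(27,0)]⟩,⟨0,[(28,0)]⟩⟩,⟨false,0,⟨1,[(1,0),(0,0),(0,1),(8,0),(14,1)]⟩,⟨9,[(7,0),(0,0),
  (15,1),(3,9),(1,4)]⟩⟩,⟨false,0,⟨0,[]⟩,⟨0,[]⟩⟩,⟨false,0,⟨0,[]⟩,⟨0,[]⟩⟩,[.a ⟨true,0,⟨0,[(12,0)]⟩,⟨2,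
  [(2,0),(0,1),(7,0),(1,0),(16,0)]⟩⟩ ⟨true,0,⟨0,[(12,0),(2,0)]⟩,⟨0,[(3,0)]⟩⟩ ⟨false,0,⟨5,[(2,1),(1,
  1),(2,0),(0,0),(3,5),(16,0)]⟩,⟨14,[(3,13),(9,0),(0,0),(9,2),(4,7),(0,0)]⟩⟩,.o ⟨false,1,⟨9,[(7,0),
  (0,0),(3,9),(11,1),(5,4)]⟩,⟨3,[(2,1),(0,2),(7,0),(1,0),(10,0),(0,0)]⟩⟩,.e ⟨false,0,⟨0,[(0,0)]⟩,⟨2,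
  [(3,1),(9,0),(0,0),(14,1),(0,0)]⟩⟩ ⟨false,0,⟨3,[(0,1),(1,1),(4,0),(0,0),(3,1),(17,0)]⟩,⟨14,[(3,
  13),(9,0),(0,0),(9,2),(4,7),(0,0)]⟩⟩,.o ⟨false,1,⟨4,[(3,2),(8,2),(1,1),(9,1),(4,0)]⟩,⟨5,[(2,1),(1,
  1),(2,0),(0,0),(20,0)]⟩⟩]⟩) (.Q [0,0,-1,0,1,0,2,0,0,-2,2] (.p true [0,0,1] [2,-1,-1] (⟨0,[(17,
  0)]⟩,⟨0,[(16,0)]⟩) .k 2 (⟨0,[(16,0),(4,0)]⟩,⟨0,[(5,0)]⟩) .k (.r (-1) ⟨0,[(1,0),(10,0),(2,0)]⟩ ⟨2,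
  [(0,1),(2,1),(9,1),(0,1)]⟩)) (.K ⟨0,[2,-1,-1],(-1),(-1),(⟨0,[(17,0),(4,0)]⟩,⟨0,[(6,0)]⟩),.k,(.r
  (-1) ⟨0,[(1,0),(0,0),(1,0),(23,1)]⟩ ⟨0,[(13,0),(2,0),(10,0),(1,1)]⟩),.k,(.r 0 ⟨0,[(1,0),(2,0),(23,
  0)]⟩ ⟨1,[(2,0),(10,2),(2,2),(12,1),(1,0)]⟩),.k,[⟨0,[(0,0)]⟩,⟨1,[(3,1),(11,0),(0,0)]⟩,⟨4,[(8,0),(0,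
  0),(3,4),(11,1),(3,4)]⟩,⟨0,[(1,0),(1,0),(24,0)]⟩]⟩) (.Q [0,1,0,1,1,0,2,2,0,-2,2] (.p true [0,0,1]
  [2,-1,-1] (⟨0,[(18,0)]⟩,⟨0,[(17,0)]⟩) .k 2 (⟨0,[(17,0),(4,0)]⟩,⟨0,[(6,0)]⟩) .k (.r (-1) ⟨0,[(2,0),
  (10,0),(2,0)]⟩ ⟨2,[(1,1),(2,1),(9,1),(0,1)]⟩)) (.R ⟨1,true,false,false,[0,0,1],[2,-1,-1],[0,0,0,0,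
  0,0,0,1],(⟨0,[(19,0)]⟩,⟨0,[(18,0)]⟩),(⟨0,[(18,0),(4,0)]⟩,⟨0,[(7,0)]⟩),⟨0,[(8,0)]⟩,.k,.k,.k,(.r
  (-1) ⟨3,[(0,3),(3,2),(1,1),(2,0),(0,0),(6,0),(14,1)]⟩ ⟨0,[(2,0),(2,0),(23,0)]⟩),.k,.k,⟨false,1,⟨6,
  [(0,5),(2,1),(0,3),(1,3),(23,0),(0,0),(0,1)]⟩,⟨0,[(2,0),(2,0),(23,0)]⟩⟩,⟨true,(-1),⟨0,[(1,0)]⟩,⟨0,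
  [(0,0),(4,1),(23,0)]⟩⟩,⟨false,1,⟨1,[(9,0),(0,0),(21,0)]⟩,⟨0,[]⟩⟩,⟨true,(-1),⟨0,[(1,0),(0,0),(2,0),
  (23,0)]⟩,⟨0,[(0,0)]⟩⟩,⟨true,0,⟨0,[(30,0)]⟩,⟨0,[(29,0)]⟩⟩,⟨false,(-1),⟨0,[(1,0),(0,0),(2,0)]⟩,⟨0,
  [(0,0),(28,0),(2,0)]⟩⟩,[]⟩) (.I [0,0,1,2,0,0,0,1] (.Q [0,-1,0,0,1,0,1,1,0,-1,1] (.p true [0,0,1]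
  [1] (⟨0,[(20,0)]⟩,⟨0,[(19,0)]⟩) .k 1 (⟨0,[]⟩,⟨0,[]⟩) .k .k) (.R ⟨0,false,false,true,[-1,1,1],[1,0,
  -1],[0,1,1,0,0,0,0,1],(⟨0,[(9,0)]⟩,⟨0,[(20,0),(4,0)]⟩),(⟨0,[(20,0)]⟩,⟨0,[(21,0)]⟩),⟨0,[(20,0)]⟩,
  .k,.k,.k,(.r (-1) ⟨3,[(1,1),(3,1),(5,0),(0,0),(3,3),(2,3),(14,0)]⟩ ⟨0,[(4,0),(2,0),(23,0)]⟩),.k,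
  .k,⟨false,1,⟨0,[(5,0),(10,0),(2,0)]⟩,⟨2,[(4,3),(2,0),(9,0),(0,0)]⟩⟩,⟨true,(-1),⟨0,[(3,0)]⟩,⟨2,[(0,
  0),(3,1),(2,1),(8,2),(1,1),(9,0)]⟩⟩,⟨true,0,⟨0,[(31,0)]⟩,⟨1,[(1,0),(2,0)]⟩⟩,⟨false,(-1),⟨7,[(2,6),
  (3,0),(10,1),(0,0),(10,1),(1,0)]⟩,⟨13,[(0,17),(0,6),(2,0),(11,3),(1,5),(9,1),(4,5)]⟩⟩,⟨false,0,⟨0,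
  []⟩,⟨0,[]⟩⟩,⟨false,0,⟨0,[]⟩,⟨0,[]⟩⟩,[.o ⟨false,0,⟨0,[(17,0)]⟩,⟨0,[(0,0)]⟩⟩,.o ⟨false,0,⟨33,[(1,4),
  (0,9),(1,4),(12,13),(10,3),(5,1)]⟩,⟨20,[(0,10),(10,5),(0,5),(3,9),(11,1),(7,0)]⟩⟩,.a ⟨true,1,⟨6,
  [(0,1),(3,3),(11,1),(1,2),(9,0),(4,2)]⟩,⟨0,[(6,0)]⟩⟩ ⟨true,0,⟨0,[(16,0),(2,0)]⟩,⟨0,[(4,0)]⟩⟩
  ⟨false,(-1),⟨4,[(1,0),(0,1),(3,2),(10,1),(1,0)]⟩,⟨6,[(0,8),(3,3),(11,1),(1,2),(9,0),(4,2)]⟩⟩,.o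
  ⟨false,1,⟨5,[(0,1),(3,2),(11,0),(1,2),(9,1),(7,0)]⟩,⟨5,[(6,1),(1,1),(2,0),(0,0),(20,0)]⟩⟩]⟩) (.Q
  [0,-1,0,1,0,0,-1,-1,0,0,-1] (.p false [0,0,1] [] (⟨0,[(21,0)]⟩,⟨0,[(20,0)]⟩) .k 0 (⟨0,[]⟩,⟨0,[]⟩)
  .k .k) (.R ⟨1,false,false,true,[2,-1,-1],[0,-1,1],[1,1,-1,-2,0,0,0,-1],(⟨0,[(21,0),(4,0)]⟩,⟨0,
  [(10,0)]⟩),(⟨0,[(11,0)]⟩,⟨0,[(21,0),(5,0)]⟩),⟨1,[(4,0),(1,0),(1,2),(8,1),(3,1),(1,3),(13,1)]⟩,.k,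
  .k,(.r (-1) ⟨0,[(5,0),(0,0),(1,0),(23,1)]⟩ ⟨1,[(2,1),(16,0),(0,0)]⟩),.k,(.r 0 ⟨0,[(5,0),(2,0),(23,
  0)]⟩ ⟨3,[(2,1),(3,1),(5,0),(0,0),(3,3),(2,3),(14,0)]⟩),.k,⟨false,0,⟨0,[(5,0),(2,0),(23,0)]⟩,⟨19,
  [(2,9),(3,14),(2,4),(2,2),(0,2),(3,14),(2,4),(8,0)]⟩⟩,⟨true,1,⟨4,[(5,1),(2,5),(8,7),(1,1),(9,1),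
  (5,0)]⟩,⟨0,[(4,0)]⟩⟩,⟨true,0,⟨0,[(32,0)]⟩,⟨0,[(33,0)]⟩⟩,⟨false,2,⟨4,[(12,0),(0,0),(3,9),(11,1),(5,
  4)]⟩,⟨1,[(0,0),(2,0),(1,0),(1,0)]⟩⟩,⟨false,0,⟨0,[]⟩,⟨1,[(12,0),(0,0),(21,0)]⟩⟩,⟨false,2,⟨9,[(2,4),
  (2,0),(11,15),(1,3),(9,3),(4,3),(0,7)]⟩,⟨0,[(3,0)]⟩⟩,[.o ⟨false,1,⟨9,[(12,0),(0,0),(3,9),(11,1),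
  (2,9),(2,4)]⟩,⟨0,[(0,0)]⟩⟩,.o ⟨false,1,⟨2,[(3,0),(2,1),(1,1),(8,4),(11,0),(1,1),(0,1)]⟩,⟨3,[(0,1),
  (1,0),(2,0),(12,1)]⟩⟩,.a ⟨true,(-1),⟨0,[(7,0)]⟩,⟨4,[(5,3),(11,3),(1,0),(9,0),(4,0),(0,1)]⟩⟩ ⟨true,
  0,⟨2,[(3,4),(1,1),(0,0),(1,1),(8,9),(11,1),(2,0)]⟩,⟨0,[(2,0)]⟩⟩ ⟨false,2,⟨4,[(5,1),(0,2),(1,5),(8,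
  9),(11,1),(2,4),(2,2)]⟩,⟨0,[(0,0),(6,0)]⟩⟩,.e ⟨false,1,⟨0,[(5,0),(0,0),(1,0),(23,1)]⟩,⟨0,[(2,0),
  (28,0)]⟩⟩ ⟨false,2,⟨2,[(3,1),(1,1),(0,3),(1,4),(8,9),(11,1),(2,0)]⟩,⟨1,[(0,1),(6,1),(11,0),(0,
  0)]⟩⟩]⟩) (.R ⟨0,false,false,true,[1,0,-1],[1,-1],[],(⟨0,[(21,0)]⟩,⟨0,[(22,0)]⟩),(⟨0,[(26,0)]⟩,⟨0,
  [(27,0)]⟩),⟨0,[(10,0)]⟩,.k,.k,.k,.k,.k,.k,⟨true,0,⟨1,[(2,0),(5,0),(22,0)]⟩,⟨0,[(32,0)]⟩⟩,⟨false,0,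
  ⟨0,[(8,0),(8,0)]⟩,⟨9,[(9,4),(2,2),(0,2),(15,0),(4,4)]⟩⟩,⟨false,1,⟨11,[(0,3),(1,1),(3,5),(5,0),(0,
  0),(6,3),(14,4)]⟩,⟨2,[(5,0),(2,0),(9,0),(0,0)]⟩⟩,⟨true,0,⟨0,[(0,0)]⟩,⟨16,[(2,10),(0,4),(1,10),(12,
  6),(10,1),(5,0)]⟩⟩,⟨false,0,⟨0,[]⟩,⟨0,[]⟩⟩,⟨false,0,⟨0,[]⟩,⟨0,[]⟩⟩,[.o ⟨false,0,⟨0,[(32,0)]⟩,⟨29,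
  [(2,14),(2,12),(12,1),(0,1),(9,5),(4,1),(0,15)]⟩⟩,.a ⟨true,0,⟨5,[(0,3),(2,1),(3,0),(4,0),(0,0),(5,
  0),(14,0),(0,0)]⟩,⟨0,[(33,0)]⟩⟩ ⟨false,1,⟨1,[(34,0),(0,0)]⟩,⟨0,[(37,0)]⟩⟩ ⟨true,0,⟨0,[(0,0),(7,
  0)]⟩,⟨28,[(2,16),(0,4),(14,6),(1,11),(8,1),(5,0)]⟩⟩,.e ⟨false,1,⟨1,[(12,0),(0,0),(21,0)]⟩,⟨0,[]⟩⟩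
  ⟨false,0,⟨0,[(0,0),(7,0)]⟩,⟨25,[(2,13),(0,1),(5,5),(8,9),(10,1),(4,6),(0,16)]⟩⟩,.o ⟨false,0,⟨0,
  [(20,0)]⟩,⟨4,[(5,3),(11,3),(1,0),(9,0),(4,0),(0,1)]⟩⟩]⟩))) (.R ⟨0,false,false,false,[-1,1,1],[1,0,
  -1],[1,0,1,1,0,0,0,1],(⟨0,[(8,0)]⟩,⟨0,[(19,0),(4,0)]⟩),(⟨0,[(19,0)]⟩,⟨0,[(20,0)]⟩),⟨0,[(19,0)]⟩,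
  .k,.k,.k,(.r (-1) ⟨1,[(4,0),(10,2),(2,2),(12,1),(1,0)]⟩ ⟨5,[(0,2),(2,4),(2,1),(9,1),(0,1)]⟩),.k,
  .k,⟨false,1,⟨0,[(4,0),(10,0),(2,0),(12,0)]⟩,⟨5,[(0,2),(2,4),(2,1),(9,1),(0,1)]⟩⟩,⟨true,(-1),⟨0,
  [(2,0)]⟩,⟨4,[(3,1),(2,5),(8,7),(1,1),(9,1),(5,0)]⟩⟩,⟨true,0,⟨0,[]⟩,⟨0,[(35,0)]⟩⟩,⟨false,(-1),⟨0,
  [(1,0)]⟩,⟨4,[(10,0),(0,0),(3,9),(11,1),(3,4),(1,4)]⟩⟩,⟨false,0,⟨0,[]⟩,⟨0,[]⟩⟩,⟨false,0,⟨0,[]⟩,⟨0,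
  []⟩⟩,[.o ⟨false,0,⟨16,[(1,4),(14,6),(10,1),(3,4),(1,0)]⟩,⟨9,[(10,0),(0,0),(3,9),(11,1),(5,4)]⟩⟩,
  .a ⟨true,0,⟨3,[(1,0),(1,0),(1,0),(10,0),(14,0),(1,1)]⟩,⟨0,[(15,0)]⟩⟩ ⟨false,1,⟨1,[(4,0),(10,0),(2,
  0),(12,1),(1,0)]⟩,⟨9,[(0,4),(2,2),(12,1),(0,1),(10,3)]⟩⟩ ⟨true,(-1),⟨1,[(1,0),(0,0),(26,0),(1,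
  0)]⟩,⟨4,[(3,1),(2,0),(8,7),(1,1),(9,1),(5,0)]⟩⟩,.e ⟨false,1,⟨0,[(15,0),(2,0),(12,0),(1,0)]⟩,⟨0,
  [(0,0),(30,0)]⟩⟩ ⟨false,(-1),⟨1,[(1,0),(0,0),(26,0),(1,0)]⟩,⟨4,[(3,2),(11,7),(1,1),(9,1),(4,1),(0,
  3)]⟩⟩,.o ⟨false,1,⟨4,[(3,1),(2,0),(8,2),(1,1),(9,1),(5,0)]⟩,⟨5,[(5,1),(1,1),(2,0),(0,0),(20,
  0)]⟩⟩]⟩)))))))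

theorem ok5 : chk K t5 r0 = true := by decide +kernel

noncomputable def t2 : Tre :=
  .Q [0,1,0,-1,0,0,1,1,0,0,1] (.p true [0,0,1] [] (⟨0,[(15,0)]⟩,⟨0,[(14,0)]⟩) .k 0 (⟨0,[]⟩,⟨0,[]⟩)
  .k .k) t0 t1

theorem ok2 : chk K t2 l1 = true :=
  chk_Q (e' := [0,-1,0,1,0,0,-1,-1,0,0,-1]) (by decide +kernel) (by decide +kernel) ok0 ok1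

noncomputable def t4 : Tre :=
  .Q [0,0,0,1,0,0,-1,-1,0,0,-1] (.p false [0,0,1] [] (⟨0,[(14,0)]⟩,⟨0,[(13,0)]⟩) .k 0 (⟨0,[]⟩,⟨0,
  []⟩) .k .k) t2 t3

theorem ok4 : chk K t4 l0 = true :=
  chk_Q (e' := [0,0,0,-1,0,0,1,1,0,0,1]) (by decide +kernel) (by decide +kernel) ok2 ok3

noncomputable def t6 : Tre :=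
  .I [1,1,0,0,0,0,0,1] t4 t5

theorem ok6 : chk K t6 base = true :=
  chk_I (e' := [0,-1,0,0,0,0,0,-1]) (by decide +kernel) (by decide +kernel) ok4 ok5

theorem closed {p a b c J l q : ℤ} {D dl : ℝ} {Cl : ℤ → ℤ → ℤ → ℤ → ℝ → Prop}
    (W : World p a b c J 1 l q D dl Cl) (g : G0 p a b c J D)
    {N X R : ℤ} {I : ℝ} (hk : KCl p l Cl N X R I) (kz : KF a b D (X + (1 : ℤ) * I) (X + (1 : ℤ) * I + R) I)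
    {Ne Xe : ℤ} {Ie : ℝ} (he : EFac p 1 D Cl 1 Ne Xe Ie)
    (hkf : ∀ kf ∈ (kfY 1 [0,0,0,0,0,0,1,0,0,0,1]), KOk p l Cl 1
      (xv [1, a, b, c, p, J, X, R, Xe] [D, I, Ie]) N kf)
    (h0 : 1 ≤ (c : ℝ))
    (h1 : 1 ≤ 1 - (a : ℝ) + (b : ℝ))
    (h2 : 1 ≤ 2 * (a : ℝ) - (b : ℝ))
    (h3 : 0 < 1 + 2 * (p : ℝ) - 5 * D)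
    (h4 : 1 ≤ 2 * (a : ℝ) - (b : ℝ))
    (h5 : 1 ≤ -1 + (J : ℝ))
    (h6 : 1 ≤ 3 - (J : ℝ))
    (h7 : 0 < -(b : ℝ) - (X : ℝ) + D - I)
    (h8 : 0 < -(J : ℝ) + I)
    (h9 : 0 < (J : ℝ) - D + I)
    (h10 : 0 < -2 * (X : ℝ) + D - 2 * I) : False := by
  have g1 := g.a2
  have g2 := g.b2
  have g3 := g.pa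
  have g4 := g.pb
  have g5 := g.J1
  have g6 := g.JD
  have g7 := g.D2
  have g8 := g.ca
  have g9 := g.ca'
  have k1 := kz.I0
  have k2 := kz.ID
  have k3 := kz.z1
  have k4 := kz.z2
  have k5 := kz.s1
  have k6 := kz.s2
  have e1 := he.I0
  have e2 := he.ID
  have e3 := he.x0
  have e4 := he.xp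
  push_cast at *
  refine (val_E W.toBase hk he (row := [1]) (by simp) (by simp) (kfY 1 [0,0,0,0,0,0,1,0,0,0,1])).sound W rfl (Nk := N)
    (fun kf _ _ => ⟨_, rfl⟩) hkf ?_ ok6
  · simp only [base, List.forall_mem_cons, List.not_mem_nil, false_imp_iff, implies_true,
      and_true, hld, xv, evg_cons, evg_nil, List.map_cons, List.map_nil, List.cons_append,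
      List.nil_append, if_true, if_false, Bool.false_eq_true]
    push_cast
    refine ⟨?_, ?_, ?_, ?_, ?_, ?_, ?_, ?_, ?_, ?_, ?_, ?_, ?_, ?_, ?_, ?_, ?_, ?_, ?_, ?_, ?_, ?_, ?_, ?_, ?_, ?_, ?_, ?_, ?_⟩ <;> linarith

end Helper48.Y.Y11_c35_P2_m1n0
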