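import Pool.Agent.Helper25.KG.S1b
import Pool.Agent.Helper11.CT.Clo

set_option autoImplicit false
set_option linter.all false

namespace Helper48.Y.Y11_c2_P4_m1n0

open Helper25.KG Helper25.KW Helper55.KE Helper11.CT

noncomputable def K : Cls :=
  cE 1 [1] (kfY 1 [0,0,0,0,0,0,1,0,0,0,1])

noncomputable def base : List Con :=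
  [(false,[0,0,0,0,0,0,-2,0,0,1,-2]),
  (false,[0,0,0,0,0,1,0,0,0,-1,1]),
  (false,[0,0,0,0,0,-1,0,0,0,0,1]),
  (false,[0,0,0,0,1,0,0,0,-1,0,0,-1]),
  (false,[0,0,0,0,0,0,0,0,1,0,0,1]),
  (false,[0,0,0,0,0,0,0,0,0,1,0,-1]),
  (false,[0,0,0,0,0,0,0,0,0,0,0,1]),
  (false,[0,0,-1,0,0,0,-1,0,0,1,-1]),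
  (false,[0,1,0,0,0,0,1,1,0,0,1]),
  (false,[0,1,0,0,0,0,-1,-1,0,0,-1]),
  (false,[0,0,1,0,0,0,1,0,0,0,1]),
  (false,[0,0,1,0,0,0,-1,0,0,0,-1]),
  (false,[0,0,0,0,0,0,0,0,0,1,-1]),
  (false,[0,0,0,0,0,0,0,0,0,0,1]),
  (true,[-2,0,0,0,0,1]),
  (false,[0,0,0,0,1,0,0,0,0,-2]),
  (false,[0,0,0,0,0,-1,0,0,0,1]),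
  (true,[0,0,0,0,0,1]),
  (true,[0,2,-1]),
  (false,[-3,0,0,0,1,0,0,0,0,-2]),
  (true,[1,-1,1,1]),
  (true,[0,1,-1]),
  (true,[0,1,0,-1]),
  (true,[0,0,0,1]),
  (true,[0,0,-2,0,1]),
  (true,[0,-2,0,0,1]),
  (true,[-1,0,1]),
  (true,[-1,1])]

noncomputable def l0 : List Con := (false, [0,0,-1,0,1,0,2,0,0,-2,2]) :: base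

noncomputable def r0 : List Con := (false, [0,0,1,0,-1,0,-2,0,0,2,-2]) :: base

noncomputable def l1 : List Con := (true, [0,0,1,1,-1,0,0,-1]) :: l0

noncomputable def r1 : List Con := (true, [1,0,-1,-1,1,0,0,1]) :: l0

noncomputable def l2 : List Con := (false, [0,-1,0,1,1,0,1,1,0,-2,1]) :: r1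

noncomputable def r2 : List Con := (false, [0,1,0,-1,-1,0,-1,-1,0,2,-1]) :: r1

noncomputable def l3 : List Con := (false, [0,-1,0,1,0,0,-1,-1,0,0,-1]) :: r0

noncomputable def r3 : List Con := (false, [0,1,0,-1,0,0,1,1,0,0,1]) :: r0

noncomputable def t0 : Tre :=
  (.I [1,0,0,0,-1,0,0,-2] (.R ⟨2,true,false,true,[0,1],[0,0,1],[1,1,0,0,0,0,0,1],(⟨0,[]⟩,⟨0,[]⟩),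
  (⟨0,[(16,0)]⟩,⟨0,[(15,0)]⟩),⟨0,[]⟩,.k,.k,.k,.k,.k,.k,⟨true,0,⟨0,[]⟩,⟨1,[(13,0),(0,0)]⟩⟩,⟨false,0,
  ⟨1,[(0,0),(10,1),(16,0)]⟩,⟨3,[(3,1),(2,0),(0,0),(10,0),(8,1)]⟩⟩,⟨true,1,⟨1,[(10,1),(0,1),(6,0),(6,
  1),(2,0)]⟩,⟨0,[(1,0)]⟩⟩,⟨false,1,⟨0,[(11,0),(13,0),(2,0)]⟩,⟨1,[(0,0),(9,1),(7,0),(4,1)]⟩⟩,⟨false,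
  1,⟨1,[(10,1),(0,1),(6,0),(9,0)]⟩,⟨1,[(0,0),(12,0),(0,0),(13,0)]⟩⟩,⟨true,0,⟨0,[(11,0)]⟩,⟨5,[(0,1),
  (2,1),(8,1),(5,0),(9,0)]⟩⟩,[]⟩) (.R ⟨2,true,false,true,[0,1],[1,1,-1],[0,0,1,1],(⟨0,[]⟩,⟨0,[]⟩),
  (⟨0,[(15,0),(4,0)]⟩,⟨0,[(5,0)]⟩),⟨0,[]⟩,.k,.k,.k,.k,.k,.k,⟨true,1,⟨1,[(0,0),(27,0)]⟩,⟨0,[(1,0),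
  (23,0)]⟩⟩,⟨false,0,⟨0,[(10,0)]⟩,⟨5,[(2,1),(3,2),(0,2),(5,1),(4,0)]⟩⟩,⟨false,1,⟨1,[(6,0),(0,0),(20,
  0)]⟩,⟨0,[]⟩⟩,⟨true,(-1),⟨0,[(1,0),(8,0),(14,0)]⟩,⟨5,[(0,2),(1,1),(10,1),(4,0)]⟩⟩,⟨true,0,⟨0,[(26,
  0)]⟩,⟨0,[(25,0)]⟩⟩,⟨false,(-1),⟨0,[(1,0),(8,0)]⟩,⟨5,[(0,2),(1,1),(10,1),(4,0),(6,5),(2,5)]⟩⟩,[]⟩))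

theorem ok0 : chk K t0 l1 = true := by decide +kernel

noncomputable def t1 : Tre :=
  (.I [1,-1,0,1,0,0,0,1] (.I [0,0,1,1,0,0,0,-1] (.Q [0,1,0,1,-1,0,-1,-1,0,1,-1] (.p false [0,0,1]
  [1] (⟨0,[(18,0)]⟩,⟨0,[(17,0)]⟩) .k 1 (⟨0,[]⟩,⟨0,[]⟩) .k .k) (.R ⟨2,true,false,true,[0,1],[1,1,-1],
  [1,1,1,1,0,0,0,-1],(⟨0,[]⟩,⟨0,[]⟩),(⟨0,[(18,0),(4,0)]⟩,⟨0,[(8,0)]⟩),⟨0,[]⟩,.k,.k,.k,.k,.k,.k,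
  ⟨true,0,⟨0,[]⟩,⟨1,[(16,0),(0,0)]⟩⟩,⟨false,0,⟨0,[(13,0)]⟩,⟨5,[(1,2),(2,2),(0,1),(10,1),(4,0)]⟩⟩,
  ⟨true,0,⟨2,[(0,1),(0,0),(3,0),(22,2),(2,0)]⟩,⟨0,[(2,0),(25,0)]⟩⟩,⟨false,0,⟨0,[(0,0),(27,0),(2,
  0)]⟩,⟨3,[(2,2),(0,0),(1,0),(10,0),(11,3),(2,1)]⟩⟩,⟨false,0,⟨2,[(0,1),(0,0),(3,0),(25,0)]⟩,⟨0,[(2,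
  0),(25,1),(2,0)]⟩⟩,⟨true,(-1),⟨0,[(0,0)]⟩,⟨3,[(2,2),(0,0),(1,0),(10,0),(11,7),(2,1)]⟩⟩,[]⟩) (.I
  [0,0,0,1,0,0,0,-1] (.S ⟨1,0,[0,1,1,1,0,0,0,-1],[1,1,-1],[0,0,1],(⟨0,[(19,0),(4,0)]⟩,⟨0,[(9,0)]⟩),
  ⟨0,[(19,0)]⟩,.k,.k,⟨false,1,⟨1,[(1,1),(5,0),(6,0),(2,0)]⟩,⟨0,[(0,0)]⟩⟩,⟨true,0,⟨0,[(34,0)]⟩,⟨0,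
  []⟩⟩,⟨true,0,⟨0,[(3,0),(25,0)]⟩,⟨0,[(0,0),(28,0)]⟩⟩,⟨false,0,⟨0,[(30,0)]⟩,⟨0,[(29,0),(2,0)]⟩⟩,[.o
  ⟨false,0,⟨0,[(16,0),(13,0)]⟩,⟨0,[(1,0)]⟩⟩,.e ⟨false,1,⟨1,[(2,0),(2,0),(26,0)]⟩,⟨0,[(28,0)]⟩⟩
  ⟨false,0,⟨0,[(0,0)]⟩,⟨0,[(5,0)]⟩⟩,.a ⟨true,0,⟨0,[(14,0)]⟩,⟨0,[(17,0)]⟩⟩ ⟨true,0,⟨1,[(17,0),(0,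
  0)]⟩,⟨0,[(28,0)]⟩⟩ ⟨false,0,⟨0,[(2,0)]⟩,⟨0,[(1,0),(12,0)]⟩⟩,.e ⟨false,1,⟨1,[(2,0),(2,0),(26,0)]⟩,
  ⟨0,[]⟩⟩ ⟨false,0,⟨0,[(0,0)]⟩,⟨1,[(1,1),(5,0),(6,0),(2,0)]⟩⟩]⟩) (.Q [0,0,0,0,0,0,1,0,0,0,1] (.p
  true [0,0,1] [] (⟨0,[(20,0)]⟩,⟨0,[(19,0)]⟩) .k 0 (⟨0,[]⟩,⟨0,[]⟩) .k .k) (.S ⟨1,0,[0,1,1,1,0,0,0,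
  -1],[1,1,-1],[0,0,1,1,0,0,0,-1],(⟨0,[(20,0),(4,0)]⟩,⟨0,[(10,0)]⟩),⟨0,[(20,0)]⟩,.k,.k,⟨false,1,⟨1,
  [(3,0),(2,0),(26,0)]⟩,⟨0,[]⟩⟩,⟨true,0,⟨0,[(35,0)]⟩,⟨0,[]⟩⟩,⟨true,0,⟨0,[(31,0)]⟩,⟨0,[(30,0)]⟩⟩,
  ⟨false,0,⟨0,[(31,0)]⟩,⟨0,[(30,0),(2,0)]⟩⟩,[.o ⟨false,0,⟨0,[(17,0),(13,0)]⟩,⟨0,[(2,0)]⟩⟩,.a ⟨true,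
  0,⟨0,[(3,0),(11,0)]⟩,⟨0,[(0,0),(0,0)]⟩⟩ ⟨false,1,⟨1,[(3,1),(28,0),(0,0)]⟩,⟨0,[(1,0),(27,0)]⟩⟩
  ⟨true,0,⟨0,[(3,0)]⟩,⟨0,[(1,0)]⟩⟩,.a ⟨true,0,⟨0,[(15,0)]⟩,⟨0,[(18,0)]⟩⟩ ⟨true,0,⟨0,[(3,0)]⟩,⟨0,[(1,
  0),(27,0)]⟩⟩ ⟨false,0,⟨0,[(3,0)]⟩,⟨0,[(2,0),(12,0)]⟩⟩,.a ⟨true,0,⟨1,[(8,0),(6,0),(2,0)]⟩,⟨0,[(0,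
  0)]⟩⟩ ⟨false,1,⟨1,[(3,1),(28,0),(0,0)]⟩,⟨0,[(1,0)]⟩⟩ ⟨true,0,⟨0,[(3,0),(25,0)]⟩,⟨0,[(1,0)]⟩⟩]⟩)
  (.I [0,0,-1,0,0,0,0,1] (.S ⟨1,0,[0,0,0,0,0,0,0,1],[0,0,1],[1,1,1],(⟨0,[(22,0)]⟩,⟨0,[(21,0)]⟩),⟨0,
  [(11,0)]⟩,.k,.k,⟨true,0,⟨0,[(4,0),(26,0)]⟩,⟨0,[(0,0)]⟩⟩,⟨false,1,⟨1,[(4,0),(2,0),(26,0)]⟩,⟨0,[]⟩⟩,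
  ⟨false,0,⟨0,[(4,0)]⟩,⟨0,[(3,0),(12,0)]⟩⟩,⟨true,0,⟨0,[(32,0)]⟩,⟨0,[(31,0)]⟩⟩,[.e ⟨false,0,⟨0,[(36,
  0)]⟩,⟨1,[(33,0),(0,0)]⟩⟩ ⟨false,0,⟨0,[(0,0)]⟩,⟨1,[(4,1),(26,1),(1,0),(0,0)]⟩⟩,.o ⟨false,1,⟨2,[(3,
  0),(2,0),(10,0),(16,0)]⟩,⟨0,[(18,0)]⟩⟩,.o ⟨false,1,⟨5,[(4,2),(2,2),(0,1),(10,1),(4,0)]⟩,⟨0,[(1,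
  0)]⟩⟩,.a ⟨true,0,⟨0,[(19,0)]⟩,⟨0,[(16,0)]⟩⟩ ⟨false,0,⟨0,[]⟩,⟨1,[(4,0),(2,0),(26,0)]⟩⟩ ⟨true,0,⟨0,
  [(0,0)]⟩,⟨0,[(4,0),(26,0)]⟩⟩]⟩) (.Q [0,0,0,1,0,0,-1,-1,0,0,-1] (.p false [0,0,1] [] (⟨0,[(22,0)]⟩,
  ⟨0,[(21,0)]⟩) .k 0 (⟨0,[]⟩,⟨0,[]⟩) .k .k) (.S ⟨1,0,[0,1,1,1,0,0,0,-1],[1,1,-1],[1,0,1,0,0,0,0,-1],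
  (⟨0,[(22,0),(4,0)]⟩,⟨0,[(12,0)]⟩),⟨0,[(22,0)]⟩,.k,.k,⟨false,1,⟨0,[(32,0),(2,0)]⟩,⟨0,[(33,0)]⟩⟩,
  ⟨true,0,⟨0,[(37,0)]⟩,⟨0,[]⟩⟩,⟨true,0,⟨0,[]⟩,⟨0,[(37,0)]⟩⟩,⟨false,0,⟨0,[(33,0)]⟩,⟨0,[(32,0),(2,
  0)]⟩⟩,[.o ⟨false,0,⟨3,[(0,2),(4,0),(15,0),(6,1)]⟩,⟨0,[(4,0)]⟩⟩,.o ⟨false,0,⟨0,[(0,0)]⟩,⟨3,[(4,1),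
  (3,0),(9,0),(1,0),(4,0),(6,0)]⟩⟩,.a ⟨true,0,⟨0,[(17,0)]⟩,⟨0,[(20,0)]⟩⟩ ⟨true,0,⟨0,[(1,0)]⟩,⟨1,[(3,
  0),(2,0),(21,0),(2,0)]⟩⟩ ⟨false,0,⟨0,[(5,0)]⟩,⟨0,[(4,0),(12,0)]⟩⟩,.o ⟨false,0,⟨0,[(2,0)]⟩,⟨5,[(5,
  2),(2,2),(0,1),(10,1),(4,0)]⟩⟩]⟩) (.I [1,-1,-2,-1,1] (.R ⟨0,false,false,false,[1,0,-1],[1,-1],[0,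
  0,1],(⟨0,[(23,0)]⟩,⟨0,[(24,0)]⟩),(⟨0,[(27,0)]⟩,⟨0,[(28,0)]⟩),⟨0,[(12,0)]⟩,.k,.k,.k,.k,.k,.k,
  ⟨false,0,⟨2,[(6,0),(12,0),(2,0),(8,0),(2,0)]⟩,⟨1,[(0,0),(32,0),(1,0)]⟩⟩,⟨true,0,⟨0,[(21,0)]⟩,⟨0,
  [(3,0)]⟩⟩,⟨false,0,⟨0,[(1,0),(1,0),(27,0)]⟩,⟨0,[(2,0),(32,0)]⟩⟩,⟨true,0,⟨0,[(1,0)]⟩,⟨0,[(20,0),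
  (13,0)]⟩⟩,⟨false,0,⟨0,[]⟩,⟨0,[]⟩⟩,⟨false,0,⟨0,[]⟩,⟨0,[]⟩⟩,[.a ⟨true,0,⟨0,[(1,0),(0,0),(15,0)]⟩,⟨0,
  [(34,0)]⟩⟩ ⟨true,0,⟨1,[(21,0),(0,0)]⟩,⟨0,[]⟩⟩ ⟨false,1,⟨1,[(0,0),(20,1),(11,0),(1,0)]⟩,⟨0,[(3,0),
  (30,0)]⟩⟩,.e ⟨false,1,⟨1,[(6,0),(2,0),(26,0)]⟩,⟨0,[(32,0)]⟩⟩ ⟨false,1,⟨0,[(0,0),(20,0)]⟩,⟨1,[(3,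
  0),(18,0),(6,0),(4,1)]⟩⟩,.o ⟨false,0,⟨0,[(3,0)]⟩,⟨5,[(6,2),(2,2),(0,1),(10,1),(4,0)]⟩⟩,.o ⟨false,
  0,⟨0,[(22,0)]⟩,⟨3,[(6,0),(2,0),(0,1),(24,0)]⟩⟩]⟩) (.R ⟨0,false,false,false,[1,0,-1],[1,-1],[0,0,
  1],(⟨0,[(23,0)]⟩,⟨0,[(24,0)]⟩),(⟨0,[(27,0)]⟩,⟨0,[(28,0)]⟩),⟨0,[(12,0)]⟩,.k,.k,.k,.k,.k,.k,⟨false,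
  0,⟨8,[(0,0),(5,3),(1,0),(2,1),(7,2),(11,2)]⟩,⟨0,[(2,0),(1,0),(5,0),(7,1)]⟩⟩,⟨true,0,⟨0,[(21,0)]⟩,
  ⟨0,[(3,0)]⟩⟩,⟨false,0,⟨0,[(1,0),(1,0),(27,0)]⟩,⟨0,[(2,0),(32,0)]⟩⟩,⟨true,0,⟨0,[(1,0)]⟩,⟨0,[(20,0),
  (13,0)]⟩⟩,⟨false,0,⟨0,[]⟩,⟨0,[]⟩⟩,⟨false,0,⟨0,[]⟩,⟨0,[]⟩⟩,[.a ⟨true,0,⟨0,[(1,0),(0,0),(15,0)]⟩,⟨0,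
  [(34,0)]⟩⟩ ⟨true,0,⟨1,[(21,0),(0,0)]⟩,⟨0,[]⟩⟩ ⟨false,1,⟨0,[(1,0),(0,0),(32,0)]⟩,⟨0,[(3,0),(30,
  0)]⟩⟩,.o ⟨false,1,⟨0,[(33,0),(2,0)]⟩,⟨1,[(0,0),(2,1),(6,0),(21,0),(1,0)]⟩⟩,.o ⟨false,0,⟨0,[(3,
  0)]⟩,⟨5,[(6,2),(2,2),(0,1),(10,1),(4,0)]⟩⟩,.o ⟨false,0,⟨0,[(22,0)]⟩,⟨3,[(6,0),(2,0),(0,1),(24,
  0)]⟩⟩]⟩))))))) (.I [0,-1,0,0,1,0,0,-1] (.S ⟨1,0,[0,0,0,0,0,0,0,1],[0,0,1],[1,1,0,-1,0,0,0,1],(⟨0,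
  [(19,0)]⟩,⟨0,[(18,0)]⟩),⟨0,[(8,0)]⟩,.k,.k,⟨true,0,⟨0,[(28,0)]⟩,⟨0,[(29,0)]⟩⟩,⟨false,1,⟨1,[(9,0),
  (0,0),(20,0)]⟩,⟨0,[]⟩⟩,⟨false,0,⟨0,[]⟩,⟨1,[(9,0),(0,0),(20,0)]⟩⟩,⟨true,0,⟨0,[(29,0)]⟩,⟨0,[(28,
  0)]⟩⟩,[.e ⟨false,0,⟨5,[(1,4),(12,0),(2,0),(6,1),(3,0)]⟩,⟨0,[(0,0),(28,0)]⟩⟩ ⟨false,0,⟨1,[(1,0),(0,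
  0),(24,0)]⟩,⟨0,[(0,0),(32,0)]⟩⟩,.o ⟨false,1,⟨3,[(1,0),(1,1),(0,0),(11,1),(14,0)]⟩,⟨0,[(15,0)]⟩⟩,
  .o ⟨false,1,⟨5,[(0,2),(4,0),(8,2),(1,0),(4,1)]⟩,⟨0,[(1,0),(13,0),(10,0)]⟩⟩,.a ⟨true,0,⟨0,[(16,
  0)]⟩,⟨0,[(13,0)]⟩⟩ ⟨false,0,⟨0,[(1,0)]⟩,⟨0,[(0,0),(25,0),(6,0)]⟩⟩ ⟨true,0,⟨1,[(1,0),(0,0),(24,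
  0)]⟩,⟨0,[(15,0),(0,0)]⟩⟩]⟩) (.S ⟨1,0,[0,0,0,0,0,0,0,1],[0,0,1],[1,1,0,-1,0,0,0,1],(⟨0,[(19,0)]⟩,
  ⟨0,[(18,0)]⟩),⟨0,[(8,0)]⟩,.k,.k,⟨true,0,⟨0,[(28,0)]⟩,⟨0,[(29,0)]⟩⟩,⟨false,1,⟨1,[(9,0),(0,0),(20,
  0)]⟩,⟨0,[]⟩⟩,⟨false,0,⟨0,[]⟩,⟨1,[(9,0),(0,0),(20,0)]⟩⟩,⟨true,0,⟨0,[(29,0)]⟩,⟨0,[(28,0)]⟩⟩,[.o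
  ⟨false,0,⟨5,[(0,2),(0,2),(3,1),(10,1),(4,0),(4,2)]⟩,⟨1,[(9,0),(0,0),(4,1),(15,0)]⟩⟩,.o ⟨false,1,
  ⟨3,[(1,0),(1,1),(0,0),(11,1),(14,0)]⟩,⟨0,[(15,0)]⟩⟩,.o ⟨false,1,⟨5,[(5,1),(3,2),(0,2),(5,1),(4,
  0)]⟩,⟨0,[(1,0),(13,0),(10,0)]⟩⟩,.a ⟨true,0,⟨0,[(16,0)]⟩,⟨0,[(13,0)]⟩⟩ ⟨false,0,⟨0,[(1,0)]⟩,⟨0,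
  [(15,0),(0,0),(12,0),(1,0)]⟩⟩ ⟨true,0,⟨2,[(0,0),(0,0),(0,0),(27,0)]⟩,⟨0,[(15,0),(0,0)]⟩⟩]⟩))) (.Q
  [0,0,0,0,0,0,1,0,0,0,1] (.p true [0,0,1] [] (⟨0,[(17,0)]⟩,⟨0,[(16,0)]⟩) .k 0 (⟨0,[]⟩,⟨0,[]⟩) .k
  .k) (.I [1,0,0,0,0,0,0,-1] (.I [1,0,-2,-1,0,0,0,-2] (.Q [0,1,0,0,-1,0,-1,-1,0,1,-1] (.p false [0,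
  0,1] [1] (⟨0,[(20,0)]⟩,⟨0,[(19,0)]⟩) .k 1 (⟨0,[]⟩,⟨0,[]⟩) .k .k) (.R ⟨0,false,false,false,[1,0,
  -1],[0,1],[0,1,1],(⟨0,[(20,0)]⟩,⟨0,[(21,0)]⟩),(⟨0,[(25,0)]⟩,⟨0,[(24,0)]⟩),⟨0,[(9,0)]⟩,.k,.k,.k,.k,
  .k,.k,⟨true,0,⟨0,[(30,0)]⟩,⟨0,[(28,0)]⟩⟩,⟨false,1,⟨0,[(7,0),(7,0)]⟩,⟨0,[(8,0),(9,0)]⟩⟩,⟨true,0,⟨0,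
  [(16,0),(2,0)]⟩,⟨1,[(1,0),(29,0)]⟩⟩,⟨false,1,⟨1,[(5,0),(10,0),(14,0),(1,0)]⟩,⟨0,[(0,0),(29,0),(2,
  0)]⟩⟩,⟨false,0,⟨0,[]⟩,⟨0,[]⟩⟩,⟨false,0,⟨0,[]⟩,⟨0,[]⟩⟩,[.o ⟨false,0,⟨0,[(0,0),(4,0)]⟩,⟨3,[(4,1),(1,
  1),(4,0),(0,0),(5,0),(0,0),(13,0)]⟩⟩,.o ⟨false,1,⟨1,[(23,0),(7,1),(1,0)]⟩,⟨0,[(30,0)]⟩⟩,.a ⟨true,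
  0,⟨1,[(8,0),(6,0),(2,0)]⟩,⟨0,[(3,0)]⟩⟩ ⟨false,0,⟨1,[(18,0),(0,0)]⟩,⟨1,[(32,0),(0,0)]⟩⟩ ⟨true,0,⟨0,
  [(0,0),(2,0),(1,0)]⟩,⟨1,[(8,0),(6,0),(2,0),(11,1)]⟩⟩,.o ⟨false,0,⟨0,[(19,0)]⟩,⟨3,[(7,1),(3,0),(0,
  0),(19,0)]⟩⟩]⟩) (.I [1,-1,0,0,0,0,0,-1] (.Q [0,0,0,-1,0,0,0,0,0,1] (.pp false [-1,1]) (.R ⟨0,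
  false,false,true,[-1,1,1],[0,0,1],[0,1,1,0,0,0,0,1],(⟨0,[(11,0)]⟩,⟨0,[(22,0),(3,0)]⟩),(⟨0,[(23,
  0)]⟩,⟨0,[(22,0)]⟩),⟨0,[(22,0)]⟩,.k,.k,.k,.k,.k,.k,⟨true,0,⟨1,[(20,0),(0,0)]⟩,⟨0,[]⟩⟩,⟨false,0,⟨0,
  [(17,0),(2,0)]⟩,⟨1,[(25,0),(8,0)]⟩⟩,⟨true,0,⟨0,[(32,0)]⟩,⟨0,[(33,0)]⟩⟩,⟨false,0,⟨0,[(0,0)]⟩,⟨1,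
  [(25,0),(7,1),(1,0)]⟩⟩,⟨false,0,⟨0,[]⟩,⟨0,[]⟩⟩,⟨false,0,⟨0,[]⟩,⟨0,[]⟩⟩,[.a ⟨true,0,⟨0,[(18,0)]⟩,
  ⟨2,[(0,0),(0,1),(2,0),(5,0),(6,0),(12,0)]⟩⟩ ⟨true,0,⟨0,[(18,0),(2,0)]⟩,⟨0,[(1,0)]⟩⟩ ⟨false,0,⟨1,
  [(10,0),(6,0),(0,1),(1,0)]⟩,⟨1,[(3,0),(21,0),(7,0),(1,0)]⟩⟩,.o ⟨false,1,⟨3,[(2,1),(10,0),(0,0),(3,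
  1),(6,0)]⟩,⟨1,[(3,0),(17,1),(11,0)]⟩⟩,.o ⟨false,1,⟨3,[(3,0),(3,1),(1,0),(15,0),(5,0),(0,0)]⟩,⟨0,
  [(10,0),(9,0)]⟩⟩,.o ⟨false,1,⟨2,[(9,0),(10,0),(4,1)]⟩,⟨1,[(10,0),(6,0),(2,0)]⟩⟩]⟩) (.R ⟨0,false,
  false,false,[1,0,-1],[0,1],[0,1,1],(⟨0,[(22,0)]⟩,⟨0,[(23,0)]⟩),(⟨0,[(27,0)]⟩,⟨0,[(26,0)]⟩),⟨0,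
  [(11,0)]⟩,.k,.k,.k,.k,.k,.k,⟨true,0,⟨0,[(32,0)]⟩,⟨0,[(30,0)]⟩⟩,⟨false,1,⟨0,[(9,0),(7,0)]⟩,⟨0,[(10,
  0),(9,0)]⟩⟩,⟨true,0,⟨0,[(18,0),(2,0)]⟩,⟨1,[(3,0),(29,0)]⟩⟩,⟨false,1,⟨0,[(2,0),(30,0)]⟩,⟨1,[(1,1),
  (8,0),(6,0),(2,0),(11,1)]⟩⟩,⟨false,0,⟨0,[]⟩,⟨0,[]⟩⟩,⟨false,0,⟨0,[]⟩,⟨0,[]⟩⟩,[.o ⟨false,0,⟨0,[(0,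
  0)]⟩,⟨3,[(6,1),(1,1),(4,0),(0,0),(5,0),(0,0),(13,0)]⟩⟩,.o ⟨false,1,⟨1,[(25,0),(7,1),(1,0)]⟩,⟨0,
  [(32,0)]⟩⟩,.a ⟨true,0,⟨1,[(10,0),(6,0),(2,0)]⟩,⟨0,[(5,0)]⟩⟩ ⟨false,0,⟨1,[(20,0),(0,0)]⟩,⟨1,[(34,
  0),(0,0)]⟩⟩ ⟨true,0,⟨0,[(0,0),(4,0)]⟩,⟨1,[(10,0),(6,0),(2,0),(11,1)]⟩⟩,.o ⟨false,0,⟨0,[(21,0)]⟩,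
  ⟨3,[(9,1),(3,0),(0,0),(19,0)]⟩⟩]⟩)) (.S ⟨1,0,[0,0,0,0,0,0,0,1],[0,0,1],[1],(⟨0,[(22,0)]⟩,⟨0,[(21,
  0)]⟩),⟨0,[(11,0)]⟩,.k,.k,⟨true,0,⟨0,[(3,0)]⟩,⟨0,[(0,0)]⟩⟩,⟨false,1,⟨1,[(12,0),(0,0),(20,0)]⟩,⟨0,
  []⟩⟩,⟨false,0,⟨1,[(2,0),(26,1),(2,0)]⟩,⟨1,[(7,1),(11,0),(0,0)]⟩⟩,⟨true,0,⟨0,[(32,0)]⟩,⟨0,[(31,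
  0)]⟩⟩,[.o ⟨false,1,⟨3,[(1,1),(10,0),(0,0),(3,1),(6,0)]⟩,⟨1,[(2,0),(17,1),(11,0)]⟩⟩,.o ⟨false,1,⟨0,
  [(1,0)]⟩,⟨0,[(18,0)]⟩⟩,.a ⟨true,0,⟨0,[(4,0)]⟩,⟨1,[(9,0),(6,0),(2,0)]⟩⟩ ⟨true,0,⟨0,[]⟩,⟨0,[(36,
  0)]⟩⟩ ⟨false,1,⟨1,[(1,0),(7,0),(7,0),(16,0)]⟩,⟨0,[(3,0)]⟩⟩,.e ⟨false,1,⟨1,[(33,0),(0,0)]⟩,⟨1,[(19,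
  0),(0,0)]⟩⟩ ⟨false,1,⟨0,[(1,0),(14,0)]⟩,⟨0,[(5,0),(23,0)]⟩⟩]⟩))) (.Q [0,-1,0,0,1,0,1,1,0,-1,1]
  (.p true [0,0,1] [1] (⟨0,[(20,0)]⟩,⟨0,[(19,0)]⟩) .k 1 (⟨0,[]⟩,⟨0,[]⟩) .k .k) (.I [1,0,0,0,0,0,0,
  1] (.N [0,0,1] 0 ⟨0,[(0,0)]⟩ ⟨0,[(3,0)]⟩ .k) (.Q [0,0,0,-1,0,0,-1,-1,0,1,-1] (.p false [0,0,1]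
  [1] (⟨0,[(22,0)]⟩,⟨0,[(21,0)]⟩) .k 1 (⟨0,[]⟩,⟨0,[]⟩) .k .k) (.I [0,0,1,0,0,0,0,1] (.Q [0,1,0,-1,0,
  0,1,1,0,0,1] (.p true [0,0,1] [] (⟨0,[(24,0)]⟩,⟨0,[(23,0)]⟩) .k 0 (⟨0,[]⟩,⟨0,[]⟩) .k .k) (.Q [0,0,
  0,-1,0,0,0,0,0,1] (.pp false [-1,1]) (.R ⟨0,false,false,true,[1,0,-1],[2,-1,-1],[1,0,0,0,0,0,0,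
  -1],(⟨0,[(25,0)]⟩,⟨0,[(26,0)]⟩),(⟨0,[(25,0),(3,0)]⟩,⟨0,[(14,0)]⟩),⟨0,[(14,0)]⟩,.k,.k,.k,.k,.k,.k,
  ⟨true,0,⟨0,[(33,0)]⟩,⟨0,[(35,0)]⟩⟩,⟨false,0,⟨0,[(20,0),(2,0)]⟩,⟨1,[(28,0),(8,0)]⟩⟩,⟨true,0,⟨0,[]⟩,
  ⟨7,[(6,0),(2,0),(12,0),(0,0),(7,2)]⟩⟩,⟨false,0,⟨0,[(0,0)]⟩,⟨1,[(28,0),(7,1),(1,0)]⟩⟩,⟨false,0,⟨0,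
  []⟩,⟨0,[]⟩⟩,⟨false,0,⟨0,[]⟩,⟨0,[]⟩⟩,[.o ⟨false,0,⟨7,[(3,7),(2,0),(2,0),(12,0),(0,0),(7,2)]⟩,⟨0,
  [(10,0)]⟩⟩,.o ⟨false,0,⟨0,[(3,0)]⟩,⟨9,[(6,0),(3,7),(12,1),(4,1),(2,3),(4,0)]⟩⟩,.a ⟨true,0,⟨1,[(13,
  0),(6,0),(2,0)]⟩,⟨0,[(8,0)]⟩⟩ ⟨true,0,⟨0,[(7,0)]⟩,⟨0,[(2,0),(31,0)]⟩⟩ ⟨false,0,⟨0,[(3,0),(4,0)]⟩,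
  ⟨5,[(6,0),(3,3),(2,1),(22,0),(0,0),(0,0)]⟩⟩,.o ⟨false,0,⟨0,[(24,0)]⟩,⟨3,[(12,1),(3,0),(0,0),(19,
  0)]⟩⟩]⟩) (.R ⟨1,false,false,true,[0,0,1],[1,-1],[0,1,0,-1],(⟨0,[(26,0)]⟩,⟨0,[(25,0)]⟩),(⟨0,[(29,
  0)]⟩,⟨0,[(30,0)]⟩),⟨0,[(15,0)]⟩,.k,.k,.k,.k,.k,.k,⟨true,0,⟨1,[(23,0),(0,0)]⟩,⟨0,[]⟩⟩,⟨false,0,⟨1,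
  [(13,0),(6,0),(2,0)]⟩,⟨3,[(12,1),(3,0),(0,0),(19,0)]⟩⟩,⟨true,0,⟨0,[(9,0)]⟩,⟨0,[(0,0),(0,0),(18,0),
  (12,0)]⟩⟩,⟨false,0,⟨0,[(3,0)]⟩,⟨0,[(5,0),(30,0)]⟩⟩,⟨false,0,⟨0,[(4,0)]⟩,⟨5,[(6,1),(4,1),(25,0),(0,
  2)]⟩⟩,⟨false,0,⟨0,[(3,0),(32,0)]⟩,⟨0,[(5,0)]⟩⟩,[.o ⟨false,0,⟨0,[(35,0)]⟩,⟨1,[(28,0),(7,1),(1,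
  0)]⟩⟩,.o ⟨false,1,⟨3,[(3,1),(7,1),(4,0),(0,0),(5,1),(4,0)]⟩,⟨0,[(0,0)]⟩⟩,.e ⟨true,0,⟨0,[(35,0)]⟩,
  ⟨0,[(36,0)]⟩⟩ ⟨true,0,⟨7,[(1,2),(1,4),(2,0),(6,2),(17,1),(3,0)]⟩,⟨0,[(0,0),(7,0)]⟩⟩,.a ⟨true,0,⟨0,
  [(23,0)]⟩,⟨0,[(20,0)]⟩⟩ ⟨false,1,⟨3,[(9,1),(1,1),(25,0),(0,0)]⟩,⟨0,[(33,0)]⟩⟩ ⟨true,0,⟨0,[(20,0),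
  (14,0)]⟩,⟨0,[(0,0),(22,0)]⟩⟩]⟩)) (.S ⟨1,0,[0,0,0,0,0,0,0,1],[0,0,1],[1],(⟨0,[(25,0)]⟩,⟨0,[(24,
  0)]⟩),⟨0,[(14,0)]⟩,.k,.k,⟨true,0,⟨0,[(6,0)]⟩,⟨0,[(1,0),(31,0)]⟩⟩,⟨false,1,⟨1,[(15,0),(0,0),(20,
  0)]⟩,⟨0,[]⟩⟩,⟨false,0,⟨0,[(0,0),(6,0)]⟩,⟨7,[(2,2),(1,0),(0,1),(4,5),(11,1),(4,0),(6,0)]⟩⟩,⟨true,0,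
  ⟨0,[(35,0)]⟩,⟨0,[(34,0)]⟩⟩,[.o ⟨false,1,⟨17,[(5,5),(4,5),(0,7),(3,2),(0,2),(5,1),(4,0)]⟩,⟨0,[(0,
  0),(33,0)]⟩⟩,.o ⟨false,1,⟨0,[(4,0)]⟩,⟨0,[(21,0)]⟩⟩,.a ⟨true,0,⟨0,[(7,0)]⟩,⟨1,[(12,0),(6,0),(2,
  0)]⟩⟩ ⟨true,0,⟨0,[]⟩,⟨7,[(5,0),(2,0),(12,0),(0,0),(7,2)]⟩⟩ ⟨false,1,⟨5,[(5,1),(4,1),(25,0),(0,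
  2)]⟩,⟨0,[(6,0)]⟩⟩,.e ⟨false,1,⟨1,[(36,0),(0,0)]⟩,⟨1,[(22,0),(0,0)]⟩⟩ ⟨false,1,⟨0,[(4,0),(14,0)]⟩,
  ⟨3,[(0,1),(7,1),(13,2),(0,0)]⟩⟩]⟩)) (.I [0,1,0,0,0,0,0,1] (.S ⟨1,0,[0,0,0,0,0,0,0,1],[0,0,1],[1],
  (⟨0,[(25,0)]⟩,⟨0,[(24,0)]⟩),⟨0,[(14,0)]⟩,.k,.k,⟨true,0,⟨0,[(6,0)]⟩,⟨0,[(0,0)]⟩⟩,⟨false,1,⟨1,[(15,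
  0),(0,0),(20,0)]⟩,⟨0,[]⟩⟩,⟨false,0,⟨0,[(1,0),(30,0)]⟩,⟨7,[(2,2),(1,0),(0,1),(4,5),(11,1),(4,0),(6,
  0)]⟩⟩,⟨true,0,⟨0,[(35,0)]⟩,⟨0,[(34,0)]⟩⟩,[.o ⟨false,1,⟨17,[(5,5),(4,5),(0,7),(3,2),(0,2),(5,1),(4,
  0)]⟩,⟨0,[(1,0),(21,0)]⟩⟩,.o ⟨false,1,⟨0,[(4,0)]⟩,⟨0,[(21,0)]⟩⟩,.a ⟨true,0,⟨0,[(7,0)]⟩,⟨1,[(12,0),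
  (6,0),(2,0)]⟩⟩ ⟨true,0,⟨0,[]⟩,⟨7,[(5,0),(2,0),(12,0),(0,0),(7,2)]⟩⟩ ⟨false,1,⟨5,[(5,1),(4,1),(25,
  0),(0,2)]⟩,⟨0,[(6,0)]⟩⟩,.e ⟨false,1,⟨1,[(36,0),(0,0)]⟩,⟨1,[(22,0),(0,0)]⟩⟩ ⟨false,1,⟨0,[(4,0),(14,
  0)]⟩,⟨0,[(8,0),(23,0)]⟩⟩]⟩) (.R ⟨0,false,false,false,[-1,1,1],[1,0,-1],[1,0,0,0,0,0,0,-1],(⟨0,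
  [(13,0)]⟩,⟨0,[(24,0),(3,0)]⟩),(⟨0,[(24,0)]⟩,⟨0,[(25,0)]⟩),⟨0,[(24,0)]⟩,.k,.k,.k,(.r (-1) ⟨1,[(5,
  1),(9,0),(0,0),(19,0)]⟩ ⟨0,[(0,0),(0,0),(32,0)]⟩),.k,.k,⟨true,0,⟨0,[]⟩,⟨1,[(22,0),(0,0)]⟩⟩,⟨false,
  0,⟨0,[(12,0),(6,0),(2,0)]⟩,⟨0,[(11,0)]⟩⟩,⟨true,0,⟨0,[(0,0),(0,0),(32,0)]⟩,⟨0,[(5,0),(27,0)]⟩⟩,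
  ⟨false,0,⟨1,[(0,0),(1,2),(16,0),(12,0)]⟩,⟨0,[(9,0),(10,0)]⟩⟩,⟨false,0,⟨0,[]⟩,⟨0,[]⟩⟩,⟨false,0,⟨0,
  []⟩,⟨0,[]⟩⟩,[.o ⟨false,0,⟨0,[(1,0),(21,0)]⟩,⟨17,[(5,5),(4,5),(0,7),(3,2),(0,2),(5,1),(4,0)]⟩⟩,.a
  ⟨true,0,⟨1,[(0,0),(1,0),(16,0),(12,0)]⟩,⟨0,[(20,0)]⟩⟩ ⟨true,0,⟨0,[(0,0)]⟩,⟨4,[(5,2),(2,0),(21,0),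
  (3,1)]⟩⟩ ⟨false,0,⟨0,[(2,0),(16,0),(12,0)]⟩,⟨1,[(9,0),(1,0),(8,0),(12,0),(0,0)]⟩⟩,.o ⟨false,1,⟨0,
  [(1,0),(7,0),(24,0)]⟩,⟨0,[(12,0),(9,0)]⟩⟩,.o ⟨false,1,⟨2,[(11,0),(10,0),(4,1)]⟩,⟨1,[(12,0),(6,0),
  (2,0)]⟩⟩]⟩))) (.Q [0,1,0,1,-1,0,-1,-1,0,1,-1] (.p false [0,0,1] [1] (⟨0,[(23,0)]⟩,⟨0,[(22,0)]⟩)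
  .k 1 (⟨0,[]⟩,⟨0,[]⟩) .k .k) (.S ⟨1,4,[],[0,0,1],[0,0,1],(⟨0,[(24,0)]⟩,⟨0,[(23,0)]⟩),⟨0,[(13,0)]⟩,
  .k,.k,⟨true,0,⟨0,[(7,0),(23,0)]⟩,⟨0,[(1,0),(16,0),(14,0)]⟩⟩,⟨false,0,⟨3,[(0,1),(6,1),(3,0),(6,0),
  (2,0),(14,1)]⟩,⟨0,[(3,0)]⟩⟩,⟨false,0,⟨0,[(2,0),(28,0)]⟩,⟨0,[(9,0)]⟩⟩,⟨true,(-1),⟨0,[(0,0)]⟩,⟨0,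
  [(3,0),(29,0)]⟩⟩,[.o ⟨false,0,⟨7,[(4,0),(2,0),(12,0),(0,0),(7,2)]⟩,⟨1,[(26,0),(9,0)]⟩⟩,.e ⟨false,
  1,⟨1,[(14,0),(0,0),(20,0)]⟩,⟨0,[(32,0)]⟩⟩ ⟨false,0,⟨0,[(18,0)]⟩,⟨5,[(10,1),(3,2),(0,2),(5,1),(4,
  0)]⟩⟩,.a ⟨true,0,⟨0,[(6,0)]⟩,⟨1,[(11,0),(6,0),(2,0)]⟩⟩ ⟨true,0,⟨1,[(21,0),(0,0)]⟩,⟨0,[(32,0)]⟩⟩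
  ⟨false,0,⟨1,[(11,0),(6,0),(2,0)]⟩,⟨5,[(10,1),(10,1),(4,0),(9,2)]⟩⟩,.e ⟨false,1,⟨1,[(14,0),(0,0),
  (20,0)]⟩,⟨0,[]⟩⟩ ⟨false,0,⟨0,[(18,0)]⟩,⟨1,[(21,1),(4,0),(9,0)]⟩⟩]⟩) (.S ⟨1,0,[0,1,1,1,0,0,0,-1],
  [1,1,-1],[1,1],(⟨0,[(23,0),(4,0)]⟩,⟨0,[(13,0)]⟩),⟨0,[(23,0)]⟩,.k,.k,⟨false,1,⟨0,[(9,0)]⟩,⟨0,[(2,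
  0),(28,0)]⟩⟩,⟨true,0,⟨7,[(4,0),(2,0),(12,0),(0,0),(7,2)]⟩,⟨0,[]⟩⟩,⟨true,0,⟨0,[(1,0),(16,0),(14,
  0)]⟩,⟨0,[(7,0),(23,0)]⟩⟩,⟨false,0,⟨0,[(34,0)]⟩,⟨0,[(33,0),(2,0)]⟩⟩,[.o ⟨false,0,⟨0,[(20,0),(13,
  0)]⟩,⟨0,[(0,0)]⟩⟩,.o ⟨false,0,⟨0,[(1,0),(0,1),(8,0)]⟩,⟨3,[(0,1),(8,0),(9,0),(1,0),(4,0),(6,0)]⟩⟩,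
  .e ⟨false,0,⟨0,[]⟩,⟨1,[(14,0),(0,0),(20,0)]⟩⟩ ⟨false,0,⟨1,[(2,0),(17,0),(0,0),(9,0),(2,0)]⟩,⟨0,
  [(0,0),(17,0)]⟩⟩,.a ⟨true,0,⟨1,[(11,0),(6,0),(2,0)]⟩,⟨0,[(6,0)]⟩⟩ ⟨true,0,⟨0,[(32,0)]⟩,⟨1,[(21,0),
  (0,0)]⟩⟩ ⟨false,0,⟨0,[(2,0),(31,0)]⟩,⟨1,[(0,1),(10,0),(6,0),(2,0)]⟩⟩]⟩)))) (.S ⟨1,1,[],[0,0,1],[1,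
  1],(⟨0,[(21,0)]⟩,⟨0,[(20,0)]⟩),⟨0,[(10,0)]⟩,.k,.k,⟨false,0,⟨0,[(2,0)]⟩,⟨5,[(1,1),(4,1),(25,0),(0,
  2)]⟩⟩,⟨true,0,⟨1,[(0,1),(22,0),(9,0)]⟩,⟨0,[(16,0)]⟩⟩,⟨true,(-1),⟨0,[(0,1),(2,0),(1,0)]⟩,⟨2,[(1,0),
  (2,0),(1,1),(23,0),(2,0)]⟩⟩,⟨false,0,⟨0,[(0,1),(4,0),(27,0)]⟩,⟨0,[(6,0),(11,0)]⟩⟩,[.fo,.o ⟨false,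
  1,⟨1,[(23,0),(9,0)]⟩,⟨7,[(1,0),(2,0),(12,0),(0,0),(7,2)]⟩⟩,.e ⟨false,0,⟨0,[]⟩,⟨1,[(11,0),(0,0),
  (20,0)]⟩⟩ ⟨false,1,⟨3,[(8,1),(2,0),(0,0),(10,0),(9,1)]⟩,⟨0,[(3,0)]⟩⟩,.a ⟨true,0,⟨0,[(18,0)]⟩,⟨0,
  [(15,0)]⟩⟩ ⟨true,0,⟨0,[(29,0)]⟩,⟨1,[(18,0),(0,0)]⟩⟩ ⟨false,1,⟨1,[(15,1),(7,0),(9,0)]⟩,⟨0,[(18,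
  0)]⟩⟩]⟩))) (.S ⟨1,0,[0,0,0,0,0,0,0,1],[0,0,1],[0,1,0,0,0,0,0,1],(⟨0,[(19,0)]⟩,⟨0,[(18,0)]⟩),⟨0,
  [(8,0)]⟩,.k,.k,⟨true,0,⟨0,[(33,0)]⟩,⟨0,[]⟩⟩,⟨false,1,⟨1,[(9,0),(0,0),(20,0)]⟩,⟨0,[]⟩⟩,⟨false,0,⟨0,
  [(29,0)]⟩,⟨0,[(28,0),(2,0)]⟩⟩,⟨true,0,⟨0,[(29,0)]⟩,⟨0,[(28,0)]⟩⟩,[.a ⟨true,0,⟨0,[(0,0),(0,0)]⟩,⟨0,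
  [(2,0),(10,0),(12,0)]⟩⟩ ⟨false,0,⟨0,[(0,0),(26,0)]⟩,⟨0,[(1,0),(13,0),(15,0)]⟩⟩ ⟨true,0,⟨0,[(0,
  0)]⟩,⟨0,[(2,0),(23,0)]⟩⟩,.o ⟨false,1,⟨3,[(0,2),(2,0),(1,0),(10,0),(11,0),(2,1)]⟩,⟨0,[(15,0)]⟩⟩,.a
  ⟨true,0,⟨0,[(1,0)]⟩,⟨1,[(6,0),(6,0),(2,0)]⟩⟩ ⟨false,0,⟨0,[(0,0)]⟩,⟨0,[(1,0),(13,0),(15,0)]⟩⟩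
  ⟨true,0,⟨0,[(0,0)]⟩,⟨0,[(1,0),(13,0)]⟩⟩,.a ⟨true,0,⟨0,[(16,0)]⟩,⟨0,[(13,0)]⟩⟩ ⟨true,0,⟨0,[(0,0),
  (26,0)]⟩,⟨0,[(2,0),(23,0)]⟩⟩ ⟨false,1,⟨1,[(0,1),(29,0),(0,0)]⟩,⟨0,[(2,0),(23,0)]⟩⟩]⟩)) (.Q [0,1,0,
  -1,0,0,1,1,0,0,1] (.p true [0,0,1] [] (⟨0,[(18,0)]⟩,⟨0,[(17,0)]⟩) .k 0 (⟨0,[]⟩,⟨0,[]⟩) .k .k) (.Q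
  [0,0,0,1,0,0,-1,-1,0,0,-1] (.p false [0,0,1] [] (⟨0,[(19,0)]⟩,⟨0,[(18,0)]⟩) .k 0 (⟨0,[]⟩,⟨0,[]⟩)
  .k .k) (.Q [0,0,0,-1,0,0,0,0,0,1] (.pp false [-1,1]) (.I [1,-1,-1,0,1,0,0,-1] (.R ⟨0,false,false,
  true,[1,0,-1],[1,-1],[0,1,1],(⟨0,[(21,0)]⟩,⟨0,[(22,0)]⟩),(⟨0,[(25,0)]⟩,⟨0,[(26,0)]⟩),⟨0,[(10,0)]⟩,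
  .k,.k,.k,.k,.k,.k,⟨false,0,⟨0,[(29,0),(6,0)]⟩,⟨0,[(1,0),(2,0),(3,0),(7,0)]⟩⟩,⟨true,0,⟨0,[(19,0)]⟩,
  ⟨0,[(4,0)]⟩⟩,⟨false,0,⟨0,[(3,0),(0,0),(24,0)]⟩,⟨0,[(0,0)]⟩⟩,⟨true,0,⟨0,[(3,0)]⟩,⟨0,[(2,0)]⟩⟩,
  ⟨false,0,⟨0,[]⟩,⟨0,[]⟩⟩,⟨false,0,⟨0,[]⟩,⟨0,[]⟩⟩,[.o ⟨false,0,⟨0,[(31,0)]⟩,⟨3,[(2,1),(3,1),(5,0),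
  (0,0),(20,0)]⟩⟩,.a ⟨true,0,⟨0,[(1,0)]⟩,⟨0,[(32,0)]⟩⟩ ⟨true,0,⟨1,[(19,0),(0,0)]⟩,⟨0,[]⟩⟩ ⟨false,1,
  ⟨7,[(0,1),(0,5),(5,1),(0,2),(10,1),(7,0),(5,0)]⟩,⟨0,[(4,0),(27,0)]⟩⟩,.o ⟨false,0,⟨0,[(4,0)]⟩,⟨5,
  [(8,1),(3,2),(0,2),(5,1),(4,0)]⟩⟩,.o ⟨false,0,⟨0,[(20,0)]⟩,⟨3,[(8,1),(3,0),(0,0),(19,0)]⟩⟩]⟩) (.R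
  ⟨0,false,false,true,[1,0,-1],[1,-1],[1,1],(⟨0,[(21,0)]⟩,⟨0,[(22,0)]⟩),(⟨0,[(25,0)]⟩,⟨0,[(26,0)]⟩),
  ⟨0,[(10,0)]⟩,.k,.k,.k,.k,.k,.k,⟨false,0,⟨0,[(32,0)]⟩,⟨3,[(5,1),(1,1),(25,0),(0,0)]⟩⟩,⟨true,0,⟨0,
  [(19,0)]⟩,⟨0,[(4,0)]⟩⟩,⟨false,0,⟨3,[(0,1),(2,0),(2,0),(9,1),(17,0)]⟩,⟨3,[(2,1),(2,1),(13,1),(13,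
  0),(0,2)]⟩⟩,⟨true,0,⟨0,[(3,0)]⟩,⟨0,[(2,0)]⟩⟩,⟨false,0,⟨0,[]⟩,⟨0,[]⟩⟩,⟨false,0,⟨0,[]⟩,⟨0,[]⟩⟩,[.o
  ⟨false,0,⟨0,[(31,0)]⟩,⟨3,[(2,1),(3,1),(5,0),(0,0),(20,0)]⟩⟩,.a ⟨true,0,⟨0,[(1,0)]⟩,⟨0,[(32,0)]⟩⟩
  ⟨true,0,⟨0,[]⟩,⟨1,[(19,0),(0,0)]⟩⟩ ⟨false,1,⟨11,[(1,7),(3,1),(1,1),(0,3),(10,3),(13,4),(0,0)]⟩,⟨3,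
  [(0,0),(1,1),(3,0),(2,0),(6,0),(15,0)]⟩⟩,.o ⟨false,0,⟨0,[(4,0)]⟩,⟨5,[(8,1),(3,2),(0,2),(5,1),(4,
  0)]⟩⟩,.o ⟨false,0,⟨0,[(20,0)]⟩,⟨3,[(8,1),(3,0),(0,0),(19,0)]⟩⟩]⟩)) (.Q [0,1,0,1,-1,0,-1,-1,0,1,
  -1] (.p false [0,0,1] [1] (⟨0,[(21,0)]⟩,⟨0,[(20,0)]⟩) .k 1 (⟨0,[]⟩,⟨0,[]⟩) .k .k) (.S ⟨1,1,[],[1,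
  1,-1],[1,0,1,0,0,0,0,-1],(⟨0,[(21,0),(4,0)]⟩,⟨0,[(11,0)]⟩),⟨0,[(21,0)]⟩,.k,.k,⟨false,1,⟨0,[(31,0),
  (2,0)]⟩,⟨0,[(32,0)]⟩⟩,⟨true,1,⟨1,[(3,1),(20,0),(9,0)]⟩,⟨0,[(0,0)]⟩⟩,⟨true,0,⟨0,[]⟩,⟨0,[(36,0)]⟩⟩,
  ⟨false,1,⟨1,[(3,0),(2,0),(27,0)]⟩,⟨3,[(0,1),(4,1),(3,0),(6,0),(2,0),(14,1)]⟩⟩,[.fo,.o ⟨false,1,⟨1,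
  [(24,0),(9,0)]⟩,⟨0,[(36,0)]⟩⟩,.a ⟨true,0,⟨0,[(16,0)]⟩,⟨0,[(19,0)]⟩⟩ ⟨true,0,⟨0,[(5,0),(23,0)]⟩,⟨0,
  [(1,0),(1,0),(12,0)]⟩⟩ ⟨false,1,⟨1,[(19,1),(4,0),(9,0)]⟩,⟨0,[(16,0)]⟩⟩,.o ⟨false,0,⟨0,[(4,0)]⟩,⟨5,
  [(8,1),(3,2),(0,2),(5,1),(4,0)]⟩⟩]⟩) (.S ⟨1,0,[0,1,1,1,0,0,0,-1],[1,1,-1],[1,0,1,0,0,0,0,-1],(⟨0,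
  [(21,0),(4,0)]⟩,⟨0,[(11,0)]⟩),⟨0,[(21,0)]⟩,.k,.k,⟨false,1,⟨0,[(31,0),(2,0)]⟩,⟨0,[(32,0)]⟩⟩,⟨true,
  0,⟨0,[(36,0)]⟩,⟨0,[]⟩⟩,⟨true,0,⟨0,[]⟩,⟨0,[(36,0)]⟩⟩,⟨false,0,⟨0,[(32,0)]⟩,⟨0,[(31,0),(2,0)]⟩⟩,[.o
  ⟨false,0,⟨0,[(2,0),(33,0)]⟩,⟨0,[(0,0)]⟩⟩,.o ⟨false,0,⟨0,[(2,0)]⟩,⟨2,[(0,0),(2,0),(3,0),(11,0),(4,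
  0)]⟩⟩,.a ⟨true,0,⟨0,[(16,0)]⟩,⟨0,[(19,0)]⟩⟩ ⟨true,0,⟨0,[(5,0),(23,0)]⟩,⟨0,[(1,0),(1,0),(12,0)]⟩⟩
  ⟨false,0,⟨0,[(2,0),(16,0)]⟩,⟨0,[(0,0),(15,0)]⟩⟩,.o ⟨false,0,⟨0,[(4,0)]⟩,⟨5,[(8,1),(3,2),(0,2),(5,
  1),(4,0)]⟩⟩]⟩))) (.R ⟨0,false,false,true,[-1,1,1],[1,1,-1],[0,1,1],(⟨0,[(8,0)]⟩,⟨0,[(19,0),(3,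
  0)]⟩),(⟨0,[(19,0),(4,0)]⟩,⟨0,[(9,0)]⟩),⟨0,[(19,0)]⟩,.k,.k,.k,.k,.k,.k,⟨true,0,⟨0,[(0,0),(1,0)]⟩,
  ⟨0,[(3,0),(23,0),(2,0)]⟩⟩,⟨false,0,⟨1,[(7,0),(6,2),(2,0)]⟩,⟨2,[(6,1),(10,1),(4,0)]⟩⟩,⟨true,0,⟨0,
  [(3,0)]⟩,⟨0,[(0,0),(1,0),(27,1)]⟩⟩,⟨false,0,⟨0,[(3,1),(10,1),(12,1)]⟩,⟨0,[(0,0),(3,0)]⟩⟩,⟨false,0,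
  ⟨0,[]⟩,⟨0,[]⟩⟩,⟨false,0,⟨0,[]⟩,⟨0,[]⟩⟩,[.o ⟨false,0,⟨0,[(16,0),(13,0)]⟩,⟨1,[(0,1),(21,0),(9,0)]⟩⟩,
  .a ⟨true,0,⟨0,[(3,0),(10,0),(12,0),(2,0)]⟩,⟨0,[(0,0)]⟩⟩ ⟨true,0,⟨1,[(17,0),(0,0)]⟩,⟨0,[]⟩⟩ ⟨false,
  0,⟨0,[(14,1),(1,0),(0,0),(9,0)]⟩,⟨0,[(0,0),(1,0),(3,0)]⟩⟩,.o ⟨false,1,⟨0,[(2,0),(3,0)]⟩,⟨0,[(7,0),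
  (9,0)]⟩⟩,.o ⟨false,1,⟨2,[(6,0),(10,0),(4,1)]⟩,⟨1,[(7,0),(6,0),(2,0)]⟩⟩]⟩)) (.R ⟨2,true,false,true,
  [0,1],[0,0,1],[0,1,1,1],(⟨0,[]⟩,⟨0,[]⟩),(⟨0,[(19,0)]⟩,⟨0,[(18,0)]⟩),⟨0,[]⟩,.k,.k,.k,.k,.k,.k,
  ⟨false,0,⟨0,[(0,0),(15,0),(10,0)]⟩,⟨0,[(4,0)]⟩⟩,⟨true,0,⟨0,[(16,0)]⟩,⟨0,[(1,0)]⟩⟩,⟨true,0,⟨0,[(33,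
  0)]⟩,⟨0,[]⟩⟩,⟨false,1,⟨0,[(4,0),(11,0)]⟩,⟨0,[(0,0)]⟩⟩,⟨false,0,⟨0,[(29,0)]⟩,⟨0,[(28,0),(2,0)]⟩⟩,
  ⟨true,0,⟨0,[(14,0)]⟩,⟨1,[(0,0),(0,0),(0,0)]⟩⟩,[]⟩))))

theorem ok1 : chk K t1 l2 = true := by decide +kernel

noncomputable def t2 : Tre :=
  (.I [0,1,-2,-1,0,0,0,-2] (.I [0,-1,-1,-1,1] (.Q [0,0,2,0,-1,0,-1,0,0,2,-1] (.p false [-1,1,1] [1]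
  (⟨0,[(6,0)]⟩,⟨0,[(17,0),(3,0)]⟩) .k 1 (⟨0,[]⟩,⟨0,[]⟩) .k .k) (.I [0,0,-1,-1,0,0,0,-2] (.K ⟨0,[2,
  -1,-1],(-1),(-1),(⟨0,[(19,0),(3,0)]⟩,⟨0,[(8,0)]⟩),.k,(.r (-1) ⟨1,[(2,1),(0,0),(25,0)]⟩ ⟨0,[(15,0),
  (2,0),(8,0),(2,0)]⟩),.k,(.r 0 ⟨0,[(0,0)]⟩ ⟨7,[(5,3),(1,5),(2,0),(0,0),(3,11),(6,2),(4,11)]⟩),.k,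
  [⟨0,[(6,0)]⟩,⟨0,[(1,0)]⟩,⟨0,[(15,0),(6,0),(7,0)]⟩,⟨0,[(4,0)]⟩]⟩) (.I [0,0,1,0,-1,1,-2] (.K ⟨0,[2,
  -1,-1],(-1),(-1),(⟨0,[(20,0),(3,0)]⟩,⟨0,[(9,0)]⟩),.k,(.r (-1) ⟨1,[(3,1),(0,0),(25,0)]⟩ ⟨4,[(1,3),
  (15,2),(0,2),(9,2),(2,2)]⟩),.k,(.x 1 ⟨0,[(0,0)]⟩ ⟨1,[(7,1),(3,0),(0,0),(7,3),(2,0),(0,1)]⟩),.k,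
  [⟨0,[(7,0)]⟩,⟨0,[(2,0)]⟩,⟨5,[(1,2),(5,1),(10,1),(4,3),(2,2),(4,2)]⟩,⟨0,[(5,0)]⟩]⟩) (.I [0,0,-1,0,
  1,-1,2] (.K ⟨0,[2,-1,-1],(-1),(-1),(⟨0,[(21,0),(3,0)]⟩,⟨0,[(10,0)]⟩),.k,(.r (-1) ⟨1,[(4,1),(0,0),
  (25,0)]⟩ ⟨4,[(2,3),(15,2),(0,2),(9,2),(2,2)]⟩),.k,(.x 0 ⟨4,[(3,0),(5,2),(0,4),(1,0),(0,0),(6,2),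
  (1,4)]⟩ ⟨0,[(0,0)]⟩),.k,[⟨0,[(8,0)]⟩,⟨0,[(3,0)]⟩,⟨5,[(2,2),(5,1),(10,1),(4,3),(2,2),(4,2)]⟩,⟨0,
  [(6,0)]⟩]⟩) (.I [0,0,1,1,0,0,0,2] (.K ⟨0,[2,-1,-1],(-1),(-1),(⟨0,[(22,0),(3,0)]⟩,⟨0,[(11,0)]⟩),.k,
  (.r (-1) ⟨1,[(5,1),(0,0),(25,0)]⟩ ⟨4,[(0,3),(18,2),(0,2),(9,2),(2,2)]⟩),.k,(.r (-1) ⟨5,[(5,1),(0,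
  3),(6,0),(0,0),(4,3),(0,3),(14,2)]⟩ ⟨0,[(0,0)]⟩),.k,[⟨0,[(9,0)]⟩,⟨0,[(4,0)]⟩,⟨5,[(0,2),(8,1),(10,
  1),(4,3),(2,2),(4,2)]⟩,⟨0,[(7,0)]⟩]⟩) (.I [1,1,0,1,-1,0,0,-1] (.I [0,-1,1,1] (.Q [0,-1,0,0,0,0,-1,
  -1,0,1,-1] (.p false [0,0,1] [1] (⟨0,[(25,0)]⟩,⟨0,[(24,0)]⟩) .k 1 (⟨0,[]⟩,⟨0,[]⟩) .k .k) (.R ⟨2,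
  true,false,false,[0,1],[1,0,-1],[1,0,0,0,0,0,0,-1],(⟨0,[]⟩,⟨0,[]⟩),(⟨0,[(25,0)]⟩,⟨0,[(26,0)]⟩),⟨0,
  []⟩,.k,.k,.k,.k,.k,.k,⟨true,0,⟨0,[]⟩,⟨2,[(7,0),(15,0),(4,0)]⟩⟩,⟨false,0,⟨2,[(7,0),(5,0),(23,0)]⟩,
  ⟨3,[(12,1),(3,0),(0,0),(19,0)]⟩⟩,⟨false,1,⟨3,[(3,1),(4,1),(7,0),(0,0),(20,0)]⟩,⟨4,[(6,2),(15,0),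
  (0,0),(9,0),(2,0)]⟩⟩,⟨true,0,⟨3,[(3,0),(3,0),(0,1),(1,0),(11,0),(1,0)]⟩,⟨3,[(2,1),(3,2),(5,1),(21,
  0),(0,0)]⟩⟩,⟨true,0,⟨0,[(2,0),(5,0)]⟩,⟨5,[(6,2),(0,0),(15,0),(4,0),(6,2),(4,2)]⟩⟩,⟨false,0,⟨0,[(0,
  0)]⟩,⟨5,[(6,1),(4,1),(0,1),(3,0),(0,0),(5,1),(4,0)]⟩⟩,[]⟩) (.K ⟨0,[1,1,-1],0,(-1),(⟨0,[(25,0),(4,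
  0)]⟩,⟨0,[(15,0)]⟩),.k,.k,(.r 1 ⟨2,[(2,2),(4,0),(15,0),(4,0),(4,2)]⟩ ⟨5,[(8,1),(0,0),(1,7),(4,1),
  (0,1),(17,0)]⟩),(.x (-1) ⟨1,[(13,1),(1,1),(10,1),(1,0),(8,0)]⟩ ⟨0,[(0,3),(2,1),(0,0),(20,3),(7,1),
  (4,0)]⟩),.k,[⟨0,[(0,2),(2,0),(6,0),(22,1),(4,0)]⟩,⟨2,[(7,0),(5,0),(23,0)]⟩,⟨1,[(11,0),(9,0),(1,0),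
  (4,0),(6,0)]⟩,⟨2,[(2,1),(7,0),(2,0),(22,1)]⟩]⟩)) (.Q [0,0,0,-1,0,0,0,0,0,1] (.pp false [-1,1])
  (.R ⟨2,true,false,false,[0,1],[1,-1],[0,0,0,-1],(⟨0,[]⟩,⟨0,[]⟩),(⟨0,[(29,0)]⟩,⟨0,[(30,0)]⟩),⟨0,
  []⟩,.k,.k,.k,(.r 0 ⟨4,[(6,1),(15,3),(0,3),(9,3),(2,3)]⟩ ⟨0,[(1,0),(6,0)]⟩),.k,.k,⟨true,0,⟨2,[(7,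
  0),(15,0),(4,0)]⟩,⟨0,[]⟩⟩,⟨false,0,⟨3,[(7,1),(8,0),(0,0),(5,1),(13,0)]⟩,⟨1,[(1,0),(0,3),(3,1),(1,
  4),(19,0)]⟩⟩,⟨true,1,⟨0,[(8,0),(26,0)]⟩,⟨4,[(2,4),(3,2),(15,0),(0,0),(9,0),(2,0)]⟩⟩,⟨false,1,⟨1,
  [(0,3),(27,0),(9,0)]⟩,⟨1,[(2,3),(3,1),(1,1),(19,0),(9,0)]⟩⟩,⟨false,1,⟨0,[(8,0)]⟩,⟨4,[(6,0),(15,1),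
  (0,1),(9,1),(2,1)]⟩⟩,⟨true,0,⟨0,[(0,0)]⟩,⟨3,[(2,1),(3,0),(21,1),(2,0),(4,0)]⟩⟩,[]⟩) (.R ⟨2,true,
  false,true,[0,1],[0,0,1],[0,1,1,1],(⟨0,[]⟩,⟨0,[]⟩),(⟨0,[(26,0)]⟩,⟨0,[(25,0)]⟩),⟨0,[]⟩,.k,.k,.k,.k,
  .k,.k,⟨false,0,⟨4,[(3,1),(18,0),(0,0),(9,0),(2,5)]⟩,⟨0,[(11,0)]⟩⟩,⟨true,0,⟨0,[(23,0)]⟩,⟨0,[(0,1),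
  (0,0),(5,0),(0,0)]⟩⟩,⟨true,0,⟨0,[(40,0)]⟩,⟨0,[]⟩⟩,⟨false,1,⟨0,[(11,0),(11,0)]⟩,⟨1,[(0,2),(2,0),(3,
  0),(12,0),(17,0)]⟩⟩,⟨false,0,⟨0,[(36,0)]⟩,⟨0,[(35,0),(2,0)]⟩⟩,⟨true,0,⟨0,[(21,0)]⟩,⟨6,[(0,1),(2,
  2),(9,1),(8,0),(1,1),(8,0)]⟩⟩,[]⟩))) (.Q [0,0,0,0,0,0,1,0,0,0,1] (.p true [0,0,1] [] (⟨0,[(24,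
  0)]⟩,⟨0,[(23,0)]⟩) .k 0 (⟨0,[]⟩,⟨0,[]⟩) .k .k) (.I [0,0,0,-1,0,0,0,-1] (.I [1,0,2,1,-1,0,0,-1]
  (.S ⟨1,0,[0,1,0,0,0,0,0,1],[0,0,1],[1,0,0,-1,0,0,0,1],(⟨0,[(27,0)]⟩,⟨0,[(26,0)]⟩),⟨0,[(16,0)]⟩,.k,
  .k,⟨false,1,⟨3,[(1,1),(1,1),(13,0),(0,0),(20,0)]⟩,⟨0,[(37,0)]⟩⟩,⟨true,0,⟨0,[(41,0)]⟩,⟨0,[]⟩⟩,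
  ⟨true,0,⟨0,[]⟩,⟨0,[(41,0)]⟩⟩,⟨false,0,⟨0,[(37,0)]⟩,⟨3,[(1,1),(1,1),(13,0),(0,0),(20,0)]⟩⟩,[.a
  ⟨true,0,⟨0,[(22,0)]⟩,⟨1,[(0,0),(0,0),(19,1),(17,0)]⟩⟩ ⟨false,1,⟨0,[(12,0)]⟩,⟨0,[(0,0),(37,0)]⟩⟩
  ⟨true,0,⟨1,[(7,0),(27,0),(0,0)]⟩,⟨1,[(0,0),(0,0),(37,0)]⟩⟩,.o ⟨false,1,⟨5,[(7,1),(4,1),(0,1),(3,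
  0),(0,0),(5,1),(4,0)]⟩,⟨2,[(0,0),(3,0),(9,0),(6,0),(7,0)]⟩⟩,.a ⟨true,0,⟨0,[(2,0)]⟩,⟨2,[(8,0),(5,
  0),(23,0)]⟩⟩ ⟨false,1,⟨0,[(3,0)]⟩,⟨0,[(0,0),(37,0)]⟩⟩ ⟨true,0,⟨1,[(7,0),(27,0),(0,0)]⟩,⟨13,[(0,3),
  (3,3),(18,1),(0,1),(13,2),(0,0)]⟩⟩,.a ⟨true,0,⟨0,[(24,0)]⟩,⟨0,[(21,0)]⟩⟩ ⟨true,1,⟨0,[(12,0)]⟩,⟨0,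
  [(0,0),(34,0)]⟩⟩ ⟨false,1,⟨5,[(7,1),(4,1),(4,0),(0,0),(19,2)]⟩,⟨1,[(0,0),(0,0),(37,0)]⟩⟩]⟩) (.Q
  [0,-1,0,1,1,0,0,1,0,-1] (.pp true [-1,1]) (.R ⟨0,false,false,true,[1,0,-1],[2,-1,-1],[0,1],(⟨0,
  [(27,0)]⟩,⟨0,[(28,0)]⟩),(⟨0,[(27,0),(3,0)]⟩,⟨0,[(16,0)]⟩),⟨0,[(16,0)]⟩,.k,.k,.k,.k,.k,.k,⟨true,0,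
  ⟨4,[(8,2),(15,0),(0,0),(9,0),(2,0)]⟩,⟨0,[(2,0)]⟩⟩,⟨false,0,⟨1,[(3,0),(5,0),(29,0)]⟩,⟨1,[(30,0),(8,
  0)]⟩⟩,⟨true,0,⟨1,[(8,0),(27,0),(0,0)]⟩,⟨4,[(5,1),(18,0),(0,0),(9,0),(2,0)]⟩⟩,⟨false,0,⟨1,[(3,0),
  (0,0),(7,0)]⟩,⟨1,[(30,0),(7,1),(1,0)]⟩⟩,⟨false,0,⟨0,[]⟩,⟨0,[]⟩⟩,⟨false,0,⟨0,[]⟩,⟨0,[]⟩⟩,[.e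
  ⟨false,0,⟨0,[(36,0)]⟩,⟨1,[(18,0),(0,0),(20,0)]⟩⟩ ⟨false,0,⟨23,[(11,7),(0,11),(0,3),(4,0),(0,0),(5,
  11),(7,1),(5,6)]⟩,⟨0,[(0,0)]⟩⟩,.o ⟨false,0,⟨6,[(2,2),(1,0),(7,2),(2,0),(8,1),(15,1)]⟩,⟨1,[(8,0),
  (5,0),(15,0),(7,0)]⟩⟩,.a ⟨true,0,⟨2,[(9,0),(5,0),(23,0)]⟩,⟨0,[(3,0)]⟩⟩ ⟨true,0,⟨0,[(42,0)]⟩,⟨0,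
  []⟩⟩ ⟨false,0,⟨7,[(5,1),(4,1),(1,3),(5,0),(0,0),(5,3),(14,0)]⟩,⟨0,[(0,0)]⟩⟩,.o ⟨false,0,⟨0,[(26,
  0)]⟩,⟨3,[(14,1),(3,0),(0,0),(19,0)]⟩⟩]⟩) (.R ⟨0,false,false,true,[1,0,-1],[2,-1,-1],[0,1],(⟨0,
  [(27,0)]⟩,⟨0,[(28,0)]⟩),(⟨0,[(27,0),(3,0)]⟩,⟨0,[(16,0)]⟩),⟨0,[(16,0)]⟩,.k,.k,.k,.k,.k,.k,⟨true,0,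
  ⟨4,[(8,2),(15,0),(0,0),(9,0),(2,0)]⟩,⟨0,[(2,0)]⟩⟩,⟨false,0,⟨1,[(3,0),(5,0),(29,0)]⟩,⟨1,[(30,0),(8,
  0)]⟩⟩,⟨true,0,⟨1,[(8,0),(27,0),(0,0)]⟩,⟨4,[(5,1),(18,0),(0,0),(9,0),(2,0)]⟩⟩,⟨false,0,⟨1,[(3,0),
  (0,0),(7,0)]⟩,⟨1,[(30,0),(7,1),(1,0)]⟩⟩,⟨false,0,⟨0,[]⟩,⟨0,[]⟩⟩,⟨false,0,⟨0,[]⟩,⟨0,[]⟩⟩,[.a ⟨true,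
  (-1),⟨0,[(12,0)]⟩,⟨1,[(8,0),(5,0),(23,0),(1,0)]⟩⟩ ⟨false,0,⟨0,[(36,0)]⟩,⟨1,[(18,0),(0,0),(20,
  0)]⟩⟩ ⟨true,(-1),⟨0,[(0,0)]⟩,⟨3,[(8,1),(9,0),(0,0),(10,1),(4,1),(4,0)]⟩⟩,.o ⟨false,0,⟨6,[(2,2),(1,
  0),(7,2),(2,0),(8,1),(15,1)]⟩,⟨1,[(8,0),(5,0),(15,0),(7,0)]⟩⟩,.e ⟨true,0,⟨0,[(42,0)]⟩,⟨0,[]⟩⟩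
  ⟨true,(-1),⟨0,[(0,0)]⟩,⟨3,[(8,1),(9,0),(0,0),(10,1),(7,1),(0,0)]⟩⟩,.o ⟨false,0,⟨0,[(26,0)]⟩,⟨3,
  [(14,1),(3,0),(0,0),(19,0)]⟩⟩]⟩))) (.S ⟨1,0,[0,0,0,0,0,0,0,1],[0,0,1],[1],(⟨0,[(26,0)]⟩,⟨0,[(25,
  0)]⟩),⟨0,[(15,0)]⟩,.k,.k,⟨true,0,⟨4,[(3,1),(18,0),(0,0),(9,0),(2,0)]⟩,⟨1,[(6,0),(27,0),(0,0)]⟩⟩,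
  ⟨false,1,⟨1,[(16,0),(0,0),(20,0)]⟩,⟨0,[]⟩⟩,⟨false,0,⟨0,[(0,0),(2,0),(29,0)]⟩,⟨2,[(7,0),(3,2),(11,
  0),(4,0)]⟩⟩,⟨true,0,⟨0,[(36,0)]⟩,⟨0,[(35,0)]⟩⟩,[.o ⟨false,1,⟨5,[(6,1),(4,1),(0,1),(3,0),(0,0),(5,
  1),(4,0)]⟩,⟨0,[(0,0),(2,0),(20,0)]⟩⟩,.e ⟨false,1,⟨1,[(37,0),(0,0)]⟩,⟨0,[(40,0)]⟩⟩ ⟨false,1,⟨0,[(0,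
  0),(7,0)]⟩,⟨8,[(9,1),(12,4),(0,4),(7,0),(4,1)]⟩⟩,.a ⟨true,0,⟨0,[(1,0)]⟩,⟨2,[(7,0),(5,0),(23,0)]⟩⟩
  ⟨true,0,⟨0,[]⟩,⟨0,[(40,0)]⟩⟩ ⟨false,1,⟨5,[(6,1),(4,1),(4,0),(0,0),(20,2)]⟩,⟨4,[(3,1),(18,0),(0,0),
  (9,0),(2,0)]⟩⟩,.e ⟨false,1,⟨1,[(37,0),(0,0)]⟩,⟨2,[(7,0),(15,0),(4,0)]⟩⟩ ⟨false,1,⟨0,[(0,0),(7,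
  0)]⟩,⟨8,[(3,2),(3,1),(14,2),(0,4),(4,1),(4,2)]⟩⟩]⟩)) (.Q [0,-1,0,1,0,0,-1,-1,0,0,-1] (.p false [0,
  0,1] [] (⟨0,[(25,0)]⟩,⟨0,[(24,0)]⟩) .k 0 (⟨0,[]⟩,⟨0,[]⟩) .k .k) (.R ⟨2,true,false,true,[0,1],[0,0,
  1],[0,1,1,1],(⟨0,[]⟩,⟨0,[]⟩),(⟨0,[(26,0)]⟩,⟨0,[(25,0)]⟩),⟨0,[]⟩,.k,.k,.k,.k,.k,.k,⟨false,0,⟨7,[(0,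
  2),(8,1),(12,0),(0,3),(12,6)]⟩,⟨0,[(11,0)]⟩⟩,⟨true,0,⟨0,[(23,0)]⟩,⟨0,[(1,0)]⟩⟩,⟨true,0,⟨0,[(40,
  0)]⟩,⟨0,[]⟩⟩,⟨false,1,⟨0,[(11,0),(11,0)]⟩,⟨0,[(0,0)]⟩⟩,⟨false,0,⟨0,[(36,0)]⟩,⟨3,[(2,2),(0,0),(18,
  0),(0,0),(14,0)]⟩⟩,⟨true,0,⟨0,[(21,0)]⟩,⟨3,[(0,0),(0,0),(1,0),(18,0),(1,0)]⟩⟩,[]⟩) (.R ⟨0,false,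
  false,true,[1,0,-1],[1,-1],[0,1,1],(⟨0,[(25,0)]⟩,⟨0,[(26,0)]⟩),(⟨0,[(29,0)]⟩,⟨0,[(30,0)]⟩),⟨0,
  [(14,0)]⟩,.k,.k,.k,.k,.k,.k,⟨false,0,⟨4,[(6,0),(15,1),(0,1),(9,1),(2,1)]⟩,⟨3,[(8,0),(0,0),(1,1),
  (0,0),(7,1)]⟩⟩,⟨true,0,⟨0,[(23,0)]⟩,⟨0,[(1,0)]⟩⟩,⟨false,0,⟨0,[(0,0),(0,0),(31,0)]⟩,⟨4,[(3,1),(18,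
  0),(0,0),(12,1),(0,1),(0,2)]⟩⟩,⟨true,0,⟨0,[(0,0)]⟩,⟨2,[(1,1),(1,0),(18,0),(10,0),(2,2)]⟩⟩,⟨false,
  0,⟨0,[]⟩,⟨0,[]⟩⟩,⟨false,0,⟨0,[]⟩,⟨0,[]⟩⟩,[.o ⟨false,0,⟨0,[(35,0)]⟩,⟨1,[(28,0),(7,1),(1,0)]⟩⟩,.a
  ⟨true,0,⟨1,[(0,0),(9,0),(27,0)]⟩,⟨0,[(36,0)]⟩⟩ ⟨true,0,⟨2,[(7,0),(15,0),(4,0)]⟩,⟨0,[]⟩⟩ ⟨false,1,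
  ⟨4,[(0,0),(7,1),(0,0),(1,0),(11,3),(13,1)]⟩,⟨0,[(1,0),(34,0)]⟩⟩,.o ⟨false,0,⟨0,[(1,0)]⟩,⟨5,[(12,
  1),(3,2),(0,2),(5,1),(4,0)]⟩⟩,.o ⟨false,0,⟨0,[(24,0)]⟩,⟨3,[(12,1),(3,0),(0,0),(19,0)]⟩⟩]⟩))))))))
  (.Q [0,0,0,0,0,0,1,0,0,0,1] (.p true [0,0,1] [] (⟨0,[(19,0)]⟩,⟨0,[(18,0)]⟩) .k 0 (⟨0,[]⟩,⟨0,[]⟩)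
  .k .k) (.I [0,0,0,-1,0,0,0,-1] (.Q [0,0,0,-1,0,0,0,0,0,1] (.pp false [-1,1]) (.I [0,0,-1,-1,0,0,0,
  -1] (.R ⟨0,false,false,true,[-1,1,1],[0,0,1],[0,1,1,0,0,0,0,1],(⟨0,[(11,0)]⟩,⟨0,[(22,0),(3,0)]⟩),
  (⟨0,[(23,0)]⟩,⟨0,[(22,0)]⟩),⟨0,[(22,0)]⟩,.k,.k,.k,.k,.k,.k,⟨true,0,⟨1,[(20,0),(0,0)]⟩,⟨0,[]⟩⟩,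
  ⟨false,0,⟨0,[(17,0),(2,0)]⟩,⟨1,[(25,0),(8,0)]⟩⟩,⟨true,0,⟨0,[(32,0)]⟩,⟨0,[(33,0)]⟩⟩,⟨false,0,⟨0,
  [(1,0)]⟩,⟨1,[(25,0),(7,1),(1,0)]⟩⟩,⟨false,0,⟨0,[]⟩,⟨0,[]⟩⟩,⟨false,0,⟨0,[]⟩,⟨0,[]⟩⟩,[.a ⟨true,0,⟨0,
  [(18,0)]⟩,⟨6,[(0,2),(5,0),(0,1),(2,1),(6,0),(12,5),(4,1)]⟩⟩ ⟨true,0,⟨0,[(18,0),(2,0)]⟩,⟨0,[(0,0),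
  (29,0)]⟩⟩ ⟨false,0,⟨1,[(10,0),(6,0),(0,1),(1,0)]⟩,⟨6,[(0,0),(3,1),(1,2),(3,0),(14,1),(4,3),(4,
  2)]⟩⟩,.o ⟨false,1,⟨1,[(18,1),(6,0),(9,0)]⟩,⟨0,[(0,0),(20,0),(11,0)]⟩⟩,.o ⟨false,1,⟨2,[(4,0),(4,0),
  (15,0)]⟩,⟨0,[(10,0),(9,0)]⟩⟩,.o ⟨false,1,⟨2,[(9,0),(10,0),(4,1)]⟩,⟨1,[(10,0),(6,0),(2,0)]⟩⟩]⟩)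
  (.R ⟨0,false,false,true,[-1,1,1],[0,0,1],[1,0,1,1,0,0,0,1],(⟨0,[(11,0)]⟩,⟨0,[(22,0),(3,0)]⟩),(⟨0,
  [(23,0)]⟩,⟨0,[(22,0)]⟩),⟨0,[(22,0)]⟩,.k,.k,.k,.k,.k,.k,⟨true,0,⟨0,[(30,0)]⟩,⟨0,[(32,0)]⟩⟩,⟨false,
  0,⟨0,[(17,0),(2,0)]⟩,⟨1,[(25,0),(8,0)]⟩⟩,⟨true,0,⟨0,[]⟩,⟨0,[(37,0)]⟩⟩,⟨false,0,⟨0,[(1,0)]⟩,⟨1,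
  [(25,0),(7,1),(1,0)]⟩⟩,⟨false,0,⟨0,[]⟩,⟨0,[]⟩⟩,⟨false,0,⟨0,[]⟩,⟨0,[]⟩⟩,[.a ⟨true,0,⟨0,[(18,0)]⟩,
  ⟨0,[(2,0),(14,0),(12,0)]⟩⟩ ⟨true,0,⟨0,[(0,0)]⟩,⟨0,[(2,0)]⟩⟩ ⟨false,0,⟨3,[(0,2),(6,1),(0,0),(9,1),
  (15,0)]⟩,⟨4,[(2,0),(1,1),(1,1),(3,0),(14,0),(4,2),(4,1)]⟩⟩,.o ⟨false,1,⟨5,[(0,2),(7,2),(0,1),(10,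
  1),(4,0)]⟩,⟨0,[(4,0),(2,0),(13,0),(8,0)]⟩⟩,.o ⟨false,1,⟨2,[(4,0),(4,0),(15,0)]⟩,⟨0,[(10,0),(9,
  0)]⟩⟩,.o ⟨false,1,⟨2,[(9,0),(10,0),(4,1)]⟩,⟨5,[(0,1),(6,1),(2,1),(23,0),(0,0)]⟩⟩]⟩)) (.R ⟨0,false,
  false,false,[1,0,-1],[0,1],[0,1,1],(⟨0,[(21,0)]⟩,⟨0,[(22,0)]⟩),(⟨0,[(26,0)]⟩,⟨0,[(25,0)]⟩),⟨0,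
  [(10,0)]⟩,.k,.k,.k,.k,.k,.k,⟨true,0,⟨0,[(31,0)]⟩,⟨0,[(29,0)]⟩⟩,⟨false,1,⟨1,[(2,0),(0,0),(29,0)]⟩,
  ⟨0,[(9,0),(9,0)]⟩⟩,⟨true,0,⟨0,[(17,0),(2,0)]⟩,⟨0,[(3,0),(2,0),(22,0)]⟩⟩,⟨false,1,⟨1,[(3,0),(3,0),
  (9,0),(11,2)]⟩,⟨3,[(1,0),(2,0),(1,1),(11,0),(1,0),(13,0)]⟩⟩,⟨false,0,⟨0,[]⟩,⟨0,[]⟩⟩,⟨false,0,⟨0,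
  []⟩,⟨0,[]⟩⟩,[.o ⟨false,0,⟨0,[(0,0)]⟩,⟨1,[(12,0),(0,0),(17,1),(2,0)]⟩⟩,.o ⟨false,1,⟨1,[(24,0),(7,
  1),(1,0)]⟩,⟨0,[(31,0)]⟩⟩,.a ⟨true,0,⟨1,[(9,0),(6,0),(2,0)]⟩,⟨0,[(2,0)]⟩⟩ ⟨false,0,⟨1,[(19,0),(0,
  0)]⟩,⟨1,[(33,0),(0,0)]⟩⟩ ⟨true,0,⟨0,[(0,0),(1,0)]⟩,⟨3,[(6,0),(0,0),(1,1),(9,0),(11,1),(4,0)]⟩⟩,.o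
  ⟨false,0,⟨0,[(20,0)]⟩,⟨3,[(8,1),(3,0),(0,0),(19,0)]⟩⟩]⟩)) (.S ⟨1,0,[0,0,0,0,0,0,0,1],[0,0,1],[1],
  (⟨0,[(21,0)]⟩,⟨0,[(20,0)]⟩),⟨0,[(10,0)]⟩,.k,.k,⟨true,0,⟨3,[(4,1),(13,0),(0,0),(8,1)]⟩,⟨0,[(0,0),
  (29,0)]⟩⟩,⟨false,1,⟨1,[(11,0),(0,0),(20,0)]⟩,⟨0,[]⟩⟩,⟨false,0,⟨0,[(2,0),(2,0),(22,1)]⟩,⟨1,[(6,1),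
  (11,0),(0,0)]⟩⟩,⟨true,0,⟨0,[(31,0)]⟩,⟨0,[(30,0)]⟩⟩,[.o ⟨false,1,⟨1,[(16,1),(6,0),(9,0)]⟩,⟨0,[(2,
  0),(2,0),(13,0),(8,0)]⟩⟩,.e ⟨false,1,⟨1,[(32,0),(0,0)]⟩,⟨0,[(35,0)]⟩⟩ ⟨false,1,⟨0,[(0,0),(2,0)]⟩,
  ⟨8,[(4,1),(12,4),(0,4),(7,0),(4,1)]⟩⟩,.a ⟨true,0,⟨0,[(1,0)]⟩,⟨1,[(8,0),(6,0),(2,0)]⟩⟩ ⟨true,0,⟨0,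
  []⟩,⟨0,[(35,0)]⟩⟩ ⟨false,1,⟨3,[(0,1),(5,1),(11,0),(0,0),(13,1)]⟩,⟨3,[(4,1),(13,0),(0,0),(8,1)]⟩⟩,
  .e ⟨false,1,⟨1,[(32,0),(0,0)]⟩,⟨1,[(18,0),(0,0)]⟩⟩ ⟨false,1,⟨0,[(0,0),(2,0)]⟩,⟨3,[(4,1),(13,2),(0,
  2),(8,1)]⟩⟩]⟩)) (.R ⟨2,true,false,true,[0,1],[0,0,1],[0,1,1,1],(⟨0,[]⟩,⟨0,[]⟩),(⟨0,[(20,0)]⟩,⟨0,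
  [(19,0)]⟩),⟨0,[]⟩,.k,.k,.k,.k,.k,.k,⟨false,0,⟨4,[(3,1),(12,0),(0,0),(9,2),(2,3)]⟩,⟨0,[(5,0)]⟩⟩,
  ⟨true,0,⟨0,[(17,0)]⟩,⟨0,[(0,0)]⟩⟩,⟨true,0,⟨0,[(34,0)]⟩,⟨0,[]⟩⟩,⟨false,1,⟨0,[(5,0),(11,0)]⟩,⟨0,[(0,
  0),(0,0),(2,0),(22,1)]⟩⟩,⟨false,0,⟨0,[(30,0)]⟩,⟨0,[(29,0),(2,0)]⟩⟩,⟨true,0,⟨0,[(15,0)]⟩,⟨1,[(0,0),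
  (2,0),(14,0),(8,0)]⟩⟩,[]⟩))) (.Q [0,0,0,1,-1,0,-1,-1,0,1,-1] (.p false [0,0,1] [1] (⟨0,[(18,0)]⟩,
  ⟨0,[(17,0)]⟩) .k 1 (⟨0,[]⟩,⟨0,[]⟩) .k .k) (.R ⟨2,true,false,true,[0,1],[1,1,-1],[1,1,1,1,0,0,0,
  -1],(⟨0,[]⟩,⟨0,[]⟩),(⟨0,[(18,0),(4,0)]⟩,⟨0,[(8,0)]⟩),⟨0,[]⟩,.k,.k,.k,.k,.k,.k,⟨true,0,⟨0,[]⟩,⟨1,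
  [(16,0),(0,0)]⟩⟩,⟨false,0,⟨0,[(13,0)]⟩,⟨5,[(5,1),(3,2),(0,2),(5,1),(4,0)]⟩⟩,⟨false,0,⟨3,[(2,1),
  (13,0),(0,0),(8,1)]⟩,⟨0,[(1,0),(2,0),(26,0)]⟩⟩,⟨true,(-1),⟨0,[(0,0),(27,0)]⟩,⟨1,[(14,1),(6,0),(9,
  0)]⟩⟩,⟨true,(-1),⟨3,[(0,1),(0,2),(0,0),(2,0)]⟩,⟨1,[(4,1),(11,0),(0,0)]⟩⟩,⟨false,(-1),⟨0,[(0,0)]⟩,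
  ⟨1,[(4,1),(11,1),(4,0),(9,0)]⟩⟩,[]⟩) (.I [1,1,0,1,-1,0,0,-1] (.S ⟨1,0,[0,0,1,1,0,0,0,-1],[1,1,-1],
  [0,0,1],(⟨0,[(19,0),(4,0)]⟩,⟨0,[(9,0)]⟩),⟨0,[(19,0)]⟩,.k,.k,⟨true,1,⟨1,[(1,0),(3,0),(1,0),(9,0)]⟩,
  ⟨0,[(0,0)]⟩⟩,⟨false,1,⟨1,[(10,0),(0,0),(20,0)]⟩,⟨0,[]⟩⟩,⟨false,1,⟨0,[(1,0),(0,0),(11,0),(17,0)]⟩,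
  ⟨3,[(3,1),(13,0),(0,0),(8,1)]⟩⟩,⟨true,0,⟨0,[(30,0)]⟩,⟨0,[(29,0)]⟩⟩,[.o ⟨false,0,⟨5,[(0,3),(6,1),
  (8,1),(5,0),(7,1),(1,2)]⟩,⟨0,[(1,0)]⟩⟩,.e ⟨false,1,⟨1,[(10,0),(0,0),(20,0)]⟩,⟨0,[(28,0)]⟩⟩ ⟨false,
  0,⟨0,[(0,0),(31,0)]⟩,⟨0,[(5,0),(28,0)]⟩⟩,.a ⟨true,0,⟨0,[(14,0)]⟩,⟨0,[(17,0)]⟩⟩ ⟨true,0,⟨1,[(17,0),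
  (0,0)]⟩,⟨0,[(28,0)]⟩⟩ ⟨false,0,⟨3,[(3,1),(13,0),(0,0),(8,5)]⟩,⟨0,[(5,0)]⟩⟩,.e ⟨false,1,⟨1,[(10,0),
  (0,0),(20,0)]⟩,⟨0,[]⟩⟩ ⟨false,0,⟨0,[(0,0),(31,0)]⟩,⟨1,[(1,0),(3,0),(1,0),(9,0)]⟩⟩]⟩) (.Q [0,-1,0,
  0,0,0,-2,-1,0,1,-2] (.p false [0,0,1] [1,0,-1] (⟨0,[(20,0)]⟩,⟨0,[(19,0)]⟩) .k 2 (⟨0,[(19,0)]⟩,⟨0,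
  [(20,0)]⟩) .k (.r (-1) ⟨0,[(0,3),(1,4),(0,0),(2,0),(7,1),(17,0)]⟩ ⟨1,[(3,1),(13,0),(0,0),(8,
  1)]⟩)) (.Q [0,-1,0,0,0,0,-1,-1,0,1,-1] (.p false [0,0,1] [1] (⟨0,[(21,0)]⟩,⟨0,[(20,0)]⟩) .k 1 (⟨0,
  []⟩,⟨0,[]⟩) .k .k) (.R ⟨2,true,false,false,[0,1],[1,0,-1],[1,0,1],(⟨0,[]⟩,⟨0,[]⟩),(⟨0,[(21,0)]⟩,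
  ⟨0,[(22,0)]⟩),⟨0,[]⟩,.k,.k,.k,.k,.k,.k,⟨true,0,⟨0,[(2,0),(1,0)]⟩,⟨9,[(1,1),(2,0),(0,3),(13,3),(4,
  0),(4,2)]⟩⟩,⟨false,0,⟨1,[(9,0),(6,0),(2,0)]⟩,⟨3,[(8,1),(3,0),(0,0),(19,0)]⟩⟩,⟨false,1,⟨0,[(31,0),
  (2,0)]⟩,⟨0,[(32,0)]⟩⟩,⟨true,0,⟨1,[(6,1),(17,0),(9,0)]⟩,⟨0,[(2,0),(1,1),(3,0),(7,0)]⟩⟩,⟨true,0,⟨0,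
  []⟩,⟨0,[(36,0)]⟩⟩,⟨false,0,⟨0,[(0,0)]⟩,⟨1,[(17,1),(6,0),(9,0)]⟩⟩,[]⟩) (.K ⟨0,[2,-1,-1],(-1),(-1),
  (⟨0,[(21,0),(3,0)]⟩,⟨0,[(10,0)]⟩),.k,(.r (-1) ⟨0,[(2,0),(2,0)]⟩ ⟨0,[(17,0),(2,0),(8,0),(2,0)]⟩),
  .k,(.r (-1) ⟨4,[(2,0),(2,3),(6,0),(0,0),(4,2),(0,2),(14,2)]⟩ ⟨0,[(0,0),(1,0),(1,0),(11,0),(12,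
  0)]⟩),.k,[⟨0,[(8,0)]⟩,⟨0,[(2,0),(1,0),(1,0),(22,0)]⟩,⟨0,[(17,0),(6,0),(7,0)]⟩,⟨0,[(6,0)]⟩]⟩)) (.I
  [1,-1,-1,0,1,0,0,1] (.K ⟨0,[2,-1,-1],(-1),(-1),(⟨0,[(21,0),(3,0)]⟩,⟨0,[(10,0)]⟩),.k,(.r (-1) ⟨0,
  [(2,0),(2,0)]⟩ ⟨0,[(17,0),(2,0),(8,0),(2,0)]⟩),.k,(.r (-1) ⟨4,[(2,0),(2,3),(6,0),(0,0),(4,2),(0,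
  2),(14,2)]⟩ ⟨0,[(0,0),(1,0),(1,1)]⟩),.k,[⟨0,[(8,0)]⟩,⟨0,[(2,0),(1,0),(1,0),(22,0)]⟩,⟨0,[(17,0),(6,
  0),(7,0)]⟩,⟨0,[(6,0)]⟩]⟩) (.R ⟨2,true,false,false,[0,1],[1,0,-1],[1,0,1],(⟨0,[]⟩,⟨0,[]⟩),(⟨0,[(21,
  0)]⟩,⟨0,[(22,0)]⟩),⟨0,[]⟩,.k,.k,.k,.k,.k,.k,⟨true,0,⟨0,[(2,0),(1,0)]⟩,⟨5,[(0,0),(4,1),(12,0),(0,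
  0),(9,1),(4,0)]⟩⟩,⟨false,0,⟨1,[(9,0),(6,0),(2,0)]⟩,⟨3,[(8,1),(3,0),(0,0),(19,0)]⟩⟩,⟨false,1,⟨0,
  [(31,0),(2,0)]⟩,⟨0,[(32,0)]⟩⟩,⟨true,0,⟨1,[(6,1),(17,0),(9,0)]⟩,⟨1,[(1,1),(2,0),(11,1),(7,0),(4,
  0)]⟩⟩,⟨true,0,⟨0,[]⟩,⟨0,[(36,0)]⟩⟩,⟨false,0,⟨0,[(0,0),(15,0),(17,0)]⟩,⟨1,[(17,1),(6,0),(9,0)]⟩⟩,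
  []⟩)))))) (.I [0,0,-2,-2,1,0,0,-1] (.K ⟨0,[2,-1,-1],(-1),(-1),(⟨0,[(17,0),(3,0)]⟩,⟨0,[(6,0)]⟩),.k,
  (.r (-1) ⟨0,[(0,0)]⟩ ⟨3,[(1,2),(12,1),(0,1),(12,4),(3,0)]⟩),.k,(.r (-1) ⟨2,[(0,2),(1,0),(1,0),(9,
  1),(0,0),(9,2),(2,0)]⟩ ⟨0,[(1,0),(24,0)]⟩),.k,[⟨0,[(4,0)]⟩,⟨3,[(1,1),(0,3),(12,0),(0,0),(8,1)]⟩,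
  ⟨0,[(13,0),(6,0),(7,0)]⟩,⟨0,[(2,0)]⟩]⟩) (.I [0,0,2,0,-1,2,-1] (.K ⟨0,[2,-1,-1],(-1),(-1),(⟨0,[(18,
  0),(3,0)]⟩,⟨0,[(7,0)]⟩),.k,(.x 1 ⟨0,[(0,0)]⟩ ⟨0,[(5,0),(7,0),(4,0),(2,0),(0,1)]⟩),.k,(.r (-1) ⟨0,
  [(3,0),(1,0),(9,0),(15,0)]⟩ ⟨0,[(2,0),(24,0)]⟩),.k,[⟨0,[(5,0)]⟩,⟨3,[(2,1),(0,3),(12,0),(0,0),(8,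
  1)]⟩,⟨0,[(14,0),(6,0),(7,0)]⟩,⟨0,[(3,0)]⟩]⟩) (.I [0,0,-2,0,1,-2,1] (.K ⟨0,[2,-1,-1],(-1),(-1),(⟨0,
  [(19,0),(3,0)]⟩,⟨0,[(8,0)]⟩),.k,(.x 0 ⟨1,[(7,1),(0,1),(8,2),(0,0),(5,1)]⟩ ⟨0,[(0,0)]⟩),.k,(.r
  (-1) ⟨0,[(4,0),(1,0),(9,0),(15,0)]⟩ ⟨0,[(3,0),(24,0)]⟩),.k,[⟨0,[(6,0)]⟩,⟨3,[(3,1),(0,3),(12,0),(0,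
  0),(8,1)]⟩,⟨0,[(15,0),(6,0),(7,0)]⟩,⟨0,[(4,0)]⟩]⟩) (.Q [0,-1,0,0,0,0,-1,-1,0,1,-1] (.p false [0,0,
  1] [1] (⟨0,[(20,0)]⟩,⟨0,[(19,0)]⟩) .k 1 (⟨0,[]⟩,⟨0,[]⟩) .k .k) (.R ⟨2,true,false,false,[0,1],[1,0,
  -1],[1,0,1],(⟨0,[]⟩,⟨0,[]⟩),(⟨0,[(20,0)]⟩,⟨0,[(21,0)]⟩),⟨0,[]⟩,.k,.k,.k,.k,.k,.k,⟨true,0,⟨1,[(4,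
  0),(25,0)]⟩,⟨2,[(0,1),(2,0),(1,1),(1,1),(15,0)]⟩⟩,⟨false,0,⟨13,[(0,0),(3,1),(0,2),(2,2),(2,2),(0,
  2),(2,3),(15,0)]⟩,⟨3,[(7,1),(3,0),(0,0),(19,0)]⟩⟩,⟨false,1,⟨0,[(30,0),(2,0)]⟩,⟨0,[(31,0)]⟩⟩,⟨true,
  0,⟨0,[(0,0),(29,0)]⟩,⟨3,[(3,2),(2,0),(0,1),(21,2),(0,0)]⟩⟩,⟨true,0,⟨0,[]⟩,⟨0,[(35,0)]⟩⟩,⟨false,0,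
  ⟨0,[(0,0)]⟩,⟨11,[(4,2),(1,2),(0,3),(3,2),(0,2),(3,2),(1,0),(4,1)]⟩⟩,[]⟩) (.I [1,0,0,0,0,0,0,-1]
  (.Q [0,0,0,0,0,0,1,0,0,0,1] (.p true [0,0,1] [] (⟨0,[(22,0)]⟩,⟨0,[(21,0)]⟩) .k 0 (⟨0,[]⟩,⟨0,[]⟩)
  .k .k) (.R ⟨0,false,false,true,[1,0,-1],[1,-1],[],(⟨0,[(22,0)]⟩,⟨0,[(23,0)]⟩),(⟨0,[(26,0)]⟩,⟨0,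
  [(27,0)]⟩),⟨0,[(11,0)]⟩,.k,.k,.k,.k,.k,.k,⟨true,0,⟨1,[(1,0),(3,0),(29,0)]⟩,⟨0,[(32,0)]⟩⟩,⟨false,0,
  ⟨0,[(0,0)]⟩,⟨3,[(10,1),(2,0),(0,0),(10,0),(8,1)]⟩⟩,⟨false,1,⟨5,[(6,1),(1,1),(4,0),(0,0),(19,0),(0,
  1)]⟩,⟨0,[(1,0)]⟩⟩,⟨true,0,⟨0,[(2,1),(4,0),(27,0)]⟩,⟨1,[(1,2),(3,0),(11,1),(7,0)]⟩⟩,⟨false,0,⟨0,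
  []⟩,⟨0,[]⟩⟩,⟨false,0,⟨0,[]⟩,⟨0,[]⟩⟩,[.o ⟨false,0,⟨0,[(32,0)]⟩,⟨1,[(25,0),(7,1),(1,0)]⟩⟩,.e ⟨false,
  1,⟨1,[(34,0),(0,0)]⟩,⟨0,[(37,0)]⟩⟩ ⟨false,1,⟨3,[(7,1),(0,1),(0,1),(10,1),(13,0),(0,0)]⟩,⟨1,[(1,0),
  (3,0),(11,1),(7,0)]⟩⟩,.a ⟨true,0,⟨1,[(10,0),(6,0),(2,0)]⟩,⟨0,[(0,0)]⟩⟩ ⟨false,1,⟨1,[(13,0),(0,0),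
  (20,0)]⟩,⟨0,[]⟩⟩ ⟨true,0,⟨0,[(0,0),(31,0)]⟩,⟨1,[(1,0),(3,0),(11,1),(7,0)]⟩⟩,.o ⟨false,0,⟨0,[(21,
  0)]⟩,⟨3,[(9,1),(3,0),(0,0),(19,0)]⟩⟩]⟩) (.R ⟨0,false,false,true,[1,0,-1],[1,-1],[1,1,0,0,0,0,0,
  -1],(⟨0,[(22,0)]⟩,⟨0,[(23,0)]⟩),(⟨0,[(26,0)]⟩,⟨0,[(27,0)]⟩),⟨0,[(11,0)]⟩,.k,.k,.k,.k,.k,.k,⟨false,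
  0,⟨0,[(1,0),(31,0)]⟩,⟨0,[(0,2),(1,2),(1,0),(0,0),(1,2),(1,0),(1,0),(12,0),(10,2)]⟩⟩,⟨true,0,⟨0,
  [(20,0)]⟩,⟨0,[(0,0)]⟩⟩,⟨false,0,⟨0,[]⟩,⟨1,[(13,0),(0,0),(20,0)]⟩⟩,⟨true,0,⟨0,[(2,1),(4,0),(27,
  0)]⟩,⟨0,[(0,0),(0,0),(31,0)]⟩⟩,⟨false,0,⟨0,[]⟩,⟨0,[]⟩⟩,⟨false,0,⟨0,[]⟩,⟨0,[]⟩⟩,[.o ⟨false,0,⟨0,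
  [(32,0)]⟩,⟨1,[(25,0),(7,1),(1,0)]⟩⟩,.a ⟨true,0,⟨0,[(2,0),(4,0),(27,0)]⟩,⟨0,[(33,0)]⟩⟩ ⟨true,0,⟨0,
  [(1,0)]⟩,⟨1,[(6,0),(25,0)]⟩⟩ ⟨false,1,⟨3,[(7,1),(0,1),(0,1),(10,1),(13,0),(0,0)]⟩,⟨0,[(0,0),(32,
  0)]⟩⟩,.o ⟨false,0,⟨0,[(0,0)]⟩,⟨5,[(9,1),(3,2),(0,2),(5,1),(4,0)]⟩⟩,.o ⟨false,0,⟨0,[(21,0)]⟩,⟨3,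
  [(9,1),(3,0),(0,0),(19,0)]⟩⟩]⟩)) (.S ⟨1,0,[0,0,0,0,0,0,0,1],[0,0,1],[0,1,0,0,0,0,0,1],(⟨0,[(22,
  0)]⟩,⟨0,[(21,0)]⟩),⟨0,[(11,0)]⟩,.k,.k,⟨true,0,⟨0,[(36,0)]⟩,⟨0,[]⟩⟩,⟨false,1,⟨1,[(12,0),(0,0),(20,
  0)]⟩,⟨0,[]⟩⟩,⟨false,0,⟨0,[(32,0)]⟩,⟨0,[(31,0),(2,0)]⟩⟩,⟨true,0,⟨0,[(32,0)]⟩,⟨0,[(31,0)]⟩⟩,[.a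
  ⟨true,0,⟨1,[(0,2),(3,0),(1,1),(1,1),(25,0)]⟩,⟨1,[(6,0),(11,0),(13,0),(1,0)]⟩⟩ ⟨false,0,⟨0,[(1,0),
  (14,0)]⟩,⟨2,[(6,0),(1,0),(9,1),(0,0),(12,0),(1,2)]⟩⟩ ⟨true,0,⟨0,[(0,0)]⟩,⟨2,[(6,2),(1,0),(10,0),
  (4,1),(4,2)]⟩⟩,.o ⟨false,1,⟨0,[(1,0),(32,0)]⟩,⟨0,[(18,0)]⟩⟩,.a ⟨true,0,⟨1,[(0,0),(3,0),(1,1),(1,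
  1),(25,0)]⟩,⟨1,[(9,0),(6,0),(2,0)]⟩⟩ ⟨false,0,⟨0,[(0,0)]⟩,⟨2,[(6,0),(1,0),(9,1),(0,0),(12,0),(1,
  2)]⟩⟩ ⟨true,0,⟨0,[(0,0)]⟩,⟨2,[(6,0),(1,0),(9,1),(0,0),(12,0)]⟩⟩,.a ⟨true,0,⟨0,[(19,0)]⟩,⟨0,[(16,
  0)]⟩⟩ ⟨true,0,⟨0,[(1,0),(14,0)]⟩,⟨2,[(6,2),(1,0),(10,0),(4,1),(4,2)]⟩⟩ ⟨false,1,⟨1,[(0,1),(32,0),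
  (0,0)]⟩,⟨2,[(6,2),(1,0),(10,0),(4,1),(4,2)]⟩⟩]⟩)))))))

theorem ok2 : chk K t2 r2 = true := by decide +kernel

noncomputable def t5 : Tre :=
  (.I [1,1,0,-1,0,0,0,1] (.R ⟨2,true,false,true,[0,1],[0,0,1],[0,1,1,1],(⟨0,[]⟩,⟨0,[]⟩),(⟨0,[(16,
  0)]⟩,⟨0,[(15,0)]⟩),⟨0,[]⟩,.k,.k,.k,.k,.k,.k,⟨false,0,⟨0,[(1,0),(11,0),(10,0)]⟩,⟨1,[(0,1),(26,0),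
  (0,0)]⟩⟩,⟨true,0,⟨0,[(13,0)]⟩,⟨0,[(0,0),(0,0)]⟩⟩,⟨true,0,⟨0,[(30,0)]⟩,⟨0,[]⟩⟩,⟨false,1,⟨0,[(11,0),
  (13,0),(2,0)]⟩,⟨0,[(1,0)]⟩⟩,⟨false,0,⟨0,[(26,0)]⟩,⟨0,[(25,0),(2,0)]⟩⟩,⟨true,0,⟨0,[(11,0)]⟩,⟨0,[(1,
  0),(23,0)]⟩⟩,[]⟩) (.Q [0,0,0,0,0,0,-1,0,0,0,-1] (.p false [0,0,1] [] (⟨0,[(16,0)]⟩,⟨0,[(15,0)]⟩)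
  .k 0 (⟨0,[]⟩,⟨0,[]⟩) .k .k) (.R ⟨2,true,false,true,[0,1],[0,0,1],[1,1,1],(⟨0,[]⟩,⟨0,[]⟩),(⟨0,[(17,
  0)]⟩,⟨0,[(16,0)]⟩),⟨0,[]⟩,.k,.k,.k,.k,.k,.k,⟨false,0,⟨0,[(1,0),(24,0)]⟩,⟨1,[(11,1),(0,1),(6,0),(9,
  0)]⟩⟩,⟨true,0,⟨0,[(14,0)]⟩,⟨0,[(0,0)]⟩⟩,⟨true,0,⟨0,[(26,0)]⟩,⟨0,[(27,0)]⟩⟩,⟨false,1,⟨0,[(12,0),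
  (13,0),(2,0)]⟩,⟨0,[(2,0)]⟩⟩,⟨false,0,⟨0,[]⟩,⟨1,[(7,0),(0,0),(20,0)]⟩⟩,⟨true,0,⟨0,[(12,0)]⟩,⟨0,[(2,
  0),(23,0)]⟩⟩,[]⟩) (.I [0,0,1,1,-1,0,0,-1] (.R ⟨2,true,false,true,[0,1],[0,0,1],[1,1,0,0,0,0,0,1],
  (⟨0,[]⟩,⟨0,[]⟩),(⟨0,[(18,0)]⟩,⟨0,[(17,0)]⟩),⟨0,[]⟩,.k,.k,.k,.k,.k,.k,⟨true,0,⟨0,[]⟩,⟨1,[(15,0),(0,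
  0)]⟩⟩,⟨false,0,⟨0,[(1,0)]⟩,⟨3,[(5,1),(2,0),(0,0),(10,0),(8,1)]⟩⟩,⟨true,1,⟨1,[(12,1),(0,1),(6,0),
  (6,1),(2,0)]⟩,⟨0,[(0,0)]⟩⟩,⟨false,1,⟨0,[(13,0),(13,0),(2,0)]⟩,⟨0,[(3,0)]⟩⟩,⟨false,1,⟨1,[(12,1),(0,
  1),(6,0),(9,0)]⟩,⟨0,[(0,0),(26,0),(2,0)]⟩⟩,⟨true,0,⟨0,[(13,0)]⟩,⟨0,[(3,0),(23,0)]⟩⟩,[]⟩) (.I [1,0,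
  1,1,0,0,0,1] (.I [1,1,1,0,-1,0,0,-1] (.S ⟨1,1,[],[0,0,1],[0,0,0,0,0,0,0,1],(⟨0,[(20,0)]⟩,⟨0,[(19,
  0)]⟩),⟨0,[(9,0)]⟩,.k,.k,⟨false,1,⟨1,[(10,0),(0,0),(20,0)]⟩,⟨0,[]⟩⟩,⟨true,0,⟨0,[(5,0),(23,0)]⟩,⟨0,
  [(15,0)]⟩⟩,⟨true,0,⟨0,[(30,0)]⟩,⟨0,[(29,0)]⟩⟩,⟨false,0,⟨0,[(5,0)]⟩,⟨0,[(2,0),(14,0)]⟩⟩,[.fo,.o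
  ⟨false,1,⟨1,[(22,0),(9,0)]⟩,⟨0,[(34,0)]⟩⟩,.e ⟨false,1,⟨1,[(1,0),(0,0),(29,0)]⟩,⟨0,[(4,0),(24,
  0)]⟩⟩ ⟨false,1,⟨3,[(7,1),(2,0),(0,0),(10,0),(9,1)]⟩,⟨0,[(3,0)]⟩⟩,.a ⟨true,0,⟨0,[(17,0)]⟩,⟨0,[(14,
  0)]⟩⟩ ⟨true,1,⟨1,[(1,0),(0,0),(28,0)]⟩,⟨0,[(0,0)]⟩⟩ ⟨false,1,⟨1,[(14,1),(7,0),(9,0)]⟩,⟨0,[(17,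
  0)]⟩⟩]⟩) (.I [0,1,0,0,0,0,0,1] (.S ⟨1,0,[0,0,0,0,0,0,0,1],[0,0,1],[1],(⟨0,[(21,0)]⟩,⟨0,[(20,0)]⟩),
  ⟨0,[(10,0)]⟩,.k,.k,⟨true,0,⟨0,[(5,0),(24,0)]⟩,⟨0,[(0,0)]⟩⟩,⟨false,1,⟨1,[(11,0),(0,0),(20,0)]⟩,⟨0,
  []⟩⟩,⟨false,0,⟨0,[(5,0)]⟩,⟨1,[(3,1),(14,0),(0,0)]⟩⟩,⟨true,0,⟨0,[(31,0)]⟩,⟨0,[(30,0)]⟩⟩,[.o ⟨false,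
  1,⟨1,[(16,1),(6,0),(9,0)]⟩,⟨0,[(6,0),(23,0)]⟩⟩,.e ⟨false,1,⟨1,[(32,0),(0,0)]⟩,⟨0,[(35,0)]⟩⟩
  ⟨false,1,⟨0,[(1,0)]⟩,⟨0,[(4,0),(12,0)]⟩⟩,.a ⟨true,0,⟨0,[(4,0)]⟩,⟨3,[(7,1),(3,0),(0,0),(19,0)]⟩⟩
  ⟨true,0,⟨0,[]⟩,⟨0,[(35,0)]⟩⟩ ⟨false,1,⟨1,[(2,0),(0,0),(29,0)]⟩,⟨0,[(5,0),(24,0)]⟩⟩,.e ⟨false,1,⟨1,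
  [(32,0),(0,0)]⟩,⟨1,[(18,0),(0,0)]⟩⟩ ⟨false,1,⟨0,[(1,0)]⟩,⟨1,[(5,1),(12,0),(0,0),(10,1)]⟩⟩]⟩) (.R
  ⟨0,false,false,true,[-1,1,1],[1,0,-1],[0,1],(⟨0,[(9,0)]⟩,⟨0,[(20,0),(3,0)]⟩),(⟨0,[(20,0)]⟩,⟨0,
  [(21,0)]⟩),⟨0,[(20,0)]⟩,.k,.k,.k,(.r (-1) ⟨1,[(2,2),(0,0),(7,0),(0,0)]⟩ ⟨0,[(0,1),(28,0),(0,0)]⟩),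
  .k,.k,⟨false,1,⟨1,[(2,0),(0,0),(28,0)]⟩,⟨3,[(0,2),(16,0),(0,0),(7,0)]⟩⟩,⟨true,(-1),⟨0,[(7,0)]⟩,⟨0,
  [(4,1),(18,0)]⟩⟩,⟨true,0,⟨0,[(0,0),(28,0),(0,0)]⟩,⟨0,[(2,0)]⟩⟩,⟨false,(-1),⟨0,[(0,1),(6,0),(21,0),
  (0,0)]⟩,⟨0,[(1,0),(2,0),(11,0),(6,0),(4,0)]⟩⟩,⟨false,0,⟨0,[]⟩,⟨0,[]⟩⟩,⟨false,0,⟨0,[]⟩,⟨0,[]⟩⟩,[.e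
  ⟨false,0,⟨0,[(29,0)]⟩,⟨1,[(11,0),(0,0),(20,0)]⟩⟩ ⟨false,(-1),⟨0,[(0,0),(6,0),(18,0)]⟩,⟨0,[(1,0),
  (2,1),(18,0)]⟩⟩,.o ⟨false,0,⟨0,[(6,0),(23,0)]⟩,⟨1,[(16,1),(6,0),(9,0)]⟩⟩,.a ⟨true,1,⟨1,[(4,1),(18,
  0),(8,0)]⟩,⟨0,[(4,0),(2,0)]⟩⟩ ⟨true,0,⟨0,[(35,0)]⟩,⟨0,[]⟩⟩ ⟨false,(-1),⟨3,[(0,2),(6,3),(9,0),(0,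
  0),(7,0)]⟩,⟨0,[(1,0),(2,1),(18,0)]⟩⟩,.o ⟨false,1,⟨0,[(4,0),(18,0)]⟩,⟨3,[(7,1),(3,0),(0,0),(19,
  0)]⟩⟩]⟩))) (.R ⟨0,false,false,false,[-1,1,1],[1,0,-1],[],(⟨0,[(7,0)]⟩,⟨0,[(18,0),(3,0)]⟩),(⟨0,
  [(18,0)]⟩,⟨0,[(19,0)]⟩),⟨0,[(18,0)]⟩,.k,.k,.k,(.r (-1) ⟨7,[(1,3),(4,5),(2,0),(0,0),(3,11),(6,2),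
  (4,11)]⟩ ⟨2,[(0,3),(2,0),(11,0),(0,0)]⟩),.k,.k,⟨false,1,⟨0,[(1,0),(27,0)]⟩,⟨2,[(0,0),(2,0),(11,0),
  (0,0)]⟩⟩,⟨true,(-1),⟨0,[(5,0)]⟩,⟨0,[(2,1),(18,0)]⟩⟩,⟨true,0,⟨0,[(0,0)]⟩,⟨0,[(14,0),(2,0),(11,
  0)]⟩⟩,⟨false,(-1),⟨0,[(0,1),(4,0),(20,0)]⟩,⟨0,[(14,1),(6,0),(7,0),(1,0)]⟩⟩,⟨false,0,⟨0,[]⟩,⟨0,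
  []⟩⟩,⟨false,0,⟨0,[]⟩,⟨0,[]⟩⟩,[.o ⟨false,0,⟨2,[(0,0),(3,0),(10,0),(1,0)]⟩,⟨1,[(14,1),(6,0),(9,
  0)]⟩⟩,.a ⟨true,0,⟨4,[(0,1),(2,1),(1,1),(7,0),(1,0),(0,0),(14,1)]⟩,⟨0,[(14,0)]⟩⟩ ⟨false,1,⟨1,[(30,
  0),(0,0)]⟩,⟨0,[(33,0)]⟩⟩ ⟨true,(-1),⟨0,[(0,0),(4,0),(20,0)]⟩,⟨0,[(2,0),(11,0),(6,0)]⟩⟩,.e ⟨false,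
  1,⟨1,[(9,0),(0,0),(20,0)]⟩,⟨0,[]⟩⟩ ⟨false,(-1),⟨0,[(0,0),(4,0),(20,0)]⟩,⟨1,[(2,1),(11,1),(6,1),(8,
  0),(0,0)]⟩⟩,.o ⟨false,1,⟨0,[(2,0),(18,0)]⟩,⟨3,[(5,1),(3,0),(0,0),(19,0)]⟩⟩]⟩)))))

theorem ok5 : chk K t5 l3 = true := by decide +kernel

noncomputable def t6 : Tre :=
  (.I [0,0,1,1,0,0,0,-1] (.I [0,1,0,0,0,0,0,-1] (.Q [0,0,1,1,-1,0,-1,0,0,0,-1] (.p false [0,0,1] []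
  (⟨0,[(17,0)]⟩,⟨0,[(16,0)]⟩) .k 0 (⟨0,[]⟩,⟨0,[]⟩) .k .k) (.Q [0,0,0,-1,0,0,0,0,0,1] (.pp false [-1,
  1]) (.R ⟨0,false,false,true,[1,0,-1],[1,-1],[0,1],(⟨0,[(18,0)]⟩,⟨0,[(19,0)]⟩),(⟨0,[(22,0)]⟩,⟨0,
  [(23,0)]⟩),⟨0,[(7,0)]⟩,.k,.k,.k,.k,.k,.k,⟨false,0,⟨0,[(29,0)]⟩,⟨1,[(28,1),(1,0),(0,0)]⟩⟩,⟨true,0,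
  ⟨0,[(16,0)]⟩,⟨3,[(1,1),(11,1),(7,0),(6,1),(2,0)]⟩⟩,⟨false,0,⟨1,[(1,1),(2,1),(25,0),(0,0)]⟩,⟨0,[(2,
  0),(28,0)]⟩⟩,⟨true,0,⟨0,[(4,0)]⟩,⟨1,[(1,1),(0,1),(27,0),(0,0)]⟩⟩,⟨false,0,⟨0,[]⟩,⟨0,[]⟩⟩,⟨false,0,
  ⟨0,[]⟩,⟨0,[]⟩⟩,[.o ⟨false,0,⟨0,[(28,0)]⟩,⟨1,[(21,0),(7,1),(1,0)]⟩⟩,.a ⟨true,0,⟨0,[(0,0)]⟩,⟨0,[(29,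
  0)]⟩⟩ ⟨false,1,⟨1,[(9,0),(0,0),(19,0)]⟩,⟨0,[]⟩⟩ ⟨true,1,⟨1,[(16,1),(11,1),(1,0),(0,0)]⟩,⟨0,[(1,
  0)]⟩⟩,.o ⟨false,0,⟨3,[(1,1),(11,1),(7,0),(6,1),(2,0)]⟩,⟨1,[(16,1),(4,0),(8,0)]⟩⟩,.e ⟨true,0,⟨0,
  [(27,0)]⟩,⟨1,[(16,0),(0,0)]⟩⟩ ⟨true,1,⟨0,[(16,0),(11,0),(1,0)]⟩,⟨0,[(1,0)]⟩⟩]⟩) (.Q [0,0,0,0,0,0,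
  1,1,0,0,1] (.p true [0,0,1] [] (⟨0,[(19,0)]⟩,⟨0,[(18,0)]⟩) .k 0 (⟨0,[]⟩,⟨0,[]⟩) .k .k) (.R ⟨2,
  true,false,false,[0,1],[0,0,1],[1,1,1],(⟨0,[]⟩,⟨0,[]⟩),(⟨0,[(20,0)]⟩,⟨0,[(19,0)]⟩),⟨0,[]⟩,.k,.k,
  .k,.k,.k,.k,⟨false,0,⟨0,[(3,0)]⟩,⟨1,[(0,1),(13,1),(7,0),(9,0)]⟩⟩,⟨true,0,⟨0,[(17,0)]⟩,⟨3,[(2,1),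
  (11,1),(7,0),(6,1),(2,0)]⟩⟩,⟨true,0,⟨0,[(29,0)]⟩,⟨0,[(30,0)]⟩⟩,⟨false,1,⟨0,[(5,0),(26,0)]⟩,⟨1,[(1,
  0),(0,0),(0,1),(10,0),(17,0)]⟩⟩,⟨false,0,⟨0,[]⟩,⟨1,[(10,0),(0,0),(20,0)]⟩⟩,⟨true,0,⟨0,[(0,0)]⟩,⟨0,
  [(16,0)]⟩⟩,[]⟩) (.S ⟨1,0,[0,0,0,0,0,0,0,1],[0,0,1],[0,1,0,0,0,0,0,1],(⟨0,[(20,0)]⟩,⟨0,[(19,0)]⟩),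
  ⟨0,[(9,0)]⟩,.k,.k,⟨true,0,⟨0,[(34,0)]⟩,⟨0,[]⟩⟩,⟨false,1,⟨1,[(10,0),(0,0),(20,0)]⟩,⟨0,[]⟩⟩,⟨false,
  0,⟨0,[(30,0)]⟩,⟨0,[(29,0),(2,0)]⟩⟩,⟨true,0,⟨0,[(30,0)]⟩,⟨0,[(29,0)]⟩⟩,[.o ⟨false,1,⟨1,[(15,1),(6,
  0),(9,0)]⟩,⟨0,[(0,0)]⟩⟩,.o ⟨false,1,⟨0,[(1,0),(3,0),(26,0)]⟩,⟨0,[(16,0)]⟩⟩,.o ⟨false,1,⟨1,[(17,1),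
  (4,0),(8,0)]⟩,⟨3,[(2,1),(11,1),(7,0),(6,1),(2,0)]⟩⟩,.a ⟨true,0,⟨0,[(17,0)]⟩,⟨0,[(14,0)]⟩⟩ ⟨true,0,
  ⟨0,[(1,0),(3,0),(8,0)]⟩,⟨0,[(0,0),(16,0)]⟩⟩ ⟨false,1,⟨0,[(1,0),(3,0),(8,0),(17,0)]⟩,⟨0,[(0,0),(16,
  0)]⟩⟩]⟩))) (.I [1,0,2,1,-1,0,0,-1] (.Q [0,-1,0,2,0,0,-1,-1,0,0,-1] (.p false [0,0,1] [] (⟨0,[(19,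
  0)]⟩,⟨0,[(18,0)]⟩) .k 0 (⟨0,[]⟩,⟨0,[]⟩) .k .k) (.R ⟨1,true,false,false,[0,0,1],[0,1],[0,0,0,0,0,0,
  0,1],(⟨0,[(20,0)]⟩,⟨0,[(19,0)]⟩),(⟨0,[(24,0)]⟩,⟨0,[(23,0)]⟩),⟨0,[(9,0)]⟩,.k,.k,.k,.k,(.r (-2) ⟨3,
  [(2,1),(2,3),(8,5),(7,2),(6,1),(2,2)]⟩ ⟨1,[(0,0),(0,1),(13,0)]⟩),.k,⟨true,1,⟨1,[(5,1),(8,1),(7,0),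
  (9,0)]⟩,⟨0,[(1,0)]⟩⟩,⟨false,1,⟨1,[(14,1),(7,0),(8,0)]⟩,⟨0,[(17,0)]⟩⟩,⟨false,1,⟨1,[(10,0),(0,0),
  (20,0)]⟩,⟨0,[]⟩⟩,⟨true,0,⟨1,[(0,0),(15,0)]⟩,⟨0,[(5,0)]⟩⟩,⟨true,0,⟨0,[(30,0)]⟩,⟨0,[(29,0)]⟩⟩,
  ⟨false,0,⟨0,[(0,0)]⟩,⟨0,[(5,0),(23,0),(2,0)]⟩⟩,[]⟩) (.Q [0,0,0,1,0,0,-1,0,0,0,-1] (.p false [0,0,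
  1] [] (⟨0,[(20,0)]⟩,⟨0,[(19,0)]⟩) .k 0 (⟨0,[]⟩,⟨0,[]⟩) .k .k) (.Q [0,0,0,0,0,0,-1,0,0,0,-1] (.p
  false [0,0,1] [] (⟨0,[(21,0)]⟩,⟨0,[(20,0)]⟩) .k 0 (⟨0,[]⟩,⟨0,[]⟩) .k .k) (.I [1,1,1,0,-1,0,0,-1]
  (.Q [0,0,-1,0,1,0,1,0,0,-1,1] (.p true [0,0,1] [1] (⟨0,[(23,0)]⟩,⟨0,[(22,0)]⟩) .k 1 (⟨0,[]⟩,⟨0,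
  []⟩) .k .k) (.R ⟨0,false,false,true,[1,0,-1],[1,-1],[1,1,0,0,0,0,0,-1],(⟨0,[(23,0)]⟩,⟨0,[(24,
  0)]⟩),(⟨0,[(27,0)]⟩,⟨0,[(28,0)]⟩),⟨0,[(12,0)]⟩,.k,.k,.k,.k,.k,.k,⟨false,0,⟨0,[(5,0),(29,0)]⟩,⟨1,
  [(4,0),(13,1),(0,0),(6,0),(9,0)]⟩⟩,⟨true,0,⟨0,[(21,0)]⟩,⟨0,[(2,0)]⟩⟩,⟨false,0,⟨0,[]⟩,⟨1,[(14,0),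
  (0,0),(20,0)]⟩⟩,⟨true,0,⟨0,[(9,0)]⟩,⟨1,[(1,1),(1,1),(31,0),(0,0)]⟩⟩,⟨false,0,⟨0,[]⟩,⟨0,[]⟩⟩,
  ⟨false,0,⟨0,[]⟩,⟨0,[]⟩⟩,[.o ⟨false,0,⟨0,[(33,0)]⟩,⟨3,[(0,1),(2,1),(22,0),(4,1),(4,0)]⟩⟩,.a ⟨true,
  0,⟨1,[(1,0),(2,0),(13,1),(2,0),(14,0)]⟩,⟨0,[(34,0)]⟩⟩ ⟨true,0,⟨1,[(1,1),(33,0),(0,0)]⟩,⟨0,[(3,0),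
  (0,0),(26,0)]⟩⟩ ⟨false,1,⟨0,[(6,0)]⟩,⟨0,[(3,0)]⟩⟩,.o ⟨false,0,⟨0,[(2,0)]⟩,⟨7,[(0,1),(5,1),(1,1),
  (10,1),(1,1),(4,2),(9,0)]⟩⟩,.o ⟨false,0,⟨0,[(22,0)]⟩,⟨0,[(0,0)]⟩⟩]⟩) (.I [1,0,0,-1,0,0,0,-1] (.Q
  [0,0,-1,-1,0,0,0,-1,0,1] (.pp false [-1,1]) (.R ⟨0,false,false,true,[1,0,-1],[2,-1,-1],[0,1],(⟨0,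
  [(25,0)]⟩,⟨0,[(26,0)]⟩),(⟨0,[(25,0),(3,0)]⟩,⟨0,[(14,0)]⟩),⟨0,[(14,0)]⟩,.k,.k,.k,.k,.k,.k,⟨true,0,
  ⟨1,[(5,1),(0,0),(14,0),(11,1)]⟩,⟨0,[(1,0)]⟩⟩,⟨false,0,⟨0,[(20,0),(2,0)]⟩,⟨1,[(28,0),(8,0)]⟩⟩,
  ⟨true,0,⟨1,[(5,1),(0,0),(14,0)]⟩,⟨3,[(0,1),(6,1),(20,0),(8,0)]⟩⟩,⟨false,0,⟨11,[(0,3),(5,2),(1,1),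
  (3,3),(8,0),(1,1),(14,1)]⟩,⟨1,[(28,0),(7,1),(1,0)]⟩⟩,⟨false,0,⟨0,[]⟩,⟨0,[]⟩⟩,⟨false,0,⟨0,[]⟩,⟨0,
  []⟩⟩,[.o ⟨false,(-1),⟨0,[(1,0),(0,0),(31,0)]⟩,⟨0,[(21,0),(6,0),(7,0),(1,0)]⟩⟩,.e ⟨false,1,⟨1,[(16,
  0),(0,0),(19,0)]⟩,⟨0,[]⟩⟩ ⟨false,0,⟨0,[(0,0)]⟩,⟨1,[(5,1),(15,1),(6,0),(9,0)]⟩⟩,.o ⟨false,0,⟨0,[(4,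
  0)]⟩,⟨1,[(8,0),(14,0),(4,0),(7,0)]⟩⟩,.a ⟨true,(-1),⟨0,[(2,0)]⟩,⟨0,[(8,0),(27,0)]⟩⟩ ⟨true,0,⟨0,
  [(34,0)]⟩,⟨1,[(23,0),(0,0)]⟩⟩ ⟨false,0,⟨0,[(0,0)]⟩,⟨1,[(5,1),(0,0),(14,0),(6,0),(4,1),(4,0)]⟩⟩]⟩)
  (.Q [0,0,0,0,1,0,1,0,0,-2,1] (.p true [-1,1,1] [1] (⟨0,[(14,0)]⟩,⟨0,[(25,0),(3,0)]⟩) .k 1 (⟨0,[]⟩,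
  ⟨0,[]⟩) .k .k) (.R ⟨0,false,false,false,[-1,1,1],[0,1],[1,0,1,1],(⟨0,[(15,0)]⟩,⟨0,[(26,0),(3,
  0)]⟩),(⟨0,[(31,0)]⟩,⟨0,[(30,0)]⟩),⟨0,[(26,0)]⟩,.k,.k,.k,.k,.k,.k,⟨true,0,⟨0,[]⟩,⟨1,[(24,0),(0,
  0)]⟩⟩,⟨false,0,⟨0,[(21,0)]⟩,⟨2,[(0,0),(0,0),(7,1),(1,0)]⟩⟩,⟨true,0,⟨1,[(2,0),(5,0),(29,0)]⟩,⟨4,
  [(1,1),(5,0),(6,0),(6,0),(0,1),(9,0)]⟩⟩,⟨false,0,⟨1,[(2,0),(5,0),(12,1),(17,0)]⟩,⟨0,[(1,0),(7,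
  0)]⟩⟩,⟨false,0,⟨0,[]⟩,⟨0,[]⟩⟩,⟨false,0,⟨0,[]⟩,⟨0,[]⟩⟩,[.a ⟨true,0,⟨0,[(37,0)]⟩,⟨0,[(3,0),(5,0)]⟩⟩
  ⟨false,0,⟨0,[(37,0)]⟩,⟨11,[(2,1),(4,1),(1,5),(4,3),(14,1),(8,2),(0,0)]⟩⟩ ⟨true,(-1),⟨0,[(3,0),(33,
  0)]⟩,⟨9,[(2,1),(4,1),(1,3),(14,3),(4,4),(9,0)]⟩⟩,.o ⟨false,1,⟨1,[(0,0),(5,0),(30,0),(1,0)]⟩,⟨0,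
  [(36,0)]⟩⟩,.o ⟨false,2,⟨5,[(0,1),(0,1),(7,3),(1,1),(17,2),(8,2)]⟩,⟨0,[(3,0)]⟩⟩,.o ⟨false,1,⟨0,[(0,
  0)]⟩,⟨12,[(9,1),(1,1),(1,2),(0,3),(6,2),(0,1),(16,0)]⟩⟩]⟩) (.R ⟨0,false,false,true,[1,0,-1],[2,-1,
  -1],[0,1],(⟨0,[(26,0)]⟩,⟨0,[(27,0)]⟩),(⟨0,[(26,0),(3,0)]⟩,⟨0,[(15,0)]⟩),⟨0,[(15,0)]⟩,.k,.k,.k,.k,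
  .k,.k,⟨true,0,⟨2,[(1,0),(12,0),(7,1),(11,1)]⟩,⟨0,[(2,0)]⟩⟩,⟨false,0,⟨12,[(0,5),(8,3),(1,3),(2,0),
  (7,3),(16,1)]⟩,⟨1,[(29,0),(8,0)]⟩⟩,⟨true,0,⟨4,[(1,1),(5,0),(6,0),(6,0),(0,1),(9,0)]⟩,⟨1,[(2,0),(5,
  0),(29,0)]⟩⟩,⟨false,0,⟨19,[(0,4),(1,3),(4,3),(1,7),(3,4),(10,2),(14,1)]⟩,⟨1,[(29,0),(7,1),(1,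
  0)]⟩⟩,⟨false,0,⟨0,[]⟩,⟨0,[]⟩⟩,⟨false,0,⟨0,[]⟩,⟨0,[]⟩⟩,[.o ⟨false,(-1),⟨0,[(2,0),(0,0),(31,0)]⟩,⟨1,
  [(1,1),(7,1),(19,0),(7,1),(1,0)]⟩⟩,.a ⟨true,(-1),⟨0,[(0,0),(1,0)]⟩,⟨0,[(1,0),(7,0),(27,0)]⟩⟩
  ⟨false,1,⟨1,[(17,0),(0,0),(19,0)]⟩,⟨0,[]⟩⟩ ⟨true,0,⟨7,[(0,2),(1,5),(6,3),(1,1),(1,0),(10,0)]⟩,⟨0,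
  [(1,0)]⟩⟩,.o ⟨false,0,⟨0,[(5,0)]⟩,⟨1,[(9,0),(14,0),(4,0),(7,0)]⟩⟩,.e ⟨true,0,⟨0,[(35,0)]⟩,⟨1,[(24,
  0),(0,0)]⟩⟩ ⟨true,0,⟨3,[(0,1),(1,1),(1,0),(4,1),(0,0),(21,0),(5,0)]⟩,⟨0,[(1,0)]⟩⟩]⟩))) (.R ⟨0,
  false,false,false,[-1,1,1],[0,1],[1,1,1],(⟨0,[(13,0)]⟩,⟨0,[(24,0),(3,0)]⟩),(⟨0,[(29,0)]⟩,⟨0,[(28,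
  0)]⟩),⟨0,[(24,0)]⟩,.k,.k,.k,.k,.k,.k,⟨true,0,⟨0,[(34,0)]⟩,⟨0,[(0,0),(1,0),(34,0)]⟩⟩,⟨false,0,⟨0,
  [(19,0)]⟩,⟨1,[(7,0),(14,0),(4,0),(7,0)]⟩⟩,⟨true,0,⟨3,[(2,3),(4,1),(11,1),(7,0),(6,1),(2,0)]⟩,⟨0,
  [(0,0)]⟩⟩,⟨false,0,⟨0,[(2,0),(16,0),(17,0)]⟩,⟨1,[(20,1),(6,0),(9,0)]⟩⟩,⟨false,0,⟨0,[]⟩,⟨0,[]⟩⟩,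
  ⟨false,0,⟨0,[]⟩,⟨0,[]⟩⟩,[.a ⟨true,0,⟨0,[(35,0)]⟩,⟨0,[(1,0),(5,0)]⟩⟩ ⟨false,0,⟨0,[(39,0)]⟩,⟨1,[(36,
  0),(0,0)]⟩⟩ ⟨true,(-1),⟨1,[(0,0),(0,0),(4,0),(12,0)]⟩,⟨3,[(2,0),(2,0),(1,1),(14,0),(4,1),(9,0)]⟩⟩,
  .o ⟨false,1,⟨1,[(27,0),(7,1),(1,0)]⟩,⟨0,[(34,0)]⟩⟩,.o ⟨false,2,⟨0,[(7,0),(19,0),(7,0)]⟩,⟨0,[(1,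
  0)]⟩⟩,.e ⟨false,0,⟨0,[]⟩,⟨1,[(15,0),(0,0),(20,0)]⟩⟩ ⟨false,0,⟨0,[(19,0),(12,0)]⟩,⟨3,[(2,0),(2,0),
  (1,1),(14,0),(4,1),(9,0)]⟩⟩]⟩))) (.S ⟨1,0,[0,0,1,1,0,0,0,-1],[1,1,-1],[],(⟨0,[(22,0),(4,0)]⟩,⟨0,
  [(12,0)]⟩),⟨0,[(22,0)]⟩,.k,.k,⟨true,1,⟨19,[(0,11),(2,7),(1,3),(4,5),(14,2),(2,1),(5,0)]⟩,⟨0,[(4,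
  0),(26,0)]⟩⟩,⟨false,1,⟨1,[(13,0),(0,0),(20,0)]⟩,⟨0,[]⟩⟩,⟨false,1,⟨0,[(0,0)]⟩,⟨1,[(4,0),(1,0),(25,
  0),(2,0)]⟩⟩,⟨true,0,⟨0,[(33,0)]⟩,⟨0,[(32,0)]⟩⟩,[.o ⟨false,0,⟨1,[(4,1),(12,1),(7,0),(8,0)]⟩,⟨1,[(0,
  0),(2,0),(16,0),(4,0)]⟩⟩,.a ⟨true,0,⟨1,[(4,1),(12,1),(16,0),(0,0)]⟩,⟨0,[(8,0)]⟩⟩ ⟨false,1,⟨1,[(34,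
  0),(0,0)]⟩,⟨0,[(37,0)]⟩⟩ ⟨true,0,⟨1,[(4,1),(29,0),(0,0)]⟩,⟨0,[(2,0),(0,0)]⟩⟩,.e ⟨false,1,⟨1,[(13,
  0),(0,0),(20,0)]⟩,⟨0,[]⟩⟩ ⟨false,0,⟨1,[(4,1),(29,0),(0,0)]⟩,⟨19,[(0,11),(2,7),(1,3),(4,5),(14,2),
  (2,1),(5,0)]⟩⟩,.o ⟨false,0,⟨0,[(1,0)]⟩,⟨1,[(5,0),(14,0),(4,0),(7,0)]⟩⟩]⟩)) (.S ⟨1,0,[0,0,1,1,0,0,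
  0,-1],[1,1,-1],[0,1,1,1,0,0,0,-1],(⟨0,[(21,0),(4,0)]⟩,⟨0,[(11,0)]⟩),⟨0,[(21,0)]⟩,.k,.k,⟨true,0,⟨0,
  [(36,0)]⟩,⟨0,[]⟩⟩,⟨false,1,⟨1,[(12,0),(0,0),(20,0)]⟩,⟨0,[]⟩⟩,⟨false,0,⟨0,[(32,0)]⟩,⟨0,[(31,0),(2,
  0)]⟩⟩,⟨true,0,⟨0,[(32,0)]⟩,⟨0,[(31,0)]⟩⟩,[.o ⟨false,0,⟨1,[(3,1),(12,1),(7,0),(8,0)]⟩,⟨1,[(2,0),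
  (14,0),(6,0),(9,0)]⟩⟩,.a ⟨true,0,⟨1,[(3,1),(12,1),(16,0),(0,0)]⟩,⟨0,[(7,0)]⟩⟩ ⟨false,0,⟨0,[(3,0),
  (29,0)]⟩,⟨1,[(2,0),(13,1),(0,0),(6,0),(9,0)]⟩⟩ ⟨true,0,⟨1,[(3,1),(29,0),(0,0)]⟩,⟨0,[(1,0),(0,
  0)]⟩⟩,.a ⟨true,0,⟨0,[(16,0)]⟩,⟨0,[(19,0)]⟩⟩ ⟨true,(-1),⟨0,[(3,0),(26,0)]⟩,⟨1,[(2,0),(13,1),(0,0),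
  (6,0),(9,0)]⟩⟩ ⟨false,0,⟨1,[(3,1),(29,0),(0,0)]⟩,⟨1,[(2,0),(13,1),(0,0),(6,0),(9,0)]⟩⟩,.a ⟨true,0,
  ⟨12,[(4,1),(1,1),(1,2),(0,3),(6,2),(0,1),(16,0)]⟩,⟨0,[(0,0)]⟩⟩ ⟨false,0,⟨0,[(3,0),(29,0)]⟩,⟨0,[(1,
  0),(0,0),(31,0)]⟩⟩ ⟨true,0,⟨0,[(3,0),(29,0)]⟩,⟨0,[(1,0),(0,0)]⟩⟩]⟩)) (.R ⟨1,false,false,false,[0,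
  0,1],[0,1],[1,0,0,-1,0,0,0,1],(⟨0,[(21,0)]⟩,⟨0,[(20,0)]⟩),(⟨0,[(25,0)]⟩,⟨0,[(24,0)]⟩),⟨0,[(10,
  0)]⟩,.k,.k,.k,.k,(.r (-2) ⟨5,[(1,4),(1,1),(4,3),(7,0),(6,1),(8,4),(0,2)]⟩ ⟨0,[(2,0),(28,0)]⟩),.k,
  ⟨true,1,⟨1,[(1,1),(13,1),(7,0),(9,0)]⟩,⟨0,[(2,0),(28,0)]⟩⟩,⟨false,1,⟨1,[(15,1),(7,0),(8,0)]⟩,⟨0,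
  [(18,0)]⟩⟩,⟨false,1,⟨0,[(30,0),(2,0)]⟩,⟨0,[(31,0)]⟩⟩,⟨true,0,⟨1,[(2,1),(12,1),(7,0),(8,0)]⟩,⟨0,
  [(6,0)]⟩⟩,⟨true,0,⟨0,[]⟩,⟨0,[(35,0)]⟩⟩,⟨true,0,⟨1,[(2,1),(12,1),(7,0),(7,1),(0,0)]⟩,⟨0,[(1,0)]⟩⟩,
  [.e ⟨false,1,⟨1,[(1,0),(13,1),(0,0),(6,0),(9,0)]⟩,⟨0,[(2,0),(29,0)]⟩⟩ ⟨false,1,⟨3,[(8,1),(2,0),(0,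
  0),(10,0),(7,3),(0,1)]⟩,⟨0,[(0,0)]⟩⟩,.o ⟨false,1,⟨1,[(23,0),(7,1),(1,0)]⟩,⟨0,[(30,0)]⟩⟩,.e ⟨false,
  1,⟨1,[(1,1),(13,1),(7,0),(4,1),(4,0)]⟩,⟨0,[(2,0),(29,0)]⟩⟩ ⟨false,1,⟨3,[(8,1),(2,0),(0,0),(10,0),
  (7,3),(1,1)]⟩,⟨0,[(0,0)]⟩⟩,.a ⟨true,0,⟨0,[(18,0)]⟩,⟨0,[(15,0)]⟩⟩ ⟨true,1,⟨1,[(1,0),(13,1),(0,0),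
  (6,0),(9,0)]⟩,⟨0,[(2,0),(26,0)]⟩⟩ ⟨false,1,⟨1,[(15,1),(7,0),(7,1),(1,0)]⟩,⟨1,[(0,1),(17,0),(0,
  0)]⟩⟩]⟩))) (.Q [0,0,-1,0,1,0,1,0,0,-1,1] (.p true [0,0,1] [1] (⟨0,[(19,0)]⟩,⟨0,[(18,0)]⟩) .k 1
  (⟨0,[]⟩,⟨0,[]⟩) .k .k) (.Q [0,0,0,-1,0,0,-1,-1,0,1,-1] (.p false [0,0,1] [1] (⟨0,[(20,0)]⟩,⟨0,
  [(19,0)]⟩) .k 1 (⟨0,[]⟩,⟨0,[]⟩) .k .k) (.Q [0,0,0,0,0,0,-1,0,0,0,-1] (.p false [0,0,1] [] (⟨0,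
  [(21,0)]⟩,⟨0,[(20,0)]⟩) .k 0 (⟨0,[]⟩,⟨0,[]⟩) .k .k) (.I [1,1,-1,-1,0,0,0,-1] (.Q [0,0,0,-1,0,0,0,
  0,0,1] (.pp false [-1,1]) (.R ⟨0,false,false,true,[1,0,-1],[1,-1],[0,1,1],(⟨0,[(23,0)]⟩,⟨0,[(24,
  0)]⟩),(⟨0,[(27,0)]⟩,⟨0,[(28,0)]⟩),⟨0,[(12,0)]⟩,.k,.k,.k,.k,.k,.k,⟨false,0,⟨2,[(8,0),(10,0),(2,0),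
  (8,0),(2,0)]⟩,⟨3,[(1,1),(3,1),(29,0),(0,0)]⟩⟩,⟨true,0,⟨0,[(21,0)]⟩,⟨0,[(2,0)]⟩⟩,⟨false,0,⟨0,[(2,
  0),(6,0),(21,0)]⟩,⟨0,[(1,0),(32,0),(1,0)]⟩⟩,⟨true,0,⟨0,[(9,0)]⟩,⟨0,[(1,0),(0,0),(28,0),(2,0)]⟩⟩,
  ⟨false,0,⟨0,[]⟩,⟨0,[]⟩⟩,⟨false,0,⟨0,[]⟩,⟨0,[]⟩⟩,[.o ⟨false,0,⟨0,[(33,0)]⟩,⟨1,[(26,0),(7,1),(1,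
  0)]⟩⟩,.a ⟨true,0,⟨0,[(0,0)]⟩,⟨0,[(34,0)]⟩⟩ ⟨true,0,⟨1,[(21,0),(0,0)]⟩,⟨0,[]⟩⟩ ⟨false,1,⟨0,[(6,
  0)]⟩,⟨0,[(2,0),(31,0)]⟩⟩,.o ⟨false,0,⟨0,[(2,0)]⟩,⟨7,[(4,1),(1,1),(1,1),(10,1),(1,1),(4,2),(9,
  0)]⟩⟩,.o ⟨false,0,⟨0,[(22,0)]⟩,⟨0,[(4,0)]⟩⟩]⟩) (.S ⟨1,0,[0,0,0,0,0,0,0,1],[0,0,1],[1,0,1],(⟨0,
  [(24,0)]⟩,⟨0,[(23,0)]⟩),⟨0,[(13,0)]⟩,.k,.k,⟨true,0,⟨1,[(1,1),(19,0),(0,0),(8,1)]⟩,⟨0,[(0,0),(8,0),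
  (8,0)]⟩⟩,⟨false,1,⟨1,[(14,0),(0,0),(20,0)]⟩,⟨0,[]⟩⟩,⟨false,0,⟨0,[(1,0),(29,1)]⟩,⟨17,[(5,7),(0,1),
  (2,7),(1,5),(7,1),(6,2),(9,4)]⟩⟩,⟨true,0,⟨0,[(34,0)]⟩,⟨0,[(33,0)]⟩⟩,[.o ⟨false,1,⟨1,[(19,1),(6,0),
  (9,0)]⟩,⟨0,[(0,0),(2,0)]⟩⟩,.o ⟨false,1,⟨0,[(0,0),(8,0),(26,0)]⟩,⟨0,[(20,0)]⟩⟩,.o ⟨false,1,⟨7,[(4,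
  1),(1,1),(1,1),(10,1),(1,1),(4,2),(9,0)]⟩,⟨0,[(2,0)]⟩⟩,.a ⟨true,0,⟨0,[(21,0)]⟩,⟨0,[(18,0)]⟩⟩
  ⟨true,0,⟨0,[]⟩,⟨0,[(38,0)]⟩⟩ ⟨false,1,⟨0,[(5,0),(25,0)]⟩,⟨1,[(1,1),(19,0),(0,0),(8,1)]⟩⟩]⟩)) (.I
  [1,-1,-1,0,1,0,0,-1] (.I [0,-1,-1,-1,1,0,0,1] (.I [1,1,-1,0,0,0,0,-1] (.I [1,1,-1,-1,0,0,0,1] (.I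
  [1,-1,1,0,0,0,0,1] (.Q [0,0,0,0,0,0,-1,-1,0,0,-1] (.p false [0,0,1] [] (⟨0,[(28,0)]⟩,⟨0,[(27,
  0)]⟩) .k 0 (⟨0,[]⟩,⟨0,[]⟩) .k .k) (.S ⟨1,0,[0,0,0,0,0,0,0,1],[0,0,1],[1,1,0,-1,0,0,0,1],(⟨0,[(29,
  0)]⟩,⟨0,[(28,0)]⟩),⟨0,[(18,0)]⟩,.k,.k,⟨true,0,⟨0,[(38,0)]⟩,⟨0,[(39,0)]⟩⟩,⟨false,1,⟨1,[(19,0),(0,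
  0),(20,0)]⟩,⟨0,[]⟩⟩,⟨false,0,⟨0,[]⟩,⟨1,[(19,0),(0,0),(20,0)]⟩⟩,⟨true,0,⟨0,[(39,0)]⟩,⟨0,[(38,0)]⟩⟩,
  [.o ⟨false,1,⟨1,[(6,0),(4,0),(12,0),(6,0)]⟩,⟨0,[(0,0)]⟩⟩,.o ⟨false,1,⟨0,[(1,0),(7,0)]⟩,⟨0,[(25,
  0)]⟩⟩,.o ⟨false,1,⟨7,[(6,0),(2,1),(1,2),(1,1),(10,0),(1,1),(4,2)]⟩,⟨0,[(7,0)]⟩⟩,.a ⟨true,0,⟨0,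
  [(26,0)]⟩,⟨0,[(23,0)]⟩⟩ ⟨true,0,⟨0,[(2,0)]⟩,⟨0,[(13,0)]⟩⟩ ⟨false,1,⟨1,[(4,0),(1,0),(33,0)]⟩,⟨0,
  [(0,0),(25,0)]⟩⟩]⟩) (.R ⟨2,true,false,true,[0,1],[0,0,1],[0,0,1,1],(⟨0,[]⟩,⟨0,[]⟩),(⟨0,[(29,0)]⟩,
  ⟨0,[(28,0)]⟩),⟨0,[]⟩,.k,.k,.k,.k,.k,.k,⟨false,1,⟨1,[(13,1),(26,0),(0,0)]⟩,⟨0,[(2,0)]⟩⟩,⟨true,0,⟨0,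
  [(26,0)]⟩,⟨0,[(7,0)]⟩⟩,⟨false,1,⟨1,[(19,0),(0,0),(20,0)]⟩,⟨0,[]⟩⟩,⟨true,0,⟨0,[(14,0)]⟩,⟨0,[(3,0),
  (3,0),(28,0)]⟩⟩,⟨true,0,⟨0,[(39,0)]⟩,⟨0,[(38,0)]⟩⟩,⟨false,0,⟨0,[(0,0)]⟩,⟨2,[(5,0),(2,0),(4,0),(2,
  0),(14,0),(9,0)]⟩⟩,[]⟩)) (.S ⟨1,0,[0,0,1,1,0,0,0,-1],[1,1,-1],[0,1,1,1,0,0,0,-1],(⟨0,[(27,0),(4,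
  0)]⟩,⟨0,[(17,0)]⟩),⟨0,[(27,0)]⟩,.k,.k,⟨true,0,⟨0,[(42,0)]⟩,⟨0,[]⟩⟩,⟨false,1,⟨1,[(18,0),(0,0),(20,
  0)]⟩,⟨0,[]⟩⟩,⟨false,0,⟨0,[(38,0)]⟩,⟨0,[(37,0),(2,0)]⟩⟩,⟨true,0,⟨0,[(38,0)]⟩,⟨0,[(37,0)]⟩⟩,[.o
  ⟨false,0,⟨0,[(2,0),(3,0),(28,0)]⟩,⟨1,[(13,1),(16,0),(9,0)]⟩⟩,.e ⟨false,0,⟨0,[(0,0),(34,0)]⟩,⟨11,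
  [(3,4),(5,1),(0,2),(2,1),(1,3),(7,2),(6,1)]⟩⟩ ⟨false,1,⟨1,[(12,1),(26,0),(0,0)]⟩,⟨0,[(1,0)]⟩⟩,.a
  ⟨true,0,⟨0,[(22,0)]⟩,⟨0,[(25,0)]⟩⟩ ⟨false,0,⟨0,[(12,0)]⟩,⟨0,[(3,0)]⟩⟩ ⟨true,0,⟨0,[(12,0)]⟩,⟨0,[(1,
  0)]⟩⟩,.o ⟨false,0,⟨0,[(6,0)]⟩,⟨7,[(5,0),(2,1),(1,2),(1,1),(10,0),(1,1),(4,2)]⟩⟩]⟩)) (.S ⟨1,0,[0,0,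
  1,1,0,0,0,-1],[1,1,-1],[0,1,1,1,0,0,0,-1],(⟨0,[(26,0),(4,0)]⟩,⟨0,[(16,0)]⟩),⟨0,[(26,0)]⟩,.k,.k,
  ⟨true,0,⟨0,[(41,0)]⟩,⟨0,[]⟩⟩,⟨false,1,⟨1,[(17,0),(0,0),(20,0)]⟩,⟨0,[]⟩⟩,⟨false,0,⟨0,[(37,0)]⟩,⟨0,
  [(36,0),(2,0)]⟩⟩,⟨true,0,⟨0,[(37,0)]⟩,⟨0,[(36,0)]⟩⟩,[.o ⟨false,0,⟨1,[(0,0),(0,0),(3,1),(31,0)]⟩,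
  ⟨1,[(12,1),(16,0),(9,0)]⟩⟩,.a ⟨true,0,⟨0,[(0,0),(20,0)]⟩,⟨0,[(12,0)]⟩⟩ ⟨false,0,⟨1,[(0,0),(0,0),
  (35,0)]⟩,⟨11,[(2,4),(5,1),(0,2),(2,1),(1,3),(7,2),(6,1)]⟩⟩ ⟨true,0,⟨0,[(0,0)]⟩,⟨0,[(5,0),(6,0)]⟩⟩,
  .e ⟨false,0,⟨0,[(11,0)]⟩,⟨0,[(2,0)]⟩⟩ ⟨false,0,⟨0,[(0,0)]⟩,⟨11,[(2,4),(5,1),(0,2),(2,1),(1,3),(7,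
  2),(6,1)]⟩⟩,.o ⟨false,0,⟨0,[(5,0)]⟩,⟨7,[(4,0),(2,1),(1,2),(1,1),(10,0),(1,1),(4,2)]⟩⟩]⟩)) (.Q [0,
  0,0,1,0,0,-1,-1,0,0,-1] (.p false [0,0,1] [] (⟨0,[(26,0)]⟩,⟨0,[(25,0)]⟩) .k 0 (⟨0,[]⟩,⟨0,[]⟩) .k
  .k) (.Q [0,0,0,0,0,0,1,1,0,0,1] (.p true [0,0,1] [] (⟨0,[(27,0)]⟩,⟨0,[(26,0)]⟩) .k 0 (⟨0,[]⟩,⟨0,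
  []⟩) .k .k) (.R ⟨2,true,false,false,[0,1],[0,0,1],[1,1,1],(⟨0,[]⟩,⟨0,[]⟩),(⟨0,[(28,0)]⟩,⟨0,[(27,
  0)]⟩),⟨0,[]⟩,.k,.k,.k,.k,.k,.k,⟨false,0,⟨0,[(11,0)]⟩,⟨1,[(3,0),(1,0),(33,0)]⟩⟩,⟨true,0,⟨0,[(25,
  0)]⟩,⟨0,[(6,0)]⟩⟩,⟨true,0,⟨0,[(37,0)]⟩,⟨0,[(38,0)]⟩⟩,⟨false,1,⟨0,[(2,0),(7,0)]⟩,⟨0,[(1,0)]⟩⟩,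
  ⟨false,0,⟨0,[]⟩,⟨1,[(18,0),(0,0),(20,0)]⟩⟩,⟨true,0,⟨0,[(0,0)]⟩,⟨0,[(24,0)]⟩⟩,[]⟩) (.S ⟨1,0,[0,0,0,
  0,0,0,0,1],[0,0,1],[0,1,0,0,0,0,0,1],(⟨0,[(28,0)]⟩,⟨0,[(27,0)]⟩),⟨0,[(17,0)]⟩,.k,.k,⟨true,0,⟨0,
  [(42,0)]⟩,⟨0,[]⟩⟩,⟨false,1,⟨1,[(18,0),(0,0),(20,0)]⟩,⟨0,[]⟩⟩,⟨false,0,⟨0,[(38,0)]⟩,⟨3,[(2,1),(4,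
  1),(2,1),(19,0),(9,0)]⟩⟩,⟨true,0,⟨0,[(38,0)]⟩,⟨0,[(37,0)]⟩⟩,[.o ⟨false,1,⟨1,[(5,0),(4,0),(12,0),
  (6,0)]⟩,⟨0,[(0,0)]⟩⟩,.o ⟨false,1,⟨0,[(2,0),(5,0)]⟩,⟨0,[(24,0)]⟩⟩,.o ⟨false,1,⟨7,[(5,0),(2,1),(1,
  2),(1,1),(10,0),(1,1),(4,2)]⟩,⟨0,[(6,0)]⟩⟩,.a ⟨true,0,⟨0,[(25,0)]⟩,⟨0,[(22,0)]⟩⟩ ⟨true,0,⟨0,[(2,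
  0),(33,1)]⟩,⟨0,[(0,0),(24,0)]⟩⟩ ⟨false,1,⟨1,[(3,0),(1,0),(33,0)]⟩,⟨0,[(0,0),(24,0)]⟩⟩]⟩)) (.R ⟨0,
  false,false,false,[1,0,-1],[1,-1],[1,1,0,0,0,0,0,-1],(⟨0,[(26,0)]⟩,⟨0,[(27,0)]⟩),(⟨0,[(30,0)]⟩,⟨0,
  [(31,0)]⟩),⟨0,[(15,0)]⟩,.k,.k,.k,.k,.k,.k,⟨false,0,⟨0,[(11,0),(23,0)]⟩,⟨0,[(2,0)]⟩⟩,⟨true,0,⟨0,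
  [(24,0)]⟩,⟨0,[(5,0)]⟩⟩,⟨false,0,⟨0,[]⟩,⟨1,[(17,0),(0,0),(20,0)]⟩⟩,⟨true,0,⟨0,[(0,0)]⟩,⟨0,[(23,0),
  (13,0)]⟩⟩,⟨false,0,⟨0,[]⟩,⟨0,[]⟩⟩,⟨false,0,⟨0,[]⟩,⟨0,[]⟩⟩,[.a ⟨true,0,⟨1,[(0,0),(5,0),(14,0),(2,
  0)]⟩,⟨0,[(37,0)]⟩⟩ ⟨true,0,⟨0,[(10,0)]⟩,⟨0,[(1,0)]⟩⟩ ⟨false,1,⟨0,[(9,0)]⟩,⟨0,[(5,0),(31,0)]⟩⟩,.e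
  ⟨false,1,⟨2,[(3,0),(5,0),(1,0),(11,0),(14,0)]⟩,⟨0,[(1,0),(33,0)]⟩⟩ ⟨false,1,⟨0,[(0,0),(2,0)]⟩,⟨1,
  [(13,0),(15,0),(2,0),(4,1)]⟩⟩,.o ⟨false,0,⟨0,[(5,0)]⟩,⟨7,[(4,0),(2,1),(1,2),(1,1),(10,0),(1,1),(4,
  2)]⟩⟩,.o ⟨false,0,⟨0,[(25,0)]⟩,⟨0,[(7,0)]⟩⟩]⟩))) (.S ⟨1,0,[0,0,1,1,0,0,0,-1],[1,1,-1],[],(⟨0,[(24,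
  0),(4,0)]⟩,⟨0,[(14,0)]⟩),⟨0,[(24,0)]⟩,.k,.k,⟨true,1,⟨17,[(2,1),(3,7),(0,3),(2,7),(1,5),(14,2),(9,
  2)]⟩,⟨0,[(0,0)]⟩⟩,⟨false,1,⟨1,[(15,0),(0,0),(20,0)]⟩,⟨0,[]⟩⟩,⟨false,1,⟨3,[(2,1),(3,1),(29,0),(0,
  0)]⟩,⟨3,[(0,1),(3,1),(17,1),(4,0),(9,0)]⟩⟩,⟨true,0,⟨0,[(35,0)]⟩,⟨0,[(34,0)]⟩⟩,[.o ⟨false,0,⟨2,[(0,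
  1),(0,0),(1,0),(15,1),(7,0),(4,0)]⟩,⟨1,[(10,1),(16,0),(9,0)]⟩⟩,.a ⟨true,0,⟨0,[(0,0),(18,0),(17,
  0)]⟩,⟨0,[(10,0)]⟩⟩ ⟨false,1,⟨1,[(36,0),(0,0)]⟩,⟨0,[(39,0)]⟩⟩ ⟨true,0,⟨0,[(0,0),(36,0)]⟩,⟨0,[(3,0),
  (6,0)]⟩⟩,.e ⟨false,1,⟨1,[(15,0),(0,0),(20,0)]⟩,⟨0,[]⟩⟩ ⟨false,0,⟨0,[(0,0),(36,0)]⟩,⟨17,[(2,1),(3,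
  7),(0,3),(2,7),(1,5),(14,2),(9,2)]⟩⟩,.o ⟨false,0,⟨0,[(3,0)]⟩,⟨7,[(2,0),(2,1),(1,2),(1,1),(10,0),
  (1,1),(4,2)]⟩⟩]⟩)) (.I [0,1,-1,-1,0,0,0,1] (.Q [0,0,0,-1,0,0,0,0,0,1] (.pp false [-1,1]) (.R ⟨0,
  false,false,false,[1,0,-1],[0,1],[0,1,0,0,0,0,0,-1],(⟨0,[(25,0)]⟩,⟨0,[(26,0)]⟩),(⟨0,[(30,0)]⟩,⟨0,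
  [(29,0)]⟩),⟨0,[(14,0)]⟩,.k,.k,.k,.k,.k,.k,⟨false,1,⟨0,[(5,0),(0,0),(27,0)]⟩,⟨0,[(3,0)]⟩⟩,⟨true,1,
  ⟨0,[(6,0)]⟩,⟨0,[(2,0),(2,0),(27,0)]⟩⟩,⟨true,0,⟨0,[(40,0)]⟩,⟨0,[]⟩⟩,⟨false,1,⟨0,[(3,0),(2,0)]⟩,⟨0,
  [(5,0)]⟩⟩,⟨false,0,⟨0,[]⟩,⟨0,[]⟩⟩,⟨false,0,⟨0,[]⟩,⟨0,[]⟩⟩,[.a ⟨true,0,⟨0,[(36,0)]⟩,⟨0,[(0,0)]⟩⟩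
  ⟨true,0,⟨0,[(9,0)]⟩,⟨0,[(2,0),(35,0)]⟩⟩ ⟨false,1,⟨0,[(6,0),(29,0)]⟩,⟨4,[(0,0),(0,1),(3,1),(6,0),
  (11,0),(13,0)]⟩⟩,.o ⟨false,1,⟨1,[(28,0),(7,1),(1,0)]⟩,⟨0,[(35,0)]⟩⟩,.o ⟨false,0,⟨0,[(4,0)]⟩,⟨7,
  [(3,0),(2,1),(1,2),(1,1),(10,0),(1,1),(4,2)]⟩⟩,.o ⟨false,0,⟨0,[(24,0)]⟩,⟨0,[(6,0)]⟩⟩]⟩) (.R ⟨1,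
  false,false,true,[0,0,1],[1,-1],[1,0,0,-1,0,0,0,1],(⟨0,[(26,0)]⟩,⟨0,[(25,0)]⟩),(⟨0,[(29,0)]⟩,⟨0,
  [(30,0)]⟩),⟨0,[(15,0)]⟩,.k,.k,.k,.k,.k,.k,⟨true,0,⟨0,[(2,0),(35,0)]⟩,⟨0,[(9,0)]⟩⟩,⟨false,0,⟨12,
  [(3,0),(4,2),(1,1),(1,2),(0,3),(6,2),(0,0)]⟩,⟨0,[(6,0)]⟩⟩,⟨false,1,⟨0,[(35,0),(2,0)]⟩,⟨0,[(36,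
  0)]⟩⟩,⟨false,0,⟨0,[(5,0)]⟩,⟨0,[(3,0),(2,0)]⟩⟩,⟨true,0,⟨0,[]⟩,⟨0,[(40,0)]⟩⟩,⟨false,0,⟨1,[(5,0),(4,
  0),(9,0)]⟩,⟨0,[(0,0),(10,0),(26,0)]⟩⟩,[.o ⟨false,0,⟨0,[(35,0)]⟩,⟨2,[(0,0),(2,0),(6,0),(17,0),(8,
  0),(0,0)]⟩⟩,.o ⟨false,1,⟨0,[(8,0),(15,0)]⟩,⟨0,[(0,0)]⟩⟩,.o ⟨false,1,⟨7,[(3,0),(2,1),(1,2),(1,1),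
  (10,0),(1,1),(4,2)]⟩,⟨0,[(4,0)]⟩⟩,.a ⟨true,0,⟨0,[(23,0)]⟩,⟨0,[(20,0)]⟩⟩ ⟨false,1,⟨0,[(1,0),(36,
  0)]⟩,⟨0,[(10,0)]⟩⟩ ⟨true,0,⟨5,[(1,1),(3,2),(1,0),(4,0),(7,0),(10,1)]⟩,⟨0,[(0,0),(22,0)]⟩⟩]⟩)) (.R
  ⟨2,true,false,false,[0,1],[1,1,-1],[0,0,1,1],(⟨0,[]⟩,⟨0,[]⟩),(⟨0,[(24,0),(4,0)]⟩,⟨0,[(14,0)]⟩),⟨0,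
  []⟩,.k,.k,.k,.k,.k,.k,⟨true,0,⟨2,[(1,0),(0,0),(3,0)]⟩,⟨0,[(0,0),(33,0)]⟩⟩,⟨false,0,⟨0,[(19,0)]⟩,
  ⟨7,[(2,0),(2,1),(1,2),(1,1),(10,0),(1,1),(4,2)]⟩⟩,⟨false,1,⟨1,[(15,0),(0,0),(20,0)]⟩,⟨0,[]⟩⟩,
  ⟨true,0,⟨1,[(4,0),(4,0),(9,0)]⟩,⟨0,[(1,0),(3,0)]⟩⟩,⟨true,0,⟨0,[(35,0)]⟩,⟨0,[(34,0)]⟩⟩,⟨false,0,⟨0,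
  [(0,0),(18,0)]⟩,⟨1,[(10,1),(16,0),(9,0)]⟩⟩,[]⟩)))) (.Q [0,0,0,0,0,0,-1,-1,0,0,-1] (.p false [0,0,
  1] [] (⟨0,[(22,0)]⟩,⟨0,[(21,0)]⟩) .k 0 (⟨0,[]⟩,⟨0,[]⟩) .k .k) (.I [0,-1,0,1,0,0,0,-1] (.I [0,1,0,
  0,0,0,0,1] (.S ⟨1,0,[0,0,0,0,0,0,0,1],[0,0,1],[1],(⟨0,[(25,0)]⟩,⟨0,[(24,0)]⟩),⟨0,[(14,0)]⟩,.k,.k,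
  ⟨true,0,⟨0,[(2,0),(0,0)]⟩,⟨0,[(0,0)]⟩⟩,⟨false,1,⟨1,[(15,0),(0,0),(20,0)]⟩,⟨0,[]⟩⟩,⟨false,0,⟨0,[(1,
  0)]⟩,⟨5,[(0,1),(6,1),(2,3),(1,1),(10,1),(3,0),(9,2)]⟩⟩,⟨true,0,⟨0,[(35,0)]⟩,⟨0,[(34,0)]⟩⟩,[.o
  ⟨false,1,⟨1,[(20,1),(6,0),(9,0)]⟩,⟨0,[(2,0)]⟩⟩,.e ⟨false,1,⟨1,[(36,0),(0,0)]⟩,⟨0,[(39,0)]⟩⟩
  ⟨false,1,⟨0,[(6,0),(25,0)]⟩,⟨0,[(8,0)]⟩⟩,.a ⟨true,0,⟨0,[(3,0)]⟩,⟨12,[(7,1),(1,1),(1,2),(0,3),(6,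
  2),(0,1),(16,0)]⟩⟩ ⟨true,0,⟨0,[]⟩,⟨0,[(39,0)]⟩⟩ ⟨false,1,⟨0,[(0,0),(36,0)]⟩,⟨0,[(2,0),(0,0)]⟩⟩,.e
  ⟨false,1,⟨1,[(36,0),(0,0)]⟩,⟨1,[(22,0),(0,0)]⟩⟩ ⟨false,1,⟨0,[(6,0),(25,0)]⟩,⟨0,[(2,0),(19,
  0)]⟩⟩]⟩) (.I [0,0,-1,-1,0,0,0,-1] (.R ⟨0,false,false,false,[-1,1,1],[1,0,-1],[1,0,1,1,0,0,0,1],
  (⟨0,[(14,0)]⟩,⟨0,[(25,0),(3,0)]⟩),(⟨0,[(25,0)]⟩,⟨0,[(26,0)]⟩),⟨0,[(25,0)]⟩,.k,.k,.k,(.r (-1) ⟨1,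
  [(13,1),(7,3),(6,0),(4,1),(4,0)]⟩ ⟨1,[(0,2),(9,0)]⟩),.k,.k,⟨false,1,⟨2,[(7,1),(5,1),(7,3),(6,0),
  (4,3),(2,0)]⟩,⟨1,[(0,2),(9,0)]⟩⟩,⟨true,(-1),⟨0,[(12,0)]⟩,⟨0,[(4,1),(23,0)]⟩⟩,⟨true,0,⟨0,[]⟩,⟨0,
  [(40,0)]⟩⟩,⟨false,(-1),⟨0,[(0,0),(0,0),(10,0)]⟩,⟨0,[(21,1),(6,0),(7,0),(1,0)]⟩⟩,⟨false,0,⟨0,[]⟩,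
  ⟨0,[]⟩⟩,⟨false,0,⟨0,[]⟩,⟨0,[]⟩⟩,[.o ⟨false,0,⟨0,[(3,0)]⟩,⟨1,[(21,1),(6,0),(9,0)]⟩⟩,.a ⟨true,0,⟨4,
  [(1,0),(0,1),(2,1),(6,0),(7,0),(17,0)]⟩,⟨0,[(21,0)]⟩⟩ ⟨false,1,⟨5,[(7,1),(5,1),(7,3),(6,0),(4,3),
  (2,3),(1,2)]⟩,⟨3,[(0,2),(8,0),(21,0),(3,0)]⟩⟩ ⟨true,(-1),⟨0,[(1,0),(10,0)]⟩,⟨0,[(4,0),(16,0),(6,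
  0)]⟩⟩,.e ⟨false,1,⟨9,[(10,1),(2,5),(7,11),(6,2),(4,7),(4,6)]⟩,⟨0,[(0,0)]⟩⟩ ⟨false,(-1),⟨0,[(1,0),
  (10,0)]⟩,⟨1,[(6,1),(14,1),(6,0),(9,0)]⟩⟩,.o ⟨false,1,⟨0,[(4,0),(23,0)]⟩,⟨12,[(8,1),(1,1),(1,2),(0,
  3),(6,2),(0,1),(16,0)]⟩⟩]⟩) (.R ⟨0,false,false,true,[-1,1,1],[1,0,-1],[0,1],(⟨0,[(14,0)]⟩,⟨0,[(25,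
  0),(3,0)]⟩),(⟨0,[(25,0)]⟩,⟨0,[(26,0)]⟩),⟨0,[(25,0)]⟩,.k,.k,.k,(.r (-1) ⟨25,[(0,47),(6,1),(0,17),
  (2,1),(1,9),(14,4),(9,0)]⟩ ⟨0,[(1,1),(32,0),(0,0)]⟩),.k,.k,⟨false,1,⟨15,[(0,9),(6,5),(0,3),(4,1),
  (14,0),(8,4)]⟩,⟨1,[(1,0),(7,0)]⟩⟩,⟨true,(-1),⟨0,[(12,0)]⟩,⟨0,[(4,1),(23,0)]⟩⟩,⟨true,0,⟨0,[(1,0),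
  (32,0),(0,0)]⟩,⟨0,[(0,0)]⟩⟩,⟨false,(-1),⟨0,[(1,1),(10,0),(21,0),(0,0)]⟩,⟨0,[(4,0),(2,0),(13,0),(6,
  0),(4,1)]⟩⟩,⟨false,0,⟨0,[]⟩,⟨0,[]⟩⟩,⟨false,0,⟨0,[]⟩,⟨0,[]⟩⟩,[.e ⟨false,0,⟨0,[(34,0)]⟩,⟨9,[(0,1),
  (7,3),(1,1),(2,1),(14,0),(9,4)]⟩⟩ ⟨false,(-1),⟨0,[(1,0),(10,0),(18,0)]⟩,⟨0,[(4,1),(2,0),(20,0),(4,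
  0)]⟩⟩,.o ⟨false,0,⟨0,[(3,0)]⟩,⟨3,[(0,1),(5,1),(4,1),(16,0),(9,0)]⟩⟩,.a ⟨true,1,⟨0,[(6,0)]⟩,⟨0,[(4,
  0),(7,0)]⟩⟩ ⟨true,0,⟨0,[(40,0)]⟩,⟨0,[]⟩⟩ ⟨false,(-1),⟨1,[(1,0),(7,0),(2,1)]⟩,⟨0,[(4,1),(2,0),(20,
  0),(4,0)]⟩⟩,.o ⟨false,1,⟨0,[(4,0),(23,0)]⟩,⟨7,[(0,0),(7,1),(1,0),(1,1),(0,1),(6,1)]⟩⟩]⟩))) (.S ⟨1,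
  0,[0,0,0,0,0,0,0,1],[0,0,1],[1,1,0,-1,0,0,0,1],(⟨0,[(24,0)]⟩,⟨0,[(23,0)]⟩),⟨0,[(13,0)]⟩,.k,.k,
  ⟨true,0,⟨0,[(33,0)]⟩,⟨0,[(34,0)]⟩⟩,⟨false,1,⟨1,[(14,0),(0,0),(20,0)]⟩,⟨0,[]⟩⟩,⟨false,0,⟨0,[]⟩,⟨1,
  [(14,0),(0,0),(20,0)]⟩⟩,⟨true,0,⟨0,[(34,0)]⟩,⟨0,[(33,0)]⟩⟩,[.o ⟨false,1,⟨1,[(19,1),(6,0),(9,0)]⟩,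
  ⟨0,[(1,0)]⟩⟩,.e ⟨false,1,⟨9,[(0,3),(4,3),(0,1),(4,1),(7,1),(6,0),(9,2)]⟩,⟨0,[(1,0),(0,0),(31,
  0)]⟩⟩ ⟨false,1,⟨0,[(5,0),(25,0)]⟩,⟨0,[(7,0)]⟩⟩,.a ⟨true,0,⟨0,[(2,0)]⟩,⟨12,[(6,1),(1,1),(1,2),(0,
  3),(6,2),(0,1),(16,0)]⟩⟩ ⟨true,0,⟨0,[(0,0)]⟩,⟨0,[(1,0),(0,0),(31,0)]⟩⟩ ⟨false,1,⟨7,[(0,1),(4,1),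
  (5,1),(7,3),(6,0),(4,3),(4,4)]⟩,⟨0,[(1,0),(0,0)]⟩⟩,.e ⟨false,1,⟨9,[(0,3),(4,3),(0,1),(4,1),(7,1),
  (6,0),(9,2)]⟩,⟨0,[(1,0),(0,0),(28,0)]⟩⟩ ⟨false,1,⟨0,[(5,0),(25,0)]⟩,⟨0,[(1,0),(19,0)]⟩⟩]⟩)) (.I
  [1,0,0,-1,0,0,0,1] (.S ⟨1,0,[0,1,1,1,0,0,0,-1],[1,1,-1],[0,0,1,1,0,0,0,-1],(⟨0,[(23,0),(4,0)]⟩,⟨0,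
  [(13,0)]⟩),⟨0,[(23,0)]⟩,.k,.k,⟨false,1,⟨1,[(14,0),(0,0),(20,0)]⟩,⟨0,[]⟩⟩,⟨true,0,⟨0,[(38,0)]⟩,⟨0,
  []⟩⟩,⟨true,0,⟨0,[(34,0)]⟩,⟨0,[(33,0)]⟩⟩,⟨false,0,⟨0,[(34,0)]⟩,⟨0,[(33,0),(2,0)]⟩⟩,[.o ⟨false,0,⟨0,
  [(20,0),(13,0)]⟩,⟨1,[(0,1),(1,1),(23,0),(9,0)]⟩⟩,.a ⟨true,0,⟨0,[(8,0),(9,0)]⟩,⟨0,[(0,0),(1,0)]⟩⟩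
  ⟨false,1,⟨1,[(8,1),(26,0),(0,0)]⟩,⟨0,[(0,0),(31,0)]⟩⟩ ⟨true,0,⟨0,[(8,0)]⟩,⟨0,[(0,0)]⟩⟩,.a ⟨true,0,
  ⟨0,[(18,0)]⟩,⟨0,[(21,0)]⟩⟩ ⟨true,0,⟨0,[(8,0)]⟩,⟨0,[(0,0),(31,0)]⟩⟩ ⟨false,0,⟨0,[(8,0)]⟩,⟨1,[(0,0),
  (4,0),(30,0)]⟩⟩,.a ⟨true,0,⟨12,[(6,1),(1,1),(1,2),(0,3),(6,2),(0,1),(16,0)]⟩,⟨0,[(2,0)]⟩⟩ ⟨false,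
  1,⟨1,[(8,1),(26,0),(0,0)]⟩,⟨0,[(0,0)]⟩⟩ ⟨true,0,⟨0,[(8,0),(23,0)]⟩,⟨0,[(0,0)]⟩⟩]⟩) (.Q [0,0,-1,0,
  1,0,2,1,0,-2,2] (.p true [0,0,1] [2,-1,-1] (⟨0,[(24,0)]⟩,⟨0,[(23,0)]⟩) .k 2 (⟨0,[(23,0),(3,0)]⟩,
  ⟨0,[(12,0)]⟩) .k (.x (-1) ⟨0,[(2,1),(20,1),(2,0)]⟩ ⟨0,[(11,0),(0,0),(0,0)]⟩)) (.I [1,-1,-1,0,1,0,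
  0,-1] (.R ⟨0,false,false,true,[-1,1,1],[1,0,-1],[0,1,1,0,0,0,0,1],(⟨0,[(14,0)]⟩,⟨0,[(25,0),(3,
  0)]⟩),(⟨0,[(25,0)]⟩,⟨0,[(26,0)]⟩),⟨0,[(25,0)]⟩,.k,.k,.k,(.r 0 ⟨0,[(3,1),(8,0),(15,0),(7,0)]⟩ ⟨0,
  [(1,0),(0,0),(2,1)]⟩),.k,.k,⟨false,0,⟨0,[(1,1),(10,1)]⟩,⟨0,[(0,0),(8,0)]⟩⟩,⟨true,(-1),⟨0,[(12,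
  0)]⟩,⟨0,[(4,1),(23,0)]⟩⟩,⟨true,0,⟨0,[(35,0)]⟩,⟨0,[(36,0)]⟩⟩,⟨false,0,⟨1,[(5,2),(4,0),(9,0)]⟩,⟨0,
  [(1,1),(10,0),(20,0)]⟩⟩,⟨false,0,⟨0,[]⟩,⟨0,[]⟩⟩,⟨false,0,⟨0,[]⟩,⟨0,[]⟩⟩,[.o ⟨false,0,⟨0,[(22,0)]⟩,
  ⟨1,[(3,1),(24,0),(9,0)]⟩⟩,.e ⟨false,0,⟨0,[(1,0),(10,0)]⟩,⟨18,[(0,12),(7,4),(1,4),(2,1),(8,0),(5,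
  0),(2,5)]⟩⟩ ⟨false,0,⟨2,[(5,0),(2,0),(1,1),(1,0),(0,0),(6,1)]⟩,⟨0,[(1,0)]⟩⟩,.a ⟨true,1,⟨0,[(6,
  0)]⟩,⟨0,[(4,0),(7,0)]⟩⟩ ⟨false,0,⟨0,[(3,0),(20,0)]⟩,⟨0,[(0,0)]⟩⟩ ⟨true,(-1),⟨0,[(9,0),(2,0)]⟩,⟨0,
  [(1,0)]⟩⟩,.o ⟨false,1,⟨0,[(4,0),(23,0)]⟩,⟨12,[(8,1),(1,1),(1,2),(0,3),(6,2),(0,1),(16,0)]⟩⟩]⟩)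
  (.R ⟨0,false,false,true,[-1,1,1],[1,0,-1],[1,1,1],(⟨0,[(14,0)]⟩,⟨0,[(25,0),(3,0)]⟩),(⟨0,[(25,0)]⟩,
  ⟨0,[(26,0)]⟩),⟨0,[(25,0)]⟩,.k,.k,.k,(.r 0 ⟨1,[(0,0),(0,0),(1,0),(9,1),(7,0),(11,1)]⟩ ⟨0,[(1,0),(0,
  0),(2,1)]⟩),.k,.k,⟨false,0,⟨1,[(0,0),(6,0),(25,0)]⟩,⟨1,[(5,0),(0,0),(3,0),(26,0)]⟩⟩,⟨true,(-1),⟨0,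
  [(12,0)]⟩,⟨0,[(4,1),(23,0)]⟩⟩,⟨true,0,⟨0,[(0,0),(0,0),(0,0),(2,1)]⟩,⟨1,[(0,0),(6,0),(25,0),(2,
  1)]⟩⟩,⟨false,0,⟨1,[(5,2),(4,0),(9,0)]⟩,⟨1,[(0,0),(0,1),(5,0),(25,2)]⟩⟩,⟨false,0,⟨0,[]⟩,⟨0,[]⟩⟩,
  ⟨false,0,⟨0,[]⟩,⟨0,[]⟩⟩,[.o ⟨false,0,⟨0,[(22,0)]⟩,⟨1,[(3,1),(24,0),(9,0)]⟩⟩,.e ⟨false,0,⟨0,[]⟩,⟨1,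
  [(16,0),(0,0),(19,0)]⟩⟩ ⟨false,0,⟨2,[(5,0),(2,0),(1,1),(1,0),(0,0),(6,1)]⟩,⟨0,[(1,0)]⟩⟩,.a ⟨true,
  1,⟨0,[(6,0)]⟩,⟨0,[(4,0),(7,0)]⟩⟩ ⟨false,0,⟨1,[(23,0),(0,0)]⟩,⟨1,[(37,0),(0,0)]⟩⟩ ⟨true,(-1),⟨0,
  [(9,0),(2,0)]⟩,⟨0,[(1,0)]⟩⟩,.o ⟨false,1,⟨0,[(4,0),(23,0)]⟩,⟨12,[(8,1),(1,1),(1,2),(0,3),(6,2),(0,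
  1),(16,0)]⟩⟩]⟩)) (.I [0,-1,1,1,0,0,0,1] (.I [1,0,0,0,0,0,0,-1] (.Q [0,0,0,1,0,0,-1,-1,0,0,-1] (.p
  false [0,0,1] [] (⟨0,[(27,0)]⟩,⟨0,[(26,0)]⟩) .k 0 (⟨0,[]⟩,⟨0,[]⟩) .k .k) (.R ⟨2,true,false,true,
  [0,1],[0,0,1],[1,1],(⟨0,[]⟩,⟨0,[]⟩),(⟨0,[(28,0)]⟩,⟨0,[(27,0)]⟩),⟨0,[]⟩,.k,.k,.k,.k,.k,.k,⟨true,0,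
  ⟨0,[(1,0)]⟩,⟨1,[(2,0),(10,0),(12,0)]⟩⟩,⟨false,0,⟨0,[(6,0)]⟩,⟨3,[(15,1),(2,0),(0,0),(10,0),(8,
  1)]⟩⟩,⟨false,1,⟨4,[(7,0),(1,0),(0,2),(4,0),(14,0)]⟩,⟨0,[(1,0),(0,0)]⟩⟩,⟨true,0,⟨0,[(13,0)]⟩,⟨0,
  [(0,0)]⟩⟩,⟨true,0,⟨0,[(36,0)]⟩,⟨1,[(25,0),(0,0)]⟩⟩,⟨false,0,⟨0,[(5,0)]⟩,⟨5,[(0,0),(6,2),(4,1),(2,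
  0),(14,1),(8,0),(0,2)]⟩⟩,[]⟩) (.R ⟨0,false,false,false,[-1,1,1],[1,1,-1],[0,1,1,0,0,0,0,1],(⟨0,
  [(16,0)]⟩,⟨0,[(27,0),(3,0)]⟩),(⟨0,[(27,0),(4,0)]⟩,⟨0,[(17,0)]⟩),⟨0,[(27,0)]⟩,.k,.k,.k,.k,.k,.k,
  ⟨true,0,⟨3,[(0,5),(1,1),(11,2),(15,2),(2,0),(2,3)]⟩,⟨0,[(1,1),(33,0)]⟩⟩,⟨false,0,⟨12,[(2,0),(7,2),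
  (1,1),(1,2),(0,3),(6,15),(0,0)]⟩,⟨0,[(6,1),(23,0)]⟩⟩,⟨true,0,⟨0,[(37,0)]⟩,⟨0,[(38,0)]⟩⟩,⟨false,0,
  ⟨1,[(1,0),(1,0),(0,0),(2,0),(14,0),(17,0)]⟩,⟨0,[(5,1),(24,0)]⟩⟩,⟨false,0,⟨0,[]⟩,⟨0,[]⟩⟩,⟨false,0,
  ⟨0,[]⟩,⟨0,[]⟩⟩,[.a ⟨true,0,⟨0,[(12,0),(9,0)]⟩,⟨0,[(0,0)]⟩⟩ ⟨false,0,⟨3,[(0,1),(1,1),(11,0),(15,0),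
  (2,2)]⟩,⟨1,[(1,1),(37,0),(0,0)]⟩⟩ ⟨true,(-1),⟨0,[(3,0),(34,0)]⟩,⟨0,[(0,0),(5,0),(23,0)]⟩⟩,.a
  ⟨true,0,⟨0,[(1,0),(20,0),(12,0)]⟩,⟨0,[(13,0)]⟩⟩ ⟨true,0,⟨1,[(2,0),(10,0),(12,0)]⟩,⟨0,[(1,0)]⟩⟩
  ⟨false,0,⟨2,[(3,0),(8,1),(9,3),(12,0),(4,0)]⟩,⟨0,[(0,0),(5,0),(23,0),(5,0)]⟩⟩,.a ⟨true,1,⟨0,[(8,
  0)]⟩,⟨0,[(3,0),(1,0)]⟩⟩ ⟨false,0,⟨1,[(2,0),(10,0),(12,0)]⟩,⟨1,[(1,1),(37,0),(0,0)]⟩⟩ ⟨true,(-1),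
  ⟨0,[(3,0),(34,0)]⟩,⟨0,[(0,0),(5,0),(23,0),(5,0)]⟩⟩,.o ⟨false,1,⟨0,[(6,0),(23,0)]⟩,⟨12,[(2,0),(7,
  2),(1,1),(1,2),(0,3),(6,2),(0,0)]⟩⟩]⟩)) (.S ⟨1,0,[0,0,0,0,0,0,0,1],[0,0,1],[1,1],(⟨0,[(27,0)]⟩,⟨0,
  [(26,0)]⟩),⟨0,[(16,0)]⟩,.k,.k,⟨true,0,⟨0,[(10,0)]⟩,⟨0,[(0,0)]⟩⟩,⟨false,1,⟨1,[(17,0),(0,0),(20,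
  0)]⟩,⟨0,[]⟩⟩,⟨false,0,⟨0,[(3,0)]⟩,⟨0,[(0,0),(35,0),(2,0)]⟩⟩,⟨true,0,⟨0,[(37,0)]⟩,⟨0,[(36,0)]⟩⟩,
  [.a ⟨true,0,⟨0,[(4,0)]⟩,⟨2,[(2,0),(3,0),(4,0),(26,0)]⟩⟩ ⟨false,0,⟨0,[(35,0)]⟩,⟨1,[(17,0),(0,0),
  (20,0)]⟩⟩ ⟨true,0,⟨0,[(0,0)]⟩,⟨0,[(2,0),(2,1),(23,0)]⟩⟩,.o ⟨false,1,⟨1,[(4,1),(24,0),(9,0)]⟩,⟨0,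
  [(23,0)]⟩⟩,.a ⟨true,0,⟨0,[(5,0)]⟩,⟨12,[(1,0),(7,2),(1,1),(1,2),(0,3),(6,2),(0,0)]⟩⟩ ⟨false,0,⟨0,
  []⟩,⟨1,[(17,0),(0,0),(20,0)]⟩⟩ ⟨true,0,⟨0,[(0,0)]⟩,⟨0,[(10,0)]⟩⟩,.a ⟨true,0,⟨0,[(24,0)]⟩,⟨0,[(21,
  0)]⟩⟩ ⟨true,0,⟨0,[(35,0)]⟩,⟨1,[(24,0),(0,0)]⟩⟩ ⟨false,1,⟨3,[(1,1),(6,1),(29,0),(0,0)]⟩,⟨0,[(2,0),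
  (2,1),(23,0)]⟩⟩]⟩)) (.R ⟨0,false,false,true,[-1,1,1],[1,0,-1],[],(⟨0,[(14,0)]⟩,⟨0,[(25,0),(3,
  0)]⟩),(⟨0,[(25,0)]⟩,⟨0,[(26,0)]⟩),⟨0,[(25,0)]⟩,.k,.k,.k,(.r 0 ⟨0,[(3,1),(8,0),(15,0),(7,0)]⟩ ⟨9,
  [(0,11),(4,1),(2,1),(1,5),(17,0),(8,0),(0,5)]⟩),.k,.k,⟨false,1,⟨0,[(7,0),(25,0)]⟩,⟨0,[(9,0)]⟩⟩,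
  ⟨true,(-1),⟨0,[(12,0)]⟩,⟨0,[(4,1),(23,0)]⟩⟩,⟨false,1,⟨0,[(0,0),(37,0)]⟩,⟨1,[(3,0),(8,0),(8,0),(6,
  0),(4,0),(2,0)]⟩⟩,⟨true,(-1),⟨0,[(0,0),(0,0)]⟩,⟨0,[(3,1),(24,0),(7,0)]⟩⟩,⟨false,0,⟨0,[]⟩,⟨0,[]⟩⟩,
  ⟨false,0,⟨0,[]⟩,⟨0,[]⟩⟩,[.o ⟨false,0,⟨0,[(22,0)]⟩,⟨1,[(3,1),(24,0),(9,0)]⟩⟩,.a ⟨true,0,⟨2,[(1,0),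
  (3,0),(4,0),(26,0)]⟩,⟨0,[(3,0)]⟩⟩ ⟨false,1,⟨1,[(37,0),(0,0)]⟩,⟨0,[(40,0)]⟩⟩ ⟨true,(-1),⟨0,[(1,
  0)]⟩,⟨0,[(3,0),(0,0),(23,0)]⟩⟩,.e ⟨false,1,⟨1,[(16,0),(0,0),(20,0)]⟩,⟨0,[]⟩⟩ ⟨false,(-1),⟨0,[(1,
  0)]⟩,⟨1,[(3,1),(2,1),(21,0),(9,0)]⟩⟩,.o ⟨false,1,⟨0,[(4,0),(23,0)]⟩,⟨12,[(8,1),(1,1),(1,2),(0,3),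
  (6,2),(0,1),(16,0)]⟩⟩]⟩)))))) (.I [1,-1,1,0,0,0,0,1] (.Q [0,0,0,0,0,0,-1,-1,0,1,-1] (.p false [0,
  0,1] [1] (⟨0,[(22,0)]⟩,⟨0,[(21,0)]⟩) .k 1 (⟨0,[]⟩,⟨0,[]⟩) .k .k) (.R ⟨2,true,false,true,[0,1],[1,
  0,-1],[1,0,1],(⟨0,[]⟩,⟨0,[]⟩),(⟨0,[(22,0)]⟩,⟨0,[(23,0)]⟩),⟨0,[]⟩,.k,.k,.k,.k,.k,.k,⟨true,0,⟨0,[(1,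
  0)]⟩,⟨0,[(6,0)]⟩⟩,⟨false,0,⟨6,[(0,1),(8,0),(0,1),(6,0),(0,1),(16,0)]⟩,⟨0,[(3,0)]⟩⟩,⟨false,1,⟨0,
  [(32,0),(2,0)]⟩,⟨0,[(33,0)]⟩⟩,⟨true,0,⟨0,[(0,0),(31,0)]⟩,⟨0,[(2,0)]⟩⟩,⟨true,0,⟨0,[]⟩,⟨0,[(37,
  0)]⟩⟩,⟨false,0,⟨0,[(0,0)]⟩,⟨3,[(2,1),(5,1),(16,0),(9,2)]⟩⟩,[]⟩) (.Q [0,0,0,0,0,0,1,0,0,0,1] (.p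
  true [0,0,1] [] (⟨0,[(23,0)]⟩,⟨0,[(22,0)]⟩) .k 0 (⟨0,[]⟩,⟨0,[]⟩) .k .k) (.S ⟨1,0,[0,0,0,0,0,0,0,
  1],[0,0,1],[0,1,1],(⟨0,[(24,0)]⟩,⟨0,[(23,0)]⟩),⟨0,[(13,0)]⟩,.k,.k,⟨true,0,⟨0,[(8,0),(24,0)]⟩,⟨0,
  [(1,0),(16,0)]⟩⟩,⟨false,1,⟨1,[(14,0),(0,0),(20,0)]⟩,⟨0,[]⟩⟩,⟨false,0,⟨0,[(8,0)]⟩,⟨0,[(1,0),(16,0),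
  (14,0),(2,0)]⟩⟩,⟨true,0,⟨0,[(34,0)]⟩,⟨0,[(33,0)]⟩⟩,[.o ⟨false,0,⟨0,[(1,0)]⟩,⟨3,[(6,1),(1,1),(2,1),
  (8,1),(5,0),(9,0)]⟩⟩,.o ⟨false,1,⟨3,[(3,1),(5,1),(16,0),(9,2)]⟩,⟨0,[(20,0)]⟩⟩,.a ⟨true,0,⟨0,[(0,
  0)]⟩,⟨12,[(6,1),(1,1),(1,2),(0,3),(6,2),(0,1),(16,0)]⟩⟩ ⟨false,0,⟨1,[(21,0),(0,0)]⟩,⟨1,[(35,0),(0,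
  0)]⟩⟩ ⟨true,0,⟨5,[(1,0),(0,0),(0,1),(1,0),(3,0),(0,0),(0,0)]⟩,⟨0,[(7,0)]⟩⟩,.e ⟨true,0,⟨0,[(38,
  0)]⟩,⟨0,[]⟩⟩ ⟨true,0,⟨0,[(1,0),(16,0)]⟩,⟨0,[(8,0),(24,0)]⟩⟩]⟩) (.S ⟨1,0,[0,0,0,0,0,0,0,1],[0,0,1],
  [1,1,1],(⟨0,[(24,0)]⟩,⟨0,[(23,0)]⟩),⟨0,[(13,0)]⟩,.k,.k,⟨true,0,⟨0,[(8,0),(24,0)]⟩,⟨0,[(1,0),(16,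
  0)]⟩⟩,⟨false,1,⟨1,[(14,0),(0,0),(20,0)]⟩,⟨0,[]⟩⟩,⟨false,0,⟨0,[(8,0)]⟩,⟨0,[(1,0),(16,0),(14,0),(2,
  0)]⟩⟩,⟨true,0,⟨0,[(34,0)]⟩,⟨0,[(33,0)]⟩⟩,[.o ⟨false,0,⟨0,[(1,0)]⟩,⟨3,[(6,1),(1,1),(2,1),(8,1),(5,
  0),(9,0)]⟩⟩,.o ⟨false,1,⟨3,[(3,1),(5,1),(16,0),(9,2)]⟩,⟨0,[(20,0)]⟩⟩,.o ⟨false,1,⟨7,[(4,1),(1,1),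
  (1,1),(10,1),(1,1),(4,2),(9,0)]⟩,⟨0,[(0,0)]⟩⟩,.a ⟨true,0,⟨0,[(21,0)]⟩,⟨0,[(18,0)]⟩⟩ ⟨false,0,⟨0,
  []⟩,⟨1,[(14,0),(0,0),(20,0)]⟩⟩ ⟨true,0,⟨0,[(1,0),(16,0)]⟩,⟨0,[(8,0),(24,0)]⟩⟩]⟩))) (.R ⟨2,true,
  false,true,[0,1],[1,0,-1],[1,1,0,0,0,0,0,-1],(⟨0,[]⟩,⟨0,[]⟩),(⟨0,[(21,0)]⟩,⟨0,[(22,0)]⟩),⟨0,[]⟩,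
  .k,.k,.k,.k,.k,.k,⟨true,0,⟨0,[]⟩,⟨1,[(19,0),(0,0)]⟩⟩,⟨false,0,⟨12,[(4,1),(1,1),(1,2),(0,3),(6,2),
  (0,1),(16,0)]⟩,⟨0,[(2,0)]⟩⟩,⟨false,1,⟨0,[(0,0),(30,0),(2,0)]⟩,⟨4,[(1,3),(5,0),(0,1),(11,0),(8,1),
  (4,1)]⟩⟩,⟨true,0,⟨1,[(0,0),(4,0),(2,0),(22,1),(2,0)]⟩,⟨0,[(1,0)]⟩⟩,⟨true,0,⟨0,[(0,0)]⟩,⟨4,[(1,1),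
  (5,2),(0,0),(11,2),(8,0),(4,0)]⟩⟩,⟨false,0,⟨1,[(0,0),(4,0),(2,0),(25,0)]⟩,⟨3,[(1,1),(5,1),(16,0),
  (9,2)]⟩⟩,[]⟩))) (.I [1,0,0,0,0,0,0,1] (.I [1,-1,1,0,0,0,0,1] (.Q [0,0,0,1,0,0,-1,-1,0,0,-1] (.p
  false [0,0,1] [] (⟨0,[(22,0)]⟩,⟨0,[(21,0)]⟩) .k 0 (⟨0,[]⟩,⟨0,[]⟩) .k .k) (.R ⟨0,false,false,true,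
  [1,0,-1],[1,-1],[1,0,1],(⟨0,[(22,0)]⟩,⟨0,[(23,0)]⟩),(⟨0,[(26,0)]⟩,⟨0,[(27,0)]⟩),⟨0,[(11,0)]⟩,.k,
  .k,.k,.k,.k,.k,⟨false,0,⟨0,[(30,0)]⟩,⟨0,[(32,0),(1,0)]⟩⟩,⟨true,0,⟨0,[(20,0)]⟩,⟨1,[(3,0),(13,0),(7,
  0)]⟩⟩,⟨false,0,⟨0,[(1,0)]⟩,⟨0,[(0,0),(4,0)]⟩⟩,⟨true,0,⟨0,[(8,0)]⟩,⟨0,[(0,0)]⟩⟩,⟨false,0,⟨0,[]⟩,⟨0,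
  []⟩⟩,⟨false,0,⟨0,[]⟩,⟨0,[]⟩⟩,[.o ⟨false,0,⟨0,[(32,0)]⟩,⟨1,[(25,0),(7,1),(1,0)]⟩⟩,.e ⟨false,1,⟨1,
  [(13,0),(0,0),(20,0)]⟩,⟨0,[(31,0)]⟩⟩ ⟨false,1,⟨0,[(5,0)]⟩,⟨0,[(0,0),(1,0)]⟩⟩,.o ⟨false,0,⟨1,[(3,
  0),(13,0),(7,0)]⟩,⟨1,[(5,0),(14,0),(4,0),(7,0)]⟩⟩,.a ⟨true,(-1),⟨0,[(3,0)]⟩,⟨0,[(5,0),(27,0)]⟩⟩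
  ⟨true,0,⟨0,[]⟩,⟨0,[(37,0)]⟩⟩ ⟨false,1,⟨0,[(5,0)]⟩,⟨0,[(0,0),(0,0)]⟩⟩]⟩) (.Q [0,-1,0,-1,0,0,-1,-1,
  0,2,-1] (.p false [-1,1,1] [1] (⟨0,[(11,0)]⟩,⟨0,[(22,0),(3,0)]⟩) .k 1 (⟨0,[]⟩,⟨0,[]⟩) .k .k) (.Q
  [0,-1,0,1,0,0,-1,-1,0,1,-1] (.p false [0,0,1] [1] (⟨0,[(24,0)]⟩,⟨0,[(23,0)]⟩) .k 1 (⟨0,[]⟩,⟨0,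
  []⟩) .k .k) (.S ⟨1,0,[0,0,1,1,0,0,0,-1],[1,1,-1],[0,1,1,1,0,0,0,-1],(⟨0,[(24,0),(4,0)]⟩,⟨0,[(14,
  0)]⟩),⟨0,[(24,0)]⟩,.k,.k,⟨true,0,⟨0,[(39,0)]⟩,⟨0,[]⟩⟩,⟨false,1,⟨1,[(15,0),(0,0),(20,0)]⟩,⟨0,[]⟩⟩,
  ⟨false,0,⟨0,[(35,0)]⟩,⟨0,[(34,0),(2,0)]⟩⟩,⟨true,0,⟨0,[(35,0)]⟩,⟨0,[(34,0)]⟩⟩,[.a ⟨true,0,⟨17,[(0,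
  12),(0,0),(7,5),(2,2),(7,1),(9,5)]⟩,⟨0,[(2,0)]⟩⟩ ⟨false,0,⟨0,[(9,0),(23,0)]⟩,⟨5,[(2,1),(2,1),(0,
  3),(20,0),(9,2)]⟩⟩ ⟨true,0,⟨0,[(9,0)]⟩,⟨2,[(2,1),(2,1),(0,0),(20,0)]⟩⟩,.a ⟨true,0,⟨0,[(0,0)]⟩,⟨0,
  [(10,0)]⟩⟩ ⟨true,0,⟨0,[(9,0)]⟩,⟨2,[(2,1),(2,1),(0,0),(20,0)]⟩⟩ ⟨false,1,⟨1,[(9,1),(26,0),(0,0)]⟩,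
  ⟨2,[(2,1),(2,1),(0,0),(20,0),(5,2)]⟩⟩,.a ⟨true,0,⟨0,[(19,0)]⟩,⟨0,[(22,0)]⟩⟩ ⟨false,0,⟨0,[(9,0)]⟩,
  ⟨5,[(2,1),(2,1),(0,3),(20,0),(9,2)]⟩⟩ ⟨true,0,⟨0,[(9,0)]⟩,⟨2,[(2,1),(2,1),(0,0),(20,0),(5,2)]⟩⟩,
  .o ⟨false,0,⟨1,[(5,0),(13,0),(7,0)]⟩,⟨1,[(7,0),(14,0),(4,0),(7,0)]⟩⟩]⟩) (.Q [0,1,-1,-1,0,0,0,-1,0,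
  1] (.pp false [-1,1]) (.R ⟨0,false,false,true,[1,0,-1],[2,-1,-1],[1,1,1],(⟨0,[(25,0)]⟩,⟨0,[(26,
  0)]⟩),(⟨0,[(25,0),(3,0)]⟩,⟨0,[(14,0)]⟩),⟨0,[(14,0)]⟩,.k,.k,.k,.k,.k,.k,⟨true,(-1),⟨0,[(1,0),(4,0),
  (26,0),(2,0)]⟩,⟨1,[(0,1),(27,0),(9,0)]⟩⟩,⟨false,0,⟨1,[(2,0),(18,0),(14,0)]⟩,⟨1,[(28,0),(8,0)]⟩⟩,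
  ⟨true,(-1),⟨0,[(1,0),(4,0),(29,0)]⟩,⟨3,[(0,1),(9,1),(17,0),(8,1),(0,0)]⟩⟩,⟨false,0,⟨1,[(2,0),(8,
  0)]⟩,⟨1,[(28,0),(7,1),(1,0)]⟩⟩,⟨false,0,⟨0,[]⟩,⟨0,[]⟩⟩,⟨false,0,⟨0,[]⟩,⟨0,[]⟩⟩,[.e ⟨false,0,⟨0,
  [(40,0)]⟩,⟨1,[(37,0),(0,0)]⟩⟩ ⟨false,0,⟨0,[(0,0)]⟩,⟨1,[(5,1),(22,0),(7,1),(1,0)]⟩⟩,.o ⟨false,0,⟨1,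
  [(0,0),(1,0),(3,0),(21,0)]⟩,⟨0,[(3,0),(24,0),(7,1)]⟩⟩,.o ⟨false,0,⟨1,[(6,0),(13,0),(7,0)]⟩,⟨1,[(8,
  0),(14,0),(4,0),(7,0)]⟩⟩,.a ⟨true,(-1),⟨0,[(6,0)]⟩,⟨0,[(8,0),(27,0)]⟩⟩ ⟨false,0,⟨0,[]⟩,⟨1,[(16,0),
  (0,0),(20,0)]⟩⟩ ⟨true,0,⟨0,[(0,0)]⟩,⟨1,[(1,0),(3,0),(0,0),(21,0),(4,0),(2,1)]⟩⟩]⟩) (.Q [0,-1,-1,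
  -1,1,0,0,-1,0,1] (.pp false [-1,1]) (.I [0,0,-1,-1,1,0,0,-1] (.R ⟨0,false,false,false,[1,0,-1],[2,
  -1,-1],[1,0,1],(⟨0,[(27,0)]⟩,⟨0,[(28,0)]⟩),(⟨0,[(27,0),(3,0)]⟩,⟨0,[(16,0)]⟩),⟨0,[(16,0)]⟩,.k,.k,
  .k,.k,.k,.k,⟨true,(-1),⟨1,[(2,0),(0,0),(4,1),(16,0),(12,1)]⟩,⟨0,[(0,0)]⟩⟩,⟨false,0,⟨1,[(4,0),(18,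
  0),(14,0)]⟩,⟨1,[(30,0),(8,0)]⟩⟩,⟨false,0,⟨0,[(6,0)]⟩,⟨1,[(0,0),(11,0),(26,0)]⟩⟩,⟨true,0,⟨1,[(4,0),
  (8,0)]⟩,⟨0,[(2,0),(8,0),(24,0)]⟩⟩,⟨false,0,⟨0,[]⟩,⟨0,[]⟩⟩,⟨false,0,⟨0,[]⟩,⟨0,[]⟩⟩,[.o ⟨false,0,⟨0,
  [(0,0),(7,0)]⟩,⟨1,[(2,0),(0,0),(6,0),(19,0),(7,2)]⟩⟩,.e ⟨false,1,⟨1,[(18,0),(0,0),(20,0)]⟩,⟨0,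
  [(36,0)]⟩⟩ ⟨false,1,⟨0,[(1,0)]⟩,⟨0,[(2,0),(30,0)]⟩⟩,.o ⟨false,0,⟨1,[(8,0),(13,0),(7,0)]⟩,⟨1,[(10,
  0),(14,0),(4,0),(7,0)]⟩⟩,.a ⟨true,(-1),⟨0,[(8,0)]⟩,⟨0,[(10,0),(27,0)]⟩⟩ ⟨true,0,⟨0,[]⟩,⟨0,[(42,
  0)]⟩⟩ ⟨false,1,⟨0,[(1,0)]⟩,⟨0,[(2,0),(39,0)]⟩⟩]⟩) (.R ⟨0,false,false,false,[-1,1,1],[0,1],[1,1,1],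
  (⟨0,[(16,0)]⟩,⟨0,[(27,0),(3,0)]⟩),(⟨0,[(32,0)]⟩,⟨0,[(31,0)]⟩),⟨0,[(27,0)]⟩,.k,.k,.k,.k,.k,.k,
  ⟨true,0,⟨0,[(37,0)]⟩,⟨0,[(0,2),(0,1),(9,0),(22,0)]⟩⟩,⟨false,0,⟨0,[(22,0)]⟩,⟨1,[(10,0),(14,0),(4,
  0),(7,0)]⟩⟩,⟨false,1,⟨5,[(1,3),(10,1),(12,0),(0,0),(3,1),(6,3)]⟩,⟨1,[(0,1),(38,0),(0,0)]⟩⟩,⟨true,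
  0,⟨2,[(4,0),(7,0),(9,0),(1,0)]⟩,⟨0,[(3,0),(34,0)]⟩⟩,⟨false,0,⟨0,[]⟩,⟨0,[]⟩⟩,⟨false,0,⟨0,[]⟩,⟨0,
  []⟩⟩,[.a ⟨true,0,⟨0,[(38,0)]⟩,⟨1,[(4,0),(8,0)]⟩⟩ ⟨false,0,⟨0,[(42,0)]⟩,⟨1,[(39,0),(0,0)]⟩⟩ ⟨true,
  (-1),⟨1,[(0,0),(7,0),(3,0),(9,0)]⟩,⟨1,[(1,0),(1,0),(21,0),(4,0)]⟩⟩,.o ⟨false,1,⟨3,[(2,1),(9,1),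
  (17,0),(8,1),(0,0)]⟩,⟨0,[(37,0)]⟩⟩,.o ⟨false,2,⟨0,[(10,0),(19,0),(7,0)]⟩,⟨0,[(8,0)]⟩⟩,.e ⟨false,0,
  ⟨0,[]⟩,⟨1,[(18,0),(0,0),(20,0)]⟩⟩ ⟨false,0,⟨0,[(22,0),(12,0)]⟩,⟨1,[(1,0),(1,0),(21,0),(4,
  0)]⟩⟩]⟩)) (.I [1,0,1,1,-1,0,0,1] (.R ⟨0,false,false,false,[-1,1,1],[0,1],[1,1,1],(⟨0,[(16,0)]⟩,⟨0,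
  [(27,0),(3,0)]⟩),(⟨0,[(32,0)]⟩,⟨0,[(31,0)]⟩),⟨0,[(27,0)]⟩,.k,.k,.k,.k,.k,.k,⟨true,0,⟨0,[(37,0)]⟩,
  ⟨0,[(0,0),(10,0),(28,0)]⟩⟩,⟨false,0,⟨0,[(22,0)]⟩,⟨1,[(10,0),(14,0),(4,0),(7,0)]⟩⟩,⟨false,1,⟨1,[(4,
  0),(5,0),(1,0),(17,0),(6,0)]⟩,⟨1,[(0,1),(38,0),(0,0)]⟩⟩,⟨true,0,⟨2,[(4,0),(7,0),(9,0),(1,0)]⟩,⟨0,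
  [(1,0),(8,0)]⟩⟩,⟨false,0,⟨0,[]⟩,⟨0,[]⟩⟩,⟨false,0,⟨0,[]⟩,⟨0,[]⟩⟩,[.a ⟨true,0,⟨0,[(38,0)]⟩,⟨1,[(4,
  0),(8,0)]⟩⟩ ⟨false,0,⟨0,[(42,0)]⟩,⟨1,[(39,0),(0,0)]⟩⟩ ⟨true,(-1),⟨1,[(0,0),(7,0),(3,0),(9,0)]⟩,⟨1,
  [(5,1),(5,1),(18,0),(9,0)]⟩⟩,.o ⟨false,1,⟨3,[(2,1),(9,1),(17,0),(8,1),(0,0)]⟩,⟨0,[(37,0)]⟩⟩,.o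
  ⟨false,2,⟨0,[(10,0),(19,0),(7,0)]⟩,⟨0,[(8,0)]⟩⟩,.e ⟨false,0,⟨0,[]⟩,⟨1,[(18,0),(0,0),(20,0)]⟩⟩
  ⟨false,0,⟨0,[(22,0),(12,0)]⟩,⟨1,[(5,1),(5,1),(18,0),(9,0)]⟩⟩]⟩) (.R ⟨0,false,false,false,[1,0,-1],
  [2,-1,-1],[1,0,1],(⟨0,[(27,0)]⟩,⟨0,[(28,0)]⟩),(⟨0,[(27,0),(3,0)]⟩,⟨0,[(16,0)]⟩),⟨0,[(16,0)]⟩,.k,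
  .k,.k,.k,.k,.k,⟨true,(-1),⟨3,[(1,1),(4,0),(1,1),(14,0),(1,0),(9,1)]⟩,⟨0,[(0,0)]⟩⟩,⟨false,0,⟨1,[(4,
  0),(18,0),(14,0)]⟩,⟨1,[(30,0),(8,0)]⟩⟩,⟨false,0,⟨0,[(6,0)]⟩,⟨1,[(0,0),(11,0),(26,0)]⟩⟩,⟨true,0,⟨1,
  [(4,0),(8,0)]⟩,⟨2,[(1,0),(10,0),(17,0),(5,1),(1,0)]⟩⟩,⟨false,0,⟨0,[]⟩,⟨0,[]⟩⟩,⟨false,0,⟨0,[]⟩,⟨0,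
  []⟩⟩,[.o ⟨false,0,⟨0,[(0,0),(7,0)]⟩,⟨1,[(1,0),(0,0),(7,1),(19,0),(7,1)]⟩⟩,.a ⟨true,0,⟨0,[(4,0)]⟩,
  ⟨0,[(1,0),(8,0),(27,0)]⟩⟩ ⟨false,1,⟨1,[(18,0),(0,0),(20,0)]⟩,⟨0,[(36,0)]⟩⟩ ⟨true,1,⟨3,[(0,0),(3,
  1),(5,1),(1,0),(12,0),(0,0),(13,0)]⟩,⟨0,[(1,0)]⟩⟩,.o ⟨false,0,⟨1,[(8,0),(13,0),(7,0)]⟩,⟨1,[(10,0),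
  (14,0),(4,0),(7,0)]⟩⟩,.e ⟨true,0,⟨0,[]⟩,⟨0,[(42,0)]⟩⟩ ⟨true,1,⟨8,[(0,1),(3,3),(5,5),(1,2),(2,0),
  (17,1),(5,0)]⟩,⟨0,[(1,0)]⟩⟩]⟩))))) (.Q [0,0,0,1,0,0,1,1,0,-1,1] (.p true [0,0,1] [1] (⟨0,[(24,
  0)]⟩,⟨0,[(23,0)]⟩) .k 1 (⟨0,[]⟩,⟨0,[]⟩) .k .k) (.R ⟨2,true,false,false,[0,1],[1,0,-1],[0,1,1,1],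
  (⟨0,[]⟩,⟨0,[]⟩),(⟨0,[(24,0)]⟩,⟨0,[(25,0)]⟩),⟨0,[]⟩,.k,.k,.k,.k,.k,.k,⟨false,(-1),⟨0,[(0,0),(4,0),
  (27,0)]⟩,⟨0,[(7,0),(13,0),(15,0)]⟩⟩,⟨true,(-1),⟨0,[(5,0)]⟩,⟨11,[(0,1),(6,5),(1,3),(10,1),(1,1),(4,
  4),(9,0)]⟩⟩,⟨true,0,⟨0,[(39,0)]⟩,⟨0,[]⟩⟩,⟨false,1,⟨0,[(5,0),(1,0),(13,0),(15,0)]⟩,⟨0,[(0,0)]⟩⟩,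
  ⟨false,0,⟨0,[(35,0)]⟩,⟨0,[(34,0),(2,0)]⟩⟩,⟨true,0,⟨1,[(5,0),(2,1),(10,0),(17,0)]⟩,⟨1,[(1,0),(8,
  0)]⟩⟩,[]⟩) (.R ⟨0,false,false,true,[1,0,-1],[2,-1,-1],[1,0,0,0,0,0,0,-1],(⟨0,[(24,0)]⟩,⟨0,[(25,
  0)]⟩),(⟨0,[(24,0),(3,0)]⟩,⟨0,[(13,0)]⟩),⟨0,[(13,0)]⟩,.k,.k,.k,.k,.k,.k,⟨true,0,⟨0,[(32,0)]⟩,⟨0,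
  [(34,0)]⟩⟩,⟨false,0,⟨0,[(19,0),(2,0)]⟩,⟨1,[(27,0),(8,0)]⟩⟩,⟨true,0,⟨0,[]⟩,⟨0,[(39,0)]⟩⟩,⟨false,0,
  ⟨1,[(0,0),(1,0),(16,0),(2,0)]⟩,⟨1,[(27,0),(7,1),(1,0)]⟩⟩,⟨false,0,⟨0,[]⟩,⟨0,[]⟩⟩,⟨false,0,⟨0,[]⟩,
  ⟨0,[]⟩⟩,[.o ⟨false,0,⟨0,[(0,0),(38,0)]⟩,⟨0,[(1,0),(35,0)]⟩⟩,.o ⟨false,0,⟨0,[(0,0)]⟩,⟨1,[(1,0),(18,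
  0),(6,0),(7,0),(1,0)]⟩⟩,.o ⟨false,0,⟨1,[(5,0),(13,0),(7,0)]⟩,⟨5,[(1,0),(5,2),(1,1),(10,0),(1,0),
  (4,1),(9,0)]⟩⟩,.a ⟨true,(-1),⟨0,[(5,0)]⟩,⟨0,[(7,0),(27,0)]⟩⟩ ⟨true,1,⟨1,[(8,1),(27,0),(0,0)]⟩,⟨1,
  [(1,0),(3,1),(4,0)]⟩⟩ ⟨false,1,⟨1,[(0,0),(6,1),(1,0),(9,0)]⟩,⟨0,[(1,0),(3,0),(31,0)]⟩⟩]⟩)))) (.S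
  ⟨1,0,[0,0,0,0,0,0,0,1],[0,0,1],[0,1],(⟨0,[(22,0)]⟩,⟨0,[(21,0)]⟩),⟨0,[(11,0)]⟩,.k,.k,⟨true,0,⟨0,
  [(5,0)]⟩,⟨0,[(1,0)]⟩⟩,⟨false,1,⟨1,[(12,0),(0,0),(20,0)]⟩,⟨0,[]⟩⟩,⟨false,0,⟨0,[(0,0),(28,0)]⟩,⟨5,
  [(2,1),(0,1),(3,3),(12,1),(3,0),(9,4)]⟩⟩,⟨true,0,⟨0,[(32,0)]⟩,⟨0,[(31,0)]⟩⟩,[.o ⟨false,1,⟨1,[(17,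
  1),(6,0),(9,0)]⟩,⟨1,[(0,1),(1,1),(21,0),(9,0)]⟩⟩,.e ⟨false,1,⟨1,[(12,0),(0,0),(19,0)]⟩,⟨0,[]⟩⟩
  ⟨false,1,⟨1,[(1,1),(31,0),(0,0)]⟩,⟨0,[(5,0)]⟩⟩,.o ⟨false,1,⟨1,[(4,0),(14,0),(4,0),(7,0)]⟩,⟨1,[(2,
  0),(13,0),(7,0)]⟩⟩,.a ⟨true,0,⟨0,[(19,0)]⟩,⟨0,[(16,0)]⟩⟩ ⟨true,0,⟨0,[(30,0)]⟩,⟨1,[(19,0),(0,0)]⟩⟩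
  ⟨false,1,⟨1,[(1,1),(31,0),(0,0)]⟩,⟨1,[(0,1),(1,1),(16,1),(4,0),(9,0)]⟩⟩]⟩)) (.S ⟨1,0,[0,0,1,1,0,0,
  0,-1],[1,1,-1],[1,1,1,0,0,0,0,-1],(⟨0,[(20,0),(4,0)]⟩,⟨0,[(10,0)]⟩),⟨0,[(20,0)]⟩,.k,.k,⟨true,0,⟨0,
  [(30,0)]⟩,⟨0,[(31,0)]⟩⟩,⟨false,1,⟨1,[(11,0),(0,0),(20,0)]⟩,⟨0,[]⟩⟩,⟨false,0,⟨0,[]⟩,⟨1,[(11,0),(0,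
  0),(20,0)]⟩⟩,⟨true,0,⟨0,[(31,0)]⟩,⟨0,[(30,0)]⟩⟩,[.o ⟨false,0,⟨1,[(0,1),(0,0),(13,0),(7,0),(7,1)]⟩,
  ⟨1,[(6,1),(16,0),(9,0)]⟩⟩,.a ⟨true,0,⟨0,[(0,0),(14,0),(12,0)]⟩,⟨0,[(6,0)]⟩⟩ ⟨false,0,⟨0,[(0,0)]⟩,
  ⟨5,[(2,1),(5,1),(7,3),(6,0),(7,1),(0,0),(0,1)]⟩⟩ ⟨true,0,⟨0,[(0,0),(27,0)]⟩,⟨8,[(1,4),(0,1),(3,6),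
  (1,0),(14,2),(2,0)]⟩⟩,.e ⟨false,0,⟨1,[(0,1),(17,0),(0,0)]⟩,⟨0,[(2,0),(25,0)]⟩⟩ ⟨false,0,⟨0,[(0,0),
  (27,0)]⟩,⟨17,[(2,7),(0,1),(2,7),(1,5),(7,1),(6,2),(9,4)]⟩⟩,.o ⟨false,0,⟨1,[(1,0),(13,0),(7,0)]⟩,
  ⟨1,[(3,0),(14,0),(4,0),(7,0)]⟩⟩]⟩))))) (.S ⟨1,0,[0,0,0,0,0,0,0,1],[0,0,1],[1,1,1],(⟨0,[(17,0)]⟩,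
  ⟨0,[(16,0)]⟩),⟨0,[(6,0)]⟩,.k,.k,⟨true,0,⟨0,[(1,0),(24,0)]⟩,⟨0,[(0,0),(24,0)]⟩⟩,⟨false,1,⟨1,[(7,0),
  (0,0),(20,0)]⟩,⟨0,[]⟩⟩,⟨false,0,⟨0,[(1,0)]⟩,⟨1,[(0,1),(25,1),(1,0),(0,0)]⟩⟩,⟨true,0,⟨0,[(27,0)]⟩,
  ⟨0,[(26,0)]⟩⟩,[.e ⟨false,0,⟨0,[(31,0)]⟩,⟨1,[(28,0),(0,0)]⟩⟩ ⟨false,0,⟨0,[(0,0),(24,0)]⟩,⟨1,[(1,1),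
  (24,1),(1,0),(0,0)]⟩⟩,.o ⟨false,1,⟨1,[(0,1),(13,1),(4,0),(8,0)]⟩,⟨0,[(13,0)]⟩⟩,.o ⟨false,1,⟨1,
  [(14,1),(4,0),(8,0)]⟩,⟨0,[(0,0),(12,0)]⟩⟩,.a ⟨true,0,⟨0,[(14,0)]⟩,⟨0,[(11,0)]⟩⟩ ⟨false,0,⟨0,[]⟩,
  ⟨1,[(7,0),(0,0),(20,0)]⟩⟩ ⟨true,0,⟨0,[(0,0),(24,0)]⟩,⟨0,[(1,0),(24,0)]⟩⟩]⟩)) (.I [0,-1,0,1,1,0,0,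
  -1] (.S ⟨1,0,[0,0,0,0,0,0,0,1],[0,0,1],[1,1,0,-1,0,0,0,1],(⟨0,[(17,0)]⟩,⟨0,[(16,0)]⟩),⟨0,[(6,0)]⟩,
  .k,.k,⟨true,0,⟨0,[(26,0)]⟩,⟨0,[(27,0)]⟩⟩,⟨false,1,⟨1,[(7,0),(0,0),(20,0)]⟩,⟨0,[]⟩⟩,⟨false,0,⟨0,
  []⟩,⟨1,[(7,0),(0,0),(20,0)]⟩⟩,⟨true,0,⟨0,[(27,0)]⟩,⟨0,[(26,0)]⟩⟩,[.e ⟨false,0,⟨4,[(1,3),(0,0),(12,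
  0),(6,1)]⟩,⟨0,[(0,0)]⟩⟩ ⟨false,0,⟨0,[(1,0),(25,0)]⟩,⟨0,[(0,0),(25,0)]⟩⟩,.o ⟨false,1,⟨1,[(1,1),(12,
  1),(4,0),(7,1),(1,0)]⟩,⟨0,[(13,0)]⟩⟩,.o ⟨false,1,⟨1,[(14,1),(4,0),(8,0)]⟩,⟨0,[(1,0),(11,0),(10,
  0)]⟩⟩,.a ⟨true,0,⟨0,[(14,0)]⟩,⟨0,[(11,0)]⟩⟩ ⟨false,0,⟨0,[(1,0)]⟩,⟨1,[(0,1),(13,0),(0,0)]⟩⟩ ⟨true,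
  0,⟨0,[(1,0),(25,0)]⟩,⟨0,[(13,0),(0,0)]⟩⟩]⟩) (.Q [0,0,0,0,0,0,-1,-1,0,1,-1] (.p false [0,0,1] [1]
  (⟨0,[(17,0)]⟩,⟨0,[(16,0)]⟩) .k 1 (⟨0,[]⟩,⟨0,[]⟩) .k .k) (.Q [0,0,-1,-1,1,0,1,0,0,0,1] (.p true [0,
  0,1] [] (⟨0,[(18,0)]⟩,⟨0,[(17,0)]⟩) .k 0 (⟨0,[]⟩,⟨0,[]⟩) .k .k) (.R ⟨0,false,false,true,[1,0,-1],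
  [1,-1],[0,1],(⟨0,[(18,0)]⟩,⟨0,[(19,0)]⟩),(⟨0,[(22,0)]⟩,⟨0,[(23,0)]⟩),⟨0,[(7,0)]⟩,.k,.k,.k,.k,.k,
  .k,⟨false,0,⟨0,[(29,0)]⟩,⟨3,[(0,2),(0,0),(1,0),(2,0),(14,0)]⟩⟩,⟨true,0,⟨0,[(16,0)]⟩,⟨1,[(1,0),(0,
  0),(10,0),(7,0),(4,0)]⟩⟩,⟨true,(-1),⟨0,[(2,0),(26,0)]⟩,⟨1,[(1,1),(14,1),(4,0),(8,0)]⟩⟩,⟨false,0,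
  ⟨0,[(3,0),(12,0)]⟩,⟨1,[(1,1),(19,0),(7,1),(1,0)]⟩⟩,⟨false,0,⟨0,[]⟩,⟨0,[]⟩⟩,⟨false,0,⟨0,[]⟩,⟨0,
  []⟩⟩,[.o ⟨false,0,⟨0,[(28,0)]⟩,⟨1,[(21,0),(7,1),(1,0)]⟩⟩,.e ⟨false,1,⟨1,[(9,0),(0,0),(19,0)]⟩,⟨0,
  []⟩⟩ ⟨false,1,⟨0,[(0,0)]⟩,⟨2,[(2,0),(10,1),(1,0),(5,0),(4,1),(2,1)]⟩⟩,.o ⟨false,0,⟨1,[(1,0),(0,0),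
  (10,0),(7,0),(4,0)]⟩,⟨1,[(16,1),(4,0),(8,0)]⟩⟩,.a ⟨true,(-1),⟨0,[(1,0),(0,0),(23,0)]⟩,⟨0,[(16,0),
  (13,0)]⟩⟩ ⟨true,0,⟨0,[(27,0)]⟩,⟨1,[(16,0),(0,0)]⟩⟩ ⟨false,1,⟨0,[(0,0)]⟩,⟨1,[(1,0),(0,0),(10,0),(7,
  0),(4,2)]⟩⟩]⟩) (.R ⟨0,false,false,true,[1,0,-1],[1,-1],[0,1],(⟨0,[(18,0)]⟩,⟨0,[(19,0)]⟩),(⟨0,[(22,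
  0)]⟩,⟨0,[(23,0)]⟩),⟨0,[(7,0)]⟩,.k,.k,.k,.k,.k,.k,⟨false,0,⟨0,[(29,0)]⟩,⟨1,[(28,1),(1,0),(0,0)]⟩⟩,
  ⟨true,0,⟨0,[(16,0)]⟩,⟨3,[(0,0),(0,0),(1,0),(2,0),(14,0)]⟩⟩,⟨true,(-1),⟨0,[(2,0),(26,0)]⟩,⟨1,[(1,
  1),(14,1),(4,0),(8,0)]⟩⟩,⟨false,0,⟨0,[(3,0),(12,0)]⟩,⟨1,[(1,1),(19,0),(7,1),(1,0)]⟩⟩,⟨false,0,⟨0,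
  []⟩,⟨0,[]⟩⟩,⟨false,0,⟨0,[]⟩,⟨0,[]⟩⟩,[.o ⟨false,0,⟨0,[(28,0)]⟩,⟨1,[(21,0),(7,1),(1,0)]⟩⟩,.a ⟨true,
  0,⟨0,[(1,0),(1,0),(12,0)]⟩,⟨0,[(29,0)]⟩⟩ ⟨false,1,⟨1,[(9,0),(0,0),(19,0)]⟩,⟨0,[]⟩⟩ ⟨true,1,⟨1,
  [(16,1),(11,1),(1,0),(0,0)]⟩,⟨0,[(0,0)]⟩⟩,.o ⟨false,0,⟨3,[(0,0),(0,0),(1,0),(2,0),(14,0)]⟩,⟨1,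
  [(16,1),(4,0),(8,0)]⟩⟩,.e ⟨true,0,⟨0,[(27,0)]⟩,⟨1,[(16,0),(0,0)]⟩⟩ ⟨true,1,⟨0,[(16,0),(11,0),(1,
  0)]⟩,⟨0,[(0,0)]⟩⟩]⟩)) (.S ⟨1,0,[0,0,0,0,0,0,0,1],[0,0,1],[1,1,0,-1,0,0,0,1],(⟨0,[(18,0)]⟩,⟨0,[(17,
  0)]⟩),⟨0,[(7,0)]⟩,.k,.k,⟨true,0,⟨0,[(27,0)]⟩,⟨0,[(28,0)]⟩⟩,⟨false,1,⟨1,[(8,0),(0,0),(20,0)]⟩,⟨0,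
  []⟩⟩,⟨false,0,⟨0,[]⟩,⟨1,[(8,0),(0,0),(20,0)]⟩⟩,⟨true,0,⟨0,[(28,0)]⟩,⟨0,[(27,0)]⟩⟩,[.o ⟨false,0,⟨0,
  [(0,0)]⟩,⟨1,[(8,0),(0,0),(4,1),(15,0)]⟩⟩,.o ⟨false,1,⟨3,[(0,1),(12,1),(6,0),(9,2)]⟩,⟨0,[(14,0)]⟩⟩,
  .o ⟨false,1,⟨1,[(15,1),(4,0),(8,0)]⟩,⟨3,[(1,1),(10,1),(1,1),(5,0),(4,1),(4,0)]⟩⟩,.a ⟨true,0,⟨0,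
  [(15,0)]⟩,⟨0,[(12,0)]⟩⟩ ⟨false,0,⟨0,[(2,0)]⟩,⟨0,[(14,0),(0,0),(12,0),(1,0)]⟩⟩ ⟨true,0,⟨0,[(0,0),
  (11,0)]⟩,⟨0,[(14,0),(0,0)]⟩⟩]⟩))))

theorem ok6 : chk K t6 r3 = true := by decide +kernel

noncomputable def t3 : Tre :=
  .Q [0,-1,0,1,1,0,1,1,0,-2,1] (.p true [-1,1,1] [1] (⟨0,[(3,0)]⟩,⟨0,[(14,0),(3,0)]⟩) .k 1 (⟨0,[]⟩,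
  ⟨0,[]⟩) .k .k) t1 t2

theorem ok3 : chk K t3 r1 = true :=
  chk_Q (e' := [0,1,0,-1,-1,0,-1,-1,0,2,-1]) (by decide +kernel) (by decide +kernel) ok1 ok2

noncomputable def t4 : Tre :=
  .I [0,0,1,1,-1,0,0,-1] t0 t3

theorem ok4 : chk K t4 l0 = true :=
  chk_I (e' := [1,0,-1,-1,1,0,0,1]) (by decide +kernel) (by decide +kernel) ok0 ok3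

noncomputable def t7 : Tre :=
  .Q [0,-1,0,1,0,0,-1,-1,0,0,-1] (.p false [0,0,1] [] (⟨0,[(14,0)]⟩,⟨0,[(13,0)]⟩) .k 0 (⟨0,[]⟩,⟨0,
  []⟩) .k .k) t5 t6

theorem ok7 : chk K t7 r0 = true :=
  chk_Q (e' := [0,1,0,-1,0,0,1,1,0,0,1]) (by decide +kernel) (by decide +kernel) ok5 ok6

noncomputable def t8 : Tre :=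
  .Q [0,0,-1,0,1,0,2,0,0,-2,2] (.p true [0,0,1] [2,-1,-1] (⟨0,[(13,0)]⟩,⟨0,[(12,0)]⟩) .k 2 (⟨0,[(12,
  0),(3,0)]⟩,⟨0,[(1,0)]⟩) .k (.i 1 ⟨0,[(1,0),(0,0)]⟩ ⟨0,[(12,1)]⟩)) t4 t7

theorem ok8 : chk K t8 base = true :=
  chk_Q (e' := [0,0,1,0,-1,0,-2,0,0,2,-2]) (by decide +kernel) (by decide +kernel) ok4 ok7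

theorem closed {p a b c J l q : ℤ} {D dl : ℝ} {Cl : ℤ → ℤ → ℤ → ℤ → ℝ → Prop}
    (W : World p a b c J 1 l q D dl Cl) (g : G0 p a b c J D)
    {N X R : ℤ} {I : ℝ} (hk : KCl p l Cl N X R I) (kz : KF a b D (X + (1 : ℤ) * I) (X + (1 : ℤ) * I + R) I)
    {Ne Xe : ℤ} {Ie : ℝ} (he : EFac p 1 D Cl 1 Ne Xe Ie)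
    (hkf : ∀ kf ∈ (kfY 1 [0,0,0,0,0,0,1,0,0,0,1]), KOk p l Cl 1
      (xv [1, a, b, c, p, J, X, R, Xe] [D, I, Ie]) N kf)
    (h0 : 1 ≤ (c : ℝ))
    (h1 : 1 ≤ (a : ℝ) - (b : ℝ))
    (h2 : 1 ≤ 1 - (a : ℝ) + (b : ℝ) + (c : ℝ))
    (h3 : 0 < -3 + (p : ℝ) - 2 * D)
    (h4 : 1 ≤ 2 * (a : ℝ) - (b : ℝ))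
    (h5 : 1 ≤ -2 + (J : ℝ))
    (h6 : 0 < -(b : ℝ) - (X : ℝ) + D - I)
    (h7 : 0 < -(J : ℝ) + I)
    (h8 : 0 < (J : ℝ) - D + I)
    (h9 : 0 < -2 * (X : ℝ) + D - 2 * I) : False := by
  have g1 := g.a2
  have g2 := g.b2
  have g3 := g.pa
  have g4 := g.pb
  have g5 := g.J1
  have g6 := g.JD
  have g7 := g.D2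
  have g8 := g.ca
  have g9 := g.ca'
  have k1 := kz.I0
  have k2 := kz.ID
  have k3 := kz.z1
  have k4 := kz.z2
  have k5 := kz.s1
  have k6 := kz.s2
  have e1 := he.I0
  have e2 := he.ID
  have e3 := he.x0
  have e4 := he.xp
  push_cast at *
  refine (val_E W.toBase hk he (row := [1]) (by simp) (by simp) (kfY 1 [0,0,0,0,0,0,1,0,0,0,1])).sound W rfl (Nk := N)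
    (fun kf _ _ => ⟨_, rfl⟩) hkf ?_ ok8
  · simp only [base, List.forall_mem_cons, List.not_mem_nil, false_imp_iff, implies_true,
      and_true, hld, xv, evg_cons, evg_nil, List.map_cons, List.map_nil, List.cons_append,
      List.nil_append, if_true, if_false, Bool.false_eq_true]
    push_cast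
    refine ⟨?_, ?_, ?_, ?_, ?_, ?_, ?_, ?_, ?_, ?_, ?_, ?_, ?_, ?_, ?_, ?_, ?_, ?_, ?_, ?_, ?_, ?_, ?_, ?_, ?_, ?_, ?_, ?_⟩ <;> linarith

end Helper48.Y.Y11_c2_P4_m1n0

namespace Helper48.Y.Y11_c35_P3_m0n0

open Helper25.KG Helper25.KW Helper55.KE Helper11.CT

noncomputable def K : Cls :=
  cE 1 [1] (kfY 1 [0,0,0,0,0,0,1,0,0,0,1])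

noncomputable def base : List Con :=
  [(false,[0,0,0,0,0,0,-2,0,0,1,-2]),
  (false,[0,0,0,0,0,1,0,0,0,-1,1]),
  (false,[0,0,0,0,0,1,0,0,0,0,-1]),
  (false,[0,0,0,0,1,0,0,0,-1,0,0,-1]),
  (false,[0,0,0,0,0,0,0,0,1,0,0,1]),
  (false,[0,0,0,0,0,0,0,0,0,1,0,-1]),
  (false,[0,0,0,0,0,0,0,0,0,0,0,1]),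
  (false,[0,0,-1,0,0,0,-1,0,0,1,-1]),
  (false,[0,1,0,0,0,0,1,1,0,0,1]),
  (false,[0,1,0,0,0,0,-1,-1,0,0,-1]),
  (false,[0,0,1,0,0,0,1,0,0,0,1]),
  (false,[0,0,1,0,0,0,-1,0,0,0,-1]),
  (false,[0,0,0,0,0,0,0,0,0,1,-1]),
  (false,[0,0,0,0,0,0,0,0,0,0,1]),
  (true,[-2,0,0,0,0,1]),
  (false,[0,0,0,0,1,0,0,0,0,-2]),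
  (false,[0,0,0,0,0,-1,0,0,0,1]),
  (true,[0,0,0,0,0,1]),
  (true,[0,2,-1]),
  (false,[1,0,0,0,0,3,0,0,0,-1]),
  (false,[3,0,0,0,-1,0,0,0,0,2]),
  (false,[-1,0,0,0,1,0,0,0,0,-2]),
  (true,[0,2,-1]),
  (true,[1,-1,1]),
  (true,[0,1,0,-1]),
  (true,[0,0,0,1]),
  (true,[0,0,-2,0,1]),
  (true,[0,-2,0,0,1]),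
  (true,[-1,0,1]),
  (true,[-1,1])]

noncomputable def l0 : List Con := (false, [0,0,0,-2,0,0,0,0,0,1]) :: base

noncomputable def r0 : List Con := (false, [0,0,0,2,0,0,0,0,0,-1]) :: base

noncomputable def t0 : Tre :=
  (.I [1,-1,-1,-1,1,0,0,1] (.I [0,1,0,0,0,0,0,1] (.Q [0,-1,0,1,0,0,-1,-1,0,0,-1] (.p false [0,0,1]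
  [] (⟨0,[(16,0)]⟩,⟨0,[(15,0)]⟩) .k 0 (⟨0,[]⟩,⟨0,[]⟩) .k .k) (.Q [0,0,0,0,0,0,-1,0,0,0,-1] (.p
  false [0,0,1] [] (⟨0,[(17,0)]⟩,⟨0,[(16,0)]⟩) .k 0 (⟨0,[]⟩,⟨0,[]⟩) .k .k) (.Q [0,0,0,-1,0,0,1,1,0,
  1,1] (.p true [1,-1,1] [] (⟨0,[(18,0),(2,0)]⟩,⟨0,[(7,0)]⟩) .k 0 (⟨0,[]⟩,⟨0,[]⟩) .k .k) (.R ⟨2,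
  false,false,false,[0,1],[0,1,-1],[0,1],(⟨0,[]⟩,⟨0,[]⟩),(⟨0,[(8,0)]⟩,⟨0,[(19,0),(2,0)]⟩),⟨0,[]⟩,.k,
  .k,.k,.k,.k,.k,⟨false,1,⟨0,[(4,0),(23,0)]⟩,⟨0,[(2,0),(13,0)]⟩⟩,⟨true,0,⟨0,[(1,0)]⟩,⟨0,[(16,0)]⟩⟩,
  ⟨false,1,⟨3,[(5,1),(3,0),(0,0),(10,0),(10,1)]⟩,⟨0,[(29,0),(1,0)]⟩⟩,⟨true,0,⟨0,[(2,0),(27,0)]⟩,⟨0,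
  [(14,0)]⟩⟩,⟨false,1,⟨1,[(9,0),(0,0),(21,0)]⟩,⟨0,[(29,0)]⟩⟩,⟨false,0,⟨0,[(2,0)]⟩,⟨1,[(0,1),(8,0),
  (0,0),(10,0)]⟩⟩,[.a ⟨true,0,⟨1,[(2,0),(12,0),(15,0)]⟩,⟨0,[(0,0)]⟩⟩ ⟨true,0,⟨0,[(35,0)]⟩,⟨0,[(29,
  0)]⟩⟩ ⟨false,0,⟨1,[(2,0),(12,0),(15,0)]⟩,⟨1,[(0,1),(20,0),(10,0)]⟩⟩,.e ⟨false,1,⟨1,[(9,0),(0,0),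
  (21,0)]⟩,⟨0,[]⟩⟩ ⟨false,0,⟨0,[(2,0)]⟩,⟨3,[(0,3),(8,0),(0,0),(10,1),(6,1),(3,0)]⟩⟩,.o ⟨false,1,⟨1,
  [(21,0),(10,0)]⟩,⟨1,[(16,0),(0,0)]⟩⟩,.fo]⟩) (.I [0,1,2,1,-1,0,0,-1] (.R ⟨0,false,false,false,[0,0,
  1],[1,-1,1],[0,1,1],(⟨0,[(20,0)]⟩,⟨0,[(19,0)]⟩),(⟨0,[(20,0),(2,0)]⟩,⟨0,[(9,0)]⟩),⟨0,[(9,0)]⟩,.k,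
  .k,.k,.k,.k,.k,⟨true,(-1),⟨0,[(0,0)]⟩,⟨0,[(5,0)]⟩⟩,⟨false,0,⟨2,[(10,0),(0,0),(9,0),(1,0),(3,0)]⟩,
  ⟨1,[(22,0),(10,0)]⟩⟩,⟨false,0,⟨2,[(1,0),(1,0),(2,0),(9,0),(0,2)]⟩,⟨0,[(5,0),(26,0)]⟩⟩,⟨true,0,⟨5,
  [(6,2),(3,0),(0,0),(9,0),(1,0),(3,0)]⟩,⟨0,[(1,0),(13,0)]⟩⟩,⟨false,0,⟨0,[]⟩,⟨0,[]⟩⟩,⟨false,0,⟨0,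
  []⟩,⟨0,[]⟩⟩,[.o ⟨false,1,⟨7,[(5,3),(0,1),(3,2),(0,2),(3,3),(1,3),(4,0)]⟩,⟨0,[(1,0)]⟩⟩,.o ⟨false,1,
  ⟨0,[(5,0),(11,0)]⟩,⟨7,[(0,0),(0,5),(2,0),(11,1),(5,0),(6,1),(2,0)]⟩⟩,.o ⟨false,1,⟨1,[(17,1),(4,0),
  (10,0)]⟩,⟨0,[(2,0)]⟩⟩,.a ⟨true,0,⟨0,[(17,0)]⟩,⟨0,[(14,0)]⟩⟩ ⟨true,0,⟨0,[(36,0)]⟩,⟨0,[]⟩⟩ ⟨false,1,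
  ⟨3,[(5,1),(0,0),(0,0),(7,1),(11,0),(5,0),(0,1)]⟩,⟨0,[(1,0),(15,0)]⟩⟩]⟩) (.I [0,0,0,1,0,0,0,-1]
  (.R ⟨2,true,false,true,[0,1],[0,0,1],[0,1,1,1],(⟨0,[]⟩,⟨0,[]⟩),(⟨0,[(21,0)]⟩,⟨0,[(20,0)]⟩),⟨0,[]⟩,
  .k,.k,.k,.k,.k,.k,⟨false,0,⟨0,[(0,0)]⟩,⟨4,[(5,0),(0,3),(4,0),(0,0),(17,0),(1,0)]⟩⟩,⟨true,0,⟨0,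
  [(18,0)]⟩,⟨0,[(3,0)]⟩⟩,⟨true,0,⟨0,[(37,0)]⟩,⟨0,[]⟩⟩,⟨false,1,⟨7,[(6,3),(0,1),(3,2),(0,2),(3,3),(1,
  3),(4,0)]⟩,⟨0,[(4,0)]⟩⟩,⟨false,0,⟨0,[(33,0)]⟩,⟨3,[(7,1),(3,0),(0,0),(10,0),(11,1)]⟩⟩,⟨true,0,⟨0,
  [(16,0)]⟩,⟨2,[(2,0),(1,0),(2,0),(9,0)]⟩⟩,[]⟩) (.I [0,0,0,0,1,0,0,0,-1] (.I [0,0,1,-1,0,0,0,-1]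
  (.I [0,1,0,1,0,-1] (.I [0,0,1,0,0,1,1] (.I [0,0,0,1,0,-1,-1,-1] (.I [0,0,1,1,0,-1,0,-1] (.I [0,1,
  0,0,0,1,1,1] (.I [3,0,0,1,-1,1,-1,-1] (.I [-1,0,0,1] (.C [(0,0),(8,0),(0,0),(0,1),(15,1),(9,0),(3,
  0)]) (.C [(0,0),(5,0),(2,0),(0,0),(0,1),(15,1),(3,0),(5,0)])) (.C [(0,0),(9,0),(6,0),(18,0)]))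
  (.C [(0,0),(16,0),(5,0)])) (.C [(0,0),(7,0),(15,0),(5,0)])) (.C [(0,0),(6,0),(6,0),(14,1)])) (.C
  [(0,0),(13,0),(7,0)])) (.C [(0,0),(4,0),(13,0),(7,0)])) (.C [(0,0),(3,0),(4,0),(10,0)])) (.C [(0,
  0),(11,0),(2,0)]))))) (.R ⟨0,false,false,true,[0,1,-1],[0,1],[1,0,1],(⟨0,[(7,0)]⟩,⟨0,[(18,0),(2,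
  0)]⟩),(⟨0,[(22,0)]⟩,⟨0,[(21,0)]⟩),⟨0,[(18,0)]⟩,.k,.k,.k,.k,.k,.k,⟨false,1,⟨3,[(0,1),(0,1),(1,1),
  (0,1),(15,0),(10,0)]⟩,⟨0,[(30,0),(3,0)]⟩⟩,⟨true,0,⟨0,[(0,0)]⟩,⟨0,[(16,0)]⟩⟩,⟨false,1,⟨1,[(3,1),
  (11,0),(0,0)]⟩,⟨1,[(0,1),(0,0),(12,0),(15,0)]⟩⟩,⟨true,0,⟨0,[(13,0)]⟩,⟨0,[(1,0),(27,0)]⟩⟩,⟨false,0,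
  ⟨0,[]⟩,⟨0,[]⟩⟩,⟨false,0,⟨0,[]⟩,⟨0,[]⟩⟩,[.e ⟨false,0,⟨0,[]⟩,⟨1,[(8,0),(0,0),(21,0)]⟩⟩ ⟨false,0,⟨1,
  [(0,0),(14,0),(11,0),(2,1)]⟩,⟨1,[(1,0),(1,0),(0,0),(7,0),(7,0)]⟩⟩,.a ⟨true,0,⟨0,[(30,0)]⟩,⟨5,[(4,
  2),(3,0),(0,0),(9,0),(1,0),(3,0)]⟩⟩ ⟨true,0,⟨0,[(28,0)]⟩,⟨0,[(34,0)]⟩⟩ ⟨false,0,⟨0,[(0,0),(29,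
  0)]⟩,⟨0,[(3,0),(10,0)]⟩⟩,.o ⟨false,1,⟨0,[(12,0),(7,0)]⟩,⟨0,[(15,0)]⟩⟩,.o ⟨false,1,⟨3,[(5,1),(2,0),
  (0,0),(10,2)]⟩,⟨0,[(0,0)]⟩⟩]⟩)) (.Q [0,0,0,0,0,0,-1,0,0,0,-1] (.p false [0,0,1] [] (⟨0,[(17,0)]⟩,
  ⟨0,[(16,0)]⟩) .k 0 (⟨0,[]⟩,⟨0,[]⟩) .k .k) (.I [0,1,-1,0,0,0,0,1] (.Q [0,0,0,1,0,0,-1,-1,0,0,-1]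
  (.p false [0,0,1] [] (⟨0,[(19,0)]⟩,⟨0,[(18,0)]⟩) .k 0 (⟨0,[]⟩,⟨0,[]⟩) .k .k) (.Q [0,0,-1,1,0,0,-1,
  0,0,0,-1] (.p false [0,0,1] [] (⟨0,[(20,0)]⟩,⟨0,[(19,0)]⟩) .k 0 (⟨0,[]⟩,⟨0,[]⟩) .k .k) (.I [1,0,1,
  0,0,0,0,-1] (.R ⟨0,false,false,false,[0,0,1],[0,1],[1,1,1],(⟨0,[(22,0)]⟩,⟨0,[(21,0)]⟩),(⟨0,[(26,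
  0)]⟩,⟨0,[(25,0)]⟩),⟨0,[(11,0)]⟩,.k,.k,.k,.k,.k,.k,⟨true,0,⟨0,[(33,0)]⟩,⟨0,[(32,0),(1,0)]⟩⟩,⟨false,
  1,⟨1,[(16,1),(7,0),(10,0)]⟩,⟨0,[(19,0)]⟩⟩,⟨false,0,⟨0,[(0,0)]⟩,⟨0,[(3,0),(32,0)]⟩⟩,⟨true,0,⟨0,[(2,
  0)]⟩,⟨0,[(5,0)]⟩⟩,⟨false,0,⟨0,[]⟩,⟨0,[]⟩⟩,⟨false,0,⟨0,[]⟩,⟨0,[]⟩⟩,[.e ⟨false,0,⟨0,[(38,0)]⟩,⟨1,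
  [(35,0),(0,0)]⟩⟩ ⟨false,0,⟨0,[(1,0)]⟩,⟨3,[(8,1),(3,0),(0,0),(5,3),(4,0),(10,1)]⟩⟩,.o ⟨false,1,⟨1,
  [(24,0),(9,1),(1,0)]⟩,⟨0,[(33,0)]⟩⟩,.o ⟨false,1,⟨1,[(19,1),(4,0),(10,0)]⟩,⟨0,[(4,0)]⟩⟩,.a ⟨true,0,
  ⟨0,[(19,0)]⟩,⟨0,[(16,0)]⟩⟩ ⟨false,0,⟨0,[]⟩,⟨1,[(12,0),(0,0),(22,0)]⟩⟩ ⟨true,0,⟨0,[(1,0)]⟩,⟨0,[(19,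
  0),(13,0)]⟩⟩]⟩) (.R ⟨2,true,false,true,[0,1],[0,0,1],[0,0,1,1],(⟨0,[]⟩,⟨0,[]⟩),(⟨0,[(22,0)]⟩,⟨0,
  [(21,0)]⟩),⟨0,[]⟩,.k,.k,.k,.k,.k,.k,⟨false,1,⟨1,[(2,1),(16,1),(15,0),(0,0)]⟩,⟨0,[(0,0),(32,0)]⟩⟩,
  ⟨true,0,⟨0,[(19,0)]⟩,⟨0,[(4,0)]⟩⟩,⟨false,1,⟨1,[(12,0),(0,0),(22,0)]⟩,⟨0,[]⟩⟩,⟨true,0,⟨0,[(5,0)]⟩,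
  ⟨0,[(2,0)]⟩⟩,⟨true,0,⟨0,[(34,0)]⟩,⟨0,[(33,0)]⟩⟩,⟨false,0,⟨0,[(0,0),(18,0)]⟩,⟨0,[(18,0),(17,0)]⟩⟩,
  []⟩)) (.R ⟨0,false,false,false,[0,0,1],[0,1],[1,1,1],(⟨0,[(21,0)]⟩,⟨0,[(20,0)]⟩),(⟨0,[(25,0)]⟩,⟨0,
  [(24,0)]⟩),⟨0,[(10,0)]⟩,.k,.k,.k,.k,.k,.k,⟨true,0,⟨0,[(32,0)]⟩,⟨0,[(31,0),(1,0)]⟩⟩,⟨false,1,⟨1,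
  [(15,1),(7,0),(10,0)]⟩,⟨0,[(18,0)]⟩⟩,⟨false,0,⟨0,[(0,0),(0,0)]⟩,⟨0,[(2,0),(32,0)]⟩⟩,⟨true,0,⟨0,
  [(1,0)]⟩,⟨0,[(4,0)]⟩⟩,⟨false,0,⟨0,[]⟩,⟨0,[]⟩⟩,⟨false,0,⟨0,[]⟩,⟨0,[]⟩⟩,[.a ⟨true,0,⟨0,[(33,0)]⟩,⟨5,
  [(7,2),(3,0),(0,0),(9,0),(1,0),(3,0)]⟩⟩ ⟨false,0,⟨0,[(37,0)]⟩,⟨1,[(34,0),(0,0)]⟩⟩ ⟨true,0,⟨0,[(3,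
  0),(29,0)]⟩,⟨0,[(0,0)]⟩⟩,.o ⟨false,1,⟨1,[(23,0),(9,1),(1,0)]⟩,⟨0,[(32,0)]⟩⟩,.o ⟨false,1,⟨1,[(18,
  1),(4,0),(10,0)]⟩,⟨0,[(3,0)]⟩⟩,.e ⟨false,0,⟨0,[]⟩,⟨1,[(11,0),(0,0),(22,0)]⟩⟩ ⟨false,1,⟨0,[(1,0),
  (0,0),(32,0)]⟩,⟨0,[(0,0)]⟩⟩]⟩)) (.Q [0,0,-1,1,0,0,-1,0,0,0,-1] (.p false [0,0,1] [] (⟨0,[(20,0)]⟩,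
  ⟨0,[(19,0)]⟩) .k 0 (⟨0,[]⟩,⟨0,[]⟩) .k .k) (.R ⟨0,false,false,false,[0,0,1],[0,1],[1,1,1],(⟨0,[(21,
  0)]⟩,⟨0,[(20,0)]⟩),(⟨0,[(25,0)]⟩,⟨0,[(24,0)]⟩),⟨0,[(10,0)]⟩,.k,.k,.k,.k,.k,.k,⟨true,0,⟨0,[(32,
  0)]⟩,⟨0,[(31,0),(1,0)]⟩⟩,⟨false,1,⟨1,[(15,1),(7,0),(10,0)]⟩,⟨0,[(18,0)]⟩⟩,⟨true,0,⟨0,[(17,0),(0,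
  0)]⟩,⟨0,[(0,0),(0,0)]⟩⟩,⟨false,1,⟨0,[(17,0),(15,0),(1,0)]⟩,⟨0,[(1,0)]⟩⟩,⟨false,0,⟨0,[]⟩,⟨0,[]⟩⟩,
  ⟨false,0,⟨0,[]⟩,⟨0,[]⟩⟩,[.e ⟨false,0,⟨0,[(37,0)]⟩,⟨1,[(34,0),(0,0)]⟩⟩ ⟨false,0,⟨0,[(0,0)]⟩,⟨3,[(7,
  1),(3,0),(0,0),(5,3),(4,0),(10,1)]⟩⟩,.o ⟨false,1,⟨1,[(23,0),(9,1),(1,0)]⟩,⟨0,[(32,0)]⟩⟩,.o ⟨false,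
  1,⟨1,[(18,1),(4,0),(10,0)]⟩,⟨0,[(3,0)]⟩⟩,.a ⟨true,0,⟨0,[(18,0)]⟩,⟨0,[(15,0)]⟩⟩ ⟨false,0,⟨0,[]⟩,⟨1,
  [(11,0),(0,0),(22,0)]⟩⟩ ⟨true,0,⟨0,[(0,0)]⟩,⟨0,[(18,0),(13,0)]⟩⟩]⟩) (.Q [0,0,0,1,0,0,1,0,0,0,1]
  (.p true [0,0,1] [] (⟨0,[(21,0)]⟩,⟨0,[(20,0)]⟩) .k 0 (⟨0,[]⟩,⟨0,[]⟩) .k .k) (.R ⟨0,false,false,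
  false,[0,1,-1],[0,1],[1,1,1],(⟨0,[(11,0)]⟩,⟨0,[(22,0),(2,0)]⟩),(⟨0,[(26,0)]⟩,⟨0,[(25,0)]⟩),⟨0,
  [(22,0)]⟩,.k,.k,.k,.k,.k,.k,⟨true,0,⟨0,[(33,0)]⟩,⟨0,[(32,0),(1,0)]⟩⟩,⟨false,1,⟨0,[(19,0),(15,0)]⟩,
  ⟨0,[(4,0)]⟩⟩,⟨false,0,⟨0,[(2,0),(1,0)]⟩,⟨0,[(0,0),(17,0),(17,0)]⟩⟩,⟨true,0,⟨1,[(0,0),(1,0),(0,0),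
  (28,0)]⟩,⟨0,[(18,0)]⟩⟩,⟨false,0,⟨0,[]⟩,⟨0,[]⟩⟩,⟨false,0,⟨0,[]⟩,⟨0,[]⟩⟩,[.e ⟨false,0,⟨0,[(38,0)]⟩,
  ⟨1,[(35,0),(0,0)]⟩⟩ ⟨false,0,⟨0,[(0,0)]⟩,⟨0,[(7,0),(10,0)]⟩⟩,.o ⟨false,1,⟨1,[(24,0),(9,1),(1,0)]⟩,
  ⟨0,[(33,0)]⟩⟩,.o ⟨false,1,⟨0,[(16,0),(7,0)]⟩,⟨0,[(19,0)]⟩⟩,.a ⟨true,0,⟨0,[(4,0)]⟩,⟨9,[(0,3),(7,1),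
  (10,5),(3,1),(1,1),(3,2),(5,2)]⟩⟩ ⟨false,0,⟨0,[]⟩,⟨1,[(12,0),(0,0),(22,0)]⟩⟩ ⟨true,0,⟨0,[(0,0)]⟩,
  ⟨0,[(4,0),(28,0)]⟩⟩]⟩) (.I [1,0,-1,0,1,0,0,-1] (.R ⟨0,false,false,false,[0,1,-1],[0,1],[1,1,1],
  (⟨0,[(12,0)]⟩,⟨0,[(23,0),(2,0)]⟩),(⟨0,[(27,0)]⟩,⟨0,[(26,0)]⟩),⟨0,[(23,0)]⟩,.k,.k,.k,.k,.k,.k,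
  ⟨true,0,⟨0,[(34,0)]⟩,⟨0,[(33,0),(1,0)]⟩⟩,⟨false,1,⟨0,[(20,0),(15,0)]⟩,⟨0,[(5,0)]⟩⟩,⟨false,0,⟨0,
  [(3,0),(1,0)]⟩,⟨0,[(0,0),(32,0),(1,0)]⟩⟩,⟨true,0,⟨0,[(3,0),(31,0)]⟩,⟨0,[(19,0)]⟩⟩,⟨false,0,⟨0,[]⟩,
  ⟨0,[]⟩⟩,⟨false,0,⟨0,[]⟩,⟨0,[]⟩⟩,[.a ⟨true,0,⟨0,[(35,0)]⟩,⟨63,[(0,5),(8,31),(0,5),(7,5),(1,5),(3,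
  7),(1,7),(3,8),(6,2)]⟩⟩ ⟨false,0,⟨0,[(39,0)]⟩,⟨1,[(36,0),(0,0)]⟩⟩ ⟨true,0,⟨0,[(20,0),(14,0)]⟩,⟨0,
  [(1,0)]⟩⟩,.o ⟨false,1,⟨1,[(25,0),(9,1),(1,0)]⟩,⟨0,[(34,0)]⟩⟩,.o ⟨false,1,⟨0,[(17,0),(7,0)]⟩,⟨0,
  [(20,0)]⟩⟩,.e ⟨false,0,⟨0,[]⟩,⟨1,[(13,0),(0,0),(22,0)]⟩⟩ ⟨false,1,⟨1,[(20,1),(14,1),(0,0),(0,0)]⟩,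
  ⟨0,[(1,0)]⟩⟩]⟩) (.R ⟨0,false,false,false,[0,0,1],[0,1],[1,1,1],(⟨0,[(23,0)]⟩,⟨0,[(22,0)]⟩),(⟨0,
  [(27,0)]⟩,⟨0,[(26,0)]⟩),⟨0,[(12,0)]⟩,.k,.k,.k,.k,.k,.k,⟨true,0,⟨0,[(34,0)]⟩,⟨0,[(33,0),(1,0)]⟩⟩,
  ⟨false,1,⟨1,[(17,1),(7,0),(10,0)]⟩,⟨0,[(20,0)]⟩⟩,⟨true,0,⟨0,[(19,0),(0,0)]⟩,⟨0,[(0,0),(35,0)]⟩⟩,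
  ⟨false,1,⟨0,[(19,0),(15,0),(1,0)]⟩,⟨0,[(3,0)]⟩⟩,⟨false,0,⟨0,[]⟩,⟨0,[]⟩⟩,⟨false,0,⟨0,[]⟩,⟨0,[]⟩⟩,
  [.a ⟨true,0,⟨0,[(35,0)]⟩,⟨5,[(9,2),(3,0),(0,0),(9,0),(1,0),(3,0)]⟩⟩ ⟨false,0,⟨0,[(39,0)]⟩,⟨1,[(36,
  0),(0,0)]⟩⟩ ⟨true,0,⟨0,[(5,0),(29,0)]⟩,⟨0,[(2,0)]⟩⟩,.o ⟨false,1,⟨1,[(25,0),(9,1),(1,0)]⟩,⟨0,[(34,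
  0)]⟩⟩,.o ⟨false,1,⟨1,[(20,1),(4,0),(10,0)]⟩,⟨0,[(5,0)]⟩⟩,.e ⟨false,0,⟨0,[]⟩,⟨1,[(13,0),(0,0),(22,
  0)]⟩⟩ ⟨false,1,⟨1,[(17,1),(7,0),(9,1),(1,0)]⟩,⟨0,[(2,0)]⟩⟩]⟩))))) (.Q [0,0,0,1,0,0,-1,-1,0,0,-1]
  (.p false [0,0,1] [] (⟨0,[(19,0)]⟩,⟨0,[(18,0)]⟩) .k 0 (⟨0,[]⟩,⟨0,[]⟩) .k .k) (.R ⟨0,false,false,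
  false,[0,0,1],[0,1],[1,1,1],(⟨0,[(20,0)]⟩,⟨0,[(19,0)]⟩),(⟨0,[(24,0)]⟩,⟨0,[(23,0)]⟩),⟨0,[(9,0)]⟩,
  .k,.k,.k,.k,.k,.k,⟨true,0,⟨0,[(31,0)]⟩,⟨0,[(30,0),(1,0)]⟩⟩,⟨false,1,⟨1,[(14,1),(7,0),(10,0)]⟩,⟨0,
  [(17,0)]⟩⟩,⟨false,0,⟨1,[(1,0),(14,0),(0,0)]⟩,⟨0,[(5,0),(26,0)]⟩⟩,⟨true,0,⟨0,[(0,0)]⟩,⟨0,[(3,0)]⟩⟩,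
  ⟨false,0,⟨0,[]⟩,⟨0,[]⟩⟩,⟨false,0,⟨0,[]⟩,⟨0,[]⟩⟩,[.a ⟨true,0,⟨0,[(32,0)]⟩,⟨5,[(6,2),(3,0),(0,0),(9,
  0),(1,0),(3,0)]⟩⟩ ⟨false,0,⟨0,[(36,0)]⟩,⟨1,[(33,0),(0,0)]⟩⟩ ⟨true,0,⟨0,[(2,0),(29,0)]⟩,⟨0,[(1,0),
  (1,0)]⟩⟩,.o ⟨false,1,⟨1,[(22,0),(9,1),(1,0)]⟩,⟨0,[(31,0)]⟩⟩,.o ⟨false,1,⟨1,[(17,1),(4,0),(10,0)]⟩,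
  ⟨0,[(2,0)]⟩⟩,.e ⟨false,0,⟨0,[]⟩,⟨1,[(10,0),(0,0),(22,0)]⟩⟩ ⟨false,1,⟨1,[(14,1),(7,0),(9,1),(1,
  0)]⟩,⟨0,[(1,0),(1,0)]⟩⟩]⟩) (.R ⟨0,false,false,false,[1,0,-1],[1,-1],[0,1],(⟨0,[(19,0)]⟩,⟨0,[(20,
  0)]⟩),(⟨0,[(23,0)]⟩,⟨0,[(24,0)]⟩),⟨0,[(8,0)]⟩,.k,.k,.k,.k,.k,.k,⟨false,0,⟨0,[(32,0),(3,0)]⟩,⟨1,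
  [(0,1),(0,1),(12,1),(7,0),(10,0)]⟩⟩,⟨true,0,⟨0,[(17,0)]⟩,⟨0,[(2,0)]⟩⟩,⟨false,0,⟨0,[(0,0),(1,0),
  (29,0)]⟩,⟨1,[(1,0),(14,0),(0,0),(15,0),(0,0)]⟩⟩,⟨true,0,⟨0,[(0,0)]⟩,⟨0,[(16,0),(15,0)]⟩⟩,⟨false,0,
  ⟨0,[]⟩,⟨0,[]⟩⟩,⟨false,0,⟨0,[]⟩,⟨0,[]⟩⟩,[.a ⟨true,0,⟨5,[(6,2),(3,0),(0,0),(9,0),(1,0),(3,0)]⟩,⟨0,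
  [(32,0)]⟩⟩ ⟨true,0,⟨0,[(36,0)]⟩,⟨0,[(30,0)]⟩⟩ ⟨false,1,⟨7,[(0,3),(0,3),(4,1),(10,3),(4,0),(6,1),
  (3,6)]⟩,⟨0,[(2,0),(29,0)]⟩⟩,.e ⟨false,1,⟨1,[(10,0),(0,0),(21,0)]⟩,⟨0,[]⟩⟩ ⟨false,1,⟨0,[(0,0),(0,
  0),(31,0)]⟩,⟨1,[(2,0),(1,0),(11,0),(15,1)]⟩⟩,.o ⟨false,0,⟨0,[(2,0)]⟩,⟨1,[(17,1),(4,0),(10,0)]⟩⟩,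
  .e ⟨false,1,⟨1,[(10,0),(0,0),(21,0)]⟩,⟨0,[(30,0)]⟩⟩ ⟨false,1,⟨0,[(0,0),(0,0),(31,0)]⟩,⟨0,[(18,0),
  (13,0)]⟩⟩]⟩))) (.Q [0,0,0,0,0,0,1,1,0,0,1] (.p true [0,0,1] [] (⟨0,[(18,0)]⟩,⟨0,[(17,0)]⟩) .k 0
  (⟨0,[]⟩,⟨0,[]⟩) .k .k) (.I [1,0,0,0,0,0,0,1] (.R ⟨0,false,false,true,[0,1,-1],[1,0,-1],[0,1,1,0,0,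
  0,0,-1],(⟨0,[(9,0)]⟩,⟨0,[(20,0),(2,0)]⟩),(⟨0,[(19,0)]⟩,⟨0,[(20,0)]⟩),⟨0,[(20,0)]⟩,.k,.k,.k,.k,.k,
  .k,⟨true,0,⟨1,[(17,0),(0,0)]⟩,⟨0,[]⟩⟩,⟨false,0,⟨2,[(10,0),(0,0),(9,0),(1,0),(3,0)]⟩,⟨1,[(22,0),
  (10,0)]⟩⟩,⟨true,0,⟨0,[(31,0)]⟩,⟨0,[(32,0)]⟩⟩,⟨false,0,⟨5,[(6,2),(3,0),(0,0),(9,0),(1,0),(3,0)]⟩,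
  ⟨1,[(22,0),(9,1),(1,0)]⟩⟩,⟨false,0,⟨0,[]⟩,⟨0,[]⟩⟩,⟨false,0,⟨0,[]⟩,⟨0,[]⟩⟩,[.o ⟨false,0,⟨0,[(16,
  0)]⟩,⟨1,[(1,1),(20,0),(11,0)]⟩⟩,.a ⟨true,0,⟨0,[(2,0),(11,0),(1,0),(13,0)]⟩,⟨0,[(1,0)]⟩⟩ ⟨true,0,
  ⟨0,[(2,0),(13,0),(13,0)]⟩,⟨0,[(0,0)]⟩⟩ ⟨false,0,⟨0,[(2,1),(11,0),(1,0),(13,0)]⟩,⟨1,[(0,1),(21,0),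
  (10,0)]⟩⟩,.o ⟨false,1,⟨0,[(14,0),(7,0)]⟩,⟨0,[(17,0)]⟩⟩,.o ⟨false,1,⟨3,[(7,1),(2,0),(0,0),(10,2)]⟩,
  ⟨0,[(2,0)]⟩⟩]⟩) (.R ⟨0,false,false,false,[0,1,-1],[0,1],[0,1],(⟨0,[(9,0)]⟩,⟨0,[(20,0),(2,0)]⟩),
  (⟨0,[(24,0)]⟩,⟨0,[(23,0)]⟩),⟨0,[(20,0)]⟩,.k,.k,.k,.k,.k,.k,⟨false,1,⟨3,[(6,1),(15,0),(6,1),(3,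
  2)]⟩,⟨0,[(30,0),(1,0)]⟩⟩,⟨true,0,⟨0,[(2,0)]⟩,⟨0,[(18,0)]⟩⟩,⟨false,1,⟨4,[(4,0),(0,3),(4,0),(0,0),
  (17,0),(1,0)]⟩,⟨0,[(0,0),(29,0),(1,0)]⟩⟩,⟨true,0,⟨0,[(1,0)]⟩,⟨0,[(16,0)]⟩⟩,⟨false,0,⟨0,[]⟩,⟨0,
  []⟩⟩,⟨false,0,⟨0,[]⟩,⟨0,[]⟩⟩,[.a ⟨true,0,⟨0,[(32,0)]⟩,⟨5,[(6,2),(3,0),(0,0),(9,0),(1,0),(3,0)]⟩⟩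
  ⟨true,0,⟨0,[(36,0)]⟩,⟨0,[(30,0)]⟩⟩ ⟨false,0,⟨0,[(2,0),(29,0)]⟩,⟨0,[(5,0),(10,0)]⟩⟩,.o ⟨false,1,⟨1,
  [(22,0),(9,1),(1,0)]⟩,⟨0,[(31,0)]⟩⟩,.o ⟨false,1,⟨0,[(14,0),(7,0)]⟩,⟨0,[(17,0)]⟩⟩,.o ⟨false,1,⟨3,
  [(7,1),(2,0),(0,0),(10,2)]⟩,⟨0,[(2,0)]⟩⟩]⟩)) (.R ⟨0,false,false,true,[0,1,-1],[0,1],[1,0,1],(⟨0,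
  [(8,0)]⟩,⟨0,[(19,0),(2,0)]⟩),(⟨0,[(23,0)]⟩,⟨0,[(22,0)]⟩),⟨0,[(19,0)]⟩,.k,.k,.k,.k,.k,.k,⟨false,1,
  ⟨0,[(0,0),(0,0),(2,0)]⟩,⟨0,[(31,0),(3,0)]⟩⟩,⟨true,0,⟨0,[(1,0)]⟩,⟨0,[(17,0)]⟩⟩,⟨false,1,⟨1,[(4,1),
  (11,0),(0,0)]⟩,⟨0,[(0,0),(0,0),(29,0)]⟩⟩,⟨true,0,⟨0,[(14,0)]⟩,⟨0,[(0,0)]⟩⟩,⟨false,0,⟨0,[]⟩,⟨0,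
  []⟩⟩,⟨false,0,⟨0,[]⟩,⟨0,[]⟩⟩,[.e ⟨false,0,⟨0,[]⟩,⟨1,[(9,0),(0,0),(21,0)]⟩⟩ ⟨false,0,⟨1,[(1,0),(14,
  0),(11,0),(2,1)]⟩,⟨0,[(0,0),(3,0)]⟩⟩,.a ⟨true,0,⟨0,[(31,0)]⟩,⟨5,[(5,2),(3,0),(0,0),(9,0),(1,0),(3,
  0)]⟩⟩ ⟨true,0,⟨0,[(29,0)]⟩,⟨0,[(35,0)]⟩⟩ ⟨false,0,⟨0,[(1,0),(29,0)]⟩,⟨0,[(4,0),(10,0)]⟩⟩,.o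
  ⟨false,1,⟨0,[(13,0),(7,0)]⟩,⟨0,[(16,0)]⟩⟩,.o ⟨false,1,⟨3,[(6,1),(2,0),(0,0),(10,2)]⟩,⟨0,[(1,
  0)]⟩⟩]⟩)))) (.Q [0,0,0,0,0,0,-1,-1,0,0,-1] (.p false [0,0,1] [] (⟨0,[(16,0)]⟩,⟨0,[(15,0)]⟩) .k 0
  (⟨0,[]⟩,⟨0,[]⟩) .k .k) (.R ⟨0,false,false,true,[0,1,-1],[0,1],[1,0,1],(⟨0,[(6,0)]⟩,⟨0,[(17,0),(2,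
  0)]⟩),(⟨0,[(21,0)]⟩,⟨0,[(20,0)]⟩),⟨0,[(17,0)]⟩,.k,.k,.k,.k,.k,.k,⟨false,1,⟨5,[(1,1),(0,1),(0,1),
  (15,0),(10,1),(0,0)]⟩,⟨0,[(29,0),(3,0)]⟩⟩,⟨true,0,⟨0,[(1,0),(10,0)]⟩,⟨0,[(15,0)]⟩⟩,⟨false,1,⟨1,
  [(2,1),(11,0),(0,0)]⟩,⟨3,[(1,2),(11,0),(0,0),(11,0),(2,3)]⟩⟩,⟨true,0,⟨0,[(12,0)]⟩,⟨0,[(0,0)]⟩⟩,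
  ⟨false,0,⟨0,[]⟩,⟨0,[]⟩⟩,⟨false,0,⟨0,[]⟩,⟨0,[]⟩⟩,[.e ⟨false,0,⟨0,[]⟩,⟨1,[(7,0),(0,0),(21,0)]⟩⟩
  ⟨false,0,⟨1,[(1,0),(10,0),(1,0),(11,0),(2,1)]⟩,⟨0,[(0,0),(1,0)]⟩⟩,.a ⟨true,0,⟨0,[(29,0)]⟩,⟨5,[(3,
  2),(3,0),(0,0),(9,0),(1,0),(3,0)]⟩⟩ ⟨true,0,⟨0,[(27,0)]⟩,⟨0,[(33,0)]⟩⟩ ⟨false,0,⟨0,[(1,0),(10,0),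
  (16,0)]⟩,⟨0,[(2,0),(10,0)]⟩⟩,.o ⟨false,1,⟨0,[(11,0),(7,0)]⟩,⟨0,[(14,0)]⟩⟩,.o ⟨false,1,⟨3,[(4,1),
  (2,0),(0,0),(10,2)]⟩,⟨0,[(1,0),(10,0)]⟩⟩]⟩) (.R ⟨0,false,false,false,[0,1,-1],[0,1],[1],(⟨0,[(6,
  0)]⟩,⟨0,[(17,0),(2,0)]⟩),(⟨0,[(21,0)]⟩,⟨0,[(20,0)]⟩),⟨0,[(17,0)]⟩,.k,.k,.k,.k,.k,.k,⟨false,1,⟨0,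
  [(1,0),(0,0),(23,0)]⟩,⟨1,[(14,0),(0,0),(13,1)]⟩⟩,⟨true,0,⟨0,[(1,0),(10,0)]⟩,⟨0,[(15,0)]⟩⟩,⟨false,
  1,⟨0,[(2,0)]⟩,⟨2,[(1,0),(11,1),(0,1),(12,0),(1,2)]⟩⟩,⟨true,0,⟨0,[(0,0)]⟩,⟨0,[(13,0)]⟩⟩,⟨false,0,
  ⟨0,[]⟩,⟨0,[]⟩⟩,⟨false,0,⟨0,[]⟩,⟨0,[]⟩⟩,[.a ⟨true,0,⟨0,[(29,0)]⟩,⟨5,[(3,2),(3,0),(0,0),(9,0),(1,0),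
  (3,0)]⟩⟩ ⟨true,0,⟨0,[]⟩,⟨1,[(14,0),(0,0)]⟩⟩ ⟨false,0,⟨0,[(1,0),(10,0),(16,0)]⟩,⟨0,[(2,0),(10,
  0)]⟩⟩,.o ⟨false,1,⟨1,[(19,0),(9,1),(1,0)]⟩,⟨0,[(28,0)]⟩⟩,.o ⟨false,1,⟨0,[(11,0),(7,0)]⟩,⟨0,[(14,
  0)]⟩⟩,.o ⟨false,1,⟨3,[(4,1),(2,0),(0,0),(10,2)]⟩,⟨0,[(1,0),(10,0)]⟩⟩]⟩))) (.Q [0,0,1,-1,-1,0,-1,0,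
  0,1,-1] (.p false [0,0,1] [1] (⟨0,[(15,0)]⟩,⟨0,[(14,0)]⟩) .k 1 (⟨0,[]⟩,⟨0,[]⟩) .k .k) (.R ⟨0,
  false,false,false,[0,1,-1],[0,1],[1,1,1],(⟨0,[(5,0)]⟩,⟨0,[(16,0),(2,0)]⟩),(⟨0,[(20,0)]⟩,⟨0,[(19,
  0)]⟩),⟨0,[(16,0)]⟩,.k,.k,.k,.k,.k,.k,⟨true,0,⟨0,[(27,0)]⟩,⟨0,[(26,0),(1,0)]⟩⟩,⟨false,1,⟨0,[(13,0),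
  (15,0)]⟩,⟨1,[(0,0),(9,0),(7,0),(9,0)]⟩⟩,⟨true,0,⟨1,[(0,1),(10,1),(6,0),(10,0)]⟩,⟨1,[(1,1),(27,0),
  (0,0)]⟩⟩,⟨false,1,⟨0,[(11,0),(18,0)]⟩,⟨1,[(0,1),(0,1),(16,0),(10,1),(0,0)]⟩⟩,⟨false,0,⟨0,[]⟩,⟨0,
  []⟩⟩,⟨false,0,⟨0,[]⟩,⟨0,[]⟩⟩,[.a ⟨true,0,⟨0,[(28,0)]⟩,⟨5,[(2,2),(3,0),(0,0),(9,0),(1,0),(3,0)]⟩⟩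
  ⟨false,0,⟨0,[(32,0)]⟩,⟨1,[(29,0),(0,0)]⟩⟩ ⟨true,0,⟨0,[(13,0),(14,0)]⟩,⟨1,[(0,1),(17,0),(10,0)]⟩⟩,
  .o ⟨false,1,⟨1,[(18,0),(9,1),(1,0)]⟩,⟨0,[(27,0)]⟩⟩,.o ⟨false,1,⟨0,[(10,0),(7,0)]⟩,⟨0,[(13,0)]⟩⟩,
  .e ⟨false,0,⟨0,[]⟩,⟨1,[(6,0),(0,0),(22,0)]⟩⟩ ⟨false,1,⟨1,[(13,1),(14,1),(0,0),(0,0)]⟩,⟨1,[(0,1),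
  (17,0),(10,0)]⟩⟩]⟩) (.Q [0,0,2,0,-1,0,1,0,0,1,1] (.p true [1,-1,1] [] (⟨0,[(16,0),(2,0)]⟩,⟨0,[(5,
  0)]⟩) .k 0 (⟨0,[]⟩,⟨0,[]⟩) .k .k) (.K ⟨0,[1,-1,1],(-1),0,(⟨0,[(17,0),(2,0)]⟩,⟨0,[(6,0)]⟩),.k,(.r
  (-2) ⟨1,[(3,1),(7,1),(0,1),(6,1),(10,0),(0,0)]⟩ ⟨0,[(2,0),(24,0),(1,0)]⟩),.k,.k,.k,[⟨1,[(19,0),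
  (10,0)]⟩,⟨0,[(0,0)]⟩,⟨0,[(2,0),(8,0),(7,0)]⟩,⟨5,[(3,2),(3,0),(0,0),(3,5),(5,0),(1,0),(3,0)]⟩]⟩)
  (.Q [0,0,0,0,0,0,-1,0,0,0,-1] (.p false [0,0,1] [] (⟨0,[(17,0)]⟩,⟨0,[(16,0)]⟩) .k 0 (⟨0,[]⟩,⟨0,
  []⟩) .k .k) (.R ⟨2,true,false,true,[0,1],[0,0,1],[0,1,1,1],(⟨0,[]⟩,⟨0,[]⟩),(⟨0,[(18,0)]⟩,⟨0,[(17,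
  0)]⟩),⟨0,[]⟩,.k,.k,.k,.k,.k,.k,⟨false,0,⟨1,[(3,1),(27,0),(0,0)]⟩,⟨1,[(0,0),(0,0),(2,0),(8,1),(18,
  0)]⟩⟩,⟨true,0,⟨0,[(15,0)]⟩,⟨0,[(0,0)]⟩⟩,⟨true,0,⟨0,[(34,0)]⟩,⟨0,[]⟩⟩,⟨false,1,⟨3,[(4,1),(3,0),(0,
  0),(3,3),(6,0),(11,1)]⟩,⟨1,[(1,1),(1,1),(21,0),(2,1),(3,0)]⟩⟩,⟨false,0,⟨0,[(30,0)]⟩,⟨3,[(4,1),(3,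
  0),(0,0),(10,0),(11,1)]⟩⟩,⟨true,0,⟨0,[(13,0)]⟩,⟨1,[(0,0),(0,0),(1,1),(0,0),(27,0)]⟩⟩,[]⟩) (.I [0,
  0,0,0,1,0,0,0,-1] (.I [0,0,0,0,0,1,1] (.I [0,0,0,-1,0,1] (.I [0,0,-1,0,0,1,-1] (.I [0,0,-2,0,1,
  -1] (.I [0,1,0,0,0,1,1,1] (.I [0,0,-3,0,1] (.I [3,0,-2,0,0,1,-1] (.I [0,0,-2,-2,1] (.C [(0,0),(9,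
  1),(1,1),(9,1),(11,0),(2,3)]) (.C [(0,0),(8,0),(0,0),(2,0)])) (.C [(0,0),(8,0),(4,0),(18,0)]))
  (.C [(0,0),(6,1),(0,0),(10,0)])) (.C [(0,0),(12,0),(5,0)])) (.C [(0,0),(4,0),(0,0),(19,0)])) (.C
  [(0,0),(9,0),(5,0)])) (.C [(0,1),(6,0),(1,0),(0,0)])) (.C [(0,0),(1,0),(6,0)])) (.C [(0,0),(8,0),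
  (2,0)]))))))

theorem ok0 : chk K t0 l0 = true := by decide +kernel

noncomputable def t1 : Tre :=
  (.Q [0,0,2,0,-1,0,0,0,0,1] (.pp false [-1,1]) (.R ⟨2,true,false,true,[0,1],[1,-1],[1,0,1],(⟨0,[]⟩,
  ⟨0,[]⟩),(⟨0,[(18,0)]⟩,⟨0,[(19,0)]⟩),⟨0,[]⟩,.k,.k,.k,(.r 1 ⟨0,[(0,0),(0,0)]⟩ ⟨0,[(26,1),(1,0),(0,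
  0)]⟩),.k,.k,⟨false,0,⟨1,[(0,0),(0,0),(27,0)]⟩,⟨0,[(26,0),(1,0)]⟩⟩,⟨true,(-1),⟨0,[(0,0)]⟩,⟨1,[(17,
  0),(10,0)]⟩⟩,⟨false,1,⟨0,[(26,0),(2,0)]⟩,⟨0,[(27,0)]⟩⟩,⟨true,0,⟨1,[(22,0),(3,3),(2,0)]⟩,⟨0,[(1,
  0)]⟩⟩,⟨true,0,⟨0,[]⟩,⟨0,[(31,0)]⟩⟩,⟨false,0,⟨1,[(22,0),(3,1),(2,0)]⟩,⟨3,[(1,1),(3,0),(0,0),(10,0),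
  (11,1)]⟩⟩,[]⟩) (.I [0,0,2,0,-1,2] (.N [0,2] 1 ⟨0,[(2,1),(20,0),(2,1),(0,1)]⟩ ⟨0,[(1,1),(21,0),(2,
  1),(0,1)]⟩ (.x (-2) ⟨0,[(18,0),(0,1),(9,0)]⟩ ⟨0,[(0,0)]⟩)) (.I [0,1,1,1,-1,0,0,1] (.Q [0,0,0,1,0,
  0,1,1,0,-1,1] (.p true [0,0,1] [1] (⟨0,[(17,0)]⟩,⟨0,[(16,0)]⟩) .k 1 (⟨0,[]⟩,⟨0,[]⟩) .k .k) (.I [1,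
  -1,0,-1,1,0,0,-1] (.R ⟨2,true,false,false,[0,1],[1,0,-1],[0,1,1,1],(⟨0,[]⟩,⟨0,[]⟩),(⟨0,[(18,0)]⟩,
  ⟨0,[(19,0)]⟩),⟨0,[]⟩,.k,.k,.k,.k,.k,.k,⟨true,(-1),⟨0,[(2,0)]⟩,⟨0,[(0,0)]⟩⟩,⟨false,0,⟨5,[(6,2),(2,
  0),(0,0),(9,0),(1,0),(3,0)]⟩,⟨0,[(4,0),(11,0)]⟩⟩,⟨true,0,⟨0,[(35,0)]⟩,⟨0,[]⟩⟩,⟨false,1,⟨5,[(0,5),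
  (5,2),(2,0),(0,0),(9,0),(1,0),(3,0)]⟩,⟨0,[(1,0)]⟩⟩,⟨false,0,⟨0,[(31,0)]⟩,⟨0,[(30,0),(2,0)]⟩⟩,
  ⟨true,0,⟨9,[(3,1),(11,9),(4,3),(5,4),(2,3),(3,2)]⟩,⟨0,[(1,0),(28,0)]⟩⟩,[]⟩) (.I [0,0,0,0,1,0,0,0,
  -1] (.I [2,0,-1,1] (.I [0,0,1,0,0,1,1] (.C [(0,0),(2,0),(2,1),(3,1),(0,0),(6,0),(10,0),(2,2),(0,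
  0)]) (.C [(0,0),(10,0),(7,0)])) (.C [(0,1),(5,0),(0,0),(20,0)])) (.C [(0,0),(9,0),(2,0)]))) (.Q
  [0,0,0,0,0,0,1,1,0,0,1] (.p true [0,0,1] [] (⟨0,[(18,0)]⟩,⟨0,[(17,0)]⟩) .k 0 (⟨0,[]⟩,⟨0,[]⟩) .k
  .k) (.R ⟨2,true,false,true,[0,1],[0,0,1],[1,0,1],(⟨0,[]⟩,⟨0,[]⟩),(⟨0,[(19,0)]⟩,⟨0,[(18,0)]⟩),⟨0,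
  []⟩,.k,.k,.k,.k,.k,.k,⟨false,1,⟨1,[(1,1),(2,0),(0,0),(10,1),(16,0)]⟩,⟨1,[(0,0),(1,0),(1,0),(8,0),
  (16,0)]⟩⟩,⟨true,0,⟨0,[(16,0)]⟩,⟨0,[(1,0),(0,0),(1,0),(24,0)]⟩⟩,⟨false,1,⟨0,[(30,0),(2,0)]⟩,⟨0,
  [(31,0)]⟩⟩,⟨true,0,⟨0,[(0,0),(29,0)]⟩,⟨0,[(1,0),(3,0)]⟩⟩,⟨true,0,⟨0,[]⟩,⟨0,[(35,0)]⟩⟩,⟨false,0,⟨0,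
  [(0,0)]⟩,⟨0,[(15,0),(17,0)]⟩⟩,[]⟩) (.I [0,0,0,0,1,0,0,0,-1] (.I [0,0,1,0,0,0,0,-1] (.C [(0,0),(3,
  0),(0,1),(3,1),(0,1),(17,0),(2,1),(0,0)]) (.C [(0,0),(1,0),(15,0)])) (.C [(0,0),(9,0),(2,0)]))))
  (.Q [0,1,0,0,0,0,2,1,0,0,2] (.p true [0,0,1] [0,1,-1] (⟨0,[(17,0)]⟩,⟨0,[(16,0)]⟩) .k 2 (⟨0,[(6,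
  0)]⟩,⟨0,[(17,0),(2,0)]⟩) .k (.x (-1) ⟨0,[(1,0),(4,1),(7,1)]⟩ ⟨1,[(1,1),(1,2),(0,0),(0,3),(5,1),
  (12,1),(2,5),(0,5)]⟩)) (.Q [0,0,0,1,0,0,0,-1,0,-1] (.pp true [-1,1]) (.R ⟨0,false,false,false,[0,
  0,1],[1,-1,1],[1,0,1],(⟨0,[(19,0)]⟩,⟨0,[(18,0)]⟩),(⟨0,[(19,0),(2,0)]⟩,⟨0,[(8,0)]⟩),⟨0,[(8,0)]⟩,.k,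
  .k,.k,.k,.k,.k,⟨true,(-1),⟨0,[(0,0),(4,0),(20,0),(2,1),(0,1)]⟩,⟨0,[(4,0),(8,0),(0,0),(14,1),(0,
  0)]⟩⟩,⟨false,0,⟨2,[(9,0),(0,0),(9,0),(1,0),(3,0)]⟩,⟨1,[(21,0),(10,0)]⟩⟩,⟨false,0,⟨6,[(0,3),(1,1),
  (12,0),(0,0),(9,1),(2,7),(0,1)]⟩,⟨1,[(4,0),(1,0),(7,1),(18,0)]⟩⟩,⟨true,0,⟨1,[(26,0),(3,1),(2,0)]⟩,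
  ⟨0,[(5,0),(24,0)]⟩⟩,⟨false,0,⟨0,[]⟩,⟨0,[]⟩⟩,⟨false,0,⟨0,[]⟩,⟨0,[]⟩⟩,[.e ⟨false,0,⟨0,[]⟩,⟨1,[(9,0),
  (0,0),(21,0)]⟩⟩ ⟨false,1,⟨0,[(13,0),(0,0),(15,0),(2,0)]⟩,⟨0,[(0,0)]⟩⟩,.o ⟨false,1,⟨1,[(4,1),(9,1),
  (11,0),(2,3),(0,1),(2,0)]⟩,⟨1,[(0,1),(4,0),(0,0),(23,1)]⟩⟩,.e ⟨false,0,⟨0,[(29,0)]⟩,⟨1,[(9,0),(0,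
  0),(21,0)]⟩⟩ ⟨false,1,⟨0,[(13,0),(0,0),(14,0),(0,0),(2,0)]⟩,⟨0,[(0,0)]⟩⟩,.a ⟨true,0,⟨0,[(16,0)]⟩,
  ⟨0,[(13,0)]⟩⟩ ⟨true,0,⟨0,[]⟩,⟨0,[(35,0)]⟩⟩ ⟨false,1,⟨1,[(4,1),(8,1),(0,1),(11,0),(2,3),(0,1),(2,
  0)]⟩,⟨1,[(0,1),(15,0),(0,0)]⟩⟩]⟩) (.Q [0,0,0,0,0,0,1,0,0,0,1] (.p true [0,0,1] [] (⟨0,[(19,0)]⟩,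
  ⟨0,[(18,0)]⟩) .k 0 (⟨0,[]⟩,⟨0,[]⟩) .k .k) (.I [0,0,2,2,-1,0,0,-1] (.R ⟨0,false,false,true,[0,0,1],
  [1,-1],[1],(⟨0,[(21,0)]⟩,⟨0,[(20,0)]⟩),(⟨0,[(24,0)]⟩,⟨0,[(25,0)]⟩),⟨0,[(10,0)]⟩,.k,.k,.k,.k,.k,.k,
  ⟨true,0,⟨2,[(0,0),(1,0),(4,0),(23,0),(3,0)]⟩,⟨0,[(32,0)]⟩⟩,⟨false,0,⟨5,[(8,2),(2,0),(0,0),(9,0),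
  (1,0),(3,0)]⟩,⟨3,[(3,1),(0,1),(1,0),(0,0),(15,0)]⟩⟩,⟨true,0,⟨0,[(0,0),(5,1),(21,0),(2,1),(0,1)]⟩,
  ⟨0,[(2,0),(4,0),(24,0)]⟩⟩,⟨false,0,⟨2,[(0,1),(5,4),(8,1),(1,0),(10,2),(2,7),(0,6)]⟩,⟨3,[(2,1),(0,
  1),(2,0),(0,2),(15,0),(7,1),(3,1)]⟩⟩,⟨false,0,⟨0,[]⟩,⟨0,[]⟩⟩,⟨false,0,⟨0,[]⟩,⟨0,[]⟩⟩,[.o ⟨false,0,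
  ⟨0,[(32,0)]⟩,⟨3,[(7,1),(3,0),(0,0),(10,0),(11,1)]⟩⟩,.a ⟨true,0,⟨2,[(2,0),(1,0),(23,0),(3,0),(3,
  0)]⟩,⟨0,[(33,0)]⟩⟩ ⟨false,1,⟨1,[(34,0),(0,0)]⟩,⟨0,[(37,0)]⟩⟩ ⟨true,0,⟨0,[(15,0),(15,0),(0,0)]⟩,⟨0,
  [(1,0),(5,0),(23,0),(0,0)]⟩⟩,.a ⟨true,0,⟨0,[(1,0)]⟩,⟨5,[(8,2),(2,0),(0,0),(9,0),(1,0),(3,0)]⟩⟩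
  ⟨true,0,⟨0,[]⟩,⟨0,[(37,0)]⟩⟩ ⟨false,0,⟨0,[(15,0),(15,0),(0,0)]⟩,⟨5,[(3,1),(0,1),(2,3),(10,1),(4,
  0),(11,2)]⟩⟩,.a ⟨true,0,⟨0,[(18,0)]⟩,⟨0,[(15,0)]⟩⟩ ⟨false,1,⟨1,[(34,0),(0,0)]⟩,⟨1,[(18,0),(0,
  0)]⟩⟩ ⟨true,0,⟨0,[(15,0),(16,0)]⟩,⟨0,[(1,0),(5,0),(23,0),(0,0)]⟩⟩]⟩) (.Q [0,0,0,0,0,0,1,1,0,0,1]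
  (.p true [0,0,1] [] (⟨0,[(21,0)]⟩,⟨0,[(20,0)]⟩) .k 0 (⟨0,[]⟩,⟨0,[]⟩) .k .k) (.R ⟨0,false,false,
  false,[0,1,-1],[0,1],[1],(⟨0,[(11,0)]⟩,⟨0,[(22,0),(2,0)]⟩),(⟨0,[(26,0)]⟩,⟨0,[(25,0)]⟩),⟨0,[(22,
  0)]⟩,.k,.k,.k,.k,.k,.k,⟨false,1,⟨11,[(1,3),(3,3),(1,1),(21,0),(1,1),(3,2)]⟩,⟨1,[(8,0),(0,0),(9,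
  1)]⟩⟩,⟨true,0,⟨0,[(2,0)]⟩,⟨0,[(20,0)]⟩⟩,⟨false,1,⟨2,[(1,1),(1,0),(4,0),(23,0),(3,0)]⟩,⟨5,[(2,0),
  (2,1),(2,3),(9,3),(0,2),(9,1),(2,1),(4,2)]⟩⟩,⟨true,0,⟨0,[(0,0)]⟩,⟨0,[(18,0)]⟩⟩,⟨false,0,⟨0,[]⟩,⟨0,
  []⟩⟩,⟨false,0,⟨0,[]⟩,⟨0,[]⟩⟩,[.a ⟨true,0,⟨0,[(34,0)]⟩,⟨2,[(3,0),(1,0),(23,0),(3,0),(3,0)]⟩⟩ ⟨true,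
  0,⟨0,[]⟩,⟨1,[(19,0),(0,0)]⟩⟩ ⟨false,0,⟨5,[(2,2),(1,0),(0,0),(2,1),(10,0),(9,0),(4,2)]⟩,⟨4,[(1,1),
  (3,0),(3,1),(2,0),(0,0),(4,0),(5,0)]⟩⟩,.o ⟨false,1,⟨3,[(8,1),(3,0),(0,0),(10,0),(11,1)]⟩,⟨0,[(33,
  0)]⟩⟩,.o ⟨false,1,⟨1,[(7,0),(1,0),(14,0)]⟩,⟨0,[(19,0)]⟩⟩,.o ⟨false,1,⟨3,[(9,1),(2,0),(0,0),(10,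
  2)]⟩,⟨0,[(2,0)]⟩⟩]⟩) (.I [0,0,0,0,0,0,0,-1] (.C [(0,0),(1,0),(6,1),(20,0),(2,1),(0,1)]) (.C [(0,
  0),(0,0),(1,0)])))) (.Q [0,-1,0,1,0,0,-1,-1,0,0,-1] (.p false [0,0,1] [] (⟨0,[(20,0)]⟩,⟨0,[(19,
  0)]⟩) .k 0 (⟨0,[]⟩,⟨0,[]⟩) .k .k) (.R ⟨2,true,false,true,[0,1],[0,0,1],[0,1,1,1],(⟨0,[]⟩,⟨0,[]⟩),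
  (⟨0,[(21,0)]⟩,⟨0,[(20,0)]⟩),⟨0,[]⟩,.k,.k,.k,.k,.k,.k,⟨false,0,⟨0,[(0,1),(2,0),(28,0)]⟩,⟨1,[(2,1),
  (20,0),(10,0)]⟩⟩,⟨true,0,⟨0,[(18,0)]⟩,⟨0,[(1,0)]⟩⟩,⟨true,0,⟨0,[(37,0)]⟩,⟨0,[]⟩⟩,⟨false,1,⟨3,[(2,
  1),(0,1),(7,0),(0,0),(10,0),(8,1),(2,1)]⟩,⟨0,[(0,0)]⟩⟩,⟨false,0,⟨0,[(33,0)]⟩,⟨0,[(32,0),(2,0)]⟩⟩,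
  ⟨true,0,⟨0,[(16,0)]⟩,⟨0,[(0,0),(31,0)]⟩⟩,[]⟩) (.Q [0,0,0,1,0,0,-1,-1,0,0,-1] (.p false [0,0,1] []
  (⟨0,[(21,0)]⟩,⟨0,[(20,0)]⟩) .k 0 (⟨0,[]⟩,⟨0,[]⟩) .k .k) (.R ⟨0,false,false,true,[1,0,-1],[1,-1],
  [0,1,1],(⟨0,[(21,0)]⟩,⟨0,[(22,0)]⟩),(⟨0,[(25,0)]⟩,⟨0,[(26,0)]⟩),⟨0,[(10,0)]⟩,.k,.k,.k,.k,.k,.k,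
  ⟨false,0,⟨1,[(8,0),(0,0),(9,1)]⟩,⟨6,[(3,2),(1,2),(1,4),(21,0),(1,0),(1,0)]⟩⟩,⟨true,0,⟨0,[(19,0)]⟩,
  ⟨0,[(2,0)]⟩⟩,⟨false,0,⟨1,[(1,0),(1,0),(4,0),(11,0),(11,0)]⟩,⟨7,[(0,1),(4,5),(2,1),(10,1),(9,0),(5,
  1),(0,0)]⟩⟩,⟨true,0,⟨0,[(1,0)]⟩,⟨0,[(0,0)]⟩⟩,⟨false,0,⟨0,[]⟩,⟨0,[]⟩⟩,⟨false,0,⟨0,[]⟩,⟨0,[]⟩⟩,[.o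
  ⟨false,0,⟨0,[(33,0)]⟩,⟨3,[(8,1),(3,0),(0,0),(10,0),(11,1)]⟩⟩,.a ⟨true,0,⟨2,[(3,0),(1,0),(23,0),(3,
  0),(3,0)]⟩,⟨0,[(34,0)]⟩⟩ ⟨true,0,⟨1,[(19,0),(0,0)]⟩,⟨0,[]⟩⟩ ⟨false,1,⟨5,[(1,1),(2,1),(0,3),(6,0),
  (0,0),(21,0)]⟩,⟨1,[(8,0),(0,0)]⟩⟩,.o ⟨false,0,⟨0,[(2,0)]⟩,⟨1,[(19,1),(4,0),(10,0)]⟩⟩,.o ⟨false,0,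
  ⟨0,[(20,0)]⟩,⟨3,[(4,1),(0,1),(1,0),(0,0),(15,0)]⟩⟩]⟩) (.I [0,0,0,0,1,0,0,0,-1] (.I [0,0,0,-1,0,0,
  0,1] (.C [(0,0),(6,0),(2,1),(20,0),(2,0),(0,1)]) (.C [(0,0),(1,0),(1,0)])) (.C [(0,0),(12,0),(2,
  0)])))))) (.Q [0,-1,0,1,0,0,-1,-1,0,0,-1] (.p false [0,0,1] [] (⟨0,[(18,0)]⟩,⟨0,[(17,0)]⟩) .k 0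
  (⟨0,[]⟩,⟨0,[]⟩) .k .k) (.R ⟨2,true,false,false,[0,1],[0,1,-1],[1,1],(⟨0,[]⟩,⟨0,[]⟩),(⟨0,[(8,0)]⟩,
  ⟨0,[(19,0),(2,0)]⟩),⟨0,[]⟩,.k,.k,.k,.k,.k,.k,⟨false,1,⟨0,[(4,0),(8,0),(0,0),(14,0),(0,0)]⟩,⟨0,[(0,
  0),(15,0)]⟩⟩,⟨true,0,⟨0,[(1,0),(12,0)]⟩,⟨0,[(16,0)]⟩⟩,⟨false,1,⟨1,[(30,1),(1,0),(0,0)]⟩,⟨9,[(5,4),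
  (0,0),(9,1),(9,1),(2,5),(3,1),(0,1)]⟩⟩,⟨true,0,⟨0,[(0,0),(29,0)]⟩,⟨0,[(14,0)]⟩⟩,⟨true,0,⟨1,[(4,0),
  (0,0),(20,0),(3,1)]⟩,⟨1,[(16,0),(0,0)]⟩⟩,⟨false,0,⟨0,[(0,0)]⟩,⟨0,[(14,0),(15,0),(2,0)]⟩⟩,[]⟩) (.I
  [0,0,0,0,1,0,0,0,-1] (.I [2,0,-1,1] (.I [0,0,0,2,0,0,0,0,1] (.I [0,0,1,0,0,1,1] (.I [0,1,0,-2,0,0,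
  0,1] (.I [0,-1,2,0,0,0,0,-1] (.I [3,0,0,4,-1] (.C [(0,0),(0,0),(0,1),(0,1),(4,0),(1,1),(3,1),(18,
  0)]) (.C [(0,0),(11,1),(20,0)])) (.C [(0,0),(6,0),(14,1)])) (.C [(0,0),(4,1),(0,0)])) (.C [(0,0),
  (11,0),(7,0)])) (.C [(0,0),(7,0),(4,0),(0,0)])) (.C [(0,1),(5,0),(0,0),(20,0)])) (.C [(0,0),(9,0),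
  (2,0)])))))))

theorem ok1 : chk K t1 r0 = true := by decide +kernel

noncomputable def t2 : Tre :=
  .Q [0,0,0,-2,0,0,0,0,0,1] (.pp false [-1,1]) t0 t1

theorem ok2 : chk K t2 base = true :=
  chk_Q (e' := [0,0,0,2,0,0,0,0,0,-1]) (by decide +kernel) (by decide +kernel) ok0 ok1

theorem closed {p a b c J l q : ℤ} {D dl : ℝ} {Cl : ℤ → ℤ → ℤ → ℤ → ℝ → Prop}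
    (W : World p a b c J 1 l q D dl Cl) (g : G0 p a b c J D)
    {N X R : ℤ} {I : ℝ} (hk : KCl p l Cl N X R I) (kz : KF a b D (X + (1 : ℤ) * I) (X + (1 : ℤ) * I + R) I)
    {Ne Xe : ℤ} {Ie : ℝ} (he : EFac p 1 D Cl 1 Ne Xe Ie)
    (hkf : ∀ kf ∈ (kfY 1 [0,0,0,0,0,0,1,0,0,0,1]), KOk p l Cl 1
      (xv [1, a, b, c, p, J, X, R, Xe] [D, I, Ie]) N kf)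
    (h0 : 1 ≤ (c : ℝ))
    (h1 : 1 ≤ 1 - (a : ℝ) + (b : ℝ))
    (h2 : 1 ≤ 2 * (a : ℝ) - (b : ℝ))
    (h3 : 0 < -1 + (p : ℝ) - 2 * D)
    (h4 : 0 < 3 - (p : ℝ) + 2 * D)
    (h5 : 0 < 1 + 3 * (J : ℝ) - D)
    (h6 : 1 ≤ 2 * (a : ℝ) - (b : ℝ))
    (h7 : 1 ≤ -2 + (J : ℝ))
    (h8 : 0 < -(b : ℝ) - (X : ℝ) + D - I)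
    (h9 : 0 < (J : ℝ) - I)
    (h10 : 0 < (J : ℝ) - D + I)
    (h11 : 0 < -2 * (X : ℝ) + D - 2 * I) : False := by
  have g1 := g.a2
  have g2 := g.b2
  have g3 := g.pa
  have g4 := g.pb
  have g5 := g.J1
  have g6 := g.JD
  have g7 := g.D2
  have g8 := g.ca
  have g9 := g.ca'
  have k1 := kz.I0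
  have k2 := kz.ID
  have k3 := kz.z1
  have k4 := kz.z2
  have k5 := kz.s1
  have k6 := kz.s2
  have e1 := he.I0
  have e2 := he.ID
  have e3 := he.x0
  have e4 := he.xp
  push_cast at *
  refine (val_E W.toBase hk he (row := [1]) (by simp) (by simp) (kfY 1 [0,0,0,0,0,0,1,0,0,0,1])).sound W rfl (Nk := N)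
    (fun kf _ _ => ⟨_, rfl⟩) hkf ?_ ok2
  · simp only [base, List.forall_mem_cons, List.not_mem_nil, false_imp_iff, implies_true,
      and_true, hld, xv, evg_cons, evg_nil, List.map_cons, List.map_nil, List.cons_append,
      List.nil_append, if_true, if_false, Bool.false_eq_true]
    push_cast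
    refine ⟨?_, ?_, ?_, ?_, ?_, ?_, ?_, ?_, ?_, ?_, ?_, ?_, ?_, ?_, ?_, ?_, ?_, ?_, ?_, ?_, ?_, ?_, ?_, ?_, ?_, ?_, ?_, ?_, ?_, ?_⟩ <;> linarith

end Helper48.Y.Y11_c35_P3_m0n0

namespace Helper48.Y.Y11_c35_P4_m1n0

open Helper25.KG Helper25.KW Helper55.KE Helper11.CT

noncomputable def K : Cls :=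
  cE 1 [1] (kfY 1 [0,0,0,0,0,0,1,0,0,0,1])

noncomputable def base : List Con :=
  [(false,[0,0,0,0,0,0,-2,0,0,1,-2]),
  (false,[0,0,0,0,0,1,0,0,0,-1,1]),
  (false,[0,0,0,0,0,-1,0,0,0,0,1]),
  (false,[0,0,0,0,1,0,0,0,-1,0,0,-1]),
  (false,[0,0,0,0,0,0,0,0,1,0,0,1]),
  (false,[0,0,0,0,0,0,0,0,0,1,0,-1]),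
  (false,[0,0,0,0,0,0,0,0,0,0,0,1]),
  (false,[0,0,-1,0,0,0,-1,0,0,1,-1]),
  (false,[0,1,0,0,0,0,1,1,0,0,1]),
  (false,[0,1,0,0,0,0,-1,-1,0,0,-1]),
  (false,[0,0,1,0,0,0,1,0,0,0,1]),
  (false,[0,0,1,0,0,0,-1,0,0,0,-1]),
  (false,[0,0,0,0,0,0,0,0,0,1,-1]),
  (false,[0,0,0,0,0,0,0,0,0,0,1]),
  (true,[-2,0,0,0,0,1]),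
  (false,[0,0,0,0,1,0,0,0,0,-2]),
  (false,[0,0,0,0,0,-1,0,0,0,1]),
  (true,[0,0,0,0,0,1]),
  (true,[0,2,-1]),
  (false,[-3,0,0,0,1,0,0,0,0,-2]),
  (true,[0,2,-1]),
  (true,[1,-1,1]),
  (true,[0,1,0,-1]),
  (true,[0,0,0,1]),
  (true,[0,0,-2,0,1]),
  (true,[0,-2,0,0,1]),
  (true,[-1,0,1]),
  (true,[-1,1])]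

noncomputable def l0 : List Con := (false, [0,0,0,0,0,0,-1,-1,0,0,-1]) :: base

noncomputable def r0 : List Con := (false, [0,0,0,0,0,0,1,1,0,0,1]) :: base

noncomputable def l1 : List Con := (false, [0,0,0,1,0,0,-1,-1,0,0,-1]) :: r0

noncomputable def r1 : List Con := (false, [0,0,0,-1,0,0,1,1,0,0,1]) :: r0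

noncomputable def l2 : List Con := (false, [0,0,0,0,0,0,-1,-1,0,1,-1]) :: r1

noncomputable def r2 : List Con := (false, [0,0,0,0,0,0,1,1,0,-1,1]) :: r1

noncomputable def l3 : List Con := (true, [0,0,-1,-1,1,0,0,-1]) :: l2

noncomputable def r3 : List Con := (true, [1,0,1,1,-1,0,0,1]) :: l2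

noncomputable def t0 : Tre :=
  (.Q [0,0,0,0,0,0,-1,0,0,0,-1] (.p false [0,0,1] [] (⟨0,[(14,0)]⟩,⟨0,[(13,0)]⟩) .k 0 (⟨0,[]⟩,⟨0,
  []⟩) .k .k) (.I [1,-1,0,1,0,0,0,-1] (.R ⟨2,true,false,true,[0,1],[0,0,1],[1,1,1],(⟨0,[]⟩,⟨0,[]⟩),
  (⟨0,[(16,0)]⟩,⟨0,[(15,0)]⟩),⟨0,[]⟩,.k,.k,.k,.k,.k,.k,⟨false,0,⟨0,[(0,0),(24,0)]⟩,⟨1,[(10,1),(0,1),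
  (6,0),(9,0)]⟩⟩,⟨true,0,⟨0,[(13,0)]⟩,⟨0,[(1,0)]⟩⟩,⟨true,0,⟨0,[(25,0)]⟩,⟨0,[(26,0)]⟩⟩,⟨false,1,⟨0,
  [(11,0),(13,0),(2,0)]⟩,⟨0,[(0,0),(0,0)]⟩⟩,⟨false,0,⟨0,[]⟩,⟨1,[(6,0),(0,0),(20,0)]⟩⟩,⟨true,0,⟨0,
  [(11,0)]⟩,⟨0,[(2,0)]⟩⟩,[]⟩) (.I [0,0,0,1,0,0,0,-1] (.Q [0,-1,0,1,0,0,-1,-1,0,0,-1] (.p false [0,0,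
  1] [] (⟨0,[(17,0)]⟩,⟨0,[(16,0)]⟩) .k 0 (⟨0,[]⟩,⟨0,[]⟩) .k .k) (.R ⟨2,true,false,true,[0,1],[0,0,
  1],[0,1,1,1],(⟨0,[]⟩,⟨0,[]⟩),(⟨0,[(18,0)]⟩,⟨0,[(17,0)]⟩),⟨0,[]⟩,.k,.k,.k,.k,.k,.k,⟨false,0,⟨0,[(1,
  0)]⟩,⟨1,[(2,1),(26,0),(0,0)]⟩⟩,⟨true,0,⟨0,[(15,0)]⟩,⟨0,[(3,0)]⟩⟩,⟨true,0,⟨0,[(32,0)]⟩,⟨0,[]⟩⟩,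
  ⟨false,1,⟨0,[(13,0),(13,0),(2,0)]⟩,⟨0,[(0,0)]⟩⟩,⟨false,0,⟨0,[(28,0)]⟩,⟨0,[(27,0),(2,0)]⟩⟩,⟨true,0,
  ⟨0,[(13,0)]⟩,⟨0,[(4,0)]⟩⟩,[]⟩) (.I [1,-1,-1,-1,1,0,0,1] (.S ⟨1,0,[0,0,1,1,0,0,0,-1],[1,1,-1],[0,1,
  1,1,0,0,0,-1],(⟨0,[(18,0),(4,0)]⟩,⟨0,[(8,0)]⟩),⟨0,[(18,0)]⟩,.k,.k,⟨true,0,⟨0,[(33,0)]⟩,⟨0,[]⟩⟩,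
  ⟨false,1,⟨1,[(9,0),(0,0),(20,0)]⟩,⟨0,[]⟩⟩,⟨false,0,⟨0,[(29,0)]⟩,⟨0,[(28,0),(2,0)]⟩⟩,⟨true,0,⟨0,
  [(29,0)]⟩,⟨0,[(28,0)]⟩⟩,[.o ⟨false,0,⟨0,[(2,0),(1,0)]⟩,⟨1,[(1,1),(19,0),(9,0)]⟩⟩,.a ⟨true,0,⟨0,
  [(2,0),(10,0),(13,0)]⟩,⟨0,[(1,0)]⟩⟩ ⟨false,0,⟨0,[(2,0)]⟩,⟨3,[(0,1),(2,1),(5,0),(0,0),(19,0)]⟩⟩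
  ⟨true,0,⟨0,[(2,0),(24,0)]⟩,⟨0,[(3,0)]⟩⟩,.e ⟨false,0,⟨1,[(2,1),(13,0),(0,0)]⟩,⟨0,[(0,0)]⟩⟩ ⟨false,
  0,⟨0,[(2,0),(24,0)]⟩,⟨3,[(0,1),(2,1),(5,0),(0,0),(19,0)]⟩⟩,.o ⟨false,0,⟨0,[(4,0)]⟩,⟨1,[(16,1),(4,
  0),(8,0)]⟩⟩]⟩) (.Q [0,-1,0,2,0,0,-1,-1,0,0,-1] (.p false [0,0,1] [] (⟨0,[(19,0)]⟩,⟨0,[(18,0)]⟩)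
  .k 0 (⟨0,[]⟩,⟨0,[]⟩) .k .k) (.R ⟨1,true,false,false,[0,0,1],[0,1],[0,0,0,0,0,0,0,1],(⟨0,[(20,0)]⟩,
  ⟨0,[(19,0)]⟩),(⟨0,[(24,0)]⟩,⟨0,[(23,0)]⟩),⟨0,[(9,0)]⟩,.k,.k,.k,.k,(.r (-2) ⟨0,[(4,0),(24,0),(1,0),
  (0,0)]⟩ ⟨1,[(0,0),(0,1),(13,0),(12,1)]⟩),.k,⟨true,1,⟨1,[(4,1),(26,0),(0,0)]⟩,⟨0,[(1,0),(26,0)]⟩⟩,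
  ⟨false,1,⟨1,[(14,1),(7,0),(8,0)]⟩,⟨0,[(17,0)]⟩⟩,⟨false,1,⟨1,[(10,0),(0,0),(20,0)]⟩,⟨0,[]⟩⟩,⟨true,
  0,⟨1,[(0,0),(15,0)]⟩,⟨0,[(2,0)]⟩⟩,⟨true,0,⟨0,[(30,0)]⟩,⟨0,[(29,0)]⟩⟩,⟨false,0,⟨0,[(0,0)]⟩,⟨0,[(2,
  0),(26,0),(2,0)]⟩⟩,[]⟩) (.I [0,-1,-1,0,1,0,0,1] (.S ⟨1,0,[0,0,1,1,0,0,0,-1],[1,1,-1],[],(⟨0,[(20,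
  0),(4,0)]⟩,⟨0,[(10,0)]⟩),⟨0,[(20,0)]⟩,.k,.k,⟨true,1,⟨0,[(0,0),(29,0)]⟩,⟨0,[(2,0)]⟩⟩,⟨false,1,⟨1,
  [(11,0),(0,0),(20,0)]⟩,⟨0,[]⟩⟩,⟨false,1,⟨0,[(0,0)]⟩,⟨0,[(7,0),(10,0)]⟩⟩,⟨true,0,⟨0,[(31,0)]⟩,⟨0,
  [(30,0)]⟩⟩,[.o ⟨false,0,⟨0,[(4,0),(1,0)]⟩,⟨1,[(0,0),(0,0),(16,0),(4,0)]⟩⟩,.a ⟨true,0,⟨0,[(2,0),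
  (12,0),(17,0)]⟩,⟨0,[(3,0)]⟩⟩ ⟨false,1,⟨1,[(32,0),(0,0)]⟩,⟨0,[(35,0)]⟩⟩ ⟨true,0,⟨0,[(2,0),(30,0)]⟩,
  ⟨0,[(5,0)]⟩⟩,.e ⟨false,1,⟨1,[(11,0),(0,0),(20,0)]⟩,⟨0,[]⟩⟩ ⟨false,0,⟨0,[(2,0),(30,0)]⟩,⟨0,[(0,0),
  (29,0)]⟩⟩,.o ⟨false,0,⟨0,[(6,0)]⟩,⟨1,[(18,1),(4,0),(8,0)]⟩⟩]⟩) (.Q [0,0,-1,0,1,0,1,0,0,-1,1] (.p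
  true [0,0,1] [1] (⟨0,[(21,0)]⟩,⟨0,[(20,0)]⟩) .k 1 (⟨0,[]⟩,⟨0,[]⟩) .k .k) (.R ⟨0,false,false,true,
  [1,0,-1],[1,-1],[1,1,0,0,0,0,0,-1],(⟨0,[(21,0)]⟩,⟨0,[(22,0)]⟩),(⟨0,[(25,0)]⟩,⟨0,[(26,0)]⟩),⟨0,
  [(10,0)]⟩,.k,.k,.k,.k,.k,.k,⟨false,0,⟨0,[(5,0)]⟩,⟨1,[(6,1),(26,0),(0,0)]⟩⟩,⟨true,0,⟨0,[(19,0)]⟩,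
  ⟨0,[(7,0)]⟩⟩,⟨false,0,⟨0,[]⟩,⟨1,[(12,0),(0,0),(20,0)]⟩⟩,⟨true,0,⟨0,[(4,0)]⟩,⟨0,[(5,0),(1,0)]⟩⟩,
  ⟨false,0,⟨0,[]⟩,⟨0,[]⟩⟩,⟨false,0,⟨0,[]⟩,⟨0,[]⟩⟩,[.o ⟨false,0,⟨0,[(31,0)]⟩,⟨1,[(24,0),(7,1),(1,
  0)]⟩⟩,.a ⟨true,0,⟨1,[(1,0),(0,0),(13,1),(2,0),(14,0)]⟩,⟨0,[(32,0)]⟩⟩ ⟨true,0,⟨1,[(1,1),(31,0),(0,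
  0)]⟩,⟨0,[(6,0),(23,0),(1,0)]⟩⟩ ⟨false,1,⟨1,[(1,0),(0,0),(16,0),(13,1),(0,0)]⟩,⟨0,[(7,0),(24,0)]⟩⟩,
  .o ⟨false,0,⟨0,[(7,0)]⟩,⟨3,[(0,1),(11,0),(0,0),(5,1),(4,0)]⟩⟩,.o ⟨false,0,⟨0,[(20,0)]⟩,⟨0,[(0,
  0)]⟩⟩]⟩) (.Q [0,0,1,-1,-1,0,-1,0,0,1,-1] (.p false [0,0,1] [1] (⟨0,[(22,0)]⟩,⟨0,[(21,0)]⟩) .k 1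
  (⟨0,[]⟩,⟨0,[]⟩) .k .k) (.R ⟨0,false,false,false,[1,0,-1],[0,1],[1,1,1],(⟨0,[(22,0)]⟩,⟨0,[(23,
  0)]⟩),(⟨0,[(27,0)]⟩,⟨0,[(26,0)]⟩),⟨0,[(11,0)]⟩,.k,.k,.k,.k,.k,.k,⟨true,0,⟨0,[(32,0)]⟩,⟨0,[(31,0),
  (1,0)]⟩⟩,⟨false,2,⟨1,[(20,1),(4,0),(8,2)]⟩,⟨0,[(1,0)]⟩⟩,⟨false,0,⟨0,[(7,0),(23,0),(1,0)]⟩,⟨0,[(2,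
  0),(31,0),(0,0)]⟩⟩,⟨true,1,⟨1,[(18,1),(6,0),(7,1),(1,0)]⟩,⟨0,[(0,0),(1,0),(31,0)]⟩⟩,⟨false,0,⟨0,
  []⟩,⟨0,[]⟩⟩,⟨false,0,⟨0,[]⟩,⟨0,[]⟩⟩,[.a ⟨true,0,⟨0,[(33,0)]⟩,⟨1,[(2,0),(0,0),(13,1),(2,0),(14,
  0)]⟩⟩ ⟨false,0,⟨0,[(37,0)]⟩,⟨1,[(34,0),(0,0)]⟩⟩ ⟨true,1,⟨1,[(20,1),(4,0),(7,1),(0,0)]⟩,⟨0,[(0,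
  0)]⟩⟩,.o ⟨false,1,⟨1,[(25,0),(7,1),(1,0)]⟩,⟨0,[(32,0)]⟩⟩,.o ⟨false,0,⟨0,[(8,0)]⟩,⟨1,[(20,1),(4,0),
  (8,0)]⟩⟩,.e ⟨false,0,⟨0,[]⟩,⟨1,[(13,0),(0,0),(20,0)]⟩⟩ ⟨false,2,⟨1,[(20,1),(4,0),(7,1),(0,1),(0,
  0)]⟩,⟨0,[(0,0)]⟩⟩]⟩) (.Q [0,1,0,-1,-1,0,-1,-1,0,1,-1] (.p false [0,0,1] [1] (⟨0,[(23,0)]⟩,⟨0,[(22,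
  0)]⟩) .k 1 (⟨0,[]⟩,⟨0,[]⟩) .k .k) (.R ⟨0,false,false,false,[1,0,-1],[0,1],[1,1,1],(⟨0,[(23,0)]⟩,
  ⟨0,[(24,0)]⟩),(⟨0,[(28,0)]⟩,⟨0,[(27,0)]⟩),⟨0,[(12,0)]⟩,.k,.k,.k,.k,.k,.k,⟨true,0,⟨0,[(33,0)]⟩,⟨0,
  [(32,0),(1,0)]⟩⟩,⟨false,2,⟨1,[(1,1),(31,1),(1,0),(0,0)]⟩,⟨0,[(2,0)]⟩⟩,⟨false,0,⟨0,[(8,0),(23,0),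
  (1,0)]⟩,⟨0,[(3,0),(31,0),(0,0)]⟩⟩,⟨true,1,⟨1,[(19,1),(6,0),(7,1),(1,0)]⟩,⟨0,[(0,0)]⟩⟩,⟨false,0,⟨0,
  []⟩,⟨0,[]⟩⟩,⟨false,0,⟨0,[]⟩,⟨0,[]⟩⟩,[.e ⟨false,0,⟨0,[(38,0)]⟩,⟨1,[(35,0),(0,0)]⟩⟩ ⟨false,1,⟨0,[(1,
  0)]⟩,⟨5,[(0,1),(3,1),(6,2),(6,0),(2,0),(14,1)]⟩⟩,.o ⟨false,1,⟨1,[(26,0),(7,1),(1,0)]⟩,⟨0,[(33,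
  0)]⟩⟩,.o ⟨false,0,⟨0,[(9,0)]⟩,⟨3,[(1,1),(19,1),(4,0),(6,1),(2,0)]⟩⟩,.a ⟨true,(-1),⟨0,[(2,0)]⟩,⟨0,
  [(21,0),(13,0)]⟩⟩ ⟨false,0,⟨0,[]⟩,⟨1,[(14,0),(0,0),(20,0)]⟩⟩ ⟨true,1,⟨0,[(1,0)]⟩,⟨1,[(2,0),(0,0),
  (0,0),(6,0)]⟩⟩]⟩) (.I [0,0,0,1,0,0,0,1] (.R ⟨2,true,false,true,[0,1],[1,0,-1],[0,1,1,1],(⟨0,[]⟩,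
  ⟨0,[]⟩),(⟨0,[(24,0)]⟩,⟨0,[(25,0)]⟩),⟨0,[]⟩,.k,.k,.k,.k,.k,.k,⟨false,0,⟨0,[(0,0)]⟩,⟨0,[(4,0),(29,
  0),(1,0),(0,0)]⟩⟩,⟨true,(-1),⟨0,[(3,0)]⟩,⟨3,[(2,1),(19,1),(4,0),(6,1),(2,0)]⟩⟩,⟨true,0,⟨0,[(39,
  0)]⟩,⟨0,[]⟩⟩,⟨false,0,⟨0,[(4,0),(14,0),(14,0),(2,0)]⟩,⟨0,[(1,0)]⟩⟩,⟨false,0,⟨0,[(35,0)]⟩,⟨0,[(34,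
  0),(2,0)]⟩⟩,⟨true,(-1),⟨0,[(4,0),(14,0)]⟩,⟨3,[(1,1),(5,1),(7,0),(0,0),(10,0)]⟩⟩,[]⟩) (.R ⟨1,false,
  false,true,[0,0,1],[1,-1],[1,1],(⟨0,[(25,0)]⟩,⟨0,[(24,0)]⟩),(⟨0,[(28,0)]⟩,⟨0,[(29,0)]⟩),⟨0,[(14,
  0)]⟩,.k,.k,.k,.k,.k,.k,⟨false,0,⟨0,[(35,0)]⟩,⟨1,[(34,1),(1,0),(0,0)]⟩⟩,⟨true,(-1),⟨0,[(3,0)]⟩,⟨3,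
  [(2,1),(19,1),(4,0),(6,1),(2,0)]⟩⟩,⟨false,0,⟨1,[(0,0),(7,0)]⟩,⟨2,[(1,0),(7,0),(2,0),(7,0),(16,
  1)]⟩⟩,⟨false,0,⟨1,[(0,1),(11,0),(6,0),(2,0)]⟩,⟨0,[(1,0)]⟩⟩,⟨false,0,⟨0,[(8,0)]⟩,⟨0,[(9,0),(27,
  0)]⟩⟩,⟨true,(-1),⟨0,[(4,0),(14,0)]⟩,⟨3,[(1,1),(5,1),(7,0),(0,0),(10,0)]⟩⟩,[.o ⟨false,0,⟨0,[(34,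
  0)]⟩,⟨1,[(27,0),(7,1),(1,0)]⟩⟩,.e ⟨true,0,⟨0,[]⟩,⟨1,[(22,0),(0,0)]⟩⟩ ⟨true,0,⟨5,[(0,1),(2,0),(1,
  1),(6,2),(6,1),(2,0),(14,0)]⟩,⟨0,[(1,0),(2,0)]⟩⟩,.o ⟨false,1,⟨3,[(2,1),(19,1),(4,0),(6,1),(2,0)]⟩,
  ⟨0,[(10,0)]⟩⟩,.a ⟨true,0,⟨0,[(22,0)]⟩,⟨0,[(19,0)]⟩⟩ ⟨false,1,⟨1,[(15,0),(0,0),(19,0)]⟩,⟨0,[(0,0),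
  (0,0),(1,0)]⟩⟩ ⟨true,0,⟨0,[(19,0),(14,0)]⟩,⟨0,[(1,0),(2,0)]⟩⟩]⟩))))))))) (.Q [0,-1,0,0,1,0,1,1,0,
  -1,1] (.p true [0,0,1] [1] (⟨0,[(17,0)]⟩,⟨0,[(16,0)]⟩) .k 1 (⟨0,[]⟩,⟨0,[]⟩) .k .k) (.I [0,1,-1,0,
  0,0,0,1] (.S ⟨1,0,[0,0,0,0,0,0,0,1],[0,0,1],[0,1,0,0,0,0,0,1],(⟨0,[(19,0)]⟩,⟨0,[(18,0)]⟩),⟨0,[(8,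
  0)]⟩,.k,.k,⟨true,0,⟨0,[(33,0)]⟩,⟨0,[]⟩⟩,⟨false,1,⟨1,[(9,0),(0,0),(20,0)]⟩,⟨0,[]⟩⟩,⟨false,0,⟨0,
  [(29,0)]⟩,⟨0,[(28,0),(2,0)]⟩⟩,⟨true,0,⟨0,[(29,0)]⟩,⟨0,[(28,0)]⟩⟩,[.o ⟨false,1,⟨3,[(1,1),(7,0),(0,
  0),(3,1),(6,0)]⟩,⟨0,[(5,0)]⟩⟩,.o ⟨false,1,⟨0,[(1,0)]⟩,⟨0,[(15,0)]⟩⟩,.o ⟨false,1,⟨1,[(16,1),(4,0),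
  (8,0)]⟩,⟨0,[(4,0)]⟩⟩,.a ⟨true,0,⟨0,[(16,0)]⟩,⟨0,[(13,0)]⟩⟩ ⟨true,0,⟨0,[(0,0)]⟩,⟨0,[(5,0),(10,
  0)]⟩⟩ ⟨false,1,⟨0,[(1,0),(11,0)]⟩,⟨0,[(5,0),(10,0)]⟩⟩]⟩) (.Q [0,1,1,1,-1,0,-1,0,0,0,-1] (.p false
  [0,0,1] [] (⟨0,[(19,0)]⟩,⟨0,[(18,0)]⟩) .k 0 (⟨0,[]⟩,⟨0,[]⟩) .k .k) (.Q [0,1,1,1,-2,0,-2,-1,0,2,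
  -2] (.p false [0,0,1] [2,-1,-1] (⟨0,[(20,0)]⟩,⟨0,[(19,0)]⟩) .k 2 (⟨0,[(19,0),(3,0)]⟩,⟨0,[(8,0)]⟩)
  .k (.r 0 ⟨0,[(3,1),(26,1)]⟩ ⟨0,[(1,0),(14,0),(0,0),(13,0)]⟩)) (.Q [0,-1,0,-1,0,0,-1,-1,0,1,-1]
  (.p false [0,0,1] [1] (⟨0,[(21,0)]⟩,⟨0,[(20,0)]⟩) .k 1 (⟨0,[]⟩,⟨0,[]⟩) .k .k) (.R ⟨0,false,false,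
  true,[-1,1,1],[0,0,1],[0,1,1,0,0,0,0,1],(⟨0,[(10,0)]⟩,⟨0,[(21,0),(3,0)]⟩),(⟨0,[(22,0)]⟩,⟨0,[(21,
  0)]⟩),⟨0,[(21,0)]⟩,.k,.k,.k,.k,.k,.k,⟨true,0,⟨1,[(19,0),(0,0)]⟩,⟨0,[]⟩⟩,⟨false,0,⟨0,[(16,0),(2,
  0)]⟩,⟨1,[(24,0),(8,0)]⟩⟩,⟨true,0,⟨0,[(31,0)]⟩,⟨0,[(32,0)]⟩⟩,⟨false,0,⟨0,[(0,0),(16,0)]⟩,⟨1,[(24,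
  0),(7,1),(1,0)]⟩⟩,⟨false,0,⟨0,[]⟩,⟨0,[]⟩⟩,⟨false,0,⟨0,[]⟩,⟨0,[]⟩⟩,[.a ⟨true,0,⟨0,[(17,0)]⟩,⟨2,[(0,
  0),(0,0),(1,0),(29,0),(0,0)]⟩⟩ ⟨false,0,⟨5,[(2,1),(1,0),(1,1),(2,0),(7,2),(15,0)]⟩,⟨0,[(3,0),(29,
  0)]⟩⟩ ⟨true,(-1),⟨1,[(1,0),(3,0),(11,1),(12,0)]⟩,⟨1,[(3,1),(20,0),(8,0)]⟩⟩,.o ⟨false,1,⟨3,[(4,1),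
  (7,0),(0,0),(3,1),(6,0)]⟩,⟨0,[(8,0)]⟩⟩,.o ⟨false,2,⟨0,[(19,0),(4,0),(8,0)]⟩,⟨1,[(1,0),(3,0),(24,
  0)]⟩⟩,.e ⟨false,0,⟨0,[(5,0),(26,0)]⟩,⟨1,[(3,0),(14,0),(0,0),(13,0),(0,0)]⟩⟩ ⟨false,0,⟨2,[(1,0),(3,
  0),(10,0),(0,2),(16,1)]⟩,⟨1,[(3,1),(20,0),(8,0)]⟩⟩]⟩) (.R ⟨2,true,false,false,[0,1],[1,0,-1],[1,0,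
  1],(⟨0,[]⟩,⟨0,[]⟩),(⟨0,[(21,0)]⟩,⟨0,[(22,0)]⟩),⟨0,[]⟩,.k,.k,.k,.k,.k,.k,⟨false,0,⟨3,[(0,0),(0,0),
  (2,1),(0,1),(10,0)]⟩,⟨1,[(3,0),(14,0),(0,0),(13,1)]⟩⟩,⟨true,(-1),⟨1,[(1,0),(3,0),(24,0)]⟩,⟨1,[(19,
  1),(4,0),(8,0)]⟩⟩,⟨false,1,⟨0,[(31,0),(2,0)]⟩,⟨0,[(32,0)]⟩⟩,⟨true,0,⟨0,[(3,0),(12,0),(14,0)]⟩,⟨0,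
  [(0,0)]⟩⟩,⟨true,0,⟨0,[]⟩,⟨0,[(36,0)]⟩⟩,⟨false,0,⟨0,[(3,0),(12,0)]⟩,⟨3,[(4,1),(7,0),(0,0),(3,1),(6,
  0)]⟩⟩,[]⟩)) (.Q [0,1,0,-1,0,0,1,1,0,0,1] (.p true [0,0,1] [] (⟨0,[(21,0)]⟩,⟨0,[(20,0)]⟩) .k 0 (⟨0,
  []⟩,⟨0,[]⟩) .k .k) (.R ⟨0,false,false,true,[1,0,-1],[1,-1],[1,1],(⟨0,[(21,0)]⟩,⟨0,[(22,0)]⟩),(⟨0,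
  [(25,0)]⟩,⟨0,[(26,0)]⟩),⟨0,[(10,0)]⟩,.k,.k,.k,.k,.k,.k,⟨false,0,⟨0,[(32,0)]⟩,⟨1,[(31,1),(1,0),(0,
  0)]⟩⟩,⟨true,0,⟨0,[(19,0)]⟩,⟨0,[(7,0)]⟩⟩,⟨false,0,⟨0,[(5,0),(26,0)]⟩,⟨1,[(3,0),(14,0),(0,0),(13,0),
  (0,0)]⟩⟩,⟨true,0,⟨0,[(0,0)]⟩,⟨0,[(8,0),(23,0)]⟩⟩,⟨false,0,⟨0,[]⟩,⟨0,[]⟩⟩,⟨false,0,⟨0,[]⟩,⟨0,[]⟩⟩,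
  [.o ⟨false,0,⟨0,[(31,0)]⟩,⟨1,[(24,0),(7,1),(1,0)]⟩⟩,.a ⟨true,0,⟨0,[(0,0),(2,0),(12,0)]⟩,⟨0,[(32,
  0)]⟩⟩ ⟨true,0,⟨0,[]⟩,⟨1,[(19,0),(0,0)]⟩⟩ ⟨false,1,⟨0,[(0,0),(2,0),(29,0)]⟩,⟨3,[(2,1),(13,1),(7,0),
  (7,1),(1,0)]⟩⟩,.o ⟨false,0,⟨0,[(7,0)]⟩,⟨1,[(1,0),(16,0),(0,0),(12,0)]⟩⟩,.e ⟨false,1,⟨1,[(12,0),(0,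
  0),(19,0)]⟩,⟨0,[(3,0),(1,0),(26,0)]⟩⟩ ⟨false,1,⟨0,[(0,0),(2,0),(29,0)]⟩,⟨0,[(2,0),(31,0)]⟩⟩]⟩)
  (.Q [0,0,1,0,-1,0,-1,0,0,1,-1] (.p false [0,0,1] [1] (⟨0,[(22,0)]⟩,⟨0,[(21,0)]⟩) .k 1 (⟨0,[]⟩,⟨0,
  []⟩) .k .k) (.Q [0,1,-1,0,1,0,2,1,0,-1,2] (.p true [0,0,1] [1,0,-1] (⟨0,[(23,0)]⟩,⟨0,[(22,0)]⟩)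
  .k 2 (⟨0,[(22,0)]⟩,⟨0,[(23,0)]⟩) .k (.r 0 ⟨0,[(6,1),(26,1)]⟩ ⟨0,[(4,0),(14,0),(0,0),(13,0)]⟩))
  (.R ⟨0,false,false,true,[1,0,-1],[0,0,1],[],(⟨0,[(23,0)]⟩,⟨0,[(24,0)]⟩),(⟨0,[(24,0)]⟩,⟨0,[(23,
  0)]⟩),⟨0,[(12,0)]⟩,.k,.k,.k,.k,.k,.k,⟨false,1,⟨0,[(5,0),(29,0)]⟩,⟨5,[(0,0),(3,1),(1,0),(1,1),(2,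
  0),(6,0),(0,1)]⟩⟩,⟨true,1,⟨0,[(0,0),(4,0)]⟩,⟨0,[(1,0),(7,0)]⟩⟩,⟨true,0,⟨0,[(7,0),(26,0)]⟩,⟨0,[(5,
  0),(25,0)]⟩⟩,⟨false,1,⟨0,[(6,0),(12,0)]⟩,⟨0,[(5,0),(4,0),(7,0)]⟩⟩,⟨false,0,⟨0,[]⟩,⟨0,[]⟩⟩,⟨false,
  0,⟨0,[]⟩,⟨0,[]⟩⟩,[.e ⟨false,1,⟨1,[(14,0),(0,0),(19,0)]⟩,⟨0,[]⟩⟩ ⟨false,1,⟨0,[(0,0)]⟩,⟨1,[(1,0),(8,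
  1),(7,0),(17,0)]⟩⟩,.o ⟨false,1,⟨1,[(0,0),(5,0),(15,0)]⟩,⟨0,[(10,0)]⟩⟩,.o ⟨false,0,⟨0,[(9,0)]⟩,⟨3,
  [(0,1),(4,0),(14,0),(0,0),(4,0),(9,0)]⟩⟩,.a ⟨true,(-1),⟨0,[(1,0)]⟩,⟨0,[(21,0),(13,0)]⟩⟩ ⟨false,1,
  ⟨1,[(35,0),(0,0)]⟩,⟨1,[(21,0),(0,0)]⟩⟩ ⟨true,1,⟨0,[(0,0)]⟩,⟨0,[(1,0),(8,0)]⟩⟩]⟩) (.Q [0,0,-1,-1,1,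
  0,1,0,0,0,1] (.p true [0,0,1] [] (⟨0,[(24,0)]⟩,⟨0,[(23,0)]⟩) .k 0 (⟨0,[]⟩,⟨0,[]⟩) .k .k) (.R ⟨0,
  false,false,false,[-1,1,1],[0,1],[0,1,1,0,0,0,0,1],(⟨0,[(13,0)]⟩,⟨0,[(24,0),(3,0)]⟩),(⟨0,[(29,
  0)]⟩,⟨0,[(28,0)]⟩),⟨0,[(24,0)]⟩,.k,.k,.k,.k,.k,.k,⟨true,0,⟨0,[(9,0)]⟩,⟨0,[(3,0),(18,0)]⟩⟩,⟨false,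
  0,⟨0,[(19,0)]⟩,⟨1,[(0,0),(21,0),(4,0),(7,0)]⟩⟩,⟨true,0,⟨0,[(34,0)]⟩,⟨0,[(35,0)]⟩⟩,⟨false,0,⟨0,[(6,
  0),(12,0)]⟩,⟨3,[(7,1),(7,0),(0,0),(3,1),(6,0)]⟩⟩,⟨false,0,⟨0,[]⟩,⟨0,[]⟩⟩,⟨false,0,⟨0,[]⟩,⟨0,[]⟩⟩,
  [.a ⟨true,0,⟨0,[(35,0)]⟩,⟨0,[(0,0),(1,0)]⟩⟩ ⟨false,0,⟨5,[(5,1),(1,0),(1,1),(2,0),(7,2),(15,0)]⟩,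
  ⟨0,[(0,0),(2,0)]⟩⟩ ⟨true,(-1),⟨0,[(2,0),(32,0)]⟩,⟨3,[(0,0),(3,0),(1,0),(15,0),(4,0),(6,1)]⟩⟩,.o
  ⟨false,1,⟨1,[(27,0),(7,1),(1,0)]⟩,⟨0,[(34,0)]⟩⟩,.o ⟨false,2,⟨0,[(0,0),(26,0),(7,0)]⟩,⟨0,[(2,0)]⟩⟩,
  .e ⟨false,0,⟨0,[(8,0),(26,0)]⟩,⟨1,[(0,0),(2,0),(17,0),(0,0),(14,0)]⟩⟩ ⟨false,0,⟨1,[(2,0),(16,0),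
  (15,1),(1,0)]⟩,⟨3,[(0,0),(3,0),(1,0),(15,0),(4,0),(6,1)]⟩⟩]⟩) (.I [1,1,-1,0,0,0,0,1] (.R ⟨0,false,
  false,true,[1,0,-1],[0,0,1],[0,1,1,0,0,0,0,1],(⟨0,[(25,0)]⟩,⟨0,[(26,0)]⟩),(⟨0,[(26,0)]⟩,⟨0,[(25,
  0)]⟩),⟨0,[(14,0)]⟩,.k,.k,.k,.k,.k,.k,⟨true,0,⟨1,[(23,0),(0,0)]⟩,⟨0,[]⟩⟩,⟨false,2,⟨1,[(5,0),(16,0),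
  (0,2),(12,0),(0,1)]⟩,⟨0,[(0,0),(1,0)]⟩⟩,⟨true,(-1),⟨0,[(1,0),(7,0),(11,0)]⟩,⟨0,[(7,1),(25,0),(3,
  0)]⟩⟩,⟨false,1,⟨0,[(8,0),(12,0)]⟩,⟨0,[(7,0),(4,0),(7,0)]⟩⟩,⟨false,0,⟨0,[]⟩,⟨0,[]⟩⟩,⟨false,0,⟨0,
  []⟩,⟨0,[]⟩⟩,[.a ⟨true,0,⟨0,[(21,0)]⟩,⟨0,[(7,0),(12,0)]⟩⟩ ⟨false,0,⟨11,[(0,1),(5,1),(1,0),(1,1),(2,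
  2),(7,6),(6,0)]⟩,⟨0,[(7,0),(29,0)]⟩⟩ ⟨true,1,⟨5,[(5,1),(10,0),(0,0),(3,3),(1,3),(4,0),(4,1),(2,
  1)]⟩,⟨0,[(2,0)]⟩⟩,.o ⟨false,1,⟨3,[(8,1),(7,0),(0,0),(3,1),(6,0)]⟩,⟨0,[(12,0)]⟩⟩,.o ⟨false,0,⟨0,
  [(11,0)]⟩,⟨1,[(5,0),(16,0),(0,0),(12,0)]⟩⟩,.e ⟨false,0,⟨1,[(0,0),(2,0),(4,0)]⟩,⟨1,[(7,0),(14,0),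
  (0,0),(13,0),(0,0)]⟩⟩ ⟨false,2,⟨1,[(5,0),(10,0),(0,0),(3,0),(1,0),(12,0),(0,0)]⟩,⟨0,[(2,0)]⟩⟩]⟩)
  (.Q [0,0,0,-1,0,0,0,0,0,1] (.pp false [-1,1]) (.R ⟨0,false,false,false,[1,0,-1],[1,-1],[1,0,0,-1],
  (⟨0,[(26,0)]⟩,⟨0,[(27,0)]⟩),(⟨0,[(30,0)]⟩,⟨0,[(31,0)]⟩),⟨0,[(15,0)]⟩,.k,.k,.k,.k,.k,.k,⟨false,0,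
  ⟨0,[]⟩,⟨1,[(17,0),(0,0),(19,0)]⟩⟩,⟨true,0,⟨0,[(24,0)]⟩,⟨0,[(12,0)]⟩⟩,⟨true,0,⟨0,[(10,0)]⟩,⟨0,[(1,
  0),(32,0),(2,0)]⟩⟩,⟨false,1,⟨0,[(0,0),(8,0)]⟩,⟨1,[(5,0),(17,0),(13,0)]⟩⟩,⟨false,0,⟨0,[]⟩,⟨0,[]⟩⟩,
  ⟨false,0,⟨0,[]⟩,⟨0,[]⟩⟩,[.a ⟨true,0,⟨0,[(0,0)]⟩,⟨0,[(37,0)]⟩⟩ ⟨false,1,⟨5,[(0,2),(5,1),(6,0),(0,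
  0),(8,0),(12,0),(1,1)]⟩,⟨0,[(37,0)]⟩⟩ ⟨true,1,⟨5,[(0,3),(5,1),(10,0),(0,0),(4,1),(0,3),(13,0)]⟩,
  ⟨0,[(2,0)]⟩⟩,.o ⟨false,1,⟨0,[(36,0),(2,0)]⟩,⟨1,[(1,0),(0,1),(3,0),(27,1),(2,0)]⟩⟩,.o ⟨false,0,⟨0,
  [(12,0)]⟩,⟨1,[(6,0),(16,0),(0,0),(12,0)]⟩⟩,.e ⟨false,1,⟨1,[(0,0),(2,0),(2,0),(31,0)]⟩,⟨1,[(24,0),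
  (0,0),(11,1)]⟩⟩ ⟨false,2,⟨5,[(0,3),(5,1),(10,0),(0,0),(4,1),(0,3),(13,3),(0,2)]⟩,⟨0,[(2,0)]⟩⟩]⟩)
  (.R ⟨2,true,false,false,[0,1],[1,0,-1],[1,0,1],(⟨0,[]⟩,⟨0,[]⟩),(⟨0,[(26,0)]⟩,⟨0,[(27,0)]⟩),⟨0,[]⟩,
  .k,.k,.k,.k,.k,.k,⟨false,0,⟨2,[(2,0),(6,0),(0,0),(10,0),(0,0)]⟩,⟨1,[(1,0),(21,0),(0,0),(13,1)]⟩⟩,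
  ⟨true,(-1),⟨0,[(4,0)]⟩,⟨1,[(6,0),(16,0),(0,0),(12,0)]⟩⟩,⟨false,1,⟨0,[(36,0),(2,0)]⟩,⟨0,[(37,0)]⟩⟩,
  ⟨true,0,⟨0,[(1,0),(19,0),(14,0)]⟩,⟨0,[(0,0),(21,0)]⟩⟩,⟨true,0,⟨0,[]⟩,⟨0,[(41,0)]⟩⟩,⟨false,0,⟨0,
  [(1,0),(19,0)]⟩,⟨3,[(9,1),(7,0),(0,0),(3,1),(6,0)]⟩⟩,[]⟩))))) (.R ⟨0,false,false,true,[1,0,-1],[0,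
  0,1],[1],(⟨0,[(22,0)]⟩,⟨0,[(23,0)]⟩),(⟨0,[(23,0)]⟩,⟨0,[(22,0)]⟩),⟨0,[(11,0)]⟩,.k,.k,.k,.k,.k,.k,
  ⟨false,1,⟨0,[(4,0),(29,0)]⟩,⟨5,[(3,1),(1,0),(1,1),(2,0),(7,2),(15,0)]⟩⟩,⟨true,1,⟨0,[(0,0),(19,
  0)]⟩,⟨0,[(3,0),(0,0),(1,0),(10,0)]⟩⟩,⟨true,0,⟨0,[(6,0),(26,0)]⟩,⟨0,[(4,0),(25,0)]⟩⟩,⟨false,1,⟨0,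
  [(5,0),(12,0)]⟩,⟨0,[(4,0),(4,0),(7,0)]⟩⟩,⟨false,0,⟨0,[]⟩,⟨0,[]⟩⟩,⟨false,0,⟨0,[]⟩,⟨0,[]⟩⟩,[.a
  ⟨true,0,⟨0,[(18,0)]⟩,⟨0,[(4,0),(12,0)]⟩⟩ ⟨true,0,⟨0,[]⟩,⟨1,[(20,0),(0,0)]⟩⟩ ⟨false,1,⟨0,[(0,0),
  (17,0)]⟩,⟨2,[(1,0),(2,1),(1,0),(2,0),(0,0),(6,1)]⟩⟩,.o ⟨false,1,⟨3,[(5,1),(7,0),(0,0),(3,1),(6,
  0)]⟩,⟨0,[(9,0)]⟩⟩,.o ⟨false,0,⟨0,[(8,0)]⟩,⟨3,[(0,1),(12,0),(0,0),(5,1),(4,0)]⟩⟩,.o ⟨false,0,⟨0,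
  [(21,0)]⟩,⟨0,[(0,0)]⟩⟩]⟩)))) (.Q [0,0,0,-1,0,0,0,0,0,1] (.pp false [-1,1]) (.R ⟨0,false,false,
  false,[1,0,-1],[1,-1],[1],(⟨0,[(20,0)]⟩,⟨0,[(21,0)]⟩),(⟨0,[(24,0)]⟩,⟨0,[(25,0)]⟩),⟨0,[(9,0)]⟩,.k,
  .k,.k,.k,.k,.k,⟨false,0,⟨0,[(31,0)]⟩,⟨7,[(1,3),(6,1),(2,0),(0,0),(10,0),(6,3),(1,1)]⟩⟩,⟨true,0,⟨0,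
  [(18,0)]⟩,⟨0,[(6,0)]⟩⟩,⟨true,0,⟨0,[(4,0),(26,0)]⟩,⟨0,[(2,0),(25,0)]⟩⟩,⟨false,1,⟨0,[(0,0),(2,0)]⟩,
  ⟨0,[(7,0),(23,0)]⟩⟩,⟨false,0,⟨0,[]⟩,⟨0,[]⟩⟩,⟨false,0,⟨0,[]⟩,⟨0,[]⟩⟩,[.a ⟨true,0,⟨0,[(0,0)]⟩,⟨0,
  [(31,0)]⟩⟩ ⟨true,0,⟨0,[]⟩,⟨1,[(18,0),(0,0)]⟩⟩ ⟨false,1,⟨5,[(1,4),(9,0),(0,0),(5,0),(9,1),(1,0)]⟩,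
  ⟨0,[(6,0),(24,0)]⟩⟩,.e ⟨false,1,⟨1,[(32,0),(0,0)]⟩,⟨0,[(35,0)]⟩⟩ ⟨false,1,⟨0,[(1,0)]⟩,⟨1,[(6,0),
  (12,0),(8,0),(2,1)]⟩⟩,.o ⟨false,0,⟨0,[(6,0)]⟩,⟨1,[(18,1),(4,0),(8,0)]⟩⟩,.e ⟨false,1,⟨1,[(32,0),(0,
  0)]⟩,⟨1,[(18,0),(0,0)]⟩⟩ ⟨false,1,⟨0,[(1,0)]⟩,⟨0,[(19,0),(11,0)]⟩⟩]⟩) (.R ⟨1,false,false,true,[0,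
  0,1],[1,-1],[1,0,0,-1,0,0,0,1],(⟨0,[(21,0)]⟩,⟨0,[(20,0)]⟩),(⟨0,[(24,0)]⟩,⟨0,[(25,0)]⟩),⟨0,[(10,
  0)]⟩,.k,.k,.k,.k,.k,.k,⟨true,0,⟨0,[(4,0),(24,0),(1,0)]⟩,⟨0,[(2,0),(25,0)]⟩⟩,⟨false,0,⟨1,[(8,0),(6,
  0),(2,0)]⟩,⟨5,[(0,3),(0,3),(16,1),(4,0),(4,1),(3,0)]⟩⟩,⟨false,1,⟨0,[(30,0),(2,0)]⟩,⟨0,[(31,0)]⟩⟩,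
  ⟨false,0,⟨0,[(2,0),(12,0),(14,0)]⟩,⟨0,[(3,0),(27,0)]⟩⟩,⟨true,0,⟨0,[]⟩,⟨0,[(35,0)]⟩⟩,⟨false,0,⟨1,
  [(2,0),(12,1),(1,0),(0,0)]⟩,⟨0,[(3,0)]⟩⟩,[.o ⟨false,0,⟨0,[(30,0)]⟩,⟨1,[(23,0),(7,1),(1,0)]⟩⟩,.o
  ⟨false,1,⟨1,[(11,0),(0,0),(17,1),(2,0)]⟩,⟨0,[(0,0)]⟩⟩,.o ⟨false,1,⟨1,[(18,1),(4,0),(8,0)]⟩,⟨0,[(6,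
  0)]⟩⟩,.a ⟨true,0,⟨0,[(18,0)]⟩,⟨0,[(15,0)]⟩⟩ ⟨false,1,⟨1,[(4,1),(27,0),(0,0)]⟩,⟨1,[(2,0),(14,0),(0,
  0),(12,1)]⟩⟩ ⟨true,0,⟨0,[(15,0),(14,0)]⟩,⟨0,[(0,0),(17,0)]⟩⟩]⟩)))) (.Q [0,-1,0,1,1,0,1,1,0,-1,1]
  (.p true [0,0,1] [1] (⟨0,[(18,0)]⟩,⟨0,[(17,0)]⟩) .k 1 (⟨0,[]⟩,⟨0,[]⟩) .k .k) (.R ⟨2,true,false,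
  true,[0,1],[1,0,-1],[1,1,1],(⟨0,[]⟩,⟨0,[]⟩),(⟨0,[(18,0)]⟩,⟨0,[(19,0)]⟩),⟨0,[]⟩,.k,.k,.k,.k,.k,.k,
  ⟨false,0,⟨0,[(2,0),(26,0)]⟩,⟨0,[(5,0),(10,0),(13,0)]⟩⟩,⟨true,(-1),⟨0,[(1,0),(0,0),(24,0),(1,0)]⟩,
  ⟨1,[(16,1),(4,0),(8,0)]⟩⟩,⟨true,0,⟨0,[(28,0)]⟩,⟨0,[(29,0)]⟩⟩,⟨false,0,⟨0,[(1,0),(26,0),(2,0)]⟩,⟨0,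
  [(0,0)]⟩⟩,⟨false,0,⟨0,[]⟩,⟨1,[(9,0),(0,0),(20,0)]⟩⟩,⟨true,(-1),⟨0,[(1,0)]⟩,⟨1,[(14,1),(6,0),(9,
  0)]⟩⟩,[]⟩) (.Q [0,0,0,-1,1,0,1,0,0,-1,1] (.p true [0,0,1] [1] (⟨0,[(19,0)]⟩,⟨0,[(18,0)]⟩) .k 1
  (⟨0,[]⟩,⟨0,[]⟩) .k .k) (.R ⟨0,false,false,false,[-1,1,1],[0,1],[1,1,1],(⟨0,[(8,0)]⟩,⟨0,[(19,0),(3,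
  0)]⟩),(⟨0,[(24,0)]⟩,⟨0,[(23,0)]⟩),⟨0,[(19,0)]⟩,.k,.k,.k,.k,.k,.k,⟨true,0,⟨0,[(29,0)]⟩,⟨0,[(28,0),
  (1,0)]⟩⟩,⟨false,0,⟨0,[(14,0)]⟩,⟨1,[(17,1),(4,0),(8,0)]⟩⟩,⟨true,0,⟨0,[(0,0),(1,0)]⟩,⟨0,[(3,0),(26,
  1)]⟩⟩,⟨false,0,⟨0,[(2,0),(29,0)]⟩,⟨1,[(15,1),(6,0),(9,0)]⟩⟩,⟨false,0,⟨0,[]⟩,⟨0,[]⟩⟩,⟨false,0,⟨0,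
  []⟩,⟨0,[]⟩⟩,[.a ⟨true,0,⟨0,[(30,0)]⟩,⟨3,[(1,1),(1,1),(10,1),(2,3),(13,0),(0,0)]⟩⟩ ⟨false,0,⟨0,
  [(34,0)]⟩,⟨1,[(31,0),(0,0)]⟩⟩ ⟨true,(-1),⟨0,[(2,0),(0,0),(24,0),(1,1)]⟩,⟨0,[(0,0)]⟩⟩,.o ⟨false,1,
  ⟨1,[(22,0),(7,1),(1,0)]⟩,⟨0,[(29,0)]⟩⟩,.o ⟨false,2,⟨0,[(17,0),(4,0),(8,0)]⟩,⟨0,[(2,0),(0,0),(24,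
  0),(1,0)]⟩⟩,.e ⟨false,0,⟨0,[]⟩,⟨1,[(10,0),(0,0),(20,0)]⟩⟩ ⟨false,0,⟨0,[(14,0),(13,0),(1,0)]⟩,⟨0,
  [(0,0)]⟩⟩]⟩) (.R ⟨0,false,false,false,[-1,1,1],[0,1],[1,1,1],(⟨0,[(8,0)]⟩,⟨0,[(19,0),(3,0)]⟩),(⟨0,
  [(24,0)]⟩,⟨0,[(23,0)]⟩),⟨0,[(19,0)]⟩,.k,.k,.k,.k,.k,.k,⟨true,0,⟨0,[(29,0)]⟩,⟨0,[(28,0),(1,0)]⟩⟩,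
  ⟨false,0,⟨0,[(14,0)]⟩,⟨1,[(17,1),(4,0),(8,0)]⟩⟩,⟨true,0,⟨1,[(1,1),(15,1),(4,0),(8,0)]⟩,⟨1,[(0,1),
  (14,1),(6,0),(9,0)]⟩⟩,⟨false,0,⟨0,[(2,0),(29,0)]⟩,⟨1,[(15,1),(6,0),(9,0)]⟩⟩,⟨false,0,⟨0,[]⟩,⟨0,
  []⟩⟩,⟨false,0,⟨0,[]⟩,⟨0,[]⟩⟩,[.e ⟨false,0,⟨0,[(34,0)]⟩,⟨1,[(31,0),(0,0)]⟩⟩ ⟨false,(-1),⟨0,[(0,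
  0)]⟩,⟨1,[(17,1),(4,0),(6,1),(1,1),(0,0)]⟩⟩,.o ⟨false,1,⟨1,[(22,0),(7,1),(1,0)]⟩,⟨0,[(29,0)]⟩⟩,.o
  ⟨false,2,⟨0,[(17,0),(4,0),(8,0)]⟩,⟨5,[(0,3),(0,1),(2,1),(12,0),(0,0),(9,3)]⟩⟩,.a ⟨true,1,⟨1,[(17,
  1),(4,0),(8,0)]⟩,⟨3,[(0,3),(0,1),(1,1),(10,1),(2,3),(13,0),(0,0)]⟩⟩ ⟨false,0,⟨0,[]⟩,⟨1,[(10,0),(0,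
  0),(20,0)]⟩⟩ ⟨true,(-1),⟨0,[(0,0)]⟩,⟨1,[(17,1),(4,0),(6,1),(1,0)]⟩⟩]⟩)))))) (.Q [0,-1,0,0,1,0,1,1,
  0,-1,1] (.p true [0,0,1] [1] (⟨0,[(15,0)]⟩,⟨0,[(14,0)]⟩) .k 1 (⟨0,[]⟩,⟨0,[]⟩) .k .k) (.I [1,-1,0,
  0,0,0,0,-1] (.Q [0,0,1,0,-1,0,-1,0,0,2,-1] (.p false [-1,1,1] [1] (⟨0,[(5,0)]⟩,⟨0,[(16,0),(3,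
  0)]⟩) .k 1 (⟨0,[]⟩,⟨0,[]⟩) .k .k) (.I [1,0,-1,0,0,0,0,-1] (.Q [0,0,-1,0,1,0,2,0,0,-2,2] (.p true
  [0,0,1] [2,-1,-1] (⟨0,[(19,0)]⟩,⟨0,[(18,0)]⟩) .k 2 (⟨0,[(18,0),(3,0)]⟩,⟨0,[(7,0)]⟩) .k (.r (-1)
  ⟨0,[(3,0),(2,0),(7,0)]⟩ ⟨2,[(0,1),(1,1),(12,1),(0,1)]⟩)) (.K ⟨0,[2,-1,-1],(-1),(-1),(⟨0,[(19,0),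
  (3,0)]⟩,⟨0,[(8,0)]⟩),.k,(.r (-1) ⟨1,[(0,0),(2,2),(0,0),(9,2),(14,3)]⟩ ⟨0,[(15,0),(2,0),(9,0),(1,
  1)]⟩),.k,(.r 0 ⟨0,[(1,0),(1,0),(25,0)]⟩ ⟨1,[(4,1),(2,1),(7,1),(1,0),(0,0),(11,1)]⟩),.k,[⟨0,[(0,
  0)]⟩,⟨1,[(2,1),(14,0),(0,0)]⟩,⟨0,[(15,0),(6,0),(7,0)]⟩,⟨0,[(1,0),(0,0),(26,0)]⟩]⟩) (.R ⟨0,false,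
  false,true,[-1,1,1],[1,0,-1],[0,1,1,0,0,0,0,1],(⟨0,[(8,0)]⟩,⟨0,[(19,0),(3,0)]⟩),(⟨0,[(19,0)]⟩,⟨0,
  [(20,0)]⟩),⟨0,[(19,0)]⟩,.k,.k,.k,(.r (-1) ⟨1,[(4,1),(2,1),(7,1),(1,0),(0,0),(11,1)]⟩ ⟨0,[(1,0),(1,
  0),(25,0)]⟩),.k,.k,⟨false,1,⟨0,[(4,0),(2,0),(7,0)]⟩,⟨2,[(1,3),(1,0),(12,0),(0,0)]⟩⟩,⟨true,(-1),⟨0,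
  [(0,0)]⟩,⟨0,[(5,1),(16,0)]⟩⟩,⟨true,0,⟨0,[(29,0)]⟩,⟨0,[(30,0)]⟩⟩,⟨false,(-1),⟨0,[(0,0),(0,0),(1,0),
  (25,0)]⟩,⟨3,[(4,5),(5,0),(0,0),(3,1),(6,0),(7,3)]⟩⟩,⟨false,0,⟨0,[]⟩,⟨0,[]⟩⟩,⟨false,0,⟨0,[]⟩,⟨0,
  []⟩⟩,[.o ⟨false,0,⟨0,[(16,0)]⟩,⟨0,[(4,0)]⟩⟩,.o ⟨false,0,⟨0,[(6,0)]⟩,⟨3,[(4,1),(5,0),(0,0),(3,1),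
  (6,0)]⟩⟩,.a ⟨true,1,⟨1,[(5,1),(16,0),(8,0)]⟩,⟨0,[(2,0)]⟩⟩ ⟨true,0,⟨0,[(15,0),(2,0)]⟩,⟨0,[(1,0)]⟩⟩
  ⟨false,(-1),⟨0,[(2,0),(3,0)]⟩,⟨1,[(4,1),(0,1),(16,0),(8,0)]⟩⟩,.o ⟨false,1,⟨0,[(5,0),(16,0)]⟩,⟨5,
  [(2,1),(4,1),(2,0),(0,0),(19,0)]⟩⟩]⟩)) (.R ⟨0,false,false,true,[-1,1,1],[0,0,1],[0,1,1,0,0,0,0,1],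
  (⟨0,[(7,0)]⟩,⟨0,[(18,0),(3,0)]⟩),(⟨0,[(19,0)]⟩,⟨0,[(18,0)]⟩),⟨0,[(18,0)]⟩,.k,.k,.k,.k,.k,.k,⟨true,
  0,⟨1,[(16,0),(0,0)]⟩,⟨0,[]⟩⟩,⟨false,0,⟨1,[(1,0),(14,0),(13,0)]⟩,⟨1,[(21,0),(8,0)]⟩⟩,⟨true,0,⟨0,
  [(28,0)]⟩,⟨0,[(29,0)]⟩⟩,⟨false,0,⟨1,[(1,0),(0,0),(0,0),(0,0),(8,0),(14,1)]⟩,⟨1,[(21,0),(7,1),(1,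
  0)]⟩⟩,⟨false,0,⟨0,[]⟩,⟨0,[]⟩⟩,⟨false,0,⟨0,[]⟩,⟨0,[]⟩⟩,[.a ⟨true,0,⟨0,[(14,0)]⟩,⟨2,[(1,0),(0,1),
  (10,0),(1,0),(15,0)]⟩⟩ ⟨true,0,⟨0,[(0,0),(32,0)]⟩,⟨0,[(2,0)]⟩⟩ ⟨false,0,⟨5,[(1,1),(4,1),(2,0),(0,
  0),(3,5),(15,0)]⟩,⟨1,[(2,1),(18,0),(8,0)]⟩⟩,.o ⟨false,1,⟨3,[(3,1),(5,0),(0,0),(3,1),(6,0)]⟩,⟨0,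
  [(5,0)]⟩⟩,.e ⟨false,0,⟨0,[(0,0)]⟩,⟨2,[(2,1),(12,0),(0,0),(13,1),(0,0)]⟩⟩ ⟨false,0,⟨3,[(0,1),(0,1),
  (7,0),(0,0),(3,1),(16,0)]⟩,⟨1,[(2,1),(18,0),(8,0)]⟩⟩,.o ⟨false,1,⟨0,[(4,0),(16,0)]⟩,⟨5,[(1,1),(4,
  1),(2,0),(0,0),(19,0)]⟩⟩]⟩)) (.R ⟨0,false,false,true,[-1,1,1],[0,0,1],[0,1,1,0,0,0,0,1],(⟨0,[(6,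
  0)]⟩,⟨0,[(17,0),(3,0)]⟩),(⟨0,[(18,0)]⟩,⟨0,[(17,0)]⟩),⟨0,[(17,0)]⟩,.k,.k,.k,.k,.k,.k,⟨true,0,⟨1,
  [(15,0),(0,0)]⟩,⟨0,[]⟩⟩,⟨false,0,⟨0,[(12,0),(2,0)]⟩,⟨1,[(20,0),(8,0)]⟩⟩,⟨true,0,⟨0,[(27,0)]⟩,⟨0,
  [(28,0)]⟩⟩,⟨false,0,⟨0,[(3,0),(8,0),(13,0),(0,0)]⟩,⟨1,[(20,0),(7,1),(1,0)]⟩⟩,⟨false,0,⟨0,[]⟩,⟨0,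
  []⟩⟩,⟨false,0,⟨0,[]⟩,⟨0,[]⟩⟩,[.a ⟨true,0,⟨0,[(13,0)]⟩,⟨1,[(1,1),(3,0),(6,0),(2,0)]⟩⟩ ⟨true,0,⟨0,
  [(13,0),(2,0)]⟩,⟨0,[(1,0)]⟩⟩ ⟨false,0,⟨1,[(5,0),(6,0),(0,1),(1,0)]⟩,⟨3,[(0,1),(0,1),(2,1),(24,0),
  (0,0)]⟩⟩,.o ⟨false,1,⟨3,[(2,1),(5,0),(0,0),(3,1),(6,0)]⟩,⟨0,[(4,0)]⟩⟩,.o ⟨false,1,⟨0,[(0,0)]⟩,⟨0,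
  [(5,0),(9,0)]⟩⟩,.o ⟨false,1,⟨1,[(0,0),(14,0),(4,0)]⟩,⟨1,[(5,0),(6,0),(2,0)]⟩⟩]⟩)) (.S ⟨1,0,[0,0,0,
  0,0,0,0,1],[0,0,1],[0,1,0,0,0,0,0,1],(⟨0,[(17,0)]⟩,⟨0,[(16,0)]⟩),⟨0,[(6,0)]⟩,.k,.k,⟨true,0,⟨0,
  [(31,0)]⟩,⟨0,[]⟩⟩,⟨false,1,⟨1,[(7,0),(0,0),(20,0)]⟩,⟨0,[]⟩⟩,⟨false,0,⟨0,[(27,0)]⟩,⟨0,[(26,0),(2,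
  0)]⟩⟩,⟨true,0,⟨0,[(27,0)]⟩,⟨0,[(26,0)]⟩⟩,[.o ⟨false,1,⟨3,[(1,1),(5,0),(0,0),(3,1),(6,0)]⟩,⟨0,[(3,
  0)]⟩⟩,.o ⟨false,1,⟨0,[(1,0)]⟩,⟨0,[(13,0)]⟩⟩,.a ⟨true,0,⟨0,[(2,0)]⟩,⟨1,[(4,0),(6,0),(2,0)]⟩⟩ ⟨true,
  0,⟨0,[(0,0)]⟩,⟨0,[(2,0),(0,0)]⟩⟩ ⟨false,1,⟨1,[(1,0),(2,0),(7,0),(16,0)]⟩,⟨0,[(2,0),(0,0)]⟩⟩,.e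
  ⟨false,1,⟨1,[(1,0),(2,0),(7,0),(15,0)]⟩,⟨0,[(2,0),(0,0),(21,0)]⟩⟩ ⟨false,1,⟨0,[(1,0),(9,0)]⟩,⟨0,
  [(3,0),(10,0)]⟩⟩]⟩)) (.Q [0,0,0,2,0,0,0,0,0,-1] (.pp true [-1,1]) (.R ⟨2,true,false,true,[0,1],[1,
  -1],[1,0,1],(⟨0,[]⟩,⟨0,[]⟩),(⟨0,[(20,0)]⟩,⟨0,[(21,0)]⟩),⟨0,[]⟩,.k,.k,.k,(.r 1 ⟨0,[(0,0),(0,0),(10,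
  0),(12,1)]⟩ ⟨0,[(26,1),(1,0),(0,0)]⟩),.k,.k,⟨false,0,⟨0,[(25,0),(1,0)]⟩,⟨0,[(26,0),(1,0)]⟩⟩,⟨true,
  (-1),⟨0,[(1,0),(10,0),(12,1)]⟩,⟨1,[(19,0),(8,0)]⟩⟩,⟨false,1,⟨0,[(26,0),(2,0)]⟩,⟨0,[(27,0)]⟩⟩,
  ⟨true,0,⟨0,[(2,0),(8,0),(13,0),(0,1)]⟩,⟨0,[(0,0)]⟩⟩,⟨true,0,⟨0,[]⟩,⟨0,[(31,0)]⟩⟩,⟨false,0,⟨0,[(2,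
  0),(8,0),(13,0),(0,0)]⟩,⟨3,[(0,1),(6,0),(0,0),(10,0),(9,1)]⟩⟩,[]⟩) (.I [1,-1,0,0,0,0,0,-1] (.I [1,
  1,1,0,-1,0,0,-1] (.S ⟨1,0,[0,1,0,0,0,0,0,1],[0,0,1],[0,0,0,0,0,0,0,1],(⟨0,[(19,0)]⟩,⟨0,[(18,0)]⟩),
  ⟨0,[(8,0)]⟩,.k,.k,⟨false,1,⟨1,[(9,0),(0,0),(20,0)]⟩,⟨0,[]⟩⟩,⟨true,0,⟨0,[(33,0)]⟩,⟨0,[]⟩⟩,⟨true,0,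
  ⟨0,[(29,0)]⟩,⟨0,[(28,0)]⟩⟩,⟨false,0,⟨0,[(29,0)]⟩,⟨3,[(2,1),(6,0),(0,0),(10,0),(9,1)]⟩⟩,[.e ⟨false,
  1,⟨1,[(13,1),(0,1),(6,0),(9,0)]⟩,⟨3,[(1,2),(13,0),(0,0),(9,0)]⟩⟩ ⟨false,1,⟨3,[(6,1),(2,0),(0,0),
  (3,3),(6,0),(8,1)]⟩,⟨0,[(1,0)]⟩⟩,.o ⟨false,1,⟨1,[(14,1),(6,0),(9,0)]⟩,⟨0,[(5,0)]⟩⟩,.e ⟨false,1,⟨1,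
  [(13,1),(0,1),(6,0),(5,1),(3,0)]⟩,⟨3,[(1,2),(13,0),(0,0),(9,0)]⟩⟩ ⟨false,1,⟨3,[(6,1),(2,0),(0,0),
  (3,3),(6,0),(9,1)]⟩,⟨0,[(1,0)]⟩⟩,.a ⟨true,0,⟨0,[(16,0)]⟩,⟨0,[(13,0)]⟩⟩ ⟨true,1,⟨1,[(13,1),(0,1),
  (6,0),(9,0)]⟩,⟨0,[(0,0)]⟩⟩ ⟨false,1,⟨1,[(13,1),(0,1),(6,0),(9,0)]⟩,⟨1,[(1,1),(14,0),(0,0)]⟩⟩]⟩)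
  (.I [0,1,1,1,-1,0,0,-1] (.S ⟨1,0,[0,1,0,0,0,0,0,1],[0,0,1],[1,0,0,-1,0,0,0,1],(⟨0,[(20,0)]⟩,⟨0,
  [(19,0)]⟩),⟨0,[(9,0)]⟩,.k,.k,⟨false,1,⟨3,[(3,1),(6,0),(0,0),(10,0),(9,1)]⟩,⟨0,[(30,0)]⟩⟩,⟨true,0,
  ⟨0,[(34,0)]⟩,⟨0,[]⟩⟩,⟨true,0,⟨0,[]⟩,⟨0,[(34,0)]⟩⟩,⟨false,0,⟨0,[(30,0)]⟩,⟨3,[(3,1),(6,0),(0,0),(10,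
  0),(9,1)]⟩⟩,[.e ⟨false,1,⟨0,[(1,0),(27,0)]⟩,⟨1,[(0,1),(30,0),(0,0)]⟩⟩ ⟨false,1,⟨7,[(1,3),(5,1),(2,
  2),(0,2),(3,3),(6,0),(4,3)]⟩,⟨0,[(2,0)]⟩⟩,.o ⟨false,1,⟨1,[(15,1),(6,0),(9,0)]⟩,⟨0,[(6,0)]⟩⟩,.e
  ⟨false,1,⟨3,[(1,2),(1,1),(11,0),(2,0),(3,0),(5,1)]⟩,⟨1,[(0,1),(30,0),(0,0)]⟩⟩ ⟨false,1,⟨1,[(1,0),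
  (8,0),(0,0),(3,0),(2,0)]⟩,⟨0,[(2,0)]⟩⟩,.a ⟨true,0,⟨0,[(17,0)]⟩,⟨0,[(14,0)]⟩⟩ ⟨true,1,⟨0,[(1,0),
  (27,0)]⟩,⟨0,[(0,0)]⟩⟩ ⟨false,1,⟨15,[(1,11),(5,1),(2,2),(0,2),(3,3),(6,0),(4,3)]⟩,⟨1,[(2,1),(14,0),
  (0,0)]⟩⟩]⟩) (.Q [0,-1,0,1,1,0,1,1,0,-1,1] (.p true [0,0,1] [1] (⟨0,[(20,0)]⟩,⟨0,[(19,0)]⟩) .k 1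
  (⟨0,[]⟩,⟨0,[]⟩) .k .k) (.R ⟨1,false,false,true,[0,0,1],[1,-1],[1],(⟨0,[(21,0)]⟩,⟨0,[(20,0)]⟩),(⟨0,
  [(24,0)]⟩,⟨0,[(25,0)]⟩),⟨0,[(10,0)]⟩,.k,.k,.k,.k,.k,.k,⟨true,0,⟨0,[(29,0),(1,0)]⟩,⟨0,[(30,0)]⟩⟩,
  ⟨false,0,⟨1,[(8,0),(6,0),(2,0)]⟩,⟨1,[(6,1),(16,0),(8,0)]⟩⟩,⟨false,0,⟨0,[(3,0)]⟩,⟨3,[(0,0),(0,0),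
  (6,0),(2,1),(0,1),(3,1),(2,0)]⟩⟩,⟨false,0,⟨1,[(4,0),(0,0),(11,0),(15,0)]⟩,⟨0,[(0,0)]⟩⟩,⟨false,0,
  ⟨0,[(3,0),(27,0)]⟩,⟨5,[(0,0),(0,2),(2,0),(6,1),(0,1),(3,1),(2,2),(10,1)]⟩⟩,⟨true,(-1),⟨0,[(5,0)]⟩,
  ⟨0,[(0,0),(29,0)]⟩⟩,[.o ⟨false,0,⟨0,[(30,0)]⟩,⟨1,[(23,0),(7,1),(1,0)]⟩⟩,.e ⟨false,1,⟨1,[(32,0),(0,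
  0)]⟩,⟨0,[(35,0)]⟩⟩ ⟨false,0,⟨0,[(1,0),(3,0)]⟩,⟨1,[(0,1),(2,0),(13,0),(0,0),(9,0)]⟩⟩,.a ⟨true,0,⟨0,
  [(6,0)]⟩,⟨1,[(8,0),(6,0),(2,0)]⟩⟩ ⟨true,0,⟨0,[]⟩,⟨0,[(35,0)]⟩⟩ ⟨false,0,⟨1,[(4,0),(3,0)]⟩,⟨3,[(0,
  3),(2,2),(13,0),(0,0),(9,0)]⟩⟩,.e ⟨false,1,⟨1,[(32,0),(0,0)]⟩,⟨1,[(18,0),(0,0)]⟩⟩ ⟨false,0,⟨0,[(1,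
  0),(3,0)]⟩,⟨3,[(0,3),(2,1),(13,1),(0,2),(0,0)]⟩⟩]⟩) (.I [0,0,-1,-1,0,0,0,-1] (.R ⟨0,false,false,
  true,[1,0,-1],[2,-1,-1],[0,1,0,-1,0,0,0,-1],(⟨0,[(21,0)]⟩,⟨0,[(22,0)]⟩),(⟨0,[(21,0),(3,0)]⟩,⟨0,
  [(10,0)]⟩),⟨0,[(10,0)]⟩,.k,.k,.k,.k,.k,.k,⟨true,0,⟨1,[(19,0),(0,0)]⟩,⟨0,[]⟩⟩,⟨false,0,⟨0,[(16,0),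
  (2,0)]⟩,⟨1,[(24,0),(8,0)]⟩⟩,⟨true,0,⟨0,[(31,0)]⟩,⟨0,[(32,0)]⟩⟩,⟨false,0,⟨1,[(5,0),(10,0),(2,0)]⟩,
  ⟨1,[(24,0),(7,1),(1,0)]⟩⟩,⟨false,0,⟨0,[]⟩,⟨0,[]⟩⟩,⟨false,0,⟨0,[]⟩,⟨0,[]⟩⟩,[.o ⟨false,(-1),⟨0,[(1,
  0)]⟩,⟨0,[(17,0),(6,0),(7,0),(1,0)]⟩⟩,.e ⟨false,0,⟨0,[(0,0)]⟩,⟨1,[(3,0),(8,0),(0,0),(3,0),(2,0),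
  (11,1)]⟩⟩ ⟨false,0,⟨1,[(4,0),(0,0),(0,0),(0,0),(25,0)]⟩,⟨1,[(3,0),(13,0),(2,0),(3,0),(7,1)]⟩⟩,.a
  ⟨true,0,⟨1,[(9,0),(6,0),(2,0)]⟩,⟨0,[(7,0)]⟩⟩ ⟨false,0,⟨8,[(0,2),(0,1),(2,2),(0,1),(12,0),(0,2),(4,
  1)]⟩,⟨1,[(3,0),(13,0),(2,0),(11,1),(1,0)]⟩⟩ ⟨true,(-1),⟨0,[(1,0),(5,0)]⟩,⟨1,[(3,0),(13,0),(2,0),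
  (3,0),(7,1)]⟩⟩,.o ⟨false,0,⟨0,[(20,0)]⟩,⟨1,[(7,1),(16,0),(8,0)]⟩⟩]⟩) (.R ⟨0,false,false,true,[1,0,
  -1],[0,1],[0,1,0,-1,0,0,0,-1],(⟨0,[(21,0)]⟩,⟨0,[(22,0)]⟩),(⟨0,[(26,0)]⟩,⟨0,[(25,0)]⟩),⟨0,[(10,
  0)]⟩,.k,.k,.k,.k,.k,.k,⟨false,1,⟨7,[(1,5),(0,1),(1,3),(0,3),(1,5),(16,4),(8,6)]⟩,⟨0,[(0,0),(31,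
  0)]⟩⟩,⟨true,1,⟨1,[(7,1),(16,0),(8,0)]⟩,⟨0,[(0,0),(0,0),(28,0)]⟩⟩,⟨true,0,⟨0,[(31,0)]⟩,⟨0,[(32,
  0)]⟩⟩,⟨false,1,⟨1,[(17,1),(6,0),(7,1),(1,0)]⟩,⟨0,[(1,0),(32,0)]⟩⟩,⟨false,0,⟨0,[]⟩,⟨0,[]⟩⟩,⟨false,
  0,⟨0,[]⟩,⟨0,[]⟩⟩,[.e ⟨false,0,⟨1,[(1,1),(5,1),(16,0),(8,0)]⟩,⟨1,[(0,1),(32,0),(0,0)]⟩⟩ ⟨false,1,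
  ⟨1,[(7,0),(11,0),(4,0),(4,0),(2,1),(0,0)]⟩,⟨1,[(1,0),(0,0),(13,0),(13,1)]⟩⟩,.a ⟨true,0,⟨0,[(32,
  0)]⟩,⟨1,[(5,0),(10,0),(2,0)]⟩⟩ ⟨true,0,⟨0,[(4,0),(26,0)]⟩,⟨0,[(0,0)]⟩⟩ ⟨false,1,⟨1,[(7,1),(16,0),
  (7,1),(0,0)]⟩,⟨1,[(5,0),(3,0)]⟩⟩,.e ⟨false,0,⟨0,[(4,0),(26,0)]⟩,⟨1,[(0,1),(32,0),(0,0)]⟩⟩ ⟨false,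
  1,⟨1,[(19,1),(4,0),(7,1),(0,0)]⟩,⟨1,[(1,0),(0,0),(13,0),(13,1)]⟩⟩,.o ⟨false,0,⟨0,[(20,0)]⟩,⟨1,[(7,
  1),(16,0),(8,0)]⟩⟩]⟩))))) (.I [1,1,1,0,-1,0,0,-1] (.S ⟨1,0,[0,0,0,0,0,0,0,1],[0,0,1],[0,1,0,0,0,0,
  0,1],(⟨0,[(19,0)]⟩,⟨0,[(18,0)]⟩),⟨0,[(8,0)]⟩,.k,.k,⟨true,0,⟨0,[(33,0)]⟩,⟨0,[]⟩⟩,⟨false,1,⟨1,[(9,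
  0),(0,0),(20,0)]⟩,⟨0,[]⟩⟩,⟨false,0,⟨0,[(29,0)]⟩,⟨3,[(2,1),(6,0),(0,0),(10,0),(9,1)]⟩⟩,⟨true,0,⟨0,
  [(29,0)]⟩,⟨0,[(28,0)]⟩⟩,[.o ⟨false,1,⟨1,[(14,1),(6,0),(9,0)]⟩,⟨0,[(5,0)]⟩⟩,.a ⟨true,1,⟨0,[(14,0),
  (16,0)]⟩,⟨0,[(3,0)]⟩⟩ ⟨false,1,⟨1,[(1,1),(28,0),(0,0)]⟩,⟨0,[(4,0),(0,0)]⟩⟩ ⟨true,1,⟨0,[(1,0),(29,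
  0)]⟩,⟨0,[(0,0)]⟩⟩,.a ⟨true,0,⟨0,[(4,0)]⟩,⟨1,[(6,0),(6,0),(2,0)]⟩⟩ ⟨true,0,⟨0,[(1,0)]⟩,⟨0,[(4,0),
  (0,0)]⟩⟩ ⟨false,1,⟨0,[(1,0),(29,0)]⟩,⟨0,[(4,0),(0,0)]⟩⟩,.a ⟨true,0,⟨0,[(16,0)]⟩,⟨0,[(13,0)]⟩⟩
  ⟨false,1,⟨1,[(1,1),(28,0),(0,0)]⟩,⟨0,[(0,0),(30,0)]⟩⟩ ⟨true,1,⟨1,[(1,1),(28,0),(0,0)]⟩,⟨0,[(0,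
  0)]⟩⟩]⟩) (.S ⟨1,0,[0,0,0,0,0,0,0,1],[0,0,1],[0,1,0,0,0,0,0,1],(⟨0,[(19,0)]⟩,⟨0,[(18,0)]⟩),⟨0,[(8,
  0)]⟩,.k,.k,⟨true,0,⟨0,[(33,0)]⟩,⟨0,[]⟩⟩,⟨false,1,⟨1,[(9,0),(0,0),(20,0)]⟩,⟨0,[]⟩⟩,⟨false,0,⟨0,
  [(29,0)]⟩,⟨3,[(2,1),(6,0),(0,0),(10,0),(9,1)]⟩⟩,⟨true,0,⟨0,[(29,0)]⟩,⟨0,[(28,0)]⟩⟩,[.o ⟨false,1,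
  ⟨1,[(14,1),(6,0),(9,0)]⟩,⟨0,[(5,0)]⟩⟩,.e ⟨false,1,⟨3,[(0,2),(0,0),(7,0),(0,0),(15,0)]⟩,⟨0,[(4,0),
  (0,0)]⟩⟩ ⟨false,1,⟨0,[(0,0)]⟩,⟨0,[(4,0),(10,0)]⟩⟩,.a ⟨true,0,⟨0,[(4,0)]⟩,⟨1,[(6,0),(6,0),(2,0)]⟩⟩
  ⟨true,0,⟨0,[(1,0)]⟩,⟨0,[(4,0),(0,0)]⟩⟩ ⟨false,1,⟨0,[(1,0),(29,0)]⟩,⟨0,[(4,0),(0,0)]⟩⟩,.e ⟨false,1,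
  ⟨3,[(0,2),(0,0),(7,0),(0,0),(15,0)]⟩,⟨0,[(4,0),(0,0),(21,0)]⟩⟩ ⟨false,1,⟨0,[(0,0)]⟩,⟨0,[(5,0),(10,
  0)]⟩⟩]⟩))))))

theorem ok0 : chk K t0 l0 = true := by decide +kernel

noncomputable def t1 : Tre :=
  (.I [1,0,0,0,0,0,0,1] (.I [0,-1,1,1,0,0,0,-1] (.Q [0,1,-1,0,0,0,-1,0,0,0,-1] (.p false [0,0,1] []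
  (⟨0,[(17,0)]⟩,⟨0,[(16,0)]⟩) .k 0 (⟨0,[]⟩,⟨0,[]⟩) .k .k) (.R ⟨2,true,false,true,[0,1],[0,0,1],[1,0,
  1],(⟨0,[]⟩,⟨0,[]⟩),(⟨0,[(18,0)]⟩,⟨0,[(17,0)]⟩),⟨0,[]⟩,.k,.k,.k,.k,.k,.k,⟨false,1,⟨1,[(1,1),(25,1),
  (1,0),(0,0)]⟩,⟨0,[(0,0),(3,0)]⟩⟩,⟨true,0,⟨0,[(15,0)]⟩,⟨0,[(0,0),(25,0)]⟩⟩,⟨false,1,⟨0,[(27,0),(2,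
  0)]⟩,⟨0,[(28,0)]⟩⟩,⟨true,0,⟨0,[(4,0),(22,0)]⟩,⟨0,[(3,0)]⟩⟩,⟨true,0,⟨0,[]⟩,⟨0,[(32,0)]⟩⟩,⟨false,0,
  ⟨0,[(4,0)]⟩,⟨0,[(14,0),(15,0)]⟩⟩,[]⟩) (.Q [0,0,0,0,0,0,1,0,0,0,1] (.p true [0,0,1] [] (⟨0,[(18,
  0)]⟩,⟨0,[(17,0)]⟩) .k 0 (⟨0,[]⟩,⟨0,[]⟩) .k .k) (.R ⟨2,true,false,true,[0,1],[0,0,1],[0,0,1,1],(⟨0,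
  []⟩,⟨0,[]⟩),(⟨0,[(19,0)]⟩,⟨0,[(18,0)]⟩),⟨0,[]⟩,.k,.k,.k,.k,.k,.k,⟨true,0,⟨0,[(2,0)]⟩,⟨0,[(3,0),
  (24,0)]⟩⟩,⟨false,0,⟨0,[(0,0)]⟩,⟨3,[(6,1),(2,0),(0,0),(10,0),(8,1)]⟩⟩,⟨false,1,⟨1,[(9,0),(0,0),(20,
  0)]⟩,⟨0,[]⟩⟩,⟨true,0,⟨0,[(5,0),(22,0)]⟩,⟨0,[(4,0)]⟩⟩,⟨true,0,⟨0,[(29,0)]⟩,⟨0,[(28,0)]⟩⟩,⟨false,0,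
  ⟨0,[(5,0)]⟩,⟨0,[(15,0),(15,0)]⟩⟩,[]⟩) (.R ⟨0,false,false,true,[1,0,-1],[1,-1],[1,1],(⟨0,[(18,0)]⟩,
  ⟨0,[(19,0)]⟩),(⟨0,[(22,0)]⟩,⟨0,[(23,0)]⟩),⟨0,[(7,0)]⟩,.k,.k,.k,.k,.k,.k,⟨false,0,⟨0,[(29,0)]⟩,⟨1,
  [(28,1),(1,0),(0,0)]⟩⟩,⟨true,0,⟨0,[(16,0)]⟩,⟨0,[(0,0)]⟩⟩,⟨false,0,⟨0,[(3,0)]⟩,⟨1,[(2,1),(25,1),(1,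
  0),(0,0)]⟩⟩,⟨true,0,⟨0,[(5,0),(22,0)]⟩,⟨0,[(4,0)]⟩⟩,⟨false,0,⟨0,[]⟩,⟨0,[]⟩⟩,⟨false,0,⟨0,[]⟩,⟨0,
  []⟩⟩,[.o ⟨false,0,⟨0,[(28,0)]⟩,⟨1,[(21,0),(7,1),(1,0)]⟩⟩,.a ⟨true,0,⟨0,[(1,0),(11,0),(14,0)]⟩,⟨0,
  [(29,0)]⟩⟩ ⟨true,0,⟨0,[]⟩,⟨1,[(16,0),(0,0)]⟩⟩ ⟨false,1,⟨0,[(1,0),(26,0),(1,0)]⟩,⟨0,[(3,0),(0,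
  0)]⟩⟩,.o ⟨false,0,⟨0,[(0,0)]⟩,⟨1,[(16,1),(4,0),(8,0)]⟩⟩,.e ⟨false,1,⟨1,[(9,0),(0,0),(19,0)]⟩,⟨0,
  [(0,0),(0,0)]⟩⟩ ⟨false,1,⟨0,[(1,0),(26,0),(1,0)]⟩,⟨0,[(3,0),(0,0),(22,0)]⟩⟩]⟩))) (.R ⟨2,true,
  false,true,[0,1],[0,0,1],[0,0,1,1],(⟨0,[]⟩,⟨0,[]⟩),(⟨0,[(17,0)]⟩,⟨0,[(16,0)]⟩),⟨0,[]⟩,.k,.k,.k,.k,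
  .k,.k,⟨false,1,⟨1,[(2,1),(11,1),(13,0),(0,0)]⟩,⟨0,[(0,0)]⟩⟩,⟨true,0,⟨0,[(14,0)]⟩,⟨0,[(0,0),(1,0),
  (22,0)]⟩⟩,⟨false,1,⟨1,[(7,0),(0,0),(20,0)]⟩,⟨0,[]⟩⟩,⟨true,0,⟨0,[(3,0),(22,0)]⟩,⟨0,[(2,0)]⟩⟩,⟨true,
  0,⟨0,[(27,0)]⟩,⟨0,[(26,0)]⟩⟩,⟨false,0,⟨0,[(3,0)]⟩,⟨0,[(13,0),(15,0)]⟩⟩,[]⟩)) (.R ⟨2,false,false,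
  true,[0,1],[0,0,1],[0,1],(⟨0,[]⟩,⟨0,[]⟩),(⟨0,[(16,0)]⟩,⟨0,[(15,0)]⟩),⟨0,[]⟩,.k,.k,.k,.k,.k,.k,
  ⟨true,0,⟨0,[(0,0)]⟩,⟨0,[(2,0),(11,0)]⟩⟩,⟨false,0,⟨0,[(0,0),(1,0)]⟩,⟨3,[(3,1),(2,0),(0,0),(10,0),
  (8,1)]⟩⟩,⟨false,1,⟨1,[(25,1),(1,0),(0,0)]⟩,⟨0,[(24,0),(1,0)]⟩⟩,⟨true,0,⟨0,[(2,0),(22,0)]⟩,⟨0,[(1,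
  0)]⟩⟩,⟨false,1,⟨1,[(6,0),(0,0),(19,0)]⟩,⟨0,[(24,0)]⟩⟩,⟨false,0,⟨0,[(2,0)]⟩,⟨0,[(12,0),(15,0)]⟩⟩,
  [.a ⟨true,0,⟨0,[(11,0)]⟩,⟨0,[(0,0),(9,0),(13,0)]⟩⟩ ⟨true,0,⟨0,[(30,0)]⟩,⟨0,[(24,0)]⟩⟩ ⟨false,0,⟨0,
  [(11,0)]⟩,⟨1,[(0,1),(9,1),(7,0),(9,0)]⟩⟩,.e ⟨false,1,⟨1,[(6,0),(0,0),(19,0)]⟩,⟨0,[]⟩⟩ ⟨false,0,⟨0,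
  [(2,0)]⟩,⟨1,[(12,1),(14,0),(0,0)]⟩⟩,.o ⟨false,1,⟨1,[(18,0),(8,0)]⟩,⟨1,[(13,0),(0,0)]⟩⟩,.fo]⟩))

theorem ok1 : chk K t1 l1 = true := by decide +kernel

noncomputable def t2 : Tre :=
  (.I [1,0,1,0,0,0,0,-1] (.Q [0,0,0,0,0,0,-1,0,0,0,-1] (.p false [0,0,1] [] (⟨0,[(18,0)]⟩,⟨0,[(17,
  0)]⟩) .k 0 (⟨0,[]⟩,⟨0,[]⟩) .k .k) (.Q [0,1,1,1,-1,0,-1,0,0,0,-1] (.p false [0,0,1] [] (⟨0,[(19,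
  0)]⟩,⟨0,[(18,0)]⟩) .k 0 (⟨0,[]⟩,⟨0,[]⟩) .k .k) (.Q [0,0,1,-1,-1,0,-1,0,0,1,-1] (.p false [0,0,1]
  [1] (⟨0,[(20,0)]⟩,⟨0,[(19,0)]⟩) .k 1 (⟨0,[]⟩,⟨0,[]⟩) .k .k) (.R ⟨0,false,false,false,[1,0,-1],[0,
  1],[1,1,1],(⟨0,[(20,0)]⟩,⟨0,[(21,0)]⟩),(⟨0,[(25,0)]⟩,⟨0,[(24,0)]⟩),⟨0,[(9,0)]⟩,.k,.k,.k,.k,.k,.k,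
  ⟨true,0,⟨0,[(30,0)]⟩,⟨0,[(29,0),(1,0)]⟩⟩,⟨false,2,⟨1,[(18,1),(4,0),(8,2)]⟩,⟨0,[(0,0),(30,0)]⟩⟩,
  ⟨true,(-1),⟨0,[(1,0),(4,0)]⟩,⟨0,[(4,0),(26,0)]⟩⟩,⟨false,1,⟨1,[(7,1),(15,0),(7,1),(1,0)]⟩,⟨1,[(0,
  0),(3,0),(0,0)]⟩⟩,⟨false,0,⟨0,[]⟩,⟨0,[]⟩⟩,⟨false,0,⟨0,[]⟩,⟨0,[]⟩⟩,[.a ⟨true,0,⟨0,[(31,0)]⟩,⟨0,[(5,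
  0),(0,0)]⟩⟩ ⟨false,0,⟨0,[(35,0)]⟩,⟨1,[(32,0),(0,0)]⟩⟩ ⟨true,1,⟨1,[(18,1),(4,0),(7,1),(0,0)]⟩,⟨0,
  [(0,0)]⟩⟩,.o ⟨false,1,⟨1,[(23,0),(7,1),(1,0)]⟩,⟨0,[(30,0)]⟩⟩,.o ⟨false,0,⟨0,[(2,0)]⟩,⟨1,[(18,1),
  (4,0),(8,0)]⟩⟩,.e ⟨false,0,⟨0,[]⟩,⟨1,[(11,0),(0,0),(20,0)]⟩⟩ ⟨false,2,⟨1,[(18,1),(4,0),(7,1),(0,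
  1),(0,0)]⟩,⟨0,[(0,0)]⟩⟩]⟩) (.Q [0,0,1,0,-1,0,-1,0,0,1,-1] (.p false [0,0,1] [1] (⟨0,[(21,0)]⟩,⟨0,
  [(20,0)]⟩) .k 1 (⟨0,[]⟩,⟨0,[]⟩) .k .k) (.R ⟨0,false,false,false,[1,0,-1],[0,1],[1,1,1],(⟨0,[(21,
  0)]⟩,⟨0,[(22,0)]⟩),(⟨0,[(26,0)]⟩,⟨0,[(25,0)]⟩),⟨0,[(10,0)]⟩,.k,.k,.k,.k,.k,.k,⟨true,0,⟨0,[(31,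
  0)]⟩,⟨0,[(30,0),(1,0)]⟩⟩,⟨false,2,⟨3,[(1,1),(3,1),(11,1),(6,0),(8,1),(0,0)]⟩,⟨0,[(0,0)]⟩⟩,⟨true,
  (-1),⟨0,[(2,0),(4,0)]⟩,⟨1,[(1,0),(3,0),(0,0)]⟩⟩,⟨false,1,⟨3,[(1,1),(0,1),(5,3),(15,0),(9,2)]⟩,⟨0,
  [(0,0),(4,0)]⟩⟩,⟨false,0,⟨0,[]⟩,⟨0,[]⟩⟩,⟨false,0,⟨0,[]⟩,⟨0,[]⟩⟩,[.e ⟨false,0,⟨0,[(36,0)]⟩,⟨1,[(33,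
  0),(0,0)]⟩⟩ ⟨false,1,⟨0,[(1,0)]⟩,⟨1,[(0,0),(4,0),(1,0),(1,0)]⟩⟩,.o ⟨false,1,⟨3,[(1,1),(0,1),(21,
  0),(9,2)]⟩,⟨0,[(31,0)]⟩⟩,.o ⟨false,0,⟨0,[(3,0)]⟩,⟨7,[(1,1),(3,1),(11,1),(1,3),(4,2),(9,0)]⟩⟩,.a
  ⟨true,(-1),⟨0,[(0,0)]⟩,⟨0,[(19,0),(13,0)]⟩⟩ ⟨false,0,⟨0,[]⟩,⟨1,[(12,0),(0,0),(20,0)]⟩⟩ ⟨true,1,⟨0,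
  [(1,0)]⟩,⟨0,[(0,0),(30,0)]⟩⟩]⟩) (.I [1,1,0,0,0,0,0,-1] (.R ⟨0,false,false,false,[1,0,-1],[1,-1],
  [1,1,0,0,0,0,0,-1],(⟨0,[(22,0)]⟩,⟨0,[(23,0)]⟩),(⟨0,[(26,0)]⟩,⟨0,[(27,0)]⟩),⟨0,[(11,0)]⟩,.k,.k,.k,
  .k,.k,.k,⟨false,0,⟨0,[(0,0),(32,0)]⟩,⟨1,[(8,1),(8,1),(7,0),(9,0)]⟩⟩,⟨true,0,⟨0,[(20,0)]⟩,⟨0,[(4,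
  0)]⟩⟩,⟨false,0,⟨0,[]⟩,⟨1,[(13,0),(0,0),(20,0)]⟩⟩,⟨true,0,⟨0,[(8,0)]⟩,⟨1,[(2,0),(0,0),(3,0),(11,
  0)]⟩⟩,⟨false,0,⟨0,[]⟩,⟨0,[]⟩⟩,⟨false,0,⟨0,[]⟩,⟨0,[]⟩⟩,[.a ⟨true,0,⟨0,[(7,0),(0,0)]⟩,⟨0,[(33,0)]⟩⟩
  ⟨true,0,⟨0,[(0,0)]⟩,⟨0,[(3,0),(4,0),(26,0)]⟩⟩ ⟨false,1,⟨1,[(6,0),(1,0),(11,0),(13,0)]⟩,⟨7,[(2,1),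
  (0,5),(13,3),(7,0),(9,2)]⟩⟩,.o ⟨false,1,⟨0,[(32,0),(2,0)]⟩,⟨0,[(1,0),(1,0)]⟩⟩,.o ⟨false,0,⟨0,[(4,
  0)]⟩,⟨7,[(2,1),(3,1),(11,1),(1,3),(4,2),(9,0)]⟩⟩,.o ⟨false,0,⟨0,[(21,0)]⟩,⟨0,[(1,0)]⟩⟩]⟩) (.S ⟨1,
  0,[0,1,0,0,0,0,0,1],[0,0,1],[0,0,0,0,0,0,0,1],(⟨0,[(23,0)]⟩,⟨0,[(22,0)]⟩),⟨0,[(12,0)]⟩,.k,.k,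
  ⟨false,1,⟨1,[(13,0),(0,0),(20,0)]⟩,⟨0,[]⟩⟩,⟨true,0,⟨0,[(37,0)]⟩,⟨0,[]⟩⟩,⟨true,0,⟨0,[(33,0)]⟩,⟨0,
  [(32,0)]⟩⟩,⟨false,0,⟨0,[(33,0)]⟩,⟨0,[(32,0),(2,0)]⟩⟩,[.o ⟨false,0,⟨0,[(1,0),(1,0),(4,0)]⟩,⟨1,[(7,
  1),(17,0),(9,0)]⟩⟩,.e ⟨true,0,⟨0,[(0,0)]⟩,⟨0,[(5,0),(31,0)]⟩⟩ ⟨true,0,⟨11,[(0,6),(2,0),(4,0),(1,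
  1),(7,3),(6,0),(4,0)]⟩,⟨0,[(5,0)]⟩⟩,.o ⟨false,1,⟨7,[(2,1),(3,1),(11,1),(1,3),(4,2),(9,0)]⟩,⟨0,[(4,
  0)]⟩⟩,.a ⟨true,0,⟨0,[(20,0)]⟩,⟨0,[(17,0)]⟩⟩ ⟨false,1,⟨9,[(0,5),(9,1),(7,3),(6,0),(8,4),(0,3)]⟩,⟨0,
  [(5,0)]⟩⟩ ⟨true,0,⟨0,[(0,0),(29,0)]⟩,⟨0,[(5,0)]⟩⟩]⟩)))) (.R ⟨0,false,false,false,[1,0,-1],[1,-1],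
  [0,1],(⟨0,[(19,0)]⟩,⟨0,[(20,0)]⟩),(⟨0,[(23,0)]⟩,⟨0,[(24,0)]⟩),⟨0,[(8,0)]⟩,.k,.k,.k,.k,.k,.k,
  ⟨false,0,⟨0,[(30,0),(3,0)]⟩,⟨0,[(0,0),(0,0)]⟩⟩,⟨true,0,⟨0,[(17,0)]⟩,⟨0,[(1,0)]⟩⟩,⟨false,0,⟨0,[(1,
  0),(4,0)]⟩,⟨1,[(2,0),(0,0),(26,0),(1,0)]⟩⟩,⟨true,0,⟨0,[(5,0)]⟩,⟨0,[(16,0),(13,0)]⟩⟩,⟨false,0,⟨0,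
  []⟩,⟨0,[]⟩⟩,⟨false,0,⟨0,[]⟩,⟨0,[]⟩⟩,[.a ⟨true,0,⟨0,[(4,0),(0,0)]⟩,⟨0,[(30,0)]⟩⟩ ⟨true,0,⟨0,[(34,
  0)]⟩,⟨0,[(28,0)]⟩⟩ ⟨false,1,⟨1,[(0,0),(2,0),(11,0)]⟩,⟨0,[(1,0),(28,0)]⟩⟩,.e ⟨false,1,⟨1,[(10,0),
  (0,0),(19,0)]⟩,⟨0,[]⟩⟩ ⟨false,1,⟨0,[(0,0)]⟩,⟨1,[(1,0),(16,0),(8,0),(2,1)]⟩⟩,.o ⟨false,0,⟨0,[(1,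
  0)]⟩,⟨1,[(17,1),(4,0),(8,0)]⟩⟩,.e ⟨false,1,⟨1,[(10,0),(0,0),(19,0)]⟩,⟨0,[(28,0)]⟩⟩ ⟨false,1,⟨0,
  [(0,0)]⟩,⟨0,[(18,0),(11,0)]⟩⟩]⟩)) (.Q [0,0,0,-1,0,0,1,0,0,0,1] (.p true [0,0,1] [] (⟨0,[(19,0)]⟩,
  ⟨0,[(18,0)]⟩) .k 0 (⟨0,[]⟩,⟨0,[]⟩) .k .k) (.Q [0,0,0,2,0,0,-1,-1,0,0,-1] (.p false [0,0,1] [] (⟨0,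
  [(20,0)]⟩,⟨0,[(19,0)]⟩) .k 0 (⟨0,[]⟩,⟨0,[]⟩) .k .k) (.R ⟨1,false,false,false,[0,0,1],[0,1],[0,1,
  1],(⟨0,[(21,0)]⟩,⟨0,[(20,0)]⟩),(⟨0,[(25,0)]⟩,⟨0,[(24,0)]⟩),⟨0,[(10,0)]⟩,.k,.k,.k,.k,(.r (-1) ⟨0,
  [(1,0),(4,0),(8,1),(7,0)]⟩ ⟨1,[(0,1),(17,2),(0,0)]⟩),.k,⟨true,0,⟨0,[(30,0)]⟩,⟨1,[(0,0),(6,0),(21,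
  1)]⟩⟩,⟨false,1,⟨1,[(15,1),(7,0),(8,0)]⟩,⟨0,[(18,0)]⟩⟩,⟨false,0,⟨1,[(0,0),(0,1),(15,0),(11,0),(4,
  0)]⟩,⟨1,[(7,1),(7,1),(7,0),(9,0)]⟩⟩,⟨false,1,⟨9,[(0,5),(2,1),(0,1),(3,1),(2,1),(0,1),(10,0),(9,
  4)]⟩,⟨0,[(6,0)]⟩⟩,⟨false,0,⟨1,[(0,0),(2,0),(14,0)]⟩,⟨1,[(6,1),(8,1),(7,0),(9,0)]⟩⟩,⟨true,0,⟨0,[(0,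
  0)]⟩,⟨0,[(6,0),(23,0)]⟩⟩,[.e ⟨false,0,⟨0,[(35,0)]⟩,⟨1,[(32,0),(0,0)]⟩⟩ ⟨false,1,⟨3,[(0,1),(7,1),
  (7,1),(6,0),(8,1),(0,0)]⟩,⟨0,[(1,0)]⟩⟩,.o ⟨false,1,⟨1,[(0,0),(6,0),(15,0),(9,0)]⟩,⟨0,[(30,0)]⟩⟩,
  .e ⟨false,0,⟨1,[(18,0),(0,0)]⟩,⟨1,[(32,0),(0,0)]⟩⟩ ⟨false,1,⟨3,[(0,1),(7,1),(7,1),(6,0),(9,2)]⟩,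
  ⟨0,[(1,0)]⟩⟩,.a ⟨true,0,⟨0,[(18,0)]⟩,⟨0,[(15,0)]⟩⟩ ⟨true,0,⟨0,[(35,0)]⟩,⟨0,[]⟩⟩ ⟨false,1,⟨1,[(0,
  0),(6,0),(7,1),(7,0),(9,0)]⟩,⟨1,[(1,0),(16,0),(10,0),(0,0)]⟩⟩]⟩) (.I [0,0,0,0,0,0,0,1] (.R ⟨0,
  false,false,true,[1,0,-1],[1,-1],[],(⟨0,[(21,0)]⟩,⟨0,[(22,0)]⟩),(⟨0,[(25,0)]⟩,⟨0,[(26,0)]⟩),⟨0,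
  [(10,0)]⟩,.k,.k,.k,.k,.k,.k,⟨true,0,⟨0,[(30,0),(1,0)]⟩,⟨0,[(31,0)]⟩⟩,⟨false,0,⟨0,[(3,0)]⟩,⟨3,[(9,
  1),(2,0),(0,0),(10,0),(8,1)]⟩⟩,⟨true,0,⟨0,[(0,0)]⟩,⟨0,[(3,0),(14,0)]⟩⟩,⟨false,0,⟨0,[(7,0)]⟩,⟨1,
  [(6,1),(17,0),(7,1),(1,0)]⟩⟩,⟨false,0,⟨0,[]⟩,⟨0,[]⟩⟩,⟨false,0,⟨0,[]⟩,⟨0,[]⟩⟩,[.o ⟨false,0,⟨0,[(31,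
  0)]⟩,⟨1,[(24,0),(7,1),(1,0)]⟩⟩,.a ⟨true,0,⟨1,[(1,0),(4,0),(9,0),(2,0)]⟩,⟨0,[(32,0)]⟩⟩ ⟨false,1,⟨1,
  [(33,0),(0,0)]⟩,⟨0,[(36,0)]⟩⟩ ⟨true,0,⟨0,[(2,0)]⟩,⟨0,[(20,0),(11,0)]⟩⟩,.e ⟨false,1,⟨1,[(12,0),(0,
  0),(20,0)]⟩,⟨0,[]⟩⟩ ⟨false,0,⟨0,[(2,0)]⟩,⟨3,[(9,1),(2,0),(0,0),(10,0),(7,3),(1,1)]⟩⟩,.o ⟨false,0,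
  ⟨0,[(20,0)]⟩,⟨1,[(3,1),(20,0),(8,0)]⟩⟩]⟩) (.I [0,0,0,0,0,0,0,-1] (.Q [0,-1,0,0,0,0,-2,-1,0,1,-2]
  (.p false [0,0,1] [1,0,-1] (⟨0,[(23,0)]⟩,⟨0,[(22,0)]⟩) .k 2 (⟨0,[(22,0)]⟩,⟨0,[(23,0)]⟩) .k (.r
  (-1) ⟨1,[(9,1),(0,1),(7,1),(6,0),(9,0)]⟩ ⟨0,[(0,1)]⟩)) (.Q [0,-1,0,1,1,0,2,1,0,-2,2] (.p true [0,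
  0,1] [2,-1,-1] (⟨0,[(24,0)]⟩,⟨0,[(23,0)]⟩) .k 2 (⟨0,[(23,0),(3,0)]⟩,⟨0,[(12,0)]⟩) .k (.r (-1) ⟨1,
  [(10,1),(0,1),(7,1),(6,0),(9,0)]⟩ ⟨0,[(1,1)]⟩)) (.I [0,1,0,1,0,0,0,1] (.I [1,1,-1,0,0,0,0,-1] (.Q
  [0,0,1,0,0,0,2,1,0,-1,2] (.p true [0,0,1] [1,0,-1] (⟨0,[(27,0)]⟩,⟨0,[(26,0)]⟩) .k 2 (⟨0,[(26,0)]⟩,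
  ⟨0,[(27,0)]⟩) .k (.r (-1) ⟨5,[(1,7),(4,3),(7,1),(2,0),(0,0),(10,0),(9,3)]⟩ ⟨0,[(4,1)]⟩)) (.R ⟨0,
  false,false,false,[1,0,-1],[0,-1,1],[0,0,1],(⟨0,[(27,0)]⟩,⟨0,[(28,0)]⟩),(⟨0,[(17,0)]⟩,⟨0,[(27,0),
  (4,0)]⟩),⟨0,[(16,0)]⟩,.k,.k,.k,(.r 0 ⟨0,[(5,0),(4,0),(27,0)]⟩ ⟨1,[(2,0),(0,0),(3,1),(7,1),(23,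
  0)]⟩),.k,.k,⟨false,0,⟨0,[(10,0),(27,0)]⟩,⟨5,[(2,0),(0,0),(3,3),(14,5),(7,1),(8,2)]⟩⟩,⟨true,0,⟨0,
  [(0,0),(4,0)]⟩,⟨0,[(15,0)]⟩⟩,⟨true,0,⟨0,[(0,0),(14,0)]⟩,⟨0,[(1,0)]⟩⟩,⟨false,1,⟨1,[(2,0),(0,0),(3,
  1),(32,0)]⟩,⟨1,[(4,0),(0,0),(6,0),(11,0),(13,1)]⟩⟩,⟨false,0,⟨0,[]⟩,⟨0,[]⟩⟩,⟨false,0,⟨0,[]⟩,⟨0,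
  []⟩⟩,[.a ⟨true,0,⟨0,[(13,0)]⟩,⟨0,[(12,0),(25,0)]⟩⟩ ⟨true,0,⟨1,[(25,0),(0,0)]⟩,⟨0,[]⟩⟩ ⟨false,1,⟨5,
  [(3,2),(3,2),(0,1),(2,0),(11,0),(11,0),(3,1)]⟩,⟨2,[(4,0),(7,0),(2,0),(8,0),(13,2)]⟩⟩,.o ⟨false,1,
  ⟨5,[(2,0),(0,0),(3,3),(22,1),(9,2)]⟩,⟨0,[(24,0),(13,0)]⟩⟩,.e ⟨false,0,⟨0,[(0,0),(3,0)]⟩,⟨3,[(2,1),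
  (8,1),(27,0),(0,0)]⟩⟩ ⟨false,1,⟨11,[(3,5),(3,7),(3,1),(13,3),(13,0),(0,2)]⟩,⟨2,[(4,0),(7,0),(2,0),
  (8,0),(13,2)]⟩⟩,.o ⟨false,0,⟨0,[(26,0)]⟩,⟨29,[(1,5),(1,13),(3,1),(3,9),(18,0),(4,3),(3,4)]⟩⟩]⟩)
  (.I [0,1,0,0,0,0,0,1] (.Q [0,0,1,0,0,0,2,0,0,-1,2] (.p true [0,0,1] [1,0,-1] (⟨0,[(29,0)]⟩,⟨0,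
  [(28,0)]⟩) .k 2 (⟨0,[(28,0)]⟩,⟨0,[(29,0)]⟩) .k (.r (-1) ⟨0,[(0,1),(40,0)]⟩ ⟨0,[(6,1)]⟩)) (.R ⟨1,
  false,false,true,[0,0,1],[1,0,-1],[0,1,0,0,0,0,0,1],(⟨0,[(30,0)]⟩,⟨0,[(29,0)]⟩),(⟨0,[(29,0)]⟩,⟨0,
  [(30,0)]⟩),⟨0,[(19,0)]⟩,.k,.k,.k,.k,(.r (-1) ⟨1,[(4,0),(0,0),(3,1),(7,1),(23,0)]⟩ ⟨0,[(7,0),(4,0),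
  (27,0)]⟩),.k,⟨false,1,⟨5,[(4,4),(0,2),(3,3),(7,3),(6,1),(16,1),(0,0)]⟩,⟨0,[(7,1)]⟩⟩,⟨true,0,⟨0,
  [(17,0)]⟩,⟨0,[(0,0)]⟩⟩,⟨true,0,⟨0,[(44,0)]⟩,⟨0,[]⟩⟩,⟨false,0,⟨0,[(2,0),(9,0)]⟩,⟨1,[(4,0),(0,0),(3,
  0),(6,0),(25,0)]⟩⟩,⟨false,0,⟨0,[(40,0)]⟩,⟨5,[(9,1),(3,1),(6,0),(0,0),(6,1),(13,2)]⟩⟩,⟨false,0,⟨0,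
  [(2,0),(9,0),(27,0)]⟩,⟨1,[(4,0),(0,0),(3,1),(32,0)]⟩⟩,[.o ⟨false,0,⟨0,[(26,0)]⟩,⟨5,[(4,1),(0,1),
  (3,1),(22,0),(9,2)]⟩⟩,.e ⟨false,1,⟨1,[(1,1),(39,0),(0,0)]⟩,⟨0,[(8,0)]⟩⟩ ⟨false,0,⟨0,[(2,0)]⟩,⟨33,
  [(5,13),(3,1),(3,9),(11,27),(1,9),(4,2),(9,6)]⟩⟩,.a ⟨true,0,⟨0,[(11,0)]⟩,⟨1,[(17,0),(6,0),(2,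
  0)]⟩⟩ ⟨true,0,⟨0,[(1,0)]⟩,⟨0,[(8,0)]⟩⟩ ⟨false,0,⟨2,[(6,0),(7,0),(2,0),(8,0)]⟩,⟨1,[(5,0),(4,0),(14,
  0),(16,0)]⟩⟩,.e ⟨false,1,⟨1,[(1,1),(39,0),(0,0)]⟩,⟨0,[(7,0),(30,0)]⟩⟩ ⟨false,0,⟨0,[(2,0)]⟩,⟨5,[(4,
  1),(0,1),(3,1),(17,5),(4,0),(9,2)]⟩⟩]⟩) (.Q [0,0,2,0,0,0,2,0,0,-1,2] (.p true [0,0,1] [1,0,-1]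
  (⟨0,[(30,0)]⟩,⟨0,[(29,0)]⟩) .k 2 (⟨0,[(29,0)]⟩,⟨0,[(30,0)]⟩) .k (.r (-1) ⟨0,[(1,1),(40,0)]⟩ ⟨0,
  [(7,1)]⟩)) (.R ⟨1,false,false,true,[0,0,1],[1,1,-1],[0,1,0,0,0,0,0,1],(⟨0,[(31,0)]⟩,⟨0,[(30,0)]⟩),
  (⟨0,[(30,0),(4,0)]⟩,⟨0,[(20,0)]⟩),⟨0,[(20,0)]⟩,.k,.k,.k,(.r (-1) ⟨3,[(1,1),(3,3),(4,3),(22,0),(8,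
  0),(0,1)]⟩ ⟨0,[(8,0),(4,0),(27,0)]⟩),(.r (-1) ⟨5,[(1,5),(3,1),(0,1),(3,7),(22,0),(8,2)]⟩ ⟨0,[(13,
  1),(27,1)]⟩),.k,⟨false,1,⟨1,[(1,1),(3,0),(0,0),(3,1),(31,0)]⟩,⟨0,[(8,0),(4,0),(27,0)]⟩⟩,⟨true,0,
  ⟨0,[(1,0)]⟩,⟨0,[(0,0)]⟩⟩,⟨true,0,⟨0,[(45,0)]⟩,⟨0,[]⟩⟩,⟨false,0,⟨0,[(3,0),(9,0),(27,0)]⟩,⟨1,[(5,0),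
  (0,0),(3,1),(32,0)]⟩⟩,⟨false,0,⟨0,[(41,0)]⟩,⟨5,[(10,1),(3,1),(6,0),(0,0),(6,1),(13,2)]⟩⟩,⟨false,0,
  ⟨0,[(3,0),(9,0),(27,1)]⟩,⟨5,[(5,1),(0,1),(3,7),(22,0),(9,2)]⟩⟩,[.o ⟨false,0,⟨0,[(27,0),(13,0)]⟩,
  ⟨5,[(5,0),(0,0),(3,3),(22,1),(9,2)]⟩⟩,.e ⟨false,1,⟨1,[(2,1),(39,0),(0,0)]⟩,⟨0,[(9,0)]⟩⟩ ⟨false,0,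
  ⟨0,[(3,0),(37,0)]⟩,⟨31,[(0,5),(5,7),(3,13),(3,11),(11,21),(6,4),(9,6)]⟩⟩,.a ⟨true,0,⟨0,[(12,0)]⟩,
  ⟨1,[(18,0),(6,0),(2,0)]⟩⟩ ⟨true,0,⟨0,[(2,0)]⟩,⟨0,[(9,0)]⟩⟩ ⟨false,0,⟨2,[(7,0),(7,0),(2,0),(8,0),
  (13,2)]⟩,⟨2,[(0,0),(5,0),(3,1),(31,0),(0,0)]⟩⟩,.e ⟨false,1,⟨1,[(2,1),(39,0),(0,0)]⟩,⟨0,[(8,0),(30,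
  0)]⟩⟩ ⟨false,0,⟨0,[(3,0),(37,0)]⟩,⟨3,[(0,1),(9,1),(15,1),(6,0),(9,2)]⟩⟩]⟩) (.R ⟨0,false,false,
  true,[-1,1,1],[0,0,1],[0,1,1,0,0,0,0,1],(⟨0,[(19,0)]⟩,⟨0,[(30,0),(3,0)]⟩),(⟨0,[(31,0)]⟩,⟨0,[(30,
  0)]⟩),⟨0,[(30,0)]⟩,.k,.k,.k,.k,.k,.k,⟨true,0,⟨1,[(28,0),(0,0)]⟩,⟨0,[]⟩⟩,⟨false,0,⟨0,[(25,0),(2,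
  0)]⟩,⟨1,[(33,0),(8,0)]⟩⟩,⟨true,0,⟨0,[(40,0)]⟩,⟨0,[(41,0)]⟩⟩,⟨false,0,⟨1,[(10,0),(4,0),(9,0),(2,
  0)]⟩,⟨1,[(33,0),(7,1),(1,0)]⟩⟩,⟨false,0,⟨0,[]⟩,⟨0,[]⟩⟩,⟨false,0,⟨0,[]⟩,⟨0,[]⟩⟩,[.e ⟨false,0,⟨0,
  [(2,0)]⟩,⟨1,[(8,1),(33,0),(0,0)]⟩⟩ ⟨false,0,⟨1,[(18,0),(6,0),(0,1),(1,0)]⟩,⟨15,[(0,7),(5,7),(0,1),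
  (0,25),(1,3),(22,4),(9,2)]⟩⟩,.a ⟨true,0,⟨0,[(17,0)]⟩,⟨0,[(15,0)]⟩⟩ ⟨true,0,⟨2,[(5,1),(4,0),(18,0),
  (9,1)]⟩,⟨0,[(9,0)]⟩⟩ ⟨false,0,⟨1,[(17,1),(0,0),(6,0),(2,0)]⟩,⟨2,[(3,0),(0,0),(1,0),(1,0),(5,0),
  (18,0)]⟩⟩,.e ⟨false,0,⟨2,[(5,1),(4,0),(18,0),(9,1)]⟩,⟨1,[(8,1),(33,0),(0,0)]⟩⟩ ⟨false,0,⟨0,[(17,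
  0),(0,0),(9,0)]⟩,⟨15,[(0,7),(5,7),(0,1),(0,25),(1,3),(22,4),(9,2)]⟩⟩,.o ⟨false,1,⟨3,[(4,0),(1,0),
  (4,0),(16,0),(4,2)]⟩,⟨1,[(18,0),(6,0),(2,0)]⟩⟩]⟩))) (.Q [0,0,1,0,0,0,2,0,0,-1,2] (.p true [0,0,1]
  [1,0,-1] (⟨0,[(29,0)]⟩,⟨0,[(28,0)]⟩) .k 2 (⟨0,[(28,0)]⟩,⟨0,[(29,0)]⟩) .k (.r (-1) ⟨5,[(3,7),(4,3),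
  (7,1),(2,0),(0,0),(10,0),(9,3)]⟩ ⟨0,[(6,1)]⟩)) (.R ⟨0,false,false,false,[1,0,-1],[0,-1,1],[1,0,0,
  0,0,0,0,-1],(⟨0,[(29,0)]⟩,⟨0,[(30,0)]⟩),(⟨0,[(19,0)]⟩,⟨0,[(29,0),(4,0)]⟩),⟨0,[(18,0)]⟩,.k,.k,.k,
  (.r 0 ⟨0,[(7,0),(4,0),(27,0)]⟩ ⟨1,[(4,0),(0,0),(3,1),(7,1),(23,0)]⟩),.k,.k,⟨false,0,⟨0,[(7,1),(32,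
  0)]⟩,⟨1,[(4,0),(0,0),(3,1),(7,1),(23,0)]⟩⟩,⟨true,0,⟨0,[(0,0)]⟩,⟨0,[(17,0)]⟩⟩,⟨true,0,⟨0,[]⟩,⟨0,
  [(44,0)]⟩⟩,⟨false,1,⟨1,[(4,0),(0,0),(3,1),(32,0)]⟩,⟨0,[(2,0),(9,0),(27,0)]⟩⟩,⟨false,0,⟨0,[]⟩,⟨0,
  []⟩⟩,⟨false,0,⟨0,[]⟩,⟨0,[]⟩⟩,[.a ⟨true,0,⟨0,[(15,0)]⟩,⟨0,[(14,0),(25,0)]⟩⟩ ⟨true,0,⟨0,[(8,0)]⟩,⟨2,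
  [(4,1),(4,0),(18,0),(9,1)]⟩⟩ ⟨false,1,⟨7,[(0,1),(4,2),(3,4),(3,0),(11,0),(11,0),(3,3)]⟩,⟨2,[(6,0),
  (7,0),(2,0),(8,0),(13,2)]⟩⟩,.o ⟨false,1,⟨5,[(4,0),(0,0),(3,3),(22,1),(9,2)]⟩,⟨0,[(26,0),(13,0)]⟩⟩,
  .e ⟨false,0,⟨0,[(1,0)]⟩,⟨11,[(4,7),(4,3),(7,1),(2,6),(0,6),(10,0),(9,3)]⟩⟩ ⟨false,1,⟨11,[(5,5),(3,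
  7),(3,1),(13,3),(13,0),(0,2)]⟩,⟨2,[(6,0),(7,0),(2,0),(8,0),(13,2)]⟩⟩,.o ⟨false,0,⟨0,[(28,0)]⟩,⟨29,
  [(3,5),(1,13),(3,1),(3,9),(18,0),(4,3),(3,4)]⟩⟩]⟩) (.Q [0,0,0,0,0,2,0,0,0,-1] (.pp true [-1,1])
  (.R ⟨0,false,false,true,[1,-1],[1,0,-1],[0,1,1],(⟨0,[(34,0)]⟩,⟨0,[(35,0)]⟩),(⟨0,[(30,0)]⟩,⟨0,[(31,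
  0)]⟩),⟨0,[(0,0)]⟩,.k,.k,(.r (-1) ⟨12,[(2,1),(0,5),(0,1),(5,11),(3,1),(18,2),(8,7)]⟩ ⟨0,[(5,0),(7,
  0),(25,0),(1,0)]⟩),.k,.k,.k,⟨true,0,⟨2,[(5,1),(4,0),(18,0),(9,1)]⟩,⟨0,[(9,0)]⟩⟩,⟨false,1,⟨3,[(1,
  1),(31,0),(8,2)]⟩,⟨0,[(28,0)]⟩⟩,⟨false,0,⟨0,[(5,0),(7,0),(25,0)]⟩,⟨19,[(1,9),(0,15),(3,3),(3,11),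
  (22,0),(8,14)]⟩⟩,⟨true,0,⟨0,[(27,0),(13,0)]⟩,⟨0,[(16,0)]⟩⟩,⟨false,0,⟨0,[]⟩,⟨0,[]⟩⟩,⟨false,0,⟨0,
  []⟩,⟨0,[]⟩⟩,[.o ⟨false,0,⟨0,[(27,0)]⟩,⟨5,[(5,1),(0,1),(3,1),(22,0),(9,2)]⟩⟩,.a ⟨true,0,⟨0,[(15,
  0)]⟩,⟨0,[(17,0)]⟩⟩ ⟨true,0,⟨1,[(28,0),(0,0)]⟩,⟨0,[]⟩⟩ ⟨false,1,⟨7,[(3,5),(0,1),(1,1),(7,1),(18,0),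
  (8,2)]⟩,⟨3,[(5,1),(4,0),(6,0),(10,1),(10,1)]⟩⟩,.o ⟨false,0,⟨1,[(28,0),(0,0)]⟩,⟨1,[(33,0),(8,0)]⟩⟩,
  .o ⟨false,0,⟨0,[(28,0),(0,0)]⟩,⟨4,[(1,4),(0,0),(1,4),(1,3),(3,1),(22,0)]⟩⟩]⟩) (.Q [0,1,0,-1,-1,0,
  -1,-1,0,2,-1] (.p false [-1,1,1] [1] (⟨0,[(19,0)]⟩,⟨0,[(30,0),(3,0)]⟩) .k 1 (⟨0,[]⟩,⟨0,[]⟩) .k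
  .k) (.R ⟨0,false,false,true,[1,0,-1],[2,-1,-1],[1,0,0,0,0,0,0,-1],(⟨0,[(31,0)]⟩,⟨0,[(32,0)]⟩),(⟨0,
  [(31,0),(3,0)]⟩,⟨0,[(20,0)]⟩),⟨0,[(20,0)]⟩,.k,.k,.k,.k,.k,.k,⟨true,0,⟨0,[(40,0),(1,0)]⟩,⟨0,[(41,
  0)]⟩⟩,⟨false,0,⟨0,[(26,0),(2,0)]⟩,⟨1,[(34,0),(8,0)]⟩⟩,⟨true,0,⟨0,[]⟩,⟨0,[(46,0)]⟩⟩,⟨false,0,⟨12,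
  [(0,5),(10,2),(3,0),(3,0),(7,3),(1,0),(14,4)]⟩,⟨1,[(34,0),(7,1),(1,0)]⟩⟩,⟨false,0,⟨0,[]⟩,⟨0,[]⟩⟩,
  ⟨false,0,⟨0,[]⟩,⟨0,[]⟩⟩,[.a ⟨true,(-1),⟨0,[(0,0)]⟩,⟨1,[(6,0),(0,0),(36,0)]⟩⟩ ⟨true,0,⟨0,[(10,0)]⟩,
  ⟨2,[(6,1),(4,0),(18,0),(9,1)]⟩⟩ ⟨false,0,⟨5,[(0,2),(4,1),(6,0),(0,0),(1,1),(11,0),(15,0)]⟩,⟨0,[(7,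
  0),(11,0)]⟩⟩,.o ⟨false,0,⟨5,[(0,1),(7,1),(2,0),(2,0),(0,1),(14,0)]⟩,⟨1,[(6,0),(0,0),(26,0)]⟩⟩,.e
  ⟨false,0,⟨0,[(3,0)]⟩,⟨11,[(6,7),(4,3),(7,1),(2,6),(0,6),(10,0),(9,3)]⟩⟩ ⟨false,0,⟨5,[(0,2),(2,0),
  (8,0),(2,1),(13,1),(14,0)]⟩,⟨0,[(7,0),(11,0)]⟩⟩,.o ⟨false,0,⟨0,[(30,0)]⟩,⟨29,[(5,5),(1,13),(3,1),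
  (3,9),(18,0),(4,3),(3,4)]⟩⟩]⟩) (.I [0,0,-1,0,1,-1,2] (.Q [0,0,-1,0,1,0,1,0,0,-2,1] (.p true [-1,1,
  1] [1] (⟨0,[(21,0)]⟩,⟨0,[(32,0),(3,0)]⟩) .k 1 (⟨0,[]⟩,⟨0,[]⟩) .k .k) (.R ⟨0,false,false,false,[-1,
  1,1],[1,0,-1],[1,0,1],(⟨0,[(22,0)]⟩,⟨0,[(33,0),(3,0)]⟩),(⟨0,[(33,0)]⟩,⟨0,[(34,0)]⟩),⟨0,[(33,0)]⟩,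
  .k,.k,.k,(.x (-1) ⟨0,[(1,0)]⟩ ⟨1,[(21,1),(0,1),(8,0),(0,0),(1,1)]⟩),.k,.k,⟨true,0,⟨2,[(8,1),(4,0),
  (18,0),(9,1)]⟩,⟨0,[(11,0)]⟩⟩,⟨false,0,⟨0,[(21,0),(6,0),(2,0)]⟩,⟨1,[(0,0),(6,0),(1,0),(4,0)]⟩⟩,
  ⟨true,0,⟨0,[(5,0),(37,0)]⟩,⟨0,[(8,0)]⟩⟩,⟨false,0,⟨1,[(5,0),(4,0),(2,0),(4,2)]⟩,⟨5,[(8,4),(0,4),(3,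
  1),(22,0)]⟩⟩,⟨false,0,⟨0,[]⟩,⟨0,[]⟩⟩,⟨false,0,⟨0,[]⟩,⟨0,[]⟩⟩,[.e ⟨false,0,⟨0,[]⟩,⟨3,[(8,1),(8,1),
  (27,0),(0,0)]⟩⟩ ⟨false,0,⟨1,[(18,1),(2,0),(6,0),(2,0)]⟩,⟨0,[(0,0),(19,0)]⟩⟩,.a ⟨true,0,⟨1,[(5,0),
  (12,0),(9,0),(13,0)]⟩,⟨0,[(29,0)]⟩⟩ ⟨true,0,⟨0,[(42,0)]⟩,⟨0,[(48,0)]⟩⟩ ⟨false,0,⟨0,[(18,0),(9,0),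
  (13,0)]⟩,⟨0,[(0,0),(28,0)]⟩⟩,.o ⟨false,1,⟨0,[(0,0)]⟩,⟨0,[(21,0),(9,0)]⟩⟩,.o ⟨false,1,⟨1,[(0,0),
  (30,0),(4,0)]⟩,⟨1,[(21,0),(6,0),(2,0)]⟩⟩]⟩) (.R ⟨0,false,false,false,[-1,1,1],[1,0,-1],[1,0,1],
  (⟨0,[(22,0)]⟩,⟨0,[(33,0),(3,0)]⟩),(⟨0,[(33,0)]⟩,⟨0,[(34,0)]⟩),⟨0,[(33,0)]⟩,.k,.k,.k,(.x (-1) ⟨0,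
  [(1,0)]⟩ ⟨1,[(21,1),(0,1),(8,0),(0,0),(1,1)]⟩),.k,.k,⟨true,0,⟨2,[(8,1),(4,0),(18,0),(9,1)]⟩,⟨0,
  [(11,0)]⟩⟩,⟨false,0,⟨4,[(0,1),(17,1),(2,3),(7,1),(15,0),(0,0)]⟩,⟨4,[(5,0),(1,4),(1,3),(3,1),(22,
  0)]⟩⟩,⟨true,0,⟨0,[(5,0),(37,0)]⟩,⟨0,[(8,0)]⟩⟩,⟨false,0,⟨1,[(5,0),(4,0),(2,0),(4,2)]⟩,⟨5,[(8,4),(0,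
  4),(3,1),(22,0)]⟩⟩,⟨false,0,⟨0,[]⟩,⟨0,[]⟩⟩,⟨false,0,⟨0,[]⟩,⟨0,[]⟩⟩,[.e ⟨false,0,⟨0,[]⟩,⟨3,[(8,1),
  (8,1),(27,0),(0,0)]⟩⟩ ⟨false,0,⟨9,[(0,1),(17,11),(2,3),(7,1),(15,0),(0,0)]⟩,⟨1,[(2,1),(4,1),(5,0),
  (6,0)]⟩⟩,.a ⟨true,0,⟨5,[(0,0),(4,2),(4,0),(7,1),(9,0),(17,0)]⟩,⟨0,[(29,0)]⟩⟩ ⟨true,0,⟨0,[(42,0)]⟩,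
  ⟨0,[(48,0)]⟩⟩ ⟨false,0,⟨2,[(0,0),(9,0),(7,1),(9,0),(17,0)]⟩,⟨4,[(7,0),(1,3),(3,1),(22,0),(4,3)]⟩⟩,
  .e ⟨false,0,⟨0,[(42,0)]⟩,⟨3,[(8,1),(8,1),(27,0),(0,0)]⟩⟩ ⟨false,0,⟨1,[(0,0),(15,0),(1,0),(2,0),
  (24,0)]⟩,⟨1,[(2,1),(4,1),(5,0),(6,0)]⟩⟩,.o ⟨false,1,⟨3,[(7,0),(1,0),(4,0),(16,0),(4,2)]⟩,⟨9,[(0,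
  1),(17,1),(2,3),(7,1),(15,0),(0,0)]⟩⟩]⟩)) (.I [0,0,1,0,-1,1,-2] (.Q [0,0,-1,0,1,0,1,0,0,-2,1] (.p
  true [-1,1,1] [1] (⟨0,[(22,0)]⟩,⟨0,[(33,0),(3,0)]⟩) .k 1 (⟨0,[]⟩,⟨0,[]⟩) .k .k) (.R ⟨0,false,
  false,false,[-1,1,1],[1,0,-1],[1,0,1],(⟨0,[(23,0)]⟩,⟨0,[(34,0),(3,0)]⟩),(⟨0,[(34,0)]⟩,⟨0,[(35,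
  0)]⟩),⟨0,[(34,0)]⟩,.k,.k,.k,(.x (-2) ⟨15,[(0,2),(3,7),(5,11),(7,11),(13,4),(1,31),(2,4),(4,5)]⟩
  ⟨0,[(1,0)]⟩),.k,.k,⟨true,0,⟨2,[(9,1),(4,0),(18,0),(9,1)]⟩,⟨0,[(12,0)]⟩⟩,⟨false,0,⟨8,[(2,1),(16,3),
  (2,5),(6,1),(0,3),(3,3),(3,1),(8,1)]⟩,⟨1,[(0,0),(7,0),(1,0),(4,0)]⟩⟩,⟨true,0,⟨0,[(6,0),(37,0)]⟩,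
  ⟨0,[(9,0)]⟩⟩,⟨false,0,⟨1,[(6,0),(4,0),(2,0),(4,2)]⟩,⟨5,[(9,4),(0,4),(3,1),(22,0)]⟩⟩,⟨false,0,⟨0,
  []⟩,⟨0,[]⟩⟩,⟨false,0,⟨0,[]⟩,⟨0,[]⟩⟩,[.e ⟨false,0,⟨0,[]⟩,⟨3,[(9,1),(8,1),(27,0),(0,0)]⟩⟩ ⟨false,0,
  ⟨8,[(2,0),(16,10),(2,2),(6,0),(0,1),(3,1),(3,0),(8,0)]⟩,⟨0,[(0,0),(20,0)]⟩⟩,.a ⟨true,0,⟨6,[(2,0),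
  (3,3),(4,0),(7,1),(9,0),(4,1),(3,0),(8,0)]⟩,⟨0,[(30,0)]⟩⟩ ⟨true,0,⟨0,[(43,0)]⟩,⟨0,[(49,0)]⟩⟩
  ⟨false,0,⟨6,[(2,1),(3,0),(4,1),(7,3),(9,1),(4,3),(3,1),(8,1)]⟩,⟨0,[(0,0),(29,0)]⟩⟩,.o ⟨false,1,⟨0,
  [(0,0)]⟩,⟨0,[(22,0),(9,0)]⟩⟩,.o ⟨false,1,⟨1,[(0,0),(31,0),(4,0)]⟩,⟨8,[(2,0),(16,1),(2,2),(6,0),(0,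
  1),(3,1),(3,0),(8,0)]⟩⟩]⟩) (.R ⟨0,false,false,false,[-1,1,1],[1,0,-1],[1,0,1],(⟨0,[(23,0)]⟩,⟨0,
  [(34,0),(3,0)]⟩),(⟨0,[(34,0)]⟩,⟨0,[(35,0)]⟩),⟨0,[(34,0)]⟩,.k,.k,.k,(.x (-2) ⟨31,[(4,15),(3,2),(1,
  26),(4,2),(2,23),(13,6),(1,63),(2,12),(4,11)]⟩ ⟨0,[(1,0)]⟩),.k,.k,⟨true,0,⟨5,[(0,1),(2,1),(5,1),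
  (4,1),(17,0),(0,2)]⟩,⟨0,[(12,0)]⟩⟩,⟨false,0,⟨5,[(0,3),(8,1),(8,1),(3,3),(23,0),(0,0)]⟩,⟨4,[(6,0),
  (1,4),(1,3),(3,1),(22,0)]⟩⟩,⟨true,0,⟨0,[(6,0),(37,0)]⟩,⟨0,[(9,0)]⟩⟩,⟨false,0,⟨1,[(6,0),(4,0),(2,
  0),(4,2)]⟩,⟨5,[(9,4),(0,4),(3,1),(22,0)]⟩⟩,⟨false,0,⟨0,[]⟩,⟨0,[]⟩⟩,⟨false,0,⟨0,[]⟩,⟨0,[]⟩⟩,[.e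
  ⟨false,0,⟨0,[]⟩,⟨3,[(9,1),(8,1),(27,0),(0,0)]⟩⟩ ⟨false,0,⟨11,[(0,3),(8,1),(8,1),(0,11),(2,3),(23,
  0),(0,0)]⟩,⟨1,[(3,1),(4,1),(5,0),(6,0)]⟩⟩,.a ⟨true,0,⟨3,[(0,0),(5,1),(0,0),(11,0),(27,0)]⟩,⟨0,
  [(30,0)]⟩⟩ ⟨true,0,⟨0,[(43,0)]⟩,⟨0,[(49,0)]⟩⟩ ⟨false,0,⟨1,[(0,0),(6,0),(11,0),(27,0)]⟩,⟨4,[(8,0),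
  (1,3),(3,1),(22,0),(4,3)]⟩⟩,.e ⟨false,0,⟨0,[(43,0)]⟩,⟨3,[(9,1),(8,1),(27,0),(0,0)]⟩⟩ ⟨false,0,⟨1,
  [(0,0),(16,0),(1,0),(2,0),(24,0)]⟩,⟨1,[(3,1),(4,1),(5,0),(6,0)]⟩⟩,.o ⟨false,1,⟨3,[(8,0),(1,0),(4,
  0),(16,0),(4,2)]⟩,⟨11,[(0,3),(8,1),(8,1),(3,3),(23,0),(0,0)]⟩⟩]⟩)) (.Q [1,0,0,0,0,0,1,1,1,-1,1,1]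
  (.p true [0,0,1] [1,0,0,0,-1] (⟨0,[(34,0)]⟩,⟨0,[(33,0)]⟩) .k 2 (⟨0,[(26,0)]⟩,⟨0,[(27,0)]⟩) .k (.r
  (-1) ⟨11,[(8,7),(4,3),(7,1),(2,6),(0,6),(10,0),(9,3)]⟩ ⟨0,[(5,1),(7,0),(18,0),(8,0),(2,1)]⟩)) (.Q
  [0,0,0,0,0,1,0,0,0,0,0,-1] (.ed true [1,-1,0,0,1] .k) (.Q [0,0,-1,0,0,0,1,1,1,-1,1,1] (.p true [0,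
  0,1] [1,0,0,0,-1] (⟨0,[(36,0)]⟩,⟨0,[(35,0)]⟩) .k 2 (⟨0,[(28,0)]⟩,⟨0,[(29,0)]⟩) .k (.r (-1) ⟨11,
  [(10,7),(4,3),(7,1),(2,6),(0,6),(10,0),(9,3)]⟩ ⟨0,[(7,1),(7,0),(18,0),(8,0),(2,1)]⟩)) (.R ⟨1,
  false,false,true,[1,0,0,0,-1],[0,0,1],[-1,1],(⟨0,[(29,0)]⟩,⟨0,[(30,0)]⟩),(⟨0,[(37,0)]⟩,⟨0,[(36,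
  0)]⟩),⟨0,[(1,0),(4,0)]⟩,.k,.k,(.r (-1) ⟨23,[(11,5),(4,7),(3,13),(3,3),(14,1),(8,4),(0,2)]⟩ ⟨1,
  [(11,0),(7,0),(25,0),(1,0)]⟩),.k,(.r (-1) ⟨3,[(4,13),(1,6),(0,0),(0,33),(7,29),(19,27),(6,17),(0,
  16),(2,55)]⟩ ⟨0,[(11,0),(33,0)]⟩),.k,⟨true,0,⟨0,[(8,1),(7,0),(18,0),(8,0),(2,1)]⟩,⟨2,[(11,1),(4,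
  0),(18,0),(9,1)]⟩⟩,⟨false,0,⟨0,[(0,0),(13,0)]⟩,⟨8,[(4,0),(16,1),(2,2),(2,8),(3,0),(0,1),(3,1),(3,
  0),(8,0)]⟩⟩,⟨true,0,⟨0,[(51,0)]⟩,⟨0,[]⟩⟩,⟨false,0,⟨0,[(2,0)]⟩,⟨18,[(4,0),(3,9),(4,6),(7,1),(5,18),
  (3,0),(4,1),(1,5),(1,6),(8,0)]⟩⟩,⟨false,0,⟨0,[(47,0)]⟩,⟨5,[(16,1),(3,1),(6,0),(0,0),(6,1),(13,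
  2)]⟩⟩,⟨false,0,⟨0,[(2,0),(44,0)]⟩,⟨7,[(6,0),(1,2),(4,4),(0,1),(1,3),(4,1),(5,7),(10,1)]⟩⟩,[.a
  ⟨true,0,⟨0,[(32,0)]⟩,⟨6,[(4,0),(3,3),(4,0),(7,1),(9,0),(4,1),(3,0),(8,0)]⟩⟩ ⟨true,0,⟨0,[(51,0)]⟩,
  ⟨0,[(45,0)]⟩⟩ ⟨false,0,⟨1,[(0,0),(1,0),(41,0)]⟩,⟨6,[(4,0),(3,3),(4,0),(7,1),(5,6),(3,0),(4,1),(3,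
  0),(8,0)]⟩⟩,.e ⟨false,1,⟨3,[(11,1),(8,1),(27,0),(0,0)]⟩,⟨0,[]⟩⟩ ⟨false,0,⟨0,[(0,0)]⟩,⟨0,[(21,0),
  (5,0)]⟩⟩,.o ⟨false,1,⟨0,[(27,0)]⟩,⟨2,[(0,1),(1,0),(5,0),(5,0),(18,0),(1,1)]⟩⟩,.e ⟨false,1,⟨3,[(11,
  1),(8,1),(27,0),(0,0)]⟩,⟨0,[(45,0)]⟩⟩ ⟨false,0,⟨0,[(0,0)]⟩,⟨0,[(21,0),(5,0),(17,0)]⟩⟩]⟩) (.Q [-1,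
  1,0,0,0,0,0,0,-1,1,0,-1] (.p false [0,0,0,0,1] [1] (⟨0,[(30,0)]⟩,⟨0,[(29,0)]⟩) .k 1 (⟨0,[]⟩,⟨0,
  []⟩) .k .k) (.K ⟨0,[1,0,0,0,-1],0,0,(⟨0,[(30,0)]⟩,⟨0,[(31,0)]⟩),.k,(.r (-1) ⟨23,[(12,5),(4,7),(3,
  13),(3,3),(14,1),(8,4),(0,2)]⟩ ⟨1,[(12,0),(7,0),(25,0),(1,0)]⟩),(.r 0 ⟨0,[(48,0),(2,0)]⟩ ⟨23,[(12,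
  5),(4,7),(3,13),(3,3),(14,1),(8,4),(0,2)]⟩),.k,.k,[⟨0,[(3,0),(11,0)]⟩,⟨0,[(0,0),(45,0)]⟩,⟨0,[(3,
  0),(30,0)]⟩,⟨0,[(0,0)]⟩]⟩) (.R ⟨0,false,false,false,[0,0,0,0,1],[0,0,1],[2],(⟨0,[(31,0)]⟩,⟨0,[(30,
  0)]⟩),(⟨0,[(38,0)]⟩,⟨0,[(37,0)]⟩),⟨0,[(2,0)]⟩,.k,.k,(.r (-1) ⟨23,[(12,5),(4,7),(3,13),(3,3),(14,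
  1),(8,4),(0,2)]⟩ ⟨0,[(48,0),(2,0)]⟩),.k,.k,.k,⟨true,0,⟨0,[(15,0)]⟩,⟨1,[(12,0),(4,0),(18,0),(9,0),
  (1,0)]⟩⟩,⟨false,1,⟨1,[(1,1),(9,1),(1,1),(3,0),(6,0),(7,1)]⟩,⟨6,[(0,2),(24,2),(3,3),(6,0),(8,0),(6,
  0)]⟩⟩,⟨true,0,⟨0,[]⟩,⟨0,[(52,0)]⟩⟩,⟨false,1,⟨0,[(1,0),(11,0),(3,0),(14,0),(15,0)]⟩,⟨1,[(0,0),(21,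
  0),(6,0),(4,0)]⟩⟩,⟨false,0,⟨0,[]⟩,⟨0,[]⟩⟩,⟨false,0,⟨0,[]⟩,⟨0,[]⟩⟩,[.a ⟨true,0,⟨0,[(24,0)]⟩,⟨0,
  [(22,0)]⟩⟩ ⟨true,0,⟨0,[]⟩,⟨0,[(51,0)]⟩⟩ ⟨false,1,⟨1,[(1,1),(4,1),(4,1),(5,0),(6,2),(7,1)]⟩,⟨3,[(0,
  0),(13,0),(0,0),(13,2),(4,1)]⟩⟩,.o ⟨false,1,⟨5,[(12,1),(0,1),(3,1),(22,0),(9,2)]⟩,⟨0,[(34,0)]⟩⟩,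
  .o ⟨false,0,⟨3,[(0,2),(2,0),(30,0),(17,1)]⟩,⟨0,[(28,0)]⟩⟩,.o ⟨false,0,⟨7,[(0,2),(2,4),(16,1),(13,
  2),(1,1),(14,3)]⟩,⟨1,[(1,1),(4,1),(4,1),(5,0),(6,0),(7,1)]⟩⟩]⟩))) (.Q [-1,1,0,0,0,0,0,0,-1,1,0,
  -1] (.p false [0,0,0,0,1] [1] (⟨0,[(29,0)]⟩,⟨0,[(28,0)]⟩) .k 1 (⟨0,[]⟩,⟨0,[]⟩) .k .k) (.K ⟨0,[1,0,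
  0,0,-1],0,0,(⟨0,[(29,0)]⟩,⟨0,[(30,0)]⟩),.k,(.r (-1) ⟨23,[(11,5),(4,7),(3,13),(3,3),(14,1),(8,4),
  (0,2)]⟩ ⟨1,[(11,0),(7,0),(25,0),(1,0)]⟩),(.r 0 ⟨0,[(47,0),(2,0)]⟩ ⟨23,[(11,5),(4,7),(3,13),(3,3),
  (14,1),(8,4),(0,2)]⟩),.k,.k,[⟨0,[(2,0),(11,0)]⟩,⟨0,[(0,0),(44,0)]⟩,⟨0,[(2,0),(30,0)]⟩,⟨0,[(0,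
  0)]⟩]⟩) (.Q [0,0,-1,0,1,0,1,1,-1,0,1,-1] (.p true [0,0,1] [0,0,0,0,1] (⟨0,[(37,0)]⟩,⟨0,[(36,0)]⟩)
  .k 2 (⟨0,[(30,0)]⟩,⟨0,[(29,0)]⟩) .k (.r (-1) ⟨11,[(11,7),(4,3),(7,1),(2,6),(0,6),(10,0),(9,3)]⟩
  ⟨0,[(15,0)]⟩)) (.R ⟨1,false,false,true,[0,0,0,0,1],[0,0,1],[1],(⟨0,[(31,0)]⟩,⟨0,[(30,0)]⟩),(⟨0,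
  [(38,0)]⟩,⟨0,[(37,0)]⟩),⟨0,[(2,0)]⟩,.k,.k,(.r (-1) ⟨23,[(12,5),(4,7),(3,13),(3,3),(14,1),(8,4),(0,
  2)]⟩ ⟨0,[(48,0),(2,0)]⟩),.k,(.r (-1) ⟨0,[(21,0)]⟩ ⟨0,[(17,0),(18,0),(11,2)]⟩),.k,⟨true,0,⟨0,[(9,
  0)]⟩,⟨0,[(33,0),(2,0)]⟩⟩,⟨false,1,⟨0,[(0,0),(14,0)]⟩,⟨6,[(1,2),(23,2),(3,3),(6,0),(8,0),(6,0)]⟩⟩,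
  ⟨false,1,⟨1,[(28,0),(0,0),(20,0)]⟩,⟨0,[]⟩⟩,⟨false,1,⟨11,[(0,8),(11,1),(4,0),(10,2),(6,1),(10,1),
  (4,4)]⟩,⟨0,[(1,0),(20,0)]⟩⟩,⟨true,0,⟨0,[(48,0)]⟩,⟨0,[(47,0)]⟩⟩,⟨false,1,⟨2,[(0,1),(11,0),(15,0),
  (6,0),(10,0),(1,1)]⟩,⟨1,[(1,1),(8,0),(6,0),(2,0),(1,0)]⟩⟩,[.a ⟨true,0,⟨0,[(33,0)]⟩,⟨6,[(5,0),(3,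
  3),(4,0),(7,1),(9,0),(4,1),(3,0),(8,0)]⟩⟩ ⟨true,0,⟨0,[]⟩,⟨1,[(35,0),(0,0)]⟩⟩ ⟨false,1,⟨2,[(0,1),
  (27,0),(4,0),(11,0)]⟩,⟨1,[(1,0),(12,0),(0,0),(13,0)]⟩⟩,.e ⟨false,1,⟨1,[(49,0),(0,0)]⟩,⟨0,[(52,
  0)]⟩⟩ ⟨false,1,⟨0,[(0,0)]⟩,⟨3,[(1,0),(12,0),(0,0),(13,2),(4,1)]⟩⟩,.o ⟨false,0,⟨3,[(1,2),(1,0),(30,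
  0),(17,1)]⟩,⟨0,[(28,0)]⟩⟩,.e ⟨false,1,⟨1,[(49,0),(0,0)]⟩,⟨1,[(35,0),(0,0)]⟩⟩ ⟨false,1,⟨0,[(0,0)]⟩,
  ⟨8,[(1,3),(12,3),(5,4),(8,4),(6,0),(9,0),(4,1)]⟩⟩]⟩) (.Q [0,0,-1,0,1,0,1,0,-1,0,1,-1] (.p true [0,
  0,1] [0,0,0,0,1] (⟨0,[(38,0)]⟩,⟨0,[(37,0)]⟩) .k 2 (⟨0,[(31,0)]⟩,⟨0,[(30,0)]⟩) .k (.r (-1) ⟨11,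
  [(12,7),(4,3),(7,1),(2,6),(0,6),(10,0),(9,3)]⟩ ⟨0,[(16,0)]⟩)) (.I [0,0,-1,-1,0,0,0,-2] (.Q [0,0,
  -1,0,1,0,1,0,0,-2,1] (.p true [-1,1,1] [1] (⟨0,[(28,0)]⟩,⟨0,[(39,0),(3,0)]⟩) .k 1 (⟨0,[]⟩,⟨0,[]⟩)
  .k .k) (.R ⟨0,false,false,false,[-1,1,1],[1,0,-1],[1,0,1],(⟨0,[(29,0)]⟩,⟨0,[(40,0),(3,0)]⟩),(⟨0,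
  [(40,0)]⟩,⟨0,[(41,0)]⟩),⟨0,[(40,0)]⟩,.k,.k,.k,(.r (-1) ⟨0,[(15,0),(20,0),(2,0),(13,0)]⟩ ⟨0,[(1,
  0)]⟩),.k,.k,⟨true,0,⟨2,[(15,1),(4,0),(18,0),(9,1)]⟩,⟨0,[(18,0)]⟩⟩,⟨false,0,⟨8,[(8,1),(16,3),(2,5),
  (6,1),(0,3),(3,3),(3,1),(8,1)]⟩,⟨1,[(0,0),(0,0),(14,0),(19,0)]⟩⟩,⟨true,0,⟨3,[(1,1),(18,0),(2,0),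
  (15,0)]⟩,⟨0,[(15,0)]⟩⟩,⟨false,0,⟨1,[(12,0),(4,0),(2,0),(4,2)]⟩,⟨5,[(15,4),(0,4),(3,1),(22,0)]⟩⟩,
  ⟨false,0,⟨0,[]⟩,⟨0,[]⟩⟩,⟨false,0,⟨0,[]⟩,⟨0,[]⟩⟩,[.e ⟨false,0,⟨0,[]⟩,⟨3,[(15,1),(8,1),(27,0),(0,
  0)]⟩⟩ ⟨false,0,⟨8,[(8,0),(16,10),(2,2),(6,0),(0,1),(3,1),(3,0),(8,0)]⟩,⟨0,[(0,0),(26,0)]⟩⟩,.a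
  ⟨true,0,⟨6,[(8,0),(3,3),(4,0),(7,1),(9,0),(4,1),(3,0),(8,0)]⟩,⟨0,[(36,0)]⟩⟩ ⟨true,0,⟨0,[(49,0)]⟩,
  ⟨0,[(55,0)]⟩⟩ ⟨false,0,⟨6,[(8,1),(3,0),(4,1),(7,3),(9,1),(4,3),(3,1),(8,1)]⟩,⟨0,[(0,0),(35,0)]⟩⟩,
  .o ⟨false,1,⟨0,[(0,0)]⟩,⟨0,[(28,0),(9,0)]⟩⟩,.o ⟨false,1,⟨1,[(0,0),(37,0),(4,0)]⟩,⟨8,[(8,0),(16,1),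
  (2,2),(6,0),(0,1),(3,1),(3,0),(8,0)]⟩⟩]⟩) (.R ⟨0,false,false,false,[-1,1,1],[1,0,-1],[1,0,1],(⟨0,
  [(29,0)]⟩,⟨0,[(40,0),(3,0)]⟩),(⟨0,[(40,0)]⟩,⟨0,[(41,0)]⟩),⟨0,[(40,0)]⟩,.k,.k,.k,(.r (-1) ⟨0,[(15,
  0),(20,0),(2,0),(13,0)]⟩ ⟨0,[(1,0)]⟩),.k,.k,⟨true,0,⟨5,[(0,1),(8,1),(5,1),(4,1),(17,0),(0,2)]⟩,⟨0,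
  [(18,0)]⟩⟩,⟨false,0,⟨5,[(0,3),(14,1),(8,1),(3,3),(23,0),(0,0)]⟩,⟨10,[(1,5),(14,9),(3,1),(22,0),(4,
  4)]⟩⟩,⟨true,0,⟨3,[(1,1),(18,0),(2,0),(15,0)]⟩,⟨0,[(15,0)]⟩⟩,⟨false,0,⟨35,[(0,22),(0,11),(15,25),
  (2,2),(2,6),(0,17),(28,4)]⟩,⟨5,[(15,4),(0,4),(3,1),(22,0)]⟩⟩,⟨false,0,⟨0,[]⟩,⟨0,[]⟩⟩,⟨false,0,⟨0,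
  []⟩,⟨0,[]⟩⟩,[.e ⟨false,0,⟨0,[]⟩,⟨3,[(15,1),(8,1),(27,0),(0,0)]⟩⟩ ⟨false,0,⟨11,[(0,3),(14,1),(8,1),
  (0,11),(2,3),(23,0),(0,0)]⟩,⟨3,[(1,1),(7,3),(10,0),(6,2),(20,1)]⟩⟩,.a ⟨true,0,⟨3,[(0,0),(11,1),(0,
  0),(11,0),(27,0)]⟩,⟨0,[(36,0)]⟩⟩ ⟨true,0,⟨0,[(49,0)]⟩,⟨0,[(55,0)]⟩⟩ ⟨false,0,⟨1,[(0,0),(12,0),(11,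
  0),(27,0)]⟩,⟨10,[(1,0),(14,8),(3,3),(22,1),(4,9)]⟩⟩,.e ⟨false,0,⟨0,[(49,0)]⟩,⟨3,[(15,1),(8,1),(27,
  0),(0,0)]⟩⟩ ⟨false,0,⟨1,[(0,0),(22,0),(1,0),(2,0),(24,0)]⟩,⟨3,[(1,1),(7,3),(10,0),(6,2),(20,1)]⟩⟩,
  .o ⟨false,1,⟨6,[(1,0),(14,1),(4,0),(16,1),(4,4),(4,0)]⟩,⟨11,[(0,3),(14,1),(8,1),(3,3),(23,0),(0,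
  0)]⟩⟩]⟩)) (.Q [0,1,-1,0,1,0,1,1,-1,0,1,-1] (.p true [0,0,1] [0,0,0,0,1] (⟨0,[(40,0)]⟩,⟨0,[(39,
  0)]⟩) .k 2 (⟨0,[(33,0)]⟩,⟨0,[(32,0)]⟩) .k (.r (-1) ⟨3,[(7,13),(1,6),(0,0),(0,25),(7,29),(19,27),
  (6,17),(0,12),(2,59)]⟩ ⟨0,[(18,0)]⟩)) (.R ⟨1,false,false,true,[0,0,0,0,1],[0,0,1],[1],(⟨0,[(34,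
  0)]⟩,⟨0,[(33,0)]⟩),(⟨0,[(41,0)]⟩,⟨0,[(40,0)]⟩),⟨0,[(5,0)]⟩,.k,.k,(.r (-1) ⟨14,[(1,2),(18,3),(3,9),
  (3,1),(14,0),(8,3)]⟩ ⟨0,[(12,1),(7,1),(18,1),(8,0),(2,4)]⟩),.k,(.r (-1) ⟨0,[(24,0)]⟩ ⟨0,[(20,0),
  (18,0),(11,2)]⟩),.k,⟨true,0,⟨0,[(12,0)]⟩,⟨4,[(1,2),(13,0),(7,1),(26,3)]⟩⟩,⟨false,1,⟨0,[(2,0)]⟩,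
  ⟨17,[(3,2),(2,2),(4,2),(16,5),(3,11),(10,1),(3,0)]⟩⟩,⟨false,1,⟨1,[(31,0),(0,0),(20,0)]⟩,⟨0,[]⟩⟩,
  ⟨false,1,⟨2,[(1,0),(0,1),(17,0),(10,0),(19,0),(2,0)]⟩,⟨0,[(4,0),(20,0)]⟩⟩,⟨true,0,⟨0,[(51,0)]⟩,⟨0,
  [(50,0)]⟩⟩,⟨false,1,⟨7,[(1,3),(0,6),(28,0),(6,0),(12,3),(2,1)]⟩,⟨2,[(3,1),(0,0),(8,0),(6,0),(3,0),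
  (28,0)]⟩⟩,[.a ⟨true,0,⟨0,[(36,0)]⟩,⟨6,[(8,0),(3,3),(4,0),(7,1),(9,0),(4,1),(3,0),(8,0)]⟩⟩ ⟨true,0,
  ⟨0,[]⟩,⟨1,[(38,0),(0,0)]⟩⟩ ⟨false,1,⟨0,[(0,0)]⟩,⟨3,[(3,1),(0,1),(20,1),(26,0),(0,0)]⟩⟩,.a ⟨true,0,
  ⟨0,[(27,0)]⟩,⟨0,[(25,0)]⟩⟩ ⟨false,1,⟨1,[(52,0),(0,0)]⟩,⟨0,[(55,0)]⟩⟩ ⟨true,1,⟨4,[(1,1),(0,2),(17,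
  0),(10,1),(6,0)]⟩,⟨0,[(3,0)]⟩⟩,.o ⟨false,0,⟨14,[(3,2),(0,5),(1,2),(25,2),(10,0),(3,1),(0,2)]⟩,⟨0,
  [(31,0)]⟩⟩,.a ⟨true,(-1),⟨0,[(3,0),(23,0)]⟩,⟨6,[(0,1),(1,3),(5,0),(16,1),(5,0),(3,1),(4,1),(3,0),
  (8,0)]⟩⟩ ⟨false,1,⟨1,[(52,0),(0,0)]⟩,⟨1,[(38,0),(0,0)]⟩⟩ ⟨true,1,⟨0,[(0,0)]⟩,⟨0,[(3,0)]⟩⟩]⟩) (.R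
  ⟨1,false,false,true,[0,0,0,0,1],[0,0,1],[1],(⟨0,[(34,0)]⟩,⟨0,[(33,0)]⟩),(⟨0,[(41,0)]⟩,⟨0,[(40,
  0)]⟩),⟨0,[(5,0)]⟩,.k,.k,(.r (-1) ⟨14,[(1,2),(18,3),(3,9),(3,1),(14,0),(8,3)]⟩ ⟨0,[(0,11),(0,4),(0,
  11),(17,1),(18,1),(8,5)]⟩),.k,(.r (-1) ⟨0,[(24,0)]⟩ ⟨0,[(0,5),(0,2),(0,5),(17,0),(18,0),(8,2)]⟩),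
  .k,⟨true,0,⟨0,[(12,0)]⟩,⟨4,[(1,2),(13,0),(7,1),(26,3)]⟩⟩,⟨false,1,⟨0,[(2,0)]⟩,⟨17,[(3,2),(2,2),(4,
  2),(16,5),(3,11),(10,1),(3,0)]⟩⟩,⟨false,1,⟨1,[(31,0),(0,0),(20,0)]⟩,⟨0,[]⟩⟩,⟨false,1,⟨2,[(1,0),(0,
  1),(17,0),(10,0),(19,0),(2,0)]⟩,⟨0,[(4,0),(20,0)]⟩⟩,⟨true,0,⟨0,[(51,0)]⟩,⟨0,[(50,0)]⟩⟩,⟨false,1,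
  ⟨7,[(1,3),(0,6),(28,0),(6,0),(12,3),(2,1)]⟩,⟨23,[(0,14),(3,6),(6,0),(8,4),(3,13),(3,5),(3,1),(20,
  0)]⟩⟩,[.e ⟨true,0,⟨0,[]⟩,⟨1,[(38,0),(0,0)]⟩⟩ ⟨true,1,⟨0,[(31,0),(4,0)]⟩,⟨0,[(0,0)]⟩⟩,.a ⟨true,0,
  ⟨0,[(27,0)]⟩,⟨0,[(25,0)]⟩⟩ ⟨false,1,⟨1,[(52,0),(0,0)]⟩,⟨0,[(55,0)]⟩⟩ ⟨true,1,⟨4,[(1,1),(0,2),(17,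
  0),(10,1),(6,0)]⟩,⟨0,[(3,0)]⟩⟩,.o ⟨false,0,⟨14,[(3,2),(0,5),(1,2),(25,2),(10,0),(3,1),(0,2)]⟩,⟨0,
  [(31,0)]⟩⟩,.e ⟨false,1,⟨1,[(52,0),(0,0)]⟩,⟨1,[(38,0),(0,0)]⟩⟩ ⟨false,2,⟨1,[(31,1),(4,1),(15,0),(0,
  0)]⟩,⟨0,[(0,0)]⟩⟩]⟩))) (.K ⟨0,[0,0,0,0,1],(-1),(-1),(⟨0,[(32,0)]⟩,⟨0,[(31,0)]⟩),.k,(.r (-1) ⟨23,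
  [(13,5),(4,7),(3,13),(3,3),(14,1),(8,4),(0,2)]⟩ ⟨0,[(49,0),(2,0)]⟩),(.r 0 ⟨1,[(13,0),(7,0),(25,0),
  (1,0)]⟩ ⟨23,[(13,5),(4,7),(3,13),(3,3),(14,1),(8,4),(0,2)]⟩),.k,.k,[⟨0,[(20,0),(8,0)]⟩,⟨0,[(1,0),
  (23,0)]⟩,⟨0,[(29,0),(23,0)]⟩,⟨0,[(0,0),(11,0),(12,0)]⟩]⟩))))) (.Q [-1,0,2,0,-1,0,-1,0,-1,2,-1,-1]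
  (.p false [-1,1,1] [1,0,0,0,-1] (⟨0,[(23,0)]⟩,⟨0,[(34,0),(3,0)]⟩) .k 2 (⟨0,[(27,0)]⟩,⟨0,[(28,
  0)]⟩) .k (.r (-1) ⟨11,[(9,7),(4,3),(7,1),(2,6),(0,6),(10,0),(9,3)]⟩ ⟨0,[(6,1),(7,0),(18,0),(8,0),
  (2,1)]⟩)) (.R ⟨0,false,false,true,[1,0,-1],[0,0,0,0,1],[1,0,1],(⟨0,[(35,0)]⟩,⟨0,[(36,0)]⟩),(⟨0,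
  [(29,0)]⟩,⟨0,[(28,0)]⟩),⟨0,[(24,0)]⟩,.k,.k,.k,.k,.k,.k,⟨true,0,⟨0,[(7,0),(7,0),(18,0),(11,1)]⟩,⟨0,
  [(50,0)]⟩⟩,⟨false,1,⟨29,[(9,5),(1,13),(3,1),(3,9),(7,29),(10,0),(4,3),(3,4)]⟩,⟨3,[(0,1),(0,1),(2,
  1),(1,1),(2,1),(5,0),(6,0)]⟩⟩,⟨true,0,⟨2,[(0,0),(3,0),(5,0),(4,0),(11,0),(6,0)]⟩,⟨0,[(7,0),(35,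
  0)]⟩⟩,⟨false,1,⟨1,[(27,1),(3,1),(6,0),(9,0)]⟩,⟨3,[(0,1),(0,1),(2,1),(1,1),(0,3),(1,1),(5,0),(6,
  0)]⟩⟩,⟨false,0,⟨0,[]⟩,⟨0,[]⟩⟩,⟨false,0,⟨0,[]⟩,⟨0,[]⟩⟩,[.e ⟨false,0,⟨0,[]⟩,⟨3,[(10,1),(8,1),(27,0),
  (0,0)]⟩⟩ ⟨false,1,⟨11,[(10,0),(0,4),(7,5),(7,11),(5,1),(4,0),(4,7)]⟩,⟨1,[(0,1),(3,1),(1,1),(0,1),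
  (1,1),(5,0),(6,0)]⟩⟩,.a ⟨true,0,⟨0,[(27,0)]⟩,⟨0,[(1,0),(20,0)]⟩⟩ ⟨true,0,⟨0,[(44,0)]⟩,⟨0,[(50,
  0)]⟩⟩ ⟨false,1,⟨29,[(9,5),(1,13),(3,1),(3,9),(7,29),(10,0),(4,3),(3,4)]⟩,⟨3,[(0,1),(0,1),(2,1),(1,
  1),(2,1),(5,0),(6,0)]⟩⟩,.e ⟨false,0,⟨0,[(44,0)]⟩,⟨3,[(10,1),(8,1),(27,0),(0,0)]⟩⟩ ⟨false,1,⟨3,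
  [(10,0),(0,0),(7,1),(7,3),(5,1),(4,0)]⟩,⟨1,[(0,1),(3,1),(1,1),(0,1),(1,1),(5,0),(6,0)]⟩⟩,.o
  ⟨false,0,⟨0,[(34,0)]⟩,⟨29,[(9,5),(1,13),(3,1),(3,9),(18,0),(4,3),(3,4)]⟩⟩]⟩) (.Q [0,0,-1,0,1,0,1,
  0,0,-2,1] (.p true [-1,1,1] [1] (⟨0,[(24,0)]⟩,⟨0,[(35,0),(3,0)]⟩) .k 1 (⟨0,[]⟩,⟨0,[]⟩) .k .k) (.R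
  ⟨0,false,false,true,[-1,1,1],[1,0,0,0,-1],[1,0,1],(⟨0,[(25,0)]⟩,⟨0,[(36,0),(3,0)]⟩),(⟨0,[(29,0)]⟩,
  ⟨0,[(30,0)]⟩),⟨0,[(36,0)]⟩,.k,.k,.k,(.r 0 ⟨0,[(11,0),(33,0)]⟩ ⟨3,[(4,13),(1,6),(0,0),(0,33),(7,
  29),(19,27),(6,17),(0,16),(2,55)]⟩),.k,.k,⟨true,0,⟨0,[(45,0)]⟩,⟨0,[(51,0)]⟩⟩,⟨false,0,⟨2,[(2,1),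
  (1,0),(18,1),(3,0),(3,0),(4,1),(3,0)]⟩,⟨8,[(1,5),(26,2),(5,2),(4,0),(3,1)]⟩⟩,⟨true,0,⟨0,[(8,0),
  (37,0)]⟩,⟨0,[(11,0)]⟩⟩,⟨false,0,⟨1,[(2,1),(13,0),(4,0),(9,0),(2,0)]⟩,⟨0,[(5,0),(22,0)]⟩⟩,⟨false,0,
  ⟨0,[]⟩,⟨0,[]⟩⟩,⟨false,0,⟨0,[]⟩,⟨0,[]⟩⟩,[.e ⟨false,0,⟨0,[]⟩,⟨3,[(11,1),(8,1),(27,0),(0,0)]⟩⟩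
  ⟨false,0,⟨16,[(2,13),(1,2),(16,2),(2,3),(2,2),(3,2),(0,16),(3,5),(1,0),(1,3)]⟩,⟨0,[(1,0),(43,
  0)]⟩⟩,.a ⟨true,0,⟨0,[(2,0),(20,0)]⟩,⟨0,[(28,0)]⟩⟩ ⟨true,0,⟨0,[(45,0)]⟩,⟨0,[(51,0)]⟩⟩ ⟨false,0,⟨19,
  [(2,15),(1,5),(6,1),(4,0),(6,10),(3,3),(3,5),(0,1),(3,11),(3,5),(8,1)]⟩,⟨2,[(1,1),(26,0),(5,0),(4,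
  0)]⟩⟩,.o ⟨false,1,⟨0,[(0,0)]⟩,⟨0,[(24,0),(9,0)]⟩⟩,.o ⟨false,1,⟨1,[(0,0),(33,0),(4,0)]⟩,⟨8,[(4,0),
  (16,1),(2,2),(6,0),(0,1),(3,1),(3,0),(8,0)]⟩⟩]⟩) (.R ⟨0,false,false,true,[-1,1,1],[1,0,0,0,-1],[1,
  0,1],(⟨0,[(25,0)]⟩,⟨0,[(36,0),(3,0)]⟩),(⟨0,[(29,0)]⟩,⟨0,[(30,0)]⟩),⟨0,[(36,0)]⟩,.k,.k,.k,(.r 0 ⟨0,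
  [(11,0),(33,0)]⟩ ⟨0,[(0,27),(4,20),(1,1),(0,32),(7,10),(26,7),(0,26)]⟩),.k,.k,⟨true,0,⟨0,[(45,
  0)]⟩,⟨0,[(51,0)]⟩⟩,⟨false,0,⟨1,[(0,0),(1,0),(20,0),(3,0),(3,0)]⟩,⟨8,[(1,5),(26,2),(5,2),(4,0),(3,
  1)]⟩⟩,⟨true,0,⟨0,[(8,0),(37,0)]⟩,⟨0,[(11,0)]⟩⟩,⟨false,0,⟨8,[(0,4),(1,7),(13,1),(0,1),(2,2),(6,0),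
  (20,0)]⟩,⟨0,[(5,0),(22,0)]⟩⟩,⟨false,0,⟨0,[]⟩,⟨0,[]⟩⟩,⟨false,0,⟨0,[]⟩,⟨0,[]⟩⟩,[.e ⟨false,0,⟨0,[]⟩,
  ⟨3,[(11,1),(8,1),(27,0),(0,0)]⟩⟩ ⟨false,0,⟨14,[(0,10),(1,5),(8,1),(4,0),(10,8),(3,1),(0,2),(11,4),
  (3,1)]⟩,⟨0,[(1,0),(43,0)]⟩⟩,.a ⟨true,0,⟨0,[(2,0),(20,0)]⟩,⟨0,[(28,0)]⟩⟩ ⟨true,0,⟨0,[(45,0)]⟩,⟨0,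
  [(51,0)]⟩⟩ ⟨false,0,⟨11,[(0,5),(1,7),(8,1),(4,0),(6,4),(3,3),(3,3),(16,0),(0,0)]⟩,⟨2,[(1,1),(26,
  0),(5,0),(4,0)]⟩⟩,.e ⟨false,0,⟨0,[(45,0)]⟩,⟨3,[(11,1),(8,1),(27,0),(0,0)]⟩⟩ ⟨false,0,⟨15,[(0,13),
  (1,2),(3,0),(4,1),(4,0),(10,12),(10,1),(10,0),(0,1)]⟩,⟨0,[(1,0),(43,0)]⟩⟩,.o ⟨false,1,⟨3,[(10,0),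
  (1,0),(4,0),(16,0),(4,2)]⟩,⟨11,[(0,3),(10,1),(8,1),(3,3),(23,0),(0,0)]⟩⟩]⟩))))))))))) (.R ⟨0,
  false,false,false,[1,0,-1],[0,0,1],[1,1],(⟨0,[(26,0)]⟩,⟨0,[(27,0)]⟩),(⟨0,[(27,0)]⟩,⟨0,[(26,0)]⟩),
  ⟨0,[(15,0)]⟩,.k,.k,.k,.k,.k,.k,⟨true,0,⟨1,[(4,0),(4,0),(24,0)]⟩,⟨0,[(0,0)]⟩⟩,⟨false,1,⟨3,[(2,1),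
  (1,0),(2,0),(0,2),(1,0),(23,0),(3,0)]⟩,⟨0,[(14,0)]⟩⟩,⟨true,0,⟨0,[(0,0),(33,0)]⟩,⟨0,[(4,0)]⟩⟩,
  ⟨false,1,⟨1,[(1,0),(0,0),(3,0),(6,0),(25,0)]⟩,⟨1,[(3,0),(0,0),(6,0),(11,0)]⟩⟩,⟨false,0,⟨0,[]⟩,⟨0,
  []⟩⟩,⟨false,0,⟨0,[]⟩,⟨0,[]⟩⟩,[.a ⟨true,0,⟨0,[(13,0)]⟩,⟨0,[(11,0)]⟩⟩ ⟨true,0,⟨0,[(41,0)]⟩,⟨0,[(0,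
  0),(3,0)]⟩⟩ ⟨false,1,⟨1,[(2,0),(4,0),(14,0),(15,0)]⟩,⟨2,[(3,0),(7,0),(2,0),(8,0)]⟩⟩,.o ⟨false,1,
  ⟨5,[(1,1),(0,1),(3,1),(22,0),(9,2)]⟩,⟨0,[(23,0)]⟩⟩,.e ⟨false,0,⟨0,[]⟩,⟨1,[(17,0),(0,0),(20,0)]⟩⟩
  ⟨false,1,⟨1,[(2,0),(4,0),(14,0),(16,0)]⟩,⟨2,[(3,0),(7,0),(2,0),(8,0)]⟩⟩,.o ⟨false,0,⟨0,[(25,0)]⟩,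
  ⟨9,[(2,3),(1,1),(2,1),(2,1),(18,0),(4,1),(3,2)]⟩⟩]⟩)) (.Q [0,0,-1,0,1,0,1,0,0,-2,1] (.p true [-1,
  1,1] [1] (⟨0,[(14,0)]⟩,⟨0,[(25,0),(3,0)]⟩) .k 1 (⟨0,[]⟩,⟨0,[]⟩) .k .k) (.R ⟨0,false,false,true,
  [-1,1,1],[0,0,1],[0,1],(⟨0,[(15,0)]⟩,⟨0,[(26,0),(3,0)]⟩),(⟨0,[(27,0)]⟩,⟨0,[(26,0)]⟩),⟨0,[(26,0)]⟩,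
  .k,.k,.k,.k,.k,.k,⟨true,0,⟨0,[(4,0)]⟩,⟨0,[(13,0),(11,0)]⟩⟩,⟨false,0,⟨0,[(21,0),(2,0)]⟩,⟨1,[(29,0),
  (8,0)]⟩⟩,⟨true,0,⟨0,[(1,0),(32,0)]⟩,⟨0,[(13,0),(11,0),(11,0)]⟩⟩,⟨false,0,⟨1,[(6,0),(4,0),(9,0),(2,
  0)]⟩,⟨1,[(29,0),(7,1),(1,0)]⟩⟩,⟨false,0,⟨0,[]⟩,⟨0,[]⟩⟩,⟨false,0,⟨0,[]⟩,⟨0,[]⟩⟩,[.a ⟨true,0,⟨0,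
  [(22,0)]⟩,⟨0,[(3,0),(4,0)]⟩⟩ ⟨true,0,⟨0,[(41,0)]⟩,⟨0,[(35,0)]⟩⟩ ⟨false,0,⟨1,[(14,0),(6,0),(0,1),
  (1,0)]⟩,⟨3,[(0,1),(0,0),(0,0),(0,1),(0,1),(33,0)]⟩⟩,.e ⟨false,1,⟨1,[(17,0),(0,0),(19,0)]⟩,⟨0,[]⟩⟩
  ⟨false,0,⟨1,[(13,1),(0,0),(6,0),(2,0)]⟩,⟨0,[(0,0),(10,0)]⟩⟩,.o ⟨false,1,⟨0,[(0,0)]⟩,⟨0,[(14,0),(9,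
  0)]⟩⟩,.o ⟨false,1,⟨1,[(0,0),(23,0),(4,0)]⟩,⟨1,[(14,0),(6,0),(2,0)]⟩⟩]⟩) (.K ⟨0,[2,-1,-1],(-1),
  (-1),(⟨0,[(26,0),(3,0)]⟩,⟨0,[(15,0)]⟩),.k,(.r (-1) ⟨17,[(1,15),(4,5),(3,7),(10,5),(7,2),(4,7),(3,
  6)]⟩ ⟨3,[(0,1),(1,1),(19,1),(1,0),(0,4),(11,5)]⟩),.k,(.r 0 ⟨0,[(1,1),(32,0),(2,0)]⟩ ⟨0,[(2,0),(11,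
  1),(7,0),(1,0)]⟩),.k,[⟨0,[(1,0),(0,0),(31,0)]⟩,⟨1,[(0,1),(23,0),(0,0)]⟩,⟨0,[(22,0),(6,0),(7,0)]⟩,
  ⟨0,[(0,0),(0,0),(32,0)]⟩]⟩))) (.R ⟨0,false,false,true,[-1,1,1],[1,1,-1],[1,1,1,1,0,0,0,-1],(⟨0,
  [(13,0)]⟩,⟨0,[(24,0),(3,0)]⟩),(⟨0,[(24,0),(4,0)]⟩,⟨0,[(14,0)]⟩),⟨0,[(24,0)]⟩,.k,.k,.k,.k,.k,.k,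
  ⟨true,0,⟨0,[]⟩,⟨1,[(22,0),(0,0)]⟩⟩,⟨false,0,⟨1,[(12,0),(6,2),(2,0)]⟩,⟨0,[(6,1),(20,0)]⟩⟩,⟨false,0,
  ⟨0,[(2,1)]⟩,⟨1,[(11,3),(0,1),(14,0),(9,0)]⟩⟩,⟨true,(-1),⟨0,[(0,0),(1,0),(32,0)]⟩,⟨0,[(11,1),(15,
  0)]⟩⟩,⟨false,0,⟨0,[]⟩,⟨0,[]⟩⟩,⟨false,0,⟨0,[]⟩,⟨0,[]⟩⟩,[.o ⟨false,0,⟨0,[(21,0),(13,0)]⟩,⟨1,[(4,0),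
  (6,0),(15,0),(9,0)]⟩⟩,.a ⟨true,0,⟨0,[(9,0),(25,0)]⟩,⟨0,[(10,0)]⟩⟩ ⟨false,0,⟨0,[(2,0),(32,0)]⟩,⟨3,
  [(4,1),(7,1),(7,1),(6,0),(8,1),(0,0)]⟩⟩ ⟨true,(-1),⟨0,[(0,0),(32,0),(1,1)]⟩,⟨1,[(4,0),(1,1),(4,0),
  (15,1)]⟩⟩,.e ⟨false,0,⟨0,[(7,0),(27,0)]⟩,⟨1,[(4,0),(6,0),(7,1),(7,0),(9,0)]⟩⟩ ⟨false,(-1),⟨0,[(0,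
  0),(32,0),(1,1)]⟩,⟨1,[(4,0),(1,1),(4,0),(15,1),(8,0),(0,0)]⟩⟩,.o ⟨false,1,⟨0,[(6,0),(20,0)]⟩,⟨1,
  [(12,0),(6,0),(2,0)]⟩⟩]⟩)) (.R ⟨1,false,false,true,[0,0,1],[1,0,-1],[0,1,0,0,0,0,0,1],(⟨0,[(24,
  0)]⟩,⟨0,[(23,0)]⟩),(⟨0,[(23,0)]⟩,⟨0,[(24,0)]⟩),⟨0,[(13,0)]⟩,.k,.k,.k,.k,(.r (-1) ⟨1,[(3,0),(6,2),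
  (0,1),(14,0),(8,0)]⟩ ⟨0,[(1,0),(4,0),(27,0)]⟩),.k,⟨false,1,⟨1,[(10,3),(0,1),(14,0),(8,0)]⟩,⟨0,[(1,
  1)]⟩⟩,⟨true,0,⟨0,[(11,0)]⟩,⟨0,[(0,0),(0,0),(30,0)]⟩⟩,⟨true,0,⟨0,[(38,0)]⟩,⟨0,[]⟩⟩,⟨false,0,⟨0,[(1,
  1),(9,0)]⟩,⟨1,[(10,3),(15,0),(9,0)]⟩⟩,⟨false,0,⟨0,[(34,0)]⟩,⟨5,[(3,1),(3,1),(6,0),(0,0),(6,1),(13,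
  2)]⟩⟩,⟨false,0,⟨0,[(1,1),(9,0),(22,0)]⟩,⟨1,[(3,0),(6,2),(15,0),(9,0)]⟩⟩,[.o ⟨false,0,⟨0,[(20,0)]⟩,
  ⟨1,[(10,1),(15,0),(9,0)]⟩⟩,.a ⟨true,0,⟨0,[(8,0)]⟩,⟨0,[(10,0)]⟩⟩ ⟨false,1,⟨3,[(10,1),(0,1),(7,1),
  (6,0),(8,1),(0,0)]⟩,⟨0,[(2,0)]⟩⟩ ⟨true,0,⟨0,[(1,0),(9,0)]⟩,⟨0,[(0,0),(31,0)]⟩⟩,.a ⟨true,0,⟨0,[(5,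
  0)]⟩,⟨1,[(11,0),(6,0),(2,0)]⟩⟩ ⟨true,0,⟨0,[(0,0),(10,0)]⟩,⟨0,[(2,0)]⟩⟩ ⟨false,0,⟨0,[(1,0),(9,0)]⟩,
  ⟨0,[(0,0),(35,0)]⟩⟩,.a ⟨true,0,⟨0,[(21,0)]⟩,⟨0,[(18,0)]⟩⟩ ⟨false,1,⟨3,[(10,1),(0,1),(7,1),(6,0),
  (8,1),(0,0)]⟩,⟨0,[(1,0),(30,0)]⟩⟩ ⟨true,0,⟨0,[(18,0),(1,0)]⟩,⟨0,[(0,0),(31,0)]⟩⟩]⟩)) (.N [0,0,1]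
  0 ⟨0,[(0,0)]⟩ ⟨0,[(1,0)]⟩ .k)))) (.R ⟨0,false,false,true,[1,0,-1],[1,-1],[],(⟨0,[(19,0)]⟩,⟨0,[(20,
  0)]⟩),(⟨0,[(23,0)]⟩,⟨0,[(24,0)]⟩),⟨0,[(8,0)]⟩,.k,.k,.k,.k,.k,.k,⟨true,0,⟨0,[(28,0),(1,0)]⟩,⟨0,
  [(29,0)]⟩⟩,⟨false,0,⟨0,[(1,0)]⟩,⟨3,[(7,1),(2,0),(0,0),(10,0),(8,1)]⟩⟩,⟨true,0,⟨0,[(0,0),(4,0)]⟩,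
  ⟨0,[(1,0),(14,0)]⟩⟩,⟨false,0,⟨0,[(5,0)]⟩,⟨1,[(4,1),(17,0),(7,1),(1,0)]⟩⟩,⟨false,0,⟨0,[]⟩,⟨0,[]⟩⟩,
  ⟨false,0,⟨0,[]⟩,⟨0,[]⟩⟩,[.o ⟨false,0,⟨0,[(29,0)]⟩,⟨1,[(22,0),(7,1),(1,0)]⟩⟩,.e ⟨false,1,⟨1,[(31,
  0),(0,0)]⟩,⟨0,[(34,0)]⟩⟩ ⟨false,1,⟨1,[(3,0),(1,0),(11,0),(13,0)]⟩,⟨0,[(0,0)]⟩⟩,.a ⟨true,0,⟨1,[(7,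
  0),(6,0),(2,0)]⟩,⟨0,[(1,0)]⟩⟩ ⟨false,1,⟨1,[(10,0),(0,0),(20,0)]⟩,⟨0,[]⟩⟩ ⟨true,0,⟨0,[(1,0),(27,
  0)]⟩,⟨0,[(0,0)]⟩⟩,.o ⟨false,0,⟨0,[(18,0)]⟩,⟨1,[(1,1),(20,0),(8,0)]⟩⟩]⟩))) (.S ⟨1,0,[0,0,0,0,0,0,0,
  1],[0,0,1],[0,1,0,0,0,0,0,1],(⟨0,[(18,0)]⟩,⟨0,[(17,0)]⟩),⟨0,[(7,0)]⟩,.k,.k,⟨true,0,⟨0,[(32,0)]⟩,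
  ⟨0,[]⟩⟩,⟨false,1,⟨1,[(8,0),(0,0),(20,0)]⟩,⟨0,[]⟩⟩,⟨false,0,⟨0,[(28,0)]⟩,⟨0,[(27,0),(2,0)]⟩⟩,⟨true,
  0,⟨0,[(28,0)]⟩,⟨0,[(27,0)]⟩⟩,[.e ⟨false,0,⟨4,[(0,3),(12,0),(2,0),(8,1)]⟩,⟨0,[(1,0),(24,0),(1,
  0)]⟩⟩ ⟨false,0,⟨0,[(0,0)]⟩,⟨3,[(1,1),(0,1),(5,0),(0,0),(5,1),(4,0),(7,1)]⟩⟩,.o ⟨false,1,⟨1,[(4,1),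
  (15,0),(9,0)]⟩,⟨0,[(14,0)]⟩⟩,.o ⟨false,1,⟨1,[(15,1),(4,0),(8,0)]⟩,⟨0,[(0,0),(13,0),(11,0)]⟩⟩,.a
  ⟨true,0,⟨0,[(15,0)]⟩,⟨0,[(12,0)]⟩⟩ ⟨false,0,⟨0,[(0,0)]⟩,⟨1,[(2,1),(12,1),(4,0),(9,0)]⟩⟩ ⟨true,0,
  ⟨0,[(0,0)]⟩,⟨0,[(14,0),(0,0)]⟩⟩]⟩))

theorem ok2 : chk K t2 l3 = true := by decide +kernel

noncomputable def t3 : Tre :=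
  (.I [1,-1,2,2,-1] (.Q [0,0,0,2,0,0,0,0,0,-1] (.pp true [-1,1]) (.R ⟨2,true,false,true,[0,1],[1,
  -1],[0,1,-1,-1],(⟨0,[]⟩,⟨0,[]⟩),(⟨0,[(22,0)]⟩,⟨0,[(23,0)]⟩),⟨0,[]⟩,.k,.k,.k,(.r 1 ⟨0,[(1,0),(31,
  0)]⟩ ⟨0,[(28,1),(1,0),(0,0)]⟩),.k,.k,⟨false,1,⟨1,[(9,0),(0,0),(19,0)]⟩,⟨0,[]⟩⟩,⟨true,(-1),⟨0,[(1,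
  0),(1,0),(0,0),(23,0)]⟩,⟨1,[(21,0),(8,0)]⟩⟩,⟨false,2,⟨0,[(28,1),(1,0),(0,0)]⟩,⟨0,[(1,0)]⟩⟩,⟨true,
  0,⟨0,[(3,0),(0,0),(23,0)]⟩,⟨0,[(0,0)]⟩⟩,⟨true,1,⟨0,[(28,0),(1,0)]⟩,⟨0,[(1,0),(26,0)]⟩⟩,⟨false,0,
  ⟨0,[(3,0),(0,0)]⟩,⟨3,[(0,1),(8,0),(0,0),(10,0),(9,1)]⟩⟩,[]⟩) (.Q [0,0,0,0,0,-2,0,0,0,1] (.pp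
  false [-1,1]) (.S ⟨1,3,[],[1,-1],[1,0,-1,-2],(⟨0,[(23,0)]⟩,⟨0,[(24,0)]⟩),⟨0,[(0,0)]⟩,.k,(.r (-2)
  ⟨1,[(1,1),(8,0),(0,0),(10,0),(8,1)]⟩ ⟨0,[(2,0),(31,0)]⟩),⟨false,1,⟨3,[(1,1),(8,0),(0,0),(10,0),(9,
  1)]⟩,⟨0,[(30,0)]⟩⟩,⟨true,0,⟨0,[(30,0)]⟩,⟨0,[(29,0)]⟩⟩,⟨true,0,⟨0,[]⟩,⟨0,[(34,0)]⟩⟩,⟨false,0,⟨0,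
  [(2,0),(28,0)]⟩,⟨1,[(1,1),(8,0),(0,0),(10,0)]⟩⟩,[.fa ⟨true,1,⟨1,[(1,1),(20,0),(8,0)]⟩,⟨0,[(2,0),
  (31,0)]⟩⟩ ⟨false,1,⟨0,[(31,0)]⟩,⟨1,[(17,0),(0,0)]⟩⟩,.a ⟨true,0,⟨0,[(1,0),(0,0),(28,0)]⟩,⟨0,[(34,
  0)]⟩⟩ ⟨false,2,⟨1,[(1,1),(20,0),(8,1),(0,0)]⟩,⟨0,[(2,0),(24,0)]⟩⟩ ⟨true,1,⟨1,[(31,0),(0,0)]⟩,⟨0,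
  [(2,0),(26,1)]⟩⟩,.o ⟨false,0,⟨1,[(17,0),(0,0)]⟩,⟨1,[(22,0),(8,0)]⟩⟩,.a ⟨true,(-1),⟨2,[(1,1),(0,2),
  (1,0),(10,0),(13,1)]⟩,⟨0,[(31,0)]⟩⟩ ⟨false,2,⟨1,[(1,1),(20,0),(8,1),(0,0)]⟩,⟨0,[(2,0),(31,0)]⟩⟩
  ⟨true,1,⟨0,[(31,0)]⟩,⟨0,[(2,0),(26,1)]⟩⟩]⟩) (.I [1,1,-1,-2,0,0,0,1] (.R ⟨1,true,false,false,[0,0,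
  1],[0,1],[1,1,0,-1,0,0,0,1],(⟨0,[(21,0)]⟩,⟨0,[(20,0)]⟩),(⟨0,[(25,0)]⟩,⟨0,[(24,0)]⟩),⟨0,[(10,0)]⟩,
  .k,.k,.k,.k,(.r (-1) ⟨1,[(0,1),(31,0),(0,0)]⟩ ⟨3,[(3,1),(1,1),(5,0),(0,0),(4,1),(0,3),(4,0),(7,
  3)]⟩),.k,⟨true,0,⟨0,[(0,0)]⟩,⟨1,[(3,1),(1,1),(12,1),(4,0),(8,0)]⟩⟩,⟨false,1,⟨1,[(15,1),(7,0),(8,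
  0)]⟩,⟨0,[(18,0)]⟩⟩,⟨true,0,⟨0,[(30,0)]⟩,⟨0,[(31,0)]⟩⟩,⟨false,1,⟨1,[(5,1),(17,0),(7,1),(1,0)]⟩,⟨0,
  [(6,0)]⟩⟩,⟨false,0,⟨0,[]⟩,⟨1,[(11,0),(0,0),(20,0)]⟩⟩,⟨true,0,⟨0,[(3,0),(13,0),(14,0)]⟩,⟨0,[(0,0),
  (17,0)]⟩⟩,[]⟩) (.I [1,0,-1,-2,0,0,0,2] (.R ⟨1,true,false,false,[0,0,1],[0,1],[0,1,0,0,0,0,0,1],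
  (⟨0,[(22,0)]⟩,⟨0,[(21,0)]⟩),(⟨0,[(26,0)]⟩,⟨0,[(25,0)]⟩),⟨0,[(11,0)]⟩,.k,.k,.k,.k,(.r (-1) ⟨3,[(0,
  1),(2,1),(20,0),(8,2)]⟩ ⟨1,[(1,1),(17,0),(0,0),(15,1)]⟩),.k,⟨true,0,⟨1,[(0,0),(28,0)]⟩,⟨1,[(1,0),
  (16,0),(0,0),(10,1)]⟩⟩,⟨false,1,⟨1,[(16,1),(7,0),(8,0)]⟩,⟨0,[(19,0)]⟩⟩,⟨true,0,⟨0,[(36,0)]⟩,⟨0,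
  []⟩⟩,⟨false,1,⟨7,[(1,3),(4,3),(2,1),(2,0),(0,0),(10,2),(8,1),(0,1)]⟩,⟨0,[(7,0)]⟩⟩,⟨false,0,⟨0,
  [(32,0)]⟩,⟨3,[(3,1),(8,0),(0,0),(10,0),(9,1)]⟩⟩,⟨true,0,⟨0,[(4,0),(13,0),(14,0)]⟩,⟨0,[(7,0),(23,
  0)]⟩⟩,[]⟩) (.I [0,0,-2,-2,1,0,0,1] (.R ⟨1,true,false,true,[0,0,1],[0,1],[1,0,0,-1,0,0,0,1],(⟨0,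
  [(23,0)]⟩,⟨0,[(22,0)]⟩),(⟨0,[(27,0)]⟩,⟨0,[(26,0)]⟩),⟨0,[(12,0)]⟩,.k,.k,.k,.k,(.r (-1) ⟨0,[(0,0)]⟩
  ⟨3,[(1,1),(0,1),(15,1),(1,0),(0,2)]⟩),.k,⟨true,1,⟨0,[(0,0),(30,0)]⟩,⟨1,[(1,0),(3,1),(24,0),(1,
  1)]⟩⟩,⟨false,1,⟨1,[(17,1),(7,0),(8,0)]⟩,⟨0,[(20,0)]⟩⟩,⟨false,1,⟨3,[(4,1),(8,0),(0,0),(10,0),(9,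
  1)]⟩,⟨0,[(33,0)]⟩⟩,⟨true,0,⟨13,[(2,4),(2,1),(4,0),(6,2),(1,8),(5,1),(4,5)]⟩,⟨0,[(8,0)]⟩⟩,⟨true,0,
  ⟨0,[]⟩,⟨0,[(37,0)]⟩⟩,⟨false,0,⟨0,[(5,0),(13,0),(14,0)]⟩,⟨5,[(0,1),(3,1),(3,3),(11,2),(0,0),(3,0),
  (9,2)]⟩⟩,[]⟩) (.I [0,0,2,0,-1,2,1] (.R ⟨1,true,false,true,[0,0,1],[0,1],[0,0,0,0,0,0,0,1],(⟨0,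
  [(24,0)]⟩,⟨0,[(23,0)]⟩),(⟨0,[(28,0)]⟩,⟨0,[(27,0)]⟩),⟨0,[(13,0)]⟩,.k,.k,.k,.k,(.x 1 ⟨0,[(0,0)]⟩ ⟨3,
  [(11,1),(1,3),(0,0),(0,0),(10,2),(0,3),(7,3)]⟩),.k,⟨true,1,⟨1,[(9,1),(8,1),(7,0),(9,0)]⟩,⟨0,[(1,
  0),(31,0)]⟩⟩,⟨false,1,⟨1,[(18,1),(7,0),(8,0)]⟩,⟨0,[(21,0)]⟩⟩,⟨false,1,⟨1,[(14,0),(0,0),(20,0)]⟩,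
  ⟨0,[]⟩⟩,⟨true,0,⟨13,[(1,3),(0,2),(8,1),(6,5),(1,3),(5,3),(4,4)]⟩,⟨0,[(9,0)]⟩⟩,⟨true,0,⟨0,[(34,
  0)]⟩,⟨0,[(33,0)]⟩⟩,⟨false,0,⟨1,[(1,1),(16,1),(7,0),(8,0)]⟩,⟨2,[(5,1),(3,1),(9,0),(6,0),(9,1)]⟩⟩,
  []⟩) (.Q [0,0,1,1,-1,0,-2,-1,0,1,-2] (.p false [0,0,1] [1,0,-1] (⟨0,[(24,0)]⟩,⟨0,[(23,0)]⟩) .k 2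
  (⟨0,[(23,0)]⟩,⟨0,[(24,0)]⟩) .k (.r 0 ⟨2,[(7,1),(1,1),(0,1),(0,1),(14,0),(8,0)]⟩ ⟨1,[(2,1),(2,1),
  (20,0),(8,0)]⟩)) (.R ⟨0,false,false,false,[1,0,-1],[0,-1,1],[1,1,1],(⟨0,[(24,0)]⟩,⟨0,[(25,0)]⟩),
  (⟨0,[(14,0)]⟩,⟨0,[(24,0),(4,0)]⟩),⟨0,[(13,0)]⟩,.k,.k,.k,(.x 0 ⟨1,[(0,0),(0,1),(4,0),(1,0),(4,1)]⟩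
  ⟨3,[(3,1),(1,1),(4,3),(11,3),(1,7),(2,2),(8,0)]⟩),.k,.k,⟨true,(-1),⟨0,[(2,0),(31,0)]⟩,⟨1,[(10,1),
  (8,1),(7,0),(9,0)]⟩⟩,⟨false,1,⟨1,[(3,1),(6,3),(16,0),(8,0)]⟩,⟨3,[(0,0),(5,0),(1,0),(10,5),(7,
  1)]⟩⟩,⟨true,(-1),⟨0,[(8,0),(25,0)]⟩,⟨3,[(3,1),(2,1),(20,0),(8,2)]⟩⟩,⟨false,1,⟨1,[(10,1),(0,1),(15,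
  0),(9,0)]⟩,⟨3,[(0,3),(2,1),(2,1),(20,0),(8,2)]⟩⟩,⟨false,0,⟨0,[]⟩,⟨0,[]⟩⟩,⟨false,0,⟨0,[]⟩,⟨0,[]⟩⟩,
  [.a ⟨true,0,⟨0,[(10,0)]⟩,⟨5,[(3,1),(0,0),(4,1),(2,0),(6,2),(0,0)]⟩⟩ ⟨false,0,⟨0,[(39,0)]⟩,⟨1,[(36,
  0),(0,0)]⟩⟩ ⟨true,1,⟨1,[(10,1),(11,1),(4,0),(8,0)]⟩,⟨0,[(0,0)]⟩⟩,.o ⟨false,1,⟨1,[(10,1),(16,0),(9,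
  0)]⟩,⟨11,[(0,3),(2,3),(8,1),(14,2),(4,5),(3,0)]⟩⟩,.o ⟨false,0,⟨3,[(0,0),(5,0),(1,0),(10,1),(7,
  1)]⟩,⟨1,[(22,1),(4,0),(8,0)]⟩⟩,.e ⟨false,0,⟨0,[]⟩,⟨1,[(15,0),(0,0),(20,0)]⟩⟩ ⟨false,2,⟨1,[(10,1),
  (11,1),(4,0),(8,1),(0,0)]⟩,⟨0,[(0,0)]⟩⟩]⟩) (.I [0,0,-2,0,1,-2,-1] (.R ⟨1,true,false,true,[0,0,1],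
  [0,1],[0,0,0,0,0,0,0,1],(⟨0,[(26,0)]⟩,⟨0,[(25,0)]⟩),(⟨0,[(30,0)]⟩,⟨0,[(29,0)]⟩),⟨0,[(15,0)]⟩,.k,
  .k,.k,.k,(.x 0 ⟨1,[(6,1),(16,2),(0,0),(0,1)]⟩ ⟨0,[(0,0)]⟩),.k,⟨true,1,⟨1,[(11,1),(8,1),(7,0),(9,
  0)]⟩,⟨0,[(3,0),(31,0)]⟩⟩,⟨false,1,⟨1,[(20,1),(7,0),(8,0)]⟩,⟨0,[(23,0)]⟩⟩,⟨false,1,⟨1,[(16,0),(0,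
  0),(20,0)]⟩,⟨0,[]⟩⟩,⟨true,0,⟨13,[(3,3),(0,2),(8,1),(6,5),(1,3),(5,3),(4,4)]⟩,⟨0,[(11,0)]⟩⟩,⟨true,
  0,⟨0,[(36,0)]⟩,⟨0,[(35,0)]⟩⟩,⟨false,0,⟨1,[(3,1),(16,1),(7,0),(8,0)]⟩,⟨1,[(1,0),(5,0),(3,0),(12,0),
  (13,0)]⟩⟩,[]⟩) (.I [1,-1,0,0,0,0,0,1] (.Q [0,0,0,1,0,0,-2,-2,0,1,-2] (.p false [0,0,1] [1,0,-1]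
  (⟨0,[(27,0)]⟩,⟨0,[(26,0)]⟩) .k 2 (⟨0,[(26,0)]⟩,⟨0,[(27,0)]⟩) .k (.r 0 ⟨4,[(0,4),(9,0),(1,0),(1,1),
  (7,2),(6,0),(4,0)]⟩ ⟨1,[(5,1),(2,1),(20,0),(8,0)]⟩)) (.R ⟨1,true,false,true,[0,0,1],[1,0,-1],[1,0,
  0,-1,0,0,0,1],(⟨0,[(28,0)]⟩,⟨0,[(27,0)]⟩),(⟨0,[(27,0)]⟩,⟨0,[(28,0)]⟩),⟨0,[(17,0)]⟩,.k,.k,.k,.k,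
  (.x (-1) ⟨19,[(2,9),(0,11),(2,5),(11,8),(0,8),(5,5),(1,29),(2,8)]⟩ ⟨1,[(4,3),(0,1),(2,2),(0,2),(1,
  1)]⟩),.k,⟨true,0,⟨0,[(1,1),(35,0)]⟩,⟨0,[(6,0),(30,0)]⟩⟩,⟨false,0,⟨0,[(1,0),(20,0),(1,0)]⟩,⟨9,[(3,
  7),(2,3),(11,0),(0,0),(5,3),(4,0)]⟩⟩,⟨false,1,⟨3,[(9,1),(8,0),(0,0),(10,0),(9,1)]⟩,⟨0,[(38,0)]⟩⟩,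
  ⟨true,0,⟨0,[(0,0),(36,0)]⟩,⟨0,[(3,0),(7,0)]⟩⟩,⟨true,0,⟨0,[]⟩,⟨0,[(42,0)]⟩⟩,⟨false,0,⟨0,[(0,0)]⟩,
  ⟨13,[(1,3),(1,3),(6,1),(2,13),(9,5),(6,4),(9,6)]⟩⟩,[]⟩) (.R ⟨1,true,false,true,[0,0,1],[1,1,-1],
  [0,1],(⟨0,[(28,0)]⟩,⟨0,[(27,0)]⟩),(⟨0,[(27,0),(4,0)]⟩,⟨0,[(17,0)]⟩),⟨0,[(17,0)]⟩,.k,.k,.k,(.x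
  (-1) ⟨19,[(2,9),(0,11),(2,5),(11,8),(0,8),(5,5),(1,29),(2,8)]⟩ ⟨1,[(4,3),(0,1),(2,2),(0,2),(1,
  1)]⟩),(.r (-1) ⟨1,[(0,1),(8,0),(5,0),(6,1),(7,0),(8,0)]⟩ ⟨1,[(6,1),(18,0),(0,0)]⟩),.k,⟨false,1,⟨3,
  [(0,1),(8,0),(5,0),(6,1),(7,0),(8,2)]⟩,⟨3,[(6,1),(18,0),(0,0)]⟩⟩,⟨true,0,⟨0,[(1,0),(20,0),(1,0)]⟩,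
  ⟨8,[(0,1),(2,3),(1,7),(3,4),(15,5),(4,3)]⟩⟩,⟨false,1,⟨11,[(3,3),(2,3),(2,1),(2,7),(5,4),(0,4),(10,
  2)]⟩,⟨0,[(1,0)]⟩⟩,⟨true,0,⟨5,[(6,2),(5,1),(2,1),(6,1),(1,3),(10,0)]⟩,⟨0,[(0,0)]⟩⟩,⟨true,0,⟨1,[(6,
  0),(28,0)]⟩,⟨0,[(1,0),(35,0)]⟩⟩,⟨false,0,⟨0,[(7,0),(14,0),(1,0)]⟩,⟨9,[(0,7),(2,3),(5,3),(16,3),(3,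
  0),(9,4)]⟩⟩,[]⟩)) (.R ⟨1,true,false,true,[0,0,1],[0,1],[0,0,0,0,0,0,0,1],(⟨0,[(27,0)]⟩,⟨0,[(26,
  0)]⟩),(⟨0,[(31,0)]⟩,⟨0,[(30,0)]⟩),⟨0,[(16,0)]⟩,.k,.k,.k,.k,(.r (-2) ⟨3,[(2,3),(5,1),(5,3),(2,0),
  (0,0),(10,0),(8,1)]⟩ ⟨0,[(0,0),(8,0)]⟩),.k,⟨true,1,⟨1,[(12,1),(8,1),(7,0),(9,0)]⟩,⟨0,[(4,0),(31,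
  0)]⟩⟩,⟨false,1,⟨1,[(21,1),(7,0),(8,0)]⟩,⟨0,[(24,0)]⟩⟩,⟨false,1,⟨1,[(17,0),(0,0),(20,0)]⟩,⟨0,[]⟩⟩,
  ⟨true,0,⟨13,[(4,3),(0,2),(8,1),(6,5),(1,3),(5,3),(4,4)]⟩,⟨0,[(12,0)]⟩⟩,⟨true,0,⟨0,[(37,0)]⟩,⟨0,
  [(36,0)]⟩⟩,⟨false,0,⟨1,[(4,1),(16,1),(7,0),(8,0)]⟩,⟨1,[(2,0),(5,0),(3,0),(12,0),(13,0)]⟩⟩,
  []⟩)))))))))) (.Q [0,0,0,2,0,0,-1,-1,0,0,-1] (.p false [0,0,1] [] (⟨0,[(18,0)]⟩,⟨0,[(17,0)]⟩) .k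
  0 (⟨0,[]⟩,⟨0,[]⟩) .k .k) (.I [1,1,-1,-2,0,0,0,1] (.R ⟨1,true,false,false,[0,0,1],[0,1],[1,1,0,-1,
  0,0,0,1],(⟨0,[(20,0)]⟩,⟨0,[(19,0)]⟩),(⟨0,[(24,0)]⟩,⟨0,[(23,0)]⟩),⟨0,[(9,0)]⟩,.k,.k,.k,.k,(.r (-1)
  ⟨1,[(0,1),(30,0),(0,0)]⟩ ⟨1,[(1,1),(15,2),(0,0)]⟩),.k,⟨true,0,⟨0,[(0,0)]⟩,⟨0,[(1,0),(15,0),(10,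
  0)]⟩⟩,⟨false,1,⟨1,[(14,1),(7,0),(8,0)]⟩,⟨0,[(17,0)]⟩⟩,⟨true,0,⟨0,[(29,0)]⟩,⟨0,[(30,0)]⟩⟩,⟨false,1,
  ⟨3,[(1,1),(2,1),(5,0),(0,0),(10,0),(9,1)]⟩,⟨0,[(5,0)]⟩⟩,⟨false,0,⟨0,[]⟩,⟨1,[(10,0),(0,0),(20,
  0)]⟩⟩,⟨true,0,⟨0,[(1,0)]⟩,⟨0,[(5,0),(23,0)]⟩⟩,[]⟩) (.I [0,0,-2,-2,1,0,0,1] (.R ⟨1,true,false,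
  false,[0,0,1],[0,1],[0,1,0,0,0,0,0,1],(⟨0,[(21,0)]⟩,⟨0,[(20,0)]⟩),(⟨0,[(25,0)]⟩,⟨0,[(24,0)]⟩),⟨0,
  [(10,0)]⟩,.k,.k,.k,.k,(.r (-1) ⟨0,[(0,0)]⟩ ⟨1,[(1,1),(16,0),(0,0),(15,1)]⟩),.k,⟨true,0,⟨0,[(3,0),
  (0,0)]⟩,⟨1,[(1,0),(15,0),(0,0),(10,1)]⟩⟩,⟨false,1,⟨1,[(15,1),(7,0),(8,0)]⟩,⟨0,[(18,0)]⟩⟩,⟨true,0,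
  ⟨0,[(35,0)]⟩,⟨0,[]⟩⟩,⟨false,1,⟨3,[(2,1),(2,1),(5,0),(0,0),(10,0),(9,1)]⟩,⟨0,[(6,0)]⟩⟩,⟨false,0,⟨0,
  [(31,0)]⟩,⟨0,[(30,0),(2,0)]⟩⟩,⟨true,0,⟨0,[(2,0)]⟩,⟨0,[(6,0),(23,0)]⟩⟩,[]⟩) (.Q [0,0,-1,0,1,0,1,0,
  0,-1,1] (.p true [0,0,1] [1] (⟨0,[(21,0)]⟩,⟨0,[(20,0)]⟩) .k 1 (⟨0,[]⟩,⟨0,[]⟩) .k .k) (.R ⟨2,true,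
  false,false,[0,1],[1,0,-1],[1,1,1],(⟨0,[]⟩,⟨0,[]⟩),(⟨0,[(21,0)]⟩,⟨0,[(22,0)]⟩),⟨0,[]⟩,.k,.k,.k,.k,
  .k,.k,⟨true,(-1),⟨0,[(5,0),(25,0)]⟩,⟨0,[(1,0),(2,0),(29,0)]⟩⟩,⟨false,0,⟨1,[(9,0),(6,0),(2,0)]⟩,⟨0,
  [(0,0)]⟩⟩,⟨true,0,⟨0,[(31,0)]⟩,⟨0,[(32,0)]⟩⟩,⟨false,1,⟨0,[(6,0),(24,0),(2,0)]⟩,⟨0,[(0,0),(4,0)]⟩⟩,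
  ⟨false,0,⟨0,[]⟩,⟨1,[(12,0),(0,0),(20,0)]⟩⟩,⟨true,0,⟨0,[(6,0)]⟩,⟨2,[(0,0),(0,0),(2,0),(0,1),(1,1),
  (16,0),(4,0)]⟩⟩,[]⟩) (.R ⟨0,false,false,false,[-1,1,1],[0,1],[],(⟨0,[(10,0)]⟩,⟨0,[(21,0),(3,0)]⟩),
  (⟨0,[(26,0)]⟩,⟨0,[(25,0)]⟩),⟨0,[(21,0)]⟩,.k,.k,.k,.k,.k,.k,⟨true,1,⟨3,[(4,1),(7,0),(0,0),(20,0)]⟩,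
  ⟨5,[(0,1),(0,3),(3,0),(1,2),(12,0),(3,0)]⟩⟩,⟨false,0,⟨0,[(16,0)]⟩,⟨1,[(19,1),(4,0),(8,0)]⟩⟩,
  ⟨false,2,⟨3,[(2,1),(1,3),(1,1),(12,1),(4,0),(9,2)]⟩,⟨0,[(5,0)]⟩⟩,⟨true,0,⟨0,[(6,0)]⟩,⟨1,[(1,1),(2,
  1),(0,1),(1,1),(16,0),(8,0)]⟩⟩,⟨false,0,⟨0,[]⟩,⟨0,[]⟩⟩,⟨false,0,⟨0,[]⟩,⟨0,[]⟩⟩,[.a ⟨true,0,⟨0,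
  [(32,0)]⟩,⟨0,[(6,0),(0,0)]⟩⟩ ⟨false,1,⟨1,[(12,0),(0,0),(19,0)]⟩,⟨0,[]⟩⟩ ⟨true,(-1),⟨7,[(0,3),(0,
  1),(0,0),(2,1),(3,0),(6,2),(0,0)]⟩,⟨1,[(1,1),(2,1),(2,1),(16,0),(9,0)]⟩⟩,.o ⟨false,1,⟨1,[(24,0),
  (7,1),(1,0)]⟩,⟨0,[(31,0)]⟩⟩,.o ⟨false,2,⟨0,[(19,0),(4,0),(8,0)]⟩,⟨0,[(0,0)]⟩⟩,.e ⟨false,1,⟨1,[(33,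
  0),(0,0)]⟩,⟨1,[(19,0),(0,0)]⟩⟩ ⟨false,0,⟨9,[(0,0),(1,3),(2,1),(2,1),(0,1),(6,6),(17,2)]⟩,⟨1,[(1,
  1),(2,1),(2,1),(16,0),(9,0)]⟩⟩]⟩)))) (.Q [0,0,1,-1,0,0,0,-1,0,1] (.pp false [-1,1]) (.I [0,0,1,1,
  -1,0,0,1] (.Q [0,1,0,0,0,0,1,1,0,-1,1] (.p true [0,0,1] [1] (⟨0,[(21,0)]⟩,⟨0,[(20,0)]⟩) .k 1 (⟨0,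
  []⟩,⟨0,[]⟩) .k .k) (.I [1,0,2,1,-1] (.Q [0,0,0,-1,1,0,1,0,0,-1,1] (.p true [0,0,1] [1] (⟨0,[(23,
  0)]⟩,⟨0,[(22,0)]⟩) .k 1 (⟨0,[]⟩,⟨0,[]⟩) .k .k) (.Q [0,0,1,0,-1,0,-1,0,0,1,-1] (.p false [0,0,1]
  [1] (⟨0,[(24,0)]⟩,⟨0,[(23,0)]⟩) .k 1 (⟨0,[]⟩,⟨0,[]⟩) .k .k) (.R ⟨0,false,false,false,[-1,1,1],[0,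
  1],[],(⟨0,[(13,0)]⟩,⟨0,[(24,0),(3,0)]⟩),(⟨0,[(29,0)]⟩,⟨0,[(28,0)]⟩),⟨0,[(24,0)]⟩,.k,.k,.k,.k,.k,
  .k,⟨true,1,⟨3,[(7,1),(7,0),(0,0),(20,0)]⟩,⟨0,[(2,0)]⟩⟩,⟨false,0,⟨0,[(19,0)]⟩,⟨1,[(22,1),(4,0),(8,
  0)]⟩⟩,⟨false,2,⟨1,[(1,1),(7,1),(26,0),(0,0)]⟩,⟨0,[(8,0)]⟩⟩,⟨true,0,⟨0,[(9,0)]⟩,⟨0,[(3,0)]⟩⟩,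
  ⟨false,0,⟨0,[]⟩,⟨0,[]⟩⟩,⟨false,0,⟨0,[]⟩,⟨0,[]⟩⟩,[.a ⟨true,0,⟨0,[(35,0)]⟩,⟨1,[(5,0),(4,0),(8,0)]⟩⟩
  ⟨false,1,⟨1,[(15,0),(0,0),(19,0)]⟩,⟨0,[]⟩⟩ ⟨true,(-1),⟨0,[(4,0),(4,0)]⟩,⟨0,[(1,0)]⟩⟩,.o ⟨false,1,
  ⟨1,[(27,0),(7,1),(1,0)]⟩,⟨0,[(34,0)]⟩⟩,.o ⟨false,2,⟨0,[(22,0),(4,0),(8,0)]⟩,⟨0,[(0,0)]⟩⟩,.e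
  ⟨false,1,⟨1,[(36,0),(0,0)]⟩,⟨1,[(22,0),(0,0)]⟩⟩ ⟨false,0,⟨1,[(4,0),(4,0),(9,0),(15,0),(1,0)]⟩,⟨0,
  [(1,0)]⟩⟩]⟩) (.R ⟨2,true,false,false,[0,1],[1,0,-1],[1,1,1],(⟨0,[]⟩,⟨0,[]⟩),(⟨0,[(24,0)]⟩,⟨0,[(25,
  0)]⟩),⟨0,[]⟩,.k,.k,.k,.k,.k,.k,⟨true,(-1),⟨0,[(4,0),(29,0)]⟩,⟨0,[(0,0),(8,0),(23,0)]⟩⟩,⟨false,0,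
  ⟨1,[(12,0),(6,0),(2,0)]⟩,⟨0,[(0,0)]⟩⟩,⟨true,0,⟨0,[(34,0)]⟩,⟨0,[(35,0)]⟩⟩,⟨false,1,⟨7,[(5,3),(1,1),
  (1,3),(2,1),(14,0),(9,4)]⟩,⟨0,[(0,0),(3,0)]⟩⟩,⟨false,0,⟨0,[]⟩,⟨1,[(15,0),(0,0),(20,0)]⟩⟩,⟨true,0,
  ⟨0,[(9,0)]⟩,⟨0,[(3,0)]⟩⟩,[]⟩)) (.R ⟨0,false,false,false,[-1,1,1],[0,1],[],(⟨0,[(12,0)]⟩,⟨0,[(23,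
  0),(3,0)]⟩),(⟨0,[(28,0)]⟩,⟨0,[(27,0)]⟩),⟨0,[(23,0)]⟩,.k,.k,.k,.k,.k,.k,⟨true,1,⟨3,[(6,1),(7,0),(0,
  0),(20,0)]⟩,⟨0,[(1,0)]⟩⟩,⟨false,0,⟨0,[(18,0)]⟩,⟨1,[(21,1),(4,0),(8,0)]⟩⟩,⟨false,2,⟨1,[(4,1),(21,
  0),(8,1),(0,0)]⟩,⟨0,[(7,0)]⟩⟩,⟨true,0,⟨0,[(8,0)]⟩,⟨0,[(2,0)]⟩⟩,⟨false,0,⟨0,[]⟩,⟨0,[]⟩⟩,⟨false,0,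
  ⟨0,[]⟩,⟨0,[]⟩⟩,[.e ⟨false,1,⟨1,[(14,0),(0,0),(19,0)]⟩,⟨0,[]⟩⟩ ⟨false,(-1),⟨0,[(0,0)]⟩,⟨3,[(6,1),
  (7,0),(0,0),(5,3),(4,1),(8,1),(0,0)]⟩⟩,.o ⟨false,1,⟨1,[(26,0),(7,1),(1,0)]⟩,⟨0,[(33,0)]⟩⟩,.o
  ⟨false,2,⟨0,[(21,0),(4,0),(8,0)]⟩,⟨10,[(0,7),(0,2),(2,0),(0,4),(5,1),(8,3),(11,3)]⟩⟩,.a ⟨true,1,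
  ⟨1,[(21,1),(4,0),(8,0)]⟩,⟨1,[(0,1),(3,0),(4,0),(8,0)]⟩⟩ ⟨false,1,⟨1,[(35,0),(0,0)]⟩,⟨1,[(21,0),(0,
  0)]⟩⟩ ⟨true,(-1),⟨0,[(0,0)]⟩,⟨4,[(4,0),(1,1),(12,0),(1,3),(4,2),(4,0)]⟩⟩]⟩)) (.I [1,-1,0,0,1,0,0,
  -1] (.S ⟨1,0,[0,0,0,0,0,0,0,1],[0,0,1],[0,1,0,0,0,0,0,1],(⟨0,[(24,0)]⟩,⟨0,[(23,0)]⟩),⟨0,[(13,0)]⟩,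
  .k,.k,⟨true,0,⟨0,[(38,0)]⟩,⟨0,[]⟩⟩,⟨false,1,⟨1,[(14,0),(0,0),(20,0)]⟩,⟨0,[]⟩⟩,⟨false,0,⟨0,[(34,
  0)]⟩,⟨25,[(4,5),(0,3),(0,5),(12,1),(2,5),(3,2),(9,16)]⟩⟩,⟨true,0,⟨0,[(34,0)]⟩,⟨0,[(33,0)]⟩⟩,[.e
  ⟨false,0,⟨0,[(2,0),(15,0)]⟩,⟨0,[(0,0)]⟩⟩ ⟨false,0,⟨0,[(1,0),(1,0)]⟩,⟨0,[(0,0),(37,0)]⟩⟩,.o ⟨false,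
  1,⟨0,[(2,0),(33,0)]⟩,⟨0,[(20,0)]⟩⟩,.o ⟨false,1,⟨1,[(21,1),(4,0),(8,0)]⟩,⟨0,[(1,0),(1,0),(16,0),
  (11,0)]⟩⟩,.a ⟨true,0,⟨0,[(21,0)]⟩,⟨0,[(18,0)]⟩⟩ ⟨false,0,⟨0,[(1,0),(1,0)]⟩,⟨1,[(0,1),(20,0),(0,
  0)]⟩⟩ ⟨true,0,⟨0,[(1,0),(1,0)]⟩,⟨0,[(20,0),(0,0)]⟩⟩]⟩) (.I [0,-1,1] (.R ⟨0,false,false,true,[1,0,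
  -1],[1,-1],[1,1],(⟨0,[(24,0)]⟩,⟨0,[(25,0)]⟩),(⟨0,[(28,0)]⟩,⟨0,[(29,0)]⟩),⟨0,[(13,0)]⟩,.k,.k,.k,.k,
  .k,.k,⟨false,0,⟨0,[(35,0)]⟩,⟨3,[(7,1),(7,0),(0,0),(20,0)]⟩⟩,⟨true,0,⟨0,[(22,0)]⟩,⟨2,[(0,1),(0,0),
  (17,1),(1,0),(5,0)]⟩⟩,⟨true,(-1),⟨0,[(1,0)]⟩,⟨1,[(9,1),(12,1),(4,0),(8,0)]⟩⟩,⟨false,0,⟨0,[(10,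
  0)]⟩,⟨1,[(9,1),(17,0),(7,1),(1,0)]⟩⟩,⟨false,0,⟨0,[]⟩,⟨0,[]⟩⟩,⟨false,0,⟨0,[]⟩,⟨0,[]⟩⟩,[.o ⟨false,0,
  ⟨0,[(34,0)]⟩,⟨1,[(27,0),(7,1),(1,0)]⟩⟩,.a ⟨true,0,⟨1,[(5,0),(4,0),(8,0)]⟩,⟨0,[(35,0)]⟩⟩ ⟨true,0,
  ⟨0,[]⟩,⟨1,[(22,0),(0,0)]⟩⟩ ⟨false,1,⟨0,[(2,0),(19,0)]⟩,⟨1,[(4,0),(4,0),(9,0),(7,0),(7,0)]⟩⟩,.o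
  ⟨false,0,⟨2,[(0,1),(0,0),(17,1),(1,0),(5,0)]⟩,⟨1,[(22,1),(4,0),(8,0)]⟩⟩,.e ⟨false,1,⟨1,[(15,0),(0,
  0),(19,0)]⟩,⟨0,[(0,0)]⟩⟩ ⟨false,1,⟨0,[(2,0),(19,0)]⟩,⟨1,[(4,1),(4,1),(17,0),(9,0)]⟩⟩]⟩) (.I [1,0,
  -2,-2,1] (.R ⟨0,false,false,false,[-1,1,1],[0,1],[1,1,1],(⟨0,[(14,0)]⟩,⟨0,[(25,0),(3,0)]⟩),(⟨0,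
  [(30,0)]⟩,⟨0,[(29,0)]⟩),⟨0,[(25,0)]⟩,.k,.k,.k,.k,.k,.k,⟨true,0,⟨0,[(35,0)]⟩,⟨0,[(34,0),(1,0)]⟩⟩,
  ⟨false,0,⟨0,[(20,0)]⟩,⟨1,[(23,1),(4,0),(8,0)]⟩⟩,⟨false,1,⟨1,[(6,1),(21,0),(8,0)]⟩,⟨1,[(5,1),(31,
  0),(0,0)]⟩⟩,⟨true,0,⟨0,[(10,0)]⟩,⟨0,[(4,0)]⟩⟩,⟨false,0,⟨0,[]⟩,⟨0,[]⟩⟩,⟨false,0,⟨0,[]⟩,⟨0,[]⟩⟩,[.a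
  ⟨true,0,⟨0,[(36,0)]⟩,⟨1,[(6,0),(4,0),(8,0)]⟩⟩ ⟨false,0,⟨0,[(40,0)]⟩,⟨1,[(37,0),(0,0)]⟩⟩ ⟨true,
  (-1),⟨0,[(5,0),(4,0)]⟩,⟨1,[(0,0),(22,1),(4,0)]⟩⟩,.o ⟨false,1,⟨1,[(28,0),(7,1),(1,0)]⟩,⟨0,[(35,
  0)]⟩⟩,.o ⟨false,2,⟨0,[(23,0),(4,0),(8,0)]⟩,⟨0,[(2,0),(7,0),(23,0)]⟩⟩,.e ⟨false,0,⟨0,[]⟩,⟨1,[(16,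
  0),(0,0),(20,0)]⟩⟩ ⟨false,0,⟨1,[(5,0),(4,0),(9,0),(15,0),(1,0)]⟩,⟨1,[(0,0),(22,1),(4,0)]⟩⟩]⟩) (.R
  ⟨0,false,false,false,[1,0,-1],[1,-1],[],(⟨0,[(25,0)]⟩,⟨0,[(26,0)]⟩),(⟨0,[(29,0)]⟩,⟨0,[(30,0)]⟩),
  ⟨0,[(14,0)]⟩,.k,.k,.k,.k,.k,.k,⟨false,0,⟨0,[(36,0)]⟩,⟨3,[(8,1),(7,0),(0,0),(20,0)]⟩⟩,⟨true,0,⟨0,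
  [(23,0)]⟩,⟨2,[(2,0),(17,1),(1,0),(5,0),(5,1)]⟩⟩,⟨false,0,⟨0,[(2,0),(35,0)]⟩,⟨1,[(10,1),(12,1),(4,
  0),(8,0)]⟩⟩,⟨true,0,⟨0,[(11,0)]⟩,⟨1,[(0,0),(21,1),(14,0)]⟩⟩,⟨false,0,⟨0,[]⟩,⟨0,[]⟩⟩,⟨false,0,⟨0,
  []⟩,⟨0,[]⟩⟩,[.e ⟨false,1,⟨1,[(16,0),(0,0),(19,0)]⟩,⟨0,[]⟩⟩ ⟨false,1,⟨0,[(3,0),(19,0)]⟩,⟨1,[(0,0),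
  (19,1),(7,0)]⟩⟩,.o ⟨false,1,⟨25,[(6,5),(0,3),(0,5),(12,1),(2,5),(3,2),(9,16)]⟩,⟨1,[(0,0),(0,1),
  (26,0)]⟩⟩,.o ⟨false,0,⟨2,[(2,0),(17,1),(1,0),(5,0),(5,1)]⟩,⟨1,[(23,1),(4,0),(8,0)]⟩⟩,.a ⟨true,
  (-1),⟨0,[(2,0),(7,0),(23,0)]⟩,⟨0,[(23,0),(13,0)]⟩⟩ ⟨false,1,⟨1,[(37,0),(0,0)]⟩,⟨1,[(23,0),(0,
  0)]⟩⟩ ⟨true,1,⟨0,[(3,0),(19,0)]⟩,⟨0,[(5,0),(16,0)]⟩⟩]⟩))))) (.Q [0,1,0,1,0,0,1,1,0,-1,1] (.p true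
  [0,0,1] [1] (⟨0,[(22,0)]⟩,⟨0,[(21,0)]⟩) .k 1 (⟨0,[]⟩,⟨0,[]⟩) .k .k) (.R ⟨2,false,false,false,[0,
  1],[1,0,-1],[0,1],(⟨0,[]⟩,⟨0,[]⟩),(⟨0,[(22,0)]⟩,⟨0,[(23,0)]⟩),⟨0,[]⟩,.k,.k,.k,.k,.k,.k,⟨false,0,
  ⟨1,[(0,0),(1,0),(2,0),(11,0)]⟩,⟨1,[(1,1),(18,1),(4,0),(8,0)]⟩⟩,⟨true,(-1),⟨0,[(1,0),(0,0),(29,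
  0)]⟩,⟨1,[(20,1),(4,0),(8,0)]⟩⟩,⟨false,1,⟨3,[(5,1),(7,0),(0,0),(20,0)]⟩,⟨0,[(31,0),(1,0)]⟩⟩,⟨true,
  0,⟨0,[(1,0),(30,0)]⟩,⟨0,[(0,0)]⟩⟩,⟨false,1,⟨1,[(13,0),(0,0),(19,0)]⟩,⟨0,[(31,0)]⟩⟩,⟨false,0,⟨0,
  [(1,0)]⟩,⟨1,[(18,1),(6,0),(9,0)]⟩⟩,[.a ⟨true,0,⟨0,[(7,0)]⟩,⟨0,[(9,0)]⟩⟩ ⟨true,0,⟨0,[(37,0)]⟩,⟨0,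
  [(31,0)]⟩⟩ ⟨false,0,⟨0,[(7,0)]⟩,⟨3,[(0,1),(7,1),(16,0),(8,1),(0,0)]⟩⟩,.e ⟨false,1,⟨1,[(13,0),(0,
  0),(19,0)]⟩,⟨0,[]⟩⟩ ⟨false,0,⟨0,[(1,0)]⟩,⟨1,[(18,1),(6,0),(8,0)]⟩⟩,.o ⟨false,1,⟨1,[(25,0),(8,0)]⟩,
  ⟨1,[(20,0),(0,0)]⟩⟩,.fo]⟩) (.R ⟨0,false,false,true,[1,0,-1],[-1,1,1],[0,1,0,-1,0,0,0,-1],(⟨0,[(22,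
  0)]⟩,⟨0,[(23,0)]⟩),(⟨0,[(11,0)]⟩,⟨0,[(22,0),(3,0)]⟩),⟨0,[(11,0)]⟩,.k,.k,.k,(.r (-2) ⟨1,[(0,1),(18,
  1),(0,3),(4,0),(8,2)]⟩ ⟨5,[(2,7),(5,1),(0,1),(0,1),(14,0),(8,0)]⟩),.k,.k,⟨true,2,⟨0,[(0,1),(19,1),
  (4,0),(4,0),(3,0)]⟩,⟨0,[(2,1)]⟩⟩,⟨false,3,⟨0,[(20,1),(4,0),(8,1)]⟩,⟨0,[(0,1),(1,1),(27,0)]⟩⟩,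
  ⟨true,0,⟨0,[(32,0)]⟩,⟨0,[(33,0)]⟩⟩,⟨false,1,⟨0,[(9,1),(15,0),(7,0)]⟩,⟨0,[(0,0),(6,0)]⟩⟩,⟨false,0,
  ⟨0,[]⟩,⟨0,[]⟩⟩,⟨false,0,⟨0,[]⟩,⟨0,[]⟩⟩,[.o ⟨false,1,⟨0,[(18,0),(6,0),(7,0)]⟩,⟨0,[(0,0)]⟩⟩,.o
  ⟨false,1,⟨0,[(9,0),(15,0),(7,0)]⟩,⟨1,[(0,0),(6,0),(24,0)]⟩⟩,.o ⟨false,0,⟨11,[(0,2),(1,4),(2,0),(4,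
  1),(6,2),(1,1),(5,3)]⟩,⟨1,[(20,1),(4,0),(8,0)]⟩⟩,.a ⟨true,(-1),⟨1,[(0,0),(1,1),(4,0),(24,0)]⟩,⟨0,
  [(20,0),(13,0)]⟩⟩ ⟨true,1,⟨1,[(0,1),(19,1),(4,0),(4,1),(3,0)]⟩,⟨0,[(6,0)]⟩⟩ ⟨false,2,⟨0,[(9,0),
  (10,0),(4,0),(7,0),(0,0)]⟩,⟨1,[(0,2),(1,1),(4,0),(24,0)]⟩⟩]⟩))) (.N [0,1,1] 1 ⟨0,[(4,0)]⟩ ⟨0,[(0,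
  0)]⟩ .k)) (.Q [0,0,1,0,-1,0,-1,0,0,1,-1] (.p false [0,0,1] [1] (⟨0,[(20,0)]⟩,⟨0,[(19,0)]⟩) .k 1
  (⟨0,[]⟩,⟨0,[]⟩) .k .k) (.R ⟨2,true,false,true,[0,1],[1,0,-1],[1,0,1],(⟨0,[]⟩,⟨0,[]⟩),(⟨0,[(20,
  0)]⟩,⟨0,[(21,0)]⟩),⟨0,[]⟩,.k,.k,.k,.k,.k,.k,⟨false,0,⟨5,[(0,0),(0,1),(0,1),(1,1),(10,0),(17,2)]⟩,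
  ⟨0,[(17,0),(0,0),(13,0)]⟩⟩,⟨true,(-1),⟨0,[(0,0)]⟩,⟨1,[(18,1),(4,0),(8,0)]⟩⟩,⟨false,1,⟨0,[(30,0),
  (2,0)]⟩,⟨0,[(31,0)]⟩⟩,⟨true,0,⟨0,[(5,0),(24,0)]⟩,⟨0,[(1,0),(16,0)]⟩⟩,⟨true,0,⟨0,[]⟩,⟨0,[(35,0)]⟩⟩,
  ⟨false,0,⟨0,[(5,0)]⟩,⟨1,[(7,1),(15,0),(9,0)]⟩⟩,[]⟩) (.R ⟨2,true,false,false,[0,1],[1,0,-1],[1,1,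
  1],(⟨0,[]⟩,⟨0,[]⟩),(⟨0,[(20,0)]⟩,⟨0,[(21,0)]⟩),⟨0,[]⟩,.k,.k,.k,.k,.k,.k,⟨true,(-1),⟨0,[(4,0),(25,
  0)]⟩,⟨0,[(0,0),(4,0),(23,0)]⟩⟩,⟨false,0,⟨1,[(8,0),(6,0),(2,0)]⟩,⟨0,[(0,0)]⟩⟩,⟨true,0,⟨0,[(30,0)]⟩,
  ⟨0,[(31,0)]⟩⟩,⟨false,1,⟨0,[(5,0),(24,0),(2,0)]⟩,⟨0,[(1,0),(16,0)]⟩⟩,⟨false,0,⟨0,[]⟩,⟨1,[(11,0),(0,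
  0),(20,0)]⟩⟩,⟨true,0,⟨0,[(5,0)]⟩,⟨4,[(1,2),(0,1),(1,0),(12,0),(0,3),(4,0),(4,1)]⟩⟩,[]⟩)))))

theorem ok3 : chk K t3 r3 = true := by decide +kernel

noncomputable def t5 : Tre :=
  (.S ⟨1,0,[0,0,0,0,0,0,0,1],[0,0,1],[0,1,0,0,0,0,0,1],(⟨0,[(16,0)]⟩,⟨0,[(15,0)]⟩),⟨0,[(5,0)]⟩,.k,
  .k,⟨true,0,⟨0,[(30,0)]⟩,⟨0,[]⟩⟩,⟨false,1,⟨1,[(6,0),(0,0),(20,0)]⟩,⟨0,[]⟩⟩,⟨false,0,⟨0,[(26,0)]⟩,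
  ⟨0,[(25,0),(2,0)]⟩⟩,⟨true,0,⟨0,[(26,0)]⟩,⟨0,[(25,0)]⟩⟩,[.o ⟨false,0,⟨0,[(0,0)]⟩,⟨1,[(6,0),(0,0),
  (4,1),(15,0)]⟩⟩,.o ⟨false,1,⟨3,[(0,1),(10,1),(6,0),(9,2)]⟩,⟨0,[(12,0)]⟩⟩,.o ⟨false,1,⟨1,[(13,1),
  (4,0),(8,0)]⟩,⟨0,[(0,0),(9,0),(1,0),(11,0)]⟩⟩,.a ⟨true,0,⟨0,[(13,0)]⟩,⟨0,[(10,0)]⟩⟩ ⟨false,0,⟨0,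
  [(0,0),(9,0)]⟩,⟨0,[(12,0),(0,0),(14,0)]⟩⟩ ⟨true,0,⟨0,[(0,0),(9,0)]⟩,⟨0,[(12,0),(0,0)]⟩⟩]⟩)

theorem ok5 : chk K t5 r2 = true := by decide +kernel

noncomputable def t4 : Tre :=
  .I [0,0,-1,-1,1,0,0,-1] t2 t3

theorem ok4 : chk K t4 l2 = true :=
  chk_I (e' := [1,0,1,1,-1,0,0,1]) (by decide +kernel) (by decide +kernel) ok2 ok3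

noncomputable def t6 : Tre :=
  .Q [0,0,0,0,0,0,-1,-1,0,1,-1] (.p false [0,0,1] [1] (⟨0,[(15,0)]⟩,⟨0,[(14,0)]⟩) .k 1 (⟨0,[]⟩,⟨0,
  []⟩) .k .k) t4 t5

theorem ok6 : chk K t6 r1 = true :=
  chk_Q (e' := [0,0,0,0,0,0,1,1,0,-1,1]) (by decide +kernel) (by decide +kernel) ok4 ok5

noncomputable def t7 : Tre :=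
  .Q [0,0,0,1,0,0,-1,-1,0,0,-1] (.p false [0,0,1] [] (⟨0,[(14,0)]⟩,⟨0,[(13,0)]⟩) .k 0 (⟨0,[]⟩,⟨0,
  []⟩) .k .k) t1 t6

theorem ok7 : chk K t7 r0 = true :=
  chk_Q (e' := [0,0,0,-1,0,0,1,1,0,0,1]) (by decide +kernel) (by decide +kernel) ok1 ok6

noncomputable def t8 : Tre :=
  .Q [0,0,0,0,0,0,-1,-1,0,0,-1] (.p false [0,0,1] [] (⟨0,[(13,0)]⟩,⟨0,[(12,0)]⟩) .k 0 (⟨0,[]⟩,⟨0,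
  []⟩) .k .k) t0 t7

theorem ok8 : chk K t8 base = true :=
  chk_Q (e' := [0,0,0,0,0,0,1,1,0,0,1]) (by decide +kernel) (by decide +kernel) ok0 ok7

theorem closed {p a b c J l q : ℤ} {D dl : ℝ} {Cl : ℤ → ℤ → ℤ → ℤ → ℝ → Prop}
    (W : World p a b c J 1 l q D dl Cl) (g : G0 p a b c J D)
    {N X R : ℤ} {I : ℝ} (hk : KCl p l Cl N X R I) (kz : KF a b D (X + (1 : ℤ) * I) (X + (1 : ℤ) * I + R) I)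
    {Ne Xe : ℤ} {Ie : ℝ} (he : EFac p 1 D Cl 1 Ne Xe Ie)
    (hkf : ∀ kf ∈ (kfY 1 [0,0,0,0,0,0,1,0,0,0,1]), KOk p l Cl 1
      (xv [1, a, b, c, p, J, X, R, Xe] [D, I, Ie]) N kf)
    (h0 : 1 ≤ (c : ℝ))
    (h1 : 1 ≤ 1 - (a : ℝ) + (b : ℝ))
    (h2 : 1 ≤ 2 * (a : ℝ) - (b : ℝ))
    (h3 : 0 < -3 + (p : ℝ) - 2 * D)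
    (h4 : 1 ≤ 2 * (a : ℝ) - (b : ℝ))
    (h5 : 1 ≤ -2 + (J : ℝ))
    (h6 : 0 < -(b : ℝ) - (X : ℝ) + D - I)
    (h7 : 0 < -(J : ℝ) + I)
    (h8 : 0 < (J : ℝ) - D + I)
    (h9 : 0 < -2 * (X : ℝ) + D - 2 * I) : False := by
  have g1 := g.a2
  have g2 := g.b2
  have g3 := g.pa
  have g4 := g.pb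
  have g5 := g.J1
  have g6 := g.JD
  have g7 := g.D2
  have g8 := g.ca
  have g9 := g.ca'
  have k1 := kz.I0
  have k2 := kz.ID
  have k3 := kz.z1
  have k4 := kz.z2
  have k5 := kz.s1
  have k6 := kz.s2
  have e1 := he.I0
  have e2 := he.ID
  have e3 := he.x0
  have e4 := he.xp
  push_cast at *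
  refine (val_E W.toBase hk he (row := [1]) (by simp) (by simp) (kfY 1 [0,0,0,0,0,0,1,0,0,0,1])).sound W rfl (Nk := N)
    (fun kf _ _ => ⟨_, rfl⟩) hkf ?_ ok8
  · simp only [base, List.forall_mem_cons, List.not_mem_nil, false_imp_iff, implies_true,
      and_true, hld, xv, evg_cons, evg_nil, List.map_cons, List.map_nil, List.cons_append,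
      List.nil_append, if_true, if_false, Bool.false_eq_true]
    push_cast
    refine ⟨?_, ?_, ?_, ?_, ?_, ?_, ?_, ?_, ?_, ?_, ?_, ?_, ?_, ?_, ?_, ?_, ?_, ?_, ?_, ?_, ?_, ?_, ?_, ?_, ?_, ?_, ?_, ?_⟩ <;> linarith

end Helper48.Y.Y11_c35_P4_m1n0
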