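import Pool.Agent.Helper25.KG.S1b
import Pool.Agent.Helper11.CT.Clo

set_option autoImplicit false
set_option linter.all false

namespace Helper48.Y.Y11_c35_P2_m1n1_CB

open Helper25.KG Helper25.KW Helper55.KE Helper11.CT

noncomputable def K : Cls :=
  cE 1 [1] (kfY 1 [0,0,0,0,0,0,1,0,0,0,1])

noncomputable def base : List Con :=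
  [(false,[0,0,0,0,0,0,-2,0,0,1,-2]),
  (false,[0,0,0,0,0,-1,0,0,0,1,-1]),
  (false,[0,0,0,0,0,-1,0,0,0,0,1]),
  (false,[0,0,0,0,1,0,0,0,-1,0,0,-1]),
  (false,[0,0,0,0,0,0,0,0,1,0,0,1]),
  (false,[0,0,0,0,0,0,0,0,0,1,0,-1]),
  (false,[0,0,0,0,0,0,0,0,0,0,0,1]),
  (false,[0,0,-1,0,0,0,-1,0,0,1,-1]),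
  (false,[0,1,0,0,0,0,1,1,0,0,1]),
  (false,[0,1,0,0,0,0,-1,-1,0,0,-1]),
  (false,[0,0,1,0,0,0,1,0,0,0,1]),
  (false,[0,0,1,0,0,0,-1,0,0,0,-1]),
  (false,[0,0,0,0,0,0,0,0,0,1,-1]),
  (false,[0,0,0,0,0,0,0,0,0,0,1]),
  (true,[3,0,0,0,0,-1]),
  (true,[-1,0,0,0,0,1]),
  (false,[0,0,0,0,1,0,0,0,0,-2]),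
  (false,[0,0,0,0,0,-1,0,0,0,1]),
  (true,[0,0,0,0,0,1]),
  (true,[0,2,-1]),
  (true,[-1,-2,0,0,1]),
  (true,[1,-1,1]),
  (true,[1,1,-1]),
  (false,[1,0,0,0,2,0,0,0,0,-5]),
  (true,[0,2,-1]),
  (true,[1,-1,1]),
  (true,[0,1,0,-1]),
  (true,[0,0,0,1]),
  (true,[0,0,-2,0,1]),
  (true,[0,-2,0,0,1]),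
  (true,[-1,0,1]),
  (true,[-1,1])]

noncomputable def l0 : List Con := (true, [0,1,0,0,0,0,0,1]) :: base

noncomputable def r0 : List Con := (true, [1,-1,0,0,0,0,0,-1]) :: base

noncomputable def l1 : List Con := (true, [0,0,1,2,-1]) :: l0

noncomputable def r1 : List Con := (true, [1,0,-1,-2,1]) :: l0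

noncomputable def l2 : List Con := (true, [0,1,-1,0,0,0,0,1]) :: r1

noncomputable def r2 : List Con := (true, [1,-1,1,0,0,0,0,-1]) :: r1

noncomputable def l3 : List Con := (true, [0,-1,0,0,0,0,0,1]) :: l2

noncomputable def r3 : List Con := (true, [1,1,0,0,0,0,0,-1]) :: l2

noncomputable def l4 : List Con := (false, [0,0,0,0,0,0,-1,0,0,0,-1]) :: r3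

noncomputable def r4 : List Con := (false, [0,0,0,0,0,0,1,0,0,0,1]) :: r3

noncomputable def l5 : List Con := (false, [0,1,0,-1,0,0,1,1,0,0,1]) :: l4

noncomputable def r5 : List Con := (false, [0,-1,0,1,0,0,-1,-1,0,0,-1]) :: l4

noncomputable def l6 : List Con := (true, [1,1,-1,-1,0,0,0,1]) :: l5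

noncomputable def r6 : List Con := (true, [0,-1,1,1,0,0,0,-1]) :: l5

noncomputable def l7 : List Con := (false, [1,0,0,0,-1,0,0,0,1,0,0,1]) :: l6

noncomputable def r7 : List Con := (false, [-1,0,0,0,1,0,0,0,-1,0,0,-1]) :: l6

noncomputable def l8 : List Con := (false, [-1,0,0,1,0,0,0,0,-1,0,0,-1]) :: r7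

noncomputable def r8 : List Con := (false, [1,0,0,-1,0,0,0,0,1,0,0,1]) :: r7

noncomputable def t0 : Tre :=
  (.Q [0,0,0,1,0,0,0,0,0,-1] (.pp true [-1,1]) (.Q [0,0,2,0,-1,0,0,0,0,1] (.pp false [-1,1]) (.S ⟨1,
  0,[0,1,-1,-1],[1,-1],[0,0,-1,-1],(⟨0,[(21,0)]⟩,⟨0,[(22,0)]⟩),⟨0,[(5,0),(0,0)]⟩,.k,(.r (-2) ⟨0,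
  [(30,1),(1,0),(0,0)]⟩ ⟨1,[(2,1),(11,0),(0,0)]⟩),⟨false,1,⟨1,[(7,0),(0,0),(24,0)]⟩,⟨0,[]⟩⟩,⟨true,0,
  ⟨0,[(35,0)]⟩,⟨0,[]⟩⟩,⟨true,0,⟨0,[(31,0)]⟩,⟨0,[(30,0)]⟩⟩,⟨false,0,⟨0,[(31,0)]⟩,⟨0,[(30,0),(2,0)]⟩⟩,
  [.o ⟨false,0,⟨0,[(30,0)]⟩,⟨9,[(7,0),(0,0),(18,1),(3,9),(1,4)]⟩⟩,.o ⟨false,1,⟨1,[(7,0),(0,0),(21,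
  1),(2,0)]⟩,⟨0,[(1,0)]⟩⟩,.o ⟨false,0,⟨1,[(14,0),(0,0)]⟩,⟨9,[(7,0),(0,0),(18,1),(4,4)]⟩⟩,.a ⟨true,
  (-1),⟨0,[(0,0)]⟩,⟨0,[(32,0)]⟩⟩ ⟨false,2,⟨0,[(30,0),(1,0),(0,0)]⟩,⟨0,[(0,0),(0,0)]⟩⟩ ⟨true,1,⟨0,
  [(30,0),(1,0)]⟩,⟨0,[(0,0),(0,0)]⟩⟩]⟩) (.R ⟨2,true,false,true,[0,1],[1,-1],[1,1,1],(⟨0,[]⟩,⟨0,[]⟩),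
  (⟨0,[(21,0)]⟩,⟨0,[(22,0)]⟩),⟨0,[]⟩,.k,.k,.k,(.r 1 ⟨1,[(2,1),(11,0),(0,0)]⟩ ⟨0,[(30,1),(1,0),(0,
  0)]⟩),.k,.k,⟨true,(-1),⟨0,[(2,0),(22,0),(4,0)]⟩,⟨1,[(30,1),(1,0),(0,0)]⟩⟩,⟨false,0,⟨1,[(4,0),(4,
  0),(0,0),(3,1)]⟩,⟨0,[(0,0)]⟩⟩,⟨true,0,⟨0,[(30,0)]⟩,⟨0,[(31,0)]⟩⟩,⟨false,1,⟨0,[(9,0),(0,0),(19,1),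
  (2,0)]⟩,⟨0,[(0,0),(1,0),(22,0)]⟩⟩,⟨false,0,⟨0,[]⟩,⟨1,[(7,0),(0,0),(24,0)]⟩⟩,⟨true,0,⟨0,[(9,0),(0,
  0),(19,0)]⟩,⟨0,[(1,0)]⟩⟩,[]⟩)) (.R ⟨2,true,false,false,[0,1],[1,-1],[1,1,1],(⟨0,[]⟩,⟨0,[]⟩),(⟨0,
  [(20,0)]⟩,⟨0,[(21,0)]⟩),⟨0,[]⟩,.k,.k,.k,(.r 1 ⟨1,[(1,1),(11,0),(0,0)]⟩ ⟨0,[(29,1),(1,0),(0,0)]⟩),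
  .k,.k,⟨false,(-1),⟨0,[(1,0),(27,0)]⟩,⟨0,[(29,0),(1,0),(0,0)]⟩⟩,⟨true,(-1),⟨0,[(0,0),(0,0),(22,0),
  (4,0)]⟩,⟨9,[(6,0),(0,0),(18,1),(4,4)]⟩⟩,⟨true,0,⟨0,[(29,0)]⟩,⟨0,[(30,0)]⟩⟩,⟨false,1,⟨0,[(0,0),(28,
  0),(2,0)]⟩,⟨4,[(1,3),(24,0),(3,1),(0,1)]⟩⟩,⟨false,0,⟨0,[]⟩,⟨1,[(6,0),(0,0),(24,0)]⟩⟩,⟨true,0,⟨0,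
  [(0,0)]⟩,⟨4,[(1,1),(24,0),(0,1),(2,0),(3,0)]⟩⟩,[]⟩))

theorem ok0 : chk K t0 l1 = true := by decide +kernel

noncomputable def t1 : Tre :=
  (.I [1,-1,0,0,1,0,0,-1] (.S ⟨1,0,[0,0,0,0,0,0,0,1],[0,0,1],[0,1,0,0,0,0,0,1],(⟨0,[(18,0)]⟩,⟨0,
  [(17,0)]⟩),⟨0,[(7,0)]⟩,.k,.k,⟨true,0,⟨0,[(36,0)]⟩,⟨0,[]⟩⟩,⟨false,1,⟨1,[(0,0),(3,0),(29,0)]⟩,⟨0,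
  []⟩⟩,⟨false,0,⟨0,[(32,0)]⟩,⟨3,[(3,1),(11,0),(0,0),(17,1)]⟩⟩,⟨true,0,⟨0,[(32,0)]⟩,⟨0,[(31,0)]⟩⟩,
  [.e ⟨false,0,⟨0,[(2,0)]⟩,⟨0,[(0,0)]⟩⟩ ⟨false,0,⟨0,[(1,0),(25,0)]⟩,⟨0,[(0,0),(35,0)]⟩⟩,.o ⟨false,1,
  ⟨4,[(1,3),(11,0),(1,3),(12,0),(4,1),(0,0)]⟩,⟨0,[(14,0)]⟩⟩,.o ⟨false,1,⟨4,[(0,0),(12,0),(1,3),(12,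
  0),(4,1)]⟩,⟨0,[(1,0),(12,0)]⟩⟩,.a ⟨true,0,⟨0,[(15,0)]⟩,⟨0,[(12,0)]⟩⟩ ⟨false,0,⟨0,[(1,0),(25,0)]⟩,
  ⟨1,[(0,1),(14,0),(0,0)]⟩⟩ ⟨true,0,⟨0,[(1,0),(25,0)]⟩,⟨0,[(14,0),(0,0)]⟩⟩]⟩) (.Q [0,-1,0,1,0,0,1,1,
  0,0,1] (.p true [0,0,1] [] (⟨0,[(18,0)]⟩,⟨0,[(17,0)]⟩) .k 0 (⟨0,[]⟩,⟨0,[]⟩) .k .k) (.R ⟨2,true,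
  false,false,[0,1],[0,1,1],[0,0,1,1],(⟨0,[]⟩,⟨0,[]⟩),(⟨0,[(19,0),(1,0)]⟩,⟨0,[(7,0)]⟩),⟨0,[]⟩,.k,.k,
  .k,.k,.k,.k,⟨true,1,⟨1,[(15,1),(0,1),(17,0),(0,0)]⟩,⟨0,[(1,0),(25,0)]⟩⟩,⟨false,1,⟨0,[(16,0),(17,
  0)]⟩,⟨7,[(1,1),(4,0),(6,3),(1,1),(11,3),(1,0)]⟩⟩,⟨false,1,⟨1,[(9,0),(0,0),(24,0)]⟩,⟨0,[]⟩⟩,⟨true,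
  0,⟨3,[(0,1),(0,0),(2,0),(9,0),(1,0)]⟩,⟨0,[(15,0)]⟩⟩,⟨true,0,⟨0,[(33,0)]⟩,⟨0,[(32,0)]⟩⟩,⟨false,0,
  ⟨0,[(0,0)]⟩,⟨3,[(4,1),(10,3),(0,0),(0,0),(17,1)]⟩⟩,[]⟩) (.I [1,1,0,-1,-1,0,0,1] (.Q [0,0,0,0,0,0,
  -1,-1,0,1,-1] (.p false [0,0,1] [1] (⟨0,[(20,0)]⟩,⟨0,[(19,0)]⟩) .k 1 (⟨0,[]⟩,⟨0,[]⟩) .k .k) (.Q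
  [0,0,0,-1,0,0,-1,-1,0,1,-1] (.p false [0,0,1] [1] (⟨0,[(21,0)]⟩,⟨0,[(20,0)]⟩) .k 1 (⟨0,[]⟩,⟨0,
  []⟩) .k .k) (.Q [0,0,-2,-1,1,0,1,1,0,-1,1] (.p true [0,0,1] [1] (⟨0,[(22,0)]⟩,⟨0,[(21,0)]⟩) .k 1
  (⟨0,[]⟩,⟨0,[]⟩) .k .k) (.R ⟨1,false,false,false,[1,-1],[0,-1,1],[0,1,-1,-1],(⟨0,[(27,0)]⟩,⟨0,[(28,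
  0)]⟩),(⟨0,[(12,0)]⟩,⟨0,[(22,0),(2,0)]⟩),⟨0,[(11,0),(0,0)]⟩,.k,.k,(.r (-1) ⟨0,[(0,0),(0,0)]⟩ ⟨0,
  [(20,0),(0,0),(15,1)]⟩),.k,.k,.k,⟨false,1,⟨0,[(19,0),(0,0),(17,0)]⟩,⟨0,[(6,0)]⟩⟩,⟨true,1,⟨9,[(13,
  0),(0,0),(5,9),(12,1),(4,4)]⟩,⟨0,[(2,0),(2,0),(25,0)]⟩⟩,⟨true,0,⟨0,[(41,0)]⟩,⟨0,[]⟩⟩,⟨false,1,⟨18,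
  [(0,3),(5,7),(11,6),(1,7),(12,2),(3,3),(1,8)]⟩,⟨0,[(2,0)]⟩⟩,⟨false,0,⟨0,[(37,0)]⟩,⟨3,[(8,1),(11,
  0),(0,0),(17,1)]⟩⟩,⟨false,1,⟨18,[(0,3),(5,7),(11,6),(1,7),(12,2),(3,22),(1,8)]⟩,⟨0,[(1,0)]⟩⟩,[.e
  ⟨false,1,⟨1,[(8,0),(25,0),(3,0)]⟩,⟨0,[(31,0),(5,0)]⟩⟩ ⟨false,1,⟨0,[(0,0)]⟩,⟨1,[(2,1),(17,0),(0,0),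
  (15,1)]⟩⟩,.o ⟨false,1,⟨12,[(0,2),(5,9),(1,4),(11,9),(10,0),(1,1),(5,0)]⟩,⟨0,[(19,0),(17,0)]⟩⟩,.o
  ⟨false,0,⟨1,[(20,0),(0,0)]⟩,⟨9,[(13,0),(0,0),(18,1),(4,4)]⟩⟩,.a ⟨true,(-1),⟨0,[(2,0),(2,0),(14,0),
  (10,0)]⟩,⟨0,[(38,0)]⟩⟩ ⟨false,1,⟨1,[(0,0),(0,0),(36,0)]⟩,⟨1,[(20,0),(0,0),(9,1),(5,1)]⟩⟩ ⟨true,1,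
  ⟨0,[(0,0)]⟩,⟨0,[(2,0),(2,0),(13,0),(0,0),(10,0),(5,0)]⟩⟩]⟩) (.I [1,0,2,2,-1] (.I [3,0,-1,-1,1,0,0,
  -1] (.N [0,2] 1 ⟨0,[(1,0)]⟩ ⟨1,[(0,1),(4,1),(26,0),(7,0)]⟩ (.x (-2) ⟨4,[(15,0),(0,0),(12,9),(5,1),
  (4,4)]⟩ ⟨0,[(0,0),(0,0),(3,0),(21,1),(5,0)]⟩)) (.Q [0,0,0,2,0,0,-1,-1,0,0,-1] (.p false [0,0,1]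
  [] (⟨0,[(25,0)]⟩,⟨0,[(24,0)]⟩) .k 0 (⟨0,[]⟩,⟨0,[]⟩) .k .k) (.R ⟨1,true,false,false,[0,0,1],[0,1],
  [1,1,0,-1,0,0,0,1],(⟨0,[(26,0)]⟩,⟨0,[(25,0)]⟩),(⟨0,[(31,0)]⟩,⟨0,[(30,0)]⟩),⟨0,[(15,0)]⟩,.k,.k,.k,
  .k,(.r (-1) ⟨5,[(6,1),(2,2),(0,0),(0,4),(29,2)]⟩ ⟨1,[(0,1),(22,2),(0,0)]⟩),.k,⟨true,0,⟨2,[(6,1),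
  (3,0),(0,1)]⟩,⟨0,[(0,0),(22,0),(10,0)]⟩⟩,⟨false,1,⟨5,[(13,0),(6,3),(15,0),(4,3)]⟩,⟨0,[(23,0)]⟩⟩,
  ⟨true,0,⟨0,[(39,0)]⟩,⟨0,[(40,0)]⟩⟩,⟨false,1,⟨3,[(0,1),(15,0),(0,0),(4,1),(19,2)]⟩,⟨1,[(6,1),(16,
  1),(17,0),(0,0)]⟩⟩,⟨false,0,⟨0,[]⟩,⟨1,[(16,0),(0,0),(24,0)]⟩⟩,⟨true,0,⟨0,[(0,0)]⟩,⟨2,[(6,1),(4,1),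
  (9,0),(1,1)]⟩⟩,[]⟩) (.Q [0,0,0,2,0,0,1,1,0,-1,1] (.p true [0,0,1] [1] (⟨0,[(26,0)]⟩,⟨0,[(25,0)]⟩)
  .k 1 (⟨0,[]⟩,⟨0,[]⟩) .k .k) (.I [0,0,-2,-2,2,0,0,-1] (.R ⟨1,true,false,false,[1,0,-1],[0,1],[0,1,
  0,0,0,0,0,-1],(⟨0,[(27,0)]⟩,⟨0,[(28,0)]⟩),(⟨0,[(33,0)]⟩,⟨0,[(32,0)]⟩),⟨0,[(16,0)]⟩,.k,.k,.k,.k,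
  (.r (-2) ⟨0,[(0,0)]⟩ ⟨1,[(4,1),(6,0),(2,0)]⟩),.k,⟨true,1,⟨1,[(0,0),(23,0),(0,0),(11,0)]⟩,⟨0,[(3,
  0),(32,0)]⟩⟩,⟨false,2,⟨0,[(0,0),(0,0)]⟩,⟨4,[(5,2),(0,0),(1,1),(2,1),(10,0)]⟩⟩,⟨true,0,⟨0,[(46,
  0)]⟩,⟨0,[]⟩⟩,⟨false,1,⟨19,[(1,9),(16,0),(0,0),(3,9),(14,1),(5,14)]⟩,⟨0,[(6,0)]⟩⟩,⟨false,0,⟨0,[(42,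
  0)]⟩,⟨7,[(0,1),(1,1),(22,0),(0,2),(17,3)]⟩⟩,⟨true,0,⟨0,[(1,0)]⟩,⟨0,[(6,0),(34,0)]⟩⟩,[]⟩) (.R ⟨1,
  true,false,false,[1,0,-1],[0,1],[0,1,0,0,0,0,0,-1],(⟨0,[(27,0)]⟩,⟨0,[(28,0)]⟩),(⟨0,[(33,0)]⟩,⟨0,
  [(32,0)]⟩),⟨0,[(16,0)]⟩,.k,.k,.k,.k,(.x 1 ⟨4,[(0,1),(7,0),(0,2),(16,1),(1,4),(1,9),(5,3)]⟩ ⟨3,
  [(16,4),(0,0),(7,3),(3,1),(8,0),(4,5)]⟩),.k,⟨true,1,⟨0,[(9,0),(15,0),(17,0)]⟩,⟨5,[(0,1),(1,0),(1,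
  1),(6,2),(14,0),(9,2)]⟩⟩,⟨false,2,⟨9,[(18,0),(0,0),(5,9),(12,1),(4,14)]⟩,⟨8,[(0,3),(1,1),(2,0),(0,
  4),(8,1),(6,0)]⟩⟩,⟨true,0,⟨0,[(46,0)]⟩,⟨0,[]⟩⟩,⟨false,1,⟨19,[(1,9),(16,0),(0,0),(3,9),(14,1),(5,
  14)]⟩,⟨0,[(6,0)]⟩⟩,⟨false,0,⟨0,[(42,0)]⟩,⟨3,[(13,1),(11,0),(0,0),(17,1)]⟩⟩,⟨true,0,⟨0,[(1,0)]⟩,⟨0,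
  [(6,0),(34,0)]⟩⟩,[]⟩)) (.I [-1,0,0,1] (.Q [1,0,0,0,-1,0,0,0,1,0,0,1] (.p true [0,0,0,0,1] [] (⟨0,
  [(21,0)]⟩,⟨0,[(20,0)]⟩) .k 0 (⟨0,[]⟩,⟨0,[]⟩) .k .k) (.R ⟨2,true,false,true,[0,1],[0,0,0,0,1],[1,
  1],(⟨0,[]⟩,⟨0,[]⟩),(⟨0,[(22,0)]⟩,⟨0,[(21,0)]⟩),⟨0,[]⟩,.k,.k,.k,(.r 0 ⟨5,[(5,2),(13,1),(0,1),(15,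
  0),(10,1)]⟩ ⟨3,[(14,1),(4,0),(0,0),(23,0)]⟩),.k,.k,⟨false,1,⟨1,[(19,0),(0,0),(23,0)]⟩,⟨0,[]⟩⟩,
  ⟨true,(-1),⟨50,[(0,39),(2,9),(1,4),(0,9),(13,10),(18,1),(6,20)]⟩,⟨0,[(19,0)]⟩⟩,⟨false,1,⟨3,[(14,
  1),(4,0),(0,0),(23,0)]⟩,⟨1,[(5,0),(39,0)]⟩⟩,⟨true,(-1),⟨0,[(0,0),(41,0)]⟩,⟨0,[(19,0),(23,0)]⟩⟩,
  ⟨true,0,⟨0,[(38,0)]⟩,⟨1,[(26,0),(0,0)]⟩⟩,⟨false,(-1),⟨0,[(0,0)]⟩,⟨1,[(19,2),(0,0),(15,0)]⟩⟩,[]⟩)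
  (.Q [0,0,0,-1,0,0,0,0,1,0,0,1] (.p true [0,0,0,0,1] [] (⟨0,[(22,0)]⟩,⟨0,[(21,0)]⟩) .k 0 (⟨0,[]⟩,
  ⟨0,[]⟩) .k .k) (.Q [1,-1,0,0,0,0,0,0,1,-1,0,1] (.p true [0,0,0,0,1] [1] (⟨0,[(23,0)]⟩,⟨0,[(22,
  0)]⟩) .k 1 (⟨0,[]⟩,⟨0,[]⟩) .k .k) (.R ⟨1,false,false,false,[0,0,1],[0,0,0,0,1],[0,0,0,0,0,0,0,1],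
  (⟨0,[(31,0)]⟩,⟨0,[(30,0)]⟩),(⟨0,[(24,0)]⟩,⟨0,[(23,0)]⟩),⟨0,[(20,0)]⟩,.k,.k,.k,.k,(.r 0 ⟨1,[(11,1),
  (26,0),(7,0)]⟩ ⟨4,[(2,2),(7,4),(11,2),(5,4),(12,0),(3,4)]⟩),.k,⟨false,0,⟨1,[(13,0),(0,0),(31,0)]⟩,
  ⟨9,[(2,0),(7,9),(11,0),(5,9),(12,1),(4,4)]⟩⟩,⟨true,(-1),⟨0,[(0,0),(9,0),(2,0)]⟩,⟨0,[(2,0),(25,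
  0)]⟩⟩,⟨false,1,⟨1,[(2,0),(19,0),(24,0)]⟩,⟨0,[]⟩⟩,⟨false,0,⟨0,[(0,0),(9,0)]⟩,⟨2,[(2,2),(2,0),(0,1),
  (21,1),(17,1)]⟩⟩,⟨true,0,⟨0,[(45,0)]⟩,⟨0,[(44,0)]⟩⟩,⟨false,0,⟨0,[(0,0),(9,0),(34,0)]⟩,⟨2,[(2,2),
  (2,1),(0,0),(21,0),(17,0)]⟩⟩,[.o ⟨false,0,⟨12,[(0,7),(0,3),(5,1),(14,0),(18,0),(0,3)]⟩,⟨0,[(2,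
  0)]⟩⟩,.o ⟨false,0,⟨0,[(0,0)]⟩,⟨0,[(2,0),(46,0)]⟩⟩,.o ⟨false,1,⟨9,[(2,0),(19,0),(5,9),(12,1),(4,
  4)]⟩,⟨59,[(4,2),(1,0),(1,11),(2,6),(2,6),(3,9),(6,24),(15,9)]⟩⟩,.a ⟨true,0,⟨0,[(28,0)]⟩,⟨0,[(25,
  0)]⟩⟩ ⟨true,0,⟨1,[(13,0),(0,0),(31,0)]⟩,⟨0,[(27,0),(0,0)]⟩⟩ ⟨false,0,⟨0,[(0,0),(24,0)]⟩,⟨0,[(2,0),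
  (25,0)]⟩⟩]⟩) (.I [0,0,-2,0,1,-2,0,0,-2] (.Q [-1,0,0,0,0,0,0,0,-1,1,0,-1] (.p false [0,0,0,0,1]
  [1] (⟨0,[(25,0)]⟩,⟨0,[(24,0)]⟩) .k 1 (⟨0,[]⟩,⟨0,[]⟩) .k .k) (.S ⟨1,0,[1,1],[0,0,0,0,1],[],(⟨0,
  [(26,0)]⟩,⟨0,[(25,0)]⟩),⟨4,[(1,1),(1,3),(5,1),(16,0),(7,0)]⟩,.k,(.r (-1) ⟨3,[(4,0),(13,1),(5,0),
  (23,0)]⟩ ⟨9,[(4,3),(4,4),(14,3),(15,0),(10,1)]⟩),⟨false,1,⟨1,[(4,0),(19,0),(24,0)]⟩,⟨0,[]⟩⟩,⟨true,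
  0,⟨0,[(51,0)]⟩,⟨0,[]⟩⟩,⟨true,0,⟨0,[(5,0)]⟩,⟨0,[(46,0)]⟩⟩,⟨false,0,⟨0,[(47,0)]⟩,⟨3,[(18,1),(11,0),
  (0,0),(17,1)]⟩⟩,[.o ⟨false,0,⟨4,[(3,3),(5,1),(14,0),(17,2),(0,0),(0,0)]⟩,⟨5,[(0,4),(3,0),(38,0),
  (5,2)]⟩⟩,.a ⟨true,0,⟨0,[(24,0)]⟩,⟨0,[(0,0)]⟩⟩ ⟨false,1,⟨1,[(48,0),(0,0)]⟩,⟨0,[(51,0)]⟩⟩ ⟨true,0,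
  ⟨0,[]⟩,⟨1,[(30,0),(0,0)]⟩⟩,.e ⟨false,1,⟨1,[(4,0),(19,0),(24,0)]⟩,⟨0,[]⟩⟩ ⟨false,0,⟨0,[]⟩,⟨1,[(4,
  0),(19,0),(24,0)]⟩⟩,.o ⟨false,0,⟨19,[(3,15),(5,7),(14,3),(5,0),(0,0),(11,3),(6,1)]⟩,⟨5,[(0,4),(3,
  0),(38,0),(4,2)]⟩⟩]⟩) (.R ⟨1,false,false,true,[0,0,1],[0,0,0,0,1],[1,0,0,-1,0,0,0,1],(⟨0,[(33,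
  0)]⟩,⟨0,[(32,0)]⟩),(⟨0,[(26,0)]⟩,⟨0,[(25,0)]⟩),⟨0,[(22,0)]⟩,.k,.k,.k,.k,(.r 0 ⟨1,[(13,1),(26,0),
  (7,0)]⟩ ⟨4,[(4,2),(7,4),(11,2),(5,4),(12,0),(3,4)]⟩),.k,⟨true,0,⟨0,[(13,0),(35,0)]⟩,⟨0,[(29,0),(0,
  0),(16,0)]⟩⟩,⟨false,0,⟨5,[(0,5),(4,0),(0,0),(1,0),(18,4),(20,0)]⟩,⟨11,[(1,4),(2,1),(20,9),(4,11),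
  (4,9),(7,1),(4,0)]⟩⟩,⟨false,1,⟨3,[(18,1),(11,0),(0,0),(17,1)]⟩,⟨0,[(47,0)]⟩⟩,⟨false,0,⟨0,[(0,0),
  (11,0)]⟩,⟨11,[(1,4),(2,1),(11,11),(8,9),(4,11),(4,9),(7,1),(4,0)]⟩⟩,⟨true,0,⟨0,[]⟩,⟨0,[(51,0)]⟩⟩,
  ⟨false,0,⟨0,[(0,0),(11,0),(34,0)]⟩,⟨11,[(1,4),(2,1),(2,5),(8,5),(8,9),(4,5),(4,9),(5,3),(1,1),(5,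
  0)]⟩⟩,[.o ⟨false,0,⟨11,[(0,6),(8,1),(14,4),(18,0),(0,3),(1,3)]⟩,⟨11,[(1,4),(2,1),(20,9),(9,9),(5,
  9),(1,1),(5,0)]⟩⟩,.o ⟨false,0,⟨0,[(0,0)]⟩,⟨0,[(4,0)]⟩⟩,.o ⟨false,1,⟨9,[(4,0),(19,0),(5,9),(12,1),
  (4,4)]⟩,⟨59,[(6,2),(1,0),(1,11),(2,6),(2,6),(3,9),(6,24),(15,9)]⟩⟩,.a ⟨true,0,⟨0,[(30,0)]⟩,⟨0,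
  [(27,0)]⟩⟩ ⟨true,0,⟨1,[(13,1),(34,0),(0,0)]⟩,⟨0,[(29,0),(0,0),(16,0)]⟩⟩ ⟨false,0,⟨0,[(0,0),(26,
  0)]⟩,⟨11,[(1,4),(2,1),(20,9),(4,11),(4,9),(5,9),(1,1),(5,0)]⟩⟩]⟩)) (.Q [0,0,-2,0,1,0,0,0,1,-1,0,
  1] (.p true [0,0,0,0,1] [1] (⟨0,[(25,0)]⟩,⟨0,[(24,0)]⟩) .k 1 (⟨0,[]⟩,⟨0,[]⟩) .k .k) (.Q [-1,1,0,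
  -1,0,0,0,0,-1,1,0,-1] (.p false [0,0,0,0,1] [1] (⟨0,[(26,0)]⟩,⟨0,[(25,0)]⟩) .k 1 (⟨0,[]⟩,⟨0,[]⟩)
  .k .k) (.Q [1,-1,0,0,0,0,0,0,1,0,0,1] (.p true [0,0,0,0,1] [] (⟨0,[(27,0)]⟩,⟨0,[(26,0)]⟩) .k 0
  (⟨0,[]⟩,⟨0,[]⟩) .k .k) (.Q [0,0,0,0,0,-1,0,0,0,1,0,-1] (.ed true [0,1,0,0,1] .k) (.Q [0,0,0,0,0,0,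
  0,0,1,-1,0,1] (.p true [0,0,0,0,1] [1] (⟨0,[(29,0)]⟩,⟨0,[(28,0)]⟩) .k 1 (⟨0,[]⟩,⟨0,[]⟩) .k .k)
  (.S ⟨1,0,[-1,1],[1,0,0,0,-1],[-1],(⟨0,[(29,0)]⟩,⟨0,[(30,0)]⟩),⟨0,[(1,0)]⟩,.k,(.r (-1) ⟨19,[(8,2),
  (13,9),(5,2),(15,1),(7,4),(2,3)]⟩ ⟨1,[(8,0),(4,0),(14,0)]⟩),⟨false,1,⟨1,[(8,0),(19,0),(24,0)]⟩,⟨0,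
  []⟩⟩,⟨true,0,⟨0,[(55,0)]⟩,⟨0,[]⟩⟩,⟨true,0,⟨0,[(51,0)]⟩,⟨0,[(50,0)]⟩⟩,⟨false,0,⟨0,[(51,0)]⟩,⟨3,
  [(22,1),(11,0),(0,0),(17,1)]⟩⟩,[.a ⟨true,0,⟨0,[(6,0)]⟩,⟨0,[(2,0)]⟩⟩ ⟨false,1,⟨1,[(8,0),(19,0),(23,
  0)]⟩,⟨0,[]⟩⟩ ⟨true,0,⟨0,[(55,0)]⟩,⟨0,[(45,0)]⟩⟩,.o ⟨false,1,⟨0,[(8,0)]⟩,⟨0,[(0,0)]⟩⟩,.o ⟨false,1,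
  ⟨0,[(27,0)]⟩,⟨0,[(0,0)]⟩⟩,.e ⟨false,1,⟨1,[(44,0),(7,0)]⟩,⟨1,[(34,0),(0,0)]⟩⟩ ⟨false,1,⟨1,[(8,0),
  (19,0),(23,0)]⟩,⟨0,[(45,0)]⟩⟩]⟩) (.R ⟨2,true,false,false,[0,1],[0,0,0,0,1],[1,0,1],(⟨0,[]⟩,⟨0,
  []⟩),(⟨0,[(30,0)]⟩,⟨0,[(29,0)]⟩),⟨0,[]⟩,.k,.k,.k,(.r 0 ⟨9,[(8,3),(4,4),(14,3),(15,0),(10,1)]⟩ ⟨3,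
  [(8,0),(13,1),(5,0),(23,0)]⟩),.k,.k,⟨true,0,⟨1,[(34,0),(0,0)]⟩,⟨0,[]⟩⟩,⟨false,0,⟨0,[(28,0)]⟩,⟨5,
  [(0,4),(7,0),(38,0),(4,2)]⟩⟩,⟨false,1,⟨3,[(22,1),(11,0),(0,0),(17,1)]⟩,⟨0,[(51,0)]⟩⟩,⟨true,0,⟨0,
  [(7,0)]⟩,⟨19,[(0,16),(2,2),(5,8),(2,0),(0,6),(4,0),(15,0),(11,15),(0,3)]⟩⟩,⟨true,0,⟨0,[]⟩,⟨0,[(55,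
  0)]⟩⟩,⟨false,0,⟨0,[(2,0)]⟩,⟨0,[(8,0)]⟩⟩,[]⟩)) (.Q [1,-1,0,-1,0,0,0,0,1,0,0,1] (.p true [0,0,0,0,
  1] [] (⟨0,[(29,0)]⟩,⟨0,[(28,0)]⟩) .k 0 (⟨0,[]⟩,⟨0,[]⟩) .k .k) (.R ⟨0,false,false,false,[1,0,0,0,
  -1],[0,1],[1,1,1],(⟨0,[(29,0)]⟩,⟨0,[(30,0)]⟩),(⟨0,[(42,0)]⟩,⟨0,[(41,0)]⟩),⟨0,[(1,0)]⟩,.k,.k,(.r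
  (-1) ⟨19,[(8,2),(13,9),(5,2),(15,1),(7,4),(2,3)]⟩ ⟨1,[(8,0),(4,0),(14,0)]⟩),(.r (-1) ⟨19,[(8,2),
  (13,9),(5,2),(15,1),(7,4),(2,3)]⟩ ⟨1,[(8,0),(4,0),(14,0)]⟩),.k,.k,⟨true,0,⟨0,[(50,0)]⟩,⟨1,[(13,0),
  (39,0)]⟩⟩,⟨false,1,⟨0,[(4,0)]⟩,⟨1,[(3,1),(9,0),(39,0)]⟩⟩,⟨false,0,⟨1,[(34,0),(0,0)]⟩,⟨1,[(44,0),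
  (7,0)]⟩⟩,⟨true,0,⟨10,[(0,4),(3,5),(8,7),(32,2),(0,0),(0,0)]⟩,⟨0,[(3,0)]⟩⟩,⟨false,0,⟨0,[]⟩,⟨0,[]⟩⟩,
  ⟨false,0,⟨0,[]⟩,⟨0,[]⟩⟩,[.a ⟨true,0,⟨0,[(51,0)]⟩,⟨1,[(0,0),(2,0),(25,0),(0,0)]⟩⟩ ⟨false,0,⟨0,[(55,
  0)]⟩,⟨1,[(52,0),(0,0)]⟩⟩ ⟨true,0,⟨22,[(0,9),(3,12),(4,2),(2,1),(0,14),(4,1),(15,1),(11,7),(0,1)]⟩,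
  ⟨0,[(3,0),(41,0)]⟩⟩,.o ⟨false,1,⟨5,[(4,0),(3,0),(4,0),(33,0),(3,3),(1,2)]⟩,⟨0,[(50,0)]⟩⟩,.o
  ⟨false,1,⟨0,[(27,0)]⟩,⟨22,[(0,19),(3,2),(4,9),(3,6),(4,3),(0,3),(14,3),(11,11),(0,3)]⟩⟩,.e ⟨false,
  0,⟨0,[]⟩,⟨1,[(8,0),(19,0),(24,0)]⟩⟩ ⟨false,1,⟨1,[(4,1),(8,0),(39,0)]⟩,⟨0,[(3,0),(41,0)]⟩⟩]⟩) (.Q
  [0,0,-1,0,1,0,0,0,-1,0,0,-1] (.p false [0,0,0,0,1] [] (⟨0,[(30,0)]⟩,⟨0,[(29,0)]⟩) .k 0 (⟨0,[]⟩,⟨0,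
  []⟩) .k .k) (.R ⟨2,true,false,false,[0,1],[0,0,0,0,1],[1,1],(⟨0,[]⟩,⟨0,[]⟩),(⟨0,[(31,0)]⟩,⟨0,[(30,
  0)]⟩),⟨0,[]⟩,.k,.k,.k,(.r 0 ⟨9,[(9,3),(4,4),(14,3),(15,0),(10,1)]⟩ ⟨3,[(9,0),(13,1),(5,0),(23,
  0)]⟩),.k,.k,⟨true,0,⟨0,[(56,0)]⟩,⟨0,[(50,0)]⟩⟩,⟨false,0,⟨0,[(29,0)]⟩,⟨0,[(0,0)]⟩⟩,⟨false,1,⟨3,[(9,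
  0),(13,1),(5,0),(23,0)]⟩,⟨1,[(14,0),(39,0)]⟩⟩,⟨true,0,⟨0,[(8,0)]⟩,⟨0,[(1,0)]⟩⟩,⟨true,0,⟨0,[(47,
  0)]⟩,⟨1,[(35,0),(0,0)]⟩⟩,⟨false,0,⟨0,[(3,0)]⟩,⟨0,[(9,0)]⟩⟩,[]⟩) (.R ⟨2,true,false,false,[0,1],[0,
  0,0,0,1],[2,0,1],(⟨0,[]⟩,⟨0,[]⟩),(⟨0,[(31,0)]⟩,⟨0,[(30,0)]⟩),⟨0,[]⟩,.k,.k,.k,(.r 0 ⟨9,[(9,3),(4,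
  4),(14,3),(15,0),(10,1)]⟩ ⟨3,[(9,0),(13,1),(5,0),(23,0)]⟩),.k,.k,⟨false,0,⟨0,[]⟩,⟨1,[(9,0),(19,0),
  (23,0)]⟩⟩,⟨true,(-1),⟨0,[(0,0)]⟩,⟨0,[(28,0)]⟩⟩,⟨false,1,⟨3,[(23,1),(11,0),(0,0),(17,1)]⟩,⟨0,[(10,
  0)]⟩⟩,⟨true,0,⟨0,[(8,0)]⟩,⟨0,[(1,0)]⟩⟩,⟨true,0,⟨0,[]⟩,⟨0,[(56,0)]⟩⟩,⟨false,0,⟨0,[(3,0)]⟩,⟨0,[(9,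
  0)]⟩⟩,[]⟩)))) (.Q [0,0,0,0,0,-1,0,0,0,1,0,-1] (.ed true [0,1,0,0,1] .k) (.R ⟨1,false,false,true,
  [1,0,0,0,-1],[1,-1],[-1],(⟨0,[(28,0)]⟩,⟨0,[(29,0)]⟩),(⟨0,[(40,0)]⟩,⟨0,[(41,0)]⟩),⟨0,[(0,0)]⟩,.k,
  .k,(.r (-1) ⟨19,[(7,2),(13,9),(5,2),(15,1),(7,4),(2,3)]⟩ ⟨1,[(7,0),(4,0),(14,0)]⟩),(.r 0 ⟨9,[(7,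
  3),(4,4),(14,3),(15,0),(10,1)]⟩ ⟨3,[(7,0),(13,1),(5,0),(23,0)]⟩),.k,.k,⟨true,0,⟨0,[(8,0),(39,0)]⟩,
  ⟨0,[(49,0)]⟩⟩,⟨false,0,⟨0,[(27,0)]⟩,⟨1,[(1,1),(49,0),(0,0)]⟩⟩,⟨false,1,⟨1,[(7,0),(19,0),(24,0)]⟩,
  ⟨0,[]⟩⟩,⟨false,0,⟨0,[(6,0)]⟩,⟨0,[(1,0),(48,0),(1,0)]⟩⟩,⟨true,0,⟨0,[(50,0)]⟩,⟨0,[(49,0)]⟩⟩,⟨false,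
  0,⟨0,[(27,0)]⟩,⟨0,[(1,0),(50,0)]⟩⟩,[.o ⟨false,0,⟨0,[(49,0)]⟩,⟨5,[(3,0),(3,0),(4,0),(33,0),(3,3),
  (1,2)]⟩⟩,.a ⟨true,0,⟨2,[(10,0),(3,0),(13,1),(0,1)]⟩,⟨0,[(50,0)]⟩⟩ ⟨false,1,⟨1,[(43,0),(7,0)]⟩,⟨0,
  [(54,0)]⟩⟩ ⟨true,0,⟨0,[(6,0)]⟩,⟨1,[(1,1),(10,0),(39,0)]⟩⟩,.e ⟨false,1,⟨1,[(7,0),(19,0),(24,0)]⟩,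
  ⟨0,[]⟩⟩ ⟨false,0,⟨0,[(6,0)]⟩,⟨0,[(1,0),(48,0),(1,0)]⟩⟩,.o ⟨false,0,⟨0,[(1,0),(42,0)]⟩,⟨9,[(3,4),
  (3,2),(19,7),(18,0)]⟩⟩]⟩) (.R ⟨0,false,false,true,[1,0,0,0,-1],[1,0,-1],[],(⟨0,[(28,0)]⟩,⟨0,[(29,
  0)]⟩),(⟨0,[(35,0)]⟩,⟨0,[(36,0)]⟩),⟨0,[(0,0)]⟩,.k,.k,(.r (-1) ⟨19,[(7,2),(13,9),(5,2),(15,1),(7,4),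
  (2,3)]⟩ ⟨1,[(7,0),(4,0),(14,0)]⟩),.k,.k,.k,⟨true,0,⟨0,[(19,0)]⟩,⟨0,[(32,0),(0,0)]⟩⟩,⟨false,0,⟨7,
  [(3,7),(5,0),(3,4),(2,2),(2,2),(10,1)]⟩,⟨1,[(1,1),(31,1),(17,0),(0,0)]⟩⟩,⟨true,0,⟨0,[]⟩,⟨0,[(54,
  0)]⟩⟩,⟨false,0,⟨8,[(0,1),(2,6),(0,0),(4,2),(3,5),(23,3)]⟩,⟨1,[(1,1),(17,1),(13,1),(17,0),(0,0)]⟩⟩,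
  ⟨false,0,⟨0,[]⟩,⟨0,[]⟩⟩,⟨false,0,⟨0,[]⟩,⟨0,[]⟩⟩,[.o ⟨false,0,⟨0,[(32,0)]⟩,⟨4,[(19,3),(11,0),(1,3),
  (12,0),(4,1),(0,0)]⟩⟩,.a ⟨true,0,⟨0,[(15,0)]⟩,⟨2,[(10,0),(0,1),(21,1),(17,1)]⟩⟩ ⟨false,1,⟨1,[(51,
  0),(0,0)]⟩,⟨0,[(54,0)]⟩⟩ ⟨true,0,⟨0,[(3,0),(5,0),(2,0)]⟩,⟨0,[(1,0),(17,0),(13,0)]⟩⟩,.e ⟨false,1,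
  ⟨1,[(7,0),(19,0),(24,0)]⟩,⟨0,[]⟩⟩ ⟨false,0,⟨0,[(3,0),(5,0),(2,0)]⟩,⟨1,[(1,1),(17,1),(13,1),(17,0),
  (0,0)]⟩⟩,.o ⟨false,0,⟨0,[(1,0),(42,0)]⟩,⟨9,[(3,4),(3,2),(19,7),(18,0)]⟩⟩]⟩))) (.R ⟨2,true,false,
  true,[0,1],[1,0,0,0,-1],[1,1,1],(⟨0,[]⟩,⟨0,[]⟩),(⟨0,[(26,0)]⟩,⟨0,[(27,0)]⟩),⟨0,[]⟩,.k,.k,.k,(.r 0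
  ⟨1,[(5,0),(4,0),(14,0)]⟩ ⟨19,[(5,2),(13,9),(5,2),(15,1),(7,4),(2,3)]⟩),.k,.k,⟨false,0,⟨0,[]⟩,⟨1,
  [(5,0),(19,0),(23,0)]⟩⟩,⟨true,0,⟨0,[(3,0),(38,0)]⟩,⟨0,[(0,0),(46,0)]⟩⟩,⟨true,0,⟨0,[(47,0)]⟩,⟨0,
  [(48,0)]⟩⟩,⟨false,1,⟨1,[(3,0),(1,0),(1,0),(21,0),(20,0)]⟩,⟨0,[(0,0)]⟩⟩,⟨false,0,⟨0,[]⟩,⟨1,[(5,0),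
  (19,0),(24,0)]⟩⟩,⟨true,0,⟨0,[(3,0)]⟩,⟨51,[(0,31),(3,19),(5,0),(3,6),(0,6),(15,6),(12,3),(0,8)]⟩⟩,
  []⟩)) (.Q [0,0,0,0,0,-1,0,0,0,1,0,-1] (.ed true [0,1,0,0,1] .k) (.S ⟨1,0,[-1,1],[1,0,0,0,-1],[-1],
  (⟨0,[(26,0)]⟩,⟨0,[(27,0)]⟩),⟨0,[(0,0)]⟩,.k,(.r (-1) ⟨19,[(5,2),(13,9),(5,2),(15,1),(7,4),(2,3)]⟩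
  ⟨1,[(5,0),(4,0),(14,0)]⟩),⟨false,1,⟨1,[(5,0),(19,0),(24,0)]⟩,⟨0,[]⟩⟩,⟨true,0,⟨0,[(52,0)]⟩,⟨0,[]⟩⟩,
  ⟨true,0,⟨0,[(48,0)]⟩,⟨0,[(47,0)]⟩⟩,⟨false,0,⟨0,[(48,0)]⟩,⟨3,[(19,1),(11,0),(0,0),(17,1)]⟩⟩,[.o
  ⟨false,0,⟨36,[(1,31),(1,4),(2,11),(0,2),(0,2),(34,31),(0,7),(4,15)]⟩,⟨9,[(5,0),(19,10),(18,1),(5,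
  4)]⟩⟩,.e ⟨false,1,⟨1,[(41,0),(7,0)]⟩,⟨0,[(52,0)]⟩⟩ ⟨false,1,⟨1,[(5,0),(19,0),(23,0)]⟩,⟨0,[]⟩⟩,.a
  ⟨true,0,⟨0,[(1,0),(47,0)]⟩,⟨0,[(25,0)]⟩⟩ ⟨false,1,⟨1,[(5,0),(19,0),(24,0)]⟩,⟨0,[]⟩⟩ ⟨true,0,⟨0,
  [(52,0)]⟩,⟨0,[]⟩⟩,.o ⟨false,0,⟨5,[(1,4),(3,0),(38,0),(4,1)]⟩,⟨9,[(5,0),(19,10),(18,1),(4,4)]⟩⟩]⟩)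
  (.R ⟨2,true,false,true,[0,1],[1,0,0,0,-1],[1,0,1],(⟨0,[]⟩,⟨0,[]⟩),(⟨0,[(26,0)]⟩,⟨0,[(27,0)]⟩),⟨0,
  []⟩,.k,.k,.k,(.r 0 ⟨1,[(5,0),(4,0),(14,0)]⟩ ⟨19,[(5,2),(13,9),(5,2),(15,1),(7,4),(2,3)]⟩),.k,.k,
  ⟨true,0,⟨0,[(42,0)]⟩,⟨0,[(52,0)]⟩⟩,⟨false,0,⟨0,[(1,0),(47,0)]⟩,⟨9,[(5,0),(19,10),(18,1),(4,4)]⟩⟩,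
  ⟨false,1,⟨3,[(19,1),(11,0),(0,0),(17,1)]⟩,⟨0,[(48,0)]⟩⟩,⟨true,0,⟨36,[(1,7),(1,28),(2,2),(0,9),(0,
  9),(34,7),(0,1),(4,3)]⟩,⟨1,[(0,1),(1,0),(3,1),(28,3),(5,0),(1,1)]⟩⟩,⟨true,0,⟨0,[]⟩,⟨0,[(52,0)]⟩⟩,
  ⟨false,0,⟨0,[(1,0),(47,0)]⟩,⟨9,[(5,0),(19,10),(18,1),(5,4)]⟩⟩,[]⟩))))) (.Q [0,0,0,0,0,-1,0,0,0,0,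
  0,1] (.ed false [1,-1,0,0,1] .k) (.S ⟨1,0,[1,1],[0,0,0,0,1],[],(⟨0,[(24,0)]⟩,⟨0,[(23,0)]⟩),⟨0,[(0,
  0)]⟩,.k,(.r (-1) ⟨3,[(2,0),(13,1),(5,0),(23,0)]⟩ ⟨9,[(2,3),(4,4),(14,3),(15,0),(10,1)]⟩),⟨false,1,
  ⟨1,[(2,0),(19,0),(24,0)]⟩,⟨0,[]⟩⟩,⟨true,0,⟨0,[(49,0)]⟩,⟨0,[]⟩⟩,⟨true,0,⟨0,[(3,0)]⟩,⟨0,[(44,0)]⟩⟩,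
  ⟨false,0,⟨0,[(45,0)]⟩,⟨3,[(16,1),(11,0),(0,0),(17,1)]⟩⟩,[.o ⟨false,0,⟨4,[(7,0),(3,0),(0,0),(9,4),
  (5,0),(11,2),(0,0)]⟩,⟨35,[(1,19),(0,15),(1,4),(0,4),(32,2),(2,0),(5,14)]⟩⟩,.a ⟨true,0,⟨0,[(22,
  0)]⟩,⟨5,[(1,5),(3,1),(3,1),(13,0),(0,0),(8,2),(1,2)]⟩⟩ ⟨false,1,⟨1,[(46,0),(0,0)]⟩,⟨0,[(49,0)]⟩⟩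
  ⟨true,0,⟨0,[]⟩,⟨1,[(28,0),(0,0)]⟩⟩,.e ⟨false,1,⟨1,[(2,0),(19,0),(24,0)]⟩,⟨0,[]⟩⟩ ⟨false,0,⟨0,[]⟩,
  ⟨1,[(2,0),(19,0),(24,0)]⟩⟩,.o ⟨false,0,⟨11,[(4,2),(0,0),(0,0),(0,3),(3,0),(10,11),(5,1),(10,0),(1,
  2)]⟩,⟨2,[(1,1),(0,0),(13,0),(29,0)]⟩⟩]⟩) (.S ⟨1,0,[-1,1],[1,0,0,0,-1],[-1],(⟨0,[(23,0)]⟩,⟨0,[(24,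
  0)]⟩),⟨0,[(0,0),(18,0),(0,0)]⟩,.k,(.r (-1) ⟨19,[(2,2),(13,9),(5,2),(15,1),(7,4),(2,3)]⟩ ⟨1,[(2,0),
  (4,0),(14,0)]⟩),⟨false,1,⟨1,[(2,0),(19,0),(24,0)]⟩,⟨0,[]⟩⟩,⟨true,0,⟨0,[(49,0)]⟩,⟨0,[]⟩⟩,⟨true,0,
  ⟨0,[(45,0)]⟩,⟨0,[(44,0)]⟩⟩,⟨false,0,⟨0,[(45,0)]⟩,⟨3,[(16,1),(11,0),(0,0),(17,1)]⟩⟩,[.o ⟨false,0,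
  ⟨0,[(1,0),(42,0)]⟩,⟨9,[(2,0),(19,10),(18,1),(5,4)]⟩⟩,.e ⟨false,1,⟨1,[(38,0),(7,0)]⟩,⟨0,[(49,0)]⟩⟩
  ⟨false,1,⟨1,[(2,0),(19,0),(23,0)]⟩,⟨0,[]⟩⟩,.a ⟨true,0,⟨2,[(1,2),(3,0),(3,0),(13,1),(0,1)]⟩,⟨0,
  [(22,0)]⟩⟩ ⟨false,1,⟨1,[(2,0),(19,0),(24,0)]⟩,⟨0,[]⟩⟩ ⟨true,0,⟨0,[(49,0)]⟩,⟨0,[]⟩⟩,.o ⟨false,0,
  ⟨17,[(1,12),(0,4),(1,0),(0,9),(2,8),(32,1)]⟩,⟨9,[(2,0),(19,10),(18,1),(4,4)]⟩⟩]⟩)))) (.N [0,2] 1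
  ⟨0,[(4,0)]⟩ ⟨0,[(0,1),(34,0),(1,1)]⟩ (.x (-2) ⟨4,[(18,0),(0,0),(12,9),(5,1),(4,4)]⟩ ⟨0,[(0,1),(3,
  0),(25,1)]⟩)))))) (.S ⟨1,0,[0,0,-1,-1],[1,-1],[1,1,-1,-2],(⟨0,[(28,0)]⟩,⟨0,[(29,0)]⟩),⟨0,[(12,0),
  (0,0)]⟩,.k,(.r (-1) ⟨0,[(0,0)]⟩ ⟨0,[(21,0),(0,0),(15,1)]⟩),⟨true,0,⟨0,[(37,0)]⟩,⟨0,[(38,0)]⟩⟩,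
  ⟨false,1,⟨1,[(14,0),(0,0),(24,0)]⟩,⟨0,[]⟩⟩,⟨false,0,⟨0,[]⟩,⟨1,[(14,0),(0,0),(24,0)]⟩⟩,⟨true,0,⟨0,
  [(38,0)]⟩,⟨0,[(37,0)]⟩⟩,[.e ⟨false,1,⟨1,[(0,0),(8,0),(25,0)]⟩,⟨0,[(32,0),(5,1)]⟩⟩ ⟨false,1,⟨1,[(0,
  0),(38,0)]⟩,⟨1,[(21,0),(0,0),(15,1)]⟩⟩,.o ⟨false,1,⟨3,[(9,1),(11,0),(0,0),(17,1)]⟩,⟨3,[(1,0),(4,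
  0),(14,0),(11,2),(0,0),(3,2)]⟩⟩,.o ⟨false,0,⟨1,[(21,0),(0,0)]⟩,⟨9,[(14,0),(0,0),(18,1),(4,4)]⟩⟩,
  .a ⟨true,(-1),⟨4,[(1,2),(0,0),(1,1),(2,1),(8,0),(0,0),(3,3)]⟩,⟨0,[(39,0)]⟩⟩ ⟨false,1,⟨0,[(0,0)]⟩,
  ⟨13,[(1,4),(8,4),(10,4),(10,12),(1,0),(3,22),(1,2)]⟩⟩ ⟨true,1,⟨1,[(0,0),(38,0)]⟩,⟨18,[(1,14),(4,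
  9),(12,4),(1,9),(12,2),(0,1),(2,3)]⟩⟩]⟩))) (.R ⟨2,true,false,false,[0,1],[1,0,-1],[0,1,1,1],(⟨0,
  []⟩,⟨0,[]⟩),(⟨0,[(21,0)]⟩,⟨0,[(22,0)]⟩),⟨0,[]⟩,.k,.k,.k,.k,.k,.k,⟨false,(-1),⟨0,[(4,0),(31,0)]⟩,
  ⟨0,[(3,0),(15,0),(17,0),(0,0)]⟩⟩,⟨true,(-1),⟨0,[(1,0),(2,0),(25,0)]⟩,⟨9,[(12,0),(0,0),(5,9),(12,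
  1),(4,4)]⟩⟩,⟨true,0,⟨0,[(40,0)]⟩,⟨0,[]⟩⟩,⟨false,1,⟨3,[(1,3),(5,1),(11,0),(0,0),(17,1)]⟩,⟨0,[(0,
  0)]⟩⟩,⟨false,0,⟨0,[(36,0)]⟩,⟨3,[(7,1),(11,0),(0,0),(17,1)]⟩⟩,⟨true,0,⟨0,[(1,0)]⟩,⟨26,[(0,11),(1,
  7),(4,1),(9,6),(1,7),(12,2),(0,5)]⟩⟩,[]⟩)) (.S ⟨1,0,[0,0,0,0,0,0,0,1],[0,0,1],[1,1,0,-1,0,0,0,1],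
  (⟨0,[(21,0)]⟩,⟨0,[(20,0)]⟩),⟨0,[(10,0)]⟩,.k,.k,⟨true,0,⟨0,[(34,0)]⟩,⟨0,[(35,0)]⟩⟩,⟨false,1,⟨1,
  [(11,0),(0,0),(24,0)]⟩,⟨0,[]⟩⟩,⟨false,0,⟨0,[]⟩,⟨1,[(11,0),(0,0),(24,0)]⟩⟩,⟨true,0,⟨0,[(35,0)]⟩,⟨0,
  [(34,0)]⟩⟩,[.o ⟨false,0,⟨0,[(0,0)]⟩,⟨1,[(11,0),(0,0),(4,1),(19,0)]⟩⟩,.o ⟨false,1,⟨8,[(0,3),(15,4),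
  (14,0),(5,6)]⟩,⟨0,[(17,0)]⟩⟩,.o ⟨false,1,⟨9,[(11,0),(0,0),(5,9),(12,1),(4,4)]⟩,⟨7,[(3,1),(4,0),(6,
  3),(1,1),(11,3),(1,0)]⟩⟩,.a ⟨true,0,⟨0,[(18,0)]⟩,⟨0,[(15,0)]⟩⟩ ⟨false,0,⟨1,[(1,1),(34,0),(0,0)]⟩,
  ⟨0,[(17,0),(0,0),(16,0),(1,0)]⟩⟩ ⟨true,0,⟨1,[(3,0),(0,0),(31,0)]⟩,⟨0,[(17,0),(0,0)]⟩⟩]⟩)) (.S ⟨1,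
  0,[0,0,0,0,0,0,0,1],[0,0,1],[],(⟨0,[(20,0)]⟩,⟨0,[(19,0)]⟩),⟨0,[(9,0)]⟩,.k,.k,⟨true,1,⟨0,[(0,0),
  (32,0)]⟩,⟨0,[(2,0)]⟩⟩,⟨false,1,⟨1,[(10,0),(0,0),(24,0)]⟩,⟨0,[]⟩⟩,⟨false,1,⟨0,[(0,0)]⟩,⟨0,[(3,0),
  (29,0)]⟩⟩,⟨true,0,⟨0,[(34,0)]⟩,⟨0,[(33,0)]⟩⟩,[.e ⟨false,1,⟨4,[(0,1),(4,0),(0,1),(28,1)]⟩,⟨0,[]⟩⟩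
  ⟨false,0,⟨1,[(2,0),(0,0),(31,0)]⟩,⟨0,[(0,0),(32,0)]⟩⟩,.o ⟨false,1,⟨4,[(3,3),(11,0),(1,3),(12,0),
  (4,1),(0,0)]⟩,⟨0,[(16,0)]⟩⟩,.o ⟨false,1,⟨14,[(0,1),(4,0),(9,1),(1,12),(12,2),(4,5)]⟩,⟨7,[(2,1),(4,
  0),(6,3),(1,1),(11,3),(1,0)]⟩⟩,.a ⟨true,0,⟨0,[(17,0)]⟩,⟨0,[(14,0)]⟩⟩ ⟨false,1,⟨1,[(35,0),(0,0)]⟩,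
  ⟨1,[(17,0),(0,0)]⟩⟩ ⟨true,0,⟨1,[(2,0),(0,0),(31,0)]⟩,⟨0,[(16,0),(0,0)]⟩⟩]⟩))))

theorem ok1 : chk K t1 l3 = true := by decide +kernel

noncomputable def t2 : Tre :=
  (.R ⟨2,true,false,true,[0,1],[0,0,0,0,1],[1,1],(⟨0,[]⟩,⟨0,[]⟩),(⟨0,[(14,0)]⟩,⟨0,[(13,0)]⟩),⟨0,[]⟩,
  .k,.k,.k,(.r 0 ⟨1,[(18,0),(0,0),(15,1)]⟩ ⟨3,[(6,1),(4,0),(0,0),(23,0)]⟩),.k,.k,⟨false,1,⟨1,[(11,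
  0),(0,0),(23,0)]⟩,⟨0,[]⟩⟩,⟨true,(-1),⟨3,[(0,3),(17,0),(0,0),(18,1)]⟩,⟨0,[(11,0)]⟩⟩,⟨false,1,⟨3,
  [(6,1),(4,0),(0,0),(23,0)]⟩,⟨0,[(29,0),(5,0)]⟩⟩,⟨true,(-1),⟨0,[(0,0),(33,0)]⟩,⟨0,[(11,0),(23,
  0)]⟩⟩,⟨true,0,⟨0,[(30,0)]⟩,⟨1,[(18,0),(0,0)]⟩⟩,⟨false,(-1),⟨0,[(0,0)]⟩,⟨1,[(11,2),(0,0),(15,0)]⟩⟩,
  []⟩)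

theorem ok2 : chk K t2 l7 = true := by decide +kernel

noncomputable def t3 : Tre :=
  (.R ⟨2,true,false,true,[0,1],[0,0,0,0,1],[2,1],(⟨0,[]⟩,⟨0,[]⟩),(⟨0,[(15,0)]⟩,⟨0,[(14,0)]⟩),⟨0,[]⟩,
  .k,.k,.k,(.r 0 ⟨1,[(19,0),(0,0),(15,1)]⟩ ⟨3,[(1,0),(5,1),(5,0),(23,0)]⟩),.k,.k,⟨true,0,⟨0,[]⟩,⟨1,
  [(19,0),(0,0)]⟩⟩,⟨false,0,⟨0,[(13,0)]⟩,⟨2,[(0,1),(0,0),(5,0),(29,0)]⟩⟩,⟨false,1,⟨3,[(1,0),(5,1),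
  (5,0),(23,0)]⟩,⟨0,[(0,0),(12,0),(20,0)]⟩⟩,⟨true,0,⟨0,[(13,0),(21,0)]⟩,⟨0,[(0,0)]⟩⟩,⟨true,0,⟨0,
  [(31,0)]⟩,⟨0,[(39,0)]⟩⟩,⟨false,0,⟨0,[(13,0)]⟩,⟨2,[(0,1),(0,0),(5,0),(22,0),(7,0)]⟩⟩,[]⟩)

theorem ok3 : chk K t3 l8 = true := by decide +kernel

noncomputable def t4 : Tre :=
  (.Q [0,0,0,1,0,0,-1,-1,0,0,-1] (.p false [0,0,1] [] (⟨0,[(22,0)]⟩,⟨0,[(21,0)]⟩) .k 0 (⟨0,[]⟩,⟨0,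
  []⟩) .k .k) (.Q [0,-1,0,-1,1,0,1,1,0,-1,1] (.p true [0,0,1] [1] (⟨0,[(23,0)]⟩,⟨0,[(22,0)]⟩) .k 1
  (⟨0,[]⟩,⟨0,[]⟩) .k .k) (.S ⟨1,0,[0,1,1,1,0,0,0,-1],[1,1,-1],[1,0,1,0,0,0,0,-1],(⟨0,[(23,0),(2,
  0)]⟩,⟨0,[(13,0)]⟩),⟨0,[(23,0)]⟩,.k,.k,⟨false,1,⟨3,[(9,1),(11,0),(0,0),(17,1)]⟩,⟨0,[(38,0)]⟩⟩,
  ⟨true,0,⟨0,[(42,0)]⟩,⟨0,[]⟩⟩,⟨true,0,⟨0,[]⟩,⟨0,[(42,0)]⟩⟩,⟨false,0,⟨0,[(38,0)]⟩,⟨3,[(9,1),(11,0),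
  (0,0),(17,1)]⟩⟩,[.o ⟨false,0,⟨0,[(20,0),(17,0)]⟩,⟨0,[(0,0)]⟩⟩,.o ⟨false,0,⟨0,[(1,0)]⟩,⟨9,[(0,4),
  (2,2),(1,4),(9,2),(18,0)]⟩⟩,.a ⟨true,0,⟨0,[(18,0)]⟩,⟨0,[(21,0)]⟩⟩ ⟨true,0,⟨0,[(7,0),(24,0)]⟩,⟨0,
  [(8,0)]⟩⟩ ⟨false,0,⟨0,[(1,0),(19,0)]⟩,⟨0,[(0,0),(17,0)]⟩⟩,.o ⟨false,0,⟨0,[(6,0)]⟩,⟨9,[(3,0),(11,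
  0),(5,9),(12,1),(4,4)]⟩⟩]⟩) (.Q [0,-1,0,0,1,0,1,1,0,-1,1] (.p true [0,0,1] [1] (⟨0,[(24,0)]⟩,⟨0,
  [(23,0)]⟩) .k 1 (⟨0,[]⟩,⟨0,[]⟩) .k .k) (.R ⟨2,true,false,true,[0,1],[1,1,-1],[1,1,1],(⟨0,[]⟩,⟨0,
  []⟩),(⟨0,[(24,0),(2,0)]⟩,⟨0,[(14,0)]⟩),⟨0,[]⟩,.k,.k,.k,.k,.k,.k,⟨true,0,⟨0,[(5,0),(27,0)]⟩,⟨0,[(2,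
  0),(19,0)]⟩⟩,⟨false,0,⟨0,[(19,0)]⟩,⟨0,[(0,0),(7,0)]⟩⟩,⟨true,0,⟨0,[(38,0)]⟩,⟨0,[(39,0)]⟩⟩,⟨false,0,
  ⟨4,[(1,3),(6,0),(1,1),(1,0),(9,0),(10,0),(7,1)]⟩,⟨0,[(0,0)]⟩⟩,⟨false,0,⟨0,[]⟩,⟨1,[(4,0),(11,0),
  (24,0)]⟩⟩,⟨true,(-1),⟨0,[(1,0)]⟩,⟨39,[(0,19),(2,3),(0,3),(1,19),(3,7),(11,2),(0,2),(11,3),(6,
  1)]⟩⟩,[]⟩) (.Q [0,-1,0,1,1,0,1,1,0,-1,1] (.p true [0,0,1] [1] (⟨0,[(25,0)]⟩,⟨0,[(24,0)]⟩) .k 1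
  (⟨0,[]⟩,⟨0,[]⟩) .k .k) (.R ⟨2,true,false,true,[0,1],[1,0,-1],[1,1,1],(⟨0,[]⟩,⟨0,[]⟩),(⟨0,[(25,
  0)]⟩,⟨0,[(26,0)]⟩),⟨0,[]⟩,.k,.k,.k,.k,.k,.k,⟨false,0,⟨0,[(10,0),(23,0)]⟩,⟨1,[(9,1),(31,0),(0,
  0)]⟩⟩,⟨true,(-1),⟨0,[(2,0),(3,0),(27,1)]⟩,⟨6,[(0,1),(8,1),(1,0),(11,4),(12,0),(4,1)]⟩⟩,⟨true,0,⟨0,
  [(39,0)]⟩,⟨0,[(40,0)]⟩⟩,⟨false,0,⟨5,[(1,4),(7,0),(1,2),(1,0),(9,0),(10,1),(7,1)]⟩,⟨0,[(0,0)]⟩⟩,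
  ⟨false,0,⟨0,[]⟩,⟨1,[(5,0),(11,0),(24,0)]⟩⟩,⟨true,(-1),⟨0,[(1,0)]⟩,⟨9,[(0,4),(4,2),(1,4),(9,2),(18,
  0)]⟩⟩,[]⟩) (.I [1,1,1,0,-1,0,0,1] (.Q [0,-1,0,2,1,0,1,1,0,-1,1] (.p true [0,0,1] [1] (⟨0,[(27,
  0)]⟩,⟨0,[(26,0)]⟩) .k 1 (⟨0,[]⟩,⟨0,[]⟩) .k .k) (.R ⟨1,true,false,false,[1,0,-1],[0,1],[0,0,0,0,0,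
  0,0,-1],(⟨0,[(27,0)]⟩,⟨0,[(28,0)]⟩),(⟨0,[(33,0)]⟩,⟨0,[(32,0)]⟩),⟨0,[(16,0)]⟩,.k,.k,.k,.k,(.r (-2)
  ⟨1,[(11,1),(1,1),(29,0),(0,0)]⟩ ⟨2,[(0,1),(0,2),(2,1),(31,2)]⟩),.k,⟨true,1,⟨13,[(2,9),(8,3),(1,1),
  (11,9),(12,1),(4,10),(0,6)]⟩,⟨2,[(0,0),(0,2),(2,0),(31,2)]⟩⟩,⟨false,2,⟨5,[(0,0),(10,0),(1,0),(11,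
  4),(12,0),(4,7)]⟩,⟨3,[(1,1),(0,0),(1,0),(17,1),(13,3)]⟩⟩,⟨false,1,⟨1,[(7,0),(11,0),(24,0)]⟩,⟨0,
  []⟩⟩,⟨true,1,⟨9,[(0,4),(6,2),(11,2),(3,4),(14,0)]⟩,⟨0,[(2,0)]⟩⟩,⟨true,0,⟨0,[(42,0)]⟩,⟨0,[(41,
  0)]⟩⟩,⟨false,1,⟨0,[(0,0)]⟩,⟨3,[(2,3),(10,1),(11,0),(0,0),(17,1)]⟩⟩,[]⟩) (.I [0,-1,1,2,0,0,0,-1]
  (.Q [0,0,0,0,0,-2,0,0,0,0,1] (.p true [0,0,1] [] (⟨0,[(29,0)]⟩,⟨0,[(28,0)]⟩) .k 0 (⟨0,[]⟩,⟨0,[]⟩)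
  .k .k) (.S ⟨1,0,[0,0,-1,-1,0,0,0,1],[0,-1,1],[],(⟨0,[(19,0)]⟩,⟨0,[(29,0),(2,0)]⟩),⟨0,[(0,0)]⟩,.k,
  (.x 0 ⟨25,[(1,3),(0,3),(0,7),(23,30),(0,0),(0,25),(2,51),(5,7),(1,5)]⟩ ⟨5,[(0,5),(16,0),(6,3),(15,
  0),(4,3)]⟩),⟨true,0,⟨3,[(1,1),(11,1),(13,0),(0,0)]⟩,⟨0,[(10,0)]⟩⟩,⟨false,1,⟨1,[(9,0),(11,0),(24,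
  0)]⟩,⟨0,[]⟩⟩,⟨false,0,⟨0,[(1,0)]⟩,⟨3,[(10,2),(0,0),(3,1),(12,0),(17,1)]⟩⟩,⟨true,0,⟨0,[(44,0)]⟩,⟨0,
  [(43,0)]⟩⟩,[.o ⟨false,1,⟨9,[(9,0),(1,9),(9,0),(18,1),(5,4)]⟩,⟨0,[(7,0)]⟩⟩,.a ⟨true,1,⟨0,[(11,0),
  (34,0)]⟩,⟨0,[(6,0)]⟩⟩ ⟨false,1,⟨1,[(45,0),(0,0)]⟩,⟨0,[(48,0)]⟩⟩ ⟨true,1,⟨0,[(10,0),(35,0)]⟩,⟨31,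
  [(1,25),(0,9),(0,25),(9,21),(13,10),(0,0),(11,1)]⟩⟩,.e ⟨false,1,⟨1,[(9,0),(11,0),(24,0)]⟩,⟨0,[]⟩⟩
  ⟨false,1,⟨0,[(10,0),(35,0)]⟩,⟨3,[(1,1),(11,1),(13,0),(0,0)]⟩⟩,.o ⟨false,0,⟨51,[(1,7),(0,7),(0,15),
  (23,60),(0,0),(9,15),(1,11),(6,1)]⟩,⟨5,[(17,0),(6,3),(15,0),(4,3)]⟩⟩]⟩) (.Q [0,-1,0,2,0,0,-1,-1,0,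
  0,-1] (.p false [0,0,1] [] (⟨0,[(30,0)]⟩,⟨0,[(29,0)]⟩) .k 0 (⟨0,[]⟩,⟨0,[]⟩) .k .k) (.R ⟨1,false,
  false,false,[0,0,1],[0,1],[1,1,1],(⟨0,[(31,0)]⟩,⟨0,[(30,0)]⟩),(⟨0,[(36,0)]⟩,⟨0,[(35,0)]⟩),⟨0,[(20,
  0)]⟩,.k,.k,.k,.k,(.x 0 ⟨1,[(1,1),(26,2),(0,0)]⟩ ⟨31,[(0,2),(2,2),(11,5),(3,10),(0,42),(4,25),(6,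
  9),(5,2),(2,7),(4,15)]⟩),.k,⟨true,0,⟨0,[(44,0)]⟩,⟨1,[(2,0),(1,0),(42,0)]⟩⟩,⟨false,1,⟨5,[(18,0),(6,
  3),(15,0),(4,3)]⟩,⟨0,[(28,0)]⟩⟩,⟨false,0,⟨0,[(14,0),(24,0)]⟩,⟨0,[(15,0),(31,0)]⟩⟩,⟨true,0,⟨0,[(8,
  0)]⟩,⟨0,[(12,0)]⟩⟩,⟨false,0,⟨3,[(2,1),(11,1),(13,0),(0,0)]⟩,⟨0,[(11,0),(35,0)]⟩⟩,⟨false,0,⟨0,[(0,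
  0)]⟩,⟨3,[(12,3),(3,1),(11,0),(0,0),(17,1)]⟩⟩,[.e ⟨false,0,⟨0,[(49,0)]⟩,⟨1,[(46,0),(0,0)]⟩⟩ ⟨false,
  0,⟨0,[(0,0),(10,0)]⟩,⟨3,[(10,0),(5,1),(5,0),(5,3),(17,0)]⟩⟩,.o ⟨false,1,⟨9,[(2,4),(12,2),(1,1),
  (23,1),(4,0),(0,4)]⟩,⟨0,[(44,0)]⟩⟩,.o ⟨false,1,⟨9,[(10,0),(11,0),(5,9),(12,1),(4,4)]⟩,⟨0,[(13,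
  0)]⟩⟩,.a ⟨true,0,⟨0,[(28,0)]⟩,⟨0,[(25,0)]⟩⟩ ⟨false,0,⟨0,[]⟩,⟨1,[(10,0),(11,0),(24,0)]⟩⟩ ⟨true,0,
  ⟨0,[(0,0),(10,0)]⟩,⟨0,[(28,0),(15,0)]⟩⟩]⟩) (.Q [1,-1,0,0,0,0,0,0,1,-1,0,1] (.p true [0,0,0,0,1]
  [1] (⟨0,[(24,0)]⟩,⟨0,[(23,0)]⟩) .k 1 (⟨0,[]⟩,⟨0,[]⟩) .k .k) (.R ⟨1,false,false,true,[0,0,1],[1,0,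
  0,0,-1],[1,1,0,-1,0,0,0,1],(⟨0,[(32,0)]⟩,⟨0,[(31,0)]⟩),(⟨0,[(24,0)]⟩,⟨0,[(25,0)]⟩),⟨0,[(21,0)]⟩,
  .k,.k,.k,.k,(.r (-1) ⟨1,[(16,0),(0,0),(0,0),(29,0)]⟩ ⟨7,[(3,3),(11,3),(13,0),(0,0),(18,1)]⟩),.k,
  ⟨true,0,⟨0,[(12,0),(27,0)]⟩,⟨7,[(3,3),(11,3),(13,0),(0,0),(18,1)]⟩⟩,⟨false,1,⟨0,[(11,0),(14,0)]⟩,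
  ⟨0,[(0,0),(0,0),(1,0),(37,0)]⟩⟩,⟨true,0,⟨0,[(45,0)]⟩,⟨0,[(46,0)]⟩⟩,⟨true,0,⟨1,[(6,0),(1,0),(2,
  1)]⟩,⟨0,[(0,0),(26,0)]⟩⟩,⟨false,0,⟨0,[]⟩,⟨1,[(11,0),(11,0),(24,0)]⟩⟩,⟨true,0,⟨0,[(8,0),(2,0)]⟩,⟨0,
  [(0,0),(12,0)]⟩⟩,[.o ⟨false,1,⟨0,[(11,0),(38,0)]⟩,⟨0,[(0,0)]⟩⟩,.o ⟨false,1,⟨0,[(11,0)]⟩,⟨12,[(0,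
  7),(4,1),(9,1),(7,4),(18,0),(0,1)]⟩⟩,.o ⟨false,1,⟨9,[(11,0),(11,0),(5,9),(12,1),(4,4)]⟩,⟨0,[(14,
  0)]⟩⟩,.a ⟨true,0,⟨0,[(29,0)]⟩,⟨0,[(26,0)]⟩⟩ ⟨true,0,⟨0,[(12,0)]⟩,⟨3,[(3,1),(11,1),(13,0),(0,0)]⟩⟩
  ⟨false,1,⟨0,[(11,0),(14,0)]⟩,⟨0,[(0,0),(28,0)]⟩⟩]⟩) (.Q [-2,0,0,0,0,0,0,0,-2,1,0,-2] (.p false [0,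
  0,0,0,1] [1,0,0,0,-1] (⟨0,[(25,0)]⟩,⟨0,[(24,0)]⟩) .k 2 (⟨0,[(24,0)]⟩,⟨0,[(25,0)]⟩) .k (.r 0 ⟨0,
  []⟩ ⟨4,[(11,3),(11,3),(15,0),(10,1)]⟩)) (.Q [0,0,0,0,0,-1,0,0,0,0,0,1] (.ed false [1,-1,0,0,1]
  .k) (.S ⟨1,0,[1,1],[0,0,0,0,1],[],(⟨0,[(27,0)]⟩,⟨0,[(26,0)]⟩),⟨0,[(0,0)]⟩,.k,(.r (-1) ⟨3,[(13,0),
  (5,1),(5,0),(23,0)]⟩ ⟨3,[(5,1),(14,1),(10,0),(0,0)]⟩),⟨false,1,⟨1,[(13,0),(11,0),(24,0)]⟩,⟨0,[]⟩⟩,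
  ⟨true,0,⟨0,[(52,0)]⟩,⟨0,[]⟩⟩,⟨true,0,⟨1,[(5,0),(1,0),(33,0),(1,1)]⟩,⟨0,[(47,0)]⟩⟩,⟨false,0,⟨0,
  [(48,0)]⟩,⟨3,[(19,1),(11,0),(0,0),(17,1)]⟩⟩,[.o ⟨false,0,⟨3,[(7,0),(2,0),(1,0),(12,2),(5,0),(11,
  1),(0,0)]⟩,⟨15,[(1,4),(11,5),(30,0),(5,7)]⟩⟩,.a ⟨true,0,⟨0,[(25,0)]⟩,⟨1,[(1,0),(24,0),(0,0)]⟩⟩
  ⟨false,1,⟨1,[(49,0),(0,0)]⟩,⟨0,[(52,0)]⟩⟩ ⟨true,0,⟨0,[]⟩,⟨1,[(31,0),(0,0)]⟩⟩,.e ⟨false,1,⟨1,[(13,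
  0),(11,0),(24,0)]⟩,⟨0,[]⟩⟩ ⟨false,0,⟨0,[]⟩,⟨1,[(13,0),(11,0),(24,0)]⟩⟩,.o ⟨false,0,⟨8,[(5,1),(0,
  0),(0,2),(4,1),(12,6),(5,0),(10,1),(1,1),(6,0)]⟩,⟨15,[(1,4),(11,5),(30,0),(4,7)]⟩⟩]⟩) (.S ⟨1,0,
  [-1,1],[1,0,0,0,-1],[-1],(⟨0,[(26,0)]⟩,⟨0,[(27,0)]⟩),⟨0,[(0,0),(21,0),(0,0)]⟩,.k,(.r (-1) ⟨19,
  [(13,2),(5,9),(5,2),(15,1),(7,4),(2,3)]⟩ ⟨3,[(5,1),(14,1),(10,0),(0,0)]⟩),⟨false,1,⟨1,[(13,0),(11,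
  0),(24,0)]⟩,⟨0,[]⟩⟩,⟨true,0,⟨0,[(52,0)]⟩,⟨0,[]⟩⟩,⟨true,0,⟨0,[(48,0)]⟩,⟨0,[(47,0)]⟩⟩,⟨false,0,⟨0,
  [(48,0)]⟩,⟨3,[(19,1),(11,0),(0,0),(17,1)]⟩⟩,[.o ⟨false,0,⟨8,[(1,3),(0,0),(4,1),(9,1),(26,0),(0,
  1)]⟩,⟨9,[(13,0),(11,10),(18,1),(5,4)]⟩⟩,.e ⟨false,1,⟨1,[(41,0),(7,0)]⟩,⟨0,[(52,0)]⟩⟩ ⟨false,1,⟨1,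
  [(13,0),(11,0),(23,0)]⟩,⟨0,[]⟩⟩,.a ⟨true,0,⟨1,[(1,0),(24,0),(0,0)]⟩,⟨0,[(25,0)]⟩⟩ ⟨false,1,⟨1,
  [(13,0),(11,0),(24,0)]⟩,⟨0,[]⟩⟩ ⟨true,0,⟨0,[(52,0)]⟩,⟨0,[]⟩⟩,.o ⟨false,0,⟨25,[(1,12),(3,1),(0,1),
  (0,3),(23,8),(0,6),(9,3),(1,2)]⟩,⟨9,[(13,0),(11,10),(18,1),(4,4)]⟩⟩]⟩)) (.Q [1,-1,0,0,0,0,0,0,1,0,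
  0,1] (.p true [0,0,0,0,1] [] (⟨0,[(26,0)]⟩,⟨0,[(25,0)]⟩) .k 0 (⟨0,[]⟩,⟨0,[]⟩) .k .k) (.Q [0,0,0,0,
  0,-1,0,0,0,1,0,-1] (.ed true [0,1,0,0,1] .k) (.Q [0,0,0,0,0,0,0,0,1,-1,0,1] (.p true [0,0,0,0,1]
  [1] (⟨0,[(28,0)]⟩,⟨0,[(27,0)]⟩) .k 1 (⟨0,[]⟩,⟨0,[]⟩) .k .k) (.S ⟨1,0,[-1,1],[1,0,0,0,-1],[-1],(⟨0,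
  [(28,0)]⟩,⟨0,[(29,0)]⟩),⟨0,[(1,0)]⟩,.k,(.r (-1) ⟨19,[(15,2),(5,9),(5,2),(15,1),(7,4),(2,3)]⟩ ⟨3,
  [(7,1),(14,1),(10,0),(0,0)]⟩),⟨false,1,⟨1,[(15,0),(11,0),(24,0)]⟩,⟨0,[]⟩⟩,⟨true,0,⟨0,[(54,0)]⟩,⟨0,
  []⟩⟩,⟨true,0,⟨0,[(50,0)]⟩,⟨0,[(49,0)]⟩⟩,⟨false,0,⟨0,[(50,0)]⟩,⟨3,[(21,1),(11,0),(0,0),(17,1)]⟩⟩,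
  [.a ⟨true,0,⟨0,[(4,0)]⟩,⟨0,[(2,0)]⟩⟩ ⟨false,1,⟨1,[(15,0),(11,0),(23,0)]⟩,⟨0,[]⟩⟩ ⟨true,0,⟨0,[(54,
  0)]⟩,⟨0,[(44,0)]⟩⟩,.o ⟨false,1,⟨0,[(15,0)]⟩,⟨0,[(0,0)]⟩⟩,.o ⟨false,1,⟨0,[(26,0)]⟩,⟨0,[(0,0)]⟩⟩,.e
  ⟨false,1,⟨1,[(43,0),(7,0)]⟩,⟨1,[(33,0),(0,0)]⟩⟩ ⟨false,1,⟨1,[(15,0),(11,0),(23,0)]⟩,⟨0,[(44,
  0)]⟩⟩]⟩) (.I [0,1,0,-2,0,2,1,1] (.I [-1,0,0,1] (.C [(0,1),(1,3),(1,3),(2,0),(1,0),(0,0),(0,0),(35,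
  1),(0,0)]) (.C [(0,1),(1,3),(1,3),(2,0),(1,2),(0,0),(0,2),(33,1),(1,5),(0,0)])) (.C [(0,0),(5,0),
  (0,0)]))) (.Q [0,1,-1,0,-1,0,-1,-1,1,0,-1,1] (.p false [0,0,1] [0,0,0,0,1] (⟨0,[(35,0)]⟩,⟨0,[(34,
  0)]⟩) .k 2 (⟨0,[(28,0)]⟩,⟨0,[(27,0)]⟩) .k (.r 0 ⟨1,[(8,0),(10,0),(22,0)]⟩ ⟨1,[(14,0),(3,1),(7,0),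
  (24,0)]⟩)) (.S ⟨1,0,[1,1],[0,0,0,0,1],[],(⟨0,[(29,0)]⟩,⟨0,[(28,0)]⟩),⟨0,[(1,0),(22,0),(0,0)]⟩,.k,
  (.r (-1) ⟨3,[(15,0),(5,1),(5,0),(23,0)]⟩ ⟨3,[(7,1),(14,1),(10,0),(0,0)]⟩),⟨false,1,⟨1,[(15,0),(11,
  0),(24,0)]⟩,⟨0,[]⟩⟩,⟨true,0,⟨0,[(54,0)]⟩,⟨0,[]⟩⟩,⟨true,0,⟨1,[(7,0),(1,0),(33,0),(1,1)]⟩,⟨0,[(49,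
  0)]⟩⟩,⟨false,0,⟨0,[(50,0)]⟩,⟨3,[(21,1),(11,0),(0,0),(17,1)]⟩⟩,[.e ⟨false,1,⟨1,[(15,0),(11,0),(23,
  0)]⟩,⟨0,[]⟩⟩ ⟨false,0,⟨0,[(45,0)]⟩,⟨1,[(15,0),(11,0),(24,0)]⟩⟩,.o ⟨false,0,⟨17,[(0,3),(1,7),(0,2),
  (5,1),(21,1),(1,1),(12,2)]⟩,⟨0,[(15,0)]⟩⟩,.o ⟨false,0,⟨53,[(0,21),(1,13),(0,8),(3,10),(1,10),(7,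
  21),(25,14),(2,8)]⟩,⟨0,[(26,0)]⟩⟩,.a ⟨true,(-1),⟨4,[(0,2),(1,1),(6,2),(23,2),(9,0),(0,1)]⟩,⟨1,[(4,
  1),(46,0),(0,0)]⟩⟩ ⟨false,1,⟨1,[(51,0),(0,0)]⟩,⟨1,[(33,0),(0,0)]⟩⟩ ⟨true,0,⟨0,[(45,0)]⟩,⟨1,[(33,
  0),(0,0)]⟩⟩]⟩) (.Q [0,0,0,0,0,0,0,0,1,-1,0,1] (.p true [0,0,0,0,1] [1] (⟨0,[(29,0)]⟩,⟨0,[(28,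
  0)]⟩) .k 1 (⟨0,[]⟩,⟨0,[]⟩) .k .k) (.R ⟨0,false,false,false,[1,0,0,0,-1],[0,1],[1,1,1],(⟨0,[(29,
  0)]⟩,⟨0,[(30,0)]⟩),(⟨0,[(42,0)]⟩,⟨0,[(41,0)]⟩),⟨0,[(2,0)]⟩,.k,.k,(.r (-1) ⟨19,[(16,2),(5,9),(5,2),
  (15,1),(7,4),(2,3)]⟩ ⟨3,[(8,1),(14,1),(10,0),(0,0)]⟩),(.r (-1) ⟨19,[(16,2),(5,9),(5,2),(15,1),(7,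
  4),(2,3)]⟩ ⟨3,[(8,1),(14,1),(10,0),(0,0)]⟩),.k,.k,⟨true,0,⟨0,[(50,0)]⟩,⟨1,[(8,0),(1,0),(42,0)]⟩⟩,
  ⟨false,1,⟨0,[(0,0),(51,0)]⟩,⟨0,[(5,0),(39,0)]⟩⟩,⟨false,0,⟨1,[(34,0),(0,0)]⟩,⟨1,[(44,0),(7,0)]⟩⟩,
  ⟨true,0,⟨1,[(0,1),(7,0),(12,0)]⟩,⟨3,[(1,2),(3,0),(2,0),(0,2),(0,0),(33,0),(1,4)]⟩⟩,⟨false,0,⟨0,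
  []⟩,⟨0,[]⟩⟩,⟨false,0,⟨0,[]⟩,⟨0,[]⟩⟩,[.a ⟨true,0,⟨0,[(51,0)]⟩,⟨3,[(3,2),(1,2),(0,0),(2,0),(43,
  0)]⟩⟩ ⟨false,0,⟨0,[(55,0)]⟩,⟨1,[(52,0),(0,0)]⟩⟩ ⟨true,0,⟨1,[(0,1),(7,0),(12,0)]⟩,⟨1,[(1,0),(3,0),
  (3,0),(35,0)]⟩⟩,.o ⟨false,1,⟨9,[(8,4),(12,2),(1,1),(23,1),(4,0),(0,4)]⟩,⟨0,[(50,0)]⟩⟩,.o ⟨false,1,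
  ⟨0,[(27,0)]⟩,⟨0,[(0,0)]⟩⟩,.e ⟨false,0,⟨0,[]⟩,⟨1,[(16,0),(11,0),(24,0)]⟩⟩ ⟨false,1,⟨5,[(3,3),(0,0),
  (3,2),(12,2),(25,0),(4,2),(0,0)]⟩,⟨1,[(1,0),(3,0),(3,0),(35,0)]⟩⟩]⟩) (.I [0,0,0,0,0,1,0,0,-1] (.I
  [0,1,0,-2,0,2,1,1] (.I [-1,0,0,1] (.C [(0,1),(2,3),(2,3),(2,0),(1,0),(0,0),(0,0),(35,1),(0,0)])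
  (.C [(0,1),(2,3),(2,3),(2,0),(1,2),(0,0),(0,2),(33,1),(1,5),(0,0)])) (.C [(0,0),(7,0),(0,0)]))
  (.C [(0,0),(0,0),(1,0)]))))) (.Q [0,0,0,0,0,-1,0,0,0,1,0,-1] (.ed true [0,1,0,0,1] .k) (.R ⟨1,
  false,false,true,[1,0,0,0,-1],[1,-1],[-1],(⟨0,[(27,0)]⟩,⟨0,[(28,0)]⟩),(⟨0,[(39,0)]⟩,⟨0,[(40,0)]⟩),
  ⟨0,[(0,0)]⟩,.k,.k,(.r (-1) ⟨19,[(14,2),(5,9),(5,2),(15,1),(7,4),(2,3)]⟩ ⟨3,[(6,1),(14,1),(10,0),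
  (0,0)]⟩),(.r 0 ⟨3,[(6,1),(14,1),(10,0),(0,0)]⟩ ⟨3,[(14,0),(5,1),(5,0),(23,0)]⟩),.k,.k,⟨true,0,⟨1,
  [(6,0),(1,0),(33,0)]⟩,⟨0,[(48,0)]⟩⟩,⟨false,0,⟨0,[(26,0)]⟩,⟨1,[(1,1),(48,0),(0,0)]⟩⟩,⟨false,1,⟨1,
  [(14,0),(11,0),(24,0)]⟩,⟨0,[]⟩⟩,⟨false,0,⟨0,[(13,0)]⟩,⟨1,[(1,1),(4,0),(12,0),(31,1)]⟩⟩,⟨true,0,⟨0,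
  [(49,0)]⟩,⟨0,[(48,0)]⟩⟩,⟨false,0,⟨0,[(26,0)]⟩,⟨0,[(1,0),(49,0)]⟩⟩,[.o ⟨false,0,⟨0,[(48,0)]⟩,⟨9,
  [(6,4),(12,2),(1,1),(23,1),(4,0),(0,4)]⟩⟩,.a ⟨true,0,⟨3,[(4,0),(2,0),(19,2),(0,2),(22,0)]⟩,⟨0,
  [(49,0)]⟩⟩ ⟨false,1,⟨1,[(42,0),(7,0)]⟩,⟨0,[(53,0)]⟩⟩ ⟨true,0,⟨3,[(2,0),(1,0),(2,0),(18,1),(15,
  0)]⟩,⟨1,[(1,1),(4,0),(1,0),(42,0)]⟩⟩,.e ⟨false,1,⟨1,[(14,0),(11,0),(24,0)]⟩,⟨0,[]⟩⟩ ⟨false,0,⟨3,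
  [(2,0),(1,0),(2,0),(18,1),(15,0)]⟩,⟨1,[(1,1),(4,0),(12,0),(31,1)]⟩⟩,.o ⟨false,0,⟨0,[(1,0),(41,
  0)]⟩,⟨93,[(2,58),(11,23),(27,8),(2,6),(4,46),(2,17)]⟩⟩]⟩) (.R ⟨0,false,false,true,[1,0,0,0,-1],[1,
  -1],[],(⟨0,[(27,0)]⟩,⟨0,[(28,0)]⟩),(⟨0,[(39,0)]⟩,⟨0,[(40,0)]⟩),⟨0,[(0,0)]⟩,.k,.k,(.r (-1) ⟨19,
  [(14,2),(5,9),(5,2),(15,1),(7,4),(2,3)]⟩ ⟨3,[(6,1),(14,1),(10,0),(0,0)]⟩),(.r 0 ⟨3,[(6,1),(14,1),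
  (10,0),(0,0)]⟩ ⟨3,[(14,0),(5,1),(5,0),(23,0)]⟩),.k,.k,⟨true,0,⟨1,[(6,0),(1,0),(42,0)]⟩,⟨0,[(48,
  0)]⟩⟩,⟨false,0,⟨0,[(26,0)]⟩,⟨1,[(1,1),(48,0),(0,0)]⟩⟩,⟨true,0,⟨0,[]⟩,⟨0,[(53,0)]⟩⟩,⟨false,0,⟨0,
  [(13,0)]⟩,⟨1,[(1,1),(4,0),(12,0),(31,1)]⟩⟩,⟨false,0,⟨0,[]⟩,⟨0,[]⟩⟩,⟨false,0,⟨0,[]⟩,⟨0,[]⟩⟩,[.o
  ⟨false,0,⟨0,[(48,0)]⟩,⟨9,[(6,4),(12,2),(1,1),(23,1),(4,0),(0,4)]⟩⟩,.a ⟨true,0,⟨3,[(4,0),(2,0),(19,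
  2),(0,2),(22,0)]⟩,⟨0,[(49,0)]⟩⟩ ⟨false,1,⟨1,[(50,0),(0,0)]⟩,⟨0,[(53,0)]⟩⟩ ⟨true,0,⟨3,[(2,0),(1,0),
  (2,0),(18,1),(15,0)]⟩,⟨1,[(1,1),(4,0),(1,0),(42,0)]⟩⟩,.e ⟨false,1,⟨1,[(14,0),(11,0),(24,0)]⟩,⟨0,
  []⟩⟩ ⟨false,0,⟨3,[(2,0),(1,0),(2,0),(18,1),(15,0)]⟩,⟨1,[(1,1),(4,0),(12,0),(31,1)]⟩⟩,.o ⟨false,0,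
  ⟨0,[(1,0),(41,0)]⟩,⟨93,[(2,58),(11,23),(27,8),(2,6),(4,46),(2,17)]⟩⟩]⟩))))))) (.I [0,0,-2,-2,1]
  (.S ⟨1,0,[0,0,-1,-1],[1,-1],[1,1,-1,-2],(⟨0,[(34,0)]⟩,⟨0,[(35,0)]⟩),⟨0,[(18,0),(0,0)]⟩,.k,(.r
  (-1) ⟨0,[(0,0)]⟩ ⟨0,[(27,0),(0,0),(15,1)]⟩),⟨true,0,⟨0,[(43,0)]⟩,⟨0,[(44,0)]⟩⟩,⟨false,1,⟨1,[(9,0),
  (11,0),(24,0)]⟩,⟨0,[]⟩⟩,⟨false,0,⟨0,[]⟩,⟨1,[(9,0),(11,0),(24,0)]⟩⟩,⟨true,0,⟨0,[(44,0)]⟩,⟨0,[(43,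
  0)]⟩⟩,[.e ⟨false,1,⟨1,[(0,0),(14,0),(25,0)]⟩,⟨0,[(38,0),(5,1)]⟩⟩ ⟨false,1,⟨1,[(0,0),(44,0)]⟩,⟨1,
  [(27,0),(0,0),(15,1)]⟩⟩,.o ⟨false,1,⟨3,[(15,1),(11,0),(0,0),(17,1)]⟩,⟨3,[(3,0),(2,0),(20,0),(11,
  1),(0,0),(3,2)]⟩⟩,.o ⟨false,0,⟨1,[(27,0),(0,0)]⟩,⟨9,[(9,0),(11,0),(18,1),(4,4)]⟩⟩,.a ⟨true,(-1),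
  ⟨3,[(3,1),(0,0),(1,0),(15,1),(0,1),(3,1),(10,3)]⟩,⟨0,[(45,0)]⟩⟩ ⟨false,1,⟨0,[(0,0)]⟩,⟨1,[(27,0),
  (0,0),(9,1),(5,3)]⟩⟩ ⟨true,1,⟨1,[(0,0),(44,0)]⟩,⟨0,[(3,0),(3,0),(19,0)]⟩⟩]⟩) (.I [2,1,-1,-1] (.N
  [0,2] 1 ⟨0,[(1,0)]⟩ ⟨0,[(0,1),(37,0)]⟩ (.x (-2) ⟨4,[(10,0),(11,0),(12,9),(5,1),(4,4)]⟩ ⟨0,[(0,1),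
  (0,0),(31,1),(5,1)]⟩)) (.Q [1,-1,0,0,0,0,0,0,1,-1,0,1] (.p true [0,0,0,0,1] [1] (⟨0,[(24,0)]⟩,⟨0,
  [(23,0)]⟩) .k 1 (⟨0,[]⟩,⟨0,[]⟩) .k .k) (.R ⟨1,false,false,false,[0,0,1],[0,0,0,0,1],[0,1,0,0,0,0,
  0,1],(⟨0,[(32,0)]⟩,⟨0,[(31,0)]⟩),(⟨0,[(25,0)]⟩,⟨0,[(24,0)]⟩),⟨0,[(21,0)]⟩,.k,.k,.k,.k,(.r (-1) ⟨3,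
  [(3,0),(13,0),(0,2),(28,0),(0,1)]⟩ ⟨0,[(1,0),(13,0)]⟩),.k,⟨false,0,⟨0,[(1,1),(1,0),(37,1)]⟩,⟨0,
  [(15,0),(32,0)]⟩⟩,⟨true,(-1),⟨5,[(0,5),(0,1),(3,1),(0,2),(1,0),(7,1),(9,1)]⟩,⟨0,[(11,0),(17,0)]⟩⟩,
  ⟨true,0,⟨0,[(50,0)]⟩,⟨0,[]⟩⟩,⟨true,(-1),⟨1,[(0,1),(5,0),(1,0)]⟩,⟨0,[(11,0),(15,0)]⟩⟩,⟨false,0,⟨0,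
  [(46,0)]⟩,⟨3,[(17,1),(11,0),(0,0),(17,1)]⟩⟩,⟨true,(-1),⟨0,[(0,0),(7,0)]⟩,⟨0,[(11,0),(1,0)]⟩⟩,[.o
  ⟨false,0,⟨12,[(0,7),(4,1),(9,1),(7,4),(18,0),(0,1)]⟩,⟨0,[(11,0)]⟩⟩,.o ⟨false,0,⟨0,[(0,0)]⟩,⟨0,
  [(11,0),(38,0)]⟩⟩,.o ⟨false,1,⟨9,[(11,0),(11,0),(5,9),(12,1),(4,4)]⟩,⟨0,[(14,0)]⟩⟩,.a ⟨true,0,⟨0,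
  [(29,0)]⟩,⟨0,[(26,0)]⟩⟩ ⟨true,0,⟨0,[(16,0)]⟩,⟨0,[(15,0),(24,0)]⟩⟩ ⟨false,0,⟨0,[(0,0),(25,0)]⟩,⟨0,
  [(11,0),(17,0)]⟩⟩]⟩) (.I [0,0,-2,0,1,-2,0,0,-1] (.Q [0,0,0,0,0,-1,0,0,0,0,0,1] (.ed false [1,-1,0,
  0,1] .k) (.Q [-1,0,0,0,0,0,0,0,-1,1,0,-1] (.p false [0,0,0,0,1] [1] (⟨0,[(27,0)]⟩,⟨0,[(26,0)]⟩)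
  .k 1 (⟨0,[]⟩,⟨0,[]⟩) .k .k) (.S ⟨1,0,[1,1],[0,0,0,0,1],[],(⟨0,[(28,0)]⟩,⟨0,[(27,0)]⟩),⟨0,[(1,0)]⟩,
  .k,(.r (-1) ⟨3,[(14,0),(5,1),(5,0),(23,0)]⟩ ⟨6,[(4,0),(0,2),(8,2),(11,2),(26,0)]⟩),⟨false,1,⟨1,
  [(14,0),(11,0),(24,0)]⟩,⟨0,[]⟩⟩,⟨true,0,⟨0,[(53,0)]⟩,⟨0,[]⟩⟩,⟨true,0,⟨0,[(4,0),(39,0)]⟩,⟨0,[(48,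
  0)]⟩⟩,⟨false,0,⟨0,[(49,0)]⟩,⟨3,[(20,1),(11,0),(0,0),(17,1)]⟩⟩,[.o ⟨false,0,⟨4,[(5,0),(2,0),(4,1),
  (4,0),(7,2),(17,2),(0,0)]⟩,⟨5,[(0,4),(13,0),(30,0),(5,2)]⟩⟩,.a ⟨true,0,⟨0,[(26,0)]⟩,⟨0,[(0,0)]⟩⟩
  ⟨false,1,⟨1,[(50,0),(0,0)]⟩,⟨0,[(53,0)]⟩⟩ ⟨true,0,⟨0,[]⟩,⟨1,[(32,0),(0,0)]⟩⟩,.e ⟨false,1,⟨1,[(14,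
  0),(11,0),(24,0)]⟩,⟨0,[]⟩⟩ ⟨false,0,⟨0,[]⟩,⟨1,[(14,0),(11,0),(24,0)]⟩⟩,.o ⟨false,0,⟨8,[(4,1),(0,
  1),(1,0),(0,0),(4,3),(12,4),(5,0),(12,1),(6,0)]⟩,⟨5,[(0,4),(13,0),(30,0),(4,2)]⟩⟩]⟩) (.R ⟨1,false,
  false,true,[0,0,1],[0,0,0,0,1],[0,1,0,0,0,0,0,1],(⟨0,[(35,0)]⟩,⟨0,[(34,0)]⟩),(⟨0,[(28,0)]⟩,⟨0,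
  [(27,0)]⟩),⟨0,[(24,0)]⟩,.k,.k,.k,.k,(.r (-1) ⟨3,[(6,0),(13,0),(0,2),(28,0),(0,1)]⟩ ⟨0,[(4,0),(13,
  0)]⟩),.k,⟨true,0,⟨1,[(8,0),(10,0),(22,0)]⟩,⟨0,[(18,0),(24,0)]⟩⟩,⟨false,0,⟨5,[(0,5),(8,0),(1,0),(7,
  1),(9,3),(12,1)]⟩,⟨8,[(2,7),(0,0),(1,0),(1,0),(0,0),(18,7),(4,9),(4,15),(5,2),(1,1)]⟩⟩,⟨true,0,⟨0,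
  [(53,0)]⟩,⟨0,[]⟩⟩,⟨true,(-1),⟨1,[(0,1),(8,0),(1,0)]⟩,⟨4,[(2,3),(0,0),(0,2),(0,0),(10,4),(10,3),(9,
  7),(5,2),(1,0)]⟩⟩,⟨false,0,⟨0,[(49,0)]⟩,⟨3,[(20,1),(11,0),(0,0),(17,1)]⟩⟩,⟨true,(-1),⟨0,[(0,0),
  (10,0)]⟩,⟨4,[(2,3),(0,0),(2,0),(1,0),(7,2),(10,3),(4,1),(4,7),(5,5),(1,0)]⟩⟩,[.o ⟨false,0,⟨7,[(0,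
  2),(7,1),(9,1),(7,4),(18,0),(0,1)]⟩,⟨8,[(2,7),(0,0),(1,0),(1,0),(0,0),(18,7),(4,0),(4,15),(5,11),
  (1,1)]⟩⟩,.o ⟨false,0,⟨0,[(0,0)]⟩,⟨0,[(14,0)]⟩⟩,.o ⟨false,1,⟨9,[(14,0),(11,0),(5,9),(12,1),(4,4)]⟩,
  ⟨0,[(17,0)]⟩⟩,.a ⟨true,0,⟨0,[(32,0)]⟩,⟨0,[(29,0)]⟩⟩ ⟨true,0,⟨0,[(19,0)]⟩,⟨0,[(18,0),(24,0)]⟩⟩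
  ⟨false,0,⟨0,[(0,0),(28,0)]⟩,⟨8,[(2,7),(0,0),(1,0),(1,0),(0,0),(18,7),(4,9),(4,15),(5,11),(1,
  1)]⟩⟩]⟩)) (.S ⟨1,0,[-1,1],[1,0,0,0,-1],[-1],(⟨0,[(26,0)]⟩,⟨0,[(27,0)]⟩),⟨0,[(0,0),(21,0),(0,0)]⟩,
  .k,(.r (-1) ⟨19,[(13,2),(5,9),(5,2),(15,1),(7,4),(2,3)]⟩ ⟨1,[(4,0),(8,0),(11,0)]⟩),⟨false,1,⟨1,
  [(13,0),(11,0),(24,0)]⟩,⟨0,[]⟩⟩,⟨true,0,⟨0,[(52,0)]⟩,⟨0,[]⟩⟩,⟨true,0,⟨0,[(48,0)]⟩,⟨0,[(47,0)]⟩⟩,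
  ⟨false,0,⟨0,[(48,0)]⟩,⟨3,[(19,1),(11,0),(0,0),(17,1)]⟩⟩,[.o ⟨false,0,⟨6,[(0,3),(0,3),(0,2),(1,1),
  (1,1),(0,1),(23,1),(4,3),(7,0)]⟩,⟨9,[(13,0),(11,10),(18,1),(5,4)]⟩⟩,.e ⟨false,1,⟨1,[(41,0),(7,
  0)]⟩,⟨0,[(52,0)]⟩⟩ ⟨false,1,⟨1,[(13,0),(11,0),(23,0)]⟩,⟨0,[]⟩⟩,.a ⟨true,0,⟨2,[(0,0),(0,2),(2,0),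
  (1,0),(0,0),(18,1),(4,0),(4,4),(5,1)]⟩,⟨0,[(25,0)]⟩⟩ ⟨false,1,⟨1,[(13,0),(11,0),(24,0)]⟩,⟨0,[]⟩⟩
  ⟨true,0,⟨0,[(52,0)]⟩,⟨0,[]⟩⟩,.o ⟨false,0,⟨6,[(0,3),(0,3),(0,2),(1,1),(1,1),(0,1),(23,1),(4,3),(5,
  6),(1,0)]⟩,⟨9,[(13,0),(11,10),(18,1),(4,4)]⟩⟩]⟩)) (.Q [1,-1,0,0,0,0,0,0,1,0,0,1] (.p true [0,0,0,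
  0,1] [] (⟨0,[(26,0)]⟩,⟨0,[(25,0)]⟩) .k 0 (⟨0,[]⟩,⟨0,[]⟩) .k .k) (.Q [0,0,0,0,0,-1,0,0,0,1,0,-1]
  (.ed true [0,1,0,0,1] .k) (.Q [0,0,0,0,0,0,0,0,1,-1,0,1] (.p true [0,0,0,0,1] [1] (⟨0,[(28,0)]⟩,
  ⟨0,[(27,0)]⟩) .k 1 (⟨0,[]⟩,⟨0,[]⟩) .k .k) (.S ⟨1,0,[-1,1],[1,0,0,0,-1],[-1],(⟨0,[(28,0)]⟩,⟨0,[(29,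
  0)]⟩),⟨0,[(1,0)]⟩,.k,(.r (-1) ⟨19,[(15,2),(5,9),(5,2),(15,1),(7,4),(2,3)]⟩ ⟨1,[(6,0),(8,0),(11,
  0)]⟩),⟨false,1,⟨1,[(15,0),(11,0),(24,0)]⟩,⟨0,[]⟩⟩,⟨true,0,⟨0,[(54,0)]⟩,⟨0,[]⟩⟩,⟨true,0,⟨0,[(50,
  0)]⟩,⟨0,[(49,0)]⟩⟩,⟨false,0,⟨0,[(50,0)]⟩,⟨3,[(21,1),(11,0),(0,0),(17,1)]⟩⟩,[.a ⟨true,0,⟨0,[(4,
  0)]⟩,⟨0,[(2,0)]⟩⟩ ⟨false,1,⟨1,[(15,0),(11,0),(23,0)]⟩,⟨0,[]⟩⟩ ⟨true,0,⟨0,[(54,0)]⟩,⟨0,[(44,0)]⟩⟩,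
  .o ⟨false,1,⟨0,[(15,0)]⟩,⟨0,[(0,0)]⟩⟩,.o ⟨false,1,⟨0,[(26,0)]⟩,⟨0,[(0,0)]⟩⟩,.e ⟨false,1,⟨1,[(43,
  0),(7,0)]⟩,⟨1,[(33,0),(0,0)]⟩⟩ ⟨false,1,⟨1,[(15,0),(11,0),(23,0)]⟩,⟨0,[(44,0)]⟩⟩]⟩) (.S ⟨1,0,[-1],
  [1,0,0,0,-1],[-1,1],(⟨0,[(28,0)]⟩,⟨0,[(29,0)]⟩),⟨0,[(1,0)]⟩,.k,(.r (-1) ⟨19,[(15,2),(5,9),(5,2),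
  (15,1),(7,4),(2,3)]⟩ ⟨1,[(6,0),(8,0),(11,0)]⟩),⟨true,0,⟨0,[(54,0)]⟩,⟨0,[]⟩⟩,⟨false,1,⟨1,[(15,0),
  (11,0),(24,0)]⟩,⟨0,[]⟩⟩,⟨false,0,⟨0,[(50,0)]⟩,⟨3,[(21,1),(11,0),(0,0),(17,1)]⟩⟩,⟨true,0,⟨0,[(50,
  0)]⟩,⟨0,[(49,0)]⟩⟩,[.o ⟨false,1,⟨0,[(15,0)]⟩,⟨42,[(2,42),(2,1),(0,5),(1,6),(0,6),(23,6),(11,27),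
  (0,9),(7,2)]⟩⟩,.e ⟨false,1,⟨1,[(15,0),(11,0),(23,0)]⟩,⟨0,[]⟩⟩ ⟨false,1,⟨1,[(43,0),(7,0)]⟩,⟨0,[(54,
  0)]⟩⟩,.a ⟨true,0,⟨0,[(0,0)]⟩,⟨0,[(27,0)]⟩⟩ ⟨true,0,⟨0,[(54,0)]⟩,⟨0,[]⟩⟩ ⟨false,1,⟨1,[(15,0),(11,
  0),(24,0)]⟩,⟨0,[]⟩⟩,.e ⟨false,1,⟨1,[(15,0),(11,0),(23,0)]⟩,⟨0,[(44,0)]⟩⟩ ⟨false,1,⟨1,[(43,0),(7,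
  0)]⟩,⟨1,[(33,0),(0,0)]⟩⟩]⟩)) (.Q [0,0,1,0,-1,0,0,0,1,0,0,1] (.p true [0,0,0,0,1] [] (⟨0,[(28,0)]⟩,
  ⟨0,[(27,0)]⟩) .k 0 (⟨0,[]⟩,⟨0,[]⟩) .k .k) (.S ⟨1,0,[1,1],[0,0,0,0,1],[],(⟨0,[(29,0)]⟩,⟨0,[(28,
  0)]⟩),⟨0,[(1,0),(22,0),(0,0)]⟩,.k,(.r (-1) ⟨3,[(15,0),(5,1),(5,0),(23,0)]⟩ ⟨6,[(5,0),(0,2),(8,2),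
  (11,2),(26,0)]⟩),⟨false,1,⟨1,[(15,0),(11,0),(24,0)]⟩,⟨0,[]⟩⟩,⟨true,0,⟨0,[(54,0)]⟩,⟨0,[]⟩⟩,⟨true,0,
  ⟨0,[(5,0),(39,0)]⟩,⟨0,[(49,0)]⟩⟩,⟨false,0,⟨0,[(50,0)]⟩,⟨3,[(21,1),(11,0),(0,0),(17,1)]⟩⟩,[.e
  ⟨false,1,⟨1,[(15,0),(11,0),(23,0)]⟩,⟨0,[]⟩⟩ ⟨false,0,⟨0,[(45,0)]⟩,⟨1,[(15,0),(11,0),(24,0)]⟩⟩,.o
  ⟨false,0,⟨4,[(0,1),(1,2),(42,0),(0,0),(0,0)]⟩,⟨0,[(15,0)]⟩⟩,.o ⟨false,0,⟨9,[(0,6),(1,1),(24,0),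
  (18,1),(0,0),(3,2)]⟩,⟨0,[(26,0)]⟩⟩,.a ⟨true,(-1),⟨0,[(0,0)]⟩,⟨1,[(4,1),(46,0),(0,0)]⟩⟩ ⟨false,1,
  ⟨1,[(51,0),(0,0)]⟩,⟨1,[(33,0),(0,0)]⟩⟩ ⟨true,0,⟨0,[(45,0)]⟩,⟨1,[(33,0),(0,0)]⟩⟩]⟩) (.Q [-1,-1,0,0,
  1,0,0,0,-1,0,0,-1] (.p false [0,0,0,0,1] [] (⟨0,[(29,0)]⟩,⟨0,[(28,0)]⟩) .k 0 (⟨0,[]⟩,⟨0,[]⟩) .k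
  .k) (.R ⟨1,false,false,true,[0,0,1],[0,0,0,0,1],[1,1,0,-1,0,0,0,1],(⟨0,[(37,0)]⟩,⟨0,[(36,0)]⟩),
  (⟨0,[(30,0)]⟩,⟨0,[(29,0)]⟩),⟨0,[(26,0)]⟩,.k,.k,.k,.k,(.r (-1) ⟨3,[(8,0),(13,0),(0,2),(28,0),(0,
  1)]⟩ ⟨0,[(6,0),(13,0)]⟩),.k,⟨true,0,⟨1,[(8,0),(1,0),(42,0)]⟩,⟨0,[(6,0),(13,0)]⟩⟩,⟨false,0,⟨9,[(3,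
  7),(7,2),(1,2),(7,5),(6,1),(2,3),(12,1),(2,1)]⟩,⟨0,[(1,0),(32,0)]⟩⟩,⟨true,0,⟨0,[(50,0)]⟩,⟨0,[(51,
  0)]⟩⟩,⟨true,(-1),⟨9,[(3,9),(3,3),(3,8),(1,0),(32,5),(0,1),(0,1)]⟩,⟨0,[(0,0),(31,0)]⟩⟩,⟨false,0,⟨0,
  []⟩,⟨1,[(16,0),(11,0),(24,0)]⟩⟩,⟨true,(-1),⟨4,[(3,4),(3,1),(3,1),(1,2),(32,2),(0,0),(0,0)]⟩,⟨0,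
  [(0,0),(17,0)]⟩⟩,[.o ⟨false,0,⟨4,[(3,2),(6,1),(9,1),(7,1),(18,0),(0,1)]⟩,⟨0,[(0,0)]⟩⟩,.o ⟨false,0,
  ⟨42,[(3,42),(2,1),(0,5),(1,6),(0,6),(23,6),(11,27),(0,9),(7,2)]⟩,⟨0,[(16,0)]⟩⟩,.o ⟨false,1,⟨9,
  [(16,0),(11,0),(5,9),(12,1),(4,4)]⟩,⟨0,[(19,0)]⟩⟩,.a ⟨true,0,⟨0,[(34,0)]⟩,⟨0,[(31,0)]⟩⟩ ⟨true,0,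
  ⟨0,[(17,0)]⟩,⟨0,[(6,0),(13,0)]⟩⟩ ⟨false,0,⟨9,[(3,7),(4,0),(4,3),(1,1),(5,2),(9,5),(15,1)]⟩,⟨0,[(0,
  0),(33,0)]⟩⟩]⟩) (.R ⟨2,true,false,true,[0,1],[0,0,0,0,1],[1,1,1],(⟨0,[]⟩,⟨0,[]⟩),(⟨0,[(30,0)]⟩,⟨0,
  [(29,0)]⟩),⟨0,[]⟩,.k,.k,.k,(.r 0 ⟨6,[(6,0),(0,2),(8,2),(11,2),(26,0)]⟩ ⟨3,[(16,0),(5,1),(5,0),(23,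
  0)]⟩),.k,.k,⟨true,0,⟨1,[(34,0),(0,0)]⟩,⟨0,[]⟩⟩,⟨false,0,⟨0,[(28,0)]⟩,⟨0,[(1,0)]⟩⟩,⟨true,0,⟨0,[(50,
  0)]⟩,⟨0,[(51,0)]⟩⟩,⟨false,0,⟨0,[(15,0)]⟩,⟨0,[(1,0),(4,0)]⟩⟩,⟨false,0,⟨0,[]⟩,⟨1,[(16,0),(11,0),(24,
  0)]⟩⟩,⟨true,(-1),⟨0,[(0,0)]⟩,⟨0,[(16,0)]⟩⟩,[]⟩)))) (.Q [-1,0,0,-1,0,0,0,0,-1,1,0,-1] (.p false [0,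
  0,0,0,1] [1] (⟨0,[(27,0)]⟩,⟨0,[(26,0)]⟩) .k 1 (⟨0,[]⟩,⟨0,[]⟩) .k .k) (.Q [0,0,0,0,0,-1,0,0,0,1,0,
  -1] (.ed true [0,1,0,0,1] .k) (.S ⟨1,0,[-1,1],[1,0,0,0,-1],[-1],(⟨0,[(28,0)]⟩,⟨0,[(29,0)]⟩),⟨0,
  [(0,0)]⟩,.k,(.r (-1) ⟨19,[(15,2),(5,9),(5,2),(15,1),(7,4),(2,3)]⟩ ⟨1,[(6,0),(8,0),(11,0)]⟩),
  ⟨false,1,⟨1,[(15,0),(11,0),(24,0)]⟩,⟨0,[]⟩⟩,⟨true,0,⟨0,[(54,0)]⟩,⟨0,[]⟩⟩,⟨true,0,⟨0,[(50,0)]⟩,⟨0,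
  [(49,0)]⟩⟩,⟨false,0,⟨0,[(50,0)]⟩,⟨3,[(21,1),(11,0),(0,0),(17,1)]⟩⟩,[.o ⟨false,0,⟨0,[(2,0)]⟩,⟨9,
  [(15,0),(11,10),(18,1),(5,4)]⟩⟩,.e ⟨false,1,⟨1,[(43,0),(7,0)]⟩,⟨0,[(54,0)]⟩⟩ ⟨false,1,⟨1,[(15,0),
  (11,0),(23,0)]⟩,⟨0,[]⟩⟩,.a ⟨true,0,⟨0,[(1,0),(48,0)]⟩,⟨0,[(27,0)]⟩⟩ ⟨false,1,⟨1,[(15,0),(11,0),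
  (24,0)]⟩,⟨0,[]⟩⟩ ⟨true,0,⟨0,[(54,0)]⟩,⟨0,[]⟩⟩,.o ⟨false,0,⟨0,[(2,0),(41,0)]⟩,⟨9,[(15,0),(11,10),
  (18,1),(4,4)]⟩⟩]⟩) (.R ⟨0,false,false,true,[1,0,0,0,-1],[0,1],[-1],(⟨0,[(28,0)]⟩,⟨0,[(29,0)]⟩),
  (⟨0,[(41,0)]⟩,⟨0,[(40,0)]⟩),⟨0,[(0,0)]⟩,.k,.k,(.r (-1) ⟨19,[(15,2),(5,9),(5,2),(15,1),(7,4),(2,
  3)]⟩ ⟨1,[(6,0),(8,0),(11,0)]⟩),(.r (-1) ⟨19,[(15,2),(5,9),(5,2),(15,1),(7,4),(2,3)]⟩ ⟨1,[(6,0),(8,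
  0),(11,0)]⟩),.k,.k,⟨false,2,⟨3,[(15,0),(5,1),(5,0),(23,2),(0,1)]⟩,⟨2,[(0,0),(0,0),(1,0),(2,1),(30,
  2),(7,2)]⟩⟩,⟨true,1,⟨9,[(15,0),(11,10),(18,1),(4,4)]⟩,⟨0,[(0,0),(0,1),(1,0),(1,1),(31,2),(7,1)]⟩⟩,
  ⟨false,1,⟨1,[(15,0),(11,0),(24,0)]⟩,⟨0,[]⟩⟩,⟨true,0,⟨4,[(6,1),(20,4),(17,2),(0,0),(0,0),(2,0)]⟩,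
  ⟨0,[(1,0)]⟩⟩,⟨false,0,⟨0,[]⟩,⟨0,[]⟩⟩,⟨false,0,⟨0,[]⟩,⟨0,[]⟩⟩,[.o ⟨false,0,⟨4,[(6,1),(38,2),(0,0),
  (0,0),(2,0)]⟩,⟨3,[(21,1),(11,0),(0,0),(17,1)]⟩⟩,.e ⟨false,1,⟨1,[(43,0),(7,0)]⟩,⟨0,[(54,0)]⟩⟩
  ⟨false,1,⟨9,[(15,0),(11,10),(18,1),(3,9),(0,4)]⟩,⟨0,[(1,0)]⟩⟩,.a ⟨true,0,⟨0,[(1,0),(48,0)]⟩,⟨0,
  [(27,0)]⟩⟩ ⟨false,1,⟨1,[(15,0),(11,0),(24,0)]⟩,⟨0,[]⟩⟩ ⟨true,0,⟨4,[(6,1),(20,4),(17,2),(0,0),(0,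
  0),(2,0)]⟩,⟨0,[(1,0)]⟩⟩,.o ⟨false,0,⟨0,[(2,0),(41,0)]⟩,⟨9,[(15,0),(11,10),(18,1),(4,4)]⟩⟩]⟩)) (.Q
  [1,0,0,0,0,0,0,0,1,-1,0,1] (.p true [0,0,0,0,1] [1] (⟨0,[(28,0)]⟩,⟨0,[(27,0)]⟩) .k 1 (⟨0,[]⟩,⟨0,
  []⟩) .k .k) (.R ⟨1,false,false,false,[0,0,1],[0,0,0,0,1],[1,0,0,-1,0,0,0,1],(⟨0,[(36,0)]⟩,⟨0,[(35,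
  0)]⟩),(⟨0,[(29,0)]⟩,⟨0,[(28,0)]⟩),⟨0,[(25,0)]⟩,.k,.k,.k,.k,(.r (-1) ⟨3,[(7,0),(13,0),(0,2),(28,0),
  (0,1)]⟩ ⟨0,[(5,0),(13,0)]⟩),.k,⟨true,0,⟨1,[(7,0),(1,0),(42,0)]⟩,⟨0,[(5,0),(13,0)]⟩⟩,⟨false,0,⟨5,
  [(0,5),(9,0),(1,0),(7,1),(9,3),(12,1)]⟩,⟨1,[(2,1),(30,1),(17,0),(0,0)]⟩⟩,⟨false,1,⟨3,[(21,1),(11,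
  0),(0,0),(17,1)]⟩,⟨0,[(50,0)]⟩⟩,⟨false,0,⟨1,[(0,1),(9,0),(1,0),(39,1)]⟩,⟨0,[(2,0),(28,0),(20,
  0)]⟩⟩,⟨true,0,⟨0,[]⟩,⟨0,[(54,0)]⟩⟩,⟨false,0,⟨0,[(0,0),(11,0),(39,0)]⟩,⟨0,[(2,0),(14,0),(34,0)]⟩⟩,
  [.o ⟨false,0,⟨0,[(0,0)]⟩,⟨0,[(15,0)]⟩⟩,.o ⟨false,1,⟨9,[(15,0),(11,10),(18,1),(5,4)]⟩,⟨0,[(2,0)]⟩⟩,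
  .o ⟨false,1,⟨9,[(15,0),(11,0),(5,9),(12,1),(4,4)]⟩,⟨0,[(18,0)]⟩⟩,.a ⟨true,0,⟨0,[(33,0)]⟩,⟨0,[(30,
  0)]⟩⟩ ⟨false,1,⟨1,[(7,0),(12,0),(31,1)]⟩,⟨0,[(5,0),(13,0)]⟩⟩ ⟨true,0,⟨0,[(0,0),(29,0)]⟩,⟨0,[(2,0),
  (30,0)]⟩⟩]⟩) (.R ⟨2,true,false,true,[0,1],[1,0,0,0,-1],[1,1],(⟨0,[]⟩,⟨0,[]⟩),(⟨0,[(28,0)]⟩,⟨0,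
  [(29,0)]⟩),⟨0,[]⟩,.k,.k,.k,(.r 0 ⟨1,[(6,0),(8,0),(11,0)]⟩ ⟨19,[(15,2),(5,9),(5,2),(15,1),(7,4),(2,
  3)]⟩),.k,.k,⟨true,0,⟨0,[]⟩,⟨0,[(53,0)]⟩⟩,⟨false,0,⟨0,[(0,0)]⟩,⟨9,[(15,0),(11,10),(18,1),(4,4)]⟩⟩,
  ⟨false,1,⟨3,[(15,0),(5,1),(5,0),(23,0)]⟩,⟨0,[(5,0)]⟩⟩,⟨true,0,⟨2,[(0,0),(3,0),(3,0),(6,0),(1,0)]⟩,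
  ⟨0,[(1,0)]⟩⟩,⟨true,0,⟨0,[(45,0)]⟩,⟨1,[(33,0),(0,0)]⟩⟩,⟨false,0,⟨0,[(0,0)]⟩,⟨9,[(15,0),(11,10),(18,
  1),(5,4)]⟩⟩,[]⟩)))))))))) (.S ⟨1,0,[0,1,0,0,0,0,0,-1],[1,0,-1],[0,0,0,0,0,0,0,-1],(⟨0,[(26,0)]⟩,
  ⟨0,[(27,0)]⟩),⟨0,[(15,0)]⟩,.k,.k,⟨false,1,⟨1,[(6,0),(11,0),(24,0)]⟩,⟨0,[]⟩⟩,⟨true,0,⟨0,[(45,0)]⟩,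
  ⟨0,[]⟩⟩,⟨true,0,⟨0,[(41,0)]⟩,⟨0,[(40,0)]⟩⟩,⟨false,0,⟨0,[(41,0)]⟩,⟨3,[(12,1),(11,0),(0,0),(17,
  1)]⟩⟩,[.a ⟨true,(-1),⟨0,[(2,0)]⟩,⟨0,[(22,0),(20,0)]⟩⟩ ⟨false,1,⟨3,[(0,2),(5,0),(3,0),(7,0),(19,
  0)]⟩,⟨0,[(11,0),(23,0)]⟩⟩ ⟨true,0,⟨3,[(0,0),(0,2),(13,1),(0,1),(7,2),(4,3),(6,1),(0,0),(3,2)]⟩,⟨0,
  [(11,0),(23,1)]⟩⟩,.o ⟨false,0,⟨10,[(0,0),(0,4),(2,4),(20,0),(11,0),(5,1)]⟩,⟨9,[(6,0),(11,0),(3,9),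
  (14,1),(5,4)]⟩⟩,.o ⟨false,0,⟨0,[(9,0)]⟩,⟨9,[(0,4),(5,0),(11,0),(3,4),(1,4),(12,1)]⟩⟩,.e ⟨false,1,
  ⟨0,[(0,0)]⟩,⟨0,[(13,0),(21,0)]⟩⟩ ⟨false,1,⟨3,[(0,2),(5,0),(3,0),(7,0),(19,0)]⟩,⟨0,[(11,0),(23,
  1)]⟩⟩]⟩))))) (.Q [0,-1,0,1,0,0,-1,-1,0,1,-1] (.p false [0,0,1] [1] (⟨0,[(23,0)]⟩,⟨0,[(22,0)]⟩) .k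
  1 (⟨0,[]⟩,⟨0,[]⟩) .k .k) (.S ⟨1,0,[0,0,1,1,0,0,0,-1],[1,1,-1],[1,1,1,0,0,0,0,-1],(⟨0,[(23,0),(2,
  0)]⟩,⟨0,[(13,0)]⟩),⟨0,[(23,0)]⟩,.k,.k,⟨true,0,⟨0,[(37,0)]⟩,⟨0,[(38,0)]⟩⟩,⟨false,1,⟨1,[(3,0),(11,
  0),(24,0)]⟩,⟨0,[]⟩⟩,⟨false,0,⟨0,[]⟩,⟨1,[(3,0),(11,0),(24,0)]⟩⟩,⟨true,0,⟨0,[(38,0)]⟩,⟨0,[(37,0)]⟩⟩,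
  [.a ⟨true,0,⟨0,[(0,0),(41,0)]⟩,⟨0,[(1,0)]⟩⟩ ⟨false,0,⟨0,[(7,0)]⟩,⟨0,[(8,0),(31,0)]⟩⟩ ⟨true,0,⟨0,
  [(7,0),(24,0),(5,0)]⟩,⟨0,[(4,0),(27,0)]⟩⟩,.a ⟨true,0,⟨0,[(0,0)]⟩,⟨0,[(5,0)]⟩⟩ ⟨true,0,⟨0,[(7,0),
  (24,0)]⟩,⟨0,[(8,0),(23,0)]⟩⟩ ⟨false,1,⟨0,[(7,0),(30,0),(1,0)]⟩,⟨0,[(4,0)]⟩⟩,.a ⟨true,0,⟨0,[(18,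
  0)]⟩,⟨0,[(21,0)]⟩⟩ ⟨false,0,⟨0,[(7,0),(24,0)]⟩,⟨0,[(8,0),(31,0)]⟩⟩ ⟨true,0,⟨0,[(7,0),(24,0),(5,
  0)]⟩,⟨0,[(4,0)]⟩⟩,.o ⟨false,0,⟨0,[(6,0)]⟩,⟨9,[(3,0),(11,0),(5,9),(12,1),(4,4)]⟩⟩]⟩) (.Q [0,0,0,2,
  0,0,-1,-1,0,0,-1] (.p false [0,0,1] [] (⟨0,[(24,0)]⟩,⟨0,[(23,0)]⟩) .k 0 (⟨0,[]⟩,⟨0,[]⟩) .k .k)
  (.R ⟨1,true,false,false,[0,0,1],[0,1],[0,1,0,0,0,0,0,1],(⟨0,[(25,0)]⟩,⟨0,[(24,0)]⟩),(⟨0,[(30,0)]⟩,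
  ⟨0,[(29,0)]⟩),⟨0,[(14,0)]⟩,.k,.k,.k,.k,(.x 0 ⟨1,[(0,0),(0,1),(6,0),(13,0),(1,1),(2,3),(5,2)]⟩ ⟨0,
  [(7,0),(6,0),(11,0),(5,0),(1,1)]⟩),.k,⟨true,0,⟨0,[(1,0),(17,0)]⟩,⟨1,[(0,0),(7,0),(13,0),(10,2)]⟩⟩,
  ⟨false,1,⟨5,[(12,0),(6,3),(15,0),(4,3)]⟩,⟨0,[(22,0)]⟩⟩,⟨true,0,⟨0,[(43,0)]⟩,⟨0,[]⟩⟩,⟨false,1,⟨3,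
  [(0,1),(3,0),(11,0),(4,1),(19,2)]⟩,⟨0,[(2,0)]⟩⟩,⟨false,0,⟨0,[(39,0)]⟩,⟨3,[(10,1),(11,0),(0,0),(17,
  1)]⟩⟩,⟨true,0,⟨0,[(0,0)]⟩,⟨0,[(2,0),(35,0)]⟩⟩,[]⟩) (.Q [0,0,-1,0,1,0,1,0,0,-1,1] (.p true [0,0,1]
  [1] (⟨0,[(25,0)]⟩,⟨0,[(24,0)]⟩) .k 1 (⟨0,[]⟩,⟨0,[]⟩) .k .k) (.I [0,1,0,0,0,0,0,-1] (.S ⟨1,0,[0,0,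
  0,0,0,0,0,-1],[1,0,-1],[0,1,0,0,0,0,0,-1],(⟨0,[(26,0)]⟩,⟨0,[(27,0)]⟩),⟨0,[(15,0)]⟩,.k,.k,⟨true,0,
  ⟨0,[(45,0)]⟩,⟨0,[]⟩⟩,⟨false,1,⟨1,[(6,0),(11,0),(24,0)]⟩,⟨0,[]⟩⟩,⟨false,0,⟨0,[(41,0)]⟩,⟨3,[(12,1),
  (11,0),(0,0),(17,1)]⟩⟩,⟨true,0,⟨0,[(41,0)]⟩,⟨0,[(40,0)]⟩⟩,[.a ⟨true,0,⟨0,[(10,0),(10,0),(13,0)]⟩,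
  ⟨0,[(4,0),(36,0)]⟩⟩ ⟨true,0,⟨0,[(0,0)]⟩,⟨0,[(11,0),(23,1)]⟩⟩ ⟨false,1,⟨1,[(10,1),(31,0),(0,0)]⟩,
  ⟨0,[(11,0),(23,0)]⟩⟩,.o ⟨false,1,⟨0,[(23,0),(19,0)]⟩,⟨0,[(3,0),(37,0)]⟩⟩,.o ⟨false,0,⟨0,[(9,0)]⟩,
  ⟨9,[(1,4),(4,2),(11,2),(5,4),(12,0)]⟩⟩,.o ⟨false,0,⟨0,[(25,0)]⟩,⟨0,[(1,0)]⟩⟩]⟩) (.I [1,1,1,0,-1,0,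
  0,1] (.S ⟨1,0,[0,1,0,0,0,0,0,-1],[1,0,-1],[0,0,0,0,0,0,0,-1],(⟨0,[(27,0)]⟩,⟨0,[(28,0)]⟩),⟨0,[(16,
  0)]⟩,.k,.k,⟨false,1,⟨1,[(7,0),(11,0),(24,0)]⟩,⟨0,[]⟩⟩,⟨true,0,⟨0,[(46,0)]⟩,⟨0,[]⟩⟩,⟨true,0,⟨0,
  [(42,0)]⟩,⟨0,[(41,0)]⟩⟩,⟨false,0,⟨0,[(42,0)]⟩,⟨3,[(13,1),(11,0),(0,0),(17,1)]⟩⟩,[.o ⟨false,0,⟨0,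
  [(24,0)]⟩,⟨6,[(1,3),(0,1),(20,2),(1,1),(12,0),(5,2)]⟩⟩,.a ⟨true,0,⟨0,[(11,0),(10,0),(13,0)]⟩,⟨0,
  [(5,0),(36,0)]⟩⟩ ⟨true,1,⟨0,[(11,0),(32,0)]⟩,⟨0,[(0,0)]⟩⟩ ⟨false,1,⟨1,[(11,1),(31,0),(0,0)]⟩,⟨1,
  [(1,0),(12,0)]⟩⟩,.o ⟨false,0,⟨0,[(10,0)]⟩,⟨9,[(2,4),(4,2),(11,2),(5,4),(12,0)]⟩⟩,.o ⟨false,0,⟨0,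
  [(26,0)]⟩,⟨0,[(2,0)]⟩⟩]⟩) (.Q [0,0,0,0,0,-2,0,0,0,0,1] (.p true [0,0,1] [] (⟨0,[(28,0)]⟩,⟨0,[(27,
  0)]⟩) .k 0 (⟨0,[]⟩,⟨0,[]⟩) .k .k) (.S ⟨1,0,[0,1,-1,-1,0,0,0,1],[0,-1,1],[1,0,-1,-2,0,0,0,1],(⟨0,
  [(18,0)]⟩,⟨0,[(28,0),(2,0)]⟩),⟨0,[(0,0)]⟩,.k,(.r (-1) ⟨8,[(2,1),(1,4),(4,1),(4,2),(8,4),(15,0),(4,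
  3)]⟩ ⟨1,[(12,1),(13,0),(0,0),(9,1),(5,3)]⟩),⟨false,1,⟨3,[(14,1),(11,0),(0,0),(17,1)]⟩,⟨0,[(43,
  0)]⟩⟩,⟨true,0,⟨0,[(47,0)]⟩,⟨0,[]⟩⟩,⟨true,0,⟨0,[]⟩,⟨0,[(47,0)]⟩⟩,⟨false,0,⟨0,[(43,0)]⟩,⟨3,[(14,1),
  (11,0),(0,0),(17,1)]⟩⟩,[.o ⟨false,0,⟨0,[(5,0)]⟩,⟨0,[(25,0),(17,0),(1,0)]⟩⟩,.e ⟨false,1,⟨0,[(1,0),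
  (0,0),(1,0),(6,0),(26,0)]⟩,⟨1,[(12,1),(13,0),(0,0),(15,3)]⟩⟩ ⟨false,1,⟨1,[(2,0),(10,0),(0,0),(29,
  0)]⟩,⟨0,[(12,0),(24,0),(5,0)]⟩⟩,.a ⟨true,0,⟨0,[(26,0)]⟩,⟨0,[(23,0)]⟩⟩ ⟨false,1,⟨0,[(2,0),(11,0)]⟩,
  ⟨0,[(12,0),(24,0),(5,1)]⟩⟩ ⟨true,0,⟨2,[(0,0),(1,0),(1,0),(0,0),(5,1),(5,0),(13,2),(6,2)]⟩,⟨0,[(12,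
  0),(24,0),(5,0)]⟩⟩,.o ⟨false,0,⟨0,[(5,0),(6,0),(24,1),(5,0)]⟩,⟨5,[(16,0),(6,3),(15,0),(4,3)]⟩⟩]⟩)
  (.Q [0,0,-1,-1,0,0,-1,0,0,1,-1] (.p false [0,0,1] [1] (⟨0,[(29,0)]⟩,⟨0,[(28,0)]⟩) .k 1 (⟨0,[]⟩,⟨0,
  []⟩) .k .k) (.R ⟨0,false,false,true,[0,-1,1],[1,-1],[],(⟨0,[(19,0)]⟩,⟨0,[(1,0),(32,0)]⟩),(⟨0,[(34,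
  0)]⟩,⟨0,[(35,0)]⟩),⟨0,[(1,0)]⟩,.k,.k,(.r (-1) ⟨18,[(0,4),(2,6),(1,4),(4,6),(4,7),(24,0),(4,8)]⟩
  ⟨1,[(13,1),(13,0),(0,0),(9,1),(5,3)]⟩),.k,.k,.k,⟨true,0,⟨0,[(38,0),(5,0)]⟩,⟨0,[(43,0)]⟩⟩,⟨false,0,
  ⟨0,[(24,0)]⟩,⟨9,[(4,4),(4,2),(11,2),(5,4),(12,0)]⟩⟩,⟨true,0,⟨0,[(13,0),(24,0),(5,0)]⟩,⟨0,[(10,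
  0)]⟩⟩,⟨false,0,⟨0,[(13,0),(10,0),(13,0)]⟩,⟨6,[(3,3),(0,1),(20,2),(1,1),(12,0),(5,2)]⟩⟩,⟨false,0,
  ⟨0,[]⟩,⟨0,[]⟩⟩,⟨false,0,⟨0,[]⟩,⟨0,[]⟩⟩,[.o ⟨false,0,⟨0,[(43,0)]⟩,⟨9,[(9,0),(11,0),(18,1),(3,9),(1,
  4)]⟩⟩,.a ⟨true,0,⟨0,[(0,0),(26,0)]⟩,⟨0,[(44,0)]⟩⟩ ⟨false,1,⟨1,[(45,0),(0,0)]⟩,⟨0,[(48,0)]⟩⟩ ⟨true,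
  0,⟨0,[(0,0)]⟩,⟨0,[(6,0),(6,0),(24,1),(5,1)]⟩⟩,.e ⟨false,1,⟨1,[(9,0),(11,0),(24,0)]⟩,⟨0,[]⟩⟩
  ⟨false,0,⟨0,[(0,0)]⟩,⟨9,[(9,0),(11,0),(5,9),(12,1),(3,9),(1,4)]⟩⟩,.o ⟨false,0,⟨0,[(6,0),(6,0),(24,
  1),(5,0)]⟩,⟨5,[(17,0),(6,3),(15,0),(4,3)]⟩⟩]⟩) (.R ⟨0,false,false,true,[0,-1,1],[1,-1],[],(⟨0,
  [(19,0)]⟩,⟨0,[(1,0),(32,0)]⟩),(⟨0,[(34,0)]⟩,⟨0,[(35,0)]⟩),⟨0,[(1,0)]⟩,.k,.k,(.r (-1) ⟨8,[(3,1),(1,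
  4),(4,1),(4,2),(8,4),(15,0),(4,3)]⟩ ⟨1,[(13,1),(13,0),(0,0),(9,1),(5,3)]⟩),.k,.k,.k,⟨true,0,⟨0,
  [(38,0),(5,0)]⟩,⟨0,[(43,0)]⟩⟩,⟨false,0,⟨0,[(24,0)]⟩,⟨9,[(4,4),(4,2),(11,2),(5,4),(12,0)]⟩⟩,⟨true,
  0,⟨0,[(13,0),(24,0),(5,0)]⟩,⟨0,[(10,0)]⟩⟩,⟨false,0,⟨0,[(13,0),(10,0),(13,0)]⟩,⟨22,[(0,3),(2,7),(0,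
  3),(2,3),(17,10),(14,2),(5,12)]⟩⟩,⟨false,0,⟨0,[]⟩,⟨0,[]⟩⟩,⟨false,0,⟨0,[]⟩,⟨0,[]⟩⟩,[.o ⟨false,0,⟨0,
  [(43,0)]⟩,⟨9,[(9,0),(11,0),(18,1),(3,9),(1,4)]⟩⟩,.e ⟨false,1,⟨1,[(45,0),(0,0)]⟩,⟨0,[(48,0)]⟩⟩
  ⟨false,1,⟨3,[(9,0),(5,1),(5,0),(2,3),(20,0)]⟩,⟨0,[(0,0)]⟩⟩,.a ⟨true,0,⟨0,[(27,0)]⟩,⟨0,[(24,0)]⟩⟩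
  ⟨false,1,⟨1,[(9,0),(11,0),(24,0)]⟩,⟨0,[]⟩⟩ ⟨true,0,⟨0,[(24,0),(18,0)]⟩,⟨0,[(0,0)]⟩⟩,.o ⟨false,0,
  ⟨3,[(0,1),(5,1),(6,1),(13,0),(0,0),(9,3)]⟩,⟨5,[(17,0),(6,3),(15,0),(4,3)]⟩⟩]⟩))))) (.I [0,-1,0,1,
  0,0,0,1] (.S ⟨1,0,[0,0,0,0,0,0,0,-1],[1,0,-1],[],(⟨0,[(26,0)]⟩,⟨0,[(27,0)]⟩),⟨0,[(15,0)]⟩,.k,.k,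
  ⟨true,0,⟨6,[(0,2),(1,0),(0,0),(9,1),(0,0)]⟩,⟨0,[(10,0)]⟩⟩,⟨false,1,⟨1,[(6,0),(11,0),(24,0)]⟩,⟨0,
  []⟩⟩,⟨false,0,⟨0,[(0,0)]⟩,⟨3,[(10,3),(1,1),(11,0),(0,0),(17,1)]⟩⟩,⟨true,0,⟨0,[(41,0)]⟩,⟨0,[(40,
  0)]⟩⟩,[.e ⟨false,1,⟨1,[(6,0),(11,0),(23,0)]⟩,⟨0,[]⟩⟩ ⟨false,1,⟨1,[(10,1),(31,0),(0,0)]⟩,⟨6,[(0,2),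
  (1,0),(0,0),(9,1),(0,0)]⟩⟩,.o ⟨false,1,⟨0,[(23,0),(19,0)]⟩,⟨0,[(3,0),(37,0)]⟩⟩,.o ⟨false,0,⟨0,[(9,
  0)]⟩,⟨9,[(6,0),(11,0),(5,9),(12,1),(4,4)]⟩⟩,.a ⟨true,(-1),⟨0,[(1,0)]⟩,⟨0,[(24,0),(17,0)]⟩⟩ ⟨false,
  1,⟨1,[(42,0),(0,0)]⟩,⟨1,[(24,0),(0,0)]⟩⟩ ⟨true,1,⟨1,[(10,1),(31,0),(0,0)]⟩,⟨0,[(1,0),(1,0),(37,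
  0)]⟩⟩]⟩) (.Q [0,0,2,0,-1,0,1,1,0,0,1] (.p true [0,0,1] [] (⟨0,[(27,0)]⟩,⟨0,[(26,0)]⟩) .k 0 (⟨0,
  []⟩,⟨0,[]⟩) .k .k) (.I [0,0,-2,-2,1] (.S ⟨1,0,[0,0,-1,-1],[1,-1],[1,1,-1,-2],(⟨0,[(33,0)]⟩,⟨0,
  [(34,0)]⟩),⟨0,[(17,0),(0,0)]⟩,.k,(.r (-1) ⟨0,[(0,0)]⟩ ⟨0,[(26,0),(0,0),(15,1)]⟩),⟨true,0,⟨0,[(42,
  0)]⟩,⟨0,[(43,0)]⟩⟩,⟨false,1,⟨1,[(8,0),(11,0),(24,0)]⟩,⟨0,[]⟩⟩,⟨false,0,⟨0,[]⟩,⟨1,[(8,0),(11,0),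
  (24,0)]⟩⟩,⟨true,0,⟨0,[(43,0)]⟩,⟨0,[(42,0)]⟩⟩,[.e ⟨false,1,⟨1,[(0,0),(13,0),(25,0)]⟩,⟨0,[(37,0),(5,
  1)]⟩⟩ ⟨false,1,⟨1,[(0,0),(43,0)]⟩,⟨1,[(26,0),(0,0),(15,1)]⟩⟩,.o ⟨false,1,⟨3,[(14,1),(11,0),(0,0),
  (17,1)]⟩,⟨3,[(1,0),(1,0),(8,0),(25,2),(0,0),(3,3)]⟩⟩,.o ⟨false,0,⟨1,[(26,0),(0,0)]⟩,⟨9,[(8,0),(11,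
  0),(18,1),(4,4)]⟩⟩,.a ⟨true,(-1),⟨0,[(3,0),(22,0)]⟩,⟨0,[(44,0)]⟩⟩ ⟨false,1,⟨0,[(0,0)]⟩,⟨1,[(26,0),
  (0,0),(9,1),(5,3)]⟩⟩ ⟨true,1,⟨1,[(0,0),(43,0)]⟩,⟨0,[(1,0),(23,0),(17,0)]⟩⟩]⟩) (.I [-1,0,0,1] (.Q
  [0,0,0,0,0,0,0,0,1,-1,0,1] (.p true [0,0,0,0,1] [1] (⟨0,[(23,0)]⟩,⟨0,[(22,0)]⟩) .k 1 (⟨0,[]⟩,⟨0,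
  []⟩) .k .k) (.Q [-1,1,0,0,0,0,0,0,-1,1,0,-1] (.p false [0,0,0,0,1] [1] (⟨0,[(24,0)]⟩,⟨0,[(23,
  0)]⟩) .k 1 (⟨0,[]⟩,⟨0,[]⟩) .k .k) (.Q [1,1,0,0,-1,0,0,0,1,0,0,1] (.p true [0,0,0,0,1] [] (⟨0,[(25,
  0)]⟩,⟨0,[(24,0)]⟩) .k 0 (⟨0,[]⟩,⟨0,[]⟩) .k .k) (.Q [0,0,0,0,0,-1,0,0,0,1,0,-1] (.ed true [0,1,0,0,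
  1] .k) (.S ⟨1,0,[-1,1],[1,0,0,0,-1],[-1],(⟨0,[(26,0)]⟩,⟨0,[(27,0)]⟩),⟨0,[(0,0)]⟩,.k,(.r (-1) ⟨19,
  [(13,2),(5,9),(5,2),(15,1),(7,4),(2,3)]⟩ ⟨1,[(5,0),(7,0),(11,0)]⟩),⟨false,1,⟨1,[(13,0),(11,0),(24,
  0)]⟩,⟨0,[]⟩⟩,⟨true,0,⟨0,[(52,0)]⟩,⟨0,[]⟩⟩,⟨true,0,⟨0,[(48,0)]⟩,⟨0,[(47,0)]⟩⟩,⟨false,0,⟨0,[(48,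
  0)]⟩,⟨3,[(19,1),(11,0),(0,0),(17,1)]⟩⟩,[.a ⟨true,0,⟨0,[(2,0)]⟩,⟨0,[(1,0),(48,0)]⟩⟩ ⟨false,1,⟨1,
  [(13,0),(11,0),(23,0)]⟩,⟨0,[]⟩⟩ ⟨true,0,⟨0,[(52,0)]⟩,⟨0,[(42,0)]⟩⟩,.o ⟨false,1,⟨0,[(13,0)]⟩,⟨0,
  [(3,0)]⟩⟩,.o ⟨false,1,⟨0,[(24,0)]⟩,⟨0,[(3,0)]⟩⟩,.e ⟨false,1,⟨1,[(41,0),(7,0)]⟩,⟨1,[(31,0),(0,
  0)]⟩⟩ ⟨false,1,⟨1,[(13,0),(11,0),(23,0)]⟩,⟨0,[(42,0)]⟩⟩]⟩) (.Q [-1,1,0,-1,0,0,0,0,-1,1,0,-1] (.p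
  false [0,0,0,0,1] [1] (⟨0,[(27,0)]⟩,⟨0,[(26,0)]⟩) .k 1 (⟨0,[]⟩,⟨0,[]⟩) .k .k) (.R ⟨0,false,false,
  false,[1,0,0,0,-1],[0,1],[1,1,1],(⟨0,[(27,0)]⟩,⟨0,[(28,0)]⟩),(⟨0,[(40,0)]⟩,⟨0,[(39,0)]⟩),⟨0,[(1,
  0)]⟩,.k,.k,(.r (-1) ⟨19,[(14,2),(5,9),(5,2),(15,1),(7,4),(2,3)]⟩ ⟨1,[(6,0),(7,0),(11,0)]⟩),(.r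
  (-1) ⟨19,[(14,2),(5,9),(5,2),(15,1),(7,4),(2,3)]⟩ ⟨1,[(6,0),(7,0),(11,0)]⟩),.k,.k,⟨true,0,⟨0,[(48,
  0)]⟩,⟨1,[(6,0),(44,0)]⟩⟩,⟨false,1,⟨0,[(4,0),(45,0)]⟩,⟨0,[(3,0),(39,0)]⟩⟩,⟨false,0,⟨1,[(32,0),(0,
  0)]⟩,⟨1,[(42,0),(7,0)]⟩⟩,⟨true,0,⟨0,[(4,0),(44,0)]⟩,⟨0,[(0,0)]⟩⟩,⟨false,0,⟨0,[]⟩,⟨0,[]⟩⟩,⟨false,0,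
  ⟨0,[]⟩,⟨0,[]⟩⟩,[.a ⟨true,0,⟨0,[(49,0)]⟩,⟨5,[(8,1),(0,0),(0,1),(16,3),(0,3),(0,0),(21,0)]⟩⟩ ⟨false,
  0,⟨0,[(53,0)]⟩,⟨1,[(50,0),(0,0)]⟩⟩ ⟨true,0,⟨0,[(4,0),(44,0)]⟩,⟨0,[(0,0),(42,0)]⟩⟩,.o ⟨false,1,⟨9,
  [(14,0),(11,0),(18,1),(3,9),(1,4)]⟩,⟨0,[(48,0)]⟩⟩,.o ⟨false,1,⟨0,[(25,0)]⟩,⟨0,[(4,0)]⟩⟩,.e ⟨false,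
  0,⟨0,[]⟩,⟨1,[(14,0),(11,0),(24,0)]⟩⟩ ⟨false,1,⟨1,[(4,1),(44,1),(0,0),(0,0)]⟩,⟨0,[(0,0),(42,
  0)]⟩⟩]⟩) (.K ⟨0,[1,0,0,0,-1],0,0,(⟨0,[(27,0)]⟩,⟨0,[(28,0)]⟩),.k,(.r (-1) ⟨19,[(14,2),(5,9),(5,2),
  (15,1),(7,4),(2,3)]⟩ ⟨1,[(6,0),(7,0),(11,0)]⟩),(.r 0 ⟨9,[(6,4),(7,3),(11,3),(15,0),(10,1)]⟩ ⟨3,
  [(14,0),(5,1),(5,0),(23,0)]⟩),.k,.k,[⟨1,[(0,1),(4,0),(2,0),(3,1),(5,0)]⟩,⟨0,[(3,0),(39,0)]⟩,⟨4,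
  [(2,0),(3,0),(6,1),(12,1),(18,0),(0,1)]⟩,⟨0,[(3,0)]⟩]⟩))) (.R ⟨1,false,false,true,[0,0,1],[0,0,0,
  0,1],[1,1,0,-1,0,0,0,1],(⟨0,[(33,0)]⟩,⟨0,[(32,0)]⟩),(⟨0,[(26,0)]⟩,⟨0,[(25,0)]⟩),⟨0,[(22,0)]⟩,.k,
  .k,.k,.k,(.r (-1) ⟨1,[(17,0),(0,0),(0,0),(29,0)]⟩ ⟨1,[(4,0),(11,1),(32,0)]⟩),.k,⟨true,0,⟨15,[(5,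
  2),(1,3),(0,2),(4,9),(6,0),(22,0),(5,4)]⟩,⟨1,[(4,0),(11,1),(32,0)]⟩⟩,⟨false,0,⟨0,[(2,0),(24,0)]⟩,
  ⟨0,[(0,0),(29,0),(11,0)]⟩⟩,⟨true,0,⟨0,[(46,0)]⟩,⟨0,[(47,0)]⟩⟩,⟨false,0,⟨1,[(2,1),(4,0),(8,1),(10,
  0),(21,0)]⟩,⟨0,[(0,0),(9,0),(36,0)]⟩⟩,⟨false,0,⟨0,[]⟩,⟨1,[(12,0),(11,0),(24,0)]⟩⟩,⟨false,0,⟨1,[(2,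
  1),(1,0),(11,1),(10,1),(21,0)]⟩,⟨0,[(0,0),(9,0)]⟩⟩,[.o ⟨false,0,⟨7,[(2,2),(1,1),(6,3),(12,0),(18,
  0),(0,3)]⟩,⟨0,[(0,0)]⟩⟩,.o ⟨false,0,⟨0,[(2,0)]⟩,⟨0,[(12,0)]⟩⟩,.o ⟨false,1,⟨9,[(12,0),(11,0),(5,9),
  (12,1),(4,4)]⟩,⟨0,[(15,0)]⟩⟩,.a ⟨true,0,⟨0,[(30,0)]⟩,⟨0,[(27,0)]⟩⟩ ⟨true,0,⟨0,[(13,0)]⟩,⟨1,[(4,0),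
  (11,1),(32,0)]⟩⟩ ⟨false,0,⟨0,[(2,0),(24,0)]⟩,⟨0,[(0,0),(29,0)]⟩⟩]⟩)) (.R ⟨1,false,false,true,[0,0,
  1],[1,0,0,0,-1],[1,1,0,-1,0,0,0,1],(⟨0,[(32,0)]⟩,⟨0,[(31,0)]⟩),(⟨0,[(24,0)]⟩,⟨0,[(25,0)]⟩),⟨0,
  [(21,0)]⟩,.k,.k,.k,.k,(.r (-1) ⟨1,[(16,0),(0,0),(0,0),(29,0)]⟩ ⟨0,[(2,1),(2,0),(38,0)]⟩),.k,⟨true,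
  0,⟨15,[(4,2),(1,3),(0,2),(4,9),(6,0),(22,0),(5,4)]⟩,⟨0,[(2,1),(2,0),(38,0)]⟩⟩,⟨false,1,⟨0,[(11,0),
  (14,0)]⟩,⟨1,[(0,1),(1,0),(6,0),(5,0),(13,0),(11,0)]⟩⟩,⟨true,0,⟨0,[(45,0)]⟩,⟨0,[(46,0)]⟩⟩,⟨false,1,
  ⟨1,[(6,0),(4,1),(3,1),(10,0),(21,0)]⟩,⟨0,[(0,0),(8,0),(36,0)]⟩⟩,⟨false,0,⟨0,[]⟩,⟨1,[(11,0),(11,0),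
  (24,0)]⟩⟩,⟨false,1,⟨1,[(3,0),(7,1),(3,1),(10,1),(21,0)]⟩,⟨0,[(0,0),(8,0)]⟩⟩,[.o ⟨false,1,⟨0,[(11,
  0),(38,0)]⟩,⟨0,[(0,0)]⟩⟩,.o ⟨false,1,⟨0,[(11,0)]⟩,⟨0,[(1,0)]⟩⟩,.o ⟨false,1,⟨9,[(11,0),(11,0),(5,
  9),(12,1),(4,4)]⟩,⟨0,[(14,0)]⟩⟩,.a ⟨true,0,⟨0,[(29,0)]⟩,⟨0,[(26,0)]⟩⟩ ⟨true,0,⟨0,[(12,0)]⟩,⟨1,[(3,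
  0),(11,1),(32,0)]⟩⟩ ⟨false,1,⟨0,[(11,0),(14,0)]⟩,⟨0,[(0,0),(28,0)]⟩⟩]⟩)) (.I [0,0,-2,0,1,-2,0,0,
  -2] (.Q [0,0,0,0,0,-1,0,0,0,0,0,1] (.ed false [1,-1,0,0,1] .k) (.Q [-1,0,0,0,0,0,0,0,-1,1,0,-1]
  (.p false [0,0,0,0,1] [1] (⟨0,[(26,0)]⟩,⟨0,[(25,0)]⟩) .k 1 (⟨0,[]⟩,⟨0,[]⟩) .k .k) (.S ⟨1,0,[1,1],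
  [0,0,0,0,1],[],(⟨0,[(27,0)]⟩,⟨0,[(26,0)]⟩),⟨0,[(1,0)]⟩,.k,(.r (-1) ⟨3,[(13,0),(5,1),(5,0),(23,
  0)]⟩ ⟨9,[(5,4),(7,3),(11,3),(15,0),(10,1)]⟩),⟨false,1,⟨1,[(13,0),(11,0),(24,0)]⟩,⟨0,[]⟩⟩,⟨true,0,
  ⟨0,[(52,0)]⟩,⟨0,[]⟩⟩,⟨true,0,⟨0,[(4,0)]⟩,⟨0,[(47,0)]⟩⟩,⟨false,0,⟨0,[(48,0)]⟩,⟨3,[(19,1),(11,0),(0,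
  0),(17,1)]⟩⟩,[.o ⟨false,0,⟨4,[(5,1),(6,3),(12,0),(17,2),(0,0),(0,0)]⟩,⟨5,[(0,4),(12,0),(30,0),(5,
  2)]⟩⟩,.a ⟨true,0,⟨0,[(25,0)]⟩,⟨0,[(0,0)]⟩⟩ ⟨false,1,⟨1,[(49,0),(0,0)]⟩,⟨0,[(52,0)]⟩⟩ ⟨true,0,⟨0,
  []⟩,⟨1,[(31,0),(0,0)]⟩⟩,.e ⟨false,1,⟨1,[(13,0),(11,0),(24,0)]⟩,⟨0,[]⟩⟩ ⟨false,0,⟨0,[]⟩,⟨1,[(13,0),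
  (11,0),(24,0)]⟩⟩,.o ⟨false,0,⟨7,[(5,0),(0,1),(0,1),(0,1),(16,7),(15,0),(2,1)]⟩,⟨5,[(0,4),(12,0),
  (30,0),(4,2)]⟩⟩]⟩) (.S ⟨1,0,[1,1],[0,0,0,0,1],[1],(⟨0,[(27,0)]⟩,⟨0,[(26,0)]⟩),⟨0,[(1,0)]⟩,.k,(.r
  (-1) ⟨3,[(13,0),(5,1),(5,0),(23,0)]⟩ ⟨9,[(5,4),(7,3),(11,3),(15,0),(10,1)]⟩),⟨false,1,⟨1,[(13,0),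
  (11,0),(24,0)]⟩,⟨0,[]⟩⟩,⟨true,0,⟨0,[(52,0)]⟩,⟨0,[]⟩⟩,⟨true,0,⟨0,[(48,0)]⟩,⟨0,[(47,0)]⟩⟩,⟨false,0,
  ⟨0,[(48,0)]⟩,⟨3,[(19,1),(11,0),(0,0),(17,1)]⟩⟩,[.o ⟨false,0,⟨7,[(0,2),(4,1),(6,3),(12,0),(18,0),
  (0,3)]⟩,⟨5,[(3,4),(9,0),(27,2),(2,0)]⟩⟩,.o ⟨false,0,⟨0,[(0,0)]⟩,⟨0,[(13,0)]⟩⟩,.a ⟨true,0,⟨0,[(25,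
  0)]⟩,⟨0,[(3,0)]⟩⟩ ⟨true,0,⟨0,[]⟩,⟨0,[(52,0)]⟩⟩ ⟨false,0,⟨0,[]⟩,⟨1,[(13,0),(11,0),(24,0)]⟩⟩,.o
  ⟨false,0,⟨7,[(0,2),(4,1),(6,3),(12,0),(18,0),(6,3)]⟩,⟨5,[(3,4),(9,0),(30,0),(4,2)]⟩⟩]⟩)) (.I [1,0,
  0,-1,0,1,0,0,1] (.C [(0,0),(0,0),(0,0),(2,0),(6,0)]) (.C [(0,0),(0,0),(10,0)]))) (.Q [-1,0,0,-1,0,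
  0,0,0,-1,1,0,-1] (.p false [0,0,0,0,1] [1] (⟨0,[(25,0)]⟩,⟨0,[(24,0)]⟩) .k 1 (⟨0,[]⟩,⟨0,[]⟩) .k
  .k) (.S ⟨1,0,[-1,1],[1,0,0,0,-1],[-1],(⟨0,[(25,0)]⟩,⟨0,[(26,0)]⟩),⟨1,[(0,1),(0,0),(1,1),(30,3),(5,
  0),(1,1)]⟩,.k,(.r (-1) ⟨19,[(12,2),(5,9),(5,2),(15,1),(7,4),(2,3)]⟩ ⟨1,[(4,0),(7,0),(11,0)]⟩),
  ⟨false,1,⟨1,[(12,0),(11,0),(24,0)]⟩,⟨0,[]⟩⟩,⟨true,0,⟨0,[(51,0)]⟩,⟨0,[]⟩⟩,⟨true,0,⟨0,[(47,0)]⟩,⟨0,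
  [(46,0)]⟩⟩,⟨false,0,⟨0,[(47,0)]⟩,⟨3,[(18,1),(11,0),(0,0),(17,1)]⟩⟩,[.o ⟨false,0,⟨14,[(0,12),(1,1),
  (0,0),(0,5),(37,8),(0,2),(0,2)]⟩,⟨9,[(12,0),(11,10),(18,1),(5,4)]⟩⟩,.e ⟨false,1,⟨1,[(40,0),(7,
  0)]⟩,⟨0,[(51,0)]⟩⟩ ⟨false,1,⟨1,[(12,0),(11,0),(23,0)]⟩,⟨0,[]⟩⟩,.a ⟨true,0,⟨0,[(2,0)]⟩,⟨0,[(24,
  0)]⟩⟩ ⟨false,1,⟨1,[(12,0),(11,0),(24,0)]⟩,⟨0,[]⟩⟩ ⟨true,0,⟨0,[(51,0)]⟩,⟨0,[]⟩⟩,.o ⟨false,0,⟨39,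
  [(0,34),(3,17),(0,0),(0,0),(5,4),(18,0),(9,0),(1,6)]⟩,⟨9,[(12,0),(11,10),(18,1),(4,4)]⟩⟩]⟩) (.Q
  [0,0,0,0,0,-1,0,0,0,1,0,-1] (.ed true [0,1,0,0,1] .k) (.R ⟨1,false,false,true,[1,0,0,0,-1],[1,-1],
  [-1],(⟨0,[(26,0)]⟩,⟨0,[(27,0)]⟩),(⟨0,[(38,0)]⟩,⟨0,[(39,0)]⟩),⟨0,[(0,0)]⟩,.k,.k,(.r (-1) ⟨19,[(13,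
  2),(5,9),(5,2),(15,1),(7,4),(2,3)]⟩ ⟨1,[(5,0),(7,0),(11,0)]⟩),(.r 0 ⟨9,[(5,4),(7,3),(11,3),(15,0),
  (10,1)]⟩ ⟨3,[(13,0),(5,1),(5,0),(23,0)]⟩),.k,.k,⟨true,0,⟨0,[(4,0),(41,0)]⟩,⟨0,[(47,0)]⟩⟩,⟨false,0,
  ⟨0,[(25,0)]⟩,⟨5,[(3,4),(9,0),(30,0),(4,2)]⟩⟩,⟨false,1,⟨1,[(13,0),(11,0),(24,0)]⟩,⟨0,[]⟩⟩,⟨false,0,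
  ⟨0,[(12,0)]⟩,⟨5,[(3,4),(9,0),(30,0),(3,5),(1,2)]⟩⟩,⟨true,0,⟨0,[(48,0)]⟩,⟨0,[(47,0)]⟩⟩,⟨false,0,⟨0,
  [(25,0)]⟩,⟨5,[(3,4),(9,0),(27,2),(2,0)]⟩⟩,[.o ⟨false,0,⟨0,[(47,0)]⟩,⟨5,[(1,0),(11,0),(30,0),(3,4),
  (1,2)]⟩⟩,.a ⟨true,0,⟨15,[(3,9),(3,1),(0,0),(0,1),(2,9),(15,0),(7,3),(1,3),(2,0)]⟩,⟨0,[(48,0)]⟩⟩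
  ⟨false,1,⟨1,[(41,0),(7,0)]⟩,⟨0,[(52,0)]⟩⟩ ⟨true,0,⟨6,[(1,1),(2,1),(2,1),(0,1),(0,1),(2,4),(28,0),
  (7,0)]⟩,⟨5,[(3,4),(1,2),(7,0),(30,0)]⟩⟩,.e ⟨false,1,⟨1,[(13,0),(11,0),(24,0)]⟩,⟨0,[]⟩⟩ ⟨false,0,
  ⟨6,[(1,1),(2,1),(2,1),(0,1),(0,1),(2,4),(28,0),(7,0)]⟩,⟨5,[(3,4),(9,0),(30,0),(3,5),(1,2)]⟩⟩,.o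
  ⟨false,0,⟨7,[(3,7),(1,0),(0,1),(0,1),(0,1),(32,0),(2,1)]⟩,⟨9,[(13,0),(11,10),(18,1),(4,4)]⟩⟩]⟩)
  (.R ⟨0,false,false,true,[1,0,0,0,-1],[1,-1],[],(⟨0,[(26,0)]⟩,⟨0,[(27,0)]⟩),(⟨0,[(38,0)]⟩,⟨0,[(39,
  0)]⟩),⟨0,[(0,0)]⟩,.k,.k,(.r (-1) ⟨19,[(13,2),(5,9),(5,2),(15,1),(7,4),(2,3)]⟩ ⟨1,[(5,0),(7,0),(11,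
  0)]⟩),(.r 0 ⟨9,[(5,4),(7,3),(11,3),(15,0),(10,1)]⟩ ⟨3,[(13,0),(5,1),(5,0),(23,0)]⟩),.k,.k,⟨true,0,
  ⟨1,[(5,0),(44,0)]⟩,⟨0,[(47,0)]⟩⟩,⟨false,0,⟨0,[(25,0)]⟩,⟨5,[(3,4),(9,0),(30,0),(4,2)]⟩⟩,⟨true,0,⟨0,
  []⟩,⟨0,[(52,0)]⟩⟩,⟨false,0,⟨0,[(12,0)]⟩,⟨5,[(3,4),(9,0),(30,0),(3,5),(1,2)]⟩⟩,⟨false,0,⟨0,[]⟩,⟨0,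
  []⟩⟩,⟨false,0,⟨0,[]⟩,⟨0,[]⟩⟩,[.o ⟨false,0,⟨0,[(47,0)]⟩,⟨5,[(1,0),(11,0),(30,0),(3,4),(1,2)]⟩⟩,.a
  ⟨true,0,⟨15,[(3,9),(3,1),(0,0),(0,1),(2,9),(15,0),(7,3),(1,3),(2,0)]⟩,⟨0,[(48,0)]⟩⟩ ⟨false,1,⟨1,
  [(49,0),(0,0)]⟩,⟨0,[(52,0)]⟩⟩ ⟨true,0,⟨6,[(1,1),(2,1),(2,1),(0,1),(0,1),(2,4),(28,0),(7,0)]⟩,⟨5,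
  [(3,4),(1,2),(7,0),(30,0)]⟩⟩,.e ⟨false,1,⟨1,[(13,0),(11,0),(24,0)]⟩,⟨0,[]⟩⟩ ⟨false,0,⟨6,[(1,1),(2,
  1),(2,1),(0,1),(0,1),(2,4),(28,0),(7,0)]⟩,⟨5,[(3,4),(9,0),(30,0),(3,5),(1,2)]⟩⟩,.o ⟨false,0,⟨7,
  [(3,7),(1,0),(0,1),(0,1),(0,1),(32,0),(2,1)]⟩,⟨9,[(13,0),(11,10),(18,1),(4,4)]⟩⟩]⟩))))) (.N [0,2]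
  1 ⟨0,[(1,0)]⟩ ⟨0,[(0,1),(36,0),(1,1)]⟩ (.x (-2) ⟨4,[(9,0),(11,0),(12,9),(5,1),(4,4)]⟩ ⟨0,[(0,1),
  (0,0),(30,1)]⟩)))) (.R ⟨1,false,false,false,[1,-1],[1,0,-1],[0,1,-1,-1],(⟨0,[(32,0)]⟩,⟨0,[(33,
  0)]⟩),(⟨0,[(27,0)]⟩,⟨0,[(28,0)]⟩),⟨0,[(16,0),(0,0)]⟩,.k,.k,(.r (-1) ⟨0,[(0,0),(2,0)]⟩ ⟨0,[(25,0),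
  (0,0),(15,1)]⟩),.k,(.r (-1) ⟨1,[(0,0),(2,0),(4,1),(35,0)]⟩ ⟨1,[(11,1),(13,0),(0,0),(9,1),(5,3)]⟩),
  .k,⟨true,0,⟨3,[(0,2),(0,0),(0,4),(0,7),(33,2),(0,0),(3,12)]⟩,⟨0,[(11,0),(24,1),(5,0)]⟩⟩,⟨false,1,
  ⟨5,[(15,0),(6,3),(15,0),(4,3)]⟩,⟨0,[(25,0)]⟩⟩,⟨true,0,⟨0,[(46,0)]⟩,⟨0,[]⟩⟩,⟨false,1,⟨0,[(24,0),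
  (17,0),(1,0)]⟩,⟨0,[(5,0)]⟩⟩,⟨false,0,⟨0,[(42,0)]⟩,⟨3,[(13,1),(11,0),(0,0),(17,1)]⟩⟩,⟨false,1,⟨0,
  [(24,0),(17,1),(1,0)]⟩,⟨0,[(3,0)]⟩⟩,[.e ⟨false,1,⟨1,[(13,0),(25,0),(3,0)]⟩,⟨0,[(36,0),(5,0)]⟩⟩
  ⟨false,1,⟨0,[(0,0)]⟩,⟨0,[(23,0),(12,0)]⟩⟩,.o ⟨false,1,⟨0,[(24,0),(19,0)]⟩,⟨0,[(4,0),(37,0)]⟩⟩,.o
  ⟨false,0,⟨1,[(25,0),(0,0)]⟩,⟨9,[(7,0),(11,0),(18,1),(4,4)]⟩⟩,.a ⟨true,(-1),⟨0,[(2,0),(22,0)]⟩,⟨0,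
  [(43,0)]⟩⟩ ⟨false,1,⟨1,[(0,0),(2,0),(39,0)]⟩,⟨1,[(25,0),(0,0),(9,1),(5,1)]⟩⟩ ⟨true,1,⟨0,[(0,0)]⟩,
  ⟨0,[(2,0),(1,0),(20,0),(16,0)]⟩⟩]⟩)))))))

theorem ok4 : chk K t4 r8 = true := by decide +kernel

noncomputable def t7 : Tre :=
  (.S ⟨1,0,[0,0,1,1,0,0,0,-1],[1,1,-1],[1,1,1],(⟨0,[(19,0),(2,0)]⟩,⟨0,[(9,0)]⟩),⟨0,[(19,0)]⟩,.k,.k,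
  ⟨true,0,⟨0,[(1,0),(0,0)]⟩,⟨0,[(0,0),(28,0)]⟩⟩,⟨false,1,⟨1,[(10,0),(0,0),(24,0)]⟩,⟨0,[]⟩⟩,⟨false,0,
  ⟨0,[(4,0),(23,0)]⟩,⟨0,[(3,0),(32,0)]⟩⟩,⟨true,0,⟨0,[(34,0)]⟩,⟨0,[(33,0)]⟩⟩,[.o ⟨false,0,⟨0,[(0,0),
  (1,0),(26,0)]⟩,⟨9,[(1,9),(8,0),(0,0),(18,1),(5,4)]⟩⟩,.a ⟨true,0,⟨0,[(0,0),(13,0)]⟩,⟨0,[(1,0)]⟩⟩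
  ⟨false,0,⟨0,[]⟩,⟨1,[(10,0),(0,0),(23,0)]⟩⟩ ⟨true,0,⟨0,[(0,0)]⟩,⟨0,[(1,0),(0,0)]⟩⟩,.e ⟨false,0,⟨1,
  [(17,0),(0,0)]⟩,⟨1,[(35,0),(0,0)]⟩⟩ ⟨false,0,⟨0,[(0,0)]⟩,⟨1,[(4,0),(0,0),(0,0),(29,0)]⟩⟩,.o
  ⟨false,0,⟨0,[(2,0)]⟩,⟨9,[(10,0),(0,0),(5,9),(12,1),(4,4)]⟩⟩]⟩)

theorem ok7 : chk K t7 r6 = true := by decide +kernel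

noncomputable def t9 : Tre :=
  (.R ⟨2,true,false,true,[0,1],[0,0,1],[0,1,1,1],(⟨0,[]⟩,⟨0,[]⟩),(⟨0,[(19,0)]⟩,⟨0,[(18,0)]⟩),⟨0,[]⟩,
  .k,.k,.k,.k,.k,.k,⟨false,0,⟨0,[(0,0),(15,0),(11,0)]⟩,⟨1,[(3,0),(0,0),(0,0),(29,0)]⟩⟩,⟨true,0,⟨0,
  [(16,0)]⟩,⟨0,[(1,0)]⟩⟩,⟨true,0,⟨0,[(37,0)]⟩,⟨0,[]⟩⟩,⟨false,1,⟨1,[(4,0),(0,0),(8,0),(1,0),(18,0)]⟩,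
  ⟨0,[(0,0)]⟩⟩,⟨false,0,⟨0,[(33,0)]⟩,⟨3,[(4,1),(11,0),(0,0),(17,1)]⟩⟩,⟨true,0,⟨0,[(14,0)]⟩,⟨0,[(0,
  0),(31,0)]⟩⟩,[]⟩)

theorem ok9 : chk K t9 r5 = true := by decide +kernel

noncomputable def t11 : Tre :=
  (.S ⟨1,0,[0,0,0,0,0,0,0,1],[0,0,1],[0,1,0,0,0,0,0,1],(⟨0,[(18,0)]⟩,⟨0,[(17,0)]⟩),⟨0,[(7,0)]⟩,.k,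
  .k,⟨true,0,⟨0,[(36,0)]⟩,⟨0,[]⟩⟩,⟨false,1,⟨1,[(8,0),(0,0),(24,0)]⟩,⟨0,[]⟩⟩,⟨false,0,⟨0,[(32,0)]⟩,
  ⟨3,[(3,1),(11,0),(0,0),(17,1)]⟩⟩,⟨true,0,⟨0,[(32,0)]⟩,⟨0,[(31,0)]⟩⟩,[.a ⟨true,0,⟨0,[(0,0),(1,0),
  (23,0)]⟩,⟨0,[(1,0),(10,0),(13,0)]⟩⟩ ⟨false,0,⟨0,[(2,0)]⟩,⟨0,[(1,0),(32,0)]⟩⟩ ⟨true,0,⟨0,[(2,0),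
  (23,0)]⟩,⟨0,[(1,0),(24,0)]⟩⟩,.o ⟨false,1,⟨4,[(0,3),(1,3),(10,0),(12,3),(1,0),(5,2)]⟩,⟨0,[(14,
  0)]⟩⟩,.a ⟨true,0,⟨0,[(0,0)]⟩,⟨1,[(5,0),(4,0),(0,0)]⟩⟩ ⟨false,0,⟨0,[(2,0),(23,0)]⟩,⟨0,[(1,0),(32,
  0)]⟩⟩ ⟨true,0,⟨0,[(2,0),(23,0)]⟩,⟨0,[(1,0)]⟩⟩,.a ⟨true,0,⟨0,[(15,0)]⟩,⟨0,[(12,0)]⟩⟩ ⟨true,0,⟨0,
  [(2,0)]⟩,⟨0,[(1,0),(24,0)]⟩⟩ ⟨false,1,⟨0,[(2,0),(31,0)]⟩,⟨0,[(1,0),(24,0)]⟩⟩]⟩)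

theorem ok11 : chk K t11 r4 = true := by decide +kernel

noncomputable def t14 : Tre :=
  (.Q [0,0,0,0,0,0,-1,0,0,0,-1] (.p false [0,0,1] [] (⟨0,[(16,0)]⟩,⟨0,[(15,0)]⟩) .k 0 (⟨0,[]⟩,⟨0,
  []⟩) .k .k) (.Q [0,-1,0,1,0,0,-1,-1,0,0,-1] (.p false [0,0,1] [] (⟨0,[(17,0)]⟩,⟨0,[(16,0)]⟩) .k 0
  (⟨0,[]⟩,⟨0,[]⟩) .k .k) (.R ⟨2,true,false,true,[0,1],[0,0,1],[1,1,1],(⟨0,[]⟩,⟨0,[]⟩),(⟨0,[(18,0)]⟩,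
  ⟨0,[(17,0)]⟩),⟨0,[]⟩,.k,.k,.k,.k,.k,.k,⟨false,0,⟨0,[(2,0),(24,0)]⟩,⟨1,[(4,1),(28,0),(0,0)]⟩⟩,
  ⟨true,0,⟨0,[(15,0)]⟩,⟨0,[(1,0)]⟩⟩,⟨true,0,⟨0,[(31,0)]⟩,⟨0,[(32,0)]⟩⟩,⟨false,1,⟨1,[(3,0),(0,0),(8,
  0),(1,0),(18,0)]⟩,⟨0,[(0,0)]⟩⟩,⟨false,0,⟨0,[]⟩,⟨1,[(8,0),(0,0),(24,0)]⟩⟩,⟨true,0,⟨0,[(13,0)]⟩,⟨0,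
  [(0,0),(30,0)]⟩⟩,[]⟩) (.I [0,-1,-1,0,1,0,0,1] (.S ⟨1,0,[0,1,0,0,0,0,0,1],[0,0,1],[0,0,0,0,0,0,0,
  1],(⟨0,[(19,0)]⟩,⟨0,[(18,0)]⟩),⟨0,[(8,0)]⟩,.k,.k,⟨false,1,⟨1,[(9,0),(0,0),(24,0)]⟩,⟨0,[]⟩⟩,⟨true,
  0,⟨0,[(37,0)]⟩,⟨0,[]⟩⟩,⟨true,0,⟨0,[(33,0)]⟩,⟨0,[(32,0)]⟩⟩,⟨false,0,⟨0,[(33,0)]⟩,⟨3,[(4,1),(11,0),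
  (0,0),(17,1)]⟩⟩,[.a ⟨true,0,⟨0,[(14,0)]⟩,⟨0,[(3,0),(9,0)]⟩⟩ ⟨false,1,⟨3,[(0,2),(4,0),(3,0),(0,0),
  (19,0)]⟩,⟨0,[(3,0),(24,0)]⟩⟩ ⟨true,0,⟨0,[(5,0)]⟩,⟨0,[(3,0)]⟩⟩,.o ⟨false,1,⟨9,[(0,4),(8,0),(0,0),
  (3,4),(1,4),(12,1)]⟩,⟨0,[(2,0),(0,0),(24,0)]⟩⟩,.o ⟨false,1,⟨9,[(9,0),(0,0),(5,9),(12,1),(4,4)]⟩,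
  ⟨0,[(2,0)]⟩⟩,.e ⟨false,1,⟨0,[(0,0)]⟩,⟨1,[(3,0),(11,0),(0,0)]⟩⟩ ⟨false,1,⟨3,[(0,2),(4,0),(3,0),(0,
  0),(19,0)]⟩,⟨0,[(3,0)]⟩⟩]⟩) (.Q [0,-1,0,2,0,0,-1,-1,0,0,-1] (.p false [0,0,1] [] (⟨0,[(19,0)]⟩,⟨0,
  [(18,0)]⟩) .k 0 (⟨0,[]⟩,⟨0,[]⟩) .k .k) (.R ⟨1,true,false,false,[0,0,1],[0,1],[0,0,0,0,0,0,0,1],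
  (⟨0,[(20,0)]⟩,⟨0,[(19,0)]⟩),(⟨0,[(25,0)]⟩,⟨0,[(24,0)]⟩),⟨0,[(9,0)]⟩,.k,.k,.k,.k,(.r (-2) ⟨1,[(5,
  1),(0,1),(28,0),(0,0)]⟩ ⟨0,[(1,0),(26,0),(5,1)]⟩),.k,⟨true,1,⟨13,[(2,9),(2,1),(0,3),(7,9),(15,1),
  (4,0),(0,6)]⟩,⟨0,[(1,0),(26,0),(5,0)]⟩⟩,⟨false,1,⟨5,[(7,0),(6,3),(15,0),(4,3)]⟩,⟨0,[(17,0)]⟩⟩,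
  ⟨false,1,⟨1,[(10,0),(0,0),(24,0)]⟩,⟨0,[]⟩⟩,⟨true,0,⟨1,[(0,0),(15,0)]⟩,⟨0,[(2,0)]⟩⟩,⟨true,0,⟨0,
  [(34,0)]⟩,⟨0,[(33,0)]⟩⟩,⟨false,0,⟨0,[(0,0)]⟩,⟨3,[(2,3),(2,1),(11,0),(0,0),(17,1)]⟩⟩,[]⟩) (.Q [0,0,
  -1,0,1,0,1,0,0,-1,1] (.p true [0,0,1] [1] (⟨0,[(20,0)]⟩,⟨0,[(19,0)]⟩) .k 1 (⟨0,[]⟩,⟨0,[]⟩) .k .k)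
  (.S ⟨1,0,[0,0,0,0,0,0,0,-1],[1,0,-1],[0,1,0,0,0,0,0,-1],(⟨0,[(20,0)]⟩,⟨0,[(21,0)]⟩),⟨0,[(9,0)]⟩,
  .k,.k,⟨true,0,⟨0,[(39,0)]⟩,⟨0,[]⟩⟩,⟨false,1,⟨1,[(11,0),(0,0),(24,0)]⟩,⟨0,[]⟩⟩,⟨false,0,⟨0,[(35,
  0)]⟩,⟨3,[(6,1),(11,0),(0,0),(17,1)]⟩⟩,⟨true,0,⟨0,[(35,0)]⟩,⟨0,[(34,0)]⟩⟩,[.o ⟨false,0,⟨11,[(2,4),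
  (2,4),(9,9),(1,1),(10,0),(2,1)]⟩,⟨9,[(11,0),(0,0),(3,9),(14,1),(5,4)]⟩⟩,.a ⟨true,0,⟨0,[(5,0),(9,
  0)]⟩,⟨0,[(16,0)]⟩⟩ ⟨true,0,⟨1,[(2,0),(2,0),(30,0)]⟩,⟨0,[(7,0),(21,0)]⟩⟩ ⟨false,1,⟨0,[(5,0),(30,
  0)]⟩,⟨0,[(7,0)]⟩⟩,.o ⟨false,0,⟨0,[(4,0)]⟩,⟨3,[(0,1),(10,0),(0,0),(5,1),(5,0)]⟩⟩,.o ⟨false,0,⟨0,
  [(19,0)]⟩,⟨0,[(0,0)]⟩⟩]⟩) (.I [1,0,2,2,-1] (.I [-1,0,0,1] (.Q [-1,1,0,0,0,0,0,0,-1,0,0,-1] (.p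
  false [0,0,0,0,1] [] (⟨0,[(16,0)]⟩,⟨0,[(15,0)]⟩) .k 0 (⟨0,[]⟩,⟨0,[]⟩) .k .k) (.I [0,0,-2,0,1,-2,0,
  0,-2] (.Q [0,0,0,0,0,-1,0,0,0,0,0,1] (.ed false [1,-1,0,0,1] .k) (.Q [-1,0,0,0,0,0,0,0,-1,1,0,-1]
  (.p false [0,0,0,0,1] [1] (⟨0,[(19,0)]⟩,⟨0,[(18,0)]⟩) .k 1 (⟨0,[]⟩,⟨0,[]⟩) .k .k) (.S ⟨1,0,[1,1],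
  [0,0,0,0,1],[],(⟨0,[(20,0)]⟩,⟨0,[(19,0)]⟩),⟨0,[(1,0)]⟩,.k,(.r (-1) ⟨3,[(12,1),(4,0),(0,0),(23,
  0)]⟩ ⟨5,[(5,2),(11,1),(0,1),(15,0),(10,1)]⟩),⟨false,1,⟨1,[(17,0),(0,0),(15,0)]⟩,⟨0,[]⟩⟩,⟨true,0,
  ⟨0,[(45,0)]⟩,⟨0,[]⟩⟩,⟨true,0,⟨0,[(4,0)]⟩,⟨0,[(40,0)]⟩⟩,⟨false,0,⟨0,[(41,0)]⟩,⟨3,[(12,1),(11,0),(0,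
  0),(17,1)]⟩⟩,[.o ⟨false,0,⟨8,[(5,0),(0,0),(0,0),(0,1),(4,0),(4,8),(17,4),(0,1)]⟩,⟨5,[(0,4),(16,0),
  (19,0),(5,2)]⟩⟩,.a ⟨true,0,⟨0,[(18,0)]⟩,⟨0,[(0,0)]⟩⟩ ⟨false,1,⟨1,[(42,0),(0,0)]⟩,⟨0,[(45,0)]⟩⟩
  ⟨true,0,⟨0,[]⟩,⟨1,[(24,0),(0,0)]⟩⟩,.e ⟨false,1,⟨1,[(17,0),(0,0),(24,0)]⟩,⟨0,[]⟩⟩ ⟨false,0,⟨0,[]⟩,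
  ⟨1,[(17,0),(0,0),(24,0)]⟩⟩,.o ⟨false,0,⟨16,[(5,2),(0,2),(0,2),(0,2),(9,16),(15,0),(0,3),(1,3),(6,
  0)]⟩,⟨5,[(0,4),(16,0),(19,0),(4,2)]⟩⟩]⟩) (.R ⟨1,false,false,false,[0,0,1],[1,0,0,0,-1],[1,0,0,-1,
  0,0,0,1],(⟨0,[(27,0)]⟩,⟨0,[(26,0)]⟩),(⟨0,[(19,0)]⟩,⟨0,[(20,0)]⟩),⟨0,[(16,0)]⟩,.k,.k,.k,.k,(.r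
  (-1) ⟨11,[(7,4),(4,0),(0,6),(7,4),(15,0),(4,2),(0,5)]⟩ ⟨1,[(11,0),(11,0),(0,0),(16,1)]⟩),.k,
  ⟨false,1,⟨11,[(7,4),(4,0),(0,6),(7,4),(15,0),(4,2),(0,5)]⟩,⟨1,[(4,1),(3,0),(2,0),(30,0)]⟩⟩,⟨true,
  0,⟨1,[(3,1),(2,0),(14,0),(21,0)]⟩,⟨5,[(0,5),(3,1),(2,0),(0,0),(15,4),(9,0)]⟩⟩,⟨false,1,⟨3,[(12,1),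
  (11,0),(0,0),(17,1)]⟩,⟨0,[(41,0)]⟩⟩,⟨true,0,⟨0,[(3,0),(7,0),(9,0)]⟩,⟨0,[(0,0),(21,0)]⟩⟩,⟨true,0,
  ⟨0,[]⟩,⟨0,[(45,0)]⟩⟩,⟨true,0,⟨1,[(3,1),(1,0),(5,1),(9,1),(20,0)]⟩,⟨0,[(0,0),(8,0)]⟩⟩,[.o ⟨false,1,
  ⟨4,[(3,0),(13,3),(16,0),(10,0)]⟩,⟨0,[(0,0)]⟩⟩,.o ⟨false,1,⟨0,[(3,0),(39,0)]⟩,⟨11,[(0,6),(4,1),(12,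
  4),(18,0),(0,3),(1,3)]⟩⟩,.o ⟨false,1,⟨9,[(17,0),(0,0),(5,9),(12,1),(4,4)]⟩,⟨0,[(10,0)]⟩⟩,.a ⟨true,
  0,⟨0,[(24,0)]⟩,⟨0,[(21,0)]⟩⟩ ⟨true,1,⟨11,[(7,4),(4,0),(0,6),(7,4),(15,0),(4,2),(0,5)]⟩,⟨1,[(5,0),
  (2,1),(33,0)]⟩⟩ ⟨false,1,⟨0,[(3,0),(17,0),(21,0)]⟩,⟨0,[(0,0),(23,0)]⟩⟩]⟩)) (.S ⟨1,0,[-1,1],[1,0,0,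
  0,-1],[-1],(⟨0,[(18,0)]⟩,⟨0,[(19,0)]⟩),⟨0,[(0,0),(13,0),(0,0)]⟩,.k,(.r (-1) ⟨7,[(11,3),(4,0),(0,
  0),(15,0),(7,1),(2,1)]⟩ ⟨1,[(4,0),(11,0),(0,0)]⟩),⟨false,1,⟨1,[(16,0),(0,0),(24,0)]⟩,⟨0,[]⟩⟩,
  ⟨true,0,⟨0,[(44,0)]⟩,⟨0,[]⟩⟩,⟨true,0,⟨0,[(40,0)]⟩,⟨0,[(39,0)]⟩⟩,⟨false,0,⟨0,[(40,0)]⟩,⟨3,[(11,1),
  (11,0),(0,0),(17,1)]⟩⟩,[.o ⟨false,0,⟨0,[(2,0)]⟩,⟨9,[(16,0),(0,10),(18,1),(5,4)]⟩⟩,.e ⟨false,1,⟨1,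
  [(33,0),(7,0)]⟩,⟨0,[(44,0)]⟩⟩ ⟨false,1,⟨11,[(16,4),(0,4),(15,0),(7,5),(2,1)]⟩,⟨0,[]⟩⟩,.a ⟨true,0,
  ⟨1,[(0,0),(0,0),(3,0),(12,0),(4,0),(4,0)]⟩,⟨0,[(17,0)]⟩⟩ ⟨false,1,⟨1,[(16,0),(0,0),(15,0)]⟩,⟨0,
  []⟩⟩ ⟨true,0,⟨0,[(44,0)]⟩,⟨0,[]⟩⟩,.o ⟨false,0,⟨0,[(2,0),(31,0)]⟩,⟨9,[(16,0),(0,10),(18,1),(4,
  4)]⟩⟩]⟩)) (.Q [1,0,0,0,0,0,0,0,1,-1,0,1] (.p true [0,0,0,0,1] [1] (⟨0,[(18,0)]⟩,⟨0,[(17,0)]⟩) .k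
  1 (⟨0,[]⟩,⟨0,[]⟩) .k .k) (.R ⟨1,false,false,false,[0,0,1],[0,0,0,0,1],[0,1,0,0,0,0,0,1],(⟨0,[(26,
  0)]⟩,⟨0,[(25,0)]⟩),(⟨0,[(19,0)]⟩,⟨0,[(18,0)]⟩),⟨0,[(15,0)]⟩,.k,.k,.k,.k,(.r (-1) ⟨11,[(6,4),(4,0),
  (0,6),(7,4),(15,0),(4,2),(0,5)]⟩ ⟨1,[(4,0),(5,0),(11,0),(0,0),(17,0)]⟩),.k,⟨true,0,⟨3,[(3,9),(1,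
  4),(0,4),(0,0),(25,3),(1,5),(0,0)]⟩,⟨0,[(10,0)]⟩⟩,⟨false,0,⟨0,[(0,0),(4,0),(35,0)]⟩,⟨1,[(2,1),(20,
  1),(17,0),(0,0)]⟩⟩,⟨true,0,⟨0,[(44,0)]⟩,⟨0,[]⟩⟩,⟨false,0,⟨0,[(0,0),(9,0),(9,0)]⟩,⟨0,[(2,0),(18,0),
  (20,0)]⟩⟩,⟨false,0,⟨0,[(40,0)]⟩,⟨3,[(11,1),(11,0),(0,0),(17,1)]⟩⟩,⟨false,0,⟨1,[(0,1),(3,0),(5,1),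
  (9,1),(20,0)]⟩,⟨0,[(2,0),(5,0),(33,0)]⟩⟩,[.o ⟨false,0,⟨0,[(0,0)]⟩,⟨4,[(2,0),(13,3),(16,0),(10,
  0)]⟩⟩,.o ⟨false,1,⟨9,[(16,0),(0,10),(18,1),(5,4)]⟩,⟨0,[(2,0)]⟩⟩,.o ⟨false,1,⟨9,[(16,0),(0,0),(5,
  9),(12,1),(4,4)]⟩,⟨0,[(9,0)]⟩⟩,.a ⟨true,0,⟨0,[(23,0)]⟩,⟨0,[(20,0)]⟩⟩ ⟨false,1,⟨1,[(12,1),(28,0),
  (0,0)]⟩,⟨0,[(10,0)]⟩⟩ ⟨true,0,⟨0,[(0,0),(19,0)]⟩,⟨0,[(2,0),(20,0)]⟩⟩]⟩) (.Q [1,0,0,1,0,0,0,0,1,-1,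
  0,1] (.p true [0,0,0,0,1] [1] (⟨0,[(19,0)]⟩,⟨0,[(18,0)]⟩) .k 1 (⟨0,[]⟩,⟨0,[]⟩) .k .k) (.R ⟨2,true,
  false,true,[0,1],[1,0,0,0,-1],[1,1],(⟨0,[]⟩,⟨0,[]⟩),(⟨0,[(19,0)]⟩,⟨0,[(20,0)]⟩),⟨0,[]⟩,.k,.k,.k,
  (.r 0 ⟨1,[(5,0),(11,0),(0,0)]⟩ ⟨7,[(12,3),(4,0),(0,0),(15,0),(7,1),(2,1)]⟩),.k,.k,⟨true,0,⟨0,[]⟩,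
  ⟨0,[(44,0)]⟩⟩,⟨false,0,⟨0,[(1,0)]⟩,⟨9,[(17,0),(0,10),(18,1),(4,4)]⟩⟩,⟨false,1,⟨3,[(12,1),(4,0),(0,
  0),(23,0)]⟩,⟨1,[(5,0),(37,0)]⟩⟩,⟨true,0,⟨0,[(1,0),(38,0)]⟩,⟨0,[(0,0)]⟩⟩,⟨true,0,⟨0,[(36,0)]⟩,⟨1,
  [(24,0),(0,0)]⟩⟩,⟨false,0,⟨0,[(1,0)]⟩,⟨9,[(17,0),(0,10),(18,1),(5,4)]⟩⟩,[]⟩) (.S ⟨1,0,[-1,1],[1,0,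
  0,0,-1],[-1],(⟨0,[(19,0)]⟩,⟨0,[(20,0)]⟩),⟨1,[(0,1),(1,0),(1,1),(23,3),(5,0),(1,1)]⟩,.k,(.r (-1)
  ⟨7,[(12,3),(4,0),(0,0),(15,0),(7,1),(2,1)]⟩ ⟨1,[(5,0),(11,0),(0,0)]⟩),⟨false,1,⟨1,[(17,0),(0,0),
  (24,0)]⟩,⟨0,[]⟩⟩,⟨true,0,⟨0,[(45,0)]⟩,⟨0,[]⟩⟩,⟨true,0,⟨0,[(41,0)]⟩,⟨0,[(40,0)]⟩⟩,⟨false,0,⟨0,[(41,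
  0)]⟩,⟨3,[(12,1),(11,0),(0,0),(17,1)]⟩⟩,[.o ⟨false,0,⟨0,[(3,0)]⟩,⟨9,[(17,0),(0,10),(18,1),(5,4)]⟩⟩,
  .e ⟨false,1,⟨1,[(34,0),(7,0)]⟩,⟨0,[(45,0)]⟩⟩ ⟨false,1,⟨11,[(17,4),(0,4),(15,0),(7,5),(2,1)]⟩,⟨0,
  []⟩⟩,.a ⟨true,0,⟨0,[(1,0)]⟩,⟨0,[(18,0)]⟩⟩ ⟨false,1,⟨1,[(17,0),(0,0),(15,0)]⟩,⟨0,[]⟩⟩ ⟨true,0,⟨0,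
  [(45,0)]⟩,⟨0,[]⟩⟩,.o ⟨false,0,⟨21,[(0,19),(4,9),(11,1),(6,0),(0,0),(11,3)]⟩,⟨9,[(17,0),(0,10),(18,
  1),(4,4)]⟩⟩]⟩)))) (.Q [0,0,1,0,0,0,0,0,-1,1,0,-1] (.p false [0,0,0,0,1] [1] (⟨0,[(17,0)]⟩,⟨0,[(16,
  0)]⟩) .k 1 (⟨0,[]⟩,⟨0,[]⟩) .k .k) (.Q [-1,-1,0,0,1,0,0,0,-1,0,0,-1] (.p false [0,0,0,0,1] [] (⟨0,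
  [(18,0)]⟩,⟨0,[(17,0)]⟩) .k 0 (⟨0,[]⟩,⟨0,[]⟩) .k .k) (.R ⟨1,false,false,true,[0,0,1],[0,0,0,0,1],
  [0,0,0,0,0,0,0,1],(⟨0,[(26,0)]⟩,⟨0,[(25,0)]⟩),(⟨0,[(19,0)]⟩,⟨0,[(18,0)]⟩),⟨0,[(15,0)]⟩,.k,.k,.k,
  .k,(.r (-1) ⟨11,[(6,4),(4,0),(0,6),(7,4),(15,0),(4,2),(0,5)]⟩ ⟨1,[(4,0),(5,0),(11,0),(0,0),(17,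
  0)]⟩),.k,⟨true,1,⟨0,[(12,0),(29,0)]⟩,⟨0,[(7,0)]⟩⟩,⟨false,0,⟨4,[(2,4),(0,0),(1,4),(29,3),(0,0),(2,
  0),(1,2)]⟩,⟨0,[(0,0),(22,0),(11,0)]⟩⟩,⟨false,1,⟨1,[(16,0),(0,0),(24,0)]⟩,⟨0,[]⟩⟩,⟨true,(-1),⟨0,
  [(2,0),(4,0),(1,0),(25,0)]⟩,⟨0,[(0,0),(20,0)]⟩⟩,⟨true,0,⟨0,[(40,0)]⟩,⟨0,[(39,0)]⟩⟩,⟨true,(-1),⟨16,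
  [(2,16),(0,0),(0,7),(2,14),(12,14),(1,1),(12,14),(0,2),(0,0)]⟩,⟨0,[(0,0),(7,0)]⟩⟩,[.o ⟨false,0,⟨4,
  [(2,2),(4,1),(4,1),(4,1),(18,0),(0,1)]⟩,⟨0,[(0,0)]⟩⟩,.o ⟨false,0,⟨30,[(2,30),(0,1),(0,2),(0,3),(0,
  3),(0,6),(4,2),(22,16),(0,6)]⟩,⟨2,[(0,0),(15,1),(27,0)]⟩⟩,.o ⟨false,1,⟨9,[(16,0),(0,0),(5,9),(12,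
  1),(4,4)]⟩,⟨0,[(9,0)]⟩⟩,.a ⟨true,0,⟨0,[(23,0)]⟩,⟨0,[(20,0)]⟩⟩ ⟨true,1,⟨1,[(12,1),(28,0),(0,0)]⟩,
  ⟨0,[(7,0)]⟩⟩ ⟨false,0,⟨0,[(2,0),(6,0),(25,0)]⟩,⟨0,[(0,0),(22,0)]⟩⟩]⟩) (.I [0,0,2,0,-2,2,0,0,2]
  (.Q [-1,1,0,0,0,0,0,0,-1,1,0,-1] (.p false [0,0,0,0,1] [1] (⟨0,[(20,0)]⟩,⟨0,[(19,0)]⟩) .k 1 (⟨0,
  []⟩,⟨0,[]⟩) .k .k) (.Q [0,0,0,0,0,-1,0,0,0,1,0,-1] (.ed true [0,1,0,0,1] .k) (.S ⟨1,0,[-1,1],[1,0,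
  0,0,-1],[-1],(⟨0,[(21,0)]⟩,⟨0,[(22,0)]⟩),⟨0,[(0,0)]⟩,.k,(.r (-1) ⟨7,[(14,3),(4,0),(0,0),(15,0),(7,
  1),(2,1)]⟩ ⟨1,[(7,0),(11,0),(0,0)]⟩),⟨false,1,⟨1,[(19,0),(0,0),(24,0)]⟩,⟨0,[]⟩⟩,⟨true,0,⟨0,[(47,
  0)]⟩,⟨0,[]⟩⟩,⟨true,0,⟨0,[(43,0)]⟩,⟨0,[(42,0)]⟩⟩,⟨false,0,⟨0,[(43,0)]⟩,⟨3,[(14,1),(11,0),(0,0),(17,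
  1)]⟩⟩,[.a ⟨true,0,⟨0,[(1,0)]⟩,⟨0,[(5,0)]⟩⟩ ⟨false,1,⟨11,[(19,4),(0,4),(15,0),(7,5),(2,1)]⟩,⟨0,
  []⟩⟩ ⟨true,0,⟨0,[(47,0)]⟩,⟨0,[(37,0)]⟩⟩,.o ⟨false,1,⟨11,[(1,4),(17,6),(16,2),(2,0),(7,0)]⟩,⟨4,[(3,
  1),(1,1),(14,0),(18,0)]⟩⟩,.o ⟨false,1,⟨0,[(19,0)]⟩,⟨14,[(3,12),(16,1),(15,6),(2,2),(7,0)]⟩⟩,.e
  ⟨false,1,⟨1,[(36,0),(7,0)]⟩,⟨1,[(26,0),(0,0)]⟩⟩ ⟨false,1,⟨11,[(19,4),(0,4),(15,0),(7,5),(2,1)]⟩,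
  ⟨0,[(37,0)]⟩⟩]⟩) (.I [-1,1,0,0,0,1,0,0,-1] (.C [(0,0),(0,0),(0,0),(0,0),(27,3),(5,1),(1,1)]) (.C
  [(0,0),(0,0),(0,0)]))) (.R ⟨1,false,false,true,[0,0,1],[1,0,0,0,-1],[1,0,0,-1,0,0,0,1],(⟨0,[(28,
  0)]⟩,⟨0,[(27,0)]⟩),(⟨0,[(20,0)]⟩,⟨0,[(21,0)]⟩),⟨0,[(17,0)]⟩,.k,.k,.k,.k,(.r (-1) ⟨11,[(8,4),(4,0),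
  (0,6),(7,4),(15,0),(4,2),(0,5)]⟩ ⟨1,[(12,0),(11,0),(0,0),(16,1)]⟩),.k,⟨true,1,⟨1,[(8,0),(2,0),(2,
  0),(29,1)]⟩,⟨0,[(5,0),(3,0)]⟩⟩,⟨false,1,⟨0,[(18,0),(3,0)]⟩,⟨3,[(0,3),(4,0),(3,1),(0,0),(12,0),(1,
  1),(17,1)]⟩⟩,⟨false,1,⟨3,[(13,1),(11,0),(0,0),(17,1)]⟩,⟨0,[(42,0)]⟩⟩,⟨true,0,⟨0,[(3,0),(5,0),(1,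
  0),(31,0)]⟩,⟨0,[(0,0),(22,0)]⟩⟩,⟨true,0,⟨0,[]⟩,⟨0,[(46,0)]⟩⟩,⟨true,0,⟨0,[(9,0),(8,0),(3,0),(19,
  0)]⟩,⟨0,[(0,0),(9,0)]⟩⟩,[.o ⟨false,1,⟨0,[(18,0),(27,0)]⟩,⟨0,[(0,0)]⟩⟩,.o ⟨false,1,⟨10,[(3,9),(1,
  1),(12,0),(16,0),(2,1),(2,1),(1,4)]⟩,⟨6,[(0,1),(1,1),(16,2),(18,0)]⟩⟩,.o ⟨false,1,⟨9,[(18,0),(0,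
  0),(5,9),(12,1),(4,4)]⟩,⟨0,[(11,0)]⟩⟩,.a ⟨true,0,⟨0,[(25,0)]⟩,⟨0,[(22,0)]⟩⟩ ⟨true,1,⟨11,[(8,4),(4,
  0),(0,6),(7,4),(15,0),(4,2),(0,5)]⟩,⟨1,[(6,0),(2,1),(33,0)]⟩⟩ ⟨false,1,⟨0,[(3,0),(7,0),(31,0)]⟩,
  ⟨0,[(0,0),(24,0)]⟩⟩]⟩)) (.Q [0,0,1,0,-1,0,0,0,1,0,0,1] (.p true [0,0,0,0,1] [] (⟨0,[(20,0)]⟩,⟨0,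
  [(19,0)]⟩) .k 0 (⟨0,[]⟩,⟨0,[]⟩) .k .k) (.S ⟨1,0,[1,1],[0,0,0,0,1],[],(⟨0,[(21,0)]⟩,⟨0,[(20,0)]⟩),
  ⟨1,[(0,1),(0,0)]⟩,.k,(.r (-1) ⟨3,[(13,1),(4,0),(0,0),(23,0)]⟩ ⟨5,[(6,2),(11,1),(0,1),(15,0),(10,
  1)]⟩),⟨false,1,⟨1,[(18,0),(0,0),(15,0)]⟩,⟨0,[]⟩⟩,⟨true,0,⟨0,[(46,0)]⟩,⟨0,[]⟩⟩,⟨true,0,⟨0,[(5,0)]⟩,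
  ⟨0,[(41,0)]⟩⟩,⟨false,0,⟨0,[(42,0)]⟩,⟨3,[(13,1),(11,0),(0,0),(17,1)]⟩⟩,[.e ⟨false,1,⟨1,[(18,0),(0,
  0),(23,0)]⟩,⟨0,[]⟩⟩ ⟨false,0,⟨0,[(37,0)]⟩,⟨1,[(18,0),(0,0),(24,0)]⟩⟩,.o ⟨false,0,⟨4,[(2,1),(1,1),
  (14,0),(18,0)]⟩,⟨27,[(1,4),(1,9),(14,7),(1,9),(9,9),(4,1),(2,3),(7,3)]⟩⟩,.o ⟨false,0,⟨14,[(0,9),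
  (1,0),(1,0),(14,2),(18,2),(4,4)]⟩,⟨0,[(18,0)]⟩⟩,.a ⟨true,(-1),⟨0,[(0,0)]⟩,⟨0,[(3,0),(39,0)]⟩⟩
  ⟨false,1,⟨1,[(43,0),(0,0)]⟩,⟨1,[(25,0),(0,0)]⟩⟩ ⟨true,0,⟨0,[(37,0)]⟩,⟨1,[(25,0),(0,0)]⟩⟩]⟩) (.R
  ⟨2,true,false,true,[0,1],[0,0,0,0,1],[1,1,1],(⟨0,[]⟩,⟨0,[]⟩),(⟨0,[(21,0)]⟩,⟨0,[(20,0)]⟩),⟨0,[]⟩,
  .k,.k,.k,(.r 0 ⟨5,[(6,2),(11,1),(0,1),(15,0),(10,1)]⟩ ⟨3,[(13,1),(4,0),(0,0),(23,0)]⟩),.k,.k,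
  ⟨true,0,⟨1,[(25,0),(0,0)]⟩,⟨0,[]⟩⟩,⟨false,0,⟨0,[(19,0)]⟩,⟨0,[(0,0)]⟩⟩,⟨true,0,⟨0,[(41,0)]⟩,⟨0,
  [(42,0)]⟩⟩,⟨false,0,⟨5,[(2,0),(1,2),(3,0),(0,0),(3,1),(5,1),(6,0)]⟩,⟨1,[(0,1),(5,0),(28,0)]⟩⟩,
  ⟨false,0,⟨0,[]⟩,⟨1,[(18,0),(0,0),(24,0)]⟩⟩,⟨true,(-1),⟨0,[(2,0)]⟩,⟨1,[(0,0),(17,0),(26,0)]⟩⟩,
  []⟩)))) (.Q [-1,0,0,0,1,0,0,0,-1,0,0,-1] (.p false [0,0,0,0,1] [] (⟨0,[(18,0)]⟩,⟨0,[(17,0)]⟩) .k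
  0 (⟨0,[]⟩,⟨0,[]⟩) .k .k) (.R ⟨1,false,false,false,[0,0,1],[0,0,0,0,1],[0,0,0,0,0,0,0,1],(⟨0,[(26,
  0)]⟩,⟨0,[(25,0)]⟩),(⟨0,[(19,0)]⟩,⟨0,[(18,0)]⟩),⟨0,[(15,0)]⟩,.k,.k,.k,.k,(.r (-1) ⟨11,[(6,4),(4,0),
  (0,6),(7,4),(15,0),(4,2),(0,5)]⟩ ⟨1,[(4,0),(5,0),(11,0),(0,0),(17,0)]⟩),.k,⟨false,1,⟨1,[(12,1),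
  (28,0),(0,0)]⟩,⟨1,[(7,0),(2,0),(30,0)]⟩⟩,⟨true,(-1),⟨0,[(1,0),(3,0)]⟩,⟨0,[(0,0),(22,0)]⟩⟩,⟨false,
  1,⟨1,[(0,0),(16,0),(24,0)]⟩,⟨0,[]⟩⟩,⟨true,(-1),⟨1,[(1,1),(3,0),(1,0),(2,0),(9,0)]⟩,⟨0,[(0,0),(20,
  0)]⟩⟩,⟨true,0,⟨0,[(40,0)]⟩,⟨0,[(39,0)]⟩⟩,⟨true,(-1),⟨1,[(1,1),(2,0),(2,0),(2,0),(9,1)]⟩,⟨0,[(0,0),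
  (7,0)]⟩⟩,[.o ⟨false,0,⟨20,[(1,7),(0,3),(1,1),(0,1),(0,1),(0,1),(9,8),(18,2)]⟩,⟨0,[(0,0)]⟩⟩,.o
  ⟨false,0,⟨0,[(1,0),(32,0)]⟩,⟨0,[(0,0),(43,0)]⟩⟩,.o ⟨false,1,⟨9,[(0,0),(16,0),(5,9),(12,1),(4,4)]⟩,
  ⟨0,[(9,0)]⟩⟩,.a ⟨true,0,⟨0,[(23,0)]⟩,⟨0,[(20,0)]⟩⟩ ⟨true,1,⟨1,[(12,1),(28,0),(0,0)]⟩,⟨0,[(7,0)]⟩⟩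
  ⟨false,0,⟨1,[(1,1),(3,0),(14,0),(21,0)]⟩,⟨0,[(0,0),(22,0)]⟩⟩]⟩) (.R ⟨2,true,false,true,[0,1],[0,0,
  0,0,1],[1,1],(⟨0,[]⟩,⟨0,[]⟩),(⟨0,[(19,0)]⟩,⟨0,[(18,0)]⟩),⟨0,[]⟩,.k,.k,.k,(.r 0 ⟨5,[(4,2),(11,1),
  (0,1),(15,0),(10,1)]⟩ ⟨3,[(11,1),(4,0),(0,0),(23,0)]⟩),.k,.k,⟨false,1,⟨1,[(16,0),(0,0),(23,0)]⟩,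
  ⟨0,[]⟩⟩,⟨true,(-1),⟨9,[(0,7),(3,0),(1,0),(0,0),(9,1),(6,0),(9,1),(8,3)]⟩,⟨0,[(16,0)]⟩⟩,⟨false,1,
  ⟨3,[(11,1),(4,0),(0,0),(23,0)]⟩,⟨1,[(4,0),(37,0)]⟩⟩,⟨true,(-1),⟨0,[(0,0),(38,0)]⟩,⟨0,[(16,0),(23,
  0)]⟩⟩,⟨true,0,⟨0,[(35,0)]⟩,⟨1,[(23,0),(0,0)]⟩⟩,⟨false,(-1),⟨0,[(0,0)]⟩,⟨1,[(16,2),(0,0),(15,0)]⟩⟩,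
  []⟩)))) (.N [0,2] 1 ⟨0,[(1,0)]⟩ ⟨0,[(0,1),(29,0),(1,1)]⟩ (.x (-2) ⟨4,[(13,0),(0,0),(12,9),(5,1),
  (4,4)]⟩ ⟨0,[(0,1),(0,0),(23,1)]⟩))) (.S ⟨1,0,[0,0,-1,-1],[1,-1],[1,1,-1,-2],(⟨0,[(26,0)]⟩,⟨0,[(27,
  0)]⟩),⟨0,[(10,0),(0,0)]⟩,.k,(.r (-1) ⟨0,[(0,0)]⟩ ⟨0,[(19,0),(0,0),(15,1)]⟩),⟨true,0,⟨0,[(35,0)]⟩,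
  ⟨0,[(36,0)]⟩⟩,⟨false,1,⟨1,[(12,0),(0,0),(24,0)]⟩,⟨0,[]⟩⟩,⟨false,0,⟨0,[]⟩,⟨1,[(12,0),(0,0),(24,
  0)]⟩⟩,⟨true,0,⟨0,[(36,0)]⟩,⟨0,[(35,0)]⟩⟩,[.e ⟨false,1,⟨1,[(0,0),(6,0),(25,0)]⟩,⟨0,[(30,0),(5,
  1)]⟩⟩ ⟨false,1,⟨1,[(0,0),(36,0)]⟩,⟨1,[(19,0),(0,0),(15,1)]⟩⟩,.o ⟨false,1,⟨3,[(7,1),(11,0),(0,0),
  (17,1)]⟩,⟨3,[(1,0),(1,0),(13,0),(13,1),(0,0),(3,3)]⟩⟩,.o ⟨false,0,⟨1,[(19,0),(0,0)]⟩,⟨9,[(12,0),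
  (0,0),(18,1),(4,4)]⟩⟩,.a ⟨true,(-1),⟨0,[(1,0),(17,0)]⟩,⟨0,[(37,0)]⟩⟩ ⟨false,1,⟨0,[(0,0)]⟩,⟨1,[(19,
  0),(0,0),(9,1),(5,3)]⟩⟩ ⟨true,1,⟨1,[(0,0),(36,0)]⟩,⟨5,[(1,4),(1,2),(4,1),(8,0),(1,3),(12,0),(3,
  5)]⟩⟩]⟩)))))) (.I [0,0,-2,-2,1,0,0,-1] (.Q [0,1,0,-1,0,0,-1,-1,0,0,-1] (.p false [0,0,1] [] (⟨0,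
  [(18,0)]⟩,⟨0,[(17,0)]⟩) .k 0 (⟨0,[]⟩,⟨0,[]⟩) .k .k) (.K ⟨0,[0,1,1],0,0,(⟨0,[(19,0),(1,0)]⟩,⟨0,[(7,
  0)]⟩),.k,.k,(.r 0 ⟨1,[(5,1),(10,0),(0,0),(9,1),(5,3)]⟩ ⟨0,[(1,0)]⟩),.k,.k,[⟨1,[(16,0),(0,0)]⟩,⟨0,
  [(2,0)]⟩,⟨0,[(0,0)]⟩,⟨0,[(14,0),(18,0)]⟩]⟩) (.R ⟨2,true,false,false,[0,1],[0,1,1],[1,0,1],(⟨0,[]⟩,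
  ⟨0,[]⟩),(⟨0,[(19,0),(1,0)]⟩,⟨0,[(7,0)]⟩),⟨0,[]⟩,.k,.k,.k,.k,.k,.k,⟨false,1,⟨3,[(1,1),(13,1),(0,1),
  (17,0),(0,0)]⟩,⟨0,[(0,0),(16,0),(10,0)]⟩⟩,⟨true,0,⟨0,[(2,0)]⟩,⟨0,[(17,0)]⟩⟩,⟨false,1,⟨3,[(4,1),
  (11,0),(0,0),(17,1)]⟩,⟨0,[(33,0)]⟩⟩,⟨true,0,⟨0,[(0,0),(31,0)]⟩,⟨0,[(15,0)]⟩⟩,⟨true,0,⟨0,[]⟩,⟨0,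
  [(37,0)]⟩⟩,⟨false,0,⟨0,[(0,0)]⟩,⟨3,[(4,1),(10,3),(0,0),(0,0),(17,1)]⟩⟩,[]⟩)) (.I [0,0,2,1,-1,0,0,
  -1] (.I [0,1,1,1,-1] (.R ⟨2,true,false,false,[0,1],[1,-1],[1,1,1],(⟨0,[]⟩,⟨0,[]⟩),(⟨0,[(24,0)]⟩,
  ⟨0,[(25,0)]⟩),⟨0,[]⟩,.k,.k,.k,(.r 1 ⟨1,[(1,0),(0,0),(31,0)]⟩ ⟨1,[(5,1),(4,0),(0,0),(23,0)]⟩),.k,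
  .k,⟨false,(-1),⟨0,[(0,0)]⟩,⟨3,[(5,1),(4,0),(0,0),(23,2),(0,1)]⟩⟩,⟨true,(-1),⟨0,[(0,0),(2,0),(10,
  0),(13,1),(4,0)]⟩,⟨9,[(10,0),(0,0),(18,1),(4,4)]⟩⟩,⟨true,0,⟨0,[(33,0)]⟩,⟨0,[(34,0)]⟩⟩,⟨false,1,⟨0,
  [(5,0),(6,0),(0,0),(14,0)]⟩,⟨0,[(0,1),(2,3),(10,3),(13,1),(1,0)]⟩⟩,⟨false,0,⟨0,[]⟩,⟨1,[(10,0),(0,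
  0),(24,0)]⟩⟩,⟨true,0,⟨0,[(3,0),(10,0),(13,0),(4,0)]⟩,⟨4,[(0,1),(28,0),(0,0),(0,0),(2,2)]⟩⟩,[]⟩)
  (.Q [0,1,0,-1,0,0,-1,-1,0,0,-1] (.p false [0,0,1] [] (⟨0,[(20,0)]⟩,⟨0,[(19,0)]⟩) .k 0 (⟨0,[]⟩,⟨0,
  []⟩) .k .k) (.Q [0,0,0,0,0,0,-1,-1,0,0,-1] (.p false [0,0,1] [] (⟨0,[(21,0)]⟩,⟨0,[(20,0)]⟩) .k 0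
  (⟨0,[]⟩,⟨0,[]⟩) .k .k) (.R ⟨2,true,false,false,[0,1],[0,1,1],[0,1,1,1],(⟨0,[]⟩,⟨0,[]⟩),(⟨0,[(22,
  0),(1,0)]⟩,⟨0,[(10,0)]⟩),⟨0,[]⟩,.k,.k,.k,.k,.k,.k,⟨false,0,⟨0,[(0,0),(4,0),(25,0)]⟩,⟨0,[(8,0),(29,
  0)]⟩⟩,⟨true,0,⟨0,[(5,0)]⟩,⟨0,[(20,0)]⟩⟩,⟨true,0,⟨0,[(40,0)]⟩,⟨0,[]⟩⟩,⟨false,1,⟨0,[(17,0),(20,0)]⟩,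
  ⟨0,[(0,0)]⟩⟩,⟨false,0,⟨0,[(36,0)]⟩,⟨3,[(7,1),(11,0),(0,0),(17,1)]⟩⟩,⟨true,0,⟨0,[(2,0),(1,0),(0,0),
  (25,0)]⟩,⟨0,[(1,0)]⟩⟩,[]⟩) (.K ⟨0,[0,1,1],0,0,(⟨0,[(22,0),(1,0)]⟩,⟨0,[(10,0)]⟩),.k,.k,(.r 1 ⟨0,
  [(0,4),(1,0),(0,3),(12,4),(15,0),(2,0)]⟩ ⟨1,[(6,0),(0,1),(10,0),(0,0),(17,1)]⟩),.k,.k,[⟨1,[(19,0),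
  (0,0)]⟩,⟨0,[(5,0)]⟩,⟨0,[(1,0)]⟩,⟨0,[(17,0),(18,0)]⟩]⟩)) (.R ⟨2,true,false,true,[0,1],[0,0,1],[1,0,
  1],(⟨0,[]⟩,⟨0,[]⟩),(⟨0,[(21,0)]⟩,⟨0,[(20,0)]⟩),⟨0,[]⟩,.k,.k,.k,.k,.k,.k,⟨true,0,⟨0,[(5,0)]⟩,⟨0,
  [(7,0)]⟩⟩,⟨false,0,⟨0,[(4,0)]⟩,⟨9,[(8,4),(2,2),(0,2),(18,0),(4,4)]⟩⟩,⟨false,1,⟨3,[(6,1),(11,0),(0,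
  0),(17,1)]⟩,⟨0,[(35,0)]⟩⟩,⟨true,0,⟨0,[(0,0),(33,1)]⟩,⟨11,[(2,9),(12,9),(1,1),(13,1),(3,1),(0,4),
  (0,0)]⟩⟩,⟨true,0,⟨0,[]⟩,⟨0,[(39,0)]⟩⟩,⟨false,0,⟨0,[(0,0),(33,0)]⟩,⟨0,[(17,0),(19,0)]⟩⟩,[]⟩))) (.S
  ⟨1,0,[0,1,1,1,0,0,0,-1],[1,1,-1],[1,0,1,0,0,0,0,-1],(⟨0,[(18,0),(2,0)]⟩,⟨0,[(8,0)]⟩),⟨0,[(18,0)]⟩,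
  .k,.k,⟨false,1,⟨3,[(4,1),(11,0),(0,0),(17,1)]⟩,⟨0,[(33,0)]⟩⟩,⟨true,0,⟨0,[(37,0)]⟩,⟨0,[]⟩⟩,⟨true,0,
  ⟨0,[]⟩,⟨0,[(37,0)]⟩⟩,⟨false,0,⟨0,[(33,0)]⟩,⟨3,[(4,1),(11,0),(0,0),(17,1)]⟩⟩,[.e ⟨false,0,⟨0,[(3,
  0),(24,0)]⟩,⟨1,[(5,1),(28,0),(0,0)]⟩⟩ ⟨false,0,⟨0,[(2,0),(12,0),(17,0)]⟩,⟨0,[(0,0),(26,0)]⟩⟩,.o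
  ⟨false,0,⟨5,[(1,1),(1,6),(9,4),(1,0),(12,5),(0,0),(3,1)]⟩,⟨24,[(0,5),(1,5),(1,7),(9,18),(11,0),(0,
  19),(1,4),(2,2)]⟩⟩,.e ⟨false,0,⟨0,[(3,0)]⟩,⟨1,[(5,1),(28,0),(0,0)]⟩⟩ ⟨false,0,⟨1,[(3,0),(11,0),(0,
  0),(16,1)]⟩,⟨0,[(0,0),(26,0)]⟩⟩,.a ⟨true,0,⟨1,[(6,0),(4,0),(0,0)]⟩,⟨0,[(2,0)]⟩⟩ ⟨true,0,⟨0,[(3,0),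
  (24,0)]⟩,⟨0,[(5,0)]⟩⟩ ⟨false,0,⟨0,[(3,0),(24,0),(4,0)]⟩,⟨2,[(0,0),(3,0),(0,1),(21,2),(7,
  0)]⟩⟩]⟩))))

theorem ok14 : chk K t14 r2 = true := by decide +kernel

noncomputable def t17 : Tre :=
  (.I [0,1,2,1,-1] (.Q [0,-1,0,-1,1,0,1,1,0,0,1] (.p true [0,0,1] [] (⟨0,[(15,0)]⟩,⟨0,[(14,0)]⟩) .k
  0 (⟨0,[]⟩,⟨0,[]⟩) .k .k) (.I [0,0,-2,-2,1,0,0,-1] (.K ⟨0,[0,1,1],0,0,(⟨0,[(17,0),(1,0)]⟩,⟨0,[(5,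
  0)]⟩),.k,.k,(.r 0 ⟨9,[(1,3),(0,5),(1,4),(7,5),(12,7),(1,0),(3,17)]⟩ ⟨0,[(0,0)]⟩),.k,.k,[⟨1,[(14,
  0),(0,0)]⟩,⟨0,[(3,0),(8,0)]⟩,⟨11,[(2,1),(0,9),(0,4),(8,1),(12,3),(0,0),(2,13)]⟩,⟨0,[(12,0),(18,
  0)]⟩]⟩) (.R ⟨2,true,false,true,[0,1],[0,1,1],[1,1],(⟨0,[]⟩,⟨0,[]⟩),(⟨0,[(17,0),(1,0)]⟩,⟨0,[(5,
  0)]⟩),⟨0,[]⟩,.k,.k,.k,.k,.k,.k,⟨false,1,⟨0,[(3,0),(26,0),(1,0)]⟩,⟨59,[(0,39),(0,19),(2,9),(2,10),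
  (0,10),(18,1),(0,9),(3,4)]⟩⟩,⟨true,0,⟨0,[(3,0),(8,0)]⟩,⟨0,[(15,0)]⟩⟩,⟨false,1,⟨1,[(30,1),(1,0),(0,
  0)]⟩,⟨3,[(0,0),(1,0),(0,0),(27,0),(1,1)]⟩⟩,⟨true,0,⟨0,[(12,0)]⟩,⟨11,[(2,1),(0,9),(0,4),(8,1),(12,
  3),(0,0),(2,1)]⟩⟩,⟨true,0,⟨0,[(26,0)]⟩,⟨1,[(14,0),(0,0)]⟩⟩,⟨false,0,⟨0,[(0,0),(0,0),(1,0),(22,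
  1)]⟩,⟨15,[(3,9),(0,4),(8,5),(13,0),(2,15),(2,13)]⟩⟩,[]⟩)) (.R ⟨2,true,false,true,[0,1],[0,0,1],[0,
  1,1,1],(⟨0,[]⟩,⟨0,[]⟩),(⟨0,[(16,0)]⟩,⟨0,[(15,0)]⟩),⟨0,[]⟩,.k,.k,.k,.k,.k,.k,⟨true,(-1),⟨0,[(0,0),
  (1,0),(8,0),(12,0)]⟩,⟨5,[(3,0),(6,3),(0,5),(12,3),(1,0),(2,5),(2,3)]⟩⟩,⟨false,0,⟨0,[(2,0),(8,0)]⟩,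
  ⟨9,[(3,4),(2,2),(0,2),(18,0),(4,4)]⟩⟩,⟨true,0,⟨0,[(34,0)]⟩,⟨0,[]⟩⟩,⟨false,1,⟨0,[(11,0),(17,0),(2,
  0)]⟩,⟨0,[(0,0),(31,0)]⟩⟩,⟨false,0,⟨0,[(30,0)]⟩,⟨0,[(29,0),(2,0)]⟩⟩,⟨true,0,⟨0,[(11,0)]⟩,⟨17,[(0,
  1),(1,9),(0,4),(8,5),(13,0),(2,1)]⟩⟩,[]⟩)) (.K ⟨0,[0,1,1],0,0,(⟨0,[(15,0),(1,0)]⟩,⟨0,[(3,0)]⟩),.k,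
  .k,(.r 0 ⟨0,[(10,0),(2,0),(9,0),(5,1)]⟩ ⟨1,[(0,0),(0,1),(26,2),(1,0)]⟩),.k,.k,[⟨1,[(12,0),(0,0)]⟩,
  ⟨0,[(1,0),(8,0)]⟩,⟨0,[(1,0),(11,0),(10,0),(3,0)]⟩,⟨0,[(10,0),(18,0)]⟩]⟩))

theorem ok17 : chk K t17 r0 = true := by decide +kernel

noncomputable def t5 : Tre :=
  .Q [-1,0,0,1,0,0,0,0,-1,0,0,-1] (.p false [0,0,0,0,1] [] (⟨0,[(14,0)]⟩,⟨0,[(13,0)]⟩) .k 0 (⟨0,[]⟩,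
  ⟨0,[]⟩) .k .k) t3 t4

theorem ok5 : chk K t5 r7 = true :=
  chk_Q (e' := [1,0,0,-1,0,0,0,0,1,0,0,1]) (by decide +kernel) (by decide +kernel) ok3 ok4

noncomputable def t6 : Tre :=
  .Q [1,0,0,0,-1,0,0,0,1,0,0,1] (.p true [0,0,0,0,1] [] (⟨0,[(13,0)]⟩,⟨0,[(12,0)]⟩) .k 0 (⟨0,[]⟩,⟨0,
  []⟩) .k .k) t2 t5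

theorem ok6 : chk K t6 l6 = true :=
  chk_Q (e' := [-1,0,0,0,1,0,0,0,-1,0,0,-1]) (by decide +kernel) (by decide +kernel) ok2 ok5

noncomputable def t8 : Tre :=
  .I [1,1,-1,-1,0,0,0,1] t6 t7

theorem ok8 : chk K t8 l5 = true :=
  chk_I (e' := [0,-1,1,1,0,0,0,-1]) (by decide +kernel) (by decide +kernel) ok6 ok7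

noncomputable def t10 : Tre :=
  .Q [0,1,0,-1,0,0,1,1,0,0,1] (.p true [0,0,1] [] (⟨0,[(18,0)]⟩,⟨0,[(17,0)]⟩) .k 0 (⟨0,[]⟩,⟨0,[]⟩)
  .k .k) t8 t9

theorem ok10 : chk K t10 l4 = true :=
  chk_Q (e' := [0,-1,0,1,0,0,-1,-1,0,0,-1]) (by decide +kernel) (by decide +kernel) ok8 ok9

noncomputable def t12 : Tre :=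
  .Q [0,0,0,0,0,0,-1,0,0,0,-1] (.p false [0,0,1] [] (⟨0,[(17,0)]⟩,⟨0,[(16,0)]⟩) .k 0 (⟨0,[]⟩,⟨0,
  []⟩) .k .k) t10 t11

theorem ok12 : chk K t12 r3 = true :=
  chk_Q (e' := [0,0,0,0,0,0,1,0,0,0,1]) (by decide +kernel) (by decide +kernel) ok10 ok11

noncomputable def t13 : Tre :=
  .I [0,-1,0,0,0,0,0,1] t1 t12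

theorem ok13 : chk K t13 l2 = true :=
  chk_I (e' := [1,1,0,0,0,0,0,-1]) (by decide +kernel) (by decide +kernel) ok1 ok12

noncomputable def t15 : Tre :=
  .I [0,1,-1,0,0,0,0,1] t13 t14

theorem ok15 : chk K t15 r1 = true :=
  chk_I (e' := [1,-1,1,0,0,0,0,-1]) (by decide +kernel) (by decide +kernel) ok13 ok14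

noncomputable def t16 : Tre :=
  .I [0,0,1,2,-1] t0 t15

theorem ok16 : chk K t16 l0 = true :=
  chk_I (e' := [1,0,-1,-2,1]) (by decide +kernel) (by decide +kernel) ok0 ok15

noncomputable def t18 : Tre :=
  .I [0,1,0,0,0,0,0,1] t16 t17

theorem ok18 : chk K t18 base = true :=
  chk_I (e' := [1,-1,0,0,0,0,0,-1]) (by decide +kernel) (by decide +kernel) ok16 ok17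

theorem closed {p a b c J l q : ℤ} {D dl : ℝ} {Cl : ℤ → ℤ → ℤ → ℤ → ℝ → Prop}
    (W : World p a b c J 1 l q D dl Cl) (g : G0 p a b c J D)
    {N X R : ℤ} {I : ℝ} (hk : KCl p l Cl N X R I) (kz : KF a b D (X + (1 : ℤ) * I) (X + (1 : ℤ) * I + R) I)
    {Ne Xe : ℤ} {Ie : ℝ} (he : EFac p 1 D Cl 1 Ne Xe Ie)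
    (hkf : ∀ kf ∈ (kfY 1 [0,0,0,0,0,0,1,0,0,0,1]), KOk p l Cl 1
      (xv [1, a, b, c, p, J, X, R, Xe] [D, I, Ie]) N kf)
    (h0 : 1 ≤ (c : ℝ))
    (h1 : 1 ≤ 1 - (a : ℝ) + (b : ℝ))
    (h2 : 1 ≤ 2 * (a : ℝ) - (b : ℝ))
    (h3 : 0 < 1 + 2 * (p : ℝ) - 5 * D)
    (h4 : 1 ≤ 1 + (a : ℝ) - (b : ℝ))
    (h5 : 1 ≤ 1 - (a : ℝ) + (b : ℝ))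
    (h6 : 1 ≤ -1 - 2 * (a : ℝ) + (p : ℝ))
    (h7 : 1 ≤ 2 * (a : ℝ) - (b : ℝ))
    (h8 : 1 ≤ -1 + (J : ℝ))
    (h9 : 1 ≤ 3 - (J : ℝ))
    (h10 : 0 < -(b : ℝ) - (X : ℝ) + D - I)
    (h11 : 0 < -(J : ℝ) + I)
    (h12 : 0 < -(J : ℝ) + D - I)
    (h13 : 0 < -2 * (X : ℝ) + D - 2 * I) : False := by
  have g1 := g.a2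
  have g2 := g.b2
  have g3 := g.pa
  have g4 := g.pb
  have g5 := g.J1
  have g6 := g.JD
  have g7 := g.D2
  have g8 := g.ca
  have g9 := g.ca'
  have k1 := kz.I0
  have k2 := kz.ID
  have k3 := kz.z1
  have k4 := kz.z2
  have k5 := kz.s1
  have k6 := kz.s2
  have e1 := he.I0
  have e2 := he.ID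
  have e3 := he.x0
  have e4 := he.xp
  push_cast at *
  refine (val_E W.toBase hk he (row := [1]) (by simp) (by simp) (kfY 1 [0,0,0,0,0,0,1,0,0,0,1])).sound W rfl (Nk := N)
    (fun kf _ _ => ⟨_, rfl⟩) hkf ?_ ok18
  · simp only [base, List.forall_mem_cons, List.not_mem_nil, false_imp_iff, implies_true,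
      and_true, hld, xv, evg_cons, evg_nil, List.map_cons, List.map_nil, List.cons_append,
      List.nil_append, if_true, if_false, Bool.false_eq_true]
    push_cast
    refine ⟨?_, ?_, ?_, ?_, ?_, ?_, ?_, ?_, ?_, ?_, ?_, ?_, ?_, ?_, ?_, ?_, ?_, ?_, ?_, ?_, ?_, ?_, ?_, ?_, ?_, ?_, ?_, ?_, ?_, ?_, ?_, ?_⟩ <;> linarith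

end Helper48.Y.Y11_c35_P2_m1n1_CB

namespace Helper48.Y.Y11_c35_P3_m0n1

open Helper25.KG Helper25.KW Helper55.KE Helper11.CT

noncomputable def K : Cls :=
  cE 1 [1] (kfY 1 [0,0,0,0,0,0,1,0,0,0,1])

noncomputable def base : List Con :=
  [(false,[0,0,0,0,0,0,-2,0,0,1,-2]),
  (false,[0,0,0,0,0,-1,0,0,0,1,-1]),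
  (false,[0,0,0,0,0,1,0,0,0,0,-1]),
  (false,[0,0,0,0,1,0,0,0,-1,0,0,-1]),
  (false,[0,0,0,0,0,0,0,0,1,0,0,1]),
  (false,[0,0,0,0,0,0,0,0,0,1,0,-1]),
  (false,[0,0,0,0,0,0,0,0,0,0,0,1]),
  (false,[0,0,-1,0,0,0,-1,0,0,1,-1]),
  (false,[0,1,0,0,0,0,1,1,0,0,1]),
  (false,[0,1,0,0,0,0,-1,-1,0,0,-1]),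
  (false,[0,0,1,0,0,0,1,0,0,0,1]),
  (false,[0,0,1,0,0,0,-1,0,0,0,-1]),
  (false,[0,0,0,0,0,0,0,0,0,1,-1]),
  (false,[0,0,0,0,0,0,0,0,0,0,1]),
  (true,[-2,0,0,0,0,1]),
  (false,[0,0,0,0,1,0,0,0,0,-2]),
  (false,[0,0,0,0,0,-1,0,0,0,1]),
  (true,[0,0,0,0,0,1]),
  (true,[0,2,-1]),
  (false,[1,0,0,0,0,3,0,0,0,-1]),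
  (false,[3,0,0,0,-1,0,0,0,0,2]),
  (false,[-1,0,0,0,1,0,0,0,0,-2]),
  (true,[0,2,-1]),
  (true,[1,-1,1]),
  (true,[0,1,0,-1]),
  (true,[0,0,0,1]),
  (true,[0,0,-2,0,1]),
  (true,[0,-2,0,0,1]),
  (true,[-1,0,1]),
  (true,[-1,1])]

noncomputable def t0 : Tre :=
  (.Q [0,0,0,-2,0,0,0,0,0,1] (.pp false [-1,1]) (.I [1,-1,0,0,0,0,0,-1] (.I [1,1,-1,-1,0,0,0,-1]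
  (.I [0,0,-2,-2,1,0,0,-1] (.K ⟨0,[0,1,1],0,0,(⟨22,[(7,2),(0,2),(8,22),(0,4),(4,5),(0,2)]⟩,⟨0,[(5,
  0)]⟩),.k,.k,(.r 0 ⟨0,[(12,0),(2,0),(11,0),(1,1)]⟩ ⟨0,[(0,0)]⟩),.k,.k,[⟨1,[(14,0),(0,0)]⟩,⟨0,[(2,
  0),(9,0)]⟩,⟨0,[(1,0),(13,0)]⟩,⟨0,[(12,0),(16,0)]⟩]⟩) (.K ⟨0,[0,1,1],0,0,(⟨22,[(7,2),(0,2),(8,22),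
  (0,4),(4,5),(0,2)]⟩,⟨0,[(5,0)]⟩),.k,.k,(.x (-2) ⟨0,[(2,0),(2,0),(6,0),(6,0),(0,0),(9,0)]⟩ ⟨11,[(0,
  19),(0,9),(0,9),(0,14),(0,2),(6,5),(5,11),(5,7),(1,7)]⟩),.k,.k,[⟨1,[(14,0),(0,0)]⟩,⟨0,[(2,0),(9,
  0)]⟩,⟨0,[(1,0),(13,0)]⟩,⟨0,[(12,0),(16,0)]⟩]⟩)) (.Q [0,0,0,1,0,0,1,1,0,0,1] (.p true [0,0,1] []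
  (⟨0,[(16,0)]⟩,⟨0,[(15,0)]⟩) .k 0 (⟨0,[]⟩,⟨0,[]⟩) .k .k) (.S ⟨1,0,[0,1,1,1,0,0,0,1],[0,1,1],[1,0,1,
  0,0,0,0,1],(⟨22,[(7,2),(0,2),(8,22),(0,4),(4,5),(0,2)]⟩,⟨0,[(5,0)]⟩),⟨0,[(17,0)]⟩,.k,.k,⟨false,1,
  ⟨3,[(3,1),(3,0),(0,0),(10,0),(11,1)]⟩,⟨0,[(29,0)]⟩⟩,⟨true,0,⟨0,[(33,0)]⟩,⟨0,[]⟩⟩,⟨true,0,⟨0,[]⟩,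
  ⟨0,[(33,0)]⟩⟩,⟨false,0,⟨0,[(29,0)]⟩,⟨3,[(3,1),(3,0),(0,0),(10,0),(11,1)]⟩⟩,[.a ⟨true,0,⟨0,[(0,0),
  (32,0)]⟩,⟨1,[(2,1),(0,0),(0,0)]⟩⟩ ⟨true,0,⟨0,[(1,0),(26,0)]⟩,⟨3,[(2,2),(10,0),(0,0),(11,0)]⟩⟩
  ⟨false,0,⟨0,[(1,0),(24,0)]⟩,⟨11,[(2,9),(0,5),(9,1),(0,1),(4,2),(10,6),(0,1)]⟩⟩,.a ⟨true,0,⟨0,[(0,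
  0)]⟩,⟨25,[(2,9),(0,12),(0,4),(8,15),(4,1),(1,1),(3,2),(6,2)]⟩⟩ ⟨false,1,⟨3,[(1,1),(1,0),(0,0),(7,
  1),(6,0),(10,0),(0,1)]⟩,⟨0,[(2,0),(23,0)]⟩⟩ ⟨true,0,⟨0,[(1,0),(31,0)]⟩,⟨0,[(2,0),(25,0)]⟩⟩,.o
  ⟨false,1,⟨1,[(2,1),(9,1),(6,0),(10,0)]⟩,⟨0,[(15,0)]⟩⟩,.a ⟨true,0,⟨0,[(2,0),(9,0)]⟩,⟨5,[(4,2),(2,
  0),(0,0),(9,0),(1,0),(3,0)]⟩⟩ ⟨false,1,⟨3,[(1,1),(1,0),(0,0),(7,1),(6,0),(10,0),(0,1)]⟩,⟨3,[(2,2),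
  (10,0),(0,0),(11,0)]⟩⟩ ⟨true,0,⟨0,[(1,0),(24,0)]⟩,⟨0,[(2,0),(25,0)]⟩⟩]⟩) (.S ⟨1,0,[0,0,1,1,0,0,0,
  1],[0,1,1],[1,0,1],(⟨22,[(7,2),(0,2),(8,22),(0,4),(4,5),(0,2)]⟩,⟨0,[(5,0)]⟩),⟨0,[(17,0)]⟩,.k,.k,
  ⟨true,0,⟨0,[(2,0),(25,0)]⟩,⟨0,[(1,0),(24,0)]⟩⟩,⟨false,1,⟨1,[(7,0),(0,0),(22,0)]⟩,⟨0,[]⟩⟩,⟨false,0,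
  ⟨0,[(2,0)]⟩,⟨3,[(4,1),(2,0),(0,0),(3,3),(6,0),(11,1)]⟩⟩,⟨true,0,⟨0,[(29,0)]⟩,⟨0,[(28,0)]⟩⟩,[.o
  ⟨false,1,⟨1,[(12,1),(6,0),(9,1),(1,0)]⟩,⟨0,[(0,0)]⟩⟩,.o ⟨false,1,⟨1,[(1,1),(0,1),(9,1),(6,0),(10,
  0)]⟩,⟨1,[(0,0),(12,0),(14,0)]⟩⟩,.o ⟨false,1,⟨1,[(2,1),(9,1),(6,0),(10,0)]⟩,⟨0,[(15,0)]⟩⟩,.a ⟨true,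
  0,⟨0,[(2,0),(9,0)]⟩,⟨5,[(4,2),(2,0),(0,0),(9,0),(1,0),(3,0)]⟩⟩ ⟨true,0,⟨0,[]⟩,⟨0,[(33,0)]⟩⟩
  ⟨false,1,⟨1,[(1,1),(5,0),(0,0),(21,0)]⟩,⟨0,[(2,0),(25,0)]⟩⟩]⟩))) (.I [1,-1,-1,0,1,0,0,1] (.Q [0,0,
  0,0,0,0,-1,-1,0,0,-1] (.p false [0,0,1] [] (⟨0,[(16,0)]⟩,⟨0,[(15,0)]⟩) .k 0 (⟨0,[]⟩,⟨0,[]⟩) .k
  .k) (.Q [0,1,0,-1,0,0,1,1,0,0,1] (.p true [0,0,1] [] (⟨0,[(17,0)]⟩,⟨0,[(16,0)]⟩) .k 0 (⟨0,[]⟩,⟨0,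
  []⟩) .k .k) (.Q [0,0,1,-1,0,0,1,0,0,0,1] (.p true [0,0,1] [] (⟨0,[(18,0)]⟩,⟨0,[(17,0)]⟩) .k 0 (⟨0,
  []⟩,⟨0,[]⟩) .k .k) (.I [1,-1,0,0,0,0,0,-2] (.I [1,-1,-1,-1,1,0,0,1] (.Q [0,0,0,0,0,0,1,0,0,0,1]
  (.p true [0,0,1] [] (⟨0,[(21,0)]⟩,⟨0,[(20,0)]⟩) .k 0 (⟨0,[]⟩,⟨0,[]⟩) .k .k) (.R ⟨0,false,false,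
  true,[0,1,-1],[0,1],[1,0,1],(⟨0,[(11,0)]⟩,⟨0,[(22,0),(2,0)]⟩),(⟨0,[(26,0)]⟩,⟨0,[(25,0)]⟩),⟨0,[(22,
  0)]⟩,.k,.k,.k,.k,.k,.k,⟨false,1,⟨7,[(1,3),(0,1),(5,1),(15,0),(10,1),(0,0)]⟩,⟨0,[(34,0),(3,0)]⟩⟩,
  ⟨true,0,⟨0,[(0,0)]⟩,⟨0,[(20,0)]⟩⟩,⟨false,1,⟨1,[(1,0),(1,0),(2,0),(13,0)]⟩,⟨6,[(2,2),(15,0),(0,0),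
  (11,0),(2,6)]⟩⟩,⟨true,0,⟨0,[(17,0)]⟩,⟨0,[(5,0)]⟩⟩,⟨false,0,⟨0,[]⟩,⟨0,[]⟩⟩,⟨false,0,⟨0,[]⟩,⟨0,[]⟩⟩,
  [.e ⟨false,0,⟨0,[]⟩,⟨1,[(12,0),(0,0),(21,0)]⟩⟩ ⟨false,0,⟨1,[(0,0),(18,0),(11,0),(2,1)]⟩,⟨0,[(1,0),
  (3,0)]⟩⟩,.a ⟨true,0,⟨0,[(34,0)]⟩,⟨5,[(8,2),(3,0),(0,0),(9,0),(1,0),(3,0)]⟩⟩ ⟨true,0,⟨0,[(32,0)]⟩,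
  ⟨0,[(38,0)]⟩⟩ ⟨false,0,⟨0,[(0,0),(33,0)]⟩,⟨0,[(1,0),(16,0)]⟩⟩,.o ⟨false,1,⟨0,[(16,0),(7,0)]⟩,⟨0,
  [(19,0)]⟩⟩,.o ⟨false,1,⟨3,[(9,1),(2,0),(0,0),(10,2)]⟩,⟨0,[(0,0)]⟩⟩]⟩) (.R ⟨0,false,false,false,[0,
  0,1],[0,1],[1,1,1],(⟨0,[(22,0)]⟩,⟨0,[(21,0)]⟩),(⟨0,[(26,0)]⟩,⟨0,[(25,0)]⟩),⟨0,[(11,0)]⟩,.k,.k,.k,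
  .k,.k,.k,⟨true,0,⟨0,[(33,0)]⟩,⟨0,[(32,0),(1,0)]⟩⟩,⟨false,1,⟨1,[(16,1),(7,0),(10,0)]⟩,⟨0,[(19,
  0)]⟩⟩,⟨false,0,⟨2,[(2,0),(15,0),(0,1),(0,0)]⟩,⟨0,[(1,0),(32,0)]⟩⟩,⟨true,0,⟨0,[(5,0),(28,0)]⟩,⟨0,
  [(4,0)]⟩⟩,⟨false,0,⟨0,[]⟩,⟨0,[]⟩⟩,⟨false,0,⟨0,[]⟩,⟨0,[]⟩⟩,[.a ⟨true,0,⟨0,[(34,0)]⟩,⟨5,[(8,2),(3,
  0),(0,0),(9,0),(1,0),(3,0)]⟩⟩ ⟨false,0,⟨0,[(38,0)]⟩,⟨1,[(35,0),(0,0)]⟩⟩ ⟨true,0,⟨0,[(0,0),(33,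
  0)]⟩,⟨0,[(3,0)]⟩⟩,.o ⟨false,1,⟨1,[(24,0),(9,1),(1,0)]⟩,⟨0,[(33,0)]⟩⟩,.o ⟨false,1,⟨1,[(19,1),(4,0),
  (10,0)]⟩,⟨0,[(0,0)]⟩⟩,.e ⟨false,0,⟨0,[]⟩,⟨1,[(12,0),(0,0),(22,0)]⟩⟩ ⟨false,1,⟨1,[(16,1),(7,0),(9,
  1),(1,0)]⟩,⟨0,[(3,0)]⟩⟩]⟩)) (.K ⟨0,[1,-1,1],(-1),0,(⟨0,[(21,0),(2,0)]⟩,⟨0,[(10,0)]⟩),.k,(.r (-2)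
  ⟨3,[(5,3),(1,3),(3,0),(0,0),(10,1),(6,1),(3,0)]⟩ ⟨0,[(0,0),(30,0),(1,0)]⟩),.k,.k,.k,[⟨1,[(23,0),
  (10,0)]⟩,⟨1,[(0,1),(2,1),(24,0),(2,1),(3,0)]⟩,⟨0,[(0,0),(14,0),(7,0)]⟩,⟨5,[(7,2),(3,0),(0,0),(3,
  5),(5,0),(1,0),(3,0)]⟩]⟩)) (.I [1,0,0,0,0,0,0,1] (.R ⟨0,false,false,false,[0,0,1],[0,1],[1,1,1],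
  (⟨0,[(21,0)]⟩,⟨0,[(20,0)]⟩),(⟨0,[(25,0)]⟩,⟨0,[(24,0)]⟩),⟨0,[(10,0)]⟩,.k,.k,.k,.k,.k,.k,⟨true,0,⟨0,
  [(32,0)]⟩,⟨0,[(31,0),(1,0)]⟩⟩,⟨false,1,⟨1,[(15,1),(7,0),(10,0)]⟩,⟨0,[(18,0)]⟩⟩,⟨false,0,⟨0,[(4,0),
  (13,0)]⟩,⟨1,[(0,1),(33,0),(0,0)]⟩⟩,⟨true,0,⟨0,[(4,0),(28,0)]⟩,⟨0,[(3,0)]⟩⟩,⟨false,0,⟨0,[]⟩,⟨0,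
  []⟩⟩,⟨false,0,⟨0,[]⟩,⟨0,[]⟩⟩,[.a ⟨true,0,⟨0,[(33,0)]⟩,⟨5,[(7,2),(3,0),(0,0),(9,0),(1,0),(3,0)]⟩⟩
  ⟨false,0,⟨0,[(37,0)]⟩,⟨1,[(34,0),(0,0)]⟩⟩ ⟨true,0,⟨0,[(0,0),(3,0),(28,0)]⟩,⟨0,[(2,0)]⟩⟩,.o ⟨false,
  1,⟨1,[(23,0),(9,1),(1,0)]⟩,⟨0,[(32,0)]⟩⟩,.o ⟨false,1,⟨1,[(18,1),(4,0),(10,0)]⟩,⟨0,[(0,0),(3,0)]⟩⟩,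
  .e ⟨false,0,⟨0,[]⟩,⟨1,[(11,0),(0,0),(22,0)]⟩⟩ ⟨false,1,⟨1,[(15,1),(7,0),(9,1),(1,0)]⟩,⟨0,[(2,
  0)]⟩⟩]⟩) (.Q [0,0,0,1,0,0,1,0,0,0,1] (.p true [0,0,1] [] (⟨0,[(21,0)]⟩,⟨0,[(20,0)]⟩) .k 0 (⟨0,[]⟩,
  ⟨0,[]⟩) .k .k) (.Q [0,0,0,0,0,0,1,0,0,0,1] (.p true [0,0,1] [] (⟨0,[(22,0)]⟩,⟨0,[(21,0)]⟩) .k 0
  (⟨0,[]⟩,⟨0,[]⟩) .k .k) (.Q [0,-1,0,0,1,0,1,1,0,-1,1] (.p true [0,0,1] [1] (⟨0,[(23,0)]⟩,⟨0,[(22,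
  0)]⟩) .k 1 (⟨0,[]⟩,⟨0,[]⟩) .k .k) (.S ⟨1,0,[0,1,0,0,0,0,0,-1],[1,0,-1],[0,0,0,0,0,0,0,-1],(⟨0,
  [(23,0)]⟩,⟨0,[(24,0)]⟩),⟨0,[(12,0)]⟩,.k,.k,⟨false,1,⟨1,[(14,0),(0,0),(22,0)]⟩,⟨0,[]⟩⟩,⟨true,0,⟨0,
  [(40,0)]⟩,⟨0,[]⟩⟩,⟨true,0,⟨0,[(36,0)]⟩,⟨0,[(35,0)]⟩⟩,⟨false,0,⟨0,[(36,0)]⟩,⟨3,[(10,1),(3,0),(0,0),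
  (10,0),(11,1)]⟩⟩,[.o ⟨false,0,⟨0,[(20,0)]⟩,⟨0,[(0,0)]⟩⟩,.o ⟨false,0,⟨0,[(7,0)]⟩,⟨3,[(0,1),(13,0),
  (0,0),(3,1),(6,0)]⟩⟩,.a ⟨true,0,⟨5,[(11,2),(2,0),(0,0),(9,0),(1,0),(3,0)]⟩,⟨0,[(1,0)]⟩⟩ ⟨true,0,
  ⟨0,[(3,0)]⟩,⟨1,[(4,0),(35,0)]⟩⟩ ⟨false,0,⟨0,[(3,0)]⟩,⟨3,[(4,1),(9,0),(0,0),(22,2)]⟩⟩,.o ⟨false,0,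
  ⟨0,[(22,0)]⟩,⟨1,[(1,1),(24,0),(10,0)]⟩⟩]⟩) (.Q [0,-1,0,1,1,0,1,1,0,-1,1] (.p true [0,0,1] [1] (⟨0,
  [(24,0)]⟩,⟨0,[(23,0)]⟩) .k 1 (⟨0,[]⟩,⟨0,[]⟩) .k .k) (.K ⟨0,[0,1,1],0,0,(⟨22,[(15,2),(0,2),(8,22),
  (0,4),(4,5),(0,2)]⟩,⟨0,[(13,0)]⟩),.k,.k,(.x (-2) ⟨0,[(2,0),(10,0),(13,0),(0,0),(9,0)]⟩ ⟨2,[(1,3),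
  (0,0),(2,1),(19,2),(1,0),(3,1),(3,5)]⟩),.k,.k,[⟨1,[(22,0),(0,0)]⟩,⟨0,[(2,0)]⟩,⟨1,[(1,0),(9,0),(9,
  0),(5,0)]⟩,⟨0,[(20,0),(16,0)]⟩]⟩) (.K ⟨0,[0,1,1],0,0,(⟨22,[(15,2),(0,2),(8,22),(0,4),(4,5),(0,
  2)]⟩,⟨0,[(13,0)]⟩),.k,.k,(.r 0 ⟨3,[(5,1),(16,2),(0,2),(11,1),(1,7)]⟩ ⟨1,[(0,3),(1,3),(6,1),(17,1),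
  (10,0),(0,0)]⟩),.k,.k,[⟨1,[(22,0),(0,0)]⟩,⟨0,[(2,0)]⟩,⟨2,[(0,0),(10,0),(9,1),(5,0)]⟩,⟨0,[(20,0),
  (16,0)]⟩]⟩))) (.R ⟨0,false,false,false,[0,1,-1],[0,1],[1,1,1],(⟨0,[(12,0)]⟩,⟨0,[(23,0),(2,0)]⟩),
  (⟨0,[(27,0)]⟩,⟨0,[(26,0)]⟩),⟨0,[(23,0)]⟩,.k,.k,.k,.k,.k,.k,⟨true,0,⟨0,[(34,0)]⟩,⟨0,[(33,0),(1,
  0)]⟩⟩,⟨false,1,⟨0,[(20,0),(15,0)]⟩,⟨0,[(0,0)]⟩⟩,⟨true,0,⟨0,[(0,0),(4,0)]⟩,⟨0,[(2,0),(32,0)]⟩⟩,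
  ⟨false,1,⟨0,[(7,0),(12,0)]⟩,⟨0,[(6,0)]⟩⟩,⟨false,0,⟨0,[]⟩,⟨0,[]⟩⟩,⟨false,0,⟨0,[]⟩,⟨0,[]⟩⟩,[.e
  ⟨false,0,⟨0,[(39,0)]⟩,⟨1,[(36,0),(0,0)]⟩⟩ ⟨false,0,⟨0,[(1,0)]⟩,⟨1,[(9,0),(0,0),(14,0),(10,0)]⟩⟩,
  .o ⟨false,1,⟨1,[(25,0),(9,1),(1,0)]⟩,⟨0,[(34,0)]⟩⟩,.o ⟨false,1,⟨0,[(17,0),(7,0)]⟩,⟨0,[(20,0)]⟩⟩,
  .a ⟨true,0,⟨0,[(0,0)]⟩,⟨9,[(1,3),(7,1),(10,5),(3,1),(1,1),(3,2),(5,2)]⟩⟩ ⟨false,0,⟨0,[]⟩,⟨1,[(13,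
  0),(0,0),(22,0)]⟩⟩ ⟨true,0,⟨0,[(1,0)]⟩,⟨0,[(0,0),(33,0)]⟩⟩]⟩)) (.R ⟨0,false,false,false,[0,1,-1],
  [0,1],[1,1,1],(⟨0,[(11,0)]⟩,⟨0,[(22,0),(2,0)]⟩),(⟨0,[(26,0)]⟩,⟨0,[(25,0)]⟩),⟨0,[(22,0)]⟩,.k,.k,.k,
  .k,.k,.k,⟨true,0,⟨0,[(33,0)]⟩,⟨0,[(32,0),(1,0)]⟩⟩,⟨false,1,⟨0,[(19,0),(15,0)]⟩,⟨0,[(0,0),(33,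
  0)]⟩⟩,⟨true,0,⟨2,[(0,0),(1,0),(1,0),(28,0)]⟩,⟨0,[(1,0),(32,0)]⟩⟩,⟨false,1,⟨0,[(6,0),(12,0)]⟩,⟨0,
  [(5,0)]⟩⟩,⟨false,0,⟨0,[]⟩,⟨0,[]⟩⟩,⟨false,0,⟨0,[]⟩,⟨0,[]⟩⟩,[.a ⟨true,0,⟨0,[(34,0)]⟩,⟨5,[(8,2),(3,
  0),(0,0),(9,0),(1,0),(3,0)]⟩⟩ ⟨false,0,⟨0,[(38,0)]⟩,⟨1,[(35,0),(0,0)]⟩⟩ ⟨true,0,⟨0,[(19,0),(14,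
  0)]⟩,⟨0,[(0,0)]⟩⟩,.o ⟨false,1,⟨1,[(24,0),(9,1),(1,0)]⟩,⟨0,[(33,0)]⟩⟩,.o ⟨false,1,⟨0,[(16,0),(7,
  0)]⟩,⟨0,[(19,0)]⟩⟩,.e ⟨false,0,⟨0,[]⟩,⟨1,[(12,0),(0,0),(22,0)]⟩⟩ ⟨false,1,⟨1,[(19,1),(14,1),(0,0),
  (0,0)]⟩,⟨0,[(0,0)]⟩⟩]⟩)))) (.R ⟨0,false,false,false,[0,0,1],[0,1],[1,1,1],(⟨0,[(19,0)]⟩,⟨0,[(18,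
  0)]⟩),(⟨0,[(23,0)]⟩,⟨0,[(22,0)]⟩),⟨0,[(8,0)]⟩,.k,.k,.k,.k,.k,.k,⟨true,0,⟨0,[(30,0)]⟩,⟨0,[(29,0),
  (1,0)]⟩⟩,⟨false,1,⟨1,[(13,1),(7,0),(10,0)]⟩,⟨0,[(16,0)]⟩⟩,⟨false,0,⟨0,[(2,0),(13,0)]⟩,⟨0,[(0,0),
  (0,0),(31,0)]⟩⟩,⟨true,0,⟨0,[(2,0),(28,0)]⟩,⟨0,[(1,0)]⟩⟩,⟨false,0,⟨0,[]⟩,⟨0,[]⟩⟩,⟨false,0,⟨0,[]⟩,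
  ⟨0,[]⟩⟩,[.e ⟨false,0,⟨0,[(35,0)]⟩,⟨1,[(32,0),(0,0)]⟩⟩ ⟨false,0,⟨0,[(0,0)]⟩,⟨3,[(5,1),(3,0),(0,0),
  (5,3),(4,0),(10,1)]⟩⟩,.o ⟨false,1,⟨1,[(21,0),(9,1),(1,0)]⟩,⟨0,[(30,0)]⟩⟩,.o ⟨false,1,⟨1,[(16,1),
  (4,0),(10,0)]⟩,⟨0,[(0,0),(28,0),(0,0)]⟩⟩,.a ⟨true,0,⟨0,[(16,0)]⟩,⟨0,[(13,0)]⟩⟩ ⟨false,0,⟨0,[]⟩,⟨1,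
  [(9,0),(0,0),(22,0)]⟩⟩ ⟨true,0,⟨0,[(0,0)]⟩,⟨0,[(16,0),(13,0)]⟩⟩]⟩)) (.I [0,0,0,1,0,0,0,-1] (.Q [0,
  0,0,0,0,0,-1,0,0,0,-1] (.p false [0,0,1] [] (⟨0,[(19,0)]⟩,⟨0,[(18,0)]⟩) .k 0 (⟨0,[]⟩,⟨0,[]⟩) .k
  .k) (.R ⟨2,true,false,true,[0,1],[0,0,1],[0,1,1,1],(⟨0,[]⟩,⟨0,[]⟩),(⟨0,[(20,0)]⟩,⟨0,[(19,0)]⟩),⟨0,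
  []⟩,.k,.k,.k,.k,.k,.k,⟨false,0,⟨0,[(1,0)]⟩,⟨0,[(4,0),(26,0)]⟩⟩,⟨true,0,⟨0,[(17,0)]⟩,⟨0,[(0,0)]⟩⟩,
  ⟨true,0,⟨0,[(36,0)]⟩,⟨0,[]⟩⟩,⟨false,1,⟨3,[(4,1),(1,1),(3,0),(0,0),(3,1),(1,1),(4,0)]⟩,⟨0,[(2,
  0)]⟩⟩,⟨false,0,⟨0,[(32,0)]⟩,⟨3,[(6,1),(3,0),(0,0),(10,0),(11,1)]⟩⟩,⟨true,0,⟨0,[(15,0)]⟩,⟨0,[(3,
  0)]⟩⟩,[]⟩) (.I [1,-1,-1,-1,1,0,0,1] (.R ⟨0,false,false,true,[0,1,-1],[0,1],[1,0,1],(⟨0,[(10,0)]⟩,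
  ⟨0,[(21,0),(2,0)]⟩),(⟨0,[(25,0)]⟩,⟨0,[(24,0)]⟩),⟨0,[(21,0)]⟩,.k,.k,.k,.k,.k,.k,⟨false,1,⟨3,[(0,1),
  (0,1),(1,1),(3,1),(15,0),(10,0)]⟩,⟨0,[(33,0),(3,0)]⟩⟩,⟨true,0,⟨0,[(1,0)]⟩,⟨0,[(19,0)]⟩⟩,⟨false,1,
  ⟨1,[(0,1),(17,0),(0,0)]⟩,⟨0,[(2,0)]⟩⟩,⟨true,0,⟨0,[(16,0)]⟩,⟨0,[(4,0)]⟩⟩,⟨false,0,⟨0,[]⟩,⟨0,[]⟩⟩,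
  ⟨false,0,⟨0,[]⟩,⟨0,[]⟩⟩,[.e ⟨false,0,⟨0,[]⟩,⟨1,[(11,0),(0,0),(21,0)]⟩⟩ ⟨false,0,⟨0,[(2,0),(13,
  0)]⟩,⟨0,[(0,0),(3,0)]⟩⟩,.a ⟨true,0,⟨0,[(33,0)]⟩,⟨5,[(7,2),(3,0),(0,0),(9,0),(1,0),(3,0)]⟩⟩ ⟨true,
  0,⟨0,[(31,0)]⟩,⟨0,[(37,0)]⟩⟩ ⟨false,0,⟨0,[(1,0),(31,0)]⟩,⟨0,[(0,0),(16,0)]⟩⟩,.o ⟨false,1,⟨0,[(15,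
  0),(7,0)]⟩,⟨0,[(18,0)]⟩⟩,.o ⟨false,1,⟨3,[(8,1),(2,0),(0,0),(10,2)]⟩,⟨0,[(1,0)]⟩⟩]⟩) (.K ⟨0,[1,-1,
  1],(-1),0,(⟨0,[(21,0),(2,0)]⟩,⟨0,[(10,0)]⟩),.k,(.r (-2) ⟨3,[(5,3),(1,3),(3,0),(0,0),(10,1),(6,1),
  (3,0)]⟩ ⟨0,[(0,0),(30,0),(1,0)]⟩),.k,.k,.k,[⟨1,[(23,0),(10,0)]⟩,⟨2,[(0,1),(0,1),(4,0),(0,0),(8,0),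
  (11,0),(2,3)]⟩,⟨0,[(0,0),(14,0),(7,0)]⟩,⟨5,[(7,2),(3,0),(0,0),(3,5),(5,0),(1,0),(3,0)]⟩]⟩))) (.Q
  [0,0,0,-1,0,0,1,1,0,1,1] (.p true [1,-1,1] [] (⟨0,[(19,0),(2,0)]⟩,⟨0,[(8,0)]⟩) .k 0 (⟨0,[]⟩,⟨0,
  []⟩) .k .k) (.R ⟨2,false,false,false,[0,1],[0,1,-1],[0,1],(⟨0,[]⟩,⟨0,[]⟩),(⟨0,[(9,0)]⟩,⟨0,[(20,0),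
  (2,0)]⟩),⟨0,[]⟩,.k,.k,.k,.k,.k,.k,⟨false,1,⟨7,[(1,3),(2,3),(1,1),(15,0),(6,5),(3,2)]⟩,⟨0,[(2,0),
  (14,0)]⟩⟩,⟨true,0,⟨2,[(1,1),(0,1),(2,0),(10,0)]⟩,⟨0,[(17,0)]⟩⟩,⟨false,1,⟨3,[(6,1),(3,0),(0,0),(10,
  0),(10,1)]⟩,⟨0,[(30,0),(1,0)]⟩⟩,⟨true,0,⟨0,[(3,0)]⟩,⟨0,[(15,0)]⟩⟩,⟨false,1,⟨1,[(10,0),(0,0),(21,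
  0)]⟩,⟨0,[(30,0)]⟩⟩,⟨false,0,⟨0,[(2,0)]⟩,⟨1,[(0,1),(9,0),(0,0),(10,0)]⟩⟩,[.a ⟨true,0,⟨1,[(2,0),(13,
  0),(15,0)]⟩,⟨0,[(0,0)]⟩⟩ ⟨true,0,⟨0,[(36,0)]⟩,⟨0,[(30,0)]⟩⟩ ⟨false,0,⟨1,[(2,0),(13,0),(15,0)]⟩,⟨1,
  [(0,1),(21,0),(10,0)]⟩⟩,.e ⟨false,1,⟨1,[(10,0),(0,0),(21,0)]⟩,⟨0,[]⟩⟩ ⟨false,0,⟨0,[(2,0)]⟩,⟨3,[(6,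
  1),(3,0),(0,0),(3,3),(6,0),(10,1)]⟩⟩,.o ⟨false,1,⟨1,[(22,0),(10,0)]⟩,⟨1,[(17,0),(0,0)]⟩⟩,.fo]⟩)
  (.R ⟨2,false,false,false,[0,1],[0,1,-1],[0,0,1,1,0,0,0,-1],(⟨0,[]⟩,⟨0,[]⟩),(⟨0,[(9,0)]⟩,⟨0,[(20,
  0),(2,0)]⟩),⟨0,[]⟩,.k,.k,.k,.k,.k,.k,⟨false,1,⟨1,[(10,0),(0,0),(21,0)]⟩,⟨0,[]⟩⟩,⟨true,0,⟨2,[(0,0),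
  (0,0),(5,0)]⟩,⟨0,[(17,0)]⟩⟩,⟨false,1,⟨1,[(3,1),(13,1),(15,0),(0,0)]⟩,⟨0,[(1,0),(30,0)]⟩⟩,⟨true,0,
  ⟨0,[(3,0)]⟩,⟨0,[(15,0)]⟩⟩,⟨false,1,⟨1,[(2,0),(13,0),(0,1),(14,0),(0,0),(0,0)]⟩,⟨0,[(1,0)]⟩⟩,
  ⟨false,0,⟨0,[(2,0)]⟩,⟨3,[(4,1),(1,1),(3,0),(0,0),(3,1),(1,1),(4,0)]⟩⟩,[.o ⟨false,0,⟨0,[(0,0)]⟩,⟨3,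
  [(4,1),(1,1),(3,0),(0,0),(3,1),(1,1),(4,0)]⟩⟩,.a ⟨true,0,⟨0,[(2,0)]⟩,⟨5,[(6,2),(3,0),(0,0),(3,5),
  (5,0),(1,0),(3,0)]⟩⟩ ⟨true,0,⟨0,[(2,0),(14,0)]⟩,⟨1,[(1,0),(3,0),(25,0)]⟩⟩ ⟨false,0,⟨0,[(2,0)]⟩,⟨3,
  [(6,1),(3,0),(0,0),(3,3),(6,0),(10,1)]⟩⟩,.o ⟨false,1,⟨1,[(22,0),(10,0)]⟩,⟨1,[(17,0),(0,0)]⟩⟩,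
  .fo]⟩)))) (.Q [0,0,0,-1,0,0,1,0,0,0,1] (.p true [0,0,1] [] (⟨0,[(17,0)]⟩,⟨0,[(16,0)]⟩) .k 0 (⟨0,
  []⟩,⟨0,[]⟩) .k .k) (.R ⟨0,false,false,false,[0,1,-1],[0,1],[1],(⟨0,[(7,0)]⟩,⟨0,[(18,0),(2,0)]⟩),
  (⟨0,[(22,0)]⟩,⟨0,[(21,0)]⟩),⟨0,[(18,0)]⟩,.k,.k,.k,.k,.k,.k,⟨false,1,⟨1,[(0,1),(11,1),(7,0),(10,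
  0)]⟩,⟨1,[(15,0),(0,0),(13,1)]⟩⟩,⟨true,0,⟨0,[(0,0),(29,0)]⟩,⟨0,[(16,0)]⟩⟩,⟨false,1,⟨0,[(0,0),(0,0),
  (10,1),(7,0),(7,0)]⟩,⟨0,[(0,0),(13,0),(13,0),(1,1)]⟩⟩,⟨true,0,⟨0,[(1,0)]⟩,⟨0,[(14,0)]⟩⟩,⟨false,0,
  ⟨0,[]⟩,⟨0,[]⟩⟩,⟨false,0,⟨0,[]⟩,⟨0,[]⟩⟩,[.a ⟨true,0,⟨0,[(30,0)]⟩,⟨5,[(4,2),(3,0),(0,0),(9,0),(1,0),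
  (3,0)]⟩⟩ ⟨true,0,⟨0,[]⟩,⟨1,[(15,0),(0,0)]⟩⟩ ⟨false,0,⟨0,[(0,0),(29,1)]⟩,⟨1,[(4,0),(0,0),(14,0),
  (10,0)]⟩⟩,.o ⟨false,1,⟨1,[(20,0),(9,1),(1,0)]⟩,⟨0,[(29,0)]⟩⟩,.o ⟨false,1,⟨0,[(12,0),(7,0)]⟩,⟨0,
  [(15,0)]⟩⟩,.o ⟨false,1,⟨3,[(5,1),(2,0),(0,0),(10,2)]⟩,⟨0,[(0,0),(29,0)]⟩⟩]⟩) (.Q [0,0,0,0,0,0,-1,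
  0,0,0,-1] (.p false [0,0,1] [] (⟨0,[(18,0)]⟩,⟨0,[(17,0)]⟩) .k 0 (⟨0,[]⟩,⟨0,[]⟩) .k .k) (.Q [0,-1,
  1,1,1,0,0,-1,0,-1] (.pp true [-1,1]) (.Q [0,0,0,-1,0,0,-1,0,0,0,-1] (.p false [0,0,1] [] (⟨0,[(20,
  0)]⟩,⟨0,[(19,0)]⟩) .k 0 (⟨0,[]⟩,⟨0,[]⟩) .k .k) (.I [0,-1,0,1,1,0,0,-1] (.R ⟨0,false,false,false,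
  [0,1,-1],[0,1],[1,1,1],(⟨0,[(11,0)]⟩,⟨0,[(22,0),(2,0)]⟩),(⟨0,[(26,0)]⟩,⟨0,[(25,0)]⟩),⟨0,[(22,0)]⟩,
  .k,.k,.k,.k,.k,.k,⟨true,0,⟨0,[(33,0)]⟩,⟨0,[(32,0),(1,0)]⟩⟩,⟨false,1,⟨0,[(19,0),(15,0)]⟩,⟨0,[(3,
  0)]⟩⟩,⟨false,0,⟨0,[(1,0),(3,0)]⟩,⟨0,[(0,0)]⟩⟩,⟨true,0,⟨0,[(5,0)]⟩,⟨0,[(18,0)]⟩⟩,⟨false,0,⟨0,[]⟩,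
  ⟨0,[]⟩⟩,⟨false,0,⟨0,[]⟩,⟨0,[]⟩⟩,[.a ⟨true,0,⟨0,[(34,0)]⟩,⟨43,[(0,5),(7,24),(0,2),(7,5),(5,3),(1,
  3),(3,5)]⟩⟩ ⟨false,0,⟨0,[(38,0)]⟩,⟨1,[(35,0),(0,0)]⟩⟩ ⟨true,0,⟨0,[(19,0),(14,0)]⟩,⟨0,[(1,0)]⟩⟩,.o
  ⟨false,1,⟨1,[(24,0),(9,1),(1,0)]⟩,⟨0,[(33,0)]⟩⟩,.o ⟨false,1,⟨0,[(16,0),(7,0)]⟩,⟨0,[(19,0)]⟩⟩,.e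
  ⟨false,0,⟨0,[]⟩,⟨1,[(12,0),(0,0),(22,0)]⟩⟩ ⟨false,1,⟨0,[(0,0),(4,0)]⟩,⟨0,[(1,0)]⟩⟩]⟩) (.Q [0,0,-1,
  1,0,0,-1,0,0,0,-1] (.p false [0,0,1] [] (⟨0,[(22,0)]⟩,⟨0,[(21,0)]⟩) .k 0 (⟨0,[]⟩,⟨0,[]⟩) .k .k)
  (.R ⟨0,false,false,false,[0,0,1],[0,1],[1,1,1],(⟨0,[(23,0)]⟩,⟨0,[(22,0)]⟩),(⟨0,[(27,0)]⟩,⟨0,[(26,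
  0)]⟩),⟨0,[(12,0)]⟩,.k,.k,.k,.k,.k,.k,⟨true,0,⟨0,[(34,0)]⟩,⟨0,[(33,0),(1,0)]⟩⟩,⟨false,1,⟨7,[(0,1),
  (1,1),(7,1),(14,0),(10,6)]⟩,⟨0,[(20,0)]⟩⟩,⟨true,0,⟨0,[(19,0),(0,0)]⟩,⟨3,[(0,1),(0,1),(4,1),(29,0),
  (0,0)]⟩⟩,⟨false,1,⟨0,[(3,0),(13,0)]⟩,⟨1,[(1,1),(18,1),(15,0),(0,0)]⟩⟩,⟨false,0,⟨0,[]⟩,⟨0,[]⟩⟩,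
  ⟨false,0,⟨0,[]⟩,⟨0,[]⟩⟩,[.e ⟨false,0,⟨0,[(39,0)]⟩,⟨1,[(36,0),(0,0)]⟩⟩ ⟨false,0,⟨0,[(0,0)]⟩,⟨5,[(3,
  1),(5,3),(8,1),(1,3),(4,0),(10,2)]⟩⟩,.o ⟨false,1,⟨1,[(25,0),(9,1),(1,0)]⟩,⟨0,[(34,0)]⟩⟩,.o ⟨false,
  1,⟨1,[(20,1),(4,0),(10,0)]⟩,⟨0,[(4,0)]⟩⟩,.a ⟨true,0,⟨0,[(20,0)]⟩,⟨0,[(17,0)]⟩⟩ ⟨false,0,⟨0,[]⟩,⟨1,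
  [(13,0),(0,0),(22,0)]⟩⟩ ⟨true,0,⟨0,[(0,0)]⟩,⟨0,[(20,0),(13,0)]⟩⟩]⟩) (.R ⟨0,false,false,false,[0,0,
  1],[0,1],[1,1,1],(⟨0,[(23,0)]⟩,⟨0,[(22,0)]⟩),(⟨0,[(27,0)]⟩,⟨0,[(26,0)]⟩),⟨0,[(12,0)]⟩,.k,.k,.k,.k,
  .k,.k,⟨true,0,⟨0,[(34,0)]⟩,⟨0,[(33,0),(1,0)]⟩⟩,⟨false,1,⟨1,[(17,1),(7,0),(10,0)]⟩,⟨0,[(20,0)]⟩⟩,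
  ⟨true,0,⟨0,[(19,0),(0,0)]⟩,⟨1,[(1,1),(33,1),(0,0),(0,0)]⟩⟩,⟨false,1,⟨0,[(3,0),(13,0)]⟩,⟨3,[(0,1),
  (0,1),(4,1),(29,0),(0,0)]⟩⟩,⟨false,0,⟨0,[]⟩,⟨0,[]⟩⟩,⟨false,0,⟨0,[]⟩,⟨0,[]⟩⟩,[.a ⟨true,0,⟨0,[(35,
  0)]⟩,⟨5,[(9,2),(3,0),(0,0),(9,0),(1,0),(3,0)]⟩⟩ ⟨false,0,⟨0,[(39,0)]⟩,⟨1,[(36,0),(0,0)]⟩⟩ ⟨true,0,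
  ⟨0,[(5,0)]⟩,⟨0,[(0,0)]⟩⟩,.o ⟨false,1,⟨1,[(25,0),(9,1),(1,0)]⟩,⟨0,[(34,0)]⟩⟩,.o ⟨false,1,⟨1,[(20,
  1),(4,0),(10,0)]⟩,⟨0,[(4,0)]⟩⟩,.e ⟨false,0,⟨0,[]⟩,⟨1,[(13,0),(0,0),(22,0)]⟩⟩ ⟨false,1,⟨1,[(5,1),
  (30,0),(0,0)]⟩,⟨0,[(0,0)]⟩⟩]⟩))) (.I [1,0,0,-1,0,0,0,1] (.R ⟨0,false,false,false,[0,1,-1],[0,1],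
  [1,1,1],(⟨0,[(11,0)]⟩,⟨0,[(22,0),(2,0)]⟩),(⟨0,[(26,0)]⟩,⟨0,[(25,0)]⟩),⟨0,[(22,0)]⟩,.k,.k,.k,.k,.k,
  .k,⟨true,0,⟨0,[(33,0)]⟩,⟨1,[(1,0),(2,0),(27,1)]⟩⟩,⟨false,1,⟨0,[(19,0),(15,0)]⟩,⟨0,[(3,0)]⟩⟩,
  ⟨false,0,⟨0,[(0,0)]⟩,⟨3,[(1,1),(0,1),(15,1),(10,0),(5,0),(0,1)]⟩⟩,⟨true,0,⟨0,[(5,0)]⟩,⟨0,[(18,
  0)]⟩⟩,⟨false,0,⟨0,[]⟩,⟨0,[]⟩⟩,⟨false,0,⟨0,[]⟩,⟨0,[]⟩⟩,[.e ⟨false,0,⟨0,[(38,0)]⟩,⟨1,[(35,0),(0,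
  0)]⟩⟩ ⟨false,0,⟨0,[(1,0)]⟩,⟨1,[(8,0),(0,0),(14,0),(10,0)]⟩⟩,.o ⟨false,1,⟨1,[(1,0),(2,0),(19,0),
  (11,0)]⟩,⟨0,[(33,0)]⟩⟩,.o ⟨false,1,⟨0,[(16,0),(7,0)]⟩,⟨0,[(19,0)]⟩⟩,.a ⟨true,0,⟨0,[(3,0)]⟩,⟨9,[(1,
  3),(6,1),(10,5),(3,1),(1,1),(3,2),(5,2)]⟩⟩ ⟨false,0,⟨0,[]⟩,⟨1,[(12,0),(0,0),(22,0)]⟩⟩ ⟨true,0,⟨0,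
  [(1,0)]⟩,⟨0,[(3,0),(29,0)]⟩⟩]⟩) (.R ⟨2,true,false,false,[0,1],[0,0,1],[1,1,1],(⟨0,[]⟩,⟨0,[]⟩),(⟨0,
  [(22,0)]⟩,⟨0,[(21,0)]⟩),⟨0,[]⟩,.k,.k,.k,.k,.k,.k,⟨false,0,⟨0,[(0,0),(32,0)]⟩,⟨1,[(5,1),(10,1),(13,
  0),(5,0)]⟩⟩,⟨true,0,⟨0,[(19,0)]⟩,⟨0,[(3,0)]⟩⟩,⟨true,0,⟨0,[(33,0)]⟩,⟨0,[(34,0)]⟩⟩,⟨false,1,⟨3,[(5,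
  1),(0,1),(1,1),(10,1),(4,0),(11,0)]⟩,⟨0,[(0,0),(2,0)]⟩⟩,⟨false,0,⟨0,[]⟩,⟨1,[(12,0),(0,0),(22,
  0)]⟩⟩,⟨true,0,⟨0,[(5,0)]⟩,⟨0,[(18,0)]⟩⟩,[]⟩))) (.R ⟨0,false,false,true,[0,0,1],[1,-1,1],[1,1,1],
  (⟨0,[(20,0)]⟩,⟨0,[(19,0)]⟩),(⟨0,[(20,0),(2,0)]⟩,⟨0,[(9,0)]⟩),⟨0,[(9,0)]⟩,.k,.k,.k,.k,.k,.k,⟨true,
  0,⟨0,[(16,0),(0,0),(12,0),(1,0)]⟩,⟨1,[(0,1),(21,0),(11,0)]⟩⟩,⟨false,0,⟨2,[(10,0),(0,0),(9,0),(1,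
  0),(3,0)]⟩,⟨1,[(22,0),(10,0)]⟩⟩,⟨true,0,⟨0,[(16,0),(0,0)]⟩,⟨1,[(0,1),(21,0),(9,1),(1,0)]⟩⟩,⟨false,
  0,⟨5,[(6,2),(3,0),(0,0),(9,0),(1,0),(3,0)]⟩,⟨1,[(22,0),(9,1),(1,0)]⟩⟩,⟨false,0,⟨0,[]⟩,⟨0,[]⟩⟩,
  ⟨false,0,⟨0,[]⟩,⟨0,[]⟩⟩,[.e ⟨false,0,⟨0,[(36,0)]⟩,⟨1,[(33,0),(0,0)]⟩⟩ ⟨false,(-1),⟨0,[(0,0)]⟩,⟨1,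
  [(16,1),(0,1),(4,0),(9,1),(0,0),(0,1)]⟩⟩,.o ⟨false,0,⟨1,[(0,1),(16,1),(4,0),(11,0)]⟩,⟨1,[(16,1),
  (5,0),(9,1),(1,0)]⟩⟩,.o ⟨false,1,⟨1,[(17,1),(4,0),(10,0)]⟩,⟨0,[(1,0)]⟩⟩,.a ⟨true,0,⟨0,[(17,0)]⟩,
  ⟨0,[(14,0)]⟩⟩ ⟨false,0,⟨0,[]⟩,⟨1,[(10,0),(0,0),(22,0)]⟩⟩ ⟨true,(-1),⟨0,[(0,0)]⟩,⟨1,[(16,1),(0,1),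
  (4,0),(9,1),(1,0)]⟩⟩]⟩)) (.I [1,0,0,-1,0,0,0,1] (.R ⟨0,false,false,false,[0,1,-1],[0,1],[0,0,1,1,
  0,0,0,-1],(⟨0,[(9,0)]⟩,⟨0,[(20,0),(2,0)]⟩),(⟨0,[(24,0)]⟩,⟨0,[(23,0)]⟩),⟨0,[(20,0)]⟩,.k,.k,.k,.k,
  .k,.k,⟨false,1,⟨1,[(1,1),(14,1),(16,0),(0,0)]⟩,⟨1,[(0,0),(1,0),(0,0)]⟩⟩,⟨true,0,⟨0,[(1,0)]⟩,⟨0,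
  [(18,0)]⟩⟩,⟨false,1,⟨1,[(10,0),(0,0),(22,0)]⟩,⟨0,[]⟩⟩,⟨true,0,⟨0,[(3,0)]⟩,⟨0,[(16,0)]⟩⟩,⟨false,0,
  ⟨0,[]⟩,⟨0,[]⟩⟩,⟨false,0,⟨0,[]⟩,⟨0,[]⟩⟩,[.a ⟨true,0,⟨0,[(32,0)]⟩,⟨5,[(6,2),(3,0),(0,0),(9,0),(1,0),
  (3,0)]⟩⟩ ⟨true,0,⟨0,[(1,0),(14,0),(13,0),(1,0)]⟩,⟨0,[(0,0)]⟩⟩ ⟨false,0,⟨0,[(1,0),(30,0)]⟩,⟨1,[(6,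
  0),(0,0),(14,0),(10,0)]⟩⟩,.o ⟨false,1,⟨1,[(22,0),(9,1),(1,0)]⟩,⟨0,[(31,0)]⟩⟩,.o ⟨false,1,⟨0,[(14,
  0),(7,0)]⟩,⟨0,[(17,0)]⟩⟩,.o ⟨false,1,⟨3,[(7,1),(2,0),(0,0),(10,2)]⟩,⟨0,[(1,0)]⟩⟩]⟩) (.R ⟨0,false,
  false,false,[0,1,-1],[0,1],[0,1],(⟨0,[(9,0)]⟩,⟨0,[(20,0),(2,0)]⟩),(⟨0,[(24,0)]⟩,⟨0,[(23,0)]⟩),⟨0,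
  [(20,0)]⟩,.k,.k,.k,.k,.k,.k,⟨false,1,⟨3,[(6,1),(15,0),(6,1),(3,2)]⟩,⟨0,[(30,0),(1,0)]⟩⟩,⟨true,0,
  ⟨0,[(1,0)]⟩,⟨0,[(18,0)]⟩⟩,⟨false,1,⟨0,[(4,0),(26,0)]⟩,⟨0,[(0,0),(29,0)]⟩⟩,⟨true,0,⟨0,[(3,0)]⟩,⟨0,
  [(16,0)]⟩⟩,⟨false,0,⟨0,[]⟩,⟨0,[]⟩⟩,⟨false,0,⟨0,[]⟩,⟨0,[]⟩⟩,[.a ⟨true,0,⟨0,[(32,0)]⟩,⟨5,[(6,2),(3,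
  0),(0,0),(9,0),(1,0),(3,0)]⟩⟩ ⟨true,0,⟨0,[(36,0)]⟩,⟨0,[(30,0)]⟩⟩ ⟨false,0,⟨0,[(1,0),(30,0)]⟩,⟨1,
  [(6,0),(0,0),(14,0),(10,0)]⟩⟩,.o ⟨false,1,⟨1,[(22,0),(9,1),(1,0)]⟩,⟨0,[(31,0)]⟩⟩,.o ⟨false,1,⟨0,
  [(14,0),(7,0)]⟩,⟨0,[(17,0)]⟩⟩,.o ⟨false,1,⟨3,[(7,1),(2,0),(0,0),(10,2)]⟩,⟨0,[(1,0)]⟩⟩]⟩))))) (.K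
  ⟨0,[1,-1,1],(-1),0,(⟨0,[(16,0),(2,0)]⟩,⟨0,[(5,0)]⟩),.k,(.r (-2) ⟨1,[(1,1),(0,1),(15,0),(10,1),(0,
  0)]⟩ ⟨0,[(0,0),(25,0),(1,1)]⟩),.k,.k,.k,[⟨1,[(18,0),(10,0)]⟩,⟨1,[(0,1),(10,1),(11,0),(2,1),(3,
  0)]⟩,⟨0,[(0,0),(9,0),(7,0),(9,0)]⟩,⟨5,[(2,2),(3,0),(0,0),(3,5),(5,0),(1,0),(3,0)]⟩]⟩))) (.Q [0,0,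
  2,0,-1,0,0,0,0,1] (.pp false [-1,1]) (.R ⟨2,true,false,true,[0,1],[1,-1],[1,0,1],(⟨0,[]⟩,⟨0,[]⟩),
  (⟨0,[(18,0)]⟩,⟨0,[(19,0)]⟩),⟨0,[]⟩,.k,.k,.k,(.r 1 ⟨0,[(0,0),(0,0)]⟩ ⟨0,[(26,1),(1,0),(0,0)]⟩),.k,
  .k,⟨false,0,⟨1,[(0,0),(0,0),(27,0)]⟩,⟨0,[(26,0),(1,0)]⟩⟩,⟨true,(-1),⟨0,[(0,0)]⟩,⟨1,[(17,0),(10,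
  0)]⟩⟩,⟨false,1,⟨0,[(26,0),(2,0)]⟩,⟨0,[(27,0)]⟩⟩,⟨true,0,⟨1,[(22,0),(3,3),(2,0)]⟩,⟨0,[(1,0)]⟩⟩,
  ⟨true,0,⟨0,[]⟩,⟨0,[(31,0)]⟩⟩,⟨false,0,⟨1,[(22,0),(3,1),(2,0)]⟩,⟨3,[(1,1),(3,0),(0,0),(10,0),(11,
  1)]⟩⟩,[]⟩) (.I [0,0,2,0,-1,2] (.N [0,2] 1 ⟨0,[(2,1),(20,0),(2,1),(0,1)]⟩ ⟨0,[(1,1),(21,0),(2,1),
  (0,1)]⟩ (.x (-2) ⟨0,[(18,0),(0,1),(9,0)]⟩ ⟨0,[(0,0)]⟩)) (.I [0,0,-2,0,1,-2] (.N [0,2] 1 ⟨0,[(3,1),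
  (20,0),(2,1),(0,1)]⟩ ⟨0,[(2,1),(21,0),(2,1),(0,1)]⟩ (.x (-1) ⟨0,[(0,0)]⟩ ⟨5,[(4,3),(9,8),(0,0),(7,
  3),(8,1)]⟩)) (.Q [0,1,0,0,0,0,2,1,0,0,2] (.p true [0,0,1] [0,1,-1] (⟨0,[(17,0)]⟩,⟨0,[(16,0)]⟩) .k
  2 (⟨0,[(6,0)]⟩,⟨0,[(17,0),(2,0)]⟩) .k (.i 0 ⟨0,[(17,1)]⟩ ⟨0,[(5,0),(0,0)]⟩)) (.I [0,1,0,0,0,0,0,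
  -1] (.I [1,1,1,1,-1,0,0,-1] (.R ⟨0,false,false,false,[0,0,1],[1,-1,1],[1,1],(⟨0,[(20,0)]⟩,⟨0,[(19,
  0)]⟩),(⟨0,[(20,0),(2,0)]⟩,⟨0,[(9,0)]⟩),⟨0,[(9,0)]⟩,.k,.k,.k,.k,.k,.k,⟨true,(-1),⟨0,[(0,0)]⟩,⟨0,
  [(5,0),(8,0),(0,0),(14,2),(0,0)]⟩⟩,⟨false,0,⟨2,[(10,0),(0,0),(9,0),(1,0),(3,0)]⟩,⟨1,[(22,0),(10,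
  0)]⟩⟩,⟨false,0,⟨1,[(0,0),(0,0),(3,1),(21,0),(2,2),(0,0)]⟩,⟨1,[(5,0),(1,0),(7,1),(14,1),(3,0)]⟩⟩,
  ⟨true,0,⟨1,[(27,0),(3,1),(2,0)]⟩,⟨0,[(6,0),(24,0)]⟩⟩,⟨false,0,⟨0,[]⟩,⟨0,[]⟩⟩,⟨false,0,⟨0,[]⟩,⟨0,
  []⟩⟩,[.e ⟨false,0,⟨1,[(5,0),(0,0),(20,0),(3,1)]⟩,⟨1,[(10,0),(0,0),(22,0)]⟩⟩ ⟨false,1,⟨0,[(14,0),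
  (0,0),(15,0),(2,0)]⟩,⟨0,[(0,0),(4,0),(24,0)]⟩⟩,.o ⟨false,1,⟨1,[(5,1),(9,1),(11,0),(2,3),(0,1),(2,
  0)]⟩,⟨1,[(0,1),(4,0),(1,0),(14,0)]⟩⟩,.e ⟨false,0,⟨0,[]⟩,⟨1,[(10,0),(0,0),(22,0)]⟩⟩ ⟨false,1,⟨0,
  [(14,0),(0,0),(14,0),(0,0),(2,0)]⟩,⟨0,[(0,0),(4,0),(24,0)]⟩⟩,.a ⟨true,0,⟨0,[(17,0)]⟩,⟨0,[(14,
  0)]⟩⟩ ⟨true,0,⟨1,[(5,0),(0,0),(20,0),(3,1)]⟩,⟨1,[(17,0),(0,0)]⟩⟩ ⟨false,1,⟨1,[(5,1),(8,1),(0,1),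
  (11,0),(2,3),(0,1),(2,0)]⟩,⟨1,[(0,1),(21,0),(11,0)]⟩⟩]⟩) (.Q [0,0,0,0,0,0,1,0,0,0,1] (.p true [0,
  0,1] [] (⟨0,[(20,0)]⟩,⟨0,[(19,0)]⟩) .k 0 (⟨0,[]⟩,⟨0,[]⟩) .k .k) (.Q [0,0,0,0,0,0,-1,-1,0,0,-1]
  (.p false [0,0,1] [] (⟨0,[(21,0)]⟩,⟨0,[(20,0)]⟩) .k 0 (⟨0,[]⟩,⟨0,[]⟩) .k .k) (.R ⟨2,true,false,
  true,[0,1],[0,1,1],[1,0,1],(⟨0,[]⟩,⟨0,[]⟩),(⟨22,[(12,2),(0,2),(8,22),(0,4),(4,5),(0,2)]⟩,⟨0,[(10,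
  0)]⟩),⟨0,[]⟩,.k,.k,.k,.k,.k,.k,⟨false,1,⟨0,[(0,1),(0,1),(0,0)]⟩,⟨1,[(8,0),(0,0),(7,1)]⟩⟩,⟨true,0,
  ⟨0,[(1,0)]⟩,⟨0,[(20,0)]⟩⟩,⟨false,1,⟨0,[(33,0),(2,0)]⟩,⟨0,[(34,0)]⟩⟩,⟨true,0,⟨0,[(17,0)]⟩,⟨0,[(0,
  0)]⟩⟩,⟨true,0,⟨0,[]⟩,⟨0,[(38,0)]⟩⟩,⟨false,0,⟨0,[(1,0),(0,0),(5,1),(20,0),(2,0),(0,1)]⟩,⟨0,[(0,0),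
  (32,0),(2,0)]⟩⟩,[]⟩) (.R ⟨0,false,false,false,[0,1,-1],[0,1],[1],(⟨0,[(11,0)]⟩,⟨0,[(22,0),(2,
  0)]⟩),(⟨0,[(26,0)]⟩,⟨0,[(25,0)]⟩),⟨0,[(22,0)]⟩,.k,.k,.k,.k,.k,.k,⟨false,1,⟨1,[(7,1),(21,0),(3,1),
  (2,0)]⟩,⟨1,[(8,0),(0,0),(9,1)]⟩⟩,⟨true,0,⟨0,[(1,0)]⟩,⟨0,[(20,0)]⟩⟩,⟨false,1,⟨0,[(2,0)]⟩,⟨3,[(3,1),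
  (4,1),(9,1),(0,1),(9,0),(2,1),(3,0)]⟩⟩,⟨true,0,⟨0,[(0,0)]⟩,⟨0,[(18,0)]⟩⟩,⟨false,0,⟨0,[]⟩,⟨0,[]⟩⟩,
  ⟨false,0,⟨0,[]⟩,⟨0,[]⟩⟩,[.a ⟨true,0,⟨0,[(34,0)]⟩,⟨1,[(29,0),(3,1),(2,0)]⟩⟩ ⟨true,0,⟨0,[]⟩,⟨1,[(19,
  0),(0,0)]⟩⟩ ⟨false,0,⟨4,[(1,2),(1,0),(0,0),(3,1),(20,0),(4,0),(1,0)]⟩,⟨0,[(2,0),(15,0)]⟩⟩,.o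
  ⟨false,1,⟨3,[(8,1),(3,0),(0,0),(10,0),(11,1)]⟩,⟨0,[(33,0)]⟩⟩,.o ⟨false,1,⟨1,[(7,0),(1,0),(14,0)]⟩,
  ⟨0,[(19,0)]⟩⟩,.o ⟨false,1,⟨3,[(9,1),(2,0),(0,0),(10,2)]⟩,⟨0,[(1,0)]⟩⟩]⟩)) (.Q [0,1,0,-1,0,0,1,1,0,
  0,1] (.p true [0,0,1] [] (⟨0,[(21,0)]⟩,⟨0,[(20,0)]⟩) .k 0 (⟨0,[]⟩,⟨0,[]⟩) .k .k) (.I [1,-1,1,0,0,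
  0,0,1] (.Q [0,0,0,-1,0,0,-1,-1,0,1,-1] (.p false [0,0,1] [1] (⟨0,[(23,0)]⟩,⟨0,[(22,0)]⟩) .k 1 (⟨0,
  []⟩,⟨0,[]⟩) .k .k) (.S ⟨1,0,[0,1,1,1,0,0,0,1],[0,1,1],[1,0,1,0,0,0,0,1],(⟨22,[(14,2),(0,2),(8,22),
  (0,4),(4,5),(0,2)]⟩,⟨0,[(12,0)]⟩),⟨0,[(24,0)]⟩,.k,.k,⟨false,1,⟨0,[(35,0),(2,0)]⟩,⟨0,[(36,0)]⟩⟩,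
  ⟨true,0,⟨0,[(40,0)]⟩,⟨0,[]⟩⟩,⟨true,0,⟨0,[]⟩,⟨0,[(40,0)]⟩⟩,⟨false,0,⟨0,[(36,0)]⟩,⟨0,[(35,0),(2,
  0)]⟩⟩,[.o ⟨false,0,⟨0,[(2,0),(7,0)]⟩,⟨1,[(0,1),(25,0),(11,0)]⟩⟩,.a ⟨true,0,⟨15,[(1,4),(2,2),(1,7),
  (1,0),(1,7),(14,1),(5,3),(4,2)]⟩,⟨0,[(0,0)]⟩⟩ ⟨true,0,⟨0,[(1,0)]⟩,⟨0,[(5,0)]⟩⟩ ⟨false,0,⟨1,[(1,0),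
  (8,0),(7,0),(0,0)]⟩,⟨0,[(0,0),(8,0),(11,0)]⟩⟩,.o ⟨false,1,⟨0,[(9,0),(11,0)]⟩,⟨0,[(22,0)]⟩⟩,.o
  ⟨false,1,⟨1,[(5,0),(0,0),(19,0),(11,0)]⟩,⟨0,[(3,0)]⟩⟩]⟩) (.R ⟨2,true,false,true,[0,1],[1,0,-1],[1,
  0,1],(⟨0,[]⟩,⟨0,[]⟩),(⟨0,[(23,0)]⟩,⟨0,[(24,0)]⟩),⟨0,[]⟩,.k,.k,.k,.k,.k,.k,⟨true,0,⟨0,[(1,0)]⟩,⟨0,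
  [(5,0)]⟩⟩,⟨false,0,⟨5,[(11,2),(2,0),(0,0),(9,0),(1,0),(3,0)]⟩,⟨0,[(9,0),(11,0)]⟩⟩,⟨false,1,⟨0,
  [(35,0),(2,0)]⟩,⟨0,[(36,0)]⟩⟩,⟨true,0,⟨1,[(20,1),(10,0),(3,1),(2,0)]⟩,⟨0,[(0,0)]⟩⟩,⟨true,0,⟨0,[]⟩,
  ⟨0,[(40,0)]⟩⟩,⟨false,0,⟨3,[(5,1),(12,1),(1,1),(10,0),(2,1),(3,0)]⟩,⟨3,[(0,1),(3,1),(16,1),(4,0),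
  (11,0)]⟩⟩,[]⟩)) (.I [0,0,0,0,0,0,-1] (.I [0,0,0,0,1,0,0,0,-1] (.I [2,0,-1,1] (.C [(0,0),(2,0),(0,
  0),(0,0),(30,1)]) (.C [(0,1),(10,0),(0,0),(20,0)])) (.C [(0,0),(14,0),(2,0)])) (.C [(0,0),(2,0),
  (20,0)]))) (.R ⟨2,true,false,true,[0,1],[0,0,1],[0,1,1,1],(⟨0,[]⟩,⟨0,[]⟩),(⟨0,[(22,0)]⟩,⟨0,[(21,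
  0)]⟩),⟨0,[]⟩,.k,.k,.k,.k,.k,.k,⟨false,0,⟨1,[(0,1),(2,0),(0,0)]⟩,⟨19,[(2,15),(6,1),(2,2),(0,2),(3,
  3),(6,0),(6,3),(1,3)]⟩⟩,⟨true,0,⟨0,[(19,0)]⟩,⟨0,[(1,0)]⟩⟩,⟨true,0,⟨0,[(38,0)]⟩,⟨0,[]⟩⟩,⟨false,1,
  ⟨5,[(2,3),(1,1),(7,1),(0,1),(5,2),(0,0),(12,1)]⟩,⟨0,[(0,0)]⟩⟩,⟨false,0,⟨0,[(34,0)]⟩,⟨0,[(33,0),(2,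
  0)]⟩⟩,⟨true,0,⟨0,[(17,0)]⟩,⟨0,[(0,0),(32,0)]⟩⟩,[]⟩)))) (.I [1,-1,0,-1,1,0,0,-1] (.S ⟨1,0,[0,1,0,0,
  0,0,0,-1],[1,0,-1],[1,0,0,-1,0,0,0,-1],(⟨0,[(19,0)]⟩,⟨0,[(20,0)]⟩),⟨0,[(8,0)]⟩,.k,.k,⟨false,1,⟨0,
  [(31,0),(2,0)]⟩,⟨0,[(32,0)]⟩⟩,⟨true,0,⟨0,[(36,0)]⟩,⟨0,[]⟩⟩,⟨true,0,⟨0,[]⟩,⟨0,[(36,0)]⟩⟩,⟨false,0,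
  ⟨0,[(32,0)]⟩,⟨0,[(31,0),(2,0)]⟩⟩,[.o ⟨false,0,⟨0,[(16,0)]⟩,⟨1,[(1,0),(0,0),(19,0),(11,0)]⟩⟩,.a
  ⟨true,0,⟨9,[(4,1),(11,9),(4,3),(5,4),(2,3),(3,2)]⟩,⟨1,[(1,0),(0,0)]⟩⟩ ⟨true,1,⟨0,[(0,0)]⟩,⟨0,[(1,
  0),(4,1),(20,0),(2,0),(0,2)]⟩⟩ ⟨false,1,⟨3,[(0,3),(5,1),(20,0),(1,1),(3,0)]⟩,⟨3,[(1,2),(13,0),(2,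
  0),(10,0)]⟩⟩,.o ⟨false,0,⟨0,[(1,0),(14,0)]⟩,⟨7,[(0,3),(1,3),(3,1),(3,0),(0,0),(10,2)]⟩⟩,.o ⟨false,
  0,⟨0,[(18,0)]⟩,⟨0,[(5,0),(11,0)]⟩⟩]⟩) (.I [2,0,-1,1] (.I [0,0,0,0,1,0,0,0,-1] (.I [0,0,1,0,0,1,1]
  (.I [0,1,1,0,0,0,0,-1] (.C [(0,0),(3,0),(4,1),(21,0),(2,2),(0,0)]) (.C [(0,0),(19,0),(0,0)])) (.C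
  [(0,0),(11,0),(7,0)])) (.C [(0,0),(11,0),(2,0)])) (.C [(0,1),(5,0),(0,0),(20,0)])))) (.Q [0,-1,0,
  1,0,0,-1,-1,0,0,-1] (.p false [0,0,1] [] (⟨0,[(18,0)]⟩,⟨0,[(17,0)]⟩) .k 0 (⟨0,[]⟩,⟨0,[]⟩) .k .k)
  (.R ⟨2,true,false,false,[0,1],[0,1,-1],[1,1],(⟨0,[]⟩,⟨0,[]⟩),(⟨0,[(8,0)]⟩,⟨0,[(19,0),(2,0)]⟩),⟨0,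
  []⟩,.k,.k,.k,.k,.k,.k,⟨false,1,⟨0,[(4,0),(8,0),(0,0),(14,0),(0,0)]⟩,⟨0,[(0,0),(15,0)]⟩⟩,⟨true,0,
  ⟨0,[(1,0),(12,0)]⟩,⟨0,[(16,0)]⟩⟩,⟨false,1,⟨1,[(30,1),(1,0),(0,0)]⟩,⟨9,[(5,4),(0,0),(9,1),(9,1),(2,
  5),(3,1),(0,1)]⟩⟩,⟨true,0,⟨0,[(0,0),(29,0)]⟩,⟨0,[(14,0)]⟩⟩,⟨true,0,⟨1,[(4,0),(0,0),(20,0),(3,1)]⟩,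
  ⟨1,[(16,0),(0,0)]⟩⟩,⟨false,0,⟨0,[(0,0)]⟩,⟨0,[(14,0),(15,0),(2,0)]⟩⟩,[]⟩) (.R ⟨0,false,false,false,
  [0,0,1],[0,1],[1,1,1],(⟨0,[(19,0)]⟩,⟨0,[(18,0)]⟩),(⟨0,[(23,0)]⟩,⟨0,[(22,0)]⟩),⟨0,[(8,0)]⟩,.k,.k,
  .k,.k,.k,.k,⟨true,0,⟨0,[(30,0)]⟩,⟨9,[(5,4),(0,0),(9,1),(9,1),(2,5),(3,1),(0,1)]⟩⟩,⟨false,1,⟨1,[(4,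
  0),(1,0),(25,0)]⟩,⟨0,[(16,0)]⟩⟩,⟨false,0,⟨1,[(1,1),(2,0),(0,0),(10,3),(9,0),(3,1)]⟩,⟨1,[(0,1),(3,
  0),(0,0),(7,1),(15,1),(3,0)]⟩⟩,⟨true,0,⟨19,[(1,9),(1,1),(1,9),(9,9),(0,9),(3,3),(5,4),(5,2)]⟩,⟨0,
  [(0,0)]⟩⟩,⟨false,0,⟨0,[]⟩,⟨0,[]⟩⟩,⟨false,0,⟨0,[]⟩,⟨0,[]⟩⟩,[.e ⟨false,0,⟨0,[(35,0)]⟩,⟨1,[(32,0),(0,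
  0)]⟩⟩ ⟨false,0,⟨5,[(0,3),(0,3),(1,0),(0,0),(0,4),(7,1),(6,1),(5,1)]⟩,⟨1,[(16,1),(13,1),(1,0),(0,
  0)]⟩⟩,.o ⟨false,1,⟨3,[(5,1),(3,0),(0,0),(10,0),(11,1)]⟩,⟨0,[(30,0)]⟩⟩,.o ⟨false,1,⟨1,[(16,1),(4,
  0),(10,0)]⟩,⟨3,[(0,1),(0,1),(3,0),(0,0)]⟩⟩,.a ⟨true,0,⟨0,[(16,0)]⟩,⟨0,[(13,0)]⟩⟩ ⟨false,0,⟨0,[]⟩,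
  ⟨1,[(9,0),(0,0),(22,0)]⟩⟩ ⟨true,0,⟨5,[(0,3),(0,3),(1,0),(0,0),(0,4),(7,1),(6,1),(5,1)]⟩,⟨0,[(16,
  0),(13,0)]⟩⟩]⟩)))))))

theorem ok0 : chk K t0 base = true := by decide +kernel

theorem closed {p a b c J l q : ℤ} {D dl : ℝ} {Cl : ℤ → ℤ → ℤ → ℤ → ℝ → Prop}
    (W : World p a b c J 1 l q D dl Cl) (g : G0 p a b c J D)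
    {N X R : ℤ} {I : ℝ} (hk : KCl p l Cl N X R I) (kz : KF a b D (X + (1 : ℤ) * I) (X + (1 : ℤ) * I + R) I)
    {Ne Xe : ℤ} {Ie : ℝ} (he : EFac p 1 D Cl 1 Ne Xe Ie)
    (hkf : ∀ kf ∈ (kfY 1 [0,0,0,0,0,0,1,0,0,0,1]), KOk p l Cl 1
      (xv [1, a, b, c, p, J, X, R, Xe] [D, I, Ie]) N kf)
    (h0 : 1 ≤ (c : ℝ))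
    (h1 : 1 ≤ 1 - (a : ℝ) + (b : ℝ))
    (h2 : 1 ≤ 2 * (a : ℝ) - (b : ℝ))
    (h3 : 0 < -1 + (p : ℝ) - 2 * D)
    (h4 : 0 < 3 - (p : ℝ) + 2 * D)
    (h5 : 0 < 1 + 3 * (J : ℝ) - D)
    (h6 : 1 ≤ 2 * (a : ℝ) - (b : ℝ))
    (h7 : 1 ≤ -2 + (J : ℝ))
    (h8 : 0 < -(b : ℝ) - (X : ℝ) + D - I)
    (h9 : 0 < (J : ℝ) - I)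
    (h10 : 0 < -(J : ℝ) + D - I)
    (h11 : 0 < -2 * (X : ℝ) + D - 2 * I) : False := by
  have g1 := g.a2
  have g2 := g.b2
  have g3 := g.pa
  have g4 := g.pb
  have g5 := g.J1
  have g6 := g.JD
  have g7 := g.D2
  have g8 := g.ca
  have g9 := g.ca'
  have k1 := kz.I0
  have k2 := kz.ID
  have k3 := kz.z1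
  have k4 := kz.z2
  have k5 := kz.s1
  have k6 := kz.s2
  have e1 := he.I0
  have e2 := he.ID
  have e3 := he.x0
  have e4 := he.xp
  push_cast at *
  refine (val_E W.toBase hk he (row := [1]) (by simp) (by simp) (kfY 1 [0,0,0,0,0,0,1,0,0,0,1])).sound W rfl (Nk := N)
    (fun kf _ _ => ⟨_, rfl⟩) hkf ?_ ok0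
  · simp only [base, List.forall_mem_cons, List.not_mem_nil, false_imp_iff, implies_true,
      and_true, hld, xv, evg_cons, evg_nil, List.map_cons, List.map_nil, List.cons_append,
      List.nil_append, if_true, if_false, Bool.false_eq_true]
    push_cast
    refine ⟨?_, ?_, ?_, ?_, ?_, ?_, ?_, ?_, ?_, ?_, ?_, ?_, ?_, ?_, ?_, ?_, ?_, ?_, ?_, ?_, ?_, ?_, ?_, ?_, ?_, ?_, ?_, ?_, ?_, ?_⟩ <;> linarith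

end Helper48.Y.Y11_c35_P3_m0n1

namespace Helper48.Y.Y11_c35_P3_m1n0

open Helper25.KG Helper25.KW Helper55.KE Helper11.CT

noncomputable def K : Cls :=
  cE 1 [1] (kfY 1 [0,0,0,0,0,0,1,0,0,0,1])

noncomputable def base : List Con :=
  [(false,[0,0,0,0,0,0,-2,0,0,1,-2]),
  (false,[0,0,0,0,0,1,0,0,0,-1,1]),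
  (false,[0,0,0,0,0,-1,0,0,0,0,1]),
  (false,[0,0,0,0,1,0,0,0,-1,0,0,-1]),
  (false,[0,0,0,0,0,0,0,0,1,0,0,1]),
  (false,[0,0,0,0,0,0,0,0,0,1,0,-1]),
  (false,[0,0,0,0,0,0,0,0,0,0,0,1]),
  (false,[0,0,-1,0,0,0,-1,0,0,1,-1]),
  (false,[0,1,0,0,0,0,1,1,0,0,1]),
  (false,[0,1,0,0,0,0,-1,-1,0,0,-1]),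
  (false,[0,0,1,0,0,0,1,0,0,0,1]),
  (false,[0,0,1,0,0,0,-1,0,0,0,-1]),
  (false,[0,0,0,0,0,0,0,0,0,1,-1]),
  (false,[0,0,0,0,0,0,0,0,0,0,1]),
  (true,[-2,0,0,0,0,1]),
  (false,[0,0,0,0,1,0,0,0,0,-2]),
  (false,[0,0,0,0,0,-1,0,0,0,1]),
  (true,[0,0,0,0,0,1]),
  (true,[0,2,-1]),
  (false,[1,0,0,0,0,3,0,0,0,-1]),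
  (false,[3,0,0,0,-1,0,0,0,0,2]),
  (false,[-1,0,0,0,1,0,0,0,0,-2]),
  (true,[0,2,-1]),
  (true,[1,-1,1]),
  (true,[0,1,0,-1]),
  (true,[0,0,0,1]),
  (true,[0,0,-2,0,1]),
  (true,[0,-2,0,0,1]),
  (true,[-1,0,1]),
  (true,[-1,1])]

noncomputable def l0 : List Con := (false, [0,0,0,2,0,0,0,0,0,-1]) :: base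

noncomputable def r0 : List Con := (false, [0,0,0,-2,0,0,0,0,0,1]) :: base

noncomputable def l1 : List Con := (false, [0,0,0,0,0,0,-1,0,0,0,-1]) :: r0

noncomputable def r1 : List Con := (false, [0,0,0,0,0,0,1,0,0,0,1]) :: r0

noncomputable def l2 : List Con := (true, [1,1,0,0,0,0,0,-1]) :: l1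

noncomputable def r2 : List Con := (true, [0,-1,0,0,0,0,0,1]) :: l1

noncomputable def t0 : Tre :=
  (.Q [0,0,2,0,-1,0,0,0,0,1] (.pp false [-1,1]) (.R ⟨2,true,false,true,[0,1],[1,-1],[1,0,1],(⟨0,[]⟩,
  ⟨0,[]⟩),(⟨0,[(18,0)]⟩,⟨0,[(19,0)]⟩),⟨0,[]⟩,.k,.k,.k,(.r 1 ⟨0,[(0,0),(0,0)]⟩ ⟨0,[(26,1),(1,0),(0,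
  0)]⟩),.k,.k,⟨false,0,⟨1,[(0,0),(0,0),(27,0)]⟩,⟨0,[(26,0),(1,0)]⟩⟩,⟨true,(-1),⟨0,[(0,0)]⟩,⟨1,[(17,
  0),(10,0)]⟩⟩,⟨false,1,⟨0,[(26,0),(2,0)]⟩,⟨0,[(27,0)]⟩⟩,⟨true,0,⟨1,[(22,0),(3,3),(2,0)]⟩,⟨0,[(1,
  0)]⟩⟩,⟨true,0,⟨0,[]⟩,⟨0,[(31,0)]⟩⟩,⟨false,0,⟨1,[(22,0),(3,1),(2,0)]⟩,⟨3,[(1,1),(3,0),(0,0),(10,0),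
  (11,1)]⟩⟩,[]⟩) (.I [0,0,2,0,-1,2] (.N [0,2] 1 ⟨0,[(2,1),(20,0),(2,1),(0,1)]⟩ ⟨0,[(1,1),(21,0),(2,
  1),(0,1)]⟩ (.x (-2) ⟨0,[(18,0),(0,1),(9,0)]⟩ ⟨0,[(0,0)]⟩)) (.I [0,0,-2,0,1,-2] (.N [0,2] 1 ⟨0,[(3,
  1),(20,0),(2,1),(0,1)]⟩ ⟨0,[(2,1),(21,0),(2,1),(0,1)]⟩ (.x (-1) ⟨0,[(0,0)]⟩ ⟨5,[(4,3),(9,8),(0,0),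
  (7,3),(8,1)]⟩)) (.I [0,0,1,1,-1,0,0,-2] (.S ⟨1,0,[0,1,0,0,0,0,0,1],[0,0,1],[1,0,0,-1,0,0,0,1],(⟨0,
  [(18,0)]⟩,⟨0,[(17,0)]⟩),⟨0,[(7,0)]⟩,.k,.k,⟨false,1,⟨0,[(29,0),(2,0)]⟩,⟨0,[(30,0)]⟩⟩,⟨true,0,⟨0,
  [(34,0)]⟩,⟨0,[]⟩⟩,⟨true,0,⟨0,[]⟩,⟨0,[(34,0)]⟩⟩,⟨false,0,⟨0,[(30,0)]⟩,⟨0,[(29,0),(2,0)]⟩⟩,[.e
  ⟨false,1,⟨0,[(3,0),(8,0),(0,0),(14,1),(0,0)]⟩,⟨3,[(0,1),(7,0),(0,0),(20,1),(0,0)]⟩⟩ ⟨false,1,⟨3,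
  [(5,1),(2,0),(0,0),(3,3),(6,0),(10,1)]⟩,⟨1,[(0,0),(2,1),(21,0),(2,2),(0,0)]⟩⟩,.o ⟨false,1,⟨1,[(13,
  1),(6,0),(11,0)]⟩,⟨1,[(0,0),(2,0),(1,0),(22,0),(0,0)]⟩⟩,.e ⟨false,1,⟨0,[(3,0),(8,0),(0,0),(14,2),
  (0,0)]⟩,⟨3,[(0,1),(7,0),(0,0),(20,1),(0,0)]⟩⟩ ⟨false,1,⟨3,[(5,1),(2,0),(0,0),(3,3),(6,0),(11,1)]⟩,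
  ⟨1,[(0,0),(2,1),(21,0),(2,2),(0,0)]⟩⟩,.a ⟨true,0,⟨0,[(15,0)]⟩,⟨0,[(12,0)]⟩⟩ ⟨true,1,⟨0,[(3,0),(8,
  0),(0,0),(14,1),(0,0)]⟩,⟨1,[(0,0),(3,1),(20,0),(2,0),(0,2)]⟩⟩ ⟨false,1,⟨1,[(3,0),(1,0),(7,1),(18,
  0)]⟩,⟨1,[(0,0),(27,0),(0,0),(2,0)]⟩⟩]⟩) (.I [0,0,1,1,0,0,0,-2] (.Q [0,0,0,0,0,0,-1,0,0,0,-1] (.p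
  false [0,0,1] [] (⟨0,[(19,0)]⟩,⟨0,[(18,0)]⟩) .k 0 (⟨0,[]⟩,⟨0,[]⟩) .k .k) (.Q [0,-1,0,1,0,0,-1,-1,
  0,0,-1] (.p false [0,0,1] [] (⟨0,[(20,0)]⟩,⟨0,[(19,0)]⟩) .k 0 (⟨0,[]⟩,⟨0,[]⟩) .k .k) (.I [0,0,0,1,
  0,0,0,-1] (.R ⟨2,true,false,true,[0,1],[0,0,1],[0,1,1,1],(⟨0,[]⟩,⟨0,[]⟩),(⟨0,[(22,0)]⟩,⟨0,[(21,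
  0)]⟩),⟨0,[]⟩,.k,.k,.k,.k,.k,.k,⟨false,0,⟨0,[(0,0)]⟩,⟨3,[(4,1),(28,1),(1,0),(0,0)]⟩⟩,⟨true,0,⟨0,
  [(19,0)]⟩,⟨0,[(2,0)]⟩⟩,⟨true,0,⟨0,[(38,0)]⟩,⟨0,[]⟩⟩,⟨false,1,⟨3,[(4,1),(14,3),(13,1),(1,0),(0,
  0)]⟩,⟨0,[(1,0)]⟩⟩,⟨false,0,⟨0,[(34,0)]⟩,⟨0,[(33,0),(2,0)]⟩⟩,⟨true,0,⟨0,[(17,0)]⟩,⟨0,[(1,0),(31,
  0)]⟩⟩,[]⟩) (.I [0,0,0,0,1,0,0,0,-1] (.I [2,0,-1,1] (.C [(0,0),(1,0),(0,0),(17,0),(13,0)]) (.C [(0,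
  1),(8,0),(0,0),(20,0)])) (.C [(0,0),(12,0),(2,0)]))) (.Q [0,0,0,1,0,0,-1,-1,0,0,-1] (.p false [0,
  0,1] [] (⟨0,[(21,0)]⟩,⟨0,[(20,0)]⟩) .k 0 (⟨0,[]⟩,⟨0,[]⟩) .k .k) (.R ⟨0,false,false,true,[1,0,-1],
  [1,-1],[0,1,1],(⟨0,[(21,0)]⟩,⟨0,[(22,0)]⟩),(⟨0,[(25,0)]⟩,⟨0,[(26,0)]⟩),⟨0,[(10,0)]⟩,.k,.k,.k,.k,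
  .k,.k,⟨false,0,⟨1,[(8,0),(0,0),(9,1)]⟩,⟨1,[(7,1),(21,0),(3,1),(2,0)]⟩⟩,⟨true,0,⟨0,[(19,0)]⟩,⟨0,
  [(2,0)]⟩⟩,⟨false,0,⟨9,[(1,5),(0,2),(1,1),(3,3),(11,2),(8,1),(2,5),(4,2)]⟩,⟨1,[(3,0),(3,1),(21,0),
  (2,0),(0,0),(2,0)]⟩⟩,⟨true,0,⟨0,[(1,0)]⟩,⟨0,[(0,0)]⟩⟩,⟨false,0,⟨0,[]⟩,⟨0,[]⟩⟩,⟨false,0,⟨0,[]⟩,⟨0,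
  []⟩⟩,[.o ⟨false,0,⟨0,[(33,0)]⟩,⟨3,[(3,0),(0,0),(3,1),(15,0),(11,1)]⟩⟩,.a ⟨true,0,⟨1,[(29,0),(3,1),
  (2,0)]⟩,⟨0,[(34,0)]⟩⟩ ⟨true,0,⟨1,[(19,0),(0,0)]⟩,⟨0,[]⟩⟩ ⟨false,1,⟨1,[(7,1),(11,1),(9,0),(3,1),(2,
  0)]⟩,⟨1,[(8,0),(0,0)]⟩⟩,.o ⟨false,0,⟨0,[(2,0)]⟩,⟨1,[(19,1),(4,0),(10,0)]⟩⟩,.o ⟨false,0,⟨0,[(20,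
  0)]⟩,⟨0,[(7,0),(11,0)]⟩⟩]⟩) (.I [0,0,0,-1,0,0,0,1] (.C [(0,0),(0,2),(1,2),(0,1),(3,0),(0,0),(20,
  0)]) (.C [(0,0),(0,0),(1,0)])))) (.I [1,-1,0,1,0,0,0,1] (.S ⟨1,0,[0,0,0,0,0,0,0,1],[0,0,1],[1,1],
  (⟨0,[(21,0)]⟩,⟨0,[(20,0)]⟩),⟨0,[(10,0)]⟩,.k,.k,⟨true,0,⟨0,[(1,0),(15,0)]⟩,⟨0,[(0,0),(31,0)]⟩⟩,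
  ⟨false,1,⟨1,[(2,0),(0,0),(31,0)]⟩,⟨0,[]⟩⟩,⟨false,0,⟨3,[(2,1),(3,0),(0,0),(20,0)]⟩,⟨1,[(3,0),(27,
  0),(0,0),(2,0)]⟩⟩,⟨true,0,⟨0,[(33,0)]⟩,⟨0,[(32,0)]⟩⟩,[.a ⟨true,0,⟨0,[(0,0),(0,0),(30,0)]⟩,⟨3,[(2,
  0),(12,1),(1,1),(10,0),(2,0),(0,0),(2,0)]⟩⟩ ⟨false,0,⟨1,[(6,0),(0,0),(20,0),(3,1)]⟩,⟨1,[(2,0),(0,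
  0),(31,0)]⟩⟩ ⟨true,0,⟨0,[(0,0),(31,0)]⟩,⟨1,[(2,0),(28,0),(0,0)]⟩⟩,.o ⟨false,1,⟨5,[(0,1),(0,5),(1,
  1),(19,2),(7,1),(3,0)]⟩,⟨0,[(17,0)]⟩⟩,.a ⟨true,0,⟨0,[(1,0)]⟩,⟨15,[(2,2),(0,2),(4,7),(13,1),(1,1),
  (3,2)]⟩⟩ ⟨false,0,⟨0,[]⟩,⟨1,[(2,0),(0,0),(31,0)]⟩⟩ ⟨true,0,⟨0,[(0,0),(31,0)]⟩,⟨0,[(1,0),(15,0)]⟩⟩,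
  .a ⟨true,0,⟨0,[(18,0)]⟩,⟨0,[(15,0)]⟩⟩ ⟨true,0,⟨1,[(6,0),(0,0),(20,0),(3,1)]⟩,⟨1,[(18,0),(0,0)]⟩⟩
  ⟨false,1,⟨2,[(0,0),(2,0),(30,0),(0,0)]⟩,⟨1,[(2,0),(28,0),(0,0)]⟩⟩]⟩) (.S ⟨1,0,[0,1,1,1,0,0,0,-1],
  [1,1,-1],[1,0,1,0,0,0,0,-1],(⟨21,[(2,2),(0,2),(16,21),(1,3),(4,5),(0,2)]⟩,⟨0,[(10,0)]⟩),⟨0,[(20,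
  0)]⟩,.k,.k,⟨false,1,⟨0,[(32,0),(2,0)]⟩,⟨0,[(33,0)]⟩⟩,⟨true,0,⟨0,[(37,0)]⟩,⟨0,[]⟩⟩,⟨true,0,⟨0,[]⟩,
  ⟨0,[(37,0)]⟩⟩,⟨false,0,⟨0,[(33,0)]⟩,⟨0,[(32,0),(2,0)]⟩⟩,[.e ⟨false,0,⟨1,[(0,1),(5,0),(0,0),(20,0),
  (2,1)]⟩,⟨3,[(2,0),(0,2),(29,1),(0,0)]⟩⟩ ⟨false,0,⟨1,[(2,0),(27,0),(2,0)]⟩,⟨1,[(3,0),(2,1),(21,0),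
  (2,2),(0,0)]⟩⟩,.o ⟨false,0,⟨4,[(0,2),(5,0),(0,3),(7,2),(1,1),(10,0),(2,4)]⟩,⟨1,[(1,1),(1,0),(19,
  0),(7,0),(0,0)]⟩⟩,.e ⟨false,0,⟨1,[(0,1),(5,0),(0,0),(20,0),(2,3)]⟩,⟨3,[(2,0),(0,2),(29,1),(0,
  0)]⟩⟩ ⟨false,0,⟨3,[(2,1),(4,0),(0,0),(9,1)]⟩,⟨1,[(3,0),(2,1),(21,0),(2,2),(0,0)]⟩⟩,.a ⟨true,0,⟨15,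
  [(2,2),(0,2),(4,7),(13,1),(1,1),(3,2)]⟩,⟨0,[(1,0)]⟩⟩ ⟨true,0,⟨1,[(0,1),(5,0),(0,0),(20,0),(2,1)]⟩,
  ⟨1,[(3,0),(3,1),(20,0),(2,0),(0,2)]⟩⟩ ⟨false,0,⟨21,[(0,1),(1,9),(2,0),(0,4),(0,6),(14,1),(5,5),(2,
  1)]⟩,⟨1,[(3,0),(27,0),(0,0),(2,0)]⟩⟩]⟩))) (.Q [0,0,0,1,0,0,1,1,0,-1,1] (.p true [0,0,1] [1] (⟨0,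
  [(19,0)]⟩,⟨0,[(18,0)]⟩) .k 1 (⟨0,[]⟩,⟨0,[]⟩) .k .k) (.I [1,-1,0,-1,1,0,0,-1] (.I [0,1,1,1,-1,0,0,
  1] (.R ⟨2,true,false,false,[0,1],[1,0,-1],[0,1,1,1],(⟨0,[]⟩,⟨0,[]⟩),(⟨0,[(21,0)]⟩,⟨0,[(22,0)]⟩),
  ⟨0,[]⟩,.k,.k,.k,.k,.k,.k,⟨true,(-1),⟨0,[(0,0)]⟩,⟨0,[(1,0)]⟩⟩,⟨false,0,⟨5,[(9,2),(2,0),(0,0),(9,0),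
  (1,0),(3,0)]⟩,⟨0,[(7,0),(11,0)]⟩⟩,⟨true,0,⟨0,[(38,0)]⟩,⟨0,[]⟩⟩,⟨false,1,⟨5,[(1,5),(7,2),(2,0),(0,
  0),(9,0),(1,0),(3,0)]⟩,⟨0,[(2,0)]⟩⟩,⟨false,0,⟨0,[(34,0)]⟩,⟨2,[(1,1),(2,0),(27,0)]⟩⟩,⟨true,0,⟨9,
  [(6,1),(11,9),(4,3),(5,4),(2,3),(3,2)]⟩,⟨0,[(2,0),(30,0)]⟩⟩,[]⟩) (.I [0,0,0,0,1,0,0,0,-1] (.I [2,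
  0,-1,1] (.I [0,0,0,2,0,0,0,0,1] (.I [0,0,0,1,0,0,1,1] (.I [0,1,0,0,0,-1,-1,-1] (.I [3,0,0,4,-1]
  (.C [(0,0),(5,1),(2,0),(4,1),(20,0),(2,2),(0,4)]) (.C [(0,0),(13,1),(20,0)])) (.C [(0,0),(15,0),
  (6,0)])) (.C [(0,0),(5,0),(18,0)])) (.C [(0,0),(10,0),(4,0),(0,0)])) (.C [(0,1),(8,0),(0,0),(20,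
  0)])) (.C [(0,0),(12,0),(2,0)]))) (.I [0,0,0,0,1,0,0,0,-1] (.I [2,0,-1,1] (.I [0,0,0,2,0,0,0,0,1]
  (.I [0,0,-1,0,1,0,1] (.I [0,1,1,0,0,0,0,-1] (.C [(0,0),(4,0),(5,1),(21,0),(2,2),(0,0)]) (.C [(0,
  0),(21,0),(0,0)])) (.C [(0,0),(9,0),(11,0),(1,0)])) (.C [(0,0),(9,0),(4,0),(0,0)])) (.C [(0,1),(7,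
  0),(0,0),(20,0)])) (.C [(0,0),(11,0),(2,0)]))) (.S ⟨1,0,[0,1,1,1,0,0,0,-1],[1,1,-1],[1],(⟨22,[(10,
  2),(0,2),(7,22),(1,4),(4,5),(0,2)]⟩,⟨0,[(9,0)]⟩),⟨0,[(19,0)]⟩,.k,.k,⟨false,1,⟨3,[(1,1),(29,1),(1,
  0),(0,2)]⟩,⟨0,[(0,0),(5,0),(10,0)]⟩⟩,⟨true,0,⟨0,[(36,0)]⟩,⟨0,[]⟩⟩,⟨true,0,⟨3,[(1,1),(3,0),(0,0),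
  (20,0)]⟩,⟨0,[(16,0),(0,0)]⟩⟩,⟨false,0,⟨0,[(32,0)]⟩,⟨0,[(31,0),(2,0)]⟩⟩,[.o ⟨false,0,⟨0,[(16,0),
  (15,0)]⟩,⟨1,[(1,0),(3,1),(11,1),(12,2),(0,0)]⟩⟩,.o ⟨false,0,⟨0,[(0,0),(5,0)]⟩,⟨7,[(1,2),(0,0),(2,
  1),(11,7),(4,2),(8,3),(2,1)]⟩⟩,.a ⟨true,0,⟨0,[(14,0)]⟩,⟨0,[(17,0)]⟩⟩ ⟨true,0,⟨0,[]⟩,⟨0,[(36,0)]⟩⟩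
  ⟨false,0,⟨0,[(0,0),(5,0),(10,0)]⟩,⟨3,[(1,1),(29,1),(1,0),(0,2)]⟩⟩,.o ⟨false,0,⟨1,[(0,0),(0,0),(4,
  0),(9,0),(13,0)]⟩,⟨1,[(17,1),(4,0),(10,0)]⟩⟩]⟩)))))))

theorem ok0 : chk K t0 l0 = true := by decide +kernel

noncomputable def t1 : Tre :=
  (.Q [0,1,0,-1,0,0,1,1,0,0,1] (.p true [0,0,1] [] (⟨0,[(16,0)]⟩,⟨0,[(15,0)]⟩) .k 0 (⟨0,[]⟩,⟨0,[]⟩)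
  .k .k) (.Q [0,0,1,0,-1,0,-1,0,0,1,-1] (.p false [0,0,1] [1] (⟨0,[(17,0)]⟩,⟨0,[(16,0)]⟩) .k 1 (⟨0,
  []⟩,⟨0,[]⟩) .k .k) (.Q [0,-1,-1,-1,0,0,-1,0,0,1,-1] (.p false [0,0,1] [1] (⟨0,[(18,0)]⟩,⟨0,[(17,
  0)]⟩) .k 1 (⟨0,[]⟩,⟨0,[]⟩) .k .k) (.I [0,0,0,0,0,0,0,1] (.R ⟨1,false,false,false,[0,0,1],[1,-1],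
  [0,0,0,0,0,0,0,1],(⟨0,[(20,0)]⟩,⟨0,[(19,0)]⟩),(⟨0,[(23,0)]⟩,⟨0,[(24,0)]⟩),⟨0,[(9,0)]⟩,.k,.k,.k,.k,
  .k,.k,⟨false,0,⟨0,[(0,0),(31,0)]⟩,⟨1,[(1,1),(2,1),(12,1),(4,0),(10,0)]⟩⟩,⟨true,(-1),⟨0,[(2,0)]⟩,
  ⟨1,[(17,1),(4,0),(10,0)]⟩⟩,⟨false,1,⟨1,[(10,0),(0,0),(22,0)]⟩,⟨0,[]⟩⟩,⟨false,0,⟨0,[(1,0),(2,0),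
  (25,0)]⟩,⟨1,[(15,1),(6,0),(9,1),(1,0)]⟩⟩,⟨true,0,⟨0,[(32,0)]⟩,⟨0,[(31,0)]⟩⟩,⟨false,0,⟨0,[(1,0),(2,
  0),(25,0),(1,0)]⟩,⟨1,[(15,1),(6,0),(11,0)]⟩⟩,[.a ⟨true,0,⟨5,[(6,2),(3,0),(0,0),(9,0),(1,0),(3,
  0)]⟩,⟨0,[(32,0)]⟩⟩ ⟨true,0,⟨0,[(0,0)]⟩,⟨0,[(4,0),(25,0)]⟩⟩ ⟨false,0,⟨5,[(1,3),(4,0),(0,0),(21,
  1)]⟩,⟨1,[(17,1),(4,0),(9,1),(0,0)]⟩⟩,.e ⟨false,1,⟨1,[(0,1),(32,0),(0,0)]⟩,⟨0,[(4,0)]⟩⟩ ⟨false,0,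
  ⟨0,[(1,0)]⟩,⟨3,[(10,0),(0,0),(5,3),(4,1),(6,1),(2,3),(0,0)]⟩⟩,.o ⟨false,1,⟨1,[(17,1),(4,0),(10,
  0)]⟩,⟨0,[(5,0)]⟩⟩,.e ⟨false,1,⟨1,[(0,1),(32,0),(0,0)]⟩,⟨0,[(4,0),(25,0)]⟩⟩ ⟨false,0,⟨0,[(1,0)]⟩,
  ⟨1,[(10,0),(0,0),(5,1),(4,0),(9,1)]⟩⟩]⟩) (.S ⟨1,0,[0,1,0,0,0,0,0,1],[0,0,1],[0,0,0,0,0,0,0,1],(⟨0,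
  [(20,0)]⟩,⟨0,[(19,0)]⟩),⟨0,[(9,0)]⟩,.k,.k,⟨false,1,⟨1,[(10,0),(0,0),(22,0)]⟩,⟨0,[]⟩⟩,⟨true,0,⟨0,
  [(36,0)]⟩,⟨0,[]⟩⟩,⟨true,0,⟨0,[(32,0)]⟩,⟨0,[(31,0)]⟩⟩,⟨false,0,⟨0,[(32,0)]⟩,⟨3,[(6,1),(3,0),(0,0),
  (10,0),(11,1)]⟩⟩,[.a ⟨true,0,⟨0,[(15,0)]⟩,⟨1,[(0,1),(1,0),(11,0),(19,0)]⟩⟩ ⟨false,1,⟨1,[(14,1),(0,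
  1),(6,0),(11,0)]⟩,⟨0,[(0,0)]⟩⟩ ⟨true,0,⟨0,[(5,0),(9,0)]⟩,⟨0,[(0,0),(29,0)]⟩⟩,.o ⟨false,1,⟨1,[(15,
  1),(6,0),(11,0)]⟩,⟨0,[(0,0),(4,0)]⟩⟩,.o ⟨false,1,⟨1,[(17,1),(4,0),(10,0)]⟩,⟨0,[(5,0)]⟩⟩,.e ⟨false,
  1,⟨1,[(1,1),(13,1),(6,0),(9,1),(1,0)]⟩,⟨1,[(0,0),(15,0),(0,0),(12,0)]⟩⟩ ⟨false,1,⟨1,[(14,1),(0,1),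
  (6,0),(11,0)]⟩,⟨0,[(0,0),(29,0)]⟩⟩]⟩)) (.I [0,0,-2,-2,1,0,0,1] (.I [1,-1,-1,0,1,0,0,-1] (.I [1,0,
  0,-1,0,0,0,1] (.Q [0,1,0,1,0,0,0,0,0,-1] (.pp true [-1,1]) (.R ⟨0,false,false,false,[1,0,-1],[1,
  -1],[],(⟨0,[(22,0)]⟩,⟨0,[(23,0)]⟩),(⟨0,[(26,0)]⟩,⟨0,[(27,0)]⟩),⟨0,[(11,0)]⟩,.k,.k,.k,.k,.k,.k,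
  ⟨false,0,⟨0,[(35,0)]⟩,⟨2,[(2,0),(0,0),(9,0),(0,0),(19,0)]⟩⟩,⟨true,0,⟨0,[(20,0)]⟩,⟨0,[(8,0)]⟩⟩,
  ⟨true,0,⟨0,[(1,0),(33,0)]⟩,⟨0,[(7,0)]⟩⟩,⟨false,1,⟨0,[(6,0),(30,0)]⟩,⟨0,[(0,0),(1,0),(2,0)]⟩⟩,
  ⟨false,0,⟨0,[]⟩,⟨0,[]⟩⟩,⟨false,0,⟨0,[]⟩,⟨0,[]⟩⟩,[.e ⟨false,1,⟨1,[(13,0),(0,0),(21,0)]⟩,⟨0,[]⟩⟩
  ⟨false,1,⟨0,[(2,0),(3,0)]⟩,⟨0,[(8,0),(26,0)]⟩⟩,.o ⟨false,1,⟨3,[(9,1),(3,0),(0,0),(10,0),(11,1)]⟩,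
  ⟨0,[(0,0)]⟩⟩,.o ⟨false,0,⟨0,[(8,0)]⟩,⟨5,[(2,1),(0,1),(0,3),(15,1),(4,0),(11,0)]⟩⟩,.a ⟨true,(-1),
  ⟨0,[(5,0)]⟩,⟨0,[(2,0),(15,0)]⟩⟩ ⟨false,1,⟨1,[(36,0),(0,0)]⟩,⟨1,[(20,0),(0,0)]⟩⟩ ⟨true,1,⟨0,[(2,0),
  (3,0)]⟩,⟨0,[(0,0),(4,0)]⟩⟩]⟩) (.Q [0,0,0,0,0,0,1,1,0,0,1] (.p true [0,0,1] [] (⟨0,[(23,0)]⟩,⟨0,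
  [(22,0)]⟩) .k 0 (⟨0,[]⟩,⟨0,[]⟩) .k .k) (.Q [0,1,-1,-1,0,0,0,-1,0,1] (.pp false [-1,1]) (.R ⟨0,
  false,false,true,[1,0,-1],[2,-1,-1],[1,0,0,0,0,0,0,-1],(⟨0,[(24,0)]⟩,⟨0,[(25,0)]⟩),(⟨0,[(24,0),(3,
  0)]⟩,⟨0,[(13,0)]⟩),⟨0,[(13,0)]⟩,.k,.k,.k,.k,.k,.k,⟨true,0,⟨0,[(35,0),(1,0)]⟩,⟨0,[(36,0)]⟩⟩,⟨false,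
  0,⟨2,[(15,0),(0,0),(9,0),(1,0),(3,0)]⟩,⟨1,[(27,0),(10,0)]⟩⟩,⟨true,0,⟨0,[]⟩,⟨0,[(41,0)]⟩⟩,⟨false,0,
  ⟨5,[(11,2),(3,0),(0,0),(9,0),(1,0),(3,0)]⟩,⟨1,[(27,0),(9,1),(1,0)]⟩⟩,⟨false,0,⟨0,[]⟩,⟨0,[]⟩⟩,
  ⟨false,0,⟨0,[]⟩,⟨0,[]⟩⟩,[.e ⟨false,1,⟨3,[(4,2),(4,0),(5,0),(0,0),(17,0)]⟩,⟨0,[(1,0),(8,0)]⟩⟩
  ⟨false,0,⟨0,[(0,0)]⟩,⟨1,[(1,1),(8,1),(16,0),(9,1),(1,0)]⟩⟩,.o ⟨false,0,⟨1,[(4,0),(2,0),(3,0),(9,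
  0)]⟩,⟨0,[(1,0),(25,0),(9,0)]⟩⟩,.o ⟨false,0,⟨0,[(10,0)]⟩,⟨5,[(4,1),(0,1),(0,3),(15,1),(4,0),(11,
  0)]⟩⟩,.a ⟨true,(-1),⟨0,[(7,0)]⟩,⟨0,[(4,0),(15,0)]⟩⟩ ⟨false,1,⟨0,[(4,0)]⟩,⟨0,[(1,0),(21,0)]⟩⟩
  ⟨true,0,⟨0,[(0,0)]⟩,⟨0,[(1,0),(5,0),(19,0),(9,0)]⟩⟩]⟩) (.R ⟨0,false,false,false,[-1,1,1],[0,1],[1,
  0,1,1,0,0,0,1],(⟨0,[(13,0)]⟩,⟨0,[(24,0),(3,0)]⟩),(⟨0,[(29,0)]⟩,⟨0,[(28,0)]⟩),⟨0,[(24,0)]⟩,.k,.k,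
  .k,.k,.k,.k,⟨true,0,⟨2,[(0,0),(2,0),(15,0),(0,0)]⟩,⟨0,[(0,0),(1,0),(6,1)]⟩⟩,⟨false,0,⟨0,[(19,0)]⟩,
  ⟨5,[(4,1),(0,1),(0,3),(15,1),(4,0),(11,0)]⟩⟩,⟨true,0,⟨0,[]⟩,⟨0,[(41,0)]⟩⟩,⟨false,0,⟨0,[(4,0),(2,
  0)]⟩,⟨1,[(20,1),(6,0),(11,0)]⟩⟩,⟨false,0,⟨0,[]⟩,⟨0,[]⟩⟩,⟨false,0,⟨0,[]⟩,⟨0,[]⟩⟩,[.a ⟨true,0,⟨0,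
  [(37,0)]⟩,⟨5,[(11,2),(3,0),(0,0),(9,0),(1,0),(3,0)]⟩⟩ ⟨false,0,⟨1,[(0,0),(18,0),(0,0),(16,0)]⟩,⟨0,
  [(4,0),(31,0)]⟩⟩ ⟨true,(-1),⟨0,[(7,0),(29,0)]⟩,⟨0,[(1,0),(0,0),(6,0),(17,0)]⟩⟩,.o ⟨false,1,⟨1,
  [(27,0),(9,1),(1,0)]⟩,⟨0,[(36,0)]⟩⟩,.o ⟨false,2,⟨3,[(4,1),(0,1),(0,3),(20,1),(10,0),(0,0)]⟩,⟨0,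
  [(7,0)]⟩⟩,.e ⟨false,0,⟨1,[(0,1),(31,0),(5,0)]⟩,⟨3,[(4,1),(6,1),(3,0),(0,0),(4,1),(0,1),(4,0)]⟩⟩
  ⟨false,0,⟨1,[(7,0),(11,0),(17,1),(1,0)]⟩,⟨0,[(1,0),(0,0),(6,0),(17,0)]⟩⟩]⟩)) (.R ⟨1,false,false,
  false,[0,0,1],[1,-1],[0,0,0,0,0,0,0,1],(⟨0,[(24,0)]⟩,⟨0,[(23,0)]⟩),(⟨0,[(27,0)]⟩,⟨0,[(28,0)]⟩),⟨0,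
  [(13,0)]⟩,.k,.k,.k,.k,.k,.k,⟨false,0,⟨0,[(2,0),(33,1)]⟩,⟨0,[(3,0),(31,0)]⟩⟩,⟨true,(-1),⟨0,[(6,
  0)]⟩,⟨5,[(3,1),(0,1),(0,3),(15,1),(4,0),(11,0)]⟩⟩,⟨false,1,⟨1,[(14,0),(0,0),(22,0)]⟩,⟨0,[]⟩⟩,
  ⟨false,0,⟨0,[(0,0),(0,0)]⟩,⟨1,[(19,1),(6,0),(9,1),(1,0)]⟩⟩,⟨true,0,⟨0,[(36,0)]⟩,⟨0,[(35,0)]⟩⟩,
  ⟨false,0,⟨0,[(3,0),(2,0)]⟩,⟨1,[(19,1),(6,0),(11,0)]⟩⟩,[.a ⟨true,0,⟨5,[(10,2),(3,0),(0,0),(9,0),(1,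
  0),(3,0)]⟩,⟨0,[(36,0)]⟩⟩ ⟨true,0,⟨0,[(2,0),(33,0)]⟩,⟨0,[(0,0),(20,0)]⟩⟩ ⟨false,0,⟨3,[(0,1),(3,1),
  (1,1),(24,0),(5,0)]⟩,⟨1,[(5,1),(31,0),(0,0)]⟩⟩,.a ⟨true,0,⟨0,[(1,0)]⟩,⟨11,[(5,3),(5,1),(2,0),(0,
  0),(15,0),(1,3),(2,7)]⟩⟩ ⟨false,1,⟨1,[(2,0),(1,0),(31,2),(1,0)]⟩,⟨0,[(8,0)]⟩⟩ ⟨true,0,⟨2,[(0,0),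
  (0,0),(2,0),(1,1),(31,0)]⟩,⟨0,[(5,0)]⟩⟩,.o ⟨false,1,⟨5,[(3,1),(0,1),(0,3),(15,1),(4,0),(11,0)]⟩,
  ⟨0,[(9,0)]⟩⟩,.a ⟨true,0,⟨0,[(21,0)]⟩,⟨0,[(18,0)]⟩⟩ ⟨false,1,⟨1,[(2,0),(1,0),(31,2),(1,0)]⟩,⟨0,[(0,
  0),(20,0)]⟩⟩ ⟨true,0,⟨3,[(0,1),(3,1),(1,1),(24,0),(5,0)]⟩,⟨0,[(5,0)]⟩⟩]⟩))) (.S ⟨1,0,[0,0,1,1,0,0,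
  0,-1],[1,1,-1],[0,1,1,1,0,0,0,-1],(⟨22,[(12,2),(0,2),(7,22),(1,4),(4,5),(0,2)]⟩,⟨0,[(11,0)]⟩),⟨0,
  [(21,0)]⟩,.k,.k,⟨true,0,⟨0,[(38,0)]⟩,⟨0,[]⟩⟩,⟨false,1,⟨1,[(12,0),(0,0),(22,0)]⟩,⟨0,[]⟩⟩,⟨false,0,
  ⟨0,[(34,0)]⟩,⟨3,[(8,1),(3,0),(0,0),(10,0),(11,1)]⟩⟩,⟨true,0,⟨0,[(34,0)]⟩,⟨0,[(33,0)]⟩⟩,[.o ⟨false,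
  0,⟨0,[(0,0),(6,0)]⟩,⟨1,[(5,1),(18,0),(11,0)]⟩⟩,.a ⟨true,0,⟨1,[(0,1),(3,0),(11,0),(19,0)]⟩,⟨0,[(5,
  0)]⟩⟩ ⟨false,0,⟨0,[(0,0)]⟩,⟨7,[(2,3),(6,1),(2,0),(0,0),(3,3),(6,0),(11,1)]⟩⟩ ⟨true,0,⟨0,[(0,0),
  (31,0)]⟩,⟨0,[(5,0),(1,0)]⟩⟩,.e ⟨false,0,⟨1,[(0,1),(18,0),(0,0)]⟩,⟨0,[(2,0),(29,0),(1,0)]⟩⟩ ⟨false,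
  0,⟨0,[(0,0),(31,0)]⟩,⟨7,[(2,3),(6,1),(2,0),(0,0),(3,3),(6,0),(11,1)]⟩⟩,.o ⟨false,0,⟨0,[(7,0)]⟩,⟨5,
  [(1,1),(0,1),(0,3),(15,1),(4,0),(11,0)]⟩⟩]⟩)) (.Q [0,1,0,-1,-1,0,-1,-1,0,2,-1] (.p false [-1,1,1]
  [1] (⟨0,[(9,0)]⟩,⟨0,[(20,0),(3,0)]⟩) .k 1 (⟨0,[]⟩,⟨0,[]⟩) .k .k) (.Q [0,-1,0,0,1,0,1,1,0,-1,1]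
  (.p true [0,0,1] [1] (⟨0,[(22,0)]⟩,⟨0,[(21,0)]⟩) .k 1 (⟨0,[]⟩,⟨0,[]⟩) .k .k) (.Q [0,0,1,-1,-1,0,
  -1,0,0,1,-1] (.p false [0,0,1] [1] (⟨0,[(23,0)]⟩,⟨0,[(22,0)]⟩) .k 1 (⟨0,[]⟩,⟨0,[]⟩) .k .k) (.R ⟨0,
  false,false,false,[1,0,-1],[0,1],[1,1,1],(⟨0,[(23,0)]⟩,⟨0,[(24,0)]⟩),(⟨0,[(28,0)]⟩,⟨0,[(27,0)]⟩),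
  ⟨0,[(12,0)]⟩,.k,.k,.k,.k,.k,.k,⟨true,0,⟨0,[(35,0)]⟩,⟨0,[(34,0),(1,0)]⟩⟩,⟨false,2,⟨0,[(1,0),(6,0),
  (28,0)]⟩,⟨0,[(6,0)]⟩⟩,⟨true,(-1),⟨0,[(3,0)]⟩,⟨1,[(8,1),(28,0),(0,0)]⟩⟩,⟨false,1,⟨0,[(1,0),(34,
  0)]⟩,⟨1,[(2,1),(23,0),(11,0)]⟩⟩,⟨false,0,⟨0,[]⟩,⟨0,[]⟩⟩,⟨false,0,⟨0,[]⟩,⟨0,[]⟩⟩,[.a ⟨true,0,⟨0,
  [(36,0)]⟩,⟨5,[(10,2),(3,0),(0,0),(9,0),(1,0),(3,0)]⟩⟩ ⟨false,0,⟨0,[(40,0)]⟩,⟨1,[(37,0),(0,0)]⟩⟩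
  ⟨true,1,⟨1,[(5,1),(31,0),(0,0)]⟩,⟨0,[(0,0)]⟩⟩,.o ⟨false,1,⟨1,[(26,0),(9,1),(1,0)]⟩,⟨0,[(35,0)]⟩⟩,
  .o ⟨false,0,⟨0,[(9,0)]⟩,⟨0,[(1,0),(6,0)]⟩⟩,.e ⟨false,0,⟨0,[]⟩,⟨1,[(14,0),(0,0),(22,0)]⟩⟩ ⟨false,2,
  ⟨0,[(5,0),(31,0),(0,0)]⟩,⟨0,[(0,0)]⟩⟩]⟩) (.R ⟨0,false,false,false,[1,0,-1],[0,1],[1,1,1],(⟨0,[(23,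
  0)]⟩,⟨0,[(24,0)]⟩),(⟨0,[(28,0)]⟩,⟨0,[(27,0)]⟩),⟨0,[(12,0)]⟩,.k,.k,.k,.k,.k,.k,⟨true,0,⟨0,[(35,
  0)]⟩,⟨0,[(34,0),(1,0)]⟩⟩,⟨false,2,⟨5,[(0,7),(3,1),(5,1),(3,0),(0,0),(4,1),(17,0)]⟩,⟨0,[(6,0)]⟩⟩,
  ⟨true,(-1),⟨0,[(3,0)]⟩,⟨1,[(8,1),(28,0),(0,0)]⟩⟩,⟨false,1,⟨0,[(1,0),(34,0)]⟩,⟨1,[(2,1),(23,0),(11,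
  0)]⟩⟩,⟨false,0,⟨0,[]⟩,⟨0,[]⟩⟩,⟨false,0,⟨0,[]⟩,⟨0,[]⟩⟩,[.e ⟨false,0,⟨0,[(40,0)]⟩,⟨1,[(37,0),(0,
  0)]⟩⟩ ⟨false,1,⟨0,[(0,0)]⟩,⟨1,[(10,0),(0,0)]⟩⟩,.o ⟨false,1,⟨1,[(26,0),(9,1),(1,0)]⟩,⟨0,[(35,0)]⟩⟩,
  .o ⟨false,0,⟨0,[(9,0)]⟩,⟨7,[(0,3),(9,1),(3,0),(0,0),(5,3),(4,2)]⟩⟩,.a ⟨true,(-1),⟨0,[(6,0)]⟩,⟨6,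
  [(0,3),(9,1),(3,0),(0,0),(5,2),(9,0),(5,2)]⟩⟩ ⟨false,0,⟨0,[]⟩,⟨1,[(14,0),(0,0),(22,0)]⟩⟩ ⟨true,1,
  ⟨0,[(0,0)]⟩,⟨1,[(3,0),(2,0),(3,0),(9,0)]⟩⟩]⟩)) (.Q [0,-1,0,1,1,0,1,1,0,-1,1] (.p true [0,0,1] [1]
  (⟨0,[(23,0)]⟩,⟨0,[(22,0)]⟩) .k 1 (⟨0,[]⟩,⟨0,[]⟩) .k .k) (.R ⟨2,true,false,true,[0,1],[1,0,-1],[1,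
  1,1],(⟨0,[]⟩,⟨0,[]⟩),(⟨0,[(23,0)]⟩,⟨0,[(24,0)]⟩),⟨0,[]⟩,.k,.k,.k,.k,.k,.k,⟨false,0,⟨4,[(0,1),(2,
  1),(0,0),(1,0),(11,0)]⟩,⟨1,[(8,1),(28,0),(0,0)]⟩⟩,⟨true,(-1),⟨0,[(6,0)]⟩,⟨1,[(21,1),(4,0),(10,
  0)]⟩⟩,⟨true,0,⟨0,[(35,0)]⟩,⟨0,[(36,0)]⟩⟩,⟨false,0,⟨1,[(1,0),(8,0),(9,0),(17,0)]⟩,⟨0,[(0,0)]⟩⟩,
  ⟨false,0,⟨0,[]⟩,⟨1,[(14,0),(0,0),(22,0)]⟩⟩,⟨true,(-1),⟨0,[(1,0)]⟩,⟨3,[(0,1),(6,1),(6,0),(0,0),(10,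
  0)]⟩⟩,[]⟩) (.R ⟨0,false,false,true,[-1,1,1],[0,0,1],[],(⟨0,[(12,0)]⟩,⟨0,[(23,0),(3,0)]⟩),(⟨0,[(24,
  0)]⟩,⟨0,[(23,0)]⟩),⟨0,[(23,0)]⟩,.k,.k,.k,.k,.k,.k,⟨true,1,⟨0,[(8,0),(29,0)]⟩,⟨0,[(3,0)]⟩⟩,⟨false,
  0,⟨2,[(14,0),(0,0),(9,0),(1,0),(3,0)]⟩,⟨1,[(26,0),(10,0)]⟩⟩,⟨true,1,⟨1,[(0,1),(20,1),(4,0),(10,1),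
  (0,0)]⟩,⟨0,[(3,0),(32,0)]⟩⟩,⟨false,0,⟨5,[(10,2),(3,0),(0,0),(9,0),(1,0),(3,0)]⟩,⟨1,[(26,0),(9,1),
  (1,0)]⟩⟩,⟨false,0,⟨0,[]⟩,⟨0,[]⟩⟩,⟨false,0,⟨0,[]⟩,⟨0,[]⟩⟩,[.e ⟨false,1,⟨1,[(14,0),(0,0),(21,0)]⟩,
  ⟨0,[]⟩⟩ ⟨false,(-1),⟨1,[(3,1),(27,0),(5,0)]⟩,⟨1,[(8,1),(17,0),(10,0),(0,1)]⟩⟩,.o ⟨false,1,⟨1,[(19,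
  1),(6,0),(11,0)]⟩,⟨1,[(1,1),(24,0),(11,0)]⟩⟩,.o ⟨false,2,⟨0,[(21,0),(4,0),(10,0)]⟩,⟨0,[(6,0)]⟩⟩,
  .a ⟨true,1,⟨1,[(21,1),(4,0),(10,0)]⟩,⟨1,[(0,0),(2,0),(14,0),(12,0),(4,0),(1,0)]⟩⟩ ⟨false,1,⟨1,
  [(37,0),(0,0)]⟩,⟨1,[(21,0),(0,0)]⟩⟩ ⟨true,(-1),⟨1,[(3,1),(27,0),(5,0)]⟩,⟨1,[(8,1),(17,0),(11,
  0)]⟩⟩]⟩))) (.Q [0,0,0,-1,0,0,-1,-1,0,1,-1] (.p false [0,0,1] [1] (⟨0,[(22,0)]⟩,⟨0,[(21,0)]⟩) .k 1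
  (⟨0,[]⟩,⟨0,[]⟩) .k .k) (.R ⟨0,false,false,true,[1,0,-1],[2,-1,-1],[1,0,0,0,0,0,0,-1],(⟨0,[(22,
  0)]⟩,⟨0,[(23,0)]⟩),(⟨0,[(22,0),(3,0)]⟩,⟨0,[(11,0)]⟩),⟨0,[(11,0)]⟩,.k,.k,.k,.k,.k,.k,⟨true,0,⟨0,
  [(33,0),(1,0)]⟩,⟨0,[(34,0)]⟩⟩,⟨false,0,⟨2,[(13,0),(0,0),(9,0),(1,0),(3,0)]⟩,⟨1,[(25,0),(10,0)]⟩⟩,
  ⟨true,0,⟨0,[]⟩,⟨0,[(39,0)]⟩⟩,⟨false,0,⟨5,[(9,2),(3,0),(0,0),(9,0),(1,0),(3,0)]⟩,⟨1,[(1,0),(17,0),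
  (15,0),(1,0)]⟩⟩,⟨false,0,⟨0,[]⟩,⟨0,[]⟩⟩,⟨false,0,⟨0,[]⟩,⟨0,[]⟩⟩,[.o ⟨false,0,⟨0,[(0,0),(38,0)]⟩,
  ⟨0,[(1,0)]⟩⟩,.o ⟨false,0,⟨0,[(0,0)]⟩,⟨19,[(1,15),(2,3),(5,1),(2,0),(0,0),(3,3),(6,2),(6,3)]⟩⟩,.o
  ⟨false,0,⟨0,[(8,0)]⟩,⟨1,[(20,1),(4,0),(10,0)]⟩⟩,.a ⟨true,(-1),⟨0,[(5,0)]⟩,⟨0,[(20,0),(15,0)]⟩⟩
  ⟨true,1,⟨1,[(7,1),(28,0),(0,0)]⟩,⟨0,[(2,0)]⟩⟩ ⟨false,1,⟨0,[(0,0),(19,0),(15,0)]⟩,⟨0,[(1,0),(3,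
  0)]⟩⟩]⟩) (.R ⟨2,true,false,true,[0,1],[1,0,-1],[1,1,1,0,0,0,0,-1],(⟨0,[]⟩,⟨0,[]⟩),(⟨0,[(22,0)]⟩,
  ⟨0,[(23,0)]⟩),⟨0,[]⟩,.k,.k,.k,.k,.k,.k,⟨false,0,⟨0,[]⟩,⟨1,[(13,0),(0,0),(21,0)]⟩⟩,⟨true,(-1),⟨0,
  [(5,0)]⟩,⟨1,[(20,1),(4,0),(10,0)]⟩⟩,⟨false,1,⟨3,[(7,3),(1,1),(3,0),(0,0),(10,0),(11,1)]⟩,⟨1,[(0,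
  1),(4,0),(11,0),(19,0)]⟩⟩,⟨true,0,⟨1,[(7,1),(1,0),(0,0)]⟩,⟨0,[(0,0)]⟩⟩,⟨true,0,⟨0,[(7,0)]⟩,⟨16,
  [(0,5),(1,5),(0,2),(6,3),(7,1),(11,0),(6,3)]⟩⟩,⟨false,0,⟨5,[(5,1),(1,3),(9,1),(1,1),(10,0),(6,
  2)]⟩,⟨1,[(1,0),(4,0),(30,0)]⟩⟩,[]⟩)))) (.I [0,0,2,2,-1,0,0,-1] (.I [1,1,-2,-2,1,0,0,1] (.Q [0,-1,
  0,2,0,0,-1,-1,0,0,-1] (.p false [0,0,1] [] (⟨0,[(22,0)]⟩,⟨0,[(21,0)]⟩) .k 0 (⟨0,[]⟩,⟨0,[]⟩) .k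
  .k) (.R ⟨1,true,false,false,[0,0,1],[0,1],[1,0,0,-1,0,0,0,1],(⟨0,[(23,0)]⟩,⟨0,[(22,0)]⟩),(⟨0,[(27,
  0)]⟩,⟨0,[(26,0)]⟩),⟨0,[(12,0)]⟩,.k,.k,.k,.k,(.r (-2) ⟨1,[(1,1),(11,0),(0,0),(22,0)]⟩ ⟨0,[(2,0)]⟩),
  .k,⟨true,1,⟨0,[(1,0),(31,0)]⟩,⟨0,[(2,0)]⟩⟩,⟨false,1,⟨1,[(17,1),(7,0),(10,0)]⟩,⟨0,[(20,0)]⟩⟩,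
  ⟨false,1,⟨3,[(9,1),(3,0),(0,0),(10,0),(11,1)]⟩,⟨0,[(35,0)]⟩⟩,⟨true,0,⟨1,[(0,0),(18,0)]⟩,⟨0,[(6,
  0)]⟩⟩,⟨true,0,⟨0,[]⟩,⟨0,[(39,0)]⟩⟩,⟨false,0,⟨0,[(0,0)]⟩,⟨5,[(1,1),(4,3),(2,1),(10,2),(0,0),(3,0),
  (11,2)]⟩⟩,[]⟩) (.Q [0,1,0,0,-1,0,-1,-1,0,1,-1] (.p false [0,0,1] [1] (⟨0,[(23,0)]⟩,⟨0,[(22,0)]⟩)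
  .k 1 (⟨0,[]⟩,⟨0,[]⟩) .k .k) (.Q [0,0,0,-1,-1,0,-1,-1,0,2,-1] (.p false [-1,1,1] [1] (⟨0,[(12,0)]⟩,
  ⟨0,[(23,0),(3,0)]⟩) .k 1 (⟨0,[]⟩,⟨0,[]⟩) .k .k) (.Q [0,-1,0,-1,0,0,0,0,0,1] (.pp false [-1,1])
  (.I [1,0,-2,-1,1] (.R ⟨1,false,false,false,[0,0,1],[1,-1],[1,1,0,-1,0,0,0,1],(⟨0,[(27,0)]⟩,⟨0,
  [(26,0)]⟩),(⟨0,[(30,0)]⟩,⟨0,[(31,0)]⟩),⟨0,[(16,0)]⟩,.k,.k,.k,.k,.k,.k,⟨false,0,⟨0,[(12,0),(9,0)]⟩,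
  ⟨3,[(0,5),(0,1),(4,3),(22,0),(11,0)]⟩⟩,⟨true,(-1),⟨0,[(9,0)]⟩,⟨3,[(0,1),(7,1),(15,1),(4,0),(11,
  0)]⟩⟩,⟨true,0,⟨0,[(38,0)]⟩,⟨0,[(39,0)]⟩⟩,⟨false,0,⟨1,[(2,1),(26,0),(11,0)]⟩,⟨1,[(22,1),(6,0),(9,
  1),(1,0)]⟩⟩,⟨false,0,⟨0,[]⟩,⟨1,[(17,0),(0,0),(22,0)]⟩⟩,⟨false,0,⟨0,[(3,0),(37,0)]⟩,⟨1,[(22,1),(6,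
  0),(11,0)]⟩⟩,[.a ⟨true,0,⟨5,[(13,2),(3,0),(0,0),(9,0),(1,0),(3,0)]⟩,⟨0,[(39,0)]⟩⟩ ⟨true,0,⟨5,[(4,
  0),(0,1),(3,3),(12,2),(6,1)]⟩,⟨3,[(0,1),(0,1),(4,3),(22,0),(11,0)]⟩⟩ ⟨false,0,⟨0,[(0,0),(8,0)]⟩,
  ⟨1,[(8,1),(31,0),(0,0)]⟩⟩,.a ⟨true,0,⟨0,[(1,0)]⟩,⟨11,[(8,3),(5,1),(2,0),(0,0),(15,0),(1,3),(2,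
  7)]⟩⟩ ⟨false,1,⟨1,[(5,0),(6,0),(9,0),(18,0)]⟩,⟨0,[(0,0),(5,0)]⟩⟩ ⟨true,0,⟨0,[(1,0),(10,0)]⟩,⟨0,
  [(8,0)]⟩⟩,.o ⟨false,1,⟨3,[(0,1),(7,1),(15,1),(4,0),(11,0)]⟩,⟨0,[(12,0)]⟩⟩,.a ⟨true,0,⟨0,[(24,0)]⟩,
  ⟨0,[(21,0)]⟩⟩ ⟨false,1,⟨1,[(5,0),(6,0),(9,0),(18,0)]⟩,⟨3,[(0,1),(0,1),(4,3),(22,0),(11,0)]⟩⟩
  ⟨true,0,⟨0,[(0,0),(8,0)]⟩,⟨0,[(8,0)]⟩⟩]⟩) (.I [0,-1,1,0,0,0,0,1] (.R ⟨0,false,false,true,[1,0,-1],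
  [1,-1],[0,0,1],(⟨0,[(27,0)]⟩,⟨0,[(28,0)]⟩),(⟨0,[(31,0)]⟩,⟨0,[(32,0)]⟩),⟨0,[(16,0)]⟩,.k,.k,.k,.k,
  .k,.k,⟨false,0,⟨2,[(0,0),(6,0),(32,0),(1,0)]⟩,⟨1,[(6,0),(5,0),(28,0)]⟩⟩,⟨true,0,⟨0,[(25,0)]⟩,⟨0,
  [(13,0)]⟩⟩,⟨false,0,⟨0,[(0,0)]⟩,⟨1,[(12,1),(28,0),(0,0)]⟩⟩,⟨true,0,⟨0,[(11,0)]⟩,⟨3,[(4,1),(2,1),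
  (14,1),(7,1),(10,0),(0,0)]⟩⟩,⟨false,0,⟨0,[]⟩,⟨0,[]⟩⟩,⟨false,0,⟨0,[]⟩,⟨0,[]⟩⟩,[.o ⟨false,0,⟨0,[(39,
  0)]⟩,⟨1,[(30,0),(9,1),(1,0)]⟩⟩,.a ⟨true,0,⟨5,[(14,2),(3,0),(0,0),(9,0),(1,0),(3,0)]⟩,⟨0,[(40,
  0)]⟩⟩ ⟨true,0,⟨1,[(1,1),(0,1),(33,0),(4,0)]⟩,⟨0,[(44,0)]⟩⟩ ⟨false,1,⟨1,[(2,1),(2,1),(1,1),(22,0),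
  (10,2)]⟩,⟨0,[(13,0),(26,0)]⟩⟩,.o ⟨false,0,⟨0,[(13,0)]⟩,⟨1,[(25,1),(4,0),(10,0)]⟩⟩,.e ⟨false,1,⟨1,
  [(18,0),(0,0),(22,0)]⟩,⟨0,[]⟩⟩ ⟨false,1,⟨1,[(2,1),(2,1),(1,1),(22,0),(10,2)]⟩,⟨2,[(0,0),(6,0),(5,
  2),(26,0),(1,0)]⟩⟩]⟩) (.Q [0,0,0,0,0,-2,0,0,0,1] (.pp false [-1,1]) (.S ⟨1,0,[0,1,-1,-1],[1,-1],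
  [0,0,-1,-1],(⟨0,[(32,0)]⟩,⟨0,[(33,0)]⟩),⟨0,[(0,0)]⟩,.k,(.r (-2) ⟨0,[(7,0),(5,0),(29,0)]⟩ ⟨0,[(2,
  0),(38,0)]⟩),⟨false,1,⟨1,[(19,0),(0,0),(22,0)]⟩,⟨0,[]⟩⟩,⟨true,0,⟨0,[(45,0)]⟩,⟨0,[]⟩⟩,⟨true,0,⟨0,
  [(41,0)]⟩,⟨0,[(40,0)]⟩⟩,⟨false,0,⟨0,[(41,0)]⟩,⟨3,[(15,1),(3,0),(0,0),(10,0),(11,1)]⟩⟩,[.o ⟨false,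
  0,⟨0,[(40,0)]⟩,⟨1,[(31,0),(9,1),(1,0)]⟩⟩,.e ⟨true,1,⟨1,[(3,1),(27,0),(10,0)]⟩,⟨0,[(10,0),(0,0)]⟩⟩
  ⟨true,1,⟨1,[(7,0),(5,0),(29,0)]⟩,⟨0,[(2,0)]⟩⟩,.o ⟨false,0,⟨1,[(26,0),(0,0)]⟩,⟨1,[(31,0),(10,0)]⟩⟩,
  .a ⟨true,(-1),⟨0,[(11,0),(14,0)]⟩,⟨0,[(42,0)]⟩⟩ ⟨false,2,⟨1,[(7,0),(5,0),(28,0),(0,1)]⟩,⟨0,[(2,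
  0)]⟩⟩ ⟨true,1,⟨1,[(7,0),(5,0),(28,0)]⟩,⟨0,[(2,0)]⟩⟩]⟩) (.R ⟨0,false,false,false,[1,-1],[1,0,-1],
  [1,1],(⟨0,[(32,0)]⟩,⟨0,[(33,0)]⟩),(⟨0,[(28,0)]⟩,⟨0,[(29,0)]⟩),⟨0,[(0,0)]⟩,.k,.k,(.r (-2) ⟨0,[(7,
  0),(5,0),(29,0)]⟩ ⟨0,[(2,0),(38,0)]⟩),.k,.k,.k,⟨true,0,⟨0,[(14,0),(9,0)]⟩,⟨2,[(1,0),(1,3),(4,1),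
  (22,1)]⟩⟩,⟨false,1,⟨1,[(23,1),(7,0),(10,0)]⟩,⟨0,[(26,0)]⟩⟩,⟨false,0,⟨2,[(8,0),(1,0),(5,0),(7,0),
  (18,0)]⟩,⟨1,[(3,1),(27,0),(10,0)]⟩⟩,⟨true,0,⟨3,[(1,0),(3,0),(2,1),(14,2),(7,1),(11,0)]⟩,⟨0,[(12,
  0)]⟩⟩,⟨false,0,⟨0,[]⟩,⟨0,[]⟩⟩,⟨false,0,⟨0,[]⟩,⟨0,[]⟩⟩,[.o ⟨false,0,⟨1,[(5,1),(25,0),(11,0)]⟩,⟨1,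
  [(24,1),(6,0),(11,0)]⟩⟩,.e ⟨true,0,⟨0,[]⟩,⟨1,[(26,0),(0,0)]⟩⟩ ⟨true,1,⟨1,[(1,0),(3,0),(17,0),(7,
  0),(11,1)]⟩,⟨1,[(2,1),(3,0),(17,0)]⟩⟩,.o ⟨false,0,⟨1,[(26,0),(0,0)]⟩,⟨1,[(31,0),(10,0)]⟩⟩,.a
  ⟨true,(-1),⟨0,[(11,0),(14,0)]⟩,⟨0,[(42,0)]⟩⟩ ⟨false,1,⟨1,[(19,0),(0,0),(21,0)]⟩,⟨1,[(2,1),(0,1),
  (33,0),(4,0)]⟩⟩ ⟨true,1,⟨1,[(1,1),(21,1),(7,0),(11,0)]⟩,⟨1,[(2,1),(3,0),(17,0)]⟩⟩]⟩)))) (.Q [0,0,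
  -1,-1,0,0,0,-1,0,1] (.pp false [-1,1]) (.R ⟨0,false,false,false,[1,0,-1],[2,-1,-1],[1,1,1],(⟨0,
  [(26,0)]⟩,⟨0,[(27,0)]⟩),(⟨0,[(26,0),(3,0)]⟩,⟨0,[(15,0)]⟩),⟨0,[(15,0)]⟩,.k,.k,.k,.k,.k,.k,⟨true,
  (-1),⟨0,[(1,0),(7,0),(12,0),(14,0)]⟩,⟨1,[(0,1),(28,0),(11,0)]⟩⟩,⟨false,0,⟨2,[(17,0),(0,0),(9,0),
  (1,0),(3,0)]⟩,⟨1,[(29,0),(10,0)]⟩⟩,⟨false,0,⟨1,[(9,1),(12,1),(6,0),(11,0)]⟩,⟨5,[(0,3),(5,1),(22,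
  1),(10,2),(0,2)]⟩⟩,⟨true,0,⟨5,[(13,2),(3,0),(0,0),(9,0),(1,0),(3,0)]⟩,⟨0,[(1,0)]⟩⟩,⟨false,0,⟨0,
  []⟩,⟨0,[]⟩⟩,⟨false,0,⟨0,[]⟩,⟨0,[]⟩⟩,[.e ⟨false,0,⟨0,[(43,0)]⟩,⟨1,[(40,0),(0,0)]⟩⟩ ⟨false,0,⟨0,[(0,
  0)]⟩,⟨0,[(1,0),(10,0),(9,0),(18,0)]⟩⟩,.o ⟨false,0,⟨1,[(2,1),(26,0),(11,0)]⟩,⟨1,[(1,1),(20,1),(6,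
  0),(11,0)]⟩⟩,.o ⟨false,0,⟨0,[(12,0)]⟩,⟨1,[(24,1),(4,0),(10,0)]⟩⟩,.a ⟨true,(-1),⟨0,[(9,0)]⟩,⟨0,
  [(24,0),(15,0)]⟩⟩ ⟨false,0,⟨0,[]⟩,⟨1,[(17,0),(0,0),(22,0)]⟩⟩ ⟨true,0,⟨0,[(0,0)]⟩,⟨1,[(1,1),(7,1),
  (12,1),(6,0),(11,0)]⟩⟩]⟩) (.I [1,1,1,1,-1,0,0,1] (.Q [0,1,0,0,-1,0,0,1,0,1] (.pp false [-1,1])
  (.R ⟨0,false,false,true,[-1,1,1],[0,0,1],[1,1,1],(⟨0,[(17,0)]⟩,⟨0,[(28,0),(3,0)]⟩),(⟨0,[(29,0)]⟩,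
  ⟨0,[(28,0)]⟩),⟨0,[(28,0)]⟩,.k,.k,.k,.k,.k,.k,⟨true,0,⟨3,[(8,1),(4,1),(1,1),(15,0),(11,0)]⟩,⟨1,[(0,
  1),(30,0),(11,0)]⟩⟩,⟨false,0,⟨2,[(19,0),(0,0),(9,0),(1,0),(3,0)]⟩,⟨1,[(31,0),(10,0)]⟩⟩,⟨true,0,⟨0,
  [(4,0),(1,0),(1,0),(22,0),(10,0)]⟩,⟨3,[(0,1),(1,1),(38,1),(0,0),(0,0)]⟩⟩,⟨false,0,⟨5,[(15,2),(3,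
  0),(0,0),(9,0),(1,0),(3,0)]⟩,⟨0,[(3,0),(39,0)]⟩⟩,⟨false,0,⟨0,[]⟩,⟨0,[]⟩⟩,⟨false,0,⟨0,[]⟩,⟨0,[]⟩⟩,
  [.e ⟨false,0,⟨0,[(45,0)]⟩,⟨1,[(42,0),(0,0)]⟩⟩ ⟨false,(-1),⟨0,[(0,0)]⟩,⟨1,[(13,1),(17,0),(10,0),(0,
  1)]⟩⟩,.o ⟨false,1,⟨1,[(24,1),(6,0),(11,0)]⟩,⟨1,[(5,1),(25,0),(11,0)]⟩⟩,.o ⟨false,2,⟨0,[(26,0),(4,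
  0),(10,0)]⟩,⟨0,[(11,0)]⟩⟩,.a ⟨true,1,⟨1,[(26,1),(4,0),(10,0)]⟩,⟨39,[(0,17),(3,11),(3,5),(2,7),(11,
  19),(12,4),(6,8)]⟩⟩ ⟨false,0,⟨0,[]⟩,⟨1,[(19,0),(0,0),(22,0)]⟩⟩ ⟨true,(-1),⟨0,[(0,0)]⟩,⟨1,[(13,1),
  (17,0),(11,0)]⟩⟩]⟩) (.R ⟨0,false,false,false,[-1,1,1],[0,1],[1,1,1],(⟨0,[(17,0)]⟩,⟨0,[(28,0),(3,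
  0)]⟩),(⟨0,[(33,0)]⟩,⟨0,[(32,0)]⟩),⟨0,[(28,0)]⟩,.k,.k,.k,.k,.k,.k,⟨true,0,⟨0,[(40,0)]⟩,⟨2,[(1,0),
  (6,0),(34,1)]⟩⟩,⟨false,0,⟨0,[(23,0)]⟩,⟨2,[(0,0),(5,0),(3,1),(31,0),(0,0)]⟩⟩,⟨true,0,⟨1,[(0,0),(4,
  0),(0,0),(6,0)]⟩,⟨1,[(1,1),(40,0),(0,0)]⟩⟩,⟨false,0,⟨9,[(0,3),(3,3),(3,1),(2,0),(11,4),(19,2)]⟩,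
  ⟨1,[(24,1),(6,0),(11,0)]⟩⟩,⟨false,0,⟨0,[]⟩,⟨0,[]⟩⟩,⟨false,0,⟨0,[]⟩,⟨0,[]⟩⟩,[.a ⟨true,0,⟨0,[(41,
  0)]⟩,⟨5,[(15,2),(3,0),(0,0),(9,0),(1,0),(3,0)]⟩⟩ ⟨false,0,⟨0,[(45,0)]⟩,⟨1,[(42,0),(0,0)]⟩⟩ ⟨true,
  (-1),⟨5,[(1,1),(6,1),(2,2),(11,2),(19,0)]⟩,⟨5,[(0,3),(5,3),(3,1),(31,0),(0,0)]⟩⟩,.o ⟨false,1,⟨0,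
  [(3,0),(39,0)]⟩,⟨0,[(40,0)]⟩⟩,.o ⟨false,2,⟨5,[(0,1),(5,1),(3,3),(20,2),(10,4),(0,1)]⟩,⟨0,[(11,
  0)]⟩⟩,.e ⟨false,0,⟨0,[]⟩,⟨1,[(19,0),(0,0),(22,0)]⟩⟩ ⟨false,0,⟨2,[(1,0),(6,0),(14,2),(19,1)]⟩,⟨5,
  [(0,3),(5,3),(3,1),(31,0),(0,0)]⟩⟩]⟩)) (.R ⟨0,false,false,false,[1,0,-1],[2,-1,-1],[1,1,1],(⟨0,
  [(27,0)]⟩,⟨0,[(28,0)]⟩),(⟨0,[(27,0),(3,0)]⟩,⟨0,[(16,0)]⟩),⟨0,[(16,0)]⟩,.k,.k,.k,.k,.k,.k,⟨true,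
  (-1),⟨1,[(1,0),(7,0),(0,1),(12,0)]⟩,⟨0,[(0,0)]⟩⟩,⟨false,0,⟨2,[(18,0),(0,0),(9,0),(1,0),(3,0)]⟩,⟨1,
  [(30,0),(10,0)]⟩⟩,⟨false,0,⟨5,[(1,3),(8,0),(3,1),(0,0),(7,1),(1,0),(16,0)]⟩,⟨5,[(0,3),(6,1),(33,
  2),(0,0)]⟩⟩,⟨true,0,⟨5,[(14,2),(3,0),(0,0),(9,0),(1,0),(3,0)]⟩,⟨0,[(2,0)]⟩⟩,⟨false,0,⟨0,[]⟩,⟨0,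
  []⟩⟩,⟨false,0,⟨0,[]⟩,⟨0,[]⟩⟩,[.a ⟨true,(-1),⟨0,[(3,0)]⟩,⟨1,[(1,0),(7,0),(13,0),(17,0),(0,0)]⟩⟩
  ⟨false,0,⟨0,[(44,0)]⟩,⟨1,[(41,0),(0,0)]⟩⟩ ⟨true,0,⟨7,[(0,1),(2,1),(8,3),(1,1),(10,1),(9,0),(6,
  0)]⟩,⟨0,[(1,0)]⟩⟩,.o ⟨false,0,⟨0,[(0,0),(9,0)]⟩,⟨1,[(1,0),(7,0),(13,0),(6,0),(10,0)]⟩⟩,.o ⟨false,
  0,⟨0,[(13,0)]⟩,⟨7,[(0,1),(4,1),(3,5),(20,0),(10,1),(0,2)]⟩⟩,.e ⟨false,0,⟨0,[]⟩,⟨1,[(18,0),(0,0),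
  (22,0)]⟩⟩ ⟨false,1,⟨8,[(0,8),(17,3),(0,3),(9,0),(1,0),(3,3)]⟩,⟨0,[(1,0)]⟩⟩]⟩)))) (.I [1,-1,-1,-1,
  1,0,0,-1] (.R ⟨0,false,false,false,[1,0,-1],[2,-1,-1],[0,1,1],(⟨0,[(25,0)]⟩,⟨0,[(26,0)]⟩),(⟨0,
  [(25,0),(3,0)]⟩,⟨0,[(14,0)]⟩),⟨0,[(14,0)]⟩,.k,.k,.k,.k,.k,.k,⟨true,(-1),⟨1,[(1,0),(5,0),(0,2),(12,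
  0)]⟩,⟨0,[(0,0)]⟩⟩,⟨false,0,⟨2,[(16,0),(0,0),(9,0),(1,0),(3,0)]⟩,⟨1,[(28,0),(10,0)]⟩⟩,⟨false,0,⟨5,
  [(1,1),(1,0),(4,3),(12,2),(2,1),(15,1)]⟩,⟨5,[(0,3),(4,1),(33,2),(0,0)]⟩⟩,⟨true,0,⟨5,[(12,2),(3,0),
  (0,0),(9,0),(1,0),(3,0)]⟩,⟨0,[(1,0),(0,0)]⟩⟩,⟨false,0,⟨0,[]⟩,⟨0,[]⟩⟩,⟨false,0,⟨0,[]⟩,⟨0,[]⟩⟩,[.o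
  ⟨false,0,⟨9,[(0,3),(1,1),(2,1),(6,4),(0,2),(8,1)]⟩,⟨0,[(1,0)]⟩⟩,.o ⟨false,0,⟨0,[(0,0),(7,0)]⟩,⟨5,
  [(1,4),(2,0),(2,2),(5,0),(21,0)]⟩⟩,.o ⟨false,0,⟨0,[(11,0)]⟩,⟨4,[(0,1),(0,0),(2,0),(2,2),(15,0),
  (16,0)]⟩⟩,.a ⟨true,(-1),⟨0,[(8,0)]⟩,⟨0,[(23,0),(15,0)]⟩⟩ ⟨true,0,⟨0,[(42,0)]⟩,⟨0,[]⟩⟩ ⟨false,1,⟨2,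
  [(0,0),(9,1),(1,0),(20,0),(5,0),(0,1)]⟩,⟨0,[(1,0),(6,0)]⟩⟩]⟩) (.Q [0,0,0,-1,1,0,1,0,0,-1,1] (.p
  true [0,0,1] [1] (⟨0,[(26,0)]⟩,⟨0,[(25,0)]⟩) .k 1 (⟨0,[]⟩,⟨0,[]⟩) .k .k) (.R ⟨0,false,false,false,
  [-1,1,1],[0,1],[1,1,1],(⟨0,[(15,0)]⟩,⟨0,[(26,0),(3,0)]⟩),(⟨0,[(31,0)]⟩,⟨0,[(30,0)]⟩),⟨0,[(26,0)]⟩,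
  .k,.k,.k,.k,.k,.k,⟨true,0,⟨0,[(38,0)]⟩,⟨2,[(1,0),(4,0),(34,1)]⟩⟩,⟨false,0,⟨0,[(21,0)]⟩,⟨3,[(0,1),
  (7,1),(31,0),(0,0)]⟩⟩,⟨true,0,⟨0,[(0,0),(2,0)]⟩,⟨3,[(1,1),(0,1),(18,1),(12,0),(6,0)]⟩⟩,⟨false,0,
  ⟨0,[(3,0),(37,0)]⟩,⟨3,[(2,1),(1,0),(12,0),(0,0),(3,0),(18,0)]⟩⟩,⟨false,0,⟨0,[]⟩,⟨0,[]⟩⟩,⟨false,0,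
  ⟨0,[]⟩,⟨0,[]⟩⟩,[.a ⟨true,0,⟨0,[(39,0)]⟩,⟨5,[(13,2),(3,0),(0,0),(9,0),(1,0),(3,0)]⟩⟩ ⟨false,0,⟨0,
  [(43,0)]⟩,⟨1,[(40,0),(0,0)]⟩⟩ ⟨true,(-1),⟨5,[(1,1),(4,1),(2,2),(11,2),(19,0)]⟩,⟨0,[(0,0)]⟩⟩,.o
  ⟨false,1,⟨5,[(2,1),(3,1),(14,1),(7,1),(10,0),(0,2)]⟩,⟨0,[(38,0)]⟩⟩,.o ⟨false,2,⟨3,[(0,1),(7,1),
  (20,1),(10,2),(0,0)]⟩,⟨0,[(9,0)]⟩⟩,.e ⟨false,0,⟨0,[]⟩,⟨1,[(17,0),(0,0),(22,0)]⟩⟩ ⟨false,0,⟨2,[(1,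
  0),(4,0),(14,2),(19,1)]⟩,⟨0,[(0,0)]⟩⟩]⟩) (.Q [0,1,0,1,0,0,1,1,0,-1,1] (.p true [0,0,1] [1] (⟨0,
  [(27,0)]⟩,⟨0,[(26,0)]⟩) .k 1 (⟨0,[]⟩,⟨0,[]⟩) .k .k) (.R ⟨2,true,false,false,[0,1],[1,0,-1],[1,0,
  1],(⟨0,[]⟩,⟨0,[]⟩),(⟨0,[(27,0)]⟩,⟨0,[(28,0)]⟩),⟨0,[]⟩,.k,.k,.k,.k,.k,.k,⟨false,0,⟨11,[(1,5),(0,3),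
  (0,1),(1,3),(0,1),(23,0),(11,4)]⟩,⟨1,[(12,1),(28,0),(0,0)]⟩⟩,⟨true,(-1),⟨0,[(10,0)]⟩,⟨1,[(25,1),
  (4,0),(10,0)]⟩⟩,⟨false,1,⟨3,[(14,1),(3,0),(0,0),(10,0),(11,1)]⟩,⟨0,[(40,0)]⟩⟩,⟨true,0,⟨1,[(4,0),
  (9,0),(9,0),(17,0)]⟩,⟨0,[(0,0)]⟩⟩,⟨true,0,⟨0,[]⟩,⟨0,[(44,0)]⟩⟩,⟨false,0,⟨0,[(4,0),(37,0)]⟩,⟨3,[(3,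
  1),(1,0),(12,0),(0,0),(3,0),(18,0)]⟩⟩,[]⟩) (.R ⟨0,false,false,false,[1,0,-1],[2,-1,-1],[1,0,1],
  (⟨0,[(27,0)]⟩,⟨0,[(28,0)]⟩),(⟨0,[(27,0),(3,0)]⟩,⟨0,[(16,0)]⟩),⟨0,[(16,0)]⟩,.k,.k,.k,.k,.k,.k,
  ⟨true,(-1),⟨0,[(2,0),(35,0)]⟩,⟨1,[(0,1),(4,1),(1,1),(22,0),(10,2)]⟩⟩,⟨false,0,⟨2,[(18,0),(0,0),(9,
  0),(1,0),(3,0)]⟩,⟨1,[(30,0),(10,0)]⟩⟩,⟨false,0,⟨3,[(1,1),(0,1),(2,1),(24,0),(7,1),(3,2)]⟩,⟨1,[(12,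
  1),(28,0),(0,0)]⟩⟩,⟨true,0,⟨5,[(14,2),(3,0),(0,0),(9,0),(1,0),(3,0)]⟩,⟨0,[(3,0),(0,0)]⟩⟩,⟨false,0,
  ⟨0,[]⟩,⟨0,[]⟩⟩,⟨false,0,⟨0,[]⟩,⟨0,[]⟩⟩,[.o ⟨false,0,⟨3,[(0,1),(11,1),(1,0),(0,0)]⟩,⟨0,[(3,0)]⟩⟩,
  .o ⟨false,0,⟨0,[(0,0)]⟩,⟨5,[(3,4),(2,0),(2,2),(5,0),(21,0)]⟩⟩,.o ⟨false,0,⟨0,[(13,0)]⟩,⟨1,[(25,1),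
  (4,0),(10,0)]⟩⟩,.a ⟨true,(-1),⟨0,[(10,0)]⟩,⟨0,[(25,0),(15,0)]⟩⟩ ⟨true,0,⟨0,[]⟩,⟨0,[(44,0)]⟩⟩
  ⟨false,1,⟨0,[(0,0),(24,0),(15,0)]⟩,⟨1,[(2,1),(27,0),(11,0)]⟩⟩]⟩))))) (.I [0,1,-1,0,0,0,0,1] (.Q
  [0,1,0,1,-1,0,-1,-1,0,1,-1] (.p false [0,0,1] [1] (⟨0,[(25,0)]⟩,⟨0,[(24,0)]⟩) .k 1 (⟨0,[]⟩,⟨0,
  []⟩) .k .k) (.R ⟨2,true,false,true,[0,1],[1,1,-1],[0,1,1,1],(⟨0,[]⟩,⟨0,[]⟩),(⟨22,[(16,2),(0,2),(7,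
  22),(1,4),(4,5),(0,2)]⟩,⟨0,[(15,0)]⟩),⟨0,[]⟩,.k,.k,.k,.k,.k,.k,⟨true,0,⟨1,[(1,0),(0,0),(5,0)]⟩,⟨3,
  [(5,1),(4,1),(1,1),(15,0),(11,0)]⟩⟩,⟨false,0,⟨0,[(20,0)]⟩,⟨0,[(2,0),(7,0)]⟩⟩,⟨true,0,⟨0,[(42,0)]⟩,
  ⟨0,[]⟩⟩,⟨false,0,⟨5,[(0,1),(9,1),(1,0),(0,0),(8,1),(10,0),(6,2)]⟩,⟨0,[(2,0)]⟩⟩,⟨false,0,⟨0,[(38,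
  0)]⟩,⟨3,[(12,1),(3,0),(0,0),(10,0),(11,1)]⟩⟩,⟨true,(-1),⟨0,[(0,0)]⟩,⟨3,[(2,1),(0,1),(12,0),(0,0),
  (10,0)]⟩⟩,[]⟩) (.Q [0,0,0,1,0,0,-1,-1,0,0,-1] (.p false [0,0,1] [] (⟨0,[(26,0)]⟩,⟨0,[(25,0)]⟩) .k
  0 (⟨0,[]⟩,⟨0,[]⟩) .k .k) (.S ⟨1,0,[0,1,1,1,0,0,0,-1],[1,1,-1],[1,0,1,0,0,0,0,-1],(⟨22,[(17,2),(0,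
  2),(7,22),(1,4),(4,5),(0,2)]⟩,⟨0,[(16,0)]⟩),⟨0,[(26,0)]⟩,.k,.k,⟨false,1,⟨3,[(13,1),(3,0),(0,0),
  (10,0),(11,1)]⟩,⟨0,[(39,0)]⟩⟩,⟨true,0,⟨0,[(43,0)]⟩,⟨0,[]⟩⟩,⟨true,0,⟨0,[]⟩,⟨0,[(43,0)]⟩⟩,⟨false,0,
  ⟨0,[(39,0)]⟩,⟨3,[(13,1),(3,0),(0,0),(10,0),(11,1)]⟩⟩,[.o ⟨false,0,⟨3,[(0,2),(7,0),(2,0),(2,0),(21,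
  0)]⟩,⟨0,[(1,0)]⟩⟩,.o ⟨false,0,⟨0,[(0,0)]⟩,⟨8,[(1,5),(2,0),(0,1),(2,2),(8,0),(0,0),(6,0)]⟩⟩,.a
  ⟨true,0,⟨0,[(21,0)]⟩,⟨0,[(24,0)]⟩⟩ ⟨true,0,⟨3,[(6,1),(4,1),(1,1),(15,0),(11,0)]⟩,⟨0,[(2,0)]⟩⟩
  ⟨false,0,⟨3,[(6,1),(4,1),(5,0),(0,0),(22,0)]⟩,⟨0,[(1,0),(19,0)]⟩⟩,.o ⟨false,0,⟨0,[(12,0)]⟩,⟨0,[(3,
  0),(7,0)]⟩⟩]⟩) (.R ⟨1,true,false,true,[0,0,1],[0,1],[0,0,0,0,0,0,0,1],(⟨0,[(27,0)]⟩,⟨0,[(26,0)]⟩),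
  (⟨0,[(31,0)]⟩,⟨0,[(30,0)]⟩),⟨0,[(16,0)]⟩,.k,.k,.k,.k,(.r (-2) ⟨1,[(5,1),(11,0),(0,0),(22,0)]⟩ ⟨0,
  [(6,0)]⟩),.k,⟨true,1,⟨0,[(1,0),(19,0)]⟩,⟨0,[(6,0),(31,0)]⟩⟩,⟨false,1,⟨1,[(21,1),(7,0),(10,0)]⟩,⟨0,
  [(24,0)]⟩⟩,⟨false,1,⟨1,[(17,0),(0,0),(22,0)]⟩,⟨0,[]⟩⟩,⟨true,0,⟨0,[(23,0),(15,0)]⟩,⟨0,[(0,0)]⟩⟩,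
  ⟨true,0,⟨0,[(39,0)]⟩,⟨0,[(38,0)]⟩⟩,⟨false,0,⟨1,[(6,1),(14,1),(7,0),(10,0)]⟩,⟨0,[(3,0),(9,0)]⟩⟩,
  []⟩))) (.I [1,0,0,0,0,0,0,-1] (.S ⟨1,0,[0,1,0,0,0,0,0,1],[0,0,1],[0,0,0,0,0,0,0,1],(⟨0,[(26,0)]⟩,
  ⟨0,[(25,0)]⟩),⟨0,[(15,0)]⟩,.k,.k,⟨false,1,⟨1,[(16,0),(0,0),(22,0)]⟩,⟨0,[]⟩⟩,⟨true,0,⟨0,[(42,0)]⟩,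
  ⟨0,[]⟩⟩,⟨true,0,⟨0,[(38,0)]⟩,⟨0,[(37,0)]⟩⟩,⟨false,0,⟨0,[(38,0)]⟩,⟨3,[(12,1),(3,0),(0,0),(10,0),
  (11,1)]⟩⟩,[.a ⟨true,0,⟨0,[(21,0)]⟩,⟨0,[(1,0),(18,0)]⟩⟩ ⟨false,1,⟨1,[(2,0),(10,0),(7,0),(17,0)]⟩,
  ⟨0,[(0,0)]⟩⟩ ⟨true,0,⟨0,[(11,0),(9,0)]⟩,⟨0,[(1,0)]⟩⟩,.o ⟨false,1,⟨9,[(2,6),(1,1),(2,3),(5,0),(2,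
  0),(0,0),(3,0)]⟩,⟨0,[(0,0),(10,0)]⟩⟩,.o ⟨false,1,⟨0,[(2,0),(7,0)]⟩,⟨0,[(11,0)]⟩⟩,.e ⟨false,1,⟨0,
  [(2,0),(17,0)]⟩,⟨1,[(1,0),(20,0),(0,0)]⟩⟩ ⟨false,1,⟨1,[(2,0),(10,0),(7,0),(17,0)]⟩,⟨0,[(1,
  0)]⟩⟩]⟩) (.R ⟨0,false,false,false,[-1,1,1],[0,1],[0,1,1,0,0,0,0,1],(⟨0,[(14,0)]⟩,⟨0,[(25,0),(3,
  0)]⟩),(⟨0,[(30,0)]⟩,⟨0,[(29,0)]⟩),⟨0,[(25,0)]⟩,.k,.k,.k,.k,.k,.k,⟨true,0,⟨7,[(0,3),(2,3),(4,0),(4,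
  0),(10,0),(3,0),(6,1)]⟩,⟨3,[(1,1),(3,1),(33,0),(0,0)]⟩⟩,⟨false,0,⟨0,[(20,0)]⟩,⟨0,[(2,0),(7,0)]⟩⟩,
  ⟨true,0,⟨0,[(37,0)]⟩,⟨0,[(38,0)]⟩⟩,⟨false,0,⟨0,[(1,0),(18,0)]⟩,⟨9,[(2,6),(1,1),(2,3),(5,0),(2,0),
  (0,0),(3,0)]⟩⟩,⟨false,0,⟨0,[]⟩,⟨0,[]⟩⟩,⟨false,0,⟨0,[]⟩,⟨0,[]⟩⟩,[.a ⟨true,0,⟨0,[(38,0)]⟩,⟨5,[(12,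
  2),(3,0),(0,0),(9,0),(1,0),(3,0)]⟩⟩ ⟨false,0,⟨2,[(0,1),(20,0),(2,0),(10,0)]⟩,⟨0,[(1,0),(37,0)]⟩⟩
  ⟨true,(-1),⟨1,[(0,0),(4,0),(2,0),(11,0)]⟩,⟨3,[(1,1),(0,1),(0,1),(6,1),(17,0),(10,0)]⟩⟩,.o ⟨false,
  1,⟨1,[(28,0),(9,1),(1,0)]⟩,⟨0,[(37,0)]⟩⟩,.o ⟨false,2,⟨1,[(2,1),(7,1),(17,0),(10,0)]⟩,⟨0,[(8,0)]⟩⟩,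
  .e ⟨false,0,⟨0,[(0,0)]⟩,⟨0,[(10,0),(29,0)]⟩⟩ ⟨false,0,⟨1,[(0,0),(4,0),(14,1),(19,0)]⟩,⟨3,[(1,1),
  (0,1),(0,1),(6,1),(17,0),(10,0)]⟩⟩]⟩))))) (.R ⟨1,true,false,false,[0,0,1],[0,1],[0,0,0,0,0,0,0,1],
  (⟨0,[(22,0)]⟩,⟨0,[(21,0)]⟩),(⟨0,[(26,0)]⟩,⟨0,[(25,0)]⟩),⟨0,[(11,0)]⟩,.k,.k,.k,.k,(.r (-2) ⟨1,[(5,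
  1),(2,0),(0,0),(14,0),(10,1),(0,0)]⟩ ⟨0,[(1,0)]⟩),.k,⟨true,1,⟨1,[(5,1),(10,1),(7,0),(11,0)]⟩,⟨0,
  [(0,0),(32,0)]⟩⟩,⟨false,1,⟨1,[(16,1),(7,0),(10,0)]⟩,⟨0,[(19,0)]⟩⟩,⟨false,1,⟨1,[(12,0),(0,0),(22,
  0)]⟩,⟨0,[]⟩⟩,⟨true,0,⟨3,[(0,1),(15,1),(1,1),(5,0),(10,0)]⟩,⟨0,[(5,0)]⟩⟩,⟨true,0,⟨0,[(34,0)]⟩,⟨0,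
  [(33,0)]⟩⟩,⟨false,0,⟨1,[(0,1),(15,1),(7,0),(10,0)]⟩,⟨3,[(5,3),(2,1),(3,0),(0,0),(10,0),(11,1)]⟩⟩,
  []⟩)) (.I [0,0,-2,0,1,-2,-1] (.N [0,-2,1] (-1) ⟨0,[(1,0)]⟩ ⟨0,[(2,0)]⟩ (.x 0 ⟨2,[(3,1),(4,0),(10,
  0),(1,2),(6,1),(3,1),(4,0)]⟩ ⟨0,[(0,0)]⟩)) (.I [0,0,2,0,-1,2,1] (.N [0,-2,1] (-1) ⟨0,[(2,0)]⟩ ⟨0,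
  [(3,0)]⟩ (.x 1 ⟨0,[(0,0)]⟩ ⟨3,[(10,1),(1,3),(0,0),(0,0),(10,2),(0,3),(9,3)]⟩)) (.I [1,0,2,1,-1]
  (.Q [0,0,-1,1,1,0,1,0,0,-1,1] (.p true [0,0,1] [1] (⟨0,[(24,0)]⟩,⟨0,[(23,0)]⟩) .k 1 (⟨0,[]⟩,⟨0,
  []⟩) .k .k) (.Q [0,0,0,-1,0,0,-1,-1,0,1,-1] (.p false [0,0,1] [1] (⟨0,[(25,0)]⟩,⟨0,[(24,0)]⟩) .k
  1 (⟨0,[]⟩,⟨0,[]⟩) .k .k) (.R ⟨0,false,false,false,[1,0,-1],[0,1],[],(⟨0,[(25,0)]⟩,⟨0,[(26,0)]⟩),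
  (⟨0,[(30,0)]⟩,⟨0,[(29,0)]⟩),⟨0,[(14,0)]⟩,.k,.k,.k,.k,.k,.k,⟨true,1,⟨3,[(5,1),(4,1),(5,0),(0,0),
  (22,0)]⟩,⟨0,[(2,0)]⟩⟩,⟨false,2,⟨3,[(1,3),(3,1),(4,1),(5,0),(0,0),(22,0)]⟩,⟨0,[(8,0)]⟩⟩,⟨true,0,⟨0,
  [(2,0),(2,0),(32,0)]⟩,⟨0,[(10,0)]⟩⟩,⟨false,1,⟨1,[(1,1),(0,2),(2,1),(32,0),(1,0)]⟩,⟨0,[(0,0)]⟩⟩,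
  ⟨false,0,⟨0,[]⟩,⟨0,[]⟩⟩,⟨false,0,⟨0,[]⟩,⟨0,[]⟩⟩,[.e ⟨false,1,⟨1,[(16,0),(0,0),(21,0)]⟩,⟨0,[]⟩⟩
  ⟨false,1,⟨0,[(1,0)]⟩,⟨1,[(12,0),(0,0)]⟩⟩,.o ⟨false,1,⟨1,[(28,0),(9,1),(1,0)]⟩,⟨0,[(37,0)]⟩⟩,.o
  ⟨false,0,⟨0,[(11,0)]⟩,⟨7,[(1,3),(10,1),(3,0),(0,0),(5,3),(4,2)]⟩⟩,.a ⟨true,(-1),⟨0,[(8,0)]⟩,⟨0,
  [(23,0),(15,0)]⟩⟩ ⟨false,1,⟨1,[(39,0),(0,0)]⟩,⟨1,[(23,0),(0,0)]⟩⟩ ⟨true,1,⟨0,[(1,0)]⟩,⟨0,[(8,0),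
  (28,0)]⟩⟩]⟩) (.R ⟨2,true,false,true,[0,1],[1,0,-1],[1,1,1,0,0,0,0,-1],(⟨0,[]⟩,⟨0,[]⟩),(⟨0,[(25,
  0)]⟩,⟨0,[(26,0)]⟩),⟨0,[]⟩,.k,.k,.k,.k,.k,.k,⟨false,0,⟨0,[]⟩,⟨1,[(16,0),(0,0),(21,0)]⟩⟩,⟨true,(-1),
  ⟨0,[(8,0)]⟩,⟨7,[(1,3),(10,1),(3,0),(0,0),(5,3),(4,2)]⟩⟩,⟨false,1,⟨3,[(10,3),(1,1),(3,0),(0,0),(10,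
  0),(11,1)]⟩,⟨1,[(0,1),(7,0),(11,0),(19,0)]⟩⟩,⟨true,0,⟨1,[(10,1),(1,0),(0,0)]⟩,⟨0,[(0,0)]⟩⟩,⟨true,
  0,⟨0,[(10,0)]⟩,⟨6,[(0,3),(4,0),(2,1),(0,1),(3,1),(26,0)]⟩⟩,⟨false,0,⟨7,[(6,1),(3,1),(1,1),(7,3),
  (1,3),(10,0),(6,2)]⟩,⟨3,[(0,1),(8,1),(18,0),(11,2)]⟩⟩,[]⟩)) (.Q [0,-1,0,1,1,0,1,1,0,-1,1] (.p
  true [0,0,1] [1] (⟨0,[(25,0)]⟩,⟨0,[(24,0)]⟩) .k 1 (⟨0,[]⟩,⟨0,[]⟩) .k .k) (.R ⟨0,false,false,false,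
  [1,0,-1],[0,1],[],(⟨0,[(25,0)]⟩,⟨0,[(26,0)]⟩),(⟨0,[(30,0)]⟩,⟨0,[(29,0)]⟩),⟨0,[(14,0)]⟩,.k,.k,.k,
  .k,.k,.k,⟨true,1,⟨3,[(5,1),(4,1),(5,0),(0,0),(22,0)]⟩,⟨0,[(2,0)]⟩⟩,⟨false,2,⟨1,[(23,1),(4,0),(10,
  2)]⟩,⟨0,[(8,0)]⟩⟩,⟨true,0,⟨0,[(2,0),(2,0),(32,0)]⟩,⟨0,[(10,0)]⟩⟩,⟨false,1,⟨0,[(0,0)]⟩,⟨1,[(1,1),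
  (8,1),(28,0),(0,0)]⟩⟩,⟨false,0,⟨0,[]⟩,⟨0,[]⟩⟩,⟨false,0,⟨0,[]⟩,⟨0,[]⟩⟩,[.a ⟨true,0,⟨0,[(38,0)]⟩,⟨5,
  [(12,2),(3,0),(0,0),(9,0),(1,0),(3,0)]⟩⟩ ⟨false,1,⟨1,[(16,0),(0,0),(21,0)]⟩,⟨0,[]⟩⟩ ⟨true,1,⟨0,
  [(0,0),(9,0)]⟩,⟨0,[(1,0)]⟩⟩,.o ⟨false,1,⟨5,[(0,1),(5,1),(13,1),(7,2),(10,0),(0,1)]⟩,⟨0,[(37,0)]⟩⟩,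
  .o ⟨false,0,⟨0,[(11,0)]⟩,⟨1,[(23,1),(4,0),(10,0)]⟩⟩,.e ⟨false,1,⟨1,[(39,0),(0,0)]⟩,⟨1,[(23,0),(0,
  0)]⟩⟩ ⟨false,2,⟨1,[(0,1),(9,1),(28,0),(0,0)]⟩,⟨0,[(1,0)]⟩⟩]⟩) (.Q [0,1,0,0,-1,0,0,1,0,1] (.pp
  false [-1,1]) (.R ⟨0,false,false,true,[-1,1,1],[0,0,1],[1,1,1],(⟨0,[(15,0)]⟩,⟨0,[(26,0),(3,0)]⟩),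
  (⟨0,[(27,0)]⟩,⟨0,[(26,0)]⟩),⟨0,[(26,0)]⟩,.k,.k,.k,.k,.k,.k,⟨true,0,⟨3,[(7,1),(3,1),(1,1),(15,0),
  (11,0)]⟩,⟨1,[(0,1),(28,0),(11,0)]⟩⟩,⟨false,0,⟨2,[(17,0),(0,0),(9,0),(1,0),(3,0)]⟩,⟨1,[(29,0),(10,
  0)]⟩⟩,⟨true,0,⟨1,[(1,1),(22,1),(4,0),(10,0)]⟩,⟨1,[(0,1),(28,0),(9,1),(1,0)]⟩⟩,⟨false,0,⟨5,[(13,2),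
  (3,0),(0,0),(9,0),(1,0),(3,0)]⟩,⟨1,[(29,0),(9,1),(1,0)]⟩⟩,⟨false,0,⟨0,[]⟩,⟨0,[]⟩⟩,⟨false,0,⟨0,[]⟩,
  ⟨0,[]⟩⟩,[.e ⟨false,0,⟨0,[(43,0)]⟩,⟨1,[(40,0),(0,0)]⟩⟩ ⟨false,(-1),⟨0,[(0,0)]⟩,⟨1,[(11,1),(17,0),
  (10,0),(0,1)]⟩⟩,.o ⟨false,1,⟨1,[(22,1),(6,0),(11,0)]⟩,⟨5,[(1,3),(5,1),(13,1),(7,2),(10,0),(0,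
  1)]⟩⟩,.o ⟨false,2,⟨0,[(24,0),(4,0),(10,0)]⟩,⟨0,[(9,0)]⟩⟩,.a ⟨true,1,⟨1,[(24,1),(4,0),(10,0)]⟩,⟨6,
  [(0,2),(0,2),(7,1),(11,1),(12,1),(4,2),(1,2)]⟩⟩ ⟨false,0,⟨0,[]⟩,⟨1,[(17,0),(0,0),(22,0)]⟩⟩ ⟨true,
  (-1),⟨0,[(0,0)]⟩,⟨1,[(11,1),(17,0),(11,0)]⟩⟩]⟩) (.R ⟨0,false,false,false,[-1,1,1],[0,1],[1,1,1],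
  (⟨0,[(15,0)]⟩,⟨0,[(26,0),(3,0)]⟩),(⟨0,[(31,0)]⟩,⟨0,[(30,0)]⟩),⟨0,[(26,0)]⟩,.k,.k,.k,.k,.k,.k,
  ⟨true,0,⟨0,[(38,0)]⟩,⟨1,[(3,0),(35,0),(1,0)]⟩⟩,⟨false,0,⟨0,[(21,0)]⟩,⟨5,[(0,1),(5,1),(1,3),(15,1),
  (15,0),(0,0)]⟩⟩,⟨true,0,⟨1,[(0,0),(0,0),(8,0),(0,0)]⟩,⟨0,[(3,0),(2,0),(32,1)]⟩⟩,⟨false,0,⟨7,[(0,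
  1),(0,3),(5,1),(13,3),(12,0),(6,4)]⟩,⟨1,[(22,1),(6,0),(11,0)]⟩⟩,⟨false,0,⟨0,[]⟩,⟨0,[]⟩⟩,⟨false,0,
  ⟨0,[]⟩,⟨0,[]⟩⟩,[.a ⟨true,0,⟨0,[(39,0)]⟩,⟨5,[(13,2),(3,0),(0,0),(9,0),(1,0),(3,0)]⟩⟩ ⟨false,0,⟨0,
  [(43,0)]⟩,⟨1,[(40,0),(0,0)]⟩⟩ ⟨true,(-1),⟨0,[(3,0),(17,0)]⟩,⟨0,[(0,0),(9,0)]⟩⟩,.o ⟨false,1,⟨1,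
  [(29,0),(9,1),(1,0)]⟩,⟨0,[(38,0)]⟩⟩,.o ⟨false,2,⟨3,[(0,1),(5,1),(1,3),(20,0),(10,1),(0,0)]⟩,⟨0,
  [(9,0)]⟩⟩,.e ⟨false,0,⟨0,[]⟩,⟨1,[(17,0),(0,0),(22,0)]⟩⟩ ⟨false,0,⟨1,[(3,0),(17,1),(17,0),(1,0)]⟩,
  ⟨0,[(0,0),(9,0)]⟩⟩]⟩)))) (.S ⟨1,0,[0,0,1,1,0,0,0,-1],[1,1,-1],[0,1,1,1,0,0,0,-1],(⟨22,[(14,2),(0,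
  2),(7,22),(1,4),(4,5),(0,2)]⟩,⟨0,[(13,0)]⟩),⟨0,[(23,0)]⟩,.k,.k,⟨true,0,⟨0,[(40,0)]⟩,⟨0,[]⟩⟩,
  ⟨false,1,⟨1,[(14,0),(0,0),(22,0)]⟩,⟨0,[]⟩⟩,⟨false,0,⟨0,[(36,0)]⟩,⟨3,[(10,1),(3,0),(0,0),(10,0),
  (11,1)]⟩⟩,⟨true,0,⟨0,[(36,0)]⟩,⟨0,[(35,0)]⟩⟩,[.o ⟨false,0,⟨0,[(0,0),(3,0),(4,0)]⟩,⟨1,[(7,1),(18,
  0),(11,0)]⟩⟩,.a ⟨true,0,⟨1,[(0,1),(3,1),(1,0),(11,0),(19,0)]⟩,⟨0,[(7,0)]⟩⟩ ⟨false,0,⟨0,[(0,0),(3,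
  0)]⟩,⟨7,[(3,3),(7,1),(2,0),(0,0),(3,3),(6,0),(11,1)]⟩⟩ ⟨true,0,⟨0,[(0,0),(3,0),(29,0)]⟩,⟨0,[(7,0),
  (1,0)]⟩⟩,.e ⟨false,0,⟨3,[(4,1),(3,1),(5,0),(0,0),(22,0)]⟩,⟨0,[(3,0),(30,0),(1,0)]⟩⟩ ⟨false,0,⟨0,
  [(0,0),(3,0),(29,0)]⟩,⟨7,[(3,3),(7,1),(2,0),(0,0),(3,3),(6,0),(11,1)]⟩⟩,.o ⟨false,0,⟨0,[(9,0)]⟩,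
  ⟨3,[(0,1),(4,1),(15,1),(4,0),(11,0)]⟩⟩]⟩))))))) (.I [1,0,0,0,0,0,0,-1] (.R ⟨0,false,false,true,[1,
  0,-1],[1,-1],[1,1,0,0,0,0,0,-1],(⟨0,[(18,0)]⟩,⟨0,[(19,0)]⟩),(⟨0,[(22,0)]⟩,⟨0,[(23,0)]⟩),⟨0,[(7,
  0)]⟩,.k,.k,.k,.k,.k,.k,⟨false,0,⟨0,[(0,0),(30,0)]⟩,⟨1,[(2,1),(10,1),(7,0),(11,0)]⟩⟩,⟨true,0,⟨0,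
  [(16,0)]⟩,⟨0,[(4,0)]⟩⟩,⟨false,0,⟨0,[]⟩,⟨1,[(9,0),(0,0),(22,0)]⟩⟩,⟨true,0,⟨0,[(2,0)]⟩,⟨0,[(0,0),(3,
  0),(26,0)]⟩⟩,⟨false,0,⟨0,[]⟩,⟨0,[]⟩⟩,⟨false,0,⟨0,[]⟩,⟨0,[]⟩⟩,[.o ⟨false,0,⟨0,[(30,0)]⟩,⟨1,[(21,0),
  (9,1),(1,0)]⟩⟩,.a ⟨true,0,⟨5,[(5,2),(3,0),(0,0),(9,0),(1,0),(3,0)]⟩,⟨0,[(31,0)]⟩⟩ ⟨true,0,⟨0,[(0,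
  0)]⟩,⟨0,[(4,0),(9,0),(14,0)]⟩⟩ ⟨false,1,⟨1,[(1,0),(3,0),(10,0),(15,0)]⟩,⟨0,[(4,0),(26,0)]⟩⟩,.o
  ⟨false,0,⟨0,[(4,0)]⟩,⟨3,[(1,1),(7,0),(0,0),(5,1),(4,0)]⟩⟩,.o ⟨false,0,⟨0,[(17,0)]⟩,⟨0,[(1,
  0)]⟩⟩]⟩) (.Q [0,0,0,1,0,0,-1,-1,0,0,-1] (.p false [0,0,1] [] (⟨0,[(19,0)]⟩,⟨0,[(18,0)]⟩) .k 0 (⟨0,
  []⟩,⟨0,[]⟩) .k .k) (.R ⟨0,false,false,true,[1,0,-1],[1,-1],[1,1],(⟨0,[(19,0)]⟩,⟨0,[(20,0)]⟩),(⟨0,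
  [(23,0)]⟩,⟨0,[(24,0)]⟩),⟨0,[(8,0)]⟩,.k,.k,.k,.k,.k,.k,⟨false,0,⟨0,[(32,0)]⟩,⟨3,[(6,1),(3,0),(0,0),
  (10,0),(10,1)]⟩⟩,⟨true,0,⟨0,[(17,0)]⟩,⟨0,[(5,0)]⟩⟩,⟨false,0,⟨0,[(1,0)]⟩,⟨0,[(4,0),(29,0)]⟩⟩,⟨true,
  0,⟨0,[(3,0)]⟩,⟨0,[(0,0)]⟩⟩,⟨false,0,⟨0,[]⟩,⟨0,[]⟩⟩,⟨false,0,⟨0,[]⟩,⟨0,[]⟩⟩,[.o ⟨false,0,⟨0,[(31,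
  0)]⟩,⟨1,[(22,0),(9,1),(1,0)]⟩⟩,.a ⟨true,0,⟨5,[(6,2),(3,0),(0,0),(9,0),(1,0),(3,0)]⟩,⟨0,[(32,0)]⟩⟩
  ⟨true,0,⟨0,[]⟩,⟨1,[(17,0),(0,0)]⟩⟩ ⟨false,1,⟨1,[(2,0),(3,0),(10,0),(15,0)]⟩,⟨0,[(0,0),(0,0)]⟩⟩,.o
  ⟨false,0,⟨0,[(5,0)]⟩,⟨3,[(2,1),(7,0),(0,0),(5,1),(4,0)]⟩⟩,.o ⟨false,0,⟨0,[(18,0)]⟩,⟨0,[(2,
  0)]⟩⟩]⟩) (.Q [0,-1,-1,-1,1,0,1,0,0,0,1] (.p true [0,0,1] [] (⟨0,[(20,0)]⟩,⟨0,[(19,0)]⟩) .k 0 (⟨0,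
  []⟩,⟨0,[]⟩) .k .k) (.R ⟨0,false,false,false,[1,0,-1],[1,-1],[0,1],(⟨0,[(20,0)]⟩,⟨0,[(21,0)]⟩),(⟨0,
  [(24,0)]⟩,⟨0,[(25,0)]⟩),⟨0,[(9,0)]⟩,.k,.k,.k,.k,.k,.k,⟨false,0,⟨0,[(33,0),(3,0)]⟩,⟨0,[(0,0),(5,
  0)]⟩⟩,⟨true,0,⟨0,[(18,0)]⟩,⟨0,[(6,0)]⟩⟩,⟨false,0,⟨0,[(2,0)]⟩,⟨0,[(5,0),(29,0)]⟩⟩,⟨true,0,⟨0,[(1,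
  0)]⟩,⟨0,[(17,0),(15,0)]⟩⟩,⟨false,0,⟨0,[]⟩,⟨0,[]⟩⟩,⟨false,0,⟨0,[]⟩,⟨0,[]⟩⟩,[.a ⟨true,0,⟨5,[(7,2),
  (3,0),(0,0),(9,0),(1,0),(3,0)]⟩,⟨0,[(33,0)]⟩⟩ ⟨true,0,⟨0,[(37,0)]⟩,⟨0,[(31,0)]⟩⟩ ⟨false,1,⟨5,[(0,
  4),(10,0),(0,0),(5,0),(11,1),(1,0)]⟩,⟨0,[(6,0),(26,0)]⟩⟩,.e ⟨false,1,⟨1,[(11,0),(0,0),(21,0)]⟩,⟨0,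
  []⟩⟩ ⟨false,1,⟨0,[(0,0)]⟩,⟨1,[(6,0),(12,0),(10,0),(2,1)]⟩⟩,.o ⟨false,0,⟨0,[(6,0)]⟩,⟨3,[(3,1),(7,
  0),(0,0),(5,1),(4,0)]⟩⟩,.o ⟨false,0,⟨0,[(19,0)]⟩,⟨0,[(3,0)]⟩⟩]⟩) (.R ⟨0,false,false,false,[1,0,
  -1],[1,-1],[1,1,0,0,0,0,0,-1],(⟨0,[(20,0)]⟩,⟨0,[(21,0)]⟩),(⟨0,[(24,0)]⟩,⟨0,[(25,0)]⟩),⟨0,[(9,0)]⟩,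
  .k,.k,.k,.k,.k,.k,⟨false,0,⟨0,[(5,0),(27,0)]⟩,⟨1,[(1,1),(13,1),(7,0),(11,0)]⟩⟩,⟨true,0,⟨0,[(18,
  0)]⟩,⟨0,[(6,0)]⟩⟩,⟨false,0,⟨0,[]⟩,⟨1,[(11,0),(0,0),(22,0)]⟩⟩,⟨true,0,⟨0,[(1,0)]⟩,⟨0,[(17,0),(15,
  0)]⟩⟩,⟨false,0,⟨0,[]⟩,⟨0,[]⟩⟩,⟨false,0,⟨0,[]⟩,⟨0,[]⟩⟩,[.a ⟨true,0,⟨5,[(7,2),(3,0),(0,0),(9,0),(1,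
  0),(3,0)]⟩,⟨0,[(33,0)]⟩⟩ ⟨true,0,⟨0,[(5,0)]⟩,⟨0,[(2,0),(28,0)]⟩⟩ ⟨false,1,⟨1,[(3,0),(3,0),(10,0),
  (15,0)]⟩,⟨3,[(0,1),(14,1),(7,0),(9,1),(1,0)]⟩⟩,.o ⟨false,1,⟨3,[(7,1),(3,0),(0,0),(10,0),(11,1)]⟩,
  ⟨0,[(0,0),(2,0)]⟩⟩,.o ⟨false,0,⟨0,[(6,0)]⟩,⟨3,[(3,1),(7,0),(0,0),(5,1),(4,0)]⟩⟩,.o ⟨false,0,⟨0,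
  [(19,0)]⟩,⟨0,[(3,0)]⟩⟩]⟩))))) (.I [0,0,0,0,0,0,0,1] (.I [0,0,0,1,0,0,0,-1] (.R ⟨2,true,false,true,
  [0,1],[0,0,1],[0,1,1,1],(⟨0,[]⟩,⟨0,[]⟩),(⟨0,[(19,0)]⟩,⟨0,[(18,0)]⟩),⟨0,[]⟩,.k,.k,.k,.k,.k,.k,
  ⟨false,0,⟨0,[(0,0)]⟩,⟨5,[(1,3),(3,2),(0,0),(7,1),(6,1),(10,2),(0,0)]⟩⟩,⟨true,0,⟨0,[(16,0)]⟩,⟨0,
  [(4,0)]⟩⟩,⟨true,0,⟨0,[(35,0)]⟩,⟨0,[]⟩⟩,⟨false,1,⟨3,[(5,1),(3,0),(0,0),(3,3),(6,0),(11,1)]⟩,⟨0,[(2,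
  0)]⟩⟩,⟨false,0,⟨0,[(31,0)]⟩,⟨3,[(5,1),(3,0),(0,0),(10,0),(11,1)]⟩⟩,⟨true,0,⟨0,[(14,0)]⟩,⟨0,[(2,0),
  (27,0)]⟩⟩,[]⟩) (.Q [0,1,0,1,-1,0,-1,-1,0,1,-1] (.p false [0,0,1] [1] (⟨0,[(19,0)]⟩,⟨0,[(18,0)]⟩)
  .k 1 (⟨0,[]⟩,⟨0,[]⟩) .k .k) (.S ⟨1,0,[0,1,1,1,0,0,0,-1],[1,1,-1],[0,0,1,1,0,0,0,-1],(⟨22,[(10,2),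
  (0,2),(7,22),(1,4),(4,5),(0,2)]⟩,⟨0,[(9,0)]⟩),⟨0,[(19,0)]⟩,.k,.k,⟨false,1,⟨1,[(10,0),(0,0),(22,
  0)]⟩,⟨0,[]⟩⟩,⟨true,0,⟨0,[(36,0)]⟩,⟨0,[]⟩⟩,⟨true,0,⟨0,[(32,0)]⟩,⟨0,[(31,0)]⟩⟩,⟨false,0,⟨0,[(32,
  0)]⟩,⟨3,[(6,1),(3,0),(0,0),(10,0),(11,1)]⟩⟩,[.a ⟨true,(-1),⟨0,[(0,0)]⟩,⟨1,[(1,1),(15,1),(15,0),(0,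
  0)]⟩⟩ ⟨true,0,⟨1,[(3,0),(12,0),(0,1),(14,0)]⟩,⟨0,[(1,0)]⟩⟩ ⟨false,0,⟨0,[(4,0),(27,0)]⟩,⟨1,[(1,1),
  (31,0),(0,0)]⟩⟩,.o ⟨false,0,⟨1,[(3,0),(12,0),(15,0)]⟩,⟨1,[(1,1),(15,1),(4,0),(10,0)]⟩⟩,.e ⟨false,
  0,⟨0,[(3,0),(13,0)]⟩,⟨1,[(1,1),(8,0),(0,0),(21,0)]⟩⟩ ⟨false,0,⟨1,[(3,0),(12,0),(0,1),(14,0)]⟩,⟨1,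
  [(1,1),(31,0),(0,0)]⟩⟩,.o ⟨false,0,⟨0,[(5,0)]⟩,⟨1,[(17,1),(4,0),(10,0)]⟩⟩]⟩) (.Q [0,0,1,0,-1,0,-1,
  0,0,1,-1] (.p false [0,0,1] [1] (⟨0,[(20,0)]⟩,⟨0,[(19,0)]⟩) .k 1 (⟨0,[]⟩,⟨0,[]⟩) .k .k) (.R ⟨0,
  false,false,false,[-1,1,1],[0,1],[0,1,1,0,0,0,0,1],(⟨0,[(9,0)]⟩,⟨0,[(20,0),(3,0)]⟩),(⟨0,[(25,0)]⟩,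
  ⟨0,[(24,0)]⟩),⟨0,[(20,0)]⟩,.k,.k,.k,.k,.k,.k,⟨true,0,⟨3,[(2,2),(13,0),(2,0),(10,0),(1,0)]⟩,⟨0,[(4,
  0),(13,0)]⟩⟩,⟨false,0,⟨0,[(15,0)]⟩,⟨1,[(18,1),(4,0),(10,0)]⟩⟩,⟨true,0,⟨0,[(32,0)]⟩,⟨0,[(33,0)]⟩⟩,
  ⟨false,0,⟨31,[(4,25),(0,5),(1,12),(0,2),(13,3),(1,3),(3,5),(6,5)]⟩,⟨1,[(16,1),(6,0),(11,0)]⟩⟩,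
  ⟨false,0,⟨0,[]⟩,⟨0,[]⟩⟩,⟨false,0,⟨0,[]⟩,⟨0,[]⟩⟩,[.a ⟨true,0,⟨0,[(33,0)]⟩,⟨5,[(7,2),(3,0),(0,0),(9,
  0),(1,0),(3,0)]⟩⟩ ⟨false,0,⟨2,[(3,1),(12,0),(2,0),(10,0)]⟩,⟨1,[(1,1),(2,1),(0,1),(22,0),(5,0)]⟩⟩
  ⟨true,(-1),⟨0,[(0,0),(32,0)]⟩,⟨0,[(1,0),(3,0)]⟩⟩,.o ⟨false,1,⟨1,[(23,0),(9,1),(1,0)]⟩,⟨0,[(32,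
  0)]⟩⟩,.o ⟨false,2,⟨0,[(18,0),(4,0),(10,0)]⟩,⟨0,[(0,0)]⟩⟩,.e ⟨false,0,⟨0,[(3,0)]⟩,⟨0,[(5,0),(29,
  0)]⟩⟩ ⟨false,0,⟨2,[(3,0),(0,0),(3,0),(19,0),(4,1),(1,0)]⟩,⟨0,[(1,0),(3,0)]⟩⟩]⟩) (.I [1,-1,1,0,0,0,
  0,-1] (.Q [0,-1,-1,-1,1,0,1,0,0,0,1] (.p true [0,0,1] [] (⟨0,[(22,0)]⟩,⟨0,[(21,0)]⟩) .k 0 (⟨0,[]⟩,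
  ⟨0,[]⟩) .k .k) (.R ⟨0,false,false,false,[1,0,-1],[1,-1],[1],(⟨0,[(22,0)]⟩,⟨0,[(23,0)]⟩),(⟨0,[(26,
  0)]⟩,⟨0,[(27,0)]⟩),⟨0,[(11,0)]⟩,.k,.k,.k,.k,.k,.k,⟨false,0,⟨0,[(35,0)]⟩,⟨3,[(9,1),(3,0),(0,0),(10,
  0),(10,1)]⟩⟩,⟨true,0,⟨0,[(20,0)]⟩,⟨0,[(8,0)]⟩⟩,⟨true,0,⟨0,[(5,0)]⟩,⟨0,[(1,0),(30,0)]⟩⟩,⟨false,1,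
  ⟨2,[(3,0),(5,0),(8,1),(18,1)]⟩,⟨1,[(6,0),(12,0),(15,0)]⟩⟩,⟨false,0,⟨0,[]⟩,⟨0,[]⟩⟩,⟨false,0,⟨0,[]⟩,
  ⟨0,[]⟩⟩,[.a ⟨true,0,⟨5,[(9,2),(3,0),(0,0),(9,0),(1,0),(3,0)]⟩,⟨0,[(35,0)]⟩⟩ ⟨true,0,⟨0,[]⟩,⟨1,
  [(20,0),(0,0)]⟩⟩ ⟨false,1,⟨5,[(0,3),(1,0),(6,0),(3,0),(0,0),(5,0),(11,1)]⟩,⟨0,[(8,0),(26,0)]⟩⟩,.e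
  ⟨false,1,⟨1,[(36,0),(0,0)]⟩,⟨0,[(39,0)]⟩⟩ ⟨false,1,⟨0,[(0,0)]⟩,⟨1,[(8,0),(12,0),(10,0),(2,1)]⟩⟩,
  .o ⟨false,0,⟨0,[(8,0)]⟩,⟨3,[(2,1),(10,0),(0,0),(5,1),(4,0)]⟩⟩,.o ⟨false,0,⟨0,[(21,0)]⟩,⟨0,[(2,
  0)]⟩⟩]⟩) (.I [0,0,0,0,1,0,0,0,-1] (.I [0,1,0,1,0,-1] (.I [0,0,-1,0,1,0,1] (.I [0,-1,-1,-1,1,0,0,
  -1] (.I [0,-1,0,1,0,-1,-1,-1] (.C [(0,0),(1,0),(2,2),(0,1),(0,3),(1,3),(1,0),(17,0),(5,1),(3,0)])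
  (.C [(0,0),(10,0),(5,0)])) (.C [(0,0),(5,0),(3,0),(2,0)])) (.C [(0,0),(4,0),(19,0)])) (.C [(0,0),
  (1,0),(1,0),(9,0),(9,0)])) (.C [(0,0),(13,0),(2,0)]))) (.S ⟨1,0,[0,0,0,0,0,0,0,1],[0,0,1],[0,1,0,
  0,0,0,0,1],(⟨0,[(22,0)]⟩,⟨0,[(21,0)]⟩),⟨0,[(11,0)]⟩,.k,.k,⟨true,0,⟨0,[(38,0)]⟩,⟨0,[]⟩⟩,⟨false,1,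
  ⟨1,[(12,0),(0,0),(22,0)]⟩,⟨0,[]⟩⟩,⟨false,0,⟨0,[(34,0)]⟩,⟨3,[(8,1),(3,0),(0,0),(10,0),(11,1)]⟩⟩,
  ⟨true,0,⟨0,[(34,0)]⟩,⟨0,[(33,0)]⟩⟩,[.o ⟨false,1,⟨1,[(17,1),(6,0),(11,0)]⟩,⟨0,[(5,0),(27,0)]⟩⟩,.o
  ⟨false,1,⟨0,[(2,0),(31,0)]⟩,⟨0,[(18,0)]⟩⟩,.o ⟨false,1,⟨3,[(1,1),(10,0),(0,0),(5,1),(4,0)]⟩,⟨0,[(7,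
  0)]⟩⟩,.a ⟨true,0,⟨0,[(19,0)]⟩,⟨0,[(16,0)]⟩⟩ ⟨true,0,⟨0,[(0,0)]⟩,⟨0,[(6,0),(25,0)]⟩⟩ ⟨false,1,⟨1,
  [(4,1),(30,0),(0,0)]⟩,⟨0,[(6,0),(25,0)]⟩⟩]⟩))))) (.R ⟨2,true,false,true,[0,1],[0,0,1],[1,1,1],(⟨0,
  []⟩,⟨0,[]⟩),(⟨0,[(18,0)]⟩,⟨0,[(17,0)]⟩),⟨0,[]⟩,.k,.k,.k,.k,.k,.k,⟨false,0,⟨0,[(0,0)]⟩,⟨1,[(12,1),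
  (0,1),(6,0),(11,0)]⟩⟩,⟨true,0,⟨0,[(15,0)]⟩,⟨0,[(3,0)]⟩⟩,⟨true,0,⟨0,[(29,0)]⟩,⟨0,[(30,0)]⟩⟩,⟨false,
  1,⟨3,[(4,1),(3,0),(0,0),(3,3),(6,0),(11,1)]⟩,⟨0,[(1,0)]⟩⟩,⟨false,0,⟨0,[]⟩,⟨1,[(8,0),(0,0),(22,
  0)]⟩⟩,⟨true,0,⟨0,[(13,0)]⟩,⟨0,[(1,0),(27,0)]⟩⟩,[]⟩)))

theorem ok1 : chk K t1 l2 = true := by decide +kernel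

noncomputable def t2 : Tre :=
  (.Q [0,0,0,0,0,0,1,1,0,0,1] (.p true [0,0,1] [] (⟨0,[(16,0)]⟩,⟨0,[(15,0)]⟩) .k 0 (⟨0,[]⟩,⟨0,[]⟩)
  .k .k) (.I [1,1,-1,-1,1,0,0,-1] (.I [1,-1,0,0,1,0,0,-1] (.I [0,0,-1,0,0,0,0,1] (.S ⟨1,0,[0,0,0,0,
  0,0,0,1],[0,0,1],[0,1,0,0,0,0,0,1],(⟨0,[(20,0)]⟩,⟨0,[(19,0)]⟩),⟨0,[(9,0)]⟩,.k,.k,⟨true,0,⟨0,[(36,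
  0)]⟩,⟨0,[]⟩⟩,⟨false,1,⟨1,[(10,0),(0,0),(22,0)]⟩,⟨0,[]⟩⟩,⟨false,0,⟨0,[(32,0)]⟩,⟨3,[(6,1),(3,0),(0,
  0),(10,0),(11,1)]⟩⟩,⟨true,0,⟨0,[(32,0)]⟩,⟨0,[(31,0)]⟩⟩,[.e ⟨false,0,⟨4,[(0,3),(14,0),(2,0),(10,
  1)]⟩,⟨0,[(1,0)]⟩⟩ ⟨false,0,⟨0,[(0,0)]⟩,⟨0,[(1,0),(34,0)]⟩⟩,.o ⟨false,1,⟨1,[(3,1),(18,0),(11,0)]⟩,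
  ⟨0,[(16,0)]⟩⟩,.o ⟨false,1,⟨1,[(17,1),(4,0),(10,0)]⟩,⟨0,[(5,0)]⟩⟩,.a ⟨true,0,⟨0,[(17,0)]⟩,⟨0,[(14,
  0)]⟩⟩ ⟨false,0,⟨0,[(0,0)]⟩,⟨1,[(1,1),(15,0),(0,0)]⟩⟩ ⟨true,0,⟨0,[(0,0)]⟩,⟨0,[(16,0),(0,0)]⟩⟩]⟩)
  (.Q [0,0,0,-1,0,0,1,1,0,0,1] (.p true [0,0,1] [] (⟨0,[(20,0)]⟩,⟨0,[(19,0)]⟩) .k 0 (⟨0,[]⟩,⟨0,[]⟩)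
  .k .k) (.Q [0,1,1,1,-1,0,-1,0,0,0,-1] (.p false [0,0,1] [] (⟨0,[(21,0)]⟩,⟨0,[(20,0)]⟩) .k 0 (⟨0,
  []⟩,⟨0,[]⟩) .k .k) (.Q [0,1,0,0,0,0,1,1,0,-1,1] (.p true [0,0,1] [1] (⟨0,[(22,0)]⟩,⟨0,[(21,0)]⟩)
  .k 1 (⟨0,[]⟩,⟨0,[]⟩) .k .k) (.S ⟨1,0,[0,1,0,0,0,0,0,1],[0,0,1],[0,0,0,0,0,0,0,1],(⟨0,[(23,0)]⟩,⟨0,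
  [(22,0)]⟩),⟨0,[(12,0)]⟩,.k,.k,⟨false,1,⟨1,[(13,0),(0,0),(22,0)]⟩,⟨0,[]⟩⟩,⟨true,0,⟨0,[(39,0)]⟩,⟨0,
  []⟩⟩,⟨true,0,⟨0,[(35,0)]⟩,⟨0,[(34,0)]⟩⟩,⟨false,0,⟨0,[(35,0)]⟩,⟨3,[(9,1),(3,0),(0,0),(10,0),(11,
  1)]⟩⟩,[.o ⟨false,0,⟨0,[(0,0)]⟩,⟨0,[(19,0),(17,0)]⟩⟩,.e ⟨true,0,⟨0,[(7,0)]⟩,⟨0,[(19,0),(0,0)]⟩⟩
  ⟨true,0,⟨3,[(0,0),(6,1),(2,0),(7,0)]⟩,⟨0,[(3,0)]⟩⟩,.o ⟨false,1,⟨0,[(0,0),(3,0)]⟩,⟨0,[(8,0)]⟩⟩,.a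
  ⟨true,0,⟨0,[(20,0)]⟩,⟨0,[(17,0)]⟩⟩ ⟨false,1,⟨9,[(7,5),(2,1),(7,3),(6,0),(10,4),(0,3)]⟩,⟨0,[(3,
  0)]⟩⟩ ⟨true,0,⟨0,[(7,0),(24,0)]⟩,⟨0,[(3,0)]⟩⟩]⟩) (.R ⟨0,false,false,false,[1,0,-1],[1,-1],[0,1],
  (⟨0,[(22,0)]⟩,⟨0,[(23,0)]⟩),(⟨0,[(26,0)]⟩,⟨0,[(27,0)]⟩),⟨0,[(11,0)]⟩,.k,.k,.k,.k,.k,.k,⟨false,0,
  ⟨0,[(35,0),(3,0)]⟩,⟨1,[(0,1),(1,1),(22,0),(10,0)]⟩⟩,⟨true,0,⟨0,[(20,0)]⟩,⟨0,[(8,0)]⟩⟩,⟨false,0,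
  ⟨11,[(1,0),(0,0),(4,6),(2,1),(7,3),(6,0),(6,0)]⟩,⟨0,[(4,0)]⟩⟩,⟨true,0,⟨0,[(2,0)]⟩,⟨0,[(19,0),(15,
  0)]⟩⟩,⟨false,0,⟨0,[]⟩,⟨0,[]⟩⟩,⟨false,0,⟨0,[]⟩,⟨0,[]⟩⟩,[.a ⟨true,0,⟨13,[(4,1),(4,6),(0,0),(7,1),(5,
  1),(1,1),(3,1)]⟩,⟨0,[(35,0)]⟩⟩ ⟨true,0,⟨0,[(39,0)]⟩,⟨0,[(33,0)]⟩⟩ ⟨false,1,⟨0,[(2,0),(0,0),(32,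
  0)]⟩,⟨6,[(0,0),(0,1),(5,0),(2,0),(6,1),(7,1),(9,4)]⟩⟩,.a ⟨true,0,⟨0,[(0,0),(1,0)]⟩,⟨0,[(35,0),(3,
  0)]⟩⟩ ⟨false,1,⟨1,[(13,0),(0,0),(21,0)]⟩,⟨0,[]⟩⟩ ⟨true,1,⟨0,[(2,0),(1,0)]⟩,⟨0,[(1,0)]⟩⟩,.o ⟨false,
  0,⟨0,[(8,0)]⟩,⟨1,[(20,1),(4,0),(10,0)]⟩⟩,.a ⟨true,(-1),⟨0,[(0,0),(0,0),(0,0)]⟩,⟨0,[(20,0),(15,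
  0)]⟩⟩ ⟨false,1,⟨1,[(13,0),(0,0),(21,0)]⟩,⟨0,[(33,0)]⟩⟩ ⟨true,1,⟨0,[(2,0),(0,0),(32,0)]⟩,⟨0,[(1,
  0)]⟩⟩]⟩)) (.R ⟨0,false,false,false,[1,0,-1],[1,-1],[0,1],(⟨0,[(21,0)]⟩,⟨0,[(22,0)]⟩),(⟨0,[(25,
  0)]⟩,⟨0,[(26,0)]⟩),⟨0,[(10,0)]⟩,.k,.k,.k,.k,.k,.k,⟨false,0,⟨0,[(34,0),(3,0)]⟩,⟨0,[(0,0),(6,0)]⟩⟩,
  ⟨true,0,⟨0,[(19,0)]⟩,⟨0,[(7,0)]⟩⟩,⟨false,0,⟨3,[(6,2),(10,0),(2,0),(10,0)]⟩,⟨0,[(3,0)]⟩⟩,⟨true,0,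
  ⟨0,[(1,0)]⟩,⟨0,[(18,0),(15,0)]⟩⟩,⟨false,0,⟨0,[]⟩,⟨0,[]⟩⟩,⟨false,0,⟨0,[]⟩,⟨0,[]⟩⟩,[.a ⟨true,0,⟨13,
  [(3,1),(4,6),(0,0),(7,1),(5,1),(1,1),(3,1)]⟩,⟨0,[(34,0)]⟩⟩ ⟨true,0,⟨0,[(38,0)]⟩,⟨0,[(32,0)]⟩⟩
  ⟨false,1,⟨2,[(0,1),(3,0),(12,0)]⟩,⟨0,[(7,0),(26,0)]⟩⟩,.e ⟨false,1,⟨1,[(12,0),(0,0),(21,0)]⟩,⟨0,
  []⟩⟩ ⟨false,1,⟨0,[(0,0)]⟩,⟨1,[(7,0),(12,0),(10,0),(2,1)]⟩⟩,.o ⟨false,0,⟨0,[(7,0)]⟩,⟨1,[(19,1),(4,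
  0),(10,0)]⟩⟩,.e ⟨false,1,⟨1,[(12,0),(0,0),(21,0)]⟩,⟨0,[(32,0)]⟩⟩ ⟨false,1,⟨0,[(0,0)]⟩,⟨0,[(20,0),
  (13,0)]⟩⟩]⟩)) (.R ⟨2,true,false,true,[0,1],[0,0,1],[1,0,1],(⟨0,[]⟩,⟨0,[]⟩),(⟨0,[(21,0)]⟩,⟨0,[(20,
  0)]⟩),⟨0,[]⟩,.k,.k,.k,.k,.k,.k,⟨false,1,⟨0,[(2,0)]⟩,⟨0,[(5,0),(24,0)]⟩⟩,⟨true,0,⟨0,[(18,0)]⟩,⟨0,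
  [(6,0)]⟩⟩,⟨false,1,⟨3,[(7,1),(3,0),(0,0),(10,0),(11,1)]⟩,⟨0,[(33,0)]⟩⟩,⟨true,0,⟨0,[(4,0),(27,0)]⟩,
  ⟨0,[(0,0)]⟩⟩,⟨true,0,⟨0,[]⟩,⟨0,[(37,0)]⟩⟩,⟨false,0,⟨0,[(4,0)]⟩,⟨0,[(17,0),(17,0)]⟩⟩,[]⟩))) (.Q [0,
  0,0,1,-1,0,-1,0,0,1,-1] (.p false [0,0,1] [1] (⟨0,[(19,0)]⟩,⟨0,[(18,0)]⟩) .k 1 (⟨0,[]⟩,⟨0,[]⟩) .k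
  .k) (.R ⟨0,false,false,false,[-1,1,1],[0,1],[1,1,1],(⟨0,[(8,0)]⟩,⟨0,[(19,0),(3,0)]⟩),(⟨0,[(24,
  0)]⟩,⟨0,[(23,0)]⟩),⟨0,[(19,0)]⟩,.k,.k,.k,.k,.k,.k,⟨true,0,⟨0,[(31,0)]⟩,⟨0,[(30,0),(1,0)]⟩⟩,⟨false,
  0,⟨0,[(14,0)]⟩,⟨1,[(17,1),(4,0),(10,0)]⟩⟩,⟨false,1,⟨0,[(2,0),(27,0)]⟩,⟨0,[(4,0),(27,0)]⟩⟩,⟨true,0,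
  ⟨0,[(0,0),(1,0),(27,0)]⟩,⟨1,[(1,1),(15,1),(4,0),(10,0)]⟩⟩,⟨false,0,⟨0,[]⟩,⟨0,[]⟩⟩,⟨false,0,⟨0,[]⟩,
  ⟨0,[]⟩⟩,[.e ⟨false,0,⟨0,[(36,0)]⟩,⟨1,[(33,0),(0,0)]⟩⟩ ⟨false,(-1),⟨0,[(0,0)]⟩,⟨1,[(2,1),(0,1),(18,
  0),(11,0)]⟩⟩,.o ⟨false,1,⟨1,[(22,0),(9,1),(1,0)]⟩,⟨0,[(31,0)]⟩⟩,.o ⟨false,2,⟨0,[(17,0),(4,0),(10,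
  0)]⟩,⟨17,[(0,7),(0,6),(4,3),(9,6),(1,2),(8,2),(2,13),(4,0)]⟩⟩,.a ⟨true,1,⟨1,[(17,1),(4,0),(10,
  0)]⟩,⟨7,[(0,5),(5,2),(0,0),(13,1),(1,1),(3,1)]⟩⟩ ⟨false,0,⟨0,[]⟩,⟨1,[(10,0),(0,0),(22,0)]⟩⟩ ⟨true,
  (-1),⟨0,[(0,0)]⟩,⟨1,[(2,0),(0,0),(13,0),(4,0),(8,0)]⟩⟩]⟩) (.Q [0,0,1,-1,-1,0,-2,-1,0,2,-2] (.p
  false [0,0,1] [2,-1,-1] (⟨0,[(20,0)]⟩,⟨0,[(19,0)]⟩) .k 2 (⟨0,[(19,0),(3,0)]⟩,⟨0,[(8,0)]⟩) .k (.r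
  1 ⟨0,[(1,0),(2,0)]⟩ ⟨0,[(2,0),(13,0),(0,0),(14,0),(1,0)]⟩)) (.Q [0,0,0,0,0,0,-1,-1,0,1,-1] (.p
  false [0,0,1] [1] (⟨0,[(21,0)]⟩,⟨0,[(20,0)]⟩) .k 1 (⟨0,[]⟩,⟨0,[]⟩) .k .k) (.R ⟨0,false,false,
  false,[-1,1,1],[0,1],[1,1,1],(⟨0,[(10,0)]⟩,⟨0,[(21,0),(3,0)]⟩),(⟨0,[(26,0)]⟩,⟨0,[(25,0)]⟩),⟨0,
  [(21,0)]⟩,.k,.k,.k,.k,.k,.k,⟨true,0,⟨0,[(33,0)]⟩,⟨0,[(32,0),(1,0)]⟩⟩,⟨false,0,⟨0,[(16,0)]⟩,⟨1,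
  [(19,1),(4,0),(10,0)]⟩⟩,⟨false,1,⟨0,[(4,0),(27,0)]⟩,⟨0,[(6,0),(27,0)]⟩⟩,⟨true,0,⟨0,[(0,0)]⟩,⟨1,
  [(3,1),(15,1),(4,0),(10,0)]⟩⟩,⟨false,0,⟨0,[]⟩,⟨0,[]⟩⟩,⟨false,0,⟨0,[]⟩,⟨0,[]⟩⟩,[.a ⟨true,0,⟨0,[(34,
  0)]⟩,⟨36,[(4,2),(3,16),(0,2),(7,2),(1,2),(3,4),(1,4),(3,5),(6,2)]⟩⟩ ⟨false,0,⟨0,[(38,0)]⟩,⟨1,[(35,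
  0),(0,0)]⟩⟩ ⟨true,(-1),⟨1,[(1,0),(1,0),(28,0),(1,2)]⟩,⟨0,[(2,0)]⟩⟩,.o ⟨false,1,⟨1,[(24,0),(9,1),
  (1,0)]⟩,⟨0,[(33,0)]⟩⟩,.o ⟨false,2,⟨0,[(19,0),(4,0),(10,0)]⟩,⟨1,[(1,0),(1,0),(28,0),(1,0)]⟩⟩,.e
  ⟨false,0,⟨0,[]⟩,⟨1,[(12,0),(0,0),(22,0)]⟩⟩ ⟨false,0,⟨2,[(1,0),(4,0),(9,0),(17,3),(1,0)]⟩,⟨0,[(2,
  0)]⟩⟩]⟩) (.R ⟨2,true,false,true,[0,1],[1,1,-1],[0,0,1,1],(⟨0,[]⟩,⟨0,[]⟩),(⟨22,[(12,2),(0,2),(7,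
  22),(1,4),(4,5),(0,2)]⟩,⟨0,[(11,0)]⟩),⟨0,[]⟩,.k,.k,.k,.k,.k,.k,⟨true,0,⟨0,[(6,0)]⟩,⟨0,[(18,0),(0,
  0)]⟩⟩,⟨false,0,⟨0,[(16,0)]⟩,⟨1,[(19,1),(4,0),(10,0)]⟩⟩,⟨false,1,⟨1,[(12,0),(0,0),(22,0)]⟩,⟨0,[]⟩⟩,
  ⟨true,0,⟨7,[(1,0),(2,2),(4,1),(8,3),(0,1),(9,1),(4,3),(3,0)]⟩,⟨0,[(0,0)]⟩⟩,⟨true,0,⟨0,[(34,0)]⟩,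
  ⟨0,[(33,0)]⟩⟩,⟨false,0,⟨1,[(18,1),(10,0),(4,1),(1,0)]⟩,⟨0,[(2,0),(3,0)]⟩⟩,[]⟩)) (.Q [0,0,-1,-1,1,
  0,1,0,0,0,1] (.p true [0,0,1] [] (⟨0,[(21,0)]⟩,⟨0,[(20,0)]⟩) .k 0 (⟨0,[]⟩,⟨0,[]⟩) .k .k) (.R ⟨0,
  false,false,false,[1,0,-1],[1,-1],[],(⟨0,[(21,0)]⟩,⟨0,[(22,0)]⟩),(⟨0,[(25,0)]⟩,⟨0,[(26,0)]⟩),⟨0,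
  [(10,0)]⟩,.k,.k,.k,.k,.k,.k,⟨false,0,⟨0,[(34,0)]⟩,⟨3,[(0,1),(7,0),(0,0),(14,0),(10,0)]⟩⟩,⟨true,0,
  ⟨0,[(19,0)]⟩,⟨0,[(7,0)]⟩⟩,⟨false,0,⟨0,[(6,0)]⟩,⟨1,[(4,0),(13,0),(0,0),(14,0),(1,0)]⟩⟩,⟨true,0,⟨2,
  [(1,0),(1,0),(2,0),(1,1),(10,0)]⟩,⟨0,[(18,0),(15,0)]⟩⟩,⟨false,0,⟨0,[]⟩,⟨0,[]⟩⟩,⟨false,0,⟨0,[]⟩,⟨0,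
  []⟩⟩,[.e ⟨false,1,⟨1,[(12,0),(0,0),(21,0)]⟩,⟨0,[]⟩⟩ ⟨false,1,⟨0,[(0,0)]⟩,⟨0,[(7,0),(26,0)]⟩⟩,.o
  ⟨false,1,⟨3,[(2,1),(5,0),(0,0),(26,1)]⟩,⟨1,[(1,0),(1,0),(14,1),(13,0),(1,0)]⟩⟩,.o ⟨false,0,⟨0,[(7,
  0)]⟩,⟨7,[(1,1),(2,1),(7,0),(0,0),(5,3),(4,1),(11,0)]⟩⟩,.a ⟨true,(-1),⟨1,[(3,1),(14,1),(10,0),(2,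
  1),(3,0)]⟩,⟨0,[(19,0),(15,0)]⟩⟩ ⟨false,1,⟨1,[(35,0),(0,0)]⟩,⟨1,[(19,0),(0,0)]⟩⟩ ⟨true,1,⟨0,[(0,
  0)]⟩,⟨0,[(3,0),(14,0),(13,0),(1,0)]⟩⟩]⟩) (.R ⟨0,false,false,false,[1,0,-1],[1,-1],[],(⟨0,[(21,
  0)]⟩,⟨0,[(22,0)]⟩),(⟨0,[(25,0)]⟩,⟨0,[(26,0)]⟩),⟨0,[(10,0)]⟩,.k,.k,.k,.k,.k,.k,⟨false,0,⟨0,[(34,
  0)]⟩,⟨3,[(2,1),(5,0),(0,0),(25,1)]⟩⟩,⟨true,0,⟨0,[(19,0)]⟩,⟨0,[(7,0)]⟩⟩,⟨false,0,⟨0,[(6,0)]⟩,⟨1,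
  [(4,0),(13,0),(0,0),(14,0),(1,0)]⟩⟩,⟨true,0,⟨2,[(1,0),(1,0),(2,0),(1,1),(10,0)]⟩,⟨0,[(18,0),(15,
  0)]⟩⟩,⟨false,0,⟨0,[]⟩,⟨0,[]⟩⟩,⟨false,0,⟨0,[]⟩,⟨0,[]⟩⟩,[.a ⟨true,0,⟨36,[(4,2),(3,16),(0,2),(7,2),
  (1,2),(3,4),(1,4),(3,5),(6,2)]⟩,⟨0,[(34,0)]⟩⟩ ⟨false,1,⟨1,[(12,0),(0,0),(21,0)]⟩,⟨0,[]⟩⟩ ⟨true,1,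
  ⟨4,[(2,0),(1,1),(3,0),(8,1),(1,1),(16,1)]⟩,⟨0,[(0,0)]⟩⟩,.o ⟨false,1,⟨3,[(2,1),(5,0),(0,0),(26,
  1)]⟩,⟨1,[(0,0),(0,0),(16,0),(19,0)]⟩⟩,.o ⟨false,0,⟨0,[(7,0)]⟩,⟨7,[(1,1),(2,1),(7,0),(0,0),(5,3),
  (4,1),(11,0)]⟩⟩,.e ⟨false,1,⟨1,[(35,0),(0,0)]⟩,⟨1,[(19,0),(0,0)]⟩⟩ ⟨false,2,⟨7,[(1,1),(2,5),(3,1),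
  (8,3),(11,0),(6,8)]⟩,⟨0,[(0,0)]⟩⟩]⟩))))) (.Q [0,0,0,1,0,0,1,1,0,-1,1] (.p true [0,0,1] [1] (⟨0,
  [(18,0)]⟩,⟨0,[(17,0)]⟩) .k 1 (⟨0,[]⟩,⟨0,[]⟩) .k .k) (.R ⟨0,false,false,false,[1,0,-1],[1,-1],[],
  (⟨0,[(18,0)]⟩,⟨0,[(19,0)]⟩),(⟨0,[(22,0)]⟩,⟨0,[(23,0)]⟩),⟨0,[(7,0)]⟩,.k,.k,.k,.k,.k,.k,⟨false,0,⟨0,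
  [(31,0)]⟩,⟨3,[(5,1),(3,0),(0,0),(10,0),(10,1)]⟩⟩,⟨true,0,⟨0,[(16,0)]⟩,⟨0,[(4,0)]⟩⟩,⟨false,0,⟨0,
  [(3,0)]⟩,⟨1,[(15,1),(0,1),(15,0),(0,0)]⟩⟩,⟨true,0,⟨0,[(0,0),(4,0)]⟩,⟨0,[(15,0),(15,0)]⟩⟩,⟨false,0,
  ⟨0,[]⟩,⟨0,[]⟩⟩,⟨false,0,⟨0,[]⟩,⟨0,[]⟩⟩,[.a ⟨true,0,⟨5,[(5,2),(3,0),(0,0),(9,0),(1,0),(3,0)]⟩,⟨0,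
  [(31,0)]⟩⟩ ⟨false,1,⟨1,[(9,0),(0,0),(21,0)]⟩,⟨0,[]⟩⟩ ⟨true,1,⟨3,[(5,1),(3,0),(0,0),(5,3),(4,0),
  (10,1)]⟩,⟨0,[(1,0),(13,0)]⟩⟩,.o ⟨false,1,⟨3,[(5,1),(3,0),(0,0),(10,0),(11,1)]⟩,⟨0,[(0,0),(14,
  0)]⟩⟩,.o ⟨false,0,⟨0,[(4,0)]⟩,⟨1,[(16,1),(4,0),(10,0)]⟩⟩,.e ⟨false,1,⟨1,[(32,0),(0,0)]⟩,⟨1,[(16,
  0),(0,0)]⟩⟩ ⟨false,2,⟨3,[(5,1),(3,0),(0,0),(5,3),(4,0),(10,3),(0,1)]⟩,⟨0,[(1,0),(13,0)]⟩⟩]⟩) (.Q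
  [0,0,0,-1,0,0,1,1,0,0,1] (.p true [0,0,1] [] (⟨0,[(19,0)]⟩,⟨0,[(18,0)]⟩) .k 0 (⟨0,[]⟩,⟨0,[]⟩) .k
  .k) (.R ⟨0,false,false,true,[1,0,-1],[1,-1],[1,1,0,-1,0,0,0,-1],(⟨0,[(19,0)]⟩,⟨0,[(20,0)]⟩),(⟨0,
  [(23,0)]⟩,⟨0,[(24,0)]⟩),⟨0,[(8,0)]⟩,.k,.k,.k,.k,.k,.k,⟨false,1,⟨1,[(16,1),(0,1),(15,0),(0,0)]⟩,⟨3,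
  [(2,3),(3,1),(15,0),(6,1),(3,2)]⟩⟩,⟨true,0,⟨0,[(17,0)]⟩,⟨0,[(5,0)]⟩⟩,⟨true,0,⟨0,[(31,0)]⟩,⟨0,[(32,
  0)]⟩⟩,⟨false,0,⟨0,[(0,0)]⟩,⟨0,[(16,0),(15,0),(1,0)]⟩⟩,⟨false,0,⟨0,[]⟩,⟨0,[]⟩⟩,⟨false,0,⟨0,[]⟩,⟨0,
  []⟩⟩,[.o ⟨false,0,⟨0,[(31,0)]⟩,⟨1,[(22,0),(9,1),(1,0)]⟩⟩,.e ⟨true,1,⟨1,[(1,1),(15,1),(4,0),(10,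
  0)]⟩,⟨0,[(2,0),(33,0)]⟩⟩ ⟨true,1,⟨3,[(6,1),(3,0),(0,0),(5,3),(4,0),(10,1)]⟩,⟨0,[(2,0),(13,0)]⟩⟩,
  .o ⟨false,0,⟨0,[(5,0)]⟩,⟨1,[(17,1),(4,0),(10,0)]⟩⟩,.a ⟨true,(-1),⟨2,[(1,0),(0,1),(13,0),(1,0),(8,
  0),(3,0)]⟩,⟨0,[(17,0),(15,0)]⟩⟩ ⟨false,2,⟨1,[(1,1),(8,0),(0,0),(5,1),(4,0),(10,1)]⟩,⟨0,[(2,0)]⟩⟩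
  ⟨true,1,⟨3,[(6,1),(10,3),(4,0),(6,1),(3,2)]⟩,⟨0,[(2,0),(13,0)]⟩⟩]⟩) (.R ⟨2,true,false,true,[0,1],
  [0,0,1],[0,0,1,1],(⟨0,[]⟩,⟨0,[]⟩),(⟨0,[(20,0)]⟩,⟨0,[(19,0)]⟩),⟨0,[]⟩,.k,.k,.k,.k,.k,.k,⟨false,1,
  ⟨1,[(0,1),(16,1),(15,0),(0,0)]⟩,⟨1,[(2,1),(3,1),(15,0),(6,1),(3,0)]⟩⟩,⟨true,0,⟨0,[(17,0)]⟩,⟨0,[(5,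
  0)]⟩⟩,⟨false,1,⟨1,[(10,0),(0,0),(22,0)]⟩,⟨0,[]⟩⟩,⟨true,0,⟨0,[(3,0),(27,0)]⟩,⟨0,[(0,0)]⟩⟩,⟨true,0,
  ⟨0,[(32,0)]⟩,⟨0,[(31,0)]⟩⟩,⟨false,0,⟨0,[(3,0)]⟩,⟨0,[(16,0),(17,0)]⟩⟩,[]⟩)))) (.S ⟨1,0,[0,0,0,0,0,
  0,0,1],[0,0,1],[0,1,0,0,0,0,0,1],(⟨0,[(17,0)]⟩,⟨0,[(16,0)]⟩),⟨0,[(6,0)]⟩,.k,.k,⟨true,0,⟨0,[(33,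
  0)]⟩,⟨0,[]⟩⟩,⟨false,1,⟨1,[(7,0),(0,0),(22,0)]⟩,⟨0,[]⟩⟩,⟨false,0,⟨0,[(29,0)]⟩,⟨3,[(3,1),(3,0),(0,
  0),(10,0),(11,1)]⟩⟩,⟨true,0,⟨0,[(29,0)]⟩,⟨0,[(28,0)]⟩⟩,[.o ⟨false,1,⟨1,[(12,1),(6,0),(11,0)]⟩,⟨0,
  [(0,0)]⟩⟩,.o ⟨false,1,⟨1,[(1,1),(12,1),(4,0),(10,0)]⟩,⟨0,[(13,0)]⟩⟩,.o ⟨false,1,⟨1,[(14,1),(4,0),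
  (10,0)]⟩,⟨0,[(2,0)]⟩⟩,.a ⟨true,0,⟨0,[(14,0)]⟩,⟨0,[(11,0)]⟩⟩ ⟨true,0,⟨0,[(1,0),(24,0)]⟩,⟨0,[(0,0),
  (13,0)]⟩⟩ ⟨false,1,⟨9,[(1,5),(2,1),(7,3),(6,0),(10,4),(0,3)]⟩,⟨0,[(0,0),(13,0)]⟩⟩]⟩))

theorem ok2 : chk K t2 r2 = true := by decide +kernel

noncomputable def t4 : Tre :=
  (.I [1,-1,1,0,0,0,0,-1] (.I [1,-1,0,0,0,0,0,-1] (.Q [0,1,0,0,-1,0,-1,-1,0,1,-1] (.p false [0,0,1]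
  [1] (⟨0,[(17,0)]⟩,⟨0,[(16,0)]⟩) .k 1 (⟨0,[]⟩,⟨0,[]⟩) .k .k) (.I [1,1,1,0,-1,0,0,-1] (.S ⟨1,0,[0,1,
  0,0,0,0,0,1],[0,0,1],[0,0,0,0,0,0,0,1],(⟨0,[(19,0)]⟩,⟨0,[(18,0)]⟩),⟨0,[(8,0)]⟩,.k,.k,⟨false,1,⟨1,
  [(9,0),(0,0),(22,0)]⟩,⟨0,[]⟩⟩,⟨true,0,⟨0,[(35,0)]⟩,⟨0,[]⟩⟩,⟨true,0,⟨0,[(31,0)]⟩,⟨0,[(30,0)]⟩⟩,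
  ⟨false,0,⟨0,[(31,0)]⟩,⟨3,[(5,1),(3,0),(0,0),(10,0),(11,1)]⟩⟩,[.e ⟨false,1,⟨1,[(13,1),(0,1),(6,0),
  (11,0)]⟩,⟨1,[(0,0),(2,0),(28,0)]⟩⟩ ⟨false,1,⟨3,[(6,1),(2,0),(0,0),(3,3),(6,0),(10,1)]⟩,⟨0,[(2,
  0)]⟩⟩,.o ⟨false,1,⟨1,[(14,1),(6,0),(11,0)]⟩,⟨3,[(1,0),(0,1),(3,0),(8,0),(5,0)]⟩⟩,.e ⟨false,1,⟨1,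
  [(13,1),(0,1),(6,0),(7,1),(3,0)]⟩,⟨1,[(0,0),(2,0),(28,0)]⟩⟩ ⟨false,1,⟨3,[(6,1),(2,0),(0,0),(3,3),
  (6,0),(11,1)]⟩,⟨0,[(2,0)]⟩⟩,.a ⟨true,0,⟨0,[(16,0)]⟩,⟨0,[(13,0)]⟩⟩ ⟨true,1,⟨1,[(13,1),(0,1),(6,0),
  (11,0)]⟩,⟨0,[(0,0)]⟩⟩ ⟨false,1,⟨1,[(13,1),(0,1),(6,0),(11,0)]⟩,⟨0,[(3,0)]⟩⟩]⟩) (.I [0,1,1,1,-1,0,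
  0,-1] (.S ⟨1,0,[0,1,0,0,0,0,0,1],[0,0,1],[1,0,0,-1,0,0,0,1],(⟨0,[(20,0)]⟩,⟨0,[(19,0)]⟩),⟨0,[(9,
  0)]⟩,.k,.k,⟨false,1,⟨3,[(6,1),(3,0),(0,0),(10,0),(11,1)]⟩,⟨0,[(32,0)]⟩⟩,⟨true,0,⟨0,[(36,0)]⟩,⟨0,
  []⟩⟩,⟨true,0,⟨0,[]⟩,⟨0,[(36,0)]⟩⟩,⟨false,0,⟨0,[(32,0)]⟩,⟨3,[(6,1),(3,0),(0,0),(10,0),(11,1)]⟩⟩,
  [.e ⟨false,1,⟨0,[(1,0),(29,0)]⟩,⟨1,[(0,0),(3,0),(27,0),(0,0)]⟩⟩ ⟨false,1,⟨7,[(1,3),(5,1),(2,2),(0,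
  2),(3,3),(6,0),(6,3)]⟩,⟨0,[(3,0)]⟩⟩,.o ⟨false,1,⟨1,[(1,0),(13,0),(1,0),(4,0)]⟩,⟨3,[(2,0),(0,1),(3,
  0),(8,0),(5,0)]⟩⟩,.e ⟨false,1,⟨3,[(1,2),(4,1),(8,0),(2,0),(3,0),(7,1)]⟩,⟨1,[(0,0),(3,0),(27,0),(0,
  0)]⟩⟩ ⟨false,1,⟨1,[(1,0),(8,0),(0,0),(3,0),(2,0)]⟩,⟨0,[(3,0)]⟩⟩,.a ⟨true,0,⟨0,[(17,0)]⟩,⟨0,[(14,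
  0)]⟩⟩ ⟨true,1,⟨0,[(1,0),(29,0)]⟩,⟨0,[(0,0)]⟩⟩ ⟨false,1,⟨15,[(1,11),(5,1),(2,2),(0,2),(3,3),(6,0),
  (6,3)]⟩,⟨0,[(4,0)]⟩⟩]⟩) (.Q [0,-1,0,1,1,0,1,1,0,-1,1] (.p true [0,0,1] [1] (⟨0,[(20,0)]⟩,⟨0,[(19,
  0)]⟩) .k 1 (⟨0,[]⟩,⟨0,[]⟩) .k .k) (.R ⟨1,false,false,true,[0,0,1],[1,-1],[1],(⟨0,[(21,0)]⟩,⟨0,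
  [(20,0)]⟩),(⟨0,[(24,0)]⟩,⟨0,[(25,0)]⟩),⟨0,[(10,0)]⟩,.k,.k,.k,.k,.k,.k,⟨true,0,⟨0,[(31,0),(1,0)]⟩,
  ⟨0,[(32,0)]⟩⟩,⟨false,0,⟨5,[(8,2),(2,0),(0,0),(9,0),(1,0),(3,0)]⟩,⟨1,[(6,1),(16,0),(10,0)]⟩⟩,
  ⟨false,0,⟨0,[(4,0)]⟩,⟨1,[(2,0),(8,0),(0,0),(3,0),(2,0)]⟩⟩,⟨false,0,⟨1,[(5,0),(1,0),(7,0),(1,0)]⟩,
  ⟨0,[(0,0)]⟩⟩,⟨false,0,⟨0,[(4,0),(28,0)]⟩,⟨7,[(1,3),(5,1),(3,2),(0,2),(3,3),(2,3),(3,0)]⟩⟩,⟨true,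
  (-1),⟨0,[(3,0)]⟩,⟨7,[(0,3),(6,1),(3,0),(0,0),(3,3),(6,2)]⟩⟩,[.o ⟨false,0,⟨0,[(32,0)]⟩,⟨1,[(23,0),
  (9,1),(1,0)]⟩⟩,.e ⟨false,1,⟨1,[(34,0),(0,0)]⟩,⟨0,[(37,0)]⟩⟩ ⟨false,0,⟨0,[(1,0),(1,0)]⟩,⟨0,[(0,0),
  (4,0),(24,0)]⟩⟩,.a ⟨true,0,⟨0,[(6,0)]⟩,⟨5,[(8,2),(2,0),(0,0),(9,0),(1,0),(3,0)]⟩⟩ ⟨true,0,⟨0,[]⟩,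
  ⟨0,[(37,0)]⟩⟩ ⟨false,0,⟨1,[(7,0),(0,0)]⟩,⟨1,[(0,1),(3,0),(0,0),(24,0)]⟩⟩,.e ⟨false,1,⟨1,[(34,0),
  (0,0)]⟩,⟨1,[(18,0),(0,0)]⟩⟩ ⟨false,0,⟨0,[(1,0),(1,0)]⟩,⟨1,[(0,1),(4,0),(11,0),(0,0)]⟩⟩]⟩) (.I [1,
  0,1,1,0,0,0,1] (.R ⟨0,false,false,true,[1,0,-1],[0,1],[0,1,0,-1,0,0,0,-1],(⟨0,[(21,0)]⟩,⟨0,[(22,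
  0)]⟩),(⟨0,[(26,0)]⟩,⟨0,[(25,0)]⟩),⟨0,[(10,0)]⟩,.k,.k,.k,.k,.k,.k,⟨false,1,⟨7,[(1,5),(0,1),(2,3),
  (1,5),(0,3),(15,4),(10,6)]⟩,⟨0,[(0,0),(33,0)]⟩⟩,⟨true,1,⟨1,[(7,1),(16,0),(10,0)]⟩,⟨0,[(0,0),(0,0),
  (30,0)]⟩⟩,⟨true,0,⟨0,[(33,0)]⟩,⟨0,[(34,0)]⟩⟩,⟨false,1,⟨1,[(3,0),(13,0),(1,0),(4,0),(9,1)]⟩,⟨0,[(1,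
  0),(34,0)]⟩⟩,⟨false,0,⟨0,[]⟩,⟨0,[]⟩⟩,⟨false,0,⟨0,[]⟩,⟨0,[]⟩⟩,[.e ⟨false,0,⟨1,[(1,1),(5,1),(16,0),
  (10,0)]⟩,⟨1,[(0,1),(34,0),(0,0)]⟩⟩ ⟨false,1,⟨1,[(7,0),(11,0),(4,0),(6,0),(2,1),(0,0)]⟩,⟨1,[(1,0),
  (0,0),(13,0),(15,1)]⟩⟩,.a ⟨true,0,⟨0,[(34,0)]⟩,⟨5,[(8,2),(3,0),(0,0),(9,0),(1,0),(3,0)]⟩⟩ ⟨true,0,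
  ⟨0,[(5,0),(27,0)]⟩,⟨0,[(0,0)]⟩⟩ ⟨false,1,⟨1,[(7,1),(16,0),(9,1),(0,0)]⟩,⟨1,[(8,0),(0,0)]⟩⟩,.e
  ⟨false,0,⟨0,[(5,0),(27,0)]⟩,⟨1,[(0,1),(34,0),(0,0)]⟩⟩ ⟨false,1,⟨1,[(19,1),(4,0),(9,1),(0,0)]⟩,⟨1,
  [(1,0),(0,0),(13,0),(15,1)]⟩⟩,.o ⟨false,0,⟨0,[(20,0)]⟩,⟨1,[(7,1),(16,0),(10,0)]⟩⟩]⟩) (.R ⟨0,false,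
  false,true,[1,0,-1],[2,-1,-1],[0,1,0,-1,0,0,0,-1],(⟨0,[(21,0)]⟩,⟨0,[(22,0)]⟩),(⟨0,[(21,0),(3,0)]⟩,
  ⟨0,[(10,0)]⟩),⟨0,[(10,0)]⟩,.k,.k,.k,.k,.k,.k,⟨true,0,⟨1,[(19,0),(0,0)]⟩,⟨0,[]⟩⟩,⟨false,0,⟨2,[(12,
  0),(0,0),(9,0),(1,0),(3,0)]⟩,⟨1,[(24,0),(10,0)]⟩⟩,⟨true,0,⟨0,[(33,0)]⟩,⟨0,[(34,0)]⟩⟩,⟨false,0,⟨5,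
  [(8,2),(3,0),(0,0),(9,0),(1,0),(3,0)]⟩,⟨1,[(24,0),(9,1),(1,0)]⟩⟩,⟨false,0,⟨0,[]⟩,⟨0,[]⟩⟩,⟨false,0,
  ⟨0,[]⟩,⟨0,[]⟩⟩,[.o ⟨false,(-1),⟨0,[(1,0)]⟩,⟨0,[(3,0),(15,0),(4,0),(9,0)]⟩⟩,.e ⟨false,0,⟨0,[(0,
  0)]⟩,⟨1,[(3,0),(8,0),(0,0),(3,0),(2,0),(13,1)]⟩⟩ ⟨false,0,⟨8,[(0,4),(3,0),(1,1),(1,1),(9,0),(0,1),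
  (9,2),(5,3)]⟩,⟨1,[(3,0),(13,0),(2,0),(3,0),(9,1)]⟩⟩,.a ⟨true,0,⟨5,[(9,2),(2,0),(0,0),(9,0),(1,0),
  (3,0)]⟩,⟨0,[(7,0)]⟩⟩ ⟨false,0,⟨1,[(0,0),(5,0),(26,0)]⟩,⟨1,[(3,1),(15,0),(0,0),(13,1)]⟩⟩ ⟨true,
  (-1),⟨0,[(1,0),(5,0)]⟩,⟨1,[(3,0),(13,0),(2,0),(3,0),(9,1)]⟩⟩,.o ⟨false,0,⟨0,[(20,0)]⟩,⟨1,[(7,1),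
  (16,0),(10,0)]⟩⟩]⟩))))) (.Q [0,0,-1,0,1,0,2,0,0,-2,2] (.p true [0,0,1] [2,-1,-1] (⟨0,[(18,0)]⟩,⟨0,
  [(17,0)]⟩) .k 2 (⟨0,[(17,0),(3,0)]⟩,⟨0,[(6,0)]⟩) .k (.r (-1) ⟨0,[(0,0),(4,0),(7,0)]⟩ ⟨0,[(1,0),(0,
  0),(24,0)]⟩)) (.Q [0,0,0,0,-1,0,-2,-2,0,2,-2] (.p false [0,0,1] [2,-1,-1] (⟨0,[(19,0)]⟩,⟨0,[(18,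
  0)]⟩) .k 2 (⟨0,[(18,0),(3,0)]⟩,⟨0,[(7,0)]⟩) .k (.r (-1) ⟨0,[(1,0),(4,0),(7,0)]⟩ ⟨4,[(0,0),(1,3),
  (0,3),(11,1),(10,0),(1,2)]⟩)) (.I [0,0,-1,-1,0,0,0,-2] (.Q [0,0,2,0,-1,0,-1,0,0,2,-1] (.p false
  [-1,1,1] [1] (⟨0,[(9,0)]⟩,⟨0,[(20,0),(3,0)]⟩) .k 1 (⟨0,[]⟩,⟨0,[]⟩) .k .k) (.Q [0,1,0,-1,-1,0,-1,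
  -1,0,2,-1] (.p false [-1,1,1] [1] (⟨0,[(10,0)]⟩,⟨0,[(21,0),(3,0)]⟩) .k 1 (⟨0,[]⟩,⟨0,[]⟩) .k .k)
  (.K ⟨0,[2,-1,-1],(-1),(-1),(⟨0,[(22,0),(3,0)]⟩,⟨0,[(11,0)]⟩),.k,(.r (-1) ⟨7,[(2,3),(1,1),(4,5),(7,
  3),(7,2),(10,2)]⟩ ⟨0,[(18,0),(2,0),(11,0),(1,1)]⟩),.k,(.r 0 ⟨0,[(2,0)]⟩ ⟨4,[(1,0),(3,4),(4,2),(2,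
  0),(0,0),(3,4),(2,2),(13,4)]⟩),.k,[⟨0,[(4,0)]⟩,⟨0,[(1,0)]⟩,⟨0,[(18,0),(6,0),(9,0)]⟩,⟨0,[(0,
  0)]⟩]⟩) (.R ⟨1,false,false,false,[0,0,1],[2,-1,-1],[1],(⟨0,[(23,0)]⟩,⟨0,[(22,0)]⟩),(⟨0,[(22,0),(3,
  0)]⟩,⟨0,[(11,0)]⟩),⟨0,[(12,0)]⟩,.k,.k,.k,(.r (-1) ⟨7,[(0,6),(0,3),(8,5),(2,3),(0,3),(3,8),(16,0),
  (1,0)]⟩ ⟨0,[(2,0)]⟩),.k,.k,⟨true,0,⟨1,[(0,1),(0,0),(19,0),(8,0),(1,0)]⟩,⟨1,[(2,0),(30,0),(0,0)]⟩⟩,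
  ⟨false,0,⟨2,[(1,1),(8,1),(25,1)]⟩,⟨0,[(4,0)]⟩⟩,⟨false,0,⟨0,[(6,0)]⟩,⟨1,[(5,0),(4,0),(2,0),(0,0),
  (3,0)]⟩⟩,⟨false,0,⟨3,[(3,2),(5,1),(9,1),(17,2)]⟩,⟨0,[(0,0),(17,0)]⟩⟩,⟨false,0,⟨0,[(6,0),(28,0)]⟩,
  ⟨3,[(5,2),(3,0),(0,1),(2,0),(0,0),(3,0),(15,1)]⟩⟩,⟨true,(-1),⟨0,[(3,0)]⟩,⟨0,[(0,0),(17,0),(15,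
  0)]⟩⟩,[.o ⟨false,0,⟨3,[(3,0),(5,1),(9,1),(17,0)]⟩,⟨0,[(0,0),(38,0)]⟩⟩,.o ⟨false,0,⟨1,[(6,1),(2,0),
  (0,0)]⟩,⟨0,[(0,0),(38,1)]⟩⟩,.a ⟨true,0,⟨0,[(8,0)]⟩,⟨2,[(1,0),(8,0),(25,0)]⟩⟩ ⟨true,0,⟨0,[]⟩,⟨0,
  [(39,0)]⟩⟩ ⟨false,0,⟨1,[(3,0),(5,0),(0,0),(26,0)]⟩,⟨3,[(0,2),(3,0),(13,0),(1,1),(11,0),(2,0)]⟩⟩,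
  .e ⟨false,1,⟨1,[(36,0),(0,0)]⟩,⟨2,[(1,0),(18,0),(4,0)]⟩⟩ ⟨false,0,⟨1,[(6,1),(2,0),(0,0),(6,1)]⟩,
  ⟨0,[(0,0),(19,0),(18,0)]⟩⟩]⟩)) (.R ⟨0,false,false,true,[-1,1,1],[0,0,1],[0,1,1,0,0,0,0,1],(⟨0,
  [(10,0)]⟩,⟨0,[(21,0),(3,0)]⟩),(⟨0,[(22,0)]⟩,⟨0,[(21,0)]⟩),⟨0,[(21,0)]⟩,.k,.k,.k,.k,.k,.k,⟨true,0,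
  ⟨1,[(19,0),(0,0)]⟩,⟨0,[]⟩⟩,⟨false,0,⟨2,[(12,0),(0,0),(9,0),(1,0),(3,0)]⟩,⟨1,[(24,0),(10,0)]⟩⟩,
  ⟨true,0,⟨0,[(33,0)]⟩,⟨0,[(34,0)]⟩⟩,⟨false,0,⟨5,[(8,2),(3,0),(0,0),(9,0),(1,0),(3,0)]⟩,⟨1,[(24,0),
  (9,1),(1,0)]⟩⟩,⟨false,0,⟨0,[]⟩,⟨0,[]⟩⟩,⟨false,0,⟨0,[]⟩,⟨0,[]⟩⟩,[.a ⟨true,0,⟨0,[(17,0)]⟩,⟨1,[(2,0),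
  (33,0)]⟩⟩ ⟨true,0,⟨0,[(17,0),(2,0)]⟩,⟨0,[(5,0)]⟩⟩ ⟨false,0,⟨5,[(9,2),(2,0),(0,0),(3,5),(5,0),(1,
  0),(3,0)]⟩,⟨5,[(0,1),(1,2),(0,1),(20,1),(11,2)]⟩⟩,.o ⟨false,1,⟨3,[(4,1),(7,0),(0,0),(3,1),(6,0)]⟩,
  ⟨1,[(2,0),(21,0)]⟩⟩,.o ⟨false,1,⟨2,[(0,0),(2,0),(20,0)]⟩,⟨0,[(9,0),(9,0)]⟩⟩,.o ⟨false,1,⟨2,[(3,0),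
  (15,0),(4,1)]⟩,⟨5,[(9,2),(2,0),(0,0),(9,0),(1,0),(3,0)]⟩⟩]⟩)) (.R ⟨0,false,false,true,[1,0,-1],[0,
  0,1],[0,1,1,0,0,0,0,1],(⟨0,[(20,0)]⟩,⟨0,[(21,0)]⟩),(⟨0,[(21,0)]⟩,⟨0,[(20,0)]⟩),⟨0,[(9,0)]⟩,.k,.k,
  .k,.k,.k,.k,⟨true,0,⟨1,[(18,0),(0,0)]⟩,⟨0,[]⟩⟩,⟨false,1,⟨5,[(2,3),(15,3),(9,0),(5,2)]⟩,⟨0,[(8,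
  0)]⟩⟩,⟨true,0,⟨0,[(0,0),(31,0)]⟩,⟨0,[(1,0),(0,0)]⟩⟩,⟨false,1,⟨0,[(3,0),(12,0)]⟩,⟨1,[(1,1),(21,0),
  (11,0)]⟩⟩,⟨false,0,⟨0,[]⟩,⟨0,[]⟩⟩,⟨false,0,⟨0,[]⟩,⟨0,[]⟩⟩,[.a ⟨true,0,⟨0,[(16,0)]⟩,⟨1,[(1,0),(33,
  0)]⟩⟩ ⟨true,0,⟨2,[(0,1),(16,0),(0,0),(13,1)]⟩,⟨0,[(4,0)]⟩⟩ ⟨false,1,⟨3,[(2,1),(8,0),(0,0),(3,3),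
  (17,0)]⟩,⟨0,[(4,0),(3,0)]⟩⟩,.o ⟨false,1,⟨3,[(3,1),(7,0),(0,0),(3,1),(6,0)]⟩,⟨1,[(1,0),(21,0)]⟩⟩,
  .e ⟨false,0,⟨1,[(0,0),(30,0),(0,0)]⟩,⟨0,[(5,0),(28,0)]⟩⟩ ⟨false,1,⟨7,[(2,1),(0,3),(7,0),(0,0),(3,
  3),(1,3),(15,0)]⟩,⟨0,[(4,0),(3,0)]⟩⟩,.o ⟨false,0,⟨0,[(19,0)]⟩,⟨3,[(2,1),(8,0),(0,0),(21,0)]⟩⟩]⟩))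
  (.I [0,0,1,0,0,0,0,1] (.Q [0,1,0,-1,-1,0,-1,-1,0,2,-1] (.p false [-1,1,1] [1] (⟨0,[(9,0)]⟩,⟨0,
  [(20,0),(3,0)]⟩) .k 1 (⟨0,[]⟩,⟨0,[]⟩) .k .k) (.R ⟨0,false,false,true,[1,0,-1],[2,-1,-1],[1,0,0,0,
  0,0,0,-1],(⟨0,[(21,0)]⟩,⟨0,[(22,0)]⟩),(⟨0,[(21,0),(3,0)]⟩,⟨0,[(10,0)]⟩),⟨0,[(10,0)]⟩,.k,.k,.k,.k,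
  .k,.k,⟨true,0,⟨0,[(32,0),(1,0)]⟩,⟨0,[(33,0)]⟩⟩,⟨false,0,⟨2,[(12,0),(0,0),(9,0),(1,0),(3,0)]⟩,⟨1,
  [(24,0),(10,0)]⟩⟩,⟨true,0,⟨0,[]⟩,⟨0,[(38,0)]⟩⟩,⟨false,0,⟨5,[(8,2),(3,0),(0,0),(9,0),(1,0),(3,0)]⟩,
  ⟨1,[(24,0),(9,1),(1,0)]⟩⟩,⟨false,0,⟨0,[]⟩,⟨0,[]⟩⟩,⟨false,0,⟨0,[]⟩,⟨0,[]⟩⟩,[.a ⟨true,(-1),⟨0,[(0,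
  0)]⟩,⟨0,[(4,0),(29,0)]⟩⟩ ⟨true,0,⟨3,[(3,0),(1,0),(0,0),(11,1),(10,0)]⟩,⟨0,[(1,0)]⟩⟩ ⟨false,0,⟨10,
  [(0,8),(2,3),(4,0),(9,1),(0,2),(15,4)]⟩,⟨1,[(2,0),(13,1),(7,0),(7,1),(1,1)]⟩⟩,.o ⟨false,0,⟨7,[(0,
  1),(4,1),(2,2),(0,0),(8,3),(17,1)]⟩,⟨1,[(2,0),(21,0),(9,1)]⟩⟩,.e ⟨false,0,⟨0,[(5,0)]⟩,⟨1,[(4,0),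
  (4,0),(2,0),(0,0),(3,0)]⟩⟩ ⟨false,0,⟨21,[(0,9),(2,1),(2,10),(1,5),(9,0),(0,6),(15,7)]⟩,⟨1,[(2,0),
  (13,1),(7,0),(7,1),(1,1)]⟩⟩,.o ⟨false,0,⟨0,[(20,0)]⟩,⟨3,[(3,1),(8,0),(0,0),(21,0)]⟩⟩]⟩) (.Q [0,0,
  0,0,0,0,-1,-1,0,0,-1] (.p false [0,0,1] [] (⟨0,[(22,0)]⟩,⟨0,[(21,0)]⟩) .k 0 (⟨0,[]⟩,⟨0,[]⟩) .k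
  .k) (.R ⟨0,false,false,true,[-1,1,1],[0,0,1],[0,1,1,0,0,0,0,1],(⟨0,[(11,0)]⟩,⟨0,[(22,0),(3,0)]⟩),
  (⟨0,[(23,0)]⟩,⟨0,[(22,0)]⟩),⟨0,[(22,0)]⟩,.k,.k,.k,.k,.k,.k,⟨true,0,⟨1,[(20,0),(0,0)]⟩,⟨0,[]⟩⟩,
  ⟨false,0,⟨2,[(13,0),(0,0),(9,0),(1,0),(3,0)]⟩,⟨1,[(25,0),(10,0)]⟩⟩,⟨true,0,⟨0,[(34,0)]⟩,⟨0,[(35,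
  0)]⟩⟩,⟨false,0,⟨5,[(9,2),(3,0),(0,0),(9,0),(1,0),(3,0)]⟩,⟨1,[(1,0),(17,0),(15,0),(1,0)]⟩⟩,⟨false,
  0,⟨0,[]⟩,⟨0,[]⟩⟩,⟨false,0,⟨0,[]⟩,⟨0,[]⟩⟩,[.a ⟨true,0,⟨0,[(18,0)]⟩,⟨0,[(7,0),(9,0)]⟩⟩ ⟨true,0,⟨0,
  [(2,0),(36,0)]⟩,⟨0,[(6,0)]⟩⟩ ⟨false,0,⟨5,[(10,2),(2,0),(0,0),(3,5),(5,0),(1,0),(3,0)]⟩,⟨1,[(6,1),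
  (18,0),(10,0)]⟩⟩,.o ⟨false,1,⟨1,[(3,0),(9,0),(0,0)]⟩,⟨0,[(0,0)]⟩⟩,.e ⟨false,0,⟨0,[(2,0)]⟩,⟨0,[(7,
  0),(28,0)]⟩⟩ ⟨false,0,⟨8,[(2,8),(10,3),(0,3),(9,0),(1,0),(3,3)]⟩,⟨1,[(6,1),(18,0),(10,0)]⟩⟩,.o
  ⟨false,1,⟨2,[(4,0),(15,0),(4,1)]⟩,⟨5,[(10,2),(2,0),(0,0),(9,0),(1,0),(3,0)]⟩⟩]⟩) (.Q [0,0,0,1,0,0,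
  -1,-1,0,0,-1] (.p false [0,0,1] [] (⟨0,[(23,0)]⟩,⟨0,[(22,0)]⟩) .k 0 (⟨0,[]⟩,⟨0,[]⟩) .k .k) (.R ⟨2,
  false,false,true,[0,1],[0,0,1],[1],(⟨0,[]⟩,⟨0,[]⟩),(⟨0,[(24,0)]⟩,⟨0,[(23,0)]⟩),⟨0,[]⟩,.k,.k,.k,.k,
  .k,.k,⟨true,0,⟨0,[(7,0)]⟩,⟨0,[(3,0),(36,0)]⟩⟩,⟨false,0,⟨0,[(9,0)]⟩,⟨3,[(11,1),(2,0),(0,0),(10,0),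
  (10,1)]⟩⟩,⟨false,1,⟨13,[(2,1),(2,3),(1,1),(2,7),(7,9),(7,2),(11,4)]⟩,⟨1,[(0,0),(2,0),(17,0),(14,
  0)]⟩⟩,⟨true,0,⟨0,[(1,0),(33,0)]⟩,⟨0,[(0,0)]⟩⟩,⟨false,1,⟨1,[(37,0),(0,0)]⟩,⟨1,[(21,0),(0,0)]⟩⟩,
  ⟨false,0,⟨0,[(1,0)]⟩,⟨0,[(20,0),(17,0)]⟩⟩,[.a ⟨true,0,⟨0,[(19,0)]⟩,⟨0,[(8,0),(9,0)]⟩⟩ ⟨true,0,⟨0,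
  []⟩,⟨1,[(21,0),(0,0)]⟩⟩ ⟨false,0,⟨0,[(19,0)]⟩,⟨5,[(7,3),(3,1),(8,1),(5,0),(10,2),(0,1)]⟩⟩,.e
  ⟨false,1,⟨1,[(37,0),(0,0)]⟩,⟨0,[(40,0)]⟩⟩ ⟨false,0,⟨0,[(1,0)]⟩,⟨1,[(20,1),(16,0),(0,0)]⟩⟩,.o
  ⟨false,1,⟨1,[(26,0),(10,0)]⟩,⟨1,[(21,0),(0,0)]⟩⟩,.fo]⟩) (.Q [0,0,0,2,0,0,-1,-1,0,0,-1] (.p false
  [0,0,1] [] (⟨0,[(24,0)]⟩,⟨0,[(23,0)]⟩) .k 0 (⟨0,[]⟩,⟨0,[]⟩) .k .k) (.R ⟨1,false,false,false,[0,0,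
  1],[0,1],[0,1,1],(⟨0,[(25,0)]⟩,⟨0,[(24,0)]⟩),(⟨0,[(29,0)]⟩,⟨0,[(28,0)]⟩),⟨0,[(14,0)]⟩,.k,.k,.k,.k,
  (.r (-1) ⟨3,[(1,4),(4,0),(1,0),(2,0),(7,6),(7,2),(8,0)]⟩ ⟨1,[(0,1),(21,2),(0,0)]⟩),.k,⟨true,0,⟨0,
  [(36,0)]⟩,⟨7,[(0,2),(2,1),(0,0),(17,0),(9,1),(2,5)]⟩⟩,⟨false,1,⟨1,[(19,1),(7,0),(10,0)]⟩,⟨0,[(22,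
  0)]⟩⟩,⟨false,0,⟨1,[(9,0),(11,0),(0,0)]⟩,⟨0,[(7,0),(11,0)]⟩⟩,⟨false,1,⟨3,[(0,1),(14,0),(0,0),(4,1),
  (17,2)]⟩,⟨0,[(1,0)]⟩⟩,⟨false,0,⟨3,[(0,1),(8,0),(11,0),(0,2)]⟩,⟨1,[(1,1),(17,1),(7,0),(11,0)]⟩⟩,
  ⟨true,0,⟨0,[(0,0)]⟩,⟨0,[(1,0),(34,0)]⟩⟩,[.e ⟨false,0,⟨0,[(41,0)]⟩,⟨1,[(38,0),(0,0)]⟩⟩ ⟨false,1,⟨3,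
  [(0,1),(4,0),(6,1),(2,0),(0,0),(21,1)]⟩,⟨5,[(1,2),(4,0),(1,1),(0,0),(0,0),(21,0),(3,2)]⟩⟩,.o
  ⟨false,1,⟨3,[(0,1),(6,1),(19,0),(11,0)]⟩,⟨0,[(36,0)]⟩⟩,.e ⟨false,0,⟨1,[(22,0),(0,0)]⟩,⟨1,[(38,0),
  (0,0)]⟩⟩ ⟨false,1,⟨3,[(0,1),(6,1),(4,1),(2,0),(0,0),(22,0)]⟩,⟨5,[(1,2),(4,0),(1,1),(0,0),(0,0),
  (21,0),(3,2)]⟩⟩,.a ⟨true,0,⟨0,[(22,0)]⟩,⟨0,[(19,0)]⟩⟩ ⟨true,0,⟨0,[(41,0)]⟩,⟨0,[]⟩⟩ ⟨false,1,⟨2,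
  [(0,0),(2,0),(8,0),(6,0),(18,0),(0,0)]⟩,⟨1,[(1,0),(7,0),(12,0),(13,0)]⟩⟩]⟩) (.Q [0,0,0,0,0,2,0,0,
  0,-1] (.pp true [-1,1]) (.Q [0,0,-2,0,1,0,0,0,0,-1] (.pp true [-1,1]) (.R ⟨0,false,false,true,[1,
  -1],[1,0,-1],[0,1,1],(⟨0,[(30,0)]⟩,⟨0,[(31,0)]⟩),(⟨0,[(26,0)]⟩,⟨0,[(27,0)]⟩),⟨0,[(1,0)]⟩,.k,.k,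
  (.r (-1) ⟨0,[(0,0),(12,0)]⟩ ⟨0,[(24,0),(0,0),(13,1)]⟩),.k,.k,.k,⟨true,0,⟨0,[(6,0)]⟩,⟨3,[(8,0),(1,
  0),(0,0),(11,1),(10,0)]⟩⟩,⟨false,1,⟨1,[(0,0),(13,0),(25,0)]⟩,⟨0,[(24,0)]⟩⟩,⟨false,0,⟨0,[(24,0),(0,
  0),(13,0)]⟩,⟨5,[(0,4),(1,1),(7,1),(2,0),(7,1),(12,0),(6,1)]⟩⟩,⟨true,0,⟨0,[(23,0),(15,0)]⟩,⟨0,[(3,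
  0)]⟩⟩,⟨false,0,⟨0,[]⟩,⟨0,[]⟩⟩,⟨false,0,⟨0,[]⟩,⟨0,[]⟩⟩,[.o ⟨false,0,⟨0,[(23,0)]⟩,⟨0,[(9,0)]⟩⟩,.a
  ⟨true,0,⟨9,[(11,1),(9,1),(1,7),(4,1),(1,1),(3,2),(6,2)]⟩,⟨0,[(4,0)]⟩⟩ ⟨true,0,⟨1,[(24,0),(0,0)]⟩,
  ⟨0,[]⟩⟩ ⟨false,1,⟨5,[(0,1),(9,1),(10,1),(1,3),(16,2),(0,0)]⟩,⟨1,[(4,0),(1,0),(17,0)]⟩⟩,.o ⟨false,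
  0,⟨1,[(24,0),(0,0)]⟩,⟨1,[(29,0),(10,0)]⟩⟩,.o ⟨false,0,⟨0,[(24,0),(0,0)]⟩,⟨0,[(0,0)]⟩⟩]⟩) (.R ⟨0,
  false,false,false,[1,0,-1],[0,-1,1],[1,0,0,0,0,0,0,-1],(⟨0,[(26,0)]⟩,⟨0,[(27,0)]⟩),(⟨0,[(16,0)]⟩,
  ⟨22,[(17,2),(0,2),(7,22),(1,4),(4,5),(0,2)]⟩),⟨0,[(15,0)]⟩,.k,.k,.k,(.r 0 ⟨2,[(8,0),(2,2),(11,2),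
  (0,0),(9,0),(4,2)]⟩ ⟨1,[(7,1),(5,0),(0,0),(6,1)]⟩),.k,.k,⟨false,0,⟨1,[(8,0),(1,0),(0,0),(11,1),
  (10,0),(4,1)]⟩,⟨1,[(7,1),(5,0),(0,0),(6,1)]⟩⟩,⟨true,0,⟨0,[(0,0),(7,0)]⟩,⟨0,[(14,0)]⟩⟩,⟨true,0,⟨0,
  []⟩,⟨0,[(43,0)]⟩⟩,⟨false,1,⟨0,[(3,0),(5,0)]⟩,⟨0,[(11,0),(9,0),(1,0),(15,0)]⟩⟩,⟨false,0,⟨0,[]⟩,⟨0,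
  []⟩⟩,⟨false,0,⟨0,[]⟩,⟨0,[]⟩⟩,[.a ⟨true,0,⟨0,[(3,0)]⟩,⟨1,[(23,1),(10,0),(4,1),(1,0)]⟩⟩ ⟨true,0,⟨3,
  [(8,0),(1,0),(0,0),(11,1),(10,0)]⟩,⟨0,[(6,0)]⟩⟩ ⟨false,1,⟨3,[(3,1),(4,1),(0,0),(3,0),(8,0),(17,
  0)]⟩,⟨1,[(11,0),(2,0),(6,0),(1,0),(15,1)]⟩⟩,.o ⟨false,1,⟨3,[(2,1),(6,1),(19,0),(11,0)]⟩,⟨0,[(23,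
  0),(15,0)]⟩⟩,.e ⟨false,0,⟨0,[(10,0)]⟩,⟨1,[(9,0),(4,0),(2,0),(0,0),(3,0)]⟩⟩ ⟨false,1,⟨2,[(2,0),(0,
  0),(4,0),(0,0),(14,0),(16,0)]⟩,⟨1,[(11,0),(2,0),(6,0),(1,0),(15,1)]⟩⟩,.o ⟨false,0,⟨0,[(25,0)]⟩,⟨3,
  [(8,1),(8,0),(0,0),(21,0)]⟩⟩]⟩)) (.I [1,-1,1,1,0,0,0,1] (.Q [-1,-1,-1,0,1,0,1,0,-1,-1,1,-1] (.p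
  true [-1,1,1] [0,0,0,0,1] (⟨0,[(15,0)]⟩,⟨0,[(26,0),(3,0)]⟩) .k 2 (⟨0,[(20,0)]⟩,⟨0,[(19,0)]⟩) .k
  (.r (-1) ⟨5,[(6,3),(2,0),(4,0),(2,2),(0,2),(3,0),(17,1)]⟩ ⟨3,[(8,0),(1,0),(0,0),(11,1),(10,0)]⟩))
  (.R ⟨0,false,false,true,[-1,1,1],[0,0,0,0,1],[1,0,1],(⟨0,[(16,0)]⟩,⟨0,[(27,0),(3,0)]⟩),(⟨0,[(21,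
  0)]⟩,⟨0,[(20,0)]⟩),⟨0,[(27,0)]⟩,.k,.k,.k,(.r 0 ⟨0,[(7,0),(32,0)]⟩ ⟨7,[(9,1),(2,2),(1,3),(9,4),(0,
  0),(15,4),(0,0)]⟩),.k,.k,⟨true,0,⟨0,[(3,0),(7,0),(14,0),(13,1)]⟩,⟨0,[(44,0)]⟩⟩,⟨false,0,⟨5,[(15,
  2),(2,0),(0,6),(9,0),(1,0),(3,0)]⟩,⟨0,[(0,0),(43,0)]⟩⟩,⟨true,0,⟨0,[(11,0),(27,0)]⟩,⟨0,[(1,0),(35,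
  0)]⟩⟩,⟨false,0,⟨1,[(12,0),(1,0),(4,1),(2,0),(1,0)]⟩,⟨0,[(0,0),(6,0),(32,0)]⟩⟩,⟨false,0,⟨0,[]⟩,⟨0,
  []⟩⟩,⟨false,0,⟨0,[]⟩,⟨0,[]⟩⟩,[.e ⟨false,0,⟨0,[]⟩,⟨1,[(18,0),(0,0),(21,0)]⟩⟩ ⟨false,0,⟨7,[(15,5),
  (2,0),(0,8),(5,3),(9,0),(1,3)]⟩,⟨0,[(0,0)]⟩⟩,.a ⟨true,0,⟨0,[(19,0)]⟩,⟨0,[(0,0),(2,0),(7,0),(14,1),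
  (8,0),(1,0),(2,1)]⟩⟩ ⟨true,0,⟨0,[(38,0)]⟩,⟨0,[(44,0)]⟩⟩ ⟨false,0,⟨3,[(15,1),(2,0),(0,4),(15,0)]⟩,
  ⟨0,[(0,0),(43,0)]⟩⟩,.e ⟨false,0,⟨0,[(38,0)]⟩,⟨1,[(18,0),(0,0),(21,0)]⟩⟩ ⟨false,0,⟨0,[(15,0),(3,0),
  (5,0)]⟩,⟨0,[(0,0)]⟩⟩,.o ⟨false,1,⟨2,[(9,0),(15,0),(4,1)]⟩,⟨5,[(15,2),(2,0),(0,0),(9,0),(1,0),(3,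
  0)]⟩⟩]⟩) (.Q [0,0,1,0,0,0,2,0,0,-1,2] (.p true [0,0,1] [1,0,-1] (⟨0,[(28,0)]⟩,⟨0,[(27,0)]⟩) .k 2
  (⟨0,[(27,0)]⟩,⟨0,[(28,0)]⟩) .k (.r (-1) ⟨0,[(7,1),(33,0)]⟩ ⟨4,[(9,0),(1,3),(0,3),(11,1),(10,0),(1,
  2)]⟩)) (.R ⟨0,false,false,false,[1,0,-1],[0,-1,1],[1,0,0,0,0,0,0,-1],(⟨0,[(28,0)]⟩,⟨0,[(29,0)]⟩),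
  (⟨0,[(18,0)]⟩,⟨22,[(19,2),(0,2),(7,22),(1,4),(4,5),(0,2)]⟩),⟨0,[(17,0)]⟩,.k,.k,.k,(.r 0 ⟨2,[(10,
  0),(2,2),(11,2),(0,0),(9,0),(4,2)]⟩ ⟨1,[(9,1),(5,0),(0,0),(6,1)]⟩),.k,.k,⟨false,0,⟨1,[(10,0),(1,
  0),(0,0),(11,1),(10,0),(4,1)]⟩,⟨1,[(9,1),(5,0),(0,0),(6,1)]⟩⟩,⟨true,0,⟨0,[(0,0)]⟩,⟨0,[(16,0)]⟩⟩,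
  ⟨true,0,⟨0,[]⟩,⟨0,[(45,0)]⟩⟩,⟨false,1,⟨0,[(5,0),(5,0)]⟩,⟨0,[(13,0),(9,0),(1,0),(15,0)]⟩⟩,⟨false,0,
  ⟨0,[]⟩,⟨0,[]⟩⟩,⟨false,0,⟨0,[]⟩,⟨0,[]⟩⟩,[.a ⟨true,0,⟨0,[(5,0)]⟩,⟨1,[(25,1),(10,0),(4,1),(1,0)]⟩⟩
  ⟨true,0,⟨3,[(10,0),(1,0),(0,0),(11,1),(10,0)]⟩,⟨0,[(8,0)]⟩⟩ ⟨false,1,⟨3,[(5,1),(4,1),(0,0),(3,0),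
  (8,0),(17,0)]⟩,⟨1,[(13,0),(2,0),(6,0),(1,0),(15,1)]⟩⟩,.o ⟨false,1,⟨3,[(4,1),(6,1),(19,0),(11,0)]⟩,
  ⟨0,[(25,0),(15,0)]⟩⟩,.e ⟨false,0,⟨0,[(12,0)]⟩,⟨1,[(8,1),(10,0),(0,0),(21,0)]⟩⟩ ⟨false,1,⟨3,[(0,0),
  (4,1),(4,0),(0,1),(3,0),(27,0)]⟩,⟨1,[(13,0),(2,0),(6,0),(1,0),(15,1)]⟩⟩,.o ⟨false,0,⟨0,[(27,0)]⟩,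
  ⟨3,[(10,1),(8,0),(0,0),(21,0)]⟩⟩]⟩) (.I [0,0,1,0,-1,1,-2] (.R ⟨0,false,false,false,[-1,1,1],[1,0,
  -1],[1,0,1],(⟨0,[(18,0)]⟩,⟨0,[(29,0),(3,0)]⟩),(⟨0,[(29,0)]⟩,⟨0,[(30,0)]⟩),⟨0,[(29,0)]⟩,.k,.k,.k,
  (.x (-2) ⟨3,[(4,1),(6,3),(8,2),(0,2),(7,7),(2,0)]⟩ ⟨0,[(0,0)]⟩),.k,.k,⟨true,0,⟨0,[(9,0)]⟩,⟨9,[(11,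
  0),(1,3),(0,3),(11,1),(10,0),(1,2)]⟩⟩,⟨false,0,⟨6,[(2,1),(14,5),(2,1),(10,1),(1,1),(3,1),(5,0),(0,
  0)]⟩,⟨0,[(11,0)]⟩⟩,⟨true,0,⟨0,[(13,0),(27,0)]⟩,⟨0,[(3,0),(35,0)]⟩⟩,⟨false,0,⟨1,[(14,2),(1,0),(7,
  2),(1,0)]⟩,⟨0,[(10,0),(31,0)]⟩⟩,⟨false,0,⟨0,[]⟩,⟨0,[]⟩⟩,⟨false,0,⟨0,[]⟩,⟨0,[]⟩⟩,[.e ⟨false,0,⟨0,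
  []⟩,⟨1,[(20,0),(0,0),(21,0)]⟩⟩ ⟨false,0,⟨41,[(2,1),(14,19),(2,1),(5,41),(4,15),(1,15),(3,22),(5,
  0),(0,21)]⟩,⟨3,[(5,1),(2,3),(2,0),(1,1),(23,0),(1,2)]⟩⟩,.a ⟨true,0,⟨0,[(14,0),(9,0)]⟩,⟨0,[(25,
  0)]⟩⟩ ⟨true,0,⟨0,[(40,0)]⟩,⟨0,[(46,0)]⟩⟩ ⟨false,0,⟨9,[(14,6),(2,4),(6,6),(1,2),(4,1),(1,1),(3,2),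
  (6,2)]⟩,⟨1,[(10,0),(0,0),(27,0)]⟩⟩,.e ⟨false,0,⟨0,[(40,0)]⟩,⟨1,[(20,0),(0,0),(21,0)]⟩⟩ ⟨false,0,
  ⟨25,[(2,5),(11,19),(2,19),(2,5),(5,5),(4,7),(1,7),(3,8),(6,8)]⟩,⟨3,[(5,1),(2,3),(2,0),(1,1),(23,
  0),(1,2)]⟩⟩,.o ⟨false,1,⟨2,[(11,0),(15,0),(4,1)]⟩,⟨13,[(2,1),(14,5),(2,1),(10,1),(1,1),(3,1),(5,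
  0),(0,0)]⟩⟩]⟩) (.Q [0,0,0,0,0,0,0,0,1,-1,0,1] (.p true [0,0,0,0,1] [1] (⟨0,[(23,0)]⟩,⟨0,[(22,
  0)]⟩) .k 1 (⟨0,[]⟩,⟨0,[]⟩) .k .k) (.Q [0,0,-1,0,1,0,1,1,-1,0,1,-1] (.p true [0,0,1] [0,0,0,0,1]
  (⟨0,[(31,0)]⟩,⟨0,[(30,0)]⟩) .k 2 (⟨0,[(24,0)]⟩,⟨0,[(23,0)]⟩) .k (.r (-1) ⟨5,[(10,3),(2,0),(4,0),
  (2,2),(0,2),(3,0),(17,1)]⟩ ⟨3,[(12,0),(1,0),(0,0),(11,1),(10,0)]⟩)) (.Q [0,0,0,0,0,1,0,0,0,0,0,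
  -1] (.ed true [1,-1,0,0,1] .k) (.R ⟨0,false,false,true,[0,0,0,0,1],[0,0,1],[0,1],(⟨0,[(26,0)]⟩,⟨0,
  [(25,0)]⟩),(⟨0,[(33,0)]⟩,⟨0,[(32,0)]⟩),⟨0,[(0,0)]⟩,.k,.k,(.r (-1) ⟨3,[(19,1),(3,0),(0,0),(10,0),
  (10,1)]⟩ ⟨4,[(6,1),(22,1),(0,1),(14,2),(2,0)]⟩),.k,.k,.k,⟨true,0,⟨9,[(14,0),(1,3),(0,3),(11,1),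
  (10,0),(1,2)]⟩,⟨0,[(12,0)]⟩⟩,⟨false,1,⟨9,[(1,5),(12,0),(1,5),(1,1),(4,3),(16,0),(1,2)]⟩,⟨1,[(2,0),
  (17,0),(3,0)]⟩⟩,⟨true,0,⟨0,[(49,0)]⟩,⟨0,[]⟩⟩,⟨false,1,⟨4,[(1,3),(10,0),(10,0),(6,0),(17,1)]⟩,⟨1,
  [(2,0),(1,0),(11,0),(0,0),(6,0)]⟩⟩,⟨false,0,⟨0,[]⟩,⟨0,[]⟩⟩,⟨false,0,⟨0,[]⟩,⟨0,[]⟩⟩,[.a ⟨true,0,⟨0,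
  [(28,0)]⟩,⟨0,[(17,0),(9,0)]⟩⟩ ⟨true,0,⟨0,[(49,0)]⟩,⟨0,[(43,0)]⟩⟩ ⟨false,1,⟨2,[(1,1),(21,0),(4,0),
  (13,0)]⟩,⟨1,[(2,0),(1,0),(11,0),(0,0),(6,0)]⟩⟩,.e ⟨false,1,⟨1,[(23,0),(0,0),(21,0)]⟩,⟨0,[]⟩⟩
  ⟨false,1,⟨0,[(1,0)]⟩,⟨3,[(2,0),(1,0),(11,0),(0,0),(6,2),(4,1)]⟩⟩,.o ⟨false,0,⟨0,[(2,0)]⟩,⟨0,[(23,
  0)]⟩⟩,.e ⟨false,1,⟨1,[(23,0),(0,0),(21,0)]⟩,⟨0,[(43,0)]⟩⟩ ⟨false,1,⟨0,[(1,0)]⟩,⟨1,[(2,0),(14,1),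
  (2,0),(3,0)]⟩⟩]⟩) (.R ⟨1,false,false,true,[0,0,0,0,1],[0,0,1],[1],(⟨0,[(26,0)]⟩,⟨0,[(25,0)]⟩),(⟨0,
  [(33,0)]⟩,⟨0,[(32,0)]⟩),⟨0,[(0,0)]⟩,.k,.k,(.r (-1) ⟨3,[(19,1),(3,0),(0,0),(10,0),(10,1)]⟩ ⟨4,[(6,
  1),(22,1),(0,1),(14,2),(2,0)]⟩),.k,(.r (-1) ⟨7,[(14,1),(2,2),(1,3),(9,4),(0,0),(15,4),(0,0)]⟩ ⟨0,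
  [(12,0),(32,0)]⟩),.k,⟨true,0,⟨0,[(16,0)]⟩,⟨0,[(12,0),(36,0)]⟩⟩,⟨false,1,⟨9,[(1,5),(12,0),(1,5),(1,
  1),(4,3),(16,0),(1,2)]⟩,⟨1,[(2,0),(17,0),(3,0)]⟩⟩,⟨false,1,⟨1,[(23,0),(0,0),(22,0)]⟩,⟨0,[]⟩⟩,
  ⟨false,1,⟨4,[(1,3),(10,0),(10,0),(6,0),(17,1)]⟩,⟨1,[(2,0),(1,0),(11,0),(0,0),(6,0)]⟩⟩,⟨true,0,⟨0,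
  [(45,0)]⟩,⟨0,[(44,0)]⟩⟩,⟨false,1,⟨6,[(1,3),(4,0),(5,0),(10,2),(4,0),(1,1),(14,5)]⟩,⟨1,[(2,1),(1,
  0),(11,0),(0,0),(1,0)]⟩⟩,[.a ⟨true,0,⟨0,[(28,0)]⟩,⟨0,[(17,0),(9,0)]⟩⟩ ⟨true,0,⟨0,[]⟩,⟨1,[(30,0),
  (0,0)]⟩⟩ ⟨false,1,⟨2,[(1,1),(21,0),(4,0),(13,0)]⟩,⟨1,[(2,0),(1,0),(11,0),(0,0),(6,0)]⟩⟩,.e ⟨false,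
  1,⟨1,[(46,0),(0,0)]⟩,⟨0,[(49,0)]⟩⟩ ⟨false,1,⟨0,[(1,0)]⟩,⟨3,[(2,0),(1,0),(11,0),(0,0),(6,2),(4,
  1)]⟩⟩,.o ⟨false,0,⟨0,[(2,0)]⟩,⟨0,[(23,0)]⟩⟩,.e ⟨false,1,⟨1,[(46,0),(0,0)]⟩,⟨1,[(30,0),(0,0)]⟩⟩
  ⟨false,1,⟨0,[(1,0)]⟩,⟨1,[(2,0),(14,1),(2,0),(3,0)]⟩⟩]⟩)) (.Q [1,1,0,0,-1,0,0,0,1,0,0,1] (.p true
  [0,0,0,0,1] [] (⟨0,[(25,0)]⟩,⟨0,[(24,0)]⟩) .k 0 (⟨0,[]⟩,⟨0,[]⟩) .k .k) (.K ⟨0,[0,0,0,0,1],(-1),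
  (-1),(⟨0,[(26,0)]⟩,⟨0,[(25,0)]⟩),.k,(.r (-1) ⟨3,[(19,1),(3,0),(0,0),(10,0),(10,1)]⟩ ⟨4,[(6,1),(22,
  1),(0,1),(14,2),(2,0)]⟩),(.r 0 ⟨1,[(6,0),(22,0),(0,0),(14,0)]⟩ ⟨9,[(19,3),(3,1),(0,1),(16,1),(2,
  1),(1,4),(0,0)]⟩),.k,.k,[⟨0,[(18,0),(4,0)]⟩,⟨0,[(1,0),(8,0)]⟩,⟨0,[(23,0),(25,0)]⟩,⟨0,[(0,0)]⟩]⟩)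
  (.Q [0,0,0,0,0,-1,0,0,0,0,0,1] (.ed false [1,-1,0,0,1] .k) (.R ⟨1,false,false,true,[0,0,0,0,1],[0,
  0,1],[1],(⟨0,[(27,0)]⟩,⟨0,[(26,0)]⟩),(⟨0,[(34,0)]⟩,⟨0,[(33,0)]⟩),⟨0,[(0,0)]⟩,.k,.k,(.r (-1) ⟨3,
  [(20,1),(3,0),(0,0),(10,0),(10,1)]⟩ ⟨4,[(7,1),(22,1),(0,1),(14,2),(2,0)]⟩),.k,(.r (-1) ⟨7,[(15,1),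
  (2,2),(1,3),(9,4),(0,0),(15,4),(0,0)]⟩ ⟨0,[(13,0),(32,0)]⟩),.k,⟨true,0,⟨0,[(17,0)]⟩,⟨0,[(13,0),
  (36,0)]⟩⟩,⟨false,1,⟨1,[(1,1),(13,0),(25,0),(1,0)]⟩,⟨1,[(3,0),(17,0),(3,0)]⟩⟩,⟨false,1,⟨1,[(24,0),
  (0,0),(22,0)]⟩,⟨0,[]⟩⟩,⟨false,1,⟨0,[(1,0),(27,0)]⟩,⟨1,[(2,1),(44,0),(0,0)]⟩⟩,⟨true,0,⟨0,[(46,0)]⟩,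
  ⟨0,[(45,0)]⟩⟩,⟨false,1,⟨0,[(11,0),(12,0),(21,0)]⟩,⟨19,[(2,5),(0,13),(1,5),(11,11),(2,9),(9,1),(5,
  0),(11,4)]⟩⟩,[.a ⟨true,0,⟨0,[(29,0)]⟩,⟨0,[(18,0),(9,0)]⟩⟩ ⟨true,0,⟨0,[]⟩,⟨1,[(31,0),(0,0)]⟩⟩
  ⟨false,1,⟨0,[(1,0),(9,0),(31,0)]⟩,⟨1,[(2,1),(44,0),(0,0)]⟩⟩,.a ⟨true,0,⟨0,[(11,0)]⟩,⟨9,[(18,1),(9,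
  1),(1,7),(4,1),(1,1),(3,2),(6,2)]⟩⟩ ⟨false,1,⟨1,[(47,0),(0,0)]⟩,⟨0,[(50,0)]⟩⟩ ⟨true,1,⟨0,[(11,0),
  (12,0)]⟩,⟨0,[(2,0)]⟩⟩,.o ⟨false,0,⟨0,[(3,0)]⟩,⟨0,[(24,0)]⟩⟩,.a ⟨true,(-1),⟨0,[(2,0),(8,0)]⟩,⟨19,
  [(1,3),(6,1),(15,15),(10,3),(5,8),(1,1),(3,8)]⟩⟩ ⟨false,1,⟨1,[(47,0),(0,0)]⟩,⟨1,[(31,0),(0,0)]⟩⟩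
  ⟨true,1,⟨0,[(1,0),(9,0),(31,0)]⟩,⟨0,[(2,0)]⟩⟩]⟩) (.R ⟨0,false,false,true,[0,0,0,0,1],[0,0,1],[0,
  1],(⟨0,[(27,0)]⟩,⟨0,[(26,0)]⟩),(⟨0,[(34,0)]⟩,⟨0,[(33,0)]⟩),⟨0,[(0,0)]⟩,.k,.k,(.r (-1) ⟨3,[(20,1),
  (3,0),(0,0),(10,0),(10,1)]⟩ ⟨4,[(7,1),(22,1),(0,1),(14,2),(2,0)]⟩),.k,.k,.k,⟨true,0,⟨9,[(15,0),(1,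
  3),(0,3),(11,1),(10,0),(1,2)]⟩,⟨0,[(13,0)]⟩⟩,⟨false,1,⟨1,[(1,1),(13,0),(25,0),(1,0)]⟩,⟨1,[(3,0),
  (17,0),(3,0)]⟩⟩,⟨true,0,⟨0,[(50,0)]⟩,⟨0,[]⟩⟩,⟨false,1,⟨0,[(1,0),(27,0)]⟩,⟨1,[(2,1),(44,0),(0,
  0)]⟩⟩,⟨false,0,⟨0,[]⟩,⟨0,[]⟩⟩,⟨false,0,⟨0,[]⟩,⟨0,[]⟩⟩,[.a ⟨true,0,⟨0,[(29,0)]⟩,⟨0,[(18,0),(9,
  0)]⟩⟩ ⟨true,0,⟨0,[(50,0)]⟩,⟨0,[(44,0)]⟩⟩ ⟨false,1,⟨0,[(1,0),(9,0),(31,0)]⟩,⟨1,[(2,1),(44,0),(0,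
  0)]⟩⟩,.a ⟨true,0,⟨0,[(11,0)]⟩,⟨9,[(18,1),(9,1),(1,7),(4,1),(1,1),(3,2),(6,2)]⟩⟩ ⟨false,1,⟨1,[(24,
  0),(0,0),(21,0)]⟩,⟨0,[]⟩⟩ ⟨true,1,⟨0,[(11,0),(12,0)]⟩,⟨0,[(2,0)]⟩⟩,.o ⟨false,0,⟨0,[(3,0)]⟩,⟨0,
  [(24,0)]⟩⟩,.a ⟨true,(-1),⟨0,[(2,0),(8,0)]⟩,⟨19,[(1,3),(6,1),(15,15),(10,3),(5,8),(1,1),(3,8)]⟩⟩
  ⟨false,1,⟨1,[(24,0),(0,0),(21,0)]⟩,⟨0,[(44,0)]⟩⟩ ⟨true,1,⟨0,[(1,0),(9,0),(31,0)]⟩,⟨0,[(2,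
  0)]⟩⟩]⟩)))) (.Q [-1,0,0,0,0,0,0,0,-1,1,0,-1] (.p false [0,0,0,0,1] [1] (⟨0,[(24,0)]⟩,⟨0,[(23,
  0)]⟩) .k 1 (⟨0,[]⟩,⟨0,[]⟩) .k .k) (.R ⟨0,false,false,true,[1,0,-1],[1,0,0,0,-1],[1,0,1],(⟨0,[(31,
  0)]⟩,⟨0,[(32,0)]⟩),(⟨0,[(24,0)]⟩,⟨0,[(25,0)]⟩),⟨0,[(20,0)]⟩,.k,.k,.k,.k,.k,.k,⟨true,0,⟨0,[(42,
  0)]⟩,⟨0,[(48,0)]⟩⟩,⟨false,1,⟨4,[(1,3),(11,1),(8,0),(6,0),(15,1)]⟩,⟨67,[(3,28),(0,30),(1,1),(0,6),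
  (2,13),(4,20),(7,36),(9,3),(6,16),(0,1)]⟩⟩,⟨true,0,⟨0,[(11,0)]⟩,⟨0,[(15,0),(25,0)]⟩⟩,⟨false,1,⟨21,
  [(0,10),(5,0),(5,5),(9,10),(4,9),(5,1),(12,4)]⟩,⟨11,[(3,4),(0,4),(2,0),(2,1),(4,14),(7,6),(10,
  2)]⟩⟩,⟨false,0,⟨0,[]⟩,⟨0,[]⟩⟩,⟨false,0,⟨0,[]⟩,⟨0,[]⟩⟩,[.e ⟨false,0,⟨0,[]⟩,⟨1,[(22,0),(0,0),(21,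
  0)]⟩⟩ ⟨false,1,⟨9,[(0,1),(0,3),(11,2),(8,3),(6,3),(11,4),(3,2)]⟩,⟨2,[(3,1),(0,1),(2,0),(2,1),(4,
  2),(7,0)]⟩⟩,.a ⟨true,0,⟨0,[(0,0)]⟩,⟨0,[(23,0)]⟩⟩ ⟨true,0,⟨0,[(42,0)]⟩,⟨0,[(48,0)]⟩⟩ ⟨false,1,⟨4,
  [(0,2),(0,0),(11,1),(8,0),(6,0),(15,1)]⟩,⟨11,[(3,4),(0,4),(2,0),(2,1),(4,2),(7,6),(10,2)]⟩⟩,.e
  ⟨false,0,⟨0,[(42,0)]⟩,⟨1,[(22,0),(0,0),(21,0)]⟩⟩ ⟨false,1,⟨12,[(0,4),(5,0),(6,2),(8,7),(6,6),(3,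
  1),(11,1)]⟩,⟨2,[(3,1),(0,1),(2,0),(2,1),(4,2),(7,0)]⟩⟩,.o ⟨false,0,⟨0,[(30,0)]⟩,⟨3,[(13,1),(8,0),
  (0,0),(21,0)]⟩⟩]⟩) (.K ⟨0,[1,0,0,0,-1],0,0,(⟨0,[(24,0)]⟩,⟨0,[(25,0)]⟩),.k,(.r (-1) ⟨9,[(18,3),(3,
  1),(0,1),(16,1),(2,1),(1,4),(0,0)]⟩ ⟨1,[(5,0),(22,0),(0,0),(14,0)]⟩),(.r 0 ⟨4,[(5,1),(22,1),(0,1),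
  (14,2),(2,0)]⟩ ⟨3,[(18,1),(3,0),(0,0),(10,0),(10,1)]⟩),.k,.k,[⟨2,[(0,2),(7,0),(6,0),(1,1),(26,0),
  (3,0)]⟩,⟨1,[(1,1),(27,0),(0,0)]⟩,⟨3,[(0,1),(3,1),(8,0),(20,0),(6,0)]⟩,⟨0,[(1,0),(46,0)]⟩]⟩))))))
  (.R ⟨0,false,false,true,[-1,1,1],[0,0,1],[0,1],(⟨0,[(15,0)]⟩,⟨0,[(26,0),(3,0)]⟩),(⟨0,[(27,0)]⟩,⟨0,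
  [(26,0)]⟩),⟨0,[(26,0)]⟩,.k,.k,.k,.k,.k,.k,⟨true,0,⟨13,[(0,2),(7,1),(1,1),(0,4),(11,3),(10,1),(4,
  2)]⟩,⟨0,[(6,0)]⟩⟩,⟨false,0,⟨2,[(17,0),(0,0),(9,0),(1,0),(3,0)]⟩,⟨1,[(29,0),(10,0)]⟩⟩,⟨true,0,⟨0,
  [(0,0)]⟩,⟨0,[(6,0),(32,0)]⟩⟩,⟨false,0,⟨5,[(13,2),(3,0),(0,0),(9,0),(1,0),(3,0)]⟩,⟨1,[(5,0),(17,0),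
  (15,0),(1,0)]⟩⟩,⟨false,0,⟨0,[]⟩,⟨0,[]⟩⟩,⟨false,0,⟨0,[]⟩,⟨0,[]⟩⟩,[.a ⟨true,0,⟨0,[(22,0)]⟩,⟨0,[(11,
  0),(9,0)]⟩⟩ ⟨true,0,⟨0,[(43,0)]⟩,⟨0,[(37,0)]⟩⟩ ⟨false,0,⟨5,[(14,2),(2,0),(0,0),(3,5),(5,0),(1,0),
  (3,0)]⟩,⟨1,[(10,1),(18,0),(10,0)]⟩⟩,.e ⟨false,1,⟨1,[(17,0),(0,0),(21,0)]⟩,⟨0,[]⟩⟩ ⟨false,0,⟨3,[(6,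
  1),(14,1),(0,1),(11,0),(6,0)]⟩,⟨5,[(8,1),(1,1),(12,3),(5,0),(10,1),(0,0)]⟩⟩,.o ⟨false,1,⟨0,[(0,0),
  (4,0)]⟩,⟨0,[(14,0),(9,0)]⟩⟩,.o ⟨false,1,⟨2,[(8,0),(15,0),(4,1)]⟩,⟨5,[(14,2),(2,0),(0,0),(9,0),(1,
  0),(3,0)]⟩⟩]⟩))))))) (.R ⟨0,false,false,true,[-1,1,1],[0,0,1],[0,1,1,0,0,0,0,1],(⟨0,[(9,0)]⟩,⟨0,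
  [(20,0),(3,0)]⟩),(⟨0,[(21,0)]⟩,⟨0,[(20,0)]⟩),⟨0,[(20,0)]⟩,.k,.k,.k,.k,.k,.k,⟨true,0,⟨1,[(18,0),(0,
  0)]⟩,⟨0,[]⟩⟩,⟨false,0,⟨2,[(11,0),(0,0),(9,0),(1,0),(3,0)]⟩,⟨1,[(23,0),(10,0)]⟩⟩,⟨true,0,⟨0,[(32,
  0)]⟩,⟨0,[(33,0)]⟩⟩,⟨false,0,⟨5,[(7,2),(3,0),(0,0),(9,0),(1,0),(3,0)]⟩,⟨1,[(23,0),(9,1),(1,0)]⟩⟩,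
  ⟨false,0,⟨0,[]⟩,⟨0,[]⟩⟩,⟨false,0,⟨0,[]⟩,⟨0,[]⟩⟩,[.a ⟨true,0,⟨0,[(16,0)]⟩,⟨0,[(5,0),(9,0)]⟩⟩ ⟨true,
  0,⟨0,[(16,0),(2,0)]⟩,⟨0,[(4,0)]⟩⟩ ⟨false,0,⟨5,[(8,2),(2,0),(0,0),(3,5),(5,0),(1,0),(3,0)]⟩,⟨1,[(0,
  1),(22,0),(11,0)]⟩⟩,.o ⟨false,1,⟨1,[(1,0),(9,0),(0,0)]⟩,⟨0,[(0,0),(18,0)]⟩⟩,.o ⟨false,1,⟨1,[(0,1),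
  (0,0),(21,0)]⟩,⟨0,[(8,0),(9,0)]⟩⟩,.o ⟨false,1,⟨2,[(2,0),(15,0),(4,1)]⟩,⟨5,[(8,2),(2,0),(0,0),(9,
  0),(1,0),(3,0)]⟩⟩]⟩))) (.I [0,0,1,0,0,0,0,1] (.R ⟨0,false,false,true,[-1,1,1],[0,0,1],[0,1,1,0,0,
  0,0,1],(⟨0,[(8,0)]⟩,⟨0,[(19,0),(3,0)]⟩),(⟨0,[(20,0)]⟩,⟨0,[(19,0)]⟩),⟨0,[(19,0)]⟩,.k,.k,.k,.k,.k,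
  .k,⟨true,0,⟨1,[(17,0),(0,0)]⟩,⟨0,[]⟩⟩,⟨false,0,⟨2,[(10,0),(0,0),(9,0),(1,0),(3,0)]⟩,⟨1,[(22,0),
  (10,0)]⟩⟩,⟨true,0,⟨0,[(31,0)]⟩,⟨0,[(32,0)]⟩⟩,⟨false,0,⟨5,[(6,2),(3,0),(0,0),(9,0),(1,0),(3,0)]⟩,
  ⟨1,[(22,0),(9,1),(1,0)]⟩⟩,⟨false,0,⟨0,[]⟩,⟨0,[]⟩⟩,⟨false,0,⟨0,[]⟩,⟨0,[]⟩⟩,[.a ⟨true,0,⟨0,[(15,
  0)]⟩,⟨0,[(4,0),(9,0)]⟩⟩ ⟨true,0,⟨0,[(0,0),(35,0)]⟩,⟨0,[(3,0)]⟩⟩ ⟨false,0,⟨3,[(1,1),(8,0),(0,0),(3,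
  3),(17,0)]⟩,⟨1,[(3,1),(18,0),(10,0)]⟩⟩,.o ⟨false,1,⟨3,[(2,1),(7,0),(0,0),(3,1),(6,0)]⟩,⟨1,[(1,0),
  (1,1),(18,0),(6,0)]⟩⟩,.e ⟨false,0,⟨0,[(0,0)]⟩,⟨0,[(4,0),(28,0)]⟩⟩ ⟨false,0,⟨7,[(0,1),(0,3),(8,0),
  (0,0),(3,5),(1,1),(16,2)]⟩,⟨1,[(3,1),(18,0),(10,0)]⟩⟩,.o ⟨false,1,⟨0,[(5,0),(16,0)]⟩,⟨3,[(1,1),(8,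
  0),(0,0),(21,0)]⟩⟩]⟩) (.R ⟨0,false,false,true,[-1,1,1],[1,0,-1],[0,1,1,0,0,0,0,1],(⟨0,[(8,0)]⟩,⟨0,
  [(19,0),(3,0)]⟩),(⟨0,[(19,0)]⟩,⟨0,[(20,0)]⟩),⟨0,[(19,0)]⟩,.k,.k,.k,(.r (-1) ⟨2,[(1,0),(0,2),(4,0),
  (2,0),(0,0),(3,2),(2,1),(13,2)]⟩ ⟨0,[(0,0),(2,0),(27,0)]⟩),.k,.k,⟨false,1,⟨0,[(2,0),(4,0),(7,0)]⟩,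
  ⟨3,[(0,5),(3,0),(11,0),(0,0)]⟩⟩,⟨true,(-1),⟨0,[(1,0)]⟩,⟨0,[(5,1),(16,0)]⟩⟩,⟨true,0,⟨0,[(31,0)]⟩,
  ⟨0,[(32,0)]⟩⟩,⟨false,(-1),⟨0,[(0,0),(0,0),(1,0),(27,0)]⟩,⟨3,[(2,5),(7,0),(0,0),(3,1),(6,0),(9,
  3)]⟩⟩,⟨false,0,⟨0,[]⟩,⟨0,[]⟩⟩,⟨false,0,⟨0,[]⟩,⟨0,[]⟩⟩,[.o ⟨false,0,⟨0,[(16,0)]⟩,⟨0,[(2,0)]⟩⟩,.o
  ⟨false,0,⟨2,[(0,0),(0,0),(1,0),(12,0),(5,0)]⟩,⟨3,[(2,1),(7,0),(0,0),(3,1),(6,0)]⟩⟩,.a ⟨true,1,⟨1,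
  [(5,1),(16,0),(10,0)]⟩,⟨0,[(1,0),(3,0)]⟩⟩ ⟨true,0,⟨0,[(15,0),(2,0)]⟩,⟨0,[(0,0)]⟩⟩ ⟨false,(-1),⟨15,
  [(0,4),(0,13),(2,6),(11,3),(10,1),(8,2)]⟩,⟨1,[(2,1),(2,1),(16,0),(10,0)]⟩⟩,.o ⟨false,1,⟨0,[(5,0),
  (16,0)]⟩,⟨3,[(1,1),(8,0),(0,0),(21,0)]⟩⟩]⟩)))) (.I [0,-1,-1,0,1,0,0,1] (.Q [0,0,0,0,0,0,-1,-1,0,0,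
  -1] (.p false [0,0,1] [] (⟨0,[(18,0)]⟩,⟨0,[(17,0)]⟩) .k 0 (⟨0,[]⟩,⟨0,[]⟩) .k .k) (.S ⟨1,0,[0,0,0,
  0,0,0,0,1],[0,0,1],[0,1,0,0,0,0,0,1],(⟨0,[(19,0)]⟩,⟨0,[(18,0)]⟩),⟨0,[(8,0)]⟩,.k,.k,⟨true,0,⟨0,
  [(35,0)]⟩,⟨0,[]⟩⟩,⟨false,1,⟨1,[(9,0),(0,0),(22,0)]⟩,⟨0,[]⟩⟩,⟨false,0,⟨0,[(31,0)]⟩,⟨3,[(5,1),(3,0),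
  (0,0),(10,0),(11,1)]⟩⟩,⟨true,0,⟨0,[(31,0)]⟩,⟨0,[(30,0)]⟩⟩,[.o ⟨false,1,⟨1,[(14,1),(6,0),(11,0)]⟩,
  ⟨0,[(0,0)]⟩⟩,.e ⟨false,1,⟨3,[(1,2),(0,0),(6,0),(0,0),(17,0)]⟩,⟨0,[(0,0),(3,0)]⟩⟩ ⟨false,1,⟨0,[(1,
  0)]⟩,⟨0,[(3,0),(24,0)]⟩⟩,.a ⟨true,0,⟨0,[(4,0)]⟩,⟨5,[(6,2),(2,0),(0,0),(9,0),(1,0),(3,0)]⟩⟩ ⟨true,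
  0,⟨0,[(2,0)]⟩,⟨0,[(0,0),(3,0)]⟩⟩ ⟨false,1,⟨1,[(1,0),(12,0),(2,0),(15,0)]⟩,⟨0,[(0,0),(3,0)]⟩⟩,.e
  ⟨false,1,⟨3,[(1,2),(0,0),(6,0),(0,0),(17,0)]⟩,⟨0,[(3,0)]⟩⟩ ⟨false,1,⟨0,[(1,0)]⟩,⟨1,[(3,0),(11,0),
  (0,0)]⟩⟩]⟩) (.I [1,0,0,0,0,0,0,-1] (.Q [0,-1,-1,0,1,0,0,-1,0,-1] (.pp true [-1,1]) (.R ⟨0,false,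
  false,true,[-1,1,1],[0,0,1],[0,1,1,0,0,0,0,1],(⟨0,[(9,0)]⟩,⟨0,[(20,0),(3,0)]⟩),(⟨0,[(21,0)]⟩,⟨0,
  [(20,0)]⟩),⟨0,[(20,0)]⟩,.k,.k,.k,.k,.k,.k,⟨true,0,⟨1,[(18,0),(0,0)]⟩,⟨0,[]⟩⟩,⟨false,0,⟨2,[(11,0),
  (0,0),(9,0),(1,0),(3,0)]⟩,⟨1,[(23,0),(10,0)]⟩⟩,⟨true,0,⟨0,[(32,0)]⟩,⟨0,[(33,0)]⟩⟩,⟨false,0,⟨5,[(7,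
  2),(3,0),(0,0),(9,0),(1,0),(3,0)]⟩,⟨1,[(23,0),(9,1),(1,0)]⟩⟩,⟨false,0,⟨0,[]⟩,⟨0,[]⟩⟩,⟨false,0,⟨0,
  []⟩,⟨0,[]⟩⟩,[.e ⟨false,0,⟨0,[(4,0)]⟩,⟨0,[(5,0),(28,0)]⟩⟩ ⟨false,0,⟨5,[(8,2),(2,0),(0,0),(3,5),(5,
  0),(1,0),(3,0)]⟩,⟨0,[(0,0)]⟩⟩,.a ⟨true,0,⟨0,[(2,0)]⟩,⟨9,[(5,1),(9,1),(1,7),(4,1),(1,1),(3,2),(6,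
  2)]⟩⟩ ⟨true,0,⟨0,[(2,0),(16,0)]⟩,⟨0,[(1,0)]⟩⟩ ⟨false,0,⟨2,[(2,0),(0,0),(4,0),(7,0),(11,0),(7,0)]⟩,
  ⟨11,[(0,9),(10,0),(0,0),(4,1),(0,1),(4,0),(6,3)]⟩⟩,.e ⟨false,0,⟨0,[(2,0),(16,0)]⟩,⟨0,[(5,0),(28,
  0)]⟩⟩ ⟨false,0,⟨0,[(2,0),(5,0),(9,0)]⟩,⟨0,[(0,0)]⟩⟩,.o ⟨false,1,⟨0,[(6,0),(16,0)]⟩,⟨5,[(8,2),(2,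
  0),(0,0),(9,0),(1,0),(3,0)]⟩⟩]⟩) (.R ⟨0,false,false,true,[-1,1,1],[0,0,1],[0,1,1,0,0,0,0,1],(⟨0,
  [(9,0)]⟩,⟨0,[(20,0),(3,0)]⟩),(⟨0,[(21,0)]⟩,⟨0,[(20,0)]⟩),⟨0,[(20,0)]⟩,.k,.k,.k,.k,.k,.k,⟨true,0,
  ⟨1,[(18,0),(0,0)]⟩,⟨0,[]⟩⟩,⟨false,0,⟨2,[(11,0),(0,0),(9,0),(1,0),(3,0)]⟩,⟨1,[(23,0),(10,0)]⟩⟩,
  ⟨true,0,⟨0,[(32,0)]⟩,⟨0,[(33,0)]⟩⟩,⟨false,0,⟨5,[(7,2),(3,0),(0,0),(9,0),(1,0),(3,0)]⟩,⟨1,[(23,0),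
  (9,1),(1,0)]⟩⟩,⟨false,0,⟨0,[]⟩,⟨0,[]⟩⟩,⟨false,0,⟨0,[]⟩,⟨0,[]⟩⟩,[.a ⟨true,0,⟨0,[(16,0)]⟩,⟨0,[(5,0),
  (9,0)]⟩⟩ ⟨false,0,⟨0,[(4,0)]⟩,⟨0,[(5,0),(28,0)]⟩⟩ ⟨true,(-1),⟨0,[(0,0)]⟩,⟨1,[(5,1),(17,0),(10,
  0)]⟩⟩,.a ⟨true,0,⟨0,[(2,0)]⟩,⟨9,[(5,1),(9,1),(1,7),(4,1),(1,1),(3,2),(6,2)]⟩⟩ ⟨true,0,⟨1,[(0,1),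
  (22,0),(11,0)]⟩,⟨0,[(1,0)]⟩⟩ ⟨false,0,⟨17,[(0,8),(2,8),(7,3),(0,3),(9,0),(1,0),(3,3)]⟩,⟨1,[(1,1),
  (21,0),(10,0)]⟩⟩,.a ⟨true,1,⟨1,[(6,1),(16,0),(10,0)]⟩,⟨0,[(0,0),(4,0),(9,0)]⟩⟩ ⟨false,0,⟨1,[(0,1),
  (22,0),(11,0)]⟩,⟨0,[(5,0),(28,0)]⟩⟩ ⟨true,(-1),⟨0,[(0,0)]⟩,⟨1,[(1,1),(21,0),(10,0)]⟩⟩,.o ⟨false,1,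
  ⟨0,[(6,0),(16,0)]⟩,⟨5,[(8,2),(2,0),(0,0),(9,0),(1,0),(3,0)]⟩⟩]⟩)) (.S ⟨1,0,[0,0,0,0,0,0,0,1],[0,0,
  1],[0,1,0,0,0,0,0,1],(⟨0,[(20,0)]⟩,⟨0,[(19,0)]⟩),⟨0,[(9,0)]⟩,.k,.k,⟨true,0,⟨0,[(36,0)]⟩,⟨0,[]⟩⟩,
  ⟨false,1,⟨1,[(10,0),(0,0),(22,0)]⟩,⟨0,[]⟩⟩,⟨false,0,⟨0,[(32,0)]⟩,⟨3,[(6,1),(3,0),(0,0),(10,0),(11,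
  1)]⟩⟩,⟨true,0,⟨0,[(32,0)]⟩,⟨0,[(31,0)]⟩⟩,[.e ⟨true,0,⟨0,[(3,0)]⟩,⟨0,[(4,0)]⟩⟩ ⟨true,0,⟨0,[(0,0)]⟩,
  ⟨1,[(4,0),(11,0),(0,0)]⟩⟩,.o ⟨false,1,⟨1,[(1,1),(20,0),(11,0)]⟩,⟨0,[(16,0)]⟩⟩,.a ⟨true,0,⟨0,[(5,
  0)]⟩,⟨5,[(7,2),(2,0),(0,0),(9,0),(1,0),(3,0)]⟩⟩ ⟨false,0,⟨0,[(0,0)]⟩,⟨1,[(4,0),(11,0),(0,0),(15,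
  0),(0,0)]⟩⟩ ⟨true,0,⟨0,[(0,0)]⟩,⟨0,[(4,0),(24,0)]⟩⟩,.e ⟨false,1,⟨3,[(2,2),(0,0),(6,0),(0,0),(17,
  0)]⟩,⟨0,[(4,0)]⟩⟩ ⟨false,1,⟨0,[(2,0)]⟩,⟨1,[(4,0),(11,0),(0,0)]⟩⟩]⟩))) (.S ⟨1,0,[0,1,0,0,0,0,0,1],
  [0,0,1],[0,0,0,0,0,0,0,1],(⟨0,[(18,0)]⟩,⟨0,[(17,0)]⟩),⟨0,[(7,0)]⟩,.k,.k,⟨false,1,⟨1,[(8,0),(0,0),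
  (22,0)]⟩,⟨0,[]⟩⟩,⟨true,0,⟨0,[(34,0)]⟩,⟨0,[]⟩⟩,⟨true,0,⟨0,[(30,0)]⟩,⟨0,[(29,0)]⟩⟩,⟨false,0,⟨0,[(30,
  0)]⟩,⟨3,[(4,1),(3,0),(0,0),(10,0),(11,1)]⟩⟩,[.a ⟨true,0,⟨0,[(13,0)]⟩,⟨0,[(2,0),(9,0)]⟩⟩ ⟨false,1,
  ⟨1,[(1,1),(29,0),(0,0)]⟩,⟨1,[(0,0),(1,0),(28,0)]⟩⟩ ⟨true,0,⟨0,[(1,0)]⟩,⟨0,[(2,0)]⟩⟩,.o ⟨false,1,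
  ⟨1,[(13,1),(6,0),(11,0)]⟩,⟨1,[(0,0),(1,0),(9,1),(7,0)]⟩⟩,.a ⟨true,0,⟨0,[(3,0)]⟩,⟨5,[(5,2),(2,0),
  (0,0),(9,0),(1,0),(3,0)]⟩⟩ ⟨false,1,⟨0,[(1,0),(30,0)]⟩,⟨1,[(0,0),(1,0),(28,0)]⟩⟩ ⟨true,0,⟨0,[(1,
  0)]⟩,⟨1,[(0,0),(1,0),(28,0)]⟩⟩,.a ⟨true,0,⟨0,[(15,0)]⟩,⟨0,[(12,0)]⟩⟩ ⟨true,1,⟨1,[(1,1),(29,0),(0,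
  0)]⟩,⟨0,[(0,0)]⟩⟩ ⟨false,1,⟨1,[(1,1),(29,0),(0,0)]⟩,⟨0,[(2,0)]⟩⟩]⟩))) (.S ⟨1,0,[0,0,0,0,0,0,0,1],
  [0,0,1],[0,1,0,0,0,0,0,1],(⟨0,[(16,0)]⟩,⟨0,[(15,0)]⟩),⟨0,[(5,0)]⟩,.k,.k,⟨true,0,⟨0,[(32,0)]⟩,⟨0,
  []⟩⟩,⟨false,1,⟨1,[(6,0),(0,0),(22,0)]⟩,⟨0,[]⟩⟩,⟨false,0,⟨0,[(28,0)]⟩,⟨3,[(2,1),(3,0),(0,0),(10,0),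
  (11,1)]⟩⟩,⟨true,0,⟨0,[(28,0)]⟩,⟨0,[(27,0)]⟩⟩,[.a ⟨true,0,⟨0,[(0,0),(0,0),(24,0)]⟩,⟨0,[(1,0),(8,0),
  (1,0),(13,0)]⟩⟩ ⟨false,0,⟨0,[(0,0)]⟩,⟨0,[(1,0),(10,0),(17,0)]⟩⟩ ⟨true,0,⟨0,[(0,0),(25,0)]⟩,⟨0,[(1,
  0),(10,0),(13,0)]⟩⟩,.o ⟨false,1,⟨1,[(0,1),(0,1),(16,0),(7,1),(3,0)]⟩,⟨0,[(12,0)]⟩⟩,.a ⟨true,0,⟨0,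
  [(1,0)]⟩,⟨5,[(3,2),(2,0),(0,0),(9,0),(1,0),(3,0)]⟩⟩ ⟨false,0,⟨0,[(0,0),(25,0)]⟩,⟨0,[(1,0),(10,0),
  (17,0)]⟩⟩ ⟨true,0,⟨0,[(0,0),(25,0)]⟩,⟨0,[(1,0),(10,0)]⟩⟩,.a ⟨true,0,⟨0,[(13,0)]⟩,⟨0,[(10,0)]⟩⟩
  ⟨true,0,⟨0,[(0,0)]⟩,⟨0,[(1,0),(10,0),(13,0)]⟩⟩ ⟨false,1,⟨0,[(0,0),(29,0)]⟩,⟨0,[(1,0),(10,0),(13,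
  0)]⟩⟩]⟩))

theorem ok4 : chk K t4 r1 = true := by decide +kernel

noncomputable def t3 : Tre :=
  .I [1,1,0,0,0,0,0,-1] t1 t2

theorem ok3 : chk K t3 l1 = true :=
  chk_I (e' := [0,-1,0,0,0,0,0,1]) (by decide +kernel) (by decide +kernel) ok1 ok2

noncomputable def t5 : Tre :=
  .Q [0,0,0,0,0,0,-1,0,0,0,-1] (.p false [0,0,1] [] (⟨0,[(14,0)]⟩,⟨0,[(13,0)]⟩) .k 0 (⟨0,[]⟩,⟨0,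
  []⟩) .k .k) t3 t4

theorem ok5 : chk K t5 r0 = true :=
  chk_Q (e' := [0,0,0,0,0,0,1,0,0,0,1]) (by decide +kernel) (by decide +kernel) ok3 ok4

noncomputable def t6 : Tre :=
  .Q [0,0,0,2,0,0,0,0,0,-1] (.pp true [-1,1]) t0 t5

theorem ok6 : chk K t6 base = true :=
  chk_Q (e' := [0,0,0,-2,0,0,0,0,0,1]) (by decide +kernel) (by decide +kernel) ok0 ok5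

theorem closed {p a b c J l q : ℤ} {D dl : ℝ} {Cl : ℤ → ℤ → ℤ → ℤ → ℝ → Prop}
    (W : World p a b c J 1 l q D dl Cl) (g : G0 p a b c J D)
    {N X R : ℤ} {I : ℝ} (hk : KCl p l Cl N X R I) (kz : KF a b D (X + (1 : ℤ) * I) (X + (1 : ℤ) * I + R) I)
    {Ne Xe : ℤ} {Ie : ℝ} (he : EFac p 1 D Cl 1 Ne Xe Ie)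
    (hkf : ∀ kf ∈ (kfY 1 [0,0,0,0,0,0,1,0,0,0,1]), KOk p l Cl 1
      (xv [1, a, b, c, p, J, X, R, Xe] [D, I, Ie]) N kf)
    (h0 : 1 ≤ (c : ℝ))
    (h1 : 1 ≤ 1 - (a : ℝ) + (b : ℝ))
    (h2 : 1 ≤ 2 * (a : ℝ) - (b : ℝ))
    (h3 : 0 < -1 + (p : ℝ) - 2 * D)
    (h4 : 0 < 3 - (p : ℝ) + 2 * D)
    (h5 : 0 < 1 + 3 * (J : ℝ) - D)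
    (h6 : 1 ≤ 2 * (a : ℝ) - (b : ℝ))
    (h7 : 1 ≤ -2 + (J : ℝ))
    (h8 : 0 < -(b : ℝ) - (X : ℝ) + D - I)
    (h9 : 0 < -(J : ℝ) + I)
    (h10 : 0 < (J : ℝ) - D + I)
    (h11 : 0 < -2 * (X : ℝ) + D - 2 * I) : False := by
  have g1 := g.a2
  have g2 := g.b2
  have g3 := g.pa
  have g4 := g.pb
  have g5 := g.J1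
  have g6 := g.JD
  have g7 := g.D2
  have g8 := g.ca
  have g9 := g.ca'
  have k1 := kz.I0
  have k2 := kz.ID
  have k3 := kz.z1
  have k4 := kz.z2
  have k5 := kz.s1
  have k6 := kz.s2
  have e1 := he.I0
  have e2 := he.ID
  have e3 := he.x0
  have e4 := he.xp
  push_cast at *
  refine (val_E W.toBase hk he (row := [1]) (by simp) (by simp) (kfY 1 [0,0,0,0,0,0,1,0,0,0,1])).sound W rfl (Nk := N)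
    (fun kf _ _ => ⟨_, rfl⟩) hkf ?_ ok6
  · simp only [base, List.forall_mem_cons, List.not_mem_nil, false_imp_iff, implies_true,
      and_true, hld, xv, evg_cons, evg_nil, List.map_cons, List.map_nil, List.cons_append,
      List.nil_append, if_true, if_false, Bool.false_eq_true]
    push_cast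
    refine ⟨?_, ?_, ?_, ?_, ?_, ?_, ?_, ?_, ?_, ?_, ?_, ?_, ?_, ?_, ?_, ?_, ?_, ?_, ?_, ?_, ?_, ?_, ?_, ?_, ?_, ?_, ?_, ?_, ?_, ?_⟩ <;> linarith

end Helper48.Y.Y11_c35_P3_m1n0
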