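import Pool.Agent.Helper25.KG.S1b
import Pool.Agent.Helper11.CT.Clo

set_option autoImplicit false
set_option linter.all false

namespace Helper48.Y.Y11_c2_L2_m0n0

open Helper25.KG Helper25.KW Helper55.KE Helper11.CT

noncomputable def K : Cls :=
  cE 1 [1] (kfY 1 [0,0,0,0,0,0,1,0,0,0,1])

noncomputable def base : List Con :=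
  [(false,[0,0,0,0,0,0,-2,0,0,1,-2]),
  (false,[0,0,0,0,0,1,0,0,0,-1,1]),
  (false,[0,0,0,0,0,1,0,0,0,0,-1]),
  (false,[0,0,0,0,1,0,0,0,-1,0,0,-1]),
  (false,[0,0,0,0,0,0,0,0,1,0,0,1]),
  (false,[0,0,0,0,0,0,0,0,0,1,0,-1]),
  (false,[0,0,0,0,0,0,0,0,0,0,0,1]),
  (false,[0,0,-1,0,0,0,-1,0,0,1,-1]),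
  (false,[0,1,0,0,0,0,1,1,0,0,1]),
  (false,[0,1,0,0,0,0,-1,-1,0,0,-1]),
  (false,[0,0,1,0,0,0,1,0,0,0,1]),
  (false,[0,0,1,0,0,0,-1,0,0,0,-1]),
  (false,[0,0,0,0,0,0,0,0,0,1,-1]),
  (false,[0,0,0,0,0,0,0,0,0,0,1]),
  (true,[2,0,0,0,0,-1]),
  (false,[0,0,0,0,1,0,0,0,0,-2]),
  (false,[0,0,0,0,0,-1,0,0,0,1]),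
  (true,[0,0,0,0,0,1]),
  (true,[0,2,-1]),
  (false,[1,0,0,0,-1,0,0,0,0,2]),
  (true,[1,-1,1,1]),
  (true,[0,1,-1]),
  (true,[0,1,0,-1]),
  (true,[0,0,0,1]),
  (true,[0,0,-2,0,1]),
  (true,[0,-2,0,0,1]),
  (true,[-1,0,1]),
  (true,[-1,1])]

noncomputable def t0 : Tre :=
  (.C [(1,3),(0,3),(11,5),(1,1),(2,0),(1,1),(3,0),(0,1)])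

theorem ok0 : chk K t0 base = true := by decide +kernel

theorem closed {p a b c J l q : ℤ} {D dl : ℝ} {Cl : ℤ → ℤ → ℤ → ℤ → ℝ → Prop}
    (W : World p a b c J 1 l q D dl Cl) (g : G0 p a b c J D)
    {N X R : ℤ} {I : ℝ} (hk : KCl p l Cl N X R I) (kz : KF a b D (X + (1 : ℤ) * I) (X + (1 : ℤ) * I + R) I)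
    {Ne Xe : ℤ} {Ie : ℝ} (he : EFac p 1 D Cl 1 Ne Xe Ie)
    (hkf : ∀ kf ∈ (kfY 1 [0,0,0,0,0,0,1,0,0,0,1]), KOk p l Cl 1
      (xv [1, a, b, c, p, J, X, R, Xe] [D, I, Ie]) N kf)
    (h0 : 1 ≤ (c : ℝ))
    (h1 : 1 ≤ (a : ℝ) - (b : ℝ))
    (h2 : 1 ≤ 1 - (a : ℝ) + (b : ℝ) + (c : ℝ))
    (h3 : 0 < 1 - (p : ℝ) + 2 * D)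
    (h4 : 1 ≤ 2 * (a : ℝ) - (b : ℝ))
    (h5 : 1 ≤ 2 - (J : ℝ))
    (h6 : 0 < -(b : ℝ) - (X : ℝ) + D - I)
    (h7 : 0 < (J : ℝ) - I)
    (h8 : 0 < (J : ℝ) - D + I)
    (h9 : 0 < -2 * (X : ℝ) + D - 2 * I) : False := by
  have g1 := g.a2
  have g2 := g.b2
  have g3 := g.pa
  have g4 := g.pb
  have g5 := g.J1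
  have g6 := g.JD
  have g7 := g.D2
  have g8 := g.ca
  have g9 := g.ca'
  have k1 := kz.I0
  have k2 := kz.ID
  have k3 := kz.z1
  have k4 := kz.z2
  have k5 := kz.s1
  have k6 := kz.s2
  have e1 := he.I0
  have e2 := he.ID
  have e3 := he.x0
  have e4 := he.xp
  push_cast at *
  refine (val_E W.toBase hk he (row := [1]) (by simp) (by simp) (kfY 1 [0,0,0,0,0,0,1,0,0,0,1])).sound W rfl (Nk := N)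
    (fun kf _ _ => ⟨_, rfl⟩) hkf ?_ ok0
  · simp only [base, List.forall_mem_cons, List.not_mem_nil, false_imp_iff, implies_true,
      and_true, hld, xv, evg_cons, evg_nil, List.map_cons, List.map_nil, List.cons_append,
      List.nil_append, if_true, if_false, Bool.false_eq_true]
    push_cast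
    refine ⟨?_, ?_, ?_, ?_, ?_, ?_, ?_, ?_, ?_, ?_, ?_, ?_, ?_, ?_, ?_, ?_, ?_, ?_, ?_, ?_, ?_, ?_, ?_, ?_, ?_, ?_, ?_, ?_⟩ <;> linarith

end Helper48.Y.Y11_c2_L2_m0n0

namespace Helper48.Y.Y11_c35_L2_m1n1_CB

open Helper25.KG Helper25.KW Helper55.KE Helper11.CT

noncomputable def K : Cls :=
  cE 1 [1] (kfY 1 [0,0,0,0,0,0,1,0,0,0,1])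

noncomputable def base : List Con :=
  [(false,[0,0,0,0,0,0,-2,0,0,1,-2]),
  (false,[0,0,0,0,0,-1,0,0,0,1,-1]),
  (false,[0,0,0,0,0,-1,0,0,0,0,1]),
  (false,[0,0,0,0,1,0,0,0,-1,0,0,-1]),
  (false,[0,0,0,0,0,0,0,0,1,0,0,1]),
  (false,[0,0,0,0,0,0,0,0,0,1,0,-1]),
  (false,[0,0,0,0,0,0,0,0,0,0,0,1]),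
  (false,[0,0,-1,0,0,0,-1,0,0,1,-1]),
  (false,[0,1,0,0,0,0,1,1,0,0,1]),
  (false,[0,1,0,0,0,0,-1,-1,0,0,-1]),
  (false,[0,0,1,0,0,0,1,0,0,0,1]),
  (false,[0,0,1,0,0,0,-1,0,0,0,-1]),
  (false,[0,0,0,0,0,0,0,0,0,1,-1]),
  (false,[0,0,0,0,0,0,0,0,0,0,1]),
  (true,[2,0,0,0,0,-1]),
  (false,[0,0,0,0,1,0,0,0,0,-2]),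
  (false,[0,0,0,0,0,-1,0,0,0,1]),
  (true,[0,0,0,0,0,1]),
  (true,[0,2,-1]),
  (true,[-1,-2,0,0,1]),
  (true,[1,-1,1]),
  (true,[1,1,-1]),
  (false,[1,0,0,0,-1,0,0,0,0,2]),
  (true,[0,2,-1]),
  (true,[1,-1,1]),
  (true,[0,1,0,-1]),
  (true,[0,0,0,1]),
  (true,[0,0,-2,0,1]),
  (true,[0,-2,0,0,1]),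
  (true,[-1,0,1]),
  (true,[-1,1])]

noncomputable def l0 : List Con := (false, [0,0,0,2,0,0,0,0,0,-1]) :: base

noncomputable def r0 : List Con := (false, [0,0,0,-2,0,0,0,0,0,1]) :: base

noncomputable def l1 : List Con := (true, [1,-1,0,0,0,0,0,-1]) :: r0

noncomputable def r1 : List Con := (true, [0,1,0,0,0,0,0,1]) :: r0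

noncomputable def l2 : List Con := (false, [0,0,0,-1,0,0,1,1,0,0,1]) :: r1

noncomputable def r2 : List Con := (false, [0,0,0,1,0,0,-1,-1,0,0,-1]) :: r1

noncomputable def t0 : Tre :=
  (.R ⟨2,true,false,true,[0,1],[1,-1],[1,0,1],(⟨0,[]⟩,⟨0,[]⟩),(⟨0,[(17,0)]⟩,⟨0,[(18,0)]⟩),⟨0,[]⟩,.k,
  .k,.k,(.r 1 ⟨0,[(0,1),(20,1),(1,0),(2,1)]⟩ ⟨0,[(26,1),(1,0),(0,0)]⟩),.k,.k,⟨false,0,⟨5,[(0,2),(0,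
  0),(9,1),(9,3),(1,0),(5,0)]⟩,⟨0,[(26,0),(1,0)]⟩⟩,⟨true,(-1),⟨0,[(0,0),(20,1),(1,0),(2,1)]⟩,⟨1,
  [(16,0),(11,0)]⟩⟩,⟨false,1,⟨0,[(26,0),(2,0)]⟩,⟨0,[(27,0)]⟩⟩,⟨true,0,⟨1,[(23,0),(2,3),(2,0)]⟩,⟨0,
  [(0,0)]⟩⟩,⟨true,0,⟨0,[]⟩,⟨0,[(31,0)]⟩⟩,⟨false,0,⟨1,[(23,0),(2,1),(2,0)]⟩,⟨3,[(0,1),(3,0),(0,0),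
  (10,0),(12,1)]⟩⟩,[]⟩)

theorem ok0 : chk K t0 l0 = true := by decide +kernel

noncomputable def t1 : Tre :=
  (.K ⟨0,[0,1,1],0,0,(⟨0,[(15,0),(3,0)]⟩,⟨0,[(3,0)]⟩),.k,.k,(.r 0 ⟨0,[(10,0),(2,0),(8,0),(5,1)]⟩ ⟨1,
  [(0,1),(0,1),(15,0),(5,1),(5,0)]⟩),.k,.k,[⟨1,[(12,0),(0,0)]⟩,⟨0,[(0,0),(9,0)]⟩,⟨0,[(0,0),(12,0),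
  (9,0),(3,0)]⟩,⟨0,[(10,0),(17,0)]⟩]⟩)

theorem ok1 : chk K t1 l1 = true := by decide +kernel

noncomputable def t2 : Tre :=
  (.I [1,0,0,0,0,0,0,1] (.I [1,-1,2,1,0,0,0,-1] (.I [1,0,1,0,0,0,0,-1] (.Q [0,0,0,0,0,0,-1,0,0,0,
  -1] (.p false [0,0,1] [] (⟨0,[(19,0)]⟩,⟨0,[(18,0)]⟩) .k 0 (⟨0,[]⟩,⟨0,[]⟩) .k .k) (.Q [0,-1,0,1,0,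
  0,-1,-1,0,1,-1] (.p false [0,0,1] [1] (⟨0,[(20,0)]⟩,⟨0,[(19,0)]⟩) .k 1 (⟨0,[]⟩,⟨0,[]⟩) .k .k) (.S
  ⟨1,0,[0,0,1,1,0,0,0,-1],[1,1,-1],[1,1,1,0,0,0,0,-1],(⟨0,[(20,0),(4,0)]⟩,⟨0,[(10,0)]⟩),⟨0,[(20,
  0)]⟩,.k,.k,⟨true,0,⟨0,[(33,0)]⟩,⟨0,[(34,0)]⟩⟩,⟨false,1,⟨1,[(11,0),(0,0),(23,0)]⟩,⟨0,[]⟩⟩,⟨false,0,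
  ⟨0,[]⟩,⟨1,[(11,0),(0,0),(23,0)]⟩⟩,⟨true,0,⟨0,[(34,0)]⟩,⟨0,[(33,0)]⟩⟩,[.a ⟨true,0,⟨15,[(0,11),(2,
  3),(4,1),(2,0),(0,0),(17,0),(0,7)]⟩,⟨0,[(5,0)]⟩⟩ ⟨false,0,⟨0,[(2,0),(26,0)]⟩,⟨1,[(4,1),(30,0),(0,
  0)]⟩⟩ ⟨true,0,⟨0,[(2,0),(31,0)]⟩,⟨0,[(1,0),(3,0)]⟩⟩,.a ⟨true,0,⟨0,[(0,0)]⟩,⟨1,[(5,0),(10,0),(16,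
  0)]⟩⟩ ⟨true,0,⟨0,[(2,0)]⟩,⟨0,[(1,0),(3,0),(28,0)]⟩⟩ ⟨false,1,⟨0,[(3,0),(31,0)]⟩,⟨0,[(1,0),(3,0),
  (23,0)]⟩⟩,.a ⟨true,0,⟨0,[(15,0)]⟩,⟨0,[(18,0)]⟩⟩ ⟨false,0,⟨0,[(2,0)]⟩,⟨1,[(4,1),(30,0),(0,0)]⟩⟩
  ⟨true,0,⟨0,[(2,0),(31,0)]⟩,⟨0,[(1,0),(3,0),(23,0)]⟩⟩,.o ⟨false,0,⟨0,[(1,0)]⟩,⟨1,[(18,1),(4,0),(11,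
  0)]⟩⟩]⟩) (.Q [0,0,-1,0,0,0,0,0,-1,1,0,-1] (.p false [0,0,0,0,1] [1] (⟨0,[(14,0)]⟩,⟨0,[(13,0)]⟩)
  .k 1 (⟨0,[]⟩,⟨0,[]⟩) .k .k) (.Q [0,0,0,0,0,-1,0,0,0,0,0,1] (.ed false [1,-1,0,0,1] .k) (.S ⟨1,0,
  [1],[0,0,0,0,1],[1,1],(⟨0,[(16,0)]⟩,⟨0,[(15,0)]⟩),⟨0,[(0,0)]⟩,.k,(.r (-1) ⟨3,[(9,1),(3,0),(0,0),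
  (10,0),(11,1)]⟩ ⟨0,[(36,0),(2,0)]⟩),⟨true,0,⟨0,[(40,0)]⟩,⟨0,[]⟩⟩,⟨false,1,⟨1,[(13,0),(0,0),(23,
  0)]⟩,⟨0,[]⟩⟩,⟨false,0,⟨0,[(36,0)]⟩,⟨3,[(9,1),(3,0),(0,0),(10,0),(12,1)]⟩⟩,⟨true,0,⟨0,[(36,0)]⟩,⟨0,
  [(35,0)]⟩⟩,[.a ⟨true,0,⟨0,[(14,0)]⟩,⟨3,[(1,3),(18,0),(0,0),(17,1)]⟩⟩ ⟨false,0,⟨0,[(31,0)]⟩,⟨1,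
  [(13,0),(0,0),(23,0)]⟩⟩ ⟨true,0,⟨0,[]⟩,⟨1,[(20,0),(0,0)]⟩⟩,.o ⟨false,1,⟨1,[(14,1),(10,0),(12,0)]⟩,
  ⟨0,[(1,0),(0,0),(16,0),(10,0),(5,0)]⟩⟩,.a ⟨true,0,⟨0,[(14,0)]⟩,⟨1,[(1,1),(18,0),(0,0)]⟩⟩ ⟨false,0,
  ⟨0,[]⟩,⟨1,[(13,0),(0,0),(23,0)]⟩⟩ ⟨true,0,⟨0,[]⟩,⟨0,[(40,0)]⟩⟩,.a ⟨true,0,⟨1,[(14,1),(5,0),(0,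
  0)]⟩,⟨0,[(1,0)]⟩⟩ ⟨true,0,⟨0,[(31,0)]⟩,⟨1,[(20,0),(0,0)]⟩⟩ ⟨false,1,⟨1,[(37,0),(0,0)]⟩,⟨1,[(20,0),
  (0,0)]⟩⟩]⟩) (.S ⟨1,0,[-1,1],[1,0,0,0,-1],[-1],(⟨0,[(15,0)]⟩,⟨0,[(16,0)]⟩),⟨0,[(0,0),(10,0),(0,
  0)]⟩,.k,(.r (-1) ⟨5,[(9,1),(3,0),(0,0),(10,0),(9,1),(1,2),(0,0)]⟩ ⟨1,[(5,0),(2,0),(27,0)]⟩),
  ⟨false,1,⟨1,[(13,0),(0,0),(23,0)]⟩,⟨0,[]⟩⟩,⟨true,0,⟨0,[(40,0)]⟩,⟨0,[]⟩⟩,⟨true,0,⟨0,[(36,0)]⟩,⟨0,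
  [(35,0)]⟩⟩,⟨false,0,⟨0,[(36,0)]⟩,⟨3,[(9,1),(3,0),(0,0),(10,0),(12,1)]⟩⟩,[.o ⟨false,0,⟨0,[(1,0),(0,
  0),(16,0),(10,0),(5,0)]⟩,⟨1,[(14,1),(10,0),(12,0)]⟩⟩,.e ⟨false,1,⟨1,[(29,0),(7,0)]⟩,⟨0,[(40,0)]⟩⟩
  ⟨false,1,⟨11,[(13,4),(0,4),(14,0),(7,5),(2,1)]⟩,⟨0,[]⟩⟩,.a ⟨true,0,⟨1,[(1,1),(18,0),(0,0)]⟩,⟨0,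
  [(14,0)]⟩⟩ ⟨false,1,⟨1,[(13,0),(0,0),(14,0)]⟩,⟨0,[]⟩⟩ ⟨true,0,⟨0,[(40,0)]⟩,⟨0,[]⟩⟩,.o ⟨false,0,⟨0,
  [(1,0),(0,0),(0,0),(1,0)]⟩,⟨1,[(14,1),(10,0),(11,0)]⟩⟩]⟩)) (.Q [0,0,1,0,-1,0,-1,0,0,1,-1] (.p
  false [0,0,1] [1] (⟨0,[(22,0)]⟩,⟨0,[(21,0)]⟩) .k 1 (⟨0,[]⟩,⟨0,[]⟩) .k .k) (.I [0,-1,0,1,0,0,0,1]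
  (.S ⟨1,0,[0,0,0,0,0,0,0,-1],[1,0,-1],[],(⟨0,[(23,0)]⟩,⟨0,[(24,0)]⟩),⟨0,[(12,0)]⟩,.k,.k,⟨true,0,⟨0,
  [(1,0),(1,0),(26,0),(1,0),(4,0)]⟩,⟨0,[(5,0),(26,0)]⟩⟩,⟨false,1,⟨1,[(14,0),(0,0),(23,0)]⟩,⟨0,[]⟩⟩,
  ⟨false,0,⟨0,[(0,0)]⟩,⟨3,[(5,3),(4,1),(3,0),(0,0),(10,0),(11,1)]⟩⟩,⟨true,0,⟨0,[(37,0)]⟩,⟨0,[(36,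
  0)]⟩⟩,[.e ⟨false,1,⟨1,[(14,0),(0,0),(22,0)]⟩,⟨0,[]⟩⟩ ⟨false,1,⟨0,[(5,0),(32,0)]⟩,⟨0,[(7,0)]⟩⟩,.o
  ⟨false,1,⟨0,[(20,0),(18,0)]⟩,⟨0,[(3,0),(33,0)]⟩⟩,.o ⟨false,0,⟨0,[(4,0)]⟩,⟨1,[(21,1),(4,0),(11,
  0)]⟩⟩,.a ⟨true,(-1),⟨0,[(1,0)]⟩,⟨0,[(21,0),(16,0)]⟩⟩ ⟨false,1,⟨1,[(38,0),(0,0)]⟩,⟨1,[(21,0),(0,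
  0)]⟩⟩ ⟨true,1,⟨0,[(5,0),(32,0)]⟩,⟨0,[(1,0),(1,0),(33,0)]⟩⟩]⟩) (.I [1,0,2,2,-1] (.Q [0,0,0,2,0,0,
  -1,-1,0,0,-1] (.p false [0,0,1] [] (⟨0,[(25,0)]⟩,⟨0,[(24,0)]⟩) .k 0 (⟨0,[]⟩,⟨0,[]⟩) .k .k) (.R ⟨1,
  true,false,false,[0,0,1],[0,1],[0,1,0,0,0,0,0,1],(⟨0,[(26,0)]⟩,⟨0,[(25,0)]⟩),(⟨0,[(30,0)]⟩,⟨0,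
  [(29,0)]⟩),⟨0,[(15,0)]⟩,.k,.k,.k,.k,(.x 0 ⟨0,[(5,0),(2,0),(16,0),(4,1)]⟩ ⟨0,[(6,0),(8,0),(11,0),
  (12,0)]⟩),.k,⟨true,0,⟨0,[(5,0),(14,0)]⟩,⟨0,[(8,0)]⟩⟩,⟨false,1,⟨0,[(6,0),(33,0)]⟩,⟨0,[(23,0)]⟩⟩,
  ⟨true,0,⟨0,[(43,0)]⟩,⟨0,[]⟩⟩,⟨false,1,⟨7,[(0,1),(7,3),(4,1),(8,1),(5,0),(11,3),(0,2)]⟩,⟨0,[(10,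
  0)]⟩⟩,⟨false,0,⟨0,[(39,0)]⟩,⟨3,[(12,1),(3,0),(0,0),(10,0),(12,1)]⟩⟩,⟨true,0,⟨0,[(0,0)]⟩,⟨2,[(5,1),
  (6,1),(8,0)]⟩⟩,[]⟩) (.Q [0,0,-2,0,1,0,1,0,0,0,1] (.p true [0,0,1] [] (⟨0,[(26,0)]⟩,⟨0,[(25,0)]⟩)
  .k 0 (⟨0,[]⟩,⟨0,[]⟩) .k .k) (.Q [0,0,0,0,0,-2,0,0,0,1,-1] (.p false [0,0,1] [1] (⟨0,[(27,0)]⟩,⟨0,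
  [(26,0)]⟩) .k 1 (⟨0,[]⟩,⟨0,[]⟩) .k .k) (.S ⟨1,0,[0,0,-1,-1,0,0,0,-1],[1,-1,-1],[0,1,-1,-1,0,0,0,
  -1],(⟨0,[(16,0)]⟩,⟨0,[(28,0),(3,0)]⟩),⟨0,[(0,0)]⟩,.k,(.r (-2) ⟨3,[(4,3),(9,1),(3,0),(0,0),(10,0),
  (11,3),(0,1)]⟩ ⟨1,[(2,1),(0,0),(1,1),(24,0),(10,5)]⟩),⟨true,0,⟨0,[(45,0)]⟩,⟨0,[]⟩⟩,⟨false,1,⟨1,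
  [(18,0),(0,0),(23,0)]⟩,⟨0,[]⟩⟩,⟨false,0,⟨0,[(41,0)]⟩,⟨3,[(14,1),(3,0),(0,0),(10,0),(12,1)]⟩⟩,
  ⟨true,0,⟨0,[(41,0)]⟩,⟨0,[(40,0)]⟩⟩,[.a ⟨true,0,⟨1,[(4,1),(0,0),(16,0),(20,0)]⟩,⟨2,[(1,1),(1,1),(7,
  1),(0,0)]⟩⟩ ⟨false,1,⟨0,[(4,0),(37,0)]⟩,⟨1,[(3,0),(7,1),(31,0)]⟩⟩ ⟨true,1,⟨1,[(4,1),(37,0),(0,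
  0)]⟩,⟨2,[(3,1),(1,0),(1,0),(3,1),(23,0)]⟩⟩,.o ⟨false,1,⟨0,[(4,0),(3,0),(34,0)]⟩,⟨3,[(1,1),(1,2),
  (3,1),(3,1),(18,0),(5,1)]⟩⟩,.a ⟨true,(-1),⟨0,[(5,0)]⟩,⟨2,[(1,1),(16,0),(0,0),(5,0)]⟩⟩ ⟨false,1,⟨1,
  [(4,1),(37,0),(0,0)]⟩,⟨1,[(3,0),(7,1),(31,0)]⟩⟩ ⟨true,1,⟨1,[(4,1),(37,0),(0,0)]⟩,⟨2,[(3,1),(1,0),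
  (1,0),(3,1),(24,1)]⟩⟩,.a ⟨true,(-1),⟨1,[(5,1),(19,0),(0,0)]⟩,⟨0,[(1,0)]⟩⟩ ⟨true,1,⟨0,[(4,0),(37,
  0)]⟩,⟨2,[(3,1),(1,0),(1,0),(3,1),(23,0)]⟩⟩ ⟨false,2,⟨0,[(4,0),(37,0),(0,0)]⟩,⟨2,[(3,1),(1,0),(1,
  0),(3,1),(23,0)]⟩⟩]⟩) (.R ⟨0,false,false,true,[1,-1,-1],[1,-1],[0,1,0,-1],(⟨0,[(16,0)]⟩,⟨77,[(0,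
  38),(0,9),(13,14),(9,19),(2,38),(5,1),(2,11),(7,3)]⟩),(⟨0,[(31,0)]⟩,⟨0,[(32,0)]⟩),⟨0,[(0,0)]⟩,.k,
  .k,(.r (-2) ⟨3,[(4,3),(9,1),(3,0),(0,0),(10,0),(11,3),(0,1)]⟩ ⟨1,[(2,1),(0,0),(1,1),(24,0),(10,
  5)]⟩),.k,.k,.k,⟨true,0,⟨1,[(25,0),(0,0)]⟩,⟨0,[]⟩⟩,⟨false,1,⟨2,[(1,1),(16,0),(0,0),(5,0)]⟩,⟨0,[(8,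
  0)]⟩⟩,⟨true,(-1),⟨2,[(3,0),(1,1),(1,1),(3,0),(24,0)]⟩,⟨5,[(1,3),(2,0),(5,0),(13,3),(18,1)]⟩⟩,
  ⟨false,0,⟨2,[(1,0),(1,0),(7,0),(0,1)]⟩,⟨0,[(24,0),(18,0)]⟩⟩,⟨false,0,⟨0,[]⟩,⟨0,[]⟩⟩,⟨false,0,⟨0,
  []⟩,⟨0,[]⟩⟩,[.o ⟨false,0,⟨0,[(40,0)]⟩,⟨1,[(30,0),(10,1),(1,0)]⟩⟩,.a ⟨true,0,⟨77,[(1,9),(12,38),(0,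
  14),(9,19),(8,1),(2,11),(7,3)]⟩,⟨0,[(41,0)]⟩⟩ ⟨false,1,⟨3,[(14,1),(3,0),(0,0),(10,0),(11,1)]⟩,⟨0,
  [(41,0)]⟩⟩ ⟨true,1,⟨9,[(1,6),(4,0),(7,4),(3,0),(6,2),(4,1)]⟩,⟨1,[(3,0),(1,1),(24,0)]⟩⟩,.a ⟨true,
  (-1),⟨0,[(5,0)]⟩,⟨2,[(1,1),(16,0),(0,0),(5,0)]⟩⟩ ⟨true,0,⟨0,[(40,0)]⟩,⟨0,[(41,0)]⟩⟩ ⟨false,1,⟨9,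
  [(1,6),(4,0),(7,4),(3,0),(6,2),(4,1)]⟩,⟨1,[(3,0),(4,1),(34,0)]⟩⟩,.a ⟨true,(-1),⟨1,[(5,1),(19,0),
  (0,0)]⟩,⟨0,[(1,0)]⟩⟩ ⟨false,1,⟨3,[(14,1),(3,0),(0,0),(10,0),(11,1)]⟩,⟨1,[(3,0),(39,0)]⟩⟩ ⟨true,1,
  ⟨0,[(1,0),(38,0)]⟩,⟨1,[(3,0),(1,1),(24,0)]⟩⟩]⟩)) (.Q [0,-1,0,2,0,0,-1,-1,0,1,-1] (.p false [0,0,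
  1] [1] (⟨0,[(27,0)]⟩,⟨0,[(26,0)]⟩) .k 1 (⟨0,[]⟩,⟨0,[]⟩) .k .k) (.Q [0,0,0,0,0,-2,0,0,0,0,1] (.p
  true [0,0,1] [] (⟨0,[(28,0)]⟩,⟨0,[(27,0)]⟩) .k 0 (⟨0,[]⟩,⟨0,[]⟩) .k .k) (.S ⟨1,3,[],[0,-1,1],[1,0,
  -1,-2,0,0,0,1],(⟨0,[(18,0)]⟩,⟨0,[(28,0),(4,0)]⟩),⟨0,[(0,0)]⟩,.k,(.r (-1) ⟨0,[(3,0),(5,0),(33,0)]⟩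
  ⟨19,[(1,5),(2,2),(6,21),(2,1),(9,5),(6,2),(7,9)]⟩),⟨false,1,⟨3,[(15,1),(3,0),(0,0),(10,0),(12,
  1)]⟩,⟨0,[(42,0)]⟩⟩,⟨true,0,⟨5,[(1,3),(3,0),(5,0),(3,0),(0,0),(22,1)]⟩,⟨0,[(8,0)]⟩⟩,⟨true,0,⟨0,[]⟩,
  ⟨0,[(46,0)]⟩⟩,⟨false,0,⟨0,[(1,0)]⟩,⟨3,[(3,1),(11,1),(8,1),(6,2),(12,0)]⟩⟩,[.fa ⟨false,1,⟨0,[(3,0),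
  (5,0),(33,0)]⟩,⟨7,[(1,5),(2,2),(0,1),(20,5),(4,2),(5,3)]⟩⟩ ⟨true,0,⟨0,[(23,0)]⟩,⟨0,[(8,0),(2,
  0)]⟩⟩,.a ⟨true,0,⟨1,[(38,0),(5,0)]⟩,⟨0,[(46,0)]⟩⟩ ⟨true,1,⟨1,[(3,1),(5,1),(33,0),(0,0)]⟩,⟨7,[(1,
  1),(2,8),(0,5),(20,1),(4,0),(5,3)]⟩⟩ ⟨false,1,⟨1,[(23,1),(19,0),(0,0)]⟩,⟨2,[(4,0),(0,0),(2,0),(17,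
  1),(4,0),(5,0)]⟩⟩,.a ⟨true,0,⟨0,[(26,0)]⟩,⟨0,[(23,0)]⟩⟩ ⟨false,1,⟨1,[(3,1),(5,1),(33,0),(0,0)]⟩,
  ⟨7,[(1,5),(2,2),(0,1),(20,5),(4,2),(5,3)]⟩⟩ ⟨true,0,⟨0,[(23,0)]⟩,⟨2,[(4,0),(0,0),(2,0),(17,1),(4,
  0),(5,0)]⟩⟩,.o ⟨false,0,⟨0,[(8,0),(2,0)]⟩,⟨0,[(9,0),(33,0)]⟩⟩]⟩) (.Q [0,0,-1,-1,0,0,-1,0,0,1,-1]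
  (.p false [0,0,1] [1] (⟨0,[(29,0)]⟩,⟨0,[(28,0)]⟩) .k 1 (⟨0,[]⟩,⟨0,[]⟩) .k .k) (.R ⟨0,false,false,
  true,[0,-1,1],[1,-1],[],(⟨0,[(19,0)]⟩,⟨3,[(1,1),(0,0),(13,0),(8,0),(3,1)]⟩),(⟨0,[(33,0)]⟩,⟨0,[(34,
  0)]⟩),⟨0,[(1,0)]⟩,.k,.k,(.r (-1) ⟨2,[(0,1),(3,1),(8,0),(18,0),(11,1)]⟩ ⟨19,[(2,5),(2,2),(6,21),(2,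
  1),(9,5),(6,2),(7,9)]⟩),.k,.k,.k,⟨true,0,⟨1,[(5,0),(39,0)]⟩,⟨0,[(42,0)]⟩⟩,⟨false,0,⟨0,[(24,0)]⟩,
  ⟨1,[(27,1),(4,0),(11,0)]⟩⟩,⟨true,0,⟨3,[(2,1),(2,0),(0,1),(20,1),(4,0)]⟩,⟨1,[(0,0),(8,0),(3,0),(24,
  0)]⟩⟩,⟨false,0,⟨3,[(2,1),(3,1),(9,0),(0,0)]⟩,⟨1,[(14,1),(17,0),(10,1),(1,0)]⟩⟩,⟨false,0,⟨0,[]⟩,⟨0,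
  []⟩⟩,⟨false,0,⟨0,[]⟩,⟨0,[]⟩⟩,[.o ⟨false,0,⟨0,[(42,0)]⟩,⟨1,[(32,0),(10,1),(1,0)]⟩⟩,.a ⟨true,0,⟨3,
  [(2,0),(13,2),(8,0)]⟩,⟨0,[(43,0)]⟩⟩ ⟨false,1,⟨1,[(44,0),(0,0)]⟩,⟨0,[(47,0)]⟩⟩ ⟨true,0,⟨0,[(0,0)]⟩,
  ⟨1,[(5,0),(21,1),(4,0)]⟩⟩,.e ⟨false,1,⟨1,[(20,0),(0,0),(23,0)]⟩,⟨0,[]⟩⟩ ⟨false,0,⟨0,[(0,0)]⟩,⟨1,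
  [(27,1),(4,0),(10,1),(1,0)]⟩⟩,.o ⟨false,0,⟨0,[(9,0),(2,0)]⟩,⟨0,[(10,0),(33,0)]⟩⟩]⟩) (.R ⟨0,false,
  false,true,[0,-1,1],[1,-1],[],(⟨0,[(19,0)]⟩,⟨3,[(1,1),(0,0),(13,0),(8,0),(3,1)]⟩),(⟨0,[(33,0)]⟩,
  ⟨0,[(34,0)]⟩),⟨0,[(1,0)]⟩,.k,.k,(.r (-1) ⟨0,[(4,0),(5,0),(33,0)]⟩ ⟨19,[(2,5),(2,2),(6,21),(2,1),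
  (9,5),(6,2),(7,9)]⟩),.k,.k,.k,⟨true,0,⟨1,[(5,0),(39,0)]⟩,⟨0,[(42,0)]⟩⟩,⟨false,0,⟨0,[(24,0)]⟩,⟨1,
  [(27,1),(4,0),(11,0)]⟩⟩,⟨true,0,⟨3,[(0,0),(1,0),(3,0),(5,1),(27,0)]⟩,⟨0,[(9,0),(14,0)]⟩⟩,⟨false,0,
  ⟨3,[(2,1),(3,1),(9,0),(0,0)]⟩,⟨3,[(0,1),(12,1),(0,1),(17,0),(11,0),(0,1)]⟩⟩,⟨false,0,⟨0,[]⟩,⟨0,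
  []⟩⟩,⟨false,0,⟨0,[]⟩,⟨0,[]⟩⟩,[.o ⟨false,0,⟨0,[(42,0)]⟩,⟨5,[(0,1),(1,1),(10,1),(18,2),(11,0),(0,
  1)]⟩⟩,.e ⟨false,1,⟨1,[(44,0),(0,0)]⟩,⟨0,[(47,0)]⟩⟩ ⟨false,1,⟨1,[(16,0),(0,0),(26,1)]⟩,⟨0,[(0,
  0)]⟩⟩,.a ⟨true,0,⟨0,[(27,0)]⟩,⟨0,[(24,0)]⟩⟩ ⟨false,1,⟨1,[(20,0),(0,0),(23,0)]⟩,⟨0,[]⟩⟩ ⟨true,0,⟨1,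
  [(16,0),(0,0),(20,1)]⟩,⟨0,[(0,0)]⟩⟩,.o ⟨false,0,⟨0,[(9,0),(2,0)]⟩,⟨0,[(10,0),(33,0)]⟩⟩]⟩))) (.Q
  [0,0,1,0,0,0,0,0,-1,1,0,-1] (.p false [0,0,0,0,1] [1] (⟨0,[(21,0)]⟩,⟨0,[(20,0)]⟩) .k 1 (⟨0,[]⟩,⟨0,
  []⟩) .k .k) (.Q [0,0,1,0,-1,0,0,0,1,0,0,1] (.p true [0,0,0,0,1] [] (⟨0,[(22,0)]⟩,⟨0,[(21,0)]⟩) .k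
  0 (⟨0,[]⟩,⟨0,[]⟩) .k .k) (.Q [0,0,0,0,1,0,1,0,-1,0,1,-1] (.p true [0,0,1] [0,0,0,0,1] (⟨0,[(30,
  0)]⟩,⟨0,[(29,0)]⟩) .k 2 (⟨0,[(23,0)]⟩,⟨0,[(22,0)]⟩) .k (.r 0 ⟨6,[(2,1),(4,1),(5,4),(22,0),(6,3),
  (0,0)]⟩ ⟨1,[(6,0),(5,0),(7,0),(0,0),(22,0)]⟩)) (.K ⟨0,[0,0,0,0,1],(-1),(-1),(⟨0,[(24,0)]⟩,⟨0,[(23,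
  0)]⟩),.k,(.r (-1) ⟨3,[(17,1),(3,0),(0,0),(10,0),(11,1)]⟩ ⟨1,[(3,1),(0,1),(2,1),(29,2),(1,1),(0,0),
  (3,7)]⟩),(.r 0 ⟨1,[(13,0),(2,0),(27,0)]⟩ ⟨5,[(17,1),(3,0),(0,0),(10,0),(9,1),(1,2),(0,0)]⟩),.k,.k,
  [⟨0,[(0,0)]⟩,⟨0,[(1,0)]⟩,⟨0,[(21,0),(26,0)]⟩,⟨0,[(1,0),(37,0)]⟩]⟩) (.Q [-1,1,0,0,0,0,0,0,-1,1,0,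
  -1] (.p false [0,0,0,0,1] [1] (⟨0,[(24,0)]⟩,⟨0,[(23,0)]⟩) .k 1 (⟨0,[]⟩,⟨0,[]⟩) .k .k) (.Q [0,0,0,
  0,0,-1,0,0,0,1,0,-1] (.ed true [0,1,0,0,1] .k) (.S ⟨1,0,[-1,1],[1,0,0,0,-1],[-1],(⟨0,[(25,0)]⟩,⟨0,
  [(26,0)]⟩),⟨0,[(0,0)]⟩,.k,(.r (-1) ⟨5,[(19,1),(3,0),(0,0),(10,0),(9,1),(1,2),(0,0)]⟩ ⟨1,[(15,0),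
  (2,0),(27,0)]⟩),⟨false,1,⟨1,[(23,0),(0,0),(23,0)]⟩,⟨0,[]⟩⟩,⟨true,0,⟨0,[(50,0)]⟩,⟨0,[]⟩⟩,⟨true,0,
  ⟨0,[(46,0)]⟩,⟨0,[(45,0)]⟩⟩,⟨false,0,⟨0,[(46,0)]⟩,⟨3,[(19,1),(3,0),(0,0),(10,0),(12,1)]⟩⟩,[.a
  ⟨true,0,⟨0,[(1,0)]⟩,⟨1,[(3,1),(43,0),(0,0)]⟩⟩ ⟨false,1,⟨11,[(23,4),(0,4),(14,0),(7,5),(2,1)]⟩,⟨0,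
  []⟩⟩ ⟨true,0,⟨0,[(50,0)]⟩,⟨0,[(40,0)]⟩⟩,.o ⟨false,1,⟨3,[(1,1),(21,1),(11,0),(3,0)]⟩,⟨1,[(3,1),(31,
  0),(11,0)]⟩⟩,.o ⟨false,1,⟨0,[(23,0)]⟩,⟨1,[(3,1),(31,0),(11,0)]⟩⟩,.e ⟨false,1,⟨1,[(39,0),(7,0)]⟩,
  ⟨1,[(30,0),(0,0)]⟩⟩ ⟨false,1,⟨11,[(23,4),(0,4),(14,0),(7,5),(2,1)]⟩,⟨0,[(40,0)]⟩⟩]⟩) (.R ⟨0,false,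
  false,false,[1,0,0,0,-1],[1,-1],[],(⟨0,[(25,0)]⟩,⟨0,[(26,0)]⟩),(⟨0,[(36,0)]⟩,⟨0,[(37,0)]⟩),⟨0,[(0,
  0)]⟩,.k,.k,(.r (-1) ⟨5,[(19,1),(3,0),(0,0),(10,0),(9,1),(1,2),(0,0)]⟩ ⟨1,[(15,0),(2,0),(27,0)]⟩),
  (.r 0 ⟨1,[(1,1),(0,1),(2,1),(2,0),(0,1),(29,2),(6,5)]⟩ ⟨3,[(19,1),(3,0),(0,0),(10,0),(11,1)]⟩),.k,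
  .k,⟨false,0,⟨0,[(46,0)]⟩,⟨3,[(19,1),(3,0),(0,0),(10,0),(11,1)]⟩⟩,⟨true,(-1),⟨0,[(3,0)]⟩,⟨0,[(23,
  0)]⟩⟩,⟨true,0,⟨0,[]⟩,⟨0,[(50,0)]⟩⟩,⟨false,0,⟨2,[(2,0),(0,1),(3,0),(1,0),(37,0),(0,1)]⟩,⟨0,[(23,0),
  (22,0)]⟩⟩,⟨false,0,⟨0,[]⟩,⟨0,[]⟩⟩,⟨false,0,⟨0,[]⟩,⟨0,[]⟩⟩,[.e ⟨false,1,⟨1,[(23,0),(0,0),(22,0)]⟩,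
  ⟨0,[]⟩⟩ ⟨false,0,⟨5,[(2,1),(0,3),(3,1),(1,1),(37,4),(0,0)]⟩,⟨0,[(23,0),(22,0)]⟩⟩,.o ⟨false,1,⟨3,
  [(19,1),(3,0),(0,0),(10,0),(12,1)]⟩,⟨1,[(8,0),(26,0),(5,1)]⟩⟩,.o ⟨false,1,⟨0,[(23,0)]⟩,⟨1,[(3,1),
  (31,0),(11,0)]⟩⟩,.a ⟨true,0,⟨0,[(4,0)]⟩,⟨0,[(3,0),(43,0)]⟩⟩ ⟨false,1,⟨1,[(47,0),(0,0)]⟩,⟨1,[(30,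
  0),(0,0)]⟩⟩ ⟨true,0,⟨5,[(2,1),(0,3),(3,1),(1,1),(37,4),(0,0)]⟩,⟨1,[(1,1),(6,0),(26,0)]⟩⟩]⟩)) (.R
  ⟨1,false,false,false,[0,0,1],[0,0,0,0,1],[0,1,0,0,0,0,0,1],(⟨0,[(32,0)]⟩,⟨0,[(31,0)]⟩),(⟨0,[(25,
  0)]⟩,⟨0,[(24,0)]⟩),⟨0,[(21,0)]⟩,.k,.k,.k,.k,(.r (-1) ⟨5,[(4,1),(12,3),(0,0),(0,0),(26,2),(0,2)]⟩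
  ⟨0,[(14,0),(25,0)]⟩),.k,⟨false,0,⟨2,[(4,0),(4,0),(5,1),(24,1),(4,1),(0,0)]⟩,⟨1,[(8,0),(5,0),(31,
  0),(0,0)]⟩⟩,⟨true,(-1),⟨0,[(1,0)]⟩,⟨0,[(22,0),(6,0)]⟩⟩,⟨true,0,⟨0,[(49,0)]⟩,⟨0,[]⟩⟩,⟨false,0,⟨1,
  [(0,1),(27,1),(12,0),(5,0)]⟩,⟨0,[(16,0),(5,0),(22,0)]⟩⟩,⟨false,0,⟨0,[(45,0)]⟩,⟨3,[(18,1),(3,0),(0,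
  0),(10,0),(12,1)]⟩⟩,⟨false,0,⟨0,[(1,0),(12,0),(31,0)]⟩,⟨4,[(3,1),(0,1),(11,2),(5,2),(15,0),(6,1),
  (0,0)]⟩⟩,[.o ⟨false,0,⟨2,[(0,1),(9,0),(31,0)]⟩,⟨1,[(3,1),(30,0),(3,0),(1,1)]⟩⟩,.o ⟨false,0,⟨0,[(0,
  0)]⟩,⟨0,[(22,0),(26,0)]⟩⟩,.o ⟨false,1,⟨1,[(29,1),(4,0),(11,0)]⟩,⟨0,[(12,0)]⟩⟩,.a ⟨true,0,⟨0,[(29,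
  0)]⟩,⟨0,[(26,0)]⟩⟩ ⟨true,0,⟨1,[(4,1),(0,1),(32,2),(1,5),(0,0),(3,3)]⟩,⟨0,[(13,0)]⟩⟩ ⟨false,0,⟨0,
  [(0,0),(25,0)]⟩,⟨4,[(3,0),(0,0),(3,0),(13,3),(6,3),(8,0),(6,2)]⟩⟩]⟩))) (.Q [0,0,0,0,0,-1,0,0,0,1,
  0,-1] (.ed true [0,1,0,0,1] .k) (.Q [-1,0,0,-1,0,0,0,0,-1,1,0,-1] (.p false [0,0,0,0,1] [1] (⟨0,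
  [(24,0)]⟩,⟨0,[(23,0)]⟩) .k 1 (⟨0,[]⟩,⟨0,[]⟩) .k .k) (.S ⟨1,0,[-1,1],[1,0,0,0,-1],[-1],(⟨0,[(24,
  0)]⟩,⟨0,[(25,0)]⟩),⟨0,[(1,0)]⟩,.k,(.r (-1) ⟨5,[(18,1),(3,0),(0,0),(10,0),(9,1),(1,2),(0,0)]⟩ ⟨1,
  [(14,0),(2,0),(27,0)]⟩),⟨false,1,⟨1,[(22,0),(0,0),(23,0)]⟩,⟨0,[]⟩⟩,⟨true,0,⟨0,[(49,0)]⟩,⟨0,[]⟩⟩,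
  ⟨true,0,⟨0,[(45,0)]⟩,⟨0,[(44,0)]⟩⟩,⟨false,0,⟨0,[(45,0)]⟩,⟨3,[(18,1),(3,0),(0,0),(10,0),(12,1)]⟩⟩,
  [.o ⟨false,0,⟨1,[(0,1),(6,0),(26,0),(5,1)]⟩,⟨1,[(23,1),(10,0),(12,0)]⟩⟩,.e ⟨false,1,⟨1,[(38,0),(7,
  0)]⟩,⟨0,[(49,0)]⟩⟩ ⟨false,1,⟨11,[(22,4),(0,4),(14,0),(7,5),(2,1)]⟩,⟨0,[]⟩⟩,.a ⟨true,0,⟨3,[(0,1),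
  (1,1),(4,0),(33,0)]⟩,⟨0,[(23,0)]⟩⟩ ⟨false,1,⟨1,[(22,0),(0,0),(14,0)]⟩,⟨0,[]⟩⟩ ⟨true,0,⟨0,[(49,
  0)]⟩,⟨0,[]⟩⟩,.o ⟨false,0,⟨1,[(0,1),(6,0),(26,0)]⟩,⟨1,[(23,1),(10,0),(11,0)]⟩⟩]⟩) (.Q [0,0,0,0,0,0,
  0,0,-1,1,0,-1] (.p false [0,0,0,0,1] [1] (⟨0,[(25,0)]⟩,⟨0,[(24,0)]⟩) .k 1 (⟨0,[]⟩,⟨0,[]⟩) .k .k)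
  (.Q [1,0,0,0,0,0,0,0,1,-1,0,1] (.p true [0,0,0,0,1] [1] (⟨0,[(26,0)]⟩,⟨0,[(25,0)]⟩) .k 1 (⟨0,[]⟩,
  ⟨0,[]⟩) .k .k) (.S ⟨1,0,[-1],[1,0,0,0,-1],[0,1,0,-1],(⟨0,[(26,0)]⟩,⟨0,[(27,0)]⟩),⟨0,[(3,0)]⟩,.k,
  (.r (-1) ⟨5,[(20,1),(3,0),(0,0),(10,0),(9,1),(1,2),(0,0)]⟩ ⟨5,[(2,0),(6,0),(6,1),(4,0),(2,0),(4,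
  1),(17,0)]⟩),⟨true,0,⟨0,[(46,0)]⟩,⟨0,[(47,0)]⟩⟩,⟨false,1,⟨1,[(24,0),(0,0),(23,0)]⟩,⟨0,[]⟩⟩,⟨false,
  0,⟨0,[]⟩,⟨1,[(24,0),(0,0),(23,0)]⟩⟩,⟨true,0,⟨0,[(47,0)]⟩,⟨0,[(46,0)]⟩⟩,[.o ⟨false,1,⟨1,[(4,0),(19,
  0),(25,0)]⟩,⟨0,[(0,0)]⟩⟩,.o ⟨false,1,⟨1,[(1,1),(34,0),(3,0)]⟩,⟨1,[(0,0),(11,0),(31,0)]⟩⟩,.a ⟨true,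
  0,⟨0,[(1,0)]⟩,⟨0,[(25,0)]⟩⟩ ⟨true,0,⟨0,[(46,0)]⟩,⟨0,[(47,0)]⟩⟩ ⟨false,1,⟨1,[(24,0),(0,0),(14,0)]⟩,
  ⟨0,[]⟩⟩,.e ⟨false,1,⟨3,[(20,1),(3,0),(0,0),(10,0),(11,1)]⟩,⟨1,[(9,0),(39,0)]⟩⟩ ⟨false,1,⟨1,[(40,
  0),(7,0)]⟩,⟨1,[(31,0),(0,0)]⟩⟩]⟩) (.R ⟨2,true,false,true,[0,1],[1,0,0,0,-1],[1,1],(⟨0,[]⟩,⟨0,[]⟩),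
  (⟨0,[(26,0)]⟩,⟨0,[(27,0)]⟩),⟨0,[]⟩,.k,.k,.k,(.r 0 ⟨5,[(2,0),(6,0),(6,1),(4,0),(2,0),(4,1),(17,
  0)]⟩ ⟨5,[(20,1),(3,0),(0,0),(10,0),(9,1),(1,2),(0,0)]⟩),.k,.k,⟨true,0,⟨0,[]⟩,⟨0,[(50,0)]⟩⟩,⟨false,
  0,⟨0,[(1,0)]⟩,⟨1,[(25,1),(10,0),(11,0)]⟩⟩,⟨false,1,⟨3,[(20,1),(3,0),(0,0),(10,0),(11,1)]⟩,⟨1,[(9,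
  0),(39,0)]⟩⟩,⟨true,0,⟨0,[(1,0),(44,0)]⟩,⟨0,[(2,0)]⟩⟩,⟨true,0,⟨0,[(42,0)]⟩,⟨1,[(31,0),(0,0)]⟩⟩,
  ⟨false,0,⟨0,[(0,0)]⟩,⟨1,[(25,1),(10,0),(12,0)]⟩⟩,[]⟩)) (.S ⟨1,0,[-1,1],[1,0,0,0,-1],[-1],(⟨0,[(25,
  0)]⟩,⟨0,[(26,0)]⟩),⟨0,[(2,0)]⟩,.k,(.r (-1) ⟨5,[(19,1),(3,0),(0,0),(10,0),(9,1),(1,2),(0,0)]⟩ ⟨5,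
  [(1,0),(6,0),(6,1),(4,0),(2,0),(4,1),(17,0)]⟩),⟨false,1,⟨1,[(23,0),(0,0),(23,0)]⟩,⟨0,[]⟩⟩,⟨true,0,
  ⟨0,[(50,0)]⟩,⟨0,[]⟩⟩,⟨true,0,⟨0,[(46,0)]⟩,⟨0,[(45,0)]⟩⟩,⟨false,0,⟨0,[(46,0)]⟩,⟨3,[(19,1),(3,0),(0,
  0),(10,0),(12,1)]⟩⟩,[.a ⟨true,0,⟨31,[(3,27),(0,3),(0,5),(2,8),(0,5),(0,5),(28,0),(2,13),(7,21)]⟩,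
  ⟨1,[(0,1),(41,0),(5,0)]⟩⟩ ⟨false,1,⟨11,[(23,4),(0,4),(14,0),(7,5),(2,1)]⟩,⟨0,[]⟩⟩ ⟨true,0,⟨0,[(50,
  0)]⟩,⟨0,[(40,0)]⟩⟩,.o ⟨false,1,⟨1,[(3,0),(19,0),(25,0)]⟩,⟨0,[(0,0)]⟩⟩,.o ⟨false,1,⟨0,[(23,0)]⟩,⟨0,
  [(0,0)]⟩⟩,.e ⟨false,1,⟨1,[(39,0),(7,0)]⟩,⟨1,[(30,0),(0,0)]⟩⟩ ⟨false,1,⟨11,[(23,4),(0,4),(14,0),(7,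
  5),(2,1)]⟩,⟨0,[(40,0)]⟩⟩]⟩))) (.Q [-1,0,0,-1,0,0,0,0,-1,1,0,-1] (.p false [0,0,0,0,1] [1] (⟨0,
  [(24,0)]⟩,⟨0,[(23,0)]⟩) .k 1 (⟨0,[]⟩,⟨0,[]⟩) .k .k) (.Q [0,0,2,0,-1,0,0,0,-1,1,0,-1] (.p false [0,
  0,0,0,1] [1] (⟨0,[(25,0)]⟩,⟨0,[(24,0)]⟩) .k 1 (⟨0,[]⟩,⟨0,[]⟩) .k .k) (.R ⟨0,false,false,true,[1,0,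
  0,0,-1],[0,1],[1,1,1],(⟨0,[(25,0)]⟩,⟨0,[(26,0)]⟩),(⟨0,[(37,0)]⟩,⟨0,[(36,0)]⟩),⟨0,[(2,0)]⟩,.k,.k,
  (.r (-1) ⟨5,[(19,1),(3,0),(0,0),(10,0),(9,1),(1,2),(0,0)]⟩ ⟨1,[(15,0),(2,0),(27,0)]⟩),(.r (-1) ⟨5,
  [(19,1),(3,0),(0,0),(10,0),(9,1),(1,2),(0,0)]⟩ ⟨1,[(15,0),(2,0),(27,0)]⟩),.k,.k,⟨false,1,⟨3,[(19,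
  1),(3,0),(0,0),(10,0),(11,1)]⟩,⟨0,[(46,0)]⟩⟩,⟨true,1,⟨1,[(24,1),(10,0),(11,0)]⟩,⟨0,[(0,0)]⟩⟩,
  ⟨false,0,⟨1,[(30,0),(0,0)]⟩,⟨1,[(39,0),(7,0)]⟩⟩,⟨true,0,⟨1,[(8,0),(15,1),(10,0),(5,1)]⟩,⟨0,[(1,
  0)]⟩⟩,⟨false,0,⟨0,[]⟩,⟨0,[]⟩⟩,⟨false,0,⟨0,[]⟩,⟨0,[]⟩⟩,[.o ⟨false,0,⟨1,[(8,0),(26,0),(5,1)]⟩,⟨3,
  [(19,1),(3,0),(0,0),(10,0),(12,1)]⟩⟩,.e ⟨false,0,⟨0,[]⟩,⟨1,[(23,0),(0,0),(22,0)]⟩⟩ ⟨false,1,⟨1,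
  [(24,1),(10,0),(10,1),(0,0)]⟩,⟨0,[(1,0)]⟩⟩,.a ⟨true,0,⟨6,[(0,1),(0,0),(1,3),(38,1),(3,0)]⟩,⟨0,
  [(24,0)]⟩⟩ ⟨false,0,⟨1,[(30,0),(0,0)]⟩,⟨1,[(47,0),(0,0)]⟩⟩ ⟨true,0,⟨1,[(8,0),(15,1),(10,0),(5,
  1)]⟩,⟨0,[(1,0)]⟩⟩,.o ⟨false,0,⟨2,[(0,1),(2,0),(31,0)]⟩,⟨1,[(24,1),(10,0),(11,0)]⟩⟩]⟩) (.R ⟨0,
  false,false,true,[1,0,0,0,-1],[0,1],[-1],(⟨0,[(25,0)]⟩,⟨0,[(26,0)]⟩),(⟨0,[(37,0)]⟩,⟨0,[(36,0)]⟩),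
  ⟨0,[(2,0)]⟩,.k,.k,(.r (-1) ⟨9,[(0,2),(18,2),(3,2),(15,1),(5,3),(1,1)]⟩ ⟨5,[(0,0),(7,1),(6,1),(4,
  0),(2,0),(4,1)]⟩),(.r (-1) ⟨9,[(0,2),(18,2),(3,2),(15,1),(5,3),(1,1)]⟩ ⟨5,[(0,0),(7,1),(6,1),(4,
  0),(2,0),(4,1)]⟩),.k,.k,⟨true,1,⟨0,[(0,0),(0,0),(38,0)]⟩,⟨0,[(8,0),(36,0)]⟩⟩,⟨false,1,⟨0,[(0,0)]⟩,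
  ⟨0,[(4,0)]⟩⟩,⟨false,1,⟨1,[(23,0),(0,0),(23,0)]⟩,⟨0,[]⟩⟩,⟨true,0,⟨1,[(0,0),(7,0),(2,0),(31,0)]⟩,⟨0,
  [(1,0)]⟩⟩,⟨false,0,⟨0,[]⟩,⟨0,[]⟩⟩,⟨false,0,⟨0,[]⟩,⟨0,[]⟩⟩,[.o ⟨false,0,⟨1,[(8,0),(26,0),(5,1)]⟩,
  ⟨9,[(0,0),(10,1),(7,4),(3,2),(11,0),(12,4)]⟩⟩,.e ⟨false,1,⟨1,[(39,0),(7,0)]⟩,⟨0,[(50,0)]⟩⟩ ⟨false,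
  1,⟨5,[(0,6),(7,1),(6,1),(4,0),(2,0),(4,1)]⟩,⟨0,[(1,0)]⟩⟩,.a ⟨true,0,⟨3,[(1,1),(1,1),(4,0),(33,
  0)]⟩,⟨0,[(24,0)]⟩⟩ ⟨false,1,⟨1,[(23,0),(0,0),(14,0)]⟩,⟨0,[]⟩⟩ ⟨true,0,⟨1,[(0,0),(7,0),(2,0),(31,
  0)]⟩,⟨0,[(1,0)]⟩⟩,.o ⟨false,0,⟨1,[(1,1),(6,0),(26,0)]⟩,⟨2,[(0,1),(10,0),(11,0),(0,0)]⟩⟩]⟩)) (.Q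
  [0,0,0,0,0,0,0,0,-1,1,0,-1] (.p false [0,0,0,0,1] [1] (⟨0,[(25,0)]⟩,⟨0,[(24,0)]⟩) .k 1 (⟨0,[]⟩,⟨0,
  []⟩) .k .k) (.Q [-1,0,0,0,0,0,0,0,-1,1,0,-1] (.p false [0,0,0,0,1] [1] (⟨0,[(26,0)]⟩,⟨0,[(25,
  0)]⟩) .k 1 (⟨0,[]⟩,⟨0,[]⟩) .k .k) (.R ⟨2,true,false,true,[0,1],[1,0,0,0,-1],[1,1],(⟨0,[]⟩,⟨0,[]⟩),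
  (⟨0,[(26,0)]⟩,⟨0,[(27,0)]⟩),⟨0,[]⟩,.k,.k,.k,(.r 0 ⟨5,[(2,0),(6,0),(6,1),(4,0),(2,0),(4,1),(17,
  0)]⟩ ⟨5,[(20,1),(3,0),(0,0),(10,0),(9,1),(1,2),(0,0)]⟩),.k,.k,⟨true,0,⟨0,[]⟩,⟨0,[(50,0)]⟩⟩,⟨false,
  0,⟨0,[(1,0)]⟩,⟨1,[(25,1),(10,0),(11,0)]⟩⟩,⟨false,1,⟨3,[(20,1),(3,0),(0,0),(10,0),(11,1)]⟩,⟨1,[(9,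
  0),(39,0)]⟩⟩,⟨true,0,⟨0,[(1,0),(44,0)]⟩,⟨0,[(2,0)]⟩⟩,⟨true,0,⟨0,[(42,0)]⟩,⟨1,[(31,0),(0,0)]⟩⟩,
  ⟨false,0,⟨0,[(0,0)]⟩,⟨1,[(25,1),(10,0),(12,0)]⟩⟩,[]⟩) (.S ⟨1,0,[1,1],[0,0,0,0,1],[1],(⟨0,[(27,
  0)]⟩,⟨0,[(26,0)]⟩),⟨0,[(3,0),(18,0),(0,0)]⟩,.k,(.r (-1) ⟨3,[(20,1),(3,0),(0,0),(10,0),(11,1)]⟩ ⟨1,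
  [(6,1),(0,1),(2,1),(29,2),(1,1),(0,0),(3,7)]⟩),⟨false,1,⟨1,[(24,0),(0,0),(23,0)]⟩,⟨0,[]⟩⟩,⟨true,0,
  ⟨0,[(51,0)]⟩,⟨0,[]⟩⟩,⟨true,0,⟨0,[(47,0)]⟩,⟨0,[(46,0)]⟩⟩,⟨false,0,⟨0,[(47,0)]⟩,⟨3,[(20,1),(3,0),(0,
  0),(10,0),(12,1)]⟩⟩,[.o ⟨false,0,⟨1,[(0,0),(11,0),(31,0)]⟩,⟨1,[(1,1),(34,0),(3,0)]⟩⟩,.o ⟨false,0,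
  ⟨0,[(0,0)]⟩,⟨1,[(4,0),(19,0),(25,0)]⟩⟩,.a ⟨true,0,⟨0,[(25,0)]⟩,⟨0,[(1,0)]⟩⟩ ⟨true,0,⟨0,[]⟩,⟨0,
  [(51,0)]⟩⟩ ⟨false,0,⟨0,[]⟩,⟨1,[(24,0),(0,0),(23,0)]⟩⟩,.o ⟨false,0,⟨0,[(12,0)]⟩,⟨0,[(4,0)]⟩⟩]⟩))
  (.S ⟨1,0,[1],[0,0,0,0,1],[1,1],(⟨0,[(26,0)]⟩,⟨0,[(25,0)]⟩),⟨0,[(2,0),(18,0),(0,0)]⟩,.k,(.r (-1)
  ⟨3,[(19,1),(3,0),(0,0),(10,0),(11,1)]⟩ ⟨1,[(5,1),(0,1),(2,1),(29,2),(1,1),(0,0),(3,7)]⟩),⟨true,0,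
  ⟨0,[(50,0)]⟩,⟨0,[]⟩⟩,⟨false,1,⟨1,[(23,0),(0,0),(23,0)]⟩,⟨0,[]⟩⟩,⟨false,0,⟨0,[(46,0)]⟩,⟨3,[(19,1),
  (3,0),(0,0),(10,0),(12,1)]⟩⟩,⟨true,0,⟨0,[(46,0)]⟩,⟨0,[(45,0)]⟩⟩,[.o ⟨false,0,⟨0,[(0,0)]⟩,⟨1,[(3,
  0),(19,0),(25,0)]⟩⟩,.a ⟨true,0,⟨1,[(0,1),(41,0),(5,0)]⟩,⟨31,[(3,27),(0,3),(0,5),(2,8),(0,5),(0,5),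
  (28,0),(2,13),(7,21)]⟩⟩ ⟨true,0,⟨0,[]⟩,⟨1,[(30,0),(0,0)]⟩⟩ ⟨false,1,⟨1,[(47,0),(0,0)]⟩,⟨0,[(50,
  0)]⟩⟩,.o ⟨false,0,⟨0,[(0,0)]⟩,⟨0,[(23,0)]⟩⟩,.o ⟨false,0,⟨0,[(11,0)]⟩,⟨0,[(3,0)]⟩⟩]⟩))))) (.Q [1,0,
  0,0,-1,0,0,0,1,0,0,1] (.p true [0,0,0,0,1] [] (⟨0,[(22,0)]⟩,⟨0,[(21,0)]⟩) .k 0 (⟨0,[]⟩,⟨0,[]⟩) .k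
  .k) (.R ⟨2,true,false,true,[0,1],[0,0,0,0,1],[1,1],(⟨0,[]⟩,⟨0,[]⟩),(⟨0,[(23,0)]⟩,⟨0,[(22,0)]⟩),⟨0,
  []⟩,.k,.k,.k,(.r 0 ⟨1,[(2,1),(0,1),(2,1),(29,2),(1,1),(0,0),(3,7)]⟩ ⟨3,[(16,1),(3,0),(0,0),(10,0),
  (11,1)]⟩),.k,.k,⟨false,1,⟨1,[(20,0),(0,0),(22,0)]⟩,⟨0,[]⟩⟩,⟨true,(-1),⟨4,[(0,3),(6,0),(0,0),(18,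
  0),(18,1)]⟩,⟨0,[(20,0)]⟩⟩,⟨false,1,⟨3,[(16,1),(3,0),(0,0),(10,0),(11,1)]⟩,⟨1,[(5,0),(39,0)]⟩⟩,
  ⟨true,(-1),⟨0,[(0,0),(41,0)]⟩,⟨0,[(20,0),(22,0)]⟩⟩,⟨true,0,⟨0,[(38,0)]⟩,⟨1,[(27,0),(0,0)]⟩⟩,
  ⟨false,(-1),⟨0,[(0,0)]⟩,⟨1,[(20,2),(0,0),(14,0)]⟩⟩,[]⟩) (.R ⟨1,false,false,true,[0,0,1],[1,0,0,0,
  -1],[0,1,0,0,0,0,0,1],(⟨0,[(30,0)]⟩,⟨0,[(29,0)]⟩),(⟨0,[(22,0)]⟩,⟨0,[(23,0)]⟩),⟨0,[(19,0)]⟩,.k,.k,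
  .k,.k,(.r (-1) ⟨5,[(2,1),(12,3),(0,0),(0,0),(26,2),(0,2)]⟩ ⟨1,[(5,0),(0,1),(29,0),(6,1)]⟩),.k,
  ⟨true,0,⟨0,[(13,0)]⟩,⟨1,[(5,0),(0,1),(29,0)]⟩⟩,⟨false,1,⟨0,[(20,0),(3,0)]⟩,⟨0,[(1,0),(25,0)]⟩⟩,
  ⟨true,0,⟨0,[(47,0)]⟩,⟨0,[]⟩⟩,⟨false,1,⟨1,[(0,1),(25,1),(12,0),(5,0)]⟩,⟨1,[(1,1),(3,0),(8,1),(30,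
  0)]⟩⟩,⟨false,0,⟨0,[(43,0)]⟩,⟨3,[(16,1),(3,0),(0,0),(10,0),(12,1)]⟩⟩,⟨false,1,⟨3,[(0,1),(11,1),(7,
  1),(3,1),(1,1),(12,0),(3,1),(0,0)]⟩,⟨0,[(1,0),(12,0),(22,0)]⟩⟩,[.o ⟨false,1,⟨0,[(20,0),(26,0)]⟩,
  ⟨0,[(1,0),(35,0)]⟩⟩,.o ⟨false,1,⟨0,[(0,0)]⟩,⟨1,[(1,0),(6,0)]⟩⟩,.o ⟨false,1,⟨1,[(27,1),(4,0),(11,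
  0)]⟩,⟨0,[(10,0)]⟩⟩,.a ⟨true,0,⟨0,[(27,0)]⟩,⟨0,[(24,0)]⟩⟩ ⟨true,0,⟨1,[(2,1),(0,1),(32,2),(1,5),(0,
  0),(3,3)]⟩,⟨0,[(11,0)]⟩⟩ ⟨false,1,⟨0,[(0,0),(23,0)]⟩,⟨0,[(1,0),(25,0),(9,0)]⟩⟩]⟩)))))) (.R ⟨1,
  false,false,false,[0,0,1],[1,-1],[0,0,0,0,0,0,0,1],(⟨0,[(25,0)]⟩,⟨0,[(24,0)]⟩),(⟨0,[(28,0)]⟩,⟨0,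
  [(29,0)]⟩),⟨0,[(14,0)]⟩,.k,.k,.k,.k,.k,.k,⟨false,0,⟨0,[(8,0),(29,0)]⟩,⟨1,[(0,0),(0,0),(5,0),(31,
  0)]⟩⟩,⟨true,(-1),⟨0,[(2,0)]⟩,⟨1,[(22,1),(4,0),(11,0)]⟩⟩,⟨false,1,⟨1,[(15,0),(0,0),(23,0)]⟩,⟨0,
  []⟩⟩,⟨true,0,⟨3,[(0,2),(1,1),(4,1),(13,1),(12,0)]⟩,⟨0,[(4,0),(33,1)]⟩⟩,⟨true,0,⟨0,[(38,0)]⟩,⟨0,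
  [(37,0)]⟩⟩,⟨true,0,⟨3,[(0,0),(6,1),(11,1),(1,1),(12,0)]⟩,⟨0,[(4,0),(33,0)]⟩⟩,[.a ⟨true,0,⟨23,[(11,
  11),(3,4),(0,4),(14,0),(2,5),(7,1)]⟩,⟨0,[(38,0)]⟩⟩ ⟨true,0,⟨0,[(0,0),(1,0),(1,0),(31,0),(1,2)]⟩,
  ⟨0,[(6,0)]⟩⟩ ⟨false,0,⟨1,[(0,0),(1,0),(16,0)]⟩,⟨1,[(22,1),(4,0),(10,1),(0,0)]⟩⟩,.a ⟨true,0,⟨1,[(0,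
  0),(31,1),(1,0)]⟩,⟨3,[(7,0),(2,0),(24,1),(2,2)]⟩⟩ ⟨false,1,⟨1,[(8,1),(30,0),(0,0)]⟩,⟨1,[(1,0),(5,
  0),(25,1)]⟩⟩ ⟨true,0,⟨1,[(0,0),(1,1),(37,0)]⟩,⟨0,[(4,0),(2,0),(25,0),(4,0)]⟩⟩,.o ⟨false,1,⟨1,[(22,
  1),(4,0),(11,0)]⟩,⟨0,[(5,0)]⟩⟩,.a ⟨true,0,⟨0,[(22,0)]⟩,⟨0,[(19,0)]⟩⟩ ⟨false,1,⟨1,[(8,1),(30,0),(0,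
  0)]⟩,⟨0,[(6,0)]⟩⟩ ⟨true,0,⟨1,[(0,0),(1,0),(16,0)]⟩,⟨0,[(4,0),(2,0),(25,0),(4,0)]⟩⟩]⟩))) (.I [1,1,
  1,0,-1,0,0,1] (.S ⟨1,0,[0,1,0,0,0,0,0,-1],[1,0,-1],[0,0,0,0,0,0,0,-1],(⟨0,[(23,0)]⟩,⟨0,[(24,0)]⟩),
  ⟨0,[(12,0)]⟩,.k,.k,⟨false,1,⟨1,[(14,0),(0,0),(23,0)]⟩,⟨0,[]⟩⟩,⟨true,0,⟨0,[(41,0)]⟩,⟨0,[]⟩⟩,⟨true,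
  0,⟨0,[(37,0)]⟩,⟨0,[(36,0)]⟩⟩,⟨false,0,⟨0,[(37,0)]⟩,⟨3,[(10,1),(3,0),(0,0),(10,0),(12,1)]⟩⟩,[.o
  ⟨false,0,⟨0,[(20,0)]⟩,⟨0,[(1,0),(5,0),(23,0)]⟩⟩,.a ⟨true,0,⟨1,[(20,1),(12,0),(5,0)]⟩,⟨0,[(8,0),
  (28,0)]⟩⟩ ⟨true,1,⟨1,[(5,1),(32,0),(0,0)]⟩,⟨0,[(0,0)]⟩⟩ ⟨false,1,⟨0,[(5,0),(32,0)]⟩,⟨0,[(7,0)]⟩⟩,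
  .o ⟨false,0,⟨0,[(4,0)]⟩,⟨2,[(1,1),(0,0),(11,0),(6,0)]⟩⟩,.o ⟨false,0,⟨0,[(22,0)]⟩,⟨0,[(1,0)]⟩⟩]⟩)
  (.R ⟨1,false,false,false,[1,-1],[1,0,-1],[0,1,-1,-1],(⟨0,[(27,0)]⟩,⟨0,[(28,0)]⟩),(⟨0,[(23,0)]⟩,⟨0,
  [(24,0)]⟩),⟨0,[(12,0),(0,0)]⟩,.k,.k,(.r (-1) ⟨0,[(0,1),(2,1),(0,1),(28,0)]⟩ ⟨0,[(6,0),(2,0),(27,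
  0)]⟩),.k,(.r (-1) ⟨0,[(0,0),(2,0),(0,0),(3,0),(9,0)]⟩ ⟨3,[(6,4),(2,0),(24,1),(2,2)]⟩),.k,⟨true,0,
  ⟨0,[(3,0),(14,0)]⟩,⟨0,[(6,0)]⟩⟩,⟨false,1,⟨0,[(4,0),(33,0)]⟩,⟨0,[(21,0)]⟩⟩,⟨true,0,⟨0,[(41,0)]⟩,⟨0,
  []⟩⟩,⟨false,1,⟨3,[(0,1),(5,1),(4,1),(14,0),(10,1),(0,0)]⟩,⟨0,[(8,0)]⟩⟩,⟨false,0,⟨0,[(37,0)]⟩,⟨3,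
  [(10,1),(3,0),(0,0),(10,0),(12,1)]⟩⟩,⟨false,1,⟨3,[(0,1),(5,1),(4,1),(14,0),(10,5),(0,0)]⟩,⟨0,[(0,
  0),(2,1),(0,0),(26,0),(1,0)]⟩⟩,[.e ⟨false,1,⟨0,[(36,0),(1,0)]⟩,⟨0,[(31,0),(5,0)]⟩⟩ ⟨false,1,⟨0,
  [(0,0),(3,0),(27,0)]⟩,⟨0,[(19,0),(11,0)]⟩⟩,.o ⟨false,1,⟨5,[(0,3),(5,1),(3,0),(0,2),(14,1)]⟩,⟨0,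
  [(3,0),(33,0)]⟩⟩,.o ⟨false,0,⟨1,[(21,0),(0,0)]⟩,⟨1,[(26,0),(11,0)]⟩⟩,.a ⟨true,(-1),⟨0,[(3,0),(16,
  0),(10,1),(1,0),(3,0)]⟩,⟨0,[(38,0)]⟩⟩ ⟨false,1,⟨0,[(0,0),(2,0),(14,0)]⟩,⟨0,[(6,0),(0,0)]⟩⟩ ⟨true,
  1,⟨0,[(0,0),(3,0),(27,0)]⟩,⟨0,[(3,1),(0,0),(1,0),(26,0),(3,0)]⟩⟩]⟩))))) (.I [1,0,-2,-1,1,0,0,-1]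
  (.S ⟨1,0,[0,1,0,0,0,0,0,-1],[1,0,-1],[1,0,0,-1,0,0,0,-1],(⟨0,[(20,0)]⟩,⟨0,[(21,0)]⟩),⟨0,[(9,0)]⟩,
  .k,.k,⟨false,1,⟨3,[(7,1),(3,0),(0,0),(10,0),(12,1)]⟩,⟨0,[(34,0)]⟩⟩,⟨true,0,⟨0,[(38,0)]⟩,⟨0,[]⟩⟩,
  ⟨true,0,⟨0,[]⟩,⟨0,[(38,0)]⟩⟩,⟨false,0,⟨0,[(34,0)]⟩,⟨3,[(7,1),(3,0),(0,0),(10,0),(12,1)]⟩⟩,[.o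
  ⟨false,0,⟨0,[(17,0)]⟩,⟨1,[(1,1),(2,1),(18,0),(12,0)]⟩⟩,.e ⟨false,1,⟨0,[(0,0),(27,0)]⟩,⟨0,[(6,0),
  (27,0)]⟩⟩ ⟨false,1,⟨7,[(0,3),(2,3),(7,0),(0,0),(18,1),(3,2)]⟩,⟨0,[(4,0)]⟩⟩,.a ⟨true,0,⟨23,[(8,11),
  (2,4),(0,4),(14,0),(2,5),(7,1)]⟩,⟨0,[(1,0)]⟩⟩ ⟨false,1,⟨3,[(0,1),(2,1),(3,1),(15,0),(12,0)]⟩,⟨0,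
  [(4,0),(29,0)]⟩⟩ ⟨true,0,⟨0,[(1,0),(15,0)]⟩,⟨0,[(4,0)]⟩⟩,.o ⟨false,0,⟨0,[(19,0)]⟩,⟨1,[(1,1),(21,
  0),(11,0)]⟩⟩]⟩) (.S ⟨1,0,[0,0,0,0,0,0,0,1],[0,0,1],[0,1,0,0,0,0,0,1],(⟨0,[(21,0)]⟩,⟨0,[(20,0)]⟩),
  ⟨0,[(10,0)]⟩,.k,.k,⟨true,0,⟨0,[(38,0)]⟩,⟨0,[]⟩⟩,⟨false,1,⟨1,[(11,0),(0,0),(23,0)]⟩,⟨0,[]⟩⟩,⟨false,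
  0,⟨0,[(34,0)]⟩,⟨3,[(7,1),(3,0),(0,0),(10,0),(12,1)]⟩⟩,⟨true,0,⟨0,[(34,0)]⟩,⟨0,[(33,0)]⟩⟩,[.a
  ⟨true,0,⟨0,[(1,0),(2,0)]⟩,⟨1,[(17,1),(12,0),(5,0)]⟩⟩ ⟨false,0,⟨3,[(0,1),(4,1),(9,1),(7,0),(3,0),
  (1,5)]⟩,⟨1,[(2,1),(32,0),(0,0)]⟩⟩ ⟨true,0,⟨3,[(0,1),(4,1),(9,1),(7,0),(3,0),(1,1)]⟩,⟨0,[(2,0)]⟩⟩,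
  .o ⟨false,1,⟨1,[(1,1),(2,1),(18,0),(12,0)]⟩,⟨0,[(17,0)]⟩⟩,.a ⟨true,0,⟨0,[(1,0)]⟩,⟨23,[(8,11),(2,
  4),(0,4),(14,0),(2,5),(7,1)]⟩⟩ ⟨false,0,⟨3,[(0,1),(4,1),(9,1),(7,0),(3,0),(1,1)]⟩,⟨1,[(2,1),(32,
  0),(0,0)]⟩⟩ ⟨true,0,⟨3,[(0,1),(4,1),(9,1),(7,0),(3,0),(1,1)]⟩,⟨0,[(1,0),(15,0)]⟩⟩,.a ⟨true,0,⟨0,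
  [(18,0)]⟩,⟨0,[(15,0)]⟩⟩ ⟨true,0,⟨3,[(0,1),(4,1),(9,1),(7,0),(3,0),(1,5)]⟩,⟨0,[(2,0)]⟩⟩ ⟨false,1,
  ⟨1,[(4,1),(30,0),(0,0)]⟩,⟨0,[(2,0)]⟩⟩]⟩))) (.S ⟨1,0,[0,0,0,0,0,0,0,1],[0,0,1],[1,1,1],(⟨0,[(19,
  0)]⟩,⟨0,[(18,0)]⟩),⟨0,[(8,0)]⟩,.k,.k,⟨true,0,⟨0,[(15,0),(0,0)]⟩,⟨0,[(0,0)]⟩⟩,⟨false,1,⟨1,[(9,0),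
  (0,0),(23,0)]⟩,⟨0,[]⟩⟩,⟨false,0,⟨0,[(1,0),(25,0)]⟩,⟨7,[(0,5),(3,1),(0,3),(15,1),(11,0),(0,4)]⟩⟩,
  ⟨true,0,⟨0,[(32,0)]⟩,⟨0,[(31,0)]⟩⟩,[.e ⟨false,0,⟨0,[(36,0)]⟩,⟨1,[(33,0),(0,0)]⟩⟩ ⟨false,0,⟨0,[(0,
  0)]⟩,⟨7,[(1,3),(3,1),(3,0),(0,0),(4,3),(0,3),(4,0),(11,5)]⟩⟩,.o ⟨false,1,⟨1,[(0,1),(15,1),(4,0),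
  (12,0)]⟩,⟨0,[(15,0)]⟩⟩,.o ⟨false,1,⟨1,[(16,1),(4,0),(11,0)]⟩,⟨0,[(0,0),(14,0),(10,0)]⟩⟩,.a ⟨true,
  0,⟨0,[(16,0)]⟩,⟨0,[(13,0)]⟩⟩ ⟨false,0,⟨0,[]⟩,⟨1,[(9,0),(0,0),(23,0)]⟩⟩ ⟨true,0,⟨0,[(0,0)]⟩,⟨0,
  [(15,0),(0,0)]⟩⟩]⟩)) (.I [0,-1,0,1,1,0,0,-1] (.S ⟨1,0,[0,0,0,0,0,0,0,1],[0,0,1],[1,1,0,-1,0,0,0,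
  1],(⟨0,[(19,0)]⟩,⟨0,[(18,0)]⟩),⟨0,[(8,0)]⟩,.k,.k,⟨true,0,⟨0,[(31,0)]⟩,⟨0,[(32,0)]⟩⟩,⟨false,1,⟨1,
  [(9,0),(0,0),(23,0)]⟩,⟨0,[]⟩⟩,⟨false,0,⟨0,[]⟩,⟨1,[(9,0),(0,0),(23,0)]⟩⟩,⟨true,0,⟨0,[(32,0)]⟩,⟨0,
  [(31,0)]⟩⟩,[.e ⟨false,0,⟨4,[(1,2),(1,0),(0,0),(12,0),(13,0)]⟩,⟨0,[(0,0)]⟩⟩ ⟨false,0,⟨0,[(1,0),(24,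
  0),(5,0)]⟩,⟨0,[(0,0),(30,0)]⟩⟩,.o ⟨false,1,⟨1,[(3,1),(17,0),(10,1),(1,0)]⟩,⟨0,[(15,0)]⟩⟩,.o
  ⟨false,1,⟨1,[(16,1),(4,0),(11,0)]⟩,⟨0,[(1,0),(13,0),(10,1),(5,0)]⟩⟩,.a ⟨true,0,⟨0,[(16,0)]⟩,⟨0,
  [(13,0)]⟩⟩ ⟨false,0,⟨0,[(1,0),(24,0)]⟩,⟨1,[(0,1),(15,0),(0,0)]⟩⟩ ⟨true,0,⟨0,[(1,0),(24,0),(5,0)]⟩,
  ⟨0,[(15,0),(0,0)]⟩⟩]⟩) (.Q [0,-1,0,1,0,0,1,1,0,0,1] (.p true [0,0,1] [] (⟨0,[(19,0)]⟩,⟨0,[(18,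
  0)]⟩) .k 0 (⟨0,[]⟩,⟨0,[]⟩) .k .k) (.R ⟨2,true,false,false,[0,1],[0,1,1],[0,0,1,1],(⟨0,[]⟩,⟨0,[]⟩),
  (⟨0,[(20,0),(3,0)]⟩,⟨0,[(8,0)]⟩),⟨0,[]⟩,.k,.k,.k,.k,.k,.k,⟨true,1,⟨1,[(16,1),(0,1),(16,0),(0,0)]⟩,
  ⟨0,[(1,0),(25,0),(5,0)]⟩⟩,⟨false,1,⟨0,[(17,0),(16,0)]⟩,⟨2,[(1,0),(12,1),(1,0),(5,0),(4,1),(5,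
  0)]⟩⟩,⟨false,1,⟨1,[(10,0),(0,0),(23,0)]⟩,⟨0,[]⟩⟩,⟨true,0,⟨2,[(0,0),(3,0),(10,0)]⟩,⟨0,[(16,0)]⟩⟩,
  ⟨true,0,⟨0,[(33,0)]⟩,⟨0,[(32,0)]⟩⟩,⟨false,0,⟨0,[(0,0)]⟩,⟨3,[(6,1),(3,0),(0,0),(4,3),(5,0),(12,
  1)]⟩⟩,[]⟩) (.Q [0,-1,0,-1,0,0,0,0,0,1] (.pp false [-1,1]) (.R ⟨1,false,false,false,[1,0,-1],[1,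
  -1],[0,0,0,0,0,0,0,-1],(⟨0,[(20,0)]⟩,⟨0,[(21,0)]⟩),(⟨0,[(24,0)]⟩,⟨0,[(25,0)]⟩),⟨0,[(9,0)]⟩,.k,.k,
  .k,.k,.k,.k,⟨false,1,⟨1,[(17,1),(0,1),(15,1),(0,0),(0,0)]⟩,⟨1,[(2,0),(0,0),(32,0)]⟩⟩,⟨true,0,⟨0,
  [(18,0)]⟩,⟨2,[(2,0),(12,1),(1,0),(5,0),(4,1),(5,0)]⟩⟩,⟨false,1,⟨1,[(11,0),(0,0),(23,0)]⟩,⟨0,[]⟩⟩,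
  ⟨true,0,⟨0,[(5,0)]⟩,⟨0,[(17,0),(16,0)]⟩⟩,⟨true,0,⟨0,[(34,0)]⟩,⟨0,[(33,0)]⟩⟩,⟨true,0,⟨0,[(5,0),(28,
  0)]⟩,⟨0,[(17,0)]⟩⟩,[.a ⟨true,0,⟨23,[(7,11),(3,4),(0,4),(14,0),(2,5),(7,1)]⟩,⟨0,[(34,0)]⟩⟩ ⟨true,1,
  ⟨1,[(17,1),(0,1),(16,0),(0,0)]⟩,⟨0,[(2,0),(25,0),(5,0)]⟩⟩ ⟨false,1,⟨1,[(0,1),(17,1),(4,0),(5,1),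
  (5,0)]⟩,⟨2,[(2,0),(12,1),(1,0),(5,0),(4,1),(5,3)]⟩⟩,.a ⟨true,0,⟨0,[(0,0)]⟩,⟨0,[(34,0),(3,0)]⟩⟩
  ⟨false,2,⟨0,[(17,0),(0,0),(16,0),(0,0)]⟩,⟨0,[(2,0),(31,0)]⟩⟩ ⟨true,1,⟨1,[(0,1),(17,1),(4,0),(11,
  0)]⟩,⟨0,[(2,0),(14,0),(10,0),(5,1)]⟩⟩,.o ⟨false,0,⟨2,[(2,0),(12,1),(1,0),(5,0),(4,1),(5,0)]⟩,⟨1,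
  [(18,1),(4,0),(11,0)]⟩⟩,.a ⟨true,(-1),⟨2,[(2,1),(12,0),(1,1),(10,3),(1,0),(3,1)]⟩,⟨0,[(18,0),(16,
  0)]⟩⟩ ⟨false,2,⟨0,[(17,0),(0,0),(16,0),(0,0)]⟩,⟨0,[(2,0),(25,0),(5,0)]⟩⟩ ⟨true,1,⟨1,[(0,1),(17,1),
  (4,0),(5,1),(5,0)]⟩,⟨0,[(2,0),(14,0),(10,0),(5,1)]⟩⟩]⟩) (.Q [0,0,0,2,0,0,1,1,0,-1,1] (.p true [0,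
  0,1] [1] (⟨0,[(21,0)]⟩,⟨0,[(20,0)]⟩) .k 1 (⟨0,[]⟩,⟨0,[]⟩) .k .k) (.R ⟨1,true,false,false,[1,0,-1],
  [0,1],[0,1,0,0,0,0,0,-1],(⟨0,[(21,0)]⟩,⟨0,[(22,0)]⟩),(⟨0,[(26,0)]⟩,⟨0,[(25,0)]⟩),⟨0,[(10,0)]⟩,.k,
  .k,.k,.k,(.x 1 ⟨0,[(3,0),(14,0),(3,0),(3,1),(2,1),(5,0)]⟩ ⟨1,[(10,1),(8,1),(3,1),(0,0),(11,2)]⟩),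
  .k,⟨true,1,⟨0,[(2,0),(16,0),(16,0)]⟩,⟨0,[(3,0),(25,1),(5,1)]⟩⟩,⟨false,2,⟨1,[(19,1),(4,0),(11,2)]⟩,
  ⟨2,[(3,1),(12,0),(1,1),(10,3),(1,0),(3,1)]⟩⟩,⟨true,0,⟨0,[(39,0)]⟩,⟨0,[]⟩⟩,⟨false,1,⟨3,[(0,1),(16,
  1),(6,0),(12,2)]⟩,⟨1,[(2,1),(28,0),(5,0)]⟩⟩,⟨false,0,⟨0,[(35,0)]⟩,⟨3,[(8,1),(3,0),(0,0),(10,0),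
  (12,1)]⟩⟩,⟨true,0,⟨0,[(0,0)]⟩,⟨0,[(8,0),(9,0)]⟩⟩,[]⟩) (.Q [0,0,-1,0,0,0,0,0,-1,1,0,-1] (.p false
  [0,0,0,0,1] [1] (⟨0,[(15,0)]⟩,⟨0,[(14,0)]⟩) .k 1 (⟨0,[]⟩,⟨0,[]⟩) .k .k) (.Q [0,0,0,0,0,-1,0,0,0,0,
  0,1] (.ed false [1,-1,0,0,1] .k) (.S ⟨1,0,[1],[0,0,0,0,1],[1,1],(⟨0,[(17,0)]⟩,⟨0,[(16,0)]⟩),⟨0,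
  [(0,0)]⟩,.k,(.r (-1) ⟨3,[(10,1),(3,0),(0,0),(10,0),(11,1)]⟩ ⟨1,[(21,0),(0,0),(14,1)]⟩),⟨true,0,⟨0,
  [(41,0)]⟩,⟨0,[]⟩⟩,⟨false,1,⟨1,[(14,0),(0,0),(23,0)]⟩,⟨0,[]⟩⟩,⟨false,0,⟨0,[(37,0)]⟩,⟨3,[(10,1),(3,
  0),(0,0),(10,0),(12,1)]⟩⟩,⟨true,0,⟨0,[(37,0)]⟩,⟨0,[(36,0)]⟩⟩,[.a ⟨true,0,⟨0,[(15,0)]⟩,⟨3,[(1,3),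
  (19,0),(0,0),(17,1)]⟩⟩ ⟨false,0,⟨0,[(32,0)]⟩,⟨1,[(14,0),(0,0),(23,0)]⟩⟩ ⟨true,0,⟨0,[]⟩,⟨1,[(21,0),
  (0,0)]⟩⟩,.o ⟨false,1,⟨1,[(15,1),(10,0),(12,0)]⟩,⟨17,[(1,15),(1,9),(0,4),(0,4),(8,1),(6,4),(4,2),
  (4,1),(8,8)]⟩⟩,.a ⟨true,0,⟨0,[(15,0)]⟩,⟨1,[(1,1),(19,0),(0,0)]⟩⟩ ⟨false,0,⟨0,[]⟩,⟨1,[(14,0),(0,0),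
  (23,0)]⟩⟩ ⟨true,0,⟨0,[]⟩,⟨0,[(41,0)]⟩⟩,.a ⟨true,0,⟨1,[(15,1),(5,0),(0,0)]⟩,⟨0,[(1,0)]⟩⟩ ⟨true,0,
  ⟨0,[(32,0)]⟩,⟨1,[(21,0),(0,0)]⟩⟩ ⟨false,1,⟨1,[(38,0),(0,0)]⟩,⟨1,[(21,0),(0,0)]⟩⟩]⟩) (.S ⟨1,0,[-1,
  1],[1,0,0,0,-1],[-1],(⟨0,[(16,0)]⟩,⟨0,[(17,0)]⟩),⟨0,[(0,0),(11,0),(0,0)]⟩,.k,(.r (-1) ⟨5,[(10,1),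
  (3,0),(0,0),(10,0),(9,1),(1,2),(0,0)]⟩ ⟨1,[(21,0),(0,0),(14,1)]⟩),⟨false,1,⟨1,[(14,0),(0,0),(23,
  0)]⟩,⟨0,[]⟩⟩,⟨true,0,⟨0,[(41,0)]⟩,⟨0,[]⟩⟩,⟨true,0,⟨0,[(37,0)]⟩,⟨0,[(36,0)]⟩⟩,⟨false,0,⟨0,[(37,
  0)]⟩,⟨3,[(10,1),(3,0),(0,0),(10,0),(12,1)]⟩⟩,[.o ⟨false,0,⟨17,[(1,15),(1,9),(0,4),(0,4),(8,1),(6,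
  4),(4,2),(4,1),(8,8)]⟩,⟨1,[(15,1),(10,0),(12,0)]⟩⟩,.e ⟨false,1,⟨1,[(30,0),(7,0)]⟩,⟨0,[(41,0)]⟩⟩
  ⟨false,1,⟨11,[(14,4),(0,4),(14,0),(7,5),(2,1)]⟩,⟨0,[]⟩⟩,.a ⟨true,0,⟨1,[(1,1),(19,0),(0,0)]⟩,⟨0,
  [(15,0)]⟩⟩ ⟨false,1,⟨1,[(14,0),(0,0),(14,0)]⟩,⟨0,[]⟩⟩ ⟨true,0,⟨0,[(41,0)]⟩,⟨0,[]⟩⟩,.o ⟨false,0,⟨2,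
  [(1,1),(1,1),(0,0),(0,0),(8,0),(6,0),(9,3)]⟩,⟨1,[(15,1),(10,0),(11,0)]⟩⟩]⟩)) (.Q [0,0,-1,0,0,0,0,
  0,1,-1,0,1] (.p true [0,0,0,0,1] [1] (⟨0,[(16,0)]⟩,⟨0,[(15,0)]⟩) .k 1 (⟨0,[]⟩,⟨0,[]⟩) .k .k) (.Q
  [1,0,0,0,-1,0,0,0,1,0,0,1] (.p true [0,0,0,0,1] [] (⟨0,[(17,0)]⟩,⟨0,[(16,0)]⟩) .k 0 (⟨0,[]⟩,⟨0,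
  []⟩) .k .k) (.R ⟨2,true,false,true,[0,1],[0,0,0,0,1],[1,1],(⟨0,[]⟩,⟨0,[]⟩),(⟨0,[(18,0)]⟩,⟨0,[(17,
  0)]⟩),⟨0,[]⟩,.k,.k,.k,(.r 0 ⟨1,[(22,0),(0,0),(14,1)]⟩ ⟨7,[(2,1),(8,3),(3,1),(11,0),(11,4)]⟩),.k,
  .k,⟨false,1,⟨1,[(15,0),(0,0),(22,0)]⟩,⟨0,[]⟩⟩,⟨true,(-1),⟨3,[(0,3),(21,0),(0,0),(17,1)]⟩,⟨0,[(15,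
  0)]⟩⟩,⟨false,1,⟨7,[(2,1),(8,3),(3,1),(11,0),(11,4)]⟩,⟨0,[(32,0),(5,0)]⟩⟩,⟨true,(-1),⟨0,[(0,0),(36,
  0)]⟩,⟨0,[(15,0),(22,0)]⟩⟩,⟨true,0,⟨0,[(33,0)]⟩,⟨1,[(22,0),(0,0)]⟩⟩,⟨false,(-1),⟨0,[(0,0)]⟩,⟨1,
  [(15,2),(0,0),(14,0)]⟩⟩,[]⟩) (.R ⟨1,false,false,true,[0,0,1],[1,0,0,0,-1],[1,0,0,-1,0,0,0,1],(⟨0,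
  [(25,0)]⟩,⟨0,[(24,0)]⟩),(⟨0,[(17,0)]⟩,⟨0,[(18,0)]⟩),⟨0,[(14,0)]⟩,.k,.k,.k,.k,(.r 0 ⟨1,[(6,0),(0,
  0),(32,0)]⟩ ⟨1,[(15,0),(0,0),(4,1),(0,1),(15,1),(1,0)]⟩),.k,⟨true,0,⟨0,[(6,0),(33,0)]⟩,⟨0,[(21,0),
  (0,0),(15,0)]⟩⟩,⟨false,1,⟨0,[(15,0),(3,0)]⟩,⟨0,[(1,0),(20,0)]⟩⟩,⟨false,1,⟨7,[(2,1),(8,3),(3,1),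
  (11,0),(11,0),(0,3)]⟩,⟨0,[(38,0)]⟩⟩,⟨false,1,⟨1,[(0,1),(20,1),(12,0),(5,0)]⟩,⟨0,[(1,0),(7,0),(22,
  0),(5,0)]⟩⟩,⟨true,0,⟨0,[]⟩,⟨0,[(42,0)]⟩⟩,⟨false,1,⟨1,[(15,1),(5,1),(12,0),(3,1),(1,0)]⟩,⟨0,[(1,0),
  (7,0),(22,0)]⟩⟩,[.o ⟨false,1,⟨0,[(15,0),(26,0)]⟩,⟨0,[(1,0),(30,0)]⟩⟩,.o ⟨false,1,⟨0,[(0,0)]⟩,⟨1,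
  [(1,0),(0,0)]⟩⟩,.o ⟨false,1,⟨1,[(22,1),(4,0),(11,0)]⟩,⟨3,[(4,0),(1,0),(12,2),(1,0),(5,0),(4,2)]⟩⟩,
  .a ⟨true,0,⟨0,[(22,0)]⟩,⟨0,[(19,0)]⟩⟩ ⟨true,0,⟨1,[(6,0),(0,0),(32,0)]⟩,⟨0,[(21,0),(0,0),(15,0)]⟩⟩
  ⟨false,1,⟨0,[(0,0),(18,0)]⟩,⟨0,[(1,0),(20,0),(9,0)]⟩⟩]⟩)) (.Q [0,0,-2,0,0,0,-1,0,0,1,-1] (.p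
  false [0,0,1] [1] (⟨0,[(24,0)]⟩,⟨0,[(23,0)]⟩) .k 1 (⟨0,[]⟩,⟨0,[]⟩) .k .k) (.Q [0,0,0,0,0,-2,0,0,0,
  0,1] (.p true [0,0,1] [] (⟨0,[(25,0)]⟩,⟨0,[(24,0)]⟩) .k 0 (⟨0,[]⟩,⟨0,[]⟩) .k .k) (.S ⟨1,0,[0,0,-1,
  -1,0,0,0,1],[0,-1,1],[0,1,-1,-1,0,0,0,1],(⟨0,[(15,0)]⟩,⟨0,[(25,0),(4,0)]⟩),⟨0,[(0,0)]⟩,.k,(.r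
  (-1) ⟨9,[(8,7),(2,1),(0,5),(15,2),(11,1),(0,4)]⟩ ⟨0,[(22,0),(0,0),(9,0),(5,1)]⟩),⟨true,0,⟨0,[(43,
  0)]⟩,⟨0,[]⟩⟩,⟨false,1,⟨1,[(16,0),(0,0),(23,0)]⟩,⟨0,[]⟩⟩,⟨false,0,⟨0,[(39,0)]⟩,⟨7,[(3,1),(8,3),(3,
  1),(11,0),(11,0),(0,3)]⟩⟩,⟨true,0,⟨0,[(39,0)]⟩,⟨0,[(38,0)]⟩⟩,[.a ⟨true,0,⟨0,[(10,0)]⟩,⟨1,[(22,1),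
  (12,0),(3,1),(1,0)]⟩⟩ ⟨false,0,⟨0,[(8,0)]⟩,⟨0,[(22,0),(0,0),(15,0),(1,0)]⟩⟩ ⟨true,0,⟨1,[(7,0),(0,
  0),(32,0)]⟩,⟨0,[(22,0),(0,0),(9,0),(5,0)]⟩⟩,.o ⟨false,1,⟨1,[(10,1),(17,0),(12,0)]⟩,⟨0,[(22,0),(16,
  0)]⟩⟩,.a ⟨true,0,⟨0,[(23,0)]⟩,⟨0,[(20,0)]⟩⟩ ⟨false,0,⟨1,[(7,0),(0,0),(32,0)]⟩,⟨0,[(22,0),(0,0),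
  (15,0),(1,0)]⟩⟩ ⟨true,0,⟨1,[(7,0),(0,0),(32,0)]⟩,⟨0,[(22,0),(0,0),(15,0)]⟩⟩,.a ⟨true,0,⟨1,[(23,2),
  (0,0)]⟩,⟨0,[(1,0)]⟩⟩ ⟨true,0,⟨0,[(8,0)]⟩,⟨0,[(22,0),(0,0),(9,0),(5,0)]⟩⟩ ⟨false,1,⟨0,[(8,0),(32,
  0)]⟩,⟨0,[(22,0),(0,0),(9,0),(5,0)]⟩⟩]⟩) (.R ⟨0,false,false,true,[0,-1,1],[1,-1],[0,1,0,-1],(⟨0,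
  [(15,0)]⟩,⟨7,[(0,3),(1,1),(14,1),(7,3),(9,0),(4,0)]⟩),(⟨0,[(29,0)]⟩,⟨0,[(30,0)]⟩),⟨0,[(0,0)]⟩,.k,
  .k,(.r (-1) ⟨9,[(8,7),(2,1),(0,5),(15,2),(11,1),(0,4)]⟩ ⟨0,[(22,0),(0,0),(9,0),(5,1)]⟩),.k,.k,.k,
  ⟨true,0,⟨1,[(23,0),(0,0)]⟩,⟨0,[]⟩⟩,⟨false,0,⟨0,[(20,0)]⟩,⟨1,[(23,1),(4,0),(11,0)]⟩⟩,⟨true,0,⟨0,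
  [(22,0),(0,0)]⟩,⟨1,[(7,0),(0,0),(30,1),(1,0)]⟩⟩,⟨false,0,⟨1,[(22,1),(12,0),(5,0)]⟩,⟨1,[(10,1),(17,
  0),(10,1),(1,0)]⟩⟩,⟨false,0,⟨0,[]⟩,⟨0,[]⟩⟩,⟨false,0,⟨0,[]⟩,⟨0,[]⟩⟩,[.o ⟨false,0,⟨0,[(38,0)]⟩,⟨1,
  [(28,0),(10,1),(1,0)]⟩⟩,.a ⟨true,0,⟨7,[(2,1),(9,3),(4,1),(17,0),(4,0)]⟩,⟨0,[(39,0)]⟩⟩ ⟨false,1,⟨7,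
  [(3,1),(8,3),(3,1),(11,0),(11,4)]⟩,⟨0,[(39,0)]⟩⟩ ⟨true,0,⟨9,[(1,3),(2,1),(2,0),(0,0),(3,1),(0,1),
  (27,0)]⟩,⟨0,[(5,0),(17,0),(9,0)]⟩⟩,.a ⟨true,0,⟨0,[(23,0)]⟩,⟨0,[(20,0)]⟩⟩ ⟨true,0,⟨0,[(38,0)]⟩,⟨0,
  [(39,0)]⟩⟩ ⟨false,0,⟨9,[(1,3),(2,1),(2,0),(0,0),(3,1),(0,1),(27,0)]⟩,⟨1,[(23,1),(4,0),(10,1),(1,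
  0)]⟩⟩,.a ⟨true,0,⟨1,[(23,2),(0,0)]⟩,⟨0,[(1,0)]⟩⟩ ⟨false,1,⟨7,[(3,1),(8,3),(3,1),(11,0),(11,4)]⟩,
  ⟨0,[(33,0),(5,0)]⟩⟩ ⟨true,0,⟨10,[(1,5),(2,2),(3,2),(3,0),(0,0),(22,3)]⟩,⟨0,[(5,0),(17,0),(9,
  0)]⟩⟩]⟩)) (.Q [0,0,0,0,0,-1,0,0,0,1,0,-1] (.ed true [0,1,0,0,1] .k) (.Q [1,-1,0,0,0,0,0,0,1,0,0,
  1] (.p true [0,0,0,0,1] [] (⟨0,[(19,0)]⟩,⟨0,[(18,0)]⟩) .k 0 (⟨0,[]⟩,⟨0,[]⟩) .k .k) (.Q [0,0,-1,0,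
  0,0,-1,-1,1,0,-1,1] (.p false [0,0,1] [0,0,0,0,1] (⟨0,[(27,0)]⟩,⟨0,[(26,0)]⟩) .k 2 (⟨0,[(20,0)]⟩,
  ⟨0,[(19,0)]⟩) .k (.r 0 ⟨0,[(2,0),(2,0),(2,1),(24,1),(1,1),(4,3)]⟩ ⟨1,[(23,1),(0,1),(16,0),(0,
  0)]⟩)) (.R ⟨1,false,false,false,[1,0,0,0,-1],[1,0,-1],[-1],(⟨0,[(20,0)]⟩,⟨0,[(21,0)]⟩),(⟨0,[(27,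
  0)]⟩,⟨0,[(28,0)]⟩),⟨0,[(2,0)]⟩,.k,.k,(.r (-1) ⟨9,[(5,1),(8,3),(3,1),(11,0),(3,0),(5,1),(1,5)]⟩ ⟨2,
  [(3,0),(11,0),(9,0),(15,2)]⟩),.k,(.r 0 ⟨1,[(9,0),(0,0),(23,0)]⟩ ⟨1,[(18,0),(0,0),(4,1),(0,1),(15,
  1),(1,0)]⟩),.k,⟨false,0,⟨1,[(9,0),(0,0),(30,1),(1,0)]⟩,⟨0,[(0,0),(17,0),(6,0)]⟩⟩,⟨true,(-1),⟨0,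
  [(0,0),(8,0),(25,0),(5,0)]⟩,⟨0,[(18,0),(6,0)]⟩⟩,⟨false,1,⟨1,[(18,0),(0,0),(23,0)]⟩,⟨0,[]⟩⟩,⟨false,
  0,⟨0,[(0,0),(34,0)]⟩,⟨0,[(12,0),(5,0),(22,0)]⟩⟩,⟨true,0,⟨0,[(41,0)]⟩,⟨0,[(40,0)]⟩⟩,⟨false,0,⟨0,
  [(0,0),(34,0),(5,0)]⟩,⟨3,[(3,0),(0,0),(5,1),(1,1),(5,2),(6,0),(8,0)]⟩⟩,[.e ⟨false,1,⟨11,[(18,4),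
  (0,4),(14,0),(7,5),(2,1)]⟩,⟨0,[]⟩⟩ ⟨false,0,⟨0,[(0,0)]⟩,⟨0,[(12,0),(5,0),(22,0)]⟩⟩,.o ⟨false,1,⟨0,
  [(24,0),(18,0)]⟩,⟨0,[(7,0),(4,0)]⟩⟩,.o ⟨false,1,⟨0,[(18,0)]⟩,⟨8,[(0,3),(0,4),(1,3),(3,0),(1,1),(0,
  1),(19,1),(10,2)]⟩⟩,.a ⟨true,0,⟨0,[(4,0)]⟩,⟨2,[(0,0),(0,1),(8,0),(14,0),(10,0),(4,0)]⟩⟩ ⟨false,1,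
  ⟨1,[(34,0),(7,0)]⟩,⟨2,[(3,0),(11,0),(9,0)]⟩⟩ ⟨true,0,⟨0,[(0,0)]⟩,⟨0,[(4,0),(2,0),(4,0)]⟩⟩]⟩) (.Q
  [0,0,0,0,0,0,0,0,1,-1,0,1] (.p true [0,0,0,0,1] [1] (⟨0,[(21,0)]⟩,⟨0,[(20,0)]⟩) .k 1 (⟨0,[]⟩,⟨0,
  []⟩) .k .k) (.S ⟨1,0,[-1,1],[1,0,0,0,-1],[-1],(⟨0,[(21,0)]⟩,⟨0,[(22,0)]⟩),⟨0,[(3,0)]⟩,.k,(.r (-1)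
  ⟨9,[(6,1),(8,3),(3,1),(11,0),(3,0),(5,1),(1,5)]⟩ ⟨2,[(4,0),(11,0),(9,0),(15,2)]⟩),⟨false,1,⟨1,
  [(19,0),(0,0),(23,0)]⟩,⟨0,[]⟩⟩,⟨true,0,⟨0,[(46,0)]⟩,⟨0,[]⟩⟩,⟨true,0,⟨0,[(42,0)]⟩,⟨0,[(41,0)]⟩⟩,
  ⟨false,0,⟨0,[(42,0)]⟩,⟨7,[(6,1),(8,3),(3,1),(11,0),(11,0),(0,3)]⟩⟩,[.a ⟨true,0,⟨1,[(1,0),(3,0),(1,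
  0),(29,1),(4,1)]⟩,⟨0,[(2,0)]⟩⟩ ⟨false,1,⟨11,[(19,4),(0,4),(14,0),(7,5),(2,1)]⟩,⟨0,[]⟩⟩ ⟨true,0,⟨0,
  [(46,0)]⟩,⟨0,[(36,0)]⟩⟩,.o ⟨false,1,⟨4,[(1,1),(7,1),(9,2),(15,0),(6,1),(0,0)]⟩,⟨0,[(0,0)]⟩⟩,.o
  ⟨false,1,⟨0,[(19,0)]⟩,⟨0,[(0,0)]⟩⟩,.e ⟨false,1,⟨1,[(35,0),(7,0)]⟩,⟨2,[(4,0),(11,0),(9,0)]⟩⟩
  ⟨false,1,⟨11,[(19,4),(0,4),(14,0),(7,5),(2,1)]⟩,⟨0,[(36,0)]⟩⟩]⟩) (.Q [-1,0,0,0,0,0,0,0,-1,1,0,-1]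
  (.p false [0,0,0,0,1] [1] (⟨0,[(22,0)]⟩,⟨0,[(21,0)]⟩) .k 1 (⟨0,[]⟩,⟨0,[]⟩) .k .k) (.R ⟨2,true,
  false,false,[0,1],[0,0,0,0,1],[1,1],(⟨0,[]⟩,⟨0,[]⟩),(⟨0,[(23,0)]⟩,⟨0,[(22,0)]⟩),⟨0,[]⟩,.k,.k,.k,
  (.r 0 ⟨2,[(5,0),(11,0),(9,0),(15,2)]⟩ ⟨7,[(7,1),(8,3),(3,1),(11,0),(11,4)]⟩),.k,.k,⟨true,0,⟨0,
  [(47,0)]⟩,⟨0,[(41,0)]⟩⟩,⟨false,0,⟨0,[(21,0)]⟩,⟨1,[(0,1),(31,0),(11,0)]⟩⟩,⟨false,1,⟨7,[(7,1),(8,3),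
  (3,1),(11,0),(11,4)]⟩,⟨0,[(37,0),(5,0)]⟩⟩,⟨true,0,⟨0,[(3,0),(38,0)]⟩,⟨0,[(0,0),(8,0)]⟩⟩,⟨true,0,
  ⟨0,[(38,0)]⟩,⟨2,[(5,0),(11,0),(9,0)]⟩⟩,⟨false,0,⟨0,[(3,0)]⟩,⟨7,[(0,1),(19,5),(11,0),(3,0),(10,
  1)]⟩⟩,[]⟩) (.S ⟨1,0,[-1],[1,0,0,0,-1],[0,1,0,-1],(⟨0,[(22,0)]⟩,⟨0,[(23,0)]⟩),⟨0,[(4,0)]⟩,.k,(.r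
  (-1) ⟨9,[(7,1),(8,3),(3,1),(11,0),(3,0),(5,1),(1,5)]⟩ ⟨2,[(5,0),(11,0),(9,0),(15,2)]⟩),⟨true,0,⟨0,
  [(42,0)]⟩,⟨0,[(43,0)]⟩⟩,⟨false,1,⟨1,[(20,0),(0,0),(23,0)]⟩,⟨0,[]⟩⟩,⟨false,0,⟨0,[]⟩,⟨1,[(20,0),(0,
  0),(23,0)]⟩⟩,⟨true,0,⟨0,[(43,0)]⟩,⟨0,[(42,0)]⟩⟩,[.o ⟨false,1,⟨5,[(1,1),(18,3),(11,0),(3,0),(10,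
  1)]⟩,⟨0,[(0,0)]⟩⟩,.o ⟨false,1,⟨1,[(1,1),(30,0),(3,0)]⟩,⟨1,[(0,0),(6,0),(32,0)]⟩⟩,.a ⟨true,0,⟨0,
  [(1,0)]⟩,⟨0,[(21,0)]⟩⟩ ⟨true,0,⟨0,[(42,0)]⟩,⟨0,[(43,0)]⟩⟩ ⟨false,1,⟨1,[(20,0),(0,0),(14,0)]⟩,⟨0,
  []⟩⟩,.e ⟨false,1,⟨7,[(7,1),(8,3),(3,1),(11,0),(11,4)]⟩,⟨0,[(37,0),(5,0)]⟩⟩ ⟨false,1,⟨1,[(36,0),(7,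
  0)]⟩,⟨2,[(5,0),(11,0),(9,0)]⟩⟩]⟩)))) (.S ⟨1,0,[-1,1],[1,0,0,0,-1],[-1],(⟨0,[(19,0)]⟩,⟨0,[(20,
  0)]⟩),⟨0,[(1,0)]⟩,.k,(.r (-1) ⟨9,[(4,1),(8,3),(3,1),(11,0),(3,0),(5,1),(1,5)]⟩ ⟨2,[(2,0),(11,0),
  (9,0),(15,2)]⟩),⟨false,1,⟨1,[(17,0),(0,0),(23,0)]⟩,⟨0,[]⟩⟩,⟨true,0,⟨0,[(44,0)]⟩,⟨0,[]⟩⟩,⟨true,0,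
  ⟨0,[(40,0)]⟩,⟨0,[(39,0)]⟩⟩,⟨false,0,⟨0,[(40,0)]⟩,⟨7,[(4,1),(8,3),(3,1),(11,0),(11,0),(0,3)]⟩⟩,[.o
  ⟨false,0,⟨0,[(0,0)]⟩,⟨1,[(4,1),(36,0),(0,0)]⟩⟩,.e ⟨false,1,⟨1,[(33,0),(7,0)]⟩,⟨0,[(44,0)]⟩⟩
  ⟨false,1,⟨11,[(17,4),(0,4),(14,0),(7,5),(2,1)]⟩,⟨0,[]⟩⟩,.a ⟨true,0,⟨1,[(0,1),(35,0),(5,0)]⟩,⟨0,
  [(18,0)]⟩⟩ ⟨false,1,⟨1,[(17,0),(0,0),(14,0)]⟩,⟨0,[]⟩⟩ ⟨true,0,⟨0,[(44,0)]⟩,⟨0,[]⟩⟩,.o ⟨false,0,⟨0,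
  [(0,0),(33,0)]⟩,⟨0,[(4,0),(36,0)]⟩⟩]⟩)) (.Q [-1,0,0,-1,0,0,0,0,-1,1,0,-1] (.p false [0,0,0,0,1]
  [1] (⟨0,[(19,0)]⟩,⟨0,[(18,0)]⟩) .k 1 (⟨0,[]⟩,⟨0,[]⟩) .k .k) (.I [3,1,1,0,-1] (.R ⟨0,false,false,
  true,[1,0,0,0,-1],[0,1],[1,1,1],(⟨0,[(20,0)]⟩,⟨0,[(21,0)]⟩),(⟨0,[(32,0)]⟩,⟨0,[(31,0)]⟩),⟨0,[(2,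
  0)]⟩,.k,.k,(.r (-1) ⟨9,[(5,1),(8,3),(3,1),(11,0),(3,0),(5,1),(1,5)]⟩ ⟨2,[(3,0),(11,0),(9,0),(15,
  2)]⟩),(.r (-1) ⟨9,[(5,1),(8,3),(3,1),(11,0),(3,0),(5,1),(1,5)]⟩ ⟨2,[(3,0),(11,0),(9,0),(15,2)]⟩),
  .k,.k,⟨false,1,⟨7,[(5,1),(8,3),(3,1),(11,0),(11,4)]⟩,⟨0,[(41,0)]⟩⟩,⟨true,1,⟨0,[(5,0),(36,0)]⟩,⟨0,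
  [(0,0),(0,0),(33,0),(5,0)]⟩⟩,⟨false,0,⟨2,[(3,0),(11,0),(9,0)]⟩,⟨1,[(34,0),(7,0)]⟩⟩,⟨true,0,⟨0,[(7,
  0),(11,0)]⟩,⟨0,[(1,0)]⟩⟩,⟨false,0,⟨0,[]⟩,⟨0,[]⟩⟩,⟨false,0,⟨0,[]⟩,⟨0,[]⟩⟩,[.o ⟨false,0,⟨0,[(7,0)]⟩,
  ⟨7,[(5,1),(8,3),(3,1),(11,0),(11,0),(0,3)]⟩⟩,.e ⟨false,0,⟨0,[]⟩,⟨1,[(18,0),(0,0),(22,0)]⟩⟩ ⟨false,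
  1,⟨0,[(5,0),(35,0),(0,0)]⟩,⟨0,[(1,0)]⟩⟩,.a ⟨true,0,⟨0,[(1,0),(39,0)]⟩,⟨0,[(19,0)]⟩⟩ ⟨false,0,⟨2,
  [(3,0),(11,0),(9,0)]⟩,⟨1,[(42,0),(0,0)]⟩⟩ ⟨true,0,⟨0,[(7,0),(11,0)]⟩,⟨0,[(1,0)]⟩⟩,.o ⟨false,0,⟨0,
  [(1,0),(5,0),(27,0)]⟩,⟨0,[(5,0),(36,0)]⟩⟩]⟩) (.S ⟨1,0,[1,1],[0,0,0,0,1],[],(⟨0,[(21,0)]⟩,⟨0,[(20,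
  0)]⟩),⟨0,[(2,0),(13,0),(0,0)]⟩,.k,(.r (-1) ⟨7,[(5,1),(8,3),(3,1),(11,0),(11,4)]⟩ ⟨2,[(3,0),(11,0),
  (9,0),(15,2)]⟩),⟨false,1,⟨14,[(0,2),(4,0),(9,0),(2,5),(0,4),(5,1),(17,5)]⟩,⟨0,[]⟩⟩,⟨true,0,⟨0,
  [(45,0)]⟩,⟨0,[]⟩⟩,⟨true,0,⟨1,[(0,0),(6,1),(29,0),(1,0)]⟩,⟨0,[(40,0)]⟩⟩,⟨false,0,⟨0,[(41,0)]⟩,⟨7,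
  [(0,1),(4,1),(8,3),(3,1),(11,0),(12,2)]⟩⟩,[.o ⟨false,0,⟨0,[(5,0),(30,0)]⟩,⟨1,[(1,1),(28,0),(10,1),
  (1,0)]⟩⟩,.a ⟨true,0,⟨0,[(19,0)]⟩,⟨0,[(1,0),(39,0)]⟩⟩ ⟨false,1,⟨0,[(0,0)]⟩,⟨0,[(45,0)]⟩⟩ ⟨true,0,
  ⟨0,[]⟩,⟨2,[(3,0),(11,0),(9,0)]⟩⟩,.e ⟨false,1,⟨1,[(18,0),(0,0),(23,0)]⟩,⟨0,[]⟩⟩ ⟨false,0,⟨0,[]⟩,⟨1,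
  [(18,0),(0,0),(23,0)]⟩⟩,.o ⟨false,0,⟨0,[(5,0)]⟩,⟨0,[(0,0),(0,0),(5,0)]⟩⟩]⟩)) (.Q [1,1,0,-1,-1,0,0,
  0,1,0,0,1] (.p true [0,0,0,0,1] [] (⟨0,[(20,0)]⟩,⟨0,[(19,0)]⟩) .k 0 (⟨0,[]⟩,⟨0,[]⟩) .k .k) (.R ⟨0,
  false,false,false,[1,0,0,0,-1],[1,-1],[],(⟨0,[(20,0)]⟩,⟨0,[(21,0)]⟩),(⟨0,[(31,0)]⟩,⟨0,[(32,0)]⟩),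
  ⟨0,[(2,0)]⟩,.k,.k,(.r (-1) ⟨9,[(5,1),(8,3),(3,1),(11,0),(3,0),(5,1),(1,5)]⟩ ⟨2,[(3,0),(11,0),(9,
  0),(15,2)]⟩),(.r 0 ⟨2,[(3,0),(11,0),(9,0),(15,2)]⟩ ⟨7,[(5,1),(8,3),(3,1),(11,0),(11,4)]⟩),.k,.k,
  ⟨false,0,⟨0,[(41,0)]⟩,⟨7,[(5,1),(8,3),(3,1),(11,0),(11,4)]⟩⟩,⟨true,(-1),⟨0,[(0,0),(34,0),(5,0)]⟩,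
  ⟨0,[(18,0)]⟩⟩,⟨true,0,⟨0,[]⟩,⟨0,[(45,0)]⟩⟩,⟨false,0,⟨0,[(0,0),(42,0)]⟩,⟨0,[(18,0),(22,0)]⟩⟩,
  ⟨false,0,⟨0,[]⟩,⟨0,[]⟩⟩,⟨false,0,⟨0,[]⟩,⟨0,[]⟩⟩,[.e ⟨false,1,⟨1,[(18,0),(0,0),(22,0)]⟩,⟨0,[]⟩⟩
  ⟨false,0,⟨1,[(0,1),(41,0),(0,0)]⟩,⟨0,[(18,0),(22,0)]⟩⟩,.o ⟨false,1,⟨7,[(5,1),(8,3),(3,1),(11,0),
  (11,0),(0,3)]⟩,⟨0,[(7,0)]⟩⟩,.o ⟨false,1,⟨0,[(18,0)]⟩,⟨2,[(0,1),(0,0),(28,0),(3,0),(6,0)]⟩⟩,.a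
  ⟨true,0,⟨0,[(4,0)]⟩,⟨13,[(0,7),(0,5),(32,3),(2,2),(3,1),(0,6)]⟩⟩ ⟨false,1,⟨1,[(42,0),(0,0)]⟩,⟨2,
  [(3,0),(11,0),(9,0)]⟩⟩ ⟨true,0,⟨1,[(0,1),(41,0),(0,0)]⟩,⟨0,[(4,0),(2,0)]⟩⟩]⟩) (.Q [1,0,0,0,0,0,0,
  0,1,-1,0,1] (.p true [0,0,0,0,1] [1] (⟨0,[(21,0)]⟩,⟨0,[(20,0)]⟩) .k 1 (⟨0,[]⟩,⟨0,[]⟩) .k .k) (.Q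
  [-1,-1,0,0,1,0,0,0,-1,0,0,-1] (.p false [0,0,0,0,1] [] (⟨0,[(22,0)]⟩,⟨0,[(21,0)]⟩) .k 0 (⟨0,[]⟩,
  ⟨0,[]⟩) .k .k) (.R ⟨1,false,false,true,[0,0,1],[0,0,0,0,1],[0,0,0,0,0,0,0,1],(⟨0,[(30,0)]⟩,⟨0,
  [(29,0)]⟩),(⟨0,[(23,0)]⟩,⟨0,[(22,0)]⟩),⟨0,[(19,0)]⟩,.k,.k,.k,.k,(.r 0 ⟨1,[(11,0),(0,0),(23,0)]⟩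
  ⟨0,[(2,0),(18,0),(4,0),(0,0)]⟩),.k,⟨true,0,⟨5,[(2,1),(0,1),(7,5),(27,0),(3,1),(1,4)]⟩,⟨0,[(26,0),
  (0,0)]⟩⟩,⟨false,0,⟨8,[(3,8),(4,3),(2,1),(0,1),(11,4),(11,1),(6,2)]⟩,⟨0,[(0,0),(26,0),(10,0)]⟩⟩,
  ⟨false,1,⟨1,[(20,0),(0,0),(23,0)]⟩,⟨0,[]⟩⟩,⟨false,0,⟨3,[(3,3),(4,1),(17,1),(12,0),(5,0)]⟩,⟨0,[(2,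
  0),(11,0)]⟩⟩,⟨true,0,⟨0,[(43,0)]⟩,⟨0,[(42,0)]⟩⟩,⟨false,0,⟨1,[(3,1),(22,1),(12,0),(5,0)]⟩,⟨0,[(0,
  0),(13,0)]⟩⟩,[.o ⟨false,0,⟨1,[(1,0),(5,0),(32,0)]⟩,⟨0,[(0,0)]⟩⟩,.o ⟨false,0,⟨0,[(1,0)]⟩,⟨2,[(0,0),
  (19,1),(26,0)]⟩⟩,.o ⟨false,1,⟨1,[(27,1),(4,0),(11,0)]⟩,⟨3,[(9,0),(1,0),(12,2),(1,0),(5,0),(4,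
  2)]⟩⟩,.a ⟨true,0,⟨0,[(27,0)]⟩,⟨0,[(24,0)]⟩⟩ ⟨true,0,⟨3,[(2,1),(0,1),(7,1),(0,1),(26,0),(5,0)]⟩,⟨0,
  [(26,0),(0,0)]⟩⟩ ⟨false,0,⟨0,[(1,0),(22,0)]⟩,⟨0,[(0,0),(26,0)]⟩⟩]⟩) (.R ⟨0,false,false,false,[1,0,
  0,0,-1],[0,1],[1,1,1],(⟨0,[(22,0)]⟩,⟨0,[(23,0)]⟩),(⟨0,[(34,0)]⟩,⟨0,[(33,0)]⟩),⟨0,[(4,0)]⟩,.k,.k,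
  (.r (-1) ⟨9,[(7,1),(8,3),(3,1),(11,0),(3,0),(5,1),(1,5)]⟩ ⟨2,[(5,0),(11,0),(9,0),(15,2)]⟩),(.r
  (-1) ⟨9,[(7,1),(8,3),(3,1),(11,0),(3,0),(5,1),(1,5)]⟩ ⟨2,[(5,0),(11,0),(9,0),(15,2)]⟩),.k,.k,
  ⟨true,0,⟨0,[(42,0)]⟩,⟨0,[(37,0),(5,0)]⟩⟩,⟨false,1,⟨0,[(1,0),(42,0)]⟩,⟨0,[(6,0)]⟩⟩,⟨false,0,⟨2,[(5,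
  0),(11,0),(9,0)]⟩,⟨1,[(36,0),(7,0)]⟩⟩,⟨true,0,⟨0,[(3,0)]⟩,⟨5,[(2,4),(3,0),(1,2),(1,0),(0,3),(15,
  3),(10,4),(0,0),(7,0)]⟩⟩,⟨false,0,⟨0,[]⟩,⟨0,[]⟩⟩,⟨false,0,⟨0,[]⟩,⟨0,[]⟩⟩,[.a ⟨true,0,⟨0,[(43,0)]⟩,
  ⟨7,[(6,1),(9,3),(4,1),(17,0),(4,0)]⟩⟩ ⟨false,0,⟨0,[(47,0)]⟩,⟨1,[(44,0),(0,0)]⟩⟩ ⟨true,0,⟨3,[(0,1),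
  (2,1),(28,0),(3,0),(6,1)]⟩,⟨1,[(2,0),(3,0),(1,0),(2,0),(15,0)]⟩⟩,.o ⟨false,1,⟨3,[(2,1),(0,1),(28,
  0),(12,0)]⟩,⟨0,[(42,0)]⟩⟩,.o ⟨false,1,⟨0,[(20,0)]⟩,⟨1,[(0,1),(31,0),(3,0)]⟩⟩,.e ⟨false,0,⟨0,[]⟩,
  ⟨1,[(20,0),(0,0),(23,0)]⟩⟩ ⟨false,1,⟨1,[(3,1),(40,0),(0,0)]⟩,⟨1,[(2,0),(3,0),(1,0),(2,0),(15,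
  0)]⟩⟩]⟩)) (.R ⟨2,true,false,true,[0,1],[1,0,0,0,-1],[1,1],(⟨0,[]⟩,⟨0,[]⟩),(⟨0,[(21,0)]⟩,⟨0,[(22,
  0)]⟩),⟨0,[]⟩,.k,.k,.k,(.r 0 ⟨2,[(4,0),(11,0),(9,0),(15,2)]⟩ ⟨9,[(6,1),(8,3),(3,1),(11,0),(3,0),(5,
  1),(1,5)]⟩),.k,.k,⟨true,0,⟨0,[]⟩,⟨0,[(45,0)]⟩⟩,⟨false,0,⟨0,[(0,0)]⟩,⟨0,[(6,0),(36,0)]⟩⟩,⟨false,1,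
  ⟨7,[(6,1),(8,3),(3,1),(11,0),(11,4)]⟩,⟨0,[(36,0),(5,0)]⟩⟩,⟨true,0,⟨0,[(0,0),(40,0)]⟩,⟨0,[(2,0)]⟩⟩,
  ⟨true,0,⟨0,[(37,0)]⟩,⟨2,[(4,0),(11,0),(9,0)]⟩⟩,⟨false,0,⟨0,[(0,0)]⟩,⟨1,[(6,1),(36,0),(0,0)]⟩⟩,
  []⟩))))))))))))) (.S ⟨1,0,[0,0,0,0,0,0,0,-1],[1,0,-1],[0,1,0,0,0,0,0,-1],(⟨0,[(16,0)]⟩,⟨0,[(17,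
  0)]⟩),⟨0,[(5,0)]⟩,.k,.k,⟨true,0,⟨0,[(34,0)]⟩,⟨0,[]⟩⟩,⟨false,1,⟨1,[(7,0),(0,0),(23,0)]⟩,⟨0,[]⟩⟩,
  ⟨false,0,⟨0,[(30,0)]⟩,⟨3,[(3,1),(3,0),(0,0),(10,0),(12,1)]⟩⟩,⟨true,0,⟨0,[(30,0)]⟩,⟨0,[(29,0)]⟩⟩,
  [.a ⟨true,0,⟨1,[(13,1),(12,0),(5,0)]⟩,⟨0,[(1,0),(28,0)]⟩⟩ ⟨false,0,⟨0,[(0,0),(24,0)]⟩,⟨0,[(2,0),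
  (29,0)]⟩⟩ ⟨true,0,⟨0,[(0,0)]⟩,⟨0,[(2,0),(21,0)]⟩⟩,.a ⟨true,0,⟨0,[(0,0),(10,0),(12,0)]⟩,⟨0,[(12,
  0)]⟩⟩ ⟨true,0,⟨0,[(0,0)]⟩,⟨0,[(2,0),(21,0)]⟩⟩ ⟨false,1,⟨1,[(0,1),(30,0),(0,0)]⟩,⟨0,[(2,0)]⟩⟩,.a
  ⟨true,0,⟨23,[(4,11),(2,4),(0,4),(14,0),(2,5),(7,1)]⟩,⟨0,[(0,0),(0,0),(28,0)]⟩⟩ ⟨false,0,⟨0,[(0,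
  0)]⟩,⟨0,[(2,0),(29,0)]⟩⟩ ⟨true,0,⟨0,[(0,0)]⟩,⟨0,[(2,0)]⟩⟩,.o ⟨false,0,⟨0,[(15,0)]⟩,⟨1,[(0,1),(0,
  1),(17,0),(10,1),(0,0)]⟩⟩]⟩))

theorem ok2 : chk K t2 l2 = true := by decide +kernel

noncomputable def t3 : Tre :=
  (.Q [0,0,0,0,0,0,1,0,0,0,1] (.p true [0,0,1] [] (⟨0,[(16,0)]⟩,⟨0,[(15,0)]⟩) .k 0 (⟨0,[]⟩,⟨0,[]⟩)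
  .k .k) (.I [0,0,0,0,0,0,0,-1] (.I [1,-1,-1,-1,1,0,0,1] (.S ⟨1,0,[0,1,1,1,0,0,0,-1],[1,1,-1],[1,0,
  1,0,0,0,0,-1],(⟨0,[(18,0),(4,0)]⟩,⟨0,[(8,0)]⟩),⟨0,[(18,0)]⟩,.k,.k,⟨false,1,⟨3,[(5,1),(3,0),(0,0),
  (10,0),(12,1)]⟩,⟨0,[(32,0)]⟩⟩,⟨true,0,⟨0,[(36,0)]⟩,⟨0,[]⟩⟩,⟨true,0,⟨0,[]⟩,⟨0,[(36,0)]⟩⟩,⟨false,0,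
  ⟨0,[(32,0)]⟩,⟨3,[(5,1),(3,0),(0,0),(10,0),(12,1)]⟩⟩,[.e ⟨false,0,⟨0,[(1,0)]⟩,⟨1,[(4,1),(28,0),(0,
  0)]⟩⟩ ⟨false,0,⟨1,[(1,0),(1,0),(12,0),(12,0),(2,0)]⟩,⟨0,[(0,0)]⟩⟩,.o ⟨false,0,⟨0,[(3,0)]⟩,⟨2,[(0,
  0),(1,0),(2,0),(8,1),(6,1),(4,0)]⟩⟩,.e ⟨false,0,⟨0,[(1,0),(24,0)]⟩,⟨1,[(4,1),(28,0),(0,0)]⟩⟩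
  ⟨false,0,⟨0,[(3,0),(12,0)]⟩,⟨0,[(0,0)]⟩⟩,.a ⟨true,0,⟨23,[(6,11),(2,4),(0,4),(14,0),(2,5),(7,1)]⟩,
  ⟨0,[(2,0)]⟩⟩ ⟨true,0,⟨0,[(1,0)]⟩,⟨0,[(4,0)]⟩⟩ ⟨false,0,⟨0,[(1,0),(30,0)]⟩,⟨1,[(0,1),(15,0),(0,
  0)]⟩⟩]⟩) (.I [1,1,1,0,-1,0,0,-1] (.S ⟨1,0,[0,1,0,0,0,0,0,1],[0,0,1],[0,0,0,0,0,0,0,1],(⟨0,[(20,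
  0)]⟩,⟨0,[(19,0)]⟩),⟨0,[(9,0)]⟩,.k,.k,⟨false,1,⟨1,[(10,0),(0,0),(23,0)]⟩,⟨0,[]⟩⟩,⟨true,0,⟨0,[(37,
  0)]⟩,⟨0,[]⟩⟩,⟨true,0,⟨0,[(33,0)]⟩,⟨0,[(32,0)]⟩⟩,⟨false,0,⟨0,[(33,0)]⟩,⟨3,[(6,1),(3,0),(0,0),(10,
  0),(12,1)]⟩⟩,[.a ⟨true,0,⟨0,[(15,0)]⟩,⟨0,[(2,0),(11,0),(12,0)]⟩⟩ ⟨false,1,⟨1,[(5,1),(28,0),(0,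
  0)]⟩,⟨0,[(2,0)]⟩⟩ ⟨true,0,⟨0,[(5,0)]⟩,⟨0,[(2,0),(24,0)]⟩⟩,.o ⟨false,1,⟨1,[(15,1),(6,0),(12,0)]⟩,
  ⟨1,[(0,0),(1,0),(11,1),(7,0),(4,0)]⟩⟩,.a ⟨true,0,⟨0,[(3,0)]⟩,⟨23,[(7,11),(2,4),(0,4),(14,0),(2,5),
  (7,1)]⟩⟩ ⟨false,1,⟨0,[(5,0),(29,0)]⟩,⟨0,[(2,0)]⟩⟩ ⟨true,0,⟨0,[(5,0)]⟩,⟨0,[(2,0)]⟩⟩,.a ⟨true,0,⟨0,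
  [(17,0)]⟩,⟨0,[(14,0)]⟩⟩ ⟨true,1,⟨1,[(5,1),(28,0),(0,0)]⟩,⟨0,[(0,0)]⟩⟩ ⟨false,1,⟨1,[(5,1),(28,0),
  (0,0)]⟩,⟨0,[(2,0),(24,0)]⟩⟩]⟩) (.Q [0,-1,0,-1,0,0,-1,-1,0,1,-1] (.p false [0,0,1] [1] (⟨0,[(20,
  0)]⟩,⟨0,[(19,0)]⟩) .k 1 (⟨0,[]⟩,⟨0,[]⟩) .k .k) (.S ⟨1,0,[0,1,0,0,0,0,0,1],[0,0,1],[1,0,0,-1,0,0,0,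
  1],(⟨0,[(21,0)]⟩,⟨0,[(20,0)]⟩),⟨0,[(10,0)]⟩,.k,.k,⟨false,1,⟨3,[(7,1),(3,0),(0,0),(10,0),(12,1)]⟩,
  ⟨0,[(34,0)]⟩⟩,⟨true,0,⟨0,[(38,0)]⟩,⟨0,[]⟩⟩,⟨true,0,⟨0,[]⟩,⟨0,[(38,0)]⟩⟩,⟨false,0,⟨0,[(34,0)]⟩,⟨3,
  [(7,1),(3,0),(0,0),(10,0),(12,1)]⟩⟩,[.a ⟨true,0,⟨0,[(16,0)]⟩,⟨3,[(0,1),(4,1),(24,0),(5,0)]⟩⟩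
  ⟨false,1,⟨0,[(1,0),(31,0)]⟩,⟨0,[(3,0),(30,0)]⟩⟩ ⟨true,0,⟨0,[(6,0)]⟩,⟨0,[(3,0),(24,0)]⟩⟩,.o ⟨false,
  1,⟨1,[(1,0),(14,0),(1,0),(4,0)]⟩,⟨1,[(0,0),(1,0),(12,0),(7,0)]⟩⟩,.a ⟨true,0,⟨0,[(4,0)]⟩,⟨23,[(8,
  11),(2,4),(0,4),(14,0),(2,5),(7,1)]⟩⟩ ⟨false,1,⟨7,[(1,5),(4,1),(0,3),(10,0),(0,0),(3,1),(4,3)]⟩,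
  ⟨0,[(3,0),(30,0)]⟩⟩ ⟨true,0,⟨0,[(6,0)]⟩,⟨0,[(3,0)]⟩⟩,.a ⟨true,0,⟨0,[(18,0)]⟩,⟨0,[(15,0)]⟩⟩ ⟨true,
  1,⟨0,[(1,0),(31,0)]⟩,⟨0,[(2,0)]⟩⟩ ⟨false,1,⟨3,[(1,2),(4,0),(4,0),(0,0),(18,0)]⟩,⟨0,[(3,0),(24,
  0)]⟩⟩]⟩) (.R ⟨2,true,false,false,[0,1],[1,0,-1],[1,0,1],(⟨0,[]⟩,⟨0,[]⟩),(⟨0,[(20,0)]⟩,⟨0,[(21,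
  0)]⟩),⟨0,[]⟩,.k,.k,.k,.k,.k,.k,⟨true,0,⟨0,[(6,0),(21,0)]⟩,⟨0,[(3,0)]⟩⟩,⟨false,0,⟨23,[(8,11),(2,4),
  (0,4),(14,0),(2,5),(7,1)]⟩,⟨1,[(4,1),(18,0),(11,0)]⟩⟩,⟨false,1,⟨3,[(7,1),(3,0),(0,0),(10,0),(12,
  1)]⟩,⟨0,[(34,0)]⟩⟩,⟨true,0,⟨1,[(3,1),(3,0),(0,0)]⟩,⟨0,[(0,0)]⟩⟩,⟨true,0,⟨0,[]⟩,⟨0,[(38,0)]⟩⟩,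
  ⟨false,0,⟨0,[(3,0),(11,0),(12,0)]⟩,⟨1,[(1,0),(14,0),(1,0),(4,0)]⟩⟩,[]⟩)))) (.R ⟨2,true,false,true,
  [0,1],[0,0,1],[0,0,1,1],(⟨0,[]⟩,⟨0,[]⟩),(⟨0,[(18,0)]⟩,⟨0,[(17,0)]⟩),⟨0,[]⟩,.k,.k,.k,.k,.k,.k,
  ⟨true,0,⟨0,[(1,0),(0,0),(22,0)]⟩,⟨0,[(0,0),(29,0)]⟩⟩,⟨false,0,⟨0,[(1,0)]⟩,⟨3,[(5,1),(2,0),(0,0),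
  (10,0),(11,1)]⟩⟩,⟨false,1,⟨1,[(8,0),(0,0),(23,0)]⟩,⟨0,[]⟩⟩,⟨true,0,⟨0,[(0,0),(0,0),(28,0)]⟩,⟨0,
  [(2,0)]⟩⟩,⟨true,0,⟨0,[(31,0)]⟩,⟨0,[(30,0)]⟩⟩,⟨false,0,⟨0,[(0,0),(0,0)]⟩,⟨0,[(14,0),(18,0)]⟩⟩,
  []⟩)) (.Q [0,0,0,0,0,0,-1,-1,0,0,-1] (.p false [0,0,1] [] (⟨0,[(17,0)]⟩,⟨0,[(16,0)]⟩) .k 0 (⟨0,
  []⟩,⟨0,[]⟩) .k .k) (.Q [0,-1,0,1,0,0,-1,-1,0,0,-1] (.p false [0,0,1] [] (⟨0,[(18,0)]⟩,⟨0,[(17,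
  0)]⟩) .k 0 (⟨0,[]⟩,⟨0,[]⟩) .k .k) (.I [1,0,0,-1,0,0,0,-1] (.R ⟨2,true,false,true,[0,1],[0,0,1],[1,
  1,1],(⟨0,[]⟩,⟨0,[]⟩),(⟨0,[(20,0)]⟩,⟨0,[(19,0)]⟩),⟨0,[]⟩,.k,.k,.k,.k,.k,.k,⟨false,0,⟨1,[(0,0),(0,
  0),(15,0),(10,0)]⟩,⟨1,[(5,1),(28,0),(0,0)]⟩⟩,⟨true,0,⟨0,[(17,0)]⟩,⟨0,[(3,0)]⟩⟩,⟨true,0,⟨0,[(32,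
  0)]⟩,⟨0,[(33,0)]⟩⟩,⟨false,1,⟨3,[(6,1),(3,0),(0,0),(3,3),(6,0),(12,1)]⟩,⟨0,[(1,0)]⟩⟩,⟨false,0,⟨0,
  []⟩,⟨1,[(10,0),(0,0),(23,0)]⟩⟩,⟨true,0,⟨0,[(15,0)]⟩,⟨0,[(2,0)]⟩⟩,[]⟩) (.R ⟨2,true,false,true,[0,
  1],[0,0,1],[0,1,1,1],(⟨0,[]⟩,⟨0,[]⟩),(⟨0,[(20,0)]⟩,⟨0,[(19,0)]⟩),⟨0,[]⟩,.k,.k,.k,.k,.k,.k,⟨false,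
  0,⟨0,[(1,0),(15,0),(10,0)]⟩,⟨1,[(0,1),(5,1),(15,0),(11,0)]⟩⟩,⟨true,0,⟨0,[(17,0)]⟩,⟨0,[(3,0)]⟩⟩,
  ⟨true,0,⟨0,[(37,0)]⟩,⟨0,[]⟩⟩,⟨false,1,⟨3,[(6,1),(3,0),(0,0),(3,3),(6,0),(12,1)]⟩,⟨0,[(1,0)]⟩⟩,
  ⟨false,0,⟨0,[(33,0)]⟩,⟨3,[(6,1),(3,0),(0,0),(10,0),(12,1)]⟩⟩,⟨true,0,⟨0,[(15,0)]⟩,⟨0,[(2,0)]⟩⟩,
  []⟩)) (.I [1,-1,1,0,0,0,0,1] (.Q [0,0,0,1,0,0,1,1,0,0,1] (.p true [0,0,1] [] (⟨0,[(20,0)]⟩,⟨0,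
  [(19,0)]⟩) .k 0 (⟨0,[]⟩,⟨0,[]⟩) .k .k) (.R ⟨2,true,false,false,[0,1],[0,1,1],[0,1,1,1],(⟨0,[]⟩,⟨0,
  []⟩),(⟨0,[(21,0),(3,0)]⟩,⟨0,[(9,0)]⟩),⟨0,[]⟩,.k,.k,.k,.k,.k,.k,⟨true,0,⟨0,[(3,0),(14,0),(10,0)]⟩,
  ⟨0,[(1,0)]⟩⟩,⟨false,1,⟨0,[(18,0),(16,0)]⟩,⟨0,[(4,0)]⟩⟩,⟨true,0,⟨0,[(38,0)]⟩,⟨0,[]⟩⟩,⟨false,1,⟨0,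
  [(16,0),(19,0)]⟩,⟨0,[(3,0)]⟩⟩,⟨false,0,⟨0,[(34,0)]⟩,⟨3,[(7,1),(3,0),(0,0),(10,0),(12,1)]⟩⟩,⟨true,
  0,⟨0,[(0,0)]⟩,⟨0,[(3,0),(29,0)]⟩⟩,[]⟩) (.I [1,1,-1,-1,0,0,0,1] (.Q [0,-1,0,0,1,0,1,1,0,-1,1] (.p
  true [0,0,1] [1] (⟨0,[(22,0)]⟩,⟨0,[(21,0)]⟩) .k 1 (⟨0,[]⟩,⟨0,[]⟩) .k .k) (.S ⟨1,0,[0,0,0,0,0,0,0,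
  1],[0,0,1],[1,1,0,-1,0,0,0,1],(⟨0,[(23,0)]⟩,⟨0,[(22,0)]⟩),⟨0,[(12,0)]⟩,.k,.k,⟨true,0,⟨0,[(35,0)]⟩,
  ⟨0,[(36,0)]⟩⟩,⟨false,1,⟨1,[(13,0),(0,0),(23,0)]⟩,⟨0,[]⟩⟩,⟨false,0,⟨0,[]⟩,⟨1,[(13,0),(0,0),(23,
  0)]⟩⟩,⟨true,0,⟨0,[(36,0)]⟩,⟨0,[(35,0)]⟩⟩,[.o ⟨false,1,⟨3,[(0,1),(12,0),(0,0),(3,1),(6,0)]⟩,⟨0,[(5,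
  0)]⟩⟩,.o ⟨false,1,⟨0,[(0,0)]⟩,⟨0,[(19,0)]⟩⟩,.o ⟨false,1,⟨1,[(20,1),(4,0),(11,0)]⟩,⟨0,[(6,0)]⟩⟩,.a
  ⟨true,0,⟨0,[(20,0)]⟩,⟨0,[(17,0)]⟩⟩ ⟨true,0,⟨0,[(1,0)]⟩,⟨0,[(7,0),(12,0)]⟩⟩ ⟨false,1,⟨0,[(0,0),(16,
  0)]⟩,⟨0,[(5,0),(14,0)]⟩⟩]⟩) (.Q [0,-1,0,1,1,0,1,1,0,-1,1] (.p true [0,0,1] [1] (⟨0,[(23,0)]⟩,⟨0,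
  [(22,0)]⟩) .k 1 (⟨0,[]⟩,⟨0,[]⟩) .k .k) (.R ⟨2,true,false,true,[0,1],[1,0,-1],[1,1,1],(⟨0,[]⟩,⟨0,
  []⟩),(⟨0,[(23,0)]⟩,⟨0,[(24,0)]⟩),⟨0,[]⟩,.k,.k,.k,.k,.k,.k,⟨false,0,⟨1,[(2,0),(1,0),(32,0)]⟩,⟨0,
  [(6,0),(14,0),(16,0)]⟩⟩,⟨true,(-1),⟨0,[(1,0),(2,0)]⟩,⟨1,[(21,1),(4,0),(11,0)]⟩⟩,⟨true,0,⟨0,[(36,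
  0)]⟩,⟨0,[(37,0)]⟩⟩,⟨false,0,⟨1,[(1,0),(8,0),(9,0),(18,0)]⟩,⟨0,[(0,0)]⟩⟩,⟨false,0,⟨0,[]⟩,⟨1,[(14,
  0),(0,0),(23,0)]⟩⟩,⟨true,(-1),⟨0,[(1,0)]⟩,⟨3,[(0,1),(4,1),(8,0),(0,0),(10,0)]⟩⟩,[]⟩) (.I [1,1,1,0,
  -1,0,0,1] (.Q [0,-1,0,2,1,0,1,1,0,-1,1] (.p true [0,0,1] [1] (⟨0,[(25,0)]⟩,⟨0,[(24,0)]⟩) .k 1 (⟨0,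
  []⟩,⟨0,[]⟩) .k .k) (.R ⟨1,true,false,false,[1,0,-1],[0,1],[0,0,0,0,0,0,0,-1],(⟨0,[(25,0)]⟩,⟨0,
  [(26,0)]⟩),(⟨0,[(30,0)]⟩,⟨0,[(29,0)]⟩),⟨0,[(14,0)]⟩,.k,.k,.k,.k,(.r (-2) ⟨5,[(5,3),(6,3),(9,1),(0,
  5),(4,1),(11,8),(0,0)]⟩ ⟨0,[(0,0),(0,0),(1,0),(29,0)]⟩),.k,⟨true,1,⟨0,[(5,0),(17,0),(16,0)]⟩,⟨1,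
  [(0,0),(0,1),(1,0),(29,1)]⟩⟩,⟨false,2,⟨1,[(23,1),(4,0),(11,2)]⟩,⟨0,[(3,0),(2,0)]⟩⟩,⟨false,1,⟨1,
  [(16,0),(0,0),(23,0)]⟩,⟨0,[]⟩⟩,⟨true,1,⟨3,[(0,1),(15,0),(0,0),(3,1),(6,0)]⟩,⟨0,[(2,0)]⟩⟩,⟨true,0,
  ⟨0,[(39,0)]⟩,⟨0,[(38,0)]⟩⟩,⟨false,1,⟨0,[(0,0)]⟩,⟨0,[(8,0),(3,0)]⟩⟩,[]⟩) (.I [2,1,1,1,-1] (.Q [-1,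
  0,0,0,1,0,0,0,-1,0,0,-1] (.p false [0,0,0,0,1] [] (⟨0,[(20,0)]⟩,⟨0,[(19,0)]⟩) .k 0 (⟨0,[]⟩,⟨0,
  []⟩) .k .k) (.Q [-1,0,0,0,0,0,0,0,-1,1,0,-1] (.p false [0,0,0,0,1] [1] (⟨0,[(21,0)]⟩,⟨0,[(20,
  0)]⟩) .k 1 (⟨0,[]⟩,⟨0,[]⟩) .k .k) (.Q [0,0,0,0,0,-1,0,0,0,1,0,-1] (.ed true [0,1,0,0,1] .k) (.Q
  [-1,1,0,0,0,0,0,0,-1,0,0,-1] (.p false [0,0,0,0,1] [] (⟨0,[(23,0)]⟩,⟨0,[(22,0)]⟩) .k 0 (⟨0,[]⟩,⟨0,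
  []⟩) .k .k) (.S ⟨1,0,[-1,1],[1,0,0,0,-1],[1,1,1],(⟨0,[(23,0)]⟩,⟨0,[(24,0)]⟩),⟨0,[(1,0)]⟩,.k,(.r
  (-1) ⟨13,[(3,2),(13,5),(4,2),(10,2),(3,0),(5,1),(1,6)]⟩ ⟨1,[(28,0),(0,0),(14,1)]⟩),⟨false,0,⟨1,
  [(28,0),(0,0)]⟩,⟨1,[(37,0),(7,0)]⟩⟩,⟨true,0,⟨0,[(48,0)]⟩,⟨0,[]⟩⟩,⟨true,(-1),⟨0,[(4,0)]⟩,⟨13,[(3,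
  2),(13,5),(4,2),(10,2),(3,0),(5,1),(1,6)]⟩⟩,⟨false,0,⟨0,[(44,0)]⟩,⟨3,[(3,0),(13,1),(4,0),(10,0),
  (12,1)]⟩⟩,[.o ⟨false,0,⟨0,[(0,0)]⟩,⟨1,[(22,1),(10,0),(12,0)]⟩⟩,.e ⟨false,0,⟨0,[]⟩,⟨1,[(3,0),(18,
  0),(22,0)]⟩⟩ ⟨false,1,⟨1,[(3,0),(18,0),(22,0)]⟩,⟨0,[]⟩⟩,.a ⟨true,0,⟨0,[(2,0)]⟩,⟨0,[(22,0)]⟩⟩
  ⟨false,0,⟨1,[(28,0),(0,0)]⟩,⟨1,[(45,0),(0,0)]⟩⟩ ⟨true,0,⟨0,[(48,0)]⟩,⟨0,[]⟩⟩,.o ⟨false,0,⟨0,[(0,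
  0),(37,0)]⟩,⟨1,[(22,1),(10,0),(11,0)]⟩⟩]⟩) (.R ⟨2,true,false,false,[0,1],[0,0,0,0,1],[1,1],(⟨0,
  []⟩,⟨0,[]⟩),(⟨0,[(24,0)]⟩,⟨0,[(23,0)]⟩),⟨0,[]⟩,.k,.k,.k,(.r 0 ⟨1,[(28,0),(0,0),(14,1)]⟩ ⟨3,[(3,0),
  (13,1),(4,0),(10,0),(11,1)]⟩),.k,.k,⟨true,0,⟨0,[(48,0)]⟩,⟨0,[(42,0)]⟩⟩,⟨false,0,⟨0,[(22,0)]⟩,⟨1,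
  [(2,1),(30,0),(11,0)]⟩⟩,⟨false,1,⟨3,[(3,0),(13,1),(4,0),(10,0),(11,1)]⟩,⟨0,[(38,0),(5,0)]⟩⟩,⟨true,
  0,⟨4,[(0,1),(4,0),(6,0),(4,0),(4,2),(10,0)]⟩,⟨1,[(2,1),(1,0),(28,0),(5,0),(4,0)]⟩⟩,⟨true,0,⟨0,
  [(39,0)]⟩,⟨1,[(28,0),(0,0)]⟩⟩,⟨false,0,⟨0,[(0,0)]⟩,⟨0,[(3,0)]⟩⟩,[]⟩)) (.Q [-1,0,0,-1,0,0,0,0,-1,1,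
  0,-1] (.p false [0,0,0,0,1] [1] (⟨0,[(23,0)]⟩,⟨0,[(22,0)]⟩) .k 1 (⟨0,[]⟩,⟨0,[]⟩) .k .k) (.R ⟨0,
  false,false,true,[1,0,0,0,-1],[0,1],[-1],(⟨0,[(23,0)]⟩,⟨0,[(24,0)]⟩),(⟨0,[(35,0)]⟩,⟨0,[(34,0)]⟩),
  ⟨0,[(1,0)]⟩,.k,.k,(.r (-1) ⟨13,[(3,2),(13,5),(4,2),(10,2),(3,0),(5,1),(1,6)]⟩ ⟨1,[(28,0),(0,0),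
  (14,1)]⟩),(.r (-1) ⟨13,[(3,2),(13,5),(4,2),(10,2),(3,0),(5,1),(1,6)]⟩ ⟨1,[(28,0),(0,0),(14,1)]⟩),
  .k,.k,⟨false,2,⟨3,[(3,0),(13,1),(4,0),(10,0),(11,3),(0,1)]⟩,⟨0,[(4,0)]⟩⟩,⟨true,1,⟨1,[(22,1),(10,
  0),(11,0)]⟩,⟨0,[(0,0),(3,0),(33,0)]⟩⟩,⟨false,1,⟨1,[(3,0),(18,0),(23,0)]⟩,⟨0,[]⟩⟩,⟨true,0,⟨1,[(4,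
  0),(17,1),(10,0),(5,0),(4,0)]⟩,⟨0,[(0,0)]⟩⟩,⟨false,0,⟨0,[]⟩,⟨0,[]⟩⟩,⟨false,0,⟨0,[]⟩,⟨0,[]⟩⟩,[.o
  ⟨false,0,⟨1,[(4,0),(28,0),(5,0),(4,0)]⟩,⟨3,[(3,0),(13,1),(4,0),(10,0),(12,1)]⟩⟩,.e ⟨false,1,⟨1,
  [(37,0),(7,0)]⟩,⟨0,[(48,0)]⟩⟩ ⟨false,1,⟨1,[(22,1),(10,0),(10,1),(0,0)]⟩,⟨0,[(0,0)]⟩⟩,.a ⟨true,0,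
  ⟨0,[(2,0)]⟩,⟨0,[(22,0)]⟩⟩ ⟨false,1,⟨1,[(3,0),(18,0),(23,0)]⟩,⟨0,[]⟩⟩ ⟨true,0,⟨1,[(4,0),(17,1),(10,
  0),(5,0),(4,0)]⟩,⟨0,[(0,0)]⟩⟩,.o ⟨false,0,⟨1,[(0,0),(1,0),(1,0),(28,0),(4,0)]⟩,⟨1,[(22,1),(10,0),
  (11,0)]⟩⟩]⟩) (.R ⟨2,true,false,true,[0,1],[1,0,0,0,-1],[1,1],(⟨0,[]⟩,⟨0,[]⟩),(⟨0,[(23,0)]⟩,⟨0,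
  [(24,0)]⟩),⟨0,[]⟩,.k,.k,.k,(.r 0 ⟨1,[(28,0),(0,0),(14,1)]⟩ ⟨13,[(3,2),(13,5),(4,2),(10,2),(3,0),
  (5,1),(1,6)]⟩),.k,.k,⟨true,0,⟨0,[]⟩,⟨0,[(47,0)]⟩⟩,⟨false,0,⟨0,[(2,0)]⟩,⟨1,[(22,1),(10,0),(11,
  0)]⟩⟩,⟨false,1,⟨3,[(3,0),(13,1),(4,0),(10,0),(11,1)]⟩,⟨0,[(38,0),(5,0)]⟩⟩,⟨true,0,⟨0,[(2,0),(40,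
  0)]⟩,⟨0,[(0,0)]⟩⟩,⟨true,0,⟨0,[(39,0)]⟩,⟨1,[(28,0),(0,0)]⟩⟩,⟨false,0,⟨0,[(2,0)]⟩,⟨1,[(22,1),(10,0),
  (12,0)]⟩⟩,[]⟩))) (.Q [-1,1,0,0,0,0,0,0,-1,1,0,-1] (.p false [0,0,0,0,1] [1] (⟨0,[(22,0)]⟩,⟨0,[(21,
  0)]⟩) .k 1 (⟨0,[]⟩,⟨0,[]⟩) .k .k) (.Q [1,1,0,0,-1,0,0,0,1,0,0,1] (.p true [0,0,0,0,1] [] (⟨0,[(23,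
  0)]⟩,⟨0,[(22,0)]⟩) .k 0 (⟨0,[]⟩,⟨0,[]⟩) .k .k) (.Q [0,0,0,0,0,-1,0,0,0,1,0,-1] (.ed true [0,1,0,0,
  1] .k) (.S ⟨1,0,[-1,1],[1,0,0,0,-1],[-1],(⟨0,[(24,0)]⟩,⟨0,[(25,0)]⟩),⟨0,[(0,0)]⟩,.k,(.r (-1) ⟨13,
  [(4,2),(13,5),(4,2),(10,2),(3,0),(5,1),(1,6)]⟩ ⟨1,[(29,0),(0,0),(14,1)]⟩),⟨false,1,⟨1,[(4,0),(18,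
  0),(23,0)]⟩,⟨0,[]⟩⟩,⟨true,0,⟨0,[(49,0)]⟩,⟨0,[]⟩⟩,⟨true,0,⟨0,[(45,0)]⟩,⟨0,[(44,0)]⟩⟩,⟨false,0,⟨0,
  [(45,0)]⟩,⟨3,[(4,0),(13,1),(4,0),(10,0),(12,1)]⟩⟩,[.a ⟨true,0,⟨0,[(2,0)]⟩,⟨0,[(1,0),(45,0)]⟩⟩
  ⟨false,1,⟨1,[(4,0),(18,0),(22,0)]⟩,⟨0,[]⟩⟩ ⟨true,0,⟨0,[(49,0)]⟩,⟨0,[(39,0)]⟩⟩,.o ⟨false,1,⟨0,[(4,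
  0)]⟩,⟨0,[(3,0)]⟩⟩,.o ⟨false,1,⟨0,[(22,0)]⟩,⟨1,[(1,1),(32,0),(3,0)]⟩⟩,.e ⟨false,1,⟨1,[(38,0),(7,
  0)]⟩,⟨1,[(29,0),(0,0)]⟩⟩ ⟨false,1,⟨1,[(4,0),(18,0),(22,0)]⟩,⟨0,[(39,0)]⟩⟩]⟩) (.Q [0,1,-1,-1,0,0,
  -1,-1,-1,1,-1,-1] (.p false [0,0,1] [1,0,0,0,-1] (⟨0,[(32,0)]⟩,⟨0,[(31,0)]⟩) .k 2 (⟨0,[(24,0)]⟩,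
  ⟨0,[(25,0)]⟩) .k (.r 0 ⟨1,[(10,0),(1,0),(32,0)]⟩ ⟨1,[(28,1),(0,1),(16,0),(0,0)]⟩)) (.R ⟨0,false,
  false,false,[1,0,0,0,-1],[0,1],[-1],(⟨0,[(25,0)]⟩,⟨0,[(26,0)]⟩),(⟨0,[(37,0)]⟩,⟨0,[(36,0)]⟩),⟨0,
  [(1,0)]⟩,.k,.k,(.r (-1) ⟨13,[(5,2),(13,5),(4,2),(10,2),(3,0),(5,1),(1,6)]⟩ ⟨1,[(30,0),(0,0),(14,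
  1)]⟩),(.r (-1) ⟨13,[(5,2),(13,5),(4,2),(10,2),(3,0),(5,1),(1,6)]⟩ ⟨1,[(30,0),(0,0),(14,1)]⟩),.k,
  .k,⟨true,1,⟨13,[(5,2),(13,5),(4,2),(10,2),(3,0),(5,1),(1,6)]⟩,⟨0,[(6,0),(33,0)]⟩⟩,⟨false,1,⟨0,[(4,
  0),(42,0)]⟩,⟨0,[(3,0),(36,0)]⟩⟩,⟨false,1,⟨1,[(5,0),(18,0),(23,0)]⟩,⟨0,[]⟩⟩,⟨true,0,⟨0,[(4,0),(41,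
  0)]⟩,⟨2,[(0,1),(2,0),(4,0),(5,0),(15,0),(8,0)]⟩⟩,⟨false,0,⟨0,[]⟩,⟨0,[]⟩⟩,⟨false,0,⟨0,[]⟩,⟨0,[]⟩⟩,
  [.a ⟨true,0,⟨0,[(46,0)]⟩,⟨7,[(3,1),(15,3),(4,1),(17,0),(5,0)]⟩⟩ ⟨false,1,⟨1,[(5,0),(18,0),(22,
  0)]⟩,⟨0,[]⟩⟩ ⟨true,0,⟨0,[(4,0),(41,0)]⟩,⟨0,[(0,0),(12,0),(16,0)]⟩⟩,.o ⟨false,1,⟨1,[(35,0),(10,1),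
  (1,0)]⟩,⟨0,[(45,0)]⟩⟩,.o ⟨false,1,⟨0,[(23,0)]⟩,⟨1,[(2,1),(32,0),(3,0)]⟩⟩,.e ⟨false,1,⟨1,[(39,0),
  (7,0)]⟩,⟨1,[(30,0),(0,0)]⟩⟩ ⟨false,1,⟨1,[(4,1),(41,1),(0,0),(0,0)]⟩,⟨0,[(0,0),(12,0),(16,0)]⟩⟩]⟩)
  (.R ⟨0,false,false,false,[1,0,0,0,-1],[1,-1],[],(⟨0,[(25,0)]⟩,⟨0,[(26,0)]⟩),(⟨0,[(36,0)]⟩,⟨0,[(37,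
  0)]⟩),⟨0,[(1,0)]⟩,.k,.k,(.r (-1) ⟨13,[(5,2),(13,5),(4,2),(10,2),(3,0),(5,1),(1,6)]⟩ ⟨3,[(0,0),(4,
  0),(0,0),(10,0),(2,0),(9,1),(15,0)]⟩),(.r 0 ⟨10,[(0,1),(4,1),(0,1),(10,1),(2,1),(9,3),(15,4),(2,
  2)]⟩ ⟨3,[(5,0),(13,1),(4,0),(10,0),(11,1)]⟩),.k,.k,⟨false,0,⟨0,[(46,0)]⟩,⟨3,[(5,0),(13,1),(4,0),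
  (10,0),(11,1)]⟩⟩,⟨true,(-1),⟨1,[(0,1),(6,0),(2,0)]⟩,⟨0,[(23,0)]⟩⟩,⟨true,0,⟨0,[]⟩,⟨0,[(50,0)]⟩⟩,
  ⟨false,0,⟨1,[(0,1),(6,1),(39,0),(0,0)]⟩,⟨0,[(5,0),(40,0)]⟩⟩,⟨false,0,⟨0,[]⟩,⟨0,[]⟩⟩,⟨false,0,⟨0,
  []⟩,⟨0,[]⟩⟩,[.e ⟨false,1,⟨1,[(5,0),(18,0),(22,0)]⟩,⟨0,[]⟩⟩ ⟨false,0,⟨0,[(0,0),(6,0),(39,0)]⟩,⟨0,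
  [(5,0),(40,0)]⟩⟩,.o ⟨false,1,⟨3,[(5,0),(13,1),(4,0),(10,0),(12,1)]⟩,⟨1,[(6,0),(28,0),(5,0),(4,
  0)]⟩⟩,.o ⟨false,1,⟨0,[(23,0)]⟩,⟨1,[(2,1),(32,0),(3,0)]⟩⟩,.a ⟨true,0,⟨0,[(3,0),(36,0)]⟩,⟨1,[(2,1),
  (44,0),(0,0)]⟩⟩ ⟨false,1,⟨1,[(47,0),(0,0)]⟩,⟨1,[(30,0),(0,0)]⟩⟩ ⟨true,0,⟨0,[(0,0),(6,0),(39,0)]⟩,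
  ⟨0,[(5,0),(0,0)]⟩⟩]⟩))) (.R ⟨1,false,false,true,[0,0,1],[0,0,0,0,1],[0,1,0,0,0,0,0,1],(⟨0,[(31,
  0)]⟩,⟨0,[(30,0)]⟩),(⟨0,[(24,0)]⟩,⟨0,[(23,0)]⟩),⟨0,[(20,0)]⟩,.k,.k,.k,.k,(.r (-1) ⟨5,[(9,1),(6,3),
  (0,1),(15,0),(11,1),(0,2)]⟩ ⟨0,[(15,0),(12,0)]⟩),.k,⟨true,0,⟨0,[(6,0),(30,0),(1,0)]⟩,⟨0,[(13,0),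
  (14,0)]⟩⟩,⟨false,0,⟨2,[(2,2),(5,0),(0,0),(15,1),(11,0),(6,0)]⟩,⟨0,[(0,0),(27,0),(10,0)]⟩⟩,⟨true,0,
  ⟨0,[(48,0)]⟩,⟨0,[]⟩⟩,⟨true,(-1),⟨0,[(2,0),(5,0)]⟩,⟨0,[(0,0),(25,0)]⟩⟩,⟨false,0,⟨0,[(44,0)]⟩,⟨3,
  [(3,0),(13,1),(4,0),(10,0),(12,1)]⟩⟩,⟨true,(-1),⟨0,[(2,0),(5,0),(35,0)]⟩,⟨0,[(0,0),(11,0)]⟩⟩,[.o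
  ⟨false,0,⟨0,[(2,0),(45,0)]⟩,⟨0,[(0,0)]⟩⟩,.o ⟨false,0,⟨0,[(2,0)]⟩,⟨0,[(3,0)]⟩⟩,.o ⟨false,1,⟨1,[(28,
  1),(4,0),(11,0)]⟩,⟨0,[(14,0)]⟩⟩,.a ⟨true,0,⟨0,[(28,0)]⟩,⟨0,[(25,0)]⟩⟩ ⟨true,0,⟨0,[(9,0),(34,0)]⟩,
  ⟨0,[(13,0),(14,0)]⟩⟩ ⟨false,0,⟨0,[(2,0),(22,0)]⟩,⟨0,[(0,0),(27,0)]⟩⟩]⟩)) (.R ⟨1,false,false,false,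
  [0,0,1],[0,0,0,0,1],[0,1,0,0,0,0,0,1],(⟨0,[(30,0)]⟩,⟨0,[(29,0)]⟩),(⟨0,[(23,0)]⟩,⟨0,[(22,0)]⟩),⟨0,
  [(19,0)]⟩,.k,.k,.k,.k,(.r (-1) ⟨5,[(8,1),(6,3),(0,1),(15,0),(11,1),(0,2)]⟩ ⟨0,[(14,0),(12,0)]⟩),
  .k,⟨false,0,⟨0,[(5,0),(30,0),(1,1)]⟩,⟨1,[(12,1),(14,1),(16,0),(0,0)]⟩⟩,⟨true,(-1),⟨5,[(0,5),(4,2),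
  (1,4),(0,1),(15,0),(11,1),(6,1)]⟩,⟨0,[(2,0),(24,0)]⟩⟩,⟨true,0,⟨0,[(47,0)]⟩,⟨0,[]⟩⟩,⟨true,(-1),⟨0,
  [(0,0),(6,0)]⟩,⟨0,[(2,0),(22,0)]⟩⟩,⟨false,0,⟨0,[(43,0)]⟩,⟨3,[(2,0),(13,1),(4,0),(10,0),(12,1)]⟩⟩,
  ⟨true,(-1),⟨0,[(0,0),(6,0),(35,0)]⟩,⟨0,[(2,0),(8,0)]⟩⟩,[.o ⟨false,0,⟨0,[(1,0)]⟩,⟨0,[(2,0)]⟩⟩,.o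
  ⟨false,0,⟨0,[(0,0)]⟩,⟨0,[(2,0),(44,0)]⟩⟩,.o ⟨false,1,⟨1,[(27,1),(4,0),(11,0)]⟩,⟨0,[(13,0)]⟩⟩,.a
  ⟨true,0,⟨0,[(27,0)]⟩,⟨0,[(24,0)]⟩⟩ ⟨true,0,⟨0,[(8,0),(34,0)]⟩,⟨0,[(12,0),(14,0)]⟩⟩ ⟨false,0,⟨0,
  [(0,0),(23,0)]⟩,⟨0,[(2,0),(24,0)]⟩⟩]⟩))) (.R ⟨2,true,false,true,[0,1],[0,0,0,0,1],[1,1],(⟨0,[]⟩,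
  ⟨0,[]⟩),(⟨0,[(21,0)]⟩,⟨0,[(20,0)]⟩),⟨0,[]⟩,.k,.k,.k,(.r 0 ⟨1,[(25,0),(0,0),(14,1)]⟩ ⟨3,[(14,1),(3,
  0),(0,0),(10,0),(11,1)]⟩),.k,.k,⟨false,1,⟨1,[(18,0),(0,0),(22,0)]⟩,⟨0,[]⟩⟩,⟨true,(-1),⟨3,[(0,3),
  (24,0),(0,0),(17,1)]⟩,⟨0,[(18,0)]⟩⟩,⟨false,1,⟨3,[(14,1),(3,0),(0,0),(10,0),(11,1)]⟩,⟨0,[(35,0),(5,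
  0)]⟩⟩,⟨true,(-1),⟨0,[(0,0),(39,0)]⟩,⟨0,[(18,0),(22,0)]⟩⟩,⟨true,0,⟨0,[(36,0)]⟩,⟨1,[(25,0),(0,0)]⟩⟩,
  ⟨false,(-1),⟨0,[(0,0)]⟩,⟨1,[(18,2),(0,0),(14,0)]⟩⟩,[]⟩)) (.R ⟨1,false,false,true,[1,-1],[0,-1,1],
  [0,1,-1,-1],(⟨0,[(30,0)]⟩,⟨0,[(31,0)]⟩),(⟨0,[(16,0)]⟩,⟨0,[(26,0),(4,0)]⟩),⟨0,[(15,0),(0,0)]⟩,.k,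
  .k,(.x 0 ⟨0,[(24,0),(0,0),(5,1)]⟩ ⟨0,[(0,0),(27,1),(6,0),(4,0)]⟩),.k,.k,.k,⟨false,1,⟨0,[(9,0),(14,
  0),(16,0)]⟩,⟨1,[(5,0),(1,0),(32,0)]⟩⟩,⟨true,1,⟨1,[(24,1),(4,0),(11,0)]⟩,⟨0,[(4,0),(2,0)]⟩⟩,⟨true,
  0,⟨0,[(44,0)]⟩,⟨0,[]⟩⟩,⟨false,1,⟨1,[(22,1),(6,0),(12,0)]⟩,⟨0,[(4,0),(37,0)]⟩⟩,⟨false,0,⟨0,[(40,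
  0)]⟩,⟨3,[(13,1),(3,0),(0,0),(10,0),(12,1)]⟩⟩,⟨false,1,⟨1,[(22,1),(6,0),(10,1),(1,0)]⟩,⟨1,[(1,0),
  (2,0),(37,1)]⟩⟩,[.a ⟨true,0,⟨0,[(8,0)]⟩,⟨1,[(11,1),(24,0),(5,0)]⟩⟩ ⟨false,1,⟨0,[(0,0),(36,0)]⟩,⟨0,
  [(34,0),(5,0)]⟩⟩ ⟨true,1,⟨1,[(8,1),(20,0),(11,0)]⟩,⟨0,[(4,0),(29,1),(5,0)]⟩⟩,.o ⟨false,1,⟨1,[(8,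
  1),(20,0),(12,0)]⟩,⟨0,[(11,0)]⟩⟩,.o ⟨false,0,⟨1,[(24,0),(0,0)]⟩,⟨1,[(29,0),(11,0)]⟩⟩,.e ⟨false,1,
  ⟨0,[(0,0),(34,0)]⟩,⟨1,[(24,0),(0,0),(8,1),(5,1)]⟩⟩ ⟨false,2,⟨1,[(0,1),(21,1),(6,0),(11,0)]⟩,⟨0,
  [(4,0),(29,1),(5,0)]⟩⟩]⟩))) (.S ⟨1,0,[0,1,0,0,0,0,0,-1],[1,0,-1],[0,0,0,0,0,0,0,-1],(⟨0,[(24,0)]⟩,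
  ⟨0,[(25,0)]⟩),⟨0,[(13,0)]⟩,.k,.k,⟨false,1,⟨1,[(15,0),(0,0),(23,0)]⟩,⟨0,[]⟩⟩,⟨true,0,⟨0,[(42,0)]⟩,
  ⟨0,[]⟩⟩,⟨true,0,⟨0,[(38,0)]⟩,⟨0,[(37,0)]⟩⟩,⟨false,0,⟨0,[(38,0)]⟩,⟨3,[(11,1),(3,0),(0,0),(10,0),
  (12,1)]⟩⟩,[.a ⟨true,(-1),⟨0,[(2,0)]⟩,⟨0,[(20,0),(19,0)]⟩⟩ ⟨false,1,⟨5,[(0,4),(14,0),(0,0),(4,0),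
  (0,0),(12,1)]⟩,⟨1,[(3,0),(1,0),(32,0)]⟩⟩ ⟨true,0,⟨2,[(0,0),(1,1),(19,1),(4,0),(7,0)]⟩,⟨0,[(5,
  0)]⟩⟩,.o ⟨false,0,⟨0,[(7,0)]⟩,⟨1,[(20,1),(6,0),(12,0)]⟩⟩,.o ⟨false,0,⟨0,[(8,0)]⟩,⟨1,[(0,0),(19,0),
  (1,0),(4,0)]⟩⟩,.e ⟨false,1,⟨0,[(0,0)]⟩,⟨3,[(5,1),(4,1),(11,0),(0,0)]⟩⟩ ⟨false,1,⟨5,[(0,4),(14,0),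
  (0,0),(4,0),(0,0),(12,1)]⟩,⟨0,[(5,0)]⟩⟩]⟩)))) (.S ⟨1,0,[0,0,1,1,0,0,0,-1],[1,1,-1],[1,1,1],(⟨0,
  [(21,0),(4,0)]⟩,⟨0,[(11,0)]⟩),⟨0,[(21,0)]⟩,.k,.k,⟨true,0,⟨0,[(3,0),(1,0)]⟩,⟨0,[(0,0),(29,0)]⟩⟩,
  ⟨false,1,⟨1,[(12,0),(0,0),(23,0)]⟩,⟨0,[]⟩⟩,⟨false,0,⟨0,[(2,0),(27,0)]⟩,⟨5,[(0,1),(0,1),(16,1),(0,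
  3),(16,2),(0,2)]⟩⟩,⟨true,0,⟨0,[(35,0)]⟩,⟨0,[(34,0)]⟩⟩,[.o ⟨false,0,⟨0,[(6,0)]⟩,⟨1,[(3,1),(20,0),
  (12,0)]⟩⟩,.a ⟨true,0,⟨0,[(0,0),(15,0)]⟩,⟨0,[(3,0)]⟩⟩ ⟨false,0,⟨0,[]⟩,⟨1,[(12,0),(0,0),(22,0)]⟩⟩
  ⟨true,0,⟨0,[(0,0)]⟩,⟨0,[(3,0),(1,0)]⟩⟩,.e ⟨false,0,⟨1,[(19,0),(0,0)]⟩,⟨1,[(36,0),(0,0)]⟩⟩ ⟨false,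
  0,⟨0,[(0,0)]⟩,⟨3,[(2,1),(4,1),(0,1),(15,0),(11,2)]⟩⟩,.o ⟨false,0,⟨0,[(5,0)]⟩,⟨1,[(19,1),(4,0),(11,
  0)]⟩⟩]⟩))) (.I [0,-1,-1,0,1,0,0,1] (.S ⟨1,0,[0,1,0,0,0,0,0,1],[0,0,1],[0,0,0,0,0,0,0,1],(⟨0,[(21,
  0)]⟩,⟨0,[(20,0)]⟩),⟨0,[(10,0)]⟩,.k,.k,⟨false,1,⟨1,[(11,0),(0,0),(23,0)]⟩,⟨0,[]⟩⟩,⟨true,0,⟨0,[(38,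
  0)]⟩,⟨0,[]⟩⟩,⟨true,0,⟨0,[(34,0)]⟩,⟨0,[(33,0)]⟩⟩,⟨false,0,⟨0,[(34,0)]⟩,⟨3,[(7,1),(3,0),(0,0),(10,
  0),(12,1)]⟩⟩,[.a ⟨true,0,⟨0,[(16,0)]⟩,⟨1,[(3,1),(26,0),(5,0)]⟩⟩ ⟨false,1,⟨3,[(0,2),(5,0),(4,0),(0,
  0),(18,0)]⟩,⟨0,[(1,0),(26,0)]⟩⟩ ⟨true,0,⟨0,[(6,0)]⟩,⟨0,[(1,0),(26,1)]⟩⟩,.o ⟨false,1,⟨1,[(16,1),(6,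
  0),(12,0)]⟩,⟨0,[(3,0)]⟩⟩,.o ⟨false,1,⟨1,[(18,1),(4,0),(11,0)]⟩,⟨0,[(4,0)]⟩⟩,.e ⟨false,1,⟨0,[(0,
  0)]⟩,⟨0,[(3,0),(14,0)]⟩⟩ ⟨false,1,⟨3,[(0,2),(5,0),(4,0),(0,0),(18,0)]⟩,⟨0,[(1,0),(26,1)]⟩⟩]⟩) (.Q
  [0,-1,0,2,0,0,-1,-1,0,0,-1] (.p false [0,0,1] [] (⟨0,[(21,0)]⟩,⟨0,[(20,0)]⟩) .k 0 (⟨0,[]⟩,⟨0,[]⟩)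
  .k .k) (.R ⟨1,true,false,false,[0,0,1],[0,1],[0,0,0,0,0,0,0,1],(⟨0,[(22,0)]⟩,⟨0,[(21,0)]⟩),(⟨0,
  [(26,0)]⟩,⟨0,[(25,0)]⟩),⟨0,[(11,0)]⟩,.k,.k,.k,.k,(.r (-2) ⟨1,[(7,1),(0,1),(15,0),(11,1),(0,0)]⟩
  ⟨0,[(0,0),(0,0),(15,0),(11,0)]⟩),.k,⟨true,1,⟨1,[(3,1),(12,1),(7,0),(12,0)]⟩,⟨1,[(0,0),(0,1),(15,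
  0),(11,1)]⟩⟩,⟨false,1,⟨1,[(16,1),(7,0),(11,0)]⟩,⟨0,[(19,0)]⟩⟩,⟨false,1,⟨1,[(12,0),(0,0),(23,0)]⟩,
  ⟨0,[]⟩⟩,⟨true,0,⟨0,[(6,0)]⟩,⟨0,[(3,0)]⟩⟩,⟨true,0,⟨0,[(35,0)]⟩,⟨0,[(34,0)]⟩⟩,⟨false,0,⟨0,[(0,0)]⟩,
  ⟨3,[(3,3),(4,1),(3,0),(0,0),(10,0),(12,1)]⟩⟩,[]⟩) (.Q [0,0,-1,0,1,0,1,0,0,-1,1] (.p true [0,0,1]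
  [1] (⟨0,[(22,0)]⟩,⟨0,[(21,0)]⟩) .k 1 (⟨0,[]⟩,⟨0,[]⟩) .k .k) (.R ⟨1,false,false,true,[1,0,-1],[1,
  -1],[0,1,0,0,0,0,0,-1],(⟨0,[(22,0)]⟩,⟨0,[(23,0)]⟩),(⟨0,[(26,0)]⟩,⟨0,[(27,0)]⟩),⟨0,[(11,0)]⟩,.k,.k,
  .k,.k,.k,.k,⟨false,0,⟨1,[(2,0),(0,0),(32,1),(1,0)]⟩,⟨3,[(1,1),(6,1),(8,1),(7,0),(11,0),(0,1)]⟩⟩,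
  ⟨true,0,⟨0,[(20,0)]⟩,⟨0,[(6,0)]⟩⟩,⟨true,0,⟨0,[(40,0)]⟩,⟨0,[]⟩⟩,⟨true,0,⟨0,[(4,0)]⟩,⟨0,[(7,0)]⟩⟩,
  ⟨false,0,⟨0,[(36,0)]⟩,⟨3,[(9,1),(3,0),(0,0),(10,0),(12,1)]⟩⟩,⟨true,0,⟨0,[(18,0)]⟩,⟨0,[(5,0)]⟩⟩,
  [.o ⟨false,0,⟨0,[(35,0)]⟩,⟨1,[(25,0),(10,1),(1,0)]⟩⟩,.a ⟨true,0,⟨23,[(9,11),(3,4),(0,4),(14,0),(2,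
  5),(7,1)]⟩,⟨0,[(36,0)]⟩⟩ ⟨true,0,⟨1,[(2,0),(0,0),(34,0)]⟩,⟨0,[(8,0),(21,0)]⟩⟩ ⟨false,1,⟨1,[(0,0),
  (8,0),(10,0),(16,0)]⟩,⟨0,[(6,0),(29,0)]⟩⟩,.o ⟨false,0,⟨0,[(6,0)]⟩,⟨3,[(0,1),(12,0),(0,0),(5,1),(4,
  0)]⟩⟩,.o ⟨false,0,⟨0,[(21,0)]⟩,⟨0,[(0,0)]⟩⟩]⟩) (.Q [0,0,-1,0,0,0,0,0,-1,1,0,-1] (.p false [0,0,0,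
  0,1] [1] (⟨0,[(16,0)]⟩,⟨0,[(15,0)]⟩) .k 1 (⟨0,[]⟩,⟨0,[]⟩) .k .k) (.Q [0,0,0,0,0,-1,0,0,0,0,0,1]
  (.ed false [1,-1,0,0,1] .k) (.S ⟨1,0,[1],[0,0,0,0,1],[1,1],(⟨0,[(18,0)]⟩,⟨0,[(17,0)]⟩),⟨0,[(0,
  0)]⟩,.k,(.r (-1) ⟨3,[(11,1),(3,0),(0,0),(10,0),(11,1)]⟩ ⟨1,[(22,0),(0,0),(14,1)]⟩),⟨true,0,⟨0,
  [(42,0)]⟩,⟨0,[]⟩⟩,⟨false,1,⟨1,[(15,0),(0,0),(23,0)]⟩,⟨0,[]⟩⟩,⟨false,0,⟨0,[(38,0)]⟩,⟨3,[(11,1),(3,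
  0),(0,0),(10,0),(12,1)]⟩⟩,⟨true,0,⟨0,[(38,0)]⟩,⟨0,[(37,0)]⟩⟩,[.a ⟨true,0,⟨0,[(16,0)]⟩,⟨5,[(1,4),
  (0,0),(12,0),(6,0),(18,2)]⟩⟩ ⟨false,0,⟨0,[(33,0)]⟩,⟨1,[(15,0),(0,0),(23,0)]⟩⟩ ⟨true,0,⟨0,[]⟩,⟨1,
  [(22,0),(0,0)]⟩⟩,.o ⟨false,1,⟨1,[(16,1),(10,0),(12,0)]⟩,⟨8,[(1,7),(2,4),(5,4),(4,0),(11,3),(4,0),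
  (8,1)]⟩⟩,.a ⟨true,0,⟨0,[(16,0)]⟩,⟨2,[(1,1),(0,0),(12,0),(6,0)]⟩⟩ ⟨false,0,⟨0,[]⟩,⟨1,[(15,0),(0,0),
  (23,0)]⟩⟩ ⟨true,0,⟨0,[]⟩,⟨0,[(42,0)]⟩⟩,.a ⟨true,0,⟨1,[(16,1),(5,0),(0,0)]⟩,⟨0,[(1,0)]⟩⟩ ⟨true,0,
  ⟨0,[(33,0)]⟩,⟨1,[(22,0),(0,0)]⟩⟩ ⟨false,1,⟨1,[(39,0),(0,0)]⟩,⟨1,[(22,0),(0,0)]⟩⟩]⟩) (.S ⟨1,0,[-1,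
  1],[1,0,0,0,-1],[-1],(⟨0,[(17,0)]⟩,⟨0,[(18,0)]⟩),⟨0,[(0,0),(12,0),(0,0)]⟩,.k,(.r (-1) ⟨5,[(11,1),
  (3,0),(0,0),(10,0),(9,1),(1,2),(0,0)]⟩ ⟨1,[(22,0),(0,0),(14,1)]⟩),⟨false,1,⟨1,[(15,0),(0,0),(23,
  0)]⟩,⟨0,[]⟩⟩,⟨true,0,⟨0,[(42,0)]⟩,⟨0,[]⟩⟩,⟨true,0,⟨0,[(38,0)]⟩,⟨0,[(37,0)]⟩⟩,⟨false,0,⟨0,[(38,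
  0)]⟩,⟨3,[(11,1),(3,0),(0,0),(10,0),(12,1)]⟩⟩,[.o ⟨false,0,⟨8,[(1,7),(2,4),(5,4),(4,0),(11,3),(4,
  0),(8,1)]⟩,⟨1,[(16,1),(10,0),(12,0)]⟩⟩,.e ⟨false,1,⟨1,[(31,0),(7,0)]⟩,⟨0,[(42,0)]⟩⟩ ⟨false,1,⟨11,
  [(15,4),(0,4),(14,0),(7,5),(2,1)]⟩,⟨0,[]⟩⟩,.a ⟨true,0,⟨2,[(1,1),(0,0),(12,0),(6,0)]⟩,⟨0,[(16,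
  0)]⟩⟩ ⟨false,1,⟨1,[(15,0),(0,0),(14,0)]⟩,⟨0,[]⟩⟩ ⟨true,0,⟨0,[(42,0)]⟩,⟨0,[]⟩⟩,.o ⟨false,0,⟨6,[(1,
  4),(0,2),(1,2),(10,1),(4,2),(6,3),(4,5)]⟩,⟨1,[(16,1),(10,0),(11,0)]⟩⟩]⟩)) (.Q [0,0,-1,0,0,0,0,0,1,
  -1,0,1] (.p true [0,0,0,0,1] [1] (⟨0,[(17,0)]⟩,⟨0,[(16,0)]⟩) .k 1 (⟨0,[]⟩,⟨0,[]⟩) .k .k) (.Q [1,0,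
  0,0,-1,0,0,0,1,0,0,1] (.p true [0,0,0,0,1] [] (⟨0,[(18,0)]⟩,⟨0,[(17,0)]⟩) .k 0 (⟨0,[]⟩,⟨0,[]⟩) .k
  .k) (.R ⟨2,true,false,true,[0,1],[0,0,0,0,1],[1,1],(⟨0,[]⟩,⟨0,[]⟩),(⟨0,[(19,0)]⟩,⟨0,[(18,0)]⟩),⟨0,
  []⟩,.k,.k,.k,(.r 0 ⟨1,[(23,0),(0,0),(14,1)]⟩ ⟨3,[(12,1),(3,0),(0,0),(10,0),(11,1)]⟩),.k,.k,⟨false,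
  1,⟨1,[(16,0),(0,0),(22,0)]⟩,⟨0,[]⟩⟩,⟨true,(-1),⟨4,[(0,3),(1,0),(0,0),(19,0),(18,1)]⟩,⟨0,[(16,
  0)]⟩⟩,⟨false,1,⟨3,[(12,1),(3,0),(0,0),(10,0),(11,1)]⟩,⟨0,[(33,0),(5,0)]⟩⟩,⟨true,(-1),⟨0,[(0,0),
  (37,0)]⟩,⟨0,[(16,0),(22,0)]⟩⟩,⟨true,0,⟨0,[(34,0)]⟩,⟨1,[(23,0),(0,0)]⟩⟩,⟨false,(-1),⟨0,[(0,0)]⟩,⟨1,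
  [(16,2),(0,0),(14,0)]⟩⟩,[]⟩) (.R ⟨1,false,false,false,[0,0,1],[0,0,0,0,1],[0,0,0,0,0,0,0,1],(⟨0,
  [(26,0)]⟩,⟨0,[(25,0)]⟩),(⟨0,[(19,0)]⟩,⟨0,[(18,0)]⟩),⟨0,[(15,0)]⟩,.k,.k,.k,.k,(.r (-1) ⟨3,[(4,1),
  (6,1),(8,1),(7,0),(11,0),(0,1)]⟩ ⟨0,[(10,0),(12,0)]⟩),.k,⟨false,1,⟨1,[(11,1),(28,0),(0,0)]⟩,⟨1,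
  [(5,0),(0,0),(34,0)]⟩⟩,⟨true,(-1),⟨0,[(1,0),(1,0)]⟩,⟨0,[(16,0),(6,0)]⟩⟩,⟨false,1,⟨1,[(16,0),(0,0),
  (23,0)]⟩,⟨0,[]⟩⟩,⟨true,(-1),⟨2,[(1,2),(1,0),(1,0),(2,1),(24,0),(1,0)]⟩,⟨0,[(0,0),(20,0)]⟩⟩,⟨true,
  0,⟨0,[(39,0)]⟩,⟨0,[(38,0)]⟩⟩,⟨true,(-1),⟨2,[(1,2),(1,0),(1,0),(4,1),(22,0),(1,0),(3,0)]⟩,⟨1,[(0,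
  1),(3,0),(16,0)]⟩⟩,[.o ⟨false,0,⟨1,[(1,0),(0,0)]⟩,⟨0,[(0,0)]⟩⟩,.o ⟨false,0,⟨0,[(1,0),(31,0)]⟩,⟨0,
  [(16,0),(26,0)]⟩⟩,.o ⟨false,1,⟨1,[(23,1),(4,0),(11,0)]⟩,⟨0,[(9,0)]⟩⟩,.a ⟨true,0,⟨0,[(23,0)]⟩,⟨0,
  [(20,0)]⟩⟩ ⟨true,1,⟨1,[(11,1),(28,0),(0,0)]⟩,⟨0,[(5,0)]⟩⟩ ⟨false,0,⟨1,[(1,1),(1,0),(16,0),(20,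
  0)]⟩,⟨0,[(0,0),(22,0)]⟩⟩]⟩)) (.Q [-1,-1,0,0,1,0,0,0,-1,0,0,-1] (.p false [0,0,0,0,1] [] (⟨0,[(18,
  0)]⟩,⟨0,[(17,0)]⟩) .k 0 (⟨0,[]⟩,⟨0,[]⟩) .k .k) (.Q [0,0,0,0,0,-1,0,0,0,1,0,-1] (.ed true [0,1,0,0,
  1] .k) (.Q [-1,1,0,0,0,0,0,0,-1,0,0,-1] (.p false [0,0,0,0,1] [] (⟨0,[(20,0)]⟩,⟨0,[(19,0)]⟩) .k 0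
  (⟨0,[]⟩,⟨0,[]⟩) .k .k) (.S ⟨1,0,[-1,1],[1,0,0,0,-1],[-1],(⟨0,[(20,0)]⟩,⟨0,[(21,0)]⟩),⟨0,[(1,0)]⟩,
  .k,(.r (-1) ⟨5,[(14,1),(3,0),(0,0),(10,0),(9,1),(1,2),(0,0)]⟩ ⟨1,[(25,0),(0,0),(14,1)]⟩),⟨false,1,
  ⟨1,[(18,0),(0,0),(23,0)]⟩,⟨0,[]⟩⟩,⟨true,0,⟨0,[(45,0)]⟩,⟨0,[]⟩⟩,⟨true,0,⟨0,[(41,0)]⟩,⟨0,[(40,0)]⟩⟩,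
  ⟨false,0,⟨0,[(41,0)]⟩,⟨3,[(14,1),(3,0),(0,0),(10,0),(12,1)]⟩⟩,[.o ⟨false,0,⟨0,[(0,0)]⟩,⟨1,[(19,1),
  (10,0),(12,0)]⟩⟩,.e ⟨false,1,⟨1,[(34,0),(7,0)]⟩,⟨0,[(45,0)]⟩⟩ ⟨false,1,⟨11,[(18,4),(0,4),(14,0),
  (7,5),(2,1)]⟩,⟨0,[]⟩⟩,.a ⟨true,0,⟨1,[(0,0),(1,0),(34,0)]⟩,⟨0,[(19,0)]⟩⟩ ⟨false,1,⟨1,[(18,0),(0,0),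
  (14,0)]⟩,⟨0,[]⟩⟩ ⟨true,0,⟨0,[(45,0)]⟩,⟨0,[]⟩⟩,.o ⟨false,0,⟨0,[(0,0),(34,0)]⟩,⟨1,[(19,1),(10,0),
  (11,0)]⟩⟩]⟩) (.Q [-1,0,0,0,0,0,0,0,-1,1,0,-1] (.p false [0,0,0,0,1] [1] (⟨0,[(21,0)]⟩,⟨0,[(20,
  0)]⟩) .k 1 (⟨0,[]⟩,⟨0,[]⟩) .k .k) (.R ⟨1,false,false,false,[0,0,1],[0,0,0,0,1],[0,1,0,0,0,0,0,1],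
  (⟨0,[(29,0)]⟩,⟨0,[(28,0)]⟩),(⟨0,[(22,0)]⟩,⟨0,[(21,0)]⟩),⟨0,[(18,0)]⟩,.k,.k,.k,.k,(.r (-1) ⟨3,[(7,
  1),(6,1),(8,1),(7,0),(11,0),(0,1)]⟩ ⟨0,[(13,0),(12,0)]⟩),.k,⟨true,0,⟨1,[(6,1),(0,1),(23,0),(3,0),
  (1,1),(4,3)]⟩,⟨0,[(8,0),(35,0)]⟩⟩,⟨false,0,⟨1,[(1,1),(4,1),(24,0),(3,0),(1,3)]⟩,⟨1,[(3,1),(5,0),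
  (14,0),(1,0)]⟩⟩,⟨true,0,⟨0,[(46,0)]⟩,⟨0,[]⟩⟩,⟨false,0,⟨0,[(1,0),(9,0)]⟩,⟨0,[(3,0),(20,0)]⟩⟩,
  ⟨false,0,⟨0,[(42,0)]⟩,⟨3,[(15,1),(3,0),(0,0),(10,0),(12,1)]⟩⟩,⟨false,0,⟨0,[(1,0),(11,0)]⟩,⟨1,[(3,
  1),(3,0),(16,0)]⟩⟩,[.a ⟨true,0,⟨0,[(20,0)]⟩,⟨0,[(0,0)]⟩⟩ ⟨true,0,⟨0,[(14,0)]⟩,⟨0,[(8,0),(35,0)]⟩⟩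
  ⟨false,0,⟨0,[(1,0),(10,0),(24,0)]⟩,⟨1,[(3,1),(5,0),(14,0),(1,0)]⟩⟩,.a ⟨true,0,⟨0,[(1,0)]⟩,⟨1,[(0,
  0),(3,0),(34,0)]⟩⟩ ⟨false,1,⟨1,[(14,1),(28,0),(0,0)]⟩,⟨1,[(8,0),(0,0),(34,0)]⟩⟩ ⟨true,0,⟨0,[(1,0),
  (10,0)]⟩,⟨1,[(0,1),(7,0),(15,0),(1,0),(4,0)]⟩⟩,.o ⟨false,1,⟨1,[(26,1),(4,0),(11,0)]⟩,⟨0,[(12,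
  0)]⟩⟩,.a ⟨true,0,⟨0,[(26,0)]⟩,⟨0,[(23,0)]⟩⟩ ⟨false,1,⟨1,[(14,1),(28,0),(0,0)]⟩,⟨0,[(8,0),(35,
  0)]⟩⟩ ⟨true,0,⟨0,[(1,0),(10,0),(24,0)]⟩,⟨1,[(0,1),(7,0),(15,0),(1,0),(4,0)]⟩⟩]⟩) (.R ⟨1,false,
  false,true,[0,0,1],[0,0,0,0,1],[0,0,0,0,0,0,0,1],(⟨0,[(29,0)]⟩,⟨0,[(28,0)]⟩),(⟨0,[(22,0)]⟩,⟨0,
  [(21,0)]⟩),⟨0,[(18,0)]⟩,.k,.k,.k,.k,(.r (-1) ⟨3,[(7,1),(6,1),(8,1),(7,0),(11,0),(0,1)]⟩ ⟨0,[(13,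
  0),(12,0)]⟩),.k,⟨true,1,⟨0,[(14,0),(29,0)]⟩,⟨0,[(8,0)]⟩⟩,⟨false,0,⟨0,[(0,0),(5,0),(36,0)]⟩,⟨1,[(3,
  1),(5,0),(14,0),(1,0)]⟩⟩,⟨false,1,⟨1,[(19,0),(0,0),(23,0)]⟩,⟨0,[]⟩⟩,⟨true,(-1),⟨0,[(0,0),(5,0),(2,
  0)]⟩,⟨0,[(3,0),(20,0)]⟩⟩,⟨true,0,⟨0,[(42,0)]⟩,⟨0,[(41,0)]⟩⟩,⟨true,(-1),⟨2,[(0,2),(5,0),(1,0),(4,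
  1),(23,1),(0,0),(3,0)]⟩,⟨1,[(3,1),(3,0),(16,0)]⟩⟩,[.o ⟨false,0,⟨1,[(0,0),(4,0),(33,0)]⟩,⟨0,[(3,
  0)]⟩⟩,.o ⟨false,0,⟨0,[(0,0)]⟩,⟨2,[(3,0),(15,1),(26,0)]⟩⟩,.o ⟨false,1,⟨1,[(26,1),(4,0),(11,0)]⟩,⟨0,
  [(12,0)]⟩⟩,.a ⟨true,0,⟨0,[(26,0)]⟩,⟨0,[(23,0)]⟩⟩ ⟨true,1,⟨1,[(14,1),(28,0),(0,0)]⟩,⟨0,[(8,0)]⟩⟩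
  ⟨false,0,⟨0,[(0,0),(22,0)]⟩,⟨0,[(3,0),(22,0)]⟩⟩]⟩))) (.Q [-2,0,0,0,0,0,0,0,-2,1,0,-2] (.p false
  [0,0,0,0,1] [1,0,0,0,-1] (⟨0,[(20,0)]⟩,⟨0,[(19,0)]⟩) .k 2 (⟨0,[(19,0)]⟩,⟨0,[(20,0)]⟩) .k (.r 0 ⟨0,
  []⟩ ⟨2,[(17,1),(0,1),(14,0),(10,1)]⟩)) (.R ⟨0,false,false,true,[1,0,0,0,-1],[0,0,0,0,1],[1,1,1],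
  (⟨0,[(20,0)]⟩,⟨0,[(21,0)]⟩),(⟨0,[(21,0)]⟩,⟨0,[(20,0)]⟩),⟨0,[(1,0)]⟩,.k,.k,(.r (-1) ⟨5,[(14,1),(3,
  0),(0,0),(10,0),(9,1),(1,2),(0,0)]⟩ ⟨1,[(25,0),(0,0),(14,1)]⟩),.k,.k,.k,⟨true,0,⟨1,[(25,0),(0,
  0)]⟩,⟨0,[]⟩⟩,⟨false,1,⟨1,[(19,3),(10,0),(11,0)]⟩,⟨0,[(0,0)]⟩⟩,⟨false,0,⟨1,[(25,0),(0,0)]⟩,⟨1,[(34,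
  0),(7,0)]⟩⟩,⟨true,0,⟨0,[(4,0),(14,0),(16,0)]⟩,⟨0,[(0,0)]⟩⟩,⟨false,0,⟨0,[]⟩,⟨0,[]⟩⟩,⟨false,0,⟨0,
  []⟩,⟨0,[]⟩⟩,[.o ⟨false,0,⟨0,[(4,0),(31,0)]⟩,⟨0,[(2,0)]⟩⟩,.e ⟨false,0,⟨0,[]⟩,⟨1,[(18,0),(0,0),(22,
  0)]⟩⟩ ⟨false,1,⟨1,[(19,3),(10,0),(11,0)]⟩,⟨0,[(0,0)]⟩⟩,.a ⟨true,0,⟨2,[(0,0),(17,0),(18,0)]⟩,⟨0,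
  [(19,0)]⟩⟩ ⟨false,0,⟨1,[(25,0),(0,0)]⟩,⟨1,[(42,0),(0,0)]⟩⟩ ⟨true,0,⟨0,[(4,0),(14,0),(16,0)]⟩,⟨0,
  [(0,0)]⟩⟩,.o ⟨false,0,⟨1,[(0,0),(4,0),(19,0),(4,0)]⟩,⟨1,[(19,1),(10,0),(11,0)]⟩⟩]⟩) (.Q [0,0,1,0,
  0,0,0,0,-1,0,0,-1] (.p false [0,0,0,0,1] [] (⟨0,[(21,0)]⟩,⟨0,[(20,0)]⟩) .k 0 (⟨0,[]⟩,⟨0,[]⟩) .k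
  .k) (.R ⟨0,false,false,true,[1,0,0,0,-1],[1,-1],[],(⟨0,[(21,0)]⟩,⟨0,[(22,0)]⟩),(⟨0,[(32,0)]⟩,⟨0,
  [(33,0)]⟩),⟨0,[(2,0)]⟩,.k,.k,(.r (-1) ⟨27,[(1,2),(13,8),(3,5),(11,2),(3,4),(5,9),(1,13)]⟩ ⟨1,[(26,
  0),(0,0),(14,1)]⟩),(.r 0 ⟨1,[(26,0),(0,0),(14,1)]⟩ ⟨5,[(1,0),(13,2),(3,1),(11,0),(11,2)]⟩),.k,.k,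
  ⟨true,0,⟨0,[(36,0),(5,0)]⟩,⟨0,[(41,0)]⟩⟩,⟨false,0,⟨0,[(20,0)]⟩,⟨0,[(3,0),(33,0)]⟩⟩,⟨true,0,⟨0,[]⟩,
  ⟨0,[(46,0)]⟩⟩,⟨false,0,⟨1,[(1,0),(13,0)]⟩,⟨0,[(3,0),(38,0)]⟩⟩,⟨false,0,⟨0,[]⟩,⟨0,[]⟩⟩,⟨false,0,⟨0,
  []⟩,⟨0,[]⟩⟩,[.o ⟨false,0,⟨0,[(41,0)]⟩,⟨1,[(31,0),(10,1),(1,0)]⟩⟩,.a ⟨true,0,⟨7,[(4,1),(10,3),(4,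
  1),(17,0),(4,0)]⟩,⟨0,[(42,0)]⟩⟩ ⟨false,1,⟨1,[(43,0),(0,0)]⟩,⟨0,[(46,0)]⟩⟩ ⟨true,0,⟨5,[(1,2),(4,1),
  (0,1),(1,1),(5,0),(19,1)]⟩,⟨0,[(0,0),(41,0)]⟩⟩,.e ⟨false,1,⟨1,[(19,0),(0,0),(23,0)]⟩,⟨0,[]⟩⟩
  ⟨false,0,⟨5,[(1,2),(4,1),(0,1),(1,1),(5,0),(19,1)]⟩,⟨0,[(3,0),(38,0)]⟩⟩,.o ⟨false,0,⟨0,[(0,0)]⟩,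
  ⟨43,[(1,25),(17,7),(11,8),(3,4),(7,21),(2,9)]⟩⟩]⟩) (.Q [0,0,0,0,0,0,0,0,1,-1,0,1] (.p true [0,0,0,
  0,1] [1] (⟨0,[(22,0)]⟩,⟨0,[(21,0)]⟩) .k 1 (⟨0,[]⟩,⟨0,[]⟩) .k .k) (.S ⟨1,0,[1],[0,0,0,0,1],[1,0,1],
  (⟨0,[(23,0)]⟩,⟨0,[(22,0)]⟩),⟨0,[(3,0),(14,0),(0,0)]⟩,.k,(.r (-1) ⟨5,[(2,0),(13,2),(3,1),(11,0),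
  (11,2)]⟩ ⟨1,[(27,0),(0,0),(14,1)]⟩),⟨true,0,⟨1,[(27,0),(0,0)]⟩,⟨0,[(38,0)]⟩⟩,⟨false,1,⟨1,[(20,0),
  (0,0),(23,0)]⟩,⟨0,[]⟩⟩,⟨false,0,⟨0,[(37,0),(5,0)]⟩,⟨5,[(2,0),(13,2),(3,1),(11,0),(11,2)]⟩⟩,⟨true,
  0,⟨0,[(43,0)]⟩,⟨0,[(42,0)]⟩⟩,[.o ⟨false,0,⟨0,[(0,0)]⟩,⟨2,[(4,0),(15,1),(26,0)]⟩⟩,.a ⟨true,0,⟨0,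
  [(1,0),(35,0)]⟩,⟨2,[(4,1),(0,0),(3,0),(5,0),(22,0),(0,0),(0,0)]⟩⟩ ⟨true,0,⟨0,[(41,0)]⟩,⟨0,[(47,
  0)]⟩⟩ ⟨false,1,⟨1,[(44,0),(0,0)]⟩,⟨0,[(47,0)]⟩⟩,.o ⟨false,0,⟨0,[(0,0)]⟩,⟨0,[(20,0)]⟩⟩,.o ⟨false,0,
  ⟨0,[(6,0)]⟩,⟨0,[(4,0),(33,0)]⟩⟩]⟩) (.R ⟨0,false,false,false,[1,0,0,0,-1],[0,0,1],[1],(⟨0,[(22,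
  0)]⟩,⟨0,[(23,0)]⟩),(⟨0,[(30,0)]⟩,⟨0,[(29,0)]⟩),⟨0,[(3,0)]⟩,.k,.k,(.r (-1) ⟨27,[(2,2),(13,8),(3,5),
  (11,2),(3,4),(5,9),(1,13)]⟩ ⟨1,[(27,0),(0,0),(14,1)]⟩),.k,.k,.k,⟨true,0,⟨1,[(9,0),(0,0),(34,0)]⟩,
  ⟨0,[(15,0),(21,0)]⟩⟩,⟨false,1,⟨1,[(1,1),(25,1),(4,0),(11,0)]⟩,⟨0,[(0,0),(12,0)]⟩⟩,⟨true,0,⟨0,[]⟩,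
  ⟨0,[(47,0)]⟩⟩,⟨false,1,⟨1,[(1,1),(23,1),(6,0),(4,1),(7,0)]⟩,⟨1,[(0,0),(3,0),(2,0),(2,0),(1,0)]⟩⟩,
  ⟨false,0,⟨0,[]⟩,⟨0,[]⟩⟩,⟨false,0,⟨0,[]⟩,⟨0,[]⟩⟩,[.o ⟨false,1,⟨1,[(25,1),(6,0),(12,0)]⟩,⟨0,[(12,
  0)]⟩⟩,.a ⟨true,1,⟨0,[(25,0),(19,0)]⟩,⟨0,[(7,0),(2,0)]⟩⟩ ⟨false,1,⟨1,[(44,0),(0,0)]⟩,⟨0,[(47,0)]⟩⟩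
  ⟨true,1,⟨1,[(1,1),(23,1),(6,0),(4,1),(7,0)]⟩,⟨0,[(0,0),(8,0),(3,0)]⟩⟩,.a ⟨true,0,⟨0,[(0,0)]⟩,⟨0,
  [(21,0)]⟩⟩ ⟨true,0,⟨0,[]⟩,⟨0,[(47,0)]⟩⟩ ⟨false,1,⟨1,[(1,1),(23,1),(6,0),(4,1),(7,0)]⟩,⟨0,[(0,0),
  (11,0)]⟩⟩,.a ⟨true,0,⟨0,[(5,0)]⟩,⟨0,[(1,0)]⟩⟩ ⟨false,1,⟨1,[(44,0),(0,0)]⟩,⟨1,[(27,0),(0,0)]⟩⟩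
  ⟨true,1,⟨1,[(1,1),(23,1),(6,0),(12,0)]⟩,⟨0,[(0,0),(8,0),(3,0)]⟩⟩]⟩))))) (.Q [0,0,0,0,0,-1,0,0,0,0,
  0,1] (.ed false [1,-1,0,0,1] .k) (.Q [0,0,1,0,-1,0,0,0,1,0,0,1] (.p true [0,0,0,0,1] [] (⟨0,[(20,
  0)]⟩,⟨0,[(19,0)]⟩) .k 0 (⟨0,[]⟩,⟨0,[]⟩) .k .k) (.Q [0,0,0,0,1,0,1,0,-1,0,1,-1] (.p true [0,0,1]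
  [0,0,0,0,1] (⟨0,[(28,0)]⟩,⟨0,[(27,0)]⟩) .k 2 (⟨0,[(21,0)]⟩,⟨0,[(20,0)]⟩) .k (.r (-1) ⟨1,[(13,1),
  (4,0),(0,0),(23,0)]⟩ ⟨1,[(7,0),(0,0),(34,0)]⟩)) (.K ⟨0,[0,0,0,0,1],(-1),(-1),(⟨0,[(22,0)]⟩,⟨0,
  [(21,0)]⟩),.k,(.r (-1) ⟨3,[(15,1),(3,0),(0,0),(10,0),(11,1)]⟩ ⟨1,[(26,0),(0,0),(14,1)]⟩),(.r 0 ⟨1,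
  [(26,0),(0,0),(14,1)]⟩ ⟨5,[(15,1),(3,0),(0,0),(10,0),(9,1),(1,2),(0,0)]⟩),.k,.k,[⟨0,[(0,0)]⟩,⟨0,
  [(1,0)]⟩,⟨0,[(19,0),(26,0)]⟩,⟨0,[(3,0)]⟩]⟩) (.Q [-1,1,0,0,0,0,0,0,-1,1,0,-1] (.p false [0,0,0,0,
  1] [1] (⟨0,[(22,0)]⟩,⟨0,[(21,0)]⟩) .k 1 (⟨0,[]⟩,⟨0,[]⟩) .k .k) (.Q [0,0,0,0,0,-1,0,0,0,1,0,-1]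
  (.ed true [0,1,0,0,1] .k) (.S ⟨1,0,[-1,1],[1,0,0,0,-1],[-1],(⟨0,[(23,0)]⟩,⟨0,[(24,0)]⟩),⟨0,[(0,
  0)]⟩,.k,(.r (-1) ⟨5,[(17,1),(3,0),(0,0),(10,0),(9,1),(1,2),(0,0)]⟩ ⟨1,[(28,0),(0,0),(14,1)]⟩),
  ⟨false,1,⟨1,[(21,0),(0,0),(23,0)]⟩,⟨0,[]⟩⟩,⟨true,0,⟨0,[(48,0)]⟩,⟨0,[]⟩⟩,⟨true,0,⟨0,[(44,0)]⟩,⟨0,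
  [(43,0)]⟩⟩,⟨false,0,⟨0,[(44,0)]⟩,⟨3,[(17,1),(3,0),(0,0),(10,0),(12,1)]⟩⟩,[.a ⟨true,0,⟨0,[(1,0)]⟩,
  ⟨1,[(3,1),(41,0),(0,0)]⟩⟩ ⟨false,1,⟨11,[(21,4),(0,4),(14,0),(7,5),(2,1)]⟩,⟨0,[]⟩⟩ ⟨true,0,⟨0,[(48,
  0)]⟩,⟨0,[(38,0)]⟩⟩,.o ⟨false,1,⟨3,[(1,1),(19,1),(11,0),(3,0)]⟩,⟨1,[(3,1),(29,0),(11,0)]⟩⟩,.o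
  ⟨false,1,⟨0,[(21,0)]⟩,⟨1,[(3,1),(29,0),(11,0)]⟩⟩,.e ⟨false,1,⟨1,[(37,0),(7,0)]⟩,⟨1,[(28,0),(0,
  0)]⟩⟩ ⟨false,1,⟨11,[(21,4),(0,4),(14,0),(7,5),(2,1)]⟩,⟨0,[(38,0)]⟩⟩]⟩) (.Q [0,0,0,0,0,0,1,0,1,-1,
  1,1] (.p true [0,0,1] [1,0,0,0,-1] (⟨0,[(31,0)]⟩,⟨0,[(30,0)]⟩) .k 2 (⟨0,[(23,0)]⟩,⟨0,[(24,0)]⟩)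
  .k (.r (-1) ⟨1,[(16,1),(4,0),(0,0),(23,0)]⟩ ⟨1,[(10,0),(0,0),(25,0)]⟩)) (.K ⟨0,[1,0,0,0,-1],0,0,
  (⟨0,[(24,0)]⟩,⟨0,[(25,0)]⟩),.k,(.r (-1) ⟨5,[(18,1),(3,0),(0,0),(10,0),(9,1),(1,2),(0,0)]⟩ ⟨1,[(29,
  0),(0,0),(14,1)]⟩),(.r 0 ⟨1,[(29,0),(0,0),(14,1)]⟩ ⟨3,[(18,1),(3,0),(0,0),(10,0),(11,1)]⟩),.k,.k,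
  [⟨0,[(0,0)]⟩,⟨0,[(7,0)]⟩,⟨5,[(0,0),(2,0),(4,2),(14,0),(10,0),(7,2)]⟩,⟨0,[(2,0)]⟩]⟩) (.R ⟨0,false,
  false,false,[1,0,0,0,-1],[0,1],[1,1,1],(⟨0,[(24,0)]⟩,⟨0,[(25,0)]⟩),(⟨0,[(36,0)]⟩,⟨0,[(35,0)]⟩),⟨0,
  [(1,0)]⟩,.k,.k,(.r (-1) ⟨5,[(18,1),(3,0),(0,0),(10,0),(9,1),(1,2),(0,0)]⟩ ⟨1,[(29,0),(0,0),(14,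
  1)]⟩),(.r (-1) ⟨5,[(18,1),(3,0),(0,0),(10,0),(9,1),(1,2),(0,0)]⟩ ⟨1,[(29,0),(0,0),(14,1)]⟩),.k,.k,
  ⟨true,0,⟨0,[(44,0)]⟩,⟨0,[(39,0),(5,0)]⟩⟩,⟨false,1,⟨1,[(4,1),(29,0),(11,2)]⟩,⟨0,[(7,0)]⟩⟩,⟨false,0,
  ⟨1,[(29,0),(0,0)]⟩,⟨1,[(38,0),(7,0)]⟩⟩,⟨true,0,⟨1,[(4,1),(29,0),(10,1),(0,0)]⟩,⟨5,[(0,2),(1,1),(4,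
  0),(2,2),(0,0),(0,1),(25,0)]⟩⟩,⟨false,0,⟨0,[]⟩,⟨0,[]⟩⟩,⟨false,0,⟨0,[]⟩,⟨0,[]⟩⟩,[.a ⟨true,0,⟨0,
  [(45,0)]⟩,⟨7,[(2,1),(15,3),(4,1),(17,0),(5,0)]⟩⟩ ⟨false,0,⟨0,[(49,0)]⟩,⟨1,[(46,0),(0,0)]⟩⟩ ⟨true,
  0,⟨1,[(4,1),(29,0),(10,1),(0,0)]⟩,⟨1,[(0,0),(6,0),(2,0),(0,0),(35,0)]⟩⟩,.o ⟨false,1,⟨1,[(34,0),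
  (10,1),(1,0)]⟩,⟨0,[(44,0)]⟩⟩,.o ⟨false,1,⟨0,[(22,0)]⟩,⟨1,[(4,1),(29,0),(11,0)]⟩⟩,.e ⟨false,0,⟨0,
  []⟩,⟨1,[(22,0),(0,0),(23,0)]⟩⟩ ⟨false,1,⟨1,[(4,1),(29,0),(10,1),(0,1),(0,0)]⟩,⟨1,[(0,0),(6,0),(2,
  0),(0,0),(35,0)]⟩⟩]⟩))) (.S ⟨1,0,[1],[0,0,0,0,1],[1,1],(⟨0,[(23,0)]⟩,⟨0,[(22,0)]⟩),⟨0,[(3,0)]⟩,.k,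
  (.r (-1) ⟨3,[(16,1),(3,0),(0,0),(10,0),(11,1)]⟩ ⟨1,[(27,0),(0,0),(14,1)]⟩),⟨true,0,⟨0,[(47,0)]⟩,
  ⟨0,[]⟩⟩,⟨false,1,⟨1,[(20,0),(0,0),(23,0)]⟩,⟨0,[]⟩⟩,⟨false,0,⟨0,[(43,0)]⟩,⟨3,[(16,1),(3,0),(0,0),
  (10,0),(12,1)]⟩⟩,⟨true,0,⟨0,[(43,0)]⟩,⟨0,[(42,0)]⟩⟩,[.o ⟨false,0,⟨2,[(0,1),(5,0),(33,0)]⟩,⟨1,[(5,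
  1),(26,0),(3,0),(1,1)]⟩⟩,.o ⟨false,0,⟨0,[(0,0)]⟩,⟨0,[(20,0),(26,0)]⟩⟩,.o ⟨false,0,⟨3,[(0,2),(5,0),
  (33,0),(6,0)]⟩,⟨0,[(20,0)]⟩⟩,.a ⟨true,(-1),⟨0,[(2,0)]⟩,⟨1,[(20,1),(18,0),(4,0)]⟩⟩ ⟨true,0,⟨0,[(38,
  0)]⟩,⟨1,[(27,0),(0,0)]⟩⟩ ⟨false,1,⟨1,[(44,0),(0,0)]⟩,⟨1,[(27,0),(0,0)]⟩⟩]⟩))) (.R ⟨2,true,false,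
  true,[0,1],[0,0,0,0,1],[1,1,1],(⟨0,[]⟩,⟨0,[]⟩),(⟨0,[(21,0)]⟩,⟨0,[(20,0)]⟩),⟨0,[]⟩,.k,.k,.k,(.r 0
  ⟨1,[(25,0),(0,0),(14,1)]⟩ ⟨3,[(14,1),(3,0),(0,0),(10,0),(11,1)]⟩),.k,.k,⟨true,0,⟨1,[(25,0),(0,
  0)]⟩,⟨0,[]⟩⟩,⟨false,0,⟨0,[(19,0)]⟩,⟨0,[(0,0)]⟩⟩,⟨true,0,⟨0,[(40,0)]⟩,⟨0,[(41,0)]⟩⟩,⟨false,0,⟨3,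
  [(2,1),(11,1),(4,1),(10,0),(12,0)]⟩,⟨0,[(0,0),(34,0),(5,0)]⟩⟩,⟨false,0,⟨0,[]⟩,⟨1,[(18,0),(0,0),
  (23,0)]⟩⟩,⟨true,(-1),⟨0,[(2,0)]⟩,⟨1,[(0,0),(17,0),(25,0)]⟩⟩,[]⟩)) (.Q [-1,1,0,0,0,0,0,0,-1,1,0,
  -1] (.p false [0,0,0,0,1] [1] (⟨0,[(20,0)]⟩,⟨0,[(19,0)]⟩) .k 1 (⟨0,[]⟩,⟨0,[]⟩) .k .k) (.S ⟨1,0,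
  [-1,1],[1,0,0,0,-1],[-1],(⟨0,[(20,0)]⟩,⟨0,[(21,0)]⟩),⟨0,[(1,0),(14,0),(0,0)]⟩,.k,(.r (-1) ⟨5,[(14,
  1),(3,0),(0,0),(10,0),(9,1),(1,2),(0,0)]⟩ ⟨1,[(25,0),(0,0),(14,1)]⟩),⟨false,1,⟨1,[(18,0),(0,0),
  (23,0)]⟩,⟨0,[]⟩⟩,⟨true,0,⟨0,[(45,0)]⟩,⟨0,[]⟩⟩,⟨true,0,⟨0,[(41,0)]⟩,⟨0,[(40,0)]⟩⟩,⟨false,0,⟨0,[(41,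
  0)]⟩,⟨3,[(14,1),(3,0),(0,0),(10,0),(12,1)]⟩⟩,[.a ⟨true,0,⟨0,[(0,0)]⟩,⟨0,[(2,0),(40,0)]⟩⟩ ⟨false,1,
  ⟨11,[(18,4),(0,4),(14,0),(7,5),(2,1)]⟩,⟨0,[]⟩⟩ ⟨true,0,⟨0,[(45,0)]⟩,⟨0,[(35,0)]⟩⟩,.o ⟨false,1,⟨3,
  [(0,1),(17,1),(11,0),(3,0)]⟩,⟨1,[(2,1),(27,0),(12,0)]⟩⟩,.o ⟨false,1,⟨0,[(18,0)]⟩,⟨1,[(2,1),(27,0),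
  (3,0)]⟩⟩,.e ⟨false,1,⟨1,[(34,0),(7,0)]⟩,⟨1,[(25,0),(0,0)]⟩⟩ ⟨false,1,⟨11,[(18,4),(0,4),(14,0),(7,
  5),(2,1)]⟩,⟨0,[(35,0)]⟩⟩]⟩) (.R ⟨0,false,false,true,[0,0,0,0,1],[1,0,-1],[],(⟨0,[(21,0)]⟩,⟨0,[(20,
  0)]⟩),(⟨0,[(27,0)]⟩,⟨0,[(28,0)]⟩),⟨0,[(1,0)]⟩,.k,.k,(.r (-1) ⟨3,[(14,1),(3,0),(0,0),(10,0),(11,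
  1)]⟩ ⟨1,[(25,0),(0,0),(14,1)]⟩),.k,.k,.k,⟨true,1,⟨0,[(13,0),(29,0)]⟩,⟨0,[(7,0)]⟩⟩,⟨false,1,⟨0,
  [(18,0),(3,0)]⟩,⟨3,[(0,3),(5,0),(1,1),(14,0),(1,1),(15,1)]⟩⟩,⟨false,1,⟨1,[(18,0),(0,0),(14,0)]⟩,
  ⟨0,[]⟩⟩,⟨true,0,⟨0,[(5,0),(2,0),(9,0)]⟩,⟨0,[(0,0),(22,0)]⟩⟩,⟨false,0,⟨0,[]⟩,⟨0,[]⟩⟩,⟨false,0,⟨0,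
  []⟩,⟨0,[]⟩⟩,[.a ⟨true,(-1),⟨0,[(5,0),(2,0)]⟩,⟨0,[(23,0),(19,0)]⟩⟩ ⟨false,1,⟨1,[(18,0),(0,0),(22,
  0)]⟩,⟨0,[]⟩⟩ ⟨true,0,⟨0,[(5,0),(2,0),(9,0)]⟩,⟨1,[(0,1),(5,0),(16,0),(11,1),(5,1)]⟩⟩,.o ⟨false,0,
  ⟨0,[(10,0)]⟩,⟨1,[(23,1),(6,0),(12,0)]⟩⟩,.o ⟨false,0,⟨3,[(0,2),(3,0),(33,0),(6,0)]⟩,⟨0,[(18,0)]⟩⟩,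
  .e ⟨false,1,⟨1,[(42,0),(0,0)]⟩,⟨1,[(25,0),(0,0)]⟩⟩ ⟨false,1,⟨3,[(8,1),(1,1),(7,3),(3,1),(14,0),(5,
  0)]⟩,⟨1,[(0,1),(5,0),(16,0),(11,1),(5,1)]⟩⟩]⟩))))))))))) (.I [0,0,-1,0,0,0,0,1] (.R ⟨2,true,false,
  false,[0,1],[0,0,1],[0,1,1,1],(⟨0,[]⟩,⟨0,[]⟩),(⟨0,[(19,0)]⟩,⟨0,[(18,0)]⟩),⟨0,[]⟩,.k,.k,.k,.k,.k,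
  .k,⟨false,0,⟨0,[(3,0),(12,0),(10,0)]⟩,⟨7,[(0,5),(3,1),(0,3),(15,1),(11,0),(0,4)]⟩⟩,⟨true,0,⟨0,
  [(16,0)]⟩,⟨0,[(2,0)]⟩⟩,⟨true,0,⟨0,[(36,0)]⟩,⟨0,[]⟩⟩,⟨false,1,⟨3,[(1,1),(3,1),(8,1),(6,0),(12,2)]⟩,
  ⟨0,[(3,0)]⟩⟩,⟨false,0,⟨0,[(32,0)]⟩,⟨3,[(5,1),(3,0),(0,0),(10,0),(12,1)]⟩⟩,⟨true,0,⟨0,[(1,0)]⟩,⟨0,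
  [(15,0)]⟩⟩,[]⟩) (.R ⟨2,true,false,false,[0,1],[0,0,1],[1,1,1],(⟨0,[]⟩,⟨0,[]⟩),(⟨0,[(19,0)]⟩,⟨0,
  [(18,0)]⟩),⟨0,[]⟩,.k,.k,.k,.k,.k,.k,⟨false,0,⟨0,[(0,0),(26,0)]⟩,⟨1,[(1,1),(11,1),(7,0),(12,0)]⟩⟩,
  ⟨true,0,⟨0,[(16,0)]⟩,⟨0,[(2,0)]⟩⟩,⟨true,0,⟨0,[(31,0)]⟩,⟨0,[(32,0)]⟩⟩,⟨false,1,⟨3,[(1,1),(3,1),(8,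
  1),(6,0),(12,2)]⟩,⟨0,[(3,0)]⟩⟩,⟨false,0,⟨0,[]⟩,⟨1,[(9,0),(0,0),(23,0)]⟩⟩,⟨true,0,⟨0,[(1,0)]⟩,⟨0,
  [(15,0)]⟩⟩,[]⟩))))

theorem ok3 : chk K t3 r2 = true := by decide +kernel

noncomputable def t4 : Tre :=
  .Q [0,0,0,-1,0,0,1,1,0,0,1] (.p true [0,0,1] [] (⟨0,[(15,0)]⟩,⟨0,[(14,0)]⟩) .k 0 (⟨0,[]⟩,⟨0,[]⟩)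
  .k .k) t2 t3

theorem ok4 : chk K t4 r1 = true :=
  chk_Q (e' := [0,0,0,1,0,0,-1,-1,0,0,-1]) (by decide +kernel) (by decide +kernel) ok2 ok3

noncomputable def t5 : Tre :=
  .I [1,-1,0,0,0,0,0,-1] t1 t4

theorem ok5 : chk K t5 r0 = true :=
  chk_I (e' := [0,1,0,0,0,0,0,1]) (by decide +kernel) (by decide +kernel) ok1 ok4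

noncomputable def t6 : Tre :=
  .Q [0,0,0,2,0,0,0,0,0,-1] (.pp true [-1,1]) t0 t5

theorem ok6 : chk K t6 base = true :=
  chk_Q (e' := [0,0,0,-2,0,0,0,0,0,1]) (by decide +kernel) (by decide +kernel) ok0 ok5

theorem closed {p a b c J l q : ℤ} {D dl : ℝ} {Cl : ℤ → ℤ → ℤ → ℤ → ℝ → Prop}
    (W : World p a b c J 1 l q D dl Cl) (g : G0 p a b c J D)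
    {N X R : ℤ} {I : ℝ} (hk : KCl p l Cl N X R I) (kz : KF a b D (X + (1 : ℤ) * I) (X + (1 : ℤ) * I + R) I)
    {Ne Xe : ℤ} {Ie : ℝ} (he : EFac p 1 D Cl 1 Ne Xe Ie)
    (hkf : ∀ kf ∈ (kfY 1 [0,0,0,0,0,0,1,0,0,0,1]), KOk p l Cl 1
      (xv [1, a, b, c, p, J, X, R, Xe] [D, I, Ie]) N kf)
    (h0 : 1 ≤ (c : ℝ))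
    (h1 : 1 ≤ 1 - (a : ℝ) + (b : ℝ))
    (h2 : 1 ≤ 2 * (a : ℝ) - (b : ℝ))
    (h3 : 0 < 1 - (p : ℝ) + 2 * D)
    (h4 : 1 ≤ 1 + (a : ℝ) - (b : ℝ))
    (h5 : 1 ≤ 1 - (a : ℝ) + (b : ℝ))
    (h6 : 1 ≤ -1 - 2 * (a : ℝ) + (p : ℝ))
    (h7 : 1 ≤ 2 * (a : ℝ) - (b : ℝ))
    (h8 : 1 ≤ 2 - (J : ℝ))
    (h9 : 0 < -(b : ℝ) - (X : ℝ) + D - I)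
    (h10 : 0 < -(J : ℝ) + I)
    (h11 : 0 < -(J : ℝ) + D - I)
    (h12 : 0 < -2 * (X : ℝ) + D - 2 * I) : False := by
  have g1 := g.a2
  have g2 := g.b2
  have g3 := g.pa
  have g4 := g.pb
  have g5 := g.J1
  have g6 := g.JD
  have g7 := g.D2
  have g8 := g.ca
  have g9 := g.ca'
  have k1 := kz.I0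
  have k2 := kz.ID
  have k3 := kz.z1
  have k4 := kz.z2
  have k5 := kz.s1
  have k6 := kz.s2
  have e1 := he.I0
  have e2 := he.ID
  have e3 := he.x0
  have e4 := he.xp
  push_cast at *
  refine (val_E W.toBase hk he (row := [1]) (by simp) (by simp) (kfY 1 [0,0,0,0,0,0,1,0,0,0,1])).sound W rfl (Nk := N)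
    (fun kf _ _ => ⟨_, rfl⟩) hkf ?_ ok6
  · simp only [base, List.forall_mem_cons, List.not_mem_nil, false_imp_iff, implies_true,
      and_true, hld, xv, evg_cons, evg_nil, List.map_cons, List.map_nil, List.cons_append,
      List.nil_append, if_true, if_false, Bool.false_eq_true]
    push_cast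
    refine ⟨?_, ?_, ?_, ?_, ?_, ?_, ?_, ?_, ?_, ?_, ?_, ?_, ?_, ?_, ?_, ?_, ?_, ?_, ?_, ?_, ?_, ?_, ?_, ?_, ?_, ?_, ?_, ?_, ?_, ?_, ?_⟩ <;> linarith

end Helper48.Y.Y11_c35_L2_m1n1_CB

namespace Helper48.Y.Y11_c35_L2_m1n1_CC

open Helper25.KG Helper25.KW Helper55.KE Helper11.CT

noncomputable def K : Cls :=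
  cE 1 [1] (kfY 1 [0,0,0,0,0,0,1,0,0,0,1])

noncomputable def base : List Con :=
  [(false,[0,0,0,0,0,0,-2,0,0,1,-2]),
  (false,[0,0,0,0,0,-1,0,0,0,1,-1]),
  (false,[0,0,0,0,0,-1,0,0,0,0,1]),
  (false,[0,0,0,0,1,0,0,0,-1,0,0,-1]),
  (false,[0,0,0,0,0,0,0,0,1,0,0,1]),
  (false,[0,0,0,0,0,0,0,0,0,1,0,-1]),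
  (false,[0,0,0,0,0,0,0,0,0,0,0,1]),
  (false,[0,0,-1,0,0,0,-1,0,0,1,-1]),
  (false,[0,1,0,0,0,0,1,1,0,0,1]),
  (false,[0,1,0,0,0,0,-1,-1,0,0,-1]),
  (false,[0,0,1,0,0,0,1,0,0,0,1]),
  (false,[0,0,1,0,0,0,-1,0,0,0,-1]),
  (false,[0,0,0,0,0,0,0,0,0,1,-1]),
  (false,[0,0,0,0,0,0,0,0,0,0,1]),
  (true,[2,0,0,0,0,-1]),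
  (false,[0,0,0,0,1,0,0,0,0,-2]),
  (false,[0,0,0,0,0,-1,0,0,0,1]),
  (true,[0,0,0,0,0,1]),
  (true,[0,2,-1]),
  (true,[0,-1,1]),
  (false,[1,0,0,0,-1,0,0,0,0,2]),
  (true,[0,2,-1]),
  (true,[1,-1,1]),
  (true,[0,1,0,-1]),
  (true,[0,0,0,1]),
  (true,[0,0,-2,0,1]),
  (true,[0,-2,0,0,1]),
  (true,[-1,0,1]),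
  (true,[-1,1])]

noncomputable def l0 : List Con := (false, [0,0,0,2,0,0,0,0,0,-1]) :: base

noncomputable def r0 : List Con := (false, [0,0,0,-2,0,0,0,0,0,1]) :: base

noncomputable def l1 : List Con := (true, [0,1,0,0,0,0,0,1]) :: r0

noncomputable def r1 : List Con := (true, [1,-1,0,0,0,0,0,-1]) :: r0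

noncomputable def l2 : List Con := (true, [1,-1,0,0,0,0,0,1]) :: l1

noncomputable def r2 : List Con := (true, [0,1,0,0,0,0,0,-1]) :: l1

noncomputable def t0 : Tre :=
  (.R ⟨2,true,false,true,[0,1],[1,-1],[1,0,1],(⟨0,[]⟩,⟨0,[]⟩),(⟨0,[(17,0)]⟩,⟨0,[(18,0)]⟩),⟨0,[]⟩,.k,
  .k,.k,(.r 1 ⟨0,[(0,1),(19,1),(0,0),(2,1)]⟩ ⟨0,[(24,1),(1,0),(0,0)]⟩),.k,.k,⟨false,0,⟨0,[(20,0),(4,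
  0)]⟩,⟨0,[(24,0),(1,0)]⟩⟩,⟨true,(-1),⟨0,[(0,0),(19,1),(0,0),(2,1)]⟩,⟨1,[(16,0),(9,0)]⟩⟩,⟨false,1,
  ⟨0,[(24,0),(2,0)]⟩,⟨0,[(25,0)]⟩⟩,⟨true,0,⟨1,[(21,0),(2,3),(2,0)]⟩,⟨0,[(0,0)]⟩⟩,⟨true,0,⟨0,[]⟩,⟨0,
  [(29,0)]⟩⟩,⟨false,0,⟨1,[(21,0),(2,1),(2,0)]⟩,⟨3,[(0,1),(3,0),(0,0),(10,0),(10,1)]⟩⟩,[]⟩)

theorem ok0 : chk K t0 l0 = true := by decide +kernel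

noncomputable def t1 : Tre :=
  (.I [0,1,-1,-1,1,0,0,-1] (.Q [0,0,0,0,0,0,1,1,0,0,1] (.p true [0,0,1] [] (⟨0,[(17,0)]⟩,⟨0,[(16,
  0)]⟩) .k 0 (⟨0,[]⟩,⟨0,[]⟩) .k .k) (.Q [0,0,0,-1,0,0,1,1,0,0,1] (.p true [0,0,1] [] (⟨0,[(18,0)]⟩,
  ⟨0,[(17,0)]⟩) .k 0 (⟨0,[]⟩,⟨0,[]⟩) .k .k) (.I [1,0,-1,-1,1,0,0,-1] (.I [1,0,1,0,0,0,0,-1] (.Q [0,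
  0,0,2,0,0,-1,-1,0,0,-1] (.p false [0,0,1] [] (⟨0,[(21,0)]⟩,⟨0,[(20,0)]⟩) .k 0 (⟨0,[]⟩,⟨0,[]⟩) .k
  .k) (.Q [0,0,0,-2,0,0,-1,-1,0,1,-1] (.p false [0,0,1] [1] (⟨0,[(22,0)]⟩,⟨0,[(21,0)]⟩) .k 1 (⟨0,
  []⟩,⟨0,[]⟩) .k .k) (.I [0,0,-2,-2,1,0,0,1] (.R ⟨1,false,false,false,[0,0,1],[0,1],[1,1,1],(⟨0,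
  [(24,0)]⟩,⟨0,[(23,0)]⟩),(⟨0,[(28,0)]⟩,⟨0,[(27,0)]⟩),⟨0,[(13,0)]⟩,.k,.k,.k,.k,(.r (-1) ⟨0,[(0,0)]⟩
  ⟨1,[(2,1),(18,2),(0,0)]⟩),.k,⟨true,0,⟨0,[(34,0)]⟩,⟨0,[(30,0),(4,0)]⟩⟩,⟨false,1,⟨0,[(0,0),(1,0)]⟩,
  ⟨0,[(21,0)]⟩⟩,⟨false,0,⟨0,[(3,0)]⟩,⟨1,[(8,0),(0,0),(26,0),(0,0)]⟩⟩,⟨false,1,⟨2,[(2,1),(4,0),(14,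
  0),(14,1)]⟩,⟨0,[(5,0)]⟩⟩,⟨false,0,⟨1,[(2,0),(0,0),(17,0)]⟩,⟨3,[(0,1),(7,0),(0,0),(27,1)]⟩⟩,⟨true,
  0,⟨0,[(2,0)]⟩,⟨0,[(5,0),(28,0)]⟩⟩,[.a ⟨true,0,⟨0,[(35,0)]⟩,⟨8,[(7,0),(2,3),(0,0),(7,0),(1,0),(9,
  1),(5,0)]⟩⟩ ⟨false,0,⟨0,[(39,0)]⟩,⟨1,[(36,0),(0,0)]⟩⟩ ⟨true,0,⟨3,[(2,1),(5,2),(11,0),(1,0),(6,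
  0)]⟩,⟨0,[(3,0),(1,0)]⟩⟩,.o ⟨false,1,⟨1,[(26,0),(8,1),(1,0)]⟩,⟨0,[(34,0)]⟩⟩,.o ⟨false,1,⟨1,[(21,1),
  (4,0),(9,0)]⟩,⟨0,[(8,0),(11,0)]⟩⟩,.e ⟨false,0,⟨0,[]⟩,⟨1,[(14,0),(0,0),(21,0)]⟩⟩ ⟨false,1,⟨7,[(2,
  3),(5,2),(0,0),(1,1),(14,0),(9,3),(0,2)]⟩,⟨0,[(3,0),(1,0)]⟩⟩]⟩) (.R ⟨1,false,false,false,[0,0,1],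
  [0,1],[1,1,1],(⟨0,[(24,0)]⟩,⟨0,[(23,0)]⟩),(⟨0,[(28,0)]⟩,⟨0,[(27,0)]⟩),⟨0,[(13,0)]⟩,.k,.k,.k,.k,
  (.x 0 ⟨1,[(0,0),(4,0),(15,0),(1,1),(2,0),(1,3),(1,0),(3,0)]⟩ ⟨2,[(1,0),(0,0),(5,1),(4,2),(4,0),(6,
  2),(0,0),(2,0),(6,1)]⟩),.k,⟨true,0,⟨0,[(34,0)]⟩,⟨3,[(0,1),(7,0),(0,0),(27,1)]⟩⟩,⟨false,1,⟨1,[(18,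
  1),(7,0),(9,0)]⟩,⟨0,[(21,0)]⟩⟩,⟨false,0,⟨0,[(3,0)]⟩,⟨1,[(8,0),(0,0),(26,0),(0,0)]⟩⟩,⟨false,1,⟨2,
  [(2,1),(4,0),(14,0),(14,1)]⟩,⟨0,[(5,0)]⟩⟩,⟨false,0,⟨5,[(0,3),(6,1),(6,0),(0,0),(21,0)]⟩,⟨3,[(8,2),
  (0,0),(0,1),(15,0),(9,1),(0,0)]⟩⟩,⟨true,0,⟨0,[(2,0)]⟩,⟨0,[(5,0),(28,0)]⟩⟩,[.a ⟨true,0,⟨0,[(35,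
  0)]⟩,⟨8,[(7,0),(2,3),(0,0),(7,0),(1,0),(9,1),(5,0)]⟩⟩ ⟨false,0,⟨0,[(39,0)]⟩,⟨1,[(36,0),(0,0)]⟩⟩
  ⟨true,0,⟨7,[(0,0),(1,2),(5,4),(2,1),(8,0),(5,0),(2,1)]⟩,⟨0,[(3,0),(1,0)]⟩⟩,.o ⟨false,1,⟨1,[(26,0),
  (8,1),(1,0)]⟩,⟨0,[(34,0)]⟩⟩,.o ⟨false,1,⟨1,[(21,1),(4,0),(9,0)]⟩,⟨0,[(8,0),(11,0)]⟩⟩,.e ⟨false,0,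
  ⟨0,[]⟩,⟨1,[(14,0),(0,0),(21,0)]⟩⟩ ⟨false,1,⟨7,[(2,3),(5,2),(0,0),(1,1),(14,0),(9,3),(0,2)]⟩,⟨0,
  [(3,0),(1,0)]⟩⟩]⟩)) (.I [1,0,2,2,-1] (.R ⟨1,false,false,false,[0,0,1],[0,1],[1,1,1],(⟨0,[(24,0)]⟩,
  ⟨0,[(23,0)]⟩),(⟨0,[(28,0)]⟩,⟨0,[(27,0)]⟩),⟨0,[(13,0)]⟩,.k,.k,.k,.k,(.x 0 ⟨1,[(0,0),(2,1),(1,1),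
  (17,1),(2,0),(1,3)]⟩ ⟨0,[(8,0),(4,0),(6,0),(4,0),(10,0)]⟩),.k,⟨true,0,⟨0,[(34,0)]⟩,⟨1,[(0,0),(36,
  0)]⟩⟩,⟨false,1,⟨1,[(18,1),(7,0),(9,0)]⟩,⟨0,[(21,0)]⟩⟩,⟨false,0,⟨0,[(3,0)]⟩,⟨1,[(8,0),(0,0),(26,0),
  (0,0)]⟩⟩,⟨false,1,⟨2,[(2,1),(4,0),(14,0),(14,1)]⟩,⟨0,[(5,0)]⟩⟩,⟨false,0,⟨1,[(2,0),(0,0),(17,0)]⟩,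
  ⟨3,[(8,2),(0,0),(0,1),(15,0),(9,1),(0,0)]⟩⟩,⟨true,0,⟨0,[(2,0)]⟩,⟨0,[(5,0),(28,0)]⟩⟩,[.a ⟨true,0,
  ⟨0,[(35,0)]⟩,⟨8,[(7,0),(2,3),(0,0),(7,0),(1,0),(9,1),(5,0)]⟩⟩ ⟨false,0,⟨0,[(39,0)]⟩,⟨1,[(36,0),(0,
  0)]⟩⟩ ⟨true,0,⟨3,[(1,0),(0,0),(5,1),(2,0),(8,1)]⟩,⟨0,[(3,0),(1,0)]⟩⟩,.o ⟨false,1,⟨7,[(1,1),(0,1),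
  (11,0),(0,0),(10,2),(10,3)]⟩,⟨0,[(34,0)]⟩⟩,.o ⟨false,1,⟨7,[(1,1),(2,3),(14,1),(1,3),(4,2),(10,
  0)]⟩,⟨0,[(8,0),(11,0)]⟩⟩,.e ⟨false,0,⟨0,[]⟩,⟨1,[(14,0),(0,0),(21,0)]⟩⟩ ⟨false,1,⟨7,[(1,0),(0,2),
  (5,1),(2,2),(14,0),(9,3),(0,2)]⟩,⟨0,[(3,0),(1,0)]⟩⟩]⟩) (.R ⟨1,false,false,false,[0,0,1],[0,1],[1,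
  1,1],(⟨0,[(24,0)]⟩,⟨0,[(23,0)]⟩),(⟨0,[(28,0)]⟩,⟨0,[(27,0)]⟩),⟨0,[(13,0)]⟩,.k,.k,.k,.k,(.r (-1) ⟨1,
  [(0,1),(7,0),(0,0)]⟩ ⟨1,[(2,1),(18,2),(0,0)]⟩),.k,⟨true,0,⟨0,[(34,0)]⟩,⟨7,[(1,1),(0,1),(18,0),(0,
  0),(7,5),(0,0),(5,0)]⟩⟩,⟨false,1,⟨1,[(18,1),(7,0),(9,0)]⟩,⟨0,[(21,0)]⟩⟩,⟨false,0,⟨0,[(3,0)]⟩,⟨1,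
  [(8,0),(0,0),(26,0),(0,0)]⟩⟩,⟨false,1,⟨2,[(2,1),(4,0),(14,0),(14,1)]⟩,⟨0,[(5,0)]⟩⟩,⟨false,0,⟨1,
  [(2,0),(0,0),(17,0)]⟩,⟨1,[(0,0),(7,0),(0,0),(27,0)]⟩⟩,⟨true,0,⟨0,[(2,0)]⟩,⟨0,[(5,0),(28,0)]⟩⟩,[.a
  ⟨true,0,⟨0,[(35,0)]⟩,⟨8,[(7,0),(2,3),(0,0),(7,0),(1,0),(9,1),(5,0)]⟩⟩ ⟨false,0,⟨0,[(39,0)]⟩,⟨1,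
  [(36,0),(0,0)]⟩⟩ ⟨true,0,⟨3,[(1,0),(0,0),(5,1),(2,0),(8,1)]⟩,⟨0,[(3,0),(1,0)]⟩⟩,.o ⟨false,1,⟨7,
  [(1,1),(0,1),(11,0),(0,0),(10,2),(10,3)]⟩,⟨0,[(34,0)]⟩⟩,.o ⟨false,1,⟨7,[(1,1),(2,3),(14,1),(1,3),
  (4,2),(10,0)]⟩,⟨0,[(8,0),(11,0)]⟩⟩,.e ⟨false,0,⟨0,[]⟩,⟨1,[(14,0),(0,0),(21,0)]⟩⟩ ⟨false,1,⟨7,[(1,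
  0),(0,2),(5,1),(2,2),(14,0),(9,3),(0,2)]⟩,⟨0,[(3,0),(1,0)]⟩⟩]⟩))) (.I [0,1,0,1,0,0,0,-1] (.Q [0,1,
  0,0,0,0,1,1,0,-1,1] (.p true [0,0,1] [1] (⟨0,[(23,0)]⟩,⟨0,[(22,0)]⟩) .k 1 (⟨0,[]⟩,⟨0,[]⟩) .k .k)
  (.Q [0,0,1,0,-1,0,-1,0,0,1,-1] (.p false [0,0,1] [1] (⟨0,[(24,0)]⟩,⟨0,[(23,0)]⟩) .k 1 (⟨0,[]⟩,⟨0,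
  []⟩) .k .k) (.S ⟨1,0,[0,0,0,0,0,0,0,-1],[1,0,-1],[1,1,0,-1,0,0,0,-1],(⟨0,[(24,0)]⟩,⟨0,[(25,0)]⟩),
  ⟨0,[(13,0)]⟩,.k,.k,⟨true,0,⟨0,[(35,0)]⟩,⟨0,[(36,0)]⟩⟩,⟨false,1,⟨1,[(15,0),(0,0),(21,0)]⟩,⟨0,[]⟩⟩,
  ⟨false,0,⟨0,[]⟩,⟨1,[(15,0),(0,0),(21,0)]⟩⟩,⟨true,0,⟨0,[(36,0)]⟩,⟨0,[(35,0)]⟩⟩,[.e ⟨false,1,⟨0,[(8,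
  0)]⟩,⟨0,[(9,0),(26,0)]⟩⟩ ⟨false,1,⟨3,[(2,1),(2,1),(31,0),(0,0)]⟩,⟨1,[(9,0),(0,0)]⟩⟩,.o ⟨false,1,
  ⟨0,[(21,0),(16,0)]⟩,⟨0,[(1,0)]⟩⟩,.o ⟨false,0,⟨1,[(0,0),(18,0),(7,0)]⟩,⟨1,[(22,1),(4,0),(9,0)]⟩⟩,
  .a ⟨true,(-1),⟨0,[(0,0)]⟩,⟨0,[(22,0),(14,0)]⟩⟩ ⟨false,1,⟨0,[(5,0)]⟩,⟨2,[(9,1),(10,0),(2,0),(7,1),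
  (4,2)]⟩⟩ ⟨true,1,⟨3,[(2,1),(2,1),(31,0),(0,0)]⟩,⟨0,[(0,0),(0,0)]⟩⟩]⟩) (.I [0,0,1,1,-1,0,0,2] (.Q
  [0,0,-1,0,1,0,2,0,0,-1,2] (.p true [0,0,1] [1,0,-1] (⟨0,[(26,0)]⟩,⟨0,[(25,0)]⟩) .k 2 (⟨0,[(25,
  0)]⟩,⟨0,[(26,0)]⟩) .k (.r 0 ⟨0,[(10,0),(0,0)]⟩ ⟨2,[(3,1),(1,1),(0,1),(32,0)]⟩)) (.K ⟨0,[1,-1,-1],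
  (-1),0,(⟨0,[(15,0)]⟩,⟨0,[(27,0),(3,0)]⟩),.k,(.r (-2) ⟨11,[(5,3),(1,9),(2,5),(3,1),(14,0),(9,3),(0,
  2)]⟩ ⟨0,[(1,0),(4,0),(31,0)]⟩),.k,(.r (-2) ⟨2,[(4,0),(1,0),(0,0),(2,2),(29,1)]⟩ ⟨0,[(1,0)]⟩),.k,
  [⟨0,[(0,0)]⟩,⟨2,[(1,1),(4,0),(6,0),(9,2),(9,2),(0,0)]⟩,⟨0,[(3,0),(34,0)]⟩,⟨2,[(10,0),(2,0),(9,1),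
  (1,0),(8,0)]⟩]⟩) (.Q [0,0,1,1,0,0,2,1,0,-1,2] (.p true [0,0,1] [1,0,-1] (⟨0,[(27,0)]⟩,⟨0,[(26,
  0)]⟩) .k 2 (⟨0,[(26,0)]⟩,⟨0,[(27,0)]⟩) .k (.r 0 ⟨0,[(11,0),(0,0)]⟩ ⟨2,[(4,1),(1,1),(0,1),(32,
  0)]⟩)) (.I [0,1,1,1,-1,0,0,1] (.R ⟨1,false,false,true,[1,0,-1],[1,-1],[1,0,0,-1,0,0,0,-1],(⟨0,
  [(28,0)]⟩,⟨0,[(29,0)]⟩),(⟨0,[(32,0)]⟩,⟨0,[(33,0)]⟩),⟨0,[(17,0)]⟩,.k,.k,.k,.k,.k,.k,⟨false,1,⟨2,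
  [(6,0),(1,0),(0,0),(32,1)]⟩,⟨0,[(13,0),(20,0)]⟩⟩,⟨true,0,⟨0,[(26,0)]⟩,⟨3,[(2,1),(28,0),(9,0)]⟩⟩,
  ⟨false,1,⟨2,[(7,0),(4,0),(14,0),(14,1)]⟩,⟨0,[(40,0)]⟩⟩,⟨false,0,⟨0,[(10,0)]⟩,⟨0,[(25,0),(14,0),(1,
  0)]⟩⟩,⟨true,0,⟨0,[]⟩,⟨0,[(44,0)]⟩⟩,⟨false,0,⟨0,[(11,0)]⟩,⟨0,[(25,0),(16,0)]⟩⟩,[.o ⟨false,0,⟨0,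
  [(39,0)]⟩,⟨1,[(31,0),(8,1),(1,0)]⟩⟩,.a ⟨true,0,⟨8,[(12,0),(2,3),(0,0),(7,0),(1,0),(9,1),(5,0)]⟩,
  ⟨0,[(40,0)]⟩⟩ ⟨true,1,⟨0,[(9,0),(25,0)]⟩,⟨0,[(0,0)]⟩⟩ ⟨false,1,⟨4,[(4,1),(2,0),(1,2),(14,1),(11,
  0),(5,0)]⟩,⟨3,[(2,1),(28,0),(8,3),(0,0)]⟩⟩,.o ⟨false,0,⟨3,[(2,1),(28,0),(9,0)]⟩,⟨3,[(1,1),(10,1),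
  (18,0),(10,0)]⟩⟩,.o ⟨false,0,⟨0,[(27,0)]⟩,⟨0,[(4,0)]⟩⟩]⟩) (.S ⟨1,0,[0,1,0,0,0,0,0,1],[0,0,1],[0,0,
  0,0,0,0,0,1],(⟨0,[(29,0)]⟩,⟨0,[(28,0)]⟩),⟨0,[(18,0)]⟩,.k,.k,⟨false,1,⟨1,[(19,0),(0,0),(21,0)]⟩,⟨0,
  []⟩⟩,⟨true,0,⟨0,[(44,0)]⟩,⟨0,[]⟩⟩,⟨true,0,⟨0,[(40,0)]⟩,⟨0,[(39,0)]⟩⟩,⟨false,0,⟨0,[(40,0)]⟩,⟨2,[(7,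
  0),(4,0),(14,0),(14,1)]⟩⟩,[.o ⟨false,0,⟨0,[(5,0)]⟩,⟨0,[(25,0),(16,0)]⟩⟩,.e ⟨true,0,⟨0,[(0,0),(2,
  0)]⟩,⟨0,[(8,0),(35,0)]⟩⟩ ⟨true,0,⟨1,[(13,0),(0,0)]⟩,⟨0,[(8,0)]⟩⟩,.o ⟨false,1,⟨3,[(1,1),(10,1),(18,
  0),(10,0)]⟩,⟨3,[(2,1),(28,0),(9,0)]⟩⟩,.a ⟨true,0,⟨0,[(26,0)]⟩,⟨0,[(23,0)]⟩⟩ ⟨false,1,⟨1,[(13,0),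
  (0,0),(26,0),(0,0)]⟩,⟨0,[(8,0)]⟩⟩ ⟨true,0,⟨0,[(13,0),(20,0)]⟩,⟨0,[(8,0)]⟩⟩]⟩)) (.R ⟨1,false,false,
  false,[1,-1],[1,0,-1],[0,1,-1,-1],(⟨0,[(31,0)]⟩,⟨0,[(32,0)]⟩),(⟨0,[(27,0)]⟩,⟨0,[(28,0)]⟩),⟨0,[(16,
  0),(0,0)]⟩,.k,.k,(.r (-1) ⟨2,[(0,1),(2,1),(2,1),(33,0)]⟩ ⟨0,[(25,0),(0,0),(12,1)]⟩),.k,(.r (-1)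
  ⟨9,[(0,3),(5,7),(5,2),(0,2),(16,1),(9,7)]⟩ ⟨1,[(7,1),(17,0),(0,0),(12,3)]⟩),.k,⟨true,0,⟨6,[(0,2),
  (1,1),(1,2),(1,2),(26,1),(6,1)]⟩,⟨0,[(7,0),(26,0),(4,0)]⟩⟩,⟨false,1,⟨3,[(1,1),(28,0),(9,4)]⟩,⟨0,
  [(25,0)]⟩⟩,⟨true,0,⟨0,[(43,0)]⟩,⟨0,[]⟩⟩,⟨false,1,⟨11,[(0,1),(0,1),(3,9),(9,1),(14,2),(8,3),(1,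
  10)]⟩,⟨0,[(9,0)]⟩⟩,⟨false,0,⟨0,[(39,0)]⟩,⟨2,[(6,0),(4,0),(14,0),(14,1)]⟩⟩,⟨false,1,⟨11,[(0,1),(0,
  1),(3,9),(9,1),(14,2),(8,15),(1,10)]⟩,⟨0,[(6,0)]⟩⟩,[.e ⟨false,1,⟨13,[(0,1),(5,3),(4,3),(1,1),(16,
  0),(2,3),(6,8)]⟩,⟨0,[(34,0),(4,0)]⟩⟩ ⟨false,1,⟨0,[(0,0),(2,0),(35,0)]⟩,⟨17,[(2,3),(3,1),(16,7),(1,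
  10),(0,2),(14,3)]⟩⟩,.o ⟨false,1,⟨0,[(24,0),(16,0)]⟩,⟨0,[(4,0)]⟩⟩,.o ⟨false,0,⟨1,[(25,0),(0,0)]⟩,
  ⟨1,[(30,0),(9,0)]⟩⟩,.a ⟨true,(-1),⟨5,[(1,1),(0,1),(3,0),(0,4),(17,2),(9,1)]⟩,⟨0,[(40,0)]⟩⟩ ⟨false,
  1,⟨2,[(0,0),(2,0),(2,0),(33,1)]⟩,⟨1,[(25,0),(0,0),(7,1),(4,1)]⟩⟩ ⟨true,1,⟨0,[(0,0),(2,0),(35,0)]⟩,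
  ⟨5,[(2,3),(1,3),(1,0),(0,6),(17,0),(9,1),(2,1)]⟩⟩]⟩))) (.Q [0,-1,0,1,0,0,-1,-1,0,1,-1] (.p false
  [0,0,1] [1] (⟨0,[(26,0)]⟩,⟨0,[(25,0)]⟩) .k 1 (⟨0,[]⟩,⟨0,[]⟩) .k .k) (.R ⟨2,true,false,false,[0,1],
  [1,1,-1],[0,0,1,1],(⟨0,[]⟩,⟨0,[]⟩),(⟨0,[(26,0),(4,0)]⟩,⟨0,[(16,0)]⟩),⟨0,[]⟩,.k,.k,.k,.k,.k,.k,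
  ⟨true,0,⟨1,[(11,0),(0,0)]⟩,⟨0,[(6,0)]⟩⟩,⟨false,0,⟨0,[(21,0)]⟩,⟨3,[(2,1),(14,0),(0,0),(5,1),(4,
  0)]⟩⟩,⟨false,1,⟨1,[(17,0),(0,0),(21,0)]⟩,⟨0,[]⟩⟩,⟨true,0,⟨6,[(0,2),(5,0),(3,0),(2,0),(0,0),(8,1),
  (10,0)]⟩,⟨0,[(3,0)]⟩⟩,⟨true,0,⟨0,[(38,0)]⟩,⟨0,[(37,0)]⟩⟩,⟨false,0,⟨0,[(0,0)]⟩,⟨17,[(5,7),(4,1),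
  (11,11),(2,1),(3,8),(10,6)]⟩⟩,[]⟩) (.Q [0,0,-2,0,1,0,-1,-1,0,0,-1] (.p false [0,0,1] [] (⟨0,[(27,
  0)]⟩,⟨0,[(26,0)]⟩) .k 0 (⟨0,[]⟩,⟨0,[]⟩) .k .k) (.R ⟨1,false,false,false,[1,-1],[1,0,-1],[0,1,-1,
  -1],(⟨0,[(31,0)]⟩,⟨0,[(32,0)]⟩),(⟨0,[(27,0)]⟩,⟨0,[(28,0)]⟩),⟨0,[(16,0),(0,0)]⟩,.k,.k,(.r (-1) ⟨0,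
  [(0,0),(5,0)]⟩ ⟨0,[(25,0),(0,0),(12,1)]⟩),.k,(.r (-1) ⟨5,[(0,2),(0,1),(4,4),(5,1),(2,1),(24,2)]⟩
  ⟨1,[(7,1),(17,0),(0,0),(12,3)]⟩),.k,⟨true,0,⟨0,[(1,0),(20,0)]⟩,⟨0,[(7,0),(26,0),(4,0)]⟩⟩,⟨false,1,
  ⟨1,[(0,1),(11,0),(0,0)]⟩,⟨0,[(25,0)]⟩⟩,⟨true,0,⟨0,[(43,0)]⟩,⟨0,[]⟩⟩,⟨false,1,⟨0,[(24,0),(14,0),(1,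
  0)]⟩,⟨0,[(9,0)]⟩⟩,⟨false,0,⟨0,[(39,0)]⟩,⟨2,[(6,0),(4,0),(14,0),(14,1)]⟩⟩,⟨false,1,⟨0,[(24,0),(14,
  1),(1,0)]⟩,⟨0,[(6,0)]⟩⟩,[.e ⟨false,1,⟨7,[(0,2),(5,2),(4,1),(1,1),(19,1),(6,2)]⟩,⟨0,[(34,0),(4,
  0)]⟩⟩ ⟨false,1,⟨0,[(0,0)]⟩,⟨0,[(23,0),(10,0)]⟩⟩,.o ⟨false,1,⟨0,[(24,0),(16,0)]⟩,⟨0,[(4,0)]⟩⟩,.o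
  ⟨false,0,⟨1,[(25,0),(0,0)]⟩,⟨1,[(30,0),(9,0)]⟩⟩,.a ⟨true,(-1),⟨0,[(4,0),(19,0),(9,1),(0,0)]⟩,⟨0,
  [(40,0)]⟩⟩ ⟨false,1,⟨1,[(0,0),(5,0),(33,0)]⟩,⟨1,[(25,0),(0,0),(7,1),(4,1)]⟩⟩ ⟨true,1,⟨0,[(0,0)]⟩,
  ⟨0,[(4,1),(19,0),(9,1),(0,0)]⟩⟩]⟩) (.R ⟨1,false,false,false,[1,-1],[1,0,-1],[0,1,-1,-1],(⟨0,[(31,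
  0)]⟩,⟨0,[(32,0)]⟩),(⟨0,[(27,0)]⟩,⟨0,[(28,0)]⟩),⟨0,[(16,0),(0,0)]⟩,.k,.k,(.r (-1) ⟨0,[(1,0),(0,0),
  (9,0),(9,0)]⟩ ⟨0,[(25,0),(0,0),(12,1)]⟩),.k,(.r (-1) ⟨1,[(6,1),(15,1),(7,0),(9,0)]⟩ ⟨1,[(7,1),(17,
  0),(0,0),(12,3)]⟩),.k,⟨true,0,⟨0,[(1,0),(20,0)]⟩,⟨0,[(7,0),(26,0),(4,0)]⟩⟩,⟨false,1,⟨1,[(22,1),(7,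
  0),(9,0)]⟩,⟨0,[(25,0)]⟩⟩,⟨true,0,⟨0,[(43,0)]⟩,⟨0,[]⟩⟩,⟨false,1,⟨0,[(24,0),(14,0),(1,0)]⟩,⟨0,[(9,
  0)]⟩⟩,⟨false,0,⟨0,[(39,0)]⟩,⟨2,[(6,0),(4,0),(14,0),(14,1)]⟩⟩,⟨false,1,⟨0,[(24,0),(14,1),(1,0)]⟩,
  ⟨0,[(6,0)]⟩⟩,[.a ⟨true,0,⟨1,[(24,1),(10,0),(5,0)]⟩,⟨0,[(10,0)]⟩⟩ ⟨false,1,⟨4,[(1,0),(4,0),(1,1),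
  (6,0),(17,1),(6,2)]⟩,⟨0,[(34,0),(4,0)]⟩⟩ ⟨true,1,⟨1,[(24,1),(15,0),(0,0)]⟩,⟨0,[(0,0)]⟩⟩,.o ⟨false,
  1,⟨0,[(24,0),(16,0)]⟩,⟨0,[(4,0)]⟩⟩,.o ⟨false,0,⟨1,[(25,0),(0,0)]⟩,⟨1,[(30,0),(9,0)]⟩⟩,.e ⟨false,1,
  ⟨1,[(1,0),(0,0),(9,0),(9,0),(17,0)]⟩,⟨1,[(0,0),(6,0),(18,0),(12,1),(1,0)]⟩⟩ ⟨false,2,⟨0,[(24,0),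
  (15,0),(0,0)]⟩,⟨0,[(0,0)]⟩⟩]⟩))))) (.S ⟨1,0,[0,1,0,0,0,0,0,1],[0,0,1],[0,1],(⟨0,[(24,0)]⟩,⟨0,[(23,
  0)]⟩),⟨0,[(13,0)]⟩,.k,.k,⟨false,1,⟨2,[(1,0),(1,0),(3,0),(6,0),(0,0),(21,0)]⟩,⟨0,[(8,0)]⟩⟩,⟨true,0,
  ⟨0,[(39,0)]⟩,⟨0,[]⟩⟩,⟨true,0,⟨0,[(1,0)]⟩,⟨0,[(8,0),(25,0)]⟩⟩,⟨false,0,⟨0,[(35,0)]⟩,⟨2,[(2,0),(4,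
  0),(14,0),(14,1)]⟩⟩,[.a ⟨true,0,⟨0,[(19,0)]⟩,⟨0,[(0,0)]⟩⟩ ⟨true,0,⟨0,[(39,0)]⟩,⟨0,[(33,0)]⟩⟩
  ⟨false,0,⟨0,[(8,0),(20,0)]⟩,⟨2,[(1,0),(1,0),(0,0),(32,1)]⟩⟩,.a ⟨true,0,⟨0,[(6,0)]⟩,⟨11,[(0,4),(0,
  1),(1,1),(3,1),(3,2),(8,0),(10,1)]⟩⟩ ⟨false,1,⟨1,[(14,0),(0,0),(20,0)]⟩,⟨0,[]⟩⟩ ⟨true,0,⟨1,[(8,0),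
  (0,0)]⟩,⟨0,[(3,0)]⟩⟩,.o ⟨false,1,⟨1,[(21,1),(4,0),(9,0)]⟩,⟨0,[(8,0),(11,0)]⟩⟩,.a ⟨true,0,⟨0,[(21,
  0)]⟩,⟨0,[(18,0)]⟩⟩ ⟨false,1,⟨1,[(14,0),(0,0),(20,0)]⟩,⟨0,[(33,0)]⟩⟩ ⟨true,0,⟨0,[(8,0),(20,0)]⟩,⟨0,
  [(3,0)]⟩⟩]⟩)) (.Q [0,0,1,0,-1,0,-1,0,0,1,-1] (.p false [0,0,1] [1] (⟨0,[(23,0)]⟩,⟨0,[(22,0)]⟩) .k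
  1 (⟨0,[]⟩,⟨0,[]⟩) .k .k) (.R ⟨1,false,false,true,[0,0,1],[1,-1],[1,0,0,-1,0,0,0,1],(⟨0,[(24,0)]⟩,
  ⟨0,[(23,0)]⟩),(⟨0,[(27,0)]⟩,⟨0,[(28,0)]⟩),⟨0,[(13,0)]⟩,.k,.k,.k,.k,.k,.k,⟨false,0,⟨0,[(8,0)]⟩,⟨0,
  [(7,0),(27,0)]⟩⟩,⟨true,(-1),⟨0,[(0,0)]⟩,⟨1,[(21,1),(4,0),(9,0)]⟩⟩,⟨false,1,⟨2,[(2,0),(4,0),(14,0),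
  (14,1)]⟩,⟨0,[(35,0)]⟩⟩,⟨false,0,⟨0,[(0,0),(3,0)]⟩,⟨1,[(6,1),(19,0),(8,1),(1,0)]⟩⟩,⟨true,0,⟨0,[]⟩,
  ⟨0,[(39,0)]⟩⟩,⟨false,0,⟨1,[(20,1),(10,0),(5,0)]⟩,⟨1,[(6,1),(19,0),(10,0)]⟩⟩,[.o ⟨false,0,⟨0,[(34,
  0)]⟩,⟨1,[(26,0),(8,1),(1,0)]⟩⟩,.a ⟨true,0,⟨8,[(7,0),(2,3),(0,0),(7,0),(1,0),(9,1),(5,0)]⟩,⟨0,[(35,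
  0)]⟩⟩ ⟨true,0,⟨0,[(1,0)]⟩,⟨0,[(3,0),(31,0),(3,0)]⟩⟩ ⟨false,0,⟨1,[(1,1),(18,1),(10,0),(4,0)]⟩,⟨1,
  [(21,1),(4,0),(8,1),(0,0)]⟩⟩,.o ⟨false,1,⟨1,[(21,1),(4,0),(9,0)]⟩,⟨1,[(0,0),(17,0),(7,0)]⟩⟩,.e
  ⟨false,1,⟨13,[(1,5),(0,3),(6,3),(1,1),(14,0),(9,6),(0,5)]⟩,⟨0,[(3,0),(31,0)]⟩⟩ ⟨false,0,⟨1,[(1,1),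
  (18,1),(10,0),(4,0)]⟩,⟨1,[(21,1),(4,0),(8,1),(1,0)]⟩⟩]⟩) (.Q [0,0,-2,-1,0,0,-1,0,0,1,-1] (.p
  false [0,0,1] [1] (⟨0,[(24,0)]⟩,⟨0,[(23,0)]⟩) .k 1 (⟨0,[]⟩,⟨0,[]⟩) .k .k) (.Q [0,0,0,0,0,2,0,0,0,
  0,-1] (.p false [0,0,1] [] (⟨0,[(25,0)]⟩,⟨0,[(24,0)]⟩) .k 0 (⟨0,[]⟩,⟨0,[]⟩) .k .k) (.R ⟨0,false,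
  false,true,[0,-1,1],[1,-1],[1],(⟨0,[(15,0)]⟩,⟨41,[(0,20),(8,1),(3,0),(2,5),(0,5),(3,1),(3,20),(7,
  9),(3,1),(1,1),(0,1)]⟩),(⟨0,[(29,0)]⟩,⟨0,[(30,0)]⟩),⟨0,[(0,0)]⟩,.k,.k,(.r (-1) ⟨9,[(1,3),(2,7),(6,
  1),(1,1),(14,2),(9,5),(0,0)]⟩ ⟨1,[(5,1),(17,0),(0,0),(12,3)]⟩),.k,.k,.k,⟨true,0,⟨0,[(32,0),(4,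
  0)]⟩,⟨0,[(36,0)]⟩⟩,⟨false,0,⟨0,[(20,0)]⟩,⟨3,[(2,1),(13,0),(0,0),(5,1),(4,0)]⟩⟩,⟨true,0,⟨0,[(5,0),
  (31,0)]⟩,⟨0,[(3,0),(27,0)]⟩⟩,⟨false,0,⟨1,[(22,1),(10,0),(5,0)]⟩,⟨1,[(8,1),(19,0),(10,0)]⟩⟩,⟨false,
  0,⟨0,[]⟩,⟨0,[]⟩⟩,⟨false,0,⟨0,[]⟩,⟨0,[]⟩⟩,[.o ⟨false,0,⟨0,[(36,0)]⟩,⟨1,[(28,0),(8,1),(1,0)]⟩⟩,.e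
  ⟨false,1,⟨1,[(38,0),(0,0)]⟩,⟨0,[(41,0)]⟩⟩ ⟨false,0,⟨0,[(1,0)]⟩,⟨1,[(16,0),(0,0),(5,1),(4,0),(8,
  1)]⟩⟩,.a ⟨true,0,⟨0,[(23,0)]⟩,⟨0,[(20,0)]⟩⟩ ⟨true,0,⟨0,[]⟩,⟨0,[(41,0)]⟩⟩ ⟨false,0,⟨3,[(1,1),(10,
  0),(0,0)]⟩,⟨1,[(23,1),(4,0),(8,1),(1,0)]⟩⟩,.e ⟨false,1,⟨1,[(38,0),(0,0)]⟩,⟨1,[(23,0),(0,0)]⟩⟩
  ⟨false,0,⟨0,[(1,0)]⟩,⟨1,[(23,2),(0,0),(3,0),(8,1),(1,0)]⟩⟩]⟩) (.R ⟨1,false,false,true,[0,-1,1],[1,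
  -1],[0,1,-1,-1,0,0,0,1],(⟨0,[(15,0)]⟩,⟨0,[(25,0),(4,0)]⟩),(⟨0,[(29,0)]⟩,⟨0,[(30,0)]⟩),⟨0,[(0,0)]⟩,
  .k,.k,(.r (-1) ⟨9,[(1,3),(2,7),(6,1),(1,1),(14,2),(9,5),(0,0)]⟩ ⟨1,[(5,1),(17,0),(0,0),(12,3)]⟩),
  .k,.k,.k,⟨true,0,⟨1,[(10,0),(0,0)]⟩,⟨0,[(5,0)]⟩⟩,⟨false,0,⟨0,[(20,0)]⟩,⟨3,[(2,1),(13,0),(0,0),(5,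
  1),(4,0)]⟩⟩,⟨true,0,⟨0,[(41,0)]⟩,⟨0,[]⟩⟩,⟨false,0,⟨1,[(22,1),(10,0),(5,0)]⟩,⟨1,[(8,1),(19,0),(10,
  0)]⟩⟩,⟨false,0,⟨0,[(37,0)]⟩,⟨2,[(4,0),(4,0),(14,0),(14,1)]⟩⟩,⟨false,0,⟨1,[(22,1),(10,0),(3,1),(1,
  0)]⟩,⟨1,[(7,1),(20,0),(10,0)]⟩⟩,[.o ⟨false,0,⟨0,[(36,0)]⟩,⟨1,[(28,0),(8,1),(1,0)]⟩⟩,.e ⟨false,1,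
  ⟨7,[(1,1),(1,1),(0,1),(6,3),(16,0),(9,5),(0,0)]⟩,⟨0,[(5,0),(31,0)]⟩⟩ ⟨false,0,⟨0,[(1,0)]⟩,⟨1,[(16,
  0),(0,0),(5,1),(4,0),(8,1)]⟩⟩,.a ⟨true,0,⟨0,[(23,0)]⟩,⟨0,[(20,0)]⟩⟩ ⟨true,0,⟨0,[(3,0),(27,0)]⟩,⟨0,
  [(5,0),(31,0)]⟩⟩ ⟨false,0,⟨3,[(1,1),(10,0),(0,0)]⟩,⟨1,[(23,1),(4,0),(8,1),(1,0)]⟩⟩,.e ⟨false,1,⟨7,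
  [(1,1),(1,1),(0,1),(6,3),(16,0),(9,5),(0,0)]⟩,⟨0,[(5,0),(26,0),(4,0)]⟩⟩ ⟨false,0,⟨0,[(1,0)]⟩,⟨1,
  [(23,2),(0,0),(3,0),(8,1),(1,0)]⟩⟩]⟩)) (.Q [0,1,0,0,0,0,1,1,0,-1,1] (.p true [0,0,1] [1] (⟨0,[(25,
  0)]⟩,⟨0,[(24,0)]⟩) .k 1 (⟨0,[]⟩,⟨0,[]⟩) .k .k) (.S ⟨1,0,[0,1,0,0,0,0,0,1],[0,0,1],[1,0,0,-1,0,0,0,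
  1],(⟨0,[(26,0)]⟩,⟨0,[(25,0)]⟩),⟨0,[(15,0)]⟩,.k,.k,⟨false,1,⟨2,[(4,0),(4,0),(14,0),(14,1)]⟩,⟨0,
  [(37,0)]⟩⟩,⟨true,0,⟨0,[(41,0)]⟩,⟨0,[]⟩⟩,⟨true,0,⟨0,[]⟩,⟨0,[(41,0)]⟩⟩,⟨false,0,⟨0,[(37,0)]⟩,⟨2,[(4,
  0),(4,0),(14,0),(14,1)]⟩⟩,[.o ⟨false,0,⟨0,[(0,0)]⟩,⟨0,[(22,0),(16,0)]⟩⟩,.e ⟨true,0,⟨0,[(3,0)]⟩,⟨2,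
  [(1,1),(7,0),(12,1),(10,0),(3,1)]⟩⟩ ⟨true,0,⟨1,[(10,0),(0,0)]⟩,⟨0,[(5,0)]⟩⟩,.o ⟨false,1,⟨41,[(1,
  13),(0,17),(1,1),(4,9),(11,7),(6,4),(10,8)]⟩,⟨0,[(10,0),(11,0)]⟩⟩,.a ⟨true,0,⟨0,[(23,0)]⟩,⟨0,[(20,
  0)]⟩⟩ ⟨false,1,⟨13,[(3,5),(0,3),(6,3),(1,1),(14,0),(9,6),(0,5)]⟩,⟨0,[(5,0),(31,0)]⟩⟩ ⟨true,0,⟨0,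
  [(10,0),(20,0)]⟩,⟨0,[(5,0)]⟩⟩]⟩) (.Q [0,0,2,0,0,0,1,0,0,-1,1] (.p true [0,0,1] [1] (⟨0,[(26,0)]⟩,
  ⟨0,[(25,0)]⟩) .k 1 (⟨0,[]⟩,⟨0,[]⟩) .k .k) (.Q [0,0,0,0,0,-2,0,0,0,0,1] (.p true [0,0,1] [] (⟨0,
  [(27,0)]⟩,⟨0,[(26,0)]⟩) .k 0 (⟨0,[]⟩,⟨0,[]⟩) .k .k) (.R ⟨1,false,false,true,[0,-1,1],[1,-1],[1,0,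
  -1,-2,0,0,0,1],(⟨0,[(17,0)]⟩,⟨0,[(27,0),(4,0)]⟩),(⟨0,[(31,0)]⟩,⟨0,[(32,0)]⟩),⟨0,[(0,0)]⟩,.k,.k,
  (.r (-1) ⟨1,[(6,1),(15,1),(7,0),(9,0)]⟩ ⟨17,[(2,8),(0,19),(7,3),(3,2),(8,4),(10,3),(3,19)]⟩),.k,
  .k,.k,⟨true,0,⟨0,[(5,0)]⟩,⟨2,[(3,1),(7,0),(12,1),(10,0),(3,1)]⟩⟩,⟨false,0,⟨0,[(22,0)]⟩,⟨8,[(1,0),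
  (1,1),(0,3),(6,1),(11,1),(6,0),(10,1)]⟩⟩,⟨false,1,⟨2,[(6,0),(4,0),(14,0),(14,1)]⟩,⟨0,[(39,0)]⟩⟩,
  ⟨false,0,⟨17,[(2,8),(0,1),(7,3),(3,2),(8,4),(10,3),(3,1)]⟩,⟨1,[(10,1),(19,0),(10,0)]⟩⟩,⟨true,0,⟨0,
  []⟩,⟨0,[(43,0)]⟩⟩,⟨false,0,⟨17,[(2,8),(0,1),(7,3),(3,2),(8,4),(10,3),(3,19)]⟩,⟨1,[(9,1),(20,0),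
  (10,0)]⟩⟩,[.o ⟨false,0,⟨0,[(38,0)]⟩,⟨1,[(30,0),(8,1),(1,0)]⟩⟩,.a ⟨true,0,⟨8,[(11,0),(2,3),(0,0),
  (7,0),(1,0),(9,1),(5,0)]⟩,⟨0,[(39,0)]⟩⟩ ⟨false,1,⟨0,[(2,0),(1,0),(0,1),(27,0)]⟩,⟨2,[(3,1),(7,0),
  (12,1),(10,0),(3,4)]⟩⟩ ⟨true,0,⟨0,[(2,0),(2,0),(27,0)]⟩,⟨0,[(3,0)]⟩⟩,.e ⟨false,1,⟨11,[(5,5),(0,7),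
  (1,1),(6,3),(14,1),(9,4),(0,2)]⟩,⟨0,[(7,0),(31,1)]⟩⟩ ⟨false,0,⟨0,[(2,0),(2,0),(27,0)]⟩,⟨1,[(3,1),
  (36,0),(0,0)]⟩⟩,.o ⟨false,0,⟨0,[(1,0)]⟩,⟨1,[(22,1),(7,0),(9,0)]⟩⟩]⟩) (.R ⟨0,false,false,true,[0,
  -1,1],[1,-1],[1,0,-1,-1,0,0,0,1],(⟨0,[(17,0)]⟩,⟨41,[(0,20),(2,1),(7,3),(3,2),(2,1),(0,1),(3,3),(3,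
  20),(7,9),(3,1),(1,3)]⟩),(⟨0,[(31,0)]⟩,⟨0,[(32,0)]⟩),⟨0,[(0,0)]⟩,.k,.k,(.r (-1) ⟨1,[(6,1),(15,1),
  (7,0),(9,0)]⟩ ⟨17,[(2,8),(0,19),(7,3),(3,2),(8,4),(10,3),(3,19)]⟩),.k,.k,.k,⟨true,0,⟨0,[(12,0)]⟩,
  ⟨3,[(3,1),(3,0),(3,0),(12,1),(10,0),(2,0)]⟩⟩,⟨false,0,⟨0,[(22,0)]⟩,⟨8,[(1,0),(1,1),(0,3),(6,1),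
  (11,1),(6,0),(10,1)]⟩⟩,⟨true,0,⟨0,[]⟩,⟨0,[(43,0)]⟩⟩,⟨false,0,⟨17,[(2,8),(0,1),(7,3),(3,2),(8,4),
  (10,3),(3,1)]⟩,⟨1,[(10,1),(19,0),(10,0)]⟩⟩,⟨false,0,⟨0,[]⟩,⟨0,[]⟩⟩,⟨false,0,⟨0,[]⟩,⟨0,[]⟩⟩,[.o
  ⟨false,0,⟨0,[(38,0)]⟩,⟨1,[(30,0),(8,1),(1,0)]⟩⟩,.a ⟨true,0,⟨8,[(11,0),(2,3),(0,0),(7,0),(1,0),(9,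
  1),(5,0)]⟩,⟨0,[(39,0)]⟩⟩ ⟨false,1,⟨0,[(5,0),(34,0)]⟩,⟨2,[(3,1),(7,0),(12,1),(10,0),(3,1)]⟩⟩ ⟨true,
  0,⟨0,[(2,0),(2,0),(27,0)]⟩,⟨0,[(3,0)]⟩⟩,.e ⟨false,1,⟨13,[(5,5),(0,3),(6,3),(1,1),(14,0),(9,6),(0,
  5)]⟩,⟨0,[(7,0),(31,0)]⟩⟩ ⟨false,0,⟨0,[(2,0),(2,0),(27,0)]⟩,⟨1,[(3,1),(36,0),(0,0)]⟩⟩,.o ⟨false,0,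
  ⟨0,[(1,0)]⟩,⟨1,[(22,1),(7,0),(9,0)]⟩⟩]⟩)) (.Q [0,0,0,0,0,-2,0,0,0,0,1] (.p true [0,0,1] [] (⟨0,
  [(27,0)]⟩,⟨0,[(26,0)]⟩) .k 0 (⟨0,[]⟩,⟨0,[]⟩) .k .k) (.R ⟨1,false,false,true,[0,-1,1],[1,-1],[0,1,
  -1,-1,0,0,0,1],(⟨0,[(17,0)]⟩,⟨0,[(27,0),(4,0)]⟩),(⟨0,[(31,0)]⟩,⟨0,[(32,0)]⟩),⟨0,[(0,0)]⟩,.k,.k,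
  (.r (-1) ⟨2,[(1,0),(4,2),(8,0),(14,0),(9,1)]⟩ ⟨17,[(2,8),(0,19),(7,3),(3,2),(8,4),(10,3),(3,
  19)]⟩),.k,.k,.k,⟨true,0,⟨1,[(12,0),(0,0)]⟩,⟨0,[(7,0)]⟩⟩,⟨false,0,⟨0,[(22,0)]⟩,⟨41,[(3,13),(0,17),
  (1,1),(4,9),(11,7),(6,4),(10,8)]⟩⟩,⟨true,0,⟨0,[(43,0)]⟩,⟨0,[]⟩⟩,⟨false,0,⟨17,[(2,8),(0,1),(7,3),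
  (3,2),(8,4),(10,3),(3,1)]⟩,⟨1,[(10,1),(19,0),(10,0)]⟩⟩,⟨false,0,⟨0,[(39,0)]⟩,⟨2,[(6,0),(4,0),(14,
  0),(14,1)]⟩⟩,⟨false,0,⟨17,[(2,8),(0,1),(7,3),(3,2),(8,4),(10,3),(3,19)]⟩,⟨1,[(9,1),(20,0),(10,
  0)]⟩⟩,[.o ⟨false,0,⟨0,[(38,0)]⟩,⟨1,[(30,0),(8,1),(1,0)]⟩⟩,.a ⟨true,0,⟨8,[(11,0),(2,3),(0,0),(7,0),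
  (1,0),(9,1),(5,0)]⟩,⟨0,[(39,0)]⟩⟩ ⟨false,1,⟨8,[(1,0),(3,2),(0,2),(6,2),(1,0),(14,0),(9,7)]⟩,⟨0,
  [(7,0),(31,0)]⟩⟩ ⟨true,0,⟨7,[(1,3),(3,1),(8,2),(0,0),(8,1)]⟩,⟨0,[(3,0)]⟩⟩,.a ⟨true,0,⟨0,[(25,0)]⟩,
  ⟨0,[(22,0)]⟩⟩ ⟨true,0,⟨0,[(5,0),(27,0)]⟩,⟨0,[(7,0),(31,0)]⟩⟩ ⟨false,0,⟨7,[(1,3),(3,1),(8,2),(0,0),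
  (8,1)]⟩,⟨1,[(3,1),(36,0),(0,0)]⟩⟩,.a ⟨true,0,⟨3,[(3,1),(10,0),(0,0),(9,3)]⟩,⟨0,[(1,0)]⟩⟩ ⟨false,1,
  ⟨8,[(1,0),(3,2),(0,2),(6,2),(1,0),(14,0),(9,7)]⟩,⟨0,[(2,0),(0,0)]⟩⟩ ⟨true,0,⟨0,[(1,0),(36,0)]⟩,⟨0,
  [(3,0)]⟩⟩]⟩) (.R ⟨0,false,false,true,[0,-1,1],[1,-1],[1],(⟨0,[(17,0)]⟩,⟨41,[(0,20),(2,1),(7,3),(3,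
  2),(2,1),(0,1),(3,3),(3,20),(7,9),(3,1),(1,3)]⟩),(⟨0,[(31,0)]⟩,⟨0,[(32,0)]⟩),⟨0,[(0,0)]⟩,.k,.k,
  (.r (-1) ⟨2,[(1,0),(4,2),(8,0),(14,0),(9,1)]⟩ ⟨17,[(2,8),(0,19),(7,3),(3,2),(8,4),(10,3),(3,
  19)]⟩),.k,.k,.k,⟨true,0,⟨1,[(2,0),(0,0),(8,0),(26,0)]⟩,⟨0,[(38,0)]⟩⟩,⟨false,0,⟨0,[(22,0)]⟩,⟨41,
  [(3,13),(0,17),(1,1),(4,9),(11,7),(6,4),(10,8)]⟩⟩,⟨true,0,⟨0,[(7,0),(31,0)]⟩,⟨0,[(5,0),(27,0)]⟩⟩,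
  ⟨false,0,⟨17,[(2,8),(0,1),(7,3),(3,2),(8,4),(10,3),(3,1)]⟩,⟨1,[(10,1),(19,0),(10,0)]⟩⟩,⟨false,0,
  ⟨0,[]⟩,⟨0,[]⟩⟩,⟨false,0,⟨0,[]⟩,⟨0,[]⟩⟩,[.o ⟨false,0,⟨0,[(38,0)]⟩,⟨1,[(30,0),(8,1),(1,0)]⟩⟩,.a
  ⟨true,0,⟨8,[(11,0),(2,3),(0,0),(7,0),(1,0),(9,1),(5,0)]⟩,⟨0,[(39,0)]⟩⟩ ⟨false,1,⟨1,[(40,0),(0,
  0)]⟩,⟨0,[(43,0)]⟩⟩ ⟨true,0,⟨7,[(1,3),(3,1),(8,2),(0,0),(8,1)]⟩,⟨0,[(3,0)]⟩⟩,.a ⟨true,0,⟨0,[(25,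
  0)]⟩,⟨0,[(22,0)]⟩⟩ ⟨true,0,⟨0,[]⟩,⟨0,[(43,0)]⟩⟩ ⟨false,0,⟨7,[(1,3),(3,1),(8,2),(0,0),(8,1)]⟩,⟨1,
  [(3,1),(36,0),(0,0)]⟩⟩,.a ⟨true,0,⟨3,[(3,1),(10,0),(0,0),(9,3)]⟩,⟨0,[(1,0)]⟩⟩ ⟨false,1,⟨1,[(40,0),
  (0,0)]⟩,⟨3,[(3,1),(10,0),(0,0)]⟩⟩ ⟨true,0,⟨0,[(1,0),(36,0)]⟩,⟨0,[(3,0)]⟩⟩]⟩)))))))) (.S ⟨1,0,[0,0,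
  0,0,0,0,0,1],[0,0,1],[0,1,0,0,0,0,0,1],(⟨0,[(21,0)]⟩,⟨0,[(20,0)]⟩),⟨0,[(10,0)]⟩,.k,.k,⟨true,0,⟨0,
  [(36,0)]⟩,⟨0,[]⟩⟩,⟨false,1,⟨1,[(11,0),(0,0),(21,0)]⟩,⟨0,[]⟩⟩,⟨false,0,⟨0,[(32,0)]⟩,⟨13,[(4,1),(2,
  5),(8,1),(2,1),(3,2),(10,8)]⟩⟩,⟨true,0,⟨0,[(32,0)]⟩,⟨0,[(31,0)]⟩⟩,[.e ⟨false,0,⟨2,[(0,1),(5,0),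
  (19,0)]⟩,⟨0,[(1,0),(25,0),(4,0)]⟩⟩ ⟨false,0,⟨0,[(0,0)]⟩,⟨1,[(4,0),(12,0),(0,0),(13,0),(1,0)]⟩⟩,.o
  ⟨false,1,⟨1,[(3,1),(19,0),(10,0)]⟩,⟨0,[(17,0)]⟩⟩,.o ⟨false,1,⟨1,[(18,1),(4,0),(9,0)]⟩,⟨0,[(5,0),
  (11,0)]⟩⟩,.a ⟨true,0,⟨0,[(18,0)]⟩,⟨0,[(15,0)]⟩⟩ ⟨false,0,⟨0,[(0,0)]⟩,⟨0,[(17,0),(0,0),(15,0)]⟩⟩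
  ⟨true,0,⟨0,[(0,0)]⟩,⟨0,[(17,0),(0,0)]⟩⟩]⟩)) (.Q [0,-1,0,1,0,0,1,1,0,0,1] (.p true [0,0,1] [] (⟨0,
  [(20,0)]⟩,⟨0,[(19,0)]⟩) .k 0 (⟨0,[]⟩,⟨0,[]⟩) .k .k) (.R ⟨2,true,false,false,[0,1],[0,1,1],[1,0,1],
  (⟨0,[]⟩,⟨0,[]⟩),(⟨0,[(21,0),(3,0)]⟩,⟨0,[(9,0)]⟩),⟨0,[]⟩,.k,.k,.k,.k,.k,.k,⟨true,1,⟨0,[(4,0),(22,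
  0)]⟩,⟨0,[(1,0)]⟩⟩,⟨false,1,⟨0,[(0,0),(3,0)]⟩,⟨0,[(5,0),(11,0)]⟩⟩,⟨false,1,⟨13,[(4,1),(2,5),(8,1),
  (2,1),(3,2),(10,8)]⟩,⟨0,[(32,0)]⟩⟩,⟨true,0,⟨0,[(3,0)]⟩,⟨0,[(17,0)]⟩⟩,⟨true,0,⟨0,[]⟩,⟨0,[(36,0)]⟩⟩,
  ⟨false,0,⟨0,[(0,0)]⟩,⟨5,[(4,1),(2,1),(9,3),(1,1),(3,0),(10,2)]⟩⟩,[]⟩) (.I [0,1,0,1,-1,0,0,1] (.I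
  [1,1,0,0,-1,0,0,1] (.I [1,1,0,-1,-1,0,0,1] (.I [2,0,0,-1] (.R ⟨1,false,false,false,[1,0,-1],[1,
  -1],[1,0,0,-1,0,0,0,-1],(⟨0,[(24,0)]⟩,⟨0,[(25,0)]⟩),(⟨0,[(28,0)]⟩,⟨0,[(29,0)]⟩),⟨0,[(13,0)]⟩,.k,
  .k,.k,.k,.k,.k,⟨false,1,⟨1,[(8,0),(12,0),(0,0),(13,0),(1,0)]⟩,⟨3,[(1,0),(1,0),(5,1),(27,1)]⟩⟩,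
  ⟨true,0,⟨0,[(22,0)]⟩,⟨3,[(4,1),(0,1),(13,1),(7,0),(10,0)]⟩⟩,⟨false,1,⟨13,[(8,1),(2,5),(8,1),(2,1),
  (3,2),(10,8)]⟩,⟨0,[(36,0)]⟩⟩,⟨true,0,⟨0,[(6,0)]⟩,⟨0,[(21,0),(14,0)]⟩⟩,⟨true,0,⟨0,[]⟩,⟨0,[(40,
  0)]⟩⟩,⟨true,0,⟨0,[(7,0)]⟩,⟨0,[(21,0)]⟩⟩,[.a ⟨true,0,⟨8,[(8,0),(2,3),(0,0),(7,0),(1,0),(9,1),(5,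
  0)]⟩,⟨0,[(36,0)]⟩⟩ ⟨true,1,⟨0,[(8,0),(22,0)]⟩,⟨0,[(5,0)]⟩⟩ ⟨false,1,⟨0,[(0,0),(21,0),(14,0)]⟩,⟨3,
  [(5,1),(13,1),(1,1),(5,0),(8,1),(1,0)]⟩⟩,.a ⟨true,0,⟨1,[(0,1),(30,1),(0,0),(4,0)]⟩,⟨0,[(36,0),(3,
  0)]⟩⟩ ⟨false,2,⟨0,[(8,0),(29,0)]⟩,⟨0,[(3,0)]⟩⟩ ⟨true,1,⟨1,[(0,1),(21,1),(14,0),(0,0)]⟩,⟨0,[(5,0),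
  (15,0)]⟩⟩,.o ⟨false,0,⟨3,[(4,1),(0,1),(13,1),(7,0),(10,0)]⟩,⟨1,[(22,1),(4,0),(9,0)]⟩⟩,.a ⟨true,
  (-1),⟨2,[(4,1),(0,1),(13,0),(11,1),(0,0)]⟩,⟨0,[(22,0),(14,0)]⟩⟩ ⟨false,2,⟨0,[(8,0),(29,0)]⟩,⟨0,
  [(5,0)]⟩⟩ ⟨true,1,⟨0,[(0,0),(21,0),(14,0)]⟩,⟨0,[(5,0),(15,0)]⟩⟩]⟩) (.Q [0,1,1,1,0,0,1,0,0,-1,1]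
  (.p true [0,0,1] [1] (⟨0,[(25,0)]⟩,⟨0,[(24,0)]⟩) .k 1 (⟨0,[]⟩,⟨0,[]⟩) .k .k) (.Q [0,-1,0,-1,0,0,0,
  0,0,1] (.pp false [-1,1]) (.R ⟨1,false,false,false,[0,0,1],[1,-1],[1,1,0,-1,0,0,0,1],(⟨0,[(27,
  0)]⟩,⟨0,[(26,0)]⟩),(⟨0,[(30,0)]⟩,⟨0,[(31,0)]⟩),⟨0,[(16,0)]⟩,.k,.k,.k,.k,.k,.k,⟨false,(-1),⟨0,[(4,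
  0)]⟩,⟨0,[(2,0),(7,0),(29,0)]⟩⟩,⟨true,(-1),⟨2,[(6,1),(0,1),(13,0),(11,1),(0,0)]⟩,⟨1,[(24,1),(4,0),
  (9,0)]⟩⟩,⟨true,0,⟨0,[(37,0)]⟩,⟨0,[(38,0)]⟩⟩,⟨true,0,⟨0,[(0,0),(22,0)]⟩,⟨3,[(1,1),(3,1),(3,1),(19,
  0),(9,0)]⟩⟩,⟨false,0,⟨0,[]⟩,⟨1,[(17,0),(0,0),(21,0)]⟩⟩,⟨true,0,⟨1,[(23,1),(10,0),(5,0)]⟩,⟨3,[(1,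
  1),(1,0),(1,0),(2,1),(20,0),(9,0)]⟩⟩,[.a ⟨true,0,⟨8,[(10,0),(2,3),(0,0),(7,0),(1,0),(9,1),(5,0)]⟩,
  ⟨0,[(38,0)]⟩⟩ ⟨true,(-1),⟨0,[(3,0)]⟩,⟨0,[(2,0),(20,0),(0,0),(15,0)]⟩⟩ ⟨false,0,⟨5,[(0,1),(2,1),(2,
  1),(14,3),(17,0),(0,0)]⟩,⟨1,[(1,1),(37,0),(0,0)]⟩⟩,.a ⟨true,0,⟨0,[(0,0)]⟩,⟨14,[(1,4),(0,10),(7,0),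
  (3,2),(7,0),(9,3),(1,0)]⟩⟩ ⟨false,0,⟨1,[(3,1),(35,0),(0,0)]⟩,⟨1,[(2,2),(7,0),(12,0),(0,0),(15,
  0)]⟩⟩ ⟨true,0,⟨1,[(0,0),(5,0),(4,0),(9,0),(11,0)]⟩,⟨0,[(1,0)]⟩⟩,.o ⟨false,1,⟨1,[(24,1),(4,0),(9,
  0)]⟩,⟨3,[(6,1),(0,1),(13,1),(7,0),(10,0)]⟩⟩,.a ⟨true,0,⟨0,[(24,0)]⟩,⟨0,[(21,0)]⟩⟩ ⟨false,0,⟨1,[(3,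
  1),(35,0),(0,0)]⟩,⟨0,[(2,0),(20,0),(0,0),(15,0)]⟩⟩ ⟨true,0,⟨5,[(0,1),(2,1),(2,1),(14,3),(17,0),(0,
  0)]⟩,⟨0,[(1,0)]⟩⟩]⟩) (.Q [-1,0,0,1,0,0,0,0,-1,0,0,-1] (.p false [0,0,0,0,1] [] (⟨0,[(20,0)]⟩,⟨0,
  [(19,0)]⟩) .k 0 (⟨0,[]⟩,⟨0,[]⟩) .k .k) (.R ⟨2,true,false,true,[0,1],[0,0,0,0,1],[1,0,1],(⟨0,[]⟩,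
  ⟨0,[]⟩),(⟨0,[(21,0)]⟩,⟨0,[(20,0)]⟩),⟨0,[]⟩,.k,.k,.k,(.r 0 ⟨1,[(3,1),(21,0),(0,0)]⟩ ⟨4,[(11,0),(1,
  0),(0,1),(15,0),(9,1),(0,0)]⟩),.k,.k,⟨true,0,⟨0,[(34,0)]⟩,⟨0,[(43,0)]⟩⟩,⟨false,0,⟨0,[(19,0)]⟩,⟨5,
  [(0,3),(13,1),(3,1),(11,0),(9,2)]⟩⟩,⟨false,1,⟨13,[(11,1),(2,5),(8,1),(2,1),(3,2),(10,8)]⟩,⟨0,[(39,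
  0)]⟩⟩,⟨true,0,⟨0,[(19,0),(18,0)]⟩,⟨0,[(0,0)]⟩⟩,⟨true,0,⟨0,[]⟩,⟨0,[(43,0)]⟩⟩,⟨false,0,⟨0,[(19,0)]⟩,
  ⟨5,[(0,3),(13,1),(3,1),(11,0),(10,2)]⟩⟩,[]⟩) (.Q [-2,0,0,1,0,0,0,0,-2,1,0,-2] (.p false [0,0,0,0,
  1] [1,0,0,0,-1] (⟨0,[(21,0)]⟩,⟨0,[(20,0)]⟩) .k 2 (⟨0,[(20,0)]⟩,⟨0,[(21,0)]⟩) .k (.r 0 ⟨0,[]⟩ ⟨6,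
  [(3,1),(7,1),(1,1),(4,2),(0,2),(21,1),(0,1)]⟩)) (.Q [-1,0,0,0,0,0,0,0,-2,1,0,-2] (.p false [0,0,0,
  0,1] [1,0,0,0,-1] (⟨0,[(22,0)]⟩,⟨0,[(21,0)]⟩) .k 2 (⟨0,[(21,0)]⟩,⟨0,[(22,0)]⟩) .k (.r 0 ⟨0,[]⟩ ⟨6,
  [(4,1),(7,1),(1,1),(4,2),(0,2),(21,1),(0,1)]⟩)) (.Q [0,0,0,0,0,-1,0,0,0,0,0,1] (.ed false [1,-1,0,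
  0,1] .k) (.S ⟨1,0,[1],[0,0,0,0,1],[1,1],(⟨0,[(24,0)]⟩,⟨0,[(23,0)]⟩),⟨0,[(0,0)]⟩,.k,(.r (-1) ⟨4,
  [(14,0),(1,0),(0,1),(15,0),(9,1),(0,0)]⟩ ⟨1,[(6,1),(21,0),(0,0)]⟩),⟨true,0,⟨0,[(46,0)]⟩,⟨0,[]⟩⟩,
  ⟨false,1,⟨1,[(21,0),(0,0),(21,0)]⟩,⟨0,[]⟩⟩,⟨false,0,⟨0,[(42,0)]⟩,⟨5,[(3,1),(13,1),(3,1),(11,0),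
  (10,2)]⟩⟩,⟨true,0,⟨0,[(42,0)]⟩,⟨0,[(41,0)]⟩⟩,[.e ⟨true,0,⟨0,[(46,0)]⟩,⟨0,[(37,0)]⟩⟩ ⟨true,0,⟨0,
  []⟩,⟨1,[(28,0),(0,0)]⟩⟩,.o ⟨false,1,⟨1,[(22,1),(10,0),(10,0)]⟩,⟨1,[(1,0),(2,0),(36,0)]⟩⟩,.a ⟨true,
  0,⟨0,[(22,0)]⟩,⟨2,[(1,0),(19,0),(16,0)]⟩⟩ ⟨false,0,⟨0,[]⟩,⟨1,[(21,0),(0,0),(21,0)]⟩⟩ ⟨true,0,⟨0,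
  []⟩,⟨0,[(46,0)]⟩⟩,.o ⟨false,0,⟨0,[(3,0),(0,0),(32,0)]⟩,⟨5,[(1,1),(19,1),(11,0),(9,2)]⟩⟩]⟩) (.S ⟨1,
  0,[-1,1],[1,0,0,0,-1],[-1],(⟨0,[(23,0)]⟩,⟨0,[(24,0)]⟩),⟨0,[(0,0),(18,0),(0,0)]⟩,.k,(.r (-1) ⟨4,
  [(14,0),(1,0),(0,1),(15,0),(9,1),(0,0)]⟩ ⟨1,[(6,1),(21,0),(0,0)]⟩),⟨false,1,⟨1,[(21,0),(0,0),(21,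
  0)]⟩,⟨0,[]⟩⟩,⟨true,0,⟨0,[(46,0)]⟩,⟨0,[]⟩⟩,⟨true,0,⟨0,[(42,0)]⟩,⟨0,[(41,0)]⟩⟩,⟨false,0,⟨0,[(42,
  0)]⟩,⟨5,[(3,1),(13,1),(3,1),(11,0),(10,2)]⟩⟩,[.o ⟨false,0,⟨1,[(1,0),(2,0),(36,0)]⟩,⟨1,[(22,1),(10,
  0),(10,0)]⟩⟩,.e ⟨false,1,⟨0,[(37,0),(5,0)]⟩,⟨0,[(46,0)]⟩⟩ ⟨false,1,⟨8,[(6,0),(7,0),(1,0),(4,2),(0,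
  2),(20,3),(0,0)]⟩,⟨0,[]⟩⟩,.a ⟨true,0,⟨2,[(1,0),(19,0),(16,0)]⟩,⟨0,[(22,0)]⟩⟩ ⟨false,1,⟨13,[(6,0),
  (7,0),(1,0),(4,4),(0,4),(21,7),(0,0)]⟩,⟨0,[]⟩⟩ ⟨true,0,⟨0,[(46,0)]⟩,⟨0,[]⟩⟩,.o ⟨false,0,⟨15,[(1,
  7),(3,3),(1,1),(2,1),(17,0),(0,2),(3,1),(3,7)]⟩,⟨1,[(22,1),(10,0),(9,0)]⟩⟩]⟩)) (.Q [0,0,0,0,0,-1,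
  0,0,0,1,0,-1] (.ed true [0,1,0,0,1] .k) (.S ⟨1,0,[-1,1],[1,0,0,0,-1],[-1],(⟨0,[(23,0)]⟩,⟨0,[(24,
  0)]⟩),⟨0,[(0,0)]⟩,.k,(.r (-1) ⟨4,[(14,0),(1,0),(0,1),(15,0),(9,1),(0,0)]⟩ ⟨1,[(6,1),(21,0),(0,
  0)]⟩),⟨false,1,⟨1,[(21,0),(0,0),(21,0)]⟩,⟨0,[]⟩⟩,⟨true,0,⟨0,[(46,0)]⟩,⟨0,[]⟩⟩,⟨true,0,⟨0,[(42,
  0)]⟩,⟨0,[(41,0)]⟩⟩,⟨false,0,⟨0,[(42,0)]⟩,⟨5,[(1,0),(15,2),(3,1),(11,0),(10,2)]⟩⟩,[.o ⟨false,0,⟨11,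
  [(2,5),(2,1),(1,2),(2,1),(3,0),(18,1),(2,0),(4,1)]⟩,⟨5,[(1,3),(19,1),(11,0),(10,2)]⟩⟩,.e ⟨false,1,
  ⟨0,[(37,0),(5,0)]⟩,⟨0,[(46,0)]⟩⟩ ⟨false,1,⟨8,[(6,0),(7,0),(1,0),(4,2),(0,2),(20,3),(0,0)]⟩,⟨0,
  []⟩⟩,.a ⟨true,0,⟨4,[(2,1),(14,0),(3,0),(16,0)]⟩,⟨0,[(22,0)]⟩⟩ ⟨false,1,⟨13,[(6,0),(7,0),(1,0),(4,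
  4),(0,4),(21,7),(0,0)]⟩,⟨0,[]⟩⟩ ⟨true,0,⟨0,[(46,0)]⟩,⟨0,[]⟩⟩,.o ⟨false,0,⟨7,[(2,3),(4,1),(2,1),
  (17,2),(0,0),(3,1),(3,3)]⟩,⟨32,[(1,20),(4,0),(7,0),(1,0),(4,8),(11,5),(9,15),(0,0)]⟩⟩]⟩) (.S ⟨1,0,
  [1],[0,0,0,0,1],[1,1],(⟨0,[(24,0)]⟩,⟨0,[(23,0)]⟩),⟨0,[(0,0),(18,0),(0,0)]⟩,.k,(.r (-1) ⟨4,[(14,0),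
  (1,0),(0,1),(15,0),(9,1),(0,0)]⟩ ⟨1,[(6,1),(21,0),(0,0)]⟩),⟨true,0,⟨0,[(46,0)]⟩,⟨0,[]⟩⟩,⟨false,1,
  ⟨1,[(21,0),(0,0),(21,0)]⟩,⟨0,[]⟩⟩,⟨false,0,⟨0,[(42,0)]⟩,⟨5,[(1,0),(15,2),(3,1),(11,0),(10,2)]⟩⟩,
  ⟨true,0,⟨0,[(42,0)]⟩,⟨0,[(41,0)]⟩⟩,[.e ⟨true,0,⟨0,[(46,0)]⟩,⟨0,[(37,0)]⟩⟩ ⟨true,0,⟨0,[]⟩,⟨1,[(28,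
  0),(0,0)]⟩⟩,.o ⟨false,1,⟨5,[(1,3),(19,1),(11,0),(10,2)]⟩,⟨11,[(2,5),(2,1),(1,2),(2,1),(3,0),(18,
  1),(2,0),(4,1)]⟩⟩,.a ⟨true,0,⟨0,[(22,0)]⟩,⟨4,[(2,1),(14,0),(3,0),(16,0)]⟩⟩ ⟨false,0,⟨0,[]⟩,⟨1,
  [(21,0),(0,0),(21,0)]⟩⟩ ⟨true,0,⟨0,[]⟩,⟨0,[(46,0)]⟩⟩,.o ⟨false,0,⟨15,[(1,7),(3,3),(1,1),(2,1),(17,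
  0),(0,2),(3,1),(3,7)]⟩,⟨9,[(2,3),(14,1),(3,1),(11,2),(9,4)]⟩⟩]⟩))) (.Q [1,0,0,0,-1,0,0,0,1,0,0,1]
  (.p true [0,0,0,0,1] [] (⟨0,[(22,0)]⟩,⟨0,[(21,0)]⟩) .k 0 (⟨0,[]⟩,⟨0,[]⟩) .k .k) (.R ⟨2,true,false,
  false,[0,1],[0,0,0,0,1],[1,1,1],(⟨0,[]⟩,⟨0,[]⟩),(⟨0,[(23,0)]⟩,⟨0,[(22,0)]⟩),⟨0,[]⟩,.k,.k,.k,(.r 0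
  ⟨1,[(5,1),(21,0),(0,0)]⟩ ⟨9,[(1,1),(14,3),(3,3),(11,0),(9,4)]⟩),.k,.k,⟨false,0,⟨0,[(45,0)]⟩,⟨1,
  [(42,0),(0,0)]⟩⟩,⟨true,(-1),⟨3,[(0,3),(26,0),(0,0),(15,1)]⟩,⟨0,[(20,0)]⟩⟩,⟨true,0,⟨0,[(40,0)]⟩,⟨0,
  [(41,0)]⟩⟩,⟨false,0,⟨9,[(0,5),(0,1),(14,3),(15,0),(10,4)]⟩,⟨0,[(5,0),(14,0)]⟩⟩,⟨false,0,⟨0,[]⟩,⟨1,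
  [(20,0),(0,0),(21,0)]⟩⟩,⟨true,(-1),⟨0,[(0,0)]⟩,⟨0,[(20,0),(24,0)]⟩⟩,[]⟩) (.Q [0,0,1,0,-1,0,0,0,1,
  0,0,1] (.p true [0,0,0,0,1] [] (⟨0,[(23,0)]⟩,⟨0,[(22,0)]⟩) .k 0 (⟨0,[]⟩,⟨0,[]⟩) .k .k) (.Q [-1,1,
  0,0,0,0,0,0,-1,1,0,-1] (.p false [0,0,0,0,1] [1] (⟨0,[(24,0)]⟩,⟨0,[(23,0)]⟩) .k 1 (⟨0,[]⟩,⟨0,[]⟩)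
  .k .k) (.Q [0,0,0,0,0,-1,0,0,0,1,0,-1] (.ed true [0,1,0,0,1] .k) (.S ⟨1,0,[-1,1],[1,0,0,0,-1],
  [-1],(⟨0,[(25,0)]⟩,⟨0,[(26,0)]⟩),⟨0,[(0,0)]⟩,.k,(.r (-1) ⟨4,[(16,0),(1,0),(0,1),(15,0),(9,1),(0,
  0)]⟩ ⟨1,[(8,1),(21,0),(0,0)]⟩),⟨false,1,⟨1,[(23,0),(0,0),(21,0)]⟩,⟨0,[]⟩⟩,⟨true,0,⟨0,[(48,0)]⟩,⟨0,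
  []⟩⟩,⟨true,0,⟨0,[(44,0)]⟩,⟨0,[(43,0)]⟩⟩,⟨false,0,⟨0,[(44,0)]⟩,⟨9,[(4,1),(14,3),(3,3),(11,0),(10,
  4)]⟩⟩,[.a ⟨true,0,⟨0,[(1,0)]⟩,⟨1,[(2,1),(42,0),(0,0)]⟩⟩ ⟨false,1,⟨1,[(3,0),(20,0),(20,0)]⟩,⟨0,
  []⟩⟩ ⟨true,0,⟨0,[(48,0)]⟩,⟨0,[(39,0)]⟩⟩,.o ⟨false,1,⟨0,[(3,0)]⟩,⟨1,[(2,1),(32,0),(9,0)]⟩⟩,.o
  ⟨false,1,⟨0,[(23,0)]⟩,⟨1,[(2,1),(32,0),(9,0)]⟩⟩,.e ⟨false,1,⟨0,[(39,0),(5,0)]⟩,⟨1,[(30,0),(0,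
  0)]⟩⟩ ⟨false,1,⟨1,[(3,0),(20,0),(20,0)]⟩,⟨0,[(39,0)]⟩⟩]⟩) (.S ⟨1,0,[1],[0,0,0,0,1],[1,1],(⟨0,[(26,
  0)]⟩,⟨0,[(25,0)]⟩),⟨0,[(0,0),(20,0),(0,0)]⟩,.k,(.r (-1) ⟨9,[(4,1),(14,3),(3,3),(11,0),(9,4)]⟩ ⟨1,
  [(8,1),(21,0),(0,0)]⟩),⟨true,0,⟨0,[(48,0)]⟩,⟨0,[]⟩⟩,⟨false,1,⟨1,[(23,0),(0,0),(21,0)]⟩,⟨0,[]⟩⟩,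
  ⟨false,0,⟨0,[(44,0)]⟩,⟨9,[(4,1),(14,3),(3,3),(11,0),(10,4)]⟩⟩,⟨true,0,⟨0,[(44,0)]⟩,⟨0,[(43,0)]⟩⟩,
  [.o ⟨false,0,⟨1,[(2,1),(32,0),(9,0)]⟩,⟨0,[(3,0)]⟩⟩,.a ⟨true,0,⟨1,[(2,1),(42,0),(0,0)]⟩,⟨0,[(1,
  0)]⟩⟩ ⟨true,0,⟨0,[]⟩,⟨1,[(30,0),(0,0)]⟩⟩ ⟨false,1,⟨1,[(45,0),(0,0)]⟩,⟨0,[(48,0)]⟩⟩,.o ⟨false,0,⟨1,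
  [(2,1),(32,0),(9,0)]⟩,⟨0,[(23,0)]⟩⟩,.e ⟨false,1,⟨1,[(23,0),(0,0),(20,0)]⟩,⟨0,[(39,0)]⟩⟩ ⟨false,1,
  ⟨1,[(45,0),(0,0)]⟩,⟨1,[(30,0),(0,0)]⟩⟩]⟩)) (.R ⟨1,false,false,false,[0,0,1],[0,0,0,0,1],[0,0,0,0,
  0,0,0,1],(⟨0,[(32,0)]⟩,⟨0,[(31,0)]⟩),(⟨0,[(25,0)]⟩,⟨0,[(24,0)]⟩),⟨0,[(21,0)]⟩,.k,.k,.k,.k,(.r 0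
  ⟨0,[(8,0),(29,0),(5,0)]⟩ ⟨2,[(6,0),(0,2),(7,0),(3,0),(8,1),(0,2),(15,1)]⟩),.k,⟨false,0,⟨0,[(7,0),
  (0,0),(29,0),(5,0)]⟩,⟨1,[(7,0),(7,0),(12,0),(0,0),(15,0)]⟩⟩,⟨true,(-1),⟨8,[(0,8),(6,3),(0,1),(1,
  0),(0,5),(0,2),(13,2),(12,2)]⟩,⟨0,[(22,0),(6,0)]⟩⟩,⟨false,1,⟨1,[(22,0),(0,0),(21,0)]⟩,⟨0,[]⟩⟩,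
  ⟨false,0,⟨1,[(0,1),(27,1),(10,0),(5,0)]⟩,⟨0,[(2,0),(11,0)]⟩⟩,⟨true,0,⟨0,[(43,0)]⟩,⟨0,[(42,0)]⟩⟩,
  ⟨false,0,⟨1,[(0,1),(6,1),(20,1),(10,0),(5,0)]⟩,⟨0,[(2,0),(10,0)]⟩⟩,[.o ⟨false,0,⟨2,[(0,0),(2,0),
  (1,0)]⟩,⟨0,[(2,0)]⟩⟩,.o ⟨false,0,⟨0,[(0,0)]⟩,⟨0,[(22,0),(24,0)]⟩⟩,.o ⟨false,1,⟨1,[(29,1),(4,0),(9,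
  0)]⟩,⟨3,[(11,1),(0,1),(13,1),(7,0),(10,0)]⟩⟩,.a ⟨true,0,⟨0,[(29,0)]⟩,⟨0,[(26,0)]⟩⟩ ⟨true,0,⟨3,[(8,
  0),(1,0),(5,1),(27,1)]⟩,⟨0,[(28,0),(0,0)]⟩⟩ ⟨false,0,⟨0,[(0,0),(25,0)]⟩,⟨0,[(2,0),(26,0)]⟩⟩]⟩))
  (.Q [0,0,0,0,0,0,-1,-1,1,0,-1,1] (.p false [0,0,1] [0,0,0,0,1] (⟨0,[(31,0)]⟩,⟨0,[(30,0)]⟩) .k 2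
  (⟨0,[(24,0)]⟩,⟨0,[(23,0)]⟩) .k (.r 0 ⟨0,[(6,2),(0,1),(2,0),(17,0),(8,2),(5,1)]⟩ ⟨1,[(6,0),(7,0),
  (12,0),(0,0),(15,0)]⟩)) (.Q [0,0,0,0,0,-1,0,0,0,0,0,1] (.ed false [1,-1,0,0,1] .k) (.R ⟨1,false,
  false,false,[0,0,0,0,1],[0,-1,1],[1,1],(⟨0,[(26,0)]⟩,⟨0,[(25,0)]⟩),(⟨0,[(22,0)]⟩,⟨0,[(32,0),(4,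
  0)]⟩),⟨0,[(0,0)]⟩,.k,.k,(.r (-1) ⟨9,[(4,1),(14,3),(3,3),(11,0),(9,4)]⟩ ⟨1,[(8,1),(21,0),(0,0)]⟩),
  (.r (-1) ⟨0,[(1,0),(6,0),(14,0),(6,0)]⟩ ⟨0,[(9,0),(29,0),(5,0)]⟩),.k,.k,⟨true,0,⟨0,[(8,0),(20,0),
  (0,0)]⟩,⟨0,[(9,0),(36,0)]⟩⟩,⟨false,1,⟨0,[(2,0),(27,0)]⟩,⟨3,[(1,3),(7,0),(1,0),(5,1),(27,1)]⟩⟩,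
  ⟨true,0,⟨0,[(48,0)]⟩,⟨0,[]⟩⟩,⟨false,1,⟨0,[(2,0),(11,0),(24,0)]⟩,⟨0,[(1,0),(6,0)]⟩⟩,⟨false,0,⟨0,
  [(44,0)]⟩,⟨9,[(4,1),(14,3),(3,3),(11,0),(10,4)]⟩⟩,⟨false,1,⟨1,[(2,1),(10,0),(0,0),(15,0),(15,0)]⟩,
  ⟨0,[(1,0)]⟩⟩,[.a ⟨true,0,⟨0,[(14,0)]⟩,⟨1,[(8,1),(20,1),(10,0),(5,0)]⟩⟩ ⟨true,0,⟨0,[(48,0)]⟩,⟨0,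
  [(39,0)]⟩⟩ ⟨false,1,⟨0,[(2,0),(11,0)]⟩,⟨0,[(1,0),(6,0)]⟩⟩,.o ⟨false,1,⟨1,[(14,1),(20,0),(10,0)]⟩,
  ⟨0,[(8,0),(20,0)]⟩⟩,.e ⟨false,0,⟨0,[]⟩,⟨1,[(23,0),(0,0),(21,0)]⟩⟩ ⟨false,1,⟨0,[(2,0),(11,0),(24,
  0)]⟩,⟨0,[(1,0),(6,0)]⟩⟩,.o ⟨false,0,⟨18,[(1,2),(2,7),(2,4),(5,2),(17,1),(3,2),(3,4),(7,3)]⟩,⟨0,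
  [(2,0)]⟩⟩]⟩) (.R ⟨0,false,false,false,[0,0,0,0,1],[0,1],[1,1],(⟨0,[(26,0)]⟩,⟨0,[(25,0)]⟩),(⟨0,
  [(37,0)]⟩,⟨0,[(36,0)]⟩),⟨0,[(0,0)]⟩,.k,.k,(.r (-1) ⟨9,[(4,1),(14,3),(3,3),(11,0),(9,4)]⟩ ⟨1,[(8,
  1),(21,0),(0,0)]⟩),(.r (-1) ⟨9,[(4,1),(14,3),(3,3),(11,0),(9,4)]⟩ ⟨1,[(8,1),(21,0),(0,0)]⟩),.k,.k,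
  ⟨false,1,⟨19,[(9,5),(6,9),(1,3),(0,1),(15,0),(9,14)]⟩,⟨0,[(8,0),(30,0)]⟩⟩,⟨true,1,⟨0,[(2,0)]⟩,⟨1,
  [(1,1),(7,0),(3,0),(16,1),(8,0)]⟩⟩,⟨true,0,⟨0,[(48,0)]⟩,⟨0,[]⟩⟩,⟨false,1,⟨0,[(2,0),(5,0),(30,0)]⟩,
  ⟨0,[(5,0)]⟩⟩,⟨false,0,⟨0,[]⟩,⟨0,[]⟩⟩,⟨false,0,⟨0,[]⟩,⟨0,[]⟩⟩,[.a ⟨true,0,⟨0,[(44,0)]⟩,⟨3,[(3,0),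
  (15,1),(4,0),(15,0)]⟩⟩ ⟨true,0,⟨0,[(48,0)]⟩,⟨0,[(39,0)]⟩⟩ ⟨false,1,⟨0,[(2,0),(5,0)]⟩,⟨1,[(4,0),(3,
  0),(10,0)]⟩⟩,.o ⟨false,1,⟨0,[(6,0),(39,0)]⟩,⟨0,[(43,0)]⟩⟩,.e ⟨false,0,⟨0,[]⟩,⟨1,[(23,0),(0,0),(21,
  0)]⟩⟩ ⟨false,1,⟨0,[(2,0),(5,0),(30,0)]⟩,⟨1,[(4,0),(3,0),(10,0)]⟩⟩,.o ⟨false,0,⟨18,[(1,2),(2,7),(2,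
  4),(5,2),(17,1),(3,2),(3,4),(7,3)]⟩,⟨0,[(2,0)]⟩⟩]⟩)) (.Q [0,0,0,0,0,-1,0,0,0,0,0,1] (.ed false [1,
  -1,0,0,1] .k) (.S ⟨1,0,[1],[0,0,0,0,1],[1,1],(⟨0,[(26,0)]⟩,⟨0,[(25,0)]⟩),⟨0,[(0,0)]⟩,.k,(.r (-1)
  ⟨9,[(4,1),(14,3),(3,3),(11,0),(9,4)]⟩ ⟨1,[(8,1),(21,0),(0,0)]⟩),⟨true,0,⟨0,[(48,0)]⟩,⟨0,[]⟩⟩,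
  ⟨false,1,⟨1,[(23,0),(0,0),(21,0)]⟩,⟨0,[]⟩⟩,⟨false,0,⟨0,[(44,0)]⟩,⟨9,[(4,1),(14,3),(3,3),(11,0),
  (10,4)]⟩⟩,⟨true,0,⟨0,[(44,0)]⟩,⟨0,[(43,0)]⟩⟩,[.e ⟨true,0,⟨0,[(48,0)]⟩,⟨0,[(39,0)]⟩⟩ ⟨true,0,⟨0,
  []⟩,⟨1,[(30,0),(0,0)]⟩⟩,.o ⟨false,1,⟨1,[(24,1),(10,0),(10,0)]⟩,⟨1,[(1,1),(6,0),(3,0),(16,0)]⟩⟩,.a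
  ⟨true,0,⟨0,[(24,0)]⟩,⟨1,[(1,0),(0,0),(26,0),(9,0),(0,0)]⟩⟩ ⟨false,0,⟨0,[]⟩,⟨1,[(23,0),(0,0),(21,
  0)]⟩⟩ ⟨true,0,⟨0,[]⟩,⟨0,[(48,0)]⟩⟩,.o ⟨false,0,⟨7,[(4,3),(1,2),(0,0),(23,0),(7,3),(7,1)]⟩,⟨0,[(2,
  0)]⟩⟩]⟩) (.R ⟨0,false,false,false,[0,0,0,0,1],[0,1],[1,1],(⟨0,[(26,0)]⟩,⟨0,[(25,0)]⟩),(⟨0,[(37,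
  0)]⟩,⟨0,[(36,0)]⟩),⟨0,[(0,0)]⟩,.k,.k,(.r (-1) ⟨9,[(4,1),(14,3),(3,3),(11,0),(9,4)]⟩ ⟨1,[(8,1),(21,
  0),(0,0)]⟩),(.r (-1) ⟨9,[(4,1),(14,3),(3,3),(11,0),(9,4)]⟩ ⟨1,[(8,1),(21,0),(0,0)]⟩),.k,.k,⟨false,
  1,⟨19,[(9,5),(6,9),(1,3),(0,1),(15,0),(9,14)]⟩,⟨0,[(8,0),(30,0)]⟩⟩,⟨true,1,⟨0,[(2,0)]⟩,⟨1,[(4,0),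
  (2,0),(4,0),(0,0),(25,1),(0,0)]⟩⟩,⟨true,0,⟨0,[(48,0)]⟩,⟨0,[]⟩⟩,⟨false,1,⟨0,[(2,0),(5,0),(30,0)]⟩,
  ⟨0,[(5,0)]⟩⟩,⟨false,0,⟨0,[]⟩,⟨0,[]⟩⟩,⟨false,0,⟨0,[]⟩,⟨0,[]⟩⟩,[.a ⟨true,0,⟨0,[(44,0)]⟩,⟨3,[(3,0),
  (15,1),(4,0),(15,0)]⟩⟩ ⟨true,0,⟨0,[(48,0)]⟩,⟨0,[(39,0)]⟩⟩ ⟨false,1,⟨0,[(2,0),(5,0)]⟩,⟨1,[(4,0),(3,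
  0),(10,0)]⟩⟩,.o ⟨false,1,⟨0,[(6,0),(39,0)]⟩,⟨0,[(43,0)]⟩⟩,.e ⟨false,0,⟨0,[]⟩,⟨1,[(23,0),(0,0),(21,
  0)]⟩⟩ ⟨false,1,⟨0,[(2,0),(5,0),(30,0)]⟩,⟨1,[(4,0),(3,0),(10,0)]⟩⟩,.o ⟨false,0,⟨7,[(4,3),(1,2),(0,
  0),(23,0),(7,3),(7,1)]⟩,⟨0,[(2,0)]⟩⟩]⟩)))))))) (.R ⟨1,false,false,false,[0,0,1],[1,-1],[1,1,0,-1,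
  0,0,0,1],(⟨0,[(26,0)]⟩,⟨0,[(25,0)]⟩),(⟨0,[(29,0)]⟩,⟨0,[(30,0)]⟩),⟨0,[(15,0)]⟩,.k,.k,.k,.k,.k,.k,
  ⟨false,(-1),⟨0,[(3,0)]⟩,⟨0,[(1,0),(7,0),(29,0)]⟩⟩,⟨true,(-1),⟨7,[(0,0),(4,3),(0,4),(6,0),(8,0),(9,
  3),(0,2)]⟩,⟨1,[(23,1),(4,0),(9,0)]⟩⟩,⟨true,0,⟨0,[(36,0)]⟩,⟨0,[(37,0)]⟩⟩,⟨true,0,⟨1,[(5,1),(27,0),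
  (5,0)]⟩,⟨1,[(4,1),(18,1),(4,0),(9,0)]⟩⟩,⟨false,0,⟨0,[]⟩,⟨1,[(16,0),(0,0),(21,0)]⟩⟩,⟨true,0,⟨1,
  [(22,1),(10,0),(5,0)]⟩,⟨1,[(2,0),(1,0),(18,1),(4,0),(9,0)]⟩⟩,[.a ⟨true,0,⟨8,[(9,0),(2,3),(0,0),(7,
  0),(1,0),(9,1),(5,0)]⟩,⟨0,[(37,0)]⟩⟩ ⟨true,(-1),⟨0,[(2,0)]⟩,⟨0,[(1,0),(20,0),(0,0),(15,0)]⟩⟩
  ⟨false,0,⟨5,[(0,3),(11,0),(0,0),(17,1)]⟩,⟨1,[(1,1),(21,1),(4,0),(9,0)]⟩⟩,.e ⟨false,0,⟨7,[(0,1),(1,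
  3),(4,1),(2,1),(17,0),(9,2)]⟩,⟨1,[(1,2),(7,0),(12,0),(0,0),(15,0)]⟩⟩ ⟨false,0,⟨0,[(0,0)]⟩,⟨1,[(1,
  2),(7,0),(11,0),(1,0),(4,0)]⟩⟩,.o ⟨false,1,⟨1,[(23,1),(4,0),(9,0)]⟩,⟨3,[(0,0),(5,0),(6,0),(8,0),
  (5,0)]⟩⟩,.e ⟨false,0,⟨7,[(0,1),(1,3),(4,1),(2,1),(17,0),(9,2)]⟩,⟨0,[(1,0),(20,0),(0,0),(15,0)]⟩⟩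
  ⟨false,0,⟨0,[(0,0)]⟩,⟨1,[(1,1),(14,0),(0,0),(5,1),(4,0)]⟩⟩]⟩))) (.S ⟨1,0,[0,0,0,0,0,0,0,1],[0,0,
  1],[],(⟨0,[(24,0)]⟩,⟨0,[(23,0)]⟩),⟨0,[(13,0)]⟩,.k,.k,⟨true,1,⟨3,[(0,1),(6,1),(13,0),(0,0)]⟩,⟨0,
  [(1,0)]⟩⟩,⟨false,1,⟨1,[(14,0),(0,0),(21,0)]⟩,⟨0,[]⟩⟩,⟨false,1,⟨0,[(0,0)]⟩,⟨3,[(1,0),(6,1),(0,0),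
  (0,1),(15,0)]⟩⟩,⟨true,0,⟨0,[(35,0)]⟩,⟨0,[(34,0)]⟩⟩,[.e ⟨false,1,⟨4,[(0,0),(6,0),(1,1),(26,1),(0,
  0)]⟩,⟨0,[]⟩⟩ ⟨false,0,⟨1,[(1,0),(6,0),(27,0)]⟩,⟨3,[(0,1),(6,1),(13,0),(0,0)]⟩⟩,.o ⟨false,1,⟨1,[(6,
  1),(19,0),(10,0)]⟩,⟨0,[(20,0)]⟩⟩,.o ⟨false,1,⟨1,[(21,1),(4,0),(9,0)]⟩,⟨3,[(3,1),(0,1),(13,1),(7,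
  0),(10,0)]⟩⟩,.a ⟨true,0,⟨0,[(21,0)]⟩,⟨0,[(18,0)]⟩⟩ ⟨false,1,⟨1,[(36,0),(0,0)]⟩,⟨1,[(21,0),(0,
  0)]⟩⟩ ⟨true,0,⟨1,[(1,0),(6,0),(27,0)]⟩,⟨0,[(20,0),(0,0)]⟩⟩]⟩)) (.S ⟨1,0,[0,0,1,1,0,0,0,1],[0,1,1],
  [0,0,1],(⟨0,[(23,0),(3,0)]⟩,⟨0,[(11,0)]⟩),⟨0,[(23,0)]⟩,.k,.k,⟨true,1,⟨7,[(0,3),(1,0),(3,2),(2,1),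
  (10,1),(0,0),(3,0)]⟩,⟨0,[(1,0)]⟩⟩,⟨false,1,⟨1,[(13,0),(0,0),(21,0)]⟩,⟨0,[]⟩⟩,⟨false,1,⟨0,[(0,0)]⟩,
  ⟨1,[(7,0),(0,0)]⟩⟩,⟨true,0,⟨0,[(34,0)]⟩,⟨0,[(33,0)]⟩⟩,[.e ⟨true,0,⟨1,[(20,0),(0,0)]⟩,⟨0,[]⟩⟩
  ⟨true,(-1),⟨0,[(3,0)]⟩,⟨7,[(0,3),(1,0),(3,2),(2,1),(10,1),(0,0),(3,0)]⟩⟩,.o ⟨false,1,⟨1,[(5,1),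
  (19,0),(8,1),(1,0)]⟩,⟨0,[(2,0)]⟩⟩,.a ⟨true,1,⟨0,[(20,0),(14,0)]⟩,⟨2,[(2,1),(0,1),(13,0),(11,1),(0,
  0)]⟩⟩ ⟨false,0,⟨0,[(29,0)]⟩,⟨1,[(13,0),(0,0),(20,0)]⟩⟩ ⟨true,(-1),⟨0,[(3,0)]⟩,⟨0,[(6,0)]⟩⟩,.o
  ⟨false,1,⟨1,[(20,1),(4,0),(9,0)]⟩,⟨3,[(2,1),(0,1),(13,1),(7,0),(10,0)]⟩⟩]⟩)) (.S ⟨1,0,[0,0,1,1,0,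
  0,0,1],[0,1,1],[0,1,1,1,0,0,0,1],(⟨0,[(22,0),(3,0)]⟩,⟨0,[(10,0)]⟩),⟨0,[(22,0)]⟩,.k,.k,⟨true,0,⟨0,
  [(37,0)]⟩,⟨0,[]⟩⟩,⟨false,1,⟨1,[(12,0),(0,0),(21,0)]⟩,⟨0,[]⟩⟩,⟨false,0,⟨0,[(33,0)]⟩,⟨5,[(0,1),(6,
  1),(0,1),(15,0),(10,2)]⟩⟩,⟨true,0,⟨0,[(33,0)]⟩,⟨0,[(32,0)]⟩⟩,[.e ⟨true,(-1),⟨0,[(2,0),(34,0)]⟩,⟨0,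
  [(0,0)]⟩⟩ ⟨true,(-1),⟨0,[(2,0)]⟩,⟨3,[(0,1),(4,1),(13,0),(0,0)]⟩⟩,.o ⟨false,1,⟨1,[(4,1),(19,0),(8,
  1),(1,0)]⟩,⟨0,[(1,0)]⟩⟩,.a ⟨true,1,⟨0,[(19,0),(14,0)]⟩,⟨2,[(1,1),(0,1),(13,0),(11,1),(0,0)]⟩⟩
  ⟨false,(-1),⟨0,[(2,0)]⟩,⟨0,[(5,0),(29,0)]⟩⟩ ⟨true,(-1),⟨0,[(2,0)]⟩,⟨0,[(5,0)]⟩⟩,.o ⟨false,1,⟨1,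
  [(19,1),(4,0),(9,0)]⟩,⟨3,[(1,1),(0,1),(13,1),(7,0),(10,0)]⟩⟩]⟩)))) (.I [0,0,-1,0,1,0,0,-1] (.R ⟨2,
  true,false,true,[0,1],[0,0,1],[1,0,1],(⟨0,[]⟩,⟨0,[]⟩),(⟨0,[(20,0)]⟩,⟨0,[(19,0)]⟩),⟨0,[]⟩,.k,.k,.k,
  .k,.k,.k,⟨false,1,⟨0,[(0,0),(25,0)]⟩,⟨0,[(4,0),(20,0)]⟩⟩,⟨true,0,⟨0,[(17,0)]⟩,⟨0,[(4,0),(11,0)]⟩⟩,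
  ⟨false,1,⟨13,[(3,1),(2,5),(8,1),(2,1),(3,2),(10,8)]⟩,⟨0,[(31,0)]⟩⟩,⟨true,0,⟨0,[(2,0),(27,0)]⟩,⟨0,
  [(1,0)]⟩⟩,⟨true,0,⟨0,[]⟩,⟨0,[(35,0)]⟩⟩,⟨false,0,⟨0,[(2,0)]⟩,⟨0,[(16,0),(16,0)]⟩⟩,[]⟩) (.R ⟨2,true,
  false,true,[0,1],[0,0,1],[0,0,1,1],(⟨0,[]⟩,⟨0,[]⟩),(⟨0,[(20,0)]⟩,⟨0,[(19,0)]⟩),⟨0,[]⟩,.k,.k,.k,.k,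
  .k,.k,⟨false,1,⟨1,[(1,1),(15,1),(14,0),(0,0)]⟩,⟨0,[(0,0),(29,0),(1,0)]⟩⟩,⟨true,0,⟨0,[(17,0)]⟩,⟨5,
  [(0,1),(0,1),(4,0),(0,0),(6,1),(7,1)]⟩⟩,⟨false,1,⟨1,[(10,0),(0,0),(21,0)]⟩,⟨0,[]⟩⟩,⟨true,0,⟨0,[(2,
  0),(27,0)]⟩,⟨0,[(1,0)]⟩⟩,⟨true,0,⟨0,[(31,0)]⟩,⟨0,[(30,0)]⟩⟩,⟨false,0,⟨0,[(2,0)]⟩,⟨0,[(16,0),(16,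
  0)]⟩⟩,[]⟩))) (.S ⟨1,0,[0,0,0,0,0,0,0,1],[0,0,1],[0,1,0,0,0,0,0,1],(⟨0,[(18,0)]⟩,⟨0,[(17,0)]⟩),⟨0,
  [(7,0)]⟩,.k,.k,⟨true,0,⟨0,[(33,0)]⟩,⟨0,[]⟩⟩,⟨false,1,⟨1,[(8,0),(0,0),(21,0)]⟩,⟨0,[]⟩⟩,⟨false,0,⟨0,
  [(29,0)]⟩,⟨13,[(1,1),(2,5),(8,1),(2,1),(3,2),(10,8)]⟩⟩,⟨true,0,⟨0,[(29,0)]⟩,⟨0,[(28,0)]⟩⟩,[.o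
  ⟨false,1,⟨1,[(13,1),(6,0),(10,0)]⟩,⟨0,[(0,0)]⟩⟩,.o ⟨false,1,⟨1,[(2,1),(12,1),(4,0),(9,0)]⟩,⟨0,
  [(14,0)]⟩⟩,.o ⟨false,1,⟨1,[(15,1),(4,0),(9,0)]⟩,⟨2,[(0,1),(1,1),(13,0),(6,0)]⟩⟩,.a ⟨true,0,⟨0,
  [(15,0)]⟩,⟨0,[(12,0)]⟩⟩ ⟨true,0,⟨0,[(2,0),(20,0)]⟩,⟨0,[(0,0),(14,0)]⟩⟩ ⟨false,1,⟨1,[(2,0),(0,0),
  (26,0),(0,0)]⟩,⟨0,[(0,0),(14,0)]⟩⟩]⟩)) (.R ⟨2,true,false,false,[0,1],[0,1,1],[0,0,1,1],(⟨0,[]⟩,⟨0,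
  []⟩),(⟨0,[(17,0),(3,0)]⟩,⟨0,[(5,0)]⟩),⟨0,[]⟩,.k,.k,.k,.k,.k,.k,⟨true,1,⟨1,[(13,1),(0,1),(14,0),(0,
  0)]⟩,⟨0,[(0,0),(26,0)]⟩⟩,⟨false,1,⟨0,[(14,0),(14,0)]⟩,⟨5,[(0,1),(2,0),(0,0),(6,1),(1,1),(5,1)]⟩⟩,
  ⟨false,1,⟨1,[(7,0),(0,0),(21,0)]⟩,⟨0,[]⟩⟩,⟨true,0,⟨0,[(0,0),(13,0),(12,0),(1,0)]⟩,⟨0,[(13,0)]⟩⟩,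
  ⟨true,0,⟨0,[(28,0)]⟩,⟨0,[(27,0)]⟩⟩,⟨false,0,⟨0,[(0,0),(13,0),(14,0)]⟩,⟨3,[(3,1),(3,0),(0,0),(4,3),
  (5,0),(10,1)]⟩⟩,[]⟩))

theorem ok1 : chk K t1 l2 = true := by decide +kernel

noncomputable def t2 : Tre :=
  (.Q [1,0,0,0,-1,0,0,0,1,0,0,1] (.p true [0,0,0,0,1] [] (⟨0,[(9,0)]⟩,⟨0,[(8,0)]⟩) .k 0 (⟨0,[]⟩,⟨0,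
  []⟩) .k .k) (.R ⟨2,true,false,false,[0,1],[0,0,0,0,1],[1,1,1],(⟨0,[]⟩,⟨0,[]⟩),(⟨0,[(10,0)]⟩,⟨0,
  [(9,0)]⟩),⟨0,[]⟩,.k,.k,.k,(.r 0 ⟨1,[(14,0),(0,0),(12,1)]⟩ ⟨3,[(3,1),(3,0),(0,0),(10,0),(9,1)]⟩),
  .k,.k,⟨false,0,⟨0,[(32,0)]⟩,⟨1,[(29,0),(0,0)]⟩⟩,⟨true,(-1),⟨3,[(0,3),(13,0),(0,0),(15,1)]⟩,⟨0,[(7,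
  0)]⟩⟩,⟨true,0,⟨0,[(27,0)]⟩,⟨0,[(28,0)]⟩⟩,⟨false,0,⟨3,[(0,2),(2,1),(4,0),(10,0),(10,1)]⟩,⟨0,[(7,0),
  (20,0)]⟩⟩,⟨false,0,⟨0,[]⟩,⟨1,[(7,0),(0,0),(21,0)]⟩⟩,⟨true,(-1),⟨0,[(0,0)]⟩,⟨0,[(7,0),(24,0)]⟩⟩,
  []⟩) (.I [0,0,3,3,-2] (.R ⟨1,true,false,true,[1,-1],[0,1],[0,0,-1,-1],(⟨0,[(21,0)]⟩,⟨0,[(22,0)]⟩),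
  (⟨0,[(22,0)]⟩,⟨0,[(21,0)]⟩),⟨0,[(6,0),(0,0)]⟩,.k,.k,(.r (-2) ⟨1,[(4,1),(3,0),(0,0),(10,0),(9,1)]⟩
  ⟨2,[(0,1),(7,0),(0,0)]⟩),(.r (-2) ⟨1,[(4,1),(3,0),(0,0),(10,0),(9,1)]⟩ ⟨2,[(0,1),(7,0),(0,0)]⟩),
  (.r (-3) ⟨3,[(4,5),(3,2),(0,2),(10,2),(9,5)]⟩ ⟨0,[(0,0)]⟩),.k,⟨true,2,⟨1,[(4,1),(15,0),(9,1),(0,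
  0)]⟩,⟨0,[(0,0),(27,0)]⟩⟩,⟨false,2,⟨1,[(20,0),(9,2)]⟩,⟨4,[(0,1),(3,2),(10,1),(0,1),(8,0)]⟩⟩,⟨false,
  1,⟨1,[(8,0),(0,0),(21,0)]⟩,⟨0,[]⟩⟩,⟨true,0,⟨1,[(0,0),(19,0),(2,0),(5,0),(0,0)]⟩,⟨0,[(4,0)]⟩⟩,
  ⟨true,0,⟨0,[(29,0)]⟩,⟨0,[(28,0)]⟩⟩,⟨false,0,⟨1,[(0,1),(19,0),(9,2)]⟩,⟨3,[(4,5),(3,0),(0,0),(10,0),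
  (10,1)]⟩⟩,[]⟩) (.Q [-1,1,0,0,0,0,0,0,-1,0,0,-1] (.p false [0,0,0,0,1] [] (⟨0,[(11,0)]⟩,⟨0,[(10,
  0)]⟩) .k 0 (⟨0,[]⟩,⟨0,[]⟩) .k .k) (.Q [0,0,0,0,0,-1,0,0,0,0,0,1] (.ed false [1,-1,0,0,1] .k) (.S
  ⟨1,0,[1],[0,0,0,0,1],[1,1],(⟨0,[(13,0)]⟩,⟨0,[(12,0)]⟩),⟨0,[(0,0)]⟩,.k,(.r (-1) ⟨2,[(2,0),(7,0),(0,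
  0)]⟩ ⟨1,[(17,0),(0,0),(12,1)]⟩),⟨true,0,⟨0,[(35,0)]⟩,⟨0,[]⟩⟩,⟨false,1,⟨1,[(10,0),(0,0),(21,0)]⟩,
  ⟨0,[]⟩⟩,⟨false,0,⟨0,[(31,0)]⟩,⟨9,[(2,1),(3,1),(10,2),(0,2),(3,0),(10,4)]⟩⟩,⟨true,0,⟨0,[(31,0)]⟩,
  ⟨0,[(30,0)]⟩⟩,[.e ⟨true,0,⟨0,[(35,0)]⟩,⟨0,[(26,0)]⟩⟩ ⟨true,0,⟨0,[]⟩,⟨1,[(17,0),(0,0)]⟩⟩,.o ⟨false,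
  1,⟨1,[(11,1),(10,0),(10,0)]⟩,⟨0,[(1,0)]⟩⟩,.a ⟨true,0,⟨0,[(11,0)]⟩,⟨1,[(1,1),(25,0),(5,0)]⟩⟩
  ⟨false,0,⟨0,[]⟩,⟨1,[(10,0),(0,0),(21,0)]⟩⟩ ⟨true,0,⟨0,[]⟩,⟨0,[(35,0)]⟩⟩,.e ⟨false,1,⟨1,[(10,0),(0,
  0),(20,0)]⟩,⟨0,[(26,0)]⟩⟩ ⟨false,1,⟨1,[(32,0),(0,0)]⟩,⟨1,[(17,0),(0,0)]⟩⟩]⟩) (.S ⟨1,0,[-1,1],[1,0,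
  0,0,-1],[-1],(⟨0,[(12,0)]⟩,⟨0,[(13,0)]⟩),⟨0,[(0,0),(7,0),(0,0)]⟩,.k,(.r (-1) ⟨5,[(2,1),(0,0),(7,
  0),(21,0),(1,1)]⟩ ⟨1,[(17,0),(0,0),(12,1)]⟩),⟨false,1,⟨1,[(10,0),(0,0),(21,0)]⟩,⟨0,[]⟩⟩,⟨true,0,
  ⟨0,[(35,0)]⟩,⟨0,[]⟩⟩,⟨true,0,⟨0,[(31,0)]⟩,⟨0,[(30,0)]⟩⟩,⟨false,0,⟨0,[(31,0)]⟩,⟨9,[(2,1),(3,1),(10,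
  2),(0,2),(3,0),(10,4)]⟩⟩,[.o ⟨false,0,⟨0,[(1,0)]⟩,⟨1,[(11,1),(10,0),(10,0)]⟩⟩,.e ⟨false,1,⟨0,[(26,
  0),(5,0)]⟩,⟨0,[(35,0)]⟩⟩ ⟨false,1,⟨1,[(3,0),(7,0),(20,0)]⟩,⟨0,[]⟩⟩,.a ⟨true,0,⟨1,[(1,1),(25,0),(5,
  0)]⟩,⟨0,[(11,0)]⟩⟩ ⟨false,1,⟨1,[(3,0),(7,0),(21,0)]⟩,⟨0,[]⟩⟩ ⟨true,0,⟨0,[(35,0)]⟩,⟨0,[]⟩⟩,.o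
  ⟨false,0,⟨0,[(1,0),(24,0)]⟩,⟨1,[(11,1),(10,0),(9,0)]⟩⟩]⟩)) (.Q [1,0,0,1,-1,0,0,0,1,0,0,1] (.p
  true [0,0,0,0,1] [] (⟨0,[(12,0)]⟩,⟨0,[(11,0)]⟩) .k 0 (⟨0,[]⟩,⟨0,[]⟩) .k .k) (.Q [1,-1,0,0,0,0,0,0,
  1,-1,0,1] (.p true [0,0,0,0,1] [1] (⟨0,[(13,0)]⟩,⟨0,[(12,0)]⟩) .k 1 (⟨0,[]⟩,⟨0,[]⟩) .k .k) (.Q [2,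
  -1,0,0,-1,0,0,0,2,-1,0,2] (.p true [0,0,0,0,1] [1,0,0,0,-1] (⟨0,[(14,0)]⟩,⟨0,[(13,0)]⟩) .k 2 (⟨0,
  [(13,0)]⟩,⟨0,[(14,0)]⟩) .k (.r 0 ⟨0,[]⟩ ⟨3,[(4,2),(7,2),(21,0),(1,1)]⟩)) (.Q [0,0,0,0,0,-1,0,0,0,
  1,0,-1] (.ed true [0,1,0,0,1] .k) (.S ⟨1,3,[],[1,0,0,0,-1],[-1,1],(⟨0,[(15,0)]⟩,⟨0,[(16,0)]⟩),⟨0,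
  [(0,0)]⟩,.k,(.r (-1) ⟨5,[(5,1),(0,0),(7,0),(21,0),(1,1)]⟩ ⟨1,[(20,0),(0,0),(12,1)]⟩),⟨true,0,⟨0,
  [(38,0)]⟩,⟨0,[]⟩⟩,⟨false,0,⟨0,[(4,0)]⟩,⟨0,[(6,0)]⟩⟩,⟨false,0,⟨0,[(34,0)]⟩,⟨9,[(5,1),(3,1),(10,2),
  (0,2),(3,0),(10,4)]⟩⟩,⟨true,(-1),⟨0,[(3,0)]⟩,⟨0,[(13,0),(19,0)]⟩⟩,[.fa ⟨true,0,⟨0,[(38,0)]⟩,⟨0,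
  [(29,0)]⟩⟩ ⟨false,0,⟨19,[(1,5),(12,7),(13,1),(1,2),(4,8),(2,1)]⟩,⟨0,[(13,0)]⟩⟩,.e ⟨false,1,⟨1,[(6,
  0),(7,0),(20,0)]⟩,⟨0,[]⟩⟩ ⟨false,0,⟨3,[(1,1),(27,1),(0,0),(4,2)]⟩,⟨0,[(13,0),(24,0)]⟩⟩,.o ⟨false,
  1,⟨0,[(13,0)]⟩,⟨2,[(1,0),(12,0),(10,0),(12,0)]⟩⟩,.e ⟨false,1,⟨1,[(6,0),(7,0),(20,0)]⟩,⟨0,[(29,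
  0)]⟩⟩ ⟨false,0,⟨3,[(1,1),(27,1),(0,0),(4,2)]⟩,⟨1,[(13,1),(6,0),(0,0)]⟩⟩]⟩) (.Q [0,-1,-1,-1,0,0,0,
  0,1,0,0,1] (.p true [0,0,0,0,1] [] (⟨0,[(16,0)]⟩,⟨0,[(15,0)]⟩) .k 0 (⟨0,[]⟩,⟨0,[]⟩) .k .k) (.R ⟨0,
  false,false,false,[1,0,0,0,-1],[1,-1],[1],(⟨0,[(16,0)]⟩,⟨0,[(17,0)]⟩),(⟨0,[(27,0)]⟩,⟨0,[(28,0)]⟩),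
  ⟨0,[(1,0)]⟩,.k,.k,(.r (-1) ⟨5,[(6,1),(0,0),(7,0),(21,0),(1,1)]⟩ ⟨1,[(21,0),(0,0),(12,1)]⟩),(.r 0
  ⟨1,[(21,0),(0,0),(12,1)]⟩ ⟨2,[(6,0),(7,0),(0,0)]⟩),.k,.k,⟨false,0,⟨0,[(35,0)]⟩,⟨2,[(6,0),(7,0),(0,
  0)]⟩⟩,⟨true,(-1),⟨0,[(4,0),(25,0),(3,0)]⟩,⟨0,[(14,0)]⟩⟩,⟨true,0,⟨0,[]⟩,⟨0,[(39,0)]⟩⟩,⟨false,0,⟨15,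
  [(2,5),(7,7),(4,3),(10,0),(10,4)]⟩,⟨0,[(14,0),(20,0)]⟩⟩,⟨false,0,⟨0,[]⟩,⟨0,[]⟩⟩,⟨false,0,⟨0,[]⟩,
  ⟨0,[]⟩⟩,[.a ⟨true,0,⟨3,[(7,0),(2,1),(4,0),(15,0)]⟩,⟨0,[(35,0)]⟩⟩ ⟨true,0,⟨0,[]⟩,⟨1,[(21,0),(0,
  0)]⟩⟩ ⟨false,0,⟨12,[(0,5),(1,1),(3,0),(3,1),(4,2),(13,3)]⟩,⟨0,[(14,0),(20,0)]⟩⟩,.e ⟨false,1,⟨1,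
  [(36,0),(0,0)]⟩,⟨0,[(39,0)]⟩⟩ ⟨false,0,⟨0,[(0,0)]⟩,⟨0,[(14,0),(20,0),(3,0)]⟩⟩,.o ⟨false,1,⟨0,[(14,
  0)]⟩,⟨2,[(2,0),(12,0),(10,0),(12,0)]⟩⟩,.e ⟨false,1,⟨1,[(36,0),(0,0)]⟩,⟨1,[(21,0),(0,0)]⟩⟩ ⟨false,
  0,⟨0,[(0,0)]⟩,⟨1,[(14,1),(6,0),(0,0),(12,1)]⟩⟩]⟩) (.Q [0,0,1,0,0,0,0,0,-1,1,0,-1] (.p false [0,0,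
  0,0,1] [1] (⟨0,[(17,0)]⟩,⟨0,[(16,0)]⟩) .k 1 (⟨0,[]⟩,⟨0,[]⟩) .k .k) (.R ⟨0,false,false,true,[1,0,0,
  0,-1],[0,0,0,0,1],[],(⟨0,[(17,0)]⟩,⟨0,[(18,0)]⟩),(⟨0,[(18,0)]⟩,⟨0,[(17,0)]⟩),⟨0,[(2,0)]⟩,.k,.k,
  (.r (-1) ⟨5,[(7,1),(0,0),(7,0),(21,0),(1,1)]⟩ ⟨5,[(1,3),(3,1),(10,1),(5,0),(0,0),(14,1)]⟩),.k,.k,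
  .k,⟨false,1,⟨0,[(31,0),(5,0)]⟩,⟨0,[(40,0)]⟩⟩,⟨true,(-1),⟨0,[(3,0),(36,0)]⟩,⟨0,[(0,0),(14,0)]⟩⟩,
  ⟨true,0,⟨0,[]⟩,⟨0,[(40,0)]⟩⟩,⟨false,(-1),⟨0,[(3,0),(36,0)]⟩,⟨1,[(0,1),(7,1),(28,0),(0,0)]⟩⟩,
  ⟨false,0,⟨0,[]⟩,⟨0,[]⟩⟩,⟨false,0,⟨0,[]⟩,⟨0,[]⟩⟩,[.e ⟨false,1,⟨1,[(15,0),(0,0),(20,0)]⟩,⟨0,[]⟩⟩
  ⟨false,(-1),⟨0,[(3,0),(26,0)]⟩,⟨1,[(0,1),(14,1),(21,0),(0,0)]⟩⟩,.o ⟨false,0,⟨2,[(3,0),(12,0),(10,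
  0),(12,0)]⟩,⟨0,[(8,0)]⟩⟩,.o ⟨false,1,⟨0,[(15,0)]⟩,⟨2,[(3,0),(12,0),(10,0),(12,0)]⟩⟩,.a ⟨true,0,⟨0,
  [(0,0)]⟩,⟨19,[(3,5),(12,7),(13,1),(1,2),(4,8),(2,1)]⟩⟩ ⟨false,1,⟨1,[(37,0),(0,0)]⟩,⟨1,[(22,0),(0,
  0)]⟩⟩ ⟨true,(-1),⟨0,[(3,0),(26,0)]⟩,⟨0,[(0,0),(7,0)]⟩⟩]⟩) (.R ⟨0,false,false,false,[1,0,0,0,-1],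
  [0,1],[-1,1],(⟨0,[(17,0)]⟩,⟨0,[(18,0)]⟩),(⟨0,[(29,0)]⟩,⟨0,[(28,0)]⟩),⟨0,[(2,0)]⟩,.k,.k,(.r (-1)
  ⟨5,[(7,1),(0,0),(7,0),(21,0),(1,1)]⟩ ⟨5,[(1,3),(3,1),(10,1),(5,0),(0,0),(14,1)]⟩),(.r (-1) ⟨5,[(7,
  1),(0,0),(7,0),(21,0),(1,1)]⟩ ⟨5,[(1,3),(3,1),(10,1),(5,0),(0,0),(14,1)]⟩),.k,.k,⟨false,1,⟨17,[(7,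
  5),(0,0),(7,0),(13,7),(6,4),(2,1)]⟩,⟨1,[(1,0),(3,0),(25,0),(6,0)]⟩⟩,⟨true,0,⟨0,[(0,0)]⟩,⟨2,[(1,1),
  (9,0),(3,0),(6,0),(0,0),(7,1),(0,0)]⟩⟩,⟨true,0,⟨0,[(40,0)]⟩,⟨0,[]⟩⟩,⟨false,0,⟨1,[(5,1),(21,0),(10,
  0)]⟩,⟨3,[(8,4),(2,1),(4,0),(15,0)]⟩⟩,⟨false,0,⟨0,[]⟩,⟨0,[]⟩⟩,⟨false,0,⟨0,[]⟩,⟨0,[]⟩⟩,[.a ⟨true,0,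
  ⟨0,[(36,0)]⟩,⟨3,[(8,0),(2,1),(4,0),(15,0)]⟩⟩ ⟨true,0,⟨0,[(40,0)]⟩,⟨0,[(31,0)]⟩⟩ ⟨false,0,⟨0,[(0,
  0),(35,0)]⟩,⟨3,[(8,0),(2,1),(3,3),(0,0),(15,0)]⟩⟩,.o ⟨false,1,⟨1,[(27,0),(8,1),(1,0)]⟩,⟨0,[(35,
  0)]⟩⟩,.o ⟨false,1,⟨0,[(15,0)]⟩,⟨2,[(3,0),(12,0),(10,0),(12,0)]⟩⟩,.o ⟨false,1,⟨1,[(15,1),(6,0),(0,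
  0)]⟩,⟨0,[(0,0)]⟩⟩]⟩)))) (.Q [0,0,0,0,0,-1,0,0,0,0,0,1] (.ed false [1,-1,0,0,1] .k) (.S ⟨1,4,[],[0,
  0,0,0,1],[1,1],(⟨0,[(16,0)]⟩,⟨0,[(15,0)]⟩),⟨0,[(0,0)]⟩,.k,(.r (-1) ⟨2,[(5,0),(7,0),(0,0)]⟩ ⟨1,
  [(20,0),(0,0),(12,1)]⟩),⟨true,0,⟨0,[(38,0)]⟩,⟨0,[]⟩⟩,⟨false,1,⟨7,[(1,5),(12,3),(15,0),(5,2)]⟩,⟨0,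
  [(2,0)]⟩⟩,⟨false,0,⟨0,[(34,0)]⟩,⟨9,[(5,1),(3,1),(10,2),(0,2),(3,0),(10,4)]⟩⟩,⟨true,0,⟨0,[(1,0),(1,
  0)]⟩,⟨0,[(2,0),(30,0)]⟩⟩,[.o ⟨false,0,⟨0,[(38,0)]⟩,⟨1,[(25,0),(10,0)]⟩⟩,.fa ⟨true,0,⟨0,[]⟩,⟨1,
  [(20,0),(0,0)]⟩⟩ ⟨false,1,⟨3,[(1,1),(28,0),(4,1),(0,0)]⟩,⟨3,[(2,1),(0,0),(10,0),(10,0),(7,0),(4,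
  0)]⟩⟩,.o ⟨false,0,⟨3,[(2,1),(0,0),(10,0),(10,0),(7,0),(4,0)]⟩,⟨0,[(13,0)]⟩⟩,.e ⟨false,1,⟨1,[(13,
  0),(0,0),(20,0)]⟩,⟨0,[(29,0)]⟩⟩ ⟨false,1,⟨3,[(1,1),(28,0),(4,1),(0,0)]⟩,⟨3,[(2,3),(17,0),(0,0),
  (15,1)]⟩⟩]⟩) (.I [1,1,1,1,-1] (.R ⟨1,false,false,true,[1,-1],[1,0,0,0,-1],[1,1,-1,-2],(⟨0,[(27,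
  0)]⟩,⟨0,[(28,0)]⟩),(⟨0,[(16,0)]⟩,⟨0,[(17,0)]⟩),⟨0,[(12,0),(0,0)]⟩,.k,.k,(.r (-2) ⟨2,[(6,1),(7,1),
  (0,1)]⟩ ⟨0,[(0,1),(36,0)]⟩),(.r (-1) ⟨2,[(6,0),(7,0),(0,0)]⟩ ⟨1,[(21,0),(0,0),(12,1)]⟩),(.r (-2)
  ⟨2,[(6,1),(7,1),(0,1)]⟩ ⟨0,[(0,1),(29,1),(5,0)]⟩),.k,⟨true,1,⟨9,[(6,3),(3,3),(10,0),(0,0),(3,1)]⟩,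
  ⟨0,[(0,1),(29,1),(5,0)]⟩⟩,⟨false,2,⟨0,[(14,0),(21,0)]⟩,⟨1,[(0,0),(2,0),(0,0),(5,0),(27,0)]⟩⟩,
  ⟨true,0,⟨0,[(34,0)]⟩,⟨0,[(35,0)]⟩⟩,⟨false,1,⟨0,[(14,0),(20,0)]⟩,⟨1,[(3,0),(1,0),(4,0)]⟩⟩,⟨false,0,
  ⟨0,[]⟩,⟨1,[(14,0),(0,0),(21,0)]⟩⟩,⟨false,1,⟨0,[(14,0),(20,1)]⟩,⟨0,[(3,0),(6,0)]⟩⟩,[.o ⟨false,1,⟨2,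
  [(2,1),(12,0),(10,0),(12,0)]⟩,⟨0,[(3,0)]⟩⟩,.o ⟨false,1,⟨0,[(7,0)]⟩,⟨2,[(3,0),(0,0),(10,0),(10,0),
  (7,0)]⟩⟩,.o ⟨false,0,⟨1,[(21,0),(0,0)]⟩,⟨1,[(26,0),(9,0)]⟩⟩,.a ⟨true,(-1),⟨2,[(0,1),(9,0),(10,0),
  (0,0),(7,1),(0,0)]⟩,⟨0,[(36,0)]⟩⟩ ⟨true,1,⟨0,[(0,0),(5,0)]⟩,⟨0,[(0,1),(36,0)]⟩⟩ ⟨false,2,⟨0,[(14,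
  0),(21,0)]⟩,⟨3,[(0,1),(2,1),(0,1),(5,1),(10,0),(0,0),(7,3)]⟩⟩]⟩) (.S ⟨1,3,[],[1,0,0,0,-1],[-1,1],
  (⟨0,[(16,0)]⟩,⟨0,[(17,0)]⟩),⟨0,[(1,0),(10,0),(0,0)]⟩,.k,(.r (-1) ⟨44,[(2,3),(3,14),(8,7),(10,1),
  (10,8),(1,13)]⟩ ⟨1,[(21,0),(0,0),(12,1)]⟩),⟨true,0,⟨0,[(39,0)]⟩,⟨0,[]⟩⟩,⟨false,0,⟨0,[(5,0)]⟩,⟨0,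
  [(7,0)]⟩⟩,⟨false,0,⟨0,[(35,0)]⟩,⟨9,[(6,1),(3,1),(10,2),(0,2),(3,0),(10,4)]⟩⟩,⟨true,(-1),⟨0,[(4,
  0)]⟩,⟨19,[(2,9),(3,1),(3,1),(10,2),(0,2),(3,5),(7,9)]⟩⟩,[.fa ⟨true,0,⟨0,[(39,0)]⟩,⟨0,[(30,0)]⟩⟩
  ⟨false,0,⟨5,[(0,0),(3,3),(1,0),(8,1),(20,0),(2,0)]⟩,⟨0,[(14,0)]⟩⟩,.e ⟨false,1,⟨1,[(7,0),(7,0),(20,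
  0)]⟩,⟨0,[]⟩⟩ ⟨false,0,⟨0,[(0,0),(3,0)]⟩,⟨2,[(2,1),(12,0),(10,0),(12,0)]⟩⟩,.o ⟨false,1,⟨0,[(14,
  0)]⟩,⟨3,[(3,1),(0,0),(10,0),(10,0),(7,0),(4,0)]⟩⟩,.e ⟨false,1,⟨1,[(7,0),(7,0),(20,0)]⟩,⟨0,[(30,
  0)]⟩⟩ ⟨false,0,⟨0,[(0,0),(3,0)]⟩,⟨1,[(14,1),(6,0),(0,0)]⟩⟩]⟩)))) (.R ⟨2,true,false,true,[0,1],[1,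
  0,0,0,-1],[1,1,1],(⟨0,[]⟩,⟨0,[]⟩),(⟨0,[(13,0)]⟩,⟨0,[(14,0)]⟩),⟨0,[]⟩,.k,.k,.k,(.r 0 ⟨1,[(18,0),(0,
  0),(12,1)]⟩ ⟨5,[(3,1),(0,0),(7,0),(21,0),(1,1)]⟩),.k,.k,⟨false,0,⟨0,[]⟩,⟨1,[(4,0),(7,0),(20,0)]⟩⟩,
  ⟨true,0,⟨0,[(0,0),(26,0)]⟩,⟨7,[(1,5),(1,0),(8,1),(10,3),(3,2),(3,2)]⟩⟩,⟨true,0,⟨0,[(31,0)]⟩,⟨0,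
  [(32,0)]⟩⟩,⟨false,1,⟨3,[(0,1),(3,0),(2,1),(3,1),(0,0),(21,0)]⟩,⟨1,[(1,1),(21,0),(10,0)]⟩⟩,⟨false,
  0,⟨0,[]⟩,⟨1,[(11,0),(0,0),(21,0)]⟩⟩,⟨true,0,⟨0,[(0,0)]⟩,⟨1,[(1,0),(0,0),(20,0),(7,0)]⟩⟩,[]⟩)) (.Q
  [0,1,0,0,0,0,0,0,-1,0,0,-1] (.p false [0,0,0,0,1] [] (⟨0,[(13,0)]⟩,⟨0,[(12,0)]⟩) .k 0 (⟨0,[]⟩,⟨0,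
  []⟩) .k .k) (.R ⟨2,true,false,false,[0,1],[0,0,0,0,1],[1,0,1],(⟨0,[]⟩,⟨0,[]⟩),(⟨0,[(14,0)]⟩,⟨0,
  [(13,0)]⟩),⟨0,[]⟩,.k,.k,.k,(.r 0 ⟨1,[(18,0),(0,0),(12,1)]⟩ ⟨2,[(3,0),(7,0),(0,0)]⟩),.k,.k,⟨true,0,
  ⟨1,[(18,0),(0,0)]⟩,⟨0,[]⟩⟩,⟨false,0,⟨0,[(12,0)]⟩,⟨1,[(0,1),(32,0),(0,0)]⟩⟩,⟨false,1,⟨5,[(1,1),(5,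
  1),(4,1),(10,0),(10,2)]⟩,⟨0,[(32,0)]⟩⟩,⟨true,0,⟨0,[(2,0),(28,0)]⟩,⟨0,[(0,0),(31,0)]⟩⟩,⟨true,0,⟨0,
  []⟩,⟨0,[(36,0)]⟩⟩,⟨false,0,⟨0,[(2,0)]⟩,⟨0,[(4,0)]⟩⟩,[]⟩) (.Q [0,0,0,0,0,0,1,0,0,0,1] (.p true [0,
  0,1] [] (⟨0,[(21,0)]⟩,⟨0,[(20,0)]⟩) .k 0 (⟨0,[]⟩,⟨0,[]⟩) .k .k) (.Q [0,1,0,-1,0,0,-1,-1,0,0,-1]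
  (.p false [0,0,1] [] (⟨0,[(22,0)]⟩,⟨0,[(21,0)]⟩) .k 0 (⟨0,[]⟩,⟨0,[]⟩) .k .k) (.I [0,0,-2,-2,1,0,0,
  -1] (.K ⟨0,[0,1,1],0,0,(⟨0,[(24,0),(3,0)]⟩,⟨0,[(12,0)]⟩),.k,.k,(.r 0 ⟨0,[(19,0),(2,0),(7,0),(4,
  1)]⟩ ⟨0,[(0,0)]⟩),.k,.k,[⟨1,[(21,0),(0,0)]⟩,⟨0,[(2,0)]⟩,⟨0,[(1,0)]⟩,⟨0,[(19,0),(15,0)]⟩]⟩) (.I [0,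
  0,2,0,-1,2,-1] (.K ⟨0,[0,1,1],0,0,(⟨1,[(0,0),(2,0),(21,0),(11,0)]⟩,⟨0,[(13,0)]⟩),.k,.k,(.x (-2)
  ⟨0,[(3,0),(9,0),(13,0),(0,0),(8,0)]⟩ ⟨0,[(0,0)]⟩),.k,.k,[⟨1,[(22,0),(0,0)]⟩,⟨0,[(3,0)]⟩,⟨0,[(2,
  0)]⟩,⟨0,[(20,0),(15,0)]⟩]⟩) (.I [0,0,2,2,-1,0,0,1] (.K ⟨0,[0,1,1],0,0,(⟨0,[(26,0),(3,0)]⟩,⟨0,[(14,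
  0)]⟩),.k,.k,(.r 1 ⟨0,[(0,0)]⟩ ⟨5,[(8,3),(1,5),(5,0),(0,0),(21,2)]⟩),.k,.k,[⟨1,[(23,0),(0,0)]⟩,⟨0,
  [(4,0)]⟩,⟨0,[(3,0)]⟩,⟨0,[(21,0),(15,0)]⟩]⟩) (.I [0,0,-2,-1,1] (.S ⟨1,0,[0,0,1,1,0,0,0,1],[0,1,1],
  [0,1,1,1,0,0,0,1],(⟨0,[(27,0),(3,0)]⟩,⟨0,[(15,0)]⟩),⟨0,[(27,0)]⟩,.k,.k,⟨true,0,⟨0,[(42,0)]⟩,⟨0,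
  []⟩⟩,⟨false,1,⟨1,[(17,0),(0,0),(21,0)]⟩,⟨0,[]⟩⟩,⟨false,0,⟨0,[(38,0)]⟩,⟨5,[(7,1),(5,1),(4,1),(10,
  0),(10,2)]⟩⟩,⟨true,0,⟨0,[(38,0)]⟩,⟨0,[(37,0)]⟩⟩,[.e ⟨false,0,⟨7,[(3,3),(8,3),(4,0),(0,0),(13,1),
  (6,2)]⟩,⟨0,[(1,0),(31,0),(4,0)]⟩⟩ ⟨false,0,⟨0,[(0,0),(2,0)]⟩,⟨4,[(1,0),(7,0),(1,3),(28,1)]⟩⟩,.o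
  ⟨false,1,⟨1,[(0,1),(2,1),(1,1),(23,0),(10,0)]⟩,⟨0,[(4,0)]⟩⟩,.o ⟨false,1,⟨1,[(5,1),(23,0),(9,0)]⟩,
  ⟨0,[(25,0)]⟩⟩,.a ⟨true,0,⟨0,[(5,0)]⟩,⟨3,[(10,0),(3,1),(3,0),(15,0)]⟩⟩ ⟨false,0,⟨0,[(0,0),(2,0)]⟩,
  ⟨2,[(1,0),(2,0),(6,0),(12,0),(8,0),(6,1)]⟩⟩ ⟨true,0,⟨0,[(0,0),(2,0)]⟩,⟨0,[(4,0),(0,0)]⟩⟩]⟩) (.I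
  [0,-1,-1,0,1,0,0,1] (.S ⟨1,0,[0,0,0,0,0,0,0,1],[0,0,1],[0,1,0,0,0,0,0,1],(⟨0,[(28,0)]⟩,⟨0,[(27,
  0)]⟩),⟨0,[(17,0)]⟩,.k,.k,⟨true,0,⟨0,[(43,0)]⟩,⟨0,[]⟩⟩,⟨false,1,⟨1,[(18,0),(0,0),(21,0)]⟩,⟨0,[]⟩⟩,
  ⟨false,0,⟨0,[(39,0)]⟩,⟨5,[(8,1),(5,1),(4,1),(10,0),(10,2)]⟩⟩,⟨true,0,⟨0,[(39,0)]⟩,⟨0,[(38,0)]⟩⟩,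
  [.o ⟨false,1,⟨1,[(23,1),(6,0),(10,0)]⟩,⟨1,[(1,2),(0,1),(19,1),(7,0),(8,0)]⟩⟩,.e ⟨false,1,⟨3,[(0,
  2),(12,0),(4,0),(0,0),(13,0)]⟩,⟨0,[(1,0),(0,0),(36,0)]⟩⟩ ⟨false,1,⟨0,[(0,0)]⟩,⟨0,[(12,0)]⟩⟩,.a
  ⟨true,0,⟨0,[(6,0)]⟩,⟨3,[(11,0),(3,1),(3,0),(15,0)]⟩⟩ ⟨true,0,⟨0,[(13,0)]⟩,⟨0,[(1,0),(0,0),(36,
  0)]⟩⟩ ⟨false,1,⟨0,[(13,0),(27,0)]⟩,⟨0,[(1,0),(0,0),(36,0)]⟩⟩,.e ⟨false,1,⟨3,[(0,2),(12,0),(4,0),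
  (0,0),(13,0)]⟩,⟨1,[(1,2),(0,1),(36,0),(1,0)]⟩⟩ ⟨false,1,⟨0,[(0,0)]⟩,⟨0,[(12,0),(21,0)]⟩⟩]⟩) (.S
  ⟨1,0,[0,1,0,0,0,0,0,1],[0,0,1],[0,0,0,0,0,0,0,1],(⟨0,[(28,0)]⟩,⟨0,[(27,0)]⟩),⟨0,[(17,0)]⟩,.k,.k,
  ⟨false,1,⟨1,[(18,0),(0,0),(21,0)]⟩,⟨0,[]⟩⟩,⟨true,0,⟨0,[(43,0)]⟩,⟨0,[]⟩⟩,⟨true,0,⟨0,[(39,0)]⟩,⟨0,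
  [(38,0)]⟩⟩,⟨false,0,⟨0,[(39,0)]⟩,⟨5,[(8,1),(5,1),(4,1),(10,0),(10,2)]⟩⟩,[.a ⟨true,0,⟨0,[(23,0)]⟩,
  ⟨0,[(0,0),(21,0),(18,0)]⟩⟩ ⟨false,1,⟨1,[(13,1),(26,0),(0,0)]⟩,⟨2,[(0,1),(1,0),(36,1),(1,0)]⟩⟩
  ⟨true,0,⟨0,[(13,0)]⟩,⟨0,[(0,0),(40,0)]⟩⟩,.o ⟨false,1,⟨1,[(23,1),(6,0),(10,0)]⟩,⟨1,[(0,1),(21,1),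
  (7,0),(10,0)]⟩⟩,.a ⟨true,0,⟨0,[(6,0)]⟩,⟨3,[(11,0),(3,1),(3,0),(15,0)]⟩⟩ ⟨false,1,⟨0,[(13,0),(27,
  0)]⟩,⟨2,[(0,1),(1,0),(36,1),(1,0)]⟩⟩ ⟨true,0,⟨0,[(13,0)]⟩,⟨2,[(0,1),(1,0),(36,1),(1,0)]⟩⟩,.a
  ⟨true,0,⟨0,[(25,0)]⟩,⟨0,[(22,0)]⟩⟩ ⟨true,1,⟨1,[(13,1),(26,0),(0,0)]⟩,⟨0,[(0,0)]⟩⟩ ⟨false,1,⟨1,
  [(13,1),(26,0),(0,0)]⟩,⟨0,[(0,0),(40,0)]⟩⟩]⟩)))))) (.I [1,-1,-1,-1,1,0,0,-1] (.Q [0,0,0,-1,0,0,-1,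
  -1,0,1,-1] (.p false [0,0,1] [1] (⟨0,[(24,0)]⟩,⟨0,[(23,0)]⟩) .k 1 (⟨0,[]⟩,⟨0,[]⟩) .k .k) (.R ⟨2,
  false,false,false,[0,1],[0,1,1],[0,1],(⟨0,[]⟩,⟨0,[]⟩),(⟨0,[(25,0),(3,0)]⟩,⟨0,[(13,0)]⟩),⟨0,[]⟩,.k,
  .k,.k,.k,.k,.k,⟨false,1,⟨0,[(1,0),(28,0)]⟩,⟨0,[(2,0),(20,0)]⟩⟩,⟨true,0,⟨0,[(3,0)]⟩,⟨0,[(23,0)]⟩⟩,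
  ⟨false,1,⟨2,[(7,0),(7,0),(0,0)]⟩,⟨0,[(31,0),(4,0)]⟩⟩,⟨true,0,⟨0,[(2,0),(32,0)]⟩,⟨0,[(21,0)]⟩⟩,
  ⟨false,1,⟨1,[(15,0),(0,0),(20,0)]⟩,⟨0,[(34,0)]⟩⟩,⟨false,0,⟨0,[(2,0)]⟩,⟨1,[(0,1),(14,0),(0,0),(10,
  0)]⟩⟩,[.a ⟨true,0,⟨1,[(2,0),(17,0),(15,0)]⟩,⟨0,[(0,0)]⟩⟩ ⟨true,0,⟨0,[(40,0)]⟩,⟨0,[(34,0)]⟩⟩
  ⟨false,0,⟨1,[(2,0),(17,0),(15,0)]⟩,⟨9,[(1,3),(5,1),(4,1),(8,5),(5,0),(10,0)]⟩⟩,.e ⟨false,1,⟨1,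
  [(15,0),(0,0),(20,0)]⟩,⟨0,[]⟩⟩ ⟨false,0,⟨0,[(2,0)]⟩,⟨2,[(7,0),(7,0),(0,0),(4,2)]⟩⟩,.o ⟨false,1,⟨1,
  [(27,0),(9,0)]⟩,⟨1,[(22,0),(0,0)]⟩⟩,.fo]⟩) (.R ⟨2,true,false,false,[0,1],[0,1,1],[1,0,1],(⟨0,[]⟩,
  ⟨0,[]⟩),(⟨0,[(25,0),(3,0)]⟩,⟨0,[(13,0)]⟩),⟨0,[]⟩,.k,.k,.k,.k,.k,.k,⟨false,1,⟨5,[(1,2),(5,0),(1,2),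
  (5,0),(0,0)]⟩,⟨2,[(0,0),(1,0),(7,0),(1,0),(23,0)]⟩⟩,⟨true,0,⟨0,[(3,0)]⟩,⟨0,[(23,0)]⟩⟩,⟨false,1,⟨5,
  [(5,1),(5,1),(4,1),(10,0),(10,2)]⟩,⟨0,[(36,0)]⟩⟩,⟨true,0,⟨2,[(0,0),(1,0),(8,0),(8,0)]⟩,⟨0,[(21,
  0)]⟩⟩,⟨true,0,⟨0,[]⟩,⟨0,[(40,0)]⟩⟩,⟨false,0,⟨0,[(2,0)]⟩,⟨1,[(1,0),(3,0),(10,0),(4,0),(1,0)]⟩⟩,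
  []⟩)) (.R ⟨2,true,false,false,[0,1],[0,1,1],[0,0,1,1],(⟨0,[]⟩,⟨0,[]⟩),(⟨0,[(24,0),(3,0)]⟩,⟨0,[(12,
  0)]⟩),⟨0,[]⟩,.k,.k,.k,.k,.k,.k,⟨false,1,⟨1,[(8,1),(27,0),(0,0)]⟩,⟨1,[(0,0),(0,0),(8,0),(7,0),(7,
  0)]⟩⟩,⟨true,0,⟨0,[(2,0)]⟩,⟨0,[(22,0)]⟩⟩,⟨false,1,⟨1,[(14,0),(0,0),(21,0)]⟩,⟨0,[]⟩⟩,⟨true,0,⟨7,[(0,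
  2),(0,3),(0,2),(3,0),(3,1),(8,0),(6,0)]⟩,⟨0,[(20,0)]⟩⟩,⟨true,0,⟨0,[(35,0)]⟩,⟨0,[(34,0)]⟩⟩,⟨false,
  0,⟨0,[(1,0)]⟩,⟨9,[(6,1),(1,5),(1,1),(9,3),(1,5),(3,0),(10,4)]⟩⟩,[]⟩))) (.Q [0,-1,0,1,0,0,-1,-1,0,
  0,-1] (.p false [0,0,1] [] (⟨0,[(22,0)]⟩,⟨0,[(21,0)]⟩) .k 0 (⟨0,[]⟩,⟨0,[]⟩) .k .k) (.I [1,0,0,0,0,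
  0,0,-1] (.R ⟨2,true,false,true,[0,1],[0,0,1],[1,1,1],(⟨0,[]⟩,⟨0,[]⟩),(⟨0,[(24,0)]⟩,⟨0,[(23,0)]⟩),
  ⟨0,[]⟩,.k,.k,.k,.k,.k,.k,⟨false,0,⟨0,[(0,0)]⟩,⟨1,[(9,1),(26,0),(0,0)]⟩⟩,⟨true,0,⟨0,[(21,0)]⟩,⟨0,
  [(2,0)]⟩⟩,⟨true,0,⟨0,[(34,0)]⟩,⟨0,[(35,0)]⟩⟩,⟨false,1,⟨5,[(4,1),(5,1),(4,1),(3,5),(6,0),(10,2)]⟩,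
  ⟨0,[(1,0)]⟩⟩,⟨false,0,⟨0,[]⟩,⟨1,[(14,0),(0,0),(21,0)]⟩⟩,⟨true,0,⟨0,[(19,0)]⟩,⟨0,[(0,0),(1,0)]⟩⟩,
  []⟩) (.Q [0,0,-1,-1,1,0,1,0,0,0,1] (.p true [0,0,1] [] (⟨0,[(24,0)]⟩,⟨0,[(23,0)]⟩) .k 0 (⟨0,[]⟩,
  ⟨0,[]⟩) .k .k) (.R ⟨1,false,false,true,[1,0,-1],[1,-1],[1,1],(⟨0,[(24,0)]⟩,⟨0,[(25,0)]⟩),(⟨0,[(28,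
  0)]⟩,⟨0,[(29,0)]⟩),⟨0,[(13,0)]⟩,.k,.k,.k,.k,.k,.k,⟨false,0,⟨0,[(36,0)]⟩,⟨2,[(7,0),(7,0),(0,0)]⟩⟩,
  ⟨true,0,⟨0,[(22,0)]⟩,⟨0,[(3,0)]⟩⟩,⟨false,0,⟨0,[(1,0)]⟩,⟨0,[(9,0),(28,0)]⟩⟩,⟨false,1,⟨5,[(0,1),(10,
  1),(8,5),(2,1),(3,0),(10,2)]⟩,⟨0,[(2,0)]⟩⟩,⟨false,0,⟨0,[(1,0),(34,0)]⟩,⟨3,[(0,1),(1,1),(6,1),(1,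
  1),(15,0),(3,1),(6,0)]⟩⟩,⟨true,0,⟨0,[(20,0)]⟩,⟨0,[(2,0),(32,0)]⟩⟩,[.o ⟨false,0,⟨0,[(35,0)]⟩,⟨1,
  [(27,0),(8,1),(1,0)]⟩⟩,.a ⟨true,0,⟨17,[(0,3),(10,6),(0,2),(9,1),(9,3),(6,1)]⟩,⟨0,[(36,0)]⟩⟩ ⟨true,
  0,⟨0,[]⟩,⟨1,[(22,0),(0,0)]⟩⟩ ⟨false,1,⟨0,[(0,0)]⟩,⟨0,[(3,0),(32,0)]⟩⟩,.o ⟨false,0,⟨0,[(3,0)]⟩,⟨1,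
  [(0,0),(21,0),(4,0),(8,0)]⟩⟩,.e ⟨false,1,⟨1,[(15,0),(0,0),(20,0)]⟩,⟨0,[(31,0)]⟩⟩ ⟨false,1,⟨0,[(0,
  0)]⟩,⟨1,[(1,0),(0,0),(20,0),(7,0),(4,0)]⟩⟩]⟩) (.R ⟨1,false,false,true,[1,0,-1],[1,-1],[1,1],(⟨0,
  [(24,0)]⟩,⟨0,[(25,0)]⟩),(⟨0,[(28,0)]⟩,⟨0,[(29,0)]⟩),⟨0,[(13,0)]⟩,.k,.k,.k,.k,.k,.k,⟨false,0,⟨0,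
  [(36,0)]⟩,⟨2,[(7,0),(7,0),(0,0)]⟩⟩,⟨true,0,⟨0,[(22,0)]⟩,⟨0,[(3,0)]⟩⟩,⟨false,0,⟨0,[(1,0)]⟩,⟨0,[(9,
  0),(28,0)]⟩⟩,⟨false,1,⟨5,[(5,1),(5,1),(4,1),(3,5),(6,0),(10,2)]⟩,⟨0,[(2,0)]⟩⟩,⟨false,0,⟨0,[(1,0),
  (34,0)]⟩,⟨1,[(2,0),(4,0),(1,0),(12,0),(8,1)]⟩⟩,⟨true,0,⟨0,[(20,0)]⟩,⟨7,[(0,2),(1,3),(4,0),(1,2),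
  (1,1),(9,0),(5,0)]⟩⟩,[.o ⟨false,0,⟨0,[(35,0)]⟩,⟨1,[(27,0),(8,1),(1,0)]⟩⟩,.e ⟨true,0,⟨0,[]⟩,⟨1,
  [(22,0),(0,0)]⟩⟩ ⟨true,1,⟨2,[(7,0),(7,0),(0,0),(5,2)]⟩,⟨0,[(0,0)]⟩⟩,.o ⟨false,0,⟨0,[(3,0)]⟩,⟨1,
  [(22,1),(4,0),(9,0)]⟩⟩,.a ⟨true,(-1),⟨13,[(0,9),(10,4),(0,0),(10,1),(8,3),(6,1)]⟩,⟨0,[(22,0),(14,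
  0)]⟩⟩ ⟨false,1,⟨1,[(15,0),(0,0),(20,0)]⟩,⟨0,[(31,0)]⟩⟩ ⟨true,1,⟨11,[(7,3),(1,5),(5,0),(0,0),(3,5),
  (1,5),(14,2)]⟩,⟨0,[(0,0)]⟩⟩]⟩))) (.Q [1,0,0,0,0,0,0,0,1,-1,0,1] (.p true [0,0,0,0,1] [1] (⟨0,[(16,
  0)]⟩,⟨0,[(15,0)]⟩) .k 1 (⟨0,[]⟩,⟨0,[]⟩) .k .k) (.Q [-1,1,0,0,0,0,0,0,-1,1,0,-1] (.p false [0,0,0,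
  0,1] [1] (⟨0,[(17,0)]⟩,⟨0,[(16,0)]⟩) .k 1 (⟨0,[]⟩,⟨0,[]⟩) .k .k) (.Q [-1,1,0,-1,0,0,0,0,-1,1,0,
  -1] (.p false [0,0,0,0,1] [1] (⟨0,[(18,0)]⟩,⟨0,[(17,0)]⟩) .k 1 (⟨0,[]⟩,⟨0,[]⟩) .k .k) (.Q [0,0,0,
  0,0,0,0,0,1,-1,0,1] (.p true [0,0,0,0,1] [1] (⟨0,[(19,0)]⟩,⟨0,[(18,0)]⟩) .k 1 (⟨0,[]⟩,⟨0,[]⟩) .k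
  .k) (.Q [0,0,0,0,0,-1,0,0,0,0,0,1] (.ed false [1,-1,0,0,1] .k) (.S ⟨1,0,[1],[0,0,0,0,1],[1,1],(⟨0,
  [(21,0)]⟩,⟨0,[(20,0)]⟩),⟨0,[(0,0)]⟩,.k,(.r (-1) ⟨2,[(10,0),(7,0),(0,0)]⟩ ⟨1,[(25,0),(0,0),(12,
  1)]⟩),⟨true,0,⟨0,[(43,0)]⟩,⟨0,[]⟩⟩,⟨false,1,⟨1,[(18,0),(0,0),(21,0)]⟩,⟨0,[]⟩⟩,⟨false,0,⟨0,[(39,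
  0)]⟩,⟨5,[(8,1),(5,1),(4,1),(10,0),(10,2)]⟩⟩,⟨true,0,⟨0,[(39,0)]⟩,⟨0,[(38,0)]⟩⟩,[.o ⟨false,0,⟨0,
  [(4,0)]⟩,⟨0,[(11,0)]⟩⟩,.a ⟨true,0,⟨0,[(9,0)]⟩,⟨0,[(3,0)]⟩⟩ ⟨true,0,⟨0,[]⟩,⟨1,[(25,0),(0,0)]⟩⟩
  ⟨false,1,⟨1,[(40,0),(0,0)]⟩,⟨0,[(43,0)]⟩⟩,.o ⟨false,0,⟨0,[(1,0)]⟩,⟨0,[(18,0)]⟩⟩,.e ⟨false,1,⟨1,
  [(18,0),(0,0),(20,0)]⟩,⟨0,[(34,0)]⟩⟩ ⟨false,1,⟨1,[(40,0),(0,0)]⟩,⟨1,[(25,0),(0,0)]⟩⟩]⟩) (.S ⟨1,0,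
  [-1,1],[1,0,0,0,-1],[-1],(⟨0,[(20,0)]⟩,⟨0,[(21,0)]⟩),⟨0,[(0,0),(15,0),(0,0)]⟩,.k,(.r (-1) ⟨5,[(10,
  1),(0,0),(7,0),(21,0),(1,1)]⟩ ⟨1,[(25,0),(0,0),(12,1)]⟩),⟨false,1,⟨1,[(18,0),(0,0),(21,0)]⟩,⟨0,
  []⟩⟩,⟨true,0,⟨0,[(43,0)]⟩,⟨0,[]⟩⟩,⟨true,0,⟨0,[(39,0)]⟩,⟨0,[(38,0)]⟩⟩,⟨false,0,⟨0,[(39,0)]⟩,⟨5,[(8,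
  1),(5,1),(4,1),(10,0),(10,2)]⟩⟩,[.a ⟨true,0,⟨0,[(3,0)]⟩,⟨0,[(9,0)]⟩⟩ ⟨false,1,⟨1,[(11,0),(7,0),
  (20,0)]⟩,⟨0,[]⟩⟩ ⟨true,0,⟨0,[(43,0)]⟩,⟨0,[(34,0)]⟩⟩,.o ⟨false,1,⟨0,[(11,0)]⟩,⟨0,[(4,0)]⟩⟩,.o
  ⟨false,1,⟨0,[(18,0)]⟩,⟨0,[(1,0)]⟩⟩,.e ⟨false,1,⟨0,[(34,0),(5,0)]⟩,⟨1,[(25,0),(0,0)]⟩⟩ ⟨false,1,⟨1,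
  [(11,0),(7,0),(20,0)]⟩,⟨0,[(34,0)]⟩⟩]⟩)) (.Q [0,0,0,0,0,-1,0,0,0,0,0,1] (.ed false [1,-1,0,0,1]
  .k) (.S ⟨1,0,[1,1],[0,0,0,0,1],[1],(⟨0,[(21,0)]⟩,⟨0,[(20,0)]⟩),⟨0,[(0,0)]⟩,.k,(.r (-1) ⟨2,[(10,0),
  (7,0),(0,0)]⟩ ⟨1,[(25,0),(0,0),(12,1)]⟩),⟨false,1,⟨1,[(18,0),(0,0),(21,0)]⟩,⟨0,[]⟩⟩,⟨true,0,⟨0,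
  [(43,0)]⟩,⟨0,[]⟩⟩,⟨true,0,⟨0,[(39,0)]⟩,⟨0,[(38,0)]⟩⟩,⟨false,0,⟨0,[(39,0)]⟩,⟨5,[(8,1),(5,1),(4,1),
  (10,0),(10,2)]⟩⟩,[.o ⟨false,0,⟨0,[(4,0),(38,0)]⟩,⟨3,[(1,3),(28,1),(3,1),(5,0),(0,0)]⟩⟩,.o ⟨false,
  0,⟨0,[(4,0)]⟩,⟨0,[(11,0)]⟩⟩,.a ⟨true,0,⟨0,[(19,0)]⟩,⟨0,[(1,0)]⟩⟩ ⟨true,0,⟨0,[]⟩,⟨0,[(43,0)]⟩⟩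
  ⟨false,0,⟨0,[]⟩,⟨1,[(18,0),(0,0),(21,0)]⟩⟩,.o ⟨false,0,⟨3,[(4,3),(20,0),(0,0),(15,1)]⟩,⟨1,[(1,1),
  (28,0),(9,0)]⟩⟩]⟩) (.S ⟨1,0,[-1],[1,0,0,0,-1],[0,1,0,-1],(⟨0,[(20,0)]⟩,⟨0,[(21,0)]⟩),⟨0,[(0,0),
  (15,0),(0,0)]⟩,.k,(.r (-1) ⟨5,[(10,1),(0,0),(7,0),(21,0),(1,1)]⟩ ⟨1,[(25,0),(0,0),(12,1)]⟩),⟨true,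
  0,⟨0,[(38,0)]⟩,⟨0,[(39,0)]⟩⟩,⟨false,1,⟨1,[(18,0),(0,0),(21,0)]⟩,⟨0,[]⟩⟩,⟨false,0,⟨0,[]⟩,⟨1,[(18,
  0),(0,0),(21,0)]⟩⟩,⟨true,0,⟨0,[(39,0)]⟩,⟨0,[(38,0)]⟩⟩,[.o ⟨false,1,⟨0,[(11,0)]⟩,⟨0,[(4,0)]⟩⟩,.o
  ⟨false,1,⟨3,[(1,3),(28,1),(3,1),(5,0),(0,0)]⟩,⟨0,[(4,0),(38,0)]⟩⟩,.a ⟨true,0,⟨0,[(1,0)]⟩,⟨0,[(19,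
  0)]⟩⟩ ⟨true,0,⟨0,[(38,0)]⟩,⟨0,[(39,0)]⟩⟩ ⟨false,1,⟨1,[(11,0),(7,0),(21,0)]⟩,⟨0,[]⟩⟩,.e ⟨false,1,
  ⟨2,[(10,0),(7,0),(0,0)]⟩,⟨0,[(34,0),(4,0)]⟩⟩ ⟨false,1,⟨0,[(34,0),(5,0)]⟩,⟨1,[(25,0),(0,0)]⟩⟩]⟩)))
  (.R ⟨2,true,false,true,[0,1],[1,0,0,0,-1],[1,1,1],(⟨0,[]⟩,⟨0,[]⟩),(⟨0,[(18,0)]⟩,⟨0,[(19,0)]⟩),⟨0,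
  []⟩,.k,.k,.k,(.r 0 ⟨1,[(23,0),(0,0),(12,1)]⟩ ⟨5,[(8,1),(0,0),(7,0),(21,0),(1,1)]⟩),.k,.k,⟨false,0,
  ⟨0,[]⟩,⟨1,[(9,0),(7,0),(20,0)]⟩⟩,⟨true,0,⟨0,[(1,0),(30,0)]⟩,⟨0,[(0,0),(35,0)]⟩⟩,⟨true,0,⟨0,[(36,
  0)]⟩,⟨0,[(37,0)]⟩⟩,⟨false,1,⟨3,[(1,1),(7,0),(2,1),(3,1),(0,0),(21,0)]⟩,⟨0,[(0,0)]⟩⟩,⟨false,0,⟨0,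
  []⟩,⟨1,[(16,0),(0,0),(21,0)]⟩⟩,⟨true,0,⟨0,[(1,0)]⟩,⟨0,[(2,0)]⟩⟩,[]⟩)) (.Q [0,0,1,0,0,0,0,0,-1,1,0,
  -1] (.p false [0,0,0,0,1] [1] (⟨0,[(18,0)]⟩,⟨0,[(17,0)]⟩) .k 1 (⟨0,[]⟩,⟨0,[]⟩) .k .k) (.Q [0,0,0,
  0,0,-1,0,0,0,0,0,1] (.ed false [1,-1,0,0,1] .k) (.R ⟨1,false,false,true,[0,0,0,0,1],[1,-1],[1,1],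
  (⟨0,[(20,0)]⟩,⟨0,[(19,0)]⟩),(⟨0,[(30,0)]⟩,⟨0,[(31,0)]⟩),⟨0,[(0,0)]⟩,.k,.k,(.r (-1) ⟨2,[(9,0),(7,
  0),(0,0)]⟩ ⟨1,[(24,0),(0,0),(12,1)]⟩),(.r 0 ⟨1,[(24,0),(0,0),(12,1)]⟩ ⟨5,[(9,1),(0,0),(7,0),(21,
  0),(1,1)]⟩),.k,.k,⟨false,0,⟨0,[(38,0)]⟩,⟨2,[(9,0),(7,0),(0,0)]⟩⟩,⟨true,0,⟨0,[(1,0)]⟩,⟨1,[(2,0),(0,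
  0),(38,0)]⟩⟩,⟨true,0,⟨0,[(42,0)]⟩,⟨0,[]⟩⟩,⟨false,1,⟨3,[(10,4),(2,1),(4,0),(15,0)]⟩,⟨0,[(2,0),(35,
  0)]⟩⟩,⟨false,0,⟨0,[(38,0)]⟩,⟨5,[(7,1),(5,1),(4,1),(10,0),(10,2)]⟩⟩,⟨false,1,⟨1,[(10,2),(7,0),(15,
  0)]⟩,⟨0,[(2,0)]⟩⟩,[.o ⟨false,0,⟨0,[(37,0)]⟩,⟨1,[(29,0),(8,1),(1,0)]⟩⟩,.a ⟨true,0,⟨3,[(10,0),(2,1),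
  (4,0),(15,0)]⟩,⟨0,[(38,0)]⟩⟩ ⟨true,0,⟨0,[]⟩,⟨1,[(24,0),(0,0)]⟩⟩ ⟨false,1,⟨1,[(7,1),(26,0),(4,0)]⟩,
  ⟨0,[(3,0),(34,0)]⟩⟩,.o ⟨false,0,⟨1,[(2,0),(0,0),(38,0)]⟩,⟨0,[(17,0)]⟩⟩,.e ⟨false,1,⟨1,[(17,0),(0,
  0),(20,0)]⟩,⟨0,[(33,0)]⟩⟩ ⟨false,1,⟨1,[(7,1),(26,0),(4,0)]⟩,⟨1,[(2,1),(21,0),(0,0),(12,1)]⟩⟩]⟩)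
  (.R ⟨0,false,false,true,[0,0,0,0,1],[1,-1],[1,1],(⟨0,[(20,0)]⟩,⟨0,[(19,0)]⟩),(⟨0,[(30,0)]⟩,⟨0,
  [(31,0)]⟩),⟨0,[(0,0)]⟩,.k,.k,(.r (-1) ⟨2,[(9,0),(7,0),(0,0)]⟩ ⟨1,[(24,0),(0,0),(12,1)]⟩),(.r 0 ⟨1,
  [(24,0),(0,0),(12,1)]⟩ ⟨5,[(9,1),(0,0),(7,0),(21,0),(1,1)]⟩),.k,.k,⟨false,0,⟨0,[(38,0)]⟩,⟨2,[(9,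
  0),(7,0),(0,0)]⟩⟩,⟨true,0,⟨0,[(1,0)]⟩,⟨1,[(2,0),(0,0),(38,0)]⟩⟩,⟨true,0,⟨0,[(42,0)]⟩,⟨0,[]⟩⟩,
  ⟨false,1,⟨3,[(10,4),(2,1),(4,0),(15,0)]⟩,⟨0,[(2,0),(35,0)]⟩⟩,⟨false,0,⟨0,[]⟩,⟨0,[]⟩⟩,⟨false,0,⟨0,
  []⟩,⟨0,[]⟩⟩,[.o ⟨false,0,⟨0,[(37,0)]⟩,⟨1,[(29,0),(8,1),(1,0)]⟩⟩,.a ⟨true,0,⟨3,[(10,0),(2,1),(4,0),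
  (15,0)]⟩,⟨0,[(38,0)]⟩⟩ ⟨true,0,⟨0,[]⟩,⟨1,[(24,0),(0,0)]⟩⟩ ⟨false,1,⟨1,[(7,1),(26,0),(4,0)]⟩,⟨0,
  [(3,0),(34,0)]⟩⟩,.o ⟨false,0,⟨1,[(2,0),(0,0),(38,0)]⟩,⟨0,[(17,0)]⟩⟩,.e ⟨false,1,⟨1,[(17,0),(0,0),
  (20,0)]⟩,⟨0,[(33,0)]⟩⟩ ⟨false,1,⟨1,[(7,1),(26,0),(4,0)]⟩,⟨1,[(2,1),(21,0),(0,0),(12,1)]⟩⟩]⟩)) (.I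
  [1,1,2,1,-1] (.R ⟨1,false,false,false,[1,-1],[0,0,0,0,1],[0,0,-1,-1],(⟨0,[(30,0)]⟩,⟨0,[(31,0)]⟩),
  (⟨0,[(20,0)]⟩,⟨0,[(19,0)]⟩),⟨0,[(15,0),(0,0)]⟩,.k,.k,(.r (-1) ⟨0,[(1,1),(5,1),(26,0)]⟩ ⟨1,[(0,1),
  (16,0),(0,0),(19,1),(1,0)]⟩),(.r (-1) ⟨5,[(9,1),(0,0),(7,0),(21,0),(1,1)]⟩ ⟨3,[(0,1),(16,0),(0,0),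
  (19,1),(1,0)]⟩),(.r (-1) ⟨0,[(1,1),(5,1),(26,0)]⟩ ⟨1,[(0,1),(16,0),(0,0),(19,1),(1,0)]⟩),.k,
  ⟨false,1,⟨1,[(1,1),(5,1),(26,0),(4,0)]⟩,⟨3,[(0,1),(16,0),(0,0),(19,1),(1,0)]⟩⟩,⟨true,0,⟨0,[(1,
  0)]⟩,⟨1,[(0,1),(6,1),(26,0),(5,0)]⟩⟩,⟨false,1,⟨1,[(17,0),(0,0),(21,0)]⟩,⟨0,[]⟩⟩,⟨false,0,⟨0,[(2,
  0),(35,0)]⟩,⟨3,[(10,4),(2,1),(4,0),(15,0)]⟩⟩,⟨true,0,⟨0,[(38,0)]⟩,⟨0,[(37,0)]⟩⟩,⟨false,0,⟨0,[(2,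
  0),(35,1)]⟩,⟨0,[(10,0),(2,0)]⟩⟩,[.o ⟨false,0,⟨0,[(3,0)]⟩,⟨0,[(10,0)]⟩⟩,.o ⟨false,0,⟨0,[(2,0)]⟩,⟨0,
  [(17,0),(24,0)]⟩⟩,.o ⟨false,0,⟨1,[(24,0),(0,0)]⟩,⟨1,[(29,0),(9,0)]⟩⟩,.a ⟨true,(-1),⟨2,[(0,1),(12,
  0),(19,1),(0,0)]⟩,⟨0,[(39,0)]⟩⟩ ⟨true,1,⟨1,[(1,1),(5,1),(26,0),(4,0)]⟩,⟨0,[(0,0)]⟩⟩ ⟨false,1,⟨0,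
  [(2,0),(36,0)]⟩,⟨1,[(0,1),(6,1),(26,0),(5,0)]⟩⟩]⟩) (.I [0,0,0,1,0,0,0,-1] (.S ⟨1,0,[0,0,1,1,0,0,0,
  -1],[1,1,-1],[0,1,1,1,0,0,0,-1],(⟨0,[(27,0),(4,0)]⟩,⟨0,[(17,0)]⟩),⟨0,[(27,0)]⟩,.k,.k,⟨true,0,⟨0,
  [(43,0)]⟩,⟨0,[]⟩⟩,⟨false,1,⟨1,[(18,0),(0,0),(21,0)]⟩,⟨0,[]⟩⟩,⟨false,0,⟨0,[(39,0)]⟩,⟨5,[(8,1),(5,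
  1),(4,1),(10,0),(10,2)]⟩⟩,⟨true,0,⟨0,[(39,0)]⟩,⟨0,[(38,0)]⟩⟩,[.o ⟨false,0,⟨0,[(0,0),(5,0)]⟩,⟨1,
  [(5,1),(24,0),(10,0)]⟩⟩,.a ⟨true,0,⟨1,[(0,1),(5,1),(28,0),(5,0)]⟩,⟨0,[(5,0)]⟩⟩ ⟨false,0,⟨0,[(0,
  0)]⟩,⟨11,[(1,2),(1,0),(4,0),(1,1),(2,11),(0,0),(26,3)]⟩⟩ ⟨true,0,⟨0,[(0,0),(33,0)]⟩,⟨0,[(5,0),(0,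
  0)]⟩⟩,.e ⟨false,0,⟨1,[(0,1),(24,0),(0,0)]⟩,⟨0,[(1,0),(11,0),(20,0)]⟩⟩ ⟨false,0,⟨0,[(0,0),(33,0)]⟩,
  ⟨11,[(1,2),(1,0),(4,0),(1,1),(2,11),(0,0),(26,3)]⟩⟩,.o ⟨false,0,⟨0,[(6,0)]⟩,⟨1,[(25,1),(4,0),(9,
  0)]⟩⟩]⟩) (.Q [0,0,0,0,0,0,1,1,0,0,1] (.p true [0,0,1] [] (⟨0,[(28,0)]⟩,⟨0,[(27,0)]⟩) .k 0 (⟨0,[]⟩,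
  ⟨0,[]⟩) .k .k) (.S ⟨1,0,[0,0,0,0,0,0,0,-1],[1,0,-1],[0,1,0,0,0,0,0,-1],(⟨0,[(28,0)]⟩,⟨0,[(29,
  0)]⟩),⟨0,[(17,0)]⟩,.k,.k,⟨true,0,⟨0,[(44,0)]⟩,⟨0,[]⟩⟩,⟨false,1,⟨1,[(19,0),(0,0),(21,0)]⟩,⟨0,[]⟩⟩,
  ⟨false,0,⟨0,[(40,0)]⟩,⟨5,[(9,1),(5,1),(4,1),(10,0),(10,2)]⟩⟩,⟨true,0,⟨0,[(40,0)]⟩,⟨0,[(39,0)]⟩⟩,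
  [.a ⟨true,0,⟨1,[(25,1),(10,0),(5,0)]⟩,⟨0,[(0,0)]⟩⟩ ⟨true,0,⟨0,[(13,0)]⟩,⟨0,[(0,0),(6,0),(27,0)]⟩⟩
  ⟨false,1,⟨1,[(13,1),(27,0),(0,0)]⟩,⟨0,[(0,0),(6,0)]⟩⟩,.e ⟨false,1,⟨1,[(13,1),(27,0),(0,0)]⟩,⟨0,
  [(0,0),(6,0)]⟩⟩ ⟨false,1,⟨0,[(2,0),(10,0),(21,0),(4,0)]⟩,⟨0,[(14,0)]⟩⟩,.o ⟨false,0,⟨0,[(7,0)]⟩,⟨1,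
  [(26,1),(4,0),(9,0)]⟩⟩,.e ⟨false,1,⟨1,[(13,1),(27,0),(0,0)]⟩,⟨0,[(0,0),(6,0),(27,0)]⟩⟩ ⟨false,1,
  ⟨0,[(2,0),(10,0),(21,0),(4,0)]⟩,⟨0,[(14,0),(20,0)]⟩⟩]⟩) (.R ⟨1,false,false,false,[1,0,-1],[1,-1],
  [0,1,0,0,0,0,0,-1],(⟨0,[(28,0)]⟩,⟨0,[(29,0)]⟩),(⟨0,[(32,0)]⟩,⟨0,[(33,0)]⟩),⟨0,[(17,0)]⟩,.k,.k,.k,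
  .k,.k,.k,⟨false,0,⟨0,[(13,0),(26,0)]⟩,⟨1,[(1,0),(0,0),(11,0),(27,0)]⟩⟩,⟨true,0,⟨0,[(26,0)]⟩,⟨0,
  [(7,0)]⟩⟩,⟨true,0,⟨0,[(44,0)]⟩,⟨0,[]⟩⟩,⟨false,1,⟨0,[(6,0),(35,0)]⟩,⟨0,[(0,0),(39,0)]⟩⟩,⟨false,0,
  ⟨0,[(40,0)]⟩,⟨5,[(9,1),(5,1),(4,1),(10,0),(10,2)]⟩⟩,⟨false,1,⟨0,[(24,0),(17,0)]⟩,⟨0,[(0,0)]⟩⟩,[.a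
  ⟨true,0,⟨3,[(12,0),(2,1),(4,0),(15,0)]⟩,⟨0,[(40,0)]⟩⟩ ⟨true,0,⟨0,[(13,0)]⟩,⟨0,[(1,0),(33,0),(4,
  0)]⟩⟩ ⟨false,1,⟨4,[(2,1),(8,0),(1,0),(10,0),(1,3),(14,0)]⟩,⟨0,[(7,0),(32,0)]⟩⟩,.e ⟨false,1,⟨1,
  [(13,1),(27,0),(0,0)]⟩,⟨0,[(1,0),(38,0)]⟩⟩ ⟨false,1,⟨0,[(2,0),(23,0)]⟩,⟨1,[(7,0),(19,0),(6,0),(5,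
  1)]⟩⟩,.o ⟨false,0,⟨0,[(7,0)]⟩,⟨1,[(26,1),(4,0),(9,0)]⟩⟩,.e ⟨false,1,⟨1,[(13,1),(27,0),(0,0)]⟩,⟨0,
  [(1,0),(33,0),(4,0)]⟩⟩ ⟨false,1,⟨0,[(2,0),(23,0)]⟩,⟨0,[(27,0),(12,0)]⟩⟩]⟩)))))) (.Q [1,0,0,1,0,0,
  0,0,1,-1,0,1] (.p true [0,0,0,0,1] [1] (⟨0,[(17,0)]⟩,⟨0,[(16,0)]⟩) .k 1 (⟨0,[]⟩,⟨0,[]⟩) .k .k)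
  (.R ⟨2,true,false,true,[0,1],[1,0,0,0,-1],[1,0,1],(⟨0,[]⟩,⟨0,[]⟩),(⟨0,[(17,0)]⟩,⟨0,[(18,0)]⟩),⟨0,
  []⟩,.k,.k,.k,(.r 0 ⟨1,[(22,0),(0,0),(12,1)]⟩ ⟨5,[(7,1),(0,0),(7,0),(21,0),(1,1)]⟩),.k,.k,⟨true,0,
  ⟨0,[(31,0)]⟩,⟨0,[(40,0)]⟩⟩,⟨false,0,⟨0,[(1,0)]⟩,⟨6,[(0,2),(6,0),(0,0),(7,4),(10,1),(9,1)]⟩⟩,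
  ⟨false,1,⟨5,[(5,1),(5,1),(4,1),(10,0),(10,2)]⟩,⟨0,[(36,0)]⟩⟩,⟨true,0,⟨0,[(1,0),(33,0)]⟩,⟨0,[(0,
  0)]⟩⟩,⟨true,0,⟨0,[]⟩,⟨0,[(40,0)]⟩⟩,⟨false,0,⟨0,[(1,0)]⟩,⟨1,[(16,1),(10,0),(10,0)]⟩⟩,[]⟩) (.Q [1,
  -1,0,-1,0,0,0,0,1,0,0,1] (.p true [0,0,0,0,1] [] (⟨0,[(18,0)]⟩,⟨0,[(17,0)]⟩) .k 0 (⟨0,[]⟩,⟨0,[]⟩)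
  .k .k) (.I [1,0,0,-1,0,0,0,1] (.Q [0,0,-2,0,1,0,0,0,0,-1] (.pp true [-1,1]) (.Q [0,0,0,0,0,0,1,1,
  0,0,1] (.p true [0,0,1] [] (⟨0,[(28,0)]⟩,⟨0,[(27,0)]⟩) .k 0 (⟨0,[]⟩,⟨0,[]⟩) .k .k) (.S ⟨1,0,[0,0,
  0,0,0,0,0,-1],[1,0,-1],[0,1,0,0,0,0,0,-1],(⟨0,[(28,0)]⟩,⟨0,[(29,0)]⟩),⟨0,[(17,0)]⟩,.k,.k,⟨true,0,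
  ⟨0,[(44,0)]⟩,⟨0,[]⟩⟩,⟨false,1,⟨1,[(19,0),(0,0),(21,0)]⟩,⟨0,[]⟩⟩,⟨false,0,⟨0,[(40,0)]⟩,⟨2,[(3,0),
  (5,1),(10,0),(21,0)]⟩⟩,⟨true,0,⟨0,[(40,0)]⟩,⟨0,[(39,0)]⟩⟩,[.a ⟨true,0,⟨1,[(25,1),(10,0),(5,0)]⟩,
  ⟨0,[(0,0)]⟩⟩ ⟨true,0,⟨0,[(13,0)]⟩,⟨0,[(0,0),(6,0),(27,0)]⟩⟩ ⟨false,1,⟨1,[(13,1),(27,0),(0,0)]⟩,⟨0,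
  [(0,0),(6,0)]⟩⟩,.e ⟨false,1,⟨1,[(13,1),(27,0),(0,0)]⟩,⟨0,[(0,0),(6,0)]⟩⟩ ⟨false,1,⟨1,[(1,1),(11,
  1),(21,1),(0,0),(5,0)]⟩,⟨0,[(14,0)]⟩⟩,.o ⟨false,0,⟨0,[(7,0)]⟩,⟨1,[(26,1),(4,0),(9,0)]⟩⟩,.o ⟨false,
  0,⟨0,[(27,0)]⟩,⟨0,[(1,0),(24,0)]⟩⟩]⟩) (.R ⟨1,false,false,false,[1,0,-1],[1,-1],[0,1,0,0,0,0,0,-1],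
  (⟨0,[(28,0)]⟩,⟨0,[(29,0)]⟩),(⟨0,[(32,0)]⟩,⟨0,[(33,0)]⟩),⟨0,[(17,0)]⟩,.k,.k,.k,.k,.k,.k,⟨false,0,
  ⟨0,[(13,0),(26,0)]⟩,⟨1,[(2,1),(38,0),(0,0)]⟩⟩,⟨true,0,⟨0,[(26,0)]⟩,⟨0,[(7,0)]⟩⟩,⟨true,0,⟨0,[(44,
  0)]⟩,⟨0,[]⟩⟩,⟨false,1,⟨0,[(6,0),(35,0)]⟩,⟨0,[(0,0),(39,0)]⟩⟩,⟨false,0,⟨0,[(40,0)]⟩,⟨2,[(3,0),(5,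
  1),(10,0),(21,0)]⟩⟩,⟨false,1,⟨0,[(24,0),(17,0)]⟩,⟨0,[(0,0)]⟩⟩,[.a ⟨true,0,⟨3,[(12,0),(2,1),(4,0),
  (15,0)]⟩,⟨0,[(40,0)]⟩⟩ ⟨true,0,⟨0,[(13,0)]⟩,⟨0,[(2,0),(32,0),(4,0)]⟩⟩ ⟨false,1,⟨5,[(1,1),(9,1),
  (14,5),(9,0),(4,0)]⟩,⟨0,[(7,0),(32,0)]⟩⟩,.e ⟨false,1,⟨1,[(13,1),(27,0),(0,0)]⟩,⟨0,[(2,0),(37,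
  0)]⟩⟩ ⟨false,1,⟨3,[(1,3),(1,1),(0,1),(21,3),(9,0),(5,0)]⟩,⟨1,[(7,0),(19,0),(6,0),(5,1)]⟩⟩,.o
  ⟨false,0,⟨0,[(7,0)]⟩,⟨1,[(26,1),(4,0),(9,0)]⟩⟩,.o ⟨false,0,⟨0,[(27,0)]⟩,⟨0,[(1,0),(24,0)]⟩⟩]⟩))
  (.Q [0,0,0,1,0,0,1,1,0,0,1] (.p true [0,0,1] [] (⟨0,[(28,0)]⟩,⟨0,[(27,0)]⟩) .k 0 (⟨0,[]⟩,⟨0,[]⟩)
  .k .k) (.I [1,-1,-1,-1,1,0,0,-1] (.S ⟨1,0,[0,1,1,1,0,0,0,1],[0,1,1],[1,0,1,0,0,0,0,1],(⟨0,[(30,0),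
  (3,0)]⟩,⟨0,[(18,0)]⟩),⟨0,[(30,0)]⟩,.k,.k,⟨false,1,⟨2,[(4,0),(5,1),(10,0),(21,0)]⟩,⟨0,[(41,0)]⟩⟩,
  ⟨true,0,⟨0,[(45,0)]⟩,⟨0,[]⟩⟩,⟨true,0,⟨0,[]⟩,⟨0,[(45,0)]⟩⟩,⟨false,0,⟨0,[(41,0)]⟩,⟨2,[(4,0),(5,1),
  (10,0),(21,0)]⟩⟩,[.e ⟨false,0,⟨1,[(1,0),(1,0),(4,0)]⟩,⟨1,[(14,1),(27,0),(0,0)]⟩⟩ ⟨false,0,⟨0,[(15,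
  0),(25,0)]⟩,⟨0,[(0,0)]⟩⟩,.a ⟨true,0,⟨0,[(1,0)]⟩,⟨7,[(0,1),(3,1),(0,1),(10,0),(0,0),(8,5),(9,1),(0,
  1)]⟩⟩ ⟨true,0,⟨1,[(1,0),(1,0),(4,0),(27,1)]⟩,⟨0,[(14,0)]⟩⟩ ⟨false,0,⟨0,[(1,0),(6,0)]⟩,⟨5,[(0,2),
  (11,0),(1,2),(5,0),(0,0)]⟩⟩,.e ⟨false,0,⟨1,[(1,0),(1,0),(4,0),(27,1)]⟩,⟨1,[(14,1),(27,0),(0,0)]⟩⟩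
  ⟨false,0,⟨0,[(1,0),(26,0)]⟩,⟨0,[(0,0)]⟩⟩,.o ⟨false,1,⟨1,[(27,1),(4,0),(9,0)]⟩,⟨0,[(8,0)]⟩⟩]⟩) (.Q
  [0,-1,0,-1,0,0,-1,-1,0,1,-1] (.p false [0,0,1] [1] (⟨0,[(30,0)]⟩,⟨0,[(29,0)]⟩) .k 1 (⟨0,[]⟩,⟨0,
  []⟩) .k .k) (.S ⟨1,0,[0,1,1,1,0,0,0,1],[0,1,1],[1,0,1,0,0,0,0,1],(⟨0,[(31,0),(3,0)]⟩,⟨0,[(19,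
  0)]⟩),⟨0,[(31,0)]⟩,.k,.k,⟨false,1,⟨2,[(5,0),(5,1),(10,0),(21,0)]⟩,⟨0,[(42,0)]⟩⟩,⟨true,0,⟨0,[(46,
  0)]⟩,⟨0,[]⟩⟩,⟨true,0,⟨0,[]⟩,⟨0,[(46,0)]⟩⟩,⟨false,0,⟨0,[(42,0)]⟩,⟨2,[(5,0),(5,1),(10,0),(21,0)]⟩⟩,
  [.a ⟨true,0,⟨0,[(26,0),(15,0)]⟩,⟨0,[(0,0)]⟩⟩ ⟨false,0,⟨1,[(2,0),(1,0),(4,0)]⟩,⟨1,[(15,1),(27,0),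
  (0,0)]⟩⟩ ⟨true,(-1),⟨0,[(1,0)]⟩,⟨3,[(5,1),(0,1),(8,3),(17,0),(10,2)]⟩⟩,.a ⟨true,0,⟨0,[(2,0)]⟩,⟨3,
  [(0,1),(14,1),(1,0),(0,0)]⟩⟩ ⟨true,0,⟨1,[(1,0),(2,0),(32,0),(6,0)]⟩,⟨0,[(15,0)]⟩⟩ ⟨false,0,⟨0,[(2,
  0),(6,0)]⟩,⟨3,[(5,1),(0,1),(8,3),(17,0),(9,1),(0,0)]⟩⟩,.a ⟨true,1,⟨0,[(28,0),(14,0)]⟩,⟨0,[(0,0),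
  (0,0)]⟩⟩ ⟨false,0,⟨1,[(1,0),(2,0),(32,0),(6,0)]⟩,⟨1,[(15,1),(27,0),(0,0)]⟩⟩ ⟨true,(-1),⟨0,[(1,
  0)]⟩,⟨3,[(5,1),(0,1),(8,3),(17,0),(9,1),(0,0)]⟩⟩,.o ⟨false,1,⟨1,[(28,1),(4,0),(9,0)]⟩,⟨0,[(9,
  0)]⟩⟩]⟩) (.Q [0,0,-1,1,1,0,1,0,0,-1,1] (.p true [0,0,1] [1] (⟨0,[(31,0)]⟩,⟨0,[(30,0)]⟩) .k 1 (⟨0,
  []⟩,⟨0,[]⟩) .k .k) (.R ⟨1,false,false,false,[1,0,-1],[1,-1],[0,1,0,0,0,0,0,-1],(⟨0,[(31,0)]⟩,⟨0,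
  [(32,0)]⟩),(⟨0,[(35,0)]⟩,⟨0,[(36,0)]⟩),⟨0,[(20,0)]⟩,.k,.k,.k,.k,.k,.k,⟨false,0,⟨0,[(16,0),(26,
  0)]⟩,⟨1,[(5,1),(38,0),(0,0)]⟩⟩,⟨true,0,⟨0,[(29,0)]⟩,⟨0,[(10,0)]⟩⟩,⟨true,0,⟨0,[(47,0)]⟩,⟨0,[]⟩⟩,
  ⟨true,0,⟨0,[(1,0),(4,0),(0,0)]⟩,⟨0,[(28,0),(14,0)]⟩⟩,⟨false,0,⟨0,[(43,0)]⟩,⟨2,[(6,0),(5,1),(10,0),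
  (21,0)]⟩⟩,⟨true,0,⟨1,[(1,0),(1,0),(2,0),(0,0)]⟩,⟨0,[(28,0)]⟩⟩,[.a ⟨true,0,⟨3,[(15,0),(2,1),(4,0),
  (15,0)]⟩,⟨0,[(43,0)]⟩⟩ ⟨true,0,⟨0,[(16,0)]⟩,⟨1,[(2,0),(2,0),(32,0),(6,0)]⟩⟩ ⟨false,1,⟨0,[(0,0),
  (17,0)]⟩,⟨0,[(10,0),(32,0)]⟩⟩,.e ⟨false,1,⟨1,[(16,1),(27,0),(0,0)]⟩,⟨1,[(3,0),(1,0),(4,0)]⟩⟩
  ⟨false,1,⟨0,[(0,0),(5,0),(0,0)]⟩,⟨1,[(0,0),(1,0),(16,0),(8,0)]⟩⟩,.o ⟨false,0,⟨0,[(10,0)]⟩,⟨8,[(0,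
  2),(13,0),(7,0),(0,0),(5,5),(4,2)]⟩⟩,.e ⟨false,1,⟨1,[(16,1),(27,0),(0,0)]⟩,⟨1,[(2,0),(2,0),(32,0),
  (6,0)]⟩⟩ ⟨false,1,⟨0,[(0,0),(5,0),(0,0)]⟩,⟨0,[(30,0),(12,0)]⟩⟩]⟩) (.R ⟨1,false,false,true,[1,0,
  -1],[0,1],[0,1,0,0,0,0,0,-1],(⟨0,[(31,0)]⟩,⟨0,[(32,0)]⟩),(⟨0,[(36,0)]⟩,⟨0,[(35,0)]⟩),⟨0,[(20,0)]⟩,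
  .k,.k,.k,.k,(.r (-2) ⟨5,[(14,3),(1,5),(5,0),(0,0),(21,2)]⟩ ⟨0,[(2,0),(35,0),(4,0)]⟩),.k,⟨true,1,
  ⟨3,[(6,1),(0,1),(8,3),(17,0),(9,1),(0,0)]⟩,⟨0,[(2,0),(35,0)]⟩⟩,⟨false,2,⟨1,[(29,1),(4,0),(9,2)]⟩,
  ⟨0,[(0,0),(42,0)]⟩⟩,⟨true,0,⟨0,[(47,0)]⟩,⟨0,[]⟩⟩,⟨true,0,⟨0,[(1,0)]⟩,⟨3,[(6,1),(0,1),(20,3),(10,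
  0),(5,0)]⟩⟩,⟨false,0,⟨0,[(43,0)]⟩,⟨2,[(6,0),(5,1),(10,0),(21,0)]⟩⟩,⟨true,0,⟨0,[(1,0),(41,0)]⟩,⟨0,
  [(6,0),(0,0),(20,0)]⟩⟩,[.a ⟨true,0,⟨0,[(43,0),(3,0)]⟩,⟨3,[(6,1),(0,1),(31,0),(5,0)]⟩⟩ ⟨true,0,⟨0,
  [(16,0)]⟩,⟨1,[(2,0),(2,0),(32,0),(6,0)]⟩⟩ ⟨false,1,⟨1,[(1,1),(14,1),(27,0),(0,0)]⟩,⟨2,[(0,0),(5,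
  0),(0,0),(2,0),(15,0),(18,0)]⟩⟩,.a ⟨true,0,⟨0,[(43,0)]⟩,⟨3,[(15,0),(2,1),(4,0),(15,0)]⟩⟩ ⟨false,1,
  ⟨1,[(16,1),(27,0),(0,0)]⟩,⟨1,[(3,0),(1,0),(4,0)]⟩⟩ ⟨true,1,⟨0,[(1,0),(14,0),(28,0)]⟩,⟨0,[(0,0)]⟩⟩,
  .o ⟨false,0,⟨0,[(10,0)]⟩,⟨1,[(29,1),(4,0),(9,0)]⟩⟩,.a ⟨true,(-1),⟨0,[(0,0),(42,0)]⟩,⟨0,[(29,0),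
  (14,0)]⟩⟩ ⟨false,1,⟨1,[(16,1),(27,0),(0,0)]⟩,⟨1,[(2,0),(2,0),(32,0),(6,0)]⟩⟩ ⟨true,1,⟨1,[(1,1),
  (14,1),(27,0),(0,0)]⟩,⟨0,[(0,0)]⟩⟩]⟩)))) (.Q [0,-1,-1,-1,1,0,1,0,0,0,1] (.p true [0,0,1] [] (⟨0,
  [(29,0)]⟩,⟨0,[(28,0)]⟩) .k 0 (⟨0,[]⟩,⟨0,[]⟩) .k .k) (.R ⟨1,false,false,false,[1,0,-1],[1,-1],[0,1,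
  0,0,0,0,0,-1],(⟨0,[(29,0)]⟩,⟨0,[(30,0)]⟩),(⟨0,[(33,0)]⟩,⟨0,[(34,0)]⟩),⟨0,[(18,0)]⟩,.k,.k,.k,.k,.k,
  .k,⟨false,0,⟨0,[(14,0),(26,0)]⟩,⟨1,[(3,1),(38,0),(0,0)]⟩⟩,⟨true,0,⟨0,[(27,0)]⟩,⟨0,[(8,0)]⟩⟩,⟨true,
  0,⟨0,[(45,0)]⟩,⟨0,[]⟩⟩,⟨false,1,⟨0,[(7,0),(35,0)]⟩,⟨0,[(1,0),(39,1)]⟩⟩,⟨false,0,⟨0,[(41,0)]⟩,⟨2,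
  [(4,0),(5,1),(10,0),(21,0)]⟩⟩,⟨false,1,⟨0,[(25,0),(17,0)]⟩,⟨0,[(1,0),(39,0)]⟩⟩,[.a ⟨true,0,⟨3,
  [(13,0),(2,1),(4,0),(15,0)]⟩,⟨0,[(41,0)]⟩⟩ ⟨true,0,⟨0,[(14,0)]⟩,⟨0,[(3,0),(32,0),(4,0)]⟩⟩ ⟨false,
  1,⟨8,[(0,5),(11,0),(1,2),(5,0),(0,0),(3,2)]⟩,⟨0,[(8,0),(32,0)]⟩⟩,.e ⟨false,1,⟨1,[(14,1),(27,0),(0,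
  0)]⟩,⟨0,[(3,0),(37,0)]⟩⟩ ⟨false,1,⟨0,[(0,0)]⟩,⟨1,[(8,0),(19,0),(6,0),(5,1)]⟩⟩,.o ⟨false,0,⟨0,[(8,
  0)]⟩,⟨1,[(27,1),(4,0),(9,0)]⟩⟩,.e ⟨false,1,⟨1,[(14,1),(27,0),(0,0)]⟩,⟨0,[(3,0),(32,0),(4,0)]⟩⟩
  ⟨false,1,⟨0,[(0,0)]⟩,⟨0,[(28,0),(12,0)]⟩⟩]⟩) (.I [0,0,-2,-1,1] (.R ⟨1,false,false,false,[1,0,-1],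
  [1,-1],[0,1,0,0,0,0,0,-1],(⟨0,[(30,0)]⟩,⟨0,[(31,0)]⟩),(⟨0,[(34,0)]⟩,⟨0,[(35,0)]⟩),⟨0,[(19,0)]⟩,.k,
  .k,.k,.k,.k,.k,⟨false,0,⟨0,[(15,0),(26,0)]⟩,⟨1,[(4,1),(38,0),(0,0)]⟩⟩,⟨true,0,⟨0,[(28,0)]⟩,⟨0,[(9,
  0)]⟩⟩,⟨true,0,⟨0,[(46,0)]⟩,⟨0,[]⟩⟩,⟨false,1,⟨0,[(8,0),(35,0)]⟩,⟨0,[(2,0),(39,1)]⟩⟩,⟨false,0,⟨0,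
  [(42,0)]⟩,⟨2,[(5,0),(5,1),(10,0),(21,0)]⟩⟩,⟨false,1,⟨0,[(26,0),(17,0)]⟩,⟨0,[(2,0),(39,0)]⟩⟩,[.a
  ⟨true,0,⟨3,[(14,0),(2,1),(4,0),(15,0)]⟩,⟨0,[(42,0)]⟩⟩ ⟨true,0,⟨0,[(15,0)]⟩,⟨0,[(4,0),(32,0),(4,
  0)]⟩⟩ ⟨false,1,⟨0,[(0,0),(27,0)]⟩,⟨1,[(1,1),(41,0),(0,0)]⟩⟩,.a ⟨true,0,⟨3,[(5,1),(0,1),(31,0),(5,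
  0)]⟩,⟨0,[(42,0),(3,0)]⟩⟩ ⟨false,1,⟨1,[(15,1),(27,0),(0,0)]⟩,⟨0,[(4,0),(37,0)]⟩⟩ ⟨true,1,⟨7,[(0,3),
  (4,1),(0,1),(21,7),(4,0),(10,2)]⟩,⟨0,[(1,0)]⟩⟩,.o ⟨false,0,⟨0,[(9,0)]⟩,⟨1,[(28,1),(4,0),(9,0)]⟩⟩,
  .a ⟨true,(-1),⟨3,[(1,1),(0,0),(1,0),(4,0),(27,1),(0,1)]⟩,⟨0,[(28,0),(14,0)]⟩⟩ ⟨false,1,⟨1,[(15,1),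
  (27,0),(0,0)]⟩,⟨0,[(4,0),(32,0),(4,0)]⟩⟩ ⟨true,1,⟨0,[(0,0),(27,0)]⟩,⟨0,[(1,0)]⟩⟩]⟩) (.S ⟨1,0,[0,1,
  -1,-1],[1,-1],[1,0,-1,-2],(⟨0,[(34,0)]⟩,⟨0,[(35,0)]⟩),⟨0,[(19,0),(0,0)]⟩,.k,(.r (-2) ⟨2,[(13,1),
  (7,1),(0,1)]⟩ ⟨0,[(0,0),(41,0)]⟩),⟨false,1,⟨2,[(5,0),(5,1),(10,0),(21,0)]⟩,⟨0,[(42,0)]⟩⟩,⟨true,0,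
  ⟨0,[(46,0)]⟩,⟨0,[]⟩⟩,⟨true,0,⟨0,[]⟩,⟨0,[(46,0)]⟩⟩,⟨false,0,⟨0,[(42,0)]⟩,⟨2,[(5,0),(5,1),(10,0),
  (21,0)]⟩⟩,[.o ⟨false,0,⟨0,[(41,0)]⟩,⟨1,[(33,0),(8,1),(1,0)]⟩⟩,.e ⟨true,1,⟨1,[(5,1),(0,1),(26,0),
  (9,0)]⟩,⟨0,[(0,0),(41,0),(3,0)]⟩⟩ ⟨true,1,⟨2,[(13,0),(7,0),(0,0)]⟩,⟨0,[(0,0)]⟩⟩,.o ⟨false,0,⟨1,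
  [(28,0),(0,0)]⟩,⟨1,[(33,0),(9,0)]⟩⟩,.a ⟨true,(-1),⟨0,[(3,0)]⟩,⟨0,[(43,0)]⟩⟩ ⟨false,2,⟨5,[(13,3),
  (7,0),(0,0),(21,2)]⟩,⟨0,[(0,0),(41,0)]⟩⟩ ⟨true,1,⟨11,[(13,3),(7,0),(0,0),(13,5),(6,2)]⟩,⟨0,[(0,
  0)]⟩⟩]⟩))))) (.I [1,-1,-1,-1,1,0,0,1] (.S ⟨1,0,[0,0,1,1,0,0,0,-1],[1,1,-1],[0,1,1,1,0,0,0,-1],(⟨0,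
  [(27,0),(4,0)]⟩,⟨0,[(17,0)]⟩),⟨0,[(27,0)]⟩,.k,.k,⟨true,0,⟨0,[(43,0)]⟩,⟨0,[]⟩⟩,⟨false,1,⟨1,[(18,0),
  (0,0),(21,0)]⟩,⟨0,[]⟩⟩,⟨false,0,⟨0,[(39,0)]⟩,⟨2,[(2,0),(5,1),(10,0),(21,0)]⟩⟩,⟨true,0,⟨0,[(39,
  0)]⟩,⟨0,[(38,0)]⟩⟩,[.o ⟨false,0,⟨0,[(1,0),(4,0)]⟩,⟨1,[(5,1),(24,0),(10,0)]⟩⟩,.a ⟨true,0,⟨1,[(1,1),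
  (4,1),(28,0),(5,0)]⟩,⟨0,[(5,0)]⟩⟩ ⟨false,0,⟨0,[(1,0)]⟩,⟨3,[(0,0),(9,0),(2,2),(27,0)]⟩⟩ ⟨true,0,⟨0,
  [(1,0),(32,0)]⟩,⟨0,[(5,0),(0,0)]⟩⟩,.e ⟨false,0,⟨1,[(1,1),(23,0),(0,0)]⟩,⟨0,[(0,0)]⟩⟩ ⟨false,0,⟨0,
  [(1,0),(32,0)]⟩,⟨3,[(0,0),(9,0),(2,2),(27,0)]⟩⟩,.o ⟨false,0,⟨0,[(6,0)]⟩,⟨1,[(25,1),(4,0),(9,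
  0)]⟩⟩]⟩) (.Q [0,1,-1,1,0,0,-1,0,0,0,-1] (.p false [0,0,1] [] (⟨0,[(28,0)]⟩,⟨0,[(27,0)]⟩) .k 0 (⟨0,
  []⟩,⟨0,[]⟩) .k .k) (.R ⟨1,false,false,true,[0,0,1],[0,1],[1,1,0,-1,0,0,0,1],(⟨0,[(29,0)]⟩,⟨0,[(28,
  0)]⟩),(⟨0,[(33,0)]⟩,⟨0,[(32,0)]⟩),⟨0,[(18,0)]⟩,.k,.k,.k,.k,(.r (-2) ⟨5,[(11,3),(2,5),(4,0),(0,0),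
  (21,2)]⟩ ⟨0,[(1,0),(33,0),(4,0)]⟩),.k,⟨true,1,⟨1,[(3,1),(0,1),(9,1),(16,0),(9,0)]⟩,⟨0,[(1,0),(33,
  0),(4,0)]⟩⟩,⟨false,1,⟨0,[(7,0),(33,0)]⟩,⟨0,[(26,0)]⟩⟩,⟨true,0,⟨0,[(39,0)]⟩,⟨0,[(40,0)]⟩⟩,⟨false,0,
  ⟨0,[(2,0),(4,0)]⟩,⟨0,[(6,0),(35,0)]⟩⟩,⟨false,0,⟨0,[]⟩,⟨1,[(19,0),(0,0),(21,0)]⟩⟩,⟨false,0,⟨0,[(2,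
  0),(4,0),(32,0)]⟩,⟨3,[(3,1),(0,1),(1,3),(24,0),(10,2)]⟩⟩,[.a ⟨true,0,⟨0,[(2,0),(11,0)]⟩,⟨3,[(3,1),
  (0,1),(31,0),(5,0)]⟩⟩ ⟨true,0,⟨0,[(6,0),(0,0)]⟩,⟨0,[(2,0),(32,0)]⟩⟩ ⟨false,0,⟨0,[(0,0)]⟩,⟨3,[(3,
  1),(0,1),(21,3),(4,0),(9,1),(0,0)]⟩⟩,.a ⟨true,0,⟨0,[(40,0)]⟩,⟨3,[(12,0),(2,1),(4,0),(15,0)]⟩⟩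
  ⟨false,1,⟨3,[(3,1),(0,1),(9,3),(16,0),(9,1),(0,0)]⟩,⟨0,[(2,0)]⟩⟩ ⟨true,0,⟨0,[(7,0),(32,0)]⟩,⟨3,
  [(1,0),(1,1),(0,1),(1,0),(19,2),(4,0)]⟩⟩,.o ⟨false,1,⟨1,[(26,1),(4,0),(9,0)]⟩,⟨0,[(7,0)]⟩⟩,.a
  ⟨true,0,⟨0,[(26,0)]⟩,⟨0,[(23,0)]⟩⟩ ⟨false,1,⟨3,[(3,1),(0,1),(9,3),(16,0),(9,1),(0,0)]⟩,⟨0,[(2,0),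
  (32,0)]⟩⟩ ⟨true,0,⟨0,[(0,0)]⟩,⟨3,[(1,0),(1,1),(0,1),(1,0),(19,2),(4,0)]⟩⟩]⟩) (.R ⟨1,false,false,
  false,[1,0,-1],[1,-1],[0,0,0,0,0,0,0,-1],(⟨0,[(28,0)]⟩,⟨0,[(29,0)]⟩),(⟨0,[(32,0)]⟩,⟨0,[(33,0)]⟩),
  ⟨0,[(17,0)]⟩,.k,.k,.k,.k,.k,.k,⟨false,0,⟨0,[(2,0)]⟩,⟨3,[(3,1),(0,1),(9,3),(16,0),(9,1),(0,0)]⟩⟩,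
  ⟨true,0,⟨0,[(26,0)]⟩,⟨0,[(7,0)]⟩⟩,⟨false,1,⟨1,[(19,0),(0,0),(21,0)]⟩,⟨0,[]⟩⟩,⟨false,1,⟨0,[(6,0),
  (35,0)]⟩,⟨0,[(2,0),(4,0)]⟩⟩,⟨true,0,⟨0,[(40,0)]⟩,⟨0,[(39,0)]⟩⟩,⟨false,1,⟨0,[(24,0),(17,0)]⟩,⟨3,
  [(1,1),(0,1),(0,1),(0,1),(2,3),(23,0),(9,0)]⟩⟩,[.a ⟨true,0,⟨3,[(12,0),(2,1),(4,0),(15,0)]⟩,⟨0,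
  [(40,0)]⟩⟩ ⟨true,0,⟨3,[(1,1),(0,1),(0,1),(0,1),(26,0),(9,0)]⟩,⟨0,[(14,0),(20,0)]⟩⟩ ⟨false,1,⟨2,
  [(0,0),(1,0),(8,0),(12,0),(1,0),(14,0)]⟩,⟨0,[(7,0),(32,0)]⟩⟩,.e ⟨false,1,⟨3,[(2,3),(0,1),(0,1),
  (26,0),(9,1),(0,0)]⟩,⟨0,[(14,0)]⟩⟩ ⟨false,1,⟨0,[(0,0),(40,0)]⟩,⟨3,[(1,0),(12,0),(1,1),(14,0),(2,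
  0),(5,2)]⟩⟩,.o ⟨false,0,⟨0,[(7,0)]⟩,⟨1,[(26,1),(4,0),(9,0)]⟩⟩,.e ⟨false,1,⟨3,[(2,3),(0,1),(0,1),
  (26,0),(9,1),(0,0)]⟩,⟨0,[(14,0),(20,0)]⟩⟩ ⟨false,1,⟨0,[(0,0),(40,0)]⟩,⟨0,[(27,0),(12,0)]⟩⟩]⟩))))
  (.R ⟨2,true,false,false,[0,1],[0,0,0,0,1],[1,0,1],(⟨0,[]⟩,⟨0,[]⟩),(⟨0,[(19,0)]⟩,⟨0,[(18,0)]⟩),⟨0,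
  []⟩,.k,.k,.k,(.r 0 ⟨1,[(23,0),(0,0),(12,1)]⟩ ⟨2,[(8,0),(7,0),(0,0)]⟩),.k,.k,⟨true,0,⟨1,[(23,0),(0,
  0)]⟩,⟨0,[]⟩⟩,⟨false,0,⟨0,[(17,0)]⟩,⟨3,[(0,1),(0,1),(26,0),(9,1),(0,0)]⟩⟩,⟨false,1,⟨5,[(6,1),(5,1),
  (4,1),(10,0),(10,2)]⟩,⟨0,[(37,0)]⟩⟩,⟨true,0,⟨0,[(7,0),(28,0)]⟩,⟨0,[(0,0)]⟩⟩,⟨true,0,⟨0,[]⟩,⟨0,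
  [(41,0)]⟩⟩,⟨false,0,⟨0,[(7,0)]⟩,⟨0,[(9,0)]⟩⟩,[]⟩)))))))))))

theorem ok2 : chk K t2 r2 = true := by decide +kernel

noncomputable def t4 : Tre :=
  (.I [1,0,-2,-1,1] (.Q [0,1,0,-1,0,0,-1,-1,0,0,-1] (.p false [0,0,1] [] (⟨0,[(16,0)]⟩,⟨0,[(15,
  0)]⟩) .k 0 (⟨0,[]⟩,⟨0,[]⟩) .k .k) (.K ⟨0,[0,1,1],0,0,(⟨0,[(17,0),(3,0)]⟩,⟨0,[(5,0)]⟩),.k,.k,(.r 0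
  ⟨0,[(12,0),(2,0),(7,0),(4,1)]⟩ ⟨0,[(1,0),(0,0),(24,0)]⟩),.k,.k,[⟨1,[(14,0),(0,0)]⟩,⟨0,[(2,0),(9,
  0)]⟩,⟨0,[(0,0)]⟩,⟨0,[(12,0),(15,0)]⟩]⟩) (.R ⟨2,false,false,false,[0,1],[0,1,1],[1],(⟨0,[]⟩,⟨0,
  []⟩),(⟨0,[(17,0),(3,0)]⟩,⟨0,[(5,0)]⟩),⟨0,[]⟩,.k,.k,.k,.k,.k,.k,⟨false,1,⟨3,[(1,3),(0,2),(10,0),(0,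
  0),(7,0)]⟩,⟨1,[(0,0),(11,0),(2,1),(12,0)]⟩⟩,⟨true,0,⟨0,[(2,0),(9,0)]⟩,⟨0,[(15,0)]⟩⟩,⟨false,1,⟨7,
  [(0,1),(0,3),(0,1),(0,2),(0,0),(14,1),(10,1)]⟩,⟨1,[(14,0),(0,0),(12,1)]⟩⟩,⟨true,0,⟨0,[(0,0),(26,
  0)]⟩,⟨0,[(13,0)]⟩⟩,⟨false,1,⟨1,[(29,0),(0,0)]⟩,⟨1,[(14,0),(0,0)]⟩⟩,⟨false,0,⟨0,[(0,0)]⟩,⟨3,[(3,1),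
  (3,0),(0,0),(4,3),(5,0),(10,1)]⟩⟩,[.a ⟨true,0,⟨1,[(0,0),(11,0),(15,0)]⟩,⟨5,[(2,1),(0,2),(0,0),(8,
  3),(10,0),(5,0)]⟩⟩ ⟨true,0,⟨0,[]⟩,⟨1,[(14,0),(0,0)]⟩⟩ ⟨false,0,⟨1,[(0,0),(11,0),(15,0)]⟩,⟨11,[(1,
  5),(0,1),(0,2),(0,0),(8,9),(5,1),(10,3)]⟩⟩,.e ⟨false,1,⟨1,[(29,0),(0,0)]⟩,⟨0,[(32,0)]⟩⟩ ⟨false,0,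
  ⟨0,[(0,0)]⟩,⟨7,[(1,3),(1,1),(3,2),(0,2),(4,7),(5,0)]⟩⟩,.o ⟨false,1,⟨1,[(19,0),(9,0)]⟩,⟨1,[(14,0),
  (0,0)]⟩⟩,.fo]⟩)) (.R ⟨1,false,false,true,[1,0,-1],[1,-1],[],(⟨0,[(15,0)]⟩,⟨0,[(16,0)]⟩),(⟨0,[(19,
  0)]⟩,⟨0,[(20,0)]⟩),⟨0,[(4,0)]⟩,.k,.k,.k,.k,.k,.k,⟨true,0,⟨1,[(0,0),(26,0),(1,0)]⟩,⟨0,[(26,0)]⟩⟩,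
  ⟨false,0,⟨0,[(1,0),(9,0)]⟩,⟨3,[(3,1),(2,0),(0,0),(10,0),(9,1)]⟩⟩,⟨false,1,⟨1,[(10,1),(0,1),(6,0),
  (3,1),(6,0)]⟩,⟨3,[(1,2),(10,0),(0,0),(7,0)]⟩⟩,⟨false,1,⟨3,[(2,1),(3,0),(0,0),(3,3),(6,0),(10,1)]⟩,
  ⟨1,[(0,0),(0,1),(8,1),(7,0),(8,0)]⟩⟩,⟨false,1,⟨1,[(0,0),(9,1),(0,1),(6,0),(8,0),(1,1)]⟩,⟨0,[(1,0),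
  (24,0)]⟩⟩,⟨true,0,⟨0,[(11,0)]⟩,⟨2,[(0,0),(0,1),(8,1),(1,0),(5,0),(7,0)]⟩⟩,[.o ⟨false,0,⟨0,[(26,
  0)]⟩,⟨1,[(18,0),(8,1),(1,0)]⟩⟩,.e ⟨false,1,⟨1,[(28,0),(0,0)]⟩,⟨0,[(31,0)]⟩⟩ ⟨false,1,⟨3,[(1,1),(0,
  1),(8,1),(1,1),(4,0),(9,2)]⟩,⟨1,[(0,0),(9,1),(7,0),(8,0)]⟩⟩,.a ⟨true,0,⟨19,[(3,9),(2,3),(0,3),(15,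
  4),(5,0),(1,1)]⟩,⟨0,[(1,0),(9,0)]⟩⟩ ⟨false,1,⟨1,[(6,0),(0,0),(21,0)]⟩,⟨0,[]⟩⟩ ⟨true,0,⟨0,[(1,0),
  (9,0),(14,0)]⟩,⟨1,[(0,0),(9,1),(7,0),(8,0)]⟩⟩,.o ⟨false,0,⟨0,[(14,0)]⟩,⟨1,[(1,1),(9,1),(6,0),(9,
  0)]⟩⟩]⟩))

theorem ok4 : chk K t4 r1 = true := by decide +kernel

noncomputable def t3 : Tre :=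
  .I [1,-1,0,0,0,0,0,1] t1 t2

theorem ok3 : chk K t3 l1 = true :=
  chk_I (e' := [0,1,0,0,0,0,0,-1]) (by decide +kernel) (by decide +kernel) ok1 ok2

noncomputable def t5 : Tre :=
  .I [0,1,0,0,0,0,0,1] t3 t4

theorem ok5 : chk K t5 r0 = true :=
  chk_I (e' := [1,-1,0,0,0,0,0,-1]) (by decide +kernel) (by decide +kernel) ok3 ok4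

noncomputable def t6 : Tre :=
  .Q [0,0,0,2,0,0,0,0,0,-1] (.pp true [-1,1]) t0 t5

theorem ok6 : chk K t6 base = true :=
  chk_Q (e' := [0,0,0,-2,0,0,0,0,0,1]) (by decide +kernel) (by decide +kernel) ok0 ok5

theorem closed {p a b c J l q : ℤ} {D dl : ℝ} {Cl : ℤ → ℤ → ℤ → ℤ → ℝ → Prop}
    (W : World p a b c J 1 l q D dl Cl) (g : G0 p a b c J D)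
    {N X R : ℤ} {I : ℝ} (hk : KCl p l Cl N X R I) (kz : KF a b D (X + (1 : ℤ) * I) (X + (1 : ℤ) * I + R) I)
    {Ne Xe : ℤ} {Ie : ℝ} (he : EFac p 1 D Cl 1 Ne Xe Ie)
    (hkf : ∀ kf ∈ (kfY 1 [0,0,0,0,0,0,1,0,0,0,1]), KOk p l Cl 1
      (xv [1, a, b, c, p, J, X, R, Xe] [D, I, Ie]) N kf)
    (h0 : 1 ≤ (c : ℝ))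
    (h1 : 1 ≤ 1 - (a : ℝ) + (b : ℝ))
    (h2 : 1 ≤ 2 * (a : ℝ) - (b : ℝ))
    (h3 : 0 < 1 - (p : ℝ) + 2 * D)
    (h4 : 1 ≤ -(a : ℝ) + (b : ℝ))
    (h5 : 1 ≤ 2 * (a : ℝ) - (b : ℝ))
    (h6 : 1 ≤ 2 - (J : ℝ))
    (h7 : 0 < -(b : ℝ) - (X : ℝ) + D - I)
    (h8 : 0 < -(J : ℝ) + I)
    (h9 : 0 < -(J : ℝ) + D - I)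
    (h10 : 0 < -2 * (X : ℝ) + D - 2 * I) : False := by
  have g1 := g.a2
  have g2 := g.b2
  have g3 := g.pa
  have g4 := g.pb
  have g5 := g.J1
  have g6 := g.JD
  have g7 := g.D2
  have g8 := g.ca
  have g9 := g.ca'
  have k1 := kz.I0
  have k2 := kz.ID
  have k3 := kz.z1
  have k4 := kz.z2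
  have k5 := kz.s1
  have k6 := kz.s2
  have e1 := he.I0
  have e2 := he.ID
  have e3 := he.x0
  have e4 := he.xp
  push_cast at *
  refine (val_E W.toBase hk he (row := [1]) (by simp) (by simp) (kfY 1 [0,0,0,0,0,0,1,0,0,0,1])).sound W rfl (Nk := N)
    (fun kf _ _ => ⟨_, rfl⟩) hkf ?_ ok6
  · simp only [base, List.forall_mem_cons, List.not_mem_nil, false_imp_iff, implies_true,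
      and_true, hld, xv, evg_cons, evg_nil, List.map_cons, List.map_nil, List.cons_append,
      List.nil_append, if_true, if_false, Bool.false_eq_true]
    push_cast
    refine ⟨?_, ?_, ?_, ?_, ?_, ?_, ?_, ?_, ?_, ?_, ?_, ?_, ?_, ?_, ?_, ?_, ?_, ?_, ?_, ?_, ?_, ?_, ?_, ?_, ?_, ?_, ?_, ?_, ?_⟩ <;> linarith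

end Helper48.Y.Y11_c35_L2_m1n1_CC

namespace Helper48.Y.Y11_c35_P1_m0n1

open Helper25.KG Helper25.KW Helper55.KE Helper11.CT

noncomputable def K : Cls :=
  cE 1 [1] (kfY 1 [0,0,0,0,0,0,1,0,0,0,1])

noncomputable def base : List Con :=
  [(false,[0,0,0,0,0,0,-2,0,0,1,-2]),
  (false,[0,0,0,0,0,-1,0,0,0,1,-1]),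
  (false,[0,0,0,0,0,1,0,0,0,0,-1]),
  (false,[0,0,0,0,1,0,0,0,-1,0,0,-1]),
  (false,[0,0,0,0,0,0,0,0,1,0,0,1]),
  (false,[0,0,0,0,0,0,0,0,0,1,0,-1]),
  (false,[0,0,0,0,0,0,0,0,0,0,0,1]),
  (false,[0,0,-1,0,0,0,-1,0,0,1,-1]),
  (false,[0,1,0,0,0,0,1,1,0,0,1]),
  (false,[0,1,0,0,0,0,-1,-1,0,0,-1]),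
  (false,[0,0,1,0,0,0,1,0,0,0,1]),
  (false,[0,0,1,0,0,0,-1,0,0,0,-1]),
  (false,[0,0,0,0,0,0,0,0,0,1,-1]),
  (false,[0,0,0,0,0,0,0,0,0,0,1]),
  (true,[2,0,0,0,0,-1]),
  (false,[0,0,0,0,1,0,0,0,0,-2]),
  (false,[0,0,0,0,0,-1,0,0,0,1]),
  (true,[0,0,0,0,0,1]),
  (true,[0,2,-1]),
  (false,[1,0,0,0,1,0,0,0,0,-3]),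
  (true,[0,2,-1]),
  (true,[1,-1,1]),
  (true,[0,1,0,-1]),
  (true,[0,0,0,1]),
  (true,[0,0,-2,0,1]),
  (true,[0,-2,0,0,1]),
  (true,[-1,0,1]),
  (true,[-1,1])]

noncomputable def t0 : Tre :=
  (.I [0,1,0,0,0,0,0,1] (.I [0,0,1,2,-1] (.Q [0,1,0,1,-1,0,-1,-1,0,0,-1] (.p false [0,0,1] [] (⟨0,
  [(15,0)]⟩,⟨0,[(14,0)]⟩) .k 0 (⟨0,[]⟩,⟨0,[]⟩) .k .k) (.I [0,-1,-2,-1,2,0,0,1] (.R ⟨2,true,false,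
  true,[0,1],[0,1,-1],[],(⟨0,[]⟩,⟨0,[]⟩),(⟨0,[(6,0)]⟩,⟨0,[(17,0),(2,0)]⟩),⟨0,[]⟩,.k,.k,.k,.k,.k,.k,
  ⟨false,2,⟨0,[(0,0)]⟩,⟨0,[(1,0),(12,0)]⟩⟩,⟨true,0,⟨3,[(1,0),(1,0),(7,2),(11,0),(1,2),(0,0)]⟩,⟨0,
  [(14,0)]⟩⟩,⟨true,1,⟨1,[(26,1),(1,0),(0,0)]⟩,⟨0,[(2,0),(23,0)]⟩⟩,⟨false,0,⟨0,[(1,0),(24,0),(2,0)]⟩,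
  ⟨0,[(12,0),(16,0)]⟩⟩,⟨false,1,⟨1,[(28,0),(0,0)]⟩,⟨1,[(14,0),(0,0)]⟩⟩,⟨true,(-1),⟨0,[(1,0)]⟩,⟨1,
  [(0,0),(11,0),(1,0),(10,0),(0,0)]⟩⟩,[]⟩) (.R ⟨2,true,false,false,[0,1],[0,0,1],[1,0,1],(⟨0,[]⟩,⟨0,
  []⟩),(⟨0,[(17,0)]⟩,⟨0,[(16,0)]⟩),⟨0,[]⟩,.k,.k,.k,.k,.k,.k,⟨false,0,⟨0,[(0,0),(25,0),(1,0),(0,0)]⟩,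
  ⟨1,[(3,1),(24,0),(0,0)]⟩⟩,⟨true,0,⟨0,[(14,0)]⟩,⟨6,[(0,0),(2,0),(0,0),(6,4),(11,1),(1,2),(0,0)]⟩⟩,
  ⟨false,1,⟨0,[(26,0),(2,0)]⟩,⟨0,[(27,0)]⟩⟩,⟨true,1,⟨0,[(12,0),(13,0),(2,0)]⟩,⟨0,[(1,0)]⟩⟩,⟨true,0,
  ⟨0,[]⟩,⟨0,[(31,0)]⟩⟩,⟨false,1,⟨0,[(12,0),(16,0)]⟩,⟨0,[(1,0),(24,0),(2,0)]⟩⟩,[]⟩)) (.Q [0,0,0,1,0,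
  0,0,0,0,-1] (.pp true [-1,1]) (.Q [0,1,0,-2,0,0,0,0,0,1] (.pp false [-1,1]) (.R ⟨1,true,false,
  false,[1,-1],[0,1],[],(⟨0,[(21,0)]⟩,⟨0,[(22,0)]⟩),(⟨0,[(22,0)]⟩,⟨0,[(21,0)]⟩),⟨1,[(0,1),(2,1),(15,
  3),(9,0),(0,0)]⟩,.k,.k,(.r (-2) ⟨1,[(0,1),(19,0),(8,1),(0,0)]⟩ ⟨1,[(3,1),(11,0),(0,0)]⟩),(.r (-2)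
  ⟨1,[(0,1),(19,0),(8,1),(0,0)]⟩ ⟨1,[(3,1),(11,0),(0,0)]⟩),(.r (-3) ⟨3,[(0,5),(19,2),(8,5),(0,2)]⟩
  ⟨0,[(3,1),(22,0),(0,0)]⟩),.k,⟨true,1,⟨3,[(0,1),(19,0),(8,1),(0,0)]⟩,⟨0,[(3,0),(22,0),(0,0)]⟩⟩,
  ⟨false,2,⟨1,[(20,0),(8,2)]⟩,⟨0,[(0,0),(2,0),(22,0)]⟩⟩,⟨false,0,⟨3,[(3,1),(11,0),(0,0),(13,1)]⟩,⟨3,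
  [(0,1),(19,0),(8,1),(0,0)]⟩⟩,⟨true,0,⟨1,[(3,1),(16,0),(8,0)]⟩,⟨0,[(0,0)]⟩⟩,⟨true,(-1),⟨0,[(3,0)]⟩,
  ⟨1,[(0,1),(19,0),(8,0)]⟩⟩,⟨false,0,⟨1,[(1,1),(1,1),(25,0),(0,0)]⟩,⟨3,[(0,5),(19,0),(9,2)]⟩⟩,[]⟩)
  (.Q [0,0,2,0,-1,0,0,0,0,1] (.pp false [-1,1]) (.R ⟨2,true,false,true,[0,1],[1,-1],[0,1,1,1],(⟨0,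
  []⟩,⟨0,[]⟩),(⟨0,[(22,0)]⟩,⟨0,[(23,0)]⟩),⟨0,[]⟩,.k,.k,.k,(.r 1 ⟨1,[(4,1),(11,0),(0,0)]⟩ ⟨0,[(28,1),
  (1,0),(0,0)]⟩),.k,.k,⟨false,(-1),⟨0,[(4,0)]⟩,⟨0,[(28,1),(1,0),(0,0)]⟩⟩,⟨true,(-1),⟨0,[(0,0)]⟩,⟨1,
  [(21,0),(8,0)]⟩⟩,⟨true,0,⟨0,[(33,0)]⟩,⟨0,[]⟩⟩,⟨false,1,⟨0,[(13,0),(2,0),(11,1),(2,0)]⟩,⟨0,[(1,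
  0)]⟩⟩,⟨false,0,⟨0,[(29,0)]⟩,⟨0,[(28,0),(2,0)]⟩⟩,⟨true,0,⟨0,[(13,0),(2,0),(11,0)]⟩,⟨0,[(2,0)]⟩⟩,
  []⟩) (.R ⟨2,true,false,true,[0,1],[1,-1],[1,1,1],(⟨0,[]⟩,⟨0,[]⟩),(⟨0,[(22,0)]⟩,⟨0,[(23,0)]⟩),⟨0,
  []⟩,.k,.k,.k,(.r 1 ⟨1,[(4,1),(11,0),(0,0)]⟩ ⟨0,[(28,1),(1,0),(0,0)]⟩),.k,.k,⟨true,(-1),⟨0,[(4,0),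
  (22,0),(0,0)]⟩,⟨1,[(28,1),(1,0),(0,0)]⟩⟩,⟨false,0,⟨1,[(6,0),(6,0),(2,2)]⟩,⟨0,[(0,0)]⟩⟩,⟨true,0,⟨0,
  [(28,0)]⟩,⟨0,[(29,0)]⟩⟩,⟨false,1,⟨0,[(13,0),(2,0),(11,1),(2,0)]⟩,⟨0,[(1,0)]⟩⟩,⟨false,0,⟨0,[]⟩,⟨1,
  [(9,0),(0,0),(20,0)]⟩⟩,⟨true,0,⟨0,[(13,0),(2,0),(11,0)]⟩,⟨0,[(2,0)]⟩⟩,[]⟩))) (.R ⟨2,true,false,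
  false,[0,1],[1,-1],[1,1,1],(⟨0,[]⟩,⟨0,[]⟩),(⟨0,[(20,0)]⟩,⟨0,[(21,0)]⟩),⟨0,[]⟩,.k,.k,.k,(.r 1 ⟨1,
  [(2,1),(11,0),(0,0)]⟩ ⟨0,[(26,1),(1,0),(0,0)]⟩),.k,.k,⟨false,(-1),⟨0,[(2,0),(23,0)]⟩,⟨0,[(26,0),
  (1,0),(0,0)]⟩⟩,⟨true,(-1),⟨0,[(0,0),(1,0),(22,0),(0,0)]⟩,⟨1,[(19,0),(8,0)]⟩⟩,⟨true,0,⟨0,[(26,0)]⟩,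
  ⟨0,[(27,0)]⟩⟩,⟨false,1,⟨0,[(0,0),(25,0),(2,0)]⟩,⟨1,[(2,1),(16,0),(8,0)]⟩⟩,⟨false,0,⟨0,[]⟩,⟨1,[(7,
  0),(0,0),(20,0)]⟩⟩,⟨true,0,⟨0,[(0,0)]⟩,⟨1,[(2,0),(16,0),(4,0)]⟩⟩,[]⟩))) (.Q [0,0,0,0,0,0,1,1,0,0,
  1] (.p true [0,0,1] [] (⟨0,[(15,0)]⟩,⟨0,[(14,0)]⟩) .k 0 (⟨0,[]⟩,⟨0,[]⟩) .k .k) (.Q [0,0,0,0,0,0,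
  -1,0,0,0,-1] (.p false [0,0,1] [] (⟨0,[(16,0)]⟩,⟨0,[(15,0)]⟩) .k 0 (⟨0,[]⟩,⟨0,[]⟩) .k .k) (.I [0,
  0,0,-1,0,0,0,1] (.I [0,-1,0,0,1,0,0,-1] (.Q [0,0,0,-1,0,0,-1,0,0,0,-1] (.p false [0,0,1] [] (⟨0,
  [(19,0)]⟩,⟨0,[(18,0)]⟩) .k 0 (⟨0,[]⟩,⟨0,[]⟩) .k .k) (.Q [0,0,0,-1,0,0,0,0,0,1] (.pp false [-1,1])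
  (.R ⟨0,false,false,false,[0,1,-1],[0,1],[1,1,1],(⟨0,[(10,0)]⟩,⟨0,[(21,0),(2,0)]⟩),(⟨0,[(25,0)]⟩,
  ⟨0,[(24,0)]⟩),⟨0,[(21,0)]⟩,.k,.k,.k,.k,.k,.k,⟨true,0,⟨0,[(30,0)]⟩,⟨0,[(29,0),(1,0)]⟩⟩,⟨false,1,⟨0,
  [(18,0),(13,0)]⟩,⟨0,[(4,0)]⟩⟩,⟨false,0,⟨0,[(3,0)]⟩,⟨0,[(2,0),(28,0)]⟩⟩,⟨true,0,⟨0,[(5,0)]⟩,⟨0,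
  [(17,0)]⟩⟩,⟨false,0,⟨0,[]⟩,⟨0,[]⟩⟩,⟨false,0,⟨0,[]⟩,⟨0,[]⟩⟩,[.a ⟨true,0,⟨0,[(31,0)]⟩,⟨0,[(0,0)]⟩⟩
  ⟨false,0,⟨0,[(35,0)]⟩,⟨1,[(32,0),(0,0)]⟩⟩ ⟨true,0,⟨0,[(18,0),(12,0)]⟩,⟨0,[(1,0)]⟩⟩,.o ⟨false,1,⟨1,
  [(23,0),(7,1),(1,0)]⟩,⟨0,[(30,0)]⟩⟩,.o ⟨false,1,⟨1,[(8,0),(18,0),(4,0)]⟩,⟨0,[(18,0)]⟩⟩,.e ⟨false,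
  0,⟨0,[]⟩,⟨1,[(11,0),(0,0),(20,0)]⟩⟩ ⟨false,1,⟨1,[(18,1),(12,1),(0,0),(0,0)]⟩,⟨0,[(1,0)]⟩⟩]⟩) (.Q
  [0,0,0,1,0,0,-1,-1,0,0,-1] (.p false [0,0,1] [] (⟨0,[(21,0)]⟩,⟨0,[(20,0)]⟩) .k 0 (⟨0,[]⟩,⟨0,[]⟩)
  .k .k) (.R ⟨2,true,false,true,[0,1],[0,0,1],[1,0,1],(⟨0,[]⟩,⟨0,[]⟩),(⟨0,[(22,0)]⟩,⟨0,[(21,0)]⟩),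
  ⟨0,[]⟩,.k,.k,.k,.k,.k,.k,⟨false,1,⟨0,[(3,0)]⟩,⟨1,[(1,0),(2,0),(1,0),(9,0),(12,0)]⟩⟩,⟨true,0,⟨0,
  [(19,0)]⟩,⟨0,[(5,0)]⟩⟩,⟨false,1,⟨3,[(7,1),(11,0),(0,0),(13,1)]⟩,⟨0,[(32,0)]⟩⟩,⟨true,0,⟨0,[(6,0),
  (24,0)]⟩,⟨0,[(0,0)]⟩⟩,⟨true,0,⟨0,[]⟩,⟨0,[(36,0)]⟩⟩,⟨false,0,⟨0,[(6,0)]⟩,⟨9,[(0,1),(1,1),(0,7),(5,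
  2),(18,0),(5,0)]⟩⟩,[]⟩) (.R ⟨0,false,false,false,[0,0,1],[0,1],[1,1,1],(⟨0,[(22,0)]⟩,⟨0,[(21,
  0)]⟩),(⟨0,[(26,0)]⟩,⟨0,[(25,0)]⟩),⟨0,[(11,0)]⟩,.k,.k,.k,.k,.k,.k,⟨true,0,⟨0,[(31,0)]⟩,⟨0,[(30,0),
  (1,0)]⟩⟩,⟨false,1,⟨3,[(9,0),(6,1),(11,0),(4,2)]⟩,⟨0,[(19,0)]⟩⟩,⟨true,0,⟨0,[(18,0),(0,0)]⟩,⟨0,[(0,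
  0),(0,0),(14,0)]⟩⟩,⟨false,1,⟨1,[(1,0),(1,1),(5,0),(22,0)]⟩,⟨0,[(0,0)]⟩⟩,⟨false,0,⟨0,[]⟩,⟨0,[]⟩⟩,
  ⟨false,0,⟨0,[]⟩,⟨0,[]⟩⟩,[.o ⟨false,0,⟨0,[(1,0)]⟩,⟨3,[(7,1),(4,1),(0,1),(5,0),(0,0)]⟩⟩,.o ⟨false,1,
  ⟨1,[(24,0),(7,1),(1,0)]⟩,⟨0,[(31,0)]⟩⟩,.o ⟨false,1,⟨1,[(19,1),(4,0),(8,0)]⟩,⟨0,[(5,0)]⟩⟩,.a ⟨true,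
  0,⟨0,[(19,0)]⟩,⟨0,[(16,0)]⟩⟩ ⟨false,0,⟨0,[]⟩,⟨1,[(12,0),(0,0),(20,0)]⟩⟩ ⟨true,0,⟨0,[(1,0),(14,
  0)]⟩,⟨0,[(19,0),(11,0)]⟩⟩]⟩))) (.Q [0,0,0,0,0,0,1,0,0,1,1] (.p true [1,-1,1] [] (⟨0,[(20,0),(2,
  0)]⟩,⟨0,[(9,0)]⟩) .k 0 (⟨0,[]⟩,⟨0,[]⟩) .k .k) (.R ⟨0,false,false,false,[0,1,-1],[0,1],[1,1,1],(⟨0,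
  [(10,0)]⟩,⟨0,[(21,0),(2,0)]⟩),(⟨0,[(25,0)]⟩,⟨0,[(24,0)]⟩),⟨0,[(21,0)]⟩,.k,.k,.k,.k,.k,.k,⟨true,0,
  ⟨0,[(30,0)]⟩,⟨0,[(29,0),(1,0)]⟩⟩,⟨false,1,⟨1,[(0,1),(22,0),(8,0)]⟩,⟨0,[(4,0)]⟩⟩,⟨false,0,⟨0,[(3,
  0)]⟩,⟨0,[(2,0),(28,0)]⟩⟩,⟨true,0,⟨0,[(5,0)]⟩,⟨0,[(17,0)]⟩⟩,⟨false,0,⟨0,[]⟩,⟨0,[]⟩⟩,⟨false,0,⟨0,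
  []⟩,⟨0,[]⟩⟩,[.e ⟨false,0,⟨0,[(35,0)]⟩,⟨1,[(32,0),(0,0)]⟩⟩ ⟨false,0,⟨0,[(1,0)]⟩,⟨3,[(6,1),(1,1),
  (14,0),(8,0)]⟩⟩,.o ⟨false,1,⟨1,[(23,0),(7,1),(1,0)]⟩,⟨0,[(30,0)]⟩⟩,.o ⟨false,1,⟨1,[(8,0),(18,0),
  (4,0)]⟩,⟨0,[(18,0)]⟩⟩,.a ⟨true,0,⟨0,[(4,0)]⟩,⟨0,[(0,0)]⟩⟩ ⟨false,0,⟨0,[]⟩,⟨1,[(11,0),(0,0),(20,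
  0)]⟩⟩ ⟨true,0,⟨0,[(1,0)]⟩,⟨0,[(4,0),(25,0)]⟩⟩]⟩) (.Q [0,0,0,1,0,0,-1,-1,0,0,-1] (.p false [0,0,1]
  [] (⟨0,[(21,0)]⟩,⟨0,[(20,0)]⟩) .k 0 (⟨0,[]⟩,⟨0,[]⟩) .k .k) (.R ⟨2,true,false,false,[0,1],[0,0,1],
  [0,1,1,1],(⟨0,[]⟩,⟨0,[]⟩),(⟨0,[(22,0)]⟩,⟨0,[(21,0)]⟩),⟨0,[]⟩,.k,.k,.k,.k,.k,.k,⟨false,0,⟨0,[(2,0),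
  (15,0)]⟩,⟨1,[(4,1),(28,0),(0,0)]⟩⟩,⟨true,0,⟨0,[(19,0)]⟩,⟨0,[(5,0)]⟩⟩,⟨true,0,⟨0,[(36,0)]⟩,⟨0,[]⟩⟩,
  ⟨false,1,⟨2,[(4,0),(1,0),(0,0),(9,0),(1,0),(14,1)]⟩,⟨0,[(0,0)]⟩⟩,⟨false,0,⟨0,[(32,0)]⟩,⟨3,[(7,1),
  (11,0),(0,0),(13,1)]⟩⟩,⟨true,0,⟨0,[(6,0)]⟩,⟨0,[(18,0)]⟩⟩,[]⟩) (.R ⟨0,false,false,false,[0,0,1],[0,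
  1],[1,1,1],(⟨0,[(22,0)]⟩,⟨0,[(21,0)]⟩),(⟨0,[(26,0)]⟩,⟨0,[(25,0)]⟩),⟨0,[(11,0)]⟩,.k,.k,.k,.k,.k,.k,
  ⟨true,0,⟨0,[(31,0)]⟩,⟨0,[(30,0),(1,0)]⟩⟩,⟨false,1,⟨2,[(1,0),(7,0),(23,2)]⟩,⟨0,[(19,0)]⟩⟩,⟨true,0,
  ⟨0,[(18,0),(0,0)]⟩,⟨0,[(0,0),(0,0),(0,0),(13,0)]⟩⟩,⟨false,1,⟨2,[(1,0),(1,2),(5,0),(22,2)]⟩,⟨0,[(0,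
  0)]⟩⟩,⟨false,0,⟨0,[]⟩,⟨0,[]⟩⟩,⟨false,0,⟨0,[]⟩,⟨0,[]⟩⟩,[.o ⟨false,0,⟨0,[(1,0),(0,0)]⟩,⟨3,[(7,1),(4,
  1),(0,1),(5,0),(0,0)]⟩⟩,.o ⟨false,1,⟨1,[(24,0),(7,1),(1,0)]⟩,⟨0,[(31,0)]⟩⟩,.o ⟨false,1,⟨1,[(19,1),
  (4,0),(8,0)]⟩,⟨0,[(5,0)]⟩⟩,.a ⟨true,0,⟨0,[(19,0)]⟩,⟨0,[(16,0)]⟩⟩ ⟨false,0,⟨0,[]⟩,⟨1,[(12,0),(0,0),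
  (20,0)]⟩⟩ ⟨true,0,⟨0,[(1,0),(0,0),(13,0)]⟩,⟨0,[(19,0),(11,0)]⟩⟩]⟩)))) (.Q [0,-1,0,1,0,0,1,1,0,0,
  1] (.p true [0,0,1] [] (⟨0,[(19,0)]⟩,⟨0,[(18,0)]⟩) .k 0 (⟨0,[]⟩,⟨0,[]⟩) .k .k) (.R ⟨2,true,false,
  false,[0,1],[0,1,1],[0,0,1,1],(⟨0,[]⟩,⟨0,[]⟩),(⟨0,[(20,0),(3,0)]⟩,⟨0,[(8,0)]⟩),⟨0,[]⟩,.k,.k,.k,.k,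
  .k,.k,⟨true,1,⟨1,[(16,1),(0,1),(13,0),(0,0)]⟩,⟨0,[(1,0),(26,0)]⟩⟩,⟨false,1,⟨0,[(17,0),(13,0)]⟩,⟨0,
  [(3,0)]⟩⟩,⟨false,1,⟨1,[(10,0),(0,0),(20,0)]⟩,⟨0,[]⟩⟩,⟨true,0,⟨0,[(4,0)]⟩,⟨0,[(16,0)]⟩⟩,⟨true,0,⟨0,
  [(30,0)]⟩,⟨0,[(29,0)]⟩⟩,⟨false,0,⟨0,[(0,0)]⟩,⟨3,[(5,1),(10,3),(0,0),(0,0),(13,1)]⟩⟩,[]⟩) (.Q [0,0,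
  -1,1,0,0,-1,0,0,0,-1] (.p false [0,0,1] [] (⟨0,[(20,0)]⟩,⟨0,[(19,0)]⟩) .k 0 (⟨0,[]⟩,⟨0,[]⟩) .k
  .k) (.Q [0,0,0,-1,0,0,1,1,0,0,1] (.p true [0,0,1] [] (⟨0,[(21,0)]⟩,⟨0,[(20,0)]⟩) .k 0 (⟨0,[]⟩,⟨0,
  []⟩) .k .k) (.R ⟨0,false,false,false,[0,0,1],[0,1],[1,1,1],(⟨0,[(22,0)]⟩,⟨0,[(21,0)]⟩),(⟨0,[(26,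
  0)]⟩,⟨0,[(25,0)]⟩),⟨0,[(11,0)]⟩,.k,.k,.k,.k,.k,.k,⟨true,0,⟨0,[(31,0)]⟩,⟨0,[(30,0),(1,0)]⟩⟩,⟨false,
  1,⟨9,[(1,3),(5,1),(1,2),(18,0),(4,6)]⟩,⟨0,[(19,0)]⟩⟩,⟨true,0,⟨0,[(18,0),(0,0)]⟩,⟨0,[(0,0),(0,
  0)]⟩⟩,⟨false,1,⟨0,[(18,0),(13,0),(1,0)]⟩,⟨0,[(0,0)]⟩⟩,⟨false,0,⟨0,[]⟩,⟨0,[]⟩⟩,⟨false,0,⟨0,[]⟩,⟨0,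
  []⟩⟩,[.e ⟨false,0,⟨0,[(36,0)]⟩,⟨1,[(33,0),(0,0)]⟩⟩ ⟨false,0,⟨0,[(1,0)]⟩,⟨3,[(7,1),(4,0),(0,0),(5,
  3),(13,0)]⟩⟩,.o ⟨false,1,⟨1,[(24,0),(7,1),(1,0)]⟩,⟨0,[(31,0)]⟩⟩,.o ⟨false,1,⟨1,[(19,1),(4,0),(8,
  0)]⟩,⟨0,[(5,0)]⟩⟩,.a ⟨true,0,⟨0,[(19,0)]⟩,⟨0,[(16,0)]⟩⟩ ⟨false,0,⟨0,[]⟩,⟨1,[(12,0),(0,0),(20,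
  0)]⟩⟩ ⟨true,0,⟨0,[(1,0)]⟩,⟨0,[(19,0),(11,0)]⟩⟩]⟩) (.R ⟨2,true,false,true,[0,1],[0,0,1],[1,1,1,0,0,
  0,0,1],(⟨0,[]⟩,⟨0,[]⟩),(⟨0,[(22,0)]⟩,⟨0,[(21,0)]⟩),⟨0,[]⟩,.k,.k,.k,.k,.k,.k,⟨false,0,⟨0,[]⟩,⟨1,
  [(12,0),(0,0),(19,0)]⟩⟩,⟨true,0,⟨0,[(19,0)]⟩,⟨0,[(5,0)]⟩⟩,⟨false,0,⟨0,[(4,0)]⟩,⟨1,[(0,1),(18,1),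
  (13,0),(0,0)]⟩⟩,⟨true,0,⟨0,[(6,0),(24,0)]⟩,⟨0,[(0,0)]⟩⟩,⟨true,(-1),⟨0,[(3,0)]⟩,⟨1,[(18,1),(0,1),
  (13,0),(0,0)]⟩⟩,⟨false,0,⟨0,[(6,0)]⟩,⟨0,[(18,0),(15,0)]⟩⟩,[]⟩)) (.R ⟨0,false,false,false,[0,0,1],
  [0,1],[1,1,1],(⟨0,[(21,0)]⟩,⟨0,[(20,0)]⟩),(⟨0,[(25,0)]⟩,⟨0,[(24,0)]⟩),⟨0,[(10,0)]⟩,.k,.k,.k,.k,.k,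
  .k,⟨true,0,⟨0,[(30,0)]⟩,⟨0,[(29,0),(1,0)]⟩⟩,⟨false,1,⟨3,[(8,0),(6,1),(11,0),(4,2)]⟩,⟨0,[(18,0)]⟩⟩,
  ⟨true,0,⟨0,[(17,0),(0,0)]⟩,⟨1,[(2,1),(29,0),(0,0)]⟩⟩,⟨false,1,⟨0,[(17,0),(13,0),(1,0)]⟩,⟨1,[(0,1),
  (1,1),(29,0),(0,0)]⟩⟩,⟨false,0,⟨0,[]⟩,⟨0,[]⟩⟩,⟨false,0,⟨0,[]⟩,⟨0,[]⟩⟩,[.a ⟨true,0,⟨0,[(31,0)]⟩,⟨0,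
  [(0,0),(14,0)]⟩⟩ ⟨false,0,⟨0,[(35,0)]⟩,⟨1,[(32,0),(0,0)]⟩⟩ ⟨true,0,⟨0,[(4,0),(26,0)]⟩,⟨0,[(0,
  0)]⟩⟩,.o ⟨false,1,⟨1,[(23,0),(7,1),(1,0)]⟩,⟨0,[(30,0)]⟩⟩,.o ⟨false,1,⟨1,[(18,1),(4,0),(8,0)]⟩,⟨0,
  [(4,0)]⟩⟩,.e ⟨false,0,⟨0,[]⟩,⟨1,[(11,0),(0,0),(20,0)]⟩⟩ ⟨false,1,⟨3,[(8,0),(6,1),(11,0),(3,3),(0,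
  0),(0,1)]⟩,⟨0,[(0,0)]⟩⟩]⟩)))) (.R ⟨2,true,false,false,[0,1],[0,0,1],[1,1,1],(⟨0,[]⟩,⟨0,[]⟩),(⟨0,
  [(18,0)]⟩,⟨0,[(17,0)]⟩),⟨0,[]⟩,.k,.k,.k,.k,.k,.k,⟨false,0,⟨0,[(0,0),(26,0)]⟩,⟨3,[(2,3),(2,0),(6,
  1),(11,0),(4,0),(0,1)]⟩⟩,⟨true,0,⟨0,[(15,0)]⟩,⟨0,[(1,0)]⟩⟩,⟨true,0,⟨0,[(27,0)]⟩,⟨0,[(28,0)]⟩⟩,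
  ⟨false,1,⟨3,[(2,3),(0,1),(11,0),(0,0),(13,1)]⟩,⟨0,[(0,0),(0,0)]⟩⟩,⟨false,0,⟨0,[]⟩,⟨1,[(8,0),(0,0),
  (20,0)]⟩⟩,⟨true,0,⟨0,[(2,0)]⟩,⟨0,[(14,0)]⟩⟩,[]⟩)) (.R ⟨0,false,false,false,[0,1,-1],[0,1],[1],(⟨0,
  [(6,0)]⟩,⟨0,[(17,0),(2,0)]⟩),(⟨0,[(21,0)]⟩,⟨0,[(20,0)]⟩),⟨0,[(17,0)]⟩,.k,.k,.k,.k,.k,.k,⟨false,1,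
  ⟨1,[(0,2),(1,0),(8,2),(11,0)]⟩,⟨1,[(14,0),(0,0),(11,1)]⟩⟩,⟨true,0,⟨0,[(0,0)]⟩,⟨0,[(15,0)]⟩⟩,
  ⟨false,1,⟨1,[(0,0),(0,1),(0,0),(8,2),(11,0),(1,1)]⟩,⟨0,[(0,0),(12,0),(11,0),(1,0)]⟩⟩,⟨true,0,⟨0,
  [(1,0)]⟩,⟨0,[(13,0)]⟩⟩,⟨false,0,⟨0,[]⟩,⟨0,[]⟩⟩,⟨false,0,⟨0,[]⟩,⟨0,[]⟩⟩,[.a ⟨true,0,⟨0,[(27,0)]⟩,
  ⟨0,[(0,0),(10,0),(13,0),(0,0)]⟩⟩ ⟨true,0,⟨0,[]⟩,⟨1,[(14,0),(0,0)]⟩⟩ ⟨false,0,⟨0,[(0,0),(26,0)]⟩,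
  ⟨3,[(2,1),(1,1),(14,0),(8,0)]⟩⟩,.o ⟨false,1,⟨1,[(19,0),(7,1),(1,0)]⟩,⟨0,[(26,0)]⟩⟩,.o ⟨false,1,⟨1,
  [(4,0),(18,0),(4,0)]⟩,⟨0,[(14,0)]⟩⟩,.o ⟨false,1,⟨3,[(4,1),(2,0),(0,0),(10,2)]⟩,⟨0,[(0,0)]⟩⟩]⟩))
  (.Q [0,0,0,0,0,0,-1,0,0,0,-1] (.p false [0,0,1] [] (⟨0,[(16,0)]⟩,⟨0,[(15,0)]⟩) .k 0 (⟨0,[]⟩,⟨0,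
  []⟩) .k .k) (.Q [0,-1,0,1,0,0,-1,-1,0,0,-1] (.p false [0,0,1] [] (⟨0,[(17,0)]⟩,⟨0,[(16,0)]⟩) .k 0
  (⟨0,[]⟩,⟨0,[]⟩) .k .k) (.I [1,0,0,0,0,0,0,-1] (.R ⟨2,true,false,true,[0,1],[0,0,1],[1,1,1],(⟨0,
  []⟩,⟨0,[]⟩),(⟨0,[(19,0)]⟩,⟨0,[(18,0)]⟩),⟨0,[]⟩,.k,.k,.k,.k,.k,.k,⟨false,0,⟨0,[(0,0)]⟩,⟨1,[(5,1),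
  (24,0),(0,0)]⟩⟩,⟨true,0,⟨0,[(16,0)]⟩,⟨0,[(2,0)]⟩⟩,⟨true,0,⟨0,[(28,0)]⟩,⟨0,[(29,0)]⟩⟩,⟨false,1,⟨3,
  [(4,1),(9,3),(1,0),(0,0),(13,1)]⟩,⟨0,[(1,0)]⟩⟩,⟨false,0,⟨0,[]⟩,⟨1,[(9,0),(0,0),(20,0)]⟩⟩,⟨true,0,
  ⟨0,[(14,0)]⟩,⟨0,[(3,0)]⟩⟩,[]⟩) (.I [0,0,0,1,0,0,0,-1] (.R ⟨2,true,false,true,[0,1],[0,0,1],[0,1,1,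
  1],(⟨0,[]⟩,⟨0,[]⟩),(⟨0,[(20,0)]⟩,⟨0,[(19,0)]⟩),⟨0,[]⟩,.k,.k,.k,.k,.k,.k,⟨false,0,⟨0,[(0,0)]⟩,⟨3,
  [(1,1),(3,1),(0,1),(24,0),(0,0)]⟩⟩,⟨true,0,⟨0,[(17,0)]⟩,⟨0,[(3,0)]⟩⟩,⟨true,0,⟨0,[(34,0)]⟩,⟨0,[]⟩⟩,
  ⟨false,1,⟨3,[(5,1),(9,3),(1,0),(0,0),(13,1)]⟩,⟨0,[(2,0)]⟩⟩,⟨false,0,⟨0,[(30,0)]⟩,⟨3,[(5,1),(11,0),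
  (0,0),(13,1)]⟩⟩,⟨true,0,⟨0,[(15,0)]⟩,⟨0,[(4,0)]⟩⟩,[]⟩) (.Q [0,0,0,-1,0,0,1,1,0,1,1] (.p true [1,
  -1,1] [] (⟨0,[(20,0),(2,0)]⟩,⟨0,[(9,0)]⟩) .k 0 (⟨0,[]⟩,⟨0,[]⟩) .k .k) (.R ⟨2,false,false,false,[0,
  1],[0,1,-1],[0,1],(⟨0,[]⟩,⟨0,[]⟩),(⟨0,[(10,0)]⟩,⟨0,[(21,0),(2,0)]⟩),⟨0,[]⟩,.k,.k,.k,.k,.k,.k,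
  ⟨false,1,⟨3,[(1,1),(4,0),(0,1),(20,0),(3,2)]⟩,⟨0,[(3,0),(14,0)]⟩⟩,⟨true,0,⟨0,[(4,0)]⟩,⟨0,[(18,
  0)]⟩⟩,⟨false,1,⟨3,[(6,1),(4,0),(0,0),(19,0)]⟩,⟨0,[(29,0),(1,0)]⟩⟩,⟨true,0,⟨0,[(5,0)]⟩,⟨0,[(16,
  0)]⟩⟩,⟨false,1,⟨1,[(11,0),(0,0),(19,0)]⟩,⟨0,[(29,0)]⟩⟩,⟨false,0,⟨0,[(3,0)]⟩,⟨1,[(0,1),(10,0),(0,
  0),(10,0)]⟩⟩,[.a ⟨true,0,⟨1,[(3,0),(13,0),(13,0)]⟩,⟨0,[(0,0)]⟩⟩ ⟨true,0,⟨0,[(35,0)]⟩,⟨0,[(29,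
  0)]⟩⟩ ⟨false,0,⟨1,[(3,0),(13,0),(13,0)]⟩,⟨1,[(0,1),(22,0),(8,0)]⟩⟩,.e ⟨false,1,⟨1,[(11,0),(0,0),
  (19,0)]⟩,⟨0,[]⟩⟩ ⟨false,0,⟨0,[(3,0)]⟩,⟨3,[(6,1),(4,0),(0,0),(3,3),(15,0)]⟩⟩,.o ⟨false,1,⟨1,[(23,
  0),(8,0)]⟩,⟨1,[(18,0),(0,0)]⟩⟩,.fo]⟩) (.Q [0,1,0,-1,0,0,1,1,0,1,1] (.p true [1,-1,1] [] (⟨0,[(21,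
  0),(2,0)]⟩,⟨0,[(10,0)]⟩) .k 0 (⟨0,[]⟩,⟨0,[]⟩) .k .k) (.R ⟨2,false,false,false,[0,1],[0,1,-1],[1,
  1],(⟨0,[]⟩,⟨0,[]⟩),(⟨0,[(11,0)]⟩,⟨0,[(22,0),(2,0)]⟩),⟨0,[]⟩,.k,.k,.k,.k,.k,.k,⟨false,1,⟨3,[(2,1),
  (4,0),(0,1),(20,0),(3,2)]⟩,⟨0,[(4,0),(14,0)]⟩⟩,⟨true,0,⟨0,[(5,0)]⟩,⟨0,[(19,0)]⟩⟩,⟨false,1,⟨3,[(7,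
  1),(4,0),(0,0),(19,0)]⟩,⟨0,[(30,0),(1,0)]⟩⟩,⟨true,0,⟨0,[(6,0)]⟩,⟨0,[(17,0)]⟩⟩,⟨false,1,⟨1,[(12,0),
  (0,0),(19,0)]⟩,⟨0,[(2,0),(1,0),(14,0)]⟩⟩,⟨false,0,⟨0,[(4,0)]⟩,⟨1,[(0,1),(23,0),(9,0)]⟩⟩,[.o
  ⟨false,0,⟨0,[(1,0)]⟩,⟨1,[(0,1),(23,0),(9,0)]⟩⟩,.a ⟨true,0,⟨0,[(4,0)]⟩,⟨0,[(0,0)]⟩⟩ ⟨true,0,⟨0,[]⟩,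
  ⟨1,[(19,0),(0,0)]⟩⟩ ⟨false,0,⟨0,[(4,0)]⟩,⟨1,[(0,1),(23,0),(8,0)]⟩⟩,.o ⟨false,1,⟨1,[(24,0),(8,0)]⟩,
  ⟨1,[(19,0),(0,0)]⟩⟩,.fo]⟩) (.Q [0,-1,0,0,0,0,-1,-1,0,1,-1] (.p false [0,0,1] [1] (⟨0,[(22,0)]⟩,⟨0,
  [(21,0)]⟩) .k 1 (⟨0,[]⟩,⟨0,[]⟩) .k .k) (.R ⟨0,false,false,true,[0,1,-1],[0,0,1],[0,1,1,1,0,0,0,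
  -1],(⟨0,[(12,0)]⟩,⟨0,[(23,0),(2,0)]⟩),(⟨0,[(23,0)]⟩,⟨0,[(22,0)]⟩),⟨0,[(23,0)]⟩,.k,.k,.k,(.r 0 ⟨0,
  [(0,0),(0,0),(18,1),(9,0)]⟩ ⟨1,[(3,1),(5,1),(24,0),(0,0)]⟩),.k,.k,⟨true,0,⟨0,[(0,0),(0,0),(18,1),
  (9,0)]⟩,⟨0,[(3,0),(0,0)]⟩⟩,⟨false,1,⟨0,[(20,1),(13,0)]⟩,⟨0,[(2,0),(0,0),(13,0)]⟩⟩,⟨true,0,⟨0,[(37,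
  0)]⟩,⟨0,[]⟩⟩,⟨false,1,⟨1,[(3,1),(14,1),(1,1),(13,0),(0,0)]⟩,⟨0,[(5,0),(1,0)]⟩⟩,⟨false,0,⟨0,[]⟩,⟨0,
  []⟩⟩,⟨false,0,⟨0,[]⟩,⟨0,[]⟩⟩,[.a ⟨true,0,⟨0,[(18,0)]⟩,⟨0,[(0,0)]⟩⟩ ⟨false,0,⟨0,[(5,0),(14,0),(9,
  0)]⟩,⟨1,[(3,1),(30,0),(0,0)]⟩⟩ ⟨true,0,⟨0,[(18,0),(1,0)]⟩,⟨4,[(0,1),(0,2),(1,2),(3,2),(2,0)]⟩⟩,.o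
  ⟨false,1,⟨1,[(18,1),(6,0),(9,0)]⟩,⟨0,[(7,0)]⟩⟩,.o ⟨false,1,⟨1,[(10,0),(18,0),(4,0)]⟩,⟨0,[(20,
  0)]⟩⟩,.o ⟨false,0,⟨0,[(2,0),(0,0)]⟩,⟨1,[(13,0),(0,0),(5,1),(13,0)]⟩⟩]⟩) (.Q [0,-1,0,-1,1,0,2,2,0,
  0,2] (.p true [0,0,1] [0,1,-1] (⟨0,[(23,0)]⟩,⟨0,[(22,0)]⟩) .k 2 (⟨0,[(12,0)]⟩,⟨0,[(23,0),(2,0)]⟩)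
  .k (.r 0 ⟨0,[(4,1)]⟩ ⟨0,[(7,1),(12,1),(13,0)]⟩)) (.R ⟨0,false,false,true,[0,0,1],[0,1,-1],[1,0,1],
  (⟨0,[(24,0)]⟩,⟨0,[(23,0)]⟩),(⟨0,[(13,0)]⟩,⟨0,[(24,0),(2,0)]⟩),⟨0,[(13,0)]⟩,.k,.k,.k,(.x (-1) ⟨1,
  [(13,1),(7,3),(1,1),(2,0),(8,0)]⟩ ⟨10,[(2,9),(1,9),(6,1),(6,7),(5,21),(0,10),(5,2),(6,3)]⟩),.k,.k,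
  ⟨false,1,⟨1,[(4,1),(30,0),(0,0)]⟩,⟨0,[(6,0),(14,0),(9,0)]⟩⟩,⟨true,0,⟨0,[(3,0),(0,0),(13,0)]⟩,⟨0,
  [(21,1)]⟩⟩,⟨true,0,⟨0,[(8,0),(12,0)]⟩,⟨0,[(1,0),(16,0)]⟩⟩,⟨false,0,⟨0,[(6,0),(13,0)]⟩,⟨0,[(0,
  0)]⟩⟩,⟨false,0,⟨0,[]⟩,⟨0,[]⟩⟩,⟨false,0,⟨0,[]⟩,⟨0,[]⟩⟩,[.o ⟨false,0,⟨0,[(3,0),(34,0)]⟩,⟨7,[(0,3),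
  (8,1),(11,0),(0,0),(13,1)]⟩⟩,.o ⟨false,0,⟨0,[(3,0)]⟩,⟨7,[(0,3),(8,1),(4,1),(0,1),(5,0),(0,0),(15,
  3)]⟩⟩,.o ⟨false,1,⟨1,[(21,1),(4,0),(8,0)]⟩,⟨0,[(7,0)]⟩⟩,.a ⟨true,0,⟨0,[(21,0)]⟩,⟨0,[(18,0)]⟩⟩
  ⟨true,0,⟨0,[]⟩,⟨0,[(38,0)]⟩⟩ ⟨false,0,⟨0,[(3,0),(14,0)]⟩,⟨7,[(0,3),(8,1),(11,8),(0,0),(13,
  1)]⟩⟩]⟩) (.R ⟨0,false,false,true,[0,0,1],[0,1,-1],[0,1,1,1,0,0,0,-1],(⟨0,[(24,0)]⟩,⟨0,[(23,0)]⟩),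
  (⟨0,[(13,0)]⟩,⟨0,[(24,0),(2,0)]⟩),⟨0,[(13,0)]⟩,.k,.k,.k,(.r (-1) ⟨1,[(4,1),(5,1),(24,0),(0,0)]⟩
  ⟨1,[(0,0),(5,0),(1,0),(12,3),(13,0)]⟩),.k,.k,⟨false,1,⟨1,[(14,0),(0,0),(19,0)]⟩,⟨0,[]⟩⟩,⟨true,0,
  ⟨10,[(0,2),(1,2),(1,5),(0,2),(5,0),(6,10),(11,2)]⟩,⟨0,[(21,1)]⟩⟩,⟨false,0,⟨1,[(0,0),(5,0),(1,0),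
  (12,3),(13,0)]⟩,⟨1,[(4,1),(0,1),(29,0),(0,0)]⟩⟩,⟨true,(-1),⟨0,[(0,0)]⟩,⟨1,[(4,1),(14,1),(1,1),(13,
  0),(0,0)]⟩⟩,⟨false,0,⟨0,[]⟩,⟨0,[]⟩⟩,⟨false,0,⟨0,[]⟩,⟨0,[]⟩⟩,[.o ⟨false,0,⟨0,[(3,0),(34,0)]⟩,⟨1,
  [(4,1),(16,1),(13,0),(0,0)]⟩⟩,.o ⟨false,0,⟨0,[(3,0)]⟩,⟨3,[(9,1),(9,3),(1,0),(0,0),(13,1)]⟩⟩,.o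
  ⟨false,1,⟨1,[(21,1),(4,0),(8,0)]⟩,⟨0,[(7,0)]⟩⟩,.a ⟨true,0,⟨0,[(21,0)]⟩,⟨0,[(18,0)]⟩⟩ ⟨true,0,⟨0,
  [(6,0),(14,0),(9,0)]⟩,⟨0,[(4,0)]⟩⟩ ⟨false,0,⟨0,[(3,0),(14,0)]⟩,⟨1,[(4,1),(16,3),(13,0),(0,
  0)]⟩⟩]⟩))))))) (.Q [0,0,1,-1,0,0,1,0,0,0,1] (.p true [0,0,1] [] (⟨0,[(18,0)]⟩,⟨0,[(17,0)]⟩) .k 0
  (⟨0,[]⟩,⟨0,[]⟩) .k .k) (.Q [0,0,0,1,0,0,-1,-1,0,-1,-1] (.p false [1,-1,1] [] (⟨0,[(19,0),(2,0)]⟩,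
  ⟨0,[(8,0)]⟩) .k 0 (⟨0,[]⟩,⟨0,[]⟩) .k .k) (.Q [0,-1,0,-1,0,0,-1,-1,0,1,-1] (.p false [0,0,1] [1]
  (⟨0,[(20,0)]⟩,⟨0,[(19,0)]⟩) .k 1 (⟨0,[]⟩,⟨0,[]⟩) .k .k) (.I [0,0,2,2,-1,0,0,-1] (.I [0,0,2,1,-1,0,
  0,-2] (.R ⟨0,false,false,true,[0,0,1],[1,-1,1],[0,1,0,-1,0,0,0,1],(⟨0,[(23,0)]⟩,⟨0,[(22,0)]⟩),(⟨0,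
  [(23,0),(2,0)]⟩,⟨0,[(12,0)]⟩),⟨0,[(12,0)]⟩,.k,.k,.k,.k,.k,.k,⟨true,0,⟨1,[(20,0),(0,0)]⟩,⟨0,[]⟩⟩,
  ⟨false,0,⟨0,[(17,0),(2,0)]⟩,⟨1,[(25,0),(8,0)]⟩⟩,⟨true,0,⟨0,[(32,0)]⟩,⟨0,[(33,0)]⟩⟩,⟨false,0,⟨1,
  [(2,0),(2,0),(11,0),(2,0)]⟩,⟨1,[(25,0),(7,1),(1,0)]⟩⟩,⟨false,0,⟨0,[]⟩,⟨0,[]⟩⟩,⟨false,0,⟨0,[]⟩,⟨0,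
  []⟩⟩,[.o ⟨false,0,⟨0,[(5,0)]⟩,⟨13,[(1,3),(1,5),(6,1),(8,3),(5,4),(8,3),(0,8)]⟩⟩,.o ⟨false,1,⟨1,
  [(5,1),(7,0),(0,0),(20,0)]⟩,⟨0,[(3,0)]⟩⟩,.o ⟨false,1,⟨1,[(20,1),(4,0),(8,0)]⟩,⟨0,[(6,0)]⟩⟩,.a
  ⟨true,0,⟨0,[(20,0)]⟩,⟨0,[(17,0)]⟩⟩ ⟨false,1,⟨9,[(5,5),(2,1),(0,3),(7,5),(11,1),(4,0),(0,4)]⟩,⟨5,
  [(0,1),(0,1),(32,0),(0,2)]⟩⟩ ⟨true,0,⟨0,[(5,0),(11,0)]⟩,⟨5,[(0,1),(0,1),(23,2),(8,0)]⟩⟩]⟩) (.R ⟨0,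
  false,false,false,[0,0,1],[0,1],[1,1,1],(⟨0,[(23,0)]⟩,⟨0,[(22,0)]⟩),(⟨0,[(27,0)]⟩,⟨0,[(26,0)]⟩),
  ⟨0,[(12,0)]⟩,.k,.k,.k,.k,.k,.k,⟨true,0,⟨0,[(32,0)]⟩,⟨2,[(0,0),(0,1),(29,0),(3,0)]⟩⟩,⟨false,1,⟨10,
  [(0,1),(2,3),(4,0),(1,2),(6,0),(16,7)]⟩,⟨0,[(20,0)]⟩⟩,⟨false,0,⟨0,[(7,0),(12,0)]⟩,⟨1,[(0,0),(32,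
  0),(1,0)]⟩⟩,⟨true,0,⟨4,[(1,1),(1,0),(3,1),(2,0),(23,1)]⟩,⟨0,[(5,0)]⟩⟩,⟨false,0,⟨0,[]⟩,⟨0,[]⟩⟩,
  ⟨false,0,⟨0,[]⟩,⟨0,[]⟩⟩,[.a ⟨true,0,⟨0,[(33,0)]⟩,⟨1,[(2,0),(2,0),(11,0),(2,0)]⟩⟩ ⟨false,0,⟨0,[(37,
  0)]⟩,⟨1,[(34,0),(0,0)]⟩⟩ ⟨true,0,⟨2,[(0,0),(0,0),(1,0),(6,0),(22,0)]⟩,⟨0,[(4,0)]⟩⟩,.o ⟨false,1,⟨1,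
  [(25,0),(7,1),(1,0)]⟩,⟨0,[(32,0)]⟩⟩,.o ⟨false,1,⟨1,[(20,1),(4,0),(8,0)]⟩,⟨0,[(6,0)]⟩⟩,.e ⟨false,0,
  ⟨0,[]⟩,⟨1,[(13,0),(0,0),(20,0)]⟩⟩ ⟨false,1,⟨5,[(0,0),(2,1),(6,1),(22,4),(0,1),(0,2)]⟩,⟨0,[(4,
  0)]⟩⟩]⟩)) (.R ⟨0,false,false,false,[0,0,1],[0,1],[1,1,1],(⟨0,[(22,0)]⟩,⟨0,[(21,0)]⟩),(⟨0,[(26,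
  0)]⟩,⟨0,[(25,0)]⟩),⟨0,[(11,0)]⟩,.k,.k,.k,.k,.k,.k,⟨true,0,⟨0,[(31,0)]⟩,⟨0,[(30,0),(1,0)]⟩⟩,⟨false,
  1,⟨3,[(9,0),(6,1),(11,0),(4,2)]⟩,⟨0,[(19,0)]⟩⟩,⟨false,0,⟨0,[(6,0),(12,0)]⟩,⟨0,[(0,0),(29,0),(1,
  1)]⟩⟩,⟨true,0,⟨0,[(6,0),(25,0)]⟩,⟨0,[(4,0)]⟩⟩,⟨false,0,⟨0,[]⟩,⟨0,[]⟩⟩,⟨false,0,⟨0,[]⟩,⟨0,[]⟩⟩,[.a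
  ⟨true,0,⟨0,[(32,0)]⟩,⟨1,[(1,0),(2,0),(11,0),(2,0)]⟩⟩ ⟨false,0,⟨0,[(36,0)]⟩,⟨1,[(33,0),(0,0)]⟩⟩
  ⟨true,0,⟨0,[(5,0),(26,0)]⟩,⟨0,[(3,0)]⟩⟩,.o ⟨false,1,⟨1,[(24,0),(7,1),(1,0)]⟩,⟨0,[(31,0)]⟩⟩,.o
  ⟨false,1,⟨1,[(19,1),(4,0),(8,0)]⟩,⟨0,[(5,0)]⟩⟩,.e ⟨false,0,⟨0,[]⟩,⟨1,[(12,0),(0,0),(20,0)]⟩⟩
  ⟨false,1,⟨3,[(9,0),(6,1),(11,0),(3,3),(0,0),(0,1)]⟩,⟨0,[(3,0)]⟩⟩]⟩)) (.I [1,-1,-1,-1,1,0,0,1] (.R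
  ⟨0,false,false,false,[0,0,1],[0,1],[1,1,1],(⟨0,[(22,0)]⟩,⟨0,[(21,0)]⟩),(⟨0,[(26,0)]⟩,⟨0,[(25,
  0)]⟩),⟨0,[(11,0)]⟩,.k,.k,.k,.k,.k,.k,⟨true,0,⟨0,[(31,0)]⟩,⟨0,[(30,0),(1,0)]⟩⟩,⟨false,1,⟨3,[(9,0),
  (6,1),(11,0),(4,2)]⟩,⟨0,[(19,0)]⟩⟩,⟨false,0,⟨0,[(6,0),(12,0)]⟩,⟨1,[(0,0),(0,0),(14,0),(17,0)]⟩⟩,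
  ⟨true,0,⟨0,[(6,0),(25,0)]⟩,⟨0,[(4,0)]⟩⟩,⟨false,0,⟨0,[]⟩,⟨0,[]⟩⟩,⟨false,0,⟨0,[]⟩,⟨0,[]⟩⟩,[.a ⟨true,
  0,⟨0,[(32,0)]⟩,⟨0,[(3,0),(12,0)]⟩⟩ ⟨false,0,⟨0,[(36,0)]⟩,⟨1,[(33,0),(0,0)]⟩⟩ ⟨true,0,⟨2,[(1,0),(0,
  0),(6,0),(6,0),(13,0),(1,0)]⟩,⟨0,[(3,0)]⟩⟩,.o ⟨false,1,⟨1,[(24,0),(7,1),(1,0)]⟩,⟨0,[(31,0)]⟩⟩,.o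
  ⟨false,1,⟨1,[(19,1),(4,0),(8,0)]⟩,⟨0,[(5,0)]⟩⟩,.e ⟨false,0,⟨0,[]⟩,⟨1,[(12,0),(0,0),(20,0)]⟩⟩
  ⟨false,1,⟨2,[(1,0),(0,0),(6,0),(6,0),(15,0),(0,0),(0,1)]⟩,⟨0,[(3,0)]⟩⟩]⟩) (.R ⟨0,false,false,true,
  [0,0,1],[1,-1,1],[0,1,0,-1,0,0,0,1],(⟨0,[(22,0)]⟩,⟨0,[(21,0)]⟩),(⟨0,[(22,0),(2,0)]⟩,⟨0,[(11,0)]⟩),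
  ⟨0,[(11,0)]⟩,.k,.k,.k,.k,.k,.k,⟨true,0,⟨1,[(19,0),(0,0)]⟩,⟨0,[]⟩⟩,⟨false,0,⟨0,[(16,0),(2,0)]⟩,⟨1,
  [(24,0),(8,0)]⟩⟩,⟨true,0,⟨0,[(31,0)]⟩,⟨0,[(32,0)]⟩⟩,⟨false,0,⟨0,[(3,0),(12,0)]⟩,⟨1,[(24,0),(7,1),
  (1,0)]⟩⟩,⟨false,0,⟨0,[]⟩,⟨0,[]⟩⟩,⟨false,0,⟨0,[]⟩,⟨0,[]⟩⟩,[.o ⟨false,0,⟨0,[(4,0)]⟩,⟨3,[(2,1),(15,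
  1),(5,0),(7,1),(1,2)]⟩⟩,.o ⟨false,1,⟨1,[(4,1),(7,0),(0,0),(20,0)]⟩,⟨0,[(2,0)]⟩⟩,.o ⟨false,1,⟨1,
  [(19,1),(4,0),(8,0)]⟩,⟨0,[(5,0)]⟩⟩,.a ⟨true,0,⟨0,[(19,0)]⟩,⟨0,[(16,0)]⟩⟩ ⟨false,1,⟨9,[(4,5),(2,1),
  (0,3),(7,5),(11,1),(4,0),(0,4)]⟩,⟨0,[(0,0),(33,0)]⟩⟩ ⟨true,0,⟨0,[(4,0),(11,0)]⟩,⟨0,[(2,0),(16,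
  0)]⟩⟩]⟩))) (.Q [0,-1,0,0,1,0,1,1,0,-1,1] (.p true [0,0,1] [1] (⟨0,[(20,0)]⟩,⟨0,[(19,0)]⟩) .k 1
  (⟨0,[]⟩,⟨0,[]⟩) .k .k) (.R ⟨0,false,false,false,[0,0,1],[0,1],[1,1,1],(⟨0,[(21,0)]⟩,⟨0,[(20,0)]⟩),
  (⟨0,[(25,0)]⟩,⟨0,[(24,0)]⟩),⟨0,[(10,0)]⟩,.k,.k,.k,.k,.k,.k,⟨true,0,⟨0,[(30,0)]⟩,⟨0,[(29,0),(1,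
  0)]⟩⟩,⟨false,1,⟨3,[(8,0),(6,1),(11,0),(4,2)]⟩,⟨0,[(18,0)]⟩⟩,⟨false,0,⟨0,[(5,0),(12,0)]⟩,⟨0,[(0,0),
  (14,0)]⟩⟩,⟨true,0,⟨0,[(5,0),(25,0)]⟩,⟨0,[(3,0)]⟩⟩,⟨false,0,⟨0,[]⟩,⟨0,[]⟩⟩,⟨false,0,⟨0,[]⟩,⟨0,[]⟩⟩,
  [.a ⟨true,0,⟨0,[(31,0)]⟩,⟨0,[(1,0),(3,0)]⟩⟩ ⟨false,0,⟨0,[(35,0)]⟩,⟨1,[(32,0),(0,0)]⟩⟩ ⟨true,0,⟨0,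
  [(4,0),(26,0)]⟩,⟨0,[(2,0)]⟩⟩,.o ⟨false,1,⟨1,[(23,0),(7,1),(1,0)]⟩,⟨0,[(30,0)]⟩⟩,.o ⟨false,1,⟨1,
  [(18,1),(4,0),(8,0)]⟩,⟨0,[(4,0)]⟩⟩,.e ⟨false,0,⟨0,[]⟩,⟨1,[(11,0),(0,0),(20,0)]⟩⟩ ⟨false,1,⟨3,[(8,
  0),(6,1),(11,0),(3,3),(0,0),(0,1)]⟩,⟨0,[(2,0)]⟩⟩]⟩) (.I [1,0,2,1,-1,0,0,-1] (.K ⟨0,[1,-1,1],(-1),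
  0,(⟨0,[(22,0),(2,0)]⟩,⟨0,[(11,0)]⟩),.k,(.r (-2) ⟨1,[(7,1),(0,1),(24,0),(0,0)]⟩ ⟨0,[(0,0),(31,
  0)]⟩),.k,.k,.k,[⟨1,[(24,0),(8,0)]⟩,⟨0,[(0,0),(1,0)]⟩,⟨1,[(1,0),(16,0),(9,0),(3,1)]⟩,⟨0,[(2,0),(33,
  0)]⟩]⟩) (.R ⟨0,false,false,false,[0,0,1],[0,1],[1,1,1],(⟨0,[(22,0)]⟩,⟨0,[(21,0)]⟩),(⟨0,[(26,0)]⟩,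
  ⟨0,[(25,0)]⟩),⟨0,[(11,0)]⟩,.k,.k,.k,.k,.k,.k,⟨true,0,⟨0,[(31,0)]⟩,⟨0,[(30,0),(1,0)]⟩⟩,⟨false,1,⟨3,
  [(9,0),(6,1),(11,0),(4,2)]⟩,⟨0,[(19,0)]⟩⟩,⟨false,0,⟨0,[(6,0),(12,0)]⟩,⟨0,[(0,0),(29,0),(1,0)]⟩⟩,
  ⟨true,0,⟨0,[(6,0),(25,0)]⟩,⟨0,[(4,0)]⟩⟩,⟨false,0,⟨0,[]⟩,⟨0,[]⟩⟩,⟨false,0,⟨0,[]⟩,⟨0,[]⟩⟩,[.a ⟨true,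
  0,⟨0,[(32,0)]⟩,⟨8,[(1,3),(0,3),(0,0),(3,1),(1,0),(9,0),(14,1)]⟩⟩ ⟨false,0,⟨0,[(36,0)]⟩,⟨1,[(33,0),
  (0,0)]⟩⟩ ⟨true,0,⟨0,[(5,0),(26,0)]⟩,⟨0,[(3,0)]⟩⟩,.o ⟨false,1,⟨1,[(24,0),(7,1),(1,0)]⟩,⟨0,[(31,
  0)]⟩⟩,.o ⟨false,1,⟨1,[(19,1),(4,0),(8,0)]⟩,⟨0,[(5,0)]⟩⟩,.e ⟨false,0,⟨0,[]⟩,⟨1,[(12,0),(0,0),(20,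
  0)]⟩⟩ ⟨false,1,⟨3,[(9,0),(6,1),(11,0),(3,3),(0,0),(0,1)]⟩,⟨0,[(3,0)]⟩⟩]⟩)))) (.R ⟨0,false,false,
  false,[0,0,1],[0,1],[1,1,1],(⟨0,[(19,0)]⟩,⟨0,[(18,0)]⟩),(⟨0,[(23,0)]⟩,⟨0,[(22,0)]⟩),⟨0,[(8,0)]⟩,
  .k,.k,.k,.k,.k,.k,⟨true,0,⟨0,[(28,0)]⟩,⟨0,[(27,0),(1,0)]⟩⟩,⟨false,1,⟨3,[(6,0),(6,1),(11,0),(4,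
  2)]⟩,⟨0,[(16,0)]⟩⟩,⟨false,0,⟨0,[(3,0),(12,0)]⟩,⟨0,[(0,0),(0,0),(29,0)]⟩⟩,⟨true,0,⟨0,[(3,0),(25,
  0)]⟩,⟨0,[(1,0)]⟩⟩,⟨false,0,⟨0,[]⟩,⟨0,[]⟩⟩,⟨false,0,⟨0,[]⟩,⟨0,[]⟩⟩,[.e ⟨false,0,⟨0,[(33,0)]⟩,⟨1,
  [(30,0),(0,0)]⟩⟩ ⟨false,0,⟨0,[(0,0)]⟩,⟨3,[(4,1),(4,0),(0,0),(5,3),(13,0)]⟩⟩,.o ⟨false,1,⟨1,[(21,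
  0),(7,1),(1,0)]⟩,⟨0,[(28,0)]⟩⟩,.o ⟨false,1,⟨1,[(16,1),(4,0),(8,0)]⟩,⟨0,[(2,0)]⟩⟩,.a ⟨true,0,⟨0,
  [(16,0)]⟩,⟨0,[(13,0)]⟩⟩ ⟨false,0,⟨0,[]⟩,⟨1,[(9,0),(0,0),(20,0)]⟩⟩ ⟨true,0,⟨0,[(0,0)]⟩,⟨0,[(16,0),
  (11,0)]⟩⟩]⟩))) (.S ⟨1,0,[0,1,0,0,0,0,0,-1],[1,0,-1],[0,0,0,0,0,0,0,-1],(⟨0,[(16,0)]⟩,⟨0,[(17,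
  0)]⟩),⟨0,[(5,0)]⟩,.k,.k,⟨false,1,⟨1,[(7,0),(0,0),(20,0)]⟩,⟨0,[]⟩⟩,⟨true,0,⟨0,[(31,0)]⟩,⟨0,[]⟩⟩,
  ⟨true,0,⟨0,[(27,0)]⟩,⟨0,[(26,0)]⟩⟩,⟨false,0,⟨0,[(27,0)]⟩,⟨3,[(2,1),(11,0),(0,0),(13,1)]⟩⟩,[.o
  ⟨false,0,⟨0,[(13,0)]⟩,⟨0,[(0,2),(2,0),(7,1),(11,0),(1,1)]⟩⟩,.o ⟨false,0,⟨0,[(1,0)]⟩,⟨1,[(12,1),(6,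
  0),(9,0)]⟩⟩,.a ⟨true,0,⟨1,[(4,0),(6,0),(2,0)]⟩,⟨0,[(0,0)]⟩⟩ ⟨true,0,⟨0,[(0,0),(0,0)]⟩,⟨0,[(3,
  0)]⟩⟩ ⟨false,0,⟨0,[(0,0),(0,0)]⟩,⟨0,[(3,0),(25,0)]⟩⟩,.o ⟨false,0,⟨0,[(15,0)]⟩,⟨1,[(0,1),(18,0),(8,
  0)]⟩⟩]⟩)))) (.Q [0,1,0,-1,0,0,-1,-1,0,0,-1] (.p false [0,0,1] [] (⟨0,[(14,0)]⟩,⟨0,[(13,0)]⟩) .k 0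
  (⟨0,[]⟩,⟨0,[]⟩) .k .k) (.K ⟨0,[0,1,1],0,0,(⟨0,[(15,0),(3,0)]⟩,⟨0,[(3,0)]⟩),.k,.k,(.r 0 ⟨0,[(10,0),
  (2,0),(9,0),(1,1)]⟩ ⟨0,[(1,3),(7,2),(0,2),(10,0),(1,0),(0,1)]⟩),.k,.k,[⟨1,[(12,0),(0,0)]⟩,⟨0,[(1,
  0),(8,0)]⟩,⟨0,[(0,0)]⟩,⟨0,[(10,0),(14,0)]⟩]⟩) (.R ⟨0,false,false,false,[0,1,-1],[0,1],[1],(⟨0,[(4,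
  0)]⟩,⟨0,[(15,0),(2,0)]⟩),(⟨0,[(19,0)]⟩,⟨0,[(18,0)]⟩),⟨0,[(15,0)]⟩,.k,.k,.k,.k,.k,.k,⟨false,1,⟨7,
  [(0,5),(0,5),(7,5),(11,1),(2,13),(1,4),(0,0)]⟩,⟨1,[(12,0),(0,0),(11,1)]⟩⟩,⟨true,0,⟨0,[(1,0),(8,
  0)]⟩,⟨0,[(13,0)]⟩⟩,⟨false,1,⟨1,[(0,2),(0,0),(7,2),(11,0),(1,0),(0,4),(2,0)]⟩,⟨3,[(1,1),(9,1),(0,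
  2),(0,0),(11,3)]⟩⟩,⟨true,0,⟨0,[(0,0),(23,0)]⟩,⟨0,[(11,0)]⟩⟩,⟨false,0,⟨0,[]⟩,⟨0,[]⟩⟩,⟨false,0,⟨0,
  []⟩,⟨0,[]⟩⟩,[.a ⟨true,0,⟨0,[(25,0)]⟩,⟨1,[(0,0),(0,0),(7,1),(2,0),(10,0),(0,2)]⟩⟩ ⟨true,0,⟨0,[]⟩,
  ⟨1,[(12,0),(0,0)]⟩⟩ ⟨false,0,⟨1,[(0,0),(0,0),(10,0),(9,0),(2,0)]⟩,⟨3,[(2,0),(6,1),(11,0),(2,3),(1,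
  0),(0,1)]⟩⟩,.o ⟨false,1,⟨1,[(17,0),(7,1),(1,0)]⟩,⟨0,[(24,0)]⟩⟩,.o ⟨false,1,⟨1,[(2,0),(18,0),(4,
  0)]⟩,⟨0,[(12,0)]⟩⟩,.o ⟨false,1,⟨3,[(2,1),(2,0),(0,0),(10,2)]⟩,⟨0,[(1,0),(8,0)]⟩⟩]⟩)))

theorem ok0 : chk K t0 base = true := by decide +kernel

theorem closed {p a b c J l q : ℤ} {D dl : ℝ} {Cl : ℤ → ℤ → ℤ → ℤ → ℝ → Prop}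
    (W : World p a b c J 1 l q D dl Cl) (g : G0 p a b c J D)
    {N X R : ℤ} {I : ℝ} (hk : KCl p l Cl N X R I) (kz : KF a b D (X + (1 : ℤ) * I) (X + (1 : ℤ) * I + R) I)
    {Ne Xe : ℤ} {Ie : ℝ} (he : EFac p 1 D Cl 1 Ne Xe Ie)
    (hkf : ∀ kf ∈ (kfY 1 [0,0,0,0,0,0,1,0,0,0,1]), KOk p l Cl 1
      (xv [1, a, b, c, p, J, X, R, Xe] [D, I, Ie]) N kf)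
    (h0 : 1 ≤ (c : ℝ))
    (h1 : 1 ≤ 1 - (a : ℝ) + (b : ℝ))
    (h2 : 1 ≤ 2 * (a : ℝ) - (b : ℝ))
    (h3 : 0 < 1 + (p : ℝ) - 3 * D)
    (h4 : 1 ≤ 2 * (a : ℝ) - (b : ℝ))
    (h5 : 1 ≤ 2 - (J : ℝ))
    (h6 : 0 < -(b : ℝ) - (X : ℝ) + D - I)
    (h7 : 0 < (J : ℝ) - I)
    (h8 : 0 < -(J : ℝ) + D - I)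
    (h9 : 0 < -2 * (X : ℝ) + D - 2 * I) : False := by
  have g1 := g.a2
  have g2 := g.b2
  have g3 := g.pa
  have g4 := g.pb
  have g5 := g.J1
  have g6 := g.JD
  have g7 := g.D2
  have g8 := g.ca
  have g9 := g.ca'
  have k1 := kz.I0
  have k2 := kz.ID
  have k3 := kz.z1
  have k4 := kz.z2
  have k5 := kz.s1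
  have k6 := kz.s2
  have e1 := he.I0
  have e2 := he.ID
  have e3 := he.x0
  have e4 := he.xp
  push_cast at *
  refine (val_E W.toBase hk he (row := [1]) (by simp) (by simp) (kfY 1 [0,0,0,0,0,0,1,0,0,0,1])).sound W rfl (Nk := N)
    (fun kf _ _ => ⟨_, rfl⟩) hkf ?_ ok0
  · simp only [base, List.forall_mem_cons, List.not_mem_nil, false_imp_iff, implies_true,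
      and_true, hld, xv, evg_cons, evg_nil, List.map_cons, List.map_nil, List.cons_append,
      List.nil_append, if_true, if_false, Bool.false_eq_true]
    push_cast
    refine ⟨?_, ?_, ?_, ?_, ?_, ?_, ?_, ?_, ?_, ?_, ?_, ?_, ?_, ?_, ?_, ?_, ?_, ?_, ?_, ?_, ?_, ?_, ?_, ?_, ?_, ?_, ?_, ?_⟩ <;> linarith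

end Helper48.Y.Y11_c35_P1_m0n1
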