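import Pool.Agent.Helper25.KG.S1b
import Pool.Agent.Helper11.CT.Clo

set_option autoImplicit false
set_option linter.all false

namespace Helper48.Y.Y11_c2_P2_m0n1

open Helper25.KG Helper25.KW Helper55.KE Helper11.CT

noncomputable def K : Cls :=
  cE 1 [1] (kfY 1 [0,0,0,0,0,0,1,0,0,0,1])

noncomputable def base : List Con :=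
  [(false,[0,0,0,0,0,0,-2,0,0,1,-2]),
  (false,[0,0,0,0,0,-1,0,0,0,1,-1]),
  (false,[0,0,0,0,0,1,0,0,0,0,-1]),
  (false,[0,0,0,0,1,0,0,0,-1,0,0,-1]),
  (false,[0,0,0,0,0,0,0,0,1,0,0,1]),
  (false,[0,0,0,0,0,0,0,0,0,1,0,-1]),
  (false,[0,0,0,0,0,0,0,0,0,0,0,1]),
  (false,[0,0,-1,0,0,0,-1,0,0,1,-1]),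
  (false,[0,1,0,0,0,0,1,1,0,0,1]),
  (false,[0,1,0,0,0,0,-1,-1,0,0,-1]),
  (false,[0,0,1,0,0,0,1,0,0,0,1]),
  (false,[0,0,1,0,0,0,-1,0,0,0,-1]),
  (false,[0,0,0,0,0,0,0,0,0,1,-1]),
  (false,[0,0,0,0,0,0,0,0,0,0,1]),
  (true,[3,0,0,0,0,-1]),
  (true,[-1,0,0,0,0,1]),
  (false,[0,0,0,0,1,0,0,0,0,-2]),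
  (false,[0,0,0,0,0,-1,0,0,0,1]),
  (true,[0,0,0,0,0,1]),
  (true,[0,2,-1]),
  (false,[1,0,0,0,2,0,0,0,0,-5]),
  (true,[1,-1,1,1]),
  (true,[0,1,-1]),
  (true,[0,1,0,-1]),
  (true,[0,0,0,1]),
  (true,[0,0,-2,0,1]),
  (true,[0,-2,0,0,1]),
  (true,[-1,0,1]),
  (true,[-1,1])]

noncomputable def l0 : List Con := (true, [1,-1,0,0,0,0,0,-1]) :: base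

noncomputable def r0 : List Con := (true, [0,1,0,0,0,0,0,1]) :: base

noncomputable def l1 : List Con := (true, [1,0,0,1,-1,0,0,1]) :: r0

noncomputable def r1 : List Con := (true, [0,0,0,-1,1,0,0,-1]) :: r0

noncomputable def l2 : List Con := (false, [0,0,0,0,0,0,-1,0,0,0,-1]) :: r1

noncomputable def r2 : List Con := (false, [0,0,0,0,0,0,1,0,0,0,1]) :: r1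

noncomputable def l3 : List Con := (false, [0,0,0,0,0,0,1,1,0,0,1]) :: l2

noncomputable def r3 : List Con := (false, [0,0,0,0,0,0,-1,-1,0,0,-1]) :: l2

noncomputable def t0 : Tre :=
  (.I [0,0,1,1,-1,0,0,-1] (.R ⟨2,true,false,true,[0,1],[0,0,1],[1,1,0,0,0,0,0,1],(⟨0,[]⟩,⟨0,[]⟩),
  (⟨0,[(15,0)]⟩,⟨0,[(14,0)]⟩),⟨0,[]⟩,.k,.k,.k,.k,.k,.k,⟨true,0,⟨0,[]⟩,⟨1,[(12,0),(0,0)]⟩⟩,⟨false,0,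
  ⟨0,[(1,0),(8,0)]⟩,⟨9,[(2,4),(2,2),(0,2),(15,0),(4,4)]⟩⟩,⟨true,1,⟨5,[(2,0),(6,3),(0,5),(11,0),(2,
  5),(1,0),(0,2)]⟩,⟨0,[(0,0)]⟩⟩,⟨false,1,⟨0,[(10,0),(14,0),(2,0)]⟩,⟨5,[(0,5),(1,0),(6,3),(12,0),(4,
  0),(0,2)]⟩⟩,⟨false,1,⟨5,[(2,0),(6,3),(0,5),(11,0),(4,0),(0,2)]⟩,⟨1,[(1,1),(10,0),(0,0)]⟩⟩,⟨true,0,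
  ⟨0,[(10,0)]⟩,⟨11,[(0,1),(0,5),(0,2),(6,1),(1,3),(10,0),(2,1)]⟩⟩,[]⟩) (.K ⟨0,[0,1,1],0,0,(⟨0,[(15,
  0),(4,0)]⟩,⟨0,[(3,0)]⟩),.k,.k,(.r 0 ⟨0,[(10,0),(2,0),(9,0),(2,0)]⟩ ⟨0,[(0,0),(0,1),(22,0),(0,
  0)]⟩),.k,.k,[⟨1,[(12,0),(0,0)]⟩,⟨0,[(1,0),(8,0)]⟩,⟨0,[(1,0),(11,0),(10,0),(0,0)]⟩,⟨0,[(10,0),(15,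
  0)]⟩]⟩))

theorem ok0 : chk K t0 l0 = true := by decide +kernel

noncomputable def t1 : Tre :=
  (.R ⟨2,true,false,false,[0,1],[0,1,1],[1,0,1,1,0,0,0,1],(⟨0,[]⟩,⟨0,[]⟩),(⟨0,[(15,0),(4,0)]⟩,⟨0,
  [(3,0)]⟩),⟨0,[]⟩,.k,.k,.k,.k,.k,.k,⟨true,0,⟨0,[]⟩,⟨1,[(12,0),(0,0)]⟩⟩,⟨false,1,⟨0,[(12,0),(14,
  0)]⟩,⟨0,[(0,0),(10,0),(13,0),(2,0)]⟩⟩,⟨false,0,⟨0,[(0,0),(24,0),(2,0)]⟩,⟨1,[(11,1),(0,1),(14,0),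
  (0,0)]⟩⟩,⟨true,0,⟨1,[(0,1),(11,1),(12,1),(1,0),(0,0)]⟩,⟨0,[(11,0)]⟩⟩,⟨true,(-1),⟨0,[(0,0)]⟩,⟨1,
  [(11,1),(0,1),(12,1),(1,0),(0,0)]⟩⟩,⟨false,0,⟨1,[(0,1),(11,1),(14,0),(0,0)]⟩,⟨0,[(11,0),(13,0),(2,
  0)]⟩⟩,[]⟩)

theorem ok1 : chk K t1 l1 = true := by decide +kernel

noncomputable def t2 : Tre :=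
  (.Q [0,0,0,1,0,0,-1,-1,0,0,-1] (.p false [0,0,1] [] (⟨0,[(17,0)]⟩,⟨0,[(16,0)]⟩) .k 0 (⟨0,[]⟩,⟨0,
  []⟩) .k .k) (.I [1,1,0,0,0,0,0,-1] (.R ⟨2,true,false,false,[0,1],[0,0,1],[1,1,1],(⟨0,[]⟩,⟨0,[]⟩),
  (⟨0,[(19,0)]⟩,⟨0,[(18,0)]⟩),⟨0,[]⟩,.k,.k,.k,.k,.k,.k,⟨false,0,⟨0,[(0,0)]⟩,⟨11,[(2,9),(2,1),(7,9),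
  (12,1),(4,0),(0,6)]⟩⟩,⟨true,0,⟨0,[(16,0)]⟩,⟨0,[(3,0)]⟩⟩,⟨true,0,⟨0,[(29,0)]⟩,⟨0,[(30,0)]⟩⟩,⟨false,
  1,⟨0,[(2,0),(26,0),(2,0)]⟩,⟨0,[(1,0)]⟩⟩,⟨false,0,⟨0,[]⟩,⟨1,[(9,0),(0,0),(21,0)]⟩⟩,⟨true,0,⟨0,[(2,
  0)]⟩,⟨0,[(15,0)]⟩⟩,[]⟩) (.R ⟨2,true,false,false,[0,1],[0,0,1],[0,1,1,1],(⟨0,[]⟩,⟨0,[]⟩),(⟨0,[(19,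
  0)]⟩,⟨0,[(18,0)]⟩),⟨0,[]⟩,.k,.k,.k,.k,.k,.k,⟨false,0,⟨0,[(1,0),(14,0),(11,0)]⟩,⟨1,[(0,1),(28,1),
  (1,0),(0,0)]⟩⟩,⟨true,0,⟨0,[(16,0)]⟩,⟨0,[(3,0)]⟩⟩,⟨true,0,⟨0,[(34,0)]⟩,⟨0,[]⟩⟩,⟨false,1,⟨0,[(2,0),
  (26,0),(2,0)]⟩,⟨0,[(1,0)]⟩⟩,⟨false,0,⟨0,[(30,0)]⟩,⟨0,[(29,0),(2,0)]⟩⟩,⟨true,0,⟨0,[(2,0)]⟩,⟨0,[(15,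
  0)]⟩⟩,[]⟩)) (.I [0,0,-1,-1,0,0,0,1] (.Q [0,0,0,-1,0,0,0,0,0,1] (.pp false [-1,1]) (.Q [0,-1,0,1,1,
  0,-1,-1,0,-1,-1] (.p false [1,-1,1] [] (⟨0,[(20,0),(3,0)]⟩,⟨0,[(9,0)]⟩) .k 0 (⟨0,[]⟩,⟨0,[]⟩) .k
  .k) (.R ⟨0,false,false,true,[0,0,1],[1,-1,1],[1,0,0,0,0,0,0,1],(⟨0,[(21,0)]⟩,⟨0,[(20,0)]⟩),(⟨0,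
  [(21,0),(3,0)]⟩,⟨0,[(10,0)]⟩),⟨0,[(10,0)]⟩,.k,.k,.k,.k,.k,.k,⟨true,0,⟨0,[(29,0)]⟩,⟨0,[(31,0)]⟩⟩,
  ⟨false,0,⟨0,[(1,0),(30,0)]⟩,⟨9,[(11,0),(0,0),(15,1),(4,4)]⟩⟩,⟨true,0,⟨0,[]⟩,⟨0,[(36,0)]⟩⟩,⟨false,
  0,⟨0,[(1,0)]⟩,⟨5,[(0,0),(15,0),(11,0),(3,4),(1,2)]⟩⟩,⟨false,0,⟨0,[]⟩,⟨0,[]⟩⟩,⟨false,0,⟨0,[]⟩,⟨0,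
  []⟩⟩,[.o ⟨false,0,⟨1,[(3,0),(12,0),(14,0)]⟩,⟨0,[(0,0)]⟩⟩,.o ⟨false,0,⟨0,[(3,0)]⟩,⟨0,[(0,0),(35,
  0)]⟩⟩,.o ⟨false,1,⟨31,[(0,1),(5,1),(9,3),(1,29),(9,5),(4,14),(0,0)]⟩,⟨0,[(5,0)]⟩⟩,.a ⟨true,0,⟨0,
  [(18,0)]⟩,⟨0,[(15,0)]⟩⟩ ⟨true,0,⟨0,[(2,0),(29,0)]⟩,⟨0,[(17,0),(0,0)]⟩⟩ ⟨false,0,⟨1,[(1,0),(0,0),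
  (1,0),(10,0)]⟩,⟨0,[(0,0),(17,0)]⟩⟩]⟩) (.Q [0,1,-1,-1,-1,0,0,1,0,1] (.pp false [-1,1]) (.R ⟨0,
  false,false,true,[0,0,1],[1,-1,1],[1,1,1],(⟨0,[(22,0)]⟩,⟨0,[(21,0)]⟩),(⟨0,[(22,0),(3,0)]⟩,⟨0,[(11,
  0)]⟩),⟨0,[(11,0)]⟩,.k,.k,.k,.k,.k,.k,⟨true,0,⟨0,[(18,0),(0,0),(10,0)]⟩,⟨0,[(3,0)]⟩⟩,⟨false,0,⟨0,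
  [(2,0),(30,0)]⟩,⟨9,[(12,0),(0,0),(15,1),(4,4)]⟩⟩,⟨true,0,⟨0,[(18,0),(0,0)]⟩,⟨0,[(3,0),(29,0)]⟩⟩,
  ⟨false,0,⟨0,[(2,0)]⟩,⟨9,[(12,0),(0,0),(15,1),(3,9),(1,4)]⟩⟩,⟨false,0,⟨0,[]⟩,⟨0,[]⟩⟩,⟨false,0,⟨0,
  []⟩,⟨0,[]⟩⟩,[.e ⟨false,0,⟨0,[(37,0)]⟩,⟨1,[(34,0),(0,0)]⟩⟩ ⟨false,(-1),⟨0,[(0,0)]⟩,⟨9,[(7,9),(4,0),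
  (0,0),(15,1),(3,19),(1,4)]⟩⟩,.o ⟨false,0,⟨0,[(4,0)]⟩,⟨13,[(7,1),(1,0),(8,11),(10,2),(3,15),(1,
  5)]⟩⟩,.o ⟨false,1,⟨19,[(7,1),(9,1),(1,17),(9,3),(3,1),(0,8),(0,0)]⟩,⟨0,[(6,0)]⟩⟩,.a ⟨true,0,⟨0,
  [(19,0)]⟩,⟨0,[(16,0)]⟩⟩ ⟨false,0,⟨0,[]⟩,⟨1,[(12,0),(0,0),(21,0)]⟩⟩ ⟨true,(-1),⟨0,[(0,0)]⟩,⟨4,[(7,
  2),(10,1),(0,1),(9,0),(0,2),(2,4),(3,0)]⟩⟩]⟩) (.R ⟨0,false,false,true,[0,0,1],[1,-1,1],[1,1,1],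
  (⟨0,[(22,0)]⟩,⟨0,[(21,0)]⟩),(⟨0,[(22,0),(3,0)]⟩,⟨0,[(11,0)]⟩),⟨0,[(11,0)]⟩,.k,.k,.k,.k,.k,.k,
  ⟨true,0,⟨0,[(18,0),(0,0),(10,0)]⟩,⟨0,[(3,0)]⟩⟩,⟨false,0,⟨0,[(2,0),(30,0)]⟩,⟨51,[(0,1),(6,1),(0,3),
  (20,9),(4,26),(0,0)]⟩⟩,⟨true,0,⟨0,[(18,0),(0,0)]⟩,⟨0,[(3,0),(29,0)]⟩⟩,⟨false,0,⟨0,[(2,0)]⟩,⟨21,
  [(0,1),(7,1),(20,3),(3,19),(0,0),(0,10)]⟩⟩,⟨false,0,⟨0,[]⟩,⟨0,[]⟩⟩,⟨false,0,⟨0,[]⟩,⟨0,[]⟩⟩,[.a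
  ⟨true,(-1),⟨0,[(1,0)]⟩,⟨0,[(0,0),(15,0)]⟩⟩ ⟨false,0,⟨0,[(37,0)]⟩,⟨1,[(34,0),(0,0)]⟩⟩ ⟨true,(-1),
  ⟨0,[(1,0),(4,0)]⟩,⟨0,[(0,0)]⟩⟩,.o ⟨false,0,⟨0,[(4,0)]⟩,⟨5,[(0,2),(8,0),(6,0),(1,2),(10,0),(3,2),
  (0,0)]⟩⟩,.o ⟨false,1,⟨10,[(0,0),(4,0),(1,0),(9,0),(1,8),(9,1),(4,4)]⟩,⟨0,[(6,0)]⟩⟩,.e ⟨false,0,⟨0,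
  []⟩,⟨1,[(12,0),(0,0),(21,0)]⟩⟩ ⟨false,0,⟨1,[(2,0),(0,0),(1,0),(10,0)]⟩,⟨0,[(0,0)]⟩⟩]⟩))) (.I [0,
  -1,1,1] (.R ⟨0,false,false,false,[0,0,1],[0,1],[1,1,1],(⟨0,[(21,0)]⟩,⟨0,[(20,0)]⟩),(⟨0,[(26,0)]⟩,
  ⟨0,[(25,0)]⟩),⟨0,[(10,0)]⟩,.k,.k,.k,.k,.k,.k,⟨true,0,⟨0,[(31,0)]⟩,⟨0,[(0,0)]⟩⟩,⟨false,1,⟨5,[(8,0),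
  (6,3),(12,0),(4,3)]⟩,⟨0,[(18,0)]⟩⟩,⟨true,0,⟨0,[(17,0),(0,0)]⟩,⟨1,[(1,0),(0,0),(1,0),(10,0)]⟩⟩,
  ⟨false,1,⟨0,[(17,0),(14,0),(1,0)]⟩,⟨0,[(3,0)]⟩⟩,⟨false,0,⟨0,[]⟩,⟨0,[]⟩⟩,⟨false,0,⟨0,[]⟩,⟨0,[]⟩⟩,
  [.o ⟨false,0,⟨0,[(1,0)]⟩,⟨7,[(2,0),(0,0),(2,5),(0,3),(11,0),(14,1)]⟩⟩,.o ⟨false,1,⟨9,[(11,0),(0,
  0),(15,1),(3,9),(1,4)]⟩,⟨0,[(31,0)]⟩⟩,.o ⟨false,1,⟨19,[(6,1),(9,1),(1,17),(9,3),(3,1),(0,8),(0,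
  0)]⟩,⟨0,[(5,0)]⟩⟩,.a ⟨true,0,⟨0,[(18,0)]⟩,⟨0,[(15,0)]⟩⟩ ⟨false,0,⟨0,[]⟩,⟨1,[(11,0),(0,0),(21,
  0)]⟩⟩ ⟨true,0,⟨0,[(1,0),(13,0)]⟩,⟨0,[(18,0),(12,0)]⟩⟩]⟩) (.Q [0,1,0,-1,0,0,-1,-1,0,1,-1] (.p
  false [0,0,1] [1] (⟨0,[(21,0)]⟩,⟨0,[(20,0)]⟩) .k 1 (⟨0,[]⟩,⟨0,[]⟩) .k .k) (.R ⟨0,false,false,true,
  [0,0,1],[1,-1],[0,1,0,-1],(⟨0,[(22,0)]⟩,⟨0,[(21,0)]⟩),(⟨0,[(26,0)]⟩,⟨0,[(27,0)]⟩),⟨0,[(11,0)]⟩,.k,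
  .k,.k,.k,.k,.k,⟨true,0,⟨1,[(19,0),(0,0)]⟩,⟨0,[]⟩⟩,⟨false,0,⟨1,[(9,0),(11,0),(0,0)]⟩,⟨1,[(1,1),(0,
  1),(16,1),(14,0),(0,0)]⟩⟩,⟨false,1,⟨0,[(7,0)]⟩,⟨1,[(2,0),(0,0),(1,0),(10,0),(13,1)]⟩⟩,⟨true,0,⟨0,
  [(0,0)]⟩,⟨0,[(2,0),(2,0)]⟩⟩,⟨false,0,⟨0,[]⟩,⟨0,[]⟩⟩,⟨false,0,⟨0,[]⟩,⟨0,[]⟩⟩,[.o ⟨false,0,⟨0,[(32,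
  0)]⟩,⟨9,[(12,0),(0,0),(15,1),(3,9),(1,4)]⟩⟩,.o ⟨false,1,⟨7,[(3,0),(0,0),(2,5),(0,3),(11,0),(14,
  1)]⟩,⟨0,[(2,0)]⟩⟩,.o ⟨false,1,⟨19,[(7,1),(9,1),(1,17),(9,3),(3,1),(0,8),(0,0)]⟩,⟨0,[(6,0)]⟩⟩,.a
  ⟨true,0,⟨0,[(19,0)]⟩,⟨0,[(16,0)]⟩⟩ ⟨false,1,⟨9,[(3,3),(3,5),(0,1),(25,2),(0,0)]⟩,⟨0,[(30,0)]⟩⟩
  ⟨true,0,⟨6,[(0,3),(2,2),(4,0),(7,2),(11,0)]⟩,⟨0,[(2,0),(16,0)]⟩⟩]⟩) (.I [1,0,1,1,-1,0,0,1] (.R ⟨0,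
  false,false,true,[0,0,1],[1,0,-1],[],(⟨0,[(23,0)]⟩,⟨0,[(22,0)]⟩),(⟨0,[(22,0)]⟩,⟨0,[(23,0)]⟩),⟨0,
  [(12,0)]⟩,.k,.k,.k,.k,.k,.k,⟨true,0,⟨1,[(0,0),(3,0),(31,0)]⟩,⟨0,[(19,0),(0,0)]⟩⟩,⟨false,0,⟨0,[(7,
  0),(9,0)]⟩,⟨0,[(1,0),(6,0),(11,0),(11,0)]⟩⟩,⟨true,1,⟨0,[(8,0),(25,0)]⟩,⟨0,[(0,0),(1,0)]⟩⟩,⟨false,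
  1,⟨0,[(8,0),(8,0),(1,0),(11,0)]⟩,⟨0,[(1,0),(3,0)]⟩⟩,⟨false,0,⟨0,[]⟩,⟨0,[]⟩⟩,⟨false,0,⟨0,[]⟩,⟨0,
  []⟩⟩,[.o ⟨false,0,⟨0,[(19,0)]⟩,⟨4,[(6,3),(11,0),(11,0),(5,2)]⟩⟩,.o ⟨false,1,⟨13,[(8,9),(1,4),(8,
  3),(10,0),(3,9),(1,1)]⟩,⟨20,[(0,3),(0,10),(0,7),(2,4),(12,0),(1,3),(9,1),(2,1)]⟩⟩,.o ⟨false,1,⟨19,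
  [(8,1),(9,1),(1,17),(9,3),(3,1),(0,8),(0,0)]⟩,⟨0,[(7,0)]⟩⟩,.a ⟨true,0,⟨0,[(20,0)]⟩,⟨0,[(17,0)]⟩⟩
  ⟨false,1,⟨1,[(35,0),(0,0)]⟩,⟨1,[(20,0),(0,0)]⟩⟩ ⟨true,0,⟨0,[(17,0),(1,0)]⟩,⟨20,[(0,3),(0,10),(0,
  7),(2,4),(12,0),(1,24),(9,1),(2,1)]⟩⟩]⟩) (.Q [0,0,-1,0,0,0,-2,0,0,0,-2] (.p false [0,0,1] [0,1,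
  -1] (⟨0,[(23,0)]⟩,⟨0,[(22,0)]⟩) .k 2 (⟨0,[(12,0)]⟩,⟨0,[(23,0),(3,0)]⟩) .k (.x (-1) ⟨12,[(0,7),(0,
  7),(9,12),(0,12),(7,17),(8,3),(0,0),(4,2)]⟩ ⟨0,[(7,1),(15,1)]⟩)) (.I [1,0,0,0,1,0,0,-2] (.R ⟨0,
  false,false,false,[0,0,1],[0,1,-1],[1,0,0,0,0,0,0,1],(⟨0,[(25,0)]⟩,⟨0,[(24,0)]⟩),(⟨0,[(14,0)]⟩,⟨0,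
  [(25,0),(3,0)]⟩),⟨0,[(14,0)]⟩,.k,.k,.k,(.r 0 ⟨4,[(3,0),(2,5),(1,1),(2,0),(0,0),(10,0)]⟩ ⟨0,[(0,0),
  (32,0),(6,0)]⟩),.k,.k,⟨false,0,⟨6,[(3,2),(2,9),(4,0),(7,2),(11,0)]⟩,⟨0,[(0,0),(32,0),(6,0)]⟩⟩,
  ⟨true,0,⟨0,[(1,0)]⟩,⟨0,[(22,1)]⟩⟩,⟨true,0,⟨0,[]⟩,⟨0,[(40,0)]⟩⟩,⟨false,1,⟨0,[(0,0),(0,0),(31,0)]⟩,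
  ⟨0,[(7,0),(0,0)]⟩⟩,⟨false,0,⟨0,[]⟩,⟨0,[]⟩⟩,⟨false,0,⟨0,[]⟩,⟨0,[]⟩⟩,[.o ⟨false,1,⟨3,[(0,1),(4,0),
  (6,1),(19,0),(3,2)]⟩,⟨0,[(7,0)]⟩⟩,.o ⟨false,1,⟨7,[(0,3),(0,3),(3,2),(26,0),(0,3),(2,0),(1,1)]⟩,⟨1,
  [(7,0),(12,0),(14,0)]⟩⟩,.o ⟨false,1,⟨10,[(0,4),(2,0),(4,6),(1,0),(9,2),(11,1),(5,0)]⟩,⟨0,[(9,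
  0)]⟩⟩,.a ⟨true,0,⟨0,[(22,0)]⟩,⟨0,[(19,0)]⟩⟩ ⟨true,0,⟨6,[(3,2),(2,2),(4,0),(7,2),(11,0)]⟩,⟨0,[(21,
  0),(0,0)]⟩⟩ ⟨false,1,⟨1,[(0,0),(0,1),(34,1),(1,0)]⟩,⟨0,[(7,0),(14,0)]⟩⟩]⟩) (.R ⟨0,false,false,
  true,[0,0,1],[1,0,-1],[1,1,0,0,0,0,0,-1],(⟨0,[(25,0)]⟩,⟨0,[(24,0)]⟩),(⟨0,[(24,0)]⟩,⟨0,[(25,0)]⟩),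
  ⟨0,[(14,0)]⟩,.k,.k,.k,.k,.k,.k,⟨true,0,⟨0,[]⟩,⟨1,[(22,0),(0,0)]⟩⟩,⟨false,0,⟨2,[(1,0),(10,0),(6,
  1)]⟩,⟨12,[(2,7),(0,7),(18,17),(8,3),(0,0),(4,2)]⟩⟩,⟨true,1,⟨0,[(2,0),(18,0),(0,0),(13,0)]⟩,⟨0,[(0,
  0)]⟩⟩,⟨false,1,⟨0,[(10,0),(8,0),(1,0),(11,0)]⟩,⟨0,[(3,0),(3,0)]⟩⟩,⟨false,0,⟨0,[]⟩,⟨0,[]⟩⟩,⟨false,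
  0,⟨0,[]⟩,⟨0,[]⟩⟩,[.o ⟨false,0,⟨0,[(21,0)]⟩,⟨4,[(8,3),(11,0),(11,0),(5,2)]⟩⟩,.o ⟨false,1,⟨13,[(10,
  9),(1,4),(8,3),(10,0),(3,9),(1,1)]⟩,⟨18,[(0,3),(2,8),(0,7),(2,0),(12,0),(1,7),(9,1)]⟩⟩,.o ⟨false,
  1,⟨19,[(10,1),(9,1),(1,17),(9,3),(3,1),(0,8),(0,0)]⟩,⟨0,[(9,0)]⟩⟩,.a ⟨true,0,⟨0,[(22,0)]⟩,⟨0,[(19,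
  0)]⟩⟩ ⟨false,1,⟨0,[(2,0),(33,0)]⟩,⟨1,[(0,0),(21,0),(0,0),(14,0)]⟩⟩ ⟨true,0,⟨0,[(19,0),(1,0)]⟩,⟨18,
  [(0,3),(2,8),(0,7),(2,0),(12,0),(1,26),(9,1)]⟩⟩]⟩)) (.K ⟨0,[0,1,-1],0,0,(⟨0,[(13,0)]⟩,⟨0,[(24,0),
  (3,0)]⟩),.k,.k,(.r 0 ⟨1,[(0,0),(19,1),(11,2),(2,0),(3,0)]⟩ ⟨9,[(5,13),(3,5),(0,1),(25,2),(0,0)]⟩),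
  (.r (-1) ⟨1,[(0,0),(0,0),(7,0),(10,1),(11,1),(2,1)]⟩ ⟨4,[(2,0),(2,5),(1,1),(2,0),(0,0),(10,0)]⟩),
  .k,[⟨0,[(0,0)]⟩,⟨0,[(8,0)]⟩,⟨1,[(6,0),(12,0),(14,0)]⟩,⟨0,[(20,0),(14,0)]⟩]⟩)))))) (.Q [0,0,0,0,0,
  0,0,-1,0,1] (.pp false [-1,1]) (.Q [0,-1,-1,0,1,0,-2,-1,0,0,-2] (.p false [0,0,1] [0,1,-1] (⟨0,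
  [(20,0)]⟩,⟨0,[(19,0)]⟩) .k 2 (⟨0,[(9,0)]⟩,⟨0,[(20,0),(3,0)]⟩) .k (.r 0 ⟨0,[(3,1),(0,1)]⟩ ⟨6,[(0,
  9),(0,1),(3,1),(21,1),(4,0)]⟩)) (.Q [0,-1,0,1,1,0,-1,-1,0,-1,-1] (.p false [1,-1,1] [] (⟨0,[(21,
  0),(3,0)]⟩,⟨0,[(10,0)]⟩) .k 0 (⟨0,[]⟩,⟨0,[]⟩) .k .k) (.R ⟨0,false,false,true,[0,0,1],[1,-1,1],[0,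
  1,0,-1,0,0,0,1],(⟨0,[(22,0)]⟩,⟨0,[(21,0)]⟩),(⟨0,[(22,0),(3,0)]⟩,⟨0,[(11,0)]⟩),⟨0,[(11,0)]⟩,.k,.k,
  .k,.k,.k,.k,⟨true,0,⟨1,[(19,0),(0,0)]⟩,⟨0,[]⟩⟩,⟨false,0,⟨2,[(2,1),(2,1),(3,0)]⟩,⟨9,[(12,0),(0,0),
  (15,1),(4,4)]⟩⟩,⟨true,0,⟨0,[(32,0)]⟩,⟨0,[(33,0)]⟩⟩,⟨false,0,⟨0,[(2,0),(1,0),(1,0)]⟩,⟨5,[(0,0),(16,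
  0),(11,0),(3,4),(1,2)]⟩⟩,⟨false,0,⟨0,[]⟩,⟨0,[]⟩⟩,⟨false,0,⟨0,[]⟩,⟨0,[]⟩⟩,[.o ⟨false,0,⟨1,[(4,0),
  (12,0),(14,0)]⟩,⟨0,[(0,0)]⟩⟩,.o ⟨false,0,⟨0,[(4,0)]⟩,⟨36,[(0,31),(2,7),(3,2),(0,5),(11,4),(7,12),
  (0,0)]⟩⟩,.o ⟨false,1,⟨14,[(3,0),(3,0),(9,1),(1,12),(9,2),(4,6),(0,0)]⟩,⟨0,[(6,0)]⟩⟩,.a ⟨true,0,⟨0,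
  [(19,0)]⟩,⟨0,[(16,0)]⟩⟩ ⟨true,0,⟨0,[(4,0),(1,0),(24,0)]⟩,⟨0,[(3,0)]⟩⟩ ⟨false,0,⟨0,[(4,0),(11,0)]⟩,
  ⟨10,[(0,0),(2,9),(3,0),(9,0),(11,1),(0,0),(4,4)]⟩⟩]⟩) (.Q [0,0,-1,0,1,0,1,0,0,-1,1] (.p true [0,0,
  1] [1] (⟨0,[(22,0)]⟩,⟨0,[(21,0)]⟩) .k 1 (⟨0,[]⟩,⟨0,[]⟩) .k .k) (.I [1,1,-2,-1,0,0,0,1] (.Q [0,0,1,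
  0,0,0,2,0,0,0,2] (.p true [0,0,1] [0,1,-1] (⟨0,[(24,0)]⟩,⟨0,[(23,0)]⟩) .k 2 (⟨0,[(13,0)]⟩,⟨0,[(24,
  0),(3,0)]⟩) .k (.r 0 ⟨0,[(0,0),(6,0),(14,0),(9,0)]⟩ ⟨6,[(4,9),(0,1),(3,1),(21,1),(4,0)]⟩)) (.K ⟨0,
  [0,1,-1],0,0,(⟨0,[(14,0)]⟩,⟨0,[(25,0),(3,0)]⟩),.k,.k,(.r 0 ⟨1,[(6,2),(4,0),(21,0)]⟩ ⟨35,[(1,31),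
  (2,7),(2,25),(2,13),(1,4),(19,0),(5,11)]⟩),(.r (-1) ⟨3,[(6,5),(3,1),(4,0),(0,0),(20,0)]⟩ ⟨0,[(1,
  0),(5,0),(1,0),(23,0)]⟩),.k,[⟨0,[(0,0)]⟩,⟨0,[(9,0)]⟩,⟨1,[(7,0),(12,0),(14,0)]⟩,⟨0,[(21,0),(14,
  0)]⟩]⟩) (.I [0,0,0,0,1,0,0,0,-1] (.I [0,0,-1,0,0,0,-2] (.I [0,0,-1,0,1,-1,1] (.I [0,0,-1,0,1,1,1,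
  -1] (.I [0,1,-2,-1,0,0,0,1] (.C [(0,0),(4,0),(2,1),(1,2),(26,0),(0,2)]) (.C [(0,0),(4,0),(1,0),(0,
  0)])) (.C [(0,0),(5,0),(2,0),(8,0)])) (.C [(0,0),(4,0),(10,0)])) (.C [(0,0),(1,0),(24,1)])) (.C
  [(0,0),(15,0),(2,0)]))) (.K ⟨0,[1,-1,1],(-1),(-1),(⟨0,[(24,0),(3,0)]⟩,⟨0,[(13,0)]⟩),.k,(.r (-1)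
  ⟨17,[(2,13),(0,15),(2,19),(4,0),(19,2),(2,1),(1,9)]⟩ ⟨1,[(5,2),(4,0),(21,0)]⟩),.k,.k,.k,[⟨9,[(14,
  0),(0,0),(15,1),(4,4)]⟩,⟨0,[(0,0),(1,0)]⟩,⟨9,[(3,4),(1,9),(4,4),(3,0),(0,0),(14,4),(0,1)]⟩,⟨0,[(2,
  0)]⟩]⟩)) (.R ⟨0,false,false,true,[0,1,-1],[1,0,-1],[0,1],(⟨0,[(12,0)]⟩,⟨0,[(23,0),(3,0)]⟩),(⟨0,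
  [(22,0)]⟩,⟨0,[(23,0)]⟩),⟨0,[(23,0)]⟩,.k,.k,.k,.k,.k,.k,⟨true,0,⟨0,[(6,0),(0,0)]⟩,⟨1,[(0,0),(0,0),
  (1,2),(26,0),(0,0)]⟩⟩,⟨false,0,⟨5,[(1,0),(1,2),(6,0),(6,0),(0,1),(12,0),(4,0)]⟩,⟨9,[(13,0),(0,0),
  (15,1),(4,4)]⟩⟩,⟨true,0,⟨2,[(1,2),(8,0),(6,0),(12,0),(4,0)]⟩,⟨0,[(4,0)]⟩⟩,⟨false,0,⟨7,[(0,0),(0,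
  4),(0,0),(0,0),(4,2),(1,0),(25,1)]⟩,⟨9,[(13,0),(0,0),(15,1),(3,9),(1,4)]⟩⟩,⟨false,0,⟨0,[]⟩,⟨0,
  []⟩⟩,⟨false,0,⟨0,[]⟩,⟨0,[]⟩⟩,[.o ⟨false,0,⟨0,[(19,0)]⟩,⟨4,[(6,3),(11,0),(11,0),(5,2)]⟩⟩,.e ⟨false,
  1,⟨1,[(13,0),(0,0),(20,0)]⟩,⟨0,[]⟩⟩ ⟨false,0,⟨0,[(3,0)]⟩,⟨5,[(6,3),(2,1),(7,3),(12,1),(4,0),(0,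
  0)]⟩⟩,.o ⟨false,1,⟨2,[(10,0),(6,0),(12,0),(4,0)]⟩,⟨0,[(20,0)]⟩⟩,.a ⟨true,0,⟨0,[(7,0)]⟩,⟨0,[(3,0),
  (2,0)]⟩⟩ ⟨true,0,⟨0,[(32,0)]⟩,⟨1,[(20,0),(0,0)]⟩⟩ ⟨false,0,⟨0,[(3,0)]⟩,⟨3,[(6,3),(0,1),(2,0),(19,
  0),(5,1)]⟩⟩]⟩))) (.Q [0,1,0,1,0,0,0,0,0,-1] (.pp true [-1,1]) (.R ⟨0,false,false,false,[0,1,-1],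
  [1,0,-1],[1,1,1],(⟨0,[(11,0)]⟩,⟨0,[(22,0),(3,0)]⟩),(⟨0,[(21,0)]⟩,⟨0,[(22,0)]⟩),⟨0,[(22,0)]⟩,.k,.k,
  .k,.k,.k,.k,⟨true,(-1),⟨0,[(1,0),(4,1)]⟩,⟨13,[(2,9),(0,1),(3,1),(21,1),(4,0),(0,6)]⟩⟩,⟨false,0,⟨2,
  [(2,1),(2,1),(3,0)]⟩,⟨9,[(12,0),(0,0),(15,1),(4,4)]⟩⟩,⟨false,0,⟨0,[(4,0),(1,0)]⟩,⟨1,[(3,1),(30,0),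
  (0,0)]⟩⟩,⟨true,0,⟨0,[(2,0),(1,0),(1,0)]⟩,⟨0,[(0,0)]⟩⟩,⟨false,0,⟨0,[]⟩,⟨0,[]⟩⟩,⟨false,0,⟨0,[]⟩,⟨0,
  []⟩⟩,[.e ⟨false,0,⟨0,[(37,0)]⟩,⟨1,[(34,0),(0,0)]⟩⟩ ⟨false,0,⟨0,[(2,0)]⟩,⟨5,[(5,3),(2,1),(7,3),(12,
  1),(4,0),(0,0)]⟩⟩,.o ⟨false,1,⟨0,[(18,0),(16,0)]⟩,⟨3,[(1,1),(3,0),(2,0),(7,0),(12,0),(1,0)]⟩⟩,.o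
  ⟨false,1,⟨2,[(9,0),(6,0),(12,0),(4,0)]⟩,⟨0,[(19,0)]⟩⟩,.a ⟨true,0,⟨0,[(6,0)]⟩,⟨0,[(2,0),(2,0)]⟩⟩
  ⟨false,0,⟨0,[]⟩,⟨1,[(12,0),(0,0),(21,0)]⟩⟩ ⟨true,0,⟨0,[(2,0)]⟩,⟨2,[(1,1),(4,1),(1,0),(7,1),(12,
  0)]⟩⟩]⟩) (.K ⟨0,[1,-1,1],(-1),(-1),(⟨0,[(22,0),(3,0)]⟩,⟨0,[(11,0)]⟩),.k,(.r (-1) ⟨2,[(0,1),(3,2),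
  (11,2),(12,0),(1,0),(0,0),(1,0)]⟩ ⟨1,[(3,2),(4,0),(21,0)]⟩),.k,.k,.k,[⟨9,[(12,0),(0,0),(15,1),(4,
  4)]⟩,⟨0,[(0,0),(0,0),(16,0),(11,0)]⟩,⟨19,[(3,19),(5,9),(2,2),(0,2),(14,9),(0,5),(4,4)]⟩,⟨0,[(0,0),
  (0,0),(4,0),(24,0)]⟩]⟩))) (.I [1,0,-1,-1,0,0,0,1] (.N [0,-1,1] 0 ⟨0,[(0,0)]⟩ ⟨0,[(2,0)]⟩ .k) (.Q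
  [0,0,-1,0,0,0,-2,0,0,0,-2] (.p false [0,0,1] [0,1,-1] (⟨0,[(21,0)]⟩,⟨0,[(20,0)]⟩) .k 2 (⟨0,[(10,
  0)]⟩,⟨0,[(21,0),(3,0)]⟩) .k (.x (-1) ⟨0,[(0,0),(2,0),(6,1),(7,0),(3,1),(7,1),(3,0)]⟩ ⟨0,[(5,1),
  (15,1)]⟩)) (.I [1,0,-1,0,1,0,0,-1] (.I [0,0,-1,0,0,0,0,1] (.Q [0,-1,-2,0,1,0,-1,0,0,0,-1] (.p
  false [0,0,1] [] (⟨0,[(24,0)]⟩,⟨0,[(23,0)]⟩) .k 0 (⟨0,[]⟩,⟨0,[]⟩) .k .k) (.Q [0,-1,0,1,1,0,-2,-2,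
  0,0,-2] (.p false [0,0,1] [0,1,-1] (⟨0,[(25,0)]⟩,⟨0,[(24,0)]⟩) .k 2 (⟨0,[(14,0)]⟩,⟨0,[(25,0),(3,
  0)]⟩) .k (.x (-1) ⟨0,[(4,0),(2,0),(6,1),(7,0),(3,1),(7,1),(3,0)]⟩ ⟨2,[(3,1),(19,1),(1,5)]⟩)) (.Q
  [0,-1,0,1,1,0,-1,-1,0,-1,-1] (.p false [1,-1,1] [] (⟨0,[(26,0),(3,0)]⟩,⟨0,[(15,0)]⟩) .k 0 (⟨0,[]⟩,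
  ⟨0,[]⟩) .k .k) (.R ⟨0,false,false,false,[0,0,1],[0,1,-1],[0,1,0,-1,0,0,0,1],(⟨0,[(27,0)]⟩,⟨0,[(26,
  0)]⟩),(⟨0,[(16,0)]⟩,⟨0,[(27,0),(3,0)]⟩),⟨0,[(16,0)]⟩,.k,.k,.k,(.r 0 ⟨3,[(3,2),(1,0),(1,0),(1,3),
  (4,0)]⟩ ⟨10,[(1,1),(2,2),(3,13),(3,4),(9,3),(17,0)]⟩),.k,.k,⟨false,0,⟨0,[(5,0),(3,1),(26,0)]⟩,⟨1,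
  [(8,3),(30,0),(0,0)]⟩⟩,⟨true,0,⟨0,[(5,0)]⟩,⟨0,[(24,1)]⟩⟩,⟨true,0,⟨0,[(37,0)]⟩,⟨0,[(38,0)]⟩⟩,
  ⟨false,1,⟨0,[(1,0)]⟩,⟨0,[(9,0),(0,0)]⟩⟩,⟨false,0,⟨0,[]⟩,⟨0,[]⟩⟩,⟨false,0,⟨0,[]⟩,⟨0,[]⟩⟩,[.o
  ⟨false,1,⟨8,[(0,3),(0,2),(6,1),(4,1),(8,0),(10,1),(0,0)]⟩,⟨0,[(9,0)]⟩⟩,.o ⟨false,1,⟨0,[(0,0)]⟩,⟨1,
  [(9,0),(12,0),(14,0)]⟩⟩,.o ⟨false,1,⟨9,[(4,3),(5,1),(11,1),(1,5),(9,1),(4,0),(0,0)]⟩,⟨0,[(11,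
  0)]⟩⟩,.a ⟨true,0,⟨0,[(24,0)]⟩,⟨0,[(21,0)]⟩⟩ ⟨true,0,⟨0,[(3,0),(33,0)]⟩,⟨0,[(8,0)]⟩⟩ ⟨false,1,⟨6,
  [(0,0),(0,2),(0,2),(2,0),(8,0),(23,2)]⟩,⟨0,[(9,0),(14,0)]⟩⟩]⟩) (.R ⟨1,false,false,false,[1,-1,1],
  [1,-1],[1,1,-1,-2,0,0,0,1],(⟨0,[(27,0),(3,0)]⟩,⟨0,[(16,0)]⟩),(⟨0,[(31,0)]⟩,⟨0,[(32,0)]⟩),⟨1,[(0,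
  1),(4,0),(0,1),(20,1),(0,3),(7,1),(3,1),(0,0)]⟩,.k,.k,(.r (-1) ⟨0,[(2,0),(6,0),(27,0)]⟩ ⟨1,[(8,2),
  (4,0),(21,0)]⟩),.k,.k,.k,⟨false,0,⟨0,[(3,0),(33,0)]⟩,⟨1,[(8,1),(30,0),(0,0)]⟩⟩,⟨true,0,⟨0,[(11,
  0)]⟩,⟨0,[(24,0)]⟩⟩,⟨true,0,⟨0,[(37,0)]⟩,⟨0,[(38,0)]⟩⟩,⟨false,1,⟨8,[(1,2),(3,0),(6,2),(12,0),(14,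
  2)]⟩,⟨0,[(10,0)]⟩⟩,⟨false,0,⟨0,[]⟩,⟨1,[(17,0),(0,0),(21,0)]⟩⟩,⟨false,1,⟨2,[(1,1),(20,0),(15,0),(1,
  0)]⟩,⟨0,[(9,0)]⟩⟩,[.a ⟨true,0,⟨8,[(0,8),(0,2),(3,0),(6,2),(12,0),(14,2)]⟩,⟨0,[(38,0)]⟩⟩ ⟨true,0,
  ⟨4,[(0,4),(1,0),(2,2),(3,1),(2,1),(21,0),(2,0)]⟩,⟨0,[(6,0),(28,0)]⟩⟩ ⟨false,1,⟨0,[(2,0),(34,0)]⟩,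
  ⟨0,[(8,0),(1,0)]⟩⟩,.o ⟨false,1,⟨5,[(5,0),(3,2),(2,2),(12,0),(14,2)]⟩,⟨0,[(7,0),(0,0),(27,0)]⟩⟩,.o
  ⟨false,0,⟨0,[(24,0)]⟩,⟨17,[(2,3),(11,6),(18,1),(0,4),(4,3)]⟩⟩,.o ⟨false,0,⟨1,[(24,2),(0,0)]⟩,⟨4,
  [(2,2),(2,0),(28,0),(1,2)]⟩⟩]⟩)) (.R ⟨0,false,false,false,[0,0,1],[0,1,-1],[1,0,2,1,0,0,0,-1],(⟨0,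
  [(26,0)]⟩,⟨0,[(25,0)]⟩),(⟨0,[(15,0)]⟩,⟨0,[(26,0),(3,0)]⟩),⟨0,[(15,0)]⟩,.k,.k,.k,(.r 0 ⟨1,[(0,0),
  (0,0),(4,0),(1,0),(4,0)]⟩ ⟨2,[(3,0),(3,3),(3,0),(4,0),(0,0)]⟩),.k,.k,⟨false,0,⟨0,[]⟩,⟨1,[(16,0),
  (0,0),(20,0)]⟩⟩,⟨true,0,⟨0,[(4,0)]⟩,⟨0,[(23,1)]⟩⟩,⟨false,1,⟨0,[(7,0),(3,0),(22,0)]⟩,⟨5,[(0,4),(0,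
  4),(2,1),(1,0),(1,0),(4,0)]⟩⟩,⟨true,1,⟨10,[(1,5),(1,0),(3,12),(3,1),(1,4),(8,5),(10,0)]⟩,⟨0,[(0,
  0)]⟩⟩,⟨false,0,⟨0,[]⟩,⟨0,[]⟩⟩,⟨false,0,⟨0,[]⟩,⟨0,[]⟩⟩,[.o ⟨false,1,⟨17,[(1,3),(5,17),(5,6),(18,1),
  (0,4),(4,3)]⟩,⟨0,[(8,0)]⟩⟩,.e ⟨false,1,⟨1,[(7,1),(8,0),(0,0),(21,0)]⟩,⟨0,[(0,0),(0,0),(20,0)]⟩⟩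
  ⟨false,1,⟨21,[(1,17),(2,7),(2,21),(5,4),(19,0),(5,1)]⟩,⟨2,[(0,1),(2,0),(7,0),(9,0),(1,0)]⟩⟩,.o
  ⟨false,1,⟨9,[(3,3),(5,1),(11,1),(1,5),(9,1),(4,0),(0,0)]⟩,⟨0,[(10,0)]⟩⟩,.a ⟨true,0,⟨0,[(23,0)]⟩,
  ⟨0,[(20,0)]⟩⟩ ⟨true,0,⟨0,[(7,0)]⟩,⟨15,[(0,5),(0,5),(2,2),(7,3),(19,0),(3,9)]⟩⟩ ⟨false,1,⟨21,[(1,
  17),(2,7),(2,21),(5,4),(19,0),(5,1)]⟩,⟨0,[(8,0),(14,0)]⟩⟩]⟩)) (.Q [0,0,-1,1,0,0,-1,0,0,0,-1] (.p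
  false [0,0,1] [] (⟨0,[(25,0)]⟩,⟨0,[(24,0)]⟩) .k 0 (⟨0,[]⟩,⟨0,[]⟩) .k .k) (.R ⟨0,false,false,false,
  [0,0,1],[0,1],[1,1,1],(⟨0,[(26,0)]⟩,⟨0,[(25,0)]⟩),(⟨0,[(31,0)]⟩,⟨0,[(30,0)]⟩),⟨0,[(15,0)]⟩,.k,.k,
  .k,.k,.k,.k,⟨true,0,⟨0,[(36,0)]⟩,⟨0,[(0,0),(0,0),(37,0)]⟩⟩,⟨false,1,⟨17,[(4,3),(8,4),(19,0),(4,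
  15)]⟩,⟨0,[(23,0)]⟩⟩,⟨true,0,⟨10,[(1,3),(5,3),(3,3),(10,2),(1,0),(7,1)]⟩,⟨0,[(2,0)]⟩⟩,⟨false,1,⟨13,
  [(0,3),(2,3),(3,9),(5,4),(19,0),(4,0),(0,6)]⟩,⟨0,[(8,0)]⟩⟩,⟨false,0,⟨0,[]⟩,⟨0,[]⟩⟩,⟨false,0,⟨0,
  []⟩,⟨0,[]⟩⟩,[.e ⟨false,0,⟨10,[(1,0),(5,0),(3,0),(0,1),(11,0),(7,3)]⟩,⟨1,[(38,0),(0,0)]⟩⟩ ⟨false,0,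
  ⟨0,[(0,0)]⟩,⟨0,[(9,0),(1,0)]⟩⟩,.o ⟨false,1,⟨9,[(16,0),(0,0),(15,1),(3,9),(1,4)]⟩,⟨0,[(36,0)]⟩⟩,.o
  ⟨false,1,⟨9,[(3,3),(5,1),(11,1),(1,5),(9,1),(4,0),(0,0)]⟩,⟨0,[(10,0)]⟩⟩,.a ⟨true,0,⟨0,[(23,0)]⟩,
  ⟨0,[(20,0)]⟩⟩ ⟨false,0,⟨0,[]⟩,⟨1,[(16,0),(0,0),(21,0)]⟩⟩ ⟨true,0,⟨0,[(0,0)]⟩,⟨3,[(1,1),(6,0),(2,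
  1),(9,0),(14,0)]⟩⟩]⟩) (.I [0,-1,1,1] (.R ⟨0,false,false,false,[0,0,1],[0,1],[1,1,1],(⟨0,[(27,0)]⟩,
  ⟨0,[(26,0)]⟩),(⟨0,[(32,0)]⟩,⟨0,[(31,0)]⟩),⟨0,[(16,0)]⟩,.k,.k,.k,.k,.k,.k,⟨true,0,⟨0,[(37,0)]⟩,⟨0,
  [(0,0)]⟩⟩,⟨false,1,⟨17,[(5,3),(8,4),(19,0),(4,15)]⟩,⟨0,[(24,0)]⟩⟩,⟨true,0,⟨10,[(2,3),(5,3),(3,3),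
  (10,2),(1,0),(7,1)]⟩,⟨0,[(3,0)]⟩⟩,⟨false,1,⟨17,[(5,3),(2,17),(5,4),(19,0),(4,6),(0,8)]⟩,⟨0,[(9,
  0)]⟩⟩,⟨false,0,⟨0,[]⟩,⟨0,[]⟩⟩,⟨false,0,⟨0,[]⟩,⟨0,[]⟩⟩,[.a ⟨true,0,⟨0,[(38,0)]⟩,⟨0,[(1,0),(19,
  0)]⟩⟩ ⟨false,0,⟨10,[(2,0),(5,0),(3,0),(0,1),(11,0),(7,3)]⟩,⟨1,[(39,0),(0,0)]⟩⟩ ⟨true,0,⟨2,[(5,0),
  (19,0),(12,2)]⟩,⟨0,[(1,0)]⟩⟩,.o ⟨false,1,⟨9,[(17,0),(0,0),(15,1),(3,9),(1,4)]⟩,⟨0,[(37,0)]⟩⟩,.o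
  ⟨false,1,⟨9,[(4,3),(5,1),(11,1),(1,5),(9,1),(4,0),(0,0)]⟩,⟨0,[(11,0)]⟩⟩,.e ⟨false,0,⟨0,[]⟩,⟨1,
  [(17,0),(0,0),(21,0)]⟩⟩ ⟨false,1,⟨17,[(5,3),(8,4),(19,0),(3,17),(0,6),(0,8)]⟩,⟨0,[(1,0)]⟩⟩]⟩) (.R
  ⟨0,false,false,false,[0,0,1],[0,1,-1],[0,1],(⟨0,[(27,0)]⟩,⟨0,[(26,0)]⟩),(⟨0,[(16,0)]⟩,⟨0,[(27,0),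
  (3,0)]⟩),⟨0,[(16,0)]⟩,.k,.k,.k,(.r 0 ⟨3,[(3,2),(1,0),(1,0),(1,3),(4,0)]⟩ ⟨2,[(4,0),(3,3),(3,0),(4,
  0),(0,0)]⟩),.k,.k,⟨false,0,⟨0,[(0,0),(2,0)]⟩,⟨1,[(8,1),(8,0),(0,0),(21,0)]⟩⟩,⟨true,0,⟨0,[(5,0)]⟩,
  ⟨0,[(24,1)]⟩⟩,⟨true,0,⟨0,[(0,0),(5,0)]⟩,⟨2,[(7,0),(2,1),(3,0)]⟩⟩,⟨false,1,⟨0,[(0,0),(4,0),(2,1),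
  (31,0)]⟩,⟨0,[(9,0),(0,0)]⟩⟩,⟨false,0,⟨0,[]⟩,⟨0,[]⟩⟩,⟨false,0,⟨0,[]⟩,⟨0,[]⟩⟩,[.o ⟨false,1,⟨17,[(5,
  1),(2,17),(5,6),(19,4),(4,7)]⟩,⟨0,[(9,0)]⟩⟩,.e ⟨false,1,⟨1,[(17,0),(0,0),(20,0)]⟩,⟨0,[]⟩⟩ ⟨false,
  1,⟨1,[(5,1),(2,1),(30,0),(0,0)]⟩,⟨2,[(0,1),(0,0),(0,0),(1,0),(5,3)]⟩⟩,.o ⟨false,1,⟨9,[(4,3),(5,1),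
  (11,1),(1,5),(9,1),(4,0),(0,0)]⟩,⟨0,[(11,0)]⟩⟩,.a ⟨true,0,⟨0,[(24,0)]⟩,⟨0,[(21,0)]⟩⟩ ⟨true,0,⟨0,
  [(36,0)]⟩,⟨1,[(24,0),(0,0)]⟩⟩ ⟨false,1,⟨1,[(5,1),(2,1),(30,0),(0,0)]⟩,⟨0,[(1,0),(8,0)]⟩⟩]⟩))))
  (.R ⟨0,false,false,true,[0,1,-1],[1,0,-1],[0,1],(⟨0,[(13,0)]⟩,⟨0,[(24,0),(3,0)]⟩),(⟨0,[(23,0)]⟩,
  ⟨0,[(24,0)]⟩),⟨0,[(24,0)]⟩,.k,.k,.k,.k,.k,.k,⟨true,0,⟨2,[(4,0),(2,1),(3,0)]⟩,⟨0,[(0,0)]⟩⟩,⟨false,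
  0,⟨0,[(23,0),(0,0)]⟩,⟨9,[(14,0),(0,0),(15,1),(4,4)]⟩⟩,⟨true,0,⟨1,[(2,0),(3,1),(23,0)]⟩,⟨0,[(5,
  0)]⟩⟩,⟨false,0,⟨0,[(0,0),(5,0),(11,0)]⟩,⟨9,[(14,0),(0,0),(15,1),(3,9),(1,4)]⟩⟩,⟨false,0,⟨0,[]⟩,⟨0,
  []⟩⟩,⟨false,0,⟨0,[]⟩,⟨0,[]⟩⟩,[.o ⟨false,0,⟨0,[(20,0)]⟩,⟨4,[(7,3),(11,0),(11,0),(5,2)]⟩⟩,.a ⟨true,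
  0,⟨0,[(0,0),(17,0)]⟩,⟨0,[(7,0)]⟩⟩ ⟨false,1,⟨1,[(14,0),(0,0),(20,0)]⟩,⟨0,[]⟩⟩ ⟨true,0,⟨0,[(0,0),
  (22,0),(0,0)]⟩,⟨0,[(4,0)]⟩⟩,.o ⟨false,1,⟨17,[(2,1),(8,6),(19,4),(4,7)]⟩,⟨0,[(21,0)]⟩⟩,.e ⟨true,0,
  ⟨0,[(33,0)]⟩,⟨1,[(21,0),(0,0)]⟩⟩ ⟨true,0,⟨0,[(0,0),(22,0),(0,0),(8,0)]⟩,⟨0,[(4,0)]⟩⟩]⟩)) (.Q [0,1,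
  0,0,-1,0,2,2,0,0,2] (.p true [0,0,1] [0,1,-1] (⟨0,[(23,0)]⟩,⟨0,[(22,0)]⟩) .k 2 (⟨0,[(12,0)]⟩,⟨0,
  [(23,0),(3,0)]⟩) .k (.r 1 ⟨0,[(0,1),(34,0)]⟩ ⟨1,[(4,1),(3,1),(4,0),(0,0),(20,0)]⟩)) (.Q [0,0,-1,1,
  0,0,-1,0,0,0,-1] (.p false [0,0,1] [] (⟨0,[(24,0)]⟩,⟨0,[(23,0)]⟩) .k 0 (⟨0,[]⟩,⟨0,[]⟩) .k .k) (.R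
  ⟨0,false,false,false,[0,0,1],[0,1],[],(⟨0,[(25,0)]⟩,⟨0,[(24,0)]⟩),(⟨0,[(30,0)]⟩,⟨0,[(29,0)]⟩),⟨0,
  [(14,0)]⟩,.k,.k,.k,.k,.k,.k,⟨true,1,⟨35,[(3,3),(3,17),(2,17),(1,4),(19,0),(4,15)]⟩,⟨0,[(2,0),(3,
  0)]⟩⟩,⟨false,1,⟨17,[(3,3),(8,4),(19,0),(4,15)]⟩,⟨0,[(22,0)]⟩⟩,⟨true,1,⟨3,[(6,1),(3,1),(4,0),(0,0),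
  (20,0)]⟩,⟨0,[(2,0),(31,0)]⟩⟩,⟨false,1,⟨17,[(0,7),(5,13),(3,3),(1,4),(19,0),(4,2),(0,8)]⟩,⟨0,[(7,
  0)]⟩⟩,⟨false,0,⟨0,[]⟩,⟨0,[]⟩⟩,⟨false,0,⟨0,[]⟩,⟨0,[]⟩⟩,[.e ⟨false,1,⟨1,[(15,0),(0,0),(20,0)]⟩,⟨0,
  []⟩⟩ ⟨false,0,⟨0,[(0,0)]⟩,⟨0,[(8,0),(1,0)]⟩⟩,.o ⟨false,1,⟨9,[(15,0),(0,0),(15,1),(3,9),(1,4)]⟩,⟨0,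
  [(35,0)]⟩⟩,.o ⟨false,1,⟨14,[(6,0),(3,0),(9,1),(1,12),(9,2),(4,6),(0,0)]⟩,⟨0,[(9,0)]⟩⟩,.a ⟨true,0,
  ⟨0,[(22,0)]⟩,⟨0,[(19,0)]⟩⟩ ⟨false,1,⟨1,[(37,0),(0,0)]⟩,⟨1,[(22,0),(0,0)]⟩⟩ ⟨true,0,⟨0,[(0,0)]⟩,⟨0,
  [(22,0),(12,0)]⟩⟩]⟩) (.R ⟨0,false,false,false,[0,0,1],[0,1],[],(⟨0,[(25,0)]⟩,⟨0,[(24,0)]⟩),(⟨0,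
  [(30,0)]⟩,⟨0,[(29,0)]⟩),⟨0,[(14,0)]⟩,.k,.k,.k,.k,.k,.k,⟨true,1,⟨35,[(3,3),(3,17),(2,17),(1,4),(19,
  0),(4,15)]⟩,⟨0,[(2,0),(3,0)]⟩⟩,⟨false,1,⟨17,[(3,3),(8,4),(19,0),(4,15)]⟩,⟨0,[(22,0)]⟩⟩,⟨true,1,⟨3,
  [(6,1),(3,1),(4,0),(0,0),(20,0)]⟩,⟨0,[(2,0),(31,0)]⟩⟩,⟨false,1,⟨17,[(3,3),(2,17),(5,4),(19,0),(4,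
  6),(0,8)]⟩,⟨0,[(7,0)]⟩⟩,⟨false,0,⟨0,[]⟩,⟨0,[]⟩⟩,⟨false,0,⟨0,[]⟩,⟨0,[]⟩⟩,[.a ⟨true,0,⟨0,[(36,0)]⟩,
  ⟨0,[(0,0),(18,0)]⟩⟩ ⟨false,1,⟨1,[(15,0),(0,0),(20,0)]⟩,⟨0,[]⟩⟩ ⟨true,0,⟨2,[(3,0),(19,0),(12,2)]⟩,
  ⟨0,[(0,0)]⟩⟩,.o ⟨false,1,⟨9,[(15,0),(0,0),(15,1),(3,9),(1,4)]⟩,⟨0,[(35,0)]⟩⟩,.o ⟨false,1,⟨14,[(6,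
  0),(3,0),(9,1),(1,12),(9,2),(4,6),(0,0)]⟩,⟨0,[(9,0)]⟩⟩,.e ⟨false,1,⟨1,[(37,0),(0,0)]⟩,⟨1,[(22,0),
  (0,0)]⟩⟩ ⟨false,1,⟨17,[(3,3),(8,4),(19,0),(3,17),(0,6),(0,8)]⟩,⟨0,[(0,0)]⟩⟩]⟩)) (.Q [0,0,0,-1,0,0,
  0,0,0,1] (.pp false [-1,1]) (.R ⟨0,false,false,false,[0,1,-1],[0,1],[],(⟨0,[(14,0)]⟩,⟨0,[(25,0),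
  (3,0)]⟩),(⟨0,[(30,0)]⟩,⟨0,[(29,0)]⟩),⟨0,[(25,0)]⟩,.k,.k,.k,.k,.k,.k,⟨true,1,⟨7,[(0,3),(6,1),(2,1),
  (1,0),(19,0),(4,3)]⟩,⟨0,[(2,0),(3,0)]⟩⟩,⟨false,1,⟨0,[(22,0),(14,0)]⟩,⟨0,[(9,0)]⟩⟩,⟨false,1,⟨17,
  [(3,3),(3,17),(4,4),(19,0),(4,6),(0,8)]⟩,⟨0,[(6,0)]⟩⟩,⟨true,0,⟨0,[(8,0)]⟩,⟨0,[(21,0)]⟩⟩,⟨false,0,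
  ⟨0,[]⟩,⟨0,[]⟩⟩,⟨false,0,⟨0,[]⟩,⟨0,[]⟩⟩,[.a ⟨true,0,⟨0,[(36,0)]⟩,⟨0,[(0,0)]⟩⟩ ⟨false,1,⟨1,[(15,0),
  (0,0),(20,0)]⟩,⟨0,[]⟩⟩ ⟨true,0,⟨0,[(6,0),(1,0)]⟩,⟨0,[(1,0),(0,0),(4,0),(26,0)]⟩⟩,.o ⟨false,1,⟨9,
  [(15,0),(0,0),(15,1),(3,9),(1,4)]⟩,⟨0,[(35,0)]⟩⟩,.o ⟨false,1,⟨17,[(3,1),(8,6),(19,4),(4,7)]⟩,⟨0,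
  [(22,0)]⟩⟩,.e ⟨false,1,⟨1,[(37,0),(0,0)]⟩,⟨1,[(22,0),(0,0)]⟩⟩ ⟨false,1,⟨1,[(6,1),(1,1),(28,0),(0,
  0)]⟩,⟨0,[(1,0),(0,0),(4,0),(26,0)]⟩⟩]⟩) (.R ⟨0,false,false,false,[0,0,1],[0,1],[1,1,1],(⟨0,[(25,
  0)]⟩,⟨0,[(24,0)]⟩),(⟨0,[(30,0)]⟩,⟨0,[(29,0)]⟩),⟨0,[(14,0)]⟩,.k,.k,.k,.k,.k,.k,⟨true,0,⟨0,[(35,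
  0)]⟩,⟨0,[(2,0),(1,0),(29,0),(3,0)]⟩⟩,⟨false,1,⟨17,[(3,3),(8,4),(19,0),(4,15)]⟩,⟨0,[(22,0)]⟩⟩,
  ⟨true,0,⟨0,[(6,0),(28,0)]⟩,⟨0,[(2,0),(34,0)]⟩⟩,⟨false,1,⟨3,[(1,1),(13,0),(0,0),(19,3),(1,0)]⟩,⟨0,
  [(7,0)]⟩⟩,⟨false,0,⟨0,[]⟩,⟨0,[]⟩⟩,⟨false,0,⟨0,[]⟩,⟨0,[]⟩⟩,[.o ⟨false,0,⟨0,[(0,0)]⟩,⟨35,[(7,9),(2,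
  25),(0,15),(0,4),(19,0),(5,7)]⟩⟩,.o ⟨false,1,⟨9,[(15,0),(0,0),(15,1),(3,9),(1,4)]⟩,⟨0,[(35,0)]⟩⟩,
  .o ⟨false,1,⟨14,[(6,0),(3,0),(9,1),(1,12),(9,2),(4,6),(0,0)]⟩,⟨0,[(9,0)]⟩⟩,.a ⟨true,0,⟨0,[(22,
  0)]⟩,⟨0,[(19,0)]⟩⟩ ⟨false,0,⟨0,[]⟩,⟨1,[(15,0),(0,0),(21,0)]⟩⟩ ⟨true,0,⟨0,[(0,0),(18,0)]⟩,⟨0,[(22,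
  0),(12,0)]⟩⟩]⟩)))) (.Q [0,0,-2,-1,1,0,-1,0,0,0,-1] (.p false [0,0,1] [] (⟨0,[(22,0)]⟩,⟨0,[(21,
  0)]⟩) .k 0 (⟨0,[]⟩,⟨0,[]⟩) .k .k) (.K ⟨0,[0,1,-1],0,0,(⟨0,[(12,0)]⟩,⟨0,[(23,0),(3,0)]⟩),.k,.k,(.r
  0 ⟨1,[(4,2),(4,0),(21,0)]⟩ ⟨0,[(0,0),(4,0)]⟩),(.r (-1) ⟨3,[(4,5),(3,1),(4,0),(0,0),(20,0)]⟩ ⟨0,
  [(3,0),(1,0),(11,0)]⟩),.k,[⟨0,[(1,0)]⟩,⟨0,[(7,0)]⟩,⟨1,[(5,0),(12,0),(14,0)]⟩,⟨0,[(19,0),(14,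
  0)]⟩]⟩) (.R ⟨0,false,false,false,[0,1,-1],[0,1],[],(⟨0,[(12,0)]⟩,⟨0,[(23,0),(3,0)]⟩),(⟨0,[(28,
  0)]⟩,⟨0,[(27,0)]⟩),⟨0,[(23,0)]⟩,.k,.k,.k,.k,.k,.k,⟨true,1,⟨11,[(5,5),(2,5),(1,0),(6,3),(12,0),(4,
  3)]⟩,⟨0,[(0,0),(6,0)]⟩⟩,⟨false,1,⟨7,[(1,2),(2,0),(3,0),(9,1),(16,5),(0,0)]⟩,⟨0,[(7,0)]⟩⟩,⟨false,1,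
  ⟨5,[(5,5),(4,0),(6,3),(12,0),(4,0),(0,2)]⟩,⟨0,[(4,0)]⟩⟩,⟨true,0,⟨0,[(6,0)]⟩,⟨0,[(19,0)]⟩⟩,⟨false,
  0,⟨0,[]⟩,⟨0,[]⟩⟩,⟨false,0,⟨0,[]⟩,⟨0,[]⟩⟩,[.e ⟨false,1,⟨1,[(13,0),(0,0),(20,0)]⟩,⟨0,[]⟩⟩ ⟨false,0,
  ⟨0,[(0,0),(34,0)]⟩,⟨3,[(5,1),(2,1),(1,0),(6,3),(12,0)]⟩⟩,.o ⟨false,1,⟨9,[(13,0),(0,0),(15,1),(3,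
  9),(1,4)]⟩,⟨0,[(33,0)]⟩⟩,.o ⟨false,1,⟨2,[(10,0),(6,0),(12,0),(4,0)]⟩,⟨0,[(20,0)]⟩⟩,.a ⟨true,0,⟨0,
  [(7,0)]⟩,⟨0,[(1,0),(15,0)]⟩⟩ ⟨false,1,⟨1,[(35,0),(0,0)]⟩,⟨2,[(1,0),(19,1)]⟩⟩ ⟨true,0,⟨0,[(0,0),
  (34,0)]⟩,⟨0,[(7,0),(25,0)]⟩⟩]⟩)))))))

theorem ok2 : chk K t2 l3 = true := by decide +kernel

noncomputable def t3 : Tre :=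
  (.I [1,0,-1,0,0,0,0,-1] (.R ⟨2,true,false,true,[0,1],[0,0,1],[1,1,1],(⟨0,[]⟩,⟨0,[]⟩),(⟨0,[(18,
  0)]⟩,⟨0,[(17,0)]⟩),⟨0,[]⟩,.k,.k,.k,.k,.k,.k,⟨false,0,⟨1,[(0,0),(0,0),(13,0)]⟩,⟨1,[(4,1),(25,0),(0,
  0)]⟩⟩,⟨true,0,⟨0,[(15,0)]⟩,⟨0,[(2,0)]⟩⟩,⟨true,0,⟨0,[(28,0)]⟩,⟨0,[(29,0)]⟩⟩,⟨false,1,⟨0,[(13,0),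
  (14,0),(2,0)]⟩,⟨0,[(0,0),(1,0),(23,0)]⟩⟩,⟨false,0,⟨0,[]⟩,⟨1,[(8,0),(0,0),(21,0)]⟩⟩,⟨true,0,⟨0,
  [(13,0)]⟩,⟨0,[(1,0)]⟩⟩,[]⟩) (.Q [0,1,0,-1,0,0,1,1,0,0,1] (.p true [0,0,1] [] (⟨0,[(18,0)]⟩,⟨0,
  [(17,0)]⟩) .k 0 (⟨0,[]⟩,⟨0,[]⟩) .k .k) (.I [1,0,0,0,0,0,0,1] (.I [1,-1,0,1,0,0,0,1] (.R ⟨2,true,
  false,false,[0,1],[0,1,1],[1,0,1,1,0,0,0,1],(⟨0,[]⟩,⟨0,[]⟩),(⟨0,[(21,0),(4,0)]⟩,⟨0,[(9,0)]⟩),⟨0,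
  []⟩,.k,.k,.k,.k,.k,.k,⟨true,0,⟨0,[]⟩,⟨1,[(18,0),(0,0)]⟩⟩,⟨false,1,⟨0,[(18,0),(14,0)]⟩,⟨0,[(5,
  0)]⟩⟩,⟨true,0,⟨0,[(1,0)]⟩,⟨0,[(4,0),(13,0),(11,0)]⟩⟩,⟨false,1,⟨0,[(16,0),(17,0)]⟩,⟨0,[(4,0)]⟩⟩,
  ⟨false,0,⟨0,[(0,0)]⟩,⟨0,[(6,0)]⟩⟩,⟨true,0,⟨0,[(0,0),(17,0),(11,0)]⟩,⟨0,[(4,0),(26,0)]⟩⟩,[]⟩) (.I
  [0,0,0,0,0,0,0,2] (.Q [0,0,0,1,0,0,1,1,0,0,1] (.p true [0,0,1] [] (⟨0,[(22,0)]⟩,⟨0,[(21,0)]⟩) .k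
  0 (⟨0,[]⟩,⟨0,[]⟩) .k .k) (.R ⟨2,true,false,false,[0,1],[0,1,1],[1,1,1],(⟨0,[]⟩,⟨0,[]⟩),(⟨0,[(23,
  0),(4,0)]⟩,⟨0,[(11,0)]⟩),⟨0,[]⟩,.k,.k,.k,.k,.k,.k,⟨true,0,⟨0,[(2,0)]⟩,⟨1,[(1,0),(29,1)]⟩⟩,⟨false,
  1,⟨0,[(20,0),(14,0)]⟩,⟨0,[(7,0)]⟩⟩,⟨true,0,⟨0,[(33,0)]⟩,⟨0,[(34,0)]⟩⟩,⟨false,1,⟨0,[(18,0),(17,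
  0)]⟩,⟨0,[(6,0)]⟩⟩,⟨false,0,⟨0,[]⟩,⟨1,[(13,0),(0,0),(21,0)]⟩⟩,⟨true,0,⟨0,[(0,0)]⟩,⟨0,[(6,0),(26,
  0)]⟩⟩,[]⟩) (.I [1,1,2,1,-1,0,0,-1] (.I [0,-1,-1,-1,1,0,0,1] (.Q [0,0,2,0,-1,0,0,0,0,1] (.pp false
  [-1,1]) (.I [1,1,-1,-1] (.Q [0,0,-1,-1,0,0,0,1,0,1] (.pp false [-1,1]) (.R ⟨0,false,false,true,[0,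
  0,1],[1,-1,1],[1,0,1],(⟨0,[(28,0)]⟩,⟨0,[(27,0)]⟩),(⟨0,[(28,0),(3,0)]⟩,⟨0,[(17,0)]⟩),⟨0,[(17,0)]⟩,
  .k,.k,.k,.k,.k,.k,⟨true,0,⟨0,[(4,0),(36,0)]⟩,⟨1,[(1,1),(4,0)]⟩⟩,⟨false,0,⟨0,[(27,0),(0,0)]⟩,⟨9,
  [(18,0),(0,0),(15,1),(4,4)]⟩⟩,⟨true,0,⟨1,[(4,0),(2,0),(33,0)]⟩,⟨1,[(6,0),(30,1)]⟩⟩,⟨false,0,⟨3,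
  [(0,1),(1,0),(4,1),(19,0),(0,0),(12,0)]⟩,⟨9,[(18,0),(0,0),(15,1),(3,9),(1,4)]⟩⟩,⟨false,0,⟨0,[]⟩,
  ⟨0,[]⟩⟩,⟨false,0,⟨0,[]⟩,⟨0,[]⟩⟩,[.o ⟨false,0,⟨0,[(9,0)]⟩,⟨4,[(11,3),(12,0),(10,0),(3,4),(1,2)]⟩⟩,
  .e ⟨false,1,⟨1,[(18,0),(0,0),(21,0)]⟩,⟨0,[(37,0)]⟩⟩ ⟨false,0,⟨0,[(0,0)]⟩,⟨4,[(4,3),(8,0),(21,0),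
  (3,1),(0,3),(0,1)]⟩⟩,.o ⟨false,1,⟨19,[(13,1),(9,1),(1,17),(9,3),(3,1),(0,8),(0,0)]⟩,⟨0,[(12,0)]⟩⟩,
  .a ⟨true,0,⟨0,[(25,0)]⟩,⟨0,[(22,0)]⟩⟩ ⟨true,0,⟨0,[]⟩,⟨6,[(4,0),(8,0),(0,1),(19,1)]⟩⟩ ⟨false,0,⟨0,
  [(0,0)]⟩,⟨9,[(4,7),(8,1),(21,1),(3,3),(0,2),(0,8)]⟩⟩]⟩) (.I [0,0,1,1,0,0,0,-2] (.Q [0,0,0,0,0,-2,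
  0,0,0,1] (.pp false [-1,1]) (.S ⟨1,0,[0,0,-1,-1],[1,-1],[0,1,-1,-1],(⟨0,[(34,0)]⟩,⟨0,[(35,0)]⟩),
  ⟨0,[(0,0)]⟩,.k,(.r (-1) ⟨0,[(3,1),(39,0)]⟩ ⟨2,[(1,1),(14,3),(21,3)]⟩),⟨true,0,⟨6,[(6,0),(8,0),(0,
  1),(19,1)]⟩,⟨0,[]⟩⟩,⟨false,1,⟨1,[(20,0),(0,0),(21,0)]⟩,⟨0,[]⟩⟩,⟨false,0,⟨0,[(41,0)]⟩,⟨27,[(4,4),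
  (0,9),(1,3),(3,3),(3,9),(21,0),(5,10)]⟩⟩,⟨true,0,⟨0,[(41,0)]⟩,⟨0,[(40,0)]⟩⟩,[.e ⟨false,1,⟨6,[(3,
  2),(1,1),(9,1),(20,2),(5,2)]⟩,⟨0,[(38,0)]⟩⟩ ⟨false,1,⟨1,[(3,1),(38,0),(0,0)]⟩,⟨2,[(1,0),(14,1),
  (21,1)]⟩⟩,.o ⟨false,1,⟨27,[(4,4),(0,9),(1,3),(3,3),(3,9),(21,0),(5,10)]⟩,⟨1,[(2,1),(5,0),(30,
  1)]⟩⟩,.o ⟨false,0,⟨27,[(4,4),(1,2),(5,8),(2,5),(21,0),(0,2)]⟩,⟨9,[(20,0),(0,0),(15,1),(4,4)]⟩⟩,.a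
  ⟨true,(-1),⟨0,[(4,0)]⟩,⟨0,[(42,0)]⟩⟩ ⟨false,1,⟨1,[(3,1),(38,0),(0,0)]⟩,⟨27,[(4,4),(1,2),(5,8),(2,
  5),(21,0),(0,30)]⟩⟩ ⟨true,1,⟨1,[(3,1),(38,0),(0,0)]⟩,⟨1,[(6,1),(1,0)]⟩⟩]⟩) (.Q [0,-1,0,1,1,0,1,1,
  0,-1,1] (.p true [0,0,1] [1] (⟨0,[(30,0)]⟩,⟨0,[(29,0)]⟩) .k 1 (⟨0,[]⟩,⟨0,[]⟩) .k .k) (.R ⟨0,false,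
  false,true,[1,-1],[1,-1,-1],[1,0,-1,-1],(⟨0,[(35,0)]⟩,⟨0,[(36,0)]⟩),(⟨0,[(19,0)]⟩,⟨0,[(31,0),(4,
  0)]⟩),⟨0,[(1,0)]⟩,.k,.k,(.r (-1) ⟨0,[(4,1),(39,0)]⟩ ⟨6,[(0,3),(1,1),(4,3),(10,3),(7,3),(12,3)]⟩),
  .k,.k,.k,⟨false,1,⟨1,[(0,0),(5,0),(18,0)]⟩,⟨2,[(2,0),(7,0),(26,0)]⟩⟩,⟨true,0,⟨0,[(15,0)]⟩,⟨0,[(28,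
  0)]⟩⟩,⟨true,0,⟨0,[]⟩,⟨6,[(7,0),(8,0),(0,1),(19,1)]⟩⟩,⟨false,0,⟨0,[(14,0)]⟩,⟨0,[(26,0),(17,0)]⟩⟩,
  ⟨false,0,⟨0,[]⟩,⟨0,[]⟩⟩,⟨false,0,⟨0,[]⟩,⟨0,[]⟩⟩,[.o ⟨false,0,⟨1,[(8,0),(18,0),(13,0)]⟩,⟨0,[(0,
  0)]⟩⟩,.o ⟨false,0,⟨0,[(8,0)]⟩,⟨6,[(0,6),(6,0),(8,0),(0,1),(19,1)]⟩⟩,.o ⟨false,0,⟨30,[(0,2),(4,7),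
  (1,2),(5,5),(2,5),(12,2),(8,0)]⟩,⟨30,[(0,1),(15,1),(1,0),(18,0),(0,5),(4,14)]⟩⟩,.a ⟨true,(-1),⟨0,
  [(5,0)]⟩,⟨0,[(43,0)]⟩⟩ ⟨true,1,⟨1,[(4,1),(38,0),(0,0)]⟩,⟨1,[(7,1),(1,0)]⟩⟩ ⟨false,1,⟨0,[(8,0),(34,
  0)]⟩,⟨0,[(0,0),(4,0)]⟩⟩]⟩) (.I [0,0,0,0,1,0,0,0,-1] (.I [0,0,1,0,0,1,1] (.I [0,0,0,0,0,2,0,0,1]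
  (.I [0,0,1,1,0,0,0,-1,1] (.I [0,0,2,0,-1,2] (.I [0,0,3,1,-1,0,0,-1] (.I [0,1,1,0,-1,0,-1,-2] (.I
  [0,1,2,0,-1,0,0,-2] (.I [0,1,0,-1,-1,2,-1,-1] (.I [0,1,1,-1,-1,2,0,-1] (.C [(0,0),(9,0),(0,0),(7,
  0),(18,0),(3,3),(7,1),(1,1),(1,1)]) (.C [(0,0),(9,0),(0,0),(26,0)])) (.C [(0,0),(8,0),(0,0),(29,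
  0)])) (.C [(0,0),(7,0),(2,0),(24,0)])) (.C [(0,0),(6,0),(2,0),(27,0)])) (.C [(0,0),(8,0),(1,0)]))
  (.C [(0,0),(5,0),(3,0)])) (.C [(0,0),(6,0),(18,0),(0,0)])) (.C [(0,0),(3,0),(20,0),(0,0)])) (.C
  [(0,0),(2,0),(17,0),(8,0)])) (.C [(0,0),(21,0),(2,0)])))) (.R ⟨0,false,false,false,[0,1,-1],[0,1],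
  [1,0,1,1],(⟨0,[(18,0)]⟩,⟨0,[(29,0),(3,0)]⟩),(⟨0,[(34,0)]⟩,⟨0,[(33,0)]⟩),⟨0,[(29,0)]⟩,.k,.k,.k,.k,
  .k,.k,⟨true,0,⟨0,[]⟩,⟨27,[(3,4),(1,2),(5,8),(2,5),(21,0),(0,2)]⟩⟩,⟨false,1,⟨0,[(26,0),(14,0)]⟩,⟨0,
  [(13,0)]⟩⟩,⟨true,0,⟨0,[(9,0)]⟩,⟨1,[(5,0),(2,0),(32,0)]⟩⟩,⟨false,1,⟨0,[(24,0),(17,0)]⟩,⟨0,[(12,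
  0)]⟩⟩,⟨false,0,⟨0,[]⟩,⟨0,[]⟩⟩,⟨false,0,⟨0,[]⟩,⟨0,[]⟩⟩,[.a ⟨true,0,⟨0,[(40,0)]⟩,⟨1,[(2,1),(0,0),
  (24,0),(0,0),(12,0)]⟩⟩ ⟨false,0,⟨0,[(40,0)]⟩,⟨6,[(2,0),(1,2),(9,2),(20,0),(5,0)]⟩⟩ ⟨true,0,⟨0,
  [(26,0),(13,0)]⟩,⟨2,[(0,0),(5,1),(20,0)]⟩⟩,.o ⟨false,1,⟨9,[(19,0),(0,0),(15,1),(3,9),(1,4)]⟩,⟨0,
  [(39,0)]⟩⟩,.o ⟨false,1,⟨2,[(16,0),(6,0),(12,0),(4,0)]⟩,⟨0,[(26,0)]⟩⟩,.o ⟨false,0,⟨0,[(0,0),(0,0),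
  (10,0)]⟩,⟨3,[(14,1),(9,1),(1,1),(13,1),(0,0),(0,0)]⟩⟩]⟩))) (.Q [0,0,-1,1,0,0,-1,0,0,0,-1] (.p
  false [0,0,1] [] (⟨0,[(27,0)]⟩,⟨0,[(26,0)]⟩) .k 0 (⟨0,[]⟩,⟨0,[]⟩) .k .k) (.R ⟨0,false,false,false,
  [0,0,1],[0,1],[1,1,1],(⟨0,[(28,0)]⟩,⟨0,[(27,0)]⟩),(⟨0,[(33,0)]⟩,⟨0,[(32,0)]⟩),⟨0,[(17,0)]⟩,.k,.k,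
  .k,.k,.k,.k,⟨true,0,⟨0,[(38,0)]⟩,⟨0,[(1,0)]⟩⟩,⟨false,1,⟨5,[(15,0),(6,3),(12,0),(4,3)]⟩,⟨0,[(25,
  0)]⟩⟩,⟨false,0,⟨1,[(4,0),(2,0),(33,0)]⟩,⟨1,[(6,0),(33,0),(0,0)]⟩⟩,⟨true,0,⟨0,[(11,0),(27,0)]⟩,⟨0,
  [(9,0)]⟩⟩,⟨false,0,⟨0,[]⟩,⟨0,[]⟩⟩,⟨false,0,⟨0,[]⟩,⟨0,[]⟩⟩,[.e ⟨false,0,⟨6,[(4,0),(8,0),(0,1),(19,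
  1)]⟩,⟨1,[(40,0),(0,0)]⟩⟩ ⟨false,0,⟨0,[(0,0)]⟩,⟨3,[(9,1),(3,1),(11,1),(14,0),(0,0)]⟩⟩,.o ⟨false,1,
  ⟨9,[(18,0),(0,0),(15,1),(3,9),(1,4)]⟩,⟨0,[(38,0)]⟩⟩,.o ⟨false,1,⟨19,[(13,1),(9,1),(1,17),(9,3),(3,
  1),(0,8),(0,0)]⟩,⟨0,[(12,0)]⟩⟩,.a ⟨true,0,⟨0,[(25,0)]⟩,⟨0,[(22,0)]⟩⟩ ⟨false,0,⟨0,[]⟩,⟨1,[(18,0),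
  (0,0),(21,0)]⟩⟩ ⟨true,0,⟨0,[(0,0)]⟩,⟨25,[(2,4),(1,2),(2,6),(1,15),(3,5),(11,9),(9,0)]⟩⟩]⟩) (.R ⟨0,
  false,false,false,[0,0,1],[0,1],[1,1,1],(⟨0,[(28,0)]⟩,⟨0,[(27,0)]⟩),(⟨0,[(33,0)]⟩,⟨0,[(32,0)]⟩),
  ⟨0,[(17,0)]⟩,.k,.k,.k,.k,.k,.k,⟨true,0,⟨0,[(38,0)]⟩,⟨0,[(1,0)]⟩⟩,⟨false,1,⟨5,[(15,0),(6,3),(12,0),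
  (4,3)]⟩,⟨0,[(25,0)]⟩⟩,⟨false,0,⟨1,[(4,0),(2,0),(33,0)]⟩,⟨1,[(6,0),(33,0),(0,0)]⟩⟩,⟨true,0,⟨0,[(11,
  0),(27,0)]⟩,⟨0,[(9,0)]⟩⟩,⟨false,0,⟨0,[]⟩,⟨0,[]⟩⟩,⟨false,0,⟨0,[]⟩,⟨0,[]⟩⟩,[.a ⟨true,0,⟨0,[(39,0)]⟩,
  ⟨0,[(0,0),(21,0)]⟩⟩ ⟨false,0,⟨6,[(4,0),(8,0),(0,1),(19,1)]⟩,⟨1,[(40,0),(0,0)]⟩⟩ ⟨true,0,⟨0,[(12,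
  0),(26,0)]⟩,⟨0,[(0,0)]⟩⟩,.o ⟨false,1,⟨9,[(18,0),(0,0),(15,1),(3,9),(1,4)]⟩,⟨0,[(38,0)]⟩⟩,.o
  ⟨false,1,⟨19,[(13,1),(9,1),(1,17),(9,3),(3,1),(0,8),(0,0)]⟩,⟨0,[(12,0)]⟩⟩,.e ⟨false,0,⟨0,[]⟩,⟨1,
  [(18,0),(0,0),(21,0)]⟩⟩ ⟨false,1,⟨5,[(15,0),(6,3),(12,0),(3,5),(0,0),(0,2)]⟩,⟨0,[(0,0)]⟩⟩]⟩)))
  (.Q [0,0,0,-1,0,0,0,0,0,1] (.pp false [-1,1]) (.R ⟨1,false,false,false,[1,0,-1],[1,-1],[1,1,0,-1,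
  0,0,0,-1],(⟨0,[(26,0)]⟩,⟨0,[(27,0)]⟩),(⟨0,[(31,0)]⟩,⟨0,[(32,0)]⟩),⟨0,[(15,0)]⟩,.k,.k,.k,.k,.k,.k,
  ⟨false,0,⟨1,[(3,0),(2,0),(32,0)]⟩,⟨1,[(5,0),(33,0),(0,0)]⟩⟩,⟨true,0,⟨0,[(24,0)]⟩,⟨0,[(11,0)]⟩⟩,
  ⟨true,0,⟨0,[(37,0)]⟩,⟨0,[(38,0)]⟩⟩,⟨false,1,⟨0,[(8,0),(31,0)]⟩,⟨0,[(10,0),(27,0)]⟩⟩,⟨false,0,⟨0,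
  []⟩,⟨1,[(17,0),(0,0),(21,0)]⟩⟩,⟨false,1,⟨0,[(22,0),(17,0)]⟩,⟨0,[(10,0)]⟩⟩,[.a ⟨true,0,⟨0,[(0,0)]⟩,
  ⟨0,[(38,0)]⟩⟩ ⟨true,0,⟨0,[(6,0)]⟩,⟨1,[(5,0),(29,1)]⟩⟩ ⟨false,1,⟨0,[(0,0),(0,0),(22,0)]⟩,⟨0,[(11,
  0),(26,0)]⟩⟩,.o ⟨false,1,⟨12,[(0,9),(1,0),(6,0),(2,1),(21,1),(5,5)]⟩,⟨1,[(1,1),(1,1),(1,0)]⟩⟩,.o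
  ⟨false,0,⟨0,[(11,0)]⟩,⟨19,[(12,1),(9,1),(1,17),(9,3),(3,1),(0,8),(0,0)]⟩⟩,.o ⟨false,0,⟨0,[(25,
  0)]⟩,⟨0,[(1,0),(22,0)]⟩⟩]⟩) (.R ⟨0,false,false,true,[0,0,1],[1,-1],[0,1,0,-1],(⟨0,[(27,0)]⟩,⟨0,
  [(26,0)]⟩),(⟨0,[(31,0)]⟩,⟨0,[(32,0)]⟩),⟨0,[(16,0)]⟩,.k,.k,.k,.k,.k,.k,⟨true,0,⟨1,[(24,0),(0,0)]⟩,
  ⟨0,[]⟩⟩,⟨false,0,⟨1,[(14,0),(11,0),(0,0)]⟩,⟨0,[(1,0),(22,0)]⟩⟩,⟨true,0,⟨0,[(6,0)]⟩,⟨1,[(5,0),(32,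
  1)]⟩⟩,⟨false,0,⟨0,[(4,0),(21,0),(0,0)]⟩,⟨0,[(0,0),(21,0),(17,0)]⟩⟩,⟨false,0,⟨0,[]⟩,⟨0,[]⟩⟩,⟨false,
  0,⟨0,[]⟩,⟨0,[]⟩⟩,[.o ⟨false,0,⟨0,[(37,0)]⟩,⟨9,[(17,0),(0,0),(15,1),(3,9),(1,4)]⟩⟩,.o ⟨false,1,⟨1,
  [(5,0),(6,1)]⟩,⟨0,[(0,0)]⟩⟩,.o ⟨false,1,⟨19,[(12,1),(9,1),(1,17),(9,3),(3,1),(0,8),(0,0)]⟩,⟨0,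
  [(11,0)]⟩⟩,.a ⟨true,0,⟨0,[(24,0)]⟩,⟨0,[(21,0)]⟩⟩ ⟨false,1,⟨2,[(2,0),(9,0),(24,0),(1,0)]⟩,⟨0,[(35,
  0)]⟩⟩ ⟨true,0,⟨0,[(21,0),(15,0)]⟩,⟨0,[(0,0),(23,0)]⟩⟩]⟩))) (.Q [0,0,-1,1,0,0,-1,0,0,0,-1] (.p
  false [0,0,1] [] (⟨0,[(25,0)]⟩,⟨0,[(24,0)]⟩) .k 0 (⟨0,[]⟩,⟨0,[]⟩) .k .k) (.R ⟨0,false,false,false,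
  [0,0,1],[0,1],[1,1,1],(⟨0,[(26,0)]⟩,⟨0,[(25,0)]⟩),(⟨0,[(31,0)]⟩,⟨0,[(30,0)]⟩),⟨0,[(15,0)]⟩,.k,.k,
  .k,.k,.k,.k,⟨true,0,⟨0,[(36,0)]⟩,⟨1,[(1,1),(2,0),(34,1)]⟩⟩,⟨false,1,⟨5,[(13,0),(6,3),(12,0),(4,
  3)]⟩,⟨0,[(23,0)]⟩⟩,⟨false,0,⟨3,[(1,0),(0,0),(0,0),(7,0),(11,0),(15,0)]⟩,⟨1,[(4,0),(33,0),(0,0)]⟩⟩,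
  ⟨true,0,⟨2,[(0,1),(0,0),(7,0),(1,0),(22,0)]⟩,⟨0,[(7,0)]⟩⟩,⟨false,0,⟨0,[]⟩,⟨0,[]⟩⟩,⟨false,0,⟨0,[]⟩,
  ⟨0,[]⟩⟩,[.e ⟨false,0,⟨6,[(2,0),(8,0),(0,1),(19,1)]⟩,⟨1,[(38,0),(0,0)]⟩⟩ ⟨false,0,⟨0,[(0,0)]⟩,⟨3,
  [(7,1),(3,1),(11,1),(14,0),(0,0)]⟩⟩,.o ⟨false,1,⟨9,[(16,0),(0,0),(15,1),(3,9),(1,4)]⟩,⟨0,[(36,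
  0)]⟩⟩,.o ⟨false,1,⟨19,[(11,1),(9,1),(1,17),(9,3),(3,1),(0,8),(0,0)]⟩,⟨0,[(10,0)]⟩⟩,.a ⟨true,0,⟨0,
  [(23,0)]⟩,⟨0,[(20,0)]⟩⟩ ⟨false,0,⟨0,[]⟩,⟨1,[(16,0),(0,0),(21,0)]⟩⟩ ⟨true,0,⟨0,[(0,0)]⟩,⟨0,[(23,0),
  (12,0)]⟩⟩]⟩) (.R ⟨0,false,false,false,[0,0,1],[0,1],[1,1,1],(⟨0,[(26,0)]⟩,⟨0,[(25,0)]⟩),(⟨0,[(31,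
  0)]⟩,⟨0,[(30,0)]⟩),⟨0,[(15,0)]⟩,.k,.k,.k,.k,.k,.k,⟨true,0,⟨0,[(36,0)]⟩,⟨1,[(1,1),(2,0),(34,1)]⟩⟩,
  ⟨false,1,⟨5,[(13,0),(6,3),(12,0),(4,3)]⟩,⟨0,[(23,0)]⟩⟩,⟨false,0,⟨6,[(0,0),(0,1),(0,1),(0,0),(7,1),
  (27,1)]⟩,⟨1,[(4,0),(33,0),(0,0)]⟩⟩,⟨true,0,⟨0,[(9,0),(27,0)]⟩,⟨0,[(7,0)]⟩⟩,⟨false,0,⟨0,[]⟩,⟨0,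
  []⟩⟩,⟨false,0,⟨0,[]⟩,⟨0,[]⟩⟩,[.a ⟨true,0,⟨0,[(37,0)]⟩,⟨0,[(0,0),(19,0)]⟩⟩ ⟨false,0,⟨6,[(2,0),(8,
  0),(0,1),(19,1)]⟩,⟨1,[(38,0),(0,0)]⟩⟩ ⟨true,0,⟨0,[(10,0),(26,0)]⟩,⟨0,[(0,0)]⟩⟩,.o ⟨false,1,⟨9,
  [(16,0),(0,0),(15,1),(3,9),(1,4)]⟩,⟨0,[(36,0)]⟩⟩,.o ⟨false,1,⟨19,[(11,1),(9,1),(1,17),(9,3),(3,1),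
  (0,8),(0,0)]⟩,⟨0,[(10,0)]⟩⟩,.e ⟨false,0,⟨0,[]⟩,⟨1,[(16,0),(0,0),(21,0)]⟩⟩ ⟨false,1,⟨5,[(13,0),(6,
  3),(12,0),(3,5),(0,0),(0,2)]⟩,⟨0,[(0,0)]⟩⟩]⟩))) (.I [1,0,0,1,0,0,0,-1] (.Q [0,-1,0,0,1,0,2,2,0,-1,
  2] (.p true [0,0,1] [1,0,-1] (⟨0,[(25,0)]⟩,⟨0,[(24,0)]⟩) .k 2 (⟨0,[(24,0)]⟩,⟨0,[(25,0)]⟩) .k (.r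
  0 ⟨0,[(3,0)]⟩ ⟨0,[(0,0),(9,0)]⟩)) (.R ⟨0,false,false,true,[0,0,1],[1,0,-1],[0,1],(⟨0,[(26,0)]⟩,⟨0,
  [(25,0)]⟩),(⟨0,[(25,0)]⟩,⟨0,[(26,0)]⟩),⟨0,[(15,0)]⟩,.k,.k,.k,.k,.k,.k,⟨true,0,⟨1,[(4,0)]⟩,⟨0,[(5,
  0),(28,0)]⟩⟩,⟨false,0,⟨0,[(10,0),(9,0)]⟩,⟨0,[(0,0),(0,0),(3,0)]⟩⟩,⟨true,0,⟨4,[(1,1),(3,1),(16,0),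
  (0,0),(8,0)]⟩,⟨0,[(6,0)]⟩⟩,⟨false,0,⟨1,[(1,1),(1,1),(9,0),(11,0),(0,0)]⟩,⟨0,[(0,0)]⟩⟩,⟨false,0,⟨0,
  []⟩,⟨0,[]⟩⟩,⟨false,0,⟨0,[]⟩,⟨0,[]⟩⟩,[.o ⟨false,0,⟨0,[(22,0)]⟩,⟨19,[(0,9),(15,0),(0,0),(15,1),(5,
  4)]⟩⟩,.o ⟨false,0,⟨0,[(9,0)]⟩,⟨30,[(0,10),(15,11),(0,11),(3,8),(11,3),(7,1)]⟩⟩,.o ⟨false,1,⟨7,[(0,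
  2),(0,3),(3,0),(5,2),(9,1),(11,0)]⟩,⟨0,[(10,0)]⟩⟩,.a ⟨true,0,⟨0,[(23,0)]⟩,⟨0,[(20,0)]⟩⟩ ⟨true,0,
  ⟨0,[(35,0)]⟩,⟨1,[(23,0),(0,0)]⟩⟩ ⟨false,0,⟨0,[(9,0),(10,0)]⟩,⟨10,[(0,5),(10,0),(11,9),(9,0),(0,0),
  (4,1)]⟩⟩]⟩) (.Q [0,0,-1,0,0,0,-2,0,0,0,-2] (.p false [0,0,1] [0,1,-1] (⟨0,[(26,0)]⟩,⟨0,[(25,0)]⟩)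
  .k 2 (⟨0,[(15,0)]⟩,⟨0,[(26,0),(3,0)]⟩) .k (.r 0 ⟨0,[(4,0)]⟩ ⟨0,[(1,0),(9,0)]⟩)) (.R ⟨0,false,
  false,true,[0,0,1],[0,1,-1],[0,1],(⟨0,[(27,0)]⟩,⟨0,[(26,0)]⟩),(⟨0,[(16,0)]⟩,⟨0,[(27,0),(3,0)]⟩),
  ⟨0,[(16,0)]⟩,.k,.k,.k,(.r (-1) ⟨3,[(3,1),(1,2),(6,1),(0,1)]⟩ ⟨18,[(1,4),(0,20),(1,3),(7,2),(11,
  13),(9,0),(0,4)]⟩),.k,.k,⟨false,1,⟨6,[(3,5),(8,0),(0,1),(19,1)]⟩,⟨1,[(2,1),(21,0),(0,0)]⟩⟩,⟨true,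
  0,⟨0,[(0,0)]⟩,⟨0,[(24,1)]⟩⟩,⟨true,0,⟨4,[(2,1),(3,1),(16,0),(0,0),(8,0)]⟩,⟨0,[(7,0)]⟩⟩,⟨false,0,
  ⟨22,[(0,2),(0,12),(0,19),(11,6),(19,3),(0,2),(4,4)]⟩,⟨1,[(3,1),(1,0),(18,3)]⟩⟩,⟨false,0,⟨0,[]⟩,⟨0,
  []⟩⟩,⟨false,0,⟨0,[]⟩,⟨0,[]⟩⟩,[.o ⟨false,0,⟨2,[(1,1),(20,0),(11,0),(3,2)]⟩,⟨0,[(8,0),(31,0)]⟩⟩,.e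
  ⟨false,1,⟨1,[(17,0),(0,0),(20,0)]⟩,⟨0,[]⟩⟩ ⟨false,0,⟨0,[(0,0),(1,0)]⟩,⟨2,[(3,1),(8,0),(9,1),(1,
  3)]⟩⟩,.o ⟨false,1,⟨9,[(2,0),(9,0),(9,1),(1,7),(9,1),(4,3),(0,0)]⟩,⟨0,[(11,0)]⟩⟩,.a ⟨true,0,⟨0,
  [(24,0)]⟩,⟨0,[(21,0)]⟩⟩ ⟨true,0,⟨0,[(36,0)]⟩,⟨1,[(24,0),(0,0)]⟩⟩ ⟨false,0,⟨0,[(0,0),(1,0)]⟩,⟨0,
  [(8,0),(15,0),(15,0)]⟩⟩]⟩) (.K ⟨0,[0,1,-1],0,0,(⟨0,[(16,0)]⟩,⟨0,[(27,0),(3,0)]⟩),.k,.k,(.r 0 ⟨5,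
  [(0,1),(1,8),(19,2),(2,6),(9,2)]⟩ ⟨0,[(3,0),(33,0)]⟩),(.r 0 ⟨32,[(0,15),(0,14),(0,26),(9,8),(12,
  1),(8,2),(0,14)]⟩ ⟨3,[(3,1),(1,2),(6,1),(0,1)]⟩),.k,[⟨0,[(0,0)]⟩,⟨0,[(11,0)]⟩,⟨0,[(8,0)]⟩,⟨0,[(23,
  0),(14,0)]⟩]⟩))) (.Q [0,0,-2,0,1,0,-1,0,0,-1,-1] (.p false [1,-1,1] [] (⟨0,[(25,0),(3,0)]⟩,⟨0,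
  [(14,0)]⟩) .k 0 (⟨0,[]⟩,⟨0,[]⟩) .k .k) (.Q [0,0,0,-1,0,0,0,0,0,1] (.pp false [-1,1]) (.Q [0,0,0,0,
  0,-2,0,0,0,1,1] (.p true [1,-1,1] [] (⟨0,[(27,0),(3,0)]⟩,⟨0,[(16,0)]⟩) .k 0 (⟨0,[]⟩,⟨0,[]⟩) .k
  .k) (.R ⟨1,false,false,false,[1,-1,1],[1,-1],[0,1,-1,-1,0,0,0,1],(⟨0,[(28,0),(3,0)]⟩,⟨0,[(17,
  0)]⟩),(⟨0,[(32,0)]⟩,⟨0,[(33,0)]⟩),⟨0,[(0,0)]⟩,.k,.k,(.r (-1) ⟨0,[(4,0),(33,0)]⟩ ⟨0,[(24,0),(0,0),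
  (10,0),(2,0)]⟩),.k,.k,.k,⟨false,0,⟨1,[(6,0),(30,1)]⟩,⟨0,[(7,0),(31,0),(1,0)]⟩⟩,⟨true,0,⟨0,[(12,
  0)]⟩,⟨0,[(25,0)]⟩⟩,⟨true,0,⟨0,[(43,0)]⟩,⟨0,[]⟩⟩,⟨true,0,⟨0,[(11,0)]⟩,⟨0,[(23,0)]⟩⟩,⟨false,0,⟨0,
  [(39,0)]⟩,⟨1,[(3,0),(9,0),(27,0)]⟩⟩,⟨true,0,⟨0,[(11,0),(27,0)]⟩,⟨0,[(9,0)]⟩⟩,[.a ⟨true,0,⟨0,[(1,
  0)]⟩,⟨0,[(39,0)]⟩⟩ ⟨true,0,⟨0,[(3,0),(33,0)]⟩,⟨0,[(7,0),(28,1)]⟩⟩ ⟨false,1,⟨23,[(2,6),(1,11),(0,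
  6),(7,4),(1,2),(6,3),(11,5)]⟩,⟨0,[(25,0),(13,0)]⟩⟩,.e ⟨false,1,⟨6,[(4,5),(8,0),(0,1),(19,1)]⟩,⟨0,
  [(7,0),(28,0),(2,0)]⟩⟩ ⟨false,1,⟨0,[(4,0),(6,0)]⟩,⟨0,[(25,0),(13,0),(3,0)]⟩⟩,.o ⟨false,0,⟨0,[(25,
  0)]⟩,⟨11,[(2,1),(12,4),(19,2),(4,3)]⟩⟩,.o ⟨false,0,⟨1,[(25,2),(0,0)]⟩,⟨0,[(2,0)]⟩⟩]⟩) (.R ⟨0,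
  false,false,false,[1,-1,1],[1,-1],[0,0,1],(⟨0,[(28,0),(3,0)]⟩,⟨0,[(17,0)]⟩),(⟨0,[(32,0)]⟩,⟨0,[(33,
  0)]⟩),⟨0,[(0,0)]⟩,.k,.k,(.r (-1) ⟨0,[(4,0),(33,0)]⟩ ⟨0,[(24,0),(0,0),(10,0),(2,0)]⟩),.k,.k,.k,
  ⟨false,0,⟨0,[(36,0),(6,0)]⟩,⟨1,[(4,0),(2,0),(32,0)]⟩⟩,⟨true,0,⟨0,[(12,0)]⟩,⟨0,[(25,0)]⟩⟩,⟨false,0,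
  ⟨0,[(7,0),(28,1)]⟩,⟨6,[(4,5),(8,0),(0,1),(19,1)]⟩⟩,⟨true,0,⟨0,[(11,0)]⟩,⟨0,[(23,0)]⟩⟩,⟨false,0,⟨0,
  []⟩,⟨0,[]⟩⟩,⟨false,0,⟨0,[]⟩,⟨0,[]⟩⟩,[.a ⟨true,0,⟨0,[(1,0)]⟩,⟨0,[(39,0)]⟩⟩ ⟨true,0,⟨1,[(25,0),(0,
  0)]⟩,⟨0,[]⟩⟩ ⟨false,1,⟨23,[(2,6),(1,11),(0,6),(7,4),(1,2),(6,3),(11,5)]⟩,⟨0,[(25,0),(13,0)]⟩⟩,.o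
  ⟨false,1,⟨1,[(3,0),(9,0),(27,0)]⟩,⟨0,[(0,0),(27,0),(0,1),(7,0),(1,0),(2,0)]⟩⟩,.o ⟨false,0,⟨0,[(25,
  0)]⟩,⟨11,[(2,1),(12,4),(19,2),(4,3)]⟩⟩,.o ⟨false,0,⟨1,[(25,2),(0,0)]⟩,⟨0,[(2,0)]⟩⟩]⟩)) (.R ⟨0,
  false,false,true,[0,0,1],[1,-1],[0,1,0,-1],(⟨0,[(27,0)]⟩,⟨0,[(26,0)]⟩),(⟨0,[(31,0)]⟩,⟨0,[(32,
  0)]⟩),⟨0,[(16,0)]⟩,.k,.k,.k,.k,.k,.k,⟨true,0,⟨1,[(24,0),(0,0)]⟩,⟨0,[]⟩⟩,⟨false,0,⟨1,[(14,0),(11,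
  0),(0,0)]⟩,⟨1,[(0,1),(2,0),(2,0),(17,1),(14,0)]⟩⟩,⟨true,0,⟨0,[(6,0)]⟩,⟨1,[(5,0),(32,1)]⟩⟩,⟨false,
  0,⟨0,[(4,0),(21,0),(0,0)]⟩,⟨0,[(0,0),(21,0),(17,0)]⟩⟩,⟨false,0,⟨0,[]⟩,⟨0,[]⟩⟩,⟨false,0,⟨0,[]⟩,⟨0,
  []⟩⟩,[.o ⟨false,0,⟨0,[(37,0)]⟩,⟨9,[(17,0),(0,0),(15,1),(3,9),(1,4)]⟩⟩,.o ⟨false,1,⟨1,[(5,0),(6,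
  1)]⟩,⟨0,[(0,0)]⟩⟩,.o ⟨false,1,⟨19,[(12,1),(9,1),(1,17),(9,3),(3,1),(0,8),(0,0)]⟩,⟨0,[(11,0)]⟩⟩,.a
  ⟨true,0,⟨0,[(24,0)]⟩,⟨0,[(21,0)]⟩⟩ ⟨false,1,⟨6,[(3,2),(8,3),(0,0),(19,0)]⟩,⟨0,[(35,0)]⟩⟩ ⟨true,0,
  ⟨0,[(21,0),(15,0)]⟩,⟨0,[(0,0),(23,0)]⟩⟩]⟩)) (.R ⟨1,false,false,false,[1,-1,1],[1,-1],[0,1,-1,-1,0,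
  0,0,1],(⟨0,[(26,0),(3,0)]⟩,⟨0,[(15,0)]⟩),(⟨0,[(30,0)]⟩,⟨0,[(31,0)]⟩),⟨1,[(0,0),(1,0),(0,0),(22,1),
  (0,2),(2,0),(4,0),(1,1),(2,0)]⟩,.k,.k,(.r (-1) ⟨0,[(2,0),(33,0)]⟩ ⟨0,[(22,0),(0,0),(10,0),(2,
  0)]⟩),.k,.k,.k,⟨false,0,⟨1,[(4,0),(30,1)]⟩,⟨0,[(5,0),(31,0),(1,0)]⟩⟩,⟨true,0,⟨0,[(10,0)]⟩,⟨0,[(23,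
  0)]⟩⟩,⟨true,0,⟨0,[(41,0)]⟩,⟨0,[]⟩⟩,⟨true,0,⟨0,[(9,0)]⟩,⟨0,[(21,0)]⟩⟩,⟨false,0,⟨0,[(37,0)]⟩,⟨1,[(1,
  0),(9,0),(27,0)]⟩⟩,⟨true,0,⟨0,[(9,0),(27,0)]⟩,⟨0,[(7,0)]⟩⟩,[.a ⟨true,0,⟨8,[(0,4),(1,2),(0,0),(7,
  1),(8,3),(15,2)]⟩,⟨0,[(37,0)]⟩⟩ ⟨true,0,⟨0,[(1,0),(33,0)]⟩,⟨0,[(5,0),(28,1)]⟩⟩ ⟨false,1,⟨0,[(2,0),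
  (19,0)]⟩,⟨0,[(23,0),(13,0)]⟩⟩,.e ⟨false,1,⟨6,[(2,5),(8,0),(0,1),(19,1)]⟩,⟨0,[(5,0),(28,0),(2,
  0)]⟩⟩ ⟨false,1,⟨0,[(2,0),(6,0)]⟩,⟨0,[(23,0),(13,0),(3,0)]⟩⟩,.o ⟨false,0,⟨0,[(23,0)]⟩,⟨2,[(13,0),
  (6,0),(12,0),(4,0)]⟩⟩,.e ⟨false,1,⟨6,[(2,5),(8,0),(0,1),(19,1)]⟩,⟨0,[(5,0),(28,1)]⟩⟩ ⟨false,1,⟨0,
  [(2,0),(6,0)]⟩,⟨0,[(23,0),(10,0),(6,0)]⟩⟩]⟩))))) (.N [0,0,1] 0 ⟨0,[(2,0)]⟩ ⟨1,[(0,0)]⟩ .k))) (.Q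
  [0,0,2,0,-1,0,1,0,0,1,1] (.p true [1,-1,1] [] (⟨0,[(20,0),(3,0)]⟩,⟨0,[(9,0)]⟩) .k 0 (⟨0,[]⟩,⟨0,
  []⟩) .k .k) (.Q [0,-1,-1,-1,1,0,1,0,0,0,1] (.p true [0,0,1] [] (⟨0,[(21,0)]⟩,⟨0,[(20,0)]⟩) .k 0
  (⟨0,[]⟩,⟨0,[]⟩) .k .k) (.R ⟨1,false,false,true,[1,0,-1],[1,-1],[0,1,0,0,0,0,0,-1],(⟨0,[(21,0)]⟩,
  ⟨0,[(22,0)]⟩),(⟨0,[(26,0)]⟩,⟨0,[(27,0)]⟩),⟨0,[(10,0)]⟩,.k,.k,.k,.k,.k,.k,⟨false,0,⟨0,[(2,0),(30,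
  0)]⟩,⟨5,[(0,1),(2,3),(4,1),(0,0),(6,3),(12,0),(5,1)]⟩⟩,⟨true,0,⟨0,[(19,0)]⟩,⟨0,[(6,0)]⟩⟩,⟨true,0,
  ⟨0,[(37,0)]⟩,⟨0,[]⟩⟩,⟨true,0,⟨0,[(3,0)]⟩,⟨0,[(5,0),(27,0)]⟩⟩,⟨false,0,⟨0,[(33,0)]⟩,⟨0,[(32,0),(2,
  0)]⟩⟩,⟨true,0,⟨0,[(17,0)]⟩,⟨0,[(5,0)]⟩⟩,[.o ⟨false,0,⟨0,[(32,0)]⟩,⟨9,[(12,0),(0,0),(15,1),(3,9),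
  (1,4)]⟩⟩,.a ⟨true,0,⟨1,[(0,0),(0,0),(4,0),(9,0),(15,0)]⟩,⟨0,[(33,0)]⟩⟩ ⟨true,0,⟨0,[(2,0)]⟩,⟨0,[(4,
  0)]⟩⟩ ⟨false,1,⟨3,[(0,2),(6,0),(9,0),(10,0)]⟩,⟨0,[(6,0),(26,0)]⟩⟩,.o ⟨false,0,⟨0,[(6,0)]⟩,⟨19,[(7,
  1),(9,1),(1,17),(9,3),(3,1),(0,8),(0,0)]⟩⟩,.o ⟨false,0,⟨0,[(20,0)]⟩,⟨3,[(0,2),(0,0),(27,0),(1,2),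
  (1,2)]⟩⟩]⟩) (.I [0,0,2,2,-1] (.K ⟨0,[1,-1,1],(-1),0,(⟨0,[(23,0),(3,0)]⟩,⟨0,[(12,0)]⟩),.k,(.r (-2)
  ⟨5,[(4,5),(5,0),(6,3),(12,0),(2,5),(1,3),(0,5)]⟩ ⟨0,[(0,0),(2,0)]⟩),.k,.k,.k,[⟨9,[(13,0),(0,0),
  (15,1),(4,4)]⟩,⟨0,[(2,0)]⟩,⟨4,[(1,2),(1,2),(2,1),(22,0),(0,0),(3,1),(0,0)]⟩,⟨9,[(2,3),(1,7),(3,1),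
  (8,5),(0,3),(16,0),(0,0)]⟩]⟩) (.I [0,0,-2,0,1,-2,-1] (.K ⟨0,[1,-1,1],(-1),0,(⟨0,[(24,0),(3,0)]⟩,
  ⟨0,[(13,0)]⟩),.k,(.x 0 ⟨1,[(13,1),(7,2),(0,0),(6,1)]⟩ ⟨0,[(0,0)]⟩),.k,.k,.k,[⟨9,[(14,0),(0,0),(15,
  1),(4,4)]⟩,⟨0,[(3,0)]⟩,⟨4,[(2,2),(1,2),(2,1),(22,0),(0,0),(3,1),(0,0)]⟩,⟨9,[(1,0),(1,3),(1,5),(3,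
  1),(8,5),(0,5),(17,0)]⟩]⟩) (.I [0,0,0,0,0,0,-1] (.I [0,0,0,0,1,0,0,0,-1] (.I [0,1,0,-1,0,0,0,1]
  (.I [0,2,1,0,-1,0,0,1] (.I [0,1,1,1,-1,0,-1] (.C [(0,0),(4,1),(0,0),(0,0),(21,0),(0,3),(7,3),(3,
  2)]) (.C [(0,0),(6,0),(21,0)])) (.C [(0,0),(5,0),(2,0)])) (.C [(0,0),(7,0),(2,0)])) (.C [(0,0),
  (15,0),(2,0)])) (.C [(0,0),(8,0),(15,0)]))))) (.Q [0,0,0,-1,0,0,1,1,0,1,1] (.p true [1,-1,1] []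
  (⟨0,[(21,0),(3,0)]⟩,⟨0,[(10,0)]⟩) .k 0 (⟨0,[]⟩,⟨0,[]⟩) .k .k) (.Q [0,0,1,0,0,0,2,0,0,0,2] (.p
  true [0,0,1] [0,1,-1] (⟨0,[(22,0)]⟩,⟨0,[(21,0)]⟩) .k 2 (⟨0,[(11,0)]⟩,⟨0,[(22,0),(3,0)]⟩) .k (.r
  (-1) ⟨0,[(8,1),(26,0)]⟩ ⟨0,[(2,1)]⟩)) (.R ⟨1,false,false,true,[1,0,-1],[1,-1],[0,1,0,0,0,0,0,-1],
  (⟨0,[(22,0)]⟩,⟨0,[(23,0)]⟩),(⟨0,[(27,0)]⟩,⟨0,[(28,0)]⟩),⟨0,[(11,0)]⟩,.k,.k,.k,.k,.k,.k,⟨false,0,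
  ⟨0,[(3,0),(30,0)]⟩,⟨27,[(1,23),(0,13),(5,3),(0,7),(0,4),(19,2),(5,3)]⟩⟩,⟨true,0,⟨0,[(20,0)]⟩,⟨0,
  [(7,0)]⟩⟩,⟨true,0,⟨0,[(38,0)]⟩,⟨0,[]⟩⟩,⟨true,0,⟨0,[(4,0)]⟩,⟨0,[(6,0),(27,0)]⟩⟩,⟨false,0,⟨0,[(34,
  0)]⟩,⟨0,[(33,0),(2,0)]⟩⟩,⟨true,0,⟨0,[(18,0)]⟩,⟨0,[(6,0)]⟩⟩,[.o ⟨false,0,⟨0,[(33,0)]⟩,⟨9,[(13,0),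
  (0,0),(15,1),(3,9),(1,4)]⟩⟩,.a ⟨true,0,⟨0,[(1,0),(4,0)]⟩,⟨0,[(34,0)]⟩⟩ ⟨true,0,⟨0,[(3,0)]⟩,⟨0,[(5,
  0)]⟩⟩ ⟨false,1,⟨16,[(0,0),(0,14),(1,12),(4,1),(21,2),(4,8)]⟩,⟨0,[(7,0),(26,0)]⟩⟩,.o ⟨false,0,⟨0,
  [(7,0)]⟩,⟨19,[(0,9),(12,6),(0,6),(15,3),(4,4)]⟩⟩,.o ⟨false,0,⟨0,[(21,0)]⟩,⟨0,[(0,0),(1,0)]⟩⟩]⟩)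
  (.R ⟨0,false,false,false,[0,0,1],[0,1,-1],[],(⟨0,[(23,0)]⟩,⟨0,[(22,0)]⟩),(⟨0,[(12,0)]⟩,⟨0,[(23,0),
  (3,0)]⟩),⟨0,[(12,0)]⟩,.k,.k,.k,(.r (-1) ⟨0,[(1,0),(0,0),(2,0)]⟩ ⟨1,[(3,2),(15,0),(0,0),(10,0),(2,
  0)]⟩),.k,.k,⟨false,1,⟨0,[(1,0),(0,0)]⟩,⟨1,[(3,0),(15,0),(0,0),(10,0),(2,0)]⟩⟩,⟨true,0,⟨0,[(0,0)]⟩,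
  ⟨0,[(20,1)]⟩⟩,⟨true,0,⟨0,[(3,0)]⟩,⟨0,[(9,0)]⟩⟩,⟨false,0,⟨0,[(0,0),(2,1),(27,0)]⟩,⟨15,[(1,14),(6,
  0),(0,0),(8,16),(11,2),(5,8)]⟩⟩,⟨false,0,⟨0,[]⟩,⟨0,[]⟩⟩,⟨false,0,⟨0,[]⟩,⟨0,[]⟩⟩,[.e ⟨false,1,⟨1,
  [(13,0),(0,0),(20,0)]⟩,⟨0,[]⟩⟩ ⟨false,0,⟨0,[(0,0),(2,0),(30,0)]⟩,⟨10,[(1,9),(6,0),(9,1),(1,9),(9,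
  1),(4,4),(0,0)]⟩⟩,.o ⟨false,1,⟨4,[(6,3),(12,0),(10,0),(3,4),(1,2)]⟩,⟨0,[(4,0)]⟩⟩,.o ⟨false,1,⟨19,
  [(8,1),(9,1),(1,17),(9,3),(3,1),(0,8),(0,0)]⟩,⟨0,[(7,0)]⟩⟩,.a ⟨true,0,⟨0,[(20,0)]⟩,⟨0,[(17,0)]⟩⟩
  ⟨false,1,⟨1,[(35,0),(0,0)]⟩,⟨1,[(20,0),(0,0)]⟩⟩ ⟨true,0,⟨0,[(0,0),(2,0),(30,0)]⟩,⟨0,[(4,0),(15,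
  0)]⟩⟩]⟩)) (.Q [0,0,0,-1,0,0,0,0,0,1] (.pp false [-1,1]) (.R ⟨0,false,false,true,[0,0,1],[1,-1,1],
  [0,1,0,-1,0,0,0,1],(⟨0,[(23,0)]⟩,⟨0,[(22,0)]⟩),(⟨0,[(23,0),(3,0)]⟩,⟨0,[(12,0)]⟩),⟨0,[(12,0)]⟩,.k,
  .k,.k,.k,.k,.k,⟨true,0,⟨1,[(20,0),(0,0)]⟩,⟨0,[]⟩⟩,⟨false,0,⟨0,[(22,0),(0,0)]⟩,⟨9,[(13,0),(0,0),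
  (15,1),(4,4)]⟩⟩,⟨true,0,⟨0,[(33,0)]⟩,⟨0,[(34,0)]⟩⟩,⟨false,0,⟨0,[(0,0)]⟩,⟨9,[(13,0),(0,0),(15,1),
  (3,9),(1,4)]⟩⟩,⟨false,0,⟨0,[]⟩,⟨0,[]⟩⟩,⟨false,0,⟨0,[]⟩,⟨0,[]⟩⟩,[.o ⟨false,0,⟨0,[(4,0)]⟩,⟨31,[(1,
  21),(6,9),(1,4),(19,2),(3,19),(1,15)]⟩⟩,.o ⟨false,1,⟨2,[(4,1),(3,0),(0,0),(8,0),(17,1)]⟩,⟨0,[(1,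
  0)]⟩⟩,.o ⟨false,1,⟨19,[(8,1),(9,1),(1,17),(9,3),(3,1),(0,8),(0,0)]⟩,⟨0,[(7,0)]⟩⟩,.a ⟨true,0,⟨0,
  [(20,0)]⟩,⟨0,[(17,0)]⟩⟩ ⟨false,1,⟨5,[(2,1),(1,5),(5,1),(24,0),(0,2)]⟩,⟨0,[(3,0),(27,0)]⟩⟩ ⟨true,0,
  ⟨0,[(4,0),(12,0)]⟩,⟨0,[(1,0),(18,0)]⟩⟩]⟩) (.Q [0,0,0,-1,0,0,-1,-1,0,1,-1] (.p false [0,0,1] [1]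
  (⟨0,[(23,0)]⟩,⟨0,[(22,0)]⟩) .k 1 (⟨0,[]⟩,⟨0,[]⟩) .k .k) (.R ⟨0,false,false,true,[0,0,1],[1,-1],
  [1],(⟨0,[(24,0)]⟩,⟨0,[(23,0)]⟩),(⟨0,[(28,0)]⟩,⟨0,[(29,0)]⟩),⟨0,[(13,0)]⟩,.k,.k,.k,.k,.k,.k,⟨true,
  0,⟨0,[(32,0)]⟩,⟨0,[(34,0)]⟩⟩,⟨false,0,⟨1,[(11,0),(11,0),(0,0)]⟩,⟨1,[(1,1),(2,1),(0,1),(30,0),(0,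
  0)]⟩⟩,⟨true,0,⟨0,[(4,0)]⟩,⟨0,[(10,0)]⟩⟩,⟨false,0,⟨0,[(0,0)]⟩,⟨0,[(1,0),(17,0),(17,0)]⟩⟩,⟨false,0,
  ⟨0,[]⟩,⟨0,[]⟩⟩,⟨false,0,⟨0,[]⟩,⟨0,[]⟩⟩,[.o ⟨false,0,⟨0,[(34,0)]⟩,⟨9,[(14,0),(0,0),(15,1),(3,9),(1,
  4)]⟩⟩,.o ⟨false,1,⟨25,[(5,9),(3,15),(0,5),(0,4),(19,0),(5,7)]⟩,⟨0,[(1,0)]⟩⟩,.o ⟨false,1,⟨19,[(9,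
  1),(9,1),(1,17),(9,3),(3,1),(0,8),(0,0)]⟩,⟨0,[(8,0)]⟩⟩,.a ⟨true,0,⟨0,[(21,0)]⟩,⟨0,[(18,0)]⟩⟩
  ⟨false,1,⟨1,[(36,0),(0,0)]⟩,⟨1,[(21,0),(0,0)]⟩⟩ ⟨true,0,⟨0,[(18,0),(15,0)]⟩,⟨0,[(1,0),(19,
  0)]⟩⟩]⟩) (.Q [0,0,1,0,0,0,2,0,0,0,2] (.p true [0,0,1] [0,1,-1] (⟨0,[(24,0)]⟩,⟨0,[(23,0)]⟩) .k 2
  (⟨0,[(13,0)]⟩,⟨0,[(24,0),(3,0)]⟩) .k (.r (-1) ⟨0,[(10,1),(26,0)]⟩ ⟨0,[(4,1)]⟩)) (.K ⟨0,[0,1,-1],0,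
  0,(⟨0,[(14,0)]⟩,⟨0,[(25,0),(3,0)]⟩),.k,.k,(.x (-1) ⟨2,[(1,3),(2,0),(0,3),(3,1),(9,3),(5,2),(0,4),
  (2,0),(5,3),(2,1)]⟩ ⟨0,[(0,0),(13,0),(8,0),(6,0)]⟩),(.r 0 ⟨2,[(0,0),(4,3),(15,1),(11,1),(2,0)]⟩
  ⟨2,[(1,0),(2,0),(1,3),(0,0),(1,1),(9,1),(18,1)]⟩),.k,[⟨0,[(0,0)]⟩,⟨0,[(9,0)]⟩,⟨0,[(6,0)]⟩,⟨0,[(21,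
  0),(14,0)]⟩]⟩) (.R ⟨0,false,false,false,[0,0,1],[0,1,-1],[1,0,0,0,0,0,0,1],(⟨0,[(25,0)]⟩,⟨0,[(24,
  0)]⟩),(⟨0,[(14,0)]⟩,⟨0,[(25,0),(3,0)]⟩),⟨0,[(14,0)]⟩,.k,.k,.k,(.r (-1) ⟨9,[(0,5),(0,1),(4,11),(4,
  5),(7,1),(17,0),(0,8)]⟩ ⟨1,[(5,2),(15,0),(0,0),(10,0),(2,0)]⟩),.k,.k,⟨false,1,⟨0,[(0,0),(0,0),(3,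
  0),(0,1),(12,0),(18,0)]⟩,⟨1,[(5,2),(15,0),(0,0),(10,0),(2,0)]⟩⟩,⟨true,0,⟨0,[(0,0)]⟩,⟨0,[(22,1)]⟩⟩,
  ⟨true,0,⟨0,[]⟩,⟨0,[(40,0)]⟩⟩,⟨false,0,⟨0,[(0,0),(4,1),(27,0)]⟩,⟨0,[(6,0),(13,0),(17,0)]⟩⟩,⟨false,
  0,⟨0,[]⟩,⟨0,[]⟩⟩,⟨false,0,⟨0,[]⟩,⟨0,[]⟩⟩,[.o ⟨false,0,⟨0,[(3,0)]⟩,⟨2,[(6,1),(3,0),(0,0),(8,0),(17,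
  1)]⟩⟩,.o ⟨false,1,⟨31,[(3,21),(6,9),(1,4),(19,2),(3,19),(1,15)]⟩,⟨0,[(6,0)]⟩⟩,.o ⟨false,1,⟨0,[(1,
  0),(8,0)]⟩,⟨0,[(9,0)]⟩⟩,.a ⟨true,0,⟨0,[(22,0)]⟩,⟨0,[(19,0)]⟩⟩ ⟨false,1,⟨4,[(0,0),(0,1),(4,1),(4,
  0),(7,1),(17,0),(0,3)]⟩,⟨1,[(5,1),(16,0),(0,0)]⟩⟩ ⟨true,0,⟨0,[(3,0),(15,0)]⟩,⟨0,[(6,0),(15,
  0)]⟩⟩]⟩))))))) (.I [1,1,0,-1,0,0,0,1] (.R ⟨2,true,false,true,[0,1],[0,0,1],[0,1,1,1],(⟨0,[]⟩,⟨0,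
  []⟩),(⟨0,[(20,0)]⟩,⟨0,[(19,0)]⟩),⟨0,[]⟩,.k,.k,.k,.k,.k,.k,⟨false,0,⟨0,[(1,0),(15,0),(11,0)]⟩,⟨1,
  [(0,1),(31,0),(0,0)]⟩⟩,⟨true,0,⟨0,[(17,0)]⟩,⟨0,[(4,0)]⟩⟩,⟨true,0,⟨0,[(35,0)]⟩,⟨0,[]⟩⟩,⟨false,1,⟨0,
  [(15,0),(14,0),(2,0)]⟩,⟨0,[(1,0)]⟩⟩,⟨false,0,⟨0,[(31,0)]⟩,⟨0,[(30,0),(2,0)]⟩⟩,⟨true,0,⟨0,[(15,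
  0)]⟩,⟨0,[(3,0)]⟩⟩,[]⟩) (.R ⟨2,true,false,true,[0,1],[0,0,1],[1,1,1],(⟨0,[]⟩,⟨0,[]⟩),(⟨0,[(20,0)]⟩,
  ⟨0,[(19,0)]⟩),⟨0,[]⟩,.k,.k,.k,.k,.k,.k,⟨false,0,⟨0,[(0,0),(29,0)]⟩,⟨1,[(6,1),(25,0),(0,0)]⟩⟩,
  ⟨true,0,⟨0,[(17,0)]⟩,⟨0,[(4,0)]⟩⟩,⟨true,0,⟨0,[(30,0)]⟩,⟨0,[(31,0)]⟩⟩,⟨false,1,⟨0,[(15,0),(14,0),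
  (2,0)]⟩,⟨0,[(1,0)]⟩⟩,⟨false,0,⟨0,[]⟩,⟨1,[(10,0),(0,0),(21,0)]⟩⟩,⟨true,0,⟨0,[(15,0)]⟩,⟨0,[(3,0)]⟩⟩,
  []⟩))))

theorem ok3 : chk K t3 r3 = true := by decide +kernel

noncomputable def t5 : Tre :=
  (.Q [0,-1,0,1,0,0,1,1,0,0,1] (.p true [0,0,1] [] (⟨0,[(16,0)]⟩,⟨0,[(15,0)]⟩) .k 0 (⟨0,[]⟩,⟨0,[]⟩)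
  .k .k) (.I [0,1,-2,-1,1,0,0,-1] (.R ⟨2,true,false,false,[0,1],[0,1,1],[0,1],(⟨0,[]⟩,⟨0,[]⟩),(⟨0,
  [(18,0),(4,0)]⟩,⟨0,[(6,0)]⟩),⟨0,[]⟩,.k,.k,.k,.k,.k,.k,⟨false,1,⟨0,[(0,0)]⟩,⟨0,[(1,0),(14,0)]⟩⟩,
  ⟨true,0,⟨0,[(2,0)]⟩,⟨0,[(16,0)]⟩⟩,⟨false,1,⟨1,[(28,1),(1,0),(0,0)]⟩,⟨0,[(26,0)]⟩⟩,⟨true,0,⟨0,[(1,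
  0),(26,0)]⟩,⟨0,[(14,0)]⟩⟩,⟨true,0,⟨0,[(27,0)]⟩,⟨1,[(15,0),(0,0)]⟩⟩,⟨false,0,⟨0,[(1,0)]⟩,⟨0,[(14,
  0),(13,0),(2,0)]⟩⟩,[]⟩) (.R ⟨2,true,false,false,[0,1],[0,1,1],[0,0,1,1],(⟨0,[]⟩,⟨0,[]⟩),(⟨0,[(18,
  0),(4,0)]⟩,⟨0,[(6,0)]⟩),⟨0,[]⟩,.k,.k,.k,.k,.k,.k,⟨false,1,⟨1,[(2,1),(11,1),(15,0),(0,0)]⟩,⟨16,[(0,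
  4),(0,9),(2,1),(7,9),(12,1),(2,14),(2,0)]⟩⟩,⟨true,0,⟨0,[(2,0)]⟩,⟨0,[(16,0)]⟩⟩,⟨false,1,⟨1,[(8,0),
  (0,0),(21,0)]⟩,⟨0,[]⟩⟩,⟨true,0,⟨0,[(1,0),(26,0)]⟩,⟨0,[(14,0)]⟩⟩,⟨true,0,⟨0,[(29,0)]⟩,⟨0,[(28,
  0)]⟩⟩,⟨false,0,⟨0,[(1,0)]⟩,⟨0,[(14,0),(13,0),(2,0)]⟩⟩,[]⟩)) (.I [0,0,-2,-2,1,0,0,-1] (.K ⟨0,[0,1,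
  1],0,0,(⟨0,[(18,0),(4,0)]⟩,⟨0,[(6,0)]⟩),.k,.k,(.r 0 ⟨0,[(13,0),(2,0),(9,0),(2,0)]⟩ ⟨0,[(0,0)]⟩),
  .k,.k,[⟨1,[(15,0),(0,0)]⟩,⟨0,[(2,0)]⟩,⟨0,[(1,0)]⟩,⟨0,[(13,0),(15,0)]⟩]⟩) (.I [0,0,-2,0,1,-2,1]
  (.K ⟨0,[0,1,1],0,0,(⟨0,[(19,0),(4,0)]⟩,⟨0,[(7,0)]⟩),.k,.k,(.x (-1) ⟨0,[(0,0)]⟩ ⟨1,[(16,0),(0,2),
  (1,1),(4,3)]⟩),.k,.k,[⟨1,[(16,0),(0,0)]⟩,⟨0,[(3,0)]⟩,⟨0,[(2,0)]⟩,⟨0,[(14,0),(15,0)]⟩]⟩) (.I [1,0,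
  0,0,0,0,0,1] (.Q [0,0,0,-1,0,0,0,0,0,1] (.pp false [-1,1]) (.R ⟨0,false,false,false,[0,1,-1],[0,
  1],[0,0,1,0,0,0,0,-1],(⟨0,[(10,0)]⟩,⟨0,[(21,0),(3,0)]⟩),(⟨0,[(26,0)]⟩,⟨0,[(25,0)]⟩),⟨0,[(21,0)]⟩,
  .k,.k,.k,.k,.k,.k,⟨false,1,⟨1,[(4,1),(0,1),(27,0),(0,0)]⟩,⟨1,[(1,0),(1,0),(29,0)]⟩⟩,⟨true,0,⟨0,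
  [(5,0)]⟩,⟨0,[(19,0)]⟩⟩,⟨false,1,⟨5,[(0,4),(0,0),(4,0),(21,0),(5,2)]⟩,⟨0,[(32,0)]⟩⟩,⟨true,0,⟨0,[(1,
  0),(3,0)]⟩,⟨0,[(17,0)]⟩⟩,⟨false,0,⟨0,[]⟩,⟨0,[]⟩⟩,⟨false,0,⟨0,[]⟩,⟨0,[]⟩⟩,[.a ⟨true,0,⟨0,[(32,0)]⟩,
  ⟨0,[(0,0)]⟩⟩ ⟨true,0,⟨0,[(4,0),(0,0),(23,0)]⟩,⟨0,[(1,0)]⟩⟩ ⟨false,0,⟨0,[(5,0),(26,0)]⟩,⟨2,[(0,2),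
  (7,0),(6,0),(12,0),(4,0)]⟩⟩,.o ⟨false,1,⟨9,[(11,0),(0,0),(15,1),(3,9),(1,4)]⟩,⟨0,[(31,0)]⟩⟩,.o
  ⟨false,1,⟨2,[(8,0),(6,0),(12,0),(4,0)]⟩,⟨0,[(18,0)]⟩⟩,.o ⟨false,1,⟨69,[(6,5),(0,5),(0,34),(2,18),
  (0,18),(15,20),(3,5),(1,2)]⟩,⟨0,[(5,0)]⟩⟩]⟩) (.K ⟨0,[0,1,1],0,0,(⟨0,[(21,0),(4,0)]⟩,⟨0,[(9,0)]⟩),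
  .k,.k,(.r 1 ⟨0,[(0,1),(0,0),(0,0),(2,0),(3,1),(11,0)]⟩ ⟨0,[(4,0),(0,0),(25,0),(1,0),(0,0)]⟩),.k,
  .k,[⟨1,[(18,0),(0,0)]⟩,⟨0,[(5,0)]⟩,⟨0,[(4,0)]⟩,⟨0,[(16,0),(15,0)]⟩]⟩)) (.I [1,0,0,1,0,0,0,1] (.Q
  [0,0,0,0,0,0,-1,-1,0,0,-1] (.p false [0,0,1] [] (⟨0,[(21,0)]⟩,⟨0,[(20,0)]⟩) .k 0 (⟨0,[]⟩,⟨0,[]⟩)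
  .k .k) (.R ⟨2,true,false,false,[0,1],[0,1,1],[0,1,1,1],(⟨0,[]⟩,⟨0,[]⟩),(⟨0,[(22,0),(4,0)]⟩,⟨0,
  [(10,0)]⟩),⟨0,[]⟩,.k,.k,.k,.k,.k,.k,⟨false,0,⟨0,[(2,0),(28,0)]⟩,⟨0,[(8,0),(26,0)]⟩⟩,⟨true,0,⟨0,
  [(6,0)]⟩,⟨0,[(20,0)]⟩⟩,⟨true,0,⟨0,[(37,0)]⟩,⟨0,[]⟩⟩,⟨false,1,⟨0,[(17,0),(17,0)]⟩,⟨0,[(0,0)]⟩⟩,
  ⟨false,0,⟨0,[(33,0)]⟩,⟨0,[(32,0),(2,0)]⟩⟩,⟨true,0,⟨0,[(1,0),(4,0)]⟩,⟨0,[(5,0)]⟩⟩,[]⟩) (.R ⟨1,true,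
  false,true,[1,0,-1],[1,-1],[1],(⟨0,[(21,0)]⟩,⟨0,[(22,0)]⟩),(⟨0,[(26,0)]⟩,⟨0,[(27,0)]⟩),⟨0,[(10,
  0)]⟩,.k,.k,.k,.k,.k,.k,⟨true,0,⟨0,[(30,0)]⟩,⟨0,[(32,0)]⟩⟩,⟨false,0,⟨0,[(6,0)]⟩,⟨9,[(9,4),(2,2),(0,
  2),(15,0),(4,4)]⟩⟩,⟨false,1,⟨0,[(8,0),(26,0)]⟩,⟨0,[(2,0)]⟩⟩,⟨true,0,⟨0,[(0,0),(31,0)]⟩,⟨5,[(2,6),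
  (1,1),(11,4),(1,0),(10,0),(0,0),(2,0)]⟩⟩,⟨true,0,⟨0,[(1,0)]⟩,⟨0,[(2,0),(29,0)]⟩⟩,⟨false,0,⟨0,[(0,
  0)]⟩,⟨0,[(18,0),(16,0)]⟩⟩,[]⟩)) (.Q [0,-1,0,1,1,0,1,1,0,-1,1] (.p true [0,0,1] [1] (⟨0,[(21,0)]⟩,
  ⟨0,[(20,0)]⟩) .k 1 (⟨0,[]⟩,⟨0,[]⟩) .k .k) (.R ⟨2,true,false,true,[0,1],[1,0,-1],[0,1,1,1],(⟨0,[]⟩,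
  ⟨0,[]⟩),(⟨0,[(21,0)]⟩,⟨0,[(22,0)]⟩),⟨0,[]⟩,.k,.k,.k,.k,.k,.k,⟨true,0,⟨11,[(0,2),(3,4),(2,0),(1,2),
  (7,4),(2,1),(14,0)]⟩,⟨0,[(1,0)]⟩⟩,⟨false,0,⟨6,[(3,0),(5,1),(2,0),(0,0),(2,1),(4,0),(4,1)]⟩,⟨26,
  [(0,1),(5,24),(0,1),(20,0),(0,4),(4,12)]⟩⟩,⟨true,0,⟨0,[(37,0)]⟩,⟨0,[]⟩⟩,⟨false,0,⟨6,[(1,5),(1,0),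
  (3,0),(1,1),(6,1),(4,0),(4,1)]⟩,⟨0,[(0,0)]⟩⟩,⟨false,0,⟨0,[(33,0)]⟩,⟨0,[(32,0),(2,0)]⟩⟩,⟨true,(-1),
  ⟨0,[(1,1),(2,0),(11,0),(14,0)]⟩,⟨10,[(0,0),(6,0),(0,0),(8,9),(11,1),(5,4)]⟩⟩,[]⟩) (.K ⟨0,[1,-1,1],
  (-1),0,(⟨0,[(22,0),(3,0)]⟩,⟨0,[(11,0)]⟩),.k,(.r (-2) ⟨1,[(0,3),(2,0),(2,7),(1,2),(2,0),(4,5),(0,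
  2),(5,2),(5,1),(5,4)]⟩ ⟨0,[(2,1),(1,0)]⟩),.k,.k,.k,[⟨9,[(12,0),(0,0),(15,1),(4,4)]⟩,⟨1,[(0,0),(2,
  0),(0,0),(1,3),(3,0),(12,0),(8,0),(2,0)]⟩,⟨2,[(0,1),(17,0),(10,0),(3,4)]⟩,⟨0,[(0,0),(16,1),(17,
  0)]⟩]⟩)))))))

theorem ok5 : chk K t5 r2 = true := by decide +kernel

noncomputable def t4 : Tre :=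
  .Q [0,0,0,0,0,0,1,1,0,0,1] (.p true [0,0,1] [] (⟨0,[(16,0)]⟩,⟨0,[(15,0)]⟩) .k 0 (⟨0,[]⟩,⟨0,[]⟩)
  .k .k) t2 t3

theorem ok4 : chk K t4 l2 = true :=
  chk_Q (e' := [0,0,0,0,0,0,-1,-1,0,0,-1]) (by decide +kernel) (by decide +kernel) ok2 ok3

noncomputable def t6 : Tre :=
  .Q [0,0,0,0,0,0,-1,0,0,0,-1] (.p false [0,0,1] [] (⟨0,[(15,0)]⟩,⟨0,[(14,0)]⟩) .k 0 (⟨0,[]⟩,⟨0,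
  []⟩) .k .k) t4 t5

theorem ok6 : chk K t6 r1 = true :=
  chk_Q (e' := [0,0,0,0,0,0,1,0,0,0,1]) (by decide +kernel) (by decide +kernel) ok4 ok5

noncomputable def t7 : Tre :=
  .I [1,0,0,1,-1,0,0,1] t1 t6

theorem ok7 : chk K t7 r0 = true :=
  chk_I (e' := [0,0,0,-1,1,0,0,-1]) (by decide +kernel) (by decide +kernel) ok1 ok6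

noncomputable def t8 : Tre :=
  .I [1,-1,0,0,0,0,0,-1] t0 t7

theorem ok8 : chk K t8 base = true :=
  chk_I (e' := [0,1,0,0,0,0,0,1]) (by decide +kernel) (by decide +kernel) ok0 ok7

theorem closed {p a b c J l q : ℤ} {D dl : ℝ} {Cl : ℤ → ℤ → ℤ → ℤ → ℝ → Prop}
    (W : World p a b c J 1 l q D dl Cl) (g : G0 p a b c J D)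
    {N X R : ℤ} {I : ℝ} (hk : KCl p l Cl N X R I) (kz : KF a b D (X + (1 : ℤ) * I) (X + (1 : ℤ) * I + R) I)
    {Ne Xe : ℤ} {Ie : ℝ} (he : EFac p 1 D Cl 1 Ne Xe Ie)
    (hkf : ∀ kf ∈ (kfY 1 [0,0,0,0,0,0,1,0,0,0,1]), KOk p l Cl 1
      (xv [1, a, b, c, p, J, X, R, Xe] [D, I, Ie]) N kf)
    (h0 : 1 ≤ (c : ℝ))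
    (h1 : 1 ≤ (a : ℝ) - (b : ℝ))
    (h2 : 1 ≤ 1 - (a : ℝ) + (b : ℝ) + (c : ℝ))
    (h3 : 0 < 1 + 2 * (p : ℝ) - 5 * D)
    (h4 : 1 ≤ 2 * (a : ℝ) - (b : ℝ))
    (h5 : 1 ≤ -1 + (J : ℝ))
    (h6 : 1 ≤ 3 - (J : ℝ))
    (h7 : 0 < -(b : ℝ) - (X : ℝ) + D - I)
    (h8 : 0 < (J : ℝ) - I)
    (h9 : 0 < -(J : ℝ) + D - I)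
    (h10 : 0 < -2 * (X : ℝ) + D - 2 * I) : False := by
  have g1 := g.a2
  have g2 := g.b2
  have g3 := g.pa
  have g4 := g.pb
  have g5 := g.J1
  have g6 := g.JD
  have g7 := g.D2
  have g8 := g.ca
  have g9 := g.ca'
  have k1 := kz.I0
  have k2 := kz.ID
  have k3 := kz.z1
  have k4 := kz.z2
  have k5 := kz.s1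
  have k6 := kz.s2
  have e1 := he.I0
  have e2 := he.ID
  have e3 := he.x0
  have e4 := he.xp
  push_cast at *
  refine (val_E W.toBase hk he (row := [1]) (by simp) (by simp) (kfY 1 [0,0,0,0,0,0,1,0,0,0,1])).sound W rfl (Nk := N)
    (fun kf _ _ => ⟨_, rfl⟩) hkf ?_ ok8
  · simp only [base, List.forall_mem_cons, List.not_mem_nil, false_imp_iff, implies_true,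
      and_true, hld, xv, evg_cons, evg_nil, List.map_cons, List.map_nil, List.cons_append,
      List.nil_append, if_true, if_false, Bool.false_eq_true]
    push_cast
    refine ⟨?_, ?_, ?_, ?_, ?_, ?_, ?_, ?_, ?_, ?_, ?_, ?_, ?_, ?_, ?_, ?_, ?_, ?_, ?_, ?_, ?_, ?_, ?_, ?_, ?_, ?_, ?_, ?_, ?_⟩ <;> linarith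

end Helper48.Y.Y11_c2_P2_m0n1

namespace Helper48.Y.Y11_c2_P2_m1n1

open Helper25.KG Helper25.KW Helper55.KE Helper11.CT

noncomputable def K : Cls :=
  cE 1 [1] (kfY 1 [0,0,0,0,0,0,1,0,0,0,1])

noncomputable def base : List Con :=
  [(false,[0,0,0,0,0,0,-2,0,0,1,-2]),
  (false,[0,0,0,0,0,-1,0,0,0,1,-1]),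
  (false,[0,0,0,0,0,-1,0,0,0,0,1]),
  (false,[0,0,0,0,1,0,0,0,-1,0,0,-1]),
  (false,[0,0,0,0,0,0,0,0,1,0,0,1]),
  (false,[0,0,0,0,0,0,0,0,0,1,0,-1]),
  (false,[0,0,0,0,0,0,0,0,0,0,0,1]),
  (false,[0,0,-1,0,0,0,-1,0,0,1,-1]),
  (false,[0,1,0,0,0,0,1,1,0,0,1]),
  (false,[0,1,0,0,0,0,-1,-1,0,0,-1]),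
  (false,[0,0,1,0,0,0,1,0,0,0,1]),
  (false,[0,0,1,0,0,0,-1,0,0,0,-1]),
  (false,[0,0,0,0,0,0,0,0,0,1,-1]),
  (false,[0,0,0,0,0,0,0,0,0,0,1]),
  (true,[3,0,0,0,0,-1]),
  (true,[-1,0,0,0,0,1]),
  (false,[0,0,0,0,1,0,0,0,0,-2]),
  (false,[0,0,0,0,0,-1,0,0,0,1]),
  (true,[0,0,0,0,0,1]),
  (true,[0,2,-1]),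
  (false,[1,0,0,0,2,0,0,0,0,-5]),
  (true,[1,-1,1,1]),
  (true,[0,1,-1]),
  (true,[0,1,0,-1]),
  (true,[0,0,0,1]),
  (true,[0,0,-2,0,1]),
  (true,[0,-2,0,0,1]),
  (true,[-1,0,1]),
  (true,[-1,1])]

noncomputable def l0 : List Con := (true, [0,1,0,0,0,0,0,1]) :: base

noncomputable def r0 : List Con := (true, [1,-1,0,0,0,0,0,-1]) :: base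

noncomputable def l1 : List Con := (false, [0,0,0,0,0,0,1,1,0,-1,1]) :: l0

noncomputable def r1 : List Con := (false, [0,0,0,0,0,0,-1,-1,0,1,-1]) :: l0

noncomputable def l2 : List Con := (false, [0,0,0,0,0,0,1,1,0,0,1]) :: r1

noncomputable def r2 : List Con := (false, [0,0,0,0,0,0,-1,-1,0,0,-1]) :: r1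

noncomputable def t0 : Tre :=
  (.Q [0,0,0,0,0,0,-1,0,0,0,-1] (.p false [0,0,1] [] (⟨0,[(15,0)]⟩,⟨0,[(14,0)]⟩) .k 0 (⟨0,[]⟩,⟨0,
  []⟩) .k .k) (.S ⟨1,0,[0,0,0,0,0,0,0,1],[0,0,1],[0,1,0,0,0,0,0,1],(⟨0,[(16,0)]⟩,⟨0,[(15,0)]⟩),⟨0,
  [(5,0)]⟩,.k,.k,⟨true,0,⟨0,[(31,0)]⟩,⟨0,[]⟩⟩,⟨false,1,⟨1,[(6,0),(0,0),(21,0)]⟩,⟨0,[]⟩⟩,⟨false,0,⟨0,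
  [(27,0)]⟩,⟨0,[(26,0),(2,0)]⟩⟩,⟨true,0,⟨0,[(27,0)]⟩,⟨0,[(26,0)]⟩⟩,[.o ⟨false,0,⟨0,[(1,0)]⟩,⟨1,[(6,
  0),(0,0),(4,1),(16,0)]⟩⟩,.o ⟨false,1,⟨8,[(1,3),(9,4),(11,0),(5,6)]⟩,⟨0,[(12,0)]⟩⟩,.o ⟨false,1,⟨9,
  [(6,0),(0,0),(5,9),(9,1),(4,4)]⟩,⟨0,[(0,0)]⟩⟩,.a ⟨true,0,⟨0,[(13,0)]⟩,⟨0,[(10,0)]⟩⟩ ⟨false,0,⟨0,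
  [(1,0),(8,0)]⟩,⟨0,[(12,0),(0,0),(15,0)]⟩⟩ ⟨true,0,⟨0,[(1,0),(8,0)]⟩,⟨0,[(12,0),(0,0)]⟩⟩]⟩) (.R ⟨2,
  true,false,false,[0,1],[0,1,1],[0,0,1,1],(⟨0,[]⟩,⟨0,[]⟩),(⟨0,[(16,0),(4,0)]⟩,⟨0,[(4,0)]⟩),⟨0,[]⟩,
  .k,.k,.k,.k,.k,.k,⟨false,1,⟨1,[(0,1),(11,1),(15,0),(0,0)]⟩,⟨1,[(1,1),(1,0),(11,0),(0,0)]⟩⟩,⟨true,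
  0,⟨0,[(0,0)]⟩,⟨0,[(14,0)]⟩⟩,⟨false,1,⟨1,[(6,0),(0,0),(21,0)]⟩,⟨0,[]⟩⟩,⟨true,0,⟨0,[(1,0),(13,0),(0,
  0)]⟩,⟨0,[(12,0)]⟩⟩,⟨true,0,⟨0,[(27,0)]⟩,⟨0,[(26,0)]⟩⟩,⟨false,0,⟨0,[(0,0),(0,0),(8,0),(13,0)]⟩,⟨0,
  [(12,0),(13,0),(2,0)]⟩⟩,[]⟩))

theorem ok0 : chk K t0 l1 = true := by decide +kernel

noncomputable def t1 : Tre :=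
  (.Q [0,0,0,0,0,0,-1,0,0,0,-1] (.p false [0,0,1] [] (⟨0,[(16,0)]⟩,⟨0,[(15,0)]⟩) .k 0 (⟨0,[]⟩,⟨0,
  []⟩) .k .k) (.Q [0,0,0,1,0,0,-1,-1,0,0,-1] (.p false [0,0,1] [] (⟨0,[(17,0)]⟩,⟨0,[(16,0)]⟩) .k 0
  (⟨0,[]⟩,⟨0,[]⟩) .k .k) (.I [1,1,0,0,0,0,0,-1] (.R ⟨2,true,false,false,[0,1],[0,0,1],[1,1,1],(⟨0,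
  []⟩,⟨0,[]⟩),(⟨0,[(19,0)]⟩,⟨0,[(18,0)]⟩),⟨0,[]⟩,.k,.k,.k,.k,.k,.k,⟨false,0,⟨0,[(0,0)]⟩,⟨11,[(3,9),
  (1,1),(7,9),(12,1),(4,0),(0,6)]⟩⟩,⟨true,0,⟨0,[(16,0)]⟩,⟨0,[(2,0)]⟩⟩,⟨true,0,⟨0,[(29,0)]⟩,⟨0,[(30,
  0)]⟩⟩,⟨false,1,⟨0,[(3,0),(25,0),(2,0)]⟩,⟨0,[(1,0)]⟩⟩,⟨false,0,⟨0,[]⟩,⟨1,[(9,0),(0,0),(21,0)]⟩⟩,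
  ⟨true,0,⟨0,[(3,0)]⟩,⟨0,[(15,0)]⟩⟩,[]⟩) (.R ⟨2,true,false,false,[0,1],[0,0,1],[0,1,1,1],(⟨0,[]⟩,⟨0,
  []⟩),(⟨0,[(19,0)]⟩,⟨0,[(18,0)]⟩),⟨0,[]⟩,.k,.k,.k,.k,.k,.k,⟨false,0,⟨0,[(1,0),(14,0),(11,0)]⟩,⟨1,
  [(0,1),(28,1),(1,0),(0,0)]⟩⟩,⟨true,0,⟨0,[(16,0)]⟩,⟨0,[(2,0)]⟩⟩,⟨true,0,⟨0,[(34,0)]⟩,⟨0,[]⟩⟩,
  ⟨false,1,⟨0,[(3,0),(25,0),(2,0)]⟩,⟨0,[(1,0)]⟩⟩,⟨false,0,⟨0,[(30,0)]⟩,⟨0,[(29,0),(2,0)]⟩⟩,⟨true,0,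
  ⟨0,[(3,0)]⟩,⟨0,[(15,0)]⟩⟩,[]⟩)) (.I [1,-1,0,0,1,0,0,-1] (.I [0,0,-1,0,0,0,0,1] (.S ⟨1,0,[0,0,0,0,
  0,0,0,1],[0,0,1],[0,1,0,0,0,0,0,1],(⟨0,[(20,0)]⟩,⟨0,[(19,0)]⟩),⟨0,[(9,0)]⟩,.k,.k,⟨true,0,⟨0,[(35,
  0)]⟩,⟨0,[]⟩⟩,⟨false,1,⟨1,[(10,0),(0,0),(21,0)]⟩,⟨0,[]⟩⟩,⟨false,0,⟨0,[(31,0)]⟩,⟨0,[(30,0),(2,0)]⟩⟩,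
  ⟨true,0,⟨0,[(31,0)]⟩,⟨0,[(30,0)]⟩⟩,[.e ⟨false,0,⟨2,[(0,1),(5,0),(19,0)]⟩,⟨0,[(1,0)]⟩⟩ ⟨false,0,⟨0,
  [(0,0)]⟩,⟨0,[(1,0),(33,0)]⟩⟩,.o ⟨false,1,⟨4,[(4,3),(10,0),(11,0),(5,2)]⟩,⟨0,[(16,0)]⟩⟩,.o ⟨false,
  1,⟨4,[(1,0),(13,0),(1,3),(9,0),(4,1)]⟩,⟨0,[(3,0)]⟩⟩,.a ⟨true,0,⟨0,[(17,0)]⟩,⟨0,[(14,0)]⟩⟩ ⟨false,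
  0,⟨0,[(0,0)]⟩,⟨1,[(1,1),(15,0),(0,0)]⟩⟩ ⟨true,0,⟨0,[(0,0)]⟩,⟨0,[(16,0),(0,0)]⟩⟩]⟩) (.Q [0,-1,0,1,
  0,0,-1,-1,0,1,-1] (.p false [0,0,1] [1] (⟨0,[(20,0)]⟩,⟨0,[(19,0)]⟩) .k 1 (⟨0,[]⟩,⟨0,[]⟩) .k .k)
  (.S ⟨1,0,[0,0,1,1,0,0,0,-1],[1,1,-1],[1,1,1,0,0,0,0,-1],(⟨0,[(20,0),(5,0)]⟩,⟨0,[(10,0)]⟩),⟨0,[(20,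
  0)]⟩,.k,.k,⟨true,0,⟨0,[(31,0)]⟩,⟨0,[(32,0)]⟩⟩,⟨false,1,⟨1,[(11,0),(0,0),(21,0)]⟩,⟨0,[]⟩⟩,⟨false,0,
  ⟨0,[]⟩,⟨1,[(11,0),(0,0),(21,0)]⟩⟩,⟨true,0,⟨0,[(32,0)]⟩,⟨0,[(31,0)]⟩⟩,[.a ⟨true,0,⟨0,[(6,0),(25,
  0)]⟩,⟨0,[(3,0)]⟩⟩ ⟨false,0,⟨0,[(1,0),(28,0)]⟩,⟨11,[(5,9),(1,1),(7,9),(12,1),(4,0),(0,6)]⟩⟩ ⟨true,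
  0,⟨0,[(1,0),(30,0)]⟩,⟨0,[(3,0),(0,0)]⟩⟩,.a ⟨true,0,⟨0,[(0,0)]⟩,⟨1,[(3,0),(12,0),(14,0)]⟩⟩ ⟨true,0,
  ⟨0,[(1,0)]⟩,⟨0,[(4,0),(0,0)]⟩⟩ ⟨false,1,⟨0,[(2,0),(29,0)]⟩,⟨0,[(3,0),(0,0),(25,0)]⟩⟩,.a ⟨true,0,
  ⟨0,[(15,0)]⟩,⟨0,[(18,0)]⟩⟩ ⟨false,0,⟨0,[(1,0)]⟩,⟨11,[(5,9),(1,1),(7,9),(12,1),(4,0),(0,6)]⟩⟩
  ⟨true,0,⟨0,[(1,0),(30,0)]⟩,⟨0,[(3,0),(0,0),(25,0)]⟩⟩,.o ⟨false,0,⟨0,[(4,0)]⟩,⟨4,[(2,0),(13,0),(1,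
  3),(9,0),(4,1)]⟩⟩]⟩) (.Q [0,0,0,2,0,0,-1,-1,0,0,-1] (.p false [0,0,1] [] (⟨0,[(21,0)]⟩,⟨0,[(20,
  0)]⟩) .k 0 (⟨0,[]⟩,⟨0,[]⟩) .k .k) (.R ⟨1,true,false,false,[0,0,1],[0,1],[0,1,0,0,0,0,0,1],(⟨0,
  [(22,0)]⟩,⟨0,[(21,0)]⟩),(⟨0,[(27,0)]⟩,⟨0,[(26,0)]⟩),⟨0,[(11,0)]⟩,.k,.k,.k,.k,(.x 0 ⟨0,[(1,0),(0,
  0),(18,0),(5,1),(2,0)]⟩ ⟨7,[(10,1),(0,9),(4,7),(6,3),(5,1),(1,5),(2,0),(0,2)]⟩),.k,⟨true,0,⟨0,[(1,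
  0),(14,0)]⟩,⟨0,[(2,0),(27,0)]⟩⟩,⟨false,1,⟨5,[(9,0),(6,3),(12,0),(4,3)]⟩,⟨0,[(19,0)]⟩⟩,⟨true,0,⟨0,
  [(37,0)]⟩,⟨0,[]⟩⟩,⟨false,1,⟨19,[(0,9),(2,9),(5,4),(2,2),(0,2),(15,0),(5,4)]⟩,⟨0,[(4,0)]⟩⟩,⟨false,
  0,⟨0,[(33,0)]⟩,⟨0,[(32,0),(2,0)]⟩⟩,⟨true,0,⟨0,[(0,0)]⟩,⟨0,[(4,0),(27,0)]⟩⟩,[]⟩) (.Q [0,0,-1,0,1,0,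
  1,0,0,-1,1] (.p true [0,0,1] [1] (⟨0,[(22,0)]⟩,⟨0,[(21,0)]⟩) .k 1 (⟨0,[]⟩,⟨0,[]⟩) .k .k) (.S ⟨1,0,
  [0,0,0,0,0,0,0,-1],[1,0,-1],[0,1,0,0,0,0,0,-1],(⟨0,[(22,0)]⟩,⟨0,[(23,0)]⟩),⟨0,[(11,0)]⟩,.k,.k,
  ⟨true,0,⟨0,[(38,0)]⟩,⟨0,[]⟩⟩,⟨false,1,⟨1,[(13,0),(0,0),(21,0)]⟩,⟨0,[]⟩⟩,⟨false,0,⟨0,[(34,0)]⟩,⟨19,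
  [(1,9),(2,9),(5,4),(2,2),(0,2),(15,0),(5,4)]⟩⟩,⟨true,0,⟨0,[(34,0)]⟩,⟨0,[(33,0)]⟩⟩,[.a ⟨true,0,⟨0,
  [(8,0)]⟩,⟨0,[(7,0)]⟩⟩ ⟨true,0,⟨0,[(3,0),(28,0)]⟩,⟨1,[(1,0),(4,1),(0,0),(23,1)]⟩⟩ ⟨false,1,⟨0,[(0,
  0),(7,0)]⟩,⟨0,[(6,0),(0,0)]⟩⟩,.o ⟨false,1,⟨5,[(4,1),(3,3),(1,0),(19,0),(5,1)]⟩,⟨0,[(2,0),(31,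
  0)]⟩⟩,.o ⟨false,0,⟨0,[(6,0)]⟩,⟨14,[(0,4),(3,5),(13,5),(1,3),(9,1),(6,0)]⟩⟩,.o ⟨false,0,⟨0,[(21,
  0)]⟩,⟨0,[(0,0)]⟩⟩]⟩) (.Q [0,0,-2,0,1,0,-1,-1,0,0,-1] (.p false [0,0,1] [] (⟨0,[(23,0)]⟩,⟨0,[(22,
  0)]⟩) .k 0 (⟨0,[]⟩,⟨0,[]⟩) .k .k) (.R ⟨1,false,false,false,[1,-1],[1,0,-1],[0,1,-1,-1],(⟨0,[(28,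
  0)]⟩,⟨0,[(29,0)]⟩),(⟨0,[(23,0)]⟩,⟨0,[(24,0)]⟩),⟨0,[(12,0),(0,0)]⟩,.k,.k,(.r (-1) ⟨0,[(0,0),(1,
  0)]⟩ ⟨0,[(32,1),(6,1)]⟩),.k,(.r (-1) ⟨5,[(2,5),(8,0),(6,3),(12,0),(4,3)]⟩ ⟨0,[(4,0),(27,0),(2,0),
  (3,0)]⟩),.k,⟨true,0,⟨0,[(3,0),(14,0)]⟩,⟨0,[(4,0),(27,0)]⟩⟩,⟨false,1,⟨5,[(11,0),(6,3),(12,0),(4,
  3)]⟩,⟨0,[(21,0)]⟩⟩,⟨true,0,⟨0,[(39,0)]⟩,⟨0,[]⟩⟩,⟨false,1,⟨15,[(0,3),(4,9),(5,4),(8,1),(10,0),(0,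
  7),(2,7)]⟩,⟨0,[(6,0)]⟩⟩,⟨false,0,⟨0,[(35,0)]⟩,⟨19,[(2,9),(2,9),(5,4),(2,2),(0,2),(15,0),(5,4)]⟩⟩,
  ⟨false,1,⟨15,[(0,3),(4,9),(5,4),(8,1),(10,0),(0,7),(2,23)]⟩,⟨0,[(2,0)]⟩⟩,[.e ⟨false,1,⟨0,[(34,0),
  (1,0)]⟩,⟨0,[(32,0)]⟩⟩ ⟨false,1,⟨0,[(0,0)]⟩,⟨5,[(2,1),(16,3),(1,0),(0,0),(9,3)]⟩⟩,.o ⟨false,1,⟨5,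
  [(5,1),(3,3),(1,0),(19,0),(5,1)]⟩,⟨0,[(3,0),(31,0)]⟩⟩,.o ⟨false,0,⟨1,[(21,0),(0,0)]⟩,⟨9,[(14,0),
  (0,0),(15,1),(4,4)]⟩⟩,.a ⟨true,(-1),⟨0,[(1,0),(19,0)]⟩,⟨0,[(36,0)]⟩⟩ ⟨false,1,⟨1,[(0,0),(1,0),(33,
  0)]⟩,⟨1,[(21,0),(0,0),(9,1)]⟩⟩ ⟨true,1,⟨0,[(0,0)]⟩,⟨0,[(1,0),(1,0),(17,0),(13,0)]⟩⟩]⟩) (.I [0,-1,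
  0,1,0,0,0,1] (.R ⟨1,false,false,false,[1,0,-1],[1,-1],[],(⟨0,[(24,0)]⟩,⟨0,[(25,0)]⟩),(⟨0,[(29,
  0)]⟩,⟨0,[(30,0)]⟩),⟨0,[(13,0)]⟩,.k,.k,.k,.k,.k,.k,⟨false,0,⟨0,[(36,0)]⟩,⟨29,[(3,9),(2,9),(5,4),(2,
  2),(0,2),(15,0),(2,9),(1,14)]⟩⟩,⟨true,0,⟨0,[(22,0)]⟩,⟨0,[(8,0)]⟩⟩,⟨true,0,⟨6,[(0,2),(2,0),(0,0),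
  (6,1),(0,0)]⟩,⟨0,[(5,0),(28,0)]⟩⟩,⟨true,0,⟨0,[(7,0)]⟩,⟨0,[(21,0),(14,0)]⟩⟩,⟨false,0,⟨0,[(0,0)]⟩,
  ⟨0,[(6,0),(28,0)]⟩⟩,⟨true,0,⟨0,[(9,0)]⟩,⟨0,[(21,0)]⟩⟩,[.e ⟨false,1,⟨1,[(15,0),(0,0),(20,0)]⟩,⟨0,
  []⟩⟩ ⟨false,1,⟨1,[(3,0),(1,0),(16,0),(14,1)]⟩,⟨0,[(0,0),(20,0)]⟩⟩,.o ⟨false,1,⟨19,[(3,9),(2,9),(5,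
  4),(2,2),(0,2),(15,0),(5,4)]⟩,⟨3,[(1,0),(0,0),(2,0),(26,0),(1,3),(1,3)]⟩⟩,.o ⟨false,0,⟨0,[(8,0)]⟩,
  ⟨4,[(6,0),(13,0),(1,3),(9,0),(4,1)]⟩⟩,.a ⟨true,(-1),⟨0,[(2,0)]⟩,⟨0,[(22,0),(14,0)]⟩⟩ ⟨false,1,⟨1,
  [(37,0),(0,0)]⟩,⟨1,[(22,0),(0,0)]⟩⟩ ⟨true,1,⟨1,[(3,0),(1,0),(16,0),(14,1)]⟩,⟨3,[(1,0),(0,4),(2,0),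
  (26,0),(1,3),(1,3)]⟩⟩]⟩) (.I [0,0,-2,-2,1] (.S ⟨1,0,[0,0,-1,-1],[1,-1],[0,1,-1,-1],(⟨0,[(30,0)]⟩,
  ⟨0,[(31,0)]⟩),⟨0,[(14,0),(0,0)]⟩,.k,(.r (-1) ⟨0,[(0,0)]⟩ ⟨0,[(34,1),(6,1)]⟩),⟨true,0,⟨0,[(41,0)]⟩,
  ⟨0,[]⟩⟩,⟨false,1,⟨1,[(16,0),(0,0),(21,0)]⟩,⟨0,[]⟩⟩,⟨false,0,⟨0,[(37,0)]⟩,⟨5,[(0,0),(3,1),(2,1),(8,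
  0),(0,0),(6,1),(14,1)]⟩⟩,⟨true,0,⟨0,[(37,0)]⟩,⟨0,[(36,0)]⟩⟩,[.e ⟨false,1,⟨3,[(0,1),(15,0),(0,0),
  (14,1),(5,0)]⟩,⟨0,[(34,0)]⟩⟩ ⟨false,1,⟨1,[(0,0),(37,0)]⟩,⟨0,[(34,0),(6,0)]⟩⟩,.o ⟨false,1,⟨5,[(0,
  0),(3,1),(2,1),(8,0),(0,0),(6,1),(14,1)]⟩,⟨3,[(1,0),(0,0),(0,0),(29,0),(1,2),(1,4)]⟩⟩,.o ⟨false,0,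
  ⟨1,[(23,0),(0,0)]⟩,⟨9,[(16,0),(0,0),(15,1),(4,4)]⟩⟩,.a ⟨true,(-1),⟨0,[(2,0),(8,0)]⟩,⟨0,[(38,0)]⟩⟩
  ⟨false,1,⟨1,[(0,0),(37,0)]⟩,⟨1,[(23,0),(0,0),(9,1)]⟩⟩ ⟨true,1,⟨1,[(0,0),(37,0)]⟩,⟨0,[(2,0),(19,0),
  (14,0)]⟩⟩]⟩) (.Q [-1,1,0,0,0,0,0,0,-1,0,0,-1] (.p false [0,0,0,0,1] [] (⟨0,[(19,0)]⟩,⟨0,[(18,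
  0)]⟩) .k 0 (⟨0,[]⟩,⟨0,[]⟩) .k .k) (.Q [-1,0,0,0,0,0,0,0,-1,1,0,-1] (.p false [0,0,0,0,1] [1] (⟨0,
  [(20,0)]⟩,⟨0,[(19,0)]⟩) .k 1 (⟨0,[]⟩,⟨0,[]⟩) .k .k) (.Q [0,0,0,0,0,-1,0,0,0,1,0,-1] (.ed true [0,
  1,0,0,1] .k) (.S ⟨1,0,[-1,1],[1,0,0,0,-1],[-1],(⟨0,[(21,0)]⟩,⟨0,[(22,0)]⟩),⟨0,[(0,0)]⟩,.k,(.r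
  (-1) ⟨35,[(7,9),(2,9),(5,4),(2,2),(0,2),(15,0),(2,15),(1,17),(0,2)]⟩ ⟨1,[(3,0),(15,0),(0,0)]⟩),
  ⟨false,1,⟨1,[(19,0),(0,0),(21,0)]⟩,⟨0,[]⟩⟩,⟨true,0,⟨0,[(44,0)]⟩,⟨0,[]⟩⟩,⟨true,0,⟨0,[(40,0)]⟩,⟨0,
  [(39,0)]⟩⟩,⟨false,0,⟨0,[(40,0)]⟩,⟨19,[(7,9),(2,9),(5,4),(2,2),(0,2),(15,0),(5,4)]⟩⟩,[.o ⟨false,0,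
  ⟨0,[(2,0)]⟩,⟨9,[(19,0),(0,10),(15,1),(5,4)]⟩⟩,.e ⟨false,1,⟨0,[(38,0),(3,0)]⟩,⟨0,[(44,0)]⟩⟩ ⟨false,
  1,⟨4,[(19,1),(0,1),(20,2),(1,0)]⟩,⟨0,[]⟩⟩,.a ⟨true,0,⟨0,[(1,0)]⟩,⟨0,[(20,0)]⟩⟩ ⟨false,1,⟨9,[(19,
  3),(0,3),(20,0),(0,4),(0,1)]⟩,⟨0,[]⟩⟩ ⟨true,0,⟨0,[(44,0)]⟩,⟨0,[]⟩⟩,.o ⟨false,0,⟨3,[(1,3),(3,0),(0,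
  0),(2,0),(26,0)]⟩,⟨9,[(19,0),(0,10),(15,1),(4,4)]⟩⟩]⟩) (.Q [0,0,1,0,0,0,0,0,1,-1,0,1] (.p true [0,
  0,0,0,1] [1] (⟨0,[(22,0)]⟩,⟨0,[(21,0)]⟩) .k 1 (⟨0,[]⟩,⟨0,[]⟩) .k .k) (.S ⟨1,0,[1],[0,0,0,0,1],[0,
  1],(⟨0,[(23,0)]⟩,⟨0,[(22,0)]⟩),⟨0,[(1,0),(16,0),(0,0)]⟩,.k,(.r (-1) ⟨29,[(8,9),(2,9),(5,4),(2,2),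
  (0,2),(15,0),(2,9),(1,14)]⟩ ⟨9,[(4,4),(15,2),(0,2),(20,1),(1,3)]⟩),⟨true,0,⟨0,[(45,0)]⟩,⟨0,[]⟩⟩,
  ⟨false,1,⟨1,[(20,0),(0,0),(21,0)]⟩,⟨0,[]⟩⟩,⟨false,0,⟨1,[(4,0),(34,1),(3,0)]⟩,⟨19,[(8,9),(2,9),(5,
  4),(2,2),(0,2),(15,0),(5,4)]⟩⟩,⟨true,0,⟨0,[(41,0)]⟩,⟨0,[(40,0)]⟩⟩,[.a ⟨true,0,⟨0,[(21,0)]⟩,⟨0,[(2,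
  0)]⟩⟩ ⟨false,0,⟨0,[(39,0)]⟩,⟨1,[(20,0),(0,0),(21,0)]⟩⟩ ⟨true,0,⟨0,[]⟩,⟨1,[(27,0),(0,0)]⟩⟩,.o
  ⟨false,1,⟨9,[(20,0),(0,10),(15,1),(5,4)]⟩,⟨0,[(3,0)]⟩⟩,.e ⟨true,0,⟨0,[(45,0)]⟩,⟨0,[]⟩⟩ ⟨true,0,⟨0,
  []⟩,⟨0,[(45,0)]⟩⟩,.o ⟨false,0,⟨0,[(0,0)]⟩,⟨5,[(2,4),(17,0),(16,0),(4,2)]⟩⟩]⟩) (.I [0,0,-1,0,0,1,0,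
  0,-1] (.I [0,0,1,0,0,0,0,-1] (.C [(0,0),(1,3),(5,0),(0,0),(13,3),(15,0)]) (.C [(0,0),(1,3),(3,0),
  (0,1),(0,0),(0,0),(13,3),(15,0),(5,0)])) (.C [(0,0),(0,0),(0,0)])))) (.R ⟨1,false,false,false,[0,
  0,1],[0,0,0,0,1],[1,0,0,-1,0,0,0,1],(⟨0,[(28,0)]⟩,⟨0,[(27,0)]⟩),(⟨0,[(21,0)]⟩,⟨0,[(20,0)]⟩),⟨0,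
  [(17,0)]⟩,.k,.k,.k,.k,(.r (-1) ⟨19,[(6,9),(7,9),(0,4),(2,2),(0,2),(15,0),(4,9),(0,4)]⟩ ⟨0,[(8,0),
  (30,0)]⟩),.k,⟨true,0,⟨1,[(6,0),(4,1),(0,0)]⟩,⟨0,[(8,0),(30,0)]⟩⟩,⟨false,0,⟨2,[(0,2),(4,0),(16,1),
  (14,1),(3,0)]⟩,⟨0,[(1,0),(7,0),(2,0)]⟩⟩,⟨false,1,⟨19,[(6,9),(2,9),(5,4),(2,2),(0,2),(15,0),(5,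
  4)]⟩,⟨0,[(39,0)]⟩⟩,⟨true,0,⟨0,[(0,0),(12,0)]⟩,⟨0,[(1,0),(10,0)]⟩⟩,⟨true,0,⟨0,[]⟩,⟨0,[(43,0)]⟩⟩,
  ⟨true,0,⟨0,[(0,0),(12,0),(25,0)]⟩,⟨1,[(1,1),(4,0),(5,0)]⟩⟩,[.o ⟨false,0,⟨0,[(0,0)]⟩,⟨3,[(1,0),(16,
  2),(22,0),(1,0)]⟩⟩,.o ⟨false,1,⟨9,[(18,0),(0,10),(15,1),(5,4)]⟩,⟨0,[(1,0)]⟩⟩,.o ⟨false,1,⟨4,[(9,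
  0),(13,0),(1,3),(9,0),(4,1)]⟩,⟨0,[(11,0)]⟩⟩,.a ⟨true,0,⟨0,[(25,0)]⟩,⟨0,[(22,0)]⟩⟩ ⟨false,1,⟨11,
  [(6,5),(5,3),(1,1),(7,9),(12,1),(4,0),(0,6)]⟩,⟨0,[(8,0),(30,0)]⟩⟩ ⟨true,0,⟨0,[(0,0),(21,0)]⟩,⟨0,
  [(1,0),(23,0)]⟩⟩]⟩)) (.Q [1,-1,0,0,0,0,0,0,1,-1,0,1] (.p true [0,0,0,0,1] [1] (⟨0,[(20,0)]⟩,⟨0,
  [(19,0)]⟩) .k 1 (⟨0,[]⟩,⟨0,[]⟩) .k .k) (.Q [0,0,0,0,0,-1,0,0,0,0,0,1] (.ed false [1,-1,0,0,1] .k)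
  (.R ⟨1,false,false,true,[0,0,0,0,1],[1,0,-1],[0,1],(⟨0,[(22,0)]⟩,⟨0,[(21,0)]⟩),(⟨0,[(28,0)]⟩,⟨0,
  [(29,0)]⟩),⟨0,[(0,0)]⟩,.k,.k,(.r (-1) ⟨29,[(7,9),(2,9),(5,4),(2,2),(0,2),(15,0),(2,9),(1,14)]⟩ ⟨9,
  [(3,4),(15,2),(0,2),(20,1),(1,3)]⟩),.k,(.r (-1) ⟨19,[(7,9),(7,9),(0,4),(2,2),(0,2),(15,0),(4,9),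
  (0,4)]⟩ ⟨0,[(3,0),(0,0),(33,0),(3,0)]⟩),.k,⟨true,0,⟨0,[(12,0),(0,0)]⟩,⟨0,[(9,0)]⟩⟩,⟨false,1,⟨0,
  [(19,0),(3,0)]⟩,⟨0,[(1,0),(24,0),(11,0)]⟩⟩,⟨true,0,⟨0,[(44,0)]⟩,⟨0,[]⟩⟩,⟨false,1,⟨2,[(4,0),(1,0),
  (7,1),(4,2),(18,0),(1,0),(1,0)]⟩,⟨0,[(1,0),(11,0)]⟩⟩,⟨false,0,⟨1,[(3,0),(34,1),(3,0)]⟩,⟨19,[(7,9),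
  (2,9),(5,4),(2,2),(0,2),(15,0),(5,4)]⟩⟩,⟨false,1,⟨0,[(14,0),(4,0),(20,0)]⟩,⟨1,[(1,1),(5,0),(5,
  0)]⟩⟩,[.o ⟨false,0,⟨0,[(25,0)]⟩,⟨4,[(13,3),(10,0),(11,0),(5,2)]⟩⟩,.a ⟨true,0,⟨0,[(14,0)]⟩,⟨0,[(13,
  0)]⟩⟩ ⟨false,1,⟨1,[(19,0),(0,0),(20,0)]⟩,⟨0,[]⟩⟩ ⟨true,1,⟨0,[(14,0),(4,0)]⟩,⟨0,[(1,0),(3,0),(32,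
  0)]⟩⟩,.o ⟨false,0,⟨21,[(1,16),(1,1),(16,4),(14,3),(0,0),(2,3),(4,4)]⟩,⟨0,[(19,0)]⟩⟩,.e ⟨true,0,⟨0,
  [(38,0)]⟩,⟨1,[(26,0),(0,0)]⟩⟩ ⟨true,1,⟨0,[(14,0),(4,0),(18,0)]⟩,⟨0,[(1,0),(3,0),(32,0)]⟩⟩]⟩) (.R
  ⟨0,false,false,true,[0,0,0,0,1],[1,0,-1],[0,1],(⟨0,[(22,0)]⟩,⟨0,[(21,0)]⟩),(⟨0,[(28,0)]⟩,⟨0,[(29,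
  0)]⟩),⟨0,[(0,0)]⟩,.k,.k,(.r (-1) ⟨29,[(7,9),(2,9),(5,4),(2,2),(0,2),(15,0),(2,9),(1,14)]⟩ ⟨9,[(3,
  4),(15,2),(0,2),(20,1),(1,3)]⟩),.k,.k,.k,⟨true,0,⟨0,[(12,0),(0,0)]⟩,⟨0,[(9,0)]⟩⟩,⟨false,1,⟨0,[(19,
  0),(3,0)]⟩,⟨0,[(1,0),(24,0),(11,0)]⟩⟩,⟨true,0,⟨0,[(44,0)]⟩,⟨0,[]⟩⟩,⟨false,1,⟨2,[(4,0),(1,0),(7,1),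
  (4,2),(18,0),(1,0),(1,0)]⟩,⟨0,[(1,0),(11,0)]⟩⟩,⟨false,0,⟨0,[]⟩,⟨0,[]⟩⟩,⟨false,0,⟨0,[]⟩,⟨0,[]⟩⟩,
  [.o ⟨false,0,⟨0,[(25,0)]⟩,⟨4,[(13,3),(10,0),(11,0),(5,2)]⟩⟩,.a ⟨true,0,⟨0,[(14,0)]⟩,⟨0,[(13,0)]⟩⟩
  ⟨false,1,⟨1,[(19,0),(0,0),(20,0)]⟩,⟨0,[]⟩⟩ ⟨true,1,⟨0,[(14,0),(4,0)]⟩,⟨0,[(1,0),(3,0),(32,0)]⟩⟩,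
  .o ⟨false,0,⟨21,[(1,16),(1,1),(16,4),(14,3),(0,0),(2,3),(4,4)]⟩,⟨0,[(19,0)]⟩⟩,.e ⟨true,0,⟨0,[(38,
  0)]⟩,⟨1,[(26,0),(0,0)]⟩⟩ ⟨true,1,⟨0,[(14,0),(4,0),(18,0)]⟩,⟨0,[(1,0),(3,0),(32,0)]⟩⟩]⟩)) (.Q [1,1,
  0,0,-1,0,0,0,1,0,0,1] (.p true [0,0,0,0,1] [] (⟨0,[(21,0)]⟩,⟨0,[(20,0)]⟩) .k 0 (⟨0,[]⟩,⟨0,[]⟩) .k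
  .k) (.Q [0,0,1,0,-1,0,0,0,1,0,0,1] (.p true [0,0,0,0,1] [] (⟨0,[(22,0)]⟩,⟨0,[(21,0)]⟩) .k 0 (⟨0,
  []⟩,⟨0,[]⟩) .k .k) (.Q [0,0,0,0,0,-1,0,0,0,0,0,1] (.ed false [1,-1,0,0,1] .k) (.S ⟨1,0,[1],[0,0,0,
  0,1],[1,0,1],(⟨0,[(24,0)]⟩,⟨0,[(23,0)]⟩),⟨0,[(0,0)]⟩,.k,(.r (-1) ⟨29,[(9,9),(2,9),(5,4),(2,2),(0,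
  2),(15,0),(2,9),(1,14)]⟩ ⟨9,[(5,4),(15,2),(0,2),(20,1),(1,3)]⟩),⟨true,0,⟨1,[(28,0),(0,0)]⟩,⟨0,
  [(40,0)]⟩⟩,⟨false,1,⟨1,[(21,0),(0,0),(21,0)]⟩,⟨0,[]⟩⟩,⟨false,0,⟨1,[(5,0),(38,0)]⟩,⟨29,[(9,9),(2,
  9),(5,4),(2,2),(0,2),(15,0),(2,9),(1,14)]⟩⟩,⟨true,0,⟨0,[(42,0)]⟩,⟨0,[(41,0)]⟩⟩,[.o ⟨false,0,⟨4,
  [(2,1),(1,1),(17,0),(15,0)]⟩,⟨8,[(3,4),(17,3),(16,0),(5,2),(1,0)]⟩⟩,.e ⟨false,1,⟨1,[(21,0),(0,0),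
  (21,0)]⟩,⟨0,[(40,0)]⟩⟩ ⟨false,1,⟨1,[(43,0),(0,0)]⟩,⟨0,[(46,0)]⟩⟩,.o ⟨false,0,⟨14,[(1,9),(0,0),(1,
  0),(17,2),(15,2),(4,4)]⟩,⟨0,[(21,0)]⟩⟩,.a ⟨true,(-1),⟨0,[(1,0)]⟩,⟨1,[(3,1),(39,0),(0,0)]⟩⟩ ⟨true,
  0,⟨0,[]⟩,⟨0,[(46,0)]⟩⟩ ⟨false,1,⟨1,[(43,0),(0,0)]⟩,⟨1,[(28,0),(0,0)]⟩⟩]⟩) (.Q [0,0,0,0,1,0,1,0,-1,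
  0,1,-1] (.p true [0,0,1] [0,0,0,0,1] (⟨0,[(31,0)]⟩,⟨0,[(30,0)]⟩) .k 2 (⟨0,[(24,0)]⟩,⟨0,[(23,0)]⟩)
  .k (.r 0 ⟨1,[(9,0),(4,1),(0,0),(26,1)]⟩ ⟨0,[(12,0),(33,0)]⟩)) (.K ⟨0,[0,0,0,0,1],(-1),(-1),(⟨0,
  [(25,0)]⟩,⟨0,[(24,0)]⟩),.k,(.r (-1) ⟨29,[(10,9),(2,9),(5,4),(2,2),(0,2),(15,0),(2,9),(1,14)]⟩ ⟨9,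
  [(6,4),(15,2),(0,2),(20,1),(1,3)]⟩),(.r 0 ⟨1,[(6,0),(15,0),(0,0)]⟩ ⟨35,[(10,9),(2,9),(5,4),(2,2),
  (0,2),(15,0),(2,15),(1,17),(0,2)]⟩),.k,.k,[⟨0,[(0,0)]⟩,⟨0,[(2,0)]⟩,⟨0,[(22,0),(24,0)]⟩,⟨0,[(3,
  0)]⟩]⟩) (.R ⟨0,false,false,false,[0,0,0,0,1],[0,1],[1,1,1],(⟨0,[(25,0)]⟩,⟨0,[(24,0)]⟩),(⟨0,[(37,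
  0)]⟩,⟨0,[(36,0)]⟩),⟨0,[(1,0)]⟩,.k,.k,(.r (-1) ⟨29,[(10,9),(2,9),(5,4),(2,2),(0,2),(15,0),(2,9),(1,
  14)]⟩ ⟨9,[(6,4),(15,2),(0,2),(20,1),(1,3)]⟩),(.r (-1) ⟨29,[(10,9),(2,9),(5,4),(2,2),(0,2),(15,0),
  (2,9),(1,14)]⟩ ⟨9,[(6,4),(15,2),(0,2),(20,1),(1,3)]⟩),.k,.k,⟨true,0,⟨0,[(42,0)]⟩,⟨1,[(6,0),(38,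
  0)]⟩⟩,⟨false,2,⟨0,[(22,0),(21,0)]⟩,⟨0,[(2,0)]⟩⟩,⟨false,0,⟨1,[(29,0),(0,0)]⟩,⟨1,[(44,0),(0,0)]⟩⟩,
  ⟨true,1,⟨0,[(22,0),(20,0)]⟩,⟨2,[(0,0),(2,1),(3,0),(2,0)]⟩⟩,⟨false,0,⟨0,[]⟩,⟨0,[]⟩⟩,⟨false,0,⟨0,
  []⟩,⟨0,[]⟩⟩,[.a ⟨true,0,⟨0,[(43,0)]⟩,⟨1,[(10,0),(6,0),(13,0),(0,0)]⟩⟩ ⟨false,0,⟨0,[(47,0)]⟩,⟨1,
  [(44,0),(0,0)]⟩⟩ ⟨true,1,⟨0,[(22,0),(20,0)]⟩,⟨1,[(0,0),(1,0),(7,0),(1,0)]⟩⟩,.o ⟨false,1,⟨9,[(22,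
  0),(0,0),(15,1),(3,9),(1,4)]⟩,⟨0,[(42,0)]⟩⟩,.o ⟨false,0,⟨14,[(2,9),(0,0),(1,0),(17,2),(15,2),(4,
  4)]⟩,⟨0,[(22,0)]⟩⟩,.e ⟨false,0,⟨0,[]⟩,⟨1,[(22,0),(0,0),(21,0)]⟩⟩ ⟨false,2,⟨1,[(22,1),(20,1),(0,0),
  (0,0)]⟩,⟨1,[(0,0),(1,0),(7,0),(1,0)]⟩⟩]⟩))) (.Q [-1,-1,0,1,1,0,0,0,-1,0,0,-1] (.p false [0,0,0,0,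
  1] [] (⟨0,[(23,0)]⟩,⟨0,[(22,0)]⟩) .k 0 (⟨0,[]⟩,⟨0,[]⟩) .k .k) (.R ⟨2,true,false,true,[0,1],[0,0,0,
  0,1],[1,1,1],(⟨0,[]⟩,⟨0,[]⟩),(⟨0,[(24,0)]⟩,⟨0,[(23,0)]⟩),⟨0,[]⟩,.k,.k,.k,(.r 0 ⟨4,[(0,0),(4,1),
  (15,0),(0,1),(22,0),(0,0)]⟩ ⟨29,[(9,9),(2,9),(5,4),(2,2),(0,2),(15,0),(2,9),(1,14)]⟩),.k,.k,⟨true,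
  0,⟨1,[(28,0),(0,0)]⟩,⟨0,[]⟩⟩,⟨false,0,⟨0,[(22,0)]⟩,⟨0,[(1,0)]⟩⟩,⟨true,0,⟨0,[(41,0)]⟩,⟨0,[(42,
  0)]⟩⟩,⟨false,0,⟨29,[(2,1),(1,11),(1,9),(2,9),(8,4),(3,15),(15,0)]⟩,⟨0,[(0,0)]⟩⟩,⟨false,0,⟨0,[]⟩,
  ⟨1,[(21,0),(0,0),(21,0)]⟩⟩,⟨true,(-1),⟨0,[(2,0)]⟩,⟨1,[(1,0),(19,0),(23,0)]⟩⟩,[]⟩) (.I [0,0,-1,0,1,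
  0,0,0,-1] (.I [1,1,-1,-1] (.C [(0,0),(1,0),(0,0),(3,0),(38,0)]) (.C [(0,0),(1,0),(0,0)])) (.C [(0,
  0),(1,0),(22,0)])))) (.R ⟨1,false,false,true,[0,0,1],[0,0,0,0,1],[0,1,0,0,0,0,0,1],(⟨0,[(29,0)]⟩,
  ⟨0,[(28,0)]⟩),(⟨0,[(22,0)]⟩,⟨0,[(21,0)]⟩),⟨0,[(18,0)]⟩,.k,.k,.k,.k,(.r (-1) ⟨19,[(7,9),(7,9),(0,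
  4),(2,2),(0,2),(15,0),(4,9),(0,4)]⟩ ⟨0,[(9,0),(30,0)]⟩),.k,⟨true,0,⟨1,[(7,0),(4,1),(0,0),(26,1)]⟩,
  ⟨0,[(9,0)]⟩⟩,⟨false,0,⟨0,[(2,0),(9,0),(25,0)]⟩,⟨0,[(0,0),(25,0),(11,0)]⟩⟩,⟨true,0,⟨0,[(44,0)]⟩,⟨0,
  []⟩⟩,⟨false,0,⟨0,[(2,0),(22,0)]⟩,⟨0,[(0,0),(12,0)]⟩⟩,⟨false,0,⟨0,[(40,0)]⟩,⟨19,[(7,9),(2,9),(5,4),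
  (2,2),(0,2),(15,0),(5,4)]⟩⟩,⟨false,0,⟨0,[(2,0),(22,0),(14,0)]⟩,⟨1,[(0,1),(6,0),(5,0)]⟩⟩,[.o
  ⟨false,0,⟨4,[(2,2),(0,0),(0,0),(1,0),(1,0),(11,1),(14,2),(0,0)]⟩,⟨0,[(0,0)]⟩⟩,.o ⟨false,0,⟨4,[(2,
  4),(0,0),(0,0),(1,0),(1,0),(27,0),(1,2)]⟩,⟨2,[(0,0),(18,1),(24,0)]⟩⟩,.o ⟨false,1,⟨4,[(10,0),(13,
  0),(1,3),(9,0),(4,1)]⟩,⟨0,[(12,0)]⟩⟩,.a ⟨true,0,⟨0,[(26,0)]⟩,⟨0,[(23,0)]⟩⟩ ⟨true,0,⟨9,[(3,1),(4,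
  3),(4,4),(1,0),(7,8),(12,0),(1,4)]⟩,⟨0,[(9,0)]⟩⟩ ⟨false,0,⟨0,[(2,0),(9,0),(25,0)]⟩,⟨0,[(0,0),(25,
  0)]⟩⟩]⟩))))))))))) (.I [0,-1,0,1,1,0,0,-1] (.S ⟨1,0,[0,0,0,0,0,0,0,1],[0,0,1],[],(⟨0,[(20,0)]⟩,⟨0,
  [(19,0)]⟩),⟨0,[(9,0)]⟩,.k,.k,⟨true,1,⟨0,[(0,0),(29,0)]⟩,⟨0,[(1,0)]⟩⟩,⟨false,1,⟨1,[(10,0),(0,0),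
  (21,0)]⟩,⟨0,[]⟩⟩,⟨false,1,⟨0,[(0,0)]⟩,⟨0,[(2,0),(0,0)]⟩⟩,⟨true,0,⟨0,[(31,0)]⟩,⟨0,[(30,0)]⟩⟩,[.e
  ⟨false,1,⟨1,[(10,0),(0,0),(20,0)]⟩,⟨0,[]⟩⟩ ⟨false,0,⟨1,[(1,1),(30,0),(0,0)]⟩,⟨0,[(0,0),(29,0)]⟩⟩,
  .o ⟨false,1,⟨4,[(4,3),(10,0),(11,0),(5,2)]⟩,⟨0,[(16,0)]⟩⟩,.o ⟨false,1,⟨9,[(0,1),(1,0),(12,0),(1,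
  7),(9,1),(2,0),(1,3)]⟩,⟨0,[(3,0)]⟩⟩,.a ⟨true,0,⟨0,[(17,0)]⟩,⟨0,[(14,0)]⟩⟩ ⟨false,1,⟨1,[(32,0),(0,
  0)]⟩,⟨1,[(17,0),(0,0)]⟩⟩ ⟨true,0,⟨1,[(1,1),(30,0),(0,0)]⟩,⟨0,[(16,0),(0,0)]⟩⟩]⟩) (.Q [0,0,0,1,0,0,
  1,1,0,-1,1] (.p true [0,0,1] [1] (⟨0,[(20,0)]⟩,⟨0,[(19,0)]⟩) .k 1 (⟨0,[]⟩,⟨0,[]⟩) .k .k) (.R ⟨2,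
  true,false,false,[0,1],[1,0,-1],[1,1,1],(⟨0,[]⟩,⟨0,[]⟩),(⟨0,[(20,0)]⟩,⟨0,[(21,0)]⟩),⟨0,[]⟩,.k,.k,
  .k,.k,.k,.k,⟨false,(-1),⟨0,[(2,0)]⟩,⟨9,[(6,9),(4,0),(0,0),(5,9),(9,1),(4,9),(0,4)]⟩⟩,⟨true,(-1),
  ⟨0,[(1,0),(4,0),(22,0)]⟩,⟨9,[(11,0),(0,0),(5,9),(9,1),(4,4)]⟩⟩,⟨true,0,⟨0,[(31,0)]⟩,⟨0,[(32,0)]⟩⟩,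
  ⟨false,1,⟨0,[(6,0),(24,0),(2,0)]⟩,⟨0,[(0,0)]⟩⟩,⟨false,0,⟨0,[]⟩,⟨1,[(11,0),(0,0),(21,0)]⟩⟩,⟨true,0,
  ⟨0,[(6,0)]⟩,⟨7,[(0,2),(0,1),(1,0),(12,1),(1,1),(8,1),(0,0)]⟩⟩,[]⟩) (.Q [0,0,2,1,-1,0,-1,-1,0,1,
  -1] (.p false [0,0,1] [1] (⟨0,[(21,0)]⟩,⟨0,[(20,0)]⟩) .k 1 (⟨0,[]⟩,⟨0,[]⟩) .k .k) (.I [0,0,-2,-2,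
  1] (.S ⟨1,0,[0,0,-1,-1],[1,-1],[0,1,-1,-1],(⟨0,[(27,0)]⟩,⟨0,[(28,0)]⟩),⟨0,[(11,0),(0,0)]⟩,.k,(.r
  (-1) ⟨0,[(0,0)]⟩ ⟨14,[(1,9),(11,5),(0,5),(3,9),(11,1),(0,9),(2,9)]⟩),⟨true,0,⟨0,[(38,0)]⟩,⟨0,[]⟩⟩,
  ⟨false,1,⟨1,[(13,0),(0,0),(21,0)]⟩,⟨0,[]⟩⟩,⟨false,0,⟨0,[(34,0)]⟩,⟨0,[(33,0),(2,0)]⟩⟩,⟨true,0,⟨0,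
  [(34,0)]⟩,⟨0,[(33,0)]⟩⟩,[.e ⟨false,1,⟨3,[(0,1),(12,0),(0,0),(14,1),(5,0)]⟩,⟨0,[(31,0)]⟩⟩ ⟨false,1,
  ⟨1,[(0,0),(34,0)]⟩,⟨14,[(1,4),(11,2),(0,2),(3,4),(11,0),(0,4),(2,4)]⟩⟩,.o ⟨false,1,⟨0,[(33,0),(2,
  0)]⟩,⟨3,[(1,0),(2,0),(15,0),(9,0),(1,2),(1,2)]⟩⟩,.o ⟨false,0,⟨1,[(20,0),(0,0)]⟩,⟨9,[(13,0),(0,0),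
  (15,1),(4,4)]⟩⟩,.a ⟨true,(-1),⟨0,[(1,0),(3,0)]⟩,⟨0,[(35,0)]⟩⟩ ⟨false,1,⟨1,[(0,0),(34,0)]⟩,⟨1,[(20,
  0),(0,0),(9,1)]⟩⟩ ⟨true,1,⟨1,[(0,0),(34,0)]⟩,⟨18,[(1,14),(2,9),(13,4),(1,9),(8,1),(0,2),(3,
  3)]⟩⟩]⟩) (.Q [0,0,0,2,0,0,1,1,0,-1,1] (.p true [0,0,1] [1] (⟨0,[(23,0)]⟩,⟨0,[(22,0)]⟩) .k 1 (⟨0,
  []⟩,⟨0,[]⟩) .k .k) (.R ⟨1,true,false,false,[1,0,-1],[0,1],[0,1,0,0,0,0,0,-1],(⟨0,[(23,0)]⟩,⟨0,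
  [(24,0)]⟩),(⟨0,[(29,0)]⟩,⟨0,[(28,0)]⟩),⟨0,[(12,0)]⟩,.k,.k,.k,.k,(.x 1 ⟨15,[(2,14),(1,13),(1,0),
  (15,1),(1,15),(4,31),(1,2),(5,6)]⟩ ⟨3,[(12,4),(0,0),(7,3),(3,1),(5,0),(4,5)]⟩),.k,⟨true,1,⟨4,[(3,
  4),(17,4),(8,0),(0,0),(1,2),(2,2)]⟩,⟨0,[(4,0),(27,1)]⟩⟩,⟨false,2,⟨9,[(14,0),(0,0),(5,9),(9,1),(4,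
  14)]⟩,⟨2,[(2,1),(1,1),(13,0),(18,0)]⟩⟩,⟨true,0,⟨0,[(39,0)]⟩,⟨0,[]⟩⟩,⟨false,1,⟨19,[(0,9),(13,0),(0,
  0),(3,9),(11,1),(5,14)]⟩,⟨0,[(3,0)]⟩⟩,⟨false,0,⟨0,[(35,0)]⟩,⟨0,[(34,0),(2,0)]⟩⟩,⟨true,0,⟨0,[(0,
  0)]⟩,⟨0,[(3,0),(30,0)]⟩⟩,[]⟩) (.Q [-1,0,0,-1,0,0,0,0,-1,1,0,-1] (.p false [0,0,0,0,1] [1] (⟨0,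
  [(17,0)]⟩,⟨0,[(16,0)]⟩) .k 1 (⟨0,[]⟩,⟨0,[]⟩) .k .k) (.Q [0,0,0,0,0,-1,0,0,0,0,0,1] (.ed false [1,
  -1,0,0,1] .k) (.Q [0,0,1,0,0,0,0,0,1,-1,0,1] (.p true [0,0,0,0,1] [1] (⟨0,[(19,0)]⟩,⟨0,[(18,0)]⟩)
  .k 1 (⟨0,[]⟩,⟨0,[]⟩) .k .k) (.S ⟨1,0,[1],[0,0,0,0,1],[0,1],(⟨0,[(20,0)]⟩,⟨0,[(19,0)]⟩),⟨0,[(1,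
  0)]⟩,.k,(.r (-1) ⟨1,[(37,1),(1,0),(0,0)]⟩ ⟨9,[(4,4),(12,2),(0,2),(21,1),(1,3)]⟩),⟨true,0,⟨0,[(42,
  0)]⟩,⟨0,[]⟩⟩,⟨false,1,⟨1,[(17,0),(0,0),(21,0)]⟩,⟨0,[]⟩⟩,⟨false,0,⟨1,[(4,0),(31,1),(3,0)]⟩,⟨0,[(37,
  0),(2,0)]⟩⟩,⟨true,0,⟨0,[(38,0)]⟩,⟨0,[(37,0)]⟩⟩,[.a ⟨true,0,⟨0,[(18,0)]⟩,⟨0,[(2,0),(35,0)]⟩⟩
  ⟨false,0,⟨0,[(36,0)]⟩,⟨1,[(17,0),(0,0),(21,0)]⟩⟩ ⟨true,0,⟨0,[]⟩,⟨1,[(24,0),(0,0)]⟩⟩,.o ⟨false,1,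
  ⟨9,[(17,0),(0,10),(15,1),(5,4)]⟩,⟨10,[(2,9),(1,4),(12,0),(15,0),(0,1),(1,8)]⟩⟩,.e ⟨true,0,⟨0,[(42,
  0)]⟩,⟨0,[]⟩⟩ ⟨true,0,⟨0,[]⟩,⟨0,[(42,0)]⟩⟩,.o ⟨false,0,⟨0,[(0,0)]⟩,⟨5,[(2,4),(14,0),(16,0),(3,4),
  (0,2)]⟩⟩]⟩) (.I [0,0,1,0,-1,0,0,1] (.C [(0,0),(0,3),(2,0),(0,0),(13,3),(5,0),(9,0)]) (.C [(0,0),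
  (0,3),(2,0),(0,1),(2,1),(10,3),(5,0),(9,0),(5,0)]))) (.S ⟨1,0,[-1,1],[1,0,0,0,-1],[-1],(⟨0,[(18,
  0)]⟩,⟨0,[(19,0)]⟩),⟨0,[(0,0),(13,0),(0,0)]⟩,.k,(.r (-1) ⟨1,[(36,1),(1,0),(0,0)]⟩ ⟨1,[(3,0),(12,0),
  (0,0)]⟩),⟨false,1,⟨1,[(16,0),(0,0),(21,0)]⟩,⟨0,[]⟩⟩,⟨true,0,⟨0,[(41,0)]⟩,⟨0,[]⟩⟩,⟨true,0,⟨0,[(37,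
  0)]⟩,⟨0,[(36,0)]⟩⟩,⟨false,0,⟨0,[(37,0)]⟩,⟨0,[(36,0),(2,0)]⟩⟩,[.o ⟨false,0,⟨10,[(1,9),(1,4),(12,0),
  (15,0),(0,1),(1,8)]⟩,⟨9,[(16,0),(0,10),(15,1),(5,4)]⟩⟩,.e ⟨false,1,⟨0,[(35,0),(3,0)]⟩,⟨0,[(41,
  0)]⟩⟩ ⟨false,1,⟨9,[(16,3),(0,3),(20,4),(0,0),(1,1)]⟩,⟨0,[]⟩⟩,.a ⟨true,0,⟨0,[(1,0),(35,0)]⟩,⟨0,
  [(17,0)]⟩⟩ ⟨false,1,⟨4,[(16,1),(0,1),(21,2),(1,0)]⟩,⟨0,[]⟩⟩ ⟨true,0,⟨0,[(41,0)]⟩,⟨0,[]⟩⟩,.o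
  ⟨false,0,⟨21,[(1,19),(1,9),(12,1),(6,0),(0,0),(8,3)]⟩,⟨9,[(16,0),(0,10),(15,1),(4,4)]⟩⟩]⟩)) (.Q
  [0,0,-1,0,0,0,0,0,1,-1,0,1] (.p true [0,0,0,0,1] [1] (⟨0,[(18,0)]⟩,⟨0,[(17,0)]⟩) .k 1 (⟨0,[]⟩,⟨0,
  []⟩) .k .k) (.Q [0,0,0,0,0,-1,0,0,0,0,0,1] (.ed false [1,-1,0,0,1] .k) (.R ⟨1,false,false,true,[0,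
  0,0,0,1],[0,0,1],[0,1],(⟨0,[(20,0)]⟩,⟨0,[(19,0)]⟩),(⟨0,[(27,0)]⟩,⟨0,[(26,0)]⟩),⟨0,[(0,0)]⟩,.k,.k,
  (.r (-1) ⟨1,[(37,1),(1,0),(0,0)]⟩ ⟨9,[(4,4),(12,2),(0,2),(21,1),(1,3)]⟩),.k,(.r (-2) ⟨9,[(3,4),(8,
  4),(4,5),(0,5),(5,9),(9,1),(4,9)]⟩ ⟨1,[(4,0),(3,1),(31,0)]⟩),.k,⟨true,1,⟨9,[(12,9),(4,0),(0,0),(5,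
  9),(9,1),(4,4)]⟩,⟨0,[(7,0),(27,0)]⟩⟩,⟨false,2,⟨0,[(17,0),(6,0),(14,0)]⟩,⟨2,[(1,2),(3,1),(1,1),(13,
  0),(18,0)]⟩⟩,⟨true,0,⟨0,[(42,0)]⟩,⟨0,[]⟩⟩,⟨false,1,⟨2,[(8,0),(2,1),(5,2),(6,0),(11,0),(3,0)]⟩,⟨3,
  [(1,3),(1,0),(1,1),(6,0),(27,1)]⟩⟩,⟨false,0,⟨1,[(4,0),(31,1),(3,0)]⟩,⟨0,[(37,0),(2,0)]⟩⟩,⟨false,1,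
  ⟨0,[(11,0),(5,0),(20,0)]⟩,⟨0,[(1,0),(1,0),(31,0)]⟩⟩,[.o ⟨false,0,⟨4,[(8,1),(2,1),(10,0),(1,1),(9,
  0),(1,1)]⟩,⟨9,[(12,9),(4,0),(0,0),(15,1),(5,4)]⟩⟩,.a ⟨true,0,⟨0,[(11,0)]⟩,⟨0,[(12,0)]⟩⟩ ⟨false,1,
  ⟨1,[(17,0),(0,0),(20,0)]⟩,⟨0,[]⟩⟩ ⟨true,1,⟨0,[(11,0),(5,0)]⟩,⟨0,[(1,0),(1,0),(0,0)]⟩⟩,.o ⟨false,0,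
  ⟨46,[(1,24),(3,7),(1,7),(10,21),(5,7),(9,5),(5,3),(0,0)]⟩,⟨0,[(17,0)]⟩⟩,.e ⟨true,0,⟨0,[(36,0)]⟩,
  ⟨1,[(24,0),(0,0)]⟩⟩ ⟨true,1,⟨0,[(11,0),(5,0),(18,0)]⟩,⟨0,[(1,0),(1,0),(0,0)]⟩⟩]⟩) (.R ⟨0,false,
  false,true,[0,0,0,0,1],[0,0,1],[0,1],(⟨0,[(20,0)]⟩,⟨0,[(19,0)]⟩),(⟨0,[(27,0)]⟩,⟨0,[(26,0)]⟩),⟨0,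
  [(0,0)]⟩,.k,.k,(.r (-1) ⟨1,[(37,1),(1,0),(0,0)]⟩ ⟨9,[(4,4),(12,2),(0,2),(21,1),(1,3)]⟩),.k,.k,.k,
  ⟨true,1,⟨9,[(12,9),(4,0),(0,0),(5,9),(9,1),(4,4)]⟩,⟨0,[(7,0),(27,0)]⟩⟩,⟨false,2,⟨0,[(17,0),(6,0),
  (14,0)]⟩,⟨2,[(1,2),(3,1),(1,1),(13,0),(18,0)]⟩⟩,⟨true,0,⟨0,[(42,0)]⟩,⟨0,[]⟩⟩,⟨false,1,⟨2,[(8,0),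
  (2,1),(5,2),(6,0),(11,0),(3,0)]⟩,⟨3,[(1,3),(1,0),(1,1),(6,0),(27,1)]⟩⟩,⟨false,0,⟨0,[]⟩,⟨0,[]⟩⟩,
  ⟨false,0,⟨0,[]⟩,⟨0,[]⟩⟩,[.o ⟨false,0,⟨4,[(8,1),(2,1),(10,0),(1,1),(9,0),(1,1)]⟩,⟨9,[(12,9),(4,0),
  (0,0),(15,1),(5,4)]⟩⟩,.a ⟨true,0,⟨0,[(11,0)]⟩,⟨0,[(12,0)]⟩⟩ ⟨false,1,⟨1,[(17,0),(0,0),(20,0)]⟩,⟨0,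
  []⟩⟩ ⟨true,1,⟨0,[(11,0),(5,0)]⟩,⟨0,[(1,0),(1,0),(0,0)]⟩⟩,.o ⟨false,0,⟨46,[(1,24),(3,7),(1,7),(10,
  21),(5,7),(9,5),(5,3),(0,0)]⟩,⟨0,[(17,0)]⟩⟩,.e ⟨true,0,⟨0,[(36,0)]⟩,⟨1,[(24,0),(0,0)]⟩⟩ ⟨true,1,
  ⟨0,[(11,0),(5,0),(18,0)]⟩,⟨0,[(1,0),(1,0),(0,0)]⟩⟩]⟩)) (.Q [1,0,0,0,0,0,0,0,1,-1,0,1] (.p true [0,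
  0,0,0,1] [1] (⟨0,[(19,0)]⟩,⟨0,[(18,0)]⟩) .k 1 (⟨0,[]⟩,⟨0,[]⟩) .k .k) (.Q [-1,-1,0,0,1,0,0,0,-1,0,
  0,-1] (.p false [0,0,0,0,1] [] (⟨0,[(20,0)]⟩,⟨0,[(19,0)]⟩) .k 0 (⟨0,[]⟩,⟨0,[]⟩) .k .k) (.R ⟨1,
  false,false,true,[0,0,1],[0,0,0,0,1],[0,0,0,0,0,0,0,1],(⟨0,[(28,0)]⟩,⟨0,[(27,0)]⟩),(⟨0,[(21,0)]⟩,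
  ⟨0,[(20,0)]⟩),⟨0,[(17,0)]⟩,.k,.k,.k,.k,(.r 0 ⟨0,[(8,0),(28,0),(3,0)]⟩ ⟨0,[(3,0),(9,0),(4,0),(6,
  0)]⟩),.k,⟨true,0,⟨0,[(9,0),(31,0)]⟩,⟨0,[(24,0),(0,0)]⟩⟩,⟨false,0,⟨3,[(3,3),(0,1),(4,1),(12,1),(17,
  0),(0,0)]⟩,⟨0,[(0,0),(24,0),(11,0)]⟩⟩,⟨false,1,⟨1,[(18,0),(0,0),(21,0)]⟩,⟨0,[]⟩⟩,⟨false,0,⟨1,[(3,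
  1),(0,0),(8,0)]⟩,⟨0,[(0,0),(11,0)]⟩⟩,⟨true,0,⟨0,[(39,0)]⟩,⟨0,[(38,0)]⟩⟩,⟨false,0,⟨0,[(3,0),(9,
  0)]⟩,⟨0,[(0,0),(9,0)]⟩⟩,[.o ⟨false,0,⟨0,[(3,0),(34,0)]⟩,⟨0,[(0,0)]⟩⟩,.o ⟨false,0,⟨0,[(1,0)]⟩,⟨2,
  [(0,0),(17,1),(24,0)]⟩⟩,.o ⟨false,1,⟨9,[(18,0),(0,0),(5,9),(9,1),(4,4)]⟩,⟨0,[(11,0)]⟩⟩,.a ⟨true,0,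
  ⟨0,[(25,0)]⟩,⟨0,[(22,0)]⟩⟩ ⟨true,0,⟨1,[(9,1),(30,0),(0,0)]⟩,⟨0,[(24,0),(0,0)]⟩⟩ ⟨false,0,⟨0,[(1,
  0),(20,0)]⟩,⟨0,[(0,0),(24,0)]⟩⟩]⟩) (.Q [0,0,1,0,-1,0,0,0,1,0,0,1] (.p true [0,0,0,0,1] [] (⟨0,
  [(21,0)]⟩,⟨0,[(20,0)]⟩) .k 0 (⟨0,[]⟩,⟨0,[]⟩) .k .k) (.Q [0,0,0,0,0,-1,0,0,0,0,0,1] (.ed false [1,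
  -1,0,0,1] .k) (.S ⟨1,0,[1],[0,0,0,0,1],[1,0,1],(⟨0,[(23,0)]⟩,⟨0,[(22,0)]⟩),⟨0,[(0,0)]⟩,.k,(.r
  (-1) ⟨1,[(40,1),(1,0),(0,0)]⟩ ⟨9,[(7,4),(12,2),(0,2),(21,1),(1,3)]⟩),⟨true,0,⟨1,[(27,0),(0,0)]⟩,
  ⟨0,[(39,0)]⟩⟩,⟨false,1,⟨1,[(20,0),(0,0),(21,0)]⟩,⟨0,[]⟩⟩,⟨false,0,⟨1,[(7,0),(35,0)]⟩,⟨1,[(40,1),
  (1,0),(0,0)]⟩⟩,⟨true,0,⟨0,[(41,0)]⟩,⟨0,[(40,0)]⟩⟩,[.o ⟨false,0,⟨0,[(3,0)]⟩,⟨8,[(4,4),(15,3),(16,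
  0),(1,4),(3,2),(1,0)]⟩⟩,.e ⟨false,1,⟨1,[(20,0),(0,0),(21,0)]⟩,⟨0,[(39,0)]⟩⟩ ⟨false,1,⟨1,[(42,0),
  (0,0)]⟩,⟨0,[(45,0)]⟩⟩,.o ⟨false,0,⟨5,[(1,3),(1,0),(17,0),(15,0),(4,1)]⟩,⟨0,[(20,0)]⟩⟩,.a ⟨true,
  (-1),⟨0,[(1,0)]⟩,⟨0,[(4,0),(37,0)]⟩⟩ ⟨true,0,⟨0,[]⟩,⟨0,[(45,0)]⟩⟩ ⟨false,1,⟨1,[(42,0),(0,0)]⟩,⟨1,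
  [(27,0),(0,0)]⟩⟩]⟩) (.Q [1,1,0,-1,-1,0,0,0,1,0,0,1] (.p true [0,0,0,0,1] [] (⟨0,[(23,0)]⟩,⟨0,[(22,
  0)]⟩) .k 0 (⟨0,[]⟩,⟨0,[]⟩) .k .k) (.R ⟨1,false,false,false,[1,0,0,0,-1],[1,-1],[-1],(⟨0,[(23,0)]⟩,
  ⟨0,[(24,0)]⟩),(⟨0,[(35,0)]⟩,⟨0,[(36,0)]⟩),⟨0,[(1,0),(17,0),(0,0)]⟩,.k,.k,(.r (-1) ⟨1,[(41,1),(1,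
  0),(0,0)]⟩ ⟨1,[(8,0),(12,0),(0,0)]⟩),(.r 0 ⟨9,[(8,4),(12,2),(0,2),(21,1),(1,3)]⟩ ⟨1,[(41,1),(1,0),
  (0,0)]⟩),.k,.k,⟨false,0,⟨1,[(8,0),(31,1),(3,0)]⟩,⟨1,[(41,1),(1,0),(0,0)]⟩⟩,⟨true,(-1),⟨0,[(2,0)]⟩,
  ⟨0,[(21,0)]⟩⟩,⟨false,1,⟨1,[(21,0),(0,0),(21,0)]⟩,⟨0,[]⟩⟩,⟨false,0,⟨0,[(0,0),(43,0)]⟩,⟨0,[(21,0),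
  (20,0)]⟩⟩,⟨true,0,⟨0,[(42,0)]⟩,⟨0,[(41,0)]⟩⟩,⟨false,0,⟨1,[(2,1),(40,0),(0,0)]⟩,⟨8,[(5,4),(15,3),
  (16,0),(1,4),(3,2),(1,0)]⟩⟩,[.e ⟨false,1,⟨9,[(21,3),(0,3),(20,4),(0,0),(1,1)]⟩,⟨0,[]⟩⟩ ⟨false,0,
  ⟨1,[(0,1),(42,0),(0,0)]⟩,⟨0,[(21,0),(20,0)]⟩⟩,.o ⟨false,1,⟨0,[(41,0),(2,0)]⟩,⟨4,[(8,1),(28,0),(0,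
  0),(1,2),(1,0)]⟩⟩,.o ⟨false,1,⟨0,[(21,0)]⟩,⟨5,[(2,3),(1,0),(17,0),(15,0),(4,1)]⟩⟩,.a ⟨true,0,⟨0,
  [(5,0)]⟩,⟨0,[(2,0),(40,0)]⟩⟩ ⟨false,1,⟨0,[(40,0),(3,0)]⟩,⟨1,[(28,0),(0,0)]⟩⟩ ⟨true,0,⟨1,[(0,1),
  (42,0),(0,0)]⟩,⟨5,[(5,4),(2,2),(12,0),(15,0),(0,0),(1,3)]⟩⟩]⟩) (.R ⟨2,true,false,true,[0,1],[0,0,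
  0,0,1],[2,1,1],(⟨0,[]⟩,⟨0,[]⟩),(⟨0,[(24,0)]⟩,⟨0,[(23,0)]⟩),⟨0,[]⟩,.k,.k,.k,(.r 0 ⟨4,[(0,0),(7,1),
  (12,0),(0,1),(22,0),(0,0)]⟩ ⟨1,[(41,1),(1,0),(0,0)]⟩),.k,.k,⟨false,0,⟨0,[]⟩,⟨1,[(21,0),(0,0),(20,
  0)]⟩⟩,⟨true,(-1),⟨0,[(2,0)]⟩,⟨0,[(21,0)]⟩⟩,⟨true,0,⟨0,[(41,0)]⟩,⟨0,[(0,0),(1,0),(37,0)]⟩⟩,⟨false,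
  0,⟨2,[(4,0),(2,0),(5,0),(8,1)]⟩,⟨0,[(0,0)]⟩⟩,⟨false,0,⟨0,[]⟩,⟨4,[(21,1),(0,1),(21,2),(1,0)]⟩⟩,
  ⟨true,(-1),⟨0,[(3,0)]⟩,⟨1,[(0,0),(20,0),(19,0)]⟩⟩,[]⟩))) (.Q [-1,-1,0,1,1,0,0,0,-1,0,0,-1] (.p
  false [0,0,0,0,1] [] (⟨0,[(22,0)]⟩,⟨0,[(21,0)]⟩) .k 0 (⟨0,[]⟩,⟨0,[]⟩) .k .k) (.R ⟨2,true,false,
  true,[0,1],[0,0,0,0,1],[1,1,1],(⟨0,[]⟩,⟨0,[]⟩),(⟨0,[(23,0)]⟩,⟨0,[(22,0)]⟩),⟨0,[]⟩,.k,.k,.k,(.r 0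
  ⟨8,[(0,2),(4,1),(1,0),(0,1),(12,0),(3,1),(18,2),(0,0)]⟩ ⟨1,[(40,1),(1,0),(0,0)]⟩),.k,.k,⟨true,0,
  ⟨1,[(27,0),(0,0)]⟩,⟨0,[]⟩⟩,⟨false,0,⟨0,[(21,0)]⟩,⟨0,[(1,0)]⟩⟩,⟨true,0,⟨0,[(40,0)]⟩,⟨0,[(41,0)]⟩⟩,
  ⟨false,0,⟨2,[(3,0),(2,0),(5,0),(8,1)]⟩,⟨0,[(0,0)]⟩⟩,⟨false,0,⟨0,[]⟩,⟨1,[(20,0),(0,0),(21,0)]⟩⟩,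
  ⟨true,(-1),⟨0,[(2,0)]⟩,⟨1,[(0,0),(19,0),(19,0)]⟩⟩,[]⟩) (.I [0,0,-1,0,1,0,0,0,-1] (.I [1,1,-1,-1]
  (.C [(0,0),(1,0),(0,0),(5,0),(35,0)]) (.C [(0,0),(1,0),(0,0)])) (.C [(0,0),(1,0),(21,0)]))))) (.R
  ⟨2,true,false,true,[0,1],[1,0,0,0,-1],[0,0,1,1],(⟨0,[]⟩,⟨0,[]⟩),(⟨0,[(19,0)]⟩,⟨0,[(20,0)]⟩),⟨0,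
  []⟩,.k,.k,.k,(.r 0 ⟨1,[(4,0),(12,0),(0,0)]⟩ ⟨1,[(37,1),(1,0),(0,0)]⟩),.k,.k,⟨true,0,⟨0,[(35,0)]⟩,
  ⟨0,[(37,0)]⟩⟩,⟨false,0,⟨0,[(0,0)]⟩,⟨9,[(17,0),(0,10),(15,1),(4,4)]⟩⟩,⟨false,1,⟨1,[(17,0),(0,0),
  (21,0)]⟩,⟨0,[]⟩⟩,⟨true,0,⟨0,[(0,0),(36,0)]⟩,⟨0,[(2,0)]⟩⟩,⟨true,0,⟨0,[(38,0)]⟩,⟨0,[(37,0)]⟩⟩,
  ⟨false,0,⟨0,[(0,0)]⟩,⟨9,[(17,0),(0,10),(15,1),(5,4)]⟩⟩,[]⟩)))))) (.R ⟨1,false,false,false,[1,-1],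
  [0,-1,1],[0,1,-1,-1],(⟨0,[(26,0)]⟩,⟨0,[(27,0)]⟩),(⟨0,[(11,0)]⟩,⟨0,[(21,0),(5,0)]⟩),⟨0,[(10,0),(0,
  0)]⟩,.k,.k,(.r (-1) ⟨0,[(0,0),(0,0)]⟩ ⟨0,[(30,1),(6,1)]⟩),.k,.k,.k,⟨false,1,⟨0,[(18,0),(0,0),(14,
  0)]⟩,⟨0,[(3,0),(31,0)]⟩⟩,⟨true,1,⟨9,[(12,0),(0,0),(5,9),(9,1),(4,4)]⟩,⟨0,[(2,0),(4,0),(22,0)]⟩⟩,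
  ⟨true,0,⟨0,[(37,0)]⟩,⟨0,[]⟩⟩,⟨false,1,⟨4,[(6,3),(10,0),(11,0),(5,2)]⟩,⟨0,[(7,0)]⟩⟩,⟨false,0,⟨0,
  [(33,0)]⟩,⟨0,[(32,0),(2,0)]⟩⟩,⟨false,1,⟨8,[(0,3),(16,4),(11,0),(0,7),(2,4),(1,2)]⟩,⟨0,[(1,0)]⟩⟩,
  [.e ⟨false,1,⟨0,[(32,0),(1,0)]⟩,⟨0,[(30,0)]⟩⟩ ⟨false,1,⟨0,[(0,0)]⟩,⟨0,[(7,0),(22,0),(6,0)]⟩⟩,.o
  ⟨false,1,⟨9,[(4,8),(12,0),(11,1),(2,0),(2,5)]⟩,⟨0,[(18,0),(14,0)]⟩⟩,.o ⟨false,0,⟨1,[(19,0),(0,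
  0)]⟩,⟨9,[(12,0),(0,0),(15,1),(4,4)]⟩⟩,.a ⟨true,(-1),⟨0,[(2,0),(4,0),(11,0),(10,0)]⟩,⟨0,[(34,0)]⟩⟩
  ⟨false,1,⟨1,[(0,0),(0,0),(32,0)]⟩,⟨1,[(19,0),(0,0),(9,1)]⟩⟩ ⟨true,1,⟨0,[(0,0)]⟩,⟨0,[(3,0),(3,0),
  (10,0),(0,0),(10,0)]⟩⟩]⟩)))))) (.Q [0,-1,0,1,0,0,1,1,0,0,1] (.p true [0,0,1] [] (⟨0,[(17,0)]⟩,⟨0,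
  [(16,0)]⟩) .k 0 (⟨0,[]⟩,⟨0,[]⟩) .k .k) (.Q [0,0,-2,0,1,0,0,0,0,-1] (.pp true [-1,1]) (.R ⟨2,true,
  false,false,[0,1],[0,1,1],[0,1],(⟨0,[]⟩,⟨0,[]⟩),(⟨0,[(19,0),(4,0)]⟩,⟨0,[(7,0)]⟩),⟨0,[]⟩,.k,.k,.k,
  .k,.k,.k,⟨false,1,⟨0,[(0,0),(1,0),(1,0),(24,0)]⟩,⟨0,[(1,0),(15,0)]⟩⟩,⟨true,0,⟨0,[(2,0)]⟩,⟨0,[(17,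
  0)]⟩⟩,⟨false,1,⟨1,[(29,1),(1,0),(0,0)]⟩,⟨0,[(27,0)]⟩⟩,⟨true,0,⟨0,[(3,0)]⟩,⟨0,[(15,0)]⟩⟩,⟨true,0,
  ⟨0,[(28,0)]⟩,⟨1,[(16,0),(0,0)]⟩⟩,⟨false,0,⟨0,[(1,0)]⟩,⟨9,[(4,9),(4,0),(0,0),(15,1),(2,9),(2,4)]⟩⟩,
  []⟩) (.I [1,1,1,0,-1,0,0,1] (.R ⟨2,true,false,false,[0,1],[0,1,1],[0,0,1,1],(⟨0,[]⟩,⟨0,[]⟩),(⟨0,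
  [(20,0),(4,0)]⟩,⟨0,[(8,0)]⟩),⟨0,[]⟩,.k,.k,.k,.k,.k,.k,⟨false,1,⟨4,[(3,3),(1,4),(11,0),(9,0),(4,
  2)]⟩,⟨10,[(0,4),(3,4),(1,0),(7,4),(12,0),(5,2)]⟩⟩,⟨true,0,⟨0,[(3,0)]⟩,⟨0,[(18,0)]⟩⟩,⟨false,1,⟨1,
  [(10,0),(0,0),(21,0)]⟩,⟨0,[]⟩⟩,⟨true,0,⟨0,[(4,0)]⟩,⟨0,[(16,0)]⟩⟩,⟨true,0,⟨0,[(31,0)]⟩,⟨0,[(30,
  0)]⟩⟩,⟨false,0,⟨0,[(2,0)]⟩,⟨9,[(5,9),(4,0),(0,0),(15,1),(2,9),(2,4)]⟩⟩,[]⟩) (.R ⟨2,true,false,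
  false,[0,1],[0,1,1],[0,1],(⟨0,[]⟩,⟨0,[]⟩),(⟨0,[(20,0),(4,0)]⟩,⟨0,[(8,0)]⟩),⟨0,[]⟩,.k,.k,.k,.k,.k,
  .k,⟨false,1,⟨0,[(0,0),(28,0),(0,0)]⟩,⟨0,[(2,0),(15,0)]⟩⟩,⟨true,0,⟨0,[(3,0)]⟩,⟨0,[(18,0)]⟩⟩,⟨false,
  1,⟨1,[(30,1),(1,0),(0,0)]⟩,⟨0,[(28,0)]⟩⟩,⟨true,0,⟨0,[(4,0)]⟩,⟨0,[(16,0)]⟩⟩,⟨true,0,⟨0,[(29,0)]⟩,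
  ⟨1,[(17,0),(0,0)]⟩⟩,⟨false,0,⟨0,[(2,0)]⟩,⟨9,[(5,9),(4,0),(0,0),(15,1),(2,9),(2,4)]⟩⟩,[]⟩))) (.I
  [0,0,-2,0,1,-2,1] (.K ⟨0,[0,1,1],0,0,(⟨0,[(19,0),(4,0)]⟩,⟨0,[(7,0)]⟩),.k,.k,(.x (-1) ⟨0,[(0,0)]⟩
  ⟨1,[(16,0),(0,2),(1,1),(4,3)]⟩),.k,.k,[⟨1,[(16,0),(0,0)]⟩,⟨0,[(2,0)]⟩,⟨0,[(1,0)]⟩,⟨0,[(14,0),(15,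
  0)]⟩]⟩) (.I [0,0,2,2,-1,0,0,1] (.K ⟨0,[0,1,1],0,0,(⟨0,[(20,0),(4,0)]⟩,⟨0,[(8,0)]⟩),.k,.k,(.r 1 ⟨0,
  [(0,0)]⟩ ⟨0,[(2,0),(0,0),(26,0),(1,0),(0,0)]⟩),.k,.k,[⟨1,[(17,0),(0,0)]⟩,⟨0,[(3,0)]⟩,⟨0,[(2,0)]⟩,
  ⟨0,[(15,0),(15,0)]⟩]⟩) (.I [0,-1,1,1,0,0,0,-1] (.I [0,0,-2,-2,1,0,0,-1] (.K ⟨0,[0,1,1],0,0,(⟨0,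
  [(22,0),(4,0)]⟩,⟨0,[(10,0)]⟩),.k,.k,(.r 0 ⟨0,[(17,0),(2,0),(9,0),(2,0)]⟩ ⟨0,[(0,0)]⟩),.k,.k,[⟨1,
  [(19,0),(0,0)]⟩,⟨0,[(5,0)]⟩,⟨0,[(4,0)]⟩,⟨0,[(17,0),(15,0)]⟩]⟩) (.S ⟨1,0,[0,0,1,1,0,0,0,1],[0,1,1],
  [0,1,1,1,0,0,0,1],(⟨0,[(22,0),(4,0)]⟩,⟨0,[(10,0)]⟩),⟨0,[(22,0)]⟩,.k,.k,⟨true,0,⟨0,[(37,0)]⟩,⟨0,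
  []⟩⟩,⟨false,1,⟨1,[(12,0),(0,0),(21,0)]⟩,⟨0,[]⟩⟩,⟨false,0,⟨0,[(33,0)]⟩,⟨0,[(32,0),(2,0)]⟩⟩,⟨true,0,
  ⟨0,[(33,0)]⟩,⟨0,[(32,0)]⟩⟩,[.e ⟨false,0,⟨7,[(0,3),(7,3),(3,0),(0,0),(14,1),(5,2)]⟩,⟨2,[(1,0),(0,
  1),(32,0)]⟩⟩ ⟨false,0,⟨23,[(0,11),(5,9),(1,1),(7,9),(12,1),(4,6),(0,0)]⟩,⟨10,[(1,2),(0,6),(9,3),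
  (0,3),(4,0),(0,0),(8,0)]⟩⟩,.o ⟨false,1,⟨9,[(0,4),(4,4),(0,2),(10,1),(11,1),(4,4),(0,5)]⟩,⟨0,[(4,
  0)]⟩⟩,.o ⟨false,1,⟨4,[(5,3),(13,0),(9,0),(4,2)]⟩,⟨0,[(20,0)]⟩⟩,.a ⟨true,0,⟨0,[(5,0)]⟩,⟨10,[(3,0),
  (3,1),(1,3),(6,1),(0,1),(3,0),(4,1),(8,0)]⟩⟩ ⟨false,0,⟨23,[(0,11),(5,9),(1,1),(7,9),(12,1),(4,6),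
  (0,0)]⟩,⟨5,[(1,0),(0,1),(1,2),(14,2),(15,3)]⟩⟩ ⟨true,0,⟨23,[(0,11),(5,9),(1,1),(7,9),(12,1),(4,6),
  (0,0)]⟩,⟨0,[(4,0),(0,0)]⟩⟩]⟩)) (.S ⟨1,0,[0,1,0,0,0,0,0,-1],[1,0,-1],[1,0,0,-1,0,0,0,-1],(⟨0,[(20,
  0)]⟩,⟨0,[(21,0)]⟩),⟨0,[(9,0)]⟩,.k,.k,⟨false,1,⟨0,[(31,0),(2,0)]⟩,⟨0,[(32,0)]⟩⟩,⟨true,0,⟨0,[(36,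
  0)]⟩,⟨0,[]⟩⟩,⟨true,0,⟨0,[]⟩,⟨0,[(36,0)]⟩⟩,⟨false,0,⟨0,[(32,0)]⟩,⟨0,[(31,0),(2,0)]⟩⟩,[.o ⟨false,0,
  ⟨0,[(17,0)]⟩,⟨4,[(5,3),(10,0),(11,0),(5,2)]⟩⟩,.e ⟨false,1,⟨0,[(1,0),(27,0)]⟩,⟨0,[(7,0),(24,0)]⟩⟩
  ⟨false,1,⟨4,[(4,3),(1,4),(11,0),(9,0),(4,2)]⟩,⟨0,[(0,0),(28,0)]⟩⟩,.a ⟨true,0,⟨10,[(2,0),(3,1),(1,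
  3),(6,1),(0,1),(3,0),(4,1),(8,0)]⟩,⟨0,[(4,0)]⟩⟩ ⟨false,1,⟨1,[(1,0),(1,0),(14,0),(10,0),(4,0)]⟩,⟨0,
  [(0,0),(28,0),(2,0)]⟩⟩ ⟨true,0,⟨0,[(4,0),(12,0)]⟩,⟨0,[(0,0),(28,0)]⟩⟩,.o ⟨false,0,⟨0,[(19,0)]⟩,⟨4,
  [(4,3),(13,0),(9,0),(4,2)]⟩⟩]⟩))))))

theorem ok1 : chk K t1 l2 = true := by decide +kernel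

noncomputable def t2 : Tre :=
  (.Q [0,0,0,0,0,0,-1,0,0,0,-1] (.p false [0,0,1] [] (⟨0,[(16,0)]⟩,⟨0,[(15,0)]⟩) .k 0 (⟨0,[]⟩,⟨0,
  []⟩) .k .k) (.Q [0,-1,0,1,0,0,-1,-1,0,0,-1] (.p false [0,0,1] [] (⟨0,[(17,0)]⟩,⟨0,[(16,0)]⟩) .k 0
  (⟨0,[]⟩,⟨0,[]⟩) .k .k) (.I [1,1,-1,0,0,0,0,1] (.R ⟨2,true,false,true,[0,1],[0,0,1],[0,1,1,1],(⟨0,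
  []⟩,⟨0,[]⟩),(⟨0,[(19,0)]⟩,⟨0,[(18,0)]⟩),⟨0,[]⟩,.k,.k,.k,.k,.k,.k,⟨false,0,⟨0,[(1,0),(14,0),(11,
  0)]⟩,⟨0,[(0,0),(28,0),(2,0)]⟩⟩,⟨true,0,⟨0,[(16,0)]⟩,⟨0,[(2,0)]⟩⟩,⟨true,0,⟨0,[(34,0)]⟩,⟨0,[]⟩⟩,
  ⟨false,1,⟨0,[(14,0),(14,0),(2,0)]⟩,⟨0,[(1,0)]⟩⟩,⟨false,0,⟨0,[(30,0)]⟩,⟨0,[(29,0),(2,0)]⟩⟩,⟨true,0,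
  ⟨0,[(14,0)]⟩,⟨0,[(3,0)]⟩⟩,[]⟩) (.R ⟨2,true,false,true,[0,1],[0,0,1],[1,1,1],(⟨0,[]⟩,⟨0,[]⟩),(⟨0,
  [(19,0)]⟩,⟨0,[(18,0)]⟩),⟨0,[]⟩,.k,.k,.k,.k,.k,.k,⟨false,0,⟨0,[(0,0),(27,0)]⟩,⟨1,[(5,1),(25,0),(0,
  0)]⟩⟩,⟨true,0,⟨0,[(16,0)]⟩,⟨0,[(2,0)]⟩⟩,⟨true,0,⟨0,[(29,0)]⟩,⟨0,[(30,0)]⟩⟩,⟨false,1,⟨0,[(14,0),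
  (14,0),(2,0)]⟩,⟨0,[(1,0)]⟩⟩,⟨false,0,⟨0,[]⟩,⟨1,[(9,0),(0,0),(21,0)]⟩⟩,⟨true,0,⟨0,[(14,0)]⟩,⟨0,[(3,
  0)]⟩⟩,[]⟩)) (.I [1,0,0,0,0,0,0,1] (.Q [0,-1,0,0,1,0,1,1,0,-1,1] (.p true [0,0,1] [1] (⟨0,[(19,
  0)]⟩,⟨0,[(18,0)]⟩) .k 1 (⟨0,[]⟩,⟨0,[]⟩) .k .k) (.S ⟨1,0,[0,0,0,0,0,0,0,1],[0,0,1],[0,1,0,0,0,0,0,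
  1],(⟨0,[(20,0)]⟩,⟨0,[(19,0)]⟩),⟨0,[(9,0)]⟩,.k,.k,⟨true,0,⟨0,[(35,0)]⟩,⟨0,[]⟩⟩,⟨false,1,⟨1,[(10,0),
  (0,0),(21,0)]⟩,⟨0,[]⟩⟩,⟨false,0,⟨0,[(31,0)]⟩,⟨0,[(30,0),(2,0)]⟩⟩,⟨true,0,⟨0,[(31,0)]⟩,⟨0,[(30,
  0)]⟩⟩,[.o ⟨false,1,⟨20,[(0,10),(9,5),(0,5),(3,9),(11,1),(7,0)]⟩,⟨0,[(4,0)]⟩⟩,.o ⟨false,1,⟨0,[(0,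
  0)]⟩,⟨0,[(16,0)]⟩⟩,.o ⟨false,1,⟨9,[(10,0),(0,0),(5,9),(9,1),(4,4)]⟩,⟨0,[(3,0)]⟩⟩,.a ⟨true,0,⟨0,
  [(17,0)]⟩,⟨0,[(14,0)]⟩⟩ ⟨true,0,⟨0,[(1,0),(27,0)]⟩,⟨0,[(4,0),(12,0)]⟩⟩ ⟨false,1,⟨0,[(0,0),(13,
  0)]⟩,⟨0,[(4,0),(12,0)]⟩⟩]⟩) (.I [0,0,0,1,0,0,0,-1] (.S ⟨1,0,[0,0,0,0,0,0,0,1],[0,0,1],[0,1],(⟨0,
  [(21,0)]⟩,⟨0,[(20,0)]⟩),⟨0,[(10,0)]⟩,.k,.k,⟨true,0,⟨0,[(0,0),(30,0)]⟩,⟨0,[(2,0)]⟩⟩,⟨false,1,⟨1,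
  [(11,0),(0,0),(21,0)]⟩,⟨0,[]⟩⟩,⟨false,0,⟨0,[(0,0)]⟩,⟨0,[(2,0),(28,0),(2,0)]⟩⟩,⟨true,0,⟨0,[(32,
  0)]⟩,⟨0,[(31,0)]⟩⟩,[.o ⟨false,1,⟨9,[(11,0),(0,0),(3,9),(11,1),(5,4)]⟩,⟨0,[(5,0)]⟩⟩,.e ⟨false,1,⟨1,
  [(11,0),(0,0),(20,0)]⟩,⟨0,[]⟩⟩ ⟨false,1,⟨1,[(2,1),(30,0),(0,0)]⟩,⟨0,[(0,0),(30,0)]⟩⟩,.o ⟨false,1,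
  ⟨9,[(11,0),(0,0),(5,9),(9,1),(4,4)]⟩,⟨0,[(4,0)]⟩⟩,.a ⟨true,0,⟨0,[(18,0)]⟩,⟨0,[(15,0)]⟩⟩ ⟨true,0,
  ⟨0,[(30,0)]⟩,⟨1,[(18,0),(0,0)]⟩⟩ ⟨false,1,⟨1,[(2,1),(30,0),(0,0)]⟩,⟨0,[(5,0),(12,0)]⟩⟩]⟩) (.Q [0,
  -1,0,1,1,0,1,1,0,-1,1] (.p true [0,0,1] [1] (⟨0,[(21,0)]⟩,⟨0,[(20,0)]⟩) .k 1 (⟨0,[]⟩,⟨0,[]⟩) .k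
  .k) (.R ⟨2,true,false,true,[0,1],[1,0,-1],[1,1,1],(⟨0,[]⟩,⟨0,[]⟩),(⟨0,[(21,0)]⟩,⟨0,[(22,0)]⟩),⟨0,
  []⟩,.k,.k,.k,.k,.k,.k,⟨false,0,⟨0,[(3,0)]⟩,⟨0,[(6,0),(12,0),(14,0)]⟩⟩,⟨true,(-1),⟨0,[(1,0),(0,0),
  (27,0)]⟩,⟨9,[(12,0),(0,0),(5,9),(9,1),(4,4)]⟩⟩,⟨true,0,⟨0,[(32,0)]⟩,⟨0,[(33,0)]⟩⟩,⟨false,0,⟨0,[(2,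
  0),(29,0),(2,0)]⟩,⟨0,[(0,0)]⟩⟩,⟨false,0,⟨0,[]⟩,⟨1,[(12,0),(0,0),(21,0)]⟩⟩,⟨true,(-1),⟨0,[(2,0)]⟩,
  ⟨10,[(0,5),(3,4),(7,2),(0,2),(15,0),(2,0)]⟩⟩,[]⟩) (.I [0,0,-2,-2,1] (.R ⟨1,false,false,true,[1,
  -1],[0,-1,1],[0,1,-1,-1],(⟨0,[(27,0)]⟩,⟨0,[(28,0)]⟩),(⟨0,[(12,0)]⟩,⟨0,[(22,0),(5,0)]⟩),⟨0,[(11,0),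
  (0,0)]⟩,.k,.k,(.r (-1) ⟨0,[(0,0)]⟩ ⟨0,[(31,1),(6,1)]⟩),.k,.k,.k,⟨false,1,⟨0,[(7,0),(12,0),(14,
  0)]⟩,⟨0,[(4,0)]⟩⟩,⟨true,1,⟨9,[(13,0),(0,0),(5,9),(9,1),(4,4)]⟩,⟨0,[(2,0),(0,0),(27,0)]⟩⟩,⟨true,0,
  ⟨0,[(38,0)]⟩,⟨0,[]⟩⟩,⟨false,1,⟨9,[(13,0),(0,0),(3,9),(11,1),(5,4)]⟩,⟨0,[(3,0),(32,0)]⟩⟩,⟨false,0,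
  ⟨0,[(34,0)]⟩,⟨0,[(33,0),(2,0)]⟩⟩,⟨false,1,⟨9,[(13,0),(0,0),(3,9),(11,1),(3,9),(1,4)]⟩,⟨0,[(1,0),
  (34,0)]⟩⟩,[.a ⟨true,0,⟨0,[(5,0)]⟩,⟨0,[(3,0),(30,0),(1,0)]⟩⟩ ⟨false,1,⟨3,[(0,1),(12,0),(0,0),(14,
  1),(5,0)]⟩,⟨0,[(31,0)]⟩⟩ ⟨true,1,⟨9,[(0,4),(12,0),(0,0),(3,9),(11,1)]⟩,⟨0,[(1,0),(29,1)]⟩⟩,.o
  ⟨false,1,⟨9,[(5,9),(7,0),(0,0),(15,1),(5,4)]⟩,⟨0,[(7,0),(26,0)]⟩⟩,.o ⟨false,0,⟨1,[(20,0),(0,0)]⟩,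
  ⟨9,[(13,0),(0,0),(15,1),(4,4)]⟩⟩,.e ⟨false,1,⟨1,[(0,0),(34,0)]⟩,⟨1,[(20,0),(0,0),(9,1)]⟩⟩ ⟨false,
  2,⟨9,[(0,4),(12,0),(0,0),(3,9),(11,1),(4,4),(0,4)]⟩,⟨0,[(1,0),(29,1)]⟩⟩]⟩) (.Q [0,-1,0,2,1,0,1,1,
  0,-1,1] (.p true [0,0,1] [1] (⟨0,[(23,0)]⟩,⟨0,[(22,0)]⟩) .k 1 (⟨0,[]⟩,⟨0,[]⟩) .k .k) (.R ⟨1,true,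
  false,false,[1,0,-1],[0,1],[0,0,0,0,0,0,0,-1],(⟨0,[(23,0)]⟩,⟨0,[(24,0)]⟩),(⟨0,[(29,0)]⟩,⟨0,[(28,
  0)]⟩),⟨0,[(12,0)]⟩,.k,.k,.k,.k,(.r (-2) ⟨9,[(2,8),(6,0),(11,9),(9,1),(2,10),(1,14),(0,9)]⟩ ⟨1,[(1,
  2),(1,1),(29,1),(3,0)]⟩),.k,⟨true,1,⟨9,[(2,8),(6,0),(11,9),(9,1),(2,0),(1,9),(0,4)]⟩,⟨0,[(1,0),(1,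
  0)]⟩⟩,⟨false,2,⟨9,[(14,0),(0,0),(5,9),(9,1),(4,14)]⟩,⟨2,[(1,0),(0,1),(0,1),(14,0),(13,1)]⟩⟩,
  ⟨false,1,⟨1,[(14,0),(0,0),(21,0)]⟩,⟨0,[]⟩⟩,⟨true,1,⟨49,[(0,24),(13,13),(0,13),(3,24),(11,4),(5,0),
  (1,1)]⟩,⟨0,[(2,0)]⟩⟩,⟨true,0,⟨0,[(35,0)]⟩,⟨0,[(34,0)]⟩⟩,⟨false,1,⟨0,[(0,0)]⟩,⟨0,[(2,0),(31,0),(2,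
  0)]⟩⟩,[]⟩) (.Q [0,-1,0,2,0,0,-1,-1,0,0,-1] (.p false [0,0,1] [] (⟨0,[(24,0)]⟩,⟨0,[(23,0)]⟩) .k 0
  (⟨0,[]⟩,⟨0,[]⟩) .k .k) (.R ⟨1,false,false,false,[0,0,1],[0,1],[1,1,1],(⟨0,[(25,0)]⟩,⟨0,[(24,0)]⟩),
  (⟨0,[(30,0)]⟩,⟨0,[(29,0)]⟩),⟨0,[(14,0)]⟩,.k,.k,.k,.k,(.x 0 ⟨3,[(1,0),(0,0),(1,0),(17,4),(1,3),(5,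
  7),(1,0),(0,0)]⟩ ⟨19,[(0,2),(0,0),(2,3),(8,7),(0,27),(4,15),(6,3),(5,4),(1,1),(2,10)]⟩),.k,⟨true,
  0,⟨0,[(35,0)]⟩,⟨1,[(2,0),(35,0)]⟩⟩,⟨false,1,⟨5,[(12,0),(6,3),(12,0),(4,3)]⟩,⟨0,[(22,0)]⟩⟩,⟨false,
  0,⟨0,[(9,0),(12,0)]⟩,⟨1,[(6,1),(30,0),(0,0)]⟩⟩,⟨true,0,⟨1,[(0,0),(20,0)]⟩,⟨0,[(7,0)]⟩⟩,⟨false,0,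
  ⟨1,[(0,0),(20,0),(0,1)]⟩,⟨1,[(4,1),(32,0),(0,0)]⟩⟩,⟨false,0,⟨0,[(0,0)]⟩,⟨0,[(7,0),(27,0),(2,0)]⟩⟩,
  [.e ⟨false,0,⟨0,[(40,0)]⟩,⟨1,[(37,0),(0,0)]⟩⟩ ⟨false,0,⟨0,[(0,0),(3,0),(29,0)]⟩,⟨1,[(22,1),(12,1),
  (1,0),(0,0)]⟩⟩,.o ⟨false,1,⟨9,[(0,4),(14,0),(0,0),(3,4),(11,1),(5,4)]⟩,⟨0,[(35,0)]⟩⟩,.o ⟨false,1,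
  ⟨9,[(15,0),(0,0),(5,9),(9,1),(4,4)]⟩,⟨0,[(8,0)]⟩⟩,.a ⟨true,0,⟨0,[(22,0)]⟩,⟨0,[(19,0)]⟩⟩ ⟨false,0,
  ⟨0,[]⟩,⟨1,[(15,0),(0,0),(21,0)]⟩⟩ ⟨true,0,⟨0,[(0,0),(3,0),(29,0)]⟩,⟨0,[(22,0),(12,0)]⟩⟩]⟩) (.Q
  [-1,0,0,0,0,0,0,0,-1,1,0,-1] (.p false [0,0,0,0,1] [1] (⟨0,[(18,0)]⟩,⟨0,[(17,0)]⟩) .k 1 (⟨0,[]⟩,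
  ⟨0,[]⟩) .k .k) (.Q [0,0,0,0,0,-1,0,0,0,0,0,1] (.ed false [1,-1,0,0,1] .k) (.S ⟨1,0,[1],[0,0,0,0,
  1],[0,1],(⟨0,[(20,0)]⟩,⟨0,[(19,0)]⟩),⟨0,[(0,0)]⟩,.k,(.r (-1) ⟨19,[(2,9),(9,9),(4,0),(0,0),(15,1),
  (4,9),(0,4)]⟩ ⟨9,[(4,4),(12,2),(0,2),(21,1),(1,3)]⟩),⟨true,0,⟨0,[(42,0)]⟩,⟨0,[]⟩⟩,⟨false,1,⟨1,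
  [(17,0),(0,0),(21,0)]⟩,⟨0,[]⟩⟩,⟨false,0,⟨1,[(4,0),(31,1),(3,0)]⟩,⟨19,[(2,9),(9,9),(4,0),(0,0),(15,
  1),(5,14)]⟩⟩,⟨true,0,⟨0,[(38,0)]⟩,⟨0,[(37,0)]⟩⟩,[.a ⟨true,0,⟨0,[(18,0)]⟩,⟨0,[(1,0)]⟩⟩ ⟨false,0,⟨0,
  [(36,0)]⟩,⟨1,[(17,0),(0,0),(21,0)]⟩⟩ ⟨true,0,⟨0,[]⟩,⟨1,[(24,0),(0,0)]⟩⟩,.o ⟨false,1,⟨9,[(17,0),(0,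
  10),(15,1),(5,4)]⟩,⟨3,[(1,3),(0,0),(1,0),(2,0),(26,0),(1,1)]⟩⟩,.e ⟨true,0,⟨0,[(42,0)]⟩,⟨0,[]⟩⟩
  ⟨true,0,⟨0,[]⟩,⟨0,[(42,0)]⟩⟩,.o ⟨false,0,⟨3,[(2,0),(0,0),(0,1),(13,3),(15,0),(5,0)]⟩,⟨5,[(1,4),
  (15,0),(16,0),(4,2)]⟩⟩]⟩) (.S ⟨1,0,[-1,1],[1,0,0,0,-1],[-1],(⟨0,[(19,0)]⟩,⟨0,[(20,0)]⟩),⟨0,[(0,0),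
  (14,0),(0,0)]⟩,.k,(.r (-1) ⟨53,[(2,19),(9,19),(4,1),(0,1),(15,3),(2,13),(1,26),(0,16)]⟩ ⟨1,[(4,0),
  (12,0),(0,0)]⟩),⟨false,1,⟨1,[(17,0),(0,0),(21,0)]⟩,⟨0,[]⟩⟩,⟨true,0,⟨0,[(42,0)]⟩,⟨0,[]⟩⟩,⟨true,0,
  ⟨0,[(38,0)]⟩,⟨0,[(37,0)]⟩⟩,⟨false,0,⟨0,[(38,0)]⟩,⟨19,[(2,9),(9,9),(4,0),(0,0),(15,1),(5,14)]⟩⟩,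
  [.o ⟨false,0,⟨3,[(1,3),(0,0),(1,0),(2,0),(26,0),(1,1)]⟩,⟨9,[(17,0),(0,10),(15,1),(5,4)]⟩⟩,.e
  ⟨false,1,⟨0,[(36,0),(3,0)]⟩,⟨0,[(42,0)]⟩⟩ ⟨false,1,⟨9,[(17,3),(0,3),(20,4),(0,0),(1,1)]⟩,⟨0,[]⟩⟩,
  .a ⟨true,0,⟨0,[(1,0)]⟩,⟨0,[(18,0)]⟩⟩ ⟨false,1,⟨4,[(17,1),(0,1),(21,2),(1,0)]⟩,⟨0,[]⟩⟩ ⟨true,0,⟨0,
  [(42,0)]⟩,⟨0,[]⟩⟩,.o ⟨false,0,⟨3,[(1,3),(0,0),(0,0),(0,0),(29,0),(0,1)]⟩,⟨9,[(17,0),(0,10),(15,1),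
  (4,4)]⟩⟩]⟩)) (.Q [-1,-1,0,0,1,0,0,0,-1,0,0,-1] (.p false [0,0,0,0,1] [] (⟨0,[(19,0)]⟩,⟨0,[(18,
  0)]⟩) .k 0 (⟨0,[]⟩,⟨0,[]⟩) .k .k) (.R ⟨1,false,false,true,[0,0,1],[0,0,0,0,1],[0,1,0,0,0,0,0,1],
  (⟨0,[(27,0)]⟩,⟨0,[(26,0)]⟩),(⟨0,[(20,0)]⟩,⟨0,[(19,0)]⟩),⟨0,[(16,0)]⟩,.k,.k,.k,.k,(.r (-1) ⟨23,[(2,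
  9),(3,3),(6,9),(0,4),(19,0),(4,11),(0,9)]⟩ ⟨0,[(11,0),(12,0),(13,0)]⟩),.k,⟨true,0,⟨1,[(4,0),(1,1),
  (29,1),(3,0)]⟩,⟨0,[(11,0),(12,0)]⟩⟩,⟨false,0,⟨4,[(1,4),(1,0),(2,0),(14,3),(14,0),(1,2),(1,0)]⟩,⟨0,
  [(0,0),(23,0),(11,0)]⟩⟩,⟨true,0,⟨0,[(42,0)]⟩,⟨0,[]⟩⟩,⟨true,(-1),⟨0,[(1,0),(5,0)]⟩,⟨0,[(0,0),(21,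
  0)]⟩⟩,⟨false,0,⟨0,[(38,0)]⟩,⟨19,[(2,9),(9,9),(4,0),(0,0),(15,1),(5,14)]⟩⟩,⟨true,(-1),⟨0,[(1,0),(5,
  0),(30,0)]⟩,⟨1,[(0,1),(1,0),(19,0)]⟩⟩,[.o ⟨false,0,⟨11,[(1,6),(2,1),(13,4),(14,3),(0,0),(2,3)]⟩,
  ⟨0,[(0,0)]⟩⟩,.o ⟨false,0,⟨0,[(1,0)]⟩,⟨2,[(0,0),(16,1),(24,0)]⟩⟩,.o ⟨false,1,⟨9,[(17,0),(0,0),(5,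
  9),(9,1),(4,4)]⟩,⟨0,[(10,0)]⟩⟩,.a ⟨true,0,⟨0,[(24,0)]⟩,⟨0,[(21,0)]⟩⟩ ⟨true,0,⟨0,[(8,0),(27,0)]⟩,
  ⟨0,[(11,0),(12,0)]⟩⟩ ⟨false,0,⟨0,[(1,0),(19,0)]⟩,⟨0,[(0,0),(23,0)]⟩⟩]⟩) (.Q [0,0,-1,0,1,0,0,0,-1,
  1,0,-1] (.p false [0,0,0,0,1] [1] (⟨0,[(20,0)]⟩,⟨0,[(19,0)]⟩) .k 1 (⟨0,[]⟩,⟨0,[]⟩) .k .k) (.Q [0,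
  0,1,0,-1,0,0,0,1,0,0,1] (.p true [0,0,0,0,1] [] (⟨0,[(21,0)]⟩,⟨0,[(20,0)]⟩) .k 0 (⟨0,[]⟩,⟨0,[]⟩)
  .k .k) (.Q [0,0,0,0,0,-1,0,0,0,0,0,1] (.ed false [1,-1,0,0,1] .k) (.Q [-1,-1,0,-1,1,0,0,0,-1,1,0,
  -1] (.p false [0,0,0,0,1] [1] (⟨0,[(23,0)]⟩,⟨0,[(22,0)]⟩) .k 1 (⟨0,[]⟩,⟨0,[]⟩) .k .k) (.S ⟨1,0,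
  [1],[0,0,0,0,1],[1,0,1],(⟨0,[(24,0)]⟩,⟨0,[(23,0)]⟩),⟨0,[(1,0)]⟩,.k,(.r (-1) ⟨41,[(0,13),(5,10),(0,
  2),(8,7),(5,13),(15,4),(4,20)]⟩ ⟨9,[(8,4),(12,2),(0,2),(21,1),(1,3)]⟩),⟨true,0,⟨1,[(28,0),(0,0)]⟩,
  ⟨0,[(40,0)]⟩⟩,⟨false,1,⟨1,[(21,0),(0,0),(21,0)]⟩,⟨0,[]⟩⟩,⟨false,0,⟨1,[(8,0),(35,0)]⟩,⟨41,[(0,13),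
  (5,10),(0,2),(8,7),(5,13),(15,4),(4,20)]⟩⟩,⟨true,0,⟨0,[(42,0)]⟩,⟨0,[(41,0)]⟩⟩,[.o ⟨false,0,⟨0,[(5,
  0)]⟩,⟨10,[(0,4),(7,1),(12,5),(16,0),(1,3),(1,0),(3,0)]⟩⟩,.e ⟨false,1,⟨1,[(21,0),(0,0),(21,0)]⟩,⟨0,
  [(40,0)]⟩⟩ ⟨false,1,⟨1,[(43,0),(0,0)]⟩,⟨0,[(46,0)]⟩⟩,.o ⟨false,0,⟨5,[(2,3),(2,0),(16,0),(15,0),(4,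
  1)]⟩,⟨0,[(21,0)]⟩⟩,.a ⟨true,(-1),⟨0,[(2,0)]⟩,⟨0,[(3,0)]⟩⟩ ⟨true,0,⟨0,[]⟩,⟨0,[(46,0)]⟩⟩ ⟨false,1,
  ⟨1,[(43,0),(0,0)]⟩,⟨1,[(28,0),(0,0)]⟩⟩]⟩) (.R ⟨1,false,false,false,[0,0,0,0,1],[0,-1,1],[0,1],(⟨0,
  [(24,0)]⟩,⟨0,[(23,0)]⟩),(⟨0,[(20,0)]⟩,⟨0,[(30,0),(5,0)]⟩),⟨0,[(1,0)]⟩,.k,.k,(.r (-1) ⟨19,[(6,9),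
  (9,9),(4,0),(0,0),(15,1),(4,9),(0,4)]⟩ ⟨9,[(8,4),(12,2),(0,2),(21,1),(1,3)]⟩),(.r 0 ⟨0,[(15,0),
  (12,0),(13,0)]⟩ ⟨23,[(6,9),(3,3),(6,9),(0,4),(19,0),(4,11),(0,9)]⟩),.k,.k,⟨false,0,⟨5,[(11,4),(15,
  0),(0,5),(9,0),(3,5),(0,2)]⟩,⟨1,[(10,1),(32,0),(0,0)]⟩⟩,⟨true,1,⟨0,[(21,0),(6,0)]⟩,⟨8,[(0,8),(6,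
  4),(0,1),(1,4),(14,3),(16,1),(1,6)]⟩⟩,⟨true,0,⟨0,[(46,0)]⟩,⟨0,[]⟩⟩,⟨false,2,⟨1,[(6,0),(14,1),(4,
  0),(17,1)]⟩,⟨0,[(0,0),(10,0),(32,0)]⟩⟩,⟨false,0,⟨1,[(8,0),(31,1),(3,0)]⟩,⟨19,[(6,9),(9,9),(4,0),
  (0,0),(15,1),(5,14)]⟩⟩,⟨false,2,⟨0,[(21,0),(4,0),(17,0)]⟩,⟨1,[(0,1),(6,0),(3,0),(32,1)]⟩⟩,[.o
  ⟨false,1,⟨9,[(6,4),(14,0),(0,0),(3,4),(11,1),(5,4)]⟩,⟨0,[(15,0),(26,0)]⟩⟩,.a ⟨true,1,⟨1,[(6,0),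
  (19,0),(17,1)]⟩,⟨0,[(11,0),(30,0)]⟩⟩ ⟨false,1,⟨1,[(21,0),(0,0),(20,0)]⟩,⟨0,[]⟩⟩ ⟨true,2,⟨1,[(6,0),
  (14,1),(4,0),(17,1)]⟩,⟨3,[(0,3),(6,2),(0,1),(2,0),(30,1),(1,1)]⟩⟩,.o ⟨false,0,⟨5,[(2,3),(2,0),(16,
  0),(15,0),(4,1)]⟩,⟨0,[(21,0)]⟩⟩,.e ⟨true,0,⟨0,[(40,0)]⟩,⟨1,[(28,0),(0,0)]⟩⟩ ⟨true,2,⟨1,[(6,0),(14,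
  1),(4,0),(16,0),(0,0)]⟩,⟨3,[(0,3),(6,2),(0,1),(2,0),(30,1),(1,1)]⟩⟩]⟩)) (.Q [0,0,1,-1,-1,0,0,0,1,
  0,0,1] (.p true [0,0,0,0,1] [] (⟨0,[(23,0)]⟩,⟨0,[(22,0)]⟩) .k 0 (⟨0,[]⟩,⟨0,[]⟩) .k .k) (.R ⟨0,
  false,false,false,[0,0,0,0,1],[0,1],[1,1,1],(⟨0,[(24,0)]⟩,⟨0,[(23,0)]⟩),(⟨0,[(36,0)]⟩,⟨0,[(35,
  0)]⟩),⟨0,[(1,0)]⟩,.k,.k,(.r (-1) ⟨19,[(6,9),(9,9),(4,0),(0,0),(15,1),(4,9),(0,4)]⟩ ⟨9,[(8,4),(12,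
  2),(0,2),(21,1),(1,3)]⟩),(.r (-1) ⟨19,[(6,9),(9,9),(4,0),(0,0),(15,1),(4,9),(0,4)]⟩ ⟨9,[(8,4),(12,
  2),(0,2),(21,1),(1,3)]⟩),.k,.k,⟨true,0,⟨0,[(41,0)]⟩,⟨1,[(8,0),(35,0)]⟩⟩,⟨false,2,⟨0,[(21,0),(21,
  0)]⟩,⟨0,[(2,0)]⟩⟩,⟨false,0,⟨1,[(28,0),(0,0)]⟩,⟨1,[(43,0),(0,0)]⟩⟩,⟨true,1,⟨0,[(21,0),(20,0)]⟩,⟨0,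
  [(0,0),(39,0)]⟩⟩,⟨false,0,⟨0,[]⟩,⟨0,[]⟩⟩,⟨false,0,⟨0,[]⟩,⟨0,[]⟩⟩,[.a ⟨true,0,⟨0,[(42,0)]⟩,⟨0,[(0,
  0),(2,0)]⟩⟩ ⟨false,0,⟨0,[(46,0)]⟩,⟨1,[(43,0),(0,0)]⟩⟩ ⟨true,1,⟨0,[(21,0),(20,0)]⟩,⟨0,[(0,0)]⟩⟩,.o
  ⟨false,1,⟨9,[(21,0),(0,0),(15,1),(3,9),(1,4)]⟩,⟨0,[(41,0)]⟩⟩,.o ⟨false,0,⟨5,[(2,3),(2,0),(16,0),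
  (15,0),(4,1)]⟩,⟨0,[(21,0)]⟩⟩,.e ⟨false,0,⟨0,[]⟩,⟨1,[(21,0),(0,0),(21,0)]⟩⟩ ⟨false,2,⟨1,[(21,1),
  (20,1),(0,0),(0,0)]⟩,⟨0,[(0,0)]⟩⟩]⟩) (.Q [-1,0,0,0,0,0,-1,-1,-1,1,-1,-1] (.p false [0,0,1] [1,0,0,
  0,-1] (⟨0,[(31,0)]⟩,⟨0,[(30,0)]⟩) .k 2 (⟨0,[(23,0)]⟩,⟨0,[(24,0)]⟩) .k (.r 0 ⟨0,[(12,0)]⟩ ⟨1,[(27,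
  1),(0,1),(14,0),(0,0)]⟩)) (.R ⟨1,false,false,true,[1,0,0,0,-1],[0,-1,1],[-1],(⟨0,[(24,0)]⟩,⟨0,
  [(25,0)]⟩),(⟨0,[(21,0)]⟩,⟨0,[(31,0),(5,0)]⟩),⟨0,[(2,0),(17,0),(0,0)]⟩,.k,.k,(.r (-1) ⟨53,[(7,19),
  (9,19),(4,1),(0,1),(15,3),(2,13),(1,26),(0,16)]⟩ ⟨1,[(9,0),(12,0),(0,0)]⟩),(.r 0 ⟨0,[(16,0),(12,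
  0),(13,0)]⟩ ⟨23,[(7,9),(3,3),(6,9),(0,4),(19,0),(4,11),(0,9)]⟩),.k,.k,⟨false,1,⟨1,[(16,1),(12,1),
  (13,1),(0,0),(0,0)]⟩,⟨0,[(11,0),(29,0)]⟩⟩,⟨true,0,⟨5,[(3,3),(2,0),(16,0),(5,5),(9,0),(4,1)]⟩,⟨0,
  [(0,0),(12,0)]⟩⟩,⟨false,1,⟨1,[(22,0),(0,0),(21,0)]⟩,⟨0,[]⟩⟩,⟨true,0,⟨1,[(6,1),(0,0),(19,0)]⟩,⟨2,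
  [(0,1),(0,0),(10,0),(27,0),(2,0)]⟩⟩,⟨true,0,⟨0,[(43,0)]⟩,⟨0,[(42,0)]⟩⟩,⟨true,0,⟨0,[(6,0),(20,0)]⟩,
  ⟨0,[(0,0)]⟩⟩,[.a ⟨true,0,⟨0,[(14,0)]⟩,⟨0,[(12,0),(30,0),(1,0)]⟩⟩ ⟨false,1,⟨9,[(22,3),(0,3),(20,4),
  (0,0),(1,1)]⟩,⟨0,[]⟩⟩ ⟨true,0,⟨5,[(3,3),(2,0),(0,2),(15,0),(3,2),(11,0),(4,1)]⟩,⟨0,[(0,0),(39,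
  0)]⟩⟩,.o ⟨false,1,⟨9,[(7,4),(14,0),(0,0),(3,4),(11,1),(5,4)]⟩,⟨0,[(16,0),(26,0)]⟩⟩,.o ⟨false,1,⟨0,
  [(22,0)]⟩,⟨5,[(3,3),(2,0),(16,0),(15,0),(4,1)]⟩⟩,.e ⟨false,1,⟨0,[(41,0),(3,0)]⟩,⟨1,[(29,0),(0,
  0)]⟩⟩ ⟨false,1,⟨1,[(6,1),(0,0),(19,0),(16,0),(0,0)]⟩,⟨0,[(0,0),(39,0)]⟩⟩]⟩) (.I [1,0,0,0,0,0,1,1,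
  1] (.I [1,1,-1,-1] (.C [(0,0),(1,0),(0,0),(6,0),(0,0),(35,0)]) (.C [(0,0),(1,0),(0,0),(6,0)]))
  (.C [(0,0),(0,0),(1,0),(17,0)]))))) (.Q [-1,-1,0,1,1,0,0,0,-1,0,0,-1] (.p false [0,0,0,0,1] []
  (⟨0,[(22,0)]⟩,⟨0,[(21,0)]⟩) .k 0 (⟨0,[]⟩,⟨0,[]⟩) .k .k) (.R ⟨2,true,false,true,[0,1],[0,0,0,0,1],
  [1,1,1],(⟨0,[]⟩,⟨0,[]⟩),(⟨0,[(23,0)]⟩,⟨0,[(22,0)]⟩),⟨0,[]⟩,.k,.k,.k,(.r 0 ⟨4,[(0,0),(6,1),(12,0),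
  (0,1),(22,0),(0,0)]⟩ ⟨19,[(5,9),(9,9),(4,0),(0,0),(15,1),(4,9),(0,4)]⟩),.k,.k,⟨true,0,⟨1,[(27,0),
  (0,0)]⟩,⟨0,[]⟩⟩,⟨false,0,⟨0,[(21,0)]⟩,⟨0,[(1,0)]⟩⟩,⟨true,0,⟨0,[(40,0)]⟩,⟨0,[(41,0)]⟩⟩,⟨false,0,⟨3,
  [(4,0),(0,0),(0,0),(14,2),(21,0)]⟩,⟨0,[(0,0)]⟩⟩,⟨false,0,⟨0,[]⟩,⟨1,[(20,0),(0,0),(21,0)]⟩⟩,⟨true,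
  (-1),⟨0,[(3,0)]⟩,⟨1,[(0,0),(19,0),(19,0)]⟩⟩,[]⟩) (.I [1,1,-1,-1] (.C [(0,0),(0,0),(0,0),(5,0),(35,
  0)]) (.C [(0,0),(0,0),(0,0)])))) (.Q [1,0,0,0,-1,0,0,0,1,0,0,1] (.p true [0,0,0,0,1] [] (⟨0,[(21,
  0)]⟩,⟨0,[(20,0)]⟩) .k 0 (⟨0,[]⟩,⟨0,[]⟩) .k .k) (.R ⟨2,true,false,true,[0,1],[0,0,0,0,1],[0,1],(⟨0,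
  []⟩,⟨0,[]⟩),(⟨0,[(22,0)]⟩,⟨0,[(21,0)]⟩),⟨0,[]⟩,.k,.k,.k,(.r 0 ⟨9,[(6,4),(12,2),(0,2),(21,1),(1,
  3)]⟩ ⟨19,[(4,9),(9,9),(4,0),(0,0),(15,1),(4,9),(0,4)]⟩),.k,.k,⟨false,1,⟨9,[(19,3),(0,3),(20,4),(0,
  0),(1,1)]⟩,⟨0,[]⟩⟩,⟨true,(-1),⟨6,[(0,3),(0,0),(2,0),(0,0),(0,0),(13,1),(16,1),(5,1)]⟩,⟨0,[(19,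
  0)]⟩⟩,⟨false,1,⟨19,[(4,9),(9,9),(4,0),(0,0),(15,1),(4,9),(0,4)]⟩,⟨0,[(37,0)]⟩⟩,⟨true,(-1),⟨3,[(0,
  0),(1,1),(0,0),(0,0),(0,0)]⟩,⟨0,[(19,0),(20,0)]⟩⟩,⟨true,0,⟨0,[(38,0)]⟩,⟨1,[(26,0),(0,0)]⟩⟩,⟨false,
  (-1),⟨0,[(0,0)]⟩,⟨4,[(19,6),(0,1),(21,2),(1,0)]⟩⟩,[]⟩) (.R ⟨1,false,false,false,[0,0,1],[1,0,0,0,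
  -1],[0,0,0,0,0,0,0,1],(⟨0,[(29,0)]⟩,⟨0,[(28,0)]⟩),(⟨0,[(21,0)]⟩,⟨0,[(22,0)]⟩),⟨0,[(18,0)]⟩,.k,.k,
  .k,.k,(.r (-1) ⟨23,[(4,9),(3,3),(6,9),(0,4),(19,0),(4,11),(0,9)]⟩ ⟨0,[(13,0),(12,0),(13,0)]⟩),.k,
  ⟨true,0,⟨0,[(10,0)]⟩,⟨0,[(13,0),(12,0)]⟩⟩,⟨false,1,⟨0,[(19,0),(3,0)]⟩,⟨0,[(1,0),(24,0),(14,0)]⟩⟩,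
  ⟨false,1,⟨1,[(19,0),(0,0),(21,0)]⟩,⟨0,[]⟩⟩,⟨false,1,⟨0,[(9,0),(9,0),(22,0)]⟩,⟨1,[(1,1),(22,1),(16,
  0),(0,0)]⟩⟩,⟨true,0,⟨0,[(40,0)]⟩,⟨0,[(39,0)]⟩⟩,⟨false,1,⟨0,[(9,0),(9,0),(20,0),(1,0)]⟩,⟨1,[(1,1),
  (2,0),(19,0),(16,0),(0,0)]⟩⟩,[.o ⟨false,1,⟨0,[(0,0)]⟩,⟨0,[(3,0)]⟩⟩,.o ⟨false,2,⟨1,[(0,0),(18,1),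
  (0,0),(21,0)]⟩,⟨0,[(1,0),(36,0)]⟩⟩,.o ⟨false,1,⟨9,[(19,0),(0,0),(5,9),(9,1),(4,4)]⟩,⟨0,[(12,0)]⟩⟩,
  .a ⟨true,0,⟨0,[(26,0)]⟩,⟨0,[(23,0)]⟩⟩ ⟨false,1,⟨1,[(10,1),(30,0),(0,0)]⟩,⟨0,[(13,0),(12,0)]⟩⟩
  ⟨true,1,⟨0,[(0,0),(22,0)]⟩,⟨0,[(1,0),(24,0),(11,0)]⟩⟩]⟩))))))))))) (.I [0,-1,-1,0,1,0,0,1] (.S ⟨1,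
  0,[0,0,1,1,0,0,0,-1],[1,1,-1],[1,1,1,0,0,0,0,-1],(⟨0,[(19,0),(5,0)]⟩,⟨0,[(9,0)]⟩),⟨0,[(19,0)]⟩,.k,
  .k,⟨true,0,⟨0,[(30,0)]⟩,⟨0,[(31,0)]⟩⟩,⟨false,1,⟨1,[(10,0),(0,0),(21,0)]⟩,⟨0,[]⟩⟩,⟨false,0,⟨0,[]⟩,
  ⟨1,[(10,0),(0,0),(21,0)]⟩⟩,⟨true,0,⟨0,[(31,0)]⟩,⟨0,[(30,0)]⟩⟩,[.o ⟨false,0,⟨0,[(4,0),(26,0)]⟩,⟨9,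
  [(2,9),(7,0),(0,0),(15,1),(5,4)]⟩⟩,.a ⟨true,0,⟨0,[(1,0),(12,0),(13,0)]⟩,⟨0,[(2,0)]⟩⟩ ⟨false,0,⟨0,
  [(1,0)]⟩,⟨3,[(0,2),(5,0),(3,0),(0,0),(14,0)]⟩⟩ ⟨true,0,⟨0,[(1,0),(26,0)]⟩,⟨0,[(2,0),(0,0)]⟩⟩,.e
  ⟨false,0,⟨1,[(1,1),(15,0),(0,0)]⟩,⟨0,[(0,0)]⟩⟩ ⟨false,0,⟨0,[(1,0),(26,0)]⟩,⟨0,[(0,0),(29,0)]⟩⟩,.o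
  ⟨false,0,⟨0,[(3,0)]⟩,⟨9,[(10,0),(0,0),(5,9),(9,1),(4,4)]⟩⟩]⟩) (.Q [0,-1,0,2,0,0,-1,-1,0,0,-1] (.p
  false [0,0,1] [] (⟨0,[(20,0)]⟩,⟨0,[(19,0)]⟩) .k 0 (⟨0,[]⟩,⟨0,[]⟩) .k .k) (.R ⟨1,true,false,false,
  [0,0,1],[0,1],[0,0,0,0,0,0,0,1],(⟨0,[(21,0)]⟩,⟨0,[(20,0)]⟩),(⟨0,[(26,0)]⟩,⟨0,[(25,0)]⟩),⟨0,[(10,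
  0)]⟩,.k,.k,.k,.k,(.r (-2) ⟨5,[(3,5),(4,0),(6,3),(12,0),(2,5),(1,3),(0,5)]⟩ ⟨1,[(0,0),(0,1),(14,0),
  (12,1)]⟩),.k,⟨true,1,⟨5,[(3,5),(4,0),(6,3),(12,0),(4,0),(0,2)]⟩,⟨0,[(1,0),(27,0)]⟩⟩,⟨false,1,⟨5,
  [(8,0),(6,3),(12,0),(4,3)]⟩,⟨0,[(18,0)]⟩⟩,⟨false,1,⟨1,[(11,0),(0,0),(21,0)]⟩,⟨0,[]⟩⟩,⟨true,0,⟨1,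
  [(0,0),(16,0)]⟩,⟨0,[(3,0)]⟩⟩,⟨true,0,⟨0,[(32,0)]⟩,⟨0,[(31,0)]⟩⟩,⟨false,0,⟨0,[(0,0)]⟩,⟨0,[(3,0),
  (27,0),(2,0)]⟩⟩,[]⟩) (.I [0,0,-2,-2,1] (.R ⟨1,false,false,true,[1,-1],[1,0,-1],[0,1,-1,-1],(⟨0,
  [(26,0)]⟩,⟨0,[(27,0)]⟩),(⟨0,[(21,0)]⟩,⟨0,[(22,0)]⟩),⟨0,[(10,0),(0,0)]⟩,.k,.k,(.r (-1) ⟨0,[(0,0)]⟩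
  ⟨0,[(30,1),(6,1)]⟩),.k,(.r (-2) ⟨1,[(0,1),(7,1),(3,0),(0,0),(21,0)]⟩ ⟨0,[(2,0),(27,0),(2,0)]⟩),.k,
  ⟨true,1,⟨1,[(0,0),(7,1),(26,0)]⟩,⟨0,[(2,0),(27,0)]⟩⟩,⟨false,1,⟨5,[(9,0),(6,3),(12,0),(4,3)]⟩,⟨0,
  [(19,0)]⟩⟩,⟨true,0,⟨0,[(37,0)]⟩,⟨0,[]⟩⟩,⟨false,0,⟨0,[(6,0),(26,0)]⟩,⟨1,[(1,0),(15,0),(17,1)]⟩⟩,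
  ⟨false,0,⟨0,[(33,0)]⟩,⟨0,[(32,0),(2,0)]⟩⟩,⟨false,0,⟨0,[(6,0),(26,1)]⟩,⟨0,[(1,0),(33,0)]⟩⟩,[.a
  ⟨true,(-1),⟨0,[(2,0),(13,0)]⟩,⟨0,[(17,0),(17,0)]⟩⟩ ⟨false,1,⟨3,[(0,1),(11,0),(0,0),(14,1),(5,0)]⟩,
  ⟨0,[(30,0)]⟩⟩ ⟨true,0,⟨0,[(6,0),(24,0)]⟩,⟨0,[(1,0),(28,1)]⟩⟩,.o ⟨false,0,⟨0,[(6,0)]⟩,⟨9,[(12,0),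
  (0,0),(3,9),(11,1),(5,4)]⟩⟩,.o ⟨false,0,⟨1,[(19,0),(0,0)]⟩,⟨9,[(12,0),(0,0),(15,1),(4,4)]⟩⟩,.e
  ⟨false,1,⟨1,[(0,0),(33,0)]⟩,⟨1,[(19,0),(0,0),(9,1)]⟩⟩ ⟨false,1,⟨0,[(6,0),(27,0)]⟩,⟨0,[(1,0),(28,
  1)]⟩⟩]⟩) (.Q [0,0,-1,0,1,0,1,0,0,-1,1] (.p true [0,0,1] [1] (⟨0,[(22,0)]⟩,⟨0,[(21,0)]⟩) .k 1 (⟨0,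
  []⟩,⟨0,[]⟩) .k .k) (.S ⟨1,0,[0,0,0,0,0,0,0,-1],[1,0,-1],[0,1,0,0,0,0,0,-1],(⟨0,[(22,0)]⟩,⟨0,[(23,
  0)]⟩),⟨0,[(11,0)]⟩,.k,.k,⟨true,0,⟨0,[(38,0)]⟩,⟨0,[]⟩⟩,⟨false,1,⟨1,[(13,0),(0,0),(21,0)]⟩,⟨0,[]⟩⟩,
  ⟨false,0,⟨0,[(34,0)]⟩,⟨0,[(33,0),(2,0)]⟩⟩,⟨true,0,⟨0,[(34,0)]⟩,⟨0,[(33,0)]⟩⟩,[.o ⟨false,0,⟨0,[(7,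
  0)]⟩,⟨9,[(13,0),(0,0),(3,9),(11,1),(5,4)]⟩⟩,.a ⟨true,0,⟨0,[(3,0),(13,0),(18,0)]⟩,⟨0,[(18,0)]⟩⟩
  ⟨true,0,⟨0,[(4,0)]⟩,⟨1,[(1,0),(0,0),(3,0),(2,0),(26,0)]⟩⟩ ⟨false,1,⟨1,[(4,1),(30,0),(0,0)]⟩,⟨0,
  [(9,0)]⟩⟩,.o ⟨false,0,⟨0,[(6,0)]⟩,⟨49,[(0,24),(12,13),(0,13),(5,24),(9,4),(5,0),(1,1)]⟩⟩,.o
  ⟨false,0,⟨0,[(21,0)]⟩,⟨0,[(0,0)]⟩⟩]⟩) (.I [0,0,0,1,0,0,0,1] (.R ⟨1,false,false,true,[1,0,-1],[1,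
  -1],[0,1],(⟨0,[(23,0)]⟩,⟨0,[(24,0)]⟩),(⟨0,[(28,0)]⟩,⟨0,[(29,0)]⟩),⟨0,[(12,0)]⟩,.k,.k,.k,.k,.k,.k,
  ⟨false,0,⟨0,[(35,0)]⟩,⟨1,[(34,1),(1,0),(0,0)]⟩⟩,⟨true,0,⟨0,[(21,0)]⟩,⟨0,[(7,0)]⟩⟩,⟨true,0,⟨0,[(10,
  0)]⟩,⟨0,[(5,0)]⟩⟩,⟨true,0,⟨0,[(6,0)]⟩,⟨0,[(8,0),(26,0)]⟩⟩,⟨false,0,⟨0,[(0,0)]⟩,⟨0,[(5,0),(28,0),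
  (2,0)]⟩⟩,⟨true,0,⟨0,[(19,0)]⟩,⟨0,[(8,0)]⟩⟩,[.o ⟨false,0,⟨0,[(34,0)]⟩,⟨9,[(14,0),(0,0),(15,1),(3,
  9),(1,4)]⟩⟩,.e ⟨false,1,⟨1,[(14,0),(0,0),(20,0)]⟩,⟨0,[]⟩⟩ ⟨false,1,⟨3,[(3,1),(1,1),(15,1),(14,2),
  (0,0)]⟩,⟨5,[(2,1),(8,0),(6,3),(12,0),(3,1)]⟩⟩,.o ⟨false,0,⟨0,[(7,0)]⟩,⟨9,[(14,0),(0,0),(5,9),(9,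
  1),(4,4)]⟩⟩,.a ⟨true,(-1),⟨0,[(1,0)]⟩,⟨0,[(21,0),(14,0)]⟩⟩ ⟨true,0,⟨0,[(33,0)]⟩,⟨1,[(21,0),(0,
  0)]⟩⟩ ⟨false,1,⟨3,[(3,1),(1,1),(15,1),(14,2),(0,0)]⟩,⟨1,[(2,0),(4,1),(29,0)]⟩⟩]⟩) (.Q [-1,0,0,0,0,
  0,0,0,-1,1,0,-1] (.p false [0,0,0,0,1] [1] (⟨0,[(17,0)]⟩,⟨0,[(16,0)]⟩) .k 1 (⟨0,[]⟩,⟨0,[]⟩) .k
  .k) (.Q [0,0,0,0,0,-1,0,0,0,1,0,-1] (.ed true [0,1,0,0,1] .k) (.S ⟨1,0,[-1,1],[1,0,0,0,-1],[-1],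
  (⟨0,[(18,0)]⟩,⟨0,[(19,0)]⟩),⟨0,[(0,0)]⟩,.k,(.r (-1) ⟨1,[(36,1),(1,0),(0,0)]⟩ ⟨1,[(4,0),(11,0),(0,
  0)]⟩),⟨false,1,⟨1,[(16,0),(0,0),(21,0)]⟩,⟨0,[]⟩⟩,⟨true,0,⟨0,[(41,0)]⟩,⟨0,[]⟩⟩,⟨true,0,⟨0,[(37,
  0)]⟩,⟨0,[(36,0)]⟩⟩,⟨false,0,⟨0,[(37,0)]⟩,⟨0,[(36,0),(2,0)]⟩⟩,[.o ⟨false,0,⟨8,[(1,8),(1,0),(0,0),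
  (0,0),(0,1),(5,0),(20,1),(1,4)]⟩,⟨9,[(16,0),(0,10),(15,1),(5,4)]⟩⟩,.e ⟨false,1,⟨0,[(35,0),(3,0)]⟩,
  ⟨0,[(41,0)]⟩⟩ ⟨false,1,⟨9,[(16,3),(0,3),(20,4),(0,0),(1,1)]⟩,⟨0,[]⟩⟩,.a ⟨true,0,⟨0,[(1,0)]⟩,⟨0,
  [(17,0)]⟩⟩ ⟨false,1,⟨4,[(16,1),(0,1),(21,2),(1,0)]⟩,⟨0,[]⟩⟩ ⟨true,0,⟨0,[(41,0)]⟩,⟨0,[]⟩⟩,.o
  ⟨false,0,⟨3,[(1,3),(1,0),(0,0),(0,0),(0,0),(26,0),(5,0)]⟩,⟨9,[(16,0),(0,10),(15,1),(4,4)]⟩⟩]⟩)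
  (.S ⟨1,0,[1],[0,0,0,0,1],[0,1],(⟨0,[(19,0)]⟩,⟨0,[(18,0)]⟩),⟨0,[(0,0),(13,0),(0,0)]⟩,.k,(.r (-1)
  ⟨1,[(36,1),(1,0),(0,0)]⟩ ⟨9,[(4,4),(11,2),(0,2),(21,1),(1,3)]⟩),⟨true,0,⟨0,[(41,0)]⟩,⟨0,[]⟩⟩,
  ⟨false,1,⟨1,[(16,0),(0,0),(21,0)]⟩,⟨0,[]⟩⟩,⟨false,0,⟨1,[(4,0),(30,1),(3,0)]⟩,⟨0,[(36,0),(2,0)]⟩⟩,
  ⟨true,0,⟨0,[(37,0)]⟩,⟨0,[(36,0)]⟩⟩,[.a ⟨true,0,⟨0,[(17,0)]⟩,⟨0,[(1,0)]⟩⟩ ⟨false,0,⟨0,[(35,0)]⟩,⟨1,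
  [(16,0),(0,0),(21,0)]⟩⟩ ⟨true,0,⟨0,[]⟩,⟨1,[(23,0),(0,0)]⟩⟩,.o ⟨false,1,⟨9,[(16,0),(0,10),(15,1),
  (5,4)]⟩,⟨8,[(1,8),(1,0),(0,0),(0,0),(0,1),(5,0),(20,1),(1,4)]⟩⟩,.e ⟨true,0,⟨0,[(41,0)]⟩,⟨0,[]⟩⟩
  ⟨true,0,⟨0,[]⟩,⟨0,[(41,0)]⟩⟩,.o ⟨false,0,⟨3,[(3,0),(0,0),(0,0),(0,0),(10,3),(15,0),(5,0)]⟩,⟨5,[(1,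
  4),(14,0),(16,0),(4,2)]⟩⟩]⟩)) (.Q [1,-1,0,-1,0,0,0,0,1,0,0,1] (.p true [0,0,0,0,1] [] (⟨0,[(18,
  0)]⟩,⟨0,[(17,0)]⟩) .k 0 (⟨0,[]⟩,⟨0,[]⟩) .k .k) (.Q [1,0,0,0,-1,0,0,0,1,0,0,1] (.p true [0,0,0,0,
  1] [] (⟨0,[(19,0)]⟩,⟨0,[(18,0)]⟩) .k 0 (⟨0,[]⟩,⟨0,[]⟩) .k .k) (.R ⟨2,true,false,false,[0,1],[0,0,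
  0,0,1],[1,1,1],(⟨0,[]⟩,⟨0,[]⟩),(⟨0,[(20,0)]⟩,⟨0,[(19,0)]⟩),⟨0,[]⟩,.k,.k,.k,(.r 0 ⟨9,[(5,4),(11,2),
  (0,2),(21,1),(1,3)]⟩ ⟨1,[(37,1),(1,0),(0,0)]⟩),.k,.k,⟨false,0,⟨0,[(42,0)]⟩,⟨1,[(39,0),(0,0)]⟩⟩,
  ⟨true,(-1),⟨10,[(0,7),(0,1),(3,1),(0,0),(0,0),(10,0),(6,0),(15,4)]⟩,⟨0,[(17,0)]⟩⟩,⟨true,0,⟨0,[(37,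
  0)]⟩,⟨0,[(38,0)]⟩⟩,⟨false,0,⟨0,[(1,0)]⟩,⟨0,[(17,0),(20,0)]⟩⟩,⟨false,0,⟨0,[]⟩,⟨1,[(17,0),(0,0),(21,
  0)]⟩⟩,⟨true,(-1),⟨0,[(0,0)]⟩,⟨0,[(17,0),(24,0)]⟩⟩,[]⟩) (.Q [0,0,1,0,0,0,0,0,-1,1,0,-1] (.p false
  [0,0,0,0,1] [1] (⟨0,[(20,0)]⟩,⟨0,[(19,0)]⟩) .k 1 (⟨0,[]⟩,⟨0,[]⟩) .k .k) (.Q [0,0,0,0,0,0,1,0,1,-1,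
  1,1] (.p true [0,0,1] [1,0,0,0,-1] (⟨0,[(28,0)]⟩,⟨0,[(27,0)]⟩) .k 2 (⟨0,[(20,0)]⟩,⟨0,[(21,0)]⟩)
  .k (.r (-1) ⟨1,[(14,1),(3,0),(0,0),(21,0)]⟩ ⟨0,[(8,0),(28,0),(3,0)]⟩)) (.K ⟨0,[1,0,0,0,-1],0,0,
  (⟨0,[(21,0)]⟩,⟨0,[(22,0)]⟩),.k,(.r (-1) ⟨1,[(39,1),(1,0),(0,0)]⟩ ⟨1,[(7,0),(11,0),(0,0)]⟩),(.r 0
  ⟨7,[(2,2),(4,3),(12,2),(21,0),(1,1)]⟩ ⟨1,[(39,1),(1,0),(0,0)]⟩),.k,.k,[⟨0,[(0,0)]⟩,⟨0,[(1,0)]⟩,⟨0,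
  [(4,0),(39,0)]⟩,⟨0,[(1,0),(36,0)]⟩]⟩) (.Q [0,0,0,0,0,1,0,0,0,-1,0,1] (.ed false [0,1,0,0,1] .k)
  (.R ⟨0,false,false,false,[1,0,0,0,-1],[0,1],[1,1,1],(⟨0,[(22,0)]⟩,⟨0,[(23,0)]⟩),(⟨0,[(35,0)]⟩,⟨0,
  [(34,0)]⟩),⟨0,[(0,0)]⟩,.k,.k,(.r (-1) ⟨1,[(40,1),(1,0),(0,0)]⟩ ⟨1,[(8,0),(11,0),(0,0)]⟩),(.r (-1)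
  ⟨1,[(40,1),(1,0),(0,0)]⟩ ⟨1,[(8,0),(11,0),(0,0)]⟩),.k,.k,⟨true,0,⟨0,[(40,0)]⟩,⟨1,[(8,0),(34,0)]⟩⟩,
  ⟨false,1,⟨0,[(5,0),(36,0)]⟩,⟨0,[(2,0)]⟩⟩,⟨false,0,⟨1,[(27,0),(0,0)]⟩,⟨0,[(39,0),(3,0)]⟩⟩,⟨true,0,
  ⟨0,[(5,0),(35,0)]⟩,⟨1,[(1,0),(0,0),(6,0),(1,0),(27,0)]⟩⟩,⟨false,0,⟨0,[]⟩,⟨0,[]⟩⟩,⟨false,0,⟨0,[]⟩,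
  ⟨0,[]⟩⟩,[.a ⟨true,0,⟨0,[(41,0)]⟩,⟨3,[(2,0),(1,0),(1,0),(2,0),(14,0),(4,0),(0,0),(3,0),(0,0)]⟩⟩
  ⟨false,0,⟨0,[(45,0)]⟩,⟨1,[(42,0),(0,0)]⟩⟩ ⟨true,0,⟨0,[(5,0),(35,0)]⟩,⟨1,[(1,0),(0,0),(6,0),(0,0),
  (32,0)]⟩⟩,.o ⟨false,1,⟨9,[(20,0),(0,0),(15,1),(3,9),(1,4)]⟩,⟨0,[(40,0)]⟩⟩,.o ⟨false,1,⟨0,[(20,
  0)]⟩,⟨6,[(4,4),(0,1),(2,1),(28,0),(1,4),(1,0),(2,0)]⟩⟩,.e ⟨false,0,⟨0,[]⟩,⟨1,[(20,0),(0,0),(21,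
  0)]⟩⟩ ⟨false,1,⟨1,[(5,1),(35,1),(0,0),(0,0)]⟩,⟨1,[(1,0),(0,0),(6,0),(0,0),(32,0)]⟩⟩]⟩) (.I [1,1,
  -3,-2,1] (.R ⟨1,false,false,false,[1,0,0,0,-1],[0,1],[0,0,2,1],(⟨0,[(23,0)]⟩,⟨0,[(24,0)]⟩),(⟨0,
  [(36,0)]⟩,⟨0,[(35,0)]⟩),⟨0,[(1,0)]⟩,.k,.k,(.r (-1) ⟨2,[(0,0),(3,0),(17,0),(18,0),(2,0)]⟩ ⟨1,[(9,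
  0),(11,0),(0,0)]⟩),(.r (-1) ⟨2,[(0,0),(3,0),(17,0),(18,0),(2,0)]⟩ ⟨1,[(9,0),(11,0),(0,0)]⟩),(.r
  (-2) ⟨2,[(0,1),(20,1),(0,1),(18,1),(2,1)]⟩ ⟨0,[(9,0)]⟩),.k,⟨true,0,⟨1,[(28,0),(0,0)]⟩,⟨0,[]⟩⟩,
  ⟨false,1,⟨0,[(6,0),(36,0)]⟩,⟨0,[(3,0)]⟩⟩,⟨false,0,⟨1,[(9,0),(18,0),(0,0),(14,0)]⟩,⟨3,[(0,1),(42,
  0),(0,0)]⟩⟩,⟨true,0,⟨0,[(6,0),(35,0)]⟩,⟨1,[(2,0),(0,0),(6,0),(1,0),(27,0)]⟩⟩,⟨true,(-1),⟨0,[(9,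
  0)]⟩,⟨5,[(0,3),(20,0),(0,0),(18,3),(2,0)]⟩⟩,⟨true,0,⟨0,[(6,0),(35,1)]⟩,⟨0,[(2,0),(7,0),(1,0)]⟩⟩,
  [.a ⟨true,0,⟨0,[(42,0)]⟩,⟨3,[(3,0),(1,0),(1,0),(2,0),(14,0),(4,0),(0,0),(3,0),(0,0)]⟩⟩ ⟨false,0,
  ⟨1,[(9,0),(11,0),(0,0)]⟩,⟨3,[(0,1),(42,0),(0,0)]⟩⟩ ⟨true,0,⟨0,[(6,0),(35,0)]⟩,⟨1,[(2,0),(0,0),(6,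
  0),(0,0),(32,0)]⟩⟩,.o ⟨false,1,⟨9,[(21,0),(0,0),(15,1),(3,9),(1,4)]⟩,⟨0,[(41,0)]⟩⟩,.o ⟨false,1,⟨0,
  [(21,0)]⟩,⟨6,[(5,4),(0,1),(2,1),(28,0),(1,4),(1,0),(2,0)]⟩⟩,.e ⟨false,0,⟨1,[(9,0),(34,0)]⟩,⟨2,[(0,
  0),(20,0),(0,0),(18,0),(2,0)]⟩⟩ ⟨false,1,⟨1,[(6,1),(35,1),(0,0),(0,0)]⟩,⟨1,[(2,0),(0,0),(6,0),(0,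
  0),(32,0)]⟩⟩]⟩) (.Q [0,0,1,0,-1,0,0,0,1,0,0,1] (.p true [0,0,0,0,1] [] (⟨0,[(24,0)]⟩,⟨0,[(23,
  0)]⟩) .k 0 (⟨0,[]⟩,⟨0,[]⟩) .k .k) (.R ⟨1,false,false,false,[1,0,0,0,-1],[1,-1],[-1],(⟨0,[(24,0)]⟩,
  ⟨0,[(25,0)]⟩),(⟨0,[(36,0)]⟩,⟨0,[(37,0)]⟩),⟨0,[(2,0)]⟩,.k,.k,(.r (-1) ⟨1,[(42,1),(1,0),(0,0)]⟩ ⟨1,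
  [(10,0),(11,0),(0,0)]⟩),(.r 0 ⟨6,[(1,0),(3,2),(4,1),(12,2),(19,0),(3,0)]⟩ ⟨1,[(42,1),(1,0),(0,
  0)]⟩),.k,.k,⟨false,0,⟨1,[(1,0),(39,2),(3,0)]⟩,⟨1,[(42,1),(1,0),(0,0)]⟩⟩,⟨true,(-1),⟨0,[(0,0)]⟩,⟨0,
  [(22,0)]⟩⟩,⟨false,1,⟨1,[(22,0),(0,0),(21,0)]⟩,⟨0,[]⟩⟩,⟨false,0,⟨0,[(6,0)]⟩,⟨0,[(22,0),(20,0)]⟩⟩,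
  ⟨true,0,⟨0,[(43,0)]⟩,⟨0,[(42,0)]⟩⟩,⟨false,0,⟨1,[(0,1),(43,0),(0,0)]⟩,⟨0,[(5,0)]⟩⟩,[.e ⟨false,1,⟨1,
  [(5,0),(17,0),(20,0)]⟩,⟨0,[]⟩⟩ ⟨false,0,⟨0,[(6,0),(34,0)]⟩,⟨0,[(22,0),(20,0)]⟩⟩,.o ⟨false,1,⟨0,
  [(42,0),(2,0)]⟩,⟨4,[(10,1),(27,0),(0,0),(1,2),(1,0)]⟩⟩,.o ⟨false,1,⟨0,[(22,0)]⟩,⟨5,[(0,3),(6,0),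
  (15,0),(15,0),(4,1)]⟩⟩,.a ⟨true,0,⟨0,[(4,0)]⟩,⟨0,[(0,0),(43,0)]⟩⟩ ⟨false,1,⟨0,[(41,0),(3,0)]⟩,⟨1,
  [(29,0),(0,0)]⟩⟩ ⟨true,0,⟨0,[(6,0),(34,0)]⟩,⟨15,[(3,4),(6,7),(1,4),(9,10),(4,4),(10,0),(0,0),(1,
  3)]⟩⟩]⟩) (.S ⟨1,0,[0,1,-1,-1],[1,-1],[1,0,1],(⟨0,[(36,0)]⟩,⟨0,[(37,0)]⟩),⟨0,[(20,0),(0,0)]⟩,.k,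
  (.r (-2) ⟨0,[(42,1),(1,0),(0,0)]⟩ ⟨0,[(1,0),(39,0)]⟩),⟨false,0,⟨3,[(1,1),(20,0),(0,0),(5,0),(0,0),
  (14,0)]⟩,⟨0,[(0,0),(5,0),(34,0)]⟩⟩,⟨true,0,⟨0,[(47,0)]⟩,⟨0,[]⟩⟩,⟨true,(-1),⟨0,[(10,0)]⟩,⟨11,[(8,
  5),(2,5),(7,0),(6,3),(12,0),(2,5),(1,9)]⟩⟩,⟨false,0,⟨0,[(43,0)]⟩,⟨0,[(42,0),(2,0)]⟩⟩,[.o ⟨false,0,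
  ⟨0,[(42,0)]⟩,⟨9,[(22,0),(0,0),(15,1),(3,9),(1,4)]⟩⟩,.e ⟨false,1,⟨1,[(22,0),(0,0),(21,0)]⟩,⟨0,[(41,
  0)]⟩⟩ ⟨false,1,⟨0,[(0,0),(5,0),(34,0)]⟩,⟨1,[(10,0),(11,0),(0,0)]⟩⟩,.o ⟨false,0,⟨1,[(29,0),(0,0)]⟩,
  ⟨9,[(22,0),(0,0),(15,1),(4,4)]⟩⟩,.a ⟨true,(-1),⟨0,[(9,0),(19,0)]⟩,⟨0,[(44,0)]⟩⟩ ⟨true,0,⟨0,[]⟩,⟨0,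
  [(47,0)]⟩⟩ ⟨false,1,⟨0,[(0,0),(5,0),(34,0)]⟩,⟨3,[(1,1),(20,0),(0,0),(5,0),(0,0),(14,0)]⟩⟩]⟩)))))
  (.Q [1,-1,0,0,0,0,0,0,1,-1,0,1] (.p true [0,0,0,0,1] [1] (⟨0,[(21,0)]⟩,⟨0,[(20,0)]⟩) .k 1 (⟨0,[]⟩,
  ⟨0,[]⟩) .k .k) (.R ⟨1,false,false,false,[0,0,1],[0,0,0,0,1],[0,0,0,0,0,0,0,1],(⟨0,[(29,0)]⟩,⟨0,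
  [(28,0)]⟩),(⟨0,[(22,0)]⟩,⟨0,[(21,0)]⟩),⟨0,[(18,0)]⟩,.k,.k,.k,.k,(.r (-1) ⟨11,[(8,5),(6,5),(0,0),
  (6,3),(12,0),(4,3),(0,5)]⟩ ⟨1,[(7,0),(2,1),(8,0),(0,0)]⟩),.k,⟨false,1,⟨1,[(15,1),(25,0),(0,0)]⟩,
  ⟨0,[(10,0)]⟩⟩,⟨true,(-1),⟨0,[(1,0),(4,0)]⟩,⟨0,[(19,0),(6,0)]⟩⟩,⟨false,1,⟨1,[(19,0),(0,0),(21,0)]⟩,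
  ⟨0,[]⟩⟩,⟨true,(-1),⟨0,[(0,0),(8,0),(13,0)]⟩,⟨0,[(2,0),(21,0)]⟩⟩,⟨true,0,⟨0,[(40,0)]⟩,⟨0,[(39,
  0)]⟩⟩,⟨true,(-1),⟨1,[(0,0),(0,0),(5,0),(1,0),(0,0),(12,1)]⟩,⟨1,[(2,1),(5,0),(15,0)]⟩⟩,[.o ⟨false,
  0,⟨0,[(4,0)]⟩,⟨0,[(2,0)]⟩⟩,.o ⟨false,0,⟨0,[(0,0)]⟩,⟨0,[(19,0),(24,0)]⟩⟩,.o ⟨false,1,⟨9,[(19,0),(0,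
  0),(5,9),(9,1),(4,4)]⟩,⟨0,[(12,0)]⟩⟩,.a ⟨true,0,⟨0,[(26,0)]⟩,⟨0,[(23,0)]⟩⟩ ⟨true,1,⟨1,[(15,1),(25,
  0),(0,0)]⟩,⟨0,[(9,0)]⟩⟩ ⟨false,0,⟨0,[(0,0),(22,0)]⟩,⟨0,[(2,0),(23,0)]⟩⟩]⟩) (.I [0,0,-2,-1,1] (.I
  [0,0,-2,0,1,-2] (.S ⟨1,0,[0,1,-1,-1],[1,-1],[1,0,1],(⟨0,[(35,0)]⟩,⟨0,[(36,0)]⟩),⟨0,[(19,0),(0,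
  0)]⟩,.k,(.x 0 ⟨0,[(28,0),(0,0),(6,1)]⟩ ⟨0,[(0,0)]⟩),⟨false,0,⟨1,[(9,0),(18,0),(0,0),(14,0)]⟩,⟨0,
  [(1,0)]⟩⟩,⟨true,0,⟨0,[(46,0)]⟩,⟨0,[]⟩⟩,⟨true,(-1),⟨0,[(9,0)]⟩,⟨0,[(1,0),(39,0)]⟩⟩,⟨false,0,⟨0,
  [(42,0)]⟩,⟨0,[(41,0),(2,0)]⟩⟩,[.o ⟨false,0,⟨0,[(41,0)]⟩,⟨9,[(21,0),(0,0),(15,1),(3,9),(1,4)]⟩⟩,.e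
  ⟨false,1,⟨1,[(21,0),(0,0),(21,0)]⟩,⟨0,[(40,0)]⟩⟩ ⟨false,1,⟨0,[(1,0)]⟩,⟨1,[(9,0),(11,0),(0,0)]⟩⟩,
  .o ⟨false,0,⟨1,[(28,0),(0,0)]⟩,⟨9,[(21,0),(0,0),(15,1),(4,4)]⟩⟩,.a ⟨true,(-1),⟨0,[(8,0),(19,0)]⟩,
  ⟨0,[(43,0)]⟩⟩ ⟨true,0,⟨0,[]⟩,⟨0,[(46,0)]⟩⟩ ⟨false,1,⟨0,[(1,0)]⟩,⟨1,[(9,0),(18,0),(0,0),(14,
  0)]⟩⟩]⟩) (.I [-1,1,-1] (.C [(0,0),(0,0),(1,0),(0,0),(28,1),(11,0)]) (.C [(0,0),(2,0),(0,0)])))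
  (.Q [0,0,0,0,0,-1,0,0,0,0,0,1] (.ed false [1,-1,0,0,1] .k) (.S ⟨1,0,[1],[0,0,0,0,1],[1,0,1],(⟨0,
  [(24,0)]⟩,⟨0,[(23,0)]⟩),⟨0,[(0,0)]⟩,.k,(.r (-1) ⟨1,[(41,1),(1,0),(0,0)]⟩ ⟨7,[(4,2),(4,3),(12,2),
  (21,0),(1,1)]⟩),⟨true,0,⟨1,[(28,0),(0,0)]⟩,⟨0,[(40,0)]⟩⟩,⟨false,1,⟨1,[(21,0),(0,0),(21,0)]⟩,⟨0,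
  []⟩⟩,⟨false,0,⟨1,[(9,0),(34,0)]⟩,⟨1,[(41,1),(1,0),(0,0)]⟩⟩,⟨true,0,⟨0,[(42,0)]⟩,⟨0,[(41,0)]⟩⟩,[.o
  ⟨false,0,⟨0,[(6,0)]⟩,⟨0,[(4,0)]⟩⟩,.e ⟨false,1,⟨1,[(21,0),(0,0),(21,0)]⟩,⟨0,[(40,0)]⟩⟩ ⟨false,1,⟨1,
  [(43,0),(0,0)]⟩,⟨0,[(46,0)]⟩⟩,.o ⟨false,0,⟨2,[(3,0),(2,1),(38,0)]⟩,⟨0,[(21,0)]⟩⟩,.a ⟨true,(-1),⟨3,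
  [(1,1),(1,1),(1,1),(2,0),(2,0),(14,0),(6,0),(1,0)]⟩,⟨1,[(2,1),(40,0),(0,0)]⟩⟩ ⟨true,0,⟨0,[]⟩,⟨0,
  [(46,0)]⟩⟩ ⟨false,1,⟨1,[(43,0),(0,0)]⟩,⟨1,[(28,0),(0,0)]⟩⟩]⟩) (.R ⟨0,false,false,true,[0,0,0,0,1],
  [0,1],[0,1],(⟨0,[(24,0)]⟩,⟨0,[(23,0)]⟩),(⟨0,[(36,0)]⟩,⟨0,[(35,0)]⟩),⟨0,[(0,0)]⟩,.k,.k,(.r (-1) ⟨1,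
  [(41,1),(1,0),(0,0)]⟩ ⟨7,[(4,2),(4,3),(12,2),(21,0),(1,1)]⟩),(.r (-1) ⟨1,[(41,1),(1,0),(0,0)]⟩ ⟨7,
  [(4,2),(4,3),(12,2),(21,0),(1,1)]⟩),.k,.k,⟨true,1,⟨1,[(41,1),(1,0),(0,0)]⟩,⟨0,[(1,0)]⟩⟩,⟨false,2,
  ⟨0,[(21,0),(21,0)]⟩,⟨3,[(1,1),(1,1),(1,1),(2,0),(2,0),(14,0),(6,0),(1,0)]⟩⟩,⟨true,0,⟨0,[(46,0)]⟩,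
  ⟨0,[]⟩⟩,⟨false,1,⟨0,[(21,0),(20,0)]⟩,⟨0,[(5,0)]⟩⟩,⟨false,0,⟨0,[]⟩,⟨0,[]⟩⟩,⟨false,0,⟨0,[]⟩,⟨0,[]⟩⟩,
  [.o ⟨false,0,⟨4,[(9,1),(27,0),(0,0),(1,2),(1,0)]⟩,⟨0,[(41,0),(2,0)]⟩⟩,.a ⟨true,0,⟨0,[(42,0)]⟩,⟨0,
  [(2,0),(2,0)]⟩⟩ ⟨false,1,⟨1,[(21,0),(0,0),(20,0)]⟩,⟨0,[]⟩⟩ ⟨true,1,⟨0,[(21,0),(20,0)]⟩,⟨1,[(1,0),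
  (1,0),(1,0),(2,0),(1,0),(1,0)]⟩⟩,.o ⟨false,0,⟨2,[(3,0),(2,1),(38,0)]⟩,⟨0,[(21,0)]⟩⟩,.e ⟨true,0,⟨0,
  [(40,0)]⟩,⟨1,[(28,0),(0,0)]⟩⟩ ⟨true,1,⟨6,[(2,4),(18,1),(15,0),(0,0),(3,6),(0,2)]⟩,⟨1,[(1,0),(1,0),
  (1,0),(2,0),(1,0),(1,0)]⟩⟩]⟩)))))) (.Q [-1,-1,0,0,1,0,0,0,-1,0,0,-1] (.p false [0,0,0,0,1] [] (⟨0,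
  [(19,0)]⟩,⟨0,[(18,0)]⟩) .k 0 (⟨0,[]⟩,⟨0,[]⟩) .k .k) (.R ⟨1,false,false,false,[0,0,1],[1,0,0,0,-1],
  [0,0,0,0,0,0,0,1],(⟨0,[(27,0)]⟩,⟨0,[(26,0)]⟩),(⟨0,[(19,0)]⟩,⟨0,[(20,0)]⟩),⟨0,[(16,0)]⟩,.k,.k,.k,
  .k,(.r (-1) ⟨11,[(6,5),(6,5),(0,0),(6,3),(12,0),(4,3),(0,5)]⟩ ⟨1,[(5,0),(2,1),(8,0),(0,0)]⟩),.k,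
  ⟨false,1,⟨1,[(13,1),(25,0),(0,0)]⟩,⟨0,[(8,0)]⟩⟩,⟨true,0,⟨0,[(0,0),(3,0),(31,0)]⟩,⟨4,[(2,4),(2,0),
  (0,1),(1,1),(15,2),(13,1),(1,0)]⟩⟩,⟨false,1,⟨1,[(17,0),(0,0),(21,0)]⟩,⟨0,[]⟩⟩,⟨true,0,⟨0,[(0,0),
  (6,0),(13,0)]⟩,⟨0,[(2,0),(19,0)]⟩⟩,⟨true,0,⟨0,[(38,0)]⟩,⟨0,[(37,0)]⟩⟩,⟨true,0,⟨3,[(0,1),(0,1),(2,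
  0),(0,0),(2,3),(12,2)]⟩,⟨1,[(2,1),(3,0),(15,0)]⟩⟩,[.o ⟨false,1,⟨2,[(0,0),(16,1),(24,0)]⟩,⟨0,[(2,
  0)]⟩⟩,.o ⟨false,1,⟨0,[(0,0)]⟩,⟨0,[(2,0),(39,0)]⟩⟩,.o ⟨false,1,⟨9,[(17,0),(0,0),(5,9),(9,1),(4,
  4)]⟩,⟨0,[(10,0)]⟩⟩,.a ⟨true,0,⟨0,[(24,0)]⟩,⟨0,[(21,0)]⟩⟩ ⟨true,1,⟨1,[(13,1),(25,0),(0,0)]⟩,⟨0,[(7,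
  0)]⟩⟩ ⟨false,1,⟨0,[(0,0),(20,0)]⟩,⟨0,[(2,0),(21,0)]⟩⟩]⟩) (.Q [0,0,-1,0,1,0,0,0,-1,0,0,-1] (.p
  false [0,0,0,0,1] [] (⟨0,[(20,0)]⟩,⟨0,[(19,0)]⟩) .k 0 (⟨0,[]⟩,⟨0,[]⟩) .k .k) (.R ⟨2,true,false,
  false,[0,1],[0,0,0,0,1],[1,0,1],(⟨0,[]⟩,⟨0,[]⟩),(⟨0,[(21,0)]⟩,⟨0,[(20,0)]⟩),⟨0,[]⟩,.k,.k,.k,(.r 0
  ⟨9,[(6,4),(11,2),(0,2),(21,1),(1,3)]⟩ ⟨1,[(38,1),(1,0),(0,0)]⟩),.k,.k,⟨true,0,⟨1,[(25,0),(0,0)]⟩,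
  ⟨0,[]⟩⟩,⟨false,0,⟨0,[(19,0)]⟩,⟨0,[(0,0)]⟩⟩,⟨false,1,⟨0,[(38,0),(2,0)]⟩,⟨0,[(39,0)]⟩⟩,⟨true,0,⟨5,
  [(1,1),(1,0),(0,1),(2,1),(7,0),(3,2),(21,1)]⟩,⟨0,[(2,0)]⟩⟩,⟨true,0,⟨0,[]⟩,⟨0,[(43,0)]⟩⟩,⟨false,0,
  ⟨0,[(1,0),(39,0)]⟩,⟨1,[(0,0),(17,0),(23,0)]⟩⟩,[]⟩) (.K ⟨0,[0,0,0,0,1],(-1),(-1),(⟨0,[(21,0)]⟩,⟨0,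
  [(20,0)]⟩),.k,(.r (-1) ⟨1,[(38,1),(1,0),(0,0)]⟩ ⟨9,[(6,4),(11,2),(0,2),(21,1),(1,3)]⟩),(.r 0 ⟨1,
  [(6,0),(11,0),(0,0)]⟩ ⟨1,[(38,1),(1,0),(0,0)]⟩),.k,.k,[⟨2,[(2,2),(1,0),(2,0),(17,1),(14,0),(0,
  1)]⟩,⟨0,[(0,0)]⟩,⟨0,[(18,0),(24,0)]⟩,⟨0,[(1,0)]⟩]⟩)))))))))))) (.I [0,-1,-1,-2,1,0,0,-1] (.K ⟨0,
  [0,1,1],0,0,(⟨0,[(18,0),(4,0)]⟩,⟨0,[(6,0)]⟩),.k,.k,(.r 0 ⟨0,[(13,0),(2,0),(9,0),(2,0)]⟩ ⟨0,[(0,0),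
  (26,0)]⟩),.k,.k,[⟨1,[(15,0),(0,0)]⟩,⟨0,[(1,0)]⟩,⟨0,[(2,0),(25,0)]⟩,⟨0,[(13,0),(15,0)]⟩]⟩) (.I [0,
  0,0,1,0,0,0,1] (.R ⟨2,true,false,true,[0,1],[0,1,1],[0,0,1,1],(⟨0,[]⟩,⟨0,[]⟩),(⟨0,[(19,0),(4,0)]⟩,
  ⟨0,[(7,0)]⟩),⟨0,[]⟩,.k,.k,.k,.k,.k,.k,⟨false,1,⟨1,[(2,1),(0,1),(27,0),(0,0)]⟩,⟨0,[(5,0)]⟩⟩,⟨true,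
  0,⟨0,[(2,0)]⟩,⟨0,[(17,0)]⟩⟩,⟨false,1,⟨1,[(9,0),(0,0),(21,0)]⟩,⟨0,[]⟩⟩,⟨true,0,⟨0,[(14,0)]⟩,⟨0,[(3,
  0)]⟩⟩,⟨true,0,⟨0,[(30,0)]⟩,⟨0,[(29,0)]⟩⟩,⟨false,0,⟨0,[(0,0),(1,0)]⟩,⟨0,[(3,0),(25,0),(2,0)]⟩⟩,
  []⟩) (.S ⟨1,0,[0,1,0,0,0,0,0,1],[0,0,1],[0,0,0,0,0,0,0,1],(⟨0,[(19,0)]⟩,⟨0,[(18,0)]⟩),⟨0,[(8,0)]⟩,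
  .k,.k,⟨false,1,⟨1,[(9,0),(0,0),(21,0)]⟩,⟨0,[]⟩⟩,⟨true,0,⟨0,[(34,0)]⟩,⟨0,[]⟩⟩,⟨true,0,⟨0,[(30,0)]⟩,
  ⟨0,[(29,0)]⟩⟩,⟨false,0,⟨0,[(30,0)]⟩,⟨0,[(29,0),(2,0)]⟩⟩,[.a ⟨true,0,⟨0,[(14,0)]⟩,⟨0,[(0,0),(12,0),
  (13,0)]⟩⟩ ⟨false,1,⟨1,[(5,1),(25,0),(0,0)]⟩,⟨0,[(2,0),(0,0)]⟩⟩ ⟨true,0,⟨0,[(5,0)]⟩,⟨0,[(0,0),(26,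
  0)]⟩⟩,.o ⟨false,1,⟨9,[(9,0),(0,0),(3,9),(11,1),(5,4)]⟩,⟨0,[(3,0)]⟩⟩,.a ⟨true,0,⟨0,[(2,0)]⟩,⟨1,[(6,
  0),(11,0),(0,0)]⟩⟩ ⟨false,1,⟨0,[(5,0),(26,0)]⟩,⟨0,[(2,0),(0,0)]⟩⟩ ⟨true,0,⟨0,[(5,0)]⟩,⟨0,[(2,0),
  (0,0)]⟩⟩,.a ⟨true,0,⟨0,[(16,0)]⟩,⟨0,[(13,0)]⟩⟩ ⟨true,1,⟨1,[(5,1),(25,0),(0,0)]⟩,⟨0,[(0,1),(0,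
  0)]⟩⟩ ⟨false,1,⟨1,[(5,1),(25,0),(0,0)]⟩,⟨0,[(0,0),(26,0)]⟩⟩]⟩))))

theorem ok2 : chk K t2 r2 = true := by decide +kernel

noncomputable def t5 : Tre :=
  (.I [0,0,1,1,-1,0,0,-1] (.R ⟨2,true,false,true,[0,1],[0,0,1],[1,1,0,0,0,0,0,1],(⟨0,[]⟩,⟨0,[]⟩),
  (⟨0,[(15,0)]⟩,⟨0,[(14,0)]⟩),⟨0,[]⟩,.k,.k,.k,.k,.k,.k,⟨true,0,⟨0,[]⟩,⟨1,[(12,0),(0,0)]⟩⟩,⟨false,0,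
  ⟨0,[(1,0),(8,0)]⟩,⟨9,[(2,4),(2,2),(0,2),(15,0),(4,4)]⟩⟩,⟨true,1,⟨5,[(2,0),(6,3),(0,5),(11,0),(2,
  5),(1,0),(0,2)]⟩,⟨0,[(0,0)]⟩⟩,⟨false,1,⟨0,[(10,0),(14,0),(2,0)]⟩,⟨5,[(0,5),(1,0),(6,3),(12,0),(4,
  0),(0,2)]⟩⟩,⟨false,1,⟨5,[(2,0),(6,3),(0,5),(11,0),(4,0),(0,2)]⟩,⟨1,[(1,1),(10,0),(0,0)]⟩⟩,⟨true,0,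
  ⟨0,[(10,0)]⟩,⟨11,[(0,1),(0,5),(0,2),(6,1),(1,3),(10,0),(2,1)]⟩⟩,[]⟩) (.K ⟨0,[0,1,1],0,0,(⟨0,[(15,
  0),(4,0)]⟩,⟨0,[(3,0)]⟩),.k,.k,(.r 0 ⟨0,[(10,0),(2,0),(9,0),(2,0)]⟩ ⟨0,[(0,0),(0,1),(22,0),(0,
  0)]⟩),.k,.k,[⟨1,[(12,0),(0,0)]⟩,⟨0,[(1,0),(8,0)]⟩,⟨0,[(1,0),(11,0),(10,0),(0,0)]⟩,⟨0,[(10,0),(15,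
  0)]⟩]⟩))

theorem ok5 : chk K t5 r0 = true := by decide +kernel

noncomputable def t3 : Tre :=
  .Q [0,0,0,0,0,0,1,1,0,0,1] (.p true [0,0,1] [] (⟨0,[(15,0)]⟩,⟨0,[(14,0)]⟩) .k 0 (⟨0,[]⟩,⟨0,[]⟩)
  .k .k) t1 t2

theorem ok3 : chk K t3 r1 = true :=
  chk_Q (e' := [0,0,0,0,0,0,-1,-1,0,0,-1]) (by decide +kernel) (by decide +kernel) ok1 ok2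

noncomputable def t4 : Tre :=
  .Q [0,0,0,0,0,0,1,1,0,-1,1] (.p true [0,0,1] [1] (⟨0,[(14,0)]⟩,⟨0,[(13,0)]⟩) .k 1 (⟨0,[]⟩,⟨0,[]⟩)
  .k .k) t0 t3

theorem ok4 : chk K t4 l0 = true :=
  chk_Q (e' := [0,0,0,0,0,0,-1,-1,0,1,-1]) (by decide +kernel) (by decide +kernel) ok0 ok3

noncomputable def t6 : Tre :=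
  .I [0,1,0,0,0,0,0,1] t4 t5

theorem ok6 : chk K t6 base = true :=
  chk_I (e' := [1,-1,0,0,0,0,0,-1]) (by decide +kernel) (by decide +kernel) ok4 ok5

theorem closed {p a b c J l q : ℤ} {D dl : ℝ} {Cl : ℤ → ℤ → ℤ → ℤ → ℝ → Prop}
    (W : World p a b c J 1 l q D dl Cl) (g : G0 p a b c J D)
    {N X R : ℤ} {I : ℝ} (hk : KCl p l Cl N X R I) (kz : KF a b D (X + (1 : ℤ) * I) (X + (1 : ℤ) * I + R) I)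
    {Ne Xe : ℤ} {Ie : ℝ} (he : EFac p 1 D Cl 1 Ne Xe Ie)
    (hkf : ∀ kf ∈ (kfY 1 [0,0,0,0,0,0,1,0,0,0,1]), KOk p l Cl 1
      (xv [1, a, b, c, p, J, X, R, Xe] [D, I, Ie]) N kf)
    (h0 : 1 ≤ (c : ℝ))
    (h1 : 1 ≤ (a : ℝ) - (b : ℝ))
    (h2 : 1 ≤ 1 - (a : ℝ) + (b : ℝ) + (c : ℝ))
    (h3 : 0 < 1 + 2 * (p : ℝ) - 5 * D)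
    (h4 : 1 ≤ 2 * (a : ℝ) - (b : ℝ))
    (h5 : 1 ≤ -1 + (J : ℝ))
    (h6 : 1 ≤ 3 - (J : ℝ))
    (h7 : 0 < -(b : ℝ) - (X : ℝ) + D - I)
    (h8 : 0 < -(J : ℝ) + I)
    (h9 : 0 < -(J : ℝ) + D - I)
    (h10 : 0 < -2 * (X : ℝ) + D - 2 * I) : False := by
  have g1 := g.a2
  have g2 := g.b2
  have g3 := g.pa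
  have g4 := g.pb
  have g5 := g.J1
  have g6 := g.JD
  have g7 := g.D2
  have g8 := g.ca
  have g9 := g.ca'
  have k1 := kz.I0
  have k2 := kz.ID
  have k3 := kz.z1
  have k4 := kz.z2
  have k5 := kz.s1
  have k6 := kz.s2
  have e1 := he.I0
  have e2 := he.ID
  have e3 := he.x0
  have e4 := he.xp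
  push_cast at *
  refine (val_E W.toBase hk he (row := [1]) (by simp) (by simp) (kfY 1 [0,0,0,0,0,0,1,0,0,0,1])).sound W rfl (Nk := N)
    (fun kf _ _ => ⟨_, rfl⟩) hkf ?_ ok6
  · simp only [base, List.forall_mem_cons, List.not_mem_nil, false_imp_iff, implies_true,
      and_true, hld, xv, evg_cons, evg_nil, List.map_cons, List.map_nil, List.cons_append,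
      List.nil_append, if_true, if_false, Bool.false_eq_true]
    push_cast
    refine ⟨?_, ?_, ?_, ?_, ?_, ?_, ?_, ?_, ?_, ?_, ?_, ?_, ?_, ?_, ?_, ?_, ?_, ?_, ?_, ?_, ?_, ?_, ?_, ?_, ?_, ?_, ?_, ?_, ?_⟩ <;> linarith

end Helper48.Y.Y11_c2_P2_m1n1

namespace Helper48.Y.Y11_c35_L2_m0n0

open Helper25.KG Helper25.KW Helper55.KE Helper11.CT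

noncomputable def K : Cls :=
  cE 1 [1] (kfY 1 [0,0,0,0,0,0,1,0,0,0,1])

noncomputable def base : List Con :=
  [(false,[0,0,0,0,0,0,-2,0,0,1,-2]),
  (false,[0,0,0,0,0,1,0,0,0,-1,1]),
  (false,[0,0,0,0,0,1,0,0,0,0,-1]),
  (false,[0,0,0,0,1,0,0,0,-1,0,0,-1]),
  (false,[0,0,0,0,0,0,0,0,1,0,0,1]),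
  (false,[0,0,0,0,0,0,0,0,0,1,0,-1]),
  (false,[0,0,0,0,0,0,0,0,0,0,0,1]),
  (false,[0,0,-1,0,0,0,-1,0,0,1,-1]),
  (false,[0,1,0,0,0,0,1,1,0,0,1]),
  (false,[0,1,0,0,0,0,-1,-1,0,0,-1]),
  (false,[0,0,1,0,0,0,1,0,0,0,1]),
  (false,[0,0,1,0,0,0,-1,0,0,0,-1]),
  (false,[0,0,0,0,0,0,0,0,0,1,-1]),
  (false,[0,0,0,0,0,0,0,0,0,0,1]),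
  (true,[2,0,0,0,0,-1]),
  (false,[0,0,0,0,1,0,0,0,0,-2]),
  (false,[0,0,0,0,0,-1,0,0,0,1]),
  (true,[0,0,0,0,0,1]),
  (true,[0,2,-1]),
  (false,[1,0,0,0,-1,0,0,0,0,2]),
  (true,[0,2,-1]),
  (true,[1,-1,1]),
  (true,[0,1,0,-1]),
  (true,[0,0,0,1]),
  (true,[0,0,-2,0,1]),
  (true,[0,-2,0,0,1]),
  (true,[-1,0,1]),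
  (true,[-1,1])]

noncomputable def t0 : Tre :=
  (.C [(1,1),(0,1),(11,3),(4,0),(5,0),(1,1)])

theorem ok0 : chk K t0 base = true := by decide +kernel

theorem closed {p a b c J l q : ℤ} {D dl : ℝ} {Cl : ℤ → ℤ → ℤ → ℤ → ℝ → Prop}
    (W : World p a b c J 1 l q D dl Cl) (g : G0 p a b c J D)
    {N X R : ℤ} {I : ℝ} (hk : KCl p l Cl N X R I) (kz : KF a b D (X + (1 : ℤ) * I) (X + (1 : ℤ) * I + R) I)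
    {Ne Xe : ℤ} {Ie : ℝ} (he : EFac p 1 D Cl 1 Ne Xe Ie)
    (hkf : ∀ kf ∈ (kfY 1 [0,0,0,0,0,0,1,0,0,0,1]), KOk p l Cl 1
      (xv [1, a, b, c, p, J, X, R, Xe] [D, I, Ie]) N kf)
    (h0 : 1 ≤ (c : ℝ))
    (h1 : 1 ≤ 1 - (a : ℝ) + (b : ℝ))
    (h2 : 1 ≤ 2 * (a : ℝ) - (b : ℝ))
    (h3 : 0 < 1 - (p : ℝ) + 2 * D)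
    (h4 : 1 ≤ 2 * (a : ℝ) - (b : ℝ))
    (h5 : 1 ≤ 2 - (J : ℝ))
    (h6 : 0 < -(b : ℝ) - (X : ℝ) + D - I)
    (h7 : 0 < (J : ℝ) - I)
    (h8 : 0 < (J : ℝ) - D + I)
    (h9 : 0 < -2 * (X : ℝ) + D - 2 * I) : False := by
  have g1 := g.a2
  have g2 := g.b2
  have g3 := g.pa
  have g4 := g.pb
  have g5 := g.J1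
  have g6 := g.JD
  have g7 := g.D2
  have g8 := g.ca
  have g9 := g.ca'
  have k1 := kz.I0
  have k2 := kz.ID
  have k3 := kz.z1
  have k4 := kz.z2
  have k5 := kz.s1
  have k6 := kz.s2
  have e1 := he.I0
  have e2 := he.ID
  have e3 := he.x0
  have e4 := he.xp
  push_cast at *
  refine (val_E W.toBase hk he (row := [1]) (by simp) (by simp) (kfY 1 [0,0,0,0,0,0,1,0,0,0,1])).sound W rfl (Nk := N)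
    (fun kf _ _ => ⟨_, rfl⟩) hkf ?_ ok0
  · simp only [base, List.forall_mem_cons, List.not_mem_nil, false_imp_iff, implies_true,
      and_true, hld, xv, evg_cons, evg_nil, List.map_cons, List.map_nil, List.cons_append,
      List.nil_append, if_true, if_false, Bool.false_eq_true]
    push_cast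
    refine ⟨?_, ?_, ?_, ?_, ?_, ?_, ?_, ?_, ?_, ?_, ?_, ?_, ?_, ?_, ?_, ?_, ?_, ?_, ?_, ?_, ?_, ?_, ?_, ?_, ?_, ?_, ?_, ?_⟩ <;> linarith

end Helper48.Y.Y11_c35_L2_m0n0

namespace Helper48.Y.Y11_c35_L2_m1n0

open Helper25.KG Helper25.KW Helper55.KE Helper11.CT

noncomputable def K : Cls :=
  cE 1 [1] (kfY 1 [0,0,0,0,0,0,1,0,0,0,1])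

noncomputable def base : List Con :=
  [(false,[0,0,0,0,0,0,-2,0,0,1,-2]),
  (false,[0,0,0,0,0,1,0,0,0,-1,1]),
  (false,[0,0,0,0,0,-1,0,0,0,0,1]),
  (false,[0,0,0,0,1,0,0,0,-1,0,0,-1]),
  (false,[0,0,0,0,0,0,0,0,1,0,0,1]),
  (false,[0,0,0,0,0,0,0,0,0,1,0,-1]),
  (false,[0,0,0,0,0,0,0,0,0,0,0,1]),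
  (false,[0,0,-1,0,0,0,-1,0,0,1,-1]),
  (false,[0,1,0,0,0,0,1,1,0,0,1]),
  (false,[0,1,0,0,0,0,-1,-1,0,0,-1]),
  (false,[0,0,1,0,0,0,1,0,0,0,1]),
  (false,[0,0,1,0,0,0,-1,0,0,0,-1]),
  (false,[0,0,0,0,0,0,0,0,0,1,-1]),
  (false,[0,0,0,0,0,0,0,0,0,0,1]),
  (true,[2,0,0,0,0,-1]),
  (false,[0,0,0,0,1,0,0,0,0,-2]),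
  (false,[0,0,0,0,0,-1,0,0,0,1]),
  (true,[0,0,0,0,0,1]),
  (true,[0,2,-1]),
  (false,[1,0,0,0,-1,0,0,0,0,2]),
  (true,[0,2,-1]),
  (true,[1,-1,1]),
  (true,[0,1,0,-1]),
  (true,[0,0,0,1]),
  (true,[0,0,-2,0,1]),
  (true,[0,-2,0,0,1]),
  (true,[-1,0,1]),
  (true,[-1,1])]

noncomputable def l0 : List Con := (false, [0,0,0,2,0,0,0,0,0,-1]) :: base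

noncomputable def r0 : List Con := (false, [0,0,0,-2,0,0,0,0,0,1]) :: base

noncomputable def l1 : List Con := (false, [0,0,0,0,0,0,-1,0,0,0,-1]) :: r0

noncomputable def r1 : List Con := (false, [0,0,0,0,0,0,1,0,0,0,1]) :: r0

noncomputable def l2 : List Con := (true, [1,1,0,0,0,0,0,-1]) :: l1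

noncomputable def r2 : List Con := (true, [0,-1,0,0,0,0,0,1]) :: l1

noncomputable def t0 : Tre :=
  (.R ⟨2,true,false,true,[0,1],[1,-1],[1,0,1],(⟨0,[]⟩,⟨0,[]⟩),(⟨0,[(17,0)]⟩,⟨0,[(18,0)]⟩),⟨0,[]⟩,.k,
  .k,.k,(.r 1 ⟨0,[(0,1),(19,0),(1,1),(0,1)]⟩ ⟨0,[(23,1),(1,0),(0,0)]⟩),.k,.k,⟨false,0,⟨5,[(0,2),(0,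
  0),(9,1),(8,0),(1,3),(3,0)]⟩,⟨0,[(23,0),(1,0)]⟩⟩,⟨true,(-1),⟨0,[(0,0),(19,0),(1,1),(0,1)]⟩,⟨1,
  [(16,0),(8,0)]⟩⟩,⟨false,1,⟨0,[(23,0),(2,0)]⟩,⟨0,[(24,0)]⟩⟩,⟨true,0,⟨1,[(20,0),(2,3),(2,0)]⟩,⟨0,
  [(0,0)]⟩⟩,⟨true,0,⟨0,[]⟩,⟨0,[(28,0)]⟩⟩,⟨false,0,⟨1,[(20,0),(2,1),(2,0)]⟩,⟨3,[(0,1),(3,0),(0,0),
  (10,0),(9,1)]⟩⟩,[]⟩)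

theorem ok0 : chk K t0 l0 = true := by decide +kernel

noncomputable def t1 : Tre :=
  (.Q [0,1,0,-1,0,0,1,1,0,0,1] (.p true [0,0,1] [] (⟨0,[(16,0)]⟩,⟨0,[(15,0)]⟩) .k 0 (⟨0,[]⟩,⟨0,[]⟩)
  .k .k) (.I [1,-1,2,3,-1] (.I [0,-1,-1,-1,1] (.I [1,0,2,1,-1] (.S ⟨1,0,[0,1,-1,-1],[1,-1],[0,0,-1,
  -1],(⟨0,[(23,0)]⟩,⟨0,[(24,0)]⟩),⟨6,[(1,2),(0,0),(18,10),(1,2),(2,1),(6,0),(0,3)]⟩,.k,(.r (-2) ⟨1,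
  [(1,1),(8,0),(0,0),(17,1),(1,0)]⟩ ⟨1,[(0,0),(1,0),(31,0)]⟩),⟨false,1,⟨1,[(10,0),(0,0),(20,0)]⟩,⟨0,
  []⟩⟩,⟨true,0,⟨0,[(34,0)]⟩,⟨0,[]⟩⟩,⟨true,0,⟨0,[(30,0)]⟩,⟨0,[(29,0)]⟩⟩,⟨false,0,⟨0,[(30,0)]⟩,⟨3,[(6,
  1),(3,0),(0,0),(10,0),(9,1)]⟩⟩,[.o ⟨false,0,⟨0,[(29,0)]⟩,⟨5,[(2,1),(7,0),(0,0),(10,2),(8,1),(0,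
  1)]⟩⟩,.e ⟨true,1,⟨0,[(1,0)]⟩,⟨0,[(0,0),(33,0)]⟩⟩ ⟨true,1,⟨3,[(1,1),(8,0),(0,0),(17,1),(1,0)]⟩,⟨0,
  [(0,0)]⟩⟩,.o ⟨false,0,⟨1,[(17,0),(0,0)]⟩,⟨1,[(22,0),(8,0)]⟩⟩,.a ⟨true,(-1),⟨17,[(0,13),(5,6),(0,
  2),(9,5),(8,3),(6,1)]⟩,⟨0,[(31,0)]⟩⟩ ⟨false,2,⟨1,[(1,1),(8,0),(0,0),(19,0)]⟩,⟨0,[(0,0)]⟩⟩ ⟨true,1,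
  ⟨0,[(29,0),(1,0)]⟩,⟨0,[(0,0)]⟩⟩]⟩) (.Q [0,-1,0,-1,0,0,0,0,0,1] (.pp false [-1,1]) (.S ⟨1,0,[0,1,
  -1,-1],[1,-1],[0,0,1],(⟨0,[(24,0)]⟩,⟨0,[(25,0)]⟩),⟨4,[(0,1),(0,0),(1,0),(18,6),(1,2),(10,2)]⟩,.k,
  (.r (-2) ⟨3,[(1,3),(5,1),(3,2),(0,2),(10,0)]⟩ ⟨0,[(3,0),(26,0)]⟩),⟨false,0,⟨2,[(3,0),(14,1),(0,1),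
  (13,0)]⟩,⟨0,[(1,0)]⟩⟩,⟨true,0,⟨0,[(35,0)]⟩,⟨0,[]⟩⟩,⟨true,(-1),⟨0,[(3,0),(26,0)]⟩,⟨0,[(1,0),(28,
  0)]⟩⟩,⟨false,0,⟨0,[(31,0)]⟩,⟨3,[(7,1),(3,0),(0,0),(10,0),(9,1)]⟩⟩,[.o ⟨false,0,⟨0,[(30,0)]⟩,⟨5,
  [(3,1),(7,0),(0,0),(10,2),(8,1),(0,1)]⟩⟩,.a ⟨true,0,⟨19,[(7,9),(3,3),(0,3),(14,4),(5,0),(1,1)]⟩,
  ⟨0,[(31,0)]⟩⟩ ⟨true,0,⟨1,[(0,1),(2,0),(19,0),(6,0)]⟩,⟨0,[(35,0)]⟩⟩ ⟨false,1,⟨0,[(1,0)]⟩,⟨5,[(3,1),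
  (7,1),(0,1),(5,0),(0,0),(15,1)]⟩⟩,.o ⟨false,0,⟨1,[(18,0),(0,0)]⟩,⟨1,[(23,0),(8,0)]⟩⟩,.e ⟨false,1,
  ⟨1,[(11,0),(0,0),(20,0)]⟩,⟨0,[]⟩⟩ ⟨false,1,⟨0,[(1,0)]⟩,⟨2,[(3,0),(14,1),(0,1),(13,0)]⟩⟩]⟩) (.R ⟨1,
  true,false,false,[1,-1],[0,1],[0,1,1],(⟨0,[(24,0)]⟩,⟨0,[(25,0)]⟩),(⟨0,[(25,0)]⟩,⟨0,[(24,0)]⟩),⟨6,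
  [(2,2),(0,0),(18,10),(1,2),(2,1),(6,0),(0,3)]⟩,.k,.k,(.r (-2) ⟨3,[(1,3),(5,1),(3,2),(0,2),(10,
  0)]⟩ ⟨0,[(3,0),(26,0)]⟩),(.r (-2) ⟨3,[(1,3),(5,1),(3,2),(0,2),(10,0)]⟩ ⟨0,[(3,0),(26,0)]⟩),(.r
  (-2) ⟨7,[(1,11),(5,5),(3,0),(0,0),(10,2)]⟩ ⟨1,[(3,1),(14,0),(0,0),(15,1)]⟩),.k,⟨true,0,⟨0,[(30,
  0)]⟩,⟨5,[(3,1),(14,0),(0,0),(13,1)]⟩⟩,⟨false,2,⟨1,[(23,0),(8,2)]⟩,⟨0,[(3,0),(3,0),(22,0)]⟩⟩,⟨true,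
  (-1),⟨0,[(3,0),(26,1)]⟩,⟨0,[(1,0)]⟩⟩,⟨false,1,⟨5,[(3,3),(7,1),(0,1),(10,2),(8,3),(0,0)]⟩,⟨0,[(7,
  0)]⟩⟩,⟨false,(-1),⟨0,[(3,0),(26,0)]⟩,⟨3,[(1,3),(5,1),(3,0),(0,0),(10,0),(9,1)]⟩⟩,⟨true,0,⟨0,[(0,
  0),(0,0),(1,0)]⟩,⟨0,[(7,0),(22,0)]⟩⟩,[]⟩))) (.Q [0,0,0,3,0,0,0,0,0,-1] (.pp true [-1,1]) (.R ⟨1,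
  true,false,true,[1,-1],[0,1],[0,0,-1,-1],(⟨0,[(23,0)]⟩,⟨0,[(24,0)]⟩),(⟨0,[(24,0)]⟩,⟨0,[(23,0)]⟩),
  ⟨1,[(21,3),(4,0),(5,0),(1,1)]⟩,.k,.k,(.r (-2) ⟨1,[(6,1),(3,0),(0,0),(10,0),(8,1)]⟩ ⟨3,[(1,1),(0,
  1),(14,0),(0,0)]⟩),(.r (-2) ⟨1,[(6,1),(3,0),(0,0),(10,0),(8,1)]⟩ ⟨3,[(1,1),(0,1),(14,0),(0,0)]⟩),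
  (.x 1 ⟨0,[(1,0),(22,2),(3,1),(0,0)]⟩ ⟨5,[(21,13),(0,1),(0,3),(7,8),(0,0),(1,1)]⟩),.k,⟨true,2,⟨1,
  [(6,1),(15,0),(8,1),(0,0)]⟩,⟨0,[(1,1),(26,0)]⟩⟩,⟨false,2,⟨1,[(22,0),(8,2)]⟩,⟨3,[(1,1),(0,1),(3,3),
  (10,0),(0,0)]⟩⟩,⟨false,1,⟨1,[(10,0),(0,0),(20,0)]⟩,⟨0,[]⟩⟩,⟨true,0,⟨4,[(0,2),(0,0),(20,0),(4,0),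
  (6,1)]⟩,⟨0,[(6,0)]⟩⟩,⟨true,0,⟨0,[(30,0)]⟩,⟨0,[(29,0)]⟩⟩,⟨false,0,⟨0,[(0,0)]⟩,⟨3,[(6,5),(3,0),(0,
  0),(10,0),(9,1)]⟩⟩,[]⟩) (.I [0,0,0,0,0,0,0,1] (.Q [0,0,-1,-1,1,0,1,0,0,0,1] (.p true [0,0,1] []
  (⟨0,[(21,0)]⟩,⟨0,[(20,0)]⟩) .k 0 (⟨0,[]⟩,⟨0,[]⟩) .k .k) (.Q [0,0,0,1,0,0,-1,-1,0,0,-1] (.p false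
  [0,0,1] [] (⟨0,[(22,0)]⟩,⟨0,[(21,0)]⟩) .k 0 (⟨0,[]⟩,⟨0,[]⟩) .k .k) (.R ⟨0,false,false,true,[1,0,
  -1],[1,-1],[1,1],(⟨0,[(22,0)]⟩,⟨0,[(23,0)]⟩),(⟨0,[(26,0)]⟩,⟨0,[(27,0)]⟩),⟨0,[(11,0)]⟩,.k,.k,.k,.k,
  .k,.k,⟨false,0,⟨11,[(5,3),(7,0),(0,0),(15,1),(3,2)]⟩,⟨13,[(1,7),(1,1),(6,3),(14,2),(8,2)]⟩⟩,⟨true,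
  0,⟨0,[(20,0)]⟩,⟨0,[(8,0)]⟩⟩,⟨false,0,⟨0,[(2,0)]⟩,⟨0,[(7,0),(27,0)]⟩⟩,⟨true,0,⟨0,[(6,0)]⟩,⟨0,[(0,
  0)]⟩⟩,⟨false,0,⟨0,[]⟩,⟨0,[]⟩⟩,⟨false,0,⟨0,[]⟩,⟨0,[]⟩⟩,[.o ⟨false,0,⟨0,[(32,0)]⟩,⟨5,[(5,1),(7,0),
  (0,0),(10,2),(8,1),(0,1)]⟩⟩,.a ⟨true,0,⟨17,[(1,3),(7,6),(0,2),(9,1),(8,3),(6,1)]⟩,⟨0,[(33,0)]⟩⟩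
  ⟨true,0,⟨0,[]⟩,⟨1,[(20,0),(0,0)]⟩⟩ ⟨false,1,⟨0,[(1,0)]⟩,⟨5,[(5,1),(2,0),(1,0),(6,2),(7,1),(4,
  0)]⟩⟩,.o ⟨false,0,⟨0,[(8,0)]⟩,⟨17,[(1,11),(3,3),(7,0),(0,0),(5,5),(4,8),(4,1)]⟩⟩,.e ⟨false,1,⟨1,
  [(13,0),(0,0),(19,0)]⟩,⟨1,[(3,1),(1,1),(19,0),(8,0)]⟩⟩ ⟨false,1,⟨0,[(1,0)]⟩,⟨5,[(5,1),(2,1),(1,1),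
  (14,0),(5,1),(3,0)]⟩⟩]⟩) (.Q [0,-1,0,1,0,0,-1,-1,0,1,-1] (.p false [0,0,1] [1] (⟨0,[(23,0)]⟩,⟨0,
  [(22,0)]⟩) .k 1 (⟨0,[]⟩,⟨0,[]⟩) .k .k) (.R ⟨2,true,false,false,[0,1],[1,1,-1],[0,0,1,1],(⟨0,[]⟩,
  ⟨0,[]⟩),(⟨0,[(23,0),(4,0)]⟩,⟨0,[(13,0)]⟩),⟨0,[]⟩,.k,.k,.k,.k,.k,.k,⟨true,0,⟨0,[(3,0)]⟩,⟨0,[(8,0),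
  (23,0)]⟩⟩,⟨false,0,⟨0,[(18,0)]⟩,⟨17,[(2,11),(3,3),(7,0),(0,0),(5,5),(4,8),(4,1)]⟩⟩,⟨false,1,⟨1,
  [(14,0),(0,0),(20,0)]⟩,⟨0,[]⟩⟩,⟨true,0,⟨3,[(0,1),(7,1),(1,0),(0,0)]⟩,⟨1,[(1,1),(3,1),(20,0),(8,
  0)]⟩⟩,⟨true,0,⟨0,[(34,0)]⟩,⟨0,[(33,0)]⟩⟩,⟨false,0,⟨0,[(0,0)]⟩,⟨1,[(7,1),(18,0),(9,0)]⟩⟩,[]⟩) (.Q
  [0,-1,0,2,0,0,-1,-1,0,1,-1] (.p false [0,0,1] [1] (⟨0,[(24,0)]⟩,⟨0,[(23,0)]⟩) .k 1 (⟨0,[]⟩,⟨0,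
  []⟩) .k .k) (.S ⟨1,3,[],[0,-1,1],[0,0,-1,-1,0,0,0,1],(⟨0,[(14,0)]⟩,⟨0,[(24,0),(4,0)]⟩),⟨0,[(5,0),
  (1,0),(5,0),(12,2),(9,0),(2,0)]⟩,.k,(.x 0 ⟨5,[(1,0),(3,2),(0,0),(0,2),(1,0),(12,4),(1,5),(2,3),(1,
  11)]⟩ ⟨0,[(10,0),(3,0),(11,0),(9,0)]⟩),⟨false,1,⟨1,[(15,0),(0,0),(20,0)]⟩,⟨0,[]⟩⟩,⟨true,0,⟨40,[(0,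
  21),(2,2),(5,18),(2,12),(9,3),(8,2),(0,0),(6,0)]⟩,⟨0,[(1,0)]⟩⟩,⟨true,0,⟨0,[(35,0)]⟩,⟨0,[(34,0)]⟩⟩,
  ⟨false,0,⟨0,[(0,0)]⟩,⟨2,[(2,0),(2,0),(2,1),(18,1),(9,0)]⟩⟩,[.fa ⟨false,1,⟨1,[(2,1),(16,1),(7,0),
  (8,0)]⟩,⟨5,[(7,1),(1,5),(12,0),(0,0),(13,1)]⟩⟩ ⟨true,0,⟨0,[(19,0)]⟩,⟨5,[(1,0),(3,2),(0,0),(0,2),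
  (1,0),(12,4),(4,3)]⟩⟩,.a ⟨true,0,⟨1,[(31,0),(5,0)]⟩,⟨0,[(39,0)]⟩⟩ ⟨true,1,⟨1,[(2,1),(16,1),(7,0),
  (9,0)]⟩,⟨15,[(5,7),(0,9),(0,9),(1,15),(12,0),(0,0),(3,3)]⟩⟩ ⟨false,1,⟨1,[(19,1),(16,0),(0,0)]⟩,⟨2,
  [(1,0),(4,0),(2,0),(12,1),(4,0)]⟩⟩,.a ⟨true,0,⟨0,[(22,0)]⟩,⟨0,[(19,0)]⟩⟩ ⟨false,1,⟨1,[(2,1),(16,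
  1),(7,0),(9,0)]⟩,⟨5,[(7,1),(1,5),(12,0),(0,0),(13,1)]⟩⟩ ⟨true,0,⟨0,[(19,0)]⟩,⟨2,[(1,0),(4,0),(2,
  0),(12,1),(4,0)]⟩⟩,.o ⟨false,0,⟨5,[(1,0),(3,2),(0,0),(0,2),(1,0),(12,4),(4,3)]⟩,⟨1,[(19,1),(7,0),
  (8,0)]⟩⟩]⟩) (.Q [0,0,-1,0,1,0,1,0,0,-1,1] (.p true [0,0,1] [1] (⟨0,[(25,0)]⟩,⟨0,[(24,0)]⟩) .k 1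
  (⟨0,[]⟩,⟨0,[]⟩) .k .k) (.R ⟨2,true,false,false,[0,1],[1,0,-1],[1,1,1],(⟨0,[]⟩,⟨0,[]⟩),(⟨0,[(25,
  0)]⟩,⟨0,[(26,0)]⟩),⟨0,[]⟩,.k,.k,.k,.k,.k,.k,⟨true,(-1),⟨4,[(1,2),(3,1),(1,2),(0,0),(2,0),(1,0),
  (18,0)]⟩,⟨0,[(10,0),(27,0)]⟩⟩,⟨false,0,⟨19,[(13,9),(2,3),(0,3),(14,4),(5,0),(1,1)]⟩,⟨0,[(0,0)]⟩⟩,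
  ⟨true,0,⟨0,[(35,0)]⟩,⟨0,[(36,0)]⟩⟩,⟨false,1,⟨1,[(10,1),(1,0),(0,0),(24,1)]⟩,⟨0,[(1,0),(6,0),(28,
  0)]⟩⟩,⟨false,0,⟨0,[]⟩,⟨1,[(16,0),(0,0),(20,0)]⟩⟩,⟨true,0,⟨1,[(22,1),(9,0),(5,0)]⟩,⟨3,[(0,0),(1,2),
  (2,0),(2,0),(24,0)]⟩⟩,[]⟩) (.R ⟨2,true,false,true,[0,1],[1,0,-1],[1,1,1,0,0,0,0,-1],(⟨0,[]⟩,⟨0,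
  []⟩),(⟨0,[(25,0)]⟩,⟨0,[(26,0)]⟩),⟨0,[]⟩,.k,.k,.k,.k,.k,.k,⟨false,0,⟨0,[]⟩,⟨1,[(16,0),(0,0),(19,
  0)]⟩⟩,⟨true,(-1),⟨0,[(0,0)]⟩,⟨17,[(4,11),(3,3),(7,0),(0,0),(5,5),(4,8),(4,1)]⟩⟩,⟨false,1,⟨9,[(4,
  3),(1,1),(3,9),(13,3),(3,0),(9,4)]⟩,⟨1,[(1,1),(6,1),(11,1),(16,0),(0,0)]⟩⟩,⟨true,0,⟨1,[(10,1),(1,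
  0),(0,0)]⟩,⟨0,[(1,0),(6,0),(28,0)]⟩⟩,⟨true,0,⟨0,[(10,0)]⟩,⟨0,[(5,0)]⟩⟩,⟨false,0,⟨1,[(22,1),(9,0),
  (5,0)]⟩,⟨3,[(3,2),(4,0),(12,0),(6,1),(8,0),(0,1)]⟩⟩,[]⟩))))) (.R ⟨0,false,false,false,[1,0,-1],[1,
  -1],[],(⟨0,[(21,0)]⟩,⟨0,[(22,0)]⟩),(⟨0,[(25,0)]⟩,⟨0,[(26,0)]⟩),⟨0,[(10,0)]⟩,.k,.k,.k,.k,.k,.k,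
  ⟨false,0,⟨0,[(32,0)]⟩,⟨5,[(2,1),(9,1),(0,1),(10,0),(8,2)]⟩⟩,⟨true,0,⟨0,[(19,0)]⟩,⟨0,[(7,0)]⟩⟩,
  ⟨true,0,⟨0,[(1,0)]⟩,⟨0,[(6,0)]⟩⟩,⟨false,1,⟨0,[(5,0),(28,0)]⟩,⟨1,[(0,1),(5,1),(26,0),(0,0)]⟩⟩,
  ⟨false,0,⟨0,[]⟩,⟨0,[]⟩⟩,⟨false,0,⟨0,[]⟩,⟨0,[]⟩⟩,[.a ⟨true,0,⟨19,[(8,9),(3,3),(0,3),(14,4),(5,0),
  (1,1)]⟩,⟨0,[(32,0)]⟩⟩ ⟨false,1,⟨1,[(12,0),(0,0),(19,0)]⟩,⟨0,[]⟩⟩ ⟨true,1,⟨5,[(2,1),(9,1),(0,1),(5,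
  5),(4,0),(8,2)]⟩,⟨0,[(0,0)]⟩⟩,.o ⟨false,1,⟨5,[(2,1),(9,1),(0,1),(10,0),(9,2)]⟩,⟨1,[(3,1),(20,0),
  (8,0)]⟩⟩,.o ⟨false,0,⟨0,[(7,0)]⟩,⟨1,[(19,1),(4,0),(8,0)]⟩⟩,.e ⟨false,1,⟨1,[(33,0),(0,0)]⟩,⟨1,[(19,
  0),(0,0)]⟩⟩ ⟨false,2,⟨5,[(2,1),(9,1),(0,1),(5,5),(4,0),(8,5),(0,2)]⟩,⟨0,[(0,0)]⟩⟩]⟩)) (.Q [0,0,-1,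
  0,1,0,1,0,0,-1,1] (.p true [0,0,1] [1] (⟨0,[(21,0)]⟩,⟨0,[(20,0)]⟩) .k 1 (⟨0,[]⟩,⟨0,[]⟩) .k .k)
  (.R ⟨0,false,false,true,[1,0,-1],[1,-1],[1,1,0,0,0,0,0,-1],(⟨0,[(21,0)]⟩,⟨0,[(22,0)]⟩),(⟨0,[(25,
  0)]⟩,⟨0,[(26,0)]⟩),⟨0,[(10,0)]⟩,.k,.k,.k,.k,.k,.k,⟨false,0,⟨2,[(1,1),(2,0),(1,0),(26,0)]⟩,⟨1,[(5,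
  1),(10,1),(7,0),(9,0)]⟩⟩,⟨true,0,⟨0,[(19,0)]⟩,⟨0,[(7,0)]⟩⟩,⟨false,0,⟨0,[]⟩,⟨1,[(12,0),(0,0),(20,
  0)]⟩⟩,⟨true,0,⟨0,[(5,0)]⟩,⟨2,[(1,1),(2,0),(11,1),(1,0),(5,0)]⟩⟩,⟨false,0,⟨0,[]⟩,⟨0,[]⟩⟩,⟨false,0,
  ⟨0,[]⟩,⟨0,[]⟩⟩,[.o ⟨false,0,⟨0,[(31,0)]⟩,⟨5,[(4,1),(7,0),(0,0),(10,2),(8,1),(0,1)]⟩⟩,.a ⟨true,0,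
  ⟨19,[(8,9),(3,3),(0,3),(14,4),(5,0),(1,1)]⟩,⟨0,[(32,0)]⟩⟩ ⟨true,0,⟨0,[(1,0)]⟩,⟨5,[(4,1),(0,5),(1,
  1),(1,1),(14,0),(5,1),(3,0)]⟩⟩ ⟨false,1,⟨2,[(0,0),(1,0),(16,1),(13,1)]⟩,⟨5,[(4,1),(2,0),(1,0),(6,
  2),(7,1),(4,0)]⟩⟩,.o ⟨false,0,⟨0,[(7,0)]⟩,⟨3,[(0,1),(11,0),(0,0),(5,1),(4,0)]⟩⟩,.o ⟨false,0,⟨0,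
  [(20,0)]⟩,⟨0,[(0,0)]⟩⟩]⟩) (.I [1,0,-2,-1,1,0,0,-1] (.R ⟨1,true,false,false,[0,0,1],[0,1],[0,0,0,0,
  0,0,0,1],(⟨0,[(23,0)]⟩,⟨0,[(22,0)]⟩),(⟨0,[(27,0)]⟩,⟨0,[(26,0)]⟩),⟨0,[(12,0)]⟩,.k,.k,.k,.k,(.r
  (-2) ⟨11,[(3,3),(2,11),(3,5),(2,0),(0,0),(10,4),(8,11),(0,5)]⟩ ⟨3,[(2,3),(1,1),(0,1),(14,0),(0,
  0)]⟩),.k,⟨true,1,⟨1,[(6,1),(10,1),(7,0),(9,0)]⟩,⟨15,[(2,15),(0,7),(0,9),(0,9),(14,0),(0,0),(3,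
  3)]⟩⟩,⟨false,1,⟨1,[(17,1),(7,0),(8,0)]⟩,⟨0,[(20,0)]⟩⟩,⟨false,1,⟨1,[(13,0),(0,0),(20,0)]⟩,⟨0,[]⟩⟩,
  ⟨true,0,⟨1,[(0,0),(4,0),(2,0),(10,0)]⟩,⟨0,[(6,0)]⟩⟩,⟨true,0,⟨0,[(33,0)]⟩,⟨0,[(32,0)]⟩⟩,⟨false,0,
  ⟨0,[(0,0),(4,0),(2,0)]⟩,⟨5,[(3,1),(2,5),(6,1),(0,1),(10,0),(9,2)]⟩⟩,[]⟩) (.R ⟨0,false,false,false,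
  [-1,1,1],[0,1],[1,1,1],(⟨0,[(11,0)]⟩,⟨0,[(22,0),(3,0)]⟩),(⟨0,[(27,0)]⟩,⟨0,[(26,0)]⟩),⟨0,[(22,0)]⟩,
  .k,.k,.k,.k,.k,.k,⟨true,0,⟨0,[(32,0)]⟩,⟨5,[(5,1),(14,0),(0,0),(13,1)]⟩⟩,⟨false,0,⟨0,[(17,0)]⟩,⟨1,
  [(20,1),(4,0),(8,0)]⟩⟩,⟨true,0,⟨0,[(2,0),(29,0)]⟩,⟨0,[(0,0),(33,0)]⟩⟩,⟨false,0,⟨1,[(1,0),(0,1),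
  (14,0),(17,0)]⟩,⟨1,[(18,1),(6,0),(9,0)]⟩⟩,⟨false,0,⟨0,[]⟩,⟨0,[]⟩⟩,⟨false,0,⟨0,[]⟩,⟨0,[]⟩⟩,[.a
  ⟨true,0,⟨0,[(33,0)]⟩,⟨19,[(9,9),(3,3),(0,3),(14,4),(5,0),(1,1)]⟩⟩ ⟨false,0,⟨0,[(37,0)]⟩,⟨1,[(34,
  0),(0,0)]⟩⟩ ⟨true,(-1),⟨9,[(1,4),(2,0),(0,2),(4,1),(6,0),(11,0),(0,0)]⟩,⟨1,[(2,1),(3,1),(18,0),(9,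
  0)]⟩⟩,.o ⟨false,1,⟨5,[(5,1),(7,0),(0,0),(10,2),(8,1),(0,1)]⟩,⟨0,[(32,0)]⟩⟩,.o ⟨false,2,⟨0,[(20,0),
  (4,0),(8,0)]⟩,⟨0,[(1,0)]⟩⟩,.e ⟨false,0,⟨0,[]⟩,⟨1,[(13,0),(0,0),(20,0)]⟩⟩ ⟨false,0,⟨5,[(5,1),(4,1),
  (6,1),(11,0),(4,0),(0,1)]⟩,⟨1,[(2,1),(3,1),(18,0),(9,0)]⟩⟩]⟩)))))) (.Q [0,0,1,0,-1,0,-1,0,0,1,-1]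
  (.p false [0,0,1] [1] (⟨0,[(18,0)]⟩,⟨0,[(17,0)]⟩) .k 1 (⟨0,[]⟩,⟨0,[]⟩) .k .k) (.I [1,0,-2,-2,1,0,
  0,1] (.Q [0,-1,-2,0,2,0,0,-1,0,-1] (.pp true [-1,1]) (.I [1,0,0,-1,0,0,0,1] (.Q [0,-1,-1,-1,0,0,
  -1,0,0,1,-1] (.p false [0,0,1] [1] (⟨0,[(22,0)]⟩,⟨0,[(21,0)]⟩) .k 1 (⟨0,[]⟩,⟨0,[]⟩) .k .k) (.R ⟨1,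
  false,false,false,[0,0,1],[1,-1],[0,0,0,0,0,0,0,1],(⟨0,[(23,0)]⟩,⟨0,[(22,0)]⟩),(⟨0,[(26,0)]⟩,⟨0,
  [(27,0)]⟩),⟨0,[(12,0)]⟩,.k,.k,.k,.k,.k,.k,⟨false,0,⟨0,[(1,0),(31,1)]⟩,⟨1,[(2,0),(4,0),(1,0)]⟩⟩,
  ⟨true,(-1),⟨0,[(4,0)]⟩,⟨2,[(2,0),(15,0),(1,1),(4,0)]⟩⟩,⟨false,1,⟨1,[(13,0),(0,0),(20,0)]⟩,⟨0,[]⟩⟩,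
  ⟨false,0,⟨0,[(0,0),(6,0),(23,0)]⟩,⟨1,[(18,1),(6,0),(7,1),(1,0)]⟩⟩,⟨true,0,⟨0,[(33,0)]⟩,⟨0,[(32,
  0)]⟩⟩,⟨false,0,⟨0,[(0,0),(6,0),(23,0),(1,0)]⟩,⟨1,[(18,1),(6,0),(9,0)]⟩⟩,[.a ⟨true,0,⟨19,[(9,9),(3,
  3),(0,3),(14,4),(5,0),(1,1)]⟩,⟨0,[(33,0)]⟩⟩ ⟨true,0,⟨0,[(1,0),(31,0)]⟩,⟨0,[(7,0),(23,0)]⟩⟩ ⟨false,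
  0,⟨3,[(0,0),(3,0),(0,0),(11,1)]⟩,⟨2,[(2,0),(15,0),(1,1),(4,0),(7,2)]⟩⟩,.e ⟨false,1,⟨1,[(1,0),(1,
  0),(29,2),(1,0)]⟩,⟨0,[(7,0)]⟩⟩ ⟨false,0,⟨0,[(0,0)]⟩,⟨2,[(2,0),(15,0),(1,1),(4,0),(7,2),(3,2)]⟩⟩,
  .o ⟨false,1,⟨2,[(2,0),(15,0),(1,1),(4,0)]⟩,⟨0,[(8,0)]⟩⟩,.e ⟨false,1,⟨1,[(1,0),(1,0),(29,2),(1,
  0)]⟩,⟨0,[(7,0),(23,0)]⟩⟩ ⟨false,0,⟨0,[(0,0)]⟩,⟨1,[(13,0),(0,0),(5,1),(4,0),(7,1)]⟩⟩]⟩) (.Q [0,1,0,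
  1,0,0,0,0,0,-1] (.pp true [-1,1]) (.I [1,-1,-1,0,1,0,0,-1] (.R ⟨0,false,false,false,[1,0,-1],[1,
  -1],[],(⟨0,[(24,0)]⟩,⟨0,[(25,0)]⟩),(⟨0,[(28,0)]⟩,⟨0,[(29,0)]⟩),⟨0,[(13,0)]⟩,.k,.k,.k,.k,.k,.k,
  ⟨false,0,⟨0,[(35,0)]⟩,⟨7,[(4,1),(2,1),(3,0),(0,0),(2,0),(0,0),(3,1),(16,0)]⟩⟩,⟨true,0,⟨0,[(22,
  0)]⟩,⟨0,[(10,0)]⟩⟩,⟨true,0,⟨0,[(3,0),(31,0)]⟩,⟨0,[(9,0)]⟩⟩,⟨false,1,⟨0,[(8,0),(28,0)]⟩,⟨0,[(0,0),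
  (0,0),(4,0)]⟩⟩,⟨false,0,⟨0,[]⟩,⟨0,[]⟩⟩,⟨false,0,⟨0,[]⟩,⟨0,[]⟩⟩,[.e ⟨false,1,⟨9,[(4,3),(7,1),(2,1),
  (0,1),(3,3),(10,0),(4,0)]⟩,⟨0,[]⟩⟩ ⟨false,1,⟨0,[(0,0),(7,0)]⟩,⟨0,[(10,0),(24,0)]⟩⟩,.o ⟨false,1,⟨2,
  [(7,0),(14,0),(0,0),(13,1)]⟩,⟨0,[(1,0)]⟩⟩,.o ⟨false,0,⟨0,[(10,0)]⟩,⟨2,[(4,0),(15,0),(1,1),(4,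
  0)]⟩⟩,.a ⟨true,(-1),⟨0,[(6,0)]⟩,⟨3,[(4,1),(15,1),(1,1),(8,0),(4,0)]⟩⟩ ⟨false,1,⟨1,[(36,0),(0,0)]⟩,
  ⟨1,[(22,0),(0,0)]⟩⟩ ⟨true,1,⟨0,[(0,0),(7,0)]⟩,⟨0,[(1,0),(4,0)]⟩⟩]⟩) (.Q [0,0,0,0,0,0,-1,-1,0,0,
  -1] (.p false [0,0,1] [] (⟨0,[(25,0)]⟩,⟨0,[(24,0)]⟩) .k 0 (⟨0,[]⟩,⟨0,[]⟩) .k .k) (.R ⟨0,false,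
  false,true,[-1,1,1],[0,0,1],[],(⟨0,[(14,0)]⟩,⟨0,[(25,0),(3,0)]⟩),(⟨0,[(26,0)]⟩,⟨0,[(25,0)]⟩),⟨0,
  [(25,0)]⟩,.k,.k,.k,.k,.k,.k,⟨true,1,⟨0,[(10,0),(27,0)]⟩,⟨0,[(1,0)]⟩⟩,⟨false,0,⟨9,[(16,3),(0,3),
  (14,4),(5,0),(1,1)]⟩,⟨1,[(28,0),(8,0)]⟩⟩,⟨true,1,⟨1,[(5,0),(4,0),(1,0)]⟩,⟨0,[(1,0),(34,0)]⟩⟩,
  ⟨false,0,⟨19,[(12,9),(3,3),(0,3),(14,4),(5,0),(1,1)]⟩,⟨1,[(28,0),(7,1),(1,0)]⟩⟩,⟨false,0,⟨0,[]⟩,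
  ⟨0,[]⟩⟩,⟨false,0,⟨0,[]⟩,⟨0,[]⟩⟩,[.e ⟨false,1,⟨9,[(5,3),(7,1),(2,1),(0,1),(3,3),(10,0),(4,0)]⟩,⟨0,
  []⟩⟩ ⟨false,(-1),⟨1,[(1,1),(30,0),(4,0)]⟩,⟨1,[(5,1),(17,0),(0,0)]⟩⟩,.o ⟨false,1,⟨1,[(21,1),(6,0),
  (9,0)]⟩,⟨0,[(0,0)]⟩⟩,.o ⟨false,2,⟨2,[(5,1),(15,1),(1,0),(4,1)]⟩,⟨0,[(7,0)]⟩⟩,.a ⟨true,1,⟨2,[(5,0),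
  (15,0),(1,1),(4,0)]⟩,⟨1,[(7,1),(24,0),(4,0)]⟩⟩ ⟨false,1,⟨1,[(37,0),(0,0)]⟩,⟨1,[(23,0),(0,0)]⟩⟩
  ⟨true,(-1),⟨1,[(1,1),(30,0),(4,0)]⟩,⟨5,[(0,1),(4,1),(4,1),(12,2),(0,0),(3,1)]⟩⟩]⟩) (.Q [0,0,-1,1,
  1,0,1,0,0,-1,1] (.p true [0,0,1] [1] (⟨0,[(26,0)]⟩,⟨0,[(25,0)]⟩) .k 1 (⟨0,[]⟩,⟨0,[]⟩) .k .k) (.R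
  ⟨0,false,false,false,[1,0,-1],[0,1],[1,1,1],(⟨0,[(26,0)]⟩,⟨0,[(27,0)]⟩),(⟨0,[(31,0)]⟩,⟨0,[(30,
  0)]⟩),⟨0,[(15,0)]⟩,.k,.k,.k,.k,.k,.k,⟨true,0,⟨0,[(36,0)]⟩,⟨0,[(35,0),(1,0)]⟩⟩,⟨false,2,⟨0,[(6,0),
  (15,0)]⟩,⟨0,[(8,0)]⟩⟩,⟨true,(-1),⟨0,[(2,0)]⟩,⟨15,[(6,8),(4,6),(2,0),(2,1),(0,1),(5,1),(8,3),(7,
  1)]⟩⟩,⟨false,1,⟨1,[(1,1),(27,0),(7,1),(1,0)]⟩,⟨1,[(6,0),(1,1),(2,0),(1,0)]⟩⟩,⟨false,0,⟨0,[]⟩,⟨0,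
  []⟩⟩,⟨false,0,⟨0,[]⟩,⟨0,[]⟩⟩,[.e ⟨false,0,⟨0,[(41,0)]⟩,⟨1,[(38,0),(0,0)]⟩⟩ ⟨false,1,⟨0,[(0,0)]⟩,
  ⟨1,[(13,0),(0,0)]⟩⟩,.o ⟨false,1,⟨1,[(29,0),(7,1),(1,0)]⟩,⟨0,[(36,0)]⟩⟩,.o ⟨false,0,⟨0,[(12,0)]⟩,
  ⟨2,[(6,0),(15,0),(1,1),(4,0)]⟩⟩,.a ⟨true,(-1),⟨0,[(8,0)]⟩,⟨3,[(6,1),(15,1),(1,1),(8,0),(4,0)]⟩⟩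
  ⟨false,0,⟨0,[]⟩,⟨1,[(17,0),(0,0),(20,0)]⟩⟩ ⟨true,1,⟨0,[(0,0)]⟩,⟨0,[(8,0),(27,0)]⟩⟩]⟩) (.Q [0,0,0,
  1,0,0,-1,-1,0,0,-1] (.p false [0,0,1] [] (⟨0,[(27,0)]⟩,⟨0,[(26,0)]⟩) .k 0 (⟨0,[]⟩,⟨0,[]⟩) .k .k)
  (.R ⟨2,true,false,false,[0,1],[0,0,1],[1,1,1],(⟨0,[]⟩,⟨0,[]⟩),(⟨0,[(28,0)]⟩,⟨0,[(27,0)]⟩),⟨0,[]⟩,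
  .k,.k,.k,.k,.k,.k,⟨false,0,⟨0,[(12,0)]⟩,⟨1,[(2,1),(19,1),(7,0),(9,0)]⟩⟩,⟨true,0,⟨0,[(25,0)]⟩,⟨0,
  [(13,0)]⟩⟩,⟨true,0,⟨0,[(37,0)]⟩,⟨0,[(38,0)]⟩⟩,⟨false,1,⟨0,[(11,0),(28,0)]⟩,⟨0,[(0,0)]⟩⟩,⟨false,0,
  ⟨0,[]⟩,⟨1,[(18,0),(0,0),(20,0)]⟩⟩,⟨true,0,⟨0,[(2,0)]⟩,⟨0,[(24,0)]⟩⟩,[]⟩) (.I [0,0,0,0,1,0,0,0,-1]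
  (.I [0,1,0,1,0,0,0,0,1] (.I [0,1,0,0,0,0,1,1] (.I [0,1,1,-1,-1,0,0,1] (.C [(0,0),(7,0),(2,0),(26,
  0),(1,0)]) (.C [(0,0),(3,0),(0,0),(2,0)])) (.C [(0,0),(2,0),(3,0),(22,0)])) (.C [(0,0),(5,0),(14,
  0),(0,0)])) (.C [(0,0),(18,0),(2,0)])))))) (.Q [0,0,0,0,0,0,-1,-1,0,0,-1] (.p false [0,0,1] []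
  (⟨0,[(24,0)]⟩,⟨0,[(23,0)]⟩) .k 0 (⟨0,[]⟩,⟨0,[]⟩) .k .k) (.R ⟨1,false,false,false,[0,0,1],[1,-1],
  [0,0,0,0,0,0,0,1],(⟨0,[(25,0)]⟩,⟨0,[(24,0)]⟩),(⟨0,[(28,0)]⟩,⟨0,[(29,0)]⟩),⟨0,[(14,0)]⟩,.k,.k,.k,
  .k,.k,.k,⟨false,0,⟨0,[(3,0),(31,1)]⟩,⟨1,[(4,0),(4,0),(1,0)]⟩⟩,⟨true,(-1),⟨0,[(6,0)]⟩,⟨2,[(4,0),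
  (15,0),(1,1),(4,0)]⟩⟩,⟨false,1,⟨1,[(15,0),(0,0),(20,0)]⟩,⟨0,[]⟩⟩,⟨false,0,⟨0,[(0,0),(0,0)]⟩,⟨1,
  [(20,1),(6,0),(7,1),(1,0)]⟩⟩,⟨true,0,⟨0,[(35,0)]⟩,⟨0,[(34,0)]⟩⟩,⟨false,0,⟨1,[(0,1),(30,0),(5,0)]⟩,
  ⟨1,[(20,1),(6,0),(9,0)]⟩⟩,[.a ⟨true,0,⟨19,[(11,9),(3,3),(0,3),(14,4),(5,0),(1,1)]⟩,⟨0,[(35,0)]⟩⟩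
  ⟨true,0,⟨0,[(3,0),(31,0)]⟩,⟨0,[(0,0),(21,0)]⟩⟩ ⟨false,0,⟨3,[(0,1),(4,1),(0,1),(24,0),(4,0)]⟩,⟨2,
  [(2,1),(1,0),(15,0),(14,0),(1,0)]⟩⟩,.a ⟨true,0,⟨0,[(1,0)]⟩,⟨16,[(2,6),(1,0),(7,3),(7,0),(10,1),(0,
  4),(2,9)]⟩⟩ ⟨false,1,⟨1,[(3,0),(1,0),(29,2),(1,0)]⟩,⟨0,[(9,0)]⟩⟩ ⟨true,0,⟨2,[(0,0),(0,0),(3,0),(0,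
  1),(30,0)]⟩,⟨0,[(2,0)]⟩⟩,.o ⟨false,1,⟨2,[(4,0),(15,0),(1,1),(4,0)]⟩,⟨0,[(10,0)]⟩⟩,.a ⟨true,0,⟨0,
  [(22,0)]⟩,⟨0,[(19,0)]⟩⟩ ⟨false,1,⟨1,[(3,0),(1,0),(29,2),(1,0)]⟩,⟨0,[(0,0),(21,0)]⟩⟩ ⟨true,0,⟨3,
  [(0,1),(4,1),(0,1),(24,0),(4,0)]⟩,⟨0,[(2,0)]⟩⟩]⟩) (.Q [0,0,0,1,0,0,-1,-1,0,0,-1] (.p false [0,0,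
  1] [] (⟨0,[(25,0)]⟩,⟨0,[(24,0)]⟩) .k 0 (⟨0,[]⟩,⟨0,[]⟩) .k .k) (.R ⟨2,true,false,false,[0,1],[0,0,
  1],[1,1,1],(⟨0,[]⟩,⟨0,[]⟩),(⟨0,[(26,0)]⟩,⟨0,[(25,0)]⟩),⟨0,[]⟩,.k,.k,.k,.k,.k,.k,⟨false,0,⟨0,[(10,
  0)]⟩,⟨1,[(1,1),(18,1),(7,0),(9,0)]⟩⟩,⟨true,0,⟨0,[(23,0)]⟩,⟨0,[(11,0)]⟩⟩,⟨true,0,⟨0,[(35,0)]⟩,⟨0,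
  [(36,0)]⟩⟩,⟨false,1,⟨0,[(9,0),(28,0)]⟩,⟨0,[(0,0)]⟩⟩,⟨false,0,⟨0,[]⟩,⟨1,[(16,0),(0,0),(20,0)]⟩⟩,
  ⟨true,0,⟨0,[(1,0)]⟩,⟨0,[(22,0)]⟩⟩,[]⟩) (.Q [0,-1,-1,-1,1,0,1,0,0,0,1] (.p true [0,0,1] [] (⟨0,
  [(26,0)]⟩,⟨0,[(25,0)]⟩) .k 0 (⟨0,[]⟩,⟨0,[]⟩) .k .k) (.R ⟨0,false,false,false,[1,0,-1],[1,-1],[0,
  1],(⟨0,[(26,0)]⟩,⟨0,[(27,0)]⟩),(⟨0,[(30,0)]⟩,⟨0,[(31,0)]⟩),⟨0,[(15,0)]⟩,.k,.k,.k,.k,.k,.k,⟨false,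
  0,⟨16,[(4,6),(1,0),(7,3),(7,0),(10,1),(0,4),(2,9)]⟩,⟨7,[(3,3),(2,1),(0,1),(21,0),(9,0)]⟩⟩,⟨true,0,
  ⟨0,[(24,0)]⟩,⟨0,[(12,0)]⟩⟩,⟨false,0,⟨0,[(2,0),(9,0)]⟩,⟨0,[(11,0),(27,0)]⟩⟩,⟨true,0,⟨0,[(1,0)]⟩,⟨0,
  [(23,0),(13,0)]⟩⟩,⟨false,0,⟨0,[]⟩,⟨0,[]⟩⟩,⟨false,0,⟨0,[]⟩,⟨0,[]⟩⟩,[.a ⟨true,0,⟨19,[(13,9),(3,3),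
  (0,3),(14,4),(5,0),(1,1)]⟩,⟨0,[(37,0)]⟩⟩ ⟨true,0,⟨0,[(41,0)]⟩,⟨0,[(35,0)]⟩⟩ ⟨false,1,⟨11,[(0,2),
  (5,3),(2,2),(12,3),(1,4),(8,1)]⟩,⟨0,[(12,0),(24,0)]⟩⟩,.e ⟨false,1,⟨9,[(6,3),(7,1),(2,1),(0,1),(3,
  3),(10,0),(4,0)]⟩,⟨0,[]⟩⟩ ⟨false,1,⟨0,[(0,0)]⟩,⟨2,[(4,0),(7,1),(1,0),(19,0),(2,1)]⟩⟩,.o ⟨false,0,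
  ⟨0,[(12,0)]⟩,⟨2,[(6,0),(15,0),(1,1),(4,0)]⟩⟩,.e ⟨false,1,⟨9,[(6,3),(7,1),(2,1),(0,1),(3,3),(10,0),
  (4,0)]⟩,⟨0,[(35,0)]⟩⟩ ⟨false,1,⟨0,[(0,0)]⟩,⟨0,[(25,0),(11,0)]⟩⟩]⟩) (.R ⟨0,false,false,false,[1,0,
  -1],[1,-1],[0,1],(⟨0,[(26,0)]⟩,⟨0,[(27,0)]⟩),(⟨0,[(30,0)]⟩,⟨0,[(31,0)]⟩),⟨0,[(15,0)]⟩,.k,.k,.k,.k,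
  .k,.k,⟨false,0,⟨16,[(4,6),(1,0),(7,3),(7,0),(10,1),(0,4),(2,9)]⟩,⟨7,[(3,3),(2,1),(0,1),(21,0),(9,
  0)]⟩⟩,⟨true,0,⟨0,[(24,0)]⟩,⟨0,[(12,0)]⟩⟩,⟨false,0,⟨5,[(0,1),(1,3),(2,1),(15,1),(7,0),(9,0)]⟩,⟨0,
  [(11,0),(27,0)]⟩⟩,⟨true,0,⟨0,[(1,0)]⟩,⟨0,[(23,0),(13,0)]⟩⟩,⟨false,0,⟨0,[]⟩,⟨0,[]⟩⟩,⟨false,0,⟨0,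
  []⟩,⟨0,[]⟩⟩,[.a ⟨true,0,⟨19,[(13,9),(3,3),(0,3),(14,4),(5,0),(1,1)]⟩,⟨0,[(37,0)]⟩⟩ ⟨true,0,⟨0,
  [(41,0)]⟩,⟨0,[(35,0)]⟩⟩ ⟨false,1,⟨3,[(1,0),(4,1),(2,0),(12,0),(1,1),(8,0)]⟩,⟨3,[(0,1),(20,1),(7,
  0),(7,1),(1,0)]⟩⟩,.a ⟨true,0,⟨0,[(3,0)]⟩,⟨16,[(4,6),(1,0),(7,3),(7,0),(10,1),(0,4),(2,9)]⟩⟩
  ⟨false,1,⟨9,[(6,3),(7,1),(2,1),(0,1),(3,3),(10,0),(4,0)]⟩,⟨0,[]⟩⟩ ⟨true,1,⟨4,[(1,0),(1,0),(2,0),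
  (2,0),(14,3),(14,1)]⟩,⟨0,[(0,0)]⟩⟩,.o ⟨false,0,⟨0,[(12,0)]⟩,⟨2,[(6,0),(15,0),(1,1),(4,0)]⟩⟩,.a
  ⟨true,(-1),⟨0,[(8,0)]⟩,⟨3,[(6,1),(15,1),(1,1),(8,0),(4,0)]⟩⟩ ⟨false,1,⟨9,[(6,3),(7,1),(2,1),(0,1),
  (3,3),(10,0),(4,0)]⟩,⟨0,[(35,0)]⟩⟩ ⟨true,1,⟨3,[(1,0),(4,1),(2,0),(12,0),(1,1),(8,0)]⟩,⟨0,[(0,
  0)]⟩⟩]⟩)))))) (.S ⟨1,0,[0,0,1,1,0,0,0,-1],[1,1,-1],[0,1,1,1,0,0,0,-1],(⟨0,[(21,0),(4,0)]⟩,⟨0,[(11,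
  0)]⟩),⟨0,[(21,0)]⟩,.k,.k,⟨true,0,⟨0,[(36,0)]⟩,⟨0,[]⟩⟩,⟨false,1,⟨1,[(12,0),(0,0),(20,0)]⟩,⟨0,[]⟩⟩,
  ⟨false,0,⟨0,[(32,0)]⟩,⟨2,[(4,0),(14,0),(0,0),(13,1)]⟩⟩,⟨true,0,⟨0,[(32,0)]⟩,⟨0,[(31,0)]⟩⟩,[.o
  ⟨false,0,⟨0,[(0,0),(6,0)]⟩,⟨1,[(5,1),(18,0),(9,0)]⟩⟩,.a ⟨true,0,⟨1,[(0,1),(2,0),(12,0),(17,0)]⟩,
  ⟨0,[(5,0)]⟩⟩ ⟨false,0,⟨0,[(0,0)]⟩,⟨7,[(2,3),(6,1),(2,0),(0,0),(3,3),(6,0),(9,1)]⟩⟩ ⟨true,0,⟨0,[(0,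
  0),(29,0)]⟩,⟨0,[(5,0),(1,0)]⟩⟩,.e ⟨false,0,⟨1,[(0,1),(18,0),(0,0)]⟩,⟨0,[(2,0),(27,0),(1,0)]⟩⟩
  ⟨false,0,⟨0,[(0,0),(29,0)]⟩,⟨7,[(2,3),(6,1),(2,0),(0,0),(3,3),(6,0),(9,1)]⟩⟩,.o ⟨false,0,⟨0,[(7,
  0)]⟩,⟨2,[(1,0),(15,0),(1,1),(4,0)]⟩⟩]⟩)) (.Q [0,0,0,1,1,0,1,1,0,-2,1] (.p true [-1,1,1] [1] (⟨0,
  [(9,0)]⟩,⟨0,[(20,0),(3,0)]⟩) .k 1 (⟨0,[]⟩,⟨0,[]⟩) .k .k) (.Q [0,0,1,-1,-1,0,-1,0,0,1,-1] (.p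
  false [0,0,1] [1] (⟨0,[(22,0)]⟩,⟨0,[(21,0)]⟩) .k 1 (⟨0,[]⟩,⟨0,[]⟩) .k .k) (.R ⟨0,false,false,
  false,[1,0,-1],[0,1],[1,1,1],(⟨0,[(22,0)]⟩,⟨0,[(23,0)]⟩),(⟨0,[(27,0)]⟩,⟨0,[(26,0)]⟩),⟨0,[(11,0)]⟩,
  .k,.k,.k,.k,.k,.k,⟨true,0,⟨0,[(32,0)]⟩,⟨0,[(31,0),(1,0)]⟩⟩,⟨false,2,⟨1,[(20,1),(4,0),(8,2)]⟩,⟨0,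
  [(4,0)]⟩⟩,⟨true,(-1),⟨1,[(2,1),(22,0),(8,0)]⟩,⟨1,[(7,1),(26,0),(0,0)]⟩⟩,⟨false,1,⟨1,[(1,1),(27,0),
  (5,0)]⟩,⟨1,[(0,1),(6,1),(26,0),(0,0)]⟩⟩,⟨false,0,⟨0,[]⟩,⟨0,[]⟩⟩,⟨false,0,⟨0,[]⟩,⟨0,[]⟩⟩,[.a ⟨true,
  0,⟨0,[(33,0)]⟩,⟨19,[(9,9),(3,3),(0,3),(14,4),(5,0),(1,1)]⟩⟩ ⟨false,0,⟨0,[(37,0)]⟩,⟨1,[(34,0),(0,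
  0)]⟩⟩ ⟨true,1,⟨3,[(1,1),(5,1),(12,1),(12,1),(0,0),(0,0)]⟩,⟨0,[(0,0)]⟩⟩,.o ⟨false,1,⟨1,[(25,0),(7,
  1),(1,0)]⟩,⟨0,[(32,0)]⟩⟩,.o ⟨false,0,⟨0,[(8,0)]⟩,⟨1,[(20,1),(4,0),(8,0)]⟩⟩,.e ⟨false,0,⟨0,[]⟩,⟨1,
  [(13,0),(0,0),(20,0)]⟩⟩ ⟨false,2,⟨3,[(1,1),(5,1),(12,1),(12,1),(0,2),(0,2)]⟩,⟨0,[(0,0)]⟩⟩]⟩) (.I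
  [0,0,-1,-1,1,0,0,-1] (.R ⟨0,false,false,false,[1,0,-1],[0,1],[1,1,1],(⟨0,[(23,0)]⟩,⟨0,[(24,0)]⟩),
  (⟨0,[(28,0)]⟩,⟨0,[(27,0)]⟩),⟨0,[(12,0)]⟩,.k,.k,.k,.k,.k,.k,⟨true,0,⟨0,[(33,0)]⟩,⟨0,[(32,0),(1,
  0)]⟩⟩,⟨false,2,⟨5,[(1,5),(4,1),(7,1),(0,1),(19,0),(0,0)]⟩,⟨0,[(5,0)]⟩⟩,⟨true,(-1),⟨1,[(3,1),(22,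
  0),(8,0)]⟩,⟨2,[(0,0),(0,0),(6,1),(9,0),(17,0)]⟩⟩,⟨false,1,⟨1,[(2,1),(27,0),(5,0)]⟩,⟨0,[(0,0),(4,
  0)]⟩⟩,⟨false,0,⟨0,[]⟩,⟨0,[]⟩⟩,⟨false,0,⟨0,[]⟩,⟨0,[]⟩⟩,[.e ⟨false,0,⟨0,[(38,0)]⟩,⟨1,[(35,0),(0,
  0)]⟩⟩ ⟨false,1,⟨0,[(1,0)]⟩,⟨1,[(10,0),(0,0)]⟩⟩,.o ⟨false,1,⟨1,[(26,0),(7,1),(1,0)]⟩,⟨0,[(33,0)]⟩⟩,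
  .o ⟨false,0,⟨0,[(9,0)]⟩,⟨1,[(0,0),(1,0),(18,0)]⟩⟩,.a ⟨true,(-1),⟨0,[(5,0)]⟩,⟨3,[(0,1),(0,1),(17,
  1),(10,0),(5,0)]⟩⟩ ⟨false,0,⟨0,[]⟩,⟨1,[(14,0),(0,0),(20,0)]⟩⟩ ⟨true,1,⟨0,[(1,0)]⟩,⟨4,[(3,1),(1,1),
  (0,0),(3,0),(9,1),(1,0)]⟩⟩]⟩) (.R ⟨0,false,false,false,[-1,1,1],[0,1],[],(⟨0,[(12,0)]⟩,⟨0,[(23,0),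
  (3,0)]⟩),(⟨0,[(28,0)]⟩,⟨0,[(27,0)]⟩),⟨0,[(23,0)]⟩,.k,.k,.k,.k,.k,.k,⟨true,1,⟨5,[(6,1),(7,1),(0,1),
  (19,0),(0,0)]⟩,⟨0,[(0,0),(7,0),(23,0)]⟩⟩,⟨false,0,⟨0,[(18,0)]⟩,⟨15,[(1,5),(4,1),(7,1),(0,1),(5,9),
  (4,4),(9,0)]⟩⟩,⟨false,2,⟨5,[(6,1),(1,5),(5,1),(0,1),(19,0),(0,6)]⟩,⟨0,[(0,0)]⟩⟩,⟨true,0,⟨1,[(20,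
  1),(9,0),(5,0)]⟩,⟨0,[(0,1),(0,0),(4,0),(1,0),(23,0)]⟩⟩,⟨false,0,⟨0,[]⟩,⟨0,[]⟩⟩,⟨false,0,⟨0,[]⟩,⟨0,
  []⟩⟩,[.a ⟨true,0,⟨0,[(34,0)]⟩,⟨19,[(10,9),(3,3),(0,3),(14,4),(5,0),(1,1)]⟩⟩ ⟨false,1,⟨1,[(14,0),
  (0,0),(19,0)]⟩,⟨0,[]⟩⟩ ⟨true,(-1),⟨0,[(5,0),(28,0)]⟩,⟨0,[(0,0),(0,0),(4,0),(1,0),(23,1)]⟩⟩,.o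
  ⟨false,1,⟨1,[(26,0),(7,1),(1,0)]⟩,⟨0,[(33,0)]⟩⟩,.o ⟨false,2,⟨7,[(1,5),(4,1),(7,1),(0,1),(5,1),(4,
  4),(9,0)]⟩,⟨0,[(5,0)]⟩⟩,.e ⟨false,1,⟨1,[(35,0),(0,0)]⟩,⟨1,[(21,0),(0,0)]⟩⟩ ⟨false,0,⟨1,[(5,0),(12,
  0),(15,1),(1,0)]⟩,⟨0,[(0,0),(0,0),(4,0),(1,0),(23,1)]⟩⟩]⟩))) (.R ⟨0,false,false,true,[-1,1,1],[0,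
  0,1],[],(⟨0,[(10,0)]⟩,⟨0,[(21,0),(3,0)]⟩),(⟨0,[(22,0)]⟩,⟨0,[(21,0)]⟩),⟨0,[(21,0)]⟩,.k,.k,.k,.k,.k,
  .k,⟨true,1,⟨0,[(6,0),(27,0)]⟩,⟨1,[(1,1),(22,0),(8,0)]⟩⟩,⟨false,0,⟨9,[(12,3),(0,3),(14,4),(5,0),(1,
  1)]⟩,⟨1,[(24,0),(8,0)]⟩⟩,⟨true,1,⟨0,[(0,0),(18,0),(4,0),(8,0)]⟩,⟨1,[(1,1),(22,0),(7,1),(0,0)]⟩⟩,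
  ⟨false,0,⟨19,[(8,9),(3,3),(0,3),(14,4),(5,0),(1,1)]⟩,⟨1,[(24,0),(7,1),(1,0)]⟩⟩,⟨false,0,⟨0,[]⟩,⟨0,
  []⟩⟩,⟨false,0,⟨0,[]⟩,⟨0,[]⟩⟩,[.e ⟨false,1,⟨1,[(12,0),(0,0),(19,0)]⟩,⟨0,[]⟩⟩ ⟨false,(-1),⟨0,[(1,0),
  (31,0)]⟩,⟨1,[(6,1),(17,0),(8,0),(0,1)]⟩⟩,.o ⟨false,1,⟨1,[(17,1),(6,0),(9,0)]⟩,⟨0,[(0,0),(23,0),(7,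
  0)]⟩⟩,.o ⟨false,2,⟨0,[(19,0),(4,0),(8,0)]⟩,⟨0,[(3,0)]⟩⟩,.a ⟨true,1,⟨1,[(19,1),(4,0),(8,0)]⟩,⟨9,
  [(0,1),(0,1),(1,1),(12,5),(11,2),(3,1),(1,0)]⟩⟩ ⟨false,1,⟨1,[(33,0),(0,0)]⟩,⟨1,[(19,0),(0,0)]⟩⟩
  ⟨true,(-1),⟨0,[(1,0),(31,0)]⟩,⟨1,[(6,1),(17,0),(9,0)]⟩⟩]⟩))) (.Q [0,0,0,-1,-1,0,-2,-1,0,2,-2] (.p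
  false [0,0,1] [2,-1,-1] (⟨0,[(20,0)]⟩,⟨0,[(19,0)]⟩) .k 2 (⟨0,[(19,0),(3,0)]⟩,⟨0,[(8,0)]⟩) .k (.i
  1 ⟨0,[(8,0),(0,0)]⟩ ⟨0,[(19,1)]⟩)) (.Q [0,-1,-1,-1,1,0,1,0,0,0,1] (.p true [0,0,1] [] (⟨0,[(21,
  0)]⟩,⟨0,[(20,0)]⟩) .k 0 (⟨0,[]⟩,⟨0,[]⟩) .k .k) (.I [1,0,0,1,0,0,0,1] (.R ⟨0,false,false,false,[1,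
  0,-1],[1,-1],[0,1,0,-1,0,0,0,-1],(⟨0,[(22,0)]⟩,⟨0,[(23,0)]⟩),(⟨0,[(26,0)]⟩,⟨0,[(27,0)]⟩),⟨0,[(11,
  0)]⟩,.k,.k,.k,.k,.k,.k,⟨false,0,⟨0,[(3,0),(1,0),(27,0)]⟩,⟨0,[(0,0),(0,0),(6,0)]⟩⟩,⟨true,0,⟨0,[(20,
  0)]⟩,⟨0,[(8,0)]⟩⟩,⟨true,0,⟨0,[(32,0)]⟩,⟨0,[(33,0)]⟩⟩,⟨false,1,⟨0,[(6,0),(28,0)]⟩,⟨5,[(2,1),(0,3),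
  (13,1),(7,2),(8,2)]⟩⟩,⟨false,0,⟨0,[]⟩,⟨0,[]⟩⟩,⟨false,0,⟨0,[]⟩,⟨0,[]⟩⟩,[.a ⟨true,0,⟨19,[(9,9),(3,
  3),(0,3),(14,4),(5,0),(1,1)]⟩,⟨0,[(33,0)]⟩⟩ ⟨true,0,⟨0,[(3,0),(1,0)]⟩,⟨0,[(0,0),(30,0)]⟩⟩ ⟨false,
  1,⟨3,[(1,0),(3,0),(14,2),(13,1)]⟩,⟨2,[(0,0),(2,0),(4,0),(8,1),(7,0)]⟩⟩,.e ⟨false,1,⟨5,[(1,1),(0,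
  0),(2,0),(1,4),(17,0),(8,0),(0,1)]⟩,⟨0,[(0,0)]⟩⟩ ⟨false,1,⟨0,[(1,0)]⟩,⟨3,[(0,0),(2,0),(6,1),(14,
  0),(4,1),(2,0)]⟩⟩,.o ⟨false,0,⟨0,[(8,0)]⟩,⟨1,[(20,1),(4,0),(8,0)]⟩⟩,.e ⟨false,1,⟨5,[(1,1),(0,0),
  (2,0),(1,4),(17,0),(8,0),(0,1)]⟩,⟨0,[(0,0),(30,0)]⟩⟩ ⟨false,1,⟨0,[(1,0)]⟩,⟨5,[(0,1),(2,1),(6,1),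
  (2,0),(0,0),(6,1),(3,0)]⟩⟩]⟩) (.R ⟨0,false,false,false,[1,0,-1],[1,-1],[0,1],(⟨0,[(22,0)]⟩,⟨0,
  [(23,0)]⟩),(⟨0,[(26,0)]⟩,⟨0,[(27,0)]⟩),⟨0,[(11,0)]⟩,.k,.k,.k,.k,.k,.k,⟨false,0,⟨19,[(3,3),(6,1),
  (2,2),(0,2),(3,3),(6,0),(4,7),(2,11)]⟩,⟨0,[(1,0),(6,0)]⟩⟩,⟨true,0,⟨0,[(20,0)]⟩,⟨0,[(8,0)]⟩⟩,⟨true,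
  0,⟨0,[(8,0),(9,0)]⟩,⟨2,[(0,1),(2,0),(30,0)]⟩⟩,⟨false,1,⟨0,[(6,0),(28,0)]⟩,⟨5,[(2,1),(0,3),(13,1),
  (7,2),(8,2)]⟩⟩,⟨false,0,⟨0,[]⟩,⟨0,[]⟩⟩,⟨false,0,⟨0,[]⟩,⟨0,[]⟩⟩,[.a ⟨true,0,⟨19,[(9,9),(3,3),(0,3),
  (14,4),(5,0),(1,1)]⟩,⟨0,[(33,0)]⟩⟩ ⟨true,0,⟨0,[(37,0)]⟩,⟨0,[(31,0)]⟩⟩ ⟨false,1,⟨3,[(1,0),(3,0),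
  (14,2),(13,1)]⟩,⟨0,[(8,0),(24,0)]⟩⟩,.e ⟨false,1,⟨1,[(13,0),(0,0),(19,0)]⟩,⟨0,[]⟩⟩ ⟨false,1,⟨0,[(1,
  0)]⟩,⟨4,[(3,0),(4,1),(1,1),(7,0),(6,0),(4,1),(2,2)]⟩⟩,.o ⟨false,0,⟨0,[(8,0)]⟩,⟨1,[(20,1),(4,0),(8,
  0)]⟩⟩,.e ⟨false,1,⟨1,[(13,0),(0,0),(19,0)]⟩,⟨0,[(31,0)]⟩⟩ ⟨false,1,⟨0,[(1,0)]⟩,⟨0,[(21,0),(11,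
  0)]⟩⟩]⟩)) (.Q [0,-1,-2,0,1,0,-1,0,0,0,-1] (.p false [0,0,1] [] (⟨0,[(22,0)]⟩,⟨0,[(21,0)]⟩) .k 0
  (⟨0,[]⟩,⟨0,[]⟩) .k .k) (.R ⟨1,true,false,false,[0,0,1],[0,1],[1,0,0,-1,0,0,0,1],(⟨0,[(23,0)]⟩,⟨0,
  [(22,0)]⟩),(⟨0,[(27,0)]⟩,⟨0,[(26,0)]⟩),⟨0,[(12,0)]⟩,.k,.k,.k,.k,(.r (-2) ⟨8,[(0,0),(4,5),(4,3),(7,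
  8),(6,1),(8,1),(0,6)]⟩ ⟨0,[(3,0)]⟩),.k,⟨true,1,⟨5,[(0,1),(3,1),(0,1),(0,5),(1,1),(16,0),(9,2)]⟩,
  ⟨0,[(3,0)]⟩⟩,⟨false,1,⟨7,[(0,3),(9,1),(14,0),(4,1),(3,2)]⟩,⟨0,[(20,0)]⟩⟩,⟨false,1,⟨2,[(5,0),(14,
  0),(0,0),(13,1)]⟩,⟨0,[(33,0)]⟩⟩,⟨true,0,⟨1,[(0,0),(2,0),(15,0)]⟩,⟨0,[(6,0)]⟩⟩,⟨true,0,⟨0,[]⟩,⟨0,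
  [(37,0)]⟩⟩,⟨false,0,⟨0,[(0,0),(2,0)]⟩,⟨2,[(5,0),(0,2),(13,0),(0,0),(13,1)]⟩⟩,[]⟩) (.I [1,0,2,1,-1,
  0,0,-1] (.Q [0,-1,0,2,0,0,-1,-1,0,0,-1] (.p false [0,0,1] [] (⟨0,[(24,0)]⟩,⟨0,[(23,0)]⟩) .k 0 (⟨0,
  []⟩,⟨0,[]⟩) .k .k) (.R ⟨1,true,false,false,[0,0,1],[0,1],[0,0,0,0,0,0,0,1],(⟨0,[(25,0)]⟩,⟨0,[(24,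
  0)]⟩),(⟨0,[(29,0)]⟩,⟨0,[(28,0)]⟩),⟨0,[(14,0)]⟩,.k,.k,.k,.k,(.r (-2) ⟨3,[(7,1),(0,1),(3,1),(7,1),
  (6,0),(8,1),(0,2)]⟩ ⟨0,[(5,0)]⟩),.k,⟨true,1,⟨1,[(8,1),(10,1),(7,0),(9,0)]⟩,⟨0,[(1,0)]⟩⟩,⟨false,1,
  ⟨1,[(19,1),(7,0),(8,0)]⟩,⟨0,[(22,0)]⟩⟩,⟨false,1,⟨1,[(15,0),(0,0),(20,0)]⟩,⟨0,[]⟩⟩,⟨true,0,⟨1,[(0,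
  0),(20,0)]⟩,⟨0,[(8,0)]⟩⟩,⟨true,0,⟨0,[(35,0)]⟩,⟨0,[(34,0)]⟩⟩,⟨false,0,⟨0,[(0,0)]⟩,⟨2,[(7,0),(0,2),
  (13,0),(0,0),(13,1)]⟩⟩,[]⟩) (.I [1,0,0,-1,0,0,0,-1] (.Q [0,-1,0,-1,0,0,0,0,0,1] (.pp false [-1,
  1]) (.R ⟨0,false,false,false,[1,0,-1],[1,-1],[0,1],(⟨0,[(26,0)]⟩,⟨0,[(27,0)]⟩),(⟨0,[(30,0)]⟩,⟨0,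
  [(31,0)]⟩),⟨0,[(15,0)]⟩,.k,.k,.k,.k,.k,.k,⟨false,0,⟨19,[(7,3),(6,1),(2,2),(0,2),(3,3),(6,0),(4,7),
  (2,11)]⟩,⟨1,[(0,1),(28,0),(8,0)]⟩⟩,⟨true,0,⟨0,[(24,0)]⟩,⟨0,[(12,0)]⟩⟩,⟨true,0,⟨0,[(12,0),(9,0)]⟩,
  ⟨2,[(1,1),(5,0),(30,0)]⟩⟩,⟨false,1,⟨1,[(2,0),(19,0),(16,1)]⟩,⟨5,[(6,1),(0,3),(13,1),(7,2),(8,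
  2)]⟩⟩,⟨false,0,⟨0,[]⟩,⟨0,[]⟩⟩,⟨false,0,⟨0,[]⟩,⟨0,[]⟩⟩,[.a ⟨true,0,⟨19,[(13,9),(3,3),(0,3),(14,4),
  (5,0),(1,1)]⟩,⟨0,[(37,0)]⟩⟩ ⟨true,0,⟨0,[(41,0)]⟩,⟨0,[(35,0)]⟩⟩ ⟨false,1,⟨5,[(1,1),(0,1),(21,3),
  (13,4),(0,0)]⟩,⟨3,[(5,1),(15,1),(7,0),(7,1),(1,0)]⟩⟩,.a ⟨true,0,⟨0,[(0,0)]⟩,⟨19,[(7,3),(6,1),(2,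
  2),(0,2),(3,3),(6,0),(4,7),(2,11)]⟩⟩ ⟨false,1,⟨1,[(17,0),(0,0),(19,0)]⟩,⟨0,[]⟩⟩ ⟨true,1,⟨2,[(1,0),
  (0,0),(21,1),(13,0),(0,1)]⟩,⟨0,[(5,0)]⟩⟩,.o ⟨false,0,⟨0,[(12,0)]⟩,⟨1,[(24,1),(4,0),(8,0)]⟩⟩,.a
  ⟨true,(-1),⟨0,[(8,0)]⟩,⟨0,[(24,0),(13,0)]⟩⟩ ⟨false,1,⟨1,[(17,0),(0,0),(19,0)]⟩,⟨0,[(35,0)]⟩⟩
  ⟨true,1,⟨5,[(1,1),(0,1),(21,3),(13,4),(0,0)]⟩,⟨0,[(5,0)]⟩⟩]⟩) (.R ⟨0,false,false,false,[1,0,-1],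
  [2,-1,-1],[],(⟨0,[(26,0)]⟩,⟨0,[(27,0)]⟩),(⟨0,[(26,0),(3,0)]⟩,⟨0,[(15,0)]⟩),⟨0,[(15,0)]⟩,.k,.k,.k,
  .k,.k,.k,⟨true,0,⟨0,[(5,0),(16,0),(16,0)]⟩,⟨0,[(1,0)]⟩⟩,⟨false,0,⟨9,[(17,3),(0,3),(14,4),(5,0),(1,
  1)]⟩,⟨1,[(29,0),(8,0)]⟩⟩,⟨false,1,⟨0,[(12,0),(9,0),(16,0)]⟩,⟨2,[(1,1),(5,0),(30,0)]⟩⟩,⟨true,0,⟨19,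
  [(13,9),(3,3),(0,3),(14,4),(5,0),(1,1)]⟩,⟨0,[(0,0)]⟩⟩,⟨false,0,⟨0,[]⟩,⟨0,[]⟩⟩,⟨false,0,⟨0,[]⟩,⟨0,
  []⟩⟩,[.e ⟨false,1,⟨1,[(17,0),(0,0),(19,0)]⟩,⟨0,[]⟩⟩ ⟨false,0,⟨1,[(1,1),(31,0),(4,0)]⟩,⟨3,[(5,1),
  (15,1),(0,3),(6,2),(7,1),(1,2)]⟩⟩,.o ⟨false,0,⟨1,[(1,0),(4,0),(32,0)]⟩,⟨0,[(22,0),(6,0),(7,0)]⟩⟩,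
  .o ⟨false,0,⟨0,[(12,0)]⟩,⟨1,[(24,1),(4,0),(8,0)]⟩⟩,.a ⟨true,(-1),⟨0,[(8,0)]⟩,⟨0,[(24,0),(13,0)]⟩⟩
  ⟨false,1,⟨1,[(38,0),(0,0)]⟩,⟨1,[(24,0),(0,0)]⟩⟩ ⟨true,0,⟨1,[(1,1),(31,0),(4,0)]⟩,⟨1,[(5,1),(16,1),
  (6,0),(9,0)]⟩⟩]⟩)) (.R ⟨0,false,false,false,[-1,1,1],[0,1],[1,1,1],(⟨0,[(14,0)]⟩,⟨0,[(25,0),(3,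
  0)]⟩),(⟨0,[(30,0)]⟩,⟨0,[(29,0)]⟩),⟨0,[(25,0)]⟩,.k,.k,.k,.k,.k,.k,⟨true,0,⟨0,[(35,0)]⟩,⟨2,[(0,0),
  (5,0),(27,0),(3,0)]⟩⟩,⟨false,0,⟨0,[(20,0)]⟩,⟨1,[(23,1),(4,0),(8,0)]⟩⟩,⟨true,0,⟨1,[(2,0),(5,0),(1,
  0)]⟩,⟨0,[(0,0)]⟩⟩,⟨false,0,⟨1,[(2,0),(2,0),(31,0),(0,0)]⟩,⟨1,[(21,1),(6,0),(9,0)]⟩⟩,⟨false,0,⟨0,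
  []⟩,⟨0,[]⟩⟩,⟨false,0,⟨0,[]⟩,⟨0,[]⟩⟩,[.a ⟨true,0,⟨0,[(36,0)]⟩,⟨19,[(12,9),(3,3),(0,3),(14,4),(5,0),
  (1,1)]⟩⟩ ⟨false,0,⟨0,[(40,0)]⟩,⟨1,[(37,0),(0,0)]⟩⟩ ⟨true,(-1),⟨2,[(0,1),(4,0),(0,0),(0,0)]⟩,⟨1,
  [(1,1),(0,1),(25,0),(8,1),(0,0)]⟩⟩,.o ⟨false,1,⟨5,[(0,1),(5,1),(21,2),(8,1),(0,2)]⟩,⟨0,[(35,0)]⟩⟩,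
  .o ⟨false,2,⟨0,[(23,0),(4,0),(8,0)]⟩,⟨0,[(7,0)]⟩⟩,.e ⟨false,0,⟨0,[]⟩,⟨1,[(16,0),(0,0),(20,0)]⟩⟩
  ⟨false,0,⟨5,[(0,2),(4,0),(0,1),(13,3),(17,2)]⟩,⟨1,[(1,1),(0,1),(25,0),(8,1),(0,0)]⟩⟩]⟩))) (.Q [0,
  1,0,1,-1,0,-1,-1,0,1,-1] (.p false [0,0,1] [1] (⟨0,[(24,0)]⟩,⟨0,[(23,0)]⟩) .k 1 (⟨0,[]⟩,⟨0,[]⟩)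
  .k .k) (.S ⟨1,0,[0,0,-1,-1,0,0,0,1],[0,-1,1],[1,1,1],(⟨0,[(14,0)]⟩,⟨0,[(24,0),(4,0)]⟩),⟨15,[(1,
  11),(0,0),(2,11),(0,0),(0,3),(5,4),(0,10),(11,25),(4,1),(1,4)]⟩,.k,(.r (-2) ⟨7,[(1,3),(5,3),(4,1),
  (2,2),(0,2),(3,3),(6,0),(9,3)]⟩ ⟨0,[(5,0)]⟩),⟨true,(-1),⟨1,[(2,0),(2,0),(15,0)]⟩,⟨0,[(1,0)]⟩⟩,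
  ⟨false,1,⟨1,[(15,0),(0,0),(20,0)]⟩,⟨0,[]⟩⟩,⟨false,(-1),⟨0,[(5,0)]⟩,⟨9,[(1,5),(5,3),(0,1),(3,1),(7,
  1),(6,0),(9,8)]⟩⟩,⟨true,0,⟨0,[(35,0)]⟩,⟨0,[(34,0)]⟩⟩,[.o ⟨false,1,⟨1,[(8,1),(18,0),(9,0)]⟩,⟨1,[(0,
  1),(26,0),(9,0)]⟩⟩,.a ⟨true,1,⟨0,[(8,0),(28,0)]⟩,⟨0,[(0,0)]⟩⟩ ⟨false,0,⟨0,[]⟩,⟨1,[(15,0),(0,0),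
  (19,0)]⟩⟩ ⟨true,1,⟨0,[(1,0),(31,0)]⟩,⟨1,[(2,0),(2,0),(15,0)]⟩⟩,.e ⟨false,0,⟨1,[(22,0),(0,0)]⟩,⟨1,
  [(36,0),(0,0)]⟩⟩ ⟨false,1,⟨0,[(1,0),(31,0)]⟩,⟨3,[(5,1),(3,1),(5,0),(0,0),(20,0)]⟩⟩,.o ⟨false,0,⟨1,
  [(2,1),(24,0),(9,0)]⟩,⟨1,[(19,1),(7,0),(8,0)]⟩⟩]⟩) (.R ⟨0,false,false,true,[1,0,-1],[1,-1],[1,1],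
  (⟨0,[(24,0)]⟩,⟨0,[(25,0)]⟩),(⟨0,[(28,0)]⟩,⟨0,[(29,0)]⟩),⟨0,[(13,0)]⟩,.k,.k,.k,.k,.k,.k,⟨false,0,
  ⟨0,[(35,0)]⟩,⟨5,[(7,1),(7,1),(0,1),(19,0),(0,0)]⟩⟩,⟨true,0,⟨0,[(22,0)]⟩,⟨0,[(10,0)]⟩⟩,⟨false,0,⟨2,
  [(0,1),(0,0),(1,1),(27,0),(3,0)]⟩,⟨0,[(9,0),(27,0)]⟩⟩,⟨true,0,⟨0,[(8,0)]⟩,⟨5,[(4,1),(0,3),(13,1),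
  (7,2),(8,2)]⟩⟩,⟨false,0,⟨0,[]⟩,⟨0,[]⟩⟩,⟨false,0,⟨0,[]⟩,⟨0,[]⟩⟩,[.o ⟨false,0,⟨0,[(34,0)]⟩,⟨1,[(27,
  0),(7,1),(1,0)]⟩⟩,.a ⟨true,0,⟨19,[(11,9),(3,3),(0,3),(14,4),(5,0),(1,1)]⟩,⟨0,[(35,0)]⟩⟩ ⟨true,0,
  ⟨0,[]⟩,⟨1,[(22,0),(0,0)]⟩⟩ ⟨false,1,⟨1,[(0,1),(8,1),(21,0),(4,0)]⟩,⟨3,[(3,1),(15,1),(7,0),(7,1),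
  (1,0)]⟩⟩,.o ⟨false,0,⟨0,[(10,0)]⟩,⟨1,[(22,1),(4,0),(8,0)]⟩⟩,.e ⟨false,1,⟨1,[(15,0),(0,0),(19,0)]⟩,
  ⟨1,[(0,1),(0,0),(2,0),(0,1)]⟩⟩ ⟨false,1,⟨1,[(0,1),(8,1),(21,0),(4,0)]⟩,⟨0,[(3,0),(33,0)]⟩⟩]⟩)))))
  (.I [0,0,0,0,0,0,0,1] (.R ⟨0,false,false,true,[1,0,-1],[2,-1,-1],[],(⟨0,[(21,0)]⟩,⟨0,[(22,0)]⟩),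
  (⟨0,[(21,0),(3,0)]⟩,⟨0,[(10,0)]⟩),⟨0,[(10,0)]⟩,.k,.k,.k,.k,.k,.k,⟨true,0,⟨1,[(0,2),(1,0),(31,0)]⟩,
  ⟨0,[(2,0),(1,0)]⟩⟩,⟨false,0,⟨9,[(12,3),(0,3),(14,4),(5,0),(1,1)]⟩,⟨1,[(24,0),(8,0)]⟩⟩,⟨true,0,⟨0,
  [(0,0)]⟩,⟨0,[(6,0)]⟩⟩,⟨false,0,⟨19,[(8,9),(3,3),(0,3),(14,4),(5,0),(1,1)]⟩,⟨1,[(24,0),(7,1),(1,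
  0)]⟩⟩,⟨false,0,⟨0,[]⟩,⟨0,[]⟩⟩,⟨false,0,⟨0,[]⟩,⟨0,[]⟩⟩,[.e ⟨false,1,⟨1,[(12,0),(0,0),(19,0)]⟩,⟨0,
  []⟩⟩ ⟨false,0,⟨1,[(2,1),(1,1),(23,0),(4,0)]⟩,⟨1,[(0,0),(0,0),(5,1),(24,0),(1,0)]⟩⟩,.o ⟨false,0,⟨1,
  [(2,1),(0,0),(0,1),(11,0),(17,0)]⟩,⟨0,[(1,0),(5,0)]⟩⟩,.o ⟨false,0,⟨0,[(7,0)]⟩,⟨7,[(1,2),(2,0),(1,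
  2),(5,0),(0,0),(5,1),(4,0),(9,1)]⟩⟩,.a ⟨true,(-1),⟨0,[(3,0)]⟩,⟨0,[(19,0),(13,0)]⟩⟩ ⟨false,1,⟨1,
  [(33,0),(0,0)]⟩,⟨1,[(19,0),(0,0)]⟩⟩ ⟨true,0,⟨1,[(2,1),(1,1),(23,0),(4,0)]⟩,⟨1,[(0,2),(1,0),(21,
  0)]⟩⟩]⟩) (.R ⟨0,false,false,false,[-1,1,1],[0,1],[1,1,1],(⟨0,[(10,0)]⟩,⟨0,[(21,0),(3,0)]⟩),(⟨0,
  [(26,0)]⟩,⟨0,[(25,0)]⟩),⟨0,[(21,0)]⟩,.k,.k,.k,.k,.k,.k,⟨true,0,⟨0,[(31,0)]⟩,⟨3,[(1,0),(0,0),(0,1),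
  (28,0),(1,1)]⟩⟩,⟨false,0,⟨0,[(16,0)]⟩,⟨7,[(1,2),(2,0),(1,2),(5,0),(0,0),(5,1),(4,0),(9,1)]⟩⟩,
  ⟨true,0,⟨0,[(0,0),(30,0)]⟩,⟨0,[(1,0),(1,0),(12,0)]⟩⟩,⟨false,0,⟨1,[(0,1),(2,0),(12,0),(17,0)]⟩,⟨12,
  [(1,7),(2,0),(0,4),(3,2),(2,0),(0,0),(6,1),(13,2)]⟩⟩,⟨false,0,⟨0,[]⟩,⟨0,[]⟩⟩,⟨false,0,⟨0,[]⟩,⟨0,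
  []⟩⟩,[.a ⟨true,0,⟨0,[(32,0)]⟩,⟨19,[(8,9),(3,3),(0,3),(14,4),(5,0),(1,1)]⟩⟩ ⟨false,0,⟨0,[(36,0)]⟩,
  ⟨1,[(33,0),(0,0)]⟩⟩ ⟨true,(-1),⟨0,[(3,0),(28,0)]⟩,⟨9,[(0,1),(0,1),(2,3),(14,5),(4,2),(5,1),(3,
  0)]⟩⟩,.o ⟨false,1,⟨1,[(24,0),(7,1),(1,0)]⟩,⟨0,[(31,0)]⟩⟩,.o ⟨false,2,⟨5,[(1,2),(2,0),(1,2),(5,0),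
  (0,0),(10,2),(8,1),(0,1)]⟩,⟨0,[(3,0)]⟩⟩,.e ⟨false,0,⟨0,[]⟩,⟨1,[(12,0),(0,0),(20,0)]⟩⟩ ⟨false,0,⟨1,
  [(3,0),(12,0),(15,1),(1,0)]⟩,⟨9,[(0,1),(0,1),(2,3),(14,5),(4,2),(5,1),(3,0)]⟩⟩]⟩)))) (.I [1,0,0,0,
  0,0,0,-1] (.R ⟨0,false,false,true,[1,0,-1],[1,-1],[1,1,0,0,0,0,0,-1],(⟨0,[(19,0)]⟩,⟨0,[(20,0)]⟩),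
  (⟨0,[(23,0)]⟩,⟨0,[(24,0)]⟩),⟨0,[(8,0)]⟩,.k,.k,.k,.k,.k,.k,⟨false,0,⟨0,[(0,0),(29,0)]⟩,⟨1,[(3,1),
  (10,1),(7,0),(9,0)]⟩⟩,⟨true,0,⟨0,[(17,0)]⟩,⟨0,[(5,0)]⟩⟩,⟨false,0,⟨0,[]⟩,⟨1,[(10,0),(0,0),(20,
  0)]⟩⟩,⟨true,0,⟨0,[(3,0)]⟩,⟨0,[(0,0),(4,0),(24,0)]⟩⟩,⟨false,0,⟨0,[]⟩,⟨0,[]⟩⟩,⟨false,0,⟨0,[]⟩,⟨0,
  []⟩⟩,[.o ⟨false,0,⟨0,[(29,0)]⟩,⟨1,[(22,0),(7,1),(1,0)]⟩⟩,.a ⟨true,0,⟨19,[(6,9),(3,3),(0,3),(14,4),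
  (5,0),(1,1)]⟩,⟨0,[(30,0)]⟩⟩ ⟨true,0,⟨0,[(0,0)]⟩,⟨0,[(5,0),(9,0),(12,0)]⟩⟩ ⟨false,1,⟨5,[(1,1),(0,
  1),(14,3),(8,0),(4,1),(0,0)]⟩,⟨0,[(5,0),(24,0)]⟩⟩,.o ⟨false,0,⟨0,[(5,0)]⟩,⟨3,[(1,1),(8,0),(0,0),
  (5,1),(4,0)]⟩⟩,.o ⟨false,0,⟨0,[(18,0)]⟩,⟨0,[(1,0)]⟩⟩]⟩) (.Q [0,0,0,1,0,0,-1,-1,0,0,-1] (.p false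
  [0,0,1] [] (⟨0,[(20,0)]⟩,⟨0,[(19,0)]⟩) .k 0 (⟨0,[]⟩,⟨0,[]⟩) .k .k) (.R ⟨0,false,false,true,[1,0,
  -1],[1,-1],[1,1],(⟨0,[(20,0)]⟩,⟨0,[(21,0)]⟩),(⟨0,[(24,0)]⟩,⟨0,[(25,0)]⟩),⟨0,[(9,0)]⟩,.k,.k,.k,.k,
  .k,.k,⟨false,0,⟨0,[(31,0)]⟩,⟨5,[(3,1),(7,1),(0,1),(19,0),(0,0)]⟩⟩,⟨true,0,⟨0,[(18,0)]⟩,⟨0,[(6,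
  0)]⟩⟩,⟨false,0,⟨0,[(1,0)]⟩,⟨0,[(5,0),(27,0)]⟩⟩,⟨true,0,⟨0,[(4,0)]⟩,⟨0,[(0,0)]⟩⟩,⟨false,0,⟨0,[]⟩,
  ⟨0,[]⟩⟩,⟨false,0,⟨0,[]⟩,⟨0,[]⟩⟩,[.o ⟨false,0,⟨0,[(30,0)]⟩,⟨1,[(23,0),(7,1),(1,0)]⟩⟩,.a ⟨true,0,
  ⟨19,[(7,9),(3,3),(0,3),(14,4),(5,0),(1,1)]⟩,⟨0,[(31,0)]⟩⟩ ⟨true,0,⟨0,[]⟩,⟨1,[(18,0),(0,0)]⟩⟩
  ⟨false,1,⟨5,[(2,1),(0,1),(14,3),(8,0),(4,1),(0,0)]⟩,⟨0,[(0,0),(0,0)]⟩⟩,.o ⟨false,0,⟨0,[(6,0)]⟩,⟨3,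
  [(2,1),(8,0),(0,0),(5,1),(4,0)]⟩⟩,.o ⟨false,0,⟨0,[(19,0)]⟩,⟨0,[(2,0)]⟩⟩]⟩) (.Q [0,-1,-1,-1,1,0,1,
  0,0,0,1] (.p true [0,0,1] [] (⟨0,[(21,0)]⟩,⟨0,[(20,0)]⟩) .k 0 (⟨0,[]⟩,⟨0,[]⟩) .k .k) (.R ⟨0,false,
  false,false,[1,0,-1],[1,-1],[0,1],(⟨0,[(21,0)]⟩,⟨0,[(22,0)]⟩),(⟨0,[(25,0)]⟩,⟨0,[(26,0)]⟩),⟨0,[(10,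
  0)]⟩,.k,.k,.k,.k,.k,.k,⟨false,0,⟨0,[(32,0),(3,0)]⟩,⟨0,[(0,0),(6,0)]⟩⟩,⟨true,0,⟨0,[(19,0)]⟩,⟨0,[(7,
  0)]⟩⟩,⟨false,0,⟨0,[(2,0)]⟩,⟨0,[(6,0),(27,0)]⟩⟩,⟨true,0,⟨0,[(1,0)]⟩,⟨0,[(18,0),(13,0)]⟩⟩,⟨false,0,
  ⟨0,[]⟩,⟨0,[]⟩⟩,⟨false,0,⟨0,[]⟩,⟨0,[]⟩⟩,[.a ⟨true,0,⟨19,[(8,9),(3,3),(0,3),(14,4),(5,0),(1,1)]⟩,⟨0,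
  [(32,0)]⟩⟩ ⟨true,0,⟨0,[(36,0)]⟩,⟨0,[(30,0)]⟩⟩ ⟨false,1,⟨3,[(0,0),(3,0),(14,2),(13,1)]⟩,⟨0,[(7,0),
  (24,0)]⟩⟩,.e ⟨false,1,⟨1,[(12,0),(0,0),(19,0)]⟩,⟨0,[]⟩⟩ ⟨false,1,⟨0,[(0,0)]⟩,⟨1,[(7,0),(12,0),(8,
  0),(2,1)]⟩⟩,.o ⟨false,0,⟨0,[(7,0)]⟩,⟨3,[(3,1),(8,0),(0,0),(5,1),(4,0)]⟩⟩,.o ⟨false,0,⟨0,[(20,0)]⟩,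
  ⟨0,[(3,0)]⟩⟩]⟩) (.R ⟨0,false,false,false,[1,0,-1],[1,-1],[1,1,0,0,0,0,0,-1],(⟨0,[(21,0)]⟩,⟨0,[(22,
  0)]⟩),(⟨0,[(25,0)]⟩,⟨0,[(26,0)]⟩),⟨0,[(10,0)]⟩,.k,.k,.k,.k,.k,.k,⟨false,0,⟨0,[(6,0),(25,0)]⟩,⟨1,
  [(1,1),(14,1),(7,0),(9,0)]⟩⟩,⟨true,0,⟨0,[(19,0)]⟩,⟨0,[(7,0)]⟩⟩,⟨false,0,⟨0,[]⟩,⟨1,[(12,0),(0,0),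
  (20,0)]⟩⟩,⟨true,0,⟨0,[(1,0)]⟩,⟨0,[(18,0),(13,0)]⟩⟩,⟨false,0,⟨0,[]⟩,⟨0,[]⟩⟩,⟨false,0,⟨0,[]⟩,⟨0,
  []⟩⟩,[.a ⟨true,0,⟨19,[(8,9),(3,3),(0,3),(14,4),(5,0),(1,1)]⟩,⟨0,[(32,0)]⟩⟩ ⟨true,0,⟨0,[(6,0)]⟩,⟨0,
  [(2,0),(27,0)]⟩⟩ ⟨false,1,⟨5,[(3,1),(0,1),(14,3),(8,0),(4,1),(0,0)]⟩,⟨3,[(0,1),(15,1),(7,0),(7,1),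
  (1,0)]⟩⟩,.o ⟨false,1,⟨2,[(4,0),(14,0),(0,0),(13,1)]⟩,⟨0,[(0,0),(2,0)]⟩⟩,.o ⟨false,0,⟨0,[(7,0)]⟩,
  ⟨3,[(3,1),(8,0),(0,0),(5,1),(4,0)]⟩⟩,.o ⟨false,0,⟨0,[(20,0)]⟩,⟨0,[(3,0)]⟩⟩]⟩)))))) (.I [1,0,0,0,0,
  0,0,-1] (.R ⟨2,true,false,true,[0,1],[0,0,1],[1,1,1],(⟨0,[]⟩,⟨0,[]⟩),(⟨0,[(18,0)]⟩,⟨0,[(17,0)]⟩),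
  ⟨0,[]⟩,.k,.k,.k,.k,.k,.k,⟨false,0,⟨0,[(0,0)]⟩,⟨1,[(12,1),(0,1),(6,0),(9,0)]⟩⟩,⟨true,0,⟨0,[(15,
  0)]⟩,⟨0,[(3,0)]⟩⟩,⟨true,0,⟨0,[(27,0)]⟩,⟨0,[(28,0)]⟩⟩,⟨false,1,⟨3,[(4,1),(3,0),(0,0),(3,3),(6,0),
  (9,1)]⟩,⟨0,[(1,0)]⟩⟩,⟨false,0,⟨0,[]⟩,⟨1,[(8,0),(0,0),(20,0)]⟩⟩,⟨true,0,⟨0,[(13,0)]⟩,⟨0,[(1,0),(25,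
  0)]⟩⟩,[]⟩) (.I [0,0,0,1,0,0,0,-1] (.R ⟨2,true,false,true,[0,1],[0,0,1],[0,1,1,1],(⟨0,[]⟩,⟨0,[]⟩),
  (⟨0,[(19,0)]⟩,⟨0,[(18,0)]⟩),⟨0,[]⟩,.k,.k,.k,.k,.k,.k,⟨false,0,⟨0,[(0,0)]⟩,⟨5,[(1,3),(3,2),(0,0),
  (7,1),(6,1),(8,2),(0,0)]⟩⟩,⟨true,0,⟨0,[(16,0)]⟩,⟨0,[(4,0)]⟩⟩,⟨true,0,⟨0,[(33,0)]⟩,⟨0,[]⟩⟩,⟨false,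
  1,⟨3,[(5,1),(3,0),(0,0),(3,3),(6,0),(9,1)]⟩,⟨0,[(2,0)]⟩⟩,⟨false,0,⟨0,[(29,0)]⟩,⟨3,[(5,1),(3,0),(0,
  0),(10,0),(9,1)]⟩⟩,⟨true,0,⟨0,[(14,0)]⟩,⟨0,[(2,0),(25,0)]⟩⟩,[]⟩) (.Q [0,1,0,1,-1,0,-1,-1,0,1,-1]
  (.p false [0,0,1] [1] (⟨0,[(19,0)]⟩,⟨0,[(18,0)]⟩) .k 1 (⟨0,[]⟩,⟨0,[]⟩) .k .k) (.S ⟨1,0,[0,1,1,1,0,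
  0,0,-1],[1,1,-1],[0,0,1,1,0,0,0,-1],(⟨0,[(19,0),(4,0)]⟩,⟨0,[(9,0)]⟩),⟨0,[(19,0)]⟩,.k,.k,⟨false,1,
  ⟨1,[(10,0),(0,0),(20,0)]⟩,⟨0,[]⟩⟩,⟨true,0,⟨0,[(34,0)]⟩,⟨0,[]⟩⟩,⟨true,0,⟨0,[(30,0)]⟩,⟨0,[(29,0)]⟩⟩,
  ⟨false,0,⟨0,[(30,0)]⟩,⟨3,[(6,1),(3,0),(0,0),(10,0),(9,1)]⟩⟩,[.a ⟨true,(-1),⟨0,[(0,0)]⟩,⟨1,[(1,1),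
  (15,1),(13,0),(0,0)]⟩⟩ ⟨true,0,⟨3,[(3,1),(0,1),(12,2),(0,0),(11,1)]⟩,⟨0,[(1,0)]⟩⟩ ⟨false,0,⟨0,[(4,
  0),(25,0)]⟩,⟨1,[(1,1),(29,0),(0,0)]⟩⟩,.o ⟨false,0,⟨1,[(3,0),(12,0),(13,0)]⟩,⟨1,[(1,1),(15,1),(4,
  0),(8,0)]⟩⟩,.e ⟨false,0,⟨0,[(3,0),(13,0)]⟩,⟨3,[(1,1),(4,0),(0,0),(7,1),(6,0),(8,1),(0,0)]⟩⟩
  ⟨false,0,⟨3,[(3,1),(0,1),(12,2),(0,0),(11,1)]⟩,⟨1,[(1,1),(29,0),(0,0)]⟩⟩,.o ⟨false,0,⟨0,[(5,0)]⟩,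
  ⟨1,[(17,1),(4,0),(8,0)]⟩⟩]⟩) (.Q [0,0,-1,0,1,0,1,0,0,-1,1] (.p true [0,0,1] [1] (⟨0,[(20,0)]⟩,⟨0,
  [(19,0)]⟩) .k 1 (⟨0,[]⟩,⟨0,[]⟩) .k .k) (.I [0,1,0,0,0,0,0,-1] (.R ⟨0,false,false,false,[1,0,-1],
  [1,-1],[1],(⟨0,[(21,0)]⟩,⟨0,[(22,0)]⟩),(⟨0,[(25,0)]⟩,⟨0,[(26,0)]⟩),⟨0,[(10,0)]⟩,.k,.k,.k,.k,.k,.k,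
  ⟨false,0,⟨0,[(32,0)]⟩,⟨3,[(8,1),(3,0),(0,0),(10,0),(8,1)]⟩⟩,⟨true,0,⟨0,[(19,0)]⟩,⟨0,[(7,0)]⟩⟩,
  ⟨true,0,⟨0,[(4,0)]⟩,⟨0,[(0,0)]⟩⟩,⟨false,1,⟨2,[(2,0),(5,0),(8,1),(16,1)]⟩,⟨1,[(5,0),(12,0),(13,
  0)]⟩⟩,⟨false,0,⟨0,[]⟩,⟨0,[]⟩⟩,⟨false,0,⟨0,[]⟩,⟨0,[]⟩⟩,[.a ⟨true,0,⟨19,[(8,9),(3,3),(0,3),(14,4),
  (5,0),(1,1)]⟩,⟨0,[(32,0)]⟩⟩ ⟨true,0,⟨0,[]⟩,⟨1,[(19,0),(0,0)]⟩⟩ ⟨false,1,⟨1,[(1,0),(6,0),(10,0),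
  (13,0)]⟩,⟨0,[(7,0),(24,0)]⟩⟩,.e ⟨false,1,⟨1,[(33,0),(0,0)]⟩,⟨0,[(36,0)]⟩⟩ ⟨false,1,⟨0,[(1,0),(0,
  0),(2,0),(22,0),(2,0)]⟩,⟨1,[(7,0),(12,0),(8,0),(2,1)]⟩⟩,.o ⟨false,0,⟨0,[(7,0)]⟩,⟨3,[(1,1),(10,0),
  (0,0),(5,1),(4,0)]⟩⟩,.o ⟨false,0,⟨0,[(20,0)]⟩,⟨0,[(1,0)]⟩⟩]⟩) (.S ⟨1,0,[0,0,0,0,0,0,0,1],[0,0,1],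
  [0,1,0,0,0,0,0,1],(⟨0,[(22,0)]⟩,⟨0,[(21,0)]⟩),⟨0,[(11,0)]⟩,.k,.k,⟨true,0,⟨0,[(36,0)]⟩,⟨0,[]⟩⟩,
  ⟨false,1,⟨1,[(12,0),(0,0),(20,0)]⟩,⟨0,[]⟩⟩,⟨false,0,⟨0,[(32,0)]⟩,⟨3,[(8,1),(3,0),(0,0),(10,0),(9,
  1)]⟩⟩,⟨true,0,⟨0,[(32,0)]⟩,⟨0,[(31,0)]⟩⟩,[.o ⟨false,1,⟨1,[(17,1),(6,0),(9,0)]⟩,⟨0,[(5,0),(25,
  0)]⟩⟩,.o ⟨false,1,⟨0,[(2,0),(29,0)]⟩,⟨0,[(18,0)]⟩⟩,.o ⟨false,1,⟨3,[(1,1),(10,0),(0,0),(5,1),(4,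
  0)]⟩,⟨0,[(7,0)]⟩⟩,.a ⟨true,0,⟨0,[(19,0)]⟩,⟨0,[(16,0)]⟩⟩ ⟨true,0,⟨0,[(0,0),(28,0)]⟩,⟨0,[(6,0),(23,
  0)]⟩⟩ ⟨false,1,⟨1,[(4,1),(28,0),(0,0)]⟩,⟨0,[(6,0),(23,0)]⟩⟩]⟩)) (.R ⟨0,false,false,false,[-1,1,1],
  [0,1],[0,1,1,0,0,0,0,1],(⟨0,[(9,0)]⟩,⟨0,[(20,0),(3,0)]⟩),(⟨0,[(25,0)]⟩,⟨0,[(24,0)]⟩),⟨0,[(20,0)]⟩,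
  .k,.k,.k,.k,.k,.k,⟨true,0,⟨3,[(2,2),(13,0),(2,0),(8,0),(1,0)]⟩,⟨0,[(4,0),(13,0)]⟩⟩,⟨false,0,⟨0,
  [(15,0)]⟩,⟨1,[(18,1),(4,0),(8,0)]⟩⟩,⟨true,0,⟨0,[(30,0)]⟩,⟨0,[(31,0)]⟩⟩,⟨false,0,⟨7,[(4,5),(0,1),
  (1,2),(0,0),(18,1),(5,1)]⟩,⟨1,[(16,1),(6,0),(9,0)]⟩⟩,⟨false,0,⟨0,[]⟩,⟨0,[]⟩⟩,⟨false,0,⟨0,[]⟩,⟨0,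
  []⟩⟩,[.a ⟨true,0,⟨0,[(31,0)]⟩,⟨19,[(7,9),(3,3),(0,3),(14,4),(5,0),(1,1)]⟩⟩ ⟨false,0,⟨2,[(3,1),(12,
  0),(2,0),(8,0)]⟩,⟨1,[(1,1),(2,1),(0,1),(21,0),(4,0)]⟩⟩ ⟨true,(-1),⟨0,[(0,0),(30,0)]⟩,⟨0,[(1,0),(3,
  0)]⟩⟩,.o ⟨false,1,⟨1,[(23,0),(7,1),(1,0)]⟩,⟨0,[(30,0)]⟩⟩,.o ⟨false,2,⟨0,[(18,0),(4,0),(8,0)]⟩,⟨0,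
  [(0,0)]⟩⟩,.e ⟨false,0,⟨0,[(3,0)]⟩,⟨0,[(5,0),(27,0)]⟩⟩ ⟨false,0,⟨2,[(3,0),(0,0),(3,0),(18,0),(3,1),
  (1,0)]⟩,⟨0,[(1,0),(3,0)]⟩⟩]⟩))))))

theorem ok1 : chk K t1 l2 = true := by decide +kernel

noncomputable def t2 : Tre :=
  (.Q [0,0,0,0,0,0,1,1,0,0,1] (.p true [0,0,1] [] (⟨0,[(16,0)]⟩,⟨0,[(15,0)]⟩) .k 0 (⟨0,[]⟩,⟨0,[]⟩)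
  .k .k) (.Q [0,0,0,-1,0,0,1,1,0,0,1] (.p true [0,0,1] [] (⟨0,[(17,0)]⟩,⟨0,[(16,0)]⟩) .k 0 (⟨0,[]⟩,
  ⟨0,[]⟩) .k .k) (.Q [0,-1,-1,-1,1,0,1,0,0,0,1] (.p true [0,0,1] [] (⟨0,[(18,0)]⟩,⟨0,[(17,0)]⟩) .k
  0 (⟨0,[]⟩,⟨0,[]⟩) .k .k) (.R ⟨0,false,false,false,[1,0,-1],[1,-1],[0,1],(⟨0,[(18,0)]⟩,⟨0,[(19,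
  0)]⟩),(⟨0,[(22,0)]⟩,⟨0,[(23,0)]⟩),⟨0,[(7,0)]⟩,.k,.k,.k,.k,.k,.k,⟨false,0,⟨0,[(29,0),(3,0)]⟩,⟨0,
  [(0,0),(3,0)]⟩⟩,⟨true,0,⟨0,[(16,0)]⟩,⟨0,[(4,0)]⟩⟩,⟨false,0,⟨3,[(3,2),(10,0),(2,0),(8,0)]⟩,⟨0,[(0,
  0),(14,0),(11,0),(1,0)]⟩⟩,⟨true,0,⟨0,[(1,0)]⟩,⟨0,[(15,0),(13,0)]⟩⟩,⟨false,0,⟨0,[]⟩,⟨0,[]⟩⟩,⟨false,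
  0,⟨0,[]⟩,⟨0,[]⟩⟩,[.a ⟨true,0,⟨19,[(5,9),(3,3),(0,3),(14,4),(5,0),(1,1)]⟩,⟨0,[(29,0)]⟩⟩ ⟨true,0,⟨0,
  [(33,0)]⟩,⟨0,[(27,0)]⟩⟩ ⟨false,1,⟨5,[(0,4),(8,0),(0,0),(5,0),(9,1),(1,0)]⟩,⟨0,[(4,0),(24,0)]⟩⟩,.e
  ⟨false,1,⟨1,[(9,0),(0,0),(19,0)]⟩,⟨0,[]⟩⟩ ⟨false,1,⟨0,[(0,0)]⟩,⟨1,[(4,0),(12,0),(8,0),(2,1)]⟩⟩,.o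
  ⟨false,0,⟨0,[(4,0)]⟩,⟨1,[(16,1),(4,0),(8,0)]⟩⟩,.e ⟨false,1,⟨1,[(9,0),(0,0),(19,0)]⟩,⟨0,[(27,0)]⟩⟩
  ⟨false,1,⟨0,[(0,0)]⟩,⟨0,[(17,0),(11,0)]⟩⟩]⟩) (.Q [0,1,0,1,0,0,0,0,0,-1] (.pp true [-1,1]) (.Q [0,
  0,1,1,-1,0,-1,0,0,0,-1] (.p false [0,0,1] [] (⟨0,[(20,0)]⟩,⟨0,[(19,0)]⟩) .k 0 (⟨0,[]⟩,⟨0,[]⟩) .k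
  .k) (.R ⟨0,false,false,false,[1,0,-1],[1,-1],[],(⟨0,[(20,0)]⟩,⟨0,[(21,0)]⟩),(⟨0,[(24,0)]⟩,⟨0,[(25,
  0)]⟩),⟨0,[(9,0)]⟩,.k,.k,.k,.k,.k,.k,⟨false,0,⟨0,[(31,0)]⟩,⟨3,[(7,1),(3,0),(0,0),(10,0),(8,1)]⟩⟩,
  ⟨true,0,⟨0,[(18,0)]⟩,⟨0,[(6,0)]⟩⟩,⟨false,0,⟨0,[(5,0)]⟩,⟨1,[(17,1),(0,1),(13,0),(0,0)]⟩⟩,⟨true,0,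
  ⟨0,[(3,0)]⟩,⟨0,[(17,0),(13,0)]⟩⟩,⟨false,0,⟨0,[]⟩,⟨0,[]⟩⟩,⟨false,0,⟨0,[]⟩,⟨0,[]⟩⟩,[.a ⟨true,0,⟨19,
  [(7,9),(3,3),(0,3),(14,4),(5,0),(1,1)]⟩,⟨0,[(31,0)]⟩⟩ ⟨false,1,⟨1,[(11,0),(0,0),(19,0)]⟩,⟨0,[]⟩⟩
  ⟨true,1,⟨3,[(7,1),(3,0),(0,0),(5,3),(4,0),(8,1)]⟩,⟨0,[(0,0)]⟩⟩,.o ⟨false,1,⟨3,[(7,1),(3,0),(0,0),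
  (10,0),(9,1)]⟩,⟨0,[(1,0)]⟩⟩,.o ⟨false,0,⟨0,[(6,0)]⟩,⟨1,[(18,1),(4,0),(8,0)]⟩⟩,.e ⟨false,1,⟨1,[(32,
  0),(0,0)]⟩,⟨1,[(18,0),(0,0)]⟩⟩ ⟨false,2,⟨3,[(7,1),(3,0),(0,0),(5,3),(4,0),(8,3),(0,1)]⟩,⟨0,[(0,
  0)]⟩⟩]⟩) (.Q [0,0,1,0,-1,0,-1,0,0,1,-1] (.p false [0,0,1] [1] (⟨0,[(21,0)]⟩,⟨0,[(20,0)]⟩) .k 1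
  (⟨0,[]⟩,⟨0,[]⟩) .k .k) (.R ⟨0,false,false,false,[1,0,-1],[1,-1],[],(⟨0,[(21,0)]⟩,⟨0,[(22,0)]⟩),
  (⟨0,[(25,0)]⟩,⟨0,[(26,0)]⟩),⟨0,[(10,0)]⟩,.k,.k,.k,.k,.k,.k,⟨false,0,⟨0,[(32,0)]⟩,⟨3,[(1,1),(6,0),
  (0,0),(14,0),(8,0)]⟩⟩,⟨true,0,⟨0,[(19,0)]⟩,⟨0,[(7,0)]⟩⟩,⟨false,0,⟨0,[(6,0)]⟩,⟨1,[(1,0),(16,1),(0,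
  0),(12,0),(1,0)]⟩⟩,⟨true,0,⟨0,[(4,0)]⟩,⟨0,[(18,0),(13,0)]⟩⟩,⟨false,0,⟨0,[]⟩,⟨0,[]⟩⟩,⟨false,0,⟨0,
  []⟩,⟨0,[]⟩⟩,[.e ⟨false,1,⟨1,[(12,0),(0,0),(19,0)]⟩,⟨0,[]⟩⟩ ⟨false,1,⟨0,[(1,0)]⟩,⟨1,[(2,0),(0,0),
  (12,0),(17,0)]⟩⟩,.o ⟨false,1,⟨5,[(1,1),(6,1),(11,1),(3,0),(9,2)]⟩,⟨0,[(2,0)]⟩⟩,.o ⟨false,0,⟨0,[(7,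
  0)]⟩,⟨3,[(1,1),(0,1),(16,1),(4,0),(9,0)]⟩⟩,.a ⟨true,(-1),⟨0,[(0,0)]⟩,⟨0,[(1,0),(30,0)]⟩⟩ ⟨false,1,
  ⟨1,[(33,0),(0,0)]⟩,⟨1,[(19,0),(0,0)]⟩⟩ ⟨true,1,⟨0,[(1,0)]⟩,⟨0,[(3,0)]⟩⟩]⟩) (.R ⟨0,false,false,
  false,[1,0,-1],[1,-1],[1],(⟨0,[(21,0)]⟩,⟨0,[(22,0)]⟩),(⟨0,[(25,0)]⟩,⟨0,[(26,0)]⟩),⟨0,[(10,0)]⟩,.k,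
  .k,.k,.k,.k,.k,⟨false,0,⟨0,[(32,0)]⟩,⟨3,[(1,1),(6,0),(0,0),(14,0),(8,0)]⟩⟩,⟨true,0,⟨0,[(19,0)]⟩,
  ⟨0,[(7,0)]⟩⟩,⟨false,0,⟨0,[(6,0)]⟩,⟨1,[(1,0),(16,1),(0,0),(12,0),(1,0)]⟩⟩,⟨true,0,⟨0,[(4,0)]⟩,⟨0,
  [(18,0),(13,0)]⟩⟩,⟨false,0,⟨0,[]⟩,⟨0,[]⟩⟩,⟨false,0,⟨0,[]⟩,⟨0,[]⟩⟩,[.a ⟨true,0,⟨17,[(1,3),(6,6),(0,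
  2),(9,1),(8,3),(6,1)]⟩,⟨0,[(32,0)]⟩⟩ ⟨true,0,⟨0,[]⟩,⟨1,[(19,0),(0,0)]⟩⟩ ⟨false,1,⟨0,[(1,0)]⟩,⟨1,
  [(2,0),(0,0),(12,0),(17,0)]⟩⟩,.o ⟨false,1,⟨5,[(1,1),(6,1),(11,1),(3,0),(9,2)]⟩,⟨0,[(2,0)]⟩⟩,.o
  ⟨false,0,⟨0,[(7,0)]⟩,⟨3,[(0,1),(11,0),(0,0),(5,1),(4,0)]⟩⟩,.o ⟨false,0,⟨0,[(20,0)]⟩,⟨0,[(0,
  0)]⟩⟩]⟩))) (.I [1,0,-2,-1,1] (.R ⟨0,false,false,false,[1,0,-1],[1,-1],[1],(⟨0,[(20,0)]⟩,⟨0,[(21,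
  0)]⟩),(⟨0,[(24,0)]⟩,⟨0,[(25,0)]⟩),⟨0,[(9,0)]⟩,.k,.k,.k,.k,.k,.k,⟨false,0,⟨0,[(31,0)]⟩,⟨7,[(0,3),
  (6,1),(3,2),(0,2),(10,0)]⟩⟩,⟨true,0,⟨0,[(18,0)]⟩,⟨0,[(6,0)]⟩⟩,⟨false,0,⟨0,[(5,0)]⟩,⟨1,[(17,1),(0,
  1),(13,0),(0,0)]⟩⟩,⟨true,0,⟨0,[(3,0)]⟩,⟨0,[(17,0),(13,0)]⟩⟩,⟨false,0,⟨0,[]⟩,⟨0,[]⟩⟩,⟨false,0,⟨0,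
  []⟩,⟨0,[]⟩⟩,[.a ⟨true,0,⟨19,[(7,9),(3,3),(0,3),(14,4),(5,0),(1,1)]⟩,⟨0,[(31,0)]⟩⟩ ⟨true,0,⟨0,[]⟩,
  ⟨1,[(18,0),(0,0)]⟩⟩ ⟨false,1,⟨0,[(0,0),(17,0)]⟩,⟨3,[(2,1),(12,1),(7,0),(7,1),(1,0)]⟩⟩,.a ⟨true,0,
  ⟨0,[(1,0)]⟩,⟨0,[(31,0),(3,0)]⟩⟩ ⟨false,1,⟨1,[(32,0),(0,0)]⟩,⟨0,[(35,0)]⟩⟩ ⟨true,1,⟨3,[(0,1),(0,1),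
  (16,3),(4,0),(9,0)]⟩,⟨0,[(2,0)]⟩⟩,.o ⟨false,0,⟨0,[(6,0)]⟩,⟨1,[(18,1),(4,0),(8,0)]⟩⟩,.a ⟨true,(-1),
  ⟨0,[(1,0),(0,0)]⟩,⟨0,[(18,0),(13,0)]⟩⟩ ⟨false,1,⟨1,[(32,0),(0,0)]⟩,⟨1,[(18,0),(0,0)]⟩⟩ ⟨true,1,⟨0,
  [(0,0),(17,0)]⟩,⟨0,[(2,0)]⟩⟩]⟩) (.S ⟨1,0,[0,1,-1,-1],[1,-1],[0,0,-1,-1],(⟨0,[(24,0)]⟩,⟨0,[(25,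
  0)]⟩),⟨2,[(0,0),(0,0),(20,3),(1,1),(7,0),(2,0)]⟩,.k,(.r (-2) ⟨1,[(7,1),(3,0),(0,0),(10,0),(8,1)]⟩
  ⟨0,[(0,0),(30,0)]⟩),⟨false,1,⟨1,[(11,0),(0,0),(20,0)]⟩,⟨0,[]⟩⟩,⟨true,0,⟨0,[(35,0)]⟩,⟨0,[]⟩⟩,⟨true,
  0,⟨0,[(31,0)]⟩,⟨0,[(30,0)]⟩⟩,⟨false,0,⟨0,[(31,0)]⟩,⟨3,[(7,1),(3,0),(0,0),(10,0),(9,1)]⟩⟩,[.o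
  ⟨false,0,⟨0,[(30,0)]⟩,⟨1,[(23,0),(7,1),(1,0)]⟩⟩,.e ⟨true,1,⟨1,[(1,1),(21,0),(8,0)]⟩,⟨0,[(0,0),(34,
  0)]⟩⟩ ⟨true,1,⟨3,[(7,1),(3,0),(0,0),(10,0),(8,1)]⟩,⟨0,[(0,0)]⟩⟩,.o ⟨false,0,⟨1,[(18,0),(0,0)]⟩,⟨1,
  [(23,0),(8,0)]⟩⟩,.a ⟨true,(-1),⟨4,[(0,3),(6,1),(0,0),(9,1),(8,0)]⟩,⟨0,[(32,0)]⟩⟩ ⟨false,2,⟨3,[(7,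
  1),(3,0),(0,0),(10,0),(8,3),(0,1)]⟩,⟨0,[(0,0)]⟩⟩ ⟨true,1,⟨0,[(30,0),(1,0)]⟩,⟨0,[(0,0)]⟩⟩]⟩))))
  (.I [0,0,-1,0,1,0,0,-1] (.R ⟨2,true,false,true,[0,1],[0,0,1],[1,0,1],(⟨0,[]⟩,⟨0,[]⟩),(⟨0,[(19,
  0)]⟩,⟨0,[(18,0)]⟩),⟨0,[]⟩,.k,.k,.k,.k,.k,.k,⟨false,1,⟨0,[(0,0),(26,0)]⟩,⟨0,[(3,0),(22,0)]⟩⟩,⟨true,
  0,⟨0,[(16,0)]⟩,⟨0,[(4,0)]⟩⟩,⟨false,1,⟨3,[(5,1),(3,0),(0,0),(10,0),(9,1)]⟩,⟨0,[(29,0)]⟩⟩,⟨true,0,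
  ⟨0,[(2,0),(25,0)]⟩,⟨0,[(1,0)]⟩⟩,⟨true,0,⟨0,[]⟩,⟨0,[(33,0)]⟩⟩,⟨false,0,⟨0,[(2,0)]⟩,⟨0,[(15,0),(15,
  0)]⟩⟩,[]⟩) (.R ⟨2,true,false,true,[0,1],[0,0,1],[0,0,1,1],(⟨0,[]⟩,⟨0,[]⟩),(⟨0,[(19,0)]⟩,⟨0,[(18,
  0)]⟩),⟨0,[]⟩,.k,.k,.k,.k,.k,.k,⟨false,1,⟨1,[(1,1),(14,1),(13,0),(0,0)]⟩,⟨0,[(0,0),(27,0),(1,0)]⟩⟩,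
  ⟨true,0,⟨0,[(16,0)]⟩,⟨0,[(4,0)]⟩⟩,⟨false,1,⟨1,[(9,0),(0,0),(20,0)]⟩,⟨0,[]⟩⟩,⟨true,0,⟨0,[(2,0),(25,
  0)]⟩,⟨0,[(1,0)]⟩⟩,⟨true,0,⟨0,[(29,0)]⟩,⟨0,[(28,0)]⟩⟩,⟨false,0,⟨0,[(2,0)]⟩,⟨0,[(15,0),(15,0)]⟩⟩,
  []⟩))) (.S ⟨1,0,[0,0,0,0,0,0,0,1],[0,0,1],[0,1,0,0,0,0,0,1],(⟨0,[(17,0)]⟩,⟨0,[(16,0)]⟩),⟨0,[(6,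
  0)]⟩,.k,.k,⟨true,0,⟨0,[(31,0)]⟩,⟨0,[]⟩⟩,⟨false,1,⟨1,[(7,0),(0,0),(20,0)]⟩,⟨0,[]⟩⟩,⟨false,0,⟨0,
  [(27,0)]⟩,⟨3,[(3,1),(3,0),(0,0),(10,0),(9,1)]⟩⟩,⟨true,0,⟨0,[(27,0)]⟩,⟨0,[(26,0)]⟩⟩,[.o ⟨false,1,
  ⟨1,[(12,1),(6,0),(9,0)]⟩,⟨0,[(0,0)]⟩⟩,.o ⟨false,1,⟨1,[(1,1),(12,1),(4,0),(8,0)]⟩,⟨0,[(13,0)]⟩⟩,.o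
  ⟨false,1,⟨1,[(14,1),(4,0),(8,0)]⟩,⟨0,[(2,0)]⟩⟩,.a ⟨true,0,⟨0,[(14,0)]⟩,⟨0,[(11,0)]⟩⟩ ⟨true,0,⟨0,
  [(1,0),(22,0)]⟩,⟨0,[(0,0),(13,0)]⟩⟩ ⟨false,1,⟨9,[(1,5),(2,1),(7,3),(6,0),(8,4),(0,3)]⟩,⟨0,[(0,0),
  (13,0)]⟩⟩]⟩))

theorem ok2 : chk K t2 r2 = true := by decide +kernel

noncomputable def t4 : Tre :=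
  (.Q [0,0,-1,0,1,0,2,0,0,-2,2] (.p true [0,0,1] [2,-1,-1] (⟨0,[(15,0)]⟩,⟨0,[(14,0)]⟩) .k 2 (⟨0,
  [(14,0),(3,0)]⟩,⟨0,[(3,0)]⟩) .k (.x (-1) ⟨0,[(0,1),(13,1),(2,0)]⟩ ⟨0,[(2,0),(0,0),(0,0)]⟩)) (.I
  [0,0,-1,-1,0,0,0,-2] (.Q [0,1,0,-1,-1,0,-1,-1,0,2,-1] (.p false [-1,1,1] [1] (⟨0,[(5,0)]⟩,⟨0,[(16,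
  0),(3,0)]⟩) .k 1 (⟨0,[]⟩,⟨0,[]⟩) .k .k) (.K ⟨0,[2,-1,-1],(-1),(-1),(⟨0,[(17,0),(3,0)]⟩,⟨0,[(6,
  0)]⟩),.k,(.r (-1) ⟨7,[(1,3),(0,1),(1,5),(7,3),(7,2),(8,2)]⟩ ⟨0,[(13,0),(2,0),(9,0),(1,1)]⟩),.k,
  (.r 0 ⟨0,[(1,0)]⟩ ⟨1,[(5,1),(7,3),(6,0),(5,1),(1,1),(1,0)]⟩),.k,[⟨0,[(2,0)]⟩,⟨3,[(15,0),(0,4),(7,
  3),(6,1)]⟩,⟨0,[(13,0),(6,0),(7,0)]⟩,⟨0,[(0,0)]⟩]⟩) (.Q [0,0,0,1,0,0,-1,-1,0,0,-1] (.p false [0,0,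
  1] [] (⟨0,[(18,0)]⟩,⟨0,[(17,0)]⟩) .k 0 (⟨0,[]⟩,⟨0,[]⟩) .k .k) (.R ⟨2,false,false,true,[0,1],[0,0,
  1],[1],(⟨0,[]⟩,⟨0,[]⟩),(⟨0,[(19,0)]⟩,⟨0,[(18,0)]⟩),⟨0,[]⟩,.k,.k,.k,.k,.k,.k,⟨true,0,⟨0,[(1,0),(0,
  0),(14,0),(7,0)]⟩,⟨0,[(14,0),(2,0)]⟩⟩,⟨false,0,⟨0,[(4,0)]⟩,⟨3,[(6,1),(2,0),(0,0),(10,0),(8,1)]⟩⟩,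
  ⟨false,1,⟨9,[(1,3),(0,1),(2,5),(7,3),(7,0),(8,1),(0,2)]⟩,⟨1,[(16,0),(0,0),(11,1)]⟩⟩,⟨true,0,⟨0,
  [(1,0),(23,0),(2,1)]⟩,⟨0,[(0,0)]⟩⟩,⟨false,1,⟨1,[(30,0),(0,0)]⟩,⟨1,[(16,0),(0,0)]⟩⟩,⟨false,0,⟨0,
  [(1,0),(23,0),(2,0)]⟩,⟨0,[(15,0),(15,0)]⟩⟩,[.a ⟨true,0,⟨0,[(14,0)]⟩,⟨2,[(0,0),(1,0),(3,0),(18,0),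
  (1,0),(3,0)]⟩⟩ ⟨true,0,⟨0,[]⟩,⟨1,[(16,0),(0,0)]⟩⟩ ⟨false,0,⟨0,[(14,0)]⟩,⟨5,[(0,1),(1,1),(3,1),(14,
  0),(8,1),(0,2)]⟩⟩,.e ⟨false,1,⟨1,[(30,0),(0,0)]⟩,⟨0,[(33,0)]⟩⟩ ⟨false,0,⟨0,[(1,0),(23,0),(2,0)]⟩,
  ⟨1,[(15,1),(14,0),(0,0)]⟩⟩,.o ⟨false,1,⟨1,[(21,0),(8,0)]⟩,⟨1,[(16,0),(0,0)]⟩⟩,.fo]⟩) (.R ⟨0,false,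
  false,false,[-1,1,1],[1,0,-1],[1,0,1],(⟨0,[(7,0)]⟩,⟨0,[(18,0),(3,0)]⟩),(⟨0,[(18,0)]⟩,⟨0,[(19,
  0)]⟩),⟨0,[(18,0)]⟩,.k,.k,.k,(.r (-1) ⟨3,[(1,2),(4,5),(7,4),(1,3),(12,0),(1,0)]⟩ ⟨0,[(2,0)]⟩),.k,
  .k,⟨true,0,⟨2,[(0,0),(0,0),(12,0),(2,2),(7,0)]⟩,⟨4,[(2,1),(12,0),(0,0),(10,0),(1,1)]⟩⟩,⟨false,0,
  ⟨9,[(6,9),(2,3),(0,3),(14,4),(5,0),(1,1)]⟩,⟨0,[(3,0)]⟩⟩,⟨true,0,⟨1,[(2,0),(24,0),(0,0)]⟩,⟨0,[(1,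
  0),(15,0),(7,0),(0,0)]⟩⟩,⟨false,0,⟨2,[(2,2),(3,3),(9,1),(8,0),(1,0),(3,0)]⟩,⟨0,[(1,0),(12,0)]⟩⟩,
  ⟨false,0,⟨0,[]⟩,⟨0,[]⟩⟩,⟨false,0,⟨0,[]⟩,⟨0,[]⟩⟩,[.e ⟨false,0,⟨0,[]⟩,⟨1,[(9,0),(0,0),(19,0)]⟩⟩
  ⟨false,0,⟨19,[(6,9),(2,3),(0,3),(4,19),(9,14),(5,10),(1,1)]⟩,⟨5,[(0,3),(0,5),(0,1),(0,0),(21,0),
  (0,2)]⟩⟩,.a ⟨true,0,⟨3,[(2,1),(3,1),(18,0),(1,1),(1,1),(1,0)]⟩,⟨0,[(14,0)]⟩⟩ ⟨true,0,⟨0,[(27,0)]⟩,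
  ⟨0,[(33,0)]⟩⟩ ⟨false,0,⟨7,[(2,1),(3,5),(8,3),(9,4),(1,1),(1,1),(1,4)]⟩,⟨5,[(0,1),(0,1),(1,2),(10,
  1),(6,0),(4,2)]⟩⟩,.e ⟨false,0,⟨0,[(27,0)]⟩,⟨1,[(9,0),(0,0),(19,0)]⟩⟩ ⟨false,0,⟨2,[(6,1),(8,2),(0,
  0),(8,1),(1,1),(3,1)]⟩,⟨5,[(0,3),(0,5),(0,1),(0,0),(21,0),(0,2)]⟩⟩,.o ⟨false,1,⟨2,[(3,0),(12,0),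
  (4,1)]⟩,⟨19,[(6,9),(2,3),(0,3),(14,4),(5,0),(1,1)]⟩⟩]⟩))) (.I [1,-1,1,0,0,0,0,-1] (.Q [0,1,0,-1,
  -1,0,-1,-1,0,2,-1] (.p false [-1,1,1] [1] (⟨0,[(6,0)]⟩,⟨0,[(17,0),(3,0)]⟩) .k 1 (⟨0,[]⟩,⟨0,[]⟩)
  .k .k) (.I [0,0,-1,0,1,-1,2] (.I [0,0,-2,-2,1,0,0,-1] (.K ⟨0,[2,-1,-1],(-1),(-1),(⟨0,[(20,0),(3,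
  0)]⟩,⟨0,[(9,0)]⟩),.k,(.r (-1) ⟨0,[(0,0)]⟩ ⟨3,[(4,1),(13,2),(0,2),(11,5)]⟩),.k,(.x 0 ⟨1,[(8,1),(0,
  1),(8,0),(0,0),(1,1)]⟩ ⟨0,[(1,0)]⟩),.k,[⟨0,[(5,0)]⟩,⟨0,[(2,0),(0,0),(0,0)]⟩,⟨5,[(4,2),(0,1),(12,
  1),(4,3),(4,2),(2,2)]⟩,⟨0,[(2,0)]⟩]⟩) (.R ⟨2,true,false,true,[0,1],[0,0,1],[1,0,1],(⟨0,[]⟩,⟨0,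
  []⟩),(⟨0,[(21,0)]⟩,⟨0,[(20,0)]⟩),⟨0,[]⟩,.k,.k,.k,.k,.k,.k,⟨true,0,⟨0,[(3,0)]⟩,⟨2,[(0,0),(3,0),(0,
  0),(9,1),(14,2)]⟩⟩,⟨false,0,⟨0,[(6,0)]⟩,⟨3,[(8,1),(2,0),(0,0),(10,0),(8,1)]⟩⟩,⟨false,1,⟨3,[(7,1),
  (3,0),(0,0),(10,0),(9,1)]⟩,⟨0,[(31,0)]⟩⟩,⟨true,0,⟨0,[(0,0),(4,0),(1,0),(7,0),(14,0)]⟩,⟨0,[(0,0),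
  (1,0),(0,0),(1,0),(9,1),(7,0)]⟩⟩,⟨true,0,⟨0,[]⟩,⟨0,[(35,0)]⟩⟩,⟨false,0,⟨0,[(0,0),(4,0),(1,0),(7,
  0)]⟩,⟨0,[(17,0),(15,0)]⟩⟩,[]⟩)) (.I [1,-1,0,0,0,0,0,-1] (.R ⟨0,false,false,true,[1,0,-1],[0,0,1],
  [0,1,1,0,0,0,0,1],(⟨0,[(20,0)]⟩,⟨0,[(21,0)]⟩),(⟨0,[(21,0)]⟩,⟨0,[(20,0)]⟩),⟨0,[(9,0)]⟩,.k,.k,.k,.k,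
  .k,.k,⟨true,0,⟨1,[(18,0),(0,0)]⟩,⟨0,[]⟩⟩,⟨false,1,⟨5,[(5,3),(12,3),(8,0),(4,2)]⟩,⟨0,[(8,0)]⟩⟩,
  ⟨true,0,⟨0,[(4,0),(25,0)]⟩,⟨0,[(0,1),(27,0)]⟩⟩,⟨false,1,⟨2,[(4,1),(0,1),(1,0),(8,1),(16,0)]⟩,⟨1,
  [(0,1),(2,0),(4,0),(6,0),(1,0)]⟩⟩,⟨false,0,⟨0,[]⟩,⟨0,[]⟩⟩,⟨false,0,⟨0,[]⟩,⟨0,[]⟩⟩,[.a ⟨true,0,⟨0,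
  [(16,0)]⟩,⟨0,[(3,0),(11,0)]⟩⟩ ⟨true,0,⟨3,[(4,1),(13,0),(0,0),(10,1),(4,1)]⟩,⟨0,[(0,0)]⟩⟩ ⟨false,1,
  ⟨3,[(5,1),(5,0),(0,0),(3,3),(15,0)]⟩,⟨0,[(0,0),(7,0)]⟩⟩,.o ⟨false,1,⟨1,[(16,1),(6,0),(9,0)]⟩,⟨1,
  [(0,1),(0,0),(18,1),(1,0),(0,0),(4,0)]⟩⟩,.e ⟨false,0,⟨1,[(4,0),(24,0),(0,0)]⟩,⟨0,[(3,0),(28,0)]⟩⟩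
  ⟨false,1,⟨5,[(5,1),(10,5),(1,1),(4,0),(9,2)]⟩,⟨0,[(0,0),(7,0)]⟩⟩,.o ⟨false,0,⟨0,[(19,0)]⟩,⟨3,[(5,
  1),(5,0),(0,0),(19,0)]⟩⟩]⟩) (.Q [0,0,0,0,0,0,1,1,0,0,1] (.p true [0,0,1] [] (⟨0,[(21,0)]⟩,⟨0,[(20,
  0)]⟩) .k 0 (⟨0,[]⟩,⟨0,[]⟩) .k .k) (.Q [0,-1,0,-1,0,0,0,0,0,1] (.pp false [-1,1]) (.K ⟨0,[2,-1,-1],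
  (-1),(-1),(⟨0,[(22,0),(3,0)]⟩,⟨0,[(11,0)]⟩),.k,(.r (-1) ⟨0,[(0,0),(3,0),(2,0),(9,0),(7,0)]⟩ ⟨3,
  [(6,1),(13,2),(0,2),(11,5)]⟩),.k,(.r (-1) ⟨10,[(4,2),(0,10),(1,4),(1,3),(9,7),(0,0),(13,8)]⟩ ⟨0,
  [(1,1),(1,0),(18,1),(1,0),(0,0),(7,0)]⟩),.k,[⟨0,[(7,0)]⟩,⟨0,[(4,0),(0,0),(0,0)]⟩,⟨5,[(6,2),(0,1),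
  (12,1),(4,3),(4,2),(2,2)]⟩,⟨0,[(4,0)]⟩]⟩) (.R ⟨2,true,false,true,[0,1],[0,0,1],[1,0,1],(⟨0,[]⟩,⟨0,
  []⟩),(⟨0,[(23,0)]⟩,⟨0,[(22,0)]⟩),⟨0,[]⟩,.k,.k,.k,.k,.k,.k,⟨true,0,⟨0,[(5,0)]⟩,⟨0,[(2,0)]⟩⟩,⟨false,
  0,⟨0,[(8,0)]⟩,⟨3,[(10,1),(2,0),(0,0),(10,0),(8,1)]⟩⟩,⟨false,1,⟨3,[(9,1),(3,0),(0,0),(10,0),(9,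
  1)]⟩,⟨0,[(33,0)]⟩⟩,⟨true,0,⟨0,[(1,0),(30,0)]⟩,⟨0,[(0,0),(4,0),(11,0)]⟩⟩,⟨true,0,⟨0,[]⟩,⟨0,[(37,
  0)]⟩⟩,⟨false,0,⟨0,[(1,0)]⟩,⟨0,[(19,0),(15,0)]⟩⟩,[]⟩)) (.S ⟨1,0,[0,0,0,0,0,0,0,1],[0,0,1],[0,1,0,0,
  0,0,0,1],(⟨0,[(22,0)]⟩,⟨0,[(21,0)]⟩),⟨0,[(11,0)]⟩,.k,.k,⟨true,0,⟨0,[(36,0)]⟩,⟨0,[]⟩⟩,⟨false,1,⟨1,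
  [(12,0),(0,0),(20,0)]⟩,⟨0,[]⟩⟩,⟨false,0,⟨0,[(32,0)]⟩,⟨3,[(8,1),(3,0),(0,0),(10,0),(9,1)]⟩⟩,⟨true,
  0,⟨0,[(32,0)]⟩,⟨0,[(31,0)]⟩⟩,[.o ⟨false,1,⟨1,[(17,1),(6,0),(9,0)]⟩,⟨0,[(0,0)]⟩⟩,.o ⟨false,1,⟨7,
  [(5,3),(0,5),(1,1),(7,3),(7,0),(5,5),(3,0)]⟩,⟨0,[(18,0)]⟩⟩,.a ⟨true,0,⟨0,[(7,0)]⟩,⟨19,[(9,9),(2,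
  3),(0,3),(14,4),(5,0),(1,1)]⟩⟩ ⟨true,0,⟨0,[(1,0)]⟩,⟨2,[(0,0),(2,0),(0,0),(1,0),(25,0)]⟩⟩ ⟨false,1,
  ⟨0,[(1,0),(32,0)]⟩,⟨2,[(0,0),(2,0),(0,0),(1,0),(25,0)]⟩⟩,.e ⟨false,1,⟨1,[(1,1),(31,0),(0,0)]⟩,⟨0,
  [(4,0)]⟩⟩ ⟨false,1,⟨7,[(5,3),(0,5),(1,1),(7,11),(7,0),(5,5),(3,0)]⟩,⟨1,[(4,0),(13,0),(0,
  0)]⟩⟩]⟩)))) (.Q [0,-1,0,0,1,0,2,2,0,-2,2] (.p true [0,0,1] [2,-1,-1] (⟨0,[(19,0)]⟩,⟨0,[(18,0)]⟩)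
  .k 2 (⟨0,[(18,0),(3,0)]⟩,⟨0,[(7,0)]⟩) .k (.x (-1) ⟨2,[(3,1),(12,1),(1,5),(2,0)]⟩ ⟨0,[(6,0),(0,0),
  (0,0)]⟩)) (.I [1,1,-1] (.R ⟨0,false,false,true,[1,0,-1],[2,-1,-1],[0,1,0,-1,0,0,0,-1],(⟨0,[(20,
  0)]⟩,⟨0,[(21,0)]⟩),(⟨0,[(20,0),(3,0)]⟩,⟨0,[(9,0)]⟩),⟨0,[(9,0)]⟩,.k,.k,.k,.k,.k,.k,⟨true,0,⟨1,[(18,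
  0),(0,0)]⟩,⟨0,[]⟩⟩,⟨false,0,⟨9,[(11,3),(0,3),(14,4),(5,0),(1,1)]⟩,⟨1,[(23,0),(8,0)]⟩⟩,⟨true,0,⟨0,
  [(30,0)]⟩,⟨0,[(31,0)]⟩⟩,⟨false,0,⟨19,[(7,9),(3,3),(0,3),(14,4),(5,0),(1,1)]⟩,⟨1,[(23,0),(7,1),(1,
  0)]⟩⟩,⟨false,0,⟨0,[]⟩,⟨0,[]⟩⟩,⟨false,0,⟨0,[]⟩,⟨0,[]⟩⟩,[.o ⟨false,0,⟨19,[(7,9),(3,3),(0,3),(4,19),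
  (9,4),(5,0),(1,1)]⟩,⟨0,[(2,0)]⟩⟩,.o ⟨false,0,⟨1,[(3,0),(3,0),(7,0),(1,0)]⟩,⟨7,[(2,5),(1,0),(13,1),
  (4,1),(4,2),(2,0)]⟩⟩,.a ⟨true,0,⟨19,[(8,9),(2,3),(0,3),(14,4),(5,0),(1,1)]⟩,⟨0,[(6,0)]⟩⟩ ⟨true,0,
  ⟨0,[(0,0),(2,0),(26,0)]⟩,⟨0,[(0,0),(1,0),(16,0),(7,0)]⟩⟩ ⟨false,0,⟨3,[(3,3),(3,1),(19,0),(0,1),(3,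
  0)]⟩,⟨7,[(2,3),(1,1),(3,1),(14,0),(7,1),(0,0),(0,1)]⟩⟩,.o ⟨false,0,⟨0,[(19,0)]⟩,⟨3,[(5,1),(5,0),
  (0,0),(19,0)]⟩⟩]⟩) (.I [1,0,0,0,0,0,0,1] (.R ⟨0,false,false,false,[1,0,-1],[-1,1,1],[1],(⟨0,[(21,
  0)]⟩,⟨0,[(22,0)]⟩),(⟨0,[(10,0)]⟩,⟨0,[(21,0),(3,0)]⟩),⟨0,[(10,0)]⟩,.k,.k,.k,(.r (-1) ⟨3,[(4,3),(1,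
  1),(1,1),(9,3),(9,0),(4,2)]⟩ ⟨0,[(0,1),(0,0),(30,0),(3,0)]⟩),.k,.k,⟨false,1,⟨1,[(4,0),(1,1),(1,0),
  (7,2),(1,0)]⟩,⟨3,[(5,1),(13,0),(0,0),(11,1)]⟩⟩,⟨true,1,⟨0,[(6,0)]⟩,⟨0,[(0,0),(0,0),(16,0),(1,0),
  (7,0)]⟩⟩,⟨true,0,⟨0,[(0,0)]⟩,⟨0,[(4,0),(24,0)]⟩⟩,⟨false,1,⟨0,[(2,0),(29,0)]⟩,⟨1,[(4,0),(3,0),(7,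
  0),(1,2),(9,0),(5,0)]⟩⟩,⟨false,0,⟨0,[]⟩,⟨0,[]⟩⟩,⟨false,0,⟨0,[]⟩,⟨0,[]⟩⟩,[.o ⟨false,1,⟨7,[(3,5),(1,
  0),(13,1),(4,1),(4,2),(2,0)]⟩,⟨1,[(4,0),(3,0),(7,0),(1,0)]⟩⟩,.o ⟨false,1,⟨0,[(3,0)]⟩,⟨19,[(8,9),
  (3,3),(0,3),(4,19),(9,4),(5,0),(1,1)]⟩⟩,.a ⟨true,0,⟨19,[(9,9),(2,3),(0,3),(14,4),(5,0),(1,1)]⟩,⟨0,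
  [(7,0)]⟩⟩ ⟨true,0,⟨0,[]⟩,⟨0,[(36,0)]⟩⟩ ⟨false,1,⟨0,[(3,0),(3,0)]⟩,⟨1,[(8,0),(0,0),(8,1),(9,0),(5,
  0)]⟩⟩,.o ⟨false,0,⟨0,[(20,0)]⟩,⟨3,[(6,1),(5,0),(0,0),(19,0)]⟩⟩]⟩) (.I [0,1,0,0,0,0,0,1] (.R ⟨0,
  false,false,true,[1,0,-1],[2,-1,-1],[1,0,0,0,0,0,0,-1],(⟨0,[(22,0)]⟩,⟨0,[(23,0)]⟩),(⟨0,[(22,0),(3,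
  0)]⟩,⟨0,[(11,0)]⟩),⟨0,[(11,0)]⟩,.k,.k,.k,.k,.k,.k,⟨true,0,⟨0,[(2,0),(30,0)]⟩,⟨0,[(32,0)]⟩⟩,⟨false,
  0,⟨9,[(13,3),(0,3),(14,4),(5,0),(1,1)]⟩,⟨1,[(25,0),(8,0)]⟩⟩,⟨true,0,⟨0,[]⟩,⟨0,[(37,0)]⟩⟩,⟨false,0,
  ⟨19,[(9,9),(3,3),(0,3),(14,4),(5,0),(1,1)]⟩,⟨1,[(25,0),(7,1),(1,0)]⟩⟩,⟨false,0,⟨0,[]⟩,⟨0,[]⟩⟩,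
  ⟨false,0,⟨0,[]⟩,⟨0,[]⟩⟩,[.o ⟨false,0,⟨19,[(9,9),(3,3),(0,3),(4,19),(9,4),(5,0),(1,1)]⟩,⟨0,[(4,
  0)]⟩⟩,.o ⟨false,0,⟨1,[(5,0),(3,0),(7,0),(1,0)]⟩,⟨7,[(4,5),(1,0),(13,1),(4,1),(4,2),(2,0)]⟩⟩,.a
  ⟨true,0,⟨19,[(10,9),(2,3),(0,3),(14,4),(5,0),(1,1)]⟩,⟨0,[(8,0)]⟩⟩ ⟨true,0,⟨0,[(1,0)]⟩,⟨0,[(0,
  0)]⟩⟩ ⟨false,0,⟨3,[(1,1),(3,0),(3,1),(9,0),(0,0),(8,0),(4,0)]⟩,⟨7,[(4,3),(1,1),(3,1),(14,0),(7,1),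
  (0,0),(0,1)]⟩⟩,.o ⟨false,0,⟨0,[(21,0)]⟩,⟨3,[(7,1),(5,0),(0,0),(19,0)]⟩⟩]⟩) (.R ⟨0,false,false,
  false,[-1,1,1],[1,0,-1],[1,0,1],(⟨0,[(11,0)]⟩,⟨0,[(22,0),(3,0)]⟩),(⟨0,[(22,0)]⟩,⟨0,[(23,0)]⟩),⟨0,
  [(22,0)]⟩,.k,.k,.k,(.x (-1) ⟨2,[(0,1),(2,0),(3,1),(14,5),(1,2),(5,0),(6,0)]⟩ ⟨1,[(10,1),(0,1),(8,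
  0),(0,0),(1,1)]⟩),.k,.k,⟨true,0,⟨1,[(2,0),(3,0),(25,0)]⟩,⟨0,[(1,0)]⟩⟩,⟨false,0,⟨9,[(10,9),(2,3),
  (0,3),(14,4),(5,0),(1,1)]⟩,⟨0,[(7,0)]⟩⟩,⟨true,0,⟨0,[(0,0),(31,0)]⟩,⟨1,[(6,0),(23,0),(2,0)]⟩⟩,
  ⟨false,0,⟨1,[(5,2),(3,0),(7,2),(1,0)]⟩,⟨0,[(6,0),(0,0)]⟩⟩,⟨false,0,⟨0,[]⟩,⟨0,[]⟩⟩,⟨false,0,⟨0,[]⟩,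
  ⟨0,[]⟩⟩,[.e ⟨false,0,⟨0,[]⟩,⟨1,[(13,0),(0,0),(19,0)]⟩⟩ ⟨false,0,⟨19,[(10,9),(2,3),(0,3),(4,19),(9,
  14),(5,10),(1,1)]⟩,⟨0,[(0,0),(2,0),(26,0)]⟩⟩,.a ⟨true,0,⟨0,[(5,0),(11,0)]⟩,⟨0,[(18,0)]⟩⟩ ⟨true,0,
  ⟨0,[(31,0)]⟩,⟨0,[(37,0)]⟩⟩ ⟨false,0,⟨1,[(5,0),(4,0),(6,0),(1,0),(9,0),(5,0)]⟩,⟨5,[(3,1),(3,2),(10,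
  1),(6,0),(4,2)]⟩⟩,.e ⟨false,0,⟨0,[(31,0)]⟩,⟨1,[(13,0),(0,0),(19,0)]⟩⟩ ⟨false,0,⟨1,[(5,0),(4,1),(8,
  0),(0,0),(8,0),(5,0)]⟩,⟨0,[(0,0),(2,0),(26,0)]⟩⟩,.o ⟨false,1,⟨2,[(7,0),(12,0),(4,1)]⟩,⟨19,[(10,9),
  (2,3),(0,3),(14,4),(5,0),(1,1)]⟩⟩]⟩)))) (.R ⟨2,false,false,true,[0,1],[0,0,1],[0,1],(⟨0,[]⟩,⟨0,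
  []⟩),(⟨0,[(20,0)]⟩,⟨0,[(19,0)]⟩),⟨0,[]⟩,.k,.k,.k,.k,.k,.k,⟨true,0,⟨2,[(0,0),(1,0),(1,0)]⟩,⟨1,[(3,
  0),(24,0),(0,0)]⟩⟩,⟨false,0,⟨0,[(5,0)]⟩,⟨3,[(7,1),(2,0),(0,0),(10,0),(8,1)]⟩⟩,⟨false,1,⟨3,[(6,1),
  (3,0),(0,0),(10,0),(8,1)]⟩,⟨0,[(28,0),(1,0)]⟩⟩,⟨true,0,⟨0,[(1,0),(24,0),(2,1)]⟩,⟨0,[(0,0),(0,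
  0)]⟩⟩,⟨false,1,⟨1,[(10,0),(0,0),(19,0)]⟩,⟨0,[(28,0)]⟩⟩,⟨false,0,⟨0,[(1,0),(24,0),(2,0)]⟩,⟨0,[(16,
  0),(15,0)]⟩⟩,[.a ⟨true,0,⟨0,[(15,0)]⟩,⟨0,[(2,0),(11,0)]⟩⟩ ⟨true,0,⟨0,[(34,0)]⟩,⟨0,[(28,0)]⟩⟩
  ⟨false,0,⟨0,[(15,0)]⟩,⟨5,[(0,1),(1,1),(1,1),(9,5),(7,2),(9,2)]⟩⟩,.e ⟨false,1,⟨1,[(10,0),(0,0),(19,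
  0)]⟩,⟨0,[]⟩⟩ ⟨false,0,⟨0,[(1,0),(24,0),(2,0)]⟩,⟨1,[(16,1),(14,0),(0,0)]⟩⟩,.o ⟨false,1,⟨1,[(22,0),
  (8,0)]⟩,⟨1,[(17,0),(0,0)]⟩⟩,.fo]⟩))) (.S ⟨1,0,[0,0,0,0,0,0,0,1],[0,0,1],[0,1,0,0,0,0,0,1],(⟨0,
  [(18,0)]⟩,⟨0,[(17,0)]⟩),⟨0,[(7,0)]⟩,.k,.k,⟨true,0,⟨0,[(32,0)]⟩,⟨0,[]⟩⟩,⟨false,1,⟨1,[(8,0),(0,0),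
  (20,0)]⟩,⟨0,[]⟩⟩,⟨false,0,⟨0,[(28,0)]⟩,⟨3,[(4,1),(3,0),(0,0),(10,0),(9,1)]⟩⟩,⟨true,0,⟨0,[(28,0)]⟩,
  ⟨0,[(27,0)]⟩⟩,[.a ⟨true,0,⟨2,[(0,1),(1,0),(10,0),(10,0),(1,2)]⟩,⟨1,[(14,1),(9,0),(5,0)]⟩⟩ ⟨false,
  0,⟨0,[(0,0)]⟩,⟨2,[(2,0),(11,2),(0,0),(8,0),(5,2)]⟩⟩ ⟨true,0,⟨0,[(0,0),(25,0)]⟩,⟨2,[(2,0),(11,2),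
  (0,0),(8,0),(1,2)]⟩⟩,.o ⟨false,1,⟨11,[(0,3),(0,3),(0,5),(1,1),(15,0),(5,5),(3,4)]⟩,⟨0,[(14,0)]⟩⟩,
  .a ⟨true,0,⟨0,[(3,0)]⟩,⟨19,[(5,9),(2,3),(0,3),(14,4),(5,0),(1,1)]⟩⟩ ⟨false,0,⟨0,[(0,0),(25,0)]⟩,
  ⟨2,[(2,0),(11,2),(0,0),(8,0),(5,2)]⟩⟩ ⟨true,0,⟨0,[(0,0),(25,0)]⟩,⟨2,[(2,0),(11,2),(0,0),(8,0)]⟩⟩,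
  .a ⟨true,0,⟨0,[(15,0)]⟩,⟨0,[(12,0)]⟩⟩ ⟨true,0,⟨0,[(0,0)]⟩,⟨2,[(2,0),(11,2),(0,0),(8,0),(1,2)]⟩⟩
  ⟨false,1,⟨0,[(0,0),(29,0)]⟩,⟨2,[(2,0),(11,2),(0,0),(8,0),(1,2)]⟩⟩]⟩))) (.I [1,-1,1,0,0,0,0,-1]
  (.I [0,0,1,1,-1,0,0,-2] (.I [0,0,-1,-1,1,0,0,1] (.I [0,0,1,2,-1,0,0,-1] (.I [1,-1,0,0,0,0,0,-1]
  (.S ⟨1,0,[0,1,0,0,0,0,0,1],[0,0,1],[1,0,0,-1,0,0,0,1],(⟨0,[(21,0)]⟩,⟨0,[(20,0)]⟩),⟨0,[(10,0)]⟩,.k,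
  .k,⟨false,1,⟨3,[(7,1),(3,0),(0,0),(10,0),(9,1)]⟩,⟨0,[(31,0)]⟩⟩,⟨true,0,⟨0,[(35,0)]⟩,⟨0,[]⟩⟩,⟨true,
  0,⟨0,[]⟩,⟨0,[(35,0)]⟩⟩,⟨false,0,⟨0,[(31,0)]⟩,⟨3,[(7,1),(3,0),(0,0),(10,0),(9,1)]⟩⟩,[.e ⟨false,1,
  ⟨0,[(2,0)]⟩,⟨2,[(1,0),(1,0),(7,0),(0,0),(19,0)]⟩⟩ ⟨false,1,⟨3,[(8,1),(2,0),(0,0),(3,3),(6,0),(8,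
  1)]⟩,⟨0,[(0,0)]⟩⟩,.o ⟨false,1,⟨1,[(16,1),(6,0),(9,0)]⟩,⟨2,[(0,0),(2,0),(4,0),(6,0),(7,0),(6,0)]⟩⟩,
  .e ⟨false,1,⟨0,[(2,0),(26,0)]⟩,⟨2,[(1,0),(1,0),(7,0),(0,0),(19,0)]⟩⟩ ⟨false,1,⟨3,[(8,1),(2,0),(0,
  0),(3,3),(6,0),(9,1)]⟩,⟨0,[(0,0)]⟩⟩,.a ⟨true,0,⟨0,[(18,0)]⟩,⟨0,[(15,0)]⟩⟩ ⟨true,1,⟨0,[(2,0)]⟩,⟨0,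
  [(1,0),(28,0)]⟩⟩ ⟨false,1,⟨0,[(2,0),(28,0)]⟩,⟨0,[(4,0)]⟩⟩]⟩) (.S ⟨1,0,[0,1,0,0,0,0,0,1],[0,0,1],
  [1,0,0,-1,0,0,0,1],(⟨0,[(21,0)]⟩,⟨0,[(20,0)]⟩),⟨0,[(10,0)]⟩,.k,.k,⟨false,1,⟨3,[(7,1),(3,0),(0,0),
  (10,0),(9,1)]⟩,⟨0,[(31,0)]⟩⟩,⟨true,0,⟨0,[(35,0)]⟩,⟨0,[]⟩⟩,⟨true,0,⟨0,[]⟩,⟨0,[(35,0)]⟩⟩,⟨false,0,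
  ⟨0,[(31,0)]⟩,⟨3,[(7,1),(3,0),(0,0),(10,0),(9,1)]⟩⟩,[.a ⟨true,0,⟨0,[(16,0)]⟩,⟨3,[(3,1),(3,0),(0,0),
  (6,1),(17,1)]⟩⟩ ⟨false,1,⟨0,[(2,0)]⟩,⟨2,[(1,0),(1,0),(7,0),(0,0),(19,0)]⟩⟩ ⟨true,0,⟨0,[(0,0)]⟩,⟨0,
  [(4,0)]⟩⟩,.o ⟨false,1,⟨1,[(16,1),(6,0),(9,0)]⟩,⟨3,[(3,1),(3,0),(0,0),(6,1),(7,1)]⟩⟩,.a ⟨true,0,⟨0,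
  [(6,0)]⟩,⟨3,[(5,1),(5,0),(0,0),(19,0)]⟩⟩ ⟨false,1,⟨0,[(2,0),(26,0)]⟩,⟨2,[(1,0),(1,0),(7,0),(0,0),
  (19,0)]⟩⟩ ⟨true,0,⟨0,[(0,0)]⟩,⟨9,[(3,3),(0,0),(2,1),(9,0),(0,0),(4,0),(8,2)]⟩⟩,.a ⟨true,0,⟨0,[(18,
  0)]⟩,⟨0,[(15,0)]⟩⟩ ⟨true,1,⟨0,[(2,0)]⟩,⟨0,[(0,0),(2,0)]⟩⟩ ⟨false,1,⟨1,[(0,1),(31,0),(0,0)]⟩,⟨0,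
  [(4,0)]⟩⟩]⟩)) (.I [1,-1,0,0,0,0,0,-1] (.I [1,1,0,1,0,0,0,1] (.Q [0,-1,0,1,0,0,-1,-1,0,0,-1] (.p
  false [0,0,1] [] (⟨0,[(22,0)]⟩,⟨0,[(21,0)]⟩) .k 0 (⟨0,[]⟩,⟨0,[]⟩) .k .k) (.Q [0,0,0,0,0,-2,0,0,0,
  0,1] (.p true [0,0,1] [] (⟨0,[(23,0)]⟩,⟨0,[(22,0)]⟩) .k 0 (⟨0,[]⟩,⟨0,[]⟩) .k .k) (.S ⟨1,0,[0,1,-1,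
  -1,0,0,0,1],[0,-1,1],[1,0,-1,-2,0,0,0,1],(⟨0,[(13,0)]⟩,⟨0,[(23,0),(4,0)]⟩),⟨0,[(0,0)]⟩,.k,(.r
  (-2) ⟨1,[(4,1),(9,0),(0,0),(19,0)]⟩ ⟨0,[(2,0),(3,0),(25,0)]⟩),⟨false,1,⟨7,[(4,1),(5,1),(9,1),(0,
  1),(4,0),(9,4)]⟩,⟨0,[(34,0)]⟩⟩,⟨true,0,⟨0,[(38,0)]⟩,⟨0,[]⟩⟩,⟨true,0,⟨0,[]⟩,⟨0,[(38,0)]⟩⟩,⟨false,0,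
  ⟨0,[(34,0)]⟩,⟨7,[(4,1),(5,1),(9,1),(0,1),(4,0),(9,4)]⟩⟩,[.o ⟨false,1,⟨1,[(4,0),(14,0),(1,0),(4,0),
  (11,0)]⟩,⟨0,[(1,0)]⟩⟩,.o ⟨false,1,⟨1,[(4,0),(4,0),(9,0),(6,0),(5,0)]⟩,⟨1,[(1,0),(18,0),(13,0)]⟩⟩,
  .a ⟨true,0,⟨0,[(21,0)]⟩,⟨0,[(18,0)]⟩⟩ ⟨true,1,⟨0,[(4,0)]⟩,⟨0,[(2,0),(3,0)]⟩⟩ ⟨false,1,⟨0,[(5,0)]⟩,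
  ⟨0,[(1,0),(19,0)]⟩⟩,.o ⟨false,0,⟨1,[(6,0),(12,1),(6,0),(5,2),(0,0)]⟩,⟨1,[(18,1),(7,0),(8,0)]⟩⟩]⟩)
  (.I [0,0,0,0,1,0,0,0,-1] (.I [0,0,0,0,0,2,1] (.C [(0,0),(13,0),(5,0),(6,2),(11,0)]) (.C [(0,0),(1,
  0),(8,0)])) (.C [(0,0),(14,0),(2,0)]))) (.R ⟨0,false,false,true,[1,0,-1],[1,-1],[],(⟨0,[(22,0)]⟩,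
  ⟨0,[(23,0)]⟩),(⟨0,[(26,0)]⟩,⟨0,[(27,0)]⟩),⟨0,[(11,0)]⟩,.k,.k,.k,.k,.k,.k,⟨true,0,⟨0,[(31,0),(1,
  0)]⟩,⟨0,[(32,0)]⟩⟩,⟨false,0,⟨0,[(8,0)]⟩,⟨3,[(10,1),(2,0),(0,0),(10,0),(8,1)]⟩⟩,⟨false,1,⟨2,[(1,1),
  (1,0),(27,0),(3,1)]⟩,⟨9,[(5,3),(0,0),(2,1),(9,0),(0,0),(4,0),(8,2)]⟩⟩,⟨true,0,⟨0,[(0,0)]⟩,⟨3,[(5,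
  1),(4,1),(14,0),(7,1),(0,0)]⟩⟩,⟨false,0,⟨0,[]⟩,⟨0,[]⟩⟩,⟨false,0,⟨0,[]⟩,⟨0,[]⟩⟩,[.o ⟨false,0,⟨0,
  [(32,0)]⟩,⟨1,[(25,0),(7,1),(1,0)]⟩⟩,.a ⟨true,0,⟨19,[(7,1),(1,9),(3,1),(0,1),(5,3),(8,2),(4,2)]⟩,
  ⟨0,[(33,0)]⟩⟩ ⟨false,1,⟨1,[(34,0),(0,0)]⟩,⟨0,[(37,0)]⟩⟩ ⟨true,0,⟨0,[(0,0),(1,0)]⟩,⟨0,[(21,0),(11,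
  0)]⟩⟩,.e ⟨false,1,⟨1,[(13,0),(0,0),(20,0)]⟩,⟨0,[]⟩⟩ ⟨false,0,⟨0,[(0,0),(1,0)]⟩,⟨5,[(1,1),(8,1),(8,
  1),(5,0),(7,3),(1,4)]⟩⟩,.o ⟨false,0,⟨0,[(21,0)]⟩,⟨1,[(8,1),(16,0),(8,0)]⟩⟩]⟩)) (.I [0,0,-1,-1,0,0,
  0,-1] (.R ⟨0,false,false,false,[-1,1,1],[1,0,-1],[1,0,1,1,0,0,0,1],(⟨0,[(11,0)]⟩,⟨0,[(22,0),(3,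
  0)]⟩),(⟨0,[(22,0)]⟩,⟨0,[(23,0)]⟩),⟨0,[(22,0)]⟩,.k,.k,.k,(.r (-1) ⟨0,[(7,0),(10,1),(6,0),(7,0),(1,
  0)]⟩ ⟨4,[(0,5),(4,0),(0,0),(12,0),(0,0),(13,0)]⟩),.k,.k,⟨false,1,⟨0,[(17,1),(0,1),(6,0),(5,1),(1,
  0)]⟩,⟨4,[(0,5),(4,0),(0,0),(12,0),(0,0),(13,0)]⟩⟩,⟨true,(-1),⟨0,[(7,0)]⟩,⟨0,[(8,1),(16,0)]⟩⟩,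
  ⟨true,0,⟨0,[]⟩,⟨0,[(37,0)]⟩⟩,⟨false,(-1),⟨0,[(0,0),(1,0),(4,0)]⟩,⟨0,[(18,1),(6,0),(7,0),(1,0)]⟩⟩,
  ⟨false,0,⟨0,[]⟩,⟨0,[]⟩⟩,⟨false,0,⟨0,[]⟩,⟨0,[]⟩⟩,[.o ⟨false,0,⟨4,[(0,0),(1,0),(2,0),(4,1),(8,0),(5,
  0)]⟩,⟨1,[(18,1),(6,0),(9,0)]⟩⟩,.a ⟨true,0,⟨5,[(2,0),(2,1),(1,0),(1,0),(7,2),(1,0),(15,2)]⟩,⟨0,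
  [(18,0)]⟩⟩ ⟨false,1,⟨0,[(4,0),(26,0),(1,1)]⟩,⟨5,[(0,4),(18,0),(0,0),(9,1),(1,0)]⟩⟩ ⟨true,(-1),⟨0,
  [(2,0),(4,0)]⟩,⟨0,[(8,0),(9,0),(6,0)]⟩⟩,.e ⟨false,1,⟨0,[(18,0),(2,0),(11,0),(1,0)]⟩,⟨0,[(0,0)]⟩⟩
  ⟨false,(-1),⟨0,[(2,0),(4,0)]⟩,⟨1,[(8,1),(9,1),(6,1),(8,0),(0,0)]⟩⟩,.o ⟨false,1,⟨0,[(8,0),(16,0)]⟩,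
  ⟨3,[(7,1),(5,0),(0,0),(19,0)]⟩⟩]⟩) (.Q [0,0,2,0,-1,0,-1,0,0,1,-1] (.p false [0,0,1] [1] (⟨0,[(23,
  0)]⟩,⟨0,[(22,0)]⟩) .k 1 (⟨0,[]⟩,⟨0,[]⟩) .k .k) (.R ⟨1,false,false,true,[2,-1,-1],[1,-1],[0,0,-1,
  -1,0,0,0,-1],(⟨0,[(23,0),(3,0)]⟩,⟨0,[(12,0)]⟩),(⟨0,[(27,0)]⟩,⟨0,[(28,0)]⟩),⟨4,[(2,0),(2,0),(17,4),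
  (1,6),(1,2),(2,0),(3,1),(2,0),(0,0)]⟩,.k,.k,(.r (-1) ⟨0,[(2,0),(30,0),(1,0)]⟩ ⟨2,[(1,4),(4,0),(7,
  0),(0,0)]⟩),.k,.k,.k,⟨true,0,⟨0,[(2,0),(31,0)]⟩,⟨0,[(1,0),(31,0)]⟩⟩,⟨false,1,⟨1,[(9,1),(16,0),(8,
  0)]⟩,⟨3,[(8,1),(5,0),(0,0),(19,0)]⟩⟩,⟨false,1,⟨1,[(14,0),(0,0),(20,0)]⟩,⟨0,[]⟩⟩,⟨false,1,⟨1,[(19,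
  1),(6,0),(9,0)]⟩,⟨5,[(3,0),(2,1),(1,0),(1,0),(7,2),(1,0),(15,2)]⟩⟩,⟨true,0,⟨0,[(34,0)]⟩,⟨0,[(33,
  0)]⟩⟩,⟨false,1,⟨1,[(19,1),(6,0),(7,1),(1,0)]⟩,⟨1,[(3,1),(6,0),(0,0)]⟩⟩,[.o ⟨false,0,⟨0,[(33,0)]⟩,
  ⟨1,[(26,0),(7,1),(1,0)]⟩⟩,.a ⟨true,0,⟨19,[(8,1),(1,9),(3,1),(0,1),(5,3),(8,2),(4,2)]⟩,⟨0,[(34,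
  0)]⟩⟩ ⟨false,1,⟨0,[(2,0),(32,0)]⟩,⟨0,[(1,0),(36,0)]⟩⟩ ⟨true,1,⟨1,[(2,1),(16,1),(6,0),(8,0)]⟩,⟨2,
  [(0,0),(0,1),(4,0),(1,0)]⟩⟩,.e ⟨false,1,⟨5,[(2,1),(4,3),(2,1),(15,0),(8,4)]⟩,⟨0,[(1,0)]⟩⟩ ⟨false,
  1,⟨1,[(2,1),(16,1),(6,0),(8,0)]⟩,⟨5,[(1,1),(4,0),(1,2),(5,0),(0,0),(18,2),(1,2)]⟩⟩,.o ⟨false,(-1),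
  ⟨0,[(0,0)]⟩,⟨0,[(9,0),(16,0),(8,0)]⟩⟩]⟩) (.Q [0,-1,0,0,1,0,1,1,0,-1,1] (.p true [0,0,1] [1] (⟨0,
  [(24,0)]⟩,⟨0,[(23,0)]⟩) .k 1 (⟨0,[]⟩,⟨0,[]⟩) .k .k) (.R ⟨0,false,false,true,[-1,1,1],[1,0,-1],[0,
  1],(⟨0,[(13,0)]⟩,⟨0,[(24,0),(3,0)]⟩),(⟨0,[(24,0)]⟩,⟨0,[(25,0)]⟩),⟨0,[(24,0)]⟩,.k,.k,.k,(.r (-1)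
  ⟨1,[(2,2),(3,0),(8,0),(0,0)]⟩ ⟨2,[(3,3),(3,0),(24,1),(3,0)]⟩),.k,.k,⟨false,1,⟨1,[(2,0),(3,0),(29,
  0)]⟩,⟨13,[(1,1),(5,3),(0,2),(2,1),(9,2),(0,0),(13,1)]⟩⟩,⟨true,(-1),⟨0,[(9,0)]⟩,⟨0,[(10,1),(16,
  0)]⟩⟩,⟨true,0,⟨0,[(3,0),(28,0)]⟩,⟨0,[(2,0)]⟩⟩,⟨false,(-1),⟨4,[(3,4),(3,1),(1,2),(1,0),(7,2),(1,0),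
  (10,1)]⟩,⟨3,[(0,3),(0,1),(0,3),(19,1),(4,0),(8,0)]⟩⟩,⟨false,0,⟨0,[]⟩,⟨0,[]⟩⟩,⟨false,0,⟨0,[]⟩,⟨0,
  []⟩⟩,[.o ⟨false,0,⟨0,[(21,0)]⟩,⟨0,[(0,0)]⟩⟩,.o ⟨false,0,⟨3,[(3,0),(3,0),(4,0),(6,0),(1,0),(5,0)]⟩,
  ⟨3,[(0,1),(14,0),(0,0),(3,1),(6,0)]⟩⟩,.a ⟨true,1,⟨3,[(1,1),(20,1),(4,0),(8,0)]⟩,⟨4,[(9,2),(12,0),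
  (8,1),(6,0)]⟩⟩ ⟨true,0,⟨0,[(39,0)]⟩,⟨0,[]⟩⟩ ⟨false,(-1),⟨25,[(7,7),(1,19),(1,3),(7,1),(1,9),(9,2),
  (5,4)]⟩,⟨3,[(0,3),(0,1),(20,1),(4,0),(8,0)]⟩⟩,.o ⟨false,1,⟨0,[(10,0),(16,0)]⟩,⟨3,[(9,1),(5,0),(0,
  0),(19,0)]⟩⟩]⟩) (.R ⟨2,false,false,false,[0,1],[-1,1,1],[1,0,1,1,0,0,0,1],(⟨0,[]⟩,⟨0,[]⟩),(⟨0,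
  [(13,0)]⟩,⟨0,[(24,0),(3,0)]⟩),⟨0,[]⟩,.k,.k,.k,.k,.k,.k,⟨true,0,⟨0,[]⟩,⟨1,[(22,0),(0,0)]⟩⟩,⟨false,
  1,⟨3,[(1,1),(20,1),(4,0),(8,0)]⟩,⟨3,[(9,1),(5,0),(0,0),(19,0)]⟩⟩,⟨false,1,⟨1,[(2,0),(3,0),(30,
  0)]⟩,⟨13,[(1,1),(5,3),(0,2),(2,1),(9,2),(0,0),(13,1)]⟩⟩,⟨true,1,⟨1,[(20,1),(6,0),(9,0)]⟩,⟨0,[(0,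
  0)]⟩⟩,⟨false,1,⟨1,[(2,1),(33,0),(0,0)]⟩,⟨8,[(1,0),(1,4),(3,0),(3,0),(9,1),(0,0),(11,2)]⟩⟩,⟨false,
  1,⟨0,[(1,0),(0,0),(30,0)]⟩,⟨11,[(4,0),(2,1),(1,0),(1,6),(7,2),(1,6),(15,2)]⟩⟩,[.a ⟨true,1,⟨3,[(1,
  1),(0,3),(19,1),(4,0),(8,0)]⟩,⟨5,[(0,2),(2,1),(0,0),(4,0),(1,1),(7,0),(11,1)]⟩⟩ ⟨true,0,⟨0,[(2,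
  0)]⟩,⟨8,[(1,0),(1,4),(3,0),(3,0),(9,1),(0,0),(11,2)]⟩⟩ ⟨false,1,⟨3,[(1,1),(0,3),(19,1),(4,0),(8,
  0)]⟩,⟨3,[(0,0),(2,1),(7,0),(7,1),(1,0),(14,0)]⟩⟩,.e ⟨false,1,⟨1,[(2,1),(33,0),(0,0)]⟩,⟨0,[(3,0),
  (28,0)]⟩⟩ ⟨false,1,⟨0,[(1,0),(0,0),(30,0)]⟩,⟨1,[(0,0),(10,0),(9,0),(14,0)]⟩⟩,.o ⟨false,1,⟨1,[(27,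
  0),(8,0)]⟩,⟨1,[(22,0),(0,0)]⟩⟩,.fo]⟩))))) (.S ⟨1,0,[0,1,0,0,0,0,0,1],[0,0,1],[1,0,0,-1,0,0,0,1],
  (⟨0,[(21,0)]⟩,⟨0,[(20,0)]⟩),⟨0,[(10,0)]⟩,.k,.k,⟨false,1,⟨7,[(1,1),(5,1),(9,1),(0,1),(4,0),(9,4)]⟩,
  ⟨0,[(31,0)]⟩⟩,⟨true,0,⟨0,[(35,0)]⟩,⟨0,[]⟩⟩,⟨true,0,⟨0,[]⟩,⟨0,[(35,0)]⟩⟩,⟨false,0,⟨0,[(31,0)]⟩,⟨7,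
  [(1,1),(5,1),(9,1),(0,1),(4,0),(9,4)]⟩⟩,[.a ⟨true,0,⟨0,[(16,0)]⟩,⟨3,[(3,1),(3,0),(0,0),(6,1),(17,
  1)]⟩⟩ ⟨false,1,⟨0,[(2,0)]⟩,⟨3,[(3,1),(7,0),(0,0),(18,1),(0,0)]⟩⟩ ⟨true,0,⟨0,[(0,0)]⟩,⟨0,[(4,0)]⟩⟩,
  .o ⟨false,1,⟨1,[(16,1),(6,0),(9,0)]⟩,⟨2,[(1,0),(1,1),(4,0),(6,0),(7,0)]⟩⟩,.a ⟨true,0,⟨0,[(6,0)]⟩,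
  ⟨3,[(5,1),(5,0),(0,0),(19,0)]⟩⟩ ⟨false,1,⟨1,[(0,0),(0,0),(27,0),(3,0)]⟩,⟨3,[(3,1),(7,0),(0,0),(18,
  1),(0,0)]⟩⟩ ⟨true,0,⟨0,[(0,0)]⟩,⟨9,[(3,3),(0,0),(2,1),(9,0),(0,0),(4,0),(8,2)]⟩⟩,.a ⟨true,0,⟨0,
  [(18,0)]⟩,⟨0,[(15,0)]⟩⟩ ⟨true,1,⟨0,[(2,0)]⟩,⟨0,[(0,0),(2,0)]⟩⟩ ⟨false,1,⟨1,[(0,1),(31,0),(0,0)]⟩,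
  ⟨0,[(4,0)]⟩⟩]⟩))) (.R ⟨1,true,true,false,[1,1,-1],[],[0,1],(⟨0,[(18,0),(4,0)]⟩,⟨0,[(8,0)]⟩),(⟨0,
  []⟩,⟨0,[]⟩),⟨0,[(18,0)]⟩,.k,.k,.k,.k,.k,.k,⟨true,0,⟨0,[(33,0)]⟩,⟨0,[(27,0)]⟩⟩,⟨false,1,⟨1,[(16,1),
  (4,0),(8,0)]⟩,⟨0,[(13,0)]⟩⟩,⟨true,1,⟨1,[(5,0),(0,0),(7,1),(6,0),(8,0)]⟩,⟨0,[(0,0)]⟩⟩,⟨false,2,⟨3,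
  [(5,1),(3,0),(0,0),(3,3),(6,2),(9,3)]⟩,⟨0,[(0,0),(12,0)]⟩⟩,⟨false,1,⟨1,[(13,1),(0,1),(6,0),(9,
  0)]⟩,⟨0,[(2,0)]⟩⟩,⟨true,1,⟨1,[(14,1),(6,0),(9,0)]⟩,⟨0,[(0,0),(12,0),(14,0)]⟩⟩,[]⟩)) (.I [1,0,0,0,
  0,0,0,-1] (.I [1,-1,-1,-1,1,0,0,1] (.I [0,1,0,0,0,0,0,1] (.Q [0,0,0,1,0,0,-1,-1,0,0,-1] (.p false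
  [0,0,1] [] (⟨0,[(21,0)]⟩,⟨0,[(20,0)]⟩) .k 0 (⟨0,[]⟩,⟨0,[]⟩) .k .k) (.S ⟨1,0,[0,1,1,1,0,0,0,-1],[1,
  1,-1],[1,0,1,0,0,0,0,-1],(⟨0,[(21,0),(4,0)]⟩,⟨0,[(11,0)]⟩),⟨0,[(21,0)]⟩,.k,.k,⟨false,1,⟨3,[(8,1),
  (3,0),(0,0),(10,0),(9,1)]⟩,⟨0,[(32,0)]⟩⟩,⟨true,0,⟨0,[(36,0)]⟩,⟨0,[]⟩⟩,⟨true,0,⟨0,[]⟩,⟨0,[(36,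
  0)]⟩⟩,⟨false,0,⟨0,[(32,0)]⟩,⟨3,[(8,1),(3,0),(0,0),(10,0),(9,1)]⟩⟩,[.e ⟨false,0,⟨0,[(3,0)]⟩,⟨3,[(4,
  1),(7,0),(0,0),(18,1),(0,0)]⟩⟩ ⟨false,0,⟨1,[(0,1),(6,0),(11,0),(9,0)]⟩,⟨0,[(2,0)]⟩⟩,.o ⟨false,0,
  ⟨0,[(0,0)]⟩,⟨2,[(4,0),(2,1),(0,0),(8,0),(6,1),(5,0)]⟩⟩,.e ⟨false,0,⟨0,[(5,0)]⟩,⟨3,[(4,1),(7,0),(0,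
  0),(18,1),(0,0)]⟩⟩ ⟨false,0,⟨0,[(0,0),(18,0)]⟩,⟨0,[(2,0)]⟩⟩,.a ⟨true,0,⟨3,[(6,1),(5,0),(0,0),(19,
  0)]⟩,⟨0,[(7,0)]⟩⟩ ⟨true,0,⟨0,[(3,0)]⟩,⟨0,[(1,0)]⟩⟩ ⟨false,0,⟨0,[(0,0),(6,0)]⟩,⟨7,[(4,3),(3,1),(10,
  0),(0,0),(3,0),(5,1),(3,2)]⟩⟩]⟩) (.Q [0,1,0,-1,-1,0,-2,-2,0,2,-2] (.p false [0,0,1] [2,-1,-1] (⟨0,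
  [(22,0)]⟩,⟨0,[(21,0)]⟩) .k 2 (⟨0,[(21,0),(3,0)]⟩,⟨0,[(10,0)]⟩) .k (.x (-1) ⟨0,[(7,1),(13,1),(2,
  0)]⟩ ⟨0,[(9,0),(0,0),(0,0)]⟩)) (.R ⟨0,false,false,true,[-1,1,1],[1,0,-1],[],(⟨0,[(11,0)]⟩,⟨0,[(22,
  0),(3,0)]⟩),(⟨0,[(22,0)]⟩,⟨0,[(23,0)]⟩),⟨0,[(22,0)]⟩,.k,.k,.k,(.r 0 ⟨0,[(1,1),(5,0),(17,0),(7,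
  2)]⟩ ⟨9,[(0,1),(3,15),(4,3),(10,3),(4,3),(8,6),(0,0)]⟩),.k,.k,⟨false,1,⟨0,[(3,0),(29,0)]⟩,⟨2,[(4,
  1),(14,0),(0,0),(9,0)]⟩⟩,⟨true,(-1),⟨0,[(7,0)]⟩,⟨0,[(8,1),(16,0)]⟩⟩,⟨false,1,⟨0,[(1,1),(2,1),(1,
  0),(10,1),(7,0),(7,0)]⟩,⟨0,[(2,0),(28,0),(1,0)]⟩⟩,⟨true,(-1),⟨0,[(0,0)]⟩,⟨0,[(1,1),(23,0),(7,
  2)]⟩⟩,⟨false,0,⟨0,[]⟩,⟨0,[]⟩⟩,⟨false,0,⟨0,[]⟩,⟨0,[]⟩⟩,[.o ⟨false,0,⟨0,[(19,0)]⟩,⟨1,[(1,1),(23,0),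
  (7,1),(1,0)]⟩⟩,.a ⟨true,0,⟨3,[(0,1),(12,0),(0,0),(18,1),(1,0)]⟩,⟨0,[(1,0),(31,0)]⟩⟩ ⟨false,1,⟨1,
  [(34,0),(0,0)]⟩,⟨0,[(37,0)]⟩⟩ ⟨true,(-1),⟨2,[(0,0),(5,0),(0,1),(25,0)]⟩,⟨0,[(1,0),(6,0),(16,0),(7,
  0)]⟩⟩,.e ⟨false,1,⟨1,[(13,0),(0,0),(20,0)]⟩,⟨0,[]⟩⟩ ⟨false,(-1),⟨2,[(0,0),(5,0),(0,1),(25,0)]⟩,⟨0,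
  [(3,0),(4,1),(16,0),(7,0)]⟩⟩,.o ⟨false,1,⟨0,[(8,0),(16,0)]⟩,⟨3,[(7,1),(5,0),(0,0),(19,0)]⟩⟩]⟩)
  (.Q [0,-1,0,-1,0,0,-1,-1,0,1,-1] (.p false [0,0,1] [1] (⟨0,[(23,0)]⟩,⟨0,[(22,0)]⟩) .k 1 (⟨0,[]⟩,
  ⟨0,[]⟩) .k .k) (.R ⟨1,false,false,false,[0,0,1],[2,-1,-1],[0,1,0,0,0,0,0,1],(⟨0,[(24,0)]⟩,⟨0,[(23,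
  0)]⟩),(⟨0,[(23,0),(3,0)]⟩,⟨0,[(12,0)]⟩),⟨0,[(13,0)]⟩,.k,.k,.k,(.r 0 ⟨5,[(1,3),(1,3),(4,3),(12,0),
  (0,0),(11,1)]⟩ ⟨7,[(5,13),(4,3),(9,1),(0,1),(4,1),(8,4),(0,0)]⟩),.k,.k,⟨false,0,⟨0,[(1,0),(6,0),
  (22,0)]⟩,⟨1,[(0,1),(4,1),(3,1),(16,0),(8,0)]⟩⟩,⟨true,(-1),⟨0,[(8,0)]⟩,⟨0,[(9,1),(16,0)]⟩⟩,⟨true,0,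
  ⟨0,[(38,0)]⟩,⟨0,[]⟩⟩,⟨false,0,⟨1,[(0,1),(19,1),(9,0),(5,0)]⟩,⟨0,[(1,0),(36,0)]⟩⟩,⟨false,0,⟨0,[(34,
  0)]⟩,⟨3,[(10,1),(3,0),(0,0),(10,0),(9,1)]⟩⟩,⟨false,0,⟨1,[(7,1),(10,1),(1,1),(9,0),(5,0)]⟩,⟨0,[(1,
  0),(31,0)]⟩⟩,[.o ⟨false,0,⟨39,[(0,19),(7,1),(1,9),(3,1),(0,1),(4,19),(0,3),(8,2),(4,2)]⟩,⟨1,[(1,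
  0),(24,0),(7,0),(3,0)]⟩⟩,.o ⟨false,0,⟨0,[(0,0)]⟩,⟨1,[(1,0),(24,0),(7,0),(3,2)]⟩⟩,.a ⟨true,0,⟨0,
  [(9,0)]⟩,⟨3,[(8,1),(5,0),(0,0),(19,0)]⟩⟩ ⟨true,0,⟨0,[(3,0)]⟩,⟨0,[(5,0)]⟩⟩ ⟨false,0,⟨3,[(0,3),(7,
  1),(5,0),(0,0),(19,0)]⟩,⟨4,[(1,3),(3,2),(15,1),(4,0),(4,1),(2,0)]⟩⟩,.e ⟨false,1,⟨3,[(6,1),(7,0),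
  (0,0),(18,1),(0,0)]⟩,⟨0,[(7,0)]⟩⟩ ⟨false,0,⟨0,[(0,0),(17,0)]⟩,⟨1,[(1,0),(19,1),(4,0),(7,0),(3,
  0)]⟩⟩]⟩) (.R ⟨2,false,false,false,[0,1],[1,0,-1],[1,0,0,0,0,0,0,-1],(⟨0,[]⟩,⟨0,[]⟩),(⟨0,[(23,0)]⟩,
  ⟨0,[(24,0)]⟩),⟨0,[]⟩,.k,.k,.k,.k,.k,.k,⟨true,0,⟨0,[]⟩,⟨1,[(21,0),(0,0)]⟩⟩,⟨false,0,⟨3,[(8,1),(5,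
  0),(0,0),(19,0)]⟩,⟨1,[(9,1),(16,0),(8,0)]⟩⟩,⟨false,1,⟨0,[(4,0),(0,1)]⟩,⟨2,[(1,0),(1,0),(4,0),(12,
  0),(0,0),(11,1)]⟩⟩,⟨true,0,⟨1,[(7,0),(2,0),(7,0),(1,0)]⟩,⟨0,[(0,0)]⟩⟩,⟨false,1,⟨1,[(5,1),(29,0),
  (0,0)]⟩,⟨3,[(1,0),(0,0),(0,0),(4,0),(12,0),(0,1)]⟩⟩,⟨false,0,⟨0,[(7,0),(10,0)]⟩,⟨15,[(1,3),(4,3),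
  (7,2),(0,2),(5,7),(4,3),(4,1),(3,0)]⟩⟩,[.a ⟨true,0,⟨1,[(20,1),(9,0),(5,0)]⟩,⟨6,[(1,1),(0,1),(16,
  0),(10,1),(7,0)]⟩⟩ ⟨true,0,⟨0,[(5,0)]⟩,⟨3,[(1,0),(0,0),(0,0),(4,0),(12,0),(0,1)]⟩⟩ ⟨false,0,⟨1,
  [(20,1),(9,0),(5,0)]⟩,⟨1,[(1,0),(31,0),(1,0)]⟩⟩,.e ⟨false,1,⟨1,[(5,1),(29,0),(0,0)]⟩,⟨0,[(3,0)]⟩⟩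
  ⟨false,0,⟨0,[(7,0),(10,0)]⟩,⟨1,[(19,1),(6,0),(8,0)]⟩⟩,.o ⟨false,1,⟨1,[(26,0),(8,0)]⟩,⟨1,[(21,0),
  (0,0)]⟩⟩,.fo]⟩)))) (.I [1,0,-1,0,0,0,0,-1] (.Q [0,-1,0,0,1,0,1,1,0,-1,1] (.p true [0,0,1] [1] (⟨0,
  [(22,0)]⟩,⟨0,[(21,0)]⟩) .k 1 (⟨0,[]⟩,⟨0,[]⟩) .k .k) (.R ⟨0,false,false,true,[-1,1,1],[1,0,-1],[0,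
  1,1,0,0,0,0,1],(⟨0,[(11,0)]⟩,⟨0,[(22,0),(3,0)]⟩),(⟨0,[(22,0)]⟩,⟨0,[(23,0)]⟩),⟨0,[(22,0)]⟩,.k,.k,
  .k,(.r (-1) ⟨1,[(0,1),(9,1),(7,1),(1,0),(0,0),(11,1)]⟩ ⟨0,[(1,0),(0,0),(29,0)]⟩),.k,.k,⟨false,1,
  ⟨0,[(0,0),(9,0),(7,0)]⟩,⟨0,[(1,0),(2,0)]⟩⟩,⟨true,(-1),⟨0,[(7,0)]⟩,⟨0,[(8,1),(16,0)]⟩⟩,⟨true,0,⟨0,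
  [(32,0)]⟩,⟨0,[(33,0)]⟩⟩,⟨false,(-1),⟨0,[(1,0),(0,0),(4,0),(24,0)]⟩,⟨3,[(0,5),(12,0),(0,0),(3,1),
  (6,0),(7,3)]⟩⟩,⟨false,0,⟨0,[]⟩,⟨0,[]⟩⟩,⟨false,0,⟨0,[]⟩,⟨0,[]⟩⟩,[.o ⟨false,0,⟨0,[(19,0)]⟩,⟨0,[(0,
  0)]⟩⟩,.o ⟨false,0,⟨2,[(1,0),(0,0),(4,0),(11,0),(5,0)]⟩,⟨3,[(0,1),(12,0),(0,0),(3,1),(6,0)]⟩⟩,.a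
  ⟨true,1,⟨1,[(8,1),(16,0),(8,0)]⟩,⟨4,[(7,2),(12,0),(8,1),(6,0)]⟩⟩ ⟨true,0,⟨0,[(18,0),(2,0)]⟩,⟨0,
  [(1,0)]⟩⟩ ⟨false,(-1),⟨0,[(4,0),(2,0)]⟩,⟨1,[(0,1),(7,1),(16,0),(8,0)]⟩⟩,.o ⟨false,1,⟨0,[(8,0),(16,
  0)]⟩,⟨3,[(7,1),(5,0),(0,0),(19,0)]⟩⟩]⟩) (.I [0,-1,-2,-1,1] (.R ⟨1,false,false,true,[1,-1],[1,0,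
  -1],[0,0,-1,-1],(⟨0,[(27,0)]⟩,⟨0,[(28,0)]⟩),(⟨0,[(23,0)]⟩,⟨0,[(24,0)]⟩),⟨4,[(0,0),(24,6),(1,2),(2,
  0),(3,0),(2,1),(0,0)]⟩,.k,.k,(.r (-1) ⟨0,[(0,0),(32,0)]⟩ ⟨0,[(21,0),(0,0),(11,1)]⟩),.k,(.x 0 ⟨0,
  [(1,0),(7,0),(9,0),(3,0),(2,0),(1,1),(3,1)]⟩ ⟨5,[(0,0),(12,5),(4,5),(6,5),(0,2),(7,0),(0,1),(2,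
  0)]⟩),.k,⟨true,1,⟨1,[(0,0),(5,0),(25,0)]⟩,⟨0,[(1,1),(7,0),(9,0),(6,0),(5,1),(1,0)]⟩⟩,⟨false,1,⟨1,
  [(18,1),(7,0),(8,0)]⟩,⟨0,[(21,0)]⟩⟩,⟨false,1,⟨1,[(14,0),(0,0),(20,0)]⟩,⟨0,[]⟩⟩,⟨false,0,⟨3,[(1,0),
  (1,1),(7,0),(8,0),(5,0),(7,3)]⟩,⟨0,[(4,0),(16,0)]⟩⟩,⟨true,0,⟨0,[(34,0)]⟩,⟨0,[(33,0)]⟩⟩,⟨false,0,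
  ⟨3,[(1,0),(1,1),(7,0),(8,0),(5,0),(7,7)]⟩,⟨2,[(4,0),(1,0),(2,2),(0,1),(15,0),(5,1)]⟩⟩,[.a ⟨true,
  (-1),⟨0,[(1,0)]⟩,⟨0,[(19,0),(16,0)]⟩⟩ ⟨false,1,⟨1,[(0,0),(32,0),(1,0)]⟩,⟨1,[(21,0),(0,0),(11,
  1)]⟩⟩ ⟨true,0,⟨4,[(1,1),(0,1),(15,1),(1,0),(5,1),(4,0)]⟩,⟨0,[(19,0),(12,1)]⟩⟩,.o ⟨false,0,⟨3,[(1,
  0),(1,1),(7,0),(8,0),(5,0)]⟩,⟨1,[(19,1),(6,0),(9,0)]⟩⟩,.o ⟨false,0,⟨1,[(21,0),(0,0)]⟩,⟨1,[(26,0),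
  (8,0)]⟩⟩,.e ⟨false,1,⟨0,[(0,0)]⟩,⟨0,[(21,0),(0,0),(11,0)]⟩⟩ ⟨false,1,⟨5,[(2,1),(0,1),(7,1),(8,1),
  (5,0),(8,4)]⟩,⟨0,[(19,0),(12,1)]⟩⟩]⟩) (.N [0,-1,2] (-1) ⟨0,[(6,0)]⟩ ⟨0,[(0,0),(1,0),(0,0)]⟩ (.x
  (-1) ⟨0,[(9,0),(11,0),(1,1),(2,0),(1,0)]⟩ ⟨3,[(1,5),(2,5),(3,0),(3,5),(0,1),(11,7),(0,0),(7,5),(2,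
  0)]⟩)))) (.R ⟨0,false,false,true,[-1,1,1],[0,0,1],[0,1,1,0,0,0,0,1],(⟨0,[(10,0)]⟩,⟨0,[(21,0),(3,
  0)]⟩),(⟨0,[(22,0)]⟩,⟨0,[(21,0)]⟩),⟨0,[(21,0)]⟩,.k,.k,.k,.k,.k,.k,⟨true,0,⟨1,[(19,0),(0,0)]⟩,⟨0,
  []⟩⟩,⟨false,0,⟨9,[(6,1),(5,1),(0,1),(5,3),(8,2),(4,2)]⟩,⟨1,[(24,0),(8,0)]⟩⟩,⟨true,0,⟨0,[(31,0)]⟩,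
  ⟨0,[(32,0)]⟩⟩,⟨false,0,⟨19,[(6,1),(1,9),(3,1),(0,1),(5,3),(8,2),(4,2)]⟩,⟨1,[(24,0),(7,1),(1,0)]⟩⟩,
  ⟨false,0,⟨0,[]⟩,⟨0,[]⟩⟩,⟨false,0,⟨0,[]⟩,⟨0,[]⟩⟩,[.a ⟨true,0,⟨0,[(17,0)]⟩,⟨4,[(1,2),(4,0),(9,0),(1,
  1),(9,0),(5,1)]⟩⟩ ⟨true,0,⟨0,[(0,0),(35,0)]⟩,⟨0,[(1,0)]⟩⟩ ⟨false,0,⟨3,[(6,1),(5,0),(0,0),(3,3),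
  (15,0)]⟩,⟨1,[(1,1),(22,0),(8,0)]⟩⟩,.o ⟨false,1,⟨1,[(17,1),(6,0),(9,0)]⟩,⟨1,[(1,1),(4,0),(17,0),(4,
  0)]⟩⟩,.e ⟨false,0,⟨0,[(0,0)]⟩,⟨1,[(3,1),(29,0),(0,0)]⟩⟩ ⟨false,0,⟨4,[(0,0),(5,1),(2,0),(7,3),(1,
  1),(14,1)]⟩,⟨1,[(1,1),(22,0),(8,0)]⟩⟩,.o ⟨false,1,⟨0,[(7,0),(16,0)]⟩,⟨3,[(6,1),(5,0),(0,0),(19,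
  0)]⟩⟩]⟩))) (.S ⟨1,0,[0,1,1,1,0,0,0,-1],[1,1,-1],[1,0,1,0,0,0,0,-1],(⟨0,[(19,0),(4,0)]⟩,⟨0,[(9,
  0)]⟩),⟨0,[(19,0)]⟩,.k,.k,⟨false,1,⟨3,[(6,1),(3,0),(0,0),(10,0),(9,1)]⟩,⟨0,[(30,0)]⟩⟩,⟨true,0,⟨0,
  [(34,0)]⟩,⟨0,[]⟩⟩,⟨true,0,⟨0,[]⟩,⟨0,[(34,0)]⟩⟩,⟨false,0,⟨0,[(30,0)]⟩,⟨3,[(6,1),(3,0),(0,0),(10,0),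
  (9,1)]⟩⟩,[.a ⟨true,(-1),⟨0,[(0,0),(13,0)]⟩,⟨7,[(2,3),(2,5),(0,1),(10,1),(4,0),(5,1),(3,2)]⟩⟩
  ⟨false,0,⟨0,[(1,0)]⟩,⟨3,[(2,1),(7,0),(0,0),(18,1),(0,0)]⟩⟩ ⟨true,(-1),⟨0,[(0,0)]⟩,⟨7,[(2,3),(3,1),
  (10,0),(0,0),(3,0),(5,1),(3,2)]⟩⟩,.o ⟨false,0,⟨1,[(0,1),(13,1),(7,0),(9,0)]⟩,⟨2,[(2,0),(2,1),(0,
  0),(8,0),(6,1),(5,0)]⟩⟩,.a ⟨true,0,⟨0,[(14,0)]⟩,⟨0,[(17,0)]⟩⟩ ⟨false,0,⟨0,[(3,0)]⟩,⟨3,[(2,1),(7,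
  0),(0,0),(18,1),(0,0)]⟩⟩ ⟨true,(-1),⟨0,[(0,0)]⟩,⟨7,[(2,3),(3,1),(3,0),(0,0),(10,0),(8,1)]⟩⟩,.a
  ⟨true,0,⟨3,[(4,1),(5,0),(0,0),(19,0)]⟩,⟨0,[(5,0)]⟩⟩ ⟨true,0,⟨0,[(1,0)]⟩,⟨0,[(0,0),(1,0)]⟩⟩ ⟨false,
  0,⟨1,[(0,1),(30,0),(0,0)]⟩,⟨7,[(2,3),(3,1),(10,0),(0,0),(3,0),(5,1),(3,2)]⟩⟩]⟩)) (.S ⟨1,0,[0,0,0,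
  0,0,0,0,1],[0,0,1],[0,1,0,0,0,0,0,1],(⟨0,[(19,0)]⟩,⟨0,[(18,0)]⟩),⟨0,[(8,0)]⟩,.k,.k,⟨true,0,⟨0,
  [(33,0)]⟩,⟨0,[]⟩⟩,⟨false,1,⟨1,[(9,0),(0,0),(20,0)]⟩,⟨0,[]⟩⟩,⟨false,0,⟨0,[(29,0)]⟩,⟨3,[(5,1),(3,0),
  (0,0),(10,0),(9,1)]⟩⟩,⟨true,0,⟨0,[(29,0)]⟩,⟨0,[(28,0)]⟩⟩,[.e ⟨true,0,⟨2,[(0,1),(13,0),(2,0),(8,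
  0)]⟩,⟨0,[(2,0)]⟩⟩ ⟨true,0,⟨0,[(0,0)]⟩,⟨1,[(2,0),(12,0),(0,0)]⟩⟩,.o ⟨false,1,⟨1,[(0,1),(3,1),(16,
  0),(9,0)]⟩,⟨0,[(15,0)]⟩⟩,.a ⟨true,0,⟨0,[(4,0)]⟩,⟨3,[(3,1),(5,0),(0,0),(19,0)]⟩⟩ ⟨false,0,⟨0,[(0,
  0)]⟩,⟨1,[(2,0),(12,0),(0,0),(13,0),(0,0)]⟩⟩ ⟨true,0,⟨0,[(0,0)]⟩,⟨0,[(2,0),(23,0)]⟩⟩,.e ⟨false,1,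
  ⟨3,[(1,1),(7,0),(0,0),(18,1),(0,0)]⟩,⟨0,[(2,0)]⟩⟩ ⟨false,1,⟨1,[(0,1),(29,0),(0,0)]⟩,⟨1,[(2,0),(12,
  0),(0,0)]⟩⟩]⟩))) (.S ⟨1,0,[0,0,0,0,0,0,0,1],[0,0,1],[0,1,0,0,0,0,0,1],(⟨0,[(17,0)]⟩,⟨0,[(16,0)]⟩),
  ⟨0,[(6,0)]⟩,.k,.k,⟨true,0,⟨0,[(31,0)]⟩,⟨0,[]⟩⟩,⟨false,1,⟨1,[(7,0),(0,0),(20,0)]⟩,⟨0,[]⟩⟩,⟨false,0,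
  ⟨0,[(27,0)]⟩,⟨3,[(3,1),(3,0),(0,0),(10,0),(9,1)]⟩⟩,⟨true,0,⟨0,[(27,0)]⟩,⟨0,[(26,0)]⟩⟩,[.a ⟨true,0,
  ⟨0,[(0,0),(1,0),(22,0)]⟩,⟨1,[(13,1),(9,0),(5,0)]⟩⟩ ⟨false,0,⟨0,[(0,0)]⟩,⟨0,[(2,0),(10,0),(15,
  0)]⟩⟩ ⟨true,0,⟨0,[(0,0),(24,0)]⟩,⟨0,[(2,0),(10,0),(11,0)]⟩⟩,.o ⟨false,1,⟨1,[(0,1),(1,1),(16,0),(5,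
  1),(3,0)]⟩,⟨0,[(13,0)]⟩⟩,.a ⟨true,0,⟨0,[(2,0)]⟩,⟨3,[(1,1),(5,0),(0,0),(19,0)]⟩⟩ ⟨false,0,⟨0,[(0,
  0),(24,0)]⟩,⟨0,[(2,0),(10,0),(15,0)]⟩⟩ ⟨true,0,⟨0,[(0,0),(24,0)]⟩,⟨0,[(2,0),(10,0)]⟩⟩,.a ⟨true,0,
  ⟨0,[(14,0)]⟩,⟨0,[(11,0)]⟩⟩ ⟨true,0,⟨0,[(0,0)]⟩,⟨0,[(2,0),(10,0),(11,0)]⟩⟩ ⟨false,1,⟨0,[(0,0),(28,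
  0)]⟩,⟨0,[(2,0),(10,0),(11,0)]⟩⟩]⟩)))

theorem ok4 : chk K t4 r1 = true := by decide +kernel

noncomputable def t3 : Tre :=
  .I [1,1,0,0,0,0,0,-1] t1 t2

theorem ok3 : chk K t3 l1 = true :=
  chk_I (e' := [0,-1,0,0,0,0,0,1]) (by decide +kernel) (by decide +kernel) ok1 ok2

noncomputable def t5 : Tre :=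
  .Q [0,0,0,0,0,0,-1,0,0,0,-1] (.p false [0,0,1] [] (⟨0,[(14,0)]⟩,⟨0,[(13,0)]⟩) .k 0 (⟨0,[]⟩,⟨0,
  []⟩) .k .k) t3 t4

theorem ok5 : chk K t5 r0 = true :=
  chk_Q (e' := [0,0,0,0,0,0,1,0,0,0,1]) (by decide +kernel) (by decide +kernel) ok3 ok4

noncomputable def t6 : Tre :=
  .Q [0,0,0,2,0,0,0,0,0,-1] (.pp true [-1,1]) t0 t5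

theorem ok6 : chk K t6 base = true :=
  chk_Q (e' := [0,0,0,-2,0,0,0,0,0,1]) (by decide +kernel) (by decide +kernel) ok0 ok5

theorem closed {p a b c J l q : ℤ} {D dl : ℝ} {Cl : ℤ → ℤ → ℤ → ℤ → ℝ → Prop}
    (W : World p a b c J 1 l q D dl Cl) (g : G0 p a b c J D)
    {N X R : ℤ} {I : ℝ} (hk : KCl p l Cl N X R I) (kz : KF a b D (X + (1 : ℤ) * I) (X + (1 : ℤ) * I + R) I)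
    {Ne Xe : ℤ} {Ie : ℝ} (he : EFac p 1 D Cl 1 Ne Xe Ie)
    (hkf : ∀ kf ∈ (kfY 1 [0,0,0,0,0,0,1,0,0,0,1]), KOk p l Cl 1
      (xv [1, a, b, c, p, J, X, R, Xe] [D, I, Ie]) N kf)
    (h0 : 1 ≤ (c : ℝ))
    (h1 : 1 ≤ 1 - (a : ℝ) + (b : ℝ))
    (h2 : 1 ≤ 2 * (a : ℝ) - (b : ℝ))
    (h3 : 0 < 1 - (p : ℝ) + 2 * D)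
    (h4 : 1 ≤ 2 * (a : ℝ) - (b : ℝ))
    (h5 : 1 ≤ 2 - (J : ℝ))
    (h6 : 0 < -(b : ℝ) - (X : ℝ) + D - I)
    (h7 : 0 < -(J : ℝ) + I)
    (h8 : 0 < (J : ℝ) - D + I)
    (h9 : 0 < -2 * (X : ℝ) + D - 2 * I) : False := by
  have g1 := g.a2
  have g2 := g.b2
  have g3 := g.pa
  have g4 := g.pb
  have g5 := g.J1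
  have g6 := g.JD
  have g7 := g.D2
  have g8 := g.ca
  have g9 := g.ca'
  have k1 := kz.I0
  have k2 := kz.ID
  have k3 := kz.z1
  have k4 := kz.z2
  have k5 := kz.s1
  have k6 := kz.s2
  have e1 := he.I0
  have e2 := he.ID
  have e3 := he.x0
  have e4 := he.xp
  push_cast at *
  refine (val_E W.toBase hk he (row := [1]) (by simp) (by simp) (kfY 1 [0,0,0,0,0,0,1,0,0,0,1])).sound W rfl (Nk := N)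
    (fun kf _ _ => ⟨_, rfl⟩) hkf ?_ ok6
  · simp only [base, List.forall_mem_cons, List.not_mem_nil, false_imp_iff, implies_true,
      and_true, hld, xv, evg_cons, evg_nil, List.map_cons, List.map_nil, List.cons_append,
      List.nil_append, if_true, if_false, Bool.false_eq_true]
    push_cast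
    refine ⟨?_, ?_, ?_, ?_, ?_, ?_, ?_, ?_, ?_, ?_, ?_, ?_, ?_, ?_, ?_, ?_, ?_, ?_, ?_, ?_, ?_, ?_, ?_, ?_, ?_, ?_, ?_, ?_⟩ <;> linarith

end Helper48.Y.Y11_c35_L2_m1n0
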