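import Pool.Agent.Helper25.KG.S1b
import Pool.Agent.Helper11.CT.Clo

set_option autoImplicit false
set_option linter.all false

namespace Helper48.Y.Y11_c2_P2_m1n0

open Helper25.KG Helper25.KW Helper55.KE Helper11.CT

noncomputable def K : Cls :=
  cE 1 [1] (kfY 1 [0,0,0,0,0,0,1,0,0,0,1])

noncomputable def base : List Con :=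
  [(false,[0,0,0,0,0,0,-2,0,0,1,-2]),
  (false,[0,0,0,0,0,1,0,0,0,-1,1]),
  (false,[0,0,0,0,0,-1,0,0,0,0,1]),
  (false,[0,0,0,0,1,0,0,0,-1,0,0,-1]),
  (false,[0,0,0,0,0,0,0,0,1,0,0,1]),
  (false,[0,0,0,0,0,0,0,0,0,1,0,-1]),
  (false,[0,0,0,0,0,0,0,0,0,0,0,1]),
  (false,[0,0,-1,0,0,0,-1,0,0,1,-1]),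
  (false,[0,1,0,0,0,0,1,1,0,0,1]),
  (false,[0,1,0,0,0,0,-1,-1,0,0,-1]),
  (false,[0,0,1,0,0,0,1,0,0,0,1]),
  (false,[0,0,1,0,0,0,-1,0,0,0,-1]),
  (false,[0,0,0,0,0,0,0,0,0,1,-1]),
  (false,[0,0,0,0,0,0,0,0,0,0,1]),
  (true,[3,0,0,0,0,-1]),
  (true,[-1,0,0,0,0,1]),
  (false,[0,0,0,0,1,0,0,0,0,-2]),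
  (false,[0,0,0,0,0,-1,0,0,0,1]),
  (true,[0,0,0,0,0,1]),
  (true,[0,2,-1]),
  (false,[1,0,0,0,2,0,0,0,0,-5]),
  (true,[1,-1,1,1]),
  (true,[0,1,-1]),
  (true,[0,1,0,-1]),
  (true,[0,0,0,1]),
  (true,[0,0,-2,0,1]),
  (true,[0,-2,0,0,1]),
  (true,[-1,0,1]),
  (true,[-1,1])]

noncomputable def l0 : List Con := (false, [0,0,0,0,0,0,1,1,0,-1,1]) :: base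

noncomputable def r0 : List Con := (false, [0,0,0,0,0,0,-1,-1,0,1,-1]) :: base

noncomputable def l1 : List Con := (true, [1,0,-1,-1,1,0,0,1]) :: r0

noncomputable def r1 : List Con := (true, [0,0,1,1,-1,0,0,-1]) :: r0

noncomputable def l2 : List Con := (false, [0,0,0,0,0,0,-1,-1,0,0,-1]) :: l1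

noncomputable def r2 : List Con := (false, [0,0,0,0,0,0,1,1,0,0,1]) :: l1

noncomputable def t0 : Tre :=
  (.Q [0,0,0,0,0,0,-1,0,0,0,-1] (.p false [0,0,1] [] (⟨0,[(14,0)]⟩,⟨0,[(13,0)]⟩) .k 0 (⟨0,[]⟩,⟨0,
  []⟩) .k .k) (.S ⟨1,0,[0,0,0,0,0,0,0,1],[0,0,1],[0,1,0,0,0,0,0,1],(⟨0,[(15,0)]⟩,⟨0,[(14,0)]⟩),⟨0,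
  [(4,0)]⟩,.k,.k,⟨true,0,⟨0,[(30,0)]⟩,⟨0,[]⟩⟩,⟨false,1,⟨1,[(5,0),(0,0),(21,0)]⟩,⟨0,[]⟩⟩,⟨false,0,⟨0,
  [(26,0)]⟩,⟨0,[(25,0),(2,0)]⟩⟩,⟨true,0,⟨0,[(26,0)]⟩,⟨0,[(25,0)]⟩⟩,[.o ⟨false,0,⟨0,[(1,0)]⟩,⟨1,[(5,
  0),(0,0),(4,1),(16,0)]⟩⟩,.o ⟨false,1,⟨8,[(1,3),(8,4),(11,0),(5,6)]⟩,⟨0,[(11,0)]⟩⟩,.o ⟨false,1,⟨9,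
  [(5,0),(0,0),(5,9),(9,1),(4,4)]⟩,⟨0,[(0,0)]⟩⟩,.a ⟨true,0,⟨0,[(12,0)]⟩,⟨0,[(9,0)]⟩⟩ ⟨false,0,⟨0,
  [(1,0),(7,0)]⟩,⟨0,[(11,0),(0,0),(15,0)]⟩⟩ ⟨true,0,⟨0,[(1,0),(7,0)]⟩,⟨0,[(11,0),(0,0)]⟩⟩]⟩) (.S ⟨1,
  0,[0,0,0,0,0,0,0,1],[0,0,1],[0,1,1],(⟨0,[(15,0)]⟩,⟨0,[(14,0)]⟩),⟨0,[(4,0)]⟩,.k,.k,⟨true,0,⟨0,[(11,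
  0),(0,0)]⟩,⟨0,[(1,0),(7,0)]⟩⟩,⟨false,1,⟨1,[(5,0),(0,0),(21,0)]⟩,⟨0,[]⟩⟩,⟨false,0,⟨0,[(0,0),(10,0),
  (11,0)]⟩,⟨0,[(1,0),(7,0),(15,0),(2,0)]⟩⟩,⟨true,0,⟨0,[(26,0)]⟩,⟨0,[(25,0)]⟩⟩,[.o ⟨false,0,⟨0,[(1,
  0)]⟩,⟨1,[(5,0),(0,0),(4,1),(16,0)]⟩⟩,.o ⟨false,1,⟨8,[(1,3),(8,4),(11,0),(5,6)]⟩,⟨0,[(11,0)]⟩⟩,.a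
  ⟨true,0,⟨0,[(0,0)]⟩,⟨1,[(2,0),(11,0),(0,0)]⟩⟩ ⟨false,0,⟨1,[(12,0),(0,0)]⟩,⟨1,[(27,0),(0,0)]⟩⟩
  ⟨true,0,⟨1,[(1,1),(0,0),(11,0),(0,0)]⟩,⟨0,[(0,0),(10,0)]⟩⟩,.e ⟨true,0,⟨0,[(30,0)]⟩,⟨0,[]⟩⟩ ⟨true,
  0,⟨0,[(1,0),(7,0)]⟩,⟨0,[(11,0),(0,0)]⟩⟩]⟩))

theorem ok0 : chk K t0 l0 = true := by decide +kernel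

noncomputable def t1 : Tre :=
  (.Q [0,0,0,0,0,0,-1,0,0,0,-1] (.p false [0,0,1] [] (⟨0,[(16,0)]⟩,⟨0,[(15,0)]⟩) .k 0 (⟨0,[]⟩,⟨0,
  []⟩) .k .k) (.Q [0,-1,0,1,0,0,-1,-1,0,0,-1] (.p false [0,0,1] [] (⟨0,[(17,0)]⟩,⟨0,[(16,0)]⟩) .k 0
  (⟨0,[]⟩,⟨0,[]⟩) .k .k) (.R ⟨2,true,false,true,[0,1],[0,0,1],[0,1,1,1],(⟨0,[]⟩,⟨0,[]⟩),(⟨0,[(18,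
  0)]⟩,⟨0,[(17,0)]⟩),⟨0,[]⟩,.k,.k,.k,.k,.k,.k,⟨false,0,⟨0,[(0,0),(14,0),(11,0)]⟩,⟨0,[(3,0)]⟩⟩,⟨true,
  0,⟨0,[(15,0)]⟩,⟨0,[(1,0)]⟩⟩,⟨true,0,⟨0,[(33,0)]⟩,⟨0,[]⟩⟩,⟨false,1,⟨0,[(3,0),(11,0)]⟩,⟨0,[(0,0)]⟩⟩,
  ⟨false,0,⟨0,[(29,0)]⟩,⟨0,[(28,0),(2,0)]⟩⟩,⟨true,0,⟨0,[(13,0)]⟩,⟨0,[(2,0)]⟩⟩,[]⟩) (.Q [0,1,0,0,0,0,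
  1,1,0,-1,1] (.p true [0,0,1] [1] (⟨0,[(18,0)]⟩,⟨0,[(17,0)]⟩) .k 1 (⟨0,[]⟩,⟨0,[]⟩) .k .k) (.S ⟨1,0,
  [0,0,0,0,0,0,0,1],[0,0,1],[0,1,0,0,0,0,0,1],(⟨0,[(19,0)]⟩,⟨0,[(18,0)]⟩),⟨0,[(8,0)]⟩,.k,.k,⟨true,0,
  ⟨0,[(34,0)]⟩,⟨0,[]⟩⟩,⟨false,1,⟨1,[(9,0),(0,0),(21,0)]⟩,⟨0,[]⟩⟩,⟨false,0,⟨0,[(30,0)]⟩,⟨0,[(29,0),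
  (2,0)]⟩⟩,⟨true,0,⟨0,[(30,0)]⟩,⟨0,[(29,0)]⟩⟩,[.o ⟨false,1,⟨9,[(9,0),(0,0),(3,9),(11,1),(5,4)]⟩,⟨0,
  [(3,0)]⟩⟩,.o ⟨false,1,⟨0,[(0,0),(31,0)]⟩,⟨0,[(15,0)]⟩⟩,.o ⟨false,1,⟨9,[(9,0),(0,0),(5,9),(9,1),(4,
  4)]⟩,⟨0,[(2,0)]⟩⟩,.a ⟨true,0,⟨0,[(16,0)]⟩,⟨0,[(13,0)]⟩⟩ ⟨true,0,⟨0,[(0,0),(12,0)]⟩,⟨0,[(3,0),(12,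
  0)]⟩⟩ ⟨false,1,⟨0,[(0,0),(12,0),(18,0)]⟩,⟨0,[(3,0),(12,0)]⟩⟩]⟩) (.Q [0,0,-1,-1,1,0,1,0,0,-1,1]
  (.p true [0,0,1] [1] (⟨0,[(19,0)]⟩,⟨0,[(18,0)]⟩) .k 1 (⟨0,[]⟩,⟨0,[]⟩) .k .k) (.R ⟨0,false,false,
  true,[1,0,-1],[1,-1],[0,1,1],(⟨0,[(19,0)]⟩,⟨0,[(20,0)]⟩),(⟨0,[(24,0)]⟩,⟨0,[(25,0)]⟩),⟨0,[(8,0)]⟩,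
  .k,.k,.k,.k,.k,.k,⟨false,0,⟨0,[(28,0),(6,0)]⟩,⟨0,[(0,0),(13,0)]⟩⟩,⟨true,0,⟨0,[(17,0)]⟩,⟨0,[(3,
  0)]⟩⟩,⟨false,0,⟨0,[(2,0),(0,0),(24,0)]⟩,⟨0,[(0,0),(0,0),(29,0)]⟩⟩,⟨true,0,⟨0,[(2,0)]⟩,⟨0,[(4,0),
  (26,0)]⟩⟩,⟨false,0,⟨0,[]⟩,⟨0,[]⟩⟩,⟨false,0,⟨0,[]⟩,⟨0,[]⟩⟩,[.o ⟨false,0,⟨0,[(30,0)]⟩,⟨9,[(10,0),(0,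
  0),(15,1),(3,9),(1,4)]⟩⟩,.a ⟨true,0,⟨0,[(1,0),(0,0)]⟩,⟨0,[(31,0)]⟩⟩ ⟨true,0,⟨1,[(17,0),(0,0)]⟩,⟨0,
  []⟩⟩ ⟨false,1,⟨1,[(0,0),(0,0),(0,0),(14,0),(14,0)]⟩,⟨0,[(3,0),(27,0)]⟩⟩,.o ⟨false,0,⟨0,[(3,0)]⟩,
  ⟨9,[(10,0),(0,0),(5,9),(9,1),(4,4)]⟩⟩,.o ⟨false,0,⟨0,[(18,0)]⟩,⟨0,[(0,0),(30,0)]⟩⟩]⟩) (.Q [0,-1,0,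
  0,1,0,1,1,0,-1,1] (.p true [0,0,1] [1] (⟨0,[(20,0)]⟩,⟨0,[(19,0)]⟩) .k 1 (⟨0,[]⟩,⟨0,[]⟩) .k .k)
  (.I [0,1,-1,0,0,0,0,1] (.S ⟨1,0,[0,0,0,0,0,0,0,1],[0,0,1],[0,1,0,0,0,0,0,1],(⟨0,[(22,0)]⟩,⟨0,[(21,
  0)]⟩),⟨0,[(11,0)]⟩,.k,.k,⟨true,0,⟨0,[(37,0)]⟩,⟨0,[]⟩⟩,⟨false,1,⟨1,[(12,0),(0,0),(21,0)]⟩,⟨0,[]⟩⟩,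
  ⟨false,0,⟨0,[(33,0)]⟩,⟨0,[(32,0),(2,0)]⟩⟩,⟨true,0,⟨0,[(33,0)]⟩,⟨0,[(32,0)]⟩⟩,[.o ⟨false,1,⟨20,[(1,
  10),(10,5),(0,5),(3,9),(11,1),(7,0)]⟩,⟨0,[(6,0)]⟩⟩,.o ⟨false,1,⟨0,[(1,0)]⟩,⟨0,[(18,0)]⟩⟩,.o
  ⟨false,1,⟨9,[(12,0),(0,0),(5,9),(9,1),(4,4)]⟩,⟨0,[(5,0)]⟩⟩,.a ⟨true,0,⟨0,[(19,0)]⟩,⟨0,[(16,0)]⟩⟩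
  ⟨true,0,⟨0,[(0,0)]⟩,⟨0,[(6,0),(12,0)]⟩⟩ ⟨false,1,⟨0,[(0,0),(34,0)]⟩,⟨0,[(6,0),(12,0)]⟩⟩]⟩) (.S ⟨1,
  0,[0,1,0,0,0,0,0,1],[0,0,1],[0,0,0,0,0,0,0,1],(⟨0,[(22,0)]⟩,⟨0,[(21,0)]⟩),⟨0,[(11,0)]⟩,.k,.k,
  ⟨false,1,⟨1,[(12,0),(0,0),(21,0)]⟩,⟨0,[]⟩⟩,⟨true,0,⟨0,[(37,0)]⟩,⟨0,[]⟩⟩,⟨true,0,⟨0,[(33,0)]⟩,⟨0,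
  [(32,0)]⟩⟩,⟨false,0,⟨0,[(33,0)]⟩,⟨0,[(32,0),(2,0)]⟩⟩,[.a ⟨true,0,⟨0,[(17,0)]⟩,⟨0,[(3,0)]⟩⟩ ⟨false,
  1,⟨0,[(7,0),(25,0)]⟩,⟨0,[(0,0),(30,0)]⟩⟩ ⟨true,0,⟨0,[(5,0),(11,0)]⟩,⟨0,[(0,0)]⟩⟩,.o ⟨false,1,⟨20,
  [(1,10),(10,5),(0,5),(3,9),(11,1),(7,0)]⟩,⟨0,[(6,0)]⟩⟩,.o ⟨false,1,⟨9,[(12,0),(0,0),(5,9),(9,1),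
  (4,4)]⟩,⟨0,[(5,0)]⟩⟩,.e ⟨false,1,⟨0,[(1,0),(14,0)]⟩,⟨1,[(0,0),(17,0),(0,0)]⟩⟩ ⟨false,1,⟨0,[(7,0),
  (25,0)]⟩,⟨0,[(0,0)]⟩⟩]⟩)) (.Q [0,0,1,0,-1,0,-1,0,0,1,-1] (.p false [0,0,1] [1] (⟨0,[(21,0)]⟩,⟨0,
  [(20,0)]⟩) .k 1 (⟨0,[]⟩,⟨0,[]⟩) .k .k) (.Q [0,-1,0,1,1,0,1,1,0,-1,1] (.p true [0,0,1] [1] (⟨0,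
  [(22,0)]⟩,⟨0,[(21,0)]⟩) .k 1 (⟨0,[]⟩,⟨0,[]⟩) .k .k) (.I [1,-1,1,0,0,0,0,1] (.R ⟨2,true,false,true,
  [0,1],[1,0,-1],[1,1,1],(⟨0,[]⟩,⟨0,[]⟩),(⟨0,[(23,0)]⟩,⟨0,[(24,0)]⟩),⟨0,[]⟩,.k,.k,.k,.k,.k,.k,
  ⟨false,0,⟨0,[(0,0),(32,0)]⟩,⟨0,[(8,0),(12,0),(14,0)]⟩⟩,⟨true,(-1),⟨0,[(2,0)]⟩,⟨9,[(14,0),(0,0),(5,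
  9),(9,1),(4,4)]⟩⟩,⟨true,0,⟨0,[(34,0)]⟩,⟨0,[(35,0)]⟩⟩,⟨false,0,⟨0,[(5,0),(28,0)]⟩,⟨0,[(1,0)]⟩⟩,
  ⟨false,0,⟨0,[]⟩,⟨1,[(14,0),(0,0),(21,0)]⟩⟩,⟨true,(-1),⟨0,[(3,0)]⟩,⟨30,[(1,10),(7,10),(4,0),(0,0),
  (3,8),(1,10),(9,3),(7,1)]⟩⟩,[]⟩) (.R ⟨2,true,false,true,[0,1],[1,0,-1],[0,1,1,1],(⟨0,[]⟩,⟨0,[]⟩),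
  (⟨0,[(23,0)]⟩,⟨0,[(24,0)]⟩),⟨0,[]⟩,.k,.k,.k,.k,.k,.k,⟨false,0,⟨0,[(1,0),(0,0),(30,0)]⟩,⟨0,[(0,0),
  (33,0),(2,0)]⟩⟩,⟨true,(-1),⟨0,[(2,0)]⟩,⟨9,[(14,0),(0,0),(5,9),(9,1),(4,4)]⟩⟩,⟨true,0,⟨0,[(39,0)]⟩,
  ⟨0,[]⟩⟩,⟨false,0,⟨0,[(5,0),(28,0)]⟩,⟨0,[(1,0)]⟩⟩,⟨false,0,⟨0,[(35,0)]⟩,⟨0,[(34,0),(2,0)]⟩⟩,⟨true,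
  (-1),⟨0,[(3,0)]⟩,⟨30,[(1,10),(7,10),(4,0),(0,0),(3,8),(1,10),(9,3),(7,1)]⟩⟩,[]⟩)) (.I [1,0,0,0,0,
  0,0,-1] (.I [1,-1,-1,-1,1,0,0,1] (.I [0,-1,1,1,0,0,0,-1] (.S ⟨1,0,[0,0,1,1,0,0,0,-1],[1,1,-1],[1,
  1,1,0,0,0,0,-1],(⟨0,[(25,0),(5,0)]⟩,⟨0,[(15,0)]⟩),⟨0,[(25,0)]⟩,.k,.k,⟨true,0,⟨0,[(36,0)]⟩,⟨0,[(37,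
  0)]⟩⟩,⟨false,1,⟨1,[(16,0),(0,0),(21,0)]⟩,⟨0,[]⟩⟩,⟨false,0,⟨0,[]⟩,⟨1,[(16,0),(0,0),(21,0)]⟩⟩,⟨true,
  0,⟨0,[(37,0)]⟩,⟨0,[(36,0)]⟩⟩,[.o ⟨false,0,⟨0,[(10,0),(26,0)]⟩,⟨4,[(1,0),(6,2),(2,0),(11,1),(9,0),
  (5,0)]⟩⟩,.a ⟨true,0,⟨0,[(7,0),(29,0)]⟩,⟨0,[(8,0)]⟩⟩ ⟨false,0,⟨0,[(2,0)]⟩,⟨0,[(11,0),(25,0)]⟩⟩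
  ⟨true,0,⟨0,[(0,0)]⟩,⟨7,[(1,0),(2,4),(3,4),(2,1),(20,1),(0,0)]⟩⟩,.e ⟨false,0,⟨0,[(0,0),(35,0)]⟩,⟨0,
  [(1,0),(35,0)]⟩⟩ ⟨false,0,⟨0,[(0,0)]⟩,⟨0,[(11,0)]⟩⟩,.o ⟨false,0,⟨0,[(9,0)]⟩,⟨9,[(16,0),(0,0),(5,
  9),(9,1),(4,4)]⟩⟩]⟩) (.N [0,0,1] 0 ⟨0,[(0,0),(33,0)]⟩ ⟨0,[(2,0)]⟩ .k)) (.Q [0,0,0,0,1,0,1,0,0,-2,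
  1] (.p true [-1,1,1] [1] (⟨0,[(13,0)]⟩,⟨0,[(24,0),(4,0)]⟩) .k 1 (⟨0,[]⟩,⟨0,[]⟩) .k .k) (.R ⟨0,
  false,false,false,[-1,1,1],[0,1],[1,0,1,1],(⟨0,[(14,0)]⟩,⟨0,[(25,0),(4,0)]⟩),(⟨0,[(31,0)]⟩,⟨0,
  [(30,0)]⟩),⟨0,[(25,0)]⟩,.k,.k,.k,.k,.k,.k,⟨true,0,⟨0,[]⟩,⟨1,[(23,0),(0,0)]⟩⟩,⟨false,0,⟨0,[(20,
  0)]⟩,⟨3,[(0,1),(15,0),(0,0),(5,1),(14,0)]⟩⟩,⟨true,0,⟨0,[(2,0)]⟩,⟨0,[(9,0),(11,0)]⟩⟩,⟨false,0,⟨0,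
  [(7,0)]⟩,⟨9,[(16,0),(0,0),(3,9),(11,1),(5,4)]⟩⟩,⟨false,0,⟨0,[]⟩,⟨0,[]⟩⟩,⟨false,0,⟨0,[]⟩,⟨0,[]⟩⟩,
  [.a ⟨true,0,⟨0,[(37,0)]⟩,⟨0,[(7,0),(0,0)]⟩⟩ ⟨false,0,⟨0,[(37,0)]⟩,⟨1,[(36,1),(1,0),(0,0)]⟩⟩ ⟨true,
  (-1),⟨0,[(6,0)]⟩,⟨1,[(0,0),(1,0),(5,0),(27,0),(2,0)]⟩⟩,.o ⟨false,1,⟨9,[(16,0),(0,0),(15,1),(3,9),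
  (1,4)]⟩,⟨0,[(36,0)]⟩⟩,.o ⟨false,2,⟨1,[(0,1),(15,0),(0,0),(20,0)]⟩,⟨0,[(4,0)]⟩⟩,.o ⟨false,1,⟨0,[(0,
  0)]⟩,⟨1,[(6,0),(4,0),(0,0)]⟩⟩]⟩) (.Q [0,-1,0,2,0,0,-1,-1,0,0,-1] (.p false [0,0,1] [] (⟨0,[(26,
  0)]⟩,⟨0,[(25,0)]⟩) .k 0 (⟨0,[]⟩,⟨0,[]⟩) .k .k) (.R ⟨1,true,false,false,[0,0,1],[0,1],[1,0,0,-1,0,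
  0,0,1],(⟨0,[(27,0)]⟩,⟨0,[(26,0)]⟩),(⟨0,[(32,0)]⟩,⟨0,[(31,0)]⟩),⟨0,[(16,0)]⟩,.k,.k,.k,.k,(.r (-2)
  ⟨1,[(12,1),(24,1),(1,0),(0,0)]⟩ ⟨0,[(2,0),(32,0)]⟩),.k,⟨true,1,⟨1,[(1,1),(2,0),(4,2),(24,0),(4,0),
  (0,1)]⟩,⟨0,[(2,0),(32,0)]⟩⟩,⟨false,1,⟨5,[(14,0),(6,3),(12,0),(4,3)]⟩,⟨0,[(24,0)]⟩⟩,⟨false,1,⟨0,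
  [(37,0),(2,0)]⟩,⟨0,[(38,0)]⟩⟩,⟨true,0,⟨1,[(0,0),(22,0)]⟩,⟨0,[(9,0)]⟩⟩,⟨true,0,⟨0,[]⟩,⟨0,[(42,
  0)]⟩⟩,⟨false,0,⟨0,[(0,0)]⟩,⟨0,[(9,0),(27,0),(2,0)]⟩⟩,[]⟩) (.I [0,0,-2,-2,1] (.S ⟨1,0,[0,0,-1,-1],
  [1,-1],[0,1,-1,-1],(⟨0,[(32,0)]⟩,⟨0,[(33,0)]⟩),⟨1,[(1,0),(1,0),(2,0),(22,2),(2,0),(4,1),(1,0),(1,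
  1)]⟩,.k,(.r (-1) ⟨0,[(0,0)]⟩ ⟨0,[(36,1),(6,1)]⟩),⟨true,0,⟨0,[(43,0)]⟩,⟨0,[]⟩⟩,⟨false,1,⟨1,[(18,0),
  (0,0),(21,0)]⟩,⟨0,[]⟩⟩,⟨false,0,⟨0,[(39,0)]⟩,⟨0,[(38,0),(2,0)]⟩⟩,⟨true,0,⟨0,[(39,0)]⟩,⟨0,[(38,
  0)]⟩⟩,[.e ⟨false,1,⟨3,[(0,1),(17,0),(0,0),(14,1),(5,0)]⟩,⟨0,[(36,0)]⟩⟩ ⟨false,1,⟨1,[(0,0),(39,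
  0)]⟩,⟨0,[(36,0),(6,0)]⟩⟩,.o ⟨false,1,⟨0,[(38,0),(2,0)]⟩,⟨3,[(3,0),(4,0),(14,0),(11,0),(1,1),(1,
  1)]⟩⟩,.o ⟨false,0,⟨1,[(25,0),(0,0)]⟩,⟨9,[(18,0),(0,0),(15,1),(4,4)]⟩⟩,.a ⟨true,(-1),⟨0,[(6,0),(18,
  0)]⟩,⟨0,[(40,0)]⟩⟩ ⟨false,1,⟨1,[(0,0),(39,0)]⟩,⟨1,[(25,0),(0,0),(9,1)]⟩⟩ ⟨true,1,⟨1,[(0,0),(39,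
  0)]⟩,⟨5,[(1,0),(1,2),(4,4),(14,1),(1,2),(0,0),(8,0)]⟩⟩]⟩) (.Q [0,0,1,-1,-1,0,-1,0,0,1,-1] (.p
  false [0,0,1] [1] (⟨0,[(28,0)]⟩,⟨0,[(27,0)]⟩) .k 1 (⟨0,[]⟩,⟨0,[]⟩) .k .k) (.R ⟨0,false,false,
  false,[1,0,-1],[0,1],[1,1,1],(⟨0,[(28,0)]⟩,⟨0,[(29,0)]⟩),(⟨0,[(34,0)]⟩,⟨0,[(33,0)]⟩),⟨0,[(17,0)]⟩,
  .k,.k,.k,.k,.k,.k,⟨true,0,⟨0,[(39,0)]⟩,⟨1,[(1,0),(40,0)]⟩⟩,⟨false,2,⟨9,[(19,0),(0,0),(5,9),(9,1),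
  (4,14)]⟩,⟨0,[(7,0)]⟩⟩,⟨false,0,⟨22,[(0,4),(0,13),(0,5),(11,16),(12,0),(8,0),(0,5)]⟩,⟨1,[(5,1),(35,
  0),(0,0)]⟩⟩,⟨true,1,⟨9,[(19,0),(0,0),(3,9),(11,1),(3,9),(1,4)]⟩,⟨0,[(6,0)]⟩⟩,⟨false,0,⟨0,[]⟩,⟨0,
  []⟩⟩,⟨false,0,⟨0,[]⟩,⟨0,[]⟩⟩,[.a ⟨true,0,⟨0,[(40,0)]⟩,⟨7,[(2,3),(0,1),(6,1),(4,1),(10,1),(14,0),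
  (0,0)]⟩⟩ ⟨false,0,⟨0,[(44,0)]⟩,⟨1,[(41,0),(0,0)]⟩⟩ ⟨true,1,⟨9,[(19,0),(0,0),(5,9),(9,1),(3,9),(0,
  4)]⟩,⟨0,[(0,0)]⟩⟩,.o ⟨false,1,⟨9,[(19,0),(0,0),(15,1),(3,9),(1,4)]⟩,⟨0,[(39,0)]⟩⟩,.o ⟨false,0,⟨0,
  [(12,0)]⟩,⟨9,[(19,0),(0,0),(5,9),(9,1),(4,4)]⟩⟩,.e ⟨false,0,⟨0,[]⟩,⟨1,[(19,0),(0,0),(21,0)]⟩⟩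
  ⟨false,2,⟨9,[(19,0),(0,0),(5,9),(9,1),(3,9),(0,9),(0,4)]⟩,⟨0,[(0,0)]⟩⟩]⟩) (.R ⟨0,false,false,
  false,[1,0,-1],[0,1],[1,1,1],(⟨0,[(28,0)]⟩,⟨0,[(29,0)]⟩),(⟨0,[(34,0)]⟩,⟨0,[(33,0)]⟩),⟨0,[(17,0)]⟩,
  .k,.k,.k,.k,.k,.k,⟨true,0,⟨0,[(39,0)]⟩,⟨1,[(1,0),(40,0)]⟩⟩,⟨false,2,⟨0,[(0,0),(4,0),(8,0)]⟩,⟨0,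
  [(7,0)]⟩⟩,⟨false,0,⟨17,[(1,8),(0,5),(4,4),(6,11),(12,0),(8,0),(0,5)]⟩,⟨1,[(5,1),(35,0),(0,0)]⟩⟩,
  ⟨true,1,⟨21,[(0,11),(0,4),(12,10),(9,10),(2,0),(8,1),(0,10),(5,0)]⟩,⟨0,[(6,0)]⟩⟩,⟨false,0,⟨0,[]⟩,
  ⟨0,[]⟩⟩,⟨false,0,⟨0,[]⟩,⟨0,[]⟩⟩,[.e ⟨false,0,⟨0,[(44,0)]⟩,⟨1,[(41,0),(0,0)]⟩⟩ ⟨false,1,⟨0,[(0,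
  0)]⟩,⟨1,[(2,0),(7,0),(5,0)]⟩⟩,.o ⟨false,1,⟨5,[(0,2),(8,0),(6,0),(19,0),(0,1),(4,1)]⟩,⟨0,[(39,
  0)]⟩⟩,.o ⟨false,0,⟨0,[(12,0)]⟩,⟨19,[(0,9),(18,0),(0,0),(5,9),(9,1),(2,9),(2,4)]⟩⟩,.a ⟨true,(-1),
  ⟨0,[(7,0)]⟩,⟨0,[(26,0),(14,0)]⟩⟩ ⟨false,0,⟨0,[]⟩,⟨1,[(19,0),(0,0),(21,0)]⟩⟩ ⟨true,1,⟨0,[(0,0)]⟩,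
  ⟨0,[(7,0),(31,0)]⟩⟩]⟩)))))) (.Q [0,0,-1,-1,1,0,1,0,0,0,1] (.p true [0,0,1] [] (⟨0,[(24,0)]⟩,⟨0,
  [(23,0)]⟩) .k 0 (⟨0,[]⟩,⟨0,[]⟩) .k .k) (.R ⟨0,false,false,true,[1,0,-1],[1,-1],[0,1],(⟨0,[(24,
  0)]⟩,⟨0,[(25,0)]⟩),(⟨0,[(29,0)]⟩,⟨0,[(30,0)]⟩),⟨0,[(13,0)]⟩,.k,.k,.k,.k,.k,.k,⟨false,0,⟨0,[(36,
  0)]⟩,⟨47,[(0,21),(1,3),(3,10),(3,21),(10,6),(10,2),(4,1)]⟩⟩,⟨true,0,⟨0,[(22,0)]⟩,⟨0,[(8,0)]⟩⟩,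
  ⟨false,0,⟨0,[(1,0)]⟩,⟨4,[(0,2),(5,3),(4,0),(10,1),(9,0),(0,0),(2,1)]⟩⟩,⟨true,0,⟨0,[(7,0)]⟩,⟨0,[(9,
  0),(26,0)]⟩⟩,⟨false,0,⟨0,[]⟩,⟨0,[]⟩⟩,⟨false,0,⟨0,[]⟩,⟨0,[]⟩⟩,[.o ⟨false,0,⟨0,[(35,0)]⟩,⟨9,[(15,0),
  (0,0),(15,1),(3,9),(1,4)]⟩⟩,.e ⟨false,1,⟨1,[(15,0),(0,0),(20,0)]⟩,⟨0,[]⟩⟩ ⟨false,1,⟨0,[(0,0)]⟩,⟨5,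
  [(5,3),(6,0),(19,0),(3,1),(0,1)]⟩⟩,.o ⟨false,0,⟨0,[(8,0)]⟩,⟨9,[(0,4),(14,0),(0,0),(5,4),(9,1),(3,
  4)]⟩⟩,.a ⟨true,(-1),⟨0,[(3,0)]⟩,⟨0,[(0,0),(35,0)]⟩⟩ ⟨true,0,⟨0,[(34,0)]⟩,⟨1,[(22,0),(0,0)]⟩⟩
  ⟨false,1,⟨0,[(0,0)]⟩,⟨5,[(5,3),(6,0),(19,0),(0,1),(4,1)]⟩⟩]⟩) (.R ⟨0,false,false,true,[1,0,-1],[1,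
  -1],[0,1],(⟨0,[(24,0)]⟩,⟨0,[(25,0)]⟩),(⟨0,[(29,0)]⟩,⟨0,[(30,0)]⟩),⟨0,[(13,0)]⟩,.k,.k,.k,.k,.k,.k,
  ⟨false,0,⟨0,[(36,0)]⟩,⟨1,[(35,1),(1,0),(0,0)]⟩⟩,⟨true,0,⟨0,[(22,0)]⟩,⟨0,[(8,0)]⟩⟩,⟨false,0,⟨0,[(1,
  0)]⟩,⟨9,[(6,7),(4,1),(10,9),(9,1),(4,4),(0,0)]⟩⟩,⟨true,0,⟨0,[(7,0)]⟩,⟨0,[(9,0),(26,0)]⟩⟩,⟨false,0,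
  ⟨0,[]⟩,⟨0,[]⟩⟩,⟨false,0,⟨0,[]⟩,⟨0,[]⟩⟩,[.o ⟨false,0,⟨0,[(35,0)]⟩,⟨9,[(15,0),(0,0),(15,1),(3,9),(1,
  4)]⟩⟩,.a ⟨true,0,⟨0,[(6,0),(0,0)]⟩,⟨0,[(36,0)]⟩⟩ ⟨false,1,⟨1,[(15,0),(0,0),(20,0)]⟩,⟨0,[]⟩⟩ ⟨true,
  1,⟨1,[(22,1),(12,1),(1,0),(0,0)]⟩,⟨0,[(0,0)]⟩⟩,.o ⟨false,0,⟨0,[(8,0)]⟩,⟨9,[(15,0),(0,0),(5,9),(9,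
  1),(4,4)]⟩⟩,.e ⟨true,0,⟨0,[(34,0)]⟩,⟨1,[(22,0),(0,0)]⟩⟩ ⟨true,1,⟨0,[(22,0),(12,0),(1,0)]⟩,⟨0,[(0,
  0)]⟩⟩]⟩)))) (.I [1,0,-2,-1,1] (.R ⟨0,false,false,true,[1,0,-1],[1,-1],[0,1,1],(⟨0,[(22,0)]⟩,⟨0,
  [(23,0)]⟩),(⟨0,[(27,0)]⟩,⟨0,[(28,0)]⟩),⟨0,[(11,0)]⟩,.k,.k,.k,.k,.k,.k,⟨false,0,⟨0,[(31,0),(6,0)]⟩,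
  ⟨0,[(0,0)]⟩⟩,⟨true,0,⟨0,[(20,0)]⟩,⟨0,[(6,0)]⟩⟩,⟨false,0,⟨6,[(3,4),(1,5),(2,0),(12,0),(8,0),(0,1),
  (4,1)]⟩,⟨0,[(1,0),(2,0)]⟩⟩,⟨true,0,⟨0,[(5,0)]⟩,⟨0,[(7,0),(26,0)]⟩⟩,⟨false,0,⟨0,[]⟩,⟨0,[]⟩⟩,⟨false,
  0,⟨0,[]⟩,⟨0,[]⟩⟩,[.o ⟨false,0,⟨0,[(33,0)]⟩,⟨9,[(13,0),(0,0),(15,1),(3,9),(1,4)]⟩⟩,.a ⟨true,0,⟨0,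
  [(4,0),(0,0)]⟩,⟨0,[(34,0)]⟩⟩ ⟨true,0,⟨1,[(20,0),(0,0)]⟩,⟨0,[]⟩⟩ ⟨false,1,⟨0,[(0,0),(19,0)]⟩,⟨5,
  [(3,3),(6,0),(19,0),(3,1),(0,1)]⟩⟩,.o ⟨false,0,⟨0,[(6,0)]⟩,⟨20,[(1,10),(11,5),(0,5),(5,9),(9,1),
  (6,0)]⟩⟩,.o ⟨false,0,⟨0,[(21,0)]⟩,⟨0,[(1,0)]⟩⟩]⟩) (.R ⟨0,false,false,true,[1,0,-1],[1,-1],[0,1,-1,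
  -1],(⟨0,[(22,0)]⟩,⟨0,[(23,0)]⟩),(⟨0,[(27,0)]⟩,⟨0,[(28,0)]⟩),⟨0,[(11,0)]⟩,.k,.k,.k,.k,.k,.k,⟨false,
  1,⟨1,[(13,0),(0,0),(20,0)]⟩,⟨0,[]⟩⟩,⟨true,0,⟨0,[(20,0)]⟩,⟨0,[(6,0)]⟩⟩,⟨false,1,⟨0,[(5,0),(0,0),
  (25,0),(3,0)]⟩,⟨0,[(0,0),(0,0),(2,0)]⟩⟩,⟨true,0,⟨0,[(5,0)]⟩,⟨0,[(7,0),(26,0)]⟩⟩,⟨false,0,⟨0,[]⟩,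
  ⟨0,[]⟩⟩,⟨false,0,⟨0,[]⟩,⟨0,[]⟩⟩,[.o ⟨false,0,⟨0,[(33,0)]⟩,⟨9,[(13,0),(0,0),(15,1),(3,9),(1,4)]⟩⟩,
  .a ⟨true,0,⟨0,[(4,0),(0,0)]⟩,⟨0,[(34,0)]⟩⟩ ⟨true,1,⟨1,[(1,0),(2,0),(3,0),(24,0)]⟩,⟨0,[(0,0)]⟩⟩
  ⟨false,1,⟨0,[(1,0),(2,0),(0,0)]⟩,⟨5,[(3,3),(6,0),(19,0),(3,1),(0,1)]⟩⟩,.o ⟨false,0,⟨0,[(6,0)]⟩,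
  ⟨20,[(1,10),(11,5),(0,5),(5,9),(9,1),(6,0)]⟩⟩,.o ⟨false,0,⟨0,[(21,0)]⟩,⟨0,[(1,0)]⟩⟩]⟩))))))) (.I
  [1,1,-1,0,0,0,0,1] (.S ⟨1,0,[0,0,0,0,0,0,0,1],[0,0,1],[0,0,1],(⟨0,[(18,0)]⟩,⟨0,[(17,0)]⟩),⟨0,[(7,
  0)]⟩,.k,.k,⟨true,0,⟨0,[(2,0),(12,0)]⟩,⟨0,[(0,0)]⟩⟩,⟨false,1,⟨1,[(8,0),(0,0),(21,0)]⟩,⟨0,[]⟩⟩,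
  ⟨false,0,⟨0,[(1,0),(0,0),(23,0)]⟩,⟨0,[(3,0)]⟩⟩,⟨true,0,⟨0,[(29,0)]⟩,⟨0,[(28,0)]⟩⟩,[.o ⟨false,1,⟨9,
  [(8,0),(0,0),(3,9),(11,1),(5,4)]⟩,⟨0,[(2,0)]⟩⟩,.e ⟨false,1,⟨1,[(8,0),(0,0),(21,0)]⟩,⟨0,[(27,0)]⟩⟩
  ⟨false,1,⟨0,[(0,0),(30,0)]⟩,⟨0,[(1,0),(12,0)]⟩⟩,.a ⟨true,0,⟨0,[(1,0)]⟩,⟨1,[(5,0),(11,0),(0,0)]⟩⟩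
  ⟨true,0,⟨1,[(15,0),(0,0)]⟩,⟨0,[(27,0)]⟩⟩ ⟨false,1,⟨0,[(0,0),(30,0),(0,0)]⟩,⟨0,[(1,0),(0,0)]⟩⟩,.e
  ⟨false,1,⟨1,[(8,0),(0,0),(21,0)]⟩,⟨0,[]⟩⟩ ⟨false,1,⟨0,[(0,0),(30,0)]⟩,⟨0,[(2,0),(12,0)]⟩⟩]⟩) (.I
  [0,1,0,0,0,0,0,1] (.I [0,-1,-1,0,1,0,0,1] (.S ⟨1,0,[0,0,0,0,0,0,0,1],[0,0,1],[0,1,0,0,0,0,0,1],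
  (⟨0,[(20,0)]⟩,⟨0,[(19,0)]⟩),⟨0,[(9,0)]⟩,.k,.k,⟨true,0,⟨0,[(35,0)]⟩,⟨0,[]⟩⟩,⟨false,1,⟨1,[(10,0),(0,
  0),(21,0)]⟩,⟨0,[]⟩⟩,⟨false,0,⟨0,[(31,0)]⟩,⟨0,[(30,0),(2,0)]⟩⟩,⟨true,0,⟨0,[(31,0)]⟩,⟨0,[(30,0)]⟩⟩,
  [.o ⟨false,1,⟨9,[(10,0),(0,0),(3,9),(11,1),(5,4)]⟩,⟨0,[(4,0)]⟩⟩,.e ⟨false,1,⟨3,[(0,2),(0,0),(8,0),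
  (0,0),(14,0)]⟩,⟨0,[(3,0),(0,0)]⟩⟩ ⟨false,1,⟨0,[(0,0)]⟩,⟨0,[(3,0),(12,0)]⟩⟩,.a ⟨true,0,⟨0,[(3,0)]⟩,
  ⟨1,[(7,0),(11,0),(0,0)]⟩⟩ ⟨true,0,⟨0,[(1,0)]⟩,⟨0,[(3,0),(0,0)]⟩⟩ ⟨false,1,⟨1,[(0,0),(14,0),(2,0),
  (14,0)]⟩,⟨0,[(3,0),(0,0)]⟩⟩,.e ⟨false,1,⟨3,[(0,2),(0,0),(8,0),(0,0),(14,0)]⟩,⟨0,[(2,0)]⟩⟩ ⟨false,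
  1,⟨0,[(0,0)]⟩,⟨1,[(2,0),(13,0),(0,0)]⟩⟩]⟩) (.S ⟨1,0,[0,1,0,0,0,0,0,1],[0,0,1],[0,0,0,0,0,0,0,1],
  (⟨0,[(20,0)]⟩,⟨0,[(19,0)]⟩),⟨0,[(9,0)]⟩,.k,.k,⟨false,1,⟨1,[(10,0),(0,0),(21,0)]⟩,⟨0,[]⟩⟩,⟨true,0,
  ⟨0,[(35,0)]⟩,⟨0,[]⟩⟩,⟨true,0,⟨0,[(31,0)]⟩,⟨0,[(30,0)]⟩⟩,⟨false,0,⟨0,[(31,0)]⟩,⟨0,[(30,0),(2,0)]⟩⟩,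
  [.a ⟨true,0,⟨0,[(15,0)]⟩,⟨0,[(2,0),(11,0)]⟩⟩ ⟨false,1,⟨0,[(5,0),(25,0)]⟩,⟨1,[(0,0),(1,0),(29,
  0)]⟩⟩ ⟨true,0,⟨0,[(1,0)]⟩,⟨0,[(2,0)]⟩⟩,.o ⟨false,1,⟨9,[(10,0),(0,0),(3,9),(11,1),(5,4)]⟩,⟨0,[(4,
  0)]⟩⟩,.a ⟨true,0,⟨0,[(3,0)]⟩,⟨1,[(7,0),(11,0),(0,0)]⟩⟩ ⟨false,1,⟨0,[(1,0),(31,0)]⟩,⟨1,[(0,0),(1,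
  0),(29,0)]⟩⟩ ⟨true,0,⟨0,[(1,0)]⟩,⟨1,[(0,0),(1,0),(29,0)]⟩⟩,.a ⟨true,0,⟨0,[(17,0)]⟩,⟨0,[(14,0)]⟩⟩
  ⟨true,1,⟨0,[(5,0),(25,0)]⟩,⟨0,[(0,0)]⟩⟩ ⟨false,1,⟨0,[(5,0),(25,0)]⟩,⟨0,[(2,0)]⟩⟩]⟩)) (.Q [0,0,0,
  -1,0,0,0,0,0,1] (.pp false [-1,1]) (.Q [0,0,-1,0,1,0,1,0,0,-2,1] (.p true [-1,1,1] [1] (⟨0,[(8,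
  0)]⟩,⟨0,[(19,0),(4,0)]⟩) .k 1 (⟨0,[]⟩,⟨0,[]⟩) .k .k) (.R ⟨0,false,false,true,[-1,1,1],[0,0,1],[0,
  1,1,0,0,0,0,1],(⟨0,[(9,0)]⟩,⟨0,[(20,0),(4,0)]⟩),(⟨0,[(21,0)]⟩,⟨0,[(20,0)]⟩),⟨0,[(20,0)]⟩,.k,.k,.k,
  .k,.k,.k,⟨true,0,⟨1,[(18,0),(0,0)]⟩,⟨0,[]⟩⟩,⟨false,0,⟨0,[(1,0),(30,0)]⟩,⟨9,[(11,0),(0,0),(15,1),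
  (4,4)]⟩⟩,⟨true,0,⟨0,[(31,0)]⟩,⟨0,[(32,0)]⟩⟩,⟨false,0,⟨0,[(1,0)]⟩,⟨9,[(11,0),(0,0),(15,1),(3,9),(1,
  4)]⟩⟩,⟨false,0,⟨0,[]⟩,⟨0,[]⟩⟩,⟨false,0,⟨0,[]⟩,⟨0,[]⟩⟩,[.a ⟨true,0,⟨0,[(16,0)]⟩,⟨3,[(1,0),(0,2),(4,
  0),(0,0),(6,0),(13,0)]⟩⟩ ⟨true,0,⟨0,[(16,0),(2,0)]⟩,⟨0,[(2,0)]⟩⟩ ⟨false,0,⟨4,[(1,0),(5,0),(0,1),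
  (6,0),(0,5),(12,0)]⟩,⟨11,[(0,1),(1,9),(4,1),(20,1),(4,4),(0,0)]⟩⟩,.o ⟨false,1,⟨9,[(11,0),(0,0),(3,
  9),(11,1),(5,4)]⟩,⟨0,[(5,0)]⟩⟩,.o ⟨false,1,⟨0,[(0,0)]⟩,⟨0,[(8,0),(9,0)]⟩⟩,.o ⟨false,1,⟨49,[(0,24),
  (10,2),(0,2),(5,24),(9,9),(5,1),(1,3)]⟩,⟨4,[(1,0),(5,0),(0,1),(6,0),(0,0),(12,0)]⟩⟩]⟩) (.Q [0,0,1,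
  0,-1,0,-2,0,0,2,-2] (.p false [0,0,1] [2,-1,-1] (⟨0,[(21,0)]⟩,⟨0,[(20,0)]⟩) .k 2 (⟨0,[(20,0),(4,
  0)]⟩,⟨0,[(9,0)]⟩) .k (.x (-1) ⟨19,[(4,33),(13,5),(1,39),(7,7),(4,2),(0,0),(1,1)]⟩ ⟨0,[(8,0),(0,0),
  (0,0)]⟩)) (.Q [0,0,1,0,0,0,2,0,0,-1,2] (.p true [0,0,1] [1,0,-1] (⟨0,[(22,0)]⟩,⟨0,[(21,0)]⟩) .k 2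
  (⟨0,[(21,0)]⟩,⟨0,[(22,0)]⟩) .k (.x (-1) ⟨19,[(5,33),(13,5),(1,39),(7,7),(4,2),(0,0),(1,1)]⟩ ⟨0,
  [(9,0),(0,0),(0,0)]⟩)) (.I [0,0,2,2,-1,0,0,-1] (.I [0,0,1,1,-1,0,0,-2] (.K ⟨0,[1,1,-1],0,(-1),(⟨0,
  [(24,0),(5,0)]⟩,⟨0,[(14,0)]⟩),.k,.k,(.r 1 ⟨0,[(1,0)]⟩ ⟨9,[(5,9),(4,9),(4,0),(0,0),(15,1),(4,4)]⟩),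
  (.r 1 ⟨0,[(0,0)]⟩ ⟨22,[(10,34),(1,4),(2,8),(0,8),(3,10),(2,0),(8,0),(0,10),(2,0)]⟩),.k,[⟨0,[(2,
  0)]⟩,⟨5,[(4,1),(7,1),(2,0),(0,0),(20,0)]⟩,⟨9,[(10,4),(4,0),(0,0),(3,4),(1,4),(9,1),(2,4)]⟩,⟨2,[(0,
  0),(0,0),(1,0),(15,0),(14,2)]⟩]⟩) (.K ⟨0,[1,1,-1],0,(-1),(⟨0,[(24,0),(5,0)]⟩,⟨0,[(14,0)]⟩),.k,.k,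
  (.r 1 ⟨0,[(1,0)]⟩ ⟨9,[(5,9),(4,9),(4,0),(0,0),(15,1),(4,4)]⟩),(.x 0 ⟨10,[(0,15),(0,7),(0,0),(0,
  11),(2,23),(6,12),(0,8),(11,14),(5,1),(1,23)]⟩ ⟨4,[(2,4),(12,2),(0,2),(7,9),(5,4),(1,0)]⟩),.k,[⟨0,
  [(2,0)]⟩,⟨4,[(0,0),(3,0),(6,1),(0,0),(23,0)]⟩,⟨9,[(10,4),(4,0),(0,0),(3,4),(1,4),(9,1),(2,4)]⟩,⟨1,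
  [(1,0),(1,0),(2,0),(27,2)]⟩]⟩)) (.Q [0,1,0,1,-1,0,-1,-1,0,1,-1] (.p false [0,0,1] [1] (⟨0,[(24,
  0)]⟩,⟨0,[(23,0)]⟩) .k 1 (⟨0,[]⟩,⟨0,[]⟩) .k .k) (.K ⟨0,[1,1,-1],0,(-1),(⟨0,[(24,0),(5,0)]⟩,⟨0,[(14,
  0)]⟩),.k,.k,(.x (-1) ⟨2,[(1,0),(4,0),(7,2),(4,2),(6,0),(2,1),(2,0),(1,0),(1,1)]⟩ ⟨0,[(2,0),(20,0),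
  (0,0),(5,1)]⟩),(.x 0 ⟨6,[(1,7),(0,4),(0,11),(2,7),(6,8),(0,4),(11,10),(5,1),(1,7),(1,15)]⟩ ⟨4,[(2,
  4),(12,2),(0,2),(7,9),(5,4),(1,0)]⟩),.k,[⟨0,[(2,0)]⟩,⟨5,[(4,1),(7,1),(2,0),(0,0),(20,0)]⟩,⟨9,[(10,
  4),(4,0),(0,0),(3,4),(1,4),(9,1),(2,4)]⟩,⟨0,[(0,0)]⟩]⟩) (.R ⟨0,false,false,false,[1,0,-1],[0,-1,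
  1],[0,1],(⟨0,[(24,0)]⟩,⟨0,[(25,0)]⟩),(⟨0,[(14,0)]⟩,⟨0,[(24,0),(5,0)]⟩),⟨0,[(13,0)]⟩,.k,.k,.k,(.r
  0 ⟨2,[(2,1),(3,0),(0,0),(3,1),(9,1),(14,2)]⟩ ⟨0,[(0,1),(2,0),(30,1),(1,0)]⟩),.k,.k,⟨false,0,⟨4,
  [(2,1),(3,0),(4,1),(9,1),(9,1),(4,4)]⟩,⟨0,[(0,0),(18,0)]⟩⟩,⟨true,0,⟨0,[(2,0)]⟩,⟨0,[(12,0)]⟩⟩,
  ⟨false,1,⟨22,[(10,11),(1,4),(2,8),(0,8),(3,10),(2,0),(8,0),(0,10),(2,0)]⟩,⟨0,[(6,0)]⟩⟩,⟨true,1,⟨0,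
  [(0,0),(19,0)]⟩,⟨4,[(2,3),(0,6),(2,5),(2,3),(22,0),(1,10),(1,4)]⟩⟩,⟨false,0,⟨0,[]⟩,⟨0,[]⟩⟩,⟨false,
  0,⟨0,[]⟩,⟨0,[]⟩⟩,[.o ⟨false,1,⟨8,[(0,3),(9,2),(9,1),(1,2),(9,0),(2,1)]⟩,⟨0,[(9,0),(26,0)]⟩⟩,.o
  ⟨false,1,⟨0,[(0,0)]⟩,⟨0,[(21,0),(14,0)]⟩⟩,.a ⟨true,0,⟨5,[(4,1),(7,1),(2,0),(0,0),(20,0)]⟩,⟨0,[(8,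
  0)]⟩⟩ ⟨true,0,⟨0,[(40,0)]⟩,⟨0,[]⟩⟩ ⟨false,1,⟨0,[(0,0),(7,0)]⟩,⟨1,[(9,0),(1,0),(0,0),(23,1)]⟩⟩,.o
  ⟨false,0,⟨0,[(23,0)]⟩,⟨19,[(2,9),(12,0),(0,0),(15,1),(4,14)]⟩⟩]⟩))) (.Q [0,1,0,0,-1,0,-1,-1,0,1,
  -1] (.p false [0,0,1] [1] (⟨0,[(23,0)]⟩,⟨0,[(22,0)]⟩) .k 1 (⟨0,[]⟩,⟨0,[]⟩) .k .k) (.I [1,1,1,0,-1,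
  0,0,-1] (.I [0,0,-1,-1,1,0,0,1] (.S ⟨1,0,[0,1,0,0,0,0,0,1],[0,0,1],[0,0,0,0,0,0,0,1],(⟨0,[(26,
  0)]⟩,⟨0,[(25,0)]⟩),⟨0,[(15,0)]⟩,.k,.k,⟨false,1,⟨1,[(16,0),(0,0),(21,0)]⟩,⟨0,[]⟩⟩,⟨true,0,⟨0,[(41,
  0)]⟩,⟨0,[]⟩⟩,⟨true,0,⟨0,[(37,0)]⟩,⟨0,[(36,0)]⟩⟩,⟨false,0,⟨0,[(37,0)]⟩,⟨9,[(6,9),(9,0),(0,0),(15,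
  1),(5,4)]⟩⟩,[.e ⟨false,1,⟨0,[(11,0),(25,0)]⟩,⟨1,[(7,0),(1,0),(12,0)]⟩⟩ ⟨false,1,⟨29,[(11,19),(1,
  4),(2,7),(0,7),(3,9),(10,9),(0,0),(3,19)]⟩,⟨0,[(7,0)]⟩⟩,.o ⟨false,1,⟨9,[(16,0),(0,0),(3,9),(11,1),
  (5,4)]⟩,⟨0,[(10,0)]⟩⟩,.e ⟨false,1,⟨0,[(0,0),(33,0)]⟩,⟨1,[(7,0),(1,0),(12,0)]⟩⟩ ⟨false,1,⟨22,[(11,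
  11),(1,4),(2,8),(0,8),(3,10),(2,0),(8,0),(0,10),(2,0)]⟩,⟨0,[(7,0)]⟩⟩,.a ⟨true,0,⟨0,[(23,0)]⟩,⟨0,
  [(20,0)]⟩⟩ ⟨true,1,⟨0,[(11,0),(25,0)]⟩,⟨0,[(1,0)]⟩⟩ ⟨false,1,⟨0,[(11,0),(25,0)]⟩,⟨0,[(8,0)]⟩⟩]⟩)
  (.N [0,-1,1] (-1) ⟨0,[(11,0)]⟩ ⟨0,[(0,0)]⟩ .k)) (.I [0,1,0,1,0,0,0,1] (.R ⟨0,false,false,true,[-1,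
  1,1],[1,0,-1],[1,0,1],(⟨0,[(14,0)]⟩,⟨0,[(25,0),(4,0)]⟩),(⟨0,[(25,0)]⟩,⟨0,[(26,0)]⟩),⟨0,[(25,0)]⟩,
  .k,.k,.k,(.r (-1) ⟨0,[(0,0),(20,0),(2,0),(14,0)]⟩ ⟨0,[(7,1),(27,0),(0,0)]⟩),.k,.k,⟨false,1,⟨1,[(1,
  0),(19,0),(2,0),(14,0)]⟩,⟨0,[(7,0),(24,0)]⟩⟩,⟨true,(-1),⟨0,[(4,0)]⟩,⟨19,[(9,33),(13,5),(9,7),(4,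
  2),(0,0),(1,1)]⟩⟩,⟨true,0,⟨0,[(7,0),(28,0)]⟩,⟨0,[(0,0)]⟩⟩,⟨false,(-1),⟨2,[(2,1),(0,0),(0,0),(1,0),
  (0,3),(28,1)]⟩,⟨4,[(1,2),(7,2),(11,6),(11,1),(0,2),(2,1),(1,2)]⟩⟩,⟨false,0,⟨0,[]⟩,⟨0,[]⟩⟩,⟨false,
  0,⟨0,[]⟩,⟨0,[]⟩⟩,[.e ⟨false,0,⟨0,[]⟩,⟨1,[(16,0),(0,0),(20,0)]⟩⟩ ⟨false,(-1),⟨4,[(2,2),(1,1),(7,1),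
  (7,0),(11,0)]⟩,⟨4,[(1,2),(7,7),(11,1),(11,1),(4,0),(0,1)]⟩⟩,.o ⟨false,0,⟨0,[(10,0)]⟩,⟨9,[(16,0),
  (0,0),(3,9),(11,1),(5,4)]⟩⟩,.a ⟨true,1,⟨4,[(9,3),(13,0),(9,0),(4,2)]⟩,⟨0,[(5,0)]⟩⟩ ⟨true,0,⟨1,
  [(23,0),(0,0)]⟩,⟨0,[(35,0)]⟩⟩ ⟨false,(-1),⟨2,[(2,0),(1,1),(3,0),(3,0)]⟩,⟨4,[(1,2),(7,7),(11,1),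
  (11,1),(4,0),(0,1)]⟩⟩,.o ⟨false,1,⟨19,[(9,13),(13,5),(9,7),(4,2),(0,0),(1,1)]⟩,⟨6,[(0,0),(0,0),(2,
  1),(6,0),(0,2)]⟩⟩]⟩) (.R ⟨0,false,false,false,[-1,1,1],[1,0,-1],[1,0,1,1,0,0,0,1],(⟨0,[(14,0)]⟩,
  ⟨0,[(25,0),(4,0)]⟩),(⟨0,[(25,0)]⟩,⟨0,[(26,0)]⟩),⟨0,[(25,0)]⟩,.k,.k,.k,(.r (-1) ⟨3,[(1,2),(14,0),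
  (0,0),(3,4),(2,4),(9,1),(2,1)]⟩ ⟨0,[(0,0),(6,0),(24,0)]⟩),.k,.k,⟨false,1,⟨0,[(1,0),(19,0),(2,0),
  (12,0)]⟩,⟨0,[(0,0),(6,0),(24,0)]⟩⟩,⟨true,(-1),⟨0,[(4,0)]⟩,⟨19,[(9,33),(13,5),(9,7),(4,2),(0,0),(1,
  1)]⟩⟩,⟨true,0,⟨0,[]⟩,⟨0,[(41,0)]⟩⟩,⟨false,(-1),⟨1,[(0,1),(1,0),(1,0),(2,0),(12,0)]⟩,⟨4,[(16,0),(0,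
  0),(3,9),(11,1),(3,4),(1,4)]⟩⟩,⟨false,0,⟨0,[]⟩,⟨0,[]⟩⟩,⟨false,0,⟨0,[]⟩,⟨0,[]⟩⟩,[.o ⟨false,0,⟨0,
  [(10,0)]⟩,⟨9,[(16,0),(0,0),(3,9),(11,1),(5,4)]⟩⟩,.a ⟨true,0,⟨4,[(4,0),(2,2),(4,1),(7,0),(18,0)]⟩,
  ⟨0,[(21,0)]⟩⟩ ⟨false,1,⟨3,[(1,2),(14,0),(0,0),(3,0),(2,0),(9,1),(2,1)]⟩,⟨0,[(0,0),(31,0)]⟩⟩ ⟨true,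
  (-1),⟨0,[(4,0),(2,0)]⟩,⟨19,[(9,13),(11,19),(1,5),(9,7),(4,2),(0,0),(1,1)]⟩⟩,.e ⟨false,1,⟨1,[(1,0),
  (14,0),(0,0),(3,0),(2,0),(9,1)]⟩,⟨0,[(0,0),(34,0)]⟩⟩ ⟨false,(-1),⟨0,[(4,0),(2,0)]⟩,⟨9,[(9,5),(11,
  9),(1,3),(9,3),(4,6),(0,4)]⟩⟩,.o ⟨false,1,⟨19,[(9,13),(13,5),(9,7),(4,2),(0,0),(1,1)]⟩,⟨4,[(1,0),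
  (2,0),(7,1),(0,0),(7,0)]⟩⟩]⟩))) (.R ⟨0,false,false,true,[-1,1,1],[1,0,-1],[0,1,1,0,0,0,0,1],(⟨0,
  [(12,0)]⟩,⟨0,[(23,0),(4,0)]⟩),(⟨0,[(23,0)]⟩,⟨0,[(24,0)]⟩),⟨0,[(23,0)]⟩,.k,.k,.k,(.r (-1) ⟨23,[(0,
  12),(10,22),(2,6),(0,6),(3,34),(2,1),(8,1),(0,21),(2,1)]⟩ ⟨0,[(5,1),(27,0),(0,0)]⟩),.k,.k,⟨false,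
  1,⟨0,[(0,0),(10,0),(7,0)]⟩,⟨0,[(5,1),(24,0)]⟩⟩,⟨true,(-1),⟨0,[(2,0)]⟩,⟨19,[(7,33),(13,5),(9,7),(4,
  2),(0,0),(1,1)]⟩⟩,⟨true,0,⟨0,[(34,0)]⟩,⟨0,[(35,0)]⟩⟩,⟨false,(-1),⟨0,[(2,0),(2,1),(27,0),(0,0)]⟩,
  ⟨9,[(0,14),(13,2),(0,2),(3,4),(11,0),(3,9)]⟩⟩,⟨false,0,⟨0,[]⟩,⟨0,[]⟩⟩,⟨false,0,⟨0,[]⟩,⟨0,[]⟩⟩,[.o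
  ⟨false,0,⟨0,[(20,0)]⟩,⟨0,[(0,0)]⟩⟩,.o ⟨false,0,⟨0,[(8,0)]⟩,⟨20,[(0,10),(13,5),(0,5),(3,9),(11,1),
  (7,0)]⟩⟩,.a ⟨true,1,⟨4,[(7,3),(13,0),(9,0),(4,2)]⟩,⟨0,[(3,0)]⟩⟩ ⟨true,0,⟨0,[(19,0),(2,0)]⟩,⟨0,[(5,
  0),(27,0)]⟩⟩ ⟨false,(-1),⟨1,[(2,0),(0,0),(1,0),(14,0)]⟩,⟨4,[(0,4),(6,3),(13,0),(9,0),(4,2)]⟩⟩,.o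
  ⟨false,1,⟨19,[(7,13),(13,5),(9,7),(4,2),(0,0),(1,1)]⟩,⟨5,[(3,1),(7,1),(2,0),(0,0),(20,0)]⟩⟩]⟩)))
  (.K ⟨0,[2,-1,-1],(-1),(-1),(⟨0,[(21,0),(4,0)]⟩,⟨0,[(10,0)]⟩),.k,(.r (-1) ⟨1,[(0,0),(2,2),(3,0),(8,
  1),(15,2)]⟩ ⟨0,[(17,0),(2,0),(9,0),(2,0)]⟩),.k,(.r 0 ⟨0,[(3,1),(27,0),(0,0)]⟩ ⟨22,[(7,12),(1,14),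
  (2,3),(0,3),(3,32),(2,2),(8,2),(0,32),(2,2)]⟩),.k,[⟨0,[(0,0)]⟩,⟨1,[(1,1),(17,0),(0,0)]⟩,⟨4,[(12,
  0),(0,0),(3,4),(11,1),(3,4)]⟩,⟨0,[(1,0),(1,0),(27,0),(0,0)]⟩]⟩))) (.R ⟨0,false,false,false,[1,0,
  -1],[0,1],[0,1,1],(⟨0,[(19,0)]⟩,⟨0,[(20,0)]⟩),(⟨0,[(25,0)]⟩,⟨0,[(24,0)]⟩),⟨0,[(8,0)]⟩,.k,.k,.k,.k,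
  .k,.k,⟨true,0,⟨0,[(30,0)]⟩,⟨0,[(28,0)]⟩⟩,⟨false,1,⟨0,[(0,0),(0,0),(1,0),(1,0),(23,0)]⟩,⟨0,[(7,0),
  (9,0)]⟩⟩,⟨true,0,⟨0,[(15,0),(2,0)]⟩,⟨0,[(1,0),(27,0)]⟩⟩,⟨false,1,⟨0,[(0,0),(14,0),(17,0)]⟩,⟨0,[(2,
  0),(11,0),(15,0)]⟩⟩,⟨false,0,⟨0,[]⟩,⟨0,[]⟩⟩,⟨false,0,⟨0,[]⟩,⟨0,[]⟩⟩,[.o ⟨false,0,⟨0,[(0,0)]⟩,⟨1,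
  [(10,0),(0,0),(18,1),(2,0)]⟩⟩,.o ⟨false,1,⟨9,[(10,0),(0,0),(15,1),(3,9),(1,4)]⟩,⟨0,[(30,0)]⟩⟩,.a
  ⟨true,0,⟨1,[(7,0),(11,0),(0,0)]⟩,⟨0,[(3,0)]⟩⟩ ⟨false,0,⟨1,[(17,0),(0,0)]⟩,⟨1,[(32,0),(0,0)]⟩⟩
  ⟨true,0,⟨0,[(0,0),(2,0)]⟩,⟨1,[(7,0),(11,0),(0,0),(9,1)]⟩⟩,.o ⟨false,0,⟨0,[(18,0)]⟩,⟨4,[(3,3),(13,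
  0),(9,0),(4,2)]⟩⟩]⟩)))))

theorem ok1 : chk K t1 l2 = true := by decide +kernel

noncomputable def t2 : Tre :=
  (.I [1,0,0,0,0,0,0,1] (.Q [0,0,0,1,0,0,-1,-1,0,0,-1] (.p false [0,0,1] [] (⟨0,[(17,0)]⟩,⟨0,[(16,
  0)]⟩) .k 0 (⟨0,[]⟩,⟨0,[]⟩) .k .k) (.I [1,0,0,-1,0,0,0,1] (.R ⟨2,true,false,false,[0,1],[0,0,1],[0,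
  1,1,1],(⟨0,[]⟩,⟨0,[]⟩),(⟨0,[(19,0)]⟩,⟨0,[(18,0)]⟩),⟨0,[]⟩,.k,.k,.k,.k,.k,.k,⟨false,0,⟨0,[(1,0),
  (14,0),(11,0)]⟩,⟨1,[(0,1),(30,0),(0,0)]⟩⟩,⟨true,0,⟨0,[(16,0)]⟩,⟨0,[(0,0),(0,0)]⟩⟩,⟨true,0,⟨0,[(34,
  0)]⟩,⟨0,[]⟩⟩,⟨false,1,⟨0,[(3,0),(25,0),(2,0)]⟩,⟨0,[(1,0)]⟩⟩,⟨false,0,⟨0,[(30,0)]⟩,⟨0,[(29,0),(2,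
  0)]⟩⟩,⟨true,0,⟨0,[(3,0)]⟩,⟨0,[(15,0)]⟩⟩,[]⟩) (.Q [0,0,0,0,0,0,1,0,0,0,1] (.p true [0,0,1] [] (⟨0,
  [(19,0)]⟩,⟨0,[(18,0)]⟩) .k 0 (⟨0,[]⟩,⟨0,[]⟩) .k .k) (.I [0,0,0,0,0,0,0,1] (.S ⟨1,1,[],[0,0,1],[1,
  1],(⟨0,[(21,0)]⟩,⟨0,[(20,0)]⟩),⟨0,[(10,0)]⟩,.k,.k,⟨true,0,⟨0,[(1,0),(15,0)]⟩,⟨0,[(0,0)]⟩⟩,⟨false,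
  1,⟨9,[(7,9),(3,0),(0,0),(15,1),(5,4)]⟩,⟨0,[(5,0)]⟩⟩,⟨false,0,⟨0,[(2,0)]⟩,⟨0,[(4,0),(26,0),(2,
  0)]⟩⟩,⟨true,0,⟨0,[(3,0)]⟩,⟨0,[(5,0),(25,0)]⟩⟩,[.fo,.o ⟨false,1,⟨9,[(11,0),(0,0),(15,1),(5,4)]⟩,⟨0,
  [(36,0)]⟩⟩,.e ⟨false,0,⟨0,[]⟩,⟨1,[(11,0),(0,0),(21,0)]⟩⟩ ⟨false,1,⟨9,[(8,4),(2,2),(0,2),(15,0),(5,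
  4)]⟩,⟨0,[(1,0)]⟩⟩,.a ⟨true,0,⟨0,[(18,0)]⟩,⟨0,[(15,0)]⟩⟩ ⟨true,0,⟨0,[(30,0)]⟩,⟨1,[(18,0),(0,0)]⟩⟩
  ⟨false,1,⟨5,[(8,0),(6,3),(12,0),(4,0),(0,2)]⟩,⟨0,[(18,0)]⟩⟩]⟩) (.N [0,0,1] 0 ⟨0,[(4,0)]⟩ ⟨0,[(0,
  0)]⟩ .k)) (.R ⟨2,true,false,false,[0,1],[0,0,1],[1,1,1],(⟨0,[]⟩,⟨0,[]⟩),(⟨0,[(20,0)]⟩,⟨0,[(19,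
  0)]⟩),⟨0,[]⟩,.k,.k,.k,.k,.k,.k,⟨false,0,⟨0,[(1,0),(28,0)]⟩,⟨1,[(3,1),(28,0),(0,0)]⟩⟩,⟨true,0,⟨0,
  [(17,0)]⟩,⟨0,[(0,0)]⟩⟩,⟨true,0,⟨0,[(30,0)]⟩,⟨0,[(31,0)]⟩⟩,⟨false,1,⟨0,[(4,0),(25,0),(2,0)]⟩,⟨0,
  [(2,0)]⟩⟩,⟨false,0,⟨0,[]⟩,⟨1,[(10,0),(0,0),(21,0)]⟩⟩,⟨true,0,⟨0,[(4,0)]⟩,⟨0,[(16,0)]⟩⟩,[]⟩))) (.Q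
  [0,1,-1,0,0,0,-1,0,0,0,-1] (.p false [0,0,1] [] (⟨0,[(18,0)]⟩,⟨0,[(17,0)]⟩) .k 0 (⟨0,[]⟩,⟨0,[]⟩)
  .k .k) (.I [0,0,-1,0,0,0,0,1] (.I [1,0,-1,0,1,0,0,-1] (.I [0,0,1,1,0,0,0,-1] (.Q [0,0,0,0,0,0,-1,
  0,0,0,-1] (.p false [0,0,1] [] (⟨0,[(22,0)]⟩,⟨0,[(21,0)]⟩) .k 0 (⟨0,[]⟩,⟨0,[]⟩) .k .k) (.S ⟨1,0,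
  [0,0,0,0,0,0,0,1],[0,0,1],[1,1,1],(⟨0,[(23,0)]⟩,⟨0,[(22,0)]⟩),⟨0,[(12,0)]⟩,.k,.k,⟨true,0,⟨0,[(1,
  0),(31,0)]⟩,⟨0,[(3,0)]⟩⟩,⟨false,1,⟨1,[(1,0),(6,0),(27,0)]⟩,⟨0,[]⟩⟩,⟨false,0,⟨0,[(1,0)]⟩,⟨5,[(5,4),
  (2,0),(8,4),(12,0),(5,2)]⟩⟩,⟨true,0,⟨0,[(34,0)]⟩,⟨0,[(33,0)]⟩⟩,[.e ⟨false,0,⟨0,[(38,0)]⟩,⟨1,[(35,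
  0),(0,0)]⟩⟩ ⟨false,0,⟨0,[(3,0)]⟩,⟨1,[(2,1),(17,0),(0,0)]⟩⟩,.o ⟨false,1,⟨4,[(7,3),(10,0),(11,0),(5,
  2)]⟩,⟨0,[(19,0)]⟩⟩,.o ⟨false,1,⟨9,[(2,3),(4,1),(10,1),(1,5),(9,1),(4,0),(0,0)]⟩,⟨0,[(0,0)]⟩⟩,.a
  ⟨true,0,⟨0,[(20,0)]⟩,⟨0,[(17,0)]⟩⟩ ⟨false,0,⟨0,[]⟩,⟨1,[(1,0),(6,0),(27,0)]⟩⟩ ⟨true,0,⟨0,[(3,0)]⟩,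
  ⟨0,[(1,0),(31,0)]⟩⟩]⟩) (.S ⟨1,0,[0,0,0,0,0,0,0,1],[0,0,1],[0,1,1],(⟨0,[(23,0)]⟩,⟨0,[(22,0)]⟩),⟨0,
  [(12,0)]⟩,.k,.k,⟨true,0,⟨0,[(1,0),(31,0)]⟩,⟨0,[(3,0)]⟩⟩,⟨false,1,⟨1,[(1,0),(6,0),(27,0)]⟩,⟨0,[]⟩⟩,
  ⟨false,0,⟨0,[(1,0)]⟩,⟨5,[(5,4),(2,0),(8,4),(12,0),(5,2)]⟩⟩,⟨true,0,⟨0,[(34,0)]⟩,⟨0,[(33,0)]⟩⟩,[.e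
  ⟨false,0,⟨0,[(38,0)]⟩,⟨1,[(35,0),(0,0)]⟩⟩ ⟨false,0,⟨0,[(3,0)]⟩,⟨1,[(2,1),(17,0),(0,0)]⟩⟩,.o
  ⟨false,1,⟨4,[(7,3),(10,0),(11,0),(5,2)]⟩,⟨0,[(19,0)]⟩⟩,.a ⟨true,0,⟨0,[(0,0)]⟩,⟨1,[(10,0),(11,0),
  (0,0)]⟩⟩ ⟨false,0,⟨1,[(20,0),(0,0)]⟩,⟨1,[(35,0),(0,0)]⟩⟩ ⟨true,0,⟨0,[(3,0),(33,0)]⟩,⟨0,[(0,0),(18,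
  0)]⟩⟩,.e ⟨true,0,⟨0,[(38,0)]⟩,⟨0,[]⟩⟩ ⟨true,0,⟨0,[(3,0)]⟩,⟨0,[(1,0),(31,0)]⟩⟩]⟩)) (.I [0,-1,0,1,1,
  0,0,-1] (.S ⟨1,0,[0,0,0,0,0,0,0,1],[0,0,1],[1,1,0,-1,0,0,0,1],(⟨0,[(23,0)]⟩,⟨0,[(22,0)]⟩),⟨0,[(12,
  0)]⟩,.k,.k,⟨true,0,⟨0,[(33,0)]⟩,⟨0,[(34,0)]⟩⟩,⟨false,1,⟨5,[(0,1),(7,1),(11,0),(0,0),(14,1)]⟩,⟨0,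
  []⟩⟩,⟨false,0,⟨0,[]⟩,⟨5,[(0,1),(7,1),(11,0),(0,0),(14,1)]⟩⟩,⟨true,0,⟨0,[(34,0)]⟩,⟨0,[(33,0)]⟩⟩,
  [.e ⟨false,0,⟨2,[(1,1),(2,0),(13,0),(14,0)]⟩,⟨0,[(0,0)]⟩⟩ ⟨false,0,⟨0,[(3,0)]⟩,⟨0,[(0,0),(32,
  0)]⟩⟩,.o ⟨false,1,⟨4,[(7,3),(10,0),(11,0),(5,2)]⟩,⟨0,[(19,0)]⟩⟩,.o ⟨false,1,⟨9,[(2,3),(4,1),(10,
  1),(1,5),(9,1),(4,0),(0,0)]⟩,⟨0,[(1,0),(17,0),(11,0)]⟩⟩,.a ⟨true,0,⟨0,[(20,0)]⟩,⟨0,[(17,0)]⟩⟩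
  ⟨false,0,⟨0,[(1,0)]⟩,⟨1,[(0,1),(19,0),(0,0)]⟩⟩ ⟨true,0,⟨0,[(3,0)]⟩,⟨0,[(19,0),(0,0)]⟩⟩]⟩) (.R ⟨0,
  false,false,true,[1,0,-1],[1,-1],[0,1],(⟨0,[(22,0)]⟩,⟨0,[(23,0)]⟩),(⟨0,[(27,0)]⟩,⟨0,[(28,0)]⟩),⟨0,
  [(11,0)]⟩,.k,.k,.k,.k,.k,.k,⟨false,0,⟨0,[(34,0)]⟩,⟨3,[(1,0),(0,1),(5,0),(24,1),(2,0)]⟩⟩,⟨true,0,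
  ⟨0,[(20,0)]⟩,⟨5,[(0,1),(2,0),(5,2),(0,0),(6,0),(12,0),(0,1)]⟩⟩,⟨true,(-1),⟨0,[(0,0),(33,0)]⟩,⟨1,
  [(2,1),(17,0),(0,0)]⟩⟩,⟨false,0,⟨0,[(5,0)]⟩,⟨5,[(2,1),(6,3),(0,0),(19,0),(0,1),(2,3),(1,1)]⟩⟩,
  ⟨false,0,⟨0,[]⟩,⟨0,[]⟩⟩,⟨false,0,⟨0,[]⟩,⟨0,[]⟩⟩,[.o ⟨false,0,⟨0,[(33,0)]⟩,⟨9,[(13,0),(0,0),(15,1),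
  (3,9),(1,4)]⟩⟩,.e ⟨false,1,⟨1,[(2,0),(5,0),(25,0)]⟩,⟨0,[]⟩⟩ ⟨false,1,⟨0,[(2,0),(2,0)]⟩,⟨0,[(4,0),
  (26,0)]⟩⟩,.o ⟨false,0,⟨5,[(0,1),(2,0),(5,2),(0,0),(6,0),(12,0),(0,1)]⟩,⟨9,[(2,3),(4,1),(10,1),(1,
  5),(9,1),(4,0),(0,0)]⟩⟩,.a ⟨true,(-1),⟨0,[(0,0),(8,0),(21,0)]⟩,⟨0,[(2,0),(4,0)]⟩⟩ ⟨true,0,⟨0,[(32,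
  0)]⟩,⟨1,[(20,0),(0,0)]⟩⟩ ⟨false,1,⟨0,[(2,0),(2,0)]⟩,⟨5,[(0,1),(2,0),(5,2),(0,0),(6,0),(12,0),(0,
  7)]⟩⟩]⟩))) (.Q [0,0,-1,-1,1,0,1,0,0,0,1] (.p true [0,0,1] [] (⟨0,[(21,0)]⟩,⟨0,[(20,0)]⟩) .k 0 (⟨0,
  []⟩,⟨0,[]⟩) .k .k) (.R ⟨0,false,false,true,[1,0,-1],[1,-1],[0,1],(⟨0,[(21,0)]⟩,⟨0,[(22,0)]⟩),(⟨0,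
  [(26,0)]⟩,⟨0,[(27,0)]⟩),⟨0,[(10,0)]⟩,.k,.k,.k,.k,.k,.k,⟨false,0,⟨0,[(33,0)]⟩,⟨9,[(0,4),(6,0),(0,
  0),(7,3),(12,0),(2,3),(2,1)]⟩⟩,⟨true,0,⟨0,[(19,0)]⟩,⟨5,[(1,1),(6,1),(0,0),(6,1),(12,0)]⟩⟩,⟨true,
  (-1),⟨0,[(1,0),(29,0)]⟩,⟨0,[(0,0),(17,0),(11,0)]⟩⟩,⟨false,0,⟨0,[(4,0)]⟩,⟨9,[(8,9),(3,0),(0,0),(15,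
  1),(3,9),(1,4)]⟩⟩,⟨false,0,⟨0,[]⟩,⟨0,[]⟩⟩,⟨false,0,⟨0,[]⟩,⟨0,[]⟩⟩,[.o ⟨false,0,⟨0,[(32,0)]⟩,⟨9,
  [(12,0),(0,0),(15,1),(3,9),(1,4)]⟩⟩,.e ⟨false,1,⟨1,[(12,0),(0,0),(20,0)]⟩,⟨0,[]⟩⟩ ⟨false,1,⟨0,[(0,
  0)]⟩,⟨0,[(3,0),(26,0)]⟩⟩,.o ⟨false,0,⟨5,[(1,1),(6,1),(0,0),(6,1),(12,0)]⟩,⟨9,[(0,4),(11,0),(0,0),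
  (5,4),(9,1),(3,4)]⟩⟩,.a ⟨true,(-1),⟨0,[(1,0),(6,0)]⟩,⟨0,[(0,0),(32,0)]⟩⟩ ⟨true,0,⟨0,[(31,0)]⟩,⟨1,
  [(19,0),(0,0)]⟩⟩ ⟨false,1,⟨0,[(0,0)]⟩,⟨5,[(1,1),(6,1),(0,0),(6,1),(12,0),(0,5)]⟩⟩]⟩) (.R ⟨0,false,
  false,true,[1,0,-1],[1,-1],[0,1],(⟨0,[(21,0)]⟩,⟨0,[(22,0)]⟩),(⟨0,[(26,0)]⟩,⟨0,[(27,0)]⟩),⟨0,[(10,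
  0)]⟩,.k,.k,.k,.k,.k,.k,⟨false,0,⟨0,[(33,0)]⟩,⟨1,[(32,1),(1,0),(0,0)]⟩⟩,⟨true,0,⟨0,[(19,0)]⟩,⟨5,
  [(1,1),(6,1),(0,0),(6,1),(12,0)]⟩⟩,⟨true,(-1),⟨0,[(1,0),(29,0)]⟩,⟨9,[(8,9),(3,0),(0,0),(5,9),(9,
  1),(4,4)]⟩⟩,⟨false,0,⟨0,[(4,0)]⟩,⟨9,[(8,9),(3,0),(0,0),(15,1),(3,9),(1,4)]⟩⟩,⟨false,0,⟨0,[]⟩,⟨0,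
  []⟩⟩,⟨false,0,⟨0,[]⟩,⟨0,[]⟩⟩,[.o ⟨false,0,⟨0,[(32,0)]⟩,⟨9,[(12,0),(0,0),(15,1),(3,9),(1,4)]⟩⟩,.a
  ⟨true,0,⟨0,[(4,0),(3,0)]⟩,⟨0,[(33,0)]⟩⟩ ⟨false,1,⟨1,[(12,0),(0,0),(20,0)]⟩,⟨0,[]⟩⟩ ⟨true,1,⟨1,
  [(19,1),(12,1),(1,0),(0,0)]⟩,⟨0,[(0,0)]⟩⟩,.o ⟨false,0,⟨5,[(1,1),(6,1),(0,0),(6,1),(12,0)]⟩,⟨9,
  [(12,0),(0,0),(5,9),(9,1),(4,4)]⟩⟩,.e ⟨true,0,⟨0,[(31,0)]⟩,⟨1,[(19,0),(0,0)]⟩⟩ ⟨true,1,⟨0,[(19,0),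
  (12,0),(1,0)]⟩,⟨0,[(0,0)]⟩⟩]⟩))) (.I [1,0,-2,-2,1] (.Q [0,0,0,2,0,0,-1,-1,0,0,-1] (.p false [0,0,
  1] [] (⟨0,[(21,0)]⟩,⟨0,[(20,0)]⟩) .k 0 (⟨0,[]⟩,⟨0,[]⟩) .k .k) (.R ⟨1,true,false,false,[0,0,1],[0,
  1],[0,1,0,0,0,0,0,1],(⟨0,[(22,0)]⟩,⟨0,[(21,0)]⟩),(⟨0,[(27,0)]⟩,⟨0,[(26,0)]⟩),⟨0,[(11,0)]⟩,.k,.k,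
  .k,.k,(.r (-1) ⟨9,[(1,4),(2,9),(11,9),(12,1),(1,1),(3,0),(0,1)]⟩ ⟨1,[(0,1),(18,2),(0,0)]⟩),.k,
  ⟨true,0,⟨0,[(3,0),(0,0)]⟩,⟨0,[(2,0),(27,0)]⟩⟩,⟨false,1,⟨5,[(9,0),(6,3),(12,0),(4,3)]⟩,⟨0,[(19,
  0)]⟩⟩,⟨true,0,⟨0,[(37,0)]⟩,⟨0,[]⟩⟩,⟨false,1,⟨9,[(0,4),(7,4),(3,2),(0,2),(15,0),(5,4)]⟩,⟨0,[(4,
  0)]⟩⟩,⟨false,0,⟨0,[(33,0)]⟩,⟨0,[(32,0),(2,0)]⟩⟩,⟨true,0,⟨0,[(0,0)]⟩,⟨0,[(4,0),(27,0)]⟩⟩,[]⟩) (.Q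
  [0,0,0,0,0,0,-1,0,0,0,-1] (.p false [0,0,1] [] (⟨0,[(22,0)]⟩,⟨0,[(21,0)]⟩) .k 0 (⟨0,[]⟩,⟨0,[]⟩)
  .k .k) (.Q [0,-1,-1,-1,1,0,1,0,0,0,1] (.p true [0,0,1] [] (⟨0,[(23,0)]⟩,⟨0,[(22,0)]⟩) .k 0 (⟨0,
  []⟩,⟨0,[]⟩) .k .k) (.Q [0,0,-1,0,1,0,1,0,0,-1,1] (.p true [0,0,1] [1] (⟨0,[(24,0)]⟩,⟨0,[(23,0)]⟩)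
  .k 1 (⟨0,[]⟩,⟨0,[]⟩) .k .k) (.R ⟨0,false,false,false,[1,0,-1],[1,-1],[0,0,1],(⟨0,[(24,0)]⟩,⟨0,
  [(25,0)]⟩),(⟨0,[(29,0)]⟩,⟨0,[(30,0)]⟩),⟨0,[(13,0)]⟩,.k,.k,.k,.k,.k,.k,⟨false,0,⟨0,[(33,0),(6,0)]⟩,
  ⟨1,[(4,0),(32,0)]⟩⟩,⟨true,0,⟨0,[(22,0)]⟩,⟨0,[(2,0)]⟩⟩,⟨false,0,⟨1,[(2,0),(0,0),(4,0),(24,1)]⟩,⟨0,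
  [(0,0),(10,0)]⟩⟩,⟨true,0,⟨0,[(7,0)]⟩,⟨0,[(21,0),(14,0)]⟩⟩,⟨false,0,⟨0,[]⟩,⟨0,[]⟩⟩,⟨false,0,⟨0,[]⟩,
  ⟨0,[]⟩⟩,[.a ⟨true,0,⟨1,[(3,0),(7,0),(12,0),(0,0)]⟩,⟨0,[(36,0)]⟩⟩ ⟨true,0,⟨1,[(22,0),(0,0)]⟩,⟨0,
  []⟩⟩ ⟨false,1,⟨5,[(1,4),(3,1),(4,0),(9,0),(10,1)]⟩,⟨0,[(6,0),(26,0)]⟩⟩,.e ⟨false,1,⟨1,[(15,0),(0,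
  0),(21,0)]⟩,⟨0,[(34,0)]⟩⟩ ⟨false,1,⟨0,[(1,0)]⟩,⟨2,[(6,0),(16,1),(7,0),(4,2)]⟩⟩,.o ⟨false,0,⟨0,[(2,
  0)]⟩,⟨20,[(0,10),(14,5),(0,5),(5,9),(9,1),(6,0)]⟩⟩,.o ⟨false,0,⟨0,[(23,0)]⟩,⟨0,[(0,0)]⟩⟩]⟩) (.R
  ⟨0,false,false,false,[1,0,-1],[1,-1],[0,1],(⟨0,[(24,0)]⟩,⟨0,[(25,0)]⟩),(⟨0,[(29,0)]⟩,⟨0,[(30,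
  0)]⟩),⟨0,[(13,0)]⟩,.k,.k,.k,.k,.k,.k,⟨false,0,⟨0,[(36,0),(3,0)]⟩,⟨1,[(4,0),(33,0)]⟩⟩,⟨true,0,⟨0,
  [(22,0)]⟩,⟨0,[(2,0)]⟩⟩,⟨false,0,⟨0,[(0,4),(0,2),(1,1),(1,0),(26,0),(1,2),(1,6)]⟩,⟨1,[(5,1),(31,0),
  (0,0)]⟩⟩,⟨true,0,⟨0,[(7,0)]⟩,⟨0,[(21,0),(14,0)]⟩⟩,⟨false,0,⟨0,[]⟩,⟨0,[]⟩⟩,⟨false,0,⟨0,[]⟩,⟨0,[]⟩⟩,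
  [.e ⟨false,0,⟨0,[(34,0)]⟩,⟨1,[(15,0),(0,0),(21,0)]⟩⟩ ⟨false,1,⟨5,[(1,4),(3,1),(4,0),(9,0),(10,
  1)]⟩,⟨0,[(6,0),(26,0)]⟩⟩,.e ⟨false,1,⟨1,[(15,0),(0,0),(20,0)]⟩,⟨0,[]⟩⟩ ⟨false,1,⟨0,[(1,0)]⟩,⟨2,
  [(6,0),(16,1),(7,0),(4,2)]⟩⟩,.o ⟨false,0,⟨0,[(2,0)]⟩,⟨9,[(15,0),(0,0),(5,9),(9,1),(4,4)]⟩⟩,.a
  ⟨true,(-1),⟨0,[(0,0)]⟩,⟨0,[(22,0),(14,0)]⟩⟩ ⟨true,0,⟨0,[(34,0)]⟩,⟨1,[(22,0),(0,0)]⟩⟩ ⟨false,1,⟨0,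
  [(1,0)]⟩,⟨0,[(23,0),(12,0)]⟩⟩]⟩)) (.Q [0,0,1,0,-1,0,-1,0,0,1,-1] (.p false [0,0,1] [1] (⟨0,[(24,
  0)]⟩,⟨0,[(23,0)]⟩) .k 1 (⟨0,[]⟩,⟨0,[]⟩) .k .k) (.Q [0,1,-1,-1,0,0,0,-1,0,1] (.pp false [-1,1])
  (.R ⟨0,false,false,true,[1,0,-1],[2,-1,-1],[1,1,1],(⟨0,[(25,0)]⟩,⟨0,[(26,0)]⟩),(⟨0,[(25,0),(4,
  0)]⟩,⟨0,[(14,0)]⟩),⟨0,[(14,0)]⟩,.k,.k,.k,.k,.k,.k,⟨true,(-1),⟨1,[(2,1),(1,0),(5,0),(23,1)]⟩,⟨9,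
  [(0,9),(15,0),(0,0),(15,1),(5,4)]⟩⟩,⟨false,0,⟨0,[(25,0),(0,0)]⟩,⟨9,[(16,0),(0,0),(15,1),(4,4)]⟩⟩,
  ⟨true,(-1),⟨1,[(2,1),(1,0),(5,0)]⟩,⟨0,[(6,0),(31,0)]⟩⟩,⟨false,0,⟨2,[(0,0),(0,0),(2,0),(7,0),(8,0),
  (17,0)]⟩,⟨9,[(16,0),(0,0),(15,1),(3,9),(1,4)]⟩⟩,⟨false,0,⟨0,[]⟩,⟨0,[]⟩⟩,⟨false,0,⟨0,[]⟩,⟨0,[]⟩⟩,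
  [.e ⟨false,0,⟨0,[(41,0)]⟩,⟨1,[(38,0),(0,0)]⟩⟩ ⟨false,0,⟨0,[(0,0)]⟩,⟨4,[(9,3),(1,0),(21,0),(0,0),
  (2,4),(1,1)]⟩⟩,.o ⟨false,0,⟨1,[(1,0),(3,0),(0,0),(5,0)]⟩,⟨4,[(10,2),(10,1),(11,1),(3,4),(1,0)]⟩⟩,
  .o ⟨false,0,⟨0,[(3,0)]⟩,⟨9,[(16,0),(0,0),(5,9),(9,1),(4,4)]⟩⟩,.a ⟨true,(-1),⟨0,[(1,0)]⟩,⟨0,[(23,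
  0),(14,0)]⟩⟩ ⟨false,0,⟨0,[]⟩,⟨1,[(16,0),(0,0),(21,0)]⟩⟩ ⟨true,0,⟨0,[(0,0)]⟩,⟨14,[(2,5),(6,8),(0,
  3),(10,1),(11,2),(0,7),(2,0),(2,0)]⟩⟩]⟩) (.Q [0,1,0,-1,-1,0,-1,-1,0,2,-1] (.p false [-1,1,1] [1]
  (⟨0,[(14,0)]⟩,⟨0,[(25,0),(4,0)]⟩) .k 1 (⟨0,[]⟩,⟨0,[]⟩) .k .k) (.R ⟨0,false,false,true,[1,0,-1],[2,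
  -1,-1],[1,1,1],(⟨0,[(26,0)]⟩,⟨0,[(27,0)]⟩),(⟨0,[(26,0),(4,0)]⟩,⟨0,[(15,0)]⟩),⟨0,[(15,0)]⟩,.k,.k,
  .k,.k,.k,.k,⟨true,(-1),⟨1,[(1,0),(0,0),(0,0),(7,0),(12,0)]⟩,⟨1,[(6,0),(0,1),(31,0)]⟩⟩,⟨false,0,⟨1,
  [(0,0),(21,0),(15,0),(1,0)]⟩,⟨9,[(17,0),(0,0),(15,1),(4,4)]⟩⟩,⟨true,(-1),⟨1,[(3,1),(1,0),(5,0)]⟩,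
  ⟨0,[(7,0),(31,0)]⟩⟩,⟨false,0,⟨5,[(0,2),(4,0),(6,0),(9,0),(1,0),(15,1)]⟩,⟨9,[(17,0),(0,0),(15,1),
  (3,9),(1,4)]⟩⟩,⟨false,0,⟨0,[]⟩,⟨0,[]⟩⟩,⟨false,0,⟨0,[]⟩,⟨0,[]⟩⟩,[.a ⟨true,(-1),⟨0,[(0,0)]⟩,⟨4,[(11,
  3),(10,0),(11,0),(3,4),(1,2)]⟩⟩ ⟨false,0,⟨0,[(42,0)]⟩,⟨1,[(39,0),(0,0)]⟩⟩ ⟨true,0,⟨15,[(0,7),(5,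
  2),(0,9),(4,1),(11,7),(8,3),(5,2)]⟩,⟨0,[(1,0)]⟩⟩,.o ⟨false,0,⟨7,[(0,5),(5,0),(0,0),(5,0),(11,0),
  (8,0),(5,2)]⟩,⟨4,[(11,2),(10,1),(11,1),(3,4),(1,0)]⟩⟩,.o ⟨false,0,⟨0,[(4,0)]⟩,⟨9,[(17,0),(0,0),(5,
  9),(9,1),(4,4)]⟩⟩,.e ⟨false,0,⟨0,[]⟩,⟨1,[(17,0),(0,0),(21,0)]⟩⟩ ⟨false,1,⟨1,[(6,0),(6,1),(10,1),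
  (14,0)]⟩,⟨0,[(1,0)]⟩⟩]⟩) (.R ⟨0,false,false,true,[1,0,-1],[2,-1,-1],[1,0,0,0,0,0,0,-1],(⟨0,[(26,
  0)]⟩,⟨0,[(27,0)]⟩),(⟨0,[(26,0),(4,0)]⟩,⟨0,[(15,0)]⟩),⟨0,[(15,0)]⟩,.k,.k,.k,.k,.k,.k,⟨true,0,⟨0,
  [(35,0)]⟩,⟨0,[(37,0)]⟩⟩,⟨false,0,⟨0,[(26,0),(0,0)]⟩,⟨9,[(17,0),(0,0),(15,1),(4,4)]⟩⟩,⟨true,0,⟨0,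
  []⟩,⟨0,[(42,0)]⟩⟩,⟨false,0,⟨1,[(5,0),(7,0),(12,0),(0,0)]⟩,⟨9,[(17,0),(0,0),(15,1),(3,9),(1,4)]⟩⟩,
  ⟨false,0,⟨0,[]⟩,⟨0,[]⟩⟩,⟨false,0,⟨0,[]⟩,⟨0,[]⟩⟩,[.o ⟨false,0,⟨0,[(13,0),(23,0)]⟩,⟨0,[(0,0)]⟩⟩,.o
  ⟨false,0,⟨1,[(2,0),(3,0),(0,0),(5,0)]⟩,⟨9,[(0,4),(16,0),(0,0),(3,4),(11,1),(3,4)]⟩⟩,.o ⟨false,0,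
  ⟨0,[(4,0)]⟩,⟨9,[(17,0),(0,0),(5,9),(9,1),(4,4)]⟩⟩,.a ⟨true,(-1),⟨0,[(2,0)]⟩,⟨0,[(24,0),(14,0)]⟩⟩
  ⟨true,1,⟨0,[(7,0),(31,0)]⟩,⟨1,[(3,1),(1,0),(5,0)]⟩⟩ ⟨false,1,⟨1,[(6,0),(6,1),(10,1),(14,0)]⟩,⟨0,
  [(1,0)]⟩⟩]⟩))) (.R ⟨0,false,false,true,[1,0,-1],[1,-1],[0,1,1],(⟨0,[(24,0)]⟩,⟨0,[(25,0)]⟩),(⟨0,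
  [(29,0)]⟩,⟨0,[(30,0)]⟩),⟨0,[(13,0)]⟩,.k,.k,.k,.k,.k,.k,⟨false,0,⟨0,[(33,0),(6,0)]⟩,⟨1,[(4,0),(32,
  0)]⟩⟩,⟨true,0,⟨0,[(22,0)]⟩,⟨0,[(2,0)]⟩⟩,⟨true,(-1),⟨1,[(1,1),(1,0),(5,0)]⟩,⟨0,[(0,0),(10,0)]⟩⟩,
  ⟨false,0,⟨0,[(7,0)]⟩,⟨9,[(11,9),(3,0),(0,0),(15,1),(3,9),(1,4)]⟩⟩,⟨false,0,⟨0,[]⟩,⟨0,[]⟩⟩,⟨false,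
  0,⟨0,[]⟩,⟨0,[]⟩⟩,[.o ⟨false,0,⟨0,[(35,0)]⟩,⟨9,[(15,0),(0,0),(15,1),(3,9),(1,4)]⟩⟩,.a ⟨true,0,⟨1,
  [(3,0),(7,0),(12,0),(0,0)]⟩,⟨0,[(36,0)]⟩⟩ ⟨true,0,⟨1,[(22,0),(0,0)]⟩,⟨0,[]⟩⟩ ⟨false,1,⟨1,[(4,0),
  (17,1),(14,0)]⟩,⟨7,[(1,1),(10,0),(6,3),(12,0),(0,1),(2,3)]⟩⟩,.o ⟨false,0,⟨0,[(2,0)]⟩,⟨20,[(0,10),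
  (14,5),(0,5),(5,9),(9,1),(6,0)]⟩⟩,.o ⟨false,0,⟨0,[(23,0)]⟩,⟨0,[(0,0)]⟩⟩]⟩))) (.S ⟨1,0,[0,0,0,0,0,
  0,0,1],[0,0,1],[0,1,0,0,0,0,0,1],(⟨0,[(23,0)]⟩,⟨0,[(22,0)]⟩),⟨0,[(12,0)]⟩,.k,.k,⟨true,0,⟨0,[(38,
  0)]⟩,⟨0,[]⟩⟩,⟨false,1,⟨1,[(13,0),(0,0),(21,0)]⟩,⟨0,[]⟩⟩,⟨false,0,⟨0,[(34,0)]⟩,⟨5,[(1,0),(0,0),(0,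
  2),(4,1),(12,0),(14,2)]⟩⟩,⟨true,0,⟨0,[(34,0)]⟩,⟨0,[(33,0)]⟩⟩,[.a ⟨true,0,⟨0,[(7,0)]⟩,⟨0,[(9,0)]⟩⟩
  ⟨false,0,⟨0,[(6,0),(25,0)]⟩,⟨1,[(3,1),(31,0),(0,0)]⟩⟩ ⟨true,0,⟨0,[(1,0),(2,0),(26,0),(2,0)]⟩,⟨0,
  [(3,0)]⟩⟩,.o ⟨false,1,⟨4,[(7,3),(10,0),(11,0),(5,2)]⟩,⟨0,[(19,0)]⟩⟩,.a ⟨true,0,⟨0,[(0,0)]⟩,⟨1,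
  [(10,0),(11,0),(0,0)]⟩⟩ ⟨false,0,⟨0,[(1,0),(2,0),(26,0),(2,0)]⟩,⟨1,[(3,1),(31,0),(0,0)]⟩⟩ ⟨true,0,
  ⟨0,[(1,0),(2,0),(26,0),(2,0)]⟩,⟨0,[(3,0),(28,0)]⟩⟩,.a ⟨true,0,⟨0,[(20,0)]⟩,⟨0,[(17,0)]⟩⟩ ⟨true,0,
  ⟨0,[(6,0),(25,0)]⟩,⟨0,[(3,0)]⟩⟩ ⟨false,1,⟨1,[(6,1),(28,0),(0,0)]⟩,⟨0,[(3,0)]⟩⟩]⟩))) (.Q [0,0,0,2,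
  0,0,-1,-1,0,0,-1] (.p false [0,0,1] [] (⟨0,[(21,0)]⟩,⟨0,[(20,0)]⟩) .k 0 (⟨0,[]⟩,⟨0,[]⟩) .k .k)
  (.R ⟨1,true,false,false,[0,0,1],[0,1],[0,1,0,0,0,0,0,1],(⟨0,[(22,0)]⟩,⟨0,[(21,0)]⟩),(⟨0,[(27,0)]⟩,
  ⟨0,[(26,0)]⟩),⟨0,[(11,0)]⟩,.k,.k,.k,.k,(.x 0 ⟨9,[(1,3),(0,7),(1,7),(14,2),(0,0),(0,9),(5,19),(1,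
  1)]⟩ ⟨0,[(3,0),(7,0),(11,0),(7,0),(3,0)]⟩),.k,⟨true,0,⟨0,[(3,0),(0,0)]⟩,⟨0,[(2,0),(27,0)]⟩⟩,
  ⟨false,1,⟨5,[(9,0),(6,3),(12,0),(4,3)]⟩,⟨0,[(19,0)]⟩⟩,⟨true,0,⟨0,[(37,0)]⟩,⟨0,[]⟩⟩,⟨false,1,⟨9,
  [(0,4),(7,4),(3,2),(0,2),(15,0),(5,4)]⟩,⟨0,[(4,0)]⟩⟩,⟨false,0,⟨0,[(33,0)]⟩,⟨0,[(32,0),(2,0)]⟩⟩,
  ⟨true,0,⟨0,[(0,0)]⟩,⟨0,[(4,0),(27,0)]⟩⟩,[]⟩) (.I [0,0,-2,-1,1] (.S ⟨1,0,[0,1,-1,-1],[1,-1],[1,0,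
  1],(⟨0,[(27,0)]⟩,⟨0,[(28,0)]⟩),⟨0,[(1,0),(0,0),(6,0),(14,1),(7,1),(3,0)]⟩,.k,(.r (-2) ⟨0,[(0,0),
  (2,0),(4,0)]⟩ ⟨0,[(2,0)]⟩),⟨false,0,⟨1,[(20,0),(0,0),(9,1)]⟩,⟨0,[(0,0)]⟩⟩,⟨true,0,⟨0,[(38,0)]⟩,⟨0,
  []⟩⟩,⟨true,(-1),⟨0,[(2,0)]⟩,⟨0,[(0,0),(32,0)]⟩⟩,⟨false,0,⟨0,[(34,0)]⟩,⟨15,[(1,4),(1,5),(4,5),(0,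
  4),(20,0),(5,7)]⟩⟩,[.o ⟨false,0,⟨0,[(33,0)]⟩,⟨9,[(13,0),(0,0),(15,1),(3,9),(1,4)]⟩⟩,.e ⟨false,1,
  ⟨1,[(13,0),(0,0),(21,0)]⟩,⟨0,[(32,0)]⟩⟩ ⟨false,1,⟨0,[(0,0)]⟩,⟨1,[(2,0),(10,0),(0,0)]⟩⟩,.o ⟨false,
  0,⟨1,[(20,0),(0,0)]⟩,⟨9,[(13,0),(0,0),(15,1),(4,4)]⟩⟩,.a ⟨true,(-1),⟨0,[(1,0),(0,0),(6,0)]⟩,⟨0,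
  [(35,0)]⟩⟩ ⟨true,0,⟨0,[]⟩,⟨0,[(38,0)]⟩⟩ ⟨false,1,⟨0,[(0,0)]⟩,⟨1,[(20,0),(0,0),(9,1)]⟩⟩]⟩) (.Q [0,
  0,-1,0,1,0,1,0,0,-1,1] (.p true [0,0,1] [1] (⟨0,[(23,0)]⟩,⟨0,[(22,0)]⟩) .k 1 (⟨0,[]⟩,⟨0,[]⟩) .k
  .k) (.Q [0,0,0,1,0,0,1,1,0,-1,1] (.p true [0,0,1] [1] (⟨0,[(24,0)]⟩,⟨0,[(23,0)]⟩) .k 1 (⟨0,[]⟩,⟨0,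
  []⟩) .k .k) (.R ⟨2,true,false,true,[0,1],[1,0,-1],[0,1],(⟨0,[]⟩,⟨0,[]⟩),(⟨0,[(24,0)]⟩,⟨0,[(25,
  0)]⟩),⟨0,[]⟩,.k,.k,.k,.k,.k,.k,⟨true,0,⟨3,[(2,9),(0,4),(7,0),(7,3),(12,0),(1,15),(3,7)]⟩,⟨0,[(5,
  0)]⟩⟩,⟨false,0,⟨1,[(12,0),(11,0),(0,0)]⟩,⟨0,[(1,0)]⟩⟩,⟨false,1,⟨15,[(1,5),(1,4),(6,5),(0,10),(20,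
  0),(4,1)]⟩,⟨0,[(33,0)]⟩⟩,⟨true,0,⟨0,[(11,0),(23,0)]⟩,⟨0,[(0,0)]⟩⟩,⟨true,0,⟨0,[(34,0)]⟩,⟨1,[(22,0),
  (0,0)]⟩⟩,⟨false,0,⟨0,[(11,0)]⟩,⟨22,[(0,7),(2,3),(16,10),(11,2),(5,16)]⟩⟩,[]⟩) (.R ⟨0,false,false,
  true,[1,0,-1],[1,-1],[0,1,-1,-1],(⟨0,[(24,0)]⟩,⟨0,[(25,0)]⟩),(⟨0,[(29,0)]⟩,⟨0,[(30,0)]⟩),⟨0,[(13,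
  0)]⟩,.k,.k,.k,.k,.k,.k,⟨false,1,⟨1,[(15,0),(0,0),(20,0)]⟩,⟨0,[]⟩⟩,⟨true,0,⟨0,[(22,0)]⟩,⟨5,[(0,0),
  (1,2),(0,0),(2,1),(12,3),(12,0),(5,0)]⟩⟩,⟨true,0,⟨1,[(3,0),(2,0),(1,0),(25,0)]⟩,⟨0,[(5,0),(30,
  0)]⟩⟩,⟨false,0,⟨0,[(7,0)]⟩,⟨9,[(11,9),(3,0),(0,0),(15,1),(3,9),(1,4)]⟩⟩,⟨false,0,⟨0,[]⟩,⟨0,[]⟩⟩,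
  ⟨false,0,⟨0,[]⟩,⟨0,[]⟩⟩,[.o ⟨false,0,⟨0,[(35,0)]⟩,⟨9,[(15,0),(0,0),(15,1),(3,9),(1,4)]⟩⟩,.a ⟨true,
  0,⟨2,[(0,0),(2,0),(20,1),(0,1)]⟩,⟨0,[(36,0)]⟩⟩ ⟨true,1,⟨1,[(0,0),(0,0),(8,0)]⟩,⟨0,[(2,0)]⟩⟩
  ⟨false,1,⟨2,[(0,0),(0,0),(1,0),(18,1),(14,1)]⟩,⟨5,[(4,1),(7,0),(6,3),(12,0),(3,1)]⟩⟩,.o ⟨false,0,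
  ⟨5,[(0,0),(1,2),(0,0),(2,1),(12,3),(12,0),(5,0)]⟩,⟨20,[(1,10),(13,5),(0,5),(5,9),(9,1),(6,0)]⟩⟩,
  .o ⟨false,0,⟨0,[(23,0)]⟩,⟨0,[(1,0)]⟩⟩]⟩)) (.Q [0,0,0,0,1,0,1,0,0,-2,1] (.p true [-1,1,1] [1] (⟨0,
  [(12,0)]⟩,⟨0,[(23,0),(4,0)]⟩) .k 1 (⟨0,[]⟩,⟨0,[]⟩) .k .k) (.R ⟨0,false,false,false,[-1,1,1],[0,1],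
  [1,0,1,0,0,0,0,1],(⟨0,[(13,0)]⟩,⟨0,[(24,0),(4,0)]⟩),(⟨0,[(30,0)]⟩,⟨0,[(29,0)]⟩),⟨0,[(24,0)]⟩,.k,
  .k,.k,.k,.k,.k,⟨true,0,⟨11,[(1,1),(1,5),(4,5),(3,0),(6,1),(12,0)]⟩,⟨0,[(5,0),(30,0)]⟩⟩,⟨false,0,
  ⟨0,[(19,0)]⟩,⟨3,[(0,1),(14,0),(0,0),(5,1),(14,0)]⟩⟩,⟨false,1,⟨15,[(3,4),(1,5),(4,5),(0,4),(20,0),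
  (5,7)]⟩,⟨0,[(36,0)]⟩⟩,⟨true,0,⟨0,[(11,0)]⟩,⟨4,[(3,1),(0,1),(4,1),(10,0),(11,0),(1,3)]⟩⟩,⟨false,0,
  ⟨0,[]⟩,⟨0,[]⟩⟩,⟨false,0,⟨0,[]⟩,⟨0,[]⟩⟩,[.a ⟨true,0,⟨0,[(36,0)]⟩,⟨1,[(3,0),(7,0),(12,0),(0,0)]⟩⟩
  ⟨false,0,⟨0,[(8,0)]⟩,⟨0,[(5,0),(31,0)]⟩⟩ ⟨true,(-1),⟨1,[(1,0),(2,0),(14,0)]⟩,⟨7,[(0,3),(2,2),(1,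
  4),(4,1),(11,0),(14,1)]⟩⟩,.o ⟨false,1,⟨9,[(15,0),(0,0),(15,1),(3,9),(1,4)]⟩,⟨0,[(35,0)]⟩⟩,.o
  ⟨false,2,⟨1,[(0,1),(14,0),(0,0),(20,0)]⟩,⟨0,[(1,0)]⟩⟩,.o ⟨false,1,⟨0,[(0,0)]⟩,⟨5,[(1,0),(9,1),(0,
  1),(6,0),(0,1),(17,0)]⟩⟩]⟩) (.Q [0,0,1,-1,-1,0,-1,0,0,1,-1] (.p false [0,0,1] [1] (⟨0,[(25,0)]⟩,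
  ⟨0,[(24,0)]⟩) .k 1 (⟨0,[]⟩,⟨0,[]⟩) .k .k) (.R ⟨0,false,false,false,[1,0,-1],[0,1],[],(⟨0,[(25,
  0)]⟩,⟨0,[(26,0)]⟩),(⟨0,[(31,0)]⟩,⟨0,[(30,0)]⟩),⟨0,[(14,0)]⟩,.k,.k,.k,.k,.k,.k,⟨true,1,⟨15,[(4,4),
  (1,5),(4,5),(0,4),(20,0),(4,7)]⟩,⟨0,[(3,0)]⟩⟩,⟨false,2,⟨9,[(16,0),(0,0),(5,9),(9,1),(4,14)]⟩,⟨0,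
  [(2,0)]⟩⟩,⟨true,0,⟨3,[(0,4),(2,14),(0,4),(1,0),(26,0),(1,35),(3,17)]⟩,⟨0,[(6,0),(28,0)]⟩⟩,⟨false,
  1,⟨4,[(10,3),(10,0),(11,0),(3,4),(1,2)]⟩,⟨0,[(0,0),(5,0),(31,0)]⟩⟩,⟨false,0,⟨0,[]⟩,⟨0,[]⟩⟩,⟨false,
  0,⟨0,[]⟩,⟨0,[]⟩⟩,[.a ⟨true,0,⟨0,[(37,0)]⟩,⟨8,[(1,1),(2,3),(6,0),(0,4),(10,2),(14,0)]⟩⟩ ⟨false,1,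
  ⟨1,[(16,0),(0,0),(20,0)]⟩,⟨0,[]⟩⟩ ⟨true,1,⟨9,[(16,0),(0,0),(5,9),(9,1),(3,9),(0,4)]⟩,⟨0,[(0,0)]⟩⟩,
  .o ⟨false,1,⟨9,[(16,0),(0,0),(15,1),(3,9),(1,4)]⟩,⟨0,[(36,0)]⟩⟩,.o ⟨false,0,⟨6,[(1,0),(0,1),(4,1),
  (5,0),(19,0),(5,0)]⟩,⟨9,[(16,0),(0,0),(5,9),(9,1),(4,4)]⟩⟩,.e ⟨false,1,⟨1,[(38,0),(0,0)]⟩,⟨1,[(23,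
  0),(0,0)]⟩⟩ ⟨false,2,⟨9,[(16,0),(0,0),(5,9),(9,1),(3,9),(0,9),(0,4)]⟩,⟨0,[(0,0)]⟩⟩]⟩) (.I [1,-1,
  -2,-1,2,0,0,-1] (.R ⟨0,false,false,false,[1,0,-1],[0,1],[],(⟨0,[(26,0)]⟩,⟨0,[(27,0)]⟩),(⟨0,[(32,
  0)]⟩,⟨0,[(31,0)]⟩),⟨0,[(15,0)]⟩,.k,.k,.k,.k,.k,.k,⟨true,1,⟨2,[(0,0),(11,0),(24,0)]⟩,⟨0,[(4,0)]⟩⟩,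
  ⟨false,2,⟨53,[(0,25),(0,38),(3,0),(6,10),(9,13),(10,5),(0,2)]⟩,⟨0,[(3,0)]⟩⟩,⟨true,0,⟨2,[(2,4),(1,
  9),(0,4),(1,1),(26,1),(1,21),(3,10)]⟩,⟨0,[(7,0),(28,0)]⟩⟩,⟨false,1,⟨9,[(1,4),(8,4),(0,3),(10,0),
  (11,0),(0,4),(4,2)]⟩,⟨2,[(0,0),(1,3),(2,0),(1,2),(26,0),(1,0)]⟩⟩,⟨false,0,⟨0,[]⟩,⟨0,[]⟩⟩,⟨false,0,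
  ⟨0,[]⟩,⟨0,[]⟩⟩,[.e ⟨false,1,⟨2,[(0,0),(0,0),(12,0),(7,0)]⟩,⟨0,[]⟩⟩ ⟨false,1,⟨0,[(1,0)]⟩,⟨1,[(5,0),
  (7,0),(0,0)]⟩⟩,.o ⟨false,1,⟨5,[(1,1),(12,0),(19,0),(0,1),(2,1),(1,1)]⟩,⟨0,[(37,0)]⟩⟩,.o ⟨false,0,
  ⟨6,[(2,0),(0,1),(4,1),(5,0),(19,0),(5,0)]⟩,⟨50,[(0,10),(0,10),(15,1),(0,1),(3,10),(1,28),(9,7),(6,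
  3)]⟩⟩,.a ⟨true,(-1),⟨0,[(3,0)]⟩,⟨16,[(0,5),(0,9),(0,4),(2,1),(16,3),(1,5),(8,0)]⟩⟩ ⟨false,1,⟨1,
  [(39,0),(0,0)]⟩,⟨1,[(24,0),(0,0)]⟩⟩ ⟨true,1,⟨0,[(1,0)]⟩,⟨0,[(3,0),(33,0)]⟩⟩]⟩) (.R ⟨0,false,false,
  false,[-1,1,1],[0,1],[],(⟨0,[(15,0)]⟩,⟨0,[(26,0),(4,0)]⟩),(⟨0,[(32,0)]⟩,⟨0,[(31,0)]⟩),⟨0,[(26,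
  0)]⟩,.k,.k,.k,.k,.k,.k,⟨true,1,⟨15,[(5,4),(1,5),(4,5),(0,4),(20,0),(4,7)]⟩,⟨0,[(4,0)]⟩⟩,⟨false,0,
  ⟨0,[(21,0)]⟩,⟨59,[(1,29),(3,4),(1,20),(4,15),(11,24),(9,5),(2,3),(2,1)]⟩⟩,⟨false,2,⟨15,[(5,4),(1,
  21),(4,5),(0,4),(20,0),(4,15),(0,7)]⟩,⟨1,[(0,1),(38,0),(0,0)]⟩⟩,⟨true,0,⟨0,[(13,0)]⟩,⟨6,[(0,1),(0,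
  1),(3,1),(16,2),(11,0),(1,1)]⟩⟩,⟨false,0,⟨0,[]⟩,⟨0,[]⟩⟩,⟨false,0,⟨0,[]⟩,⟨0,[]⟩⟩,[.a ⟨true,0,⟨0,
  [(38,0)]⟩,⟨8,[(2,1),(2,3),(6,0),(0,4),(10,2),(14,0)]⟩⟩ ⟨false,1,⟨1,[(1,0),(10,0),(0,0)]⟩,⟨0,[]⟩⟩
  ⟨true,(-1),⟨7,[(2,5),(3,3),(7,0),(19,0)]⟩,⟨69,[(1,29),(3,39),(1,57),(4,17),(21,7),(2,1),(1,4),(0,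
  0)]⟩⟩,.o ⟨false,1,⟨5,[(1,1),(12,0),(19,0),(0,1),(2,1),(1,1)]⟩,⟨0,[(37,0)]⟩⟩,.o ⟨false,2,⟨34,[(1,
  29),(3,4),(1,22),(4,17),(21,7),(2,1),(1,4),(0,0)]⟩,⟨0,[(3,0)]⟩⟩,.e ⟨false,1,⟨1,[(39,0),(0,0)]⟩,⟨1,
  [(24,0),(0,0)]⟩⟩ ⟨false,0,⟨0,[(21,0),(13,0)]⟩,⟨69,[(1,29),(3,39),(1,57),(4,17),(21,7),(2,1),(1,4),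
  (0,0)]⟩⟩]⟩))))))))) (.I [0,0,0,0,0,0,0,1] (.S ⟨1,0,[0,0,0,0,0,0,0,1],[0,0,1],[0,1,0,0,0,0,0,1],
  (⟨0,[(20,0)]⟩,⟨0,[(19,0)]⟩),⟨0,[(9,0)]⟩,.k,.k,⟨true,0,⟨0,[(35,0)]⟩,⟨0,[]⟩⟩,⟨false,1,⟨1,[(10,0),(0,
  0),(21,0)]⟩,⟨0,[]⟩⟩,⟨false,0,⟨0,[(31,0)]⟩,⟨0,[(30,0),(2,0)]⟩⟩,⟨true,0,⟨0,[(31,0)]⟩,⟨0,[(30,0)]⟩⟩,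
  [.a ⟨true,0,⟨0,[(4,0)]⟩,⟨0,[(6,0)]⟩⟩ ⟨false,0,⟨0,[(0,0),(28,0)]⟩,⟨9,[(1,7),(4,9),(10,1),(9,1),(4,
  4),(0,0)]⟩⟩ ⟨true,0,⟨0,[(0,0)]⟩,⟨0,[(1,0),(14,0)]⟩⟩,.o ⟨false,1,⟨4,[(4,3),(10,0),(11,0),(5,2)]⟩,
  ⟨0,[(16,0)]⟩⟩,.a ⟨true,0,⟨0,[(1,0),(27,0)]⟩,⟨1,[(7,0),(11,0),(0,0)]⟩⟩ ⟨false,0,⟨0,[(0,0)]⟩,⟨9,[(1,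
  7),(4,9),(10,1),(9,1),(4,4),(0,0)]⟩⟩ ⟨true,0,⟨0,[(0,0)]⟩,⟨0,[(1,0),(14,0),(12,0)]⟩⟩,.a ⟨true,0,⟨0,
  [(17,0)]⟩,⟨0,[(14,0)]⟩⟩ ⟨true,0,⟨0,[(0,0),(28,0)]⟩,⟨0,[(1,0),(14,0)]⟩⟩ ⟨false,1,⟨1,[(0,1),(31,0),
  (0,0)]⟩,⟨0,[(1,0),(14,0)]⟩⟩]⟩) (.N [0,0,1] 0 ⟨0,[(3,0)]⟩ ⟨0,[(0,0)]⟩ .k)))) (.Q [0,0,0,1,0,0,-1,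
  -1,0,0,-1] (.p false [0,0,1] [] (⟨0,[(17,0)]⟩,⟨0,[(16,0)]⟩) .k 0 (⟨0,[]⟩,⟨0,[]⟩) .k .k) (.R ⟨2,
  true,false,true,[0,1],[0,0,1],[0,1],(⟨0,[]⟩,⟨0,[]⟩),(⟨0,[(18,0)]⟩,⟨0,[(17,0)]⟩),⟨0,[]⟩,.k,.k,.k,
  .k,.k,.k,⟨true,0,⟨0,[(1,0)]⟩,⟨0,[(2,0),(13,0)]⟩⟩,⟨false,0,⟨0,[(1,0),(0,0)]⟩,⟨9,[(5,4),(2,2),(0,2),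
  (15,0),(4,4)]⟩⟩,⟨false,1,⟨0,[(1,0),(1,0)]⟩,⟨0,[(26,0)]⟩⟩,⟨true,0,⟨0,[(2,0),(25,0)]⟩,⟨0,[(0,0)]⟩⟩,
  ⟨true,0,⟨0,[(27,0)]⟩,⟨1,[(15,0),(0,0)]⟩⟩,⟨false,0,⟨0,[(2,0)]⟩,⟨9,[(4,9),(3,0),(0,0),(15,1),(5,
  4)]⟩⟩,[]⟩) (.Q [0,0,-1,-1,0,0,-1,0,0,1,-1] (.p false [0,0,1] [1] (⟨0,[(18,0)]⟩,⟨0,[(17,0)]⟩) .k 1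
  (⟨0,[]⟩,⟨0,[]⟩) .k .k) (.R ⟨1,false,false,true,[0,0,1],[1,-1],[1,1,0,-1,0,0,0,1],(⟨0,[(19,0)]⟩,⟨0,
  [(18,0)]⟩),(⟨0,[(23,0)]⟩,⟨0,[(24,0)]⟩),⟨0,[(8,0)]⟩,.k,.k,.k,.k,.k,.k,⟨true,0,⟨0,[(3,0),(13,0)]⟩,
  ⟨0,[(2,0)]⟩⟩,⟨false,0,⟨1,[(6,0),(11,0),(0,0)]⟩,⟨4,[(2,3),(0,3),(12,0),(9,0),(4,2)]⟩⟩,⟨true,0,⟨0,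
  [(29,0)]⟩,⟨0,[(30,0)]⟩⟩,⟨false,0,⟨1,[(0,0),(0,0),(0,1),(2,0),(11,0)]⟩,⟨4,[(3,3),(10,0),(11,0),(3,
  4),(1,2)]⟩⟩,⟨false,0,⟨0,[]⟩,⟨1,[(9,0),(0,0),(21,0)]⟩⟩,⟨false,0,⟨0,[(5,0)]⟩,⟨4,[(3,3),(10,0),(11,
  0),(5,2)]⟩⟩,[.o ⟨false,0,⟨0,[(29,0)]⟩,⟨9,[(9,0),(0,0),(15,1),(3,9),(1,4)]⟩⟩,.e ⟨false,1,⟨0,[(4,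
  0)]⟩,⟨0,[(2,0),(27,0)]⟩⟩ ⟨false,0,⟨0,[(0,0)]⟩,⟨9,[(9,0),(0,0),(5,9),(9,1),(3,9),(0,4)]⟩⟩,.a ⟨true,
  0,⟨0,[(2,0),(0,0)]⟩,⟨1,[(6,0),(11,0),(0,0)]⟩⟩ ⟨true,0,⟨0,[(1,0),(15,0),(10,0)]⟩,⟨0,[(2,0),(27,
  0)]⟩⟩ ⟨false,0,⟨1,[(0,0),(0,0),(3,0),(11,0)]⟩,⟨9,[(2,7),(0,7),(12,1),(9,1),(3,9),(0,0),(0,4)]⟩⟩,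
  .e ⟨false,1,⟨0,[(4,0)]⟩,⟨0,[(2,0),(24,0)]⟩⟩ ⟨false,0,⟨0,[(0,0)]⟩,⟨9,[(9,0),(0,0),(5,9),(9,1),(3,
  9),(1,4)]⟩⟩]⟩) (.R ⟨1,false,false,true,[0,0,1],[1,-1],[1,1,0,-1,0,0,0,1],(⟨0,[(19,0)]⟩,⟨0,[(18,
  0)]⟩),(⟨0,[(23,0)]⟩,⟨0,[(24,0)]⟩),⟨0,[(8,0)]⟩,.k,.k,.k,.k,.k,.k,⟨true,0,⟨0,[(3,0),(13,0)]⟩,⟨0,[(2,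
  0)]⟩⟩,⟨false,0,⟨1,[(6,0),(11,0),(0,0)]⟩,⟨8,[(0,3),(0,3),(0,3),(13,0),(9,0),(4,6)]⟩⟩,⟨true,0,⟨0,
  [(29,0)]⟩,⟨0,[(30,0)]⟩⟩,⟨false,0,⟨0,[(1,0),(0,1),(3,0)]⟩,⟨4,[(3,3),(10,0),(11,0),(3,4),(1,2)]⟩⟩,
  ⟨false,0,⟨0,[]⟩,⟨1,[(9,0),(0,0),(21,0)]⟩⟩,⟨false,0,⟨0,[(5,0)]⟩,⟨4,[(3,3),(10,0),(11,0),(5,2)]⟩⟩,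
  [.o ⟨false,0,⟨0,[(29,0)]⟩,⟨9,[(9,0),(0,0),(15,1),(3,9),(1,4)]⟩⟩,.a ⟨true,0,⟨0,[(1,0),(3,0)]⟩,⟨0,
  [(30,0)]⟩⟩ ⟨false,1,⟨0,[(4,0)]⟩,⟨0,[(2,0),(27,0)]⟩⟩ ⟨true,0,⟨0,[(1,0),(0,0),(3,0)]⟩,⟨0,[(0,0)]⟩⟩,
  .a ⟨true,0,⟨0,[(2,0),(0,0)]⟩,⟨1,[(6,0),(11,0),(0,0)]⟩⟩ ⟨true,0,⟨0,[(1,0),(15,0),(10,0)]⟩,⟨0,[(2,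
  0),(27,0)]⟩⟩ ⟨false,0,⟨0,[(1,0),(0,0),(3,0)]⟩,⟨1,[(0,1),(30,0),(0,0)]⟩⟩,.a ⟨true,0,⟨0,[(16,0)]⟩,
  ⟨0,[(13,0)]⟩⟩ ⟨false,1,⟨0,[(4,0)]⟩,⟨0,[(2,0),(24,0)]⟩⟩ ⟨true,0,⟨0,[(13,0),(15,0)]⟩,⟨0,[(0,
  0)]⟩⟩]⟩))))

theorem ok2 : chk K t2 r2 = true := by decide +kernel

noncomputable def t4 : Tre :=
  (.I [0,-1,0,0,1,0,0,1] (.R ⟨2,true,false,true,[0,1],[1,1,-1],[0,0,1,1],(⟨0,[]⟩,⟨0,[]⟩),(⟨0,[(15,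
  0),(5,0)]⟩,⟨0,[(5,0)]⟩),⟨0,[]⟩,.k,.k,.k,.k,.k,.k,⟨true,1,⟨0,[(0,0)]⟩,⟨0,[(1,0),(24,0)]⟩⟩,⟨false,0,
  ⟨0,[(10,0)]⟩,⟨9,[(6,0),(0,0),(5,9),(9,1),(4,4)]⟩⟩,⟨false,1,⟨1,[(6,0),(0,0),(21,0)]⟩,⟨0,[]⟩⟩,⟨true,
  (-1),⟨0,[(1,0),(8,0),(15,0)]⟩,⟨9,[(0,1),(10,7),(1,1),(9,1),(4,0),(0,2)]⟩⟩,⟨true,0,⟨0,[(27,0)]⟩,⟨0,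
  [(26,0)]⟩⟩,⟨false,(-1),⟨0,[(1,0),(8,0)]⟩,⟨9,[(0,1),(10,7),(1,1),(9,1),(2,9),(1,0),(0,12)]⟩⟩,[]⟩)
  (.R ⟨2,true,false,true,[0,1],[0,0,1],[1,1,0,0,0,0,0,1],(⟨0,[]⟩,⟨0,[]⟩),(⟨0,[(16,0)]⟩,⟨0,[(15,
  0)]⟩),⟨0,[]⟩,.k,.k,.k,.k,.k,.k,⟨true,0,⟨0,[]⟩,⟨1,[(13,0),(0,0)]⟩⟩,⟨false,0,⟨0,[(0,0),(10,0),(17,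
  0)]⟩,⟨9,[(3,4),(2,2),(0,2),(15,0),(4,4)]⟩⟩,⟨true,1,⟨5,[(3,0),(6,3),(0,5),(11,0),(2,5),(1,0),(0,
  2)]⟩,⟨0,[(1,0)]⟩⟩,⟨false,1,⟨0,[(11,0),(14,0),(2,0)]⟩,⟨5,[(1,5),(1,0),(6,3),(12,0),(4,0),(0,2)]⟩⟩,
  ⟨false,1,⟨5,[(3,0),(6,3),(0,5),(11,0),(4,0),(0,2)]⟩,⟨0,[(1,0),(24,0),(2,0)]⟩⟩,⟨true,0,⟨0,[(11,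
  0)]⟩,⟨6,[(0,3),(1,2),(0,1),(19,0),(5,1)]⟩⟩,[]⟩))

theorem ok4 : chk K t4 r1 = true := by decide +kernel

noncomputable def t3 : Tre :=
  .Q [0,0,0,0,0,0,-1,-1,0,0,-1] (.p false [0,0,1] [] (⟨0,[(15,0)]⟩,⟨0,[(14,0)]⟩) .k 0 (⟨0,[]⟩,⟨0,
  []⟩) .k .k) t1 t2

theorem ok3 : chk K t3 l1 = true :=
  chk_Q (e' := [0,0,0,0,0,0,1,1,0,0,1]) (by decide +kernel) (by decide +kernel) ok1 ok2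

noncomputable def t5 : Tre :=
  .I [1,0,-1,-1,1,0,0,1] t3 t4

theorem ok5 : chk K t5 r0 = true :=
  chk_I (e' := [0,0,1,1,-1,0,0,-1]) (by decide +kernel) (by decide +kernel) ok3 ok4

noncomputable def t6 : Tre :=
  .Q [0,0,0,0,0,0,1,1,0,-1,1] (.p true [0,0,1] [1] (⟨0,[(13,0)]⟩,⟨0,[(12,0)]⟩) .k 1 (⟨0,[]⟩,⟨0,[]⟩)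
  .k .k) t0 t5

theorem ok6 : chk K t6 base = true :=
  chk_Q (e' := [0,0,0,0,0,0,-1,-1,0,1,-1]) (by decide +kernel) (by decide +kernel) ok0 ok5

theorem closed {p a b c J l q : ℤ} {D dl : ℝ} {Cl : ℤ → ℤ → ℤ → ℤ → ℝ → Prop}
    (W : World p a b c J 1 l q D dl Cl) (g : G0 p a b c J D)
    {N X R : ℤ} {I : ℝ} (hk : KCl p l Cl N X R I) (kz : KF a b D (X + (1 : ℤ) * I) (X + (1 : ℤ) * I + R) I)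
    {Ne Xe : ℤ} {Ie : ℝ} (he : EFac p 1 D Cl 1 Ne Xe Ie)
    (hkf : ∀ kf ∈ (kfY 1 [0,0,0,0,0,0,1,0,0,0,1]), KOk p l Cl 1
      (xv [1, a, b, c, p, J, X, R, Xe] [D, I, Ie]) N kf)
    (h0 : 1 ≤ (c : ℝ))
    (h1 : 1 ≤ (a : ℝ) - (b : ℝ))
    (h2 : 1 ≤ 1 - (a : ℝ) + (b : ℝ) + (c : ℝ))
    (h3 : 0 < 1 + 2 * (p : ℝ) - 5 * D)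
    (h4 : 1 ≤ 2 * (a : ℝ) - (b : ℝ))
    (h5 : 1 ≤ -1 + (J : ℝ))
    (h6 : 1 ≤ 3 - (J : ℝ))
    (h7 : 0 < -(b : ℝ) - (X : ℝ) + D - I)
    (h8 : 0 < -(J : ℝ) + I)
    (h9 : 0 < (J : ℝ) - D + I)
    (h10 : 0 < -2 * (X : ℝ) + D - 2 * I) : False := by
  have g1 := g.a2
  have g2 := g.b2
  have g3 := g.pa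
  have g4 := g.pb
  have g5 := g.J1
  have g6 := g.JD
  have g7 := g.D2
  have g8 := g.ca
  have g9 := g.ca'
  have k1 := kz.I0
  have k2 := kz.ID
  have k3 := kz.z1
  have k4 := kz.z2
  have k5 := kz.s1
  have k6 := kz.s2
  have e1 := he.I0
  have e2 := he.ID
  have e3 := he.x0
  have e4 := he.xp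
  push_cast at *
  refine (val_E W.toBase hk he (row := [1]) (by simp) (by simp) (kfY 1 [0,0,0,0,0,0,1,0,0,0,1])).sound W rfl (Nk := N)
    (fun kf _ _ => ⟨_, rfl⟩) hkf ?_ ok6
  · simp only [base, List.forall_mem_cons, List.not_mem_nil, false_imp_iff, implies_true,
      and_true, hld, xv, evg_cons, evg_nil, List.map_cons, List.map_nil, List.cons_append,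
      List.nil_append, if_true, if_false, Bool.false_eq_true]
    push_cast
    refine ⟨?_, ?_, ?_, ?_, ?_, ?_, ?_, ?_, ?_, ?_, ?_, ?_, ?_, ?_, ?_, ?_, ?_, ?_, ?_, ?_, ?_, ?_, ?_, ?_, ?_, ?_, ?_, ?_, ?_⟩ <;> linarith

end Helper48.Y.Y11_c2_P2_m1n0

namespace Helper48.Y.Y11_c2_P3_m1n0

open Helper25.KG Helper25.KW Helper55.KE Helper11.CT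

noncomputable def K : Cls :=
  cE 1 [1] (kfY 1 [0,0,0,0,0,0,1,0,0,0,1])

noncomputable def base : List Con :=
  [(false,[0,0,0,0,0,0,-2,0,0,1,-2]),
  (false,[0,0,0,0,0,1,0,0,0,-1,1]),
  (false,[0,0,0,0,0,-1,0,0,0,0,1]),
  (false,[0,0,0,0,1,0,0,0,-1,0,0,-1]),
  (false,[0,0,0,0,0,0,0,0,1,0,0,1]),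
  (false,[0,0,0,0,0,0,0,0,0,1,0,-1]),
  (false,[0,0,0,0,0,0,0,0,0,0,0,1]),
  (false,[0,0,-1,0,0,0,-1,0,0,1,-1]),
  (false,[0,1,0,0,0,0,1,1,0,0,1]),
  (false,[0,1,0,0,0,0,-1,-1,0,0,-1]),
  (false,[0,0,1,0,0,0,1,0,0,0,1]),
  (false,[0,0,1,0,0,0,-1,0,0,0,-1]),
  (false,[0,0,0,0,0,0,0,0,0,1,-1]),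
  (false,[0,0,0,0,0,0,0,0,0,0,1]),
  (true,[-2,0,0,0,0,1]),
  (false,[0,0,0,0,1,0,0,0,0,-2]),
  (false,[0,0,0,0,0,-1,0,0,0,1]),
  (true,[0,0,0,0,0,1]),
  (true,[0,2,-1]),
  (false,[1,0,0,0,0,3,0,0,0,-1]),
  (false,[3,0,0,0,-1,0,0,0,0,2]),
  (false,[-1,0,0,0,1,0,0,0,0,-2]),
  (true,[1,-1,1,1]),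
  (true,[0,1,-1]),
  (true,[0,1,0,-1]),
  (true,[0,0,0,1]),
  (true,[0,0,-2,0,1]),
  (true,[0,-2,0,0,1]),
  (true,[-1,0,1]),
  (true,[-1,1])]

noncomputable def t0 : Tre :=
  (.Q [0,0,0,0,0,0,-1,0,0,0,-1] (.p false [0,0,1] [] (⟨0,[(13,0)]⟩,⟨0,[(12,0)]⟩) .k 0 (⟨0,[]⟩,⟨0,
  []⟩) .k .k) (.I [1,-1,2,2,-1] (.R ⟨2,true,false,true,[0,1],[1,-1],[0,1],(⟨0,[]⟩,⟨0,[]⟩),(⟨0,[(18,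
  0)]⟩,⟨0,[(19,0)]⟩),⟨0,[]⟩,.k,.k,.k,(.r 1 ⟨0,[(0,0),(30,0)]⟩ ⟨0,[(26,1),(1,0),(0,0)]⟩),.k,.k,
  ⟨false,0,⟨0,[(27,0)]⟩,⟨1,[(26,1),(1,0),(0,0)]⟩⟩,⟨true,(-1),⟨1,[(0,1),(21,0),(3,3),(2,0)]⟩,⟨1,[(17,
  0),(10,0)]⟩⟩,⟨false,1,⟨1,[(26,1),(1,0),(0,0)]⟩,⟨0,[(24,0)]⟩⟩,⟨true,0,⟨1,[(22,0),(3,3),(2,0)]⟩,⟨1,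
  [(0,1),(16,0),(7,1),(2,0)]⟩⟩,⟨true,0,⟨0,[(25,0)]⟩,⟨1,[(12,0),(0,0)]⟩⟩,⟨false,0,⟨1,[(22,0),(3,1),
  (2,0)]⟩,⟨1,[(17,0),(9,1),(1,0)]⟩⟩,[]⟩) (.I [1,-1,0,1,0,0,0,-1] (.R ⟨2,true,false,true,[0,1],[0,0,
  1],[1,1,1],(⟨0,[]⟩,⟨0,[]⟩),(⟨0,[(16,0)]⟩,⟨0,[(15,0)]⟩),⟨0,[]⟩,.k,.k,.k,.k,.k,.k,⟨false,0,⟨0,[(0,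
  0),(26,0)]⟩,⟨1,[(10,1),(0,1),(6,0),(11,0)]⟩⟩,⟨true,0,⟨0,[(13,0)]⟩,⟨0,[(2,0)]⟩⟩,⟨true,0,⟨0,[(27,
  0)]⟩,⟨0,[(28,0)]⟩⟩,⟨false,1,⟨0,[(11,0),(15,0),(2,0)]⟩,⟨0,[(0,0),(1,0)]⟩⟩,⟨false,0,⟨0,[]⟩,⟨1,[(6,
  0),(0,0),(22,0)]⟩⟩,⟨true,0,⟨0,[(11,0)]⟩,⟨0,[(0,0),(1,0),(24,0)]⟩⟩,[]⟩) (.Q [0,1,0,-1,0,0,1,1,0,0,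
  1] (.p true [0,0,1] [] (⟨0,[(16,0)]⟩,⟨0,[(15,0)]⟩) .k 0 (⟨0,[]⟩,⟨0,[]⟩) .k .k) (.I [1,0,1,0,0,0,0,
  -1] (.Q [0,0,1,0,-1,0,-1,0,0,1,-1] (.p false [0,0,1] [1] (⟨0,[(18,0)]⟩,⟨0,[(17,0)]⟩) .k 1 (⟨0,[]⟩,
  ⟨0,[]⟩) .k .k) (.I [1,-1,1,1,0,0,0,1] (.Q [0,0,-1,-1,1,0,1,0,0,0,1] (.p true [0,0,1] [] (⟨0,[(20,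
  0)]⟩,⟨0,[(19,0)]⟩) .k 0 (⟨0,[]⟩,⟨0,[]⟩) .k .k) (.I [0,0,0,0,0,0,0,1] (.Q [0,0,0,1,0,0,-1,-1,0,0,
  -1] (.p false [0,0,1] [] (⟨0,[(22,0)]⟩,⟨0,[(21,0)]⟩) .k 0 (⟨0,[]⟩,⟨0,[]⟩) .k .k) (.R ⟨0,false,
  false,true,[1,0,-1],[1,-1],[0,1],(⟨0,[(22,0)]⟩,⟨0,[(23,0)]⟩),(⟨0,[(26,0)]⟩,⟨0,[(27,0)]⟩),⟨0,[(11,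
  0)]⟩,.k,.k,.k,.k,.k,.k,⟨false,0,⟨0,[(35,0)]⟩,⟨7,[(2,3),(5,1),(1,1),(14,0),(11,0)]⟩⟩,⟨true,0,⟨0,
  [(20,0)]⟩,⟨0,[(9,0)]⟩⟩,⟨false,0,⟨0,[(1,0)]⟩,⟨1,[(0,0),(1,0),(2,0),(31,0)]⟩⟩,⟨true,0,⟨0,[(6,0)]⟩,
  ⟨0,[(0,0)]⟩⟩,⟨false,0,⟨0,[]⟩,⟨0,[]⟩⟩,⟨false,0,⟨0,[]⟩,⟨0,[]⟩⟩,[.o ⟨false,0,⟨0,[(34,0)]⟩,⟨1,[(25,0),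
  (9,1),(1,0)]⟩⟩,.e ⟨false,1,⟨1,[(13,0),(0,0),(21,0)]⟩,⟨0,[]⟩⟩ ⟨false,1,⟨0,[(2,0)]⟩,⟨0,[(9,0),(25,
  0)]⟩⟩,.o ⟨false,0,⟨0,[(9,0)]⟩,⟨1,[(2,0),(17,0),(4,0),(9,0)]⟩⟩,.a ⟨true,(-1),⟨0,[(4,0)]⟩,⟨0,[(2,0),
  (32,0)]⟩⟩ ⟨true,0,⟨0,[(33,0)]⟩,⟨1,[(20,0),(0,0)]⟩⟩ ⟨false,1,⟨0,[(2,0)]⟩,⟨0,[(9,0),(22,0)]⟩⟩]⟩)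
  (.I [1,1,0,-1,0,0,0,-1] (.R ⟨0,false,false,true,[1,0,-1],[2,-1,-1],[],(⟨0,[(23,0)]⟩,⟨0,[(24,0)]⟩),
  (⟨0,[(23,0),(3,0)]⟩,⟨0,[(12,0)]⟩),⟨0,[(12,0)]⟩,.k,.k,.k,.k,.k,.k,⟨true,0,⟨1,[(1,1),(3,1),(26,0),
  (3,3),(1,0)]⟩,⟨0,[(0,0)]⟩⟩,⟨false,0,⟨2,[(14,0),(0,0),(9,0),(1,0),(3,0)]⟩,⟨1,[(26,0),(10,0)]⟩⟩,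
  ⟨true,0,⟨0,[(2,0)]⟩,⟨0,[(0,0),(35,0)]⟩⟩,⟨false,0,⟨0,[(3,0),(1,0)]⟩,⟨1,[(26,0),(9,1),(1,0)]⟩⟩,
  ⟨false,0,⟨0,[]⟩,⟨0,[]⟩⟩,⟨false,0,⟨0,[]⟩,⟨0,[]⟩⟩,[.e ⟨false,1,⟨1,[(14,0),(0,0),(21,0)]⟩,⟨0,[]⟩⟩
  ⟨false,0,⟨1,[(0,1),(30,0),(2,1),(3,0)]⟩,⟨1,[(4,1),(21,0),(10,0)]⟩⟩,.o ⟨false,0,⟨1,[(0,1),(4,0),
  (12,0),(19,0)]⟩,⟨0,[(1,0),(24,0),(9,1)]⟩⟩,.o ⟨false,0,⟨0,[(10,0)]⟩,⟨1,[(3,0),(17,0),(4,0),(9,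
  0)]⟩⟩,.a ⟨true,(-1),⟨0,[(5,0)]⟩,⟨0,[(3,0),(32,0)]⟩⟩ ⟨false,1,⟨1,[(37,0),(0,0)]⟩,⟨1,[(21,0),(0,
  0)]⟩⟩ ⟨true,0,⟨1,[(0,1),(30,0),(2,1),(3,0)]⟩,⟨0,[(1,0),(3,0),(20,0),(9,1)]⟩⟩]⟩) (.Q [0,1,0,1,0,0,
  0,0,0,-1] (.pp true [-1,1]) (.R ⟨0,false,false,false,[-1,1,1],[0,1],[1,1,1],(⟨0,[(13,0)]⟩,⟨0,[(24,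
  0),(3,0)]⟩),(⟨0,[(29,0)]⟩,⟨0,[(28,0)]⟩),⟨0,[(24,0)]⟩,.k,.k,.k,.k,.k,.k,⟨true,0,⟨0,[(36,0)]⟩,⟨0,
  [(1,0),(5,0)]⟩⟩,⟨false,0,⟨0,[(19,0)]⟩,⟨2,[(0,0),(3,1),(17,0),(4,0),(6,0)]⟩⟩,⟨false,1,⟨3,[(4,1),(2,
  2),(2,0),(10,0),(1,0),(15,0)]⟩,⟨0,[(1,0)]⟩⟩,⟨true,0,⟨0,[(7,0),(11,0)]⟩,⟨0,[(0,0),(1,0)]⟩⟩,⟨false,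
  0,⟨0,[]⟩,⟨0,[]⟩⟩,⟨false,0,⟨0,[]⟩,⟨0,[]⟩⟩,[.a ⟨true,0,⟨0,[(37,0)]⟩,⟨0,[(4,0),(1,0)]⟩⟩ ⟨false,0,⟨0,
  [(41,0)]⟩,⟨1,[(38,0),(0,0)]⟩⟩ ⟨true,(-1),⟨0,[(6,0),(30,0)]⟩,⟨1,[(2,0),(1,0),(2,0),(19,0)]⟩⟩,.o
  ⟨false,1,⟨1,[(27,0),(9,1),(1,0)]⟩,⟨0,[(36,0)]⟩⟩,.o ⟨false,2,⟨0,[(4,0),(22,0),(9,0)]⟩,⟨0,[(6,0)]⟩⟩,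
  .e ⟨false,0,⟨0,[]⟩,⟨1,[(15,0),(0,0),(22,0)]⟩⟩ ⟨false,0,⟨0,[(19,0),(14,0)]⟩,⟨1,[(2,0),(1,0),(2,0),
  (19,0)]⟩⟩]⟩) (.R ⟨0,false,false,true,[1,0,-1],[2,-1,-1],[0,1,0,-1,0,0,0,-1],(⟨0,[(24,0)]⟩,⟨0,[(25,
  0)]⟩),(⟨0,[(24,0),(3,0)]⟩,⟨0,[(13,0)]⟩),⟨0,[(13,0)]⟩,.k,.k,.k,.k,.k,.k,⟨true,0,⟨1,[(22,0),(0,0)]⟩,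
  ⟨0,[]⟩⟩,⟨false,0,⟨2,[(15,0),(0,0),(9,0),(1,0),(3,0)]⟩,⟨1,[(27,0),(10,0)]⟩⟩,⟨true,0,⟨0,[(36,0)]⟩,
  ⟨0,[(37,0)]⟩⟩,⟨false,0,⟨12,[(0,4),(3,2),(7,1),(9,0),(9,2),(3,4),(3,1)]⟩,⟨1,[(27,0),(9,1),(1,0)]⟩⟩,
  ⟨false,0,⟨0,[]⟩,⟨0,[]⟩⟩,⟨false,0,⟨0,[]⟩,⟨0,[]⟩⟩,[.e ⟨false,1,⟨0,[(4,0),(16,0)]⟩,⟨0,[(1,0)]⟩⟩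
  ⟨false,0,⟨0,[(0,0),(6,0),(27,1)]⟩,⟨1,[(5,1),(21,0),(10,0)]⟩⟩,.o ⟨false,0,⟨0,[(0,0),(20,0)]⟩,⟨0,
  [(1,0),(20,0),(4,0),(7,0)]⟩⟩,.o ⟨false,0,⟨0,[(11,0)]⟩,⟨1,[(4,0),(17,0),(4,0),(9,0)]⟩⟩,.a ⟨true,
  (-1),⟨0,[(6,0)]⟩,⟨0,[(4,0),(32,0)]⟩⟩ ⟨false,1,⟨1,[(0,1),(6,1),(19,0),(7,1),(2,0)]⟩,⟨0,[(5,0)]⟩⟩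
  ⟨true,0,⟨0,[(0,0),(6,0),(27,1)]⟩,⟨0,[(1,0),(4,0),(15,0),(4,0),(7,0)]⟩⟩]⟩)))) (.I [1,0,0,0,0,0,0,
  1] (.N [0,0,1] 0 ⟨0,[(0,0)]⟩ ⟨0,[(1,0)]⟩ .k) (.R ⟨0,false,false,false,[-1,1,1],[0,1],[1,1,1],(⟨0,
  [(11,0)]⟩,⟨0,[(22,0),(3,0)]⟩),(⟨0,[(27,0)]⟩,⟨0,[(26,0)]⟩),⟨0,[(22,0)]⟩,.k,.k,.k,.k,.k,.k,⟨true,0,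
  ⟨0,[(34,0)]⟩,⟨0,[(0,0),(2,0)]⟩⟩,⟨false,0,⟨0,[(17,0)]⟩,⟨1,[(2,0),(17,0),(4,0),(9,0)]⟩⟩,⟨true,0,⟨0,
  [(0,0),(33,0)]⟩,⟨0,[(3,0),(29,0)]⟩⟩,⟨false,0,⟨1,[(0,1),(3,0),(12,0),(19,0)]⟩,⟨1,[(18,1),(6,0),(11,
  0)]⟩⟩,⟨false,0,⟨0,[]⟩,⟨0,[]⟩⟩,⟨false,0,⟨0,[]⟩,⟨0,[]⟩⟩,[.a ⟨true,0,⟨0,[(35,0)]⟩,⟨0,[(2,0),(1,0)]⟩⟩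
  ⟨false,0,⟨0,[(39,0)]⟩,⟨1,[(36,0),(0,0)]⟩⟩ ⟨true,(-1),⟨0,[(4,0),(30,0)]⟩,⟨1,[(0,1),(5,1),(18,0),
  (11,0)]⟩⟩,.o ⟨false,1,⟨1,[(25,0),(9,1),(1,0)]⟩,⟨0,[(34,0)]⟩⟩,.o ⟨false,2,⟨0,[(2,0),(22,0),(9,0)]⟩,
  ⟨0,[(4,0)]⟩⟩,.e ⟨false,0,⟨0,[]⟩,⟨1,[(13,0),(0,0),(22,0)]⟩⟩ ⟨false,0,⟨0,[(17,0),(14,0)]⟩,⟨1,[(0,1),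
  (5,1),(18,0),(11,0)]⟩⟩]⟩))) (.R ⟨0,false,false,true,[1,0,-1],[1,-1],[0,1],(⟨0,[(20,0)]⟩,⟨0,[(21,
  0)]⟩),(⟨0,[(24,0)]⟩,⟨0,[(25,0)]⟩),⟨0,[(9,0)]⟩,.k,.k,.k,.k,.k,.k,⟨false,0,⟨0,[(33,0)]⟩,⟨3,[(6,1),
  (4,0),(0,0),(22,0)]⟩⟩,⟨true,0,⟨0,[(18,0)]⟩,⟨0,[(7,0)]⟩⟩,⟨false,0,⟨1,[(0,1),(3,1),(29,0),(0,0)]⟩,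
  ⟨1,[(3,1),(30,0),(0,0)]⟩⟩,⟨true,0,⟨0,[(4,0)]⟩,⟨0,[(0,0),(2,0),(30,0)]⟩⟩,⟨false,0,⟨0,[]⟩,⟨0,[]⟩⟩,
  ⟨false,0,⟨0,[]⟩,⟨0,[]⟩⟩,[.o ⟨false,0,⟨0,[(32,0)]⟩,⟨1,[(23,0),(9,1),(1,0)]⟩⟩,.a ⟨true,0,⟨1,[(28,0),
  (3,1),(2,0)]⟩,⟨0,[(33,0)]⟩⟩ ⟨false,1,⟨1,[(11,0),(0,0),(21,0)]⟩,⟨0,[]⟩⟩ ⟨true,1,⟨3,[(6,1),(4,0),(0,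
  0),(5,3),(16,0)]⟩,⟨0,[(0,0)]⟩⟩,.o ⟨false,0,⟨0,[(7,0)]⟩,⟨1,[(18,1),(4,0),(10,0)]⟩⟩,.e ⟨true,0,⟨0,
  [(31,0)]⟩,⟨1,[(18,0),(0,0)]⟩⟩ ⟨true,1,⟨7,[(6,3),(4,0),(0,0),(5,7),(7,1),(7,2)]⟩,⟨0,[(0,0)]⟩⟩]⟩))
  (.R ⟨0,false,false,true,[1,0,-1],[2,-1,-1],[1,0,1],(⟨0,[(19,0)]⟩,⟨0,[(20,0)]⟩),(⟨0,[(19,0),(3,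
  0)]⟩,⟨0,[(8,0)]⟩),⟨0,[(8,0)]⟩,.k,.k,.k,.k,.k,.k,⟨true,0,⟨0,[(4,0),(24,1)]⟩,⟨0,[(0,0)]⟩⟩,⟨false,0,
  ⟨2,[(10,0),(0,0),(9,0),(1,0),(3,0)]⟩,⟨1,[(22,0),(10,0)]⟩⟩,⟨true,0,⟨0,[(4,0),(24,0)]⟩,⟨0,[(0,0),
  (31,0)]⟩⟩,⟨false,0,⟨1,[(27,0),(3,1),(2,0)]⟩,⟨1,[(22,0),(9,1),(1,0)]⟩⟩,⟨false,0,⟨0,[]⟩,⟨0,[]⟩⟩,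
  ⟨false,0,⟨0,[]⟩,⟨0,[]⟩⟩,[.o ⟨false,(-1),⟨0,[(0,0),(0,0)]⟩,⟨0,[(15,0),(6,0),(9,0),(1,0)]⟩⟩,.e
  ⟨false,1,⟨1,[(10,0),(0,0),(22,0)]⟩,⟨0,[(30,0)]⟩⟩ ⟨false,0,⟨1,[(0,1),(26,0),(6,0)]⟩,⟨1,[(6,1),(8,
  1),(6,0),(9,1),(1,0)]⟩⟩,.o ⟨false,0,⟨0,[(6,0)]⟩,⟨1,[(17,1),(4,0),(10,0)]⟩⟩,.a ⟨true,(-1),⟨0,[(1,
  0)]⟩,⟨0,[(17,0),(15,0)]⟩⟩ ⟨true,0,⟨0,[]⟩,⟨0,[(36,0)]⟩⟩ ⟨false,0,⟨1,[(0,1),(26,0),(6,0)]⟩,⟨1,[(6,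
  1),(8,1),(6,0),(6,1),(4,0)]⟩⟩]⟩)) (.I [1,0,0,0,0,0,0,-1] (.R ⟨0,false,false,true,[1,0,-1],[1,-1],
  [1,1,0,0,0,0,0,-1],(⟨0,[(19,0)]⟩,⟨0,[(20,0)]⟩),(⟨0,[(23,0)]⟩,⟨0,[(24,0)]⟩),⟨0,[(8,0)]⟩,.k,.k,.k,
  .k,.k,.k,⟨false,0,⟨0,[(0,0),(31,0)]⟩,⟨1,[(4,1),(28,0),(0,0)]⟩⟩,⟨true,0,⟨0,[(17,0)]⟩,⟨0,[(6,0)]⟩⟩,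
  ⟨false,0,⟨0,[]⟩,⟨1,[(10,0),(0,0),(22,0)]⟩⟩,⟨true,0,⟨0,[(3,0)]⟩,⟨0,[(0,0),(5,0),(25,0)]⟩⟩,⟨false,0,
  ⟨0,[]⟩,⟨0,[]⟩⟩,⟨false,0,⟨0,[]⟩,⟨0,[]⟩⟩,[.o ⟨false,0,⟨0,[(31,0)]⟩,⟨1,[(22,0),(9,1),(1,0)]⟩⟩,.a
  ⟨true,0,⟨1,[(27,0),(3,1),(2,0)]⟩,⟨0,[(32,0)]⟩⟩ ⟨true,0,⟨0,[(0,0)]⟩,⟨0,[(4,0),(24,0)]⟩⟩ ⟨false,1,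
  ⟨3,[(1,1),(3,1),(11,1),(9,0),(6,0)]⟩,⟨0,[(6,0),(25,0)]⟩⟩,.o ⟨false,0,⟨0,[(6,0)]⟩,⟨3,[(1,1),(8,0),
  (0,0),(5,1),(4,0)]⟩⟩,.o ⟨false,0,⟨0,[(18,0)]⟩,⟨0,[(1,0)]⟩⟩]⟩) (.Q [0,0,0,1,0,0,-1,-1,0,0,-1] (.p
  false [0,0,1] [] (⟨0,[(20,0)]⟩,⟨0,[(19,0)]⟩) .k 0 (⟨0,[]⟩,⟨0,[]⟩) .k .k) (.R ⟨0,false,false,true,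
  [1,0,-1],[1,-1],[1,1],(⟨0,[(20,0)]⟩,⟨0,[(21,0)]⟩),(⟨0,[(24,0)]⟩,⟨0,[(25,0)]⟩),⟨0,[(9,0)]⟩,.k,.k,
  .k,.k,.k,.k,⟨false,0,⟨0,[(33,0)]⟩,⟨3,[(6,1),(4,0),(0,0),(22,0)]⟩⟩,⟨true,0,⟨0,[(18,0)]⟩,⟨0,[(7,
  0)]⟩⟩,⟨false,0,⟨0,[(1,0)]⟩,⟨1,[(3,1),(30,0),(0,0)]⟩⟩,⟨true,0,⟨0,[(4,0)]⟩,⟨0,[(0,0)]⟩⟩,⟨false,0,⟨0,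
  []⟩,⟨0,[]⟩⟩,⟨false,0,⟨0,[]⟩,⟨0,[]⟩⟩,[.o ⟨false,0,⟨0,[(32,0)]⟩,⟨1,[(23,0),(9,1),(1,0)]⟩⟩,.a ⟨true,
  0,⟨1,[(28,0),(3,1),(2,0)]⟩,⟨0,[(33,0)]⟩⟩ ⟨true,0,⟨0,[]⟩,⟨1,[(18,0),(0,0)]⟩⟩ ⟨false,1,⟨3,[(2,1),(3,
  1),(11,1),(9,0),(6,0)]⟩,⟨0,[(7,0),(25,0)]⟩⟩,.o ⟨false,0,⟨0,[(7,0)]⟩,⟨3,[(2,1),(8,0),(0,0),(5,1),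
  (4,0)]⟩⟩,.o ⟨false,0,⟨0,[(19,0)]⟩,⟨0,[(2,0)]⟩⟩]⟩) (.I [1,-1,-1,0,1,0,0,-1] (.R ⟨0,false,false,
  false,[1,0,-1],[1,-1],[1,1,0,0,0,0,0,-1],(⟨0,[(21,0)]⟩,⟨0,[(22,0)]⟩),(⟨0,[(25,0)]⟩,⟨0,[(26,0)]⟩),
  ⟨0,[(10,0)]⟩,.k,.k,.k,.k,.k,.k,⟨false,0,⟨0,[(4,0),(27,0),(1,0)]⟩,⟨1,[(1,1),(14,1),(7,0),(11,0)]⟩⟩,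
  ⟨true,0,⟨0,[(19,0)]⟩,⟨0,[(8,0)]⟩⟩,⟨false,0,⟨0,[]⟩,⟨1,[(12,0),(0,0),(22,0)]⟩⟩,⟨true,0,⟨0,[(1,0)]⟩,
  ⟨0,[(18,0),(15,0)]⟩⟩,⟨false,0,⟨0,[]⟩,⟨0,[]⟩⟩,⟨false,0,⟨0,[]⟩,⟨0,[]⟩⟩,[.a ⟨true,0,⟨1,[(29,0),(3,1),
  (2,0)]⟩,⟨0,[(34,0)]⟩⟩ ⟨true,0,⟨0,[(4,0),(27,0)]⟩,⟨0,[(1,0),(6,0),(22,0)]⟩⟩ ⟨false,1,⟨3,[(3,1),(3,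
  1),(11,1),(9,0),(6,0)]⟩,⟨0,[(8,0),(25,0)]⟩⟩,.e ⟨false,1,⟨4,[(0,3),(3,0),(7,0),(0,0),(13,1)]⟩,⟨0,
  [(2,0)]⟩⟩ ⟨false,1,⟨0,[(0,0),(0,0)]⟩,⟨1,[(8,0),(11,0),(6,0),(6,1)]⟩⟩,.o ⟨false,0,⟨0,[(8,0)]⟩,⟨3,
  [(3,1),(8,0),(0,0),(5,1),(4,0)]⟩⟩,.o ⟨false,0,⟨0,[(20,0)]⟩,⟨0,[(3,0)]⟩⟩]⟩) (.R ⟨0,false,false,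
  true,[1,0,-1],[1,-1],[1,0,0,0,0,0,0,-1],(⟨0,[(21,0)]⟩,⟨0,[(22,0)]⟩),(⟨0,[(25,0)]⟩,⟨0,[(26,0)]⟩),
  ⟨0,[(10,0)]⟩,.k,.k,.k,.k,.k,.k,⟨false,1,⟨1,[(4,1),(29,1),(0,0),(0,0)]⟩,⟨0,[(1,0),(6,0),(23,0)]⟩⟩,
  ⟨true,0,⟨0,[(19,0)]⟩,⟨0,[(8,0)]⟩⟩,⟨true,0,⟨0,[]⟩,⟨0,[(38,0)]⟩⟩,⟨false,0,⟨0,[(1,0)]⟩,⟨0,[(18,0),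
  (15,0),(1,0)]⟩⟩,⟨false,0,⟨0,[]⟩,⟨0,[]⟩⟩,⟨false,0,⟨0,[]⟩,⟨0,[]⟩⟩,[.o ⟨false,0,⟨0,[(33,0)]⟩,⟨1,[(24,
  0),(9,1),(1,0)]⟩⟩,.a ⟨true,0,⟨1,[(29,0),(3,1),(2,0)]⟩,⟨0,[(34,0)]⟩⟩ ⟨true,1,⟨1,[(4,1),(30,0),(0,
  0)]⟩,⟨0,[(0,0)]⟩⟩ ⟨false,1,⟨3,[(3,1),(3,1),(11,1),(9,0),(6,0)]⟩,⟨0,[(8,0),(25,0)]⟩⟩,.o ⟨false,0,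
  ⟨0,[(8,0)]⟩,⟨3,[(3,1),(8,0),(0,0),(5,1),(4,0)]⟩⟩,.o ⟨false,0,⟨0,[(20,0)]⟩,⟨0,[(3,0)]⟩⟩]⟩))))) (.I
  [1,-1,0,0,1,0,0,-1] (.S ⟨1,0,[0,0,0,0,0,0,0,1],[0,0,1],[0,1,0,0,0,0,0,1],(⟨0,[(19,0)]⟩,⟨0,[(18,
  0)]⟩),⟨0,[(8,0)]⟩,.k,.k,⟨true,0,⟨0,[(35,0)]⟩,⟨0,[]⟩⟩,⟨false,1,⟨1,[(9,0),(0,0),(22,0)]⟩,⟨0,[]⟩⟩,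
  ⟨false,0,⟨0,[(31,0)]⟩,⟨0,[(30,0),(2,0)]⟩⟩,⟨true,0,⟨0,[(31,0)]⟩,⟨0,[(30,0)]⟩⟩,[.e ⟨false,0,⟨4,[(1,
  3),(12,0),(2,0),(6,1)]⟩,⟨0,[(0,0)]⟩⟩ ⟨false,0,⟨0,[(1,0)]⟩,⟨0,[(0,0),(34,0)]⟩⟩,.o ⟨false,1,⟨1,[(1,
  1),(14,1),(4,0),(11,0)]⟩,⟨0,[(15,0)]⟩⟩,.o ⟨false,1,⟨1,[(16,1),(4,0),(10,0)]⟩,⟨0,[(5,0)]⟩⟩,.a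
  ⟨true,0,⟨0,[(16,0)]⟩,⟨0,[(13,0)]⟩⟩ ⟨false,0,⟨0,[(1,0)]⟩,⟨1,[(0,1),(15,0),(0,0)]⟩⟩ ⟨true,0,⟨0,[(1,
  0)]⟩,⟨0,[(15,0),(0,0)]⟩⟩]⟩) (.I [1,1,0,-1,-1,0,0,1] (.Q [0,0,-1,-1,1,0,1,0,0,0,1] (.p true [0,0,
  1] [] (⟨0,[(20,0)]⟩,⟨0,[(19,0)]⟩) .k 0 (⟨0,[]⟩,⟨0,[]⟩) .k .k) (.Q [0,0,0,0,0,0,-1,-1,0,1,-1] (.p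
  false [0,0,1] [1] (⟨0,[(21,0)]⟩,⟨0,[(20,0)]⟩) .k 1 (⟨0,[]⟩,⟨0,[]⟩) .k .k) (.R ⟨0,false,false,true,
  [1,0,-1],[1,-1],[0,1],(⟨0,[(21,0)]⟩,⟨0,[(22,0)]⟩),(⟨0,[(25,0)]⟩,⟨0,[(26,0)]⟩),⟨0,[(10,0)]⟩,.k,.k,
  .k,.k,.k,.k,⟨false,0,⟨0,[(34,0)]⟩,⟨7,[(1,3),(5,1),(1,1),(14,0),(11,0)]⟩⟩,⟨true,0,⟨0,[(19,0)]⟩,⟨0,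
  [(8,0)]⟩⟩,⟨true,(-1),⟨0,[(3,0)]⟩,⟨0,[(1,0),(16,0),(12,0)]⟩⟩,⟨false,0,⟨2,[(1,0),(0,1),(1,0),(14,1),
  (16,0)]⟩,⟨0,[(18,0),(15,0),(1,0)]⟩⟩,⟨false,0,⟨0,[]⟩,⟨0,[]⟩⟩,⟨false,0,⟨0,[]⟩,⟨0,[]⟩⟩,[.o ⟨false,0,
  ⟨0,[(33,0)]⟩,⟨1,[(24,0),(9,1),(1,0)]⟩⟩,.e ⟨false,1,⟨1,[(12,0),(0,0),(21,0)]⟩,⟨0,[]⟩⟩ ⟨false,1,⟨0,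
  [(1,0)]⟩,⟨0,[(8,0),(25,0)]⟩⟩,.o ⟨false,0,⟨0,[(8,0)]⟩,⟨1,[(1,0),(17,0),(4,0),(9,0)]⟩⟩,.a ⟨true,
  (-1),⟨0,[(0,0),(1,0),(28,0)]⟩,⟨0,[(1,0),(32,0)]⟩⟩ ⟨true,0,⟨0,[(32,0)]⟩,⟨1,[(19,0),(0,0)]⟩⟩ ⟨false,
  1,⟨0,[(1,0)]⟩,⟨0,[(8,0),(22,0)]⟩⟩]⟩) (.R ⟨2,true,false,false,[0,1],[1,1,-1],[1,1,1],(⟨0,[]⟩,⟨0,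
  []⟩),(⟨22,[(12,2),(0,2),(7,22),(1,4),(4,5),(0,2)]⟩,⟨0,[(11,0)]⟩),⟨0,[]⟩,.k,.k,.k,.k,.k,.k,⟨true,
  (-1),⟨0,[(2,0)]⟩,⟨0,[(1,0),(16,0),(12,1)]⟩⟩,⟨false,0,⟨0,[(16,0)]⟩,⟨1,[(1,0),(17,0),(4,0),(9,0)]⟩⟩,
  ⟨true,0,⟨0,[(33,0)]⟩,⟨0,[(34,0)]⟩⟩,⟨false,1,⟨8,[(12,3),(0,3),(4,8),(4,0),(1,0),(3,3),(6,8)]⟩,⟨0,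
  [(0,0)]⟩⟩,⟨false,0,⟨0,[]⟩,⟨1,[(12,0),(0,0),(22,0)]⟩⟩,⟨true,0,⟨1,[(18,1),(10,0),(4,1),(1,0)]⟩,⟨0,
  [(0,0),(32,0)]⟩⟩,[]⟩)) (.R ⟨0,false,false,true,[1,0,-1],[1,-1],[0,1],(⟨0,[(20,0)]⟩,⟨0,[(21,0)]⟩),
  (⟨0,[(24,0)]⟩,⟨0,[(25,0)]⟩),⟨0,[(9,0)]⟩,.k,.k,.k,.k,.k,.k,⟨false,0,⟨0,[(33,0)]⟩,⟨3,[(6,1),(4,0),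
  (0,0),(22,0)]⟩⟩,⟨true,0,⟨0,[(18,0)]⟩,⟨0,[(7,0)]⟩⟩,⟨true,(-1),⟨0,[(2,0)]⟩,⟨1,[(17,1),(0,1),(15,0),
  (0,0)]⟩⟩,⟨false,0,⟨1,[(1,1),(16,1),(15,0),(0,0)]⟩,⟨0,[(17,0),(15,0),(1,0)]⟩⟩,⟨false,0,⟨0,[]⟩,⟨0,
  []⟩⟩,⟨false,0,⟨0,[]⟩,⟨0,[]⟩⟩,[.o ⟨false,0,⟨0,[(32,0)]⟩,⟨1,[(23,0),(9,1),(1,0)]⟩⟩,.a ⟨true,0,⟨1,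
  [(28,0),(3,1),(2,0)]⟩,⟨0,[(33,0)]⟩⟩ ⟨false,1,⟨1,[(11,0),(0,0),(21,0)]⟩,⟨0,[]⟩⟩ ⟨true,1,⟨3,[(6,1),
  (4,0),(0,0),(5,3),(16,0)]⟩,⟨0,[(0,0)]⟩⟩,.o ⟨false,0,⟨0,[(7,0)]⟩,⟨1,[(18,1),(4,0),(10,0)]⟩⟩,.e
  ⟨true,0,⟨0,[(31,0)]⟩,⟨1,[(18,0),(0,0)]⟩⟩ ⟨true,1,⟨7,[(6,3),(4,0),(0,0),(5,7),(7,1),(7,2)]⟩,⟨0,[(0,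
  0)]⟩⟩]⟩)) (.S ⟨1,0,[0,0,0,0,0,0,0,1],[0,0,1],[],(⟨0,[(20,0)]⟩,⟨0,[(19,0)]⟩),⟨0,[(9,0)]⟩,.k,.k,
  ⟨true,1,⟨0,[(0,0),(30,0)]⟩,⟨0,[(1,0)]⟩⟩,⟨false,1,⟨1,[(10,0),(0,0),(22,0)]⟩,⟨0,[]⟩⟩,⟨false,1,⟨0,
  [(0,0)]⟩,⟨0,[(1,0),(29,0),(2,0)]⟩⟩,⟨true,0,⟨0,[(32,0)]⟩,⟨0,[(31,0)]⟩⟩,[.e ⟨false,1,⟨1,[(10,0),(0,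
  0),(21,0)]⟩,⟨0,[]⟩⟩ ⟨false,0,⟨0,[(2,0)]⟩,⟨0,[(0,0),(30,0)]⟩⟩,.o ⟨false,1,⟨1,[(2,1),(14,1),(4,0),
  (11,0)]⟩,⟨0,[(16,0)]⟩⟩,.o ⟨false,1,⟨1,[(17,1),(4,0),(10,0)]⟩,⟨0,[(6,0)]⟩⟩,.a ⟨true,0,⟨0,[(17,0)]⟩,
  ⟨0,[(14,0)]⟩⟩ ⟨false,1,⟨1,[(33,0),(0,0)]⟩,⟨1,[(17,0),(0,0)]⟩⟩ ⟨true,0,⟨0,[(2,0)]⟩,⟨0,[(16,0),(0,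
  0)]⟩⟩]⟩)))) (.R ⟨2,true,false,true,[0,1],[0,0,1],[0,1,1,1],(⟨0,[]⟩,⟨0,[]⟩),(⟨0,[(17,0)]⟩,⟨0,[(16,
  0)]⟩),⟨0,[]⟩,.k,.k,.k,.k,.k,.k,⟨false,0,⟨0,[(0,0),(13,0),(12,0)]⟩,⟨1,[(1,1),(28,0),(0,0)]⟩⟩,⟨true,
  0,⟨0,[(14,0)]⟩,⟨0,[(3,0)]⟩⟩,⟨true,0,⟨0,[(33,0)]⟩,⟨0,[]⟩⟩,⟨false,1,⟨7,[(1,3),(0,1),(4,0),(0,0),(3,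
  3),(1,3),(16,4)]⟩,⟨0,[(0,0)]⟩⟩,⟨false,0,⟨0,[(29,0)]⟩,⟨0,[(28,0),(2,0)]⟩⟩,⟨true,0,⟨0,[(12,0)]⟩,⟨0,
  [(0,0),(27,0)]⟩⟩,[]⟩)))) (.I [1,0,0,-1,0,0,0,1] (.S ⟨1,0,[0,1,1,1,0,0,0,-1],[1,1,-1],[0,0,1,1,0,0,
  0,-1],(⟨22,[(5,2),(0,2),(7,22),(1,4),(4,5),(0,2)]⟩,⟨0,[(4,0)]⟩),⟨0,[(14,0)]⟩,.k,.k,⟨false,1,⟨1,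
  [(5,0),(0,0),(22,0)]⟩,⟨0,[]⟩⟩,⟨true,0,⟨0,[(31,0)]⟩,⟨0,[]⟩⟩,⟨true,0,⟨0,[(27,0)]⟩,⟨0,[(26,0)]⟩⟩,
  ⟨false,0,⟨0,[(27,0)]⟩,⟨0,[(26,0),(2,0)]⟩⟩,[.o ⟨false,0,⟨0,[(11,0),(15,0)]⟩,⟨1,[(0,1),(0,1),(15,0),
  (11,0)]⟩⟩,.a ⟨true,0,⟨1,[(11,1),(10,0),(4,1),(1,0)]⟩,⟨0,[(0,0),(0,0)]⟩⟩ ⟨false,1,⟨0,[(1,0),(9,0),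
  (15,0),(1,0)]⟩,⟨0,[(0,0),(24,0)]⟩⟩ ⟨true,0,⟨0,[(1,0),(9,0),(12,0)]⟩,⟨0,[(0,0)]⟩⟩,.a ⟨true,0,⟨0,
  [(9,0)]⟩,⟨0,[(12,0)]⟩⟩ ⟨true,0,⟨0,[(1,0),(9,0),(12,0)]⟩,⟨0,[(0,0),(24,0)]⟩⟩ ⟨false,0,⟨0,[(1,0),(9,
  0),(12,0)]⟩,⟨1,[(0,1),(27,0),(0,0)]⟩⟩,.a ⟨true,0,⟨5,[(2,2),(2,0),(0,0),(9,0),(1,0),(3,0)]⟩,⟨0,[(1,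
  0)]⟩⟩ ⟨false,1,⟨0,[(1,0),(9,0),(15,0),(1,0)]⟩,⟨0,[(0,0)]⟩⟩ ⟨true,0,⟨0,[(1,0),(9,0),(15,0)]⟩,⟨0,
  [(0,0)]⟩⟩]⟩) (.Q [0,-1,0,-1,0,0,-2,-1,0,2,-2] (.p false [0,0,1] [2,-1,-1] (⟨0,[(15,0)]⟩,⟨0,[(14,
  0)]⟩) .k 2 (⟨0,[(14,0),(3,0)]⟩,⟨0,[(3,0)]⟩) .k (.x (-1) ⟨0,[(1,1),(12,1),(2,0)]⟩ ⟨0,[(2,0),(0,0),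
  (0,0)]⟩)) (.I [0,0,1,1,-1,0,0,-1] (.R ⟨2,true,false,true,[0,1],[0,0,1],[1,1,0,0,0,0,0,1],(⟨0,[]⟩,
  ⟨0,[]⟩),(⟨0,[(17,0)]⟩,⟨0,[(16,0)]⟩),⟨0,[]⟩,.k,.k,.k,.k,.k,.k,⟨true,0,⟨0,[]⟩,⟨1,[(14,0),(0,0)]⟩⟩,
  ⟨false,0,⟨0,[(3,0)]⟩,⟨3,[(4,1),(2,0),(0,0),(10,0),(10,1)]⟩⟩,⟨true,1,⟨1,[(11,1),(0,1),(6,0),(8,1),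
  (2,0)]⟩,⟨0,[(0,0)]⟩⟩,⟨false,1,⟨0,[(12,0),(15,0),(2,0)]⟩,⟨1,[(0,1),(10,1),(7,0),(11,0)]⟩⟩,⟨false,1,
  ⟨1,[(11,1),(0,1),(6,0),(11,0)]⟩,⟨0,[(0,0),(27,0),(2,0)]⟩⟩,⟨true,0,⟨0,[(12,0)]⟩,⟨1,[(0,0),(0,0),
  (17,0),(7,0)]⟩⟩,[]⟩) (.I [0,0,0,0,0,0,0,1] (.I [1,0,1,0,0,0,0,-1] (.S ⟨1,0,[0,0,0,0,0,0,0,1],[0,0,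
  1],[1,1],(⟨0,[(19,0)]⟩,⟨0,[(18,0)]⟩),⟨0,[(8,0)]⟩,.k,.k,⟨true,0,⟨0,[(5,0),(9,0)]⟩,⟨0,[(1,0)]⟩⟩,
  ⟨false,1,⟨1,[(9,0),(0,0),(22,0)]⟩,⟨0,[]⟩⟩,⟨false,0,⟨0,[(4,0)]⟩,⟨0,[(1,0),(28,0),(2,0)]⟩⟩,⟨true,0,
  ⟨0,[(31,0)]⟩,⟨0,[(30,0)]⟩⟩,[.a ⟨true,0,⟨0,[(1,0),(3,0)]⟩,⟨19,[(0,3),(2,7),(0,7),(1,1),(2,0),(0,0),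
  (13,3),(1,0)]⟩⟩ ⟨false,0,⟨0,[(29,0)]⟩,⟨1,[(9,0),(0,0),(22,0)]⟩⟩ ⟨true,0,⟨0,[(1,0)]⟩,⟨0,[(0,0)]⟩⟩,
  .o ⟨false,1,⟨1,[(1,1),(3,1),(15,0),(11,0)]⟩,⟨0,[(15,0)]⟩⟩,.a ⟨true,0,⟨0,[(5,0)]⟩,⟨12,[(3,2),(2,4),
  (2,0),(0,0),(3,2),(11,0),(4,2)]⟩⟩ ⟨false,0,⟨0,[]⟩,⟨1,[(9,0),(0,0),(22,0)]⟩⟩ ⟨true,0,⟨0,[(1,0)]⟩,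
  ⟨0,[(5,0),(9,0)]⟩⟩,.a ⟨true,0,⟨0,[(16,0)]⟩,⟨0,[(13,0)]⟩⟩ ⟨true,0,⟨0,[(29,0)]⟩,⟨1,[(16,0),(0,0)]⟩⟩
  ⟨false,1,⟨1,[(1,1),(30,0),(0,0)]⟩,⟨0,[(0,0)]⟩⟩]⟩) (.S ⟨1,0,[0,0,0,0,0,0,0,1],[0,0,1],[1,1],(⟨0,
  [(19,0)]⟩,⟨0,[(18,0)]⟩),⟨0,[(8,0)]⟩,.k,.k,⟨true,0,⟨0,[(5,0),(9,0)]⟩,⟨0,[(1,0)]⟩⟩,⟨false,1,⟨1,[(9,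
  0),(0,0),(22,0)]⟩,⟨0,[]⟩⟩,⟨false,0,⟨0,[(4,0)]⟩,⟨0,[(1,0),(28,0),(2,0)]⟩⟩,⟨true,0,⟨0,[(31,0)]⟩,⟨0,
  [(30,0)]⟩⟩,[.e ⟨false,0,⟨0,[(29,0)]⟩,⟨1,[(9,0),(0,0),(22,0)]⟩⟩ ⟨false,0,⟨0,[(0,0)]⟩,⟨1,[(15,1),(0,
  1),(15,0),(0,0)]⟩⟩,.o ⟨false,1,⟨1,[(0,1),(15,1),(4,0),(11,0)]⟩,⟨0,[(15,0)]⟩⟩,.a ⟨true,0,⟨0,[(5,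
  0)]⟩,⟨12,[(3,2),(2,4),(2,0),(0,0),(3,2),(11,0),(4,2)]⟩⟩ ⟨false,0,⟨0,[]⟩,⟨1,[(9,0),(0,0),(22,0)]⟩⟩
  ⟨true,0,⟨0,[(1,0)]⟩,⟨0,[(5,0),(9,0)]⟩⟩,.e ⟨true,0,⟨0,[(29,0)]⟩,⟨1,[(16,0),(0,0)]⟩⟩ ⟨true,0,⟨0,[(0,
  0)]⟩,⟨0,[(15,0),(0,0)]⟩⟩]⟩)) (.I [0,0,-1,0,0,0,0,-1] (.Q [0,0,1,0,0,0,2,0,0,-1,2] (.p true [0,0,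
  1] [1,0,-1] (⟨0,[(19,0)]⟩,⟨0,[(18,0)]⟩) .k 2 (⟨0,[(18,0)]⟩,⟨0,[(19,0)]⟩) .k (.x (-1) ⟨0,[(5,1),
  (12,1),(2,0)]⟩ ⟨0,[(6,0),(0,0),(0,0)]⟩)) (.I [1,0,2,1,-1,0,0,-1] (.K ⟨0,[1,1,-1],0,(-1),(⟨22,[(11,
  2),(0,2),(7,22),(1,4),(4,5),(0,2)]⟩,⟨0,[(10,0)]⟩),.k,.k,(.r 1 ⟨0,[(0,0),(32,0)]⟩ ⟨1,[(4,1),(27,1),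
  (1,0),(0,0)]⟩),(.r 1 ⟨0,[(0,0),(1,0)]⟩ ⟨7,[(4,11),(3,1),(2,2),(0,2),(3,3),(6,0),(6,3)]⟩),.k,[⟨0,
  [(1,0)]⟩,⟨12,[(5,2),(2,4),(2,0),(0,0),(3,2),(11,0),(4,2)]⟩,⟨1,[(4,0),(11,0),(1,0),(4,0),(8,0)]⟩,
  ⟨0,[(0,0),(14,0),(15,0)]⟩]⟩) (.I [0,1,1,1,-1,0,0,-1] (.S ⟨1,0,[0,0,1,1,0,0,0,-1],[1,1,-1],[1],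
  (⟨22,[(12,2),(0,2),(7,22),(1,4),(4,5),(0,2)]⟩,⟨0,[(11,0)]⟩),⟨0,[(21,0)]⟩,.k,.k,⟨true,1,⟨0,[(5,
  0)]⟩,⟨0,[(0,0)]⟩⟩,⟨false,1,⟨1,[(12,0),(0,0),(22,0)]⟩,⟨0,[]⟩⟩,⟨false,1,⟨0,[(1,0),(29,0)]⟩,⟨2,[(2,
  1),(3,0),(11,1),(12,0)]⟩⟩,⟨true,0,⟨0,[(34,0)]⟩,⟨0,[(33,0)]⟩⟩,[.o ⟨false,0,⟨3,[(0,0),(2,1),(3,0),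
  (1,1),(14,0),(6,0),(2,0)]⟩,⟨0,[(1,0),(0,0),(17,0)]⟩⟩,.e ⟨false,1,⟨1,[(35,0),(0,0)]⟩,⟨0,[(38,0)]⟩⟩
  ⟨false,0,⟨0,[(3,0),(27,0)]⟩,⟨0,[(5,0),(32,0)]⟩⟩,.a ⟨true,0,⟨0,[(16,0)]⟩,⟨0,[(19,0)]⟩⟩ ⟨true,0,⟨0,
  []⟩,⟨0,[(38,0)]⟩⟩ ⟨false,0,⟨0,[(0,0),(35,0)]⟩,⟨0,[(5,0)]⟩⟩,.e ⟨false,1,⟨1,[(35,0),(0,0)]⟩,⟨1,[(19,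
  0),(0,0)]⟩⟩ ⟨false,0,⟨0,[(3,0),(27,0)]⟩,⟨1,[(5,1),(13,0),(0,0)]⟩⟩]⟩) (.I [1,-1,0,0,0,0,0,-1] (.Q
  [0,0,-2,0,1,0,1,0,0,-1,1] (.p true [0,0,1] [1] (⟨0,[(23,0)]⟩,⟨0,[(22,0)]⟩) .k 1 (⟨0,[]⟩,⟨0,[]⟩)
  .k .k) (.Q [0,0,-1,0,1,0,1,0,0,-2,1] (.p true [-1,1,1] [1] (⟨0,[(12,0)]⟩,⟨0,[(23,0),(3,0)]⟩) .k 1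
  (⟨0,[]⟩,⟨0,[]⟩) .k .k) (.R ⟨0,false,false,true,[-1,1,1],[0,0,1],[0,1,1,0,0,0,0,1],(⟨0,[(13,0)]⟩,
  ⟨0,[(24,0),(3,0)]⟩),(⟨0,[(25,0)]⟩,⟨0,[(24,0)]⟩),⟨0,[(24,0)]⟩,.k,.k,.k,.k,.k,.k,⟨true,0,⟨1,[(22,0),
  (0,0)]⟩,⟨0,[]⟩⟩,⟨false,0,⟨2,[(15,0),(0,0),(9,0),(1,0),(3,0)]⟩,⟨1,[(27,0),(10,0)]⟩⟩,⟨true,0,⟨0,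
  [(36,0)]⟩,⟨0,[(37,0)]⟩⟩,⟨false,0,⟨10,[(3,1),(0,0),(0,1),(3,2),(12,1),(3,0),(1,0),(3,2),(3,4)]⟩,⟨1,
  [(27,0),(9,1),(1,0)]⟩⟩,⟨false,0,⟨0,[]⟩,⟨0,[]⟩⟩,⟨false,0,⟨0,[]⟩,⟨0,[]⟩⟩,[.a ⟨true,0,⟨0,[(20,0)]⟩,
  ⟨4,[(2,1),(6,1),(0,0),(8,0),(14,0)]⟩⟩ ⟨true,0,⟨0,[(20,0),(2,0)]⟩,⟨0,[(2,0)]⟩⟩ ⟨false,0,⟨12,[(9,2),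
  (2,4),(2,0),(0,0),(3,15),(11,0),(4,2)]⟩,⟨1,[(6,1),(20,0),(11,0)]⟩⟩,.o ⟨false,1,⟨1,[(20,1),(6,0),
  (11,0)]⟩,⟨0,[(6,0),(16,0)]⟩⟩,.o ⟨false,1,⟨0,[(0,0)]⟩,⟨0,[(12,0),(9,0)]⟩⟩,.o ⟨false,1,⟨3,[(1,0),(3,
  0),(16,0),(4,2)]⟩,⟨12,[(9,2),(2,4),(2,0),(0,0),(3,2),(11,0),(4,2)]⟩⟩]⟩) (.Q [0,0,-1,0,1,0,2,0,0,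
  -2,2] (.p true [0,0,1] [2,-1,-1] (⟨0,[(25,0)]⟩,⟨0,[(24,0)]⟩) .k 2 (⟨0,[(24,0),(3,0)]⟩,⟨0,[(13,
  0)]⟩) .k (.r (-1) ⟨2,[(3,1),(8,1),(7,3),(6,0),(6,1)]⟩ ⟨2,[(0,7),(3,1),(0,3),(0,7),(26,5),(3,
  1)]⟩)) (.K ⟨0,[2,-1,-1],(-1),(-1),(⟨0,[(25,0),(3,0)]⟩,⟨0,[(14,0)]⟩),.k,(.r (-1) ⟨1,[(0,0),(2,0),
  (1,0),(1,0),(2,0),(26,1)]⟩ ⟨0,[(21,0),(2,0),(10,0),(2,0)]⟩),.k,(.r 0 ⟨0,[(3,0),(3,0),(29,0)]⟩ ⟨7,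
  [(9,3),(3,5),(2,0),(0,0),(3,11),(6,2),(6,11)]⟩),.k,[⟨0,[(0,0)]⟩,⟨1,[(1,1),(21,0),(0,0)]⟩,⟨0,[(21,
  0),(6,0),(9,0)]⟩,⟨0,[(1,0),(5,0),(29,0)]⟩]⟩) (.I [1,0,1,1,0,0,0,1] (.R ⟨0,false,false,true,[-1,1,
  1],[1,0,-1],[0,1],(⟨0,[(15,0)]⟩,⟨0,[(26,0),(3,0)]⟩),(⟨0,[(26,0)]⟩,⟨0,[(27,0)]⟩),⟨0,[(26,0)]⟩,.k,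
  .k,.k,(.r (-1) ⟨1,[(0,2),(9,0),(6,0),(0,0)]⟩ ⟨0,[(4,0),(3,0),(29,0)]⟩),.k,.k,⟨false,1,⟨1,[(0,0),
  (9,0),(29,0)]⟩,⟨0,[(9,0)]⟩⟩,⟨true,(-1),⟨0,[(1,0)]⟩,⟨1,[(3,0),(3,0),(16,0),(4,0)]⟩⟩,⟨true,0,⟨0,[(8,
  0),(29,0)]⟩,⟨0,[(0,0)]⟩⟩,⟨false,(-1),⟨0,[(1,0),(2,0),(3,0),(29,0)]⟩,⟨9,[(0,14),(2,7),(1,1),(1,5),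
  (2,2),(18,2),(11,3)]⟩⟩,⟨false,0,⟨0,[]⟩,⟨0,[]⟩⟩,⟨false,0,⟨0,[]⟩,⟨0,[]⟩⟩,[.e ⟨false,0,⟨0,[(37,0)]⟩,
  ⟨1,[(17,0),(0,0),(22,0)]⟩⟩ ⟨false,(-1),⟨3,[(1,2),(6,1),(14,1),(8,0),(1,0)]⟩,⟨9,[(0,4),(2,7),(1,1),
  (1,5),(2,2),(18,2),(11,3)]⟩⟩,.o ⟨false,0,⟨2,[(1,0),(2,0),(3,0),(14,0),(5,0)]⟩,⟨1,[(22,1),(6,0),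
  (11,0)]⟩⟩,.a ⟨true,1,⟨5,[(3,3),(13,0),(0,0),(5,1),(4,0)]⟩,⟨0,[(2,0)]⟩⟩ ⟨true,0,⟨0,[(43,0)]⟩,⟨0,
  []⟩⟩ ⟨false,(-1),⟨1,[(1,0),(0,0),(1,0),(18,0)]⟩,⟨9,[(0,4),(2,7),(1,1),(1,5),(2,2),(18,2),(11,
  3)]⟩⟩,.o ⟨false,1,⟨3,[(3,0),(3,0),(16,0),(4,2)]⟩,⟨5,[(2,1),(11,1),(2,0),(0,0),(21,0)]⟩⟩]⟩) (.R ⟨0,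
  false,false,false,[-1,1,1],[1,0,-1],[],(⟨0,[(15,0)]⟩,⟨0,[(26,0),(3,0)]⟩),(⟨0,[(26,0)]⟩,⟨0,[(27,
  0)]⟩),⟨0,[(26,0)]⟩,.k,.k,.k,(.r (-1) ⟨7,[(10,3),(3,5),(2,0),(0,0),(3,11),(6,2),(6,11)]⟩ ⟨0,[(0,0),
  (8,0)]⟩),.k,.k,⟨false,1,⟨0,[(10,0),(28,0)]⟩,⟨0,[(9,0)]⟩⟩,⟨true,(-1),⟨0,[(1,0)]⟩,⟨1,[(3,0),(3,0),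
  (16,0),(4,0)]⟩⟩,⟨true,0,⟨0,[(0,0)]⟩,⟨0,[(22,0),(2,0),(13,0)]⟩⟩,⟨false,(-1),⟨0,[(0,0),(0,0),(2,
  0)]⟩,⟨0,[(22,1),(6,0),(9,0),(1,0)]⟩⟩,⟨false,0,⟨0,[]⟩,⟨0,[]⟩⟩,⟨false,0,⟨0,[]⟩,⟨0,[]⟩⟩,[.o ⟨false,0,
  ⟨2,[(1,0),(2,0),(3,0),(14,0),(5,0)]⟩,⟨1,[(22,1),(6,0),(11,0)]⟩⟩,.a ⟨true,0,⟨4,[(4,1),(6,1),(0,0),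
  (8,0),(14,0)]⟩,⟨0,[(22,0)]⟩⟩ ⟨false,1,⟨1,[(40,0),(0,0)]⟩,⟨0,[(43,0)]⟩⟩ ⟨true,(-1),⟨0,[(1,0),(2,
  0)]⟩,⟨3,[(3,0),(3,0),(14,3),(1,0),(4,2)]⟩⟩,.e ⟨false,1,⟨1,[(17,0),(0,0),(22,0)]⟩,⟨0,[]⟩⟩ ⟨false,
  (-1),⟨0,[(1,0),(2,0)]⟩,⟨5,[(3,3),(13,0),(0,0),(3,5),(1,1),(4,3),(11,2)]⟩⟩,.o ⟨false,1,⟨3,[(3,0),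
  (3,0),(16,0),(4,2)]⟩,⟨5,[(2,1),(11,1),(2,0),(0,0),(21,0)]⟩⟩]⟩)))) (.R ⟨0,false,false,true,[1,0,
  -1],[0,1],[1,0,0,0,0,0,0,-1],(⟨0,[(23,0)]⟩,⟨0,[(24,0)]⟩),(⟨0,[(28,0)]⟩,⟨0,[(27,0)]⟩),⟨0,[(12,0)]⟩,
  .k,.k,.k,.k,.k,.k,⟨false,1,⟨1,[(1,0),(1,0),(1,1),(29,0),(2,0)]⟩,⟨0,[(19,0),(2,0),(13,0)]⟩⟩,⟨true,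
  1,⟨3,[(4,1),(21,0),(10,2)]⟩,⟨0,[(0,0)]⟩⟩,⟨true,0,⟨0,[]⟩,⟨0,[(40,0)]⟩⟩,⟨false,1,⟨1,[(19,1),(6,0),
  (9,1),(1,0)]⟩,⟨2,[(0,0),(0,2),(1,0),(4,0),(26,0)]⟩⟩,⟨false,0,⟨0,[]⟩,⟨0,[]⟩⟩,⟨false,0,⟨0,[]⟩,⟨0,
  []⟩⟩,[.e ⟨false,0,⟨0,[(5,0)]⟩,⟨7,[(7,3),(3,1),(2,2),(0,2),(3,3),(6,0),(6,3)]⟩⟩ ⟨false,1,⟨1,[(9,1),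
  (9,1),(6,0),(10,0)]⟩,⟨0,[(0,0),(0,0),(1,0)]⟩⟩,.a ⟨true,0,⟨0,[(36,0)]⟩,⟨10,[(2,1),(0,0),(0,1),(3,
  2),(12,1),(3,0),(1,0),(3,2),(3,4)]⟩⟩ ⟨true,0,⟨0,[(1,0)]⟩,⟨0,[(19,0),(2,0)]⟩⟩ ⟨false,1,⟨3,[(4,1),
  (21,0),(9,3),(0,2)]⟩,⟨2,[(0,0),(2,0),(4,0),(26,0)]⟩⟩,.e ⟨false,0,⟨0,[(1,0)]⟩,⟨7,[(7,3),(3,1),(2,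
  2),(0,2),(3,3),(6,0),(6,3)]⟩⟩ ⟨false,1,⟨3,[(4,1),(9,1),(0,1),(10,0),(9,3),(0,0)]⟩,⟨0,[(0,0),(0,0),
  (1,0)]⟩⟩,.o ⟨false,0,⟨0,[(22,0)]⟩,⟨3,[(4,1),(21,0),(10,2)]⟩⟩]⟩)) (.S ⟨1,0,[0,1,1,1,0,0,0,-1],[1,1,
  -1],[0,1,1],(⟨22,[(13,2),(0,2),(7,22),(1,4),(4,5),(0,2)]⟩,⟨0,[(12,0)]⟩),⟨0,[(22,0)]⟩,.k,.k,⟨false,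
  1,⟨1,[(6,1),(13,0),(0,0)]⟩,⟨0,[(4,0),(27,0)]⟩⟩,⟨true,0,⟨0,[(39,0)]⟩,⟨0,[]⟩⟩,⟨true,0,⟨0,[(0,0)]⟩,
  ⟨0,[(5,0)]⟩⟩,⟨false,0,⟨0,[(35,0)]⟩,⟨0,[(34,0),(2,0)]⟩⟩,[.e ⟨false,0,⟨0,[(39,0)]⟩,⟨1,[(36,0),(0,
  0)]⟩⟩ ⟨false,0,⟨0,[(8,0),(30,0)]⟩,⟨0,[(1,0)]⟩⟩,.o ⟨false,0,⟨0,[(4,0),(16,0),(13,0)]⟩,⟨4,[(0,0),(0,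
  1),(1,2),(2,1),(14,0),(3,0),(8,0)]⟩⟩,.e ⟨false,0,⟨1,[(20,0),(0,0)]⟩,⟨1,[(36,0),(0,0)]⟩⟩ ⟨false,0,
  ⟨1,[(8,0),(10,0),(0,0),(11,0)]⟩,⟨0,[(1,0)]⟩⟩,.a ⟨true,0,⟨12,[(7,2),(2,4),(2,0),(0,0),(3,2),(11,0),
  (4,2)]⟩,⟨0,[(9,0)]⟩⟩ ⟨true,0,⟨0,[(39,0)]⟩,⟨0,[]⟩⟩ ⟨false,0,⟨0,[(8,0)]⟩,⟨1,[(1,1),(18,0),(0,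
  0)]⟩⟩]⟩)))) (.I [0,0,0,-1,0,0,0,-1] (.Q [0,0,-1,0,1,0,2,0,0,-2,2] (.p true [0,0,1] [2,-1,-1] (⟨0,
  [(21,0)]⟩,⟨0,[(20,0)]⟩) .k 2 (⟨0,[(20,0),(3,0)]⟩,⟨0,[(9,0)]⟩) .k (.x (-1) ⟨0,[(7,1),(12,1),(2,
  0)]⟩ ⟨0,[(8,0),(0,0),(0,0)]⟩)) (.Q [0,0,2,0,-1,0,-1,0,0,2,-1] (.p false [-1,1,1] [1] (⟨0,[(10,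
  0)]⟩,⟨0,[(21,0),(3,0)]⟩) .k 1 (⟨0,[]⟩,⟨0,[]⟩) .k .k) (.Q [0,1,0,-1,-1,0,-1,-1,0,2,-1] (.p false
  [-1,1,1] [1] (⟨0,[(11,0)]⟩,⟨0,[(22,0),(3,0)]⟩) .k 1 (⟨0,[]⟩,⟨0,[]⟩) .k .k) (.K ⟨0,[2,-1,-1],(-1),
  (-1),(⟨0,[(23,0),(3,0)]⟩,⟨0,[(12,0)]⟩),.k,(.r (-1) ⟨0,[(3,0),(1,0),(1,0)]⟩ ⟨0,[(19,0),(2,0),(10,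
  0),(2,0)]⟩),.k,(.r 0 ⟨0,[(3,0),(1,0)]⟩ ⟨7,[(7,3),(3,5),(2,0),(0,0),(3,11),(6,2),(6,11)]⟩),.k,[⟨0,
  [(2,0)]⟩,⟨0,[(1,0)]⟩,⟨0,[(19,0),(6,0),(9,0)]⟩,⟨0,[(0,0)]⟩]⟩) (.R ⟨0,false,false,false,[1,0,-1],
  [-1,1,1],[1,0,1],(⟨0,[(23,0)]⟩,⟨0,[(24,0)]⟩),(⟨0,[(12,0)]⟩,⟨0,[(23,0),(3,0)]⟩),⟨0,[(12,0)]⟩,.k,.k,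
  .k,(.r 0 ⟨0,[(3,0),(1,0)]⟩ ⟨7,[(0,6),(0,3),(9,5),(2,3),(0,3),(3,8),(16,0),(1,0)]⟩),.k,.k,⟨true,0,
  ⟨0,[(3,0)]⟩,⟨0,[(0,0),(0,0),(32,0)]⟩⟩,⟨false,1,⟨0,[(0,1),(4,1),(25,0),(3,1)]⟩,⟨5,[(1,3),(9,3),(2,
  2),(0,2),(21,0)]⟩⟩,⟨false,1,⟨11,[(0,5),(0,7),(5,5),(6,2),(0,2),(5,1),(4,1),(11,2)]⟩,⟨0,[(5,0)]⟩⟩,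
  ⟨true,1,⟨0,[(0,0),(18,0)]⟩,⟨0,[(5,1),(16,1),(8,0),(3,0)]⟩⟩,⟨false,0,⟨0,[]⟩,⟨0,[]⟩⟩,⟨false,0,⟨0,
  []⟩,⟨0,[]⟩⟩,[.o ⟨false,1,⟨0,[(0,0),(39,0)]⟩,⟨7,[(3,2),(4,3),(11,0),(0,0),(7,0),(5,0)]⟩⟩,.o ⟨false,
  1,⟨0,[(0,0)]⟩,⟨7,[(3,0),(4,3),(11,2),(0,2),(7,2),(5,2)]⟩⟩,.a ⟨true,0,⟨2,[(1,0),(9,0),(25,0)]⟩,⟨0,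
  [(10,0)]⟩⟩ ⟨true,0,⟨2,[(1,0),(19,0),(4,0)]⟩,⟨0,[(34,0)]⟩⟩ ⟨false,1,⟨0,[(0,0),(9,0)]⟩,⟨6,[(1,0),(6,
  5),(5,0),(0,0),(4,0),(8,1),(5,0)]⟩⟩,.o ⟨false,0,⟨0,[(22,0)]⟩,⟨3,[(2,1),(11,0),(0,0),(21,0)]⟩⟩]⟩))
  (.I [1,0,1,1,0,0,0,1] (.R ⟨0,false,false,true,[-1,1,1],[0,0,1],[1,0,1,1,0,0,0,1],(⟨0,[(12,0)]⟩,⟨0,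
  [(23,0),(3,0)]⟩),(⟨0,[(24,0)]⟩,⟨0,[(23,0)]⟩),⟨0,[(23,0)]⟩,.k,.k,.k,.k,.k,.k,⟨true,0,⟨0,[(33,0)]⟩,
  ⟨0,[(35,0)]⟩⟩,⟨false,0,⟨31,[(0,5),(7,5),(12,11),(3,1),(1,1),(3,8),(5,8),(2,5)]⟩,⟨1,[(26,0),(10,
  0)]⟩⟩,⟨true,0,⟨0,[]⟩,⟨0,[(40,0)]⟩⟩,⟨false,0,⟨1,[(31,0),(3,1),(2,0)]⟩,⟨1,[(26,0),(9,1),(1,0)]⟩⟩,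
  ⟨false,0,⟨0,[]⟩,⟨0,[]⟩⟩,⟨false,0,⟨0,[]⟩,⟨0,[]⟩⟩,[.a ⟨true,0,⟨0,[(19,0)]⟩,⟨1,[(5,0),(2,0),(24,
  0)]⟩⟩ ⟨true,0,⟨0,[(0,0)]⟩,⟨0,[(3,0)]⟩⟩ ⟨false,0,⟨10,[(0,4),(6,0),(0,3),(9,0),(0,8),(9,2),(1,0)]⟩,
  ⟨1,[(5,1),(20,0),(11,0)]⟩⟩,.o ⟨false,1,⟨5,[(0,2),(1,1),(4,2),(13,1),(4,0)]⟩,⟨0,[(5,0),(16,0)]⟩⟩,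
  .o ⟨false,1,⟨2,[(1,0),(0,0),(23,0)]⟩,⟨3,[(0,2),(7,1),(11,0),(0,0),(13,0)]⟩⟩,.o ⟨false,1,⟨2,[(2,0),
  (18,0),(4,1)]⟩,⟨11,[(0,3),(7,3),(2,1),(17,1),(1,0),(5,0)]⟩⟩]⟩) (.R ⟨0,false,false,true,[1,0,-1],
  [-1,1,1],[0,1],(⟨0,[(23,0)]⟩,⟨0,[(24,0)]⟩),(⟨0,[(12,0)]⟩,⟨0,[(23,0),(3,0)]⟩),⟨0,[(12,0)]⟩,.k,.k,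
  .k,(.r 0 ⟨0,[(3,0),(1,0)]⟩ ⟨7,[(7,3),(3,5),(2,0),(0,0),(3,11),(6,2),(6,11)]⟩),.k,.k,⟨true,0,⟨0,
  [(0,0)]⟩,⟨0,[(19,0),(2,0),(10,0)]⟩⟩,⟨false,1,⟨0,[(1,0),(8,0)]⟩,⟨12,[(8,2),(2,17),(2,0),(0,0),(3,
  2),(1,12),(9,0),(4,2)]⟩⟩,⟨false,1,⟨7,[(7,3),(3,1),(2,2),(0,2),(3,3),(6,0),(6,3)]⟩,⟨0,[(0,0),(32,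
  0)]⟩⟩,⟨true,1,⟨0,[(1,0),(17,1),(2,0),(10,0)]⟩,⟨0,[(0,1),(21,1),(8,0),(4,0)]⟩⟩,⟨false,0,⟨0,[]⟩,⟨0,
  []⟩⟩,⟨false,0,⟨0,[]⟩,⟨0,[]⟩⟩,[.o ⟨false,1,⟨0,[(19,0),(6,0),(9,0)]⟩,⟨1,[(0,1),(21,1),(8,0),(6,
  0)]⟩⟩,.o ⟨false,1,⟨0,[(1,0),(17,0),(2,0),(10,0)]⟩,⟨7,[(3,2),(4,3),(11,0),(0,0),(7,0),(5,0)]⟩⟩,.a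
  ⟨true,0,⟨12,[(8,2),(2,4),(2,0),(0,0),(3,2),(11,0),(4,2)]⟩,⟨0,[(10,0)]⟩⟩ ⟨true,0,⟨0,[(40,0)]⟩,⟨0,
  []⟩⟩ ⟨false,1,⟨2,[(1,0),(0,0),(16,2),(6,0),(6,2)]⟩,⟨0,[(8,0)]⟩⟩,.o ⟨false,0,⟨0,[(22,0)]⟩,⟨3,[(2,
  1),(11,0),(0,0),(21,0)]⟩⟩]⟩))) (.I [1,1,1,0,-1,0,0,-1] (.I [0,0,-1,-1,1,0,0,1] (.Q [0,0,0,1,-1,0,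
  -1,-1,0,1,-1] (.p false [0,0,1] [1] (⟨0,[(24,0)]⟩,⟨0,[(23,0)]⟩) .k 1 (⟨0,[]⟩,⟨0,[]⟩) .k .k) (.R
  ⟨2,true,false,true,[0,1],[1,1,-1],[0,1],(⟨0,[]⟩,⟨0,[]⟩),(⟨22,[(15,2),(0,2),(7,22),(1,4),(4,5),(0,
  2)]⟩,⟨0,[(14,0)]⟩),⟨0,[]⟩,.k,.k,.k,.k,.k,.k,⟨true,1,⟨0,[(1,0)]⟩,⟨0,[(2,0),(31,0)]⟩⟩,⟨false,0,⟨0,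
  [(19,0)]⟩,⟨1,[(22,1),(4,0),(10,0)]⟩⟩,⟨false,1,⟨3,[(1,1),(2,1),(10,0),(0,0),(21,0)]⟩,⟨0,[(34,0)]⟩⟩,
  ⟨true,(-1),⟨24,[(0,6),(1,13),(2,7),(0,2),(2,0),(20,2),(1,3),(3,5)]⟩,⟨1,[(20,1),(6,0),(11,0)]⟩⟩,
  ⟨true,0,⟨0,[(35,0)]⟩,⟨1,[(22,0),(0,0)]⟩⟩,⟨false,(-1),⟨0,[(0,0)]⟩,⟨1,[(1,1),(20,1),(4,0),(11,0)]⟩⟩,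
  []⟩) (.S ⟨1,0,[0,0,1,1,0,0,0,-1],[1,1,-1],[1,1,1,0,0,0,0,-1],(⟨22,[(15,2),(0,2),(7,22),(1,4),(4,
  5),(0,2)]⟩,⟨0,[(14,0)]⟩),⟨0,[(24,0)]⟩,.k,.k,⟨true,0,⟨0,[(36,0)]⟩,⟨0,[(37,0)]⟩⟩,⟨false,1,⟨1,[(15,
  0),(0,0),(22,0)]⟩,⟨0,[]⟩⟩,⟨false,0,⟨0,[]⟩,⟨1,[(15,0),(0,0),(22,0)]⟩⟩,⟨true,0,⟨0,[(37,0)]⟩,⟨0,[(36,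
  0)]⟩⟩,[.o ⟨false,0,⟨3,[(2,0),(2,1),(4,2),(16,0),(6,0)]⟩,⟨0,[(0,0)]⟩⟩,.e ⟨false,0,⟨0,[(7,0)]⟩,⟨0,
  [(1,0),(35,0)]⟩⟩ ⟨false,0,⟨0,[(6,0),(27,0)]⟩,⟨0,[(1,0),(39,0)]⟩⟩,.a ⟨true,0,⟨0,[(19,0)]⟩,⟨0,[(22,
  0)]⟩⟩ ⟨true,(-1),⟨0,[(2,0)]⟩,⟨0,[(1,0),(35,0)]⟩⟩ ⟨false,0,⟨1,[(4,0),(5,0),(23,1)]⟩,⟨0,[(8,0)]⟩⟩,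
  .e ⟨false,0,⟨0,[(7,0)]⟩,⟨0,[(1,0),(32,0)]⟩⟩ ⟨false,0,⟨0,[(6,0),(27,0)]⟩,⟨1,[(1,1),(20,0),(0,
  0)]⟩⟩]⟩)) (.N [0,-1,1] (-1) ⟨0,[(7,0)]⟩ ⟨0,[(0,0)]⟩ .k)) (.I [1,0,1,1,0,0,0,1] (.R ⟨0,false,false,
  true,[-1,1,1],[1,0,-1],[0,1],(⟨0,[(12,0)]⟩,⟨0,[(23,0),(3,0)]⟩),(⟨0,[(23,0)]⟩,⟨0,[(24,0)]⟩),⟨0,
  [(23,0)]⟩,.k,.k,.k,(.r (-1) ⟨1,[(0,2),(6,0),(6,0),(0,0)]⟩ ⟨0,[(3,0),(1,0)]⟩),.k,.k,⟨false,1,⟨1,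
  [(0,0),(6,0),(29,0)]⟩,⟨0,[(6,0)]⟩⟩,⟨true,(-1),⟨0,[(2,0)]⟩,⟨0,[(10,1),(15,0)]⟩⟩,⟨true,0,⟨0,[(5,0),
  (29,0)]⟩,⟨0,[(0,0)]⟩⟩,⟨false,(-1),⟨0,[(2,0),(0,0),(1,0)]⟩,⟨0,[(0,0),(0,0),(8,1),(15,0)]⟩⟩,⟨false,
  0,⟨0,[]⟩,⟨0,[]⟩⟩,⟨false,0,⟨0,[]⟩,⟨0,[]⟩⟩,[.e ⟨false,0,⟨0,[(34,0)]⟩,⟨1,[(14,0),(0,0),(22,0)]⟩⟩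
  ⟨false,(-1),⟨3,[(2,2),(2,1),(14,1),(8,0),(1,0)]⟩,⟨0,[(1,0),(8,1),(15,0)]⟩⟩,.o ⟨false,0,⟨4,[(2,1),
  (0,0),(1,2),(14,0),(5,1),(6,0)]⟩,⟨1,[(19,1),(6,0),(11,0)]⟩⟩,.a ⟨true,1,⟨1,[(10,1),(15,0),(10,0)]⟩,
  ⟨0,[(2,0),(7,0)]⟩⟩ ⟨true,0,⟨0,[(40,0)]⟩,⟨0,[]⟩⟩ ⟨false,(-1),⟨0,[(2,0),(3,0)]⟩,⟨0,[(1,0),(8,1),(15,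
  0)]⟩⟩,.o ⟨false,1,⟨0,[(10,0),(15,0)]⟩,⟨11,[(0,3),(7,3),(2,1),(17,1),(1,0),(5,0)]⟩⟩]⟩) (.R ⟨0,
  false,false,false,[-1,1,1],[1,0,-1],[],(⟨0,[(12,0)]⟩,⟨0,[(23,0),(3,0)]⟩),(⟨0,[(23,0)]⟩,⟨0,[(24,
  0)]⟩),⟨0,[(23,0)]⟩,.k,.k,.k,(.r (-1) ⟨3,[(1,1),(9,1),(2,0),(0,0),(3,5),(2,1),(3,0),(6,3)]⟩ ⟨0,[(3,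
  0),(1,0)]⟩),.k,.k,⟨false,1,⟨15,[(1,11),(9,1),(2,2),(0,2),(3,3),(6,0),(2,3)]⟩,⟨0,[(6,0)]⟩⟩,⟨true,
  (-1),⟨0,[(2,0)]⟩,⟨0,[(10,1),(15,0)]⟩⟩,⟨true,0,⟨0,[(0,0)]⟩,⟨0,[(19,0),(2,0),(13,0)]⟩⟩,⟨false,(-1),
  ⟨0,[(0,1),(1,0),(30,0)]⟩,⟨0,[(19,1),(6,0),(9,0),(1,0)]⟩⟩,⟨false,0,⟨0,[]⟩,⟨0,[]⟩⟩,⟨false,0,⟨0,[]⟩,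
  ⟨0,[]⟩⟩,[.o ⟨false,0,⟨2,[(0,0),(1,0),(2,0),(14,0),(5,0),(6,0)]⟩,⟨1,[(19,1),(6,0),(11,0)]⟩⟩,.a
  ⟨true,0,⟨1,[(5,0),(2,0),(24,0)]⟩,⟨0,[(19,0)]⟩⟩ ⟨false,1,⟨1,[(37,0),(0,0)]⟩,⟨0,[(40,0)]⟩⟩ ⟨true,
  (-1),⟨0,[(0,0),(1,0),(30,0)]⟩,⟨0,[(10,0),(8,0),(6,0)]⟩⟩,.e ⟨false,1,⟨1,[(14,0),(0,0),(22,0)]⟩,⟨0,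
  []⟩⟩ ⟨false,(-1),⟨0,[(0,0),(1,0),(30,0)]⟩,⟨1,[(10,1),(8,1),(6,1),(10,0),(0,0)]⟩⟩,.o ⟨false,1,⟨0,
  [(10,0),(15,0)]⟩,⟨15,[(2,5),(8,1),(2,3),(0,3),(15,0),(5,2)]⟩⟩]⟩)))) (.R ⟨0,false,false,true,[1,0,
  -1],[2,-1,-1],[1,0,0,0,0,0,0,-1],(⟨0,[(20,0)]⟩,⟨0,[(21,0)]⟩),(⟨0,[(20,0),(3,0)]⟩,⟨0,[(9,0)]⟩),⟨0,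
  [(9,0)]⟩,.k,.k,.k,.k,.k,.k,⟨true,0,⟨0,[(30,0)]⟩,⟨0,[(32,0)]⟩⟩,⟨false,0,⟨2,[(11,0),(0,0),(9,0),(1,
  0),(3,0)]⟩,⟨1,[(23,0),(10,0)]⟩⟩,⟨true,0,⟨0,[]⟩,⟨0,[(37,0)]⟩⟩,⟨false,0,⟨1,[(28,0),(3,1),(2,0)]⟩,⟨1,
  [(23,0),(9,1),(1,0)]⟩⟩,⟨false,0,⟨0,[]⟩,⟨0,[]⟩⟩,⟨false,0,⟨0,[]⟩,⟨0,[]⟩⟩,[.e ⟨false,0,⟨0,[(2,0)]⟩,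
  ⟨3,[(0,1),(3,1),(6,1),(0,1),(5,0),(0,0)]⟩⟩ ⟨false,0,⟨1,[(2,0),(2,0),(1,1),(18,0),(5,0)]⟩,⟨1,[(0,
  1),(22,0),(11,0)]⟩⟩,.o ⟨false,0,⟨1,[(3,0),(1,0),(26,0)]⟩,⟨0,[(0,0),(6,0),(15,0)]⟩⟩,.a ⟨true,0,⟨12,
  [(5,2),(2,4),(2,0),(0,0),(3,2),(11,0),(4,2)]⟩,⟨0,[(7,0)]⟩⟩ ⟨true,0,⟨0,[(3,0)]⟩,⟨0,[(0,0),(31,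
  0)]⟩⟩ ⟨false,0,⟨1,[(3,0),(1,0),(1,1),(24,0)]⟩,⟨1,[(0,1),(22,0),(11,0)]⟩⟩,.o ⟨false,0,⟨0,[(19,0)]⟩,
  ⟨1,[(7,1),(15,0),(10,0)]⟩⟩]⟩))) (.I [1,1,1,0,-1,0,0,-1] (.S ⟨1,0,[0,1,0,0,0,0,0,1],[0,0,1],[0,0,0,
  0,0,0,0,1],(⟨0,[(20,0)]⟩,⟨0,[(19,0)]⟩),⟨0,[(9,0)]⟩,.k,.k,⟨false,1,⟨1,[(10,0),(0,0),(22,0)]⟩,⟨0,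
  []⟩⟩,⟨true,0,⟨0,[(36,0)]⟩,⟨0,[]⟩⟩,⟨true,0,⟨0,[(32,0)]⟩,⟨0,[(31,0)]⟩⟩,⟨false,0,⟨0,[(32,0)]⟩,⟨0,
  [(31,0),(2,0)]⟩⟩,[.a ⟨true,0,⟨0,[(15,0)]⟩,⟨0,[(0,0),(13,0),(19,0)]⟩⟩ ⟨false,1,⟨0,[(1,0),(31,0)]⟩,
  ⟨0,[(2,0)]⟩⟩ ⟨true,0,⟨0,[(1,0),(28,0)]⟩,⟨0,[(0,0),(33,0)]⟩⟩,.o ⟨false,1,⟨1,[(15,1),(6,0),(11,0)]⟩,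
  ⟨1,[(0,1),(13,1),(7,0),(11,0)]⟩⟩,.a ⟨true,0,⟨0,[(6,0)]⟩,⟨12,[(4,2),(2,4),(2,0),(0,0),(3,2),(11,0),
  (4,2)]⟩⟩ ⟨false,1,⟨1,[(1,1),(31,0),(0,0)]⟩,⟨0,[(2,0)]⟩⟩ ⟨true,0,⟨0,[(1,0),(28,0)]⟩,⟨0,[(2,0)]⟩⟩,
  .a ⟨true,0,⟨0,[(17,0)]⟩,⟨0,[(14,0)]⟩⟩ ⟨true,1,⟨0,[(1,0),(31,0)]⟩,⟨0,[(0,0)]⟩⟩ ⟨false,1,⟨0,[(1,0),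
  (31,0)]⟩,⟨0,[(0,0),(33,0)]⟩⟩]⟩) (.I [1,0,0,0,0,0,0,1] (.N [0,0,1] 0 ⟨0,[(0,0)]⟩ ⟨0,[(3,0)]⟩ .k)
  (.Q [0,1,0,-1,0,0,1,1,0,0,1] (.p true [0,0,1] [] (⟨0,[(21,0)]⟩,⟨0,[(20,0)]⟩) .k 0 (⟨0,[]⟩,⟨0,[]⟩)
  .k .k) (.I [0,1,-1,-1,0,0,0,-1] (.Q [0,-1,0,1,1,0,0,1,0,-1] (.pp true [-1,1]) (.R ⟨0,false,false,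
  true,[1,0,-1],[2,-1,-1],[1,0,1],(⟨0,[(23,0)]⟩,⟨0,[(24,0)]⟩),(⟨0,[(23,0),(3,0)]⟩,⟨0,[(12,0)]⟩),⟨0,
  [(12,0)]⟩,.k,.k,.k,.k,.k,.k,⟨true,0,⟨0,[(5,0),(27,0)]⟩,⟨0,[(1,0)]⟩⟩,⟨false,0,⟨2,[(14,0),(0,0),(9,
  0),(1,0),(3,0)]⟩,⟨1,[(26,0),(10,0)]⟩⟩,⟨true,0,⟨0,[(5,0)]⟩,⟨1,[(1,0),(7,0),(24,0)]⟩⟩,⟨false,0,⟨1,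
  [(2,0),(5,0),(1,0)]⟩,⟨3,[(0,1),(8,1),(16,0),(11,0)]⟩⟩,⟨false,0,⟨0,[]⟩,⟨0,[]⟩⟩,⟨false,0,⟨0,[]⟩,⟨0,
  []⟩⟩,[.e ⟨false,0,⟨0,[]⟩,⟨1,[(14,0),(0,0),(21,0)]⟩⟩ ⟨false,0,⟨3,[(1,2),(6,0),(12,1),(7,0),(1,0),
  (5,0)]⟩,⟨0,[(0,0)]⟩⟩,.e ⟨false,1,⟨1,[(14,0),(0,0),(22,0)]⟩,⟨0,[(34,0)]⟩⟩ ⟨false,0,⟨1,[(1,1),(29,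
  0),(6,0)]⟩,⟨0,[(0,0),(39,0)]⟩⟩,.a ⟨true,0,⟨12,[(8,2),(2,4),(2,0),(0,0),(3,2),(11,0),(4,2)]⟩,⟨0,
  [(10,0)]⟩⟩ ⟨true,0,⟨1,[(21,0),(0,0)]⟩,⟨0,[(34,0)]⟩⟩ ⟨false,0,⟨1,[(1,0),(6,0),(1,0),(10,0)]⟩,⟨0,
  [(0,0)]⟩⟩,.o ⟨false,0,⟨0,[(22,0)]⟩,⟨1,[(10,1),(15,0),(10,0)]⟩⟩]⟩) (.S ⟨1,0,[0,0,0,0,0,0,0,1],[0,0,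
  1],[0,1,0,0,0,0,0,1],(⟨0,[(24,0)]⟩,⟨0,[(23,0)]⟩),⟨0,[(13,0)]⟩,.k,.k,⟨true,0,⟨0,[(40,0)]⟩,⟨0,[]⟩⟩,
  ⟨false,1,⟨1,[(14,0),(0,0),(22,0)]⟩,⟨0,[]⟩⟩,⟨false,0,⟨0,[(36,0)]⟩,⟨0,[(35,0),(2,0)]⟩⟩,⟨true,0,⟨0,
  [(36,0)]⟩,⟨0,[(35,0)]⟩⟩,[.o ⟨false,1,⟨1,[(19,1),(6,0),(11,0)]⟩,⟨0,[(0,0),(17,0),(7,0),(6,0)]⟩⟩,.e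
  ⟨false,1,⟨4,[(4,3),(0,0),(8,0),(0,0),(13,1)]⟩,⟨0,[(6,0)]⟩⟩ ⟨false,1,⟨0,[(4,0)]⟩,⟨6,[(1,1),(7,1),
  (10,2),(0,2),(7,0)]⟩⟩,.a ⟨true,0,⟨0,[(10,0)]⟩,⟨12,[(8,2),(2,4),(2,0),(0,0),(3,2),(11,0),(4,2)]⟩⟩
  ⟨true,0,⟨0,[(5,0),(28,0)]⟩,⟨0,[(6,0)]⟩⟩ ⟨false,1,⟨3,[(4,1),(0,1),(8,0),(0,0),(22,0)]⟩,⟨0,[(6,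
  0)]⟩⟩,.e ⟨false,1,⟨4,[(4,3),(0,0),(8,0),(0,0),(13,1)]⟩,⟨1,[(0,1),(25,0),(6,1),(4,0)]⟩⟩ ⟨false,1,
  ⟨0,[(4,0)]⟩,⟨1,[(3,1),(17,0),(0,0)]⟩⟩]⟩)) (.Q [0,0,0,1,0,0,-1,0,0,0,-1] (.p false [0,0,1] [] (⟨0,
  [(23,0)]⟩,⟨0,[(22,0)]⟩) .k 0 (⟨0,[]⟩,⟨0,[]⟩) .k .k) (.R ⟨0,false,false,true,[1,0,-1],[1,-1],[],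
  (⟨0,[(23,0)]⟩,⟨0,[(24,0)]⟩),(⟨0,[(27,0)]⟩,⟨0,[(28,0)]⟩),⟨0,[(12,0)]⟩,.k,.k,.k,.k,.k,.k,⟨true,0,⟨0,
  [(1,0),(1,0)]⟩,⟨0,[(35,0)]⟩⟩,⟨false,0,⟨0,[(10,0)]⟩,⟨3,[(11,1),(2,0),(0,0),(10,0),(10,1)]⟩⟩,⟨false,
  1,⟨3,[(4,1),(0,1),(8,0),(0,0),(22,0)]⟩,⟨0,[(6,0)]⟩⟩,⟨true,0,⟨0,[(2,0)]⟩,⟨0,[(0,0),(2,0)]⟩⟩,⟨false,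
  0,⟨0,[]⟩,⟨0,[]⟩⟩,⟨false,0,⟨0,[]⟩,⟨0,[]⟩⟩,[.o ⟨false,0,⟨0,[(35,0)]⟩,⟨1,[(26,0),(9,1),(1,0)]⟩⟩,.e
  ⟨false,1,⟨1,[(37,0),(0,0)]⟩,⟨0,[(40,0)]⟩⟩ ⟨false,1,⟨1,[(10,1),(24,1),(1,0),(0,0)]⟩,⟨0,[(0,0)]⟩⟩,
  .a ⟨true,0,⟨12,[(8,2),(2,4),(2,0),(0,0),(3,2),(11,0),(4,2)]⟩,⟨0,[(10,0)]⟩⟩ ⟨false,1,⟨1,[(14,0),(0,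
  0),(22,0)]⟩,⟨0,[]⟩⟩ ⟨true,0,⟨0,[(10,0),(24,0)]⟩,⟨0,[(0,0)]⟩⟩,.o ⟨false,0,⟨0,[(22,0)]⟩,⟨1,[(10,1),
  (15,0),(10,0)]⟩⟩]⟩) (.Q [0,0,1,1,0,0,1,0,0,-1,1] (.p true [0,0,1] [1] (⟨0,[(24,0)]⟩,⟨0,[(23,0)]⟩)
  .k 1 (⟨0,[]⟩,⟨0,[]⟩) .k .k) (.R ⟨1,false,false,true,[0,0,1],[1,-1],[0,1,0,-1],(⟨0,[(25,0)]⟩,⟨0,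
  [(24,0)]⟩),(⟨0,[(28,0)]⟩,⟨0,[(29,0)]⟩),⟨0,[(14,0)]⟩,.k,.k,.k,.k,.k,.k,⟨true,0,⟨1,[(22,0),(0,0)]⟩,
  ⟨0,[]⟩⟩,⟨false,0,⟨12,[(9,2),(2,4),(2,0),(0,0),(3,2),(11,0),(4,2)]⟩,⟨1,[(11,1),(15,0),(10,0)]⟩⟩,
  ⟨true,0,⟨0,[(1,0),(19,0)]⟩,⟨0,[(2,0),(32,0)]⟩⟩,⟨false,0,⟨1,[(1,0),(7,0),(11,0)]⟩,⟨0,[(0,0),(4,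
  0)]⟩⟩,⟨false,0,⟨0,[(4,0)]⟩,⟨3,[(5,1),(0,1),(8,0),(0,0),(22,0)]⟩⟩,⟨false,0,⟨19,[(9,6),(0,6),(4,2),
  (0,2),(4,5),(10,2),(8,0)]⟩,⟨2,[(0,0),(0,1),(0,0),(2,1),(21,0)]⟩⟩,[.o ⟨false,0,⟨0,[(36,0)]⟩,⟨1,
  [(27,0),(9,1),(1,0)]⟩⟩,.a ⟨true,0,⟨1,[(1,0),(7,0),(10,0)]⟩,⟨0,[(37,0)]⟩⟩ ⟨false,1,⟨1,[(36,1),(1,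
  0),(0,0)]⟩,⟨0,[(37,0)]⟩⟩ ⟨true,0,⟨0,[(1,0),(10,0)]⟩,⟨0,[(0,0)]⟩⟩,.a ⟨true,0,⟨0,[(11,0)]⟩,⟨12,[(9,
  2),(2,4),(2,0),(0,0),(3,2),(11,0),(4,2)]⟩⟩ ⟨true,0,⟨0,[(36,0)]⟩,⟨0,[(37,0)]⟩⟩ ⟨false,0,⟨0,[(1,0),
  (10,0)]⟩,⟨1,[(0,1),(37,0),(0,0)]⟩⟩,.a ⟨true,0,⟨0,[(22,0)]⟩,⟨0,[(19,0)]⟩⟩ ⟨false,1,⟨1,[(36,1),(1,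
  0),(0,0)]⟩,⟨0,[(34,0)]⟩⟩ ⟨true,0,⟨0,[(19,0),(16,0)]⟩,⟨0,[(0,0)]⟩⟩]⟩) (.R ⟨1,false,false,true,[0,0,
  1],[1,-1],[0,1,0,-1],(⟨0,[(25,0)]⟩,⟨0,[(24,0)]⟩),(⟨0,[(28,0)]⟩,⟨0,[(29,0)]⟩),⟨0,[(14,0)]⟩,.k,.k,
  .k,.k,.k,.k,⟨true,0,⟨1,[(22,0),(0,0)]⟩,⟨0,[]⟩⟩,⟨false,0,⟨12,[(9,2),(2,4),(2,0),(0,0),(3,2),(11,0),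
  (4,2)]⟩,⟨1,[(11,1),(15,0),(10,0)]⟩⟩,⟨true,0,⟨0,[(1,0),(19,0)]⟩,⟨0,[(2,0),(32,0)]⟩⟩,⟨false,0,⟨1,
  [(1,0),(7,0),(11,0)]⟩,⟨1,[(2,0),(2,0),(5,1),(15,0),(9,0)]⟩⟩,⟨false,0,⟨0,[(4,0)]⟩,⟨3,[(5,1),(0,1),
  (8,0),(0,0),(22,0)]⟩⟩,⟨false,0,⟨19,[(9,6),(0,6),(4,2),(0,2),(4,5),(10,2),(8,0)]⟩,⟨1,[(1,0),(0,0),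
  (2,0),(5,0),(15,0)]⟩⟩,[.o ⟨false,0,⟨0,[(36,0)]⟩,⟨1,[(27,0),(9,1),(1,0)]⟩⟩,.e ⟨false,1,⟨1,[(36,1),
  (1,0),(0,0)]⟩,⟨0,[(37,0)]⟩⟩ ⟨false,0,⟨0,[(0,0)]⟩,⟨1,[(22,1),(4,0),(9,1),(0,0)]⟩⟩,.a ⟨true,0,⟨0,
  [(11,0)]⟩,⟨12,[(9,2),(2,4),(2,0),(0,0),(3,2),(11,0),(4,2)]⟩⟩ ⟨true,0,⟨0,[(36,0)]⟩,⟨0,[(37,0)]⟩⟩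
  ⟨false,0,⟨2,[(0,0),(5,0),(2,0),(26,0)]⟩,⟨1,[(11,1),(15,0),(9,1),(1,0)]⟩⟩,.e ⟨false,1,⟨1,[(36,1),
  (1,0),(0,0)]⟩,⟨0,[(34,0)]⟩⟩ ⟨false,0,⟨0,[(0,0)]⟩,⟨1,[(22,1),(4,0),(9,1),(1,0)]⟩⟩]⟩)))) (.S ⟨1,0,
  [0,0,0,0,0,0,0,1],[0,0,1],[1],(⟨0,[(22,0)]⟩,⟨0,[(21,0)]⟩),⟨0,[(11,0)]⟩,.k,.k,⟨true,0,⟨0,[(4,0)]⟩,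
  ⟨0,[(3,0),(28,0)]⟩⟩,⟨false,1,⟨1,[(12,0),(0,0),(22,0)]⟩,⟨0,[]⟩⟩,⟨false,0,⟨0,[(0,0),(7,0)]⟩,⟨6,[(3,
  2),(1,4),(0,0),(5,0),(0,0),(5,1),(4,0),(8,0)]⟩⟩,⟨true,0,⟨0,[(34,0)]⟩,⟨0,[(33,0)]⟩⟩,[.o ⟨false,1,
  ⟨1,[(17,1),(6,0),(11,0)]⟩,⟨0,[(0,0),(32,0)]⟩⟩,.e ⟨false,1,⟨1,[(35,0),(0,0)]⟩,⟨0,[(38,0)]⟩⟩ ⟨false,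
  1,⟨0,[(2,0)]⟩,⟨2,[(1,1),(16,0),(0,0),(7,0)]⟩⟩,.a ⟨true,0,⟨0,[(8,0)]⟩,⟨12,[(6,2),(2,4),(2,0),(0,0),
  (3,2),(11,0),(4,2)]⟩⟩ ⟨true,0,⟨0,[]⟩,⟨0,[(38,0)]⟩⟩ ⟨false,1,⟨3,[(2,1),(0,1),(8,0),(0,0),(22,0)]⟩,
  ⟨0,[(4,0)]⟩⟩,.e ⟨false,1,⟨1,[(35,0),(0,0)]⟩,⟨1,[(19,0),(0,0)]⟩⟩ ⟨false,1,⟨0,[(2,0)]⟩,⟨1,[(1,1),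
  (17,0),(0,0)]⟩⟩]⟩))))))) (.I [0,-1,1,1,0,0,0,1] (.Q [0,0,0,1,0,0,-1,-1,0,0,-1] (.p false [0,0,1]
  [] (⟨0,[(17,0)]⟩,⟨0,[(16,0)]⟩) .k 0 (⟨0,[]⟩,⟨0,[]⟩) .k .k) (.I [0,0,0,0,0,0,0,1] (.S ⟨1,1,[],[0,0,
  1],[1,1],(⟨0,[(19,0)]⟩,⟨0,[(18,0)]⟩),⟨0,[(8,0)]⟩,.k,.k,⟨true,0,⟨0,[(5,0),(9,0)]⟩,⟨0,[(0,0)]⟩⟩,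
  ⟨false,1,⟨0,[(15,0),(17,0)]⟩,⟨0,[(0,0),(4,0)]⟩⟩,⟨false,0,⟨0,[(4,0)]⟩,⟨0,[(0,0),(29,0),(2,0)]⟩⟩,
  ⟨true,0,⟨0,[(1,0)]⟩,⟨0,[(0,0),(4,0),(24,0)]⟩⟩,[.fo,.o ⟨false,1,⟨1,[(21,0),(11,0)]⟩,⟨0,[(35,0)]⟩⟩,
  .e ⟨false,0,⟨0,[]⟩,⟨1,[(9,0),(0,0),(22,0)]⟩⟩ ⟨false,1,⟨3,[(6,1),(2,0),(0,0),(10,0),(11,1)]⟩,⟨0,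
  [(5,0)]⟩⟩,.a ⟨true,0,⟨0,[(16,0)]⟩,⟨0,[(13,0)]⟩⟩ ⟨true,0,⟨0,[(29,0)]⟩,⟨1,[(16,0),(0,0)]⟩⟩ ⟨false,1,
  ⟨1,[(13,1),(7,0),(11,0)]⟩,⟨0,[(16,0)]⟩⟩]⟩) (.Q [0,0,0,0,0,0,1,1,0,0,1] (.p true [0,0,1] [] (⟨0,
  [(19,0)]⟩,⟨0,[(18,0)]⟩) .k 0 (⟨0,[]⟩,⟨0,[]⟩) .k .k) (.R ⟨2,true,false,true,[0,1],[0,0,1],[1,1],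
  (⟨0,[]⟩,⟨0,[]⟩),(⟨0,[(20,0)]⟩,⟨0,[(19,0)]⟩),⟨0,[]⟩,.k,.k,.k,.k,.k,.k,⟨true,0,⟨0,[(1,0)]⟩,⟨0,[(3,
  0),(27,0)]⟩⟩,⟨false,0,⟨0,[(6,0)]⟩,⟨3,[(7,1),(2,0),(0,0),(10,0),(10,1)]⟩⟩,⟨false,1,⟨1,[(31,1),(1,
  0),(0,0)]⟩,⟨0,[(1,0),(1,0)]⟩⟩,⟨true,0,⟨0,[(0,0),(30,0)]⟩,⟨0,[(2,0)]⟩⟩,⟨true,0,⟨0,[(30,0)]⟩,⟨1,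
  [(17,0),(0,0)]⟩⟩,⟨false,0,⟨0,[(0,0)]⟩,⟨0,[(16,0),(17,0)]⟩⟩,[]⟩) (.Q [0,-1,0,0,0,0,-1,-1,0,1,-1]
  (.p false [0,0,1] [1] (⟨0,[(20,0)]⟩,⟨0,[(19,0)]⟩) .k 1 (⟨0,[]⟩,⟨0,[]⟩) .k .k) (.R ⟨2,true,false,
  false,[0,1],[1,0,-1],[1,0,1],(⟨0,[]⟩,⟨0,[]⟩),(⟨0,[(20,0)]⟩,⟨0,[(21,0)]⟩),⟨0,[]⟩,.k,.k,.k,.k,.k,.k,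
  ⟨true,0,⟨0,[(4,0),(27,0)]⟩,⟨0,[(0,1),(4,0),(26,0)]⟩⟩,⟨false,0,⟨5,[(8,2),(2,0),(0,0),(9,0),(1,0),
  (3,0)]⟩,⟨1,[(7,1),(15,0),(10,0)]⟩⟩,⟨false,1,⟨0,[(32,0),(2,0)]⟩,⟨0,[(33,0)]⟩⟩,⟨true,0,⟨0,[(0,0),
  (31,0)]⟩,⟨1,[(4,0),(0,0),(20,0)]⟩⟩,⟨true,0,⟨0,[]⟩,⟨0,[(37,0)]⟩⟩,⟨false,0,⟨0,[(0,0)]⟩,⟨1,[(16,1),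
  (6,0),(11,0)]⟩⟩,[]⟩) (.R ⟨1,true,false,false,[0,0,1],[0,1],[1,1,1],(⟨0,[(21,0)]⟩,⟨0,[(20,0)]⟩),
  (⟨0,[(25,0)]⟩,⟨0,[(24,0)]⟩),⟨0,[(10,0)]⟩,.k,.k,.k,.k,(.r (-2) ⟨1,[(0,1),(14,1),(16,3),(1,0),(0,
  2)]⟩ ⟨0,[(1,1),(0,0),(1,0),(0,0),(22,0),(7,0)]⟩),.k,⟨true,0,⟨0,[(32,0)]⟩,⟨0,[(1,0),(2,0),(2,0)]⟩⟩,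
  ⟨false,1,⟨1,[(15,1),(7,0),(10,0)]⟩,⟨0,[(18,0)]⟩⟩,⟨false,0,⟨1,[(2,1),(15,0),(0,0)]⟩,⟨0,[(0,0),(14,
  0),(19,0)]⟩⟩,⟨true,0,⟨0,[(3,0)]⟩,⟨1,[(0,1),(27,0),(3,1),(2,0)]⟩⟩,⟨true,(-1),⟨0,[(1,1),(3,0),(22,
  0),(7,0)]⟩,⟨0,[(0,0),(14,0),(16,0),(2,0)]⟩⟩,⟨false,0,⟨1,[(1,3),(0,1),(1,1),(0,1),(9,1),(12,0),(6,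
  0)]⟩,⟨1,[(0,1),(27,0),(3,3),(2,2)]⟩⟩,[]⟩)))) (.I [0,0,0,0,0,0,0,1] (.S ⟨1,0,[0,1,1,1,0,0,0,-1],[1,
  1,-1],[0,0,1],(⟨22,[(9,2),(0,2),(7,22),(1,4),(4,5),(0,2)]⟩,⟨0,[(8,0)]⟩),⟨0,[(18,0)]⟩,.k,.k,⟨false,
  1,⟨3,[(1,2),(4,1),(7,0),(6,0),(8,0),(2,2)]⟩,⟨0,[(4,0)]⟩⟩,⟨true,0,⟨0,[(35,0)]⟩,⟨0,[]⟩⟩,⟨true,0,⟨0,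
  [(0,0)]⟩,⟨0,[(5,0),(9,0)]⟩⟩,⟨false,0,⟨0,[(31,0)]⟩,⟨0,[(30,0),(2,0)]⟩⟩,[.o ⟨false,0,⟨0,[(15,0),(15,
  0)]⟩,⟨1,[(1,1),(19,0),(11,0)]⟩⟩,.e ⟨false,1,⟨1,[(9,0),(0,0),(22,0)]⟩,⟨0,[(29,0)]⟩⟩ ⟨false,0,⟨0,
  [(4,0)]⟩,⟨3,[(1,2),(4,1),(7,0),(6,0),(8,0),(1,1),(0,0)]⟩⟩,.a ⟨true,0,⟨0,[(13,0)]⟩,⟨0,[(16,0)]⟩⟩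
  ⟨true,0,⟨1,[(16,0),(0,0)]⟩,⟨0,[(29,0)]⟩⟩ ⟨false,0,⟨1,[(4,0),(10,0),(0,0),(11,0)]⟩,⟨1,[(1,1),(11,
  1),(7,0),(11,0)]⟩⟩,.e ⟨false,1,⟨1,[(9,0),(0,0),(22,0)]⟩,⟨0,[]⟩⟩ ⟨false,0,⟨0,[(4,0)]⟩,⟨3,[(1,2),(4,
  1),(7,0),(6,0),(8,0),(2,2)]⟩⟩]⟩) (.R ⟨0,false,false,false,[1,0,-1],[0,-1,1],[0,1],(⟨0,[(18,0)]⟩,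
  ⟨0,[(19,0)]⟩),(⟨0,[(8,0)]⟩,⟨22,[(9,2),(0,2),(7,22),(1,4),(4,5),(0,2)]⟩),⟨0,[(7,0)]⟩,.k,.k,.k,(.r
  0 ⟨1,[(0,1),(3,0),(10,0),(0,0),(11,0)]⟩ ⟨19,[(1,27),(0,5),(0,1),(2,17),(7,3),(6,6),(10,12)]⟩),.k,
  .k,⟨false,0,⟨0,[(4,0),(30,0)]⟩,⟨1,[(1,1),(11,1),(7,0),(11,0)]⟩⟩,⟨true,0,⟨3,[(0,5),(0,3),(1,1),(12,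
  0),(0,0),(10,1)]⟩,⟨0,[(6,0)]⟩⟩,⟨true,0,⟨5,[(1,0),(1,1),(2,3),(7,2),(15,0)]⟩,⟨0,[(0,0)]⟩⟩,⟨false,1,
  ⟨9,[(1,13),(0,1),(0,1),(10,1),(6,2),(10,0),(0,5)]⟩,⟨0,[(0,0),(3,0),(1,0)]⟩⟩,⟨false,0,⟨0,[]⟩,⟨0,
  []⟩⟩,⟨false,0,⟨0,[]⟩,⟨0,[]⟩⟩,[.e ⟨false,0,⟨0,[(29,0)]⟩,⟨1,[(9,0),(0,0),(22,0)]⟩⟩ ⟨false,1,⟨1,[(1,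
  1),(3,1),(15,0),(10,0)]⟩,⟨0,[(4,0),(1,0)]⟩⟩,.o ⟨false,1,⟨1,[(1,1),(19,0),(11,0)]⟩,⟨0,[(15,0),(15,
  0)]⟩⟩,.a ⟨true,0,⟨5,[(6,2),(2,0),(0,0),(9,0),(1,0),(3,0)]⟩,⟨0,[(5,0)]⟩⟩ ⟨true,0,⟨0,[(35,0)]⟩,⟨0,
  []⟩⟩ ⟨false,1,⟨1,[(1,1),(3,1),(15,0),(11,0)]⟩,⟨0,[(4,0),(1,0)]⟩⟩,.o ⟨false,0,⟨0,[(17,0)]⟩,⟨1,[(5,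
  1),(15,0),(10,0)]⟩⟩]⟩))) (.Q [0,0,0,-1,0,0,-1,-1,0,1,-1] (.p false [0,0,1] [1] (⟨0,[(17,0)]⟩,⟨0,
  [(16,0)]⟩) .k 1 (⟨0,[]⟩,⟨0,[]⟩) .k .k) (.R ⟨0,false,false,false,[1,0,-1],[2,-1,-1],[0,0,0,-1,0,0,
  0,-1],(⟨0,[(17,0)]⟩,⟨0,[(18,0)]⟩),(⟨0,[(17,0),(3,0)]⟩,⟨0,[(6,0)]⟩),⟨0,[(6,0)]⟩,.k,.k,.k,.k,.k,.k,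
  ⟨true,0,⟨1,[(15,0),(0,0)]⟩,⟨0,[]⟩⟩,⟨false,0,⟨2,[(8,0),(0,0),(9,0),(1,0),(3,0)]⟩,⟨1,[(20,0),(10,
  0)]⟩⟩,⟨false,1,⟨0,[(29,0),(2,0)]⟩,⟨0,[(30,0)]⟩⟩,⟨true,0,⟨1,[(25,0),(3,1),(2,0)]⟩,⟨0,[(1,0),(0,0),
  (2,0),(21,0)]⟩⟩,⟨false,0,⟨0,[]⟩,⟨0,[]⟩⟩,⟨false,0,⟨0,[]⟩,⟨0,[]⟩⟩,[.o ⟨false,0,⟨0,[(0,0)]⟩,⟨5,[(2,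
  3),(2,1),(7,1),(6,2),(9,1),(1,2)]⟩⟩,.e ⟨false,1,⟨0,[(1,0),(30,0)]⟩,⟨2,[(2,0),(2,1),(7,1),(16,
  1)]⟩⟩ ⟨false,1,⟨1,[(0,1),(3,1),(26,0),(0,0)]⟩,⟨0,[(2,0),(2,0)]⟩⟩,.a ⟨true,0,⟨5,[(5,2),(2,0),(0,0),
  (9,0),(1,0),(3,0)]⟩,⟨0,[(4,0)]⟩⟩ ⟨false,1,⟨3,[(0,1),(0,1),(13,1),(4,0),(11,2)]⟩,⟨1,[(2,1),(2,1),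
  (19,0),(6,0)]⟩⟩ ⟨true,0,⟨0,[(0,0),(3,0)]⟩,⟨0,[(2,0),(2,0)]⟩⟩,.o ⟨false,0,⟨0,[(16,0)]⟩,⟨1,[(4,1),
  (15,0),(10,0)]⟩⟩]⟩) (.R ⟨0,false,false,true,[-1,1,1],[0,0,1],[1,0,1,1,0,0,0,1],(⟨0,[(6,0)]⟩,⟨0,
  [(17,0),(3,0)]⟩),(⟨0,[(18,0)]⟩,⟨0,[(17,0)]⟩),⟨0,[(17,0)]⟩,.k,.k,.k,.k,.k,.k,⟨true,0,⟨0,[(27,0)]⟩,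
  ⟨0,[(29,0)]⟩⟩,⟨false,0,⟨2,[(8,0),(0,0),(9,0),(1,0),(3,0)]⟩,⟨1,[(20,0),(10,0)]⟩⟩,⟨true,0,⟨0,[]⟩,⟨0,
  [(34,0)]⟩⟩,⟨false,0,⟨1,[(25,0),(3,1),(2,0)]⟩,⟨1,[(20,0),(9,1),(1,0)]⟩⟩,⟨false,0,⟨0,[]⟩,⟨0,[]⟩⟩,
  ⟨false,0,⟨0,[]⟩,⟨0,[]⟩⟩,[.o ⟨false,0,⟨0,[(0,0),(28,0)]⟩,⟨0,[(14,0),(17,0)]⟩⟩,.a ⟨true,0,⟨1,[(0,1),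
  (24,0),(3,1),(2,0)]⟩,⟨7,[(1,1),(1,1),(1,1),(8,3),(10,2),(6,2),(0,1)]⟩⟩ ⟨true,0,⟨1,[(0,1),(15,1),
  (8,0),(6,0)]⟩,⟨1,[(1,1),(13,0),(0,0)]⟩⟩ ⟨false,0,⟨7,[(0,4),(4,3),(7,2),(5,0),(1,0),(3,3),(3,4),(2,
  3)]⟩,⟨3,[(1,1),(1,1),(16,1),(10,0),(0,0)]⟩⟩,.o ⟨false,1,⟨1,[(0,1),(0,1),(18,0),(11,0)]⟩,⟨0,[(5,0),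
  (9,0)]⟩⟩,.o ⟨false,1,⟨0,[(4,0),(15,0)]⟩,⟨5,[(5,2),(2,0),(0,0),(9,0),(1,0),(3,0)]⟩⟩]⟩))))))

theorem ok0 : chk K t0 base = true := by decide +kernel

theorem closed {p a b c J l q : ℤ} {D dl : ℝ} {Cl : ℤ → ℤ → ℤ → ℤ → ℝ → Prop}
    (W : World p a b c J 1 l q D dl Cl) (g : G0 p a b c J D)
    {N X R : ℤ} {I : ℝ} (hk : KCl p l Cl N X R I) (kz : KF a b D (X + (1 : ℤ) * I) (X + (1 : ℤ) * I + R) I)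
    {Ne Xe : ℤ} {Ie : ℝ} (he : EFac p 1 D Cl 1 Ne Xe Ie)
    (hkf : ∀ kf ∈ (kfY 1 [0,0,0,0,0,0,1,0,0,0,1]), KOk p l Cl 1
      (xv [1, a, b, c, p, J, X, R, Xe] [D, I, Ie]) N kf)
    (h0 : 1 ≤ (c : ℝ))
    (h1 : 1 ≤ (a : ℝ) - (b : ℝ))
    (h2 : 1 ≤ 1 - (a : ℝ) + (b : ℝ) + (c : ℝ))
    (h3 : 0 < -1 + (p : ℝ) - 2 * D)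
    (h4 : 0 < 3 - (p : ℝ) + 2 * D)
    (h5 : 0 < 1 + 3 * (J : ℝ) - D)
    (h6 : 1 ≤ 2 * (a : ℝ) - (b : ℝ))
    (h7 : 1 ≤ -2 + (J : ℝ))
    (h8 : 0 < -(b : ℝ) - (X : ℝ) + D - I)
    (h9 : 0 < -(J : ℝ) + I)
    (h10 : 0 < (J : ℝ) - D + I)
    (h11 : 0 < -2 * (X : ℝ) + D - 2 * I) : False := by
  have g1 := g.a2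
  have g2 := g.b2
  have g3 := g.pa
  have g4 := g.pb
  have g5 := g.J1
  have g6 := g.JD
  have g7 := g.D2
  have g8 := g.ca
  have g9 := g.ca'
  have k1 := kz.I0
  have k2 := kz.ID
  have k3 := kz.z1
  have k4 := kz.z2
  have k5 := kz.s1
  have k6 := kz.s2
  have e1 := he.I0
  have e2 := he.ID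
  have e3 := he.x0
  have e4 := he.xp
  push_cast at *
  refine (val_E W.toBase hk he (row := [1]) (by simp) (by simp) (kfY 1 [0,0,0,0,0,0,1,0,0,0,1])).sound W rfl (Nk := N)
    (fun kf _ _ => ⟨_, rfl⟩) hkf ?_ ok0
  · simp only [base, List.forall_mem_cons, List.not_mem_nil, false_imp_iff, implies_true,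
      and_true, hld, xv, evg_cons, evg_nil, List.map_cons, List.map_nil, List.cons_append,
      List.nil_append, if_true, if_false, Bool.false_eq_true]
    push_cast
    refine ⟨?_, ?_, ?_, ?_, ?_, ?_, ?_, ?_, ?_, ?_, ?_, ?_, ?_, ?_, ?_, ?_, ?_, ?_, ?_, ?_, ?_, ?_, ?_, ?_, ?_, ?_, ?_, ?_, ?_, ?_⟩ <;> linarith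

end Helper48.Y.Y11_c2_P3_m1n0

namespace Helper48.Y.Y11_c2_P4_m0n1

open Helper25.KG Helper25.KW Helper55.KE Helper11.CT

noncomputable def K : Cls :=
  cE 1 [1] (kfY 1 [0,0,0,0,0,0,1,0,0,0,1])

noncomputable def base : List Con :=
  [(false,[0,0,0,0,0,0,-2,0,0,1,-2]),
  (false,[0,0,0,0,0,-1,0,0,0,1,-1]),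
  (false,[0,0,0,0,0,1,0,0,0,0,-1]),
  (false,[0,0,0,0,1,0,0,0,-1,0,0,-1]),
  (false,[0,0,0,0,0,0,0,0,1,0,0,1]),
  (false,[0,0,0,0,0,0,0,0,0,1,0,-1]),
  (false,[0,0,0,0,0,0,0,0,0,0,0,1]),
  (false,[0,0,-1,0,0,0,-1,0,0,1,-1]),
  (false,[0,1,0,0,0,0,1,1,0,0,1]),
  (false,[0,1,0,0,0,0,-1,-1,0,0,-1]),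
  (false,[0,0,1,0,0,0,1,0,0,0,1]),
  (false,[0,0,1,0,0,0,-1,0,0,0,-1]),
  (false,[0,0,0,0,0,0,0,0,0,1,-1]),
  (false,[0,0,0,0,0,0,0,0,0,0,1]),
  (true,[-2,0,0,0,0,1]),
  (false,[0,0,0,0,1,0,0,0,0,-2]),
  (false,[0,0,0,0,0,-1,0,0,0,1]),
  (true,[0,0,0,0,0,1]),
  (true,[0,2,-1]),
  (false,[-3,0,0,0,1,0,0,0,0,-2]),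
  (true,[1,-1,1,1]),
  (true,[0,1,-1]),
  (true,[0,1,0,-1]),
  (true,[0,0,0,1]),
  (true,[0,0,-2,0,1]),
  (true,[0,-2,0,0,1]),
  (true,[-1,0,1]),
  (true,[-1,1])]

noncomputable def l0 : List Con := (false, [0,0,0,0,0,0,-1,0,0,0,-1]) :: base

noncomputable def r0 : List Con := (false, [0,0,0,0,0,0,1,0,0,0,1]) :: base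

noncomputable def t0 : Tre :=
  (.Q [0,0,0,0,0,0,-1,-1,0,0,-1] (.p false [0,0,1] [] (⟨0,[(14,0)]⟩,⟨0,[(13,0)]⟩) .k 0 (⟨0,[]⟩,⟨0,
  []⟩) .k .k) (.I [0,1,0,-1,0,0,0,1] (.Q [0,-1,0,1,0,0,-1,-1,0,0,-1] (.p false [0,0,1] [] (⟨0,[(16,
  0)]⟩,⟨0,[(15,0)]⟩) .k 0 (⟨0,[]⟩,⟨0,[]⟩) .k .k) (.R ⟨2,true,false,true,[0,1],[0,0,1],[0,1,1,1],(⟨0,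
  []⟩,⟨0,[]⟩),(⟨0,[(17,0)]⟩,⟨0,[(16,0)]⟩),⟨0,[]⟩,.k,.k,.k,.k,.k,.k,⟨false,0,⟨0,[(0,0),(13,0),(10,
  0)]⟩,⟨1,[(1,1),(26,0),(0,0)]⟩⟩,⟨true,0,⟨0,[(14,0)]⟩,⟨0,[(3,0)]⟩⟩,⟨true,0,⟨0,[(31,0)]⟩,⟨0,[]⟩⟩,
  ⟨false,1,⟨0,[(12,0),(13,0),(2,0)]⟩,⟨0,[(0,0)]⟩⟩,⟨false,0,⟨0,[(27,0)]⟩,⟨0,[(26,0),(2,0)]⟩⟩,⟨true,0,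
  ⟨0,[(12,0)]⟩,⟨0,[(2,0)]⟩⟩,[]⟩) (.Q [0,1,0,0,-1,0,0,-1,0,1] (.pp false [-1,1]) (.R ⟨0,false,false,
  true,[0,1,-1],[1,0,-1],[1,1,1],(⟨0,[(7,0)]⟩,⟨0,[(18,0),(2,0)]⟩),(⟨0,[(17,0)]⟩,⟨0,[(18,0)]⟩),⟨0,
  [(18,0)]⟩,.k,.k,.k,.k,.k,.k,⟨true,0,⟨0,[(2,0),(22,0)]⟩,⟨1,[(0,1),(19,0),(9,0)]⟩⟩,⟨false,0,⟨0,[(12,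
  0),(2,0)]⟩,⟨1,[(20,0),(8,0)]⟩⟩,⟨true,0,⟨0,[(2,0)]⟩,⟨1,[(0,1),(19,0),(7,1),(1,0)]⟩⟩,⟨false,0,⟨0,
  [(0,0),(1,0),(27,0)]⟩,⟨1,[(20,0),(7,1),(1,0)]⟩⟩,⟨false,0,⟨0,[]⟩,⟨0,[]⟩⟩,⟨false,0,⟨0,[]⟩,⟨0,[]⟩⟩,
  [.e ⟨false,0,⟨0,[(32,0)]⟩,⟨1,[(29,0),(0,0)]⟩⟩ ⟨false,(-1),⟨0,[(0,0)]⟩,⟨0,[(12,0),(0,0),(6,0),(9,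
  0)]⟩⟩,.o ⟨false,0,⟨0,[(3,0)]⟩,⟨1,[(13,1),(6,0),(9,0)]⟩⟩,.o ⟨false,1,⟨0,[(12,0),(7,0)]⟩,⟨0,[(15,
  0)]⟩⟩,.a ⟨true,0,⟨0,[(4,0)]⟩,⟨0,[(0,0),(12,0),(16,0)]⟩⟩ ⟨false,0,⟨0,[]⟩,⟨1,[(8,0),(0,0),(20,0)]⟩⟩
  ⟨true,(-1),⟨0,[(0,0)]⟩,⟨3,[(2,1),(9,1),(0,1),(6,2),(4,1),(4,0)]⟩⟩]⟩) (.I [1,-1,0,1,0,0,0,1] (.R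
  ⟨2,true,false,false,[0,1],[0,1,1],[1,0,1,1,0,0,0,1],(⟨0,[]⟩,⟨0,[]⟩),(⟨0,[(19,0),(3,0)]⟩,⟨0,[(7,
  0)]⟩),⟨0,[]⟩,.k,.k,.k,.k,.k,.k,⟨true,0,⟨0,[]⟩,⟨1,[(16,0),(0,0)]⟩⟩,⟨false,1,⟨0,[(16,0),(13,0)]⟩,⟨0,
  [(5,0)]⟩⟩,⟨true,0,⟨1,[(0,0),(2,0)]⟩,⟨0,[(4,0),(11,0),(10,0)]⟩⟩,⟨false,1,⟨0,[(14,0),(16,0)]⟩,⟨0,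
  [(4,0)]⟩⟩,⟨false,0,⟨0,[(0,0)]⟩,⟨1,[(4,1),(11,1),(11,1),(1,0),(0,0)]⟩⟩,⟨true,0,⟨0,[(0,0),(15,0),
  (10,0)]⟩,⟨0,[(4,0),(23,0)]⟩⟩,[]⟩) (.I [0,0,0,1,0,0,0,-1] (.Q [0,0,0,1,0,0,-1,-1,0,-1,-1] (.p
  false [1,-1,1] [] (⟨0,[(20,0),(2,0)]⟩,⟨0,[(9,0)]⟩) .k 0 (⟨0,[]⟩,⟨0,[]⟩) .k .k) (.Q [0,-1,0,0,0,0,
  0,-1,0,1] (.pp false [-1,1]) (.R ⟨0,false,false,true,[0,0,1],[1,-1,1],[0,1,0,-1,0,0,0,1],(⟨0,[(22,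
  0)]⟩,⟨0,[(21,0)]⟩),(⟨0,[(22,0),(2,0)]⟩,⟨0,[(11,0)]⟩),⟨0,[(11,0)]⟩,.k,.k,.k,.k,.k,.k,⟨true,0,⟨1,
  [(19,0),(0,0)]⟩,⟨0,[]⟩⟩,⟨false,0,⟨2,[(0,1),(8,0),(7,1)]⟩,⟨1,[(24,0),(8,0)]⟩⟩,⟨true,0,⟨0,[(31,0)]⟩,
  ⟨0,[(32,0)]⟩⟩,⟨false,0,⟨0,[(0,0),(5,0)]⟩,⟨0,[(2,0),(1,0)]⟩⟩,⟨false,0,⟨0,[]⟩,⟨0,[]⟩⟩,⟨false,0,⟨0,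
  []⟩,⟨0,[]⟩⟩,[.o ⟨false,0,⟨0,[(5,0)]⟩,⟨5,[(1,1),(0,3),(6,1),(14,2),(9,2)]⟩⟩,.o ⟨false,1,⟨1,[(5,1),
  (6,0),(0,0),(20,0)]⟩,⟨0,[(1,0)]⟩⟩,.o ⟨false,1,⟨1,[(19,1),(4,0),(8,0)]⟩,⟨0,[(8,0)]⟩⟩,.a ⟨true,0,⟨0,
  [(19,0)]⟩,⟨0,[(16,0)]⟩⟩ ⟨false,1,⟨1,[(6,1),(26,0),(0,0)]⟩,⟨1,[(0,0),(0,0),(17,0),(9,0)]⟩⟩ ⟨true,0,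
  ⟨0,[(5,0),(10,0)]⟩,⟨0,[(1,0),(17,0)]⟩⟩]⟩) (.Q [0,1,0,1,0,0,1,1,0,-1,1] (.p true [0,0,1] [1] (⟨0,
  [(22,0)]⟩,⟨0,[(21,0)]⟩) .k 1 (⟨0,[]⟩,⟨0,[]⟩) .k .k) (.Q [0,0,0,-1,0,0,0,0,0,1] (.pp false [-1,1])
  (.I [1,-1,-1,-1,1,0,0,1] (.R ⟨0,false,false,true,[0,0,1],[1,-1,1],[1,0,0,0,0,0,0,1],(⟨0,[(25,0)]⟩,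
  ⟨0,[(24,0)]⟩),(⟨0,[(25,0),(2,0)]⟩,⟨0,[(14,0)]⟩),⟨0,[(14,0)]⟩,.k,.k,.k,.k,.k,.k,⟨true,0,⟨0,[(32,
  0)]⟩,⟨0,[(34,0)]⟩⟩,⟨false,0,⟨0,[(19,0),(2,0)]⟩,⟨1,[(27,0),(8,0)]⟩⟩,⟨true,0,⟨0,[]⟩,⟨0,[(39,0)]⟩⟩,
  ⟨false,0,⟨0,[(1,0)]⟩,⟨0,[(5,0),(1,0)]⟩⟩,⟨false,0,⟨0,[]⟩,⟨0,[]⟩⟩,⟨false,0,⟨0,[]⟩,⟨0,[]⟩⟩,[.o
  ⟨false,0,⟨0,[(8,0)]⟩,⟨5,[(4,1),(0,3),(6,1),(14,2),(9,2)]⟩⟩,.o ⟨false,1,⟨1,[(0,0),(7,0),(6,0),(0,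
  0),(5,0)]⟩,⟨0,[(4,0)]⟩⟩,.o ⟨false,1,⟨1,[(22,1),(4,0),(8,0)]⟩,⟨0,[(11,0)]⟩⟩,.a ⟨true,0,⟨0,[(22,
  0)]⟩,⟨0,[(19,0)]⟩⟩ ⟨false,1,⟨1,[(0,0),(1,0),(16,0),(17,0)]⟩,⟨0,[(10,0),(11,0)]⟩⟩ ⟨true,0,⟨0,[(8,
  0),(10,0)]⟩,⟨0,[(4,0),(17,0)]⟩⟩]⟩) (.R ⟨0,false,false,true,[0,0,1],[1,-1,1],[0,1,0,-1,0,0,0,1],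
  (⟨0,[(25,0)]⟩,⟨0,[(24,0)]⟩),(⟨0,[(25,0),(2,0)]⟩,⟨0,[(14,0)]⟩),⟨0,[(14,0)]⟩,.k,.k,.k,.k,.k,.k,
  ⟨true,0,⟨1,[(22,0),(0,0)]⟩,⟨0,[]⟩⟩,⟨false,0,⟨0,[(19,0),(2,0)]⟩,⟨1,[(27,0),(8,0)]⟩⟩,⟨true,0,⟨0,
  [(34,0)]⟩,⟨0,[(35,0)]⟩⟩,⟨false,0,⟨0,[(1,0)]⟩,⟨0,[(5,0),(1,0)]⟩⟩,⟨false,0,⟨0,[]⟩,⟨0,[]⟩⟩,⟨false,0,
  ⟨0,[]⟩,⟨0,[]⟩⟩,[.o ⟨false,0,⟨0,[(8,0)]⟩,⟨5,[(4,1),(0,3),(6,1),(14,2),(9,2)]⟩⟩,.o ⟨false,1,⟨1,[(8,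
  1),(6,0),(0,0),(20,0)]⟩,⟨0,[(4,0)]⟩⟩,.o ⟨false,1,⟨1,[(22,1),(4,0),(8,0)]⟩,⟨0,[(11,0)]⟩⟩,.a ⟨true,
  0,⟨0,[(22,0)]⟩,⟨0,[(19,0)]⟩⟩ ⟨false,1,⟨1,[(9,1),(26,0),(0,0)]⟩,⟨0,[(0,0),(36,0)]⟩⟩ ⟨true,0,⟨0,[(8,
  0),(10,0)]⟩,⟨0,[(4,0),(17,0)]⟩⟩]⟩)) (.I [0,-1,1,1] (.R ⟨0,false,false,false,[0,0,1],[0,1],[1,1,1],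
  (⟨0,[(25,0)]⟩,⟨0,[(24,0)]⟩),(⟨0,[(29,0)]⟩,⟨0,[(28,0)]⟩),⟨0,[(14,0)]⟩,.k,.k,.k,.k,.k,.k,⟨true,0,⟨0,
  [(34,0)]⟩,⟨0,[(0,0)]⟩⟩,⟨false,1,⟨1,[(19,1),(7,0),(8,0)]⟩,⟨0,[(22,0)]⟩⟩,⟨false,0,⟨0,[(10,0),(11,
  0)]⟩,⟨0,[(1,0),(6,0),(10,0),(17,0)]⟩⟩,⟨true,0,⟨2,[(4,0),(0,1),(6,0)]⟩,⟨0,[(8,0)]⟩⟩,⟨false,0,⟨0,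
  []⟩,⟨0,[]⟩⟩,⟨false,0,⟨0,[]⟩,⟨0,[]⟩⟩,[.o ⟨false,0,⟨0,[(1,0)]⟩,⟨1,[(15,0),(0,0),(17,1),(2,0)]⟩⟩,.o
  ⟨false,1,⟨0,[(5,0),(1,0)]⟩,⟨0,[(34,0)]⟩⟩,.o ⟨false,1,⟨1,[(22,1),(4,0),(8,0)]⟩,⟨0,[(11,0)]⟩⟩,.a
  ⟨true,0,⟨0,[(22,0)]⟩,⟨0,[(19,0)]⟩⟩ ⟨false,0,⟨0,[]⟩,⟨1,[(15,0),(0,0),(20,0)]⟩⟩ ⟨true,0,⟨0,[(1,0),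
  (17,0)]⟩,⟨0,[(22,0),(11,0)]⟩⟩]⟩) (.Q [0,0,0,-1,0,0,-1,-1,0,1,-1] (.p false [0,0,1] [1] (⟨0,[(25,
  0)]⟩,⟨0,[(24,0)]⟩) .k 1 (⟨0,[]⟩,⟨0,[]⟩) .k .k) (.R ⟨0,false,false,true,[0,0,1],[1,-1],[0,1,0,-1],
  (⟨0,[(26,0)]⟩,⟨0,[(25,0)]⟩),(⟨0,[(29,0)]⟩,⟨0,[(30,0)]⟩),⟨0,[(15,0)]⟩,.k,.k,.k,.k,.k,.k,⟨true,0,⟨1,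
  [(23,0),(0,0)]⟩,⟨0,[]⟩⟩,⟨false,0,⟨1,[(13,0),(6,0),(2,0)]⟩,⟨1,[(1,1),(0,1),(20,1),(13,0),(0,0)]⟩⟩,
  ⟨true,0,⟨0,[(7,0)]⟩,⟨0,[(2,0),(6,0),(10,0),(12,0)]⟩⟩,⟨false,0,⟨0,[(0,0)]⟩,⟨0,[(3,0),(34,0)]⟩⟩,
  ⟨false,0,⟨0,[]⟩,⟨0,[]⟩⟩,⟨false,0,⟨0,[]⟩,⟨0,[]⟩⟩,[.o ⟨false,0,⟨0,[(35,0)]⟩,⟨0,[(6,0),(1,0)]⟩⟩,.o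
  ⟨false,1,⟨1,[(16,0),(0,0),(17,1),(2,0)]⟩,⟨0,[(2,0)]⟩⟩,.o ⟨false,1,⟨1,[(23,1),(4,0),(8,0)]⟩,⟨0,
  [(12,0)]⟩⟩,.a ⟨true,0,⟨0,[(23,0)]⟩,⟨0,[(20,0)]⟩⟩ ⟨false,1,⟨1,[(35,1),(1,0),(0,0)]⟩,⟨0,[(33,0)]⟩⟩
  ⟨true,0,⟨4,[(0,1),(0,0),(8,1),(9,2),(10,0)]⟩,⟨0,[(2,0),(20,0)]⟩⟩]⟩) (.I [0,0,0,0,0,0,0,1] (.R ⟨2,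
  true,false,true,[0,1],[1,0,-1],[0,1],(⟨0,[]⟩,⟨0,[]⟩),(⟨0,[(26,0)]⟩,⟨0,[(27,0)]⟩),⟨0,[]⟩,.k,.k,.k,
  .k,.k,.k,⟨true,0,⟨0,[(0,0)]⟩,⟨0,[(12,0),(11,0)]⟩⟩,⟨false,0,⟨1,[(14,0),(6,0),(2,0)]⟩,⟨1,[(1,1),(6,
  1),(29,0),(0,0)]⟩⟩,⟨false,1,⟨1,[(36,1),(1,0),(0,0)]⟩,⟨0,[(34,0)]⟩⟩,⟨true,0,⟨1,[(8,1),(5,0),(6,0),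
  (2,0)]⟩,⟨0,[(1,0)]⟩⟩,⟨true,0,⟨0,[(35,0)]⟩,⟨1,[(24,0),(0,0)]⟩⟩,⟨false,0,⟨0,[(12,0),(8,0),(2,0)]⟩,
  ⟨3,[(1,1),(8,1),(18,0),(9,2)]⟩⟩,[]⟩) (.Q [0,0,0,-1,0,0,-2,-2,0,1,-2] (.p false [0,0,1] [1,0,-1]
  (⟨0,[(27,0)]⟩,⟨0,[(26,0)]⟩) .k 2 (⟨0,[(26,0)]⟩,⟨0,[(27,0)]⟩) .k (.x (-1) ⟨3,[(0,1),(0,1),(0,1),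
  (12,3),(0,3),(7,5),(4,0),(8,1),(0,0)]⟩ ⟨0,[(13,1),(13,1)]⟩)) (.R ⟨0,false,false,true,[0,0,1],[1,
  -1,-1],[1,1,-1,-1,0,0,0,-1],(⟨0,[(28,0)]⟩,⟨0,[(27,0)]⟩),(⟨0,[(16,0)]⟩,⟨0,[(28,0),(3,0)]⟩),⟨0,[(17,
  0)]⟩,.k,.k,.k,(.r 0 ⟨2,[(2,1),(9,2),(2,0),(6,0),(0,0),(11,3)]⟩ ⟨1,[(1,1),(7,1),(29,0),(0,0)]⟩),.k,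
  .k,⟨true,0,⟨0,[]⟩,⟨1,[(25,0),(0,0)]⟩⟩,⟨false,0,⟨0,[(15,0)]⟩,⟨1,[(1,1),(0,1),(0,1),(21,1),(13,0),
  (0,0)]⟩⟩,⟨true,0,⟨0,[(1,1),(1,0)]⟩,⟨2,[(2,1),(9,2),(2,0),(6,0),(0,0),(11,3)]⟩⟩,⟨false,0,⟨0,[(0,
  0)]⟩,⟨0,[(2,0),(20,0),(16,0)]⟩⟩,⟨false,0,⟨0,[]⟩,⟨0,[]⟩⟩,⟨false,0,⟨0,[]⟩,⟨0,[]⟩⟩,[.o ⟨false,0,⟨2,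
  [(0,0),(6,0),(29,2)]⟩,⟨0,[(5,0),(34,0)]⟩⟩,.o ⟨false,1,⟨3,[(0,1),(17,1),(0,1),(10,0),(6,1),(2,0)]⟩,
  ⟨0,[(2,0)]⟩⟩,.o ⟨false,1,⟨1,[(25,1),(4,0),(8,0)]⟩,⟨0,[(14,0)]⟩⟩,.a ⟨true,0,⟨0,[(25,0)]⟩,⟨0,[(22,
  0)]⟩⟩ ⟨false,1,⟨1,[(1,1),(1,1),(35,0),(0,0)]⟩,⟨0,[(12,0),(22,1)]⟩⟩ ⟨true,0,⟨14,[(0,6),(2,8),(3,0),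
  (7,5),(6,2),(10,2)]⟩,⟨0,[(2,0),(22,0)]⟩⟩]⟩) (.Q [0,0,1,0,0,0,2,0,0,0,2] (.p true [0,0,1] [0,1,-1]
  (⟨0,[(28,0)]⟩,⟨0,[(27,0)]⟩) .k 2 (⟨0,[(17,0)]⟩,⟨0,[(28,0),(2,0)]⟩) .k (.x (-1) ⟨3,[(0,1),(0,1),(7,
  1),(6,3),(0,3),(7,3),(4,0),(8,1),(0,0)]⟩ ⟨0,[(14,1),(13,1)]⟩)) (.K ⟨0,[0,1,-1],0,0,(⟨0,[(18,0)]⟩,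
  ⟨0,[(29,0),(2,0)]⟩),.k,.k,(.x (-1) ⟨0,[(3,0),(0,1),(3,0),(6,0),(13,0),(2,1),(8,0)]⟩ ⟨1,[(18,1),(7,
  2),(0,0),(5,1)]⟩),(.r 0 ⟨0,[(9,0),(4,0),(11,0)]⟩ ⟨3,[(1,0),(9,0),(1,4),(9,1),(16,0),(0,1)]⟩),.k,
  [⟨0,[(0,0)]⟩,⟨0,[(15,0)]⟩,⟨0,[(12,0)]⟩,⟨2,[(6,0),(2,1),(6,0),(8,1)]⟩]⟩) (.R ⟨0,false,false,false,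
  [0,0,1],[0,1,-1],[1,0,0,0,0,0,0,1],(⟨0,[(29,0)]⟩,⟨0,[(28,0)]⟩),(⟨0,[(18,0)]⟩,⟨0,[(29,0),(2,0)]⟩),
  ⟨0,[(18,0)]⟩,.k,.k,.k,(.r (-1) ⟨3,[(1,0),(9,0),(1,4),(9,1),(16,0),(0,1)]⟩ ⟨0,[(9,0),(4,0),(11,
  0)]⟩),.k,.k,⟨false,1,⟨1,[(1,0),(2,1),(6,0),(1,0),(9,1),(17,0)]⟩,⟨0,[(9,0),(4,0),(11,0)]⟩⟩,⟨true,0,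
  ⟨0,[(0,0)]⟩,⟨0,[(26,1)]⟩⟩,⟨true,0,⟨0,[]⟩,⟨0,[(43,0)]⟩⟩,⟨false,0,⟨0,[(0,0),(1,1),(33,0)]⟩,⟨0,[(12,
  0),(11,0),(16,0)]⟩⟩,⟨false,0,⟨0,[]⟩,⟨0,[]⟩⟩,⟨false,0,⟨0,[]⟩,⟨0,[]⟩⟩,[.o ⟨false,0,⟨0,[(8,0)]⟩,⟨1,
  [(12,1),(6,0),(0,0),(20,0)]⟩⟩,.o ⟨false,1,⟨5,[(8,1),(0,3),(6,1),(14,2),(9,2)]⟩,⟨0,[(12,0)]⟩⟩,.o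
  ⟨false,1,⟨1,[(26,1),(4,0),(8,0)]⟩,⟨0,[(15,0)]⟩⟩,.a ⟨true,0,⟨0,[(26,0)]⟩,⟨0,[(23,0)]⟩⟩ ⟨false,1,⟨3,
  [(1,0),(9,0),(1,0),(9,1),(16,0),(0,1)]⟩,⟨0,[(14,0),(11,0)]⟩⟩ ⟨true,0,⟨0,[(8,0),(14,0)]⟩,⟨0,[(12,
  0),(13,0)]⟩⟩]⟩))))))) (.I [1,-1,-1,-1,1,0,0,1] (.R ⟨0,false,false,true,[0,0,1],[1,-1,1],[1,0,0,0,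
  0,0,0,1],(⟨0,[(24,0)]⟩,⟨0,[(23,0)]⟩),(⟨0,[(24,0),(2,0)]⟩,⟨0,[(13,0)]⟩),⟨0,[(13,0)]⟩,.k,.k,.k,.k,
  .k,.k,⟨true,0,⟨0,[(31,0)]⟩,⟨0,[(33,0)]⟩⟩,⟨false,0,⟨0,[(18,0),(2,0)]⟩,⟨1,[(26,0),(8,0)]⟩⟩,⟨true,0,
  ⟨0,[]⟩,⟨0,[(38,0)]⟩⟩,⟨false,0,⟨1,[(1,0),(5,0),(10,0),(2,0)]⟩,⟨0,[(4,0),(1,0)]⟩⟩,⟨false,0,⟨0,[]⟩,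
  ⟨0,[]⟩⟩,⟨false,0,⟨0,[]⟩,⟨0,[]⟩⟩,[.o ⟨false,0,⟨0,[(7,0)]⟩,⟨5,[(3,1),(0,3),(6,1),(14,2),(9,2)]⟩⟩,.o
  ⟨false,1,⟨1,[(7,1),(6,0),(0,0),(20,0)]⟩,⟨0,[(3,0)]⟩⟩,.o ⟨false,1,⟨1,[(21,1),(4,0),(8,0)]⟩,⟨0,[(10,
  0)]⟩⟩,.a ⟨true,0,⟨0,[(21,0)]⟩,⟨0,[(18,0)]⟩⟩ ⟨false,1,⟨0,[(0,0),(33,0)]⟩,⟨2,[(1,0),(1,0),(16,0),(0,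
  2)]⟩⟩ ⟨true,0,⟨0,[(7,0),(10,0)]⟩,⟨0,[(3,0),(17,0)]⟩⟩]⟩) (.R ⟨0,false,false,true,[0,0,1],[1,-1,1],
  [0,1,0,-1,0,0,0,1],(⟨0,[(24,0)]⟩,⟨0,[(23,0)]⟩),(⟨0,[(24,0),(2,0)]⟩,⟨0,[(13,0)]⟩),⟨0,[(13,0)]⟩,.k,
  .k,.k,.k,.k,.k,⟨true,0,⟨1,[(21,0),(0,0)]⟩,⟨0,[]⟩⟩,⟨false,0,⟨0,[(18,0),(2,0)]⟩,⟨1,[(26,0),(8,0)]⟩⟩,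
  ⟨true,0,⟨0,[(33,0)]⟩,⟨0,[(34,0)]⟩⟩,⟨false,0,⟨1,[(1,0),(5,0),(10,0),(2,0)]⟩,⟨0,[(4,0),(1,0)]⟩⟩,
  ⟨false,0,⟨0,[]⟩,⟨0,[]⟩⟩,⟨false,0,⟨0,[]⟩,⟨0,[]⟩⟩,[.o ⟨false,0,⟨0,[(7,0)]⟩,⟨5,[(3,1),(0,3),(6,1),
  (14,2),(9,2)]⟩⟩,.o ⟨false,1,⟨1,[(7,1),(6,0),(0,0),(20,0)]⟩,⟨0,[(3,0)]⟩⟩,.o ⟨false,1,⟨1,[(21,1),(4,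
  0),(8,0)]⟩,⟨0,[(10,0)]⟩⟩,.a ⟨true,0,⟨0,[(21,0)]⟩,⟨0,[(18,0)]⟩⟩ ⟨false,1,⟨1,[(8,1),(26,0),(0,0)]⟩,
  ⟨0,[(0,0),(35,0)]⟩⟩ ⟨true,0,⟨0,[(7,0),(10,0)]⟩,⟨0,[(3,0),(17,0)]⟩⟩]⟩)))) (.Q [0,-1,0,0,1,0,1,1,0,
  -1,1] (.p true [0,0,1] [1] (⟨0,[(21,0)]⟩,⟨0,[(20,0)]⟩) .k 1 (⟨0,[]⟩,⟨0,[]⟩) .k .k) (.R ⟨0,false,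
  false,true,[0,1,-1],[1,0,-1],[1,0,1,1,0,0,0,-1],(⟨0,[(11,0)]⟩,⟨0,[(22,0),(2,0)]⟩),(⟨0,[(21,0)]⟩,
  ⟨0,[(22,0)]⟩),⟨0,[(22,0)]⟩,.k,.k,.k,.k,.k,.k,⟨true,0,⟨0,[(29,0)]⟩,⟨0,[(31,0)]⟩⟩,⟨false,0,⟨2,[(1,
  1),(0,1),(6,0)]⟩,⟨1,[(24,0),(8,0)]⟩⟩,⟨true,0,⟨0,[]⟩,⟨0,[(36,0)]⟩⟩,⟨false,0,⟨0,[(1,0),(5,0)]⟩,⟨0,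
  [(2,0),(1,0)]⟩⟩,⟨false,0,⟨0,[]⟩,⟨0,[]⟩⟩,⟨false,0,⟨0,[]⟩,⟨0,[]⟩⟩,[.o ⟨false,0,⟨0,[(18,0)]⟩,⟨0,[(0,
  0)]⟩⟩,.o ⟨false,0,⟨0,[(7,0)]⟩,⟨3,[(0,1),(11,0),(0,0),(3,1),(6,0)]⟩⟩,.o ⟨false,1,⟨0,[(16,0),(7,
  0)]⟩,⟨0,[(19,0)]⟩⟩,.a ⟨true,0,⟨0,[(8,0)]⟩,⟨0,[(1,0),(0,0)]⟩⟩ ⟨true,0,⟨0,[(2,0)]⟩,⟨0,[(6,0)]⟩⟩
  ⟨false,0,⟨0,[(1,0),(0,0),(4,0)]⟩,⟨0,[(4,0)]⟩⟩]⟩) (.I [0,0,0,0,0,0,0,-1] (.R ⟨0,false,false,true,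
  [0,1,-1],[1,0,-1],[1,1,1],(⟨0,[(12,0)]⟩,⟨0,[(23,0),(2,0)]⟩),(⟨0,[(22,0)]⟩,⟨0,[(23,0)]⟩),⟨0,[(23,
  0)]⟩,.k,.k,.k,.k,.k,.k,⟨true,0,⟨0,[(7,0),(22,0)]⟩,⟨0,[(0,0)]⟩⟩,⟨false,0,⟨2,[(2,1),(0,1),(6,0)]⟩,
  ⟨1,[(25,0),(8,0)]⟩⟩,⟨true,0,⟨0,[(7,0)]⟩,⟨0,[(3,0)]⟩⟩,⟨false,0,⟨0,[(2,0),(5,0)]⟩,⟨0,[(3,0),(1,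
  0)]⟩⟩,⟨false,0,⟨0,[]⟩,⟨0,[]⟩⟩,⟨false,0,⟨0,[]⟩,⟨0,[]⟩⟩,[.a ⟨true,(-1),⟨0,[(1,0)]⟩,⟨0,[(18,0),(16,
  0)]⟩⟩ ⟨false,0,⟨0,[(37,0)]⟩,⟨1,[(34,0),(0,0)]⟩⟩ ⟨true,(-1),⟨0,[(1,0),(18,0)]⟩,⟨0,[(5,0)]⟩⟩,.o
  ⟨false,0,⟨0,[(8,0)]⟩,⟨1,[(18,1),(6,0),(9,0)]⟩⟩,.o ⟨false,1,⟨0,[(17,0),(7,0)]⟩,⟨0,[(20,0)]⟩⟩,.e
  ⟨false,0,⟨0,[]⟩,⟨1,[(13,0),(0,0),(20,0)]⟩⟩ ⟨false,0,⟨2,[(0,2),(1,1),(0,1),(6,0)]⟩,⟨0,[(5,0)]⟩⟩]⟩)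
  (.I [0,0,0,0,0,0,0,1] (.Q [0,0,0,1,0,0,1,1,0,0,1] (.p true [0,0,1] [] (⟨0,[(24,0)]⟩,⟨0,[(23,0)]⟩)
  .k 0 (⟨0,[]⟩,⟨0,[]⟩) .k .k) (.R ⟨2,true,false,false,[0,1],[0,1,1],[1,1,1],(⟨0,[]⟩,⟨0,[]⟩),(⟨0,
  [(25,0),(3,0)]⟩,⟨0,[(13,0)]⟩),⟨0,[]⟩,.k,.k,.k,.k,.k,.k,⟨true,0,⟨0,[(6,0)]⟩,⟨0,[(1,0),(30,0)]⟩⟩,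
  ⟨false,1,⟨0,[(22,0),(13,0)]⟩,⟨0,[(11,0)]⟩⟩,⟨true,0,⟨0,[(34,0)]⟩,⟨0,[(35,0)]⟩⟩,⟨false,1,⟨0,[(20,0),
  (16,0)]⟩,⟨0,[(10,0)]⟩⟩,⟨false,0,⟨0,[]⟩,⟨1,[(15,0),(0,0),(20,0)]⟩⟩,⟨true,0,⟨0,[(0,0)]⟩,⟨0,[(10,0),
  (23,0)]⟩⟩,[]⟩) (.Q [0,-1,0,0,0,0,-2,-1,0,0,-2] (.p false [0,0,1] [0,1,-1] (⟨0,[(25,0)]⟩,⟨0,[(24,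
  0)]⟩) .k 2 (⟨0,[(14,0)]⟩,⟨0,[(25,0),(2,0)]⟩) .k (.r 0 ⟨0,[(1,1)]⟩ ⟨1,[(5,1),(0,1),(8,0),(0,0),(20,
  0)]⟩)) (.R ⟨0,false,false,true,[0,1,-1],[0,0,1],[1,1,1],(⟨0,[(15,0)]⟩,⟨0,[(26,0),(2,0)]⟩),(⟨0,
  [(26,0)]⟩,⟨0,[(25,0)]⟩),⟨0,[(26,0)]⟩,.k,.k,.k,(.r 0 ⟨0,[(6,0),(4,0),(11,0)]⟩ ⟨2,[(3,0),(1,0),(2,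
  1),(1,1),(9,0),(16,0)]⟩),.k,.k,⟨true,0,⟨0,[(11,0),(11,0)]⟩,⟨0,[(2,0)]⟩⟩,⟨false,1,⟨0,[(23,1),(13,
  0)]⟩,⟨0,[(0,0),(2,0),(30,0)]⟩⟩,⟨true,0,⟨0,[(10,0)]⟩,⟨0,[(6,0)]⟩⟩,⟨false,1,⟨1,[(5,1),(15,1),(6,0),
  (9,0)]⟩,⟨0,[(0,0),(5,0)]⟩⟩,⟨false,0,⟨0,[]⟩,⟨0,[]⟩⟩,⟨false,0,⟨0,[]⟩,⟨0,[]⟩⟩,[.a ⟨true,0,⟨0,[(21,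
  0)]⟩,⟨0,[(4,0),(33,0)]⟩⟩ ⟨false,0,⟨0,[(40,0)]⟩,⟨1,[(37,0),(0,0)]⟩⟩ ⟨true,0,⟨0,[(21,0),(1,0)]⟩,⟨0,
  [(0,0)]⟩⟩,.o ⟨false,1,⟨1,[(21,1),(6,0),(9,0)]⟩,⟨0,[(11,0)]⟩⟩,.o ⟨false,1,⟨0,[(20,0),(7,0)]⟩,⟨0,
  [(23,0)]⟩⟩,.e ⟨false,0,⟨0,[]⟩,⟨1,[(16,0),(0,0),(20,0)]⟩⟩ ⟨false,1,⟨1,[(21,1),(1,1),(13,0),(0,0)]⟩,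
  ⟨0,[(0,0)]⟩⟩]⟩) (.I [0,-1,1,1] (.R ⟨0,false,false,false,[0,1,-1],[0,1],[1,1,1],(⟨0,[(16,0)]⟩,⟨0,
  [(27,0),(2,0)]⟩),(⟨0,[(31,0)]⟩,⟨0,[(30,0)]⟩),⟨0,[(27,0)]⟩,.k,.k,.k,.k,.k,.k,⟨true,0,⟨0,[(36,0)]⟩,
  ⟨0,[(0,0)]⟩⟩,⟨false,1,⟨0,[(24,0),(13,0)]⟩,⟨0,[(13,0)]⟩⟩,⟨true,0,⟨0,[(11,0)]⟩,⟨0,[(7,0)]⟩⟩,⟨false,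
  1,⟨3,[(1,2),(7,0),(4,0),(24,2)]⟩,⟨0,[(12,0)]⟩⟩,⟨false,0,⟨0,[]⟩,⟨0,[]⟩⟩,⟨false,0,⟨0,[]⟩,⟨0,[]⟩⟩,
  [.a ⟨true,0,⟨0,[(37,0)]⟩,⟨7,[(2,0),(2,1),(0,4),(1,1),(5,0),(24,1)]⟩⟩ ⟨false,0,⟨0,[(41,0)]⟩,⟨1,
  [(38,0),(0,0)]⟩⟩ ⟨true,0,⟨2,[(1,0),(5,0),(16,0),(9,1),(6,0)]⟩,⟨0,[(2,0),(1,0)]⟩⟩,.o ⟨false,1,⟨0,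
  [(7,0),(1,0)]⟩,⟨0,[(36,0)]⟩⟩,.o ⟨false,1,⟨0,[(21,0),(7,0)]⟩,⟨0,[(24,0)]⟩⟩,.e ⟨false,0,⟨0,[]⟩,⟨1,
  [(17,0),(0,0),(20,0)]⟩⟩ ⟨false,1,⟨3,[(1,1),(5,1),(9,0),(0,0),(18,1),(1,2)]⟩,⟨0,[(2,0),(1,0)]⟩⟩]⟩)
  (.Q [0,0,1,0,-1,0,-1,0,0,1,-1] (.p false [0,0,1] [1] (⟨0,[(27,0)]⟩,⟨0,[(26,0)]⟩) .k 1 (⟨0,[]⟩,⟨0,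
  []⟩) .k .k) (.R ⟨1,false,false,true,[1,0,-1],[1,-1],[1,1,0,-1],(⟨0,[(27,0)]⟩,⟨0,[(28,0)]⟩),(⟨0,
  [(31,0)]⟩,⟨0,[(32,0)]⟩),⟨0,[(16,0)]⟩,.k,.k,.k,.k,.k,.k,⟨false,0,⟨0,[]⟩,⟨1,[(18,0),(0,0),(19,0)]⟩⟩,
  ⟨true,0,⟨0,[(25,0)]⟩,⟨0,[(14,0)]⟩⟩,⟨true,0,⟨0,[(12,0)]⟩,⟨0,[(8,0)]⟩⟩,⟨true,0,⟨0,[(11,0)]⟩,⟨0,[(13,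
  0),(24,0)]⟩⟩,⟨false,0,⟨0,[(5,0)]⟩,⟨3,[(8,1),(0,1),(8,0),(0,0),(20,2)]⟩⟩,⟨true,0,⟨0,[(23,0)]⟩,⟨0,
  [(13,0)]⟩⟩,[.o ⟨false,0,⟨0,[(37,0)]⟩,⟨0,[(8,0),(1,0)]⟩⟩,.e ⟨false,1,⟨1,[(37,1),(1,0),(0,0)]⟩,⟨0,
  [(38,0)]⟩⟩ ⟨false,1,⟨3,[(1,1),(0,1),(6,1),(29,0),(0,2)]⟩,⟨0,[(14,0),(23,0)]⟩⟩,.o ⟨false,0,⟨0,[(14,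
  0)]⟩,⟨1,[(25,1),(4,0),(8,0)]⟩⟩,.a ⟨true,(-1),⟨0,[(0,0)]⟩,⟨0,[(25,0),(13,0)]⟩⟩ ⟨true,0,⟨0,[(1,0)]⟩,
  ⟨0,[(35,0),(6,0)]⟩⟩ ⟨false,1,⟨3,[(1,1),(0,1),(6,1),(29,0),(0,2)]⟩,⟨0,[(14,0),(20,0)]⟩⟩]⟩) (.R ⟨0,
  false,false,false,[0,1,-1],[0,1,1],[0,1,1],(⟨0,[(17,0)]⟩,⟨0,[(28,0),(2,0)]⟩),(⟨0,[(28,0),(3,0)]⟩,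
  ⟨0,[(16,0)]⟩),⟨0,[(28,0)]⟩,.k,.k,.k,.k,.k,.k,⟨true,0,⟨0,[(9,0)]⟩,⟨0,[(5,0),(29,0)]⟩⟩,⟨false,1,⟨0,
  [(0,0),(6,0),(0,0)]⟩,⟨0,[(14,1)]⟩⟩,⟨true,0,⟨0,[(12,0)]⟩,⟨0,[(8,0)]⟩⟩,⟨false,1,⟨0,[(2,0),(2,0),(34,
  0)]⟩,⟨0,[(13,1)]⟩⟩,⟨false,0,⟨0,[]⟩,⟨0,[]⟩⟩,⟨false,0,⟨0,[]⟩,⟨0,[]⟩⟩,[.o ⟨false,1,⟨3,[(2,1),(7,1),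
  (7,0),(0,0),(10,0),(7,3)]⟩,⟨0,[(3,0)]⟩⟩,.o ⟨false,1,⟨0,[(0,0),(4,0),(29,0)]⟩,⟨1,[(3,0),(20,0),(12,
  0)]⟩⟩,.o ⟨false,1,⟨0,[(22,0),(7,0)]⟩,⟨0,[(25,0)]⟩⟩,.a ⟨true,0,⟨0,[(14,0)]⟩,⟨0,[(7,0),(0,0)]⟩⟩
  ⟨true,0,⟨0,[(42,0)]⟩,⟨0,[]⟩⟩ ⟨false,1,⟨0,[(2,0),(35,0),(1,0)]⟩,⟨0,[(3,0),(10,0)]⟩⟩]⟩))))) (.N [0,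
  0,1] 0 ⟨0,[(1,0)]⟩ ⟨0,[(0,0)]⟩ .k))))) (.Q [0,0,-1,-1,0,0,0,1,0,1] (.pp false [-1,1]) (.R ⟨0,
  false,false,true,[0,0,1],[1,-1,1],[0,1],(⟨0,[(21,0)]⟩,⟨0,[(20,0)]⟩),(⟨0,[(21,0),(2,0)]⟩,⟨0,[(10,
  0)]⟩),⟨0,[(10,0)]⟩,.k,.k,.k,.k,.k,.k,⟨true,0,⟨0,[(6,0),(11,0),(12,0)]⟩,⟨0,[(1,0)]⟩⟩,⟨false,0,⟨0,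
  [(15,0),(2,0)]⟩,⟨1,[(23,0),(8,0)]⟩⟩,⟨true,0,⟨0,[(2,0),(28,0)]⟩,⟨0,[(1,0),(29,0)]⟩⟩,⟨false,0,⟨0,
  [(0,0),(5,0),(11,0)]⟩,⟨1,[(23,0),(7,1),(1,0)]⟩⟩,⟨false,0,⟨0,[]⟩,⟨0,[]⟩⟩,⟨false,0,⟨0,[]⟩,⟨0,[]⟩⟩,
  [.o ⟨false,0,⟨0,[(4,0)]⟩,⟨1,[(6,1),(16,0),(7,1),(1,0)]⟩⟩,.e ⟨false,1,⟨1,[(11,0),(0,0),(19,0)]⟩,⟨0,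
  []⟩⟩ ⟨false,0,⟨0,[(0,0)]⟩,⟨1,[(6,1),(11,1),(4,0),(7,1),(0,0)]⟩⟩,.o ⟨false,1,⟨1,[(18,1),(4,0),(8,
  0)]⟩,⟨0,[(7,0)]⟩⟩,.a ⟨true,0,⟨0,[(18,0)]⟩,⟨0,[(15,0)]⟩⟩ ⟨true,0,⟨0,[(29,0)]⟩,⟨1,[(18,0),(0,0)]⟩⟩
  ⟨false,0,⟨0,[(0,0)]⟩,⟨1,[(6,1),(11,1),(4,0),(7,1),(1,0)]⟩⟩]⟩) (.Q [0,0,0,1,0,0,-1,-1,0,-1,-1] (.p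
  false [1,-1,1] [] (⟨0,[(21,0),(2,0)]⟩,⟨0,[(10,0)]⟩) .k 0 (⟨0,[]⟩,⟨0,[]⟩) .k .k) (.Q [0,0,0,-1,0,0,
  0,0,0,1] (.pp false [-1,1]) (.R ⟨0,false,false,true,[0,0,1],[1,-1,1],[1,0,0,0,0,0,0,1],(⟨0,[(23,
  0)]⟩,⟨0,[(22,0)]⟩),(⟨0,[(23,0),(2,0)]⟩,⟨0,[(12,0)]⟩),⟨0,[(12,0)]⟩,.k,.k,.k,.k,.k,.k,⟨true,0,⟨0,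
  [(30,0)]⟩,⟨0,[(32,0)]⟩⟩,⟨false,0,⟨0,[(17,0),(2,0)]⟩,⟨1,[(25,0),(8,0)]⟩⟩,⟨true,0,⟨0,[]⟩,⟨0,[(37,
  0)]⟩⟩,⟨false,0,⟨0,[(0,0)]⟩,⟨3,[(2,1),(2,1),(27,1),(0,0),(0,0)]⟩⟩,⟨false,0,⟨0,[]⟩,⟨0,[]⟩⟩,⟨false,0,
  ⟨0,[]⟩,⟨0,[]⟩⟩,[.o ⟨false,0,⟨0,[(6,0)]⟩,⟨5,[(1,1),(0,3),(7,1),(14,0),(8,1),(0,2)]⟩⟩,.o ⟨false,1,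
  ⟨1,[(6,1),(6,0),(0,0),(20,0)]⟩,⟨0,[(1,0)]⟩⟩,.o ⟨false,1,⟨1,[(20,1),(4,0),(8,0)]⟩,⟨0,[(9,0)]⟩⟩,.a
  ⟨true,0,⟨0,[(20,0)]⟩,⟨0,[(17,0)]⟩⟩ ⟨false,1,⟨1,[(3,1),(29,1),(0,0),(0,0)]⟩,⟨0,[(0,0),(1,0)]⟩⟩
  ⟨true,0,⟨0,[(6,0),(10,0)]⟩,⟨0,[(2,0)]⟩⟩]⟩) (.I [0,-1,1,1] (.R ⟨0,false,false,false,[0,0,1],[0,1],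
  [1,1,1],(⟨0,[(24,0)]⟩,⟨0,[(23,0)]⟩),(⟨0,[(28,0)]⟩,⟨0,[(27,0)]⟩),⟨0,[(13,0)]⟩,.k,.k,.k,.k,.k,.k,
  ⟨true,0,⟨0,[(33,0)]⟩,⟨0,[(0,0)]⟩⟩,⟨false,1,⟨1,[(18,1),(7,0),(8,0)]⟩,⟨0,[(21,0)]⟩⟩,⟨false,0,⟨0,[(9,
  0),(11,0)]⟩,⟨3,[(1,1),(2,1),(13,1),(0,1),(15,0),(0,2)]⟩⟩,⟨true,0,⟨0,[(3,0),(14,0)]⟩,⟨0,[(7,0)]⟩⟩,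
  ⟨false,0,⟨0,[]⟩,⟨0,[]⟩⟩,⟨false,0,⟨0,[]⟩,⟨0,[]⟩⟩,[.o ⟨false,0,⟨0,[(1,0)]⟩,⟨1,[(14,0),(0,0),(17,1),
  (2,0)]⟩⟩,.o ⟨false,1,⟨3,[(3,1),(2,1),(27,1),(0,0),(0,0)]⟩,⟨0,[(33,0)]⟩⟩,.o ⟨false,1,⟨1,[(21,1),(4,
  0),(8,0)]⟩,⟨0,[(10,0)]⟩⟩,.a ⟨true,0,⟨0,[(21,0)]⟩,⟨0,[(18,0)]⟩⟩ ⟨false,0,⟨0,[]⟩,⟨1,[(14,0),(0,0),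
  (20,0)]⟩⟩ ⟨true,0,⟨0,[(1,0),(16,0)]⟩,⟨0,[(21,0),(11,0)]⟩⟩]⟩) (.Q [0,0,0,1,0,0,1,1,0,0,1] (.p true
  [0,0,1] [] (⟨0,[(24,0)]⟩,⟨0,[(23,0)]⟩) .k 0 (⟨0,[]⟩,⟨0,[]⟩) .k .k) (.R ⟨2,true,false,false,[0,1],
  [0,1,1],[1,1,1],(⟨0,[]⟩,⟨0,[]⟩),(⟨0,[(25,0),(3,0)]⟩,⟨0,[(13,0)]⟩),⟨0,[]⟩,.k,.k,.k,.k,.k,.k,⟨true,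
  0,⟨0,[(6,0)]⟩,⟨4,[(0,1),(1,0),(2,2),(6,0),(19,4)]⟩⟩,⟨false,1,⟨0,[(22,0),(13,0)]⟩,⟨0,[(11,0)]⟩⟩,
  ⟨true,0,⟨0,[(34,0)]⟩,⟨0,[(35,0)]⟩⟩,⟨false,1,⟨0,[(20,0),(16,0)]⟩,⟨0,[(10,0)]⟩⟩,⟨false,0,⟨0,[]⟩,⟨1,
  [(15,0),(0,0),(20,0)]⟩⟩,⟨true,0,⟨0,[(0,0)]⟩,⟨0,[(10,0),(23,0)]⟩⟩,[]⟩) (.R ⟨0,false,false,true,[0,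
  0,1],[1,-1],[0,1,0,-1],(⟨0,[(25,0)]⟩,⟨0,[(24,0)]⟩),(⟨0,[(28,0)]⟩,⟨0,[(29,0)]⟩),⟨0,[(14,0)]⟩,.k,.k,
  .k,.k,.k,.k,⟨true,0,⟨1,[(22,0),(0,0)]⟩,⟨0,[]⟩⟩,⟨false,0,⟨1,[(12,0),(6,0),(2,0)]⟩,⟨1,[(1,1),(0,1),
  (19,1),(13,0),(0,0)]⟩⟩,⟨true,0,⟨0,[(6,0)]⟩,⟨2,[(2,1),(2,0),(13,1),(0,1),(11,1)]⟩⟩,⟨false,0,⟨0,[(0,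
  0),(18,0),(2,0)]⟩,⟨0,[(2,0),(17,0),(16,0)]⟩⟩,⟨false,0,⟨0,[]⟩,⟨0,[]⟩⟩,⟨false,0,⟨0,[]⟩,⟨0,[]⟩⟩,[.o
  ⟨false,0,⟨0,[(34,0)]⟩,⟨3,[(4,1),(2,1),(27,1),(0,0),(0,0)]⟩⟩,.o ⟨false,1,⟨1,[(15,0),(0,0),(17,1),
  (2,0)]⟩,⟨0,[(2,0)]⟩⟩,.o ⟨false,1,⟨1,[(22,1),(4,0),(8,0)]⟩,⟨0,[(11,0)]⟩⟩,.a ⟨true,0,⟨0,[(22,0)]⟩,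
  ⟨0,[(19,0)]⟩⟩ ⟨false,1,⟨1,[(34,1),(1,0),(0,0)]⟩,⟨0,[(32,0)]⟩⟩ ⟨true,0,⟨0,[(19,0),(14,0)]⟩,⟨0,[(2,
  0),(19,0)]⟩⟩]⟩)))) (.R ⟨0,false,false,true,[0,0,1],[1,-1,1],[0,1],(⟨0,[(22,0)]⟩,⟨0,[(21,0)]⟩),(⟨0,
  [(22,0),(2,0)]⟩,⟨0,[(11,0)]⟩),⟨0,[(11,0)]⟩,.k,.k,.k,.k,.k,.k,⟨true,0,⟨0,[(1,0),(14,0),(2,0)]⟩,⟨0,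
  [(2,0)]⟩⟩,⟨false,0,⟨0,[(16,0),(2,0)]⟩,⟨1,[(24,0),(8,0)]⟩⟩,⟨true,0,⟨0,[(3,0),(28,0)]⟩,⟨0,[(2,0),
  (29,0)]⟩⟩,⟨false,0,⟨0,[(0,0),(6,0)]⟩,⟨3,[(1,1),(2,1),(27,1),(0,0),(0,0)]⟩⟩,⟨false,0,⟨0,[]⟩,⟨0,
  []⟩⟩,⟨false,0,⟨0,[]⟩,⟨0,[]⟩⟩,[.o ⟨false,0,⟨0,[(5,0)]⟩,⟨1,[(1,1),(14,1),(7,0),(9,0)]⟩⟩,.a ⟨true,0,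
  ⟨0,[(0,0)]⟩,⟨0,[(1,0),(14,0)]⟩⟩ ⟨false,1,⟨1,[(12,0),(0,0),(19,0)]⟩,⟨0,[]⟩⟩ ⟨true,0,⟨2,[(0,1),(1,
  0),(6,0)]⟩,⟨0,[(1,0)]⟩⟩,.o ⟨false,1,⟨1,[(19,1),(4,0),(8,0)]⟩,⟨0,[(8,0)]⟩⟩,.e ⟨true,0,⟨0,[(30,0)]⟩,
  ⟨1,[(19,0),(0,0)]⟩⟩ ⟨true,0,⟨0,[(5,0),(10,0)]⟩,⟨0,[(1,0)]⟩⟩]⟩))))))) (.R ⟨2,true,false,true,[0,1],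
  [0,0,1],[1,1,1],(⟨0,[]⟩,⟨0,[]⟩),(⟨0,[(16,0)]⟩,⟨0,[(15,0)]⟩),⟨0,[]⟩,.k,.k,.k,.k,.k,.k,⟨false,0,⟨0,
  [(0,0),(24,0)]⟩,⟨1,[(10,1),(0,1),(6,0),(9,0)]⟩⟩,⟨true,0,⟨0,[(13,0)]⟩,⟨0,[(2,0)]⟩⟩,⟨true,0,⟨0,[(25,
  0)]⟩,⟨0,[(26,0)]⟩⟩,⟨false,1,⟨0,[(11,0),(13,0),(2,0)]⟩,⟨0,[(0,0),(1,0)]⟩⟩,⟨false,0,⟨0,[]⟩,⟨1,[(6,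
  0),(0,0),(20,0)]⟩⟩,⟨true,0,⟨0,[(11,0)]⟩,⟨0,[(1,0)]⟩⟩,[]⟩)) (.Q [0,0,1,-1,0,0,2,1,0,0,2] (.p true
  [0,0,1] [0,1,-1] (⟨0,[(15,0)]⟩,⟨0,[(14,0)]⟩) .k 2 (⟨0,[(4,0)]⟩,⟨0,[(15,0),(2,0)]⟩) .k (.i 0 ⟨0,
  [(15,1)]⟩ ⟨0,[(3,0),(0,0)]⟩)) (.Q [0,-1,1,1,1,0,0,-1,0,-1] (.pp true [-1,1]) (.Q [0,0,0,-1,0,0,1,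
  1,0,0,1] (.p true [0,0,1] [] (⟨0,[(17,0)]⟩,⟨0,[(16,0)]⟩) .k 0 (⟨0,[]⟩,⟨0,[]⟩) .k .k) (.I [0,1,0,0,
  0,0,0,-1] (.Q [0,-1,0,1,1,0,-1,-1,0,-1,-1] (.p false [1,-1,1] [] (⟨0,[(19,0),(2,0)]⟩,⟨0,[(8,0)]⟩)
  .k 0 (⟨0,[]⟩,⟨0,[]⟩) .k .k) (.Q [0,0,0,0,0,0,-1,-1,0,1,-1] (.p false [0,0,1] [1] (⟨0,[(20,0)]⟩,⟨0,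
  [(19,0)]⟩) .k 1 (⟨0,[]⟩,⟨0,[]⟩) .k .k) (.R ⟨0,false,false,true,[0,0,1],[1,-1,1],[0,1],(⟨0,[(21,
  0)]⟩,⟨0,[(20,0)]⟩),(⟨0,[(21,0),(2,0)]⟩,⟨0,[(10,0)]⟩),⟨0,[(10,0)]⟩,.k,.k,.k,.k,.k,.k,⟨true,0,⟨0,
  [(2,0),(25,0)]⟩,⟨0,[(3,0),(3,0)]⟩⟩,⟨false,0,⟨0,[(15,0),(2,0)]⟩,⟨1,[(23,0),(8,0)]⟩⟩,⟨true,0,⟨0,[(2,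
  0)]⟩,⟨0,[(6,0),(0,0)]⟩⟩,⟨false,0,⟨0,[(0,0),(2,0)]⟩,⟨1,[(23,0),(7,1),(1,0)]⟩⟩,⟨false,0,⟨0,[]⟩,⟨0,
  []⟩⟩,⟨false,0,⟨0,[]⟩,⟨0,[]⟩⟩,[.o ⟨false,0,⟨1,[(3,0),(12,0),(13,0)]⟩,⟨0,[(1,0)]⟩⟩,.o ⟨false,0,⟨0,
  [(3,0)]⟩,⟨3,[(1,2),(2,0),(14,0),(6,1)]⟩⟩,.o ⟨false,1,⟨1,[(18,1),(4,0),(8,0)]⟩,⟨0,[(7,0)]⟩⟩,.a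
  ⟨true,0,⟨0,[(18,0)]⟩,⟨0,[(15,0)]⟩⟩ ⟨true,0,⟨0,[(29,0)]⟩,⟨1,[(18,0),(0,0)]⟩⟩ ⟨false,0,⟨0,[(3,0),
  (11,0)]⟩,⟨0,[(4,0)]⟩⟩]⟩) (.Q [0,1,0,0,0,0,-2,-2,0,1,-2] (.p false [0,0,1] [1,0,-1] (⟨0,[(21,0)]⟩,
  ⟨0,[(20,0)]⟩) .k 2 (⟨0,[(20,0)]⟩,⟨0,[(21,0)]⟩) .k (.r 0 ⟨0,[(0,0),(5,0),(1,0)]⟩ ⟨0,[(2,1),(30,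
  0)]⟩)) (.R ⟨0,false,false,true,[0,0,1],[1,0,-1],[0,0,1],(⟨0,[(22,0)]⟩,⟨0,[(21,0)]⟩),(⟨0,[(21,0)]⟩,
  ⟨0,[(22,0)]⟩),⟨0,[(11,0)]⟩,.k,.k,.k,.k,.k,.k,⟨true,0,⟨0,[(4,0),(3,0),(20,0)]⟩,⟨0,[(3,0)]⟩⟩,⟨false,
  0,⟨0,[(8,0),(7,0)]⟩,⟨1,[(1,1),(1,1),(15,1),(13,0),(0,0)]⟩⟩,⟨false,1,⟨1,[(0,0),(4,0),(0,0),(27,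
  0)]⟩,⟨0,[(1,0),(14,0)]⟩⟩,⟨true,0,⟨0,[(0,0)]⟩,⟨0,[(1,0),(5,0)]⟩⟩,⟨false,0,⟨0,[]⟩,⟨0,[]⟩⟩,⟨false,0,
  ⟨0,[]⟩,⟨0,[]⟩⟩,[.o ⟨false,0,⟨0,[(18,0)]⟩,⟨3,[(1,1),(15,1),(6,0),(9,2)]⟩⟩,.o ⟨false,1,⟨3,[(0,1),
  (11,1),(0,1),(10,0),(9,0)]⟩,⟨0,[(1,0)]⟩⟩,.o ⟨false,1,⟨13,[(1,1),(1,1),(1,5),(0,5),(17,2),(2,1),(5,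
  4)]⟩,⟨0,[(8,0)]⟩⟩,.a ⟨true,0,⟨0,[(19,0)]⟩,⟨0,[(16,0)]⟩⟩ ⟨false,1,⟨1,[(12,0),(0,0),(20,0)]⟩,⟨0,
  []⟩⟩ ⟨true,0,⟨0,[(16,0),(1,0)]⟩,⟨0,[(1,0),(17,0)]⟩⟩]⟩) (.I [0,-1,1,1] (.Q [0,0,1,0,0,0,2,0,0,0,2]
  (.p true [0,0,1] [0,1,-1] (⟨0,[(23,0)]⟩,⟨0,[(22,0)]⟩) .k 2 (⟨0,[(12,0)]⟩,⟨0,[(23,0),(2,0)]⟩) .k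
  (.r 0 ⟨1,[(1,0),(0,0),(7,1),(7,0)]⟩ ⟨0,[(4,1),(30,0)]⟩)) (.R ⟨0,false,false,false,[0,1,-1],[0,1],
  [1,1,1],(⟨0,[(13,0)]⟩,⟨0,[(24,0),(2,0)]⟩),(⟨0,[(28,0)]⟩,⟨0,[(27,0)]⟩),⟨0,[(24,0)]⟩,.k,.k,.k,.k,.k,
  .k,⟨true,0,⟨0,[(33,0)]⟩,⟨0,[(1,0)]⟩⟩,⟨false,1,⟨3,[(0,1),(13,0),(0,0),(19,2)]⟩,⟨0,[(10,0)]⟩⟩,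
  ⟨false,0,⟨0,[(6,0),(3,0)]⟩,⟨0,[(0,0),(3,0),(13,0)]⟩⟩,⟨true,0,⟨0,[(9,0)]⟩,⟨0,[(20,0)]⟩⟩,⟨false,0,
  ⟨0,[]⟩,⟨0,[]⟩⟩,⟨false,0,⟨0,[]⟩,⟨0,[]⟩⟩,[.e ⟨false,0,⟨0,[(38,0)]⟩,⟨1,[(35,0),(0,0)]⟩⟩ ⟨false,0,⟨0,
  [(2,0),(2,1),(12,0),(12,0)]⟩,⟨1,[(18,1),(7,0),(6,1),(2,0)]⟩⟩,.o ⟨false,1,⟨4,[(2,0),(1,3),(14,1),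
  (14,0),(1,0)]⟩,⟨0,[(33,0)]⟩⟩,.o ⟨false,1,⟨0,[(18,0),(7,0)]⟩,⟨0,[(21,0)]⟩⟩,.a ⟨true,0,⟨0,[(10,0)]⟩,
  ⟨0,[(0,0),(17,0)]⟩⟩ ⟨false,0,⟨0,[]⟩,⟨1,[(14,0),(0,0),(20,0)]⟩⟩ ⟨true,0,⟨0,[(2,0),(2,1),(12,0),(12,
  0)]⟩,⟨0,[(10,0),(22,0)]⟩⟩]⟩) (.R ⟨0,false,false,false,[0,0,1],[0,1],[1,1,1],(⟨0,[(24,0)]⟩,⟨0,[(23,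
  0)]⟩),(⟨0,[(28,0)]⟩,⟨0,[(27,0)]⟩),⟨0,[(13,0)]⟩,.k,.k,.k,.k,.k,.k,⟨true,0,⟨0,[(33,0)]⟩,⟨0,[(1,
  0)]⟩⟩,⟨false,1,⟨7,[(0,1),(10,1),(14,0),(8,6)]⟩,⟨0,[(21,0)]⟩⟩,⟨true,0,⟨0,[(20,0),(0,0)]⟩,⟨3,[(0,0),
  (1,1),(15,1),(10,0)]⟩⟩,⟨false,1,⟨0,[(7,0),(10,0)]⟩,⟨0,[(6,0)]⟩⟩,⟨false,0,⟨0,[]⟩,⟨0,[]⟩⟩,⟨false,0,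
  ⟨0,[]⟩,⟨0,[]⟩⟩,[.o ⟨false,0,⟨0,[(0,0),(1,0),(2,1),(25,0)]⟩,⟨1,[(14,0),(0,0),(17,1),(2,0)]⟩⟩,.o
  ⟨false,1,⟨4,[(2,0),(1,3),(14,1),(14,0),(1,0)]⟩,⟨0,[(33,0)]⟩⟩,.o ⟨false,1,⟨11,[(2,0),(2,1),(1,4),
  (0,4),(17,2),(2,1),(5,3)]⟩,⟨0,[(10,0)]⟩⟩,.a ⟨true,0,⟨0,[(21,0)]⟩,⟨0,[(18,0)]⟩⟩ ⟨false,0,⟨0,[]⟩,⟨1,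
  [(14,0),(0,0),(20,0)]⟩⟩ ⟨true,0,⟨0,[(0,0),(1,0),(2,1),(12,0),(12,0)]⟩,⟨0,[(21,0),(11,0)]⟩⟩]⟩))
  (.Q [0,0,1,0,0,0,2,0,0,0,2] (.p true [0,0,1] [0,1,-1] (⟨0,[(23,0)]⟩,⟨0,[(22,0)]⟩) .k 2 (⟨0,[(12,
  0)]⟩,⟨0,[(23,0),(2,0)]⟩) .k (.r 0 ⟨1,[(1,0),(0,0),(7,1),(7,0)]⟩ ⟨0,[(4,1),(30,0)]⟩)) (.K ⟨0,[0,1,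
  -1],0,0,(⟨0,[(13,0)]⟩,⟨0,[(24,0),(2,0)]⟩),.k,.k,(.r 0 ⟨0,[(5,0),(25,1),(6,0)]⟩ ⟨7,[(1,11),(0,1),
  (3,3),(4,3),(14,0),(8,1),(0,4)]⟩),(.r (-1) ⟨2,[(0,1),(4,2),(1,2),(3,0),(6,1)]⟩ ⟨0,[(1,0),(0,0),(8,
  0)]⟩),.k,[⟨0,[(0,0)]⟩,⟨0,[(10,0)]⟩,⟨1,[(6,0),(12,0),(13,0)]⟩,⟨0,[(20,0),(13,0)]⟩]⟩) (.R ⟨0,false,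
  false,false,[0,0,1],[0,1,-1],[0,1],(⟨0,[(24,0)]⟩,⟨0,[(23,0)]⟩),(⟨0,[(13,0)]⟩,⟨0,[(24,0),(2,0)]⟩),
  ⟨0,[(13,0)]⟩,.k,.k,.k,(.r 0 ⟨8,[(0,6),(1,2),(3,8),(4,0),(6,1),(0,2)]⟩ ⟨0,[(5,0),(1,0),(10,0),(2,
  0)]⟩),.k,.k,⟨false,0,⟨3,[(0,0),(0,3),(0,1),(15,1),(10,0)]⟩,⟨0,[(7,0),(10,0),(2,0)]⟩⟩,⟨true,0,⟨0,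
  [(0,0)]⟩,⟨0,[(21,1)]⟩⟩,⟨true,0,⟨0,[(5,0)]⟩,⟨3,[(2,0),(0,0),(7,1),(7,0)]⟩⟩,⟨false,1,⟨0,[(0,0),(4,
  1),(25,0),(4,0)]⟩,⟨2,[(2,0),(3,1),(1,0),(9,0),(0,0)]⟩⟩,⟨false,0,⟨0,[]⟩,⟨0,[]⟩⟩,⟨false,0,⟨0,[]⟩,⟨0,
  []⟩⟩,[.o ⟨false,1,⟨3,[(4,2),(2,0),(14,0),(6,1)]⟩,⟨0,[(6,0)]⟩⟩,.o ⟨false,1,⟨0,[(4,0)]⟩,⟨1,[(6,0),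
  (12,0),(13,0)]⟩⟩,.o ⟨false,1,⟨11,[(2,0),(2,1),(1,4),(0,4),(17,2),(2,1),(5,3)]⟩,⟨0,[(10,0)]⟩⟩,.a
  ⟨true,0,⟨0,[(21,0)]⟩,⟨0,[(18,0)]⟩⟩ ⟨true,0,⟨0,[(32,0)]⟩,⟨1,[(21,0),(0,0)]⟩⟩ ⟨false,1,⟨0,[(4,0),
  (13,0)]⟩,⟨0,[(8,0)]⟩⟩]⟩))))) (.Q [0,0,0,0,0,0,0,-1,0,1] (.pp false [-1,1]) (.R ⟨0,false,false,
  true,[0,1,-1],[1,0,-1],[1,0,1],(⟨0,[(10,0)]⟩,⟨0,[(21,0),(2,0)]⟩),(⟨0,[(20,0)]⟩,⟨0,[(21,0)]⟩),⟨0,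
  [(21,0)]⟩,.k,.k,.k,.k,.k,.k,⟨true,0,⟨0,[(3,0),(3,0),(20,0)]⟩,⟨0,[(2,0)]⟩⟩,⟨false,0,⟨8,[(0,3),(4,
  1),(2,0),(6,3),(0,1),(11,1)]⟩,⟨1,[(23,0),(8,0)]⟩⟩,⟨true,0,⟨0,[(3,0),(3,0)]⟩,⟨0,[(2,0),(28,0)]⟩⟩,
  ⟨false,0,⟨1,[(0,0),(0,0),(5,0),(22,0),(2,0)]⟩,⟨1,[(23,0),(7,1),(1,0)]⟩⟩,⟨false,0,⟨0,[]⟩,⟨0,[]⟩⟩,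
  ⟨false,0,⟨0,[]⟩,⟨0,[]⟩⟩,[.o ⟨false,0,⟨0,[(17,0)]⟩,⟨1,[(6,1),(16,0),(9,0)]⟩⟩,.e ⟨false,1,⟨1,[(11,
  0),(0,0),(20,0)]⟩,⟨0,[(29,0)]⟩⟩ ⟨false,0,⟨0,[(0,0)]⟩,⟨0,[(6,0),(8,0),(7,0)]⟩⟩,.o ⟨false,1,⟨0,[(15,
  0),(7,0)]⟩,⟨0,[(18,0)]⟩⟩,.a ⟨true,0,⟨0,[(7,0)]⟩,⟨0,[(0,0),(5,0)]⟩⟩ ⟨true,0,⟨0,[]⟩,⟨0,[(35,0)]⟩⟩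
  ⟨false,0,⟨0,[(0,0)]⟩,⟨1,[(6,1),(0,1),(15,0),(9,0)]⟩⟩]⟩) (.Q [0,0,1,0,-1,0,-1,0,0,1,-1] (.p false
  [0,0,1] [1] (⟨0,[(21,0)]⟩,⟨0,[(20,0)]⟩) .k 1 (⟨0,[]⟩,⟨0,[]⟩) .k .k) (.R ⟨0,false,false,true,[0,1,
  -1],[1,0,-1],[1,0,1],(⟨0,[(11,0)]⟩,⟨0,[(22,0),(2,0)]⟩),(⟨0,[(21,0)]⟩,⟨0,[(22,0)]⟩),⟨0,[(22,0)]⟩,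
  .k,.k,.k,.k,.k,.k,⟨true,0,⟨8,[(0,2),(0,4),(4,2),(0,0),(1,1),(19,2),(4,2)]⟩,⟨0,[(3,0)]⟩⟩,⟨false,0,
  ⟨0,[(16,0),(2,0)]⟩,⟨1,[(24,0),(8,0)]⟩⟩,⟨true,0,⟨0,[(4,0),(3,0)]⟩,⟨0,[(3,0),(28,0)]⟩⟩,⟨false,0,⟨3,
  [(0,0),(1,1),(0,1),(12,0),(14,1),(2,2)]⟩,⟨1,[(24,0),(7,1),(1,0)]⟩⟩,⟨false,0,⟨0,[]⟩,⟨0,[]⟩⟩,⟨false,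
  0,⟨0,[]⟩,⟨0,[]⟩⟩,[.o ⟨false,0,⟨0,[(18,0)]⟩,⟨1,[(7,1),(16,0),(9,0)]⟩⟩,.a ⟨true,0,⟨1,[(0,0),(2,1),
  (12,0),(17,0)]⟩,⟨0,[(7,0)]⟩⟩ ⟨false,1,⟨1,[(12,0),(0,0),(20,0)]⟩,⟨0,[(30,0)]⟩⟩ ⟨true,0,⟨1,[(0,0),
  (2,1),(12,0),(2,1),(14,0)]⟩,⟨0,[(1,0)]⟩⟩,.o ⟨false,1,⟨0,[(16,0),(7,0)]⟩,⟨0,[(19,0)]⟩⟩,.e ⟨true,0,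
  ⟨0,[]⟩,⟨0,[(36,0)]⟩⟩ ⟨true,0,⟨0,[(3,0),(12,0),(2,0)]⟩,⟨0,[(1,0)]⟩⟩]⟩) (.R ⟨1,false,false,false,[1,
  0,-1],[1,-1],[0,1,0,0,0,0,0,-1],(⟨0,[(21,0)]⟩,⟨0,[(22,0)]⟩),(⟨0,[(25,0)]⟩,⟨0,[(26,0)]⟩),⟨0,[(10,
  0)]⟩,.k,.k,.k,.k,.k,.k,⟨false,0,⟨0,[(3,0),(28,0)]⟩,⟨1,[(4,1),(11,1),(7,0),(9,0)]⟩⟩,⟨true,0,⟨0,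
  [(19,0)]⟩,⟨0,[(8,0)]⟩⟩,⟨true,0,⟨0,[(36,0)]⟩,⟨0,[]⟩⟩,⟨true,0,⟨0,[(4,0)]⟩,⟨0,[(18,0),(13,0)]⟩⟩,
  ⟨false,0,⟨0,[(32,0)]⟩,⟨0,[(31,0),(2,0)]⟩⟩,⟨true,0,⟨0,[(7,0)]⟩,⟨0,[(18,0)]⟩⟩,[.a ⟨true,0,⟨0,[(2,0),
  (15,0),(15,0)]⟩,⟨0,[(32,0)]⟩⟩ ⟨true,0,⟨0,[(3,0)]⟩,⟨1,[(1,0),(0,0),(17,0),(8,0),(4,0)]⟩⟩ ⟨false,1,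
  ⟨3,[(0,1),(1,1),(0,1),(27,1),(1,0),(0,2)]⟩,⟨0,[(8,0),(23,0)]⟩⟩,.o ⟨false,1,⟨0,[(31,0),(2,0)]⟩,⟨0,
  [(1,0),(1,0),(28,0)]⟩⟩,.o ⟨false,0,⟨0,[(8,0)]⟩,⟨6,[(0,2),(4,1),(0,1),(5,0),(0,0),(10,0),(2,0)]⟩⟩,
  .o ⟨false,0,⟨0,[(20,0)]⟩,⟨0,[(0,0)]⟩⟩]⟩)))) (.Q [0,0,0,0,0,0,0,1,0,-1] (.pp true [-1,1]) (.I [0,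
  -1,1,1] (.Q [0,0,-1,1,0,0,-1,0,0,0,-1] (.p false [0,0,1] [] (⟨0,[(21,0)]⟩,⟨0,[(20,0)]⟩) .k 0 (⟨0,
  []⟩,⟨0,[]⟩) .k .k) (.R ⟨0,false,false,false,[0,0,1],[0,1],[1,1,1],(⟨0,[(22,0)]⟩,⟨0,[(21,0)]⟩),(⟨0,
  [(26,0)]⟩,⟨0,[(25,0)]⟩),⟨0,[(11,0)]⟩,.k,.k,.k,.k,.k,.k,⟨true,0,⟨0,[(31,0)]⟩,⟨0,[(1,0)]⟩⟩,⟨false,1,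
  ⟨1,[(16,1),(7,0),(8,0)]⟩,⟨0,[(19,0)]⟩⟩,⟨true,0,⟨0,[(18,0),(0,0)]⟩,⟨0,[(0,0),(3,0)]⟩⟩,⟨false,1,⟨0,
  [(5,0),(10,0)]⟩,⟨0,[(4,0)]⟩⟩,⟨false,0,⟨0,[]⟩,⟨0,[]⟩⟩,⟨false,0,⟨0,[]⟩,⟨0,[]⟩⟩,[.e ⟨false,0,⟨0,[(36,
  0)]⟩,⟨1,[(33,0),(0,0)]⟩⟩ ⟨false,0,⟨0,[(0,0)]⟩,⟨1,[(19,1),(11,1),(1,0),(0,0)]⟩⟩,.o ⟨false,1,⟨1,[(1,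
  1),(22,0),(8,0)]⟩,⟨0,[(31,0)]⟩⟩,.o ⟨false,1,⟨1,[(19,1),(4,0),(8,0)]⟩,⟨0,[(8,0)]⟩⟩,.a ⟨true,0,⟨0,
  [(19,0)]⟩,⟨0,[(16,0)]⟩⟩ ⟨false,0,⟨0,[]⟩,⟨1,[(12,0),(0,0),(20,0)]⟩⟩ ⟨true,0,⟨0,[(0,0)]⟩,⟨0,[(19,0),
  (11,0)]⟩⟩]⟩) (.R ⟨0,false,false,false,[0,0,1],[0,1],[1,1,1],(⟨0,[(22,0)]⟩,⟨0,[(21,0)]⟩),(⟨0,[(26,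
  0)]⟩,⟨0,[(25,0)]⟩),⟨0,[(11,0)]⟩,.k,.k,.k,.k,.k,.k,⟨true,0,⟨0,[(31,0)]⟩,⟨0,[(1,0)]⟩⟩,⟨false,1,⟨1,
  [(16,1),(7,0),(8,0)]⟩,⟨0,[(19,0)]⟩⟩,⟨true,0,⟨0,[(18,0),(0,0)]⟩,⟨0,[(3,0),(26,0)]⟩⟩,⟨false,1,⟨0,
  [(5,0),(10,0)]⟩,⟨0,[(4,0)]⟩⟩,⟨false,0,⟨0,[]⟩,⟨0,[]⟩⟩,⟨false,0,⟨0,[]⟩,⟨0,[]⟩⟩,[.a ⟨true,0,⟨0,[(32,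
  0)]⟩,⟨0,[(0,0),(15,0)]⟩⟩ ⟨false,0,⟨0,[(36,0)]⟩,⟨1,[(33,0),(0,0)]⟩⟩ ⟨true,0,⟨0,[(8,0),(23,0)]⟩,⟨0,
  [(0,0)]⟩⟩,.o ⟨false,1,⟨1,[(1,1),(22,0),(8,0)]⟩,⟨0,[(31,0)]⟩⟩,.o ⟨false,1,⟨1,[(19,1),(4,0),(8,0)]⟩,
  ⟨0,[(8,0)]⟩⟩,.e ⟨false,0,⟨0,[]⟩,⟨1,[(12,0),(0,0),(20,0)]⟩⟩ ⟨false,1,⟨1,[(1,1),(14,1),(7,0),(8,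
  0)]⟩,⟨0,[(0,0)]⟩⟩]⟩)) (.I [1,0,1,1,0,0,0,-1] (.N [0,-1,1] 0 ⟨0,[(1,0),(1,0)]⟩ ⟨0,[(0,0)]⟩ .k) (.Q
  [0,1,0,-1,-1,0,1,1,0,1,1] (.p true [1,-1,1] [] (⟨0,[(22,0),(2,0)]⟩,⟨0,[(11,0)]⟩) .k 0 (⟨0,[]⟩,⟨0,
  []⟩) .k .k) (.R ⟨0,false,false,true,[0,0,1],[1,-1,1],[1,1,1],(⟨0,[(23,0)]⟩,⟨0,[(22,0)]⟩),(⟨0,[(23,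
  0),(2,0)]⟩,⟨0,[(12,0)]⟩),⟨0,[(12,0)]⟩,.k,.k,.k,.k,.k,.k,⟨true,0,⟨0,[(19,0),(0,0),(9,0)]⟩,⟨0,[(1,
  0)]⟩⟩,⟨false,0,⟨0,[(17,0),(2,0)]⟩,⟨1,[(25,0),(8,0)]⟩⟩,⟨true,0,⟨0,[(19,0),(0,0)]⟩,⟨0,[(1,0),(31,
  0)]⟩⟩,⟨false,0,⟨0,[(0,0),(18,0),(15,0)]⟩,⟨1,[(25,0),(7,1),(1,0)]⟩⟩,⟨false,0,⟨0,[]⟩,⟨0,[]⟩⟩,⟨false,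
  0,⟨0,[]⟩,⟨0,[]⟩⟩,[.a ⟨true,(-1),⟨0,[(0,0)]⟩,⟨0,[(6,0),(10,0)]⟩⟩ ⟨false,0,⟨0,[(37,0)]⟩,⟨1,[(34,0),
  (0,0)]⟩⟩ ⟨true,(-1),⟨0,[(0,0),(8,0)]⟩,⟨0,[(6,0)]⟩⟩,.o ⟨false,0,⟨0,[(5,0)]⟩,⟨1,[(6,0),(10,0),(1,0),
  (5,0),(7,0)]⟩⟩,.o ⟨false,1,⟨1,[(20,1),(4,0),(8,0)]⟩,⟨0,[(9,0)]⟩⟩,.e ⟨false,0,⟨0,[]⟩,⟨1,[(13,0),(0,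
  0),(20,0)]⟩⟩ ⟨false,0,⟨0,[(5,0),(11,0)]⟩,⟨0,[(6,0)]⟩⟩]⟩) (.Q [0,0,0,-1,0,0,0,0,0,1] (.pp false
  [-1,1]) (.R ⟨0,false,false,true,[0,0,1],[1,-1,1],[1,0,0,0,0,0,0,1],(⟨0,[(24,0)]⟩,⟨0,[(23,0)]⟩),
  (⟨0,[(24,0),(2,0)]⟩,⟨0,[(13,0)]⟩),⟨0,[(13,0)]⟩,.k,.k,.k,.k,.k,.k,⟨true,0,⟨0,[(31,0)]⟩,⟨0,[(33,
  0)]⟩⟩,⟨false,0,⟨0,[(18,0),(2,0)]⟩,⟨1,[(26,0),(8,0)]⟩⟩,⟨true,0,⟨0,[]⟩,⟨0,[(38,0)]⟩⟩,⟨false,0,⟨0,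
  [(0,0)]⟩,⟨0,[(1,0),(7,0)]⟩⟩,⟨false,0,⟨0,[]⟩,⟨0,[]⟩⟩,⟨false,0,⟨0,[]⟩,⟨0,[]⟩⟩,[.o ⟨false,0,⟨1,[(6,
  0),(12,0),(13,0)]⟩,⟨0,[(1,0)]⟩⟩,.o ⟨false,0,⟨0,[(6,0)]⟩,⟨3,[(1,2),(5,0),(14,0),(6,1)]⟩⟩,.o ⟨false,
  1,⟨1,[(21,1),(4,0),(8,0)]⟩,⟨0,[(10,0)]⟩⟩,.a ⟨true,0,⟨0,[(21,0)]⟩,⟨0,[(18,0)]⟩⟩ ⟨true,0,⟨0,[(2,0),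
  (31,0)]⟩,⟨0,[(20,0),(0,0)]⟩⟩ ⟨false,0,⟨0,[(6,0),(11,0)]⟩,⟨0,[(7,0)]⟩⟩]⟩) (.Q [0,1,0,-1,0,0,-1,-1,
  0,1,-1] (.p false [0,0,1] [1] (⟨0,[(24,0)]⟩,⟨0,[(23,0)]⟩) .k 1 (⟨0,[]⟩,⟨0,[]⟩) .k .k) (.R ⟨0,
  false,false,true,[0,0,1],[1,-1],[0,0,1],(⟨0,[(25,0)]⟩,⟨0,[(24,0)]⟩),(⟨0,[(28,0)]⟩,⟨0,[(29,0)]⟩),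
  ⟨0,[(14,0)]⟩,.k,.k,.k,.k,.k,.k,⟨true,0,⟨1,[(22,0),(0,0),(8,1)]⟩,⟨0,[(4,0)]⟩⟩,⟨false,0,⟨1,[(12,0),
  (6,0),(2,0)]⟩,⟨1,[(1,1),(2,1),(17,1),(13,0),(0,0)]⟩⟩,⟨false,1,⟨1,[(0,0),(7,0),(13,0),(14,0)]⟩,⟨1,
  [(1,0),(1,0),(6,0),(8,0)]⟩⟩,⟨true,0,⟨0,[(0,0)]⟩,⟨0,[(1,0),(8,0)]⟩⟩,⟨false,0,⟨0,[]⟩,⟨0,[]⟩⟩,⟨false,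
  0,⟨0,[]⟩,⟨0,[]⟩⟩,[.o ⟨false,0,⟨0,[(34,0)]⟩,⟨0,[(2,0),(7,0)]⟩⟩,.o ⟨false,1,⟨7,[(0,3),(8,3),(2,1),
  (2,0),(0,0),(10,2),(8,1),(0,1)]⟩,⟨0,[(1,0)]⟩⟩,.o ⟨false,1,⟨1,[(22,1),(4,0),(8,0)]⟩,⟨0,[(11,0)]⟩⟩,
  .a ⟨true,0,⟨0,[(22,0)]⟩,⟨0,[(19,0)]⟩⟩ ⟨false,1,⟨1,[(15,0),(0,0),(20,0)]⟩,⟨0,[]⟩⟩ ⟨true,0,⟨10,[(0,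
  5),(2,4),(8,0),(6,3),(0,0),(9,1)]⟩,⟨0,[(1,0),(20,0)]⟩⟩]⟩) (.I [0,0,-1,-1,1,0,0,-1] (.Q [0,0,-1,0,
  0,0,-2,0,0,0,-2] (.p false [0,0,1] [0,1,-1] (⟨0,[(26,0)]⟩,⟨0,[(25,0)]⟩) .k 2 (⟨0,[(15,0)]⟩,⟨0,
  [(26,0),(2,0)]⟩) .k (.x (-1) ⟨3,[(0,2),(0,2),(7,0),(0,0),(3,3),(0,3),(7,2),(7,1)]⟩ ⟨0,[(12,1),(13,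
  1)]⟩)) (.Q [0,-1,0,1,1,0,-2,-2,0,0,-2] (.p false [0,0,1] [0,1,-1] (⟨0,[(27,0)]⟩,⟨0,[(26,0)]⟩) .k
  2 (⟨0,[(16,0)]⟩,⟨0,[(27,0),(2,0)]⟩) .k (.x (-1) ⟨3,[(1,2),(0,2),(7,0),(0,0),(3,3),(0,3),(7,2),(7,
  1)]⟩ ⟨2,[(0,1),(24,1),(1,5)]⟩)) (.R ⟨0,false,false,false,[0,0,1],[0,1,-1],[1,0,0,0,0,0,0,1],(⟨0,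
  [(28,0)]⟩,⟨0,[(27,0)]⟩),(⟨0,[(17,0)]⟩,⟨0,[(28,0),(2,0)]⟩),⟨0,[(17,0)]⟩,.k,.k,.k,(.r 0 ⟨4,[(6,4),
  (1,0),(0,1),(5,0),(7,1)]⟩ ⟨0,[(0,0),(24,1),(10,0)]⟩),.k,.k,⟨false,0,⟨9,[(1,0),(1,3),(2,13),(15,3),
  (0,1),(9,0)]⟩,⟨0,[(0,0),(24,1),(10,0)]⟩⟩,⟨true,0,⟨0,[(1,0)]⟩,⟨0,[(25,1)]⟩⟩,⟨true,0,⟨0,[]⟩,⟨0,[(42,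
  0)]⟩⟩,⟨false,1,⟨0,[(0,0)]⟩,⟨0,[(10,0),(2,0)]⟩⟩,⟨false,0,⟨0,[]⟩,⟨0,[]⟩⟩,⟨false,0,⟨0,[]⟩,⟨0,[]⟩⟩,
  [.o ⟨false,1,⟨3,[(5,2),(5,0),(14,0),(6,1)]⟩,⟨0,[(10,0)]⟩⟩,.o ⟨false,1,⟨0,[(5,0)]⟩,⟨1,[(10,0),(12,
  0),(13,0)]⟩⟩,.o ⟨false,1,⟨13,[(2,1),(0,1),(7,5),(0,5),(17,2),(2,3),(5,2)]⟩,⟨0,[(14,0)]⟩⟩,.a ⟨true,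
  0,⟨0,[(25,0)]⟩,⟨0,[(22,0)]⟩⟩ ⟨true,0,⟨9,[(1,0),(1,3),(2,3),(15,3),(0,1),(9,0)]⟩,⟨0,[(24,0),(0,
  0)]⟩⟩ ⟨false,1,⟨0,[(5,0),(16,0)]⟩,⟨0,[(12,0)]⟩⟩]⟩) (.R ⟨0,false,false,false,[0,0,1],[0,1,-1],[0,
  1],(⟨0,[(28,0)]⟩,⟨0,[(27,0)]⟩),(⟨0,[(17,0)]⟩,⟨0,[(28,0),(2,0)]⟩),⟨0,[(17,0)]⟩,.k,.k,.k,(.r 0 ⟨4,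
  [(6,4),(1,0),(0,1),(5,0),(7,1)]⟩ ⟨0,[(2,0),(21,0),(0,0),(9,0),(2,0)]⟩),.k,.k,⟨false,0,⟨1,[(0,0),
  (0,0),(5,0),(31,0)]⟩,⟨0,[(11,0),(10,0),(2,0)]⟩⟩,⟨true,0,⟨0,[(1,0)]⟩,⟨0,[(25,1)]⟩⟩,⟨false,1,⟨7,[(2,
  3),(8,3),(3,0),(6,2),(2,4),(7,1)]⟩,⟨0,[(9,0)]⟩⟩,⟨true,1,⟨0,[(11,0),(10,0),(1,0)]⟩,⟨0,[(0,0)]⟩⟩,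
  ⟨false,0,⟨0,[]⟩,⟨0,[]⟩⟩,⟨false,0,⟨0,[]⟩,⟨0,[]⟩⟩,[.o ⟨false,1,⟨3,[(5,2),(5,0),(14,0),(6,1)]⟩,⟨0,
  [(10,0)]⟩⟩,.o ⟨false,1,⟨0,[(5,0)]⟩,⟨1,[(10,0),(12,0),(13,0)]⟩⟩,.o ⟨false,1,⟨13,[(2,1),(0,1),(7,5),
  (0,5),(17,2),(2,3),(5,2)]⟩,⟨0,[(14,0)]⟩⟩,.a ⟨true,0,⟨0,[(25,0)]⟩,⟨0,[(22,0)]⟩⟩ ⟨true,0,⟨0,[(36,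
  0)]⟩,⟨1,[(25,0),(0,0)]⟩⟩ ⟨false,1,⟨0,[(5,0),(16,0)]⟩,⟨0,[(12,0)]⟩⟩]⟩)) (.K ⟨0,[0,1,-1],0,0,(⟨0,
  [(16,0)]⟩,⟨0,[(27,0),(2,0)]⟩),.k,.k,(.r 0 ⟨0,[(23,0),(0,0),(9,0),(2,0)]⟩ ⟨5,[(1,2),(3,4),(3,3),(4,
  1),(14,0),(8,1)]⟩),(.r (-1) ⟨0,[(0,0),(9,0),(10,0),(1,0)]⟩ ⟨4,[(5,4),(1,0),(0,1),(5,0),(7,1)]⟩),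
  .k,[⟨0,[(0,0)]⟩,⟨0,[(13,0)]⟩,⟨1,[(9,0),(12,0),(13,0)]⟩,⟨0,[(23,0),(13,0)]⟩]⟩)) (.R ⟨0,false,false,
  true,[0,0,1],[1,0,-1],[],(⟨0,[(26,0)]⟩,⟨0,[(25,0)]⟩),(⟨0,[(25,0)]⟩,⟨0,[(26,0)]⟩),⟨0,[(15,0)]⟩,.k,
  .k,.k,.k,.k,.k,⟨true,0,⟨1,[(0,0),(3,0),(33,0)]⟩,⟨0,[(22,0),(0,0)]⟩⟩,⟨false,0,⟨0,[(12,0),(7,0)]⟩,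
  ⟨1,[(1,0),(3,1),(3,0),(13,2),(13,0)]⟩⟩,⟨true,1,⟨1,[(22,1),(0,1),(13,0),(0,0)]⟩,⟨0,[(0,0),(4,0)]⟩⟩,
  ⟨false,1,⟨0,[(20,0),(1,1),(0,0),(14,0)]⟩,⟨0,[(1,0),(6,0)]⟩⟩,⟨false,0,⟨0,[]⟩,⟨0,[]⟩⟩,⟨false,0,⟨0,
  []⟩,⟨0,[]⟩⟩,[.o ⟨false,0,⟨0,[(22,0)]⟩,⟨7,[(1,1),(6,1),(12,3),(6,2),(9,4)]⟩⟩,.o ⟨false,1,⟨1,[(16,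
  0),(0,0),(4,1),(15,0)]⟩,⟨2,[(1,0),(0,0),(2,0),(0,0),(3,0)]⟩⟩,.o ⟨false,1,⟨1,[(23,1),(4,0),(8,0)]⟩,
  ⟨0,[(12,0)]⟩⟩,.a ⟨true,0,⟨0,[(23,0)]⟩,⟨0,[(20,0)]⟩⟩ ⟨false,1,⟨1,[(37,0),(0,0)]⟩,⟨1,[(23,0),(0,
  0)]⟩⟩ ⟨true,0,⟨0,[(20,0),(1,0)]⟩,⟨0,[(2,0),(7,0)]⟩⟩]⟩))))))) (.Q [0,-1,0,1,1,0,-1,-1,0,-1,-1] (.p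
  false [1,-1,1] [] (⟨0,[(20,0),(2,0)]⟩,⟨0,[(9,0)]⟩) .k 0 (⟨0,[]⟩,⟨0,[]⟩) .k .k) (.R ⟨0,false,false,
  true,[0,0,1],[1,-1,1],[1,0,0,0,0,0,0,1],(⟨0,[(21,0)]⟩,⟨0,[(20,0)]⟩),(⟨0,[(21,0),(2,0)]⟩,⟨0,[(10,
  0)]⟩),⟨0,[(10,0)]⟩,.k,.k,.k,.k,.k,.k,⟨true,0,⟨0,[(28,0)]⟩,⟨0,[(30,0)]⟩⟩,⟨false,0,⟨8,[(1,3),(3,1),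
  (2,0),(6,3),(0,1),(11,1)]⟩,⟨1,[(23,0),(8,0)]⟩⟩,⟨true,0,⟨0,[]⟩,⟨0,[(35,0)]⟩⟩,⟨false,0,⟨0,[(1,0),(0,
  0),(27,0)]⟩,⟨0,[(0,0),(5,0)]⟩⟩,⟨false,0,⟨0,[]⟩,⟨0,[]⟩⟩,⟨false,0,⟨0,[]⟩,⟨0,[]⟩⟩,[.o ⟨false,0,⟨1,
  [(3,0),(12,0),(13,0)]⟩,⟨0,[(0,0)]⟩⟩,.o ⟨false,0,⟨0,[(3,0)]⟩,⟨3,[(0,2),(3,0),(14,0),(6,1)]⟩⟩,.o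
  ⟨false,1,⟨1,[(18,1),(4,0),(8,0)]⟩,⟨0,[(7,0)]⟩⟩,.a ⟨true,0,⟨0,[(18,0)]⟩,⟨0,[(15,0)]⟩⟩ ⟨true,0,⟨0,
  [(2,0),(26,0)]⟩,⟨0,[(17,0),(0,0)]⟩⟩ ⟨false,0,⟨0,[(3,0),(11,0)]⟩,⟨0,[(4,0)]⟩⟩]⟩) (.Q [0,1,0,1,0,0,
  0,0,0,-1] (.pp true [-1,1]) (.R ⟨0,false,false,false,[0,1,-1],[1,0,-1],[0,0,1,0,0,0,0,-1],(⟨0,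
  [(11,0)]⟩,⟨0,[(22,0),(2,0)]⟩),(⟨0,[(21,0)]⟩,⟨0,[(22,0)]⟩),⟨0,[(22,0)]⟩,.k,.k,.k,.k,.k,.k,⟨true,0,
  ⟨1,[(19,0),(0,0)]⟩,⟨0,[]⟩⟩,⟨false,0,⟨8,[(2,3),(3,1),(2,0),(6,3),(0,1),(11,1)]⟩,⟨1,[(24,0),(8,
  0)]⟩⟩,⟨false,1,⟨0,[(31,0),(2,0)]⟩,⟨0,[(32,0)]⟩⟩,⟨true,0,⟨1,[(1,0),(0,0),(5,0),(22,0),(2,0)]⟩,⟨0,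
  [(0,0)]⟩⟩,⟨false,0,⟨0,[]⟩,⟨0,[]⟩⟩,⟨false,0,⟨0,[]⟩,⟨0,[]⟩⟩,[.e ⟨false,1,⟨3,[(2,1),(2,1),(6,0),(0,
  0),(17,1),(1,0)]⟩,⟨0,[(3,0),(26,0)]⟩⟩ ⟨false,0,⟨0,[(2,0)]⟩,⟨11,[(3,7),(5,1),(7,3),(6,6),(2,1),(5,
  4)]⟩⟩,.o ⟨false,1,⟨0,[(18,0),(15,0)]⟩,⟨1,[(0,0),(0,0),(5,0),(16,0)]⟩⟩,.o ⟨false,1,⟨0,[(16,0),(7,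
  0)]⟩,⟨0,[(19,0)]⟩⟩,.a ⟨true,0,⟨0,[(8,0)]⟩,⟨0,[(2,0),(4,0)]⟩⟩ ⟨false,1,⟨1,[(2,1),(21,0),(9,0)]⟩,⟨8,
  [(0,0),(0,0),(1,4),(5,1),(7,2),(6,0)]⟩⟩ ⟨true,0,⟨0,[(2,0)]⟩,⟨2,[(0,1),(0,1),(1,0),(5,0),(14,
  1)]⟩⟩]⟩) (.I [0,0,-1,-1,0,0,0,1] (.R ⟨0,false,false,true,[0,0,1],[1,-1,1],[0,1,0,-1,0,0,0,1],(⟨0,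
  [(23,0)]⟩,⟨0,[(22,0)]⟩),(⟨0,[(23,0),(2,0)]⟩,⟨0,[(12,0)]⟩),⟨0,[(12,0)]⟩,.k,.k,.k,.k,.k,.k,⟨true,0,
  ⟨1,[(20,0),(0,0)]⟩,⟨0,[]⟩⟩,⟨false,0,⟨8,[(3,3),(3,1),(2,0),(6,3),(0,1),(11,1)]⟩,⟨1,[(25,0),(8,
  0)]⟩⟩,⟨true,0,⟨0,[(32,0)]⟩,⟨0,[(33,0)]⟩⟩,⟨false,0,⟨7,[(1,2),(1,1),(3,1),(2,0),(6,1),(14,2)]⟩,⟨1,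
  [(25,0),(7,1),(1,0)]⟩⟩,⟨false,0,⟨0,[]⟩,⟨0,[]⟩⟩,⟨false,0,⟨0,[]⟩,⟨0,[]⟩⟩,[.a ⟨true,(-1),⟨0,[(2,0)]⟩,
  ⟨0,[(6,0),(10,0)]⟩⟩ ⟨false,0,⟨5,[(0,4),(17,0),(2,0),(6,1),(3,0)]⟩,⟨3,[(3,1),(2,1),(26,1),(0,0),(0,
  0)]⟩⟩ ⟨true,(-1),⟨0,[(2,0),(6,0)]⟩,⟨0,[(6,0)]⟩⟩,.o ⟨false,0,⟨0,[(5,0)]⟩,⟨1,[(6,0),(10,0),(1,0),(5,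
  0),(7,0)]⟩⟩,.o ⟨false,1,⟨1,[(20,1),(4,0),(8,0)]⟩,⟨0,[(9,0)]⟩⟩,.e ⟨false,0,⟨0,[(0,0)]⟩,⟨4,[(3,2),
  (2,3),(3,0),(7,1),(11,0),(4,0)]⟩⟩ ⟨false,0,⟨1,[(0,0),(6,0),(9,1)]⟩,⟨0,[(6,0)]⟩⟩]⟩) (.Q [0,0,1,0,0,
  0,2,0,0,0,2] (.p true [0,0,1] [0,1,-1] (⟨0,[(23,0)]⟩,⟨0,[(22,0)]⟩) .k 2 (⟨0,[(12,0)]⟩,⟨0,[(23,0),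
  (2,0)]⟩) .k (.r 0 ⟨1,[(4,2),(13,0),(2,0),(6,0)]⟩ ⟨0,[(3,1),(21,0)]⟩)) (.K ⟨0,[0,1,-1],0,0,(⟨0,
  [(13,0)]⟩,⟨0,[(24,0),(2,0)]⟩),.k,.k,(.r 0 ⟨2,[(1,3),(17,0),(2,0),(8,0),(2,0)]⟩ ⟨1,[(2,1),(0,1),
  (14,1),(7,2),(8,0)]⟩),(.r (-1) ⟨0,[(4,0),(2,0),(30,0)]⟩ ⟨0,[(3,0),(1,0),(12,0),(7,0)]⟩),.k,[⟨0,
  [(0,0)]⟩,⟨0,[(10,0)]⟩,⟨1,[(6,0),(12,0),(13,0)]⟩,⟨0,[(20,0),(13,0)]⟩]⟩) (.R ⟨0,false,false,true,[0,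
  0,1],[0,1],[1],(⟨0,[(24,0)]⟩,⟨0,[(23,0)]⟩),(⟨0,[(28,0)]⟩,⟨0,[(27,0)]⟩),⟨0,[(13,0)]⟩,.k,.k,.k,.k,
  .k,.k,⟨true,1,⟨1,[(2,1),(23,0),(8,0)]⟩,⟨0,[(0,0),(0,1),(1,1),(22,0),(4,0)]⟩⟩,⟨false,1,⟨7,[(0,1),
  (10,1),(14,0),(8,6)]⟩,⟨0,[(21,0)]⟩⟩,⟨false,1,⟨1,[(4,1),(21,0),(9,0)]⟩,⟨5,[(0,0),(4,2),(13,2),(2,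
  0)]⟩⟩,⟨true,0,⟨1,[(0,0),(0,1),(27,0)]⟩,⟨0,[(6,0)]⟩⟩,⟨false,0,⟨0,[]⟩,⟨0,[]⟩⟩,⟨false,0,⟨0,[]⟩,⟨0,
  []⟩⟩,[.a ⟨true,0,⟨4,[(1,0),(17,0),(2,0),(6,1),(4,3)]⟩,⟨0,[(2,0)]⟩⟩ ⟨true,0,⟨0,[]⟩,⟨3,[(1,0),(6,0),
  (13,1)]⟩⟩ ⟨false,0,⟨1,[(0,0),(28,0),(4,1)]⟩,⟨3,[(2,1),(1,1),(3,1),(17,1),(8,0),(0,0)]⟩⟩,.a ⟨true,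
  0,⟨0,[(34,0)]⟩,⟨7,[(2,2),(1,1),(3,1),(2,0),(6,1),(14,2)]⟩⟩ ⟨false,1,⟨1,[(35,0),(0,0)]⟩,⟨0,[(38,
  0)]⟩⟩ ⟨true,0,⟨2,[(0,0),(21,0),(11,2)]⟩,⟨0,[(1,0),(0,0),(0,0),(22,0)]⟩⟩,.o ⟨false,1,⟨1,[(1,0),(6,
  0),(17,0),(8,0)]⟩,⟨0,[(10,0)]⟩⟩,.a ⟨true,0,⟨0,[(21,0)]⟩,⟨0,[(18,0)]⟩⟩ ⟨false,1,⟨1,[(35,0),(0,0)]⟩,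
  ⟨3,[(1,0),(6,0),(13,1)]⟩⟩ ⟨true,0,⟨1,[(0,0),(28,0),(4,1)]⟩,⟨0,[(1,0),(0,0),(0,0),(22,
  0)]⟩⟩]⟩))))))) (.I [0,0,-2,-1,1,0,0,1] (.R ⟨2,true,false,true,[0,1],[0,1,-1],[0,1],(⟨0,[]⟩,⟨0,
  []⟩),(⟨0,[(8,0)]⟩,⟨0,[(19,0),(2,0)]⟩),⟨0,[]⟩,.k,.k,.k,.k,.k,.k,⟨false,1,⟨0,[(0,0)]⟩,⟨0,[(1,0),(14,
  0)]⟩⟩,⟨true,0,⟨0,[(5,0)]⟩,⟨0,[(16,0)]⟩⟩,⟨false,1,⟨1,[(28,1),(1,0),(0,0)]⟩,⟨0,[(26,0)]⟩⟩,⟨true,0,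
  ⟨0,[(15,0)]⟩,⟨0,[(4,0)]⟩⟩,⟨true,0,⟨0,[(27,0)]⟩,⟨1,[(16,0),(0,0)]⟩⟩,⟨false,0,⟨0,[(1,0)]⟩,⟨19,[(0,
  7),(1,1),(0,13),(2,3),(14,0),(9,8)]⟩⟩,[]⟩) (.R ⟨2,true,false,false,[0,1],[0,0,1],[1,1,1],(⟨0,[]⟩,
  ⟨0,[]⟩),(⟨0,[(19,0)]⟩,⟨0,[(18,0)]⟩),⟨0,[]⟩,.k,.k,.k,.k,.k,.k,⟨false,0,⟨0,[(0,0),(27,0),(1,0)]⟩,⟨1,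
  [(4,1),(8,1),(7,0),(9,0)]⟩⟩,⟨true,0,⟨0,[(16,0)]⟩,⟨0,[(5,0)]⟩⟩,⟨true,0,⟨0,[(28,0)]⟩,⟨0,[(29,0)]⟩⟩,
  ⟨false,1,⟨1,[(3,1),(9,1),(7,0),(9,0)]⟩,⟨0,[(1,0)]⟩⟩,⟨false,0,⟨0,[]⟩,⟨1,[(9,0),(0,0),(20,0)]⟩⟩,
  ⟨true,0,⟨0,[(4,0)]⟩,⟨0,[(15,0)]⟩⟩,[]⟩))) (.R ⟨0,false,false,true,[0,0,1],[1,-1,1],[1,1,1],(⟨0,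
  [(17,0)]⟩,⟨0,[(16,0)]⟩),(⟨0,[(17,0),(2,0)]⟩,⟨0,[(6,0)]⟩),⟨0,[(6,0)]⟩,.k,.k,.k,.k,.k,.k,⟨true,0,⟨0,
  [(13,0),(0,0),(9,0)]⟩,⟨1,[(0,1),(18,0),(9,0)]⟩⟩,⟨false,0,⟨0,[(11,0),(2,0)]⟩,⟨1,[(19,0),(8,0)]⟩⟩,
  ⟨true,0,⟨0,[(13,0),(0,0)]⟩,⟨1,[(0,1),(18,0),(7,1),(1,0)]⟩⟩,⟨false,0,⟨0,[(0,0),(12,0),(0,0),(14,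
  0)]⟩,⟨1,[(19,0),(7,1),(1,0)]⟩⟩,⟨false,0,⟨0,[]⟩,⟨0,[]⟩⟩,⟨false,0,⟨0,[]⟩,⟨0,[]⟩⟩,[.e ⟨false,0,⟨0,
  [(31,0)]⟩,⟨1,[(28,0),(0,0)]⟩⟩ ⟨false,(-1),⟨0,[(0,0)]⟩,⟨1,[(13,1),(0,1),(4,0),(7,1),(0,0),(0,1)]⟩⟩,
  .o ⟨false,0,⟨3,[(0,1),(0,1),(17,0),(9,0)]⟩,⟨1,[(13,1),(5,0),(7,1),(1,0)]⟩⟩,.o ⟨false,1,⟨1,[(14,1),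
  (4,0),(8,0)]⟩,⟨0,[(3,0)]⟩⟩,.a ⟨true,0,⟨0,[(14,0)]⟩,⟨0,[(11,0)]⟩⟩ ⟨false,0,⟨0,[]⟩,⟨1,[(7,0),(0,0),
  (20,0)]⟩⟩ ⟨true,(-1),⟨0,[(0,0)]⟩,⟨1,[(13,1),(0,1),(4,0),(7,1),(1,0)]⟩⟩]⟩)) (.I [0,1,0,0,0,0,0,-1]
  (.R ⟨2,true,false,false,[0,1],[0,0,1],[1,1,1],(⟨0,[]⟩,⟨0,[]⟩),(⟨0,[(17,0)]⟩,⟨0,[(16,0)]⟩),⟨0,[]⟩,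
  .k,.k,.k,.k,.k,.k,⟨false,0,⟨0,[(0,0)]⟩,⟨1,[(2,1),(8,1),(7,0),(9,0)]⟩⟩,⟨true,0,⟨0,[(14,0)]⟩,⟨0,[(3,
  0)]⟩⟩,⟨true,0,⟨0,[(26,0)]⟩,⟨0,[(27,0)]⟩⟩,⟨false,1,⟨0,[(2,0),(23,0),(2,0)]⟩,⟨1,[(0,0),(0,0),(22,
  0)]⟩⟩,⟨false,0,⟨0,[]⟩,⟨1,[(7,0),(0,0),(20,0)]⟩⟩,⟨true,0,⟨0,[(2,0)]⟩,⟨0,[(13,0)]⟩⟩,[]⟩) (.R ⟨2,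
  true,false,false,[0,1],[0,0,1],[1,0,1,0,0,0,0,1],(⟨0,[]⟩,⟨0,[]⟩),(⟨0,[(17,0)]⟩,⟨0,[(16,0)]⟩),⟨0,
  []⟩,.k,.k,.k,.k,.k,.k,⟨false,0,⟨0,[]⟩,⟨1,[(7,0),(0,0),(19,0)]⟩⟩,⟨true,0,⟨0,[(14,0)]⟩,⟨0,[(3,0)]⟩⟩,
  ⟨true,0,⟨0,[(0,0),(25,0)]⟩,⟨0,[(1,0),(12,1),(10,0)]⟩⟩,⟨false,1,⟨0,[(2,0),(23,0),(2,0)]⟩,⟨0,[(1,0),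
  (12,0)]⟩⟩,⟨false,0,⟨0,[(0,0)]⟩,⟨1,[(13,1),(0,1),(13,0),(0,0)]⟩⟩,⟨true,0,⟨0,[(2,0)]⟩,⟨0,[(13,0)]⟩⟩,
  []⟩))))

theorem ok0 : chk K t0 l0 = true := by decide +kernel

noncomputable def t1 : Tre :=
  (.Q [0,1,0,-1,0,0,-1,-1,0,0,-1] (.p false [0,0,1] [] (⟨0,[(14,0)]⟩,⟨0,[(13,0)]⟩) .k 0 (⟨0,[]⟩,⟨0,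
  []⟩) .k .k) (.I [0,0,-2,-2,1,0,0,-1] (.K ⟨0,[0,1,1],0,0,(⟨0,[(16,0),(3,0)]⟩,⟨0,[(4,0)]⟩),.k,.k,
  (.r 0 ⟨0,[(11,0),(2,0),(8,0),(2,0)]⟩ ⟨0,[(0,0)]⟩),.k,.k,[⟨1,[(13,0),(0,0)]⟩,⟨0,[(2,0)]⟩,⟨0,[(1,
  0)]⟩,⟨0,[(11,0),(14,0)]⟩]⟩) (.I [0,0,2,0,-1,2,-1] (.K ⟨0,[0,1,1],0,0,(⟨0,[(17,0),(3,0)]⟩,⟨0,[(5,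
  0)]⟩),.k,.k,(.x (-2) ⟨0,[(3,0),(1,0),(13,0),(0,0),(7,0)]⟩ ⟨0,[(0,0)]⟩),.k,.k,[⟨1,[(14,0),(0,0)]⟩,
  ⟨0,[(3,0)]⟩,⟨0,[(2,0)]⟩,⟨0,[(12,0),(14,0)]⟩]⟩) (.I [0,0,-2,0,1,-2,1] (.K ⟨0,[0,1,1],0,0,(⟨0,[(18,
  0),(3,0)]⟩,⟨0,[(6,0)]⟩),.k,.k,(.x (-1) ⟨0,[(0,0)]⟩ ⟨1,[(15,0),(0,2),(1,1),(3,3)]⟩),.k,.k,[⟨1,[(15,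
  0),(0,0)]⟩,⟨0,[(4,0)]⟩,⟨0,[(3,0)]⟩,⟨0,[(13,0),(14,0)]⟩]⟩) (.I [0,0,2,2,-1,0,0,1] (.K ⟨0,[0,1,1],0,
  0,(⟨0,[(19,0),(3,0)]⟩,⟨0,[(7,0)]⟩),.k,.k,(.r 1 ⟨0,[(0,0)]⟩ ⟨0,[(4,0),(0,0),(22,0),(1,0),(0,0)]⟩),
  .k,.k,[⟨1,[(16,0),(0,0)]⟩,⟨0,[(5,0)]⟩,⟨0,[(4,0)]⟩,⟨0,[(14,0),(14,0)]⟩]⟩) (.I [0,0,0,1,0,0,0,1]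
  (.S ⟨1,0,[0,0,1,1,0,0,0,1],[0,1,1],[0,1,1,1,0,0,0,1],(⟨0,[(20,0),(3,0)]⟩,⟨0,[(8,0)]⟩),⟨0,[(20,
  0)]⟩,.k,.k,⟨true,0,⟨0,[(34,0)]⟩,⟨0,[]⟩⟩,⟨false,1,⟨1,[(10,0),(0,0),(20,0)]⟩,⟨0,[]⟩⟩,⟨false,0,⟨0,
  [(30,0)]⟩,⟨0,[(29,0),(2,0)]⟩⟩,⟨true,0,⟨0,[(30,0)]⟩,⟨0,[(29,0)]⟩⟩,[.e ⟨false,0,⟨19,[(0,11),(3,3),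
  (2,1),(2,2),(0,2),(3,3),(6,0),(2,7)]⟩,⟨0,[(1,0),(25,0)]⟩⟩ ⟨false,0,⟨0,[(0,0)]⟩,⟨3,[(1,1),(14,1),
  (0,1),(13,0),(0,0)]⟩⟩,.o ⟨false,1,⟨1,[(0,1),(5,1),(15,0),(9,0)]⟩,⟨0,[(5,0)]⟩⟩,.o ⟨false,1,⟨1,[(6,
  1),(15,0),(8,0)]⟩,⟨0,[(18,0)]⟩⟩,.a ⟨true,0,⟨0,[(6,0)]⟩,⟨1,[(7,0),(6,0),(2,0)]⟩⟩ ⟨false,0,⟨0,[(0,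
  0)]⟩,⟨1,[(1,0),(3,0),(11,0),(9,0),(4,0)]⟩⟩ ⟨true,0,⟨0,[(0,0)]⟩,⟨0,[(5,0),(0,0)]⟩⟩]⟩) (.I [0,0,1,1,
  -1,0,0,-1] (.R ⟨2,true,false,true,[0,1],[0,0,1],[1,1,0,0,0,0,0,1],(⟨0,[]⟩,⟨0,[]⟩),(⟨0,[(21,0)]⟩,
  ⟨0,[(20,0)]⟩),⟨0,[]⟩,.k,.k,.k,.k,.k,.k,⟨true,0,⟨0,[]⟩,⟨1,[(18,0),(0,0)]⟩⟩,⟨false,0,⟨0,[(7,0)]⟩,⟨3,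
  [(8,1),(2,0),(0,0),(10,0),(8,1)]⟩⟩,⟨true,1,⟨1,[(15,1),(0,1),(6,0),(6,1),(2,0)]⟩,⟨0,[(0,0)]⟩⟩,
  ⟨false,1,⟨0,[(16,0),(13,0),(2,0)]⟩,⟨1,[(0,1),(14,1),(7,0),(9,0)]⟩⟩,⟨false,1,⟨1,[(15,1),(0,1),(6,
  0),(9,0)]⟩,⟨3,[(0,1),(0,1),(16,0),(0,0),(13,1)]⟩⟩,⟨true,0,⟨0,[(16,0)]⟩,⟨13,[(0,7),(1,3),(5,5),(8,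
  1),(5,2),(9,0)]⟩⟩,[]⟩) (.K ⟨0,[1,-1,1],(-1),0,(⟨0,[(21,0),(2,0)]⟩,⟨0,[(10,0)]⟩),.k,(.r (-2) ⟨2,
  [(0,3),(1,0),(8,0),(0,0)]⟩ ⟨0,[(1,1),(3,0),(25,1)]⟩),.k,.k,.k,[⟨1,[(23,0),(8,0)]⟩,⟨0,[(0,0),(0,2),
  (3,1),(1,1),(7,0)]⟩,⟨0,[(1,1),(3,0),(9,0),(7,0),(5,0),(1,0)]⟩,⟨0,[(0,0),(0,0),(3,0),(1,1),(7,0),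
  (14,0)]⟩]⟩))))))) (.Q [0,0,-1,-1,1,0,-1,-1,0,0,-1] (.p false [0,0,1] [] (⟨0,[(15,0)]⟩,⟨0,[(14,
  0)]⟩) .k 0 (⟨0,[]⟩,⟨0,[]⟩) .k .k) (.R ⟨2,true,false,false,[0,1],[0,1,1],[0,1],(⟨0,[]⟩,⟨0,[]⟩),(⟨0,
  [(16,0),(3,0)]⟩,⟨0,[(4,0)]⟩),⟨0,[]⟩,.k,.k,.k,.k,.k,.k,⟨false,1,⟨0,[(0,0),(1,0),(21,0)]⟩,⟨0,[(1,0),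
  (12,0)]⟩⟩,⟨true,0,⟨0,[(2,0)]⟩,⟨0,[(14,0)]⟩⟩,⟨false,1,⟨1,[(25,1),(1,0),(0,0)]⟩,⟨0,[(23,0)]⟩⟩,⟨true,
  0,⟨0,[(1,0),(23,0)]⟩,⟨0,[(12,0)]⟩⟩,⟨true,0,⟨0,[(24,0)]⟩,⟨1,[(13,0),(0,0)]⟩⟩,⟨false,0,⟨0,[(1,0)]⟩,
  ⟨1,[(0,1),(12,0),(0,0)]⟩⟩,[]⟩) (.R ⟨2,true,false,false,[0,1],[0,1,1],[0,0,1,1],(⟨0,[]⟩,⟨0,[]⟩),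
  (⟨0,[(16,0),(3,0)]⟩,⟨0,[(4,0)]⟩),⟨0,[]⟩,.k,.k,.k,.k,.k,.k,⟨false,1,⟨1,[(2,1),(9,1),(14,0),(0,0)]⟩,
  ⟨1,[(0,1),(9,1),(7,0),(6,1),(2,0)]⟩⟩,⟨true,0,⟨0,[(2,0)]⟩,⟨0,[(14,0)]⟩⟩,⟨false,1,⟨1,[(6,0),(0,0),
  (20,0)]⟩,⟨0,[]⟩⟩,⟨true,0,⟨0,[(1,0),(23,0)]⟩,⟨0,[(12,0)]⟩⟩,⟨true,0,⟨0,[(26,0)]⟩,⟨0,[(25,0)]⟩⟩,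
  ⟨false,0,⟨0,[(1,0)]⟩,⟨0,[(12,0),(12,0),(2,0)]⟩⟩,[]⟩)))

theorem ok1 : chk K t1 r0 = true := by decide +kernel

noncomputable def t2 : Tre :=
  .Q [0,0,0,0,0,0,-1,0,0,0,-1] (.p false [0,0,1] [] (⟨0,[(13,0)]⟩,⟨0,[(12,0)]⟩) .k 0 (⟨0,[]⟩,⟨0,
  []⟩) .k .k) t0 t1

theorem ok2 : chk K t2 base = true :=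
  chk_Q (e' := [0,0,0,0,0,0,1,0,0,0,1]) (by decide +kernel) (by decide +kernel) ok0 ok1

theorem closed {p a b c J l q : ℤ} {D dl : ℝ} {Cl : ℤ → ℤ → ℤ → ℤ → ℝ → Prop}
    (W : World p a b c J 1 l q D dl Cl) (g : G0 p a b c J D)
    {N X R : ℤ} {I : ℝ} (hk : KCl p l Cl N X R I) (kz : KF a b D (X + (1 : ℤ) * I) (X + (1 : ℤ) * I + R) I)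
    {Ne Xe : ℤ} {Ie : ℝ} (he : EFac p 1 D Cl 1 Ne Xe Ie)
    (hkf : ∀ kf ∈ (kfY 1 [0,0,0,0,0,0,1,0,0,0,1]), KOk p l Cl 1
      (xv [1, a, b, c, p, J, X, R, Xe] [D, I, Ie]) N kf)
    (h0 : 1 ≤ (c : ℝ))
    (h1 : 1 ≤ (a : ℝ) - (b : ℝ))
    (h2 : 1 ≤ 1 - (a : ℝ) + (b : ℝ) + (c : ℝ))
    (h3 : 0 < -3 + (p : ℝ) - 2 * D)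
    (h4 : 1 ≤ 2 * (a : ℝ) - (b : ℝ))
    (h5 : 1 ≤ -2 + (J : ℝ))
    (h6 : 0 < -(b : ℝ) - (X : ℝ) + D - I)
    (h7 : 0 < (J : ℝ) - I)
    (h8 : 0 < -(J : ℝ) + D - I)
    (h9 : 0 < -2 * (X : ℝ) + D - 2 * I) : False := by
  have g1 := g.a2
  have g2 := g.b2
  have g3 := g.pa
  have g4 := g.pb
  have g5 := g.J1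
  have g6 := g.JD
  have g7 := g.D2
  have g8 := g.ca
  have g9 := g.ca'
  have k1 := kz.I0
  have k2 := kz.ID
  have k3 := kz.z1
  have k4 := kz.z2
  have k5 := kz.s1
  have k6 := kz.s2
  have e1 := he.I0
  have e2 := he.ID
  have e3 := he.x0
  have e4 := he.xp
  push_cast at *
  refine (val_E W.toBase hk he (row := [1]) (by simp) (by simp) (kfY 1 [0,0,0,0,0,0,1,0,0,0,1])).sound W rfl (Nk := N)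
    (fun kf _ _ => ⟨_, rfl⟩) hkf ?_ ok2
  · simp only [base, List.forall_mem_cons, List.not_mem_nil, false_imp_iff, implies_true,
      and_true, hld, xv, evg_cons, evg_nil, List.map_cons, List.map_nil, List.cons_append,
      List.nil_append, if_true, if_false, Bool.false_eq_true]
    push_cast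
    refine ⟨?_, ?_, ?_, ?_, ?_, ?_, ?_, ?_, ?_, ?_, ?_, ?_, ?_, ?_, ?_, ?_, ?_, ?_, ?_, ?_, ?_, ?_, ?_, ?_, ?_, ?_, ?_, ?_⟩ <;> linarith

end Helper48.Y.Y11_c2_P4_m0n1

namespace Helper48.Y.Y11_c35_P1_m0n0

open Helper25.KG Helper25.KW Helper55.KE Helper11.CT

noncomputable def K : Cls :=
  cE 1 [1] (kfY 1 [0,0,0,0,0,0,1,0,0,0,1])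

noncomputable def base : List Con :=
  [(false,[0,0,0,0,0,0,-2,0,0,1,-2]),
  (false,[0,0,0,0,0,1,0,0,0,-1,1]),
  (false,[0,0,0,0,0,1,0,0,0,0,-1]),
  (false,[0,0,0,0,1,0,0,0,-1,0,0,-1]),
  (false,[0,0,0,0,0,0,0,0,1,0,0,1]),
  (false,[0,0,0,0,0,0,0,0,0,1,0,-1]),
  (false,[0,0,0,0,0,0,0,0,0,0,0,1]),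
  (false,[0,0,-1,0,0,0,-1,0,0,1,-1]),
  (false,[0,1,0,0,0,0,1,1,0,0,1]),
  (false,[0,1,0,0,0,0,-1,-1,0,0,-1]),
  (false,[0,0,1,0,0,0,1,0,0,0,1]),
  (false,[0,0,1,0,0,0,-1,0,0,0,-1]),
  (false,[0,0,0,0,0,0,0,0,0,1,-1]),
  (false,[0,0,0,0,0,0,0,0,0,0,1]),
  (true,[2,0,0,0,0,-1]),
  (false,[0,0,0,0,1,0,0,0,0,-2]),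
  (false,[0,0,0,0,0,-1,0,0,0,1]),
  (true,[0,0,0,0,0,1]),
  (true,[0,2,-1]),
  (false,[1,0,0,0,1,0,0,0,0,-3]),
  (true,[0,2,-1]),
  (true,[1,-1,1]),
  (true,[0,1,0,-1]),
  (true,[0,0,0,1]),
  (true,[0,0,-2,0,1]),
  (true,[0,-2,0,0,1]),
  (true,[-1,0,1]),
  (true,[-1,1])]

noncomputable def t0 : Tre :=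
  (.Q [0,0,0,1,0,0,-1,-1,0,0,-1] (.p false [0,0,1] [] (⟨0,[(13,0)]⟩,⟨0,[(12,0)]⟩) .k 0 (⟨0,[]⟩,⟨0,
  []⟩) .k .k) (.I [0,0,0,1,0,0,0,-1] (.Q [0,-1,0,1,0,0,-1,-1,0,0,-1] (.p false [0,0,1] [] (⟨0,[(15,
  0)]⟩,⟨0,[(14,0)]⟩) .k 0 (⟨0,[]⟩,⟨0,[]⟩) .k .k) (.R ⟨2,true,false,true,[0,1],[0,0,1],[0,1,1,1],(⟨0,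
  []⟩,⟨0,[]⟩),(⟨0,[(16,0)]⟩,⟨0,[(15,0)]⟩),⟨0,[]⟩,.k,.k,.k,.k,.k,.k,⟨false,0,⟨0,[(1,0)]⟩,⟨0,[(4,0),
  (0,0),(4,0),(0,0),(5,1),(7,0),(2,0)]⟩⟩,⟨true,0,⟨0,[(13,0)]⟩,⟨0,[(4,0),(0,0),(4,0),(6,1),(11,0)]⟩⟩,
  ⟨true,0,⟨0,[(30,0)]⟩,⟨0,[]⟩⟩,⟨false,1,⟨0,[(11,0),(13,0),(2,0)]⟩,⟨0,[(0,0)]⟩⟩,⟨false,0,⟨0,[(26,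
  0)]⟩,⟨0,[(25,0),(2,0)]⟩⟩,⟨true,0,⟨0,[(11,0)]⟩,⟨0,[(0,0),(24,0)]⟩⟩,[]⟩) (.I [0,0,0,0,1,0,0,0,-1]
  (.I [0,0,-1,0,0,1,-1] (.C [(0,0),(1,0),(0,0),(3,0),(11,1),(6,0)]) (.C [(0,0),(5,0),(5,0)])) (.C
  [(0,0),(6,0),(2,0)]))) (.Q [0,0,0,0,0,0,1,1,0,0,1] (.p true [0,0,1] [] (⟨0,[(15,0)]⟩,⟨0,[(14,
  0)]⟩) .k 0 (⟨0,[]⟩,⟨0,[]⟩) .k .k) (.R ⟨2,true,false,true,[0,1],[0,0,1],[0,0,1,1],(⟨0,[]⟩,⟨0,[]⟩),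
  (⟨0,[(16,0)]⟩,⟨0,[(15,0)]⟩),⟨0,[]⟩,.k,.k,.k,.k,.k,.k,⟨false,1,⟨1,[(2,1),(10,1),(13,0),(0,0)]⟩,⟨0,
  [(0,0),(3,0),(0,0),(4,0),(6,1),(7,0)]⟩⟩,⟨true,0,⟨0,[(13,0)]⟩,⟨0,[(1,0),(0,0)]⟩⟩,⟨false,1,⟨1,[(6,
  0),(0,0),(20,0)]⟩,⟨0,[]⟩⟩,⟨true,0,⟨0,[(0,0),(24,0)]⟩,⟨0,[(2,0)]⟩⟩,⟨true,0,⟨0,[(26,0)]⟩,⟨0,[(25,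
  0)]⟩⟩,⟨false,0,⟨0,[(0,0)]⟩,⟨0,[(12,0),(15,0)]⟩⟩,[]⟩) (.Q [0,1,0,-1,0,0,1,1,0,0,1] (.p true [0,0,
  1] [] (⟨0,[(16,0)]⟩,⟨0,[(15,0)]⟩) .k 0 (⟨0,[]⟩,⟨0,[]⟩) .k .k) (.Q [0,0,-1,1,0,0,-1,0,0,0,-1] (.p
  false [0,0,1] [] (⟨0,[(17,0)]⟩,⟨0,[(16,0)]⟩) .k 0 (⟨0,[]⟩,⟨0,[]⟩) .k .k) (.R ⟨0,false,false,false,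
  [0,0,1],[0,1],[1,1,1],(⟨0,[(18,0)]⟩,⟨0,[(17,0)]⟩),(⟨0,[(22,0)]⟩,⟨0,[(21,0)]⟩),⟨0,[(7,0)]⟩,.k,.k,
  .k,.k,.k,.k,⟨true,0,⟨0,[(27,0)]⟩,⟨0,[(26,0),(1,0)]⟩⟩,⟨false,1,⟨3,[(5,0),(6,1),(11,0),(4,2)]⟩,⟨0,
  [(15,0)]⟩⟩,⟨false,0,⟨0,[(2,0),(12,0)]⟩,⟨3,[(0,1),(2,1),(9,1),(15,0),(0,2)]⟩⟩,⟨true,0,⟨0,[(4,0)]⟩,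
  ⟨0,[(1,0)]⟩⟩,⟨false,0,⟨0,[]⟩,⟨0,[]⟩⟩,⟨false,0,⟨0,[]⟩,⟨0,[]⟩⟩,[.e ⟨false,0,⟨0,[(32,0)]⟩,⟨1,[(29,0),
  (0,0)]⟩⟩ ⟨false,0,⟨0,[(0,0)]⟩,⟨1,[(15,1),(11,1),(1,0),(0,0)]⟩⟩,.o ⟨false,1,⟨1,[(20,0),(7,1),(1,
  0)]⟩,⟨0,[(27,0)]⟩⟩,.o ⟨false,1,⟨1,[(15,1),(4,0),(8,0)]⟩,⟨2,[(0,0),(1,0),(0,0),(12,0)]⟩⟩,.a ⟨true,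
  0,⟨0,[(15,0)]⟩,⟨0,[(12,0)]⟩⟩ ⟨false,0,⟨0,[]⟩,⟨1,[(8,0),(0,0),(20,0)]⟩⟩ ⟨true,0,⟨0,[(0,0)]⟩,⟨0,
  [(15,0),(11,0)]⟩⟩]⟩) (.I [0,0,0,0,1,0,0,0,-1] (.I [0,0,0,0,0,0,-1,-1] (.I [0,0,1,-1,0,0,0,-1] (.I
  [0,0,-1,0,0,1,-1] (.C [(0,0),(3,0),(6,0),(11,1),(8,0)]) (.C [(0,0),(9,0),(5,0)])) (.C [(0,0),(2,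
  0),(1,0)])) (.C [(0,0),(3,0),(3,0),(14,0)])) (.C [(0,0),(8,0),(2,0)]))) (.Q [0,1,0,-1,0,0,1,1,0,1,
  1] (.p true [1,-1,1] [] (⟨0,[(17,0),(2,0)]⟩,⟨0,[(6,0)]⟩) .k 0 (⟨0,[]⟩,⟨0,[]⟩) .k .k) (.R ⟨2,false,
  false,false,[0,1],[0,1,-1],[1,1],(⟨0,[]⟩,⟨0,[]⟩),(⟨0,[(7,0)]⟩,⟨0,[(18,0),(2,0)]⟩),⟨0,[]⟩,.k,.k,.k,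
  .k,.k,.k,⟨false,1,⟨15,[(0,3),(2,11),(1,1),(14,2),(4,5),(3,12)]⟩,⟨0,[(1,0),(13,0)]⟩⟩,⟨true,0,⟨2,
  [(1,1),(1,1),(12,0),(8,0)]⟩,⟨0,[(15,0)]⟩⟩,⟨false,1,⟨1,[(27,1),(1,0),(0,0)]⟩,⟨0,[(26,0),(1,0)]⟩⟩,
  ⟨true,0,⟨0,[(2,0)]⟩,⟨0,[(13,0)]⟩⟩,⟨false,1,⟨1,[(8,0),(0,0),(19,0)]⟩,⟨0,[(1,0),(1,0),(11,0)]⟩⟩,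
  ⟨false,0,⟨0,[(1,0)]⟩,⟨1,[(0,1),(19,0),(9,0)]⟩⟩,[.o ⟨false,0,⟨0,[(1,0),(4,0),(0,0),(11,1),(12,0)]⟩,
  ⟨1,[(0,1),(19,0),(9,0)]⟩⟩,.a ⟨true,0,⟨0,[(1,0)]⟩,⟨0,[(0,0)]⟩⟩ ⟨true,0,⟨0,[]⟩,⟨1,[(15,0),(0,0)]⟩⟩
  ⟨false,0,⟨0,[(1,0)]⟩,⟨1,[(0,1),(19,0),(8,0)]⟩⟩,.o ⟨false,1,⟨1,[(20,0),(8,0)]⟩,⟨1,[(15,0),(0,0)]⟩⟩,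
  .fo]⟩) (.I [0,1,-1,0,0,0,0,1] (.Q [0,-1,0,-1,1,0,2,2,0,0,2] (.p true [0,0,1] [0,1,-1] (⟨0,[(19,
  0)]⟩,⟨0,[(18,0)]⟩) .k 2 (⟨0,[(8,0)]⟩,⟨0,[(19,0),(2,0)]⟩) .k (.r 0 ⟨0,[(4,1),(24,1)]⟩ ⟨0,[(3,1),
  (12,1),(13,0)]⟩)) (.R ⟨0,false,false,true,[0,0,1],[0,1,-1],[1,0,1],(⟨0,[(20,0)]⟩,⟨0,[(19,0)]⟩),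
  (⟨0,[(9,0)]⟩,⟨0,[(20,0),(2,0)]⟩),⟨0,[(9,0)]⟩,.k,.k,.k,(.x (-1) ⟨1,[(9,1),(7,3),(1,1),(2,0),(8,
  0)]⟩ ⟨10,[(1,4),(0,9),(2,4),(1,2),(6,5),(5,21),(0,9),(1,0),(5,4)]⟩),.k,.k,⟨false,1,⟨1,[(5,1),(25,
  0),(0,0)]⟩,⟨0,[(3,0),(13,0),(9,0)]⟩⟩,⟨true,0,⟨6,[(2,5),(2,5),(1,1),(6,3),(12,2)]⟩,⟨0,[(17,1)]⟩⟩,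
  ⟨true,0,⟨0,[(4,0),(12,0)]⟩,⟨0,[(1,0)]⟩⟩,⟨false,0,⟨0,[(4,0),(1,0)]⟩,⟨0,[(0,0)]⟩⟩,⟨false,0,⟨0,[]⟩,
  ⟨0,[]⟩⟩,⟨false,0,⟨0,[]⟩,⟨0,[]⟩⟩,[.o ⟨false,0,⟨0,[(2,0),(31,1)]⟩,⟨1,[(0,0),(28,0),(2,0)]⟩⟩,.o
  ⟨false,0,⟨0,[(2,0),(31,0)]⟩,⟨1,[(0,0),(9,0),(0,0),(17,0)]⟩⟩,.o ⟨false,1,⟨1,[(17,1),(4,0),(8,0)]⟩,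
  ⟨6,[(2,1),(2,1),(1,1),(10,0),(8,0)]⟩⟩,.a ⟨true,0,⟨0,[(17,0)]⟩,⟨0,[(14,0)]⟩⟩ ⟨true,0,⟨0,[]⟩,⟨0,
  [(34,0)]⟩⟩ ⟨false,0,⟨4,[(2,3),(3,0),(0,0),(6,2),(12,1)]⟩,⟨1,[(0,0),(16,1),(11,0),(2,0)]⟩⟩]⟩) (.R
  ⟨0,false,false,true,[0,0,1],[0,1,-1],[0,1,1,1,0,0,0,-1],(⟨0,[(20,0)]⟩,⟨0,[(19,0)]⟩),(⟨0,[(9,0)]⟩,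
  ⟨0,[(20,0),(2,0)]⟩),⟨0,[(9,0)]⟩,.k,.k,.k,(.r (-1) ⟨5,[(1,1),(3,5),(1,1),(7,3),(6,0),(8,1),(0,2)]⟩
  ⟨1,[(0,0),(2,0),(0,0),(12,3),(13,0)]⟩),.k,.k,⟨false,1,⟨1,[(10,0),(0,0),(19,0)]⟩,⟨0,[]⟩⟩,⟨true,0,
  ⟨4,[(0,0),(0,0),(0,1),(2,2),(1,0),(6,3),(11,0)]⟩,⟨0,[(17,1)]⟩⟩,⟨false,0,⟨1,[(0,0),(2,0),(0,0),(12,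
  3),(13,0)]⟩,⟨0,[(1,0),(3,0),(26,0)]⟩⟩,⟨true,(-1),⟨0,[(0,0)]⟩,⟨1,[(5,1),(9,1),(1,1),(13,0),(0,
  0)]⟩⟩,⟨false,0,⟨0,[]⟩,⟨0,[]⟩⟩,⟨false,0,⟨0,[]⟩,⟨0,[]⟩⟩,[.o ⟨false,0,⟨1,[(0,0),(21,0),(7,0),(3,0)]⟩,
  ⟨1,[(5,1),(11,1),(13,0),(0,0)]⟩⟩,.o ⟨false,0,⟨3,[(0,0),(1,0),(3,0),(19,0),(3,0)]⟩,⟨0,[(15,0),(13,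
  0),(2,0)]⟩⟩,.o ⟨false,1,⟨1,[(17,1),(4,0),(8,0)]⟩,⟨14,[(0,0),(0,0),(0,1),(2,2),(1,4),(10,0),(7,
  0)]⟩⟩,.a ⟨true,0,⟨0,[(17,0)]⟩,⟨0,[(14,0)]⟩⟩ ⟨true,0,⟨2,[(0,0),(5,0),(10,2),(9,0),(2,0),(0,0)]⟩,⟨0,
  [(5,0)]⟩⟩ ⟨false,0,⟨5,[(0,1),(0,0),(0,2),(4,1),(6,0),(15,0),(0,1)]⟩,⟨1,[(5,1),(11,3),(13,0),(0,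
  0)]⟩⟩]⟩)) (.R ⟨0,false,false,true,[0,1,-1],[0,0,1],[1,0,1],(⟨0,[(8,0)]⟩,⟨0,[(19,0),(2,0)]⟩),(⟨0,
  [(19,0)]⟩,⟨0,[(18,0)]⟩),⟨0,[(19,0)]⟩,.k,.k,.k,(.r 0 ⟨0,[(0,0),(1,0),(13,0),(9,0)]⟩ ⟨7,[(4,9),(1,
  2),(7,5),(10,0),(3,1),(0,3),(0,2)]⟩),.k,.k,⟨true,0,⟨0,[(0,0)]⟩,⟨6,[(1,1),(2,1),(1,1),(7,6),(2,0),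
  (8,0)]⟩⟩,⟨false,1,⟨0,[(16,1),(13,0)]⟩,⟨6,[(1,5),(2,5),(1,1),(6,3),(12,2)]⟩⟩,⟨true,0,⟨0,[(4,0)]⟩,
  ⟨0,[(2,0),(13,0),(9,0)]⟩⟩,⟨false,1,⟨1,[(4,1),(9,1),(1,1),(13,0),(0,0)]⟩,⟨0,[(2,0),(0,0)]⟩⟩,⟨false,
  0,⟨0,[]⟩,⟨0,[]⟩⟩,⟨false,0,⟨0,[]⟩,⟨0,[]⟩⟩,[.a ⟨true,0,⟨0,[(14,0)]⟩,⟨0,[(0,0),(12,0)]⟩⟩ ⟨false,0,⟨0,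
  []⟩,⟨1,[(9,0),(0,0),(19,0)]⟩⟩ ⟨true,0,⟨0,[(14,0),(1,0)]⟩,⟨4,[(0,1),(0,2),(1,2),(0,2),(1,0),(6,
  1)]⟩⟩,.o ⟨false,1,⟨1,[(14,1),(6,0),(9,0)]⟩,⟨0,[(3,0)]⟩⟩,.o ⟨false,1,⟨1,[(6,0),(18,0),(4,0)]⟩,⟨0,
  [(16,0)]⟩⟩,.o ⟨false,0,⟨3,[(1,3),(2,2),(9,0),(2,0),(8,0),(1,0)]⟩,⟨1,[(9,0),(0,0),(5,1),(13,
  0)]⟩⟩]⟩)))))) (.I [0,0,-1,0,0,0,0,1] (.Q [0,0,-1,1,0,0,-1,0,0,0,-1] (.p false [0,0,1] [] (⟨0,[(15,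
  0)]⟩,⟨0,[(14,0)]⟩) .k 0 (⟨0,[]⟩,⟨0,[]⟩) .k .k) (.R ⟨0,false,false,false,[0,0,1],[0,1],[1,1,1],(⟨0,
  [(16,0)]⟩,⟨0,[(15,0)]⟩),(⟨0,[(20,0)]⟩,⟨0,[(19,0)]⟩),⟨0,[(5,0)]⟩,.k,.k,.k,.k,.k,.k,⟨true,0,⟨0,[(25,
  0)]⟩,⟨0,[(24,0),(1,0)]⟩⟩,⟨false,1,⟨3,[(3,0),(6,1),(11,0),(4,2)]⟩,⟨0,[(13,0)]⟩⟩,⟨true,0,⟨0,[(12,0),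
  (0,0)]⟩,⟨0,[(1,0)]⟩⟩,⟨false,1,⟨0,[(12,0),(13,0),(1,0)]⟩,⟨0,[(2,0)]⟩⟩,⟨false,0,⟨0,[]⟩,⟨0,[]⟩⟩,
  ⟨false,0,⟨0,[]⟩,⟨0,[]⟩⟩,[.e ⟨false,0,⟨0,[(30,0)]⟩,⟨1,[(27,0),(0,0)]⟩⟩ ⟨false,0,⟨0,[(0,0)]⟩,⟨1,
  [(13,1),(11,1),(1,0),(0,0)]⟩⟩,.o ⟨false,1,⟨1,[(18,0),(7,1),(1,0)]⟩,⟨0,[(25,0)]⟩⟩,.o ⟨false,1,⟨1,
  [(13,1),(4,0),(8,0)]⟩,⟨3,[(0,1),(2,0),(0,0),(0,0),(11,1),(6,1),(0,1)]⟩⟩,.a ⟨true,0,⟨0,[(13,0)]⟩,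
  ⟨0,[(10,0)]⟩⟩ ⟨false,0,⟨0,[]⟩,⟨1,[(6,0),(0,0),(20,0)]⟩⟩ ⟨true,0,⟨0,[(0,0)]⟩,⟨0,[(13,0),(11,
  0)]⟩⟩]⟩) (.I [0,0,0,0,1,0,0,0,-1] (.I [0,1,0,0,0,0,-1,-1] (.I [0,0,-1,0,0,1,-1] (.C [(0,0),(2,0),
  (4,0),(11,1),(8,0)]) (.C [(0,0),(6,0),(5,0)])) (.C [(0,0),(5,0),(7,0),(6,0)])) (.C [(0,0),(6,0),
  (2,0)]))) (.I [0,0,0,0,1,0,0,0,-1] (.I [0,0,-1,0,0,1,-1] (.C [(0,0),(1,0),(0,0),(2,0),(11,1),(8,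
  0)]) (.C [(0,0),(4,0),(5,0)])) (.C [(0,0),(5,0),(2,0)]))))

theorem ok0 : chk K t0 base = true := by decide +kernel

theorem closed {p a b c J l q : ℤ} {D dl : ℝ} {Cl : ℤ → ℤ → ℤ → ℤ → ℝ → Prop}
    (W : World p a b c J 1 l q D dl Cl) (g : G0 p a b c J D)
    {N X R : ℤ} {I : ℝ} (hk : KCl p l Cl N X R I) (kz : KF a b D (X + (1 : ℤ) * I) (X + (1 : ℤ) * I + R) I)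
    {Ne Xe : ℤ} {Ie : ℝ} (he : EFac p 1 D Cl 1 Ne Xe Ie)
    (hkf : ∀ kf ∈ (kfY 1 [0,0,0,0,0,0,1,0,0,0,1]), KOk p l Cl 1
      (xv [1, a, b, c, p, J, X, R, Xe] [D, I, Ie]) N kf)
    (h0 : 1 ≤ (c : ℝ))
    (h1 : 1 ≤ 1 - (a : ℝ) + (b : ℝ))
    (h2 : 1 ≤ 2 * (a : ℝ) - (b : ℝ))
    (h3 : 0 < 1 + (p : ℝ) - 3 * D)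
    (h4 : 1 ≤ 2 * (a : ℝ) - (b : ℝ))
    (h5 : 1 ≤ 2 - (J : ℝ))
    (h6 : 0 < -(b : ℝ) - (X : ℝ) + D - I)
    (h7 : 0 < (J : ℝ) - I)
    (h8 : 0 < (J : ℝ) - D + I)
    (h9 : 0 < -2 * (X : ℝ) + D - 2 * I) : False := by
  have g1 := g.a2
  have g2 := g.b2
  have g3 := g.pa
  have g4 := g.pb
  have g5 := g.J1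
  have g6 := g.JD
  have g7 := g.D2
  have g8 := g.ca
  have g9 := g.ca'
  have k1 := kz.I0
  have k2 := kz.ID
  have k3 := kz.z1
  have k4 := kz.z2
  have k5 := kz.s1
  have k6 := kz.s2
  have e1 := he.I0
  have e2 := he.ID
  have e3 := he.x0
  have e4 := he.xp
  push_cast at *
  refine (val_E W.toBase hk he (row := [1]) (by simp) (by simp) (kfY 1 [0,0,0,0,0,0,1,0,0,0,1])).sound W rfl (Nk := N)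
    (fun kf _ _ => ⟨_, rfl⟩) hkf ?_ ok0
  · simp only [base, List.forall_mem_cons, List.not_mem_nil, false_imp_iff, implies_true,
      and_true, hld, xv, evg_cons, evg_nil, List.map_cons, List.map_nil, List.cons_append,
      List.nil_append, if_true, if_false, Bool.false_eq_true]
    push_cast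
    refine ⟨?_, ?_, ?_, ?_, ?_, ?_, ?_, ?_, ?_, ?_, ?_, ?_, ?_, ?_, ?_, ?_, ?_, ?_, ?_, ?_, ?_, ?_, ?_, ?_, ?_, ?_, ?_, ?_⟩ <;> linarith

end Helper48.Y.Y11_c35_P1_m0n0

namespace Helper48.Y.Y11_c35_P2_m1n1_K2

open Helper25.KG Helper25.KW Helper55.KE Helper11.CT

noncomputable def K : Cls :=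
  cE 1 [1] (kfY 1 [0,0,0,0,0,0,1,0,0,0,1])

noncomputable def base : List Con :=
  [(false,[0,0,0,0,0,0,-2,0,0,1,-2]),
  (false,[0,0,0,0,0,-1,0,0,0,1,-1]),
  (false,[0,0,0,0,0,-1,0,0,0,0,1]),
  (false,[0,0,0,0,1,0,0,0,-1,0,0,-1]),
  (false,[0,0,0,0,0,0,0,0,1,0,0,1]),
  (false,[0,0,0,0,0,0,0,0,0,1,0,-1]),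
  (false,[0,0,0,0,0,0,0,0,0,0,0,1]),
  (false,[0,0,-1,0,0,0,-1,0,0,1,-1]),
  (false,[0,1,0,0,0,0,1,1,0,0,1]),
  (false,[0,1,0,0,0,0,-1,-1,0,0,-1]),
  (false,[0,0,1,0,0,0,1,0,0,0,1]),
  (false,[0,0,1,0,0,0,-1,0,0,0,-1]),
  (false,[0,0,0,0,0,0,0,0,0,1,-1]),
  (false,[0,0,0,0,0,0,0,0,0,0,1]),
  (true,[-1,0,0,1]),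
  (true,[3,0,0,0,0,-1]),
  (true,[-1,0,0,0,0,1]),
  (false,[0,0,0,0,1,0,0,0,0,-2]),
  (false,[0,0,0,0,0,-1,0,0,0,1]),
  (true,[0,0,0,0,0,1]),
  (true,[0,2,-1]),
  (true,[2,2,0,0,-1]),
  (true,[0,-2,0,0,1]),
  (true,[1,-1,1]),
  (true,[1,1,-1]),
  (false,[1,0,0,0,2,0,0,0,0,-5]),
  (true,[0,2,-1]),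
  (true,[1,-1,1]),
  (true,[0,1,0,-1]),
  (true,[0,0,0,1]),
  (true,[0,0,-2,0,1]),
  (true,[0,-2,0,0,1]),
  (true,[-1,0,1]),
  (true,[-1,1])]

noncomputable def t0 : Tre :=
  (.Q [0,0,0,1,0,0,0,0,0,-1] (.pp true [-1,1]) (.S ⟨1,0,[0,1,-1,-1],[1,-1],[0,0,-1,-1],(⟨0,[(19,
  0)]⟩,⟨0,[(20,0)]⟩),⟨0,[(2,0),(0,0)]⟩,.k,(.r (-2) ⟨0,[(29,1),(1,0),(0,0)]⟩ ⟨0,[(22,0),(1,1),(5,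
  1)]⟩),⟨false,1,⟨1,[(4,0),(0,0),(26,0)]⟩,⟨0,[]⟩⟩,⟨true,0,⟨0,[(34,0)]⟩,⟨0,[]⟩⟩,⟨true,0,⟨0,[(30,0)]⟩,
  ⟨0,[(29,0)]⟩⟩,⟨false,0,⟨0,[(30,0)]⟩,⟨0,[(29,0),(2,0)]⟩⟩,[.o ⟨false,0,⟨0,[(29,0)]⟩,⟨9,[(4,0),(0,0),
  (20,1),(3,9),(1,4)]⟩⟩,.o ⟨false,1,⟨1,[(4,0),(0,0),(23,1),(2,0)]⟩,⟨0,[(0,0)]⟩⟩,.o ⟨false,0,⟨1,[(11,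
  0),(0,0)]⟩,⟨9,[(4,0),(0,0),(20,1),(4,4)]⟩⟩,.a ⟨true,(-1),⟨0,[(17,0),(1,0),(2,0),(1,1)]⟩,⟨0,[(31,
  0)]⟩⟩ ⟨false,2,⟨0,[(29,0),(1,0),(0,0)]⟩,⟨0,[(22,0),(1,1),(5,0)]⟩⟩ ⟨true,1,⟨0,[(29,0),(1,0)]⟩,⟨0,
  [(22,0),(1,1),(5,0)]⟩⟩]⟩) (.Q [0,0,0,-2,0,0,0,0,0,1] (.pp false [-1,1]) (.Q [0,-1,0,1,0,0,-1,-1,0,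
  0,-1] (.p false [0,0,1] [] (⟨0,[(15,0)]⟩,⟨0,[(14,0)]⟩) .k 0 (⟨0,[]⟩,⟨0,[]⟩) .k .k) (.I [1,0,-1,-1,
  1,0,0,1] (.R ⟨2,true,false,true,[0,1],[0,0,1],[0,1,1,1],(⟨0,[]⟩,⟨0,[]⟩),(⟨0,[(17,0)]⟩,⟨0,[(16,
  0)]⟩),⟨0,[]⟩,.k,.k,.k,.k,.k,.k,⟨false,0,⟨0,[(1,0),(12,0),(13,0)]⟩,⟨0,[(0,0)]⟩⟩,⟨true,0,⟨0,[(14,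
  0)]⟩,⟨4,[(11,4),(6,0),(6,1),(1,4),(1,0),(2,0)]⟩⟩,⟨true,0,⟨0,[(37,0)]⟩,⟨0,[]⟩⟩,⟨false,1,⟨0,[(0,0),
  (13,0)]⟩,⟨0,[(1,0)]⟩⟩,⟨false,0,⟨0,[(33,0)]⟩,⟨9,[(2,4),(4,2),(0,2),(20,0),(5,4)]⟩⟩,⟨true,0,⟨0,[(12,
  0)]⟩,⟨18,[(1,12),(0,4),(10,5),(11,1),(3,0),(2,2)]⟩⟩,[]⟩) (.R ⟨2,true,false,true,[0,1],[0,0,1],[1,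
  1,1],(⟨0,[]⟩,⟨0,[]⟩),(⟨0,[(17,0)]⟩,⟨0,[(16,0)]⟩),⟨0,[]⟩,.k,.k,.k,.k,.k,.k,⟨false,0,⟨25,[(0,19),(1,
  9),(10,5),(0,5),(14,1),(4,12),(0,2)]⟩,⟨5,[(4,0),(6,3),(0,5),(16,0),(4,0),(0,2)]⟩⟩,⟨true,0,⟨0,[(14,
  0)]⟩,⟨4,[(11,4),(6,0),(6,1),(1,4),(1,0),(2,0)]⟩⟩,⟨true,0,⟨0,[(32,0)]⟩,⟨0,[(33,0)]⟩⟩,⟨false,1,⟨9,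
  [(2,4),(4,2),(0,2),(3,9),(16,0),(5,4)]⟩,⟨0,[(1,0)]⟩⟩,⟨false,0,⟨0,[]⟩,⟨1,[(7,0),(0,0),(26,0)]⟩⟩,
  ⟨true,0,⟨0,[(12,0)]⟩,⟨22,[(0,2),(0,10),(0,6),(8,2),(1,8),(11,0),(3,1)]⟩⟩,[]⟩)) (.Q [0,0,0,0,0,0,1,
  1,0,-1,1] (.p true [0,0,1] [1] (⟨0,[(16,0)]⟩,⟨0,[(15,0)]⟩) .k 1 (⟨0,[]⟩,⟨0,[]⟩) .k .k) (.S ⟨1,0,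
  [0,0,0,0,0,0,0,1],[0,0,1],[0,1,0,0,0,0,0,1],(⟨0,[(17,0)]⟩,⟨0,[(16,0)]⟩),⟨0,[(6,0)]⟩,.k,.k,⟨true,0,
  ⟨0,[(37,0)]⟩,⟨0,[]⟩⟩,⟨false,1,⟨1,[(7,0),(0,0),(26,0)]⟩,⟨0,[]⟩⟩,⟨false,0,⟨0,[(33,0)]⟩,⟨9,[(2,4),(4,
  2),(0,2),(20,0),(5,4)]⟩⟩,⟨true,0,⟨0,[(33,0)]⟩,⟨0,[(32,0)]⟩⟩,[.o ⟨false,0,⟨0,[(0,0)]⟩,⟨1,[(7,0),(0,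
  0),(4,1),(21,0)]⟩⟩,.o ⟨false,1,⟨8,[(0,3),(11,4),(16,0),(5,6)]⟩,⟨0,[(13,0)]⟩⟩,.o ⟨false,1,⟨9,[(7,
  0),(0,0),(5,9),(14,1),(4,4)]⟩,⟨4,[(11,4),(6,0),(6,1),(1,4),(1,0),(2,0)]⟩⟩,.a ⟨true,0,⟨0,[(14,0)]⟩,
  ⟨0,[(11,0)]⟩⟩ ⟨false,0,⟨0,[(0,0),(10,0)]⟩,⟨0,[(13,0),(0,0),(20,0)]⟩⟩ ⟨true,0,⟨0,[(0,0),(10,0)]⟩,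
  ⟨0,[(13,0),(0,0)]⟩⟩]⟩) (.Q [0,-1,0,2,0,0,-1,-1,0,0,-1] (.p false [0,0,1] [] (⟨0,[(17,0)]⟩,⟨0,[(16,
  0)]⟩) .k 0 (⟨0,[]⟩,⟨0,[]⟩) .k .k) (.I [0,0,2,2,-1,0,0,-1] (.I [1,0,-1,-2,1,0,0,1] (.R ⟨1,true,
  false,false,[0,0,1],[0,1],[1,0,0,-1,0,0,0,1],(⟨0,[(20,0)]⟩,⟨0,[(19,0)]⟩),(⟨0,[(26,0)]⟩,⟨0,[(25,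
  0)]⟩),⟨0,[(9,0)]⟩,.k,.k,.k,.k,(.r (-2) ⟨1,[(0,1),(9,0),(0,0),(25,0)]⟩ ⟨0,[(1,0)]⟩),.k,⟨true,1,⟨0,
  [(0,0)]⟩,⟨0,[(1,0)]⟩⟩,⟨false,1,⟨5,[(7,0),(6,3),(17,0),(4,3)]⟩,⟨0,[(17,0)]⟩⟩,⟨false,1,⟨9,[(5,4),(4,
  2),(0,2),(20,0),(5,4)]⟩,⟨0,[(36,0)]⟩⟩,⟨true,0,⟨1,[(2,0),(13,0)]⟩,⟨0,[(4,0)]⟩⟩,⟨true,0,⟨0,[]⟩,⟨0,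
  [(40,0)]⟩⟩,⟨false,0,⟨0,[(2,0)]⟩,⟨0,[(0,0),(16,0)]⟩⟩,[]⟩) (.R ⟨1,true,false,false,[0,0,1],[0,1],[0,
  0,0,0,0,0,0,1],(⟨0,[(20,0)]⟩,⟨0,[(19,0)]⟩),(⟨0,[(26,0)]⟩,⟨0,[(25,0)]⟩),⟨0,[(9,0)]⟩,.k,.k,.k,.k,
  (.r (-2) ⟨9,[(4,9),(0,4),(1,4),(2,0),(0,0),(20,1),(4,9),(0,4)]⟩ ⟨0,[(1,0)]⟩),.k,⟨true,1,⟨5,[(4,5),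
  (2,0),(6,3),(17,0),(4,0),(0,2)]⟩,⟨9,[(0,3),(0,5),(3,4),(22,1),(1,3),(1,0)]⟩⟩,⟨false,1,⟨5,[(7,0),
  (6,3),(17,0),(4,3)]⟩,⟨0,[(17,0)]⟩⟩,⟨false,1,⟨1,[(10,0),(0,0),(26,0)]⟩,⟨0,[]⟩⟩,⟨true,0,⟨1,[(2,0),
  (13,0)]⟩,⟨0,[(4,0)]⟩⟩,⟨true,0,⟨0,[(36,0)]⟩,⟨0,[(35,0)]⟩⟩,⟨false,0,⟨0,[(2,0)]⟩,⟨9,[(4,9),(0,4),(4,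
  2),(0,2),(20,0),(5,4)]⟩⟩,[]⟩)) (.N [0,-2,1] (-1) ⟨0,[(0,0)]⟩ ⟨0,[(1,0),(14,0),(10,0),(1,0)]⟩ (.x
  0 ⟨9,[(16,10),(0,0),(0,9),(3,19),(4,3),(1,7),(1,1)]⟩ ⟨3,[(0,0),(0,0),(5,1),(0,5),(4,2),(16,0),(0,
  0),(4,0)]⟩))) (.I [0,0,-3,-3,2] (.Q [0,0,0,3,0,0,0,0,0,-1] (.pp true [-1,1]) (.R ⟨1,true,false,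
  false,[1,-1],[0,1],[0,1,-1,-1],(⟨0,[(25,0)]⟩,⟨0,[(26,0)]⟩),(⟨0,[(26,0)]⟩,⟨0,[(25,0)]⟩),⟨0,[(8,0),
  (0,0)]⟩,.k,.k,(.r (-2) ⟨2,[(1,1),(8,1),(0,1)]⟩ ⟨2,[(0,1),(22,1),(1,1),(2,2),(1,5)]⟩),(.r (-2) ⟨2,
  [(1,1),(8,1),(0,1)]⟩ ⟨2,[(0,1),(22,1),(1,1),(2,2),(1,5)]⟩),(.r (-2) ⟨0,[(1,0)]⟩ ⟨1,[(0,1),(6,0),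
  (9,1),(5,0),(1,0),(2,1),(1,3)]⟩),.k,⟨true,1,⟨4,[(1,2),(26,0),(4,0),(1,0)]⟩,⟨2,[(0,1),(22,1),(1,1),
  (2,2),(1,8)]⟩⟩,⟨false,2,⟨0,[(0,0),(0,0)]⟩,⟨0,[(23,0),(1,0),(2,0),(1,1)]⟩⟩,⟨true,0,⟨0,[(40,0)]⟩,⟨0,
  []⟩⟩,⟨false,1,⟨29,[(0,19),(9,10),(0,10),(20,1),(5,14)]⟩,⟨0,[(5,0)]⟩⟩,⟨false,0,⟨0,[(36,0)]⟩,⟨27,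
  [(1,5),(3,4),(11,8),(0,8),(13,0),(5,13)]⟩⟩,⟨true,0,⟨0,[(0,0)]⟩,⟨0,[(5,0),(29,0)]⟩⟩,[]⟩) (.I [0,0,
  -1,0,0,0,0,1] (.Q [0,0,0,1,0,0,1,1,0,-1,1] (.p true [0,0,1] [1] (⟨0,[(21,0)]⟩,⟨0,[(20,0)]⟩) .k 1
  (⟨0,[]⟩,⟨0,[]⟩) .k .k) (.R ⟨2,true,false,false,[0,1],[1,0,-1],[1,1,1],(⟨0,[]⟩,⟨0,[]⟩),(⟨0,[(21,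
  0)]⟩,⟨0,[(22,0)]⟩),⟨0,[]⟩,.k,.k,.k,.k,.k,.k,⟨false,(-1),⟨0,[(1,0),(28,0),(1,0)]⟩,⟨9,[(5,9),(6,0),
  (0,0),(5,9),(14,1),(4,9),(0,4)]⟩⟩,⟨true,(-1),⟨0,[(1,0),(3,0),(24,0),(1,1)]⟩,⟨9,[(12,0),(0,0),(5,
  9),(14,1),(4,4)]⟩⟩,⟨true,0,⟨0,[(37,0)]⟩,⟨0,[(38,0)]⟩⟩,⟨false,1,⟨95,[(2,9),(0,21),(1,95),(13,32),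
  (0,32),(13,1),(5,47)]⟩,⟨0,[(0,0)]⟩⟩,⟨false,0,⟨0,[]⟩,⟨1,[(12,0),(0,0),(26,0)]⟩⟩,⟨true,0,⟨0,[(5,
  0)]⟩,⟨41,[(0,21),(3,10),(12,8),(12,7),(3,3),(7,5)]⟩⟩,[]⟩) (.I [1,0,1,1,0,0,0,-1] (.S ⟨1,0,[0,0,0,
  0,0,0,0,1],[0,0,1],[1,1,1],(⟨0,[(23,0)]⟩,⟨0,[(22,0)]⟩),⟨0,[(12,0)]⟩,.k,.k,⟨true,0,⟨0,[(0,0),(37,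
  0)]⟩,⟨0,[(2,0)]⟩⟩,⟨false,1,⟨1,[(13,0),(0,0),(26,0)]⟩,⟨0,[]⟩⟩,⟨false,0,⟨0,[(0,0)]⟩,⟨81,[(2,51),(1,
  9),(0,25),(4,14),(7,3),(16,2),(5,55)]⟩⟩,⟨true,0,⟨0,[(39,0)]⟩,⟨0,[(38,0)]⟩⟩,[.e ⟨false,0,⟨0,[(43,
  0)]⟩,⟨1,[(40,0),(0,0)]⟩⟩ ⟨false,0,⟨0,[(2,0)]⟩,⟨2,[(0,2),(3,0),(8,0),(0,0)]⟩⟩,.o ⟨false,1,⟨4,[(2,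
  3),(15,0),(1,3),(14,0),(5,2)]⟩,⟨0,[(19,0)]⟩⟩,.o ⟨false,1,⟨39,[(0,5),(3,1),(13,5),(1,33),(14,7),(4,
  16),(0,2)]⟩,⟨8,[(2,2),(7,0),(6,3),(1,2),(11,1),(1,6),(1,0)]⟩⟩,.a ⟨true,0,⟨0,[(20,0)]⟩,⟨0,[(17,
  0)]⟩⟩ ⟨false,0,⟨0,[]⟩,⟨1,[(13,0),(0,0),(26,0)]⟩⟩ ⟨true,0,⟨0,[(2,0)]⟩,⟨0,[(0,0),(37,0)]⟩⟩]⟩) (.Q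
  [-1,0,0,1,0,0,0,0,-1,0,0,-1] (.p false [0,0,0,0,1] [] (⟨0,[(16,0)]⟩,⟨0,[(15,0)]⟩) .k 0 (⟨0,[]⟩,⟨0,
  []⟩) .k .k) (.R ⟨2,true,false,true,[0,1],[0,0,0,0,1],[2,1],(⟨0,[]⟩,⟨0,[]⟩),(⟨0,[(17,0)]⟩,⟨0,[(16,
  0)]⟩),⟨0,[]⟩,.k,.k,.k,(.r 0 ⟨1,[(21,0),(0,0),(17,1)]⟩ ⟨2,[(5,0),(8,0),(0,0)]⟩),.k,.k,⟨true,0,⟨0,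
  []⟩,⟨1,[(21,0),(0,0)]⟩⟩,⟨false,0,⟨0,[(15,0)]⟩,⟨4,[(0,2),(4,0),(8,1),(26,0)]⟩⟩,⟨false,1,⟨2,[(5,0),
  (8,0),(0,0)]⟩,⟨0,[(25,0),(12,0)]⟩⟩,⟨true,0,⟨0,[(15,0),(23,0)]⟩,⟨0,[(0,0)]⟩⟩,⟨true,0,⟨0,[(35,0)]⟩,
  ⟨0,[(43,0)]⟩⟩,⟨false,0,⟨0,[(15,0)]⟩,⟨25,[(0,14),(3,4),(9,10),(21,0),(5,12)]⟩⟩,[]⟩) (.Q [0,0,0,2,0,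
  0,1,1,0,-1,1] (.p true [0,0,1] [1] (⟨0,[(24,0)]⟩,⟨0,[(23,0)]⟩) .k 1 (⟨0,[]⟩,⟨0,[]⟩) .k .k) (.I [0,
  0,-2,-2,2,0,0,-1] (.R ⟨1,true,false,false,[1,0,-1],[0,1],[0,1,0,0,0,0,0,-1],(⟨0,[(25,0)]⟩,⟨0,[(26,
  0)]⟩),(⟨0,[(32,0)]⟩,⟨0,[(31,0)]⟩),⟨0,[(14,0)]⟩,.k,.k,.k,.k,(.r (-2) ⟨0,[(0,0)]⟩ ⟨1,[(1,1),(11,0),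
  (15,0),(1,0),(2,1),(1,3)]⟩),.k,⟨true,1,⟨5,[(0,3),(0,0),(7,0),(12,1),(0,1),(10,1)]⟩,⟨1,[(1,0),(3,
  0),(14,0),(13,1),(1,5)]⟩⟩,⟨false,2,⟨0,[(0,0),(0,0)]⟩,⟨4,[(3,0),(0,0),(15,3),(6,1),(6,4),(1,9)]⟩⟩,
  ⟨true,0,⟨0,[(46,0)]⟩,⟨0,[]⟩⟩,⟨false,1,⟨19,[(1,9),(14,0),(0,0),(3,9),(16,1),(5,14)]⟩,⟨0,[(4,0)]⟩⟩,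
  ⟨false,0,⟨0,[(42,0)]⟩,⟨117,[(0,21),(5,9),(1,21),(14,10),(0,32),(13,1),(5,69)]⟩⟩,⟨true,0,⟨0,[(1,
  0)]⟩,⟨0,[(4,0),(36,0)]⟩⟩,[]⟩) (.R ⟨1,true,false,false,[1,0,-1],[0,1],[0,1,0,0,0,0,0,-1],(⟨0,[(25,
  0)]⟩,⟨0,[(26,0)]⟩),(⟨0,[(32,0)]⟩,⟨0,[(31,0)]⟩),⟨0,[(14,0)]⟩,.k,.k,.k,.k,(.x 1 ⟨17,[(0,10),(3,3),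
  (1,5),(15,6),(1,6),(1,17),(2,35),(6,6),(1,1)]⟩ ⟨3,[(14,4),(0,0),(7,3),(4,1),(9,0),(4,5)]⟩),.k,
  ⟨true,1,⟨7,[(4,4),(2,0),(14,2),(0,7),(13,4),(0,0),(4,3)]⟩,⟨3,[(0,2),(7,0),(15,0),(11,0),(7,1)]⟩⟩,
  ⟨false,2,⟨9,[(16,0),(0,0),(5,9),(14,1),(4,14)]⟩,⟨3,[(0,1),(3,0),(1,0),(2,0),(3,0)]⟩⟩,⟨true,0,⟨0,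
  [(46,0)]⟩,⟨0,[]⟩⟩,⟨false,1,⟨19,[(1,9),(14,0),(0,0),(3,9),(16,1),(5,14)]⟩,⟨0,[(4,0)]⟩⟩,⟨false,0,⟨0,
  [(42,0)]⟩,⟨25,[(2,10),(3,4),(9,10),(21,0),(5,12)]⟩⟩,⟨true,0,⟨0,[(1,0)]⟩,⟨0,[(4,0),(36,0)]⟩⟩,[]⟩))
  (.Q [0,0,0,2,0,0,-1,-1,0,0,-1] (.p false [0,0,1] [] (⟨0,[(25,0)]⟩,⟨0,[(24,0)]⟩) .k 0 (⟨0,[]⟩,⟨0,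
  []⟩) .k .k) (.R ⟨1,true,false,false,[0,0,1],[0,1],[1,1,0,-1,0,0,0,1],(⟨0,[(26,0)]⟩,⟨0,[(25,0)]⟩),
  (⟨0,[(32,0)]⟩,⟨0,[(31,0)]⟩),⟨0,[(15,0)]⟩,.k,.k,.k,.k,(.r (-1) ⟨40,[(3,30),(3,16),(5,4),(7,9),(16,
  0),(5,4)]⟩ ⟨1,[(0,1),(22,2),(0,0)]⟩),.k,⟨true,0,⟨17,[(3,11),(2,1),(0,1),(0,5),(4,2),(20,5),(3,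
  0)]⟩,⟨0,[(0,0),(22,0),(12,0)]⟩⟩,⟨false,1,⟨5,[(13,0),(6,3),(17,0),(4,3)]⟩,⟨0,[(23,0)]⟩⟩,⟨true,0,⟨0,
  [(41,0)]⟩,⟨0,[(42,0)]⟩⟩,⟨false,1,⟨9,[(0,4),(8,4),(6,2),(0,2),(20,0),(5,4)]⟩,⟨0,[(3,0),(19,0)]⟩⟩,
  ⟨false,0,⟨0,[]⟩,⟨1,[(16,0),(0,0),(26,0)]⟩⟩,⟨true,0,⟨0,[(0,0)]⟩,⟨0,[(8,0)]⟩⟩,[]⟩) (.Q [0,0,0,0,0,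
  -1,0,0,0,0,0,1] (.ed false [1,-1,0,0,1] .k) (.Q [-1,0,0,0,0,0,0,0,-1,1,0,-1] (.p false [0,0,0,0,
  1] [1] (⟨0,[(20,0)]⟩,⟨0,[(19,0)]⟩) .k 1 (⟨0,[]⟩,⟨0,[]⟩) .k .k) (.S ⟨1,0,[1,1],[0,0,0,0,1],[],(⟨0,
  [(21,0)]⟩,⟨0,[(20,0)]⟩),⟨0,[(1,0)]⟩,.k,(.r (-1) ⟨2,[(9,0),(8,0),(0,0)]⟩ ⟨1,[(25,0),(0,0),(17,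
  1)]⟩),⟨false,1,⟨4,[(18,1),(0,1),(26,2),(1,0)]⟩,⟨0,[]⟩⟩,⟨true,0,⟨0,[(48,0)]⟩,⟨0,[]⟩⟩,⟨true,0,⟨0,
  [(29,0)]⟩,⟨0,[(43,0)]⟩⟩,⟨false,0,⟨0,[(44,0)]⟩,⟨25,[(4,10),(3,4),(9,10),(21,0),(5,12)]⟩⟩,[.o
  ⟨false,0,⟨4,[(19,4),(16,1),(3,0),(7,0)]⟩,⟨5,[(0,4),(17,0),(21,0),(5,2)]⟩⟩,.a ⟨true,0,⟨0,[(19,0)]⟩,
  ⟨0,[(0,0)]⟩⟩ ⟨false,1,⟨1,[(45,0),(0,0)]⟩,⟨0,[(48,0)]⟩⟩ ⟨true,0,⟨0,[]⟩,⟨1,[(25,0),(0,0)]⟩⟩,.e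
  ⟨false,1,⟨1,[(18,0),(0,0),(26,0)]⟩,⟨0,[]⟩⟩ ⟨false,0,⟨0,[]⟩,⟨1,[(18,0),(0,0),(26,0)]⟩⟩,.o ⟨false,0,
  ⟨4,[(4,0),(14,3),(9,0),(6,1),(1,3),(1,0),(6,0)]⟩,⟨5,[(0,4),(17,0),(21,0),(4,2)]⟩⟩]⟩) (.Q [1,1,0,
  -2,-1,0,0,0,1,0,0,1] (.p true [0,0,0,0,1] [] (⟨0,[(21,0)]⟩,⟨0,[(20,0)]⟩) .k 0 (⟨0,[]⟩,⟨0,[]⟩) .k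
  .k) (.R ⟨1,false,false,false,[0,0,0,0,1],[0,1],[],(⟨0,[(22,0)]⟩,⟨0,[(21,0)]⟩),(⟨0,[(35,0)]⟩,⟨0,
  [(34,0)]⟩),⟨0,[(2,0)]⟩,.k,.k,(.r (-1) ⟨2,[(10,0),(8,0),(0,0)]⟩ ⟨1,[(26,0),(0,0),(17,1)]⟩),(.r
  (-1) ⟨2,[(10,0),(8,0),(0,0)]⟩ ⟨1,[(26,0),(0,0),(17,1)]⟩),(.r (-2) ⟨2,[(10,1),(8,1),(0,1)]⟩ ⟨0,
  [(30,1),(6,0),(5,1)]⟩),.k,⟨true,1,⟨2,[(10,0),(8,0),(0,0)]⟩,⟨0,[(37,0),(1,1),(5,0)]⟩⟩,⟨false,2,⟨0,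
  [(19,0),(26,0)]⟩,⟨0,[(0,0),(38,0),(5,1)]⟩⟩,⟨false,1,⟨4,[(19,1),(0,1),(26,2),(1,0)]⟩,⟨0,[]⟩⟩,⟨true,
  1,⟨0,[(19,0),(25,0)]⟩,⟨0,[(0,0),(44,0)]⟩⟩,⟨true,0,⟨0,[(30,0)]⟩,⟨0,[(44,0)]⟩⟩,⟨true,1,⟨0,[(19,0),
  (25,1)]⟩,⟨0,[(0,0)]⟩⟩,[.a ⟨true,0,⟨0,[(45,0)]⟩,⟨0,[(15,0)]⟩⟩ ⟨false,1,⟨1,[(19,0),(0,0),(25,0)]⟩,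
  ⟨0,[]⟩⟩ ⟨true,1,⟨0,[(19,0),(25,0)]⟩,⟨0,[(0,0),(38,0),(5,0)]⟩⟩,.o ⟨false,1,⟨9,[(19,0),(0,0),(20,1),
  (3,9),(1,4)]⟩,⟨0,[(44,0)]⟩⟩,.o ⟨false,0,⟨17,[(0,3),(0,12),(18,0),(9,7),(10,0),(5,1)]⟩,⟨0,[(19,
  0)]⟩⟩,.e ⟨false,1,⟨1,[(46,0),(0,0)]⟩,⟨1,[(26,0),(0,0)]⟩⟩ ⟨false,2,⟨1,[(19,1),(25,1),(0,0),(0,0)]⟩,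
  ⟨0,[(0,0),(38,0),(5,0)]⟩⟩]⟩) (.Q [-1,-1,0,0,1,0,0,0,-1,0,0,-1] (.p false [0,0,0,0,1] [] (⟨0,[(22,
  0)]⟩,⟨0,[(21,0)]⟩) .k 0 (⟨0,[]⟩,⟨0,[]⟩) .k .k) (.R ⟨1,false,false,true,[1,0,-1],[0,0,0,0,1],[1,1,
  0,-1,0,0,0,-1],(⟨0,[(29,0)]⟩,⟨0,[(30,0)]⟩),(⟨0,[(23,0)]⟩,⟨0,[(22,0)]⟩),⟨0,[(18,0)]⟩,.k,.k,.k,.k,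
  (.r (-2) ⟨27,[(1,12),(9,17),(1,14),(7,12),(4,12),(0,27),(14,2),(4,0)]⟩ ⟨0,[(9,0),(28,0),(1,1),(5,
  0)]⟩),.k,⟨true,1,⟨4,[(5,0),(5,0),(1,3),(13,4),(14,0),(4,0)]⟩,⟨0,[(9,0),(28,0),(1,1),(5,0)]⟩⟩,
  ⟨false,1,⟨0,[(2,0),(24,0),(19,0)]⟩,⟨0,[(0,0),(23,0),(13,0),(1,0)]⟩⟩,⟨true,0,⟨0,[(45,0)]⟩,⟨0,[(46,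
  0)]⟩⟩,⟨false,0,⟨0,[(2,0),(6,0),(17,0)]⟩,⟨0,[(0,0),(12,0)]⟩⟩,⟨false,0,⟨0,[]⟩,⟨1,[(20,0),(0,0),(26,
  0)]⟩⟩,⟨false,0,⟨0,[(2,0),(6,0),(17,0),(18,0)]⟩,⟨1,[(0,1),(4,0),(7,0)]⟩⟩,[.o ⟨false,0,⟨4,[(21,4),
  (16,1),(3,0),(7,0)]⟩,⟨0,[(0,0)]⟩⟩,.o ⟨false,0,⟨0,[(2,0)]⟩,⟨2,[(0,0),(19,1),(29,0)]⟩⟩,.o ⟨false,0,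
  ⟨41,[(5,2),(1,2),(9,6),(6,24),(6,8),(6,13),(1,27),(1,6)]⟩,⟨64,[(1,5),(9,3),(9,5),(5,64),(14,12),
  (0,2),(3,24)]⟩⟩,.a ⟨true,(-1),⟨6,[(5,0),(1,0),(16,5),(6,2),(6,6),(1,13)]⟩,⟨0,[(27,0),(19,0)]⟩⟩
  ⟨true,1,⟨12,[(5,4),(5,0),(14,7),(0,12),(13,4),(0,0),(4,8)]⟩,⟨0,[(9,0),(28,0),(1,1),(5,0)]⟩⟩
  ⟨false,1,⟨0,[(2,0),(24,0),(19,0)]⟩,⟨6,[(0,6),(4,0),(1,0),(16,5),(6,2),(6,6),(1,13)]⟩⟩]⟩) (.Q [0,0,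
  1,0,-1,0,0,0,1,0,0,1] (.p true [0,0,0,0,1] [] (⟨0,[(23,0)]⟩,⟨0,[(22,0)]⟩) .k 0 (⟨0,[]⟩,⟨0,[]⟩) .k
  .k) (.S ⟨1,0,[1,1],[0,0,0,0,1],[1,1,1],(⟨0,[(24,0)]⟩,⟨0,[(23,0)]⟩),⟨0,[(4,0)]⟩,.k,(.r (-1) ⟨2,
  [(12,0),(8,0),(0,0)]⟩ ⟨5,[(0,1),(0,0),(0,2),(25,1),(0,1),(21,1)]⟩),⟨false,0,⟨1,[(28,0),(0,0)]⟩,⟨1,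
  [(48,0),(0,0)]⟩⟩,⟨true,0,⟨0,[(51,0)]⟩,⟨0,[]⟩⟩,⟨true,(-1),⟨2,[(0,0),(1,0),(29,0),(6,2),(1,1)]⟩,⟨2,
  [(12,0),(8,0),(0,0)]⟩⟩,⟨false,0,⟨0,[(47,0)]⟩,⟨25,[(7,10),(3,4),(9,10),(21,0),(5,12)]⟩⟩,[.e ⟨false,
  0,⟨0,[(51,0)]⟩,⟨1,[(48,0),(0,0)]⟩⟩ ⟨false,0,⟨0,[(42,0)]⟩,⟨1,[(21,0),(0,0),(26,0)]⟩⟩,.o ⟨false,0,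
  ⟨0,[(3,0)]⟩,⟨22,[(2,14),(8,9),(9,7),(17,3),(3,1),(7,6)]⟩⟩,.o ⟨false,0,⟨11,[(0,4),(2,6),(8,0),(19,
  2),(10,0),(4,0)]⟩,⟨0,[(21,0)]⟩⟩,.a ⟨true,(-1),⟨0,[(0,0)]⟩,⟨0,[(2,0),(13,0),(25,0)]⟩⟩ ⟨false,0,⟨0,
  []⟩,⟨1,[(21,0),(0,0),(26,0)]⟩⟩ ⟨true,0,⟨0,[(42,0)]⟩,⟨1,[(28,0),(0,0)]⟩⟩]⟩) (.R ⟨2,true,false,true,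
  [0,1],[0,0,0,0,1],[1,1,1],(⟨0,[]⟩,⟨0,[]⟩),(⟨0,[(24,0)]⟩,⟨0,[(23,0)]⟩),⟨0,[]⟩,.k,.k,.k,(.r 0 ⟨3,
  [(1,1),(0,1),(25,0),(0,0),(20,1)]⟩ ⟨2,[(12,0),(8,0),(0,0)]⟩),.k,.k,⟨true,0,⟨1,[(28,0),(0,0)]⟩,⟨0,
  []⟩⟩,⟨false,0,⟨0,[(22,0)]⟩,⟨0,[(0,0)]⟩⟩,⟨true,0,⟨0,[(46,0)]⟩,⟨0,[(47,0)]⟩⟩,⟨false,0,⟨0,[(7,0)]⟩,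
  ⟨2,[(0,1),(1,0),(29,0),(8,1)]⟩⟩,⟨false,0,⟨0,[]⟩,⟨1,[(21,0),(0,0),(26,0)]⟩⟩,⟨true,(-1),⟨0,[(1,0)]⟩,
  ⟨1,[(0,0),(20,0),(28,0)]⟩⟩,[]⟩))))) (.Q [0,0,-1,1,1,0,0,0,-1,0,0,-1] (.p false [0,0,0,0,1] [] (⟨0,
  [(20,0)]⟩,⟨0,[(19,0)]⟩) .k 0 (⟨0,[]⟩,⟨0,[]⟩) .k .k) (.Q [-1,0,0,2,0,0,0,0,-1,0,0,-1] (.p false [0,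
  0,0,0,1] [] (⟨0,[(21,0)]⟩,⟨0,[(20,0)]⟩) .k 0 (⟨0,[]⟩,⟨0,[]⟩) .k .k) (.R ⟨1,true,false,false,[1,
  -1],[1,0,0,0,-1],[0,1,-1,-1],(⟨0,[(34,0)]⟩,⟨0,[(35,0)]⟩),(⟨0,[(21,0)]⟩,⟨0,[(22,0)]⟩),⟨0,[(17,0),
  (0,0)]⟩,.k,.k,(.r (-2) ⟨2,[(10,1),(8,1),(0,1)]⟩ ⟨0,[(0,0),(19,0),(16,0),(1,1)]⟩),(.r (-1) ⟨2,[(10,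
  0),(8,0),(0,0)]⟩ ⟨5,[(0,1),(19,1),(5,2),(0,2),(2,1)]⟩),(.r (-2) ⟨2,[(10,1),(8,1),(0,1)]⟩ ⟨2,[(0,
  1),(19,1),(9,1),(6,2),(1,5)]⟩),.k,⟨false,1,⟨11,[(10,3),(8,0),(0,0),(21,5),(3,2)]⟩,⟨1,[(0,0),(19,
  0),(18,1)]⟩⟩,⟨true,1,⟨32,[(0,23),(8,4),(0,10),(8,8),(21,0)]⟩,⟨0,[(5,0),(24,0),(6,0),(1,1)]⟩⟩,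
  ⟨true,0,⟨0,[(49,0)]⟩,⟨0,[]⟩⟩,⟨false,1,⟨1,[(0,0),(18,0),(27,0)]⟩,⟨0,[(5,0)]⟩⟩,⟨false,0,⟨0,[(45,
  0)]⟩,⟨25,[(5,10),(3,4),(9,10),(21,0),(5,12)]⟩⟩,⟨true,0,⟨0,[(0,0)]⟩,⟨0,[(5,0),(38,0)]⟩⟩,[]⟩) (.Q
  [0,0,0,0,0,0,0,0,-1,1,0,-1] (.p false [0,0,0,0,1] [1] (⟨0,[(22,0)]⟩,⟨0,[(21,0)]⟩) .k 1 (⟨0,[]⟩,⟨0,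
  []⟩) .k .k) (.R ⟨0,false,false,true,[0,0,0,0,1],[0,1],[1,1,1],(⟨0,[(23,0)]⟩,⟨0,[(22,0)]⟩),(⟨0,
  [(36,0)]⟩,⟨0,[(35,0)]⟩),⟨0,[(3,0)]⟩,.k,.k,(.r (-1) ⟨2,[(11,0),(8,0),(0,0)]⟩ ⟨1,[(27,0),(0,0),(17,
  1)]⟩),(.r (-1) ⟨2,[(11,0),(8,0),(0,0)]⟩ ⟨1,[(27,0),(0,0),(17,1)]⟩),.k,.k,⟨false,1,⟨2,[(11,0),(8,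
  0),(0,0)]⟩,⟨0,[(46,0)]⟩⟩,⟨true,1,⟨7,[(0,4),(1,2),(8,0),(30,0),(4,0)]⟩,⟨2,[(1,0),(19,1),(9,1),(6,
  2),(1,5)]⟩⟩,⟨false,0,⟨1,[(27,0),(0,0)]⟩,⟨1,[(47,0),(0,0)]⟩⟩,⟨true,0,⟨5,[(0,4),(19,0),(10,3),(6,2),
  (3,0),(3,1)]⟩,⟨0,[(6,0)]⟩⟩,⟨false,0,⟨0,[]⟩,⟨0,[]⟩⟩,⟨false,0,⟨0,[]⟩,⟨0,[]⟩⟩,[.o ⟨false,0,⟨4,[(38,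
  1),(3,0),(3,4),(3,0)]⟩,⟨1,[(1,0),(18,0),(27,0)]⟩⟩,.e ⟨false,0,⟨0,[]⟩,⟨1,[(20,0),(0,0),(25,0)]⟩⟩
  ⟨false,1,⟨0,[(2,0)]⟩,⟨2,[(1,1),(19,0),(9,0)]⟩⟩,.a ⟨true,0,⟨0,[(21,0)]⟩,⟨0,[(0,0)]⟩⟩ ⟨false,0,⟨1,
  [(27,0),(0,0)]⟩,⟨1,[(47,0),(0,0)]⟩⟩ ⟨true,0,⟨5,[(0,4),(19,0),(17,2),(3,0),(3,5)]⟩,⟨2,[(1,1),(19,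
  0),(9,0)]⟩⟩,.o ⟨false,0,⟨14,[(1,0),(19,13),(9,1),(6,5),(1,11),(1,2),(6,2)]⟩,⟨7,[(0,4),(1,2),(8,0),
  (30,0),(4,0)]⟩⟩]⟩) (.Q [-1,-1,-2,0,2,0,0,0,-1,0,0,-1] (.p false [0,0,0,0,1] [] (⟨0,[(23,0)]⟩,⟨0,
  [(22,0)]⟩) .k 0 (⟨0,[]⟩,⟨0,[]⟩) .k .k) (.R ⟨0,false,false,false,[0,0,0,0,1],[0,1],[0,1],(⟨0,[(24,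
  0)]⟩,⟨0,[(23,0)]⟩),(⟨0,[(37,0)]⟩,⟨0,[(36,0)]⟩),⟨0,[(4,0)]⟩,.k,.k,(.r (-1) ⟨2,[(12,0),(8,0),(0,
  0)]⟩ ⟨1,[(28,0),(0,0),(17,1)]⟩),(.r (-1) ⟨2,[(12,0),(8,0),(0,0)]⟩ ⟨1,[(28,0),(0,0),(17,1)]⟩),.k,
  .k,⟨false,1,⟨8,[(0,0),(11,2),(9,0),(21,4),(3,0)]⟩,⟨0,[(41,0),(5,0)]⟩⟩,⟨true,1,⟨0,[(0,0),(38,0),(1,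
  0)]⟩,⟨5,[(1,0),(9,0),(10,4),(9,2),(6,5),(1,11)]⟩⟩,⟨true,0,⟨0,[(51,0)]⟩,⟨0,[]⟩⟩,⟨false,1,⟨1,[(0,0),
  (2,0),(28,0),(6,0),(1,2)]⟩,⟨0,[(7,0)]⟩⟩,⟨false,0,⟨0,[]⟩,⟨0,[]⟩⟩,⟨false,0,⟨0,[]⟩,⟨0,[]⟩⟩,[.a ⟨true,
  0,⟨0,[(47,0)]⟩,⟨0,[(17,0)]⟩⟩ ⟨true,0,⟨0,[(51,0)]⟩,⟨0,[(45,0)]⟩⟩ ⟨false,1,⟨0,[(3,0)]⟩,⟨2,[(1,0),(9,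
  0),(10,1)]⟩⟩,.o ⟨false,1,⟨9,[(21,0),(0,0),(20,1),(3,9),(1,4)]⟩,⟨0,[(46,0)]⟩⟩,.o ⟨false,0,⟨0,[(1,
  0)]⟩,⟨0,[(21,0)]⟩⟩,.o ⟨false,0,⟨1,[(1,1),(26,0),(0,0)]⟩,⟨0,[(0,0),(38,0),(1,0)]⟩⟩]⟩) (.Q [-1,-1,0,
  1,1,0,0,0,-1,0,0,-1] (.p false [0,0,0,0,1] [] (⟨0,[(24,0)]⟩,⟨0,[(23,0)]⟩) .k 0 (⟨0,[]⟩,⟨0,[]⟩) .k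
  .k) (.R ⟨2,true,false,true,[0,1],[0,0,0,0,1],[2,1,1],(⟨0,[]⟩,⟨0,[]⟩),(⟨0,[(25,0)]⟩,⟨0,[(24,0)]⟩),
  ⟨0,[]⟩,.k,.k,.k,(.r 0 ⟨1,[(29,0),(0,0),(17,1)]⟩ ⟨2,[(13,0),(8,0),(0,0)]⟩),.k,.k,⟨false,0,⟨0,[]⟩,
  ⟨1,[(22,0),(0,0),(25,0)]⟩⟩,⟨true,(-1),⟨1,[(1,1),(47,0),(0,0)]⟩,⟨0,[(22,0)]⟩⟩,⟨true,0,⟨0,[(47,0)]⟩,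
  ⟨0,[(33,0)]⟩⟩,⟨false,0,⟨0,[(8,0)]⟩,⟨0,[(0,0)]⟩⟩,⟨false,0,⟨0,[]⟩,⟨4,[(22,1),(0,1),(26,2),(1,0)]⟩⟩,
  ⟨true,(-1),⟨0,[(1,0),(47,0)]⟩,⟨1,[(0,0),(21,0),(24,0)]⟩⟩,[]⟩) (.R ⟨1,true,false,false,[1,-1],[1,0,
  0,0,-1],[0,0,-1,-1],(⟨0,[(37,0)]⟩,⟨0,[(38,0)]⟩),(⟨0,[(24,0)]⟩,⟨0,[(25,0)]⟩),⟨0,[(20,0),(0,0)]⟩,.k,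
  .k,(.r (-2) ⟨2,[(13,1),(8,1),(0,1)]⟩ ⟨0,[(1,0),(2,0),(37,0),(5,0)]⟩),(.r (-1) ⟨2,[(13,0),(8,0),(0,
  0)]⟩ ⟨1,[(29,0),(0,0),(17,1)]⟩),(.r (-2) ⟨2,[(13,1),(8,1),(0,1)]⟩ ⟨0,[(1,0),(2,0),(28,0),(8,0)]⟩),
  .k,⟨true,1,⟨2,[(13,0),(8,0),(0,0)]⟩,⟨1,[(1,0),(2,0),(28,0),(6,0),(1,2)]⟩⟩,⟨false,2,⟨0,[(22,0),(26,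
  0)]⟩,⟨1,[(0,0),(0,0),(46,0),(1,0)]⟩⟩,⟨false,1,⟨1,[(22,0),(0,0),(26,0)]⟩,⟨0,[]⟩⟩,⟨true,1,⟨0,[(22,
  0),(25,0)]⟩,⟨0,[(0,0)]⟩⟩,⟨true,0,⟨0,[(48,0)]⟩,⟨0,[(47,0)]⟩⟩,⟨false,1,⟨0,[(4,0),(37,0),(5,0)]⟩,⟨0,
  [(3,0)]⟩⟩,[]⟩))))) (.R ⟨0,false,false,false,[0,0,0,0,1],[0,1],[],(⟨0,[(21,0)]⟩,⟨0,[(20,0)]⟩),(⟨0,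
  [(34,0)]⟩,⟨0,[(33,0)]⟩),⟨0,[(1,0)]⟩,.k,.k,(.r (-1) ⟨2,[(9,0),(8,0),(0,0)]⟩ ⟨1,[(25,0),(0,0),(17,
  1)]⟩),(.r (-1) ⟨2,[(9,0),(8,0),(0,0)]⟩ ⟨1,[(25,0),(0,0),(17,1)]⟩),.k,.k,⟨true,1,⟨2,[(9,0),(8,0),
  (0,0)]⟩,⟨0,[(36,0),(1,1),(5,0)]⟩⟩,⟨false,2,⟨0,[(18,0),(26,0)]⟩,⟨0,[(0,0),(43,0)]⟩⟩,⟨false,1,⟨4,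
  [(18,1),(0,1),(26,2),(1,0)]⟩,⟨0,[]⟩⟩,⟨true,1,⟨0,[(18,0),(25,0)]⟩,⟨0,[(0,0),(38,0)]⟩⟩,⟨false,0,⟨0,
  []⟩,⟨0,[]⟩⟩,⟨false,0,⟨0,[]⟩,⟨0,[]⟩⟩,[.a ⟨true,0,⟨0,[(44,0)]⟩,⟨0,[(14,0)]⟩⟩ ⟨false,1,⟨1,[(18,0),(0,
  0),(25,0)]⟩,⟨0,[]⟩⟩ ⟨true,1,⟨0,[(18,0),(25,0)]⟩,⟨0,[(0,0)]⟩⟩,.o ⟨false,1,⟨9,[(18,0),(0,0),(20,1),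
  (3,9),(1,4)]⟩,⟨0,[(43,0)]⟩⟩,.o ⟨false,0,⟨4,[(0,3),(18,0),(20,0),(3,3),(0,1)]⟩,⟨0,[(18,0)]⟩⟩,.e
  ⟨false,1,⟨1,[(45,0),(0,0)]⟩,⟨1,[(25,0),(0,0)]⟩⟩ ⟨false,2,⟨1,[(18,1),(25,1),(0,0),(0,0)]⟩,⟨0,[(0,
  0)]⟩⟩]⟩)))))))) (.I [1,1,-1,-1,0,0,0,1] (.Q [0,0,-1,0,0,0,0,0,1,-1,0,1] (.p true [0,0,0,0,1] [1]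
  (⟨0,[(15,0)]⟩,⟨0,[(14,0)]⟩) .k 1 (⟨0,[]⟩,⟨0,[]⟩) .k .k) (.Q [-1,0,0,0,1,0,0,0,-1,0,0,-1] (.p
  false [0,0,0,0,1] [] (⟨0,[(16,0)]⟩,⟨0,[(15,0)]⟩) .k 0 (⟨0,[]⟩,⟨0,[]⟩) .k .k) (.R ⟨1,false,false,
  false,[1,-1],[0,0,0,0,1],[1,1,-1,-2],(⟨0,[(29,0)]⟩,⟨0,[(30,0)]⟩),(⟨0,[(17,0)]⟩,⟨0,[(16,0)]⟩),⟨0,
  [(12,0),(0,0)]⟩,.k,.k,(.r (-2) ⟨2,[(5,1),(8,1),(0,1)]⟩ ⟨0,[(32,0),(1,1),(5,1)]⟩),(.r (-1) ⟨11,[(0,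
  2),(4,3),(9,2),(26,0),(1,1)]⟩ ⟨1,[(21,0),(0,0),(17,1)]⟩),(.r (-2) ⟨2,[(0,0),(4,1),(8,0),(0,1)]⟩
  ⟨0,[(32,0),(1,1),(5,1)]⟩),.k,⟨false,1,⟨41,[(4,4),(0,22),(26,5),(3,0),(0,14)]⟩,⟨0,[(34,0),(5,1)]⟩⟩,
  ⟨true,0,⟨0,[(1,0)]⟩,⟨0,[(14,0),(12,0),(1,0),(2,0),(1,1)]⟩⟩,⟨true,0,⟨0,[(39,0)]⟩,⟨0,[(40,0)]⟩⟩,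
  ⟨false,0,⟨0,[(1,0),(32,0),(5,0)]⟩,⟨0,[(0,0),(9,0)]⟩⟩,⟨false,0,⟨0,[]⟩,⟨1,[(14,0),(0,0),(26,0)]⟩⟩,
  ⟨false,0,⟨0,[(1,0),(32,0),(5,1)]⟩,⟨0,[(0,0),(8,0)]⟩⟩,[.o ⟨false,0,⟨8,[(1,3),(13,4),(16,1),(1,3),
  (1,0)]⟩,⟨0,[(0,0)]⟩⟩,.o ⟨false,0,⟨0,[(1,0),(32,0)]⟩,⟨0,[(14,0),(29,0)]⟩⟩,.o ⟨false,0,⟨1,[(21,0),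
  (0,0)]⟩,⟨9,[(14,0),(0,0),(20,1),(4,4)]⟩⟩,.a ⟨true,(-1),⟨0,[(27,0),(1,0),(2,0),(1,1)]⟩,⟨0,[(41,
  0)]⟩⟩ ⟨true,1,⟨41,[(4,4),(0,22),(26,5),(3,0),(0,14)]⟩,⟨0,[(32,0),(1,1),(5,1)]⟩⟩ ⟨false,1,⟨1,[(1,
  1),(39,0),(0,0)]⟩,⟨0,[(14,0),(12,0),(1,0),(2,0),(1,1)]⟩⟩]⟩) (.R ⟨2,true,false,true,[0,1],[0,0,0,0,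
  1],[1,1],(⟨0,[]⟩,⟨0,[]⟩),(⟨0,[(17,0)]⟩,⟨0,[(16,0)]⟩),⟨0,[]⟩,.k,.k,.k,(.r 0 ⟨1,[(21,0),(0,0),(17,
  1)]⟩ ⟨2,[(5,0),(8,0),(0,0)]⟩),.k,.k,⟨false,1,⟨1,[(14,0),(0,0),(25,0)]⟩,⟨0,[]⟩⟩,⟨true,(-1),⟨3,[(0,
  3),(20,0),(0,0),(20,1)]⟩,⟨0,[(14,0)]⟩⟩,⟨false,1,⟨2,[(5,0),(8,0),(0,0)]⟩,⟨0,[(34,0),(5,0)]⟩⟩,⟨true,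
  (-1),⟨35,[(0,24),(3,9),(10,10),(16,14),(3,1),(2,5)]⟩,⟨0,[(14,0),(25,0)]⟩⟩,⟨true,0,⟨0,[(35,0)]⟩,⟨1,
  [(21,0),(0,0)]⟩⟩,⟨false,(-1),⟨0,[(0,0)]⟩,⟨4,[(14,6),(0,1),(26,2),(1,0)]⟩⟩,[]⟩)) (.Q [-1,0,0,1,0,0,
  0,0,-1,0,0,-1] (.p false [0,0,0,0,1] [] (⟨0,[(16,0)]⟩,⟨0,[(15,0)]⟩) .k 0 (⟨0,[]⟩,⟨0,[]⟩) .k .k)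
  (.R ⟨2,true,false,true,[0,1],[0,0,0,0,1],[2,1],(⟨0,[]⟩,⟨0,[]⟩),(⟨0,[(17,0)]⟩,⟨0,[(16,0)]⟩),⟨0,[]⟩,
  .k,.k,.k,(.r 0 ⟨1,[(21,0),(0,0),(17,1)]⟩ ⟨2,[(5,0),(8,0),(0,0)]⟩),.k,.k,⟨true,0,⟨0,[]⟩,⟨1,[(21,0),
  (0,0)]⟩⟩,⟨false,0,⟨0,[(15,0)]⟩,⟨4,[(0,2),(4,0),(8,1),(26,0)]⟩⟩,⟨false,1,⟨2,[(5,0),(8,0),(0,0)]⟩,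
  ⟨0,[(25,0),(12,0)]⟩⟩,⟨true,0,⟨0,[(15,0),(23,0)]⟩,⟨0,[(0,0)]⟩⟩,⟨true,0,⟨0,[(35,0)]⟩,⟨0,[(43,0)]⟩⟩,
  ⟨false,0,⟨0,[(15,0)]⟩,⟨25,[(0,14),(3,4),(9,10),(21,0),(5,12)]⟩⟩,[]⟩) (.Q [-1,0,0,0,0,0,0,0,-1,1,0,
  -1] (.p false [0,0,0,0,1] [1] (⟨0,[(17,0)]⟩,⟨0,[(16,0)]⟩) .k 1 (⟨0,[]⟩,⟨0,[]⟩) .k .k) (.Q [0,0,0,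
  0,0,1,0,0,0,0,0,-1] (.ed true [1,-1,0,0,1] .k) (.Q [0,0,0,-1,0,0,0,0,1,0,0,1] (.p true [0,0,0,0,
  1] [] (⟨0,[(19,0)]⟩,⟨0,[(18,0)]⟩) .k 0 (⟨0,[]⟩,⟨0,[]⟩) .k .k) (.R ⟨0,false,false,true,[0,0,0,0,1],
  [0,1],[1,1,1],(⟨0,[(20,0)]⟩,⟨0,[(19,0)]⟩),(⟨0,[(33,0)]⟩,⟨0,[(32,0)]⟩),⟨0,[(1,0)]⟩,.k,.k,(.r (-1)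
  ⟨2,[(8,0),(8,0),(0,0)]⟩ ⟨1,[(24,0),(0,0),(17,1)]⟩),(.r (-1) ⟨2,[(8,0),(8,0),(0,0)]⟩ ⟨1,[(24,0),(0,
  0),(17,1)]⟩),.k,.k,⟨false,1,⟨2,[(8,0),(8,0),(0,0)]⟩,⟨0,[(43,0)]⟩⟩,⟨true,1,⟨5,[(2,4),(14,0),(21,0),
  (4,2)]⟩,⟨1,[(0,0),(17,0),(9,0),(6,1),(1,3)]⟩⟩,⟨false,0,⟨1,[(24,0),(0,0)]⟩,⟨1,[(44,0),(0,0)]⟩⟩,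
  ⟨true,0,⟨5,[(2,4),(14,0),(17,2),(3,0),(3,5)]⟩,⟨0,[(3,0)]⟩⟩,⟨false,0,⟨0,[]⟩,⟨0,[]⟩⟩,⟨false,0,⟨0,
  []⟩,⟨0,[]⟩⟩,[.o ⟨false,0,⟨4,[(35,1),(3,0),(3,4),(3,0)]⟩,⟨25,[(0,10),(6,4),(9,10),(21,0),(5,12)]⟩⟩,
  .e ⟨false,0,⟨0,[]⟩,⟨1,[(17,0),(0,0),(25,0)]⟩⟩ ⟨false,1,⟨5,[(2,4),(14,0),(21,0),(3,5),(0,2)]⟩,⟨0,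
  [(0,0)]⟩⟩,.a ⟨true,0,⟨0,[(18,0)]⟩,⟨0,[(2,0)]⟩⟩ ⟨false,0,⟨1,[(24,0),(0,0)]⟩,⟨1,[(44,0),(0,0)]⟩⟩
  ⟨true,0,⟨5,[(2,4),(14,0),(17,2),(3,0),(3,5)]⟩,⟨0,[(0,0)]⟩⟩,.o ⟨false,0,⟨9,[(0,0),(17,8),(9,0),(6,
  3),(1,7),(1,1),(6,1)]⟩,⟨5,[(2,4),(14,0),(21,0),(4,2)]⟩⟩]⟩) (.R ⟨0,false,false,true,[0,0,0,0,1],[0,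
  1],[1,1,1],(⟨0,[(20,0)]⟩,⟨0,[(19,0)]⟩),(⟨0,[(33,0)]⟩,⟨0,[(32,0)]⟩),⟨0,[(1,0)]⟩,.k,.k,(.r (-1) ⟨2,
  [(8,0),(8,0),(0,0)]⟩ ⟨1,[(24,0),(0,0),(17,1)]⟩),(.r (-1) ⟨2,[(8,0),(8,0),(0,0)]⟩ ⟨1,[(24,0),(0,0),
  (17,1)]⟩),.k,.k,⟨false,1,⟨2,[(8,0),(8,0),(0,0)]⟩,⟨0,[(43,0)]⟩⟩,⟨true,1,⟨4,[(0,2),(7,0),(8,1),(26,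
  0)]⟩,⟨0,[(3,0),(24,0),(6,0),(1,1)]⟩⟩,⟨false,0,⟨1,[(24,0),(0,0)]⟩,⟨1,[(44,0),(0,0)]⟩⟩,⟨true,0,⟨0,
  [(0,0),(46,0)]⟩,⟨0,[(3,0)]⟩⟩,⟨false,0,⟨0,[]⟩,⟨0,[]⟩⟩,⟨false,0,⟨0,[]⟩,⟨0,[]⟩⟩,[.o ⟨false,0,⟨4,[(35,
  1),(3,0),(3,4),(3,0)]⟩,⟨25,[(3,10),(3,4),(9,10),(21,0),(5,12)]⟩⟩,.a ⟨true,0,⟨0,[(43,0)]⟩,⟨0,[(13,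
  0)]⟩⟩ ⟨false,0,⟨0,[]⟩,⟨1,[(17,0),(0,0),(25,0)]⟩⟩ ⟨true,0,⟨0,[(0,0)]⟩,⟨3,[(3,3),(20,0),(0,0),(20,
  1)]⟩⟩,.e ⟨false,0,⟨1,[(24,0),(0,0)]⟩,⟨1,[(44,0),(0,0)]⟩⟩ ⟨false,0,⟨0,[(0,0)]⟩,⟨19,[(3,16),(4,0),
  (8,7),(0,10),(26,9),(0,2)]⟩⟩,.o ⟨false,0,⟨4,[(3,0),(14,3),(9,0),(6,1),(1,3),(1,0),(6,0)]⟩,⟨4,[(0,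
  2),(7,0),(8,1),(26,0)]⟩⟩]⟩)) (.S ⟨1,0,[1,1],[0,0,0,0,1],[],(⟨0,[(19,0)]⟩,⟨0,[(18,0)]⟩),⟨0,[(0,
  0)]⟩,.k,(.r (-1) ⟨2,[(7,0),(8,0),(0,0)]⟩ ⟨1,[(23,0),(0,0),(17,1)]⟩),⟨false,1,⟨4,[(16,1),(0,1),(26,
  2),(1,0)]⟩,⟨0,[]⟩⟩,⟨true,0,⟨0,[(46,0)]⟩,⟨0,[]⟩⟩,⟨true,0,⟨0,[(27,0)]⟩,⟨0,[(41,0)]⟩⟩,⟨false,0,⟨0,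
  [(42,0)]⟩,⟨25,[(2,10),(3,4),(9,10),(21,0),(5,12)]⟩⟩,[.o ⟨false,0,⟨4,[(17,4),(16,1),(3,0),(7,0)]⟩,
  ⟨5,[(1,4),(14,0),(21,0),(5,2)]⟩⟩,.a ⟨true,0,⟨0,[(17,0)]⟩,⟨0,[(1,0)]⟩⟩ ⟨false,1,⟨1,[(43,0),(0,0)]⟩,
  ⟨0,[(46,0)]⟩⟩ ⟨true,0,⟨0,[]⟩,⟨1,[(23,0),(0,0)]⟩⟩,.e ⟨false,1,⟨1,[(16,0),(0,0),(26,0)]⟩,⟨0,[]⟩⟩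
  ⟨false,0,⟨0,[]⟩,⟨1,[(16,0),(0,0),(26,0)]⟩⟩,.o ⟨false,0,⟨4,[(2,0),(14,3),(9,0),(6,1),(1,3),(1,0),
  (6,0)]⟩,⟨5,[(1,4),(14,0),(21,0),(4,2)]⟩⟩]⟩)) (.Q [1,1,0,0,-1,0,0,0,1,0,0,1] (.p true [0,0,0,0,1]
  [] (⟨0,[(18,0)]⟩,⟨0,[(17,0)]⟩) .k 0 (⟨0,[]⟩,⟨0,[]⟩) .k .k) (.Q [1,1,0,1,-1,0,0,0,1,-1,0,1] (.p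
  true [0,0,0,0,1] [1] (⟨0,[(19,0)]⟩,⟨0,[(18,0)]⟩) .k 1 (⟨0,[]⟩,⟨0,[]⟩) .k .k) (.R ⟨2,true,false,
  false,[0,1],[1,0,0,0,-1],[1,0,1],(⟨0,[]⟩,⟨0,[]⟩),(⟨0,[(19,0)]⟩,⟨0,[(20,0)]⟩),⟨0,[]⟩,.k,.k,.k,(.r
  0 ⟨1,[(24,0),(0,0),(17,1)]⟩ ⟨14,[(8,4),(8,2),(0,2),(26,1),(1,3)]⟩),.k,.k,⟨false,0,⟨0,[]⟩,⟨9,[(17,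
  3),(0,3),(25,4),(0,0),(1,1)]⟩⟩,⟨true,0,⟨0,[(4,0)]⟩,⟨99,[(0,47),(1,51),(4,4),(0,10),(30,0),(5,23),
  (0,32)]⟩⟩,⟨false,1,⟨25,[(3,10),(3,4),(9,10),(21,0),(5,12)]⟩,⟨0,[(43,0)]⟩⟩,⟨true,1,⟨5,[(4,2),(3,0),
  (4,2),(3,2),(27,0),(1,1)]⟩,⟨0,[(0,0)]⟩⟩,⟨true,0,⟨0,[]⟩,⟨0,[(47,0)]⟩⟩,⟨false,1,⟨1,[(4,1),(39,0),(0,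
  0)]⟩,⟨0,[(2,0)]⟩⟩,[]⟩) (.Q [0,0,1,0,-1,0,0,0,1,0,0,1] (.p true [0,0,0,0,1] [] (⟨0,[(20,0)]⟩,⟨0,
  [(19,0)]⟩) .k 0 (⟨0,[]⟩,⟨0,[]⟩) .k .k) (.Q [0,0,0,0,0,-1,0,0,0,0,0,1] (.ed false [1,-1,0,0,1] .k)
  (.S ⟨1,0,[1,1],[0,0,0,0,1],[1,1,1],(⟨0,[(22,0)]⟩,⟨0,[(21,0)]⟩),⟨0,[(0,0)]⟩,.k,(.r (-1) ⟨2,[(10,0),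
  (8,0),(0,0)]⟩ ⟨1,[(26,0),(0,0),(17,1)]⟩),⟨false,0,⟨1,[(26,0),(0,0)]⟩,⟨1,[(46,0),(0,0)]⟩⟩,⟨true,0,
  ⟨0,[(49,0)]⟩,⟨0,[]⟩⟩,⟨true,(-1),⟨0,[(30,0),(6,0),(5,0)]⟩,⟨2,[(10,0),(8,0),(0,0)]⟩⟩,⟨false,0,⟨0,
  [(45,0)]⟩,⟨8,[(2,4),(2,3),(14,0),(20,0),(5,1)]⟩⟩,[.e ⟨false,0,⟨0,[(49,0)]⟩,⟨1,[(46,0),(0,0)]⟩⟩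
  ⟨false,0,⟨0,[(40,0)]⟩,⟨1,[(19,0),(0,0),(26,0)]⟩⟩,.o ⟨false,0,⟨0,[(4,0)]⟩,⟨13,[(2,4),(16,8),(10,4),
  (6,1),(3,0),(7,0)]⟩⟩,.o ⟨false,0,⟨11,[(1,4),(2,6),(5,0),(19,2),(10,0),(4,0)]⟩,⟨0,[(19,0)]⟩⟩,.a
  ⟨true,(-1),⟨0,[(1,0)]⟩,⟨0,[(6,0),(39,0)]⟩⟩ ⟨false,0,⟨0,[]⟩,⟨1,[(19,0),(0,0),(26,0)]⟩⟩ ⟨true,0,⟨0,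
  [(40,0)]⟩,⟨1,[(26,0),(0,0)]⟩⟩]⟩) (.Q [0,0,1,-1,-1,0,0,0,1,0,0,1] (.p true [0,0,0,0,1] [] (⟨0,[(22,
  0)]⟩,⟨0,[(21,0)]⟩) .k 0 (⟨0,[]⟩,⟨0,[]⟩) .k .k) (.R ⟨0,false,false,false,[0,0,0,0,1],[0,1],[],(⟨0,
  [(23,0)]⟩,⟨0,[(22,0)]⟩),(⟨0,[(36,0)]⟩,⟨0,[(35,0)]⟩),⟨0,[(1,0)]⟩,.k,.k,(.r (-1) ⟨2,[(11,0),(8,0),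
  (0,0)]⟩ ⟨1,[(27,0),(0,0),(17,1)]⟩),(.r (-1) ⟨2,[(11,0),(8,0),(0,0)]⟩ ⟨1,[(27,0),(0,0),(17,1)]⟩),
  .k,.k,⟨true,1,⟨2,[(11,0),(8,0),(0,0)]⟩,⟨0,[(38,0),(1,1),(5,0)]⟩⟩,⟨false,2,⟨0,[(20,0),(26,0)]⟩,⟨0,
  [(2,0)]⟩⟩,⟨false,1,⟨4,[(20,1),(0,1),(26,2),(1,0)]⟩,⟨0,[]⟩⟩,⟨true,1,⟨0,[(20,0),(25,0)]⟩,⟨0,[(0,0),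
  (40,0)]⟩⟩,⟨false,0,⟨0,[]⟩,⟨0,[]⟩⟩,⟨false,0,⟨0,[]⟩,⟨0,[]⟩⟩,[.a ⟨true,0,⟨0,[(46,0)]⟩,⟨0,[(16,0)]⟩⟩
  ⟨false,1,⟨1,[(20,0),(0,0),(25,0)]⟩,⟨0,[]⟩⟩ ⟨true,1,⟨0,[(20,0),(25,0)]⟩,⟨0,[(0,0)]⟩⟩,.o ⟨false,1,
  ⟨9,[(20,0),(0,0),(20,1),(3,9),(1,4)]⟩,⟨0,[(45,0)]⟩⟩,.o ⟨false,0,⟨21,[(0,4),(4,16),(5,0),(19,7),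
  (10,0),(4,0)]⟩,⟨0,[(20,0)]⟩⟩,.e ⟨false,1,⟨1,[(47,0),(0,0)]⟩,⟨1,[(27,0),(0,0)]⟩⟩ ⟨false,2,⟨1,[(20,
  1),(25,1),(0,0),(0,0)]⟩,⟨0,[(0,0)]⟩⟩]⟩) (.Q [1,1,0,-1,-1,0,0,0,1,0,0,1] (.p true [0,0,0,0,1] []
  (⟨0,[(23,0)]⟩,⟨0,[(22,0)]⟩) .k 0 (⟨0,[]⟩,⟨0,[]⟩) .k .k) (.R ⟨1,true,false,false,[1,-1],[1,0,0,0,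
  -1],[0,0,-1,-1],(⟨0,[(36,0)]⟩,⟨0,[(37,0)]⟩),(⟨0,[(23,0)]⟩,⟨0,[(24,0)]⟩),⟨0,[(19,0),(0,0)]⟩,.k,.k,
  (.r (-2) ⟨2,[(12,1),(8,1),(0,1)]⟩ ⟨0,[(39,0),(1,1),(5,1)]⟩),(.r (-1) ⟨2,[(12,0),(8,0),(0,0)]⟩ ⟨1,
  [(28,0),(0,0),(17,1)]⟩),(.r (-2) ⟨2,[(12,1),(8,1),(0,1)]⟩ ⟨0,[(32,1),(6,0),(5,1)]⟩),.k,⟨true,1,⟨2,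
  [(12,0),(8,0),(0,0)]⟩,⟨0,[(32,0),(6,0),(5,1)]⟩⟩,⟨false,2,⟨2,[(1,2),(10,0),(8,0),(0,0)]⟩,⟨0,[(3,
  0)]⟩⟩,⟨false,1,⟨1,[(21,0),(0,0),(26,0)]⟩,⟨0,[]⟩⟩,⟨true,1,⟨0,[(21,0),(25,0)]⟩,⟨0,[(0,0)]⟩⟩,⟨true,0,
  ⟨0,[(47,0)]⟩,⟨0,[(46,0)]⟩⟩,⟨false,1,⟨0,[(1,0),(39,0),(5,0)]⟩,⟨1,[(6,0),(0,0),(3,0)]⟩⟩,[]⟩) (.R ⟨2,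
  true,false,true,[0,1],[0,0,0,0,1],[2,1,1],(⟨0,[]⟩,⟨0,[]⟩),(⟨0,[(24,0)]⟩,⟨0,[(23,0)]⟩),⟨0,[]⟩,.k,
  .k,.k,(.r 0 ⟨1,[(28,0),(0,0),(17,1)]⟩ ⟨2,[(12,0),(8,0),(0,0)]⟩),.k,.k,⟨false,0,⟨0,[]⟩,⟨5,[(1,2),
  (10,0),(8,0),(0,3)]⟩⟩,⟨true,(-1),⟨0,[(3,0)]⟩,⟨0,[(21,0)]⟩⟩,⟨true,0,⟨0,[(46,0)]⟩,⟨0,[(32,0)]⟩⟩,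
  ⟨false,0,⟨0,[(7,0)]⟩,⟨0,[(0,0)]⟩⟩,⟨false,0,⟨0,[]⟩,⟨4,[(21,1),(0,1),(26,2),(1,0)]⟩⟩,⟨true,(-1),⟨0,
  [(5,0)]⟩,⟨10,[(0,0),(0,1),(2,2),(3,1),(12,2),(21,0),(7,3)]⟩⟩,[]⟩)))) (.R ⟨2,true,false,true,[0,1],
  [0,0,0,0,1],[1,1,1],(⟨0,[]⟩,⟨0,[]⟩),(⟨0,[(21,0)]⟩,⟨0,[(20,0)]⟩),⟨0,[]⟩,.k,.k,.k,(.r 0 ⟨1,[(25,0),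
  (0,0),(17,1)]⟩ ⟨2,[(9,0),(8,0),(0,0)]⟩),.k,.k,⟨true,0,⟨1,[(25,0),(0,0)]⟩,⟨0,[]⟩⟩,⟨false,0,⟨0,[(19,
  0)]⟩,⟨0,[(0,0)]⟩⟩,⟨true,0,⟨0,[(43,0)]⟩,⟨0,[(44,0)]⟩⟩,⟨false,0,⟨0,[(4,0)]⟩,⟨0,[(0,0),(37,0),(5,
  0)]⟩⟩,⟨false,0,⟨0,[]⟩,⟨1,[(18,0),(0,0),(26,0)]⟩⟩,⟨true,(-1),⟨0,[(2,0)]⟩,⟨13,[(0,1),(0,2),(3,1),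
  (12,6),(10,2),(10,0),(7,2)]⟩⟩,[]⟩))) (.R ⟨1,false,false,true,[1,-1],[0,0,0,0,1],[1,1,-1,-2],(⟨0,
  [(31,0)]⟩,⟨0,[(32,0)]⟩),(⟨0,[(19,0)]⟩,⟨0,[(18,0)]⟩),⟨0,[(14,0),(0,0)]⟩,.k,.k,(.r (-2) ⟨2,[(7,1),
  (8,1),(0,1)]⟩ ⟨0,[(34,0),(1,1),(5,1)]⟩),(.r (-1) ⟨14,[(7,4),(8,2),(0,2),(26,1),(1,3)]⟩ ⟨1,[(23,0),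
  (0,0),(17,1)]⟩),(.r (-2) ⟨14,[(7,9),(8,8),(0,8),(26,0),(1,1)]⟩ ⟨0,[(34,0),(1,1),(5,1)]⟩),.k,⟨true,
  1,⟨38,[(2,8),(3,9),(0,12),(8,8),(21,1)]⟩,⟨0,[(34,0),(1,1),(5,1)]⟩⟩,⟨false,1,⟨0,[(1,0),(41,0)]⟩,⟨0,
  [(3,0)]⟩⟩,⟨true,0,⟨0,[(41,0)]⟩,⟨0,[(42,0)]⟩⟩,⟨false,0,⟨0,[(1,0),(40,0)]⟩,⟨3,[(0,1),(2,1),(7,1),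
  (31,0),(0,0)]⟩⟩,⟨false,0,⟨0,[]⟩,⟨1,[(16,0),(0,0),(26,0)]⟩⟩,⟨false,0,⟨0,[(1,0),(40,1)]⟩,⟨0,[(0,0),
  (10,0)]⟩⟩,[.o ⟨false,0,⟨4,[(17,4),(16,1),(3,0),(7,0)]⟩,⟨0,[(0,0)]⟩⟩,.o ⟨false,0,⟨0,[(1,0)]⟩,⟨2,
  [(0,0),(15,1),(29,0)]⟩⟩,.o ⟨false,0,⟨1,[(23,0),(0,0)]⟩,⟨9,[(16,0),(0,0),(20,1),(4,4)]⟩⟩,.a ⟨true,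
  (-1),⟨0,[(29,0),(1,0),(2,0),(1,1)]⟩,⟨0,[(43,0)]⟩⟩ ⟨true,1,⟨41,[(6,4),(0,22),(26,5),(3,0),(0,14)]⟩,
  ⟨0,[(34,0),(1,1),(5,1)]⟩⟩ ⟨false,1,⟨0,[(1,0),(41,0)]⟩,⟨5,[(0,0),(2,4),(2,0),(20,2),(6,0),(1,
  6)]⟩⟩]⟩))))) (.I [0,0,0,0,0,0,0,-1] (.Q [0,0,-1,0,1,0,1,0,0,-1,1] (.p true [0,0,1] [1] (⟨0,[(23,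
  0)]⟩,⟨0,[(22,0)]⟩) .k 1 (⟨0,[]⟩,⟨0,[]⟩) .k .k) (.R ⟨1,false,false,true,[1,0,-1],[1,-1],[0,1,0,0,0,
  0,0,-1],(⟨0,[(23,0)]⟩,⟨0,[(24,0)]⟩),(⟨0,[(29,0)]⟩,⟨0,[(30,0)]⟩),⟨0,[(12,0)]⟩,.k,.k,.k,.k,.k,.k,
  ⟨false,0,⟨0,[(2,0),(32,0)]⟩,⟨27,[(5,1),(0,10),(4,2),(6,21),(0,16),(16,4),(5,13)]⟩⟩,⟨true,0,⟨0,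
  [(21,0)]⟩,⟨9,[(4,0),(6,0),(6,7),(6,2),(6,3),(1,7),(1,1)]⟩⟩,⟨true,0,⟨0,[(44,0)]⟩,⟨0,[]⟩⟩,⟨true,0,
  ⟨0,[(8,0)]⟩,⟨5,[(2,4),(15,4),(1,0),(11,1),(3,0),(3,0)]⟩⟩,⟨false,0,⟨0,[(40,0)]⟩,⟨95,[(4,9),(0,21),
  (15,32),(0,32),(13,1),(5,47)]⟩⟩,⟨true,0,⟨0,[(19,0)]⟩,⟨5,[(1,5),(9,0),(6,3),(13,1),(1,3),(1,0)]⟩⟩,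
  [.o ⟨false,0,⟨0,[(39,0)]⟩,⟨9,[(14,0),(0,0),(20,1),(3,9),(1,4)]⟩⟩,.a ⟨true,0,⟨0,[(10,0)]⟩,⟨0,[(40,
  0)]⟩⟩ ⟨true,0,⟨0,[(1,0)]⟩,⟨5,[(11,0),(6,3),(0,5),(12,1),(1,9),(1,0)]⟩⟩ ⟨false,1,⟨0,[(0,0),(9,0)]⟩,
  ⟨5,[(11,0),(6,3),(13,1),(1,3),(1,0),(3,5)]⟩⟩,.o ⟨false,0,⟨9,[(4,0),(6,0),(6,7),(6,2),(6,3),(1,7),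
  (1,1)]⟩,⟨20,[(0,10),(13,5),(0,5),(5,9),(14,1),(6,0)]⟩⟩,.o ⟨false,0,⟨0,[(22,0)]⟩,⟨0,[(0,0)]⟩⟩]⟩)
  (.I [1,1,-1,-1,0,0,0,-1] (.Q [0,0,-1,0,1,0,1,0,-1,0,1,-1] (.p true [0,0,1] [0,0,0,0,1] (⟨0,[(25,
  0)]⟩,⟨0,[(24,0)]⟩) .k 2 (⟨0,[(18,0)]⟩,⟨0,[(17,0)]⟩) .k (.r (-1) ⟨49,[(12,24),(2,8),(0,8),(3,49),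
  (16,4),(5,30),(1,11)]⟩ ⟨1,[(0,0),(2,0)]⟩)) (.Q [0,0,0,0,0,-1,0,0,0,0,0,1] (.ed false [1,-1,0,0,1]
  .k) (.Q [-1,-1,0,0,1,0,1,1,-1,0,1,-1] (.p true [0,0,1] [0,0,0,0,1] (⟨0,[(27,0)]⟩,⟨0,[(26,0)]⟩) .k
  2 (⟨0,[(20,0)]⟩,⟨0,[(19,0)]⟩) .k (.r (-1) ⟨49,[(14,24),(2,8),(0,8),(3,49),(16,4),(5,30),(1,11)]⟩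
  ⟨1,[(2,0),(2,0)]⟩)) (.S ⟨1,0,[1,1],[0,0,0,0,1],[],(⟨0,[(21,0)]⟩,⟨0,[(20,0)]⟩),⟨0,[(1,0)]⟩,.k,(.r
  (-1) ⟨2,[(9,0),(8,0),(0,0)]⟩ ⟨1,[(6,0),(16,0),(2,0),(17,0)]⟩),⟨false,1,⟨4,[(18,1),(0,1),(26,2),(1,
  0)]⟩,⟨0,[]⟩⟩,⟨true,0,⟨0,[(48,0)]⟩,⟨0,[]⟩⟩,⟨true,0,⟨0,[(29,0)]⟩,⟨0,[(43,0)]⟩⟩,⟨false,0,⟨0,[(44,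
  0)]⟩,⟨95,[(8,9),(0,21),(15,32),(0,32),(13,1),(5,47)]⟩⟩,[.o ⟨false,0,⟨4,[(19,4),(16,1),(3,0),(7,
  0)]⟩,⟨17,[(0,7),(1,6),(1,10),(0,7),(12,2),(3,3),(17,2),(5,4)]⟩⟩,.a ⟨true,0,⟨0,[(19,0)]⟩,⟨2,[(0,0),
  (1,1),(0,0),(0,2),(24,0)]⟩⟩ ⟨false,1,⟨1,[(45,0),(0,0)]⟩,⟨0,[(48,0)]⟩⟩ ⟨true,0,⟨0,[]⟩,⟨1,[(25,0),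
  (0,0)]⟩⟩,.e ⟨false,1,⟨1,[(18,0),(0,0),(26,0)]⟩,⟨0,[]⟩⟩ ⟨false,0,⟨0,[]⟩,⟨1,[(18,0),(0,0),(26,0)]⟩⟩,
  .o ⟨false,0,⟨8,[(4,0),(1,0),(3,0),(8,8),(9,0),(6,2),(1,5),(1,1),(6,0)]⟩,⟨17,[(0,0),(1,13),(0,0),
  (0,5),(13,2),(3,8),(6,0),(10,2)]⟩⟩]⟩) (.R ⟨1,false,false,true,[0,0,0,0,1],[0,1],[1,1,1],(⟨0,[(21,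
  0)]⟩,⟨0,[(20,0)]⟩),(⟨0,[(34,0)]⟩,⟨0,[(33,0)]⟩),⟨0,[(1,0)]⟩,.k,.k,(.r (-1) ⟨2,[(9,0),(8,0),(0,0)]⟩
  ⟨1,[(6,0),(16,0),(2,0),(17,0)]⟩),(.r (-1) ⟨2,[(9,0),(8,0),(0,0)]⟩ ⟨1,[(6,0),(16,0),(2,0),(17,
  0)]⟩),(.r (-2) ⟨2,[(9,1),(8,1),(0,1)]⟩ ⟨0,[(29,1),(6,0),(5,1)]⟩),.k,⟨false,1,⟨2,[(9,0),(8,0),(0,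
  0)]⟩,⟨0,[(44,0)]⟩⟩,⟨true,1,⟨40,[(2,34),(1,15),(4,0),(8,5),(3,18),(6,2),(10,6)]⟩,⟨3,[(0,0),(9,0),
  (8,2),(9,1),(6,2),(1,7)]⟩⟩,⟨false,0,⟨1,[(25,0),(0,0)]⟩,⟨1,[(45,0),(0,0)]⟩⟩,⟨true,0,⟨5,[(2,4),(1,
  4),(13,0),(10,3),(6,2),(3,0),(3,1)]⟩,⟨1,[(0,0),(9,0),(8,0),(26,0)]⟩⟩,⟨true,(-1),⟨0,[(29,0),(6,0),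
  (5,0)]⟩,⟨2,[(9,0),(8,0),(0,0)]⟩⟩,⟨true,0,⟨5,[(2,4),(1,4),(13,0),(17,2),(3,0),(3,11)]⟩,⟨0,[(0,0),
  (9,0),(35,0)]⟩⟩,[.o ⟨false,0,⟨4,[(36,1),(3,0),(3,4),(3,0)]⟩,⟨95,[(8,9),(0,21),(15,32),(0,32),(13,
  1),(5,47)]⟩⟩,.e ⟨false,0,⟨0,[]⟩,⟨1,[(18,0),(0,0),(25,0)]⟩⟩ ⟨false,1,⟨5,[(2,4),(1,1),(13,0),(3,2),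
  (17,0),(3,5)]⟩,⟨1,[(0,0),(9,0),(8,0),(26,0)]⟩⟩,.a ⟨true,0,⟨0,[(19,0)]⟩,⟨0,[(2,0),(1,0)]⟩⟩ ⟨false,
  0,⟨1,[(25,0),(0,0)]⟩,⟨1,[(45,0),(0,0)]⟩⟩ ⟨true,0,⟨5,[(2,4),(1,4),(13,0),(17,2),(3,0),(3,5)]⟩,⟨1,
  [(0,0),(9,0),(8,0),(26,0)]⟩⟩,.o ⟨false,0,⟨19,[(0,0),(9,0),(8,18),(9,1),(6,6),(1,15),(1,3),(6,3)]⟩,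
  ⟨40,[(2,34),(1,15),(4,0),(8,5),(3,18),(6,2),(10,6)]⟩⟩]⟩)) (.Q [0,0,0,-1,0,0,0,0,1,0,0,1] (.p true
  [0,0,0,0,1] [] (⟨0,[(20,0)]⟩,⟨0,[(19,0)]⟩) .k 0 (⟨0,[]⟩,⟨0,[]⟩) .k .k) (.R ⟨0,false,false,true,[0,
  0,0,0,1],[0,1],[1,1,1],(⟨0,[(21,0)]⟩,⟨0,[(20,0)]⟩),(⟨0,[(34,0)]⟩,⟨0,[(33,0)]⟩),⟨0,[(1,0)]⟩,.k,.k,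
  (.r (-1) ⟨2,[(9,0),(8,0),(0,0)]⟩ ⟨1,[(6,0),(16,0),(2,0),(17,0)]⟩),(.r (-1) ⟨2,[(9,0),(8,0),(0,
  0)]⟩ ⟨1,[(6,0),(16,0),(2,0),(17,0)]⟩),.k,.k,⟨false,1,⟨2,[(9,0),(8,0),(0,0)]⟩,⟨0,[(44,0)]⟩⟩,⟨true,
  1,⟨40,[(2,34),(1,15),(4,0),(8,5),(3,18),(6,2),(10,6)]⟩,⟨1,[(0,0),(18,0),(9,0),(6,1),(1,3)]⟩⟩,
  ⟨false,0,⟨1,[(25,0),(0,0)]⟩,⟨1,[(45,0),(0,0)]⟩⟩,⟨true,0,⟨5,[(2,4),(1,4),(13,0),(10,3),(6,2),(3,0),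
  (3,1)]⟩,⟨0,[(0,0)]⟩⟩,⟨false,0,⟨0,[]⟩,⟨0,[]⟩⟩,⟨false,0,⟨0,[]⟩,⟨0,[]⟩⟩,[.o ⟨false,0,⟨4,[(36,1),(3,
  0),(3,4),(3,0)]⟩,⟨95,[(8,9),(0,21),(15,32),(0,32),(13,1),(5,47)]⟩⟩,.e ⟨false,0,⟨0,[]⟩,⟨1,[(18,0),
  (0,0),(25,0)]⟩⟩ ⟨false,1,⟨5,[(2,4),(1,1),(13,0),(3,2),(17,0),(3,5)]⟩,⟨0,[(0,0)]⟩⟩,.a ⟨true,0,⟨0,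
  [(19,0)]⟩,⟨0,[(2,0),(1,0)]⟩⟩ ⟨false,0,⟨1,[(25,0),(0,0)]⟩,⟨1,[(45,0),(0,0)]⟩⟩ ⟨true,0,⟨5,[(2,4),(1,
  4),(13,0),(17,2),(3,0),(3,5)]⟩,⟨0,[(0,0)]⟩⟩,.o ⟨false,0,⟨9,[(0,0),(18,8),(9,0),(6,3),(1,7),(1,1),
  (6,1)]⟩,⟨40,[(2,34),(1,15),(4,0),(8,5),(3,18),(6,2),(10,6)]⟩⟩]⟩) (.Q [-1,0,0,1,0,0,0,0,-1,0,0,-1]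
  (.p false [0,0,0,0,1] [] (⟨0,[(21,0)]⟩,⟨0,[(20,0)]⟩) .k 0 (⟨0,[]⟩,⟨0,[]⟩) .k .k) (.R ⟨2,true,
  false,true,[0,1],[0,0,0,0,1],[2,1],(⟨0,[]⟩,⟨0,[]⟩),(⟨0,[(22,0)]⟩,⟨0,[(21,0)]⟩),⟨0,[]⟩,.k,.k,.k,
  (.r 0 ⟨1,[(7,0),(16,0),(2,0),(17,0)]⟩ ⟨2,[(10,0),(8,0),(0,0)]⟩),.k,.k,⟨true,0,⟨0,[]⟩,⟨1,[(26,0),
  (0,0)]⟩⟩,⟨false,0,⟨0,[(20,0)]⟩,⟨4,[(0,2),(9,0),(8,1),(26,0)]⟩⟩,⟨false,1,⟨2,[(10,0),(8,0),(0,0)]⟩,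
  ⟨0,[(30,0),(12,0)]⟩⟩,⟨true,0,⟨0,[(20,0),(23,0)]⟩,⟨0,[(0,0)]⟩⟩,⟨true,0,⟨0,[(40,0)]⟩,⟨0,[(48,0)]⟩⟩,
  ⟨false,0,⟨0,[(20,0)]⟩,⟨25,[(0,14),(8,4),(9,10),(21,0),(5,12)]⟩⟩,[]⟩) (.R ⟨0,false,false,true,[0,0,
  0,0,1],[0,1],[1,1,1],(⟨0,[(22,0)]⟩,⟨0,[(21,0)]⟩),(⟨0,[(35,0)]⟩,⟨0,[(34,0)]⟩),⟨0,[(2,0)]⟩,.k,.k,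
  (.r (-1) ⟨2,[(10,0),(8,0),(0,0)]⟩ ⟨1,[(7,0),(16,0),(2,0),(17,0)]⟩),(.r (-1) ⟨2,[(10,0),(8,0),(0,
  0)]⟩ ⟨1,[(7,0),(16,0),(2,0),(17,0)]⟩),.k,.k,⟨false,1,⟨2,[(10,0),(8,0),(0,0)]⟩,⟨0,[(45,0)]⟩⟩,⟨true,
  1,⟨4,[(1,2),(8,0),(8,1),(26,0)]⟩,⟨0,[(0,0),(29,0),(6,0),(1,1)]⟩⟩,⟨false,0,⟨1,[(26,0),(0,0)]⟩,⟨1,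
  [(46,0),(0,0)]⟩⟩,⟨true,0,⟨2,[(1,1),(17,0),(10,0),(6,0),(11,0)]⟩,⟨0,[(0,0)]⟩⟩,⟨false,0,⟨0,[]⟩,⟨0,
  []⟩⟩,⟨false,0,⟨0,[]⟩,⟨0,[]⟩⟩,[.o ⟨false,0,⟨4,[(37,1),(3,0),(3,4),(3,0)]⟩,⟨25,[(0,10),(8,4),(9,10),
  (21,0),(5,12)]⟩⟩,.a ⟨true,0,⟨0,[(45,0)]⟩,⟨0,[(15,0)]⟩⟩ ⟨false,0,⟨0,[]⟩,⟨1,[(19,0),(0,0),(25,0)]⟩⟩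
  ⟨true,0,⟨0,[(1,0)]⟩,⟨3,[(0,3),(25,0),(0,0),(20,1)]⟩⟩,.e ⟨false,0,⟨1,[(26,0),(0,0)]⟩,⟨1,[(46,0),(0,
  0)]⟩⟩ ⟨false,0,⟨0,[(1,0)]⟩,⟨19,[(0,16),(9,0),(8,7),(0,10),(26,9),(0,2)]⟩⟩,.o ⟨false,0,⟨8,[(5,0),
  (1,0),(3,0),(8,8),(9,0),(6,2),(1,5),(1,1),(6,0)]⟩,⟨4,[(1,2),(8,0),(8,1),(26,0)]⟩⟩]⟩)))) (.Q [0,0,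
  -1,0,1,0,0,0,-1,1,0,-1] (.p false [0,0,0,0,1] [1] (⟨0,[(19,0)]⟩,⟨0,[(18,0)]⟩) .k 1 (⟨0,[]⟩,⟨0,
  []⟩) .k .k) (.Q [0,0,0,0,0,0,-1,0,-1,1,-1,-1] (.p false [0,0,1] [1,0,0,0,-1] (⟨0,[(27,0)]⟩,⟨0,
  [(26,0)]⟩) .k 2 (⟨0,[(19,0)]⟩,⟨0,[(20,0)]⟩) .k (.r (-1) ⟨9,[(14,4),(2,2),(0,2),(3,9),(16,0),(5,
  4)]⟩ ⟨0,[(2,0),(25,0),(12,0)]⟩)) (.Q [0,0,0,0,0,0,0,0,-1,1,0,-1] (.p false [0,0,0,0,1] [1] (⟨0,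
  [(21,0)]⟩,⟨0,[(20,0)]⟩) .k 1 (⟨0,[]⟩,⟨0,[]⟩) .k .k) (.Q [0,0,0,0,0,-1,0,0,0,0,0,1] (.ed false [1,
  -1,0,0,1] .k) (.R ⟨1,false,false,true,[0,0,0,0,1],[0,1],[1,1,1],(⟨0,[(23,0)]⟩,⟨0,[(22,0)]⟩),(⟨0,
  [(36,0)]⟩,⟨0,[(35,0)]⟩),⟨0,[(0,0)]⟩,.k,.k,(.r (-1) ⟨2,[(11,0),(8,0),(0,0)]⟩ ⟨1,[(8,0),(16,0),(2,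
  0),(17,0)]⟩),(.r (-1) ⟨2,[(11,0),(8,0),(0,0)]⟩ ⟨1,[(8,0),(16,0),(2,0),(17,0)]⟩),(.r (-2) ⟨2,[(11,
  1),(8,1),(0,1)]⟩ ⟨0,[(31,1),(6,0),(5,1)]⟩),.k,⟨false,1,⟨2,[(11,0),(8,0),(0,0)]⟩,⟨0,[(46,0)]⟩⟩,
  ⟨true,1,⟨4,[(1,3),(1,0),(38,0),(4,1)]⟩,⟨0,[(4,0),(22,0)]⟩⟩,⟨false,0,⟨1,[(27,0),(0,0)]⟩,⟨1,[(47,0),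
  (0,0)]⟩⟩,⟨true,0,⟨5,[(1,4),(18,0),(10,3),(6,2),(3,0),(3,1)]⟩,⟨2,[(4,0),(0,0),(6,0),(8,1),(26,
  0)]⟩⟩,⟨true,(-1),⟨0,[(31,0),(6,0),(5,0)]⟩,⟨2,[(11,0),(8,0),(0,0)]⟩⟩,⟨true,0,⟨5,[(1,4),(18,0),(17,
  2),(3,0),(3,11)]⟩,⟨2,[(4,1),(0,1),(6,1),(8,0),(26,1)]⟩⟩,[.o ⟨false,0,⟨4,[(38,1),(3,0),(3,4),(3,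
  0)]⟩,⟨95,[(10,9),(0,21),(15,32),(0,32),(13,1),(5,47)]⟩⟩,.e ⟨false,0,⟨0,[]⟩,⟨8,[(3,4),(17,4),(20,
  0),(4,1)]⟩⟩ ⟨false,1,⟨4,[(1,3),(1,0),(38,0),(3,4),(0,1)]⟩,⟨2,[(4,0),(0,0),(6,0),(8,1),(26,0)]⟩⟩,
  .a ⟨true,0,⟨0,[(21,0)]⟩,⟨0,[(1,0)]⟩⟩ ⟨false,0,⟨1,[(27,0),(0,0)]⟩,⟨1,[(47,0),(0,0)]⟩⟩ ⟨true,0,⟨5,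
  [(1,4),(18,0),(17,2),(3,0),(3,5)]⟩,⟨2,[(4,0),(0,0),(6,0),(8,1),(26,0)]⟩⟩,.o ⟨false,0,⟨19,[(4,7),
  (16,11),(5,8),(0,0),(13,3),(6,1)]⟩,⟨4,[(1,3),(1,0),(38,0),(4,1)]⟩⟩]⟩) (.R ⟨0,false,false,true,[0,
  0,0,0,1],[0,1],[1,1,1],(⟨0,[(23,0)]⟩,⟨0,[(22,0)]⟩),(⟨0,[(36,0)]⟩,⟨0,[(35,0)]⟩),⟨0,[(0,0)]⟩,.k,.k,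
  (.r (-1) ⟨2,[(11,0),(8,0),(0,0)]⟩ ⟨1,[(8,0),(16,0),(2,0),(17,0)]⟩),(.r (-1) ⟨2,[(11,0),(8,0),(0,
  0)]⟩ ⟨1,[(8,0),(16,0),(2,0),(17,0)]⟩),.k,.k,⟨false,1,⟨2,[(11,0),(8,0),(0,0)]⟩,⟨0,[(46,0)]⟩⟩,⟨true,
  1,⟨4,[(1,3),(1,0),(38,0),(4,1)]⟩,⟨0,[(4,0),(22,0)]⟩⟩,⟨false,0,⟨1,[(27,0),(0,0)]⟩,⟨1,[(47,0),(0,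
  0)]⟩⟩,⟨true,0,⟨5,[(1,4),(18,0),(10,3),(6,2),(3,0),(3,1)]⟩,⟨2,[(4,0),(0,0),(6,0),(8,1),(26,0)]⟩⟩,
  ⟨false,0,⟨0,[]⟩,⟨0,[]⟩⟩,⟨false,0,⟨0,[]⟩,⟨0,[]⟩⟩,[.o ⟨false,0,⟨4,[(38,1),(3,0),(3,4),(3,0)]⟩,⟨95,
  [(10,9),(0,21),(15,32),(0,32),(13,1),(5,47)]⟩⟩,.e ⟨false,0,⟨0,[]⟩,⟨8,[(3,4),(17,4),(20,0),(4,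
  1)]⟩⟩ ⟨false,1,⟨4,[(1,3),(1,0),(38,0),(3,4),(0,1)]⟩,⟨2,[(4,0),(0,0),(6,0),(8,1),(26,0)]⟩⟩,.a
  ⟨true,0,⟨0,[(21,0)]⟩,⟨0,[(1,0)]⟩⟩ ⟨false,0,⟨1,[(27,0),(0,0)]⟩,⟨1,[(47,0),(0,0)]⟩⟩ ⟨true,0,⟨5,[(1,
  4),(18,0),(17,2),(3,0),(3,5)]⟩,⟨2,[(4,0),(0,0),(6,0),(8,1),(26,0)]⟩⟩,.o ⟨false,0,⟨19,[(4,7),(16,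
  11),(5,8),(0,0),(13,3),(6,1)]⟩,⟨4,[(1,3),(1,0),(38,0),(4,1)]⟩⟩]⟩)) (.Q [-1,-1,0,0,1,0,0,0,-1,0,0,
  -1] (.p false [0,0,0,0,1] [] (⟨0,[(22,0)]⟩,⟨0,[(21,0)]⟩) .k 0 (⟨0,[]⟩,⟨0,[]⟩) .k .k) (.R ⟨1,false,
  false,false,[0,0,1],[1,0,0,0,-1],[0,0,0,0,0,0,0,1],(⟨0,[(30,0)]⟩,⟨0,[(29,0)]⟩),(⟨0,[(22,0)]⟩,⟨0,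
  [(23,0)]⟩),⟨0,[(19,0)]⟩,.k,.k,.k,.k,(.r (-1) ⟨27,[(11,1),(0,10),(4,2),(6,21),(0,16),(16,4),(5,
  13)]⟩ ⟨0,[(8,0),(41,0)]⟩),.k,⟨false,1,⟨5,[(17,0),(6,3),(0,5),(16,0),(4,0),(0,2)]⟩,⟨0,[(7,0)]⟩⟩,
  ⟨true,0,⟨0,[(2,0)]⟩,⟨0,[(1,0),(25,0)]⟩⟩,⟨false,1,⟨1,[(20,0),(0,0),(26,0)]⟩,⟨0,[]⟩⟩,⟨true,0,⟨0,[(2,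
  0),(4,0)]⟩,⟨0,[(1,0),(23,0)]⟩⟩,⟨true,0,⟨0,[(46,0)]⟩,⟨0,[(45,0)]⟩⟩,⟨true,0,⟨1,[(2,1),(2,0),(2,0),
  (37,1)]⟩,⟨1,[(1,1),(10,0),(12,0)]⟩⟩,[.o ⟨false,1,⟨2,[(0,0),(19,1),(29,0)]⟩,⟨0,[(1,0)]⟩⟩,.o ⟨false,
  1,⟨0,[(0,0)]⟩,⟨4,[(21,4),(16,1),(3,0),(7,0)]⟩⟩,.o ⟨false,1,⟨8,[(3,0),(17,0),(5,8),(14,1),(4,3)]⟩,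
  ⟨56,[(2,15),(1,15),(6,0),(5,5),(6,12),(6,2),(10,6)]⟩⟩,.a ⟨true,0,⟨0,[(27,0)]⟩,⟨0,[(24,0)]⟩⟩ ⟨true,
  1,⟨5,[(17,0),(6,3),(0,5),(16,0),(4,0),(0,2)]⟩,⟨1,[(5,0),(2,0),(29,1),(1,1)]⟩⟩ ⟨false,1,⟨0,[(0,0),
  (23,0)]⟩,⟨0,[(1,0),(25,0)]⟩⟩]⟩) (.Q [0,0,1,0,-1,0,0,0,1,0,0,1] (.p true [0,0,0,0,1] [] (⟨0,[(23,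
  0)]⟩,⟨0,[(22,0)]⟩) .k 0 (⟨0,[]⟩,⟨0,[]⟩) .k .k) (.Q [0,0,0,0,1,0,1,0,-1,0,1,-1] (.p true [0,0,1]
  [0,0,0,0,1] (⟨0,[(31,0)]⟩,⟨0,[(30,0)]⟩) .k 2 (⟨0,[(24,0)]⟩,⟨0,[(23,0)]⟩) .k (.r (-1) ⟨49,[(18,24),
  (2,8),(0,8),(3,49),(16,4),(5,30),(1,11)]⟩ ⟨1,[(6,0),(2,0)]⟩)) (.K ⟨0,[0,0,0,0,1],(-1),(-1),(⟨0,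
  [(25,0)]⟩,⟨0,[(24,0)]⟩),.k,(.r (-1) ⟨2,[(13,0),(8,0),(0,0)]⟩ ⟨1,[(10,0),(16,0),(2,0),(17,0)]⟩),
  (.r 0 ⟨1,[(10,0),(16,0),(2,0),(17,0)]⟩ ⟨14,[(13,4),(8,2),(0,2),(26,1),(1,3)]⟩),.k,.k,[⟨0,[(0,0)]⟩,
  ⟨0,[(1,0)]⟩,⟨0,[(22,0),(29,0)]⟩,⟨0,[(2,0)]⟩]⟩) (.Q [0,0,0,0,0,-1,0,0,0,0,0,1] (.ed false [1,-1,0,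
  0,1] .k) (.S ⟨1,0,[1,1],[0,0,0,0,1],[1,1,1],(⟨0,[(26,0)]⟩,⟨0,[(25,0)]⟩),⟨0,[(0,0)]⟩,.k,(.r (-1)
  ⟨2,[(14,0),(8,0),(0,0)]⟩ ⟨1,[(11,0),(16,0),(2,0),(17,0)]⟩),⟨false,0,⟨1,[(30,0),(0,0)]⟩,⟨1,[(50,0),
  (0,0)]⟩⟩,⟨true,0,⟨0,[(53,0)]⟩,⟨0,[]⟩⟩,⟨true,(-1),⟨0,[(34,0),(6,0),(5,0)]⟩,⟨2,[(14,0),(8,0),(0,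
  0)]⟩⟩,⟨false,0,⟨0,[(49,0)]⟩,⟨95,[(13,9),(0,21),(15,32),(0,32),(13,1),(5,47)]⟩⟩,[.e ⟨false,0,⟨0,
  [(53,0)]⟩,⟨1,[(50,0),(0,0)]⟩⟩ ⟨false,0,⟨0,[(44,0)]⟩,⟨1,[(23,0),(0,0),(26,0)]⟩⟩,.o ⟨false,0,⟨0,[(4,
  0)]⟩,⟨26,[(5,3),(4,3),(2,0),(1,3),(7,22),(10,10),(10,0),(5,1)]⟩⟩,.o ⟨false,0,⟨0,[(4,0)]⟩,⟨0,[(23,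
  0)]⟩⟩,.a ⟨true,(-1),⟨0,[(2,0)]⟩,⟨0,[(6,0)]⟩⟩ ⟨false,0,⟨0,[]⟩,⟨1,[(23,0),(0,0),(26,0)]⟩⟩ ⟨true,0,
  ⟨0,[(44,0)]⟩,⟨1,[(30,0),(0,0)]⟩⟩]⟩) (.R ⟨0,false,false,false,[0,0,0,0,1],[0,1],[],(⟨0,[(26,0)]⟩,
  ⟨0,[(25,0)]⟩),(⟨0,[(39,0)]⟩,⟨0,[(38,0)]⟩),⟨0,[(0,0)]⟩,.k,.k,(.r (-1) ⟨2,[(14,0),(8,0),(0,0)]⟩ ⟨1,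
  [(11,0),(16,0),(2,0),(17,0)]⟩),(.r (-1) ⟨2,[(14,0),(8,0),(0,0)]⟩ ⟨1,[(11,0),(16,0),(2,0),(17,
  0)]⟩),.k,.k,⟨true,1,⟨2,[(14,0),(8,0),(0,0)]⟩,⟨0,[(41,0),(1,1),(5,0)]⟩⟩,⟨false,2,⟨8,[(6,9),(17,0),
  (20,1),(4,3)]⟩,⟨0,[(2,0)]⟩⟩,⟨false,1,⟨4,[(23,1),(0,1),(26,2),(1,0)]⟩,⟨0,[]⟩⟩,⟨true,1,⟨0,[(23,0),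
  (25,0)]⟩,⟨2,[(1,0),(0,0),(0,0),(4,0),(6,0)]⟩⟩,⟨false,0,⟨0,[]⟩,⟨0,[]⟩⟩,⟨false,0,⟨0,[]⟩,⟨0,[]⟩⟩,[.a
  ⟨true,0,⟨0,[(49,0)]⟩,⟨0,[(19,0)]⟩⟩ ⟨false,1,⟨8,[(6,4),(17,4),(20,0),(4,1)]⟩,⟨0,[]⟩⟩ ⟨true,1,⟨0,
  [(23,0),(25,0)]⟩,⟨2,[(1,0),(0,1),(5,0),(6,0),(27,1)]⟩⟩,.o ⟨false,1,⟨9,[(23,0),(0,0),(20,1),(3,9),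
  (1,4)]⟩,⟨0,[(48,0)]⟩⟩,.o ⟨false,0,⟨0,[(4,0)]⟩,⟨0,[(23,0)]⟩⟩,.e ⟨false,1,⟨1,[(50,0),(0,0)]⟩,⟨1,
  [(30,0),(0,0)]⟩⟩ ⟨false,2,⟨9,[(6,9),(16,0),(0,0),(20,1),(3,9),(1,4)]⟩,⟨2,[(1,0),(0,1),(5,0),(6,0),
  (27,1)]⟩⟩]⟩))) (.R ⟨2,true,false,true,[0,1],[0,0,0,0,1],[1,1,1],(⟨0,[]⟩,⟨0,[]⟩),(⟨0,[(24,0)]⟩,⟨0,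
  [(23,0)]⟩),⟨0,[]⟩,.k,.k,.k,(.r 0 ⟨1,[(9,0),(16,0),(2,0),(17,0)]⟩ ⟨2,[(12,0),(8,0),(0,0)]⟩),.k,.k,
  ⟨true,0,⟨1,[(28,0),(0,0)]⟩,⟨0,[]⟩⟩,⟨false,0,⟨0,[(22,0)]⟩,⟨0,[(0,0)]⟩⟩,⟨true,0,⟨0,[(46,0)]⟩,⟨0,
  [(47,0)]⟩⟩,⟨false,0,⟨2,[(2,0),(8,0),(10,1)]⟩,⟨0,[(0,0),(40,0),(5,0)]⟩⟩,⟨false,0,⟨0,[]⟩,⟨1,[(21,0),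
  (0,0),(26,0)]⟩⟩,⟨true,(-1),⟨0,[(1,0)]⟩,⟨1,[(0,0),(20,0),(28,0)]⟩⟩,[]⟩)))) (.Q [0,0,1,0,0,0,0,0,-1,
  1,0,-1] (.p false [0,0,0,0,1] [1] (⟨0,[(21,0)]⟩,⟨0,[(20,0)]⟩) .k 1 (⟨0,[]⟩,⟨0,[]⟩) .k .k) (.Q [-1,
  1,0,0,0,0,0,0,-1,1,0,-1] (.p false [0,0,0,0,1] [1] (⟨0,[(22,0)]⟩,⟨0,[(21,0)]⟩) .k 1 (⟨0,[]⟩,⟨0,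
  []⟩) .k .k) (.K ⟨0,[1,0,0,0,-1],0,0,(⟨0,[(22,0)]⟩,⟨0,[(23,0)]⟩),.k,(.r (-1) ⟨14,[(11,4),(8,2),(0,
  2),(26,1),(1,3)]⟩ ⟨1,[(8,0),(16,0),(2,0),(17,0)]⟩),(.r 0 ⟨1,[(8,0),(16,0),(2,0),(17,0)]⟩ ⟨2,[(11,
  0),(8,0),(0,0)]⟩),.k,.k,[⟨0,[(2,0)]⟩,⟨0,[(1,0)]⟩,⟨4,[(21,4),(16,1),(3,0),(7,0)]⟩,⟨0,[(0,0)]⟩]⟩)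
  (.R ⟨2,true,false,false,[0,1],[1,0,0,0,-1],[1,0,1],(⟨0,[]⟩,⟨0,[]⟩),(⟨0,[(22,0)]⟩,⟨0,[(23,0)]⟩),⟨0,
  []⟩,.k,.k,.k,(.r 0 ⟨1,[(8,0),(16,0),(2,0),(17,0)]⟩ ⟨14,[(11,4),(8,2),(0,2),(26,1),(1,3)]⟩),.k,.k,
  ⟨false,0,⟨0,[]⟩,⟨9,[(20,3),(0,3),(25,4),(0,0),(1,1)]⟩⟩,⟨true,0,⟨0,[(1,0)]⟩,⟨13,[(0,6),(1,1),(1,1),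
  (16,2),(20,0),(0,1),(6,2)]⟩⟩,⟨false,1,⟨95,[(10,9),(0,21),(15,32),(0,32),(13,1),(5,47)]⟩,⟨0,[(46,
  0)]⟩⟩,⟨true,1,⟨1,[(3,0),(11,0),(4,0),(28,0)]⟩,⟨0,[(0,0),(37,0),(7,0)]⟩⟩,⟨true,0,⟨0,[]⟩,⟨0,[(50,
  0)]⟩⟩,⟨false,1,⟨1,[(1,1),(45,0),(0,0)]⟩,⟨10,[(0,3),(1,1),(1,1),(16,2),(20,0),(0,1)]⟩⟩,[]⟩)) (.R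
  ⟨1,false,false,false,[0,0,1],[1,0,0,0,-1],[1,1,0,-1,0,0,0,1],(⟨0,[(29,0)]⟩,⟨0,[(28,0)]⟩),(⟨0,[(21,
  0)]⟩,⟨0,[(22,0)]⟩),⟨0,[(18,0)]⟩,.k,.k,.k,.k,(.r (-1) ⟨27,[(10,1),(0,10),(4,2),(6,21),(0,16),(16,
  4),(5,13)]⟩ ⟨0,[(7,0),(41,0)]⟩),.k,⟨true,0,⟨5,[(5,1),(5,2),(4,0),(6,1),(0,2),(16,0)]⟩,⟨0,[(4,0),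
  (25,1),(12,1)]⟩⟩,⟨false,1,⟨0,[(19,0),(3,0)]⟩,⟨0,[(1,0)]⟩⟩,⟨true,0,⟨0,[(44,0)]⟩,⟨0,[(45,0)]⟩⟩,
  ⟨false,1,⟨1,[(4,0),(0,0),(1,0),(11,1),(3,0),(23,0)]⟩,⟨0,[(0,0),(23,0),(14,0)]⟩⟩,⟨false,0,⟨0,[]⟩,
  ⟨1,[(19,0),(0,0),(26,0)]⟩⟩,⟨false,1,⟨0,[(7,0),(11,0),(3,0)]⟩,⟨1,[(0,1),(10,0),(12,0),(14,1)]⟩⟩,
  [.o ⟨false,1,⟨3,[(2,3),(1,0),(0,0),(5,0),(18,2),(6,0),(1,3),(1,0)]⟩,⟨8,[(0,1),(0,1),(1,1),(16,2),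
  (20,0)]⟩⟩,.o ⟨false,2,⟨4,[(19,6),(0,1),(26,2),(1,0)]⟩,⟨0,[(0,0),(36,0),(1,0)]⟩⟩,.o ⟨false,1,⟨0,
  [(1,0),(17,0)]⟩,⟨40,[(5,15),(4,0),(5,5),(6,12),(6,2),(10,6)]⟩⟩,.a ⟨true,0,⟨0,[(26,0)]⟩,⟨0,[(23,
  0)]⟩⟩ ⟨false,1,⟨27,[(10,1),(0,10),(4,2),(6,21),(0,16),(16,4),(5,13)]⟩,⟨0,[(7,0)]⟩⟩ ⟨true,1,⟨5,[(2,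
  4),(2,3),(4,0),(8,0),(3,1),(6,2),(10,0)]⟩,⟨0,[(1,0),(35,0),(1,0)]⟩⟩]⟩))) (.Q [-1,0,0,0,1,0,0,0,-1,
  0,0,-1] (.p false [0,0,0,0,1] [] (⟨0,[(20,0)]⟩,⟨0,[(19,0)]⟩) .k 0 (⟨0,[]⟩,⟨0,[]⟩) .k .k) (.R ⟨1,
  false,false,false,[0,0,1],[1,0,0,0,-1],[1,1,0,-1,0,0,0,1],(⟨0,[(28,0)]⟩,⟨0,[(27,0)]⟩),(⟨0,[(20,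
  0)]⟩,⟨0,[(21,0)]⟩),⟨0,[(17,0)]⟩,.k,.k,.k,.k,(.r (-1) ⟨27,[(9,1),(0,10),(4,2),(6,21),(0,16),(16,4),
  (5,13)]⟩ ⟨0,[(6,0),(41,0)]⟩),.k,⟨true,0,⟨5,[(4,1),(5,2),(4,0),(6,1),(0,2),(16,0)]⟩,⟨0,[(3,0),(25,
  1),(12,1)]⟩⟩,⟨false,1,⟨0,[(18,0),(3,0)]⟩,⟨0,[(1,0),(23,0),(19,0)]⟩⟩,⟨true,0,⟨0,[(43,0)]⟩,⟨0,[(44,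
  0)]⟩⟩,⟨false,1,⟨1,[(3,0),(0,0),(1,0),(11,1),(3,0),(23,0)]⟩,⟨1,[(1,1),(21,1),(21,0),(0,0)]⟩⟩,
  ⟨false,0,⟨0,[]⟩,⟨1,[(18,0),(0,0),(26,0)]⟩⟩,⟨false,1,⟨0,[(6,0),(11,0),(3,0)]⟩,⟨1,[(1,1),(8,0),(12,
  0),(21,0),(0,0)]⟩⟩,[.o ⟨false,1,⟨0,[(0,0)]⟩,⟨8,[(1,3),(17,4),(20,0),(4,1)]⟩⟩,.o ⟨false,2,⟨4,[(18,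
  6),(0,1),(26,2),(1,0)]⟩,⟨0,[(1,0),(37,0)]⟩⟩,.o ⟨false,1,⟨9,[(18,0),(0,0),(5,9),(14,1),(4,4)]⟩,⟨40,
  [(4,15),(4,0),(5,5),(6,12),(6,2),(10,6)]⟩⟩,.a ⟨true,0,⟨0,[(25,0)]⟩,⟨0,[(22,0)]⟩⟩ ⟨false,1,⟨27,[(9,
  1),(0,10),(4,2),(6,21),(0,16),(16,4),(5,13)]⟩,⟨0,[(6,0)]⟩⟩ ⟨true,1,⟨0,[(0,0),(21,0)]⟩,⟨1,[(1,1),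
  (1,0),(2,0),(16,1)]⟩⟩]⟩) (.R ⟨2,true,false,true,[0,1],[0,0,0,0,1],[1,1],(⟨0,[]⟩,⟨0,[]⟩),(⟨0,[(21,
  0)]⟩,⟨0,[(20,0)]⟩),⟨0,[]⟩,.k,.k,.k,(.r 0 ⟨1,[(6,0),(16,0),(2,0),(17,0)]⟩ ⟨2,[(9,0),(8,0),(0,0)]⟩),
  .k,.k,⟨false,1,⟨1,[(18,0),(0,0),(25,0)]⟩,⟨0,[]⟩⟩,⟨true,(-1),⟨2,[(0,1),(1,0),(22,0),(21,0)]⟩,⟨0,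
  [(18,0)]⟩⟩,⟨false,1,⟨2,[(9,0),(8,0),(0,0)]⟩,⟨0,[(38,0),(5,0)]⟩⟩,⟨true,(-1),⟨5,[(0,2),(0,1),(6,1),
  (10,0),(16,0),(4,1)]⟩,⟨0,[(18,0),(25,0)]⟩⟩,⟨true,0,⟨0,[(39,0)]⟩,⟨1,[(25,0),(0,0)]⟩⟩,⟨false,(-1),
  ⟨0,[(0,0)]⟩,⟨4,[(18,6),(0,1),(26,2),(1,0)]⟩⟩,[]⟩)))) (.S ⟨1,0,[0,1,0,0,0,0,0,-1],[1,0,-1],[1,1,1],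
  (⟨0,[(24,0)]⟩,⟨0,[(25,0)]⟩),⟨0,[(13,0)]⟩,.k,.k,⟨false,0,⟨3,[(0,1),(6,0),(12,0),(2,1)]⟩,⟨1,[(2,1),
  (39,0),(0,0)]⟩⟩,⟨true,0,⟨0,[(45,0)]⟩,⟨0,[]⟩⟩,⟨true,(-1),⟨0,[(0,0),(32,0)]⟩,⟨3,[(2,0),(0,1),(0,0),
  (1,1),(31,0)]⟩⟩,⟨false,0,⟨0,[(41,0)]⟩,⟨95,[(5,9),(0,21),(15,32),(0,32),(13,1),(5,47)]⟩⟩,[.e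
  ⟨false,0,⟨0,[(45,0)]⟩,⟨1,[(42,0),(0,0)]⟩⟩ ⟨false,0,⟨0,[(2,0),(33,0)]⟩,⟨2,[(0,2),(5,0),(8,0),(0,
  0)]⟩⟩,.o ⟨false,0,⟨4,[(1,1),(0,3),(5,0),(10,1),(17,0)]⟩,⟨9,[(15,0),(0,0),(3,9),(16,1),(5,4)]⟩⟩,.o
  ⟨false,0,⟨40,[(1,15),(4,0),(5,5),(6,12),(6,2),(10,6)]⟩,⟨9,[(15,0),(0,0),(5,9),(14,1),(4,4)]⟩⟩,.a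
  ⟨true,(-1),⟨0,[(1,0)]⟩,⟨0,[(22,0),(19,0)]⟩⟩ ⟨false,0,⟨0,[]⟩,⟨1,[(15,0),(0,0),(26,0)]⟩⟩ ⟨true,0,⟨0,
  [(2,0),(33,0)]⟩,⟨3,[(0,1),(6,0),(12,0),(2,1)]⟩⟩]⟩))) (.S ⟨1,0,[0,0,1,1,0,0,0,-1],[1,1,-1],[],(⟨0,
  [(22,0),(3,0)]⟩,⟨0,[(12,0)]⟩),⟨0,[(22,0)]⟩,.k,.k,⟨true,1,⟨20,[(0,10),(3,6),(5,4),(7,9),(16,0),(5,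
  4)]⟩,⟨0,[(1,0),(29,0)]⟩⟩,⟨false,1,⟨1,[(13,0),(0,0),(26,0)]⟩,⟨0,[]⟩⟩,⟨false,1,⟨1,[(0,1),(39,0),(0,
  0)]⟩,⟨0,[(2,0)]⟩⟩,⟨true,0,⟨0,[(39,0)]⟩,⟨0,[(38,0)]⟩⟩,[.o ⟨false,0,⟨5,[(1,4),(15,4),(1,0),(11,1),
  (3,0),(3,0)]⟩,⟨39,[(4,1),(0,16),(12,22),(1,2),(0,2),(13,7),(5,19)]⟩⟩,.a ⟨true,0,⟨0,[(1,0),(15,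
  0)]⟩,⟨0,[(7,0)]⟩⟩ ⟨false,1,⟨1,[(40,0),(0,0)]⟩,⟨0,[(43,0)]⟩⟩ ⟨true,0,⟨0,[(1,0)]⟩,⟨13,[(0,3),(4,6),
  (4,4),(7,2),(12,1),(3,0)]⟩⟩,.e ⟨false,1,⟨1,[(13,0),(0,0),(26,0)]⟩,⟨0,[]⟩⟩ ⟨false,0,⟨0,[(1,0)]⟩,
  ⟨20,[(0,10),(3,6),(5,4),(7,9),(16,0),(5,4)]⟩⟩,.o ⟨false,0,⟨9,[(3,0),(6,0),(6,7),(6,2),(6,3),(1,7),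
  (1,1)]⟩,⟨9,[(13,0),(0,0),(5,9),(14,1),(4,4)]⟩⟩]⟩))))) (.R ⟨1,true,false,false,[1,-1],[0,1],[0,1,
  -1,-1],(⟨0,[(24,0)]⟩,⟨0,[(25,0)]⟩),(⟨0,[(25,0)]⟩,⟨0,[(24,0)]⟩),⟨0,[(7,0),(0,0)]⟩,.k,.k,(.r (-2)
  ⟨4,[(4,4),(4,2),(0,2),(20,0),(4,4)]⟩ ⟨2,[(0,1),(8,0),(0,0)]⟩),(.r (-2) ⟨4,[(4,4),(4,2),(0,2),(20,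
  0),(4,4)]⟩ ⟨2,[(0,1),(8,0),(0,0)]⟩),(.x 1 ⟨13,[(0,9),(3,14),(11,5),(0,5),(4,41),(8,2)]⟩ ⟨3,[(7,4),
  (0,4),(12,1),(9,0),(4,5)]⟩),.k,⟨true,1,⟨4,[(4,4),(25,2),(0,0),(0,0),(3,2)]⟩,⟨2,[(0,1),(15,0),(0,
  0),(11,0),(7,0)]⟩⟩,⟨false,2,⟨9,[(9,0),(0,0),(20,1),(4,14)]⟩,⟨3,[(0,1),(3,1),(0,1),(10,0),(0,0)]⟩⟩,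
  ⟨true,0,⟨0,[(39,0)]⟩,⟨0,[]⟩⟩,⟨false,1,⟨9,[(9,0),(0,0),(20,1),(3,19),(1,4)]⟩,⟨0,[(4,0)]⟩⟩,⟨false,0,
  ⟨0,[(35,0)]⟩,⟨9,[(4,4),(4,2),(0,2),(20,0),(5,4)]⟩⟩,⟨true,0,⟨4,[(0,3),(30,0),(3,2),(0,5)]⟩,⟨0,[(4,
  0),(29,0)]⟩⟩,[]⟩))))) (.R ⟨2,true,false,false,[0,1],[1,-1],[1,1,1],(⟨0,[]⟩,⟨0,[]⟩),(⟨0,[(20,0)]⟩,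
  ⟨0,[(21,0)]⟩),⟨0,[]⟩,.k,.k,.k,(.r 1 ⟨0,[(23,0),(1,1),(5,1)]⟩ ⟨0,[(30,1),(1,0),(0,0)]⟩),.k,.k,
  ⟨false,(-1),⟨0,[(23,0),(1,0),(5,0)]⟩,⟨0,[(30,0),(1,0),(0,0)]⟩⟩,⟨true,(-1),⟨0,[(18,0),(1,0),(2,0),
  (1,1)]⟩,⟨9,[(5,0),(0,0),(20,1),(4,4)]⟩⟩,⟨true,0,⟨0,[(30,0)]⟩,⟨0,[(31,0)]⟩⟩,⟨false,1,⟨0,[(1,0),(28,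
  0),(2,0)]⟩,⟨0,[(0,0)]⟩⟩,⟨false,0,⟨0,[]⟩,⟨1,[(5,0),(0,0),(26,0)]⟩⟩,⟨true,0,⟨0,[(1,0)]⟩,⟨9,[(0,4),
  (22,1),(3,0),(7,5)]⟩⟩,[]⟩)))

theorem ok0 : chk K t0 base = true := by decide +kernel

theorem closed {p a b c J l q : ℤ} {D dl : ℝ} {Cl : ℤ → ℤ → ℤ → ℤ → ℝ → Prop}
    (W : World p a b c J 1 l q D dl Cl) (g : G0 p a b c J D)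
    {N X R : ℤ} {I : ℝ} (hk : KCl p l Cl N X R I) (kz : KF a b D (X + (1 : ℤ) * I) (X + (1 : ℤ) * I + R) I)
    {Ne Xe : ℤ} {Ie : ℝ} (he : EFac p 1 D Cl 1 Ne Xe Ie)
    (hkf : ∀ kf ∈ (kfY 1 [0,0,0,0,0,0,1,0,0,0,1]), KOk p l Cl 1
      (xv [1, a, b, c, p, J, X, R, Xe] [D, I, Ie]) N kf)
    (h0 : 1 ≤ (c : ℝ))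
    (h1 : 1 ≤ 1 - (a : ℝ) + (b : ℝ))
    (h2 : 1 ≤ 2 * (a : ℝ) - (b : ℝ))
    (h3 : 0 < 1 + 2 * (p : ℝ) - 5 * D)
    (h4 : 1 ≤ 1 + (a : ℝ) - (b : ℝ))
    (h5 : 1 ≤ 1 - (a : ℝ) + (b : ℝ))
    (h6 : 1 ≤ 2 + 2 * (a : ℝ) - (p : ℝ))
    (h7 : 1 ≤ 2 * (a : ℝ) - (b : ℝ))
    (h8 : 1 ≤ -1 + (J : ℝ))
    (h9 : 1 ≤ 3 - (J : ℝ))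
    (h10 : 1 ≤ -1 + (c : ℝ))
    (h11 : 0 < -(b : ℝ) - (X : ℝ) + D - I)
    (h12 : 0 < -(J : ℝ) + I)
    (h13 : 0 < -(J : ℝ) + D - I)
    (h14 : 0 < -2 * (X : ℝ) + D - 2 * I) : False := by
  have g1 := g.a2
  have g2 := g.b2
  have g3 := g.pa
  have g4 := g.pb
  have g5 := g.J1
  have g6 := g.JD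
  have g7 := g.D2
  have g8 := g.ca
  have g9 := g.ca'
  have k1 := kz.I0
  have k2 := kz.ID
  have k3 := kz.z1
  have k4 := kz.z2
  have k5 := kz.s1
  have k6 := kz.s2
  have e1 := he.I0
  have e2 := he.ID
  have e3 := he.x0
  have e4 := he.xp
  push_cast at *
  refine (val_E W.toBase hk he (row := [1]) (by simp) (by simp) (kfY 1 [0,0,0,0,0,0,1,0,0,0,1])).sound W rfl (Nk := N)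
    (fun kf _ _ => ⟨_, rfl⟩) hkf ?_ ok0
  · simp only [base, List.forall_mem_cons, List.not_mem_nil, false_imp_iff, implies_true,
      and_true, hld, xv, evg_cons, evg_nil, List.map_cons, List.map_nil, List.cons_append,
      List.nil_append, if_true, if_false, Bool.false_eq_true]
    push_cast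
    refine ⟨?_, ?_, ?_, ?_, ?_, ?_, ?_, ?_, ?_, ?_, ?_, ?_, ?_, ?_, ?_, ?_, ?_, ?_, ?_, ?_, ?_, ?_, ?_, ?_, ?_, ?_, ?_, ?_, ?_, ?_, ?_, ?_, ?_, ?_⟩ <;> linarith

end Helper48.Y.Y11_c35_P2_m1n1_K2
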