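import Pool.Agent.Helper25.KG.S1b
import Pool.Agent.Helper11.CT.Clo

set_option autoImplicit false
set_option linter.all false

namespace Helper48.Y.Y11_c2_P3_m0n0

open Helper25.KG Helper25.KW Helper55.KE Helper11.CT

noncomputable def K : Cls :=
  cE 1 [1] (kfY 1 [0,0,0,0,0,0,1,0,0,0,1])

noncomputable def base : List Con :=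
  [(false,[0,0,0,0,0,0,-2,0,0,1,-2]),
  (false,[0,0,0,0,0,1,0,0,0,-1,1]),
  (false,[0,0,0,0,0,1,0,0,0,0,-1]),
  (false,[0,0,0,0,1,0,0,0,-1,0,0,-1]),
  (false,[0,0,0,0,0,0,0,0,1,0,0,1]),
  (false,[0,0,0,0,0,0,0,0,0,1,0,-1]),
  (false,[0,0,0,0,0,0,0,0,0,0,0,1]),
  (false,[0,0,-1,0,0,0,-1,0,0,1,-1]),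
  (false,[0,1,0,0,0,0,1,1,0,0,1]),
  (false,[0,1,0,0,0,0,-1,-1,0,0,-1]),
  (false,[0,0,1,0,0,0,1,0,0,0,1]),
  (false,[0,0,1,0,0,0,-1,0,0,0,-1]),
  (false,[0,0,0,0,0,0,0,0,0,1,-1]),
  (false,[0,0,0,0,0,0,0,0,0,0,1]),
  (true,[-2,0,0,0,0,1]),
  (false,[0,0,0,0,1,0,0,0,0,-2]),
  (false,[0,0,0,0,0,-1,0,0,0,1]),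
  (true,[0,0,0,0,0,1]),
  (true,[0,2,-1]),
  (false,[1,0,0,0,0,3,0,0,0,-1]),
  (false,[3,0,0,0,-1,0,0,0,0,2]),
  (false,[-1,0,0,0,1,0,0,0,0,-2]),
  (true,[1,-1,1,1]),
  (true,[0,1,-1]),
  (true,[0,1,0,-1]),
  (true,[0,0,0,1]),
  (true,[0,0,-2,0,1]),
  (true,[0,-2,0,0,1]),
  (true,[-1,0,1]),
  (true,[-1,1])]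

noncomputable def l0 : List Con := (false, [0,0,2,0,-1,0,1,0,0,1,1]) :: base

noncomputable def r0 : List Con := (false, [0,0,-2,0,1,0,-1,0,0,-1,-1]) :: base

noncomputable def t0 : Tre :=
  (.Q [0,1,0,-1,-1,0,1,1,0,1,1] (.p true [1,-1,1] [] (⟨0,[(14,0),(2,0)]⟩,⟨0,[(3,0)]⟩) .k 0 (⟨0,[]⟩,
  ⟨0,[]⟩) .k .k) (.I [0,0,-2,-2,1,0,0,1] (.K ⟨0,[1,-1,1],(-1),(-1),(⟨0,[(16,0),(2,0)]⟩,⟨0,[(5,0)]⟩),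
  .k,(.r (-1) ⟨0,[(0,0)]⟩ ⟨0,[(12,0),(0,0),(11,0),(2,0)]⟩),.k,.k,.k,[⟨1,[(18,0),(10,0)]⟩,⟨0,[(2,
  0)]⟩,⟨1,[(6,0),(0,0),(4,1),(5,0),(9,1)]⟩,⟨0,[(1,0)]⟩]⟩) (.Q [0,0,0,0,0,0,-1,0,0,0,-1] (.p false
  [0,0,1] [] (⟨0,[(16,0)]⟩,⟨0,[(15,0)]⟩) .k 0 (⟨0,[]⟩,⟨0,[]⟩) .k .k) (.R ⟨0,false,false,false,[0,1,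
  -1],[0,1],[],(⟨0,[(6,0)]⟩,⟨0,[(17,0),(2,0)]⟩),(⟨0,[(21,0)]⟩,⟨0,[(20,0)]⟩),⟨0,[(17,0)]⟩,.k,.k,.k,
  .k,.k,.k,⟨true,1,⟨1,[(28,1),(1,0),(0,0)]⟩,⟨1,[(0,1),(0,1),(0,1),(16,0),(11,0)]⟩⟩,⟨false,1,⟨0,[(14,
  0),(15,0)]⟩,⟨0,[(0,0)]⟩⟩,⟨false,1,⟨0,[(2,0),(8,0),(7,0),(11,0)]⟩,⟨3,[(1,1),(11,1),(0,1),(15,0),(0,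
  0)]⟩⟩,⟨true,0,⟨1,[(2,1),(16,0),(9,1),(1,0)]⟩,⟨0,[(13,0)]⟩⟩,⟨false,0,⟨0,[]⟩,⟨0,[]⟩⟩,⟨false,0,⟨0,
  []⟩,⟨0,[]⟩⟩,[.e ⟨false,1,⟨1,[(7,0),(0,0),(21,0)]⟩,⟨0,[]⟩⟩ ⟨false,0,⟨1,[(1,1),(0,1),(16,0),(10,1),
  (0,0)]⟩,⟨1,[(11,1),(7,0),(8,1),(2,0)]⟩⟩,.o ⟨false,1,⟨1,[(19,0),(9,1),(1,0)]⟩,⟨0,[(28,0)]⟩⟩,.o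
  ⟨false,1,⟨0,[(11,0),(7,0)]⟩,⟨0,[(14,0)]⟩⟩,.a ⟨true,0,⟨0,[(0,0)]⟩,⟨0,[(3,0),(26,0)]⟩⟩ ⟨false,1,⟨1,
  [(30,0),(0,0)]⟩,⟨1,[(14,0),(0,0)]⟩⟩ ⟨true,0,⟨1,[(1,1),(0,1),(16,0),(10,1),(0,0)]⟩,⟨0,[(0,0),(27,
  0)]⟩⟩]⟩) (.R ⟨0,false,false,false,[1,0,-1],[1,-1],[0,1],(⟨0,[(16,0)]⟩,⟨0,[(17,0)]⟩),(⟨0,[(20,0)]⟩,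
  ⟨0,[(21,0)]⟩),⟨0,[(5,0)]⟩,.k,.k,.k,.k,.k,.k,⟨true,(-1),⟨0,[(1,0),(0,0),(8,0),(7,0)]⟩,⟨0,[(28,0),
  (2,0)]⟩⟩,⟨false,0,⟨0,[(0,0)]⟩,⟨3,[(4,1),(2,0),(0,0),(10,0),(10,1)]⟩⟩,⟨false,0,⟨0,[(2,0),(8,0),(7,
  0),(6,0)]⟩,⟨0,[(0,0),(12,0),(17,0)]⟩⟩,⟨true,0,⟨1,[(2,1),(16,0),(11,0)]⟩,⟨0,[(13,0),(15,0)]⟩⟩,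
  ⟨false,0,⟨0,[]⟩,⟨0,[]⟩⟩,⟨false,0,⟨0,[]⟩,⟨0,[]⟩⟩,[.e ⟨false,0,⟨0,[(27,0)]⟩,⟨1,[(7,0),(0,0),(22,
  0)]⟩⟩ ⟨false,1,⟨1,[(0,1),(27,1),(1,0),(0,0)]⟩,⟨1,[(1,0),(0,0),(8,2),(7,1),(6,0)]⟩⟩,.o ⟨false,1,⟨0,
  [(28,0),(2,0)]⟩,⟨1,[(1,0),(0,0),(8,0),(7,1),(7,0),(1,0)]⟩⟩,.a ⟨true,0,⟨12,[(3,2),(0,7),(2,0),(0,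
  0),(15,0),(5,2)]⟩,⟨0,[(0,0)]⟩⟩ ⟨true,0,⟨0,[(33,0)]⟩,⟨0,[]⟩⟩ ⟨false,1,⟨0,[(0,0),(27,0),(2,0)]⟩,⟨1,
  [(1,0),(0,0),(8,2),(7,1),(6,0)]⟩⟩,.o ⟨false,0,⟨0,[(15,0)]⟩,⟨1,[(0,1),(18,0),(10,0)]⟩⟩]⟩))) (.I [1,
  -1,2,2,-1] (.R ⟨2,true,false,true,[0,1],[1,-1],[0,1],(⟨0,[]⟩,⟨0,[]⟩),(⟨0,[(19,0)]⟩,⟨0,[(20,0)]⟩),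
  ⟨0,[]⟩,.k,.k,.k,(.r 1 ⟨0,[(0,0),(31,0)]⟩ ⟨0,[(27,1),(1,0),(0,0)]⟩),.k,.k,⟨false,0,⟨0,[(28,0)]⟩,⟨1,
  [(27,1),(1,0),(0,0)]⟩⟩,⟨true,(-1),⟨1,[(0,1),(22,0),(3,3),(2,0)]⟩,⟨1,[(18,0),(10,0)]⟩⟩,⟨false,1,⟨1,
  [(27,1),(1,0),(0,0)]⟩,⟨0,[(25,0)]⟩⟩,⟨true,0,⟨1,[(23,0),(3,3),(2,0)]⟩,⟨1,[(0,1),(17,0),(7,1),(2,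
  0)]⟩⟩,⟨true,0,⟨0,[(26,0)]⟩,⟨1,[(13,0),(0,0)]⟩⟩,⟨false,0,⟨1,[(23,0),(3,1),(2,0)]⟩,⟨1,[(18,0),(9,1),
  (1,0)]⟩⟩,[]⟩) (.Q [0,0,0,0,0,0,-1,-1,0,0,-1] (.p false [0,0,1] [] (⟨0,[(16,0)]⟩,⟨0,[(15,0)]⟩) .k
  0 (⟨0,[]⟩,⟨0,[]⟩) .k .k) (.I [1,-1,-2,-1,1] (.Q [0,0,0,0,0,0,1,0,0,0,1] (.p true [0,0,1] [] (⟨0,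
  [(18,0)]⟩,⟨0,[(17,0)]⟩) .k 0 (⟨0,[]⟩,⟨0,[]⟩) .k .k) (.R ⟨0,false,false,true,[0,1,-1],[0,1],[1,1],
  (⟨0,[(8,0)]⟩,⟨0,[(19,0),(2,0)]⟩),(⟨0,[(23,0)]⟩,⟨0,[(22,0)]⟩),⟨0,[(19,0)]⟩,.k,.k,.k,.k,.k,.k,
  ⟨false,1,⟨2,[(1,0),(1,0),(28,0)]⟩,⟨0,[(28,0),(6,0)]⟩⟩,⟨true,0,⟨0,[(0,0)]⟩,⟨0,[(17,0)]⟩⟩,⟨false,1,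
  ⟨0,[(1,0),(12,0),(2,0)]⟩,⟨0,[(0,0),(1,0),(25,0)]⟩⟩,⟨true,0,⟨0,[(14,0)]⟩,⟨0,[(2,0)]⟩⟩,⟨false,0,⟨0,
  []⟩,⟨0,[]⟩⟩,⟨false,0,⟨0,[]⟩,⟨0,[]⟩⟩,[.e ⟨false,0,⟨0,[(29,0)]⟩,⟨1,[(9,0),(0,0),(22,0)]⟩⟩ ⟨false,0,
  ⟨1,[(0,0),(15,0),(7,0),(6,1)]⟩,⟨0,[(1,0),(15,0)]⟩⟩,.a ⟨true,0,⟨0,[(31,0)]⟩,⟨2,[(1,0),(1,0),(1,1),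
  (0,0)]⟩⟩ ⟨true,0,⟨0,[]⟩,⟨1,[(16,0),(0,0)]⟩⟩ ⟨false,0,⟨0,[(0,0),(30,0)]⟩,⟨3,[(3,1),(2,1),(14,0),
  (11,0)]⟩⟩,.o ⟨false,1,⟨0,[(13,0),(7,0)]⟩,⟨0,[(16,0)]⟩⟩,.o ⟨false,1,⟨3,[(6,1),(2,0),(0,0),(10,2)]⟩,
  ⟨0,[(0,0)]⟩⟩]⟩) (.I [1,0,0,1,0,0,0,1] (.R ⟨0,false,false,true,[1,-1],[0,0,1],[0,1,-1,-2],(⟨0,[(23,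
  0)]⟩,⟨0,[(24,0)]⟩),(⟨0,[(20,0)]⟩,⟨0,[(19,0)]⟩),⟨0,[(8,0),(0,0)]⟩,.k,.k,(.r (-1) ⟨0,[(2,0),(28,
  0)]⟩ ⟨0,[(29,1),(6,1)]⟩),.k,.k,.k,⟨false,1,⟨1,[(2,2),(0,1),(2,1),(15,0),(7,1),(0,0)]⟩,⟨0,[(0,0),
  (28,0),(6,0)]⟩⟩,⟨true,1,⟨0,[(2,0),(3,0),(15,0),(7,0),(1,0)]⟩,⟨0,[(1,1),(4,0)]⟩⟩,⟨true,0,⟨0,[(31,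
  0)]⟩,⟨0,[(32,0)]⟩⟩,⟨false,1,⟨1,[(15,1),(6,0),(9,1),(1,0)]⟩,⟨0,[(1,0),(0,0),(0,0),(2,0)]⟩⟩,⟨false,
  0,⟨0,[]⟩,⟨0,[]⟩⟩,⟨false,0,⟨0,[]⟩,⟨0,[]⟩⟩,[.e ⟨false,1,⟨0,[(4,0)]⟩,⟨0,[(29,0),(2,0)]⟩⟩ ⟨false,1,⟨0,
  [(0,0),(1,0),(3,0),(15,0),(7,1)]⟩,⟨7,[(3,5),(2,3),(0,1),(8,1),(10,0),(6,4)]⟩⟩,.o ⟨false,1,⟨1,[(15,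
  1),(6,0),(11,0)]⟩,⟨0,[(3,0)]⟩⟩,.o ⟨false,0,⟨1,[(17,0),(0,0)]⟩,⟨1,[(22,0),(10,0)]⟩⟩,.a ⟨true,(-1),
  ⟨0,[(1,0),(4,0)]⟩,⟨0,[(33,0)]⟩⟩ ⟨false,1,⟨0,[(2,0),(28,0)]⟩,⟨0,[(29,1),(6,0)]⟩⟩ ⟨true,1,⟨0,[(0,0),
  (1,0),(3,0),(15,0),(7,1)]⟩,⟨0,[(1,0),(1,0),(2,0)]⟩⟩]⟩) (.R ⟨0,false,false,true,[1,0,-1],[0,1],[0,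
  1,0,-1,0,0,0,-1],(⟨0,[(19,0)]⟩,⟨0,[(20,0)]⟩),(⟨0,[(24,0)]⟩,⟨0,[(23,0)]⟩),⟨0,[(8,0)]⟩,.k,.k,.k,.k,
  .k,.k,⟨false,1,⟨2,[(0,2),(1,0),(1,0),(28,0)]⟩,⟨0,[(1,0),(13,0),(13,0),(2,0)]⟩⟩,⟨true,1,⟨0,[(2,0),
  (3,0),(15,0),(7,0),(1,0)]⟩,⟨0,[(1,1),(4,0)]⟩⟩,⟨true,0,⟨0,[(31,0)]⟩,⟨0,[(32,0)]⟩⟩,⟨false,1,⟨1,[(15,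
  1),(6,0),(9,1),(1,0)]⟩,⟨1,[(0,1),(0,1),(25,0),(6,0)]⟩⟩,⟨false,0,⟨0,[]⟩,⟨0,[]⟩⟩,⟨false,0,⟨0,[]⟩,⟨0,
  []⟩⟩,[.e ⟨false,0,⟨0,[(0,0),(29,0)]⟩,⟨0,[(1,0),(13,0),(16,0),(1,0)]⟩⟩ ⟨false,1,⟨1,[(17,1),(4,0),
  (7,1),(1,1),(0,0)]⟩,⟨0,[(1,1),(0,0),(3,0)]⟩⟩,.a ⟨true,0,⟨0,[(32,0)]⟩,⟨2,[(2,0),(1,0),(1,1),(0,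
  0)]⟩⟩ ⟨true,0,⟨0,[(0,0)]⟩,⟨0,[(1,0),(13,0),(13,0)]⟩⟩ ⟨false,1,⟨0,[(2,0),(3,0),(15,0),(7,0),(1,
  1)]⟩,⟨1,[(1,0),(0,0),(3,0),(0,0),(23,0)]⟩⟩,.o ⟨false,0,⟨0,[(1,0)]⟩,⟨1,[(17,1),(4,0),(10,0)]⟩⟩,.o
  ⟨false,0,⟨0,[(18,0)]⟩,⟨0,[(2,0),(3,0),(15,0),(7,0),(1,0)]⟩⟩]⟩))) (.I [1,-1,1,1,0,0,0,-1] (.I [1,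
  -1,0,0,1,0,0,1] (.I [0,0,2,2,-1,0,0,-1] (.Q [0,1,0,1,0,0,-1,-1,0,-1,-1] (.p false [1,-1,1] [] (⟨0,
  [(21,0),(2,0)]⟩,⟨0,[(10,0)]⟩) .k 0 (⟨0,[]⟩,⟨0,[]⟩) .k .k) (.K ⟨0,[1,-1,1],(-1),0,(⟨0,[(22,0),(2,
  0)]⟩,⟨0,[(11,0)]⟩),.k,(.r (-2) ⟨0,[(2,0),(3,0)]⟩ ⟨0,[(1,0)]⟩),.k,.k,.k,[⟨1,[(24,0),(10,0)]⟩,⟨0,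
  [(8,0)]⟩,⟨0,[(0,0)]⟩,⟨1,[(17,1),(11,0),(3,1),(2,0)]⟩]⟩) (.R ⟨0,false,false,true,[0,1,-1],[0,1],[1,
  0,1,0,0,0,0,-1],(⟨0,[(11,0)]⟩,⟨0,[(22,0),(2,0)]⟩),(⟨0,[(26,0)]⟩,⟨0,[(25,0)]⟩),⟨0,[(22,0)]⟩,.k,.k,
  .k,.k,.k,.k,⟨false,1,⟨0,[(0,1),(2,0),(1,1),(18,0),(7,1)]⟩,⟨0,[(0,0),(3,0),(11,0),(7,0),(7,0),(1,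
  0)]⟩⟩,⟨true,0,⟨0,[(0,1),(0,0),(3,0),(18,0),(7,1)]⟩,⟨0,[(20,0)]⟩⟩,⟨false,1,⟨0,[(33,0),(2,0)]⟩,⟨0,
  [(34,0)]⟩⟩,⟨true,0,⟨0,[(17,0)]⟩,⟨0,[(5,0)]⟩⟩,⟨false,0,⟨0,[]⟩,⟨0,[]⟩⟩,⟨false,0,⟨0,[]⟩,⟨0,[]⟩⟩,[.e
  ⟨false,0,⟨0,[(0,1),(0,0),(3,1),(18,0),(7,1)]⟩,⟨3,[(2,1),(13,1),(0,1),(6,0),(10,0)]⟩⟩ ⟨false,0,⟨1,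
  [(1,0),(15,0),(1,0),(12,0),(2,0)]⟩,⟨0,[(0,0),(4,0),(10,0),(7,0)]⟩⟩,.a ⟨true,0,⟨0,[(34,0)]⟩,⟨9,[(0,
  1),(4,1),(0,3),(1,3),(0,1),(19,0),(6,0)]⟩⟩ ⟨true,0,⟨0,[(0,1),(0,0),(3,1),(18,0),(7,0)]⟩,⟨0,[(0,0),
  (3,0),(11,0),(7,0),(7,0)]⟩⟩ ⟨false,0,⟨1,[(0,1),(0,1),(22,0),(7,1),(2,0)]⟩,⟨3,[(6,1),(2,1),(14,0),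
  (11,0)]⟩⟩,.o ⟨false,1,⟨0,[(16,0),(7,0)]⟩,⟨0,[(19,0)]⟩⟩,.o ⟨false,1,⟨2,[(2,0),(6,0),(8,0),(5,1)]⟩,
  ⟨0,[(0,1),(0,0),(3,0),(18,0),(7,1)]⟩⟩]⟩)) (.I [0,0,-2,0,1,-2,-1] (.Q [0,1,0,1,0,0,-1,-1,0,-1,-1]
  (.p false [1,-1,1] [] (⟨0,[(22,0),(2,0)]⟩,⟨0,[(11,0)]⟩) .k 0 (⟨0,[]⟩,⟨0,[]⟩) .k .k) (.K ⟨0,[1,-1,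
  1],(-1),0,(⟨0,[(23,0),(2,0)]⟩,⟨0,[(12,0)]⟩),.k,(.x 0 ⟨7,[(12,3),(7,10),(0,2),(0,3),(6,3),(8,1)]⟩
  ⟨0,[(1,0)]⟩),.k,.k,.k,[⟨1,[(25,0),(10,0)]⟩,⟨0,[(9,0)]⟩,⟨0,[(0,0)]⟩,⟨27,[(2,1),(0,4),(3,11),(1,14),
  (0,2),(6,1),(0,20),(11,3)]⟩]⟩) (.R ⟨1,false,false,false,[1,-1,1],[0,0,1],[1,0,-1,-2,0,0,0,1],(⟨0,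
  [(23,0),(2,0)]⟩,⟨0,[(12,0)]⟩),(⟨0,[(23,0)]⟩,⟨0,[(22,0)]⟩),⟨0,[(1,0),(7,0)]⟩,.k,.k,(.x 0 ⟨7,[(12,
  3),(7,10),(0,2),(0,3),(6,3),(8,1)]⟩ ⟨0,[(1,0)]⟩),.k,(.r (-1) ⟨0,[(0,1),(5,1),(18,0),(7,1)]⟩ ⟨4,
  [(3,1),(0,1),(0,3),(7,1),(0,1),(20,3)]⟩),.k,⟨false,1,⟨0,[(0,1),(5,1),(18,0),(7,1)]⟩,⟨4,[(3,0),(0,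
  0),(0,1),(7,0),(0,0),(20,6)]⟩⟩,⟨true,1,⟨1,[(25,0),(10,0)]⟩,⟨0,[(0,0),(4,0),(0,0)]⟩⟩,⟨false,1,⟨0,
  [(34,0),(2,0)]⟩,⟨0,[(35,0)]⟩⟩,⟨false,1,⟨1,[(25,0),(9,1),(1,0)]⟩,⟨9,[(0,1),(5,1),(0,3),(1,3),(0,1),
  (19,0),(6,0)]⟩⟩,⟨true,0,⟨0,[]⟩,⟨0,[(39,0)]⟩⟩,⟨false,1,⟨1,[(25,0),(9,3),(1,0)]⟩,⟨0,[(2,0),(3,0),(2,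
  0)]⟩⟩,[.o ⟨false,1,⟨1,[(18,1),(6,0),(11,0)]⟩,⟨0,[(6,0)]⟩⟩,.o ⟨false,1,⟨0,[(0,0),(24,0),(9,0)]⟩,⟨0,
  [(19,0)]⟩⟩,.o ⟨false,0,⟨0,[(20,0)]⟩,⟨0,[(17,0),(7,0)]⟩⟩,.a ⟨true,(-1),⟨0,[(9,0)]⟩,⟨1,[(17,1),(7,
  0),(10,0)]⟩⟩ ⟨true,1,⟨0,[(2,0)]⟩,⟨0,[(4,0),(0,0),(27,0)]⟩⟩ ⟨false,2,⟨1,[(2,1),(22,0),(9,3),(1,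
  0)]⟩,⟨0,[(6,0),(2,0)]⟩⟩]⟩)) (.Q [0,0,0,0,0,0,-1,0,0,0,-1] (.p false [0,0,1] [] (⟨0,[(22,0)]⟩,⟨0,
  [(21,0)]⟩) .k 0 (⟨0,[]⟩,⟨0,[]⟩) .k .k) (.Q [0,-1,0,0,1,0,1,1,0,-1,1] (.p true [0,0,1] [1] (⟨0,
  [(23,0)]⟩,⟨0,[(22,0)]⟩) .k 1 (⟨0,[]⟩,⟨0,[]⟩) .k .k) (.R ⟨0,false,false,true,[0,1,-1],[1,0,-1],[1,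
  0,1,1,0,0,0,-1],(⟨0,[(13,0)]⟩,⟨0,[(24,0),(2,0)]⟩),(⟨0,[(23,0)]⟩,⟨0,[(24,0)]⟩),⟨0,[(24,0)]⟩,.k,.k,
  .k,.k,.k,.k,⟨true,0,⟨0,[(33,0)]⟩,⟨0,[(35,0)]⟩⟩,⟨false,0,⟨12,[(10,5),(0,2),(2,1),(0,1),(15,1),(5,
  5)]⟩,⟨1,[(26,0),(10,0)]⟩⟩,⟨true,0,⟨0,[]⟩,⟨0,[(40,0)]⟩⟩,⟨false,0,⟨5,[(3,0),(3,0),(0,1),(1,2),(0,0),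
  (19,0),(6,0)]⟩,⟨1,[(0,0),(8,0),(26,0)]⟩⟩,⟨false,0,⟨0,[]⟩,⟨0,[]⟩⟩,⟨false,0,⟨0,[]⟩,⟨0,[]⟩⟩,[.o
  ⟨false,0,⟨0,[(20,0)]⟩,⟨0,[(0,0)]⟩⟩,.o ⟨false,0,⟨0,[(7,0)]⟩,⟨3,[(0,1),(13,0),(0,0),(3,1),(6,0)]⟩⟩,
  .o ⟨false,1,⟨0,[(18,0),(7,0)]⟩,⟨0,[(21,0)]⟩⟩,.a ⟨true,0,⟨0,[(1,0)]⟩,⟨0,[(10,0),(26,0)]⟩⟩ ⟨true,0,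
  ⟨0,[(5,0),(28,0)]⟩,⟨0,[(3,0),(2,0)]⟩⟩ ⟨false,0,⟨13,[(5,11),(2,5),(1,1),(9,1),(4,1),(1,1),(1,1),(1,
  4),(5,0)]⟩,⟨0,[(0,0),(0,0)]⟩⟩]⟩) (.I [0,0,2,0,-1,2,1] (.K ⟨0,[1,-1,1],(-1),0,(⟨0,[(25,0),(2,0)]⟩,
  ⟨0,[(14,0)]⟩),.k,(.x 1 ⟨0,[(0,0)]⟩ ⟨1,[(19,1),(5,1),(1,2),(0,3),(9,0)]⟩),.k,.k,.k,[⟨1,[(27,0),(10,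
  0)]⟩,⟨0,[(11,0)]⟩,⟨0,[(1,0),(25,0),(9,0)]⟩,⟨27,[(4,1),(0,4),(3,11),(1,14),(0,2),(6,1),(0,20),(11,
  3)]⟩]⟩) (.Q [0,0,0,-1,0,0,-1,0,0,0,-1] (.p false [0,0,1] [] (⟨0,[(25,0)]⟩,⟨0,[(24,0)]⟩) .k 0 (⟨0,
  []⟩,⟨0,[]⟩) .k .k) (.I [0,-1,1,1] (.R ⟨0,false,false,false,[0,1,-1],[0,1],[1,1,1],(⟨0,[(16,0)]⟩,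
  ⟨0,[(27,0),(2,0)]⟩),(⟨0,[(31,0)]⟩,⟨0,[(30,0)]⟩),⟨0,[(27,0)]⟩,.k,.k,.k,.k,.k,.k,⟨true,0,⟨0,[(38,
  0)]⟩,⟨0,[(0,0)]⟩⟩,⟨false,1,⟨0,[(24,0),(15,0)]⟩,⟨0,[(4,0)]⟩⟩,⟨true,0,⟨0,[(6,0),(2,0)]⟩,⟨0,[(8,0),
  (28,0)]⟩⟩,⟨false,1,⟨0,[(22,0),(18,0)]⟩,⟨0,[(10,0)]⟩⟩,⟨false,0,⟨0,[]⟩,⟨0,[]⟩⟩,⟨false,0,⟨0,[]⟩,⟨0,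
  []⟩⟩,[.a ⟨true,0,⟨0,[(39,0)]⟩,⟨13,[(1,1),(9,5),(1,5),(0,1),(19,2),(6,2)]⟩⟩ ⟨false,0,⟨0,[(43,0)]⟩,
  ⟨1,[(40,0),(0,0)]⟩⟩ ⟨true,0,⟨0,[(8,0),(13,0)]⟩,⟨0,[(1,0)]⟩⟩,.o ⟨false,1,⟨1,[(29,0),(9,1),(1,0)]⟩,
  ⟨0,[(38,0)]⟩⟩,.o ⟨false,1,⟨0,[(21,0),(7,0)]⟩,⟨0,[(24,0)]⟩⟩,.e ⟨false,0,⟨0,[]⟩,⟨1,[(17,0),(0,0),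
  (22,0)]⟩⟩ ⟨false,1,⟨1,[(8,1),(13,1),(17,0),(0,0)]⟩,⟨0,[(1,0)]⟩⟩]⟩) (.Q [0,1,0,1,0,0,0,0,0,-1]
  (.pp true [-1,1]) (.I [0,0,-2,-2,1,0,0,1] (.K ⟨0,[1,-1,1],(-1),0,(⟨0,[(29,0),(2,0)]⟩,⟨0,[(18,
  0)]⟩),.k,(.r (-1) ⟨0,[(0,0)]⟩ ⟨4,[(10,4),(0,2),(7,2),(0,2),(13,0),(6,1)]⟩),.k,.k,.k,[⟨1,[(31,0),
  (10,0)]⟩,⟨0,[(15,0)]⟩,⟨2,[(1,1),(3,1),(8,0),(16,0)]⟩,⟨59,[(0,3),(8,10),(3,25),(1,30),(0,6),(6,1),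
  (0,44),(11,9)]⟩]⟩) (.R ⟨0,false,false,true,[0,0,1],[-1,1,1],[0,1],(⟨0,[(29,0)]⟩,⟨0,[(28,0)]⟩),(⟨0,
  [(17,0)]⟩,⟨0,[(28,0),(3,0)]⟩),⟨0,[(18,0)]⟩,.k,.k,.k,.k,.k,.k,⟨false,1,⟨1,[(2,2),(5,0),(1,2),(31,
  0)]⟩,⟨0,[(6,0),(17,0),(13,0)]⟩⟩,⟨true,1,⟨1,[(31,0),(10,0)]⟩,⟨12,[(3,5),(7,2),(3,8),(0,0),(6,0),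
  (12,0),(1,2)]⟩⟩,⟨false,0,⟨0,[(0,0),(1,1),(40,0)]⟩,⟨0,[(9,0)]⟩⟩,⟨true,0,⟨0,[(1,0)]⟩,⟨13,[(3,1),(9,
  5),(1,5),(0,1),(19,2),(6,2)]⟩⟩,⟨false,0,⟨0,[]⟩,⟨0,[]⟩⟩,⟨false,0,⟨0,[]⟩,⟨0,[]⟩⟩,[.o ⟨false,1,⟨1,
  [(1,1),(22,1),(6,0),(11,0)]⟩,⟨1,[(0,1),(1,3),(0,1),(32,0),(6,2)]⟩⟩,.e ⟨false,1,⟨1,[(19,0),(0,0),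
  (21,0)]⟩,⟨0,[]⟩⟩ ⟨false,1,⟨0,[(1,0),(6,0),(29,0),(2,0)]⟩,⟨1,[(5,0),(2,0),(1,1),(2,0),(1,0)]⟩⟩,.o
  ⟨false,1,⟨1,[(26,1),(4,0),(10,0)]⟩,⟨0,[(6,0)]⟩⟩,.a ⟨true,0,⟨0,[(26,0)]⟩,⟨0,[(23,0)]⟩⟩ ⟨true,0,⟨0,
  [(39,0)]⟩,⟨1,[(26,0),(0,0)]⟩⟩ ⟨false,1,⟨0,[(1,0),(6,0),(29,0),(2,0)]⟩,⟨3,[(3,1),(1,0),(2,2),(1,5),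
  (2,0),(1,2)]⟩⟩]⟩)) (.R ⟨0,false,false,true,[0,1,-1],[0,1],[1],(⟨0,[(17,0)]⟩,⟨0,[(28,0),(2,0)]⟩),
  (⟨0,[(32,0)]⟩,⟨0,[(31,0)]⟩),⟨0,[(28,0)]⟩,.k,.k,.k,.k,.k,.k,⟨true,1,⟨0,[(7,0),(1,0)]⟩,⟨0,[(10,
  0)]⟩⟩,⟨false,1,⟨0,[(25,0),(15,0)]⟩,⟨0,[(5,0)]⟩⟩,⟨false,1,⟨0,[(7,0),(29,0)]⟩,⟨6,[(9,5),(0,0),(7,0),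
  (0,0),(4,0),(0,0),(7,1)]⟩⟩,⟨true,0,⟨0,[(23,0)]⟩,⟨0,[(11,0)]⟩⟩,⟨false,0,⟨0,[]⟩,⟨0,[]⟩⟩,⟨false,0,⟨0,
  []⟩,⟨0,[]⟩⟩,[.a ⟨true,0,⟨4,[(10,0),(7,0),(0,0),(13,1),(6,3)]⟩,⟨0,[(0,0)]⟩⟩ ⟨true,0,⟨0,[]⟩,⟨1,[(25,
  0),(0,0)]⟩⟩ ⟨false,0,⟨0,[(9,0),(13,0),(14,0)]⟩,⟨4,[(0,0),(1,1),(4,1),(5,1),(8,0),(19,0)]⟩⟩,.a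
  ⟨true,0,⟨0,[(40,0)]⟩,⟨9,[(0,1),(11,3),(1,3),(0,1),(19,0),(6,0)]⟩⟩ ⟨false,1,⟨1,[(41,0),(0,0)]⟩,⟨0,
  [(44,0)]⟩⟩ ⟨true,0,⟨0,[(9,0),(13,0)]⟩,⟨0,[(2,0)]⟩⟩,.o ⟨false,1,⟨0,[(22,0),(7,0)]⟩,⟨0,[(25,0)]⟩⟩,
  .a ⟨true,0,⟨0,[(5,0)]⟩,⟨0,[(14,0),(26,0)]⟩⟩ ⟨false,1,⟨1,[(41,0),(0,0)]⟩,⟨1,[(25,0),(0,0)]⟩⟩ ⟨true,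
  0,⟨0,[(9,0),(13,0),(14,0)]⟩,⟨0,[(2,0)]⟩⟩]⟩))) (.I [1,1,-1,-1] (.I [1,0,0,-1,0,0,0,-1] (.R ⟨0,
  false,false,false,[1,0,-1],[1,-1],[0,0,1],(⟨0,[(27,0)]⟩,⟨0,[(28,0)]⟩),(⟨0,[(31,0)]⟩,⟨0,[(32,0)]⟩),
  ⟨0,[(16,0)]⟩,.k,.k,.k,.k,.k,.k,⟨false,0,⟨8,[(2,2),(5,1),(0,0),(0,3),(2,0),(1,0),(2,0),(0,0)]⟩,⟨2,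
  [(0,0),(6,0),(33,1)]⟩⟩,⟨true,0,⟨0,[(25,0)]⟩,⟨0,[(5,0)]⟩⟩,⟨true,0,⟨0,[(7,0),(2,0),(26,0)]⟩,⟨4,[(0,
  2),(1,1),(1,0),(8,0),(24,4)]⟩⟩,⟨false,1,⟨3,[(7,1),(6,1),(8,1),(6,0),(11,2)]⟩,⟨1,[(4,0),(8,0),(26,
  0)]⟩⟩,⟨false,0,⟨0,[]⟩,⟨0,[]⟩⟩,⟨false,0,⟨0,[]⟩,⟨0,[]⟩⟩,[.a ⟨true,0,⟨17,[(0,1),(6,1),(4,5),(1,7),(0,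
  3),(19,2),(6,2)]⟩,⟨0,[(40,0)]⟩⟩ ⟨true,0,⟨1,[(25,0),(0,0)]⟩,⟨0,[]⟩⟩ ⟨false,1,⟨6,[(0,0),(1,3),(4,0),
  (4,3),(12,2),(16,1)]⟩,⟨0,[(5,0),(34,0)]⟩⟩,.e ⟨false,1,⟨1,[(18,0),(0,0),(22,0)]⟩,⟨0,[(38,0)]⟩⟩
  ⟨false,1,⟨0,[(0,0),(1,0),(4,0),(29,0)]⟩,⟨4,[(5,0),(4,0),(4,1),(14,0),(2,1),(6,3)]⟩⟩,.o ⟨false,0,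
  ⟨0,[(5,0)]⟩,⟨1,[(25,1),(4,0),(10,0)]⟩⟩,.o ⟨false,0,⟨0,[(26,0)]⟩,⟨5,[(0,1),(1,5),(4,1),(22,2),(10,
  0)]⟩⟩]⟩) (.R ⟨0,false,false,true,[1,0,-1],[1,-1],[0,1,1],(⟨0,[(27,0)]⟩,⟨0,[(28,0)]⟩),(⟨0,[(31,
  0)]⟩,⟨0,[(32,0)]⟩),⟨0,[(16,0)]⟩,.k,.k,.k,.k,.k,.k,⟨false,0,⟨8,[(2,2),(5,1),(0,0),(0,3),(2,0),(1,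
  0),(2,0),(0,0)]⟩,⟨1,[(1,0),(5,0),(1,0),(31,0)]⟩⟩,⟨true,0,⟨0,[(25,0)]⟩,⟨0,[(5,0)]⟩⟩,⟨false,0,⟨2,
  [(0,1),(4,0),(1,0),(6,1),(11,0),(3,0)]⟩,⟨1,[(1,0),(5,0),(1,2),(31,0)]⟩⟩,⟨true,0,⟨2,[(0,0),(0,1),
  (5,0),(6,1),(8,0),(6,0)]⟩,⟨1,[(4,0),(8,0),(26,0)]⟩⟩,⟨false,0,⟨0,[]⟩,⟨0,[]⟩⟩,⟨false,0,⟨0,[]⟩,⟨0,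
  []⟩⟩,[.o ⟨false,0,⟨0,[(39,0)]⟩,⟨2,[(0,0),(1,0),(10,0),(16,0),(11,0)]⟩⟩,.a ⟨true,0,⟨11,[(4,1),(2,
  1),(4,3),(1,5),(0,1),(19,0),(6,2)]⟩,⟨0,[(40,0)]⟩⟩ ⟨true,0,⟨1,[(25,0),(0,0)]⟩,⟨0,[]⟩⟩ ⟨false,1,⟨1,
  [(2,0),(4,0),(1,0),(2,0),(12,0)]⟩,⟨2,[(0,1),(3,0),(0,0),(7,0)]⟩⟩,.o ⟨false,0,⟨0,[(5,0)]⟩,⟨1,[(25,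
  1),(4,0),(10,0)]⟩⟩,.o ⟨false,0,⟨0,[(26,0)]⟩,⟨1,[(1,0),(0,1),(4,0),(1,0),(20,0)]⟩⟩]⟩)) (.R ⟨0,
  false,false,false,[0,1,-1],[0,1],[1,1,1],(⟨0,[(16,0)]⟩,⟨0,[(27,0),(2,0)]⟩),(⟨0,[(31,0)]⟩,⟨0,[(30,
  0)]⟩),⟨0,[(27,0)]⟩,.k,.k,.k,.k,.k,.k,⟨true,0,⟨0,[(38,0)]⟩,⟨0,[(0,0)]⟩⟩,⟨false,1,⟨0,[(24,0),(15,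
  0)]⟩,⟨0,[(4,0)]⟩⟩,⟨true,0,⟨0,[(6,0),(2,0)]⟩,⟨3,[(1,1),(1,1),(4,1),(20,0),(10,0)]⟩⟩,⟨false,1,⟨0,
  [(22,0),(18,0)]⟩,⟨0,[(10,0)]⟩⟩,⟨false,0,⟨0,[]⟩,⟨0,[]⟩⟩,⟨false,0,⟨0,[]⟩,⟨0,[]⟩⟩,[.e ⟨false,0,⟨0,
  [(43,0)]⟩,⟨1,[(40,0),(0,0)]⟩⟩ ⟨false,0,⟨0,[(1,0)]⟩,⟨3,[(11,1),(2,1),(14,0),(11,0)]⟩⟩,.o ⟨false,1,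
  ⟨1,[(29,0),(9,1),(1,0)]⟩,⟨0,[(38,0)]⟩⟩,.o ⟨false,1,⟨0,[(21,0),(7,0)]⟩,⟨0,[(24,0)]⟩⟩,.a ⟨true,0,⟨0,
  [(4,0)]⟩,⟨0,[(13,0),(26,0)]⟩⟩ ⟨false,0,⟨0,[]⟩,⟨1,[(17,0),(0,0),(22,0)]⟩⟩ ⟨true,0,⟨0,[(1,0)]⟩,⟨0,
  [(4,0),(33,0)]⟩⟩]⟩))))) (.R ⟨0,false,false,true,[0,1,-1],[0,1],[1,1],(⟨0,[(12,0)]⟩,⟨0,[(23,0),(2,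
  0)]⟩),(⟨0,[(27,0)]⟩,⟨0,[(26,0)]⟩),⟨0,[(23,0)]⟩,.k,.k,.k,.k,.k,.k,⟨false,1,⟨1,[(0,0),(1,0),(3,0),
  (29,0)]⟩,⟨4,[(3,0),(0,0),(0,1),(7,0),(0,0),(20,1)]⟩⟩,⟨true,0,⟨0,[(0,0)]⟩,⟨0,[(21,0)]⟩⟩,⟨false,1,
  ⟨15,[(2,4),(0,6),(3,2),(2,1),(7,3),(6,0)]⟩,⟨0,[(0,0),(5,0),(25,0)]⟩⟩,⟨true,0,⟨0,[(18,0)]⟩,⟨0,[(6,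
  0)]⟩⟩,⟨false,0,⟨0,[]⟩,⟨0,[]⟩⟩,⟨false,0,⟨0,[]⟩,⟨0,[]⟩⟩,[.e ⟨false,0,⟨0,[(33,0)]⟩,⟨1,[(13,0),(0,0),
  (22,0)]⟩⟩ ⟨false,0,⟨1,[(0,0),(3,0),(13,0),(9,0),(6,0)]⟩,⟨0,[(2,0),(3,0),(25,0)]⟩⟩,.a ⟨true,0,⟨0,
  [(35,0)]⟩,⟨5,[(2,0),(3,0),(0,1),(1,2),(0,0),(19,0),(6,0)]⟩⟩ ⟨true,0,⟨0,[]⟩,⟨1,[(20,0),(0,0)]⟩⟩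
  ⟨false,0,⟨0,[(0,0),(34,0)]⟩,⟨3,[(7,1),(2,1),(14,0),(11,0)]⟩⟩,.o ⟨false,1,⟨0,[(17,0),(7,0)]⟩,⟨0,
  [(20,0)]⟩⟩,.o ⟨false,1,⟨2,[(3,0),(6,0),(8,0),(5,1)]⟩,⟨0,[(0,0)]⟩⟩]⟩)))) (.R ⟨2,true,false,true,[0,
  1],[0,0,1],[1,1,0,0,0,0,0,1],(⟨0,[]⟩,⟨0,[]⟩),(⟨0,[(20,0)]⟩,⟨0,[(19,0)]⟩),⟨0,[]⟩,.k,.k,.k,.k,.k,.k,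
  ⟨true,0,⟨0,[]⟩,⟨1,[(17,0),(0,0)]⟩⟩,⟨false,0,⟨0,[(0,0),(14,0),(18,0)]⟩,⟨3,[(7,1),(2,0),(0,0),(10,
  0),(10,1)]⟩⟩,⟨true,1,⟨3,[(4,1),(2,1),(7,3),(6,0),(11,0)]⟩,⟨0,[(0,0),(28,0)]⟩⟩,⟨false,1,⟨0,[(15,0),
  (15,0),(2,0)]⟩,⟨1,[(0,1),(13,1),(7,0),(6,1),(4,0)]⟩⟩,⟨false,1,⟨1,[(14,1),(0,1),(6,0),(11,0)]⟩,⟨3,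
  [(0,1),(2,1),(2,1),(15,0),(11,2)]⟩⟩,⟨true,0,⟨0,[(15,0)]⟩,⟨0,[(3,0)]⟩⟩,[]⟩)) (.R ⟨0,false,false,
  true,[0,0,1],[1,-1,1],[1,0,1],(⟨0,[(19,0)]⟩,⟨0,[(18,0)]⟩),(⟨0,[(19,0),(2,0)]⟩,⟨0,[(8,0)]⟩),⟨0,[(8,
  0)]⟩,.k,.k,.k,.k,.k,.k,⟨true,0,⟨0,[(4,0),(0,0)]⟩,⟨0,[(0,0)]⟩⟩,⟨false,0,⟨12,[(5,5),(0,2),(2,1),(0,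
  1),(15,1),(5,5)]⟩,⟨1,[(21,0),(10,0)]⟩⟩,⟨true,0,⟨0,[(2,0),(13,0)]⟩,⟨0,[(0,0),(30,0)]⟩⟩,⟨false,0,⟨1,
  [(26,0),(3,1),(2,0)]⟩,⟨1,[(21,0),(9,1),(1,0)]⟩⟩,⟨false,0,⟨0,[]⟩,⟨0,[]⟩⟩,⟨false,0,⟨0,[]⟩,⟨0,[]⟩⟩,
  [.o ⟨false,0,⟨0,[(0,0),(15,0)]⟩,⟨0,[(4,0)]⟩⟩,.e ⟨false,1,⟨1,[(9,0),(0,0),(22,0)]⟩,⟨0,[(29,0)]⟩⟩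
  ⟨false,0,⟨1,[(0,1),(25,0),(6,0)]⟩,⟨0,[(4,0),(11,0),(12,0)]⟩⟩,.o ⟨false,1,⟨1,[(16,1),(4,0),(10,
  0)]⟩,⟨0,[(0,0),(1,0),(25,0)]⟩⟩,.a ⟨true,0,⟨0,[(16,0)]⟩,⟨0,[(13,0)]⟩⟩ ⟨true,0,⟨0,[]⟩,⟨0,[(35,0)]⟩⟩
  ⟨false,0,⟨1,[(0,1),(25,0),(6,0)]⟩,⟨0,[(4,0),(11,0)]⟩⟩]⟩))) (.Q [0,0,0,0,0,0,1,0,0,0,1] (.p true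
  [0,0,1] [] (⟨0,[(17,0)]⟩,⟨0,[(16,0)]⟩) .k 0 (⟨0,[]⟩,⟨0,[]⟩) .k .k) (.Q [0,-1,-2,-1,1,0,1,1,0,0,1]
  (.p true [0,0,1] [] (⟨0,[(18,0)]⟩,⟨0,[(17,0)]⟩) .k 0 (⟨0,[]⟩,⟨0,[]⟩) .k .k) (.R ⟨0,false,false,
  false,[0,1,-1],[0,1],[1],(⟨0,[(8,0)]⟩,⟨0,[(19,0),(2,0)]⟩),(⟨0,[(23,0)]⟩,⟨0,[(22,0)]⟩),⟨0,[(19,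
  0)]⟩,.k,.k,.k,.k,.k,.k,⟨false,1,⟨0,[(0,0),(14,0)]⟩,⟨0,[(28,0),(6,0)]⟩⟩,⟨true,0,⟨0,[(1,0)]⟩,⟨0,
  [(17,0)]⟩⟩,⟨false,1,⟨0,[(0,0),(16,0)]⟩,⟨1,[(1,0),(2,0),(0,0),(9,0),(15,0)]⟩⟩,⟨true,0,⟨0,[(2,0)]⟩,
  ⟨0,[(15,0)]⟩⟩,⟨false,0,⟨0,[]⟩,⟨0,[]⟩⟩,⟨false,0,⟨0,[]⟩,⟨0,[]⟩⟩,[.a ⟨true,0,⟨0,[(31,0)]⟩,⟨1,[(26,0),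
  (3,1),(2,0)]⟩⟩ ⟨true,0,⟨0,[]⟩,⟨1,[(16,0),(0,0)]⟩⟩ ⟨false,0,⟨0,[(1,0),(29,0)]⟩,⟨3,[(3,1),(2,1),(14,
  0),(11,0)]⟩⟩,.o ⟨false,1,⟨1,[(21,0),(9,1),(1,0)]⟩,⟨0,[(30,0)]⟩⟩,.o ⟨false,1,⟨0,[(13,0),(7,0)]⟩,⟨0,
  [(16,0)]⟩⟩,.o ⟨false,1,⟨3,[(6,1),(2,0),(0,0),(10,2)]⟩,⟨0,[(1,0)]⟩⟩]⟩) (.I [1,-1,-1,-1,1,0,0,1]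
  (.I [1,0,-2,-1,1] (.R ⟨0,false,false,false,[0,1,-1],[0,1],[1],(⟨0,[(10,0)]⟩,⟨0,[(21,0),(2,0)]⟩),
  (⟨0,[(25,0)]⟩,⟨0,[(24,0)]⟩),⟨0,[(21,0)]⟩,.k,.k,.k,.k,.k,.k,⟨false,1,⟨0,[(0,0)]⟩,⟨3,[(2,0),(8,0),
  (0,0),(3,0),(13,1),(2,0)]⟩⟩,⟨true,0,⟨0,[(3,0)]⟩,⟨0,[(19,0)]⟩⟩,⟨false,1,⟨0,[(1,0)]⟩,⟨1,[(3,0),(2,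
  0),(0,0),(9,0),(15,0)]⟩⟩,⟨true,0,⟨0,[(4,0)]⟩,⟨0,[(17,0)]⟩⟩,⟨false,0,⟨0,[]⟩,⟨0,[]⟩⟩,⟨false,0,⟨0,
  []⟩,⟨0,[]⟩⟩,[.a ⟨true,0,⟨0,[(33,0)]⟩,⟨1,[(28,0),(3,1),(2,0)]⟩⟩ ⟨true,0,⟨0,[]⟩,⟨1,[(18,0),(0,0)]⟩⟩
  ⟨false,0,⟨0,[(3,0),(29,0)]⟩,⟨3,[(5,1),(2,1),(14,0),(11,0)]⟩⟩,.o ⟨false,1,⟨1,[(23,0),(9,1),(1,0)]⟩,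
  ⟨0,[(32,0)]⟩⟩,.o ⟨false,1,⟨0,[(15,0),(7,0)]⟩,⟨0,[(18,0)]⟩⟩,.o ⟨false,1,⟨3,[(8,1),(2,0),(0,0),(10,
  2)]⟩,⟨0,[(3,0)]⟩⟩]⟩) (.R ⟨0,false,false,false,[0,1,-1],[0,1],[1,0,2,1],(⟨0,[(10,0)]⟩,⟨0,[(21,0),
  (2,0)]⟩),(⟨0,[(25,0)]⟩,⟨0,[(24,0)]⟩),⟨0,[(21,0)]⟩,.k,.k,.k,.k,.k,.k,⟨false,0,⟨0,[]⟩,⟨1,[(11,0),(0,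
  0),(21,0)]⟩⟩,⟨true,0,⟨0,[(3,0)]⟩,⟨0,[(19,0)]⟩⟩,⟨false,0,⟨0,[(0,0),(0,0)]⟩,⟨1,[(3,1),(13,1),(16,0),
  (0,0)]⟩⟩,⟨true,0,⟨0,[(4,0)]⟩,⟨0,[(17,0)]⟩⟩,⟨false,0,⟨0,[]⟩,⟨0,[]⟩⟩,⟨false,0,⟨0,[]⟩,⟨0,[]⟩⟩,[.a
  ⟨true,0,⟨0,[(33,0)]⟩,⟨1,[(28,0),(3,1),(2,0)]⟩⟩ ⟨true,(-1),⟨0,[(0,0)]⟩,⟨3,[(5,1),(5,0),(0,0),(22,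
  0)]⟩⟩ ⟨false,0,⟨0,[(3,0),(29,0)]⟩,⟨3,[(5,1),(2,1),(14,0),(11,0)]⟩⟩,.o ⟨false,1,⟨1,[(23,0),(9,1),
  (1,0)]⟩,⟨0,[(32,0)]⟩⟩,.o ⟨false,1,⟨0,[(15,0),(7,0)]⟩,⟨0,[(18,0)]⟩⟩,.o ⟨false,1,⟨3,[(8,1),(2,0),(0,
  0),(10,2)]⟩,⟨0,[(3,0)]⟩⟩]⟩)) (.K ⟨0,[1,-1,1],(-1),0,(⟨0,[(20,0),(2,0)]⟩,⟨0,[(9,0)]⟩),.k,(.r (-2)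
  ⟨3,[(3,1),(0,3),(2,1),(7,1),(6,0),(11,2)]⟩ ⟨0,[(0,0),(28,0)]⟩),.k,.k,.k,[⟨1,[(22,0),(10,0)]⟩,⟨0,
  [(6,0)]⟩,⟨0,[(0,0),(13,0),(7,0)]⟩,⟨7,[(3,1),(0,3),(1,3),(0,1),(7,5),(11,0),(6,0)]⟩]⟩))) (.Q [0,0,
  0,1,0,0,-1,-1,0,0,-1] (.p false [0,0,1] [] (⟨0,[(18,0)]⟩,⟨0,[(17,0)]⟩) .k 0 (⟨0,[]⟩,⟨0,[]⟩) .k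
  .k) (.I [1,-1,1,1,0,0,0,-1] (.R ⟨2,true,false,false,[0,1],[0,0,1],[1,1,1],(⟨0,[]⟩,⟨0,[]⟩),(⟨0,
  [(20,0)]⟩,⟨0,[(19,0)]⟩),⟨0,[]⟩,.k,.k,.k,.k,.k,.k,⟨false,0,⟨0,[(0,0),(29,0),(0,0)]⟩,⟨1,[(3,1),(10,
  1),(7,0),(11,0)]⟩⟩,⟨true,0,⟨0,[(17,0)]⟩,⟨0,[(2,0)]⟩⟩,⟨true,0,⟨0,[(31,0)]⟩,⟨0,[(32,0)]⟩⟩,⟨false,1,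
  ⟨0,[(3,0),(27,0),(2,0)]⟩,⟨0,[(1,0)]⟩⟩,⟨false,0,⟨0,[]⟩,⟨1,[(10,0),(0,0),(22,0)]⟩⟩,⟨true,0,⟨0,[(3,
  0)]⟩,⟨0,[(16,0)]⟩⟩,[]⟩) (.R ⟨2,true,false,false,[0,1],[0,0,1],[0,1,1,1],(⟨0,[]⟩,⟨0,[]⟩),(⟨0,[(20,
  0)]⟩,⟨0,[(19,0)]⟩),⟨0,[]⟩,.k,.k,.k,.k,.k,.k,⟨false,0,⟨0,[(1,0),(15,0),(12,0)]⟩,⟨0,[(0,0),(33,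
  0)]⟩⟩,⟨true,0,⟨0,[(17,0)]⟩,⟨0,[(2,0)]⟩⟩,⟨true,0,⟨0,[(36,0)]⟩,⟨0,[]⟩⟩,⟨false,1,⟨3,[(0,1),(2,0),(0,
  0),(1,1),(8,0),(6,0),(11,3)]⟩,⟨0,[(1,0)]⟩⟩,⟨false,0,⟨0,[(32,0)]⟩,⟨0,[(31,0),(2,0)]⟩⟩,⟨true,0,⟨0,
  [(3,0)]⟩,⟨0,[(16,0)]⟩⟩,[]⟩)) (.R ⟨0,false,false,true,[0,0,1],[1,-1,1],[0,1,0,-1,0,0,0,1],(⟨0,[(19,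
  0)]⟩,⟨0,[(18,0)]⟩),(⟨0,[(19,0),(2,0)]⟩,⟨0,[(8,0)]⟩),⟨0,[(8,0)]⟩,.k,.k,.k,.k,.k,.k,⟨true,0,⟨1,[(16,
  0),(0,0)]⟩,⟨0,[]⟩⟩,⟨false,0,⟨12,[(5,5),(0,2),(2,1),(0,1),(15,1),(5,5)]⟩,⟨1,[(21,0),(10,0)]⟩⟩,
  ⟨true,0,⟨0,[(30,0)]⟩,⟨0,[(31,0)]⟩⟩,⟨false,0,⟨1,[(26,0),(3,1),(2,0)]⟩,⟨1,[(21,0),(9,1),(1,0)]⟩⟩,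
  ⟨false,0,⟨0,[]⟩,⟨0,[]⟩⟩,⟨false,0,⟨0,[]⟩,⟨0,[]⟩⟩,[.o ⟨false,0,⟨1,[(0,0),(13,0),(15,0)]⟩,⟨0,[(4,
  0)]⟩⟩,.o ⟨false,0,⟨0,[(0,0)]⟩,⟨0,[(4,0),(30,0)]⟩⟩,.o ⟨false,1,⟨1,[(16,1),(4,0),(10,0)]⟩,⟨0,[(1,
  0)]⟩⟩,.a ⟨true,0,⟨0,[(16,0)]⟩,⟨0,[(13,0)]⟩⟩ ⟨true,0,⟨0,[(0,0),(0,0),(27,0)]⟩,⟨0,[(4,0),(0,0),(23,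
  0)]⟩⟩ ⟨false,0,⟨0,[(0,0),(12,0)]⟩,⟨0,[(4,0),(11,0)]⟩⟩]⟩))))))

theorem ok0 : chk K t0 l0 = true := by decide +kernel

noncomputable def t1 : Tre :=
  (.Q [0,0,0,0,0,0,-1,0,0,0,-1] (.p false [0,0,1] [] (⟨0,[(14,0)]⟩,⟨0,[(13,0)]⟩) .k 0 (⟨0,[]⟩,⟨0,
  []⟩) .k .k) (.Q [0,1,0,-1,0,0,1,1,0,0,1] (.p true [0,0,1] [] (⟨0,[(15,0)]⟩,⟨0,[(14,0)]⟩) .k 0 (⟨0,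
  []⟩,⟨0,[]⟩) .k .k) (.Q [0,0,0,1,0,0,-1,-1,0,0,-1] (.p false [0,0,1] [] (⟨0,[(16,0)]⟩,⟨0,[(15,
  0)]⟩) .k 0 (⟨0,[]⟩,⟨0,[]⟩) .k .k) (.Q [0,0,0,0,0,0,1,1,0,0,1] (.p true [0,0,1] [] (⟨0,[(17,0)]⟩,
  ⟨0,[(16,0)]⟩) .k 0 (⟨0,[]⟩,⟨0,[]⟩) .k .k) (.R ⟨2,true,false,true,[0,1],[0,1,-1],[0,1],(⟨0,[]⟩,⟨0,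
  []⟩),(⟨0,[(7,0)]⟩,⟨0,[(18,0),(2,0)]⟩),⟨0,[]⟩,.k,.k,.k,.k,.k,.k,⟨false,1,⟨1,[(0,1),(3,1),(20,0),(3,
  1),(2,0)]⟩,⟨0,[(1,0),(13,0)]⟩⟩,⟨true,0,⟨0,[(3,0)]⟩,⟨0,[(15,0)]⟩⟩,⟨false,1,⟨1,[(29,1),(1,0),(0,
  0)]⟩,⟨0,[(27,0)]⟩⟩,⟨true,0,⟨0,[(14,0)]⟩,⟨0,[(0,0)]⟩⟩,⟨true,0,⟨0,[(28,0)]⟩,⟨1,[(15,0),(0,0)]⟩⟩,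
  ⟨false,0,⟨0,[(1,0)]⟩,⟨0,[(2,0),(29,0)]⟩⟩,[]⟩) (.Q [0,0,-1,0,1,0,1,0,0,-1,1] (.p true [0,0,1] [1]
  (⟨0,[(18,0)]⟩,⟨0,[(17,0)]⟩) .k 1 (⟨0,[]⟩,⟨0,[]⟩) .k .k) (.I [1,0,-2,-1,1] (.R ⟨0,false,false,true,
  [1,0,-1],[1,-1],[0,1,1],(⟨0,[(19,0)]⟩,⟨0,[(20,0)]⟩),(⟨0,[(23,0)]⟩,⟨0,[(24,0)]⟩),⟨0,[(8,0)]⟩,.k,.k,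
  .k,.k,.k,.k,⟨false,0,⟨0,[(29,0),(6,0)]⟩,⟨0,[(0,0)]⟩⟩,⟨true,0,⟨0,[(17,0)]⟩,⟨0,[(5,0)]⟩⟩,⟨false,0,
  ⟨0,[(4,0),(0,0),(23,0)]⟩,⟨1,[(1,1),(0,1),(24,0),(6,0)]⟩⟩,⟨true,0,⟨0,[(4,0)]⟩,⟨0,[(3,0)]⟩⟩,⟨false,
  0,⟨0,[]⟩,⟨0,[]⟩⟩,⟨false,0,⟨0,[]⟩,⟨0,[]⟩⟩,[.o ⟨false,0,⟨0,[(31,0)]⟩,⟨1,[(22,0),(9,1),(1,0)]⟩⟩,.a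
  ⟨true,0,⟨1,[(27,0),(3,1),(2,0)]⟩,⟨0,[(32,0)]⟩⟩ ⟨true,0,⟨1,[(17,0),(0,0)]⟩,⟨0,[]⟩⟩ ⟨false,1,⟨0,[(0,
  0),(16,0)]⟩,⟨0,[(5,0),(26,0)]⟩⟩,.o ⟨false,0,⟨0,[(5,0)]⟩,⟨3,[(1,1),(8,0),(0,0),(5,1),(4,0)]⟩⟩,.o
  ⟨false,0,⟨0,[(18,0)]⟩,⟨0,[(1,0)]⟩⟩]⟩) (.R ⟨0,false,false,true,[1,0,-1],[1,-1],[1,1],(⟨0,[(19,0)]⟩,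
  ⟨0,[(20,0)]⟩),(⟨0,[(23,0)]⟩,⟨0,[(24,0)]⟩),⟨0,[(8,0)]⟩,.k,.k,.k,.k,.k,.k,⟨false,0,⟨0,[(32,0)]⟩,⟨1,
  [(31,1),(1,0),(0,0)]⟩⟩,⟨true,0,⟨0,[(17,0)]⟩,⟨0,[(5,0)]⟩⟩,⟨false,0,⟨1,[(0,1),(3,1),(1,1),(20,0),(6,
  0)]⟩,⟨3,[(1,1),(0,1),(13,1),(0,1),(9,0),(6,2)]⟩⟩,⟨true,0,⟨0,[(4,0)]⟩,⟨0,[(3,0)]⟩⟩,⟨false,0,⟨0,[]⟩,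
  ⟨0,[]⟩⟩,⟨false,0,⟨0,[]⟩,⟨0,[]⟩⟩,[.o ⟨false,0,⟨0,[(31,0)]⟩,⟨1,[(22,0),(9,1),(1,0)]⟩⟩,.a ⟨true,0,⟨1,
  [(27,0),(3,1),(2,0)]⟩,⟨0,[(32,0)]⟩⟩ ⟨true,0,⟨0,[]⟩,⟨1,[(17,0),(0,0)]⟩⟩ ⟨false,1,⟨1,[(1,1),(25,0),
  (3,1),(2,0)]⟩,⟨2,[(0,0),(5,0),(0,0),(24,1)]⟩⟩,.o ⟨false,0,⟨0,[(5,0)]⟩,⟨3,[(1,1),(8,0),(0,0),(5,1),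
  (4,0)]⟩⟩,.o ⟨false,0,⟨0,[(18,0)]⟩,⟨0,[(1,0)]⟩⟩]⟩)) (.I [1,0,0,0,0,0,0,1] (.I [0,1,-1,-1,0,0,0,1]
  (.R ⟨0,false,false,true,[0,0,1],[1,-1,1],[1,0,1],(⟨0,[(21,0)]⟩,⟨0,[(20,0)]⟩),(⟨0,[(21,0),(2,0)]⟩,
  ⟨0,[(10,0)]⟩),⟨0,[(10,0)]⟩,.k,.k,.k,.k,.k,.k,⟨true,0,⟨0,[(3,0),(14,0),(11,0)]⟩,⟨0,[(0,0)]⟩⟩,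
  ⟨false,0,⟨2,[(11,0),(0,0),(9,0),(1,0),(3,0)]⟩,⟨1,[(23,0),(10,0)]⟩⟩,⟨true,0,⟨0,[(3,0),(14,0)]⟩,⟨0,
  [(0,0),(32,0)]⟩⟩,⟨false,0,⟨1,[(28,0),(3,1),(2,0)]⟩,⟨1,[(23,0),(9,1),(1,0)]⟩⟩,⟨false,0,⟨0,[]⟩,⟨0,
  []⟩⟩,⟨false,0,⟨0,[]⟩,⟨0,[]⟩⟩,[.o ⟨false,0,⟨0,[(5,0)]⟩,⟨1,[(4,1),(18,0),(11,0)]⟩⟩,.e ⟨false,1,⟨1,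
  [(11,0),(0,0),(22,0)]⟩,⟨0,[(31,0)]⟩⟩ ⟨false,0,⟨1,[(0,1),(27,0),(6,0)]⟩,⟨1,[(4,1),(13,1),(4,0),(10,
  0)]⟩⟩,.o ⟨false,1,⟨1,[(18,1),(4,0),(10,0)]⟩,⟨0,[(6,0)]⟩⟩,.a ⟨true,0,⟨0,[(18,0)]⟩,⟨0,[(15,0)]⟩⟩
  ⟨true,0,⟨0,[]⟩,⟨0,[(37,0)]⟩⟩ ⟨false,0,⟨1,[(0,1),(27,0),(6,0)]⟩,⟨1,[(4,1),(13,1),(4,0),(11,
  0)]⟩⟩]⟩) (.I [1,1,1,1,-1,0,0,1] (.Q [0,0,0,1,1,0,1,1,0,-2,1] (.p true [-1,1,1] [1] (⟨0,[(10,0)]⟩,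
  ⟨0,[(21,0),(3,0)]⟩) .k 1 (⟨0,[]⟩,⟨0,[]⟩) .k .k) (.I [0,0,2,2,-1] (.I [0,-1,1,0,0,0,0,1] (.I [0,0,
  -2,-1,1,0,0,1] (.R ⟨0,false,false,false,[1,0,-1],[0,1,-1],[],(⟨0,[(25,0)]⟩,⟨0,[(26,0)]⟩),(⟨0,[(15,
  0)]⟩,⟨0,[(26,0),(2,0)]⟩),⟨0,[(14,0)]⟩,.k,.k,.k,.k,.k,.k,⟨false,1,⟨0,[(0,0)]⟩,⟨7,[(2,0),(2,5),(10,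
  0),(0,0),(4,1),(0,1),(7,1)]⟩⟩,⟨true,1,⟨1,[(28,0),(10,0)]⟩,⟨0,[(7,0),(15,0)]⟩⟩,⟨true,0,⟨2,[(0,0),
  (0,0),(2,0)]⟩,⟨0,[(5,0),(30,0),(0,0)]⟩⟩,⟨false,1,⟨1,[(3,0),(5,0),(30,0)]⟩,⟨1,[(33,0),(3,1),(2,
  0)]⟩⟩,⟨false,0,⟨0,[]⟩,⟨0,[]⟩⟩,⟨false,0,⟨0,[]⟩,⟨0,[]⟩⟩,[.e ⟨false,1,⟨1,[(16,0),(0,0),(21,0)]⟩,⟨0,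
  []⟩⟩ ⟨false,1,⟨1,[(5,1),(22,0),(7,1),(2,0)]⟩,⟨4,[(0,0),(6,1),(2,3),(2,0),(19,0),(6,1)]⟩⟩,.o
  ⟨false,1,⟨1,[(9,1),(18,0),(11,0)]⟩,⟨0,[(10,0)]⟩⟩,.o ⟨false,0,⟨0,[(11,0)]⟩,⟨1,[(23,1),(4,0),(10,
  0)]⟩⟩,.a ⟨true,(-1),⟨0,[(7,0)]⟩,⟨0,[(23,0),(15,0)]⟩⟩ ⟨false,1,⟨1,[(39,0),(0,0)]⟩,⟨1,[(23,0),(0,
  0)]⟩⟩ ⟨true,1,⟨1,[(5,1),(22,0),(7,1),(2,0)]⟩,⟨0,[(7,0),(2,0)]⟩⟩]⟩) (.R ⟨0,false,false,false,[0,0,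
  1],[0,1],[],(⟨0,[(26,0)]⟩,⟨0,[(25,0)]⟩),(⟨0,[(30,0)]⟩,⟨0,[(29,0)]⟩),⟨0,[(15,0)]⟩,.k,.k,.k,.k,.k,
  .k,⟨true,1,⟨1,[(37,1),(1,0),(0,0)]⟩,⟨2,[(0,1),(0,0),(2,0)]⟩⟩,⟨false,1,⟨2,[(12,0),(0,0),(25,1)]⟩,
  ⟨0,[(23,0)]⟩⟩,⟨false,1,⟨1,[(5,1),(31,1),(1,0),(0,0)]⟩,⟨0,[(6,0)]⟩⟩,⟨true,0,⟨0,[(9,0)]⟩,⟨0,[(10,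
  0)]⟩⟩,⟨false,0,⟨0,[]⟩,⟨0,[]⟩⟩,⟨false,0,⟨0,[]⟩,⟨0,[]⟩⟩,[.e ⟨false,1,⟨1,[(16,0),(0,0),(21,0)]⟩,⟨0,
  []⟩⟩ ⟨false,0,⟨5,[(0,1),(0,1),(0,1),(9,5),(20,2),(2,3),(3,0)]⟩,⟨1,[(23,1),(13,1),(1,0),(0,0)]⟩⟩,
  .o ⟨false,1,⟨1,[(3,0),(5,0),(30,0)]⟩,⟨0,[(37,0)]⟩⟩,.o ⟨false,1,⟨1,[(23,1),(4,0),(10,0)]⟩,⟨0,[(11,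
  0)]⟩⟩,.a ⟨true,0,⟨0,[(23,0)]⟩,⟨0,[(20,0)]⟩⟩ ⟨false,1,⟨1,[(39,0),(0,0)]⟩,⟨1,[(23,0),(0,0)]⟩⟩ ⟨true,
  0,⟨5,[(0,1),(0,1),(0,1),(9,5),(20,2),(2,3),(3,0)]⟩,⟨0,[(23,0),(13,0)]⟩⟩]⟩)) (.I [0,1,1,1,-1] (.R
  ⟨0,false,false,false,[0,0,1],[0,1],[1,1,1],(⟨0,[(26,0)]⟩,⟨0,[(25,0)]⟩),(⟨0,[(30,0)]⟩,⟨0,[(29,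
  0)]⟩),⟨0,[(15,0)]⟩,.k,.k,.k,.k,.k,.k,⟨true,0,⟨0,[(37,0)]⟩,⟨1,[(2,0),(37,0)]⟩⟩,⟨false,1,⟨2,[(12,0),
  (0,0),(25,1)]⟩,⟨0,[(23,0)]⟩⟩,⟨false,0,⟨0,[(5,0),(31,0)]⟩,⟨1,[(6,1),(32,0),(0,0)]⟩⟩,⟨true,0,⟨0,[(9,
  0)]⟩,⟨0,[(10,0)]⟩⟩,⟨false,0,⟨0,[]⟩,⟨0,[]⟩⟩,⟨false,0,⟨0,[]⟩,⟨0,[]⟩⟩,[.e ⟨false,0,⟨0,[(42,0)]⟩,⟨1,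
  [(39,0),(0,0)]⟩⟩ ⟨false,0,⟨1,[(0,1),(11,1),(20,0),(6,0)]⟩,⟨1,[(23,1),(13,1),(1,0),(0,0)]⟩⟩,.o
  ⟨false,1,⟨1,[(3,0),(5,0),(30,0)]⟩,⟨0,[(37,0)]⟩⟩,.o ⟨false,1,⟨1,[(23,1),(4,0),(10,0)]⟩,⟨0,[(11,
  0)]⟩⟩,.a ⟨true,0,⟨0,[(23,0)]⟩,⟨0,[(20,0)]⟩⟩ ⟨false,0,⟨0,[]⟩,⟨1,[(16,0),(0,0),(22,0)]⟩⟩ ⟨true,0,⟨1,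
  [(0,1),(11,1),(20,0),(6,0)]⟩,⟨0,[(23,0),(13,0)]⟩⟩]⟩) (.R ⟨0,false,false,true,[1,-1],[2,-1,-1],[1,
  1,-1,-1],(⟨0,[(29,0)]⟩,⟨0,[(30,0)]⟩),(⟨0,[(25,0),(3,0)]⟩,⟨0,[(14,0)]⟩),⟨0,[(14,0),(0,0)]⟩,.k,.k,
  (.r (-2) ⟨1,[(0,1),(15,0),(0,0),(19,1),(1,0)]⟩ ⟨0,[(2,0)]⟩),.k,.k,.k,⟨true,0,⟨0,[(6,0)]⟩,⟨0,[(5,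
  0),(31,0)]⟩⟩,⟨false,0,⟨0,[(20,0)]⟩,⟨1,[(23,1),(4,0),(10,0)]⟩⟩,⟨false,0,⟨0,[]⟩,⟨1,[(16,0),(0,0),
  (22,0)]⟩⟩,⟨true,(-1),⟨0,[(1,0),(5,0)]⟩,⟨3,[(3,1),(6,1),(5,0),(0,0),(22,0)]⟩⟩,⟨false,0,⟨0,[]⟩,⟨0,
  []⟩⟩,⟨false,0,⟨0,[]⟩,⟨0,[]⟩⟩,[.e ⟨false,1,⟨0,[(37,0),(1,0)]⟩,⟨1,[(2,0),(37,0)]⟩⟩ ⟨false,0,⟨3,[(0,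
  2),(0,3),(5,2),(4,0),(20,0),(2,1),(0,0)]⟩,⟨3,[(2,0),(0,1),(17,1),(1,0),(0,0),(15,2)]⟩⟩,.o ⟨false,
  0,⟨1,[(8,1),(24,0),(3,1),(2,0)]⟩,⟨0,[(3,0)]⟩⟩,.o ⟨false,0,⟨1,[(23,0),(0,0)]⟩,⟨1,[(28,0),(10,0)]⟩⟩,
  .a ⟨true,(-1),⟨0,[(7,0),(15,0)]⟩,⟨0,[(39,0)]⟩⟩ ⟨false,1,⟨5,[(0,3),(0,1),(8,1),(1,1),(20,0),(5,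
  0)]⟩,⟨1,[(2,0),(20,0),(0,0),(15,0)]⟩⟩ ⟨true,0,⟨3,[(0,2),(0,3),(5,2),(4,0),(20,0),(2,1),(0,0)]⟩,⟨1,
  [(2,1),(7,1),(17,0),(11,0)]⟩⟩]⟩))) (.N [0,2] 1 ⟨0,[(2,0),(0,0)]⟩ ⟨0,[(0,0)]⟩ (.x (-2) ⟨0,[(26,0),
  (0,1),(9,0)]⟩ ⟨0,[(5,0),(6,0),(0,0),(7,0)]⟩))) (.R ⟨0,false,false,false,[0,1,-1],[0,1],[1,1,1],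
  (⟨0,[(12,0)]⟩,⟨0,[(23,0),(2,0)]⟩),(⟨0,[(27,0)]⟩,⟨0,[(26,0)]⟩),⟨0,[(23,0)]⟩,.k,.k,.k,.k,.k,.k,
  ⟨true,0,⟨0,[(34,0)]⟩,⟨1,[(1,0),(0,0),(34,0)]⟩⟩,⟨false,1,⟨0,[(20,0),(15,0)]⟩,⟨0,[(8,0)]⟩⟩,⟨true,0,
  ⟨4,[(4,1),(2,4),(1,0),(0,0),(14,0)]⟩,⟨0,[(2,0),(30,0)]⟩⟩,⟨false,1,⟨0,[(18,0),(18,0)]⟩,⟨0,[(5,
  0)]⟩⟩,⟨false,0,⟨0,[]⟩,⟨0,[]⟩⟩,⟨false,0,⟨0,[]⟩,⟨0,[]⟩⟩,[.a ⟨true,0,⟨0,[(35,0)]⟩,⟨3,[(0,1),(6,1),(5,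
  0),(0,0),(22,0)]⟩⟩ ⟨false,0,⟨0,[(39,0)]⟩,⟨1,[(36,0),(0,0)]⟩⟩ ⟨true,0,⟨0,[(20,0),(14,0)]⟩,⟨0,[(0,
  0),(2,0),(21,0)]⟩⟩,.o ⟨false,1,⟨1,[(25,0),(9,1),(1,0)]⟩,⟨0,[(34,0)]⟩⟩,.o ⟨false,1,⟨7,[(9,3),(0,1),
  (2,0),(0,0),(10,2)]⟩,⟨0,[(20,0)]⟩⟩,.e ⟨false,0,⟨0,[]⟩,⟨1,[(13,0),(0,0),(22,0)]⟩⟩ ⟨false,1,⟨1,[(20,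
  1),(14,1),(0,0),(0,0)]⟩,⟨0,[(0,0),(2,0),(21,0)]⟩⟩]⟩)) (.I [1,0,0,0,0,0,0,-1] (.N [0,0,1] 0 ⟨0,[(3,
  0)]⟩ ⟨0,[(0,0)]⟩ .k) (.R ⟨0,false,false,true,[1,0,-1],[1,-1],[0,1],(⟨0,[(22,0)]⟩,⟨0,[(23,0)]⟩),
  (⟨0,[(26,0)]⟩,⟨0,[(27,0)]⟩),⟨0,[(11,0)]⟩,.k,.k,.k,.k,.k,.k,⟨false,0,⟨0,[(35,0)]⟩,⟨11,[(1,5),(5,5),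
  (1,1),(0,1),(2,2),(0,2),(21,0)]⟩⟩,⟨true,0,⟨0,[(20,0)]⟩,⟨0,[(8,0)]⟩⟩,⟨false,0,⟨0,[(0,0)]⟩,⟨1,[(1,
  0),(0,0),(10,0),(0,0)]⟩⟩,⟨true,0,⟨0,[(7,0)]⟩,⟨0,[(6,0)]⟩⟩,⟨false,0,⟨0,[]⟩,⟨0,[]⟩⟩,⟨false,0,⟨0,[]⟩,
  ⟨0,[]⟩⟩,[.o ⟨false,0,⟨0,[(34,0)]⟩,⟨1,[(25,0),(9,1),(1,0)]⟩⟩,.e ⟨false,1,⟨1,[(13,0),(0,0),(21,0)]⟩,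
  ⟨0,[]⟩⟩ ⟨false,1,⟨1,[(1,0),(5,0),(12,0),(15,0)]⟩,⟨4,[(4,1),(4,0),(0,0),(14,0),(9,4)]⟩⟩,.o ⟨false,
  0,⟨0,[(8,0)]⟩,⟨1,[(20,1),(4,0),(10,0)]⟩⟩,.a ⟨true,(-1),⟨0,[(4,0)]⟩,⟨0,[(20,0),(15,0)]⟩⟩ ⟨true,0,
  ⟨0,[(33,0)]⟩,⟨1,[(20,0),(0,0)]⟩⟩ ⟨false,1,⟨1,[(1,0),(5,0),(12,0),(15,0)]⟩,⟨4,[(4,1),(4,0),(0,0),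
  (14,0),(6,4)]⟩⟩]⟩)))) (.R ⟨0,false,false,false,[1,-1],[1,0,-1],[1,0,1],(⟨0,[(23,0)]⟩,⟨0,[(24,
  0)]⟩),(⟨0,[(19,0)]⟩,⟨0,[(20,0)]⟩),⟨0,[(8,0),(0,0)]⟩,.k,.k,(.x 1 ⟨0,[(1,0),(6,0),(0,0),(7,0)]⟩ ⟨0,
  [(22,0),(0,1),(9,0)]⟩),.k,.k,.k,⟨true,0,⟨4,[(1,1),(2,4),(1,0),(0,0),(14,0),(6,4)]⟩,⟨0,[(0,0)]⟩⟩,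
  ⟨false,1,⟨2,[(6,0),(0,0),(25,1)]⟩,⟨0,[(17,0)]⟩⟩,⟨false,0,⟨1,[(17,0),(0,0),(10,1)]⟩,⟨1,[(0,1),(3,
  1),(1,1),(20,0),(6,0)]⟩⟩,⟨true,0,⟨0,[(3,0)]⟩,⟨0,[(4,0)]⟩⟩,⟨false,0,⟨0,[]⟩,⟨0,[]⟩⟩,⟨false,0,⟨0,[]⟩,
  ⟨0,[]⟩⟩,[.o ⟨false,0,⟨0,[(2,0)]⟩,⟨1,[(15,1),(6,0),(11,0)]⟩⟩,.e ⟨false,1,⟨1,[(10,0),(0,0),(22,0)]⟩,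
  ⟨0,[(30,0)]⟩⟩ ⟨false,1,⟨1,[(0,1),(5,1),(20,0),(6,0)]⟩,⟨1,[(15,1),(1,0),(0,0)]⟩⟩,.o ⟨false,0,⟨1,
  [(17,0),(0,0)]⟩,⟨1,[(22,0),(10,0)]⟩⟩,.a ⟨true,(-1),⟨0,[(1,0),(15,0)]⟩,⟨0,[(33,0)]⟩⟩ ⟨true,0,⟨0,
  []⟩,⟨0,[(36,0)]⟩⟩ ⟨false,1,⟨1,[(0,1),(5,1),(20,0),(6,0)]⟩,⟨1,[(4,1),(12,0),(0,0),(10,1)]⟩⟩]⟩))))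
  (.Q [0,-1,-1,-1,1,0,1,0,0,0,1] (.p true [0,0,1] [] (⟨0,[(17,0)]⟩,⟨0,[(16,0)]⟩) .k 0 (⟨0,[]⟩,⟨0,
  []⟩) .k .k) (.Q [0,0,-1,0,1,0,1,0,0,-1,1] (.p true [0,0,1] [1] (⟨0,[(18,0)]⟩,⟨0,[(17,0)]⟩) .k 1
  (⟨0,[]⟩,⟨0,[]⟩) .k .k) (.R ⟨0,false,false,false,[1,0,-1],[1,-1],[0,0,1],(⟨0,[(18,0)]⟩,⟨0,[(19,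
  0)]⟩),(⟨0,[(22,0)]⟩,⟨0,[(23,0)]⟩),⟨0,[(7,0)]⟩,.k,.k,.k,.k,.k,.k,⟨false,0,⟨0,[(28,0),(6,0)]⟩,⟨5,
  [(1,3),(3,2),(7,0),(10,0),(1,0),(3,1)]⟩⟩,⟨true,0,⟨0,[(16,0)]⟩,⟨0,[(4,0)]⟩⟩,⟨false,0,⟨0,[(2,0),(1,
  0),(23,0)]⟩,⟨1,[(0,1),(14,1),(10,0),(6,0)]⟩⟩,⟨true,0,⟨0,[(2,0)]⟩,⟨0,[(15,0),(15,0)]⟩⟩,⟨false,0,⟨0,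
  []⟩,⟨0,[]⟩⟩,⟨false,0,⟨0,[]⟩,⟨0,[]⟩⟩,[.a ⟨true,0,⟨1,[(26,0),(3,1),(2,0)]⟩,⟨0,[(31,0)]⟩⟩ ⟨true,0,⟨1,
  [(16,0),(0,0)]⟩,⟨0,[]⟩⟩ ⟨false,1,⟨5,[(1,4),(7,0),(0,0),(5,0),(7,1),(5,0)]⟩,⟨0,[(4,0),(26,0)]⟩⟩,.e
  ⟨false,1,⟨1,[(9,0),(0,0),(22,0)]⟩,⟨0,[(29,0)]⟩⟩ ⟨false,1,⟨0,[(1,0)]⟩,⟨1,[(4,0),(12,0),(6,0),(6,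
  1)]⟩⟩,.o ⟨false,0,⟨0,[(4,0)]⟩,⟨3,[(0,1),(8,0),(0,0),(5,1),(4,0)]⟩⟩,.o ⟨false,0,⟨0,[(17,0)]⟩,⟨0,
  [(0,0)]⟩⟩]⟩) (.R ⟨0,false,false,false,[1,0,-1],[1,-1],[0,1],(⟨0,[(18,0)]⟩,⟨0,[(19,0)]⟩),(⟨0,[(22,
  0)]⟩,⟨0,[(23,0)]⟩),⟨0,[(7,0)]⟩,.k,.k,.k,.k,.k,.k,⟨false,0,⟨0,[(31,0),(3,0)]⟩,⟨2,[(0,0),(0,1),(3,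
  0),(24,0),(2,0)]⟩⟩,⟨true,0,⟨0,[(16,0)]⟩,⟨0,[(4,0)]⟩⟩,⟨false,0,⟨1,[(0,0),(1,0),(2,0),(8,0),(13,
  0)]⟩,⟨0,[(1,0),(13,0),(12,0)]⟩⟩,⟨true,0,⟨0,[(2,0)]⟩,⟨0,[(15,0),(15,0)]⟩⟩,⟨false,0,⟨0,[]⟩,⟨0,[]⟩⟩,
  ⟨false,0,⟨0,[]⟩,⟨0,[]⟩⟩,[.e ⟨false,0,⟨0,[(29,0)]⟩,⟨1,[(9,0),(0,0),(22,0)]⟩⟩ ⟨false,1,⟨5,[(1,4),(7,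
  0),(0,0),(5,0),(7,1),(5,0)]⟩,⟨4,[(0,1),(4,0),(0,0),(14,0),(9,4)]⟩⟩,.e ⟨false,1,⟨1,[(9,0),(0,0),
  (21,0)]⟩,⟨0,[]⟩⟩ ⟨false,1,⟨0,[(1,0)]⟩,⟨3,[(0,0),(5,0),(10,0),(3,0),(2,1),(6,3)]⟩⟩,.o ⟨false,0,⟨0,
  [(4,0)]⟩,⟨1,[(16,1),(4,0),(10,0)]⟩⟩,.a ⟨true,(-1),⟨0,[(0,0)]⟩,⟨0,[(16,0),(15,0)]⟩⟩ ⟨true,0,⟨0,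
  [(29,0)]⟩,⟨1,[(16,0),(0,0)]⟩⟩ ⟨false,1,⟨0,[(1,0)]⟩,⟨0,[(17,0),(13,0)]⟩⟩]⟩)) (.Q [0,1,-1,-1,-1,0,0,
  1,0,1] (.pp false [-1,1]) (.R ⟨0,false,false,true,[0,0,1],[1,-1,1],[1,1,1],(⟨0,[(19,0)]⟩,⟨0,[(18,
  0)]⟩),(⟨0,[(19,0),(2,0)]⟩,⟨0,[(8,0)]⟩),⟨0,[(8,0)]⟩,.k,.k,.k,.k,.k,.k,⟨true,0,⟨0,[(15,0),(0,0),(11,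
  0)]⟩,⟨1,[(0,1),(20,0),(11,0)]⟩⟩,⟨false,0,⟨2,[(9,0),(0,0),(9,0),(1,0),(3,0)]⟩,⟨1,[(21,0),(10,0)]⟩⟩,
  ⟨true,0,⟨0,[(15,0),(0,0)]⟩,⟨1,[(0,0),(1,0),(2,0),(22,0),(2,0)]⟩⟩,⟨false,0,⟨1,[(26,0),(3,1),(2,
  0)]⟩,⟨1,[(21,0),(9,1),(1,0)]⟩⟩,⟨false,0,⟨0,[]⟩,⟨0,[]⟩⟩,⟨false,0,⟨0,[]⟩,⟨0,[]⟩⟩,[.e ⟨false,0,⟨0,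
  [(35,0)]⟩,⟨1,[(32,0),(0,0)]⟩⟩ ⟨false,(-1),⟨0,[(0,0)]⟩,⟨1,[(15,1),(0,1),(4,0),(9,1),(0,0),(0,1)]⟩⟩,
  .o ⟨false,0,⟨0,[(2,0)]⟩,⟨1,[(15,1),(5,0),(9,1),(1,0)]⟩⟩,.o ⟨false,1,⟨1,[(16,1),(4,0),(10,0)]⟩,⟨0,
  [(4,0)]⟩⟩,.a ⟨true,0,⟨0,[(16,0)]⟩,⟨0,[(13,0)]⟩⟩ ⟨false,0,⟨0,[]⟩,⟨1,[(9,0),(0,0),(22,0)]⟩⟩ ⟨true,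
  (-1),⟨0,[(0,0)]⟩,⟨1,[(15,1),(0,1),(4,0),(9,1),(1,0)]⟩⟩]⟩) (.I [1,-1,0,0,0,0,0,1] (.Q [0,-1,0,1,1,
  0,-1,-1,0,-1,-1] (.p false [1,-1,1] [] (⟨0,[(20,0),(2,0)]⟩,⟨0,[(9,0)]⟩) .k 0 (⟨0,[]⟩,⟨0,[]⟩) .k
  .k) (.R ⟨0,false,false,true,[0,0,1],[1,-1,1],[1,0,0,0,0,0,0,1],(⟨0,[(21,0)]⟩,⟨0,[(20,0)]⟩),(⟨0,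
  [(21,0),(2,0)]⟩,⟨0,[(10,0)]⟩),⟨0,[(10,0)]⟩,.k,.k,.k,.k,.k,.k,⟨true,0,⟨0,[(30,0)]⟩,⟨0,[(32,0)]⟩⟩,
  ⟨false,0,⟨2,[(11,0),(0,0),(9,0),(1,0),(3,0)]⟩,⟨1,[(23,0),(10,0)]⟩⟩,⟨true,0,⟨0,[]⟩,⟨0,[(37,0)]⟩⟩,
  ⟨false,0,⟨1,[(28,0),(3,1),(2,0)]⟩,⟨1,[(23,0),(9,1),(1,0)]⟩⟩,⟨false,0,⟨0,[]⟩,⟨0,[]⟩⟩,⟨false,0,⟨0,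
  []⟩,⟨0,[]⟩⟩,[.o ⟨false,0,⟨0,[(5,0)]⟩,⟨0,[(0,0)]⟩⟩,.o ⟨false,0,⟨0,[(4,0)]⟩,⟨18,[(0,10),(1,6),(0,0),
  (4,2),(8,0),(5,1),(2,7)]⟩⟩,.o ⟨false,1,⟨1,[(18,1),(4,0),(10,0)]⟩,⟨0,[(6,0)]⟩⟩,.a ⟨true,0,⟨0,[(18,
  0)]⟩,⟨0,[(15,0)]⟩⟩ ⟨true,0,⟨0,[(1,0),(29,0)]⟩,⟨0,[(17,0),(0,0)]⟩⟩ ⟨false,0,⟨0,[(4,0),(10,0)]⟩,⟨0,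
  [(2,0)]⟩⟩]⟩) (.I [0,0,-2,-2,1] (.I [0,0,-1,-1,0,0,0,1] (.R ⟨0,false,false,true,[0,0,1],[1,-1,1],
  [0,1,0,-1,0,0,0,1],(⟨0,[(23,0)]⟩,⟨0,[(22,0)]⟩),(⟨0,[(23,0),(2,0)]⟩,⟨0,[(12,0)]⟩),⟨0,[(12,0)]⟩,.k,
  .k,.k,.k,.k,.k,⟨true,0,⟨1,[(20,0),(0,0)]⟩,⟨0,[]⟩⟩,⟨false,0,⟨2,[(13,0),(0,0),(9,0),(1,0),(3,0)]⟩,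
  ⟨1,[(25,0),(10,0)]⟩⟩,⟨true,0,⟨0,[(34,0)]⟩,⟨0,[(35,0)]⟩⟩,⟨false,0,⟨1,[(30,0),(3,1),(2,0)]⟩,⟨1,[(25,
  0),(9,1),(1,0)]⟩⟩,⟨false,0,⟨0,[]⟩,⟨0,[]⟩⟩,⟨false,0,⟨0,[]⟩,⟨0,[]⟩⟩,[.a ⟨true,(-1),⟨0,[(2,0)]⟩,⟨0,
  [(4,0),(12,0)]⟩⟩ ⟨false,0,⟨11,[(0,7),(4,0),(1,3),(1,0),(0,0),(17,2),(5,0)]⟩,⟨1,[(4,1),(25,0),(5,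
  0)]⟩⟩ ⟨true,(-1),⟨3,[(0,1),(1,1),(2,0),(15,0),(8,0),(3,0)]⟩,⟨0,[(4,0)]⟩⟩,.o ⟨false,0,⟨0,[(6,0)]⟩,
  ⟨13,[(4,10),(0,1),(3,4),(0,1),(8,2),(8,2),(6,0)]⟩⟩,.o ⟨false,1,⟨1,[(20,1),(4,0),(10,0)]⟩,⟨0,[(8,
  0)]⟩⟩,.e ⟨false,0,⟨0,[(0,0)]⟩,⟨8,[(4,8),(8,3),(0,3),(9,0),(1,0),(3,3)]⟩⟩ ⟨false,0,⟨2,[(0,0),(1,0),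
  (4,0),(9,1),(19,0)]⟩,⟨0,[(4,0)]⟩⟩]⟩) (.I [1,0,-1,-1,0,0,0,1] (.N [0,-1,1] 0 ⟨0,[(0,0)]⟩ ⟨0,[(1,
  0)]⟩ .k) (.Q [0,0,2,0,-1,0,0,0,0,1] (.pp false [-1,1]) (.R ⟨0,false,false,false,[1,-1],[1,0,-1],
  [0,0,1,0,0,0,0,-1],(⟨0,[(28,0)]⟩,⟨0,[(29,0)]⟩),(⟨0,[(24,0)]⟩,⟨0,[(25,0)]⟩),⟨0,[(13,0),(0,0)]⟩,.k,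
  .k,(.r (-1) ⟨0,[(3,0)]⟩ ⟨6,[(1,3),(4,1),(0,1),(4,1),(7,5),(13,5)]⟩),.k,.k,.k,⟨true,0,⟨3,[(0,0),(5,
  0),(2,0),(13,0)]⟩,⟨0,[]⟩⟩,⟨false,1,⟨2,[(11,0),(0,0),(25,1)]⟩,⟨0,[(22,0)]⟩⟩,⟨true,0,⟨1,[(0,0),(0,
  0),(4,0),(34,0)]⟩,⟨0,[(4,0),(6,0)]⟩⟩,⟨false,1,⟨0,[(6,0),(12,0)]⟩,⟨0,[(8,0)]⟩⟩,⟨false,0,⟨0,[]⟩,⟨0,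
  []⟩⟩,⟨false,0,⟨0,[]⟩,⟨0,[]⟩⟩,[.e ⟨false,1,⟨1,[(1,1),(1,0),(11,0),(0,0)]⟩,⟨1,[(4,0),(0,0),(5,0),
  (25,0)]⟩⟩ ⟨false,1,⟨1,[(1,1),(1,0),(7,1),(20,0)]⟩,⟨0,[(9,0),(24,0)]⟩⟩,.o ⟨false,1,⟨0,[(21,0),(17,
  0)]⟩,⟨0,[(4,0),(22,0),(9,0)]⟩⟩,.o ⟨false,0,⟨3,[(0,0),(5,0),(2,0),(13,0)]⟩,⟨1,[(27,0),(10,0)]⟩⟩,.a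
  ⟨true,(-1),⟨0,[(0,0)]⟩,⟨0,[(38,0)]⟩⟩ ⟨false,1,⟨5,[(1,1),(1,2),(2,3),(25,1),(6,0)]⟩,⟨19,[(5,10),(1,
  1),(1,1),(1,0),(0,2),(7,6),(6,0)]⟩⟩ ⟨true,1,⟨1,[(1,1),(1,0),(7,1),(20,0)]⟩,⟨0,[(7,0),(0,0),(13,
  0)]⟩⟩]⟩) (.R ⟨0,false,false,false,[1,0,-1],[1,-1],[1],(⟨0,[(24,0)]⟩,⟨0,[(25,0)]⟩),(⟨0,[(28,0)]⟩,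
  ⟨0,[(29,0)]⟩),⟨0,[(13,0)]⟩,.k,.k,.k,.k,.k,.k,⟨false,0,⟨0,[(37,0)]⟩,⟨1,[(3,0),(11,0),(0,0)]⟩⟩,
  ⟨true,0,⟨0,[(22,0)]⟩,⟨0,[(10,0)]⟩⟩,⟨false,0,⟨0,[(5,0)]⟩,⟨1,[(1,1),(1,0),(11,0),(0,0)]⟩⟩,⟨true,0,
  ⟨0,[(8,0)]⟩,⟨3,[(1,2),(5,0),(3,0),(7,0),(1,0),(8,0)]⟩⟩,⟨false,0,⟨0,[]⟩,⟨0,[]⟩⟩,⟨false,0,⟨0,[]⟩,⟨0,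
  []⟩⟩,[.a ⟨true,0,⟨1,[(32,0),(3,1),(2,0)]⟩,⟨0,[(37,0)]⟩⟩ ⟨true,0,⟨0,[]⟩,⟨1,[(22,0),(0,0)]⟩⟩ ⟨false,
  1,⟨1,[(3,0),(18,1),(15,0)]⟩,⟨3,[(7,0),(3,0),(0,0),(21,0),(2,1)]⟩⟩,.o ⟨false,1,⟨0,[(36,0),(2,0)]⟩,
  ⟨1,[(0,0),(0,0),(2,0),(2,0),(19,0),(9,0)]⟩⟩,.o ⟨false,0,⟨0,[(10,0)]⟩,⟨1,[(0,0),(5,0),(2,0),(12,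
  0)]⟩⟩,.o ⟨false,0,⟨0,[(23,0)]⟩,⟨0,[(0,0),(21,0)]⟩⟩]⟩)))) (.Q [0,0,0,1,0,0,1,0,0,0,1] (.p true [0,
  0,1] [] (⟨0,[(22,0)]⟩,⟨0,[(21,0)]⟩) .k 0 (⟨0,[]⟩,⟨0,[]⟩) .k .k) (.R ⟨0,false,false,false,[0,1,-1],
  [0,1],[1,1,1],(⟨0,[(12,0)]⟩,⟨0,[(23,0),(2,0)]⟩),(⟨0,[(27,0)]⟩,⟨0,[(26,0)]⟩),⟨0,[(23,0)]⟩,.k,.k,.k,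
  .k,.k,.k,⟨true,0,⟨0,[(34,0)]⟩,⟨1,[(1,0),(35,0)]⟩⟩,⟨false,1,⟨0,[(20,0),(15,0)]⟩,⟨0,[(8,0)]⟩⟩,
  ⟨false,0,⟨0,[(3,0),(30,0)]⟩,⟨3,[(0,1),(3,1),(14,1),(10,0),(5,0),(0,1)]⟩⟩,⟨true,0,⟨2,[(0,0),(2,0),
  (2,0),(11,0)]⟩,⟨0,[(19,0)]⟩⟩,⟨false,0,⟨0,[]⟩,⟨0,[]⟩⟩,⟨false,0,⟨0,[]⟩,⟨0,[]⟩⟩,[.e ⟨false,0,⟨0,[(39,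
  0)]⟩,⟨1,[(36,0),(0,0)]⟩⟩ ⟨false,0,⟨0,[(0,0)]⟩,⟨5,[(9,1),(0,1),(23,5),(1,0),(0,2)]⟩⟩,.o ⟨false,1,
  ⟨4,[(0,0),(3,0),(4,1),(8,0),(6,0),(6,2),(4,0)]⟩,⟨0,[(34,0)]⟩⟩,.o ⟨false,1,⟨7,[(9,3),(0,1),(2,0),
  (0,0),(10,2)]⟩,⟨0,[(20,0)]⟩⟩,.a ⟨true,0,⟨0,[(8,0)]⟩,⟨1,[(0,1),(29,0),(3,1),(2,0)]⟩⟩ ⟨false,0,⟨0,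
  []⟩,⟨1,[(13,0),(0,0),(22,0)]⟩⟩ ⟨true,0,⟨0,[(0,0)]⟩,⟨0,[(8,0),(25,0)]⟩⟩]⟩) (.R ⟨0,false,false,
  false,[0,1,-1],[0,1],[1,1,1],(⟨0,[(12,0)]⟩,⟨0,[(23,0),(2,0)]⟩),(⟨0,[(27,0)]⟩,⟨0,[(26,0)]⟩),⟨0,
  [(23,0)]⟩,.k,.k,.k,.k,.k,.k,⟨true,0,⟨0,[(34,0)]⟩,⟨1,[(1,0),(35,0)]⟩⟩,⟨false,1,⟨0,[(20,0),(15,0)]⟩,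
  ⟨0,[(8,0)]⟩⟩,⟨false,0,⟨1,[(0,0),(2,0),(3,0)]⟩,⟨1,[(4,1),(25,0),(2,1),(3,0)]⟩⟩,⟨true,0,⟨0,[(6,0),
  (28,0)]⟩,⟨0,[(19,0)]⟩⟩,⟨false,0,⟨0,[]⟩,⟨0,[]⟩⟩,⟨false,0,⟨0,[]⟩,⟨0,[]⟩⟩,[.a ⟨true,0,⟨0,[(35,0)]⟩,
  ⟨1,[(30,0),(3,1),(2,0)]⟩⟩ ⟨false,0,⟨0,[(39,0)]⟩,⟨1,[(36,0),(0,0)]⟩⟩ ⟨true,0,⟨0,[(20,0),(14,0)]⟩,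
  ⟨0,[(0,0)]⟩⟩,.o ⟨false,1,⟨1,[(25,0),(9,1),(1,0)]⟩,⟨0,[(34,0)]⟩⟩,.o ⟨false,1,⟨7,[(9,3),(0,1),(2,0),
  (0,0),(10,2)]⟩,⟨0,[(20,0)]⟩⟩,.e ⟨false,0,⟨0,[]⟩,⟨1,[(13,0),(0,0),(22,0)]⟩⟩ ⟨false,1,⟨1,[(20,1),
  (14,1),(0,0),(0,0)]⟩,⟨0,[(0,0)]⟩⟩]⟩)))) (.R ⟨0,false,false,true,[0,1,-1],[1,0,-1],[1,0,1],(⟨0,[(9,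
  0)]⟩,⟨0,[(20,0),(2,0)]⟩),(⟨0,[(19,0)]⟩,⟨0,[(20,0)]⟩),⟨0,[(20,0)]⟩,.k,.k,.k,.k,.k,.k,⟨true,0,⟨0,
  [(2,0),(0,0),(30,0)]⟩,⟨0,[(0,0)]⟩⟩,⟨false,0,⟨2,[(10,0),(0,0),(9,0),(1,0),(3,0)]⟩,⟨1,[(22,0),(10,
  0)]⟩⟩,⟨true,0,⟨0,[(3,0),(1,0)]⟩,⟨0,[(0,0),(31,0)]⟩⟩,⟨false,0,⟨1,[(27,0),(3,1),(2,0)]⟩,⟨1,[(22,0),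
  (9,1),(1,0)]⟩⟩,⟨false,0,⟨0,[]⟩,⟨0,[]⟩⟩,⟨false,0,⟨0,[]⟩,⟨0,[]⟩⟩,[.o ⟨false,0,⟨0,[(16,0)]⟩,⟨1,[(3,
  1),(18,0),(9,1),(1,0)]⟩⟩,.e ⟨false,1,⟨1,[(10,0),(0,0),(22,0)]⟩,⟨0,[(30,0)]⟩⟩ ⟨false,0,⟨1,[(0,1),
  (26,0),(6,0)]⟩,⟨13,[(3,5),(2,9),(0,1),(7,7),(6,2),(6,5),(4,0)]⟩⟩,.o ⟨false,1,⟨7,[(6,3),(0,1),(2,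
  0),(0,0),(10,2)]⟩,⟨0,[(17,0)]⟩⟩,.a ⟨true,0,⟨0,[(5,0)]⟩,⟨1,[(17,1),(9,0),(2,1),(3,0)]⟩⟩ ⟨true,0,⟨0,
  []⟩,⟨0,[(36,0)]⟩⟩ ⟨false,0,⟨1,[(0,1),(26,0),(6,0)]⟩,⟨6,[(3,5),(2,2),(0,1),(7,0),(6,2),(6,5),(4,
  0)]⟩⟩]⟩))))) (.R ⟨2,true,false,false,[0,1],[0,1,-1],[0,1],(⟨0,[]⟩,⟨0,[]⟩),(⟨0,[(5,0)]⟩,⟨0,[(16,0),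
  (2,0)]⟩),⟨0,[]⟩,.k,.k,.k,.k,.k,.k,⟨false,1,⟨1,[(2,1),(8,1),(11,0),(3,1),(2,0)]⟩,⟨0,[(0,0),(12,
  0)]⟩⟩,⟨true,0,⟨0,[(1,0)]⟩,⟨0,[(13,0)]⟩⟩,⟨false,1,⟨1,[(27,1),(1,0),(0,0)]⟩,⟨0,[(25,0)]⟩⟩,⟨true,0,
  ⟨0,[(0,0),(26,0)]⟩,⟨0,[(11,0)]⟩⟩,⟨true,0,⟨0,[(26,0)]⟩,⟨1,[(13,0),(0,0)]⟩⟩,⟨false,0,⟨0,[(0,0)]⟩,⟨0,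
  [(11,0),(15,0),(2,0)]⟩⟩,[]⟩)) (.I [1,1,-1,-1,0,0,0,1] (.R ⟨0,false,false,false,[0,1,-1],[0,1],[1],
  (⟨0,[(5,0)]⟩,⟨0,[(16,0),(2,0)]⟩),(⟨0,[(20,0)]⟩,⟨0,[(19,0)]⟩),⟨0,[(16,0)]⟩,.k,.k,.k,.k,.k,.k,
  ⟨false,1,⟨1,[(1,1),(0,1),(20,0),(3,1),(2,0)]⟩,⟨0,[(25,0),(6,0)]⟩⟩,⟨true,0,⟨0,[(1,0)]⟩,⟨0,[(14,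
  0)]⟩⟩,⟨false,1,⟨0,[(0,0),(29,0)]⟩,⟨0,[(1,0),(10,0),(12,0)]⟩⟩,⟨true,0,⟨0,[(0,0),(0,0),(23,0)]⟩,⟨0,
  [(12,0)]⟩⟩,⟨false,0,⟨0,[]⟩,⟨0,[]⟩⟩,⟨false,0,⟨0,[]⟩,⟨0,[]⟩⟩,[.a ⟨true,0,⟨0,[(28,0)]⟩,⟨1,[(23,0),(3,
  1),(2,0)]⟩⟩ ⟨true,0,⟨0,[]⟩,⟨1,[(13,0),(0,0)]⟩⟩ ⟨false,0,⟨0,[(1,0),(26,0)]⟩,⟨5,[(2,1),(0,1),(23,5),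
  (1,0),(0,2)]⟩⟩,.o ⟨false,1,⟨1,[(18,0),(9,1),(1,0)]⟩,⟨0,[(27,0)]⟩⟩,.o ⟨false,1,⟨7,[(2,3),(0,1),(2,
  0),(0,0),(10,2)]⟩,⟨0,[(13,0)]⟩⟩,.o ⟨false,1,⟨3,[(3,1),(2,0),(0,0),(10,2)]⟩,⟨0,[(1,0)]⟩⟩]⟩) (.Q [0,
  0,0,0,0,0,-1,-1,0,0,-1] (.p false [0,0,1] [] (⟨0,[(16,0)]⟩,⟨0,[(15,0)]⟩) .k 0 (⟨0,[]⟩,⟨0,[]⟩) .k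
  .k) (.Q [0,-1,-1,-1,1,0,-1,0,0,0,-1] (.p false [0,0,1] [] (⟨0,[(17,0)]⟩,⟨0,[(16,0)]⟩) .k 0 (⟨0,
  []⟩,⟨0,[]⟩) .k .k) (.R ⟨0,false,false,true,[0,1,-1],[0,1],[1,1],(⟨0,[(7,0)]⟩,⟨0,[(18,0),(2,0)]⟩),
  (⟨0,[(22,0)]⟩,⟨0,[(21,0)]⟩),⟨0,[(18,0)]⟩,.k,.k,.k,.k,.k,.k,⟨false,1,⟨3,[(0,1),(2,3),(0,1),(20,0),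
  (3,1),(1,0)]⟩,⟨0,[(27,0),(6,0)]⟩⟩,⟨true,0,⟨0,[(3,0)]⟩,⟨0,[(16,0)]⟩⟩,⟨false,1,⟨0,[(0,0),(12,0)]⟩,
  ⟨0,[(2,0)]⟩⟩,⟨true,0,⟨0,[(13,0)]⟩,⟨0,[(1,0)]⟩⟩,⟨false,0,⟨0,[]⟩,⟨0,[]⟩⟩,⟨false,0,⟨0,[]⟩,⟨0,[]⟩⟩,
  [.e ⟨false,0,⟨0,[(28,0)]⟩,⟨1,[(8,0),(0,0),(22,0)]⟩⟩ ⟨false,0,⟨1,[(3,0),(11,0),(7,0),(6,1)]⟩,⟨0,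
  [(0,0)]⟩⟩,.a ⟨true,0,⟨0,[(30,0)]⟩,⟨1,[(25,0),(3,1),(2,0)]⟩⟩ ⟨true,0,⟨0,[]⟩,⟨1,[(15,0),(0,0)]⟩⟩
  ⟨false,0,⟨0,[(3,0),(26,0)]⟩,⟨15,[(0,11),(4,1),(2,2),(0,2),(10,0),(2,3),(5,3)]⟩⟩,.o ⟨false,1,⟨7,
  [(4,3),(0,1),(2,0),(0,0),(10,2)]⟩,⟨0,[(15,0)]⟩⟩,.o ⟨false,1,⟨3,[(5,1),(2,0),(0,0),(10,2)]⟩,⟨0,[(3,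
  0)]⟩⟩]⟩) (.I [1,0,-1,-1,1,0,0,1] (.R ⟨0,false,false,true,[0,1,-1],[0,1],[1,1],(⟨0,[(8,0)]⟩,⟨0,
  [(19,0),(2,0)]⟩),(⟨0,[(23,0)]⟩,⟨0,[(22,0)]⟩),⟨0,[(19,0)]⟩,.k,.k,.k,.k,.k,.k,⟨false,1,⟨1,[(4,1),(0,
  1),(20,0),(3,1),(2,0)]⟩,⟨0,[(28,0),(6,0)]⟩⟩,⟨true,0,⟨0,[(4,0)]⟩,⟨0,[(17,0)]⟩⟩,⟨false,1,⟨0,[(0,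
  0)]⟩,⟨0,[(3,0)]⟩⟩,⟨true,0,⟨0,[(14,0)]⟩,⟨0,[(2,0)]⟩⟩,⟨false,0,⟨0,[]⟩,⟨0,[]⟩⟩,⟨false,0,⟨0,[]⟩,⟨0,
  []⟩⟩,[.o ⟨false,0,⟨8,[(1,6),(3,2),(0,1),(14,3),(2,0),(6,1)]⟩,⟨0,[(30,0),(2,0)]⟩⟩,.a ⟨true,0,⟨0,
  [(31,0)]⟩,⟨1,[(26,0),(3,1),(2,0)]⟩⟩ ⟨true,0,⟨0,[]⟩,⟨1,[(16,0),(0,0)]⟩⟩ ⟨false,0,⟨1,[(1,1),(30,0),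
  (0,0)]⟩,⟨0,[(0,0),(1,0)]⟩⟩,.o ⟨false,1,⟨7,[(5,3),(0,1),(2,0),(0,0),(10,2)]⟩,⟨0,[(16,0)]⟩⟩,.o
  ⟨false,1,⟨3,[(6,1),(2,0),(0,0),(10,2)]⟩,⟨0,[(4,0)]⟩⟩]⟩) (.R ⟨2,true,false,true,[0,1],[0,0,1],[1,1,
  0,0,0,0,0,1],(⟨0,[]⟩,⟨0,[]⟩),(⟨0,[(19,0)]⟩,⟨0,[(18,0)]⟩),⟨0,[]⟩,.k,.k,.k,.k,.k,.k,⟨true,0,⟨0,[]⟩,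
  ⟨1,[(16,0),(0,0)]⟩⟩,⟨false,0,⟨0,[(4,0)]⟩,⟨5,[(5,1),(0,1),(2,2),(0,2),(21,0)]⟩⟩,⟨true,1,⟨5,[(5,1),
  (0,1),(7,5),(15,5),(1,0),(0,2)]⟩,⟨0,[(0,0)]⟩⟩,⟨false,1,⟨0,[(14,0),(15,0),(2,0)]⟩,⟨4,[(0,3),(2,0),
  (1,1),(0,0),(6,0),(19,1)]⟩⟩,⟨false,1,⟨5,[(5,1),(0,1),(7,5),(17,0),(0,2)]⟩,⟨0,[(0,0),(29,0),(2,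
  0)]⟩⟩,⟨true,0,⟨0,[(14,0)]⟩,⟨0,[(2,0)]⟩⟩,[]⟩))) (.Q [0,0,0,-1,0,0,-1,0,0,1,-1] (.p false [0,0,1]
  [1] (⟨0,[(17,0)]⟩,⟨0,[(16,0)]⟩) .k 1 (⟨0,[]⟩,⟨0,[]⟩) .k .k) (.R ⟨0,false,false,false,[0,1,-1],[0,
  1],[0,0,1],(⟨0,[(7,0)]⟩,⟨0,[(18,0),(2,0)]⟩),(⟨0,[(22,0)]⟩,⟨0,[(21,0)]⟩),⟨0,[(18,0)]⟩,.k,.k,.k,.k,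
  .k,.k,⟨false,1,⟨1,[(29,1),(1,0),(0,0)]⟩,⟨0,[(30,0)]⟩⟩,⟨true,0,⟨0,[(3,0)]⟩,⟨0,[(16,0)]⟩⟩,⟨false,1,
  ⟨1,[(0,1),(0,1),(18,0),(11,0)]⟩,⟨0,[(2,0),(25,0)]⟩⟩,⟨true,0,⟨0,[(1,0)]⟩,⟨0,[(14,0)]⟩⟩,⟨false,0,⟨0,
  []⟩,⟨0,[]⟩⟩,⟨false,0,⟨0,[]⟩,⟨0,[]⟩⟩,[.a ⟨true,0,⟨0,[(30,0)]⟩,⟨1,[(25,0),(3,1),(2,0)]⟩⟩ ⟨true,0,⟨1,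
  [(15,0),(0,0)]⟩,⟨0,[]⟩⟩ ⟨false,0,⟨0,[(3,0),(26,0)]⟩,⟨1,[(0,1),(19,0),(10,0)]⟩⟩,.o ⟨false,1,⟨1,
  [(20,0),(9,1),(1,0)]⟩,⟨0,[(29,0)]⟩⟩,.o ⟨false,1,⟨7,[(4,3),(0,1),(2,0),(0,0),(10,2)]⟩,⟨0,[(15,
  0)]⟩⟩,.o ⟨false,1,⟨3,[(5,1),(2,0),(0,0),(10,2)]⟩,⟨0,[(3,0)]⟩⟩]⟩) (.Q [0,0,0,1,0,0,-1,-1,0,0,-1]
  (.p false [0,0,1] [] (⟨0,[(18,0)]⟩,⟨0,[(17,0)]⟩) .k 0 (⟨0,[]⟩,⟨0,[]⟩) .k .k) (.I [1,1,-1,0,0,0,0,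
  1] (.R ⟨2,true,false,true,[0,1],[0,0,1],[1,1,0,0,0,0,0,1],(⟨0,[]⟩,⟨0,[]⟩),(⟨0,[(20,0)]⟩,⟨0,[(19,
  0)]⟩),⟨0,[]⟩,.k,.k,.k,.k,.k,.k,⟨true,0,⟨0,[]⟩,⟨1,[(17,0),(0,0)]⟩⟩,⟨false,0,⟨0,[(5,0)]⟩,⟨5,[(6,1),
  (0,1),(2,2),(0,2),(21,0)]⟩⟩,⟨false,1,⟨0,[(0,0),(30,0),(2,0)]⟩,⟨0,[(4,0)]⟩⟩,⟨true,0,⟨0,[(3,0),(27,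
  0)]⟩,⟨0,[(1,0)]⟩⟩,⟨true,0,⟨0,[(0,0)]⟩,⟨0,[(4,0),(26,0)]⟩⟩,⟨false,0,⟨0,[(3,0)]⟩,⟨0,[(16,0),(17,
  0)]⟩⟩,[]⟩) (.I [0,0,0,0,1,0,0,0,-1] (.I [0,0,1,0,0,0,0,1] (.C [(0,0),(1,0),(1,0),(3,0),(20,0),(3,
  0)]) (.C [(0,0),(4,0),(14,0)])) (.C [(0,0),(10,0),(2,0)]))) (.I [0,0,0,0,0,0,0,1] (.I [0,0,0,0,1,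
  0,0,0,-1] (.I [0,0,0,1,0,0,-1] (.I [0,0,1,0,0,0,-1] (.I [0,0,-1,1] (.I [0,0,0,1,0,0,1] (.I [0,0,1,
  1,0,-1] (.I [0,0,-1,0,0,1,-1] (.I [0,0,1,-1,0,0,0,1] (.C [(0,0),(9,0),(1,0),(1,0),(20,0),(3,0)])
  (.C [(0,0),(8,0),(16,0)])) (.C [(0,0),(14,0),(5,0)])) (.C [(0,0),(7,0),(15,0),(4,0)])) (.C [(0,0),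
  (6,0),(6,0),(13,0)])) (.C [(0,0),(5,0),(11,0)])) (.C [(0,0),(10,0),(9,0),(4,0)])) (.C [(0,0),(3,
  0),(5,0),(5,0),(3,0),(4,0)])) (.C [(0,0),(10,0),(2,0)])) (.C [(0,0),(0,0),(0,0),(11,0),(3,
  0)])))))))

theorem ok1 : chk K t1 r0 = true := by decide +kernel

noncomputable def t2 : Tre :=
  .Q [0,0,2,0,-1,0,1,0,0,1,1] (.p true [1,-1,1] [] (⟨0,[(13,0),(2,0)]⟩,⟨0,[(2,0)]⟩) .k 0 (⟨0,[]⟩,⟨0,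
  []⟩) .k .k) t0 t1

theorem ok2 : chk K t2 base = true :=
  chk_Q (e' := [0,0,-2,0,1,0,-1,0,0,-1,-1]) (by decide +kernel) (by decide +kernel) ok0 ok1

theorem closed {p a b c J l q : ℤ} {D dl : ℝ} {Cl : ℤ → ℤ → ℤ → ℤ → ℝ → Prop}
    (W : World p a b c J 1 l q D dl Cl) (g : G0 p a b c J D)
    {N X R : ℤ} {I : ℝ} (hk : KCl p l Cl N X R I) (kz : KF a b D (X + (1 : ℤ) * I) (X + (1 : ℤ) * I + R) I)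
    {Ne Xe : ℤ} {Ie : ℝ} (he : EFac p 1 D Cl 1 Ne Xe Ie)
    (hkf : ∀ kf ∈ (kfY 1 [0,0,0,0,0,0,1,0,0,0,1]), KOk p l Cl 1
      (xv [1, a, b, c, p, J, X, R, Xe] [D, I, Ie]) N kf)
    (h0 : 1 ≤ (c : ℝ))
    (h1 : 1 ≤ (a : ℝ) - (b : ℝ))
    (h2 : 1 ≤ 1 - (a : ℝ) + (b : ℝ) + (c : ℝ))
    (h3 : 0 < -1 + (p : ℝ) - 2 * D)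
    (h4 : 0 < 3 - (p : ℝ) + 2 * D)
    (h5 : 0 < 1 + 3 * (J : ℝ) - D)
    (h6 : 1 ≤ 2 * (a : ℝ) - (b : ℝ))
    (h7 : 1 ≤ -2 + (J : ℝ))
    (h8 : 0 < -(b : ℝ) - (X : ℝ) + D - I)
    (h9 : 0 < (J : ℝ) - I)
    (h10 : 0 < (J : ℝ) - D + I)
    (h11 : 0 < -2 * (X : ℝ) + D - 2 * I) : False := by
  have g1 := g.a2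
  have g2 := g.b2
  have g3 := g.pa
  have g4 := g.pb
  have g5 := g.J1
  have g6 := g.JD
  have g7 := g.D2
  have g8 := g.ca
  have g9 := g.ca'
  have k1 := kz.I0
  have k2 := kz.ID
  have k3 := kz.z1
  have k4 := kz.z2
  have k5 := kz.s1
  have k6 := kz.s2
  have e1 := he.I0
  have e2 := he.ID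
  have e3 := he.x0
  have e4 := he.xp
  push_cast at *
  refine (val_E W.toBase hk he (row := [1]) (by simp) (by simp) (kfY 1 [0,0,0,0,0,0,1,0,0,0,1])).sound W rfl (Nk := N)
    (fun kf _ _ => ⟨_, rfl⟩) hkf ?_ ok2
  · simp only [base, List.forall_mem_cons, List.not_mem_nil, false_imp_iff, implies_true,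
      and_true, hld, xv, evg_cons, evg_nil, List.map_cons, List.map_nil, List.cons_append,
      List.nil_append, if_true, if_false, Bool.false_eq_true]
    push_cast
    refine ⟨?_, ?_, ?_, ?_, ?_, ?_, ?_, ?_, ?_, ?_, ?_, ?_, ?_, ?_, ?_, ?_, ?_, ?_, ?_, ?_, ?_, ?_, ?_, ?_, ?_, ?_, ?_, ?_, ?_, ?_⟩ <;> linarith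

end Helper48.Y.Y11_c2_P3_m0n0

namespace Helper48.Y.Y11_c35_P1_m1n0

open Helper25.KG Helper25.KW Helper55.KE Helper11.CT

noncomputable def K : Cls :=
  cE 1 [1] (kfY 1 [0,0,0,0,0,0,1,0,0,0,1])

noncomputable def base : List Con :=
  [(false,[0,0,0,0,0,0,-2,0,0,1,-2]),
  (false,[0,0,0,0,0,1,0,0,0,-1,1]),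
  (false,[0,0,0,0,0,-1,0,0,0,0,1]),
  (false,[0,0,0,0,1,0,0,0,-1,0,0,-1]),
  (false,[0,0,0,0,0,0,0,0,1,0,0,1]),
  (false,[0,0,0,0,0,0,0,0,0,1,0,-1]),
  (false,[0,0,0,0,0,0,0,0,0,0,0,1]),
  (false,[0,0,-1,0,0,0,-1,0,0,1,-1]),
  (false,[0,1,0,0,0,0,1,1,0,0,1]),
  (false,[0,1,0,0,0,0,-1,-1,0,0,-1]),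
  (false,[0,0,1,0,0,0,1,0,0,0,1]),
  (false,[0,0,1,0,0,0,-1,0,0,0,-1]),
  (false,[0,0,0,0,0,0,0,0,0,1,-1]),
  (false,[0,0,0,0,0,0,0,0,0,0,1]),
  (true,[2,0,0,0,0,-1]),
  (false,[0,0,0,0,1,0,0,0,0,-2]),
  (false,[0,0,0,0,0,-1,0,0,0,1]),
  (true,[0,0,0,0,0,1]),
  (true,[0,2,-1]),
  (false,[1,0,0,0,1,0,0,0,0,-3]),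
  (true,[0,2,-1]),
  (true,[1,-1,1]),
  (true,[0,1,0,-1]),
  (true,[0,0,0,1]),
  (true,[0,0,-2,0,1]),
  (true,[0,-2,0,0,1]),
  (true,[-1,0,1]),
  (true,[-1,1])]

noncomputable def t0 : Tre :=
  (.I [1,-1,0,0,0,0,0,-1] (.Q [0,1,0,1,0,0,0,0,0,-1] (.pp true [-1,1]) (.R ⟨0,false,false,false,[1,
  0,-1],[2,-1,-1],[1],(⟨0,[(14,0)]⟩,⟨0,[(15,0)]⟩),(⟨0,[(14,0),(3,0)]⟩,⟨0,[(3,0)]⟩),⟨0,[(3,0)]⟩,.k,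
  .k,.k,.k,.k,.k,⟨true,0,⟨0,[(0,0),(8,0),(0,0),(12,1)]⟩,⟨0,[(1,0),(22,0)]⟩⟩,⟨false,0,⟨0,[(9,0),(2,
  0)]⟩,⟨1,[(17,0),(8,0)]⟩⟩,⟨false,1,⟨3,[(2,0),(6,1),(0,3),(10,0),(1,1),(3,2)]⟩,⟨3,[(1,2),(9,0),(0,
  0),(9,0)]⟩⟩,⟨true,0,⟨0,[(1,0),(7,0),(0,0),(12,0),(0,0)]⟩,⟨0,[(0,0)]⟩⟩,⟨false,0,⟨0,[]⟩,⟨0,[]⟩⟩,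
  ⟨false,0,⟨0,[]⟩,⟨0,[]⟩⟩,[.o ⟨false,0,⟨1,[(1,1),(0,0),(6,0),(2,0),(11,1)]⟩,⟨0,[(1,0),(7,0),(0,1),
  (10,0),(1,0),(1,0)]⟩⟩,.o ⟨false,0,⟨0,[(1,0),(7,0),(13,0),(0,0)]⟩,⟨1,[(0,1),(9,1),(6,0),(9,0)]⟩⟩,
  .a ⟨true,0,⟨1,[(2,0),(6,0),(2,0)]⟩,⟨0,[(1,0),(8,0)]⟩⟩ ⟨true,0,⟨0,[]⟩,⟨0,[(29,0)]⟩⟩ ⟨false,0,⟨0,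
  [(1,1),(7,0),(0,0),(12,0),(0,0)]⟩,⟨1,[(2,0),(7,1),(10,0),(3,1),(1,0)]⟩⟩,.o ⟨false,0,⟨0,[(13,0)]⟩,
  ⟨2,[(1,1),(8,1),(1,0),(8,0),(4,1)]⟩⟩]⟩) (.I [0,0,1,0,0,0,0,1] (.Q [0,0,0,0,0,0,-1,-1,0,0,-1] (.p
  false [0,0,1] [] (⟨0,[(16,0)]⟩,⟨0,[(15,0)]⟩) .k 0 (⟨0,[]⟩,⟨0,[]⟩) .k .k) (.R ⟨0,false,false,true,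
  [-1,1,1],[0,0,1],[0,1,1,0,0,0,0,1],(⟨0,[(5,0)]⟩,⟨0,[(16,0),(3,0)]⟩),(⟨0,[(17,0)]⟩,⟨0,[(16,0)]⟩),
  ⟨0,[(16,0)]⟩,.k,.k,.k,.k,.k,.k,⟨true,0,⟨1,[(14,0),(0,0)]⟩,⟨0,[]⟩⟩,⟨false,0,⟨0,[(11,0),(2,0)]⟩,⟨1,
  [(19,0),(8,0)]⟩⟩,⟨true,0,⟨0,[(26,0)]⟩,⟨0,[(27,0)]⟩⟩,⟨false,0,⟨5,[(2,4),(1,0),(9,1),(9,1),(1,0)]⟩,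
  ⟨1,[(19,0),(7,1),(1,0)]⟩⟩,⟨false,0,⟨0,[]⟩,⟨0,[]⟩⟩,⟨false,0,⟨0,[]⟩,⟨0,[]⟩⟩,[.a ⟨true,0,⟨0,[(12,
  0)]⟩,⟨1,[(3,1),(0,0),(6,0),(2,0)]⟩⟩ ⟨true,0,⟨0,[(1,0),(29,0)]⟩,⟨0,[(3,0)]⟩⟩ ⟨false,0,⟨1,[(4,0),(6,
  0),(0,1),(1,0)]⟩,⟨1,[(3,1),(15,0),(8,0)]⟩⟩,.o ⟨false,1,⟨1,[(12,1),(6,0),(9,0)]⟩,⟨0,[(0,0)]⟩⟩,.e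
  ⟨false,0,⟨0,[(1,0)]⟩,⟨2,[(3,1),(9,0),(0,0),(13,1),(0,0)]⟩⟩ ⟨false,0,⟨0,[(1,0),(9,0),(2,0)]⟩,⟨1,
  [(3,1),(15,0),(8,0)]⟩⟩,.o ⟨false,1,⟨11,[(3,5),(8,5),(1,5),(8,7),(4,2),(0,0),(1,1)]⟩,⟨1,[(4,0),(6,
  0),(2,0)]⟩⟩]⟩) (.I [0,1,0,1,0,0,0,1] (.R ⟨0,false,false,false,[-1,1,1],[1,0,-1],[1,0,1],(⟨0,[(6,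
  0)]⟩,⟨0,[(17,0),(3,0)]⟩),(⟨0,[(17,0)]⟩,⟨0,[(18,0)]⟩),⟨0,[(17,0)]⟩,.k,.k,.k,(.x (-1) ⟨2,[(1,4),(2,
  4),(10,0),(1,5),(1,2),(4,1),(0,1),(3,0),(2,0)]⟩ ⟨1,[(5,1),(0,1),(8,0),(0,0),(1,1)]⟩),.k,.k,⟨true,
  0,⟨0,[(2,0)]⟩,⟨3,[(4,2),(9,0),(0,0),(9,0)]⟩⟩,⟨false,0,⟨0,[(5,0),(6,0),(2,0)]⟩,⟨8,[(1,13),(2,13),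
  (10,3),(8,5),(0,6),(3,2)]⟩⟩,⟨true,0,⟨0,[(4,0),(22,0)]⟩,⟨0,[(0,0)]⟩⟩,⟨false,0,⟨1,[(3,1),(0,1),(0,
  0),(6,0),(1,1),(0,0)]⟩,⟨0,[(1,1),(18,0),(7,0)]⟩⟩,⟨false,0,⟨0,[]⟩,⟨0,[]⟩⟩,⟨false,0,⟨0,[]⟩,⟨0,[]⟩⟩,
  [.e ⟨false,0,⟨0,[]⟩,⟨1,[(8,0),(0,0),(19,0)]⟩⟩ ⟨false,0,⟨3,[(4,1),(0,2),(6,4),(1,1),(0,4)]⟩,⟨8,[(1,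
  16),(2,7),(10,0),(8,5),(0,3),(3,2)]⟩⟩,.a ⟨true,0,⟨1,[(4,1),(0,0),(6,0),(2,0)]⟩,⟨0,[(13,0)]⟩⟩
  ⟨true,0,⟨0,[(26,0)]⟩,⟨0,[(32,0)]⟩⟩ ⟨false,0,⟨0,[(4,0),(0,0),(6,0),(2,0)]⟩,⟨8,[(1,13),(2,4),(10,3),
  (8,5),(0,6),(3,2)]⟩⟩,.o ⟨false,1,⟨8,[(1,7),(2,7),(10,0),(8,5),(0,3),(3,2)]⟩,⟨0,[(5,0),(9,0)]⟩⟩,.o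
  ⟨false,1,⟨14,[(1,3),(2,3),(10,10),(8,9),(0,0),(3,4),(2,1)]⟩,⟨1,[(5,0),(6,0),(2,0)]⟩⟩]⟩) (.R ⟨0,
  false,false,true,[-1,1,1],[0,0,1],[0,1],(⟨0,[(6,0)]⟩,⟨0,[(17,0),(3,0)]⟩),(⟨0,[(18,0)]⟩,⟨0,[(17,
  0)]⟩),⟨0,[(17,0)]⟩,.k,.k,.k,.k,.k,.k,⟨true,0,⟨3,[(4,2),(9,0),(0,0),(9,0)]⟩,⟨0,[(2,0)]⟩⟩,⟨false,0,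
  ⟨0,[(12,0),(2,0)]⟩,⟨1,[(20,0),(8,0)]⟩⟩,⟨true,0,⟨0,[(0,0),(24,0)]⟩,⟨0,[(2,0),(25,0)]⟩⟩,⟨false,0,⟨5,
  [(3,4),(1,0),(9,1),(9,1),(1,0)]⟩,⟨1,[(20,0),(7,1),(1,0)]⟩⟩,⟨false,0,⟨0,[]⟩,⟨0,[]⟩⟩,⟨false,0,⟨0,
  []⟩,⟨0,[]⟩⟩,[.a ⟨true,0,⟨0,[(13,0)]⟩,⟨1,[(4,1),(0,0),(6,0),(2,0)]⟩⟩ ⟨true,0,⟨0,[(32,0)]⟩,⟨0,[(26,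
  0)]⟩⟩ ⟨false,0,⟨1,[(5,0),(6,0),(0,1),(1,0)]⟩,⟨1,[(4,1),(15,0),(8,0)]⟩⟩,.e ⟨false,1,⟨1,[(8,0),(0,
  0),(19,0)]⟩,⟨0,[]⟩⟩ ⟨false,0,⟨1,[(1,0),(0,0),(9,1),(2,0)]⟩,⟨3,[(4,2),(9,0),(0,0),(4,1),(4,0),(3,
  1)]⟩⟩,.o ⟨false,1,⟨8,[(1,7),(2,7),(10,0),(8,5),(0,3),(3,2)]⟩,⟨0,[(5,0),(9,0)]⟩⟩,.o ⟨false,1,⟨14,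
  [(1,3),(2,3),(10,10),(8,9),(0,0),(3,4),(2,1)]⟩,⟨1,[(5,0),(6,0),(2,0)]⟩⟩]⟩))) (.R ⟨0,false,false,
  true,[-1,1,1],[0,0,1],[0,1,1,0,0,0,0,1],(⟨0,[(4,0)]⟩,⟨0,[(15,0),(3,0)]⟩),(⟨0,[(16,0)]⟩,⟨0,[(15,
  0)]⟩),⟨0,[(15,0)]⟩,.k,.k,.k,.k,.k,.k,⟨true,0,⟨1,[(13,0),(0,0)]⟩,⟨0,[]⟩⟩,⟨false,0,⟨0,[(10,0),(2,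
  0)]⟩,⟨1,[(18,0),(8,0)]⟩⟩,⟨true,0,⟨0,[(25,0)]⟩,⟨0,[(26,0)]⟩⟩,⟨false,0,⟨5,[(1,4),(1,0),(9,1),(9,1),
  (1,0)]⟩,⟨1,[(18,0),(7,1),(1,0)]⟩⟩,⟨false,0,⟨0,[]⟩,⟨0,[]⟩⟩,⟨false,0,⟨0,[]⟩,⟨0,[]⟩⟩,[.a ⟨true,0,⟨0,
  [(11,0)]⟩,⟨1,[(2,1),(0,0),(6,0),(2,0)]⟩⟩ ⟨true,0,⟨0,[(11,0),(2,0)]⟩,⟨0,[(2,0)]⟩⟩ ⟨false,0,⟨1,[(3,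
  0),(6,0),(0,1),(1,0)]⟩,⟨1,[(0,1),(17,0),(9,0)]⟩⟩,.o ⟨false,1,⟨1,[(11,1),(6,0),(9,0)]⟩,⟨0,[(0,0),
  (13,0)]⟩⟩,.o ⟨false,1,⟨0,[(0,0),(0,0),(9,0),(10,0),(3,0)]⟩,⟨0,[(3,0),(9,0)]⟩⟩,.o ⟨false,1,⟨5,[(0,
  2),(10,2),(1,2),(8,3),(5,1),(1,0)]⟩,⟨1,[(3,0),(6,0),(2,0)]⟩⟩]⟩))) (.Q [0,0,0,0,0,0,1,1,0,-1,1]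
  (.p true [0,0,1] [1] (⟨0,[(14,0)]⟩,⟨0,[(13,0)]⟩) .k 1 (⟨0,[]⟩,⟨0,[]⟩) .k .k) (.S ⟨1,0,[0,0,0,0,0,
  0,0,1],[0,0,1],[0,1,0,0,0,0,0,1],(⟨0,[(15,0)]⟩,⟨0,[(14,0)]⟩),⟨0,[(4,0)]⟩,.k,.k,⟨true,0,⟨0,[(29,
  0)]⟩,⟨0,[]⟩⟩,⟨false,1,⟨1,[(5,0),(0,0),(20,0)]⟩,⟨0,[]⟩⟩,⟨false,0,⟨0,[(25,0)]⟩,⟨0,[(24,0),(2,0)]⟩⟩,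
  ⟨true,0,⟨0,[(25,0)]⟩,⟨0,[(24,0)]⟩⟩,[.o ⟨false,0,⟨0,[(0,0)]⟩,⟨1,[(5,0),(0,0),(4,1),(15,0)]⟩⟩,.o
  ⟨false,1,⟨3,[(0,1),(9,1),(6,0),(9,2)]⟩,⟨0,[(11,0)]⟩⟩,.o ⟨false,1,⟨1,[(12,1),(4,0),(8,0)]⟩,⟨0,[(0,
  0),(8,0),(1,0),(11,0)]⟩⟩,.a ⟨true,0,⟨0,[(12,0)]⟩,⟨0,[(9,0)]⟩⟩ ⟨false,0,⟨0,[(0,0),(8,0)]⟩,⟨0,[(11,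
  0),(0,0),(14,0)]⟩⟩ ⟨true,0,⟨0,[(0,0),(8,0)]⟩,⟨0,[(11,0),(0,0)]⟩⟩]⟩) (.Q [0,1,0,-1,0,0,1,1,0,0,1]
  (.p true [0,0,1] [] (⟨0,[(15,0)]⟩,⟨0,[(14,0)]⟩) .k 0 (⟨0,[]⟩,⟨0,[]⟩) .k .k) (.I [0,0,1,2,-1] (.Q
  [0,0,0,1,0,0,0,0,0,-1] (.pp true [-1,1]) (.Q [0,0,1,0,-1,0,-1,0,0,1,-1] (.p false [0,0,1] [1] (⟨0,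
  [(18,0)]⟩,⟨0,[(17,0)]⟩) .k 1 (⟨0,[]⟩,⟨0,[]⟩) .k .k) (.Q [0,0,0,0,0,-2,0,0,0,1] (.pp false [-1,1])
  (.S ⟨1,0,[0,1,-1,-1],[1,-1],[0,0,-1,-1],(⟨0,[(23,0)]⟩,⟨0,[(24,0)]⟩),⟨0,[(0,0)]⟩,.k,(.r (-2) ⟨0,
  [(29,1),(1,0),(0,0)]⟩ ⟨1,[(3,1),(13,0),(0,0)]⟩),⟨false,1,⟨1,[(10,0),(0,0),(20,0)]⟩,⟨0,[]⟩⟩,⟨true,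
  0,⟨0,[(34,0)]⟩,⟨0,[]⟩⟩,⟨true,0,⟨0,[(30,0)]⟩,⟨0,[(29,0)]⟩⟩,⟨false,0,⟨0,[(30,0)]⟩,⟨0,[(29,0),(2,
  0)]⟩⟩,[.o ⟨false,0,⟨0,[(29,0)]⟩,⟨1,[(22,0),(7,1),(1,0)]⟩⟩,.o ⟨false,1,⟨1,[(10,0),(0,0),(17,1),(2,
  0)]⟩,⟨0,[(2,0)]⟩⟩,.o ⟨false,0,⟨1,[(17,0),(0,0)]⟩,⟨1,[(22,0),(8,0)]⟩⟩,.a ⟨true,(-1),⟨0,[(1,0),(15,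
  0)]⟩,⟨0,[(31,0)]⟩⟩ ⟨false,2,⟨0,[(29,0),(1,0),(0,0)]⟩,⟨3,[(1,2),(1,1),(13,2),(8,0)]⟩⟩ ⟨true,1,⟨0,
  [(29,0),(1,0)]⟩,⟨3,[(1,2),(1,1),(13,2),(8,0)]⟩⟩]⟩) (.R ⟨2,true,false,true,[0,1],[1,-1],[0,1,1,1],
  (⟨0,[]⟩,⟨0,[]⟩),(⟨0,[(23,0)]⟩,⟨0,[(24,0)]⟩),⟨0,[]⟩,.k,.k,.k,(.r 1 ⟨1,[(3,1),(13,0),(0,0)]⟩ ⟨0,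
  [(29,1),(1,0),(0,0)]⟩),.k,.k,⟨false,(-1),⟨0,[(3,0)]⟩,⟨0,[(29,1),(1,0),(0,0)]⟩⟩,⟨true,(-1),⟨0,[(1,
  0),(15,0)]⟩,⟨1,[(22,0),(8,0)]⟩⟩,⟨true,0,⟨0,[(34,0)]⟩,⟨0,[]⟩⟩,⟨false,1,⟨0,[(4,0),(0,0),(23,0),(2,
  0)]⟩,⟨1,[(0,1),(2,1),(17,3),(9,0),(0,0)]⟩⟩,⟨false,0,⟨0,[(30,0)]⟩,⟨0,[(29,0),(2,0)]⟩⟩,⟨true,0,⟨0,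
  [(4,0),(0,0)]⟩,⟨0,[(2,0)]⟩⟩,[]⟩)) (.I [0,1,0,0,0,0,0,-1] (.Q [0,-1,0,1,0,0,-1,-1,0,1,-1] (.p
  false [0,0,1] [1] (⟨0,[(20,0)]⟩,⟨0,[(19,0)]⟩) .k 1 (⟨0,[]⟩,⟨0,[]⟩) .k .k) (.R ⟨2,true,false,false,
  [0,1],[1,1,-1],[0,0,1,1],(⟨0,[]⟩,⟨0,[]⟩),(⟨0,[(20,0),(4,0)]⟩,⟨0,[(10,0)]⟩),⟨0,[]⟩,.k,.k,.k,.k,.k,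
  .k,⟨true,0,⟨0,[(3,0),(1,0),(9,0),(13,0)]⟩,⟨0,[(1,0),(27,0)]⟩⟩,⟨false,0,⟨0,[(15,0)]⟩,⟨3,[(2,1),(8,
  0),(0,0),(5,1),(4,0)]⟩⟩,⟨false,1,⟨1,[(11,0),(0,0),(20,0)]⟩,⟨0,[]⟩⟩,⟨true,0,⟨0,[(6,0)]⟩,⟨0,[(3,0),
  (1,0)]⟩⟩,⟨true,0,⟨0,[(31,0)]⟩,⟨0,[(30,0)]⟩⟩,⟨false,0,⟨0,[(0,0)]⟩,⟨1,[(5,1),(17,0),(9,0)]⟩⟩,[]⟩)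
  (.R ⟨2,true,false,true,[0,1],[1,0,-1],[1,0,1],(⟨0,[]⟩,⟨0,[]⟩),(⟨0,[(20,0)]⟩,⟨0,[(21,0)]⟩),⟨0,[]⟩,
  .k,.k,.k,.k,.k,.k,⟨true,0,⟨3,[(0,2),(3,1),(0,0),(2,0),(6,1),(13,3),(3,1)]⟩,⟨0,[(1,0)]⟩⟩,⟨false,0,
  ⟨1,[(8,0),(6,0),(2,0)]⟩,⟨0,[(2,0)]⟩⟩,⟨false,1,⟨0,[(30,0),(2,0)]⟩,⟨0,[(31,0)]⟩⟩,⟨true,0,⟨0,[(6,0),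
  (23,0)]⟩,⟨1,[(0,1),(3,1),(27,0),(0,0)]⟩⟩,⟨true,0,⟨0,[]⟩,⟨0,[(35,0)]⟩⟩,⟨false,0,⟨0,[(6,0)]⟩,⟨1,[(0,
  0),(2,0),(12,0),(16,1)]⟩⟩,[]⟩)) (.R ⟨2,true,false,false,[0,1],[1,0,-1],[1,1,1],(⟨0,[]⟩,⟨0,[]⟩),
  (⟨0,[(19,0)]⟩,⟨0,[(20,0)]⟩),⟨0,[]⟩,.k,.k,.k,.k,.k,.k,⟨true,(-1),⟨0,[(0,0),(2,0),(25,1)]⟩,⟨0,[(1,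
  0),(3,0),(22,0)]⟩⟩,⟨false,0,⟨1,[(7,0),(6,0),(2,0)]⟩,⟨0,[(1,0)]⟩⟩,⟨true,0,⟨0,[(29,0)]⟩,⟨0,[(30,
  0)]⟩⟩,⟨false,1,⟨0,[(5,0),(23,0),(2,0)]⟩,⟨1,[(0,0),(0,0),(0,0),(0,0),(0,0)]⟩⟩,⟨false,0,⟨0,[]⟩,⟨1,
  [(10,0),(0,0),(20,0)]⟩⟩,⟨true,0,⟨0,[(5,0)]⟩,⟨0,[(2,0),(1,0)]⟩⟩,[]⟩))) (.R ⟨2,true,false,false,[0,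
  1],[1,-1],[1,1,1],(⟨0,[]⟩,⟨0,[]⟩),(⟨0,[(21,0)]⟩,⟨0,[(22,0)]⟩),⟨0,[]⟩,.k,.k,.k,(.r 1 ⟨1,[(1,1),(13,
  0),(0,0)]⟩ ⟨0,[(27,1),(1,0),(0,0)]⟩),.k,.k,⟨false,(-1),⟨0,[(1,0),(25,0)]⟩,⟨0,[(27,0),(1,0),(0,
  0)]⟩⟩,⟨true,(-1),⟨0,[(0,0),(0,0),(24,0),(0,0)]⟩,⟨1,[(20,0),(8,0)]⟩⟩,⟨true,0,⟨0,[(27,0)]⟩,⟨0,[(28,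
  0)]⟩⟩,⟨false,1,⟨0,[(0,0),(26,0),(2,0)]⟩,⟨1,[(1,1),(18,0),(8,0)]⟩⟩,⟨false,0,⟨0,[]⟩,⟨1,[(8,0),(0,0),
  (20,0)]⟩⟩,⟨true,0,⟨0,[(0,0)]⟩,⟨1,[(1,0),(18,0),(4,0)]⟩⟩,[]⟩)) (.Q [0,0,0,-1,0,0,1,1,0,0,1] (.p
  true [0,0,1] [] (⟨0,[(17,0)]⟩,⟨0,[(16,0)]⟩) .k 0 (⟨0,[]⟩,⟨0,[]⟩) .k .k) (.Q [0,-1,-1,-1,1,0,1,0,0,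
  0,1] (.p true [0,0,1] [] (⟨0,[(18,0)]⟩,⟨0,[(17,0)]⟩) .k 0 (⟨0,[]⟩,⟨0,[]⟩) .k .k) (.Q [0,0,0,0,0,0,
  -1,0,0,0,-1] (.p false [0,0,1] [] (⟨0,[(19,0)]⟩,⟨0,[(18,0)]⟩) .k 0 (⟨0,[]⟩,⟨0,[]⟩) .k .k) (.R ⟨0,
  false,false,false,[1,0,-1],[1,-1],[0,1],(⟨0,[(19,0)]⟩,⟨0,[(20,0)]⟩),(⟨0,[(23,0)]⟩,⟨0,[(24,0)]⟩),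
  ⟨0,[(8,0)]⟩,.k,.k,.k,.k,.k,.k,⟨false,0,⟨0,[(30,0),(3,0)]⟩,⟨4,[(1,2),(1,0),(10,2),(11,0),(1,1)]⟩⟩,
  ⟨true,0,⟨0,[(17,0)]⟩,⟨0,[(0,0)]⟩⟩,⟨false,0,⟨0,[(0,0),(1,0),(27,0)]⟩,⟨2,[(1,1),(3,2),(11,0),(8,0),
  (1,0),(1,1)]⟩⟩,⟨true,0,⟨0,[(2,0)]⟩,⟨0,[(16,0),(13,0)]⟩⟩,⟨false,0,⟨0,[]⟩,⟨0,[]⟩⟩,⟨false,0,⟨0,[]⟩,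
  ⟨0,[]⟩⟩,[.a ⟨true,0,⟨0,[(2,0),(2,0)]⟩,⟨0,[(30,0)]⟩⟩ ⟨true,0,⟨0,[(34,0)]⟩,⟨0,[(28,0)]⟩⟩ ⟨false,1,
  ⟨3,[(1,1),(1,0),(13,1),(9,0),(3,0)]⟩,⟨0,[(0,0),(29,0)]⟩⟩,.e ⟨false,1,⟨1,[(10,0),(0,0),(19,0)]⟩,⟨0,
  []⟩⟩ ⟨false,1,⟨0,[(1,0)]⟩,⟨1,[(0,0),(17,0),(8,0),(2,1)]⟩⟩,.o ⟨false,0,⟨0,[(0,0)]⟩,⟨1,[(17,1),(4,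
  0),(8,0)]⟩⟩,.e ⟨false,1,⟨1,[(10,0),(0,0),(19,0)]⟩,⟨0,[(28,0)]⟩⟩ ⟨false,1,⟨0,[(1,0)]⟩,⟨0,[(18,0),
  (11,0)]⟩⟩]⟩) (.I [1,0,0,0,0,0,0,-1] (.R ⟨0,false,false,true,[1,0,-1],[2,-1,-1],[1,0,0,0,0,0,0,-1],
  (⟨0,[(20,0)]⟩,⟨0,[(21,0)]⟩),(⟨0,[(20,0),(3,0)]⟩,⟨0,[(9,0)]⟩),⟨0,[(9,0)]⟩,.k,.k,.k,.k,.k,.k,⟨true,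
  0,⟨0,[(29,0),(1,0)]⟩,⟨0,[(30,0)]⟩⟩,⟨false,0,⟨0,[(15,0),(2,0)]⟩,⟨1,[(23,0),(8,0)]⟩⟩,⟨true,0,⟨0,[]⟩,
  ⟨0,[(35,0)]⟩⟩,⟨false,0,⟨0,[(3,0),(2,0)]⟩,⟨1,[(23,0),(7,1),(1,0)]⟩⟩,⟨false,0,⟨0,[]⟩,⟨0,[]⟩⟩,⟨false,
  0,⟨0,[]⟩,⟨0,[]⟩⟩,[.o ⟨false,0,⟨0,[(6,0),(23,0)]⟩,⟨0,[(1,0),(1,0),(11,0),(11,0),(1,0),(1,1)]⟩⟩,.o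
  ⟨false,0,⟨0,[(0,1),(2,0),(4,0)]⟩,⟨2,[(3,0),(12,1),(10,1),(3,3),(1,0)]⟩⟩,.a ⟨true,0,⟨1,[(8,0),(6,
  0),(2,0)]⟩,⟨0,[(1,0)]⟩⟩ ⟨true,0,⟨0,[(0,0)]⟩,⟨0,[(7,0)]⟩⟩ ⟨false,0,⟨0,[(0,0),(2,0),(2,0)]⟩,⟨1,[(3,
  1),(4,0),(18,0),(3,3),(1,0)]⟩⟩,.o ⟨false,0,⟨0,[(19,0)]⟩,⟨1,[(1,1),(21,0),(8,0)]⟩⟩]⟩) (.Q [0,0,0,1,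
  0,0,-1,0,0,0,-1] (.p false [0,0,1] [] (⟨0,[(21,0)]⟩,⟨0,[(20,0)]⟩) .k 0 (⟨0,[]⟩,⟨0,[]⟩) .k .k) (.R
  ⟨0,false,false,true,[1,0,-1],[1,-1],[],(⟨0,[(21,0)]⟩,⟨0,[(22,0)]⟩),(⟨0,[(25,0)]⟩,⟨0,[(26,0)]⟩),⟨0,
  [(10,0)]⟩,.k,.k,.k,.k,.k,.k,⟨true,0,⟨0,[(30,0),(1,0)]⟩,⟨0,[(31,0)]⟩⟩,⟨false,0,⟨0,[(2,0)]⟩,⟨3,[(9,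
  1),(2,0),(0,0),(10,0),(8,1)]⟩⟩,⟨true,0,⟨0,[(1,0)]⟩,⟨0,[(2,0),(15,0)]⟩⟩,⟨false,0,⟨0,[(4,0)]⟩,⟨1,
  [(7,1),(16,0),(7,1),(1,0)]⟩⟩,⟨false,0,⟨0,[]⟩,⟨0,[]⟩⟩,⟨false,0,⟨0,[]⟩,⟨0,[]⟩⟩,[.o ⟨false,0,⟨0,[(31,
  0)]⟩,⟨1,[(24,0),(7,1),(1,0)]⟩⟩,.e ⟨false,1,⟨1,[(33,0),(0,0)]⟩,⟨0,[(36,0)]⟩⟩ ⟨false,1,⟨3,[(3,1),(1,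
  0),(13,1),(9,0),(3,0)]⟩,⟨0,[(0,0)]⟩⟩,.a ⟨true,0,⟨1,[(9,0),(6,0),(2,0)]⟩,⟨0,[(2,0)]⟩⟩ ⟨false,1,⟨1,
  [(12,0),(0,0),(20,0)]⟩,⟨0,[]⟩⟩ ⟨true,0,⟨0,[(2,0),(28,0)]⟩,⟨0,[(0,0)]⟩⟩,.o ⟨false,0,⟨0,[(20,0)]⟩,
  ⟨1,[(2,1),(21,0),(8,0)]⟩⟩]⟩) (.R ⟨0,false,false,true,[1,0,-1],[1,-1],[],(⟨0,[(21,0)]⟩,⟨0,[(22,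
  0)]⟩),(⟨0,[(25,0)]⟩,⟨0,[(26,0)]⟩),⟨0,[(10,0)]⟩,.k,.k,.k,.k,.k,.k,⟨true,0,⟨0,[(30,0),(1,0)]⟩,⟨0,
  [(31,0)]⟩⟩,⟨false,0,⟨0,[(2,0)]⟩,⟨3,[(9,1),(2,0),(0,0),(10,0),(8,1)]⟩⟩,⟨true,0,⟨0,[(1,0)]⟩,⟨0,[(2,
  0),(15,0)]⟩⟩,⟨false,0,⟨0,[(4,0)]⟩,⟨1,[(7,1),(16,0),(7,1),(1,0)]⟩⟩,⟨false,0,⟨0,[]⟩,⟨0,[]⟩⟩,⟨false,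
  0,⟨0,[]⟩,⟨0,[]⟩⟩,[.o ⟨false,0,⟨0,[(31,0)]⟩,⟨1,[(24,0),(7,1),(1,0)]⟩⟩,.a ⟨true,0,⟨0,[(4,0),(2,0)]⟩,
  ⟨0,[(32,0)]⟩⟩ ⟨false,1,⟨1,[(33,0),(0,0)]⟩,⟨0,[(36,0)]⟩⟩ ⟨true,0,⟨0,[(0,0)]⟩,⟨0,[(20,0),(11,0)]⟩⟩,
  .e ⟨false,1,⟨1,[(12,0),(0,0),(20,0)]⟩,⟨0,[]⟩⟩ ⟨false,0,⟨0,[(0,0)]⟩,⟨3,[(9,1),(2,0),(0,0),(10,0),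
  (7,3),(1,1)]⟩⟩,.o ⟨false,0,⟨0,[(20,0)]⟩,⟨1,[(2,1),(21,0),(8,0)]⟩⟩]⟩)))) (.Q [0,0,-1,0,1,0,1,0,0,
  -1,1] (.p true [0,0,1] [1] (⟨0,[(19,0)]⟩,⟨0,[(18,0)]⟩) .k 1 (⟨0,[]⟩,⟨0,[]⟩) .k .k) (.I [1,1,0,0,0,
  0,0,-1] (.R ⟨0,false,false,false,[1,0,-1],[1,-1],[1,1,0,0,0,0,0,-1],(⟨0,[(20,0)]⟩,⟨0,[(21,0)]⟩),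
  (⟨0,[(24,0)]⟩,⟨0,[(25,0)]⟩),⟨0,[(9,0)]⟩,.k,.k,.k,.k,.k,.k,⟨false,0,⟨0,[(0,0),(30,0)]⟩,⟨3,[(3,3),
  (4,0),(6,1),(11,0),(4,0),(0,1)]⟩⟩,⟨true,0,⟨0,[(18,0)]⟩,⟨3,[(2,0),(12,2),(11,0),(1,1),(0,0)]⟩⟩,
  ⟨false,0,⟨0,[]⟩,⟨1,[(11,0),(0,0),(20,0)]⟩⟩,⟨true,0,⟨0,[(3,0)]⟩,⟨0,[(17,0),(13,0)]⟩⟩,⟨false,0,⟨0,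
  []⟩,⟨0,[]⟩⟩,⟨false,0,⟨0,[]⟩,⟨0,[]⟩⟩,[.a ⟨true,0,⟨0,[(3,0),(2,0)]⟩,⟨0,[(31,0)]⟩⟩ ⟨true,0,⟨0,[(0,
  0)]⟩,⟨0,[(2,0),(0,0),(29,0)]⟩⟩ ⟨false,1,⟨1,[(0,1),(2,1),(28,0),(0,0)]⟩,⟨5,[(2,1),(5,0),(6,1),(11,
  0),(3,3),(1,0)]⟩⟩,.o ⟨false,1,⟨3,[(4,1),(13,0),(0,0),(13,1)]⟩,⟨0,[(1,0),(0,0)]⟩⟩,.o ⟨false,0,⟨3,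
  [(2,0),(12,2),(11,0),(1,1),(0,0)]⟩,⟨3,[(1,1),(9,0),(0,0),(5,1),(4,0)]⟩⟩,.o ⟨false,0,⟨0,[(19,0)]⟩,
  ⟨0,[(1,0)]⟩⟩]⟩) (.R ⟨0,false,false,false,[1,0,-1],[1,-1],[1],(⟨0,[(20,0)]⟩,⟨0,[(21,0)]⟩),(⟨0,[(24,
  0)]⟩,⟨0,[(25,0)]⟩),⟨0,[(9,0)]⟩,.k,.k,.k,.k,.k,.k,⟨false,0,⟨0,[(31,0)]⟩,⟨3,[(4,1),(6,0),(0,0),(19,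
  0)]⟩⟩,⟨true,0,⟨0,[(18,0)]⟩,⟨4,[(0,1),(1,1),(1,0),(1,1),(8,0),(11,0)]⟩⟩,⟨false,0,⟨0,[(0,0)]⟩,⟨3,
  [(1,1),(4,3),(4,0),(0,0),(5,1),(4,0)]⟩⟩,⟨true,0,⟨0,[(3,0)]⟩,⟨0,[(17,0),(13,0)]⟩⟩,⟨false,0,⟨0,[]⟩,
  ⟨0,[]⟩⟩,⟨false,0,⟨0,[]⟩,⟨0,[]⟩⟩,[.a ⟨true,0,⟨0,[(3,0),(2,0)]⟩,⟨0,[(31,0)]⟩⟩ ⟨true,0,⟨0,[]⟩,⟨1,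
  [(18,0),(0,0)]⟩⟩ ⟨false,1,⟨0,[(1,0),(1,0),(2,0)]⟩,⟨5,[(2,1),(5,0),(6,1),(11,0),(3,3),(1,0)]⟩⟩,.o
  ⟨false,1,⟨3,[(4,1),(13,0),(0,0),(13,1)]⟩,⟨0,[(1,0),(0,0)]⟩⟩,.o ⟨false,0,⟨4,[(0,1),(1,1),(1,0),(1,
  1),(8,0),(11,0)]⟩,⟨3,[(1,1),(9,0),(0,0),(5,1),(4,0)]⟩⟩,.o ⟨false,0,⟨0,[(19,0)]⟩,⟨0,[(1,0)]⟩⟩]⟩))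
  (.I [0,0,1,2,0,0,0,-1] (.Q [0,0,0,1,0,0,1,1,0,-1,1] (.p true [0,0,1] [1] (⟨0,[(21,0)]⟩,⟨0,[(20,
  0)]⟩) .k 1 (⟨0,[]⟩,⟨0,[]⟩) .k .k) (.I [1,1,-1,-1,1,0,0,-1] (.R ⟨2,true,false,true,[0,1],[1,0,-1],
  [0,0,1,1],(⟨0,[]⟩,⟨0,[]⟩),(⟨0,[(22,0)]⟩,⟨0,[(23,0)]⟩),⟨0,[]⟩,.k,.k,.k,.k,.k,.k,⟨false,0,⟨1,[(1,1),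
  (1,0),(13,0),(17,0)]⟩,⟨0,[(0,0)]⟩⟩,⟨true,(-1),⟨0,[(3,0)]⟩,⟨3,[(0,1),(0,1),(18,1),(4,0),(9,0)]⟩⟩,
  ⟨false,1,⟨1,[(13,0),(0,0),(20,0)]⟩,⟨0,[]⟩⟩,⟨true,0,⟨0,[(8,0),(23,0)]⟩,⟨0,[(1,0)]⟩⟩,⟨true,0,⟨0,
  [(33,0)]⟩,⟨0,[(32,0)]⟩⟩,⟨false,0,⟨0,[(8,0)]⟩,⟨3,[(1,1),(5,1),(17,0),(9,2)]⟩⟩,[]⟩) (.R ⟨2,true,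
  false,true,[0,1],[1,0,-1],[1,0,1],(⟨0,[]⟩,⟨0,[]⟩),(⟨0,[(22,0)]⟩,⟨0,[(23,0)]⟩),⟨0,[]⟩,.k,.k,.k,.k,
  .k,.k,⟨false,0,⟨15,[(0,9),(4,5),(0,1),(3,2),(18,0),(4,3),(0,2)]⟩,⟨0,[(19,0),(0,0),(13,0)]⟩⟩,⟨true,
  (-1),⟨0,[(3,0)]⟩,⟨1,[(20,1),(4,0),(8,0)]⟩⟩,⟨false,1,⟨3,[(6,1),(13,0),(0,0),(13,1)]⟩,⟨0,[(33,0)]⟩⟩,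
  ⟨true,0,⟨0,[(8,0),(23,0)]⟩,⟨0,[(1,0)]⟩⟩,⟨true,0,⟨0,[]⟩,⟨0,[(37,0)]⟩⟩,⟨false,0,⟨0,[(8,0)]⟩,⟨3,[(1,
  1),(5,1),(17,0),(9,2)]⟩⟩,[]⟩)) (.I [1,0,0,0,1,0,0,-2] (.Q [0,0,1,-1,-1,0,-1,0,0,1,-1] (.p false
  [0,0,1] [1] (⟨0,[(23,0)]⟩,⟨0,[(22,0)]⟩) .k 1 (⟨0,[]⟩,⟨0,[]⟩) .k .k) (.R ⟨0,false,false,false,[1,0,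
  -1],[0,1],[1,1,1],(⟨0,[(23,0)]⟩,⟨0,[(24,0)]⟩),(⟨0,[(28,0)]⟩,⟨0,[(27,0)]⟩),⟨0,[(12,0)]⟩,.k,.k,.k,
  .k,.k,.k,⟨true,0,⟨0,[(33,0)]⟩,⟨0,[(32,0),(1,0)]⟩⟩,⟨false,2,⟨1,[(21,1),(4,0),(8,2)]⟩,⟨0,[(4,0)]⟩⟩,
  ⟨true,(-1),⟨0,[(5,0),(0,0)]⟩,⟨1,[(1,0),(33,0)]⟩⟩,⟨false,1,⟨2,[(6,1),(12,0),(10,0),(3,4),(1,1)]⟩,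
  ⟨0,[(2,0)]⟩⟩,⟨false,0,⟨0,[]⟩,⟨0,[]⟩⟩,⟨false,0,⟨0,[]⟩,⟨0,[]⟩⟩,[.a ⟨true,0,⟨0,[(34,0)]⟩,⟨1,[(2,0),
  (3,0),(11,0),(2,0)]⟩⟩ ⟨false,0,⟨0,[(38,0)]⟩,⟨1,[(35,0),(0,0)]⟩⟩ ⟨true,1,⟨5,[(3,3),(2,1),(12,1),(1,
  1),(8,1),(4,2),(0,0)]⟩,⟨0,[(0,0)]⟩⟩,.o ⟨false,1,⟨1,[(26,0),(7,1),(1,0)]⟩,⟨0,[(33,0)]⟩⟩,.o ⟨false,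
  0,⟨17,[(0,2),(4,2),(5,2),(6,5),(11,3),(5,1),(1,0)]⟩,⟨1,[(21,1),(4,0),(8,0)]⟩⟩,.e ⟨false,0,⟨0,[]⟩,
  ⟨3,[(1,0),(8,1),(25,2)]⟩⟩ ⟨false,2,⟨2,[(3,1),(2,0),(12,0),(1,0),(8,0),(4,2),(0,1)]⟩,⟨0,[(0,
  0)]⟩⟩]⟩) (.R ⟨0,false,false,false,[1,0,-1],[0,1],[1,1,1],(⟨0,[(23,0)]⟩,⟨0,[(24,0)]⟩),(⟨0,[(28,
  0)]⟩,⟨0,[(27,0)]⟩),⟨0,[(12,0)]⟩,.k,.k,.k,.k,.k,.k,⟨true,0,⟨0,[(33,0)]⟩,⟨0,[(32,0),(1,0)]⟩⟩,⟨false,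
  2,⟨7,[(0,7),(0,0),(5,3),(2,1),(24,1),(0,0)]⟩,⟨0,[(4,0)]⟩⟩,⟨true,(-1),⟨0,[(5,0),(0,0)]⟩,⟨1,[(1,0),
  (33,0)]⟩⟩,⟨false,1,⟨2,[(6,1),(12,0),(10,0),(3,4),(1,1)]⟩,⟨0,[(2,0)]⟩⟩,⟨false,0,⟨0,[]⟩,⟨0,[]⟩⟩,
  ⟨false,0,⟨0,[]⟩,⟨0,[]⟩⟩,[.e ⟨false,0,⟨0,[(38,0)]⟩,⟨1,[(35,0),(0,0)]⟩⟩ ⟨false,1,⟨0,[(0,0)]⟩,⟨1,[(2,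
  0),(3,0),(4,0)]⟩⟩,.o ⟨false,1,⟨1,[(26,0),(7,1),(1,0)]⟩,⟨0,[(33,0)]⟩⟩,.o ⟨false,0,⟨17,[(4,5),(6,2),
  (6,5),(11,4),(5,0),(1,1)]⟩,⟨5,[(0,1),(0,0),(6,1),(12,1),(4,1),(9,0)]⟩⟩,.a ⟨true,(-1),⟨0,[(4,0)]⟩,
  ⟨0,[(21,0),(13,0)]⟩⟩ ⟨false,0,⟨0,[]⟩,⟨3,[(1,0),(8,1),(25,2)]⟩⟩ ⟨true,1,⟨0,[(0,0)]⟩,⟨0,[(4,0),(28,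
  0)]⟩⟩]⟩)) (.I [1,-1,0,0,1,0,0,-1] (.S ⟨1,0,[0,0,0,0,0,0,0,1],[0,0,1],[0,1,0,0,0,0,0,1],(⟨0,[(24,
  0)]⟩,⟨0,[(23,0)]⟩),⟨0,[(13,0)]⟩,.k,.k,⟨true,0,⟨0,[(38,0)]⟩,⟨0,[]⟩⟩,⟨false,1,⟨1,[(14,0),(0,0),(20,
  0)]⟩,⟨0,[]⟩⟩,⟨false,0,⟨0,[(34,0)]⟩,⟨3,[(7,1),(13,0),(0,0),(13,1)]⟩⟩,⟨true,0,⟨0,[(34,0)]⟩,⟨0,[(33,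
  0)]⟩⟩,[.e ⟨false,0,⟨2,[(1,0),(8,0),(20,0),(3,0)]⟩,⟨0,[(0,0)]⟩⟩ ⟨false,0,⟨1,[(1,0),(33,0)]⟩,⟨0,[(3,
  0),(3,0)]⟩⟩,.o ⟨false,1,⟨5,[(1,0),(1,1),(2,3),(12,1),(10,1),(4,0),(0,3)]⟩,⟨0,[(20,0)]⟩⟩,.o ⟨false,
  1,⟨1,[(21,1),(4,0),(8,0)]⟩,⟨9,[(1,0),(2,1),(6,1),(6,1),(1,1),(9,1),(5,0)]⟩⟩,.a ⟨true,0,⟨0,[(21,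
  0)]⟩,⟨0,[(18,0)]⟩⟩ ⟨false,0,⟨1,[(1,0),(33,0)]⟩,⟨1,[(0,1),(20,0),(0,0)]⟩⟩ ⟨true,0,⟨1,[(1,0),(33,
  0)]⟩,⟨0,[(20,0),(0,0)]⟩⟩]⟩) (.R ⟨0,false,false,false,[-1,1,1],[0,1],[1,1,1],(⟨0,[(12,0)]⟩,⟨0,[(23,
  0),(3,0)]⟩),(⟨0,[(28,0)]⟩,⟨0,[(27,0)]⟩),⟨0,[(23,0)]⟩,.k,.k,.k,.k,.k,.k,⟨true,0,⟨0,[(33,0)]⟩,⟨3,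
  [(1,0),(1,1),(28,1),(3,0)]⟩⟩,⟨false,0,⟨0,[(18,0)]⟩,⟨1,[(21,1),(4,0),(8,0)]⟩⟩,⟨false,1,⟨4,[(2,2),
  (0,1),(3,2),(13,2),(8,0),(4,0)]⟩,⟨3,[(1,2),(1,1),(31,0),(0,1)]⟩⟩,⟨true,0,⟨0,[(9,0)]⟩,⟨2,[(0,1),
  (18,0),(1,1),(8,0),(4,0)]⟩⟩,⟨false,0,⟨0,[]⟩,⟨0,[]⟩⟩,⟨false,0,⟨0,[]⟩,⟨0,[]⟩⟩,[.a ⟨true,0,⟨0,[(34,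
  0)]⟩,⟨1,[(2,0),(3,0),(11,0),(2,0)]⟩⟩ ⟨false,0,⟨0,[(38,0)]⟩,⟨1,[(35,0),(0,0)]⟩⟩ ⟨true,(-1),⟨3,[(1,
  0),(1,1),(0,2),(13,0)]⟩,⟨1,[(2,0),(3,0),(14,1),(8,0),(4,0)]⟩⟩,.o ⟨false,1,⟨3,[(1,0),(1,1),(22,1),
  (8,0),(0,1)]⟩,⟨0,[(33,0)]⟩⟩,.o ⟨false,2,⟨0,[(21,0),(4,0),(8,0)]⟩,⟨0,[(4,0)]⟩⟩,.e ⟨false,0,⟨0,[]⟩,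
  ⟨1,[(14,0),(0,0),(20,0)]⟩⟩ ⟨false,0,⟨3,[(1,0),(1,1),(0,0),(13,2),(17,1)]⟩,⟨1,[(2,0),(3,0),(14,1),
  (8,0),(4,0)]⟩⟩]⟩)))) (.Q [0,1,0,-1,0,0,1,1,0,-1,1] (.p true [0,0,1] [1] (⟨0,[(21,0)]⟩,⟨0,[(20,
  0)]⟩) .k 1 (⟨0,[]⟩,⟨0,[]⟩) .k .k) (.R ⟨0,false,false,false,[-1,1,1],[0,1],[1,1,1],(⟨0,[(10,0)]⟩,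
  ⟨0,[(21,0),(3,0)]⟩),(⟨0,[(26,0)]⟩,⟨0,[(25,0)]⟩),⟨0,[(21,0)]⟩,.k,.k,.k,.k,.k,.k,⟨true,0,⟨0,[(31,
  0)]⟩,⟨0,[(30,0),(1,0)]⟩⟩,⟨false,0,⟨0,[(16,0)]⟩,⟨1,[(19,1),(4,0),(8,0)]⟩⟩,⟨false,1,⟨1,[(1,0),(5,2),
  (11,2),(8,0),(4,0)]⟩,⟨0,[(1,0),(28,0),(1,2)]⟩⟩,⟨true,0,⟨0,[(7,0)]⟩,⟨0,[(0,0),(31,0)]⟩⟩,⟨false,0,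
  ⟨0,[]⟩,⟨0,[]⟩⟩,⟨false,0,⟨0,[]⟩,⟨0,[]⟩⟩,[.a ⟨true,0,⟨0,[(32,0)]⟩,⟨0,[(4,0),(2,0)]⟩⟩ ⟨false,0,⟨0,
  [(36,0)]⟩,⟨1,[(33,0),(0,0)]⟩⟩ ⟨true,(-1),⟨0,[(2,0),(29,0)]⟩,⟨1,[(1,0),(5,0),(11,2),(8,0),(4,0)]⟩⟩,
  .o ⟨false,1,⟨1,[(24,0),(7,1),(1,0)]⟩,⟨0,[(31,0)]⟩⟩,.o ⟨false,2,⟨0,[(19,0),(4,0),(8,0)]⟩,⟨0,[(2,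
  0)]⟩⟩,.e ⟨false,0,⟨0,[]⟩,⟨1,[(12,0),(0,0),(20,0)]⟩⟩ ⟨false,0,⟨1,[(2,0),(13,0),(15,1),(1,0)]⟩,⟨1,
  [(1,0),(5,0),(11,2),(8,0),(4,0)]⟩⟩]⟩) (.S ⟨1,0,[0,0,0,0,0,0,0,1],[0,0,1],[1,1,0,-1,0,0,0,1],(⟨0,
  [(22,0)]⟩,⟨0,[(21,0)]⟩),⟨0,[(11,0)]⟩,.k,.k,⟨true,0,⟨0,[(31,0)]⟩,⟨0,[(32,0)]⟩⟩,⟨false,1,⟨1,[(12,0),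
  (0,0),(20,0)]⟩,⟨0,[]⟩⟩,⟨false,0,⟨0,[]⟩,⟨1,[(12,0),(0,0),(20,0)]⟩⟩,⟨true,0,⟨0,[(32,0)]⟩,⟨0,[(31,
  0)]⟩⟩,[.e ⟨false,0,⟨4,[(1,2),(1,0),(4,0),(8,0),(11,0),(3,0)]⟩,⟨1,[(0,1),(18,1),(4,0),(8,0)]⟩⟩
  ⟨false,0,⟨0,[(1,0),(30,1)]⟩,⟨1,[(7,1),(11,1),(4,0),(8,0)]⟩⟩,.o ⟨false,1,⟨2,[(4,1),(12,0),(10,0),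
  (3,1),(1,1)]⟩,⟨0,[(18,0)]⟩⟩,.o ⟨false,1,⟨1,[(19,1),(4,0),(8,0)]⟩,⟨29,[(0,5),(0,5),(1,5),(5,8),(18,
  4),(5,0),(1,1)]⟩⟩,.a ⟨true,0,⟨0,[(19,0)]⟩,⟨0,[(16,0)]⟩⟩ ⟨false,0,⟨0,[(1,0),(30,0)]⟩,⟨1,[(0,1),(11,
  0),(0,0),(5,1),(4,0)]⟩⟩ ⟨true,0,⟨0,[(1,0),(30,1)]⟩,⟨0,[(18,0),(0,0)]⟩⟩]⟩))))) (.I [1,1,0,0,0,0,0,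
  -1] (.Q [0,0,0,0,0,0,-1,0,0,0,-1] (.p false [0,0,1] [] (⟨0,[(19,0)]⟩,⟨0,[(18,0)]⟩) .k 0 (⟨0,[]⟩,
  ⟨0,[]⟩) .k .k) (.Q [0,0,0,0,0,0,-1,-1,0,0,-1] (.p false [0,0,1] [] (⟨0,[(20,0)]⟩,⟨0,[(19,0)]⟩) .k
  0 (⟨0,[]⟩,⟨0,[]⟩) .k .k) (.I [0,1,-1,0,0,0,0,1] (.Q [0,-1,0,0,1,0,1,1,0,-1,1] (.p true [0,0,1]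
  [1] (⟨0,[(22,0)]⟩,⟨0,[(21,0)]⟩) .k 1 (⟨0,[]⟩,⟨0,[]⟩) .k .k) (.S ⟨1,0,[0,0,0,0,0,0,0,1],[0,0,1],[0,
  1,0,0,0,0,0,1],(⟨0,[(23,0)]⟩,⟨0,[(22,0)]⟩),⟨0,[(12,0)]⟩,.k,.k,⟨true,0,⟨0,[(37,0)]⟩,⟨0,[]⟩⟩,⟨false,
  1,⟨1,[(13,0),(0,0),(20,0)]⟩,⟨0,[]⟩⟩,⟨false,0,⟨0,[(33,0)]⟩,⟨3,[(6,1),(13,0),(0,0),(13,1)]⟩⟩,⟨true,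
  0,⟨0,[(33,0)]⟩,⟨0,[(32,0)]⟩⟩,[.o ⟨false,1,⟨3,[(0,1),(12,0),(0,0),(3,1),(6,0)]⟩,⟨0,[(2,0)]⟩⟩,.o
  ⟨false,1,⟨0,[(0,0)]⟩,⟨0,[(19,0)]⟩⟩,.o ⟨false,1,⟨1,[(20,1),(4,0),(8,0)]⟩,⟨0,[(3,0)]⟩⟩,.a ⟨true,0,
  ⟨0,[(20,0)]⟩,⟨0,[(17,0)]⟩⟩ ⟨true,0,⟨0,[(1,0)]⟩,⟨0,[(2,0),(17,0)]⟩⟩ ⟨false,1,⟨0,[(0,0),(16,0)]⟩,⟨0,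
  [(2,0),(17,0)]⟩⟩]⟩) (.Q [0,0,-1,-1,1,0,1,0,0,0,1] (.p true [0,0,1] [] (⟨0,[(23,0)]⟩,⟨0,[(22,0)]⟩)
  .k 0 (⟨0,[]⟩,⟨0,[]⟩) .k .k) (.R ⟨0,false,false,false,[1,0,-1],[1,-1],[],(⟨0,[(23,0)]⟩,⟨0,[(24,
  0)]⟩),(⟨0,[(27,0)]⟩,⟨0,[(28,0)]⟩),⟨0,[(12,0)]⟩,.k,.k,.k,.k,.k,.k,⟨false,0,⟨0,[(34,0)]⟩,⟨7,[(0,3),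
  (6,1),(3,1),(14,0),(8,0)]⟩⟩,⟨true,0,⟨0,[(21,0)]⟩,⟨0,[(4,0)]⟩⟩,⟨true,0,⟨0,[(2,0),(29,0)]⟩,⟨0,[(5,
  0)]⟩⟩,⟨false,1,⟨0,[(8,0),(27,0)]⟩,⟨0,[(6,0)]⟩⟩,⟨false,0,⟨0,[]⟩,⟨0,[]⟩⟩,⟨false,0,⟨0,[]⟩,⟨0,[]⟩⟩,
  [.e ⟨false,1,⟨1,[(14,0),(0,0),(19,0)]⟩,⟨0,[]⟩⟩ ⟨false,1,⟨0,[(0,0)]⟩,⟨0,[(4,0),(29,0)]⟩⟩,.o ⟨false,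
  1,⟨3,[(7,1),(13,0),(0,0),(13,1)]⟩,⟨1,[(1,0),(17,0),(10,0),(3,1)]⟩⟩,.o ⟨false,0,⟨0,[(4,0)]⟩,⟨1,
  [(21,1),(4,0),(8,0)]⟩⟩,.a ⟨true,(-1),⟨0,[(1,0),(0,0),(29,1)]⟩,⟨0,[(21,0),(13,0)]⟩⟩ ⟨false,1,⟨1,
  [(35,0),(0,0)]⟩,⟨1,[(21,0),(0,0)]⟩⟩ ⟨true,1,⟨0,[(0,0)]⟩,⟨1,[(1,2),(0,1),(16,0),(10,0),(1,3),(1,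
  1)]⟩⟩]⟩) (.R ⟨0,false,false,false,[1,0,-1],[1,-1],[],(⟨0,[(23,0)]⟩,⟨0,[(24,0)]⟩),(⟨0,[(27,0)]⟩,⟨0,
  [(28,0)]⟩),⟨0,[(12,0)]⟩,.k,.k,.k,.k,.k,.k,⟨false,0,⟨0,[(34,0)]⟩,⟨3,[(7,1),(6,0),(0,0),(19,0)]⟩⟩,
  ⟨true,0,⟨0,[(21,0)]⟩,⟨0,[(4,0)]⟩⟩,⟨true,0,⟨1,[(0,0),(1,0),(5,0),(27,0)]⟩,⟨0,[(5,0)]⟩⟩,⟨false,1,⟨0,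
  [(8,0),(27,0)]⟩,⟨0,[(6,0)]⟩⟩,⟨false,0,⟨0,[]⟩,⟨0,[]⟩⟩,⟨false,0,⟨0,[]⟩,⟨0,[]⟩⟩,[.a ⟨true,0,⟨0,[(1,
  0),(6,0),(27,0)]⟩,⟨0,[(34,0)]⟩⟩ ⟨false,1,⟨1,[(14,0),(0,0),(19,0)]⟩,⟨0,[]⟩⟩ ⟨true,1,⟨3,[(7,1),(6,
  0),(0,0),(5,3),(13,0)]⟩,⟨0,[(0,0)]⟩⟩,.o ⟨false,1,⟨3,[(7,1),(13,0),(0,0),(13,1)]⟩,⟨1,[(1,0),(17,0),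
  (10,0),(3,1)]⟩⟩,.o ⟨false,0,⟨0,[(4,0)]⟩,⟨1,[(21,1),(4,0),(8,0)]⟩⟩,.e ⟨false,1,⟨1,[(35,0),(0,0)]⟩,
  ⟨1,[(21,0),(0,0)]⟩⟩ ⟨false,2,⟨3,[(7,1),(6,0),(0,0),(5,3),(13,2),(0,1)]⟩,⟨0,[(0,0)]⟩⟩]⟩))) (.Q [0,
  0,1,1,-1,0,-1,0,0,1,-1] (.p false [0,0,1] [1] (⟨0,[(22,0)]⟩,⟨0,[(21,0)]⟩) .k 1 (⟨0,[]⟩,⟨0,[]⟩) .k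
  .k) (.I [0,-1,1,0,0,0,0,1] (.R ⟨0,false,false,true,[1,0,-1],[1,-1],[0,0,1],(⟨0,[(23,0)]⟩,⟨0,[(24,
  0)]⟩),(⟨0,[(27,0)]⟩,⟨0,[(28,0)]⟩),⟨0,[(12,0)]⟩,.k,.k,.k,.k,.k,.k,⟨false,0,⟨0,[(32,0),(1,0)]⟩,⟨1,
  [(7,0),(23,0),(3,0)]⟩⟩,⟨true,0,⟨0,[(21,0)]⟩,⟨0,[(4,0)]⟩⟩,⟨false,0,⟨0,[(0,0)]⟩,⟨1,[(5,1),(29,0),(0,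
  0)]⟩⟩,⟨true,0,⟨0,[(8,0)]⟩,⟨0,[(6,0)]⟩⟩,⟨false,0,⟨0,[]⟩,⟨0,[]⟩⟩,⟨false,0,⟨0,[]⟩,⟨0,[]⟩⟩,[.o ⟨false,
  0,⟨0,[(33,0)]⟩,⟨1,[(26,0),(7,1),(1,0)]⟩⟩,.a ⟨true,0,⟨0,[(2,0),(5,0),(9,0)]⟩,⟨0,[(34,0)]⟩⟩ ⟨true,0,
  ⟨1,[(0,0),(1,0)]⟩,⟨0,[(38,0)]⟩⟩ ⟨false,1,⟨0,[(2,0),(5,0),(26,0)]⟩,⟨3,[(1,0),(9,0),(6,0),(11,0),(3,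
  2)]⟩⟩,.o ⟨false,0,⟨0,[(4,0)]⟩,⟨1,[(21,1),(4,0),(8,0)]⟩⟩,.e ⟨false,1,⟨1,[(14,0),(0,0),(20,0)]⟩,⟨0,
  []⟩⟩ ⟨false,1,⟨0,[(2,0),(5,0),(26,0)]⟩,⟨1,[(1,1),(24,0),(9,0)]⟩⟩]⟩) (.I [1,1,1,0,-1,0,0,-1] (.Q
  [0,-1,0,2,0,0,-1,-1,0,0,-1] (.p false [0,0,1] [] (⟨0,[(25,0)]⟩,⟨0,[(24,0)]⟩) .k 0 (⟨0,[]⟩,⟨0,[]⟩)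
  .k .k) (.R ⟨1,true,false,false,[0,0,1],[0,1],[0,0,0,0,0,0,0,1],(⟨0,[(26,0)]⟩,⟨0,[(25,0)]⟩),(⟨0,
  [(30,0)]⟩,⟨0,[(29,0)]⟩),⟨0,[(15,0)]⟩,.k,.k,.k,.k,(.r (-2) ⟨1,[(9,1),(2,1),(24,0),(0,0)]⟩ ⟨0,[(0,
  0),(0,0),(19,0),(12,0)]⟩),.k,⟨true,1,⟨9,[(9,1),(0,5),(1,3),(7,5),(11,1),(4,0),(0,4)]⟩,⟨1,[(0,0),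
  (0,1),(19,0),(12,1)]⟩⟩,⟨false,1,⟨3,[(13,0),(6,1),(11,0),(4,2)]⟩,⟨0,[(23,0)]⟩⟩,⟨false,1,⟨1,[(16,0),
  (0,0),(20,0)]⟩,⟨0,[]⟩⟩,⟨true,0,⟨0,[(8,0)]⟩,⟨0,[(10,0)]⟩⟩,⟨true,0,⟨0,[(36,0)]⟩,⟨0,[(35,0)]⟩⟩,
  ⟨false,0,⟨0,[(0,0)]⟩,⟨3,[(9,1),(0,3),(12,0),(0,0),(13,1)]⟩⟩,[]⟩) (.Q [0,0,1,0,-1,0,-1,0,0,1,-1]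
  (.p false [0,0,1] [1] (⟨0,[(26,0)]⟩,⟨0,[(25,0)]⟩) .k 1 (⟨0,[]⟩,⟨0,[]⟩) .k .k) (.Q [0,0,1,-1,-1,0,
  -1,0,0,1,-1] (.p false [0,0,1] [1] (⟨0,[(27,0)]⟩,⟨0,[(26,0)]⟩) .k 1 (⟨0,[]⟩,⟨0,[]⟩) .k .k) (.R ⟨0,
  false,false,false,[1,0,-1],[0,1],[1,1,1],(⟨0,[(27,0)]⟩,⟨0,[(28,0)]⟩),(⟨0,[(32,0)]⟩,⟨0,[(31,0)]⟩),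
  ⟨0,[(16,0)]⟩,.k,.k,.k,.k,.k,.k,⟨true,0,⟨0,[(37,0)]⟩,⟨0,[(36,0),(1,0)]⟩⟩,⟨false,2,⟨1,[(25,1),(4,0),
  (8,2)]⟩,⟨0,[(1,0)]⟩⟩,⟨false,0,⟨0,[(14,0),(21,0)]⟩,⟨0,[(4,0),(35,0)]⟩⟩,⟨true,1,⟨1,[(23,1),(6,0),(7,
  1),(1,0)]⟩,⟨0,[(0,0),(3,0)]⟩⟩,⟨false,0,⟨0,[]⟩,⟨0,[]⟩⟩,⟨false,0,⟨0,[]⟩,⟨0,[]⟩⟩,[.a ⟨true,0,⟨0,[(38,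
  0)]⟩,⟨1,[(2,0),(3,0),(15,1),(2,0)]⟩⟩ ⟨false,0,⟨0,[(42,0)]⟩,⟨1,[(39,0),(0,0)]⟩⟩ ⟨true,1,⟨1,[(25,1),
  (4,0),(7,1),(0,0)]⟩,⟨0,[(0,0)]⟩⟩,.o ⟨false,1,⟨1,[(30,0),(7,1),(1,0)]⟩,⟨0,[(37,0)]⟩⟩,.o ⟨false,0,
  ⟨0,[(8,0)]⟩,⟨1,[(25,1),(4,0),(8,0)]⟩⟩,.e ⟨false,0,⟨0,[]⟩,⟨1,[(18,0),(0,0),(20,0)]⟩⟩ ⟨false,2,⟨1,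
  [(25,1),(4,0),(7,1),(0,1),(0,0)]⟩,⟨0,[(0,0)]⟩⟩]⟩) (.R ⟨0,false,false,false,[-1,1,1],[0,1],[1,0,1,
  1],(⟨0,[(16,0)]⟩,⟨0,[(27,0),(3,0)]⟩),(⟨0,[(32,0)]⟩,⟨0,[(31,0)]⟩),⟨0,[(27,0)]⟩,.k,.k,.k,.k,.k,.k,
  ⟨true,0,⟨0,[]⟩,⟨1,[(25,0),(0,0)]⟩⟩,⟨false,0,⟨0,[(22,0)]⟩,⟨9,[(0,3),(10,1),(6,0),(0,0),(5,5),(4,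
  2)]⟩⟩,⟨true,0,⟨1,[(4,0),(1,0)]⟩,⟨0,[(14,0)]⟩⟩,⟨false,0,⟨0,[(6,0),(15,0)]⟩,⟨1,[(23,1),(6,0),(9,
  0)]⟩⟩,⟨false,0,⟨0,[]⟩,⟨0,[]⟩⟩,⟨false,0,⟨0,[]⟩,⟨0,[]⟩⟩,[.a ⟨true,0,⟨0,[(38,0)]⟩,⟨1,[(2,0),(3,0),
  (15,1),(2,0)]⟩⟩ ⟨false,0,⟨1,[(0,0),(4,0)]⟩,⟨3,[(11,1),(6,0),(0,0),(19,0)]⟩⟩ ⟨true,(-1),⟨0,[(5,
  0)]⟩,⟨2,[(0,0),(1,0),(3,0),(4,0),(13,0),(4,0)]⟩⟩,.o ⟨false,1,⟨1,[(0,0),(4,0),(24,0),(9,0)]⟩,⟨0,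
  [(37,0)]⟩⟩,.o ⟨false,2,⟨4,[(0,3),(10,1),(6,0),(0,0),(5,0),(4,2)]⟩,⟨0,[(1,0)]⟩⟩,.o ⟨false,1,⟨5,[(0,
  2),(1,1),(0,1),(21,0),(8,2),(3,0),(1,1)]⟩,⟨1,[(15,0),(6,0),(2,0)]⟩⟩]⟩)) (.R ⟨0,false,false,true,
  [1,0,-1],[1,-1],[1,1,0,0,0,0,0,-1],(⟨0,[(26,0)]⟩,⟨0,[(27,0)]⟩),(⟨0,[(30,0)]⟩,⟨0,[(31,0)]⟩),⟨0,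
  [(15,0)]⟩,.k,.k,.k,.k,.k,.k,⟨false,0,⟨1,[(3,0),(1,0),(31,1)]⟩,⟨7,[(1,3),(11,3),(0,0),(6,1),(11,0),
  (4,2),(0,3)]⟩⟩,⟨true,0,⟨0,[(24,0)]⟩,⟨0,[(7,0)]⟩⟩,⟨false,0,⟨0,[]⟩,⟨1,[(17,0),(0,0),(20,0)]⟩⟩,⟨true,
  0,⟨0,[(11,0)]⟩,⟨0,[(9,0)]⟩⟩,⟨false,0,⟨0,[]⟩,⟨0,[]⟩⟩,⟨false,0,⟨0,[]⟩,⟨0,[]⟩⟩,[.o ⟨false,0,⟨0,[(36,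
  0)]⟩,⟨1,[(29,0),(7,1),(1,0)]⟩⟩,.a ⟨true,0,⟨1,[(1,0),(3,0),(15,1),(2,0)]⟩,⟨0,[(37,0)]⟩⟩ ⟨true,0,⟨1,
  [(3,0),(1,0)]⟩,⟨0,[(13,0),(21,0)]⟩⟩ ⟨false,1,⟨1,[(1,0),(1,0),(20,0),(13,0),(0,0)]⟩,⟨3,[(4,0),(9,
  0),(6,0),(11,0),(3,2)]⟩⟩,.o ⟨false,0,⟨0,[(7,0)]⟩,⟨3,[(0,1),(16,0),(0,0),(5,1),(4,0)]⟩⟩,.o ⟨false,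
  0,⟨0,[(25,0)]⟩,⟨0,[(0,0)]⟩⟩]⟩))) (.S ⟨1,0,[0,1,0,0,0,0,0,1],[0,0,1],[0,0,0,0,0,0,0,1],(⟨0,[(25,
  0)]⟩,⟨0,[(24,0)]⟩),⟨0,[(14,0)]⟩,.k,.k,⟨false,1,⟨1,[(15,0),(0,0),(20,0)]⟩,⟨0,[]⟩⟩,⟨true,0,⟨0,[(39,
  0)]⟩,⟨0,[]⟩⟩,⟨true,0,⟨0,[(35,0)]⟩,⟨0,[(34,0)]⟩⟩,⟨false,0,⟨0,[(35,0)]⟩,⟨3,[(8,1),(13,0),(0,0),(13,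
  1)]⟩⟩,[.a ⟨true,0,⟨0,[(20,0)]⟩,⟨0,[(3,0),(15,0)]⟩⟩ ⟨false,1,⟨3,[(0,2),(10,0),(3,0),(0,0),(15,0)]⟩,
  ⟨1,[(1,0),(1,0)]⟩⟩ ⟨true,0,⟨0,[(11,0)]⟩,⟨0,[(3,0)]⟩⟩,.o ⟨false,1,⟨1,[(20,1),(6,0),(9,0)]⟩,⟨0,[(4,
  0)]⟩⟩,.o ⟨false,1,⟨1,[(22,1),(4,0),(8,0)]⟩,⟨0,[(5,0)]⟩⟩,.e ⟨false,1,⟨0,[(0,0)]⟩,⟨1,[(3,0),(17,0),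
  (0,0)]⟩⟩ ⟨false,1,⟨3,[(0,2),(10,0),(3,0),(0,0),(15,0)]⟩,⟨0,[(3,0)]⟩⟩]⟩))) (.R ⟨0,false,false,true,
  [1,0,-1],[1,-1],[0,1,1],(⟨0,[(22,0)]⟩,⟨0,[(23,0)]⟩),(⟨0,[(26,0)]⟩,⟨0,[(27,0)]⟩),⟨0,[(11,0)]⟩,.k,
  .k,.k,.k,.k,.k,⟨false,0,⟨1,[(20,0),(0,0),(11,1)]⟩,⟨0,[(0,0),(16,0)]⟩⟩,⟨true,0,⟨0,[(20,0)]⟩,⟨0,[(3,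
  0)]⟩⟩,⟨false,0,⟨0,[(9,0),(21,0)]⟩,⟨0,[(1,0),(32,0)]⟩⟩,⟨true,0,⟨0,[(7,0)]⟩,⟨0,[(5,0)]⟩⟩,⟨false,0,
  ⟨0,[]⟩,⟨0,[]⟩⟩,⟨false,0,⟨0,[]⟩,⟨0,[]⟩⟩,[.o ⟨false,0,⟨0,[(32,0)]⟩,⟨1,[(25,0),(7,1),(1,0)]⟩⟩,.a
  ⟨true,0,⟨0,[(1,0),(5,0),(9,0)]⟩,⟨0,[(33,0)]⟩⟩ ⟨true,0,⟨1,[(20,0),(0,0)]⟩,⟨0,[]⟩⟩ ⟨false,1,⟨0,[(0,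
  0),(16,0),(2,0)]⟩,⟨0,[(3,0),(29,0)]⟩⟩,.o ⟨false,0,⟨0,[(3,0)]⟩,⟨1,[(20,1),(4,0),(8,0)]⟩⟩,.o ⟨false,
  0,⟨0,[(21,0)]⟩,⟨0,[(0,0),(32,0)]⟩⟩]⟩))) (.R ⟨2,true,false,false,[0,1],[0,0,1],[1,1,1],(⟨0,[]⟩,⟨0,
  []⟩),(⟨0,[(21,0)]⟩,⟨0,[(20,0)]⟩),⟨0,[]⟩,.k,.k,.k,.k,.k,.k,⟨false,0,⟨0,[(2,0)]⟩,⟨3,[(0,3),(7,0),(6,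
  1),(11,0),(4,0),(0,1)]⟩⟩,⟨true,0,⟨0,[(18,0)]⟩,⟨0,[(1,0)]⟩⟩,⟨true,0,⟨0,[(30,0)]⟩,⟨0,[(31,0)]⟩⟩,
  ⟨false,1,⟨0,[(5,0),(27,0)]⟩,⟨0,[(3,0)]⟩⟩,⟨false,0,⟨0,[]⟩,⟨1,[(11,0),(0,0),(20,0)]⟩⟩,⟨true,0,⟨0,
  [(0,0)]⟩,⟨0,[(17,0)]⟩⟩,[]⟩)) (.I [1,0,0,0,0,0,0,-1] (.S ⟨1,0,[0,1,1,1,0,0,0,-1],[1,1,-1],[1,0,1,0,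
  0,0,0,-1],(⟨0,[(20,0),(4,0)]⟩,⟨0,[(10,0)]⟩),⟨0,[(20,0)]⟩,.k,.k,⟨false,1,⟨3,[(4,1),(13,0),(0,0),
  (13,1)]⟩,⟨0,[(31,0)]⟩⟩,⟨true,0,⟨0,[(35,0)]⟩,⟨0,[]⟩⟩,⟨true,0,⟨0,[]⟩,⟨0,[(35,0)]⟩⟩,⟨false,0,⟨0,[(31,
  0)]⟩,⟨3,[(4,1),(13,0),(0,0),(13,1)]⟩⟩,[.e ⟨false,0,⟨0,[(0,0)]⟩,⟨1,[(7,1),(24,0),(0,0)]⟩⟩ ⟨false,0,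
  ⟨0,[(2,0),(28,0)]⟩,⟨0,[(1,1),(3,0),(9,2),(11,0),(1,1)]⟩⟩,.o ⟨false,0,⟨0,[(3,0)]⟩,⟨1,[(5,1),(17,0),
  (9,0)]⟩⟩,.e ⟨false,0,⟨0,[(0,0),(28,0)]⟩,⟨1,[(7,1),(24,0),(0,0)]⟩⟩ ⟨false,0,⟨0,[(3,0),(14,0)]⟩,⟨0,
  [(1,1),(3,0),(9,2),(11,0),(1,1)]⟩⟩,.a ⟨true,0,⟨1,[(8,0),(6,0),(2,0)]⟩,⟨0,[(1,0)]⟩⟩ ⟨true,0,⟨0,[(0,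
  0)]⟩,⟨0,[(7,0)]⟩⟩ ⟨false,0,⟨0,[(0,0),(30,0)]⟩,⟨3,[(5,3),(2,0),(6,1),(11,0),(1,1),(3,2)]⟩⟩]⟩) (.R
  ⟨2,true,false,true,[0,1],[0,0,1],[0,0,1,1],(⟨0,[]⟩,⟨0,[]⟩),(⟨0,[(21,0)]⟩,⟨0,[(20,0)]⟩),⟨0,[]⟩,.k,
  .k,.k,.k,.k,.k,⟨true,0,⟨0,[(1,0),(1,0),(25,0)]⟩,⟨0,[(0,0),(29,0)]⟩⟩,⟨false,0,⟨0,[(1,0)]⟩,⟨3,[(8,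
  1),(2,0),(0,0),(10,0),(8,1)]⟩⟩,⟨false,1,⟨1,[(11,0),(0,0),(20,0)]⟩,⟨0,[]⟩⟩,⟨true,0,⟨0,[(5,0)]⟩,⟨0,
  [(3,0)]⟩⟩,⟨true,0,⟨0,[(31,0)]⟩,⟨0,[(30,0)]⟩⟩,⟨false,0,⟨0,[(0,0),(0,0)]⟩,⟨1,[(6,1),(16,0),(9,0)]⟩⟩,
  []⟩))) (.I [1,0,1,0,0,0,0,-1] (.Q [0,-1,0,-1,1,0,1,1,0,-1,1] (.p true [0,0,1] [1] (⟨0,[(20,0)]⟩,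
  ⟨0,[(19,0)]⟩) .k 1 (⟨0,[]⟩,⟨0,[]⟩) .k .k) (.S ⟨1,0,[0,1,1,1,0,0,0,-1],[1,1,-1],[1,0,1,0,0,0,0,-1],
  (⟨0,[(20,0),(4,0)]⟩,⟨0,[(10,0)]⟩),⟨0,[(20,0)]⟩,.k,.k,⟨false,1,⟨3,[(4,1),(13,0),(0,0),(13,1)]⟩,⟨0,
  [(31,0)]⟩⟩,⟨true,0,⟨0,[(35,0)]⟩,⟨0,[]⟩⟩,⟨true,0,⟨0,[]⟩,⟨0,[(35,0)]⟩⟩,⟨false,0,⟨0,[(31,0)]⟩,⟨3,[(4,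
  1),(13,0),(0,0),(13,1)]⟩⟩,[.o ⟨false,0,⟨0,[(3,0),(31,0)]⟩,⟨0,[(0,0)]⟩⟩,.o ⟨false,0,⟨0,[(3,0)]⟩,⟨3,
  [(0,1),(4,1),(5,0),(0,0),(10,0)]⟩⟩,.a ⟨true,0,⟨0,[(15,0)]⟩,⟨0,[(18,0)]⟩⟩ ⟨true,0,⟨0,[(1,0)]⟩,⟨0,
  [(2,0),(25,0)]⟩⟩ ⟨false,0,⟨0,[(3,0),(14,0)]⟩,⟨0,[(0,0),(14,0)]⟩⟩,.o ⟨false,0,⟨0,[(2,0),(14,0)]⟩,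
  ⟨1,[(18,1),(4,0),(8,0)]⟩⟩]⟩) (.R ⟨2,true,false,true,[0,1],[1,1,-1],[0,1,1,1],(⟨0,[]⟩,⟨0,[]⟩),(⟨0,
  [(20,0),(4,0)]⟩,⟨0,[(10,0)]⟩),⟨0,[]⟩,.k,.k,.k,.k,.k,.k,⟨true,0,⟨1,[(2,0),(4,0)]⟩,⟨0,[(1,0)]⟩⟩,
  ⟨false,0,⟨0,[(15,0)]⟩,⟨1,[(18,1),(4,0),(8,0)]⟩⟩,⟨true,0,⟨0,[(35,0)]⟩,⟨0,[]⟩⟩,⟨false,0,⟨0,[(6,0)]⟩,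
  ⟨2,[(2,1),(13,0),(1,1),(8,0),(4,0),(0,0)]⟩⟩,⟨false,0,⟨0,[(31,0)]⟩,⟨3,[(4,1),(13,0),(0,0),(13,
  1)]⟩⟩,⟨true,(-1),⟨0,[(0,0)]⟩,⟨1,[(5,1),(17,0),(9,0)]⟩⟩,[]⟩)) (.R ⟨2,true,false,true,[0,1],[0,0,1],
  [0,0,1,1],(⟨0,[]⟩,⟨0,[]⟩),(⟨0,[(20,0)]⟩,⟨0,[(19,0)]⟩),⟨0,[]⟩,.k,.k,.k,.k,.k,.k,⟨false,1,⟨1,[(2,1),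
  (14,1),(13,0),(0,0)]⟩,⟨0,[(0,0),(28,0)]⟩⟩,⟨true,0,⟨0,[(17,0)]⟩,⟨0,[(1,0),(14,0)]⟩⟩,⟨false,1,⟨1,
  [(10,0),(0,0),(20,0)]⟩,⟨0,[]⟩⟩,⟨true,0,⟨0,[(4,0)]⟩,⟨0,[(2,0)]⟩⟩,⟨true,0,⟨0,[(30,0)]⟩,⟨0,[(29,
  0)]⟩⟩,⟨false,0,⟨0,[(0,0),(16,0)]⟩,⟨1,[(5,1),(16,0),(9,0)]⟩⟩,[]⟩))))) (.I [0,-1,-1,0,1,0,0,1] (.I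
  [0,0,0,1,0,0,0,-1] (.Q [0,0,0,0,0,0,-1,0,0,0,-1] (.p false [0,0,1] [] (⟨0,[(18,0)]⟩,⟨0,[(17,0)]⟩)
  .k 0 (⟨0,[]⟩,⟨0,[]⟩) .k .k) (.R ⟨2,true,false,true,[0,1],[0,0,1],[0,1,1,1],(⟨0,[]⟩,⟨0,[]⟩),(⟨0,
  [(19,0)]⟩,⟨0,[(18,0)]⟩),⟨0,[]⟩,.k,.k,.k,.k,.k,.k,⟨false,0,⟨0,[(1,0)]⟩,⟨0,[(2,0),(25,0)]⟩⟩,⟨true,0,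
  ⟨0,[(16,0)]⟩,⟨0,[(0,0)]⟩⟩,⟨true,0,⟨0,[(33,0)]⟩,⟨0,[]⟩⟩,⟨false,1,⟨0,[(14,0),(13,0),(2,0)]⟩,⟨0,[(3,
  0)]⟩⟩,⟨false,0,⟨0,[(29,0)]⟩,⟨0,[(28,0),(2,0)]⟩⟩,⟨true,0,⟨0,[(14,0)]⟩,⟨0,[(3,0),(24,0)]⟩⟩,[]⟩) (.S
  ⟨1,0,[0,0,0,0,0,0,0,1],[0,0,1],[0,1,0,0,0,0,0,1],(⟨0,[(19,0)]⟩,⟨0,[(18,0)]⟩),⟨0,[(8,0)]⟩,.k,.k,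
  ⟨true,0,⟨0,[(33,0)]⟩,⟨0,[]⟩⟩,⟨false,1,⟨1,[(9,0),(0,0),(20,0)]⟩,⟨0,[]⟩⟩,⟨false,0,⟨0,[(29,0)]⟩,⟨0,
  [(28,0),(2,0)]⟩⟩,⟨true,0,⟨0,[(29,0)]⟩,⟨0,[(28,0)]⟩⟩,[.o ⟨false,1,⟨1,[(14,1),(6,0),(9,0)]⟩,⟨0,[(3,
  0),(24,0)]⟩⟩,.o ⟨false,1,⟨2,[(0,1),(1,1),(11,0),(10,0),(1,1)]⟩,⟨0,[(15,0)]⟩⟩,.a ⟨true,0,⟨0,[(0,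
  0)]⟩,⟨1,[(6,0),(6,0),(2,0)]⟩⟩ ⟨true,0,⟨0,[(5,0)]⟩,⟨0,[(0,0),(2,0),(24,0)]⟩⟩ ⟨false,1,⟨1,[(2,0),
  (11,0),(2,0),(13,0)]⟩,⟨0,[(0,0),(2,0),(24,0)]⟩⟩,.e ⟨false,1,⟨3,[(2,2),(2,0),(3,0),(0,0),(15,0)]⟩,
  ⟨0,[(0,0),(2,0),(23,0),(0,0)]⟩⟩ ⟨false,1,⟨0,[(2,0)]⟩,⟨0,[(3,0),(12,0),(11,0)]⟩⟩]⟩)) (.I [1,-1,1,0,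
  0,0,0,-1] (.Q [0,0,1,-1,-1,0,-1,0,0,1,-1] (.p false [0,0,1] [1] (⟨0,[(19,0)]⟩,⟨0,[(18,0)]⟩) .k 1
  (⟨0,[]⟩,⟨0,[]⟩) .k .k) (.R ⟨0,false,false,true,[-1,1,1],[0,0,1],[0,1,1,0,0,0,0,1],(⟨0,[(8,0)]⟩,⟨0,
  [(19,0),(3,0)]⟩),(⟨0,[(20,0)]⟩,⟨0,[(19,0)]⟩),⟨0,[(19,0)]⟩,.k,.k,.k,.k,.k,.k,⟨true,0,⟨1,[(17,0),(0,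
  0)]⟩,⟨0,[]⟩⟩,⟨false,0,⟨0,[(14,0),(2,0)]⟩,⟨1,[(22,0),(8,0)]⟩⟩,⟨true,0,⟨0,[(29,0)]⟩,⟨0,[(30,0)]⟩⟩,
  ⟨false,0,⟨0,[(0,0),(16,0),(13,0)]⟩,⟨1,[(22,0),(7,1),(1,0)]⟩⟩,⟨false,0,⟨0,[]⟩,⟨0,[]⟩⟩,⟨false,0,⟨0,
  []⟩,⟨0,[]⟩⟩,[.a ⟨true,0,⟨0,[(15,0)]⟩,⟨0,[(1,0),(12,0)]⟩⟩ ⟨false,0,⟨0,[(6,0)]⟩,⟨0,[(1,0),(29,0)]⟩⟩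
  ⟨true,(-1),⟨0,[(0,0),(14,0),(14,0)]⟩,⟨1,[(1,1),(20,0),(8,0)]⟩⟩,.o ⟨false,1,⟨1,[(15,1),(6,0),(9,
  0)]⟩,⟨0,[(4,0),(24,0)]⟩⟩,.o ⟨false,2,⟨0,[(17,0),(4,0),(8,0)]⟩,⟨0,[(0,0),(29,0)]⟩⟩,.e ⟨false,0,⟨0,
  [(2,0),(27,0)]⟩,⟨3,[(1,1),(3,1),(11,1),(4,0),(8,1),(0,0)]⟩⟩ ⟨false,0,⟨1,[(0,0),(13,0),(0,1),(14,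
  0),(1,0)]⟩,⟨1,[(1,1),(20,0),(8,0)]⟩⟩]⟩) (.Q [0,0,2,0,0,0,1,0,0,-1,1] (.p true [0,0,1] [1] (⟨0,
  [(20,0)]⟩,⟨0,[(19,0)]⟩) .k 1 (⟨0,[]⟩,⟨0,[]⟩) .k .k) (.I [1,0,-2,-1,1] (.Q [0,0,-1,0,1,0,1,0,0,-1,
  1] (.p true [0,0,1] [1] (⟨0,[(22,0)]⟩,⟨0,[(21,0)]⟩) .k 1 (⟨0,[]⟩,⟨0,[]⟩) .k .k) (.Q [0,0,1,0,-1,0,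
  -2,0,0,1,-2] (.p false [0,0,1] [1,0,-1] (⟨0,[(23,0)]⟩,⟨0,[(22,0)]⟩) .k 2 (⟨0,[(22,0)]⟩,⟨0,[(23,
  0)]⟩) .k (.r 0 ⟨0,[(5,1),(27,1)]⟩ ⟨1,[(0,1),(3,0),(3,1),(10,0),(0,0)]⟩)) (.R ⟨0,false,false,true,
  [1,0,-1],[0,0,1],[1],(⟨0,[(23,0)]⟩,⟨0,[(24,0)]⟩),(⟨0,[(24,0)]⟩,⟨0,[(23,0)]⟩),⟨0,[(12,0)]⟩,.k,.k,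
  .k,.k,.k,.k,⟨false,1,⟨0,[(5,0),(29,0)]⟩,⟨0,[(10,0)]⟩⟩,⟨true,1,⟨0,[(1,0),(19,0)]⟩,⟨0,[(0,0)]⟩⟩,
  ⟨true,0,⟨0,[(6,0),(27,0)]⟩,⟨0,[(5,0),(25,0)]⟩⟩,⟨false,1,⟨0,[(4,0),(1,0),(12,0),(12,0)]⟩,⟨0,[(5,0),
  (2,0),(9,0),(14,0)]⟩⟩,⟨false,0,⟨0,[]⟩,⟨0,[]⟩⟩,⟨false,0,⟨0,[]⟩,⟨0,[]⟩⟩,[.a ⟨true,0,⟨0,[(19,0)]⟩,⟨0,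
  [(5,0),(12,0)]⟩⟩ ⟨true,0,⟨0,[]⟩,⟨2,[(3,0),(7,0),(9,0)]⟩⟩ ⟨false,1,⟨0,[(1,0),(17,0)]⟩,⟨4,[(0,2),(1,
  1),(2,0),(2,1),(0,1),(26,0)]⟩⟩,.o ⟨false,1,⟨11,[(1,1),(1,3),(3,5),(6,0),(0,0),(3,5),(6,2)]⟩,⟨0,
  [(8,0),(24,0)]⟩⟩,.o ⟨false,0,⟨5,[(0,1),(10,0),(18,0),(4,0)]⟩,⟨2,[(1,1),(1,0),(10,0),(0,0)]⟩⟩,.o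
  ⟨false,0,⟨0,[(22,0)]⟩,⟨0,[(1,0)]⟩⟩]⟩) (.Q [0,0,0,-1,0,0,0,0,0,1] (.pp false [-1,1]) (.R ⟨0,false,
  false,false,[1,0,-1],[1,-1],[1],(⟨0,[(24,0)]⟩,⟨0,[(25,0)]⟩),(⟨0,[(28,0)]⟩,⟨0,[(29,0)]⟩),⟨0,[(13,
  0)]⟩,.k,.k,.k,.k,.k,.k,⟨false,0,⟨0,[(35,0)]⟩,⟨3,[(3,1),(11,0),(0,0),(17,1),(2,0)]⟩⟩,⟨true,0,⟨0,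
  [(22,0)]⟩,⟨2,[(7,1),(1,1),(13,0),(8,0)]⟩⟩,⟨true,0,⟨0,[(7,0),(27,0)]⟩,⟨0,[(6,0),(25,0)]⟩⟩,⟨false,1,
  ⟨3,[(0,1),(0,0),(2,0),(2,1),(0,0),(11,0),(16,1)]⟩,⟨1,[(9,0),(11,0),(13,0)]⟩⟩,⟨false,0,⟨0,[]⟩,⟨0,
  []⟩⟩,⟨false,0,⟨0,[]⟩,⟨0,[]⟩⟩,[.a ⟨true,0,⟨0,[(0,0)]⟩,⟨0,[(35,0)]⟩⟩ ⟨true,0,⟨0,[]⟩,⟨2,[(4,0),(7,0),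
  (9,0)]⟩⟩ ⟨false,1,⟨7,[(0,3),(0,3),(1,1),(11,0),(0,0),(17,1),(2,0)]⟩,⟨0,[(9,0),(1,0)]⟩⟩,.e ⟨false,
  1,⟨1,[(36,0),(0,0)]⟩,⟨0,[(39,0)]⟩⟩ ⟨false,1,⟨0,[(0,0),(0,0),(5,0),(1,0)]⟩,⟨1,[(9,0),(1,0),(11,0),
  (8,0),(2,0)]⟩⟩,.o ⟨false,0,⟨2,[(7,1),(1,1),(13,0),(8,0)]⟩,⟨2,[(2,1),(1,0),(10,0),(0,0)]⟩⟩,.o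
  ⟨false,0,⟨0,[(23,0)]⟩,⟨0,[(2,0)]⟩⟩]⟩) (.R ⟨1,false,false,true,[0,0,1],[1,-1],[1,0,0,-1,0,0,0,1],
  (⟨0,[(25,0)]⟩,⟨0,[(24,0)]⟩),(⟨0,[(28,0)]⟩,⟨0,[(29,0)]⟩),⟨0,[(14,0)]⟩,.k,.k,.k,.k,.k,.k,⟨true,0,⟨0,
  [(7,0),(25,0),(1,0)]⟩,⟨0,[(6,0),(25,0)]⟩⟩,⟨false,0,⟨1,[(12,0),(6,0),(2,0)]⟩,⟨0,[(2,0)]⟩⟩,⟨false,1,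
  ⟨0,[(34,0),(2,0)]⟩,⟨0,[(35,0)]⟩⟩,⟨false,0,⟨0,[(6,0),(12,0),(14,0)]⟩,⟨0,[(0,0),(19,0),(16,0)]⟩⟩,
  ⟨true,0,⟨0,[]⟩,⟨0,[(39,0)]⟩⟩,⟨false,0,⟨0,[(10,0)]⟩,⟨2,[(0,0),(0,0),(2,0),(2,0),(0,1),(24,0)]⟩⟩,
  [.o ⟨false,0,⟨0,[(34,0)]⟩,⟨1,[(27,0),(7,1),(1,0)]⟩⟩,.o ⟨false,1,⟨1,[(15,0),(0,0),(17,1),(2,0)]⟩,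
  ⟨0,[(0,0)]⟩⟩,.o ⟨false,1,⟨2,[(2,1),(1,0),(10,0),(0,0)]⟩,⟨3,[(0,0),(6,1),(1,0),(2,0),(8,0)]⟩⟩,.a
  ⟨true,0,⟨0,[(22,0)]⟩,⟨0,[(19,0)]⟩⟩ ⟨false,1,⟨2,[(3,0),(3,1),(0,0),(28,0)]⟩,⟨1,[(9,0),(11,0),(0,1),
  (12,0)]⟩⟩ ⟨true,0,⟨0,[(19,0),(14,0)]⟩,⟨0,[(0,0),(21,0)]⟩⟩]⟩))) (.R ⟨0,false,false,false,[-1,1,1],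
  [0,1],[0,1,1,1,0,0,0,1],(⟨0,[(11,0)]⟩,⟨0,[(22,0),(3,0)]⟩),(⟨0,[(27,0)]⟩,⟨0,[(26,0)]⟩),⟨0,[(22,
  0)]⟩,.k,.k,.k,.k,.k,.k,⟨true,0,⟨0,[(9,0)]⟩,⟨0,[(4,0)]⟩⟩,⟨false,0,⟨0,[(17,0)]⟩,⟨4,[(1,1),(0,2),(0,
  1),(9,0),(0,0)]⟩⟩,⟨true,0,⟨0,[(37,0)]⟩,⟨0,[]⟩⟩,⟨false,0,⟨0,[(4,0),(12,0)]⟩,⟨19,[(1,1),(0,7),(0,1),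
  (2,9),(6,0),(0,0),(3,9),(6,4)]⟩⟩,⟨false,0,⟨0,[]⟩,⟨0,[]⟩⟩,⟨false,0,⟨0,[]⟩,⟨0,[]⟩⟩,[.a ⟨true,0,⟨0,
  [(33,0)]⟩,⟨0,[(0,0),(0,0),(18,0)]⟩⟩ ⟨false,0,⟨0,[(9,0),(23,0)]⟩,⟨0,[(1,0),(2,0)]⟩⟩ ⟨true,(-1),⟨0,
  [(0,0),(32,0)]⟩,⟨0,[(1,0),(0,0)]⟩⟩,.o ⟨false,1,⟨1,[(25,0),(7,1),(1,0)]⟩,⟨0,[(32,0)]⟩⟩,.o ⟨false,2,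
  ⟨9,[(1,5),(0,3),(0,5),(9,2),(0,2),(10,4)]⟩,⟨0,[(0,0)]⟩⟩,.e ⟨false,0,⟨0,[(5,0),(27,1)]⟩,⟨2,[(1,1),
  (0,0),(1,1),(3,0),(23,0),(2,0)]⟩⟩ ⟨false,0,⟨1,[(0,0),(16,0),(15,1),(1,0)]⟩,⟨0,[(1,0),(0,0)]⟩⟩]⟩))
  (.Q [0,0,1,0,-1,0,-1,0,0,1,-1] (.p false [0,0,1] [1] (⟨0,[(22,0)]⟩,⟨0,[(21,0)]⟩) .k 1 (⟨0,[]⟩,⟨0,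
  []⟩) .k .k) (.R ⟨0,false,false,false,[1,0,-1],[0,1],[],(⟨0,[(22,0)]⟩,⟨0,[(23,0)]⟩),(⟨0,[(27,0)]⟩,
  ⟨0,[(26,0)]⟩),⟨0,[(11,0)]⟩,.k,.k,.k,.k,.k,.k,⟨true,1,⟨1,[(32,1),(1,0),(0,0)]⟩,⟨0,[(1,0)]⟩⟩,⟨false,
  2,⟨1,[(3,1),(28,1),(1,0),(0,0)]⟩,⟨0,[(0,0)]⟩⟩,⟨true,0,⟨0,[(5,0),(27,0)]⟩,⟨0,[(4,0),(25,0)]⟩⟩,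
  ⟨false,1,⟨2,[(1,1),(1,2),(1,1),(0,0),(28,0)]⟩,⟨0,[(4,0),(12,0),(14,0)]⟩⟩,⟨false,0,⟨0,[]⟩,⟨0,[]⟩⟩,
  ⟨false,0,⟨0,[]⟩,⟨0,[]⟩⟩,[.e ⟨false,1,⟨1,[(13,0),(0,0),(19,0)]⟩,⟨0,[]⟩⟩ ⟨false,1,⟨0,[(3,0)]⟩,⟨0,
  [(5,0),(2,0)]⟩⟩,.o ⟨false,1,⟨1,[(25,0),(7,1),(1,0)]⟩,⟨0,[(32,0)]⟩⟩,.o ⟨false,0,⟨8,[(0,1),(4,0),(1,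
  0),(2,1),(6,1),(11,1),(7,0)]⟩,⟨2,[(2,0),(0,1),(28,1),(2,0)]⟩⟩,.a ⟨true,(-1),⟨0,[(0,0)]⟩,⟨0,[(20,
  0),(13,0)]⟩⟩ ⟨false,1,⟨1,[(34,0),(0,0)]⟩,⟨2,[(2,0),(7,0),(9,0)]⟩⟩ ⟨true,1,⟨0,[(3,0)]⟩,⟨0,[(0,0),
  (31,0)]⟩⟩]⟩) (.R ⟨0,false,false,true,[1,0,-1],[0,0,1],[1],(⟨0,[(22,0)]⟩,⟨0,[(23,0)]⟩),(⟨0,[(23,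
  0)]⟩,⟨0,[(22,0)]⟩),⟨0,[(11,0)]⟩,.k,.k,.k,.k,.k,.k,⟨false,1,⟨0,[(4,0),(29,0)]⟩,⟨0,[(9,0)]⟩⟩,⟨true,
  1,⟨0,[(0,0),(19,0)]⟩,⟨0,[(1,0),(3,0),(1,0),(9,0),(14,0)]⟩⟩,⟨true,0,⟨0,[(5,0),(27,0)]⟩,⟨0,[(4,0),
  (25,0)]⟩⟩,⟨false,1,⟨2,[(1,0),(1,2),(1,3),(12,1),(1,0),(14,0)]⟩,⟨0,[(4,0),(2,0),(9,0),(14,0)]⟩⟩,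
  ⟨false,0,⟨0,[]⟩,⟨0,[]⟩⟩,⟨false,0,⟨0,[]⟩,⟨0,[]⟩⟩,[.a ⟨true,0,⟨0,[(18,0)]⟩,⟨0,[(4,0),(12,0)]⟩⟩
  ⟨true,0,⟨0,[]⟩,⟨2,[(2,0),(7,0),(9,0)]⟩⟩ ⟨false,1,⟨0,[(0,0),(17,0)]⟩,⟨0,[(5,0),(1,0),(0,0)]⟩⟩,.o
  ⟨false,1,⟨11,[(0,1),(1,3),(3,5),(6,0),(0,0),(3,5),(6,2)]⟩,⟨0,[(7,0),(24,0)]⟩⟩,.o ⟨false,0,⟨5,[(1,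
  0),(3,1),(1,0),(2,0),(6,1),(1,0),(9,0)]⟩,⟨2,[(0,1),(1,0),(10,0),(0,0)]⟩⟩,.o ⟨false,0,⟨0,[(21,0)]⟩,
  ⟨0,[(0,0)]⟩⟩]⟩))) (.Q [0,0,-1,0,1,0,1,0,0,-1,1] (.p true [0,0,1] [1] (⟨0,[(21,0)]⟩,⟨0,[(20,0)]⟩)
  .k 1 (⟨0,[]⟩,⟨0,[]⟩) .k .k) (.R ⟨0,false,false,false,[1,0,-1],[1,-1],[1],(⟨0,[(21,0)]⟩,⟨0,[(22,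
  0)]⟩),(⟨0,[(25,0)]⟩,⟨0,[(26,0)]⟩),⟨0,[(10,0)]⟩,.k,.k,.k,.k,.k,.k,⟨false,0,⟨0,[(32,0)]⟩,⟨1,[(31,1),
  (1,0),(0,0)]⟩⟩,⟨true,0,⟨0,[(19,0)]⟩,⟨2,[(4,1),(1,1),(13,0),(8,0)]⟩⟩,⟨true,0,⟨0,[(4,0),(27,0)]⟩,⟨0,
  [(3,0),(25,0)]⟩⟩,⟨false,1,⟨1,[(4,1),(14,1),(13,0),(0,0)]⟩,⟨1,[(6,0),(11,0),(13,0)]⟩⟩,⟨false,0,⟨0,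
  []⟩,⟨0,[]⟩⟩,⟨false,0,⟨0,[]⟩,⟨0,[]⟩⟩,[.a ⟨true,0,⟨2,[(1,1),(1,0),(0,1),(2,0),(11,2),(11,0)]⟩,⟨0,
  [(32,0)]⟩⟩ ⟨true,0,⟨0,[]⟩,⟨1,[(19,0),(0,0)]⟩⟩ ⟨false,1,⟨3,[(0,2),(0,2),(1,0),(0,0),(14,3),(11,2),
  (2,0)]⟩,⟨0,[(6,0),(1,0)]⟩⟩,.e ⟨false,1,⟨1,[(33,0),(0,0)]⟩,⟨0,[(36,0)]⟩⟩ ⟨false,1,⟨0,[(0,0),(0,0),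
  (1,0),(0,0),(14,0)]⟩,⟨1,[(6,0),(1,0),(11,0),(8,0),(2,0)]⟩⟩,.o ⟨false,0,⟨2,[(4,1),(1,1),(13,0),(8,
  0)]⟩,⟨3,[(0,1),(11,0),(0,0),(5,1),(4,0)]⟩⟩,.o ⟨false,0,⟨0,[(20,0)]⟩,⟨0,[(0,0)]⟩⟩]⟩) (.R ⟨0,false,
  false,false,[-1,1,1],[0,1],[0,1,1,1,0,0,0,1],(⟨0,[(10,0)]⟩,⟨0,[(21,0),(3,0)]⟩),(⟨0,[(26,0)]⟩,⟨0,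
  [(25,0)]⟩),⟨0,[(21,0)]⟩,.k,.k,.k,.k,.k,.k,⟨true,0,⟨0,[(8,0)]⟩,⟨0,[(3,0)]⟩⟩,⟨false,0,⟨0,[(16,0)]⟩,
  ⟨3,[(2,1),(16,1),(4,0),(6,1),(2,0)]⟩⟩,⟨true,0,⟨0,[(36,0)]⟩,⟨0,[]⟩⟩,⟨false,0,⟨4,[(0,0),(0,1),(1,2),
  (3,1),(26,0)]⟩,⟨1,[(17,1),(6,0),(9,0)]⟩⟩,⟨false,0,⟨0,[]⟩,⟨0,[]⟩⟩,⟨false,0,⟨0,[]⟩,⟨0,[]⟩⟩,[.a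
  ⟨true,0,⟨0,[(32,0)]⟩,⟨2,[(1,1),(1,0),(0,1),(2,0),(11,2),(11,0)]⟩⟩ ⟨false,0,⟨0,[(8,0),(23,0)]⟩,⟨0,
  [(1,0),(0,0),(0,1),(0,0),(26,0)]⟩⟩ ⟨true,(-1),⟨0,[(0,0),(31,0)]⟩,⟨0,[(2,0),(0,0),(0,0),(26,0)]⟩⟩,
  .o ⟨false,1,⟨1,[(24,0),(7,1),(1,0)]⟩,⟨0,[(31,0)]⟩⟩,.o ⟨false,2,⟨1,[(2,1),(21,0),(6,1),(2,0)]⟩,⟨0,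
  [(0,0)]⟩⟩,.e ⟨false,0,⟨0,[(4,0),(27,1)]⟩,⟨1,[(3,1),(27,1),(1,0),(0,0)]⟩⟩ ⟨false,0,⟨1,[(0,0),(15,
  0),(15,1),(1,0)]⟩,⟨0,[(2,0),(0,0),(0,0),(26,0)]⟩⟩]⟩)))) (.Q [0,-1,0,0,1,0,1,1,0,-1,1] (.p true [0,
  0,1] [1] (⟨0,[(19,0)]⟩,⟨0,[(18,0)]⟩) .k 1 (⟨0,[]⟩,⟨0,[]⟩) .k .k) (.S ⟨1,0,[0,0,0,0,0,0,0,1],[0,0,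
  1],[0,1,0,0,0,0,0,1],(⟨0,[(20,0)]⟩,⟨0,[(19,0)]⟩),⟨0,[(9,0)]⟩,.k,.k,⟨true,0,⟨0,[(34,0)]⟩,⟨0,[]⟩⟩,
  ⟨false,1,⟨1,[(10,0),(0,0),(20,0)]⟩,⟨0,[]⟩⟩,⟨false,0,⟨0,[(30,0)]⟩,⟨0,[(29,0),(2,0)]⟩⟩,⟨true,0,⟨0,
  [(30,0)]⟩,⟨0,[(29,0)]⟩⟩,[.o ⟨false,1,⟨3,[(0,1),(9,0),(0,0),(3,1),(6,0)]⟩,⟨0,[(4,0),(24,0)]⟩⟩,.o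
  ⟨false,1,⟨0,[(0,0)]⟩,⟨0,[(16,0)]⟩⟩,.o ⟨false,1,⟨1,[(17,1),(4,0),(8,0)]⟩,⟨3,[(1,0),(0,1),(1,1),(11,
  0),(1,0)]⟩⟩,.a ⟨true,0,⟨0,[(17,0)]⟩,⟨0,[(14,0)]⟩⟩ ⟨true,0,⟨0,[(1,0)]⟩,⟨0,[(4,0),(12,0),(11,0)]⟩⟩
  ⟨false,1,⟨0,[(3,0)]⟩,⟨0,[(4,0),(12,0),(11,0)]⟩⟩]⟩) (.S ⟨1,0,[0,0,0,0,0,0,0,1],[0,0,1],[1,1,0,-1,0,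
  0,0,1],(⟨0,[(20,0)]⟩,⟨0,[(19,0)]⟩),⟨0,[(9,0)]⟩,.k,.k,⟨true,0,⟨0,[(29,0)]⟩,⟨0,[(30,0)]⟩⟩,⟨false,1,
  ⟨1,[(10,0),(0,0),(20,0)]⟩,⟨0,[]⟩⟩,⟨false,0,⟨0,[]⟩,⟨1,[(10,0),(0,0),(20,0)]⟩⟩,⟨true,0,⟨0,[(30,0)]⟩,
  ⟨0,[(29,0)]⟩⟩,[.o ⟨false,1,⟨1,[(15,1),(6,0),(9,0)]⟩,⟨2,[(0,1),(4,0),(20,0),(5,0)]⟩⟩,.a ⟨true,1,⟨0,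
  [(15,0),(16,0)]⟩,⟨0,[(0,0)]⟩⟩ ⟨true,0,⟨0,[(2,0)]⟩,⟨1,[(4,0),(11,0),(0,1),(12,0)]⟩⟩ ⟨false,1,⟨0,
  [(3,0)]⟩,⟨3,[(0,2),(15,0),(0,3),(8,0),(4,1)]⟩⟩,.o ⟨false,1,⟨1,[(17,1),(4,0),(8,0)]⟩,⟨7,[(0,0),(0,
  0),(0,1),(1,1),(2,1),(10,0),(7,0)]⟩⟩,.e ⟨false,1,⟨0,[(3,0),(25,0)]⟩,⟨0,[(4,0),(12,0)]⟩⟩ ⟨false,1,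
  ⟨0,[(3,0)]⟩,⟨2,[(0,1),(4,0),(11,2),(8,0),(5,0)]⟩⟩]⟩)))) (.R ⟨2,true,false,true,[0,1],[0,0,1],[1,1,
  1],(⟨0,[]⟩,⟨0,[]⟩),(⟨0,[(17,0)]⟩,⟨0,[(16,0)]⟩),⟨0,[]⟩,.k,.k,.k,.k,.k,.k,⟨false,0,⟨1,[(0,1),(27,0),
  (0,0)]⟩,⟨1,[(3,1),(24,0),(0,0)]⟩⟩,⟨true,0,⟨0,[(14,0)]⟩,⟨2,[(0,0),(2,0),(7,2),(11,0),(1,1)]⟩⟩,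
  ⟨true,0,⟨0,[(26,0)]⟩,⟨0,[(27,0)]⟩⟩,⟨false,1,⟨0,[(12,0),(13,0),(2,0)]⟩,⟨0,[(1,0)]⟩⟩,⟨false,0,⟨0,
  []⟩,⟨1,[(7,0),(0,0),(20,0)]⟩⟩,⟨true,0,⟨0,[(12,0)]⟩,⟨0,[(1,0),(24,0)]⟩⟩,[]⟩)))))

theorem ok0 : chk K t0 base = true := by decide +kernel

theorem closed {p a b c J l q : ℤ} {D dl : ℝ} {Cl : ℤ → ℤ → ℤ → ℤ → ℝ → Prop}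
    (W : World p a b c J 1 l q D dl Cl) (g : G0 p a b c J D)
    {N X R : ℤ} {I : ℝ} (hk : KCl p l Cl N X R I) (kz : KF a b D (X + (1 : ℤ) * I) (X + (1 : ℤ) * I + R) I)
    {Ne Xe : ℤ} {Ie : ℝ} (he : EFac p 1 D Cl 1 Ne Xe Ie)
    (hkf : ∀ kf ∈ (kfY 1 [0,0,0,0,0,0,1,0,0,0,1]), KOk p l Cl 1
      (xv [1, a, b, c, p, J, X, R, Xe] [D, I, Ie]) N kf)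
    (h0 : 1 ≤ (c : ℝ))
    (h1 : 1 ≤ 1 - (a : ℝ) + (b : ℝ))
    (h2 : 1 ≤ 2 * (a : ℝ) - (b : ℝ))
    (h3 : 0 < 1 + (p : ℝ) - 3 * D)
    (h4 : 1 ≤ 2 * (a : ℝ) - (b : ℝ))
    (h5 : 1 ≤ 2 - (J : ℝ))
    (h6 : 0 < -(b : ℝ) - (X : ℝ) + D - I)
    (h7 : 0 < -(J : ℝ) + I)
    (h8 : 0 < (J : ℝ) - D + I)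
    (h9 : 0 < -2 * (X : ℝ) + D - 2 * I) : False := by
  have g1 := g.a2
  have g2 := g.b2
  have g3 := g.pa
  have g4 := g.pb
  have g5 := g.J1
  have g6 := g.JD
  have g7 := g.D2
  have g8 := g.ca
  have g9 := g.ca'
  have k1 := kz.I0
  have k2 := kz.ID
  have k3 := kz.z1
  have k4 := kz.z2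
  have k5 := kz.s1
  have k6 := kz.s2
  have e1 := he.I0
  have e2 := he.ID
  have e3 := he.x0
  have e4 := he.xp
  push_cast at *
  refine (val_E W.toBase hk he (row := [1]) (by simp) (by simp) (kfY 1 [0,0,0,0,0,0,1,0,0,0,1])).sound W rfl (Nk := N)
    (fun kf _ _ => ⟨_, rfl⟩) hkf ?_ ok0
  · simp only [base, List.forall_mem_cons, List.not_mem_nil, false_imp_iff, implies_true,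
      and_true, hld, xv, evg_cons, evg_nil, List.map_cons, List.map_nil, List.cons_append,
      List.nil_append, if_true, if_false, Bool.false_eq_true]
    push_cast
    refine ⟨?_, ?_, ?_, ?_, ?_, ?_, ?_, ?_, ?_, ?_, ?_, ?_, ?_, ?_, ?_, ?_, ?_, ?_, ?_, ?_, ?_, ?_, ?_, ?_, ?_, ?_, ?_, ?_⟩ <;> linarith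

end Helper48.Y.Y11_c35_P1_m1n0

namespace Helper48.Y.Y11_c35_P2_m0n0

open Helper25.KG Helper25.KW Helper55.KE Helper11.CT

noncomputable def K : Cls :=
  cE 1 [1] (kfY 1 [0,0,0,0,0,0,1,0,0,0,1])

noncomputable def base : List Con :=
  [(false,[0,0,0,0,0,0,-2,0,0,1,-2]),
  (false,[0,0,0,0,0,1,0,0,0,-1,1]),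
  (false,[0,0,0,0,0,1,0,0,0,0,-1]),
  (false,[0,0,0,0,1,0,0,0,-1,0,0,-1]),
  (false,[0,0,0,0,0,0,0,0,1,0,0,1]),
  (false,[0,0,0,0,0,0,0,0,0,1,0,-1]),
  (false,[0,0,0,0,0,0,0,0,0,0,0,1]),
  (false,[0,0,-1,0,0,0,-1,0,0,1,-1]),
  (false,[0,1,0,0,0,0,1,1,0,0,1]),
  (false,[0,1,0,0,0,0,-1,-1,0,0,-1]),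
  (false,[0,0,1,0,0,0,1,0,0,0,1]),
  (false,[0,0,1,0,0,0,-1,0,0,0,-1]),
  (false,[0,0,0,0,0,0,0,0,0,1,-1]),
  (false,[0,0,0,0,0,0,0,0,0,0,1]),
  (true,[3,0,0,0,0,-1]),
  (true,[-1,0,0,0,0,1]),
  (false,[0,0,0,0,1,0,0,0,0,-2]),
  (false,[0,0,0,0,0,-1,0,0,0,1]),
  (true,[0,0,0,0,0,1]),
  (true,[0,2,-1]),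
  (false,[1,0,0,0,2,0,0,0,0,-5]),
  (true,[0,2,-1]),
  (true,[1,-1,1]),
  (true,[0,1,0,-1]),
  (true,[0,0,0,1]),
  (true,[0,0,-2,0,1]),
  (true,[0,-2,0,0,1]),
  (true,[-1,0,1]),
  (true,[-1,1])]

noncomputable def l0 : List Con := (false, [0,-1,0,1,0,0,-1,-1,0,0,-1]) :: base

noncomputable def r0 : List Con := (false, [0,1,0,-1,0,0,1,1,0,0,1]) :: base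

noncomputable def l1 : List Con := (false, [0,0,0,1,0,0,-1,-1,0,0,-1]) :: r0

noncomputable def r1 : List Con := (false, [0,0,0,-1,0,0,1,1,0,0,1]) :: r0

noncomputable def t0 : Tre :=
  (.I [0,0,0,1,0,0,0,-1] (.Q [0,0,0,0,0,0,-1,0,0,0,-1] (.p false [0,0,1] [] (⟨0,[(15,0)]⟩,⟨0,[(14,
  0)]⟩) .k 0 (⟨0,[]⟩,⟨0,[]⟩) .k .k) (.I [1,0,-1,-1,1,0,0,1] (.R ⟨2,true,false,true,[0,1],[0,0,1],[0,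
  1,1,1],(⟨0,[]⟩,⟨0,[]⟩),(⟨0,[(17,0)]⟩,⟨0,[(16,0)]⟩),⟨0,[]⟩,.k,.k,.k,.k,.k,.k,⟨false,0,⟨0,[(2,0)]⟩,
  ⟨0,[(0,0)]⟩⟩,⟨true,0,⟨0,[(14,0)]⟩,⟨0,[(1,0)]⟩⟩,⟨true,0,⟨0,[(32,0)]⟩,⟨0,[]⟩⟩,⟨false,1,⟨0,[(0,0),
  (13,0)]⟩,⟨0,[(3,0)]⟩⟩,⟨false,0,⟨0,[(28,0)]⟩,⟨0,[(27,0),(2,0)]⟩⟩,⟨true,0,⟨0,[(12,0)]⟩,⟨0,[(3,0),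
  (23,0)]⟩⟩,[]⟩) (.I [0,1,0,0,0,0,0,1] (.I [0,0,0,0,1,0,0,0,-1] (.I [0,0,-1,0,0,1,-1] (.C [(0,0),(2,
  0),(5,0),(5,0),(5,1),(8,0),(2,0)]) (.C [(0,0),(7,0),(5,0)])) (.C [(0,0),(8,0),(2,0)])) (.C [(0,0),
  (1,0),(10,0)]))) (.I [0,0,-2,-2,1] (.R ⟨0,false,false,true,[0,1,-1],[0,1],[1,0,1],(⟨0,[(6,0)]⟩,⟨0,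
  [(17,0),(3,0)]⟩),(⟨0,[(22,0)]⟩,⟨0,[(21,0)]⟩),⟨0,[(17,0)]⟩,.k,.k,.k,.k,.k,.k,⟨false,1,⟨1,[(0,0),
  (29,0)]⟩,⟨2,[(2,0),(9,0),(2,0),(9,0),(2,1)]⟩⟩,⟨true,0,⟨0,[(1,0)]⟩,⟨0,[(15,0)]⟩⟩,⟨false,1,⟨5,[(0,
  2),(3,0),(6,3),(0,5),(11,0),(1,9),(3,0)]⟩,⟨0,[(2,0)]⟩⟩,⟨true,0,⟨0,[(12,0)]⟩,⟨0,[(3,0),(23,0)]⟩⟩,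
  ⟨false,0,⟨0,[]⟩,⟨0,[]⟩⟩,⟨false,0,⟨0,[]⟩,⟨0,[]⟩⟩,[.e ⟨false,0,⟨0,[]⟩,⟨1,[(7,0),(0,0),(20,0)]⟩⟩
  ⟨false,0,⟨0,[(2,0),(9,0)]⟩,⟨5,[(0,2),(3,0),(6,3),(12,0),(1,3),(3,0)]⟩⟩,.a ⟨true,0,⟨0,[(28,0)]⟩,⟨0,
  [(1,0),(9,0),(14,0),(0,0)]⟩⟩ ⟨true,0,⟨0,[(26,0)]⟩,⟨0,[(32,0)]⟩⟩ ⟨false,0,⟨0,[(1,0),(26,0)]⟩,⟨9,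
  [(0,4),(3,4),(2,2),(0,2),(15,0)]⟩⟩,.o ⟨false,1,⟨2,[(4,0),(6,0),(12,0),(4,0)]⟩,⟨0,[(14,0)]⟩⟩,.o
  ⟨false,1,⟨49,[(4,24),(2,16),(0,16),(15,14),(5,2),(1,5)]⟩,⟨0,[(1,0)]⟩⟩]⟩) (.Q [0,0,2,0,-1,0,1,0,0,
  1,1] (.p true [1,-1,1] [] (⟨0,[(17,0),(3,0)]⟩,⟨0,[(6,0)]⟩) .k 0 (⟨0,[]⟩,⟨0,[]⟩) .k .k) (.K ⟨0,[1,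
  -1,1],(-1),0,(⟨0,[(18,0),(3,0)]⟩,⟨0,[(7,0)]⟩),.k,(.r (-2) ⟨1,[(6,1),(0,1),(4,1),(0,1),(5,3),(8,3),
  (1,0),(0,2)]⟩ ⟨3,[(0,0),(0,2),(0,0),(0,1),(0,1),(1,0),(0,0),(11,1),(8,1)]⟩),.k,.k,.k,[⟨9,[(8,0),
  (0,0),(15,1),(4,4)]⟩,⟨0,[(0,0)]⟩,⟨12,[(1,3),(2,10),(1,2),(0,2),(6,1),(4,5),(5,1),(0,7),(1,5)]⟩,⟨0,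
  [(2,0),(9,0),(0,0),(13,0),(0,0)]⟩]⟩) (.I [0,0,0,0,0,1,1] (.I [0,0,0,0,1,0,0,0,-1] (.I [0,0,-1,0,0,
  1,-1] (.C [(0,0),(1,0),(0,0),(0,0),(0,1),(9,0),(6,1),(7,1),(0,1)]) (.C [(0,0),(8,0),(5,0)])) (.C
  [(0,0),(9,0),(2,0)])) (.C [(0,0),(2,0),(4,0)]))))) (.I [1,1,-1,0,0,0,0,1] (.Q [0,0,0,1,0,0,-1,-1,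
  0,-1,-1] (.p false [1,-1,1] [] (⟨0,[(16,0),(3,0)]⟩,⟨0,[(5,0)]⟩) .k 0 (⟨0,[]⟩,⟨0,[]⟩) .k .k) (.Q
  [0,1,0,-1,0,0,1,1,0,1,1] (.p true [1,-1,1] [] (⟨0,[(17,0),(3,0)]⟩,⟨0,[(6,0)]⟩) .k 0 (⟨0,[]⟩,⟨0,
  []⟩) .k .k) (.R ⟨2,false,false,false,[0,1],[0,1,-1],[1,1],(⟨0,[]⟩,⟨0,[]⟩),(⟨0,[(7,0)]⟩,⟨0,[(18,0),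
  (3,0)]⟩),⟨0,[]⟩,.k,.k,.k,.k,.k,.k,⟨false,1,⟨33,[(0,9),(2,23),(1,4),(19,2),(0,11),(3,27)]⟩,⟨0,[(4,
  0),(10,0)]⟩⟩,⟨true,0,⟨2,[(1,0),(1,0),(1,0)]⟩,⟨0,[(15,0)]⟩⟩,⟨false,1,⟨1,[(28,1),(1,0),(0,0)]⟩,⟨0,
  [(27,0),(1,0)]⟩⟩,⟨true,0,⟨0,[(4,0),(23,0)]⟩,⟨0,[(13,0)]⟩⟩,⟨false,1,⟨1,[(8,0),(0,0),(20,0)]⟩,⟨0,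
  [(3,0),(0,0),(10,0)]⟩⟩,⟨false,0,⟨0,[(4,0)]⟩,⟨9,[(0,9),(7,0),(0,0),(15,1),(5,4)]⟩⟩,[.o ⟨false,0,⟨0,
  [(1,0)]⟩,⟨9,[(0,9),(7,0),(0,0),(15,1),(5,4)]⟩⟩,.a ⟨true,0,⟨0,[(4,0)]⟩,⟨0,[(0,0)]⟩⟩ ⟨true,0,⟨0,[]⟩,
  ⟨1,[(15,0),(0,0)]⟩⟩ ⟨false,0,⟨0,[(4,0)]⟩,⟨9,[(0,9),(7,0),(0,0),(15,1),(4,4)]⟩⟩,.o ⟨false,1,⟨9,[(8,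
  0),(0,0),(15,1),(4,4)]⟩,⟨1,[(15,0),(0,0)]⟩⟩,.fo]⟩) (.Q [0,-1,0,0,0,0,-1,-1,0,1,-1] (.p false [0,0,
  1] [1] (⟨0,[(18,0)]⟩,⟨0,[(17,0)]⟩) .k 1 (⟨0,[]⟩,⟨0,[]⟩) .k .k) (.R ⟨0,false,false,true,[0,1,-1],
  [0,0,1],[1,1,0,0,0,0,0,1],(⟨0,[(8,0)]⟩,⟨0,[(19,0),(3,0)]⟩),(⟨0,[(19,0)]⟩,⟨0,[(18,0)]⟩),⟨0,[(19,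
  0)]⟩,.k,.k,.k,(.r 0 ⟨0,[(0,0),(0,0),(14,1),(10,0)]⟩ ⟨13,[(3,3),(0,13),(1,4),(7,9),(11,0),(4,4),(0,
  6)]⟩),.k,.k,⟨true,0,⟨0,[]⟩,⟨1,[(16,0),(0,0)]⟩⟩,⟨false,1,⟨0,[(16,1),(14,0)]⟩,⟨0,[(2,0),(1,0),(8,
  0)]⟩⟩,⟨true,0,⟨0,[(3,0),(0,0)]⟩,⟨0,[(0,0),(0,0),(14,1),(10,0)]⟩⟩,⟨false,1,⟨1,[(4,1),(9,1),(1,1),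
  (14,0),(0,0)]⟩,⟨0,[(0,0),(1,0)]⟩⟩,⟨false,0,⟨0,[]⟩,⟨0,[]⟩⟩,⟨false,0,⟨0,[]⟩,⟨0,[]⟩⟩,[.a ⟨true,0,⟨0,
  [(14,0)]⟩,⟨0,[(0,0)]⟩⟩ ⟨false,0,⟨0,[(3,0)]⟩,⟨5,[(0,4),(14,0),(0,5),(9,0),(4,2),(0,0)]⟩⟩ ⟨true,0,
  ⟨0,[(14,0),(1,0)]⟩,⟨6,[(0,3),(0,5),(2,2),(1,1),(22,2)]⟩⟩,.o ⟨false,1,⟨9,[(9,0),(0,0),(3,9),(11,1),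
  (5,4)]⟩,⟨2,[(0,0),(0,0),(13,0),(13,0)]⟩⟩,.o ⟨false,1,⟨2,[(6,0),(6,0),(12,0),(4,0)]⟩,⟨0,[(16,0)]⟩⟩,
  .o ⟨false,0,⟨0,[(2,0),(1,0)]⟩,⟨1,[(9,0),(0,0),(5,1),(14,0)]⟩⟩]⟩) (.Q [0,-1,0,-1,1,0,2,2,0,0,2]
  (.p true [0,0,1] [0,1,-1] (⟨0,[(19,0)]⟩,⟨0,[(18,0)]⟩) .k 2 (⟨0,[(8,0)]⟩,⟨0,[(19,0),(3,0)]⟩) .k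
  (.r 0 ⟨0,[(4,1),(25,1)]⟩ ⟨0,[(5,1),(10,1),(12,1),(1,0)]⟩)) (.R ⟨0,false,false,true,[0,0,1],[0,1,
  -1],[1,0,1],(⟨0,[(20,0)]⟩,⟨0,[(19,0)]⟩),(⟨0,[(9,0)]⟩,⟨0,[(20,0),(3,0)]⟩),⟨0,[(9,0)]⟩,.k,.k,.k,(.x
  (-1) ⟨9,[(9,9),(0,0),(0,0),(5,19),(1,9),(7,1),(4,4)]⟩ ⟨15,[(2,19),(2,19),(1,2),(6,5),(5,31),(0,4),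
  (2,10),(3,9)]⟩),.k,.k,⟨false,1,⟨1,[(5,1),(26,0),(0,0)]⟩,⟨0,[(6,0),(10,0),(10,0)]⟩⟩,⟨true,0,⟨0,[(3,
  0),(1,0),(8,0)]⟩,⟨0,[(17,1)]⟩⟩,⟨true,0,⟨0,[(6,0),(10,0),(12,0)]⟩,⟨0,[(1,0),(12,0)]⟩⟩,⟨false,0,⟨0,
  [(6,0),(9,0)]⟩,⟨0,[(0,0)]⟩⟩,⟨false,0,⟨0,[]⟩,⟨0,[]⟩⟩,⟨false,0,⟨0,[]⟩,⟨0,[]⟩⟩,[.o ⟨false,0,⟨0,[(3,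
  0),(31,0)]⟩,⟨1,[(0,0),(29,0),(2,0)]⟩⟩,.o ⟨false,0,⟨0,[(3,0)]⟩,⟨1,[(0,0),(9,0),(0,0),(18,0)]⟩⟩,.o
  ⟨false,1,⟨9,[(10,0),(0,0),(5,9),(9,1),(4,4)]⟩,⟨2,[(3,0),(1,0),(1,0)]⟩⟩,.a ⟨true,0,⟨0,[(17,0)]⟩,⟨0,
  [(14,0)]⟩⟩ ⟨true,0,⟨0,[]⟩,⟨0,[(35,0)]⟩⟩ ⟨false,0,⟨0,[(3,0),(10,0)]⟩,⟨1,[(0,0),(16,1),(12,0),(2,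
  0)]⟩⟩]⟩) (.R ⟨0,false,false,true,[0,0,1],[0,1,-1],[0,1,1,1,0,0,0,-1],(⟨0,[(20,0)]⟩,⟨0,[(19,0)]⟩),
  (⟨0,[(9,0)]⟩,⟨0,[(20,0),(3,0)]⟩),⟨0,[(9,0)]⟩,.k,.k,.k,(.r (-1) ⟨13,[(4,3),(0,13),(1,4),(7,9),(11,
  0),(4,4),(0,6)]⟩ ⟨1,[(0,1),(16,3),(14,0),(0,0)]⟩),.k,.k,⟨false,1,⟨1,[(10,0),(0,0),(20,0)]⟩,⟨0,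
  []⟩⟩,⟨true,0,⟨12,[(0,2),(1,5),(1,2),(0,8),(1,2),(6,7),(12,0),(4,0)]⟩,⟨0,[(17,1)]⟩⟩,⟨false,0,⟨1,
  [(0,1),(16,3),(14,0),(0,0)]⟩,⟨0,[(4,0),(0,0),(27,0)]⟩⟩,⟨true,(-1),⟨0,[(0,0)]⟩,⟨1,[(5,1),(9,1),(1,
  1),(14,0),(0,0)]⟩⟩,⟨false,0,⟨0,[]⟩,⟨0,[]⟩⟩,⟨false,0,⟨0,[]⟩,⟨0,[]⟩⟩,[.o ⟨false,0,⟨4,[(0,1),(15,0),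
  (10,0),(3,2),(3,1)]⟩,⟨1,[(5,1),(11,1),(14,0),(0,0)]⟩⟩,.o ⟨false,0,⟨0,[(3,0)]⟩,⟨0,[(15,0),(14,0),
  (2,0)]⟩⟩,.o ⟨false,1,⟨9,[(10,0),(0,0),(5,9),(9,1),(4,4)]⟩,⟨54,[(0,3),(1,7),(1,3),(0,11),(1,17),
  (10,2),(8,1),(6,0)]⟩⟩,.a ⟨true,0,⟨0,[(17,0)]⟩,⟨0,[(14,0)]⟩⟩ ⟨true,0,⟨4,[(0,1),(15,0),(0,4),(10,0),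
  (2,2),(0,1)]⟩,⟨0,[(5,0)]⟩⟩ ⟨false,0,⟨0,[(3,0),(10,0)]⟩,⟨1,[(5,1),(11,3),(14,0),(0,0)]⟩⟩]⟩)))) (.R
  ⟨2,false,false,false,[0,1],[0,1,-1],[0,1],(⟨0,[]⟩,⟨0,[]⟩),(⟨0,[(6,0)]⟩,⟨0,[(17,0),(3,0)]⟩),⟨0,[]⟩,
  .k,.k,.k,.k,.k,.k,⟨false,1,⟨23,[(0,9),(1,13),(1,4),(19,2),(0,11),(3,17)]⟩,⟨0,[(3,0),(10,0)]⟩⟩,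
  ⟨true,0,⟨3,[(1,0),(0,1),(0,1),(9,0),(1,0)]⟩,⟨0,[(14,0)]⟩⟩,⟨false,1,⟨1,[(27,1),(1,0),(0,0)]⟩,⟨0,
  [(26,0),(1,0)]⟩⟩,⟨true,0,⟨0,[(3,0),(23,0)]⟩,⟨0,[(12,0)]⟩⟩,⟨false,1,⟨1,[(7,0),(0,0),(20,0)]⟩,⟨0,
  [(26,0)]⟩⟩,⟨false,0,⟨0,[(3,0)]⟩,⟨24,[(0,24),(6,13),(0,13),(15,4),(5,0),(1,1)]⟩⟩,[.a ⟨true,0,⟨1,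
  [(3,0),(9,0),(14,0)]⟩,⟨0,[(0,0)]⟩⟩ ⟨true,0,⟨0,[(32,0)]⟩,⟨0,[(26,0)]⟩⟩ ⟨false,0,⟨1,[(3,0),(9,0),
  (14,0)]⟩,⟨9,[(0,9),(6,0),(0,0),(15,1),(4,4)]⟩⟩,.e ⟨false,1,⟨1,[(7,0),(0,0),(20,0)]⟩,⟨0,[]⟩⟩
  ⟨false,0,⟨0,[(3,0)]⟩,⟨19,[(0,19),(6,6),(0,6),(15,3),(0,9),(3,4)]⟩⟩,.o ⟨false,1,⟨9,[(7,0),(0,0),
  (15,1),(4,4)]⟩,⟨1,[(14,0),(0,0)]⟩⟩,.fo]⟩)) (.Q [0,0,0,1,0,0,-1,-1,0,-1,-1] (.p false [1,-1,1] []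
  (⟨0,[(16,0),(3,0)]⟩,⟨0,[(5,0)]⟩) .k 0 (⟨0,[]⟩,⟨0,[]⟩) .k .k) (.R ⟨0,false,false,true,[0,1,-1],[0,
  0,1],[1,0,1],(⟨0,[(6,0)]⟩,⟨0,[(17,0),(3,0)]⟩),(⟨0,[(17,0)]⟩,⟨0,[(16,0)]⟩),⟨0,[(17,0)]⟩,.k,.k,.k,
  (.r 0 ⟨0,[(1,1),(23,0),(2,0)]⟩ ⟨13,[(2,17),(1,4),(7,9),(11,0),(3,3),(0,6),(0,4)]⟩),.k,.k,⟨true,0,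
  ⟨0,[(1,0)]⟩,⟨2,[(0,0),(1,0),(1,0),(7,2)]⟩⟩,⟨false,1,⟨0,[(14,1),(14,0)]⟩,⟨0,[(0,0),(1,0),(8,0)]⟩⟩,
  ⟨true,0,⟨0,[(2,0)]⟩,⟨0,[(1,0),(23,0),(2,0)]⟩⟩,⟨false,1,⟨1,[(2,1),(9,1),(1,1),(14,0),(0,0)]⟩,⟨0,
  [(3,1),(23,0)]⟩⟩,⟨false,0,⟨0,[]⟩,⟨0,[]⟩⟩,⟨false,0,⟨0,[]⟩,⟨0,[]⟩⟩,[.a ⟨true,0,⟨0,[(12,0)]⟩,⟨0,[(1,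
  0),(9,0)]⟩⟩ ⟨false,0,⟨0,[]⟩,⟨1,[(7,0),(0,0),(20,0)]⟩⟩ ⟨true,0,⟨0,[(12,0),(1,0)]⟩,⟨0,[(2,0),(0,1),
  (23,0)]⟩⟩,.o ⟨false,1,⟨9,[(7,0),(0,0),(3,9),(11,1),(5,4)]⟩,⟨0,[(3,0),(23,0)]⟩⟩,.o ⟨false,1,⟨2,[(4,
  0),(6,0),(12,0),(4,0)]⟩,⟨0,[(14,0)]⟩⟩,.o ⟨false,0,⟨0,[(0,0),(1,0)]⟩,⟨1,[(7,0),(0,0),(5,1),(14,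
  0)]⟩⟩]⟩) (.R ⟨2,false,false,false,[0,1],[0,1,-1],[0,1],(⟨0,[]⟩,⟨0,[]⟩),(⟨0,[(6,0)]⟩,⟨0,[(17,0),(3,
  0)]⟩),⟨0,[]⟩,.k,.k,.k,.k,.k,.k,⟨false,1,⟨23,[(0,9),(1,13),(1,4),(19,2),(0,11),(3,17)]⟩,⟨0,[(1,0),
  (26,0)]⟩⟩,⟨true,0,⟨2,[(2,1),(0,1),(11,0),(9,0)]⟩,⟨0,[(14,0)]⟩⟩,⟨false,1,⟨1,[(27,1),(1,0),(0,0)]⟩,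
  ⟨0,[(26,0),(1,0)]⟩⟩,⟨true,0,⟨0,[(3,0),(23,0)]⟩,⟨0,[(12,0)]⟩⟩,⟨false,1,⟨1,[(7,0),(0,0),(20,0)]⟩,⟨0,
  [(26,0)]⟩⟩,⟨false,0,⟨0,[(3,0)]⟩,⟨24,[(0,24),(6,13),(0,13),(15,4),(5,0),(1,1)]⟩⟩,[.a ⟨true,0,⟨1,
  [(3,0),(9,0),(14,0)]⟩,⟨0,[(0,0)]⟩⟩ ⟨true,0,⟨0,[(32,0)]⟩,⟨0,[(26,0)]⟩⟩ ⟨false,0,⟨1,[(3,0),(9,0),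
  (14,0)]⟩,⟨9,[(0,9),(6,0),(0,0),(15,1),(4,4)]⟩⟩,.e ⟨false,1,⟨1,[(7,0),(0,0),(20,0)]⟩,⟨0,[]⟩⟩
  ⟨false,0,⟨0,[(3,0)]⟩,⟨19,[(0,19),(6,6),(0,6),(15,3),(0,9),(3,4)]⟩⟩,.o ⟨false,1,⟨9,[(7,0),(0,0),
  (15,1),(4,4)]⟩,⟨1,[(14,0),(0,0)]⟩⟩,.fo]⟩))))

theorem ok0 : chk K t0 l0 = true := by decide +kernel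

noncomputable def t1 : Tre :=
  (.Q [0,0,0,-1,0,0,0,0,0,1] (.pp false [-1,1]) (.Q [0,0,0,-1,0,0,1,1,0,1,1] (.p true [1,-1,1] []
  (⟨0,[(16,0),(3,0)]⟩,⟨0,[(5,0)]⟩) .k 0 (⟨0,[]⟩,⟨0,[]⟩) .k .k) (.Q [0,0,0,0,0,0,-1,0,0,0,-1] (.p
  false [0,0,1] [] (⟨0,[(17,0)]⟩,⟨0,[(16,0)]⟩) .k 0 (⟨0,[]⟩,⟨0,[]⟩) .k .k) (.Q [0,0,-2,0,1,0,0,0,0,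
  -1] (.pp true [-1,1]) (.I [1,0,0,0,0,0,0,1] (.R ⟨0,false,false,true,[1,0,-1],[1,-1],[1,1],(⟨0,
  [(19,0)]⟩,⟨0,[(20,0)]⟩),(⟨0,[(24,0)]⟩,⟨0,[(25,0)]⟩),⟨0,[(8,0)]⟩,.k,.k,.k,.k,.k,.k,⟨false,0,⟨0,
  [(31,0)]⟩,⟨1,[(30,1),(1,0),(0,0)]⟩⟩,⟨true,0,⟨0,[(17,0)]⟩,⟨0,[(2,0)]⟩⟩,⟨false,0,⟨0,[(0,0)]⟩,⟨0,[(1,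
  0),(2,0),(0,0),(11,0),(11,0)]⟩⟩,⟨true,0,⟨0,[(6,0)]⟩,⟨0,[(5,0)]⟩⟩,⟨false,0,⟨0,[]⟩,⟨0,[]⟩⟩,⟨false,0,
  ⟨0,[]⟩,⟨0,[]⟩⟩,[.o ⟨false,0,⟨0,[(30,0)]⟩,⟨9,[(10,0),(0,0),(15,1),(3,9),(1,4)]⟩⟩,.a ⟨true,0,⟨0,[(4,
  0)]⟩,⟨0,[(31,0)]⟩⟩ ⟨true,0,⟨0,[]⟩,⟨1,[(17,0),(0,0)]⟩⟩ ⟨false,1,⟨0,[(1,0),(2,0),(12,0)]⟩,⟨0,[(0,0),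
  (4,0)]⟩⟩,.o ⟨false,0,⟨0,[(2,0)]⟩,⟨9,[(10,0),(0,0),(5,9),(9,1),(4,4)]⟩⟩,.o ⟨false,0,⟨0,[(18,0)]⟩,
  ⟨0,[(1,0),(15,0)]⟩⟩]⟩) (.R ⟨0,false,false,true,[1,0,-1],[1,-1],[0,1,1],(⟨0,[(19,0)]⟩,⟨0,[(20,
  0)]⟩),(⟨0,[(24,0)]⟩,⟨0,[(25,0)]⟩),⟨0,[(8,0)]⟩,.k,.k,.k,.k,.k,.k,⟨false,0,⟨1,[(17,0),(0,0),(12,
  1)]⟩,⟨0,[(1,0),(2,0)]⟩⟩,⟨true,0,⟨0,[(17,0)]⟩,⟨0,[(2,0)]⟩⟩,⟨false,0,⟨0,[(2,0),(12,0),(13,0)]⟩,⟨1,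
  [(0,1),(31,0),(0,0)]⟩⟩,⟨true,0,⟨0,[(6,0)]⟩,⟨0,[(5,0)]⟩⟩,⟨false,0,⟨0,[]⟩,⟨0,[]⟩⟩,⟨false,0,⟨0,[]⟩,
  ⟨0,[]⟩⟩,[.o ⟨false,0,⟨0,[(30,0)]⟩,⟨9,[(10,0),(0,0),(15,1),(3,9),(1,4)]⟩⟩,.a ⟨true,0,⟨0,[(4,0)]⟩,
  ⟨0,[(31,0)]⟩⟩ ⟨true,0,⟨1,[(17,0),(0,0)]⟩,⟨0,[]⟩⟩ ⟨false,1,⟨11,[(0,9),(2,9),(13,1),(9,1),(2,1),(1,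
  6),(0,0)]⟩,⟨0,[(2,0),(28,0)]⟩⟩,.o ⟨false,0,⟨0,[(2,0)]⟩,⟨9,[(10,0),(0,0),(5,9),(9,1),(4,4)]⟩⟩,.o
  ⟨false,0,⟨0,[(18,0)]⟩,⟨0,[(1,0),(15,0)]⟩⟩]⟩)) (.Q [0,0,0,2,0,0,0,0,0,-1] (.pp true [-1,1]) (.R ⟨2,
  true,false,true,[0,1],[1,-1],[1,0,1],(⟨0,[]⟩,⟨0,[]⟩),(⟨0,[(24,0)]⟩,⟨0,[(25,0)]⟩),⟨0,[]⟩,.k,.k,.k,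
  (.r 1 ⟨0,[(0,0),(0,0)]⟩ ⟨0,[(30,1),(1,0),(0,0)]⟩),.k,.k,⟨false,0,⟨1,[(0,0),(0,0),(31,0)]⟩,⟨0,[(30,
  0),(1,0)]⟩⟩,⟨true,(-1),⟨0,[(1,0)]⟩,⟨9,[(10,0),(0,0),(15,1),(4,4)]⟩⟩,⟨false,1,⟨0,[(30,0),(2,0)]⟩,
  ⟨0,[(31,0)]⟩⟩,⟨true,0,⟨0,[(4,0),(25,0)]⟩,⟨0,[(0,0)]⟩⟩,⟨true,0,⟨0,[]⟩,⟨0,[(35,0)]⟩⟩,⟨false,0,⟨0,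
  [(4,0)]⟩,⟨9,[(0,4),(9,2),(0,2),(15,0),(5,4)]⟩⟩,[]⟩) (.Q [0,1,0,0,0,0,1,1,0,-1,1] (.p true [0,0,1]
  [1] (⟨0,[(20,0)]⟩,⟨0,[(19,0)]⟩) .k 1 (⟨0,[]⟩,⟨0,[]⟩) .k .k) (.Q [0,0,-2,0,1,0,-1,-1,0,0,-1] (.p
  false [0,0,1] [] (⟨0,[(21,0)]⟩,⟨0,[(20,0)]⟩) .k 0 (⟨0,[]⟩,⟨0,[]⟩) .k .k) (.I [1,0,1,0,0,0,0,-1]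
  (.R ⟨0,false,false,false,[1,-1],[1,0,-1],[],(⟨0,[(27,0)]⟩,⟨0,[(28,0)]⟩),(⟨0,[(22,0)]⟩,⟨0,[(23,
  0)]⟩),⟨0,[(11,0),(0,0)]⟩,.k,.k,(.x 1 ⟨0,[(4,0),(6,0),(0,0)]⟩ ⟨4,[(13,0),(0,0),(12,9),(2,1),(4,
  4)]⟩),.k,.k,.k,⟨true,0,⟨0,[(2,0),(14,0),(14,0)]⟩,⟨0,[(0,0)]⟩⟩,⟨false,1,⟨5,[(10,0),(6,3),(12,0),(4,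
  3)]⟩,⟨0,[(20,0)]⟩⟩,⟨false,0,⟨0,[(32,0),(1,0)]⟩,⟨9,[(3,4),(9,2),(0,2),(15,0),(4,4)]⟩⟩,⟨true,0,⟨0,
  [(8,0)]⟩,⟨0,[(9,0)]⟩⟩,⟨false,0,⟨0,[]⟩,⟨0,[]⟩⟩,⟨false,0,⟨0,[]⟩,⟨0,[]⟩⟩,[.e ⟨false,1,⟨1,[(13,0),(0,
  0),(20,0)]⟩,⟨0,[]⟩⟩ ⟨false,1,⟨0,[(1,0)]⟩,⟨1,[(2,0),(1,0),(13,0),(17,0)]⟩⟩,.o ⟨false,1,⟨0,[(19,0),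
  (16,0)]⟩,⟨0,[(2,0)]⟩⟩,.o ⟨false,0,⟨1,[(20,0),(0,0)]⟩,⟨9,[(13,0),(0,0),(15,1),(4,4)]⟩⟩,.a ⟨true,
  (-1),⟨0,[(4,0)]⟩,⟨0,[(35,0)]⟩⟩ ⟨false,1,⟨1,[(35,0),(0,0)]⟩,⟨1,[(20,0),(0,0)]⟩⟩ ⟨true,1,⟨0,[(1,
  0)]⟩,⟨0,[(2,0),(1,0)]⟩⟩]⟩) (.I [0,0,0,0,1,0,0,0,-1] (.I [0,0,0,-1,0,1] (.C [(0,0),(1,0),(7,0),(11,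
  0),(3,0)]) (.C [(0,1),(4,0),(7,0),(0,0)])) (.C [(0,0),(13,0),(2,0)]))) (.I [0,0,0,0,0,0,-1] (.I
  [0,0,0,0,1,0,0,0,-1] (.I [0,0,0,-1,0,1] (.C [(0,0),(2,0),(6,0),(15,0),(10,0)]) (.C [(0,1),(4,0),
  (7,0),(0,0)])) (.C [(0,0),(13,0),(2,0)])) (.C [(0,0),(4,0),(5,0),(15,0)]))) (.Q [0,0,1,0,-1,0,-1,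
  0,0,1,-1] (.p false [0,0,1] [1] (⟨0,[(21,0)]⟩,⟨0,[(20,0)]⟩) .k 1 (⟨0,[]⟩,⟨0,[]⟩) .k .k) (.Q [0,1,
  0,1,0,0,1,1,0,-1,1] (.p true [0,0,1] [1] (⟨0,[(22,0)]⟩,⟨0,[(21,0)]⟩) .k 1 (⟨0,[]⟩,⟨0,[]⟩) .k .k)
  (.I [0,0,-1,0,1,0,0,-1] (.R ⟨2,true,false,false,[0,1],[1,0,-1],[1,0,1],(⟨0,[]⟩,⟨0,[]⟩),(⟨0,[(23,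
  0)]⟩,⟨0,[(24,0)]⟩),⟨0,[]⟩,.k,.k,.k,.k,.k,.k,⟨false,0,⟨7,[(1,3),(0,6),(4,3),(4,2),(0,2),(4,0),(6,
  5),(5,0),(4,2),(0,1)]⟩,⟨0,[(0,0)]⟩⟩,⟨true,(-1),⟨0,[(2,0)]⟩,⟨9,[(0,3),(0,1),(5,1),(13,5),(9,1),(4,
  0),(0,0)]⟩⟩,⟨false,1,⟨9,[(4,4),(9,2),(0,2),(15,0),(5,4)]⟩,⟨0,[(35,0)]⟩⟩,⟨true,0,⟨1,[(3,0),(0,0),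
  (15,0)]⟩,⟨0,[(1,0)]⟩⟩,⟨true,0,⟨0,[]⟩,⟨0,[(39,0)]⟩⟩,⟨false,0,⟨0,[(3,0)]⟩,⟨9,[(14,0),(0,0),(3,9),
  (11,1),(5,4)]⟩⟩,[]⟩) (.I [0,0,0,-1,0,1] (.C [(0,0),(0,0),(8,0),(11,0),(3,0),(10,0)]) (.C [(0,1),
  (4,0),(7,0),(0,0)]))) (.I [1,-1,1,1,0,0,0,-1] (.Q [0,0,0,1,1,0,1,1,0,-2,1] (.p true [-1,1,1] [1]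
  (⟨0,[(12,0)]⟩,⟨0,[(23,0),(4,0)]⟩) .k 1 (⟨0,[]⟩,⟨0,[]⟩) .k .k) (.I [1,0,2,2,-1] (.R ⟨0,false,false,
  false,[1,-1],[2,-1,-1],[0,1,-1,-2],(⟨0,[(30,0)]⟩,⟨0,[(31,0)]⟩),(⟨0,[(25,0),(4,0)]⟩,⟨0,[(14,0)]⟩),
  ⟨0,[(14,0),(0,0)]⟩,.k,.k,(.x 1 ⟨0,[(7,0),(6,0),(0,0)]⟩ ⟨4,[(16,0),(0,0),(12,9),(2,1),(4,4)]⟩),.k,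
  .k,.k,⟨true,0,⟨0,[(8,0),(3,0)]⟩,⟨0,[(2,0)]⟩⟩,⟨false,0,⟨0,[(20,0)]⟩,⟨9,[(16,0),(0,0),(5,9),(9,1),
  (4,4)]⟩⟩,⟨true,0,⟨0,[(36,0)]⟩,⟨0,[(37,0)]⟩⟩,⟨false,0,⟨0,[(5,0)]⟩,⟨3,[(1,2),(4,0),(2,0),(6,0),(0,
  0)]⟩⟩,⟨false,0,⟨0,[]⟩,⟨0,[]⟩⟩,⟨false,0,⟨0,[]⟩,⟨0,[]⟩⟩,[.o ⟨false,0,⟨1,[(5,0),(0,0),(15,0)]⟩,⟨0,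
  [(1,0)]⟩⟩,.o ⟨false,0,⟨0,[(3,0)]⟩,⟨0,[(1,0),(39,0)]⟩⟩,.o ⟨false,0,⟨1,[(23,0),(0,0)]⟩,⟨9,[(16,0),
  (0,0),(15,1),(4,4)]⟩⟩,.a ⟨true,(-1),⟨0,[(7,0)]⟩,⟨0,[(38,0)]⟩⟩ ⟨true,1,⟨1,[(6,0),(7,0),(0,0),(11,
  1),(8,1),(1,1)]⟩,⟨0,[(0,0)]⟩⟩ ⟨false,1,⟨0,[(3,0),(34,0)]⟩,⟨0,[(1,0),(5,0)]⟩⟩]⟩) (.I [0,0,0,0,1,0,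
  0,0,-1] (.I [0,0,0,-1,0,1] (.I [0,0,1,0,0,1,1] (.C [(0,0),(2,0),(3,0),(9,0),(12,1),(9,1)]) (.C
  [(0,0),(17,0),(7,0)])) (.C [(0,1),(1,0),(3,0),(9,0),(0,0),(7,0)])) (.C [(0,0),(16,0),(2,0)])))
  (.I [0,0,0,-1,0,1] (.I [0,0,0,0,1,0,0,0,-1] (.I [0,0,1,0,0,1,1] (.I [0,0,1,0,-1,1,-1] (.I [0,1,0,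
  -1,0,1,1,1] (.C [(0,1),(4,2),(7,0),(4,1),(12,3),(5,0),(3,5),(1,0)]) (.C [(0,0),(15,0),(2,0)]))
  (.C [(0,0),(6,0),(9,0)])) (.C [(0,0),(16,0),(7,0)])) (.C [(0,0),(16,0),(2,0)])) (.C [(0,3),(0,1),
  (7,1),(4,0),(0,0),(12,1),(4,0)]))) (.I [0,0,0,-1,0,1] (.I [0,0,0,0,1,0,0,0,-1] (.I [0,0,1,1,0,0,0,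
  -1] (.I [0,0,1,0,0,1,1] (.C [(0,0),(3,0),(0,0),(10,0),(12,1),(9,1)]) (.C [(0,0),(16,0),(7,0)]))
  (.C [(0,0),(11,0),(11,0)])) (.C [(0,0),(15,0),(2,0)])) (.C [(0,1),(0,0),(0,0),(10,0),(0,0),(7,
  0)])))) (.R ⟨0,false,false,true,[1,0,-1],[1,-1],[0,1,1],(⟨0,[(21,0)]⟩,⟨0,[(22,0)]⟩),(⟨0,[(26,0)]⟩,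
  ⟨0,[(27,0)]⟩),⟨0,[(10,0)]⟩,.k,.k,.k,.k,.k,.k,⟨false,0,⟨1,[(19,0),(0,0),(12,1)]⟩,⟨1,[(2,0),(7,0),
  (0,0),(11,1),(10,1)]⟩⟩,⟨true,0,⟨0,[(19,0)]⟩,⟨0,[(4,0)]⟩⟩,⟨false,0,⟨0,[(4,0),(12,0),(13,0)]⟩,⟨0,
  [(0,0),(0,0)]⟩⟩,⟨true,0,⟨0,[(8,0)]⟩,⟨0,[(7,0)]⟩⟩,⟨false,0,⟨0,[]⟩,⟨0,[]⟩⟩,⟨false,0,⟨0,[]⟩,⟨0,[]⟩⟩,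
  [.o ⟨false,0,⟨0,[(32,0)]⟩,⟨9,[(12,0),(0,0),(15,1),(3,9),(1,4)]⟩⟩,.a ⟨true,0,⟨0,[(6,0)]⟩,⟨0,[(33,
  0)]⟩⟩ ⟨true,0,⟨1,[(19,0),(0,0)]⟩,⟨0,[]⟩⟩ ⟨false,1,⟨0,[(0,0),(5,0)]⟩,⟨0,[(4,0),(28,0)]⟩⟩,.o ⟨false,
  0,⟨0,[(4,0)]⟩,⟨20,[(0,10),(11,5),(0,5),(5,9),(9,1),(6,0)]⟩⟩,.o ⟨false,0,⟨0,[(20,0)]⟩,⟨0,[(0,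
  0)]⟩⟩]⟩))))) (.Q [0,0,0,1,0,0,-1,0,0,0,-1] (.p false [0,0,1] [] (⟨0,[(18,0)]⟩,⟨0,[(17,0)]⟩) .k 0
  (⟨0,[]⟩,⟨0,[]⟩) .k .k) (.R ⟨0,false,false,false,[0,0,1],[0,1],[1,0,1,1],(⟨0,[(19,0)]⟩,⟨0,[(18,
  0)]⟩),(⟨0,[(24,0)]⟩,⟨0,[(23,0)]⟩),⟨0,[(8,0)]⟩,.k,.k,.k,.k,.k,.k,⟨true,0,⟨0,[]⟩,⟨1,[(16,0),(0,
  0)]⟩⟩,⟨false,1,⟨5,[(6,0),(6,3),(12,0),(4,3)]⟩,⟨0,[(16,0)]⟩⟩,⟨false,0,⟨0,[(1,0),(2,0),(23,0)]⟩,⟨2,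
  [(2,2),(3,0),(6,0),(12,0),(4,0)]⟩⟩,⟨true,0,⟨0,[(4,0)]⟩,⟨0,[(5,0)]⟩⟩,⟨false,0,⟨0,[]⟩,⟨0,[]⟩⟩,
  ⟨false,0,⟨0,[]⟩,⟨0,[]⟩⟩,[.a ⟨true,0,⟨0,[(30,0)]⟩,⟨0,[(3,0)]⟩⟩ ⟨false,0,⟨0,[(30,0)]⟩,⟨1,[(29,1),(1,
  0),(0,0)]⟩⟩ ⟨true,0,⟨0,[(0,0)]⟩,⟨0,[(1,0),(26,0),(0,0)]⟩⟩,.o ⟨false,1,⟨9,[(9,0),(0,0),(15,1),(3,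
  9),(1,4)]⟩,⟨0,[(29,0)]⟩⟩,.a ⟨true,0,⟨0,[(1,0)]⟩,⟨1,[(2,0),(1,0),(1,0)]⟩⟩ ⟨false,0,⟨0,[(28,0),(1,
  0)]⟩,⟨1,[(29,1),(1,0),(0,0)]⟩⟩ ⟨true,0,⟨0,[(0,0)]⟩,⟨0,[(1,0),(27,0)]⟩⟩,.a ⟨true,0,⟨0,[(16,0)]⟩,⟨0,
  [(13,0)]⟩⟩ ⟨true,0,⟨0,[(30,0)]⟩,⟨0,[(29,0)]⟩⟩ ⟨false,1,⟨1,[(0,1),(30,0),(0,0)]⟩,⟨0,[(1,0),(26,0),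
  (0,0)]⟩⟩]⟩) (.I [0,0,0,0,0,0,0,-1] (.I [0,0,0,0,1,0,0,0,-1] (.I [0,0,0,-1,0,1,1] (.C [(0,0),(9,0),
  (5,0),(6,1),(9,0),(2,0)]) (.C [(0,0),(2,0),(7,0)])) (.C [(0,0),(10,0),(2,0)])) (.C [(0,0),(0,0),
  (3,0)])))) (.I [1,-1,-1,0,1,0,0,1] (.R ⟨0,false,false,true,[0,0,1],[1,-1,1],[1,0,0,0,0,0,0,1],(⟨0,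
  [(18,0)]⟩,⟨0,[(17,0)]⟩),(⟨0,[(18,0),(3,0)]⟩,⟨0,[(7,0)]⟩),⟨0,[(7,0)]⟩,.k,.k,.k,.k,.k,.k,⟨true,0,⟨0,
  [(27,0),(1,0)]⟩,⟨0,[(28,0)]⟩⟩,⟨false,0,⟨0,[(17,0),(0,0)]⟩,⟨9,[(8,0),(0,0),(15,1),(4,4)]⟩⟩,⟨true,0,
  ⟨0,[]⟩,⟨0,[(33,0)]⟩⟩,⟨false,0,⟨0,[(2,0)]⟩,⟨9,[(8,0),(0,0),(15,1),(3,9),(1,4)]⟩⟩,⟨false,0,⟨0,[]⟩,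
  ⟨0,[]⟩⟩,⟨false,0,⟨0,[]⟩,⟨0,[]⟩⟩,[.o ⟨false,0,⟨0,[(4,0)]⟩,⟨9,[(3,9),(4,0),(0,0),(15,1),(5,4)]⟩⟩,.o
  ⟨false,1,⟨1,[(4,1),(3,0),(0,0),(21,0)]⟩,⟨0,[(1,0)]⟩⟩,.o ⟨false,1,⟨9,[(8,0),(0,0),(5,9),(9,1),(4,
  4)]⟩,⟨0,[(1,0),(2,0),(7,0),(14,0)]⟩⟩,.a ⟨true,0,⟨0,[(15,0)]⟩,⟨0,[(12,0)]⟩⟩ ⟨false,1,⟨0,[(0,0)]⟩,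
  ⟨0,[(1,0),(0,0),(12,0)]⟩⟩ ⟨true,0,⟨0,[(4,0),(7,0)]⟩,⟨0,[(1,0),(13,0)]⟩⟩]⟩) (.I [0,0,0,0,1,0,0,0,
  -1] (.I [0,0,-1,0,0,1,-1] (.C [(0,0),(1,0),(3,0),(2,0),(11,1),(9,0),(1,0)]) (.C [(0,0),(7,0),(5,
  0)])) (.C [(0,0),(8,0),(2,0)])))) (.I [1,0,1,0,0,0,0,-1] (.R ⟨0,false,false,false,[0,0,1],[0,1],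
  [1,1,1],(⟨0,[(17,0)]⟩,⟨0,[(16,0)]⟩),(⟨0,[(22,0)]⟩,⟨0,[(21,0)]⟩),⟨0,[(6,0)]⟩,.k,.k,.k,.k,.k,.k,
  ⟨true,0,⟨0,[(27,0)]⟩,⟨0,[(26,0),(1,0)]⟩⟩,⟨false,1,⟨5,[(4,0),(6,3),(12,0),(4,3)]⟩,⟨0,[(14,0)]⟩⟩,
  ⟨false,0,⟨0,[(0,0)]⟩,⟨0,[(1,0),(1,0),(7,0),(18,0)]⟩⟩,⟨true,0,⟨0,[(2,0)]⟩,⟨0,[(3,0)]⟩⟩,⟨false,0,⟨0,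
  []⟩,⟨0,[]⟩⟩,⟨false,0,⟨0,[]⟩,⟨0,[]⟩⟩,[.o ⟨false,0,⟨0,[(1,0)]⟩,⟨1,[(7,0),(0,0),(18,1),(2,0)]⟩⟩,.o
  ⟨false,1,⟨9,[(7,0),(0,0),(15,1),(3,9),(1,4)]⟩,⟨0,[(27,0)]⟩⟩,.o ⟨false,1,⟨9,[(7,0),(0,0),(5,9),(9,
  1),(4,4)]⟩,⟨5,[(1,3),(2,0),(0,0),(0,0),(4,3),(6,1),(7,3),(0,3)]⟩⟩,.a ⟨true,0,⟨0,[(14,0)]⟩,⟨0,[(11,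
  0)]⟩⟩ ⟨false,0,⟨0,[]⟩,⟨1,[(7,0),(0,0),(21,0)]⟩⟩ ⟨true,0,⟨0,[(1,0),(9,0)]⟩,⟨0,[(0,0),(2,0)]⟩⟩]⟩)
  (.R ⟨2,true,false,true,[0,1],[0,0,1],[0,0,1,1],(⟨0,[]⟩,⟨0,[]⟩),(⟨0,[(17,0)]⟩,⟨0,[(16,0)]⟩),⟨0,[]⟩,
  .k,.k,.k,.k,.k,.k,⟨false,1,⟨1,[(2,1),(11,1),(14,0),(0,0)]⟩,⟨0,[(0,0),(26,0)]⟩⟩,⟨true,0,⟨0,[(14,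
  0)]⟩,⟨5,[(0,3),(3,0),(0,0),(0,0),(6,3),(4,1),(7,3)]⟩⟩,⟨false,1,⟨1,[(7,0),(0,0),(21,0)]⟩,⟨0,[]⟩⟩,
  ⟨true,0,⟨0,[(3,0)]⟩,⟨0,[(2,0)]⟩⟩,⟨true,0,⟨0,[(28,0)]⟩,⟨0,[(27,0)]⟩⟩,⟨false,0,⟨0,[(0,0),(13,0)]⟩,
  ⟨0,[(13,0),(16,0)]⟩⟩,[]⟩)))

theorem ok1 : chk K t1 l1 = true := by decide +kernel

noncomputable def t2 : Tre :=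
  (.Q [0,0,-1,1,0,0,-1,0,0,0,-1] (.p false [0,0,1] [] (⟨0,[(15,0)]⟩,⟨0,[(14,0)]⟩) .k 0 (⟨0,[]⟩,⟨0,
  []⟩) .k .k) (.R ⟨0,false,false,false,[0,0,1],[0,1],[1,1,1],(⟨0,[(16,0)]⟩,⟨0,[(15,0)]⟩),(⟨0,[(21,
  0)]⟩,⟨0,[(20,0)]⟩),⟨0,[(5,0)]⟩,.k,.k,.k,.k,.k,.k,⟨true,0,⟨0,[(26,0)]⟩,⟨0,[(25,0),(1,0)]⟩⟩,⟨false,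
  1,⟨5,[(3,0),(6,3),(12,0),(4,3)]⟩,⟨0,[(13,0)]⟩⟩,⟨true,0,⟨0,[(12,0),(0,0)]⟩,⟨0,[(0,0),(0,0)]⟩⟩,
  ⟨false,1,⟨0,[(12,0),(14,0),(1,0)]⟩,⟨0,[(1,0)]⟩⟩,⟨false,0,⟨0,[]⟩,⟨0,[]⟩⟩,⟨false,0,⟨0,[]⟩,⟨0,[]⟩⟩,
  [.e ⟨false,0,⟨0,[(31,0)]⟩,⟨1,[(28,0),(0,0)]⟩⟩ ⟨false,0,⟨0,[(0,0)]⟩,⟨1,[(13,1),(12,1),(1,0),(0,
  0)]⟩⟩,.o ⟨false,1,⟨9,[(6,0),(0,0),(15,1),(3,9),(1,4)]⟩,⟨0,[(26,0)]⟩⟩,.o ⟨false,1,⟨9,[(6,0),(0,0),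
  (5,9),(9,1),(4,4)]⟩,⟨5,[(0,3),(2,0),(0,0),(0,0),(11,1),(7,3),(0,3)]⟩⟩,.a ⟨true,0,⟨0,[(13,0)]⟩,⟨0,
  [(10,0)]⟩⟩ ⟨false,0,⟨0,[]⟩,⟨1,[(6,0),(0,0),(21,0)]⟩⟩ ⟨true,0,⟨0,[(0,0)]⟩,⟨0,[(13,0),(12,0)]⟩⟩]⟩)
  (.Q [0,0,0,0,0,0,-1,0,0,-1,-1] (.p false [1,-1,1] [] (⟨0,[(16,0),(3,0)]⟩,⟨0,[(5,0)]⟩) .k 0 (⟨0,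
  []⟩,⟨0,[]⟩) .k .k) (.I [1,0,-1,0,1,0,0,-1] (.R ⟨0,false,false,false,[0,1,-1],[0,1],[0,1,1],(⟨0,
  [(7,0)]⟩,⟨0,[(18,0),(3,0)]⟩),(⟨0,[(23,0)]⟩,⟨0,[(22,0)]⟩),⟨0,[(18,0)]⟩,.k,.k,.k,.k,.k,.k,⟨true,0,
  ⟨0,[(28,0)]⟩,⟨0,[(27,0),(1,0)]⟩⟩,⟨false,1,⟨0,[(15,0),(14,0)]⟩,⟨2,[(1,0),(3,0)]⟩⟩,⟨false,0,⟨2,[(1,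
  0),(1,2),(1,0)]⟩,⟨0,[(0,0),(26,0),(1,0)]⟩⟩,⟨true,0,⟨0,[(3,0),(25,0)]⟩,⟨0,[(14,0)]⟩⟩,⟨false,0,⟨0,
  []⟩,⟨0,[]⟩⟩,⟨false,0,⟨0,[]⟩,⟨0,[]⟩⟩,[.a ⟨true,0,⟨0,[(29,0)]⟩,⟨0,[(2,0),(9,0)]⟩⟩ ⟨false,0,⟨0,[(33,
  0)]⟩,⟨1,[(30,0),(0,0)]⟩⟩ ⟨true,0,⟨0,[(15,0),(13,0)]⟩,⟨0,[(1,0),(0,0),(9,0)]⟩⟩,.o ⟨false,1,⟨9,[(8,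
  0),(0,0),(15,1),(3,9),(1,4)]⟩,⟨0,[(28,0)]⟩⟩,.o ⟨false,1,⟨11,[(1,1),(3,4),(19,2),(4,5)]⟩,⟨0,[(15,
  0)]⟩⟩,.o ⟨false,0,⟨0,[(1,0)]⟩,⟨3,[(0,1),(7,0),(0,0),(3,1),(1,1),(15,0)]⟩⟩]⟩) (.R ⟨0,false,false,
  false,[0,0,1],[0,1],[1,1,1],(⟨0,[(18,0)]⟩,⟨0,[(17,0)]⟩),(⟨0,[(23,0)]⟩,⟨0,[(22,0)]⟩),⟨0,[(7,0)]⟩,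
  .k,.k,.k,.k,.k,.k,⟨true,0,⟨0,[(28,0)]⟩,⟨0,[(27,0),(1,0)]⟩⟩,⟨false,1,⟨2,[(1,0),(3,0),(24,2)]⟩,⟨0,
  [(15,0)]⟩⟩,⟨true,0,⟨0,[(14,0),(0,0)]⟩,⟨0,[(0,0),(29,0)]⟩⟩,⟨false,1,⟨0,[(14,0),(14,0),(1,0)]⟩,⟨0,
  [(3,0)]⟩⟩,⟨false,0,⟨0,[]⟩,⟨0,[]⟩⟩,⟨false,0,⟨0,[]⟩,⟨0,[]⟩⟩,[.a ⟨true,0,⟨0,[(29,0)]⟩,⟨0,[(2,0),(9,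
  0)]⟩⟩ ⟨false,0,⟨0,[(33,0)]⟩,⟨1,[(30,0),(0,0)]⟩⟩ ⟨true,0,⟨2,[(1,0),(3,0),(23,2)]⟩,⟨0,[(2,0)]⟩⟩,.o
  ⟨false,1,⟨9,[(8,0),(0,0),(15,1),(3,9),(1,4)]⟩,⟨0,[(28,0)]⟩⟩,.o ⟨false,1,⟨9,[(8,0),(0,0),(5,9),(9,
  1),(4,4)]⟩,⟨2,[(1,0),(3,0)]⟩⟩,.e ⟨false,0,⟨0,[]⟩,⟨1,[(8,0),(0,0),(21,0)]⟩⟩ ⟨false,1,⟨5,[(1,1),(3,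
  1),(23,5),(0,2),(0,2)]⟩,⟨0,[(2,0)]⟩⟩]⟩)) (.I [1,0,-1,0,0,0,0,1] (.I [0,-1,-1,-1,1] (.Q [0,-1,0,1,
  1,0,-1,-1,0,-1,-1] (.p false [1,-1,1] [] (⟨0,[(19,0),(3,0)]⟩,⟨0,[(8,0)]⟩) .k 0 (⟨0,[]⟩,⟨0,[]⟩) .k
  .k) (.R ⟨0,false,false,true,[0,0,1],[1,-1,1],[1,0,0,0,0,0,0,1],(⟨0,[(20,0)]⟩,⟨0,[(19,0)]⟩),(⟨0,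
  [(20,0),(3,0)]⟩,⟨0,[(9,0)]⟩),⟨0,[(9,0)]⟩,.k,.k,.k,.k,.k,.k,⟨true,0,⟨0,[(29,0),(1,0)]⟩,⟨0,[(30,
  0)]⟩⟩,⟨false,0,⟨2,[(3,1),(3,0)]⟩,⟨9,[(10,0),(0,0),(15,1),(4,4)]⟩⟩,⟨true,0,⟨0,[]⟩,⟨0,[(35,0)]⟩⟩,
  ⟨false,0,⟨0,[(4,0),(9,0)]⟩,⟨5,[(0,0),(14,0),(11,0),(3,4),(1,2)]⟩⟩,⟨false,0,⟨0,[]⟩,⟨0,[]⟩⟩,⟨false,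
  0,⟨0,[]⟩,⟨0,[]⟩⟩,[.o ⟨false,0,⟨0,[(6,0)]⟩,⟨0,[(0,0)]⟩⟩,.o ⟨false,0,⟨0,[(5,0)]⟩,⟨0,[(0,0),(34,
  0)]⟩⟩,.o ⟨false,1,⟨24,[(3,24),(6,2),(0,2),(15,9),(5,1),(1,3)]⟩,⟨0,[(2,0),(13,0),(12,0)]⟩⟩,.a
  ⟨true,0,⟨0,[(17,0)]⟩,⟨0,[(14,0)]⟩⟩ ⟨true,0,⟨0,[(2,0)]⟩,⟨0,[(16,0),(0,0)]⟩⟩ ⟨false,0,⟨0,[(5,0),(8,
  0)]⟩,⟨0,[(0,0),(16,0)]⟩⟩]⟩) (.N [0,2] 1 ⟨0,[(0,0),(7,0),(0,0),(6,0),(4,1),(7,1),(1,2)]⟩ ⟨2,[(0,1),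
  (0,3),(6,1),(0,1),(6,1),(4,3),(10,0)]⟩ (.x (-2) ⟨4,[(10,0),(0,0),(12,9),(2,1),(4,4)]⟩ ⟨0,[(0,0),
  (7,0),(0,0),(6,0),(12,1),(1,0)]⟩))) (.Q [0,0,-1,0,1,0,1,0,0,-1,1] (.p true [0,0,1] [1] (⟨0,[(19,
  0)]⟩,⟨0,[(18,0)]⟩) .k 1 (⟨0,[]⟩,⟨0,[]⟩) .k .k) (.R ⟨0,false,false,true,[1,0,-1],[1,-1],[0,1,0,-1,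
  0,0,0,-1],(⟨0,[(19,0)]⟩,⟨0,[(20,0)]⟩),(⟨0,[(24,0)]⟩,⟨0,[(25,0)]⟩),⟨0,[(8,0)]⟩,.k,.k,.k,.k,.k,.k,
  ⟨false,1,⟨5,[(0,1),(2,1),(6,0),(0,0),(4,5),(0,1),(15,2)]⟩,⟨0,[(2,0)]⟩⟩,⟨true,0,⟨0,[(17,0)]⟩,⟨0,
  [(2,0),(13,0),(12,0)]⟩⟩,⟨true,0,⟨0,[(30,0)]⟩,⟨0,[(31,0)]⟩⟩,⟨false,0,⟨0,[(5,0)]⟩,⟨0,[(16,0),(14,0),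
  (1,0)]⟩⟩,⟨false,0,⟨0,[]⟩,⟨0,[]⟩⟩,⟨false,0,⟨0,[]⟩,⟨0,[]⟩⟩,[.o ⟨false,0,⟨0,[(30,0)]⟩,⟨9,[(10,0),(0,
  0),(15,1),(3,9),(1,4)]⟩⟩,.a ⟨true,0,⟨0,[(4,0),(9,0)]⟩,⟨0,[(31,0)]⟩⟩ ⟨true,1,⟨1,[(4,1),(11,1),(15,
  0),(0,0)]⟩,⟨0,[(1,0),(0,0),(26,0)]⟩⟩ ⟨false,1,⟨0,[(4,0),(27,0)]⟩,⟨5,[(1,3),(5,0),(6,3),(12,0),(3,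
  1),(1,1)]⟩⟩,.o ⟨false,0,⟨0,[(2,0),(13,0),(12,0)]⟩,⟨20,[(0,10),(9,5),(0,5),(5,9),(9,1),(6,0)]⟩⟩,.o
  ⟨false,0,⟨0,[(18,0)]⟩,⟨0,[(0,0)]⟩⟩]⟩) (.I [1,0,-1,-1,1,0,0,-1] (.N [0,1,1] 1 ⟨0,[(2,0),(0,0),(26,
  0)]⟩ ⟨0,[(0,0)]⟩ .k) (.I [0,0,-1,0,0,0,0,1] (.R ⟨0,false,false,false,[0,0,1],[0,1],[1,1,1],(⟨0,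
  [(22,0)]⟩,⟨0,[(21,0)]⟩),(⟨0,[(27,0)]⟩,⟨0,[(26,0)]⟩),⟨0,[(11,0)]⟩,.k,.k,.k,.k,.k,.k,⟨true,0,⟨0,
  [(32,0)]⟩,⟨0,[(3,0),(31,0)]⟩⟩,⟨false,1,⟨5,[(9,0),(6,3),(12,0),(4,3)]⟩,⟨0,[(19,0)]⟩⟩,⟨true,0,⟨0,
  [(18,0),(0,0)]⟩,⟨0,[(0,0)]⟩⟩,⟨false,1,⟨0,[(18,0),(14,0),(1,0)]⟩,⟨0,[(7,0)]⟩⟩,⟨false,0,⟨0,[]⟩,⟨0,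
  []⟩⟩,⟨false,0,⟨0,[]⟩,⟨0,[]⟩⟩,[.a ⟨true,0,⟨0,[(33,0)]⟩,⟨0,[(6,0),(9,0)]⟩⟩ ⟨false,0,⟨0,[(37,0)]⟩,⟨1,
  [(34,0),(0,0)]⟩⟩ ⟨true,0,⟨5,[(2,1),(6,0),(6,1),(12,0),(3,5)]⟩,⟨0,[(6,0)]⟩⟩,.o ⟨false,1,⟨9,[(12,0),
  (0,0),(15,1),(3,9),(1,4)]⟩,⟨0,[(32,0)]⟩⟩,.o ⟨false,1,⟨24,[(5,24),(6,2),(0,2),(15,9),(5,1),(1,3)]⟩,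
  ⟨19,[(0,1),(1,6),(6,2),(6,4),(1,1),(10,2),(5,0)]⟩⟩,.e ⟨false,0,⟨0,[]⟩,⟨1,[(12,0),(0,0),(21,0)]⟩⟩
  ⟨false,1,⟨5,[(9,0),(6,3),(12,0),(3,5),(0,0),(0,2)]⟩,⟨0,[(6,0)]⟩⟩]⟩) (.I [0,0,0,0,1,0,0,0,-1] (.I
  [0,0,0,0,0,3,1] (.I [0,0,1,-1,0,1,1] (.C [(0,0),(2,0),(0,0),(0,0),(7,0),(12,1),(10,1)]) (.C [(0,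
  0),(8,0),(4,0)])) (.C [(0,0),(6,0),(4,0),(0,1)])) (.C [(0,0),(12,0),(2,0)])))))) (.I [0,0,-2,-2,
  1] (.I [0,0,1,1,0,0,0,-2] (.Q [0,0,-2,0,1,0,0,0,0,-1] (.pp true [-1,1]) (.R ⟨0,false,false,true,
  [1,-1],[1,0,-1],[1,1],(⟨0,[(25,0)]⟩,⟨0,[(26,0)]⟩),(⟨0,[(20,0)]⟩,⟨0,[(21,0)]⟩),⟨0,[(9,0),(0,0)]⟩,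
  .k,.k,(.r (-1) ⟨0,[(2,0)]⟩ ⟨0,[(18,0),(0,0),(12,1)]⟩),.k,.k,.k,⟨true,0,⟨1,[(6,1),(1,0),(0,0),(0,
  0),(11,1),(9,1)]⟩,⟨0,[(3,0)]⟩⟩,⟨false,1,⟨1,[(0,0),(7,0),(24,0)]⟩,⟨0,[(18,0)]⟩⟩,⟨false,0,⟨1,[(18,
  0),(0,0),(12,1)]⟩,⟨1,[(2,0),(31,0)]⟩⟩,⟨true,0,⟨0,[(17,0),(14,0)]⟩,⟨0,[(6,0)]⟩⟩,⟨false,0,⟨0,[]⟩,⟨0,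
  []⟩⟩,⟨false,0,⟨0,[]⟩,⟨0,[]⟩⟩,[.o ⟨false,0,⟨0,[(17,0)]⟩,⟨4,[(6,3),(9,0),(11,0),(3,3),(1,2)]⟩⟩,.a
  ⟨true,0,⟨0,[(3,0),(11,0)]⟩,⟨0,[(6,0),(25,0)]⟩⟩ ⟨true,0,⟨0,[]⟩,⟨1,[(18,0),(0,0)]⟩⟩ ⟨false,1,⟨3,[(0,
  2),(0,1),(0,0),(5,0),(6,1)]⟩,⟨0,[(16,0),(13,0)]⟩⟩,.o ⟨false,0,⟨1,[(18,0),(0,0)]⟩,⟨9,[(11,0),(0,0),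
  (15,1),(4,4)]⟩⟩,.o ⟨false,0,⟨0,[(18,0),(0,0)]⟩,⟨0,[(0,0)]⟩⟩]⟩) (.I [0,0,0,0,1,0,0,0,-1] (.I [0,0,
  -1,0,0,1,-1] (.I [0,0,0,-1,0,1,1,1] (.C [(0,7),(0,7),(1,4),(0,3),(0,2),(19,15),(5,0),(3,9)]) (.C
  [(0,0),(8,0),(3,0)])) (.C [(0,0),(10,0),(5,0)])) (.C [(0,0),(11,0),(2,0)]))) (.Q [0,0,-2,0,1,0,1,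
  0,0,-1,1] (.p true [0,0,1] [1] (⟨0,[(20,0)]⟩,⟨0,[(19,0)]⟩) .k 1 (⟨0,[]⟩,⟨0,[]⟩) .k .k) (.Q [0,0,0,
  0,0,0,-1,0,0,0,-1] (.p false [0,0,1] [] (⟨0,[(21,0)]⟩,⟨0,[(20,0)]⟩) .k 0 (⟨0,[]⟩,⟨0,[]⟩) .k .k)
  (.R ⟨0,false,false,false,[1,0,-1],[1,-1],[0,1],(⟨0,[(21,0)]⟩,⟨0,[(22,0)]⟩),(⟨0,[(26,0)]⟩,⟨0,[(27,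
  0)]⟩),⟨0,[(10,0)]⟩,.k,.k,.k,.k,.k,.k,⟨false,0,⟨0,[(33,0),(3,0)]⟩,⟨1,[(3,0),(31,0)]⟩⟩,⟨true,0,⟨0,
  [(19,0)]⟩,⟨0,[(0,0)]⟩⟩,⟨false,0,⟨4,[(2,1),(14,0),(2,0),(10,0),(1,1)]⟩,⟨1,[(4,1),(29,0),(0,0)]⟩⟩,
  ⟨true,0,⟨0,[(7,0)]⟩,⟨0,[(18,0),(14,0)]⟩⟩,⟨false,0,⟨0,[]⟩,⟨0,[]⟩⟩,⟨false,0,⟨0,[]⟩,⟨0,[]⟩⟩,[.a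
  ⟨true,0,⟨0,[(6,0),(9,0)]⟩,⟨0,[(33,0)]⟩⟩ ⟨true,0,⟨0,[(37,0)]⟩,⟨0,[(31,0)]⟩⟩ ⟨false,1,⟨9,[(3,4),(1,
  9),(6,0),(0,0),(15,1)]⟩,⟨0,[(0,0),(32,0)]⟩⟩,.e ⟨false,1,⟨1,[(12,0),(0,0),(20,0)]⟩,⟨0,[]⟩⟩ ⟨false,
  1,⟨1,[(1,0),(1,0),(1,0),(25,1)]⟩,⟨1,[(0,0),(19,0),(9,0),(2,1)]⟩⟩,.o ⟨false,0,⟨0,[(0,0)]⟩,⟨24,[(5,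
  24),(6,2),(0,2),(15,9),(5,1),(1,3)]⟩⟩,.o ⟨false,0,⟨0,[(20,0)]⟩,⟨33,[(1,13),(3,19),(23,7),(4,2),(0,
  0),(1,1)]⟩⟩]⟩) (.I [0,0,0,0,0,1,1] (.C [(0,0),(2,0),(1,1),(5,0),(5,0),(6,1),(9,0)]) (.C [(0,0),(0,
  0),(10,0)]))) (.Q [0,0,2,0,-1,0,0,0,0,1] (.pp false [-1,1]) (.R ⟨0,false,false,false,[1,-1],[0,1],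
  [0,1,-1,-2],(⟨0,[(26,0)]⟩,⟨0,[(27,0)]⟩),(⟨0,[(27,0)]⟩,⟨0,[(26,0)]⟩),⟨0,[(10,0),(0,0)]⟩,.k,.k,(.r
  (-1) ⟨0,[(3,0)]⟩ ⟨0,[(19,0),(0,0),(12,1)]⟩),(.r (-1) ⟨0,[(3,0)]⟩ ⟨0,[(19,0),(0,0),(12,1)]⟩),.k,.k,
  ⟨true,1,⟨0,[(3,0),(28,0)]⟩,⟨0,[(0,0),(9,0),(0,0),(11,1),(7,0),(1,2)]⟩⟩,⟨false,2,⟨9,[(12,0),(0,0),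
  (15,1),(4,14)]⟩,⟨0,[(0,0)]⟩⟩,⟨true,0,⟨0,[(32,0)]⟩,⟨0,[(33,0)]⟩⟩,⟨false,1,⟨9,[(12,0),(0,0),(15,1),
  (3,19),(1,4)]⟩,⟨0,[(0,0),(2,0)]⟩⟩,⟨false,0,⟨0,[]⟩,⟨0,[]⟩⟩,⟨false,0,⟨0,[]⟩,⟨0,[]⟩⟩,[.e ⟨false,1,⟨5,
  [(3,4),(8,0),(0,0),(16,1),(1,1)]⟩,⟨0,[(31,0),(1,1)]⟩⟩ ⟨false,1,⟨0,[(3,0),(6,0),(0,0),(11,1),(9,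
  2)]⟩,⟨2,[(5,0),(0,2),(2,1)]⟩⟩,.o ⟨false,1,⟨9,[(12,0),(0,0),(15,1),(3,9),(1,4)]⟩,⟨0,[(32,0)]⟩⟩,.o
  ⟨false,0,⟨1,[(19,0),(0,0)]⟩,⟨9,[(12,0),(0,0),(15,1),(4,4)]⟩⟩,.a ⟨true,(-1),⟨0,[(0,0)]⟩,⟨0,[(34,
  0)]⟩⟩ ⟨false,1,⟨0,[(3,0)]⟩,⟨5,[(0,4),(18,0),(0,0),(8,0),(3,11),(1,2)]⟩⟩ ⟨true,1,⟨0,[(3,0),(6,0),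
  (0,0),(11,1),(9,2)]⟩,⟨0,[(0,0),(31,0)]⟩⟩]⟩) (.R ⟨0,false,false,true,[1,-1],[1,0,-1],[1,1],(⟨0,
  [(26,0)]⟩,⟨0,[(27,0)]⟩),(⟨0,[(21,0)]⟩,⟨0,[(22,0)]⟩),⟨0,[(10,0),(0,0)]⟩,.k,.k,(.r (-1) ⟨0,[(3,0)]⟩
  ⟨0,[(19,0),(0,0),(12,1)]⟩),.k,.k,.k,⟨true,0,⟨27,[(1,4),(0,10),(14,5),(2,0),(8,0),(3,10),(1,2)]⟩,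
  ⟨0,[(4,0)]⟩⟩,⟨false,1,⟨1,[(0,0),(8,0),(24,0)]⟩,⟨0,[(19,0)]⟩⟩,⟨false,0,⟨1,[(19,0),(0,0),(12,1)]⟩,
  ⟨1,[(3,0),(31,0)]⟩⟩,⟨true,0,⟨0,[(18,0),(14,0)]⟩,⟨0,[(7,0)]⟩⟩,⟨false,0,⟨0,[]⟩,⟨0,[]⟩⟩,⟨false,0,⟨0,
  []⟩,⟨0,[]⟩⟩,[.o ⟨false,0,⟨0,[(18,0)]⟩,⟨4,[(7,3),(9,0),(11,0),(3,3),(1,2)]⟩⟩,.a ⟨true,0,⟨0,[(4,0),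
  (11,0)]⟩,⟨0,[(7,0),(25,0)]⟩⟩ ⟨true,0,⟨0,[]⟩,⟨1,[(19,0),(0,0)]⟩⟩ ⟨false,1,⟨0,[(0,0),(3,0),(11,0)]⟩,
  ⟨0,[(17,0),(13,0)]⟩⟩,.o ⟨false,0,⟨1,[(19,0),(0,0)]⟩,⟨9,[(12,0),(0,0),(15,1),(4,4)]⟩⟩,.o ⟨false,0,
  ⟨0,[(19,0),(0,0)]⟩,⟨0,[(0,0)]⟩⟩]⟩)))) (.I [1,0,-2,-2,1] (.I [0,0,2,0,-1,2] (.N [0,2] 1 ⟨0,[(2,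
  0)]⟩ ⟨0,[(1,0)]⟩ (.x (-2) ⟨4,[(11,0),(0,0),(12,9),(2,1),(4,4)]⟩ ⟨0,[(0,0)]⟩)) (.I [0,0,0,0,1,0,0,
  0,-1] (.I [0,0,-1,0,0,1,-1] (.C [(0,1),(1,0),(1,0),(0,1),(2,1),(3,1),(11,1)]) (.C [(0,0),(10,0),
  (5,0)])) (.C [(0,0),(11,0),(2,0)]))) (.I [1,0,3,3,-2,0,0,1] (.I [1,0,-3,-3,2,0,0,-1] (.I [0,0,3,0,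
  -2,3,-1] (.N [0,3,1] 2 ⟨0,[(2,0)]⟩ ⟨0,[(1,0)]⟩ (.x (-3) ⟨17,[(3,6),(1,13),(0,3),(1,13),(13,17),(1,
  25),(2,27),(2,9),(4,40)]⟩ ⟨0,[(0,0)]⟩)) (.I [0,0,0,0,1,0,0,0,-1] (.I [0,0,-1,0,0,1,-1] (.C [(0,3),
  (1,0),(1,0),(2,3),(2,2),(3,2),(11,3)]) (.C [(0,0),(12,0),(5,0)])) (.C [(0,0),(13,0),(2,0)]))) (.I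
  [0,0,0,0,1,0,0,0,-1] (.I [0,0,-1,0,0,1,-1] (.I [0,0,0,0,0,3,1] (.I [0,0,0,-1,0,1,1,1] (.C [(0,1),
  (1,2),(1,0),(3,3),(2,0),(3,0),(11,5),(10,1)]) (.C [(0,0),(10,0),(3,0)])) (.C [(0,0),(7,0),(4,0),
  (0,1)])) (.C [(0,0),(11,0),(5,0)])) (.C [(0,0),(12,0),(2,0)]))) (.I [0,0,0,0,1,0,0,0,-1] (.I [0,0,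
  -1,0,0,1,-1] (.C [(0,0),(1,0),(0,1),(4,0),(3,0),(11,1)]) (.C [(0,0),(10,0),(5,0)])) (.C [(0,0),
  (11,0),(2,0)]))))))))

theorem ok2 : chk K t2 r1 = true := by decide +kernel

noncomputable def t3 : Tre :=
  .Q [0,0,0,1,0,0,-1,-1,0,0,-1] (.p false [0,0,1] [] (⟨0,[(14,0)]⟩,⟨0,[(13,0)]⟩) .k 0 (⟨0,[]⟩,⟨0,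
  []⟩) .k .k) t1 t2

theorem ok3 : chk K t3 r0 = true :=
  chk_Q (e' := [0,0,0,-1,0,0,1,1,0,0,1]) (by decide +kernel) (by decide +kernel) ok1 ok2

noncomputable def t4 : Tre :=
  .Q [0,-1,0,1,0,0,-1,-1,0,0,-1] (.p false [0,0,1] [] (⟨0,[(13,0)]⟩,⟨0,[(12,0)]⟩) .k 0 (⟨0,[]⟩,⟨0,
  []⟩) .k .k) t0 t3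

theorem ok4 : chk K t4 base = true :=
  chk_Q (e' := [0,1,0,-1,0,0,1,1,0,0,1]) (by decide +kernel) (by decide +kernel) ok0 ok3

theorem closed {p a b c J l q : ℤ} {D dl : ℝ} {Cl : ℤ → ℤ → ℤ → ℤ → ℝ → Prop}
    (W : World p a b c J 1 l q D dl Cl) (g : G0 p a b c J D)
    {N X R : ℤ} {I : ℝ} (hk : KCl p l Cl N X R I) (kz : KF a b D (X + (1 : ℤ) * I) (X + (1 : ℤ) * I + R) I)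
    {Ne Xe : ℤ} {Ie : ℝ} (he : EFac p 1 D Cl 1 Ne Xe Ie)
    (hkf : ∀ kf ∈ (kfY 1 [0,0,0,0,0,0,1,0,0,0,1]), KOk p l Cl 1
      (xv [1, a, b, c, p, J, X, R, Xe] [D, I, Ie]) N kf)
    (h0 : 1 ≤ (c : ℝ))
    (h1 : 1 ≤ 1 - (a : ℝ) + (b : ℝ))
    (h2 : 1 ≤ 2 * (a : ℝ) - (b : ℝ))
    (h3 : 0 < 1 + 2 * (p : ℝ) - 5 * D)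
    (h4 : 1 ≤ 2 * (a : ℝ) - (b : ℝ))
    (h5 : 1 ≤ -1 + (J : ℝ))
    (h6 : 1 ≤ 3 - (J : ℝ))
    (h7 : 0 < -(b : ℝ) - (X : ℝ) + D - I)
    (h8 : 0 < (J : ℝ) - I)
    (h9 : 0 < (J : ℝ) - D + I)
    (h10 : 0 < -2 * (X : ℝ) + D - 2 * I) : False := by
  have g1 := g.a2
  have g2 := g.b2
  have g3 := g.pa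
  have g4 := g.pb
  have g5 := g.J1
  have g6 := g.JD
  have g7 := g.D2
  have g8 := g.ca
  have g9 := g.ca'
  have k1 := kz.I0
  have k2 := kz.ID
  have k3 := kz.z1
  have k4 := kz.z2
  have k5 := kz.s1
  have k6 := kz.s2
  have e1 := he.I0
  have e2 := he.ID
  have e3 := he.x0
  have e4 := he.xp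
  push_cast at *
  refine (val_E W.toBase hk he (row := [1]) (by simp) (by simp) (kfY 1 [0,0,0,0,0,0,1,0,0,0,1])).sound W rfl (Nk := N)
    (fun kf _ _ => ⟨_, rfl⟩) hkf ?_ ok4
  · simp only [base, List.forall_mem_cons, List.not_mem_nil, false_imp_iff, implies_true,
      and_true, hld, xv, evg_cons, evg_nil, List.map_cons, List.map_nil, List.cons_append,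
      List.nil_append, if_true, if_false, Bool.false_eq_true]
    push_cast
    refine ⟨?_, ?_, ?_, ?_, ?_, ?_, ?_, ?_, ?_, ?_, ?_, ?_, ?_, ?_, ?_, ?_, ?_, ?_, ?_, ?_, ?_, ?_, ?_, ?_, ?_, ?_, ?_, ?_, ?_⟩ <;> linarith

end Helper48.Y.Y11_c35_P2_m0n0

namespace Helper48.Y.Y11_c35_P2_m0n1

open Helper25.KG Helper25.KW Helper55.KE Helper11.CT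

noncomputable def K : Cls :=
  cE 1 [1] (kfY 1 [0,0,0,0,0,0,1,0,0,0,1])

noncomputable def base : List Con :=
  [(false,[0,0,0,0,0,0,-2,0,0,1,-2]),
  (false,[0,0,0,0,0,-1,0,0,0,1,-1]),
  (false,[0,0,0,0,0,1,0,0,0,0,-1]),
  (false,[0,0,0,0,1,0,0,0,-1,0,0,-1]),
  (false,[0,0,0,0,0,0,0,0,1,0,0,1]),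
  (false,[0,0,0,0,0,0,0,0,0,1,0,-1]),
  (false,[0,0,0,0,0,0,0,0,0,0,0,1]),
  (false,[0,0,-1,0,0,0,-1,0,0,1,-1]),
  (false,[0,1,0,0,0,0,1,1,0,0,1]),
  (false,[0,1,0,0,0,0,-1,-1,0,0,-1]),
  (false,[0,0,1,0,0,0,1,0,0,0,1]),
  (false,[0,0,1,0,0,0,-1,0,0,0,-1]),
  (false,[0,0,0,0,0,0,0,0,0,1,-1]),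
  (false,[0,0,0,0,0,0,0,0,0,0,1]),
  (true,[3,0,0,0,0,-1]),
  (true,[-1,0,0,0,0,1]),
  (false,[0,0,0,0,1,0,0,0,0,-2]),
  (false,[0,0,0,0,0,-1,0,0,0,1]),
  (true,[0,0,0,0,0,1]),
  (true,[0,2,-1]),
  (false,[1,0,0,0,2,0,0,0,0,-5]),
  (true,[0,2,-1]),
  (true,[1,-1,1]),
  (true,[0,1,0,-1]),
  (true,[0,0,0,1]),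
  (true,[0,0,-2,0,1]),
  (true,[0,-2,0,0,1]),
  (true,[-1,0,1]),
  (true,[-1,1])]

noncomputable def t0 : Tre :=
  (.I [0,1,0,0,0,0,0,1] (.I [0,0,1,2,-1] (.Q [0,0,0,-1,0,0,0,0,0,1] (.pp false [-1,1]) (.R ⟨2,true,
  false,false,[0,1],[1,-1],[1,1,1],(⟨0,[]⟩,⟨0,[]⟩),(⟨0,[(20,0)]⟩,⟨0,[(21,0)]⟩),⟨0,[]⟩,.k,.k,.k,(.r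
  1 ⟨1,[(1,1),(11,0),(0,0)]⟩ ⟨0,[(26,1),(1,0),(0,0)]⟩),.k,.k,⟨false,(-1),⟨0,[(1,0),(24,0)]⟩,⟨0,[(26,
  0),(1,0),(0,0)]⟩⟩,⟨true,(-1),⟨0,[(0,0),(0,0),(23,0),(0,0)]⟩,⟨9,[(6,0),(0,0),(15,1),(4,4)]⟩⟩,⟨true,
  0,⟨0,[(26,0)]⟩,⟨0,[(27,0)]⟩⟩,⟨false,1,⟨0,[(0,0),(25,0),(2,0)]⟩,⟨4,[(1,3),(21,0),(3,1),(0,1)]⟩⟩,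
  ⟨false,0,⟨0,[]⟩,⟨1,[(6,0),(0,0),(21,0)]⟩⟩,⟨true,0,⟨0,[(0,0)]⟩,⟨9,[(1,4),(4,0),(0,0),(15,1),(0,
  4)]⟩⟩,[]⟩) (.I [1,0,1,0,-1,0,0,1] (.Q [0,0,0,-1,0,0,1,1,0,0,1] (.p true [0,0,1] [] (⟨0,[(17,0)]⟩,
  ⟨0,[(16,0)]⟩) .k 0 (⟨0,[]⟩,⟨0,[]⟩) .k .k) (.R ⟨2,true,false,false,[0,1],[0,1,1],[0,0,1,1],(⟨0,[]⟩,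
  ⟨0,[]⟩),(⟨0,[(18,0),(4,0)]⟩,⟨0,[(6,0)]⟩),⟨0,[]⟩,.k,.k,.k,.k,.k,.k,⟨true,1,⟨1,[(14,1),(0,1),(14,0),
  (0,0)]⟩,⟨0,[(1,0)]⟩⟩,⟨false,1,⟨0,[(15,0),(14,0)]⟩,⟨8,[(1,2),(3,0),(6,3),(1,2),(10,0),(1,0),(3,
  0)]⟩⟩,⟨false,1,⟨1,[(8,0),(0,0),(21,0)]⟩,⟨0,[]⟩⟩,⟨true,0,⟨5,[(0,3),(2,1),(9,1),(16,0),(0,0)]⟩,⟨0,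
  [(14,0)]⟩⟩,⟨true,0,⟨0,[(29,0)]⟩,⟨0,[(28,0)]⟩⟩,⟨false,0,⟨1,[(0,1),(2,1),(26,0),(0,0)]⟩,⟨0,[(14,0),
  (13,0),(2,0)]⟩⟩,[]⟩) (.R ⟨2,true,false,true,[0,1],[0,0,1],[0,0,1,1],(⟨0,[]⟩,⟨0,[]⟩),(⟨0,[(18,0)]⟩,
  ⟨0,[(17,0)]⟩),⟨0,[]⟩,.k,.k,.k,.k,.k,.k,⟨false,1,⟨1,[(0,1),(14,1),(14,0),(0,0)]⟩,⟨0,[(1,0),(26,0),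
  (1,0)]⟩⟩,⟨true,0,⟨0,[(15,0)]⟩,⟨8,[(1,2),(3,0),(6,3),(1,2),(10,0),(1,0),(3,0)]⟩⟩,⟨false,1,⟨1,[(8,
  0),(0,0),(21,0)]⟩,⟨0,[]⟩⟩,⟨true,0,⟨0,[(1,0),(13,0),(12,0),(1,0)]⟩,⟨0,[(0,0)]⟩⟩,⟨true,0,⟨0,[(29,
  0)]⟩,⟨0,[(28,0)]⟩⟩,⟨false,0,⟨0,[(1,0),(13,0),(14,0)]⟩,⟨0,[(14,0),(16,0)]⟩⟩,[]⟩)) (.I [0,-1,-1,0,1,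
  0,0,-1] (.Q [0,0,0,0,0,0,-1,-1,0,0,-1] (.p false [0,0,1] [] (⟨0,[(18,0)]⟩,⟨0,[(17,0)]⟩) .k 0 (⟨0,
  []⟩,⟨0,[]⟩) .k .k) (.Q [0,-1,0,1,0,0,-1,-1,0,0,-1] (.p false [0,0,1] [] (⟨0,[(19,0)]⟩,⟨0,[(18,
  0)]⟩) .k 0 (⟨0,[]⟩,⟨0,[]⟩) .k .k) (.R ⟨2,true,false,true,[0,1],[0,0,1],[],(⟨0,[]⟩,⟨0,[]⟩),(⟨0,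
  [(20,0)]⟩,⟨0,[(19,0)]⟩),⟨0,[]⟩,.k,.k,.k,.k,.k,.k,⟨false,1,⟨0,[(2,0)]⟩,⟨0,[(6,0)]⟩⟩,⟨true,0,⟨0,
  [(17,0)]⟩,⟨0,[(4,0),(9,0),(14,0),(0,0)]⟩⟩,⟨true,1,⟨1,[(30,1),(1,0),(0,0)]⟩,⟨0,[(5,0),(24,0)]⟩⟩,
  ⟨false,1,⟨0,[(15,0),(14,0),(2,0)]⟩,⟨0,[(0,0)]⟩⟩,⟨false,1,⟨1,[(32,0),(0,0)]⟩,⟨1,[(17,0),(0,0)]⟩⟩,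
  ⟨true,0,⟨0,[(15,0)]⟩,⟨0,[(1,0)]⟩⟩,[]⟩) (.R ⟨2,true,false,false,[0,1],[0,1,1],[],(⟨0,[]⟩,⟨0,[]⟩),
  (⟨0,[(20,0),(4,0)]⟩,⟨0,[(8,0)]⟩),⟨0,[]⟩,.k,.k,.k,.k,.k,.k,⟨true,1,⟨0,[(2,0),(27,0)]⟩,⟨0,[(0,0),(3,
  0),(0,0),(8,0),(14,1),(0,0)]⟩⟩,⟨false,1,⟨0,[(2,0),(12,0)]⟩,⟨0,[(4,0),(9,0),(14,0),(0,0)]⟩⟩,⟨true,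
  1,⟨1,[(30,1),(1,0),(0,0)]⟩,⟨0,[(5,0),(24,0)]⟩⟩,⟨false,1,⟨0,[(15,0),(17,0)]⟩,⟨0,[(1,0)]⟩⟩,⟨false,1,
  ⟨1,[(32,0),(0,0)]⟩,⟨1,[(17,0),(0,0)]⟩⟩,⟨true,0,⟨1,[(0,1),(4,1),(26,0),(0,0)]⟩,⟨0,[(1,0),(28,0)]⟩⟩,
  []⟩)) (.R ⟨2,true,false,false,[0,1],[0,0,1],[1,1,1],(⟨0,[]⟩,⟨0,[]⟩),(⟨0,[(19,0)]⟩,⟨0,[(18,0)]⟩),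
  ⟨0,[]⟩,.k,.k,.k,.k,.k,.k,⟨false,0,⟨0,[(1,0),(2,0),(24,1)]⟩,⟨11,[(0,9),(4,1),(7,9),(12,1),(4,0),(0,
  6)]⟩⟩,⟨true,0,⟨0,[(16,0)]⟩,⟨0,[(3,0),(9,0),(14,0),(0,0)]⟩⟩,⟨true,0,⟨0,[(29,0)]⟩,⟨0,[(30,0)]⟩⟩,
  ⟨false,1,⟨0,[(0,0),(28,0),(2,0)]⟩,⟨2,[(1,0),(1,0),(0,0),(8,0),(1,1),(12,0)]⟩⟩,⟨false,0,⟨0,[]⟩,⟨1,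
  [(9,0),(0,0),(21,0)]⟩⟩,⟨true,0,⟨0,[(0,0)]⟩,⟨0,[(15,0)]⟩⟩,[]⟩)) (.I [1,0,1,0,0,0,0,-1] (.Q [0,-1,0,
  -1,1,0,1,1,0,0,1] (.p true [0,0,1] [] (⟨0,[(19,0)]⟩,⟨0,[(18,0)]⟩) .k 0 (⟨0,[]⟩,⟨0,[]⟩) .k .k) (.R
  ⟨0,false,false,true,[0,0,1],[0,1],[1,0,1],(⟨0,[(20,0)]⟩,⟨0,[(19,0)]⟩),(⟨0,[(25,0)]⟩,⟨0,[(24,0)]⟩),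
  ⟨0,[(9,0)]⟩,.k,.k,.k,.k,.k,.k,⟨true,1,⟨0,[(30,0),(2,0)]⟩,⟨0,[(5,0),(24,0)]⟩⟩,⟨false,1,⟨5,[(7,0),
  (6,3),(12,0),(4,3)]⟩,⟨0,[(17,0)]⟩⟩,⟨true,0,⟨0,[(1,0)]⟩,⟨0,[(2,0),(29,0)]⟩⟩,⟨false,0,⟨0,[(1,0),(2,
  0),(9,0)]⟩,⟨0,[(0,0)]⟩⟩,⟨false,0,⟨0,[]⟩,⟨0,[]⟩⟩,⟨false,0,⟨0,[]⟩,⟨0,[]⟩⟩,[.o ⟨false,0,⟨9,[(5,4),(4,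
  0),(0,0),(15,1),(0,4)]⟩,⟨0,[(30,0),(2,0)]⟩⟩,.o ⟨false,0,⟨0,[(4,0)]⟩,⟨1,[(0,0),(2,0),(14,0),(11,
  0)]⟩⟩,.o ⟨false,1,⟨14,[(0,1),(2,3),(1,0),(9,1),(1,10),(9,2),(4,3)]⟩,⟨0,[(4,0),(9,0),(14,0),(0,
  0)]⟩⟩,.a ⟨true,0,⟨0,[(17,0)]⟩,⟨0,[(14,0)]⟩⟩ ⟨true,0,⟨0,[]⟩,⟨0,[(35,0)]⟩⟩ ⟨false,0,⟨0,[(4,0),(9,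
  0)]⟩,⟨0,[(0,0),(0,0)]⟩⟩]⟩) (.R ⟨2,true,false,false,[0,1],[0,0,1],[0,0,1,1],(⟨0,[]⟩,⟨0,[]⟩),(⟨0,
  [(20,0)]⟩,⟨0,[(19,0)]⟩),⟨0,[]⟩,.k,.k,.k,.k,.k,.k,⟨false,0,⟨1,[(0,1),(16,1),(14,0),(0,0)]⟩,⟨0,[(2,
  0),(27,0),(1,0),(0,0)]⟩⟩,⟨true,0,⟨0,[(17,0)]⟩,⟨6,[(0,0),(1,0),(4,0),(6,3),(12,0),(1,2),(0,0)]⟩⟩,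
  ⟨false,1,⟨1,[(10,0),(0,0),(21,0)]⟩,⟨0,[]⟩⟩,⟨true,1,⟨0,[(15,0),(14,0),(2,0)]⟩,⟨0,[(0,0)]⟩⟩,⟨true,0,
  ⟨0,[(31,0)]⟩,⟨0,[(30,0)]⟩⟩,⟨false,1,⟨0,[(15,0),(17,0)]⟩,⟨0,[(0,0),(29,0),(2,0)]⟩⟩,[]⟩)) (.Q [0,-1,
  0,1,0,0,1,1,0,0,1] (.p true [0,0,1] [] (⟨0,[(19,0)]⟩,⟨0,[(18,0)]⟩) .k 0 (⟨0,[]⟩,⟨0,[]⟩) .k .k)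
  (.R ⟨2,true,false,false,[0,1],[0,1,1],[1,0,1],(⟨0,[]⟩,⟨0,[]⟩),(⟨0,[(20,0),(4,0)]⟩,⟨0,[(8,0)]⟩),⟨0,
  []⟩,.k,.k,.k,.k,.k,.k,⟨true,1,⟨0,[(3,0),(25,0),(0,0)]⟩,⟨1,[(1,0),(0,0),(2,0),(23,0)]⟩⟩,⟨false,1,
  ⟨0,[(17,0),(14,0)]⟩,⟨0,[(1,0),(14,0),(12,0)]⟩⟩,⟨false,1,⟨0,[(30,0),(2,0)]⟩,⟨0,[(31,0)]⟩⟩,⟨true,0,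
  ⟨0,[(0,0),(29,0)]⟩,⟨0,[(16,0)]⟩⟩,⟨true,0,⟨0,[]⟩,⟨0,[(35,0)]⟩⟩,⟨false,0,⟨0,[(0,0)]⟩,⟨0,[(16,0),(13,
  0),(2,0)]⟩⟩,[]⟩) (.R ⟨2,true,false,false,[0,1],[0,0,1],[0,1,1,1],(⟨0,[]⟩,⟨0,[]⟩),(⟨0,[(20,0)]⟩,⟨0,
  [(19,0)]⟩),⟨0,[]⟩,.k,.k,.k,.k,.k,.k,⟨false,0,⟨2,[(0,0),(2,1),(1,1),(11,0),(10,0)]⟩,⟨0,[(1,0),(28,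
  0),(2,0)]⟩⟩,⟨true,0,⟨0,[(17,0)]⟩,⟨11,[(0,3),(0,3),(3,1),(1,2),(6,1),(12,0),(1,3)]⟩⟩,⟨true,0,⟨0,
  [(35,0)]⟩,⟨0,[]⟩⟩,⟨false,1,⟨0,[(1,0),(15,0),(12,0),(2,0)]⟩,⟨2,[(0,1),(2,0),(0,0),(0,1),(8,0),(18,
  0)]⟩⟩,⟨false,0,⟨0,[(31,0)]⟩,⟨0,[(30,0),(2,0)]⟩⟩,⟨true,0,⟨0,[(1,0),(15,0)]⟩,⟨0,[(16,0)]⟩⟩,
  []⟩)))))) (.Q [0,0,0,0,0,0,1,1,0,0,1] (.p true [0,0,1] [] (⟨0,[(15,0)]⟩,⟨0,[(14,0)]⟩) .k 0 (⟨0,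
  []⟩,⟨0,[]⟩) .k .k) (.Q [0,0,0,0,0,0,1,0,0,0,1] (.p true [0,0,1] [] (⟨0,[(16,0)]⟩,⟨0,[(15,0)]⟩) .k
  0 (⟨0,[]⟩,⟨0,[]⟩) .k .k) (.I [1,0,0,0,0,0,0,-1] (.R ⟨0,false,false,false,[0,1,-1],[0,1],[0,1],(⟨0,
  [(7,0)]⟩,⟨0,[(18,0),(3,0)]⟩),(⟨0,[(23,0)]⟩,⟨0,[(22,0)]⟩),⟨0,[(18,0)]⟩,.k,.k,.k,.k,.k,.k,⟨false,1,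
  ⟨1,[(3,0),(22,0),(3,0)]⟩,⟨0,[(27,0),(1,0)]⟩⟩,⟨true,0,⟨0,[(1,0)]⟩,⟨0,[(16,0)]⟩⟩,⟨false,1,⟨23,[(2,
  9),(0,11),(0,13),(7,9),(12,1),(4,0),(0,6)]⟩,⟨0,[(0,0),(26,0),(1,0)]⟩⟩,⟨true,0,⟨0,[(2,0)]⟩,⟨0,[(14,
  0)]⟩⟩,⟨false,0,⟨0,[]⟩,⟨0,[]⟩⟩,⟨false,0,⟨0,[]⟩,⟨0,[]⟩⟩,[.a ⟨true,0,⟨0,[(29,0)]⟩,⟨0,[(1,0),(10,0),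
  (14,0),(0,0)]⟩⟩ ⟨true,0,⟨0,[(33,0)]⟩,⟨0,[(27,0)]⟩⟩ ⟨false,0,⟨0,[(1,0),(27,0)]⟩,⟨19,[(3,9),(1,9),
  (2,0),(0,0),(15,1),(4,4)]⟩⟩,.o ⟨false,1,⟨9,[(8,0),(0,0),(15,1),(3,9),(1,4)]⟩,⟨0,[(28,0)]⟩⟩,.o
  ⟨false,1,⟨2,[(5,0),(6,0),(12,0),(4,0)]⟩,⟨0,[(15,0)]⟩⟩,.o ⟨false,1,⟨49,[(5,24),(2,16),(0,16),(15,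
  14),(5,2),(1,5)]⟩,⟨0,[(1,0)]⟩⟩]⟩) (.R ⟨0,false,false,true,[0,1,-1],[1,0,-1],[0,1,1,0,0,0,0,-1],
  (⟨0,[(7,0)]⟩,⟨0,[(18,0),(3,0)]⟩),(⟨0,[(17,0)]⟩,⟨0,[(18,0)]⟩),⟨0,[(18,0)]⟩,.k,.k,.k,.k,.k,.k,⟨true,
  0,⟨1,[(15,0),(0,0)]⟩,⟨0,[]⟩⟩,⟨false,0,⟨0,[(17,0),(0,0)]⟩,⟨9,[(8,0),(0,0),(15,1),(4,4)]⟩⟩,⟨true,0,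
  ⟨0,[(28,0)]⟩,⟨0,[(29,0)]⟩⟩,⟨false,0,⟨0,[(1,0),(10,0),(14,0),(0,0)]⟩,⟨9,[(8,0),(0,0),(15,1),(3,9),
  (1,4)]⟩⟩,⟨false,0,⟨0,[]⟩,⟨0,[]⟩⟩,⟨false,0,⟨0,[]⟩,⟨0,[]⟩⟩,[.o ⟨false,0,⟨0,[(14,0)]⟩,⟨4,[(2,3),(10,
  0),(11,0),(5,2)]⟩⟩,.a ⟨true,0,⟨0,[(1,0),(10,0),(1,0),(12,0)]⟩,⟨0,[(2,0)]⟩⟩ ⟨true,0,⟨0,[(1,0),(12,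
  0),(12,0)]⟩,⟨0,[(0,0)]⟩⟩ ⟨false,0,⟨0,[(1,1),(10,0),(1,0),(12,0)]⟩,⟨9,[(0,7),(3,1),(20,1),(4,4),(0,
  0)]⟩⟩,.o ⟨false,1,⟨2,[(5,0),(6,0),(12,0),(4,0)]⟩,⟨0,[(15,0)]⟩⟩,.o ⟨false,1,⟨49,[(5,24),(2,16),(0,
  16),(15,14),(5,2),(1,5)]⟩,⟨0,[(1,0)]⟩⟩]⟩)) (.I [0,0,1,1,1,0,0,-2] (.Q [0,0,0,-1,0,0,-1,0,0,0,-1]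
  (.p false [0,0,1] [] (⟨0,[(18,0)]⟩,⟨0,[(17,0)]⟩) .k 0 (⟨0,[]⟩,⟨0,[]⟩) .k .k) (.Q [0,0,0,0,0,0,0,1,
  0,-1] (.pp true [-1,1]) (.I [1,-1,2,1,0,0,0,-1] (.Q [0,0,0,-1,0,0,0,0,0,1] (.pp false [-1,1]) (.R
  ⟨0,false,false,false,[0,1,-1],[0,1],[1,1,1],(⟨0,[(11,0)]⟩,⟨0,[(22,0),(3,0)]⟩),(⟨0,[(27,0)]⟩,⟨0,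
  [(26,0)]⟩),⟨0,[(22,0)]⟩,.k,.k,.k,.k,.k,.k,⟨true,0,⟨0,[(32,0)]⟩,⟨0,[(31,0),(1,0)]⟩⟩,⟨false,1,⟨0,
  [(19,0),(14,0)]⟩,⟨0,[(5,0)]⟩⟩,⟨false,0,⟨0,[(0,0),(1,0)]⟩,⟨0,[(1,0),(32,0)]⟩⟩,⟨true,0,⟨0,[(6,0)]⟩,
  ⟨0,[(18,0)]⟩⟩,⟨false,0,⟨0,[]⟩,⟨0,[]⟩⟩,⟨false,0,⟨0,[]⟩,⟨0,[]⟩⟩,[.a ⟨true,0,⟨0,[(33,0)]⟩,⟨0,[(0,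
  0)]⟩⟩ ⟨false,0,⟨0,[(37,0)]⟩,⟨1,[(34,0),(0,0)]⟩⟩ ⟨true,0,⟨0,[(19,0),(13,0)]⟩,⟨0,[(3,0)]⟩⟩,.o
  ⟨false,1,⟨49,[(4,1),(3,3),(20,9),(3,47),(0,0),(0,26)]⟩,⟨0,[(32,0)]⟩⟩,.o ⟨false,1,⟨2,[(9,0),(6,0),
  (12,0),(4,0)]⟩,⟨0,[(19,0)]⟩⟩,.e ⟨false,0,⟨0,[]⟩,⟨21,[(4,3),(2,1),(0,7),(25,0),(0,14)]⟩⟩ ⟨false,1,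
  ⟨1,[(19,1),(13,1),(0,0),(0,0)]⟩,⟨0,[(3,0)]⟩⟩]⟩) (.Q [0,0,0,1,0,0,-1,-1,0,0,-1] (.p false [0,0,1]
  [] (⟨0,[(22,0)]⟩,⟨0,[(21,0)]⟩) .k 0 (⟨0,[]⟩,⟨0,[]⟩) .k .k) (.R ⟨0,false,false,false,[0,0,1],[0,1],
  [0,0,2,1],(⟨0,[(23,0)]⟩,⟨0,[(22,0)]⟩),(⟨0,[(28,0)]⟩,⟨0,[(27,0)]⟩),⟨0,[(12,0)]⟩,.k,.k,.k,.k,.k,.k,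
  ⟨true,0,⟨1,[(20,0),(0,0)]⟩,⟨0,[]⟩⟩,⟨false,1,⟨5,[(10,0),(6,3),(12,0),(4,3)]⟩,⟨0,[(20,0)]⟩⟩,⟨false,
  0,⟨0,[(0,0),(19,0),(11,0)]⟩,⟨1,[(3,0),(3,0),(0,0),(8,0),(17,0)]⟩⟩,⟨true,0,⟨0,[(0,0)]⟩,⟨0,[(7,0),
  (25,0)]⟩⟩,⟨false,0,⟨0,[]⟩,⟨0,[]⟩⟩,⟨false,0,⟨0,[]⟩,⟨0,[]⟩⟩,[.o ⟨false,0,⟨0,[(1,0)]⟩,⟨4,[(5,0),(2,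
  2),(9,1),(2,1),(14,0)]⟩⟩,.o ⟨false,1,⟨49,[(5,1),(3,3),(20,9),(3,47),(0,0),(0,26)]⟩,⟨0,[(33,0)]⟩⟩,
  .o ⟨false,1,⟨34,[(5,1),(2,0),(9,3),(1,30),(9,6),(4,15),(0,1)]⟩,⟨0,[(6,0)]⟩⟩,.a ⟨true,0,⟨0,[(20,
  0)]⟩,⟨0,[(17,0)]⟩⟩ ⟨false,0,⟨0,[(32,0),(1,0)]⟩,⟨10,[(5,0),(2,5),(0,1),(25,2),(0,0)]⟩⟩ ⟨true,0,⟨0,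
  [(1,0),(15,0)]⟩,⟨0,[(20,0),(12,0)]⟩⟩]⟩) (.R ⟨0,false,false,false,[0,0,1],[0,1],[0,1,0,0,0,0,0,1],
  (⟨0,[(23,0)]⟩,⟨0,[(22,0)]⟩),(⟨0,[(28,0)]⟩,⟨0,[(27,0)]⟩),⟨0,[(12,0)]⟩,.k,.k,.k,.k,.k,.k,⟨true,0,⟨1,
  [(0,1),(0,0),(2,0),(12,0),(13,0)]⟩,⟨0,[(2,0)]⟩⟩,⟨false,1,⟨5,[(10,0),(6,3),(12,0),(4,3)]⟩,⟨0,[(20,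
  0)]⟩⟩,⟨true,0,⟨0,[(38,0)]⟩,⟨0,[]⟩⟩,⟨false,1,⟨4,[(1,2),(3,1),(4,0),(6,1),(1,0),(16,2)]⟩,⟨0,[(0,
  0)]⟩⟩,⟨false,0,⟨0,[]⟩,⟨0,[]⟩⟩,⟨false,0,⟨0,[]⟩,⟨0,[]⟩⟩,[.o ⟨false,0,⟨0,[(1,0)]⟩,⟨4,[(5,0),(2,2),(9,
  1),(2,1),(14,0)]⟩⟩,.o ⟨false,1,⟨49,[(5,1),(3,3),(20,9),(3,47),(0,0),(0,26)]⟩,⟨0,[(33,0)]⟩⟩,.o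
  ⟨false,1,⟨34,[(5,1),(2,0),(9,3),(1,30),(9,6),(4,15),(0,1)]⟩,⟨0,[(6,0)]⟩⟩,.a ⟨true,0,⟨0,[(20,0)]⟩,
  ⟨0,[(17,0)]⟩⟩ ⟨false,0,⟨0,[(0,0),(0,0),(15,0)]⟩,⟨5,[(2,1),(2,1),(2,1),(11,0),(0,0),(14,1)]⟩⟩
  ⟨true,0,⟨0,[(1,0),(15,0)]⟩,⟨0,[(20,0),(12,0)]⟩⟩]⟩))) (.Q [0,0,-1,1,0,0,-1,0,0,0,-1] (.p false [0,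
  0,1] [] (⟨0,[(21,0)]⟩,⟨0,[(20,0)]⟩) .k 0 (⟨0,[]⟩,⟨0,[]⟩) .k .k) (.R ⟨0,false,false,false,[0,0,1],
  [0,1],[1,1,1],(⟨0,[(22,0)]⟩,⟨0,[(21,0)]⟩),(⟨0,[(27,0)]⟩,⟨0,[(26,0)]⟩),⟨0,[(11,0)]⟩,.k,.k,.k,.k,.k,
  .k,⟨true,0,⟨0,[(32,0)]⟩,⟨0,[(31,0),(1,0)]⟩⟩,⟨false,1,⟨17,[(0,7),(6,3),(1,4),(19,0),(4,11)]⟩,⟨0,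
  [(19,0)]⟩⟩,⟨true,0,⟨0,[(18,0),(0,0)]⟩,⟨1,[(0,0),(0,0),(4,0),(24,0)]⟩⟩,⟨false,1,⟨31,[(0,17),(3,13),
  (4,4),(8,3),(10,0),(1,3),(3,15)]⟩,⟨0,[(1,0),(17,0),(11,0)]⟩⟩,⟨false,0,⟨0,[]⟩,⟨0,[]⟩⟩,⟨false,0,⟨0,
  []⟩,⟨0,[]⟩⟩,[.e ⟨false,0,⟨0,[(37,0)]⟩,⟨1,[(34,0),(0,0)]⟩⟩ ⟨false,0,⟨0,[(0,0)]⟩,⟨6,[(4,0),(2,3),(9,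
  1),(1,4),(14,0),(0,0)]⟩⟩,.o ⟨false,1,⟨19,[(0,0),(3,0),(3,0),(8,0),(11,3),(3,17),(1,10)]⟩,⟨0,[(32,
  0)]⟩⟩,.o ⟨false,1,⟨34,[(4,1),(2,0),(9,3),(1,30),(9,6),(4,15),(0,1)]⟩,⟨0,[(5,0)]⟩⟩,.a ⟨true,0,⟨0,
  [(19,0)]⟩,⟨0,[(16,0)]⟩⟩ ⟨false,0,⟨0,[]⟩,⟨21,[(4,3),(2,1),(0,7),(25,0),(0,14)]⟩⟩ ⟨true,0,⟨0,[(0,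
  0)]⟩,⟨0,[(19,0),(12,0)]⟩⟩]⟩) (.R ⟨0,false,false,false,[0,0,1],[0,1],[1,1,1],(⟨0,[(22,0)]⟩,⟨0,[(21,
  0)]⟩),(⟨0,[(27,0)]⟩,⟨0,[(26,0)]⟩),⟨0,[(11,0)]⟩,.k,.k,.k,.k,.k,.k,⟨true,0,⟨0,[(32,0)]⟩,⟨0,[(31,0),
  (1,0)]⟩⟩,⟨false,1,⟨5,[(9,0),(6,3),(12,0),(4,3)]⟩,⟨0,[(19,0)]⟩⟩,⟨true,0,⟨0,[(18,0),(0,0)]⟩,⟨0,[(1,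
  0),(29,0),(1,0)]⟩⟩,⟨false,1,⟨0,[(18,0),(14,0),(1,0)]⟩,⟨1,[(0,0),(0,0),(4,0),(24,0)]⟩⟩,⟨false,0,⟨0,
  []⟩,⟨0,[]⟩⟩,⟨false,0,⟨0,[]⟩,⟨0,[]⟩⟩,[.a ⟨true,0,⟨0,[(33,0)]⟩,⟨0,[(0,0),(15,0)]⟩⟩ ⟨false,0,⟨0,[(37,
  0)]⟩,⟨1,[(34,0),(0,0)]⟩⟩ ⟨true,0,⟨0,[(5,0),(27,0)]⟩,⟨0,[(0,0)]⟩⟩,.o ⟨false,1,⟨49,[(4,1),(3,3),(20,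
  9),(3,47),(0,0),(0,26)]⟩,⟨0,[(32,0)]⟩⟩,.o ⟨false,1,⟨4,[(0,0),(3,0),(1,1),(12,1),(9,0),(4,1)]⟩,⟨0,
  [(5,0)]⟩⟩,.e ⟨false,0,⟨0,[]⟩,⟨21,[(4,3),(2,1),(0,7),(25,0),(0,14)]⟩⟩ ⟨false,1,⟨5,[(9,0),(6,3),(12,
  0),(3,5),(0,0),(0,2)]⟩,⟨0,[(0,0)]⟩⟩]⟩))) (.R ⟨0,false,false,false,[0,1,-1],[0,1],[1,1,1],(⟨0,[(9,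
  0)]⟩,⟨0,[(20,0),(3,0)]⟩),(⟨0,[(25,0)]⟩,⟨0,[(24,0)]⟩),⟨0,[(20,0)]⟩,.k,.k,.k,.k,.k,.k,⟨true,0,⟨0,
  [(30,0)]⟩,⟨0,[(29,0),(1,0)]⟩⟩,⟨false,1,⟨0,[(17,0),(14,0)]⟩,⟨0,[(3,0)]⟩⟩,⟨false,0,⟨0,[(1,0),(2,
  0)]⟩,⟨13,[(0,9),(1,1),(24,1),(3,11),(0,0),(0,6)]⟩⟩,⟨true,0,⟨0,[(4,0)]⟩,⟨0,[(16,0)]⟩⟩,⟨false,0,⟨0,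
  []⟩,⟨0,[]⟩⟩,⟨false,0,⟨0,[]⟩,⟨0,[]⟩⟩,[.a ⟨true,0,⟨0,[(31,0)]⟩,⟨0,[(0,0),(0,0),(2,0)]⟩⟩ ⟨false,0,⟨0,
  [(35,0)]⟩,⟨1,[(32,0),(0,0)]⟩⟩ ⟨true,0,⟨0,[(17,0),(13,0)]⟩,⟨0,[(1,0)]⟩⟩,.o ⟨false,1,⟨49,[(2,1),(3,
  3),(20,9),(3,47),(0,0),(0,26)]⟩,⟨0,[(30,0)]⟩⟩,.o ⟨false,1,⟨2,[(7,0),(6,0),(12,0),(4,0)]⟩,⟨0,[(17,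
  0)]⟩⟩,.e ⟨false,0,⟨0,[]⟩,⟨21,[(2,3),(2,1),(0,7),(25,0),(0,14)]⟩⟩ ⟨false,1,⟨1,[(17,1),(13,1),(0,0),
  (0,0)]⟩,⟨0,[(1,0)]⟩⟩]⟩)) (.I [1,0,0,1,0,0,0,-1] (.R ⟨2,true,false,false,[0,1],[0,0,1],[1,1,1],(⟨0,
  []⟩,⟨0,[]⟩),(⟨0,[(20,0)]⟩,⟨0,[(19,0)]⟩),⟨0,[]⟩,.k,.k,.k,.k,.k,.k,⟨false,0,⟨0,[(0,0),(29,0)]⟩,⟨11,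
  [(4,9),(1,1),(7,9),(12,1),(4,0),(0,6)]⟩⟩,⟨true,0,⟨0,[(17,0)]⟩,⟨0,[(3,0)]⟩⟩,⟨true,0,⟨0,[(30,0)]⟩,
  ⟨0,[(31,0)]⟩⟩,⟨false,1,⟨1,[(4,0),(0,0),(9,0),(13,0),(3,0)]⟩,⟨0,[(0,0),(2,0)]⟩⟩,⟨false,0,⟨0,[]⟩,
  ⟨21,[(2,3),(2,1),(0,7),(25,0),(0,14)]⟩⟩,⟨true,0,⟨0,[(4,0)]⟩,⟨0,[(16,0)]⟩⟩,[]⟩) (.Q [0,0,0,1,0,0,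
  -1,-1,0,0,-1] (.p false [0,0,1] [] (⟨0,[(20,0)]⟩,⟨0,[(19,0)]⟩) .k 0 (⟨0,[]⟩,⟨0,[]⟩) .k .k) (.R ⟨2,
  true,false,false,[0,1],[0,0,1],[0,1,1,1],(⟨0,[]⟩,⟨0,[]⟩),(⟨0,[(21,0)]⟩,⟨0,[(20,0)]⟩),⟨0,[]⟩,.k,.k,
  .k,.k,.k,.k,⟨false,0,⟨0,[(2,0),(14,0)]⟩,⟨1,[(1,1),(31,0),(0,0)]⟩⟩,⟨true,0,⟨0,[(18,0)]⟩,⟨0,[(4,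
  0)]⟩⟩,⟨true,0,⟨0,[(36,0)]⟩,⟨0,[]⟩⟩,⟨false,1,⟨2,[(1,0),(3,0),(0,0),(9,0),(1,0),(15,1)]⟩,⟨0,[(0,
  0)]⟩⟩,⟨false,0,⟨0,[(32,0)]⟩,⟨3,[(6,1),(11,0),(0,0),(14,1)]⟩⟩,⟨true,0,⟨0,[(5,0)]⟩,⟨0,[(17,0)]⟩⟩,
  []⟩) (.Q [0,0,1,0,0,0,2,0,0,0,2] (.p true [0,0,1] [0,1,-1] (⟨0,[(21,0)]⟩,⟨0,[(20,0)]⟩) .k 2 (⟨0,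
  [(10,0)]⟩,⟨0,[(21,0),(3,0)]⟩) .k (.i 0 ⟨0,[(21,1)]⟩ ⟨0,[(9,0),(0,0)]⟩)) (.R ⟨0,false,false,false,
  [0,1,-1],[0,1],[1,1,1],(⟨0,[(11,0)]⟩,⟨0,[(22,0),(3,0)]⟩),(⟨0,[(27,0)]⟩,⟨0,[(26,0)]⟩),⟨0,[(22,0)]⟩,
  .k,.k,.k,.k,.k,.k,⟨true,0,⟨0,[(32,0)]⟩,⟨0,[(31,0),(1,0)]⟩⟩,⟨false,1,⟨17,[(0,6),(3,1),(2,0),(9,3),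
  (16,12),(0,1)]⟩,⟨0,[(5,0)]⟩⟩,⟨false,0,⟨0,[(2,0)]⟩,⟨0,[(3,0),(14,0),(16,0)]⟩⟩,⟨true,0,⟨0,[(6,0)]⟩,
  ⟨0,[(18,0)]⟩⟩,⟨false,0,⟨0,[]⟩,⟨0,[]⟩⟩,⟨false,0,⟨0,[]⟩,⟨0,[]⟩⟩,[.e ⟨false,0,⟨0,[(37,0)]⟩,⟨1,[(34,
  0),(0,0)]⟩⟩ ⟨false,0,⟨0,[(3,0)]⟩,⟨109,[(4,1),(2,55),(0,3),(0,54),(19,10),(4,27),(0,1)]⟩⟩,.o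
  ⟨false,1,⟨49,[(4,1),(3,3),(20,9),(3,47),(0,0),(0,26)]⟩,⟨0,[(32,0)]⟩⟩,.o ⟨false,1,⟨2,[(9,0),(6,0),
  (12,0),(4,0)]⟩,⟨0,[(19,0)]⟩⟩,.a ⟨true,0,⟨0,[(5,0)]⟩,⟨0,[(0,0),(15,0)]⟩⟩ ⟨false,0,⟨0,[]⟩,⟨21,[(4,
  3),(2,1),(0,7),(25,0),(0,14)]⟩⟩ ⟨true,0,⟨0,[(3,0)]⟩,⟨0,[(5,0),(26,0)]⟩⟩]⟩) (.R ⟨0,false,false,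
  false,[0,0,1],[0,1],[1,1,1],(⟨0,[(22,0)]⟩,⟨0,[(21,0)]⟩),(⟨0,[(27,0)]⟩,⟨0,[(26,0)]⟩),⟨0,[(11,0)]⟩,
  .k,.k,.k,.k,.k,.k,⟨true,0,⟨0,[(32,0)]⟩,⟨0,[(31,0),(1,0)]⟩⟩,⟨false,1,⟨17,[(0,3),(8,4),(19,0),(4,
  15)]⟩,⟨0,[(19,0)]⟩⟩,⟨true,0,⟨0,[(18,0),(0,0)]⟩,⟨0,[(0,0),(0,0),(1,0)]⟩⟩,⟨false,1,⟨1,[(0,0),(3,0),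
  (28,0),(1,0)]⟩,⟨0,[(1,0)]⟩⟩,⟨false,0,⟨0,[]⟩,⟨0,[]⟩⟩,⟨false,0,⟨0,[]⟩,⟨0,[]⟩⟩,[.e ⟨false,0,⟨0,[(37,
  0)]⟩,⟨1,[(34,0),(0,0)]⟩⟩ ⟨false,0,⟨0,[(0,0),(2,0)]⟩,⟨5,[(3,0),(0,0),(2,3),(9,1),(1,2),(15,0)]⟩⟩,
  .o ⟨false,1,⟨49,[(4,1),(3,3),(20,9),(3,47),(0,0),(0,26)]⟩,⟨0,[(32,0)]⟩⟩,.o ⟨false,1,⟨14,[(3,7),(0,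
  1),(2,4),(9,3),(1,2),(9,2),(5,1)]⟩,⟨0,[(5,0)]⟩⟩,.a ⟨true,0,⟨0,[(19,0)]⟩,⟨0,[(16,0)]⟩⟩ ⟨false,0,⟨0,
  []⟩,⟨21,[(4,3),(2,1),(0,7),(25,0),(0,14)]⟩⟩ ⟨true,0,⟨0,[(0,0),(2,0)]⟩,⟨0,[(19,0),(12,0)]⟩⟩]⟩)))))
  (.Q [0,-1,0,1,0,0,1,1,0,0,1] (.p true [0,0,1] [] (⟨0,[(18,0)]⟩,⟨0,[(17,0)]⟩) .k 0 (⟨0,[]⟩,⟨0,[]⟩)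
  .k .k) (.R ⟨2,true,false,false,[0,1],[0,1,1],[0,0,1,1],(⟨0,[]⟩,⟨0,[]⟩),(⟨0,[(19,0),(4,0)]⟩,⟨0,[(7,
  0)]⟩),⟨0,[]⟩,.k,.k,.k,.k,.k,.k,⟨true,1,⟨1,[(15,1),(0,1),(14,0),(0,0)]⟩,⟨0,[(1,0),(13,0),(0,0),(11,
  0),(1,0)]⟩⟩,⟨false,1,⟨0,[(16,0),(14,0)]⟩,⟨0,[(2,0)]⟩⟩,⟨false,1,⟨1,[(9,0),(0,0),(21,0)]⟩,⟨0,[]⟩⟩,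
  ⟨true,0,⟨0,[(3,0)]⟩,⟨0,[(15,0)]⟩⟩,⟨true,0,⟨0,[(30,0)]⟩,⟨0,[(29,0)]⟩⟩,⟨false,0,⟨0,[(0,0)]⟩,⟨3,[(4,
  1),(10,3),(0,0),(0,0),(14,1)]⟩⟩,[]⟩) (.Q [0,0,1,-1,0,0,1,0,0,0,1] (.p true [0,0,1] [] (⟨0,[(19,
  0)]⟩,⟨0,[(18,0)]⟩) .k 0 (⟨0,[]⟩,⟨0,[]⟩) .k .k) (.R ⟨0,false,false,false,[0,0,1],[0,1],[1,1,1],(⟨0,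
  [(20,0)]⟩,⟨0,[(19,0)]⟩),(⟨0,[(25,0)]⟩,⟨0,[(24,0)]⟩),⟨0,[(9,0)]⟩,.k,.k,.k,.k,.k,.k,⟨true,0,⟨0,[(30,
  0)]⟩,⟨0,[(29,0),(1,0)]⟩⟩,⟨false,1,⟨5,[(7,0),(6,3),(12,0),(4,3)]⟩,⟨0,[(17,0)]⟩⟩,⟨true,0,⟨0,[(16,0),
  (0,0)]⟩,⟨9,[(2,3),(3,1),(24,3),(0,2),(0,0)]⟩⟩,⟨false,1,⟨0,[(16,0),(14,0),(1,0)]⟩,⟨4,[(0,1),(1,0),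
  (1,2),(0,0)]⟩⟩,⟨false,0,⟨0,[]⟩,⟨0,[]⟩⟩,⟨false,0,⟨0,[]⟩,⟨0,[]⟩⟩,[.a ⟨true,0,⟨0,[(31,0)]⟩,⟨0,[(0,0),
  (13,0)]⟩⟩ ⟨false,0,⟨0,[(35,0)]⟩,⟨1,[(32,0),(0,0)]⟩⟩ ⟨true,0,⟨0,[(3,0),(27,0)]⟩,⟨0,[(0,0)]⟩⟩,.o
  ⟨false,1,⟨9,[(10,0),(0,0),(15,1),(3,9),(1,4)]⟩,⟨0,[(30,0)]⟩⟩,.o ⟨false,1,⟨9,[(10,0),(0,0),(5,9),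
  (9,1),(4,4)]⟩,⟨0,[(3,0)]⟩⟩,.e ⟨false,0,⟨0,[]⟩,⟨1,[(10,0),(0,0),(21,0)]⟩⟩ ⟨false,1,⟨5,[(7,0),(6,3),
  (12,0),(3,5),(0,0),(0,2)]⟩,⟨0,[(0,0)]⟩⟩]⟩) (.R ⟨0,false,false,false,[0,0,1],[0,1],[1,1,1],(⟨0,
  [(20,0)]⟩,⟨0,[(19,0)]⟩),(⟨0,[(25,0)]⟩,⟨0,[(24,0)]⟩),⟨0,[(9,0)]⟩,.k,.k,.k,.k,.k,.k,⟨true,0,⟨0,[(30,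
  0)]⟩,⟨0,[(29,0),(1,0)]⟩⟩,⟨false,1,⟨17,[(0,7),(4,3),(1,4),(19,0),(4,11)]⟩,⟨0,[(17,0)]⟩⟩,⟨true,0,⟨0,
  [(16,0),(0,0)]⟩,⟨5,[(0,1),(1,1),(12,1),(16,0),(0,0)]⟩⟩,⟨false,1,⟨0,[(16,0),(14,0),(1,0)]⟩,⟨2,[(2,
  0),(1,0),(0,0),(11,1)]⟩⟩,⟨false,0,⟨0,[]⟩,⟨0,[]⟩⟩,⟨false,0,⟨0,[]⟩,⟨0,[]⟩⟩,[.e ⟨false,0,⟨0,[(35,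
  0)]⟩,⟨1,[(32,0),(0,0)]⟩⟩ ⟨false,0,⟨0,[(0,0)]⟩,⟨3,[(5,1),(4,0),(0,0),(5,3),(14,0)]⟩⟩,.o ⟨false,1,
  ⟨9,[(10,0),(0,0),(15,1),(3,9),(1,4)]⟩,⟨0,[(30,0)]⟩⟩,.o ⟨false,1,⟨9,[(10,0),(0,0),(5,9),(9,1),(4,
  4)]⟩,⟨0,[(3,0)]⟩⟩,.a ⟨true,0,⟨0,[(17,0)]⟩,⟨0,[(14,0)]⟩⟩ ⟨false,0,⟨0,[]⟩,⟨1,[(10,0),(0,0),(21,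
  0)]⟩⟩ ⟨true,0,⟨0,[(0,0)]⟩,⟨0,[(17,0),(12,0)]⟩⟩]⟩))))) (.Q [0,1,0,-1,0,0,1,1,0,0,1] (.p true [0,0,
  1] [] (⟨0,[(16,0)]⟩,⟨0,[(15,0)]⟩) .k 0 (⟨0,[]⟩,⟨0,[]⟩) .k .k) (.Q [0,0,-1,1,0,0,-1,0,0,0,-1] (.p
  false [0,0,1] [] (⟨0,[(17,0)]⟩,⟨0,[(16,0)]⟩) .k 0 (⟨0,[]⟩,⟨0,[]⟩) .k .k) (.R ⟨0,false,false,false,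
  [0,0,1],[0,1],[1,1,1],(⟨0,[(18,0)]⟩,⟨0,[(17,0)]⟩),(⟨0,[(23,0)]⟩,⟨0,[(22,0)]⟩),⟨0,[(7,0)]⟩,.k,.k,
  .k,.k,.k,.k,⟨true,0,⟨0,[(28,0)]⟩,⟨0,[(27,0),(1,0)]⟩⟩,⟨false,1,⟨17,[(0,7),(2,3),(1,4),(19,0),(4,
  11)]⟩,⟨0,[(15,0)]⟩⟩,⟨false,0,⟨0,[(2,0),(12,0)]⟩,⟨0,[(0,0),(0,0),(29,0)]⟩⟩,⟨true,0,⟨0,[(2,0),(26,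
  0)]⟩,⟨0,[(1,0)]⟩⟩,⟨false,0,⟨0,[]⟩,⟨0,[]⟩⟩,⟨false,0,⟨0,[]⟩,⟨0,[]⟩⟩,[.e ⟨false,0,⟨0,[(33,0)]⟩,⟨1,
  [(30,0),(0,0)]⟩⟩ ⟨false,0,⟨0,[(0,0)]⟩,⟨3,[(3,1),(4,0),(0,0),(5,3),(14,0)]⟩⟩,.o ⟨false,1,⟨9,[(8,0),
  (0,0),(15,1),(3,9),(1,4)]⟩,⟨0,[(28,0)]⟩⟩,.o ⟨false,1,⟨9,[(8,0),(0,0),(5,9),(9,1),(4,4)]⟩,⟨0,[(0,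
  0),(26,0),(0,0)]⟩⟩,.a ⟨true,0,⟨0,[(15,0)]⟩,⟨0,[(12,0)]⟩⟩ ⟨false,0,⟨0,[]⟩,⟨1,[(8,0),(0,0),(21,
  0)]⟩⟩ ⟨true,0,⟨0,[(0,0)]⟩,⟨0,[(15,0),(12,0)]⟩⟩]⟩) (.I [1,0,0,0,0,0,0,1] (.R ⟨0,false,false,false,
  [0,0,1],[0,1],[1,1,1],(⟨0,[(19,0)]⟩,⟨0,[(18,0)]⟩),(⟨0,[(24,0)]⟩,⟨0,[(23,0)]⟩),⟨0,[(8,0)]⟩,.k,.k,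
  .k,.k,.k,.k,⟨true,0,⟨0,[(29,0)]⟩,⟨0,[(28,0),(1,0)]⟩⟩,⟨false,1,⟨5,[(6,0),(6,3),(12,0),(4,3)]⟩,⟨0,
  [(16,0)]⟩⟩,⟨false,0,⟨0,[(3,0),(12,0)]⟩,⟨1,[(0,1),(30,0),(0,0)]⟩⟩,⟨true,0,⟨0,[(3,0),(26,0)]⟩,⟨0,
  [(2,0)]⟩⟩,⟨false,0,⟨0,[]⟩,⟨0,[]⟩⟩,⟨false,0,⟨0,[]⟩,⟨0,[]⟩⟩,[.a ⟨true,0,⟨0,[(30,0)]⟩,⟨0,[(1,0),(11,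
  0)]⟩⟩ ⟨false,0,⟨0,[(34,0)]⟩,⟨1,[(31,0),(0,0)]⟩⟩ ⟨true,0,⟨0,[(0,0),(2,0),(26,0)]⟩,⟨0,[(1,0)]⟩⟩,.o
  ⟨false,1,⟨9,[(9,0),(0,0),(15,1),(3,9),(1,4)]⟩,⟨0,[(29,0)]⟩⟩,.o ⟨false,1,⟨9,[(9,0),(0,0),(5,9),(9,
  1),(4,4)]⟩,⟨0,[(0,0),(2,0)]⟩⟩,.e ⟨false,0,⟨0,[]⟩,⟨1,[(9,0),(0,0),(21,0)]⟩⟩ ⟨false,1,⟨5,[(6,0),(6,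
  3),(12,0),(3,5),(0,0),(0,2)]⟩,⟨0,[(1,0)]⟩⟩]⟩) (.Q [0,0,0,-1,0,0,-1,0,0,0,-1] (.p false [0,0,1] []
  (⟨0,[(19,0)]⟩,⟨0,[(18,0)]⟩) .k 0 (⟨0,[]⟩,⟨0,[]⟩) .k .k) (.R ⟨0,false,false,false,[0,1,-1],[0,1],
  [1,1,1],(⟨0,[(9,0)]⟩,⟨0,[(20,0),(3,0)]⟩),(⟨0,[(25,0)]⟩,⟨0,[(24,0)]⟩),⟨0,[(20,0)]⟩,.k,.k,.k,.k,.k,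
  .k,⟨true,0,⟨0,[(30,0)]⟩,⟨0,[(29,0),(1,0)]⟩⟩,⟨false,1,⟨0,[(17,0),(14,0)]⟩,⟨0,[(0,0),(30,0)]⟩⟩,
  ⟨true,0,⟨1,[(0,0),(2,0),(2,0)]⟩,⟨0,[(1,0),(29,0)]⟩⟩,⟨false,1,⟨0,[(15,0),(17,0)]⟩,⟨0,[(4,0)]⟩⟩,
  ⟨false,0,⟨0,[]⟩,⟨0,[]⟩⟩,⟨false,0,⟨0,[]⟩,⟨0,[]⟩⟩,[.a ⟨true,0,⟨0,[(31,0)]⟩,⟨0,[(2,0),(11,0)]⟩⟩
  ⟨false,0,⟨0,[(35,0)]⟩,⟨1,[(32,0),(0,0)]⟩⟩ ⟨true,0,⟨0,[(17,0),(13,0)]⟩,⟨0,[(0,0)]⟩⟩,.o ⟨false,1,⟨9,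
  [(10,0),(0,0),(15,1),(3,9),(1,4)]⟩,⟨0,[(30,0)]⟩⟩,.o ⟨false,1,⟨2,[(7,0),(6,0),(12,0),(4,0)]⟩,⟨0,
  [(17,0)]⟩⟩,.e ⟨false,0,⟨0,[]⟩,⟨1,[(10,0),(0,0),(21,0)]⟩⟩ ⟨false,1,⟨1,[(17,1),(13,1),(0,0),(0,0)]⟩,
  ⟨0,[(0,0)]⟩⟩]⟩) (.Q [0,0,-2,-1,1,0,1,1,0,0,1] (.p true [0,0,1] [] (⟨0,[(20,0)]⟩,⟨0,[(19,0)]⟩) .k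
  0 (⟨0,[]⟩,⟨0,[]⟩) .k .k) (.Q [0,0,1,0,0,0,2,0,0,-1,2] (.p true [0,0,1] [1,0,-1] (⟨0,[(21,0)]⟩,⟨0,
  [(20,0)]⟩) .k 2 (⟨0,[(20,0)]⟩,⟨0,[(21,0)]⟩) .k (.r (-1) ⟨0,[(7,1),(26,0)]⟩ ⟨0,[(2,1)]⟩)) (.Q [0,0,
  0,0,1,0,2,2,0,-1,2] (.p true [0,0,1] [1,0,-1] (⟨0,[(22,0)]⟩,⟨0,[(21,0)]⟩) .k 2 (⟨0,[(21,0)]⟩,⟨0,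
  [(22,0)]⟩) .k (.r (-1) ⟨0,[(8,1),(26,0)]⟩ ⟨0,[(3,1)]⟩)) (.R ⟨0,false,false,false,[0,0,1],[1,0,-1],
  [1],(⟨0,[(23,0)]⟩,⟨0,[(22,0)]⟩),(⟨0,[(22,0)]⟩,⟨0,[(23,0)]⟩),⟨0,[(12,0)]⟩,.k,.k,.k,.k,.k,.k,⟨false,
  1,⟨1,[(0,0),(9,0),(24,0)]⟩,⟨0,[(4,0)]⟩⟩,⟨true,0,⟨0,[(10,0)]⟩,⟨0,[(1,0)]⟩⟩,⟨true,0,⟨0,[(4,0)]⟩,⟨0,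
  [(9,0)]⟩⟩,⟨false,0,⟨0,[(4,0),(2,0),(9,0),(14,0)]⟩,⟨0,[(0,0)]⟩⟩,⟨false,0,⟨0,[]⟩,⟨0,[]⟩⟩,⟨false,0,
  ⟨0,[]⟩,⟨0,[]⟩⟩,[.o ⟨false,0,⟨0,[(7,0)]⟩,⟨49,[(0,24),(12,13),(0,13),(15,4),(5,0),(1,1)]⟩⟩,.a ⟨true,
  0,⟨0,[(4,0),(12,0),(14,0)]⟩,⟨0,[(18,0)]⟩⟩ ⟨false,1,⟨1,[(35,0),(0,0)]⟩,⟨0,[(38,0)]⟩⟩ ⟨true,0,⟨0,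
  [(7,0),(9,0),(14,0)]⟩,⟨0,[(1,0),(7,0)]⟩⟩,.a ⟨true,0,⟨0,[(1,0),(15,0)]⟩,⟨1,[(10,0),(11,0),(0,0)]⟩⟩
  ⟨true,0,⟨0,[]⟩,⟨0,[(38,0)]⟩⟩ ⟨false,0,⟨0,[(7,0),(9,0),(14,0)]⟩,⟨3,[(0,1),(0,1),(11,0),(0,0),(20,
  0)]⟩⟩,.a ⟨true,0,⟨0,[(20,0)]⟩,⟨0,[(17,0)]⟩⟩ ⟨false,1,⟨1,[(35,0),(0,0)]⟩,⟨1,[(20,0),(0,0)]⟩⟩ ⟨true,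
  0,⟨0,[(7,0),(9,0)]⟩,⟨0,[(1,0),(7,0)]⟩⟩]⟩) (.K ⟨0,[0,1,1],0,0,(⟨0,[(23,0),(4,0)]⟩,⟨0,[(11,0)]⟩),.k,
  .k,(.r 0 ⟨0,[(18,0),(2,0),(10,0),(1,1)]⟩ ⟨12,[(0,6),(0,1),(0,9),(1,8),(3,7),(21,0)]⟩),.k,.k,[⟨1,
  [(20,0),(0,0)]⟩,⟨3,[(0,0),(0,0),(0,0),(0,1),(2,0),(25,0)]⟩,⟨34,[(0,9),(4,2),(2,5),(10,14),(1,2),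
  (8,1),(2,19)]⟩,⟨0,[(18,0),(15,0)]⟩]⟩)) (.Q [0,0,0,0,0,0,1,0,0,0,1] (.p true [0,0,1] [] (⟨0,[(22,
  0)]⟩,⟨0,[(21,0)]⟩) .k 0 (⟨0,[]⟩,⟨0,[]⟩) .k .k) (.Q [0,-1,-1,-1,1,0,-1,0,0,0,-1] (.p false [0,0,1]
  [] (⟨0,[(23,0)]⟩,⟨0,[(22,0)]⟩) .k 0 (⟨0,[]⟩,⟨0,[]⟩) .k .k) (.R ⟨0,false,false,true,[0,1,-1],[0,1],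
  [1,0,1],(⟨0,[(13,0)]⟩,⟨0,[(24,0),(3,0)]⟩),(⟨0,[(29,0)]⟩,⟨0,[(28,0)]⟩),⟨0,[(24,0)]⟩,.k,.k,.k,.k,.k,
  .k,⟨false,1,⟨1,[(0,0),(2,0),(1,0),(27,0)]⟩,⟨1,[(4,0),(17,0),(9,0),(2,0)]⟩⟩,⟨true,0,⟨0,[(1,0)]⟩,⟨0,
  [(22,0)]⟩⟩,⟨false,1,⟨1,[(0,0),(6,0),(2,0),(22,0),(3,0)]⟩,⟨0,[(4,0),(3,0)]⟩⟩,⟨true,0,⟨0,[(19,0)]⟩,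
  ⟨0,[(8,0)]⟩⟩,⟨false,0,⟨0,[]⟩,⟨0,[]⟩⟩,⟨false,0,⟨0,[]⟩,⟨0,[]⟩⟩,[.e ⟨false,0,⟨0,[]⟩,⟨1,[(14,0),(0,0),
  (20,0)]⟩⟩ ⟨false,0,⟨0,[(4,0),(34,0)]⟩,⟨0,[(0,0)]⟩⟩,.a ⟨true,0,⟨0,[(35,0)]⟩,⟨0,[(6,0),(11,0)]⟩⟩
  ⟨true,0,⟨0,[(33,0)]⟩,⟨0,[(39,0)]⟩⟩ ⟨false,0,⟨0,[(4,0)]⟩,⟨19,[(9,9),(1,9),(2,0),(0,0),(15,1),(4,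
  4)]⟩⟩,.o ⟨false,1,⟨9,[(2,1),(8,2),(19,2),(4,3)]⟩,⟨0,[(21,0)]⟩⟩,.o ⟨false,1,⟨49,[(11,24),(2,16),(0,
  16),(15,14),(5,2),(1,5)]⟩,⟨0,[(1,0)]⟩⟩]⟩) (.R ⟨0,false,false,true,[0,1,-1],[0,1],[1,0,1],(⟨0,[(13,
  0)]⟩,⟨0,[(24,0),(3,0)]⟩),(⟨0,[(29,0)]⟩,⟨0,[(28,0)]⟩),⟨0,[(24,0)]⟩,.k,.k,.k,.k,.k,.k,⟨false,1,⟨0,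
  [(3,0),(4,0),(24,0)]⟩,⟨1,[(4,0),(17,0),(9,0),(2,0)]⟩⟩,⟨true,0,⟨0,[(1,0)]⟩,⟨0,[(22,0)]⟩⟩,⟨false,1,
  ⟨10,[(2,4),(4,10),(14,0),(8,0),(1,3),(3,8)]⟩,⟨0,[(4,0),(3,0)]⟩⟩,⟨true,0,⟨0,[(19,0)]⟩,⟨0,[(8,0)]⟩⟩,
  ⟨false,0,⟨0,[]⟩,⟨0,[]⟩⟩,⟨false,0,⟨0,[]⟩,⟨0,[]⟩⟩,[.o ⟨false,0,⟨3,[(0,1),(1,0),(28,0),(0,0),(2,1)]⟩,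
  ⟨9,[(6,1),(2,3),(4,0),(0,0),(6,1),(14,4)]⟩⟩,.a ⟨true,0,⟨0,[(35,0)]⟩,⟨0,[(6,0),(11,0)]⟩⟩ ⟨true,0,
  ⟨0,[(33,0)]⟩,⟨0,[(39,0)]⟩⟩ ⟨false,0,⟨0,[(4,0)]⟩,⟨19,[(9,9),(1,9),(2,0),(0,0),(15,1),(4,4)]⟩⟩,.o
  ⟨false,1,⟨9,[(2,1),(8,2),(19,2),(4,3)]⟩,⟨0,[(21,0)]⟩⟩,.o ⟨false,1,⟨49,[(11,24),(2,16),(0,16),(15,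
  14),(5,2),(1,5)]⟩,⟨0,[(1,0)]⟩⟩]⟩)) (.S ⟨1,0,[0,0,0,0,0,0,0,-1],[1,0,-1],[0,1,0,0,0,0,0,-1],(⟨0,
  [(22,0)]⟩,⟨0,[(23,0)]⟩),⟨0,[(11,0)]⟩,.k,.k,⟨true,0,⟨0,[(38,0)]⟩,⟨0,[]⟩⟩,⟨false,1,⟨1,[(13,0),(0,0),
  (21,0)]⟩,⟨0,[]⟩⟩,⟨false,0,⟨0,[(34,0)]⟩,⟨9,[(5,1),(2,3),(4,0),(0,0),(6,1),(14,4)]⟩⟩,⟨true,0,⟨0,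
  [(34,0)]⟩,⟨0,[(33,0)]⟩⟩,[.o ⟨false,0,⟨0,[(7,0)]⟩,⟨9,[(13,0),(0,0),(3,9),(11,1),(5,4)]⟩⟩,.a ⟨true,
  0,⟨0,[(4,0),(12,0),(14,0)]⟩,⟨0,[(18,0)]⟩⟩ ⟨true,0,⟨0,[(4,0)]⟩,⟨0,[(9,0),(22,0)]⟩⟩ ⟨false,1,⟨1,[(4,
  1),(30,0),(0,0)]⟩,⟨0,[(9,0)]⟩⟩,.o ⟨false,0,⟨0,[(0,0)]⟩,⟨74,[(3,49),(4,24),(4,16),(0,16),(5,24),(9,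
  14),(5,2),(1,5)]⟩⟩,.o ⟨false,0,⟨0,[(21,0)]⟩,⟨9,[(2,2),(0,6),(0,2),(3,1),(21,1),(4,0)]⟩⟩]⟩))) (.Q
  [0,0,2,0,-1,0,1,0,0,1,1] (.p true [1,-1,1] [] (⟨0,[(21,0),(3,0)]⟩,⟨0,[(10,0)]⟩) .k 0 (⟨0,[]⟩,⟨0,
  []⟩) .k .k) (.Q [0,1,0,1,0,0,-1,-1,0,-1,-1] (.p false [1,-1,1] [] (⟨0,[(22,0),(3,0)]⟩,⟨0,[(11,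
  0)]⟩) .k 0 (⟨0,[]⟩,⟨0,[]⟩) .k .k) (.K ⟨0,[1,-1,1],(-1),0,(⟨0,[(23,0),(3,0)]⟩,⟨0,[(12,0)]⟩),.k,(.r
  (-2) ⟨1,[(8,1),(0,1),(25,0),(0,0)]⟩ ⟨0,[(2,0),(0,0)]⟩),.k,.k,.k,[⟨9,[(13,0),(0,0),(15,1),(4,4)]⟩,
  ⟨0,[(1,0)]⟩,⟨0,[(0,0)]⟩,⟨1,[(1,0),(6,0),(8,0),(0,1)]⟩]⟩) (.K ⟨0,[0,1,-1],0,0,(⟨0,[(12,0)]⟩,⟨0,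
  [(23,0),(3,0)]⟩),.k,.k,(.r 1 ⟨0,[(2,0),(0,0)]⟩ ⟨1,[(8,1),(0,1),(25,0),(0,0)]⟩),(.r 0 ⟨2,[(2,0),(0,
  1),(0,2),(14,1),(0,0),(15,0)]⟩ ⟨2,[(0,2),(8,2),(0,0),(6,0),(12,0),(4,0)]⟩),.k,[⟨0,[(3,0),(1,0)]⟩,
  ⟨2,[(0,1),(1,1),(14,2),(12,0),(0,0)]⟩,⟨0,[(6,0)]⟩,⟨0,[(19,0),(14,0)]⟩]⟩)) (.K ⟨0,[0,1,-1],0,0,(⟨0,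
  [(11,0)]⟩,⟨0,[(22,0),(3,0)]⟩),.k,.k,(.r 1 ⟨0,[(1,0),(0,0)]⟩ ⟨1,[(7,1),(0,1),(25,0),(0,0)]⟩),(.r 0
  ⟨2,[(1,0),(0,1),(0,2),(14,1),(0,0),(15,0)]⟩ ⟨0,[(0,0),(4,0),(10,0),(0,0),(13,1)]⟩),.k,[⟨0,[(2,0),
  (1,0)]⟩,⟨1,[(0,0),(0,0),(3,0),(10,0),(14,0)]⟩,⟨0,[(5,0)]⟩,⟨0,[(18,0),(14,0)]⟩]⟩)))))) (.Q [0,0,2,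
  0,-1,0,1,0,0,1,1] (.p true [1,-1,1] [] (⟨0,[(17,0),(3,0)]⟩,⟨0,[(6,0)]⟩) .k 0 (⟨0,[]⟩,⟨0,[]⟩) .k
  .k) (.I [0,0,2,2,-1,0,0,-1] (.Q [0,1,0,1,0,0,-1,-1,0,-1,-1] (.p false [1,-1,1] [] (⟨0,[(19,0),(3,
  0)]⟩,⟨0,[(8,0)]⟩) .k 0 (⟨0,[]⟩,⟨0,[]⟩) .k .k) (.K ⟨0,[1,-1,1],(-1),0,(⟨0,[(20,0),(3,0)]⟩,⟨0,[(9,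
  0)]⟩),.k,(.r (-2) ⟨1,[(5,1),(0,1),(25,0),(0,0)]⟩ ⟨0,[(1,0)]⟩),.k,.k,.k,[⟨9,[(10,0),(0,0),(15,1),
  (4,4)]⟩,⟨0,[(2,0)]⟩,⟨0,[(0,0)]⟩,⟨1,[(2,0),(2,0),(8,0),(0,1)]⟩]⟩) (.R ⟨1,true,true,true,[1,-1,1],
  [],[0,1,-1,-1,0,0,0,1],(⟨0,[(20,0),(3,0)]⟩,⟨0,[(9,0)]⟩),(⟨0,[]⟩,⟨0,[]⟩),⟨0,[(0,0),(2,0),(16,0),(0,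
  1),(13,1)]⟩,.k,.k,(.r (-2) ⟨1,[(5,1),(0,1),(25,0),(0,0)]⟩ ⟨0,[(1,0)]⟩),.k,(.r (-2) ⟨1,[(5,1),(0,
  1),(25,0),(0,0)]⟩ ⟨0,[(1,0)]⟩),.k,⟨false,1,⟨1,[(0,2),(2,0),(10,1),(12,0),(0,1)]⟩,⟨3,[(1,1),(14,1),
  (0,1),(14,0),(0,0)]⟩⟩,⟨true,1,⟨2,[(7,0),(6,0),(12,0),(4,0)]⟩,⟨0,[(2,0)]⟩⟩,⟨true,0,⟨0,[(35,0)]⟩,⟨0,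
  []⟩⟩,⟨false,1,⟨29,[(1,9),(1,9),(3,4),(2,15),(0,15),(4,9),(10,6),(4,9)]⟩,⟨0,[(0,0)]⟩⟩,⟨false,0,⟨0,
  [(31,0)]⟩,⟨3,[(5,1),(11,0),(0,0),(14,1)]⟩⟩,⟨true,0,⟨4,[(1,1),(1,4),(2,1),(20,0),(0,3),(2,0)]⟩,⟨0,
  [(0,0),(29,0)]⟩⟩,[]⟩)) (.Q [0,0,0,0,0,0,-1,0,0,0,-1] (.p false [0,0,1] [] (⟨0,[(19,0)]⟩,⟨0,[(18,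
  0)]⟩) .k 0 (⟨0,[]⟩,⟨0,[]⟩) .k .k) (.R ⟨2,false,false,false,[0,1],[0,1,-1],[1],(⟨0,[]⟩,⟨0,[]⟩),(⟨0,
  [(9,0)]⟩,⟨0,[(20,0),(3,0)]⟩),⟨0,[]⟩,.k,.k,.k,.k,.k,.k,⟨false,1,⟨0,[(1,0),(29,0)]⟩,⟨1,[(3,0),(12,
  0),(0,1),(13,0)]⟩⟩,⟨true,0,⟨0,[(0,0)]⟩,⟨0,[(17,0)]⟩⟩,⟨false,1,⟨0,[(1,0),(1,0),(13,0)]⟩,⟨1,[(17,0),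
  (0,0),(12,1)]⟩⟩,⟨true,0,⟨0,[(4,0)]⟩,⟨0,[(15,0)]⟩⟩,⟨false,1,⟨1,[(32,0),(0,0)]⟩,⟨1,[(17,0),(0,0)]⟩⟩,
  ⟨false,0,⟨0,[(3,0)]⟩,⟨3,[(5,1),(9,3),(1,0),(0,0),(14,1)]⟩⟩,[.a ⟨true,0,⟨1,[(3,0),(12,0),(14,0)]⟩,
  ⟨0,[(1,0),(0,0),(28,0)]⟩⟩ ⟨true,0,⟨0,[]⟩,⟨1,[(17,0),(0,0)]⟩⟩ ⟨false,0,⟨1,[(3,0),(12,0),(14,0)]⟩,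
  ⟨3,[(1,1),(13,1),(1,1),(14,0),(0,0)]⟩⟩,.e ⟨false,1,⟨1,[(32,0),(0,0)]⟩,⟨0,[(35,0)]⟩⟩ ⟨false,0,⟨0,
  [(3,0)]⟩,⟨3,[(5,1),(4,0),(0,0),(3,3),(16,0)]⟩⟩,.o ⟨false,1,⟨9,[(10,0),(0,0),(15,1),(4,4)]⟩,⟨1,
  [(17,0),(0,0)]⟩⟩,.fo]⟩) (.K ⟨0,[0,1,1],0,0,(⟨0,[(20,0),(4,0)]⟩,⟨0,[(8,0)]⟩),.k,.k,(.r 0 ⟨0,[(15,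
  0),(2,0),(10,0),(1,1)]⟩ ⟨0,[(0,1),(0,0),(2,1)]⟩),.k,.k,[⟨1,[(17,0),(0,0)]⟩,⟨0,[(0,0)]⟩,⟨0,[(4,0),
  (25,0)]⟩,⟨0,[(15,0),(15,0)]⟩]⟩))) (.I [1,-1,-1,-2,1,0,0,1] (.Q [0,0,0,-1,0,0,1,1,0,1,1] (.p true
  [1,-1,1] [] (⟨0,[(19,0),(3,0)]⟩,⟨0,[(8,0)]⟩) .k 0 (⟨0,[]⟩,⟨0,[]⟩) .k .k) (.Q [0,0,0,0,0,0,-1,0,0,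
  0,-1] (.p false [0,0,1] [] (⟨0,[(20,0)]⟩,⟨0,[(19,0)]⟩) .k 0 (⟨0,[]⟩,⟨0,[]⟩) .k .k) (.R ⟨2,false,
  false,false,[0,1],[0,1,-1],[0,1],(⟨0,[]⟩,⟨0,[]⟩),(⟨0,[(10,0)]⟩,⟨0,[(21,0),(3,0)]⟩),⟨0,[]⟩,.k,.k,
  .k,.k,.k,.k,⟨false,1,⟨1,[(2,0),(4,0),(21,0),(3,0)]⟩,⟨0,[(4,0),(13,0)]⟩⟩,⟨true,0,⟨0,[(0,0)]⟩,⟨0,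
  [(18,0)]⟩⟩,⟨false,1,⟨3,[(6,1),(4,0),(0,0),(20,0)]⟩,⟨0,[(30,0),(1,0)]⟩⟩,⟨true,0,⟨0,[(5,0)]⟩,⟨0,
  [(16,0)]⟩⟩,⟨false,1,⟨1,[(11,0),(0,0),(20,0)]⟩,⟨0,[(30,0)]⟩⟩,⟨false,0,⟨0,[(4,0)]⟩,⟨16,[(1,14),(4,
  0),(4,8),(0,8),(3,1),(11,2),(5,0),(0,0)]⟩⟩,[.a ⟨true,0,⟨1,[(4,0),(12,0),(14,0)]⟩,⟨0,[(1,0)]⟩⟩
  ⟨true,0,⟨0,[(36,0)]⟩,⟨0,[(30,0)]⟩⟩ ⟨false,0,⟨1,[(4,0),(12,0),(14,0)]⟩,⟨6,[(1,4),(4,0),(9,1),(11,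
  0),(4,2),(0,0)]⟩⟩,.e ⟨false,1,⟨1,[(11,0),(0,0),(20,0)]⟩,⟨0,[]⟩⟩ ⟨false,0,⟨0,[(4,0)]⟩,⟨3,[(6,1),(4,
  0),(0,0),(3,3),(16,0)]⟩⟩,.o ⟨false,1,⟨9,[(11,0),(0,0),(15,1),(4,4)]⟩,⟨1,[(18,0),(0,0)]⟩⟩,.fo]⟩)
  (.S ⟨1,0,[0,1,0,0,0,0,0,-1],[1,0,-1],[0,0,0,0,0,0,0,-1],(⟨0,[(20,0)]⟩,⟨0,[(21,0)]⟩),⟨0,[(9,0)]⟩,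
  .k,.k,⟨false,1,⟨1,[(11,0),(0,0),(21,0)]⟩,⟨0,[]⟩⟩,⟨true,0,⟨0,[(36,0)]⟩,⟨0,[]⟩⟩,⟨true,0,⟨0,[(32,
  0)]⟩,⟨0,[(31,0)]⟩⟩,⟨false,0,⟨0,[(32,0)]⟩,⟨3,[(6,1),(11,0),(0,0),(14,1)]⟩⟩,[.o ⟨false,0,⟨0,[(17,
  0)]⟩,⟨0,[(0,0),(2,0),(12,0),(13,1)]⟩⟩,.o ⟨false,0,⟨0,[(5,0)]⟩,⟨9,[(11,0),(0,0),(3,9),(11,1),(5,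
  4)]⟩⟩,.a ⟨true,0,⟨1,[(8,0),(11,0),(0,0)]⟩,⟨0,[(0,0)]⟩⟩ ⟨true,0,⟨0,[(0,0),(4,0)]⟩,⟨0,[(7,0)]⟩⟩
  ⟨false,0,⟨0,[(0,0),(4,0)]⟩,⟨0,[(7,0),(26,0)]⟩⟩,.o ⟨false,0,⟨0,[(19,0)]⟩,⟨4,[(0,3),(17,0),(9,0),(4,
  2)]⟩⟩]⟩)) (.I [1,0,0,-1,0,0,0,1] (.Q [0,1,0,-1,0,0,1,1,0,1,1] (.p true [1,-1,1] [] (⟨0,[(21,0),(3,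
  0)]⟩,⟨0,[(10,0)]⟩) .k 0 (⟨0,[]⟩,⟨0,[]⟩) .k .k) (.R ⟨2,false,false,false,[0,1],[0,1,-1],[1,1],(⟨0,
  []⟩,⟨0,[]⟩),(⟨0,[(11,0)]⟩,⟨0,[(22,0),(3,0)]⟩),⟨0,[]⟩,.k,.k,.k,.k,.k,.k,⟨false,1,⟨0,[(0,0),(3,0)]⟩,
  ⟨0,[(5,0),(13,0)]⟩⟩,⟨true,0,⟨2,[(1,0),(0,0),(6,0)]⟩,⟨0,[(19,0)]⟩⟩,⟨false,1,⟨3,[(7,1),(4,0),(0,0),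
  (20,0)]⟩,⟨0,[(31,0),(1,0)]⟩⟩,⟨true,0,⟨0,[(6,0)]⟩,⟨0,[(17,0)]⟩⟩,⟨false,1,⟨1,[(12,0),(0,0),(20,0)]⟩,
  ⟨0,[(1,0),(3,0),(13,0)]⟩⟩,⟨false,0,⟨0,[(5,0)]⟩,⟨9,[(0,9),(11,0),(0,0),(15,1),(5,4)]⟩⟩,[.o ⟨false,
  0,⟨0,[(2,0)]⟩,⟨9,[(0,9),(11,0),(0,0),(15,1),(5,4)]⟩⟩,.a ⟨true,0,⟨0,[(5,0)]⟩,⟨0,[(0,0)]⟩⟩ ⟨true,0,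
  ⟨0,[]⟩,⟨1,[(19,0),(0,0)]⟩⟩ ⟨false,0,⟨0,[(5,0)]⟩,⟨9,[(0,9),(11,0),(0,0),(15,1),(4,4)]⟩⟩,.o ⟨false,
  1,⟨9,[(12,0),(0,0),(15,1),(4,4)]⟩,⟨1,[(19,0),(0,0)]⟩⟩,.fo]⟩) (.Q [0,-1,0,0,0,0,-1,-1,0,1,-1] (.p
  false [0,0,1] [1] (⟨0,[(22,0)]⟩,⟨0,[(21,0)]⟩) .k 1 (⟨0,[]⟩,⟨0,[]⟩) .k .k) (.R ⟨0,false,false,true,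
  [0,1,-1],[0,0,1],[0,1,1,1,0,0,0,-1],(⟨0,[(12,0)]⟩,⟨0,[(23,0),(3,0)]⟩),(⟨0,[(23,0)]⟩,⟨0,[(22,0)]⟩),
  ⟨0,[(23,0)]⟩,.k,.k,.k,(.r 0 ⟨0,[(0,0),(0,0),(18,1),(10,0)]⟩ ⟨3,[(2,1),(1,0),(0,0),(3,2),(7,0),(0,
  1),(17,1)]⟩),.k,.k,⟨true,0,⟨0,[(0,0),(0,0),(18,1),(10,0)]⟩,⟨0,[(2,1),(31,0)]⟩⟩,⟨false,1,⟨0,[(20,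
  1),(14,0)]⟩,⟨0,[(2,0),(0,0),(13,0)]⟩⟩,⟨true,0,⟨0,[(38,0)]⟩,⟨0,[]⟩⟩,⟨false,1,⟨1,[(4,0),(13,2),(1,
  0),(15,0)]⟩,⟨1,[(0,0),(0,0),(4,0),(12,0)]⟩⟩,⟨false,0,⟨0,[]⟩,⟨0,[]⟩⟩,⟨false,0,⟨0,[]⟩,⟨0,[]⟩⟩,[.a
  ⟨true,0,⟨0,[(18,0)]⟩,⟨0,[(0,0)]⟩⟩ ⟨false,0,⟨0,[(6,0),(13,0),(10,0)]⟩,⟨0,[(4,0),(29,0)]⟩⟩ ⟨true,0,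
  ⟨0,[(18,0),(1,0)]⟩,⟨4,[(0,1),(0,2),(0,2),(4,2),(2,0)]⟩⟩,.o ⟨false,1,⟨9,[(13,0),(0,0),(3,9),(11,1),
  (5,4)]⟩,⟨0,[(7,0)]⟩⟩,.o ⟨false,1,⟨11,[(5,1),(4,4),(19,2),(4,3)]⟩,⟨0,[(20,0)]⟩⟩,.o ⟨false,0,⟨0,[(2,
  0),(0,0)]⟩,⟨1,[(13,0),(0,0),(5,1),(14,0)]⟩⟩]⟩) (.Q [0,-1,0,-1,1,0,2,2,0,0,2] (.p true [0,0,1] [0,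
  1,-1] (⟨0,[(23,0)]⟩,⟨0,[(22,0)]⟩) .k 2 (⟨0,[(12,0)]⟩,⟨0,[(23,0),(3,0)]⟩) .k (.r 0 ⟨0,[(2,1),(31,
  1)]⟩ ⟨0,[(7,1),(12,1),(14,0)]⟩)) (.R ⟨0,false,false,true,[0,0,1],[0,1,-1],[1,0,1],(⟨0,[(24,0)]⟩,
  ⟨0,[(23,0)]⟩),(⟨0,[(13,0)]⟩,⟨0,[(24,0),(3,0)]⟩),⟨0,[(13,0)]⟩,.k,.k,.k,(.x (-1) ⟨9,[(13,9),(0,0),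
  (0,0),(5,19),(1,9),(7,1),(4,4)]⟩ ⟨15,[(2,19),(0,19),(7,2),(6,5),(5,31),(0,4),(2,10),(3,9)]⟩),.k,
  .k,⟨false,1,⟨20,[(0,7),(1,2),(2,7),(0,3),(4,1),(6,4),(18,0)]⟩,⟨0,[(7,0),(13,0),(10,0)]⟩⟩,⟨true,0,
  ⟨0,[(3,0),(0,0),(13,0)]⟩,⟨0,[(21,1)]⟩⟩,⟨true,0,⟨0,[(8,0),(12,0)]⟩,⟨0,[(1,0),(16,0)]⟩⟩,⟨false,0,⟨0,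
  [(7,0),(12,0)]⟩,⟨0,[(0,0)]⟩⟩,⟨false,0,⟨0,[]⟩,⟨0,[]⟩⟩,⟨false,0,⟨0,[]⟩,⟨0,[]⟩⟩,[.o ⟨false,0,⟨0,[(4,
  0),(34,0)]⟩,⟨7,[(0,3),(8,1),(11,0),(0,0),(14,1)]⟩⟩,.o ⟨false,0,⟨0,[(4,0)]⟩,⟨1,[(0,0),(13,0),(0,0),
  (18,0)]⟩⟩,.o ⟨false,1,⟨9,[(14,0),(0,0),(5,9),(9,1),(4,4)]⟩,⟨2,[(3,0),(0,0),(6,0)]⟩⟩,.a ⟨true,0,⟨0,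
  [(21,0)]⟩,⟨0,[(18,0)]⟩⟩ ⟨true,0,⟨0,[]⟩,⟨0,[(39,0)]⟩⟩ ⟨false,0,⟨0,[(4,0),(13,0)]⟩,⟨7,[(0,3),(8,1),
  (11,8),(0,0),(14,1)]⟩⟩]⟩) (.R ⟨0,false,false,true,[0,0,1],[0,1,-1],[0,1,1,1,0,0,0,-1],(⟨0,[(24,
  0)]⟩,⟨0,[(23,0)]⟩),(⟨0,[(13,0)]⟩,⟨0,[(24,0),(3,0)]⟩),⟨0,[(13,0)]⟩,.k,.k,.k,(.r (-1) ⟨3,[(3,1),(1,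
  0),(0,0),(3,2),(7,0),(0,1),(17,1)]⟩ ⟨6,[(0,3),(6,4),(1,0),(10,0),(0,13),(14,2)]⟩),.k,.k,⟨false,1,
  ⟨1,[(14,0),(0,0),(20,0)]⟩,⟨0,[]⟩⟩,⟨true,0,⟨12,[(0,2),(1,5),(0,8),(2,2),(3,2),(0,1),(6,6)]⟩,⟨0,
  [(21,1)]⟩⟩,⟨false,0,⟨6,[(0,3),(6,4),(1,0),(10,0),(0,13),(14,2)]⟩,⟨0,[(3,0),(1,0),(29,1)]⟩⟩,⟨true,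
  (-1),⟨0,[(0,0)]⟩,⟨1,[(5,0),(13,2),(1,0),(15,0)]⟩⟩,⟨false,0,⟨0,[]⟩,⟨0,[]⟩⟩,⟨false,0,⟨0,[]⟩,⟨0,[]⟩⟩,
  [.o ⟨false,0,⟨4,[(0,1),(19,0),(10,0),(3,2),(3,1)]⟩,⟨1,[(5,0),(13,0),(1,0),(15,0)]⟩⟩,.o ⟨false,0,
  ⟨0,[(4,0)]⟩,⟨3,[(9,1),(9,3),(1,0),(0,0),(14,1)]⟩⟩,.o ⟨false,1,⟨9,[(14,0),(0,0),(5,9),(9,1),(4,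
  4)]⟩,⟨25,[(0,1),(1,3),(0,5),(6,1),(0,8),(19,0)]⟩⟩,.a ⟨true,0,⟨0,[(21,0)]⟩,⟨0,[(18,0)]⟩⟩ ⟨true,0,
  ⟨4,[(0,1),(19,0),(0,4),(10,0),(2,2),(0,1)]⟩,⟨0,[(3,0)]⟩⟩ ⟨false,0,⟨5,[(0,1),(1,0),(3,1),(0,0),(3,
  0),(6,1),(16,1)]⟩,⟨1,[(5,0),(13,0),(1,2),(15,0)]⟩⟩]⟩)))) (.Q [0,0,0,0,0,0,-1,0,0,0,-1] (.p false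
  [0,0,1] [] (⟨0,[(21,0)]⟩,⟨0,[(20,0)]⟩) .k 0 (⟨0,[]⟩,⟨0,[]⟩) .k .k) (.R ⟨2,true,false,true,[0,1],
  [0,0,1],[0,1,1,1],(⟨0,[]⟩,⟨0,[]⟩),(⟨0,[(22,0)]⟩,⟨0,[(21,0)]⟩),⟨0,[]⟩,.k,.k,.k,.k,.k,.k,⟨false,0,
  ⟨0,[(1,0)]⟩,⟨3,[(3,0),(3,0),(0,2),(25,0),(0,0)]⟩⟩,⟨true,0,⟨0,[(19,0)]⟩,⟨0,[(0,0)]⟩⟩,⟨true,0,⟨0,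
  [(37,0)]⟩,⟨0,[]⟩⟩,⟨false,1,⟨3,[(7,1),(9,3),(1,0),(0,0),(14,1)]⟩,⟨0,[(5,0)]⟩⟩,⟨false,0,⟨0,[(33,
  0)]⟩,⟨3,[(7,1),(11,0),(0,0),(14,1)]⟩⟩,⟨true,0,⟨0,[(17,0)]⟩,⟨0,[(6,0)]⟩⟩,[]⟩) (.K ⟨0,[0,1,1],0,0,
  (⟨0,[(22,0),(4,0)]⟩,⟨0,[(10,0)]⟩),.k,.k,(.r 0 ⟨0,[(17,0),(2,0),(10,0),(1,1)]⟩ ⟨0,[(0,2),(1,0),(0,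
  0),(2,0),(9,0),(15,0)]⟩),.k,.k,[⟨1,[(19,0),(0,0)]⟩,⟨0,[(0,0)]⟩,⟨0,[(6,0),(25,0)]⟩,⟨0,[(17,0),(15,
  0)]⟩]⟩)))) (.Q [0,0,0,0,0,0,-1,0,0,0,-1] (.p false [0,0,1] [] (⟨0,[(19,0)]⟩,⟨0,[(18,0)]⟩) .k 0
  (⟨0,[]⟩,⟨0,[]⟩) .k .k) (.I [0,0,0,1,0,0,0,-1] (.R ⟨2,true,false,true,[0,1],[0,0,1],[0,1,1,1],(⟨0,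
  []⟩,⟨0,[]⟩),(⟨0,[(21,0)]⟩,⟨0,[(20,0)]⟩),⟨0,[]⟩,.k,.k,.k,.k,.k,.k,⟨false,0,⟨0,[(0,0)]⟩,⟨1,[(3,0),
  (2,0),(8,0),(0,1),(13,1)]⟩⟩,⟨true,0,⟨0,[(18,0)]⟩,⟨0,[(1,0)]⟩⟩,⟨true,0,⟨0,[(36,0)]⟩,⟨0,[]⟩⟩,⟨false,
  1,⟨3,[(6,1),(9,3),(1,0),(0,0),(14,1)]⟩,⟨0,[(4,0)]⟩⟩,⟨false,0,⟨0,[(32,0)]⟩,⟨3,[(6,1),(11,0),(0,0),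
  (14,1)]⟩⟩,⟨true,0,⟨0,[(16,0)]⟩,⟨0,[(5,0)]⟩⟩,[]⟩) (.Q [0,0,0,-1,0,0,0,0,0,1] (.pp false [-1,1])
  (.R ⟨0,false,false,true,[0,0,1],[0,1],[0,0,1],(⟨0,[(22,0)]⟩,⟨0,[(21,0)]⟩),(⟨0,[(27,0)]⟩,⟨0,[(26,
  0)]⟩),⟨0,[(11,0)]⟩,.k,.k,.k,.k,.k,.k,⟨true,1,⟨3,[(7,1),(11,0),(0,0),(14,1)]⟩,⟨0,[(1,0),(1,0)]⟩⟩,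
  ⟨false,1,⟨2,[(4,0),(4,0),(24,1)]⟩,⟨0,[(19,0)]⟩⟩,⟨true,0,⟨0,[(6,0),(12,0)]⟩,⟨0,[(1,1),(1,0),(30,
  0)]⟩⟩,⟨false,0,⟨39,[(3,9),(1,19),(3,4),(2,2),(0,2),(4,9),(10,0),(4,4)]⟩,⟨1,[(1,1),(17,1),(14,0),
  (0,0)]⟩⟩,⟨false,0,⟨0,[]⟩,⟨0,[]⟩⟩,⟨false,0,⟨0,[]⟩,⟨0,[]⟩⟩,[.o ⟨false,0,⟨6,[(1,0),(1,3),(0,1),(3,0),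
  (8,1),(11,0)]⟩,⟨3,[(7,1),(11,0),(0,0),(14,1)]⟩⟩,.a ⟨true,0,⟨0,[(33,0)]⟩,⟨0,[(0,0)]⟩⟩ ⟨true,0,⟨0,
  [(1,0),(3,0),(13,0)]⟩,⟨0,[(37,0)]⟩⟩ ⟨false,0,⟨0,[(1,1),(1,0),(1,0),(28,0)]⟩,⟨3,[(7,1),(4,0),(0,0),
  (5,3),(14,0)]⟩⟩,.o ⟨false,1,⟨9,[(12,0),(0,0),(5,9),(9,1),(4,4)]⟩,⟨0,[(2,0)]⟩⟩,.e ⟨false,1,⟨1,[(12,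
  0),(0,0),(21,0)]⟩,⟨0,[]⟩⟩ ⟨false,0,⟨0,[(1,1),(1,0),(1,0),(28,0)]⟩,⟨3,[(7,1),(11,4),(0,0),(14,
  1)]⟩⟩]⟩) (.R ⟨0,false,false,true,[0,0,1],[0,1],[1,0,1],(⟨0,[(22,0)]⟩,⟨0,[(21,0)]⟩),(⟨0,[(27,0)]⟩,
  ⟨0,[(26,0)]⟩),⟨0,[(11,0)]⟩,.k,.k,.k,.k,.k,.k,⟨true,1,⟨3,[(7,1),(11,0),(0,0),(14,1)]⟩,⟨0,[(1,0),(1,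
  0)]⟩⟩,⟨false,1,⟨2,[(4,0),(4,0),(24,1)]⟩,⟨0,[(19,0)]⟩⟩,⟨true,0,⟨0,[(6,0),(12,0)]⟩,⟨0,[(1,1),(1,0),
  (30,0)]⟩⟩,⟨false,0,⟨39,[(3,9),(1,19),(3,4),(2,2),(0,2),(4,9),(10,0),(4,4)]⟩,⟨1,[(1,1),(17,1),(14,
  0),(0,0)]⟩⟩,⟨false,0,⟨0,[]⟩,⟨0,[]⟩⟩,⟨false,0,⟨0,[]⟩,⟨0,[]⟩⟩,[.o ⟨false,0,⟨7,[(0,2),(2,1),(4,1),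
  (20,0),(0,1),(2,0)]⟩,⟨3,[(7,1),(11,0),(0,0),(14,1)]⟩⟩,.o ⟨false,0,⟨0,[(0,0)]⟩,⟨3,[(7,1),(4,1),(0,
  1),(5,0),(0,0)]⟩⟩,.o ⟨false,1,⟨9,[(12,0),(0,0),(5,9),(9,1),(4,4)]⟩,⟨0,[(2,0)]⟩⟩,.a ⟨true,0,⟨0,
  [(19,0)]⟩,⟨0,[(16,0)]⟩⟩ ⟨true,0,⟨0,[]⟩,⟨0,[(37,0)]⟩⟩ ⟨false,0,⟨0,[(0,0),(15,0)]⟩,⟨3,[(7,1),(11,4),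
  (0,0),(14,1)]⟩⟩]⟩))) (.S ⟨1,0,[0,1,0,0,0,0,0,-1],[1,0,-1],[0,0,0,0,0,0,0,-1],(⟨0,[(19,0)]⟩,⟨0,
  [(20,0)]⟩),⟨0,[(8,0)]⟩,.k,.k,⟨false,1,⟨1,[(10,0),(0,0),(21,0)]⟩,⟨0,[]⟩⟩,⟨true,0,⟨0,[(35,0)]⟩,⟨0,
  []⟩⟩,⟨true,0,⟨0,[(31,0)]⟩,⟨0,[(30,0)]⟩⟩,⟨false,0,⟨0,[(31,0)]⟩,⟨3,[(5,1),(11,0),(0,0),(14,1)]⟩⟩,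
  [.o ⟨false,0,⟨0,[(16,0)]⟩,⟨0,[(0,0),(1,0),(12,0),(13,1)]⟩⟩,.o ⟨false,0,⟨0,[(4,0)]⟩,⟨9,[(10,0),(0,
  0),(3,9),(11,1),(5,4)]⟩⟩,.a ⟨true,0,⟨1,[(7,0),(11,0),(0,0)]⟩,⟨0,[(0,0)]⟩⟩ ⟨true,0,⟨0,[(0,0),(3,
  0)]⟩,⟨0,[(6,0)]⟩⟩ ⟨false,0,⟨0,[(0,0),(3,0)]⟩,⟨0,[(6,0),(26,0)]⟩⟩,.o ⟨false,0,⟨0,[(18,0)]⟩,⟨4,[(0,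
  3),(16,0),(9,0),(4,2)]⟩⟩]⟩))))))) (.Q [0,-1,0,-1,0,0,0,0,0,1] (.pp false [-1,1]) (.Q [0,1,0,-1,0,
  0,-1,-1,0,0,-1] (.p false [0,0,1] [] (⟨0,[(15,0)]⟩,⟨0,[(14,0)]⟩) .k 0 (⟨0,[]⟩,⟨0,[]⟩) .k .k) (.K
  ⟨0,[0,1,1],0,0,(⟨0,[(16,0),(4,0)]⟩,⟨0,[(4,0)]⟩),.k,.k,(.r 0 ⟨0,[(11,0),(2,0),(10,0),(1,1)]⟩ ⟨1,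
  [(1,3),(0,2),(7,0),(0,0),(11,0),(0,2)]⟩),.k,.k,[⟨1,[(13,0),(0,0)]⟩,⟨0,[(2,0),(8,0)]⟩,⟨0,[(0,0)]⟩,
  ⟨0,[(11,0),(15,0)]⟩]⟩) (.R ⟨0,false,false,false,[0,1,-1],[0,1],[1],(⟨0,[(5,0)]⟩,⟨0,[(16,0),(3,
  0)]⟩),(⟨0,[(21,0)]⟩,⟨0,[(20,0)]⟩),⟨0,[(16,0)]⟩,.k,.k,.k,.k,.k,.k,⟨false,1,⟨2,[(0,0),(0,3),(0,0),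
  (7,0),(12,0),(0,2),(3,0)]⟩,⟨1,[(13,0),(0,0),(12,1)]⟩⟩,⟨true,0,⟨0,[(2,0),(8,0)]⟩,⟨0,[(14,0)]⟩⟩,
  ⟨false,1,⟨8,[(0,2),(0,11),(1,0),(6,6),(0,5),(11,3),(4,0)]⟩,⟨3,[(2,1),(9,1),(0,2),(0,0),(12,3)]⟩⟩,
  ⟨true,0,⟨0,[(0,0),(25,0)]⟩,⟨0,[(12,0)]⟩⟩,⟨false,0,⟨0,[]⟩,⟨0,[]⟩⟩,⟨false,0,⟨0,[]⟩,⟨0,[]⟩⟩,[.a
  ⟨true,0,⟨0,[(27,0)]⟩,⟨5,[(1,4),(1,0),(9,1),(10,1),(1,0)]⟩⟩ ⟨true,0,⟨0,[]⟩,⟨1,[(13,0),(0,0)]⟩⟩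
  ⟨false,0,⟨1,[(0,0),(1,0),(10,0),(10,0),(2,0)]⟩,⟨5,[(1,1),(1,2),(19,0),(2,3),(1,2),(0,0)]⟩⟩,.o
  ⟨false,1,⟨9,[(6,0),(0,0),(15,1),(3,9),(1,4)]⟩,⟨0,[(26,0)]⟩⟩,.o ⟨false,1,⟨2,[(3,0),(6,0),(12,0),(4,
  0)]⟩,⟨0,[(13,0)]⟩⟩,.o ⟨false,1,⟨49,[(3,24),(2,16),(0,16),(15,14),(5,2),(1,5)]⟩,⟨0,[(2,0),(8,
  0)]⟩⟩]⟩)) (.R ⟨0,false,false,true,[0,1,-1],[0,1],[0,1,1],(⟨0,[(4,0)]⟩,⟨0,[(15,0),(3,0)]⟩),(⟨0,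
  [(20,0)]⟩,⟨0,[(19,0)]⟩),⟨0,[(15,0)]⟩,.k,.k,.k,.k,.k,.k,⟨false,1,⟨1,[(25,1),(1,0),(0,0)]⟩,⟨0,[(26,
  0)]⟩⟩,⟨true,0,⟨0,[(1,0),(8,0)]⟩,⟨0,[(13,0)]⟩⟩,⟨false,1,⟨5,[(2,0),(6,3),(0,5),(11,0),(1,3),(0,5),
  (2,3)]⟩,⟨0,[(1,0),(24,0)]⟩⟩,⟨true,0,⟨0,[(10,0)]⟩,⟨1,[(0,0),(0,1),(0,0),(22,0)]⟩⟩,⟨false,0,⟨0,[]⟩,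
  ⟨0,[]⟩⟩,⟨false,0,⟨0,[]⟩,⟨0,[]⟩⟩,[.o ⟨false,0,⟨0,[(0,0)]⟩,⟨0,[(25,0),(2,0)]⟩⟩,.a ⟨true,0,⟨0,[(26,
  0)]⟩,⟨0,[(1,0),(7,0),(0,0),(13,0),(0,0)]⟩⟩ ⟨true,0,⟨1,[(12,0),(0,0)]⟩,⟨0,[]⟩⟩ ⟨false,0,⟨0,[(1,0),
  (8,0),(15,0)]⟩,⟨5,[(2,0),(6,3),(12,0),(2,5),(1,0),(0,2)]⟩⟩,.o ⟨false,1,⟨2,[(2,0),(6,0),(12,0),(4,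
  0)]⟩,⟨0,[(12,0)]⟩⟩,.o ⟨false,1,⟨49,[(2,24),(2,16),(0,16),(15,14),(5,2),(1,5)]⟩,⟨0,[(1,0),(8,
  0)]⟩⟩]⟩)))

theorem ok0 : chk K t0 base = true := by decide +kernel

theorem closed {p a b c J l q : ℤ} {D dl : ℝ} {Cl : ℤ → ℤ → ℤ → ℤ → ℝ → Prop}
    (W : World p a b c J 1 l q D dl Cl) (g : G0 p a b c J D)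
    {N X R : ℤ} {I : ℝ} (hk : KCl p l Cl N X R I) (kz : KF a b D (X + (1 : ℤ) * I) (X + (1 : ℤ) * I + R) I)
    {Ne Xe : ℤ} {Ie : ℝ} (he : EFac p 1 D Cl 1 Ne Xe Ie)
    (hkf : ∀ kf ∈ (kfY 1 [0,0,0,0,0,0,1,0,0,0,1]), KOk p l Cl 1
      (xv [1, a, b, c, p, J, X, R, Xe] [D, I, Ie]) N kf)
    (h0 : 1 ≤ (c : ℝ))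
    (h1 : 1 ≤ 1 - (a : ℝ) + (b : ℝ))
    (h2 : 1 ≤ 2 * (a : ℝ) - (b : ℝ))
    (h3 : 0 < 1 + 2 * (p : ℝ) - 5 * D)
    (h4 : 1 ≤ 2 * (a : ℝ) - (b : ℝ))
    (h5 : 1 ≤ -1 + (J : ℝ))
    (h6 : 1 ≤ 3 - (J : ℝ))
    (h7 : 0 < -(b : ℝ) - (X : ℝ) + D - I)
    (h8 : 0 < (J : ℝ) - I)
    (h9 : 0 < -(J : ℝ) + D - I)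
    (h10 : 0 < -2 * (X : ℝ) + D - 2 * I) : False := by
  have g1 := g.a2
  have g2 := g.b2
  have g3 := g.pa
  have g4 := g.pb
  have g5 := g.J1
  have g6 := g.JD
  have g7 := g.D2
  have g8 := g.ca
  have g9 := g.ca'
  have k1 := kz.I0
  have k2 := kz.ID
  have k3 := kz.z1
  have k4 := kz.z2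
  have k5 := kz.s1
  have k6 := kz.s2
  have e1 := he.I0
  have e2 := he.ID
  have e3 := he.x0
  have e4 := he.xp
  push_cast at *
  refine (val_E W.toBase hk he (row := [1]) (by simp) (by simp) (kfY 1 [0,0,0,0,0,0,1,0,0,0,1])).sound W rfl (Nk := N)
    (fun kf _ _ => ⟨_, rfl⟩) hkf ?_ ok0
  · simp only [base, List.forall_mem_cons, List.not_mem_nil, false_imp_iff, implies_true,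
      and_true, hld, xv, evg_cons, evg_nil, List.map_cons, List.map_nil, List.cons_append,
      List.nil_append, if_true, if_false, Bool.false_eq_true]
    push_cast
    refine ⟨?_, ?_, ?_, ?_, ?_, ?_, ?_, ?_, ?_, ?_, ?_, ?_, ?_, ?_, ?_, ?_, ?_, ?_, ?_, ?_, ?_, ?_, ?_, ?_, ?_, ?_, ?_, ?_, ?_⟩ <;> linarith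

end Helper48.Y.Y11_c35_P2_m0n1

namespace Helper48.Y.Y11_c35_P4_m0n1

open Helper25.KG Helper25.KW Helper55.KE Helper11.CT

noncomputable def K : Cls :=
  cE 1 [1] (kfY 1 [0,0,0,0,0,0,1,0,0,0,1])

noncomputable def base : List Con :=
  [(false,[0,0,0,0,0,0,-2,0,0,1,-2]),
  (false,[0,0,0,0,0,-1,0,0,0,1,-1]),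
  (false,[0,0,0,0,0,1,0,0,0,0,-1]),
  (false,[0,0,0,0,1,0,0,0,-1,0,0,-1]),
  (false,[0,0,0,0,0,0,0,0,1,0,0,1]),
  (false,[0,0,0,0,0,0,0,0,0,1,0,-1]),
  (false,[0,0,0,0,0,0,0,0,0,0,0,1]),
  (false,[0,0,-1,0,0,0,-1,0,0,1,-1]),
  (false,[0,1,0,0,0,0,1,1,0,0,1]),
  (false,[0,1,0,0,0,0,-1,-1,0,0,-1]),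
  (false,[0,0,1,0,0,0,1,0,0,0,1]),
  (false,[0,0,1,0,0,0,-1,0,0,0,-1]),
  (false,[0,0,0,0,0,0,0,0,0,1,-1]),
  (false,[0,0,0,0,0,0,0,0,0,0,1]),
  (true,[-2,0,0,0,0,1]),
  (false,[0,0,0,0,1,0,0,0,0,-2]),
  (false,[0,0,0,0,0,-1,0,0,0,1]),
  (true,[0,0,0,0,0,1]),
  (true,[0,2,-1]),
  (false,[-3,0,0,0,1,0,0,0,0,-2]),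
  (true,[0,2,-1]),
  (true,[1,-1,1]),
  (true,[0,1,0,-1]),
  (true,[0,0,0,1]),
  (true,[0,0,-2,0,1]),
  (true,[0,-2,0,0,1]),
  (true,[-1,0,1]),
  (true,[-1,1])]

noncomputable def t0 : Tre :=
  (.Q [0,0,0,0,0,0,1,0,0,0,1] (.p true [0,0,1] [] (⟨0,[(13,0)]⟩,⟨0,[(12,0)]⟩) .k 0 (⟨0,[]⟩,⟨0,[]⟩)
  .k .k) (.I [0,0,0,0,0,0,0,-1] (.I [0,1,1,0,-1,0,0,-1] (.R ⟨0,false,false,true,[0,1,-1],[1,0,-1],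
  [0,1,1,0,0,0,0,-1],(⟨0,[(5,0)]⟩,⟨0,[(16,0),(2,0)]⟩),(⟨0,[(15,0)]⟩,⟨0,[(16,0)]⟩),⟨0,[(16,0)]⟩,.k,
  .k,.k,.k,.k,.k,⟨true,0,⟨1,[(13,0),(0,0)]⟩,⟨0,[]⟩⟩,⟨false,0,⟨0,[(10,0),(2,0)]⟩,⟨1,[(18,0),(8,0)]⟩⟩,
  ⟨true,0,⟨0,[(25,0)]⟩,⟨0,[(26,0)]⟩⟩,⟨false,0,⟨0,[(2,0),(7,0),(13,0),(0,0)]⟩,⟨1,[(18,0),(7,1),(1,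
  0)]⟩⟩,⟨false,0,⟨0,[]⟩,⟨0,[]⟩⟩,⟨false,0,⟨0,[]⟩,⟨0,[]⟩⟩,[.a ⟨true,(-1),⟨0,[(0,0),(9,0)]⟩,⟨0,[(11,0),
  (16,0)]⟩⟩ ⟨true,(-1),⟨0,[(0,0)]⟩,⟨1,[(10,1),(0,1),(6,0),(5,1),(3,0)]⟩⟩ ⟨false,(-1),⟨0,[(0,0),(1,
  0),(7,0)]⟩,⟨0,[(10,0),(0,0),(6,0),(9,0)]⟩⟩,.o ⟨false,0,⟨1,[(0,1),(9,1),(7,0),(9,0)]⟩,⟨1,[(11,1),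
  (6,0),(9,0)]⟩⟩,.o ⟨false,1,⟨0,[(10,0),(7,0)]⟩,⟨0,[(13,0)]⟩⟩,.o ⟨false,1,⟨3,[(3,1),(2,0),(0,0),(10,
  2)]⟩,⟨0,[(2,0)]⟩⟩]⟩) (.I [1,-1,-1,-1,1,0,0,1] (.Q [0,0,0,0,0,0,-1,-1,0,0,-1] (.p false [0,0,1] []
  (⟨0,[(17,0)]⟩,⟨0,[(16,0)]⟩) .k 0 (⟨0,[]⟩,⟨0,[]⟩) .k .k) (.R ⟨0,false,false,true,[0,1,-1],[0,1],[1,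
  0,1],(⟨0,[(7,0)]⟩,⟨0,[(18,0),(2,0)]⟩),(⟨0,[(22,0)]⟩,⟨0,[(21,0)]⟩),⟨0,[(18,0)]⟩,.k,.k,.k,.k,.k,.k,
  ⟨false,1,⟨0,[(1,0),(1,0)]⟩,⟨0,[(28,0),(3,0)]⟩⟩,⟨true,0,⟨0,[(4,0)]⟩,⟨0,[(16,0)]⟩⟩,⟨false,1,⟨1,[(1,
  1),(13,0),(0,0)]⟩,⟨0,[(3,0),(24,0)]⟩⟩,⟨true,0,⟨0,[(13,0)]⟩,⟨0,[(0,0)]⟩⟩,⟨false,0,⟨0,[]⟩,⟨0,[]⟩⟩,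
  ⟨false,0,⟨0,[]⟩,⟨0,[]⟩⟩,[.e ⟨false,0,⟨0,[]⟩,⟨1,[(8,0),(0,0),(19,0)]⟩⟩ ⟨false,0,⟨1,[(4,0),(10,0),
  (9,0),(2,1)]⟩,⟨0,[(0,0),(0,0)]⟩⟩,.a ⟨true,0,⟨0,[(28,0)]⟩,⟨0,[(4,0),(7,0),(13,0),(0,0)]⟩⟩ ⟨true,0,
  ⟨0,[(26,0)]⟩,⟨0,[(32,0)]⟩⟩ ⟨false,0,⟨0,[(4,0),(23,0)]⟩,⟨0,[(1,0),(12,0)]⟩⟩,.o ⟨false,1,⟨0,[(12,0),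
  (7,0)]⟩,⟨0,[(15,0)]⟩⟩,.o ⟨false,1,⟨3,[(5,1),(2,0),(0,0),(10,2)]⟩,⟨0,[(4,0)]⟩⟩]⟩) (.R ⟨0,false,
  false,false,[0,1,-1],[0,1],[0,1],(⟨0,[(7,0)]⟩,⟨0,[(18,0),(2,0)]⟩),(⟨0,[(22,0)]⟩,⟨0,[(21,0)]⟩),⟨0,
  [(18,0)]⟩,.k,.k,.k,.k,.k,.k,⟨false,1,⟨0,[(27,0),(1,0)]⟩,⟨0,[(26,0),(1,0)]⟩⟩,⟨true,0,⟨0,[(4,0)]⟩,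
  ⟨0,[(16,0)]⟩⟩,⟨false,1,⟨0,[(2,0),(24,0)]⟩,⟨0,[(3,0),(22,0),(1,0)]⟩⟩,⟨true,0,⟨0,[(0,0)]⟩,⟨0,[(14,
  0)]⟩⟩,⟨false,0,⟨0,[]⟩,⟨0,[]⟩⟩,⟨false,0,⟨0,[]⟩,⟨0,[]⟩⟩,[.a ⟨true,0,⟨0,[(28,0)]⟩,⟨0,[(4,0),(7,0),
  (13,0),(0,0)]⟩⟩ ⟨true,0,⟨0,[(32,0)]⟩,⟨0,[(26,0)]⟩⟩ ⟨false,0,⟨0,[(4,0),(23,0)]⟩,⟨0,[(1,0),(12,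
  0)]⟩⟩,.o ⟨false,1,⟨1,[(20,0),(7,1),(1,0)]⟩,⟨0,[(27,0)]⟩⟩,.o ⟨false,1,⟨0,[(12,0),(7,0)]⟩,⟨0,[(15,
  0)]⟩⟩,.o ⟨false,1,⟨3,[(5,1),(2,0),(0,0),(10,2)]⟩,⟨0,[(4,0)]⟩⟩]⟩)) (.I [0,0,-2,-2,1,0,0,-1] (.Q [0,
  1,0,-1,0,0,-1,-1,0,0,-1] (.p false [0,0,1] [] (⟨0,[(18,0)]⟩,⟨0,[(17,0)]⟩) .k 0 (⟨0,[]⟩,⟨0,[]⟩) .k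
  .k) (.K ⟨0,[0,1,1],0,0,(⟨0,[(19,0),(3,0)]⟩,⟨0,[(7,0)]⟩),.k,.k,(.r 0 ⟨0,[(14,0),(2,0),(9,0),(1,
  1)]⟩ ⟨0,[(1,0)]⟩),.k,.k,[⟨1,[(16,0),(0,0)]⟩,⟨0,[(5,0)]⟩,⟨0,[(0,0)]⟩,⟨0,[(14,0),(14,0)]⟩]⟩) (.R ⟨2,
  true,false,false,[0,1],[0,1,1],[1,0,1],(⟨0,[]⟩,⟨0,[]⟩),(⟨0,[(19,0),(3,0)]⟩,⟨0,[(7,0)]⟩),⟨0,[]⟩,.k,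
  .k,.k,.k,.k,.k,⟨false,1,⟨3,[(1,1),(13,1),(0,1),(13,0),(0,0)]⟩,⟨1,[(0,2),(1,0),(3,0),(6,0),(7,0),
  (6,1)]⟩⟩,⟨true,0,⟨0,[(5,0)]⟩,⟨0,[(17,0)]⟩⟩,⟨false,1,⟨0,[(28,0),(2,0)]⟩,⟨0,[(29,0)]⟩⟩,⟨true,0,⟨0,
  [(0,0),(27,0)]⟩,⟨0,[(15,0)]⟩⟩,⟨true,0,⟨0,[]⟩,⟨0,[(33,0)]⟩⟩,⟨false,0,⟨0,[(0,0)]⟩,⟨3,[(1,1),(7,0),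
  (0,0),(4,1),(0,0),(0,2),(13,0)]⟩⟩,[]⟩)) (.Q [0,0,2,0,-1,0,1,0,0,1,1] (.p true [1,-1,1] [] (⟨0,
  [(18,0),(2,0)]⟩,⟨0,[(7,0)]⟩) .k 0 (⟨0,[]⟩,⟨0,[]⟩) .k .k) (.K ⟨0,[1,-1,1],(-1),0,(⟨0,[(19,0),(2,
  0)]⟩,⟨0,[(8,0)]⟩),.k,(.r (-2) ⟨1,[(3,1),(24,3),(1,0),(0,0)]⟩ ⟨2,[(1,0),(0,3),(28,1)]⟩),.k,.k,.k,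
  [⟨1,[(21,0),(8,0)]⟩,⟨0,[(0,0)]⟩,⟨0,[(2,0),(10,0),(7,0)]⟩,⟨1,[(0,0),(2,0),(1,0),(7,0),(0,0),(13,
  1)]⟩]⟩) (.R ⟨2,true,false,true,[0,1],[0,1,1],[1,0,1],(⟨0,[]⟩,⟨0,[]⟩),(⟨0,[(19,0),(3,0)]⟩,⟨0,[(7,
  0)]⟩),⟨0,[]⟩,.k,.k,.k,.k,.k,.k,⟨false,1,⟨0,[(0,0),(3,0),(0,1),(7,0),(13,1),(0,0)]⟩,⟨31,[(1,15),(1,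
  11),(2,1),(2,2),(0,2),(3,3),(6,0),(4,19)]⟩⟩,⟨true,0,⟨0,[(5,0)]⟩,⟨0,[(17,0)]⟩⟩,⟨false,1,⟨0,[(28,0),
  (2,0)]⟩,⟨0,[(29,0)]⟩⟩,⟨true,0,⟨0,[(14,0)]⟩,⟨1,[(0,0),(1,0),(1,0),(8,0),(13,1),(0,0)]⟩⟩,⟨true,0,⟨0,
  []⟩,⟨0,[(33,0)]⟩⟩,⟨false,0,⟨3,[(0,0),(0,1),(1,0),(1,4),(7,0),(0,0)]⟩,⟨2,[(0,0),(3,2),(1,0),(20,1),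
  (0,2),(2,1)]⟩⟩,[]⟩))))) (.R ⟨0,false,false,true,[0,1,-1],[1,0,-1],[0,1,1,0,0,0,0,-1],(⟨0,[(4,0)]⟩,
  ⟨0,[(15,0),(2,0)]⟩),(⟨0,[(14,0)]⟩,⟨0,[(15,0)]⟩),⟨0,[(15,0)]⟩,.k,.k,.k,.k,.k,.k,⟨true,0,⟨1,[(12,0),
  (0,0)]⟩,⟨0,[]⟩⟩,⟨false,0,⟨0,[(9,0),(2,0)]⟩,⟨1,[(17,0),(8,0)]⟩⟩,⟨true,0,⟨0,[(24,0)]⟩,⟨0,[(25,0)]⟩⟩,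
  ⟨false,0,⟨0,[(1,0),(7,0),(13,0),(0,0)]⟩,⟨1,[(17,0),(7,1),(1,0)]⟩⟩,⟨false,0,⟨0,[]⟩,⟨0,[]⟩⟩,⟨false,
  0,⟨0,[]⟩,⟨0,[]⟩⟩,[.o ⟨false,0,⟨0,[(11,0)]⟩,⟨1,[(0,1),(0,1),(15,0),(9,0)]⟩⟩,.a ⟨true,0,⟨0,[(1,0),
  (7,0),(1,0),(11,0)]⟩,⟨0,[(0,0),(0,0)]⟩⟩ ⟨true,0,⟨0,[(1,0),(9,0),(11,0)]⟩,⟨0,[(0,0)]⟩⟩ ⟨false,0,⟨0,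
  [(1,1),(7,0),(1,0),(11,0)]⟩,⟨1,[(0,1),(16,0),(8,0)]⟩⟩,.o ⟨false,1,⟨0,[(9,0),(7,0)]⟩,⟨0,[(12,0)]⟩⟩,
  .o ⟨false,1,⟨3,[(2,1),(2,0),(0,0),(10,2)]⟩,⟨0,[(1,0)]⟩⟩]⟩)) (.Q [0,1,0,-1,0,0,1,1,0,0,1] (.p true
  [0,0,1] [] (⟨0,[(14,0)]⟩,⟨0,[(13,0)]⟩) .k 0 (⟨0,[]⟩,⟨0,[]⟩) .k .k) (.I [0,0,2,2,-1,0,0,-1] (.I [1,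
  -1,-1,-1,1,0,0,1] (.I [1,0,0,0,0,0,0,-1] (.R ⟨0,false,false,false,[0,0,1],[0,1],[1,0,0,-1,0,0,0,
  1],(⟨0,[(18,0)]⟩,⟨0,[(17,0)]⟩),(⟨0,[(22,0)]⟩,⟨0,[(21,0)]⟩),⟨0,[(7,0)]⟩,.k,.k,.k,.k,.k,.k,⟨true,1,
  ⟨0,[(1,0),(25,0)]⟩,⟨0,[(2,0)]⟩⟩,⟨false,1,⟨1,[(12,1),(7,0),(8,0)]⟩,⟨0,[(15,0)]⟩⟩,⟨false,1,⟨0,[(27,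
  0),(2,0)]⟩,⟨0,[(28,0)]⟩⟩,⟨true,0,⟨1,[(0,0),(1,0),(9,1),(7,0)]⟩,⟨0,[(3,0)]⟩⟩,⟨false,0,⟨0,[]⟩,⟨0,
  []⟩⟩,⟨false,0,⟨0,[]⟩,⟨0,[]⟩⟩,[.a ⟨true,0,⟨0,[(28,0)]⟩,⟨0,[(0,0),(2,0),(8,0),(13,0)]⟩⟩ ⟨false,1,
  ⟨15,[(1,11),(1,3),(1,1),(2,2),(0,2),(10,0),(4,3)]⟩,⟨1,[(0,0),(1,0),(26,0)]⟩⟩ ⟨true,0,⟨0,[(4,0),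
  (23,0)]⟩,⟨0,[(0,0),(2,0),(22,0)]⟩⟩,.o ⟨false,1,⟨1,[(20,0),(7,1),(1,0)]⟩,⟨0,[(27,0)]⟩⟩,.o ⟨false,1,
  ⟨1,[(15,1),(4,0),(8,0)]⟩,⟨0,[(4,0)]⟩⟩,.e ⟨false,1,⟨0,[(1,0)]⟩,⟨1,[(0,0),(1,0),(5,0),(0,0)]⟩⟩
  ⟨false,1,⟨1,[(12,1),(7,0),(7,1),(1,0)]⟩,⟨0,[(0,0),(2,0),(22,0)]⟩⟩]⟩) (.I [0,1,-1,0,0,0,0,1] (.I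
  [1,0,-1,0,1,0,0,-1] (.Q [0,0,0,2,0,0,0,0,0,-1] (.pp true [-1,1]) (.Q [0,0,-1,-1,0,0,-1,0,0,1,-1]
  (.p false [0,0,1] [1] (⟨0,[(21,0)]⟩,⟨0,[(20,0)]⟩) .k 1 (⟨0,[]⟩,⟨0,[]⟩) .k .k) (.R ⟨2,true,false,
  true,[0,1],[1,-1],[1,0,1],(⟨0,[]⟩,⟨0,[]⟩),(⟨0,[(25,0)]⟩,⟨0,[(26,0)]⟩),⟨0,[]⟩,.k,.k,.k,(.r 1 ⟨0,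
  [(4,0),(1,0)]⟩ ⟨0,[(2,0),(2,0),(25,0)]⟩),.k,.k,⟨false,0,⟨1,[(4,0),(1,0),(27,0)]⟩,⟨0,[(31,0),(1,
  0)]⟩⟩,⟨true,(-1),⟨0,[(0,0),(5,0),(0,0),(22,0)]⟩,⟨1,[(24,0),(8,0)]⟩⟩,⟨false,1,⟨0,[(31,0),(2,0)]⟩,
  ⟨0,[(32,0)]⟩⟩,⟨true,0,⟨0,[(0,0),(18,0),(11,0)]⟩,⟨0,[(1,0)]⟩⟩,⟨true,0,⟨0,[]⟩,⟨0,[(36,0)]⟩⟩,⟨false,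
  0,⟨0,[(0,0),(18,0)]⟩,⟨3,[(1,1),(10,0),(0,0),(10,0),(9,1)]⟩⟩,[]⟩) (.Q [0,-1,0,-1,1,0,-1,-1,0,0,-1]
  (.p false [0,0,1] [] (⟨0,[(22,0)]⟩,⟨0,[(21,0)]⟩) .k 0 (⟨0,[]⟩,⟨0,[]⟩) .k .k) (.Q [0,0,2,0,-1,0,1,
  0,0,1,1] (.p true [1,-1,1] [] (⟨0,[(23,0),(2,0)]⟩,⟨0,[(12,0)]⟩) .k 0 (⟨0,[]⟩,⟨0,[]⟩) .k .k) (.Q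
  [0,1,0,1,0,0,-1,-1,0,-1,-1] (.p false [1,-1,1] [] (⟨0,[(24,0),(2,0)]⟩,⟨0,[(13,0)]⟩) .k 0 (⟨0,[]⟩,
  ⟨0,[]⟩) .k .k) (.K ⟨0,[1,-1,1],(-1),0,(⟨0,[(25,0),(2,0)]⟩,⟨0,[(14,0)]⟩),.k,(.r (-2) ⟨4,[(2,2),(2,
  0),(2,5),(1,0),(9,1),(11,2)]⟩ ⟨0,[(9,0)]⟩),.k,.k,.k,[⟨1,[(27,0),(8,0)]⟩,⟨0,[(1,0)]⟩,⟨0,[(0,0)]⟩,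
  ⟨12,[(1,5),(3,3),(2,1),(1,10),(1,0),(6,5),(0,3)]⟩]⟩) (.R ⟨2,true,false,true,[0,1],[1,-1],[1,0,1],
  (⟨0,[]⟩,⟨0,[]⟩),(⟨0,[(28,0)]⟩,⟨0,[(29,0)]⟩),⟨0,[]⟩,.k,.k,.k,(.r 1 ⟨0,[(7,0),(1,0)]⟩ ⟨0,[(5,0),(2,
  0),(25,0)]⟩),.k,.k,⟨false,0,⟨1,[(7,0),(1,0),(27,0)]⟩,⟨0,[(34,0),(1,0)]⟩⟩,⟨true,(-1),⟨0,[(1,0),(9,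
  0)]⟩,⟨1,[(27,0),(8,0)]⟩⟩,⟨false,1,⟨1,[(2,0),(7,0),(26,0)]⟩,⟨0,[(35,0)]⟩⟩,⟨true,0,⟨0,[(0,0),(20,0),
  (12,0)]⟩,⟨0,[(4,0)]⟩⟩,⟨true,0,⟨0,[]⟩,⟨0,[(39,0)]⟩⟩,⟨false,0,⟨0,[(0,0),(20,0)]⟩,⟨3,[(4,1),(10,0),
  (0,0),(10,0),(9,1)]⟩⟩,[]⟩)) (.Q [0,0,0,0,0,0,1,1,0,0,1] (.p true [0,0,1] [] (⟨0,[(24,0)]⟩,⟨0,[(23,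
  0)]⟩) .k 0 (⟨0,[]⟩,⟨0,[]⟩) .k .k) (.Q [0,0,0,1,0,0,-1,-1,0,0,-1] (.p false [0,0,1] [] (⟨0,[(25,
  0)]⟩,⟨0,[(24,0)]⟩) .k 0 (⟨0,[]⟩,⟨0,[]⟩) .k .k) (.R ⟨2,true,false,false,[0,1],[0,0,1],[0,1,1,1],
  (⟨0,[]⟩,⟨0,[]⟩),(⟨0,[(26,0)]⟩,⟨0,[(25,0)]⟩),⟨0,[]⟩,.k,.k,.k,.k,.k,.k,⟨false,0,⟨1,[(6,0),(3,0),(22,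
  0)]⟩,⟨0,[(9,0)]⟩⟩,⟨true,0,⟨0,[(23,0)]⟩,⟨0,[(12,0)]⟩⟩,⟨true,0,⟨0,[(40,0)]⟩,⟨0,[]⟩⟩,⟨false,1,⟨0,
  [(11,0),(26,0)]⟩,⟨0,[(0,0)]⟩⟩,⟨false,0,⟨0,[(36,0)]⟩,⟨1,[(3,0),(7,0),(26,0)]⟩⟩,⟨true,0,⟨0,[(1,0)]⟩,
  ⟨0,[(22,0)]⟩⟩,[]⟩) (.R ⟨2,true,false,false,[0,1],[0,1,1],[1,0,1],(⟨0,[]⟩,⟨0,[]⟩),(⟨0,[(26,0),(3,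
  0)]⟩,⟨0,[(14,0)]⟩),⟨0,[]⟩,.k,.k,.k,.k,.k,.k,⟨true,1,⟨1,[(3,0),(2,0),(16,0),(11,0)]⟩,⟨0,[(0,2),(1,
  0),(7,1),(1,0),(7,0)]⟩⟩,⟨false,1,⟨0,[(1,0),(4,0)]⟩,⟨0,[(12,0)]⟩⟩,⟨false,1,⟨1,[(3,0),(7,0),(26,
  0)]⟩,⟨0,[(36,0)]⟩⟩,⟨true,0,⟨0,[(1,0)]⟩,⟨0,[(22,0)]⟩⟩,⟨true,0,⟨0,[]⟩,⟨0,[(40,0)]⟩⟩,⟨false,0,⟨1,[(0,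
  5),(1,1),(7,3),(9,1),(16,0),(0,0)]⟩,⟨0,[(3,0),(36,0)]⟩⟩,[]⟩)) (.Q [0,0,-1,1,0,0,-1,0,0,0,-1] (.p
  false [0,0,1] [] (⟨0,[(25,0)]⟩,⟨0,[(24,0)]⟩) .k 0 (⟨0,[]⟩,⟨0,[]⟩) .k .k) (.R ⟨0,false,false,false,
  [0,0,1],[0,1],[1,1,1],(⟨0,[(26,0)]⟩,⟨0,[(25,0)]⟩),(⟨0,[(30,0)]⟩,⟨0,[(29,0)]⟩),⟨0,[(15,0)]⟩,.k,.k,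
  .k,.k,.k,.k,⟨true,0,⟨0,[(35,0)]⟩,⟨1,[(8,0),(1,0),(27,0)]⟩⟩,⟨false,1,⟨2,[(2,0),(10,0),(23,1)]⟩,⟨0,
  [(23,0)]⟩⟩,⟨false,0,⟨0,[(1,0),(21,0)]⟩,⟨2,[(5,0),(3,1),(10,0),(0,0),(16,0)]⟩⟩,⟨true,0,⟨5,[(0,2),
  (0,0),(1,0),(2,0),(3,1),(11,0)]⟩,⟨0,[(11,0)]⟩⟩,⟨false,0,⟨0,[]⟩,⟨0,[]⟩⟩,⟨false,0,⟨0,[]⟩,⟨0,[]⟩⟩,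
  [.e ⟨false,0,⟨0,[(40,0)]⟩,⟨1,[(37,0),(0,0)]⟩⟩ ⟨false,0,⟨0,[(0,0)]⟩,⟨3,[(3,0),(2,1),(4,2),(11,1),
  (14,0)]⟩⟩,.o ⟨false,1,⟨3,[(5,1),(10,0),(0,0),(10,0),(9,1)]⟩,⟨0,[(35,0)]⟩⟩,.o ⟨false,1,⟨1,[(23,1),
  (4,0),(8,0)]⟩,⟨0,[(12,0)]⟩⟩,.a ⟨true,0,⟨0,[(23,0)]⟩,⟨0,[(20,0)]⟩⟩ ⟨false,0,⟨0,[]⟩,⟨1,[(16,0),(0,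
  0),(20,0)]⟩⟩ ⟨true,0,⟨0,[(0,0)]⟩,⟨0,[(23,0),(11,0)]⟩⟩]⟩) (.R ⟨0,false,false,false,[0,0,1],[0,1],
  [1,1,1],(⟨0,[(26,0)]⟩,⟨0,[(25,0)]⟩),(⟨0,[(30,0)]⟩,⟨0,[(29,0)]⟩),⟨0,[(15,0)]⟩,.k,.k,.k,.k,.k,.k,
  ⟨true,0,⟨0,[(35,0)]⟩,⟨1,[(8,0),(1,0),(27,0)]⟩⟩,⟨false,1,⟨2,[(2,0),(10,0),(23,1)]⟩,⟨0,[(23,0)]⟩⟩,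
  ⟨false,0,⟨5,[(0,2),(0,0),(1,0),(2,0),(3,1),(11,0)]⟩,⟨2,[(5,0),(3,1),(10,0),(0,0),(16,0)]⟩⟩,⟨true,
  0,⟨9,[(1,5),(3,2),(0,1),(3,1),(2,0),(6,1)]⟩,⟨0,[(11,0)]⟩⟩,⟨false,0,⟨0,[]⟩,⟨0,[]⟩⟩,⟨false,0,⟨0,[]⟩,
  ⟨0,[]⟩⟩,[.a ⟨true,0,⟨0,[(36,0)]⟩,⟨0,[(0,0),(19,0)]⟩⟩ ⟨false,0,⟨0,[(40,0)]⟩,⟨1,[(37,0),(0,0)]⟩⟩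
  ⟨true,0,⟨1,[(5,0),(7,0)]⟩,⟨0,[(0,0)]⟩⟩,.o ⟨false,1,⟨3,[(5,1),(10,0),(0,0),(10,0),(9,1)]⟩,⟨0,[(35,
  0)]⟩⟩,.o ⟨false,1,⟨1,[(23,1),(4,0),(8,0)]⟩,⟨0,[(12,0)]⟩⟩,.e ⟨false,0,⟨0,[]⟩,⟨1,[(16,0),(0,0),(20,
  0)]⟩⟩ ⟨false,1,⟨1,[(5,0),(7,0),(23,0),(0,0)]⟩,⟨0,[(0,0)]⟩⟩]⟩)))) (.R ⟨2,true,false,false,[0,1],[0,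
  1,1],[1,0,1],(⟨0,[]⟩,⟨0,[]⟩),(⟨0,[(23,0),(3,0)]⟩,⟨0,[(11,0)]⟩),⟨0,[]⟩,.k,.k,.k,.k,.k,.k,⟨true,1,
  ⟨0,[(3,0),(27,0),(0,0)]⟩,⟨0,[(0,0),(8,0),(21,0)]⟩⟩,⟨false,1,⟨0,[(20,0),(13,0)]⟩,⟨0,[(9,0)]⟩⟩,
  ⟨false,1,⟨0,[(32,0),(2,0)]⟩,⟨0,[(33,0)]⟩⟩,⟨true,0,⟨1,[(0,0),(7,0),(26,0)]⟩,⟨0,[(19,0)]⟩⟩,⟨true,0,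
  ⟨0,[]⟩,⟨0,[(37,0)]⟩⟩,⟨false,0,⟨0,[(0,0),(34,0)]⟩,⟨0,[(19,0),(12,0),(2,0)]⟩⟩,[]⟩))) (.Q [0,0,-1,1,
  0,0,-1,0,0,0,-1] (.p false [0,0,1] [] (⟨0,[(21,0)]⟩,⟨0,[(20,0)]⟩) .k 0 (⟨0,[]⟩,⟨0,[]⟩) .k .k) (.R
  ⟨0,false,false,false,[0,0,1],[0,1],[1,1,1],(⟨0,[(22,0)]⟩,⟨0,[(21,0)]⟩),(⟨0,[(26,0)]⟩,⟨0,[(25,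
  0)]⟩),⟨0,[(11,0)]⟩,.k,.k,.k,.k,.k,.k,⟨true,0,⟨0,[(31,0)]⟩,⟨1,[(4,0),(1,0),(27,0)]⟩⟩,⟨false,1,⟨1,
  [(16,1),(7,0),(8,0)]⟩,⟨0,[(19,0)]⟩⟩,⟨false,0,⟨2,[(1,1),(0,0),(3,1),(17,0)]⟩,⟨1,[(4,1),(28,0),(0,
  0)]⟩⟩,⟨true,0,⟨2,[(0,2),(0,1),(0,0),(3,1),(17,0)]⟩,⟨0,[(7,0)]⟩⟩,⟨false,0,⟨0,[]⟩,⟨0,[]⟩⟩,⟨false,0,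
  ⟨0,[]⟩,⟨0,[]⟩⟩,[.e ⟨false,0,⟨0,[(36,0)]⟩,⟨1,[(33,0),(0,0)]⟩⟩ ⟨false,0,⟨0,[(0,0)]⟩,⟨7,[(1,1),(0,3),
  (4,3),(4,0),(0,0),(5,3),(4,0),(9,1)]⟩⟩,.o ⟨false,1,⟨1,[(24,0),(7,1),(1,0)]⟩,⟨0,[(31,0)]⟩⟩,.o
  ⟨false,1,⟨1,[(19,1),(4,0),(8,0)]⟩,⟨0,[(8,0)]⟩⟩,.a ⟨true,0,⟨0,[(19,0)]⟩,⟨0,[(16,0)]⟩⟩ ⟨false,0,⟨0,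
  []⟩,⟨1,[(12,0),(0,0),(20,0)]⟩⟩ ⟨true,0,⟨0,[(0,0)]⟩,⟨0,[(19,0),(11,0)]⟩⟩]⟩) (.Q [0,0,0,1,0,0,-1,-1,
  0,0,-1] (.p false [0,0,1] [] (⟨0,[(22,0)]⟩,⟨0,[(21,0)]⟩) .k 0 (⟨0,[]⟩,⟨0,[]⟩) .k .k) (.R ⟨0,false,
  false,false,[0,0,1],[0,1],[1,1,1],(⟨0,[(23,0)]⟩,⟨0,[(22,0)]⟩),(⟨0,[(27,0)]⟩,⟨0,[(26,0)]⟩),⟨0,[(12,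
  0)]⟩,.k,.k,.k,.k,.k,.k,⟨true,0,⟨0,[(32,0)]⟩,⟨1,[(5,0),(1,0),(27,0)]⟩⟩,⟨false,1,⟨1,[(17,1),(7,0),
  (8,0)]⟩,⟨0,[(20,0)]⟩⟩,⟨false,0,⟨2,[(2,1),(0,0),(3,1),(17,0)]⟩,⟨1,[(5,1),(28,0),(0,0)]⟩⟩,⟨true,0,
  ⟨0,[(0,0)]⟩,⟨0,[(8,0)]⟩⟩,⟨false,0,⟨0,[]⟩,⟨0,[]⟩⟩,⟨false,0,⟨0,[]⟩,⟨0,[]⟩⟩,[.a ⟨true,0,⟨0,[(33,0)]⟩,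
  ⟨1,[(2,0),(14,0),(2,0)]⟩⟩ ⟨false,0,⟨0,[(37,0)]⟩,⟨1,[(34,0),(0,0)]⟩⟩ ⟨true,0,⟨0,[(0,0),(4,0)]⟩,⟨0,
  [(1,0)]⟩⟩,.o ⟨false,1,⟨1,[(25,0),(7,1),(1,0)]⟩,⟨0,[(32,0)]⟩⟩,.o ⟨false,1,⟨1,[(20,1),(4,0),(8,0)]⟩,
  ⟨0,[(9,0)]⟩⟩,.e ⟨false,0,⟨0,[]⟩,⟨1,[(13,0),(0,0),(20,0)]⟩⟩ ⟨false,1,⟨1,[(17,1),(7,0),(7,1),(1,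
  0)]⟩,⟨0,[(1,0)]⟩⟩]⟩) (.R ⟨0,false,false,false,[0,1,-1],[0,1],[],(⟨0,[(12,0)]⟩,⟨0,[(23,0),(2,0)]⟩),
  (⟨0,[(27,0)]⟩,⟨0,[(26,0)]⟩),⟨0,[(23,0)]⟩,.k,.k,.k,.k,.k,.k,⟨true,1,⟨1,[(3,0),(2,0),(25,0)]⟩,⟨0,
  [(0,0),(6,0),(1,0)]⟩⟩,⟨false,1,⟨0,[(20,0),(13,0)]⟩,⟨0,[(9,0)]⟩⟩,⟨false,1,⟨1,[(0,1),(16,1),(11,0),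
  (5,0)]⟩,⟨3,[(3,1),(3,1),(12,0),(0,0)]⟩⟩,⟨true,0,⟨0,[(0,0),(32,0)]⟩,⟨0,[(19,0)]⟩⟩,⟨false,0,⟨0,[]⟩,
  ⟨0,[]⟩⟩,⟨false,0,⟨0,[]⟩,⟨0,[]⟩⟩,[.e ⟨false,1,⟨1,[(13,0),(0,0),(19,0)]⟩,⟨0,[]⟩⟩ ⟨false,0,⟨0,[(0,0),
  (6,0),(26,0)]⟩,⟨1,[(2,0),(7,0),(14,0),(8,0)]⟩⟩,.o ⟨false,1,⟨1,[(25,0),(7,1),(1,0)]⟩,⟨0,[(32,0)]⟩⟩,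
  .o ⟨false,1,⟨0,[(17,0),(7,0)]⟩,⟨0,[(20,0)]⟩⟩,.a ⟨true,0,⟨0,[(9,0)]⟩,⟨1,[(0,1),(1,0),(4,1),(9,0),
  (2,0),(13,1)]⟩⟩ ⟨false,1,⟨1,[(34,0),(0,0)]⟩,⟨1,[(20,0),(0,0)]⟩⟩ ⟨true,0,⟨0,[(0,0),(6,0),(26,0)]⟩,
  ⟨0,[(9,0),(22,0)]⟩⟩]⟩)))) (.Q [0,-1,0,1,0,0,1,1,0,0,1] (.p true [0,0,1] [] (⟨0,[(20,0)]⟩,⟨0,[(19,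
  0)]⟩) .k 0 (⟨0,[]⟩,⟨0,[]⟩) .k .k) (.R ⟨2,true,false,false,[0,1],[0,1,1],[0,0,1,1],(⟨0,[]⟩,⟨0,[]⟩),
  (⟨0,[(21,0),(3,0)]⟩,⟨0,[(9,0)]⟩),⟨0,[]⟩,.k,.k,.k,.k,.k,.k,⟨true,1,⟨1,[(17,1),(0,1),(13,0),(0,0)]⟩,
  ⟨0,[(1,0)]⟩⟩,⟨false,1,⟨0,[(18,0),(13,0)]⟩,⟨0,[(7,0)]⟩⟩,⟨false,1,⟨1,[(11,0),(0,0),(20,0)]⟩,⟨0,[]⟩⟩,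
  ⟨true,0,⟨1,[(0,0),(5,0)]⟩,⟨0,[(17,0)]⟩⟩,⟨true,0,⟨0,[(31,0)]⟩,⟨0,[(30,0)]⟩⟩,⟨false,0,⟨0,[(0,0)]⟩,
  ⟨0,[(17,0),(12,0),(2,0)]⟩⟩,[]⟩) (.R ⟨2,true,false,false,[0,1],[0,0,1],[0,1,1,1],(⟨0,[]⟩,⟨0,[]⟩),
  (⟨0,[(21,0)]⟩,⟨0,[(20,0)]⟩),⟨0,[]⟩,.k,.k,.k,.k,.k,.k,⟨false,0,⟨2,[(0,0),(4,1),(12,0),(9,0),(3,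
  1)]⟩,⟨0,[(4,0)]⟩⟩,⟨true,0,⟨0,[(18,0)]⟩,⟨0,[(7,0)]⟩⟩,⟨true,0,⟨0,[(35,0)]⟩,⟨0,[]⟩⟩,⟨false,1,⟨0,[(6,
  0),(26,0)]⟩,⟨1,[(0,1),(0,1),(3,1),(26,2),(0,0)]⟩⟩,⟨false,0,⟨0,[(31,0)]⟩,⟨0,[(30,0),(2,0)]⟩⟩,⟨true,
  0,⟨0,[(1,0),(16,0),(13,0)]⟩,⟨0,[(17,0)]⟩⟩,[]⟩))) (.Q [0,1,0,-1,0,0,2,2,0,0,2] (.p true [0,0,1] [0,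
  1,-1] (⟨0,[(19,0)]⟩,⟨0,[(18,0)]⟩) .k 2 (⟨0,[(8,0)]⟩,⟨0,[(19,0),(2,0)]⟩) .k (.r 0 ⟨0,[(1,1)]⟩ ⟨0,
  [(0,0),(14,0),(0,0),(13,0)]⟩)) (.Q [0,0,1,0,0,0,2,0,0,0,2] (.p true [0,0,1] [0,1,-1] (⟨0,[(20,
  0)]⟩,⟨0,[(19,0)]⟩) .k 2 (⟨0,[(9,0)]⟩,⟨0,[(20,0),(2,0)]⟩) .k (.r 0 ⟨0,[(2,1)]⟩ ⟨0,[(1,0),(14,0),(0,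
  0),(13,0)]⟩)) (.K ⟨0,[0,1,-1],0,0,(⟨0,[(10,0)]⟩,⟨0,[(21,0),(2,0)]⟩),.k,.k,(.r 1 ⟨0,[(5,0)]⟩ ⟨1,
  [(4,1),(6,0),(0,0),(17,1),(1,0)]⟩),(.r 0 ⟨3,[(0,0),(1,3),(2,1),(11,1),(10,0),(3,1)]⟩ ⟨3,[(1,1),(1,
  1),(0,1),(3,1),(14,0),(8,0)]⟩),.k,[⟨0,[(0,0)]⟩,⟨0,[(7,0)]⟩,⟨0,[(6,0)]⟩,⟨7,[(5,3),(2,1),(8,3),(5,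
  0),(4,1),(3,2)]⟩]⟩) (.R ⟨0,false,false,false,[0,0,1],[0,1],[],(⟨0,[(21,0)]⟩,⟨0,[(20,0)]⟩),(⟨0,
  [(25,0)]⟩,⟨0,[(24,0)]⟩),⟨0,[(10,0)]⟩,.k,.k,.k,.k,.k,.k,⟨true,1,⟨1,[(30,1),(1,0),(0,0)]⟩,⟨0,[(0,0),
  (0,0),(0,0),(2,0)]⟩⟩,⟨false,1,⟨7,[(0,1),(7,1),(14,0),(8,6)]⟩,⟨0,[(18,0)]⟩⟩,⟨false,1,⟨1,[(2,0),(14,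
  0),(0,0),(13,0),(0,0)]⟩,⟨0,[(3,0)]⟩⟩,⟨true,0,⟨11,[(0,3),(1,1),(2,5),(11,3),(14,4),(0,0)]⟩,⟨0,[(6,
  0)]⟩⟩,⟨false,0,⟨0,[]⟩,⟨0,[]⟩⟩,⟨false,0,⟨0,[]⟩,⟨0,[]⟩⟩,[.a ⟨true,0,⟨0,[(31,0)]⟩,⟨1,[(1,0),(0,1),
  (12,1),(14,0)]⟩⟩ ⟨false,1,⟨1,[(11,0),(0,0),(19,0)]⟩,⟨0,[]⟩⟩ ⟨true,0,⟨7,[(0,1),(2,0),(1,0),(2,1),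
  (14,0),(7,5)]⟩,⟨1,[(1,0),(0,1),(27,0)]⟩⟩,.o ⟨false,1,⟨1,[(23,0),(7,1),(1,0)]⟩,⟨0,[(30,0)]⟩⟩,.o
  ⟨false,1,⟨1,[(18,1),(4,0),(8,0)]⟩,⟨0,[(7,0)]⟩⟩,.e ⟨false,1,⟨1,[(32,0),(0,0)]⟩,⟨1,[(18,0),(0,0)]⟩⟩
  ⟨false,1,⟨7,[(0,1),(7,1),(14,0),(7,7),(0,2),(0,3)]⟩,⟨1,[(1,0),(0,1),(27,0)]⟩⟩]⟩)) (.R ⟨0,false,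
  false,false,[0,0,1],[0,1],[1,1,1],(⟨0,[(20,0)]⟩,⟨0,[(19,0)]⟩),(⟨0,[(24,0)]⟩,⟨0,[(23,0)]⟩),⟨0,[(9,
  0)]⟩,.k,.k,.k,.k,.k,.k,⟨true,0,⟨0,[(29,0)]⟩,⟨1,[(2,0),(1,0),(27,0)]⟩⟩,⟨false,1,⟨1,[(14,1),(7,0),
  (8,0)]⟩,⟨0,[(17,0)]⟩⟩,⟨false,0,⟨1,[(1,0),(14,0),(0,0)]⟩,⟨1,[(2,1),(28,0),(0,0)]⟩⟩,⟨true,0,⟨11,[(0,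
  3),(3,3),(2,1),(14,0),(4,1),(3,2)]⟩,⟨0,[(5,0)]⟩⟩,⟨false,0,⟨0,[]⟩,⟨0,[]⟩⟩,⟨false,0,⟨0,[]⟩,⟨0,[]⟩⟩,
  [.a ⟨true,0,⟨0,[(30,0)]⟩,⟨0,[(1,0),(3,0),(8,0)]⟩⟩ ⟨false,0,⟨0,[(34,0)]⟩,⟨1,[(31,0),(0,0)]⟩⟩ ⟨true,
  0,⟨11,[(0,3),(1,8),(1,0),(2,1),(14,0),(4,1),(2,5)]⟩,⟨0,[(1,0),(3,0)]⟩⟩,.o ⟨false,1,⟨1,[(22,0),(7,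
  1),(1,0)]⟩,⟨0,[(29,0)]⟩⟩,.o ⟨false,1,⟨1,[(17,1),(4,0),(8,0)]⟩,⟨0,[(6,0)]⟩⟩,.e ⟨false,0,⟨0,[]⟩,⟨1,
  [(10,0),(0,0),(20,0)]⟩⟩ ⟨false,1,⟨7,[(0,1),(1,3),(4,1),(14,0),(7,5),(0,3),(0,2)]⟩,⟨0,[(1,0),(3,
  0)]⟩⟩]⟩)))) (.Q [0,0,2,0,-1,0,1,0,0,1,1] (.p true [1,-1,1] [] (⟨0,[(17,0),(2,0)]⟩,⟨0,[(6,0)]⟩) .k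
  0 (⟨0,[]⟩,⟨0,[]⟩) .k .k) (.K ⟨0,[1,-1,1],(-1),0,(⟨0,[(18,0),(2,0)]⟩,⟨0,[(7,0)]⟩),.k,(.r (-2) ⟨1,
  [(3,1),(8,1),(7,0),(6,1),(1,0),(0,1)]⟩ ⟨0,[(2,0)]⟩),.k,.k,.k,[⟨1,[(20,0),(8,0)]⟩,⟨0,[(0,0)]⟩,⟨0,
  [(1,0),(10,0),(7,0)]⟩,⟨2,[(0,1),(2,2),(1,0),(23,1)]⟩]⟩) (.I [1,-1,0,1,0,0,0,1] (.R ⟨0,false,false,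
  false,[0,0,1],[0,1],[],(⟨0,[(19,0)]⟩,⟨0,[(18,0)]⟩),(⟨0,[(23,0)]⟩,⟨0,[(22,0)]⟩),⟨0,[(8,0)]⟩,.k,.k,
  .k,.k,.k,.k,⟨true,1,⟨1,[(28,1),(1,0),(0,0)]⟩,⟨1,[(0,0),(1,1),(1,0),(0,0),(21,1)]⟩⟩,⟨false,1,⟨2,
  [(1,0),(4,0),(23,1)]⟩,⟨0,[(16,0)]⟩⟩,⟨false,1,⟨1,[(2,1),(25,1),(1,0),(0,2)]⟩,⟨1,[(0,0),(3,0),(0,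
  0)]⟩⟩,⟨true,0,⟨2,[(1,0),(0,0),(0,0),(9,0),(1,0),(15,0)]⟩,⟨0,[(4,0)]⟩⟩,⟨false,0,⟨0,[]⟩,⟨0,[]⟩⟩,
  ⟨false,0,⟨0,[]⟩,⟨0,[]⟩⟩,[.e ⟨false,1,⟨1,[(9,0),(0,0),(19,0)]⟩,⟨0,[]⟩⟩ ⟨false,0,⟨1,[(0,0),(0,0),(0,
  0),(10,0)]⟩,⟨1,[(16,1),(11,1),(1,0),(0,0)]⟩⟩,.o ⟨false,1,⟨1,[(21,0),(7,1),(1,0)]⟩,⟨0,[(28,0)]⟩⟩,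
  .o ⟨false,1,⟨1,[(16,1),(4,0),(8,0)]⟩,⟨0,[(5,0)]⟩⟩,.a ⟨true,0,⟨0,[(16,0)]⟩,⟨0,[(13,0)]⟩⟩ ⟨false,1,
  ⟨1,[(30,0),(0,0)]⟩,⟨1,[(16,0),(0,0)]⟩⟩ ⟨true,0,⟨1,[(0,0),(0,0),(0,0),(10,0)]⟩,⟨0,[(16,0),(11,
  0)]⟩⟩]⟩) (.Q [0,0,0,-1,0,0,0,0,0,1] (.pp false [-1,1]) (.R ⟨0,false,false,true,[0,0,1],[1,-1,1],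
  [0,1,0,-1,0,0,0,1],(⟨0,[(20,0)]⟩,⟨0,[(19,0)]⟩),(⟨0,[(20,0),(2,0)]⟩,⟨0,[(9,0)]⟩),⟨0,[(9,0)]⟩,.k,.k,
  .k,.k,.k,.k,⟨true,0,⟨1,[(17,0),(0,0)]⟩,⟨0,[]⟩⟩,⟨false,0,⟨0,[(14,0),(2,0)]⟩,⟨1,[(22,0),(8,0)]⟩⟩,
  ⟨true,0,⟨0,[(29,0)]⟩,⟨0,[(30,0)]⟩⟩,⟨false,0,⟨0,[(0,0)]⟩,⟨1,[(22,0),(7,1),(1,0)]⟩⟩,⟨false,0,⟨0,[]⟩,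
  ⟨0,[]⟩⟩,⟨false,0,⟨0,[]⟩,⟨0,[]⟩⟩,[.o ⟨false,0,⟨0,[(5,0)]⟩,⟨3,[(2,1),(1,1),(11,1),(5,0),(9,2)]⟩⟩,.o
  ⟨false,1,⟨1,[(5,1),(4,0),(0,0),(20,0)]⟩,⟨0,[(2,0),(0,0),(24,0)]⟩⟩,.o ⟨false,1,⟨1,[(17,1),(4,0),(8,
  0)]⟩,⟨0,[(6,0)]⟩⟩,.a ⟨true,0,⟨0,[(17,0)]⟩,⟨0,[(14,0)]⟩⟩ ⟨false,1,⟨5,[(2,1),(2,5),(1,1),(23,0),(0,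
  2)]⟩,⟨0,[(3,0),(28,0)]⟩⟩ ⟨true,0,⟨0,[(5,0),(8,0)]⟩,⟨1,[(3,1),(18,0),(9,0)]⟩⟩]⟩) (.R ⟨0,false,
  false,false,[0,0,1],[0,1],[1,1,1],(⟨0,[(20,0)]⟩,⟨0,[(19,0)]⟩),(⟨0,[(24,0)]⟩,⟨0,[(23,0)]⟩),⟨0,[(9,
  0)]⟩,.k,.k,.k,.k,.k,.k,⟨true,0,⟨0,[(29,0)]⟩,⟨0,[(28,0),(1,0)]⟩⟩,⟨false,1,⟨2,[(2,0),(4,0),(23,1)]⟩,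
  ⟨0,[(17,0)]⟩⟩,⟨false,0,⟨5,[(1,3),(2,1),(12,0),(0,0),(13,1)]⟩,⟨0,[(0,0),(4,0),(8,0),(17,0)]⟩⟩,
  ⟨true,0,⟨4,[(1,0),(0,1),(1,2),(9,1),(1,0),(15,0)]⟩,⟨0,[(5,0)]⟩⟩,⟨false,0,⟨0,[]⟩,⟨0,[]⟩⟩,⟨false,0,
  ⟨0,[]⟩,⟨0,[]⟩⟩,[.o ⟨false,0,⟨0,[(0,0)]⟩,⟨1,[(10,0),(0,0),(17,1),(2,0)]⟩⟩,.o ⟨false,1,⟨1,[(22,0),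
  (7,1),(1,0)]⟩,⟨0,[(29,0)]⟩⟩,.o ⟨false,1,⟨1,[(17,1),(4,0),(8,0)]⟩,⟨0,[(6,0)]⟩⟩,.a ⟨true,0,⟨0,[(17,
  0)]⟩,⟨0,[(14,0)]⟩⟩ ⟨false,0,⟨0,[]⟩,⟨1,[(10,0),(0,0),(20,0)]⟩⟩ ⟨true,0,⟨0,[(0,0),(13,0)]⟩,⟨0,[(17,
  0),(11,0)]⟩⟩]⟩))))) (.I [0,1,-1,0,0,0,0,1] (.I [1,-1,1,1,-1,0,0,1] (.R ⟨2,true,false,false,[0,1],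
  [0,1,1],[0,0,1,1],(⟨0,[]⟩,⟨0,[]⟩),(⟨0,[(18,0),(3,0)]⟩,⟨0,[(6,0)]⟩),⟨0,[]⟩,.k,.k,.k,.k,.k,.k,⟨true,
  1,⟨1,[(14,1),(0,1),(13,0),(0,0)]⟩,⟨0,[(0,0),(26,0)]⟩⟩,⟨false,1,⟨0,[(15,0),(13,0)]⟩,⟨0,[(4,0)]⟩⟩,
  ⟨false,1,⟨1,[(8,0),(0,0),(20,0)]⟩,⟨0,[]⟩⟩,⟨true,0,⟨1,[(0,0),(2,0),(11,0),(13,0)]⟩,⟨0,[(14,0)]⟩⟩,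
  ⟨true,0,⟨0,[(28,0)]⟩,⟨0,[(27,0)]⟩⟩,⟨false,0,⟨0,[(0,0),(14,0),(13,0)]⟩,⟨0,[(14,0),(12,0),(2,0)]⟩⟩,
  []⟩) (.Q [0,0,0,0,0,0,-1,-1,0,0,-1] (.p false [0,0,1] [] (⟨0,[(18,0)]⟩,⟨0,[(17,0)]⟩) .k 0 (⟨0,[]⟩,
  ⟨0,[]⟩) .k .k) (.Q [0,0,1,-1,0,0,1,0,0,0,1] (.p true [0,0,1] [] (⟨0,[(19,0)]⟩,⟨0,[(18,0)]⟩) .k 0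
  (⟨0,[]⟩,⟨0,[]⟩) .k .k) (.R ⟨0,false,false,false,[0,0,1],[0,1],[1,1,1],(⟨0,[(20,0)]⟩,⟨0,[(19,0)]⟩),
  (⟨0,[(24,0)]⟩,⟨0,[(23,0)]⟩),⟨0,[(9,0)]⟩,.k,.k,.k,.k,.k,.k,⟨true,0,⟨0,[(29,0)]⟩,⟨0,[(28,0),(1,
  0)]⟩⟩,⟨false,1,⟨1,[(14,1),(7,0),(8,0)]⟩,⟨0,[(17,0)]⟩⟩,⟨false,0,⟨0,[(1,0),(15,0)]⟩,⟨0,[(3,0),(28,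
  0)]⟩⟩,⟨true,0,⟨0,[(1,0),(28,0)]⟩,⟨0,[(5,0)]⟩⟩,⟨false,0,⟨0,[]⟩,⟨0,[]⟩⟩,⟨false,0,⟨0,[]⟩,⟨0,[]⟩⟩,[.a
  ⟨true,0,⟨0,[(30,0)]⟩,⟨0,[(0,0),(13,0)]⟩⟩ ⟨false,0,⟨0,[(34,0)]⟩,⟨1,[(31,0),(0,0)]⟩⟩ ⟨true,0,⟨0,[(6,
  0),(23,0)]⟩,⟨0,[(0,0)]⟩⟩,.o ⟨false,1,⟨1,[(22,0),(7,1),(1,0)]⟩,⟨0,[(29,0)]⟩⟩,.o ⟨false,1,⟨1,[(17,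
  1),(4,0),(8,0)]⟩,⟨0,[(6,0)]⟩⟩,.e ⟨false,0,⟨0,[]⟩,⟨1,[(10,0),(0,0),(20,0)]⟩⟩ ⟨false,1,⟨1,[(14,1),
  (7,0),(7,1),(1,0)]⟩,⟨0,[(0,0)]⟩⟩]⟩) (.R ⟨0,false,false,false,[0,0,1],[0,1],[1,1,1],(⟨0,[(20,0)]⟩,
  ⟨0,[(19,0)]⟩),(⟨0,[(24,0)]⟩,⟨0,[(23,0)]⟩),⟨0,[(9,0)]⟩,.k,.k,.k,.k,.k,.k,⟨true,0,⟨0,[(29,0)]⟩,⟨0,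
  [(28,0),(1,0)]⟩⟩,⟨false,1,⟨6,[(0,1),(0,0),(2,0),(2,1),(14,0),(8,4)]⟩,⟨0,[(17,0)]⟩⟩,⟨false,0,⟨0,
  [(1,0),(15,0)]⟩,⟨0,[(3,0),(28,0)]⟩⟩,⟨true,0,⟨0,[(1,0),(28,0)]⟩,⟨0,[(5,0)]⟩⟩,⟨false,0,⟨0,[]⟩,⟨0,
  []⟩⟩,⟨false,0,⟨0,[]⟩,⟨0,[]⟩⟩,[.e ⟨false,0,⟨0,[(34,0)]⟩,⟨1,[(31,0),(0,0)]⟩⟩ ⟨false,0,⟨0,[(0,0)]⟩,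
  ⟨1,[(2,0),(2,0),(11,0),(14,0)]⟩⟩,.o ⟨false,1,⟨1,[(22,0),(7,1),(1,0)]⟩,⟨0,[(29,0)]⟩⟩,.o ⟨false,1,
  ⟨1,[(17,1),(4,0),(8,0)]⟩,⟨0,[(6,0)]⟩⟩,.a ⟨true,0,⟨0,[(17,0)]⟩,⟨0,[(14,0)]⟩⟩ ⟨false,0,⟨0,[]⟩,⟨1,
  [(10,0),(0,0),(20,0)]⟩⟩ ⟨true,0,⟨0,[(0,0)]⟩,⟨0,[(17,0),(11,0)]⟩⟩]⟩)) (.Q [0,0,0,-1,0,0,-1,0,0,0,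
  -1] (.p false [0,0,1] [] (⟨0,[(19,0)]⟩,⟨0,[(18,0)]⟩) .k 0 (⟨0,[]⟩,⟨0,[]⟩) .k .k) (.I [1,-1,0,-1,1,
  0,0,-1] (.Q [0,0,0,-1,0,0,0,0,0,1] (.pp false [-1,1]) (.R ⟨0,false,false,false,[0,1,-1],[0,1],[1,
  1,1],(⟨0,[(11,0)]⟩,⟨0,[(22,0),(2,0)]⟩),(⟨0,[(26,0)]⟩,⟨0,[(25,0)]⟩),⟨0,[(22,0)]⟩,.k,.k,.k,.k,.k,.k,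
  ⟨true,0,⟨0,[(31,0)]⟩,⟨0,[(30,0),(1,0)]⟩⟩,⟨false,1,⟨0,[(19,0),(13,0)]⟩,⟨0,[(8,0)]⟩⟩,⟨false,0,⟨0,
  [(2,0),(0,0)]⟩,⟨0,[(1,0),(30,1)]⟩⟩,⟨true,0,⟨0,[(3,0)]⟩,⟨0,[(18,0)]⟩⟩,⟨false,0,⟨0,[]⟩,⟨0,[]⟩⟩,
  ⟨false,0,⟨0,[]⟩,⟨0,[]⟩⟩,[.a ⟨true,0,⟨0,[(32,0)]⟩,⟨0,[(0,0)]⟩⟩ ⟨false,0,⟨0,[(36,0)]⟩,⟨1,[(33,0),(0,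
  0)]⟩⟩ ⟨true,0,⟨0,[(19,0),(12,0)]⟩,⟨0,[(2,0)]⟩⟩,.o ⟨false,1,⟨1,[(24,0),(7,1),(1,0)]⟩,⟨0,[(31,0)]⟩⟩,
  .o ⟨false,1,⟨0,[(16,0),(7,0)]⟩,⟨0,[(19,0)]⟩⟩,.e ⟨false,0,⟨0,[]⟩,⟨1,[(12,0),(0,0),(20,0)]⟩⟩ ⟨false,
  1,⟨1,[(19,1),(12,1),(0,0),(0,0)]⟩,⟨0,[(2,0)]⟩⟩]⟩) (.Q [0,0,0,1,0,0,-1,-1,0,0,-1] (.p false [0,0,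
  1] [] (⟨0,[(22,0)]⟩,⟨0,[(21,0)]⟩) .k 0 (⟨0,[]⟩,⟨0,[]⟩) .k .k) (.R ⟨2,true,false,true,[0,1],[0,0,
  1],[1,0,1],(⟨0,[]⟩,⟨0,[]⟩),(⟨0,[(23,0)]⟩,⟨0,[(22,0)]⟩),⟨0,[]⟩,.k,.k,.k,.k,.k,.k,⟨false,1,⟨3,[(0,
  1),(1,1),(17,1),(13,0),(0,0)]⟩,⟨0,[(6,0)]⟩⟩,⟨true,0,⟨0,[(20,0)]⟩,⟨0,[(9,0)]⟩⟩,⟨false,1,⟨6,[(2,2),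
  (4,0),(0,1),(12,1),(13,2)]⟩,⟨0,[(33,0)]⟩⟩,⟨true,0,⟨0,[(8,0)]⟩,⟨0,[(0,0)]⟩⟩,⟨true,0,⟨0,[]⟩,⟨0,[(37,
  0)]⟩⟩,⟨false,0,⟨0,[(4,0)]⟩,⟨11,[(0,5),(1,3),(2,1),(4,1),(10,1),(3,0),(9,4)]⟩⟩,[]⟩) (.R ⟨0,false,
  false,false,[0,0,1],[0,1],[1,1,1],(⟨0,[(23,0)]⟩,⟨0,[(22,0)]⟩),(⟨0,[(27,0)]⟩,⟨0,[(26,0)]⟩),⟨0,[(12,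
  0)]⟩,.k,.k,.k,.k,.k,.k,⟨true,0,⟨0,[(32,0)]⟩,⟨0,[(31,0),(1,0)]⟩⟩,⟨false,1,⟨1,[(17,1),(7,0),(8,0)]⟩,
  ⟨0,[(20,0)]⟩⟩,⟨true,0,⟨0,[(19,0),(0,0)]⟩,⟨0,[(0,0),(0,0),(15,0)]⟩⟩,⟨false,1,⟨0,[(19,0),(13,0),(1,
  0)]⟩,⟨0,[(0,0)]⟩⟩,⟨false,0,⟨0,[]⟩,⟨0,[]⟩⟩,⟨false,0,⟨0,[]⟩,⟨0,[]⟩⟩,[.o ⟨false,0,⟨0,[(1,0)]⟩,⟨1,[(5,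
  0),(2,0),(12,0),(13,0)]⟩⟩,.o ⟨false,1,⟨1,[(25,0),(7,1),(1,0)]⟩,⟨0,[(32,0)]⟩⟩,.o ⟨false,1,⟨1,[(20,
  1),(4,0),(8,0)]⟩,⟨0,[(9,0)]⟩⟩,.a ⟨true,0,⟨0,[(20,0)]⟩,⟨0,[(17,0)]⟩⟩ ⟨false,0,⟨0,[]⟩,⟨1,[(13,0),(0,
  0),(20,0)]⟩⟩ ⟨true,0,⟨0,[(1,0),(15,0)]⟩,⟨0,[(20,0),(11,0)]⟩⟩]⟩))) (.Q [0,-1,0,1,0,0,1,1,0,0,1]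
  (.p true [0,0,1] [] (⟨0,[(21,0)]⟩,⟨0,[(20,0)]⟩) .k 0 (⟨0,[]⟩,⟨0,[]⟩) .k .k) (.R ⟨2,true,false,
  false,[0,1],[0,1,1],[1,0,1],(⟨0,[]⟩,⟨0,[]⟩),(⟨0,[(22,0),(3,0)]⟩,⟨0,[(10,0)]⟩),⟨0,[]⟩,.k,.k,.k,.k,
  .k,.k,⟨true,1,⟨0,[(4,0),(25,0)]⟩,⟨0,[(1,0),(28,0)]⟩⟩,⟨false,1,⟨0,[(0,0),(3,0)]⟩,⟨0,[(8,0)]⟩⟩,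
  ⟨false,1,⟨0,[(31,0),(2,0)]⟩,⟨0,[(32,0)]⟩⟩,⟨true,0,⟨0,[(3,0)]⟩,⟨0,[(18,0)]⟩⟩,⟨true,0,⟨0,[]⟩,⟨0,
  [(36,0)]⟩⟩,⟨false,0,⟨0,[(0,0)]⟩,⟨2,[(2,0),(1,1),(13,0),(1,0),(9,0),(3,0)]⟩⟩,[]⟩) (.Q [0,0,0,1,0,0,
  -1,-1,0,0,-1] (.p false [0,0,1] [] (⟨0,[(22,0)]⟩,⟨0,[(21,0)]⟩) .k 0 (⟨0,[]⟩,⟨0,[]⟩) .k .k) (.R ⟨2,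
  true,false,true,[0,1],[0,0,1],[0,0,1,1],(⟨0,[]⟩,⟨0,[]⟩),(⟨0,[(23,0)]⟩,⟨0,[(22,0)]⟩),⟨0,[]⟩,.k,.k,
  .k,.k,.k,.k,⟨false,1,⟨1,[(0,1),(19,1),(13,0),(0,0)]⟩,⟨1,[(2,0),(4,0),(24,0)]⟩⟩,⟨true,0,⟨0,[(20,
  0)]⟩,⟨0,[(9,0)]⟩⟩,⟨false,1,⟨1,[(13,0),(0,0),(20,0)]⟩,⟨0,[]⟩⟩,⟨true,0,⟨0,[(8,0)]⟩,⟨0,[(0,0)]⟩⟩,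
  ⟨true,0,⟨0,[(33,0)]⟩,⟨0,[(32,0)]⟩⟩,⟨false,0,⟨0,[(4,0)]⟩,⟨3,[(0,1),(0,0),(3,0),(15,0),(13,2)]⟩⟩,
  []⟩) (.I [1,1,0,-1,-1,0,0,1] (.Q [0,0,-1,1,0,0,-1,0,0,0,-1] (.p false [0,0,1] [] (⟨0,[(24,0)]⟩,⟨0,
  [(23,0)]⟩) .k 0 (⟨0,[]⟩,⟨0,[]⟩) .k .k) (.R ⟨0,false,false,false,[0,0,1],[0,1],[1,1,1],(⟨0,[(25,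
  0)]⟩,⟨0,[(24,0)]⟩),(⟨0,[(29,0)]⟩,⟨0,[(28,0)]⟩),⟨0,[(14,0)]⟩,.k,.k,.k,.k,.k,.k,⟨true,0,⟨0,[(34,
  0)]⟩,⟨0,[(33,0),(1,0)]⟩⟩,⟨false,1,⟨9,[(0,5),(6,1),(1,1),(2,1),(14,0),(8,3),(0,0)]⟩,⟨0,[(22,0)]⟩⟩,
  ⟨true,0,⟨0,[(21,0),(0,0)]⟩,⟨0,[(0,0),(1,0)]⟩⟩,⟨false,1,⟨0,[(21,0),(13,0),(1,0)]⟩,⟨0,[(2,0)]⟩⟩,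
  ⟨false,0,⟨0,[]⟩,⟨0,[]⟩⟩,⟨false,0,⟨0,[]⟩,⟨0,[]⟩⟩,[.e ⟨false,0,⟨0,[(39,0)]⟩,⟨1,[(36,0),(0,0)]⟩⟩
  ⟨false,0,⟨0,[(0,0)]⟩,⟨1,[(7,0),(2,0),(11,0),(14,0)]⟩⟩,.o ⟨false,1,⟨1,[(27,0),(7,1),(1,0)]⟩,⟨0,
  [(34,0)]⟩⟩,.o ⟨false,1,⟨1,[(22,1),(4,0),(8,0)]⟩,⟨0,[(11,0)]⟩⟩,.a ⟨true,0,⟨0,[(22,0)]⟩,⟨0,[(19,
  0)]⟩⟩ ⟨false,0,⟨0,[]⟩,⟨1,[(15,0),(0,0),(20,0)]⟩⟩ ⟨true,0,⟨0,[(0,0)]⟩,⟨0,[(22,0),(11,0)]⟩⟩]⟩) (.R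
  ⟨0,false,false,false,[0,0,1],[0,1],[1,1,1],(⟨0,[(25,0)]⟩,⟨0,[(24,0)]⟩),(⟨0,[(29,0)]⟩,⟨0,[(28,
  0)]⟩),⟨0,[(14,0)]⟩,.k,.k,.k,.k,.k,.k,⟨true,0,⟨0,[(34,0)]⟩,⟨0,[(33,0),(1,0)]⟩⟩,⟨false,1,⟨1,[(19,1),
  (7,0),(8,0)]⟩,⟨0,[(22,0)]⟩⟩,⟨true,0,⟨0,[(21,0),(0,0)]⟩,⟨1,[(1,0),(2,0),(31,0),(0,0)]⟩⟩,⟨false,1,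
  ⟨0,[(21,0),(13,0),(1,0)]⟩,⟨0,[(2,0)]⟩⟩,⟨false,0,⟨0,[]⟩,⟨0,[]⟩⟩,⟨false,0,⟨0,[]⟩,⟨0,[]⟩⟩,[.a ⟨true,
  0,⟨0,[(35,0)]⟩,⟨0,[(0,0),(18,0)]⟩⟩ ⟨false,0,⟨0,[(39,0)]⟩,⟨1,[(36,0),(0,0)]⟩⟩ ⟨true,0,⟨0,[(11,0),
  (23,0)]⟩,⟨0,[(0,0)]⟩⟩,.o ⟨false,1,⟨1,[(27,0),(7,1),(1,0)]⟩,⟨0,[(34,0)]⟩⟩,.o ⟨false,1,⟨1,[(22,1),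
  (4,0),(8,0)]⟩,⟨0,[(11,0)]⟩⟩,.e ⟨false,0,⟨0,[]⟩,⟨1,[(15,0),(0,0),(20,0)]⟩⟩ ⟨false,1,⟨1,[(19,1),(7,
  0),(7,1),(1,0)]⟩,⟨0,[(0,0)]⟩⟩]⟩)) (.I [0,1,-1,-2,1,0,0,-1] (.Q [0,0,0,-1,0,0,0,0,0,1] (.pp false
  [-1,1]) (.R ⟨0,false,false,false,[0,1,-1],[0,1],[1,1,1],(⟨0,[(15,0)]⟩,⟨0,[(26,0),(2,0)]⟩),(⟨0,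
  [(30,0)]⟩,⟨0,[(29,0)]⟩),⟨0,[(26,0)]⟩,.k,.k,.k,.k,.k,.k,⟨true,0,⟨0,[(35,0)]⟩,⟨0,[(34,0),(1,0)]⟩⟩,
  ⟨false,1,⟨0,[(23,0),(13,0)]⟩,⟨0,[(12,0)]⟩⟩,⟨false,0,⟨7,[(3,4),(1,1),(0,2),(3,0),(13,1),(13,0)]⟩,
  ⟨0,[(2,0)]⟩⟩,⟨true,0,⟨0,[(7,0)]⟩,⟨0,[(22,0)]⟩⟩,⟨false,0,⟨0,[]⟩,⟨0,[]⟩⟩,⟨false,0,⟨0,[]⟩,⟨0,[]⟩⟩,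
  [.a ⟨true,0,⟨0,[(36,0)]⟩,⟨0,[(0,0)]⟩⟩ ⟨false,0,⟨0,[(40,0)]⟩,⟨1,[(37,0),(0,0)]⟩⟩ ⟨true,0,⟨0,[(23,
  0),(12,0)]⟩,⟨0,[(6,0)]⟩⟩,.o ⟨false,1,⟨1,[(28,0),(7,1),(1,0)]⟩,⟨0,[(35,0)]⟩⟩,.o ⟨false,1,⟨0,[(20,
  0),(7,0)]⟩,⟨0,[(23,0)]⟩⟩,.e ⟨false,0,⟨0,[]⟩,⟨25,[(2,3),(5,3),(4,1),(7,7),(2,3),(3,0),(9,16)]⟩⟩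
  ⟨false,1,⟨0,[(2,0),(4,0)]⟩,⟨0,[(6,0)]⟩⟩]⟩) (.R ⟨0,false,false,false,[0,0,1],[0,1],[1,1,1],(⟨0,
  [(26,0)]⟩,⟨0,[(25,0)]⟩),(⟨0,[(30,0)]⟩,⟨0,[(29,0)]⟩),⟨0,[(15,0)]⟩,.k,.k,.k,.k,.k,.k,⟨true,0,⟨0,
  [(35,0)]⟩,⟨0,[(34,0),(1,0)]⟩⟩,⟨false,1,⟨1,[(20,1),(7,0),(8,0)]⟩,⟨0,[(23,0)]⟩⟩,⟨true,0,⟨0,[(22,0),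
  (0,0)]⟩,⟨0,[(0,0),(2,0),(16,0)]⟩⟩,⟨false,1,⟨4,[(0,1),(1,3),(1,0),(8,1),(24,0)]⟩,⟨0,[(3,0)]⟩⟩,
  ⟨false,0,⟨0,[]⟩,⟨0,[]⟩⟩,⟨false,0,⟨0,[]⟩,⟨0,[]⟩⟩,[.o ⟨false,0,⟨0,[(0,0)]⟩,⟨1,[(8,0),(2,0),(12,0),
  (13,0)]⟩⟩,.o ⟨false,1,⟨1,[(28,0),(7,1),(1,0)]⟩,⟨0,[(35,0)]⟩⟩,.o ⟨false,1,⟨1,[(23,1),(4,0),(8,0)]⟩,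
  ⟨0,[(12,0)]⟩⟩,.a ⟨true,0,⟨0,[(23,0)]⟩,⟨0,[(20,0)]⟩⟩ ⟨false,0,⟨0,[]⟩,⟨25,[(2,3),(5,3),(4,1),(7,7),
  (2,3),(3,0),(9,16)]⟩⟩ ⟨true,0,⟨0,[(0,0),(19,0)]⟩,⟨0,[(23,0),(11,0)]⟩⟩]⟩)) (.R ⟨0,false,false,
  false,[0,0,1],[0,1],[1,1,1],(⟨0,[(25,0)]⟩,⟨0,[(24,0)]⟩),(⟨0,[(29,0)]⟩,⟨0,[(28,0)]⟩),⟨0,[(14,0)]⟩,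
  .k,.k,.k,.k,.k,.k,⟨true,0,⟨0,[(34,0)]⟩,⟨5,[(0,1),(0,1),(20,0),(0,0),(9,1)]⟩⟩,⟨false,1,⟨1,[(19,1),
  (7,0),(8,0)]⟩,⟨0,[(22,0)]⟩⟩,⟨true,0,⟨0,[(21,0),(0,0)]⟩,⟨0,[(0,0),(1,0),(0,0),(32,0)]⟩⟩,⟨false,1,
  ⟨0,[(1,0),(9,0)]⟩,⟨0,[(2,0)]⟩⟩,⟨false,0,⟨0,[]⟩,⟨0,[]⟩⟩,⟨false,0,⟨0,[]⟩,⟨0,[]⟩⟩,[.e ⟨false,0,⟨0,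
  [(39,0)]⟩,⟨1,[(36,0),(0,0)]⟩⟩ ⟨false,0,⟨0,[(0,0),(2,0),(32,0)]⟩,⟨1,[(7,0),(2,0),(11,0),(14,0)]⟩⟩,
  .o ⟨false,1,⟨3,[(0,0),(0,1),(6,0),(18,1),(9,0)]⟩,⟨0,[(34,0)]⟩⟩,.o ⟨false,1,⟨1,[(22,1),(4,0),(8,
  0)]⟩,⟨0,[(11,0)]⟩⟩,.a ⟨true,0,⟨0,[(22,0)]⟩,⟨0,[(19,0)]⟩⟩ ⟨false,0,⟨0,[]⟩,⟨25,[(1,3),(5,3),(4,1),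
  (7,7),(2,3),(3,0),(9,16)]⟩⟩ ⟨true,0,⟨0,[(0,0),(2,0),(32,0)]⟩,⟨0,[(22,0),(11,0)]⟩⟩]⟩)))))) (.Q [0,
  0,0,1,0,0,-1,-1,0,0,-1] (.p false [0,0,1] [] (⟨0,[(20,0)]⟩,⟨0,[(19,0)]⟩) .k 0 (⟨0,[]⟩,⟨0,[]⟩) .k
  .k) (.R ⟨2,true,false,false,[0,1],[0,0,1],[0,1,1,1],(⟨0,[]⟩,⟨0,[]⟩),(⟨0,[(21,0)]⟩,⟨0,[(20,0)]⟩),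
  ⟨0,[]⟩,.k,.k,.k,.k,.k,.k,⟨false,0,⟨0,[(1,0),(15,0)]⟩,⟨1,[(4,0),(0,0),(23,0),(3,0)]⟩⟩,⟨true,0,⟨0,
  [(18,0)]⟩,⟨0,[(7,0)]⟩⟩,⟨true,0,⟨0,[(35,0)]⟩,⟨0,[]⟩⟩,⟨false,1,⟨0,[(6,0),(26,0)]⟩,⟨0,[(0,0)]⟩⟩,
  ⟨false,0,⟨0,[(31,0)]⟩,⟨0,[(30,0),(2,0)]⟩⟩,⟨true,0,⟨0,[(2,0)]⟩,⟨0,[(17,0)]⟩⟩,[]⟩) (.Q [0,0,0,0,0,0,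
  1,0,0,1,1] (.p true [1,-1,1] [] (⟨0,[(21,0),(2,0)]⟩,⟨0,[(10,0)]⟩) .k 0 (⟨0,[]⟩,⟨0,[]⟩) .k .k) (.R
  ⟨0,false,false,false,[0,1,-1],[0,1],[1,1,1],(⟨0,[(11,0)]⟩,⟨0,[(22,0),(2,0)]⟩),(⟨0,[(26,0)]⟩,⟨0,
  [(25,0)]⟩),⟨0,[(22,0)]⟩,.k,.k,.k,.k,.k,.k,⟨true,0,⟨0,[(31,0)]⟩,⟨0,[(30,0),(1,0)]⟩⟩,⟨false,1,⟨9,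
  [(2,7),(1,3),(1,1),(10,1),(15,0),(0,2)]⟩,⟨0,[(8,0)]⟩⟩,⟨false,0,⟨0,[(1,0),(6,0)]⟩,⟨0,[(2,0),(15,0),
  (15,0)]⟩⟩,⟨true,0,⟨0,[(3,0)]⟩,⟨0,[(18,0)]⟩⟩,⟨false,0,⟨0,[]⟩,⟨0,[]⟩⟩,⟨false,0,⟨0,[]⟩,⟨0,[]⟩⟩,[.e
  ⟨false,0,⟨0,[(36,0)]⟩,⟨1,[(33,0),(0,0)]⟩⟩ ⟨false,0,⟨0,[(2,0)]⟩,⟨4,[(4,0),(1,1),(2,1),(8,0),(5,0),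
  (9,0)]⟩⟩,.o ⟨false,1,⟨1,[(24,0),(7,1),(1,0)]⟩,⟨0,[(31,0)]⟩⟩,.o ⟨false,1,⟨0,[(16,0),(7,0)]⟩,⟨0,
  [(19,0)]⟩⟩,.a ⟨true,0,⟨0,[(8,0)]⟩,⟨0,[(0,0)]⟩⟩ ⟨false,0,⟨0,[]⟩,⟨1,[(12,0),(0,0),(20,0)]⟩⟩ ⟨true,0,
  ⟨0,[(2,0)]⟩,⟨0,[(8,0),(22,0)]⟩⟩]⟩) (.R ⟨0,false,false,false,[0,0,1],[0,1],[1,1,1],(⟨0,[(22,0)]⟩,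
  ⟨0,[(21,0)]⟩),(⟨0,[(26,0)]⟩,⟨0,[(25,0)]⟩),⟨0,[(11,0)]⟩,.k,.k,.k,.k,.k,.k,⟨true,0,⟨0,[(31,0)]⟩,⟨0,
  [(30,0),(1,0)]⟩⟩,⟨false,1,⟨2,[(0,0),(8,0),(23,2)]⟩,⟨0,[(19,0)]⟩⟩,⟨true,0,⟨0,[(18,0),(0,0)]⟩,⟨0,
  [(0,0),(0,0),(0,0),(13,0)]⟩⟩,⟨false,1,⟨0,[(18,0),(13,0),(1,0)]⟩,⟨0,[(1,0)]⟩⟩,⟨false,0,⟨0,[]⟩,⟨0,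
  []⟩⟩,⟨false,0,⟨0,[]⟩,⟨0,[]⟩⟩,[.o ⟨false,0,⟨0,[(0,0),(1,0)]⟩,⟨1,[(4,0),(2,0),(12,0),(13,0)]⟩⟩,.o
  ⟨false,1,⟨1,[(24,0),(7,1),(1,0)]⟩,⟨0,[(31,0)]⟩⟩,.o ⟨false,1,⟨13,[(1,1),(0,5),(1,3),(12,1),(1,3),
  (4,6),(9,2)]⟩,⟨0,[(8,0)]⟩⟩,.a ⟨true,0,⟨0,[(19,0)]⟩,⟨0,[(16,0)]⟩⟩ ⟨false,0,⟨0,[]⟩,⟨1,[(12,0),(0,0),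
  (20,0)]⟩⟩ ⟨true,0,⟨0,[(0,0),(1,0),(13,0)]⟩,⟨0,[(19,0),(11,0)]⟩⟩]⟩)))))) (.Q [0,0,0,0,0,0,-2,-1,0,
  0,-2] (.p false [0,0,1] [0,1,-1] (⟨0,[(17,0)]⟩,⟨0,[(16,0)]⟩) .k 2 (⟨0,[(6,0)]⟩,⟨0,[(17,0),(2,
  0)]⟩) .k (.i 0 ⟨0,[(17,1)]⟩ ⟨0,[(5,0),(0,0)]⟩)) (.Q [0,0,0,1,0,0,-1,-1,0,0,-1] (.p false [0,0,1]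
  [] (⟨0,[(18,0)]⟩,⟨0,[(17,0)]⟩) .k 0 (⟨0,[]⟩,⟨0,[]⟩) .k .k) (.R ⟨0,false,false,false,[0,0,1],[0,1],
  [1,1,1],(⟨0,[(19,0)]⟩,⟨0,[(18,0)]⟩),(⟨0,[(23,0)]⟩,⟨0,[(22,0)]⟩),⟨0,[(8,0)]⟩,.k,.k,.k,.k,.k,.k,
  ⟨true,0,⟨0,[(28,0)]⟩,⟨0,[(27,0),(1,0)]⟩⟩,⟨false,1,⟨1,[(13,1),(7,0),(8,0)]⟩,⟨0,[(16,0)]⟩⟩,⟨false,0,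
  ⟨1,[(2,0),(12,0),(0,0)]⟩,⟨0,[(3,0),(23,0),(1,1)]⟩⟩,⟨true,0,⟨0,[(0,0)]⟩,⟨0,[(4,0)]⟩⟩,⟨false,0,⟨0,
  []⟩,⟨0,[]⟩⟩,⟨false,0,⟨0,[]⟩,⟨0,[]⟩⟩,[.a ⟨true,0,⟨0,[(29,0)]⟩,⟨0,[(2,0),(1,0),(8,0)]⟩⟩ ⟨false,0,⟨0,
  [(33,0)]⟩,⟨1,[(30,0),(0,0)]⟩⟩ ⟨true,0,⟨0,[(5,0),(23,0)]⟩,⟨0,[(2,0),(1,0)]⟩⟩,.o ⟨false,1,⟨1,[(21,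
  0),(7,1),(1,0)]⟩,⟨0,[(28,0)]⟩⟩,.o ⟨false,1,⟨1,[(16,1),(4,0),(8,0)]⟩,⟨0,[(5,0)]⟩⟩,.e ⟨false,0,⟨0,
  []⟩,⟨1,[(9,0),(0,0),(20,0)]⟩⟩ ⟨false,1,⟨1,[(13,1),(7,0),(7,1),(1,0)]⟩,⟨0,[(2,0),(1,0)]⟩⟩]⟩) (.K
  ⟨0,[0,1,-1],0,0,(⟨0,[(8,0)]⟩,⟨0,[(19,0),(2,0)]⟩),.k,.k,(.r 0 ⟨1,[(2,0),(12,0),(0,1),(0,0),(11,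
  3)]⟩ ⟨0,[(0,1),(0,0),(28,0)]⟩),(.r 0 ⟨0,[(2,1),(23,0),(2,0)]⟩ ⟨7,[(0,9),(2,3),(2,5),(7,1),(6,2),
  (7,9),(1,0)]⟩),.k,[⟨0,[(0,1),(1,1),(23,0),(2,1)]⟩,⟨0,[(5,0)]⟩,⟨0,[(4,0)]⟩,⟨0,[(15,0),(13,0)]⟩]⟩))
  (.S ⟨1,0,[0,0,0,0,0,0,0,-1],[1,0,-1],[0,1,0,0,0,0,0,-1],(⟨0,[(17,0)]⟩,⟨0,[(18,0)]⟩),⟨0,[(6,0)]⟩,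
  .k,.k,⟨true,0,⟨0,[(32,0)]⟩,⟨0,[]⟩⟩,⟨false,1,⟨1,[(8,0),(0,0),(20,0)]⟩,⟨0,[]⟩⟩,⟨false,0,⟨0,[(28,
  0)]⟩,⟨0,[(27,0),(2,0)]⟩⟩,⟨true,0,⟨0,[(28,0)]⟩,⟨0,[(27,0)]⟩⟩,[.a ⟨true,0,⟨1,[(1,0),(10,1),(1,0),(0,
  0)]⟩,⟨0,[(0,0),(3,0)]⟩⟩ ⟨true,0,⟨0,[(1,0),(23,0)]⟩,⟨0,[(0,0),(3,1),(21,0)]⟩⟩ ⟨false,1,⟨1,[(1,0),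
  (12,0),(0,0),(13,1)]⟩,⟨0,[(0,0),(3,1)]⟩⟩,.e ⟨false,1,⟨1,[(1,0),(12,0),(0,0),(13,1)]⟩,⟨0,[(0,0),(3,
  1)]⟩⟩ ⟨false,1,⟨0,[(1,0),(27,0)]⟩,⟨0,[(4,0),(8,0)]⟩⟩,.o ⟨false,0,⟨0,[(4,0)]⟩,⟨1,[(15,1),(4,0),(8,
  0)]⟩⟩,.e ⟨false,1,⟨1,[(1,0),(12,0),(0,0),(13,1)]⟩,⟨0,[(0,0),(3,1),(21,0)]⟩⟩ ⟨false,1,⟨0,[(1,0),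
  (27,0)]⟩,⟨0,[(0,0),(3,0),(11,0)]⟩⟩]⟩)))) (.I [1,0,0,0,0,0,0,-1] (.R ⟨2,true,false,true,[0,1],[0,0,
  1],[1,1,1],(⟨0,[]⟩,⟨0,[]⟩),(⟨0,[(16,0)]⟩,⟨0,[(15,0)]⟩),⟨0,[]⟩,.k,.k,.k,.k,.k,.k,⟨false,0,⟨0,[(0,
  0)]⟩,⟨1,[(10,1),(0,1),(6,0),(9,0)]⟩⟩,⟨true,0,⟨0,[(13,0)]⟩,⟨0,[(2,0)]⟩⟩,⟨true,0,⟨0,[(25,0)]⟩,⟨0,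
  [(26,0)]⟩⟩,⟨false,1,⟨0,[(11,0),(13,0),(2,0)]⟩,⟨0,[(1,0)]⟩⟩,⟨false,0,⟨0,[]⟩,⟨1,[(6,0),(0,0),(20,
  0)]⟩⟩,⟨true,0,⟨0,[(11,0)]⟩,⟨0,[(1,0),(23,0)]⟩⟩,[]⟩) (.Q [0,0,0,-1,0,0,1,1,0,1,1] (.p true [1,-1,
  1] [] (⟨0,[(16,0),(2,0)]⟩,⟨0,[(5,0)]⟩) .k 0 (⟨0,[]⟩,⟨0,[]⟩) .k .k) (.R ⟨2,false,false,false,[0,1],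
  [0,1,-1],[0,1],(⟨0,[]⟩,⟨0,[]⟩),(⟨0,[(6,0)]⟩,⟨0,[(17,0),(2,0)]⟩),⟨0,[]⟩,.k,.k,.k,.k,.k,.k,⟨false,1,
  ⟨0,[(1,0),(24,0),(1,0)]⟩,⟨0,[(2,0),(11,0)]⟩⟩,⟨true,0,⟨0,[(3,0)]⟩,⟨0,[(14,0)]⟩⟩,⟨false,1,⟨1,[(26,
  1),(1,0),(0,0)]⟩,⟨0,[(25,0),(1,0)]⟩⟩,⟨true,0,⟨0,[(2,0),(23,0)]⟩,⟨0,[(12,0)]⟩⟩,⟨false,1,⟨1,[(7,0),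
  (0,0),(19,0)]⟩,⟨0,[(25,0)]⟩⟩,⟨false,0,⟨0,[(2,0)]⟩,⟨1,[(0,1),(6,0),(0,0),(10,0)]⟩⟩,[.a ⟨true,0,⟨1,
  [(2,0),(10,0),(13,0)]⟩,⟨0,[(0,0)]⟩⟩ ⟨true,0,⟨0,[(31,0)]⟩,⟨0,[(25,0)]⟩⟩ ⟨false,0,⟨1,[(2,0),(10,0),
  (13,0)]⟩,⟨1,[(0,1),(18,0),(8,0)]⟩⟩,.e ⟨false,1,⟨1,[(7,0),(0,0),(19,0)]⟩,⟨0,[]⟩⟩ ⟨false,0,⟨0,[(2,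
  0)]⟩,⟨3,[(0,1),(6,0),(0,0),(3,1),(6,0),(6,1),(1,1)]⟩⟩,.o ⟨false,1,⟨1,[(19,0),(8,0)]⟩,⟨1,[(14,0),
  (0,0)]⟩⟩,.fo]⟩) (.I [0,-1,1] (.Q [0,1,0,-1,0,0,1,1,0,1,1] (.p true [1,-1,1] [] (⟨0,[(18,0),(2,
  0)]⟩,⟨0,[(7,0)]⟩) .k 0 (⟨0,[]⟩,⟨0,[]⟩) .k .k) (.R ⟨2,false,false,false,[0,1],[0,1,-1],[1,1],(⟨0,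
  []⟩,⟨0,[]⟩),(⟨0,[(8,0)]⟩,⟨0,[(19,0),(2,0)]⟩),⟨0,[]⟩,.k,.k,.k,.k,.k,.k,⟨false,1,⟨0,[(3,0),(24,0),
  (1,0)]⟩,⟨0,[(4,0),(11,0)]⟩⟩,⟨true,0,⟨0,[(5,0)]⟩,⟨0,[(16,0)]⟩⟩,⟨false,1,⟨1,[(28,1),(1,0),(0,0)]⟩,
  ⟨0,[(1,0),(27,0)]⟩⟩,⟨true,0,⟨0,[(4,0),(23,0)]⟩,⟨0,[(14,0)]⟩⟩,⟨false,1,⟨1,[(9,0),(0,0),(19,0)]⟩,⟨0,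
  [(1,0)]⟩⟩,⟨false,0,⟨0,[(4,0)]⟩,⟨1,[(0,1),(20,0),(9,0)]⟩⟩,[.o ⟨false,0,⟨0,[(2,0)]⟩,⟨1,[(0,1),(20,
  0),(9,0)]⟩⟩,.a ⟨true,0,⟨0,[(4,0)]⟩,⟨0,[(0,0)]⟩⟩ ⟨true,0,⟨0,[]⟩,⟨1,[(16,0),(0,0)]⟩⟩ ⟨false,0,⟨0,
  [(4,0)]⟩,⟨1,[(0,1),(20,0),(8,0)]⟩⟩,.o ⟨false,1,⟨1,[(21,0),(8,0)]⟩,⟨1,[(16,0),(0,0)]⟩⟩,.fo]⟩) (.I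
  [0,0,0,1,0,0,0,-1] (.R ⟨2,true,false,true,[0,1],[0,0,1],[0,1,1,1],(⟨0,[]⟩,⟨0,[]⟩),(⟨0,[(20,0)]⟩,
  ⟨0,[(19,0)]⟩),⟨0,[]⟩,.k,.k,.k,.k,.k,.k,⟨false,0,⟨0,[(0,0)]⟩,⟨1,[(4,1),(24,1),(1,0),(0,0)]⟩⟩,⟨true,
  0,⟨0,[(17,0)]⟩,⟨0,[(6,0)]⟩⟩,⟨true,0,⟨0,[(34,0)]⟩,⟨0,[]⟩⟩,⟨false,1,⟨0,[(15,0),(13,0),(2,0)]⟩,⟨0,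
  [(5,0)]⟩⟩,⟨false,0,⟨0,[(30,0)]⟩,⟨0,[(29,0),(2,0)]⟩⟩,⟨true,0,⟨0,[(15,0)]⟩,⟨0,[(5,0),(23,0)]⟩⟩,[]⟩)
  (.Q [0,-1,0,0,0,0,-1,-1,0,1,-1] (.p false [0,0,1] [1] (⟨0,[(20,0)]⟩,⟨0,[(19,0)]⟩) .k 1 (⟨0,[]⟩,⟨0,
  []⟩) .k .k) (.R ⟨0,false,false,true,[0,1,-1],[0,0,1],[0,1,1,1,0,0,0,-1],(⟨0,[(10,0)]⟩,⟨0,[(21,0),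
  (2,0)]⟩),(⟨0,[(21,0)]⟩,⟨0,[(20,0)]⟩),⟨0,[(21,0)]⟩,.k,.k,.k,(.r 0 ⟨0,[(0,0),(1,0),(15,1),(9,0)]⟩
  ⟨5,[(1,5),(3,1),(2,1),(7,3),(6,0),(8,2),(0,1)]⟩),.k,.k,⟨true,0,⟨0,[(0,0),(1,0),(15,1),(9,0)]⟩,⟨0,
  [(1,0),(3,0)]⟩⟩,⟨false,1,⟨0,[(18,1),(13,0)]⟩,⟨0,[(1,0),(2,0),(10,0)]⟩⟩,⟨true,0,⟨0,[(35,0)]⟩,⟨0,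
  []⟩⟩,⟨false,1,⟨1,[(1,1),(14,1),(1,1),(13,0),(0,0)]⟩,⟨0,[(0,0),(3,0)]⟩⟩,⟨false,0,⟨0,[]⟩,⟨0,[]⟩⟩,
  ⟨false,0,⟨0,[]⟩,⟨0,[]⟩⟩,[.a ⟨true,0,⟨0,[(16,0)]⟩,⟨0,[(0,0)]⟩⟩ ⟨false,0,⟨0,[(6,0),(11,0),(9,0)]⟩,
  ⟨1,[(1,1),(30,0),(0,0)]⟩⟩ ⟨true,0,⟨0,[(16,0),(1,0)]⟩,⟨6,[(0,3),(0,2),(0,5),(5,1),(21,2)]⟩⟩,.o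
  ⟨false,1,⟨1,[(16,1),(6,0),(9,0)]⟩,⟨2,[(0,0),(1,0),(14,0),(12,0)]⟩⟩,.o ⟨false,1,⟨0,[(15,0),(7,0)]⟩,
  ⟨0,[(18,0)]⟩⟩,.o ⟨false,0,⟨0,[(1,0),(2,0)]⟩,⟨1,[(11,0),(0,0),(5,1),(13,0)]⟩⟩]⟩) (.Q [0,-1,0,-1,1,
  0,2,2,0,0,2] (.p true [0,0,1] [0,1,-1] (⟨0,[(21,0)]⟩,⟨0,[(20,0)]⟩) .k 2 (⟨0,[(10,0)]⟩,⟨0,[(21,0),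
  (2,0)]⟩) .k (.r 0 ⟨0,[(5,1)]⟩ ⟨0,[(6,1),(11,1),(11,1),(1,0)]⟩)) (.R ⟨0,false,false,true,[0,0,1],
  [0,1,-1],[1,0,1],(⟨0,[(22,0)]⟩,⟨0,[(21,0)]⟩),(⟨0,[(11,0)]⟩,⟨0,[(22,0),(2,0)]⟩),⟨0,[(11,0)]⟩,.k,.k,
  .k,(.x (-1) ⟨1,[(11,1),(7,3),(1,1),(2,0),(8,0)]⟩ ⟨1,[(2,2),(0,1),(1,0),(10,0),(5,3),(2,1),(3,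
  0)]⟩),.k,.k,⟨false,1,⟨1,[(2,1),(30,0),(0,0)]⟩,⟨0,[(7,0),(11,0),(9,0)]⟩⟩,⟨true,0,⟨0,[(2,0),(2,0),
  (10,0)]⟩,⟨0,[(19,1)]⟩⟩,⟨true,0,⟨0,[(7,0),(11,0),(11,0)]⟩,⟨0,[(1,0),(14,0)]⟩⟩,⟨false,0,⟨0,[(7,0),
  (10,0)]⟩,⟨0,[(0,0)]⟩⟩,⟨false,0,⟨0,[]⟩,⟨0,[]⟩⟩,⟨false,0,⟨0,[]⟩,⟨0,[]⟩⟩,[.o ⟨false,0,⟨0,[(5,0),(30,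
  0)]⟩,⟨1,[(0,0),(30,0),(2,0)]⟩⟩,.o ⟨false,0,⟨0,[(5,0)]⟩,⟨1,[(0,0),(11,0),(0,0),(17,0)]⟩⟩,.o ⟨false,
  1,⟨1,[(19,1),(4,0),(8,0)]⟩,⟨0,[(8,0)]⟩⟩,.a ⟨true,0,⟨0,[(19,0)]⟩,⟨0,[(16,0)]⟩⟩ ⟨true,0,⟨0,[]⟩,⟨0,
  [(36,0)]⟩⟩ ⟨false,0,⟨0,[(5,0),(10,0)]⟩,⟨1,[(0,0),(18,1),(11,0),(2,0)]⟩⟩]⟩) (.R ⟨0,false,false,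
  true,[0,0,1],[0,1,-1],[0,1,1,1,0,0,0,-1],(⟨0,[(22,0)]⟩,⟨0,[(21,0)]⟩),(⟨0,[(11,0)]⟩,⟨0,[(22,0),(2,
  0)]⟩),⟨0,[(11,0)]⟩,.k,.k,.k,(.r (-1) ⟨5,[(2,5),(3,1),(2,1),(7,3),(6,0),(8,2),(0,1)]⟩ ⟨1,[(0,1),
  (18,3),(13,0),(0,0)]⟩),.k,.k,⟨false,1,⟨1,[(12,0),(0,0),(19,0)]⟩,⟨0,[]⟩⟩,⟨true,0,⟨2,[(0,0),(1,1),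
  (0,0),(2,0),(9,2),(7,0)]⟩,⟨0,[(19,1)]⟩⟩,⟨false,0,⟨1,[(0,1),(18,3),(13,0),(0,0)]⟩,⟨1,[(2,1),(3,1),
  (26,0),(0,0)]⟩⟩,⟨true,(-1),⟨0,[(0,0)]⟩,⟨1,[(2,1),(14,1),(1,1),(13,0),(0,0)]⟩⟩,⟨false,0,⟨0,[]⟩,⟨0,
  []⟩⟩,⟨false,0,⟨0,[]⟩,⟨0,[]⟩⟩,[.o ⟨false,0,⟨1,[(0,0),(23,0),(7,0),(3,0)]⟩,⟨1,[(2,1),(16,1),(13,0),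
  (0,0)]⟩⟩,.o ⟨false,0,⟨0,[(5,0)]⟩,⟨0,[(17,0),(13,0),(2,0)]⟩⟩,.o ⟨false,1,⟨1,[(19,1),(4,0),(8,0)]⟩,
  ⟨0,[(8,0)]⟩⟩,.a ⟨true,0,⟨0,[(19,0)]⟩,⟨0,[(16,0)]⟩⟩ ⟨true,0,⟨4,[(0,1),(17,0),(0,4),(9,0),(2,2),(0,
  1)]⟩,⟨0,[(2,0)]⟩⟩ ⟨false,0,⟨0,[(5,0),(10,0)]⟩,⟨1,[(2,1),(16,3),(13,0),(0,0)]⟩⟩]⟩))))) (.R ⟨2,true,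
  false,true,[0,1],[0,0,1],[0,1,1,1],(⟨0,[]⟩,⟨0,[]⟩),(⟨0,[(18,0)]⟩,⟨0,[(17,0)]⟩),⟨0,[]⟩,.k,.k,.k,.k,
  .k,.k,⟨false,0,⟨0,[(0,0),(2,0),(11,0)]⟩,⟨1,[(2,1),(24,1),(1,0),(0,0)]⟩⟩,⟨true,0,⟨0,[(15,0)]⟩,⟨0,
  [(4,0)]⟩⟩,⟨true,0,⟨0,[(32,0)]⟩,⟨0,[]⟩⟩,⟨false,1,⟨0,[(13,0),(13,0),(2,0)]⟩,⟨0,[(3,0)]⟩⟩,⟨false,0,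
  ⟨0,[(28,0)]⟩,⟨0,[(27,0),(2,0)]⟩⟩,⟨true,0,⟨0,[(13,0)]⟩,⟨0,[(3,0),(23,0)]⟩⟩,[]⟩))))))

theorem ok0 : chk K t0 base = true := by decide +kernel

theorem closed {p a b c J l q : ℤ} {D dl : ℝ} {Cl : ℤ → ℤ → ℤ → ℤ → ℝ → Prop}
    (W : World p a b c J 1 l q D dl Cl) (g : G0 p a b c J D)
    {N X R : ℤ} {I : ℝ} (hk : KCl p l Cl N X R I) (kz : KF a b D (X + (1 : ℤ) * I) (X + (1 : ℤ) * I + R) I)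
    {Ne Xe : ℤ} {Ie : ℝ} (he : EFac p 1 D Cl 1 Ne Xe Ie)
    (hkf : ∀ kf ∈ (kfY 1 [0,0,0,0,0,0,1,0,0,0,1]), KOk p l Cl 1
      (xv [1, a, b, c, p, J, X, R, Xe] [D, I, Ie]) N kf)
    (h0 : 1 ≤ (c : ℝ))
    (h1 : 1 ≤ 1 - (a : ℝ) + (b : ℝ))
    (h2 : 1 ≤ 2 * (a : ℝ) - (b : ℝ))
    (h3 : 0 < -3 + (p : ℝ) - 2 * D)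
    (h4 : 1 ≤ 2 * (a : ℝ) - (b : ℝ))
    (h5 : 1 ≤ -2 + (J : ℝ))
    (h6 : 0 < -(b : ℝ) - (X : ℝ) + D - I)
    (h7 : 0 < (J : ℝ) - I)
    (h8 : 0 < -(J : ℝ) + D - I)
    (h9 : 0 < -2 * (X : ℝ) + D - 2 * I) : False := by
  have g1 := g.a2
  have g2 := g.b2
  have g3 := g.pa
  have g4 := g.pb
  have g5 := g.J1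
  have g6 := g.JD
  have g7 := g.D2
  have g8 := g.ca
  have g9 := g.ca'
  have k1 := kz.I0
  have k2 := kz.ID
  have k3 := kz.z1
  have k4 := kz.z2
  have k5 := kz.s1
  have k6 := kz.s2
  have e1 := he.I0
  have e2 := he.ID
  have e3 := he.x0
  have e4 := he.xp
  push_cast at *
  refine (val_E W.toBase hk he (row := [1]) (by simp) (by simp) (kfY 1 [0,0,0,0,0,0,1,0,0,0,1])).sound W rfl (Nk := N)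
    (fun kf _ _ => ⟨_, rfl⟩) hkf ?_ ok0
  · simp only [base, List.forall_mem_cons, List.not_mem_nil, false_imp_iff, implies_true,
      and_true, hld, xv, evg_cons, evg_nil, List.map_cons, List.map_nil, List.cons_append,
      List.nil_append, if_true, if_false, Bool.false_eq_true]
    push_cast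
    refine ⟨?_, ?_, ?_, ?_, ?_, ?_, ?_, ?_, ?_, ?_, ?_, ?_, ?_, ?_, ?_, ?_, ?_, ?_, ?_, ?_, ?_, ?_, ?_, ?_, ?_, ?_, ?_, ?_⟩ <;> linarith

end Helper48.Y.Y11_c35_P4_m0n1
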