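import Pool.Agent.Helper25.KG.S1b
import Pool.Agent.Helper11.CT.Clo

set_option autoImplicit false
set_option linter.all false

namespace Helper48.Y.Y11_c2_L2_m0n1

open Helper25.KG Helper25.KW Helper55.KE Helper11.CT

noncomputable def K : Cls :=
  cE 1 [1] (kfY 1 [0,0,0,0,0,0,1,0,0,0,1])

noncomputable def base : List Con :=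
  [(false,[0,0,0,0,0,0,-2,0,0,1,-2]),
  (false,[0,0,0,0,0,-1,0,0,0,1,-1]),
  (false,[0,0,0,0,0,1,0,0,0,0,-1]),
  (false,[0,0,0,0,1,0,0,0,-1,0,0,-1]),
  (false,[0,0,0,0,0,0,0,0,1,0,0,1]),
  (false,[0,0,0,0,0,0,0,0,0,1,0,-1]),
  (false,[0,0,0,0,0,0,0,0,0,0,0,1]),
  (false,[0,0,-1,0,0,0,-1,0,0,1,-1]),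
  (false,[0,1,0,0,0,0,1,1,0,0,1]),
  (false,[0,1,0,0,0,0,-1,-1,0,0,-1]),
  (false,[0,0,1,0,0,0,1,0,0,0,1]),
  (false,[0,0,1,0,0,0,-1,0,0,0,-1]),
  (false,[0,0,0,0,0,0,0,0,0,1,-1]),
  (false,[0,0,0,0,0,0,0,0,0,0,1]),
  (true,[2,0,0,0,0,-1]),
  (false,[0,0,0,0,1,0,0,0,0,-2]),
  (false,[0,0,0,0,0,-1,0,0,0,1]),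
  (true,[0,0,0,0,0,1]),
  (true,[0,2,-1]),
  (false,[1,0,0,0,-1,0,0,0,0,2]),
  (true,[1,-1,1,1]),
  (true,[0,1,-1]),
  (true,[0,1,0,-1]),
  (true,[0,0,0,1]),
  (true,[0,0,-2,0,1]),
  (true,[0,-2,0,0,1]),
  (true,[-1,0,1]),
  (true,[-1,1])]

noncomputable def t0 : Tre :=
  (.I [1,-1,2,2,-1] (.R ⟨2,true,false,true,[0,1],[1,-1],[0,1],(⟨0,[]⟩,⟨0,[]⟩),(⟨0,[(17,0)]⟩,⟨0,[(18,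
  0)]⟩),⟨0,[]⟩,.k,.k,.k,(.r 1 ⟨0,[(0,0),(27,0)]⟩ ⟨0,[(23,1),(1,0),(0,0)]⟩),.k,.k,⟨false,0,⟨0,[(24,
  0)]⟩,⟨1,[(23,1),(1,0),(0,0)]⟩⟩,⟨true,(-1),⟨1,[(0,1),(19,0),(2,3),(2,0)]⟩,⟨1,[(16,0),(8,0)]⟩⟩,
  ⟨false,1,⟨1,[(23,1),(1,0),(0,0)]⟩,⟨0,[(21,0)]⟩⟩,⟨true,0,⟨1,[(20,0),(2,3),(2,0)]⟩,⟨1,[(0,1),(15,0),
  (5,1),(2,0)]⟩⟩,⟨true,0,⟨0,[(22,0)]⟩,⟨1,[(11,0),(0,0)]⟩⟩,⟨false,0,⟨1,[(20,0),(2,1),(2,0)]⟩,⟨1,[(16,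
  0),(7,1),(1,0)]⟩⟩,[]⟩) (.I [1,-1,0,0,0,0,0,-1] (.K ⟨0,[0,1,1],0,0,(⟨0,[(15,0),(3,0)]⟩,⟨0,[(3,
  0)]⟩),.k,.k,(.r 0 ⟨0,[(10,0),(2,0),(8,0),(2,0)]⟩ ⟨0,[(0,0),(0,0)]⟩),.k,.k,[⟨1,[(12,0),(0,0)]⟩,⟨0,
  [(0,0),(9,0)]⟩,⟨0,[(0,0),(12,0),(9,0),(0,0)]⟩,⟨0,[(10,0),(14,0)]⟩]⟩) (.I [1,0,-1,-2,0,0,0,1] (.Q
  [0,0,-2,0,1,0,-1,0,0,-1,-1] (.p false [1,-1,1] [] (⟨0,[(16,0),(2,0)]⟩,⟨0,[(5,0)]⟩) .k 0 (⟨0,[]⟩,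
  ⟨0,[]⟩) .k .k) (.S ⟨1,0,[0,0,-1,-1,0,0,0,1],[1,-1,1],[1,1,-1,-2,0,0,0,1],(⟨0,[(17,0),(2,0)]⟩,⟨0,
  [(6,0)]⟩),⟨3,[(17,3),(0,5),(1,1),(2,0),(1,1),(3,0),(0,1)]⟩,.k,(.r (-1) ⟨2,[(1,1),(0,0),(0,0),(24,
  0),(0,0)]⟩ ⟨0,[(13,0),(0,0),(9,0),(2,0)]⟩),⟨true,0,⟨0,[(26,0)]⟩,⟨0,[(27,0)]⟩⟩,⟨false,1,⟨1,[(7,0),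
  (0,0),(20,0)]⟩,⟨0,[]⟩⟩,⟨false,0,⟨0,[]⟩,⟨1,[(7,0),(0,0),(20,0)]⟩⟩,⟨true,0,⟨0,[(27,0)]⟩,⟨0,[(26,
  0)]⟩⟩,[.o ⟨false,0,⟨0,[(1,0),(12,0),(12,0)]⟩,⟨1,[(13,1),(5,0),(7,1),(1,0)]⟩⟩,.a ⟨true,0,⟨1,[(1,1),
  (12,1),(8,0),(3,1),(1,0)]⟩,⟨0,[(13,0),(13,0)]⟩⟩ ⟨true,0,⟨0,[(1,0)]⟩,⟨0,[(13,0),(0,0),(9,0),(2,
  0)]⟩⟩ ⟨false,1,⟨1,[(1,1),(25,1),(0,0),(0,0)]⟩,⟨0,[(13,0),(0,0),(12,0)]⟩⟩,.o ⟨false,0,⟨0,[(14,0)]⟩,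
  ⟨5,[(0,1),(3,1),(14,2),(8,0)]⟩⟩,.o ⟨false,0,⟨1,[(14,2),(0,0)]⟩,⟨0,[(0,0)]⟩⟩]⟩) (.K ⟨0,[1,-1,1],
  (-1),(-1),(⟨0,[(17,0),(2,0)]⟩,⟨0,[(6,0)]⟩),.k,(.r (-1) ⟨2,[(1,1),(0,0),(0,0),(24,0),(0,0)]⟩ ⟨0,
  [(13,0),(0,0),(9,0),(2,0)]⟩),.k,.k,.k,[⟨1,[(19,0),(8,0)]⟩,⟨0,[(0,0)]⟩,⟨1,[(7,0),(0,0),(4,1),(5,0),
  (7,1)]⟩,⟨0,[(0,0),(0,0),(23,0),(1,0)]⟩]⟩)) (.Q [0,0,0,0,0,0,-1,0,0,0,-1] (.p false [0,0,1] [] (⟨0,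
  [(16,0)]⟩,⟨0,[(15,0)]⟩) .k 0 (⟨0,[]⟩,⟨0,[]⟩) .k .k) (.Q [0,1,0,-1,0,0,1,1,0,0,1] (.p true [0,0,1]
  [] (⟨0,[(17,0)]⟩,⟨0,[(16,0)]⟩) .k 0 (⟨0,[]⟩,⟨0,[]⟩) .k .k) (.I [1,-1,-1,-1,1,0,0,1] (.Q [0,0,0,1,
  0,0,-1,-1,0,0,-1] (.p false [0,0,1] [] (⟨0,[(19,0)]⟩,⟨0,[(18,0)]⟩) .k 0 (⟨0,[]⟩,⟨0,[]⟩) .k .k)
  (.Q [0,0,0,0,0,0,1,1,0,0,1] (.p true [0,0,1] [] (⟨0,[(20,0)]⟩,⟨0,[(19,0)]⟩) .k 0 (⟨0,[]⟩,⟨0,[]⟩)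
  .k .k) (.R ⟨2,true,false,false,[0,1],[0,0,1],[0,1,1,1],(⟨0,[]⟩,⟨0,[]⟩),(⟨0,[(21,0)]⟩,⟨0,[(20,
  0)]⟩),⟨0,[]⟩,.k,.k,.k,.k,.k,.k,⟨false,0,⟨0,[(1,0),(16,0),(10,0)]⟩,⟨0,[(2,0)]⟩⟩,⟨true,0,⟨0,[(18,
  0)]⟩,⟨0,[(4,0)]⟩⟩,⟨true,0,⟨0,[(35,0)]⟩,⟨0,[]⟩⟩,⟨false,1,⟨0,[(3,0),(29,0)]⟩,⟨0,[(1,0)]⟩⟩,⟨false,0,
  ⟨0,[(31,0)]⟩,⟨0,[(30,0),(2,0)]⟩⟩,⟨true,0,⟨0,[(0,0)]⟩,⟨0,[(17,0)]⟩⟩,[]⟩) (.Q [0,0,-1,0,0,0,-2,0,0,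
  0,-2] (.p false [0,0,1] [0,1,-1] (⟨0,[(21,0)]⟩,⟨0,[(20,0)]⟩) .k 2 (⟨0,[(10,0)]⟩,⟨0,[(21,0),(2,
  0)]⟩) .k (.x (-1) ⟨1,[(10,3),(7,3),(3,3),(6,1),(2,0),(0,0)]⟩ ⟨0,[(4,1),(16,1)]⟩)) (.I [0,1,-1,-1,
  0,0,0,1] (.R ⟨0,false,false,true,[0,0,1],[1,-1,1],[1,0,1],(⟨0,[(23,0)]⟩,⟨0,[(22,0)]⟩),(⟨0,[(23,0),
  (2,0)]⟩,⟨0,[(12,0)]⟩),⟨0,[(12,0)]⟩,.k,.k,.k,.k,.k,.k,⟨true,0,⟨0,[(2,0),(17,0),(9,0)]⟩,⟨0,[(0,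
  0)]⟩⟩,⟨false,0,⟨6,[(7,0),(1,0),(0,0),(2,0),(0,0),(3,0),(1,0),(8,2),(5,0)]⟩,⟨1,[(25,0),(8,0)]⟩⟩,
  ⟨true,0,⟨0,[(2,0),(17,0)]⟩,⟨0,[(0,0),(32,0)]⟩⟩,⟨false,0,⟨1,[(29,0),(2,1),(2,0)]⟩,⟨1,[(25,0),(7,1),
  (1,0)]⟩⟩,⟨false,0,⟨0,[]⟩,⟨0,[]⟩⟩,⟨false,0,⟨0,[]⟩,⟨0,[]⟩⟩,[.o ⟨false,0,⟨0,[(5,0)]⟩,⟨1,[(3,1),(21,
  0),(9,0)]⟩⟩,.e ⟨false,1,⟨1,[(13,0),(0,0),(20,0)]⟩,⟨0,[(31,0)]⟩⟩ ⟨false,0,⟨1,[(0,0),(3,0),(24,0)]⟩,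
  ⟨1,[(2,0),(4,0),(12,0),(4,0),(8,0)]⟩⟩,.o ⟨false,1,⟨1,[(20,1),(4,0),(8,0)]⟩,⟨0,[(6,0)]⟩⟩,.a ⟨true,
  0,⟨0,[(20,0)]⟩,⟨0,[(17,0)]⟩⟩ ⟨true,0,⟨0,[]⟩,⟨0,[(37,0)]⟩⟩ ⟨false,0,⟨1,[(0,0),(3,0),(24,0)]⟩,⟨1,
  [(2,0),(4,0),(12,0),(4,0),(9,0)]⟩⟩]⟩) (.Q [0,-1,0,0,1,0,1,1,0,-1,1] (.p true [0,0,1] [1] (⟨0,[(23,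
  0)]⟩,⟨0,[(22,0)]⟩) .k 1 (⟨0,[]⟩,⟨0,[]⟩) .k .k) (.R ⟨0,false,false,true,[0,1,-1],[1,0,-1],[1,0,1,1,
  0,0,0,-1],(⟨0,[(13,0)]⟩,⟨0,[(24,0),(2,0)]⟩),(⟨0,[(23,0)]⟩,⟨0,[(24,0)]⟩),⟨0,[(24,0)]⟩,.k,.k,.k,.k,
  .k,.k,⟨true,0,⟨0,[(31,0)]⟩,⟨0,[(33,0)]⟩⟩,⟨false,0,⟨6,[(8,0),(1,0),(0,0),(2,0),(0,0),(3,0),(1,0),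
  (8,2),(5,0)]⟩,⟨1,[(26,0),(8,0)]⟩⟩,⟨true,0,⟨0,[]⟩,⟨0,[(38,0)]⟩⟩,⟨false,0,⟨1,[(30,0),(2,1),(2,0)]⟩,
  ⟨1,[(26,0),(7,1),(1,0)]⟩⟩,⟨false,0,⟨0,[]⟩,⟨0,[]⟩⟩,⟨false,0,⟨0,[]⟩,⟨0,[]⟩⟩,[.o ⟨false,0,⟨0,[(20,
  0)]⟩,⟨0,[(0,0)]⟩⟩,.o ⟨false,0,⟨0,[(3,0)]⟩,⟨3,[(0,1),(13,0),(0,0),(3,1),(6,0)]⟩⟩,.o ⟨false,1,⟨7,
  [(2,1),(8,1),(14,4),(8,2)]⟩,⟨0,[(21,0)]⟩⟩,.a ⟨true,0,⟨0,[(7,0)]⟩,⟨1,[(21,1),(8,0),(4,0)]⟩⟩ ⟨true,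
  0,⟨0,[(1,0),(30,0)]⟩,⟨2,[(2,0),(3,2),(15,0)]⟩⟩ ⟨false,0,⟨5,[(1,3),(6,0),(1,2),(9,0),(0,0),(8,2)]⟩,
  ⟨2,[(0,2),(1,0),(19,0)]⟩⟩]⟩) (.I [0,0,0,0,0,0,0,-1] (.R ⟨0,false,false,false,[0,0,1],[0,1,-1],[],
  (⟨0,[(25,0)]⟩,⟨0,[(24,0)]⟩),(⟨0,[(14,0)]⟩,⟨0,[(25,0),(2,0)]⟩),⟨0,[(14,0)]⟩,.k,.k,.k,(.r (-1) ⟨0,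
  [(6,0),(3,0)]⟩ ⟨2,[(0,2),(1,0),(6,0),(11,0),(0,0)]⟩),.k,.k,⟨false,1,⟨0,[(6,0),(26,0)]⟩,⟨2,[(2,0),
  (6,0),(11,0),(0,0)]⟩⟩,⟨true,0,⟨0,[(3,0)]⟩,⟨0,[(22,1)]⟩⟩,⟨true,0,⟨0,[(0,0)]⟩,⟨0,[(10,0)]⟩⟩,⟨false,
  0,⟨0,[(0,0),(1,0),(0,0)]⟩,⟨0,[(7,0),(12,0),(16,0)]⟩⟩,⟨false,0,⟨0,[]⟩,⟨0,[]⟩⟩,⟨false,0,⟨0,[]⟩,⟨0,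
  []⟩⟩,[.e ⟨false,1,⟨1,[(15,0),(0,0),(19,0)]⟩,⟨0,[]⟩⟩ ⟨false,0,⟨0,[(0,0),(2,0),(31,0)]⟩,⟨1,[(7,1),
  (14,1),(13,0),(0,0)]⟩⟩,.o ⟨false,1,⟨1,[(5,1),(21,0),(9,0)]⟩,⟨0,[(7,0)]⟩⟩,.o ⟨false,1,⟨1,[(22,1),
  (4,0),(8,0)]⟩,⟨0,[(8,0)]⟩⟩,.a ⟨true,0,⟨0,[(22,0)]⟩,⟨0,[(19,0)]⟩⟩ ⟨false,1,⟨1,[(36,0),(0,0)]⟩,⟨1,
  [(22,0),(0,0)]⟩⟩ ⟨true,0,⟨0,[(0,0),(2,0),(31,0)]⟩,⟨0,[(7,0),(14,0)]⟩⟩]⟩) (.I [0,0,0,0,0,0,0,1]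
  (.Q [0,0,-1,1,0,0,-1,0,0,0,-1] (.p false [0,0,1] [] (⟨0,[(26,0)]⟩,⟨0,[(25,0)]⟩) .k 0 (⟨0,[]⟩,⟨0,
  []⟩) .k .k) (.R ⟨0,false,false,false,[0,0,1],[0,1],[1,1,1],(⟨0,[(27,0)]⟩,⟨0,[(26,0)]⟩),(⟨0,[(31,
  0)]⟩,⟨0,[(30,0)]⟩),⟨0,[(16,0)]⟩,.k,.k,.k,.k,.k,.k,⟨true,0,⟨0,[(36,0)]⟩,⟨0,[(1,0),(2,0)]⟩⟩,⟨false,
  1,⟨7,[(5,1),(8,1),(14,0),(8,6)]⟩,⟨0,[(24,0)]⟩⟩,⟨false,0,⟨0,[(6,0),(17,0)]⟩,⟨1,[(1,1),(36,0),(0,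
  0)]⟩⟩,⟨true,0,⟨0,[(7,0)]⟩,⟨0,[(9,0)]⟩⟩,⟨false,0,⟨0,[]⟩,⟨0,[]⟩⟩,⟨false,0,⟨0,[]⟩,⟨0,[]⟩⟩,[.e ⟨false,
  0,⟨0,[(41,0)]⟩,⟨1,[(38,0),(0,0)]⟩⟩ ⟨false,0,⟨0,[(0,0)]⟩,⟨3,[(13,1),(3,0),(0,0),(5,3),(14,0)]⟩⟩,.o
  ⟨false,1,⟨1,[(29,0),(7,1),(1,0)]⟩,⟨0,[(36,0)]⟩⟩,.o ⟨false,1,⟨1,[(24,1),(4,0),(8,0)]⟩,⟨0,[(10,
  0)]⟩⟩,.a ⟨true,0,⟨0,[(24,0)]⟩,⟨0,[(21,0)]⟩⟩ ⟨false,0,⟨0,[]⟩,⟨1,[(17,0),(0,0),(20,0)]⟩⟩ ⟨true,0,⟨0,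
  [(0,0)]⟩,⟨0,[(24,0),(11,0)]⟩⟩]⟩) (.R ⟨0,false,false,false,[0,0,1],[0,1],[1,1,1],(⟨0,[(27,0)]⟩,⟨0,
  [(26,0)]⟩),(⟨0,[(31,0)]⟩,⟨0,[(30,0)]⟩),⟨0,[(16,0)]⟩,.k,.k,.k,.k,.k,.k,⟨true,0,⟨0,[(36,0)]⟩,⟨0,[(1,
  0),(2,0)]⟩⟩,⟨false,1,⟨7,[(5,1),(8,1),(14,0),(8,6)]⟩,⟨0,[(24,0)]⟩⟩,⟨false,0,⟨1,[(0,0),(3,0),(18,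
  0)]⟩,⟨1,[(1,1),(36,0),(0,0)]⟩⟩,⟨true,0,⟨0,[(7,0)]⟩,⟨0,[(9,0)]⟩⟩,⟨false,0,⟨0,[]⟩,⟨0,[]⟩⟩,⟨false,0,
  ⟨0,[]⟩,⟨0,[]⟩⟩,[.a ⟨true,0,⟨0,[(37,0)]⟩,⟨7,[(0,3),(12,1),(0,1),(18,2),(5,0)]⟩⟩ ⟨false,0,⟨0,[(41,
  0)]⟩,⟨1,[(38,0),(0,0)]⟩⟩ ⟨true,0,⟨1,[(1,0),(3,0),(5,0)]⟩,⟨0,[(0,0)]⟩⟩,.o ⟨false,1,⟨1,[(29,0),(7,
  1),(1,0)]⟩,⟨0,[(36,0)]⟩⟩,.o ⟨false,1,⟨1,[(24,1),(4,0),(8,0)]⟩,⟨0,[(10,0)]⟩⟩,.e ⟨false,0,⟨0,[]⟩,⟨1,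
  [(17,0),(0,0),(20,0)]⟩⟩ ⟨false,1,⟨1,[(1,0),(3,0),(5,0),(26,0),(0,0)]⟩,⟨0,[(0,0)]⟩⟩]⟩)) (.N [0,0,
  1] 0 ⟨0,[(1,0)]⟩ ⟨0,[(0,0)]⟩ .k))))) (.K ⟨0,[0,1,-1],0,0,(⟨0,[(11,0)]⟩,⟨0,[(22,0),(2,0)]⟩),.k,.k,
  (.x (-1) ⟨1,[(5,1),(16,1),(0,3),(6,1),(2,0),(0,0)]⟩ ⟨1,[(11,1),(7,2),(0,0),(5,1)]⟩),(.r 0 ⟨0,[(0,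
  0),(0,0),(0,0)]⟩ ⟨0,[(3,0),(3,0)]⟩),.k,[⟨0,[(0,0)]⟩,⟨0,[(5,0)]⟩,⟨0,[(4,0)]⟩,⟨4,[(2,2),(3,0),(11,
  0),(1,0),(6,1)]⟩]⟩))) (.I [1,-1,0,0,0,0,0,1] (.Q [0,-1,0,1,1,0,-1,-1,0,-1,-1] (.p false [1,-1,1]
  [] (⟨0,[(21,0),(2,0)]⟩,⟨0,[(10,0)]⟩) .k 0 (⟨0,[]⟩,⟨0,[]⟩) .k .k) (.R ⟨0,false,false,true,[0,0,1],
  [1,-1,1],[1,0,0,0,0,0,0,1],(⟨0,[(22,0)]⟩,⟨0,[(21,0)]⟩),(⟨0,[(22,0),(2,0)]⟩,⟨0,[(11,0)]⟩),⟨0,[(11,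
  0)]⟩,.k,.k,.k,.k,.k,.k,⟨true,0,⟨0,[(29,0)]⟩,⟨0,[(31,0)]⟩⟩,⟨false,0,⟨6,[(6,0),(1,0),(0,0),(2,0),(0,
  0),(3,0),(1,0),(8,2),(5,0)]⟩,⟨1,[(24,0),(8,0)]⟩⟩,⟨true,0,⟨0,[]⟩,⟨0,[(36,0)]⟩⟩,⟨false,0,⟨1,[(28,0),
  (2,1),(2,0)]⟩,⟨3,[(1,1),(4,1),(17,1),(8,0),(0,0)]⟩⟩,⟨false,0,⟨0,[]⟩,⟨0,[]⟩⟩,⟨false,0,⟨0,[]⟩,⟨0,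
  []⟩⟩,[.o ⟨false,0,⟨0,[(4,0)]⟩,⟨0,[(0,0)]⟩⟩,.o ⟨false,0,⟨0,[(2,0)]⟩,⟨18,[(0,8),(5,7),(1,2),(0,3),
  (8,1),(5,6),(2,1)]⟩⟩,.o ⟨false,1,⟨1,[(19,1),(4,0),(8,0)]⟩,⟨0,[(5,0)]⟩⟩,.a ⟨true,0,⟨0,[(19,0)]⟩,⟨0,
  [(16,0)]⟩⟩ ⟨true,0,⟨0,[(1,0),(28,0)]⟩,⟨0,[(18,0),(0,0)]⟩⟩ ⟨false,0,⟨0,[(2,0),(13,0)]⟩,⟨0,[(0,0),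
  (18,0)]⟩⟩]⟩) (.Q [0,0,1,0,0,0,2,0,0,0,2] (.p true [0,0,1] [0,1,-1] (⟨0,[(22,0)]⟩,⟨0,[(21,0)]⟩) .k
  2 (⟨0,[(11,0)]⟩,⟨0,[(22,0),(2,0)]⟩) .k (.x (-1) ⟨1,[(11,3),(7,3),(3,3),(6,1),(2,0),(0,0)]⟩ ⟨0,[(5,
  1),(16,1)]⟩)) (.K ⟨0,[0,1,-1],0,0,(⟨0,[(12,0)]⟩,⟨0,[(23,0),(2,0)]⟩),.k,.k,(.r 0 ⟨1,[(7,1),(12,0),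
  (0,0)]⟩ ⟨0,[(2,0),(6,0)]⟩),(.r (-1) ⟨3,[(0,1),(6,2),(1,0),(9,4),(0,0),(14,2)]⟩ ⟨3,[(1,1),(0,5),(3,
  1),(2,0),(15,0),(2,0),(2,0)]⟩),.k,[⟨0,[(0,0)]⟩,⟨0,[(6,0)]⟩,⟨0,[(5,0)]⟩,⟨1,[(6,0),(0,0),(11,0),(11,
  0)]⟩]⟩) (.I [0,0,-1,-1,0,0,0,1] (.I [1,1,0,0,-1,0,0,1] (.R ⟨0,false,false,false,[0,0,1],[1,-1,1],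
  [1,0,1],(⟨0,[(25,0)]⟩,⟨0,[(24,0)]⟩),(⟨0,[(25,0),(2,0)]⟩,⟨0,[(14,0)]⟩),⟨0,[(14,0)]⟩,.k,.k,.k,.k,.k,
  .k,⟨true,0,⟨0,[(21,0),(0,0),(9,0)]⟩,⟨0,[(1,0)]⟩⟩,⟨false,0,⟨6,[(9,0),(1,0),(0,0),(2,0),(0,0),(3,0),
  (1,0),(8,2),(5,0)]⟩,⟨1,[(27,0),(8,0)]⟩⟩,⟨false,1,⟨0,[(21,0),(0,0),(14,0)]⟩,⟨1,[(0,0),(3,0),(31,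
  0)]⟩⟩,⟨true,0,⟨1,[(31,0),(2,1),(2,0)]⟩,⟨1,[(0,0),(8,0),(17,0),(5,0)]⟩⟩,⟨false,0,⟨0,[]⟩,⟨0,[]⟩⟩,
  ⟨false,0,⟨0,[]⟩,⟨0,[]⟩⟩,[.o ⟨false,0,⟨0,[(5,0)]⟩,⟨15,[(2,1),(6,7),(2,1),(8,7),(5,8),(8,2),(0,
  3)]⟩⟩,.e ⟨false,1,⟨1,[(15,0),(0,0),(20,0)]⟩,⟨0,[(33,0)]⟩⟩ ⟨false,0,⟨1,[(1,1),(29,0),(5,0)]⟩,⟨1,
  [(9,1),(1,0),(15,0),(11,0)]⟩⟩,.o ⟨false,1,⟨1,[(22,1),(4,0),(8,0)]⟩,⟨0,[(8,0)]⟩⟩,.a ⟨true,0,⟨0,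
  [(22,0)]⟩,⟨0,[(19,0)]⟩⟩ ⟨true,0,⟨0,[]⟩,⟨0,[(39,0)]⟩⟩ ⟨false,0,⟨1,[(1,1),(29,0),(5,0)]⟩,⟨3,[(9,2),
  (1,0),(9,0),(0,1),(0,0),(3,1),(9,0)]⟩⟩]⟩) (.Q [0,0,-1,0,1,0,1,0,0,-1,1] (.p true [0,0,1] [1] (⟨0,
  [(25,0)]⟩,⟨0,[(24,0)]⟩) .k 1 (⟨0,[]⟩,⟨0,[]⟩) .k .k) (.S ⟨1,0,[0,1,-1,-1,0,0,0,1],[1,-1,1],[1],(⟨0,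
  [(26,0),(2,0)]⟩,⟨0,[(15,0)]⟩),⟨5,[(1,0),(0,1),(7,0),(15,5),(0,7),(1,3),(2,0),(1,0),(4,1)]⟩,.k,(.r
  (-1) ⟨1,[(2,0),(4,0),(4,0)]⟩ ⟨1,[(10,1),(12,0),(0,0)]⟩),⟨false,1,⟨3,[(1,2),(8,1),(0,0),(11,0),(0,
  0),(13,0)]⟩,⟨0,[(2,0)]⟩⟩,⟨true,0,⟨0,[(40,0)]⟩,⟨0,[]⟩⟩,⟨true,0,⟨0,[(10,0)]⟩,⟨0,[(2,0),(32,0)]⟩⟩,
  ⟨false,0,⟨0,[(36,0)]⟩,⟨0,[(35,0),(2,0)]⟩⟩,[.a ⟨true,(-1),⟨0,[(4,0)]⟩,⟨7,[(1,3),(1,1),(6,3),(2,1),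
  (14,0),(8,0),(0,1)]⟩⟩ ⟨true,0,⟨0,[]⟩,⟨1,[(23,0),(0,0)]⟩⟩ ⟨false,0,⟨0,[(2,0),(31,0)]⟩,⟨3,[(1,2),(8,
  1),(0,0),(11,0),(0,0),(13,0)]⟩⟩,.o ⟨false,0,⟨0,[(6,0)]⟩,⟨31,[(1,7),(1,5),(6,15),(2,5),(8,7),(5,
  18),(8,4)]⟩⟩,.o ⟨false,0,⟨0,[(23,0)]⟩,⟨7,[(3,1),(9,1),(14,4),(8,2)]⟩⟩,.o ⟨false,0,⟨1,[(23,2),(0,
  0)]⟩,⟨0,[(0,0),(2,0)]⟩⟩]⟩) (.S ⟨1,0,[0,0,0,0,0,0,0,-1],[1,0,-1],[0,1,0,0,0,0,0,-1],(⟨0,[(25,0)]⟩,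
  ⟨0,[(26,0)]⟩),⟨0,[(14,0)]⟩,.k,.k,⟨true,0,⟨0,[(40,0)]⟩,⟨0,[]⟩⟩,⟨false,1,⟨1,[(1,0),(9,0),(26,0)]⟩,
  ⟨0,[]⟩⟩,⟨false,0,⟨0,[(36,0)]⟩,⟨0,[(35,0),(2,0)]⟩⟩,⟨true,0,⟨0,[(36,0)]⟩,⟨0,[(35,0)]⟩⟩,[.e ⟨false,1,
  ⟨0,[(1,0),(29,0)]⟩,⟨0,[(5,0)]⟩⟩ ⟨false,1,⟨0,[(1,0),(32,0)]⟩,⟨1,[(5,0),(5,0)]⟩⟩,.o ⟨false,1,⟨2,[(1,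
  2),(1,0),(20,0)]⟩,⟨0,[(4,0),(23,0),(7,0)]⟩⟩,.o ⟨false,0,⟨0,[(9,0)]⟩,⟨1,[(23,1),(4,0),(8,0)]⟩⟩,.a
  ⟨true,(-1),⟨0,[(0,0)]⟩,⟨0,[(23,0),(13,0)]⟩⟩ ⟨false,1,⟨0,[(1,0),(32,0)]⟩,⟨1,[(5,1),(17,0),(0,0)]⟩⟩
  ⟨true,1,⟨0,[(1,0),(32,0)]⟩,⟨0,[(0,0),(3,0),(23,0),(7,0)]⟩⟩]⟩))) (.I [1,0,-1,-1,0,0,0,1] (.N [0,-1,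
  1] 0 ⟨0,[(0,0)]⟩ ⟨0,[(1,0)]⟩ .k) (.Q [0,-1,0,1,0,0,1,1,0,0,1] (.p true [0,0,1] [] (⟨0,[(25,0)]⟩,
  ⟨0,[(24,0)]⟩) .k 0 (⟨0,[]⟩,⟨0,[]⟩) .k .k) (.Q [0,1,0,2,0,0,-1,-1,0,-1,-1] (.p false [1,-1,1] []
  (⟨0,[(26,0),(2,0)]⟩,⟨0,[(15,0)]⟩) .k 0 (⟨0,[]⟩,⟨0,[]⟩) .k .k) (.Q [0,0,0,1,0,0,1,0,0,0,1] (.p
  true [0,0,1] [] (⟨0,[(27,0)]⟩,⟨0,[(26,0)]⟩) .k 0 (⟨0,[]⟩,⟨0,[]⟩) .k .k) (.R ⟨0,false,false,false,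
  [0,0,1],[0,1],[1,1,1],(⟨0,[(28,0)]⟩,⟨0,[(27,0)]⟩),(⟨0,[(32,0)]⟩,⟨0,[(31,0)]⟩),⟨0,[(17,0)]⟩,.k,.k,
  .k,.k,.k,.k,⟨true,0,⟨0,[(37,0)]⟩,⟨0,[(3,0),(3,0)]⟩⟩,⟨false,1,⟨7,[(5,1),(9,1),(14,0),(8,6)]⟩,⟨0,
  [(25,0)]⟩⟩,⟨true,0,⟨0,[(3,0),(33,0)]⟩,⟨5,[(2,3),(2,2),(0,1),(7,0),(15,0),(5,0)]⟩⟩,⟨false,1,⟨5,[(1,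
  0),(10,1),(2,0),(8,2),(14,0),(0,4)]⟩,⟨0,[(8,0)]⟩⟩,⟨false,0,⟨0,[]⟩,⟨0,[]⟩⟩,⟨false,0,⟨0,[]⟩,⟨0,[]⟩⟩,
  [.e ⟨false,0,⟨0,[(42,0)]⟩,⟨1,[(39,0),(0,0)]⟩⟩ ⟨false,0,⟨0,[(0,0),(4,0)]⟩,⟨3,[(14,1),(3,0),(0,0),
  (5,3),(14,0)]⟩⟩,.o ⟨false,1,⟨17,[(1,1),(0,5),(9,3),(2,1),(14,8),(8,1),(0,6)]⟩,⟨0,[(37,0)]⟩⟩,.o
  ⟨false,1,⟨1,[(25,1),(4,0),(8,0)]⟩,⟨0,[(11,0)]⟩⟩,.a ⟨true,0,⟨0,[(25,0)]⟩,⟨0,[(22,0)]⟩⟩ ⟨false,0,⟨0,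
  []⟩,⟨1,[(18,0),(0,0),(20,0)]⟩⟩ ⟨true,0,⟨0,[(0,0),(4,0)]⟩,⟨0,[(25,0),(11,0)]⟩⟩]⟩) (.R ⟨0,false,
  false,false,[0,1,-1],[0,1],[1,1,1],(⟨0,[(17,0)]⟩,⟨0,[(28,0),(2,0)]⟩),(⟨0,[(32,0)]⟩,⟨0,[(31,0)]⟩),
  ⟨0,[(28,0)]⟩,.k,.k,.k,.k,.k,.k,⟨true,0,⟨0,[(37,0)]⟩,⟨0,[(0,0),(1,0),(0,0)]⟩⟩,⟨false,1,⟨0,[(25,0),
  (13,0)]⟩,⟨0,[(11,0)]⟩⟩,⟨false,0,⟨1,[(0,0),(6,0),(2,0)]⟩,⟨1,[(3,1),(35,0),(0,0)]⟩⟩,⟨true,0,⟨1,[(2,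
  0),(7,0)]⟩,⟨0,[(24,0)]⟩⟩,⟨false,0,⟨0,[]⟩,⟨0,[]⟩⟩,⟨false,0,⟨0,[]⟩,⟨0,[]⟩⟩,[.a ⟨true,0,⟨0,[(38,0)]⟩,
  ⟨1,[(34,0),(2,1),(2,0)]⟩⟩ ⟨false,0,⟨0,[(42,0)]⟩,⟨1,[(39,0),(0,0)]⟩⟩ ⟨true,0,⟨4,[(2,0),(9,1),(10,
  0),(1,2)]⟩,⟨0,[(0,0)]⟩⟩,.o ⟨false,1,⟨17,[(1,1),(0,5),(9,3),(2,1),(14,8),(8,1),(0,6)]⟩,⟨0,[(37,
  0)]⟩⟩,.o ⟨false,1,⟨7,[(5,1),(9,1),(14,4),(8,2)]⟩,⟨0,[(25,0)]⟩⟩,.e ⟨false,0,⟨0,[]⟩,⟨1,[(18,0),(0,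
  0),(20,0)]⟩⟩ ⟨false,1,⟨9,[(2,1),(9,3),(10,1),(1,5),(13,4),(0,4)]⟩,⟨0,[(0,0)]⟩⟩]⟩)) (.Q [0,0,2,0,
  -1,0,1,0,0,1,1] (.p true [1,-1,1] [] (⟨0,[(27,0),(2,0)]⟩,⟨0,[(16,0)]⟩) .k 0 (⟨0,[]⟩,⟨0,[]⟩) .k
  .k) (.K ⟨0,[1,-1,1],(-1),(-1),(⟨0,[(28,0),(2,0)]⟩,⟨0,[(17,0)]⟩),.k,(.r (-1) ⟨0,[(7,0),(6,0)]⟩ ⟨1,
  [(12,1),(12,0),(0,0)]⟩),.k,.k,.k,[⟨1,[(30,0),(8,0)]⟩,⟨0,[(0,0)]⟩,⟨9,[(12,7),(1,2),(0,3),(8,1),(5,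
  6),(2,1),(8,0)]⟩,⟨0,[(6,0)]⟩]⟩) (.R ⟨1,false,false,false,[1,-1,1],[1,0,-1],[1,1,-1,-2,0,0,0,1],
  (⟨0,[(28,0),(2,0)]⟩,⟨0,[(17,0)]⟩),(⟨0,[(27,0)]⟩,⟨0,[(28,0)]⟩),⟨3,[(28,3),(0,5),(1,1),(2,0),(1,1),
  (3,0),(0,1)]⟩,.k,.k,(.r (-1) ⟨8,[(0,3),(0,2),(3,0),(0,0),(2,2),(0,1),(3,2)]⟩ ⟨1,[(12,1),(12,0),(0,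
  0)]⟩),(.r 0 ⟨2,[(0,0),(4,0),(0,0),(0,2),(2,1)]⟩ ⟨3,[(3,7),(10,1),(3,0),(0,0),(20,0)]⟩),(.r (-1)
  ⟨2,[(0,0),(4,0),(0,0),(2,2),(0,1)]⟩ ⟨0,[(3,1)]⟩),.k,⟨false,0,⟨2,[(0,1),(4,1),(0,1),(1,2),(1,0)]⟩,
  ⟨1,[(3,3),(35,0),(0,0)]⟩⟩,⟨true,0,⟨0,[(5,0)]⟩,⟨0,[(25,1)]⟩⟩,⟨true,0,⟨0,[(37,0)]⟩,⟨0,[(38,0)]⟩⟩,
  ⟨false,1,⟨0,[(0,0),(0,0),(1,2),(1,0)]⟩,⟨1,[(2,0),(5,1),(1,0)]⟩⟩,⟨false,0,⟨0,[]⟩,⟨1,[(18,0),(0,0),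
  (20,0)]⟩⟩,⟨false,1,⟨1,[(0,0),(2,3),(1,0),(16,0),(17,0)]⟩,⟨0,[(8,1)]⟩⟩,[.a ⟨true,0,⟨1,[(24,1),(9,
  0),(5,0)]⟩,⟨1,[(2,0),(7,0)]⟩⟩ ⟨true,0,⟨3,[(1,0),(3,1),(0,2),(7,0),(15,1),(6,0)]⟩,⟨0,[(3,0),(31,
  0)]⟩⟩ ⟨false,1,⟨1,[(0,1),(23,1),(9,0),(5,0)]⟩,⟨1,[(2,0),(7,0),(14,1)]⟩⟩,.o ⟨false,1,⟨0,[(24,0),
  (15,0)]⟩,⟨5,[(2,1),(2,0),(0,5),(5,1),(17,5),(2,0)]⟩⟩,.o ⟨false,0,⟨0,[(25,0)]⟩,⟨5,[(0,1),(14,1),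
  (14,2),(8,0)]⟩⟩,.o ⟨false,0,⟨1,[(25,2),(0,0)]⟩,⟨0,[(0,0)]⟩⟩]⟩))) (.R ⟨0,false,false,false,[0,1,
  -1],[0,1],[1,1,1],(⟨0,[(15,0)]⟩,⟨0,[(26,0),(2,0)]⟩),(⟨0,[(30,0)]⟩,⟨0,[(29,0)]⟩),⟨0,[(26,0)]⟩,.k,
  .k,.k,.k,.k,.k,⟨true,0,⟨0,[(35,0)]⟩,⟨0,[(1,0),(3,0)]⟩⟩,⟨false,1,⟨0,[(23,0),(13,0)]⟩,⟨0,[(9,0)]⟩⟩,
  ⟨false,0,⟨2,[(3,0),(2,2),(17,0)]⟩,⟨1,[(1,1),(35,0),(0,0)]⟩⟩,⟨true,0,⟨0,[(6,0),(29,0)]⟩,⟨0,[(22,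
  0)]⟩⟩,⟨false,0,⟨0,[]⟩,⟨0,[]⟩⟩,⟨false,0,⟨0,[]⟩,⟨0,[]⟩⟩,[.a ⟨true,0,⟨0,[(36,0)]⟩,⟨1,[(32,0),(2,1),
  (2,0)]⟩⟩ ⟨false,0,⟨0,[(40,0)]⟩,⟨1,[(37,0),(0,0)]⟩⟩ ⟨true,0,⟨0,[(6,0),(3,0)]⟩,⟨0,[(0,0),(4,0)]⟩⟩,
  .o ⟨false,1,⟨3,[(5,1),(4,1),(17,1),(8,0),(0,0)]⟩,⟨0,[(35,0)]⟩⟩,.o ⟨false,1,⟨7,[(3,1),(9,1),(14,4),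
  (8,2)]⟩,⟨0,[(23,0)]⟩⟩,.e ⟨false,0,⟨0,[]⟩,⟨1,[(16,0),(0,0),(20,0)]⟩⟩ ⟨false,1,⟨3,[(5,1),(4,1),(12,
  3),(13,2),(0,0)]⟩,⟨0,[(0,0),(4,0)]⟩⟩]⟩)))))) (.R ⟨0,false,false,true,[0,1,-1],[1,0,-1],[1,0,1],
  (⟨0,[(10,0)]⟩,⟨0,[(21,0),(2,0)]⟩),(⟨0,[(20,0)]⟩,⟨0,[(21,0)]⟩),⟨0,[(21,0)]⟩,.k,.k,.k,.k,.k,.k,
  ⟨true,0,⟨0,[(1,0),(2,0),(23,0)]⟩,⟨0,[(0,0)]⟩⟩,⟨false,0,⟨6,[(5,0),(1,0),(0,0),(2,0),(0,0),(3,0),(1,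
  0),(8,2),(5,0)]⟩,⟨1,[(23,0),(8,0)]⟩⟩,⟨true,0,⟨0,[(1,0),(2,0)]⟩,⟨1,[(0,0),(4,0),(23,0)]⟩⟩,⟨false,0,
  ⟨1,[(27,0),(2,1),(2,0)]⟩,⟨1,[(23,0),(7,1),(1,0)]⟩⟩,⟨false,0,⟨0,[]⟩,⟨0,[]⟩⟩,⟨false,0,⟨0,[]⟩,⟨0,
  []⟩⟩,[.o ⟨false,0,⟨0,[(17,0)]⟩,⟨1,[(1,1),(21,0),(7,1),(1,0)]⟩⟩,.e ⟨false,1,⟨1,[(11,0),(0,0),(20,
  0)]⟩,⟨0,[(29,0)]⟩⟩ ⟨false,0,⟨1,[(0,1),(26,0),(5,0)]⟩,⟨1,[(1,0),(0,0),(1,0),(18,0),(5,0),(1,1)]⟩⟩,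
  .o ⟨false,1,⟨0,[(15,0),(7,0)]⟩,⟨0,[(18,0)]⟩⟩,.a ⟨true,0,⟨0,[(4,0)]⟩,⟨1,[(18,1),(8,0),(4,0)]⟩⟩
  ⟨true,0,⟨0,[]⟩,⟨0,[(35,0)]⟩⟩ ⟨false,0,⟨1,[(0,1),(26,0),(5,0)]⟩,⟨1,[(1,0),(0,0),(1,0),(18,0),(4,0),
  (2,0)]⟩⟩]⟩))) (.Q [0,0,2,0,-1,0,1,0,0,1,1] (.p true [1,-1,1] [] (⟨0,[(19,0),(2,0)]⟩,⟨0,[(8,0)]⟩)
  .k 0 (⟨0,[]⟩,⟨0,[]⟩) .k .k) (.K ⟨0,[1,-1,1],(-1),0,(⟨0,[(20,0),(2,0)]⟩,⟨0,[(9,0)]⟩),.k,(.r (-2)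
  ⟨0,[(5,0),(0,0),(25,0)]⟩ ⟨0,[(1,0),(25,0)]⟩),.k,.k,.k,[⟨1,[(22,0),(8,0)]⟩,⟨0,[(0,0)]⟩,⟨0,[(1,0),
  (12,0),(7,0)]⟩,⟨4,[(0,1),(1,0),(3,1),(0,0),(7,3),(10,0),(5,0)]⟩]⟩) (.S ⟨1,2,[],[1,-1,1],[0,0,1],
  (⟨0,[(20,0),(2,0)]⟩,⟨0,[(9,0)]⟩),⟨3,[(20,3),(0,5),(1,1),(2,0),(1,1),(3,0),(0,1)]⟩,.k,(.r (-2) ⟨0,
  [(5,0),(0,0),(25,0)]⟩ ⟨0,[(1,0),(25,0)]⟩),⟨false,0,⟨1,[(1,1),(15,0),(0,0),(13,1)]⟩,⟨1,[(0,1),(1,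
  1),(23,0),(5,0)]⟩⟩,⟨true,0,⟨24,[(0,10),(0,20),(2,1),(2,5),(8,1),(5,9),(2,0)]⟩,⟨1,[(2,1),(23,0),(5,
  0)]⟩⟩,⟨true,(-1),⟨0,[(1,0),(25,0)]⟩,⟨3,[(0,1),(1,3),(0,1),(2,1),(19,0),(5,0)]⟩⟩,⟨false,0,⟨0,[(0,
  0),(0,0),(25,0)]⟩,⟨1,[(2,1),(23,0),(2,1),(2,2)]⟩⟩,[.a ⟨true,0,⟨0,[(34,0)]⟩,⟨1,[(26,0),(5,0)]⟩⟩
  ⟨true,0,⟨1,[(17,0),(0,0)]⟩,⟨0,[]⟩⟩ ⟨false,1,⟨11,[(0,7),(6,1),(14,2),(2,5),(5,0)]⟩,⟨1,[(17,1),(8,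
  0),(5,0)]⟩⟩,.fo,.o ⟨false,0,⟨0,[(17,0)]⟩,⟨5,[(0,1),(6,1),(14,2),(8,0)]⟩⟩,.o ⟨false,0,⟨1,[(17,2),
  (0,0)]⟩,⟨0,[(0,0)]⟩⟩]⟩))) (.I [0,0,-1,-1,1,0,0,1] (.R ⟨2,true,false,true,[0,1],[0,0,1],[0,1,1,1],
  (⟨0,[]⟩,⟨0,[]⟩),(⟨0,[(19,0)]⟩,⟨0,[(18,0)]⟩),⟨0,[]⟩,.k,.k,.k,.k,.k,.k,⟨false,0,⟨0,[(1,0),(14,0),
  (10,0)]⟩,⟨0,[(0,0)]⟩⟩,⟨true,0,⟨0,[(16,0)]⟩,⟨0,[(2,0)]⟩⟩,⟨true,0,⟨0,[(33,0)]⟩,⟨0,[]⟩⟩,⟨false,1,⟨0,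
  [(0,0),(15,0)]⟩,⟨0,[(1,0)]⟩⟩,⟨false,0,⟨0,[(29,0)]⟩,⟨0,[(28,0),(2,0)]⟩⟩,⟨true,0,⟨0,[(14,0)]⟩,⟨0,
  [(1,0),(26,0)]⟩⟩,[]⟩) (.R ⟨2,true,false,true,[0,1],[0,0,1],[1,1,1],(⟨0,[]⟩,⟨0,[]⟩),(⟨0,[(19,0)]⟩,
  ⟨0,[(18,0)]⟩),⟨0,[]⟩,.k,.k,.k,.k,.k,.k,⟨false,0,⟨9,[(0,7),(2,0),(1,4),(9,0),(0,0),(14,2)]⟩,⟨1,[(4,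
  1),(25,0),(0,0)]⟩⟩,⟨true,0,⟨0,[(16,0)]⟩,⟨0,[(2,0)]⟩⟩,⟨true,0,⟨0,[(28,0)]⟩,⟨0,[(29,0)]⟩⟩,⟨false,1,
  ⟨0,[(14,0),(13,0),(2,0)]⟩,⟨0,[(1,0)]⟩⟩,⟨false,0,⟨0,[]⟩,⟨1,[(9,0),(0,0),(20,0)]⟩⟩,⟨true,0,⟨0,[(14,
  0)]⟩,⟨0,[(1,0),(26,0)]⟩⟩,[]⟩))) (.I [1,-1,0,1,0,0,0,1] (.R ⟨2,true,false,false,[0,1],[0,1,1],[0,0,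
  1,1],(⟨0,[]⟩,⟨0,[]⟩),(⟨0,[(18,0),(3,0)]⟩,⟨0,[(6,0)]⟩),⟨0,[]⟩,.k,.k,.k,.k,.k,.k,⟨false,1,⟨1,[(1,1),
  (12,1),(14,0),(0,0)]⟩,⟨0,[(0,0),(26,0)]⟩⟩,⟨true,0,⟨0,[(1,0)]⟩,⟨0,[(16,0)]⟩⟩,⟨false,1,⟨1,[(8,0),(0,
  0),(20,0)]⟩,⟨0,[]⟩⟩,⟨true,0,⟨0,[(0,0),(0,0),(25,0)]⟩,⟨0,[(14,0)]⟩⟩,⟨true,0,⟨0,[(28,0)]⟩,⟨0,[(27,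
  0)]⟩⟩,⟨false,0,⟨0,[(0,0),(0,0)]⟩,⟨0,[(14,0),(12,0),(2,0)]⟩⟩,[]⟩) (.Q [0,1,0,-1,0,0,-1,-1,0,0,-1]
  (.p false [0,0,1] [] (⟨0,[(18,0)]⟩,⟨0,[(17,0)]⟩) .k 0 (⟨0,[]⟩,⟨0,[]⟩) .k .k) (.K ⟨0,[0,1,1],0,0,
  (⟨0,[(19,0),(3,0)]⟩,⟨0,[(7,0)]⟩),.k,.k,(.x (-1) ⟨0,[(2,0),(5,0),(11,2),(6,1),(3,0)]⟩ ⟨1,[(16,0),
  (0,2),(1,1),(3,3)]⟩),.k,.k,[⟨1,[(16,0),(0,0)]⟩,⟨0,[(2,0)]⟩,⟨0,[(0,0)]⟩,⟨0,[(14,0),(14,0)]⟩]⟩) (.R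
  ⟨2,true,false,false,[0,1],[0,1,1],[0,1],(⟨0,[]⟩,⟨0,[]⟩),(⟨0,[(19,0),(3,0)]⟩,⟨0,[(7,0)]⟩),⟨0,[]⟩,
  .k,.k,.k,.k,.k,.k,⟨false,1,⟨0,[(1,0),(28,0)]⟩,⟨0,[(0,0),(16,0)]⟩⟩,⟨true,0,⟨0,[(2,0)]⟩,⟨0,[(17,
  0)]⟩⟩,⟨false,1,⟨3,[(5,1),(3,0),(0,0),(20,0)]⟩,⟨0,[(26,0)]⟩⟩,⟨true,0,⟨0,[(0,0),(27,0)]⟩,⟨0,[(15,
  0)]⟩⟩,⟨true,0,⟨0,[(27,0)]⟩,⟨1,[(16,0),(0,0)]⟩⟩,⟨false,0,⟨0,[(0,0)]⟩,⟨19,[(1,15),(1,3),(1,5),(0,5),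
  (10,7),(3,2),(9,10)]⟩⟩,[]⟩)))))))

theorem ok0 : chk K t0 base = true := by decide +kernel

theorem closed {p a b c J l q : ℤ} {D dl : ℝ} {Cl : ℤ → ℤ → ℤ → ℤ → ℝ → Prop}
    (W : World p a b c J 1 l q D dl Cl) (g : G0 p a b c J D)
    {N X R : ℤ} {I : ℝ} (hk : KCl p l Cl N X R I) (kz : KF a b D (X + (1 : ℤ) * I) (X + (1 : ℤ) * I + R) I)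
    {Ne Xe : ℤ} {Ie : ℝ} (he : EFac p 1 D Cl 1 Ne Xe Ie)
    (hkf : ∀ kf ∈ (kfY 1 [0,0,0,0,0,0,1,0,0,0,1]), KOk p l Cl 1
      (xv [1, a, b, c, p, J, X, R, Xe] [D, I, Ie]) N kf)
    (h0 : 1 ≤ (c : ℝ))
    (h1 : 1 ≤ (a : ℝ) - (b : ℝ))
    (h2 : 1 ≤ 1 - (a : ℝ) + (b : ℝ) + (c : ℝ))
    (h3 : 0 < 1 - (p : ℝ) + 2 * D)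
    (h4 : 1 ≤ 2 * (a : ℝ) - (b : ℝ))
    (h5 : 1 ≤ 2 - (J : ℝ))
    (h6 : 0 < -(b : ℝ) - (X : ℝ) + D - I)
    (h7 : 0 < (J : ℝ) - I)
    (h8 : 0 < -(J : ℝ) + D - I)
    (h9 : 0 < -2 * (X : ℝ) + D - 2 * I) : False := by
  have g1 := g.a2
  have g2 := g.b2
  have g3 := g.pa
  have g4 := g.pb
  have g5 := g.J1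
  have g6 := g.JD
  have g7 := g.D2
  have g8 := g.ca
  have g9 := g.ca'
  have k1 := kz.I0
  have k2 := kz.ID
  have k3 := kz.z1
  have k4 := kz.z2
  have k5 := kz.s1
  have k6 := kz.s2
  have e1 := he.I0
  have e2 := he.ID
  have e3 := he.x0
  have e4 := he.xp
  push_cast at *
  refine (val_E W.toBase hk he (row := [1]) (by simp) (by simp) (kfY 1 [0,0,0,0,0,0,1,0,0,0,1])).sound W rfl (Nk := N)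
    (fun kf _ _ => ⟨_, rfl⟩) hkf ?_ ok0
  · simp only [base, List.forall_mem_cons, List.not_mem_nil, false_imp_iff, implies_true,
      and_true, hld, xv, evg_cons, evg_nil, List.map_cons, List.map_nil, List.cons_append,
      List.nil_append, if_true, if_false, Bool.false_eq_true]
    push_cast
    refine ⟨?_, ?_, ?_, ?_, ?_, ?_, ?_, ?_, ?_, ?_, ?_, ?_, ?_, ?_, ?_, ?_, ?_, ?_, ?_, ?_, ?_, ?_, ?_, ?_, ?_, ?_, ?_, ?_⟩ <;> linarith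

end Helper48.Y.Y11_c2_L2_m0n1

namespace Helper48.Y.Y11_c2_P3_m0n1

open Helper25.KG Helper25.KW Helper55.KE Helper11.CT

noncomputable def K : Cls :=
  cE 1 [1] (kfY 1 [0,0,0,0,0,0,1,0,0,0,1])

noncomputable def base : List Con :=
  [(false,[0,0,0,0,0,0,-2,0,0,1,-2]),
  (false,[0,0,0,0,0,-1,0,0,0,1,-1]),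
  (false,[0,0,0,0,0,1,0,0,0,0,-1]),
  (false,[0,0,0,0,1,0,0,0,-1,0,0,-1]),
  (false,[0,0,0,0,0,0,0,0,1,0,0,1]),
  (false,[0,0,0,0,0,0,0,0,0,1,0,-1]),
  (false,[0,0,0,0,0,0,0,0,0,0,0,1]),
  (false,[0,0,-1,0,0,0,-1,0,0,1,-1]),
  (false,[0,1,0,0,0,0,1,1,0,0,1]),
  (false,[0,1,0,0,0,0,-1,-1,0,0,-1]),
  (false,[0,0,1,0,0,0,1,0,0,0,1]),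
  (false,[0,0,1,0,0,0,-1,0,0,0,-1]),
  (false,[0,0,0,0,0,0,0,0,0,1,-1]),
  (false,[0,0,0,0,0,0,0,0,0,0,1]),
  (true,[-2,0,0,0,0,1]),
  (false,[0,0,0,0,1,0,0,0,0,-2]),
  (false,[0,0,0,0,0,-1,0,0,0,1]),
  (true,[0,0,0,0,0,1]),
  (true,[0,2,-1]),
  (false,[1,0,0,0,0,3,0,0,0,-1]),
  (false,[3,0,0,0,-1,0,0,0,0,2]),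
  (false,[-1,0,0,0,1,0,0,0,0,-2]),
  (true,[1,-1,1,1]),
  (true,[0,1,-1]),
  (true,[0,1,0,-1]),
  (true,[0,0,0,1]),
  (true,[0,0,-2,0,1]),
  (true,[0,-2,0,0,1]),
  (true,[-1,0,1]),
  (true,[-1,1])]

noncomputable def t0 : Tre :=
  (.I [1,-1,2,2,-1] (.R ⟨2,true,false,true,[0,1],[1,-1],[0,1],(⟨0,[]⟩,⟨0,[]⟩),(⟨0,[(17,0)]⟩,⟨0,[(18,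
  0)]⟩),⟨0,[]⟩,.k,.k,.k,(.r 1 ⟨0,[(0,0),(29,0)]⟩ ⟨0,[(25,1),(1,0),(0,0)]⟩),.k,.k,⟨false,0,⟨0,[(26,
  0)]⟩,⟨1,[(25,1),(1,0),(0,0)]⟩⟩,⟨true,(-1),⟨1,[(0,1),(20,0),(3,3),(2,0)]⟩,⟨1,[(16,0),(10,0)]⟩⟩,
  ⟨false,1,⟨1,[(25,1),(1,0),(0,0)]⟩,⟨0,[(23,0)]⟩⟩,⟨true,0,⟨1,[(21,0),(3,3),(2,0)]⟩,⟨1,[(0,1),(15,0),
  (7,1),(2,0)]⟩⟩,⟨true,0,⟨0,[(24,0)]⟩,⟨1,[(11,0),(0,0)]⟩⟩,⟨false,0,⟨1,[(21,0),(3,1),(2,0)]⟩,⟨1,[(16,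
  0),(9,1),(1,0)]⟩⟩,[]⟩) (.I [0,1,0,0,0,0,0,1] (.Q [0,1,0,-1,0,0,1,1,0,0,1] (.p true [0,0,1] [] (⟨0,
  [(15,0)]⟩,⟨0,[(14,0)]⟩) .k 0 (⟨0,[]⟩,⟨0,[]⟩) .k .k) (.I [1,-1,-1,-1,1,0,0,1] (.Q [0,0,0,0,0,0,-1,
  0,0,0,-1] (.p false [0,0,1] [] (⟨0,[(17,0)]⟩,⟨0,[(16,0)]⟩) .k 0 (⟨0,[]⟩,⟨0,[]⟩) .k .k) (.Q [0,0,0,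
  -1,0,0,1,1,0,0,1] (.p true [0,0,1] [] (⟨0,[(18,0)]⟩,⟨0,[(17,0)]⟩) .k 0 (⟨0,[]⟩,⟨0,[]⟩) .k .k) (.Q
  [0,-1,1,1,1,0,0,-1,0,-1] (.pp true [-1,1]) (.I [0,1,0,0,0,0,0,-1] (.R ⟨0,false,false,true,[0,1,
  -1],[1,0,-1],[1,0,1],(⟨0,[(10,0)]⟩,⟨0,[(21,0),(2,0)]⟩),(⟨0,[(20,0)]⟩,⟨0,[(21,0)]⟩),⟨0,[(21,0)]⟩,
  .k,.k,.k,.k,.k,.k,⟨true,0,⟨0,[(2,0),(0,0),(26,0)]⟩,⟨0,[(0,0)]⟩⟩,⟨false,0,⟨2,[(11,0),(0,0),(9,0),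
  (1,0),(3,0)]⟩,⟨1,[(23,0),(10,0)]⟩⟩,⟨true,0,⟨0,[(2,0),(0,0)]⟩,⟨0,[(0,0),(32,0)]⟩⟩,⟨false,0,⟨1,[(28,
  0),(3,1),(2,0)]⟩,⟨1,[(23,0),(9,1),(1,0)]⟩⟩,⟨false,0,⟨0,[]⟩,⟨0,[]⟩⟩,⟨false,0,⟨0,[]⟩,⟨0,[]⟩⟩,[.o
  ⟨false,0,⟨0,[(17,0)]⟩,⟨1,[(2,1),(20,0),(9,1),(1,0)]⟩⟩,.e ⟨false,1,⟨1,[(11,0),(0,0),(22,0)]⟩,⟨0,
  [(31,0)]⟩⟩ ⟨false,0,⟨1,[(0,1),(27,0),(6,0)]⟩,⟨1,[(2,0),(0,0),(0,0),(18,0),(7,0),(1,1)]⟩⟩,.o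
  ⟨false,1,⟨0,[(15,0),(7,0)]⟩,⟨0,[(18,0)]⟩⟩,.a ⟨true,0,⟨0,[(3,0)]⟩,⟨3,[(0,1),(1,1),(15,1),(9,1),(4,
  1),(0,0),(0,0)]⟩⟩ ⟨true,0,⟨0,[]⟩,⟨0,[(37,0)]⟩⟩ ⟨false,0,⟨1,[(0,1),(27,0),(6,0)]⟩,⟨1,[(2,0),(0,0),
  (0,0),(18,0),(6,0),(2,0)]⟩⟩]⟩) (.Q [0,-1,0,1,1,0,-1,-1,0,-1,-1] (.p false [1,-1,1] [] (⟨0,[(21,0),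
  (2,0)]⟩,⟨0,[(10,0)]⟩) .k 0 (⟨0,[]⟩,⟨0,[]⟩) .k .k) (.R ⟨0,false,false,true,[0,0,1],[1,-1,1],[1,0,0,
  0,0,0,0,1],(⟨0,[(22,0)]⟩,⟨0,[(21,0)]⟩),(⟨0,[(22,0),(2,0)]⟩,⟨0,[(11,0)]⟩),⟨0,[(11,0)]⟩,.k,.k,.k,.k,
  .k,.k,⟨true,0,⟨0,[(31,0)]⟩,⟨0,[(33,0)]⟩⟩,⟨false,0,⟨2,[(12,0),(0,0),(9,0),(1,0),(3,0)]⟩,⟨1,[(24,0),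
  (10,0)]⟩⟩,⟨true,0,⟨0,[]⟩,⟨0,[(38,0)]⟩⟩,⟨false,0,⟨1,[(29,0),(3,1),(2,0)]⟩,⟨1,[(24,0),(9,1),(1,
  0)]⟩⟩,⟨false,0,⟨0,[]⟩,⟨0,[]⟩⟩,⟨false,0,⟨0,[]⟩,⟨0,[]⟩⟩,[.o ⟨false,0,⟨0,[(6,0)]⟩,⟨0,[(0,0)]⟩⟩,.o
  ⟨false,0,⟨0,[(3,0)]⟩,⟨3,[(0,2),(1,0),(4,0),(10,0),(8,0)]⟩⟩,.o ⟨false,1,⟨1,[(19,1),(4,0),(10,0)]⟩,
  ⟨0,[(4,0)]⟩⟩,.a ⟨true,0,⟨0,[(19,0)]⟩,⟨0,[(16,0)]⟩⟩ ⟨true,0,⟨0,[(1,0),(30,0)]⟩,⟨0,[(18,0),(0,0)]⟩⟩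
  ⟨false,0,⟨0,[(3,0),(12,0)]⟩,⟨0,[(2,0)]⟩⟩]⟩) (.I [0,0,-1,-1,0,0,0,1] (.R ⟨0,false,false,true,[0,0,
  1],[1,-1,1],[0,1,0,-1,0,0,0,1],(⟨0,[(23,0)]⟩,⟨0,[(22,0)]⟩),(⟨0,[(23,0),(2,0)]⟩,⟨0,[(12,0)]⟩),⟨0,
  [(12,0)]⟩,.k,.k,.k,.k,.k,.k,⟨true,0,⟨1,[(20,0),(0,0)]⟩,⟨0,[]⟩⟩,⟨false,0,⟨2,[(13,0),(0,0),(9,0),(1,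
  0),(3,0)]⟩,⟨1,[(25,0),(10,0)]⟩⟩,⟨true,0,⟨0,[(34,0)]⟩,⟨0,[(35,0)]⟩⟩,⟨false,0,⟨1,[(30,0),(3,1),(2,
  0)]⟩,⟨1,[(25,0),(9,1),(1,0)]⟩⟩,⟨false,0,⟨0,[]⟩,⟨0,[]⟩⟩,⟨false,0,⟨0,[]⟩,⟨0,[]⟩⟩,[.a ⟨true,(-1),⟨0,
  [(1,0)]⟩,⟨0,[(3,0),(13,0)]⟩⟩ ⟨false,0,⟨3,[(0,2),(7,0),(19,0),(5,0)]⟩,⟨1,[(3,1),(26,0),(5,0)]⟩⟩
  ⟨true,(-1),⟨0,[(1,0),(3,0)]⟩,⟨0,[(3,0)]⟩⟩,.o ⟨false,0,⟨0,[(4,0)]⟩,⟨1,[(3,0),(13,0),(1,0),(5,0),(9,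
  0)]⟩⟩,.o ⟨false,1,⟨1,[(20,1),(4,0),(10,0)]⟩,⟨0,[(5,0)]⟩⟩,.e ⟨false,0,⟨0,[(0,0)]⟩,⟨8,[(3,8),(9,3),
  (0,3),(9,0),(1,0),(3,3)]⟩⟩ ⟨false,0,⟨1,[(1,0),(4,0),(10,0)]⟩,⟨0,[(3,0)]⟩⟩]⟩) (.I [1,0,-1,-1,0,0,0,
  1] (.N [0,-1,1] 0 ⟨0,[(0,0)]⟩ ⟨0,[(1,0)]⟩ .k) (.Q [0,0,1,-1,0,0,1,0,0,0,1] (.p true [0,0,1] []
  (⟨0,[(24,0)]⟩,⟨0,[(23,0)]⟩) .k 0 (⟨0,[]⟩,⟨0,[]⟩) .k .k) (.R ⟨0,false,false,false,[0,0,1],[0,1],[1,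
  1,1],(⟨0,[(25,0)]⟩,⟨0,[(24,0)]⟩),(⟨0,[(29,0)]⟩,⟨0,[(28,0)]⟩),⟨0,[(14,0)]⟩,.k,.k,.k,.k,.k,.k,⟨true,
  0,⟨0,[(36,0)]⟩,⟨0,[(1,0),(2,0)]⟩⟩,⟨false,1,⟨1,[(19,1),(7,0),(10,0)]⟩,⟨0,[(22,0)]⟩⟩,⟨true,0,⟨0,[(1,
  0),(34,0)]⟩,⟨0,[(4,0),(30,0)]⟩⟩,⟨false,1,⟨0,[(5,0),(13,0)]⟩,⟨0,[(6,0)]⟩⟩,⟨false,0,⟨0,[]⟩,⟨0,[]⟩⟩,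
  ⟨false,0,⟨0,[]⟩,⟨0,[]⟩⟩,[.a ⟨true,0,⟨0,[(37,0)]⟩,⟨1,[(32,0),(3,1),(2,0)]⟩⟩ ⟨false,0,⟨0,[(41,0)]⟩,
  ⟨1,[(38,0),(0,0)]⟩⟩ ⟨true,0,⟨0,[(7,0),(29,0)]⟩,⟨0,[(0,0)]⟩⟩,.o ⟨false,1,⟨1,[(27,0),(9,1),(1,0)]⟩,
  ⟨0,[(36,0)]⟩⟩,.o ⟨false,1,⟨1,[(22,1),(4,0),(10,0)]⟩,⟨0,[(7,0)]⟩⟩,.e ⟨false,0,⟨0,[]⟩,⟨1,[(15,0),(0,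
  0),(22,0)]⟩⟩ ⟨false,1,⟨1,[(19,1),(7,0),(9,1),(1,0)]⟩,⟨0,[(0,0)]⟩⟩]⟩) (.R ⟨0,false,false,false,[0,
  0,1],[0,1],[1,1,1],(⟨0,[(25,0)]⟩,⟨0,[(24,0)]⟩),(⟨0,[(29,0)]⟩,⟨0,[(28,0)]⟩),⟨0,[(14,0)]⟩,.k,.k,.k,
  .k,.k,.k,⟨true,0,⟨0,[(36,0)]⟩,⟨0,[(1,0),(2,0)]⟩⟩,⟨false,1,⟨7,[(0,3),(10,1),(0,1),(14,0),(10,3),(0,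
  0)]⟩,⟨0,[(22,0)]⟩⟩,⟨true,0,⟨0,[(1,0),(34,0)]⟩,⟨0,[(0,0),(5,0)]⟩⟩,⟨false,1,⟨0,[(5,0),(13,0)]⟩,⟨0,
  [(6,0)]⟩⟩,⟨false,0,⟨0,[]⟩,⟨0,[]⟩⟩,⟨false,0,⟨0,[]⟩,⟨0,[]⟩⟩,[.e ⟨false,0,⟨0,[(41,0)]⟩,⟨1,[(38,0),(0,
  0)]⟩⟩ ⟨false,0,⟨0,[(0,0)]⟩,⟨3,[(11,1),(3,0),(0,0),(5,3),(16,0)]⟩⟩,.o ⟨false,1,⟨1,[(27,0),(9,1),(1,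
  0)]⟩,⟨0,[(36,0)]⟩⟩,.o ⟨false,1,⟨1,[(22,1),(4,0),(10,0)]⟩,⟨0,[(7,0)]⟩⟩,.a ⟨true,0,⟨0,[(22,0)]⟩,⟨0,
  [(19,0)]⟩⟩ ⟨false,0,⟨0,[]⟩,⟨1,[(15,0),(0,0),(22,0)]⟩⟩ ⟨true,0,⟨0,[(0,0)]⟩,⟨0,[(22,0),(13,
  0)]⟩⟩]⟩)))))) (.R ⟨0,false,false,true,[0,0,1],[1,-1,1],[1,1,1],(⟨0,[(20,0)]⟩,⟨0,[(19,0)]⟩),(⟨0,
  [(20,0),(2,0)]⟩,⟨0,[(9,0)]⟩),⟨0,[(9,0)]⟩,.k,.k,.k,.k,.k,.k,⟨true,0,⟨0,[(16,0),(0,0),(11,0)]⟩,⟨1,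
  [(0,1),(21,0),(11,0)]⟩⟩,⟨false,0,⟨2,[(10,0),(0,0),(9,0),(1,0),(3,0)]⟩,⟨1,[(22,0),(10,0)]⟩⟩,⟨true,
  0,⟨0,[(16,0),(0,0)]⟩,⟨1,[(0,1),(21,0),(9,1),(1,0)]⟩⟩,⟨false,0,⟨1,[(27,0),(3,1),(2,0)]⟩,⟨1,[(22,0),
  (9,1),(1,0)]⟩⟩,⟨false,0,⟨0,[]⟩,⟨0,[]⟩⟩,⟨false,0,⟨0,[]⟩,⟨0,[]⟩⟩,[.e ⟨false,0,⟨0,[(36,0)]⟩,⟨1,[(33,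
  0),(0,0)]⟩⟩ ⟨false,(-1),⟨0,[(0,0)]⟩,⟨1,[(16,1),(0,1),(4,0),(9,1),(0,0),(0,1)]⟩⟩,.o ⟨false,0,⟨0,
  [(1,0)]⟩,⟨1,[(16,1),(5,0),(9,1),(1,0)]⟩⟩,.o ⟨false,1,⟨1,[(17,1),(4,0),(10,0)]⟩,⟨0,[(2,0)]⟩⟩,.a
  ⟨true,0,⟨0,[(17,0)]⟩,⟨0,[(14,0)]⟩⟩ ⟨false,0,⟨0,[]⟩,⟨1,[(10,0),(0,0),(22,0)]⟩⟩ ⟨true,(-1),⟨0,[(0,
  0)]⟩,⟨1,[(16,1),(0,1),(4,0),(9,1),(1,0)]⟩⟩]⟩)) (.Q [0,0,0,0,0,0,1,1,0,0,1] (.p true [0,0,1] []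
  (⟨0,[(19,0)]⟩,⟨0,[(18,0)]⟩) .k 0 (⟨0,[]⟩,⟨0,[]⟩) .k .k) (.R ⟨2,true,false,false,[0,1],[0,0,1],[0,
  1,1,1],(⟨0,[]⟩,⟨0,[]⟩),(⟨0,[(20,0)]⟩,⟨0,[(19,0)]⟩),⟨0,[]⟩,.k,.k,.k,.k,.k,.k,⟨false,0,⟨0,[(1,0),
  (15,0),(12,0)]⟩,⟨0,[(3,0)]⟩⟩,⟨true,0,⟨0,[(17,0)]⟩,⟨0,[(2,0)]⟩⟩,⟨true,0,⟨0,[(36,0)]⟩,⟨0,[]⟩⟩,
  ⟨false,1,⟨0,[(4,0),(29,0)]⟩,⟨0,[(1,0)]⟩⟩,⟨false,0,⟨0,[(32,0)]⟩,⟨0,[(31,0),(2,0)]⟩⟩,⟨true,0,⟨0,[(0,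
  0)]⟩,⟨0,[(16,0)]⟩⟩,[]⟩) (.I [0,1,-1,-1,0,0,0,1] (.R ⟨0,false,false,true,[0,0,1],[1,-1,1],[1,0,1],
  (⟨0,[(21,0)]⟩,⟨0,[(20,0)]⟩),(⟨0,[(21,0),(2,0)]⟩,⟨0,[(10,0)]⟩),⟨0,[(10,0)]⟩,.k,.k,.k,.k,.k,.k,
  ⟨true,0,⟨0,[(1,0),(16,0),(11,0)]⟩,⟨0,[(0,0)]⟩⟩,⟨false,0,⟨2,[(11,0),(0,0),(9,0),(1,0),(3,0)]⟩,⟨1,
  [(23,0),(10,0)]⟩⟩,⟨true,0,⟨0,[(1,0),(16,0)]⟩,⟨0,[(0,0),(32,0)]⟩⟩,⟨false,0,⟨1,[(28,0),(3,1),(2,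
  0)]⟩,⟨1,[(23,0),(9,1),(1,0)]⟩⟩,⟨false,0,⟨0,[]⟩,⟨0,[]⟩⟩,⟨false,0,⟨0,[]⟩,⟨0,[]⟩⟩,[.o ⟨false,0,⟨0,
  [(5,0)]⟩,⟨1,[(2,1),(20,0),(11,0)]⟩⟩,.e ⟨false,1,⟨1,[(11,0),(0,0),(22,0)]⟩,⟨0,[(31,0)]⟩⟩ ⟨false,0,
  ⟨1,[(0,1),(27,0),(6,0)]⟩,⟨1,[(2,1),(15,1),(4,0),(10,0)]⟩⟩,.o ⟨false,1,⟨1,[(18,1),(4,0),(10,0)]⟩,
  ⟨0,[(3,0)]⟩⟩,.a ⟨true,0,⟨0,[(18,0)]⟩,⟨0,[(15,0)]⟩⟩ ⟨true,0,⟨0,[]⟩,⟨0,[(37,0)]⟩⟩ ⟨false,0,⟨1,[(0,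
  1),(27,0),(6,0)]⟩,⟨1,[(2,1),(15,1),(4,0),(11,0)]⟩⟩]⟩) (.Q [0,-1,0,0,1,0,1,1,0,-1,1] (.p true [0,0,
  1] [1] (⟨0,[(21,0)]⟩,⟨0,[(20,0)]⟩) .k 1 (⟨0,[]⟩,⟨0,[]⟩) .k .k) (.R ⟨0,false,false,true,[0,1,-1],
  [1,0,-1],[1,0,1,1,0,0,0,-1],(⟨0,[(11,0)]⟩,⟨0,[(22,0),(2,0)]⟩),(⟨0,[(21,0)]⟩,⟨0,[(22,0)]⟩),⟨0,[(22,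
  0)]⟩,.k,.k,.k,.k,.k,.k,⟨true,0,⟨0,[(31,0)]⟩,⟨0,[(33,0)]⟩⟩,⟨false,0,⟨2,[(12,0),(0,0),(9,0),(1,0),
  (3,0)]⟩,⟨1,[(24,0),(10,0)]⟩⟩,⟨true,0,⟨0,[]⟩,⟨0,[(38,0)]⟩⟩,⟨false,0,⟨1,[(29,0),(3,1),(2,0)]⟩,⟨1,
  [(24,0),(9,1),(1,0)]⟩⟩,⟨false,0,⟨0,[]⟩,⟨0,[]⟩⟩,⟨false,0,⟨0,[]⟩,⟨0,[]⟩⟩,[.o ⟨false,0,⟨0,[(18,0)]⟩,
  ⟨0,[(0,0)]⟩⟩,.o ⟨false,0,⟨0,[(2,0)]⟩,⟨3,[(0,1),(11,0),(0,0),(3,1),(6,0)]⟩⟩,.o ⟨false,1,⟨0,[(16,0),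
  (7,0)]⟩,⟨0,[(19,0)]⟩⟩,.a ⟨true,0,⟨0,[(4,0)]⟩,⟨1,[(19,1),(9,0),(2,1),(3,0)]⟩⟩ ⟨true,0,⟨0,[(1,0),
  (30,0)]⟩,⟨0,[(4,0),(1,0)]⟩⟩ ⟨false,0,⟨1,[(1,1),(6,0),(20,0),(8,0)]⟩,⟨0,[(0,0),(3,0)]⟩⟩]⟩) (.I [0,
  0,0,0,0,0,0,-1] (.Q [0,1,0,0,-1,0,0,-1,0,1] (.pp false [-1,1]) (.R ⟨0,false,false,true,[0,1,-1],
  [1,0,-1],[0,1,1,0,0,0,0,-1],(⟨0,[(13,0)]⟩,⟨0,[(24,0),(2,0)]⟩),(⟨0,[(23,0)]⟩,⟨0,[(24,0)]⟩),⟨0,[(24,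
  0)]⟩,.k,.k,.k,.k,.k,.k,⟨true,0,⟨1,[(21,0),(0,0)]⟩,⟨0,[]⟩⟩,⟨false,0,⟨2,[(14,0),(0,0),(9,0),(1,0),
  (3,0)]⟩,⟨1,[(26,0),(10,0)]⟩⟩,⟨true,0,⟨0,[(35,0)]⟩,⟨0,[(36,0)]⟩⟩,⟨false,0,⟨1,[(31,0),(3,1),(2,0)]⟩,
  ⟨1,[(26,0),(9,1),(1,0)]⟩⟩,⟨false,0,⟨0,[]⟩,⟨0,[]⟩⟩,⟨false,0,⟨0,[]⟩,⟨0,[]⟩⟩,[.e ⟨false,0,⟨2,[(1,1),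
  (18,0),(0,0),(7,0)]⟩,⟨0,[(7,0),(28,0)]⟩⟩ ⟨false,(-1),⟨0,[(0,0)]⟩,⟨1,[(9,1),(16,0),(10,0),(0,1)]⟩⟩,
  .o ⟨false,0,⟨0,[(4,0)]⟩,⟨1,[(19,1),(6,0),(11,0)]⟩⟩,.o ⟨false,1,⟨0,[(18,0),(7,0)]⟩,⟨0,[(21,0)]⟩⟩,
  .a ⟨true,0,⟨0,[(6,0)]⟩,⟨3,[(0,1),(18,1),(1,1),(9,0),(5,0),(0,1)]⟩⟩ ⟨false,0,⟨0,[(1,0)]⟩,⟨0,[(9,0),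
  (28,0)]⟩⟩ ⟨true,(-1),⟨0,[(0,0)]⟩,⟨1,[(9,1),(16,0),(11,0)]⟩⟩]⟩) (.R ⟨0,false,false,true,[0,1,-1],
  [1,0,-1],[0,1,1,0,0,0,0,-1],(⟨0,[(13,0)]⟩,⟨0,[(24,0),(2,0)]⟩),(⟨0,[(23,0)]⟩,⟨0,[(24,0)]⟩),⟨0,[(24,
  0)]⟩,.k,.k,.k,.k,.k,.k,⟨true,0,⟨1,[(21,0),(0,0)]⟩,⟨0,[]⟩⟩,⟨false,0,⟨2,[(14,0),(0,0),(9,0),(1,0),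
  (3,0)]⟩,⟨1,[(26,0),(10,0)]⟩⟩,⟨true,0,⟨0,[(35,0)]⟩,⟨0,[(36,0)]⟩⟩,⟨false,0,⟨1,[(31,0),(3,1),(2,0)]⟩,
  ⟨3,[(0,1),(2,1),(22,0),(9,1),(0,0)]⟩⟩,⟨false,0,⟨0,[]⟩,⟨0,[]⟩⟩,⟨false,0,⟨0,[]⟩,⟨0,[]⟩⟩,[.a ⟨true,
  (-1),⟨0,[(2,0)]⟩,⟨0,[(19,0),(18,0)]⟩⟩ ⟨false,0,⟨2,[(1,1),(18,0),(0,0),(7,0)]⟩,⟨1,[(0,1),(30,0),(5,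
  0)]⟩⟩ ⟨true,(-1),⟨0,[(2,0),(18,0)]⟩,⟨0,[(0,0)]⟩⟩,.o ⟨false,0,⟨0,[(4,0)]⟩,⟨3,[(0,1),(18,1),(1,1),
  (4,0),(10,0)]⟩⟩,.o ⟨false,1,⟨0,[(18,0),(7,0)]⟩,⟨0,[(21,0)]⟩⟩,.e ⟨false,0,⟨0,[(1,0)]⟩,⟨2,[(0,0),
  (10,0),(7,1),(18,1)]⟩⟩ ⟨false,0,⟨1,[(3,1),(6,0),(20,0),(8,0)]⟩,⟨0,[(0,0)]⟩⟩]⟩)) (.I [0,0,0,0,0,0,
  0,1] (.Q [0,0,-1,1,0,0,-1,0,0,0,-1] (.p false [0,0,1] [] (⟨0,[(24,0)]⟩,⟨0,[(23,0)]⟩) .k 0 (⟨0,[]⟩,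
  ⟨0,[]⟩) .k .k) (.R ⟨0,false,false,false,[0,0,1],[0,1],[1,1,1],(⟨0,[(25,0)]⟩,⟨0,[(24,0)]⟩),(⟨0,
  [(29,0)]⟩,⟨0,[(28,0)]⟩),⟨0,[(14,0)]⟩,.k,.k,.k,.k,.k,.k,⟨true,0,⟨0,[(36,0)]⟩,⟨0,[(1,0),(2,0)]⟩⟩,
  ⟨false,1,⟨7,[(0,3),(10,1),(0,1),(14,0),(10,3),(0,0)]⟩,⟨0,[(22,0)]⟩⟩,⟨false,0,⟨0,[(4,0),(31,0)]⟩,
  ⟨1,[(1,1),(36,0),(0,0)]⟩⟩,⟨true,0,⟨0,[(6,0)]⟩,⟨0,[(9,0)]⟩⟩,⟨false,0,⟨0,[]⟩,⟨0,[]⟩⟩,⟨false,0,⟨0,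
  []⟩,⟨0,[]⟩⟩,[.e ⟨false,0,⟨0,[(41,0)]⟩,⟨1,[(38,0),(0,0)]⟩⟩ ⟨false,0,⟨0,[(0,0)]⟩,⟨3,[(11,1),(3,0),
  (0,0),(5,3),(16,0)]⟩⟩,.o ⟨false,1,⟨1,[(27,0),(9,1),(1,0)]⟩,⟨0,[(36,0)]⟩⟩,.o ⟨false,1,⟨1,[(22,1),
  (4,0),(10,0)]⟩,⟨0,[(7,0)]⟩⟩,.a ⟨true,0,⟨0,[(22,0)]⟩,⟨0,[(19,0)]⟩⟩ ⟨false,0,⟨0,[]⟩,⟨1,[(15,0),(0,
  0),(22,0)]⟩⟩ ⟨true,0,⟨0,[(0,0)]⟩,⟨0,[(22,0),(13,0)]⟩⟩]⟩) (.R ⟨0,false,false,false,[0,0,1],[0,1],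
  [1,1,1],(⟨0,[(25,0)]⟩,⟨0,[(24,0)]⟩),(⟨0,[(29,0)]⟩,⟨0,[(28,0)]⟩),⟨0,[(14,0)]⟩,.k,.k,.k,.k,.k,.k,
  ⟨true,0,⟨0,[(36,0)]⟩,⟨0,[(1,0),(2,0)]⟩⟩,⟨false,1,⟨1,[(19,1),(7,0),(10,0)]⟩,⟨0,[(22,0)]⟩⟩,⟨false,0,
  ⟨1,[(0,0),(3,0),(16,0)]⟩,⟨1,[(1,1),(36,0),(0,0)]⟩⟩,⟨true,0,⟨0,[(6,0)]⟩,⟨0,[(9,0)]⟩⟩,⟨false,0,⟨0,
  []⟩,⟨0,[]⟩⟩,⟨false,0,⟨0,[]⟩,⟨0,[]⟩⟩,[.a ⟨true,0,⟨0,[(37,0)]⟩,⟨11,[(0,5),(2,1),(4,1),(2,1),(0,1),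
  (13,1),(1,1),(3,2),(6,0)]⟩⟩ ⟨false,0,⟨0,[(41,0)]⟩,⟨1,[(38,0),(0,0)]⟩⟩ ⟨true,0,⟨0,[(1,0),(4,0)]⟩,
  ⟨0,[(0,0)]⟩⟩,.o ⟨false,1,⟨1,[(27,0),(9,1),(1,0)]⟩,⟨0,[(36,0)]⟩⟩,.o ⟨false,1,⟨1,[(22,1),(4,0),(10,
  0)]⟩,⟨0,[(7,0)]⟩⟩,.e ⟨false,0,⟨0,[]⟩,⟨1,[(15,0),(0,0),(22,0)]⟩⟩ ⟨false,1,⟨1,[(1,1),(4,1),(31,0),
  (0,0)]⟩,⟨0,[(0,0)]⟩⟩]⟩)) (.N [0,0,1] 0 ⟨0,[(1,0)]⟩ ⟨0,[(0,0)]⟩ .k))))))) (.I [1,1,-1,-1,0,0,0,-1]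
  (.K ⟨0,[0,1,1],0,0,(⟨22,[(9,2),(0,2),(8,22),(0,4),(4,5),(0,2)]⟩,⟨0,[(7,0)]⟩),.k,.k,(.r 0 ⟨0,[(4,
  0),(23,1),(6,0)]⟩ ⟨1,[(0,2),(1,0),(30,0)]⟩),.k,.k,[⟨1,[(16,0),(0,0)]⟩,⟨0,[(1,0)]⟩,⟨0,[(0,0),(16,
  0)]⟩,⟨0,[(14,0),(16,0)]⟩]⟩) (.Q [0,-1,0,1,0,0,1,1,0,0,1] (.p true [0,0,1] [] (⟨0,[(19,0)]⟩,⟨0,
  [(18,0)]⟩) .k 0 (⟨0,[]⟩,⟨0,[]⟩) .k .k) (.I [0,0,2,2,-1,0,0,1] (.I [0,1,-1,-1,0,0,0,1] (.R ⟨2,true,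
  false,false,[0,1],[0,1,1],[0,0,1,1],(⟨0,[]⟩,⟨0,[]⟩),(⟨22,[(12,2),(0,2),(8,22),(0,4),(4,5),(0,2)]⟩,
  ⟨0,[(10,0)]⟩),⟨0,[]⟩,.k,.k,.k,.k,.k,.k,⟨false,1,⟨1,[(4,1),(13,1),(16,0),(0,0)]⟩,⟨1,[(0,0),(2,
  0)]⟩⟩,⟨true,0,⟨0,[(4,0)]⟩,⟨0,[(20,0)]⟩⟩,⟨false,1,⟨1,[(12,0),(0,0),(22,0)]⟩,⟨0,[]⟩⟩,⟨true,0,⟨1,[(2,
  0),(3,0)]⟩,⟨0,[(18,0)]⟩⟩,⟨true,0,⟨0,[(34,0)]⟩,⟨0,[(33,0)]⟩⟩,⟨false,0,⟨0,[(2,0)]⟩,⟨0,[(18,0),(14,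
  0),(2,0)]⟩⟩,[]⟩) (.R ⟨2,true,false,false,[0,1],[0,1,1],[0,1],(⟨0,[]⟩,⟨0,[]⟩),(⟨22,[(12,2),(0,2),
  (8,22),(0,4),(4,5),(0,2)]⟩,⟨0,[(10,0)]⟩),⟨0,[]⟩,.k,.k,.k,.k,.k,.k,⟨false,1,⟨0,[(0,0),(7,0),(23,
  0)]⟩,⟨0,[(3,0)]⟩⟩,⟨true,0,⟨0,[(4,0)]⟩,⟨0,[(20,0)]⟩⟩,⟨false,1,⟨3,[(8,1),(3,0),(0,0),(22,0)]⟩,⟨0,
  [(31,0)]⟩⟩,⟨true,0,⟨1,[(2,0),(3,0)]⟩,⟨0,[(18,0)]⟩⟩,⟨true,0,⟨0,[(32,0)]⟩,⟨1,[(19,0),(0,0)]⟩⟩,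
  ⟨false,0,⟨0,[(2,0)]⟩,⟨0,[(18,0),(14,0),(2,0)]⟩⟩,[]⟩)) (.R ⟨2,true,false,false,[0,1],[0,1,1],[0,1],
  (⟨0,[]⟩,⟨0,[]⟩),(⟨22,[(11,2),(0,2),(8,22),(0,4),(4,5),(0,2)]⟩,⟨0,[(9,0)]⟩),⟨0,[]⟩,.k,.k,.k,.k,.k,
  .k,⟨false,1,⟨3,[(0,1),(2,0),(13,1),(0,0),(7,0),(7,1)]⟩,⟨0,[(2,0)]⟩⟩,⟨true,0,⟨0,[(3,0)]⟩,⟨0,[(19,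
  0)]⟩⟩,⟨false,1,⟨3,[(7,1),(3,0),(0,0),(22,0)]⟩,⟨0,[(30,0)]⟩⟩,⟨true,0,⟨1,[(1,0),(3,0)]⟩,⟨0,[(17,
  0)]⟩⟩,⟨true,0,⟨0,[(31,0)]⟩,⟨1,[(18,0),(0,0)]⟩⟩,⟨false,0,⟨0,[(1,0)]⟩,⟨7,[(0,1),(6,1),(9,5),(0,2),
  (0,4),(15,3)]⟩⟩,[]⟩)) (.I [1,0,0,0,0,0,0,1] (.R ⟨0,false,false,false,[0,1,-1],[0,1],[0,0,1,0,0,0,
  0,-1],(⟨0,[(10,0)]⟩,⟨0,[(21,0),(2,0)]⟩),(⟨0,[(25,0)]⟩,⟨0,[(24,0)]⟩),⟨0,[(21,0)]⟩,.k,.k,.k,.k,.k,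
  .k,⟨false,1,⟨1,[(1,1),(1,1),(30,0),(0,0)]⟩,⟨0,[(2,0),(28,0)]⟩⟩,⟨true,0,⟨0,[(3,0)]⟩,⟨0,[(19,0)]⟩⟩,
  ⟨false,1,⟨0,[(32,0),(2,0)]⟩,⟨0,[(33,0)]⟩⟩,⟨true,0,⟨0,[(0,0),(2,0)]⟩,⟨0,[(17,0)]⟩⟩,⟨false,0,⟨0,[]⟩,
  ⟨0,[]⟩⟩,⟨false,0,⟨0,[]⟩,⟨0,[]⟩⟩,[.a ⟨true,0,⟨0,[(33,0)]⟩,⟨1,[(28,0),(3,1),(2,0)]⟩⟩ ⟨true,0,⟨0,[(1,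
  0),(1,0),(26,0)]⟩,⟨0,[(0,0)]⟩⟩ ⟨false,0,⟨0,[(3,0),(29,0)]⟩,⟨3,[(7,1),(0,1),(14,0),(11,0)]⟩⟩,.o
  ⟨false,1,⟨1,[(23,0),(9,1),(1,0)]⟩,⟨0,[(32,0)]⟩⟩,.o ⟨false,1,⟨0,[(15,0),(7,0)]⟩,⟨0,[(18,0)]⟩⟩,.o
  ⟨false,1,⟨3,[(8,1),(2,0),(0,0),(10,2)]⟩,⟨0,[(3,0)]⟩⟩]⟩) (.S ⟨1,0,[0,0,1,1,0,0,0,1],[0,1,1],[1,1,
  1],(⟨22,[(11,2),(0,2),(8,22),(0,4),(4,5),(0,2)]⟩,⟨0,[(9,0)]⟩),⟨0,[(21,0)]⟩,.k,.k,⟨true,0,⟨0,[(0,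
  0),(31,0)]⟩,⟨0,[(2,0),(28,0)]⟩⟩,⟨false,1,⟨1,[(11,0),(0,0),(22,0)]⟩,⟨0,[]⟩⟩,⟨false,0,⟨0,[(0,0)]⟩,
  ⟨1,[(2,0),(1,0),(6,0),(0,0)]⟩⟩,⟨true,0,⟨0,[(33,0)]⟩,⟨0,[(32,0)]⟩⟩,[.e ⟨false,0,⟨0,[(37,0)]⟩,⟨1,
  [(34,0),(0,0)]⟩⟩ ⟨false,0,⟨0,[(2,0),(28,0)]⟩,⟨3,[(0,3),(6,1),(3,0),(0,0),(22,0)]⟩⟩,.o ⟨false,1,⟨1,
  [(2,1),(0,1),(19,0),(10,0)]⟩,⟨0,[(1,0)]⟩⟩,.o ⟨false,1,⟨1,[(3,1),(19,0),(10,0)]⟩,⟨0,[(19,0)]⟩⟩,.a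
  ⟨true,0,⟨0,[(3,0)]⟩,⟨5,[(8,2),(2,0),(0,0),(9,0),(1,0),(3,0)]⟩⟩ ⟨false,0,⟨0,[]⟩,⟨1,[(11,0),(0,0),
  (22,0)]⟩⟩ ⟨true,0,⟨0,[(2,0),(28,0)]⟩,⟨0,[(0,0),(31,0)]⟩⟩]⟩))))) (.Q [0,0,2,0,-1,0,1,0,0,1,1] (.p
  true [1,-1,1] [] (⟨0,[(17,0),(2,0)]⟩,⟨0,[(6,0)]⟩) .k 0 (⟨0,[]⟩,⟨0,[]⟩) .k .k) (.K ⟨0,[1,-1,1],
  (-1),0,(⟨0,[(18,0),(2,0)]⟩,⟨0,[(7,0)]⟩),.k,(.r (-2) ⟨0,[(3,0),(0,0),(27,0)]⟩ ⟨0,[(1,0),(25,0)]⟩),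
  .k,.k,.k,[⟨1,[(20,0),(10,0)]⟩,⟨0,[(0,0)]⟩,⟨0,[(1,0),(10,0),(7,0)]⟩,⟨4,[(0,1),(1,0),(1,1),(0,0),(7,
  3),(11,0),(6,0)]⟩]⟩) (.Q [0,1,0,-1,0,0,1,0,0,0,1] (.p true [0,0,1] [] (⟨0,[(18,0)]⟩,⟨0,[(17,0)]⟩)
  .k 0 (⟨0,[]⟩,⟨0,[]⟩) .k .k) (.Q [0,0,0,0,0,0,1,0,0,0,1] (.p true [0,0,1] [] (⟨0,[(19,0)]⟩,⟨0,[(18,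
  0)]⟩) .k 0 (⟨0,[]⟩,⟨0,[]⟩) .k .k) (.Q [0,0,0,0,0,0,-1,-1,0,0,-1] (.p false [0,0,1] [] (⟨0,[(20,
  0)]⟩,⟨0,[(19,0)]⟩) .k 0 (⟨0,[]⟩,⟨0,[]⟩) .k .k) (.R ⟨0,false,false,false,[0,1,-1],[0,1],[1],(⟨0,
  [(10,0)]⟩,⟨0,[(21,0),(2,0)]⟩),(⟨0,[(25,0)]⟩,⟨0,[(24,0)]⟩),⟨0,[(21,0)]⟩,.k,.k,.k,.k,.k,.k,⟨false,1,
  ⟨3,[(1,1),(1,1),(3,1),(20,0),(6,0)]⟩,⟨0,[(30,0),(6,0)]⟩⟩,⟨true,0,⟨0,[(1,0)]⟩,⟨0,[(19,0)]⟩⟩,⟨true,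
  1,⟨6,[(3,1),(1,4),(0,1),(0,0),(0,0),(6,0),(19,3)]⟩,⟨0,[(4,0)]⟩⟩,⟨false,1,⟨0,[(16,0),(18,0)]⟩,⟨0,
  [(0,0)]⟩⟩,⟨false,0,⟨0,[]⟩,⟨0,[]⟩⟩,⟨false,0,⟨0,[]⟩,⟨0,[]⟩⟩,[.a ⟨true,0,⟨0,[(33,0)]⟩,⟨1,[(28,0),(3,
  1),(2,0)]⟩⟩ ⟨true,0,⟨0,[]⟩,⟨1,[(18,0),(0,0)]⟩⟩ ⟨false,0,⟨0,[(1,0),(31,0)]⟩,⟨3,[(7,1),(0,1),(14,0),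
  (11,0)]⟩⟩,.o ⟨false,1,⟨1,[(23,0),(9,1),(1,0)]⟩,⟨0,[(32,0)]⟩⟩,.o ⟨false,1,⟨5,[(3,1),(4,1),(14,2),
  (10,0)]⟩,⟨0,[(18,0)]⟩⟩,.o ⟨false,1,⟨3,[(8,1),(2,0),(0,0),(10,2)]⟩,⟨0,[(1,0)]⟩⟩]⟩) (.R ⟨2,true,
  false,false,[0,1],[0,0,1],[1,0,0,0,0,0,0,1],(⟨0,[]⟩,⟨0,[]⟩),(⟨0,[(21,0)]⟩,⟨0,[(20,0)]⟩),⟨0,[]⟩,.k,
  .k,.k,.k,.k,.k,⟨true,0,⟨0,[]⟩,⟨1,[(18,0),(0,0)]⟩⟩,⟨false,0,⟨0,[(1,0)]⟩,⟨3,[(8,1),(2,0),(0,0),(10,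
  0),(10,1)]⟩⟩,⟨true,1,⟨3,[(0,0),(2,0),(1,1),(0,0),(0,0),(0,0),(26,1)]⟩,⟨0,[(4,0)]⟩⟩,⟨false,1,⟨0,
  [(5,0),(29,0)]⟩,⟨2,[(3,0),(0,1),(10,0),(1,0),(12,0),(4,0)]⟩⟩,⟨false,1,⟨2,[(0,1),(2,0),(2,0),(8,0),
  (19,1)]⟩,⟨0,[(4,0),(27,0),(2,0)]⟩⟩,⟨true,0,⟨0,[(0,0)]⟩,⟨0,[(17,0)]⟩⟩,[]⟩)) (.I [1,-1,-1,-1,1,0,0,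
  -1] (.Q [0,-1,0,0,0,0,0,-1,0,1] (.pp false [-1,1]) (.R ⟨0,false,false,false,[0,1,-1],[1,0,-1],[1,
  0,1],(⟨0,[(11,0)]⟩,⟨0,[(22,0),(2,0)]⟩),(⟨0,[(21,0)]⟩,⟨0,[(22,0)]⟩),⟨0,[(22,0)]⟩,.k,.k,.k,.k,.k,.k,
  ⟨true,0,⟨0,[(2,0),(3,0),(24,0)]⟩,⟨1,[(1,0),(3,0)]⟩⟩,⟨false,0,⟨2,[(12,0),(0,0),(9,0),(1,0),(3,0)]⟩,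
  ⟨1,[(24,0),(10,0)]⟩⟩,⟨false,1,⟨0,[(2,0),(3,0),(29,0)]⟩,⟨1,[(1,0),(3,0),(28,1)]⟩⟩,⟨true,0,⟨1,[(29,
  0),(3,1),(2,0)]⟩,⟨0,[(4,0),(0,0),(0,0),(24,0)]⟩⟩,⟨false,0,⟨0,[]⟩,⟨0,[]⟩⟩,⟨false,0,⟨0,[]⟩,⟨0,[]⟩⟩,
  [.o ⟨false,0,⟨1,[(1,0),(0,1),(2,0)]⟩,⟨1,[(17,1),(6,0),(11,0)]⟩⟩,.e ⟨false,1,⟨1,[(12,0),(0,0),(22,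
  0)]⟩,⟨0,[(32,0)]⟩⟩ ⟨false,0,⟨0,[(0,0)]⟩,⟨1,[(7,1),(16,0),(10,0)]⟩⟩,.o ⟨false,1,⟨5,[(4,1),(4,1),
  (14,2),(10,0)]⟩,⟨0,[(19,0)]⟩⟩,.a ⟨true,0,⟨0,[(2,0)]⟩,⟨0,[(0,0),(16,0)]⟩⟩ ⟨true,0,⟨0,[]⟩,⟨0,[(38,
  0)]⟩⟩ ⟨false,0,⟨0,[(0,0)]⟩,⟨1,[(7,1),(16,0),(11,0)]⟩⟩]⟩) (.I [0,0,0,0,0,0,-1] (.I [0,0,0,0,1,0,0,
  0,-1] (.I [0,1,0,-1,0,0,0,1] (.I [0,1,0,0,0,-1,0,1] (.I [0,1,0,0,0,0,0,1,1] (.I [1,0,0,0,0,3,0,0,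
  1] (.I [0,1,0,-1,0,1,1] (.I [0,1,0,-1,0,1,1,1] (.I [0,0,-2,0,1,-1,-1] (.I [3,2,0,0,-1,0,0,2] (.I
  [4,1,0,0,-1,3,0,1] (.I [0,2,0,-1,0,-1,1,1] (.I [0,2,0,-1,0,-1,1,2] (.I [1,0,0,0,0,0,0,1] (.C [(0,
  1),(13,1),(0,1),(3,1),(23,0),(6,0)]) (.C [(0,1),(13,1),(28,0),(6,0)])) (.C [(0,0),(12,0),(5,0),(3,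
  0)])) (.C [(0,0),(11,0),(2,0),(6,0)])) (.C [(0,0),(10,0),(27,0),(0,0)])) (.C [(0,0),(9,1),(28,
  0)])) (.C [(0,0),(12,0),(5,0),(11,1)])) (.C [(0,0),(13,0),(4,0)])) (.C [(0,0),(9,0),(7,0)])) (.C
  [(0,0),(18,0),(0,0),(13,0)])) (.C [(0,0),(4,0),(12,0),(0,0)])) (.C [(0,0),(3,0),(9,0),(11,0)]))
  (.C [(0,0),(4,0),(3,0)])) (.C [(0,0),(13,0),(2,0)])) (.C [(0,0),(2,0),(19,0)]))) (.R ⟨0,false,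
  false,false,[0,0,1],[0,1],[1,1,1],(⟨0,[(21,0)]⟩,⟨0,[(20,0)]⟩),(⟨0,[(25,0)]⟩,⟨0,[(24,0)]⟩),⟨0,[(10,
  0)]⟩,.k,.k,.k,.k,.k,.k,⟨true,0,⟨0,[(32,0)]⟩,⟨1,[(0,0),(3,0),(30,1)]⟩⟩,⟨false,1,⟨2,[(3,0),(4,0),
  (25,1)]⟩,⟨0,[(18,0)]⟩⟩,⟨false,0,⟨0,[(4,0),(27,0),(2,0)]⟩,⟨3,[(0,1),(2,1),(1,1),(22,0),(5,0),(0,
  3)]⟩⟩,⟨true,0,⟨2,[(3,0),(0,1),(10,0),(1,0),(12,0),(4,0)]⟩,⟨0,[(5,0)]⟩⟩,⟨false,0,⟨0,[]⟩,⟨0,[]⟩⟩,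
  ⟨false,0,⟨0,[]⟩,⟨0,[]⟩⟩,[.e ⟨false,0,⟨0,[(37,0)]⟩,⟨1,[(34,0),(0,0)]⟩⟩ ⟨false,0,⟨1,[(0,0),(2,1),(0,
  0),(23,0),(6,0)]⟩,⟨3,[(7,1),(3,0),(0,0),(5,3),(16,0)]⟩⟩,.o ⟨false,1,⟨1,[(23,0),(9,1),(1,0)]⟩,⟨0,
  [(32,0)]⟩⟩,.o ⟨false,1,⟨1,[(18,1),(4,0),(10,0)]⟩,⟨0,[(1,0)]⟩⟩,.a ⟨true,0,⟨0,[(18,0)]⟩,⟨0,[(15,
  0)]⟩⟩ ⟨false,0,⟨0,[]⟩,⟨1,[(11,0),(0,0),(22,0)]⟩⟩ ⟨true,0,⟨1,[(0,0),(2,1),(0,0),(23,0),(6,0)]⟩,⟨0,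
  [(18,0),(13,0)]⟩⟩]⟩))) (.R ⟨0,false,false,false,[0,0,1],[0,1],[1,1,1],(⟨0,[(19,0)]⟩,⟨0,[(18,0)]⟩),
  (⟨0,[(23,0)]⟩,⟨0,[(22,0)]⟩),⟨0,[(8,0)]⟩,.k,.k,.k,.k,.k,.k,⟨true,0,⟨0,[(30,0)]⟩,⟨0,[(0,0),(1,0),(0,
  0),(29,0)]⟩⟩,⟨false,1,⟨2,[(1,0),(4,0),(25,1)]⟩,⟨0,[(16,0)]⟩⟩,⟨false,0,⟨0,[(2,0),(27,0),(2,0)]⟩,⟨1,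
  [(0,1),(2,1),(28,0),(0,0)]⟩⟩,⟨true,0,⟨3,[(0,1),(1,1),(12,1),(16,0),(0,0)]⟩,⟨0,[(3,0)]⟩⟩,⟨false,0,
  ⟨0,[]⟩,⟨0,[]⟩⟩,⟨false,0,⟨0,[]⟩,⟨0,[]⟩⟩,[.e ⟨false,0,⟨0,[(35,0)]⟩,⟨1,[(32,0),(0,0)]⟩⟩ ⟨false,0,⟨0,
  [(0,0),(28,0)]⟩,⟨3,[(5,1),(3,0),(0,0),(5,3),(16,0)]⟩⟩,.o ⟨false,1,⟨1,[(21,0),(9,1),(1,0)]⟩,⟨0,
  [(30,0)]⟩⟩,.o ⟨false,1,⟨1,[(16,1),(4,0),(10,0)]⟩,⟨0,[(0,0),(29,0)]⟩⟩,.a ⟨true,0,⟨0,[(16,0)]⟩,⟨0,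
  [(13,0)]⟩⟩ ⟨false,0,⟨0,[]⟩,⟨1,[(9,0),(0,0),(22,0)]⟩⟩ ⟨true,0,⟨0,[(0,0),(28,0)]⟩,⟨0,[(16,0),(13,
  0)]⟩⟩]⟩)))) (.Q [0,0,0,0,0,0,1,0,0,0,1] (.p true [0,0,1] [] (⟨0,[(16,0)]⟩,⟨0,[(15,0)]⟩) .k 0 (⟨0,
  []⟩,⟨0,[]⟩) .k .k) (.Q [0,-1,-2,-1,1,0,1,0,0,0,1] (.p true [0,0,1] [] (⟨0,[(17,0)]⟩,⟨0,[(16,0)]⟩)
  .k 0 (⟨0,[]⟩,⟨0,[]⟩) .k .k) (.K ⟨0,[0,1,1],0,0,(⟨22,[(8,2),(0,2),(8,22),(0,4),(4,5),(0,2)]⟩,⟨0,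
  [(6,0)]⟩),.k,.k,(.r 0 ⟨0,[(3,0),(23,1),(6,0)]⟩ ⟨0,[(0,0),(1,0),(26,1)]⟩),.k,.k,[⟨1,[(15,0),(0,
  0)]⟩,⟨0,[(1,0)]⟩,⟨0,[(2,0),(26,1)]⟩,⟨0,[(13,0),(16,0)]⟩]⟩) (.I [0,0,-2,-2,1,0,0,-1] (.K ⟨0,[0,1,
  1],0,0,(⟨22,[(9,2),(0,2),(8,22),(0,4),(4,5),(0,2)]⟩,⟨0,[(7,0)]⟩),.k,.k,(.r 0 ⟨2,[(1,0),(2,1),(4,
  0),(0,0),(3,0),(13,3),(2,0)]⟩ ⟨0,[(0,0)]⟩),.k,.k,[⟨1,[(16,0),(0,0)]⟩,⟨0,[(2,0)]⟩,⟨0,[(0,0),(0,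
  0)]⟩,⟨0,[(14,0),(16,0)]⟩]⟩) (.R ⟨0,false,false,true,[0,1,-1],[0,1],[0,1,1],(⟨0,[(8,0)]⟩,⟨0,[(19,
  0),(2,0)]⟩),(⟨0,[(23,0)]⟩,⟨0,[(22,0)]⟩),⟨0,[(19,0)]⟩,.k,.k,.k,.k,.k,.k,⟨false,1,⟨3,[(5,1),(3,0),
  (0,0),(22,0)]⟩,⟨0,[(31,0)]⟩⟩,⟨true,0,⟨0,[(2,0)]⟩,⟨0,[(17,0)]⟩⟩,⟨false,1,⟨0,[(4,0),(25,0),(2,0)]⟩,
  ⟨0,[(2,0),(0,0)]⟩⟩,⟨true,0,⟨0,[(14,0)]⟩,⟨0,[(3,0),(26,0)]⟩⟩,⟨false,0,⟨0,[]⟩,⟨0,[]⟩⟩,⟨false,0,⟨0,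
  []⟩,⟨0,[]⟩⟩,[.o ⟨false,0,⟨3,[(0,0),(0,0),(0,1),(0,0),(17,1),(7,3)]⟩,⟨0,[(30,0),(2,0)]⟩⟩,.a ⟨true,
  0,⟨0,[(31,0)]⟩,⟨1,[(26,0),(3,1),(2,0)]⟩⟩ ⟨true,0,⟨1,[(16,0),(0,0)]⟩,⟨0,[]⟩⟩ ⟨false,0,⟨0,[(2,0),
  (28,0)]⟩,⟨3,[(5,1),(0,1),(14,0),(11,0)]⟩⟩,.o ⟨false,1,⟨0,[(13,0),(7,0)]⟩,⟨0,[(16,0)]⟩⟩,.o ⟨false,
  1,⟨3,[(6,1),(2,0),(0,0),(10,2)]⟩,⟨0,[(2,0)]⟩⟩]⟩))) (.I [1,0,0,0,0,0,0,-1] (.R ⟨2,true,false,true,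
  [0,1],[0,0,1],[1,1,1],(⟨0,[]⟩,⟨0,[]⟩),(⟨0,[(18,0)]⟩,⟨0,[(17,0)]⟩),⟨0,[]⟩,.k,.k,.k,.k,.k,.k,⟨false,
  0,⟨0,[(0,0)]⟩,⟨1,[(3,1),(27,0),(0,0)]⟩⟩,⟨true,0,⟨0,[(15,0)]⟩,⟨0,[(1,0)]⟩⟩,⟨true,0,⟨0,[(29,0)]⟩,⟨0,
  [(30,0)]⟩⟩,⟨false,1,⟨0,[(13,0),(15,0),(2,0)]⟩,⟨0,[(2,0)]⟩⟩,⟨false,0,⟨0,[]⟩,⟨1,[(8,0),(0,0),(22,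
  0)]⟩⟩,⟨true,0,⟨0,[(13,0)]⟩,⟨0,[(2,0),(26,0)]⟩⟩,[]⟩) (.R ⟨2,true,false,true,[0,1],[0,0,1],[0,1,1,
  1],(⟨0,[]⟩,⟨0,[]⟩),(⟨0,[(18,0)]⟩,⟨0,[(17,0)]⟩),⟨0,[]⟩,.k,.k,.k,.k,.k,.k,⟨false,0,⟨0,[(2,0),(12,0),
  (12,0)]⟩,⟨1,[(0,0),(2,0),(0,0),(27,0)]⟩⟩,⟨true,0,⟨0,[(15,0)]⟩,⟨0,[(1,0)]⟩⟩,⟨true,0,⟨0,[(34,0)]⟩,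
  ⟨0,[]⟩⟩,⟨false,1,⟨0,[(13,0),(15,0),(2,0)]⟩,⟨0,[(2,0)]⟩⟩,⟨false,0,⟨0,[(30,0)]⟩,⟨0,[(29,0),(2,0)]⟩⟩,
  ⟨true,0,⟨0,[(13,0)]⟩,⟨0,[(2,0),(26,0)]⟩⟩,[]⟩)))) (.K ⟨0,[0,1,1],0,0,(⟨22,[(5,2),(0,2),(8,22),(0,
  4),(4,5),(0,2)]⟩,⟨0,[(3,0)]⟩),.k,.k,(.r 0 ⟨0,[(10,0),(2,0),(10,0),(2,0)]⟩ ⟨0,[(0,0),(0,0)]⟩),.k,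
  .k,[⟨1,[(12,0),(0,0)]⟩,⟨0,[(0,0),(9,0)]⟩,⟨0,[(0,0),(12,0),(11,0),(0,0)]⟩,⟨0,[(10,0),(16,0)]⟩]⟩)))

theorem ok0 : chk K t0 base = true := by decide +kernel

theorem closed {p a b c J l q : ℤ} {D dl : ℝ} {Cl : ℤ → ℤ → ℤ → ℤ → ℝ → Prop}
    (W : World p a b c J 1 l q D dl Cl) (g : G0 p a b c J D)
    {N X R : ℤ} {I : ℝ} (hk : KCl p l Cl N X R I) (kz : KF a b D (X + (1 : ℤ) * I) (X + (1 : ℤ) * I + R) I)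
    {Ne Xe : ℤ} {Ie : ℝ} (he : EFac p 1 D Cl 1 Ne Xe Ie)
    (hkf : ∀ kf ∈ (kfY 1 [0,0,0,0,0,0,1,0,0,0,1]), KOk p l Cl 1
      (xv [1, a, b, c, p, J, X, R, Xe] [D, I, Ie]) N kf)
    (h0 : 1 ≤ (c : ℝ))
    (h1 : 1 ≤ (a : ℝ) - (b : ℝ))
    (h2 : 1 ≤ 1 - (a : ℝ) + (b : ℝ) + (c : ℝ))
    (h3 : 0 < -1 + (p : ℝ) - 2 * D)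
    (h4 : 0 < 3 - (p : ℝ) + 2 * D)
    (h5 : 0 < 1 + 3 * (J : ℝ) - D)
    (h6 : 1 ≤ 2 * (a : ℝ) - (b : ℝ))
    (h7 : 1 ≤ -2 + (J : ℝ))
    (h8 : 0 < -(b : ℝ) - (X : ℝ) + D - I)
    (h9 : 0 < (J : ℝ) - I)
    (h10 : 0 < -(J : ℝ) + D - I)
    (h11 : 0 < -2 * (X : ℝ) + D - 2 * I) : False := by
  have g1 := g.a2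
  have g2 := g.b2
  have g3 := g.pa
  have g4 := g.pb
  have g5 := g.J1
  have g6 := g.JD
  have g7 := g.D2
  have g8 := g.ca
  have g9 := g.ca'
  have k1 := kz.I0
  have k2 := kz.ID
  have k3 := kz.z1
  have k4 := kz.z2
  have k5 := kz.s1
  have k6 := kz.s2
  have e1 := he.I0
  have e2 := he.ID
  have e3 := he.x0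
  have e4 := he.xp
  push_cast at *
  refine (val_E W.toBase hk he (row := [1]) (by simp) (by simp) (kfY 1 [0,0,0,0,0,0,1,0,0,0,1])).sound W rfl (Nk := N)
    (fun kf _ _ => ⟨_, rfl⟩) hkf ?_ ok0
  · simp only [base, List.forall_mem_cons, List.not_mem_nil, false_imp_iff, implies_true,
      and_true, hld, xv, evg_cons, evg_nil, List.map_cons, List.map_nil, List.cons_append,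
      List.nil_append, if_true, if_false, Bool.false_eq_true]
    push_cast
    refine ⟨?_, ?_, ?_, ?_, ?_, ?_, ?_, ?_, ?_, ?_, ?_, ?_, ?_, ?_, ?_, ?_, ?_, ?_, ?_, ?_, ?_, ?_, ?_, ?_, ?_, ?_, ?_, ?_, ?_, ?_⟩ <;> linarith

end Helper48.Y.Y11_c2_P3_m0n1

namespace Helper48.Y.Y11_c35_L2_m0n1

open Helper25.KG Helper25.KW Helper55.KE Helper11.CT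

noncomputable def K : Cls :=
  cE 1 [1] (kfY 1 [0,0,0,0,0,0,1,0,0,0,1])

noncomputable def base : List Con :=
  [(false,[0,0,0,0,0,0,-2,0,0,1,-2]),
  (false,[0,0,0,0,0,-1,0,0,0,1,-1]),
  (false,[0,0,0,0,0,1,0,0,0,0,-1]),
  (false,[0,0,0,0,1,0,0,0,-1,0,0,-1]),
  (false,[0,0,0,0,0,0,0,0,1,0,0,1]),
  (false,[0,0,0,0,0,0,0,0,0,1,0,-1]),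
  (false,[0,0,0,0,0,0,0,0,0,0,0,1]),
  (false,[0,0,-1,0,0,0,-1,0,0,1,-1]),
  (false,[0,1,0,0,0,0,1,1,0,0,1]),
  (false,[0,1,0,0,0,0,-1,-1,0,0,-1]),
  (false,[0,0,1,0,0,0,1,0,0,0,1]),
  (false,[0,0,1,0,0,0,-1,0,0,0,-1]),
  (false,[0,0,0,0,0,0,0,0,0,1,-1]),
  (false,[0,0,0,0,0,0,0,0,0,0,1]),
  (true,[2,0,0,0,0,-1]),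
  (false,[0,0,0,0,1,0,0,0,0,-2]),
  (false,[0,0,0,0,0,-1,0,0,0,1]),
  (true,[0,0,0,0,0,1]),
  (true,[0,2,-1]),
  (false,[1,0,0,0,-1,0,0,0,0,2]),
  (true,[0,2,-1]),
  (true,[1,-1,1]),
  (true,[0,1,0,-1]),
  (true,[0,0,0,1]),
  (true,[0,0,-2,0,1]),
  (true,[0,-2,0,0,1]),
  (true,[-1,0,1]),
  (true,[-1,1])]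

noncomputable def t0 : Tre :=
  (.Q [0,0,0,2,0,0,0,0,0,-1] (.pp true [-1,1]) (.R ⟨2,true,false,true,[0,1],[1,-1],[1,0,1],(⟨0,[]⟩,
  ⟨0,[]⟩),(⟨0,[(17,0)]⟩,⟨0,[(18,0)]⟩),⟨0,[]⟩,.k,.k,.k,(.r 1 ⟨0,[(0,1),(19,0),(1,1),(0,1)]⟩ ⟨0,[(23,
  1),(1,0),(0,0)]⟩),.k,.k,⟨false,0,⟨5,[(0,2),(0,0),(9,1),(8,0),(1,3),(3,0)]⟩,⟨0,[(23,0),(1,0)]⟩⟩,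
  ⟨true,(-1),⟨0,[(0,0),(19,0),(1,1),(0,1)]⟩,⟨1,[(16,0),(8,0)]⟩⟩,⟨false,1,⟨0,[(23,0),(2,0)]⟩,⟨0,[(24,
  0)]⟩⟩,⟨true,0,⟨1,[(20,0),(2,3),(2,0)]⟩,⟨0,[(0,0)]⟩⟩,⟨true,0,⟨0,[]⟩,⟨0,[(28,0)]⟩⟩,⟨false,0,⟨1,[(20,
  0),(2,1),(2,0)]⟩,⟨3,[(0,1),(3,0),(0,0),(10,0),(9,1)]⟩⟩,[]⟩) (.I [1,-1,0,0,0,0,0,-1] (.Q [0,0,-2,0,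
  1,0,1,0,0,-1,1] (.p true [0,0,1] [1] (⟨0,[(15,0)]⟩,⟨0,[(14,0)]⟩) .k 1 (⟨0,[]⟩,⟨0,[]⟩) .k .k) (.Q
  [0,1,0,-1,0,0,-1,-1,0,0,-1] (.p false [0,0,1] [] (⟨0,[(16,0)]⟩,⟨0,[(15,0)]⟩) .k 0 (⟨0,[]⟩,⟨0,[]⟩)
  .k .k) (.K ⟨0,[0,1,1],0,0,(⟨0,[(17,0),(3,0)]⟩,⟨0,[(5,0)]⟩),.k,.k,(.r 0 ⟨0,[(12,0),(2,0),(9,0),(1,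
  1)]⟩ ⟨13,[(0,7),(0,11),(0,5),(0,9),(7,3),(7,0),(9,0)]⟩),.k,.k,[⟨1,[(14,0),(0,0)]⟩,⟨0,[(2,0),(9,
  0)]⟩,⟨0,[(0,0)]⟩,⟨0,[(12,0),(14,0)]⟩]⟩) (.R ⟨0,false,false,false,[0,1,-1],[0,1],[1],(⟨0,[(6,0)]⟩,
  ⟨0,[(17,0),(2,0)]⟩),(⟨0,[(21,0)]⟩,⟨0,[(20,0)]⟩),⟨0,[(17,0)]⟩,.k,.k,.k,.k,.k,.k,⟨false,1,⟨1,[(1,1),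
  (1,0),(0,0)]⟩,⟨1,[(14,0),(0,0),(11,1)]⟩⟩,⟨true,0,⟨0,[(2,0),(9,0)]⟩,⟨0,[(15,0)]⟩⟩,⟨false,1,⟨0,[(0,
  0),(2,0),(7,0),(7,0)]⟩,⟨3,[(2,1),(10,1),(0,2),(0,0),(11,3)]⟩⟩,⟨true,0,⟨0,[(0,0),(25,0)]⟩,⟨0,[(13,
  0)]⟩⟩,⟨false,0,⟨0,[]⟩,⟨0,[]⟩⟩,⟨false,0,⟨0,[]⟩,⟨0,[]⟩⟩,[.a ⟨true,0,⟨0,[(27,0)]⟩,⟨19,[(3,9),(3,3),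
  (0,3),(14,4),(5,0),(1,1)]⟩⟩ ⟨true,0,⟨0,[]⟩,⟨1,[(14,0),(0,0)]⟩⟩ ⟨false,0,⟨1,[(0,0),(1,0),(11,0),(9,
  0),(2,0)]⟩,⟨1,[(3,0),(0,0),(14,0),(8,0)]⟩⟩,.o ⟨false,1,⟨1,[(19,0),(7,1),(1,0)]⟩,⟨0,[(26,0)]⟩⟩,.o
  ⟨false,1,⟨0,[(11,0),(7,0)]⟩,⟨0,[(14,0)]⟩⟩,.o ⟨false,1,⟨3,[(4,1),(2,0),(0,0),(10,2)]⟩,⟨0,[(2,0),(9,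
  0)]⟩⟩]⟩)) (.Q [0,0,0,1,0,0,0,-1,0,-1] (.pp true [-1,1]) (.K ⟨0,[1,-1,1],(-1),0,(⟨0,[(17,0),(2,
  0)]⟩,⟨0,[(6,0)]⟩),.k,(.r (-2) ⟨1,[(3,1),(7,1),(0,1),(6,1),(8,0),(0,0)]⟩ ⟨2,[(0,3),(0,1),(10,0),(1,
  0),(8,0),(1,0),(1,1)]⟩),.k,.k,.k,[⟨1,[(19,0),(8,0)]⟩,⟨0,[(1,0),(0,1),(9,1)]⟩,⟨1,[(0,1),(0,0),(9,
  0),(7,0),(4,0)]⟩,⟨19,[(3,9),(3,3),(0,3),(3,19),(10,4),(5,0),(1,1)]⟩]⟩) (.R ⟨0,false,false,true,[0,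
  1,-1],[0,1],[1,0,1],(⟨0,[(6,0)]⟩,⟨0,[(17,0),(2,0)]⟩),(⟨0,[(21,0)]⟩,⟨0,[(20,0)]⟩),⟨0,[(17,0)]⟩,.k,
  .k,.k,.k,.k,.k,⟨false,1,⟨1,[(0,1),(1,1),(16,0),(8,0)]⟩,⟨0,[(27,0),(3,0)]⟩⟩,⟨true,0,⟨0,[(2,0),(9,
  0)]⟩,⟨0,[(15,0)]⟩⟩,⟨false,1,⟨1,[(0,1),(18,0),(9,0)]⟩,⟨3,[(2,2),(10,0),(0,0),(9,0),(2,3)]⟩⟩,⟨true,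
  0,⟨0,[(12,0)]⟩,⟨1,[(1,0),(0,1),(8,0),(7,0),(4,0)]⟩⟩,⟨false,0,⟨0,[]⟩,⟨0,[]⟩⟩,⟨false,0,⟨0,[]⟩,⟨0,
  []⟩⟩,[.e ⟨false,0,⟨0,[]⟩,⟨1,[(7,0),(0,0),(19,0)]⟩⟩ ⟨false,0,⟨1,[(2,0),(9,0),(1,0),(9,0),(2,1)]⟩,
  ⟨0,[(0,0),(1,0),(8,0),(7,0)]⟩⟩,.a ⟨true,0,⟨0,[(27,0)]⟩,⟨19,[(3,9),(3,3),(0,3),(14,4),(5,0),(1,
  1)]⟩⟩ ⟨true,0,⟨0,[(25,0)]⟩,⟨0,[(31,0)]⟩⟩ ⟨false,0,⟨0,[(2,0),(9,0),(14,0)]⟩,⟨1,[(3,0),(0,0),(14,0),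
  (8,0)]⟩⟩,.o ⟨false,1,⟨0,[(11,0),(7,0)]⟩,⟨0,[(14,0)]⟩⟩,.o ⟨false,1,⟨3,[(4,1),(2,0),(0,0),(10,2)]⟩,
  ⟨0,[(2,0),(9,0)]⟩⟩]⟩))) (.Q [0,0,0,0,0,0,1,1,0,0,1] (.p true [0,0,1] [] (⟨0,[(15,0)]⟩,⟨0,[(14,
  0)]⟩) .k 0 (⟨0,[]⟩,⟨0,[]⟩) .k .k) (.I [1,0,0,-1,0,0,0,1] (.Q [0,-1,1,1,1,0,0,-1,0,-1] (.pp true
  [-1,1]) (.Q [0,0,0,-1,0,0,-1,0,0,0,-1] (.p false [0,0,1] [] (⟨0,[(18,0)]⟩,⟨0,[(17,0)]⟩) .k 0 (⟨0,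
  []⟩,⟨0,[]⟩) .k .k) (.R ⟨0,false,false,false,[0,1,-1],[0,1],[1,1,1],(⟨0,[(8,0)]⟩,⟨0,[(19,0),(2,
  0)]⟩),(⟨0,[(23,0)]⟩,⟨0,[(22,0)]⟩),⟨0,[(19,0)]⟩,.k,.k,.k,.k,.k,.k,⟨true,0,⟨0,[(28,0)]⟩,⟨0,[(27,0),
  (1,0)]⟩⟩,⟨false,1,⟨0,[(16,0),(13,0)]⟩,⟨0,[(0,0),(28,0)]⟩⟩,⟨false,0,⟨0,[(2,0)]⟩,⟨1,[(1,1),(23,0),
  (4,0)]⟩⟩,⟨true,0,⟨0,[(3,0)]⟩,⟨0,[(15,0)]⟩⟩,⟨false,0,⟨0,[]⟩,⟨0,[]⟩⟩,⟨false,0,⟨0,[]⟩,⟨0,[]⟩⟩,[.a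
  ⟨true,0,⟨0,[(29,0)]⟩,⟨19,[(5,9),(3,3),(0,3),(14,4),(5,0),(1,1)]⟩⟩ ⟨false,0,⟨0,[(33,0)]⟩,⟨1,[(30,
  0),(0,0)]⟩⟩ ⟨true,0,⟨0,[(16,0),(12,0)]⟩,⟨0,[(0,0)]⟩⟩,.o ⟨false,1,⟨1,[(21,0),(7,1),(1,0)]⟩,⟨0,[(28,
  0)]⟩⟩,.o ⟨false,1,⟨0,[(13,0),(7,0)]⟩,⟨0,[(16,0)]⟩⟩,.e ⟨false,0,⟨0,[]⟩,⟨1,[(9,0),(0,0),(20,0)]⟩⟩
  ⟨false,1,⟨1,[(1,1),(1,1),(21,0),(4,0)]⟩,⟨0,[(0,0)]⟩⟩]⟩) (.Q [0,0,0,0,0,0,-1,0,0,0,-1] (.p false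
  [0,0,1] [] (⟨0,[(19,0)]⟩,⟨0,[(18,0)]⟩) .k 0 (⟨0,[]⟩,⟨0,[]⟩) .k .k) (.R ⟨0,false,false,false,[0,1,
  -1],[0,1],[1,1,1],(⟨0,[(9,0)]⟩,⟨0,[(20,0),(2,0)]⟩),(⟨0,[(24,0)]⟩,⟨0,[(23,0)]⟩),⟨0,[(20,0)]⟩,.k,.k,
  .k,.k,.k,.k,⟨true,0,⟨0,[(29,0)]⟩,⟨0,[(28,0),(1,0)]⟩⟩,⟨false,1,⟨0,[(17,0),(13,0)]⟩,⟨0,[(0,0)]⟩⟩,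
  ⟨false,0,⟨0,[(3,0)]⟩,⟨1,[(2,1),(23,0),(4,0)]⟩⟩,⟨true,0,⟨0,[(4,0)]⟩,⟨0,[(16,0)]⟩⟩,⟨false,0,⟨0,[]⟩,
  ⟨0,[]⟩⟩,⟨false,0,⟨0,[]⟩,⟨0,[]⟩⟩,[.e ⟨false,0,⟨0,[(34,0)]⟩,⟨1,[(31,0),(0,0)]⟩⟩ ⟨false,0,⟨0,[(1,
  0)]⟩,⟨1,[(6,0),(0,0),(14,0),(8,0)]⟩⟩,.o ⟨false,1,⟨1,[(22,0),(7,1),(1,0)]⟩,⟨0,[(29,0)]⟩⟩,.o ⟨false,
  1,⟨0,[(14,0),(7,0)]⟩,⟨0,[(17,0)]⟩⟩,.a ⟨true,0,⟨0,[(0,0)]⟩,⟨1,[(17,1),(8,0),(4,0)]⟩⟩ ⟨false,0,⟨0,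
  []⟩,⟨1,[(10,0),(0,0),(20,0)]⟩⟩ ⟨true,0,⟨0,[(1,0)]⟩,⟨0,[(0,0),(28,0)]⟩⟩]⟩) (.R ⟨0,false,false,
  false,[0,1,-1],[0,1],[0,0,1,1,0,0,0,-1],(⟨0,[(9,0)]⟩,⟨0,[(20,0),(2,0)]⟩),(⟨0,[(24,0)]⟩,⟨0,[(23,
  0)]⟩),⟨0,[(20,0)]⟩,.k,.k,.k,.k,.k,.k,⟨false,1,⟨1,[(0,1),(15,1),(14,0),(0,0)]⟩,⟨0,[(3,0),(26,0)]⟩⟩,
  ⟨true,0,⟨0,[(0,0)]⟩,⟨0,[(18,0)]⟩⟩,⟨false,1,⟨1,[(10,0),(0,0),(20,0)]⟩,⟨0,[]⟩⟩,⟨true,0,⟨0,[(4,0)]⟩,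
  ⟨0,[(16,0)]⟩⟩,⟨false,0,⟨0,[]⟩,⟨0,[]⟩⟩,⟨false,0,⟨0,[]⟩,⟨0,[]⟩⟩,[.a ⟨true,0,⟨0,[(30,0)]⟩,⟨19,[(6,9),
  (3,3),(0,3),(14,4),(5,0),(1,1)]⟩⟩ ⟨true,0,⟨0,[(1,0),(14,0),(11,0)]⟩,⟨0,[(3,0)]⟩⟩ ⟨false,0,⟨0,[(1,
  0)]⟩,⟨1,[(6,0),(0,0),(14,0),(8,0)]⟩⟩,.o ⟨false,1,⟨1,[(22,0),(7,1),(1,0)]⟩,⟨0,[(29,0)]⟩⟩,.o ⟨false,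
  1,⟨0,[(14,0),(7,0)]⟩,⟨0,[(17,0)]⟩⟩,.o ⟨false,1,⟨3,[(7,1),(2,0),(0,0),(10,2)]⟩,⟨0,[(0,0)]⟩⟩]⟩)))
  (.R ⟨0,false,false,true,[0,0,1],[1,-1,1],[1,1,1],(⟨0,[(18,0)]⟩,⟨0,[(17,0)]⟩),(⟨0,[(18,0),(2,0)]⟩,
  ⟨0,[(7,0)]⟩),⟨0,[(7,0)]⟩,.k,.k,.k,.k,.k,.k,⟨true,0,⟨0,[(14,0),(0,0),(10,0),(1,0)]⟩,⟨1,[(0,1),(19,
  0),(9,0)]⟩⟩,⟨false,0,⟨9,[(8,3),(0,3),(14,4),(5,0),(1,1)]⟩,⟨1,[(20,0),(8,0)]⟩⟩,⟨true,0,⟨0,[(14,0),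
  (0,0)]⟩,⟨1,[(0,1),(19,0),(7,1),(1,0)]⟩⟩,⟨false,0,⟨19,[(4,9),(3,3),(0,3),(14,4),(5,0),(1,1)]⟩,⟨1,
  [(20,0),(7,1),(1,0)]⟩⟩,⟨false,0,⟨0,[]⟩,⟨0,[]⟩⟩,⟨false,0,⟨0,[]⟩,⟨0,[]⟩⟩,[.e ⟨false,0,⟨0,[(32,0)]⟩,
  ⟨1,[(29,0),(0,0)]⟩⟩ ⟨false,(-1),⟨0,[(0,0)]⟩,⟨1,[(14,1),(0,1),(4,0),(7,1),(0,0),(0,1)]⟩⟩,.o ⟨false,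
  0,⟨1,[(0,1),(14,1),(4,0),(9,0)]⟩,⟨1,[(14,1),(5,0),(7,1),(1,0)]⟩⟩,.o ⟨false,1,⟨1,[(15,1),(4,0),(8,
  0)]⟩,⟨1,[(0,0),(11,0),(1,0),(5,0),(5,1),(1,0)]⟩⟩,.a ⟨true,0,⟨0,[(15,0)]⟩,⟨0,[(12,0)]⟩⟩ ⟨false,0,
  ⟨0,[]⟩,⟨1,[(8,0),(0,0),(20,0)]⟩⟩ ⟨true,(-1),⟨0,[(0,0)]⟩,⟨1,[(14,1),(0,1),(4,0),(7,1),(1,0)]⟩⟩]⟩))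
  (.Q [0,0,0,0,0,0,1,0,0,0,1] (.p true [0,0,1] [] (⟨0,[(17,0)]⟩,⟨0,[(16,0)]⟩) .k 0 (⟨0,[]⟩,⟨0,[]⟩)
  .k .k) (.R ⟨0,false,false,false,[0,1,-1],[0,1],[0,1],(⟨0,[(7,0)]⟩,⟨0,[(18,0),(2,0)]⟩),(⟨0,[(22,
  0)]⟩,⟨0,[(21,0)]⟩),⟨0,[(18,0)]⟩,.k,.k,.k,.k,.k,.k,⟨false,1,⟨0,[(27,0),(1,0)]⟩,⟨0,[(26,0),(1,0)]⟩⟩,
  ⟨true,0,⟨0,[(0,0)]⟩,⟨0,[(16,0)]⟩⟩,⟨false,1,⟨3,[(2,1),(0,1),(0,1),(7,1),(7,1),(8,0),(0,0)]⟩,⟨0,[(1,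
  0),(24,0)]⟩⟩,⟨true,0,⟨0,[(2,0)]⟩,⟨0,[(14,0)]⟩⟩,⟨false,0,⟨0,[]⟩,⟨0,[]⟩⟩,⟨false,0,⟨0,[]⟩,⟨0,[]⟩⟩,
  [.a ⟨true,0,⟨0,[(28,0)]⟩,⟨19,[(4,9),(3,3),(0,3),(14,4),(5,0),(1,1)]⟩⟩ ⟨true,0,⟨0,[(32,0)]⟩,⟨0,
  [(26,0)]⟩⟩ ⟨false,0,⟨0,[(1,0),(0,0)]⟩,⟨1,[(4,0),(0,0),(14,0),(8,0)]⟩⟩,.o ⟨false,1,⟨1,[(20,0),(7,
  1),(1,0)]⟩,⟨0,[(27,0)]⟩⟩,.o ⟨false,1,⟨0,[(12,0),(7,0)]⟩,⟨0,[(15,0)]⟩⟩,.o ⟨false,1,⟨3,[(5,1),(2,0),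
  (0,0),(10,2)]⟩,⟨0,[(0,0)]⟩⟩]⟩) (.R ⟨2,true,false,false,[0,1],[0,0,1],[1,1,1],(⟨0,[]⟩,⟨0,[]⟩),(⟨0,
  [(18,0)]⟩,⟨0,[(17,0)]⟩),⟨0,[]⟩,.k,.k,.k,.k,.k,.k,⟨false,0,⟨0,[(1,0),(25,0)]⟩,⟨1,[(2,1),(9,1),(7,
  0),(9,0)]⟩⟩,⟨true,0,⟨0,[(15,0)]⟩,⟨0,[(0,0)]⟩⟩,⟨true,0,⟨0,[(27,0)]⟩,⟨0,[(28,0)]⟩⟩,⟨false,1,⟨3,[(2,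
  1),(1,1),(8,1),(6,0),(9,2)]⟩,⟨0,[(0,0),(0,0)]⟩⟩,⟨false,0,⟨0,[]⟩,⟨1,[(8,0),(0,0),(20,0)]⟩⟩,⟨true,0,
  ⟨0,[(2,0)]⟩,⟨0,[(14,0)]⟩⟩,[]⟩))) (.Q [0,0,0,0,0,0,-1,0,0,0,-1] (.p false [0,0,1] [] (⟨0,[(16,0)]⟩,
  ⟨0,[(15,0)]⟩) .k 0 (⟨0,[]⟩,⟨0,[]⟩) .k .k) (.Q [0,1,0,-1,0,0,1,1,0,0,1] (.p true [0,0,1] [] (⟨0,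
  [(17,0)]⟩,⟨0,[(16,0)]⟩) .k 0 (⟨0,[]⟩,⟨0,[]⟩) .k .k) (.Q [0,0,-1,1,0,0,-1,0,0,0,-1] (.p false [0,0,
  1] [] (⟨0,[(18,0)]⟩,⟨0,[(17,0)]⟩) .k 0 (⟨0,[]⟩,⟨0,[]⟩) .k .k) (.R ⟨0,false,false,false,[0,0,1],[0,
  1],[1,1,1],(⟨0,[(19,0)]⟩,⟨0,[(18,0)]⟩),(⟨0,[(23,0)]⟩,⟨0,[(22,0)]⟩),⟨0,[(8,0)]⟩,.k,.k,.k,.k,.k,.k,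
  ⟨true,0,⟨0,[(28,0)]⟩,⟨0,[(27,0),(1,0)]⟩⟩,⟨false,1,⟨1,[(13,1),(7,0),(8,0)]⟩,⟨0,[(16,0)]⟩⟩,⟨false,0,
  ⟨0,[(3,0),(12,0)]⟩,⟨0,[(0,0),(0,0),(29,0)]⟩⟩,⟨true,0,⟨0,[(3,0),(25,0)]⟩,⟨0,[(1,0)]⟩⟩,⟨false,0,⟨0,
  []⟩,⟨0,[]⟩⟩,⟨false,0,⟨0,[]⟩,⟨0,[]⟩⟩,[.e ⟨false,0,⟨0,[(33,0)]⟩,⟨1,[(30,0),(0,0)]⟩⟩ ⟨false,0,⟨0,[(0,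
  0)]⟩,⟨3,[(5,1),(3,0),(0,0),(5,3),(4,0),(8,1)]⟩⟩,.o ⟨false,1,⟨1,[(21,0),(7,1),(1,0)]⟩,⟨0,[(28,
  0)]⟩⟩,.o ⟨false,1,⟨1,[(16,1),(4,0),(8,0)]⟩,⟨0,[(2,0)]⟩⟩,.a ⟨true,0,⟨0,[(16,0)]⟩,⟨0,[(13,0)]⟩⟩
  ⟨false,0,⟨0,[]⟩,⟨1,[(9,0),(0,0),(20,0)]⟩⟩ ⟨true,0,⟨0,[(0,0)]⟩,⟨0,[(16,0),(11,0)]⟩⟩]⟩) (.I [0,-1,
  -1,0,1,0,0,1] (.R ⟨0,false,false,false,[0,0,1],[0,1],[1,1,1],(⟨0,[(20,0)]⟩,⟨0,[(19,0)]⟩),(⟨0,[(24,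
  0)]⟩,⟨0,[(23,0)]⟩),⟨0,[(9,0)]⟩,.k,.k,.k,.k,.k,.k,⟨true,0,⟨0,[(29,0)]⟩,⟨0,[(28,0),(1,0)]⟩⟩,⟨false,
  1,⟨1,[(14,1),(7,0),(8,0)]⟩,⟨0,[(17,0)]⟩⟩,⟨false,0,⟨0,[(4,0),(12,0)]⟩,⟨0,[(0,0)]⟩⟩,⟨true,0,⟨0,[(4,
  0),(25,0)]⟩,⟨0,[(2,0)]⟩⟩,⟨false,0,⟨0,[]⟩,⟨0,[]⟩⟩,⟨false,0,⟨0,[]⟩,⟨0,[]⟩⟩,[.a ⟨true,0,⟨0,[(30,0)]⟩,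
  ⟨19,[(6,9),(3,3),(0,3),(14,4),(5,0),(1,1)]⟩⟩ ⟨false,0,⟨0,[(34,0)]⟩,⟨1,[(31,0),(0,0)]⟩⟩ ⟨true,0,⟨0,
  [(3,0),(26,0)]⟩,⟨0,[(1,0)]⟩⟩,.o ⟨false,1,⟨1,[(22,0),(7,1),(1,0)]⟩,⟨0,[(29,0)]⟩⟩,.o ⟨false,1,⟨1,
  [(17,1),(4,0),(8,0)]⟩,⟨0,[(3,0)]⟩⟩,.e ⟨false,0,⟨0,[]⟩,⟨1,[(10,0),(0,0),(20,0)]⟩⟩ ⟨false,1,⟨1,[(14,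
  1),(7,0),(7,1),(1,0)]⟩,⟨0,[(1,0)]⟩⟩]⟩) (.K ⟨0,[1,-1,1],(-1),0,(⟨0,[(20,0),(2,0)]⟩,⟨0,[(9,0)]⟩),.k,
  (.r (-2) ⟨1,[(2,1),(3,0),(0,0),(14,0),(8,1),(0,0)]⟩ ⟨0,[(0,0),(27,0),(1,1)]⟩),.k,.k,.k,[⟨1,[(22,
  0),(8,0)]⟩,⟨1,[(0,0),(1,0),(14,0),(8,0),(1,1),(1,0)]⟩,⟨0,[(0,0),(13,0),(7,0),(7,0)]⟩,⟨19,[(6,9),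
  (3,3),(0,3),(3,19),(10,4),(5,0),(1,1)]⟩]⟩))) (.I [1,0,0,0,0,0,0,-1] (.R ⟨2,true,false,true,[0,1],
  [0,0,1],[1,1,1],(⟨0,[]⟩,⟨0,[]⟩),(⟨0,[(19,0)]⟩,⟨0,[(18,0)]⟩),⟨0,[]⟩,.k,.k,.k,.k,.k,.k,⟨false,0,⟨0,
  [(0,0)]⟩,⟨1,[(4,1),(25,0),(0,0)]⟩⟩,⟨true,0,⟨0,[(16,0)]⟩,⟨0,[(2,0)]⟩⟩,⟨true,0,⟨0,[(28,0)]⟩,⟨0,[(29,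
  0)]⟩⟩,⟨false,1,⟨3,[(5,1),(3,0),(0,0),(3,3),(6,0),(9,1)]⟩,⟨0,[(1,0)]⟩⟩,⟨false,0,⟨0,[]⟩,⟨1,[(9,0),
  (0,0),(20,0)]⟩⟩,⟨true,0,⟨0,[(14,0)]⟩,⟨0,[(3,0)]⟩⟩,[]⟩) (.I [0,0,0,1,0,0,0,-1] (.R ⟨2,true,false,
  true,[0,1],[0,0,1],[0,1,1,1],(⟨0,[]⟩,⟨0,[]⟩),(⟨0,[(20,0)]⟩,⟨0,[(19,0)]⟩),⟨0,[]⟩,.k,.k,.k,.k,.k,.k,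
  ⟨false,0,⟨0,[(0,0)]⟩,⟨3,[(1,1),(3,1),(0,1),(15,0),(8,1),(0,0)]⟩⟩,⟨true,0,⟨0,[(17,0)]⟩,⟨0,[(3,
  0)]⟩⟩,⟨true,0,⟨0,[(34,0)]⟩,⟨0,[]⟩⟩,⟨false,1,⟨3,[(6,1),(3,0),(0,0),(3,3),(6,0),(9,1)]⟩,⟨0,[(2,
  0)]⟩⟩,⟨false,0,⟨0,[(30,0)]⟩,⟨3,[(6,1),(3,0),(0,0),(10,0),(9,1)]⟩⟩,⟨true,0,⟨0,[(15,0)]⟩,⟨0,[(4,
  0)]⟩⟩,[]⟩) (.R ⟨2,false,false,false,[0,1],[0,1,-1],[0,1],(⟨0,[]⟩,⟨0,[]⟩),(⟨0,[(9,0)]⟩,⟨0,[(20,0),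
  (2,0)]⟩),⟨0,[]⟩,.k,.k,.k,.k,.k,.k,⟨false,1,⟨1,[(0,0),(4,0),(23,0),(1,1)]⟩,⟨0,[(2,0),(14,0)]⟩⟩,
  ⟨true,0,⟨0,[(3,0)]⟩,⟨0,[(17,0)]⟩⟩,⟨false,1,⟨3,[(6,1),(3,0),(0,0),(10,0),(8,1)]⟩,⟨0,[(28,0),(1,
  0)]⟩⟩,⟨true,0,⟨0,[(4,0)]⟩,⟨0,[(15,0)]⟩⟩,⟨false,1,⟨1,[(10,0),(0,0),(19,0)]⟩,⟨0,[(28,0)]⟩⟩,⟨false,0,
  ⟨0,[(2,0)]⟩,⟨3,[(6,1),(3,0),(0,0),(3,3),(6,0),(9,1)]⟩⟩,[.a ⟨true,0,⟨1,[(2,0),(13,0),(13,0)]⟩,⟨1,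
  [(0,1),(16,1),(8,0),(4,0)]⟩⟩ ⟨true,0,⟨0,[(34,0)]⟩,⟨0,[(28,0)]⟩⟩ ⟨false,0,⟨1,[(2,0),(13,0),(13,
  0)]⟩,⟨0,[(0,0),(16,0),(13,0)]⟩⟩,.e ⟨false,1,⟨1,[(10,0),(0,0),(19,0)]⟩,⟨0,[]⟩⟩ ⟨false,0,⟨0,[(2,
  0)]⟩,⟨3,[(6,1),(3,0),(0,0),(3,3),(6,0),(8,1)]⟩⟩,.o ⟨false,1,⟨1,[(22,0),(8,0)]⟩,⟨1,[(17,0),(0,
  0)]⟩⟩,.fo]⟩)))) (.I [0,0,-2,-2,1,0,0,-1] (.K ⟨0,[0,1,1],0,0,(⟨0,[(18,0),(3,0)]⟩,⟨0,[(6,0)]⟩),.k,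
  .k,(.r 0 ⟨1,[(3,1),(11,0),(0,0),(9,1),(1,3)]⟩ ⟨0,[(0,0)]⟩),.k,.k,[⟨1,[(15,0),(0,0)]⟩,⟨0,[(1,0)]⟩,
  ⟨0,[(2,0),(24,0)]⟩,⟨0,[(13,0),(14,0)]⟩]⟩) (.Q [0,-1,0,0,1,0,1,1,0,-1,1] (.p true [0,0,1] [1] (⟨0,
  [(18,0)]⟩,⟨0,[(17,0)]⟩) .k 1 (⟨0,[]⟩,⟨0,[]⟩) .k .k) (.S ⟨1,0,[0,1,0,0,0,0,0,-1],[1,0,-1],[0,0,0,0,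
  0,0,0,-1],(⟨0,[(18,0)]⟩,⟨0,[(19,0)]⟩),⟨0,[(7,0)]⟩,.k,.k,⟨false,1,⟨1,[(9,0),(0,0),(20,0)]⟩,⟨0,[]⟩⟩,
  ⟨true,0,⟨0,[(33,0)]⟩,⟨0,[]⟩⟩,⟨true,0,⟨0,[(29,0)]⟩,⟨0,[(28,0)]⟩⟩,⟨false,0,⟨0,[(29,0)]⟩,⟨3,[(5,1),
  (3,0),(0,0),(10,0),(9,1)]⟩⟩,[.o ⟨false,0,⟨0,[(15,0)]⟩,⟨0,[(0,0)]⟩⟩,.o ⟨false,0,⟨0,[(3,0)]⟩,⟨3,[(0,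
  1),(8,0),(0,0),(3,1),(6,0)]⟩⟩,.a ⟨true,0,⟨19,[(6,9),(2,3),(0,3),(14,4),(5,0),(1,1)]⟩,⟨0,[(2,0)]⟩⟩
  ⟨true,0,⟨0,[(2,0),(0,0)]⟩,⟨0,[(4,0)]⟩⟩ ⟨false,0,⟨0,[(2,0),(0,0)]⟩,⟨0,[(4,0),(26,0)]⟩⟩,.o ⟨false,0,
  ⟨0,[(17,0)]⟩,⟨1,[(2,1),(18,0),(8,0)]⟩⟩]⟩) (.K ⟨0,[1,-1,1],(-1),0,(⟨0,[(19,0),(2,0)]⟩,⟨0,[(8,0)]⟩),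
  .k,(.r (-2) ⟨1,[(4,1),(0,1),(15,0),(8,1),(0,0)]⟩ ⟨0,[(1,0),(0,1),(0,1)]⟩),.k,.k,.k,[⟨1,[(21,0),(8,
  0)]⟩,⟨1,[(0,0),(0,0),(0,1),(2,0),(10,0),(10,0)]⟩,⟨0,[(0,0),(20,0),(7,0)]⟩,⟨19,[(5,9),(3,3),(0,3),
  (3,19),(10,4),(5,0),(1,1)]⟩]⟩)))))))

theorem ok0 : chk K t0 base = true := by decide +kernel

theorem closed {p a b c J l q : ℤ} {D dl : ℝ} {Cl : ℤ → ℤ → ℤ → ℤ → ℝ → Prop}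
    (W : World p a b c J 1 l q D dl Cl) (g : G0 p a b c J D)
    {N X R : ℤ} {I : ℝ} (hk : KCl p l Cl N X R I) (kz : KF a b D (X + (1 : ℤ) * I) (X + (1 : ℤ) * I + R) I)
    {Ne Xe : ℤ} {Ie : ℝ} (he : EFac p 1 D Cl 1 Ne Xe Ie)
    (hkf : ∀ kf ∈ (kfY 1 [0,0,0,0,0,0,1,0,0,0,1]), KOk p l Cl 1
      (xv [1, a, b, c, p, J, X, R, Xe] [D, I, Ie]) N kf)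
    (h0 : 1 ≤ (c : ℝ))
    (h1 : 1 ≤ 1 - (a : ℝ) + (b : ℝ))
    (h2 : 1 ≤ 2 * (a : ℝ) - (b : ℝ))
    (h3 : 0 < 1 - (p : ℝ) + 2 * D)
    (h4 : 1 ≤ 2 * (a : ℝ) - (b : ℝ))
    (h5 : 1 ≤ 2 - (J : ℝ))
    (h6 : 0 < -(b : ℝ) - (X : ℝ) + D - I)
    (h7 : 0 < (J : ℝ) - I)
    (h8 : 0 < -(J : ℝ) + D - I)
    (h9 : 0 < -2 * (X : ℝ) + D - 2 * I) : False := by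
  have g1 := g.a2
  have g2 := g.b2
  have g3 := g.pa
  have g4 := g.pb
  have g5 := g.J1
  have g6 := g.JD
  have g7 := g.D2
  have g8 := g.ca
  have g9 := g.ca'
  have k1 := kz.I0
  have k2 := kz.ID
  have k3 := kz.z1
  have k4 := kz.z2
  have k5 := kz.s1
  have k6 := kz.s2
  have e1 := he.I0
  have e2 := he.ID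
  have e3 := he.x0
  have e4 := he.xp
  push_cast at *
  refine (val_E W.toBase hk he (row := [1]) (by simp) (by simp) (kfY 1 [0,0,0,0,0,0,1,0,0,0,1])).sound W rfl (Nk := N)
    (fun kf _ _ => ⟨_, rfl⟩) hkf ?_ ok0
  · simp only [base, List.forall_mem_cons, List.not_mem_nil, false_imp_iff, implies_true,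
      and_true, hld, xv, evg_cons, evg_nil, List.map_cons, List.map_nil, List.cons_append,
      List.nil_append, if_true, if_false, Bool.false_eq_true]
    push_cast
    refine ⟨?_, ?_, ?_, ?_, ?_, ?_, ?_, ?_, ?_, ?_, ?_, ?_, ?_, ?_, ?_, ?_, ?_, ?_, ?_, ?_, ?_, ?_, ?_, ?_, ?_, ?_, ?_, ?_⟩ <;> linarith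

end Helper48.Y.Y11_c35_L2_m0n1

namespace Helper48.Y.Y11_c35_L2_m1n1_K2

open Helper25.KG Helper25.KW Helper55.KE Helper11.CT

noncomputable def K : Cls :=
  cE 1 [1] (kfY 1 [0,0,0,0,0,0,1,0,0,0,1])

noncomputable def base : List Con :=
  [(false,[0,0,0,0,0,0,-2,0,0,1,-2]),
  (false,[0,0,0,0,0,-1,0,0,0,1,-1]),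
  (false,[0,0,0,0,0,-1,0,0,0,0,1]),
  (false,[0,0,0,0,1,0,0,0,-1,0,0,-1]),
  (false,[0,0,0,0,0,0,0,0,1,0,0,1]),
  (false,[0,0,0,0,0,0,0,0,0,1,0,-1]),
  (false,[0,0,0,0,0,0,0,0,0,0,0,1]),
  (false,[0,0,-1,0,0,0,-1,0,0,1,-1]),
  (false,[0,1,0,0,0,0,1,1,0,0,1]),
  (false,[0,1,0,0,0,0,-1,-1,0,0,-1]),
  (false,[0,0,1,0,0,0,1,0,0,0,1]),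
  (false,[0,0,1,0,0,0,-1,0,0,0,-1]),
  (false,[0,0,0,0,0,0,0,0,0,1,-1]),
  (false,[0,0,0,0,0,0,0,0,0,0,1]),
  (true,[-1,0,0,1]),
  (true,[2,0,0,0,0,-1]),
  (false,[0,0,0,0,1,0,0,0,0,-2]),
  (false,[0,0,0,0,0,-1,0,0,0,1]),
  (true,[0,0,0,0,0,1]),
  (true,[0,2,-1]),
  (true,[2,2,0,0,-1]),
  (true,[0,-2,0,0,1]),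
  (true,[1,-1,1]),
  (true,[1,1,-1]),
  (false,[1,0,0,0,-1,0,0,0,0,2]),
  (true,[0,2,-1]),
  (true,[1,-1,1]),
  (true,[0,1,0,-1]),
  (true,[0,0,0,1]),
  (true,[0,0,-2,0,1]),
  (true,[0,-2,0,0,1]),
  (true,[-1,0,1]),
  (true,[-1,1])]

noncomputable def t0 : Tre :=
  (.Q [0,0,0,2,0,0,0,0,0,-1] (.pp true [-1,1]) (.R ⟨2,true,false,false,[0,1],[1,-1],[1,1,1],(⟨0,[]⟩,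
  ⟨0,[]⟩),(⟨0,[(18,0)]⟩,⟨0,[(19,0)]⟩),⟨0,[]⟩,.k,.k,.k,(.r 1 ⟨3,[(0,3),(10,0),(0,0),(8,1),(1,3),(1,
  1),(6,1)]⟩ ⟨0,[(28,1),(1,0),(0,0)]⟩),.k,.k,⟨false,(-1),⟨3,[(0,1),(10,0),(0,0),(8,2),(1,1),(1,0)]⟩,
  ⟨0,[(28,0),(1,0),(0,0)]⟩⟩,⟨true,(-1),⟨3,[(11,0),(0,0),(8,1),(1,3),(1,1),(6,1)]⟩,⟨1,[(17,0),(12,
  0)]⟩⟩,⟨true,0,⟨0,[(28,0)]⟩,⟨0,[(29,0)]⟩⟩,⟨false,1,⟨1,[(25,0),(2,3),(2,2)]⟩,⟨0,[(0,0)]⟩⟩,⟨false,0,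
  ⟨0,[]⟩,⟨1,[(4,0),(0,0),(25,0)]⟩⟩,⟨true,0,⟨1,[(25,0),(2,1),(2,0)]⟩,⟨3,[(0,1),(16,0),(3,0),(11,
  1)]⟩⟩,[]⟩) (.Q [0,0,0,3,0,0,0,0,0,-1] (.pp true [-1,1]) (.R ⟨1,true,false,false,[1,-1],[0,1],[0,1,
  -1,-1],(⟨0,[(19,0)]⟩,⟨0,[(20,0)]⟩),(⟨0,[(20,0)]⟩,⟨0,[(19,0)]⟩),⟨0,[(3,0),(0,0)]⟩,.k,.k,(.r (-2)
  ⟨1,[(1,1),(3,0),(0,0),(11,0),(12,1)]⟩ ⟨11,[(0,7),(11,0),(0,0),(8,7),(1,15),(1,3),(6,5)]⟩),(.r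
  (-2) ⟨1,[(1,1),(3,0),(0,0),(11,0),(12,1)]⟩ ⟨11,[(0,7),(11,0),(0,0),(8,7),(1,15),(1,3),(6,5)]⟩),
  (.x 1 ⟨1,[(12,0),(0,0),(6,5),(1,1),(1,3)]⟩ ⟨1,[(3,0),(0,0),(12,2),(0,0),(0,0),(11,2)]⟩),.k,⟨true,
  1,⟨1,[(1,1),(16,0),(6,1),(5,0)]⟩,⟨2,[(0,1),(11,0),(0,0),(8,1),(1,6),(1,0)]⟩⟩,⟨false,2,⟨1,[(18,0),
  (12,2)]⟩,⟨3,[(12,0),(0,0),(8,1),(1,3),(1,1),(6,1)]⟩⟩,⟨true,0,⟨0,[(34,0)]⟩,⟨0,[]⟩⟩,⟨false,1,⟨5,[(0,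
  3),(4,1),(0,1),(11,0),(13,2)]⟩,⟨0,[(1,0)]⟩⟩,⟨false,0,⟨0,[(30,0)]⟩,⟨3,[(1,1),(3,0),(0,0),(11,0),
  (13,1)]⟩⟩,⟨true,0,⟨0,[(0,0)]⟩,⟨0,[(1,0),(27,0)]⟩⟩,[]⟩) (.I [0,0,2,2,-1,0,0,-1] (.Q [-1,0,0,1,0,0,
  0,0,-1,0,0,-1] (.p false [0,0,0,0,1] [] (⟨0,[(9,0)]⟩,⟨0,[(8,0)]⟩) .k 0 (⟨0,[]⟩,⟨0,[]⟩) .k .k) (.R
  ⟨2,true,false,true,[0,1],[0,0,0,0,1],[2,1],(⟨0,[]⟩,⟨0,[]⟩),(⟨0,[(10,0)]⟩,⟨0,[(9,0)]⟩),⟨0,[]⟩,.k,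
  .k,.k,(.r 0 ⟨25,[(1,11),(2,5),(2,2),(0,2),(3,11),(5,1),(1,2),(13,5),(0,1)]⟩ ⟨5,[(2,1),(4,1),(0,1),
  (11,0),(12,2)]⟩),.k,.k,⟨true,0,⟨0,[]⟩,⟨1,[(14,0),(0,0)]⟩⟩,⟨false,0,⟨0,[(8,0)]⟩,⟨9,[(0,5),(1,1),(4,
  3),(12,0),(12,4)]⟩⟩,⟨false,1,⟨5,[(2,1),(4,1),(0,1),(11,0),(12,2)]⟩,⟨0,[(18,0),(11,0)]⟩⟩,⟨true,0,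
  ⟨0,[(8,0),(22,0)]⟩,⟨0,[(0,0)]⟩⟩,⟨true,0,⟨0,[(27,0)]⟩,⟨0,[(35,0)]⟩⟩,⟨false,0,⟨0,[(8,0)]⟩,⟨9,[(0,5),
  (1,1),(4,3),(12,0),(13,4)]⟩⟩,[]⟩) (.Q [0,0,1,0,-1,0,0,0,1,0,0,1] (.p true [0,0,0,0,1] [] (⟨0,[(10,
  0)]⟩,⟨0,[(9,0)]⟩) .k 0 (⟨0,[]⟩,⟨0,[]⟩) .k .k) (.Q [0,0,0,0,0,-1,0,0,0,0,0,1] (.ed false [1,-1,0,0,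
  1] .k) (.Q [-1,1,0,0,0,0,0,0,-1,1,0,-1] (.p false [0,0,0,0,1] [1] (⟨0,[(12,0)]⟩,⟨0,[(11,0)]⟩) .k
  1 (⟨0,[]⟩,⟨0,[]⟩) .k .k) (.S ⟨1,0,[1,1],[0,0,0,0,1],[1,1,1],(⟨0,[(13,0)]⟩,⟨0,[(12,0)]⟩),⟨0,[(1,
  0)]⟩,.k,(.r (-1) ⟨9,[(3,3),(1,1),(4,3),(12,0),(12,4)]⟩ ⟨25,[(4,11),(2,5),(2,2),(0,2),(3,11),(5,1),
  (1,2),(13,5),(0,1)]⟩),⟨false,0,⟨1,[(17,0),(0,0)]⟩,⟨1,[(36,0),(0,0)]⟩⟩,⟨true,0,⟨0,[(39,0)]⟩,⟨0,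
  []⟩⟩,⟨true,(-1),⟨0,[(21,0),(5,0),(5,0)]⟩,⟨9,[(3,3),(1,1),(4,3),(12,0),(12,4)]⟩⟩,⟨false,0,⟨0,[(35,
  0)]⟩,⟨9,[(3,3),(1,1),(4,3),(12,0),(13,4)]⟩⟩,[.e ⟨false,0,⟨0,[(39,0)]⟩,⟨1,[(36,0),(0,0)]⟩⟩ ⟨false,
  0,⟨0,[(30,0)]⟩,⟨1,[(10,0),(0,0),(25,0)]⟩⟩,.o ⟨false,0,⟨1,[(2,1),(20,0),(12,0)]⟩,⟨2,[(0,1),(9,0),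
  (12,0),(13,0)]⟩⟩,.o ⟨false,0,⟨1,[(2,1),(20,0),(12,0)]⟩,⟨0,[(10,0)]⟩⟩,.a ⟨true,(-1),⟨0,[(2,0)]⟩,⟨1,
  [(0,1),(35,0),(0,0)]⟩⟩ ⟨false,0,⟨0,[]⟩,⟨1,[(10,0),(0,0),(25,0)]⟩⟩ ⟨true,0,⟨0,[(30,0)]⟩,⟨1,[(17,0),
  (0,0)]⟩⟩]⟩) (.R ⟨1,false,false,false,[0,0,0,0,1],[0,1],[],(⟨0,[(13,0)]⟩,⟨0,[(12,0)]⟩),(⟨0,[(25,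
  0)]⟩,⟨0,[(24,0)]⟩),⟨0,[(1,0)]⟩,.k,.k,(.r (-1) ⟨9,[(3,3),(1,1),(4,3),(12,0),(12,4)]⟩ ⟨25,[(4,11),
  (2,5),(2,2),(0,2),(3,11),(5,1),(1,2),(13,5),(0,1)]⟩),(.r (-1) ⟨9,[(3,3),(1,1),(4,3),(12,0),(12,
  4)]⟩ ⟨25,[(4,11),(2,5),(2,2),(0,2),(3,11),(5,1),(1,2),(13,5),(0,1)]⟩),(.r (-2) ⟨4,[(3,3),(1,1),(4,
  3),(12,0),(12,4)]⟩ ⟨0,[(21,1),(5,0),(5,1)]⟩),.k,⟨true,1,⟨9,[(3,3),(1,1),(4,3),(12,0),(12,4)]⟩,⟨0,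
  [(27,0),(1,1),(5,0)]⟩⟩,⟨false,2,⟨0,[(10,0),(25,0)]⟩,⟨0,[(2,0)]⟩⟩,⟨false,1,⟨4,[(10,1),(0,1),(25,2),
  (1,0)]⟩,⟨0,[]⟩⟩,⟨true,1,⟨0,[(10,0),(24,0)]⟩,⟨19,[(0,7),(1,9),(0,1),(1,5),(21,8),(2,9),(0,0)]⟩⟩,
  ⟨true,0,⟨0,[(21,0)]⟩,⟨0,[(34,0)]⟩⟩,⟨true,1,⟨0,[(10,0),(24,1)]⟩,⟨3,[(0,2),(1,0),(2,2),(15,0),(5,2),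
  (2,0)]⟩⟩,[.a ⟨true,0,⟨0,[(35,0)]⟩,⟨19,[(6,9),(3,3),(0,3),(19,4),(5,0),(1,1)]⟩⟩ ⟨false,1,⟨1,[(10,
  0),(0,0),(24,0)]⟩,⟨0,[]⟩⟩ ⟨true,1,⟨0,[(10,0),(24,0)]⟩,⟨1,[(0,0),(1,0),(2,0),(15,0),(5,0),(1,0)]⟩⟩,
  .o ⟨false,1,⟨1,[(23,0),(11,1),(1,0)]⟩,⟨0,[(34,0)]⟩⟩,.o ⟨false,0,⟨4,[(0,2),(1,0),(8,0),(11,0),(8,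
  0),(6,0)]⟩,⟨0,[(10,0)]⟩⟩,.e ⟨false,1,⟨1,[(36,0),(0,0)]⟩,⟨1,[(17,0),(0,0)]⟩⟩ ⟨false,2,⟨1,[(10,1),
  (24,1),(0,0),(0,0)]⟩,⟨1,[(0,0),(1,0),(2,0),(15,0),(5,0),(1,0)]⟩⟩]⟩)) (.Q [0,0,1,-1,-1,0,0,0,1,0,0,
  1] (.p true [0,0,0,0,1] [] (⟨0,[(12,0)]⟩,⟨0,[(11,0)]⟩) .k 0 (⟨0,[]⟩,⟨0,[]⟩) .k .k) (.R ⟨0,false,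
  false,false,[0,0,0,0,1],[0,1],[],(⟨0,[(13,0)]⟩,⟨0,[(12,0)]⟩),(⟨0,[(25,0)]⟩,⟨0,[(24,0)]⟩),⟨0,[(1,
  0)]⟩,.k,.k,(.r (-1) ⟨9,[(3,3),(1,1),(4,3),(12,0),(12,4)]⟩ ⟨25,[(4,11),(2,5),(2,2),(0,2),(3,11),(5,
  1),(1,2),(13,5),(0,1)]⟩),(.r (-1) ⟨9,[(3,3),(1,1),(4,3),(12,0),(12,4)]⟩ ⟨25,[(4,11),(2,5),(2,2),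
  (0,2),(3,11),(5,1),(1,2),(13,5),(0,1)]⟩),.k,.k,⟨true,1,⟨9,[(3,3),(1,1),(4,3),(12,0),(12,4)]⟩,⟨0,
  [(27,0),(1,1),(5,0)]⟩⟩,⟨false,2,⟨0,[(10,0),(25,0)]⟩,⟨0,[(2,0)]⟩⟩,⟨false,1,⟨4,[(10,1),(0,1),(25,2),
  (1,0)]⟩,⟨0,[]⟩⟩,⟨true,1,⟨0,[(10,0),(24,0)]⟩,⟨0,[(0,0),(29,0)]⟩⟩,⟨false,0,⟨0,[]⟩,⟨0,[]⟩⟩,⟨false,0,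
  ⟨0,[]⟩,⟨0,[]⟩⟩,[.a ⟨true,0,⟨0,[(35,0)]⟩,⟨19,[(6,9),(3,3),(0,3),(19,4),(5,0),(1,1)]⟩⟩ ⟨false,1,⟨1,
  [(10,0),(0,0),(24,0)]⟩,⟨0,[]⟩⟩ ⟨true,1,⟨0,[(10,0),(24,0)]⟩,⟨0,[(0,0)]⟩⟩,.o ⟨false,1,⟨1,[(23,0),
  (11,1),(1,0)]⟩,⟨0,[(34,0)]⟩⟩,.o ⟨false,0,⟨1,[(2,1),(20,0),(12,0)]⟩,⟨0,[(10,0)]⟩⟩,.e ⟨false,1,⟨1,
  [(36,0),(0,0)]⟩,⟨1,[(17,0),(0,0)]⟩⟩ ⟨false,2,⟨1,[(10,1),(24,1),(0,0),(0,0)]⟩,⟨0,[(0,0)]⟩⟩]⟩) (.Q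
  [-1,-1,0,1,1,0,0,0,-1,0,0,-1] (.p false [0,0,0,0,1] [] (⟨0,[(13,0)]⟩,⟨0,[(12,0)]⟩) .k 0 (⟨0,[]⟩,
  ⟨0,[]⟩) .k .k) (.R ⟨2,true,false,true,[0,1],[0,0,0,0,1],[2,1,1],(⟨0,[]⟩,⟨0,[]⟩),(⟨0,[(14,0)]⟩,⟨0,
  [(13,0)]⟩),⟨0,[]⟩,.k,.k,.k,(.r 0 ⟨9,[(0,2),(4,2),(6,2),(3,2),(2,2),(2,0),(16,0)]⟩ ⟨9,[(4,3),(1,1),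
  (4,3),(12,0),(12,4)]⟩),.k,.k,⟨false,0,⟨0,[]⟩,⟨1,[(11,0),(0,0),(24,0)]⟩⟩,⟨true,(-1),⟨0,[(3,0)]⟩,⟨0,
  [(11,0)]⟩⟩,⟨true,0,⟨0,[(35,0)]⟩,⟨0,[(22,0)]⟩⟩,⟨false,0,⟨0,[(4,0)]⟩,⟨0,[(0,0)]⟩⟩,⟨false,0,⟨0,[]⟩,
  ⟨4,[(11,1),(0,1),(25,2),(1,0)]⟩⟩,⟨true,(-1),⟨0,[(3,0),(27,0)]⟩,⟨1,[(0,0),(10,0),(23,0)]⟩⟩,[]⟩)
  (.R ⟨1,true,false,false,[1,-1],[1,0,0,0,-1],[0,0,-1,-1],(⟨0,[(25,0)]⟩,⟨0,[(26,0)]⟩),(⟨0,[(13,0)]⟩,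
  ⟨0,[(14,0)]⟩),⟨0,[(9,0),(0,0)]⟩,.k,.k,(.r (-2) ⟨4,[(4,3),(1,1),(4,3),(12,0),(12,4)]⟩ ⟨0,[(28,0),
  (1,1),(5,1)]⟩),(.r (-1) ⟨9,[(4,3),(1,1),(4,3),(12,0),(12,4)]⟩ ⟨16,[(1,2),(3,5),(6,2),(3,5),(2,5),
  (2,1),(15,2),(0,1)]⟩),(.r (-2) ⟨4,[(4,3),(1,1),(4,3),(12,0),(12,4)]⟩ ⟨0,[(22,1),(5,0),(5,1)]⟩),.k,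
  ⟨true,1,⟨9,[(4,3),(1,1),(4,3),(12,0),(12,4)]⟩,⟨0,[(22,0),(5,0),(5,1)]⟩⟩,⟨false,2,⟨0,[(11,0),(25,
  0)]⟩,⟨0,[(3,0)]⟩⟩,⟨false,1,⟨1,[(11,0),(0,0),(25,0)]⟩,⟨0,[]⟩⟩,⟨true,1,⟨16,[(1,12),(3,1),(5,4),(0,
  0),(3,1),(2,1),(18,0),(0,6)]⟩,⟨0,[(0,0)]⟩⟩,⟨true,0,⟨0,[(36,0)]⟩,⟨0,[(35,0)]⟩⟩,⟨false,1,⟨0,[(1,0),
  (28,0),(5,0)]⟩,⟨5,[(0,1),(3,3),(1,1),(17,0),(13,0)]⟩⟩,[]⟩)))) (.Q [-1,1,0,0,0,0,0,0,-1,0,0,-1]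
  (.p false [0,0,0,0,1] [] (⟨0,[(11,0)]⟩,⟨0,[(10,0)]⟩) .k 0 (⟨0,[]⟩,⟨0,[]⟩) .k .k) (.Q [0,0,0,0,0,
  -1,0,0,0,0,0,1] (.ed false [1,-1,0,0,1] .k) (.S ⟨1,0,[1,1],[0,0,0,0,1],[],(⟨0,[(13,0)]⟩,⟨0,[(12,
  0)]⟩),⟨0,[(0,0)]⟩,.k,(.r (-1) ⟨9,[(3,3),(1,1),(4,3),(12,0),(12,4)]⟩ ⟨25,[(4,11),(2,5),(2,2),(0,2),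
  (3,11),(5,1),(1,2),(13,5),(0,1)]⟩),⟨false,1,⟨4,[(10,1),(0,1),(25,2),(1,0)]⟩,⟨0,[]⟩⟩,⟨true,0,⟨0,
  [(39,0)]⟩,⟨0,[]⟩⟩,⟨true,0,⟨0,[(21,0)]⟩,⟨0,[(34,0)]⟩⟩,⟨false,0,⟨0,[(35,0)]⟩,⟨9,[(3,3),(1,1),(4,3),
  (12,0),(13,4)]⟩⟩,[.o ⟨false,0,⟨1,[(11,1),(11,0),(3,0)]⟩,⟨1,[(1,0),(0,0),(26,0),(7,0)]⟩⟩,.a ⟨true,
  0,⟨0,[(11,0)]⟩,⟨1,[(1,1),(29,0),(5,0)]⟩⟩ ⟨false,1,⟨1,[(36,0),(0,0)]⟩,⟨0,[(39,0)]⟩⟩ ⟨true,0,⟨0,[]⟩,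
  ⟨1,[(17,0),(0,0)]⟩⟩,.e ⟨false,1,⟨1,[(10,0),(0,0),(25,0)]⟩,⟨0,[]⟩⟩ ⟨false,0,⟨0,[]⟩,⟨1,[(10,0),(0,
  0),(25,0)]⟩⟩,.o ⟨false,0,⟨1,[(3,0),(7,0),(9,0),(1,0),(3,0),(1,1)]⟩,⟨0,[(2,0)]⟩⟩]⟩) (.Q [0,0,0,-1,
  0,0,0,0,1,0,0,1] (.p true [0,0,0,0,1] [] (⟨0,[(13,0)]⟩,⟨0,[(12,0)]⟩) .k 0 (⟨0,[]⟩,⟨0,[]⟩) .k .k)
  (.R ⟨0,false,false,true,[0,0,0,0,1],[0,1],[1,1,1],(⟨0,[(14,0)]⟩,⟨0,[(13,0)]⟩),(⟨0,[(26,0)]⟩,⟨0,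
  [(25,0)]⟩),⟨0,[(1,0)]⟩,.k,.k,(.r (-1) ⟨9,[(0,3),(5,1),(4,3),(12,0),(12,4)]⟩ ⟨25,[(5,11),(2,5),(2,
  2),(0,2),(3,11),(5,1),(1,2),(13,5),(0,1)]⟩),(.r (-1) ⟨9,[(0,3),(5,1),(4,3),(12,0),(12,4)]⟩ ⟨25,
  [(5,11),(2,5),(2,2),(0,2),(3,11),(5,1),(1,2),(13,5),(0,1)]⟩),.k,.k,⟨false,1,⟨9,[(0,3),(5,1),(4,3),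
  (12,0),(12,4)]⟩,⟨0,[(36,0)]⟩⟩,⟨true,1,⟨0,[(3,0)]⟩,⟨1,[(0,0),(11,0),(9,0),(5,1),(1,3)]⟩⟩,⟨false,0,
  ⟨1,[(18,0),(0,0)]⟩,⟨1,[(37,0),(0,0)]⟩⟩,⟨true,0,⟨0,[(2,0),(33,0)]⟩,⟨0,[(4,0)]⟩⟩,⟨false,0,⟨0,[]⟩,⟨0,
  []⟩⟩,⟨false,0,⟨0,[]⟩,⟨0,[]⟩⟩,[.o ⟨false,0,⟨1,[(24,0),(3,0),(7,1)]⟩,⟨9,[(0,3),(5,1),(4,3),(12,0),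
  (13,4)]⟩⟩,.e ⟨false,0,⟨0,[]⟩,⟨1,[(11,0),(0,0),(24,0)]⟩⟩ ⟨false,1,⟨0,[(3,0),(32,0)]⟩,⟨0,[(0,0)]⟩⟩,
  .a ⟨true,0,⟨0,[(12,0)]⟩,⟨1,[(2,0),(0,0),(26,0),(1,0)]⟩⟩ ⟨false,0,⟨1,[(18,0),(0,0)]⟩,⟨1,[(37,0),(0,
  0)]⟩⟩ ⟨true,0,⟨0,[(2,0),(33,0)]⟩,⟨0,[(0,0)]⟩⟩,.o ⟨false,0,⟨3,[(0,0),(11,2),(9,0),(1,1),(3,1),(1,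
  3)]⟩,⟨0,[(3,0)]⟩⟩]⟩) (.R ⟨1,true,false,false,[1,-1],[1,0,0,0,-1],[0,1,-1,-1],(⟨0,[(25,0)]⟩,⟨0,
  [(26,0)]⟩),(⟨0,[(13,0)]⟩,⟨0,[(14,0)]⟩),⟨0,[(9,0),(0,0)]⟩,.k,.k,(.r (-2) ⟨4,[(4,3),(1,1),(4,3),(12,
  0),(12,4)]⟩ ⟨0,[(28,0),(1,1),(5,1)]⟩),(.r (-1) ⟨9,[(4,3),(1,1),(4,3),(12,0),(12,4)]⟩ ⟨25,[(5,11),
  (2,5),(2,2),(0,2),(3,11),(5,1),(1,2),(13,5),(0,1)]⟩),(.r (-2) ⟨4,[(4,3),(1,1),(4,3),(12,0),(12,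
  4)]⟩ ⟨0,[(22,1),(5,0),(5,1)]⟩),.k,⟨false,1,⟨19,[(4,1),(1,5),(4,1),(12,2),(8,9),(3,14)]⟩,⟨0,[(30,
  0),(5,0)]⟩⟩,⟨true,1,⟨0,[(3,0)]⟩,⟨0,[(4,0),(17,0),(5,0),(1,1)]⟩⟩,⟨true,0,⟨0,[(40,0)]⟩,⟨0,[]⟩⟩,
  ⟨false,1,⟨1,[(0,0),(10,0),(24,0),(1,0)]⟩,⟨0,[(4,0)]⟩⟩,⟨false,0,⟨0,[(36,0)]⟩,⟨9,[(4,3),(1,1),(4,3),
  (12,0),(13,4)]⟩⟩,⟨true,0,⟨0,[(0,0),(35,0)]⟩,⟨0,[(4,0),(30,0)]⟩⟩,[]⟩))) (.R ⟨2,true,false,false,[0,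
  1],[0,0,0,0,1],[1,1],(⟨0,[]⟩,⟨0,[]⟩),(⟨0,[(12,0)]⟩,⟨0,[(11,0)]⟩),⟨0,[]⟩,.k,.k,.k,(.r 0 ⟨25,[(3,
  11),(2,5),(2,2),(0,2),(3,11),(5,1),(1,2),(13,5),(0,1)]⟩ ⟨9,[(2,3),(1,1),(4,3),(12,0),(12,4)]⟩),.k,
  .k,⟨true,0,⟨0,[(38,0)]⟩,⟨0,[(32,0)]⟩⟩,⟨false,0,⟨0,[(10,0)]⟩,⟨0,[(1,0)]⟩⟩,⟨false,1,⟨9,[(2,3),(1,1),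
  (4,3),(12,0),(12,4)]⟩,⟨0,[(28,0),(5,0)]⟩⟩,⟨true,0,⟨0,[(2,0)]⟩,⟨0,[(1,0),(18,0),(5,0),(1,0)]⟩⟩,
  ⟨true,0,⟨0,[(29,0)]⟩,⟨1,[(16,0),(0,0)]⟩⟩,⟨false,0,⟨0,[(0,0)]⟩,⟨1,[(1,0),(7,0),(27,0)]⟩⟩,[]⟩))))
  (.Q [-1,0,0,1,0,0,0,0,-1,0,0,-1] (.p false [0,0,0,0,1] [] (⟨0,[(9,0)]⟩,⟨0,[(8,0)]⟩) .k 0 (⟨0,[]⟩,
  ⟨0,[]⟩) .k .k) (.R ⟨2,true,false,true,[0,1],[0,0,0,0,1],[2,1],(⟨0,[]⟩,⟨0,[]⟩),(⟨0,[(10,0)]⟩,⟨0,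
  [(9,0)]⟩),⟨0,[]⟩,.k,.k,.k,(.r 0 ⟨1,[(14,0),(0,0),(16,1)]⟩ ⟨5,[(2,1),(4,1),(0,1),(11,0),(12,2)]⟩),
  .k,.k,⟨true,0,⟨0,[]⟩,⟨1,[(14,0),(0,0)]⟩⟩,⟨false,0,⟨0,[(8,0)]⟩,⟨9,[(0,5),(1,1),(4,3),(12,0),(12,
  4)]⟩⟩,⟨false,1,⟨5,[(2,1),(4,1),(0,1),(11,0),(12,2)]⟩,⟨0,[(18,0),(11,0)]⟩⟩,⟨true,0,⟨0,[(8,0),(22,
  0)]⟩,⟨0,[(0,0)]⟩⟩,⟨true,0,⟨0,[(27,0)]⟩,⟨0,[(35,0)]⟩⟩,⟨false,0,⟨0,[(8,0)]⟩,⟨9,[(0,5),(1,1),(4,3),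
  (12,0),(13,4)]⟩⟩,[]⟩) (.Q [-1,0,0,0,1,0,0,0,-1,0,0,-1] (.p false [0,0,0,0,1] [] (⟨0,[(10,0)]⟩,⟨0,
  [(9,0)]⟩) .k 0 (⟨0,[]⟩,⟨0,[]⟩) .k .k) (.Q [0,0,1,0,-1,0,0,0,1,0,0,1] (.p true [0,0,0,0,1] [] (⟨0,
  [(11,0)]⟩,⟨0,[(10,0)]⟩) .k 0 (⟨0,[]⟩,⟨0,[]⟩) .k .k) (.Q [0,0,0,0,0,-1,0,0,0,0,0,1] (.ed false [1,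
  -1,0,0,1] .k) (.S ⟨1,0,[1,1],[0,0,0,0,1],[1,1,1],(⟨0,[(13,0)]⟩,⟨0,[(12,0)]⟩),⟨0,[(0,0)]⟩,.k,(.r
  (-1) ⟨9,[(2,3),(0,3),(1,1),(17,0),(12,4)]⟩ ⟨1,[(17,0),(0,0),(16,1)]⟩),⟨false,0,⟨1,[(17,0),(0,0)]⟩,
  ⟨1,[(36,0),(0,0)]⟩⟩,⟨true,0,⟨0,[(39,0)]⟩,⟨0,[]⟩⟩,⟨true,(-1),⟨0,[(21,0),(5,0),(5,0)]⟩,⟨9,[(2,3),(0,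
  3),(1,1),(17,0),(12,4)]⟩⟩,⟨false,0,⟨0,[(35,0)]⟩,⟨9,[(2,3),(0,3),(1,1),(17,0),(13,4)]⟩⟩,[.e ⟨false,
  0,⟨0,[(39,0)]⟩,⟨1,[(36,0),(0,0)]⟩⟩ ⟨false,0,⟨0,[(30,0)]⟩,⟨1,[(2,0),(8,0),(25,0)]⟩⟩,.o ⟨false,0,⟨1,
  [(1,1),(21,0),(12,0)]⟩,⟨0,[(2,0)]⟩⟩,.o ⟨false,0,⟨1,[(1,1),(21,0),(12,0)]⟩,⟨0,[(10,0)]⟩⟩,.a ⟨true,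
  (-1),⟨0,[(1,0)]⟩,⟨1,[(2,1),(28,0),(4,0)]⟩⟩ ⟨false,0,⟨0,[]⟩,⟨1,[(2,0),(8,0),(25,0)]⟩⟩ ⟨true,0,⟨0,
  [(30,0)]⟩,⟨1,[(17,0),(0,0)]⟩⟩]⟩) (.Q [0,0,1,-1,-1,0,0,0,1,0,0,1] (.p true [0,0,0,0,1] [] (⟨0,[(13,
  0)]⟩,⟨0,[(12,0)]⟩) .k 0 (⟨0,[]⟩,⟨0,[]⟩) .k .k) (.R ⟨0,false,false,false,[0,0,0,0,1],[0,1],[],(⟨0,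
  [(14,0)]⟩,⟨0,[(13,0)]⟩),(⟨0,[(26,0)]⟩,⟨0,[(25,0)]⟩),⟨0,[(1,0)]⟩,.k,.k,(.r (-1) ⟨9,[(3,3),(0,3),(1,
  1),(17,0),(12,4)]⟩ ⟨1,[(18,0),(0,0),(16,1)]⟩),(.r (-1) ⟨9,[(3,3),(0,3),(1,1),(17,0),(12,4)]⟩ ⟨1,
  [(18,0),(0,0),(16,1)]⟩),.k,.k,⟨true,1,⟨9,[(3,3),(0,3),(1,1),(17,0),(12,4)]⟩,⟨0,[(28,0),(1,1),(5,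
  0)]⟩⟩,⟨false,2,⟨0,[(3,0),(33,0)]⟩,⟨0,[(2,0)]⟩⟩,⟨false,1,⟨1,[(3,0),(8,0),(25,0)]⟩,⟨0,[]⟩⟩,⟨true,1,
  ⟨0,[(3,0),(32,0)]⟩,⟨0,[(0,0),(30,0)]⟩⟩,⟨false,0,⟨0,[]⟩,⟨0,[]⟩⟩,⟨false,0,⟨0,[]⟩,⟨0,[]⟩⟩,[.a ⟨true,
  0,⟨0,[(36,0)]⟩,⟨3,[(3,0),(3,1),(4,0),(19,0)]⟩⟩ ⟨false,1,⟨1,[(3,0),(8,0),(24,0)]⟩,⟨0,[]⟩⟩ ⟨true,1,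
  ⟨0,[(3,0),(32,0)]⟩,⟨0,[(0,0)]⟩⟩,.o ⟨false,1,⟨1,[(24,0),(11,1),(1,0)]⟩,⟨0,[(35,0)]⟩⟩,.o ⟨false,0,
  ⟨1,[(2,1),(21,0),(12,0)]⟩,⟨0,[(11,0)]⟩⟩,.e ⟨false,1,⟨1,[(37,0),(0,0)]⟩,⟨1,[(18,0),(0,0)]⟩⟩ ⟨false,
  2,⟨1,[(3,1),(32,1),(0,0),(0,0)]⟩,⟨0,[(0,0)]⟩⟩]⟩) (.Q [-1,-1,0,1,1,0,0,0,-1,0,0,-1] (.p false [0,0,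
  0,0,1] [] (⟨0,[(14,0)]⟩,⟨0,[(13,0)]⟩) .k 0 (⟨0,[]⟩,⟨0,[]⟩) .k .k) (.R ⟨2,true,false,true,[0,1],[0,
  0,0,0,1],[2,1,1],(⟨0,[]⟩,⟨0,[]⟩),(⟨0,[(15,0)]⟩,⟨0,[(14,0)]⟩),⟨0,[]⟩,.k,.k,.k,(.r 0 ⟨1,[(19,0),(0,
  0),(16,1)]⟩ ⟨9,[(4,3),(0,3),(1,1),(17,0),(12,4)]⟩),.k,.k,⟨false,0,⟨0,[]⟩,⟨1,[(4,0),(8,0),(24,
  0)]⟩⟩,⟨true,(-1),⟨0,[(3,0)]⟩,⟨0,[(12,0)]⟩⟩,⟨true,0,⟨0,[(36,0)]⟩,⟨0,[(23,0)]⟩⟩,⟨false,0,⟨0,[(5,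
  0)]⟩,⟨0,[(0,0)]⟩⟩,⟨false,0,⟨0,[]⟩,⟨1,[(4,0),(8,0),(25,0)]⟩⟩,⟨true,(-1),⟨0,[(3,0),(28,0)]⟩,⟨0,[(4,
  0)]⟩⟩,[]⟩) (.R ⟨1,true,false,false,[1,-1],[1,0,0,0,-1],[0,0,-1,-1],(⟨0,[(26,0)]⟩,⟨0,[(27,0)]⟩),
  (⟨0,[(14,0)]⟩,⟨0,[(15,0)]⟩),⟨0,[(10,0),(0,0)]⟩,.k,.k,(.r (-2) ⟨4,[(4,3),(0,3),(1,1),(17,0),(12,
  4)]⟩ ⟨0,[(29,0),(1,1),(5,1)]⟩),(.r (-1) ⟨9,[(4,3),(0,3),(1,1),(17,0),(12,4)]⟩ ⟨1,[(19,0),(0,0),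
  (16,1)]⟩),(.r (-2) ⟨4,[(4,3),(0,3),(1,1),(17,0),(12,4)]⟩ ⟨0,[(23,1),(5,0),(5,1)]⟩),.k,⟨true,1,⟨9,
  [(4,3),(0,3),(1,1),(17,0),(12,4)]⟩,⟨0,[(23,0),(5,0),(5,1)]⟩⟩,⟨false,2,⟨0,[(4,0),(33,0)]⟩,⟨0,[(3,
  0)]⟩⟩,⟨false,1,⟨1,[(4,0),(8,0),(25,0)]⟩,⟨0,[]⟩⟩,⟨true,1,⟨3,[(1,3),(17,0),(0,0),(19,1)]⟩,⟨0,[(0,
  0)]⟩⟩,⟨true,0,⟨0,[(37,0)]⟩,⟨0,[(36,0)]⟩⟩,⟨false,1,⟨0,[(1,0),(29,0),(5,0)]⟩,⟨5,[(0,1),(4,3),(1,1),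
  (17,0),(13,0)]⟩⟩,[]⟩)))) (.Q [0,0,0,0,0,-1,0,0,0,0,0,1] (.ed false [1,-1,0,0,1] .k) (.Q [-1,0,0,0,
  0,0,0,0,-1,1,0,-1] (.p false [0,0,0,0,1] [1] (⟨0,[(13,0)]⟩,⟨0,[(12,0)]⟩) .k 1 (⟨0,[]⟩,⟨0,[]⟩) .k
  .k) (.S ⟨1,0,[1,1],[0,0,0,0,1],[],(⟨0,[(14,0)]⟩,⟨0,[(13,0)]⟩),⟨0,[(1,0)]⟩,.k,(.r (-1) ⟨9,[(3,3),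
  (0,3),(1,1),(17,0),(12,4)]⟩ ⟨1,[(18,0),(0,0),(16,1)]⟩),⟨false,1,⟨1,[(3,0),(8,0),(25,0)]⟩,⟨0,[]⟩⟩,
  ⟨true,0,⟨0,[(40,0)]⟩,⟨0,[]⟩⟩,⟨true,0,⟨0,[(22,0)]⟩,⟨0,[(35,0)]⟩⟩,⟨false,0,⟨0,[(36,0)]⟩,⟨9,[(3,3),
  (0,3),(1,1),(17,0),(13,4)]⟩⟩,[.o ⟨false,0,⟨1,[(12,1),(11,0),(3,0)]⟩,⟨1,[(0,1),(23,0),(13,0)]⟩⟩,.a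
  ⟨true,0,⟨0,[(12,0)]⟩,⟨0,[(0,0)]⟩⟩ ⟨false,1,⟨1,[(37,0),(0,0)]⟩,⟨0,[(40,0)]⟩⟩ ⟨true,0,⟨0,[]⟩,⟨1,
  [(18,0),(0,0)]⟩⟩,.e ⟨false,1,⟨1,[(3,0),(8,0),(25,0)]⟩,⟨0,[]⟩⟩ ⟨false,0,⟨0,[]⟩,⟨1,[(3,0),(8,0),(25,
  0)]⟩⟩,.o ⟨false,0,⟨1,[(4,0),(7,0),(9,0),(1,0),(3,0),(1,1)]⟩,⟨0,[(2,0)]⟩⟩]⟩) (.R ⟨2,true,false,
  false,[0,1],[0,0,0,0,1],[1,1],(⟨0,[]⟩,⟨0,[]⟩),(⟨0,[(14,0)]⟩,⟨0,[(13,0)]⟩),⟨0,[]⟩,.k,.k,.k,(.r 0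
  ⟨1,[(18,0),(0,0),(16,1)]⟩ ⟨9,[(3,3),(0,3),(1,1),(17,0),(12,4)]⟩),.k,.k,⟨true,0,⟨0,[(40,0)]⟩,⟨0,
  [(34,0)]⟩⟩,⟨false,0,⟨0,[(12,0)]⟩,⟨0,[(2,0)]⟩⟩,⟨false,1,⟨9,[(3,3),(0,3),(1,1),(17,0),(12,4)]⟩,⟨0,
  [(30,0),(5,0)]⟩⟩,⟨true,0,⟨0,[(4,0)]⟩,⟨0,[(2,0),(19,0),(5,0),(1,0)]⟩⟩,⟨true,0,⟨0,[(31,0)]⟩,⟨1,[(18,
  0),(0,0)]⟩⟩,⟨false,0,⟨1,[(0,1),(31,0),(5,0)]⟩,⟨0,[(3,0)]⟩⟩,[]⟩)) (.Q [-1,0,0,2,0,0,0,0,-1,0,0,-1]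
  (.p false [0,0,0,0,1] [] (⟨0,[(13,0)]⟩,⟨0,[(12,0)]⟩) .k 0 (⟨0,[]⟩,⟨0,[]⟩) .k .k) (.R ⟨1,true,
  false,false,[1,-1],[1,0,0,0,-1],[0,1,-1,-1],(⟨0,[(25,0)]⟩,⟨0,[(26,0)]⟩),(⟨0,[(13,0)]⟩,⟨0,[(14,
  0)]⟩),⟨0,[(9,0),(0,0)]⟩,.k,.k,(.r (-2) ⟨4,[(3,3),(0,3),(1,1),(17,0),(12,4)]⟩ ⟨0,[(0,0),(11,0),(15,
  0),(1,1)]⟩),(.r (-1) ⟨9,[(3,3),(0,3),(1,1),(17,0),(12,4)]⟩ ⟨7,[(0,3),(11,3),(5,2),(0,2),(19,1)]⟩),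
  (.r (-2) ⟨4,[(3,3),(0,3),(1,1),(17,0),(12,4)]⟩ ⟨0,[(22,1),(5,0),(5,1)]⟩),.k,⟨false,1,⟨19,[(3,1),
  (0,1),(1,5),(17,2),(8,9),(3,14)]⟩,⟨1,[(0,0),(11,0),(17,1)]⟩⟩,⟨true,1,⟨0,[(2,0)]⟩,⟨0,[(4,0),(17,0),
  (5,0),(1,1)]⟩⟩,⟨true,0,⟨0,[(40,0)]⟩,⟨0,[]⟩⟩,⟨false,1,⟨1,[(0,0),(2,0),(34,0)]⟩,⟨0,[(4,0)]⟩⟩,⟨false,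
  0,⟨0,[(36,0)]⟩,⟨9,[(3,3),(0,3),(1,1),(17,0),(13,4)]⟩⟩,⟨true,0,⟨0,[(0,0)]⟩,⟨0,[(4,0),(30,0)]⟩⟩,
  []⟩) (.Q [0,0,1,0,0,0,0,0,-1,0,0,-1] (.p false [0,0,0,0,1] [] (⟨0,[(14,0)]⟩,⟨0,[(13,0)]⟩) .k 0
  (⟨0,[]⟩,⟨0,[]⟩) .k .k) (.R ⟨0,false,false,true,[0,0,0,0,1],[0,1],[1,1,1],(⟨0,[(15,0)]⟩,⟨0,[(14,
  0)]⟩),(⟨0,[(27,0)]⟩,⟨0,[(26,0)]⟩),⟨0,[(2,0)]⟩,.k,.k,(.r (-1) ⟨1,[(1,0),(2,0),(33,0)]⟩ ⟨1,[(19,0),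
  (0,0),(16,1)]⟩),(.r (-1) ⟨1,[(1,0),(2,0),(33,0)]⟩ ⟨1,[(19,0),(0,0),(16,1)]⟩),.k,.k,⟨false,1,⟨1,
  [(1,0),(2,0),(33,0)]⟩,⟨0,[(37,0)]⟩⟩,⟨true,1,⟨0,[(3,0)]⟩,⟨2,[(1,0),(11,1),(9,1),(5,2),(1,5)]⟩⟩,
  ⟨false,0,⟨1,[(19,0),(0,0)]⟩,⟨1,[(38,0),(0,0)]⟩⟩,⟨true,0,⟨1,[(0,0),(2,0),(19,0),(5,0),(7,0)]⟩,⟨0,
  [(5,0)]⟩⟩,⟨false,0,⟨0,[]⟩,⟨0,[]⟩⟩,⟨false,0,⟨0,[]⟩,⟨0,[]⟩⟩,[.o ⟨false,0,⟨1,[(25,0),(3,0),(7,1)]⟩,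
  ⟨1,[(1,0),(2,0),(34,0)]⟩⟩,.e ⟨false,0,⟨0,[]⟩,⟨1,[(4,0),(8,0),(24,0)]⟩⟩ ⟨false,1,⟨0,[(3,0),(33,
  0)]⟩,⟨2,[(1,1),(11,0),(9,0)]⟩⟩,.a ⟨true,0,⟨0,[(13,0)]⟩,⟨1,[(0,1),(32,0),(4,0)]⟩⟩ ⟨false,0,⟨1,[(19,
  0),(0,0)]⟩,⟨1,[(38,0),(0,0)]⟩⟩ ⟨true,0,⟨1,[(0,0),(2,0),(25,0),(7,1)]⟩,⟨2,[(1,1),(11,0),(9,0)]⟩⟩,
  .o ⟨false,0,⟨5,[(1,0),(11,4),(9,1),(1,2),(3,2),(1,5)]⟩,⟨0,[(3,0)]⟩⟩]⟩) (.R ⟨2,true,false,false,[0,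
  1],[0,0,0,0,1],[1,1],(⟨0,[]⟩,⟨0,[]⟩),(⟨0,[(15,0)]⟩,⟨0,[(14,0)]⟩),⟨0,[]⟩,.k,.k,.k,(.r 0 ⟨1,[(19,0),
  (0,0),(16,1)]⟩ ⟨1,[(1,0),(2,0),(33,0)]⟩),.k,.k,⟨true,0,⟨0,[(41,0)]⟩,⟨0,[(35,0)]⟩⟩,⟨false,0,⟨0,
  [(13,0)]⟩,⟨0,[(3,0)]⟩⟩,⟨false,1,⟨1,[(1,0),(2,0),(33,0)]⟩,⟨0,[(31,0),(5,0)]⟩⟩,⟨true,0,⟨0,[(5,0)]⟩,
  ⟨0,[(3,0),(19,0),(5,0),(1,0)]⟩⟩,⟨true,0,⟨0,[(32,0)]⟩,⟨1,[(19,0),(0,0)]⟩⟩,⟨false,0,⟨0,[(0,0),(30,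
  0)]⟩,⟨0,[(4,0)]⟩⟩,[]⟩))))) (.R ⟨2,true,false,true,[0,1],[0,0,0,0,1],[1,1],(⟨0,[]⟩,⟨0,[]⟩),(⟨0,
  [(11,0)]⟩,⟨0,[(10,0)]⟩),⟨0,[]⟩,.k,.k,.k,(.r 0 ⟨1,[(15,0),(0,0),(16,1)]⟩ ⟨9,[(1,3),(1,1),(4,3),(12,
  0),(12,4)]⟩),.k,.k,⟨false,1,⟨1,[(8,0),(0,0),(24,0)]⟩,⟨0,[]⟩⟩,⟨true,(-1),⟨3,[(0,3),(14,0),(0,0),
  (19,1)]⟩,⟨0,[(8,0)]⟩⟩,⟨false,1,⟨9,[(1,3),(1,1),(4,3),(12,0),(12,4)]⟩,⟨0,[(27,0),(5,0)]⟩⟩,⟨true,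
  (-1),⟨14,[(0,10),(0,3),(1,1),(17,0),(3,4),(6,4)]⟩,⟨0,[(8,0),(24,0)]⟩⟩,⟨true,0,⟨0,[(28,0)]⟩,⟨1,
  [(15,0),(0,0)]⟩⟩,⟨false,(-1),⟨0,[(0,0)]⟩,⟨4,[(8,6),(0,1),(25,2),(1,0)]⟩⟩,[]⟩))))))

theorem ok0 : chk K t0 base = true := by decide +kernel

theorem closed {p a b c J l q : ℤ} {D dl : ℝ} {Cl : ℤ → ℤ → ℤ → ℤ → ℝ → Prop}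
    (W : World p a b c J 1 l q D dl Cl) (g : G0 p a b c J D)
    {N X R : ℤ} {I : ℝ} (hk : KCl p l Cl N X R I) (kz : KF a b D (X + (1 : ℤ) * I) (X + (1 : ℤ) * I + R) I)
    {Ne Xe : ℤ} {Ie : ℝ} (he : EFac p 1 D Cl 1 Ne Xe Ie)
    (hkf : ∀ kf ∈ (kfY 1 [0,0,0,0,0,0,1,0,0,0,1]), KOk p l Cl 1
      (xv [1, a, b, c, p, J, X, R, Xe] [D, I, Ie]) N kf)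
    (h0 : 1 ≤ (c : ℝ))
    (h1 : 1 ≤ 1 - (a : ℝ) + (b : ℝ))
    (h2 : 1 ≤ 2 * (a : ℝ) - (b : ℝ))
    (h3 : 0 < 1 - (p : ℝ) + 2 * D)
    (h4 : 1 ≤ 1 + (a : ℝ) - (b : ℝ))
    (h5 : 1 ≤ 1 - (a : ℝ) + (b : ℝ))
    (h6 : 1 ≤ 2 + 2 * (a : ℝ) - (p : ℝ))
    (h7 : 1 ≤ 2 * (a : ℝ) - (b : ℝ))
    (h8 : 1 ≤ 2 - (J : ℝ))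
    (h9 : 1 ≤ -1 + (c : ℝ))
    (h10 : 0 < -(b : ℝ) - (X : ℝ) + D - I)
    (h11 : 0 < -(J : ℝ) + I)
    (h12 : 0 < -(J : ℝ) + D - I)
    (h13 : 0 < -2 * (X : ℝ) + D - 2 * I) : False := by
  have g1 := g.a2
  have g2 := g.b2
  have g3 := g.pa
  have g4 := g.pb
  have g5 := g.J1
  have g6 := g.JD
  have g7 := g.D2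
  have g8 := g.ca
  have g9 := g.ca'
  have k1 := kz.I0
  have k2 := kz.ID
  have k3 := kz.z1
  have k4 := kz.z2
  have k5 := kz.s1
  have k6 := kz.s2
  have e1 := he.I0
  have e2 := he.ID
  have e3 := he.x0
  have e4 := he.xp
  push_cast at *
  refine (val_E W.toBase hk he (row := [1]) (by simp) (by simp) (kfY 1 [0,0,0,0,0,0,1,0,0,0,1])).sound W rfl (Nk := N)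
    (fun kf _ _ => ⟨_, rfl⟩) hkf ?_ ok0
  · simp only [base, List.forall_mem_cons, List.not_mem_nil, false_imp_iff, implies_true,
      and_true, hld, xv, evg_cons, evg_nil, List.map_cons, List.map_nil, List.cons_append,
      List.nil_append, if_true, if_false, Bool.false_eq_true]
    push_cast
    refine ⟨?_, ?_, ?_, ?_, ?_, ?_, ?_, ?_, ?_, ?_, ?_, ?_, ?_, ?_, ?_, ?_, ?_, ?_, ?_, ?_, ?_, ?_, ?_, ?_, ?_, ?_, ?_, ?_, ?_, ?_, ?_, ?_, ?_⟩ <;> linarith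

end Helper48.Y.Y11_c35_L2_m1n1_K2

namespace Helper48.Y.Y11_c35_P1_m1n1_K2

open Helper25.KG Helper25.KW Helper55.KE Helper11.CT

noncomputable def K : Cls :=
  cE 1 [1] (kfY 1 [0,0,0,0,0,0,1,0,0,0,1])

noncomputable def base : List Con :=
  [(false,[0,0,0,0,0,0,-2,0,0,1,-2]),
  (false,[0,0,0,0,0,-1,0,0,0,1,-1]),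
  (false,[0,0,0,0,0,-1,0,0,0,0,1]),
  (false,[0,0,0,0,1,0,0,0,-1,0,0,-1]),
  (false,[0,0,0,0,0,0,0,0,1,0,0,1]),
  (false,[0,0,0,0,0,0,0,0,0,1,0,-1]),
  (false,[0,0,0,0,0,0,0,0,0,0,0,1]),
  (false,[0,0,-1,0,0,0,-1,0,0,1,-1]),
  (false,[0,1,0,0,0,0,1,1,0,0,1]),
  (false,[0,1,0,0,0,0,-1,-1,0,0,-1]),
  (false,[0,0,1,0,0,0,1,0,0,0,1]),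
  (false,[0,0,1,0,0,0,-1,0,0,0,-1]),
  (false,[0,0,0,0,0,0,0,0,0,1,-1]),
  (false,[0,0,0,0,0,0,0,0,0,0,1]),
  (true,[-1,0,0,1]),
  (true,[2,0,0,0,0,-1]),
  (false,[0,0,0,0,1,0,0,0,0,-2]),
  (false,[0,0,0,0,0,-1,0,0,0,1]),
  (true,[0,0,0,0,0,1]),
  (true,[0,2,-1]),
  (true,[2,2,0,0,-1]),
  (true,[0,-2,0,0,1]),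
  (true,[1,-1,1]),
  (true,[1,1,-1]),
  (false,[1,0,0,0,1,0,0,0,0,-3]),
  (true,[0,2,-1]),
  (true,[1,-1,1]),
  (true,[0,1,0,-1]),
  (true,[0,0,0,1]),
  (true,[0,0,-2,0,1]),
  (true,[0,-2,0,0,1]),
  (true,[-1,0,1]),
  (true,[-1,1])]

noncomputable def t0 : Tre :=
  (.I [1,1,2,2,-2] (.S ⟨1,3,[],[1,-1],[1,1,1],(⟨0,[(18,0)]⟩,⟨0,[(19,0)]⟩),⟨0,[(2,0),(0,0)]⟩,.k,(.r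
  (-2) ⟨0,[(28,1),(1,0),(0,0)]⟩ ⟨2,[(0,1),(10,0),(0,0),(16,1),(1,0)]⟩),⟨false,(-1),⟨3,[(0,1),(10,0),
  (0,0),(10,1)]⟩,⟨0,[(28,0),(1,0),(0,0)]⟩⟩,⟨true,0,⟨0,[(29,0)]⟩,⟨0,[(28,0)]⟩⟩,⟨true,(-2),⟨0,[(0,
  0)]⟩,⟨0,[(28,1),(1,0),(0,0)]⟩⟩,⟨false,0,⟨0,[(0,0),(29,0),(0,0)]⟩,⟨0,[(28,1),(2,0)]⟩⟩,[.e ⟨false,0,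
  ⟨0,[(33,0)]⟩,⟨1,[(30,0),(0,0)]⟩⟩ ⟨false,1,⟨0,[(30,0)]⟩,⟨1,[(11,0),(0,0)]⟩⟩,.o ⟨false,1,⟨1,[(4,0),
  (0,0),(25,0)]⟩,⟨2,[(21,0),(3,0),(7,0)]⟩⟩,.o ⟨false,0,⟨1,[(11,0),(0,0)]⟩,⟨1,[(17,0),(12,0)]⟩⟩,.a
  ⟨true,(-1),⟨0,[(18,0),(0,0),(1,0),(1,1)]⟩,⟨0,[(30,0)]⟩⟩ ⟨false,0,⟨0,[]⟩,⟨1,[(4,0),(0,0),(25,0)]⟩⟩
  ⟨true,1,⟨0,[(30,0)]⟩,⟨3,[(0,1),(10,0),(0,0),(10,1),(4,3)]⟩⟩]⟩) (.Q [-1,0,0,0,0,0,0,0,-1,1,0,-1]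
  (.p false [0,0,0,0,1] [1] (⟨0,[(7,0)]⟩,⟨0,[(6,0)]⟩) .k 1 (⟨0,[]⟩,⟨0,[]⟩) .k .k) (.Q [0,0,0,0,0,-1,
  0,0,0,0,0,1] (.ed false [1,-1,0,0,1] .k) (.S ⟨1,0,[1,1],[0,0,0,0,1],[],(⟨0,[(9,0)]⟩,⟨0,[(8,0)]⟩),
  ⟨0,[(0,0)]⟩,.k,(.r (-1) ⟨1,[(2,0),(32,0)]⟩ ⟨1,[(13,0),(0,0),(16,1)]⟩),⟨false,1,⟨4,[(6,1),(0,1),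
  (25,2),(1,0)]⟩,⟨0,[]⟩⟩,⟨true,0,⟨0,[(35,0)]⟩,⟨0,[]⟩⟩,⟨true,0,⟨0,[(17,0)]⟩,⟨0,[(30,0)]⟩⟩,⟨false,0,
  ⟨0,[(31,0)]⟩,⟨3,[(2,1),(10,0),(0,0),(10,1)]⟩⟩,[.o ⟨false,0,⟨2,[(7,2),(15,0),(3,0),(7,0)]⟩,⟨3,[(1,
  2),(4,0),(20,0),(5,1)]⟩⟩,.a ⟨true,0,⟨0,[(7,0)]⟩,⟨0,[(1,0)]⟩⟩ ⟨false,1,⟨1,[(32,0),(0,0)]⟩,⟨0,[(35,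
  0)]⟩⟩ ⟨true,0,⟨0,[]⟩,⟨1,[(13,0),(0,0)]⟩⟩,.e ⟨false,1,⟨1,[(6,0),(0,0),(25,0)]⟩,⟨0,[]⟩⟩ ⟨false,0,⟨0,
  []⟩,⟨1,[(6,0),(0,0),(25,0)]⟩⟩,.o ⟨false,0,⟨2,[(7,2),(15,0),(1,1),(1,0),(6,0)]⟩,⟨3,[(1,2),(4,0),
  (20,0),(4,1)]⟩⟩]⟩) (.Q [1,0,0,-1,0,0,0,0,1,0,0,1] (.p true [0,0,0,0,1] [] (⟨0,[(9,0)]⟩,⟨0,[(8,
  0)]⟩) .k 0 (⟨0,[]⟩,⟨0,[]⟩) .k .k) (.Q [0,0,0,-1,0,0,0,0,1,0,0,1] (.p true [0,0,0,0,1] [] (⟨0,[(10,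
  0)]⟩,⟨0,[(9,0)]⟩) .k 0 (⟨0,[]⟩,⟨0,[]⟩) .k .k) (.R ⟨0,false,false,true,[0,0,0,0,1],[0,1],[1,1,1],
  (⟨0,[(11,0)]⟩,⟨0,[(10,0)]⟩),(⟨0,[(23,0)]⟩,⟨0,[(22,0)]⟩),⟨0,[(2,0)]⟩,.k,.k,(.r (-1) ⟨1,[(4,0),(32,
  0)]⟩ ⟨1,[(15,0),(0,0),(16,1)]⟩),(.r (-1) ⟨1,[(4,0),(32,0)]⟩ ⟨1,[(15,0),(0,0),(16,1)]⟩),.k,.k,
  ⟨false,1,⟨1,[(4,0),(32,0)]⟩,⟨0,[(33,0)]⟩⟩,⟨true,1,⟨3,[(3,2),(4,0),(20,0),(4,1)]⟩,⟨1,[(0,0),(8,0),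
  (9,0),(5,1),(1,3)]⟩⟩,⟨false,0,⟨1,[(15,0),(0,0)]⟩,⟨1,[(34,0),(0,0)]⟩⟩,⟨true,0,⟨3,[(3,2),(4,0),(16,
  1),(3,0),(3,3)]⟩,⟨0,[(1,0)]⟩⟩,⟨false,0,⟨0,[]⟩,⟨0,[]⟩⟩,⟨false,0,⟨0,[]⟩,⟨0,[]⟩⟩,[.o ⟨false,0,⟨2,
  [(25,0),(3,0),(3,2),(3,0)]⟩,⟨3,[(4,1),(10,0),(0,0),(10,1)]⟩⟩,.e ⟨false,0,⟨0,[]⟩,⟨1,[(8,0),(0,0),
  (24,0)]⟩⟩ ⟨false,1,⟨3,[(3,2),(4,0),(20,0),(3,3),(0,1)]⟩,⟨0,[(0,0)]⟩⟩,.a ⟨true,0,⟨0,[(9,0)]⟩,⟨0,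
  [(3,0)]⟩⟩ ⟨false,0,⟨1,[(15,0),(0,0)]⟩,⟨1,[(34,0),(0,0)]⟩⟩ ⟨true,0,⟨3,[(3,2),(4,0),(16,1),(3,0),(3,
  3)]⟩,⟨0,[(0,0)]⟩⟩,.o ⟨false,0,⟨2,[(9,2),(15,0),(1,1),(1,0),(6,0)]⟩,⟨3,[(3,2),(4,0),(20,0),(4,
  1)]⟩⟩]⟩) (.R ⟨1,true,false,false,[1,-1],[1,0,0,0,-1],[0,1,-1,-1],(⟨0,[(22,0)]⟩,⟨0,[(23,0)]⟩),(⟨0,
  [(10,0)]⟩,⟨0,[(11,0)]⟩),⟨0,[(6,0),(0,0)]⟩,.k,.k,(.r (-2) ⟨0,[(4,0),(32,0)]⟩ ⟨0,[(25,0),(1,1),(5,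
  1)]⟩),(.r (-1) ⟨1,[(4,0),(32,0)]⟩ ⟨1,[(15,0),(0,0),(16,1)]⟩),(.r (-2) ⟨0,[(4,0),(32,0)]⟩ ⟨0,[(19,
  1),(5,0),(5,1)]⟩),.k,⟨false,1,⟨1,[(4,0),(23,0),(1,0)]⟩,⟨0,[(27,0),(5,0)]⟩⟩,⟨true,1,⟨4,[(0,3),(3,
  1),(3,0),(21,0)]⟩,⟨0,[(1,0),(17,0),(5,0),(1,1)]⟩⟩,⟨true,0,⟨0,[(37,0)]⟩,⟨0,[]⟩⟩,⟨false,1,⟨1,[(0,0),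
  (7,0),(24,0),(1,0)]⟩,⟨0,[(1,0)]⟩⟩,⟨false,0,⟨0,[(33,0)]⟩,⟨3,[(4,1),(10,0),(0,0),(10,1)]⟩⟩,⟨true,0,
  ⟨0,[(0,0),(32,0)]⟩,⟨0,[(1,0),(30,0)]⟩⟩,[]⟩)) (.R ⟨2,true,false,true,[0,1],[0,0,0,0,1],[2,1],(⟨0,
  []⟩,⟨0,[]⟩),(⟨0,[(10,0)]⟩,⟨0,[(9,0)]⟩),⟨0,[]⟩,.k,.k,.k,(.r 0 ⟨1,[(14,0),(0,0),(16,1)]⟩ ⟨1,[(3,0),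
  (32,0)]⟩),.k,.k,⟨true,0,⟨0,[]⟩,⟨1,[(14,0),(0,0)]⟩⟩,⟨false,0,⟨0,[(8,0)]⟩,⟨4,[(0,3),(2,1),(3,0),(21,
  0)]⟩⟩,⟨false,1,⟨1,[(3,0),(32,0)]⟩,⟨0,[(18,0),(11,0)]⟩⟩,⟨true,0,⟨0,[(8,0),(22,0)]⟩,⟨0,[(0,0)]⟩⟩,
  ⟨true,0,⟨0,[(27,0)]⟩,⟨0,[(35,0)]⟩⟩,⟨false,0,⟨0,[(8,0)]⟩,⟨3,[(2,2),(4,0),(20,0),(5,1)]⟩⟩,[]⟩)))
  (.Q [0,0,0,2,0,0,0,0,0,-1] (.pp true [-1,1]) (.Q [0,0,0,-1,0,0,0,0,0,1] (.pp false [-1,1]) (.R ⟨2,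
  true,false,false,[0,1],[1,-1],[1,1,1],(⟨0,[]⟩,⟨0,[]⟩),(⟨0,[(21,0)]⟩,⟨0,[(22,0)]⟩),⟨0,[]⟩,.k,.k,.k,
  (.r 1 ⟨0,[(24,0),(1,1),(5,1)]⟩ ⟨0,[(3,0),(32,0)]⟩),.k,.k,⟨false,(-1),⟨0,[(24,0),(1,0),(5,0)]⟩,⟨3,
  [(3,1),(3,0),(0,0),(24,1),(0,0)]⟩⟩,⟨true,(-1),⟨0,[(21,0),(0,0),(1,0),(1,1)]⟩,⟨1,[(20,0),(12,0)]⟩⟩,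
  ⟨true,0,⟨0,[(31,0)]⟩,⟨0,[(32,0)]⟩⟩,⟨false,1,⟨3,[(0,3),(2,1),(10,0),(0,0),(10,1)]⟩,⟨0,[(1,0)]⟩⟩,
  ⟨false,0,⟨0,[]⟩,⟨1,[(7,0),(0,0),(25,0)]⟩⟩,⟨true,0,⟨0,[(0,0)]⟩,⟨5,[(1,2),(22,0),(3,0),(7,3)]⟩⟩,
  []⟩) (.S ⟨1,0,[0,1,-1,-1],[1,-1],[1,0,-1,-2],(⟨0,[(21,0)]⟩,⟨0,[(22,0)]⟩),⟨0,[(5,0),(0,0)]⟩,.k,(.r
  (-2) ⟨0,[(3,0),(32,0)]⟩ ⟨0,[(24,0),(1,1),(5,1)]⟩),⟨false,1,⟨3,[(3,1),(10,0),(0,0),(10,1)]⟩,⟨0,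
  [(32,0)]⟩⟩,⟨true,0,⟨0,[(36,0)]⟩,⟨0,[]⟩⟩,⟨true,0,⟨0,[]⟩,⟨0,[(36,0)]⟩⟩,⟨false,0,⟨0,[(32,0)]⟩,⟨3,[(3,
  1),(10,0),(0,0),(10,1)]⟩⟩,[.o ⟨false,0,⟨0,[(31,0)]⟩,⟨3,[(1,1),(5,0),(0,0),(11,0),(13,1)]⟩⟩,.o
  ⟨false,1,⟨1,[(3,0),(10,0),(0,0),(20,0)]⟩,⟨0,[(0,0)]⟩⟩,.o ⟨false,0,⟨1,[(14,0),(0,0)]⟩,⟨1,[(20,0),
  (12,0)]⟩⟩,.a ⟨true,(-1),⟨0,[(21,0),(0,0),(1,0),(1,1)]⟩,⟨0,[(33,0)]⟩⟩ ⟨false,2,⟨0,[(3,0)]⟩,⟨0,[(24,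
  0),(1,1),(5,1)]⟩⟩ ⟨true,1,⟨1,[(3,0),(23,0),(1,0)]⟩,⟨0,[(24,0),(1,1),(5,0)]⟩⟩]⟩)) (.Q [0,0,1,0,0,0,
  0,0,-1,1,0,-1] (.p false [0,0,0,0,1] [1] (⟨0,[(9,0)]⟩,⟨0,[(8,0)]⟩) .k 1 (⟨0,[]⟩,⟨0,[]⟩) .k .k)
  (.Q [-1,-1,0,0,1,0,0,0,-1,0,0,-1] (.p false [0,0,0,0,1] [] (⟨0,[(10,0)]⟩,⟨0,[(9,0)]⟩) .k 0 (⟨0,
  []⟩,⟨0,[]⟩) .k .k) (.R ⟨1,false,false,true,[1,-1],[0,0,0,0,1],[1,1,-1,-2],(⟨0,[(22,0)]⟩,⟨0,[(23,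
  0)]⟩),(⟨0,[(11,0)]⟩,⟨0,[(10,0)]⟩),⟨0,[(6,0),(0,0)]⟩,.k,.k,(.r (-2) ⟨0,[(4,0),(32,0)]⟩ ⟨0,[(25,0),
  (1,1),(5,1)]⟩),(.r (-1) ⟨1,[(4,0),(32,0)]⟩ ⟨1,[(15,0),(0,0),(16,1)]⟩),(.r (-2) ⟨0,[(4,0),(32,0)]⟩
  ⟨0,[(25,0),(1,1),(5,1)]⟩),.k,⟨true,1,⟨7,[(2,2),(1,3),(20,0),(3,0),(2,1)]⟩,⟨0,[(25,0),(1,1),(5,
  1)]⟩⟩,⟨false,1,⟨0,[(3,0),(30,0)]⟩,⟨0,[(1,0)]⟩⟩,⟨true,0,⟨0,[(32,0)]⟩,⟨0,[(33,0)]⟩⟩,⟨false,0,⟨0,[(3,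
  0),(29,0)]⟩,⟨3,[(0,1),(0,1),(0,1),(31,0),(0,0)]⟩⟩,⟨false,0,⟨0,[]⟩,⟨1,[(8,0),(0,0),(25,0)]⟩⟩,
  ⟨false,0,⟨0,[(3,0),(29,1)]⟩,⟨0,[(0,0),(1,0)]⟩⟩,[.o ⟨false,0,⟨0,[(3,0),(33,0)]⟩,⟨0,[(0,0)]⟩⟩,.o
  ⟨false,0,⟨0,[(3,0)]⟩,⟨2,[(0,0),(7,1),(28,0)]⟩⟩,.o ⟨false,0,⟨1,[(15,0),(0,0)]⟩,⟨1,[(21,0),(12,
  0)]⟩⟩,.a ⟨true,(-1),⟨0,[(22,0),(0,0),(1,0),(1,1)]⟩,⟨0,[(34,0)]⟩⟩ ⟨true,1,⟨0,[(4,0),(20,0)]⟩,⟨0,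
  [(25,0),(1,1),(5,1)]⟩⟩ ⟨false,1,⟨0,[(3,0),(30,0)]⟩,⟨3,[(0,0),(0,2),(0,0),(16,1),(5,0),(1,4)]⟩⟩]⟩)
  (.Q [0,0,0,3,0,0,0,0,0,-1] (.pp true [-1,1]) (.R ⟨1,true,false,true,[1,-1],[0,1],[0,0,-1,-1],(⟨0,
  [(23,0)]⟩,⟨0,[(24,0)]⟩),(⟨0,[(24,0)]⟩,⟨0,[(23,0)]⟩),⟨0,[(7,0),(0,0)]⟩,.k,.k,(.r (-2) ⟨0,[(5,0),
  (32,0)]⟩ ⟨1,[(0,0),(0,0),(0,0),(17,0),(5,0),(1,2)]⟩),(.r (-2) ⟨0,[(5,0),(32,0)]⟩ ⟨1,[(0,0),(0,0),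
  (0,0),(17,0),(5,0),(1,2)]⟩),(.r (-2) ⟨1,[(3,2),(26,0),(4,2)]⟩ ⟨3,[(0,3),(0,3),(0,3),(13,0),(0,0),
  (10,3),(8,1)]⟩),.k,⟨true,2,⟨0,[(5,0)]⟩,⟨1,[(0,0),(0,0),(0,0),(17,0),(5,2),(1,4)]⟩⟩,⟨false,2,⟨1,
  [(22,0),(12,2)]⟩,⟨3,[(1,2),(0,2),(0,0),(16,1),(5,0),(1,4)]⟩⟩,⟨false,1,⟨1,[(9,0),(0,0),(25,0)]⟩,⟨0,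
  []⟩⟩,⟨true,0,⟨8,[(0,5),(25,0),(3,0),(7,6)]⟩,⟨0,[(3,0)]⟩⟩,⟨true,0,⟨0,[(34,0)]⟩,⟨0,[(33,0)]⟩⟩,
  ⟨false,0,⟨0,[(0,0)]⟩,⟨7,[(3,9),(1,1),(10,1),(0,1),(4,0),(13,2)]⟩⟩,[]⟩) (.Q [-1,-1,0,-1,1,0,0,0,-1,
  1,0,-1] (.p false [0,0,0,0,1] [1] (⟨0,[(12,0)]⟩,⟨0,[(11,0)]⟩) .k 1 (⟨0,[]⟩,⟨0,[]⟩) .k .k) (.Q [0,
  0,1,0,-1,0,0,0,1,0,0,1] (.p true [0,0,0,0,1] [] (⟨0,[(13,0)]⟩,⟨0,[(12,0)]⟩) .k 0 (⟨0,[]⟩,⟨0,[]⟩)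
  .k .k) (.Q [0,0,0,0,0,-1,0,0,0,0,0,1] (.ed false [1,-1,0,0,1] .k) (.S ⟨1,0,[1,1],[0,0,0,0,1],[1,1,
  1],(⟨0,[(15,0)]⟩,⟨0,[(14,0)]⟩),⟨0,[(0,0)]⟩,.k,(.r (-1) ⟨1,[(8,0),(32,0)]⟩ ⟨1,[(19,0),(0,0),(16,
  1)]⟩),⟨false,0,⟨1,[(19,0),(0,0)]⟩,⟨1,[(38,0),(0,0)]⟩⟩,⟨true,0,⟨0,[(41,0)]⟩,⟨0,[]⟩⟩,⟨true,(-1),⟨0,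
  [(23,0),(5,0),(5,0)]⟩,⟨1,[(8,0),(32,0)]⟩⟩,⟨false,0,⟨0,[(37,0)]⟩,⟨13,[(3,1),(4,3),(10,3),(0,3),(4,
  0),(13,4)]⟩⟩,[.e ⟨false,0,⟨0,[(41,0)]⟩,⟨1,[(38,0),(0,0)]⟩⟩ ⟨false,0,⟨0,[(32,0)]⟩,⟨1,[(12,0),(0,0),
  (25,0)]⟩⟩,.o ⟨false,0,⟨0,[(7,0)]⟩,⟨8,[(2,2),(9,5),(10,2),(5,0),(3,0),(7,0)]⟩⟩,.o ⟨false,0,⟨12,[(1,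
  5),(5,6),(0,0),(14,1),(9,1),(4,1),(2,0)]⟩,⟨0,[(12,0)]⟩⟩,.a ⟨true,(-1),⟨0,[(1,0)]⟩,⟨0,[(5,0),(32,
  0)]⟩⟩ ⟨false,0,⟨0,[]⟩,⟨1,[(12,0),(0,0),(25,0)]⟩⟩ ⟨true,0,⟨0,[(32,0)]⟩,⟨1,[(19,0),(0,0)]⟩⟩]⟩) (.Q
  [0,0,1,-1,-1,0,0,0,1,0,0,1] (.p true [0,0,0,0,1] [] (⟨0,[(15,0)]⟩,⟨0,[(14,0)]⟩) .k 0 (⟨0,[]⟩,⟨0,
  []⟩) .k .k) (.R ⟨0,false,false,false,[0,0,0,0,1],[0,1],[],(⟨0,[(16,0)]⟩,⟨0,[(15,0)]⟩),(⟨0,[(28,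
  0)]⟩,⟨0,[(27,0)]⟩),⟨0,[(1,0)]⟩,.k,.k,(.r (-1) ⟨1,[(9,0),(32,0)]⟩ ⟨1,[(20,0),(0,0),(16,1)]⟩),(.r
  (-1) ⟨1,[(9,0),(32,0)]⟩ ⟨1,[(20,0),(0,0),(16,1)]⟩),.k,.k,⟨true,1,⟨1,[(9,0),(32,0)]⟩,⟨0,[(30,0),(1,
  1),(5,0)]⟩⟩,⟨false,2,⟨0,[(13,0),(25,0)]⟩,⟨0,[(2,0)]⟩⟩,⟨false,1,⟨4,[(13,1),(0,1),(25,2),(1,0)]⟩,⟨0,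
  []⟩⟩,⟨true,1,⟨0,[(13,0),(24,0)]⟩,⟨0,[(0,0),(32,0)]⟩⟩,⟨false,0,⟨0,[]⟩,⟨0,[]⟩⟩,⟨false,0,⟨0,[]⟩,⟨0,
  []⟩⟩,[.a ⟨true,0,⟨0,[(38,0)]⟩,⟨1,[(7,0),(9,0),(2,0)]⟩⟩ ⟨false,1,⟨1,[(13,0),(0,0),(24,0)]⟩,⟨0,[]⟩⟩
  ⟨true,1,⟨0,[(13,0),(24,0)]⟩,⟨0,[(0,0)]⟩⟩,.o ⟨false,1,⟨1,[(26,0),(11,1),(1,0)]⟩,⟨0,[(37,0)]⟩⟩,.o
  ⟨false,0,⟨24,[(0,5),(7,18),(0,0),(14,7),(9,1),(4,1),(2,0)]⟩,⟨0,[(13,0)]⟩⟩,.e ⟨false,1,⟨1,[(39,0),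
  (0,0)]⟩,⟨1,[(20,0),(0,0)]⟩⟩ ⟨false,2,⟨1,[(13,1),(24,1),(0,0),(0,0)]⟩,⟨0,[(0,0)]⟩⟩]⟩) (.Q [-1,1,0,
  1,0,0,0,0,-1,0,0,-1] (.p false [0,0,0,0,1] [] (⟨0,[(16,0)]⟩,⟨0,[(15,0)]⟩) .k 0 (⟨0,[]⟩,⟨0,[]⟩) .k
  .k) (.R ⟨2,true,false,false,[0,1],[0,0,0,0,1],[2,0,1],(⟨0,[]⟩,⟨0,[]⟩),(⟨0,[(17,0)]⟩,⟨0,[(16,0)]⟩),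
  ⟨0,[]⟩,.k,.k,.k,(.r 0 ⟨1,[(21,0),(0,0),(16,1)]⟩ ⟨1,[(10,0),(32,0)]⟩),.k,.k,⟨false,0,⟨0,[]⟩,⟨8,[(1,
  3),(8,1),(3,0),(0,4),(20,0)]⟩⟩,⟨true,(-1),⟨0,[(3,0)]⟩,⟨0,[(14,0)]⟩⟩,⟨false,1,⟨13,[(5,1),(4,3),(10,
  3),(0,3),(4,0),(13,4)]⟩,⟨0,[(25,0)]⟩⟩,⟨true,0,⟨2,[(5,0),(3,0),(5,1)]⟩,⟨0,[(0,0)]⟩⟩,⟨true,0,⟨0,[]⟩,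
  ⟨0,[(43,0)]⟩⟩,⟨false,0,⟨0,[(6,0),(34,0)]⟩,⟨6,[(0,0),(0,0),(2,1),(9,2),(12,0),(14,0),(0,0)]⟩⟩,[]⟩)
  (.R ⟨1,true,false,true,[1,-1],[1,0,0,0,-1],[0,1,-1,-1],(⟨0,[(28,0)]⟩,⟨0,[(29,0)]⟩),(⟨0,[(16,0)]⟩,
  ⟨0,[(17,0)]⟩),⟨0,[(12,0),(0,0)]⟩,.k,.k,(.r (-2) ⟨0,[(10,0),(32,0)]⟩ ⟨0,[(31,0),(1,1),(5,1)]⟩),(.r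
  (-1) ⟨1,[(10,0),(32,0)]⟩ ⟨1,[(21,0),(0,0),(16,1)]⟩),(.r (-2) ⟨0,[(10,0),(32,0)]⟩ ⟨0,[(25,1),(5,0),
  (5,1)]⟩),.k,⟨true,1,⟨1,[(10,0),(32,0)]⟩,⟨0,[(25,0),(5,0),(5,1)]⟩⟩,⟨false,2,⟨8,[(1,7),(8,3),(3,1),
  (0,0),(20,1)]⟩,⟨0,[(3,0)]⟩⟩,⟨true,0,⟨0,[(43,0)]⟩,⟨0,[]⟩⟩,⟨false,1,⟨3,[(1,3),(19,0),(0,0),(19,1)]⟩,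
  ⟨0,[(0,0)]⟩⟩,⟨false,0,⟨0,[(39,0)]⟩,⟨13,[(5,1),(4,3),(10,3),(0,3),(4,0),(13,4)]⟩⟩,⟨true,0,⟨0,[(1,
  0),(23,0),(5,0),(1,0)]⟩,⟨2,[(5,1),(3,1),(5,0)]⟩⟩,[]⟩)))) (.R ⟨2,true,false,true,[0,1],[0,0,0,0,1],
  [1,1,1],(⟨0,[]⟩,⟨0,[]⟩),(⟨0,[(14,0)]⟩,⟨0,[(13,0)]⟩),⟨0,[]⟩,.k,.k,.k,(.r 0 ⟨1,[(18,0),(0,0),(16,
  1)]⟩ ⟨1,[(7,0),(32,0)]⟩),.k,.k,⟨true,0,⟨1,[(18,0),(0,0)]⟩,⟨0,[]⟩⟩,⟨false,0,⟨0,[(12,0)]⟩,⟨0,[(0,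
  0)]⟩⟩,⟨true,0,⟨0,[(35,0)]⟩,⟨0,[(36,0)]⟩⟩,⟨false,0,⟨2,[(2,0),(3,0),(5,1)]⟩,⟨0,[(0,0),(29,0),(5,
  0)]⟩⟩,⟨false,0,⟨0,[]⟩,⟨1,[(11,0),(0,0),(25,0)]⟩⟩,⟨true,(-1),⟨0,[(3,0)]⟩,⟨1,[(0,0),(10,0),(27,
  0)]⟩⟩,[]⟩)) (.R ⟨2,true,false,false,[0,1],[1,0,0,0,-1],[1,0,1],(⟨0,[]⟩,⟨0,[]⟩),(⟨0,[(12,0)]⟩,⟨0,
  [(13,0)]⟩),⟨0,[]⟩,.k,.k,.k,(.r 0 ⟨1,[(17,0),(0,0),(16,1)]⟩ ⟨1,[(6,0),(32,0)]⟩),.k,.k,⟨false,0,⟨0,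
  []⟩,⟨9,[(10,3),(0,3),(24,4),(0,0),(1,1)]⟩⟩,⟨true,0,⟨0,[(3,0)]⟩,⟨41,[(0,22),(0,2),(3,18),(0,6),(24,
  0),(5,7),(0,13)]⟩⟩,⟨false,1,⟨13,[(1,1),(4,3),(10,3),(0,3),(4,0),(13,4)]⟩,⟨0,[(35,0)]⟩⟩,⟨true,1,
  ⟨17,[(3,15),(0,0),(1,7),(0,0),(2,1),(6,1),(14,1),(6,3)]⟩,⟨0,[(0,0)]⟩⟩,⟨true,0,⟨0,[]⟩,⟨0,[(39,
  0)]⟩⟩,⟨false,1,⟨1,[(3,1),(32,0),(0,0)]⟩,⟨0,[(5,0)]⟩⟩,[]⟩)))) (.Q [-1,0,0,0,1,0,0,0,-1,0,0,-1] (.p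
  false [0,0,0,0,1] [] (⟨0,[(10,0)]⟩,⟨0,[(9,0)]⟩) .k 0 (⟨0,[]⟩,⟨0,[]⟩) .k .k) (.R ⟨1,false,false,
  true,[1,-1],[0,0,0,0,1],[1,0,-1,-2],(⟨0,[(22,0)]⟩,⟨0,[(23,0)]⟩),(⟨0,[(11,0)]⟩,⟨0,[(10,0)]⟩),⟨0,
  [(6,0),(0,0)]⟩,.k,.k,(.r (-2) ⟨0,[(4,0),(32,0)]⟩ ⟨0,[(25,0),(1,1),(5,1)]⟩),(.r (-1) ⟨1,[(4,0),(32,
  0)]⟩ ⟨1,[(15,0),(0,0),(16,1)]⟩),(.r (-2) ⟨0,[(4,0),(32,0)]⟩ ⟨0,[(25,0),(1,1),(5,1)]⟩),.k,⟨false,2,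
  ⟨0,[(4,0)]⟩,⟨0,[(25,0),(1,0),(5,1)]⟩⟩,⟨true,0,⟨0,[(1,0)]⟩,⟨0,[(0,0),(11,0),(2,0),(9,0),(1,1)]⟩⟩,
  ⟨false,1,⟨7,[(2,1),(1,1),(10,1),(0,1),(4,0),(13,2)]⟩,⟨0,[(33,0)]⟩⟩,⟨true,(-1),⟨0,[(1,0),(23,0),(1,
  0),(5,0)]⟩,⟨1,[(0,1),(1,0),(9,0),(2,0)]⟩⟩,⟨true,0,⟨0,[]⟩,⟨0,[(37,0)]⟩⟩,⟨true,(-1),⟨0,[(1,0),(23,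
  0),(1,0),(5,1)]⟩,⟨0,[(0,0),(1,0)]⟩⟩,[.o ⟨false,(-1),⟨0,[(1,0),(23,0),(1,0)]⟩,⟨1,[(0,2),(8,0),(25,
  0)]⟩⟩,.o ⟨false,0,⟨0,[(3,0)]⟩,⟨0,[(0,0)]⟩⟩,.o ⟨false,0,⟨1,[(15,0),(0,0)]⟩,⟨1,[(21,0),(12,0)]⟩⟩,.a
  ⟨true,(-1),⟨0,[(22,0),(0,0),(1,0),(1,1)]⟩,⟨0,[(34,0)]⟩⟩ ⟨false,2,⟨0,[(4,0)]⟩,⟨0,[(25,0),(1,1),(5,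
  1)]⟩⟩ ⟨true,0,⟨0,[(1,0),(26,0)]⟩,⟨0,[(0,0),(21,0),(0,0),(1,0),(1,1)]⟩⟩]⟩) (.R ⟨2,true,false,true,
  [0,1],[0,0,0,0,1],[1,1],(⟨0,[]⟩,⟨0,[]⟩),(⟨0,[(11,0)]⟩,⟨0,[(10,0)]⟩),⟨0,[]⟩,.k,.k,.k,(.r 0 ⟨1,[(15,
  0),(0,0),(16,1)]⟩ ⟨1,[(4,0),(32,0)]⟩),.k,.k,⟨false,1,⟨1,[(8,0),(0,0),(24,0)]⟩,⟨0,[]⟩⟩,⟨true,(-1),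
  ⟨3,[(0,3),(14,0),(0,0),(19,1)]⟩,⟨0,[(8,0)]⟩⟩,⟨false,1,⟨1,[(4,0),(32,0)]⟩,⟨0,[(27,0),(5,0)]⟩⟩,
  ⟨true,(-1),⟨0,[(0,0),(31,0)]⟩,⟨0,[(8,0),(24,0)]⟩⟩,⟨true,0,⟨0,[(28,0)]⟩,⟨1,[(15,0),(0,0)]⟩⟩,⟨false,
  (-1),⟨0,[(0,0)]⟩,⟨4,[(8,6),(0,1),(25,2),(1,0)]⟩⟩,[]⟩))))))

theorem ok0 : chk K t0 base = true := by decide +kernel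

theorem closed {p a b c J l q : ℤ} {D dl : ℝ} {Cl : ℤ → ℤ → ℤ → ℤ → ℝ → Prop}
    (W : World p a b c J 1 l q D dl Cl) (g : G0 p a b c J D)
    {N X R : ℤ} {I : ℝ} (hk : KCl p l Cl N X R I) (kz : KF a b D (X + (1 : ℤ) * I) (X + (1 : ℤ) * I + R) I)
    {Ne Xe : ℤ} {Ie : ℝ} (he : EFac p 1 D Cl 1 Ne Xe Ie)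
    (hkf : ∀ kf ∈ (kfY 1 [0,0,0,0,0,0,1,0,0,0,1]), KOk p l Cl 1
      (xv [1, a, b, c, p, J, X, R, Xe] [D, I, Ie]) N kf)
    (h0 : 1 ≤ (c : ℝ))
    (h1 : 1 ≤ 1 - (a : ℝ) + (b : ℝ))
    (h2 : 1 ≤ 2 * (a : ℝ) - (b : ℝ))
    (h3 : 0 < 1 + (p : ℝ) - 3 * D)
    (h4 : 1 ≤ 1 + (a : ℝ) - (b : ℝ))
    (h5 : 1 ≤ 1 - (a : ℝ) + (b : ℝ))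
    (h6 : 1 ≤ 2 + 2 * (a : ℝ) - (p : ℝ))
    (h7 : 1 ≤ 2 * (a : ℝ) - (b : ℝ))
    (h8 : 1 ≤ 2 - (J : ℝ))
    (h9 : 1 ≤ -1 + (c : ℝ))
    (h10 : 0 < -(b : ℝ) - (X : ℝ) + D - I)
    (h11 : 0 < -(J : ℝ) + I)
    (h12 : 0 < -(J : ℝ) + D - I)
    (h13 : 0 < -2 * (X : ℝ) + D - 2 * I) : False := by
  have g1 := g.a2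
  have g2 := g.b2
  have g3 := g.pa
  have g4 := g.pb
  have g5 := g.J1
  have g6 := g.JD
  have g7 := g.D2
  have g8 := g.ca
  have g9 := g.ca'
  have k1 := kz.I0
  have k2 := kz.ID
  have k3 := kz.z1
  have k4 := kz.z2
  have k5 := kz.s1
  have k6 := kz.s2
  have e1 := he.I0
  have e2 := he.ID
  have e3 := he.x0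
  have e4 := he.xp
  push_cast at *
  refine (val_E W.toBase hk he (row := [1]) (by simp) (by simp) (kfY 1 [0,0,0,0,0,0,1,0,0,0,1])).sound W rfl (Nk := N)
    (fun kf _ _ => ⟨_, rfl⟩) hkf ?_ ok0
  · simp only [base, List.forall_mem_cons, List.not_mem_nil, false_imp_iff, implies_true,
      and_true, hld, xv, evg_cons, evg_nil, List.map_cons, List.map_nil, List.cons_append,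
      List.nil_append, if_true, if_false, Bool.false_eq_true]
    push_cast
    refine ⟨?_, ?_, ?_, ?_, ?_, ?_, ?_, ?_, ?_, ?_, ?_, ?_, ?_, ?_, ?_, ?_, ?_, ?_, ?_, ?_, ?_, ?_, ?_, ?_, ?_, ?_, ?_, ?_, ?_, ?_, ?_, ?_, ?_⟩ <;> linarith

end Helper48.Y.Y11_c35_P1_m1n1_K2

namespace Helper48.Y.Y11_c35_P4_m0n0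

open Helper25.KG Helper25.KW Helper55.KE Helper11.CT

noncomputable def K : Cls :=
  cE 1 [1] (kfY 1 [0,0,0,0,0,0,1,0,0,0,1])

noncomputable def base : List Con :=
  [(false,[0,0,0,0,0,0,-2,0,0,1,-2]),
  (false,[0,0,0,0,0,1,0,0,0,-1,1]),
  (false,[0,0,0,0,0,1,0,0,0,0,-1]),
  (false,[0,0,0,0,1,0,0,0,-1,0,0,-1]),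
  (false,[0,0,0,0,0,0,0,0,1,0,0,1]),
  (false,[0,0,0,0,0,0,0,0,0,1,0,-1]),
  (false,[0,0,0,0,0,0,0,0,0,0,0,1]),
  (false,[0,0,-1,0,0,0,-1,0,0,1,-1]),
  (false,[0,1,0,0,0,0,1,1,0,0,1]),
  (false,[0,1,0,0,0,0,-1,-1,0,0,-1]),
  (false,[0,0,1,0,0,0,1,0,0,0,1]),
  (false,[0,0,1,0,0,0,-1,0,0,0,-1]),
  (false,[0,0,0,0,0,0,0,0,0,1,-1]),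
  (false,[0,0,0,0,0,0,0,0,0,0,1]),
  (true,[-2,0,0,0,0,1]),
  (false,[0,0,0,0,1,0,0,0,0,-2]),
  (false,[0,0,0,0,0,-1,0,0,0,1]),
  (true,[0,0,0,0,0,1]),
  (true,[0,2,-1]),
  (false,[-3,0,0,0,1,0,0,0,0,-2]),
  (true,[0,2,-1]),
  (true,[1,-1,1]),
  (true,[0,1,0,-1]),
  (true,[0,0,0,1]),
  (true,[0,0,-2,0,1]),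
  (true,[0,-2,0,0,1]),
  (true,[-1,0,1]),
  (true,[-1,1])]

noncomputable def t0 : Tre :=
  (.Q [0,0,0,0,0,0,-1,0,0,0,-1] (.p false [0,0,1] [] (⟨0,[(13,0)]⟩,⟨0,[(12,0)]⟩) .k 0 (⟨0,[]⟩,⟨0,
  []⟩) .k .k) (.Q [0,-1,0,1,0,0,-1,-1,0,0,-1] (.p false [0,0,1] [] (⟨0,[(14,0)]⟩,⟨0,[(13,0)]⟩) .k 0
  (⟨0,[]⟩,⟨0,[]⟩) .k .k) (.I [1,0,0,0,0,0,0,-1] (.R ⟨2,true,false,true,[0,1],[0,0,1],[1,1,1],(⟨0,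
  []⟩,⟨0,[]⟩),(⟨0,[(16,0)]⟩,⟨0,[(15,0)]⟩),⟨0,[]⟩,.k,.k,.k,.k,.k,.k,⟨false,0,⟨0,[(0,0)]⟩,⟨1,[(10,1),
  (0,1),(6,0),(9,0)]⟩⟩,⟨true,0,⟨0,[(13,0)]⟩,⟨0,[(2,0)]⟩⟩,⟨true,0,⟨0,[(25,0)]⟩,⟨0,[(26,0)]⟩⟩,⟨false,
  1,⟨0,[(11,0),(13,0),(2,0)]⟩,⟨0,[(1,0)]⟩⟩,⟨false,0,⟨0,[]⟩,⟨1,[(6,0),(0,0),(20,0)]⟩⟩,⟨true,0,⟨0,
  [(11,0)]⟩,⟨0,[(1,0),(23,0)]⟩⟩,[]⟩) (.I [1,0,0,-1,0,0,0,1] (.Q [0,0,0,-1,0,0,1,1,0,1,1] (.p true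
  [1,-1,1] [] (⟨0,[(17,0),(2,0)]⟩,⟨0,[(6,0)]⟩) .k 0 (⟨0,[]⟩,⟨0,[]⟩) .k .k) (.R ⟨2,false,false,false,
  [0,1],[0,1,-1],[0,1],(⟨0,[]⟩,⟨0,[]⟩),(⟨0,[(7,0)]⟩,⟨0,[(18,0),(2,0)]⟩),⟨0,[]⟩,.k,.k,.k,.k,.k,.k,
  ⟨false,1,⟨11,[(0,3),(0,7),(3,1),(14,2),(4,5),(3,8)]⟩,⟨0,[(3,0),(11,0)]⟩⟩,⟨true,0,⟨0,[(4,0)]⟩,⟨0,
  [(15,0)]⟩⟩,⟨false,1,⟨1,[(27,1),(1,0),(0,0)]⟩,⟨0,[(26,0),(1,0)]⟩⟩,⟨true,0,⟨0,[(3,0),(23,0)]⟩,⟨0,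
  [(13,0)]⟩⟩,⟨false,1,⟨1,[(8,0),(0,0),(19,0)]⟩,⟨0,[(26,0)]⟩⟩,⟨false,0,⟨0,[(3,0)]⟩,⟨1,[(0,1),(7,0),
  (0,0),(10,0)]⟩⟩,[.a ⟨true,0,⟨1,[(3,0),(10,0),(13,0)]⟩,⟨0,[(0,0)]⟩⟩ ⟨true,0,⟨0,[(32,0)]⟩,⟨0,[(26,
  0)]⟩⟩ ⟨false,0,⟨1,[(3,0),(10,0),(13,0)]⟩,⟨1,[(0,1),(19,0),(8,0)]⟩⟩,.e ⟨false,1,⟨1,[(8,0),(0,0),
  (19,0)]⟩,⟨0,[]⟩⟩ ⟨false,0,⟨0,[(3,0)]⟩,⟨3,[(0,3),(7,0),(0,0),(10,1),(4,1),(3,0)]⟩⟩,.o ⟨false,1,⟨1,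
  [(20,0),(8,0)]⟩,⟨1,[(15,0),(0,0)]⟩⟩,.fo]⟩) (.Q [0,1,0,-1,0,0,1,1,0,1,1] (.p true [1,-1,1] [] (⟨0,
  [(18,0),(2,0)]⟩,⟨0,[(7,0)]⟩) .k 0 (⟨0,[]⟩,⟨0,[]⟩) .k .k) (.R ⟨2,false,false,false,[0,1],[0,1,-1],
  [1,1],(⟨0,[]⟩,⟨0,[]⟩),(⟨0,[(8,0)]⟩,⟨0,[(19,0),(2,0)]⟩),⟨0,[]⟩,.k,.k,.k,.k,.k,.k,⟨false,1,⟨15,[(0,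
  3),(1,11),(3,1),(14,2),(4,5),(3,12)]⟩,⟨0,[(4,0),(11,0)]⟩⟩,⟨true,0,⟨0,[(5,0)]⟩,⟨0,[(16,0)]⟩⟩,
  ⟨false,1,⟨1,[(28,1),(1,0),(0,0)]⟩,⟨0,[(27,0),(1,0)]⟩⟩,⟨true,0,⟨0,[(4,0),(23,0)]⟩,⟨0,[(14,0)]⟩⟩,
  ⟨false,1,⟨1,[(9,0),(0,0),(19,0)]⟩,⟨0,[(2,0),(1,0),(11,0)]⟩⟩,⟨false,0,⟨0,[(4,0)]⟩,⟨1,[(0,1),(20,0),
  (9,0)]⟩⟩,[.o ⟨false,0,⟨0,[(1,0)]⟩,⟨1,[(0,1),(20,0),(9,0)]⟩⟩,.a ⟨true,0,⟨0,[(4,0)]⟩,⟨0,[(0,0)]⟩⟩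
  ⟨true,0,⟨0,[]⟩,⟨1,[(16,0),(0,0)]⟩⟩ ⟨false,0,⟨0,[(4,0)]⟩,⟨1,[(0,1),(20,0),(8,0)]⟩⟩,.o ⟨false,1,⟨1,
  [(21,0),(8,0)]⟩,⟨1,[(16,0),(0,0)]⟩⟩,.fo]⟩) (.Q [0,-1,0,0,0,0,-1,-1,0,1,-1] (.p false [0,0,1] [1]
  (⟨0,[(19,0)]⟩,⟨0,[(18,0)]⟩) .k 1 (⟨0,[]⟩,⟨0,[]⟩) .k .k) (.R ⟨0,false,false,true,[0,1,-1],[0,0,1],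
  [0,1,1,1,0,0,0,-1],(⟨0,[(9,0)]⟩,⟨0,[(20,0),(2,0)]⟩),(⟨0,[(20,0)]⟩,⟨0,[(19,0)]⟩),⟨0,[(20,0)]⟩,.k,
  .k,.k,(.r 0 ⟨0,[(0,0),(0,0),(15,1),(9,0)]⟩ ⟨5,[(3,5),(0,1),(2,1),(7,3),(6,0),(8,2),(0,1)]⟩),.k,.k,
  ⟨true,0,⟨0,[(0,0),(0,0),(15,1),(9,0)]⟩,⟨0,[(3,0),(0,0)]⟩⟩,⟨false,1,⟨0,[(17,1),(13,0)]⟩,⟨0,[(2,0),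
  (0,0),(10,0)]⟩⟩,⟨true,0,⟨0,[(34,0)]⟩,⟨0,[]⟩⟩,⟨false,1,⟨1,[(3,1),(11,1),(1,1),(13,0),(0,0)]⟩,⟨0,
  [(0,0),(1,0)]⟩⟩,⟨false,0,⟨0,[]⟩,⟨0,[]⟩⟩,⟨false,0,⟨0,[]⟩,⟨0,[]⟩⟩,[.a ⟨true,0,⟨0,[(15,0)]⟩,⟨0,[(0,
  0)]⟩⟩ ⟨false,0,⟨0,[(5,0),(11,0),(9,0)]⟩,⟨1,[(3,1),(27,0),(0,0)]⟩⟩ ⟨true,0,⟨0,[(15,0),(1,0)]⟩,⟨6,
  [(0,3),(0,5),(1,2),(3,1),(21,2)]⟩⟩,.o ⟨false,1,⟨1,[(15,1),(6,0),(9,0)]⟩,⟨2,[(0,0),(0,0),(14,0),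
  (12,0)]⟩⟩,.o ⟨false,1,⟨0,[(14,0),(7,0)]⟩,⟨0,[(17,0)]⟩⟩,.o ⟨false,0,⟨0,[(2,0),(0,0)]⟩,⟨1,[(10,0),
  (0,0),(5,1),(13,0)]⟩⟩]⟩) (.I [0,1,1,1,-1] (.R ⟨0,false,false,true,[0,0,1],[0,1],[1,0,1],(⟨0,[(21,
  0)]⟩,⟨0,[(20,0)]⟩),(⟨0,[(25,0)]⟩,⟨0,[(24,0)]⟩),⟨0,[(10,0)]⟩,.k,.k,.k,.k,.k,.k,⟨true,1,⟨0,[(30,0),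
  (2,0)]⟩,⟨0,[(0,0)]⟩⟩,⟨false,1,⟨1,[(15,1),(7,0),(8,0)]⟩,⟨0,[(18,0)]⟩⟩,⟨true,0,⟨0,[(6,0),(11,0),(11,
  0)]⟩,⟨0,[(1,0),(13,0)]⟩⟩,⟨false,0,⟨1,[(6,0),(10,0),(13,0)]⟩,⟨1,[(4,1),(13,1),(13,0),(0,0)]⟩⟩,
  ⟨false,0,⟨0,[]⟩,⟨0,[]⟩⟩,⟨false,0,⟨0,[]⟩,⟨0,[]⟩⟩,[.o ⟨false,0,⟨3,[(0,0),(0,0),(1,0),(19,0),(4,0),
  (2,1)]⟩,⟨0,[(30,0),(2,0)]⟩⟩,.o ⟨false,0,⟨1,[(1,0),(0,0),(28,0)]⟩,⟨1,[(11,0),(0,0),(17,1),(2,0)]⟩⟩,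
  .o ⟨false,1,⟨1,[(18,1),(4,0),(8,0)]⟩,⟨0,[(7,0)]⟩⟩,.a ⟨true,0,⟨0,[(18,0)]⟩,⟨0,[(15,0)]⟩⟩ ⟨true,0,
  ⟨0,[]⟩,⟨0,[(35,0)]⟩⟩ ⟨false,0,⟨1,[(1,0),(0,0),(12,1),(15,0)]⟩,⟨0,[(18,0),(11,0),(2,0)]⟩⟩]⟩) (.I
  [0,0,1,0,0,0,0,-2] (.Q [0,0,-1,0,1,0,1,0,0,-1,1] (.p true [0,0,1] [1] (⟨0,[(22,0)]⟩,⟨0,[(21,0)]⟩)
  .k 1 (⟨0,[]⟩,⟨0,[]⟩) .k .k) (.R ⟨0,false,false,false,[0,0,1],[1,0,-1],[0,0,1,0,0,0,0,-1],(⟨0,[(23,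
  0)]⟩,⟨0,[(22,0)]⟩),(⟨0,[(22,0)]⟩,⟨0,[(23,0)]⟩),⟨0,[(12,0)]⟩,.k,.k,.k,.k,.k,.k,⟨true,0,⟨1,[(20,0),
  (0,0)]⟩,⟨0,[]⟩⟩,⟨false,0,⟨2,[(5,0),(0,0),(3,0),(6,2)]⟩,⟨0,[(0,0),(19,0)]⟩⟩,⟨true,0,⟨0,[(1,0)]⟩,⟨0,
  [(3,0),(3,0),(9,0)]⟩⟩,⟨false,0,⟨0,[(1,0),(4,0),(1,0),(8,0)]⟩,⟨0,[(3,0),(14,0),(16,0)]⟩⟩,⟨false,0,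
  ⟨0,[]⟩,⟨0,[]⟩⟩,⟨false,0,⟨0,[]⟩,⟨0,[]⟩⟩,[.o ⟨false,0,⟨6,[(1,1),(2,2),(5,0),(6,1),(14,2)]⟩,⟨1,[(18,
  1),(6,0),(9,0)]⟩⟩,.o ⟨false,1,⟨3,[(1,1),(8,1),(14,0),(8,0),(0,1)]⟩,⟨0,[(3,0)]⟩⟩,.o ⟨false,1,⟨3,
  [(0,1),(12,0),(0,0),(5,1),(4,0)]⟩,⟨0,[(9,0)]⟩⟩,.a ⟨true,0,⟨0,[(20,0)]⟩,⟨0,[(17,0)]⟩⟩ ⟨false,1,⟨3,
  [(1,1),(11,0),(0,0),(19,0),(0,1)]⟩,⟨0,[(7,0)]⟩⟩ ⟨true,0,⟨6,[(1,1),(2,2),(5,0),(6,8),(14,2)]⟩,⟨0,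
  [(3,0),(16,0)]⟩⟩]⟩) (.R ⟨0,false,false,true,[0,0,1],[1,-1],[0,1,0,-1,0,0,0,1],(⟨0,[(23,0)]⟩,⟨0,
  [(22,0)]⟩),(⟨0,[(26,0)]⟩,⟨0,[(27,0)]⟩),⟨0,[(12,0)]⟩,.k,.k,.k,.k,.k,.k,⟨false,0,⟨0,[(7,0)]⟩,⟨3,[(1,
  1),(11,0),(0,0),(19,2)]⟩⟩,⟨true,(-1),⟨0,[(0,0)]⟩,⟨1,[(20,1),(4,0),(8,0)]⟩⟩,⟨true,0,⟨0,[(32,0)]⟩,
  ⟨0,[(33,0)]⟩⟩,⟨false,0,⟨1,[(0,0),(0,0),(0,0),(14,0),(14,0)]⟩,⟨0,[(3,0),(29,0),(1,0)]⟩⟩,⟨false,0,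
  ⟨0,[]⟩,⟨0,[]⟩⟩,⟨false,0,⟨0,[]⟩,⟨0,[]⟩⟩,[.o ⟨false,0,⟨0,[(32,0)]⟩,⟨1,[(25,0),(7,1),(1,0)]⟩⟩,.o
  ⟨false,1,⟨1,[(13,0),(0,0),(17,1),(2,0)]⟩,⟨1,[(3,0),(0,0),(28,0)]⟩⟩,.o ⟨false,1,⟨1,[(20,1),(4,0),
  (8,0)]⟩,⟨0,[(9,0)]⟩⟩,.a ⟨true,0,⟨0,[(20,0)]⟩,⟨0,[(17,0)]⟩⟩ ⟨false,1,⟨5,[(2,3),(3,1),(3,1),(7,3),
  (6,0),(8,0)]⟩,⟨0,[(8,0),(11,0)]⟩⟩ ⟨true,0,⟨0,[(17,0),(14,0)]⟩,⟨1,[(3,0),(0,0),(15,1),(12,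
  0)]⟩⟩]⟩)) (.I [0,0,1,1,0,0,0,-2] (.R ⟨0,false,false,true,[0,0,1],[0,1,-1],[1,0,1],(⟨0,[(23,0)]⟩,
  ⟨0,[(22,0)]⟩),(⟨0,[(12,0)]⟩,⟨0,[(23,0),(2,0)]⟩),⟨0,[(12,0)]⟩,.k,.k,.k,(.r (-1) ⟨21,[(1,7),(0,13),
  (3,7),(3,9),(7,19),(6,4),(9,2)]⟩ ⟨0,[(0,0)]⟩),.k,.k,⟨false,1,⟨21,[(1,5),(0,15),(3,5),(3,1),(7,3),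
  (6,0),(9,4)]⟩,⟨1,[(0,0),(29,0),(2,0)]⟩⟩,⟨true,0,⟨0,[(5,0),(0,0),(10,0)]⟩,⟨0,[(20,1)]⟩⟩,⟨true,0,⟨1,
  [(0,0),(30,0),(0,0)]⟩,⟨1,[(1,0),(28,0)]⟩⟩,⟨false,0,⟨0,[(8,0),(10,0)]⟩,⟨0,[(1,0),(0,0),(17,1)]⟩⟩,
  ⟨false,0,⟨0,[]⟩,⟨0,[]⟩⟩,⟨false,0,⟨0,[]⟩,⟨0,[]⟩⟩,[.o ⟨false,0,⟨6,[(0,0),(2,0),(1,5),(15,1),(8,2)]⟩,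
  ⟨1,[(2,0),(3,0),(11,0),(1,0),(14,0)]⟩⟩,.o ⟨false,0,⟨0,[(5,0)]⟩,⟨0,[(18,0),(13,0),(2,0)]⟩⟩,.o
  ⟨false,1,⟨1,[(20,1),(4,0),(8,0)]⟩,⟨0,[(9,0)]⟩⟩,.a ⟨true,0,⟨0,[(20,0)]⟩,⟨0,[(17,0)]⟩⟩ ⟨true,0,⟨0,
  []⟩,⟨0,[(37,0)]⟩⟩ ⟨false,0,⟨0,[(5,0),(11,0)]⟩,⟨1,[(2,0),(3,0),(11,0),(1,2),(14,0)]⟩⟩]⟩) (.R ⟨0,
  false,false,true,[0,0,1],[0,1,-1],[0,1,1,1,0,0,0,-1],(⟨0,[(23,0)]⟩,⟨0,[(22,0)]⟩),(⟨0,[(12,0)]⟩,⟨0,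
  [(23,0),(2,0)]⟩),⟨0,[(12,0)]⟩,.k,.k,.k,(.x (-1) ⟨1,[(12,1),(7,3),(1,1),(2,0),(8,0)]⟩ ⟨0,[(0,0),(3,
  0),(14,0),(3,1),(2,0)]⟩),.k,.k,⟨false,1,⟨1,[(13,0),(0,0),(19,0)]⟩,⟨0,[]⟩⟩,⟨true,0,⟨4,[(0,2),(3,2),
  (5,0),(6,1),(1,2)]⟩,⟨0,[(20,1)]⟩⟩,⟨true,0,⟨0,[(8,1),(11,1),(9,0),(1,0)]⟩,⟨0,[(0,0)]⟩⟩,⟨false,0,⟨0,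
  [(8,0),(10,0)]⟩,⟨0,[(1,0),(0,0),(17,1)]⟩⟩,⟨false,0,⟨0,[]⟩,⟨0,[]⟩⟩,⟨false,0,⟨0,[]⟩,⟨0,[]⟩⟩,[.o
  ⟨false,0,⟨0,[(5,0),(31,0)]⟩,⟨1,[(2,0),(3,0),(11,0),(1,0),(14,0)]⟩⟩,.o ⟨false,0,⟨0,[(5,0)]⟩,⟨0,
  [(18,0),(13,0),(2,0)]⟩⟩,.o ⟨false,1,⟨1,[(20,1),(4,0),(8,0)]⟩,⟨0,[(9,0)]⟩⟩,.a ⟨true,0,⟨0,[(20,0)]⟩,
  ⟨0,[(17,0)]⟩⟩ ⟨true,0,⟨0,[(8,0),(11,0),(9,0)]⟩,⟨0,[(6,0)]⟩⟩ ⟨false,0,⟨0,[(5,0),(11,0)]⟩,⟨1,[(2,0),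
  (3,0),(11,0),(1,2),(14,0)]⟩⟩]⟩))))))) (.R ⟨2,true,false,true,[0,1],[0,0,1],[0,1,1,1],(⟨0,[]⟩,⟨0,
  []⟩),(⟨0,[(17,0)]⟩,⟨0,[(16,0)]⟩),⟨0,[]⟩,.k,.k,.k,.k,.k,.k,⟨false,0,⟨0,[(0,0)]⟩,⟨1,[(1,1),(24,1),
  (1,0),(0,0)]⟩⟩,⟨true,0,⟨0,[(14,0)]⟩,⟨0,[(3,0)]⟩⟩,⟨true,0,⟨0,[(31,0)]⟩,⟨0,[]⟩⟩,⟨false,1,⟨0,[(12,0),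
  (13,0),(2,0)]⟩,⟨0,[(2,0)]⟩⟩,⟨false,0,⟨0,[(27,0)]⟩,⟨0,[(26,0),(2,0)]⟩⟩,⟨true,0,⟨0,[(12,0)]⟩,⟨0,[(2,
  0),(23,0)]⟩⟩,[]⟩))) (.Q [0,0,0,1,0,0,-1,-1,0,0,-1] (.p false [0,0,1] [] (⟨0,[(15,0)]⟩,⟨0,[(14,
  0)]⟩) .k 0 (⟨0,[]⟩,⟨0,[]⟩) .k .k) (.I [1,0,1,0,0,0,0,-1] (.Q [0,0,1,-1,0,0,1,0,0,0,1] (.p true [0,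
  0,1] [] (⟨0,[(17,0)]⟩,⟨0,[(16,0)]⟩) .k 0 (⟨0,[]⟩,⟨0,[]⟩) .k .k) (.I [0,-1,-1,0,1,0,0,1] (.R ⟨0,
  false,false,false,[0,0,1],[0,1],[1,1,1],(⟨0,[(19,0)]⟩,⟨0,[(18,0)]⟩),(⟨0,[(23,0)]⟩,⟨0,[(22,0)]⟩),
  ⟨0,[(8,0)]⟩,.k,.k,.k,.k,.k,.k,⟨true,0,⟨0,[(28,0)]⟩,⟨0,[(27,0),(1,0)]⟩⟩,⟨false,1,⟨1,[(13,1),(7,0),
  (8,0)]⟩,⟨0,[(16,0)]⟩⟩,⟨false,0,⟨0,[(2,0)]⟩,⟨0,[(0,0)]⟩⟩,⟨true,0,⟨0,[(3,0)]⟩,⟨0,[(4,0)]⟩⟩,⟨false,0,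
  ⟨0,[]⟩,⟨0,[]⟩⟩,⟨false,0,⟨0,[]⟩,⟨0,[]⟩⟩,[.a ⟨true,0,⟨0,[(29,0)]⟩,⟨0,[(1,0),(11,0)]⟩⟩ ⟨false,0,⟨0,
  [(33,0)]⟩,⟨1,[(30,0),(0,0)]⟩⟩ ⟨true,0,⟨0,[(5,0),(23,0)]⟩,⟨0,[(1,0)]⟩⟩,.o ⟨false,1,⟨1,[(21,0),(7,
  1),(1,0)]⟩,⟨0,[(28,0)]⟩⟩,.o ⟨false,1,⟨1,[(16,1),(4,0),(8,0)]⟩,⟨0,[(5,0)]⟩⟩,.e ⟨false,0,⟨0,[]⟩,⟨1,
  [(9,0),(0,0),(20,0)]⟩⟩ ⟨false,1,⟨0,[(0,0),(2,0)]⟩,⟨0,[(1,0)]⟩⟩]⟩) (.Q [0,0,2,0,-1,0,1,0,0,1,1]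
  (.p true [1,-1,1] [] (⟨0,[(19,0),(2,0)]⟩,⟨0,[(8,0)]⟩) .k 0 (⟨0,[]⟩,⟨0,[]⟩) .k .k) (.K ⟨0,[1,-1,1],
  (-1),0,(⟨0,[(20,0),(2,0)]⟩,⟨0,[(9,0)]⟩),.k,(.r (-2) ⟨1,[(5,1),(8,1),(7,0),(6,1),(1,0),(0,1)]⟩ ⟨0,
  [(1,0),(26,0),(1,1)]⟩),.k,.k,.k,[⟨1,[(22,0),(8,0)]⟩,⟨0,[(0,0)]⟩,⟨0,[(1,0),(12,0),(7,0),(7,0)]⟩,⟨2,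
  [(0,1),(4,2),(1,0),(23,1)]⟩]⟩) (.R ⟨0,false,false,true,[0,0,1],[1,-1,1],[1,1,1],(⟨0,[(20,0)]⟩,⟨0,
  [(19,0)]⟩),(⟨0,[(20,0),(2,0)]⟩,⟨0,[(9,0)]⟩),⟨0,[(9,0)]⟩,.k,.k,.k,.k,.k,.k,⟨true,(-1),⟨0,[(1,0),
  (26,0),(1,0)]⟩,⟨5,[(0,1),(4,5),(1,1),(23,0),(0,2)]⟩⟩,⟨false,0,⟨0,[(14,0),(2,0)]⟩,⟨1,[(22,0),(8,
  0)]⟩⟩,⟨true,(-1),⟨0,[(1,0)]⟩,⟨5,[(0,1),(6,1),(7,5),(15,0),(0,2)]⟩⟩,⟨false,0,⟨0,[(2,0),(11,0)]⟩,⟨1,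
  [(22,0),(7,1),(1,0)]⟩⟩,⟨false,0,⟨0,[]⟩,⟨0,[]⟩⟩,⟨false,0,⟨0,[]⟩,⟨0,[]⟩⟩,[.o ⟨false,0,⟨0,[(5,0)]⟩,
  ⟨1,[(4,1),(17,0),(9,0)]⟩⟩,.o ⟨false,1,⟨1,[(5,1),(4,0),(0,0),(20,0)]⟩,⟨0,[(0,0),(0,0),(26,0),(1,
  0)]⟩⟩,.o ⟨false,1,⟨1,[(17,1),(4,0),(8,0)]⟩,⟨0,[(6,0)]⟩⟩,.a ⟨true,0,⟨0,[(17,0)]⟩,⟨0,[(14,0)]⟩⟩
  ⟨false,0,⟨0,[]⟩,⟨1,[(10,0),(0,0),(20,0)]⟩⟩ ⟨true,0,⟨0,[(5,0),(8,0)]⟩,⟨1,[(1,1),(20,0),(7,1),(1,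
  0)]⟩⟩]⟩))) (.R ⟨0,false,false,false,[0,0,1],[0,1],[1,1,1],(⟨0,[(18,0)]⟩,⟨0,[(17,0)]⟩),(⟨0,[(22,
  0)]⟩,⟨0,[(21,0)]⟩),⟨0,[(7,0)]⟩,.k,.k,.k,.k,.k,.k,⟨true,0,⟨0,[(27,0)]⟩,⟨0,[(26,0),(1,0)]⟩⟩,⟨false,
  1,⟨1,[(12,1),(7,0),(8,0)]⟩,⟨0,[(15,0)]⟩⟩,⟨false,0,⟨0,[(1,0)]⟩,⟨0,[(0,0),(2,0),(26,0)]⟩⟩,⟨true,0,
  ⟨0,[(2,0)]⟩,⟨0,[(3,0)]⟩⟩,⟨false,0,⟨0,[]⟩,⟨0,[]⟩⟩,⟨false,0,⟨0,[]⟩,⟨0,[]⟩⟩,[.e ⟨false,0,⟨0,[(32,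
  0)]⟩,⟨1,[(29,0),(0,0)]⟩⟩ ⟨false,0,⟨0,[(0,0)]⟩,⟨1,[(15,1),(11,1),(1,0),(0,0)]⟩⟩,.o ⟨false,1,⟨1,
  [(20,0),(7,1),(1,0)]⟩,⟨0,[(27,0)]⟩⟩,.o ⟨false,1,⟨1,[(15,1),(4,0),(8,0)]⟩,⟨0,[(4,0)]⟩⟩,.a ⟨true,0,
  ⟨0,[(15,0)]⟩,⟨0,[(12,0)]⟩⟩ ⟨false,0,⟨0,[]⟩,⟨1,[(8,0),(0,0),(20,0)]⟩⟩ ⟨true,0,⟨0,[(0,0)]⟩,⟨0,[(15,
  0),(11,0)]⟩⟩]⟩)) (.R ⟨2,true,false,true,[0,1],[0,0,1],[0,0,1,1],(⟨0,[]⟩,⟨0,[]⟩),(⟨0,[(17,0)]⟩,⟨0,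
  [(16,0)]⟩),⟨0,[]⟩,.k,.k,.k,.k,.k,.k,⟨false,1,⟨1,[(1,1),(12,1),(13,0),(0,0)]⟩,⟨0,[(0,0),(25,0)]⟩⟩,
  ⟨true,0,⟨0,[(14,0)]⟩,⟨0,[(3,0)]⟩⟩,⟨false,1,⟨1,[(7,0),(0,0),(20,0)]⟩,⟨0,[]⟩⟩,⟨true,0,⟨0,[(2,0)]⟩,
  ⟨0,[(1,0)]⟩⟩,⟨true,0,⟨0,[(27,0)]⟩,⟨0,[(26,0)]⟩⟩,⟨false,0,⟨0,[(0,0),(13,0)]⟩,⟨0,[(13,0),(15,0)]⟩⟩,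
  []⟩)) (.Q [0,0,-1,1,0,0,-1,0,0,0,-1] (.p false [0,0,1] [] (⟨0,[(16,0)]⟩,⟨0,[(15,0)]⟩) .k 0 (⟨0,
  []⟩,⟨0,[]⟩) .k .k) (.R ⟨0,false,false,false,[0,0,1],[0,1],[1,1,1],(⟨0,[(17,0)]⟩,⟨0,[(16,0)]⟩),(⟨0,
  [(21,0)]⟩,⟨0,[(20,0)]⟩),⟨0,[(6,0)]⟩,.k,.k,.k,.k,.k,.k,⟨true,0,⟨0,[(26,0)]⟩,⟨0,[(25,0),(1,0)]⟩⟩,
  ⟨false,1,⟨1,[(11,1),(7,0),(8,0)]⟩,⟨0,[(14,0)]⟩⟩,⟨true,0,⟨0,[(13,0),(0,0)]⟩,⟨0,[(0,0),(0,0)]⟩⟩,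
  ⟨false,1,⟨0,[(13,0),(13,0),(1,0)]⟩,⟨0,[(1,0)]⟩⟩,⟨false,0,⟨0,[]⟩,⟨0,[]⟩⟩,⟨false,0,⟨0,[]⟩,⟨0,[]⟩⟩,
  [.e ⟨false,0,⟨0,[(31,0)]⟩,⟨1,[(28,0),(0,0)]⟩⟩ ⟨false,0,⟨0,[(0,0)]⟩,⟨1,[(14,1),(11,1),(1,0),(0,
  0)]⟩⟩,.o ⟨false,1,⟨1,[(19,0),(7,1),(1,0)]⟩,⟨0,[(26,0)]⟩⟩,.o ⟨false,1,⟨1,[(14,1),(4,0),(8,0)]⟩,⟨0,
  [(3,0)]⟩⟩,.a ⟨true,0,⟨0,[(14,0)]⟩,⟨0,[(11,0)]⟩⟩ ⟨false,0,⟨0,[]⟩,⟨1,[(7,0),(0,0),(20,0)]⟩⟩ ⟨true,0,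
  ⟨0,[(0,0)]⟩,⟨0,[(14,0),(11,0)]⟩⟩]⟩) (.Q [0,0,0,-1,0,0,-1,0,0,0,-1] (.p false [0,0,1] [] (⟨0,[(17,
  0)]⟩,⟨0,[(16,0)]⟩) .k 0 (⟨0,[]⟩,⟨0,[]⟩) .k .k) (.I [1,0,-1,-1,0,0,0,1] (.R ⟨0,false,false,false,
  [0,0,1],[0,1],[1,1,1],(⟨0,[(19,0)]⟩,⟨0,[(18,0)]⟩),(⟨0,[(23,0)]⟩,⟨0,[(22,0)]⟩),⟨0,[(8,0)]⟩,.k,.k,
  .k,.k,.k,.k,⟨true,0,⟨0,[(28,0)]⟩,⟨0,[(27,0),(1,0)]⟩⟩,⟨false,1,⟨1,[(13,1),(7,0),(8,0)]⟩,⟨0,[(16,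
  0)]⟩⟩,⟨true,0,⟨0,[(15,0),(0,0)]⟩,⟨0,[(0,0),(28,0)]⟩⟩,⟨false,1,⟨0,[(15,0),(13,0),(1,0)]⟩,⟨0,[(3,
  0)]⟩⟩,⟨false,0,⟨0,[]⟩,⟨0,[]⟩⟩,⟨false,0,⟨0,[]⟩,⟨0,[]⟩⟩,[.a ⟨true,0,⟨0,[(29,0)]⟩,⟨0,[(2,0),(10,
  0)]⟩⟩ ⟨false,0,⟨0,[(33,0)]⟩,⟨1,[(30,0),(0,0)]⟩⟩ ⟨true,0,⟨0,[(5,0),(23,0)]⟩,⟨0,[(2,0)]⟩⟩,.o ⟨false,
  1,⟨1,[(21,0),(7,1),(1,0)]⟩,⟨0,[(28,0)]⟩⟩,.o ⟨false,1,⟨1,[(16,1),(4,0),(8,0)]⟩,⟨0,[(5,0)]⟩⟩,.e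
  ⟨false,0,⟨0,[]⟩,⟨1,[(9,0),(0,0),(20,0)]⟩⟩ ⟨false,1,⟨1,[(13,1),(7,0),(7,1),(1,0)]⟩,⟨0,[(2,0)]⟩⟩]⟩)
  (.R ⟨0,false,false,false,[0,1,-1],[0,1],[1,1,1],(⟨0,[(8,0)]⟩,⟨0,[(19,0),(2,0)]⟩),(⟨0,[(23,0)]⟩,⟨0,
  [(22,0)]⟩),⟨0,[(19,0)]⟩,.k,.k,.k,.k,.k,.k,⟨true,0,⟨0,[(28,0)]⟩,⟨0,[(27,0),(1,0)]⟩⟩,⟨false,1,⟨0,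
  [(16,0),(13,0)]⟩,⟨0,[(5,0)]⟩⟩,⟨false,0,⟨0,[(3,0),(1,0)]⟩,⟨1,[(0,1),(29,0),(0,0)]⟩⟩,⟨true,0,⟨0,[(3,
  0),(25,0)]⟩,⟨0,[(15,0)]⟩⟩,⟨false,0,⟨0,[]⟩,⟨0,[]⟩⟩,⟨false,0,⟨0,[]⟩,⟨0,[]⟩⟩,[.a ⟨true,0,⟨0,[(29,
  0)]⟩,⟨0,[(2,0),(10,0)]⟩⟩ ⟨false,0,⟨0,[(33,0)]⟩,⟨1,[(30,0),(0,0)]⟩⟩ ⟨true,0,⟨0,[(16,0),(12,0)]⟩,⟨0,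
  [(1,0)]⟩⟩,.o ⟨false,1,⟨1,[(21,0),(7,1),(1,0)]⟩,⟨0,[(28,0)]⟩⟩,.o ⟨false,1,⟨0,[(13,0),(7,0)]⟩,⟨0,
  [(16,0)]⟩⟩,.e ⟨false,0,⟨0,[]⟩,⟨1,[(9,0),(0,0),(20,0)]⟩⟩ ⟨false,1,⟨1,[(16,1),(12,1),(0,0),(0,0)]⟩,
  ⟨0,[(1,0)]⟩⟩]⟩)) (.R ⟨0,false,false,false,[0,1,-1],[0,1],[1,1,1],(⟨0,[(7,0)]⟩,⟨0,[(18,0),(2,0)]⟩),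
  (⟨0,[(22,0)]⟩,⟨0,[(21,0)]⟩),⟨0,[(18,0)]⟩,.k,.k,.k,.k,.k,.k,⟨true,0,⟨0,[(27,0)]⟩,⟨0,[(26,0),(1,
  0)]⟩⟩,⟨false,1,⟨0,[(15,0),(13,0)]⟩,⟨0,[(4,0)]⟩⟩,⟨false,0,⟨0,[(2,0),(1,0)]⟩,⟨0,[(0,0),(13,0),(15,
  0)]⟩⟩,⟨true,0,⟨0,[(2,0),(25,0)]⟩,⟨0,[(14,0)]⟩⟩,⟨false,0,⟨0,[]⟩,⟨0,[]⟩⟩,⟨false,0,⟨0,[]⟩,⟨0,[]⟩⟩,
  [.e ⟨false,0,⟨0,[(32,0)]⟩,⟨1,[(29,0),(0,0)]⟩⟩ ⟨false,0,⟨0,[(0,0)]⟩,⟨1,[(12,1),(7,0),(6,1),(2,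
  0)]⟩⟩,.o ⟨false,1,⟨1,[(20,0),(7,1),(1,0)]⟩,⟨0,[(27,0)]⟩⟩,.o ⟨false,1,⟨0,[(12,0),(7,0)]⟩,⟨0,[(15,
  0)]⟩⟩,.a ⟨true,0,⟨0,[(4,0)]⟩,⟨0,[(0,0),(0,0),(10,0)]⟩⟩ ⟨false,0,⟨0,[]⟩,⟨1,[(8,0),(0,0),(20,0)]⟩⟩
  ⟨true,0,⟨0,[(0,0)]⟩,⟨0,[(4,0),(22,0)]⟩⟩]⟩))))) (.I [0,0,0,0,0,0,0,-1] (.Q [0,1,0,0,-1,0,-1,-1,0,1,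
  -1] (.p false [0,0,1] [1] (⟨0,[(15,0)]⟩,⟨0,[(14,0)]⟩) .k 1 (⟨0,[]⟩,⟨0,[]⟩) .k .k) (.I [1,0,-2,-2,
  1] (.R ⟨0,false,false,true,[0,1,-1],[0,1],[1,0,1],(⟨0,[(6,0)]⟩,⟨0,[(17,0),(2,0)]⟩),(⟨0,[(21,0)]⟩,
  ⟨0,[(20,0)]⟩),⟨0,[(17,0)]⟩,.k,.k,.k,.k,.k,.k,⟨false,1,⟨1,[(0,0),(28,0)]⟩,⟨0,[(27,0),(3,0)]⟩⟩,
  ⟨true,0,⟨0,[(3,0)]⟩,⟨0,[(15,0)]⟩⟩,⟨false,1,⟨1,[(0,0),(10,1),(0,1),(6,0),(5,3)]⟩,⟨0,[(2,0),(24,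
  0)]⟩⟩,⟨true,0,⟨0,[(12,0)]⟩,⟨1,[(1,1),(17,0),(9,0)]⟩⟩,⟨false,0,⟨0,[]⟩,⟨0,[]⟩⟩,⟨false,0,⟨0,[]⟩,⟨0,
  []⟩⟩,[.e ⟨false,0,⟨0,[]⟩,⟨1,[(7,0),(0,0),(19,0)]⟩⟩ ⟨false,0,⟨1,[(3,0),(10,0),(9,0),(2,1)]⟩,⟨1,[(0,
  0),(10,1),(7,0),(5,1)]⟩⟩,.a ⟨true,0,⟨0,[(27,0)]⟩,⟨1,[(0,0),(0,0),(9,0),(0,0),(1,0),(10,1)]⟩⟩
  ⟨true,0,⟨0,[(25,0)]⟩,⟨0,[(31,0)]⟩⟩ ⟨false,0,⟨0,[(3,0),(23,0)]⟩,⟨3,[(0,1),(3,1),(2,0),(0,0),(10,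
  0)]⟩⟩,.o ⟨false,1,⟨0,[(11,0),(7,0)]⟩,⟨0,[(14,0)]⟩⟩,.o ⟨false,1,⟨3,[(4,1),(2,0),(0,0),(10,2)]⟩,⟨0,
  [(3,0)]⟩⟩]⟩) (.I [1,1,1,1,-1] (.Q [0,0,0,2,0,0,0,0,0,-1] (.pp true [-1,1]) (.R ⟨2,true,false,
  false,[0,1],[1,-1],[1,1,1],(⟨0,[]⟩,⟨0,[]⟩),(⟨0,[(22,0)]⟩,⟨0,[(23,0)]⟩),⟨0,[]⟩,.k,.k,.k,(.r 1 ⟨0,
  [(2,0)]⟩ ⟨0,[(28,1),(1,0),(0,0)]⟩),.k,.k,⟨false,(-1),⟨0,[(1,0)]⟩,⟨0,[(28,0),(1,0),(0,0)]⟩⟩,⟨true,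
  (-1),⟨0,[(3,0),(10,0),(12,1)]⟩,⟨1,[(21,0),(8,0)]⟩⟩,⟨true,0,⟨0,[(28,0)]⟩,⟨0,[(29,0)]⟩⟩,⟨false,1,⟨0,
  [(5,0),(7,0),(13,0),(0,1),(2,0)]⟩,⟨0,[(0,0)]⟩⟩,⟨false,0,⟨0,[]⟩,⟨1,[(9,0),(0,0),(20,0)]⟩⟩,⟨true,0,
  ⟨0,[(5,0),(7,0),(13,0),(0,0)]⟩,⟨2,[(0,0),(0,0),(19,0),(4,0)]⟩⟩,[]⟩) (.K ⟨0,[1,-1,1],(-1),0,(⟨0,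
  [(19,0),(2,0)]⟩,⟨0,[(8,0)]⟩),.k,(.r (-2) ⟨1,[(0,1),(12,1),(0,1),(6,1),(8,0),(0,0)]⟩ ⟨0,[(2,0),(1,
  0)]⟩),.k,.k,.k,[⟨1,[(21,0),(8,0)]⟩,⟨0,[(0,0),(1,0),(2,0)]⟩,⟨0,[(3,0),(17,0),(7,0)]⟩,⟨1,[(0,0),(12,
  0),(0,1),(1,0)]⟩]⟩)) (.K ⟨0,[1,-1,1],(-1),0,(⟨0,[(18,0),(2,0)]⟩,⟨0,[(7,0)]⟩),.k,(.r (-2) ⟨3,[(0,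
  6),(4,1),(7,3),(6,0),(4,0),(1,0)]⟩ ⟨0,[(1,0),(1,0)]⟩),.k,.k,.k,[⟨1,[(20,0),(8,0)]⟩,⟨0,[(2,0),(1,
  0),(8,0),(12,1)]⟩,⟨0,[(2,0),(17,0),(7,0)]⟩,⟨0,[(0,0),(1,0),(10,1),(12,0)]⟩]⟩))) (.Q [0,0,0,0,0,0,
  -1,-1,0,0,-1] (.p false [0,0,1] [] (⟨0,[(16,0)]⟩,⟨0,[(15,0)]⟩) .k 0 (⟨0,[]⟩,⟨0,[]⟩) .k .k) (.I [0,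
  0,-2,-2,1,0,0,-1] (.Q [0,-1,-1,-1,1,0,-1,0,0,0,-1] (.p false [0,0,1] [] (⟨0,[(18,0)]⟩,⟨0,[(17,
  0)]⟩) .k 0 (⟨0,[]⟩,⟨0,[]⟩) .k .k) (.R ⟨0,false,false,true,[0,1,-1],[0,1],[1,0,1],(⟨0,[(8,0)]⟩,⟨0,
  [(19,0),(2,0)]⟩),(⟨0,[(23,0)]⟩,⟨0,[(22,0)]⟩),⟨0,[(19,0)]⟩,.k,.k,.k,.k,.k,.k,⟨false,1,⟨1,[(1,0),(1,
  0),(9,0),(13,0)]⟩,⟨0,[(29,0),(3,0)]⟩⟩,⟨true,0,⟨0,[(5,0)]⟩,⟨0,[(17,0)]⟩⟩,⟨false,1,⟨0,[(0,0),(13,0),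
  (12,0)]⟩,⟨0,[(4,0),(24,0)]⟩⟩,⟨true,0,⟨0,[(14,0)]⟩,⟨0,[(2,0)]⟩⟩,⟨false,0,⟨0,[]⟩,⟨0,[]⟩⟩,⟨false,0,
  ⟨0,[]⟩,⟨0,[]⟩⟩,[.e ⟨false,0,⟨0,[]⟩,⟨1,[(9,0),(0,0),(19,0)]⟩⟩ ⟨false,0,⟨1,[(5,0),(10,0),(9,0),(2,
  1)]⟩,⟨0,[(0,0)]⟩⟩,.a ⟨true,0,⟨0,[(29,0)]⟩,⟨0,[(5,0),(7,0),(13,0),(0,0)]⟩⟩ ⟨true,0,⟨0,[(27,0)]⟩,⟨0,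
  [(33,0)]⟩⟩ ⟨false,0,⟨0,[(5,0),(23,0)]⟩,⟨15,[(0,11),(5,1),(2,2),(0,2),(10,0),(4,3),(1,3)]⟩⟩,.o
  ⟨false,1,⟨0,[(13,0),(7,0)]⟩,⟨0,[(16,0)]⟩⟩,.o ⟨false,1,⟨3,[(6,1),(2,0),(0,0),(10,2)]⟩,⟨0,[(5,
  0)]⟩⟩]⟩) (.R ⟨0,false,false,true,[0,1,-1],[0,1],[1,0,1],(⟨0,[(8,0)]⟩,⟨0,[(19,0),(2,0)]⟩),(⟨0,[(23,
  0)]⟩,⟨0,[(22,0)]⟩),⟨0,[(19,0)]⟩,.k,.k,.k,.k,.k,.k,⟨false,1,⟨1,[(1,0),(1,0),(9,0),(13,0)]⟩,⟨0,[(29,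
  0),(3,0)]⟩⟩,⟨true,0,⟨0,[(5,0)]⟩,⟨0,[(17,0)]⟩⟩,⟨false,1,⟨0,[(3,0),(9,0),(13,0),(0,0)]⟩,⟨0,[(4,0),
  (24,0)]⟩⟩,⟨true,0,⟨0,[(14,0)]⟩,⟨0,[(2,0)]⟩⟩,⟨false,0,⟨0,[]⟩,⟨0,[]⟩⟩,⟨false,0,⟨0,[]⟩,⟨0,[]⟩⟩,[.o
  ⟨false,0,⟨0,[(0,0),(12,0),(7,0)]⟩,⟨0,[(28,0),(2,0)]⟩⟩,.a ⟨true,0,⟨0,[(29,0)]⟩,⟨0,[(5,0),(7,0),(13,
  0),(0,0)]⟩⟩ ⟨true,0,⟨0,[(27,0)]⟩,⟨0,[(33,0)]⟩⟩ ⟨false,0,⟨0,[(5,0),(23,0)]⟩,⟨6,[(1,2),(1,2),(2,4),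
  (14,0),(4,0),(1,0)]⟩⟩,.o ⟨false,1,⟨0,[(13,0),(7,0)]⟩,⟨0,[(16,0)]⟩⟩,.o ⟨false,1,⟨3,[(6,1),(2,0),(0,
  0),(10,2)]⟩,⟨0,[(5,0)]⟩⟩]⟩)) (.I [0,0,-1,-2,1,0,0,1] (.R ⟨0,false,false,true,[0,0,1],[1,-1],[1],
  (⟨0,[(19,0)]⟩,⟨0,[(18,0)]⟩),(⟨0,[(22,0)]⟩,⟨0,[(23,0)]⟩),⟨0,[(8,0)]⟩,.k,.k,.k,.k,.k,.k,⟨true,0,⟨1,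
  [(1,0),(2,0),(26,0)]⟩,⟨0,[(28,0)]⟩⟩,⟨false,0,⟨1,[(6,0),(6,0),(2,0)]⟩,⟨1,[(5,1),(15,0),(8,0)]⟩⟩,
  ⟨true,0,⟨0,[(4,0)]⟩,⟨1,[(0,0),(0,0),(24,0)]⟩⟩,⟨false,0,⟨0,[(4,0),(8,0),(13,0),(0,0)]⟩,⟨0,[(3,0),
  (25,0)]⟩⟩,⟨false,0,⟨0,[]⟩,⟨0,[]⟩⟩,⟨false,0,⟨0,[]⟩,⟨0,[]⟩⟩,[.o ⟨false,0,⟨0,[(28,0)]⟩,⟨1,[(21,0),(7,
  1),(1,0)]⟩⟩,.a ⟨true,0,⟨0,[(5,0),(7,0),(13,0),(0,0)]⟩,⟨0,[(29,0)]⟩⟩ ⟨false,1,⟨1,[(30,0),(0,0)]⟩,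
  ⟨0,[(33,0)]⟩⟩ ⟨true,0,⟨0,[(13,0),(13,0),(0,0)]⟩,⟨1,[(1,0),(2,0),(0,1),(15,0)]⟩⟩,.a ⟨true,0,⟨0,[(5,
  0)]⟩,⟨1,[(6,0),(6,0),(2,0)]⟩⟩ ⟨true,0,⟨0,[]⟩,⟨0,[(33,0)]⟩⟩ ⟨false,0,⟨0,[(13,0),(13,0),(0,0)]⟩,⟨0,
  [(3,0),(0,0),(24,0)]⟩⟩,.a ⟨true,0,⟨0,[(16,0)]⟩,⟨0,[(13,0)]⟩⟩ ⟨false,1,⟨1,[(30,0),(0,0)]⟩,⟨1,[(16,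
  0),(0,0)]⟩⟩ ⟨true,0,⟨0,[(13,0),(14,0)]⟩,⟨1,[(1,0),(2,0),(0,1),(15,0)]⟩⟩]⟩) (.Q [0,0,2,0,-1,0,1,0,
  0,1,1] (.p true [1,-1,1] [] (⟨0,[(19,0),(2,0)]⟩,⟨0,[(8,0)]⟩) .k 0 (⟨0,[]⟩,⟨0,[]⟩) .k .k) (.K ⟨0,
  [1,-1,1],(-1),0,(⟨0,[(20,0),(2,0)]⟩,⟨0,[(9,0)]⟩),.k,(.r (-2) ⟨1,[(4,1),(9,1),(14,3),(1,0),(0,0)]⟩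
  ⟨1,[(1,1),(15,0),(0,0)]⟩),.k,.k,.k,[⟨1,[(22,0),(8,0)]⟩,⟨0,[(0,0)]⟩,⟨0,[(1,0),(12,0),(7,0),(6,0)]⟩,
  ⟨1,[(0,0),(3,0),(1,0),(7,1),(0,0),(13,1)]⟩]⟩) (.R ⟨2,true,false,false,[0,1],[1,0,-1],[1,0,1],(⟨0,
  []⟩,⟨0,[]⟩),(⟨0,[(19,0)]⟩,⟨0,[(20,0)]⟩),⟨0,[]⟩,.k,.k,.k,.k,.k,.k,⟨true,0,⟨1,[(2,0),(1,0),(9,0),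
  (13,0),(0,1)]⟩,⟨0,[(5,0)]⟩⟩,⟨false,0,⟨1,[(7,0),(6,0),(2,0)]⟩,⟨1,[(6,1),(15,0),(8,0)]⟩⟩,⟨false,1,
  ⟨0,[(29,0),(2,0)]⟩,⟨0,[(30,0)]⟩⟩,⟨true,0,⟨0,[(5,0),(8,0),(13,0),(0,0)]⟩,⟨0,[(0,0),(1,0),(3,1),(22,
  0)]⟩⟩,⟨true,0,⟨0,[]⟩,⟨0,[(34,0)]⟩⟩,⟨false,0,⟨0,[(5,0),(8,0),(13,0)]⟩,⟨3,[(4,1),(5,0),(0,0),(3,1),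
  (6,0)]⟩⟩,[]⟩)))) (.R ⟨0,false,false,false,[0,1,-1],[0,1],[0,1],(⟨0,[(6,0)]⟩,⟨0,[(17,0),(2,0)]⟩),
  (⟨0,[(21,0)]⟩,⟨0,[(20,0)]⟩),⟨0,[(17,0)]⟩,.k,.k,.k,.k,.k,.k,⟨false,1,⟨0,[(26,0),(1,0)]⟩,⟨0,[(25,0),
  (1,0)]⟩⟩,⟨true,0,⟨0,[(3,0)]⟩,⟨0,[(15,0)]⟩⟩,⟨false,1,⟨0,[(1,0),(9,0),(14,0)]⟩,⟨0,[(2,0),(22,0),(1,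
  0)]⟩⟩,⟨true,0,⟨0,[(0,0)]⟩,⟨0,[(13,0)]⟩⟩,⟨false,0,⟨0,[]⟩,⟨0,[]⟩⟩,⟨false,0,⟨0,[]⟩,⟨0,[]⟩⟩,[.a ⟨true,
  0,⟨0,[(27,0)]⟩,⟨0,[(3,0),(7,0),(13,0),(0,0)]⟩⟩ ⟨true,0,⟨0,[(31,0)]⟩,⟨0,[(25,0)]⟩⟩ ⟨false,0,⟨0,[(3,
  0),(23,0)]⟩,⟨1,[(11,1),(7,0),(6,1),(2,0)]⟩⟩,.o ⟨false,1,⟨1,[(19,0),(7,1),(1,0)]⟩,⟨0,[(26,0)]⟩⟩,.o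
  ⟨false,1,⟨0,[(11,0),(7,0)]⟩,⟨0,[(14,0)]⟩⟩,.o ⟨false,1,⟨3,[(4,1),(2,0),(0,0),(10,2)]⟩,⟨0,[(3,
  0)]⟩⟩]⟩))) (.R ⟨0,false,false,true,[0,1,-1],[1,0,-1],[0,1,1,0,0,0,0,-1],(⟨0,[(4,0)]⟩,⟨0,[(15,0),
  (2,0)]⟩),(⟨0,[(14,0)]⟩,⟨0,[(15,0)]⟩),⟨0,[(15,0)]⟩,.k,.k,.k,.k,.k,.k,⟨true,0,⟨1,[(12,0),(0,0)]⟩,⟨0,
  []⟩⟩,⟨false,0,⟨0,[(9,0),(2,0)]⟩,⟨1,[(17,0),(8,0)]⟩⟩,⟨true,0,⟨0,[(24,0)]⟩,⟨0,[(25,0)]⟩⟩,⟨false,0,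
  ⟨0,[(1,0),(7,0),(13,0),(0,0)]⟩,⟨1,[(17,0),(7,1),(1,0)]⟩⟩,⟨false,0,⟨0,[]⟩,⟨0,[]⟩⟩,⟨false,0,⟨0,[]⟩,
  ⟨0,[]⟩⟩,[.o ⟨false,0,⟨0,[(11,0)]⟩,⟨1,[(0,1),(0,1),(15,0),(9,0)]⟩⟩,.a ⟨true,0,⟨0,[(1,0),(7,0),(1,
  0),(11,0)]⟩,⟨0,[(0,0),(0,0)]⟩⟩ ⟨true,0,⟨0,[(1,0),(9,0),(11,0)]⟩,⟨0,[(0,0)]⟩⟩ ⟨false,0,⟨0,[(1,1),
  (7,0),(1,0),(11,0)]⟩,⟨1,[(0,1),(16,0),(8,0)]⟩⟩,.o ⟨false,1,⟨0,[(9,0),(7,0)]⟩,⟨0,[(12,0)]⟩⟩,.o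
  ⟨false,1,⟨3,[(2,1),(2,0),(0,0),(10,2)]⟩,⟨0,[(1,0)]⟩⟩]⟩)))

theorem ok0 : chk K t0 base = true := by decide +kernel

theorem closed {p a b c J l q : ℤ} {D dl : ℝ} {Cl : ℤ → ℤ → ℤ → ℤ → ℝ → Prop}
    (W : World p a b c J 1 l q D dl Cl) (g : G0 p a b c J D)
    {N X R : ℤ} {I : ℝ} (hk : KCl p l Cl N X R I) (kz : KF a b D (X + (1 : ℤ) * I) (X + (1 : ℤ) * I + R) I)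
    {Ne Xe : ℤ} {Ie : ℝ} (he : EFac p 1 D Cl 1 Ne Xe Ie)
    (hkf : ∀ kf ∈ (kfY 1 [0,0,0,0,0,0,1,0,0,0,1]), KOk p l Cl 1
      (xv [1, a, b, c, p, J, X, R, Xe] [D, I, Ie]) N kf)
    (h0 : 1 ≤ (c : ℝ))
    (h1 : 1 ≤ 1 - (a : ℝ) + (b : ℝ))
    (h2 : 1 ≤ 2 * (a : ℝ) - (b : ℝ))
    (h3 : 0 < -3 + (p : ℝ) - 2 * D)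
    (h4 : 1 ≤ 2 * (a : ℝ) - (b : ℝ))
    (h5 : 1 ≤ -2 + (J : ℝ))
    (h6 : 0 < -(b : ℝ) - (X : ℝ) + D - I)
    (h7 : 0 < (J : ℝ) - I)
    (h8 : 0 < (J : ℝ) - D + I)
    (h9 : 0 < -2 * (X : ℝ) + D - 2 * I) : False := by
  have g1 := g.a2
  have g2 := g.b2
  have g3 := g.pa
  have g4 := g.pb
  have g5 := g.J1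
  have g6 := g.JD
  have g7 := g.D2
  have g8 := g.ca
  have g9 := g.ca'
  have k1 := kz.I0
  have k2 := kz.ID
  have k3 := kz.z1
  have k4 := kz.z2
  have k5 := kz.s1
  have k6 := kz.s2
  have e1 := he.I0
  have e2 := he.ID
  have e3 := he.x0
  have e4 := he.xp
  push_cast at *
  refine (val_E W.toBase hk he (row := [1]) (by simp) (by simp) (kfY 1 [0,0,0,0,0,0,1,0,0,0,1])).sound W rfl (Nk := N)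
    (fun kf _ _ => ⟨_, rfl⟩) hkf ?_ ok0
  · simp only [base, List.forall_mem_cons, List.not_mem_nil, false_imp_iff, implies_true,
      and_true, hld, xv, evg_cons, evg_nil, List.map_cons, List.map_nil, List.cons_append,
      List.nil_append, if_true, if_false, Bool.false_eq_true]
    push_cast
    refine ⟨?_, ?_, ?_, ?_, ?_, ?_, ?_, ?_, ?_, ?_, ?_, ?_, ?_, ?_, ?_, ?_, ?_, ?_, ?_, ?_, ?_, ?_, ?_, ?_, ?_, ?_, ?_, ?_⟩ <;> linarith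

end Helper48.Y.Y11_c35_P4_m0n0

namespace Helper48.Y.Y11_c35_P4_m1n1_K2

open Helper25.KG Helper25.KW Helper55.KE Helper11.CT

noncomputable def K : Cls :=
  cE 1 [1] (kfY 1 [0,0,0,0,0,0,1,0,0,0,1])

noncomputable def base : List Con :=
  [(false,[0,0,0,0,0,0,-2,0,0,1,-2]),
  (false,[0,0,0,0,0,-1,0,0,0,1,-1]),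
  (false,[0,0,0,0,0,-1,0,0,0,0,1]),
  (false,[0,0,0,0,1,0,0,0,-1,0,0,-1]),
  (false,[0,0,0,0,0,0,0,0,1,0,0,1]),
  (false,[0,0,0,0,0,0,0,0,0,1,0,-1]),
  (false,[0,0,0,0,0,0,0,0,0,0,0,1]),
  (false,[0,0,-1,0,0,0,-1,0,0,1,-1]),
  (false,[0,1,0,0,0,0,1,1,0,0,1]),
  (false,[0,1,0,0,0,0,-1,-1,0,0,-1]),
  (false,[0,0,1,0,0,0,1,0,0,0,1]),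
  (false,[0,0,1,0,0,0,-1,0,0,0,-1]),
  (false,[0,0,0,0,0,0,0,0,0,1,-1]),
  (false,[0,0,0,0,0,0,0,0,0,0,1]),
  (true,[-1,0,0,1]),
  (true,[-2,0,0,0,0,1]),
  (false,[0,0,0,0,1,0,0,0,0,-2]),
  (false,[0,0,0,0,0,-1,0,0,0,1]),
  (true,[0,0,0,0,0,1]),
  (true,[0,2,-1]),
  (true,[2,2,0,0,-1]),
  (true,[0,-2,0,0,1]),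
  (true,[1,-1,1]),
  (true,[1,1,-1]),
  (false,[-3,0,0,0,1,0,0,0,0,-2]),
  (true,[0,2,-1]),
  (true,[1,-1,1]),
  (true,[0,1,0,-1]),
  (true,[0,0,0,1]),
  (true,[0,0,-2,0,1]),
  (true,[0,-2,0,0,1]),
  (true,[-1,0,1]),
  (true,[-1,1])]

noncomputable def t0 : Tre :=
  (.Q [-1,0,0,1,0,0,0,0,-1,0,0,-1] (.p false [0,0,0,0,1] [] (⟨0,[(6,0)]⟩,⟨0,[(5,0)]⟩) .k 0 (⟨0,[]⟩,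
  ⟨0,[]⟩) .k .k) (.R ⟨2,true,false,true,[0,1],[0,0,0,0,1],[2,1],(⟨0,[]⟩,⟨0,[]⟩),(⟨0,[(7,0)]⟩,⟨0,[(6,
  0)]⟩),⟨0,[]⟩,.k,.k,.k,(.r 0 ⟨1,[(11,0),(0,0),(16,1)]⟩ ⟨1,[(28,1),(1,0),(0,0)]⟩),.k,.k,⟨true,0,⟨0,
  []⟩,⟨1,[(11,0),(0,0)]⟩⟩,⟨false,0,⟨0,[(5,0)]⟩,⟨1,[(0,1),(27,1),(1,0),(0,0)]⟩⟩,⟨false,1,⟨1,[(28,1),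
  (1,0),(0,0)]⟩,⟨0,[(15,0),(11,0)]⟩⟩,⟨true,0,⟨0,[(5,0),(22,0)]⟩,⟨0,[(0,0)]⟩⟩,⟨true,0,⟨0,[(24,0)]⟩,
  ⟨0,[(32,0)]⟩⟩,⟨false,0,⟨0,[(5,0)]⟩,⟨0,[(0,0),(27,0),(2,0)]⟩⟩,[]⟩) (.Q [1,0,0,0,-1,0,0,0,1,0,0,1]
  (.p true [0,0,0,0,1] [] (⟨0,[(7,0)]⟩,⟨0,[(6,0)]⟩) .k 0 (⟨0,[]⟩,⟨0,[]⟩) .k .k) (.R ⟨2,true,false,
  true,[0,1],[0,0,0,0,1],[1,1],(⟨0,[]⟩,⟨0,[]⟩),(⟨0,[(8,0)]⟩,⟨0,[(7,0)]⟩),⟨0,[]⟩,.k,.k,.k,(.r 0 ⟨1,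
  [(12,0),(0,0),(16,1)]⟩ ⟨1,[(29,1),(1,0),(0,0)]⟩),.k,.k,⟨false,1,⟨1,[(5,0),(0,0),(24,0)]⟩,⟨0,[]⟩⟩,
  ⟨true,(-1),⟨3,[(0,3),(11,0),(0,0),(19,1)]⟩,⟨0,[(5,0)]⟩⟩,⟨false,1,⟨1,[(29,1),(1,0),(0,0)]⟩,⟨0,[(24,
  0),(5,0)]⟩⟩,⟨true,(-1),⟨0,[(0,0),(28,0)]⟩,⟨0,[(5,0),(24,0)]⟩⟩,⟨true,0,⟨0,[(25,0)]⟩,⟨1,[(12,0),(0,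
  0)]⟩⟩,⟨false,(-1),⟨0,[(0,0)]⟩,⟨4,[(5,6),(0,1),(25,2),(1,0)]⟩⟩,[]⟩) (.Q [1,0,0,0,0,0,0,0,1,-1,0,1]
  (.p true [0,0,0,0,1] [1] (⟨0,[(8,0)]⟩,⟨0,[(7,0)]⟩) .k 1 (⟨0,[]⟩,⟨0,[]⟩) .k .k) (.Q [0,-1,0,3,0,0,
  0,0,0,-1] (.pp true [-1,1]) (.Q [0,0,0,1,0,0,0,0,0,-1] (.pp true [-1,1]) (.S ⟨1,0,[0,1,-1,-1],[1,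
  -1],[0,0,-1,-1],(⟨0,[(22,0)]⟩,⟨0,[(23,0)]⟩),⟨0,[(6,0),(0,0)]⟩,.k,(.r (-2) ⟨0,[(32,1),(1,0),(0,
  0)]⟩ ⟨2,[(1,1),(3,0),(9,1),(4,0),(1,0),(2,2),(1,3)]⟩),⟨false,1,⟨1,[(8,0),(0,0),(25,0)]⟩,⟨0,[]⟩⟩,
  ⟨true,0,⟨0,[(37,0)]⟩,⟨0,[]⟩⟩,⟨true,0,⟨0,[(33,0)]⟩,⟨0,[(32,0)]⟩⟩,⟨false,0,⟨0,[(33,0)]⟩,⟨0,[(32,0),
  (2,0)]⟩⟩,[.o ⟨false,0,⟨0,[(32,0)]⟩,⟨2,[(1,0),(6,0),(0,0),(11,0),(13,0)]⟩⟩,.o ⟨false,1,⟨0,[(3,0),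
  (0,0)]⟩,⟨0,[(0,0)]⟩⟩,.o ⟨false,0,⟨1,[(15,0),(0,0)]⟩,⟨1,[(21,0),(12,0)]⟩⟩,.a ⟨true,(-1),⟨2,[(12,1),
  (2,1),(4,0),(1,0),(2,2),(1,5)]⟩,⟨0,[(34,0)]⟩⟩ ⟨false,2,⟨0,[(32,0),(1,0),(0,0)]⟩,⟨5,[(1,1),(3,0),
  (6,0),(2,2),(9,5),(1,9)]⟩⟩ ⟨true,1,⟨0,[(32,0),(1,0)]⟩,⟨5,[(1,1),(3,0),(6,0),(2,2),(9,5),(1,
  9)]⟩⟩]⟩) (.R ⟨2,true,false,false,[0,1],[1,-1],[1,1,1],(⟨0,[]⟩,⟨0,[]⟩),(⟨0,[(22,0)]⟩,⟨0,[(23,0)]⟩),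
  ⟨0,[]⟩,.k,.k,.k,(.r 1 ⟨2,[(1,1),(3,0),(9,1),(4,0),(1,0),(2,2),(1,3)]⟩ ⟨0,[(32,1),(1,0),(0,0)]⟩),
  .k,.k,⟨false,(-1),⟨4,[(0,0),(0,1),(3,0),(9,1),(9,4),(1,2)]⟩,⟨0,[(32,0),(1,0),(0,0)]⟩⟩,⟨true,(-1),
  ⟨14,[(0,11),(0,3),(3,1),(9,3),(4,4),(1,4),(2,14),(1,25)]⟩,⟨1,[(21,0),(12,0)]⟩⟩,⟨true,0,⟨0,[(32,
  0)]⟩,⟨0,[(33,0)]⟩⟩,⟨false,1,⟨0,[(0,0),(31,0),(2,0)]⟩,⟨5,[(1,3),(19,0),(3,0),(11,1)]⟩⟩,⟨false,0,⟨0,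
  []⟩,⟨1,[(8,0),(0,0),(25,0)]⟩⟩,⟨true,0,⟨0,[(0,0)]⟩,⟨2,[(1,0),(19,0),(3,0),(11,1)]⟩⟩,[]⟩)) (.Q [0,0,
  0,0,0,-1,0,0,0,0,0,1] (.ed false [1,-1,0,0,1] .k) (.Q [0,0,1,0,-1,0,0,0,1,0,0,1] (.p true [0,0,0,
  0,1] [] (⟨0,[(11,0)]⟩,⟨0,[(10,0)]⟩) .k 0 (⟨0,[]⟩,⟨0,[]⟩) .k .k) (.Q [0,0,-1,0,1,0,0,0,-1,1,0,-1]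
  (.p false [0,0,0,0,1] [1] (⟨0,[(12,0)]⟩,⟨0,[(11,0)]⟩) .k 1 (⟨0,[]⟩,⟨0,[]⟩) .k .k) (.S ⟨1,0,[1,1],
  [0,0,0,0,1],[1,1,1],(⟨0,[(13,0)]⟩,⟨0,[(12,0)]⟩),⟨0,[(2,0)]⟩,.k,(.r (-1) ⟨11,[(0,1),(2,3),(7,1),
  (11,2),(12,4),(0,1)]⟩ ⟨1,[(17,0),(0,0),(16,1)]⟩),⟨false,0,⟨1,[(17,0),(0,0)]⟩,⟨1,[(36,0),(0,0)]⟩⟩,
  ⟨true,0,⟨0,[(39,0)]⟩,⟨0,[]⟩⟩,⟨true,(-1),⟨0,[(21,0),(5,0),(5,0)]⟩,⟨11,[(0,1),(2,3),(7,1),(11,2),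
  (12,4),(0,1)]⟩⟩,⟨false,0,⟨0,[(35,0)]⟩,⟨5,[(3,1),(6,0),(0,0),(11,0),(13,3)]⟩⟩,[.e ⟨false,0,⟨0,[(39,
  0)]⟩,⟨1,[(36,0),(0,0)]⟩⟩ ⟨false,0,⟨0,[(30,0)]⟩,⟨1,[(10,0),(0,0),(25,0)]⟩⟩,.o ⟨false,0,⟨0,[(4,0)]⟩,
  ⟨0,[(5,0)]⟩⟩,.o ⟨false,0,⟨5,[(1,1),(2,3),(26,0),(4,0)]⟩,⟨0,[(10,0)]⟩⟩,.a ⟨true,(-1),⟨0,[(1,0)]⟩,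
  ⟨0,[(0,0)]⟩⟩ ⟨false,0,⟨0,[]⟩,⟨1,[(10,0),(0,0),(25,0)]⟩⟩ ⟨true,0,⟨0,[(30,0)]⟩,⟨1,[(17,0),(0,
  0)]⟩⟩]⟩) (.Q [0,0,0,-1,0,0,0,0,0,1] (.pp false [-1,1]) (.R ⟨1,false,false,false,[0,0,0,0,1],[1,
  -1],[1,1],(⟨0,[(14,0)]⟩,⟨0,[(13,0)]⟩),(⟨0,[(25,0)]⟩,⟨0,[(26,0)]⟩),⟨0,[(3,0)]⟩,.k,.k,(.r (-1) ⟨5,
  [(4,1),(6,0),(0,0),(11,0),(12,2),(0,0)]⟩ ⟨1,[(18,0),(0,0),(16,1)]⟩),(.r 0 ⟨1,[(18,0),(0,0),(16,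
  1)]⟩ ⟨17,[(4,5),(1,2),(5,2),(11,1),(7,0),(4,8),(0,2)]⟩),.k,.k,⟨true,(-1),⟨0,[(28,0),(1,0),(5,0)]⟩,
  ⟨5,[(4,1),(6,0),(0,0),(11,0),(13,3)]⟩⟩,⟨false,1,⟨0,[(11,0),(3,0),(2,0)]⟩,⟨0,[(1,0),(35,0)]⟩⟩,
  ⟨true,0,⟨0,[(40,0)]⟩,⟨0,[]⟩⟩,⟨true,1,⟨0,[(0,0),(5,0)]⟩,⟨0,[(1,0),(29,0),(4,0)]⟩⟩,⟨false,0,⟨0,[(36,
  0)]⟩,⟨5,[(4,1),(6,0),(0,0),(11,0),(13,3)]⟩⟩,⟨true,1,⟨0,[(6,0),(8,0),(2,0)]⟩,⟨0,[(1,0),(29,0)]⟩⟩,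
  [.a ⟨true,0,⟨0,[(0,0)]⟩,⟨0,[(36,0)]⟩⟩ ⟨false,0,⟨0,[(31,0)]⟩,⟨1,[(11,0),(0,0),(25,0)]⟩⟩ ⟨true,1,⟨0,
  [(0,0),(10,0)]⟩,⟨0,[(1,0),(34,0)]⟩⟩,.o ⟨false,1,⟨5,[(4,1),(6,0),(0,0),(11,0),(13,3)]⟩,⟨1,[(24,0),
  (3,0),(7,1)]⟩⟩,.o ⟨false,0,⟨7,[(1,1),(3,3),(6,1),(19,0),(4,0)]⟩,⟨0,[(11,0)]⟩⟩,.o ⟨false,(-1),⟨0,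
  [(1,0)]⟩,⟨1,[(11,2),(0,0),(24,0)]⟩⟩]⟩) (.S ⟨1,0,[0,1,-1,-1],[1,-1],[1,0,-1,-2],(⟨0,[(25,0)]⟩,⟨0,
  [(26,0)]⟩),⟨0,[(9,0),(0,0)]⟩,.k,(.r (-2) ⟨2,[(4,1),(6,0),(0,0),(11,0),(12,2),(0,0)]⟩ ⟨0,[(28,0),
  (1,1),(5,1)]⟩),⟨false,1,⟨5,[(4,1),(6,0),(0,0),(11,0),(13,3)]⟩,⟨0,[(36,0)]⟩⟩,⟨true,0,⟨0,[(40,0)]⟩,
  ⟨0,[]⟩⟩,⟨true,0,⟨0,[]⟩,⟨0,[(40,0)]⟩⟩,⟨false,0,⟨0,[(36,0)]⟩,⟨5,[(4,1),(6,0),(0,0),(11,0),(13,3)]⟩⟩,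
  [.o ⟨false,0,⟨0,[(35,0)]⟩,⟨1,[(24,0),(11,1),(1,0)]⟩⟩,.o ⟨false,1,⟨5,[(4,1),(6,3),(0,3),(11,0),(13,
  0)]⟩,⟨0,[(0,0)]⟩⟩,.o ⟨false,0,⟨1,[(18,0),(0,0)]⟩,⟨1,[(24,0),(12,0)]⟩⟩,.a ⟨true,(-1),⟨2,[(15,1),(2,
  1),(4,0),(1,0),(2,2),(1,5)]⟩,⟨0,[(37,0)]⟩⟩ ⟨false,2,⟨0,[(0,0),(3,0),(32,0),(0,0)]⟩,⟨0,[(28,0),(1,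
  1),(5,1)]⟩⟩ ⟨true,1,⟨5,[(4,1),(19,0),(8,1),(3,4)]⟩,⟨0,[(28,0),(1,1),(5,0)]⟩⟩]⟩))) (.Q [0,0,0,0,0,
  0,0,0,1,-1,0,1] (.p true [0,0,0,0,1] [1] (⟨0,[(12,0)]⟩,⟨0,[(11,0)]⟩) .k 1 (⟨0,[]⟩,⟨0,[]⟩) .k .k)
  (.Q [0,0,-1,-1,1,0,0,0,-1,1,0,-1] (.p false [0,0,0,0,1] [1] (⟨0,[(13,0)]⟩,⟨0,[(12,0)]⟩) .k 1 (⟨0,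
  []⟩,⟨0,[]⟩) .k .k) (.Q [0,0,0,-1,0,0,0,0,0,1] (.pp false [-1,1]) (.Q [-1,1,0,-1,0,0,0,0,-1,1,0,
  -1] (.p false [0,0,0,0,1] [1] (⟨0,[(15,0)]⟩,⟨0,[(14,0)]⟩) .k 1 (⟨0,[]⟩,⟨0,[]⟩) .k .k) (.R ⟨1,
  false,false,true,[0,0,0,0,1],[1,-1],[1,1],(⟨0,[(16,0)]⟩,⟨0,[(15,0)]⟩),(⟨0,[(27,0)]⟩,⟨0,[(28,0)]⟩),
  ⟨0,[(5,0)]⟩,.k,.k,(.r (-1) ⟨3,[(2,1),(6,1),(16,0),(12,0)]⟩ ⟨1,[(20,0),(0,0),(16,1)]⟩),(.r 0 ⟨1,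
  [(20,0),(0,0),(16,1)]⟩ ⟨11,[(2,3),(3,1),(2,1),(4,1),(19,2),(4,3),(0,0)]⟩),.k,.k,⟨false,0,⟨0,[(38,
  0)]⟩,⟨11,[(2,5),(6,5),(16,1),(7,0),(4,2)]⟩⟩,⟨true,0,⟨0,[(0,0),(31,0),(5,0)]⟩,⟨0,[(3,0)]⟩⟩,⟨true,0,
  ⟨0,[(42,0)]⟩,⟨0,[]⟩⟩,⟨true,0,⟨0,[(0,0)]⟩,⟨0,[(7,0),(30,0)]⟩⟩,⟨false,0,⟨0,[(38,0)]⟩,⟨5,[(6,1),(6,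
  0),(0,0),(11,0),(13,3)]⟩⟩,⟨true,0,⟨0,[(0,0),(37,0)]⟩,⟨0,[(7,0)]⟩⟩,[.o ⟨false,0,⟨0,[(37,0)]⟩,⟨1,
  [(26,0),(11,1),(1,0)]⟩⟩,.a ⟨true,0,⟨0,[(1,0)]⟩,⟨0,[(38,0)]⟩⟩ ⟨true,0,⟨0,[]⟩,⟨1,[(20,0),(0,0)]⟩⟩
  ⟨false,1,⟨0,[(2,0)]⟩,⟨0,[(7,0),(30,0)]⟩⟩,.o ⟨false,0,⟨0,[(3,0)]⟩,⟨0,[(13,0)]⟩⟩,.o ⟨false,0,⟨3,[(7,
  3),(12,0),(0,0),(19,1)]⟩,⟨0,[(4,0)]⟩⟩]⟩) (.R ⟨2,true,false,true,[0,1],[1,0,0,0,-1],[0,1,1,1],(⟨0,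
  []⟩,⟨0,[]⟩),(⟨0,[(15,0)]⟩,⟨0,[(16,0)]⟩),⟨0,[]⟩,.k,.k,.k,(.r 0 ⟨1,[(20,0),(0,0),(16,1)]⟩ ⟨11,[(2,
  3),(3,1),(2,1),(4,1),(19,2),(4,3),(0,0)]⟩),.k,.k,⟨false,0,⟨0,[(38,0)]⟩,⟨11,[(2,5),(6,5),(16,1),(7,
  0),(4,2)]⟩⟩,⟨true,0,⟨0,[(2,0),(27,0),(1,1),(5,0)]⟩,⟨0,[(3,0)]⟩⟩,⟨true,0,⟨0,[(42,0)]⟩,⟨0,[]⟩⟩,
  ⟨false,1,⟨12,[(2,9),(3,0),(1,2),(1,1),(9,3),(11,0),(8,4)]⟩,⟨0,[(0,0)]⟩⟩,⟨false,0,⟨0,[(38,0)]⟩,⟨5,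
  [(6,1),(6,0),(0,0),(11,0),(13,3)]⟩⟩,⟨true,0,⟨0,[(2,0),(21,0),(5,0),(1,0)]⟩,⟨0,[(7,0)]⟩⟩,[]⟩)) (.S
  ⟨1,0,[0,1,-1,-1],[1,-1],[1,0,-1,-2],(⟨0,[(26,0)]⟩,⟨0,[(27,0)]⟩),⟨0,[(10,0),(0,0)]⟩,.k,(.r (-2) ⟨5,
  [(1,5),(6,5),(16,1),(7,0),(4,2)]⟩ ⟨0,[(29,0),(1,1),(5,1)]⟩),⟨false,1,⟨5,[(5,1),(6,0),(0,0),(11,0),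
  (13,3)]⟩,⟨0,[(37,0)]⟩⟩,⟨true,0,⟨0,[(41,0)]⟩,⟨0,[]⟩⟩,⟨true,0,⟨0,[]⟩,⟨0,[(41,0)]⟩⟩,⟨false,0,⟨0,[(37,
  0)]⟩,⟨5,[(5,1),(6,0),(0,0),(11,0),(13,3)]⟩⟩,[.o ⟨false,0,⟨0,[(36,0)]⟩,⟨1,[(25,0),(11,1),(1,0)]⟩⟩,
  .o ⟨false,1,⟨5,[(5,1),(6,3),(0,3),(11,0),(13,0)]⟩,⟨0,[(0,0)]⟩⟩,.o ⟨false,0,⟨1,[(19,0),(0,0)]⟩,⟨1,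
  [(25,0),(12,0)]⟩⟩,.a ⟨true,(-1),⟨2,[(16,1),(2,1),(4,0),(1,0),(2,2),(1,5)]⟩,⟨0,[(38,0)]⟩⟩ ⟨false,2,
  ⟨0,[(0,0),(4,0),(32,0),(0,0)]⟩,⟨0,[(29,0),(1,1),(5,1)]⟩⟩ ⟨true,1,⟨5,[(5,1),(19,0),(8,1),(3,4)]⟩,
  ⟨0,[(29,0),(1,1),(5,0)]⟩⟩]⟩)) (.R ⟨2,true,false,true,[0,1],[1,0,0,0,-1],[0,1,1,1],(⟨0,[]⟩,⟨0,[]⟩),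
  (⟨0,[(13,0)]⟩,⟨0,[(14,0)]⟩),⟨0,[]⟩,.k,.k,.k,(.r 0 ⟨1,[(18,0),(0,0),(16,1)]⟩ ⟨17,[(4,5),(1,2),(5,
  2),(11,1),(7,0),(4,8),(0,2)]⟩),.k,.k,⟨false,0,⟨0,[(36,0)]⟩,⟨5,[(4,1),(6,0),(0,0),(11,0),(12,2),(0,
  0)]⟩⟩,⟨true,0,⟨2,[(2,2),(12,1),(2,1),(4,0),(1,0),(2,2),(1,5)]⟩,⟨0,[(1,0)]⟩⟩,⟨true,0,⟨0,[(40,0)]⟩,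
  ⟨0,[]⟩⟩,⟨false,1,⟨8,[(2,2),(1,2),(1,5),(8,4),(2,4),(4,0),(1,0),(4,2)]⟩,⟨1,[(0,1),(36,0),(0,0)]⟩⟩,
  ⟨false,0,⟨0,[(36,0)]⟩,⟨5,[(4,1),(6,0),(0,0),(11,0),(13,3)]⟩⟩,⟨true,0,⟨2,[(2,2),(12,0),(2,0),(4,1),
  (1,1),(2,2),(1,2)]⟩,⟨0,[(5,0)]⟩⟩,[]⟩)) (.S ⟨1,0,[1],[0,0,0,0,1],[1,1],(⟨0,[(13,0)]⟩,⟨0,[(12,0)]⟩),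
  ⟨0,[(2,0)]⟩,.k,(.r (-1) ⟨5,[(3,1),(6,0),(0,0),(11,0),(12,2),(0,0)]⟩ ⟨1,[(17,0),(0,0),(16,1)]⟩),
  ⟨true,0,⟨0,[(39,0)]⟩,⟨0,[]⟩⟩,⟨false,1,⟨1,[(10,0),(0,0),(25,0)]⟩,⟨0,[]⟩⟩,⟨false,0,⟨0,[(35,0)]⟩,⟨5,
  [(3,1),(6,0),(0,0),(11,0),(13,3)]⟩⟩,⟨true,0,⟨0,[(35,0)]⟩,⟨0,[(34,0)]⟩⟩,[.o ⟨false,0,⟨0,[(4,0)]⟩,
  ⟨0,[(5,0)]⟩⟩,.o ⟨false,1,⟨1,[(11,1),(11,0),(13,0)]⟩,⟨1,[(0,1),(26,0),(3,0)]⟩⟩,.a ⟨true,0,⟨0,[(11,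
  0)]⟩,⟨0,[(0,0)]⟩⟩ ⟨false,0,⟨0,[]⟩,⟨1,[(10,0),(0,0),(25,0)]⟩⟩ ⟨true,0,⟨0,[]⟩,⟨0,[(39,0)]⟩⟩,.o
  ⟨false,0,⟨3,[(4,3),(12,0),(0,0),(19,1)]⟩,⟨0,[(1,0)]⟩⟩]⟩))) (.Q [0,0,-1,1,1,0,0,0,-1,0,0,-1] (.p
  false [0,0,0,0,1] [] (⟨0,[(11,0)]⟩,⟨0,[(10,0)]⟩) .k 0 (⟨0,[]⟩,⟨0,[]⟩) .k .k) (.Q [0,0,0,2,0,0,0,0,
  0,-1] (.pp true [-1,1]) (.Q [0,0,0,-1,0,0,0,0,0,1] (.pp false [-1,1]) (.R ⟨2,true,false,false,[0,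
  1],[1,-1],[1,1,1],(⟨0,[]⟩,⟨0,[]⟩),(⟨0,[(25,0)]⟩,⟨0,[(26,0)]⟩),⟨0,[]⟩,.k,.k,.k,(.r 1 ⟨0,[(28,0),(1,
  1),(5,1)]⟩ ⟨2,[(4,1),(6,0),(0,0),(11,0),(12,2),(0,0)]⟩),.k,.k,⟨false,(-1),⟨0,[(28,0),(1,0),(5,
  0)]⟩,⟨5,[(4,1),(6,0),(0,0),(11,0),(12,5),(0,3)]⟩⟩,⟨true,(-1),⟨2,[(15,1),(2,1),(4,0),(1,0),(2,2),
  (1,5)]⟩,⟨1,[(24,0),(12,0)]⟩⟩,⟨true,0,⟨0,[(35,0)]⟩,⟨0,[(36,0)]⟩⟩,⟨false,1,⟨3,[(0,1),(3,1),(6,0),(0,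
  0),(25,2)]⟩,⟨0,[(1,0)]⟩⟩,⟨false,0,⟨0,[]⟩,⟨1,[(11,0),(0,0),(25,0)]⟩⟩,⟨true,0,⟨0,[(0,0)]⟩,⟨3,[(1,1),
  (22,0),(3,0),(11,1)]⟩⟩,[]⟩) (.S ⟨1,0,[0,0,-1,-1],[1,-1],[1,1,-1,-2],(⟨0,[(25,0)]⟩,⟨0,[(26,0)]⟩),
  ⟨0,[(9,0),(0,0)]⟩,.k,(.r (-2) ⟨2,[(4,1),(6,0),(0,0),(11,0),(12,2),(0,0)]⟩ ⟨0,[(28,0),(1,1),(5,
  1)]⟩),⟨true,0,⟨0,[(35,0)]⟩,⟨0,[(36,0)]⟩⟩,⟨false,1,⟨1,[(11,0),(0,0),(25,0)]⟩,⟨0,[]⟩⟩,⟨false,0,⟨0,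
  []⟩,⟨1,[(11,0),(0,0),(25,0)]⟩⟩,⟨true,0,⟨0,[(36,0)]⟩,⟨0,[(35,0)]⟩⟩,[.o ⟨false,1,⟨5,[(4,1),(6,3),(0,
  3),(11,0),(13,0)]⟩,⟨0,[(0,0)]⟩⟩,.o ⟨false,1,⟨5,[(4,1),(6,0),(0,0),(11,0),(13,3)]⟩,⟨3,[(1,1),(22,
  0),(3,0),(11,1)]⟩⟩,.o ⟨false,0,⟨1,[(18,0),(0,0)]⟩,⟨1,[(24,0),(12,0)]⟩⟩,.a ⟨true,(-1),⟨2,[(15,1),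
  (2,1),(4,0),(1,0),(2,2),(1,5)]⟩,⟨0,[(37,0)]⟩⟩ ⟨true,1,⟨0,[(0,0),(3,0),(32,0)]⟩,⟨0,[(28,0),(1,1),
  (5,1)]⟩⟩ ⟨false,2,⟨5,[(4,1),(6,0),(0,0),(11,0),(12,5),(0,3)]⟩,⟨0,[(28,0),(1,1),(5,0)]⟩⟩]⟩)) (.Q
  [-1,-1,0,0,1,0,0,0,-1,0,0,-1] (.p false [0,0,0,0,1] [] (⟨0,[(13,0)]⟩,⟨0,[(12,0)]⟩) .k 0 (⟨0,[]⟩,
  ⟨0,[]⟩) .k .k) (.R ⟨1,false,false,true,[1,-1],[0,0,0,0,1],[1,1,-1,-2],(⟨0,[(25,0)]⟩,⟨0,[(26,0)]⟩),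
  (⟨0,[(14,0)]⟩,⟨0,[(13,0)]⟩),⟨0,[(9,0),(0,0)]⟩,.k,.k,(.r (-2) ⟨2,[(4,1),(6,0),(0,0),(11,0),(12,2),
  (0,0)]⟩ ⟨0,[(28,0),(1,1),(5,1)]⟩),(.r (-1) ⟨17,[(4,5),(1,2),(5,2),(11,1),(7,0),(4,8),(0,2)]⟩ ⟨1,
  [(18,0),(0,0),(16,1)]⟩),(.r (-2) ⟨2,[(4,1),(6,0),(0,0),(11,0),(12,2),(0,0)]⟩ ⟨0,[(28,0),(1,1),(5,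
  1)]⟩),.k,⟨true,1,⟨1,[(1,1),(22,0),(12,0)]⟩,⟨0,[(28,0),(1,1),(5,1)]⟩⟩,⟨false,1,⟨0,[(5,0),(31,0)]⟩,
  ⟨0,[(0,0),(14,0),(2,0),(9,0),(1,0)]⟩⟩,⟨true,0,⟨0,[(35,0)]⟩,⟨0,[(36,0)]⟩⟩,⟨false,0,⟨0,[(5,0),(30,
  0)]⟩,⟨1,[(0,1),(0,0),(13,0),(2,0)]⟩⟩,⟨false,0,⟨0,[]⟩,⟨1,[(11,0),(0,0),(25,0)]⟩⟩,⟨false,0,⟨0,[(5,
  0),(30,1)]⟩,⟨0,[(0,0),(0,0)]⟩⟩,[.o ⟨false,0,⟨0,[(5,0),(34,0)]⟩,⟨0,[(0,0)]⟩⟩,.o ⟨false,0,⟨0,[(5,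
  0)]⟩,⟨0,[(6,0)]⟩⟩,.o ⟨false,0,⟨1,[(18,0),(0,0)]⟩,⟨1,[(24,0),(12,0)]⟩⟩,.a ⟨true,(-1),⟨2,[(15,1),(2,
  1),(4,0),(1,0),(2,2),(1,5)]⟩,⟨0,[(37,0)]⟩⟩ ⟨true,1,⟨1,[(1,1),(22,0),(6,1),(5,0)]⟩,⟨0,[(28,0),(1,
  1),(5,1)]⟩⟩ ⟨false,1,⟨0,[(5,0),(31,0)]⟩,⟨2,[(0,2),(14,1),(2,1),(4,0),(1,0),(2,2),(1,5)]⟩⟩]⟩) (.Q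
  [-1,1,0,1,0,0,0,0,-1,0,0,-1] (.p false [0,0,0,0,1] [] (⟨0,[(14,0)]⟩,⟨0,[(13,0)]⟩) .k 0 (⟨0,[]⟩,⟨0,
  []⟩) .k .k) (.Q [0,0,-1,0,1,0,0,0,-1,0,0,-1] (.p false [0,0,0,0,1] [] (⟨0,[(15,0)]⟩,⟨0,[(14,0)]⟩)
  .k 0 (⟨0,[]⟩,⟨0,[]⟩) .k .k) (.R ⟨2,true,false,false,[0,1],[0,0,0,0,1],[1,0,1],(⟨0,[]⟩,⟨0,[]⟩),(⟨0,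
  [(16,0)]⟩,⟨0,[(15,0)]⟩),⟨0,[]⟩,.k,.k,.k,(.r 0 ⟨1,[(20,0),(0,0),(16,1)]⟩ ⟨5,[(6,1),(6,0),(0,0),(11,
  0),(12,2),(0,0)]⟩),.k,.k,⟨true,0,⟨1,[(20,0),(0,0)]⟩,⟨0,[]⟩⟩,⟨false,0,⟨0,[(14,0)]⟩,⟨0,[(0,0)]⟩⟩,
  ⟨false,1,⟨5,[(6,1),(6,0),(0,0),(11,0),(13,3)]⟩,⟨0,[(38,0)]⟩⟩,⟨true,0,⟨0,[(9,0)]⟩,⟨0,[(1,0)]⟩⟩,
  ⟨true,0,⟨0,[]⟩,⟨0,[(42,0)]⟩⟩,⟨false,0,⟨0,[(2,0),(37,0)]⟩,⟨0,[(8,0)]⟩⟩,[]⟩) (.R ⟨2,true,false,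
  false,[0,1],[0,0,0,0,1],[2,0,1],(⟨0,[]⟩,⟨0,[]⟩),(⟨0,[(16,0)]⟩,⟨0,[(15,0)]⟩),⟨0,[]⟩,.k,.k,.k,(.r 0
  ⟨1,[(20,0),(0,0),(16,1)]⟩ ⟨5,[(6,1),(6,0),(0,0),(11,0),(12,2),(0,0)]⟩),.k,.k,⟨false,0,⟨0,[]⟩,⟨1,
  [(13,0),(0,0),(24,0)]⟩⟩,⟨true,(-1),⟨0,[(0,0)]⟩,⟨0,[(13,0)]⟩⟩,⟨false,1,⟨5,[(6,1),(6,0),(0,0),(11,
  0),(13,3)]⟩,⟨0,[(24,0)]⟩⟩,⟨true,0,⟨0,[(9,0)]⟩,⟨0,[(1,0)]⟩⟩,⟨true,0,⟨0,[]⟩,⟨0,[(42,0)]⟩⟩,⟨false,0,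
  ⟨0,[(2,0),(37,0)]⟩,⟨0,[(8,0)]⟩⟩,[]⟩)) (.R ⟨1,true,false,true,[1,-1],[1,0,0,0,-1],[0,1,-1,-1],(⟨0,
  [(26,0)]⟩,⟨0,[(27,0)]⟩),(⟨0,[(14,0)]⟩,⟨0,[(15,0)]⟩),⟨0,[(10,0),(0,0)]⟩,.k,.k,(.r (-2) ⟨2,[(5,1),
  (6,0),(0,0),(11,0),(12,2),(0,0)]⟩ ⟨0,[(29,0),(1,1),(5,1)]⟩),(.r (-1) ⟨5,[(5,1),(6,0),(0,0),(11,0),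
  (12,2),(0,0)]⟩ ⟨1,[(19,0),(0,0),(16,1)]⟩),(.r (-2) ⟨2,[(5,1),(6,0),(0,0),(11,0),(12,2),(0,0)]⟩ ⟨0,
  [(23,1),(5,0),(5,1)]⟩),.k,⟨true,1,⟨5,[(5,1),(6,0),(0,0),(11,0),(12,2),(0,0)]⟩,⟨0,[(23,0),(5,0),(5,
  1)]⟩⟩,⟨false,2,⟨0,[(12,0),(25,0)]⟩,⟨0,[(0,0),(22,0),(5,0),(1,0)]⟩⟩,⟨true,0,⟨0,[(41,0)]⟩,⟨0,[]⟩⟩,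
  ⟨false,1,⟨0,[(12,0),(24,0)]⟩,⟨0,[(0,0)]⟩⟩,⟨false,0,⟨0,[(37,0)]⟩,⟨5,[(5,1),(6,0),(0,0),(11,0),(13,
  3)]⟩⟩,⟨true,0,⟨0,[(3,0),(19,0),(5,0),(1,0)]⟩,⟨1,[(0,0),(4,0),(0,0)]⟩⟩,[]⟩)))) (.Q [0,0,0,-1,0,0,0,
  0,0,1] (.pp false [-1,1]) (.R ⟨0,false,false,false,[0,0,0,0,1],[0,1],[],(⟨0,[(13,0)]⟩,⟨0,[(12,
  0)]⟩),(⟨0,[(25,0)]⟩,⟨0,[(24,0)]⟩),⟨0,[(2,0)]⟩,.k,.k,(.r (-1) ⟨5,[(3,1),(6,0),(0,0),(11,0),(12,2),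
  (0,0)]⟩ ⟨1,[(17,0),(0,0),(16,1)]⟩),(.r (-1) ⟨5,[(3,1),(6,0),(0,0),(11,0),(12,2),(0,0)]⟩ ⟨1,[(17,
  0),(0,0),(16,1)]⟩),.k,.k,⟨true,1,⟨5,[(3,1),(6,0),(0,0),(11,0),(12,2),(0,0)]⟩,⟨0,[(27,0),(1,1),(5,
  0)]⟩⟩,⟨false,2,⟨0,[(10,0),(25,0)]⟩,⟨0,[(1,0),(33,0)]⟩⟩,⟨false,1,⟨1,[(5,0),(5,0),(25,0)]⟩,⟨0,[]⟩⟩,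
  ⟨true,1,⟨0,[(10,0),(24,0)]⟩,⟨0,[(1,0),(28,0)]⟩⟩,⟨false,0,⟨0,[]⟩,⟨0,[]⟩⟩,⟨false,0,⟨0,[]⟩,⟨0,[]⟩⟩,
  [.a ⟨true,0,⟨0,[(35,0)]⟩,⟨0,[(0,0)]⟩⟩ ⟨false,1,⟨1,[(10,0),(0,0),(24,0)]⟩,⟨0,[]⟩⟩ ⟨true,1,⟨0,[(10,
  0),(24,0)]⟩,⟨0,[(1,0)]⟩⟩,.o ⟨false,1,⟨1,[(23,0),(11,1),(1,0)]⟩,⟨0,[(34,0)]⟩⟩,.o ⟨false,0,⟨9,[(1,
  1),(2,7),(16,1),(9,0),(4,0)]⟩,⟨0,[(10,0)]⟩⟩,.e ⟨false,1,⟨1,[(36,0),(0,0)]⟩,⟨1,[(17,0),(0,0)]⟩⟩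
  ⟨false,2,⟨1,[(10,1),(24,1),(0,0),(0,0)]⟩,⟨0,[(1,0)]⟩⟩]⟩) (.S ⟨1,0,[0,1,-1,-1],[1,-1],[1,0,-1,-2],
  (⟨0,[(24,0)]⟩,⟨0,[(25,0)]⟩),⟨0,[(8,0),(0,0)]⟩,.k,(.r (-2) ⟨2,[(3,1),(6,0),(0,0),(11,0),(12,2),(0,
  0)]⟩ ⟨0,[(27,0),(1,1),(5,1)]⟩),⟨false,1,⟨5,[(3,1),(6,0),(0,0),(11,0),(13,3)]⟩,⟨0,[(35,0)]⟩⟩,⟨true,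
  0,⟨0,[(39,0)]⟩,⟨0,[]⟩⟩,⟨true,0,⟨0,[]⟩,⟨0,[(39,0)]⟩⟩,⟨false,0,⟨0,[(35,0)]⟩,⟨5,[(3,1),(6,0),(0,0),
  (11,0),(13,3)]⟩⟩,[.o ⟨false,0,⟨0,[(34,0)]⟩,⟨1,[(23,0),(11,1),(1,0)]⟩⟩,.o ⟨false,1,⟨5,[(3,1),(6,3),
  (0,3),(11,0),(13,0)]⟩,⟨0,[(0,0)]⟩⟩,.o ⟨false,0,⟨1,[(17,0),(0,0)]⟩,⟨1,[(23,0),(12,0)]⟩⟩,.a ⟨true,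
  (-1),⟨2,[(14,1),(2,1),(4,0),(1,0),(2,2),(1,5)]⟩,⟨0,[(36,0)]⟩⟩ ⟨false,2,⟨0,[(0,0),(2,0),(32,0),(0,
  0)]⟩,⟨0,[(27,0),(1,1),(5,1)]⟩⟩ ⟨true,1,⟨5,[(3,1),(19,0),(8,1),(3,4)]⟩,⟨0,[(27,0),(1,1),(5,
  0)]⟩⟩]⟩))))) (.Q [0,0,0,0,0,-1,0,0,0,0,0,1] (.ed false [1,-1,0,0,1] .k) (.S ⟨1,0,[1,1],[0,0,0,0,
  1],[],(⟨0,[(10,0)]⟩,⟨0,[(9,0)]⟩),⟨0,[(0,0)]⟩,.k,(.r (-1) ⟨1,[(31,1),(1,0),(0,0)]⟩ ⟨1,[(14,0),(0,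
  0),(16,1)]⟩),⟨false,1,⟨1,[(2,0),(5,0),(25,0)]⟩,⟨0,[]⟩⟩,⟨true,0,⟨0,[(36,0)]⟩,⟨0,[]⟩⟩,⟨true,0,⟨0,
  [(18,0)]⟩,⟨0,[(31,0)]⟩⟩,⟨false,0,⟨0,[(32,0)]⟩,⟨0,[(31,0),(2,0)]⟩⟩,[.o ⟨false,0,⟨1,[(8,1),(11,0),
  (3,0)]⟩,⟨1,[(1,1),(18,0),(13,0)]⟩⟩,.a ⟨true,0,⟨0,[(8,0)]⟩,⟨0,[(1,0)]⟩⟩ ⟨false,1,⟨1,[(33,0),(0,
  0)]⟩,⟨0,[(36,0)]⟩⟩ ⟨true,0,⟨0,[]⟩,⟨1,[(14,0),(0,0)]⟩⟩,.e ⟨false,1,⟨1,[(7,0),(0,0),(25,0)]⟩,⟨0,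
  []⟩⟩ ⟨false,0,⟨0,[]⟩,⟨1,[(7,0),(0,0),(25,0)]⟩⟩,.o ⟨false,0,⟨5,[(8,5),(11,1),(3,2),(1,5),(1,0)]⟩,
  ⟨1,[(1,1),(18,0),(12,0)]⟩⟩]⟩) (.Q [0,0,0,-1,0,0,0,0,1,0,0,1] (.p true [0,0,0,0,1] [] (⟨0,[(10,
  0)]⟩,⟨0,[(9,0)]⟩) .k 0 (⟨0,[]⟩,⟨0,[]⟩) .k .k) (.R ⟨0,false,false,true,[0,0,0,0,1],[0,1],[1,1,1],
  (⟨0,[(11,0)]⟩,⟨0,[(10,0)]⟩),(⟨0,[(23,0)]⟩,⟨0,[(22,0)]⟩),⟨0,[(1,0)]⟩,.k,.k,(.r (-1) ⟨1,[(32,1),(1,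
  0),(0,0)]⟩ ⟨1,[(15,0),(0,0),(16,1)]⟩),(.r (-1) ⟨1,[(32,1),(1,0),(0,0)]⟩ ⟨1,[(15,0),(0,0),(16,
  1)]⟩),.k,.k,⟨false,1,⟨1,[(32,1),(1,0),(0,0)]⟩,⟨0,[(33,0)]⟩⟩,⟨true,1,⟨1,[(2,1),(18,0),(12,0)]⟩,⟨1,
  [(0,0),(8,0),(9,0),(5,1),(1,3)]⟩⟩,⟨false,0,⟨1,[(15,0),(0,0)]⟩,⟨1,[(34,0),(0,0)]⟩⟩,⟨true,0,⟨1,[(2,
  1),(18,0),(3,0),(7,1)]⟩,⟨0,[(4,0)]⟩⟩,⟨false,0,⟨0,[]⟩,⟨0,[]⟩⟩,⟨false,0,⟨0,[]⟩,⟨0,[]⟩⟩,[.o ⟨false,0,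
  ⟨1,[(21,0),(3,0),(7,1)]⟩,⟨0,[(32,0),(2,0)]⟩⟩,.e ⟨false,0,⟨0,[]⟩,⟨1,[(8,0),(0,0),(24,0)]⟩⟩ ⟨false,
  1,⟨1,[(2,1),(18,0),(11,1),(0,0)]⟩,⟨0,[(0,0)]⟩⟩,.a ⟨true,0,⟨0,[(9,0)]⟩,⟨0,[(2,0)]⟩⟩ ⟨false,0,⟨1,
  [(15,0),(0,0)]⟩,⟨1,[(34,0),(0,0)]⟩⟩ ⟨true,0,⟨1,[(2,1),(18,0),(3,0),(7,1)]⟩,⟨0,[(0,0)]⟩⟩,.o ⟨false,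
  0,⟨5,[(9,5),(11,1),(3,2),(1,5),(1,0)]⟩,⟨1,[(2,1),(18,0),(12,0)]⟩⟩]⟩) (.R ⟨1,true,false,false,[1,
  -1],[1,0,0,0,-1],[0,1,-1,-1],(⟨0,[(22,0)]⟩,⟨0,[(23,0)]⟩),(⟨0,[(10,0)]⟩,⟨0,[(11,0)]⟩),⟨0,[(6,0),(0,
  0)]⟩,.k,.k,(.r (-2) ⟨0,[(32,1),(1,0),(0,0)]⟩ ⟨0,[(25,0),(1,1),(5,1)]⟩),(.r (-1) ⟨1,[(32,1),(1,0),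
  (0,0)]⟩ ⟨1,[(15,0),(0,0),(16,1)]⟩),(.r (-2) ⟨0,[(32,1),(1,0),(0,0)]⟩ ⟨0,[(19,1),(5,0),(5,1)]⟩),.k,
  ⟨false,1,⟨0,[(32,0),(1,0)]⟩,⟨0,[(27,0),(5,0)]⟩⟩,⟨true,1,⟨1,[(2,1),(18,0),(12,0)]⟩,⟨0,[(4,0),(14,
  0),(5,0),(1,1)]⟩⟩,⟨true,0,⟨0,[(37,0)]⟩,⟨0,[]⟩⟩,⟨false,1,⟨1,[(0,0),(7,0),(24,0),(1,0)]⟩,⟨0,[(4,
  0)]⟩⟩,⟨false,0,⟨0,[(33,0)]⟩,⟨0,[(32,0),(2,0)]⟩⟩,⟨true,0,⟨0,[(0,0),(32,0)]⟩,⟨0,[(4,0),(27,0)]⟩⟩,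
  []⟩))))))

theorem ok0 : chk K t0 base = true := by decide +kernel

theorem closed {p a b c J l q : ℤ} {D dl : ℝ} {Cl : ℤ → ℤ → ℤ → ℤ → ℝ → Prop}
    (W : World p a b c J 1 l q D dl Cl) (g : G0 p a b c J D)
    {N X R : ℤ} {I : ℝ} (hk : KCl p l Cl N X R I) (kz : KF a b D (X + (1 : ℤ) * I) (X + (1 : ℤ) * I + R) I)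
    {Ne Xe : ℤ} {Ie : ℝ} (he : EFac p 1 D Cl 1 Ne Xe Ie)
    (hkf : ∀ kf ∈ (kfY 1 [0,0,0,0,0,0,1,0,0,0,1]), KOk p l Cl 1
      (xv [1, a, b, c, p, J, X, R, Xe] [D, I, Ie]) N kf)
    (h0 : 1 ≤ (c : ℝ))
    (h1 : 1 ≤ 1 - (a : ℝ) + (b : ℝ))
    (h2 : 1 ≤ 2 * (a : ℝ) - (b : ℝ))
    (h3 : 0 < -3 + (p : ℝ) - 2 * D)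
    (h4 : 1 ≤ 1 + (a : ℝ) - (b : ℝ))
    (h5 : 1 ≤ 1 - (a : ℝ) + (b : ℝ))
    (h6 : 1 ≤ 2 + 2 * (a : ℝ) - (p : ℝ))
    (h7 : 1 ≤ 2 * (a : ℝ) - (b : ℝ))
    (h8 : 1 ≤ -2 + (J : ℝ))
    (h9 : 1 ≤ -1 + (c : ℝ))
    (h10 : 0 < -(b : ℝ) - (X : ℝ) + D - I)
    (h11 : 0 < -(J : ℝ) + I)
    (h12 : 0 < -(J : ℝ) + D - I)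
    (h13 : 0 < -2 * (X : ℝ) + D - 2 * I) : False := by
  have g1 := g.a2
  have g2 := g.b2
  have g3 := g.pa
  have g4 := g.pb
  have g5 := g.J1
  have g6 := g.JD
  have g7 := g.D2
  have g8 := g.ca
  have g9 := g.ca'
  have k1 := kz.I0
  have k2 := kz.ID
  have k3 := kz.z1
  have k4 := kz.z2
  have k5 := kz.s1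
  have k6 := kz.s2
  have e1 := he.I0
  have e2 := he.ID
  have e3 := he.x0
  have e4 := he.xp
  push_cast at *
  refine (val_E W.toBase hk he (row := [1]) (by simp) (by simp) (kfY 1 [0,0,0,0,0,0,1,0,0,0,1])).sound W rfl (Nk := N)
    (fun kf _ _ => ⟨_, rfl⟩) hkf ?_ ok0
  · simp only [base, List.forall_mem_cons, List.not_mem_nil, false_imp_iff, implies_true,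
      and_true, hld, xv, evg_cons, evg_nil, List.map_cons, List.map_nil, List.cons_append,
      List.nil_append, if_true, if_false, Bool.false_eq_true]
    push_cast
    refine ⟨?_, ?_, ?_, ?_, ?_, ?_, ?_, ?_, ?_, ?_, ?_, ?_, ?_, ?_, ?_, ?_, ?_, ?_, ?_, ?_, ?_, ?_, ?_, ?_, ?_, ?_, ?_, ?_, ?_, ?_, ?_, ?_, ?_⟩ <;> linarith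

end Helper48.Y.Y11_c35_P4_m1n1_K2
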