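import Pool.Agent.Helper48.Y.Y11_c2_P2_m0n0
import Pool.Agent.Helper48.Y.Y11_c2_P3_m1n1
import Pool.Agent.Helper48.Y.Y11_c2_P4_m1n1
import Pool.Agent.Helper48.Y.Y11_c35_P2_m1n1_CC
import Pool.Agent.Helper48.Y.Y11_c35_P3_m1n1_CB
import Pool.Agent.Helper48.Y.Y11_c35_P3_m1n1_CC
import Pool.Agent.Helper48.Y.Y11_c35_P3_m1n1_K2
import Pool.Agent.Helper48.Y.Y11_c35_P4_m1n1_CB
import Pool.Agent.Helper48.Y.Y11_c35_P4_m1n1_CC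
import Pool.Agent.Helper48.Y.Y11_k0
import Pool.Agent.Helper48.Y.Y11_k1
import Pool.Agent.Helper48.Y.Y11_k2
import Pool.Agent.Helper48.Y.Y11_k3
import Pool.Agent.Helper48.Y.Y11_k4
import Pool.Agent.Helper48.Y.Y11_k5
import Pool.Agent.Helper48.Y.Y11_k6
import Pool.Agent.Helper48.Y.Y11_k7
import Pool.Agent.Helper48.Y.Y11_k8
import Pool.Agent.Helper48.Y.Y11_k9
import Pool.Agent.Helper25.KW.S1I

set_option autoImplicit false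
set_option linter.all false

namespace Helper48.Y

open Helper25.KG Helper25.KW Helper55.KE Helper11.CT

theorem a_Y11_c2_L2_m0n0 {p a b c J l q : ℤ} {D dl : ℝ} {Cl : ℤ → ℤ → ℤ → ℤ → ℝ → Prop}
    (W : World p a b c J 1 l q D dl Cl) (hc : -a < c) (hA : Aux p a b 1 D Cl)
    {N X R : ℤ} {I : ℝ} (hK : KGF p a b 1 D (P1 l p) Cl N X R I)
    (hM : KMY p a b 1 (P1 l p) Cl N (b + (1 : ℤ) * (X + (1 : ℤ) * I)))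
    (h0 : 1 ≤ (c : ℝ))
    (h1 : 1 ≤ (a : ℝ) - (b : ℝ))
    (h2 : 1 ≤ 1 - (a : ℝ) + (b : ℝ) + (c : ℝ))
    (h3 : 0 < 1 - (p : ℝ) + 2 * D)
    (h4 : 1 ≤ 2 * (a : ℝ) - (b : ℝ))
    (h5 : 1 ≤ 2 - (J : ℝ))
    (h6 : 0 < -(b : ℝ) - (X : ℝ) + D - I)
    (h7 : 0 < (J : ℝ) - I)
    (h8 : 0 < (J : ℝ) - D + I)
    (h9 : 0 < -2 * (X : ℝ) + D - 2 * I) : False := by
  have kz := KF.of hK
  obtain ⟨Ne, Xe, Ie, he⟩ := hA.ecl 1 (by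
    intro h
    have h2 := W.ha
    have h3 := W.h2a
    have h4 := W.hb
    have h5 := W.h2b
    have h6 := hc
    have h1 := Int.le_of_dvd (by omega) h
    omega)
  exact Helper48.Y.Y11_c2_L2_m0n0.closed W (G0.of W.toBase hc) (KCl.of hK) kz he
    (kok_Y (R := R) (Or.inl rfl) hM kz.z1 kz.z2 (by simp [xv] <;> ring) (by simp [xv] <;> ring) (by simp [xv] <;> ring))
    h0 h1 h2 h3 h4 h5 h6 h7 h8 h9

theorem a_Y11_c2_L2_m0n1 {p a b c J l q : ℤ} {D dl : ℝ} {Cl : ℤ → ℤ → ℤ → ℤ → ℝ → Prop}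
    (W : World p a b c J 1 l q D dl Cl) (hc : -a < c) (hA : Aux p a b 1 D Cl)
    {N X R : ℤ} {I : ℝ} (hK : KGF p a b 1 D (P1 l p) Cl N X R I)
    (hM : KMY p a b 1 (P1 l p) Cl N (b + (1 : ℤ) * (X + (1 : ℤ) * I)))
    (h0 : 1 ≤ (c : ℝ))
    (h1 : 1 ≤ (a : ℝ) - (b : ℝ))
    (h2 : 1 ≤ 1 - (a : ℝ) + (b : ℝ) + (c : ℝ))
    (h3 : 0 < 1 - (p : ℝ) + 2 * D)
    (h4 : 1 ≤ 2 * (a : ℝ) - (b : ℝ))
    (h5 : 1 ≤ 2 - (J : ℝ))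
    (h6 : 0 < -(b : ℝ) - (X : ℝ) + D - I)
    (h7 : 0 < (J : ℝ) - I)
    (h8 : 0 < -(J : ℝ) + D - I)
    (h9 : 0 < -2 * (X : ℝ) + D - 2 * I) : False := by
  have kz := KF.of hK
  obtain ⟨Ne, Xe, Ie, he⟩ := hA.ecl 1 (by
    intro h
    have h2 := W.ha
    have h3 := W.h2a
    have h4 := W.hb
    have h5 := W.h2b
    have h6 := hc
    have h1 := Int.le_of_dvd (by omega) h
    omega)
  exact Helper48.Y.Y11_c2_L2_m0n1.closed W (G0.of W.toBase hc) (KCl.of hK) kz he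
    (kok_Y (R := R) (Or.inl rfl) hM kz.z1 kz.z2 (by simp [xv] <;> ring) (by simp [xv] <;> ring) (by simp [xv] <;> ring))
    h0 h1 h2 h3 h4 h5 h6 h7 h8 h9

theorem a_Y11_c2_L2_m1n0 {p a b c J l q : ℤ} {D dl : ℝ} {Cl : ℤ → ℤ → ℤ → ℤ → ℝ → Prop}
    (W : World p a b c J 1 l q D dl Cl) (hc : -a < c) (hA : Aux p a b 1 D Cl)
    {N X R : ℤ} {I : ℝ} (hK : KGF p a b 1 D (P1 l p) Cl N X R I)
    (hM : KMY p a b 1 (P1 l p) Cl N (b + (1 : ℤ) * (X + (1 : ℤ) * I)))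
    (h0 : 1 ≤ (c : ℝ))
    (h1 : 1 ≤ (a : ℝ) - (b : ℝ))
    (h2 : 1 ≤ 1 - (a : ℝ) + (b : ℝ) + (c : ℝ))
    (h3 : 0 < 1 - (p : ℝ) + 2 * D)
    (h4 : 1 ≤ 2 * (a : ℝ) - (b : ℝ))
    (h5 : 1 ≤ 2 - (J : ℝ))
    (h6 : 0 < -(b : ℝ) - (X : ℝ) + D - I)
    (h7 : 0 < -(J : ℝ) + I)
    (h8 : 0 < (J : ℝ) - D + I)
    (h9 : 0 < -2 * (X : ℝ) + D - 2 * I) : False := by
  have kz := KF.of hK
  obtain ⟨Ne, Xe, Ie, he⟩ := hA.ecl 1 (by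
    intro h
    have h2 := W.ha
    have h3 := W.h2a
    have h4 := W.hb
    have h5 := W.h2b
    have h6 := hc
    have h1 := Int.le_of_dvd (by omega) h
    omega)
  exact Helper48.Y.Y11_c2_L2_m1n0.closed W (G0.of W.toBase hc) (KCl.of hK) kz he
    (kok_Y (R := R) (Or.inl rfl) hM kz.z1 kz.z2 (by simp [xv] <;> ring) (by simp [xv] <;> ring) (by simp [xv] <;> ring))
    h0 h1 h2 h3 h4 h5 h6 h7 h8 h9

theorem a_Y11_c2_L2_m1n1 {p a b c J l q : ℤ} {D dl : ℝ} {Cl : ℤ → ℤ → ℤ → ℤ → ℝ → Prop}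
    (W : World p a b c J 1 l q D dl Cl) (hc : -a < c) (hA : Aux p a b 1 D Cl)
    {N X R : ℤ} {I : ℝ} (hK : KGF p a b 1 D (P1 l p) Cl N X R I)
    (hM : KMY p a b 1 (P1 l p) Cl N (b + (1 : ℤ) * (X + (1 : ℤ) * I)))
    (h0 : 1 ≤ (c : ℝ))
    (h1 : 1 ≤ (a : ℝ) - (b : ℝ))
    (h2 : 1 ≤ 1 - (a : ℝ) + (b : ℝ) + (c : ℝ))
    (h3 : 0 < 1 - (p : ℝ) + 2 * D)
    (h4 : 1 ≤ 2 * (a : ℝ) - (b : ℝ))
    (h5 : 1 ≤ 2 - (J : ℝ))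
    (h6 : 0 < -(b : ℝ) - (X : ℝ) + D - I)
    (h7 : 0 < -(J : ℝ) + I)
    (h8 : 0 < -(J : ℝ) + D - I)
    (h9 : 0 < -2 * (X : ℝ) + D - 2 * I) : False := by
  have kz := KF.of hK
  obtain ⟨Ne, Xe, Ie, he⟩ := hA.ecl 1 (by
    intro h
    have h2 := W.ha
    have h3 := W.h2a
    have h4 := W.hb
    have h5 := W.h2b
    have h6 := hc
    have h1 := Int.le_of_dvd (by omega) h
    omega)
  exact Helper48.Y.Y11_c2_L2_m1n1.closed W (G0.of W.toBase hc) (KCl.of hK) kz he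
    (kok_Y (R := R) (Or.inl rfl) hM kz.z1 kz.z2 (by simp [xv] <;> ring) (by simp [xv] <;> ring) (by simp [xv] <;> ring))
    h0 h1 h2 h3 h4 h5 h6 h7 h8 h9

theorem a_Y11_c2_P1 {p a b c J l q : ℤ} {D dl : ℝ} {Cl : ℤ → ℤ → ℤ → ℤ → ℝ → Prop}
    (W : World p a b c J 1 l q D dl Cl) (hc : -a < c) (hA : Aux p a b 1 D Cl)
    {N X R : ℤ} {I : ℝ} (hK : KGF p a b 1 D (P1 l p) Cl N X R I)
    (hM : KMY p a b 1 (P1 l p) Cl N (b + (1 : ℤ) * (X + (1 : ℤ) * I)))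
    (h0 : 1 ≤ (c : ℝ))
    (h1 : 1 ≤ (a : ℝ) - (b : ℝ))
    (h2 : 1 ≤ 1 - (a : ℝ) + (b : ℝ) + (c : ℝ))
    (h3 : 0 < 1 + (p : ℝ) - 3 * D)
    (h4 : 1 ≤ 2 * (a : ℝ) - (b : ℝ))
    (h5 : 1 ≤ 2 - (J : ℝ))
    (h6 : 0 < -(b : ℝ) - (X : ℝ) + D - I)
    (h7 : 0 < -2 * (X : ℝ) + D - 2 * I) : False := by
  have kz := KF.of hK
  obtain ⟨Ne, Xe, Ie, he⟩ := hA.ecl 1 (by
    intro h
    have h2 := W.ha
    have h3 := W.h2a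
    have h4 := W.hb
    have h5 := W.h2b
    have h6 := hc
    have h1 := Int.le_of_dvd (by omega) h
    omega)
  exact Helper48.Y.Y11_c2_P1.closed W (G0.of W.toBase hc) (KCl.of hK) kz he
    (kok_Y (R := R) (Or.inl rfl) hM kz.z1 kz.z2 (by simp [xv] <;> ring) (by simp [xv] <;> ring) (by simp [xv] <;> ring))
    h0 h1 h2 h3 h4 h5 h6 h7

theorem a_Y11_c2_P2_m0n0 {p a b c J l q : ℤ} {D dl : ℝ} {Cl : ℤ → ℤ → ℤ → ℤ → ℝ → Prop}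
    (W : World p a b c J 1 l q D dl Cl) (hc : -a < c) (hA : Aux p a b 1 D Cl)
    {N X R : ℤ} {I : ℝ} (hK : KGF p a b 1 D (P1 l p) Cl N X R I)
    (hM : KMY p a b 1 (P1 l p) Cl N (b + (1 : ℤ) * (X + (1 : ℤ) * I)))
    (h0 : 1 ≤ (c : ℝ))
    (h1 : 1 ≤ (a : ℝ) - (b : ℝ))
    (h2 : 1 ≤ 1 - (a : ℝ) + (b : ℝ) + (c : ℝ))
    (h3 : 0 < 1 + 2 * (p : ℝ) - 5 * D)
    (h4 : 1 ≤ 2 * (a : ℝ) - (b : ℝ))
    (h5 : 1 ≤ -1 + (J : ℝ))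
    (h6 : 1 ≤ 3 - (J : ℝ))
    (h7 : 0 < -(b : ℝ) - (X : ℝ) + D - I)
    (h8 : 0 < (J : ℝ) - I)
    (h9 : 0 < (J : ℝ) - D + I)
    (h10 : 0 < -2 * (X : ℝ) + D - 2 * I) : False := by
  have kz := KF.of hK
  obtain ⟨Ne, Xe, Ie, he⟩ := hA.ecl 1 (by
    intro h
    have h2 := W.ha
    have h3 := W.h2a
    have h4 := W.hb
    have h5 := W.h2b
    have h6 := hc
    have h1 := Int.le_of_dvd (by omega) h
    omega)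
  exact Helper48.Y.Y11_c2_P2_m0n0.closed W (G0.of W.toBase hc) (KCl.of hK) kz he
    (kok_Y (R := R) (Or.inl rfl) hM kz.z1 kz.z2 (by simp [xv] <;> ring) (by simp [xv] <;> ring) (by simp [xv] <;> ring))
    h0 h1 h2 h3 h4 h5 h6 h7 h8 h9 h10

theorem a_Y11_c2_P2_m0n1 {p a b c J l q : ℤ} {D dl : ℝ} {Cl : ℤ → ℤ → ℤ → ℤ → ℝ → Prop}
    (W : World p a b c J 1 l q D dl Cl) (hc : -a < c) (hA : Aux p a b 1 D Cl)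
    {N X R : ℤ} {I : ℝ} (hK : KGF p a b 1 D (P1 l p) Cl N X R I)
    (hM : KMY p a b 1 (P1 l p) Cl N (b + (1 : ℤ) * (X + (1 : ℤ) * I)))
    (h0 : 1 ≤ (c : ℝ))
    (h1 : 1 ≤ (a : ℝ) - (b : ℝ))
    (h2 : 1 ≤ 1 - (a : ℝ) + (b : ℝ) + (c : ℝ))
    (h3 : 0 < 1 + 2 * (p : ℝ) - 5 * D)
    (h4 : 1 ≤ 2 * (a : ℝ) - (b : ℝ))
    (h5 : 1 ≤ -1 + (J : ℝ))
    (h6 : 1 ≤ 3 - (J : ℝ))
    (h7 : 0 < -(b : ℝ) - (X : ℝ) + D - I)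
    (h8 : 0 < (J : ℝ) - I)
    (h9 : 0 < -(J : ℝ) + D - I)
    (h10 : 0 < -2 * (X : ℝ) + D - 2 * I) : False := by
  have kz := KF.of hK
  obtain ⟨Ne, Xe, Ie, he⟩ := hA.ecl 1 (by
    intro h
    have h2 := W.ha
    have h3 := W.h2a
    have h4 := W.hb
    have h5 := W.h2b
    have h6 := hc
    have h1 := Int.le_of_dvd (by omega) h
    omega)
  exact Helper48.Y.Y11_c2_P2_m0n1.closed W (G0.of W.toBase hc) (KCl.of hK) kz he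
    (kok_Y (R := R) (Or.inl rfl) hM kz.z1 kz.z2 (by simp [xv] <;> ring) (by simp [xv] <;> ring) (by simp [xv] <;> ring))
    h0 h1 h2 h3 h4 h5 h6 h7 h8 h9 h10

theorem a_Y11_c2_P2_m1n0 {p a b c J l q : ℤ} {D dl : ℝ} {Cl : ℤ → ℤ → ℤ → ℤ → ℝ → Prop}
    (W : World p a b c J 1 l q D dl Cl) (hc : -a < c) (hA : Aux p a b 1 D Cl)
    {N X R : ℤ} {I : ℝ} (hK : KGF p a b 1 D (P1 l p) Cl N X R I)
    (hM : KMY p a b 1 (P1 l p) Cl N (b + (1 : ℤ) * (X + (1 : ℤ) * I)))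
    (h0 : 1 ≤ (c : ℝ))
    (h1 : 1 ≤ (a : ℝ) - (b : ℝ))
    (h2 : 1 ≤ 1 - (a : ℝ) + (b : ℝ) + (c : ℝ))
    (h3 : 0 < 1 + 2 * (p : ℝ) - 5 * D)
    (h4 : 1 ≤ 2 * (a : ℝ) - (b : ℝ))
    (h5 : 1 ≤ -1 + (J : ℝ))
    (h6 : 1 ≤ 3 - (J : ℝ))
    (h7 : 0 < -(b : ℝ) - (X : ℝ) + D - I)
    (h8 : 0 < -(J : ℝ) + I)
    (h9 : 0 < (J : ℝ) - D + I)
    (h10 : 0 < -2 * (X : ℝ) + D - 2 * I) : False := by
  have kz := KF.of hK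
  obtain ⟨Ne, Xe, Ie, he⟩ := hA.ecl 1 (by
    intro h
    have h2 := W.ha
    have h3 := W.h2a
    have h4 := W.hb
    have h5 := W.h2b
    have h6 := hc
    have h1 := Int.le_of_dvd (by omega) h
    omega)
  exact Helper48.Y.Y11_c2_P2_m1n0.closed W (G0.of W.toBase hc) (KCl.of hK) kz he
    (kok_Y (R := R) (Or.inl rfl) hM kz.z1 kz.z2 (by simp [xv] <;> ring) (by simp [xv] <;> ring) (by simp [xv] <;> ring))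
    h0 h1 h2 h3 h4 h5 h6 h7 h8 h9 h10

theorem a_Y11_c2_P2_m1n1 {p a b c J l q : ℤ} {D dl : ℝ} {Cl : ℤ → ℤ → ℤ → ℤ → ℝ → Prop}
    (W : World p a b c J 1 l q D dl Cl) (hc : -a < c) (hA : Aux p a b 1 D Cl)
    {N X R : ℤ} {I : ℝ} (hK : KGF p a b 1 D (P1 l p) Cl N X R I)
    (hM : KMY p a b 1 (P1 l p) Cl N (b + (1 : ℤ) * (X + (1 : ℤ) * I)))
    (h0 : 1 ≤ (c : ℝ))
    (h1 : 1 ≤ (a : ℝ) - (b : ℝ))
    (h2 : 1 ≤ 1 - (a : ℝ) + (b : ℝ) + (c : ℝ))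
    (h3 : 0 < 1 + 2 * (p : ℝ) - 5 * D)
    (h4 : 1 ≤ 2 * (a : ℝ) - (b : ℝ))
    (h5 : 1 ≤ -1 + (J : ℝ))
    (h6 : 1 ≤ 3 - (J : ℝ))
    (h7 : 0 < -(b : ℝ) - (X : ℝ) + D - I)
    (h8 : 0 < -(J : ℝ) + I)
    (h9 : 0 < -(J : ℝ) + D - I)
    (h10 : 0 < -2 * (X : ℝ) + D - 2 * I) : False := by
  have kz := KF.of hK
  obtain ⟨Ne, Xe, Ie, he⟩ := hA.ecl 1 (by
    intro h
    have h2 := W.ha
    have h3 := W.h2a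
    have h4 := W.hb
    have h5 := W.h2b
    have h6 := hc
    have h1 := Int.le_of_dvd (by omega) h
    omega)
  exact Helper48.Y.Y11_c2_P2_m1n1.closed W (G0.of W.toBase hc) (KCl.of hK) kz he
    (kok_Y (R := R) (Or.inl rfl) hM kz.z1 kz.z2 (by simp [xv] <;> ring) (by simp [xv] <;> ring) (by simp [xv] <;> ring))
    h0 h1 h2 h3 h4 h5 h6 h7 h8 h9 h10

theorem a_Y11_c2_P3_m0n0 {p a b c J l q : ℤ} {D dl : ℝ} {Cl : ℤ → ℤ → ℤ → ℤ → ℝ → Prop}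
    (W : World p a b c J 1 l q D dl Cl) (hc : -a < c) (hA : Aux p a b 1 D Cl)
    {N X R : ℤ} {I : ℝ} (hK : KGF p a b 1 D (P1 l p) Cl N X R I)
    (hM : KMY p a b 1 (P1 l p) Cl N (b + (1 : ℤ) * (X + (1 : ℤ) * I)))
    (h0 : 1 ≤ (c : ℝ))
    (h1 : 1 ≤ (a : ℝ) - (b : ℝ))
    (h2 : 1 ≤ 1 - (a : ℝ) + (b : ℝ) + (c : ℝ))
    (h3 : 0 < -1 + (p : ℝ) - 2 * D)
    (h4 : 0 < 3 - (p : ℝ) + 2 * D)
    (h5 : 0 < 1 + 3 * (J : ℝ) - D)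
    (h6 : 1 ≤ 2 * (a : ℝ) - (b : ℝ))
    (h7 : 1 ≤ -2 + (J : ℝ))
    (h8 : 0 < -(b : ℝ) - (X : ℝ) + D - I)
    (h9 : 0 < (J : ℝ) - I)
    (h10 : 0 < (J : ℝ) - D + I)
    (h11 : 0 < -2 * (X : ℝ) + D - 2 * I) : False := by
  have kz := KF.of hK
  obtain ⟨Ne, Xe, Ie, he⟩ := hA.ecl 1 (by
    intro h
    have h2 := W.ha
    have h3 := W.h2a
    have h4 := W.hb
    have h5 := W.h2b
    have h6 := hc
    have h1 := Int.le_of_dvd (by omega) h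
    omega)
  exact Helper48.Y.Y11_c2_P3_m0n0.closed W (G0.of W.toBase hc) (KCl.of hK) kz he
    (kok_Y (R := R) (Or.inl rfl) hM kz.z1 kz.z2 (by simp [xv] <;> ring) (by simp [xv] <;> ring) (by simp [xv] <;> ring))
    h0 h1 h2 h3 h4 h5 h6 h7 h8 h9 h10 h11

theorem a_Y11_c2_P3_m0n1 {p a b c J l q : ℤ} {D dl : ℝ} {Cl : ℤ → ℤ → ℤ → ℤ → ℝ → Prop}
    (W : World p a b c J 1 l q D dl Cl) (hc : -a < c) (hA : Aux p a b 1 D Cl)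
    {N X R : ℤ} {I : ℝ} (hK : KGF p a b 1 D (P1 l p) Cl N X R I)
    (hM : KMY p a b 1 (P1 l p) Cl N (b + (1 : ℤ) * (X + (1 : ℤ) * I)))
    (h0 : 1 ≤ (c : ℝ))
    (h1 : 1 ≤ (a : ℝ) - (b : ℝ))
    (h2 : 1 ≤ 1 - (a : ℝ) + (b : ℝ) + (c : ℝ))
    (h3 : 0 < -1 + (p : ℝ) - 2 * D)
    (h4 : 0 < 3 - (p : ℝ) + 2 * D)
    (h5 : 0 < 1 + 3 * (J : ℝ) - D)
    (h6 : 1 ≤ 2 * (a : ℝ) - (b : ℝ))
    (h7 : 1 ≤ -2 + (J : ℝ))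
    (h8 : 0 < -(b : ℝ) - (X : ℝ) + D - I)
    (h9 : 0 < (J : ℝ) - I)
    (h10 : 0 < -(J : ℝ) + D - I)
    (h11 : 0 < -2 * (X : ℝ) + D - 2 * I) : False := by
  have kz := KF.of hK
  obtain ⟨Ne, Xe, Ie, he⟩ := hA.ecl 1 (by
    intro h
    have h2 := W.ha
    have h3 := W.h2a
    have h4 := W.hb
    have h5 := W.h2b
    have h6 := hc
    have h1 := Int.le_of_dvd (by omega) h
    omega)
  exact Helper48.Y.Y11_c2_P3_m0n1.closed W (G0.of W.toBase hc) (KCl.of hK) kz he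
    (kok_Y (R := R) (Or.inl rfl) hM kz.z1 kz.z2 (by simp [xv] <;> ring) (by simp [xv] <;> ring) (by simp [xv] <;> ring))
    h0 h1 h2 h3 h4 h5 h6 h7 h8 h9 h10 h11

theorem a_Y11_c2_P3_m1n0 {p a b c J l q : ℤ} {D dl : ℝ} {Cl : ℤ → ℤ → ℤ → ℤ → ℝ → Prop}
    (W : World p a b c J 1 l q D dl Cl) (hc : -a < c) (hA : Aux p a b 1 D Cl)
    {N X R : ℤ} {I : ℝ} (hK : KGF p a b 1 D (P1 l p) Cl N X R I)
    (hM : KMY p a b 1 (P1 l p) Cl N (b + (1 : ℤ) * (X + (1 : ℤ) * I)))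
    (h0 : 1 ≤ (c : ℝ))
    (h1 : 1 ≤ (a : ℝ) - (b : ℝ))
    (h2 : 1 ≤ 1 - (a : ℝ) + (b : ℝ) + (c : ℝ))
    (h3 : 0 < -1 + (p : ℝ) - 2 * D)
    (h4 : 0 < 3 - (p : ℝ) + 2 * D)
    (h5 : 0 < 1 + 3 * (J : ℝ) - D)
    (h6 : 1 ≤ 2 * (a : ℝ) - (b : ℝ))
    (h7 : 1 ≤ -2 + (J : ℝ))
    (h8 : 0 < -(b : ℝ) - (X : ℝ) + D - I)
    (h9 : 0 < -(J : ℝ) + I)
    (h10 : 0 < (J : ℝ) - D + I)
    (h11 : 0 < -2 * (X : ℝ) + D - 2 * I) : False := by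
  have kz := KF.of hK
  obtain ⟨Ne, Xe, Ie, he⟩ := hA.ecl 1 (by
    intro h
    have h2 := W.ha
    have h3 := W.h2a
    have h4 := W.hb
    have h5 := W.h2b
    have h6 := hc
    have h1 := Int.le_of_dvd (by omega) h
    omega)
  exact Helper48.Y.Y11_c2_P3_m1n0.closed W (G0.of W.toBase hc) (KCl.of hK) kz he
    (kok_Y (R := R) (Or.inl rfl) hM kz.z1 kz.z2 (by simp [xv] <;> ring) (by simp [xv] <;> ring) (by simp [xv] <;> ring))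
    h0 h1 h2 h3 h4 h5 h6 h7 h8 h9 h10 h11

theorem a_Y11_c2_P3_m1n1 {p a b c J l q : ℤ} {D dl : ℝ} {Cl : ℤ → ℤ → ℤ → ℤ → ℝ → Prop}
    (W : World p a b c J 1 l q D dl Cl) (hc : -a < c) (hA : Aux p a b 1 D Cl)
    {N X R : ℤ} {I : ℝ} (hK : KGF p a b 1 D (P1 l p) Cl N X R I)
    (hM : KMY p a b 1 (P1 l p) Cl N (b + (1 : ℤ) * (X + (1 : ℤ) * I)))
    (h0 : 1 ≤ (c : ℝ))
    (h1 : 1 ≤ (a : ℝ) - (b : ℝ))
    (h2 : 1 ≤ 1 - (a : ℝ) + (b : ℝ) + (c : ℝ))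
    (h3 : 0 < -1 + (p : ℝ) - 2 * D)
    (h4 : 0 < 3 - (p : ℝ) + 2 * D)
    (h5 : 0 < 1 + 3 * (J : ℝ) - D)
    (h6 : 1 ≤ 2 * (a : ℝ) - (b : ℝ))
    (h7 : 1 ≤ -2 + (J : ℝ))
    (h8 : 0 < -(b : ℝ) - (X : ℝ) + D - I)
    (h9 : 0 < -(J : ℝ) + I)
    (h10 : 0 < -(J : ℝ) + D - I)
    (h11 : 0 < -2 * (X : ℝ) + D - 2 * I) : False := by
  have kz := KF.of hK
  obtain ⟨Ne, Xe, Ie, he⟩ := hA.ecl 1 (by
    intro h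
    have h2 := W.ha
    have h3 := W.h2a
    have h4 := W.hb
    have h5 := W.h2b
    have h6 := hc
    have h1 := Int.le_of_dvd (by omega) h
    omega)
  exact Helper48.Y.Y11_c2_P3_m1n1.closed W (G0.of W.toBase hc) (KCl.of hK) kz he
    (kok_Y (R := R) (Or.inl rfl) hM kz.z1 kz.z2 (by simp [xv] <;> ring) (by simp [xv] <;> ring) (by simp [xv] <;> ring))
    h0 h1 h2 h3 h4 h5 h6 h7 h8 h9 h10 h11

theorem a_Y11_c2_P4_m0n1 {p a b c J l q : ℤ} {D dl : ℝ} {Cl : ℤ → ℤ → ℤ → ℤ → ℝ → Prop}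
    (W : World p a b c J 1 l q D dl Cl) (hc : -a < c) (hA : Aux p a b 1 D Cl)
    {N X R : ℤ} {I : ℝ} (hK : KGF p a b 1 D (P1 l p) Cl N X R I)
    (hM : KMY p a b 1 (P1 l p) Cl N (b + (1 : ℤ) * (X + (1 : ℤ) * I)))
    (h0 : 1 ≤ (c : ℝ))
    (h1 : 1 ≤ (a : ℝ) - (b : ℝ))
    (h2 : 1 ≤ 1 - (a : ℝ) + (b : ℝ) + (c : ℝ))
    (h3 : 0 < -3 + (p : ℝ) - 2 * D)
    (h4 : 1 ≤ 2 * (a : ℝ) - (b : ℝ))
    (h5 : 1 ≤ -2 + (J : ℝ))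
    (h6 : 0 < -(b : ℝ) - (X : ℝ) + D - I)
    (h7 : 0 < (J : ℝ) - I)
    (h8 : 0 < -(J : ℝ) + D - I)
    (h9 : 0 < -2 * (X : ℝ) + D - 2 * I) : False := by
  have kz := KF.of hK
  obtain ⟨Ne, Xe, Ie, he⟩ := hA.ecl 1 (by
    intro h
    have h2 := W.ha
    have h3 := W.h2a
    have h4 := W.hb
    have h5 := W.h2b
    have h6 := hc
    have h1 := Int.le_of_dvd (by omega) h
    omega)
  exact Helper48.Y.Y11_c2_P4_m0n1.closed W (G0.of W.toBase hc) (KCl.of hK) kz he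
    (kok_Y (R := R) (Or.inl rfl) hM kz.z1 kz.z2 (by simp [xv] <;> ring) (by simp [xv] <;> ring) (by simp [xv] <;> ring))
    h0 h1 h2 h3 h4 h5 h6 h7 h8 h9

theorem a_Y11_c2_P4_m1n0 {p a b c J l q : ℤ} {D dl : ℝ} {Cl : ℤ → ℤ → ℤ → ℤ → ℝ → Prop}
    (W : World p a b c J 1 l q D dl Cl) (hc : -a < c) (hA : Aux p a b 1 D Cl)
    {N X R : ℤ} {I : ℝ} (hK : KGF p a b 1 D (P1 l p) Cl N X R I)
    (hM : KMY p a b 1 (P1 l p) Cl N (b + (1 : ℤ) * (X + (1 : ℤ) * I)))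
    (h0 : 1 ≤ (c : ℝ))
    (h1 : 1 ≤ (a : ℝ) - (b : ℝ))
    (h2 : 1 ≤ 1 - (a : ℝ) + (b : ℝ) + (c : ℝ))
    (h3 : 0 < -3 + (p : ℝ) - 2 * D)
    (h4 : 1 ≤ 2 * (a : ℝ) - (b : ℝ))
    (h5 : 1 ≤ -2 + (J : ℝ))
    (h6 : 0 < -(b : ℝ) - (X : ℝ) + D - I)
    (h7 : 0 < -(J : ℝ) + I)
    (h8 : 0 < (J : ℝ) - D + I)
    (h9 : 0 < -2 * (X : ℝ) + D - 2 * I) : False := by
  have kz := KF.of hK
  obtain ⟨Ne, Xe, Ie, he⟩ := hA.ecl 1 (by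
    intro h
    have h2 := W.ha
    have h3 := W.h2a
    have h4 := W.hb
    have h5 := W.h2b
    have h6 := hc
    have h1 := Int.le_of_dvd (by omega) h
    omega)
  exact Helper48.Y.Y11_c2_P4_m1n0.closed W (G0.of W.toBase hc) (KCl.of hK) kz he
    (kok_Y (R := R) (Or.inl rfl) hM kz.z1 kz.z2 (by simp [xv] <;> ring) (by simp [xv] <;> ring) (by simp [xv] <;> ring))
    h0 h1 h2 h3 h4 h5 h6 h7 h8 h9

theorem a_Y11_c2_P4_m1n1 {p a b c J l q : ℤ} {D dl : ℝ} {Cl : ℤ → ℤ → ℤ → ℤ → ℝ → Prop}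
    (W : World p a b c J 1 l q D dl Cl) (hc : -a < c) (hA : Aux p a b 1 D Cl)
    {N X R : ℤ} {I : ℝ} (hK : KGF p a b 1 D (P1 l p) Cl N X R I)
    (hM : KMY p a b 1 (P1 l p) Cl N (b + (1 : ℤ) * (X + (1 : ℤ) * I)))
    (h0 : 1 ≤ (c : ℝ))
    (h1 : 1 ≤ (a : ℝ) - (b : ℝ))
    (h2 : 1 ≤ 1 - (a : ℝ) + (b : ℝ) + (c : ℝ))
    (h3 : 0 < -3 + (p : ℝ) - 2 * D)
    (h4 : 1 ≤ 2 * (a : ℝ) - (b : ℝ))
    (h5 : 1 ≤ -2 + (J : ℝ))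
    (h6 : 0 < -(b : ℝ) - (X : ℝ) + D - I)
    (h7 : 0 < -(J : ℝ) + I)
    (h8 : 0 < -(J : ℝ) + D - I)
    (h9 : 0 < -2 * (X : ℝ) + D - 2 * I) : False := by
  have kz := KF.of hK
  obtain ⟨Ne, Xe, Ie, he⟩ := hA.ecl 1 (by
    intro h
    have h2 := W.ha
    have h3 := W.h2a
    have h4 := W.hb
    have h5 := W.h2b
    have h6 := hc
    have h1 := Int.le_of_dvd (by omega) h
    omega)
  exact Helper48.Y.Y11_c2_P4_m1n1.closed W (G0.of W.toBase hc) (KCl.of hK) kz he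
    (kok_Y (R := R) (Or.inl rfl) hM kz.z1 kz.z2 (by simp [xv] <;> ring) (by simp [xv] <;> ring) (by simp [xv] <;> ring))
    h0 h1 h2 h3 h4 h5 h6 h7 h8 h9

theorem a_Y11_c35_L2_m0n0 {p a b c J l q : ℤ} {D dl : ℝ} {Cl : ℤ → ℤ → ℤ → ℤ → ℝ → Prop}
    (W : World p a b c J 1 l q D dl Cl) (hc : -a < c) (hA : Aux p a b 1 D Cl)
    {N X R : ℤ} {I : ℝ} (hK : KGF p a b 1 D (P1 l p) Cl N X R I)
    (hM : KMY p a b 1 (P1 l p) Cl N (b + (1 : ℤ) * (X + (1 : ℤ) * I)))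
    (h0 : 1 ≤ (c : ℝ))
    (h1 : 1 ≤ 1 - (a : ℝ) + (b : ℝ))
    (h2 : 1 ≤ 2 * (a : ℝ) - (b : ℝ))
    (h3 : 0 < 1 - (p : ℝ) + 2 * D)
    (h5 : 1 ≤ 2 - (J : ℝ))
    (h6 : 0 < -(b : ℝ) - (X : ℝ) + D - I)
    (h7 : 0 < (J : ℝ) - I)
    (h8 : 0 < (J : ℝ) - D + I)
    (h9 : 0 < -2 * (X : ℝ) + D - 2 * I) : False := by
  have kz := KF.of hK
  obtain ⟨Ne, Xe, Ie, he⟩ := hA.ecl 1 (by
    intro h
    have h2 := W.ha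
    have h3 := W.h2a
    have h4 := W.hb
    have h5 := W.h2b
    have h6 := hc
    have h1 := Int.le_of_dvd (by omega) h
    omega)
  exact Helper48.Y.Y11_c35_L2_m0n0.closed W (G0.of W.toBase hc) (KCl.of hK) kz he
    (kok_Y (R := R) (Or.inl rfl) hM kz.z1 kz.z2 (by simp [xv] <;> ring) (by simp [xv] <;> ring) (by simp [xv] <;> ring))
    h0 h1 h2 h3 h2 h5 h6 h7 h8 h9

theorem a_Y11_c35_L2_m0n1 {p a b c J l q : ℤ} {D dl : ℝ} {Cl : ℤ → ℤ → ℤ → ℤ → ℝ → Prop}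
    (W : World p a b c J 1 l q D dl Cl) (hc : -a < c) (hA : Aux p a b 1 D Cl)
    {N X R : ℤ} {I : ℝ} (hK : KGF p a b 1 D (P1 l p) Cl N X R I)
    (hM : KMY p a b 1 (P1 l p) Cl N (b + (1 : ℤ) * (X + (1 : ℤ) * I)))
    (h0 : 1 ≤ (c : ℝ))
    (h1 : 1 ≤ 1 - (a : ℝ) + (b : ℝ))
    (h2 : 1 ≤ 2 * (a : ℝ) - (b : ℝ))
    (h3 : 0 < 1 - (p : ℝ) + 2 * D)
    (h5 : 1 ≤ 2 - (J : ℝ))
    (h6 : 0 < -(b : ℝ) - (X : ℝ) + D - I)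
    (h7 : 0 < (J : ℝ) - I)
    (h8 : 0 < -(J : ℝ) + D - I)
    (h9 : 0 < -2 * (X : ℝ) + D - 2 * I) : False := by
  have kz := KF.of hK
  obtain ⟨Ne, Xe, Ie, he⟩ := hA.ecl 1 (by
    intro h
    have h2 := W.ha
    have h3 := W.h2a
    have h4 := W.hb
    have h5 := W.h2b
    have h6 := hc
    have h1 := Int.le_of_dvd (by omega) h
    omega)
  exact Helper48.Y.Y11_c35_L2_m0n1.closed W (G0.of W.toBase hc) (KCl.of hK) kz he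
    (kok_Y (R := R) (Or.inl rfl) hM kz.z1 kz.z2 (by simp [xv] <;> ring) (by simp [xv] <;> ring) (by simp [xv] <;> ring))
    h0 h1 h2 h3 h2 h5 h6 h7 h8 h9

theorem a_Y11_c35_L2_m1n0 {p a b c J l q : ℤ} {D dl : ℝ} {Cl : ℤ → ℤ → ℤ → ℤ → ℝ → Prop}
    (W : World p a b c J 1 l q D dl Cl) (hc : -a < c) (hA : Aux p a b 1 D Cl)
    {N X R : ℤ} {I : ℝ} (hK : KGF p a b 1 D (P1 l p) Cl N X R I)
    (hM : KMY p a b 1 (P1 l p) Cl N (b + (1 : ℤ) * (X + (1 : ℤ) * I)))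
    (h0 : 1 ≤ (c : ℝ))
    (h1 : 1 ≤ 1 - (a : ℝ) + (b : ℝ))
    (h2 : 1 ≤ 2 * (a : ℝ) - (b : ℝ))
    (h3 : 0 < 1 - (p : ℝ) + 2 * D)
    (h5 : 1 ≤ 2 - (J : ℝ))
    (h6 : 0 < -(b : ℝ) - (X : ℝ) + D - I)
    (h7 : 0 < -(J : ℝ) + I)
    (h8 : 0 < (J : ℝ) - D + I)
    (h9 : 0 < -2 * (X : ℝ) + D - 2 * I) : False := by
  have kz := KF.of hK
  obtain ⟨Ne, Xe, Ie, he⟩ := hA.ecl 1 (by
    intro h
    have h2 := W.ha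
    have h3 := W.h2a
    have h4 := W.hb
    have h5 := W.h2b
    have h6 := hc
    have h1 := Int.le_of_dvd (by omega) h
    omega)
  exact Helper48.Y.Y11_c35_L2_m1n0.closed W (G0.of W.toBase hc) (KCl.of hK) kz he
    (kok_Y (R := R) (Or.inl rfl) hM kz.z1 kz.z2 (by simp [xv] <;> ring) (by simp [xv] <;> ring) (by simp [xv] <;> ring))
    h0 h1 h2 h3 h2 h5 h6 h7 h8 h9

theorem a_Y11_c35_L2_m1n1_CB {p a b c J l q : ℤ} {D dl : ℝ} {Cl : ℤ → ℤ → ℤ → ℤ → ℝ → Prop}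
    (W : World p a b c J 1 l q D dl Cl) (hc : -a < c) (hA : Aux p a b 1 D Cl)
    {N X R : ℤ} {I : ℝ} (hK : KGF p a b 1 D (P1 l p) Cl N X R I)
    (hM : KMY p a b 1 (P1 l p) Cl N (b + (1 : ℤ) * (X + (1 : ℤ) * I)))
    (h0 : 1 ≤ (c : ℝ))
    (h1 : 1 ≤ 1 - (a : ℝ) + (b : ℝ))
    (h2 : 1 ≤ 2 * (a : ℝ) - (b : ℝ))
    (h3 : 0 < 1 - (p : ℝ) + 2 * D)
    (h4 : 1 ≤ 1 + (a : ℝ) - (b : ℝ))
    (h6 : 1 ≤ -1 - 2 * (a : ℝ) + (p : ℝ))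
    (h8 : 1 ≤ 2 - (J : ℝ))
    (h9 : 0 < -(b : ℝ) - (X : ℝ) + D - I)
    (h10 : 0 < -(J : ℝ) + I)
    (h11 : 0 < -(J : ℝ) + D - I)
    (h12 : 0 < -2 * (X : ℝ) + D - 2 * I) : False := by
  have kz := KF.of hK
  obtain ⟨Ne, Xe, Ie, he⟩ := hA.ecl 1 (by
    intro h
    have h2 := W.ha
    have h3 := W.h2a
    have h4 := W.hb
    have h5 := W.h2b
    have h6 := hc
    have h1 := Int.le_of_dvd (by omega) h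
    omega)
  exact Helper48.Y.Y11_c35_L2_m1n1_CB.closed W (G0.of W.toBase hc) (KCl.of hK) kz he
    (kok_Y (R := R) (Or.inl rfl) hM kz.z1 kz.z2 (by simp [xv] <;> ring) (by simp [xv] <;> ring) (by simp [xv] <;> ring))
    h0 h1 h2 h3 h4 h1 h6 h2 h8 h9 h10 h11 h12

theorem a_Y11_c35_L2_m1n1_CC {p a b c J l q : ℤ} {D dl : ℝ} {Cl : ℤ → ℤ → ℤ → ℤ → ℝ → Prop}
    (W : World p a b c J 1 l q D dl Cl) (hc : -a < c) (hA : Aux p a b 1 D Cl)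
    {N X R : ℤ} {I : ℝ} (hK : KGF p a b 1 D (P1 l p) Cl N X R I)
    (hM : KMY p a b 1 (P1 l p) Cl N (b + (1 : ℤ) * (X + (1 : ℤ) * I)))
    (h0 : 1 ≤ (c : ℝ))
    (h1 : 1 ≤ 1 - (a : ℝ) + (b : ℝ))
    (h2 : 1 ≤ 2 * (a : ℝ) - (b : ℝ))
    (h3 : 0 < 1 - (p : ℝ) + 2 * D)
    (h4 : 1 ≤ -(a : ℝ) + (b : ℝ))
    (h6 : 1 ≤ 2 - (J : ℝ))
    (h7 : 0 < -(b : ℝ) - (X : ℝ) + D - I)
    (h8 : 0 < -(J : ℝ) + I)
    (h9 : 0 < -(J : ℝ) + D - I)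
    (h10 : 0 < -2 * (X : ℝ) + D - 2 * I) : False := by
  have kz := KF.of hK
  obtain ⟨Ne, Xe, Ie, he⟩ := hA.ecl 1 (by
    intro h
    have h2 := W.ha
    have h3 := W.h2a
    have h4 := W.hb
    have h5 := W.h2b
    have h6 := hc
    have h1 := Int.le_of_dvd (by omega) h
    omega)
  exact Helper48.Y.Y11_c35_L2_m1n1_CC.closed W (G0.of W.toBase hc) (KCl.of hK) kz he
    (kok_Y (R := R) (Or.inl rfl) hM kz.z1 kz.z2 (by simp [xv] <;> ring) (by simp [xv] <;> ring) (by simp [xv] <;> ring))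
    h0 h1 h2 h3 h4 h2 h6 h7 h8 h9 h10

theorem a_Y11_c35_L2_m1n1_K2 {p a b c J l q : ℤ} {D dl : ℝ} {Cl : ℤ → ℤ → ℤ → ℤ → ℝ → Prop}
    (W : World p a b c J 1 l q D dl Cl) (hc : -a < c) (hA : Aux p a b 1 D Cl)
    {N X R : ℤ} {I : ℝ} (hK : KGF p a b 1 D (P1 l p) Cl N X R I)
    (hM : KMY p a b 1 (P1 l p) Cl N (b + (1 : ℤ) * (X + (1 : ℤ) * I)))
    (h0 : 1 ≤ (c : ℝ))
    (h1 : 1 ≤ 1 - (a : ℝ) + (b : ℝ))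
    (h2 : 1 ≤ 2 * (a : ℝ) - (b : ℝ))
    (h3 : 0 < 1 - (p : ℝ) + 2 * D)
    (h4 : 1 ≤ 1 + (a : ℝ) - (b : ℝ))
    (h6 : 1 ≤ 2 + 2 * (a : ℝ) - (p : ℝ))
    (h8 : 1 ≤ 2 - (J : ℝ))
    (h9 : 1 ≤ -1 + (c : ℝ))
    (h10 : 0 < -(b : ℝ) - (X : ℝ) + D - I)
    (h11 : 0 < -(J : ℝ) + I)
    (h12 : 0 < -(J : ℝ) + D - I)
    (h13 : 0 < -2 * (X : ℝ) + D - 2 * I) : False := by
  have kz := KF.of hK
  obtain ⟨Ne, Xe, Ie, he⟩ := hA.ecl 1 (by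
    intro h
    have h2 := W.ha
    have h3 := W.h2a
    have h4 := W.hb
    have h5 := W.h2b
    have h6 := hc
    have h1 := Int.le_of_dvd (by omega) h
    omega)
  exact Helper48.Y.Y11_c35_L2_m1n1_K2.closed W (G0.of W.toBase hc) (KCl.of hK) kz he
    (kok_Y (R := R) (Or.inl rfl) hM kz.z1 kz.z2 (by simp [xv] <;> ring) (by simp [xv] <;> ring) (by simp [xv] <;> ring))
    h0 h1 h2 h3 h4 h1 h6 h2 h8 h9 h10 h11 h12 h13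

theorem a_Y11_c35_P1_m0n0 {p a b c J l q : ℤ} {D dl : ℝ} {Cl : ℤ → ℤ → ℤ → ℤ → ℝ → Prop}
    (W : World p a b c J 1 l q D dl Cl) (hc : -a < c) (hA : Aux p a b 1 D Cl)
    {N X R : ℤ} {I : ℝ} (hK : KGF p a b 1 D (P1 l p) Cl N X R I)
    (hM : KMY p a b 1 (P1 l p) Cl N (b + (1 : ℤ) * (X + (1 : ℤ) * I)))
    (h0 : 1 ≤ (c : ℝ))
    (h1 : 1 ≤ 1 - (a : ℝ) + (b : ℝ))
    (h2 : 1 ≤ 2 * (a : ℝ) - (b : ℝ))
    (h3 : 0 < 1 + (p : ℝ) - 3 * D)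
    (h5 : 1 ≤ 2 - (J : ℝ))
    (h6 : 0 < -(b : ℝ) - (X : ℝ) + D - I)
    (h7 : 0 < (J : ℝ) - I)
    (h8 : 0 < (J : ℝ) - D + I)
    (h9 : 0 < -2 * (X : ℝ) + D - 2 * I) : False := by
  have kz := KF.of hK
  obtain ⟨Ne, Xe, Ie, he⟩ := hA.ecl 1 (by
    intro h
    have h2 := W.ha
    have h3 := W.h2a
    have h4 := W.hb
    have h5 := W.h2b
    have h6 := hc
    have h1 := Int.le_of_dvd (by omega) h
    omega)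
  exact Helper48.Y.Y11_c35_P1_m0n0.closed W (G0.of W.toBase hc) (KCl.of hK) kz he
    (kok_Y (R := R) (Or.inl rfl) hM kz.z1 kz.z2 (by simp [xv] <;> ring) (by simp [xv] <;> ring) (by simp [xv] <;> ring))
    h0 h1 h2 h3 h2 h5 h6 h7 h8 h9

theorem a_Y11_c35_P1_m0n1 {p a b c J l q : ℤ} {D dl : ℝ} {Cl : ℤ → ℤ → ℤ → ℤ → ℝ → Prop}
    (W : World p a b c J 1 l q D dl Cl) (hc : -a < c) (hA : Aux p a b 1 D Cl)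
    {N X R : ℤ} {I : ℝ} (hK : KGF p a b 1 D (P1 l p) Cl N X R I)
    (hM : KMY p a b 1 (P1 l p) Cl N (b + (1 : ℤ) * (X + (1 : ℤ) * I)))
    (h0 : 1 ≤ (c : ℝ))
    (h1 : 1 ≤ 1 - (a : ℝ) + (b : ℝ))
    (h2 : 1 ≤ 2 * (a : ℝ) - (b : ℝ))
    (h3 : 0 < 1 + (p : ℝ) - 3 * D)
    (h5 : 1 ≤ 2 - (J : ℝ))
    (h6 : 0 < -(b : ℝ) - (X : ℝ) + D - I)
    (h7 : 0 < (J : ℝ) - I)
    (h8 : 0 < -(J : ℝ) + D - I)
    (h9 : 0 < -2 * (X : ℝ) + D - 2 * I) : False := by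
  have kz := KF.of hK
  obtain ⟨Ne, Xe, Ie, he⟩ := hA.ecl 1 (by
    intro h
    have h2 := W.ha
    have h3 := W.h2a
    have h4 := W.hb
    have h5 := W.h2b
    have h6 := hc
    have h1 := Int.le_of_dvd (by omega) h
    omega)
  exact Helper48.Y.Y11_c35_P1_m0n1.closed W (G0.of W.toBase hc) (KCl.of hK) kz he
    (kok_Y (R := R) (Or.inl rfl) hM kz.z1 kz.z2 (by simp [xv] <;> ring) (by simp [xv] <;> ring) (by simp [xv] <;> ring))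
    h0 h1 h2 h3 h2 h5 h6 h7 h8 h9

theorem a_Y11_c35_P1_m1n0 {p a b c J l q : ℤ} {D dl : ℝ} {Cl : ℤ → ℤ → ℤ → ℤ → ℝ → Prop}
    (W : World p a b c J 1 l q D dl Cl) (hc : -a < c) (hA : Aux p a b 1 D Cl)
    {N X R : ℤ} {I : ℝ} (hK : KGF p a b 1 D (P1 l p) Cl N X R I)
    (hM : KMY p a b 1 (P1 l p) Cl N (b + (1 : ℤ) * (X + (1 : ℤ) * I)))
    (h0 : 1 ≤ (c : ℝ))
    (h1 : 1 ≤ 1 - (a : ℝ) + (b : ℝ))
    (h2 : 1 ≤ 2 * (a : ℝ) - (b : ℝ))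
    (h3 : 0 < 1 + (p : ℝ) - 3 * D)
    (h5 : 1 ≤ 2 - (J : ℝ))
    (h6 : 0 < -(b : ℝ) - (X : ℝ) + D - I)
    (h7 : 0 < -(J : ℝ) + I)
    (h8 : 0 < (J : ℝ) - D + I)
    (h9 : 0 < -2 * (X : ℝ) + D - 2 * I) : False := by
  have kz := KF.of hK
  obtain ⟨Ne, Xe, Ie, he⟩ := hA.ecl 1 (by
    intro h
    have h2 := W.ha
    have h3 := W.h2a
    have h4 := W.hb
    have h5 := W.h2b
    have h6 := hc
    have h1 := Int.le_of_dvd (by omega) h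
    omega)
  exact Helper48.Y.Y11_c35_P1_m1n0.closed W (G0.of W.toBase hc) (KCl.of hK) kz he
    (kok_Y (R := R) (Or.inl rfl) hM kz.z1 kz.z2 (by simp [xv] <;> ring) (by simp [xv] <;> ring) (by simp [xv] <;> ring))
    h0 h1 h2 h3 h2 h5 h6 h7 h8 h9

theorem a_Y11_c35_P1_m1n1_CB {p a b c J l q : ℤ} {D dl : ℝ} {Cl : ℤ → ℤ → ℤ → ℤ → ℝ → Prop}
    (W : World p a b c J 1 l q D dl Cl) (hc : -a < c) (hA : Aux p a b 1 D Cl)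
    {N X R : ℤ} {I : ℝ} (hK : KGF p a b 1 D (P1 l p) Cl N X R I)
    (hM : KMY p a b 1 (P1 l p) Cl N (b + (1 : ℤ) * (X + (1 : ℤ) * I)))
    (h0 : 1 ≤ (c : ℝ))
    (h1 : 1 ≤ 1 - (a : ℝ) + (b : ℝ))
    (h2 : 1 ≤ 2 * (a : ℝ) - (b : ℝ))
    (h3 : 0 < 1 + (p : ℝ) - 3 * D)
    (h4 : 1 ≤ 1 + (a : ℝ) - (b : ℝ))
    (h6 : 1 ≤ -1 - 2 * (a : ℝ) + (p : ℝ))
    (h8 : 1 ≤ 2 - (J : ℝ))
    (h9 : 0 < -(b : ℝ) - (X : ℝ) + D - I)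
    (h10 : 0 < -(J : ℝ) + I)
    (h11 : 0 < -(J : ℝ) + D - I)
    (h12 : 0 < -2 * (X : ℝ) + D - 2 * I) : False := by
  have kz := KF.of hK
  obtain ⟨Ne, Xe, Ie, he⟩ := hA.ecl 1 (by
    intro h
    have h2 := W.ha
    have h3 := W.h2a
    have h4 := W.hb
    have h5 := W.h2b
    have h6 := hc
    have h1 := Int.le_of_dvd (by omega) h
    omega)
  exact Helper48.Y.Y11_c35_P1_m1n1_CB.closed W (G0.of W.toBase hc) (KCl.of hK) kz he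
    (kok_Y (R := R) (Or.inl rfl) hM kz.z1 kz.z2 (by simp [xv] <;> ring) (by simp [xv] <;> ring) (by simp [xv] <;> ring))
    h0 h1 h2 h3 h4 h1 h6 h2 h8 h9 h10 h11 h12

theorem a_Y11_c35_P1_m1n1_CC {p a b c J l q : ℤ} {D dl : ℝ} {Cl : ℤ → ℤ → ℤ → ℤ → ℝ → Prop}
    (W : World p a b c J 1 l q D dl Cl) (hc : -a < c) (hA : Aux p a b 1 D Cl)
    {N X R : ℤ} {I : ℝ} (hK : KGF p a b 1 D (P1 l p) Cl N X R I)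
    (hM : KMY p a b 1 (P1 l p) Cl N (b + (1 : ℤ) * (X + (1 : ℤ) * I)))
    (h0 : 1 ≤ (c : ℝ))
    (h1 : 1 ≤ 1 - (a : ℝ) + (b : ℝ))
    (h2 : 1 ≤ 2 * (a : ℝ) - (b : ℝ))
    (h3 : 0 < 1 + (p : ℝ) - 3 * D)
    (h4 : 1 ≤ -(a : ℝ) + (b : ℝ))
    (h6 : 1 ≤ 2 - (J : ℝ))
    (h7 : 0 < -(b : ℝ) - (X : ℝ) + D - I)
    (h8 : 0 < -(J : ℝ) + I)
    (h9 : 0 < -(J : ℝ) + D - I)
    (h10 : 0 < -2 * (X : ℝ) + D - 2 * I) : False := by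
  have kz := KF.of hK
  obtain ⟨Ne, Xe, Ie, he⟩ := hA.ecl 1 (by
    intro h
    have h2 := W.ha
    have h3 := W.h2a
    have h4 := W.hb
    have h5 := W.h2b
    have h6 := hc
    have h1 := Int.le_of_dvd (by omega) h
    omega)
  exact Helper48.Y.Y11_c35_P1_m1n1_CC.closed W (G0.of W.toBase hc) (KCl.of hK) kz he
    (kok_Y (R := R) (Or.inl rfl) hM kz.z1 kz.z2 (by simp [xv] <;> ring) (by simp [xv] <;> ring) (by simp [xv] <;> ring))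
    h0 h1 h2 h3 h4 h2 h6 h7 h8 h9 h10

theorem a_Y11_c35_P1_m1n1_K2 {p a b c J l q : ℤ} {D dl : ℝ} {Cl : ℤ → ℤ → ℤ → ℤ → ℝ → Prop}
    (W : World p a b c J 1 l q D dl Cl) (hc : -a < c) (hA : Aux p a b 1 D Cl)
    {N X R : ℤ} {I : ℝ} (hK : KGF p a b 1 D (P1 l p) Cl N X R I)
    (hM : KMY p a b 1 (P1 l p) Cl N (b + (1 : ℤ) * (X + (1 : ℤ) * I)))
    (h0 : 1 ≤ (c : ℝ))
    (h1 : 1 ≤ 1 - (a : ℝ) + (b : ℝ))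
    (h2 : 1 ≤ 2 * (a : ℝ) - (b : ℝ))
    (h3 : 0 < 1 + (p : ℝ) - 3 * D)
    (h4 : 1 ≤ 1 + (a : ℝ) - (b : ℝ))
    (h6 : 1 ≤ 2 + 2 * (a : ℝ) - (p : ℝ))
    (h8 : 1 ≤ 2 - (J : ℝ))
    (h9 : 1 ≤ -1 + (c : ℝ))
    (h10 : 0 < -(b : ℝ) - (X : ℝ) + D - I)
    (h11 : 0 < -(J : ℝ) + I)
    (h12 : 0 < -(J : ℝ) + D - I)
    (h13 : 0 < -2 * (X : ℝ) + D - 2 * I) : False := by
  have kz := KF.of hK
  obtain ⟨Ne, Xe, Ie, he⟩ := hA.ecl 1 (by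
    intro h
    have h2 := W.ha
    have h3 := W.h2a
    have h4 := W.hb
    have h5 := W.h2b
    have h6 := hc
    have h1 := Int.le_of_dvd (by omega) h
    omega)
  exact Helper48.Y.Y11_c35_P1_m1n1_K2.closed W (G0.of W.toBase hc) (KCl.of hK) kz he
    (kok_Y (R := R) (Or.inl rfl) hM kz.z1 kz.z2 (by simp [xv] <;> ring) (by simp [xv] <;> ring) (by simp [xv] <;> ring))
    h0 h1 h2 h3 h4 h1 h6 h2 h8 h9 h10 h11 h12 h13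

theorem a_Y11_c35_P2_m0n0 {p a b c J l q : ℤ} {D dl : ℝ} {Cl : ℤ → ℤ → ℤ → ℤ → ℝ → Prop}
    (W : World p a b c J 1 l q D dl Cl) (hc : -a < c) (hA : Aux p a b 1 D Cl)
    {N X R : ℤ} {I : ℝ} (hK : KGF p a b 1 D (P1 l p) Cl N X R I)
    (hM : KMY p a b 1 (P1 l p) Cl N (b + (1 : ℤ) * (X + (1 : ℤ) * I)))
    (h0 : 1 ≤ (c : ℝ))
    (h1 : 1 ≤ 1 - (a : ℝ) + (b : ℝ))
    (h2 : 1 ≤ 2 * (a : ℝ) - (b : ℝ))
    (h3 : 0 < 1 + 2 * (p : ℝ) - 5 * D)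
    (h5 : 1 ≤ -1 + (J : ℝ))
    (h6 : 1 ≤ 3 - (J : ℝ))
    (h7 : 0 < -(b : ℝ) - (X : ℝ) + D - I)
    (h8 : 0 < (J : ℝ) - I)
    (h9 : 0 < (J : ℝ) - D + I)
    (h10 : 0 < -2 * (X : ℝ) + D - 2 * I) : False := by
  have kz := KF.of hK
  obtain ⟨Ne, Xe, Ie, he⟩ := hA.ecl 1 (by
    intro h
    have h2 := W.ha
    have h3 := W.h2a
    have h4 := W.hb
    have h5 := W.h2b
    have h6 := hc
    have h1 := Int.le_of_dvd (by omega) h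
    omega)
  exact Helper48.Y.Y11_c35_P2_m0n0.closed W (G0.of W.toBase hc) (KCl.of hK) kz he
    (kok_Y (R := R) (Or.inl rfl) hM kz.z1 kz.z2 (by simp [xv] <;> ring) (by simp [xv] <;> ring) (by simp [xv] <;> ring))
    h0 h1 h2 h3 h2 h5 h6 h7 h8 h9 h10

theorem a_Y11_c35_P2_m0n1 {p a b c J l q : ℤ} {D dl : ℝ} {Cl : ℤ → ℤ → ℤ → ℤ → ℝ → Prop}
    (W : World p a b c J 1 l q D dl Cl) (hc : -a < c) (hA : Aux p a b 1 D Cl)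
    {N X R : ℤ} {I : ℝ} (hK : KGF p a b 1 D (P1 l p) Cl N X R I)
    (hM : KMY p a b 1 (P1 l p) Cl N (b + (1 : ℤ) * (X + (1 : ℤ) * I)))
    (h0 : 1 ≤ (c : ℝ))
    (h1 : 1 ≤ 1 - (a : ℝ) + (b : ℝ))
    (h2 : 1 ≤ 2 * (a : ℝ) - (b : ℝ))
    (h3 : 0 < 1 + 2 * (p : ℝ) - 5 * D)
    (h5 : 1 ≤ -1 + (J : ℝ))
    (h6 : 1 ≤ 3 - (J : ℝ))
    (h7 : 0 < -(b : ℝ) - (X : ℝ) + D - I)
    (h8 : 0 < (J : ℝ) - I)
    (h9 : 0 < -(J : ℝ) + D - I)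
    (h10 : 0 < -2 * (X : ℝ) + D - 2 * I) : False := by
  have kz := KF.of hK
  obtain ⟨Ne, Xe, Ie, he⟩ := hA.ecl 1 (by
    intro h
    have h2 := W.ha
    have h3 := W.h2a
    have h4 := W.hb
    have h5 := W.h2b
    have h6 := hc
    have h1 := Int.le_of_dvd (by omega) h
    omega)
  exact Helper48.Y.Y11_c35_P2_m0n1.closed W (G0.of W.toBase hc) (KCl.of hK) kz he
    (kok_Y (R := R) (Or.inl rfl) hM kz.z1 kz.z2 (by simp [xv] <;> ring) (by simp [xv] <;> ring) (by simp [xv] <;> ring))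
    h0 h1 h2 h3 h2 h5 h6 h7 h8 h9 h10

theorem a_Y11_c35_P2_m1n0 {p a b c J l q : ℤ} {D dl : ℝ} {Cl : ℤ → ℤ → ℤ → ℤ → ℝ → Prop}
    (W : World p a b c J 1 l q D dl Cl) (hc : -a < c) (hA : Aux p a b 1 D Cl)
    {N X R : ℤ} {I : ℝ} (hK : KGF p a b 1 D (P1 l p) Cl N X R I)
    (hM : KMY p a b 1 (P1 l p) Cl N (b + (1 : ℤ) * (X + (1 : ℤ) * I)))
    (h0 : 1 ≤ (c : ℝ))
    (h1 : 1 ≤ 1 - (a : ℝ) + (b : ℝ))
    (h2 : 1 ≤ 2 * (a : ℝ) - (b : ℝ))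
    (h3 : 0 < 1 + 2 * (p : ℝ) - 5 * D)
    (h5 : 1 ≤ -1 + (J : ℝ))
    (h6 : 1 ≤ 3 - (J : ℝ))
    (h7 : 0 < -(b : ℝ) - (X : ℝ) + D - I)
    (h8 : 0 < -(J : ℝ) + I)
    (h9 : 0 < (J : ℝ) - D + I)
    (h10 : 0 < -2 * (X : ℝ) + D - 2 * I) : False := by
  have kz := KF.of hK
  obtain ⟨Ne, Xe, Ie, he⟩ := hA.ecl 1 (by
    intro h
    have h2 := W.ha
    have h3 := W.h2a
    have h4 := W.hb
    have h5 := W.h2b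
    have h6 := hc
    have h1 := Int.le_of_dvd (by omega) h
    omega)
  exact Helper48.Y.Y11_c35_P2_m1n0.closed W (G0.of W.toBase hc) (KCl.of hK) kz he
    (kok_Y (R := R) (Or.inl rfl) hM kz.z1 kz.z2 (by simp [xv] <;> ring) (by simp [xv] <;> ring) (by simp [xv] <;> ring))
    h0 h1 h2 h3 h2 h5 h6 h7 h8 h9 h10

theorem a_Y11_c35_P2_m1n1_CB {p a b c J l q : ℤ} {D dl : ℝ} {Cl : ℤ → ℤ → ℤ → ℤ → ℝ → Prop}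
    (W : World p a b c J 1 l q D dl Cl) (hc : -a < c) (hA : Aux p a b 1 D Cl)
    {N X R : ℤ} {I : ℝ} (hK : KGF p a b 1 D (P1 l p) Cl N X R I)
    (hM : KMY p a b 1 (P1 l p) Cl N (b + (1 : ℤ) * (X + (1 : ℤ) * I)))
    (h0 : 1 ≤ (c : ℝ))
    (h1 : 1 ≤ 1 - (a : ℝ) + (b : ℝ))
    (h2 : 1 ≤ 2 * (a : ℝ) - (b : ℝ))
    (h3 : 0 < 1 + 2 * (p : ℝ) - 5 * D)
    (h4 : 1 ≤ 1 + (a : ℝ) - (b : ℝ))
    (h6 : 1 ≤ -1 - 2 * (a : ℝ) + (p : ℝ))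
    (h8 : 1 ≤ -1 + (J : ℝ))
    (h9 : 1 ≤ 3 - (J : ℝ))
    (h10 : 0 < -(b : ℝ) - (X : ℝ) + D - I)
    (h11 : 0 < -(J : ℝ) + I)
    (h12 : 0 < -(J : ℝ) + D - I)
    (h13 : 0 < -2 * (X : ℝ) + D - 2 * I) : False := by
  have kz := KF.of hK
  obtain ⟨Ne, Xe, Ie, he⟩ := hA.ecl 1 (by
    intro h
    have h2 := W.ha
    have h3 := W.h2a
    have h4 := W.hb
    have h5 := W.h2b
    have h6 := hc
    have h1 := Int.le_of_dvd (by omega) h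
    omega)
  exact Helper48.Y.Y11_c35_P2_m1n1_CB.closed W (G0.of W.toBase hc) (KCl.of hK) kz he
    (kok_Y (R := R) (Or.inl rfl) hM kz.z1 kz.z2 (by simp [xv] <;> ring) (by simp [xv] <;> ring) (by simp [xv] <;> ring))
    h0 h1 h2 h3 h4 h1 h6 h2 h8 h9 h10 h11 h12 h13

theorem a_Y11_c35_P2_m1n1_CC {p a b c J l q : ℤ} {D dl : ℝ} {Cl : ℤ → ℤ → ℤ → ℤ → ℝ → Prop}
    (W : World p a b c J 1 l q D dl Cl) (hc : -a < c) (hA : Aux p a b 1 D Cl)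
    {N X R : ℤ} {I : ℝ} (hK : KGF p a b 1 D (P1 l p) Cl N X R I)
    (hM : KMY p a b 1 (P1 l p) Cl N (b + (1 : ℤ) * (X + (1 : ℤ) * I)))
    (h0 : 1 ≤ (c : ℝ))
    (h1 : 1 ≤ 1 - (a : ℝ) + (b : ℝ))
    (h2 : 1 ≤ 2 * (a : ℝ) - (b : ℝ))
    (h3 : 0 < 1 + 2 * (p : ℝ) - 5 * D)
    (h4 : 1 ≤ -(a : ℝ) + (b : ℝ))
    (h6 : 1 ≤ -1 + (J : ℝ))
    (h7 : 1 ≤ 3 - (J : ℝ))
    (h8 : 0 < -(b : ℝ) - (X : ℝ) + D - I)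
    (h9 : 0 < -(J : ℝ) + I)
    (h10 : 0 < -(J : ℝ) + D - I)
    (h11 : 0 < -2 * (X : ℝ) + D - 2 * I) : False := by
  have kz := KF.of hK
  obtain ⟨Ne, Xe, Ie, he⟩ := hA.ecl 1 (by
    intro h
    have h2 := W.ha
    have h3 := W.h2a
    have h4 := W.hb
    have h5 := W.h2b
    have h6 := hc
    have h1 := Int.le_of_dvd (by omega) h
    omega)
  exact Helper48.Y.Y11_c35_P2_m1n1_CC.closed W (G0.of W.toBase hc) (KCl.of hK) kz he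
    (kok_Y (R := R) (Or.inl rfl) hM kz.z1 kz.z2 (by simp [xv] <;> ring) (by simp [xv] <;> ring) (by simp [xv] <;> ring))
    h0 h1 h2 h3 h4 h2 h6 h7 h8 h9 h10 h11

theorem a_Y11_c35_P2_m1n1_K2 {p a b c J l q : ℤ} {D dl : ℝ} {Cl : ℤ → ℤ → ℤ → ℤ → ℝ → Prop}
    (W : World p a b c J 1 l q D dl Cl) (hc : -a < c) (hA : Aux p a b 1 D Cl)
    {N X R : ℤ} {I : ℝ} (hK : KGF p a b 1 D (P1 l p) Cl N X R I)
    (hM : KMY p a b 1 (P1 l p) Cl N (b + (1 : ℤ) * (X + (1 : ℤ) * I)))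
    (h0 : 1 ≤ (c : ℝ))
    (h1 : 1 ≤ 1 - (a : ℝ) + (b : ℝ))
    (h2 : 1 ≤ 2 * (a : ℝ) - (b : ℝ))
    (h3 : 0 < 1 + 2 * (p : ℝ) - 5 * D)
    (h4 : 1 ≤ 1 + (a : ℝ) - (b : ℝ))
    (h6 : 1 ≤ 2 + 2 * (a : ℝ) - (p : ℝ))
    (h8 : 1 ≤ -1 + (J : ℝ))
    (h9 : 1 ≤ 3 - (J : ℝ))
    (h10 : 1 ≤ -1 + (c : ℝ))
    (h11 : 0 < -(b : ℝ) - (X : ℝ) + D - I)
    (h12 : 0 < -(J : ℝ) + I)
    (h13 : 0 < -(J : ℝ) + D - I)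
    (h14 : 0 < -2 * (X : ℝ) + D - 2 * I) : False := by
  have kz := KF.of hK
  obtain ⟨Ne, Xe, Ie, he⟩ := hA.ecl 1 (by
    intro h
    have h2 := W.ha
    have h3 := W.h2a
    have h4 := W.hb
    have h5 := W.h2b
    have h6 := hc
    have h1 := Int.le_of_dvd (by omega) h
    omega)
  exact Helper48.Y.Y11_c35_P2_m1n1_K2.closed W (G0.of W.toBase hc) (KCl.of hK) kz he
    (kok_Y (R := R) (Or.inl rfl) hM kz.z1 kz.z2 (by simp [xv] <;> ring) (by simp [xv] <;> ring) (by simp [xv] <;> ring))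
    h0 h1 h2 h3 h4 h1 h6 h2 h8 h9 h10 h11 h12 h13 h14

theorem a_Y11_c35_P3_m0n0 {p a b c J l q : ℤ} {D dl : ℝ} {Cl : ℤ → ℤ → ℤ → ℤ → ℝ → Prop}
    (W : World p a b c J 1 l q D dl Cl) (hc : -a < c) (hA : Aux p a b 1 D Cl)
    {N X R : ℤ} {I : ℝ} (hK : KGF p a b 1 D (P1 l p) Cl N X R I)
    (hM : KMY p a b 1 (P1 l p) Cl N (b + (1 : ℤ) * (X + (1 : ℤ) * I)))
    (h0 : 1 ≤ (c : ℝ))
    (h1 : 1 ≤ 1 - (a : ℝ) + (b : ℝ))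
    (h2 : 1 ≤ 2 * (a : ℝ) - (b : ℝ))
    (h3 : 0 < -1 + (p : ℝ) - 2 * D)
    (h4 : 0 < 3 - (p : ℝ) + 2 * D)
    (h5 : 0 < 1 + 3 * (J : ℝ) - D)
    (h7 : 1 ≤ -2 + (J : ℝ))
    (h8 : 0 < -(b : ℝ) - (X : ℝ) + D - I)
    (h9 : 0 < (J : ℝ) - I)
    (h10 : 0 < (J : ℝ) - D + I)
    (h11 : 0 < -2 * (X : ℝ) + D - 2 * I) : False := by
  have kz := KF.of hK
  obtain ⟨Ne, Xe, Ie, he⟩ := hA.ecl 1 (by
    intro h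
    have h2 := W.ha
    have h3 := W.h2a
    have h4 := W.hb
    have h5 := W.h2b
    have h6 := hc
    have h1 := Int.le_of_dvd (by omega) h
    omega)
  exact Helper48.Y.Y11_c35_P3_m0n0.closed W (G0.of W.toBase hc) (KCl.of hK) kz he
    (kok_Y (R := R) (Or.inl rfl) hM kz.z1 kz.z2 (by simp [xv] <;> ring) (by simp [xv] <;> ring) (by simp [xv] <;> ring))
    h0 h1 h2 h3 h4 h5 h2 h7 h8 h9 h10 h11

theorem a_Y11_c35_P3_m0n1 {p a b c J l q : ℤ} {D dl : ℝ} {Cl : ℤ → ℤ → ℤ → ℤ → ℝ → Prop}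
    (W : World p a b c J 1 l q D dl Cl) (hc : -a < c) (hA : Aux p a b 1 D Cl)
    {N X R : ℤ} {I : ℝ} (hK : KGF p a b 1 D (P1 l p) Cl N X R I)
    (hM : KMY p a b 1 (P1 l p) Cl N (b + (1 : ℤ) * (X + (1 : ℤ) * I)))
    (h0 : 1 ≤ (c : ℝ))
    (h1 : 1 ≤ 1 - (a : ℝ) + (b : ℝ))
    (h2 : 1 ≤ 2 * (a : ℝ) - (b : ℝ))
    (h3 : 0 < -1 + (p : ℝ) - 2 * D)
    (h4 : 0 < 3 - (p : ℝ) + 2 * D)
    (h5 : 0 < 1 + 3 * (J : ℝ) - D)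
    (h7 : 1 ≤ -2 + (J : ℝ))
    (h8 : 0 < -(b : ℝ) - (X : ℝ) + D - I)
    (h9 : 0 < (J : ℝ) - I)
    (h10 : 0 < -(J : ℝ) + D - I)
    (h11 : 0 < -2 * (X : ℝ) + D - 2 * I) : False := by
  have kz := KF.of hK
  obtain ⟨Ne, Xe, Ie, he⟩ := hA.ecl 1 (by
    intro h
    have h2 := W.ha
    have h3 := W.h2a
    have h4 := W.hb
    have h5 := W.h2b
    have h6 := hc
    have h1 := Int.le_of_dvd (by omega) h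
    omega)
  exact Helper48.Y.Y11_c35_P3_m0n1.closed W (G0.of W.toBase hc) (KCl.of hK) kz he
    (kok_Y (R := R) (Or.inl rfl) hM kz.z1 kz.z2 (by simp [xv] <;> ring) (by simp [xv] <;> ring) (by simp [xv] <;> ring))
    h0 h1 h2 h3 h4 h5 h2 h7 h8 h9 h10 h11

theorem a_Y11_c35_P3_m1n0 {p a b c J l q : ℤ} {D dl : ℝ} {Cl : ℤ → ℤ → ℤ → ℤ → ℝ → Prop}
    (W : World p a b c J 1 l q D dl Cl) (hc : -a < c) (hA : Aux p a b 1 D Cl)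
    {N X R : ℤ} {I : ℝ} (hK : KGF p a b 1 D (P1 l p) Cl N X R I)
    (hM : KMY p a b 1 (P1 l p) Cl N (b + (1 : ℤ) * (X + (1 : ℤ) * I)))
    (h0 : 1 ≤ (c : ℝ))
    (h1 : 1 ≤ 1 - (a : ℝ) + (b : ℝ))
    (h2 : 1 ≤ 2 * (a : ℝ) - (b : ℝ))
    (h3 : 0 < -1 + (p : ℝ) - 2 * D)
    (h4 : 0 < 3 - (p : ℝ) + 2 * D)
    (h5 : 0 < 1 + 3 * (J : ℝ) - D)
    (h7 : 1 ≤ -2 + (J : ℝ))
    (h8 : 0 < -(b : ℝ) - (X : ℝ) + D - I)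
    (h9 : 0 < -(J : ℝ) + I)
    (h10 : 0 < (J : ℝ) - D + I)
    (h11 : 0 < -2 * (X : ℝ) + D - 2 * I) : False := by
  have kz := KF.of hK
  obtain ⟨Ne, Xe, Ie, he⟩ := hA.ecl 1 (by
    intro h
    have h2 := W.ha
    have h3 := W.h2a
    have h4 := W.hb
    have h5 := W.h2b
    have h6 := hc
    have h1 := Int.le_of_dvd (by omega) h
    omega)
  exact Helper48.Y.Y11_c35_P3_m1n0.closed W (G0.of W.toBase hc) (KCl.of hK) kz he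
    (kok_Y (R := R) (Or.inl rfl) hM kz.z1 kz.z2 (by simp [xv] <;> ring) (by simp [xv] <;> ring) (by simp [xv] <;> ring))
    h0 h1 h2 h3 h4 h5 h2 h7 h8 h9 h10 h11

theorem a_Y11_c35_P3_m1n1_CB {p a b c J l q : ℤ} {D dl : ℝ} {Cl : ℤ → ℤ → ℤ → ℤ → ℝ → Prop}
    (W : World p a b c J 1 l q D dl Cl) (hc : -a < c) (hA : Aux p a b 1 D Cl)
    {N X R : ℤ} {I : ℝ} (hK : KGF p a b 1 D (P1 l p) Cl N X R I)
    (hM : KMY p a b 1 (P1 l p) Cl N (b + (1 : ℤ) * (X + (1 : ℤ) * I)))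
    (h0 : 1 ≤ (c : ℝ))
    (h1 : 1 ≤ 1 - (a : ℝ) + (b : ℝ))
    (h2 : 1 ≤ 2 * (a : ℝ) - (b : ℝ))
    (h3 : 0 < -1 + (p : ℝ) - 2 * D)
    (h4 : 0 < 3 - (p : ℝ) + 2 * D)
    (h5 : 0 < 1 + 3 * (J : ℝ) - D)
    (h6 : 1 ≤ 1 + (a : ℝ) - (b : ℝ))
    (h8 : 1 ≤ -1 - 2 * (a : ℝ) + (p : ℝ))
    (h10 : 1 ≤ -2 + (J : ℝ))
    (h11 : 0 < -(b : ℝ) - (X : ℝ) + D - I)
    (h12 : 0 < -(J : ℝ) + I)
    (h13 : 0 < -(J : ℝ) + D - I)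
    (h14 : 0 < -2 * (X : ℝ) + D - 2 * I) : False := by
  have kz := KF.of hK
  obtain ⟨Ne, Xe, Ie, he⟩ := hA.ecl 1 (by
    intro h
    have h2 := W.ha
    have h3 := W.h2a
    have h4 := W.hb
    have h5 := W.h2b
    have h6 := hc
    have h1 := Int.le_of_dvd (by omega) h
    omega)
  exact Helper48.Y.Y11_c35_P3_m1n1_CB.closed W (G0.of W.toBase hc) (KCl.of hK) kz he
    (kok_Y (R := R) (Or.inl rfl) hM kz.z1 kz.z2 (by simp [xv] <;> ring) (by simp [xv] <;> ring) (by simp [xv] <;> ring))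
    h0 h1 h2 h3 h4 h5 h6 h1 h8 h2 h10 h11 h12 h13 h14

theorem a_Y11_c35_P3_m1n1_CC {p a b c J l q : ℤ} {D dl : ℝ} {Cl : ℤ → ℤ → ℤ → ℤ → ℝ → Prop}
    (W : World p a b c J 1 l q D dl Cl) (hc : -a < c) (hA : Aux p a b 1 D Cl)
    {N X R : ℤ} {I : ℝ} (hK : KGF p a b 1 D (P1 l p) Cl N X R I)
    (hM : KMY p a b 1 (P1 l p) Cl N (b + (1 : ℤ) * (X + (1 : ℤ) * I)))
    (h0 : 1 ≤ (c : ℝ))
    (h1 : 1 ≤ 1 - (a : ℝ) + (b : ℝ))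
    (h2 : 1 ≤ 2 * (a : ℝ) - (b : ℝ))
    (h3 : 0 < -1 + (p : ℝ) - 2 * D)
    (h4 : 0 < 3 - (p : ℝ) + 2 * D)
    (h5 : 0 < 1 + 3 * (J : ℝ) - D)
    (h6 : 1 ≤ -(a : ℝ) + (b : ℝ))
    (h8 : 1 ≤ -2 + (J : ℝ))
    (h9 : 0 < -(b : ℝ) - (X : ℝ) + D - I)
    (h10 : 0 < -(J : ℝ) + I)
    (h11 : 0 < -(J : ℝ) + D - I)
    (h12 : 0 < -2 * (X : ℝ) + D - 2 * I) : False := by
  have kz := KF.of hK
  obtain ⟨Ne, Xe, Ie, he⟩ := hA.ecl 1 (by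
    intro h
    have h2 := W.ha
    have h3 := W.h2a
    have h4 := W.hb
    have h5 := W.h2b
    have h6 := hc
    have h1 := Int.le_of_dvd (by omega) h
    omega)
  exact Helper48.Y.Y11_c35_P3_m1n1_CC.closed W (G0.of W.toBase hc) (KCl.of hK) kz he
    (kok_Y (R := R) (Or.inl rfl) hM kz.z1 kz.z2 (by simp [xv] <;> ring) (by simp [xv] <;> ring) (by simp [xv] <;> ring))
    h0 h1 h2 h3 h4 h5 h6 h2 h8 h9 h10 h11 h12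

theorem a_Y11_c35_P3_m1n1_K2 {p a b c J l q : ℤ} {D dl : ℝ} {Cl : ℤ → ℤ → ℤ → ℤ → ℝ → Prop}
    (W : World p a b c J 1 l q D dl Cl) (hc : -a < c) (hA : Aux p a b 1 D Cl)
    {N X R : ℤ} {I : ℝ} (hK : KGF p a b 1 D (P1 l p) Cl N X R I)
    (hM : KMY p a b 1 (P1 l p) Cl N (b + (1 : ℤ) * (X + (1 : ℤ) * I)))
    (h0 : 1 ≤ (c : ℝ))
    (h1 : 1 ≤ 1 - (a : ℝ) + (b : ℝ))
    (h2 : 1 ≤ 2 * (a : ℝ) - (b : ℝ))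
    (h3 : 0 < -1 + (p : ℝ) - 2 * D)
    (h4 : 0 < 3 - (p : ℝ) + 2 * D)
    (h5 : 0 < 1 + 3 * (J : ℝ) - D)
    (h6 : 1 ≤ 1 + (a : ℝ) - (b : ℝ))
    (h8 : 1 ≤ 2 + 2 * (a : ℝ) - (p : ℝ))
    (h10 : 1 ≤ -2 + (J : ℝ))
    (h11 : 1 ≤ -1 + (c : ℝ))
    (h12 : 0 < -(b : ℝ) - (X : ℝ) + D - I)
    (h13 : 0 < -(J : ℝ) + I)
    (h14 : 0 < -(J : ℝ) + D - I)
    (h15 : 0 < -2 * (X : ℝ) + D - 2 * I) : False := by
  have kz := KF.of hK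
  obtain ⟨Ne, Xe, Ie, he⟩ := hA.ecl 1 (by
    intro h
    have h2 := W.ha
    have h3 := W.h2a
    have h4 := W.hb
    have h5 := W.h2b
    have h6 := hc
    have h1 := Int.le_of_dvd (by omega) h
    omega)
  exact Helper48.Y.Y11_c35_P3_m1n1_K2.closed W (G0.of W.toBase hc) (KCl.of hK) kz he
    (kok_Y (R := R) (Or.inl rfl) hM kz.z1 kz.z2 (by simp [xv] <;> ring) (by simp [xv] <;> ring) (by simp [xv] <;> ring))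
    h0 h1 h2 h3 h4 h5 h6 h1 h8 h2 h10 h11 h12 h13 h14 h15

theorem a_Y11_c35_P4_m0n0 {p a b c J l q : ℤ} {D dl : ℝ} {Cl : ℤ → ℤ → ℤ → ℤ → ℝ → Prop}
    (W : World p a b c J 1 l q D dl Cl) (hc : -a < c) (hA : Aux p a b 1 D Cl)
    {N X R : ℤ} {I : ℝ} (hK : KGF p a b 1 D (P1 l p) Cl N X R I)
    (hM : KMY p a b 1 (P1 l p) Cl N (b + (1 : ℤ) * (X + (1 : ℤ) * I)))
    (h0 : 1 ≤ (c : ℝ))
    (h1 : 1 ≤ 1 - (a : ℝ) + (b : ℝ))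
    (h2 : 1 ≤ 2 * (a : ℝ) - (b : ℝ))
    (h3 : 0 < -3 + (p : ℝ) - 2 * D)
    (h5 : 1 ≤ -2 + (J : ℝ))
    (h6 : 0 < -(b : ℝ) - (X : ℝ) + D - I)
    (h7 : 0 < (J : ℝ) - I)
    (h8 : 0 < (J : ℝ) - D + I)
    (h9 : 0 < -2 * (X : ℝ) + D - 2 * I) : False := by
  have kz := KF.of hK
  obtain ⟨Ne, Xe, Ie, he⟩ := hA.ecl 1 (by
    intro h
    have h2 := W.ha
    have h3 := W.h2a
    have h4 := W.hb
    have h5 := W.h2b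
    have h6 := hc
    have h1 := Int.le_of_dvd (by omega) h
    omega)
  exact Helper48.Y.Y11_c35_P4_m0n0.closed W (G0.of W.toBase hc) (KCl.of hK) kz he
    (kok_Y (R := R) (Or.inl rfl) hM kz.z1 kz.z2 (by simp [xv] <;> ring) (by simp [xv] <;> ring) (by simp [xv] <;> ring))
    h0 h1 h2 h3 h2 h5 h6 h7 h8 h9

theorem a_Y11_c35_P4_m0n1 {p a b c J l q : ℤ} {D dl : ℝ} {Cl : ℤ → ℤ → ℤ → ℤ → ℝ → Prop}
    (W : World p a b c J 1 l q D dl Cl) (hc : -a < c) (hA : Aux p a b 1 D Cl)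
    {N X R : ℤ} {I : ℝ} (hK : KGF p a b 1 D (P1 l p) Cl N X R I)
    (hM : KMY p a b 1 (P1 l p) Cl N (b + (1 : ℤ) * (X + (1 : ℤ) * I)))
    (h0 : 1 ≤ (c : ℝ))
    (h1 : 1 ≤ 1 - (a : ℝ) + (b : ℝ))
    (h2 : 1 ≤ 2 * (a : ℝ) - (b : ℝ))
    (h3 : 0 < -3 + (p : ℝ) - 2 * D)
    (h5 : 1 ≤ -2 + (J : ℝ))
    (h6 : 0 < -(b : ℝ) - (X : ℝ) + D - I)
    (h7 : 0 < (J : ℝ) - I)
    (h8 : 0 < -(J : ℝ) + D - I)
    (h9 : 0 < -2 * (X : ℝ) + D - 2 * I) : False := by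
  have kz := KF.of hK
  obtain ⟨Ne, Xe, Ie, he⟩ := hA.ecl 1 (by
    intro h
    have h2 := W.ha
    have h3 := W.h2a
    have h4 := W.hb
    have h5 := W.h2b
    have h6 := hc
    have h1 := Int.le_of_dvd (by omega) h
    omega)
  exact Helper48.Y.Y11_c35_P4_m0n1.closed W (G0.of W.toBase hc) (KCl.of hK) kz he
    (kok_Y (R := R) (Or.inl rfl) hM kz.z1 kz.z2 (by simp [xv] <;> ring) (by simp [xv] <;> ring) (by simp [xv] <;> ring))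
    h0 h1 h2 h3 h2 h5 h6 h7 h8 h9

theorem a_Y11_c35_P4_m1n0 {p a b c J l q : ℤ} {D dl : ℝ} {Cl : ℤ → ℤ → ℤ → ℤ → ℝ → Prop}
    (W : World p a b c J 1 l q D dl Cl) (hc : -a < c) (hA : Aux p a b 1 D Cl)
    {N X R : ℤ} {I : ℝ} (hK : KGF p a b 1 D (P1 l p) Cl N X R I)
    (hM : KMY p a b 1 (P1 l p) Cl N (b + (1 : ℤ) * (X + (1 : ℤ) * I)))
    (h0 : 1 ≤ (c : ℝ))
    (h1 : 1 ≤ 1 - (a : ℝ) + (b : ℝ))
    (h2 : 1 ≤ 2 * (a : ℝ) - (b : ℝ))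
    (h3 : 0 < -3 + (p : ℝ) - 2 * D)
    (h5 : 1 ≤ -2 + (J : ℝ))
    (h6 : 0 < -(b : ℝ) - (X : ℝ) + D - I)
    (h7 : 0 < -(J : ℝ) + I)
    (h8 : 0 < (J : ℝ) - D + I)
    (h9 : 0 < -2 * (X : ℝ) + D - 2 * I) : False := by
  have kz := KF.of hK
  obtain ⟨Ne, Xe, Ie, he⟩ := hA.ecl 1 (by
    intro h
    have h2 := W.ha
    have h3 := W.h2a
    have h4 := W.hb
    have h5 := W.h2b
    have h6 := hc
    have h1 := Int.le_of_dvd (by omega) h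
    omega)
  exact Helper48.Y.Y11_c35_P4_m1n0.closed W (G0.of W.toBase hc) (KCl.of hK) kz he
    (kok_Y (R := R) (Or.inl rfl) hM kz.z1 kz.z2 (by simp [xv] <;> ring) (by simp [xv] <;> ring) (by simp [xv] <;> ring))
    h0 h1 h2 h3 h2 h5 h6 h7 h8 h9

theorem a_Y11_c35_P4_m1n1_CB {p a b c J l q : ℤ} {D dl : ℝ} {Cl : ℤ → ℤ → ℤ → ℤ → ℝ → Prop}
    (W : World p a b c J 1 l q D dl Cl) (hc : -a < c) (hA : Aux p a b 1 D Cl)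
    {N X R : ℤ} {I : ℝ} (hK : KGF p a b 1 D (P1 l p) Cl N X R I)
    (hM : KMY p a b 1 (P1 l p) Cl N (b + (1 : ℤ) * (X + (1 : ℤ) * I)))
    (h0 : 1 ≤ (c : ℝ))
    (h1 : 1 ≤ 1 - (a : ℝ) + (b : ℝ))
    (h2 : 1 ≤ 2 * (a : ℝ) - (b : ℝ))
    (h3 : 0 < -3 + (p : ℝ) - 2 * D)
    (h4 : 1 ≤ 1 + (a : ℝ) - (b : ℝ))
    (h6 : 1 ≤ -1 - 2 * (a : ℝ) + (p : ℝ))
    (h8 : 1 ≤ -2 + (J : ℝ))
    (h9 : 0 < -(b : ℝ) - (X : ℝ) + D - I)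
    (h10 : 0 < -(J : ℝ) + I)
    (h11 : 0 < -(J : ℝ) + D - I)
    (h12 : 0 < -2 * (X : ℝ) + D - 2 * I) : False := by
  have kz := KF.of hK
  obtain ⟨Ne, Xe, Ie, he⟩ := hA.ecl 1 (by
    intro h
    have h2 := W.ha
    have h3 := W.h2a
    have h4 := W.hb
    have h5 := W.h2b
    have h6 := hc
    have h1 := Int.le_of_dvd (by omega) h
    omega)
  exact Helper48.Y.Y11_c35_P4_m1n1_CB.closed W (G0.of W.toBase hc) (KCl.of hK) kz he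
    (kok_Y (R := R) (Or.inl rfl) hM kz.z1 kz.z2 (by simp [xv] <;> ring) (by simp [xv] <;> ring) (by simp [xv] <;> ring))
    h0 h1 h2 h3 h4 h1 h6 h2 h8 h9 h10 h11 h12

theorem a_Y11_c35_P4_m1n1_CC {p a b c J l q : ℤ} {D dl : ℝ} {Cl : ℤ → ℤ → ℤ → ℤ → ℝ → Prop}
    (W : World p a b c J 1 l q D dl Cl) (hc : -a < c) (hA : Aux p a b 1 D Cl)
    {N X R : ℤ} {I : ℝ} (hK : KGF p a b 1 D (P1 l p) Cl N X R I)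
    (hM : KMY p a b 1 (P1 l p) Cl N (b + (1 : ℤ) * (X + (1 : ℤ) * I)))
    (h0 : 1 ≤ (c : ℝ))
    (h1 : 1 ≤ 1 - (a : ℝ) + (b : ℝ))
    (h2 : 1 ≤ 2 * (a : ℝ) - (b : ℝ))
    (h3 : 0 < -3 + (p : ℝ) - 2 * D)
    (h4 : 1 ≤ -(a : ℝ) + (b : ℝ))
    (h6 : 1 ≤ -2 + (J : ℝ))
    (h7 : 0 < -(b : ℝ) - (X : ℝ) + D - I)
    (h8 : 0 < -(J : ℝ) + I)
    (h9 : 0 < -(J : ℝ) + D - I)
    (h10 : 0 < -2 * (X : ℝ) + D - 2 * I) : False := by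
  have kz := KF.of hK
  obtain ⟨Ne, Xe, Ie, he⟩ := hA.ecl 1 (by
    intro h
    have h2 := W.ha
    have h3 := W.h2a
    have h4 := W.hb
    have h5 := W.h2b
    have h6 := hc
    have h1 := Int.le_of_dvd (by omega) h
    omega)
  exact Helper48.Y.Y11_c35_P4_m1n1_CC.closed W (G0.of W.toBase hc) (KCl.of hK) kz he
    (kok_Y (R := R) (Or.inl rfl) hM kz.z1 kz.z2 (by simp [xv] <;> ring) (by simp [xv] <;> ring) (by simp [xv] <;> ring))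
    h0 h1 h2 h3 h4 h2 h6 h7 h8 h9 h10

theorem a_Y11_c35_P4_m1n1_K2 {p a b c J l q : ℤ} {D dl : ℝ} {Cl : ℤ → ℤ → ℤ → ℤ → ℝ → Prop}
    (W : World p a b c J 1 l q D dl Cl) (hc : -a < c) (hA : Aux p a b 1 D Cl)
    {N X R : ℤ} {I : ℝ} (hK : KGF p a b 1 D (P1 l p) Cl N X R I)
    (hM : KMY p a b 1 (P1 l p) Cl N (b + (1 : ℤ) * (X + (1 : ℤ) * I)))
    (h0 : 1 ≤ (c : ℝ))
    (h1 : 1 ≤ 1 - (a : ℝ) + (b : ℝ))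
    (h2 : 1 ≤ 2 * (a : ℝ) - (b : ℝ))
    (h3 : 0 < -3 + (p : ℝ) - 2 * D)
    (h4 : 1 ≤ 1 + (a : ℝ) - (b : ℝ))
    (h6 : 1 ≤ 2 + 2 * (a : ℝ) - (p : ℝ))
    (h8 : 1 ≤ -2 + (J : ℝ))
    (h9 : 1 ≤ -1 + (c : ℝ))
    (h10 : 0 < -(b : ℝ) - (X : ℝ) + D - I)
    (h11 : 0 < -(J : ℝ) + I)
    (h12 : 0 < -(J : ℝ) + D - I)
    (h13 : 0 < -2 * (X : ℝ) + D - 2 * I) : False := by
  have kz := KF.of hK
  obtain ⟨Ne, Xe, Ie, he⟩ := hA.ecl 1 (by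
    intro h
    have h2 := W.ha
    have h3 := W.h2a
    have h4 := W.hb
    have h5 := W.h2b
    have h6 := hc
    have h1 := Int.le_of_dvd (by omega) h
    omega)
  exact Helper48.Y.Y11_c35_P4_m1n1_K2.closed W (G0.of W.toBase hc) (KCl.of hK) kz he
    (kok_Y (R := R) (Or.inl rfl) hM kz.z1 kz.z2 (by simp [xv] <;> ring) (by simp [xv] <;> ring) (by simp [xv] <;> ring))
    h0 h1 h2 h3 h4 h1 h6 h2 h8 h9 h10 h11 h12 h13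

end Helper48.Y
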