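import Pool.Agent.Helper48.Y.Y11_c2_P2_m0n0_q

set_option autoImplicit false
set_option linter.all false

namespace Helper48.Y.Y11_c2_P2_m0n0

open Helper25.KG Helper25.KW Helper55.KE Helper11.CT

noncomputable def t28 : Tre :=
  (.Q [0,0,2,0,0,0,0,0,-1,2,0,-1] (.p false [-1,1,0,0,1] [1] (⟨0,[(12,0),(19,0)]⟩,⟨0,[(5,0),(38,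
  0)]⟩) (.r 0 ⟨6,[(1,0),(27,1),(9,3),(2,1),(9,3)]⟩ ⟨61,[(18,20),(7,19),(8,19),(15,3),(4,9),(0,2),(1,
  5)]⟩) 1 (⟨0,[]⟩,⟨0,[]⟩) .k .k) (.Q [1,1,0,2,-1,0,0,0,1,-2,0,1] (.p true [-1,1,0,0,1] [1] (⟨0,[(13,
  0),(19,0)]⟩,⟨0,[(6,0),(38,0)]⟩) (.r 0 ⟨6,[(2,0),(27,1),(9,3),(2,1),(9,3)]⟩ ⟨61,[(19,20),(7,19),(8,
  19),(15,3),(4,9),(0,2),(1,5)]⟩) 1 (⟨0,[]⟩,⟨0,[]⟩) .k .k) (.R ⟨1,true,false,true,[2,0,-1,0,-1],[0,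
  1,-1],[0,0,1],(⟨0,[(7,0),(43,0)]⟩,⟨0,[(15,0)]⟩),(⟨0,[(35,0)]⟩,⟨0,[(46,0),(3,0)]⟩),⟨0,[(7,0)]⟩,.k,
  .k,(.r (-1) ⟨169,[(3,53),(16,96),(7,29),(0,61),(7,29),(15,5),(5,30),(0,31)]⟩ ⟨15,[(0,1),(0,1),(25,
  5),(5,4),(7,9),(11,0),(0,11)]⟩),(.r (-1) ⟨61,[(20,20),(7,19),(8,19),(15,3),(4,9),(0,2),(1,5)]⟩
  ⟨21,[(0,3),(0,8),(35,4),(15,1),(0,3),(2,9)]⟩),(.r (-1) ⟨0,[(1,1),(0,0),(2,1),(5,3),(48,3)]⟩ ⟨10,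
  [(0,3),(0,8),(35,4),(15,1),(0,3),(2,9)]⟩),.k,⟨false,1,⟨1,[(20,0),(6,1),(31,0)]⟩,⟨1,[(3,0),(48,0),
  (4,0)]⟩⟩,⟨true,0,⟨0,[(11,0),(32,0)]⟩,⟨0,[(1,0)]⟩⟩,⟨true,0,⟨0,[(32,0),(11,0)]⟩,⟨0,[(29,0)]⟩⟩,
  ⟨false,0,⟨7,[(0,3),(25,2),(10,0),(15,0),(5,1)]⟩,⟨3,[(1,1),(0,0),(17,0),(9,1),(9,1),(18,1)]⟩⟩,
  ⟨false,0,⟨0,[(27,0),(26,0)]⟩,⟨123,[(3,61),(16,82),(7,19),(8,19),(15,3),(4,9),(0,2),(1,5)]⟩⟩,⟨true,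
  (-1),⟨0,[(0,0)]⟩,⟨0,[(1,0),(18,0)]⟩⟩,[]⟩) (.Q [0,0,0,0,0,0,0,0,0,1,-2] (.ed true [0,0,2] (.r 0 ⟨0,
  [(27,1)]⟩ ⟨61,[(3,61),(16,25),(7,9),(8,9),(15,1),(4,4),(0,16),(1,33)]⟩)) (.R ⟨0,false,false,true,
  [0,0,1],[0,0,2],[1,1],(⟨0,[(47,0)]⟩,⟨0,[(46,0)]⟩),(⟨0,[(47,1)]⟩,⟨0,[(0,0)]⟩),⟨0,[(36,0)]⟩,.k,.k,
  .k,.k,.k,.k,⟨false,1,⟨0,[(1,0),(0,18),(1,1),(0,2),(0,14),(0,0),(4,27),(48,29)]⟩,⟨0,[(28,1)]⟩⟩,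
  ⟨true,0,⟨0,[(31,0)]⟩,⟨0,[(45,0)]⟩⟩,⟨true,0,⟨4,[(4,1),(25,0),(22,0),(3,1)]⟩,⟨0,[(28,0)]⟩⟩,⟨false,0,
  ⟨0,[(33,0)]⟩,⟨0,[(43,0),(16,0)]⟩⟩,⟨false,0,⟨0,[]⟩,⟨0,[]⟩⟩,⟨false,0,⟨0,[]⟩,⟨0,[]⟩⟩,[.o ⟨false,0,⟨3,
  [(5,0),(8,1),(13,1),(4,0),(8,3)]⟩,⟨3,[(1,1),(2,1),(16,0),(0,1),(2,3),(8,1),(25,0)]⟩⟩,.o ⟨false,0,
  ⟨3,[(5,0),(8,1),(13,1),(4,4)]⟩,⟨0,[(43,1),(16,0)]⟩⟩,.e ⟨false,0,⟨0,[]⟩,⟨1,[(37,0),(0,0),(21,0)]⟩⟩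
  ⟨false,0,⟨0,[(28,0),(4,0)]⟩,⟨3,[(1,1),(2,1),(16,0),(0,1),(2,1),(6,1),(27,0)]⟩⟩,.a ⟨true,0,⟨0,[(44,
  0)]⟩,⟨0,[(41,0)]⟩⟩ ⟨true,0,⟨16,[(5,0),(6,1),(17,1),(10,3),(0,0),(10,6)]⟩,⟨2,[(2,0),(11,0),(30,
  0)]⟩⟩ ⟨false,0,⟨7,[(5,0),(0,3),(5,1),(15,1),(4,12)]⟩,⟨38,[(1,18),(2,23),(17,18),(2,13),(17,15),(1,
  8),(8,0),(5,17),(0,5)]⟩⟩]⟩) (.I [0,0,0,0,0,1,1] (.C [(0,1),(0,0),(5,0),(41,1),(12,0)]) (.C [(0,0),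
  (2,0),(8,0),(0,0),(2,0)])))) (.I [-1,0,-1,-1,0,0,0,2] (.N [0,-1,2,0,-2] 0 ⟨0,[(0,0)]⟩ ⟨0,[(3,0)]⟩
  (.x (-1) ⟨40,[(2,4),(0,9),(0,19),(9,81),(15,30),(5,31),(6,30),(7,40),(1,1)]⟩ ⟨3,[(1,4),(5,3),(13,
  2),(11,0),(4,3),(5,5),(1,11)]⟩)) (.Q [0,0,0,0,0,-2,0,0,0,2,-1] (.p false [-1,1,1] [1] (⟨0,[(34,
  0)]⟩,⟨0,[(7,0),(31,0)]⟩) .k 1 (⟨0,[]⟩,⟨0,[]⟩) .k .k) (.I [0,0,1,2,-1,0,0,1] (.Q [2,-1,0,-1,1,0,-1,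
  -1,2,0,-1,2] (.p false [0,0,1] [0,-1,0,0,2] (⟨0,[(48,0)]⟩,⟨0,[(47,0)]⟩) .k 2 (⟨1,[(1,0),(14,0),(0,
  1),(23,0)]⟩,⟨0,[(12,0),(27,0)]⟩) (.r (-1) ⟨27,[(22,8),(7,9),(8,9),(15,1),(4,4)]⟩ ⟨9,[(0,1),(1,0),
  (35,1),(0,1),(19,4),(2,6)]⟩) (.r 0 ⟨1,[(1,6),(1,3),(2,1),(0,0),(4,6),(4,6),(32,6),(11,8)]⟩ ⟨19,
  [(2,9),(27,9),(7,0),(0,10),(15,1),(4,4)]⟩)) (.R ⟨1,true,false,true,[1,-1,0,0,1],[1,0,1,0,-1],[-1,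
  1,1,0,0,0,0,1],(⟨1,[(2,0),(39,1),(6,0)]⟩,⟨0,[(13,0)]⟩),(⟨0,[(41,0),(7,0)]⟩,⟨0,[(17,0)]⟩),⟨0,[(2,
  0),(15,0)]⟩,(.r (-1) ⟨75,[(0,9),(22,22),(7,19),(12,9),(11,3),(4,14)]⟩ ⟨18,[(0,1),(0,5),(1,2),(35,
  3),(4,1),(12,5),(5,3),(0,5)]⟩),.k,(.r (-1) ⟨0,[(26,0)]⟩ ⟨42,[(0,12),(0,38),(1,19),(35,25),(4,13),
  (2,0),(9,0),(5,24)]⟩),(.r (-1) ⟨151,[(0,9),(2,75),(19,98),(7,19),(12,9),(11,3),(4,14)]⟩ ⟨30,[(0,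
  4),(0,17),(28,12),(8,9),(4,4),(17,2),(0,12),(0,5)]⟩),(.r (-2) ⟨151,[(0,29),(2,75),(19,144),(7,59),
  (12,29),(11,11),(4,44)]⟩ ⟨3,[(1,3),(44,0),(0,0),(15,1)]⟩),.k,⟨true,0,⟨1,[(46,0),(0,0)]⟩,⟨0,[]⟩⟩,
  ⟨false,1,⟨1,[(7,1),(24,1),(28,0),(0,0)]⟩,⟨0,[(40,1),(6,0)]⟩⟩,⟨true,(-1),⟨1,[(1,1),(44,0),(0,0),
  (11,1)]⟩,⟨1,[(23,0),(8,1),(29,0)]⟩⟩,⟨false,0,⟨0,[(7,0),(52,0)]⟩,⟨0,[(0,0)]⟩⟩,⟨false,(-1),⟨3,[(1,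
  3),(44,0),(0,0),(15,1)]⟩,⟨81,[(0,9),(2,35),(1,9),(17,84),(9,9),(22,3),(4,14),(0,35)]⟩⟩,⟨true,(-1),
  ⟨0,[(1,0),(5,0),(24,0)]⟩,⟨0,[(0,0),(58,0)]⟩⟩,[]⟩) (.Q [0,0,0,0,0,0,0,0,0,1,-2] (.ed true [0,0,2]
  (.r 0 ⟨0,[(30,1)]⟩ ⟨61,[(3,61),(19,20),(7,19),(8,19),(15,3),(4,9),(0,2),(1,5)]⟩)) (.R ⟨0,false,
  false,true,[0,0,1],[0,0,2],[1,1],(⟨0,[(50,0)]⟩,⟨0,[(49,0)]⟩),(⟨0,[(50,1)]⟩,⟨0,[(0,0)]⟩),⟨0,[(39,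
  0)]⟩,.k,.k,.k,.k,.k,.k,⟨false,1,⟨1,[(4,1),(19,0),(37,0)]⟩,⟨0,[(31,1)]⟩⟩,⟨true,0,⟨0,[(34,0)]⟩,⟨0,
  [(48,0)]⟩⟩,⟨true,0,⟨4,[(4,1),(28,0),(22,0),(3,1)]⟩,⟨0,[(31,0)]⟩⟩,⟨false,0,⟨0,[(36,0)]⟩,⟨0,[(46,0),
  (16,0)]⟩⟩,⟨false,0,⟨0,[]⟩,⟨0,[]⟩⟩,⟨false,0,⟨0,[]⟩,⟨0,[]⟩⟩,[.o ⟨false,0,⟨3,[(8,0),(8,1),(13,1),(4,
  0),(8,3)]⟩,⟨3,[(4,3),(0,1),(0,0),(2,1),(14,0),(23,3),(14,1)]⟩⟩,.o ⟨false,0,⟨3,[(8,0),(8,1),(13,1),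
  (4,4)]⟩,⟨0,[(46,1),(16,0)]⟩⟩,.e ⟨false,0,⟨0,[]⟩,⟨1,[(40,0),(0,0),(21,0)]⟩⟩ ⟨false,0,⟨0,[(31,0),(4,
  0)]⟩,⟨7,[(4,7),(0,1),(0,0),(2,1),(14,2),(23,3),(14,3)]⟩⟩,.a ⟨true,0,⟨0,[(47,0)]⟩,⟨0,[(44,0)]⟩⟩
  ⟨true,0,⟨39,[(1,1),(13,3),(8,0),(8,3),(10,7),(0,1),(10,15),(5,0)]⟩,⟨1,[(47,0),(0,0)]⟩⟩ ⟨false,0,
  ⟨14,[(1,0),(3,2),(3,6),(3,0),(10,0),(6,0),(4,26)]⟩,⟨1,[(4,1),(19,0),(23,1),(14,0)]⟩⟩]⟩) (.I [0,0,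
  0,0,0,1,1] (.C [(0,1),(0,0),(8,0),(41,1),(12,0)]) (.C [(0,0),(14,0),(3,0),(15,0)])))) (.Q [0,0,-1,
  0,0,0,2,0,1,-3,2,1] (.p true [-1,1,1] [2,0,-1,0,-1] (⟨0,[(36,0)]⟩,⟨0,[(1,0),(51,0)]⟩) .k 2 (⟨0,
  [(9,0),(43,0)]⟩,⟨0,[(17,0)]⟩) .k (.r 0 ⟨0,[(29,1)]⟩ ⟨139,[(0,51),(1,113),(27,9),(8,9),(15,1),(4,
  30),(0,42),(1,85)]⟩)) (.Q [1,0,0,2,-1,0,2,2,1,-3,2,1] (.p true [-1,1,1] [2,0,-1,0,-1] (⟨0,[(37,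
  0)]⟩,⟨0,[(2,0),(51,0)]⟩) .k 2 (⟨0,[(10,0),(43,0)]⟩,⟨0,[(18,0)]⟩) .k (.r 0 ⟨0,[(30,1)]⟩ ⟨139,[(1,
  51),(1,113),(27,9),(8,9),(15,1),(4,30),(0,42),(1,85)]⟩)) (.Q [0,0,2,0,0,0,-2,0,-1,3,-2,-1] (.p
  false [-1,1,1] [2,0,-1,0,-1] (⟨0,[(38,0)]⟩,⟨0,[(3,0),(51,0)]⟩) .k 2 (⟨0,[(11,0),(43,0)]⟩,⟨0,[(19,
  0)]⟩) .k (.r 0 ⟨0,[(31,1)]⟩ ⟨139,[(2,51),(1,113),(27,9),(8,9),(15,1),(4,30),(0,42),(1,85)]⟩)) (.R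
  ⟨1,true,false,false,[2,0,-1,0,-1],[-1,1,1],[0,0,1],(⟨0,[(12,0),(43,0)]⟩,⟨0,[(20,0)]⟩),(⟨0,[(39,
  0)]⟩,⟨9,[(0,0),(3,4),(30,3),(6,0),(2,1),(4,4)]⟩),⟨0,[(12,0)]⟩,.k,.k,(.r (-1) ⟨0,[(2,3),(0,0),(0,
  6),(0,0),(3,1),(0,4),(4,6),(4,6),(32,6),(11,7)]⟩ ⟨31,[(0,15),(0,10),(40,4),(3,9),(11,2),(3,9),(1,
  4)]⟩),(.r (-1) ⟨77,[(3,51),(0,2),(0,25),(0,1),(4,1),(4,1),(17,49),(16,2),(1,5),(10,25),(0,5)]⟩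
  ⟨31,[(0,20),(0,15),(30,21),(9,4),(3,9),(11,2),(4,4),(0,4)]⟩),(.r (-2) ⟨139,[(3,165),(1,56),(27,4),
  (8,4),(15,0),(4,106),(1,42)]⟩ ⟨0,[(0,0),(0,0)]⟩),.k,⟨false,1,⟨64,[(3,36),(1,13),(27,4),(8,4),(15,
  0),(4,20)]⟩,⟨1,[(0,0),(0,0),(61,0)]⟩⟩,⟨true,0,⟨0,[(2,0)]⟩,⟨0,[(0,0)]⟩⟩,⟨true,0,⟨0,[(37,0),(11,
  0)]⟩,⟨0,[(34,0)]⟩⟩,⟨false,0,⟨5,[(1,3),(5,0),(10,3),(13,3),(31,2)]⟩,⟨83,[(0,55),(2,49),(0,4),(0,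
  33),(1,8),(3,4),(22,44),(10,50),(5,4),(1,9),(10,24)]⟩⟩,⟨false,0,⟨1,[(0,0),(0,0),(62,0)]⟩,⟨64,[(3,
  36),(1,13),(27,4),(8,4),(15,0),(4,20)]⟩⟩,⟨true,(-1),⟨0,[(1,0)]⟩,⟨0,[(0,0),(2,0),(30,0)]⟩⟩,[]⟩)
  (.I [1,0,-2,-2,1,0,0,-1] (.I [-1,0,2,1,0,0,0,-2] (.Q [2,0,0,2,-1,0,1,1,2,-3,1,2] (.p true [-1,1,
  1] [2,0,0,0,-2] (⟨0,[(41,0)]⟩,⟨0,[(6,0),(51,0)]⟩) .k 2 (⟨0,[(45,1)]⟩,⟨0,[(21,0),(0,0)]⟩) .k (.r 0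
  ⟨0,[(34,0)]⟩ ⟨123,[(0,61),(26,10),(7,39),(8,39),(15,7),(4,50),(0,5),(1,11)]⟩)) (.I [-1,0,-2,-2,1,
  0,0,-1] (.I [-1,-1,-2,-1,1,0,0,-1] (.R ⟨1,true,false,true,[2,0,-1,0,-1],[-1,1,0,0,1],[1,1,2,1],
  (⟨0,[(17,0),(43,0)]⟩,⟨0,[(25,0)]⟩),(⟨0,[(24,0),(19,0)]⟩,⟨0,[(17,0),(38,0)]⟩),⟨0,[(17,0)]⟩,.k,(.r
  0 ⟨5,[(3,0),(47,1),(2,1),(9,1),(2,2)]⟩ ⟨61,[(30,20),(7,19),(8,19),(15,3),(4,9),(0,2),(1,5)]⟩),(.r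
  (-1) ⟨144,[(1,13),(1,29),(4,70),(29,4),(8,4),(15,0),(4,52)]⟩ ⟨7,[(6,0),(36,2),(2,0),(4,5),(2,1),
  (9,5)]⟩),(.r (-1) ⟨174,[(1,92),(1,40),(34,29),(8,29),(15,5),(4,39),(1,8)]⟩ ⟨7,[(6,0),(36,2),(2,0),
  (4,5),(2,1),(9,5)]⟩),(.r (-1) ⟨0,[(0,0),(65,0)]⟩ ⟨0,[(51,0),(2,0),(9,0),(2,0)]⟩),.k,⟨true,0,⟨1,
  [(53,0),(0,0)]⟩,⟨0,[]⟩⟩,⟨false,0,⟨0,[(21,0),(9,0)]⟩,⟨4,[(12,0),(22,5),(2,3),(4,1),(3,1),(2,0),(13,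
  5)]⟩⟩,⟨false,0,⟨0,[(51,0),(2,0),(9,0)]⟩,⟨0,[(0,0)]⟩⟩,⟨true,(-1),⟨0,[(2,0),(63,0)]⟩,⟨1,[(3,0),(8,
  1),(37,1),(16,0)]⟩⟩,⟨true,(-1),⟨3,[(6,3),(2,0),(16,3),(16,5),(9,7),(2,0),(4,1)]⟩,⟨0,[(1,0)]⟩⟩,
  ⟨false,(-1),⟨0,[(2,0)]⟩,⟨15,[(1,1),(1,6),(8,12),(25,8),(4,2),(3,2),(2,9),(18,7)]⟩⟩,[]⟩) (.R ⟨1,
  true,false,true,[2,-1,-1],[0,0,0,0,1],[0,0,-1,-1,0,0,0,-1],(⟨0,[(9,0),(51,0)]⟩,⟨0,[(44,0)]⟩),(⟨0,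
  [(49,0)]⟩,⟨0,[(48,0)]⟩),⟨0,[(9,0)]⟩,.k,.k,(.x 0 ⟨1,[(53,0),(0,2),(1,1),(4,3)]⟩ ⟨36,[(1,0),(3,17),
  (3,36),(4,0),(1,1),(2,1),(26,9),(16,3),(4,17)]⟩),(.r (-1) ⟨144,[(1,13),(1,29),(4,70),(29,4),(8,4),
  (15,0),(4,52)]⟩ ⟨1,[(0,1),(67,0),(0,0)]⟩),(.r (-1) ⟨0,[(1,0)]⟩ ⟨1,[(0,1),(45,0),(0,0),(19,1),(1,
  0)]⟩),.k,⟨true,1,⟨0,[(1,0),(62,0)]⟩,⟨0,[(0,0)]⟩⟩,⟨false,0,⟨0,[(21,0)]⟩,⟨2,[(3,0),(34,2),(4,1),(6,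
  0),(0,1),(12,1)]⟩⟩,⟨false,1,⟨1,[(46,0),(0,0),(21,0)]⟩,⟨0,[]⟩⟩,⟨true,(-1),⟨0,[(0,0),(20,0)]⟩,⟨15,
  [(1,1),(1,6),(8,4),(25,8),(4,2),(3,2),(2,9)]⟩⟩,⟨true,0,⟨0,[(67,0)]⟩,⟨0,[(66,0)]⟩⟩,⟨false,(-1),⟨0,
  [(0,0),(4,0),(44,0),(13,0)]⟩,⟨9,[(1,1),(1,2),(4,1),(3,3),(25,6),(4,4),(3,4),(21,4)]⟩⟩,[]⟩)) (.I
  [0,0,-2,-2,1,0,0,-1] (.N [0,2,1,0,1] 1 ⟨0,[(1,0)]⟩ ⟨0,[(0,0)]⟩ (.x 0 ⟨3,[(5,3),(3,0),(5,1),(1,3),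
  (38,0),(0,1),(12,1)]⟩ ⟨15,[(1,5),(1,2),(34,14),(4,0),(0,15),(1,6),(0,5),(1,15),(4,13),(6,15)]⟩))
  (.N [0,2,1] 1 ⟨0,[(0,0)]⟩ ⟨0,[(4,0)]⟩ (.x (-1) ⟨36,[(4,0),(0,17),(3,36),(4,0),(1,1),(2,1),(26,9),
  (16,3),(4,17)]⟩ ⟨1,[(53,0),(0,2),(1,1),(4,3)]⟩)))) (.Q [0,0,0,0,0,0,0,0,0,1,-2] (.ed true [0,0,2]
  (.r 0 ⟨0,[(35,1)]⟩ ⟨4,[(1,3),(4,1),(59,2)]⟩)) (.R ⟨0,false,false,true,[0,0,1],[0,0,2],[1,1],(⟨0,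
  [(55,0)]⟩,⟨0,[(54,0)]⟩),(⟨0,[(55,1)]⟩,⟨0,[(0,0)]⟩),⟨0,[(44,0)]⟩,.k,.k,.k,.k,.k,.k,⟨false,1,⟨4,[(2,
  0),(0,1),(5,2),(57,2)]⟩,⟨0,[(36,1)]⟩⟩,⟨true,0,⟨0,[(39,0)]⟩,⟨0,[(53,0)]⟩⟩,⟨true,0,⟨6,[(2,1),(35,2),
  (22,0),(3,1)]⟩,⟨0,[(36,0)]⟩⟩,⟨false,0,⟨0,[(41,0)]⟩,⟨79,[(2,25),(0,17),(36,9),(1,34),(19,6),(4,7),
  (0,39)]⟩⟩,⟨false,0,⟨0,[]⟩,⟨0,[]⟩⟩,⟨false,0,⟨0,[]⟩,⟨0,[]⟩⟩,[.o ⟨false,0,⟨12,[(5,3),(5,1),(29,8),(8,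
  8),(11,0),(2,3)]⟩,⟨1,[(3,0),(5,0),(23,0),(8,0),(10,0),(14,0)]⟩⟩,.o ⟨false,0,⟨2,[(5,0),(5,0),(10,
  0),(13,0),(4,2)]⟩,⟨39,[(2,25),(0,17),(36,9),(1,34),(19,6),(4,7)]⟩⟩,.e ⟨false,0,⟨0,[]⟩,⟨1,[(45,0),
  (0,0),(21,0)]⟩⟩ ⟨false,0,⟨0,[(36,0),(4,0)]⟩,⟨3,[(2,1),(0,1),(29,0),(6,0),(1,0),(25,1)]⟩⟩,.a ⟨true,
  0,⟨0,[(52,0)]⟩,⟨0,[(49,0)]⟩⟩ ⟨true,0,⟨16,[(13,0),(6,1),(17,1),(10,3),(0,0),(10,6)]⟩,⟨1,[(52,0),(0,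
  0)]⟩⟩ ⟨false,0,⟨9,[(5,1),(7,0),(0,3),(14,1),(11,14),(7,1)]⟩,⟨33,[(2,22),(4,14),(25,6),(8,11),(10,
  2),(8,0),(5,16)]⟩⟩]⟩) (.I [0,0,0,0,0,1,1] (.C [(0,1),(0,0),(13,0),(41,1),(12,0)]) (.C [(0,0),(19,
  0),(3,0),(15,0)])))) (.N [0,-1,2,0,-1] 0 ⟨3,[(0,3),(49,0),(0,0),(15,1)]⟩ ⟨0,[(7,0)]⟩ (.x (-1) ⟨0,
  [(21,0),(15,0),(4,0),(0,0),(6,0)]⟩ ⟨1,[(8,1),(3,0),(1,0),(30,0),(5,1),(1,4),(0,0),(12,0)]⟩))) (.R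
  ⟨1,true,true,true,[2,-1,-1],[],[1,1,-1,-2,0,0,0,-1],(⟨0,[(5,0),(51,0)]⟩,⟨0,[(40,0)]⟩),(⟨0,[]⟩,⟨0,
  []⟩),⟨0,[(5,0)]⟩,.k,.k,(.x 0 ⟨1,[(49,0),(0,2),(1,1),(4,3)]⟩ ⟨61,[(1,30),(3,61),(4,3),(1,3),(29,
  14),(16,6),(4,30),(0,1)]⟩),.k,(.x 0 ⟨1,[(49,0),(0,2),(1,1),(4,3)]⟩ ⟨61,[(1,30),(3,61),(4,3),(1,3),
  (29,14),(16,6),(4,30),(0,1)]⟩),.k,⟨true,1,⟨0,[(4,0)]⟩,⟨0,[(0,0)]⟩⟩,⟨false,1,⟨61,[(1,30),(8,3),(1,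
  3),(29,14),(16,6),(4,30),(0,1)]⟩,⟨1,[(5,0),(33,1),(9,1),(2,0),(4,1)]⟩⟩,⟨true,0,⟨0,[(62,0)]⟩,⟨0,
  [(63,0)]⟩⟩,⟨false,0,⟨21,[(2,8),(7,1),(4,1),(26,2),(16,2),(3,1),(3,1)]⟩,⟨3,[(4,3),(0,2),(33,1),(12,
  2),(4,5),(2,3)]⟩⟩,⟨false,0,⟨0,[]⟩,⟨1,[(42,0),(0,0),(21,0)]⟩⟩,⟨true,(-1),⟨0,[(2,0),(19,0)]⟩,⟨1,[(4,
  1),(0,0),(33,1),(9,1),(2,0),(4,1)]⟩⟩,[]⟩))) (.Q [0,0,0,0,0,0,0,0,0,1,-2] (.ed true [0,0,2] (.r 0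
  ⟨0,[(31,1)]⟩ ⟨34,[(0,4),(1,7),(1,25),(36,4),(5,9),(9,2),(4,13),(0,1),(1,3)]⟩)) (.R ⟨0,false,false,
  true,[0,0,1],[0,0,2],[1,1],(⟨0,[(51,0)]⟩,⟨0,[(50,0)]⟩),(⟨0,[(51,1)]⟩,⟨0,[(0,0)]⟩),⟨0,[(40,0)]⟩,.k,
  .k,.k,.k,.k,.k,⟨false,1,⟨27,[(1,1),(1,7),(1,21),(1,0),(8,3),(46,16)]⟩,⟨0,[(32,1)]⟩⟩,⟨true,0,⟨0,
  [(35,0)]⟩,⟨0,[(49,0)]⟩⟩,⟨true,0,⟨4,[(5,1),(28,0),(22,0),(3,1)]⟩,⟨0,[(32,0)]⟩⟩,⟨false,0,⟨0,[(37,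
  0)]⟩,⟨7,[(1,1),(29,0),(4,3),(5,0),(15,0),(5,3)]⟩⟩,⟨false,0,⟨0,[]⟩,⟨0,[]⟩⟩,⟨false,0,⟨0,[]⟩,⟨0,[]⟩⟩,
  [.o ⟨false,0,⟨3,[(9,0),(8,1),(13,1),(4,0),(8,3)]⟩,⟨1,[(1,0),(27,1),(1,0),(32,0)]⟩⟩,.o ⟨false,0,⟨3,
  [(9,0),(8,1),(13,1),(4,4)]⟩,⟨3,[(1,1),(29,0),(4,3),(5,0),(15,0)]⟩⟩,.e ⟨false,0,⟨0,[]⟩,⟨1,[(41,0),
  (0,0),(21,0)]⟩⟩ ⟨false,0,⟨0,[(32,0),(4,0)]⟩,⟨15,[(1,5),(3,7),(0,3),(22,2),(1,1),(4,0),(21,0),(5,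
  7)]⟩⟩,.a ⟨true,0,⟨0,[(48,0)]⟩,⟨0,[(45,0)]⟩⟩ ⟨true,0,⟨16,[(9,0),(6,1),(17,1),(10,3),(0,0),(10,6)]⟩,
  ⟨1,[(48,0),(0,0)]⟩⟩ ⟨false,0,⟨7,[(6,1),(2,0),(0,3),(26,14)]⟩,⟨53,[(1,18),(3,31),(12,11),(10,5),(1,
  6),(17,21),(8,3),(5,26)]⟩⟩]⟩) (.I [0,0,0,0,0,1,1] (.C [(0,1),(0,0),(9,0),(41,1),(12,0)]) (.C [(0,
  0),(15,0),(3,0),(15,0)])))) (.I [1,0,1,1,0,0,0,-2] (.I [0,0,2,2,-1,0,0,1] (.R ⟨1,true,true,true,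
  [2,-1,-1],[],[1,1,-1,-2,0,0,0,-1],(⟨7,[(2,0),(1,3),(30,2),(6,0),(2,0),(4,3)]⟩,⟨0,[(39,0)]⟩),(⟨0,
  []⟩,⟨0,[]⟩),⟨0,[(4,0)]⟩,.k,.k,(.r (-2) ⟨12,[(1,0),(1,10),(29,4),(8,4),(15,0),(4,7)]⟩ ⟨0,[(0,0)]⟩),
  .k,(.r (-2) ⟨12,[(1,0),(1,10),(29,4),(8,4),(15,0),(4,7)]⟩ ⟨0,[(0,0)]⟩),.k,⟨true,1,⟨0,[(3,0)]⟩,⟨0,
  [(0,0)]⟩⟩,⟨false,1,⟨0,[(16,0),(24,0)]⟩,⟨2,[(2,1),(39,1),(5,0)]⟩⟩,⟨true,0,⟨0,[(61,0)]⟩,⟨0,[(62,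
  0)]⟩⟩,⟨false,0,⟨16,[(0,5),(5,0),(2,0),(4,4),(1,4),(1,0),(27,4),(11,2)]⟩,⟨1,[(2,0),(0,1),(31,0),(6,
  0),(2,0),(13,1)]⟩⟩,⟨false,0,⟨0,[]⟩,⟨1,[(41,0),(0,0),(21,0)]⟩⟩,⟨true,(-1),⟨0,[(0,0),(15,0),(7,0)]⟩,
  ⟨2,[(2,1),(0,2),(38,1),(5,0)]⟩⟩,[]⟩) (.I [1,0,-1,-1,0,0,0,2] (.N [0,-1,2] 0 ⟨0,[(0,0)]⟩ ⟨0,[(2,
  0)]⟩ (.x 0 ⟨0,[(36,1),(4,1),(11,0),(12,0)]⟩ ⟨19,[(5,9),(5,13),(27,5),(12,49),(6,7),(4,2),(0,0),(1,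
  1)]⟩)) (.I [2,0,-1,-1,0,0,0,2] (.N [0,-1,2,0,1] 0 ⟨0,[(0,0)]⟩ ⟨0,[(1,0)]⟩ (.x 0 ⟨5,[(14,3),(2,1),
  (0,0),(1,2),(21,7),(1,1),(5,7)]⟩ ⟨61,[(6,30),(4,7),(0,61),(0,7),(8,61),(20,29),(9,92),(6,13),(5,
  3)]⟩)) (.Q [1,-1,0,0,0,0,2,2,1,-1,2,1] (.p true [1,-1,1] [2,0,-1,0,-1] (⟨1,[(6,0),(46,2)]⟩,⟨0,
  [(42,0)]⟩) .k 2 (⟨0,[(14,0),(43,0)]⟩,⟨0,[(22,0)]⟩) .k (.r 0 ⟨0,[(34,1)]⟩ ⟨64,[(1,29),(1,25),(1,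
  17),(29,19),(8,19),(15,3),(4,18)]⟩)) (.R ⟨1,true,false,false,[2,0,-1,0,-1],[1,-1,1],[1,0,-1,-1,0,
  0,0,1],(⟨0,[(15,0),(43,0)]⟩,⟨0,[(23,0)]⟩),(⟨1,[(7,0),(46,2)]⟩,⟨0,[(43,0)]⟩),⟨0,[(15,0)]⟩,.k,.k,
  (.r (-1) ⟨124,[(1,25),(4,72),(29,4),(8,4),(15,0),(4,38),(0,5),(1,11)]⟩ ⟨3,[(30,0),(10,0),(7,2),(2,
  1),(9,1),(2,0)]⟩),(.r 0 ⟨0,[(1,0)]⟩ ⟨9,[(0,3),(4,3),(7,1),(14,4),(6,7),(13,3),(11,1),(4,0)]⟩),.k,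
  .k,⟨true,0,⟨0,[]⟩,⟨1,[(51,0),(0,0)]⟩⟩,⟨false,0,⟨1,[(19,0),(18,0),(6,0),(5,1)]⟩,⟨0,[(13,0),(30,
  0)]⟩⟩,⟨false,1,⟨17,[(0,17),(4,1),(4,7),(2,15),(14,0),(32,3),(4,0)]⟩,⟨0,[(1,0)]⟩⟩,⟨true,0,⟨0,[(0,
  0),(63,0)]⟩,⟨0,[(24,0),(14,0)]⟩⟩,⟨true,0,⟨18,[(0,6),(8,2),(2,4),(0,12),(21,11),(13,6)]⟩,⟨0,[(2,0),
  (61,0)]⟩⟩,⟨false,0,⟨0,[(0,0)]⟩,⟨34,[(1,9),(0,1),(0,15),(1,19),(8,4),(9,4),(14,19),(21,6),(5,4)]⟩⟩,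
  []⟩) (.Q [0,0,0,0,0,0,0,0,0,1,-2] (.ed true [0,0,2] (.r 0 ⟨0,[(35,1)]⟩ ⟨64,[(4,55),(1,17),(29,19),
  (8,19),(15,3),(4,18)]⟩)) (.R ⟨0,false,false,false,[0,0,1],[0,0,2],[1],(⟨0,[(55,0)]⟩,⟨0,[(54,0)]⟩),
  (⟨0,[(55,1)]⟩,⟨0,[(0,0)]⟩),⟨0,[(44,0)]⟩,.k,.k,.k,.k,.k,.k,⟨false,1,⟨4,[(4,0),(0,3),(1,0),(59,2)]⟩,
  ⟨0,[(36,1)]⟩⟩,⟨true,0,⟨0,[(39,0)]⟩,⟨0,[(53,0)]⟩⟩,⟨false,1,⟨129,[(5,55),(1,17),(29,19),(8,19),(15,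
  3),(4,18),(0,64)]⟩,⟨0,[(36,0)]⟩⟩,⟨true,0,⟨0,[(41,0)]⟩,⟨0,[(51,0)]⟩⟩,⟨false,0,⟨0,[]⟩,⟨0,[]⟩⟩,
  ⟨false,0,⟨0,[]⟩,⟨0,[]⟩⟩,[.o ⟨false,0,⟨3,[(13,0),(8,1),(13,1),(4,4)]⟩,⟨4,[(5,3),(1,1),(34,4),(19,
  0),(4,0)]⟩⟩,.o ⟨false,1,⟨4,[(41,8),(8,0),(11,0),(5,2)]⟩,⟨0,[(1,0),(33,0)]⟩⟩,.e ⟨true,0,⟨0,[]⟩,⟨0,
  [(70,0)]⟩⟩ ⟨true,0,⟨0,[(36,0),(4,0)]⟩,⟨3,[(1,1),(3,1),(4,0),(35,0),(18,1)]⟩⟩,.a ⟨true,0,⟨0,[(52,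
  0)]⟩,⟨0,[(49,0)]⟩⟩ ⟨false,1,⟨1,[(67,0),(0,0)]⟩,⟨1,[(52,0),(0,0)]⟩⟩ ⟨true,0,⟨7,[(10,1),(2,0),(0,3),
  (26,14)]⟩,⟨2,[(1,0),(3,1),(29,0),(17,0),(11,1)]⟩⟩]⟩) (.I [0,0,0,0,0,1,1] (.C [(0,1),(0,0),(5,0),
  (3,0),(45,1),(12,0)]) (.C [(0,0),(19,0),(3,0),(15,0)]))))))) (.N [0,-1,2,0,-1] 0 ⟨0,[(0,0)]⟩ ⟨0,
  [(4,0)]⟩ (.x (-1) ⟨0,[(18,0),(15,0),(4,0),(0,0),(6,0)]⟩ ⟨1,[(5,1),(3,0),(1,0),(30,0),(5,1),(1,4),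
  (0,0),(12,0)]⟩))))) (.I [0,0,-1,-1,0,0,0,2] (.N [0,-1,2,0,-1] 0 ⟨0,[(0,0)]⟩ ⟨0,[(2,0)]⟩ (.x (-1)
  ⟨0,[(16,0),(15,0),(4,0),(0,0),(6,0)]⟩ ⟨1,[(3,1),(3,0),(1,0),(30,0),(5,1),(1,4),(0,0),(12,0)]⟩))
  (.Q [0,0,2,0,0,0,-2,0,-1,3,-2,-1] (.p false [-1,1,1] [2,0,-1,0,-1] (⟨0,[(36,0)]⟩,⟨0,[(9,0),(31,
  0)]⟩) .k 2 (⟨0,[(9,0),(43,0)]⟩,⟨0,[(17,0)]⟩) .k (.r 0 ⟨0,[(29,1)]⟩ ⟨61,[(0,61),(21,20),(7,19),(8,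
  19),(15,3),(4,9),(0,2),(1,5)]⟩)) (.Q [0,0,-1,0,0,0,2,0,1,-3,2,1] (.p true [-1,1,1] [2,0,-1,0,-1]
  (⟨0,[(37,0)]⟩,⟨0,[(10,0),(31,0)]⟩) .k 2 (⟨0,[(10,0),(43,0)]⟩,⟨0,[(18,0)]⟩) .k (.r 0 ⟨0,[(30,1)]⟩
  ⟨61,[(1,61),(21,20),(7,19),(8,19),(15,3),(4,9),(0,2),(1,5)]⟩)) (.Q [1,0,0,2,-1,0,2,2,1,-3,2,1]
  (.p true [-1,1,1] [2,0,-1,0,-1] (⟨0,[(38,0)]⟩,⟨0,[(11,0),(31,0)]⟩) .k 2 (⟨0,[(11,0),(43,0)]⟩,⟨0,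
  [(19,0)]⟩) .k (.r 0 ⟨0,[(31,1)]⟩ ⟨61,[(2,61),(21,20),(7,19),(8,19),(15,3),(4,9),(0,2),(1,5)]⟩))
  (.R ⟨1,true,false,false,[2,0,-1,0,-1],[-1,1,1],[0,0,1],(⟨0,[(12,0),(43,0)]⟩,⟨0,[(20,0)]⟩),(⟨0,
  [(39,0)]⟩,⟨0,[(12,0),(31,0)]⟩),⟨0,[(12,0)]⟩,.k,.k,(.r (-1) ⟨123,[(3,61),(21,82),(7,19),(8,19),(15,
  3),(4,9),(0,2),(1,5)]⟩ ⟨31,[(0,10),(1,15),(39,4),(3,9),(11,2),(3,9),(1,4)]⟩),(.r (-1) ⟨0,[(1,1),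
  (1,0),(3,0),(2,3),(24,3),(29,3)]⟩ ⟨31,[(0,15),(1,20),(29,21),(9,4),(3,9),(11,2),(4,4),(0,4)]⟩),
  (.r (-2) ⟨27,[(3,5),(1,21),(19,36),(7,9),(8,9),(15,1),(4,4)]⟩ ⟨0,[(0,0),(1,0)]⟩),.k,⟨false,1,⟨55,
  [(5,27),(19,36),(7,9),(8,9),(15,1),(4,4)]⟩,⟨1,[(0,0),(1,0),(60,0)]⟩⟩,⟨true,0,⟨0,[(1,0)]⟩,⟨0,[(2,
  0)]⟩⟩,⟨true,0,⟨0,[(37,0),(11,0)]⟩,⟨0,[(34,0)]⟩⟩,⟨false,0,⟨5,[(0,3),(6,0),(10,3),(13,3),(31,2)]⟩,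
  ⟨5,[(2,3),(0,4),(1,0),(1,0),(17,4),(19,3)]⟩⟩,⟨false,0,⟨1,[(0,0),(1,0),(61,0)]⟩,⟨55,[(5,27),(19,
  36),(7,9),(8,9),(15,1),(4,4)]⟩⟩,⟨true,(-1),⟨0,[(0,0)]⟩,⟨5,[(2,3),(2,5),(1,0),(17,4),(19,3),(15,
  5)]⟩⟩,[]⟩) (.Q [0,0,0,0,0,0,0,0,0,1,-2] (.ed true [0,0,2] (.r 0 ⟨0,[(32,1)]⟩ ⟨13,[(0,2),(0,2),(3,
  10),(27,4),(8,4),(15,0),(4,3)]⟩)) (.R ⟨0,false,false,true,[0,0,1],[0,0,2],[1,1],(⟨0,[(52,0)]⟩,⟨0,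
  [(51,0)]⟩),(⟨0,[(52,1)]⟩,⟨0,[(0,0)]⟩),⟨0,[(41,0)]⟩,.k,.k,.k,.k,.k,.k,⟨false,1,⟨2,[(1,0),(0,0),(3,
  1),(57,1)]⟩,⟨0,[(33,1)]⟩⟩,⟨true,0,⟨0,[(36,0)]⟩,⟨0,[(50,0)]⟩⟩,⟨true,0,⟨4,[(6,1),(28,0),(22,0),(3,
  1)]⟩,⟨0,[(33,0)]⟩⟩,⟨false,0,⟨0,[(38,0)]⟩,⟨7,[(1,1),(30,0),(4,3),(5,0),(15,0),(5,3)]⟩⟩,⟨false,0,⟨0,
  []⟩,⟨0,[]⟩⟩,⟨false,0,⟨0,[]⟩,⟨0,[]⟩⟩,[.o ⟨false,0,⟨3,[(10,0),(8,1),(13,1),(4,0),(8,3)]⟩,⟨1,[(1,0),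
  (28,1),(1,0),(32,0)]⟩⟩,.o ⟨false,0,⟨3,[(10,0),(8,1),(13,1),(4,4)]⟩,⟨3,[(1,1),(30,0),(4,3),(5,0),
  (15,0)]⟩⟩,.e ⟨false,0,⟨0,[]⟩,⟨1,[(42,0),(0,0),(21,0)]⟩⟩ ⟨false,0,⟨0,[(33,0),(4,0)]⟩,⟨15,[(1,5),(4,
  7),(0,3),(22,2),(1,1),(4,0),(21,0),(5,7)]⟩⟩,.a ⟨true,0,⟨0,[(49,0)]⟩,⟨0,[(46,0)]⟩⟩ ⟨true,0,⟨16,
  [(10,0),(6,1),(17,1),(10,3),(0,0),(10,6)]⟩,⟨1,[(49,0),(0,0)]⟩⟩ ⟨false,0,⟨7,[(7,1),(2,0),(0,3),(26,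
  14)]⟩,⟨53,[(1,18),(4,31),(12,11),(10,5),(1,6),(17,21),(8,3),(5,26)]⟩⟩]⟩) (.I [0,0,0,0,0,1,1] (.C
  [(0,1),(0,0),(10,0),(41,1),(12,0)]) (.C [(0,0),(5,0),(7,0),(6,0),(15,0)])))) (.I [0,0,0,0,0,1,1]
  (.I [0,0,-1,0,0,1,-1] (.I [0,0,-2,0,0,-1,1,0,1] (.C [(0,0),(1,0),(0,0),(2,0),(15,0),(31,1),(12,
  0)]) (.C [(0,0),(7,0),(5,0),(22,0)])) (.C [(0,0),(1,0),(2,0),(1,0),(5,0),(7,0),(14,0)])) (.C [(0,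
  0),(3,0),(7,0),(6,0),(15,0)]))) (.I [1,0,-1,-1,0,0,0,2] (.N [0,-1,2] 0 ⟨0,[(0,0)]⟩ ⟨0,[(2,0)]⟩
  (.x 0 ⟨0,[(34,1),(4,1),(11,0),(12,0)]⟩ ⟨19,[(9,13),(27,5),(12,39),(3,19),(2,7),(4,2),(0,0),(1,
  1)]⟩)) (.I [2,0,-1,-1,0,0,0,2] (.N [0,-1,2,0,1] 0 ⟨0,[(0,0)]⟩ ⟨0,[(1,0)]⟩ (.x 0 ⟨14,[(2,1),(9,9),
  (2,4),(2,6),(21,19),(1,5),(5,18)]⟩ ⟨72,[(9,7),(0,72),(0,7),(8,72),(20,40),(9,72),(0,10),(2,61),(2,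
  13),(5,3)]⟩)) (.I [3,0,-1,-1,0,0,0,2] (.N [0,-1,2,0,2] 0 ⟨0,[(0,0)]⟩ ⟨0,[(1,0)]⟩ (.x 0 ⟨0,[(13,0),
  (2,0),(2,0),(21,0),(1,0),(5,0)]⟩ ⟨6,[(10,1),(0,6),(0,1),(8,13),(20,5),(10,1),(2,4),(8,0)]⟩)) (.Q
  [0,0,0,0,0,0,0,0,0,1,-2] (.ed true [0,0,2] (.r 0 ⟨0,[(33,1)]⟩ ⟨27,[(2,27),(23,8),(7,9),(8,9),(15,
  1),(4,4)]⟩)) (.R ⟨0,false,false,false,[0,0,1],[0,0,2],[1],(⟨0,[(53,0)]⟩,⟨0,[(52,0)]⟩),(⟨0,[(53,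
  1)]⟩,⟨0,[(0,0)]⟩),⟨0,[(42,0)]⟩,.k,.k,.k,.k,.k,.k,⟨false,1,⟨1,[(3,1),(23,0),(37,0)]⟩,⟨0,[(34,1)]⟩⟩,
  ⟨true,0,⟨0,[(37,0)]⟩,⟨0,[(51,0)]⟩⟩,⟨false,1,⟨55,[(3,27),(23,8),(7,9),(8,9),(15,1),(4,4),(0,27)]⟩,
  ⟨0,[(34,0)]⟩⟩,⟨true,0,⟨0,[(39,0)]⟩,⟨0,[(49,0)]⟩⟩,⟨false,0,⟨0,[]⟩,⟨0,[]⟩⟩,⟨false,0,⟨0,[]⟩,⟨0,[]⟩⟩,
  [.o ⟨false,0,⟨3,[(11,0),(8,1),(13,1),(4,4)]⟩,⟨27,[(3,27),(23,12),(7,1),(4,27),(3,1),(15,5),(4,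
  0)]⟩⟩,.o ⟨false,1,⟨4,[(39,8),(8,0),(11,0),(5,2)]⟩,⟨2,[(0,0),(0,0),(1,1),(2,1),(5,2),(41,3),(8,
  2)]⟩⟩,.e ⟨true,0,⟨0,[]⟩,⟨0,[(68,0)]⟩⟩ ⟨true,0,⟨0,[(34,0),(4,0)]⟩,⟨2,[(0,0),(0,0),(1,1),(2,1),(40,
  2),(6,3),(8,2)]⟩⟩,.a ⟨true,0,⟨0,[(50,0)]⟩,⟨0,[(47,0)]⟩⟩ ⟨false,1,⟨1,[(65,0),(0,0)]⟩,⟨1,[(50,0),(0,
  0)]⟩⟩ ⟨true,0,⟨7,[(8,1),(2,0),(0,3),(26,14)]⟩,⟨8,[(0,0),(2,8),(2,1),(5,2),(38,2),(2,3),(8,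
  8)]⟩⟩]⟩) (.I [0,0,0,0,0,1,1] (.C [(0,1),(0,0),(11,0),(41,1),(12,0)]) (.C [(0,0),(6,0),(7,0),(6,0),
  (15,0)])))))))))))

theorem ok28 : chk K t28 r33 = true := by decide +kernel

noncomputable def t34 : Tre :=
  (.Q [0,1,0,0,-1,0,2,2,0,-1,2] (.p true [0,0,1] [1,0,-1] (⟨0,[(39,0)]⟩,⟨0,[(38,0)]⟩) .k 2 (⟨0,[(38,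
  0)]⟩,⟨0,[(39,0)]⟩) .k (.r 0 ⟨0,[(20,1)]⟩ ⟨0,[(22,0),(12,0),(0,0),(15,0)]⟩)) (.Q [0,0,1,0,0,0,2,0,
  0,-1,2] (.p true [0,0,1] [1,0,-1] (⟨0,[(40,0)]⟩,⟨0,[(39,0)]⟩) .k 2 (⟨0,[(39,0)]⟩,⟨0,[(40,0)]⟩) .k
  (.r 0 ⟨0,[(21,1)]⟩ ⟨0,[(23,0),(12,0),(0,0),(15,0)]⟩)) (.R ⟨0,false,false,false,[0,0,1],[1,0,-1],
  [1],(⟨0,[(41,0)]⟩,⟨0,[(40,0)]⟩),(⟨0,[(40,0)]⟩,⟨0,[(41,0)]⟩),⟨0,[(30,0)]⟩,.k,.k,.k,.k,.k,.k,⟨false,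
  0,⟨15,[(1,1),(2,1),(1,1),(8,0),(6,9),(12,7),(17,0)]⟩,⟨2,[(0,0),(22,0),(0,0),(1,0),(4,0),(0,1),(4,
  0),(16,0)]⟩⟩,⟨true,0,⟨0,[(28,0)]⟩,⟨0,[(0,0)]⟩⟩,⟨false,1,⟨1,[(24,0),(12,0),(0,0),(15,1)]⟩,⟨0,[(22,
  0)]⟩⟩,⟨true,1,⟨0,[(11,0),(20,0),(4,0),(16,0)]⟩,⟨0,[(1,0)]⟩⟩,⟨false,0,⟨0,[]⟩,⟨0,[]⟩⟩,⟨false,0,⟨0,
  []⟩,⟨0,[]⟩⟩,[.o ⟨false,1,⟨1,[(31,0),(0,0),(4,1),(16,0)]⟩,⟨18,[(1,8),(34,0),(11,1),(5,4)]⟩⟩,.o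
  ⟨false,1,⟨0,[(37,0),(16,0)]⟩,⟨6,[(1,1),(34,2),(11,0),(7,1)]⟩⟩,.a ⟨true,0,⟨0,[(25,0)]⟩,⟨1,[(28,0),
  (11,0),(0,0)]⟩⟩ ⟨true,0,⟨0,[]⟩,⟨0,[(56,0)]⟩⟩ ⟨false,1,⟨1,[(11,0),(16,0),(3,0),(4,0),(16,1)]⟩,⟨3,
  [(0,1),(0,1),(51,0),(0,0)]⟩⟩,.e ⟨false,1,⟨1,[(53,0),(0,0)]⟩,⟨1,[(38,0),(0,0)]⟩⟩ ⟨false,1,⟨2,[(11,
  0),(3,0),(10,1),(1,0),(3,0),(2,0),(18,1)]⟩,⟨2,[(0,1),(0,0),(34,0),(2,0),(14,0)]⟩⟩]⟩) (.Q [0,0,0,0,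
  0,0,0,0,0,1,-2] (.ed true [0,0,2] (.r 0 ⟨0,[(22,1)]⟩ ⟨0,[(24,0),(12,0),(0,0),(15,0)]⟩)) (.R ⟨0,
  false,false,true,[0,0,1],[0,0,2],[1,1],(⟨0,[(42,0)]⟩,⟨0,[(41,0)]⟩),(⟨0,[(42,1)]⟩,⟨0,[(0,0)]⟩),⟨0,
  [(31,0)]⟩,.k,.k,.k,.k,.k,.k,⟨false,1,⟨1,[(25,2),(12,0),(0,0),(15,1)]⟩,⟨0,[(23,1)]⟩⟩,⟨true,0,⟨0,
  [(26,0)]⟩,⟨0,[(40,0)]⟩⟩,⟨true,0,⟨1,[(25,0),(12,0),(0,0)]⟩,⟨0,[(23,0)]⟩⟩,⟨false,0,⟨0,[(28,0)]⟩,⟨0,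
  [(38,0),(16,0)]⟩⟩,⟨false,0,⟨0,[]⟩,⟨0,[]⟩⟩,⟨false,0,⟨0,[]⟩,⟨0,[]⟩⟩,[.o ⟨false,(-1),⟨0,[(2,0)]⟩,⟨1,
  [(32,0),(0,0),(4,3),(16,2)]⟩⟩,.o ⟨false,0,⟨18,[(2,13),(34,9),(11,0),(5,11)]⟩,⟨0,[(38,1),(16,0)]⟩⟩,
  .a ⟨true,0,⟨0,[(26,0)]⟩,⟨1,[(29,0),(11,0),(0,0)]⟩⟩ ⟨false,0,⟨0,[]⟩,⟨1,[(32,0),(0,0),(21,0)]⟩⟩
  ⟨true,(-1),⟨1,[(2,1),(26,0),(11,0),(0,0)]⟩,⟨1,[(25,0),(12,2),(0,0),(15,1)]⟩⟩,.e ⟨true,0,⟨10,[(2,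
  0),(4,0),(4,0),(12,0),(10,1),(11,3),(5,0)]⟩,⟨1,[(39,0),(0,0)]⟩⟩ ⟨true,(-1),⟨0,[(2,0),(33,0)]⟩,⟨0,
  [(38,1),(0,0),(15,0)]⟩⟩]⟩) (.I [0,0,0,0,0,1,1] (.C [(0,1),(0,0),(0,0),(41,1),(12,0)]) (.C [(0,0),
  (6,0),(3,0),(15,0)])))) (.Q [0,0,1,0,0,0,2,0,0,-1,2] (.p true [0,0,1] [1,0,-1] (⟨0,[(40,0)]⟩,⟨0,
  [(39,0)]⟩) .k 2 (⟨0,[(39,0)]⟩,⟨0,[(40,0)]⟩) .k (.r 0 ⟨0,[(21,1)]⟩ ⟨14,[(0,9),(22,9),(0,7),(12,11),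
  (9,1),(4,0)]⟩)) (.R ⟨0,false,false,false,[0,0,1],[1,0,-1],[1,1],(⟨0,[(41,0)]⟩,⟨0,[(40,0)]⟩),(⟨0,
  [(40,0)]⟩,⟨0,[(41,0)]⟩),⟨0,[(30,0)]⟩,.k,.k,.k,.k,.k,.k,⟨false,0,⟨7,[(6,0),(6,0),(8,6),(12,1),(11,
  3)]⟩,⟨3,[(0,1),(0,1),(51,0),(0,0)]⟩⟩,⟨true,0,⟨0,[(28,0)]⟩,⟨0,[(0,0)]⟩⟩,⟨true,0,⟨1,[(24,0),(12,0),
  (0,0)]⟩,⟨0,[(22,0)]⟩⟩,⟨false,1,⟨0,[(1,0)]⟩,⟨1,[(8,0),(4,0),(8,0),(4,1)]⟩⟩,⟨false,0,⟨0,[]⟩,⟨0,[]⟩⟩,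
  ⟨false,0,⟨0,[]⟩,⟨0,[]⟩⟩,[.o ⟨false,1,⟨6,[(1,4),(34,2),(11,0),(7,1)]⟩,⟨1,[(8,0),(4,0),(8,0)]⟩⟩,.o
  ⟨false,1,⟨18,[(1,9),(34,0),(11,1),(5,4)]⟩,⟨1,[(8,0),(5,0),(7,0),(13,0)]⟩⟩,.e ⟨false,0,⟨0,[]⟩,⟨18,
  [(1,4),(34,9),(11,0),(5,11)]⟩⟩ ⟨false,1,⟨37,[(1,23),(26,18),(7,9),(11,0),(5,11)]⟩,⟨5,[(0,1),(5,0),
  (1,0),(4,1),(13,3)]⟩⟩,.a ⟨true,0,⟨0,[(38,0)]⟩,⟨0,[(35,0)]⟩⟩ ⟨true,0,⟨4,[(6,0),(13,0),(14,0),(11,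
  1)]⟩,⟨1,[(38,0),(0,0)]⟩⟩ ⟨false,1,⟨11,[(1,5),(26,0),(6,9),(12,0),(4,0),(0,2)]⟩,⟨0,[(0,0),(21,
  0)]⟩⟩]⟩) (.I [1,0,-1,-1,1,0,0,-2] (.Q [0,0,0,0,0,0,0,0,0,1,-2] (.ed true [0,0,2] (.r 0 ⟨0,[(23,
  1)]⟩ ⟨36,[(0,22),(1,9),(24,7),(11,27),(8,4),(0,1),(3,14)]⟩)) (.R ⟨0,false,false,false,[1,0,-2],[1,
  0,-1],[0,1],(⟨0,[(0,0)]⟩,⟨0,[(43,1)]⟩),(⟨0,[(42,0)]⟩,⟨0,[(43,0)]⟩),⟨0,[(31,0),(11,0)]⟩,.k,.k,(.x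
  0 ⟨1,[(30,0),(0,0),(9,1),(1,2),(4,0)]⟩ ⟨4,[(0,4),(0,2),(4,0),(1,0),(10,1),(7,2),(10,2),(8,4),(2,
  0)]⟩),.k,.k,.k,⟨false,0,⟨5,[(2,1),(5,0),(6,0),(8,2),(13,1),(10,1)]⟩,⟨56,[(1,18),(1,9),(34,0),(1,
  18),(9,1),(3,18),(1,23)]⟩⟩,⟨true,0,⟨0,[(27,0)]⟩,⟨0,[(41,0)]⟩⟩,⟨false,0,⟨0,[(24,1)]⟩,⟨0,[(1,0),(49,
  0)]⟩⟩,⟨true,0,⟨0,[(29,0)]⟩,⟨0,[(39,0)]⟩⟩,⟨false,0,⟨0,[]⟩,⟨0,[]⟩⟩,⟨false,0,⟨0,[]⟩,⟨0,[]⟩⟩,[.o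
  ⟨false,1,⟨6,[(3,4),(34,2),(11,0),(7,1)]⟩,⟨1,[(10,0),(4,0),(8,0)]⟩⟩,.o ⟨false,1,⟨18,[(3,9),(34,0),
  (11,1),(5,4)]⟩,⟨1,[(10,0),(5,0),(7,0),(13,0)]⟩⟩,.a ⟨true,0,⟨0,[(30,0)]⟩,⟨0,[(27,1)]⟩⟩ ⟨true,0,⟨0,
  [(58,0)]⟩,⟨0,[]⟩⟩ ⟨false,1,⟨1,[(1,0),(25,0),(12,0),(13,0),(1,0)]⟩,⟨8,[(2,2),(3,0),(1,0),(15,7),
  (16,4),(11,0)]⟩⟩,.o ⟨false,0,⟨4,[(0,0),(1,2),(1,1),(2,1),(33,3),(2,3),(12,3)]⟩,⟨0,[(1,0),(17,0),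
  (18,0)]⟩⟩]⟩) (.I [0,0,0,0,0,1,1] (.C [(0,1),(0,0),(1,0),(41,1),(12,0)]) (.C [(0,0),(7,0),(3,0),
  (15,0)]))) (.Q [0,0,0,0,0,-1,0,0,0,2,-2] (.ed true [-1,1,2] .k) (.R ⟨2,true,false,true,[0,1],[-1,
  1,2],[0,1,2,1,0,0,0,2],(⟨0,[]⟩,⟨0,[]⟩),(⟨0,[(31,0),(11,0)]⟩,⟨0,[(0,0)]⟩),⟨0,[]⟩,.k,(.r 1 ⟨0,[(1,
  0)]⟩ ⟨37,[(3,29),(13,18),(8,22),(11,6),(1,52),(9,5),(4,14)]⟩),.k,.k,(.r (-2) ⟨37,[(3,29),(13,18),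
  (8,22),(11,6),(1,52),(9,5),(4,14)]⟩ ⟨0,[(1,0)]⟩),.k,⟨true,0,⟨1,[(40,0),(0,0)]⟩,⟨0,[]⟩⟩,⟨false,1,
  ⟨4,[(27,8),(12,0),(9,0),(4,2)]⟩,⟨0,[(30,0)]⟩⟩,⟨true,(-1),⟨0,[(1,0),(51,0)]⟩,⟨17,[(3,9),(22,15),(0,
  19),(22,1),(4,0),(0,2)]⟩⟩,⟨false,0,⟨20,[(1,3),(8,7),(4,7),(1,1),(11,25),(20,0)]⟩,⟨0,[(3,0)]⟩⟩,
  ⟨false,(-1),⟨0,[(1,0)]⟩,⟨9,[(3,9),(13,4),(9,17),(12,1),(9,1),(4,0)]⟩⟩,⟨true,(-1),⟨3,[(1,3),(6,1),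
  (7,1),(9,0),(0,3),(10,0),(1,0)]⟩,⟨0,[(3,0),(49,0)]⟩⟩,[]⟩) (.I [0,0,0,0,0,1,1] (.C [(0,1),(0,0),(1,
  1),(24,1),(16,2),(12,1)]) (.C [(0,0),(7,0),(3,0),(15,0)]))))))

theorem ok34 : chk K t34 r25 = true := by decide +kernel

noncomputable def t41 : Tre :=
  (.Q [0,0,0,0,0,-1,0,0,0,2,-1,-1] (.p false [-1,0,1,0,1] [1] (⟨0,[(2,0)]⟩,⟨0,[(25,0),(6,0)]⟩) .k 1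
  (⟨0,[]⟩,⟨0,[]⟩) .k (.r 0 ⟨0,[(14,0)]⟩ ⟨1,[(16,0),(6,0),(0,0),(4,0),(0,0),(15,0)]⟩)) (.S ⟨1,0,[-1,
  0,0,0,0,0,0,-1],[2,0,-1,0,-1],[0,0,1],(⟨0,[(0,0),(38,0)]⟩,⟨0,[(3,0)]⟩),⟨0,[(0,0)]⟩,.k,(.r (-1) ⟨1,
  [(8,0),(8,0),(12,0),(0,0),(15,0)]⟩ ⟨3,[(10,0),(10,0),(7,2),(2,1),(9,1),(2,0)]⟩),⟨true,0,⟨0,[(20,
  0),(11,0)]⟩,⟨0,[(17,0)]⟩⟩,⟨false,1,⟨1,[(24,0),(0,0),(21,0)]⟩,⟨0,[]⟩⟩,⟨false,0,⟨0,[(15,0),(26,0)]⟩,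
  ⟨1,[(8,0),(8,0),(12,0),(0,0),(15,0)]⟩⟩,⟨true,0,⟨0,[(45,0)]⟩,⟨0,[(44,0)]⟩⟩,[.o ⟨false,1,⟨0,[(16,0),
  (2,0)]⟩,⟨0,[(10,0),(3,0),(29,0)]⟩⟩,.o ⟨false,1,⟨0,[(4,0),(42,0)]⟩,⟨1,[(7,0),(2,0),(3,2),(14,0),
  (14,0)]⟩⟩,.a ⟨true,0,⟨0,[(1,0)]⟩,⟨0,[(9,0),(8,0)]⟩⟩ ⟨true,0,⟨1,[(31,0),(0,0)]⟩,⟨0,[(43,0)]⟩⟩
  ⟨false,1,⟨1,[(17,0),(12,0),(0,0),(15,1)]⟩,⟨0,[(15,0)]⟩⟩,.e ⟨false,1,⟨1,[(24,0),(0,0),(21,0)]⟩,⟨0,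
  []⟩⟩ ⟨false,1,⟨0,[(17,0),(29,0)]⟩,⟨0,[(20,0),(11,0)]⟩⟩]⟩) (.I [0,0,-1,0,0,0,0,0,1] (.I [0,0,0,0,0,
  1,1] (.C [(0,0),(0,0),(0,0),(0,0),(33,1),(12,0)]) (.C [(0,0),(19,0),(4,0)])) (.C [(0,0),(5,0),(20,
  0)])))

theorem ok41 : chk K t41 r19 = true := by decide +kernel

noncomputable def t43 : Tre :=
  (.Q [0,-1,0,0,1,0,-2,-2,0,1,-2] (.p false [0,0,1] [1,0,-1] (⟨0,[(32,0)]⟩,⟨0,[(31,0)]⟩) .k 2 (⟨0,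
  [(31,0)]⟩,⟨0,[(32,0)]⟩) .k (.r 0 ⟨0,[(13,1)]⟩ ⟨0,[(15,0),(12,0),(0,0),(15,0)]⟩)) (.Q [0,0,1,0,0,0,
  2,0,0,-1,2] (.p true [0,0,1] [1,0,-1] (⟨0,[(33,0)]⟩,⟨0,[(32,0)]⟩) .k 2 (⟨0,[(32,0)]⟩,⟨0,[(33,
  0)]⟩) .k (.r 0 ⟨0,[(14,1)]⟩ ⟨18,[(0,9),(15,17),(13,19),(9,1),(4,0),(0,3)]⟩)) (.R ⟨0,false,false,
  false,[0,0,1],[1,0,-1],[1,1],(⟨0,[(34,0)]⟩,⟨0,[(33,0)]⟩),(⟨0,[(33,0)]⟩,⟨0,[(34,0)]⟩),⟨0,[(23,0)]⟩,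
  .k,.k,.k,.k,.k,.k,⟨false,0,⟨3,[(5,0),(0,0),(8,2),(12,0),(11,1)]⟩,⟨3,[(0,1),(0,1),(44,0),(0,0)]⟩⟩,
  ⟨true,0,⟨0,[(21,0)]⟩,⟨0,[(0,0)]⟩⟩,⟨true,0,⟨1,[(17,0),(12,0),(0,0)]⟩,⟨0,[(15,0)]⟩⟩,⟨false,1,⟨0,[(1,
  0)]⟩,⟨0,[(10,0),(9,0),(23,0)]⟩⟩,⟨false,0,⟨0,[]⟩,⟨0,[]⟩⟩,⟨false,0,⟨0,[]⟩,⟨0,[]⟩⟩,[.o ⟨false,1,⟨6,
  [(1,4),(27,2),(11,0),(7,1)]⟩,⟨0,[(10,0),(33,0)]⟩⟩,.o ⟨false,1,⟨19,[(1,9),(22,0),(0,0),(15,1),(5,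
  4)]⟩,⟨1,[(7,0),(2,0),(3,0),(14,0),(14,0)]⟩⟩,.e ⟨false,0,⟨0,[]⟩,⟨1,[(24,0),(0,0),(21,0)]⟩⟩ ⟨false,
  1,⟨3,[(1,1),(19,1),(2,0),(0,0),(21,0)]⟩,⟨1,[(0,0),(4,0),(0,0),(13,0)]⟩⟩,.a ⟨true,0,⟨0,[(31,0)]⟩,
  ⟨0,[(28,0)]⟩⟩ ⟨true,0,⟨0,[(43,0)]⟩,⟨1,[(31,0),(0,0)]⟩⟩ ⟨false,1,⟨11,[(1,5),(19,0),(6,9),(12,0),(4,
  0),(0,2)]⟩,⟨0,[(0,0),(14,0)]⟩⟩]⟩) (.I [0,0,-1,0,0,0,0,0,1] (.I [0,0,0,0,0,1,1] (.C [(0,1),(1,0),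
  (1,0),(0,0),(31,1),(12,0)]) (.C [(0,0),(19,0),(4,0)])) (.C [(0,0),(2,0),(2,0),(17,0),(14,0)])))
  (.Q [0,0,1,0,0,0,2,0,0,-1,2] (.p true [0,0,1] [1,0,-1] (⟨0,[(33,0)]⟩,⟨0,[(32,0)]⟩) .k 2 (⟨0,[(32,
  0)]⟩,⟨0,[(33,0)]⟩) .k (.r 0 ⟨0,[(14,1)]⟩ ⟨0,[(16,0),(12,0),(0,0),(15,0)]⟩)) (.R ⟨0,false,false,
  false,[0,0,1],[1,0,-1],[1],(⟨0,[(34,0)]⟩,⟨0,[(33,0)]⟩),(⟨0,[(33,0)]⟩,⟨0,[(34,0)]⟩),⟨0,[(23,0)]⟩,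
  .k,.k,.k,.k,.k,.k,⟨false,0,⟨41,[(1,9),(6,4),(1,9),(4,11),(12,29),(12,1),(4,0)]⟩,⟨2,[(0,0),(15,0),
  (0,0),(1,0),(4,0),(0,1),(4,0),(16,0)]⟩⟩,⟨true,0,⟨0,[(21,0)]⟩,⟨0,[(0,0)]⟩⟩,⟨false,1,⟨1,[(17,0),(12,
  0),(0,0),(15,1)]⟩,⟨0,[(15,0)]⟩⟩,⟨true,1,⟨0,[(4,0),(20,0),(4,0),(16,0)]⟩,⟨0,[(1,0)]⟩⟩,⟨false,0,⟨0,
  []⟩,⟨0,[]⟩⟩,⟨false,0,⟨0,[]⟩,⟨0,[]⟩⟩,[.o ⟨false,1,⟨1,[(24,0),(0,0),(4,1),(16,0)]⟩,⟨8,[(1,3),(18,0),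
  (20,0),(5,1)]⟩⟩,.o ⟨false,1,⟨0,[(30,0),(16,0)]⟩,⟨6,[(1,1),(27,2),(11,0),(7,1)]⟩⟩,.a ⟨true,0,⟨0,
  [(18,0)]⟩,⟨1,[(21,0),(11,0),(0,0)]⟩⟩ ⟨true,0,⟨0,[]⟩,⟨0,[(49,0)]⟩⟩ ⟨false,1,⟨1,[(4,0),(16,0),(3,0),
  (4,0),(16,1)]⟩,⟨7,[(0,3),(0,1),(6,0),(1,1),(9,1),(25,0)]⟩⟩,.e ⟨false,1,⟨1,[(46,0),(0,0)]⟩,⟨1,[(31,
  0),(0,0)]⟩⟩ ⟨false,1,⟨2,[(4,0),(3,0),(10,1),(1,0),(3,0),(2,0),(18,1)]⟩,⟨26,[(0,17),(0,3),(18,18),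
  (11,8),(8,0),(5,1)]⟩⟩]⟩) (.I [0,0,-1,0,0,0,0,0,1] (.I [0,0,0,0,0,1,1] (.C [(0,1),(1,0),(1,0),(0,
  0),(31,1),(12,0)]) (.C [(0,0),(19,0),(4,0)])) (.C [(0,0),(2,0),(2,0),(17,0),(14,0)]))))

theorem ok43 : chk K t43 r18 = true := by decide +kernel

noncomputable def t45 : Tre :=
  (.R ⟨0,false,false,false,[1,0,-1],[0,1,0,0,-1],[-1,0,2,1],(⟨0,[(31,0)]⟩,⟨0,[(32,0)]⟩),(⟨0,[(1,0),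
  (18,0)]⟩,⟨0,[(25,0),(10,0)]⟩),⟨0,[(20,0)]⟩,.k,(.r 0 ⟨0,[(40,0),(6,0)]⟩ ⟨27,[(0,4),(5,8),(7,4),(12,
  4),(11,1),(4,4),(0,4)]⟩),.k,(.r (-1) ⟨22,[(0,3),(1,3),(3,10),(3,2),(4,11),(13,10),(9,0),(5,9)]⟩
  ⟨1,[(13,0),(13,0),(2,0),(9,0),(2,0)]⟩),.k,.k,⟨true,0,⟨1,[(29,0),(0,0)]⟩,⟨0,[]⟩⟩,⟨false,1,⟨25,[(4,
  25),(1,7),(1,7),(1,7),(4,25),(23,1),(4,4),(0,8)]⟩,⟨0,[(0,0),(12,0),(26,0)]⟩⟩,⟨false,0,⟨2,[(13,0),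
  (4,1),(11,1),(9,2),(5,0)]⟩,⟨1,[(6,0),(8,1),(29,0)]⟩⟩,⟨true,0,⟨0,[(5,0),(2,0)]⟩,⟨0,[(0,0)]⟩⟩,
  ⟨false,0,⟨0,[]⟩,⟨0,[]⟩⟩,⟨false,0,⟨0,[]⟩,⟨0,[]⟩⟩,[.o ⟨false,0,⟨0,[(4,0),(5,0)]⟩,⟨4,[(0,4),(17,3),
  (8,0),(11,0),(5,2)]⟩⟩,.o ⟨false,1,⟨1,[(5,0),(2,0),(1,0),(11,0),(22,0)]⟩,⟨1,[(0,0),(11,0),(5,0),
  (23,0)]⟩⟩,.a ⟨true,0,⟨1,[(19,0),(11,0),(0,0)]⟩,⟨0,[(16,0)]⟩⟩ ⟨false,0,⟨3,[(29,0),(0,0),(9,3),(5,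
  1)]⟩,⟨1,[(6,0),(37,0)]⟩⟩ ⟨true,0,⟨0,[(4,0),(5,0),(5,0)]⟩,⟨0,[(0,0),(12,0)]⟩⟩,.o ⟨false,0,⟨0,[(30,
  0)]⟩,⟨4,[(16,3),(12,0),(9,0),(4,2)]⟩⟩]⟩)

theorem ok45 : chk K t45 l34 = true := by decide +kernel

noncomputable def t46 : Tre :=
  (.I [2,1,-1,-1] (.R ⟨0,false,false,false,[0,0,1],[0,1,0,0,-1],[1,1],(⟨0,[(34,0)]⟩,⟨0,[(33,0)]⟩),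
  (⟨0,[(3,0),(18,0)]⟩,⟨0,[(27,0),(10,0)]⟩),⟨0,[(23,0)]⟩,.k,(.r 0 ⟨0,[(42,0),(6,0)]⟩ ⟨27,[(8,8),(7,
  9),(8,9),(15,1),(4,4)]⟩),.k,(.r (-1) ⟨31,[(1,9),(6,5),(6,21),(0,9),(4,4),(19,2),(4,9)]⟩ ⟨2,[(17,
  0),(1,1),(11,1),(10,0),(5,0)]⟩),.k,.k,⟨true,0,⟨0,[(0,0)]⟩,⟨3,[(31,0),(0,0),(9,3),(5,1)]⟩⟩,⟨false,
  1,⟨11,[(2,5),(1,5),(3,2),(12,1),(6,7),(12,1),(4,4)]⟩,⟨0,[(25,0),(5,0)]⟩⟩,⟨true,0,⟨1,[(17,0),(12,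
  0),(0,0)]⟩,⟨0,[(15,0)]⟩⟩,⟨false,1,⟨4,[(2,0),(1,1),(7,0),(6,2),(4,1),(22,2)]⟩,⟨0,[(1,0)]⟩⟩,⟨false,
  0,⟨0,[]⟩,⟨0,[]⟩⟩,⟨false,0,⟨0,[]⟩,⟨0,[]⟩⟩,[.o ⟨false,0,⟨1,[(2,0),(4,0),(4,0)]⟩,⟨8,[(16,4),(8,13),
  (15,0),(2,3),(2,1)]⟩⟩,.o ⟨false,1,⟨14,[(2,6),(1,1),(14,4),(4,5),(16,1),(3,2),(1,4)]⟩,⟨0,[(25,0),
  (18,0)]⟩⟩,.a ⟨true,0,⟨0,[(18,0)]⟩,⟨1,[(21,0),(11,0),(0,0)]⟩⟩ ⟨false,0,⟨0,[]⟩,⟨1,[(24,0),(0,0),(21,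
  0)]⟩⟩ ⟨true,0,⟨1,[(2,0),(4,0),(11,0),(1,0)]⟩,⟨1,[(1,0),(15,0),(7,0),(5,0),(12,0)]⟩⟩,.e ⟨true,0,⟨0,
  [(43,0)]⟩,⟨1,[(31,0),(0,0)]⟩⟩ ⟨true,0,⟨1,[(2,0),(4,0),(4,0),(15,1)]⟩,⟨0,[(25,0),(5,0),(12,
  0)]⟩⟩]⟩) (.I [0,0,0,0,0,1,1] (.C [(0,0),(0,0),(21,0),(5,0),(6,1),(8,0)]) (.C [(0,0),(18,0),(4,
  0)])))

theorem ok46 : chk K t46 l35 = true := by decide +kernel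

noncomputable def t47 : Tre :=
  (.Q [0,-1,0,0,1,0,-2,-2,0,1,-2] (.p false [0,0,1] [1,0,-1] (⟨0,[(34,0)]⟩,⟨0,[(33,0)]⟩) .k 2 (⟨0,
  [(33,0)]⟩,⟨0,[(34,0)]⟩) .k (.r 0 ⟨0,[(15,1)]⟩ ⟨0,[(17,0),(12,0),(0,0),(15,0)]⟩)) (.R ⟨0,false,
  false,false,[0,0,1],[1,0,-1],[1,1],(⟨0,[(35,0)]⟩,⟨0,[(34,0)]⟩),(⟨0,[(34,0)]⟩,⟨0,[(35,0)]⟩),⟨0,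
  [(24,0)]⟩,.k,.k,.k,.k,.k,.k,⟨false,0,⟨3,[(6,0),(0,0),(8,2),(12,0),(11,1)]⟩,⟨3,[(0,1),(0,1),(45,0),
  (0,0)]⟩⟩,⟨true,0,⟨0,[(22,0)]⟩,⟨0,[(1,0)]⟩⟩,⟨true,0,⟨1,[(18,0),(12,0),(0,0)]⟩,⟨0,[(16,0)]⟩⟩,⟨false,
  1,⟨0,[(0,0)]⟩,⟨1,[(3,0),(11,0),(5,2),(23,0)]⟩⟩,⟨false,0,⟨0,[]⟩,⟨0,[]⟩⟩,⟨false,0,⟨0,[]⟩,⟨0,[]⟩⟩,
  [.o ⟨false,1,⟨6,[(0,4),(29,2),(11,0),(7,1)]⟩,⟨1,[(3,0),(11,0),(5,0),(23,0)]⟩⟩,.o ⟨false,1,⟨18,[(0,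
  9),(29,0),(11,1),(5,4)]⟩,⟨2,[(3,0),(4,0),(6,1),(14,1),(14,0)]⟩⟩,.e ⟨false,0,⟨0,[]⟩,⟨18,[(0,4),(29,
  9),(11,0),(5,11)]⟩⟩ ⟨false,1,⟨37,[(0,23),(21,18),(7,9),(11,0),(5,11)]⟩,⟨1,[(1,0),(4,0),(0,0),(13,
  0)]⟩⟩,.a ⟨true,0,⟨0,[(32,0)]⟩,⟨0,[(29,0)]⟩⟩ ⟨true,0,⟨0,[(44,0)]⟩,⟨1,[(32,0),(0,0)]⟩⟩ ⟨false,1,⟨11,
  [(0,5),(21,0),(6,9),(12,0),(4,0),(0,2)]⟩,⟨0,[(1,0),(14,0)]⟩⟩]⟩) (.R ⟨0,false,false,false,[0,0,1],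
  [1,0,-1],[1],(⟨0,[(35,0)]⟩,⟨0,[(34,0)]⟩),(⟨0,[(34,0)]⟩,⟨0,[(35,0)]⟩),⟨0,[(24,0)]⟩,.k,.k,.k,.k,.k,
  .k,⟨false,0,⟨11,[(0,1),(2,1),(2,1),(2,0),(6,5),(12,5),(17,0)]⟩,⟨2,[(1,0),(15,0),(0,0),(1,0),(4,0),
  (0,1),(4,0),(16,0)]⟩⟩,⟨true,0,⟨0,[(22,0)]⟩,⟨0,[(1,0)]⟩⟩,⟨false,1,⟨1,[(18,0),(12,0),(0,0),(15,1)]⟩,
  ⟨0,[(16,0)]⟩⟩,⟨true,1,⟨0,[(5,0),(20,0),(4,0),(16,0)]⟩,⟨0,[(0,0)]⟩⟩,⟨false,0,⟨0,[]⟩,⟨0,[]⟩⟩,⟨false,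
  0,⟨0,[]⟩,⟨0,[]⟩⟩,[.o ⟨false,1,⟨1,[(25,0),(0,0),(4,1),(16,0)]⟩,⟨18,[(0,8),(29,0),(11,1),(5,4)]⟩⟩,
  .o ⟨false,1,⟨0,[(31,0),(16,0)]⟩,⟨6,[(0,1),(29,2),(11,0),(7,1)]⟩⟩,.a ⟨true,0,⟨0,[(19,0)]⟩,⟨1,[(22,
  0),(11,0),(0,0)]⟩⟩ ⟨true,0,⟨0,[]⟩,⟨0,[(50,0)]⟩⟩ ⟨false,1,⟨1,[(5,0),(16,0),(3,0),(4,0),(16,1)]⟩,⟨3,
  [(0,1),(0,1),(45,0),(0,0)]⟩⟩,.e ⟨false,1,⟨1,[(47,0),(0,0)]⟩,⟨1,[(32,0),(0,0)]⟩⟩ ⟨false,1,⟨2,[(5,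
  0),(3,0),(10,1),(1,0),(3,0),(2,0),(18,1)]⟩,⟨2,[(0,0),(0,1),(28,0),(2,0),(14,0)]⟩⟩]⟩))

theorem ok47 : chk K t47 l36 = true := by decide +kernel

noncomputable def t48 : Tre :=
  (.Q [0,0,0,0,0,0,0,0,1,-2,0,1] (.p true [-1,1,0,0,1] [1] (⟨0,[(0,0)]⟩,⟨0,[(27,0),(11,0)]⟩) (.r 0
  ⟨0,[(43,0),(6,0)]⟩ ⟨61,[(9,20),(7,19),(8,19),(15,3),(4,9),(0,2),(1,5)]⟩) 1 (⟨0,[]⟩,⟨0,[]⟩) .k .k)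
  (.Q [0,1,1,0,0,0,-1,-2,0,0,-1] (.p false [0,0,1] [] (⟨0,[(36,0)]⟩,⟨0,[(35,0)]⟩) .k 0 (⟨0,[]⟩,⟨0,
  []⟩) .k .k) (.Q [0,1,0,0,0,0,-2,-2,0,0,-2] (.p false [0,0,1] [0,1,-1] (⟨0,[(37,0)]⟩,⟨0,[(36,0)]⟩)
  .k 2 (⟨0,[(26,0)]⟩,⟨0,[(37,0),(3,0)]⟩) .k (.r 0 ⟨0,[(18,1)]⟩ ⟨2,[(0,1),(19,1),(13,1),(14,0),(0,
  1)]⟩)) (.Q [0,0,0,0,0,0,0,0,0,1,-2] (.ed true [0,0,2] (.r 0 ⟨0,[(19,1)]⟩ ⟨2,[(1,1),(19,1),(13,1),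
  (14,0),(0,1)]⟩)) (.R ⟨0,false,false,false,[0,0,1],[0,0,2],[1],(⟨0,[(39,0)]⟩,⟨0,[(38,0)]⟩),(⟨0,
  [(39,1)]⟩,⟨0,[(0,0)]⟩),⟨0,[(28,0)]⟩,.k,.k,.k,.k,.k,.k,⟨false,1,⟨5,[(2,1),(19,7),(13,1),(14,0),(0,
  4)]⟩,⟨0,[(20,1)]⟩⟩,⟨true,0,⟨0,[(23,0)]⟩,⟨0,[(37,0)]⟩⟩,⟨false,1,⟨5,[(2,1),(19,1),(13,1),(14,0),(0,
  4)]⟩,⟨0,[(20,0)]⟩⟩,⟨true,0,⟨0,[(25,0)]⟩,⟨0,[(35,0)]⟩⟩,⟨false,0,⟨0,[]⟩,⟨0,[]⟩⟩,⟨false,0,⟨0,[]⟩,⟨0,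
  []⟩⟩,[.o ⟨false,0,⟨1,[(3,0),(7,0),(13,2)]⟩,⟨13,[(1,3),(0,9),(23,4),(19,0),(4,4),(0,6)]⟩⟩,.o
  ⟨false,1,⟨4,[(25,8),(8,0),(11,0),(5,2)]⟩,⟨0,[(1,0)]⟩⟩,.e ⟨true,0,⟨0,[]⟩,⟨6,[(2,0),(31,1),(2,0),(7,
  1)]⟩⟩ ⟨true,0,⟨0,[(20,0),(4,0)]⟩,⟨0,[(1,0),(21,0)]⟩⟩,.a ⟨true,0,⟨0,[(36,0)]⟩,⟨0,[(33,0)]⟩⟩ ⟨false,
  1,⟨1,[(51,0),(0,0)]⟩,⟨1,[(36,0),(0,0)]⟩⟩ ⟨true,0,⟨1,[(5,0),(4,0),(0,0),(13,2)]⟩,⟨0,[(2,0)]⟩⟩]⟩)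
  (.I [0,0,0,0,0,1,1] (.C [(0,1),(0,0),(4,0),(34,1),(12,0)]) (.C [(0,0),(4,0),(3,0),(14,0)]))) (.Q
  [0,0,0,0,0,0,0,0,0,1,-2] (.ed true [0,0,2] (.r 0 ⟨0,[(19,1)]⟩ ⟨2,[(1,1),(19,1),(13,1),(14,0),(0,
  1)]⟩)) (.R ⟨0,false,false,false,[1,0,-2],[1,0,-1],[0,0,1],(⟨0,[(0,0)]⟩,⟨0,[(39,1)]⟩),(⟨0,[(38,
  0)]⟩,⟨0,[(39,0)]⟩),⟨0,[(27,0),(11,0)]⟩,.k,.k,(.x 0 ⟨1,[(26,0),(0,0),(9,1),(1,2),(4,0)]⟩ ⟨37,[(0,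
  37),(12,4),(1,9),(6,9),(0,65),(16,5),(2,31),(2,11),(4,8)]⟩),.k,.k,.k,⟨false,0,⟨0,[(20,0)]⟩,⟨2,[(2,
  0),(19,0),(13,0),(14,1),(0,0)]⟩⟩,⟨true,0,⟨0,[(23,0)]⟩,⟨0,[(37,0)]⟩⟩,⟨false,0,⟨0,[(1,0),(3,0),(21,
  0),(0,0),(11,1),(12,1)]⟩,⟨5,[(2,1),(19,7),(13,1),(14,0),(0,4)]⟩⟩,⟨true,0,⟨0,[(25,0)]⟩,⟨0,[(35,
  0)]⟩⟩,⟨false,0,⟨0,[]⟩,⟨0,[]⟩⟩,⟨false,0,⟨0,[]⟩,⟨0,[]⟩⟩,[.o ⟨false,1,⟨19,[(2,9),(23,4),(2,7),(0,7),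
  (15,0),(4,4),(0,4)]⟩,⟨8,[(1,1),(1,2),(3,2),(26,1),(14,2)]⟩⟩,.o ⟨false,1,⟨19,[(2,9),(2,3),(20,0),
  (19,0),(4,2),(0,14)]⟩,⟨4,[(3,1),(3,0),(4,0),(21,3),(14,0)]⟩⟩,.a ⟨true,0,⟨0,[(26,0)]⟩,⟨0,[(23,
  1)]⟩⟩ ⟨true,0,⟨1,[(36,0),(0,0)]⟩,⟨0,[(48,0)]⟩⟩ ⟨false,1,⟨0,[(22,0),(13,0),(15,0)]⟩,⟨7,[(3,0),(1,
  2),(1,0),(12,6),(16,2),(11,0)]⟩⟩,.o ⟨false,0,⟨0,[(5,0),(21,0),(0,0),(11,1),(12,1)]⟩,⟨4,[(23,8),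
  (12,0),(9,0),(4,2)]⟩⟩]⟩) (.I [0,0,0,0,0,1,1] (.C [(0,1),(0,0),(4,0),(34,1),(12,0)]) (.C [(0,0),(4,
  0),(3,0),(14,0)])))) (.Q [0,0,0,0,0,0,0,0,0,1,-2] (.ed true [0,0,2] (.r 0 ⟨0,[(18,1)]⟩ ⟨0,[(20,0),
  (12,0),(0,0),(15,0)]⟩)) (.R ⟨0,false,false,false,[0,0,1],[0,0,2],[1],(⟨0,[(38,0)]⟩,⟨0,[(37,0)]⟩),
  (⟨0,[(38,1)]⟩,⟨0,[(0,0)]⟩),⟨0,[(27,0)]⟩,.k,.k,.k,.k,.k,.k,⟨false,1,⟨1,[(21,2),(12,0),(0,0),(15,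
  1)]⟩,⟨0,[(19,1)]⟩⟩,⟨true,0,⟨0,[(22,0)]⟩,⟨0,[(36,0)]⟩⟩,⟨false,1,⟨1,[(21,0),(12,0),(0,0),(15,1)]⟩,
  ⟨0,[(19,0)]⟩⟩,⟨true,0,⟨0,[(24,0)]⟩,⟨0,[(34,0)]⟩⟩,⟨false,0,⟨0,[]⟩,⟨0,[]⟩⟩,⟨false,0,⟨0,[]⟩,⟨0,[]⟩⟩,
  [.o ⟨false,0,⟨1,[(1,0),(0,0),(7,0),(22,0),(1,0)]⟩,⟨0,[(34,1),(16,0)]⟩⟩,.e ⟨false,1,⟨1,[(50,0),(0,
  0)]⟩,⟨0,[(53,0)]⟩⟩ ⟨false,0,⟨0,[(1,0)]⟩,⟨1,[(21,0),(6,0),(0,0),(4,2),(0,0),(15,0)]⟩⟩,.a ⟨true,0,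
  ⟨0,[(22,0)]⟩,⟨1,[(25,0),(11,0),(0,0)]⟩⟩ ⟨true,0,⟨0,[]⟩,⟨0,[(53,0)]⟩⟩ ⟨false,0,⟨1,[(1,1),(33,0),(0,
  0)]⟩,⟨1,[(21,0),(12,2),(0,0),(15,1)]⟩⟩,.e ⟨false,1,⟨1,[(50,0),(0,0)]⟩,⟨1,[(35,0),(0,0)]⟩⟩ ⟨false,
  0,⟨0,[(1,0)]⟩,⟨0,[(34,1),(0,0),(15,0)]⟩⟩]⟩) (.I [0,0,0,0,0,1,1] (.C [(0,1),(0,0),(3,0),(34,1),(12,
  0)]) (.C [(0,0),(3,0),(3,0),(14,0)])))) (.Q [0,0,0,0,0,-2,0,0,0,2,0,-1] (.p false [-1,1,0,0,1]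
  [1] (⟨0,[(1,0)]⟩,⟨0,[(28,0),(11,0)]⟩) (.r 0 ⟨0,[(44,0),(6,0)]⟩ ⟨61,[(10,20),(7,19),(8,19),(15,3),
  (4,9),(0,2),(1,5)]⟩) 1 (⟨0,[]⟩,⟨0,[]⟩) .k .k) (.R ⟨1,false,false,false,[2,-1,0,0,-1],[1,0,0,0,-1],
  [1],(⟨3,[(0,1),(0,0),(26,0),(0,1)]⟩,⟨0,[(2,0)]⟩),(⟨0,[(29,0)]⟩,⟨0,[(30,0)]⟩),⟨0,[(0,0)]⟩,(.r (-1)
  ⟨61,[(11,20),(7,19),(8,19),(15,3),(4,9),(0,2),(1,5)]⟩ ⟨0,[(45,0),(6,0)]⟩),.k,(.x 0 ⟨1,[(1,1),(0,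
  1),(22,1),(0,1),(7,0),(0,0),(2,1),(12,1)]⟩ ⟨8,[(0,8),(7,7),(19,0),(15,1),(4,4)]⟩),.k,(.r (-1) ⟨0,
  [(11,0)]⟩ ⟨0,[(45,1),(6,1)]⟩),.k,⟨true,0,⟨0,[]⟩,⟨0,[(51,0)]⟩⟩,⟨false,1,⟨36,[(3,3),(1,7),(2,7),(2,
  3),(8,7),(23,4),(4,22)]⟩,⟨1,[(1,0),(26,0),(5,0),(0,0)]⟩⟩,⟨false,0,⟨0,[(45,0)]⟩,⟨61,[(11,20),(7,
  19),(8,19),(15,3),(4,9),(0,2),(1,5)]⟩⟩,⟨true,0,⟨2,[(13,0),(1,1),(16,0)]⟩,⟨1,[(1,0),(26,0),(18,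
  1)]⟩⟩,⟨false,0,⟨0,[(45,0),(2,0)]⟩,⟨1,[(11,0),(35,1),(2,0)]⟩⟩,⟨false,0,⟨0,[(13,0),(8,0)]⟩,⟨1,[(1,
  0),(26,0),(18,3),(2,1)]⟩⟩,[.o ⟨false,1,⟨68,[(4,4),(0,4),(13,9),(7,48),(16,0),(5,7),(1,20)]⟩,⟨0,
  [(17,0)]⟩⟩,.o ⟨false,1,⟨20,[(4,4),(0,4),(13,9),(7,0),(16,0),(5,7)]⟩,⟨0,[(17,0),(34,0)]⟩⟩,.a ⟨true,
  0,⟨1,[(1,1),(32,0),(0,0)]⟩,⟨0,[(8,0)]⟩⟩ ⟨true,0,⟨0,[]⟩,⟨0,[(52,0)]⟩⟩ ⟨false,1,⟨115,[(5,21),(2,21),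
  (2,21),(3,21),(28,9),(4,24),(0,48),(1,3)]⟩,⟨1,[(1,0),(26,0),(5,0),(0,0)]⟩⟩,.o ⟨false,0,⟨0,[(1,0),
  (23,0),(0,0),(11,1),(12,1)]⟩,⟨8,[(8,7),(19,0),(15,1),(4,4)]⟩⟩]⟩) (.I [0,0,-1,0,0,0,0,0,1] (.I [0,
  0,0,0,0,1,1] (.I [-1,0,0,1,0,0,0,-1,-1] (.I [0,0,-1,0,0,1,-1] (.I [0,0,-1,0,0,0,1,0,1] (.C [(0,0),
  (0,0),(3,0),(0,0),(36,2),(12,1)]) (.C [(0,0),(10,0),(1,0),(12,0)])) (.C [(0,0),(6,0),(17,0),(3,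
  0)])) (.C [(0,0),(2,0),(3,0),(16,0),(19,1)])) (.C [(0,0),(1,0),(5,0),(14,0),(19,0)])) (.C [(0,0),
  (6,0),(1,0),(16,0),(15,0)]))))

theorem ok48 : chk K t48 l37 = true := by decide +kernel

noncomputable def t49 : Tre :=
  (.R ⟨1,true,false,false,[1,0,0,0,-1],[1,0,-1,0,1],[1,0,1,0,0,0,0,-1],(⟨0,[(28,0)]⟩,⟨0,[(29,0)]⟩),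
  (⟨0,[(29,0),(5,0)]⟩,⟨0,[(1,0),(22,0)]⟩),⟨0,[(1,0)]⟩,.k,.k,(.r (-1) ⟨61,[(10,20),(7,19),(8,19),(15,
  3),(4,9),(0,2),(1,5)]⟩ ⟨0,[(44,0),(6,0)]⟩),.k,(.r (-1) ⟨61,[(10,20),(6,61),(0,19),(8,19),(15,3),
  (4,9),(0,2),(1,5)]⟩ ⟨0,[(21,0),(11,0)]⟩),.k,⟨true,0,⟨1,[(33,0),(0,0)]⟩,⟨0,[]⟩⟩,⟨false,0,⟨1,[(2,0),
  (4,0),(19,2)]⟩,⟨15,[(4,12),(1,4),(11,12),(0,7),(6,0),(6,7),(9,0)]⟩⟩,⟨false,1,⟨0,[(32,0),(0,0),(15,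
  0)]⟩,⟨1,[(7,0),(0,0),(8,0),(12,0)]⟩⟩,⟨true,0,⟨0,[(0,0),(45,0)]⟩,⟨0,[(8,0),(0,0)]⟩⟩,⟨true,0,⟨0,
  [(21,0),(11,0)]⟩,⟨1,[(2,0),(4,0),(0,0),(13,0),(23,1)]⟩⟩,⟨false,0,⟨0,[(0,0)]⟩,⟨0,[(4,0),(13,0),(27,
  0)]⟩⟩,[]⟩)

theorem ok49 : chk K t49 l38 = true := by decide +kernel

noncomputable def t50 : Tre :=
  (.R ⟨0,false,false,false,[1,0,-1],[0,1,0,0,1],[1],(⟨0,[(36,0)]⟩,⟨0,[(37,0)]⟩),(⟨0,[(30,0),(11,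
  0)]⟩,⟨0,[(2,0)]⟩),⟨0,[(25,0)]⟩,.k,(.r 0 ⟨5,[(0,0),(16,0),(4,2),(9,2),(1,0),(10,2)]⟩ ⟨61,[(11,20),
  (7,19),(8,19),(15,3),(4,9),(0,2),(1,5)]⟩),.k,(.r (-1) ⟨1,[(11,0),(8,0),(12,0),(0,0),(15,0)]⟩ ⟨3,
  [(13,0),(10,0),(7,2),(2,1),(9,1),(2,0)]⟩),.k,.k,⟨false,1,⟨1,[(11,0),(37,0)]⟩,⟨5,[(0,0),(16,0),(4,
  2),(9,2),(1,0),(10,2)]⟩⟩,⟨true,0,⟨0,[(8,0),(12,0)]⟩,⟨0,[(0,0)]⟩⟩,⟨true,0,⟨0,[(18,0)]⟩,⟨1,[(20,0),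
  (12,0),(0,0)]⟩⟩,⟨false,0,⟨0,[(13,0),(14,0)]⟩,⟨5,[(0,1),(6,3),(3,2),(21,1),(0,1),(15,2)]⟩⟩,⟨false,
  0,⟨0,[]⟩,⟨0,[]⟩⟩,⟨false,0,⟨0,[]⟩,⟨0,[]⟩⟩,[.o ⟨false,0,⟨0,[(17,0),(30,0)]⟩,⟨22,[(0,3),(0,3),(5,3),
  (3,5),(7,6),(14,3),(9,2),(5,3)]⟩⟩,.o ⟨false,0,⟨0,[(8,0),(36,0)]⟩,⟨0,[(27,0),(19,0)]⟩⟩,.a ⟨true,0,
  ⟨2,[(0,0),(27,0),(2,1)]⟩,⟨0,[(21,0)]⟩⟩ ⟨true,0,⟨0,[]⟩,⟨0,[(52,0)]⟩⟩ ⟨false,0,⟨0,[(8,0),(12,0),(23,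
  0)]⟩,⟨15,[(0,1),(0,0),(5,0),(3,1),(7,10),(4,6),(19,0),(5,0)]⟩⟩,.o ⟨false,0,⟨0,[(35,0)]⟩,⟨4,[(21,
  3),(12,0),(9,0),(4,2)]⟩⟩]⟩)

theorem ok50 : chk K t50 l39 = true := by decide +kernel

noncomputable def t51 : Tre :=
  (.R ⟨1,true,false,false,[1,0,0,0,-1],[0,1,-1],[-1],(⟨0,[(30,0)]⟩,⟨0,[(31,0)]⟩),(⟨0,[(27,0)]⟩,⟨0,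
  [(38,0),(3,0)]⟩),⟨0,[(3,0)]⟩,.k,.k,(.r (-1) ⟨61,[(12,20),(7,19),(8,19),(15,3),(4,9),(0,2),(1,5)]⟩
  ⟨5,[(0,0),(17,0),(4,2),(9,2),(2,0),(9,2)]⟩),(.r (-1) ⟨13,[(12,6),(6,3),(5,4),(7,9),(11,0),(5,4)]⟩
  ⟨0,[(23,0),(11,0)]⟩),(.r (-1) ⟨0,[(12,0),(6,0)]⟩ ⟨1,[(0,0),(17,0),(4,2),(9,0),(1,0),(10,0)]⟩),.k,
  ⟨false,1,⟨1,[(12,0),(6,1),(30,0)]⟩,⟨0,[(23,0),(11,0)]⟩⟩,⟨true,0,⟨0,[(1,0),(2,0),(21,0),(0,0),(11,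
  1),(12,1)]⟩,⟨0,[(0,0)]⟩⟩,⟨false,1,⟨1,[(28,0),(0,0),(21,0)]⟩,⟨0,[]⟩⟩,⟨true,0,⟨0,[(18,0),(4,0)]⟩,⟨5,
  [(0,2),(0,0),(0,1),(21,3),(7,3),(15,3)]⟩⟩,⟨true,0,⟨0,[(49,0)]⟩,⟨0,[(48,0)]⟩⟩,⟨false,0,⟨0,[(9,0),
  (13,0),(22,0)]⟩,⟨0,[(0,0),(11,0),(6,0)]⟩⟩,[]⟩)

theorem ok51 : chk K t51 l40 = true := by decide +kernel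

noncomputable def t52 : Tre :=
  (.R ⟨1,true,false,false,[1,0,0,0,-1],[0,0,1,0,1],[2,0,0,0,0,0,0,1],(⟨0,[(31,0)]⟩,⟨0,[(32,0)]⟩),
  (⟨0,[(32,0),(6,0)]⟩,⟨0,[(8,0)]⟩),⟨0,[(4,0)]⟩,.k,.k,(.r (-1) ⟨61,[(13,20),(7,19),(8,19),(15,3),(4,
  9),(0,2),(1,5)]⟩ ⟨0,[(47,0),(6,0)]⟩),.k,(.r (-1) ⟨2,[(13,0),(8,1),(12,0),(0,0),(12,0),(2,1)]⟩ ⟨3,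
  [(15,0),(10,0),(7,2),(2,1),(9,1),(2,0)]⟩),.k,⟨true,0,⟨0,[]⟩,⟨1,[(36,0),(0,0)]⟩⟩,⟨false,0,⟨2,[(2,
  1),(11,0),(15,2),(5,0)]⟩,⟨1,[(7,0),(1,0),(11,0),(4,0),(2,0)]⟩⟩,⟨true,0,⟨0,[(20,0)]⟩,⟨4,[(22,3),
  (12,0),(0,0),(16,2)]⟩⟩,⟨false,0,⟨0,[(0,0),(48,0),(2,0)]⟩,⟨0,[(6,0),(14,0)]⟩⟩,⟨false,0,⟨1,[(5,0),
  (9,0),(9,0),(21,0)]⟩,⟨5,[(13,0),(8,1),(12,3),(0,3),(12,3),(2,4)]⟩⟩,⟨true,(-1),⟨0,[(0,0)]⟩,⟨8,[(3,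
  1),(5,10),(11,2),(24,0),(2,3),(2,3)]⟩⟩,[]⟩)

theorem ok52 : chk K t52 l41 = true := by decide +kernel

noncomputable def t53 : Tre :=
  (.Q [0,0,0,0,0,0,0,0,0,1,-2] (.ed true [0,0,2] (.r 0 ⟨0,[(21,1)]⟩ ⟨2,[(0,1),(24,3),(4,0),(0,0),(5,
  3)]⟩)) (.R ⟨0,false,false,true,[0,0,1],[0,0,2],[1,1],(⟨0,[(41,0)]⟩,⟨0,[(40,0)]⟩),(⟨0,[(41,1)]⟩,⟨0,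
  [(0,0)]⟩),⟨0,[(30,0)]⟩,.k,.k,.k,.k,.k,.k,⟨false,1,⟨5,[(1,1),(22,5),(1,3),(4,0),(0,0),(5,3),(15,
  2)]⟩,⟨0,[(22,1)]⟩⟩,⟨true,0,⟨0,[(25,0)]⟩,⟨0,[(39,0)]⟩⟩,⟨true,0,⟨1,[(24,0),(12,0),(0,0)]⟩,⟨0,[(22,
  0)]⟩⟩,⟨false,0,⟨0,[(27,0)]⟩,⟨0,[(37,0),(16,0)]⟩⟩,⟨false,0,⟨0,[]⟩,⟨0,[]⟩⟩,⟨false,0,⟨0,[]⟩,⟨0,[]⟩⟩,
  [.o ⟨false,0,⟨2,[(5,0),(11,0),(3,1),(5,0),(8,2)]⟩,⟨0,[(1,0),(24,0),(12,0),(9,0)]⟩⟩,.o ⟨false,0,⟨2,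
  [(5,0),(11,0),(3,1),(5,3)]⟩,⟨0,[(37,1),(16,0)]⟩⟩,.e ⟨false,0,⟨0,[]⟩,⟨1,[(31,0),(0,0),(21,0)]⟩⟩
  ⟨false,0,⟨0,[(22,0),(4,0)]⟩,⟨1,[(1,1),(24,1),(11,0),(0,0),(9,1)]⟩⟩,.a ⟨true,0,⟨0,[(38,0)]⟩,⟨0,
  [(35,0)]⟩⟩ ⟨true,0,⟨25,[(4,4),(0,0),(1,0),(1,0),(1,1),(23,2),(11,11)]⟩,⟨1,[(38,0),(0,0)]⟩⟩ ⟨false,
  0,⟨9,[(4,2),(0,0),(1,3),(1,0),(12,4),(4,12)]⟩,⟨0,[(1,0),(24,0),(11,0),(0,0),(9,0)]⟩⟩]⟩) (.I [0,0,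
  0,0,0,1,1] (.C [(0,1),(0,0),(6,0),(34,1),(12,0)]) (.C [(0,0),(25,0),(4,0)])))

theorem ok53 : chk K t53 l42 = true := by decide +kernel

noncomputable def t54 : Tre :=
  (.Q [0,0,2,0,0,0,-1,0,-1,2,-1,-1] (.p false [-1,1,1] [1,0,0,0,-1] (⟨0,[(28,0)]⟩,⟨0,[(39,0),(4,
  0)]⟩) .k 2 (⟨0,[(32,0)]⟩,⟨0,[(33,0)]⟩) .k (.r 0 ⟨0,[(21,0)]⟩ ⟨1,[(23,0),(6,0),(0,0),(4,0),(0,0),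
  (15,0)]⟩)) (.Q [0,0,-1,0,0,0,1,0,1,-2,1,1] (.p true [-1,1,1] [1,0,0,0,-1] (⟨0,[(29,0)]⟩,⟨0,[(40,
  0),(4,0)]⟩) .k 2 (⟨0,[(33,0)]⟩,⟨0,[(34,0)]⟩) .k (.r 0 ⟨0,[(22,0)]⟩ ⟨1,[(24,0),(6,0),(0,0),(4,0),
  (0,0),(15,0)]⟩)) (.Q [1,0,0,2,-1,0,1,1,1,-2,1,1] (.p true [-1,1,1] [1,0,0,0,-1] (⟨0,[(30,0)]⟩,⟨0,
  [(41,0),(4,0)]⟩) .k 2 (⟨0,[(34,0)]⟩,⟨0,[(35,0)]⟩) .k (.r 0 ⟨0,[(23,0)]⟩ ⟨1,[(25,0),(6,0),(0,0),(4,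
  0),(0,0),(15,0)]⟩)) (.R ⟨1,true,false,false,[1,0,0,0,-1],[-1,1,1],[0,0,1],(⟨0,[(35,0)]⟩,⟨0,[(36,
  0)]⟩),(⟨0,[(31,0)]⟩,⟨0,[(42,0),(4,0)]⟩),⟨0,[(8,0)]⟩,.k,.k,(.r (-1) ⟨61,[(17,20),(7,19),(8,19),(15,
  3),(4,9),(0,2),(1,5)]⟩ ⟨2,[(3,0),(24,0),(4,0),(0,0),(5,0)]⟩),(.r (-1) ⟨1,[(17,0),(8,0),(12,0),(0,
  0),(15,0)]⟩ ⟨63,[(2,5),(0,31),(26,12),(3,5),(3,31),(11,4),(4,5),(0,15)]⟩),(.r (-2) ⟨17,[(17,12),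
  (7,9),(0,13),(7,9),(4,3),(0,3),(9,1),(5,8)]⟩ ⟨0,[(3,0)]⟩),.k,⟨false,1,⟨1,[(17,0),(8,0),(12,0),(0,
  0),(15,0)]⟩,⟨1,[(3,0),(20,0),(30,0)]⟩⟩,⟨true,0,⟨0,[(1,0)]⟩,⟨0,[(2,0)]⟩⟩,⟨true,0,⟨1,[(40,0),(0,
  0)]⟩,⟨0,[(52,0)]⟩⟩,⟨false,0,⟨0,[(19,0),(3,0)]⟩,⟨1,[(2,1),(14,0),(8,1),(29,0)]⟩⟩,⟨false,0,⟨0,[(51,
  0)]⟩,⟨27,[(17,8),(7,9),(8,9),(15,1),(4,4)]⟩⟩,⟨true,(-1),⟨0,[(0,0)]⟩,⟨4,[(2,3),(1,1),(12,2),(8,2),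
  (7,2),(5,0),(12,1)]⟩⟩,[]⟩) (.I [1,0,-2,-2,1,0,0,-1] (.N [0,2,1] 1 ⟨0,[(4,0)]⟩ ⟨0,[(0,0)]⟩ (.x
  (-1) ⟨62,[(0,7),(4,1),(1,36),(0,4),(3,22),(14,17),(15,62),(1,20),(2,104),(2,21),(4,8)]⟩ ⟨0,[(3,0),
  (20,0),(7,0),(16,0)]⟩)) (.I [0,0,0,0,0,1,1] (.I [0,0,-1,0,0,1,-1] (.C [(0,0),(0,0),(0,0),(0,0),(0,
  0),(42,1)]) (.C [(0,0),(11,0),(17,0),(3,0)])) (.C [(0,0),(28,0),(4,0)])))) (.I [-1,0,-1,-1,1,0,0,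
  -2] (.Q [0,0,-1,0,0,0,2,0,1,-2,2,1] (.p true [-1,1,1] [1,0,-1,0,-1] (⟨0,[(31,0)]⟩,⟨0,[(42,0),(4,
  0)]⟩) .k 2 (⟨0,[(12,0)]⟩,⟨0,[(36,0),(6,0)]⟩) .k (.r 0 ⟨0,[(24,1)]⟩ ⟨2,[(0,1),(27,1),(4,0),(0,0),
  (5,1)]⟩)) (.Q [0,0,0,0,0,-2,0,0,0,2,-1] (.p false [-1,1,1] [1] (⟨0,[(32,0)]⟩,⟨0,[(43,0),(4,0)]⟩)
  .k 1 (⟨0,[]⟩,⟨0,[]⟩) .k .k) (.R ⟨1,true,false,false,[2,-1,-1],[0,0,1,0,1],[0,1,-1,-1,0,0,0,-1],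
  (⟨5,[(0,2),(2,1),(4,0),(20,0),(6,0),(7,2)]⟩,⟨0,[(33,0)]⟩),(⟨0,[(38,0),(6,0)]⟩,⟨0,[(14,0)]⟩),⟨0,
  [(0,0)]⟩,.k,.k,(.x 0 ⟨0,[(4,0),(20,0),(7,0),(16,0)]⟩ ⟨70,[(0,70),(0,7),(0,8),(5,27),(0,8),(3,17),
  (14,8),(23,15),(4,29)]⟩),(.r (-1) ⟨0,[(2,0)]⟩ ⟨13,[(5,6),(20,10),(5,4),(7,9),(11,0),(5,4)]⟩),(.r
  (-2) ⟨27,[(2,27),(16,8),(7,9),(8,9),(15,1),(4,4)]⟩ ⟨0,[(5,0),(20,0)]⟩),.k,⟨false,1,⟨7,[(2,5),(16,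
  0),(8,3),(22,1),(5,0)]⟩,⟨1,[(5,0),(20,2),(31,0)]⟩⟩,⟨true,0,⟨0,[(1,0)]⟩,⟨0,[(3,0),(39,0)]⟩⟩,⟨true,
  0,⟨0,[(60,0)]⟩,⟨0,[]⟩⟩,⟨false,0,⟨0,[(21,0),(3,0),(5,0)]⟩,⟨1,[(2,1),(0,1),(7,0),(21,0),(0,0),(11,
  1),(12,0)]⟩⟩,⟨false,0,⟨0,[(56,0)]⟩,⟨0,[(55,0),(2,0)]⟩⟩,⟨true,(-1),⟨13,[(1,7),(3,13),(1,0),(0,8),
  (0,1),(11,1),(4,9)]⟩,⟨2,[(2,2),(0,2),(7,0),(21,0),(0,0),(8,0),(2,1),(8,2)]⟩⟩,[]⟩) (.I [0,0,0,0,0,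
  1,1] (.I [0,0,-1,0,0,1,-1] (.I [-6,0,0,0,0,0,0,0,1] (.C [(0,0),(0,0),(0,1),(0,0),(2,0),(34,0),(7,
  4)]) (.C [(0,0),(3,0),(1,0),(3,0),(2,0),(36,0),(11,1)])) (.C [(0,0),(1,0),(0,0),(1,1),(3,0),(2,0),
  (27,0)])) (.C [(0,0),(1,0),(1,0),(30,0)]))) (.I [-1,0,2,2,-1,0,0,1] (.Q [1,-1,0,-1,1,0,-1,-1,1,1,
  -1,1] (.p true [1,0,-1,0,1] [] (⟨0,[(38,0),(5,0)]⟩,⟨0,[(10,0),(22,0)]⟩) .k 0 (⟨0,[]⟩,⟨0,[]⟩) .k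
  (.r (-1) ⟨2,[(2,0),(27,0),(4,1),(0,1),(5,0)]⟩ ⟨0,[(1,1),(5,3),(1,0),(19,6),(23,0),(5,4)]⟩)) (.Q
  [0,0,0,0,0,-2,0,0,0,2,-1] (.p false [-1,1,1] [1] (⟨0,[(34,0)]⟩,⟨0,[(45,0),(4,0)]⟩) .k 1 (⟨0,[]⟩,
  ⟨0,[]⟩) .k .k) (.R ⟨1,true,false,true,[2,-1,-1],[1,0,0,0,-1],[-1,1,1],(⟨5,[(0,2),(4,1),(4,0),(20,
  0),(6,0),(7,2)]⟩,⟨0,[(35,0)]⟩),(⟨0,[(39,0)]⟩,⟨0,[(40,0)]⟩),⟨0,[(0,0)]⟩,.k,.k,(.r (-2) ⟨55,[(1,14),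
  (2,27),(16,26),(7,14),(12,14),(11,5),(4,14)]⟩ ⟨0,[(2,0)]⟩),(.r (-1) ⟨55,[(1,4),(2,27),(16,8),(7,
  4),(12,4),(11,1),(4,4)]⟩ ⟨25,[(1,1),(0,10),(0,1),(3,2),(26,3),(7,13),(11,1),(4,1),(0,5)]⟩),(.r
  (-2) ⟨55,[(1,14),(2,27),(16,26),(7,14),(12,14),(11,5),(4,14)]⟩ ⟨0,[(2,0)]⟩),.k,⟨true,0,⟨1,[(44,0),
  (0,0)]⟩,⟨0,[]⟩⟩,⟨false,1,⟨17,[(4,4),(5,2),(0,4),(3,9),(14,4),(6,0),(16,0),(4,9)]⟩,⟨4,[(6,1),(27,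
  0),(3,6),(6,0)]⟩⟩,⟨true,(-1),⟨0,[(2,0),(54,0)]⟩,⟨13,[(4,5),(3,1),(1,3),(10,2),(19,1),(17,2)]⟩⟩,
  ⟨false,0,⟨43,[(7,4),(7,33),(4,8),(9,4),(6,0),(4,9),(10,4),(0,1)]⟩,⟨0,[(1,0)]⟩⟩,⟨false,(-1),⟨0,[(2,
  0)]⟩,⟨55,[(1,4),(2,27),(16,36),(7,4),(12,4),(11,1),(4,4),(0,27)]⟩⟩,⟨true,(-1),⟨13,[(7,13),(2,11),
  (0,8),(2,6),(0,0),(9,0),(4,1),(22,1)]⟩,⟨0,[(1,0),(55,0)]⟩⟩,[]⟩) (.I [0,0,0,0,0,1,1] (.I [0,0,-1,0,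
  0,1,-1] (.I [-6,0,0,0,0,0,0,0,1] (.C [(0,0),(0,0),(0,1),(0,0),(2,0),(27,0),(8,0),(7,4)]) (.C [(0,
  0),(11,0),(2,0),(18,0),(17,0),(11,1)])) (.C [(0,0),(1,0),(2,0),(5,0),(2,0),(18,1),(8,0)])) (.C
  [(0,0),(31,0),(4,0)]))) (.Q [0,0,0,0,0,0,0,0,0,1,-2] (.ed true [0,0,2] (.r 0 ⟨0,[(27,1)]⟩ ⟨2,[(3,
  1),(27,1),(4,0),(0,0),(5,1)]⟩)) (.R ⟨0,false,false,true,[0,0,1],[0,0,2],[1,1],(⟨0,[(47,0)]⟩,⟨0,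
  [(46,0)]⟩),(⟨0,[(47,1)]⟩,⟨0,[(0,0)]⟩),⟨0,[(36,0)]⟩,.k,.k,.k,.k,.k,.k,⟨false,1,⟨0,[(4,0),(53,0)]⟩,
  ⟨0,[(28,1)]⟩⟩,⟨true,0,⟨0,[(31,0)]⟩,⟨0,[(45,0)]⟩⟩,⟨true,0,⟨1,[(30,0),(12,0),(0,0)]⟩,⟨0,[(28,0)]⟩⟩,
  ⟨false,0,⟨0,[(33,0)]⟩,⟨59,[(4,19),(1,5),(25,19),(1,12),(3,5),(6,7),(8,4),(5,29)]⟩⟩,⟨false,0,⟨0,
  []⟩,⟨0,[]⟩⟩,⟨false,0,⟨0,[]⟩,⟨0,[]⟩⟩,[.o ⟨false,0,⟨12,[(1,1),(9,1),(10,0),(4,4),(5,12),(8,8),(11,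
  0)]⟩,⟨1,[(3,0),(0,1),(4,0),(25,0),(0,0),(8,0),(2,1),(6,1)]⟩⟩,.o ⟨false,0,⟨2,[(11,0),(11,0),(3,1),
  (5,3)]⟩,⟨29,[(4,19),(1,5),(25,19),(1,12),(3,5),(6,7),(8,4)]⟩⟩,.e ⟨false,0,⟨0,[]⟩,⟨1,[(37,0),(0,0),
  (21,0)]⟩⟩ ⟨false,0,⟨0,[(28,0),(4,0)]⟩,⟨3,[(3,0),(0,3),(4,0),(25,0),(0,0),(8,0),(2,1),(6,3)]⟩⟩,.a
  ⟨true,0,⟨0,[(44,0)]⟩,⟨0,[(41,0)]⟩⟩ ⟨true,0,⟨23,[(1,0),(8,2),(0,0),(1,0),(16,1),(10,2),(11,9),(5,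
  0)]⟩,⟨1,[(44,0),(0,0)]⟩⟩ ⟨false,0,⟨9,[(10,2),(0,0),(1,3),(1,0),(12,4),(4,12)]⟩,⟨0,[(4,0),(40,0),
  (9,0)]⟩⟩]⟩) (.I [0,0,0,0,0,1,1] (.C [(0,1),(0,0),(2,0),(5,0),(21,0),(16,1),(12,0)]) (.C [(0,0),
  (31,0),(4,0)])))) (.I [1,0,-2,-2,1,0,0,-1] (.N [0,2,1] 1 ⟨0,[(6,0)]⟩ ⟨0,[(0,0)]⟩ (.x (-1) ⟨46,[(3,
  1),(3,5),(1,34),(0,4),(3,12),(14,7),(15,46),(1,18),(2,74),(2,15),(4,6)]⟩ ⟨0,[(5,0),(20,0),(7,0),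
  (16,0)]⟩)) (.N [0,2,1,0,-1] 1 ⟨0,[(0,0)]⟩ ⟨0,[(1,0)]⟩ (.x (-1) ⟨75,[(7,27),(0,0),(0,48),(0,13),(3,
  41),(14,27),(9,75),(5,75),(1,73),(2,77),(2,17),(4,11)]⟩ ⟨0,[(5,0),(15,0),(4,0),(7,0),(3,0),(12,
  0)]⟩))))) (.I [1,0,1,1,-1,0,0,2] (.I [0,0,1,1,-1,0,0,2] (.Q [0,0,-1,0,0,0,2,0,1,-2,2,1] (.p true
  [-1,1,1] [1,0,-1,0,-1] (⟨0,[(33,0)]⟩,⟨0,[(44,0),(4,0)]⟩) .k 2 (⟨0,[(14,0)]⟩,⟨0,[(38,0),(6,0)]⟩)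
  .k (.r 0 ⟨0,[(26,1)]⟩ ⟨0,[(28,0),(12,0),(0,0),(15,0)]⟩)) (.Q [1,-1,0,2,-1,0,2,2,1,-2,2,1] (.p
  true [-1,1,1] [1,0,-1,0,-1] (⟨0,[(34,0)]⟩,⟨0,[(45,0),(4,0)]⟩) .k 2 (⟨0,[(15,0)]⟩,⟨0,[(39,0),(6,
  0)]⟩) .k (.r 0 ⟨0,[(27,1)]⟩ ⟨0,[(29,0),(12,0),(0,0),(15,0)]⟩)) (.Q [0,0,0,0,0,-2,0,0,0,2,-1] (.p
  false [-1,1,1] [1] (⟨0,[(35,0)]⟩,⟨0,[(46,0),(4,0)]⟩) .k 1 (⟨0,[]⟩,⟨0,[]⟩) .k .k) (.R ⟨1,true,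
  false,false,[2,-1,-1],[0,0,1,0,1],[0,0,-1,-1,0,0,0,-1],(⟨5,[(0,2),(5,1),(4,0),(20,0),(6,0),(7,
  2)]⟩,⟨0,[(36,0)]⟩),(⟨0,[(41,0),(6,0)]⟩,⟨0,[(17,0)]⟩),⟨0,[(0,0)]⟩,.k,.k,(.r (-2) ⟨17,[(22,12),(7,
  9),(0,13),(7,9),(4,3),(0,3),(9,1),(5,8)]⟩ ⟨0,[(2,3),(0,0),(2,4),(3,1),(4,0),(46,3)]⟩),(.r (-2)
  ⟨17,[(22,3),(7,9),(0,22),(7,9),(4,12),(0,12),(9,1),(5,17)]⟩ ⟨0,[(4,0)]⟩),(.r (-2) ⟨0,[(22,0),(8,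
  0),(12,0),(0,0),(15,0)]⟩ ⟨30,[(3,13),(4,23),(26,4),(7,9),(11,0),(5,4)]⟩),.k,⟨false,2,⟨8,[(22,1),
  (7,4),(0,15),(7,4),(4,1),(0,1),(9,0),(5,8)]⟩,⟨0,[(5,0)]⟩⟩,⟨true,0,⟨0,[(2,0)]⟩,⟨0,[(6,0),(39,0)]⟩⟩,
  ⟨false,1,⟨1,[(38,0),(0,0),(21,0)]⟩,⟨0,[]⟩⟩,⟨true,(-1),⟨0,[(1,0),(56,0)]⟩,⟨0,[(9,0),(8,0),(20,
  1)]⟩⟩,⟨true,0,⟨0,[(59,0)]⟩,⟨0,[(58,0)]⟩⟩,⟨false,(-1),⟨0,[(1,0)]⟩,⟨0,[(9,1),(29,2)]⟩⟩,[]⟩) (.I [0,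
  0,0,0,0,1,1] (.I [0,0,-1,0,0,1,-1] (.I [-6,0,0,0,0,0,0,0,1] (.C [(0,0),(0,0),(0,1),(0,0),(5,0),
  (34,0),(7,4)]) (.C [(0,0),(4,0),(3,0),(3,0),(2,0),(36,0),(11,1)])) (.C [(0,0),(1,0),(1,0),(3,1),
  (3,0),(2,0),(27,0)])) (.C [(0,0),(2,0),(3,0),(30,0)]))) (.I [0,0,0,0,0,1,1] (.I [0,0,-1,0,0,1,-1]
  (.C [(0,0),(0,0),(0,0),(0,0),(0,0),(45,1),(6,0)]) (.C [(0,0),(2,0),(3,1),(3,0),(25,0)])) (.C [(0,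
  0),(1,0),(3,0),(30,0)]))) (.Q [0,0,0,-1,1,0,-2,-2,0,2,-2] (.p false [0,0,1] [2,-1,-1] (⟨0,[(46,
  0)]⟩,⟨0,[(45,0)]⟩) .k 2 (⟨0,[(45,0),(4,0)]⟩,⟨0,[(34,0)]⟩) .k (.r 0 ⟨0,[(27,1)]⟩ ⟨0,[(29,0),(12,0),
  (0,0),(15,0)]⟩)) (.Q [0,0,0,0,0,-2,0,0,0,2,-1] (.p false [-1,1,1] [1] (⟨0,[(35,0)]⟩,⟨0,[(46,0),(4,
  0)]⟩) .k 1 (⟨0,[]⟩,⟨0,[]⟩) .k .k) (.R ⟨1,true,false,false,[2,-1,-1],[0,0,1],[0,0,1,0,0,0,0,1],(⟨5,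
  [(0,2),(5,1),(4,0),(20,0),(6,0),(7,2)]⟩,⟨0,[(36,0)]⟩),(⟨0,[(48,0)]⟩,⟨0,[(47,0)]⟩),⟨0,[(0,0)]⟩,.k,
  .k,(.r (-2) ⟨9,[(1,4),(9,6),(10,3),(7,6),(1,0),(12,1),(9,1)]⟩ ⟨0,[(2,0),(0,0),(6,1),(4,0),(16,4),
  (29,3)]⟩),(.r (-2) ⟨103,[(1,95),(7,1),(1,44),(18,5),(0,13),(0,148),(5,34),(16,30),(5,6)]⟩ ⟨0,[(3,
  0)]⟩),(.r (-2) ⟨10,[(1,7),(7,5),(1,11),(10,3),(22,9),(9,1)]⟩ ⟨30,[(3,13),(4,23),(26,4),(7,9),(11,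
  0),(5,4)]⟩),.k,⟨true,0,⟨1,[(45,0),(0,0)]⟩,⟨0,[]⟩⟩,⟨false,1,⟨19,[(9,1),(1,18),(0,0),(3,2),(14,1),
  (0,18),(5,9),(16,3)]⟩,⟨0,[(1,0),(1,0)]⟩⟩,⟨true,(-1),⟨1,[(3,1),(41,0),(0,0)]⟩,⟨10,[(1,3),(7,2),(1,
  5),(10,1),(8,10),(13,4),(9,0)]⟩⟩,⟨false,0,⟨2,[(12,0),(11,3),(3,1),(5,0)]⟩,⟨0,[(1,0)]⟩⟩,⟨false,
  (-1),⟨0,[(3,0),(52,0)]⟩,⟨10,[(1,7),(7,5),(1,11),(10,3),(22,9),(9,1)]⟩⟩,⟨true,(-1),⟨1,[(8,1),(2,1),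
  (0,0),(3,0),(11,0)]⟩,⟨0,[(1,0),(56,0)]⟩⟩,[]⟩) (.I [0,0,0,0,0,1,1] (.I [0,0,-1,0,0,1,-1] (.I [-6,0,
  0,0,0,0,0,0,1] (.C [(0,0),(0,0),(0,1),(0,0),(1,0),(29,0),(8,0),(7,4)]) (.C [(0,0),(12,0),(2,0),
  (18,0),(17,0),(11,1)])) (.C [(0,0),(1,0),(5,0),(3,0),(2,0),(18,0),(8,0)])) (.C [(0,0),(32,0),(4,
  0)]))) (.Q [1,0,0,-1,1,0,-2,-2,1,2,-2,1] (.p false [-1,1,1] [1,0,-1,0,1] (⟨0,[(35,0)]⟩,⟨0,[(46,0),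
  (4,0)]⟩) .k 2 (⟨0,[(40,0),(5,0)]⟩,⟨0,[(12,0),(22,0)]⟩) .k (.r 0 ⟨0,[(28,1)]⟩ ⟨0,[(30,0),(12,0),(0,
  0),(15,0)]⟩)) (.Q [0,0,0,0,0,-2,0,0,0,2,-1] (.p false [-1,1,1] [1] (⟨0,[(36,0)]⟩,⟨0,[(47,0),(4,
  0)]⟩) .k 1 (⟨0,[]⟩,⟨0,[]⟩) .k .k) (.R ⟨1,true,false,false,[2,-1,-1],[0,0,1,0,-1],[0,0,0,0,0,0,0,
  1],(⟨5,[(0,2),(6,1),(4,0),(20,0),(6,0),(7,2)]⟩,⟨0,[(37,0)]⟩),(⟨0,[(14,0),(22,0)]⟩,⟨0,[(42,0),(5,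
  0)]⟩),⟨0,[(0,0)]⟩,.k,.k,(.r (-2) ⟨6,[(1,2),(8,0),(1,1),(10,4),(9,4),(5,2),(16,0)]⟩ ⟨0,[(2,0),(0,
  2),(7,3),(4,0),(16,8),(29,6)]⟩),(.r (-2) ⟨63,[(1,41),(8,21),(1,20),(19,21),(0,84),(5,18),(16,16),
  (5,10)]⟩ ⟨0,[(2,0),(0,1),(7,1),(21,3),(29,2)]⟩),(.r (-2) ⟨14,[(1,7),(8,11),(1,15),(10,5),(3,1),
  (18,13),(9,1)]⟩ ⟨0,[(2,1),(0,5),(6,0),(0,8),(4,0),(16,18),(29,13)]⟩),.k,⟨true,0,⟨0,[]⟩,⟨1,[(46,0),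
  (0,0)]⟩⟩,⟨false,1,⟨39,[(10,13),(1,32),(0,6),(3,20),(14,13),(0,32),(5,9),(16,7)]⟩,⟨0,[(1,0),(2,
  0)]⟩⟩,⟨true,(-1),⟨0,[(4,0)]⟩,⟨59,[(1,15),(8,8),(1,1),(10,26),(3,18),(4,59),(13,57),(9,3)]⟩⟩,
  ⟨false,0,⟨55,[(2,26),(10,8),(3,37),(26,10),(11,3),(5,18)]⟩,⟨0,[(1,0)]⟩⟩,⟨false,(-1),⟨2,[(2,0),(1,
  1),(38,1),(13,2)]⟩,⟨59,[(1,31),(8,32),(1,33),(10,38),(3,22),(18,85),(9,7)]⟩⟩,⟨true,(-1),⟨10,[(2,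
  8),(6,1),(2,0),(3,2),(0,5),(10,2),(3,0),(22,0)]⟩,⟨0,[(1,0),(57,0)]⟩⟩,[]⟩) (.I [0,0,0,0,0,1,1] (.I
  [0,0,-1,0,0,1,-1] (.I [0,0,-2,1,-1,0,0,2] (.I [-6,0,0,0,0,0,0,0,1] (.C [(0,0),(1,0),(0,1),(0,0),
  (2,0),(29,0),(8,0),(7,4)]) (.C [(0,0),(14,0),(2,0),(18,0),(17,0),(11,1)])) (.C [(0,0),(4,0),(4,1),
  (3,1),(21,1)])) (.C [(0,0),(1,0),(2,0),(7,0),(2,0),(18,1),(8,0)])) (.C [(0,0),(33,0),(4,0)])))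
  (.I [2,0,2,2,-1] (.I [0,0,2,0,0,2,0,0,-1] (.N [0,2,0,0,1] 1 ⟨0,[(1,0)]⟩ ⟨0,[(24,0)]⟩ (.x (-1) ⟨6,
  [(12,1),(0,1),(1,6),(25,2),(12,6),(2,1),(4,2)]⟩ ⟨0,[(0,0)]⟩)) (.I [0,0,0,0,0,1,1] (.C [(0,1),(0,
  0),(3,0),(33,1),(4,0),(7,1),(12,0)]) (.C [(0,0),(34,0),(4,0)]))) (.I [-2,0,-2,-2,1] (.Q [2,0,0,2,
  -1,0,0,0,2,-1,0,2] (.p true [0,0,0,0,1] [1,0,0,0,-1] (⟨0,[(43,0)]⟩,⟨0,[(42,0)]⟩) .k 2 (⟨0,[(42,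
  0)]⟩,⟨0,[(43,0)]⟩) .k (.r 0 ⟨0,[]⟩ ⟨4,[(40,2),(0,2),(21,1),(1,3)]⟩)) (.R ⟨1,true,false,true,[1,0,
  0,0,-1],[0,1,0,0,1],[2,1,1,1],(⟨0,[(43,0)]⟩,⟨0,[(44,0)]⟩),(⟨0,[(44,0),(11,0)]⟩,⟨0,[(16,0)]⟩),⟨0,
  [(16,0)]⟩,.k,(.r 0 ⟨50,[(0,14),(9,9),(0,6),(24,6),(4,19),(6,16),(9,0)]⟩ ⟨27,[(1,8),(31,9),(8,9),
  (15,1),(4,4)]⟩),(.r (-1) ⟨27,[(1,8),(31,9),(8,9),(15,1),(4,4)]⟩ ⟨50,[(0,14),(9,9),(0,6),(24,6),(4,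
  19),(6,16),(9,0)]⟩),(.r (-1) ⟨35,[(1,12),(31,9),(8,9),(15,1),(4,4),(0,3),(1,7)]⟩ ⟨50,[(0,14),(9,
  9),(0,6),(24,6),(4,19),(6,16),(9,0)]⟩),(.r (-1) ⟨0,[(1,0)]⟩ ⟨50,[(0,29),(9,19),(0,13),(24,13),(4,
  39),(6,33),(9,1)]⟩),.k,⟨true,0,⟨0,[]⟩,⟨1,[(48,0),(0,0)]⟩⟩,⟨false,0,⟨0,[(0,0),(0,0)]⟩,⟨4,[(9,0),(0,
  0),(1,0),(6,0),(10,0),(10,3),(6,1)]⟩⟩,⟨false,0,⟨50,[(0,14),(9,9),(0,6),(24,6),(4,19),(6,16),(9,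
  0)]⟩,⟨0,[(1,0),(57,0)]⟩⟩,⟨true,(-1),⟨0,[(0,0),(60,0)]⟩,⟨1,[(12,0),(10,0),(9,0)]⟩⟩,⟨true,(-1),⟨0,
  [(11,0),(22,0)]⟩,⟨1,[(1,0),(59,1),(2,0)]⟩⟩,⟨false,(-1),⟨0,[(0,0)]⟩,⟨55,[(1,26),(8,17),(1,17),(2,
  17),(17,21),(14,17),(9,3),(5,36)]⟩⟩,[]⟩) (.Q [0,0,0,0,0,0,0,0,0,1,-2] (.ed true [0,0,2] (.r 0 ⟨0,
  [(32,1)]⟩ ⟨0,[(34,0),(12,0),(0,0),(15,0)]⟩)) (.R ⟨0,false,false,false,[0,0,1],[0,0,2],[1],(⟨0,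
  [(52,0)]⟩,⟨0,[(51,0)]⟩),(⟨0,[(52,1)]⟩,⟨0,[(0,0)]⟩),⟨0,[(41,0)]⟩,.k,.k,.k,.k,.k,.k,⟨false,1,⟨1,
  [(35,2),(12,0),(0,0),(15,1)]⟩,⟨0,[(33,1)]⟩⟩,⟨true,0,⟨0,[(36,0)]⟩,⟨0,[(50,0)]⟩⟩,⟨false,1,⟨1,[(35,
  0),(12,0),(0,0),(15,1)]⟩,⟨0,[(33,0)]⟩⟩,⟨true,0,⟨0,[(38,0)]⟩,⟨0,[(48,0)]⟩⟩,⟨false,0,⟨0,[]⟩,⟨0,[]⟩⟩,
  ⟨false,0,⟨0,[]⟩,⟨0,[]⟩⟩,[.o ⟨false,0,⟨30,[(2,5),(2,7),(1,3),(30,37),(10,7),(9,2)]⟩,⟨0,[(48,1),(16,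
  0)]⟩⟩,.o ⟨false,0,⟨1,[(2,0),(2,0),(1,0),(28,0),(12,0),(15,0)]⟩,⟨1,[(42,0),(0,0),(4,3),(16,0)]⟩⟩,
  .a ⟨true,0,⟨0,[(36,0)]⟩,⟨2,[(10,0),(7,0),(24,0)]⟩⟩ ⟨true,0,⟨0,[]⟩,⟨0,[(67,0)]⟩⟩ ⟨false,0,⟨1,[(2,
  0),(4,1),(28,1),(28,0)]⟩,⟨1,[(35,0),(12,2),(0,0),(15,1)]⟩⟩,.e ⟨false,1,⟨1,[(64,0),(0,0)]⟩,⟨1,[(49,
  0),(0,0)]⟩⟩ ⟨false,0,⟨5,[(2,2),(2,1),(1,3),(2,3),(4,3),(20,1),(28,2)]⟩,⟨0,[(48,1),(0,0),(15,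
  0)]⟩⟩]⟩) (.I [0,0,0,0,0,1,1] (.C [(0,1),(0,0),(5,0),(7,0),(21,0),(16,1),(12,0)]) (.C [(0,0),(36,
  0),(4,0)])))) (.N [0,2,0,0,2] 1 ⟨0,[(0,0)]⟩ ⟨0,[(1,0)]⟩ (.x 0 ⟨1,[(12,0),(0,0),(1,3),(9,1)]⟩ ⟨81,
  [(0,12),(8,45),(1,25),(2,12),(3,12),(21,26),(2,163),(3,45),(7,163),(1,20)]⟩))))))) (.N [0,1,2] 1
  ⟨0,[(1,0)]⟩ ⟨0,[(0,0)]⟩ (.x (-1) ⟨24,[(0,2),(7,11),(0,2),(3,5),(14,2),(0,23),(12,4),(1,49),(1,1),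
  (2,22),(2,10)]⟩ ⟨4,[(4,0),(27,2),(0,4),(2,0),(6,2),(1,4)]⟩))) (.I [0,0,-1,0,0,-1,2,0,1] (.N [0,1,
  2,0,1] 1 ⟨0,[(2,0)]⟩ ⟨0,[(1,0)]⟩ (.x 0 ⟨0,[(0,0)]⟩ ⟨11,[(4,9),(27,6),(0,11),(1,1),(2,11),(6,11),
  (6,2),(4,3)]⟩)) (.I [0,0,0,0,0,1,1] (.C [(0,1),(0,0),(6,0),(2,0),(18,0),(16,1),(12,0)]) (.C [(0,
  0),(29,0),(4,0)])))))) (.I [-1,0,-2,-2,1] (.Q [1,0,0,2,-1,0,0,0,1,-1,0,1] (.p true [0,0,0,0,1]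
  [1] (⟨0,[(35,0)]⟩,⟨0,[(34,0)]⟩) .k 1 (⟨0,[]⟩,⟨0,[]⟩) .k .k) (.R ⟨1,true,false,true,[1,0,0,0,-1],
  [0,1],[1,1,1,1],(⟨0,[(35,0)]⟩,⟨0,[(36,0)]⟩),(⟨0,[(48,0)]⟩,⟨0,[(47,0)]⟩),⟨0,[(8,0)]⟩,.k,.k,(.r
  (-1) ⟨27,[(1,8),(23,9),(8,9),(15,1),(4,4)]⟩ ⟨2,[(3,0),(24,0),(4,0),(0,0),(5,0)]⟩),(.r (-1) ⟨27,
  [(1,8),(23,9),(8,9),(15,1),(4,4)]⟩ ⟨2,[(3,0),(24,0),(4,0),(0,0),(5,0)]⟩),(.r (-1) ⟨0,[(1,0)]⟩ ⟨2,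
  [(3,1),(24,1),(4,1),(0,1),(5,1)]⟩),.k,⟨true,0,⟨0,[]⟩,⟨1,[(40,0),(0,0)]⟩⟩,⟨false,0,⟨1,[(5,0),(0,
  0)]⟩,⟨2,[(3,0),(21,2),(2,0),(4,0),(0,0),(5,0)]⟩⟩,⟨false,0,⟨2,[(3,0),(24,0),(4,0),(0,0),(5,0)]⟩,⟨1,
  [(1,0),(54,0)]⟩⟩,⟨true,(-1),⟨0,[(0,0),(52,0)]⟩,⟨0,[(25,0)]⟩⟩,⟨true,(-1),⟨0,[(3,0),(22,0)]⟩,⟨1,[(1,
  0),(51,1),(2,0)]⟩⟩,⟨false,(-1),⟨0,[(0,0)]⟩,⟨0,[(25,0),(27,0),(2,0)]⟩⟩,[]⟩) (.Q [2,0,0,2,-1,0,0,0,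
  2,-1,0,2] (.p true [0,0,0,0,1] [1,0,0,0,-1] (⟨0,[(36,0)]⟩,⟨0,[(35,0)]⟩) .k 2 (⟨0,[(35,0)]⟩,⟨0,
  [(36,0)]⟩) .k (.r 0 ⟨0,[]⟩ ⟨4,[(33,2),(0,2),(21,1),(1,3)]⟩)) (.R ⟨1,true,false,true,[1,0,0,0,-1],
  [0,1,0,0,1],[1,1,2,1],(⟨0,[(36,0)]⟩,⟨0,[(37,0)]⟩),(⟨0,[(37,0),(11,0)]⟩,⟨0,[(9,0)]⟩),⟨0,[(9,0)]⟩,
  .k,(.r 0 ⟨2,[(4,0),(24,0),(4,0),(0,0),(5,0)]⟩ ⟨27,[(2,8),(23,9),(8,9),(15,1),(4,4)]⟩),(.r (-1)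
  ⟨27,[(2,8),(23,9),(8,9),(15,1),(4,4)]⟩ ⟨2,[(4,0),(24,0),(4,0),(0,0),(5,0)]⟩),(.r (-1) ⟨133,[(2,
  51),(23,29),(8,29),(15,5),(4,14),(0,24),(1,49)]⟩ ⟨2,[(4,0),(24,0),(4,0),(0,0),(5,0)]⟩),(.r (-1)
  ⟨0,[(1,0),(1,0),(6,0),(17,0),(29,0)]⟩ ⟨2,[(4,1),(24,1),(4,1),(0,1),(5,1)]⟩),.k,⟨true,0,⟨1,[(41,0),
  (0,0)]⟩,⟨0,[]⟩⟩,⟨false,0,⟨0,[(0,0),(1,0)]⟩,⟨10,[(4,2),(0,3),(6,0),(10,2),(2,4),(7,4),(6,2),(10,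
  1)]⟩⟩,⟨false,0,⟨5,[(4,1),(24,1),(4,1),(0,1),(5,4),(0,2)]⟩,⟨0,[(1,0),(1,0),(34,0),(13,0)]⟩⟩,⟨true,
  (-1),⟨0,[(0,0),(53,0)]⟩,⟨1,[(5,0),(10,0),(9,0)]⟩⟩,⟨true,(-1),⟨1,[(4,1),(22,0),(12,0),(0,0)]⟩,⟨0,
  [(2,0)]⟩⟩,⟨false,(-1),⟨0,[(0,0)]⟩,⟨4,[(1,3),(3,0),(2,0),(25,1),(22,2)]⟩⟩,[]⟩) (.I [0,0,-1,-1,0,0,
  0,2] (.Q [0,0,0,0,0,0,0,0,0,1,-2] (.ed true [0,0,2] (.r 0 ⟨44,[(0,27),(4,13),(26,9),(7,19),(11,1),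
  (5,9)]⟩ ⟨0,[(28,0),(12,0),(0,0),(15,0)]⟩)) (.R ⟨0,false,false,false,[1,0,-2],[1,0,-1],[1],(⟨0,[(0,
  0)]⟩,⟨0,[(46,1)]⟩),(⟨0,[(45,0)]⟩,⟨0,[(46,0)]⟩),⟨0,[(34,0),(11,0)]⟩,.k,.k,(.x 0 ⟨1,[(33,0),(0,0),
  (9,1),(1,2),(4,0)]⟩ ⟨27,[(0,27),(1,0),(6,9),(4,1),(14,1),(0,43),(5,5),(13,27),(2,8),(4,2)]⟩),.k,
  .k,.k,⟨false,0,⟨42,[(1,15),(4,4),(2,5),(4,5),(25,11),(11,2),(5,4)]⟩,⟨1,[(29,0),(6,0),(0,0),(4,0),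
  (0,0),(15,0)]⟩⟩,⟨true,0,⟨0,[(30,0)]⟩,⟨0,[(44,0)]⟩⟩,⟨false,0,⟨0,[(1,0),(52,0)]⟩,⟨0,[(29,0),(12,0),
  (0,0),(15,0)]⟩⟩,⟨true,0,⟨0,[(32,0)]⟩,⟨0,[(42,0)]⟩⟩,⟨false,0,⟨0,[]⟩,⟨0,[]⟩⟩,⟨false,0,⟨0,[]⟩,⟨0,
  []⟩⟩,[.o ⟨false,1,⟨1,[(36,0),(0,0),(4,1),(16,0)]⟩,⟨39,[(1,11),(3,9),(0,5),(3,4),(11,4),(20,19),(9,
  2)]⟩⟩,.o ⟨false,1,⟨0,[(42,0),(16,0)]⟩,⟨10,[(5,1),(0,1),(3,1),(15,1),(14,6),(11,0),(2,1)]⟩⟩,.a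
  ⟨true,0,⟨0,[(33,0)]⟩,⟨0,[(30,1)]⟩⟩ ⟨true,0,⟨0,[]⟩,⟨0,[(61,0)]⟩⟩ ⟨false,1,⟨0,[(29,0),(13,0),(15,
  0)]⟩,⟨9,[(1,3),(4,1),(26,4),(19,0)]⟩⟩,.o ⟨false,0,⟨0,[(12,0),(21,0),(0,0),(11,1),(12,1)]⟩,⟨0,[(9,
  0),(26,0),(6,0)]⟩⟩]⟩) (.I [0,0,0,0,0,1,1] (.C [(0,1),(0,0),(11,0),(34,1),(12,0)]) (.C [(0,0),(30,
  0),(4,0)]))) (.Q [0,0,0,0,0,0,0,0,0,1,-2] (.ed true [0,0,2] (.r 0 ⟨0,[(26,1)]⟩ ⟨27,[(0,27),(2,8),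
  (23,9),(8,9),(15,1),(4,4)]⟩)) (.R ⟨0,false,false,true,[0,0,1],[0,0,2],[1,1],(⟨0,[(46,0)]⟩,⟨0,[(45,
  0)]⟩),(⟨0,[(46,1)]⟩,⟨0,[(0,0)]⟩),⟨0,[(35,0)]⟩,.k,.k,.k,.k,.k,.k,⟨false,1,⟨1,[(1,1),(2,0),(53,0)]⟩,
  ⟨0,[(27,1)]⟩⟩,⟨true,0,⟨0,[(30,0)]⟩,⟨0,[(44,0)]⟩⟩,⟨true,0,⟨4,[(1,1),(27,0),(22,0),(3,1)]⟩,⟨0,[(27,
  0)]⟩⟩,⟨false,0,⟨0,[(32,0)]⟩,⟨55,[(1,27),(2,12),(23,1),(4,27),(3,1),(15,5),(4,0),(0,27)]⟩⟩,⟨false,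
  0,⟨0,[]⟩,⟨0,[]⟩⟩,⟨false,0,⟨0,[]⟩,⟨0,[]⟩⟩,[.o ⟨false,0,⟨14,[(5,1),(0,1),(3,3),(15,5),(5,12),(8,10),
  (11,0)]⟩,⟨13,[(1,13),(0,3),(1,2),(3,7),(3,3),(31,11),(14,6)]⟩⟩,.o ⟨false,0,⟨2,[(10,0),(11,0),(3,
  1),(5,3)]⟩,⟨27,[(1,27),(2,12),(23,1),(4,27),(3,1),(15,5),(4,0)]⟩⟩,.e ⟨false,0,⟨0,[]⟩,⟨1,[(36,0),
  (0,0),(21,0)]⟩⟩ ⟨false,0,⟨0,[(27,0),(4,0)]⟩,⟨13,[(1,13),(0,1),(1,4),(3,3),(3,1),(31,5),(14,6)]⟩⟩,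
  .a ⟨true,0,⟨0,[(43,0)]⟩,⟨0,[(40,0)]⟩⟩ ⟨true,0,⟨25,[(9,4),(0,0),(1,0),(1,0),(1,1),(23,2),(11,11)]⟩,
  ⟨1,[(43,0),(0,0)]⟩⟩ ⟨false,0,⟨9,[(9,2),(0,0),(1,3),(1,0),(12,4),(4,12)]⟩,⟨1,[(1,1),(2,0),(39,1),
  (14,0)]⟩⟩]⟩) (.I [0,0,0,0,0,1,1] (.C [(0,1),(0,0),(11,0),(34,1),(12,0)]) (.C [(0,0),(30,0),(4,
  0)])))))) (.N [0,2,0,0,1] 1 ⟨0,[(0,0)]⟩ ⟨0,[(16,0)]⟩ (.x 0 ⟨1,[(1,1),(5,1),(0,0),(34,0),(2,0),(9,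
  0)]⟩ ⟨0,[(32,0),(2,0),(3,0),(0,0),(6,1)]⟩))))

theorem ok54 : chk K t54 r42 = true := by decide +kernel

noncomputable def t68 : Tre :=
  (.R ⟨2,true,false,false,[0,1],[0,0,0,0,1],[1,0,1],(⟨0,[]⟩,⟨0,[]⟩),(⟨0,[(20,0)]⟩,⟨0,[(19,0)]⟩),⟨0,
  []⟩,.k,.k,.k,(.r 0 ⟨0,[(35,0),(6,0)]⟩ ⟨27,[(1,8),(7,9),(8,9),(15,1),(4,4)]⟩),.k,.k,⟨true,0,⟨1,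
  [(24,0),(0,0)]⟩,⟨0,[]⟩⟩,⟨false,0,⟨0,[(18,0)]⟩,⟨5,[(1,1),(1,1),(1,1),(0,3),(10,1),(21,0),(0,0)]⟩⟩,
  ⟨false,1,⟨0,[(37,0),(2,0)]⟩,⟨0,[(38,0)]⟩⟩,⟨true,0,⟨0,[(0,0),(36,0)]⟩,⟨2,[(3,0),(1,1),(0,2),(15,
  0)]⟩⟩,⟨true,0,⟨0,[]⟩,⟨0,[(42,0)]⟩⟩,⟨false,0,⟨0,[(0,0)]⟩,⟨8,[(6,4),(10,3),(16,0),(5,2),(1,0)]⟩⟩,
  []⟩)

theorem ok68 : chk K t68 r13 = true := by decide +kernel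

noncomputable def t76 : Tre :=
  (.I [1,1,0,-1,0,0,0,-1] (.Q [0,0,0,1,0,0,1,1,0,-1,1] (.p true [0,0,1] [1] (⟨0,[(21,0)]⟩,⟨0,[(20,
  0)]⟩) .k 1 (⟨0,[]⟩,⟨0,[]⟩) .k .k) (.R ⟨2,true,false,true,[0,1],[1,0,-1],[0,1],(⟨0,[]⟩,⟨0,[]⟩),(⟨0,
  [(21,0)]⟩,⟨0,[(22,0)]⟩),⟨0,[]⟩,.k,.k,.k,.k,.k,.k,⟨true,0,⟨0,[(3,0)]⟩,⟨0,[(1,0),(28,0)]⟩⟩,⟨false,0,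
  ⟨1,[(2,0),(6,0),(3,0)]⟩,⟨4,[(6,3),(12,0),(9,0),(4,2)]⟩⟩,⟨false,1,⟨1,[(32,1),(1,0),(0,0)]⟩,⟨0,[(30,
  0)]⟩⟩,⟨true,0,⟨1,[(1,1),(0,0),(6,0),(3,0)]⟩,⟨0,[(0,0)]⟩⟩,⟨true,0,⟨0,[(31,0)]⟩,⟨1,[(19,0),(0,0)]⟩⟩,
  ⟨false,0,⟨0,[(1,0),(14,0),(13,0)]⟩,⟨4,[(8,3),(8,0),(11,0),(5,2)]⟩⟩,[]⟩) (.I [0,0,0,0,0,1,1] (.C
  [(0,0),(0,0),(2,1),(1,0),(4,0),(12,1),(6,0)]) (.C [(0,0),(6,0),(4,0)]))) (.R ⟨2,true,false,true,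
  [0,1],[1,0,0,0,-1],[0,0,1,1],(⟨0,[]⟩,⟨0,[]⟩),(⟨0,[(13,0)]⟩,⟨0,[(14,0)]⟩),⟨0,[]⟩,.k,.k,.k,(.r 0 ⟨0,
  [(29,0),(6,0)]⟩ ⟨1,[(31,1),(1,0),(0,0)]⟩),.k,.k,⟨true,0,⟨0,[(29,0)]⟩,⟨0,[(31,0)]⟩⟩,⟨false,0,⟨0,
  [(1,0)]⟩,⟨9,[(11,0),(0,10),(15,1),(4,4)]⟩⟩,⟨false,1,⟨1,[(11,0),(0,0),(21,0)]⟩,⟨0,[]⟩⟩,⟨true,0,⟨0,
  [(1,0),(29,0)]⟩,⟨2,[(0,1),(3,1),(4,2),(0,2),(1,2),(9,5),(9,0),(2,1)]⟩⟩,⟨true,0,⟨0,[(32,0)]⟩,⟨0,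
  [(31,0)]⟩⟩,⟨false,0,⟨0,[(1,0)]⟩,⟨9,[(11,0),(0,10),(15,1),(5,4)]⟩⟩,[]⟩))

theorem ok76 : chk K t76 r6 = true := by decide +kernel

noncomputable def t80 : Tre :=
  (.I [1,0,-1,0,0,0,0,1] (.I [0,0,-2,0,1,-2] (.Q [0,1,0,1,0,0,-1,-1,0,-1,-1] (.p false [1,-1,1] []
  (⟨0,[(19,0),(3,0)]⟩,⟨0,[(8,0)]⟩) .k 0 (⟨0,[]⟩,⟨0,[]⟩) .k .k) (.R ⟨0,false,false,false,[1,-1],[1,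
  -1,1],[1],(⟨0,[(24,0)]⟩,⟨0,[(25,0)]⟩),(⟨0,[(20,0),(3,0)]⟩,⟨0,[(9,0)]⟩),⟨0,[(8,0),(0,0)]⟩,.k,.k,
  (.x 0 ⟨0,[(17,0),(0,0),(6,1)]⟩ ⟨0,[(1,0)]⟩),.k,.k,.k,⟨false,0,⟨0,[(4,0),(0,0)]⟩,⟨0,[(3,0),(26,0),
  (1,0)]⟩⟩,⟨true,0,⟨0,[(4,0)]⟩,⟨0,[(18,0)]⟩⟩,⟨false,0,⟨0,[(28,0)]⟩,⟨1,[(30,1),(1,0),(0,0)]⟩⟩,⟨true,
  0,⟨0,[(6,0)]⟩,⟨0,[(16,0)]⟩⟩,⟨false,0,⟨0,[]⟩,⟨0,[]⟩⟩,⟨false,0,⟨0,[]⟩,⟨0,[]⟩⟩,[.a ⟨true,0,⟨0,[(3,0),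
  (0,1),(9,0),(15,0)]⟩,⟨0,[(5,0)]⟩⟩ ⟨true,0,⟨0,[]⟩,⟨1,[(17,0),(0,0)]⟩⟩ ⟨false,1,⟨1,[(2,1),(1,1),(25,
  1),(1,0),(0,0)]⟩,⟨1,[(5,1),(11,0),(0,0)]⟩⟩,.o ⟨false,1,⟨0,[(6,0),(23,0),(2,0)]⟩,⟨0,[(0,0)]⟩⟩,.o
  ⟨false,0,⟨1,[(17,0),(0,0)]⟩,⟨9,[(10,0),(0,0),(15,1),(4,4)]⟩⟩,.o ⟨false,0,⟨0,[(17,0),(0,0)]⟩,⟨0,
  [(1,0),(6,0),(0,0)]⟩⟩]⟩) (.I [0,0,0,1,0,0,0,-1] (.C [(0,0),(0,0),(1,0),(2,0),(2,0),(0,0),(11,1),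
  (8,0),(3,0)]) (.C [(0,0),(4,0),(0,0)]))) (.I [0,0,0,1,0,0,0,-1] (.C [(0,0),(0,0),(0,1),(1,0),(0,
  0),(15,1),(8,1),(2,0)]) (.C [(0,0),(3,0),(0,0)]))) (.Q [0,0,0,1,0,0,1,1,0,-1,1] (.p true [0,0,1]
  [1] (⟨0,[(18,0)]⟩,⟨0,[(17,0)]⟩) .k 1 (⟨0,[]⟩,⟨0,[]⟩) .k .k) (.R ⟨2,true,false,true,[0,1],[1,0,-1],
  [1,0,1],(⟨0,[]⟩,⟨0,[]⟩),(⟨0,[(18,0)]⟩,⟨0,[(19,0)]⟩),⟨0,[]⟩,.k,.k,.k,.k,.k,.k,⟨true,0,⟨0,[(2,0)]⟩,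
  ⟨0,[(3,0),(11,0)]⟩⟩,⟨false,0,⟨1,[(6,0),(11,0),(0,0)]⟩,⟨4,[(3,3),(12,0),(9,0),(4,2)]⟩⟩,⟨false,1,⟨0,
  [(29,0),(2,0)]⟩,⟨0,[(30,0)]⟩⟩,⟨true,0,⟨0,[(1,0),(11,0),(15,0)]⟩,⟨0,[(0,0)]⟩⟩,⟨true,0,⟨0,[]⟩,⟨0,
  [(34,0)]⟩⟩,⟨false,0,⟨0,[(1,0),(11,0)]⟩,⟨4,[(5,3),(8,0),(11,0),(5,2)]⟩⟩,[]⟩) (.I [0,0,0,1,0,0,0,
  -1] (.I [0,0,0,0,0,1,1] (.C [(0,0),(0,0),(0,0),(1,1),(4,0),(12,1),(7,1)]) (.C [(0,0),(4,0),(4,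
  0)])) (.C [(0,0),(3,0),(0,0)]))))

theorem ok80 : chk K t80 r3 = true := by decide +kernel

noncomputable def t83 : Tre :=
  (.I [1,0,-1,0,-1,0,0,2] (.Q [0,0,0,1,0,0,0,0,0,-1] (.pp true [-1,1]) (.Q [0,-1,0,0,0,0,2,2,0,-1,
  2] (.p true [0,0,1] [1,0,-1] (⟨0,[(17,0)]⟩,⟨0,[(16,0)]⟩) .k 2 (⟨0,[(16,0)]⟩,⟨0,[(17,0)]⟩) .k (.r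
  1 ⟨1,[(1,1),(12,0),(0,0)]⟩ ⟨0,[(13,1),(0,1),(14,0),(0,0)]⟩)) (.Q [0,0,0,0,1,0,2,0,0,-1,2] (.p
  true [0,0,1] [1,0,-1] (⟨0,[(18,0)]⟩,⟨0,[(17,0)]⟩) .k 2 (⟨0,[(17,0)]⟩,⟨0,[(18,0)]⟩) .k (.r 1 ⟨1,
  [(2,1),(12,0),(0,0)]⟩ ⟨0,[(14,1),(0,1),(14,0),(0,0)]⟩)) (.R ⟨0,false,false,true,[0,0,1],[1,0,-1],
  [0,1,1,0,0,0,0,-1],(⟨0,[(19,0)]⟩,⟨0,[(18,0)]⟩),(⟨0,[(18,0)]⟩,⟨0,[(19,0)]⟩),⟨0,[(8,0)]⟩,.k,.k,.k,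
  .k,.k,.k,⟨true,0,⟨1,[(16,0),(0,0)]⟩,⟨0,[]⟩⟩,⟨false,0,⟨2,[(3,0),(2,0),(6,1),(1,1),(16,0)]⟩,⟨0,[(0,
  0)]⟩⟩,⟨true,1,⟨1,[(0,0),(14,3),(0,1),(1,0),(0,0),(12,0)]⟩,⟨0,[(3,0)]⟩⟩,⟨false,1,⟨0,[(15,1),(2,0),
  (0,0),(12,0)]⟩,⟨0,[(1,0)]⟩⟩,⟨false,0,⟨0,[]⟩,⟨0,[]⟩⟩,⟨false,0,⟨0,[]⟩,⟨0,[]⟩⟩,[.o ⟨false,0,⟨0,[(15,
  0)]⟩,⟨18,[(1,3),(12,10),(11,2),(5,12)]⟩⟩,.o ⟨false,1,⟨1,[(9,0),(0,0),(4,1),(16,0)]⟩,⟨1,[(1,0),(0,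
  0),(26,0)]⟩⟩,.o ⟨false,1,⟨49,[(0,24),(8,13),(0,13),(15,4),(5,0),(1,1)]⟩,⟨2,[(3,0),(11,1),(1,0),
  (14,0)]⟩⟩,.a ⟨true,0,⟨0,[(16,0)]⟩,⟨0,[(13,0)]⟩⟩ ⟨false,1,⟨1,[(0,0),(14,1),(2,0),(0,0),(12,0)]⟩,⟨4,
  [(3,1),(0,0),(12,0),(9,0),(4,1)]⟩⟩ ⟨true,0,⟨0,[(13,0),(1,0)]⟩,⟨1,[(1,0),(0,0),(13,1),(12,0)]⟩⟩]⟩)
  (.I [0,0,0,1,0,0,0,0,1] (.I [0,0,0,0,1,0,0,0,-1] (.I [0,1,1,0,0,0,0,-1] (.I [0,0,1,0,0,1,1] (.C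
  [(0,0),(3,0),(6,0),(8,0),(3,1),(7,1),(3,0)]) (.C [(0,0),(11,0),(7,0)])) (.C [(0,0),(17,0),(0,
  0)])) (.C [(0,0),(10,0),(2,0)])) (.C [(0,0),(2,0),(7,0),(0,0)]))) (.R ⟨0,false,false,false,[0,0,
  1],[0,1],[0,0,2,1],(⟨0,[(18,0)]⟩,⟨0,[(17,0)]⟩),(⟨0,[(23,0)]⟩,⟨0,[(22,0)]⟩),⟨0,[(7,0)]⟩,.k,.k,.k,
  .k,.k,.k,⟨true,0,⟨1,[(15,0),(0,0)]⟩,⟨0,[]⟩⟩,⟨false,1,⟨5,[(5,0),(6,3),(12,0),(4,3)]⟩,⟨0,[(15,0)]⟩⟩,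
  ⟨true,0,⟨0,[(14,0),(0,0),(10,0)]⟩,⟨1,[(0,0),(1,0),(0,1),(2,0),(0,0),(11,1),(7,0),(2,0)]⟩⟩,⟨false,
  1,⟨19,[(0,9),(7,0),(0,0),(15,1),(3,19),(1,14)]⟩,⟨0,[(3,0)]⟩⟩,⟨false,0,⟨0,[]⟩,⟨0,[]⟩⟩,⟨false,0,⟨0,
  []⟩,⟨0,[]⟩⟩,[.o ⟨false,0,⟨0,[(1,0)]⟩,⟨1,[(8,0),(0,0),(18,1),(2,0)]⟩⟩,.o ⟨false,1,⟨9,[(8,0),(0,0),
  (15,1),(3,9),(1,4)]⟩,⟨0,[(28,0)]⟩⟩,.o ⟨false,1,⟨9,[(8,0),(0,0),(5,9),(9,1),(4,4)]⟩,⟨13,[(0,3),(1,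
  3),(2,0),(10,3),(8,0),(5,1)]⟩⟩,.a ⟨true,0,⟨0,[(15,0)]⟩,⟨0,[(12,0)]⟩⟩ ⟨false,0,⟨0,[(0,0),(0,0),(0,
  0),(12,1),(15,0)]⟩,⟨1,[(28,1),(1,0),(0,0)]⟩⟩ ⟨true,0,⟨0,[(1,0),(10,0)]⟩,⟨0,[(15,0),(12,0)]⟩⟩]⟩))
  (.Q [0,0,-1,-1,1,0,1,0,0,0,1] (.p true [0,0,1] [] (⟨0,[(17,0)]⟩,⟨0,[(16,0)]⟩) .k 0 (⟨0,[]⟩,⟨0,
  []⟩) .k .k) (.Q [0,0,-1,0,1,0,1,0,0,-1,1] (.p true [0,0,1] [1] (⟨0,[(18,0)]⟩,⟨0,[(17,0)]⟩) .k 1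
  (⟨0,[]⟩,⟨0,[]⟩) .k .k) (.R ⟨0,false,false,true,[1,0,-1],[1,-1],[1,1],(⟨0,[(18,0)]⟩,⟨0,[(19,0)]⟩),
  (⟨0,[(23,0)]⟩,⟨0,[(24,0)]⟩),⟨0,[(7,0)]⟩,.k,.k,.k,.k,.k,.k,⟨false,0,⟨0,[(30,0)]⟩,⟨5,[(1,1),(0,3),
  (3,0),(19,0),(4,1)]⟩⟩,⟨true,0,⟨0,[(16,0)]⟩,⟨2,[(3,0),(11,1),(1,0),(14,0)]⟩⟩,⟨true,(-1),⟨0,[(3,0),
  (11,0),(0,0)]⟩,⟨0,[(1,0),(13,0),(11,0)]⟩⟩,⟨false,0,⟨0,[(4,0)]⟩,⟨0,[(15,0),(14,0),(1,0)]⟩⟩,⟨false,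
  0,⟨0,[]⟩,⟨0,[]⟩⟩,⟨false,0,⟨0,[]⟩,⟨0,[]⟩⟩,[.o ⟨false,0,⟨0,[(29,0)]⟩,⟨9,[(9,0),(0,0),(15,1),(3,9),
  (1,4)]⟩⟩,.a ⟨true,0,⟨0,[(2,0)]⟩,⟨0,[(30,0)]⟩⟩ ⟨true,0,⟨0,[]⟩,⟨1,[(16,0),(0,0)]⟩⟩ ⟨false,1,⟨0,[(1,
  0)]⟩,⟨11,[(3,1),(2,2),(6,1),(1,3),(10,0),(0,3),(2,7)]⟩⟩,.o ⟨false,0,⟨2,[(3,0),(11,1),(1,0),(14,
  0)]⟩,⟨20,[(0,10),(8,5),(0,5),(5,9),(9,1),(6,0)]⟩⟩,.o ⟨false,0,⟨0,[(17,0)]⟩,⟨0,[(0,0)]⟩⟩]⟩) (.I [0,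
  0,0,0,1,0,0,0,-1] (.I [0,0,0,-1,0,2] (.I [0,0,1,0,0,1,1] (.C [(0,0),(2,0),(6,0),(12,1),(7,1),(3,
  0)]) (.C [(0,0),(10,0),(7,0)])) (.C [(0,0),(1,0),(0,0),(5,0),(0,0)])) (.C [(0,0),(9,0),(2,0)])))
  (.I [0,0,0,0,1,0,0,0,-1] (.I [0,0,0,-1,0,2] (.C [(0,0),(1,0),(14,0),(3,1),(7,1),(3,0)]) (.C [(0,
  0),(2,0),(4,0),(0,0)])) (.C [(0,0),(8,0),(2,0)])))) (.I [1,0,0,0,-1,0,0,2] (.I [1,-1,2,2,0,0,0,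
  -1] (.Q [0,0,0,1,0,0,0,0,0,-1] (.pp true [-1,1]) (.R ⟨0,false,false,false,[0,0,1],[0,1],[1,1,1],
  (⟨0,[(19,0)]⟩,⟨0,[(18,0)]⟩),(⟨0,[(24,0)]⟩,⟨0,[(23,0)]⟩),⟨0,[(8,0)]⟩,.k,.k,.k,.k,.k,.k,⟨true,0,⟨0,
  [(29,0)]⟩,⟨3,[(1,1),(0,0),(29,0)]⟩⟩,⟨false,1,⟨5,[(6,0),(6,3),(12,0),(4,3)]⟩,⟨0,[(16,0)]⟩⟩,⟨true,0,
  ⟨0,[(15,0),(0,0)]⟩,⟨1,[(2,0),(28,0)]⟩⟩,⟨false,1,⟨11,[(1,5),(4,0),(6,3),(1,5),(10,0),(4,3),(0,5)]⟩,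
  ⟨0,[(4,0)]⟩⟩,⟨false,0,⟨0,[]⟩,⟨0,[]⟩⟩,⟨false,0,⟨0,[]⟩,⟨0,[]⟩⟩,[.o ⟨false,0,⟨0,[(0,0)]⟩,⟨1,[(9,0),
  (0,0),(18,1),(2,0)]⟩⟩,.o ⟨false,1,⟨23,[(1,1),(4,0),(7,1),(11,4),(3,19),(0,1),(0,11)]⟩,⟨0,[(29,
  0)]⟩⟩,.o ⟨false,1,⟨4,[(3,0),(1,1),(10,2),(9,0),(4,1)]⟩,⟨1,[(2,0),(12,1),(16,0)]⟩⟩,.a ⟨true,0,⟨0,
  [(16,0)]⟩,⟨0,[(13,0)]⟩⟩ ⟨false,0,⟨0,[]⟩,⟨1,[(9,0),(0,0),(21,0)]⟩⟩ ⟨true,0,⟨0,[(0,0),(12,0)]⟩,⟨0,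
  [(16,0),(12,0)]⟩⟩]⟩) (.Q [0,-1,0,1,1,0,-1,-1,0,-1,-1] (.p false [1,-1,1] [] (⟨0,[(19,0),(3,0)]⟩,
  ⟨0,[(8,0)]⟩) .k 0 (⟨0,[]⟩,⟨0,[]⟩) .k .k) (.R ⟨0,false,false,true,[0,0,1],[1,-1,1],[1,0,0,0,0,0,0,
  1],(⟨0,[(20,0)]⟩,⟨0,[(19,0)]⟩),(⟨0,[(20,0),(3,0)]⟩,⟨0,[(9,0)]⟩),⟨0,[(9,0)]⟩,.k,.k,.k,.k,.k,.k,
  ⟨true,0,⟨0,[(28,0)]⟩,⟨0,[(30,0)]⟩⟩,⟨false,0,⟨0,[(19,0),(0,0)]⟩,⟨9,[(10,0),(0,0),(15,1),(4,4)]⟩⟩,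
  ⟨true,0,⟨0,[]⟩,⟨0,[(35,0)]⟩⟩,⟨false,0,⟨0,[(1,0)]⟩,⟨5,[(0,0),(14,0),(11,0),(3,4),(1,2)]⟩⟩,⟨false,0,
  ⟨0,[]⟩,⟨0,[]⟩⟩,⟨false,0,⟨0,[]⟩,⟨0,[]⟩⟩,[.o ⟨false,0,⟨1,[(5,0),(9,0),(14,0)]⟩,⟨0,[(0,0)]⟩⟩,.o
  ⟨false,0,⟨0,[(5,0)]⟩,⟨95,[(0,67),(1,13),(1,9),(2,16),(7,5),(10,37),(0,8)]⟩⟩,.o ⟨false,1,⟨4,[(4,0),
  (1,1),(10,2),(9,0),(4,1)]⟩,⟨1,[(0,0),(0,0),(1,0),(12,0)]⟩⟩,.a ⟨true,0,⟨0,[(17,0)]⟩,⟨0,[(14,0)]⟩⟩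
  ⟨true,0,⟨1,[(3,0),(28,0)]⟩,⟨0,[(16,0),(0,0)]⟩⟩ ⟨false,0,⟨0,[(5,0),(8,0)]⟩,⟨15,[(2,7),(1,3),(3,0),
  (0,0),(11,1),(5,2),(4,1),(0,3)]⟩⟩]⟩) (.Q [0,0,-1,0,1,0,1,0,0,-1,1] (.p true [0,0,1] [1] (⟨0,[(20,
  0)]⟩,⟨0,[(19,0)]⟩) .k 1 (⟨0,[]⟩,⟨0,[]⟩) .k .k) (.R ⟨0,false,false,false,[1,0,-1],[1,-1],[1],(⟨0,
  [(20,0)]⟩,⟨0,[(21,0)]⟩),(⟨0,[(25,0)]⟩,⟨0,[(26,0)]⟩),⟨0,[(9,0)]⟩,.k,.k,.k,.k,.k,.k,⟨false,0,⟨0,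
  [(32,0)]⟩,⟨1,[(31,1),(1,0),(0,0)]⟩⟩,⟨true,0,⟨0,[(18,0)]⟩,⟨1,[(4,0),(12,1),(16,0)]⟩⟩,⟨false,0,⟨1,
  [(4,0),(29,0)]⟩,⟨3,[(5,1),(5,0),(0,0),(20,0)]⟩⟩,⟨true,0,⟨0,[(6,0)]⟩,⟨0,[(17,0),(14,0)]⟩⟩,⟨false,0,
  ⟨0,[]⟩,⟨0,[]⟩⟩,⟨false,0,⟨0,[]⟩,⟨0,[]⟩⟩,[.a ⟨true,0,⟨0,[(2,0)]⟩,⟨0,[(32,0)]⟩⟩ ⟨true,0,⟨0,[]⟩,⟨1,
  [(18,0),(0,0)]⟩⟩ ⟨false,1,⟨0,[(0,0),(1,0)]⟩,⟨7,[(3,1),(0,1),(3,0),(6,3),(1,1),(10,0),(3,3)]⟩⟩,.o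
  ⟨false,1,⟨0,[(31,0),(2,0)]⟩,⟨16,[(1,2),(1,9),(0,4),(12,2),(9,0),(0,3),(1,18)]⟩⟩,.o ⟨false,0,⟨1,
  [(4,0),(12,1),(16,0)]⟩,⟨16,[(0,6),(4,2),(10,5),(1,3),(9,1),(5,2)]⟩⟩,.o ⟨false,0,⟨0,[(19,0)]⟩,⟨0,
  [(0,0)]⟩⟩]⟩) (.I [0,0,0,0,1,0,0,0,-1] (.I [0,0,1,0,0,1,1] (.C [(0,0),(1,0),(8,0),(12,1),(7,1),(3,
  0)]) (.C [(0,0),(11,0),(7,0)])) (.C [(0,0),(11,0),(2,0)]))))) (.I [0,-1,1,1] (.Q [0,0,-1,1,0,0,-1,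
  0,0,0,-1] (.p false [0,0,1] [] (⟨0,[(19,0)]⟩,⟨0,[(18,0)]⟩) .k 0 (⟨0,[]⟩,⟨0,[]⟩) .k .k) (.R ⟨0,
  false,false,false,[0,0,1],[0,1],[1,1,1],(⟨0,[(20,0)]⟩,⟨0,[(19,0)]⟩),(⟨0,[(25,0)]⟩,⟨0,[(24,0)]⟩),
  ⟨0,[(9,0)]⟩,.k,.k,.k,.k,.k,.k,⟨true,0,⟨0,[(30,0)]⟩,⟨0,[(1,0)]⟩⟩,⟨false,1,⟨5,[(7,0),(6,3),(12,0),
  (4,3)]⟩,⟨0,[(17,0)]⟩⟩,⟨true,0,⟨0,[(16,0),(0,0)]⟩,⟨1,[(3,0),(28,0)]⟩⟩,⟨false,1,⟨39,[(0,29),(3,19),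
  (2,4),(2,2),(0,2),(15,0),(0,9),(4,14)]⟩,⟨0,[(5,0)]⟩⟩,⟨false,0,⟨0,[]⟩,⟨0,[]⟩⟩,⟨false,0,⟨0,[]⟩,⟨0,
  []⟩⟩,[.e ⟨false,0,⟨0,[(35,0)]⟩,⟨1,[(32,0),(0,0)]⟩⟩ ⟨false,0,⟨0,[(0,0)]⟩,⟨9,[(2,1),(1,5),(0,5),(9,
  3),(16,0),(0,2)]⟩⟩,.o ⟨false,1,⟨9,[(10,0),(0,0),(15,1),(3,9),(1,4)]⟩,⟨0,[(30,0)]⟩⟩,.o ⟨false,1,⟨4,
  [(4,0),(1,1),(10,2),(9,0),(4,1)]⟩,⟨1,[(3,0),(12,1),(16,0)]⟩⟩,.a ⟨true,0,⟨0,[(17,0)]⟩,⟨0,[(14,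
  0)]⟩⟩ ⟨false,0,⟨0,[]⟩,⟨1,[(10,0),(0,0),(21,0)]⟩⟩ ⟨true,0,⟨0,[(0,0)]⟩,⟨0,[(17,0),(12,0)]⟩⟩]⟩) (.R
  ⟨0,false,false,false,[0,0,1],[0,1],[1,1,1],(⟨0,[(20,0)]⟩,⟨0,[(19,0)]⟩),(⟨0,[(25,0)]⟩,⟨0,[(24,
  0)]⟩),⟨0,[(9,0)]⟩,.k,.k,.k,.k,.k,.k,⟨true,0,⟨0,[(30,0)]⟩,⟨0,[(1,0)]⟩⟩,⟨false,1,⟨5,[(7,0),(6,3),
  (12,0),(4,3)]⟩,⟨0,[(17,0)]⟩⟩,⟨true,0,⟨0,[(16,0),(0,0)]⟩,⟨1,[(3,0),(28,0)]⟩⟩,⟨false,1,⟨0,[(16,0),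
  (14,0),(1,0)]⟩,⟨0,[(5,0)]⟩⟩,⟨false,0,⟨0,[]⟩,⟨0,[]⟩⟩,⟨false,0,⟨0,[]⟩,⟨0,[]⟩⟩,[.a ⟨true,0,⟨0,[(31,
  0)]⟩,⟨0,[(0,0),(13,0)]⟩⟩ ⟨false,0,⟨0,[(35,0)]⟩,⟨1,[(32,0),(0,0)]⟩⟩ ⟨true,0,⟨9,[(3,1),(3,0),(6,3),
  (1,3),(10,0),(0,3),(2,5)]⟩,⟨0,[(0,0)]⟩⟩,.o ⟨false,1,⟨9,[(10,0),(0,0),(15,1),(3,9),(1,4)]⟩,⟨0,[(30,
  0)]⟩⟩,.o ⟨false,1,⟨4,[(4,0),(1,1),(10,2),(9,0),(4,1)]⟩,⟨1,[(3,0),(12,1),(16,0)]⟩⟩,.e ⟨false,0,⟨0,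
  []⟩,⟨1,[(10,0),(0,0),(21,0)]⟩⟩ ⟨false,1,⟨5,[(7,0),(6,3),(12,0),(3,5),(0,0),(0,2)]⟩,⟨0,[(0,
  0)]⟩⟩]⟩)) (.Q [0,0,0,-1,0,0,0,0,0,1] (.pp false [-1,1]) (.Q [0,0,-1,0,1,0,1,0,0,-1,1] (.p true [0,
  0,1] [1] (⟨0,[(20,0)]⟩,⟨0,[(19,0)]⟩) .k 1 (⟨0,[]⟩,⟨0,[]⟩) .k .k) (.R ⟨0,false,false,false,[1,0,
  -1],[1,-1],[1],(⟨0,[(20,0)]⟩,⟨0,[(21,0)]⟩),(⟨0,[(25,0)]⟩,⟨0,[(26,0)]⟩),⟨0,[(9,0)]⟩,.k,.k,.k,.k,.k,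
  .k,⟨false,0,⟨0,[(32,0)]⟩,⟨9,[(1,9),(9,0),(0,0),(15,1),(4,4)]⟩⟩,⟨true,0,⟨0,[(18,0)]⟩,⟨1,[(4,0),(12,
  1),(16,0)]⟩⟩,⟨false,0,⟨1,[(4,0),(29,0)]⟩,⟨3,[(5,1),(5,0),(0,0),(20,0)]⟩⟩,⟨true,0,⟨0,[(6,0)]⟩,⟨0,
  [(17,0),(14,0)]⟩⟩,⟨false,0,⟨0,[]⟩,⟨0,[]⟩⟩,⟨false,0,⟨0,[]⟩,⟨0,[]⟩⟩,[.a ⟨true,0,⟨0,[(1,0)]⟩,⟨0,[(32,
  0)]⟩⟩ ⟨true,0,⟨0,[]⟩,⟨1,[(18,0),(0,0)]⟩⟩ ⟨false,1,⟨0,[(0,0),(0,0)]⟩,⟨9,[(4,1),(3,0),(6,3),(1,3),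
  (10,0),(0,3),(2,5)]⟩⟩,.o ⟨false,1,⟨9,[(1,9),(9,0),(0,0),(15,1),(5,4)]⟩,⟨0,[(9,0),(0,0),(11,1),(7,
  0),(1,0),(2,0)]⟩⟩,.o ⟨false,0,⟨1,[(4,0),(12,1),(16,0)]⟩,⟨16,[(0,6),(4,2),(10,5),(1,3),(9,1),(5,
  2)]⟩⟩,.o ⟨false,0,⟨0,[(19,0)]⟩,⟨0,[(0,0)]⟩⟩]⟩) (.I [0,0,0,0,1,0,0,0,-1] (.I [0,0,1,0,0,1,1] (.C
  [(0,0),(1,0),(8,0),(12,1),(7,1),(3,0)]) (.C [(0,0),(11,0),(7,0)])) (.C [(0,0),(11,0),(2,0)])))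
  (.Q [0,-1,0,1,1,0,-2,-2,0,0,-2] (.p false [0,0,1] [0,1,-1] (⟨0,[(20,0)]⟩,⟨0,[(19,0)]⟩) .k 2 (⟨0,
  [(9,0)]⟩,⟨0,[(20,0),(3,0)]⟩) .k (.x (-1) ⟨3,[(0,5),(0,5),(7,1),(7,7),(1,5),(1,1),(10,0),(0,2)]⟩
  ⟨2,[(3,1),(3,0),(0,0),(7,3),(3,4),(0,0),(11,1)]⟩)) (.R ⟨0,false,false,false,[0,0,1],[0,1,-1],[1,0,
  0,0,0,0,0,1],(⟨0,[(21,0)]⟩,⟨0,[(20,0)]⟩),(⟨0,[(10,0)]⟩,⟨0,[(21,0),(3,0)]⟩),⟨0,[(10,0)]⟩,.k,.k,.k,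
  (.r 0 ⟨23,[(3,11),(0,12),(3,4),(7,9),(11,0),(5,10)]⟩ ⟨0,[(5,0),(26,0)]⟩),.k,.k,⟨false,0,⟨3,[(3,1),
  (0,2),(28,1),(0,0)]⟩,⟨0,[(5,0),(26,0)]⟩⟩,⟨true,0,⟨0,[(0,0),(1,0),(1,0)]⟩,⟨0,[(18,1)]⟩⟩,⟨true,0,⟨0,
  []⟩,⟨0,[(36,0)]⟩⟩,⟨false,1,⟨0,[(0,0)]⟩,⟨0,[(6,0),(0,0)]⟩⟩,⟨false,0,⟨0,[]⟩,⟨0,[]⟩⟩,⟨false,0,⟨0,[]⟩,
  ⟨0,[]⟩⟩,[.o ⟨false,1,⟨34,[(0,18),(4,1),(10,6),(2,3),(7,5),(0,6),(3,15)]⟩,⟨0,[(6,0)]⟩⟩,.o ⟨false,1,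
  ⟨7,[(0,3),(0,2),(26,0),(3,0),(1,1)]⟩,⟨1,[(6,0),(9,0),(14,0)]⟩⟩,.o ⟨false,1,⟨4,[(5,0),(1,1),(10,2),
  (9,0),(4,1)]⟩,⟨6,[(0,1),(2,0),(0,1),(12,0),(1,1)]⟩⟩,.a ⟨true,0,⟨0,[(18,0)]⟩,⟨0,[(15,0)]⟩⟩ ⟨true,0,
  ⟨1,[(4,0),(28,0)]⟩,⟨0,[(17,0),(0,0)]⟩⟩ ⟨false,1,⟨1,[(0,1),(3,0),(28,0)]⟩,⟨0,[(6,0),(11,0)]⟩⟩]⟩)
  (.I [0,0,0,0,-1,0,0,2] (.R ⟨0,false,false,true,[0,0,1],[1,0,-1],[0,1,0,0,0,0,0,1],(⟨0,[(22,0)]⟩,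
  ⟨0,[(21,0)]⟩),(⟨0,[(21,0)]⟩,⟨0,[(22,0)]⟩),⟨0,[(11,0)]⟩,.k,.k,.k,.k,.k,.k,⟨true,(-1),⟨0,[(0,0)]⟩,
  ⟨0,[(6,0)]⟩⟩,⟨false,0,⟨1,[(5,0),(10,1),(1,1),(16,0)]⟩,⟨1,[(1,1),(0,1),(3,1),(27,0),(0,0)]⟩⟩,⟨true,
  0,⟨0,[(37,0)]⟩,⟨0,[]⟩⟩,⟨false,1,⟨2,[(6,1),(2,0),(6,1),(1,1),(16,0)]⟩,⟨0,[(1,0),(0,0),(32,0)]⟩⟩,
  ⟨false,0,⟨0,[]⟩,⟨0,[]⟩⟩,⟨false,0,⟨0,[]⟩,⟨0,[]⟩⟩,[.o ⟨false,0,⟨0,[(18,0)]⟩,⟨4,[(8,3),(8,0),(11,0),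
  (5,2)]⟩⟩,.o ⟨false,1,⟨19,[(6,9),(2,9),(2,0),(0,0),(15,1),(4,4)]⟩,⟨8,[(1,3),(0,3),(5,0),(20,0),(5,
  1)]⟩⟩,.o ⟨false,1,⟨4,[(6,0),(1,1),(10,2),(9,0),(4,1)]⟩,⟨1,[(5,0),(12,1),(16,0)]⟩⟩,.a ⟨true,0,⟨0,
  [(19,0)]⟩,⟨0,[(16,0)]⟩⟩ ⟨false,0,⟨1,[(5,0),(28,0)]⟩,⟨3,[(6,1),(12,0),(0,0),(14,1)]⟩⟩ ⟨true,0,⟨0,
  [(16,0),(1,0)]⟩,⟨8,[(1,3),(0,3),(5,0),(10,8),(9,0),(5,1)]⟩⟩]⟩) (.N [0,0,2] 1 ⟨0,[(5,0)]⟩ ⟨0,[(0,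
  0)]⟩ (.x (-1) ⟨8,[(0,8),(0,7),(0,7),(5,1),(12,17),(7,1),(5,3)]⟩ ⟨2,[(5,1),(3,0),(0,0),(7,3),(3,4),
  (0,0),(11,1)]⟩))))))) (.I [1,-1,0,0,0,0,0,1] (.Q [0,0,-1,0,0,0,-2,0,0,0,-2] (.p false [0,0,1] [0,
  1,-1] (⟨0,[(18,0)]⟩,⟨0,[(17,0)]⟩) .k 2 (⟨0,[(7,0)]⟩,⟨0,[(18,0),(3,0)]⟩) .k (.r 0 ⟨1,[(0,2),(12,0),
  (2,0),(7,0)]⟩ ⟨0,[(1,0)]⟩)) (.Q [0,-1,0,1,1,0,-1,-1,0,-1,-1] (.p false [1,-1,1] [] (⟨0,[(19,0),(3,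
  0)]⟩,⟨0,[(8,0)]⟩) .k 0 (⟨0,[]⟩,⟨0,[]⟩) .k .k) (.R ⟨0,false,false,false,[0,0,1],[0,1,-1],[0,1,1],
  (⟨0,[(20,0)]⟩,⟨0,[(19,0)]⟩),(⟨0,[(9,0)]⟩,⟨0,[(20,0),(3,0)]⟩),⟨0,[(9,0)]⟩,.k,.k,.k,(.r 0 ⟨0,[(1,0),
  (3,0),(0,0)]⟩ ⟨0,[(4,0),(26,0)]⟩),.k,.k,⟨false,0,⟨1,[(1,0),(3,1),(20,0)]⟩,⟨1,[(3,0),(27,1),(1,
  0)]⟩⟩,⟨true,0,⟨0,[(1,0)]⟩,⟨0,[(17,1)]⟩⟩,⟨true,0,⟨0,[(16,0),(0,0)]⟩,⟨0,[(2,0),(26,0)]⟩⟩,⟨false,1,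
  ⟨0,[(1,0),(1,0),(24,0)]⟩,⟨0,[(5,0),(0,0)]⟩⟩,⟨false,0,⟨0,[]⟩,⟨0,[]⟩⟩,⟨false,0,⟨0,[]⟩,⟨0,[]⟩⟩,[.o
  ⟨false,1,⟨23,[(0,18),(3,2),(10,0),(2,5),(7,8),(0,0),(3,4)]⟩,⟨0,[(5,0)]⟩⟩,.o ⟨false,1,⟨0,[(0,0)]⟩,
  ⟨1,[(5,0),(9,0),(14,0)]⟩⟩,.o ⟨false,1,⟨9,[(3,4),(2,7),(8,1),(11,1),(5,0)]⟩,⟨2,[(1,0),(16,0)]⟩⟩,.a
  ⟨true,0,⟨0,[(17,0)]⟩,⟨0,[(14,0)]⟩⟩ ⟨true,0,⟨0,[(35,0)]⟩,⟨0,[]⟩⟩ ⟨false,1,⟨0,[(0,0),(13,0)]⟩,⟨0,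
  [(5,0),(11,0)]⟩⟩]⟩) (.I [0,0,0,0,1,0,0,0,-1] (.I [0,1,-1,-1,-1,1,-1,1] (.C [(0,2),(1,4),(0,0),(1,
  3),(5,2),(11,5),(5,0),(0,3),(2,3),(1,1)]) (.C [(0,0),(1,0),(0,0),(6,0)])) (.C [(0,0),(10,0),(2,
  0)]))) (.I [0,0,-2,-2,1,0,0,1] (.K ⟨0,[0,1,-1],0,0,(⟨0,[(9,0)]⟩,⟨0,[(20,0),(3,0)]⟩),.k,.k,(.r 0
  ⟨1,[(1,0),(14,1),(11,2),(2,0),(3,0)]⟩ ⟨0,[(0,0)]⟩),(.r (-1) ⟨0,[(4,0),(26,0)]⟩ ⟨0,[(2,1),(26,0),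
  (0,0)]⟩),.k,[⟨0,[(1,0)]⟩,⟨0,[(2,0),(13,0)]⟩,⟨1,[(5,0),(9,0),(14,0)]⟩,⟨0,[(16,0),(14,0)]⟩]⟩) (.I
  [0,0,0,0,1,0,0,0,-1] (.I [0,0,-1,0,0,1,-1] (.C [(0,0),(1,0),(4,0),(3,0),(11,1),(7,0),(0,0),(2,
  0)]) (.C [(0,0),(9,0),(5,0)])) (.C [(0,0),(10,0),(2,0)])))) (.Q [0,0,-1,0,0,0,-2,0,0,0,-2] (.p
  false [0,0,1] [0,1,-1] (⟨0,[(18,0)]⟩,⟨0,[(17,0)]⟩) .k 2 (⟨0,[(7,0)]⟩,⟨0,[(18,0),(3,0)]⟩) .k (.x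
  (-1) ⟨1,[(0,1),(0,0),(1,3),(3,3),(11,3),(9,3),(1,0)]⟩ ⟨0,[(6,1),(5,1),(6,1),(12,1)]⟩)) (.R ⟨0,
  false,false,false,[0,0,1],[0,1,-1],[0,1,0,-1,0,0,0,1],(⟨0,[(19,0)]⟩,⟨0,[(18,0)]⟩),(⟨0,[(8,0)]⟩,⟨0,
  [(19,0),(3,0)]⟩),⟨0,[(8,0)]⟩,.k,.k,.k,(.r 0 ⟨0,[(0,0),(3,0),(0,0)]⟩ ⟨0,[(3,0),(26,0)]⟩),.k,.k,
  ⟨false,0,⟨0,[(0,0),(3,1),(23,0)]⟩,⟨0,[(2,0),(24,0),(2,0)]⟩⟩,⟨true,0,⟨0,[(0,0)]⟩,⟨0,[(16,1)]⟩⟩,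
  ⟨true,0,⟨0,[(29,0)]⟩,⟨0,[(30,0)]⟩⟩,⟨false,1,⟨0,[(0,0),(1,0),(24,0)]⟩,⟨0,[(4,0),(0,0)]⟩⟩,⟨false,0,
  ⟨0,[]⟩,⟨0,[]⟩⟩,⟨false,0,⟨0,[]⟩,⟨0,[]⟩⟩,[.o ⟨false,1,⟨3,[(0,0),(1,0),(0,0),(2,0),(19,0),(3,3)]⟩,⟨0,
  [(4,0)]⟩⟩,.o ⟨false,1,⟨15,[(0,7),(0,5),(0,4),(4,5),(0,5),(11,11),(5,1),(0,7),(2,7),(1,6)]⟩,⟨1,[(4,
  0),(9,0),(14,0)]⟩⟩,.o ⟨false,1,⟨9,[(2,4),(2,7),(8,1),(11,1),(5,0)]⟩,⟨2,[(0,0),(16,0)]⟩⟩,.a ⟨true,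
  0,⟨0,[(16,0)]⟩,⟨0,[(13,0)]⟩⟩ ⟨true,0,⟨1,[(0,0),(3,1),(20,0)]⟩,⟨0,[(1,0),(25,0)]⟩⟩ ⟨false,1,⟨1,[(0,
  1),(1,0),(27,1),(1,0)]⟩,⟨0,[(4,0),(11,0)]⟩⟩]⟩) (.Q [0,0,0,0,0,0,-1,0,0,0,-1] (.p false [0,0,1] []
  (⟨0,[(19,0)]⟩,⟨0,[(18,0)]⟩) .k 0 (⟨0,[]⟩,⟨0,[]⟩) .k .k) (.I [0,0,-2,-2,1,0,0,1] (.I [0,0,-1,-1,0,
  0,0,2] (.K ⟨0,[0,1,-1],0,0,(⟨0,[(11,0)]⟩,⟨0,[(22,0),(3,0)]⟩),.k,.k,(.r 0 ⟨1,[(3,0),(14,1),(11,2),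
  (2,0),(3,0)]⟩ ⟨0,[(1,0)]⟩),(.r (-1) ⟨0,[(6,0),(26,0)]⟩ ⟨0,[(0,0)]⟩),.k,[⟨0,[(3,0)]⟩,⟨0,[(2,0)]⟩,
  ⟨1,[(7,0),(9,0),(14,0)]⟩,⟨0,[(18,0),(14,0)]⟩]⟩) (.R ⟨0,false,false,false,[1,0,-1],[1,-1],[0,0,1],
  (⟨0,[(21,0)]⟩,⟨0,[(22,0)]⟩),(⟨0,[(26,0)]⟩,⟨0,[(27,0)]⟩),⟨0,[(10,0)]⟩,.k,.k,.k,.k,.k,.k,⟨false,0,
  ⟨4,[(0,0),(16,1),(2,1),(9,1),(2,1)]⟩,⟨1,[(0,0),(0,0),(5,0),(2,0),(0,0),(4,0),(6,1),(10,0)]⟩⟩,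
  ⟨true,0,⟨0,[(19,0)]⟩,⟨0,[(2,0)]⟩⟩,⟨false,0,⟨0,[(2,0),(4,0),(22,0)]⟩,⟨1,[(5,0),(28,0)]⟩⟩,⟨true,0,
  ⟨0,[(7,0)]⟩,⟨0,[(18,0),(14,0)]⟩⟩,⟨false,0,⟨0,[]⟩,⟨0,[]⟩⟩,⟨false,0,⟨0,[]⟩,⟨0,[]⟩⟩,[.a ⟨true,0,⟨0,
  [(0,0),(1,0),(4,1),(8,0)]⟩,⟨0,[(33,0)]⟩⟩ ⟨true,0,⟨2,[(3,0),(16,1)]⟩,⟨0,[]⟩⟩ ⟨false,1,⟨3,[(1,1),(1,
  1),(1,0),(28,0)]⟩,⟨0,[(2,0),(30,0)]⟩⟩,.o ⟨false,1,⟨0,[(32,0),(2,0)]⟩,⟨0,[(10,0),(0,0),(11,1),(7,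
  0),(1,0),(2,0)]⟩⟩,.o ⟨false,0,⟨0,[(2,0)]⟩,⟨39,[(3,12),(2,6),(10,13),(11,7),(4,9),(0,6)]⟩⟩,.o
  ⟨false,0,⟨0,[(20,0)]⟩,⟨15,[(3,7),(6,5),(0,5),(11,11),(5,1),(1,13),(2,4),(0,6)]⟩⟩]⟩)) (.I [0,0,0,
  -1,0,0,0,1] (.C [(0,0),(0,0),(2,0),(2,0),(2,0),(0,0),(4,0),(6,1),(7,0),(3,0)]) (.C [(0,0),(1,0),
  (4,0)]))) (.Q [0,0,0,1,0,0,0,0,0,-1] (.pp true [-1,1]) (.R ⟨0,false,false,false,[0,0,1],[0,1],[0,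
  1,1],(⟨0,[(21,0)]⟩,⟨0,[(20,0)]⟩),(⟨0,[(26,0)]⟩,⟨0,[(25,0)]⟩),⟨0,[(10,0)]⟩,.k,.k,.k,.k,.k,.k,⟨true,
  0,⟨0,[(31,0)]⟩,⟨0,[(29,0)]⟩⟩,⟨false,1,⟨5,[(8,0),(6,3),(12,0),(4,3)]⟩,⟨0,[(18,0)]⟩⟩,⟨true,0,⟨2,[(2,
  1),(14,2),(1,0)]⟩,⟨0,[(0,0),(5,0),(8,0)]⟩⟩,⟨false,1,⟨1,[(0,0),(3,0),(3,0),(23,0),(1,0)]⟩,⟨0,[(6,
  0)]⟩⟩,⟨false,0,⟨0,[]⟩,⟨0,[]⟩⟩,⟨false,0,⟨0,[]⟩,⟨0,[]⟩⟩,[.o ⟨false,0,⟨0,[(0,0)]⟩,⟨1,[(11,0),(0,0),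
  (18,1),(2,0)]⟩⟩,.o ⟨false,1,⟨9,[(11,0),(0,0),(15,1),(3,9),(1,4)]⟩,⟨0,[(31,0)]⟩⟩,.a ⟨true,0,⟨0,[(1,
  0)]⟩,⟨2,[(2,0),(5,1),(6,0)]⟩⟩ ⟨false,0,⟨2,[(2,0),(16,1)]⟩,⟨1,[(33,0),(0,0)]⟩⟩ ⟨true,0,⟨1,[(0,0),
  (7,0),(23,0)]⟩,⟨0,[(1,0),(29,0)]⟩⟩,.e ⟨true,0,⟨0,[(36,0)]⟩,⟨0,[]⟩⟩ ⟨true,0,⟨0,[(0,0),(14,0)]⟩,⟨2,
  [(2,1),(16,0),(11,2)]⟩⟩]⟩) (.R ⟨0,false,false,false,[0,1,-1],[0,1],[1],(⟨0,[(10,0)]⟩,⟨0,[(21,0),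
  (3,0)]⟩),(⟨0,[(26,0)]⟩,⟨0,[(25,0)]⟩),⟨0,[(21,0)]⟩,.k,.k,.k,.k,.k,.k,⟨false,1,⟨0,[(0,0),(8,0),(0,
  0),(11,1),(7,1),(3,0)]⟩,⟨0,[(29,0),(6,0)]⟩⟩,⟨true,0,⟨0,[(1,0)]⟩,⟨0,[(19,0)]⟩⟩,⟨false,1,⟨5,[(6,5),
  (1,0),(6,3),(12,0),(4,0),(0,2)]⟩,⟨0,[(3,0),(25,0)]⟩⟩,⟨true,0,⟨0,[(7,0)]⟩,⟨0,[(17,0)]⟩⟩,⟨false,0,
  ⟨0,[]⟩,⟨0,[]⟩⟩,⟨false,0,⟨0,[]⟩,⟨0,[]⟩⟩,[.a ⟨true,0,⟨0,[(32,0)]⟩,⟨0,[(0,0)]⟩⟩ ⟨true,0,⟨0,[]⟩,⟨2,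
  [(2,0),(16,1)]⟩⟩ ⟨false,0,⟨0,[(1,0),(30,0)]⟩,⟨2,[(0,2),(7,0),(6,0),(12,0),(4,0)]⟩⟩,.o ⟨false,1,⟨9,
  [(11,0),(0,0),(15,1),(3,9),(1,4)]⟩,⟨0,[(31,0)]⟩⟩,.o ⟨false,1,⟨2,[(8,0),(6,0),(12,0),(4,0)]⟩,⟨0,
  [(18,0)]⟩⟩,.o ⟨false,1,⟨45,[(5,5),(2,28),(2,0),(0,0),(3,11),(11,14),(4,2),(0,5)]⟩,⟨0,[(1,
  0)]⟩⟩]⟩)))))))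

theorem ok83 : chk K t83 r1 = true := by decide +kernel


end Helper48.Y.Y11_c2_P2_m0n0
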