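import Pool.Agent.Helper48.Y.Y11_c2_P2_m0n0_q

set_option autoImplicit false
set_option linter.all false

namespace Helper48.Y.Y11_c2_P2_m0n0

open Helper25.KG Helper25.KW Helper55.KE Helper11.CT

noncomputable def t85 : Tre :=
  (.Q [0,-1,0,0,1,0,2,2,0,-1,2] (.p true [0,0,1] [1,0,-1] (⟨0,[(15,0)]⟩,⟨0,[(14,0)]⟩) .k 2 (⟨0,[(14,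
  0)]⟩,⟨0,[(15,0)]⟩) .k (.r 0 ⟨1,[(0,1),(11,0),(0,0)]⟩ ⟨0,[(1,1),(10,1),(14,0)]⟩)) (.Q [0,0,0,0,1,0,
  2,0,0,-1,2] (.p true [0,0,1] [1,0,-1] (⟨0,[(16,0)]⟩,⟨0,[(15,0)]⟩) .k 2 (⟨0,[(15,0)]⟩,⟨0,[(16,
  0)]⟩) .k (.r 0 ⟨1,[(1,1),(11,0),(0,0)]⟩ ⟨0,[(2,1),(10,1),(14,0)]⟩)) (.R ⟨0,false,false,true,[0,0,
  1],[1,0,-1],[0,1,1,0,0,0,0,-1],(⟨0,[(17,0)]⟩,⟨0,[(16,0)]⟩),(⟨0,[(16,0)]⟩,⟨0,[(17,0)]⟩),⟨0,[(6,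
  0)]⟩,.k,.k,.k,.k,.k,.k,⟨true,0,⟨1,[(14,0),(0,0)]⟩,⟨0,[]⟩⟩,⟨false,0,⟨2,[(2,0),(0,1),(0,0),(6,1)]⟩,
  ⟨0,[(0,0)]⟩⟩,⟨true,0,⟨0,[(3,1),(10,1),(11,0)]⟩,⟨0,[(2,0)]⟩⟩,⟨false,0,⟨0,[(3,1),(12,0),(0,0)]⟩,⟨0,
  [(1,0)]⟩⟩,⟨false,0,⟨0,[]⟩,⟨0,[]⟩⟩,⟨false,0,⟨0,[]⟩,⟨0,[]⟩⟩,[.o ⟨false,0,⟨0,[(13,0)]⟩,⟨19,[(1,9),(5,
  0),(0,0),(15,1),(5,4)]⟩⟩,.o ⟨false,0,⟨0,[(3,0)]⟩,⟨30,[(1,10),(5,11),(0,11),(3,8),(11,3),(7,1)]⟩⟩,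
  .o ⟨false,1,⟨49,[(0,24),(6,13),(0,13),(15,4),(5,0),(1,1)]⟩,⟨2,[(2,0),(0,1),(11,0)]⟩⟩,.a ⟨true,0,
  ⟨0,[(14,0)]⟩,⟨0,[(11,0)]⟩⟩ ⟨true,0,⟨0,[(3,0),(10,0),(11,0)]⟩,⟨3,[(2,1),(11,0),(0,0)]⟩⟩ ⟨false,0,
  ⟨0,[(3,0),(7,0)]⟩,⟨11,[(0,0),(0,5),(12,10),(0,0),(8,0),(5,2)]⟩⟩]⟩) (.I [0,0,1,0,0,0,0,-1] (.I [0,
  0,0,0,1,0,0,0,-1] (.I [0,-1,0,0,0,0,0,2] (.I [0,0,1,0,0,1,1] (.C [(0,0),(3,0),(4,0),(8,0),(3,1),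
  (7,1),(3,0)]) (.C [(0,0),(9,0),(7,0)])) (.C [(0,0),(2,0),(0,0)])) (.C [(0,0),(8,0),(2,0)])) (.C
  [(0,0),(3,0),(10,0)]))) (.I [0,0,-1,-1,1,0,0,-2] (.Q [0,0,-1,0,1,0,1,0,0,-1,1] (.p true [0,0,1]
  [1] (⟨0,[(17,0)]⟩,⟨0,[(16,0)]⟩) .k 1 (⟨0,[]⟩,⟨0,[]⟩) .k .k) (.Q [0,0,0,-1,0,0,0,0,0,1] (.pp false
  [-1,1]) (.R ⟨0,false,false,false,[1,0,-1],[1,-1],[1],(⟨0,[(18,0)]⟩,⟨0,[(19,0)]⟩),(⟨0,[(23,0)]⟩,⟨0,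
  [(24,0)]⟩),⟨0,[(7,0)]⟩,.k,.k,.k,.k,.k,.k,⟨false,0,⟨0,[(30,0)]⟩,⟨1,[(29,1),(1,0),(0,0)]⟩⟩,⟨true,0,
  ⟨0,[(16,0)]⟩,⟨13,[(3,3),(0,3),(1,0),(10,3),(8,0),(5,1)]⟩⟩,⟨true,0,⟨3,[(4,1),(11,0),(0,0)]⟩,⟨21,
  [(1,2),(0,2),(0,7),(12,12),(8,6),(0,0),(3,2)]⟩⟩,⟨false,1,⟨7,[(0,6),(0,0),(0,0),(1,4),(2,0),(0,0),
  (7,6),(3,1),(5,0),(5,3)]⟩,⟨19,[(2,0),(0,8),(2,0),(19,1),(0,0),(2,19),(1,3)]⟩⟩,⟨false,0,⟨0,[]⟩,⟨0,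
  []⟩⟩,⟨false,0,⟨0,[]⟩,⟨0,[]⟩⟩,[.a ⟨true,0,⟨0,[(0,0)]⟩,⟨0,[(30,0)]⟩⟩ ⟨true,0,⟨0,[]⟩,⟨1,[(16,0),(0,
  0)]⟩⟩ ⟨false,1,⟨0,[(0,0),(0,0)]⟩,⟨9,[(3,1),(0,1),(1,2),(19,0),(0,1),(2,7)]⟩⟩,.o ⟨false,1,⟨0,[(29,
  0),(2,0)]⟩,⟨16,[(3,7),(0,6),(2,4),(0,4),(5,1),(1,13),(3,9),(5,3),(1,6),(1,16)]⟩⟩,.o ⟨false,0,⟨13,
  [(3,3),(0,3),(1,0),(10,3),(8,0),(5,1)]⟩,⟨49,[(1,24),(7,13),(0,13),(5,24),(9,4),(5,0),(1,1)]⟩⟩,.o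
  ⟨false,0,⟨0,[(17,0)]⟩,⟨0,[(1,0)]⟩⟩]⟩) (.I [0,0,0,1,0,-1] (.I [0,0,0,1,0,0,0,0,1] (.I [0,0,0,0,1,0,
  0,0,-1] (.I [0,0,1,0,0,1,1] (.I [0,1,2,1,-1,0,0,-2] (.C [(0,0),(0,0),(5,0),(0,0),(0,2),(2,0),(8,
  0),(3,1),(11,0)]) (.C [(0,0),(4,0),(2,0),(12,1)])) (.C [(0,0),(11,0),(7,0)])) (.C [(0,0),(11,0),
  (2,0)])) (.C [(0,0),(1,0),(9,0),(0,0)])) (.C [(0,0),(0,0),(22,0)]))) (.I [0,0,1,0,0,0,0,-1] (.I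
  [0,0,0,0,1,0,0,0,-1] (.I [0,0,1,0,0,1,1] (.C [(0,0),(2,0),(5,0),(12,1),(7,1),(3,0)]) (.C [(0,0),
  (9,0),(7,0)])) (.C [(0,0),(9,0),(2,0)])) (.C [(0,9),(2,4),(12,9),(9,0),(1,0),(3,2),(0,0)]))) (.Q
  [0,0,0,1,0,0,0,0,0,-1] (.pp true [-1,1]) (.Q [0,0,-1,0,1,0,1,0,0,-1,1] (.p true [0,0,1] [1] (⟨0,
  [(18,0)]⟩,⟨0,[(17,0)]⟩) .k 1 (⟨0,[]⟩,⟨0,[]⟩) .k .k) (.Q [0,0,0,0,1,0,1,0,0,-2,1] (.p true [-1,1,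
  1] [1] (⟨0,[(7,0)]⟩,⟨0,[(18,0),(4,0)]⟩) .k 1 (⟨0,[]⟩,⟨0,[]⟩) .k .k) (.R ⟨0,false,false,false,[-1,
  1,1],[0,0,1],[1,0,0,0,0,0,0,1],(⟨0,[(8,0)]⟩,⟨0,[(19,0),(4,0)]⟩),(⟨0,[(20,0)]⟩,⟨0,[(19,0)]⟩),⟨0,
  [(19,0)]⟩,.k,.k,.k,.k,.k,.k,⟨true,0,⟨0,[]⟩,⟨1,[(17,0),(0,0)]⟩⟩,⟨false,0,⟨0,[(19,0),(0,0)]⟩,⟨9,
  [(10,0),(0,0),(15,1),(4,4)]⟩⟩,⟨true,1,⟨1,[(30,1),(1,0),(0,0)]⟩,⟨1,[(2,0),(0,0),(0,0),(12,1),(11,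
  0)]⟩⟩,⟨false,1,⟨0,[(19,0),(0,0),(9,0),(2,0)]⟩,⟨0,[(2,0)]⟩⟩,⟨false,0,⟨0,[]⟩,⟨0,[]⟩⟩,⟨false,0,⟨0,
  []⟩,⟨0,[]⟩⟩,[.o ⟨false,1,⟨9,[(10,0),(0,0),(3,9),(11,1),(5,4)]⟩,⟨0,[(6,0)]⟩⟩,.o ⟨false,1,⟨1,[(0,0),
  (4,0),(11,0),(15,0)]⟩,⟨0,[(16,0)]⟩⟩,.a ⟨true,1,⟨0,[(1,0)]⟩,⟨0,[(4,1),(0,1),(11,2),(15,0)]⟩⟩ ⟨true,
  0,⟨6,[(3,0),(1,1),(9,0),(2,0),(11,0),(2,0)]⟩,⟨4,[(1,1),(2,1),(11,0),(0,2),(8,0)]⟩⟩ ⟨false,0,⟨1,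
  [(3,0),(0,0),(0,0),(11,1),(1,0),(0,0),(9,0),(2,1)]⟩,⟨10,[(1,10),(2,4),(11,0),(10,0),(5,2)]⟩⟩,.o
  ⟨false,1,⟨0,[(0,0)]⟩,⟨1,[(7,0),(11,0),(0,0)]⟩⟩]⟩) (.I [0,0,-1,1] (.C [(0,0),(0,0),(1,0),(5,0),(0,
  0),(7,0),(3,1),(8,1),(2,0)]) (.C [(0,0),(0,0),(0,0),(0,0)]))) (.I [0,0,0,1,0,0,0,0,1] (.I [0,0,0,
  0,1,0,0,0,-1] (.I [0,0,1,0,0,1,1] (.C [(0,0),(2,0),(6,0),(12,1),(7,1),(3,0)]) (.C [(0,0),(10,0),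
  (7,0)])) (.C [(0,0),(10,0),(2,0)])) (.C [(0,0),(1,0),(8,0),(0,0)]))) (.I [1,0,-1,-1,1,0,0,-2] (.N
  [0,1,2] 1 ⟨0,[(2,0)]⟩ ⟨0,[(0,0)]⟩ (.x (-2) ⟨7,[(8,5),(7,15),(1,9),(1,13),(5,1),(1,17),(2,2),(0,
  8)]⟩ ⟨11,[(1,8),(0,8),(0,9),(0,0),(2,13),(9,3),(1,9),(0,1),(5,0),(5,4)]⟩)) (.I [0,0,1,0,0,0,0,-1]
  (.I [0,0,0,0,1,0,0,0,-1] (.I [0,0,0,-1,0,2] (.I [0,0,1,0,0,1,1] (.C [(0,1),(3,0),(0,0),(1,0),(3,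
  1),(12,3),(7,2),(3,1)]) (.C [(0,0),(11,0),(7,0)])) (.C [(0,0),(3,0),(5,0),(0,0)])) (.C [(0,0),(10,
  0),(2,0)])) (.C [(0,17),(0,0),(2,9),(12,19),(9,1),(1,2),(0,0),(2,6)]))))))

theorem ok85 : chk K t85 l43 = true := by decide +kernel

noncomputable def t86 : Tre :=
  (.I [1,0,-1,-1,1,0,0,1] (.R ⟨2,true,false,true,[0,1],[0,0,1],[0,1,1,1],(⟨0,[]⟩,⟨0,[]⟩),(⟨0,[(18,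
  0)]⟩,⟨0,[(17,0)]⟩),⟨0,[]⟩,.k,.k,.k,.k,.k,.k,⟨false,0,⟨0,[(2,0),(12,0),(11,0)]⟩,⟨0,[(0,0)]⟩⟩,⟨true,
  0,⟨0,[(15,0)]⟩,⟨0,[(1,0)]⟩⟩,⟨true,0,⟨0,[(33,0)]⟩,⟨0,[]⟩⟩,⟨false,1,⟨0,[(0,0),(14,0)]⟩,⟨0,[(2,0)]⟩⟩,
  ⟨false,0,⟨0,[(29,0)]⟩,⟨0,[(28,0),(2,0)]⟩⟩,⟨true,0,⟨0,[(13,0)]⟩,⟨0,[(4,0)]⟩⟩,[]⟩) (.I [0,0,0,0,1,0,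
  0,0,-1] (.I [0,1,0,0,0,0,0,1] (.I [0,0,-1,0,0,1,-1] (.C [(0,0),(2,0),(6,0),(5,0),(5,1),(8,0),(2,
  0)]) (.C [(0,0),(8,0),(5,0)])) (.C [(0,0),(2,0),(11,0)])) (.C [(0,0),(8,0),(2,0)])))

theorem ok86 : chk K t86 l45 = true := by decide +kernel

noncomputable def t87 : Tre :=
  (.R ⟨2,true,false,true,[0,1],[1,0,0,0,-1],[0,0,1,1],(⟨0,[]⟩,⟨0,[]⟩),(⟨0,[(10,0)]⟩,⟨0,[(11,0)]⟩),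
  ⟨0,[]⟩,.k,.k,.k,(.r 0 ⟨0,[(26,0),(6,0)]⟩ ⟨1,[(28,1),(1,0),(0,0)]⟩),.k,.k,⟨true,0,⟨0,[(26,0)]⟩,⟨0,
  [(28,0)]⟩⟩,⟨false,1,⟨0,[(8,0),(8,0),(0,0)]⟩,⟨1,[(0,1),(27,1),(1,0),(0,0)]⟩⟩,⟨false,1,⟨1,[(8,0),(0,
  0),(21,0)]⟩,⟨0,[]⟩⟩,⟨true,1,⟨0,[(8,0),(8,0),(0,0),(9,0)]⟩,⟨0,[(0,0)]⟩⟩,⟨true,0,⟨0,[(29,0)]⟩,⟨0,
  [(28,0)]⟩⟩,⟨false,1,⟨0,[(8,0),(13,0),(0,0)]⟩,⟨0,[(0,0),(27,0),(2,0)]⟩⟩,[]⟩)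

theorem ok87 : chk K t87 l46 = true := by decide +kernel

noncomputable def t88 : Tre :=
  (.Q [0,0,-2,0,1,0,1,0,0,-1,1] (.p true [0,0,1] [1] (⟨0,[(20,0)]⟩,⟨0,[(19,0)]⟩) .k 1 (⟨0,[]⟩,⟨0,
  []⟩) .k .k) (.I [1,0,-1,0,0,0,0,-1] (.R ⟨0,false,false,false,[1,0,-1],[0,1],[0,1,1],(⟨0,[(21,0)]⟩,
  ⟨0,[(22,0)]⟩),(⟨0,[(27,0)]⟩,⟨0,[(26,0)]⟩),⟨0,[(10,0)]⟩,.k,.k,.k,.k,.k,.k,⟨true,0,⟨0,[(32,0)]⟩,⟨0,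
  [(30,0)]⟩⟩,⟨false,1,⟨0,[(1,0)]⟩,⟨0,[(9,0),(9,0)]⟩⟩,⟨true,0,⟨0,[(17,0),(2,0)]⟩,⟨0,[(0,0)]⟩⟩,⟨false,
  1,⟨0,[(3,0),(13,0),(17,0)]⟩,⟨0,[(2,0)]⟩⟩,⟨false,0,⟨0,[]⟩,⟨0,[]⟩⟩,⟨false,0,⟨0,[]⟩,⟨0,[]⟩⟩,[.o
  ⟨false,0,⟨0,[(3,0)]⟩,⟨8,[(4,4),(8,4),(15,0),(2,3),(2,1)]⟩⟩,.o ⟨false,1,⟨9,[(12,0),(0,0),(15,1),(3,
  9),(1,4)]⟩,⟨0,[(32,0)]⟩⟩,.a ⟨true,0,⟨1,[(9,0),(11,0),(0,0)]⟩,⟨0,[(5,0)]⟩⟩ ⟨false,0,⟨1,[(19,0),(0,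
  0)]⟩,⟨1,[(34,0),(0,0)]⟩⟩ ⟨true,0,⟨0,[(3,0),(1,0)]⟩,⟨1,[(2,0),(6,0),(7,0),(14,0)]⟩⟩,.o ⟨false,0,⟨0,
  [(20,0)]⟩,⟨28,[(1,18),(5,0),(4,4),(0,4),(3,1),(1,7),(9,1),(5,0)]⟩⟩]⟩) (.I [0,0,0,1,0,-1] (.I [0,0,
  -1,1] (.I [-1,0,0,0,1,0,0,0,-1] (.I [0,0,0,0,0,1,1] (.I [0,0,0,1,0,0,0,0,1] (.I [0,-1,0,1,0,0,0,
  -1] (.C [(0,0),(1,0),(3,0),(9,0),(5,0),(6,1),(8,0)]) (.C [(0,0),(10,0),(0,0)])) (.C [(0,0),(7,0),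
  (9,0),(0,0)])) (.C [(0,0),(8,0),(5,0)])) (.C [(0,0),(5,0),(0,0),(10,0)])) (.C [(0,0),(4,0),(1,0),
  (10,0)])) (.C [(0,0),(3,0),(22,0)]))) (.I [0,0,-1,1] (.C [(0,0),(0,0),(1,0),(1,1),(4,0),(0,0),(4,
  0),(6,1),(8,1),(2,0)]) (.C [(0,0),(2,0),(1,0),(10,0)])))

theorem ok88 : chk K t88 l48 = true := by decide +kernel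

noncomputable def t89 : Tre :=
  (.Q [0,0,-1,0,1,0,1,0,-1,0,1,-1] (.p true [0,0,1] [0,0,0,0,1] (⟨0,[(21,0)]⟩,⟨0,[(20,0)]⟩) .k 2
  (⟨0,[(14,0)]⟩,⟨0,[(13,0)]⟩) .k (.r (-1) ⟨49,[(8,24),(2,8),(0,8),(3,49),(11,4),(5,30),(1,11)]⟩ ⟨0,
  [(4,0),(2,0)]⟩)) (.R ⟨0,false,false,true,[1,0,-1],[1,0,0,0,-1],[0,1],(⟨0,[(21,0)]⟩,⟨0,[(22,0)]⟩),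
  (⟨0,[(14,0)]⟩,⟨0,[(15,0)]⟩),⟨0,[(10,0)]⟩,.k,.k,.k,.k,.k,.k,⟨true,0,⟨0,[]⟩,⟨1,[(19,0),(0,0)]⟩⟩,
  ⟨false,1,⟨0,[(0,0)]⟩,⟨3,[(1,2),(11,0),(6,0),(7,0),(8,0)]⟩⟩,⟨true,0,⟨1,[(2,0),(6,0),(7,0),(14,0)]⟩,
  ⟨0,[(5,0),(2,0)]⟩⟩,⟨false,1,⟨0,[(2,0),(1,0)]⟩,⟨0,[(1,0),(3,0),(2,0)]⟩⟩,⟨false,0,⟨0,[]⟩,⟨0,[]⟩⟩,
  ⟨false,0,⟨0,[]⟩,⟨0,[]⟩⟩,[.e ⟨false,0,⟨0,[(31,0)]⟩,⟨1,[(12,0),(0,0),(21,0)]⟩⟩ ⟨false,1,⟨11,[(0,9),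
  (6,0),(4,1),(4,1),(10,2),(8,3)]⟩,⟨0,[(1,0)]⟩⟩,.o ⟨false,1,⟨0,[(3,0),(0,0)]⟩,⟨0,[(1,0),(1,0),(1,0),
  (26,0)]⟩⟩,.a ⟨true,0,⟨1,[(9,0),(11,0),(0,0)]⟩,⟨0,[(5,0)]⟩⟩ ⟨true,0,⟨0,[(37,0)]⟩,⟨0,[]⟩⟩ ⟨false,1,
  ⟨3,[(0,2),(11,0),(6,0),(16,1)]⟩,⟨0,[(1,0)]⟩⟩,.o ⟨false,0,⟨0,[(20,0)]⟩,⟨4,[(0,0),(4,3),(7,0),(15,
  0),(4,1)]⟩⟩]⟩) (.I [-1,0,1,0,0,0,0,1] (.I [0,0,0,0,0,1,1] (.C [(0,0),(0,0),(5,0),(0,0),(3,0),(5,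
  0),(6,1),(8,0)]) (.C [(0,0),(6,0),(5,0)])) (.C [(0,0),(0,0),(1,0),(1,0)])))

theorem ok89 : chk K t89 l49 = true := by decide +kernel

noncomputable def t90 : Tre :=
  (.Q [-1,-1,-1,0,1,0,-1,0,-1,1,-1,-1] (.p false [0,0,1] [1,0,0,0,-1] (⟨0,[(23,0)]⟩,⟨0,[(22,0)]⟩)
  .k 2 (⟨0,[(15,0)]⟩,⟨0,[(16,0)]⟩) .k (.r (-1) ⟨9,[(10,4),(2,2),(0,2),(3,9),(11,0),(5,4)]⟩ ⟨0,[(6,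
  0),(0,0),(25,0)]⟩)) (.Q [-1,-1,0,0,1,0,0,0,-1,0,0,-1] (.p false [0,0,0,0,1] [] (⟨0,[(17,0)]⟩,⟨0,
  [(16,0)]⟩) .k 0 (⟨0,[]⟩,⟨0,[]⟩) .k .k) (.R ⟨0,false,false,false,[0,0,1],[1,0,0,0,-1],[1],(⟨0,[(25,
  0)]⟩,⟨0,[(24,0)]⟩),(⟨0,[(17,0)]⟩,⟨0,[(18,0)]⟩),⟨0,[(14,0)]⟩,.k,.k,.k,.k,.k,.k,⟨true,0,⟨0,[]⟩,⟨0,
  [(39,0)]⟩⟩,⟨false,1,⟨5,[(1,3),(5,0),(4,0),(2,0),(15,1),(4,0)]⟩,⟨0,[(2,0),(5,0),(0,0),(25,0)]⟩⟩,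
  ⟨true,0,⟨0,[(8,0),(2,0)]⟩,⟨1,[(5,0),(6,0),(7,0),(14,0)]⟩⟩,⟨false,1,⟨5,[(1,4),(5,0),(2,2),(12,0),
  (9,0)]⟩,⟨0,[(2,0)]⟩⟩,⟨false,0,⟨0,[]⟩,⟨0,[]⟩⟩,⟨false,0,⟨0,[]⟩,⟨0,[]⟩⟩,[.o ⟨false,1,⟨2,[(0,0),(14,
  1),(24,0)]⟩,⟨0,[(3,0)]⟩⟩,.o ⟨false,1,⟨0,[(0,0)]⟩,⟨0,[(3,0),(36,0)]⟩⟩,.a ⟨true,0,⟨0,[(8,0)]⟩,⟨1,
  [(12,0),(11,0),(0,0)]⟩⟩ ⟨true,0,⟨0,[]⟩,⟨0,[(40,0)]⟩⟩ ⟨false,1,⟨2,[(1,1),(5,0),(15,0),(9,0)]⟩,⟨0,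
  [(3,0),(4,0)]⟩⟩,.e ⟨false,1,⟨1,[(37,0),(0,0)]⟩,⟨1,[(22,0),(0,0)]⟩⟩ ⟨false,1,⟨0,[(1,0)]⟩,⟨0,[(3,0),
  (18,0)]⟩⟩]⟩) (.I [-1,1,1,0,0,0,0,0,-1] (.I [-1,0,0,1,0,0,0,-1,-1] (.I [0,0,-1,0,0,1,-1] (.C [(0,
  0),(2,0),(3,0),(9,0),(11,1),(11,0),(0,0)]) (.C [(0,0),(2,0),(0,0),(11,0)])) (.C [(0,0),(5,0),(4,
  0),(8,0)])) (.C [(0,0),(4,0),(13,0),(4,0)]))) (.I [-1,1,1,0,0,0,0,0,-1] (.I [0,0,-1,0,0,1,-1] (.C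
  [(0,0),(1,0),(2,0),(9,0),(4,0),(6,1),(11,0),(0,0)]) (.C [(0,0),(13,0),(5,0)])) (.C [(0,0),(3,0),
  (13,0),(4,0)])))

theorem ok90 : chk K t90 l51 = true := by decide +kernel

noncomputable def t91 : Tre :=
  (.R ⟨0,false,false,true,[1,0,-1],[1,0,0,0,-1],[1,1],(⟨0,[(23,0)]⟩,⟨0,[(24,0)]⟩),(⟨0,[(16,0)]⟩,⟨0,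
  [(17,0)]⟩),⟨0,[(12,0)]⟩,.k,.k,.k,.k,.k,.k,⟨true,0,⟨0,[]⟩,⟨0,[(38,0)]⟩⟩,⟨false,1,⟨1,[(3,1),(32,0),
  (0,0)]⟩,⟨2,[(2,1),(8,0),(3,0),(2,0),(19,0)]⟩⟩,⟨true,0,⟨1,[(4,0),(6,0),(7,0),(14,0)]⟩,⟨0,[(7,0),(2,
  0)]⟩⟩,⟨false,1,⟨0,[(4,0),(1,0)]⟩,⟨0,[(0,0)]⟩⟩,⟨false,0,⟨0,[]⟩,⟨0,[]⟩⟩,⟨false,0,⟨0,[]⟩,⟨0,[]⟩⟩,[.o
  ⟨false,0,⟨0,[(1,0),(2,0),(29,0)]⟩,⟨9,[(14,0),(0,10),(15,1),(5,4)]⟩⟩,.o ⟨false,1,⟨23,[(1,4),(2,4),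
  (1,4),(7,13),(16,0),(5,2),(1,5)]⟩,⟨0,[(2,0)]⟩⟩,.a ⟨true,0,⟨1,[(11,0),(11,0),(0,0)]⟩,⟨0,[(7,0)]⟩⟩
  ⟨false,0,⟨0,[]⟩,⟨1,[(14,0),(0,0),(21,0)]⟩⟩ ⟨true,0,⟨0,[(3,0)]⟩,⟨1,[(2,0),(8,0),(3,0)]⟩⟩,.o ⟨false,
  0,⟨0,[(22,0)]⟩,⟨4,[(7,3),(13,0),(9,0),(4,2)]⟩⟩]⟩)

theorem ok91 : chk K t91 l52 = true := by decide +kernel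

noncomputable def t92 : Tre :=
  (.K ⟨0,[1,0,0,0,-1],0,0,(⟨0,[(18,0)]⟩,⟨0,[(19,0)]⟩),.k,(.r (-1) ⟨1,[(36,1),(1,0),(0,0)]⟩ ⟨0,[(34,
  0),(6,0)]⟩),(.r 0 ⟨0,[(34,0),(6,0)]⟩ ⟨1,[(36,1),(1,0),(0,0)]⟩),.k,.k,[⟨0,[(1,0)]⟩,⟨0,[(0,0)]⟩,⟨0,
  [(4,0),(36,0)]⟩,⟨4,[(0,2),(4,1),(14,1),(11,0),(8,0)]⟩]⟩)

theorem ok92 : chk K t92 l54 = true := by decide +kernel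

noncomputable def t93 : Tre :=
  (.I [0,-1,-1,-1,1] (.I [0,0,-2,-2,1] (.Q [-1,1,1,-1,0,0,1,0,-1,1,1,-1] (.p false [0,0,-1,0,1] [1]
  (⟨0,[(2,0)]⟩,⟨0,[(23,0),(7,0)]⟩) .k 1 (⟨0,[]⟩,⟨0,[]⟩) .k (.r 0 ⟨2,[(5,0),(2,0),(5,0),(1,0)]⟩ ⟨49,
  [(18,24),(2,8),(0,8),(3,49),(11,4),(5,30),(1,11)]⟩)) (.R ⟨0,false,false,false,[-1,1,0,0,1],[0,1],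
  [2,0,1,1],(⟨0,[(5,0)]⟩,⟨0,[(24,0),(11,0)]⟩),(⟨0,[(37,0)]⟩,⟨0,[(36,0)]⟩),⟨0,[(24,0)]⟩,(.r 0 ⟨0,
  [(40,0),(6,0)]⟩ ⟨30,[(1,8),(0,2),(11,9),(8,9),(15,1),(4,4),(2,2)]⟩),.k,.k,.k,.k,.k,⟨true,0,⟨0,[]⟩,
  ⟨0,[(46,0)]⟩⟩,⟨false,1,⟨3,[(0,0),(7,0),(0,0),(4,0),(11,0),(16,1),(0,1),(0,0)]⟩,⟨3,[(4,0),(2,0),(2,
  1),(35,0)]⟩⟩,⟨true,0,⟨0,[]⟩,⟨0,[(47,0)]⟩⟩,⟨false,1,⟨3,[(0,0),(7,0),(0,0),(4,0),(11,0),(16,1),(1,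
  2)]⟩,⟨0,[(10,0)]⟩⟩,⟨false,0,⟨0,[]⟩,⟨0,[]⟩⟩,⟨false,0,⟨0,[]⟩,⟨0,[]⟩⟩,[.o ⟨false,0,⟨0,[(13,0)]⟩,⟨7,
  [(0,0),(1,1),(11,3),(8,4),(6,0),(8,0),(2,0)]⟩⟩,.o ⟨false,1,⟨9,[(22,0),(0,0),(15,1),(3,9),(1,4)]⟩,
  ⟨0,[(42,0)]⟩⟩,.a ⟨true,0,⟨0,[(6,0)]⟩,⟨0,[(0,0),(25,0),(13,0)]⟩⟩ ⟨false,0,⟨0,[(40,0)]⟩,⟨30,[(1,8),
  (0,2),(11,9),(8,9),(15,1),(4,4),(2,2)]⟩⟩ ⟨true,0,⟨6,[(0,2),(7,1),(0,1),(9,0),(6,0),(13,4),(2,4)]⟩,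
  ⟨0,[(6,0),(35,0)]⟩⟩,.e ⟨true,0,⟨0,[(43,0)]⟩,⟨0,[(0,0),(3,0)]⟩⟩ ⟨true,0,⟨1,[(8,0),(0,0),(5,0),(10,
  0),(13,0),(2,0)]⟩,⟨0,[(10,0),(31,0)]⟩⟩]⟩) (.Q [0,0,2,0,0,0,1,0,-1,1,1,-1] (.p false [0,0,-1,0,1]
  [1] (⟨0,[(3,0)]⟩,⟨0,[(24,0),(7,0)]⟩) .k 1 (⟨0,[]⟩,⟨0,[]⟩) .k (.r 0 ⟨2,[(6,0),(2,0),(5,0),(1,0)]⟩
  ⟨49,[(19,24),(2,8),(0,8),(3,49),(11,4),(5,30),(1,11)]⟩)) (.R ⟨0,false,false,false,[0,0,1],[-1,1,0,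
  0,1],[1],(⟨0,[(33,0)]⟩,⟨0,[(32,0)]⟩),(⟨0,[(6,0)]⟩,⟨0,[(25,0),(11,0)]⟩),⟨0,[(22,0)]⟩,.k,(.r 0 ⟨0,
  [(41,0),(6,0)]⟩ ⟨30,[(2,8),(0,2),(11,9),(8,9),(15,1),(4,4),(2,2)]⟩),.k,(.r (-1) ⟨2,[(2,0),(0,1),
  (9,0),(6,0),(7,1),(2,0)]⟩ ⟨1,[(18,0),(22,0),(2,0),(3,0)]⟩),.k,.k,⟨false,1,⟨1,[(2,0),(42,0)]⟩,⟨0,
  [(41,0),(6,0)]⟩⟩,⟨true,0,⟨0,[(5,0)]⟩,⟨0,[(0,0)]⟩⟩,⟨true,0,⟨2,[(7,0),(2,0),(5,0),(1,0)]⟩,⟨3,[(5,0),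
  (3,0),(10,0),(7,2),(2,0)]⟩⟩,⟨false,0,⟨5,[(1,4),(9,0),(6,2),(12,0),(9,0)]⟩,⟨4,[(0,2),(2,4),(5,1),
  (10,0),(6,0),(0,2)]⟩⟩,⟨false,0,⟨0,[]⟩,⟨0,[]⟩⟩,⟨false,0,⟨0,[]⟩,⟨0,[]⟩⟩,[.o ⟨false,0,⟨0,[(11,0),(2,
  0)]⟩,⟨0,[(15,0)]⟩⟩,.e ⟨false,1,⟨1,[(45,0),(0,0)]⟩,⟨0,[(48,0)]⟩⟩ ⟨false,0,⟨0,[(1,0)]⟩,⟨3,[(15,3),
  (0,1),(1,0),(9,1),(10,0)]⟩⟩,.a ⟨true,0,⟨0,[(16,0)]⟩,⟨4,[(0,0),(19,1),(3,0),(2,1)]⟩⟩ ⟨true,0,⟨0,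
  []⟩,⟨0,[(48,0)]⟩⟩ ⟨false,0,⟨2,[(1,1),(9,0),(19,0),(9,0)]⟩,⟨0,[(15,0),(0,0)]⟩⟩,.e ⟨false,1,⟨1,[(45,
  0),(0,0)]⟩,⟨3,[(0,0),(7,0),(22,1)]⟩⟩ ⟨false,0,⟨0,[(1,0)]⟩,⟨1,[(0,0),(7,0),(6,1)]⟩⟩]⟩) (.Q [0,0,1,
  0,0,0,0,0,-1,2,0,-1] (.p false [-1,1,0,0,1] [1] (⟨0,[(6,0)]⟩,⟨0,[(25,0),(11,0)]⟩) (.r 0 ⟨0,[(41,
  0),(6,0)]⟩ ⟨30,[(2,8),(0,2),(11,9),(8,9),(15,1),(4,4),(2,2)]⟩) 1 (⟨0,[]⟩,⟨0,[]⟩) .k .k) (.R ⟨0,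
  false,false,false,[-1,1,0,0,1],[0,1],[2,0,1,1],(⟨0,[(7,0)]⟩,⟨0,[(26,0),(11,0)]⟩),(⟨0,[(39,0)]⟩,⟨0,
  [(38,0)]⟩),⟨0,[(26,0)]⟩,(.r 0 ⟨0,[(42,0),(6,0)]⟩ ⟨30,[(3,8),(0,2),(11,9),(8,9),(15,1),(4,4),(2,
  2)]⟩),.k,.k,.k,.k,.k,⟨true,0,⟨0,[]⟩,⟨0,[(48,0)]⟩⟩,⟨false,1,⟨9,[(0,3),(9,1),(0,1),(12,1),(21,6),(0,
  0)]⟩,⟨3,[(6,0),(2,0),(2,1),(35,0)]⟩⟩,⟨true,0,⟨0,[]⟩,⟨0,[(49,0)]⟩⟩,⟨false,1,⟨4,[(0,1),(9,0),(0,0),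
  (12,0),(21,0),(0,2)]⟩,⟨0,[(12,0)]⟩⟩,⟨false,0,⟨0,[]⟩,⟨0,[]⟩⟩,⟨false,0,⟨0,[]⟩,⟨0,[]⟩⟩,[.o ⟨false,0,
  ⟨0,[(15,0)]⟩,⟨8,[(16,4),(8,4),(15,0),(2,3),(2,1)]⟩⟩,.o ⟨false,1,⟨9,[(24,0),(0,0),(15,1),(3,9),(1,
  4)]⟩,⟨0,[(44,0)]⟩⟩,.a ⟨true,0,⟨0,[(8,0)]⟩,⟨0,[(0,0)]⟩⟩ ⟨false,0,⟨0,[(42,0)]⟩,⟨30,[(3,8),(0,2),(11,
  9),(8,9),(15,1),(4,4),(2,2)]⟩⟩ ⟨true,0,⟨0,[(0,0),(14,0)]⟩,⟨1,[(1,0),(7,0),(34,1)]⟩⟩,.o ⟨false,0,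
  ⟨0,[(1,0),(15,0),(4,0),(0,0),(11,1),(12,1)]⟩,⟨3,[(0,1),(23,2),(0,0),(20,0)]⟩⟩]⟩) (.Q [0,0,2,0,0,0,
  -1,0,-1,2,-1,-1] (.p false [-1,1,1] [1,0,0,0,-1] (⟨0,[(22,0)]⟩,⟨0,[(33,0),(4,0)]⟩) .k 2 (⟨0,[(26,
  0)]⟩,⟨0,[(27,0)]⟩) .k (.r (-1) ⟨9,[(21,4),(2,2),(0,2),(3,9),(11,0),(5,4)]⟩ ⟨10,[(1,2),(9,2),(5,5),
  (1,3),(28,1)]⟩)) (.R ⟨0,false,false,false,[1,0,-1],[-1,1,0,0,1],[1],(⟨0,[(34,0)]⟩,⟨0,[(35,0)]⟩),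
  (⟨0,[(8,0)]⟩,⟨0,[(27,0),(11,0)]⟩),⟨0,[(23,0)]⟩,.k,(.r 0 ⟨0,[(43,0),(6,0)]⟩ ⟨30,[(4,8),(0,2),(11,
  9),(8,9),(15,1),(4,4),(2,2)]⟩),.k,(.r (-1) ⟨55,[(4,22),(12,9),(2,27),(5,9),(15,1),(4,18)]⟩ ⟨4,[(0,
  1),(14,4),(6,0),(3,1),(6,0)]⟩),.k,.k,⟨false,1,⟨1,[(4,0),(42,0)]⟩,⟨0,[(43,0),(6,0)]⟩⟩,⟨true,0,⟨0,
  [(1,0),(16,0)]⟩,⟨0,[(0,0)]⟩⟩,⟨false,1,⟨2,[(5,0),(9,0),(6,0),(7,1),(2,0),(14,1)]⟩,⟨4,[(2,0),(9,0),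
  (5,1),(1,1)]⟩⟩,⟨true,0,⟨0,[(13,0),(1,0)]⟩,⟨6,[(0,1),(11,4),(5,4),(1,0),(8,4),(15,6)]⟩⟩,⟨false,0,
  ⟨0,[]⟩,⟨0,[]⟩⟩,⟨false,0,⟨0,[]⟩,⟨0,[]⟩⟩,[.o ⟨false,0,⟨0,[(13,0),(2,0)]⟩,⟨0,[(17,0)]⟩⟩,.o ⟨false,0,
  ⟨0,[(1,0),(41,0)]⟩,⟨91,[(0,13),(16,83),(2,6),(5,5),(3,13),(10,34),(0,3),(2,7)]⟩⟩,.a ⟨true,0,⟨4,
  [(0,0),(21,0),(3,0),(2,1)]⟩,⟨0,[(18,0)]⟩⟩ ⟨true,0,⟨0,[]⟩,⟨0,[(50,0)]⟩⟩ ⟨false,0,⟨0,[(1,0),(16,0),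
  (24,0)]⟩,⟨1,[(0,1),(3,0),(42,0)]⟩⟩,.o ⟨false,0,⟨0,[(33,0)]⟩,⟨5,[(10,0),(7,4),(6,0),(16,0),(4,
  2)]⟩⟩]⟩) (.Q [0,0,0,0,0,-1,0,0,0,0,0,1] (.ed false [1,-1,0,0,1] .k) (.Q [2,-1,0,0,0,0,-1,-1,2,-1,
  -1,2] (.p false [0,0,1] [-1,0,0,0,2] (⟨0,[(36,0)]⟩,⟨0,[(35,0)]⟩) .k 2 (⟨0,[(0,0),(8,0)]⟩,⟨0,[(28,
  1)]⟩) .k (.r (-1) ⟨41,[(6,0),(9,0),(6,20),(7,40),(11,3),(5,32),(0,0),(0,25)]⟩ ⟨6,[(1,0),(11,0),(5,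
  0),(1,2),(8,0)]⟩)) (.R ⟨1,true,false,true,[0,0,0,0,1],[1,0,1,0,-1],[-1,1,1,0,0,0,0,1],(⟨0,[(30,
  0)]⟩,⟨0,[(29,0)]⟩),(⟨0,[(29,0),(7,0)]⟩,⟨0,[(8,0)]⟩),⟨0,[(1,0)]⟩,.k,.k,(.r (-1) ⟨27,[(6,8),(12,9),
  (8,9),(15,1),(4,4)]⟩ ⟨0,[(45,0),(6,0)]⟩),.k,(.r (-1) ⟨55,[(6,22),(12,9),(2,27),(5,9),(15,1),(4,
  18)]⟩ ⟨2,[(17,1),(6,0),(6,0),(0,0),(12,0),(5,2)]⟩),.k,⟨true,0,⟨1,[(34,0),(0,0)]⟩,⟨0,[]⟩⟩,⟨false,1,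
  ⟨1,[(13,1),(0,1),(5,1),(28,0),(0,0)]⟩,⟨4,[(9,2),(5,1),(12,4),(6,1),(15,0)]⟩⟩,⟨true,0,⟨8,[(9,1),(3,
  1),(10,1),(7,6),(2,2),(15,7)]⟩,⟨6,[(2,2),(11,2),(5,2),(1,1),(8,2)]⟩⟩,⟨false,1,⟨3,[(13,4),(0,0),(4,
  1),(0,0),(10,0),(13,0),(2,0),(1,1)]⟩,⟨0,[(0,0)]⟩⟩,⟨false,0,⟨2,[(17,1),(6,0),(6,0),(0,0),(12,0),(5,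
  2)]⟩,⟨6,[(2,0),(4,6),(6,0),(5,0),(1,2),(8,0)]⟩⟩,⟨true,0,⟨1,[(13,2),(0,0),(5,0),(10,0),(13,0),(2,
  0)]⟩,⟨0,[(0,0),(46,0)]⟩⟩,[]⟩) (.Q [2,0,0,0,0,0,1,1,2,-2,1,2] (.p true [0,0,1] [2,0,0,0,-2] (⟨0,
  [(37,0)]⟩,⟨0,[(36,0)]⟩) .k 2 (⟨0,[(29,1)]⟩,⟨0,[(1,0),(8,0)]⟩) .k (.r (-1) ⟨9,[(24,4),(2,2),(0,2),
  (3,9),(11,0),(5,4)]⟩ ⟨2,[(2,0),(11,0),(7,0),(16,0),(1,0),(9,0)]⟩)) (.R ⟨1,true,false,false,[0,0,0,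
  0,1],[2,0,-1,0,-1],[0,0,0,0,0,0,0,-1],(⟨0,[(31,0)]⟩,⟨0,[(30,0)]⟩),(⟨0,[(30,0),(6,0)]⟩,⟨0,[(2,0),
  (23,0)]⟩),⟨0,[(2,0)]⟩,.k,.k,(.r (-1) ⟨27,[(7,8),(12,9),(8,9),(15,1),(4,4)]⟩ ⟨0,[(46,0),(6,0)]⟩),
  .k,(.r (-1) ⟨17,[(0,3),(0,3),(5,1),(0,13),(16,8),(7,9),(11,0)]⟩ ⟨1,[(23,0),(25,1),(2,0)]⟩),.k,
  ⟨true,0,⟨0,[]⟩,⟨1,[(35,0),(0,0)]⟩⟩,⟨false,1,⟨4,[(1,1),(13,1),(4,0),(7,2),(3,4),(16,0),(1,0)]⟩,⟨13,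
  [(0,3),(3,4),(8,9),(9,1),(5,4),(22,2)]⟩⟩,⟨true,0,⟨4,[(3,0),(11,0),(7,1),(16,0),(1,0)]⟩,⟨8,[(0,1),
  (13,3),(10,3),(7,2),(2,0),(7,0)]⟩⟩,⟨false,1,⟨6,[(1,1),(13,6),(4,2),(2,0),(8,1),(13,0),(2,1),(1,
  3)]⟩,⟨0,[(0,0)]⟩⟩,⟨false,0,⟨9,[(3,2),(11,2),(5,4),(0,4),(0,0),(16,2),(1,2),(3,4)]⟩,⟨0,[(8,0),(24,
  0),(2,0)]⟩⟩,⟨true,0,⟨2,[(1,1),(13,1),(6,0),(0,0),(8,1),(13,0),(2,0)]⟩,⟨0,[(0,0),(47,0)]⟩⟩,[]⟩)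
  (.I [0,0,0,-1,0,0,0,-2] (.Q [0,0,0,0,0,0,0,0,0,-1,2] (.ed false [0,0,2] (.r (-1) ⟨2,[(9,1),(9,1),
  (6,1),(7,3),(2,1),(14,0)]⟩ ⟨12,[(1,1),(2,3),(17,1),(1,11),(8,3)]⟩)) (.Q [0,-1,0,0,0,0,-2,-2,0,1,
  -2] (.p false [0,0,1] [1,0,-1] (⟨0,[(40,0)]⟩,⟨0,[(39,0)]⟩) .k 2 (⟨0,[(39,0)]⟩,⟨0,[(40,0)]⟩) .k
  (.r (-1) ⟨2,[(10,1),(9,1),(6,1),(7,3),(2,1),(14,0)]⟩ ⟨12,[(2,1),(2,3),(17,1),(1,11),(8,3)]⟩)) (.Q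
  [0,0,1,0,0,0,2,0,0,-1,2] (.p true [0,0,1] [1,0,-1] (⟨0,[(41,0)]⟩,⟨0,[(40,0)]⟩) .k 2 (⟨0,[(40,0)]⟩,
  ⟨0,[(41,0)]⟩) .k (.r (-1) ⟨2,[(11,1),(9,1),(6,1),(7,3),(2,1),(14,0)]⟩ ⟨12,[(3,1),(2,3),(17,1),(1,
  11),(8,3)]⟩)) (.R ⟨0,false,false,false,[0,0,1],[1,0,-1],[1],(⟨0,[(42,0)]⟩,⟨0,[(41,0)]⟩),(⟨0,[(41,
  0)]⟩,⟨0,[(42,0)]⟩),⟨0,[(31,0)]⟩,.k,.k,.k,.k,.k,.k,⟨false,1,⟨17,[(12,3),(9,3),(6,8),(7,13),(11,0),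
  (4,6),(0,4)]⟩,⟨12,[(4,0),(2,1),(17,0),(1,5),(8,1)]⟩⟩,⟨true,0,⟨0,[(29,0)]⟩,⟨0,[(0,0)]⟩⟩,⟨true,0,
  ⟨12,[(4,0),(2,1),(17,0),(1,5),(8,1)]⟩,⟨3,[(14,0),(3,0),(10,0),(7,2),(2,0)]⟩⟩,⟨false,0,⟨0,[(1,0)]⟩,
  ⟨3,[(0,0),(11,2),(9,2),(14,4),(2,1),(14,0)]⟩⟩,⟨false,0,⟨0,[]⟩,⟨0,[]⟩⟩,⟨false,0,⟨0,[]⟩,⟨0,[]⟩⟩,[.o
  ⟨false,0,⟨0,[(28,0)]⟩,⟨9,[(32,0),(0,0),(3,9),(11,1),(5,4)]⟩⟩,.o ⟨false,1,⟨19,[(1,9),(30,10),(0,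
  10),(15,1),(5,4)]⟩,⟨6,[(0,0),(7,2),(9,2),(18,3),(2,1)]⟩⟩,.e ⟨true,0,⟨0,[]⟩,⟨0,[(57,0)]⟩⟩ ⟨true,0,
  ⟨5,[(1,1),(25,0),(1,3),(18,0)]⟩,⟨6,[(0,2),(6,0),(0,0),(9,1),(18,4)]⟩⟩,.a ⟨true,0,⟨0,[(39,0)]⟩,⟨0,
  [(36,0)]⟩⟩ ⟨false,1,⟨1,[(54,0),(0,0)]⟩,⟨1,[(39,0),(0,0)]⟩⟩ ⟨true,0,⟨8,[(1,3),(2,0),(4,1),(19,1),
  (6,2),(11,1)]⟩,⟨6,[(0,4),(7,0),(9,0),(18,5),(2,2)]⟩⟩]⟩) (.I [0,0,0,0,0,1,1] (.C [(0,1),(0,0),(1,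
  0),(40,1),(12,0)]) (.C [(0,0),(25,0),(5,0)]))) (.I [0,0,0,0,0,0,-1] (.C [(0,0),(0,0),(1,0),(27,0),
  (4,0),(6,0),(6,0)]) (.C [(0,1),(1,0),(33,0),(3,0)]))) (.Q [0,0,1,0,0,0,-2,0,0,0,-2] (.p false [0,
  0,1] [0,1,-1] (⟨0,[(40,0)]⟩,⟨0,[(39,0)]⟩) .k 2 (⟨0,[(29,0)]⟩,⟨0,[(40,0),(3,0)]⟩) .k (.r (-1) ⟨2,
  [(10,1),(9,1),(6,1),(7,3),(2,1),(14,0)]⟩ ⟨12,[(2,1),(2,3),(17,1),(1,11),(8,3)]⟩)) (.R ⟨0,false,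
  false,true,[1,0,-2],[1,0,-1],[0,0,0,-1,0,0,0,-2],(⟨0,[(1,0)]⟩,⟨0,[(41,1)]⟩),(⟨0,[(40,0)]⟩,⟨0,[(41,
  0)]⟩),⟨0,[(29,0),(11,0)]⟩,.k,.k,(.x 0 ⟨0,[(0,0),(40,1),(4,0)]⟩ ⟨29,[(1,29),(4,9),(13,1),(3,47),(6,
  7),(13,29),(2,7),(4,4),(0,0)]⟩),.k,.k,.k,⟨false,1,⟨3,[(2,1),(8,1),(41,0),(0,0)]⟩,⟨5,[(0,0),(20,1),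
  (6,1),(7,3),(10,0),(4,3)]⟩⟩,⟨true,0,⟨0,[(24,0)]⟩,⟨0,[(39,0)]⟩⟩,⟨false,1,⟨0,[(51,0),(2,0)]⟩,⟨0,
  [(52,0)]⟩⟩,⟨true,0,⟨0,[(36,0)]⟩,⟨0,[(27,0)]⟩⟩,⟨false,0,⟨0,[]⟩,⟨0,[]⟩⟩,⟨false,0,⟨0,[]⟩,⟨0,[]⟩⟩,[.o
  ⟨false,0,⟨0,[(37,0)]⟩,⟨0,[(21,0),(29,0),(2,0)]⟩⟩,.o ⟨false,0,⟨0,[(27,0)]⟩,⟨9,[(31,0),(0,0),(3,9),
  (11,1),(5,4)]⟩⟩,.a ⟨true,0,⟨0,[(28,0)]⟩,⟨0,[(24,1)]⟩⟩ ⟨true,0,⟨0,[(2,0)]⟩,⟨0,[(21,0),(6,0),(7,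
  0)]⟩⟩ ⟨false,0,⟨12,[(3,0),(2,1),(17,13),(1,5),(8,1)]⟩,⟨1,[(0,0),(10,0),(9,0),(6,0),(7,0),(17,
  0)]⟩⟩,.o ⟨false,0,⟨0,[(0,0)]⟩,⟨5,[(16,0),(7,10),(6,0),(16,0),(4,2)]⟩⟩]⟩) (.I [0,0,-1,0,0,1,-1]
  (.C [(0,1),(0,0),(0,1),(27,1),(12,3),(12,2)]) (.C [(0,0),(29,0),(5,0)])))) (.Q [1,0,0,-1,0,0,-2,
  -2,1,1,-2,1] (.p false [-1,1,1] [0,0,-1,0,1] (⟨0,[(27,0)]⟩,⟨0,[(38,0),(4,0)]⟩) .k 2 (⟨0,[(10,0)]⟩,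
  ⟨0,[(31,0),(7,0)]⟩) .k (.r (-1) ⟨18,[(0,17),(8,1),(11,9),(8,9),(3,1),(2,1),(8,1),(2,5),(2,2)]⟩
  ⟨12,[(1,1),(2,3),(17,1),(1,11),(8,3)]⟩)) (.Q [0,0,0,0,0,-1,0,0,0,2,-2] (.ed true [-1,1,2] .k) (.R
  ⟨1,true,false,false,[0,0,0,0,1],[-1,1,2],[0,0,2,1,0,0,0,2],(⟨0,[(34,0)]⟩,⟨0,[(33,0)]⟩),(⟨0,[(29,
  0),(11,0)]⟩,⟨0,[(0,0)]⟩),⟨0,[(5,0)]⟩,.k,(.r 0 ⟨1,[(2,1),(35,0),(0,0)]⟩ ⟨1,[(10,0),(15,1),(26,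
  0)]⟩),(.r (-1) ⟨27,[(10,8),(12,9),(8,9),(15,1),(4,4)]⟩ ⟨0,[(49,0),(6,0)]⟩),(.r (-1) ⟨1,[(10,0),
  (15,1),(26,0)]⟩ ⟨3,[(2,3),(35,0),(0,0),(15,1)]⟩),(.r (-1) ⟨22,[(1,3),(1,5),(2,7),(3,20),(13,5),(1,
  15),(26,1)]⟩ ⟨2,[(2,1),(33,1),(2,1),(9,3),(6,1)]⟩),.k,⟨true,0,⟨1,[(38,0),(0,0)]⟩,⟨0,[]⟩⟩,⟨false,1,
  ⟨7,[(4,3),(1,5),(13,5),(5,1),(26,2),(0,4)]⟩,⟨3,[(1,3),(0,3),(35,0),(0,0),(15,1)]⟩⟩,⟨true,0,⟨3,[(2,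
  3),(35,2),(0,2),(15,1)]⟩,⟨2,[(1,2),(1,0),(0,0),(1,2),(13,1),(3,0)]⟩⟩,⟨false,1,⟨0,[(17,0),(3,0),
  (32,0)]⟩,⟨0,[(1,0)]⟩⟩,⟨false,0,⟨3,[(2,3),(35,0),(0,0),(9,3),(5,1)]⟩,⟨22,[(1,3),(1,5),(2,7),(3,20),
  (13,5),(1,15),(26,1)]⟩⟩,⟨true,0,⟨2,[(4,1),(4,0),(11,3),(2,0),(24,0)]⟩,⟨0,[(1,0),(49,0)]⟩⟩,[]⟩)
  (.I [0,0,0,0,0,1,1] (.C [(0,1),(0,0),(34,1),(6,2),(12,1)]) (.C [(0,0),(24,0),(5,0)]))) (.Q [0,0,0,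
  0,0,0,0,0,0,-1,2] (.ed false [0,0,2] (.r (-1) ⟨10,[(1,8),(8,3),(11,4),(8,4),(3,3),(2,3),(8,0)]⟩
  ⟨12,[(2,1),(2,3),(17,1),(1,11),(8,3)]⟩)) (.Q [0,0,1,0,0,0,2,0,0,-1,2] (.p true [0,0,1] [1,0,-1]
  (⟨0,[(41,0)]⟩,⟨0,[(40,0)]⟩) .k 2 (⟨0,[(40,0)]⟩,⟨0,[(41,0)]⟩) .k (.r (-1) ⟨10,[(2,8),(8,3),(11,4),
  (8,4),(3,3),(2,3),(8,0)]⟩ ⟨12,[(3,1),(2,3),(17,1),(1,11),(8,3)]⟩)) (.K ⟨0,[-1,0,2],0,0,(⟨0,[(1,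
  0)]⟩,⟨0,[(41,1)]⟩),.k,(.r (-1) ⟨0,[(3,0),(8,0),(39,0)]⟩ ⟨0,[(27,0),(25,0)]⟩),(.r 0 ⟨1,[(3,1),(35,
  0),(0,0)]⟩ ⟨1,[(11,0),(15,1),(26,0)]⟩),.k,.k,[⟨1,[(29,0),(11,0),(0,0)]⟩,⟨0,[(0,0)]⟩,⟨3,[(27,2),(1,
  1),(6,1),(1,1),(9,0)]⟩,⟨1,[(2,0),(0,0),(13,0),(7,0),(26,1)]⟩]⟩) (.I [0,0,0,0,0,1,1] (.C [(0,1),(0,
  0),(0,0),(41,1),(12,0)]) (.C [(0,0),(25,0),(5,0)]))) (.R ⟨0,false,false,true,[0,0,1],[0,0,2],[1,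
  1],(⟨0,[(41,0)]⟩,⟨0,[(40,0)]⟩),(⟨0,[(41,1)]⟩,⟨0,[(0,0)]⟩),⟨0,[(30,0)]⟩,.k,.k,.k,.k,.k,.k,⟨false,0,
  ⟨12,[(3,3),(2,7),(17,3),(1,10),(8,7)]⟩,⟨10,[(2,8),(8,3),(11,4),(8,4),(3,3),(2,3),(8,0)]⟩⟩,⟨true,0,
  ⟨0,[(24,0)]⟩,⟨0,[(39,0)]⟩⟩,⟨false,0,⟨12,[(3,0),(2,1),(17,0),(1,5),(8,1)]⟩,⟨21,[(2,8),(8,3),(11,4),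
  (8,4),(3,3),(2,3),(8,0),(5,10)]⟩⟩,⟨true,0,⟨0,[(36,0)]⟩,⟨0,[(27,0)]⟩⟩,⟨false,0,⟨0,[]⟩,⟨0,[]⟩⟩,
  ⟨false,0,⟨0,[]⟩,⟨0,[]⟩⟩,[.o ⟨false,0,⟨1,[(1,0),(0,0),(13,0),(7,0),(26,1)]⟩,⟨37,[(11,15),(13,15),
  (0,29),(1,29),(19,5),(4,6),(0,2)]⟩⟩,.o ⟨false,1,⟨30,[(1,7),(0,3),(13,7),(19,37),(11,2),(2,11),(2,
  24)]⟩,⟨0,[(27,1)]⟩⟩,.a ⟨true,0,⟨0,[(24,0)]⟩,⟨1,[(28,0),(11,0),(0,0)]⟩⟩ ⟨false,0,⟨0,[]⟩,⟨1,[(31,0),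
  (0,0),(21,0)]⟩⟩ ⟨true,0,⟨0,[(2,0),(21,0),(26,0)]⟩,⟨5,[(3,0),(4,1),(17,3),(0,2)]⟩⟩,.e ⟨true,0,⟨24,
  [(3,0),(0,0),(1,3),(17,0),(10,4),(11,11)]⟩,⟨1,[(38,0),(0,0)]⟩⟩ ⟨true,0,⟨4,[(1,0),(0,3),(3,0),(17,
  4),(10,2),(15,4)]⟩,⟨2,[(26,1),(0,1),(11,0)]⟩⟩]⟩)))))) (.Q [1,0,0,-1,0,0,-1,-1,1,1,-1,1] (.p false
  [-1,1,1] [0,0,0,0,1] (⟨0,[(24,0)]⟩,⟨0,[(35,0),(4,0)]⟩) .k 2 (⟨0,[(29,0)]⟩,⟨0,[(28,0)]⟩) .k (.r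
  (-1) ⟨49,[(23,24),(2,8),(0,8),(3,49),(11,4),(5,30),(1,11)]⟩ ⟨6,[(1,0),(11,0),(5,0),(1,2),(8,
  0)]⟩)) (.R ⟨0,false,false,false,[1,0,-1],[0,1,0,0,-1],[-1,0,2,1],(⟨0,[(36,0)]⟩,⟨0,[(37,0)]⟩),(⟨0,
  [(1,0)]⟩,⟨0,[(30,0),(10,0)]⟩),⟨0,[(25,0)]⟩,.k,(.r 0 ⟨0,[(45,0),(6,0)]⟩ ⟨22,[(0,4),(5,3),(0,4),(11,
  4),(12,4),(11,1),(4,4)]⟩),.k,(.r (-1) ⟨50,[(0,4),(5,17),(5,4),(6,9),(2,22),(21,1),(4,18)]⟩ ⟨1,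
  [(17,0),(6,0),(7,0),(12,0),(5,0)]⟩),.k,.k,⟨true,0,⟨1,[(34,0),(0,0)]⟩,⟨0,[]⟩⟩,⟨false,1,⟨4,[(2,3),
  (10,2),(0,2),(1,0),(10,1),(21,0),(0,1)]⟩,⟨6,[(0,3),(23,2),(3,2),(3,3),(2,0),(9,3),(5,1)]⟩⟩,⟨true,
  0,⟨5,[(17,0),(6,0),(7,4),(2,3),(9,4),(5,2)]⟩,⟨3,[(0,0),(1,2),(11,2),(1,0),(3,1),(10,1),(15,2)]⟩⟩,
  ⟨false,1,⟨10,[(13,4),(0,4),(2,10),(9,0),(16,0),(5,7)]⟩,⟨0,[(0,0)]⟩⟩,⟨false,0,⟨0,[]⟩,⟨0,[]⟩⟩,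
  ⟨false,0,⟨0,[]⟩,⟨0,[]⟩⟩,[.o ⟨false,0,⟨0,[(3,0),(9,0),(0,0),(30,0)]⟩,⟨4,[(0,3),(18,0),(8,1),(3,3),
  (11,0),(5,1)]⟩⟩,.o ⟨false,1,⟨10,[(14,8),(2,9),(3,0),(5,1),(16,1),(5,4)]⟩,⟨1,[(0,0),(14,0),(16,0),
  (14,0)]⟩⟩,.a ⟨true,0,⟨1,[(24,0),(11,0),(0,0)]⟩,⟨0,[(20,0)]⟩⟩ ⟨false,0,⟨3,[(34,0),(0,0),(9,3),(5,
  1)]⟩,⟨1,[(6,0),(42,0)]⟩⟩ ⟨true,0,⟨1,[(2,0),(0,0),(9,1),(0,1),(19,0),(10,1)]⟩,⟨5,[(0,4),(8,0),(14,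
  1),(7,4),(2,0),(11,0)]⟩⟩,.o ⟨false,0,⟨0,[(35,0)]⟩,⟨5,[(12,0),(7,4),(6,0),(16,0),(4,2)]⟩⟩]⟩) (.Q
  [1,1,0,-1,0,0,1,1,1,0,1,1] (.p true [1,-1,1] [1,0,0,0,-1] (⟨0,[(37,0),(3,0)]⟩,⟨0,[(26,0)]⟩) .k 2
  (⟨0,[(29,0)]⟩,⟨0,[(30,0)]⟩) .k (.r (-1) ⟨9,[(24,4),(2,2),(0,2),(3,9),(11,0),(5,4)]⟩ ⟨4,[(2,0),(11,
  0),(7,1),(16,0),(1,0)]⟩)) (.I [2,1,-1,-1] (.R ⟨0,false,false,false,[0,0,1],[0,1,0,0,-1],[-1,0,2,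
  1],(⟨0,[(39,0)]⟩,⟨0,[(38,0)]⟩),(⟨0,[(3,0)]⟩,⟨0,[(32,0),(10,0)]⟩),⟨0,[(28,0)]⟩,.k,(.r 0 ⟨0,[(47,0),
  (6,0)]⟩ ⟨27,[(8,8),(12,9),(8,9),(15,1),(4,4)]⟩),.k,(.r (-1) ⟨17,[(1,3),(0,3),(5,1),(0,13),(16,8),
  (7,9),(11,0)]⟩ ⟨1,[(24,0),(22,0),(2,0),(3,0)]⟩),.k,.k,⟨true,0,⟨1,[(36,0),(0,0)]⟩,⟨0,[]⟩⟩,⟨false,1,
  ⟨15,[(2,5),(3,7),(1,2),(7,5),(12,11),(3,7),(17,0)]⟩,⟨0,[(30,0),(5,0)]⟩⟩,⟨false,0,⟨7,[(24,3),(11,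
  0),(0,0),(9,7),(5,1)]⟩,⟨2,[(8,1),(0,0),(9,1),(6,0),(6,0),(0,0)]⟩⟩,⟨true,0,⟨1,[(2,0),(13,0),(6,0),
  (11,0)]⟩,⟨0,[(1,0)]⟩⟩,⟨false,0,⟨0,[]⟩,⟨0,[]⟩⟩,⟨false,0,⟨0,[]⟩,⟨0,[]⟩⟩,[.o ⟨false,0,⟨0,[(2,0),(22,
  0)]⟩,⟨16,[(1,3),(7,3),(11,8),(2,1),(1,0),(3,21),(6,1),(8,1)]⟩⟩,.o ⟨false,1,⟨14,[(2,6),(13,1),(6,
  4),(5,5),(16,1),(3,2),(1,4)]⟩,⟨0,[(30,0),(18,0)]⟩⟩,.a ⟨true,0,⟨0,[(22,0)]⟩,⟨1,[(26,0),(11,0),(0,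
  0)]⟩⟩ ⟨false,0,⟨3,[(36,0),(0,0),(9,3),(5,1)]⟩,⟨1,[(8,0),(42,0)]⟩⟩ ⟨true,0,⟨3,[(2,2),(13,0),(6,0),
  (2,1),(8,0)]⟩,⟨10,[(0,0),(0,9),(2,0),(17,1),(1,4),(8,1)]⟩⟩,.e ⟨true,0,⟨0,[(47,0),(6,0)]⟩,⟨0,[(0,
  0)]⟩⟩ ⟨true,0,⟨6,[(2,4),(3,0),(0,1),(8,4),(9,0),(6,1),(11,0)]⟩,⟨3,[(1,3),(22,1),(11,0),(0,
  0)]⟩⟩]⟩) (.I [0,0,0,0,0,1,1] (.C [(0,0),(0,0),(26,0),(5,0),(6,1),(8,0)]) (.C [(0,0),(3,0),(6,0),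
  (11,0)]))) (.I [0,0,1,1,-1,0,0,-3] (.Q [0,0,0,0,0,0,0,0,0,-1,2] (.ed false [0,0,2] (.r (-1) ⟨2,
  [(9,1),(9,1),(6,1),(7,3),(2,1),(14,0)]⟩ ⟨4,[(0,1),(7,0),(15,1),(26,0)]⟩)) (.Q [0,0,1,0,0,0,3,0,0,
  -1,3] (.p true [0,0,1] [1,1,-2] (⟨0,[(40,0)]⟩,⟨0,[(39,0)]⟩) .k 2 (⟨0,[(29,0),(9,0)]⟩,⟨0,[(0,0),
  (43,0)]⟩) (.x (-1) ⟨9,[(0,9),(26,9),(2,0),(0,0),(12,9),(2,1),(4,4)]⟩ ⟨0,[(23,1),(5,1),(11,0),(12,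
  0)]⟩) (.x (-1) ⟨12,[(1,0),(1,2),(1,2),(3,1),(13,23),(13,8),(1,38),(7,5)]⟩ ⟨1,[(0,2),(26,2)]⟩))
  (.K ⟨0,[1,1,-2],0,(-1),(⟨0,[(30,0),(9,0)]⟩,⟨0,[(1,0),(43,0)]⟩),(.x (-1) ⟨9,[(1,9),(26,9),(2,0),(0,
  0),(12,9),(2,1),(4,4)]⟩ ⟨2,[(0,1),(29,3),(9,1),(1,0),(12,0)]⟩),(.r 0 ⟨4,[(2,1),(7,0),(15,1),(26,
  0)]⟩ ⟨2,[(11,1),(9,1),(6,1),(7,3),(2,1),(14,0)]⟩),(.r 1 ⟨2,[(2,2),(18,0),(6,0),(7,1),(2,0),(9,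
  1)]⟩ ⟨2,[(10,1),(0,3),(9,1),(6,1),(7,3),(2,1)]⟩),(.r 1 ⟨0,[(2,0)]⟩ ⟨0,[(11,1),(9,0),(6,0),(7,1),
  (2,0)]⟩),.k,[⟨0,[(0,0)]⟩,⟨0,[(28,0)]⟩,⟨12,[(0,3),(3,2),(2,2),(3,12),(24,22),(2,11),(11,2)]⟩,⟨4,
  [(2,4),(5,1),(8,1),(10,5),(6,0),(0,2)]⟩]⟩) (.I [0,0,0,0,0,1,1] (.C [(0,1),(0,0),(0,0),(22,0),(17,
  1),(12,0)]) (.C [(0,0),(5,0),(6,0),(11,0)]))) (.I [0,0,-1,-1,1,0,0,2] (.Q [0,0,1,0,0,0,-2,0,0,0,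
  -2] (.p false [0,0,1] [0,1,-1] (⟨0,[(41,0)]⟩,⟨0,[(40,0)]⟩) .k 2 (⟨0,[(30,0)]⟩,⟨0,[(41,0),(3,0)]⟩)
  .k (.r (-1) ⟨4,[(0,3),(30,0),(0,0),(3,1),(2,1),(9,1),(2,1)]⟩ ⟨4,[(2,1),(7,0),(15,1),(26,0)]⟩))
  (.R ⟨0,false,false,true,[1,0,-2],[1,0,-1],[1],(⟨0,[(2,0)]⟩,⟨0,[(42,1)]⟩),(⟨0,[(41,0)]⟩,⟨0,[(42,
  0)]⟩),⟨0,[(30,0),(11,0)]⟩,.k,.k,(.x 0 ⟨0,[(0,0),(41,1),(4,0)]⟩ ⟨29,[(2,29),(4,9),(13,1),(3,47),(6,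
  7),(13,29),(2,7),(4,4),(0,0)]⟩),.k,.k,.k,⟨false,1,⟨5,[(1,1),(20,1),(13,1),(17,0),(0,2)]⟩,⟨1,[(27,
  0),(20,0)]⟩⟩,⟨true,0,⟨0,[(25,0)]⟩,⟨0,[(40,0)]⟩⟩,⟨false,1,⟨0,[(1,0),(48,0)]⟩,⟨4,[(3,1),(7,0),(15,
  1),(26,0)]⟩⟩,⟨true,0,⟨0,[(37,0)]⟩,⟨0,[(28,0)]⟩⟩,⟨false,0,⟨0,[]⟩,⟨0,[]⟩⟩,⟨false,0,⟨0,[]⟩,⟨0,[]⟩⟩,
  [.o ⟨false,0,⟨0,[(38,0)]⟩,⟨12,[(1,3),(3,3),(11,3),(19,0),(1,3),(9,0),(5,6)]⟩⟩,.o ⟨false,0,⟨0,[(28,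
  0)]⟩,⟨9,[(32,0),(0,0),(3,9),(11,1),(5,4)]⟩⟩,.a ⟨true,0,⟨0,[(29,0)]⟩,⟨0,[(25,1)]⟩⟩ ⟨true,0,⟨0,[]⟩,
  ⟨0,[(57,0)]⟩⟩ ⟨false,0,⟨9,[(3,1),(7,0),(13,9),(1,1),(26,0)]⟩,⟨1,[(0,0),(0,0),(51,0),(1,0)]⟩⟩,.o
  ⟨false,0,⟨0,[(0,0)]⟩,⟨5,[(17,0),(7,10),(6,0),(16,0),(4,2)]⟩⟩]⟩) (.I [0,0,-1,0,0,1,-1] (.C [(0,1),
  (0,0),(1,1),(27,1),(12,3),(12,2)]) (.C [(0,0),(30,0),(5,0)]))) (.Q [0,0,1,0,0,0,-2,0,0,0,-2] (.p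
  false [0,0,1] [0,1,-1] (⟨0,[(41,0)]⟩,⟨0,[(40,0)]⟩) .k 2 (⟨0,[(30,0)]⟩,⟨0,[(41,0),(3,0)]⟩) .k (.r
  (-1) ⟨2,[(11,1),(9,1),(6,1),(7,3),(2,1),(14,0)]⟩ ⟨4,[(2,1),(7,0),(15,1),(26,0)]⟩)) (.R ⟨0,false,
  false,true,[1,0,-2],[1,0,-1],[0,1],(⟨0,[(2,0)]⟩,⟨0,[(42,1)]⟩),(⟨0,[(41,0)]⟩,⟨0,[(42,0)]⟩),⟨0,[(30,
  0),(11,0)]⟩,.k,.k,(.r 0 ⟨0,[(1,0),(9,0)]⟩ ⟨0,[(0,0),(36,1),(15,0),(1,0)]⟩),.k,.k,.k,⟨false,1,⟨17,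
  [(12,3),(9,3),(6,8),(7,13),(11,0),(4,6),(0,4)]⟩,⟨9,[(3,1),(7,0),(15,1),(26,0)]⟩⟩,⟨true,0,⟨0,[(25,
  0)]⟩,⟨0,[(40,0)]⟩⟩,⟨false,1,⟨1,[(0,0),(11,0),(9,0),(6,0),(7,2),(17,0)]⟩,⟨0,[(1,0),(10,0)]⟩⟩,⟨true,
  0,⟨0,[(37,0)]⟩,⟨0,[(28,0)]⟩⟩,⟨false,0,⟨0,[]⟩,⟨0,[]⟩⟩,⟨false,0,⟨0,[]⟩,⟨0,[]⟩⟩,[.o ⟨false,0,⟨0,[(38,
  0)]⟩,⟨0,[(22,0),(29,0),(2,0)]⟩⟩,.o ⟨false,0,⟨0,[(28,0)]⟩,⟨9,[(32,0),(0,0),(3,9),(11,1),(5,4)]⟩⟩,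
  .a ⟨true,0,⟨0,[(29,0)]⟩,⟨0,[(25,1)]⟩⟩ ⟨true,0,⟨0,[(57,0)]⟩,⟨0,[]⟩⟩ ⟨false,0,⟨9,[(3,1),(7,0),(13,
  9),(1,1),(26,0)]⟩,⟨1,[(0,0),(11,0),(9,0),(6,0),(7,0),(17,0)]⟩⟩,.o ⟨false,0,⟨0,[(0,0)]⟩,⟨5,[(17,0),
  (7,10),(6,0),(16,0),(4,2)]⟩⟩]⟩) (.I [0,0,-1,0,0,1,-1] (.C [(0,1),(0,0),(1,1),(27,1),(12,3),(12,
  2)]) (.C [(0,0),(30,0),(5,0)]))))) (.Q [0,0,0,0,0,0,0,0,0,-1,2] (.ed false [0,0,2] (.r (-1) ⟨6,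
  [(0,3),(28,2),(0,2),(3,1),(2,1),(9,1),(2,1)]⟩ ⟨6,[(4,1),(11,1),(5,1),(1,5),(8,1)]⟩)) (.Q [0,0,1,0,
  0,0,2,0,0,-1,2] (.p true [0,0,1] [1,0,-1] (⟨0,[(40,0)]⟩,⟨0,[(39,0)]⟩) .k 2 (⟨0,[(39,0)]⟩,⟨0,[(40,
  0)]⟩) .k (.r (-1) ⟨6,[(1,3),(28,2),(0,2),(3,1),(2,1),(9,1),(2,1)]⟩ ⟨6,[(5,1),(11,1),(5,1),(1,5),
  (8,1)]⟩)) (.R ⟨0,false,false,true,[0,0,1],[1,0,-1],[1],(⟨0,[(41,0)]⟩,⟨0,[(40,0)]⟩),(⟨0,[(40,0)]⟩,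
  ⟨0,[(41,0)]⟩),⟨0,[(30,0)]⟩,.k,.k,.k,.k,.k,.k,⟨false,1,⟨3,[(2,0),(18,0),(13,0),(17,0),(0,1)]⟩,⟨1,
  [(26,0),(20,0)]⟩⟩,⟨true,0,⟨0,[(28,0)]⟩,⟨0,[(0,0)]⟩⟩,⟨true,0,⟨6,[(6,0),(11,0),(5,0),(1,2),(8,0)]⟩,
  ⟨3,[(13,0),(3,0),(10,0),(7,2),(2,0)]⟩⟩,⟨false,0,⟨2,[(26,1),(0,1),(0,0),(6,1)]⟩,⟨1,[(0,0),(1,0),
  (18,0),(2,0),(29,0)]⟩⟩,⟨false,0,⟨0,[]⟩,⟨0,[]⟩⟩,⟨false,0,⟨0,[]⟩,⟨0,[]⟩⟩,[.o ⟨false,0,⟨0,[(37,0)]⟩,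
  ⟨34,[(0,11),(1,7),(18,7),(14,2),(11,2),(4,1),(0,18)]⟩⟩,.o ⟨false,0,⟨0,[(27,0)]⟩,⟨9,[(31,0),(0,0),
  (3,9),(11,1),(5,4)]⟩⟩,.a ⟨true,0,⟨0,[(24,0)]⟩,⟨1,[(28,0),(11,0),(0,0)]⟩⟩ ⟨true,0,⟨0,[]⟩,⟨0,[(56,
  0)]⟩⟩ ⟨false,0,⟨2,[(26,0),(0,0),(0,1),(6,0)]⟩,⟨3,[(0,2),(1,0),(18,0),(2,0),(28,0),(0,1)]⟩⟩,.e
  ⟨false,1,⟨1,[(53,0),(0,0)]⟩,⟨1,[(38,0),(0,0)]⟩⟩ ⟨false,0,⟨0,[(27,0),(7,0)]⟩,⟨10,[(0,5),(1,1),(33,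
  4),(1,4),(9,0),(0,1),(4,6)]⟩⟩]⟩) (.I [0,0,0,0,0,1,1] (.C [(0,1),(0,0),(0,0),(40,1),(12,0)]) (.C
  [(0,0),(5,0),(6,0),(11,0)]))) (.R ⟨0,false,false,false,[0,0,1],[0,0,2],[1],(⟨0,[(40,0)]⟩,⟨0,[(39,
  0)]⟩),(⟨0,[(40,1)]⟩,⟨0,[(0,0)]⟩),⟨0,[(29,0)]⟩,.k,.k,.k,.k,.k,.k,⟨false,0,⟨6,[(5,3),(11,3),(5,3),
  (1,4),(8,3)]⟩,⟨6,[(1,3),(28,2),(0,2),(3,1),(2,1),(9,1),(2,1)]⟩⟩,⟨true,0,⟨0,[(23,0)]⟩,⟨0,[(38,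
  0)]⟩⟩,⟨true,0,⟨6,[(5,0),(11,0),(5,0),(1,2),(8,0)]⟩,⟨3,[(12,0),(3,0),(10,0),(7,2),(2,0)]⟩⟩,⟨false,
  1,⟨0,[(35,0),(17,0)]⟩,⟨0,[(26,0)]⟩⟩,⟨false,0,⟨0,[]⟩,⟨0,[]⟩⟩,⟨false,0,⟨0,[]⟩,⟨0,[]⟩⟩,[.o ⟨false,1,
  ⟨6,[(1,1),(18,1),(2,3),(11,5),(1,1),(9,0),(5,2)]⟩,⟨0,[(26,1)]⟩⟩,.o ⟨false,1,⟨1,[(1,0),(1,0),(11,
  0),(7,0),(13,0),(15,0)]⟩,⟨0,[(26,0),(9,0)]⟩⟩,.a ⟨true,0,⟨0,[(23,0)]⟩,⟨1,[(27,0),(11,0),(0,0)]⟩⟩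
  ⟨true,0,⟨0,[]⟩,⟨0,[(55,0)]⟩⟩ ⟨false,1,⟨1,[(1,0),(21,0),(11,0),(12,0),(4,0)]⟩,⟨2,[(7,0),(9,0),(7,
  1),(0,0)]⟩⟩,.e ⟨false,1,⟨1,[(52,0),(0,0)]⟩,⟨1,[(37,0),(0,0)]⟩⟩ ⟨false,1,⟨1,[(1,0),(18,0),(2,1),
  (10,0),(18,0)]⟩,⟨2,[(25,1),(0,1),(11,0)]⟩⟩]⟩)))))))))) (.I [1,0,-2,-2,1] (.N [0,2] 1 ⟨0,[(1,0)]⟩
  ⟨0,[(0,0)]⟩ (.x (-1) ⟨4,[(2,2),(1,2),(6,2),(1,2),(19,3),(2,5),(7,1)]⟩ ⟨0,[(29,0),(0,0),(6,1)]⟩))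
  (.I [-1,0,-1,0,0,0,0,-1] (.I [0,0,-1,0,0,0,0,0,1] (.I [0,0,0,0,0,1,1] (.C [(0,0),(2,0),(1,0),(17,
  0),(5,0),(6,1),(8,0)]) (.C [(0,0),(17,0),(5,0)])) (.C [(0,0),(5,0),(10,0),(8,0)])) (.C [(0,0),(4,
  0),(4,0),(5,1)])))) (.R ⟨2,true,false,false,[0,1],[1,-1],[0,0,1,1],(⟨0,[]⟩,⟨0,[]⟩),(⟨0,[(34,0)]⟩,
  ⟨0,[(35,0)]⟩),⟨0,[]⟩,.k,.k,.k,(.r 1 ⟨0,[(0,1),(42,0)]⟩ ⟨0,[(40,1),(1,0),(0,0)]⟩),.k,.k,⟨true,(-1),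
  ⟨0,[(0,1),(42,0)]⟩,⟨0,[(13,0),(4,0),(0,0),(4,0),(6,1),(8,1),(2,0)]⟩⟩,⟨false,0,⟨1,[(17,0),(9,1),(1,
  0),(0,0)]⟩,⟨8,[(4,7),(1,3),(0,3),(29,0),(4,4),(0,1)]⟩⟩,⟨false,1,⟨1,[(20,0),(0,0),(21,0)]⟩,⟨0,[]⟩⟩,
  ⟨true,1,⟨0,[(29,0),(0,0),(9,1),(2,0)]⟩,⟨0,[(0,0),(3,0),(2,0),(2,0)]⟩⟩,⟨true,0,⟨0,[(41,0)]⟩,⟨0,
  [(40,0)]⟩⟩,⟨false,1,⟨0,[(29,0),(0,0),(9,0),(2,0)]⟩,⟨0,[(11,0)]⟩⟩,[]⟩))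

theorem ok93 : chk K t93 l57 = true := by decide +kernel

noncomputable def t94 : Tre :=
  (.Q [1,-1,0,0,0,0,-1,-1,1,1,-1,1] (.p true [1,0,-1,0,1] [] (⟨0,[(22,0),(5,0)]⟩,⟨0,[(0,0)]⟩) .k 0
  (⟨0,[]⟩,⟨0,[]⟩) .k (.r 0 ⟨2,[(3,0),(2,0),(5,0),(1,0)]⟩ ⟨49,[(16,24),(2,8),(0,8),(3,49),(11,4),(5,
  30),(1,11)]⟩)) (.R ⟨2,true,false,false,[0,1],[1,0,-1,0,1],[2,0,0,0,0,0,0,-1],(⟨0,[]⟩,⟨0,[]⟩),(⟨0,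
  [(23,0),(5,0)]⟩,⟨0,[(1,0)]⟩),⟨0,[]⟩,.k,.k,.k,(.r 0 ⟨1,[(10,0),(6,0),(7,0),(12,0),(5,0)]⟩ ⟨5,[(4,
  1),(2,1),(5,1),(1,1),(24,5),(1,2),(0,2)]⟩),.k,.k,⟨true,0,⟨0,[]⟩,⟨1,[(27,0),(0,0)]⟩⟩,⟨false,0,⟨5,
  [(0,1),(16,2),(3,3),(3,1),(6,0),(1,0)]⟩,⟨17,[(4,15),(1,7),(0,7),(1,17),(27,1),(4,0),(0,12)]⟩⟩,
  ⟨false,1,⟨0,[(4,0),(2,0),(5,0),(26,0),(2,0)]⟩,⟨1,[(10,0),(6,0),(7,0),(12,0),(5,0)]⟩⟩,⟨true,0,⟨0,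
  [(0,0),(39,0)]⟩,⟨0,[(6,0),(4,0)]⟩⟩,⟨true,0,⟨0,[(4,0),(2,0),(5,0)]⟩,⟨8,[(2,0),(3,0),(10,0),(7,7),
  (2,5),(15,3)]⟩⟩,⟨false,0,⟨0,[(0,0)]⟩,⟨9,[(6,8),(13,0),(4,0),(11,1),(5,4)]⟩⟩,[]⟩) (.Q [1,0,0,-1,0,
  0,-1,-1,1,1,-1,1] (.p true [1,0,-1,0,1] [] (⟨0,[(23,0),(5,0)]⟩,⟨0,[(1,0)]⟩) .k 0 (⟨0,[]⟩,⟨0,[]⟩)
  .k (.r 0 ⟨2,[(4,0),(2,0),(5,0),(1,0)]⟩ ⟨49,[(17,24),(2,8),(0,8),(3,49),(11,4),(5,30),(1,11)]⟩))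
  (.R ⟨0,false,false,false,[1,0,-1],[0,1,0,0,-1],[-1,0,2,1],(⟨0,[(30,0)]⟩,⟨0,[(31,0)]⟩),(⟨0,[(2,0),
  (17,0)]⟩,⟨0,[(24,0),(10,0)]⟩),⟨0,[(19,0)]⟩,.k,(.r 0 ⟨0,[(39,0),(6,0)]⟩ ⟨1,[(41,1),(1,0),(0,0)]⟩),
  .k,(.r (-1) ⟨5,[(5,1),(2,1),(5,1),(1,1),(24,5),(1,2),(0,2)]⟩ ⟨1,[(11,0),(6,0),(7,0),(12,0),(5,
  0)]⟩),.k,.k,⟨true,0,⟨1,[(28,0),(0,0)]⟩,⟨0,[]⟩⟩,⟨false,1,⟨1,[(1,1),(3,1),(2,1),(5,1),(28,0),(0,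
  0)]⟩,⟨6,[(0,3),(17,2),(3,2),(3,3),(2,0),(9,3),(5,1)]⟩⟩,⟨true,0,⟨5,[(11,0),(6,0),(7,4),(2,3),(9,4),
  (5,2)]⟩,⟨0,[(5,0),(2,0),(5,1),(4,0),(0,0),(4,0),(6,1),(8,0)]⟩⟩,⟨false,1,⟨2,[(1,0),(6,0),(2,2),(9,
  0),(22,1)]⟩,⟨0,[(0,0)]⟩⟩,⟨false,0,⟨0,[]⟩,⟨0,[]⟩⟩,⟨false,0,⟨0,[]⟩,⟨0,[]⟩⟩,[.o ⟨false,0,⟨0,[(1,0),
  (13,0)]⟩,⟨4,[(0,3),(12,0),(8,1),(3,3),(11,0),(5,1)]⟩⟩,.o ⟨false,1,⟨16,[(1,8),(9,2),(3,11),(5,7),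
  (16,0),(3,1),(1,6)]⟩,⟨1,[(0,0),(8,0),(16,0),(14,0)]⟩⟩,.a ⟨true,0,⟨1,[(18,0),(11,0),(0,0)]⟩,⟨0,
  [(14,0)]⟩⟩ ⟨false,0,⟨3,[(28,0),(0,0),(9,3),(5,1)]⟩,⟨2,[(1,0),(3,1),(2,0),(5,1),(10,1),(15,2),(1,
  0),(0,1)]⟩⟩ ⟨true,0,⟨0,[(1,0),(12,0),(0,0)]⟩,⟨3,[(0,2),(8,0),(8,1),(7,2),(14,0)]⟩⟩,.o ⟨false,0,⟨0,
  [(29,0)]⟩,⟨5,[(6,0),(7,4),(6,0),(16,0),(4,2)]⟩⟩]⟩) (.Q [1,1,0,-1,0,0,1,1,1,0,1,1] (.p true [1,-1,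
  1] [1,0,0,0,-1] (⟨0,[(31,0),(3,0)]⟩,⟨0,[(20,0)]⟩) .k 2 (⟨0,[(23,0)]⟩,⟨0,[(24,0)]⟩) .k (.r (-1) ⟨9,
  [(18,4),(2,2),(0,2),(3,9),(11,0),(5,4)]⟩ ⟨6,[(5,2),(2,2),(5,2),(1,1),(28,0)]⟩)) (.I [2,1,-1,-1]
  (.R ⟨0,false,false,false,[0,0,1],[0,1,0,0,-1],[-1,0,2,1],(⟨0,[(33,0)]⟩,⟨0,[(32,0)]⟩),(⟨0,[(4,0),
  (17,0)]⟩,⟨0,[(26,0),(10,0)]⟩),⟨0,[(22,0)]⟩,.k,(.r 0 ⟨0,[(41,0),(6,0)]⟩ ⟨1,[(43,1),(1,0),(0,0)]⟩),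
  .k,(.r (-1) ⟨1,[(1,0),(1,0),(1,0),(9,0),(11,0),(18,0)]⟩ ⟨1,[(18,0),(22,0),(2,0),(3,0)]⟩),.k,.k,
  ⟨true,0,⟨1,[(30,0),(0,0)]⟩,⟨0,[]⟩⟩,⟨false,1,⟨19,[(0,5),(1,5),(0,3),(6,9),(16,19),(12,3),(4,6),(0,
  4)]⟩,⟨0,[(24,0),(5,0)]⟩⟩,⟨false,0,⟨7,[(18,3),(11,0),(0,0),(9,7),(5,1)]⟩,⟨4,[(0,2),(0,1),(1,2),(1,
  0),(21,3),(17,0),(0,3)]⟩⟩,⟨true,0,⟨1,[(2,0),(7,0),(6,0),(11,0)]⟩,⟨0,[(1,0)]⟩⟩,⟨false,0,⟨0,[]⟩,⟨0,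
  []⟩⟩,⟨false,0,⟨0,[]⟩,⟨0,[]⟩⟩,[.o ⟨false,0,⟨0,[(3,0),(13,0)]⟩,⟨9,[(1,3),(3,1),(9,5),(2,1),(1,0),(3,
  9),(15,0),(5,1)]⟩⟩,.o ⟨false,1,⟨14,[(2,6),(7,1),(6,4),(5,5),(16,1),(3,2),(1,4)]⟩,⟨7,[(0,0),(0,5),
  (3,1),(12,2),(1,1),(22,0)]⟩⟩,.a ⟨true,0,⟨0,[(16,0)]⟩,⟨1,[(20,0),(11,0),(0,0)]⟩⟩ ⟨false,0,⟨3,[(30,
  0),(0,0),(9,3),(5,1)]⟩,⟨1,[(0,1),(44,0),(0,0)]⟩⟩ ⟨true,0,⟨3,[(2,2),(7,0),(6,0),(2,1),(8,0)]⟩,⟨4,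
  [(0,0),(0,3),(6,0),(7,0),(1,1),(8,0)]⟩⟩,.e ⟨true,0,⟨0,[(41,0),(6,0)]⟩,⟨0,[(0,0)]⟩⟩ ⟨true,0,⟨18,
  [(2,14),(2,6),(4,10),(6,3),(2,0),(6,9),(11,1)]⟩,⟨3,[(1,3),(16,1),(11,0),(0,0)]⟩⟩]⟩) (.I [-1,0,-1,
  0,0,0,0,-1] (.I [0,0,0,0,0,1,1] (.C [(0,0),(1,0),(3,0),(1,0),(20,0),(6,1),(8,0)]) (.C [(0,0),(17,
  0),(5,0)])) (.C [(0,0),(5,0),(4,0),(5,1)]))) (.Q [1,-1,-1,1,0,0,-1,0,1,-1,-1,1] (.p false [1,-1,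
  1] [0,0,0,0,1] (⟨0,[(32,0),(3,0)]⟩,⟨0,[(21,0)]⟩) .k 2 (⟨0,[(25,0)]⟩,⟨0,[(24,0)]⟩) .k (.r (-1) ⟨49,
  [(19,24),(2,8),(0,8),(3,49),(11,4),(5,30),(1,11)]⟩ ⟨2,[(6,0),(2,0),(5,0),(1,0)]⟩)) (.Q [0,0,2,0,0,
  0,1,0,-1,1,1,-1] (.p true [1,-1,1] [0,0,0,0,1] (⟨0,[(33,0),(3,0)]⟩,⟨0,[(22,0)]⟩) .k 2 (⟨0,[(26,
  0)]⟩,⟨0,[(25,0)]⟩) .k (.r (-1) ⟨49,[(20,24),(2,8),(0,8),(3,49),(11,4),(5,30),(1,11)]⟩ ⟨2,[(7,0),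
  (2,0),(5,0),(1,0)]⟩)) (.R ⟨0,false,false,false,[0,0,1],[-1,1,0,0,1],[1],(⟨0,[(34,0)]⟩,⟨0,[(33,
  0)]⟩),(⟨0,[(7,0)]⟩,⟨0,[(26,0),(11,0)]⟩),⟨0,[(23,0)]⟩,.k,(.r 0 ⟨0,[(42,0),(6,0)]⟩ ⟨1,[(44,1),(1,0),
  (0,0)]⟩),.k,(.r (-1) ⟨2,[(4,0),(1,0),(21,1),(0,1),(14,2),(2,2)]⟩ ⟨1,[(19,0),(22,0),(2,0),(3,0)]⟩),
  .k,.k,⟨false,1,⟨2,[(4,0),(3,1),(2,0),(5,1),(10,1),(15,2),(1,0),(0,1)]⟩,⟨0,[(42,0),(6,0)]⟩⟩,⟨true,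
  0,⟨0,[(6,0)]⟩,⟨0,[(0,0)]⟩⟩,⟨true,0,⟨2,[(8,0),(2,0),(5,0),(1,0)]⟩,⟨5,[(4,0),(1,0),(14,1),(7,4),(2,
  0)]⟩⟩,⟨false,0,⟨5,[(1,4),(10,0),(6,2),(12,0),(9,0)]⟩,⟨2,[(0,0),(9,1),(6,0),(10,1),(0,0),(14,2),(2,
  2)]⟩⟩,⟨false,0,⟨0,[]⟩,⟨0,[]⟩⟩,⟨false,0,⟨0,[]⟩,⟨0,[]⟩⟩,[.o ⟨false,0,⟨0,[(12,0),(2,0)]⟩,⟨0,[(16,
  0)]⟩⟩,.e ⟨false,1,⟨1,[(46,0),(0,0)]⟩,⟨0,[(49,0)]⟩⟩ ⟨false,0,⟨0,[(1,0)]⟩,⟨3,[(16,3),(0,1),(1,0),(9,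
  1),(10,0)]⟩⟩,.a ⟨true,0,⟨0,[(17,0)]⟩,⟨4,[(0,0),(20,1),(3,0),(2,1)]⟩⟩ ⟨true,0,⟨0,[]⟩,⟨0,[(49,0)]⟩⟩
  ⟨false,0,⟨2,[(1,1),(10,0),(19,0),(9,0)]⟩,⟨0,[(16,0),(0,0)]⟩⟩,.e ⟨false,1,⟨1,[(46,0),(0,0)]⟩,⟨3,
  [(0,0),(8,0),(22,1)]⟩⟩ ⟨false,0,⟨0,[(1,0)]⟩,⟨1,[(0,0),(8,0),(6,1)]⟩⟩]⟩) (.I [0,0,1,1,-1,0,0,-3]
  (.Q [0,0,0,0,0,0,0,0,0,-1,2] (.ed false [0,0,2] (.r (-1) ⟨2,[(5,0),(1,0),(14,1),(7,4),(2,0),(14,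
  2)]⟩ ⟨2,[(0,1),(44,1),(1,0),(0,0)]⟩)) (.Q [0,0,1,0,0,0,3,0,0,-1,3] (.p true [0,0,1] [1,1,-2] (⟨0,
  [(36,0)]⟩,⟨0,[(35,0)]⟩) .k 2 (⟨0,[(25,0),(9,0)]⟩,⟨0,[(0,0),(39,0)]⟩) (.x (-1) ⟨9,[(0,9),(22,9),(2,
  0),(0,0),(12,9),(2,1),(4,4)]⟩ ⟨0,[(19,1),(5,1),(11,0),(12,0)]⟩) (.x (-1) ⟨57,[(1,5),(0,2),(3,17),
  (4,14),(7,143),(5,7),(9,165),(1,7),(5,25),(2,5),(2,11)]⟩ ⟨1,[(0,2),(22,2)]⟩)) (.K ⟨0,[1,1,-2],0,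
  (-1),(⟨0,[(26,0),(9,0)]⟩,⟨0,[(1,0),(39,0)]⟩),(.x (-1) ⟨9,[(1,9),(22,9),(2,0),(0,0),(12,9),(2,1),
  (4,4)]⟩ ⟨2,[(0,1),(25,3),(9,1),(1,0),(12,0)]⟩),(.r 0 ⟨2,[(2,1),(44,1),(1,0),(0,0)]⟩ ⟨2,[(7,0),(1,
  0),(14,1),(7,4),(2,0),(14,2)]⟩),(.r 1 ⟨2,[(2,2),(14,0),(6,0),(7,1),(2,0),(9,1)]⟩ ⟨4,[(3,3),(9,3),
  (10,1),(6,1),(0,5),(14,9),(2,9)]⟩),(.r 1 ⟨0,[(2,0)]⟩ ⟨4,[(3,1),(3,2),(1,0),(14,5),(7,11),(14,4),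
  (2,9)]⟩),.k,[⟨0,[(0,0)]⟩,⟨0,[(24,0)]⟩,⟨1,[(7,0),(7,0),(16,2),(14,1),(2,1)]⟩,⟨4,[(2,4),(0,1),(9,1),
  (10,5),(6,0),(0,2)]⟩]⟩) (.I [0,0,0,0,0,1,1] (.C [(0,1),(0,0),(0,0),(18,0),(17,1),(12,0)]) (.C [(0,
  0),(20,0),(5,0)]))) (.Q [0,-1,0,0,0,0,-2,-2,0,0,-2] (.p false [0,0,1] [0,1,-1] (⟨0,[(36,0)]⟩,⟨0,
  [(35,0)]⟩) .k 2 (⟨0,[(25,0)]⟩,⟨0,[(36,0),(3,0)]⟩) .k (.r (-1) ⟨2,[(6,0),(1,0),(14,1),(7,4),(2,0),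
  (14,2)]⟩ ⟨2,[(1,1),(44,1),(1,0),(0,0)]⟩)) (.R ⟨0,false,false,true,[0,0,1],[0,0,2],[1,1],(⟨0,[(37,
  0)]⟩,⟨0,[(36,0)]⟩),(⟨0,[(37,1)]⟩,⟨0,[(1,0)]⟩),⟨0,[(26,0)]⟩,.k,.k,.k,.k,.k,.k,⟨false,0,⟨4,[(2,2),
  (0,3),(10,0),(4,2),(0,4)]⟩,⟨2,[(7,0),(1,0),(14,1),(7,4),(2,0),(14,2)]⟩⟩,⟨true,0,⟨0,[(20,0)]⟩,⟨0,
  [(35,0)]⟩⟩,⟨false,0,⟨5,[(2,1),(44,1),(1,0),(0,0)]⟩,⟨5,[(7,0),(1,0),(14,1),(7,4),(2,0),(14,5)]⟩⟩,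
  ⟨true,0,⟨0,[(32,0)]⟩,⟨0,[(23,0)]⟩⟩,⟨false,0,⟨0,[]⟩,⟨0,[]⟩⟩,⟨false,0,⟨0,[]⟩,⟨0,[]⟩⟩,[.o ⟨false,1,
  ⟨9,[(27,0),(0,0),(3,19),(11,1),(5,4)]⟩,⟨0,[(0,0)]⟩⟩,.o ⟨false,1,⟨1,[(7,0),(7,0),(16,2),(17,1)]⟩,
  ⟨2,[(0,1),(32,1)]⟩⟩,.e ⟨false,0,⟨0,[]⟩,⟨1,[(27,0),(0,0),(21,0)]⟩⟩ ⟨false,1,⟨5,[(7,0),(1,0),(14,1),
  (7,10),(2,0),(14,5)]⟩,⟨0,[(0,0),(19,0)]⟩⟩,.a ⟨true,0,⟨0,[(34,0)]⟩,⟨0,[(31,0)]⟩⟩ ⟨true,0,⟨0,[(46,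
  0)]⟩,⟨1,[(34,0),(0,0)]⟩⟩ ⟨false,1,⟨4,[(3,1),(9,1),(10,0),(6,0),(0,7),(17,4)]⟩,⟨0,[(0,0),(33,
  0)]⟩⟩]⟩) (.I [0,0,-1,-1,1,0,0,2] (.Q [0,-1,-1,0,1,0,1,2,0,0,1] (.p true [0,0,1] [] (⟨0,[(38,0)]⟩,
  ⟨0,[(37,0)]⟩) .k 0 (⟨0,[]⟩,⟨0,[]⟩) .k .k) (.R ⟨0,false,false,false,[0,0,1],[0,0,2],[1],(⟨0,[(39,
  0)]⟩,⟨0,[(38,0)]⟩),(⟨0,[(39,1)]⟩,⟨0,[(3,0)]⟩),⟨0,[(28,0)]⟩,.k,.k,.k,.k,.k,.k,⟨false,0,⟨4,[(4,2),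
  (0,3),(10,0),(4,2),(0,4)]⟩,⟨43,[(0,20),(0,1),(0,20),(23,19),(2,12),(0,12),(6,22),(8,3),(3,1)]⟩⟩,
  ⟨true,0,⟨0,[(22,0)]⟩,⟨0,[(37,0)]⟩⟩,⟨true,0,⟨5,[(4,1),(44,1),(1,0),(0,0)]⟩,⟨22,[(2,9),(6,2),(1,2),
  (14,5),(10,7),(7,4)]⟩⟩,⟨false,1,⟨3,[(2,1),(26,0),(0,0),(21,2)]⟩,⟨0,[(25,0)]⟩⟩,⟨false,0,⟨0,[]⟩,⟨0,
  []⟩⟩,⟨false,0,⟨0,[]⟩,⟨0,[]⟩⟩,[.o ⟨false,1,⟨9,[(2,9),(26,0),(0,0),(15,1),(5,4)]⟩,⟨0,[(25,1)]⟩⟩,.e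
  ⟨false,1,⟨1,[(51,0),(0,0)]⟩,⟨0,[(54,0)]⟩⟩ ⟨false,1,⟨0,[(0,0)]⟩,⟨12,[(4,1),(0,0),(10,0),(7,3),(10,
  10),(13,1),(1,1)]⟩⟩,.a ⟨true,0,⟨0,[(22,0)]⟩,⟨1,[(26,0),(11,0),(0,0)]⟩⟩ ⟨true,0,⟨0,[]⟩,⟨0,[(54,
  0)]⟩⟩ ⟨false,1,⟨1,[(0,0),(1,0),(34,0),(14,0)]⟩,⟨2,[(5,0),(10,0),(7,1),(0,0)]⟩⟩,.e ⟨false,1,⟨1,
  [(51,0),(0,0)]⟩,⟨1,[(36,0),(0,0)]⟩⟩ ⟨false,1,⟨0,[(0,0)]⟩,⟨2,[(24,1),(0,1),(11,0)]⟩⟩]⟩) (.R ⟨0,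
  false,false,false,[0,0,1],[0,0,2],[1],(⟨0,[(39,0)]⟩,⟨0,[(38,0)]⟩),(⟨0,[(39,1)]⟩,⟨0,[(3,0)]⟩),⟨0,
  [(28,0)]⟩,.k,.k,.k,.k,.k,.k,⟨false,0,⟨4,[(4,2),(0,3),(10,0),(4,2),(0,4)]⟩,⟨9,[(1,4),(0,4),(23,4),
  (2,2),(0,2),(15,0),(0,4)]⟩⟩,⟨true,0,⟨0,[(22,0)]⟩,⟨0,[(37,0)]⟩⟩,⟨true,0,⟨5,[(4,1),(44,1),(1,0),(0,
  0)]⟩,⟨22,[(2,9),(6,2),(1,2),(14,5),(10,7),(7,4)]⟩⟩,⟨false,1,⟨3,[(2,1),(26,0),(0,0),(21,2)]⟩,⟨0,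
  [(25,0)]⟩⟩,⟨false,0,⟨0,[]⟩,⟨0,[]⟩⟩,⟨false,0,⟨0,[]⟩,⟨0,[]⟩⟩,[.o ⟨false,1,⟨9,[(2,9),(26,0),(0,0),
  (15,1),(5,4)]⟩,⟨0,[(25,1)]⟩⟩,.a ⟨true,1,⟨0,[(2,0),(49,0)]⟩,⟨0,[(0,0),(32,0)]⟩⟩ ⟨false,1,⟨1,[(51,
  0),(0,0)]⟩,⟨0,[(54,0)]⟩⟩ ⟨true,1,⟨1,[(1,0),(0,0),(44,0),(4,0)]⟩,⟨0,[(0,0)]⟩⟩,.a ⟨true,0,⟨0,[(22,
  0)]⟩,⟨1,[(26,0),(11,0),(0,0)]⟩⟩ ⟨true,0,⟨0,[]⟩,⟨0,[(54,0)]⟩⟩ ⟨false,1,⟨1,[(1,0),(0,0),(44,0),(4,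
  0)]⟩,⟨2,[(5,0),(10,0),(7,1),(0,0)]⟩⟩,.a ⟨true,0,⟨0,[(36,0)]⟩,⟨0,[(33,0)]⟩⟩ ⟨false,1,⟨1,[(51,0),(0,
  0)]⟩,⟨1,[(36,0),(0,0)]⟩⟩ ⟨true,1,⟨3,[(1,1),(0,1),(47,1),(0,0),(0,0)]⟩,⟨0,[(0,0)]⟩⟩]⟩)) (.Q [0,0,1,
  0,0,0,-2,0,0,0,-2] (.p false [0,0,1] [0,1,-1] (⟨0,[(38,0)]⟩,⟨0,[(37,0)]⟩) .k 2 (⟨0,[(27,0)]⟩,⟨0,
  [(38,0),(3,0)]⟩) .k (.r (-1) ⟨9,[(1,9),(23,9),(2,0),(0,0),(15,1),(5,4)]⟩ ⟨2,[(3,1),(44,1),(1,0),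
  (0,0)]⟩)) (.R ⟨0,false,false,true,[1,0,-2],[1,0,-1],[1,0,0,-1,0,0,0,-2],(⟨0,[(3,0)]⟩,⟨0,[(39,
  1)]⟩),(⟨0,[(38,0)]⟩,⟨0,[(39,0)]⟩),⟨0,[(27,0),(11,0)]⟩,.k,.k,(.x 0 ⟨0,[(0,0),(38,1),(4,0)]⟩ ⟨1,[(3,
  1),(10,1),(3,1),(21,1),(10,0),(0,0)]⟩),.k,.k,.k,⟨false,1,⟨4,[(4,0),(0,2),(10,1),(4,0),(0,4),(26,
  4),(2,4)]⟩,⟨9,[(0,2),(1,3),(16,1),(6,1),(18,2),(4,7)]⟩⟩,⟨true,0,⟨0,[(22,0)]⟩,⟨0,[(37,0)]⟩⟩,⟨false,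
  1,⟨0,[(49,0),(2,0)]⟩,⟨0,[(50,0)]⟩⟩,⟨true,0,⟨0,[(34,0)]⟩,⟨0,[(25,0)]⟩⟩,⟨false,0,⟨0,[]⟩,⟨0,[]⟩⟩,
  ⟨false,0,⟨0,[]⟩,⟨0,[]⟩⟩,[.o ⟨false,0,⟨0,[(35,0)]⟩,⟨10,[(2,3),(6,2),(7,2),(28,0),(5,8)]⟩⟩,.o
  ⟨false,0,⟨0,[(25,0)]⟩,⟨19,[(2,9),(26,6),(0,6),(15,3),(5,4)]⟩⟩,.a ⟨true,0,⟨0,[(26,0)]⟩,⟨0,[(22,
  1)]⟩⟩ ⟨true,0,⟨0,[(1,0),(20,0),(4,0),(0,0),(4,0),(6,1),(8,1),(2,0)]⟩,⟨4,[(0,0),(1,2),(16,3),(6,3),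
  (18,0),(4,0)]⟩⟩ ⟨false,0,⟨5,[(4,1),(17,5),(26,1),(1,0),(0,0)]⟩,⟨61,[(0,11),(1,27),(2,5),(3,5),(16,
  46),(19,6),(5,47)]⟩⟩,.o ⟨false,0,⟨0,[(0,0)]⟩,⟨19,[(2,1),(19,35),(1,1),(21,3),(4,10),(0,0)]⟩⟩]⟩)
  (.I [0,0,-1,0,0,1,-1] (.C [(0,1),(0,0),(2,1),(6,1),(1,1),(27,3),(12,2)]) (.C [(0,0),(10,0),(1,0),
  (20,0)])))))) (.Q [0,0,0,0,0,0,0,0,0,-1,2] (.ed false [0,0,2] (.r (-1) ⟨6,[(0,3),(24,2),(0,2),(3,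
  1),(2,1),(9,1),(2,1)]⟩ ⟨4,[(1,1),(10,1),(5,3),(1,3)]⟩)) (.Q [0,0,1,0,0,0,2,0,0,-1,2] (.p true [0,
  0,1] [1,0,-1] (⟨0,[(36,0)]⟩,⟨0,[(35,0)]⟩) .k 2 (⟨0,[(35,0)]⟩,⟨0,[(36,0)]⟩) .k (.r (-1) ⟨6,[(1,3),
  (24,2),(0,2),(3,1),(2,1),(9,1),(2,1)]⟩ ⟨4,[(2,1),(10,1),(5,3),(1,3)]⟩)) (.R ⟨0,false,false,true,
  [0,0,1],[1,0,-1],[1],(⟨0,[(37,0)]⟩,⟨0,[(36,0)]⟩),(⟨0,[(36,0)]⟩,⟨0,[(37,0)]⟩),⟨0,[(26,0)]⟩,.k,.k,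
  .k,.k,.k,.k,⟨false,1,⟨3,[(2,0),(14,0),(13,0),(17,0),(0,1)]⟩,⟨1,[(22,0),(20,0)]⟩⟩,⟨true,0,⟨0,[(24,
  0)]⟩,⟨0,[(0,0)]⟩⟩,⟨true,0,⟨4,[(3,0),(10,0),(5,1),(1,1)]⟩,⟨5,[(7,0),(1,0),(14,1),(7,4),(2,0)]⟩⟩,
  ⟨false,0,⟨2,[(22,1),(0,1),(0,0),(6,1)]⟩,⟨1,[(0,0),(1,0),(14,0),(2,0),(29,0)]⟩⟩,⟨false,0,⟨0,[]⟩,⟨0,
  []⟩⟩,⟨false,0,⟨0,[]⟩,⟨0,[]⟩⟩,[.o ⟨false,0,⟨0,[(33,0)]⟩,⟨34,[(0,11),(1,7),(14,7),(14,2),(11,2),(4,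
  1),(0,18)]⟩⟩,.o ⟨false,0,⟨0,[(23,0)]⟩,⟨9,[(27,0),(0,0),(3,9),(11,1),(5,4)]⟩⟩,.a ⟨true,0,⟨0,[(20,
  0)]⟩,⟨1,[(24,0),(11,0),(0,0)]⟩⟩ ⟨true,0,⟨0,[]⟩,⟨0,[(52,0)]⟩⟩ ⟨false,0,⟨2,[(22,0),(0,0),(0,1),(6,
  0)]⟩,⟨3,[(0,2),(1,0),(14,0),(2,0),(28,0),(0,1)]⟩⟩,.e ⟨false,1,⟨1,[(49,0),(0,0)]⟩,⟨1,[(34,0),(0,
  0)]⟩⟩ ⟨false,0,⟨0,[(23,0),(7,0)]⟩,⟨10,[(0,5),(1,1),(29,4),(1,4),(9,0),(0,1),(4,6)]⟩⟩]⟩) (.I [0,0,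
  0,0,0,1,1] (.C [(0,1),(0,0),(0,0),(36,1),(12,0)]) (.C [(0,0),(20,0),(5,0)]))) (.R ⟨0,false,false,
  false,[0,0,1],[0,0,2],[1],(⟨0,[(36,0)]⟩,⟨0,[(35,0)]⟩),(⟨0,[(36,1)]⟩,⟨0,[(0,0)]⟩),⟨0,[(25,0)]⟩,.k,
  .k,.k,.k,.k,.k,⟨false,0,⟨4,[(2,3),(10,3),(5,7),(1,2)]⟩,⟨6,[(1,3),(24,2),(0,2),(3,1),(2,1),(9,1),
  (2,1)]⟩⟩,⟨true,0,⟨0,[(19,0)]⟩,⟨0,[(34,0)]⟩⟩,⟨true,0,⟨4,[(2,0),(10,0),(5,1),(1,1)]⟩,⟨5,[(6,0),(1,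
  0),(14,1),(7,4),(2,0)]⟩⟩,⟨false,1,⟨0,[(31,0),(17,0)]⟩,⟨0,[(22,0)]⟩⟩,⟨false,0,⟨0,[]⟩,⟨0,[]⟩⟩,
  ⟨false,0,⟨0,[]⟩,⟨0,[]⟩⟩,[.o ⟨false,1,⟨6,[(1,1),(14,1),(2,3),(11,5),(1,1),(9,0),(5,2)]⟩,⟨0,[(22,
  1)]⟩⟩,.o ⟨false,1,⟨1,[(1,0),(3,0),(5,0),(7,0),(13,0),(15,0)]⟩,⟨0,[(22,0),(9,0)]⟩⟩,.a ⟨true,0,⟨0,
  [(19,0)]⟩,⟨1,[(23,0),(11,0),(0,0)]⟩⟩ ⟨true,0,⟨0,[]⟩,⟨0,[(51,0)]⟩⟩ ⟨false,1,⟨1,[(1,0),(17,0),(11,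
  0),(12,0),(4,0)]⟩,⟨2,[(2,0),(10,0),(7,1),(0,0)]⟩⟩,.e ⟨false,1,⟨1,[(48,0),(0,0)]⟩,⟨1,[(33,0),(0,
  0)]⟩⟩ ⟨false,1,⟨1,[(1,0),(14,0),(2,1),(10,0),(18,0)]⟩,⟨2,[(21,1),(0,1),(11,0)]⟩⟩]⟩)))) (.R ⟨0,
  false,false,false,[-1,1,0,0,1],[0,1],[2,0,1,1],(⟨0,[(6,0)]⟩,⟨0,[(25,0),(11,0)]⟩),(⟨0,[(38,0)]⟩,⟨0,
  [(37,0)]⟩),⟨0,[(25,0)]⟩,(.r 0 ⟨0,[(41,0),(6,0)]⟩ ⟨1,[(43,1),(1,0),(0,0)]⟩),.k,.k,.k,.k,.k,⟨true,0,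
  ⟨0,[]⟩,⟨0,[(47,0)]⟩⟩,⟨false,1,⟨5,[(1,0),(7,0),(5,3),(0,1),(10,1),(16,2),(0,1)]⟩,⟨3,[(5,0),(2,0),
  (2,1),(35,0)]⟩⟩,⟨true,0,⟨0,[]⟩,⟨0,[(48,0)]⟩⟩,⟨false,1,⟨5,[(1,0),(7,0),(5,3),(0,1),(10,1),(13,1),
  (2,0),(1,1)]⟩,⟨0,[(11,0)]⟩⟩,⟨false,0,⟨0,[]⟩,⟨0,[]⟩⟩,⟨false,0,⟨0,[]⟩,⟨0,[]⟩⟩,[.o ⟨false,0,⟨0,[(14,
  0)]⟩,⟨8,[(15,4),(8,4),(15,0),(2,3),(2,1)]⟩⟩,.o ⟨false,1,⟨9,[(23,0),(0,0),(15,1),(3,9),(1,4)]⟩,⟨0,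
  [(43,0)]⟩⟩,.a ⟨true,0,⟨0,[(7,0)]⟩,⟨0,[(0,0),(26,0),(13,0)]⟩⟩ ⟨false,0,⟨0,[(41,0)]⟩,⟨1,[(43,1),(1,
  0),(0,0)]⟩⟩ ⟨true,0,⟨6,[(0,2),(8,1),(0,1),(9,0),(6,0),(13,4),(2,4)]⟩,⟨0,[(7,0),(35,0)]⟩⟩,.e ⟨true,
  0,⟨0,[(44,0)]⟩,⟨0,[(0,0),(4,0)]⟩⟩ ⟨true,0,⟨2,[(0,0),(0,0),(7,0),(6,0),(10,1),(13,0),(2,1)]⟩,⟨0,
  [(11,0),(31,0)]⟩⟩]⟩)))))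

theorem ok94 : chk K t94 r57 = true := by decide +kernel

noncomputable def t96 : Tre :=
  (.Q [1,-1,0,1,0,0,-1,0,1,-1,-1,1] (.p false [1,-1,1] [0,0,0,0,1] (⟨0,[(28,0),(3,0)]⟩,⟨0,[(17,
  0)]⟩) .k 2 (⟨0,[(21,0)]⟩,⟨0,[(20,0)]⟩) .k (.r (-1) ⟨49,[(15,24),(2,8),(0,8),(3,49),(11,4),(5,30),
  (1,11)]⟩ ⟨2,[(2,0),(2,0),(5,0),(1,0)]⟩)) (.R ⟨0,false,false,true,[1,0,-1],[2,-1,0,0,-1],[0,1],(⟨0,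
  [(28,0)]⟩,⟨0,[(29,0)]⟩),(⟨0,[(21,0),(11,0)]⟩,⟨0,[(2,0)]⟩),⟨0,[(17,0)]⟩,.k,(.r (-1) ⟨1,[(39,1),(1,
  0),(0,0)]⟩ ⟨0,[(37,0),(6,0)]⟩),.k,(.r 0 ⟨1,[(14,0),(22,0),(2,0),(3,0)]⟩ ⟨2,[(3,1),(1,1),(10,0),(6,
  0),(0,0),(14,2),(2,2)]⟩),.k,.k,⟨false,0,⟨0,[(40,0)]⟩,⟨1,[(39,1),(1,0),(0,0)]⟩⟩,⟨true,0,⟨0,[(1,
  0)]⟩,⟨0,[(0,0),(38,0)]⟩⟩,⟨true,0,⟨1,[(9,0),(6,0),(7,0),(14,0)]⟩,⟨2,[(3,0),(2,0),(5,0),(1,0)]⟩⟩,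
  ⟨false,1,⟨1,[(1,0),(3,0),(17,0),(0,0),(14,1),(2,1)]⟩,⟨2,[(0,1),(2,0),(9,0),(0,0)]⟩⟩,⟨false,0,⟨0,
  []⟩,⟨0,[]⟩⟩,⟨false,0,⟨0,[]⟩,⟨0,[]⟩⟩,[.e ⟨false,0,⟨0,[(38,0)]⟩,⟨1,[(19,0),(0,0),(21,0)]⟩⟩ ⟨false,1,
  ⟨3,[(8,0),(2,2),(0,3),(10,0),(11,0),(3,0),(1,0)]⟩,⟨0,[(0,0)]⟩⟩,.o ⟨false,1,⟨0,[(11,0)]⟩,⟨0,[(7,0),
  (2,0)]⟩⟩,.a ⟨true,0,⟨3,[(1,0),(14,1),(3,0),(2,0)]⟩,⟨0,[(12,0)]⟩⟩ ⟨true,0,⟨0,[(44,0)]⟩,⟨0,[]⟩⟩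
  ⟨false,1,⟨0,[(11,0),(0,0)]⟩,⟨0,[(0,0)]⟩⟩,.o ⟨false,0,⟨0,[(27,0)]⟩,⟨5,[(4,0),(7,4),(6,0),(16,0),(4,
  2)]⟩⟩]⟩) (.I [-1,1,0,-1] (.I [0,0,-1,0,0,0,0,0,1] (.I [0,0,-1,0,0,1,-1] (.C [(0,0),(2,0),(2,0),
  (14,0),(11,1),(6,0),(5,0)]) (.C [(0,0),(19,0),(5,0)])) (.C [(0,0),(4,0),(17,0)])) (.C [(0,0),(0,
  0),(2,0),(23,0)])))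

theorem ok96 : chk K t96 r56 = true := by decide +kernel

noncomputable def t98 : Tre :=
  (.Q [2,-1,0,1,0,0,1,1,2,-1,1,2] (.p true [0,0,1] [1,0,0,0,-2] (⟨0,[(27,0)]⟩,⟨0,[(26,0)]⟩) .k 2
  (⟨0,[(0,1),(14,0),(0,0)]⟩,⟨0,[(20,1)]⟩) .k (.r (-1) ⟨9,[(14,4),(2,2),(0,2),(3,9),(11,0),(5,4)]⟩
  ⟨6,[(1,4),(2,4),(5,4),(1,0),(28,3)]⟩)) (.R ⟨1,true,false,false,[1,0,0,0,-1],[0,0,1,0,1],[1,0,1,0,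
  0,0,0,1],(⟨0,[(20,0)]⟩,⟨0,[(21,0)]⟩),(⟨0,[(21,0),(6,0)]⟩,⟨0,[(1,0),(15,0)]⟩),⟨0,[(1,0)]⟩,.k,.k,
  (.r (-1) ⟨1,[(38,1),(1,0),(0,0)]⟩ ⟨0,[(36,0),(6,0)]⟩),.k,(.r (-1) ⟨5,[(2,1),(2,1),(5,1),(1,1),(24,
  5),(1,2),(0,2)]⟩ ⟨2,[(8,0),(6,0),(7,1),(2,0),(9,1)]⟩),.k,⟨true,0,⟨1,[(25,0),(0,0)]⟩,⟨0,[]⟩⟩,
  ⟨false,0,⟨0,[(3,1),(18,0)]⟩,⟨21,[(4,15),(0,15),(9,10),(2,11),(16,0),(5,7)]⟩⟩,⟨false,1,⟨0,[(23,0),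
  (2,0),(14,0)]⟩,⟨0,[(2,0),(2,0),(5,0)]⟩⟩,⟨true,0,⟨0,[(0,0),(37,0)]⟩,⟨0,[(4,0),(0,0),(8,0)]⟩⟩,⟨true,
  0,⟨2,[(8,0),(6,0),(7,1),(2,0),(9,1)]⟩,⟨0,[(2,0),(2,0),(5,0),(26,0)]⟩⟩,⟨false,0,⟨0,[(0,0)]⟩,⟨8,[(4,
  3),(0,12),(4,0),(24,0),(2,7),(2,5)]⟩⟩,[]⟩) (.Q [1,0,0,-1,0,0,-1,-1,1,1,-1,1] (.p true [1,0,-1,0,
  1] [] (⟨0,[(21,0),(5,0)]⟩,⟨0,[(1,0),(14,0)]⟩) .k 0 (⟨0,[]⟩,⟨0,[]⟩) .k (.r 0 ⟨2,[(2,0),(2,0),(5,0),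
  (1,0)]⟩ ⟨49,[(15,24),(2,8),(0,8),(3,49),(11,4),(5,30),(1,11)]⟩)) (.R ⟨0,false,false,false,[1,0,
  -1],[0,1,0,0,-1],[-1,0,2,1],(⟨0,[(28,0)]⟩,⟨0,[(29,0)]⟩),(⟨0,[(2,0),(14,0),(0,0)]⟩,⟨0,[(22,0),(10,
  0)]⟩),⟨0,[(17,0)]⟩,.k,(.r 0 ⟨0,[(37,0),(6,0)]⟩ ⟨1,[(39,1),(1,0),(0,0)]⟩),.k,(.r (-1) ⟨4,[(0,0),(0,
  1),(2,2),(9,0),(24,1),(1,2),(0,1)]⟩ ⟨1,[(9,0),(6,0),(7,0),(12,0),(5,0)]⟩),.k,.k,⟨true,0,⟨1,[(26,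
  0),(0,0)]⟩,⟨0,[]⟩⟩,⟨false,1,⟨1,[(1,1),(1,1),(5,1),(2,1),(28,0),(0,0)]⟩,⟨6,[(0,3),(15,2),(3,2),(3,
  3),(2,0),(9,3),(5,1)]⟩⟩,⟨true,0,⟨5,[(9,0),(6,0),(7,4),(2,3),(9,4),(5,2)]⟩,⟨4,[(0,0),(0,3),(1,6),
  (8,6),(10,1),(14,0)]⟩⟩,⟨false,1,⟨2,[(1,0),(7,3),(9,0),(22,1)]⟩,⟨0,[(0,0)]⟩⟩,⟨false,0,⟨0,[]⟩,⟨0,
  []⟩⟩,⟨false,0,⟨0,[]⟩,⟨0,[]⟩⟩,[.o ⟨false,0,⟨5,[(1,4),(1,3),(5,5),(3,0),(3,0),(0,0),(11,1),(6,3)]⟩,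
  ⟨4,[(0,3),(10,0),(8,1),(3,3),(11,0),(5,1)]⟩⟩,.o ⟨false,1,⟨18,[(1,5),(7,14),(3,8),(5,6),(16,1),(3,
  0),(1,7)]⟩,⟨1,[(0,0),(6,0),(16,0),(14,0)]⟩⟩,.a ⟨true,0,⟨1,[(16,0),(11,0),(0,0)]⟩,⟨0,[(12,0)]⟩⟩
  ⟨false,0,⟨3,[(26,0),(0,0),(9,3),(5,1)]⟩,⟨7,[(1,1),(1,5),(1,1),(6,3),(10,3),(15,5),(1,2),(0,4)]⟩⟩
  ⟨true,0,⟨5,[(1,4),(1,3),(5,5),(2,5),(0,0),(3,0),(0,0),(11,1),(6,3)]⟩,⟨3,[(0,2),(6,0),(8,1),(7,2),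
  (14,0)]⟩⟩,.o ⟨false,0,⟨0,[(27,0)]⟩,⟨5,[(4,0),(7,4),(6,0),(16,0),(4,2)]⟩⟩]⟩) (.Q [0,0,2,0,0,0,-1,0,
  -1,1,-1,-1] (.p false [0,0,1] [1,0,0,0,-1] (⟨0,[(29,0)]⟩,⟨0,[(28,0)]⟩) .k 2 (⟨0,[(21,0)]⟩,⟨0,[(22,
  0)]⟩) .k (.r (-1) ⟨9,[(16,4),(2,2),(0,2),(3,9),(11,0),(5,4)]⟩ ⟨5,[(1,0),(1,1),(8,1),(0,0),(0,1),
  (16,0),(1,0)]⟩)) (.R ⟨0,false,false,false,[1,0,-1],[0,1,0,0,1],[1],(⟨0,[(29,0)]⟩,⟨0,[(30,0)]⟩),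
  (⟨0,[(23,0),(11,0)]⟩,⟨0,[(3,0)]⟩),⟨0,[(18,0)]⟩,.k,(.r 0 ⟨0,[(38,0),(6,0)]⟩ ⟨1,[(40,1),(1,0),(0,
  0)]⟩),.k,(.r (-1) ⟨13,[(2,1),(1,3),(8,3),(1,5),(8,1),(15,11),(1,6),(0,6)]⟩ ⟨2,[(0,0),(9,1),(6,0),
  (3,0),(3,0),(12,0)]⟩),.k,.k,⟨false,1,⟨7,[(2,1),(1,5),(1,1),(6,3),(10,3),(15,5),(1,2),(0,4)]⟩,⟨0,
  [(38,0),(6,0)]⟩⟩,⟨true,0,⟨0,[(4,0),(8,0)]⟩,⟨0,[(0,0)]⟩⟩,⟨false,1,⟨1,[(10,0),(6,0),(7,0),(14,0),(2,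
  1)]⟩,⟨2,[(4,0),(2,0),(5,0),(1,0)]⟩⟩,⟨true,0,⟨0,[(10,0),(10,0)]⟩,⟨10,[(0,0),(1,4),(12,2),(8,4),(15,
  5)]⟩⟩,⟨false,0,⟨0,[]⟩,⟨0,[]⟩⟩,⟨false,0,⟨0,[]⟩,⟨0,[]⟩⟩,[.o ⟨false,0,⟨0,[(8,0),(32,0)]⟩,⟨8,[(2,1),
  (3,1),(5,2),(24,0),(2,3),(2,3)]⟩⟩,.o ⟨false,0,⟨0,[(4,0),(33,0)]⟩,⟨84,[(0,10),(1,1),(3,1),(2,10),
  (2,56),(23,21),(0,13),(2,25)]⟩⟩,.a ⟨true,0,⟨2,[(0,0),(20,0),(2,1)]⟩,⟨0,[(13,0)]⟩⟩ ⟨true,0,⟨0,[]⟩,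
  ⟨0,[(45,0)]⟩⟩ ⟨false,0,⟨0,[(4,0),(8,0),(24,0)]⟩,⟨17,[(2,1),(3,1),(5,11),(4,8),(19,0),(2,3),(2,
  3)]⟩⟩,.o ⟨false,0,⟨0,[(28,0)]⟩,⟨5,[(5,0),(7,4),(6,0),(16,0),(4,2)]⟩⟩]⟩) (.I [0,0,1,1,-1,0,0,-3]
  (.Q [0,0,0,0,0,0,0,0,0,-1,2] (.ed false [0,0,2] (.r (-1) ⟨0,[(11,0),(6,0),(7,0),(14,0),(2,0)]⟩
  ⟨13,[(0,1),(0,3),(1,1),(12,9),(8,1),(17,0),(0,0)]⟩)) (.Q [0,1,0,0,-1,0,-2,-2,0,1,-2] (.p false [0,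
  0,1] [1,0,-1] (⟨0,[(32,0)]⟩,⟨0,[(31,0)]⟩) .k 2 (⟨0,[(31,0)]⟩,⟨0,[(32,0)]⟩) .k (.r (-1) ⟨0,[(12,0),
  (6,0),(7,0),(14,0),(2,0)]⟩ ⟨13,[(1,1),(0,3),(1,1),(12,9),(8,1),(17,0),(0,0)]⟩)) (.Q [0,0,1,0,0,0,
  3,0,0,-1,3] (.p true [0,0,1] [1,1,-2] (⟨0,[(33,0)]⟩,⟨0,[(32,0)]⟩) .k 2 (⟨0,[(22,0),(9,0)]⟩,⟨0,[(1,
  0),(35,0)]⟩) (.x (-1) ⟨9,[(1,9),(18,9),(2,0),(0,0),(12,9),(2,1),(4,4)]⟩ ⟨0,[(16,1),(5,1),(11,0),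
  (12,0)]⟩) (.x (-1) ⟨28,[(4,5),(0,5),(2,17),(7,68),(5,3),(9,82),(1,3),(5,12),(5,2)]⟩ ⟨1,[(1,2),(18,
  2)]⟩)) (.K ⟨0,[1,1,-2],0,(-1),(⟨0,[(23,0),(9,0)]⟩,⟨0,[(2,0),(35,0)]⟩),(.x (-1) ⟨9,[(2,9),(18,9),
  (2,0),(0,0),(12,9),(2,1),(4,4)]⟩ ⟨2,[(0,1),(22,3),(9,1),(1,0),(12,0)]⟩),(.r 0 ⟨20,[(1,1),(1,3),(0,
  5),(1,1),(9,1),(2,11),(26,1),(0,1)]⟩ ⟨0,[(14,0),(6,0),(7,0),(14,0),(2,0)]⟩),(.r 1 ⟨4,[(1,0),(1,3),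
  (10,0),(14,2),(2,1),(9,3),(2,0)]⟩ ⟨2,[(4,1),(3,1),(1,3),(10,3),(7,1),(14,5),(2,5)]⟩),(.r 1 ⟨0,[(3,
  0)]⟩ ⟨1,[(5,0),(2,1),(1,0),(10,2),(7,3),(14,2),(2,3)]⟩),.k,[⟨0,[(0,0)]⟩,⟨0,[(21,0)]⟩,⟨0,[(14,0),
  (14,0),(14,1),(2,0)]⟩,⟨0,[(1,0),(43,0)]⟩]⟩) (.I [0,0,0,0,0,1,1] (.C [(0,1),(0,0),(1,0),(14,0),(17,
  1),(12,0)]) (.C [(0,0),(17,0),(5,0)]))) (.Q [0,0,1,0,0,0,2,0,0,-1,2] (.p true [0,0,1] [1,0,-1]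
  (⟨0,[(33,0)]⟩,⟨0,[(32,0)]⟩) .k 2 (⟨0,[(32,0)]⟩,⟨0,[(33,0)]⟩) .k (.r (-1) ⟨30,[(0,20),(19,30),(2,
  5),(0,5),(3,19),(11,1),(7,0)]⟩ ⟨13,[(2,1),(0,3),(1,1),(12,9),(8,1),(17,0),(0,0)]⟩)) (.R ⟨0,false,
  false,true,[0,0,1],[1,0,-1],[1],(⟨0,[(34,0)]⟩,⟨0,[(33,0)]⟩),(⟨0,[(33,0)]⟩,⟨0,[(34,0)]⟩),⟨0,[(23,
  0)]⟩,.k,.k,.k,.k,.k,.k,⟨false,1,⟨11,[(1,5),(19,0),(6,9),(12,0),(4,0),(0,2)]⟩,⟨1,[(19,0),(20,0)]⟩⟩,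
  ⟨true,0,⟨0,[(21,0)]⟩,⟨0,[(0,0)]⟩⟩,⟨true,0,⟨27,[(3,1),(0,3),(1,1),(12,9),(8,1),(17,0),(0,0)]⟩,⟨1,
  [(14,0),(6,0),(7,0),(14,0)]⟩⟩,⟨false,0,⟨2,[(19,1),(0,1),(0,0),(6,1)]⟩,⟨0,[(1,0)]⟩⟩,⟨false,0,⟨0,
  []⟩,⟨0,[]⟩⟩,⟨false,0,⟨0,[]⟩,⟨0,[]⟩⟩,[.o ⟨false,0,⟨0,[(30,0)]⟩,⟨19,[(1,9),(22,0),(0,0),(15,1),(5,
  4)]⟩⟩,.o ⟨false,0,⟨0,[(20,0)]⟩,⟨30,[(1,10),(22,11),(0,11),(3,8),(11,3),(7,1)]⟩⟩,.a ⟨true,0,⟨0,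
  [(17,0)]⟩,⟨1,[(21,0),(11,0),(0,0)]⟩⟩ ⟨true,0,⟨0,[]⟩,⟨0,[(49,0)]⟩⟩ ⟨false,0,⟨2,[(19,0),(0,0),(0,1),
  (6,0)]⟩,⟨3,[(0,1),(0,1),(44,0),(0,0)]⟩⟩,.e ⟨false,1,⟨1,[(46,0),(0,0)]⟩,⟨1,[(31,0),(0,0)]⟩⟩ ⟨false,
  0,⟨0,[(20,0),(7,0)]⟩,⟨3,[(1,3),(17,1),(11,0),(0,0)]⟩⟩]⟩) (.I [0,0,0,0,0,1,1] (.C [(0,1),(0,0),(1,
  0),(32,1),(12,0)]) (.C [(0,0),(17,0),(5,0)])))) (.I [0,0,-1,-1,0,0,0,-2] (.Q [0,0,1,0,0,0,-2,0,0,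
  0,-2] (.p false [0,0,1] [0,1,-1] (⟨0,[(33,0)]⟩,⟨0,[(32,0)]⟩) .k 2 (⟨0,[(22,0)]⟩,⟨0,[(33,0),(3,
  0)]⟩) .k (.r (-1) ⟨0,[(13,0),(6,0),(7,0),(14,0),(2,0)]⟩ ⟨8,[(0,1),(1,1),(15,3),(26,1)]⟩)) (.R ⟨0,
  false,false,true,[1,0,-2],[1,0,-1],[0,1],(⟨0,[(2,0)]⟩,⟨0,[(34,1)]⟩),(⟨0,[(33,0)]⟩,⟨0,[(34,0)]⟩),
  ⟨0,[(22,0),(11,0)]⟩,.k,.k,(.r 0 ⟨0,[(1,0)]⟩ ⟨1,[(0,0),(13,0),(6,0),(2,0),(0,0),(3,2),(12,0),(4,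
  0)]⟩),.k,.k,.k,⟨false,1,⟨5,[(21,0),(6,3),(0,5),(11,0),(4,0),(0,2)]⟩,⟨8,[(1,0),(1,0),(15,1),(26,
  0)]⟩⟩,⟨true,0,⟨0,[(17,0)]⟩,⟨0,[(32,0)]⟩⟩,⟨false,1,⟨1,[(0,0),(7,0),(1,0),(10,0),(7,2),(17,1)]⟩,⟨0,
  [(1,0),(40,0)]⟩⟩,⟨true,0,⟨0,[(29,0)]⟩,⟨0,[(20,0)]⟩⟩,⟨false,0,⟨0,[]⟩,⟨0,[]⟩⟩,⟨false,0,⟨0,[]⟩,⟨0,
  []⟩⟩,[.o ⟨false,0,⟨0,[(30,0)]⟩,⟨0,[(14,0),(29,0),(2,0)]⟩⟩,.o ⟨false,0,⟨0,[(20,0)]⟩,⟨9,[(24,0),(0,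
  0),(3,9),(11,1),(5,4)]⟩⟩,.a ⟨true,0,⟨0,[(21,0)]⟩,⟨0,[(17,1)]⟩⟩ ⟨true,0,⟨0,[(49,0)]⟩,⟨0,[]⟩⟩
  ⟨false,0,⟨8,[(1,0),(1,0),(13,8),(1,1),(26,0)]⟩,⟨1,[(0,0),(7,0),(1,0),(10,0),(7,0),(17,1)]⟩⟩,.o
  ⟨false,0,⟨0,[(0,0)]⟩,⟨1,[(4,0),(4,0),(7,1),(6,1)]⟩⟩]⟩) (.I [0,0,-1,0,0,1,-1] (.C [(0,1),(0,0),(1,
  1),(19,1),(12,3),(12,2)]) (.C [(0,0),(22,0),(5,0)]))) (.Q [0,0,1,0,0,0,-2,0,0,0,-2] (.p false [0,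
  0,1] [0,1,-1] (⟨0,[(33,0)]⟩,⟨0,[(32,0)]⟩) .k 2 (⟨0,[(22,0)]⟩,⟨0,[(33,0),(3,0)]⟩) .k (.r (-1) ⟨1,
  [(0,1),(42,1),(1,0),(0,0)]⟩ ⟨13,[(2,1),(0,3),(1,1),(12,9),(8,1),(17,0),(0,0)]⟩)) (.R ⟨0,false,
  false,true,[1,0,-2],[1,0,-1],[1,0,1],(⟨0,[(2,0)]⟩,⟨0,[(34,1)]⟩),(⟨0,[(33,0)]⟩,⟨0,[(34,0)]⟩),⟨0,
  [(22,0),(11,0)]⟩,.k,.k,(.x 0 ⟨0,[(0,0),(33,1),(4,0)]⟩ ⟨9,[(2,9),(1,4),(8,1),(3,12),(6,2),(13,9),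
  (2,2),(5,0)]⟩),.k,.k,.k,⟨false,1,⟨3,[(1,1),(42,1),(1,0),(0,2)]⟩,⟨29,[(3,3),(0,7),(1,3),(12,6),(8,
  3),(11,12),(5,3)]⟩⟩,⟨true,0,⟨0,[(17,0)]⟩,⟨0,[(32,0)]⟩⟩,⟨false,1,⟨0,[(1,0),(42,0),(2,0)]⟩,⟨6,[(3,
  1),(0,3),(1,1),(12,2),(8,1),(17,0),(0,0)]⟩⟩,⟨true,0,⟨0,[(29,0)]⟩,⟨0,[(20,0)]⟩⟩,⟨false,0,⟨0,[]⟩,⟨0,
  []⟩⟩,⟨false,0,⟨0,[]⟩,⟨0,[]⟩⟩,[.o ⟨false,0,⟨0,[(30,0)]⟩,⟨15,[(1,3),(2,1),(0,2),(3,5),(0,4),(30,0),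
  (2,6),(2,13)]⟩⟩,.o ⟨false,0,⟨0,[(20,0)]⟩,⟨9,[(24,0),(0,0),(3,9),(11,1),(5,4)]⟩⟩,.a ⟨true,0,⟨0,
  [(21,0)]⟩,⟨0,[(17,1)]⟩⟩ ⟨true,0,⟨1,[(31,0),(0,0)]⟩,⟨0,[(43,0)]⟩⟩ ⟨false,0,⟨4,[(3,0),(0,0),(11,0),
  (0,3),(1,0)]⟩,⟨56,[(0,10),(0,27),(2,0),(0,0),(22,36),(12,6),(2,28),(2,42)]⟩⟩,.o ⟨false,0,⟨0,[(0,
  0)]⟩,⟨1,[(4,0),(4,0),(7,1),(6,1)]⟩⟩]⟩) (.I [0,0,-1,0,0,-1,0,0,1] (.I [0,0,-1,0,0,1,-1] (.C [(0,1),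
  (1,0),(1,1),(19,1),(12,3),(12,2)]) (.C [(0,0),(23,0),(5,0)])) (.C [(0,0),(4,0),(2,0),(24,0)])))))
  (.Q [0,0,1,0,0,0,2,0,0,-1,2] (.p true [0,0,1] [1,0,-1] (⟨0,[(31,0)]⟩,⟨0,[(30,0)]⟩) .k 2 (⟨0,[(30,
  0)]⟩,⟨0,[(31,0)]⟩) .k (.r (-1) ⟨6,[(0,3),(20,2),(0,2),(3,1),(2,1),(9,1),(2,1)]⟩ ⟨4,[(1,1),(6,1),
  (7,3)]⟩)) (.R ⟨0,false,false,true,[0,0,1],[1,0,-1],[1],(⟨0,[(32,0)]⟩,⟨0,[(31,0)]⟩),(⟨0,[(31,0)]⟩,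
  ⟨0,[(32,0)]⟩),⟨0,[(21,0)]⟩,.k,.k,.k,.k,.k,.k,⟨false,1,⟨3,[(1,0),(10,0),(13,0),(17,0),(0,1)]⟩,⟨1,
  [(17,0),(20,0)]⟩⟩,⟨true,0,⟨0,[(19,0)]⟩,⟨0,[(0,0)]⟩⟩,⟨true,0,⟨4,[(2,0),(6,0),(7,1)]⟩,⟨1,[(12,0),(6,
  0),(7,0),(14,0)]⟩⟩,⟨false,0,⟨2,[(17,1),(0,1),(0,0),(6,1)]⟩,⟨1,[(0,0),(0,0),(10,0),(2,0),(29,0)]⟩⟩,
  ⟨false,0,⟨0,[]⟩,⟨0,[]⟩⟩,⟨false,0,⟨0,[]⟩,⟨0,[]⟩⟩,[.o ⟨false,0,⟨0,[(28,0)]⟩,⟨34,[(0,11),(0,7),(10,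
  7),(14,2),(11,2),(4,1),(0,18)]⟩⟩,.o ⟨false,0,⟨0,[(18,0)]⟩,⟨9,[(22,0),(0,0),(3,9),(11,1),(5,4)]⟩⟩,
  .a ⟨true,0,⟨0,[(15,0)]⟩,⟨1,[(19,0),(11,0),(0,0)]⟩⟩ ⟨true,0,⟨0,[]⟩,⟨0,[(47,0)]⟩⟩ ⟨false,0,⟨2,[(17,
  0),(0,0),(0,1),(6,0)]⟩,⟨10,[(0,7),(0,1),(0,0),(0,0),(8,0),(14,2),(16,1),(0,6)]⟩⟩,.e ⟨false,1,⟨1,
  [(44,0),(0,0)]⟩,⟨1,[(29,0),(0,0)]⟩⟩ ⟨false,0,⟨0,[(18,0),(7,0)]⟩,⟨10,[(0,5),(0,1),(25,4),(1,4),(9,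
  0),(0,1),(4,6)]⟩⟩]⟩) (.Q [0,0,0,0,0,0,0,0,0,1,-2] (.ed true [0,0,2] (.r (-1) ⟨6,[(1,3),(20,2),(0,
  2),(3,1),(2,1),(9,1),(2,1)]⟩ ⟨4,[(2,1),(6,1),(7,3)]⟩)) (.R ⟨0,false,false,true,[1,0,-2],[1,0,-1],
  [1],(⟨0,[(0,0)]⟩,⟨0,[(33,1)]⟩),(⟨0,[(32,0)]⟩,⟨0,[(33,0)]⟩),⟨0,[(21,0),(11,0)]⟩,.k,.k,(.x 0 ⟨1,
  [(20,0),(0,0),(9,1),(1,2),(4,0)]⟩ ⟨9,[(0,9),(2,4),(8,1),(3,12),(6,2),(13,9),(2,2),(5,0)]⟩),.k,.k,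
  .k,⟨false,1,⟨3,[(2,0),(10,0),(13,0),(17,0),(0,1)]⟩,⟨1,[(18,0),(20,0)]⟩⟩,⟨true,0,⟨0,[(16,0)]⟩,⟨0,
  [(31,0)]⟩⟩,⟨false,1,⟨5,[(2,3),(20,0),(0,0),(16,3),(4,0)]⟩,⟨4,[(3,1),(6,1),(7,3)]⟩⟩,⟨true,0,⟨0,
  [(28,0)]⟩,⟨0,[(19,0)]⟩⟩,⟨false,0,⟨0,[]⟩,⟨0,[]⟩⟩,⟨false,0,⟨0,[]⟩,⟨0,[]⟩⟩,[.o ⟨false,0,⟨0,[(29,0)]⟩,
  ⟨7,[(2,1),(1,0),(3,0),(4,0),(2,2),(13,1),(9,0),(5,3)]⟩⟩,.o ⟨false,0,⟨0,[(19,0)]⟩,⟨9,[(23,0),(0,0),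
  (3,9),(11,1),(5,4)]⟩⟩,.a ⟨true,0,⟨0,[(20,0)]⟩,⟨0,[(16,1)]⟩⟩ ⟨true,0,⟨0,[]⟩,⟨0,[(48,0)]⟩⟩ ⟨false,0,
  ⟨4,[(3,0),(6,0),(5,4),(1,1)]⟩,⟨29,[(2,9),(17,14),(2,3),(0,3),(15,2),(0,9),(4,9)]⟩⟩,.o ⟨false,0,⟨0,
  [(1,0),(19,0),(0,0),(11,1),(12,1)]⟩,⟨1,[(3,0),(4,0),(7,1),(6,1)]⟩⟩]⟩) (.I [0,0,0,0,0,1,1] (.C [(0,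
  1),(0,0),(0,0),(32,1),(12,0)]) (.C [(0,0),(16,0),(5,0)]))))))))

theorem ok98 : chk K t98 r55 = true := by decide +kernel

noncomputable def t101 : Tre :=
  (.R ⟨0,false,false,true,[0,0,1],[1,0,0,0,-1],[1],(⟨0,[(25,0)]⟩,⟨0,[(24,0)]⟩),(⟨0,[(17,0)]⟩,⟨0,
  [(18,0)]⟩),⟨0,[(14,0)]⟩,.k,.k,.k,.k,.k,.k,⟨false,1,⟨1,[(37,0),(0,0)]⟩,⟨0,[(40,0)]⟩⟩,⟨true,0,⟨0,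
  [(0,0)]⟩,⟨1,[(3,1),(4,0),(13,0),(16,0)]⟩⟩,⟨true,0,⟨0,[(8,0),(2,0)]⟩,⟨1,[(5,0),(6,0),(7,0),(14,
  0)]⟩⟩,⟨false,0,⟨0,[(2,0)]⟩,⟨0,[(3,0),(16,0),(17,0)]⟩⟩,⟨false,0,⟨0,[]⟩,⟨0,[]⟩⟩,⟨false,0,⟨0,[]⟩,⟨0,
  []⟩⟩,[.o ⟨false,0,⟨1,[(0,0),(3,0),(1,0),(28,0)]⟩,⟨9,[(15,0),(0,10),(15,1),(5,4)]⟩⟩,.o ⟨false,1,
  ⟨38,[(1,4),(0,4),(12,28),(16,0),(5,7),(1,10)]⟩,⟨0,[(3,0)]⟩⟩,.e ⟨true,0,⟨0,[]⟩,⟨0,[(40,0)]⟩⟩ ⟨true,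
  0,⟨0,[(0,0),(39,0)]⟩,⟨0,[(3,0),(4,0)]⟩⟩,.a ⟨true,0,⟨0,[(22,0)]⟩,⟨0,[(19,0)]⟩⟩ ⟨false,1,⟨1,[(37,0),
  (0,0)]⟩,⟨1,[(22,0),(0,0)]⟩⟩ ⟨true,0,⟨0,[(0,0),(33,0)]⟩,⟨0,[(3,0),(18,0)]⟩⟩]⟩)

theorem ok101 : chk K t101 r53 = true := by decide +kernel

noncomputable def t105 : Tre :=
  (.R ⟨2,true,false,true,[0,1],[1,0,0,0,-1],[0,0,1,1],(⟨0,[]⟩,⟨0,[]⟩),(⟨0,[(14,0)]⟩,⟨0,[(15,0)]⟩),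
  ⟨0,[]⟩,.k,.k,.k,(.r 0 ⟨0,[(30,0),(6,0)]⟩ ⟨1,[(32,1),(1,0),(0,0)]⟩),.k,.k,⟨true,0,⟨0,[(30,0)]⟩,⟨0,
  [(32,0)]⟩⟩,⟨false,0,⟨0,[(0,0)]⟩,⟨9,[(12,0),(0,10),(15,1),(4,4)]⟩⟩,⟨false,1,⟨1,[(12,0),(0,0),(21,
  0)]⟩,⟨0,[]⟩⟩,⟨true,0,⟨0,[(0,0),(31,0)]⟩,⟨0,[(3,0),(9,0)]⟩⟩,⟨true,0,⟨0,[(33,0)]⟩,⟨0,[(32,0)]⟩⟩,
  ⟨false,0,⟨0,[(0,0)]⟩,⟨9,[(12,0),(0,10),(15,1),(5,4)]⟩⟩,[]⟩)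

theorem ok105 : chk K t105 r50 = true := by decide +kernel

noncomputable def t109 : Tre :=
  (.R ⟨0,false,false,true,[0,1,-1],[0,1],[0,1,1],(⟨0,[(8,0)]⟩,⟨0,[(19,0),(3,0)]⟩),(⟨0,[(24,0)]⟩,⟨0,
  [(23,0)]⟩),⟨0,[(19,0)]⟩,.k,.k,.k,.k,.k,.k,⟨false,1,⟨9,[(0,8),(0,0),(8,0),(15,1),(4,4)]⟩,⟨0,[(30,
  0)]⟩⟩,⟨true,0,⟨0,[(2,0)]⟩,⟨0,[(17,0)]⟩⟩,⟨false,1,⟨1,[(6,0),(0,0),(0,0),(5,1),(5,1),(8,1),(2,1)]⟩,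
  ⟨0,[(2,0),(0,0)]⟩⟩,⟨true,0,⟨0,[(14,0)]⟩,⟨0,[(5,0)]⟩⟩,⟨false,0,⟨0,[]⟩,⟨0,[]⟩⟩,⟨false,0,⟨0,[]⟩,⟨0,
  []⟩⟩,[.o ⟨false,0,⟨0,[(7,0),(0,0),(11,1),(7,0),(1,0),(2,0)]⟩,⟨9,[(0,8),(0,0),(8,0),(15,1),(5,
  4)]⟩⟩,.a ⟨true,0,⟨0,[(30,0)]⟩,⟨0,[(0,0)]⟩⟩ ⟨true,0,⟨1,[(16,0),(0,0)]⟩,⟨0,[]⟩⟩ ⟨false,0,⟨0,[(2,0),
  (27,0)]⟩,⟨2,[(0,2),(5,0),(6,0),(12,0),(4,0)]⟩⟩,.o ⟨false,1,⟨2,[(6,0),(6,0),(12,0),(4,0)]⟩,⟨0,[(16,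
  0)]⟩⟩,.o ⟨false,1,⟨49,[(6,24),(2,16),(0,16),(15,14),(5,2),(1,5)]⟩,⟨0,[(2,0)]⟩⟩]⟩)

theorem ok109 : chk K t109 r47 = true := by decide +kernel

noncomputable def t113 : Tre :=
  (.I [0,-1,-1,-1,1] (.Q [0,0,0,1,0,0,0,0,0,-1] (.pp true [-1,1]) (.Q [0,0,0,0,0,0,-1,0,0,0,-1] (.p
  false [0,0,1] [] (⟨0,[(18,0)]⟩,⟨0,[(17,0)]⟩) .k 0 (⟨0,[]⟩,⟨0,[]⟩) .k .k) (.I [0,-1,1,1] (.R ⟨0,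
  false,false,false,[0,0,1],[0,1],[1,1,1],(⟨0,[(20,0)]⟩,⟨0,[(19,0)]⟩),(⟨0,[(25,0)]⟩,⟨0,[(24,0)]⟩),
  ⟨0,[(9,0)]⟩,.k,.k,.k,.k,.k,.k,⟨true,0,⟨0,[(30,0)]⟩,⟨0,[(0,0)]⟩⟩,⟨false,1,⟨5,[(7,0),(6,3),(12,0),
  (4,3)]⟩,⟨0,[(17,0)]⟩⟩,⟨false,0,⟨3,[(5,1),(11,0),(0,0)]⟩,⟨0,[(2,0),(1,0),(9,0),(18,0)]⟩⟩,⟨true,0,
  ⟨0,[(6,0),(24,0)]⟩,⟨0,[(4,0)]⟩⟩,⟨false,0,⟨0,[]⟩,⟨0,[]⟩⟩,⟨false,0,⟨0,[]⟩,⟨0,[]⟩⟩,[.o ⟨false,0,⟨0,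
  [(2,0)]⟩,⟨1,[(10,0),(0,0),(18,1),(2,0)]⟩⟩,.o ⟨false,1,⟨9,[(0,9),(9,0),(0,0),(15,1),(4,4)]⟩,⟨0,
  [(30,0)]⟩⟩,.o ⟨false,1,⟨4,[(5,0),(9,1),(1,2),(9,0),(4,1),(0,0)]⟩,⟨0,[(1,0)]⟩⟩,.a ⟨true,0,⟨0,[(17,
  0)]⟩,⟨0,[(14,0)]⟩⟩ ⟨false,0,⟨0,[]⟩,⟨1,[(10,0),(0,0),(21,0)]⟩⟩ ⟨true,0,⟨0,[(2,0),(11,0)]⟩,⟨0,[(17,
  0),(12,0)]⟩⟩]⟩) (.Q [0,0,0,-1,0,0,-1,-1,0,1,-1] (.p false [0,0,1] [1] (⟨0,[(20,0)]⟩,⟨0,[(19,0)]⟩)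
  .k 1 (⟨0,[]⟩,⟨0,[]⟩) .k .k) (.R ⟨0,false,false,true,[0,0,1],[1,-1],[0,0,1],(⟨0,[(21,0)]⟩,⟨0,[(20,
  0)]⟩),(⟨0,[(25,0)]⟩,⟨0,[(26,0)]⟩),⟨0,[(10,0)]⟩,.k,.k,.k,.k,.k,.k,⟨true,0,⟨1,[(18,0),(0,0),(9,1)]⟩,
  ⟨0,[(1,0)]⟩⟩,⟨false,0,⟨1,[(8,0),(11,0),(0,0)]⟩,⟨1,[(1,0),(1,1),(0,0),(13,1),(14,0)]⟩⟩,⟨true,0,⟨3,
  [(6,1),(11,0),(0,0)]⟩,⟨0,[(3,0),(1,0),(9,0)]⟩⟩,⟨false,0,⟨0,[(0,0)]⟩,⟨0,[(3,0),(12,0),(17,0)]⟩⟩,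
  ⟨false,0,⟨0,[]⟩,⟨0,[]⟩⟩,⟨false,0,⟨0,[]⟩,⟨0,[]⟩⟩,[.o ⟨false,0,⟨0,[(31,0)]⟩,⟨9,[(11,0),(0,0),(15,1),
  (3,9),(1,4)]⟩⟩,.o ⟨false,1,⟨1,[(11,0),(0,0),(18,1),(2,0)]⟩,⟨0,[(3,0)]⟩⟩,.o ⟨false,1,⟨4,[(6,0),(9,
  1),(1,2),(9,0),(4,1),(0,0)]⟩,⟨0,[(2,0)]⟩⟩,.a ⟨true,0,⟨0,[(18,0)]⟩,⟨0,[(15,0)]⟩⟩ ⟨false,1,⟨1,[(11,
  0),(0,0),(21,0)]⟩,⟨0,[]⟩⟩ ⟨true,0,⟨6,[(0,1),(0,2),(3,1),(2,1),(6,2),(11,0)]⟩,⟨0,[(3,0),(14,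
  0)]⟩⟩]⟩) (.Q [0,0,1,0,0,0,2,0,0,0,2] (.p true [0,0,1] [0,1,-1] (⟨0,[(21,0)]⟩,⟨0,[(20,0)]⟩) .k 2
  (⟨0,[(10,0)]⟩,⟨0,[(21,0),(3,0)]⟩) .k (.x (-1) ⟨17,[(0,25),(0,2),(2,12),(0,9),(0,17),(13,35),(7,1),
  (4,0)]⟩ ⟨0,[(2,1),(18,1)]⟩)) (.K ⟨0,[0,1,-1],0,0,(⟨0,[(11,0)]⟩,⟨0,[(22,0),(3,0)]⟩),.k,.k,(.x (-1)
  ⟨0,[(3,0),(0,0),(0,0),(16,0),(0,0),(2,0),(4,0)]⟩ ⟨0,[(0,0),(10,0),(8,0),(6,0)]⟩),(.r 0 ⟨0,[(7,0),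
  (25,0)]⟩ ⟨0,[(1,0),(3,0),(0,0),(2,0)]⟩),.k,[⟨0,[(0,0)]⟩,⟨0,[(3,0)]⟩,⟨0,[(6,0)]⟩,⟨0,[(18,0),(14,
  0)]⟩]⟩) (.Q [0,-1,0,-1,1,0,2,2,0,0,2] (.p true [0,0,1] [0,1,-1] (⟨0,[(22,0)]⟩,⟨0,[(21,0)]⟩) .k 2
  (⟨0,[(11,0)]⟩,⟨0,[(22,0),(3,0)]⟩) .k (.x (-1) ⟨17,[(1,25),(0,2),(2,12),(0,9),(0,17),(13,35),(7,1),
  (4,0)]⟩ ⟨2,[(0,1),(19,1),(1,5)]⟩)) (.R ⟨0,false,false,true,[0,0,1],[0,1,-1],[1,0,1],(⟨0,[(23,0)]⟩,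
  ⟨0,[(22,0)]⟩),(⟨0,[(12,0)]⟩,⟨0,[(23,0),(3,0)]⟩),⟨0,[(12,0)]⟩,.k,.k,.k,(.r (-1) ⟨15,[(0,13),(0,10),
  (5,1),(2,4),(7,1),(10,4),(0,0)]⟩ ⟨0,[(8,0),(25,0)]⟩),.k,.k,⟨false,1,⟨1,[(0,0),(0,0),(4,0)]⟩,⟨1,
  [(8,0),(20,0),(4,1)]⟩⟩,⟨true,0,⟨0,[(1,0)]⟩,⟨0,[(20,1)]⟩⟩,⟨true,0,⟨3,[(8,1),(11,0),(0,0)]⟩,⟨2,[(1,
  0),(0,0),(0,0),(13,0),(0,1)]⟩⟩,⟨false,0,⟨0,[(1,0),(6,0),(25,0)]⟩,⟨0,[(0,0)]⟩⟩,⟨false,0,⟨0,[]⟩,⟨0,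
  []⟩⟩,⟨false,0,⟨0,[]⟩,⟨0,[]⟩⟩,[.o ⟨false,0,⟨0,[(5,0),(13,0)]⟩,⟨7,[(0,4),(5,2),(1,0),(12,1)]⟩⟩,.o
  ⟨false,0,⟨1,[(1,0),(3,1),(2,0)]⟩,⟨1,[(0,0),(12,0),(0,0),(18,0)]⟩⟩,.o ⟨false,1,⟨59,[(0,19),(7,29),
  (4,0),(0,0),(3,19),(11,11),(3,19),(0,14)]⟩,⟨0,[(4,0)]⟩⟩,.a ⟨true,0,⟨0,[(20,0)]⟩,⟨0,[(17,0)]⟩⟩
  ⟨true,0,⟨0,[]⟩,⟨0,[(38,0)]⟩⟩ ⟨false,0,⟨1,[(1,0),(3,1),(2,0),(8,1)]⟩,⟨3,[(0,3),(7,1),(11,0),(0,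
  0)]⟩⟩]⟩) (.R ⟨0,false,false,false,[0,0,1],[0,1,-1],[1,0,0,0,0,0,0,1],(⟨0,[(23,0)]⟩,⟨0,[(22,0)]⟩),
  (⟨0,[(12,0)]⟩,⟨0,[(23,0),(3,0)]⟩),⟨0,[(12,0)]⟩,.k,.k,.k,(.r (-1) ⟨0,[(1,0),(5,0),(10,0),(17,0)]⟩
  ⟨0,[(8,0),(25,0)]⟩),.k,.k,⟨false,1,⟨2,[(1,1),(0,1),(3,1),(0,2),(9,1),(0,0),(17,0)]⟩,⟨0,[(8,0),(25,
  0)]⟩⟩,⟨true,0,⟨0,[(1,0)]⟩,⟨0,[(20,1)]⟩⟩,⟨true,0,⟨0,[]⟩,⟨0,[(38,0)]⟩⟩,⟨false,0,⟨0,[(0,0),(35,0)]⟩,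
  ⟨0,[(7,0),(10,0),(17,0)]⟩⟩,⟨false,0,⟨0,[]⟩,⟨0,[]⟩⟩,⟨false,0,⟨0,[]⟩,⟨0,[]⟩⟩,[.o ⟨false,0,⟨7,[(0,3),
  (4,2),(24,0),(3,0),(1,1)]⟩,⟨1,[(7,1),(5,0),(0,0),(21,0)]⟩⟩,.o ⟨false,1,⟨7,[(0,1),(7,1),(1,1),(19,
  1),(3,5),(0,0),(0,4)]⟩,⟨0,[(7,0)]⟩⟩,.o ⟨false,1,⟨4,[(8,0),(9,1),(1,2),(9,0),(4,1),(0,0)]⟩,⟨0,[(4,
  0)]⟩⟩,.a ⟨true,0,⟨0,[(20,0)]⟩,⟨0,[(17,0)]⟩⟩ ⟨false,1,⟨2,[(1,0),(0,0),(3,0),(10,0),(0,1),(17,1)]⟩,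
  ⟨3,[(8,1),(11,0),(0,0)]⟩⟩ ⟨true,0,⟨3,[(0,1),(0,1),(32,1),(0,0),(0,0)]⟩,⟨0,[(7,0),(12,0)]⟩⟩]⟩)))))
  (.R ⟨0,false,false,false,[0,0,1],[0,1],[0,1,1],(⟨0,[(19,0)]⟩,⟨0,[(18,0)]⟩),(⟨0,[(24,0)]⟩,⟨0,[(23,
  0)]⟩),⟨0,[(8,0)]⟩,.k,.k,.k,.k,.k,.k,⟨true,0,⟨0,[(29,0)]⟩,⟨0,[(27,0)]⟩⟩,⟨false,1,⟨5,[(6,0),(6,3),
  (12,0),(4,3)]⟩,⟨0,[(16,0)]⟩⟩,⟨false,0,⟨3,[(4,1),(11,0),(0,0)]⟩,⟨0,[(1,0),(1,0),(9,0),(18,0)]⟩⟩,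
  ⟨true,0,⟨0,[(5,0),(24,0)]⟩,⟨0,[(3,0)]⟩⟩,⟨false,0,⟨0,[]⟩,⟨0,[]⟩⟩,⟨false,0,⟨0,[]⟩,⟨0,[]⟩⟩,[.o
  ⟨false,0,⟨0,[(1,0)]⟩,⟨1,[(9,0),(0,0),(18,1),(2,0)]⟩⟩,.o ⟨false,1,⟨9,[(9,0),(0,0),(15,1),(3,9),(1,
  4)]⟩,⟨0,[(29,0)]⟩⟩,.a ⟨true,0,⟨0,[(0,0)]⟩,⟨1,[(6,0),(11,0),(0,0)]⟩⟩ ⟨false,0,⟨1,[(16,0),(0,0)]⟩,
  ⟨1,[(31,0),(0,0)]⟩⟩ ⟨true,0,⟨1,[(1,0),(4,0),(23,0)]⟩,⟨0,[(0,0),(28,0)]⟩⟩,.e ⟨true,0,⟨0,[(34,0)]⟩,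
  ⟨0,[]⟩⟩ ⟨true,0,⟨0,[(1,0),(11,0)]⟩,⟨0,[(16,0),(12,0)]⟩⟩]⟩)) (.I [1,0,0,0,0,0,0,1] (.Q [0,0,-1,0,1,
  0,1,0,0,-1,1] (.p true [0,0,1] [1] (⟨0,[(19,0)]⟩,⟨0,[(18,0)]⟩) .k 1 (⟨0,[]⟩,⟨0,[]⟩) .k .k) (.R ⟨0,
  false,false,true,[1,0,-1],[1,-1],[1,1],(⟨0,[(19,0)]⟩,⟨0,[(20,0)]⟩),(⟨0,[(24,0)]⟩,⟨0,[(25,0)]⟩),⟨0,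
  [(8,0)]⟩,.k,.k,.k,.k,.k,.k,⟨false,0,⟨0,[(31,0)]⟩,⟨3,[(3,2),(6,0),(0,0),(14,0),(3,0)]⟩⟩,⟨true,0,⟨0,
  [(17,0)]⟩,⟨0,[(1,0),(4,0)]⟩⟩,⟨false,0,⟨0,[(1,0)]⟩,⟨3,[(5,1),(4,0),(0,0),(20,0),(0,1)]⟩⟩,⟨true,0,
  ⟨0,[(4,0)]⟩,⟨0,[(6,0),(24,0)]⟩⟩,⟨false,0,⟨0,[]⟩,⟨0,[]⟩⟩,⟨false,0,⟨0,[]⟩,⟨0,[]⟩⟩,[.o ⟨false,0,⟨0,
  [(30,0)]⟩,⟨9,[(10,0),(0,0),(15,1),(3,9),(1,4)]⟩⟩,.a ⟨true,0,⟨0,[(2,0)]⟩,⟨0,[(31,0)]⟩⟩ ⟨true,0,⟨0,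
  []⟩,⟨1,[(17,0),(0,0)]⟩⟩ ⟨false,1,⟨0,[(0,0),(1,0)]⟩,⟨0,[(1,0),(4,0),(24,0)]⟩⟩,.o ⟨false,0,⟨0,[(1,
  0),(4,0)]⟩,⟨20,[(0,10),(9,5),(0,5),(5,9),(9,1),(6,0)]⟩⟩,.o ⟨false,0,⟨0,[(18,0)]⟩,⟨0,[(0,0)]⟩⟩]⟩)
  (.I [0,0,0,0,1,0,0,0,-1] (.I [0,0,1,0,0,1,1] (.C [(0,0),(1,0),(2,0),(4,0),(12,1),(7,0),(1,0)])
  (.C [(0,0),(10,0),(7,0)])) (.C [(0,0),(10,0),(2,0)]))) (.Q [0,0,0,0,0,0,1,0,0,0,1] (.p true [0,0,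
  1] [] (⟨0,[(19,0)]⟩,⟨0,[(18,0)]⟩) .k 0 (⟨0,[]⟩,⟨0,[]⟩) .k .k) (.R ⟨0,false,false,true,[0,1,-1],[0,
  1],[1,1],(⟨0,[(9,0)]⟩,⟨0,[(20,0),(3,0)]⟩),(⟨0,[(25,0)]⟩,⟨0,[(24,0)]⟩),⟨0,[(20,0)]⟩,.k,.k,.k,.k,.k,
  .k,⟨false,1,⟨0,[(3,0),(25,0)]⟩,⟨0,[(28,0),(6,0)]⟩⟩,⟨true,0,⟨0,[(0,0)]⟩,⟨0,[(18,0)]⟩⟩,⟨false,1,⟨5,
  [(3,1),(0,3),(2,0),(6,3),(0,1),(11,0),(5,1)]⟩,⟨0,[(1,0),(26,0)]⟩⟩,⟨true,0,⟨0,[(15,0)]⟩,⟨0,[(6,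
  0)]⟩⟩,⟨false,0,⟨0,[]⟩,⟨0,[]⟩⟩,⟨false,0,⟨0,[]⟩,⟨0,[]⟩⟩,[.o ⟨false,0,⟨0,[(8,0),(0,0),(11,1),(7,0),
  (1,0),(2,0)]⟩,⟨0,[(30,0),(2,0)]⟩⟩,.a ⟨true,0,⟨0,[(31,0)]⟩,⟨0,[(2,0)]⟩⟩ ⟨true,0,⟨0,[]⟩,⟨1,[(17,0),
  (0,0)]⟩⟩ ⟨false,0,⟨0,[(0,0),(30,0)]⟩,⟨19,[(3,14),(3,9),(2,0),(0,0),(14,4),(0,1),(2,4)]⟩⟩,.o
  ⟨false,1,⟨2,[(7,0),(6,0),(12,0),(4,0)]⟩,⟨0,[(17,0)]⟩⟩,.o ⟨false,1,⟨49,[(7,24),(2,16),(0,16),(15,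
  14),(5,2),(1,5)]⟩,⟨0,[(0,0)]⟩⟩]⟩) (.R ⟨0,false,false,true,[1,0,-1],[1,-1],[0,1,1],(⟨0,[(19,0)]⟩,
  ⟨0,[(20,0)]⟩),(⟨0,[(24,0)]⟩,⟨0,[(25,0)]⟩),⟨0,[(8,0)]⟩,.k,.k,.k,.k,.k,.k,⟨false,0,⟨0,[(28,0),(6,
  0)]⟩,⟨0,[(3,0),(25,0)]⟩⟩,⟨true,0,⟨0,[(17,0)]⟩,⟨0,[(0,0)]⟩⟩,⟨false,0,⟨0,[(0,0),(3,0),(23,0)]⟩,⟨1,
  [(1,1),(30,0),(0,0)]⟩⟩,⟨true,0,⟨0,[(4,0)]⟩,⟨0,[(6,0),(24,0)]⟩⟩,⟨false,0,⟨0,[]⟩,⟨0,[]⟩⟩,⟨false,0,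
  ⟨0,[]⟩,⟨0,[]⟩⟩,[.o ⟨false,0,⟨0,[(30,0)]⟩,⟨9,[(10,0),(0,0),(15,1),(3,9),(1,4)]⟩⟩,.a ⟨true,0,⟨0,[(2,
  0)]⟩,⟨0,[(31,0)]⟩⟩ ⟨true,0,⟨1,[(17,0),(0,0)]⟩,⟨0,[]⟩⟩ ⟨false,1,⟨1,[(1,0),(1,0),(0,0),(12,0),(14,
  0)]⟩,⟨0,[(0,0),(30,0)]⟩⟩,.o ⟨false,0,⟨0,[(0,0)]⟩,⟨4,[(5,0),(9,1),(1,2),(9,0),(4,1),(0,0)]⟩⟩,.o
  ⟨false,0,⟨0,[(18,0)]⟩,⟨0,[(1,0),(1,0),(0,0),(3,0),(0,0),(11,1),(9,1)]⟩⟩]⟩)))) (.I [0,1,1,1,-1]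
  (.Q [0,0,0,1,0,0,0,0,0,-1] (.pp true [-1,1]) (.Q [0,0,0,0,0,0,-1,0,0,0,-1] (.p false [0,0,1] []
  (⟨0,[(19,0)]⟩,⟨0,[(18,0)]⟩) .k 0 (⟨0,[]⟩,⟨0,[]⟩) .k .k) (.R ⟨0,false,false,false,[0,0,1],[0,1],[1,
  1,1],(⟨0,[(20,0)]⟩,⟨0,[(19,0)]⟩),(⟨0,[(25,0)]⟩,⟨0,[(24,0)]⟩),⟨0,[(9,0)]⟩,.k,.k,.k,.k,.k,.k,⟨true,
  0,⟨0,[(30,0)]⟩,⟨0,[(2,0),(30,0)]⟩⟩,⟨false,1,⟨5,[(7,0),(6,3),(12,0),(4,3)]⟩,⟨0,[(17,0)]⟩⟩,⟨false,0,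
  ⟨3,[(5,1),(11,0),(0,0)]⟩,⟨0,[(1,0),(2,0),(9,0),(18,0)]⟩⟩,⟨true,0,⟨0,[(6,0),(24,0)]⟩,⟨0,[(4,0)]⟩⟩,
  ⟨false,0,⟨0,[]⟩,⟨0,[]⟩⟩,⟨false,0,⟨0,[]⟩,⟨0,[]⟩⟩,[.o ⟨false,0,⟨0,[(1,0)]⟩,⟨1,[(10,0),(0,0),(18,1),
  (2,0)]⟩⟩,.o ⟨false,1,⟨9,[(10,0),(0,0),(15,1),(3,9),(1,4)]⟩,⟨0,[(30,0)]⟩⟩,.o ⟨false,1,⟨4,[(5,0),(9,
  1),(1,2),(9,0),(4,1),(0,0)]⟩,⟨0,[(0,0)]⟩⟩,.a ⟨true,0,⟨0,[(17,0)]⟩,⟨0,[(14,0)]⟩⟩ ⟨false,0,⟨0,[]⟩,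
  ⟨1,[(10,0),(0,0),(21,0)]⟩⟩ ⟨true,0,⟨0,[(1,0),(12,0)]⟩,⟨0,[(17,0),(12,0)]⟩⟩]⟩) (.I [0,0,0,0,0,0,0,
  -1] (.I [0,0,0,0,0,1,1] (.C [(0,0),(3,0),(5,0),(5,0),(6,1),(8,0),(2,0)]) (.C [(0,0),(1,0),(8,
  0)])) (.C [(0,0),(0,0),(5,0)]))) (.Q [0,0,2,0,-1,0,0,0,0,1] (.pp false [-1,1]) (.R ⟨2,true,false,
  false,[0,1],[1,-1],[],(⟨0,[]⟩,⟨0,[]⟩),(⟨0,[(24,0)]⟩,⟨0,[(25,0)]⟩),⟨0,[]⟩,.k,.k,.k,(.r 1 ⟨0,[(2,0),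
  (25,0)]⟩ ⟨0,[(30,1),(1,0),(0,0)]⟩),.k,.k,⟨false,0,⟨0,[(31,0)]⟩,⟨1,[(30,1),(1,0),(0,0)]⟩⟩,⟨true,
  (-1),⟨0,[(0,0)]⟩,⟨9,[(10,0),(0,0),(15,1),(4,4)]⟩⟩,⟨true,1,⟨1,[(30,1),(1,0),(0,0)]⟩,⟨0,[(3,0)]⟩⟩,
  ⟨false,1,⟨0,[(1,0),(28,0),(2,0)]⟩,⟨0,[(2,0),(5,0),(0,0),(11,1),(7,0),(1,0),(1,0)]⟩⟩,⟨false,1,⟨1,
  [(32,0),(0,0)]⟩,⟨1,[(17,0),(0,0)]⟩⟩,⟨true,0,⟨0,[(1,0)]⟩,⟨4,[(3,2),(22,0),(0,0),(3,1),(0,0)]⟩⟩,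
  []⟩) (.I [0,0,0,0,1,0,0,0,-1] (.I [0,0,-1,0,0,1,-1] (.I [0,0,0,-1,0,2] (.C [(0,0),(2,0),(0,0),(0,
  1),(18,1),(11,0)]) (.C [(0,0),(3,0),(6,0),(0,0)])) (.C [(0,0),(9,0),(5,0)])) (.C [(0,0),(10,0),(2,
  0)])))) (.Q [0,-1,0,2,0,0,0,0,0,-1] (.pp true [-1,1]) (.R ⟨2,true,false,true,[0,1],[1,-1],[0,1,1,
  1],(⟨0,[]⟩,⟨0,[]⟩),(⟨0,[(23,0)]⟩,⟨0,[(24,0)]⟩),⟨0,[]⟩,.k,.k,.k,(.r 1 ⟨0,[(2,1),(29,0)]⟩ ⟨1,[(1,1),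
  (7,0),(0,0),(18,1),(1,0)]⟩),.k,.k,⟨true,(-1),⟨0,[(2,1),(29,0)]⟩,⟨0,[(1,0),(27,0)]⟩⟩,⟨false,0,⟨1,
  [(6,0),(9,1),(1,0),(0,0)]⟩,⟨9,[(0,3),(0,7),(5,0),(0,0),(11,1),(5,0),(1,11)]⟩⟩,⟨true,0,⟨0,[(34,
  0)]⟩,⟨0,[]⟩⟩,⟨false,1,⟨2,[(1,1),(1,3),(0,1),(1,1),(11,0),(0,0),(12,0)]⟩,⟨0,[(0,0)]⟩⟩,⟨false,0,⟨0,
  [(30,0)]⟩,⟨0,[(29,0),(2,0)]⟩⟩,⟨true,0,⟨3,[(3,3),(0,1),(1,0),(6,1),(4,0),(0,0)]⟩,⟨12,[(0,6),(1,1),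
  (4,0),(0,0),(11,1),(5,0),(1,1),(0,2)]⟩⟩,[]⟩) (.Q [0,0,-2,0,1,0,0,0,0,-1] (.pp true [-1,1]) (.I [1,
  0,0,0,0,0,0,1] (.Q [0,0,0,-1,0,0,0,0,0,1] (.pp false [-1,1]) (.R ⟨0,false,false,true,[1,0,-1],[1,
  -1],[1,1],(⟨0,[(21,0)]⟩,⟨0,[(22,0)]⟩),(⟨0,[(26,0)]⟩,⟨0,[(27,0)]⟩),⟨0,[(10,0)]⟩,.k,.k,.k,.k,.k,.k,
  ⟨false,0,⟨0,[(33,0)]⟩,⟨19,[(3,9),(8,0),(0,0),(15,1),(4,9),(0,4)]⟩⟩,⟨true,0,⟨0,[(19,0)]⟩,⟨0,[(1,0),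
  (6,0)]⟩⟩,⟨false,0,⟨0,[(1,0)]⟩,⟨3,[(7,1),(4,0),(0,0),(20,0),(0,1)]⟩⟩,⟨true,0,⟨0,[(6,0)]⟩,⟨0,[(8,0),
  (24,0)]⟩⟩,⟨false,0,⟨0,[]⟩,⟨0,[]⟩⟩,⟨false,0,⟨0,[]⟩,⟨0,[]⟩⟩,[.o ⟨false,0,⟨0,[(32,0)]⟩,⟨9,[(12,0),(0,
  0),(15,1),(3,9),(1,4)]⟩⟩,.a ⟨true,0,⟨0,[(0,0)]⟩,⟨0,[(33,0)]⟩⟩ ⟨true,0,⟨0,[]⟩,⟨1,[(19,0),(0,0)]⟩⟩
  ⟨false,1,⟨0,[(0,0),(1,0),(16,0)]⟩,⟨1,[(2,0),(2,0),(3,0),(20,0)]⟩⟩,.o ⟨false,0,⟨0,[(1,0),(6,0)]⟩,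
  ⟨4,[(7,0),(9,1),(1,2),(9,0),(4,1),(0,0)]⟩⟩,.o ⟨false,0,⟨0,[(20,0)]⟩,⟨0,[(2,0),(16,0)]⟩⟩]⟩) (.R ⟨0,
  false,false,false,[0,0,1],[0,1],[1,1,1],(⟨0,[(22,0)]⟩,⟨0,[(21,0)]⟩),(⟨0,[(27,0)]⟩,⟨0,[(26,0)]⟩),
  ⟨0,[(11,0)]⟩,.k,.k,.k,.k,.k,.k,⟨true,0,⟨0,[(32,0)]⟩,⟨0,[(5,0),(29,0)]⟩⟩,⟨false,1,⟨1,[(2,0),(6,0),
  (24,0)]⟩,⟨0,[(19,0)]⟩⟩,⟨false,0,⟨3,[(7,1),(11,0),(0,0)]⟩,⟨1,[(1,1),(32,0),(0,0)]⟩⟩,⟨true,0,⟨0,[(8,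
  0),(24,0)]⟩,⟨0,[(6,0)]⟩⟩,⟨false,0,⟨0,[]⟩,⟨0,[]⟩⟩,⟨false,0,⟨0,[]⟩,⟨0,[]⟩⟩,[.o ⟨false,0,⟨0,[(0,0)]⟩,
  ⟨19,[(3,9),(8,10),(0,10),(15,1),(5,4)]⟩⟩,.o ⟨false,1,⟨9,[(12,0),(0,0),(15,1),(3,9),(1,4)]⟩,⟨0,
  [(32,0)]⟩⟩,.o ⟨false,1,⟨4,[(7,0),(9,1),(1,2),(9,0),(4,1),(0,0)]⟩,⟨0,[(1,0),(6,0)]⟩⟩,.a ⟨true,0,⟨0,
  [(19,0)]⟩,⟨0,[(16,0)]⟩⟩ ⟨false,0,⟨0,[]⟩,⟨1,[(12,0),(0,0),(21,0)]⟩⟩ ⟨true,0,⟨0,[(0,0),(15,0)]⟩,⟨10,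
  [(3,4),(1,1),(0,2),(0,1),(9,0),(1,6),(9,0)]⟩⟩]⟩)) (.I [0,0,2,0,-1,2,-2,0,-1] (.I [2,0,2,2,-1,0,0,
  2] (.I [0,0,-2,-2,1,0,0,-2] (.I [0,0,-2,0,2,-2,2,0,1] (.N [0,2,2,0,1] 1 ⟨0,[(2,0)]⟩ ⟨0,[(1,0)]⟩
  (.x (-2) ⟨0,[(0,0)]⟩ ⟨0,[(3,0)]⟩)) (.I [0,0,-2,0,1,0,0,0,1] (.C [(0,0),(0,0),(3,1),(3,1),(0,1),(4,
  1),(11,3),(7,1),(3,2)]) (.C [(0,0),(5,0),(10,0),(0,0)]))) (.I [0,0,-1,0,0,1,-1] (.C [(0,0),(0,0),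
  (2,2),(2,0),(1,0),(4,0),(11,1)]) (.C [(0,0),(12,0),(5,0)]))) (.I [0,0,-1,0,0,1,-1] (.I [0,0,-2,0,
  1,0,0,0,1] (.I [0,1,0,-1,0,1,1,1] (.C [(0,1),(1,0),(0,0),(5,3),(4,0),(5,0),(6,3),(11,2)]) (.C [(0,
  0),(9,0),(4,0)])) (.C [(0,0),(4,0),(10,0),(0,0)])) (.C [(0,0),(11,0),(5,0)]))) (.I [0,0,2,0,-1,2,
  0,0,1] (.I [2,0,0,0,0,0,0,1] (.N [0,0,1,0,1] 0 ⟨0,[(0,0)]⟩ ⟨0,[(3,0)]⟩ (.x 0 ⟨1,[(1,0),(0,0)]⟩ ⟨0,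
  [(12,0),(1,0),(2,0),(0,0),(6,0),(12,0)]⟩)) (.I [0,0,0,0,1,0,0,0,-1] (.I [0,0,-1,0,0,1,-1] (.C [(0,
  0),(1,0),(6,0),(0,0),(4,0),(11,1),(11,0)]) (.C [(0,0),(13,0),(5,0)])) (.C [(0,0),(14,0),(2,0)])))
  (.I [0,0,-2,0,1,-2,1] (.I [1,0,2,2,-1,0,0,1] (.I [1,0,-2,-2,1,0,0,-1] (.N [0,2,1] 1 ⟨0,[(1,0)]⟩
  ⟨0,[(0,0)]⟩ (.x (-1) ⟨0,[(2,0)]⟩ ⟨1,[(23,0),(0,2),(1,1),(4,3)]⟩)) (.I [0,0,-1,0,0,1,-1] (.C [(0,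
  0),(0,0),(4,1),(2,0),(1,0),(4,0),(11,1)]) (.C [(0,0),(14,0),(5,0)]))) (.I [0,0,-1,0,0,1,-1] (.C
  [(0,0),(0,0),(7,2),(0,0),(4,0),(11,1),(11,1)]) (.C [(0,0),(13,0),(5,0)]))) (.Q [0,0,0,0,0,0,1,0,0,
  0,1] (.p true [0,0,1] [] (⟨0,[(24,0)]⟩,⟨0,[(23,0)]⟩) .k 0 (⟨0,[]⟩,⟨0,[]⟩) .k .k) (.R ⟨0,false,
  false,true,[1,0,-1],[1,-1],[1,1,-1,-1],(⟨0,[(24,0)]⟩,⟨0,[(25,0)]⟩),(⟨0,[(29,0)]⟩,⟨0,[(30,0)]⟩),⟨0,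
  [(13,0)]⟩,.k,.k,.k,.k,.k,.k,⟨true,0,⟨0,[]⟩,⟨1,[(22,0),(0,0)]⟩⟩,⟨false,0,⟨0,[(0,0)]⟩,⟨9,[(12,4),(2,
  2),(0,2),(15,0),(4,4)]⟩⟩,⟨false,1,⟨1,[(5,0),(3,1),(2,0),(25,0)]⟩,⟨0,[(4,0),(28,0)]⟩⟩,⟨true,0,⟨0,
  [(9,0)]⟩,⟨0,[(11,0),(24,0)]⟩⟩,⟨false,0,⟨0,[]⟩,⟨0,[]⟩⟩,⟨false,0,⟨0,[]⟩,⟨0,[]⟩⟩,[.o ⟨false,0,⟨0,
  [(35,0)]⟩,⟨9,[(15,0),(0,0),(15,1),(3,9),(1,4)]⟩⟩,.e ⟨false,1,⟨2,[(0,0),(4,1),(0,0),(0,0),(11,0)]⟩,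
  ⟨0,[(33,0),(6,0)]⟩⟩ ⟨false,1,⟨14,[(0,8),(5,4),(0,4),(14,5),(9,0),(4,7)]⟩,⟨1,[(5,0),(2,0),(3,0),
  (20,0)]⟩⟩,.a ⟨true,0,⟨6,[(1,0),(10,1),(2,0),(0,0),(2,1),(4,0),(4,1)]⟩,⟨0,[(0,0)]⟩⟩ ⟨false,1,⟨19,
  [(6,9),(8,0),(0,0),(15,1),(4,9),(0,4)]⟩,⟨0,[(8,0),(29,0)]⟩⟩ ⟨true,0,⟨0,[(0,0),(34,0)]⟩,⟨1,[(5,0),
  (2,0),(3,0),(20,0)]⟩⟩,.o ⟨false,0,⟨0,[(23,0)]⟩,⟨4,[(0,3),(21,0),(9,0),(4,2)]⟩⟩]⟩) (.Q [0,0,-1,1,0,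
  0,-1,0,0,0,-1] (.p false [0,0,1] [] (⟨0,[(25,0)]⟩,⟨0,[(24,0)]⟩) .k 0 (⟨0,[]⟩,⟨0,[]⟩) .k .k) (.Q
  [0,0,0,1,0,0,0,0,0,-1] (.pp true [-1,1]) (.R ⟨0,false,false,false,[0,0,1],[0,1],[0,0,2,1],(⟨0,
  [(27,0)]⟩,⟨0,[(26,0)]⟩),(⟨0,[(32,0)]⟩,⟨0,[(31,0)]⟩),⟨0,[(16,0)]⟩,.k,.k,.k,.k,.k,.k,⟨true,0,⟨1,
  [(24,0),(0,0)]⟩,⟨0,[]⟩⟩,⟨false,1,⟨1,[(7,0),(6,0),(24,0)]⟩,⟨0,[(24,0)]⟩⟩,⟨false,0,⟨3,[(12,1),(11,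
  0),(0,0),(9,3)]⟩,⟨0,[(1,0),(7,0),(1,0)]⟩⟩,⟨true,0,⟨2,[(1,1),(10,0),(10,0),(11,0)]⟩,⟨0,[(11,0)]⟩⟩,
  ⟨false,0,⟨0,[]⟩,⟨0,[]⟩⟩,⟨false,0,⟨0,[]⟩,⟨0,[]⟩⟩,[.o ⟨false,0,⟨0,[(0,0)]⟩,⟨19,[(8,9),(8,10),(0,10),
  (15,1),(5,4)]⟩⟩,.o ⟨false,1,⟨9,[(17,0),(0,0),(15,1),(3,9),(1,4)]⟩,⟨0,[(37,0)]⟩⟩,.o ⟨false,1,⟨4,
  [(12,0),(9,1),(1,2),(9,0),(4,1),(0,0)]⟩,⟨0,[(2,0)]⟩⟩,.a ⟨true,0,⟨0,[(24,0)]⟩,⟨0,[(21,0)]⟩⟩ ⟨false,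
  0,⟨0,[(10,0),(29,0)]⟩,⟨19,[(8,9),(8,0),(0,0),(15,1),(4,9),(0,4)]⟩⟩ ⟨true,0,⟨0,[(1,0)]⟩,⟨10,[(8,4),
  (1,1),(0,2),(0,1),(9,0),(1,6),(9,0)]⟩⟩]⟩) (.I [0,0,0,-1,0,1,-1] (.C [(0,1),(0,1),(3,0),(0,0),(4,
  3),(4,1),(0,1),(11,1),(11,1)]) (.C [(0,0),(0,0),(1,0),(12,0)]))) (.I [0,0,1,-1] (.C [(0,1),(0,1),
  (2,0),(0,0),(4,3),(4,3),(0,1),(4,3),(6,1),(11,1)]) (.C [(0,0),(0,0),(0,0)])))))))) (.R ⟨2,true,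
  false,true,[0,1],[1,-1],[1,0,1],(⟨0,[]⟩,⟨0,[]⟩),(⟨0,[(24,0)]⟩,⟨0,[(25,0)]⟩),⟨0,[]⟩,.k,.k,.k,(.r 1
  ⟨0,[(3,1),(29,0)]⟩ ⟨9,[(1,9),(8,0),(0,0),(15,1),(4,9),(0,4)]⟩),.k,.k,⟨false,0,⟨0,[(28,0)]⟩,⟨9,[(1,
  4),(24,0),(0,0),(1,2),(2,7)]⟩⟩,⟨true,(-1),⟨0,[(0,0)]⟩,⟨9,[(10,0),(0,0),(15,1),(4,4)]⟩⟩,⟨false,1,
  ⟨19,[(1,9),(8,0),(0,0),(15,1),(5,14)]⟩,⟨0,[(31,0)]⟩⟩,⟨true,0,⟨0,[(1,0)]⟩,⟨0,[(3,1),(4,0),(0,0),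
  (11,1),(7,1),(3,1)]⟩⟩,⟨true,0,⟨0,[]⟩,⟨0,[(35,0)]⟩⟩,⟨false,0,⟨0,[(0,0),(1,0),(26,0)]⟩,⟨9,[(10,0),
  (0,0),(15,1),(3,9),(1,4)]⟩⟩,[]⟩)))))

theorem ok113 : chk K t113 r44 = true := by decide +kernel


end Helper48.Y.Y11_c2_P2_m0n0
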