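import Pool.Agent.Helper48.Y.Y11_c2_P2_m0n0_q

set_option autoImplicit false
set_option linter.all false

namespace Helper48.Y.Y11_c2_P2_m0n0

open Helper25.KG Helper25.KW Helper55.KE Helper11.CT

noncomputable def t0 : Tre :=
  (.I [1,-1,-1,-1,1,0,0,1] (.R ⟨2,true,false,false,[0,1],[0,0,1],[0,1,1,1],(⟨0,[]⟩,⟨0,[]⟩),(⟨0,[(17,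
  0)]⟩,⟨0,[(16,0)]⟩),⟨0,[]⟩,.k,.k,.k,.k,.k,.k,⟨false,0,⟨0,[(2,0),(11,0),(11,0)]⟩,⟨0,[(0,0)]⟩⟩,⟨true,
  0,⟨0,[(14,0)]⟩,⟨0,[(1,0)]⟩⟩,⟨true,0,⟨0,[(32,0)]⟩,⟨0,[]⟩⟩,⟨false,1,⟨0,[(0,0),(13,0)]⟩,⟨0,[(2,0)]⟩⟩,
  ⟨false,0,⟨0,[(28,0)]⟩,⟨0,[(27,0),(2,0)]⟩⟩,⟨true,0,⟨0,[(3,0)]⟩,⟨0,[(13,0)]⟩⟩,[]⟩) (.I [0,0,0,0,0,0,
  0,1] (.I [0,0,0,0,1,0,0,0,-1] (.I [0,0,0,0,0,1,1,1] (.C [(0,0),(2,0),(4,0),(5,0),(6,1),(8,0),(2,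
  0)]) (.C [(0,0),(5,0),(2,0)])) (.C [(0,0),(8,0),(2,0)])) (.C [(0,0),(1,0),(1,0)])))

theorem ok0 : chk K t0 l2 = true := by decide +kernel

noncomputable def t1 : Tre :=
  (.R ⟨2,true,false,true,[0,1],[1,0,0,0,-1],[0,0,1,1],(⟨0,[]⟩,⟨0,[]⟩),(⟨0,[(10,0)]⟩,⟨0,[(11,0)]⟩),
  ⟨0,[]⟩,.k,.k,.k,(.r 0 ⟨0,[(26,0),(6,0)]⟩ ⟨1,[(28,1),(1,0),(0,0)]⟩),.k,.k,⟨true,0,⟨0,[(26,0)]⟩,⟨0,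
  [(28,0)]⟩⟩,⟨false,1,⟨0,[(8,0),(8,0),(0,0)]⟩,⟨1,[(0,1),(27,1),(1,0),(0,0)]⟩⟩,⟨false,1,⟨1,[(8,0),(0,
  0),(21,0)]⟩,⟨0,[]⟩⟩,⟨true,1,⟨0,[(8,0),(8,0),(0,0),(9,0)]⟩,⟨0,[(0,0)]⟩⟩,⟨true,0,⟨0,[(29,0)]⟩,⟨0,
  [(28,0)]⟩⟩,⟨false,1,⟨0,[(8,0),(13,0),(0,0)]⟩,⟨0,[(0,0),(27,0),(2,0)]⟩⟩,[]⟩)

theorem ok1 : chk K t1 l4 = true := by decide +kernel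

noncomputable def t2 : Tre :=
  (.I [1,0,0,0,0,0,0,1] (.N [0,0,1] 0 ⟨0,[(0,0)]⟩ ⟨0,[(1,0)]⟩ .k) (.I [0,0,0,0,1,0,0,0,-1] (.I [0,0,
  1,0,0,0,0,1] (.I [0,0,-1,0,0,1,-1] (.C [(0,0),(2,0),(5,0),(2,0),(11,1),(12,0)]) (.C [(0,0),(10,0),
  (5,0)])) (.C [(0,0),(7,0),(11,0)])) (.C [(0,0),(10,0),(2,0)])))

theorem ok2 : chk K t2 l5 = true := by decide +kernel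

noncomputable def t3 : Tre :=
  (.R ⟨0,false,false,false,[1,0,-1],[0,0,0,0,1],[1,0,1],(⟨0,[(20,0)]⟩,⟨0,[(21,0)]⟩),(⟨0,[(14,0)]⟩,
  ⟨0,[(13,0)]⟩),⟨0,[(9,0)]⟩,.k,.k,.k,.k,.k,.k,⟨true,0,⟨1,[(18,0),(0,0)]⟩,⟨0,[]⟩⟩,⟨false,0,⟨0,[(0,0),
  (3,0),(2,0)]⟩,⟨1,[(3,0),(4,0),(2,0),(20,0)]⟩⟩,⟨true,0,⟨0,[(7,0),(11,0)]⟩,⟨0,[(4,0)]⟩⟩,⟨false,0,⟨0,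
  [(0,0),(6,0)]⟩,⟨0,[(3,0),(2,0)]⟩⟩,⟨false,0,⟨0,[]⟩,⟨0,[]⟩⟩,⟨false,0,⟨0,[]⟩,⟨0,[]⟩⟩,[.e ⟨false,0,⟨0,
  []⟩,⟨1,[(11,0),(0,0),(20,0)]⟩⟩ ⟨false,0,⟨0,[(0,0),(3,0),(2,0)]⟩,⟨1,[(3,0),(4,0),(2,0),(20,0)]⟩⟩,
  .o ⟨false,0,⟨0,[(0,0)]⟩,⟨0,[(11,0),(24,0)]⟩⟩,.a ⟨true,0,⟨1,[(8,0),(11,0),(0,0)]⟩,⟨0,[(5,0)]⟩⟩
  ⟨true,0,⟨1,[(18,0),(0,0)]⟩,⟨0,[(30,0)]⟩⟩ ⟨false,0,⟨0,[(0,0),(4,0)]⟩,⟨1,[(3,0),(4,0),(2,0),(20,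
  0)]⟩⟩,.o ⟨false,0,⟨0,[(19,0)]⟩,⟨4,[(5,3),(12,0),(9,0),(4,2)]⟩⟩]⟩)

theorem ok3 : chk K t3 l7 = true := by decide +kernel

noncomputable def t4 : Tre :=
  (.R ⟨0,false,false,false,[1,-1],[1,-1,1],[1],(⟨0,[(26,0)]⟩,⟨0,[(27,0)]⟩),(⟨0,[(22,0),(3,0)]⟩,⟨0,
  [(11,0)]⟩),⟨0,[(10,0),(0,0)]⟩,.k,.k,(.x 0 ⟨0,[(19,0),(0,0),(6,1)]⟩ ⟨0,[(3,1),(1,1),(17,1),(11,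
  0)]⟩),.k,.k,.k,⟨false,0,⟨0,[(5,0),(24,0)]⟩,⟨2,[(0,2),(8,0),(6,0),(12,0),(4,0)]⟩⟩,⟨true,0,⟨0,[(6,
  0)]⟩,⟨0,[(20,0)]⟩⟩,⟨false,0,⟨0,[(30,0)]⟩,⟨1,[(32,1),(1,0),(0,0)]⟩⟩,⟨true,0,⟨0,[(8,0)]⟩,⟨0,[(18,
  0)]⟩⟩,⟨false,0,⟨0,[]⟩,⟨0,[]⟩⟩,⟨false,0,⟨0,[]⟩,⟨0,[]⟩⟩,[.a ⟨true,0,⟨0,[(0,0)]⟩,⟨0,[(7,0)]⟩⟩ ⟨true,
  0,⟨0,[]⟩,⟨1,[(19,0),(0,0)]⟩⟩ ⟨false,1,⟨3,[(0,3),(2,5),(1,5),(4,3),(0,3),(11,7),(10,0),(0,2)]⟩,⟨1,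
  [(7,1),(11,0),(0,0)]⟩⟩,.o ⟨false,1,⟨14,[(0,13),(3,0),(8,0),(3,0),(11,2),(5,7)]⟩,⟨0,[(3,0),(1,0),
  (1,0),(2,0),(0,0),(11,1),(12,0)]⟩⟩,.o ⟨false,0,⟨1,[(19,0),(0,0)]⟩,⟨9,[(12,0),(0,0),(15,1),(4,
  4)]⟩⟩,.o ⟨false,0,⟨0,[(19,0),(0,0)]⟩,⟨3,[(3,5),(1,5),(4,3),(0,3),(11,7),(10,0),(0,2)]⟩⟩]⟩)

theorem ok4 : chk K t4 l8 = true := by decide +kernel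

noncomputable def t5 : Tre :=
  (.Q [0,-1,0,2,0,0,0,0,0,-1] (.pp true [-1,1]) (.R ⟨2,true,false,true,[0,1],[1,-1],[0,1,1,1],(⟨0,
  []⟩,⟨0,[]⟩),(⟨0,[(28,0)]⟩,⟨0,[(29,0)]⟩),⟨0,[]⟩,.k,.k,.k,(.r 1 ⟨0,[(1,0)]⟩ ⟨0,[(34,1),(1,0),(0,
  0)]⟩),.k,.k,⟨true,(-1),⟨0,[(1,0)]⟩,⟨0,[(8,0),(3,0),(0,0),(4,0),(6,1),(8,1),(2,0)]⟩⟩,⟨false,0,⟨1,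
  [(11,0),(9,1),(1,0),(0,0)]⟩,⟨3,[(5,5),(1,5),(4,3),(0,3),(11,7),(10,0),(0,2)]⟩⟩,⟨true,0,⟨0,[(39,
  0)]⟩,⟨0,[]⟩⟩,⟨false,1,⟨0,[(23,0),(0,0),(9,1),(2,0)]⟩,⟨0,[(0,0)]⟩⟩,⟨false,0,⟨0,[(35,0)]⟩,⟨0,[(34,
  0),(2,0)]⟩⟩,⟨true,0,⟨0,[(23,0),(0,0),(9,0)]⟩,⟨0,[(0,0),(33,0)]⟩⟩,[]⟩) (.I [1,0,0,0,0,0,0,0,1] (.I
  [0,0,0,0,0,1,1] (.I [0,0,0,1,0,-1,0,-1] (.I [0,0,-1,1,0,0,0,-1] (.I [0,1,0,-1,0,0,0,-1] (.C [(0,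
  1),(2,1),(2,0),(3,1),(6,1),(5,1),(6,3),(11,0)]) (.C [(0,0),(4,0),(1,0),(5,0)])) (.C [(0,0),(5,0),
  (5,1),(9,0)])) (.C [(0,0),(4,0),(5,0),(19,0)])) (.C [(0,0),(9,0),(4,0)])) (.C [(0,0),(4,0),(11,
  0)])))

theorem ok5 : chk K t5 l9 = true := by decide +kernel

noncomputable def t6 : Tre :=
  (.R ⟨0,false,false,true,[0,0,1],[1,-1],[1],(⟨0,[(24,0)]⟩,⟨0,[(23,0)]⟩),(⟨0,[(28,0)]⟩,⟨0,[(29,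
  0)]⟩),⟨0,[(13,0)]⟩,.k,.k,.k,.k,.k,.k,⟨true,0,⟨0,[(32,0)]⟩,⟨0,[(34,0)]⟩⟩,⟨false,0,⟨1,[(11,0),(11,
  0),(0,0)]⟩,⟨4,[(8,3),(12,0),(9,0),(4,2)]⟩⟩,⟨false,1,⟨39,[(0,9),(6,19),(1,9),(4,0),(0,0),(5,19),(9,
  1),(5,34)]⟩,⟨0,[(5,0)]⟩⟩,⟨true,0,⟨0,[(0,0)]⟩,⟨0,[(2,0),(7,1)]⟩⟩,⟨false,0,⟨0,[]⟩,⟨0,[]⟩⟩,⟨false,0,
  ⟨0,[]⟩,⟨0,[]⟩⟩,[.o ⟨false,0,⟨0,[(34,0)]⟩,⟨9,[(14,0),(0,0),(15,1),(3,9),(1,4)]⟩⟩,.o ⟨false,1,⟨8,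
  [(6,4),(8,4),(15,0),(2,3),(2,1)]⟩,⟨0,[(2,0),(7,0)]⟩⟩,.e ⟨true,0,⟨0,[]⟩,⟨0,[(39,0)]⟩⟩ ⟨true,0,⟨1,
  [(0,0),(9,0),(0,0),(22,0)]⟩,⟨0,[(2,0),(5,0),(1,0)]⟩⟩,.a ⟨true,0,⟨0,[(21,0)]⟩,⟨0,[(18,0)]⟩⟩ ⟨false,
  1,⟨1,[(36,0),(0,0)]⟩,⟨1,[(21,0),(0,0)]⟩⟩ ⟨true,0,⟨0,[(18,0),(15,0)]⟩,⟨0,[(2,0),(7,0),(10,0)]⟩⟩]⟩)

theorem ok6 : chk K t6 l10 = true := by decide +kernel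

noncomputable def t7 : Tre :=
  (.Q [0,0,0,0,0,0,1,0,1,-1,1,1] (.p true [0,0,1] [1,0,0,0,-1] (⟨0,[(25,0)]⟩,⟨0,[(24,0)]⟩) .k 2 (⟨0,
  [(17,0)]⟩,⟨0,[(18,0)]⟩) .k (.r 0 ⟨0,[(6,0)]⟩ ⟨1,[(8,0),(6,0),(0,0),(4,0),(0,0),(15,0)]⟩)) (.K ⟨0,
  [1,0,0,0,-1],0,0,(⟨0,[(18,0)]⟩,⟨0,[(19,0)]⟩),.k,(.r (-1) ⟨37,[(3,13),(4,9),(8,9),(15,1),(4,4),(0,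
  4),(1,9)]⟩ ⟨0,[(34,0),(6,0)]⟩),(.r 0 ⟨0,[(34,0),(6,0)]⟩ ⟨27,[(3,8),(4,9),(8,9),(15,1),(4,4)]⟩),.k,
  .k,[⟨0,[(0,0)]⟩,⟨1,[(1,1),(21,0),(0,0)]⟩,⟨0,[(6,0),(34,0)]⟩,⟨0,[(5,0)]⟩]⟩) (.R ⟨0,false,false,
  true,[0,0,1],[1,0,0,0,-1],[1],(⟨0,[(26,0)]⟩,⟨0,[(25,0)]⟩),(⟨0,[(18,0)]⟩,⟨0,[(19,0)]⟩),⟨0,[(15,
  0)]⟩,.k,.k,.k,.k,.k,.k,⟨false,1,⟨1,[(38,0),(0,0)]⟩,⟨0,[(41,0)]⟩⟩,⟨true,0,⟨0,[(0,0)]⟩,⟨1,[(6,1),(3,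
  0),(12,0),(16,0)]⟩⟩,⟨false,1,⟨1,[(9,0),(12,0),(0,0),(15,1)]⟩,⟨0,[(7,0)]⟩⟩,⟨true,0,⟨2,[(0,0),(0,1),
  (7,0),(12,1),(17,0)]⟩,⟨0,[(6,0),(5,0)]⟩⟩,⟨false,0,⟨0,[]⟩,⟨0,[]⟩⟩,⟨false,0,⟨0,[]⟩,⟨0,[]⟩⟩,[.o
  ⟨false,0,⟨1,[(1,0),(0,0),(1,0),(0,0),(30,1)]⟩,⟨9,[(16,0),(0,10),(15,1),(5,4)]⟩⟩,.o ⟨false,1,⟨8,
  [(5,4),(10,3),(16,0),(5,2),(1,0)]⟩,⟨0,[(6,0)]⟩⟩,.e ⟨true,0,⟨0,[]⟩,⟨0,[(41,0)]⟩⟩ ⟨true,0,⟨3,[(0,2),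
  (4,0),(18,0),(7,0),(8,0)]⟩,⟨0,[(6,0),(3,0)]⟩⟩,.a ⟨true,0,⟨0,[(23,0)]⟩,⟨0,[(20,0)]⟩⟩ ⟨false,1,⟨1,
  [(38,0),(0,0)]⟩,⟨1,[(23,0),(0,0)]⟩⟩ ⟨true,0,⟨0,[(0,0),(34,0)]⟩,⟨0,[(6,0),(16,0)]⟩⟩]⟩))

theorem ok7 : chk K t7 l11 = true := by decide +kernel

noncomputable def t8 : Tre :=
  (.N [0,2] 1 ⟨0,[(0,0)]⟩ ⟨0,[(3,0)]⟩ (.x (-1) ⟨22,[(2,11),(0,11),(0,11),(22,6),(2,38),(2,2),(1,11),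
  (2,4)]⟩ ⟨0,[(23,0),(0,0),(6,1)]⟩))

theorem ok8 : chk K t8 l12 = true := by decide +kernel

noncomputable def t9 : Tre :=
  (.R ⟨0,false,false,true,[1,0,-1],[1,0,0,0,-1],[1,1],(⟨0,[(27,0)]⟩,⟨0,[(28,0)]⟩),(⟨0,[(20,0)]⟩,⟨0,
  [(21,0)]⟩),⟨0,[(16,0)]⟩,.k,.k,.k,.k,.k,.k,⟨true,0,⟨0,[]⟩,⟨0,[(42,0)]⟩⟩,⟨false,1,⟨3,[(2,0),(1,1),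
  (2,1),(3,1),(0,1),(5,1),(22,0)]⟩,⟨1,[(3,0),(11,0),(3,0)]⟩⟩,⟨false,0,⟨0,[(9,0)]⟩,⟨1,[(11,0),(12,0),
  (0,0),(15,1)]⟩⟩,⟨true,0,⟨0,[(1,0),(12,0)]⟩,⟨0,[(0,0)]⟩⟩,⟨false,0,⟨0,[]⟩,⟨0,[]⟩⟩,⟨false,0,⟨0,[]⟩,
  ⟨0,[]⟩⟩,[.o ⟨false,0,⟨0,[(1,0)]⟩,⟨9,[(18,0),(0,10),(15,1),(5,4)]⟩⟩,.o ⟨false,1,⟨3,[(1,0),(16,2),
  (22,0),(1,0)]⟩,⟨0,[(8,0)]⟩⟩,.a ⟨true,0,⟨1,[(15,0),(11,0),(0,0)]⟩,⟨0,[(12,0)]⟩⟩ ⟨false,0,⟨0,[]⟩,⟨1,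
  [(18,0),(0,0),(21,0)]⟩⟩ ⟨true,0,⟨0,[(1,0),(10,0)]⟩,⟨1,[(8,0),(6,0),(3,0)]⟩⟩,.o ⟨false,0,⟨0,[(26,
  0)]⟩,⟨4,[(12,3),(12,0),(9,0),(4,2)]⟩⟩]⟩)

theorem ok9 : chk K t9 l14 = true := by decide +kernel

noncomputable def t10 : Tre :=
  (.K ⟨0,[1,0,0,0,-1],0,0,(⟨0,[(21,0)]⟩,⟨0,[(22,0)]⟩),.k,(.r (-1) ⟨61,[(3,20),(7,19),(8,19),(15,3),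
  (4,9),(0,2),(1,5)]⟩ ⟨0,[(37,0),(6,0)]⟩),(.r 0 ⟨0,[(37,0),(6,0)]⟩ ⟨27,[(3,8),(7,9),(8,9),(15,1),(4,
  4)]⟩),.k,.k,[⟨0,[(4,0),(8,0)]⟩,⟨0,[(0,0)]⟩,⟨0,[(9,0),(34,0)]⟩,⟨0,[(8,0)]⟩]⟩)

theorem ok10 : chk K t10 l15 = true := by decide +kernel

noncomputable def t11 : Tre :=
  (.R ⟨0,false,false,true,[0,0,1],[1,0,0,0,-1],[1,1],(⟨0,[(30,0)]⟩,⟨0,[(29,0)]⟩),(⟨0,[(22,0)]⟩,⟨0,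
  [(23,0)]⟩),⟨0,[(19,0)]⟩,.k,.k,.k,.k,.k,.k,⟨true,0,⟨0,[]⟩,⟨0,[(44,0)]⟩⟩,⟨false,1,⟨0,[(20,0),(3,
  0)]⟩,⟨1,[(0,0),(4,0),(7,0),(13,0)]⟩⟩,⟨true,0,⟨1,[(13,0),(12,0),(0,0)]⟩,⟨0,[(11,0)]⟩⟩,⟨false,1,⟨0,
  [(12,0),(2,0)]⟩,⟨0,[(0,0)]⟩⟩,⟨false,0,⟨0,[]⟩,⟨0,[]⟩⟩,⟨false,0,⟨0,[]⟩,⟨0,[]⟩⟩,[.o ⟨false,0,⟨0,[(3,
  0)]⟩,⟨9,[(20,0),(0,10),(15,1),(5,4)]⟩⟩,.o ⟨false,1,⟨3,[(3,0),(16,2),(22,0),(1,0)]⟩,⟨0,[(10,0)]⟩⟩,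
  .a ⟨true,0,⟨0,[(14,0)]⟩,⟨1,[(17,0),(11,0),(0,0)]⟩⟩ ⟨false,0,⟨0,[]⟩,⟨1,[(20,0),(0,0),(21,0)]⟩⟩
  ⟨true,0,⟨1,[(3,0),(5,0),(7,0)]⟩,⟨1,[(0,0),(9,0),(2,0),(13,0)]⟩⟩,.e ⟨true,0,⟨0,[(39,0)]⟩,⟨1,[(27,
  0),(0,0)]⟩⟩ ⟨true,0,⟨0,[(3,0),(20,0)]⟩,⟨0,[(10,0),(16,0)]⟩⟩]⟩)

theorem ok11 : chk K t11 l16 = true := by decide +kernel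

noncomputable def t12 : Tre :=
  (.K ⟨0,[2,0,-1,0,-1],0,0,(⟨0,[(26,0),(6,0)]⟩,⟨0,[(3,0)]⟩),.k,(.r (-1) ⟨1,[(8,0),(8,0),(12,0),(0,
  0),(15,0)]⟩ ⟨3,[(10,0),(10,0),(7,2),(2,1),(9,1),(2,0)]⟩),(.r 0 ⟨2,[(17,0),(1,1),(11,1),(10,0),(5,
  0)]⟩ ⟨13,[(8,6),(6,3),(5,4),(7,9),(11,0),(5,4)]⟩),.k,.k,[⟨0,[(1,0),(16,0)]⟩,⟨0,[(0,0)]⟩,⟨2,[(1,2),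
  (13,1),(13,0),(2,0),(7,0)]⟩,⟨0,[(0,0),(16,0)]⟩]⟩)

theorem ok12 : chk K t12 l20 = true := by decide +kernel

noncomputable def t13 : Tre :=
  (.Q [1,-1,0,1,0,0,0,0,1,-2,0,1] (.p true [-1,1,0,0,1] [1] (⟨0,[(3,0),(19,0)]⟩,⟨0,[(27,0),(11,
  0)]⟩) (.r 0 ⟨5,[(0,0),(12,0),(1,0),(4,1),(9,2),(1,0),(10,2)]⟩ ⟨61,[(9,20),(7,19),(8,19),(15,3),(4,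
  9),(0,2),(1,5)]⟩) 1 (⟨0,[]⟩,⟨0,[]⟩) .k .k) (.R ⟨0,false,false,false,[1,0,-1],[-1,1,0,0,1],[1],(⟨0,
  [(35,0)]⟩,⟨0,[(36,0)]⟩),(⟨0,[(4,0),(19,0)]⟩,⟨0,[(28,0),(11,0)]⟩),⟨0,[(24,0)]⟩,.k,(.r 0 ⟨5,[(1,0),
  (12,0),(1,0),(4,1),(9,2),(1,0),(10,2)]⟩ ⟨61,[(10,20),(7,19),(8,19),(15,3),(4,9),(0,2),(1,5)]⟩),.k,
  (.r (-1) ⟨1,[(10,0),(8,0),(12,0),(0,0),(15,0)]⟩ ⟨3,[(12,0),(10,0),(7,2),(2,1),(9,1),(2,0)]⟩),.k,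
  .k,⟨false,1,⟨1,[(10,0),(37,0)]⟩,⟨5,[(1,0),(12,0),(1,0),(4,1),(9,2),(1,0),(10,2)]⟩⟩,⟨true,0,⟨0,[(2,
  0)]⟩,⟨0,[(1,0)]⟩⟩,⟨true,0,⟨0,[(17,0)]⟩,⟨1,[(19,0),(12,0),(0,0)]⟩⟩,⟨false,0,⟨0,[(12,0),(3,0)]⟩,⟨1,
  [(1,1),(8,0),(8,1),(29,0)]⟩⟩,⟨false,0,⟨0,[]⟩,⟨0,[]⟩⟩,⟨false,0,⟨0,[]⟩,⟨0,[]⟩⟩,[.o ⟨false,0,⟨1,[(0,
  0),(13,0),(1,0),(14,0)]⟩,⟨0,[(18,0)]⟩⟩,.o ⟨false,0,⟨0,[(0,0)]⟩,⟨45,[(1,6),(16,41),(8,2),(5,6),(8,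
  20),(0,1),(2,3)]⟩⟩,.a ⟨true,0,⟨4,[(1,0),(21,0),(3,0),(2,1)]⟩,⟨0,[(20,0)]⟩⟩ ⟨true,0,⟨0,[]⟩,⟨0,[(51,
  0)]⟩⟩ ⟨false,0,⟨0,[(2,0),(41,0)]⟩,⟨1,[(1,1),(8,0),(37,0)]⟩⟩,.o ⟨false,0,⟨0,[(34,0)]⟩,⟨4,[(20,3),
  (12,0),(9,0),(4,2)]⟩⟩]⟩) (.I [-1,1,0,-1] (.I [0,0,-2,0,0,0,0,0,1] (.I [0,0,-1,0,0,1,-1] (.C [(0,
  0),(2,0),(1,0),(22,0),(11,1),(6,0),(5,0)]) (.C [(0,0),(26,0),(5,0)])) (.C [(0,0),(3,0),(25,0),(1,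
  0)])) (.C [(0,0),(0,0),(1,0),(31,0)])))

theorem ok13 : chk K t13 l21 = true := by decide +kernel

noncomputable def t14 : Tre :=
  (.Q [2,0,0,0,0,0,-1,-1,2,-1,-1,2] (.p false [0,0,1] [-1,0,0,0,2] (⟨0,[(36,0)]⟩,⟨0,[(35,0)]⟩) .k 2
  (⟨0,[(4,0),(0,0)]⟩,⟨0,[(28,1)]⟩) .k (.r 0 ⟨7,[(1,0),(6,0),(8,6),(12,1),(19,3)]⟩ ⟨1,[(19,0),(6,0),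
  (0,0),(4,0),(0,0),(15,0)]⟩)) (.R ⟨1,true,false,false,[0,0,0,0,1],[1,0,1,0,-1],[0,0,0,0,0,0,0,1],
  (⟨0,[(30,0)]⟩,⟨0,[(29,0)]⟩),(⟨0,[(29,0),(7,0)]⟩,⟨0,[(5,0)]⟩),⟨0,[(1,0)]⟩,.k,.k,(.r (-1) ⟨57,[(0,
  9),(10,18),(7,19),(12,9),(11,1),(4,9),(0,4)]⟩ ⟨0,[(45,0),(6,0)]⟩),.k,(.r (-1) ⟨28,[(0,4),(6,8),(3,
  13),(7,0),(0,14),(13,13),(9,0),(5,11)]⟩ ⟨2,[(18,1),(13,0),(2,0),(9,0),(2,1),(2,0)]⟩),.k,⟨true,0,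
  ⟨0,[]⟩,⟨1,[(34,0),(0,0)]⟩⟩,⟨false,1,⟨0,[(9,0),(6,0),(3,0),(29,0)]⟩,⟨1,[(12,2),(11,0),(3,0)]⟩⟩,
  ⟨true,0,⟨0,[(2,0),(6,0),(21,1),(19,3)]⟩,⟨1,[(20,0),(12,0),(0,0)]⟩⟩,⟨false,1,⟨0,[(9,0),(6,0),(33,
  0)]⟩,⟨0,[(0,0)]⟩⟩,⟨false,0,⟨2,[(13,1),(4,0),(12,1),(13,0),(5,0)]⟩,⟨57,[(0,19),(6,35),(3,26),(7,3),
  (0,1),(13,55),(9,3),(5,18)]⟩⟩,⟨true,0,⟨1,[(7,0),(1,1),(3,0),(2,0),(4,0),(9,0),(13,0)]⟩,⟨0,[(0,0),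
  (46,0)]⟩⟩,[]⟩) (.Q [2,-1,0,0,0,0,1,1,2,-2,1,2] (.p true [0,0,1] [2,0,0,0,-2] (⟨0,[(37,0)]⟩,⟨0,
  [(36,0)]⟩) .k 2 (⟨0,[(29,1)]⟩,⟨0,[(5,0),(0,0)]⟩) .k (.r 0 ⟨0,[(18,0)]⟩ ⟨13,[(19,4),(0,6),(1,4),(5,
  4),(4,1),(0,6),(9,0),(5,6),(1,4)]⟩)) (.R ⟨1,true,false,true,[0,0,0,0,1],[2,0,-1,0,-1],[-1,1,1,0,0,
  0,0,-1],(⟨0,[(31,0)]⟩,⟨0,[(30,0)]⟩),(⟨0,[(30,0),(6,0)]⟩,⟨0,[(7,0)]⟩),⟨0,[(2,0)]⟩,.k,.k,(.r (-1)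
  ⟨27,[(12,8),(7,9),(8,9),(15,1),(4,4)]⟩ ⟨0,[(46,0),(6,0)]⟩),.k,(.r (-1) ⟨13,[(12,6),(6,3),(5,4),(7,
  9),(11,0),(5,4)]⟩ ⟨2,[(21,1),(1,0),(11,0),(10,1),(5,1)]⟩),.k,⟨true,0,⟨1,[(35,0),(0,0)]⟩,⟨0,[]⟩⟩,
  ⟨false,1,⟨2,[(1,0),(6,0),(8,0),(10,1),(3,2),(18,0)]⟩,⟨0,[(5,0),(23,0)]⟩⟩,⟨true,0,⟨4,[(21,1),(12,
  2),(0,2),(16,3)]⟩,⟨6,[(1,0),(1,1),(15,5),(12,2)]⟩⟩,⟨false,1,⟨0,[(8,0),(8,0),(33,0)]⟩,⟨0,[(0,0)]⟩⟩,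
  ⟨false,0,⟨2,[(21,1),(1,0),(11,0),(10,1),(5,1)]⟩,⟨1,[(12,0),(6,1),(31,0)]⟩⟩,⟨true,0,⟨2,[(1,0),(6,
  3),(13,0),(9,0),(13,0),(2,1)]⟩,⟨0,[(0,0),(47,0)]⟩⟩,[]⟩) (.Q [0,-1,0,0,1,0,-2,-2,0,1,-2] (.p false
  [0,0,1] [1,0,-1] (⟨0,[(38,0)]⟩,⟨0,[(37,0)]⟩) .k 2 (⟨0,[(37,0)]⟩,⟨0,[(38,0)]⟩) .k (.r 0 ⟨0,[(19,
  1)]⟩ ⟨0,[(21,0),(12,0),(0,0),(15,0)]⟩)) (.Q [0,0,1,0,0,0,2,0,0,-1,2] (.p true [0,0,1] [1,0,-1]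
  (⟨0,[(39,0)]⟩,⟨0,[(38,0)]⟩) .k 2 (⟨0,[(38,0)]⟩,⟨0,[(39,0)]⟩) .k (.r 0 ⟨0,[(20,1)]⟩ ⟨14,[(0,9),(21,
  9),(0,7),(12,11),(9,1),(4,0)]⟩)) (.R ⟨0,false,false,false,[0,0,1],[1,0,-1],[1,1],(⟨0,[(40,0)]⟩,⟨0,
  [(39,0)]⟩),(⟨0,[(39,0)]⟩,⟨0,[(40,0)]⟩),⟨0,[(29,0)]⟩,.k,.k,.k,.k,.k,.k,⟨false,0,⟨13,[(3,0),(1,1),
  (15,12),(12,2),(11,6)]⟩,⟨3,[(0,1),(0,1),(50,0),(0,0)]⟩⟩,⟨true,0,⟨0,[(27,0)]⟩,⟨0,[(0,0)]⟩⟩,⟨true,0,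
  ⟨1,[(23,0),(12,0),(0,0)]⟩,⟨0,[(21,0)]⟩⟩,⟨false,1,⟨0,[(1,0)]⟩,⟨1,[(7,0),(4,0),(8,0),(4,1)]⟩⟩,
  ⟨false,0,⟨0,[]⟩,⟨0,[]⟩⟩,⟨false,0,⟨0,[]⟩,⟨0,[]⟩⟩,[.o ⟨false,1,⟨6,[(1,4),(33,2),(11,0),(7,1)]⟩,⟨1,
  [(7,0),(4,0),(8,0)]⟩⟩,.o ⟨false,1,⟨18,[(1,9),(33,0),(11,1),(5,4)]⟩,⟨1,[(7,0),(5,0),(7,0),(13,
  0)]⟩⟩,.e ⟨false,0,⟨0,[]⟩,⟨18,[(1,4),(33,9),(11,0),(5,11)]⟩⟩ ⟨false,1,⟨37,[(1,23),(25,18),(7,9),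
  (11,0),(5,11)]⟩,⟨5,[(0,1),(4,0),(1,0),(4,1),(13,3)]⟩⟩,.a ⟨true,0,⟨0,[(37,0)]⟩,⟨0,[(34,0)]⟩⟩ ⟨true,
  0,⟨14,[(3,0),(1,1),(17,0),(10,2),(11,6)]⟩,⟨1,[(37,0),(0,0)]⟩⟩ ⟨false,1,⟨11,[(1,5),(25,0),(6,9),
  (12,0),(4,0),(0,2)]⟩,⟨0,[(0,0),(20,0)]⟩⟩]⟩) (.I [1,0,0,-1,1,0,0,-2] (.Q [0,0,0,0,0,0,0,0,0,1,-2]
  (.ed true [0,0,2] (.r 0 ⟨0,[(22,1)]⟩ ⟨0,[(0,0),(51,0)]⟩)) (.R ⟨0,false,false,true,[1,0,-2],[1,0,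
  -1],[1,1,0,-1,0,0,0,-2],(⟨0,[(0,0)]⟩,⟨0,[(42,1)]⟩),(⟨0,[(41,0)]⟩,⟨0,[(42,0)]⟩),⟨0,[(30,0),(11,
  0)]⟩,.k,.k,(.x 0 ⟨1,[(29,0),(0,0),(9,1),(1,2),(4,0)]⟩ ⟨52,[(0,52),(0,0),(3,1),(1,15),(10,0),(6,0),
  (0,86),(5,11),(13,52),(2,14),(4,9)]⟩),.k,.k,.k,⟨false,1,⟨3,[(1,1),(14,0),(37,0)]⟩,⟨1,[(18,0),(10,
  0),(7,0),(15,0)]⟩⟩,⟨true,0,⟨0,[(26,0)]⟩,⟨0,[(40,0)]⟩⟩,⟨true,0,⟨0,[(52,0)]⟩,⟨0,[(53,0)]⟩⟩,⟨false,0,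
  ⟨0,[(28,0)]⟩,⟨18,[(3,9),(33,0),(11,1),(5,4)]⟩⟩,⟨false,0,⟨0,[]⟩,⟨0,[]⟩⟩,⟨false,0,⟨0,[]⟩,⟨0,[]⟩⟩,
  [.o ⟨false,0,⟨0,[(38,0)]⟩,⟨4,[(28,3),(8,0),(11,0),(5,2)]⟩⟩,.o ⟨false,1,⟨6,[(3,4),(33,2),(11,0),(7,
  1)]⟩,⟨1,[(9,0),(4,0),(8,0)]⟩⟩,.a ⟨true,0,⟨0,[(29,0)]⟩,⟨0,[(26,1)]⟩⟩ ⟨false,1,⟨0,[(1,0)]⟩,⟨1,[(2,
  0),(15,0),(4,1),(4,0),(21,0)]⟩⟩ ⟨true,0,⟨0,[(25,0),(13,0)]⟩,⟨5,[(2,1),(4,0),(6,0),(8,4),(16,3)]⟩⟩,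
  .o ⟨false,0,⟨0,[(2,0),(27,0),(0,0),(11,1),(12,1)]⟩,⟨5,[(1,0),(16,0),(7,9),(10,0),(11,0),(4,
  2)]⟩⟩]⟩) (.I [0,0,0,0,0,1,1] (.C [(0,1),(0,0),(1,0),(40,1),(12,0)]) (.C [(0,0),(26,0),(4,0)])))
  (.Q [0,0,0,0,0,0,0,0,0,1,-2] (.ed true [0,0,2] (.r 0 ⟨0,[(22,1)]⟩ ⟨14,[(2,9),(21,9),(0,7),(12,11),
  (9,1),(4,0)]⟩)) (.R ⟨2,true,false,false,[0,1],[1,0,-2],[1,0,0,0,0,0,0,-2],(⟨0,[]⟩,⟨0,[]⟩),(⟨0,[(0,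
  0)]⟩,⟨0,[(42,1)]⟩),⟨0,[]⟩,.k,.k,.k,(.r 1 ⟨1,[(1,1),(37,0),(0,0)]⟩ ⟨105,[(3,79),(12,52),(8,51),(13,
  159),(8,13),(0,15),(4,46)]⟩),.k,.k,⟨true,0,⟨0,[]⟩,⟨1,[(39,0),(0,0)]⟩⟩,⟨false,0,⟨0,[(29,0)]⟩,⟨4,
  [(26,8),(12,0),(9,0),(4,2)]⟩⟩,⟨false,2,⟨9,[(3,9),(12,4),(9,17),(12,1),(9,1),(4,0)]⟩,⟨1,[(1,1),(37,
  0),(0,0)]⟩⟩,⟨true,1,⟨0,[(3,0),(48,0)]⟩,⟨2,[(1,2),(3,0),(3,1),(15,1),(11,0),(1,1)]⟩⟩,⟨true,1,⟨17,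
  [(3,9),(21,15),(0,19),(22,1),(4,0),(0,2)]⟩,⟨1,[(1,1),(37,0),(0,0),(11,1)]⟩⟩,⟨false,1,⟨0,[(3,0)]⟩,
  ⟨20,[(1,3),(7,7),(4,7),(13,25),(20,0),(2,3),(2,1)]⟩⟩,[]⟩) (.I [0,0,0,0,0,1,1] (.C [(0,1),(0,0),(1,
  0),(40,1),(12,0)]) (.C [(0,0),(26,0),(4,0)]))))) (.Q [0,0,1,0,0,0,2,0,0,-1,2] (.p true [0,0,1] [1,
  0,-1] (⟨0,[(39,0)]⟩,⟨0,[(38,0)]⟩) .k 2 (⟨0,[(38,0)]⟩,⟨0,[(39,0)]⟩) .k (.r 0 ⟨0,[(20,1)]⟩ ⟨0,[(22,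
  0),(12,0),(0,0),(15,0)]⟩)) (.R ⟨0,false,false,false,[0,0,1],[1,0,-1],[1],(⟨0,[(40,0)]⟩,⟨0,[(39,
  0)]⟩),(⟨0,[(39,0)]⟩,⟨0,[(40,0)]⟩),⟨0,[(29,0)]⟩,.k,.k,.k,.k,.k,.k,⟨false,0,⟨6,[(3,0),(1,1),(15,5),
  (12,2)]⟩,⟨2,[(0,0),(21,0),(0,0),(1,0),(4,0),(0,1),(4,0),(16,0)]⟩⟩,⟨true,0,⟨0,[(27,0)]⟩,⟨0,[(0,
  0)]⟩⟩,⟨false,1,⟨1,[(23,0),(12,0),(0,0),(15,1)]⟩,⟨0,[(21,0)]⟩⟩,⟨true,1,⟨0,[(10,0),(20,0),(4,0),(16,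
  0)]⟩,⟨0,[(1,0)]⟩⟩,⟨false,0,⟨0,[]⟩,⟨0,[]⟩⟩,⟨false,0,⟨0,[]⟩,⟨0,[]⟩⟩,[.o ⟨false,1,⟨1,[(30,0),(0,0),
  (4,1),(16,0)]⟩,⟨18,[(1,8),(33,0),(11,1),(5,4)]⟩⟩,.o ⟨false,1,⟨0,[(36,0),(16,0)]⟩,⟨6,[(1,1),(33,2),
  (11,0),(7,1)]⟩⟩,.a ⟨true,0,⟨0,[(24,0)]⟩,⟨1,[(27,0),(11,0),(0,0)]⟩⟩ ⟨true,0,⟨0,[]⟩,⟨0,[(55,0)]⟩⟩
  ⟨false,1,⟨1,[(10,0),(16,0),(3,0),(4,0),(16,1)]⟩,⟨3,[(0,1),(0,1),(50,0),(0,0)]⟩⟩,.e ⟨false,1,⟨1,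
  [(52,0),(0,0)]⟩,⟨1,[(37,0),(0,0)]⟩⟩ ⟨false,1,⟨2,[(10,0),(3,0),(10,1),(1,0),(3,0),(2,0),(18,1)]⟩,
  ⟨2,[(0,1),(0,0),(33,0),(2,0),(14,0)]⟩⟩]⟩) (.Q [0,0,0,0,0,0,0,0,0,1,-2] (.ed true [0,0,2] (.r 0 ⟨0,
  [(21,1)]⟩ ⟨0,[(23,0),(12,0),(0,0),(15,0)]⟩)) (.R ⟨0,false,false,true,[0,0,1],[0,0,2],[1,1],(⟨0,
  [(41,0)]⟩,⟨0,[(40,0)]⟩),(⟨0,[(41,1)]⟩,⟨0,[(0,0)]⟩),⟨0,[(30,0)]⟩,.k,.k,.k,.k,.k,.k,⟨false,1,⟨1,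
  [(24,2),(12,0),(0,0),(15,1)]⟩,⟨0,[(22,1)]⟩⟩,⟨true,0,⟨0,[(25,0)]⟩,⟨0,[(39,0)]⟩⟩,⟨true,0,⟨1,[(24,0),
  (12,0),(0,0)]⟩,⟨0,[(22,0)]⟩⟩,⟨false,0,⟨0,[(27,0)]⟩,⟨0,[(37,0),(16,0)]⟩⟩,⟨false,0,⟨0,[]⟩,⟨0,[]⟩⟩,
  ⟨false,0,⟨0,[]⟩,⟨0,[]⟩⟩,[.o ⟨false,(-1),⟨0,[(2,0)]⟩,⟨1,[(31,0),(0,0),(4,3),(16,2)]⟩⟩,.o ⟨false,0,
  ⟨18,[(2,13),(33,9),(11,0),(5,11)]⟩,⟨0,[(37,1),(16,0)]⟩⟩,.a ⟨true,0,⟨0,[(25,0)]⟩,⟨1,[(28,0),(11,0),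
  (0,0)]⟩⟩ ⟨false,0,⟨0,[]⟩,⟨1,[(31,0),(0,0),(21,0)]⟩⟩ ⟨true,(-1),⟨1,[(2,1),(25,0),(11,0),(0,0)]⟩,⟨1,
  [(24,0),(12,2),(0,0),(15,1)]⟩⟩,.e ⟨true,0,⟨14,[(4,0),(1,1),(17,0),(10,2),(11,6)]⟩,⟨1,[(38,0),(0,
  0)]⟩⟩ ⟨true,(-1),⟨0,[(2,0),(32,0)]⟩,⟨0,[(37,1),(0,0),(15,0)]⟩⟩]⟩) (.I [0,0,0,0,0,1,1] (.C [(0,1),
  (0,0),(0,0),(40,1),(12,0)]) (.C [(0,0),(25,0),(4,0)])))))))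

theorem ok14 : chk K t14 l22 = true := by decide +kernel

noncomputable def t15 : Tre :=
  (.R ⟨0,false,false,false,[1,0,-1],[0,1,0,0,-1],[-1,0,2,1],(⟨0,[(36,0)]⟩,⟨0,[(37,0)]⟩),(⟨0,[(1,
  0)]⟩,⟨0,[(30,0),(10,0)]⟩),⟨0,[(25,0)]⟩,.k,(.r 0 ⟨0,[(45,0),(6,0)]⟩ ⟨27,[(0,4),(10,8),(7,4),(12,4),
  (11,1),(4,4),(0,4)]⟩),.k,(.r (-1) ⟨45,[(0,7),(3,5),(2,13),(3,18),(8,23),(13,15),(9,1),(5,22)]⟩ ⟨1,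
  [(18,0),(13,0),(2,0),(9,0),(2,0)]⟩),.k,.k,⟨true,0,⟨1,[(34,0),(0,0)]⟩,⟨0,[]⟩⟩,⟨false,1,⟨7,[(2,5),
  (4,3),(1,5),(10,1),(6,3),(21,0),(0,2)]⟩,⟨0,[(0,0),(17,0),(26,0)]⟩⟩,⟨false,0,⟨2,[(18,0),(4,1),(11,
  1),(9,2),(5,0)]⟩,⟨1,[(11,0),(8,1),(29,0)]⟩⟩,⟨true,0,⟨0,[(10,0),(2,0)]⟩,⟨0,[(0,0)]⟩⟩,⟨false,0,⟨0,
  []⟩,⟨0,[]⟩⟩,⟨false,0,⟨0,[]⟩,⟨0,[]⟩⟩,[.o ⟨false,0,⟨0,[(9,0),(5,0)]⟩,⟨4,[(0,4),(22,3),(8,0),(11,0),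
  (5,2)]⟩⟩,.o ⟨false,1,⟨1,[(10,0),(2,0),(1,0),(11,0),(22,0)]⟩,⟨1,[(0,0),(16,0),(5,0),(23,0)]⟩⟩,.a
  ⟨true,0,⟨1,[(24,0),(11,0),(0,0)]⟩,⟨0,[(21,0)]⟩⟩ ⟨false,0,⟨3,[(34,0),(0,0),(9,3),(5,1)]⟩,⟨1,[(11,
  0),(37,0)]⟩⟩ ⟨true,0,⟨0,[(9,0),(5,0),(5,0)]⟩,⟨0,[(0,0),(17,0)]⟩⟩,.o ⟨false,0,⟨0,[(35,0)]⟩,⟨4,[(21,
  3),(12,0),(9,0),(4,2)]⟩⟩]⟩)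

theorem ok15 : chk K t15 l23 = true := by decide +kernel

noncomputable def t16 : Tre :=
  (.I [2,1,-1,-1] (.R ⟨0,false,false,false,[0,0,1],[0,1,0,0,-1],[1,1],(⟨0,[(39,0)]⟩,⟨0,[(38,0)]⟩),
  (⟨0,[(3,0)]⟩,⟨0,[(32,0),(10,0)]⟩),⟨0,[(28,0)]⟩,.k,(.r 0 ⟨0,[(47,0),(6,0)]⟩ ⟨27,[(13,8),(7,9),(8,
  9),(15,1),(4,4)]⟩),.k,(.r (-1) ⟨31,[(1,9),(11,5),(6,21),(0,9),(4,4),(19,2),(4,9)]⟩ ⟨2,[(22,0),(1,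
  1),(11,1),(10,0),(5,0)]⟩),.k,.k,⟨true,0,⟨0,[(0,0)]⟩,⟨3,[(36,0),(0,0),(9,3),(5,1)]⟩⟩,⟨false,1,⟨11,
  [(2,5),(6,5),(3,2),(12,1),(6,7),(12,1),(4,4)]⟩,⟨0,[(30,0),(5,0)]⟩⟩,⟨true,0,⟨1,[(22,0),(12,0),(0,
  0)]⟩,⟨0,[(20,0)]⟩⟩,⟨false,1,⟨4,[(2,0),(6,1),(7,0),(6,2),(4,1),(22,2)]⟩,⟨0,[(1,0)]⟩⟩,⟨false,0,⟨0,
  []⟩,⟨0,[]⟩⟩,⟨false,0,⟨0,[]⟩,⟨0,[]⟩⟩,[.o ⟨false,0,⟨1,[(2,0),(9,0),(4,0)]⟩,⟨8,[(21,4),(8,13),(15,0),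
  (2,3),(2,1)]⟩⟩,.o ⟨false,1,⟨14,[(2,6),(6,1),(14,4),(4,5),(16,1),(3,2),(1,4)]⟩,⟨0,[(30,0),(18,
  0)]⟩⟩,.a ⟨true,0,⟨0,[(23,0)]⟩,⟨1,[(26,0),(11,0),(0,0)]⟩⟩ ⟨false,0,⟨0,[]⟩,⟨1,[(29,0),(0,0),(21,
  0)]⟩⟩ ⟨true,0,⟨1,[(2,0),(9,0),(11,0),(1,0)]⟩,⟨1,[(1,0),(20,0),(7,0),(5,0),(12,0)]⟩⟩,.e ⟨true,0,⟨4,
  [(4,0),(13,0),(14,0),(11,1)]⟩,⟨1,[(36,0),(0,0)]⟩⟩ ⟨true,0,⟨1,[(2,0),(9,0),(4,0),(15,1)]⟩,⟨0,[(30,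
  0),(5,0),(12,0)]⟩⟩]⟩) (.I [0,0,0,0,0,1,1] (.C [(0,0),(0,0),(2,0),(4,0),(24,0),(6,1),(8,0)]) (.C
  [(0,0),(3,0),(3,0),(15,0)])))

theorem ok16 : chk K t16 l24 = true := by decide +kernel

noncomputable def t17 : Tre :=
  (.R ⟨1,true,false,false,[2,0,-1,0,-1],[1,-1,0,0,1],[2,0,-1,-1],(⟨0,[(1,0),(43,0)]⟩,⟨0,[(9,0)]⟩),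
  (⟨0,[(33,0),(10,0)]⟩,⟨0,[(4,0)]⟩),⟨0,[(1,0)]⟩,.k,(.r (-1) ⟨27,[(14,8),(7,9),(8,9),(15,1),(4,4)]⟩
  ⟨0,[(48,0),(6,0)]⟩),(.r (-1) ⟨1,[(14,0),(8,0),(12,0),(0,0),(15,0)]⟩ ⟨3,[(16,0),(10,0),(7,2),(2,1),
  (9,1),(2,0)]⟩),(.r 0 ⟨2,[(23,1),(1,0),(11,0),(10,1),(5,1)]⟩ ⟨27,[(0,4),(13,8),(6,17),(0,9),(4,4),
  (7,4),(11,1),(4,4)]⟩),.k,.k,⟨true,0,⟨0,[]⟩,⟨1,[(37,0),(0,0)]⟩⟩,⟨false,0,⟨3,[(0,1),(6,0),(15,1),(7,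
  2),(5,0),(16,0)]⟩,⟨4,[(3,2),(6,2),(3,0),(7,0),(4,0),(2,2),(3,2)]⟩⟩,⟨false,1,⟨1,[(14,0),(6,1),(31,
  0)]⟩,⟨2,[(23,1),(1,0),(11,0),(10,1),(5,1)]⟩⟩,⟨true,0,⟨0,[(0,0),(49,0)]⟩,⟨0,[(2,0),(16,0)]⟩⟩,⟨true,
  0,⟨3,[(5,0),(6,0),(8,2),(12,1)]⟩,⟨4,[(23,1),(12,2),(0,2),(16,3)]⟩⟩,⟨false,0,⟨0,[(0,0)]⟩,⟨0,[(2,0),
  (19,0)]⟩⟩,[]⟩)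

theorem ok17 : chk K t17 l26 = true := by decide +kernel

noncomputable def t18 : Tre :=
  (.I [1,-1,0,0,1,0,0,-2] (.R ⟨0,false,false,false,[0,0,1],[1,0,-1],[1,1],(⟨0,[(42,0)]⟩,⟨0,[(41,
  0)]⟩),(⟨0,[(41,0)]⟩,⟨0,[(42,0)]⟩),⟨0,[(31,0)]⟩,.k,.k,.k,.k,.k,.k,⟨false,0,⟨7,[(7,0),(6,0),(8,6),
  (12,1),(11,3)]⟩,⟨3,[(0,1),(31,0),(0,0),(21,0)]⟩⟩,⟨true,0,⟨0,[(29,0)]⟩,⟨0,[(1,0)]⟩⟩,⟨true,0,⟨1,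
  [(25,0),(12,0),(0,0)]⟩,⟨0,[(23,0)]⟩⟩,⟨false,1,⟨0,[(0,0),(28,0)]⟩,⟨1,[(9,0),(4,0),(8,0),(4,1)]⟩⟩,
  ⟨false,0,⟨0,[]⟩,⟨0,[]⟩⟩,⟨false,0,⟨0,[]⟩,⟨0,[]⟩⟩,[.o ⟨false,1,⟨28,[(0,9),(28,9),(2,14),(0,14),(4,
  8),(10,1),(7,0)]⟩,⟨1,[(9,0),(4,0),(8,0)]⟩⟩,.o ⟨false,1,⟨19,[(0,9),(28,9),(2,0),(0,0),(15,1),(5,
  4)]⟩,⟨1,[(9,0),(5,0),(7,0),(13,0)]⟩⟩,.e ⟨false,0,⟨0,[]⟩,⟨1,[(32,0),(0,0),(21,0)]⟩⟩ ⟨false,1,⟨3,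
  [(0,1),(28,3),(2,0),(0,0),(21,0)]⟩,⟨5,[(1,1),(5,0),(1,0),(4,1),(13,3)]⟩⟩,.a ⟨true,0,⟨0,[(39,0)]⟩,
  ⟨0,[(36,0)]⟩⟩ ⟨true,0,⟨4,[(7,0),(13,0),(14,0),(11,1)]⟩,⟨1,[(39,0),(0,0)]⟩⟩ ⟨false,1,⟨13,[(0,5),
  (15,0),(3,1),(8,9),(6,5),(17,2),(0,3)]⟩,⟨0,[(1,0),(21,0)]⟩⟩]⟩) (.Q [0,-1,0,0,0,0,2,2,0,-1,2] (.p
  true [0,0,1] [1,0,-1] (⟨0,[(42,0)]⟩,⟨0,[(41,0)]⟩) .k 2 (⟨0,[(41,0)]⟩,⟨0,[(42,0)]⟩) .k (.r 0 ⟨0,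
  [(23,1)]⟩ ⟨0,[(25,0),(12,0),(0,0),(15,0)]⟩)) (.R ⟨0,false,false,true,[0,0,1],[1,0,-1],[1,1],(⟨0,
  [(43,0)]⟩,⟨0,[(42,0)]⟩),(⟨0,[(42,0)]⟩,⟨0,[(43,0)]⟩),⟨0,[(32,0)]⟩,.k,.k,.k,.k,.k,.k,⟨false,0,⟨25,
  [(0,1),(0,9),(4,1),(1,1),(8,0),(19,7),(17,5),(0,2)]⟩,⟨2,[(2,0),(22,0),(0,0),(1,0),(4,0),(0,1),(4,
  0),(16,0)]⟩⟩,⟨true,0,⟨0,[(30,0)]⟩,⟨0,[(2,0)]⟩⟩,⟨true,0,⟨1,[(26,0),(12,0),(0,0)]⟩,⟨0,[(24,0)]⟩⟩,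
  ⟨false,1,⟨0,[(13,0),(20,0),(4,0),(16,0)]⟩,⟨0,[(0,0)]⟩⟩,⟨false,0,⟨0,[]⟩,⟨0,[]⟩⟩,⟨false,0,⟨0,[]⟩,⟨0,
  []⟩⟩,[.o ⟨false,0,⟨0,[(39,0)]⟩,⟨18,[(0,3),(37,10),(11,2),(5,12)]⟩⟩,.o ⟨false,1,⟨1,[(33,0),(0,0),
  (4,1),(16,0)]⟩,⟨108,[(0,26),(0,19),(0,15),(5,7),(6,7),(22,6),(11,9)]⟩⟩,.a ⟨true,0,⟨0,[(27,0)]⟩,⟨3,
  [(4,0),(25,1),(5,0),(6,0),(4,0)]⟩⟩ ⟨false,0,⟨0,[]⟩,⟨1,[(33,0),(0,0),(21,0)]⟩⟩ ⟨true,0,⟨1,[(13,0),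
  (16,0),(3,0),(4,0)]⟩,⟨10,[(0,2),(1,3),(5,1),(6,1),(11,0),(10,2)]⟩⟩,.e ⟨true,0,⟨4,[(1,0),(24,1),
  (22,0),(5,0)]⟩,⟨1,[(40,0),(0,0)]⟩⟩ ⟨true,0,⟨0,[(37,0),(1,0)]⟩,⟨2,[(0,0),(1,1),(35,0),(2,0)]⟩⟩]⟩)
  (.I [0,0,0,0,0,1,1] (.I [0,0,-1,0,0,1,-1] (.C [(0,0),(0,0),(0,0),(0,0),(0,0),(41,1),(11,0)]) (.C
  [(0,0),(8,0),(4,0),(24,0)])) (.C [(0,0),(2,0),(4,0),(3,0),(25,0)]))))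

theorem ok18 : chk K t18 l27 = true := by decide +kernel

noncomputable def t19 : Tre :=
  (.Q [0,0,0,0,0,-1,0,0,0,1,1,-1] (.p false [0,0,-1,0,1] [1] (⟨0,[(10,0)]⟩,⟨0,[(34,0),(7,0)]⟩) .k 1
  (⟨0,[]⟩,⟨0,[]⟩) .k (.r (-1) ⟨41,[(0,15),(11,4),(12,20),(6,26),(6,20),(9,0),(5,12)]⟩ ⟨0,[(1,2),(3,
  0),(1,0),(18,3),(25,0),(3,4)]⟩)) (.R ⟨1,true,false,true,[1,0,1,0,-1],[1,-1,0,0,1],[2,1,-1,-1],(⟨0,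
  [(35,0),(7,0)]⟩,⟨0,[(11,0)]⟩),(⟨0,[(36,0),(10,0)]⟩,⟨0,[(7,0)]⟩),⟨0,[(0,0)]⟩,.k,(.r (-1) ⟨65,[(1,
  9),(15,22),(7,19),(12,9),(11,3),(4,9),(0,4)]⟩ ⟨0,[(51,0),(6,0)]⟩),(.r (-1) ⟨13,[(17,6),(6,3),(5,
  4),(7,9),(11,0),(5,4)]⟩ ⟨0,[(28,0),(11,0)]⟩),(.r 0 ⟨2,[(24,1),(13,0),(2,0),(9,0),(2,1),(2,0)]⟩
  ⟨55,[(1,13),(1,12),(13,26),(7,1),(0,28),(13,26),(9,2),(5,20)]⟩),.k,.k,⟨true,0,⟨0,[]⟩,⟨1,[(40,0),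
  (0,0)]⟩⟩,⟨false,0,⟨3,[(1,1),(0,0),(15,0),(5,1),(9,2),(22,0)]⟩,⟨3,[(3,1),(2,1),(10,0),(9,3),(5,1),
  (21,0)]⟩⟩,⟨false,1,⟨55,[(1,13),(1,12),(13,26),(7,1),(0,28),(13,26),(9,2),(5,20)]⟩,⟨2,[(19,0),(4,
  1),(12,0),(13,1),(5,1)]⟩⟩,⟨true,0,⟨0,[(1,0),(51,0)]⟩,⟨0,[(6,0),(15,0)]⟩⟩,⟨true,0,⟨0,[(26,0)]⟩,⟨2,
  [(24,1),(4,0),(11,0),(15,1)]⟩⟩,⟨false,0,⟨0,[(1,0)]⟩,⟨0,[(6,0),(18,0)]⟩⟩,[]⟩) (.Q [0,0,2,0,0,0,-2,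
  0,-1,3,-2,-1] (.p false [-1,1,1] [2,0,-1,0,-1] (⟨0,[(31,0)]⟩,⟨0,[(4,0),(31,0)]⟩) .k 2 (⟨0,[(4,0),
  (43,0)]⟩,⟨0,[(12,0)]⟩) .k (.r 0 ⟨0,[(24,1)]⟩ ⟨8,[(1,3),(1,2),(9,1),(12,8),(13,8),(9,0),(5,6)]⟩))
  (.Q [1,0,0,2,-1,0,2,2,1,-3,2,1] (.p true [-1,1,1] [2,0,-1,0,-1] (⟨0,[(32,0)]⟩,⟨0,[(5,0),(31,0)]⟩)
  .k 2 (⟨0,[(5,0),(43,0)]⟩,⟨0,[(13,0)]⟩) .k (.r 0 ⟨0,[(25,1)]⟩ ⟨8,[(2,3),(1,2),(9,1),(12,8),(13,8),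
  (9,0),(5,6)]⟩)) (.I [-1,0,-1,-1,1,0,0,-2] (.Q [0,0,-1,0,0,0,2,0,1,-3,2,1] (.p true [-1,1,1] [2,0,
  -1,0,-1] (⟨0,[(34,0)]⟩,⟨0,[(7,0),(31,0)]⟩) .k 2 (⟨0,[(7,0),(43,0)]⟩,⟨0,[(15,0)]⟩) .k (.r 0 ⟨0,
  [(27,1)]⟩ ⟨5,[(0,3),(3,0),(26,2),(4,1),(6,3),(13,0)]⟩)) (.Q [-1,0,0,-1,1,0,-2,-2,-1,3,-2,-1] (.p
  false [-1,1,1] [2,0,-1,0,-1] (⟨0,[(35,0)]⟩,⟨0,[(8,0),(31,0)]⟩) .k 2 (⟨0,[(8,0),(43,0)]⟩,⟨0,[(16,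
  0)]⟩) .k (.r 0 ⟨0,[(28,1)]⟩ ⟨5,[(1,3),(3,0),(26,2),(4,1),(6,3),(13,0)]⟩)) (.R ⟨1,true,false,true,
  [2,0,-1,0,-1],[-1,1,1],[0,0,0,-1,0,0,0,-1],(⟨0,[(9,0),(43,0)]⟩,⟨0,[(17,0)]⟩),(⟨0,[(36,0)]⟩,⟨0,[(9,
  0),(31,0)]⟩),⟨0,[(9,0)]⟩,.k,.k,(.r (-1) ⟨131,[(2,65),(3,9),(15,22),(7,19),(12,9),(11,3),(4,9),(0,
  4)]⟩ ⟨9,[(3,4),(0,4),(1,1),(31,3),(4,1),(17,0)]⟩),(.r (-1) ⟨0,[(2,0)]⟩ ⟨137,[(3,68),(0,88),(1,9),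
  (22,97),(13,49),(11,11),(4,19),(0,24)]⟩),(.r (-2) ⟨65,[(2,65),(3,9),(15,22),(7,19),(12,9),(11,3),
  (4,9),(0,4)]⟩ ⟨0,[(3,0),(0,0)]⟩),.k,⟨false,2,⟨1,[(2,1),(19,0),(38,0)]⟩,⟨6,[(3,6),(0,5),(22,0),(14,
  1),(11,2)]⟩⟩,⟨true,0,⟨0,[(1,0)]⟩,⟨0,[(4,0)]⟩⟩,⟨false,1,⟨0,[(58,0),(2,0)]⟩,⟨0,[(59,0)]⟩⟩,⟨true,
  (-1),⟨0,[(3,0),(54,0)]⟩,⟨0,[(0,0)]⟩⟩,⟨true,0,⟨0,[]⟩,⟨0,[(63,0)]⟩⟩,⟨false,(-1),⟨0,[(3,0)]⟩,⟨0,[(0,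
  0),(57,0),(2,0)]⟩⟩,[]⟩) (.R ⟨1,true,false,true,[2,0,-1,0,-1],[0,0,1],[1,1,0,0,0,0,0,1],(⟨0,[(9,0),
  (43,0)]⟩,⟨0,[(17,0)]⟩),(⟨0,[(48,0)]⟩,⟨0,[(47,0)]⟩),⟨0,[(9,0)]⟩,.k,.k,(.r (-1) ⟨131,[(2,65),(3,9),
  (15,22),(7,19),(12,9),(11,3),(4,9),(0,4)]⟩ ⟨9,[(3,4),(0,4),(1,1),(31,3),(4,1),(17,0)]⟩),.k,(.r
  (-1) ⟨0,[(2,0)]⟩ ⟨137,[(3,68),(0,88),(1,9),(22,97),(13,49),(11,11),(4,19),(0,24)]⟩),.k,⟨true,0,⟨0,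
  []⟩,⟨1,[(45,0),(0,0)]⟩⟩,⟨false,0,⟨3,[(1,1),(11,0),(18,2),(6,0)]⟩,⟨12,[(4,8),(2,3),(30,3),(16,0),
  (4,6)]⟩⟩,⟨false,0,⟨0,[(29,1)]⟩,⟨0,[(2,0),(53,0)]⟩⟩,⟨true,(-1),⟨9,[(0,9),(3,1),(1,0),(25,7),(1,0),
  (7,3),(15,9)]⟩,⟨9,[(2,5),(1,5),(3,1),(24,5),(26,2),(0,0)]⟩⟩,⟨true,(-1),⟨6,[(0,6),(3,3),(22,2),(14,
  5),(11,1)]⟩,⟨1,[(2,1),(42,0),(0,0)]⟩⟩,⟨false,(-1),⟨4,[(0,4),(3,0),(27,3),(6,0),(2,1)]⟩,⟨25,[(2,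
  25),(1,17),(2,7),(30,7),(16,1),(4,0),(0,12)]⟩⟩,[]⟩)) (.I [0,0,-2,-2,1,0,0,-1] (.Q [1,-1,0,-1,1,0,
  -2,-2,1,1,-2,1] (.p false [-1,1,1] [0,0,-1,0,1] (⟨0,[(36,0)]⟩,⟨0,[(9,0),(31,0)]⟩) .k 2 (⟨0,[(16,
  0)]⟩,⟨0,[(40,0),(7,0)]⟩) .k (.r 0 ⟨0,[(29,1)]⟩ ⟨5,[(2,3),(3,0),(26,2),(4,1),(6,3),(13,0)]⟩)) (.Q
  [0,0,0,0,0,-2,0,0,0,2,-1] (.p false [-1,1,1] [1] (⟨0,[(37,0)]⟩,⟨0,[(10,0),(31,0)]⟩) .k 1 (⟨0,[]⟩,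
  ⟨0,[]⟩) .k .k) (.R ⟨1,true,false,true,[2,-1,-1],[1,0,1,0,-1],[-1,1,1,0,0,0,0,1],(⟨7,[(0,3),(2,0),
  (30,2),(6,0),(2,0),(4,3)]⟩,⟨0,[(38,0)]⟩),(⟨0,[(42,0),(7,0)]⟩,⟨0,[(18,0)]⟩),⟨0,[(0,0)]⟩,.k,.k,(.r
  (-1) ⟨0,[(2,0)]⟩ ⟨34,[(5,11),(0,21),(1,4),(26,0),(9,16),(1,8),(9,5),(0,16),(2,27)]⟩),(.r (-1) ⟨0,
  [(4,0)]⟩ ⟨145,[(5,52),(0,72),(1,9),(22,145),(13,49),(11,11),(3,39),(1,28),(1,7)]⟩),(.r (-2) ⟨65,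
  [(1,9),(2,65),(19,22),(7,9),(12,19),(11,3),(4,9),(0,4)]⟩ ⟨0,[(3,0),(1,0),(58,0)]⟩),.k,⟨true,0,⟨1,
  [(47,0),(0,0)]⟩,⟨0,[]⟩⟩,⟨false,1,⟨10,[(4,6),(8,6),(1,1),(6,5),(10,2),(0,2),(10,3),(16,3)]⟩,⟨22,
  [(6,4),(1,13),(22,13),(5,7),(10,5),(15,6)]⟩⟩,⟨true,(-1),⟨1,[(3,0),(1,1),(0,0),(53,1),(3,0)]⟩,⟨4,
  [(2,0),(1,3),(7,0),(2,0),(18,1),(9,1)]⟩⟩,⟨false,0,⟨0,[(13,0),(31,0)]⟩,⟨0,[(1,0)]⟩⟩,⟨false,(-1),⟨0,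
  [(3,0),(1,0),(58,0)]⟩,⟨1,[(4,1),(19,0),(38,0)]⟩⟩,⟨true,(-1),⟨17,[(0,0),(2,3),(1,17),(4,6),(11,6),
  (6,10),(4,11),(9,3),(5,0),(1,1)]⟩,⟨0,[(1,0),(58,0)]⟩⟩,[]⟩) (.I [0,0,0,0,0,1,1] (.I [0,0,-1,0,0,1,
  -1] (.I [0,0,-2,0,0,-1,1,0,1] (.C [(0,1),(2,1),(2,1),(3,0),(11,0),(14,1),(16,2),(12,1)]) (.C [(0,
  0),(13,0),(3,0)])) (.C [(0,0),(1,0),(2,0),(7,0),(3,0),(3,0)])) (.C [(0,0),(0,0),(6,0),(3,1),(7,0),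
  (14,0)]))) (.I [-1,0,-2,-2,1,0,0,-1] (.I [-2,-1,-1,-1,1,0,0,-1] (.R ⟨1,true,false,true,[2,0,-1,0,
  -1],[-1,1,0,0,1],[2,1,1,1],(⟨0,[(12,0),(43,0)]⟩,⟨0,[(20,0)]⟩),(⟨1,[(8,0),(30,0),(4,0)]⟩,⟨0,[(12,
  0),(38,0)]⟩),⟨0,[(12,0)]⟩,.k,(.r 0 ⟨132,[(6,11),(0,21),(1,4),(26,63),(9,44),(1,43),(9,5),(0,44)]⟩
  ⟨81,[(9,9),(15,30),(7,19),(12,9),(11,3),(4,9),(0,12),(1,15)]⟩),(.r (-1) ⟨108,[(1,22),(3,42),(3,9),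
  (23,19),(12,9),(11,3),(4,9),(0,4)]⟩ ⟨9,[(6,4),(0,4),(1,1),(31,3),(4,1),(17,0)]⟩),(.r (-1) ⟨61,[(0,
  14),(0,8),(3,18),(3,4),(23,9),(12,4),(11,1),(4,4),(2,9)]⟩ ⟨9,[(6,4),(0,4),(1,1),(31,3),(4,1),(17,
  0)]⟩),(.x (-1) ⟨11,[(7,8),(0,7),(2,0),(2,0),(5,3),(12,0),(5,15),(1,10),(2,11),(3,5)]⟩ ⟨1,[(12,3),
  (3,2),(1,0),(30,1),(1,1)]⟩),.k,⟨true,0,⟨0,[]⟩,⟨1,[(48,0),(0,0)]⟩⟩,⟨false,0,⟨0,[(16,0),(9,0)]⟩,⟨0,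
  [(4,0),(30,0),(5,0)]⟩⟩,⟨false,0,⟨9,[(6,4),(0,4),(1,1),(31,3),(4,1),(17,0)]⟩,⟨0,[(0,0)]⟩⟩,⟨true,
  (-1),⟨1,[(2,1),(6,1),(6,0),(1,0),(30,1)]⟩,⟨2,[(0,1),(3,1),(6,0),(18,0),(2,0),(1,1)]⟩⟩,⟨true,(-1),
  ⟨12,[(2,8),(3,3),(0,6),(1,5),(26,6),(11,0),(8,1),(4,1)]⟩,⟨1,[(1,1),(46,0),(0,0)]⟩⟩,⟨false,(-1),⟨0,
  [(2,0),(6,0),(6,0),(32,0),(9,0)]⟩,⟨8,[(0,9),(3,1),(2,3),(3,0),(11,1),(9,7),(1,1)]⟩⟩,[]⟩) (.N [0,2,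
  1,0,2] 1 ⟨0,[(0,0),(58,0)]⟩ ⟨0,[(1,0)]⟩ (.x 0 ⟨1,[(12,3),(3,2),(1,0),(30,1),(1,1)]⟩ ⟨11,[(7,8),(0,
  7),(2,0),(2,0),(5,3),(12,0),(5,15),(1,10),(2,11),(3,5)]⟩))) (.N [0,2,1,0,1] 1 ⟨0,[(0,0)]⟩ ⟨0,[(2,
  0)]⟩ (.x (-1) ⟨154,[(4,23),(0,11),(2,17),(2,154),(3,106),(29,41),(8,154),(2,42),(4,35),(0,20)]⟩
  ⟨0,[(3,0),(3,0),(26,0),(3,1),(12,0),(12,0)]⟩)))) (.I [1,0,1,2,-1,0,0,1] (.Q [0,-1,0,-1,1,0,-1,-1,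
  0,2,-1] (.p false [-1,1,1] [1] (⟨0,[(37,0)]⟩,⟨0,[(10,0),(31,0)]⟩) .k 1 (⟨0,[]⟩,⟨0,[]⟩) .k .k) (.R
  ⟨1,true,false,true,[2,0,-1,0,-1],[0,1,0,0,-1],[0,1,1,1],(⟨0,[(11,0),(43,0)]⟩,⟨0,[(19,0)]⟩),(⟨0,
  [(14,0)]⟩,⟨0,[(43,0),(10,0)]⟩),⟨0,[(11,0)]⟩,.k,(.r 0 ⟨10,[(2,2),(1,0),(3,0),(31,1),(6,0),(10,4),
  (2,0),(3,4)]⟩ ⟨35,[(0,9),(23,12),(20,9),(11,3),(4,4)]⟩),(.r (-1) ⟨71,[(0,9),(3,35),(19,12),(20,9),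
  (11,3),(4,4)]⟩ ⟨137,[(2,39),(2,28),(0,48),(1,9),(36,49),(11,11),(4,19),(0,24)]⟩),.k,(.r (-2) ⟨23,
  [(0,9),(3,11),(19,12),(20,9),(11,3),(4,4)]⟩ ⟨0,[(1,0),(62,0)]⟩),.k,⟨true,0,⟨0,[]⟩,⟨1,[(47,0),(0,
  0)]⟩⟩,⟨false,1,⟨0,[(15,0),(24,0)]⟩,⟨2,[(3,1),(37,1),(5,0)]⟩⟩,⟨true,(-1),⟨0,[(1,0),(58,0)]⟩,⟨71,
  [(0,9),(3,35),(19,12),(20,9),(11,3),(4,4)]⟩⟩,⟨false,0,⟨71,[(5,28),(4,1),(2,13),(26,10),(4,1),(11,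
  8),(7,9)]⟩,⟨0,[(0,0)]⟩⟩,⟨false,(-1),⟨0,[(1,0)]⟩,⟨21,[(0,9),(3,5),(19,12),(22,9),(9,3),(2,1),(2,
  6)]⟩⟩,⟨true,(-1),⟨9,[(1,0),(0,0),(2,7),(4,3),(22,1),(12,1),(9,0)]⟩,⟨0,[(0,0),(59,0)]⟩⟩,[]⟩) (.Q
  [0,0,0,0,0,-2,0,0,0,1,0,1] (.p true [1,-1,0,0,1] [] (⟨0,[(43,0),(10,0)]⟩,⟨0,[(14,0)]⟩) (.r (-1)
  ⟨65,[(8,9),(15,22),(7,19),(12,9),(11,3),(4,9),(0,4)]⟩ ⟨10,[(2,2),(1,0),(3,0),(31,1),(6,0),(10,4),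
  (2,0),(3,4)]⟩) 0 (⟨0,[]⟩,⟨0,[]⟩) .k .k) (.R ⟨1,true,false,false,[1,-1,0,0,1],[1,0,1,0,-1],[0,0,0,
  0,0,0,0,1],(⟨7,[(0,3),(3,0),(30,2),(6,0),(1,3),(0,0)]⟩,⟨0,[(15,0)]⟩),(⟨0,[(43,0),(7,0)]⟩,⟨0,[(19,
  0)]⟩),⟨0,[(0,0)]⟩,(.r (-1) ⟨65,[(9,9),(15,22),(7,19),(12,9),(11,3),(4,9),(0,4)]⟩ ⟨10,[(3,2),(1,0),
  (3,0),(31,1),(6,0),(10,4),(2,0),(3,4)]⟩),.k,(.r (-1) ⟨0,[(28,0)]⟩ ⟨10,[(3,8),(1,2),(3,2),(31,5),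
  (6,2),(10,3),(2,2),(3,3)]⟩),(.r (-1) ⟨131,[(5,65),(3,9),(15,22),(7,19),(12,9),(11,3),(4,9),(0,
  4)]⟩ ⟨185,[(3,92),(3,9),(1,4),(22,72),(13,24),(11,5),(4,9),(0,70),(1,116)]⟩),(.r (-2) ⟨43,[(5,21),
  (3,9),(15,22),(7,19),(12,9),(11,3),(4,9),(0,4)]⟩ ⟨0,[(1,0),(8,1),(24,2),(23,0),(5,2)]⟩),.k,⟨true,
  0,⟨0,[]⟩,⟨1,[(48,0),(0,0)]⟩⟩,⟨false,1,⟨2,[(11,1),(2,1),(10,0),(9,2),(27,1)]⟩,⟨1,[(7,0),(18,2),(15,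
  1)]⟩⟩,⟨false,0,⟨0,[(10,2),(3,0),(1,0),(18,3),(29,5)]⟩,⟨131,[(5,65),(3,9),(15,22),(7,19),(12,9),
  (11,3),(4,9),(0,4)]⟩⟩,⟨true,0,⟨0,[(14,0),(15,0)]⟩,⟨0,[(9,0),(51,0)]⟩⟩,⟨true,(-1),⟨7,[(0,0),(0,1),
  (0,5),(7,0),(1,0),(38,0),(1,2),(5,1),(5,0)]⟩,⟨157,[(5,78),(3,14),(15,36),(7,29),(12,14),(10,4),(0,
  5),(2,132)]⟩⟩,⟨false,0,⟨1,[(4,0),(9,2),(19,0),(0,0),(26,0)]⟩,⟨0,[(9,0),(51,1),(2,0)]⟩⟩,[]⟩) (.I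
  [0,0,0,0,0,1,1] (.I [0,0,-1,0,0,1,-1] (.I [0,0,-2,0,0,-1,1,0,1] (.C [(0,1),(2,1),(3,1),(3,0),(11,
  2),(14,1),(16,2),(12,1)]) (.C [(0,0),(14,0),(3,0)])) (.C [(0,0),(1,0),(3,0),(7,0),(3,0),(3,1)]))
  (.C [(0,0),(0,0),(7,0),(3,1),(7,1),(14,0)])))) (.I [1,0,-2,-2,1,0,0,-1] (.N [0,2,1] 1 ⟨0,[(2,0)]⟩
  ⟨0,[(0,0)]⟩ (.x (-1) ⟨137,[(0,3),(9,7),(0,68),(1,7),(1,133),(2,68),(3,3),(17,105),(10,6),(2,199),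
  (2,13)]⟩ ⟨1,[(6,0),(23,0),(7,1),(8,0),(0,0),(6,1)]⟩)) (.N [0,2,1,0,-1] 1 ⟨0,[(0,0)]⟩ ⟨1,[(1,1),(5,
  0),(6,0),(19,1),(3,0),(5,1),(6,2)]⟩ (.x (-1) ⟨8,[(4,1),(5,1),(2,1),(1,4),(2,8),(3,3),(17,3),(10,
  7),(2,9),(7,2)]⟩ ⟨3,[(6,2),(7,3),(10,4),(12,3),(2,1),(5,1)]⟩)))))) (.I [0,0,-1,-1,1,0,0,-2] (.N
  [0,1,2,0,1] 1 ⟨0,[(1,0)]⟩ ⟨0,[(0,0)]⟩ (.x 0 ⟨2,[(4,1),(3,3),(2,0),(0,2),(18,1),(12,0),(3,1),(12,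
  1)]⟩ ⟨49,[(3,49),(1,1),(10,49),(18,49),(1,3),(4,1),(11,9),(4,24),(0,0)]⟩)) (.I [2,0,1,1,0,0,0,-2]
  (.N [0,-1,2,0,-1] 0 ⟨0,[(1,0),(20,0)]⟩ ⟨0,[(0,0)]⟩ (.x (-1) ⟨0,[(16,0),(15,0),(4,0),(0,0),(6,0)]⟩
  ⟨0,[(7,0),(5,0),(26,0),(5,0),(1,1),(0,0),(12,0)]⟩)) (.N [0,-1,2,0,-2] 0 ⟨0,[(0,0)]⟩ ⟨1,[(5,0),(0,
  1),(1,1),(3,0),(19,3),(3,0),(12,2),(6,1)]⟩ (.x (-1) ⟨2,[(5,0),(2,0),(2,0),(4,4),(13,0),(1,2),(5,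
  1),(6,2),(7,1)]⟩ ⟨1,[(7,0),(1,1),(3,2),(9,0),(16,1),(5,4),(1,5)]⟩))))) (.R ⟨0,false,false,true,[0,
  0,1],[0,0,2],[1,1],(⟨0,[(45,0)]⟩,⟨0,[(44,0)]⟩),(⟨0,[(45,1)]⟩,⟨0,[(2,0),(3,0)]⟩),⟨0,[(34,0)]⟩,.k,
  .k,.k,.k,.k,.k,⟨false,1,⟨135,[(0,14),(2,7),(24,203),(1,29),(4,0),(6,67),(9,8),(5,101)]⟩,⟨0,[(26,
  1)]⟩⟩,⟨true,0,⟨0,[(29,0)]⟩,⟨0,[(43,0)]⟩⟩,⟨true,0,⟨1,[(28,0),(12,0),(0,0)]⟩,⟨0,[(26,0)]⟩⟩,⟨false,0,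
  ⟨0,[(31,0)]⟩,⟨67,[(0,14),(2,7),(26,29),(4,0),(16,8),(5,33)]⟩⟩,⟨false,0,⟨0,[]⟩,⟨0,[]⟩⟩,⟨false,0,⟨0,
  []⟩,⟨0,[]⟩⟩,[.o ⟨false,0,⟨1,[(12,0),(4,0),(8,0),(13,1)]⟩,⟨115,[(0,53),(2,15),(6,10),(1,10),(10,
  107),(19,21),(8,1),(5,57)]⟩⟩,.o ⟨false,0,⟨1,[(12,0),(4,0),(8,0),(4,1)]⟩,⟨98,[(0,43),(2,21),(19,6),
  (6,80),(21,24),(5,4),(1,9)]⟩⟩,.e ⟨false,0,⟨0,[]⟩,⟨4,[(3,0),(31,1),(4,0),(17,2)]⟩⟩ ⟨false,0,⟨0,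
  [(26,0),(4,0)]⟩,⟨3,[(0,1),(9,0),(1,0),(10,1),(6,1),(11,1),(15,1)]⟩⟩,.a ⟨true,0,⟨0,[(42,0)]⟩,⟨0,
  [(39,0)]⟩⟩ ⟨true,0,⟨4,[(10,0),(13,0),(14,0),(11,1)]⟩,⟨1,[(42,0),(0,0)]⟩⟩ ⟨false,0,⟨3,[(4,1),(5,0),
  (6,0),(8,0),(4,5)]⟩,⟨38,[(0,20),(2,4),(8,10),(10,30),(18,27),(9,1),(0,10),(4,13)]⟩⟩]⟩)) (.I [-1,0,
  -2,-2,1] (.I [0,0,-1,-1,1,0,0,-2] (.R ⟨0,false,false,false,[1,0,-2],[1,0,-1],[0,1],(⟨0,[(3,0),(3,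
  0)]⟩,⟨0,[(46,1)]⟩),(⟨0,[(45,0)]⟩,⟨0,[(46,0)]⟩),⟨0,[(34,0),(11,0)]⟩,.k,.k,(.r (-1) ⟨0,[(0,0)]⟩ ⟨1,
  [(22,0),(4,0),(5,0),(7,1),(2,0),(9,0)]⟩),.k,.k,.k,⟨false,0,⟨5,[(5,1),(5,0),(6,0),(8,2),(13,1),(10,
  1)]⟩,⟨8,[(0,3),(3,0),(31,1),(6,0),(10,2),(2,0),(1,2)]⟩⟩,⟨true,0,⟨0,[(30,0)]⟩,⟨0,[(44,0)]⟩⟩,⟨false,
  0,⟨0,[(27,1)]⟩,⟨0,[(0,0),(53,0)]⟩⟩,⟨true,0,⟨0,[(32,0)]⟩,⟨0,[(42,0)]⟩⟩,⟨false,0,⟨0,[]⟩,⟨0,[]⟩⟩,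
  ⟨false,0,⟨0,[]⟩,⟨0,[]⟩⟩,[.o ⟨false,1,⟨68,[(4,33),(11,34),(19,32),(16,6),(5,21),(1,8)]⟩,⟨1,[(13,0),
  (4,0),(8,0)]⟩⟩,.o ⟨false,1,⟨11,[(0,1),(3,1),(11,3),(14,1),(1,0),(10,1),(8,0),(5,7)]⟩,⟨1,[(13,0),
  (5,0),(7,0),(13,0)]⟩⟩,.a ⟨true,0,⟨0,[(33,0)]⟩,⟨0,[(30,1)]⟩⟩ ⟨true,0,⟨0,[(61,0)]⟩,⟨0,[]⟩⟩ ⟨false,1,
  ⟨1,[(0,0),(29,0),(12,0),(13,0),(1,0)]⟩,⟨10,[(2,0),(2,3),(3,0),(17,9),(16,5),(11,0)]⟩⟩,.o ⟨false,0,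
  ⟨2,[(3,0),(1,1),(4,0),(23,0),(9,1),(2,2),(12,2)]⟩,⟨2,[(2,0),(27,0),(5,0),(6,2),(14,1)]⟩⟩]⟩) (.R
  ⟨0,false,false,false,[1,0,-2],[1,0,-1],[0,1],(⟨0,[(3,0),(3,0)]⟩,⟨0,[(46,1)]⟩),(⟨0,[(45,0)]⟩,⟨0,
  [(46,0)]⟩),⟨0,[(34,0),(11,0)]⟩,.k,.k,(.x 0 ⟨1,[(33,0),(0,0),(9,1),(1,2),(4,0)]⟩ ⟨21,[(2,12),(4,
  21),(6,21),(21,12),(6,17),(9,0),(4,6)]⟩),.k,.k,.k,⟨false,0,⟨3,[(0,1),(0,0),(50,1),(5,0)]⟩,⟨17,[(4,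
  3),(1,2),(9,1),(12,8),(13,8),(9,0),(5,15)]⟩⟩,⟨true,0,⟨0,[(30,0)]⟩,⟨0,[(44,0)]⟩⟩,⟨false,0,⟨0,[(27,
  1)]⟩,⟨1,[(1,1),(1,0),(0,1),(1,1),(3,0),(19,3),(3,0),(12,2),(6,3)]⟩⟩,⟨true,0,⟨0,[(32,0)]⟩,⟨0,[(42,
  0)]⟩⟩,⟨false,0,⟨0,[]⟩,⟨0,[]⟩⟩,⟨false,0,⟨0,[]⟩,⟨0,[]⟩⟩,[.o ⟨false,1,⟨68,[(4,33),(11,34),(19,32),
  (16,6),(5,21),(1,8)]⟩,⟨20,[(0,3),(0,1),(11,7),(4,7),(13,4),(20,0)]⟩⟩,.o ⟨false,1,⟨8,[(4,3),(1,2),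
  (9,1),(36,0),(5,6)]⟩,⟨23,[(0,3),(1,1),(10,3),(4,0),(0,4),(21,14),(11,1),(2,3)]⟩⟩,.a ⟨true,0,⟨0,
  [(33,0)]⟩,⟨0,[(30,1)]⟩⟩ ⟨true,0,⟨0,[(61,0)]⟩,⟨0,[]⟩⟩ ⟨false,1,⟨0,[(29,0),(13,0),(15,0)]⟩,⟨9,[(0,
  3),(0,1),(25,1),(5,4),(19,0)]⟩⟩,.o ⟨false,0,⟨2,[(3,0),(1,1),(4,0),(23,0),(9,1),(2,2),(12,2)]⟩,⟨2,
  [(2,0),(27,0),(5,0),(6,2),(14,1)]⟩⟩]⟩)) (.N [0,2,0,0,1] 1 ⟨0,[(0,0)]⟩ ⟨0,[(19,0)]⟩ (.x 0 ⟨0,[(1,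
  0),(2,0),(1,0),(38,0),(0,0),(12,0)]⟩ ⟨0,[(35,0),(2,0),(3,0),(0,0),(6,1)]⟩)))))

theorem ok19 : chk K t19 l28 = true := by decide +kernel

noncomputable def t20 : Tre :=
  (.Q [1,-1,0,0,1,0,-2,-2,1,0,-2,1] (.p false [0,0,1] [0,0,-1,0,1] (⟨0,[(45,0)]⟩,⟨0,[(44,0)]⟩) .k 2
  (⟨0,[(13,0)]⟩,⟨0,[(37,0),(7,0)]⟩) .k (.r 0 ⟨0,[(26,1)]⟩ ⟨29,[(1,9),(5,8),(20,29),(1,0),(4,0),(6,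
  29),(9,1),(5,14)]⟩)) (.Q [0,0,0,-1,1,0,-2,-2,0,2,-2] (.p false [0,0,1] [2,-1,-1] (⟨0,[(46,0)]⟩,⟨0,
  [(45,0)]⟩) .k 2 (⟨0,[(7,0),(31,0)]⟩,⟨0,[(34,0)]⟩) .k (.r 0 ⟨0,[(27,1)]⟩ ⟨36,[(0,15),(5,4),(22,36),
  (6,5),(6,36),(9,0),(5,12)]⟩)) (.Q [2,0,0,1,0,0,-2,-2,2,-1,-2,2] (.p true [0,0,-1,0,1] [1,0,1,0,
  -1] (⟨0,[(15,0)]⟩,⟨0,[(39,0),(7,0)]⟩) .k 2 (⟨0,[(39,0),(7,0)]⟩,⟨0,[(15,0)]⟩) .k (.r (-1) ⟨36,[(1,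
  15),(5,4),(22,36),(6,5),(6,36),(9,0),(5,12)]⟩ ⟨3,[(2,9),(1,7),(1,3),(0,7),(0,4),(3,15),(2,4),(33,
  24),(5,7),(5,35)]⟩)) (.R ⟨1,true,false,true,[1,0,1,0,-1],[0,0,-1,0,1],[2,1,0,0,0,0,0,-1],(⟨0,[(40,
  0),(7,0)]⟩,⟨0,[(16,0)]⟩),(⟨0,[(16,0)]⟩,⟨0,[(40,0),(7,0)]⟩),⟨0,[(3,0),(8,0)]⟩,.k,.k,(.r (-1) ⟨75,
  [(4,14),(0,37),(16,3),(7,14),(12,29),(11,5),(4,14),(0,14)]⟩ ⟨0,[(33,0),(11,0)]⟩),.k,(.r 0 ⟨0,[(5,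
  0)]⟩ ⟨1,[(2,0),(28,0),(1,0),(4,0),(6,2),(13,0)]⟩),.k,⟨true,0,⟨0,[]⟩,⟨1,[(45,0),(0,0)]⟩⟩,⟨false,0,
  ⟨0,[(0,0),(4,0)]⟩,⟨5,[(6,0),(1,0),(18,4),(4,11),(5,2),(22,2)]⟩⟩,⟨false,1,⟨36,[(2,15),(5,4),(22,
  36),(6,5),(6,36),(9,0),(5,12)]⟩,⟨0,[(5,0),(50,0)]⟩⟩,⟨true,0,⟨0,[(0,0),(57,0)]⟩,⟨2,[(3,0),(2,2),(2,
  0),(24,2),(6,0),(11,2)]⟩⟩,⟨true,0,⟨0,[(31,0),(1,0),(11,0)]⟩,⟨1,[(5,1),(39,0),(0,0)]⟩⟩,⟨false,0,⟨0,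
  [(0,0)]⟩,⟨1,[(1,0),(3,0),(0,1),(25,0),(1,1),(10,0),(15,0)]⟩⟩,[]⟩) (.Q [2,0,0,-1,0,0,1,1,2,-1,1,2]
  (.p true [0,0,1] [1,1,0,0,-2] (⟨0,[(48,0)]⟩,⟨0,[(47,0)]⟩) .k 2 (⟨0,[(12,0),(27,0)]⟩,⟨1,[(3,0),(12,
  1),(0,0),(23,0)]⟩) (.r 0 ⟨3,[(33,0),(9,0),(12,0),(2,1),(2,2)]⟩ ⟨37,[(4,4),(17,13),(7,4),(12,9),
  (11,1),(4,4),(0,4)]⟩) (.r 0 ⟨0,[(29,0)]⟩ ⟨17,[(1,4),(29,7),(13,9),(9,1),(3,4),(0,0),(0,7),(1,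
  7)]⟩)) (.R ⟨1,true,false,false,[1,-1,0,0,1],[2,0,-1,0,-1],[0,0,0,0,0,0,0,-1],(⟨2,[(4,0),(5,0),(31,
  3)]⟩,⟨0,[(13,0)]⟩),(⟨0,[(10,0),(43,0)]⟩,⟨0,[(18,0)]⟩),⟨0,[(4,0),(12,0)]⟩,(.r (-1) ⟨75,[(0,9),(4,
  4),(17,17),(7,24),(24,3),(4,19)]⟩ ⟨0,[(57,0),(6,0)]⟩),.k,(.r (-1) ⟨0,[(26,0)]⟩ ⟨0,[(57,1),(6,
  1)]⟩),(.r (-1) ⟨7,[(0,1),(4,0),(0,3),(24,0),(7,3),(21,1)]⟩ ⟨2,[(32,1),(1,0),(11,0),(10,1),(5,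
  1)]⟩),(.r (-1) ⟨151,[(0,9),(4,4),(0,75),(16,93),(7,24),(24,3),(4,19)]⟩ ⟨0,[(34,0),(11,0),(10,0),
  (6,0)]⟩),.k,⟨true,0,⟨0,[]⟩,⟨1,[(46,0),(0,0)]⟩⟩,⟨false,1,⟨3,[(7,1),(0,1),(0,1),(51,2),(0,0)]⟩,⟨0,
  [(24,0),(15,0),(5,0)]⟩⟩,⟨true,0,⟨2,[(32,0),(1,1),(11,1),(10,0),(5,0)]⟩,⟨4,[(6,2),(25,0),(22,0),(3,
  1)]⟩⟩,⟨false,1,⟨0,[(9,0),(50,0),(1,0)]⟩,⟨0,[(0,0)]⟩⟩,⟨false,0,⟨7,[(4,9),(3,3),(0,7),(0,4),(3,15),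
  (2,4),(33,24),(5,15),(5,27)]⟩,⟨44,[(0,10),(0,0),(4,15),(16,20),(7,19),(15,12),(8,1)]⟩⟩,⟨true,0,⟨6,
  [(1,0),(7,2),(1,5),(21,2),(9,2),(13,2),(2,5)]⟩,⟨0,[(0,0),(58,0)]⟩⟩,[]⟩) (.Q [0,0,0,0,0,0,0,0,0,1,
  -2] (.ed true [0,0,2] (.r 0 ⟨0,[(30,1)]⟩ ⟨40,[(0,4),(1,4),(0,12),(28,40),(6,2),(6,40),(9,2),(5,
  13)]⟩)) (.R ⟨0,false,false,false,[0,0,1],[0,0,2],[1],(⟨0,[(50,0)]⟩,⟨0,[(49,0)]⟩),(⟨0,[(50,1)]⟩,⟨0,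
  [(0,0)]⟩),⟨0,[(39,0)]⟩,.k,.k,.k,.k,.k,.k,⟨false,1,⟨81,[(1,4),(1,4),(0,12),(28,122),(6,2),(6,40),
  (9,2),(5,54)]⟩,⟨0,[(31,1)]⟩⟩,⟨true,0,⟨0,[(34,0)]⟩,⟨0,[(48,0)]⟩⟩,⟨false,1,⟨81,[(1,4),(1,4),(0,12),
  (28,40),(6,2),(6,40),(9,2),(5,54)]⟩,⟨0,[(31,0)]⟩⟩,⟨true,0,⟨0,[(36,0)]⟩,⟨0,[(46,0)]⟩⟩,⟨false,0,⟨0,
  []⟩,⟨0,[]⟩⟩,⟨false,0,⟨0,[]⟩,⟨0,[]⟩⟩,[.o ⟨false,0,⟨5,[(2,0),(4,1),(9,1),(8,2),(18,2),(1,1)]⟩,⟨12,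
  [(3,6),(0,1),(5,0),(17,4),(6,1),(21,1),(7,0)]⟩⟩,.o ⟨false,0,⟨9,[(2,5),(4,3),(7,2),(1,4),(23,3),
  (16,9)]⟩,⟨20,[(6,10),(13,8),(14,10),(4,1),(16,3),(7,11)]⟩⟩,.a ⟨true,0,⟨0,[(34,0)]⟩,⟨5,[(5,0),(5,
  0),(25,2),(5,0),(11,2)]⟩⟩ ⟨true,0,⟨0,[]⟩,⟨0,[(65,0)]⟩⟩ ⟨false,0,⟨4,[(2,1),(4,2),(7,0),(25,2),(16,
  4)]⟩,⟨81,[(1,14),(1,14),(0,38),(28,40),(6,8),(6,40),(9,8),(5,0)]⟩⟩,.e ⟨false,1,⟨1,[(62,0),(0,0)]⟩,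
  ⟨1,[(47,0),(0,0)]⟩⟩ ⟨false,0,⟨1,[(2,0),(4,0),(7,0),(25,0),(2,0),(13,1)]⟩,⟨29,[(3,17),(0,1),(5,0),
  (17,11),(4,0),(1,5),(11,28),(9,4),(6,1)]⟩⟩]⟩) (.I [0,0,0,0,0,1,1] (.C [(0,1),(0,0),(8,0),(41,1),
  (12,0)]) (.C [(0,0),(14,0),(3,0),(15,0)]))))) (.R ⟨1,true,false,false,[1,0,1,0,-1],[2,-1,-1],[1,0,
  -1,-1,0,0,0,-1],(⟨0,[(39,0),(7,0)]⟩,⟨0,[(15,0)]⟩),(⟨0,[(8,0),(31,0)]⟩,⟨0,[(35,0)]⟩),⟨0,[(2,0),(8,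
  0)]⟩,.k,.k,(.r (-1) ⟨75,[(3,14),(0,37),(16,3),(7,14),(12,29),(11,5),(4,14),(0,14)]⟩ ⟨0,[(32,0),
  (11,0)]⟩),(.r 1 ⟨4,[(0,4),(1,0),(5,0),(25,6),(5,0),(3,3),(7,2),(8,0)]⟩ ⟨11,[(3,6),(17,0),(7,2),(0,
  9),(0,13),(5,3),(16,1),(5,4)]⟩),.k,.k,⟨true,0,⟨0,[]⟩,⟨1,[(44,0),(0,0)]⟩⟩,⟨false,0,⟨0,[(34,0),(3,
  0)]⟩,⟨31,[(5,9),(6,10),(17,9),(0,42),(5,22),(16,1),(5,4)]⟩⟩,⟨false,2,⟨45,[(1,3),(1,11),(3,7),(13,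
  16),(8,51),(13,39),(9,3),(5,50)]⟩,⟨4,[(0,4),(1,0),(5,0),(25,6),(5,0),(3,3),(7,2),(8,0)]⟩⟩,⟨true,1,
  ⟨0,[(3,0)]⟩,⟨0,[(0,0),(25,0)]⟩⟩,⟨true,1,⟨73,[(1,15),(5,4),(22,110),(6,5),(6,36),(9,0),(5,49)]⟩,⟨5,
  [(0,5),(1,0),(5,0),(25,8),(5,0),(3,5),(7,2),(4,5)]⟩⟩,⟨false,1,⟨1,[(1,0),(1,0),(27,0),(9,0),(13,
  0)]⟩,⟨61,[(0,15),(3,7),(0,30),(15,3),(11,44),(10,15),(9,5)]⟩⟩,[]⟩)) (.Q [0,0,0,0,0,-2,0,0,0,2,-1]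
  (.p false [-1,1,1] [1] (⟨0,[(34,0)]⟩,⟨0,[(7,0),(31,0)]⟩) .k 1 (⟨0,[]⟩,⟨0,[]⟩) .k .k) (.R ⟨1,true,
  false,false,[2,-1,-1],[1,0,1,0,-1],[0,0,0,0,0,0,0,1],(⟨0,[(0,0),(51,0)]⟩,⟨0,[(35,0)]⟩),(⟨0,[(39,
  0),(7,0)]⟩,⟨0,[(15,0)]⟩),⟨0,[(0,0)]⟩,.k,.k,(.r (-2) ⟨3,[(3,1),(8,0),(8,2),(9,2),(5,2)]⟩ ⟨0,[(1,0),
  (30,0),(5,0),(6,0),(9,0)]⟩),(.r (-2) ⟨11,[(3,6),(17,0),(7,2),(0,9),(0,13),(5,3),(16,1),(5,4)]⟩ ⟨0,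
  [(1,0),(20,0),(11,0),(20,0)]⟩),(.r (-2) ⟨35,[(3,11),(3,6),(6,1),(6,29),(8,40),(13,28),(9,2),(5,
  23)]⟩ ⟨1,[(1,1),(25,0),(6,0),(3,0),(6,1),(9,1),(2,1)]⟩),.k,⟨true,0,⟨0,[]⟩,⟨1,[(44,0),(0,0)]⟩⟩,
  ⟨false,1,⟨3,[(5,1),(6,1),(17,1),(0,3),(5,1),(21,0),(0,0)]⟩,⟨1,[(34,1),(3,1),(5,0),(0,0)]⟩⟩,⟨true,
  (-1),⟨0,[(1,0),(25,0),(6,0),(20,0)]⟩,⟨35,[(3,11),(3,6),(6,1),(6,11),(8,40),(13,28),(9,2),(5,5)]⟩⟩,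
  ⟨false,0,⟨2,[(1,0),(8,1),(12,0),(18,0),(17,0)]⟩,⟨0,[(3,0)]⟩⟩,⟨false,(-1),⟨0,[(1,0),(4,0),(20,0),
  (27,1)]⟩,⟨23,[(3,11),(3,6),(6,1),(6,17),(8,16),(13,28),(9,2),(5,11)]⟩⟩,⟨true,(-1),⟨0,[(1,0),(21,
  0),(8,0)]⟩,⟨0,[(3,0),(53,0)]⟩⟩,[]⟩) (.I [0,0,0,0,0,1,1] (.C [(0,1),(0,0),(1,0),(3,0),(41,1),(12,
  0)]) (.C [(0,0),(0,0),(7,0),(6,0),(15,0)]))))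

theorem ok20 : chk K t20 l31 = true := by decide +kernel

noncomputable def t21 : Tre :=
  (.Q [0,0,0,0,0,-1,0,0,0,1,1,-1] (.p false [0,0,-1,0,1] [1] (⟨0,[(14,0)]⟩,⟨0,[(38,0),(7,0)]⟩) .k 1
  (⟨0,[]⟩,⟨0,[]⟩) .k (.r (-1) ⟨77,[(2,19),(26,17),(1,19),(4,19),(6,59),(9,3),(4,20),(0,8)]⟩ ⟨0,[(3,
  0),(1,2),(0,0),(4,1),(18,4),(23,0),(5,6)]⟩)) (.R ⟨1,true,false,true,[1,0,1,0,-1],[0,0,-1,0,1],[2,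
  1,0,0,0,0,0,-1],(⟨0,[(0,0),(51,0)]⟩,⟨0,[(15,0)]⟩),(⟨0,[(15,0)]⟩,⟨0,[(0,0),(51,0)]⟩),⟨0,[(0,0)]⟩,
  .k,.k,(.r (-1) ⟨75,[(3,14),(0,37),(16,3),(7,14),(12,29),(11,5),(4,14),(0,14)]⟩ ⟨0,[(32,0),(11,
  0)]⟩),.k,(.r 0 ⟨0,[(4,0)]⟩ ⟨77,[(3,19),(26,17),(1,97),(4,19),(6,137),(9,3),(4,20),(0,8)]⟩),.k,
  ⟨true,0,⟨0,[]⟩,⟨1,[(44,0),(0,0)]⟩⟩,⟨false,0,⟨0,[(6,0),(15,1)]⟩,⟨5,[(5,0),(1,0),(18,4),(4,11),(5,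
  2),(22,2)]⟩⟩,⟨false,1,⟨29,[(3,9),(5,8),(20,29),(1,0),(4,0),(6,29),(9,1),(5,14)]⟩,⟨0,[(4,0),(50,
  0)]⟩⟩,⟨true,0,⟨1,[(1,1),(10,0),(1,0),(30,1)]⟩,⟨1,[(5,1),(2,0),(24,1),(6,0),(6,0),(4,0)]⟩⟩,⟨true,0,
  ⟨0,[(30,0),(1,0),(11,0)]⟩,⟨1,[(4,1),(39,0),(0,0)]⟩⟩,⟨false,0,⟨0,[(1,0),(10,0),(32,0),(9,0)]⟩,⟨3,
  [(4,1),(0,2),(2,0),(20,1),(1,1),(1,0),(6,0),(3,1),(2,0),(4,0),(7,1)]⟩⟩,[]⟩) (.I [0,1,1,0,-1,0,0,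
  2] (.Q [0,0,2,0,0,0,-2,0,-1,3,-2,-1] (.p false [-1,1,1] [2,0,-1,0,-1] (⟨0,[(36,0)]⟩,⟨0,[(9,0),(31,
  0)]⟩) .k 2 (⟨0,[(9,0),(43,0)]⟩,⟨0,[(17,0)]⟩) .k (.r 0 ⟨0,[(29,1)]⟩ ⟨29,[(4,9),(5,8),(20,29),(1,0),
  (4,0),(6,29),(9,1),(5,14)]⟩)) (.Q [0,0,-1,0,0,0,2,0,1,-3,2,1] (.p true [-1,1,1] [2,0,-1,0,-1] (⟨0,
  [(37,0)]⟩,⟨0,[(10,0),(31,0)]⟩) .k 2 (⟨0,[(10,0),(43,0)]⟩,⟨0,[(18,0)]⟩) .k (.r 0 ⟨0,[(30,1)]⟩ ⟨29,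
  [(5,9),(5,8),(20,29),(1,0),(4,0),(6,29),(9,1),(5,14)]⟩)) (.Q [1,-1,0,2,-1,0,2,2,1,-3,2,1] (.p
  true [-1,1,1] [2,0,-1,0,-1] (⟨0,[(38,0)]⟩,⟨0,[(11,0),(31,0)]⟩) .k 2 (⟨0,[(11,0),(43,0)]⟩,⟨0,[(19,
  0)]⟩) .k (.r 0 ⟨0,[(31,1)]⟩ ⟨14,[(0,1),(5,5),(5,4),(20,11),(1,0),(4,2),(6,13),(15,5)]⟩)) (.I [1,0,
  1,1,-1,0,0,2] (.R ⟨1,true,false,false,[2,0,-1,0,-1],[-1,1,1],[-1,0,0,0,0,0,0,-1],(⟨0,[(13,0),(43,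
  0)]⟩,⟨0,[(21,0)]⟩),(⟨0,[(40,0)]⟩,⟨0,[(13,0),(31,0)]⟩),⟨0,[(13,0)]⟩,.k,.k,(.r (-1) ⟨17,[(2,3),(5,
  4),(3,1),(13,3),(7,4),(0,5),(0,3),(28,3)]⟩ ⟨73,[(0,21),(2,14),(39,14),(3,29),(11,8),(0,21),(2,29),
  (1,3)]⟩),(.r (-2) ⟨17,[(2,5),(5,10),(25,6),(0,13),(0,5),(5,9),(6,3),(14,0),(0,6)]⟩ ⟨0,[(0,0)]⟩),
  (.r (-2) ⟨8,[(2,3),(5,4),(3,1),(13,3),(7,4),(0,5),(0,3),(28,3)]⟩ ⟨78,[(0,86),(2,4),(2,4),(30,35),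
  (9,29),(1,25),(9,3),(0,34)]⟩),.k,⟨false,2,⟨11,[(2,3),(5,4),(25,6),(0,13),(0,1),(5,1),(21,2),(0,
  6)]⟩,⟨0,[(0,0)]⟩⟩,⟨true,0,⟨0,[(2,0)]⟩,⟨0,[(3,0)]⟩⟩,⟨false,1,⟨33,[(8,4),(33,4),(4,9),(11,0),(3,4),
  (1,21)]⟩,⟨0,[]⟩⟩,⟨true,(-1),⟨1,[(1,0),(0,0),(1,0)]⟩,⟨13,[(3,9),(4,4),(3,1),(13,1),(7,4),(0,15),(0,
  3),(28,1)]⟩⟩,⟨true,0,⟨0,[(63,0)]⟩,⟨0,[(62,0)]⟩⟩,⟨false,(-1),⟨0,[(1,0)]⟩,⟨6,[(3,2),(4,4),(3,1),(13,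
  1),(7,4),(0,1),(0,3),(28,1)]⟩⟩,[]⟩) (.I [0,0,0,0,0,1,1] (.I [0,0,-1,0,0,1,-1] (.C [(0,0),(0,0),(0,
  1),(0,0),(1,0),(0,0),(48,1)]) (.C [(0,0),(12,0),(4,0),(4,0),(14,0)])) (.C [(0,0),(5,0),(7,0),(2,
  0),(4,0),(14,0)]))) (.I [0,0,-1,-1,1,0,0,-2] (.N [0,1,2,0,1] 1 ⟨1,[(4,1),(2,0),(28,1),(3,0),(5,1),
  (6,2),(6,1)]⟩ ⟨0,[(0,0)]⟩ (.x 0 ⟨0,[(2,0),(10,0),(37,0)]⟩ ⟨33,[(3,33),(4,0),(12,33),(18,33),(1,0),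
  (4,1),(11,6),(3,0),(0,16),(0,0)]⟩)) (.I [1,0,-1,-1,1,0,0,-2] (.N [0,1,2] 1 ⟨0,[(1,0)]⟩ ⟨0,[(0,
  0)]⟩ (.x (-1) ⟨2,[(3,1),(10,2),(6,2),(15,0),(5,1),(6,0),(14,0)]⟩ ⟨14,[(1,1),(2,1),(4,1),(30,6),(0,
  14),(9,7),(1,14),(13,0)]⟩)) (.I [0,0,0,0,0,1,1] (.I [0,0,-1,0,0,1,-1] (.C [(0,0),(0,0),(0,0),(1,
  0),(0,0),(50,1),(6,0)]) (.C [(0,0),(13,0),(4,0),(4,0),(14,0)])) (.C [(0,0),(6,0),(7,0),(2,0),(4,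
  0),(14,0)]))))) (.I [1,-1,1,2,-1,0,0,2] (.Q [0,0,0,0,0,-2,0,0,0,2,-1] (.p false [-1,1,1] [1] (⟨0,
  [(39,0)]⟩,⟨0,[(12,0),(31,0)]⟩) .k 1 (⟨0,[]⟩,⟨0,[]⟩) .k .k) (.R ⟨1,true,false,false,[2,-1,-1],[1,0,
  1,0,-1],[-1,0,1,0,0,0,0,1],(⟨7,[(0,3),(1,0),(33,2),(6,0),(2,0),(4,3)]⟩,⟨0,[(40,0)]⟩),(⟨0,[(44,0),
  (7,0)]⟩,⟨0,[(20,0)]⟩),⟨0,[(0,0)]⟩,.k,.k,(.r (-2) ⟨3,[(8,1),(8,0),(8,2),(9,2),(5,2)]⟩ ⟨1,[(1,0),(2,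
  0),(32,1),(11,1)]⟩),(.x 0 ⟨12,[(1,1),(2,1),(3,3),(7,12),(10,8),(11,4),(10,7),(1,25),(13,0)]⟩ ⟨31,
  [(0,31),(4,31),(4,9),(6,10),(17,9),(0,42),(5,22),(16,1),(5,4)]⟩),(.r (-2) ⟨35,[(8,11),(3,6),(6,1),
  (6,29),(8,40),(13,28),(9,2),(5,23)]⟩ ⟨55,[(1,54),(1,4),(0,12),(1,10),(7,1),(16,3),(17,33),(9,5),
  (7,26)]⟩),.k,⟨true,0,⟨1,[(49,0),(0,0)]⟩,⟨0,[]⟩⟩,⟨false,1,⟨3,[(10,1),(6,1),(17,1),(0,3),(5,1),(21,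
  0),(0,0)]⟩,⟨11,[(1,5),(2,4),(1,0),(1,10),(0,0),(56,1)]⟩⟩,⟨true,(-1),⟨1,[(1,0),(2,0),(61,1)]⟩,⟨71,
  [(8,11),(3,6),(6,1),(6,29),(8,112),(13,28),(9,2),(5,23)]⟩⟩,⟨false,0,⟨0,[(15,0),(22,0)]⟩,⟨0,[(8,
  0)]⟩⟩,⟨false,(-1),⟨0,[(1,0),(64,0)]⟩,⟨35,[(8,11),(3,6),(6,1),(6,29),(8,40),(13,28),(9,2),(5,
  23)]⟩⟩,⟨true,(-1),⟨7,[(1,7),(8,5),(6,2),(1,0),(15,6),(11,0),(1,4)]⟩,⟨0,[(8,0),(53,0)]⟩⟩,[]⟩) (.I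
  [0,0,0,0,0,1,1] (.I [0,0,-1,0,0,1,-1] (.I [0,0,-2,0,0,-1,1,0,1] (.C [(0,1),(2,1),(1,1),(2,0),(15,
  0),(14,1),(16,2),(12,1)]) (.C [(0,0),(15,0),(3,0)])) (.C [(0,0),(1,0),(1,0),(10,0),(3,0),(3,0)]))
  (.C [(0,0),(0,0),(4,0),(7,1),(7,0),(14,0)]))) (.Q [2,-1,0,-1,1,0,-1,-1,2,0,-1,2] (.p false [0,0,
  1] [0,-1,0,0,2] (⟨0,[(51,0)]⟩,⟨0,[(50,0)]⟩) .k 2 (⟨0,[(19,0),(0,0),(34,0)]⟩,⟨0,[(15,0),(27,0)]⟩)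
  (.r (-1) ⟨37,[(7,4),(17,13),(7,4),(12,9),(11,1),(4,4),(0,4)]⟩ ⟨133,[(2,4),(0,7),(1,4),(30,5),(11,
  25),(9,3),(0,12),(2,114),(2,76)]⟩) (.r 0 ⟨0,[(8,0),(1,2),(0,0),(4,1),(18,4),(23,0),(5,6)]⟩ ⟨47,
  [(0,13),(6,9),(33,9),(6,19),(9,1),(3,37),(0,2),(0,6)]⟩)) (.Q [0,0,0,0,0,-2,0,0,0,1,0,1] (.p true
  [1,-1,0,0,1] [] (⟨0,[(45,0),(10,0)]⟩,⟨0,[(16,0)]⟩) (.r (-1) ⟨75,[(0,9),(25,22),(7,19),(12,9),(11,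
  3),(4,14)]⟩ ⟨22,[(3,0),(2,0),(23,3),(16,5),(1,1),(10,18),(6,11)]⟩) 0 (⟨0,[]⟩,⟨0,[]⟩) .k .k) (.R
  ⟨1,true,false,true,[1,-1,0,0,1],[1,0,1,0,-1],[0,1,0,0,0,0,0,1],(⟨7,[(0,3),(2,0),(33,2),(6,0),(1,
  3),(0,0)]⟩,⟨0,[(17,0)]⟩),(⟨0,[(45,0),(7,0)]⟩,⟨0,[(21,0)]⟩),⟨0,[(0,0)]⟩,(.r (-1) ⟨75,[(1,9),(25,
  22),(7,19),(12,9),(11,3),(4,14)]⟩ ⟨22,[(4,0),(2,0),(23,3),(16,5),(1,1),(10,18),(6,11)]⟩),.k,(.r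
  (-1) ⟨0,[(30,0)]⟩ ⟨22,[(4,2),(2,2),(23,11),(16,17),(1,5),(10,33),(6,12)]⟩),(.r (-1) ⟨3,[(2,1),(62,
  0),(0,0)]⟩ ⟨103,[(1,4),(2,9),(0,41),(42,24),(11,5),(0,11),(2,96),(1,24),(0,29)]⟩),(.r (-2) ⟨75,
  [(1,9),(0,37),(24,22),(7,19),(12,9),(11,3),(4,33),(0,18)]⟩ ⟨0,[(5,0),(6,2),(0,0),(4,1),(18,4),(23,
  1),(5,5)]⟩),.k,⟨true,0,⟨0,[]⟩,⟨1,[(50,0),(0,0)]⟩⟩,⟨false,1,⟨1,[(11,1),(24,1),(28,0),(0,0)]⟩,⟨3,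
  [(1,1),(3,1),(1,0),(20,0),(15,1),(16,0),(2,0),(2,0)]⟩⟩,⟨true,(-1),⟨0,[(5,0),(30,0),(24,0)]⟩,⟨3,
  [(2,1),(62,0),(0,0)]⟩⟩,⟨false,0,⟨0,[(11,0),(52,0)]⟩,⟨0,[(1,0)]⟩⟩,⟨false,(-1),⟨3,[(5,3),(9,0),(2,
  0),(17,2),(0,1),(9,1),(13,6)]⟩,⟨67,[(1,9),(0,29),(24,22),(7,19),(12,1),(1,7),(9,3),(5,44)]⟩⟩,
  ⟨true,(-1),⟨3,[(3,0),(1,3),(9,2),(0,3),(19,4),(0,5),(9,0),(13,0)]⟩,⟨0,[(1,0),(61,0)]⟩⟩,[]⟩) (.I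
  [0,0,0,0,0,1,1] (.I [0,0,-1,0,0,1,-1] (.I [0,0,-2,0,0,-1,1,0,1] (.C [(0,1),(2,1),(2,1),(2,0),(15,
  2),(14,1),(16,2),(12,1)]) (.C [(0,0),(16,0),(3,0)])) (.C [(0,0),(1,0),(2,0),(10,0),(3,0),(3,1)]))
  (.C [(0,2),(0,0),(2,0),(2,1),(7,0),(3,0),(18,3),(29,0)]))) (.I [0,-1,2,2,-1,0,0,2] (.Q [0,0,0,0,0,
  -2,0,0,0,2,-1] (.p false [-1,1,1] [1] (⟨0,[(41,0)]⟩,⟨0,[(14,0),(31,0)]⟩) .k 1 (⟨0,[]⟩,⟨0,[]⟩) .k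
  .k) (.R ⟨1,true,false,false,[2,-1,-1],[0,0,1],[1,1,-1,-2,0,0,0,-1],(⟨7,[(0,3),(3,0),(33,2),(6,0),
  (2,0),(4,3)]⟩,⟨0,[(42,0)]⟩),(⟨0,[(54,0)]⟩,⟨0,[(53,0)]⟩),⟨0,[(0,0)]⟩,.k,.k,(.r (-2) ⟨75,[(3,37),(6,
  9),(17,27),(7,9),(12,19),(11,3),(4,28),(0,28)]⟩ ⟨25,[(1,20),(0,4),(5,7),(12,1),(10,3),(6,0),(11,
  13),(8,3)]⟩),(.x 0 ⟨14,[(1,0),(3,1),(0,0),(3,1),(30,6),(0,14),(9,7),(1,14)]⟩ ⟨80,[(3,1),(11,80),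
  (1,3),(1,23),(2,80),(14,0),(0,132),(5,19),(4,0),(11,21),(4,14)]⟩),(.r (-2) ⟨1,[(3,1),(62,0),(0,
  0)]⟩ ⟨0,[(1,0),(67,0)]⟩),.k,⟨true,1,⟨0,[(3,0)]⟩,⟨0,[(1,0)]⟩⟩,⟨false,1,⟨0,[(19,0),(18,0),(5,0)]⟩,
  ⟨9,[(1,1),(2,4),(1,1),(3,3),(2,0),(31,0)]⟩⟩,⟨true,0,⟨0,[(64,0)]⟩,⟨0,[(65,0)]⟩⟩,⟨false,0,⟨22,[(6,
  1),(4,1),(5,7),(3,7),(8,16),(9,12),(20,0)]⟩,⟨1,[(3,0),(0,0),(3,0),(58,0)]⟩⟩,⟨false,0,⟨0,[]⟩,⟨33,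
  [(10,4),(33,4),(4,9),(11,0),(3,4),(1,21)]⟩⟩,⟨true,(-1),⟨10,[(1,5),(0,4),(16,6),(1,2),(8,1),(18,2),
  (1,1),(13,2)]⟩,⟨1,[(3,0),(0,0),(5,0),(53,0)]⟩⟩,[]⟩) (.I [0,0,0,0,0,1,1] (.I [0,0,-1,0,0,1,-1] (.I
  [0,0,-2,0,0,-1,1,0,1] (.C [(0,1),(2,1),(3,1),(2,0),(15,0),(14,1),(16,2),(12,1)]) (.C [(0,0),(17,
  0),(3,0)])) (.C [(0,0),(1,0),(3,0),(10,0),(3,0),(3,0)])) (.C [(0,3),(0,1),(3,0),(2,2),(7,2),(3,0),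
  (18,4),(29,0)]))) (.I [0,0,-1,-1,1,0,0,-2] (.N [0,1,2,0,1] 1 ⟨1,[(6,1),(2,0),(28,1),(3,0),(5,1),
  (6,2),(6,1)]⟩ ⟨0,[(0,0)]⟩ (.x 0 ⟨2,[(7,0),(1,0),(5,3),(3,2),(18,1),(12,0),(3,1),(12,1)]⟩ ⟨33,[(5,
  33),(4,0),(12,33),(18,33),(1,0),(4,1),(11,6),(3,0),(0,16),(0,0)]⟩)) (.N [0,1,2] 1 ⟨0,[(0,0)]⟩ ⟨0,
  [(1,0),(60,0)]⟩ (.x (-1) ⟨80,[(3,1),(11,80),(1,3),(1,23),(2,80),(14,0),(0,132),(5,19),(4,0),(11,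
  21),(4,14)]⟩ ⟨14,[(0,1),(4,1),(4,1),(30,6),(0,14),(9,7),(1,14),(13,0)]⟩))))))) (.I [2,0,2,2,-1]
  (.N [0,2,0,0,1] 1 ⟨0,[(0,0)]⟩ ⟨0,[(24,0)]⟩ (.x 0 ⟨0,[(1,0),(7,0),(1,0),(38,0),(0,0),(12,0)]⟩ ⟨3,
  [(0,2),(2,0),(1,1),(0,0),(25,4),(5,2),(4,2),(1,1),(1,0),(0,0),(14,0)]⟩)) (.R ⟨0,false,false,false,
  [0,0,1],[0,0,2],[1],(⟨0,[(50,0)]⟩,⟨0,[(49,0)]⟩),(⟨0,[(50,1)]⟩,⟨0,[(3,0),(7,0)]⟩),⟨0,[(39,0)]⟩,.k,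
  .k,.k,.k,.k,.k,⟨false,1,⟨59,[(6,9),(5,8),(20,89),(1,0),(4,0),(6,29),(9,1),(5,44)]⟩,⟨0,[(31,1)]⟩⟩,
  ⟨true,0,⟨0,[(34,0)]⟩,⟨0,[(48,0)]⟩⟩,⟨false,1,⟨59,[(6,9),(5,8),(20,29),(1,0),(4,0),(6,29),(9,1),(5,
  44)]⟩,⟨0,[(31,0)]⟩⟩,⟨true,0,⟨0,[(36,0)]⟩,⟨0,[(46,0)]⟩⟩,⟨false,0,⟨0,[]⟩,⟨0,[]⟩⟩,⟨false,0,⟨0,[]⟩,⟨0,
  []⟩⟩,[.o ⟨false,0,⟨22,[(2,1),(4,1),(0,2),(4,1),(3,7),(18,32),(20,0)]⟩,⟨6,[(6,3),(3,1),(17,0),(6,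
  2),(21,0),(5,0)]⟩⟩,.o ⟨false,0,⟨1,[(5,0),(1,1),(26,3),(3,0),(12,2),(6,1)]⟩,⟨86,[(4,44),(1,21),(3,
  17),(24,21),(4,30),(16,16),(7,23)]⟩⟩,.a ⟨true,0,⟨0,[(34,0)]⟩,⟨3,[(11,0),(25,1),(5,0),(6,0),(4,
  0)]⟩⟩ ⟨true,0,⟨0,[]⟩,⟨0,[(65,0)]⟩⟩ ⟨false,0,⟨0,[(7,0),(26,0),(23,0)]⟩,⟨19,[(6,9),(5,8),(20,9),(1,
  0),(4,0),(6,9),(9,1),(5,4)]⟩⟩,.e ⟨false,1,⟨1,[(62,0),(0,0)]⟩,⟨1,[(47,0),(0,0)]⟩⟩ ⟨false,0,⟨1,[(5,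
  0),(1,1),(26,3),(3,0),(5,1),(6,2),(6,1)]⟩,⟨71,[(6,43),(3,10),(1,21),(20,0),(1,21),(11,70),(9,10),
  (5,5),(0,1)]⟩⟩]⟩))) (.Q [1,0,0,1,-1,0,2,2,1,-2,2,1] (.p true [0,0,1] [2,0,-1,0,-1] (⟨0,[(48,0)]⟩,
  ⟨0,[(47,0)]⟩) .k 2 (⟨0,[(9,0),(43,0)]⟩,⟨0,[(17,0)]⟩) .k (.r 0 ⟨0,[(29,1)]⟩ ⟨83,[(0,60),(1,20),(5,
  3),(29,12),(6,45),(9,4),(6,14),(0,35)]⟩)) (.R ⟨1,true,false,true,[2,0,-1,0,-1],[0,0,1],[1,1,0,0,0,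
  0,0,1],(⟨0,[(10,0),(43,0)]⟩,⟨0,[(18,0)]⟩),(⟨0,[(49,0)]⟩,⟨0,[(48,0)]⟩),⟨0,[(10,0)]⟩,.k,.k,(.r (-1)
  ⟨193,[(1,83),(3,14),(17,67),(7,14),(12,3),(1,25),(9,5),(2,27),(4,51)]⟩ ⟨29,[(0,1),(11,1),(23,10),
  (7,23),(2,7),(8,0),(0,21),(2,3)]⟩),.k,(.x (-1) ⟨1,[(36,0),(0,0),(1,1),(2,1),(4,1),(1,2),(4,0)]⟩
  ⟨2,[(2,0),(1,0),(5,3),(3,2),(18,1),(12,0),(3,1),(12,1)]⟩),.k,⟨true,0,⟨0,[]⟩,⟨1,[(46,0),(0,0)]⟩⟩,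
  ⟨false,0,⟨0,[(14,0),(31,0)]⟩,⟨0,[(31,0),(4,0),(23,0)]⟩⟩,⟨false,0,⟨0,[(30,1)]⟩,⟨3,[(1,3),(44,0),(0,
  0),(15,1)]⟩⟩,⟨true,(-1),⟨0,[(0,0),(58,0)]⟩,⟨9,[(1,0),(3,3),(13,9),(8,3),(14,1),(13,2),(2,0),(1,
  4)]⟩⟩,⟨true,(-1),⟨0,[(0,0),(27,0),(7,0)]⟩,⟨1,[(1,1),(44,0),(0,0),(11,1)]⟩⟩,⟨false,(-1),⟨0,[(0,
  0)]⟩,⟨1,[(5,0),(13,1),(11,0),(30,1)]⟩⟩,[]⟩) (.Q [2,0,0,1,-1,0,2,2,2,-3,2,2] (.p true [-1,0,1,0,1]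
  [2,0,-1,0,-1] (⟨0,[(18,0)]⟩,⟨0,[(10,0),(43,0)]⟩) .k 2 (⟨0,[(10,0),(43,0)]⟩,⟨0,[(18,0)]⟩) .k (.r 0
  ⟨0,[(30,1)]⟩ ⟨61,[(0,3),(0,48),(1,6),(30,3),(4,2),(6,25),(9,2),(6,22),(0,41)]⟩)) (.R ⟨1,true,
  false,true,[2,0,-1,0,-1],[-1,0,1,0,1],[2,1,0,0,0,0,0,1],(⟨0,[(11,0),(43,0)]⟩,⟨0,[(19,0)]⟩),(⟨0,
  [(19,0)]⟩,⟨0,[(11,0),(43,0)]⟩),⟨0,[(11,0)]⟩,.k,.k,(.r (-1) ⟨193,[(2,83),(3,14),(17,67),(7,14),(12,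
  3),(1,25),(9,5),(2,27),(4,51)]⟩ ⟨41,[(0,1),(12,3),(23,14),(7,33),(2,11),(8,0),(0,29),(2,5)]⟩),.k,
  (.r (-1) ⟨1,[(1,0),(0,0),(12,0),(18,0),(25,0),(3,0)]⟩ ⟨29,[(0,1),(12,3),(17,23),(5,14),(7,27),(2,
  5),(8,0),(0,23)]⟩),.k,⟨true,0,⟨0,[]⟩,⟨1,[(47,0),(0,0)]⟩⟩,⟨false,0,⟨3,[(15,2),(1,2),(23,1),(5,1)]⟩,
  ⟨0,[(29,1),(7,0),(25,0)]⟩⟩,⟨false,0,⟨0,[(31,1)]⟩,⟨0,[(1,0),(13,0),(18,0),(23,0),(5,0)]⟩⟩,⟨true,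
  (-1),⟨0,[(0,0),(59,0)]⟩,⟨11,[(1,8),(0,2),(5,0),(1,0),(18,10),(14,5),(13,8)]⟩⟩,⟨true,(-1),⟨5,[(0,
  5),(7,1),(1,1),(0,2),(17,3),(7,5),(5,2),(6,2),(4,2)]⟩,⟨3,[(1,0),(0,2),(14,0),(29,0),(12,2),(3,
  1)]⟩⟩,⟨false,(-1),⟨0,[(0,0)]⟩,⟨0,[(1,0),(27,0),(33,0)]⟩⟩,[]⟩) (.Q [0,0,0,0,0,-2,0,0,0,2,-1] (.p
  false [-1,1,1] [1] (⟨0,[(38,0)]⟩,⟨0,[(11,0),(31,0)]⟩) .k 1 (⟨0,[]⟩,⟨0,[]⟩) .k .k) (.Q [2,0,0,-1,0,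
  0,1,1,2,-1,1,2] (.p true [0,0,1] [1,1,0,0,-2] (⟨0,[(51,0)]⟩,⟨0,[(50,0)]⟩) .k 2 (⟨0,[(15,0),(27,
  0)]⟩,⟨1,[(0,0),(18,0),(0,1),(23,0)]⟩) (.r 0 ⟨3,[(36,0),(9,0),(12,0),(2,1),(2,2)]⟩ ⟨37,[(7,4),(17,
  13),(7,4),(12,9),(11,1),(4,4),(0,4)]⟩) (.r 0 ⟨0,[(32,0)]⟩ ⟨151,[(3,50),(3,24),(33,24),(6,49),(9,
  4),(3,24),(1,40),(0,0),(0,132)]⟩)) (.R ⟨1,true,false,false,[1,-1,0,0,1],[2,0,-1,0,-1],[0,0,0,0,0,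
  0,0,-1],(⟨1,[(1,0),(43,1),(6,0)]⟩,⟨0,[(16,0)]⟩),(⟨0,[(13,0),(43,0)]⟩,⟨0,[(21,0)]⟩),⟨0,[(1,0),(19,
  0)]⟩,(.r (-1) ⟨75,[(0,9),(7,4),(17,17),(7,24),(24,3),(4,19)]⟩ ⟨0,[(60,0),(6,0)]⟩),.k,(.r (-1) ⟨0,
  [(29,0)]⟩ ⟨0,[(60,1),(6,1)]⟩),(.r (-1) ⟨7,[(0,1),(7,0),(0,3),(24,0),(7,3),(21,1)]⟩ ⟨2,[(35,1),(1,
  0),(11,0),(10,1),(5,1)]⟩),(.r (-1) ⟨151,[(0,9),(7,4),(0,75),(16,93),(7,24),(24,3),(4,19)]⟩ ⟨0,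
  [(37,0),(11,0),(10,0),(6,0)]⟩),.k,⟨true,0,⟨0,[]⟩,⟨1,[(49,0),(0,0)]⟩⟩,⟨false,1,⟨1,[(1,16),(0,1),(6,
  5),(1,2),(0,7),(3,16),(0,15),(3,16),(32,16),(5,7),(5,28)]⟩,⟨15,[(0,3),(5,1),(12,6),(23,14),(5,8),
  (10,3),(5,2),(0,1)]⟩⟩,⟨true,0,⟨2,[(35,0),(1,1),(11,1),(10,0),(5,0)]⟩,⟨4,[(9,2),(25,0),(22,0),(3,
  1)]⟩⟩,⟨false,1,⟨10,[(2,5),(12,6),(21,5),(4,2),(20,3),(1,1)]⟩,⟨0,[(0,0)]⟩⟩,⟨false,0,⟨1,[(1,4),(9,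
  0),(0,1),(3,4),(0,3),(3,4),(32,4),(5,3),(5,6)]⟩,⟨100,[(0,25),(8,35),(0,2),(15,46),(7,45),(15,28),
  (8,3)]⟩⟩,⟨true,0,⟨5,[(12,3),(1,2),(0,0),(20,2),(9,2),(13,2),(2,4)]⟩,⟨0,[(0,0),(61,0)]⟩⟩,[]⟩) (.I
  [1,-1,-1,-1,1,0,0,-1] (.Q [0,0,-1,0,0,0,2,0,1,-3,2,1] (.p true [-1,1,1] [2,0,-1,0,-1] (⟨0,[(41,
  0)]⟩,⟨0,[(14,0),(31,0)]⟩) .k 2 (⟨0,[(14,0),(43,0)]⟩,⟨0,[(22,0)]⟩) .k (.r 0 ⟨0,[(34,1)]⟩ ⟨18,[(3,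
  1),(1,12),(1,3),(42,11),(9,1),(0,0),(2,0),(3,9)]⟩)) (.Q [1,0,0,2,-1,0,2,2,1,-3,2,1] (.p true [-1,
  1,1] [2,0,-1,0,-1] (⟨0,[(42,0)]⟩,⟨0,[(15,0),(31,0)]⟩) .k 2 (⟨0,[(15,0),(43,0)]⟩,⟨0,[(23,0)]⟩) .k
  (.r 0 ⟨0,[(35,1)]⟩ ⟨18,[(4,1),(1,12),(1,3),(42,11),(9,1),(0,0),(2,0),(3,9)]⟩)) (.Q [0,0,2,0,0,0,
  -2,0,-1,3,-2,-1] (.p false [-1,1,1] [2,0,-1,0,-1] (⟨0,[(43,0)]⟩,⟨0,[(16,0),(31,0)]⟩) .k 2 (⟨0,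
  [(16,0),(43,0)]⟩,⟨0,[(24,0)]⟩) .k (.r 0 ⟨0,[(36,1)]⟩ ⟨18,[(5,1),(1,12),(1,3),(42,11),(9,1),(0,0),
  (2,0),(3,9)]⟩)) (.R ⟨1,true,false,false,[2,0,-1,0,-1],[-1,1,1],[0,0,1],(⟨0,[(17,0),(43,0)]⟩,⟨0,
  [(25,0)]⟩),(⟨0,[(44,0)]⟩,⟨9,[(0,0),(4,4),(34,3),(6,0),(2,1),(4,4)]⟩),⟨0,[(17,0)]⟩,.k,.k,(.r (-1)
  ⟨7,[(2,0),(5,2),(3,0),(17,1),(7,1),(27,0),(4,1)]⟩ ⟨55,[(0,27),(0,22),(10,4),(38,19),(11,3),(3,14),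
  (1,9)]⟩),(.r (-1) ⟨1,[(2,3),(0,1),(0,1),(0,6),(9,2),(4,6),(4,6),(32,6),(7,1),(3,6)]⟩ ⟨52,[(0,41),
  (0,31),(11,10),(33,9),(3,19),(11,5),(4,9),(0,9)]⟩),(.r (-2) ⟨4,[(2,1),(5,1),(3,1),(17,1),(7,3),(0,
  1)]⟩ ⟨0,[(0,0),(0,0)]⟩),.k,⟨false,1,⟨4,[(2,0),(5,0),(3,0),(17,0),(7,1),(0,0)]⟩,⟨1,[(0,0),(0,0),
  (66,0)]⟩⟩,⟨true,0,⟨0,[(2,0)]⟩,⟨0,[(0,0)]⟩⟩,⟨true,0,⟨23,[(0,8),(0,3),(11,7),(22,4),(16,11),(0,1),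
  (8,1)]⟩,⟨0,[(39,0)]⟩⟩,⟨false,0,⟨55,[(1,36),(11,17),(9,17),(12,0),(14,1),(1,17),(9,3),(5,28)]⟩,⟨0,
  [(6,0),(40,0)]⟩⟩,⟨false,0,⟨1,[(0,0),(0,0),(67,0)]⟩,⟨4,[(2,0),(5,0),(3,0),(17,0),(7,1),(0,0)]⟩⟩,
  ⟨true,(-1),⟨0,[(1,0)]⟩,⟨0,[(6,0),(40,0),(18,0)]⟩⟩,[]⟩) (.R ⟨0,false,false,true,[0,0,1],[0,0,2],[1,
  1],(⟨0,[(56,0)]⟩,⟨0,[(55,0)]⟩),(⟨0,[(56,1)]⟩,⟨0,[(9,0),(7,0)]⟩),⟨0,[(45,0)]⟩,.k,.k,.k,.k,.k,.k,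
  ⟨false,1,⟨41,[(8,34),(1,4),(28,3),(6,4),(6,9),(8,12),(0,0)]⟩,⟨0,[(37,1)]⟩⟩,⟨true,0,⟨0,[(40,0)]⟩,
  ⟨0,[(54,0)]⟩⟩,⟨true,0,⟨1,[(39,0),(12,0),(0,0)]⟩,⟨0,[(37,0)]⟩⟩,⟨false,0,⟨0,[(42,0)]⟩,⟨35,[(6,3),(5,
  7),(21,4),(6,6),(21,2),(5,17)]⟩⟩,⟨false,0,⟨0,[]⟩,⟨0,[]⟩⟩,⟨false,0,⟨0,[]⟩,⟨0,[]⟩⟩,[.o ⟨false,0,⟨44,
  [(1,5),(0,3),(10,11),(0,4),(27,3),(8,44),(1,15),(9,2)]⟩,⟨5,[(3,3),(3,0),(4,0),(21,3),(8,0),(10,1),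
  (9,1)]⟩⟩,.o ⟨false,0,⟨44,[(1,5),(0,3),(10,11),(0,4),(27,48),(10,15),(9,2)]⟩,⟨98,[(6,21),(5,43),
  (21,34),(6,30),(21,14),(5,2),(1,5)]⟩⟩,.e ⟨false,0,⟨0,[]⟩,⟨33,[(12,4),(33,4),(4,9),(11,0),(3,4),(1,
  21)]⟩⟩ ⟨false,0,⟨1,[(13,0),(28,0),(8,0),(12,0)]⟩,⟨0,[(8,0),(45,0)]⟩⟩,.a ⟨true,0,⟨0,[(53,0)]⟩,⟨0,
  [(50,0)]⟩⟩ ⟨true,0,⟨16,[(14,0),(6,1),(17,1),(10,3),(0,0),(10,6)]⟩,⟨1,[(53,0),(0,0)]⟩⟩ ⟨false,0,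
  ⟨13,[(1,1),(11,3),(0,0),(27,14),(7,5),(17,1)]⟩,⟨0,[(7,0),(15,0),(40,0)]⟩⟩]⟩)) (.R ⟨0,false,false,
  true,[0,0,1],[0,0,2],[1,1],(⟨0,[(55,0)]⟩,⟨0,[(54,0)]⟩),(⟨0,[(55,1)]⟩,⟨0,[(8,0),(7,0)]⟩),⟨0,[(44,
  0)]⟩,.k,.k,.k,.k,.k,.k,⟨false,1,⟨41,[(7,34),(1,4),(28,3),(6,4),(6,9),(8,12),(0,0)]⟩,⟨0,[(36,1)]⟩⟩,
  ⟨true,0,⟨0,[(39,0)]⟩,⟨0,[(53,0)]⟩⟩,⟨true,0,⟨1,[(38,0),(12,0),(0,0)]⟩,⟨0,[(36,0)]⟩⟩,⟨false,0,⟨0,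
  [(41,0)]⟩,⟨35,[(5,3),(5,7),(21,4),(6,6),(21,2),(5,17)]⟩⟩,⟨false,0,⟨0,[]⟩,⟨0,[]⟩⟩,⟨false,0,⟨0,[]⟩,
  ⟨0,[]⟩⟩,[.o ⟨false,0,⟨12,[(12,2),(0,0),(4,2),(3,4),(27,15),(1,1),(0,0)]⟩,⟨1,[(0,0),(32,1),(1,0),
  (32,0)]⟩⟩,.o ⟨false,0,⟨2,[(12,0),(5,0),(3,0),(18,1),(8,0),(1,0)]⟩,⟨98,[(5,21),(5,43),(21,34),(6,
  30),(21,14),(5,2),(1,5)]⟩⟩,.e ⟨false,0,⟨0,[]⟩,⟨33,[(11,4),(33,4),(4,9),(11,0),(3,4),(1,21)]⟩⟩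
  ⟨false,0,⟨1,[(12,0),(28,0),(8,0),(12,0)]⟩,⟨111,[(0,38),(6,40),(3,8),(10,29),(10,45),(28,3),(0,40),
  (4,14)]⟩⟩,.a ⟨true,0,⟨0,[(52,0)]⟩,⟨0,[(49,0)]⟩⟩ ⟨true,0,⟨16,[(13,0),(6,1),(17,1),(10,3),(0,0),(10,
  6)]⟩,⟨1,[(52,0),(0,0)]⟩⟩ ⟨false,0,⟨9,[(12,2),(5,0),(1,0),(10,1),(9,7),(7,4),(0,2)]⟩,⟨30,[(0,17),
  (6,3),(3,2),(10,14),(10,11),(18,7),(9,2),(0,26)]⟩⟩]⟩)) (.I [-2,-1,-1,-1,1,0,0,-1] (.Q [2,0,0,2,-1,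
  0,1,1,2,-3,1,2] (.p true [0,0,1] [3,-1,0,0,-2] (⟨0,[(55,0)]⟩,⟨0,[(54,0)]⟩) .k 2 (⟨0,[(16,0),(30,
  0),(7,0)]⟩,⟨0,[(8,0),(15,0)]⟩) (.r (-1) ⟨171,[(0,63),(10,24),(0,31),(16,12),(7,24),(12,49),(11,9),
  (4,24),(2,13)]⟩ ⟨0,[(63,0),(6,0)]⟩) (.r 0 ⟨0,[(36,0)]⟩ ⟨151,[(7,50),(3,24),(33,24),(6,49),(9,4),
  (3,24),(1,40),(0,0),(0,132)]⟩)) (.R ⟨1,true,false,true,[2,0,-1,0,-1],[-1,1,0,0,1],[2,1,1,1],(⟨0,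
  [(17,0),(43,0)]⟩,⟨0,[(25,0)]⟩),(⟨1,[(9,0),(34,0),(4,0)]⟩,⟨0,[(17,0),(38,0)]⟩),⟨0,[(17,0)]⟩,.k,(.r
  0 ⟨54,[(0,3),(9,6),(15,14),(24,24),(1,3),(0,3),(8,1),(0,46)]⟩ ⟨103,[(1,19),(10,14),(0,9),(19,21),
  (4,14),(12,29),(11,5),(4,14),(0,4)]⟩),(.r (-1) ⟨236,[(1,38),(6,98),(3,19),(17,42),(7,19),(12,39),
  (10,12),(0,7),(2,71)]⟩ ⟨9,[(0,1),(1,3),(29,0),(4,0),(13,5),(2,0),(8,0),(0,4)]⟩),(.r (-1) ⟨0,[(1,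
  0),(2,1),(0,4),(7,0),(1,0),(4,4),(0,3),(3,4),(32,4),(7,0),(3,9)]⟩ ⟨9,[(0,1),(1,3),(29,0),(4,0),
  (13,5),(2,0),(8,0),(0,4)]⟩),(.x (-1) ⟨0,[(2,0),(6,0),(15,0),(18,0),(1,0),(6,0)]⟩ ⟨1,[(17,3),(3,2),
  (1,0),(30,1),(1,1)]⟩),.k,⟨true,0,⟨0,[]⟩,⟨1,[(53,0),(0,0)]⟩⟩,⟨false,0,⟨0,[(21,0),(9,0)]⟩,⟨9,[(2,4),
  (3,4),(7,0),(31,2),(4,8),(12,4),(4,1)]⟩⟩,⟨false,0,⟨9,[(0,1),(1,3),(29,0),(4,0),(13,5),(2,0),(8,0),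
  (0,4)]⟩,⟨0,[(1,0)]⟩⟩,⟨true,(-1),⟨0,[(0,0),(65,0)]⟩,⟨0,[(6,0),(35,0)]⟩⟩,⟨true,(-1),⟨8,[(0,8),(1,5),
  (11,0),(1,0),(18,7),(17,2)]⟩,⟨0,[(1,0),(64,0)]⟩⟩,⟨false,(-1),⟨0,[(0,0)]⟩,⟨3,[(1,1),(0,0),(3,1),(6,
  0),(24,2),(14,1),(15,0)]⟩⟩,[]⟩) (.R ⟨0,false,false,true,[0,0,1],[0,0,2],[1,1],(⟨0,[(56,0)]⟩,⟨0,
  [(55,0)]⟩),(⟨0,[(56,1)]⟩,⟨0,[(9,0),(7,0)]⟩),⟨0,[(45,0)]⟩,.k,.k,.k,.k,.k,.k,⟨false,1,⟨41,[(8,34),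
  (1,4),(28,3),(6,4),(6,9),(8,12),(0,0)]⟩,⟨0,[(37,1)]⟩⟩,⟨true,0,⟨0,[(40,0)]⟩,⟨0,[(54,0)]⟩⟩,⟨true,0,
  ⟨1,[(39,0),(12,0),(0,0)]⟩,⟨0,[(37,0)]⟩⟩,⟨false,0,⟨0,[(42,0)]⟩,⟨35,[(6,3),(5,7),(21,4),(6,6),(21,
  2),(5,17)]⟩⟩,⟨false,0,⟨0,[]⟩,⟨0,[]⟩⟩,⟨false,0,⟨0,[]⟩,⟨0,[]⟩⟩,[.o ⟨false,0,⟨12,[(13,2),(0,0),(4,2),
  (3,4),(27,15),(1,1),(0,0)]⟩,⟨5,[(1,3),(5,0),(4,0),(21,3),(8,0),(10,1),(9,1)]⟩⟩,.o ⟨false,0,⟨2,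
  [(13,0),(5,0),(3,0),(18,1),(8,0),(1,0)]⟩,⟨222,[(1,1),(4,21),(3,67),(1,79),(5,103),(24,0),(19,42),
  (5,32),(0,1)]⟩⟩,.e ⟨false,0,⟨0,[]⟩,⟨33,[(12,4),(33,4),(4,9),(11,0),(3,4),(1,21)]⟩⟩ ⟨false,0,⟨1,
  [(13,0),(28,0),(8,0),(12,0)]⟩,⟨0,[(8,0),(45,0)]⟩⟩,.a ⟨true,0,⟨0,[(53,0)]⟩,⟨0,[(50,0)]⟩⟩ ⟨true,0,
  ⟨16,[(14,0),(6,1),(17,1),(10,3),(0,0),(10,6)]⟩,⟨1,[(53,0),(0,0)]⟩⟩ ⟨false,0,⟨9,[(13,2),(5,0),(1,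
  0),(10,1),(9,7),(7,4),(0,2)]⟩,⟨0,[(7,0),(15,0),(40,0)]⟩⟩]⟩)) (.I [1,0,-2,-2,1,0,0,-1] (.I [0,0,-2,
  -2,1,0,0,-1] (.I [2,0,2,2,-1,0,0,1] (.N [0,2,1,0,1] 1 ⟨0,[(0,0)]⟩ ⟨0,[(1,0)]⟩ (.x (-1) ⟨33,[(7,
  16),(2,3),(8,33),(3,23),(1,1),(23,7),(3,7),(4,16),(6,9),(4,7),(0,1)]⟩ ⟨0,[(4,0),(6,0),(30,0),(3,
  1),(12,0),(12,0)]⟩)) (.N [0,2,1,0,2] 1 ⟨0,[(3,0),(62,0)]⟩ ⟨0,[(0,0)]⟩ (.x 0 ⟨1,[(19,3),(3,2),(1,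
  0),(30,1),(1,1)]⟩ ⟨0,[(4,0),(6,0),(15,0),(18,0),(1,0),(6,0)]⟩))) (.N [0,2,1] 1 ⟨0,[(0,0)]⟩ ⟨0,[(1,
  0)]⟩ (.x (-1) ⟨0,[(6,0),(15,0),(24,0)]⟩ ⟨8,[(3,4),(8,2),(32,11),(2,4),(5,6),(0,5)]⟩))) (.N [0,2,1,
  0,-1] 1 ⟨0,[(0,0)]⟩ ⟨1,[(3,1),(7,0),(28,1),(3,0),(5,1),(6,2),(8,1)]⟩ (.x (-1) ⟨134,[(5,134),(2,
  27),(5,83),(1,17),(4,68),(17,9),(9,134),(13,29),(4,46)]⟩ ⟨2,[(2,0),(17,2),(23,2),(2,3),(5,1),(0,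
  2)]⟩))))) (.Q [0,-1,0,-1,1,0,-1,-1,0,2,-1] (.p false [-1,1,1] [1] (⟨0,[(41,0)]⟩,⟨0,[(14,0),(31,
  0)]⟩) .k 1 (⟨0,[]⟩,⟨0,[]⟩) .k .k) (.R ⟨1,true,true,true,[2,-1,-1],[],[0,1,1],(⟨5,[(0,0),(0,0),(1,
  2),(34,1),(9,0),(4,2)]⟩,⟨0,[(42,0)]⟩),(⟨0,[]⟩,⟨0,[]⟩),⟨0,[(3,0)]⟩,.k,.k,(.r (-2) ⟨71,[(0,1),(5,
  35),(3,17),(17,52),(7,17),(12,37),(11,7),(4,0)]⟩ ⟨0,[(1,0),(60,0)]⟩),.k,(.r (-2) ⟨71,[(0,1),(5,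
  35),(3,17),(17,52),(7,17),(12,37),(11,7),(4,0)]⟩ ⟨0,[(1,0),(60,0)]⟩),.k,⟨true,0,⟨1,[(51,0),(0,
  0)]⟩,⟨0,[]⟩⟩,⟨false,1,⟨0,[(19,0),(24,0)]⟩,⟨0,[(0,0),(0,0)]⟩⟩,⟨true,(-1),⟨1,[(1,1),(49,0),(0,0)]⟩,
  ⟨5,[(6,1),(21,2),(8,1),(28,0)]⟩⟩,⟨false,0,⟨5,[(1,1),(15,1),(1,0),(1,0),(8,0),(18,0),(11,0),(3,
  0)]⟩,⟨0,[(0,0)]⟩⟩,⟨false,(-1),⟨0,[(1,0),(60,0)]⟩,⟨107,[(0,29),(5,45),(21,92),(20,13),(1,15),(9,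
  11),(5,22)]⟩⟩,⟨true,(-1),⟨19,[(1,19),(15,11),(1,4),(1,6),(10,3),(4,7),(22,1),(4,3)]⟩,⟨0,[(0,0),
  (63,0)]⟩⟩,[]⟩) (.Q [1,-1,0,-1,1,0,-1,-1,1,1,-1,1] (.p false [-1,1,1] [0,0,0,0,1] (⟨0,[(42,0)]⟩,⟨0,
  [(15,0),(31,0)]⟩) .k 2 (⟨0,[(47,0)]⟩,⟨0,[(46,0)]⟩) .k (.r 0 ⟨51,[(1,13),(9,13),(29,4),(7,9),(11,
  0),(5,11)]⟩ ⟨32,[(6,10),(1,1),(1,7),(33,9),(4,8),(1,10),(9,1),(3,7)]⟩)) (.R ⟨1,true,false,true,[2,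
  -1,-1],[1,0,0,0,-1],[0,1],(⟨0,[(16,0),(31,0)]⟩,⟨0,[(43,0)]⟩),(⟨0,[(47,0)]⟩,⟨0,[(48,0)]⟩),⟨0,[(4,
  0)]⟩,.k,.k,(.r (-2) ⟨55,[(0,0),(6,27),(3,13),(17,40),(7,14),(12,28),(11,5),(4,0)]⟩ ⟨0,[(2,0),(60,
  0)]⟩),(.r (-1) ⟨55,[(7,27),(3,4),(17,13),(7,4),(12,9),(11,1),(2,17)]⟩ ⟨73,[(0,8),(1,51),(39,10),
  (2,8),(4,30),(11,3),(0,21),(2,8),(1,25)]⟩),(.r (-2) ⟨55,[(0,0),(6,27),(3,13),(17,40),(7,14),(12,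
  28),(11,5),(4,0)]⟩ ⟨1,[(1,1),(2,2),(9,0),(4,2),(4,2),(32,2),(5,1),(5,2)]⟩),.k,⟨true,0,⟨0,[]⟩,⟨1,
  [(52,0),(0,0)]⟩⟩,⟨false,1,⟨42,[(7,11),(5,23),(6,18),(24,13),(15,5),(0,0),(4,14)]⟩,⟨0,[(0,0),(1,
  0)]⟩⟩,⟨true,(-1),⟨0,[(2,0)]⟩,⟨55,[(7,27),(3,4),(17,13),(7,4),(12,9),(11,1),(2,17)]⟩⟩,⟨false,0,⟨14,
  [(1,1),(1,2),(14,8),(31,6),(11,0),(3,0)]⟩,⟨0,[(0,0)]⟩⟩,⟨false,(-1),⟨2,[(1,0),(0,1),(36,0),(9,1),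
  (13,2)]⟩,⟨11,[(0,3),(4,1),(1,1),(21,8),(22,7),(9,1),(5,2)]⟩⟩,⟨true,(-1),⟨2,[(1,0),(0,1),(0,1),(16,
  0),(10,0),(7,0),(10,0)]⟩,⟨0,[(0,0),(64,0)]⟩⟩,[]⟩) (.R ⟨0,false,false,true,[0,0,1],[0,0,2],[1,1],
  (⟨0,[(55,0)]⟩,⟨0,[(54,0)]⟩),(⟨0,[(55,1)]⟩,⟨0,[(8,0),(7,0)]⟩),⟨0,[(44,0)]⟩,.k,.k,.k,.k,.k,.k,
  ⟨false,1,⟨41,[(7,34),(1,4),(28,3),(6,4),(6,9),(8,12),(0,0)]⟩,⟨0,[(36,1)]⟩⟩,⟨true,0,⟨0,[(39,0)]⟩,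
  ⟨0,[(53,0)]⟩⟩,⟨true,0,⟨1,[(38,0),(12,0),(0,0)]⟩,⟨0,[(36,0)]⟩⟩,⟨false,0,⟨0,[(41,0)]⟩,⟨35,[(5,3),(5,
  7),(21,4),(6,6),(21,2),(5,17)]⟩⟩,⟨false,0,⟨0,[]⟩,⟨0,[]⟩⟩,⟨false,0,⟨0,[]⟩,⟨0,[]⟩⟩,[.o ⟨false,0,⟨12,
  [(1,1),(10,1),(0,0),(8,1),(18,7),(8,10),(1,1),(9,0)]⟩,⟨4,[(5,0),(1,3),(6,0),(5,1),(32,7),(9,0)]⟩⟩,
  .o ⟨false,0,⟨18,[(1,1),(10,3),(0,0),(4,1),(3,3),(18,24),(10,3),(9,0)]⟩,⟨98,[(5,21),(5,43),(21,34),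
  (6,30),(21,14),(5,2),(1,5)]⟩⟩,.e ⟨false,0,⟨0,[]⟩,⟨33,[(11,4),(33,4),(4,9),(11,0),(3,4),(1,21)]⟩⟩
  ⟨false,0,⟨1,[(12,0),(28,0),(8,0),(12,0)]⟩,⟨0,[(7,0),(45,0)]⟩⟩,.a ⟨true,0,⟨0,[(52,0)]⟩,⟨0,[(49,
  0)]⟩⟩ ⟨true,0,⟨16,[(13,0),(6,1),(17,1),(10,3),(0,0),(10,6)]⟩,⟨1,[(52,0),(0,0)]⟩⟩ ⟨false,0,⟨15,[(0,
  0),(11,4),(7,0),(10,3),(9,13),(7,6),(0,2),(16,0)]⟩,⟨0,[(6,0),(15,0),(40,0)]⟩⟩]⟩))))) (.R ⟨0,false,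
  false,false,[0,0,1],[0,0,2],[1],(⟨0,[(51,0)]⟩,⟨0,[(50,0)]⟩),(⟨0,[(51,1)]⟩,⟨0,[(4,0),(7,0)]⟩),⟨0,
  [(40,0)]⟩,.k,.k,.k,.k,.k,.k,⟨false,1,⟨41,[(3,34),(1,4),(28,3),(6,4),(6,9),(8,12),(0,0)]⟩,⟨0,[(32,
  1)]⟩⟩,⟨true,0,⟨0,[(35,0)]⟩,⟨0,[(49,0)]⟩⟩,⟨false,1,⟨33,[(3,12),(3,4),(33,4),(4,1),(1,7),(9,0),(0,
  4),(4,8)]⟩,⟨0,[(32,0)]⟩⟩,⟨true,0,⟨0,[(37,0)]⟩,⟨0,[(47,0)]⟩⟩,⟨false,0,⟨0,[]⟩,⟨0,[]⟩⟩,⟨false,0,⟨0,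
  []⟩,⟨0,[]⟩⟩,[.o ⟨false,0,⟨2,[(8,0),(5,0),(3,0),(18,1),(8,0),(1,0)]⟩,⟨98,[(1,21),(5,43),(21,34),(6,
  30),(21,14),(5,2),(1,5)]⟩⟩,.o ⟨false,0,⟨2,[(0,0),(5,0),(1,2),(26,5),(16,3),(6,2)]⟩,⟨72,[(1,13),(3,
  50),(15,1),(14,13),(4,20),(16,18),(7,19)]⟩⟩,.a ⟨true,0,⟨0,[(35,0)]⟩,⟨3,[(12,0),(25,1),(5,0),(6,0),
  (4,0)]⟩⟩ ⟨true,0,⟨0,[]⟩,⟨0,[(66,0)]⟩⟩ ⟨false,0,⟨0,[(8,0),(26,0),(23,0)]⟩,⟨18,[(1,3),(1,6),(1,7),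
  (42,4),(9,3),(0,1),(2,1),(3,0)]⟩⟩,.e ⟨false,1,⟨1,[(63,0),(0,0)]⟩,⟨1,[(48,0),(0,0)]⟩⟩ ⟨false,0,⟨2,
  [(0,0),(5,0),(1,2),(26,5),(9,2),(6,3),(6,2)]⟩,⟨166,[(1,43),(1,19),(1,60),(1,26),(21,29),(18,126),
  (9,37),(0,40),(5,18)]⟩⟩]⟩))))))

theorem ok21 : chk K t21 l32 = true := by decide +kernel

noncomputable def t22 : Tre :=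
  (.Q [0,0,0,0,0,-2,0,0,0,2,-1] (.p false [-1,1,1] [1] (⟨0,[(34,0)]⟩,⟨0,[(7,0),(31,0)]⟩) .k 1 (⟨0,
  []⟩,⟨0,[]⟩) .k .k) (.I [0,-1,1,2,-1,0,0,2] (.R ⟨1,true,false,false,[2,-1,-1],[1,0,1,0,-1],[0,0,0,
  0,0,0,0,1],(⟨0,[(1,0),(51,0)]⟩,⟨0,[(36,0)]⟩),(⟨0,[(40,0),(7,0)]⟩,⟨0,[(16,0)]⟩),⟨0,[(1,0)]⟩,.k,.k,
  (.r (-2) ⟨3,[(4,1),(8,0),(8,2),(9,2),(5,2)]⟩ ⟨0,[(0,0),(43,0),(0,0)]⟩),(.r (-2) ⟨11,[(4,6),(17,0),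
  (7,2),(0,9),(0,13),(5,3),(16,1),(5,4)]⟩ ⟨0,[(0,0),(57,0)]⟩),(.r (-2) ⟨35,[(4,11),(3,6),(6,1),(6,
  29),(8,40),(13,28),(9,2),(5,23)]⟩ ⟨1,[(0,1),(44,0),(0,0),(16,1)]⟩),.k,⟨true,0,⟨0,[]⟩,⟨1,[(45,0),
  (0,0)]⟩⟩,⟨false,1,⟨3,[(6,1),(6,1),(17,1),(0,3),(5,1),(21,0),(0,0)]⟩,⟨0,[(0,0),(3,0),(53,0)]⟩⟩,
  ⟨true,(-1),⟨0,[(0,0),(57,0)]⟩,⟨35,[(4,11),(3,6),(6,1),(6,11),(8,40),(13,28),(9,2),(5,5)]⟩⟩,⟨false,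
  0,⟨0,[(11,0),(22,0)]⟩,⟨0,[(4,0)]⟩⟩,⟨false,(-1),⟨0,[(0,0)]⟩,⟨23,[(4,11),(3,6),(6,1),(6,17),(8,16),
  (13,28),(9,2),(5,11)]⟩⟩,⟨true,(-1),⟨7,[(0,7),(5,5),(6,2),(1,0),(15,6),(11,0),(1,4)]⟩,⟨0,[(4,0),
  (53,0)]⟩⟩,[]⟩) (.Q [2,0,0,-1,0,0,1,1,2,-1,1,2] (.p true [0,0,1] [1,1,0,0,-2] (⟨0,[(48,0)]⟩,⟨0,
  [(47,0)]⟩) .k 2 (⟨0,[(12,0),(27,0)]⟩,⟨1,[(1,0),(14,0),(0,1),(23,0)]⟩) (.r 0 ⟨3,[(33,0),(9,0),(12,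
  0),(2,1),(2,2)]⟩ ⟨37,[(4,4),(17,13),(7,4),(12,9),(11,1),(4,4),(0,4)]⟩) (.r 0 ⟨0,[(29,0)]⟩ ⟨43,[(0,
  16),(3,4),(33,4),(6,9),(9,0),(3,38),(1,14),(0,6),(0,12)]⟩)) (.R ⟨1,true,false,false,[1,-1,0,0,1],
  [2,0,-1,0,-1],[0,0,0,0,0,0,0,-1],(⟨1,[(2,0),(39,1),(6,0)]⟩,⟨0,[(13,0)]⟩),(⟨0,[(10,0),(43,0)]⟩,⟨0,
  [(18,0)]⟩),⟨0,[(2,0),(15,0)]⟩,(.r (-1) ⟨75,[(0,9),(4,4),(17,17),(7,24),(24,3),(4,19)]⟩ ⟨0,[(57,0),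
  (6,0)]⟩),.k,(.r (-1) ⟨0,[(26,0)]⟩ ⟨0,[(57,1),(6,1)]⟩),(.r (-1) ⟨7,[(0,1),(4,0),(0,3),(24,0),(7,3),
  (21,1)]⟩ ⟨2,[(32,1),(1,0),(11,0),(10,1),(5,1)]⟩),(.r (-1) ⟨151,[(0,9),(4,4),(0,75),(16,93),(7,24),
  (24,3),(4,19)]⟩ ⟨0,[(34,0),(11,0),(10,0),(6,0)]⟩),.k,⟨true,0,⟨0,[]⟩,⟨1,[(46,0),(0,0)]⟩⟩,⟨false,1,
  ⟨3,[(7,1),(0,1),(0,1),(51,2),(0,0)]⟩,⟨0,[(24,0),(15,0),(5,0)]⟩⟩,⟨true,0,⟨2,[(32,0),(1,1),(11,1),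
  (10,0),(5,0)]⟩,⟨4,[(6,2),(25,0),(22,0),(3,1)]⟩⟩,⟨false,1,⟨0,[(9,0),(50,0),(1,0)]⟩,⟨0,[(0,0)]⟩⟩,
  ⟨false,0,⟨1,[(2,4),(5,0),(0,1),(3,4),(0,3),(3,4),(32,4),(5,3),(5,6)]⟩,⟨49,[(0,11),(2,0),(2,17),
  (16,22),(7,22),(15,13),(8,1),(2,0)]⟩⟩,⟨true,0,⟨5,[(9,3),(1,2),(0,0),(20,2),(9,2),(13,2),(2,4)]⟩,
  ⟨0,[(0,0),(58,0)]⟩⟩,[]⟩) (.Q [0,0,0,0,0,-1,0,0,0,1,1,-1] (.p false [0,0,-1,0,1] [1] (⟨0,[(17,0)]⟩,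
  ⟨0,[(41,0),(7,0)]⟩) .k 1 (⟨0,[]⟩,⟨0,[]⟩) .k (.r (-1) ⟨47,[(1,13),(3,9),(33,9),(6,19),(9,1),(3,37),
  (0,2),(0,6)]⟩ ⟨0,[(0,0),(1,3),(0,0),(4,1),(4,3),(0,2),(3,3),(32,3),(7,0),(3,7)]⟩)) (.Q [2,0,0,1,0,
  0,-2,-2,2,-1,-2,2] (.p true [0,0,-1,0,1] [1,0,1,0,-1] (⟨0,[(18,0)]⟩,⟨0,[(0,0),(54,0)]⟩) .k 2 (⟨0,
  [(0,0),(54,0)]⟩,⟨0,[(18,0)]⟩) .k (.r (-1) ⟨2,[(2,1),(32,1),(11,1),(13,1),(1,0)]⟩ ⟨0,[(0,1),(0,1),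
  (1,3),(0,1),(4,3),(5,5),(3,1),(32,9),(7,1),(3,15)]⟩)) (.R ⟨1,true,false,true,[1,0,1,0,-1],[0,0,-1,
  0,1],[2,1,0,0,0,0,0,-1],(⟨0,[(1,0),(54,0)]⟩,⟨0,[(19,0)]⟩),(⟨0,[(19,0)]⟩,⟨0,[(1,0),(54,0)]⟩),⟨0,
  [(1,0)]⟩,.k,.k,(.r (-1) ⟨75,[(7,14),(0,37),(16,3),(7,14),(12,29),(11,5),(4,14),(0,14)]⟩ ⟨0,[(36,
  0),(11,0)]⟩),.k,(.r 0 ⟨0,[(8,0)]⟩ ⟨15,[(0,2),(6,2),(26,7),(1,11),(4,8),(6,23),(13,3),(1,3)]⟩),.k,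
  ⟨true,0,⟨0,[]⟩,⟨1,[(48,0),(0,0)]⟩⟩,⟨false,0,⟨0,[(0,0),(7,0)]⟩,⟨9,[(2,4),(6,0),(23,4),(1,19),(5,2),
  (4,3),(17,1)]⟩⟩,⟨false,1,⟨13,[(0,0),(2,3),(3,0),(26,7),(1,7),(4,2),(6,11),(15,5)]⟩,⟨0,[(8,0),(50,
  0)]⟩⟩,⟨true,0,⟨0,[(0,0),(60,0)]⟩,⟨1,[(4,0),(4,1),(27,1),(13,0),(4,1)]⟩⟩,⟨true,0,⟨0,[(34,0),(1,0),
  (11,0)]⟩,⟨1,[(8,1),(39,0),(0,0)]⟩⟩,⟨false,0,⟨0,[(0,0)]⟩,⟨1,[(4,0),(0,1),(27,1),(17,0),(4,1)]⟩⟩,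
  []⟩) (.R ⟨0,false,false,false,[0,0,1],[0,0,2],[1],(⟨0,[(51,0)]⟩,⟨0,[(50,0)]⟩),(⟨0,[(51,1)]⟩,⟨0,
  [(4,0),(1,0)]⟩),⟨0,[(40,0)]⟩,.k,.k,.k,.k,.k,.k,⟨false,1,⟨2,[(3,0),(30,2),(1,0),(11,0),(13,0),(1,
  1)]⟩,⟨0,[(32,1)]⟩⟩,⟨true,0,⟨0,[(35,0)]⟩,⟨0,[(49,0)]⟩⟩,⟨false,1,⟨2,[(3,0),(32,0),(11,0),(13,0),(1,
  1)]⟩,⟨0,[(32,0)]⟩⟩,⟨true,0,⟨0,[(37,0)]⟩,⟨0,[(47,0)]⟩⟩,⟨false,0,⟨0,[]⟩,⟨0,[]⟩⟩,⟨false,0,⟨0,[]⟩,⟨0,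
  []⟩⟩,[.o ⟨false,0,⟨1,[(5,0),(25,0),(5,0),(8,0)]⟩,⟨32,[(2,10),(4,21),(21,7),(6,2),(21,4),(5,0),(1,
  1)]⟩⟩,.o ⟨false,0,⟨0,[(5,0),(36,0)]⟩,⟨20,[(7,10),(13,8),(14,10),(4,1),(16,3),(7,11)]⟩⟩,.a ⟨true,0,
  ⟨0,[(35,0)]⟩,⟨3,[(4,0),(33,1),(12,0),(4,1)]⟩⟩ ⟨true,0,⟨0,[]⟩,⟨0,[(66,0)]⟩⟩ ⟨false,0,⟨4,[(0,0),(4,
  1),(2,1),(33,3),(2,0),(13,2)]⟩,⟨71,[(2,2),(0,23),(3,16),(28,58),(4,10),(6,23),(9,3),(3,2),(1,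
  11)]⟩⟩,.e ⟨false,1,⟨1,[(63,0),(0,0)]⟩,⟨1,[(48,0),(0,0)]⟩⟩ ⟨false,0,⟨0,[(5,0),(36,0),(2,0)]⟩,⟨47,
  [(2,14),(0,1),(3,29),(21,4),(6,11),(11,43),(9,7),(0,1),(5,3)]⟩⟩]⟩)) (.R ⟨0,false,false,false,[0,0,
  1],[0,0,2],[1],(⟨0,[(50,0)]⟩,⟨0,[(49,0)]⟩),(⟨0,[(50,1)]⟩,⟨0,[(3,0),(1,0)]⟩),⟨0,[(39,0)]⟩,.k,.k,.k,
  .k,.k,.k,⟨false,1,⟨2,[(2,0),(30,2),(1,0),(11,0),(13,0),(1,1)]⟩,⟨0,[(31,1)]⟩⟩,⟨true,0,⟨0,[(34,0)]⟩,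
  ⟨0,[(48,0)]⟩⟩,⟨false,1,⟨2,[(2,0),(32,0),(11,0),(13,0),(1,1)]⟩,⟨0,[(31,0)]⟩⟩,⟨true,0,⟨0,[(36,0)]⟩,
  ⟨0,[(46,0)]⟩⟩,⟨false,0,⟨0,[]⟩,⟨0,[]⟩⟩,⟨false,0,⟨0,[]⟩,⟨0,[]⟩⟩,[.o ⟨false,0,⟨1,[(4,0),(25,0),(5,0),
  (8,0)]⟩,⟨32,[(1,10),(4,21),(21,7),(6,2),(21,4),(5,0),(1,1)]⟩⟩,.o ⟨false,0,⟨0,[(4,0),(36,0)]⟩,⟨20,
  [(6,10),(13,8),(14,10),(4,1),(16,3),(7,11)]⟩⟩,.a ⟨true,0,⟨0,[(34,0)]⟩,⟨3,[(3,0),(33,1),(12,0),(4,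
  1)]⟩⟩ ⟨true,0,⟨0,[]⟩,⟨0,[(65,0)]⟩⟩ ⟨false,0,⟨3,[(3,0),(0,1),(2,1),(33,1),(8,0),(4,1),(2,1)]⟩,⟨71,
  [(1,2),(0,23),(3,16),(28,58),(4,10),(6,23),(9,3),(3,2),(1,11)]⟩⟩,.e ⟨false,1,⟨1,[(62,0),(0,0)]⟩,
  ⟨1,[(47,0),(0,0)]⟩⟩ ⟨false,0,⟨0,[(4,0),(36,0),(2,0)]⟩,⟨47,[(1,14),(0,1),(3,29),(21,4),(6,11),(11,
  43),(9,7),(0,1),(5,3)]⟩⟩]⟩)))) (.Q [1,-1,0,2,-1,0,2,2,1,-3,2,1] (.p true [-1,1,1] [2,0,-1,0,-1]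
  (⟨0,[(35,0)]⟩,⟨0,[(8,0),(31,0)]⟩) .k 2 (⟨0,[(8,0),(43,0)]⟩,⟨0,[(16,0)]⟩) .k (.r 0 ⟨0,[(28,1)]⟩
  ⟨29,[(3,9),(5,8),(20,29),(1,0),(4,0),(6,29),(9,1),(5,14)]⟩)) (.Q [0,0,-1,0,0,0,2,0,1,-3,2,1] (.p
  true [-1,1,1] [2,0,-1,0,-1] (⟨0,[(36,0)]⟩,⟨0,[(9,0),(31,0)]⟩) .k 2 (⟨0,[(9,0),(43,0)]⟩,⟨0,[(17,
  0)]⟩) .k (.r 0 ⟨0,[(29,1)]⟩ ⟨29,[(4,9),(5,8),(20,29),(1,0),(4,0),(6,29),(9,1),(5,14)]⟩)) (.I [1,0,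
  1,1,-1,0,0,2] (.Q [0,0,2,0,0,0,-2,0,-1,3,-2,-1] (.p false [-1,1,1] [2,0,-1,0,-1] (⟨0,[(38,0)]⟩,⟨0,
  [(11,0),(31,0)]⟩) .k 2 (⟨0,[(11,0),(43,0)]⟩,⟨0,[(19,0)]⟩) .k (.r 0 ⟨67,[(0,38),(5,9),(0,28),(32,
  9),(4,19),(11,1),(4,4),(0,9)]⟩ ⟨14,[(1,1),(4,5),(5,4),(20,11),(1,0),(4,2),(6,13),(15,5)]⟩)) (.R
  ⟨1,true,false,false,[2,0,-1,0,-1],[-1,1,1],[0,1],(⟨0,[(12,0),(43,0)]⟩,⟨0,[(20,0)]⟩),(⟨0,[(39,0)]⟩,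
  ⟨0,[(12,0),(31,0)]⟩),⟨0,[(12,0)]⟩,.k,.k,(.r (-1) ⟨17,[(2,3),(4,4),(3,1),(13,3),(7,4),(0,5),(0,3),
  (28,3)]⟩ ⟨73,[(0,14),(0,21),(40,14),(3,29),(11,8),(0,21),(2,29),(1,3)]⟩),(.r (-2) ⟨17,[(2,5),(4,
  10),(25,6),(0,13),(0,5),(5,9),(6,3),(14,0),(0,6)]⟩ ⟨0,[(1,0)]⟩),(.r (-2) ⟨8,[(2,3),(4,4),(3,1),
  (13,3),(7,4),(0,5),(0,3),(28,3)]⟩ ⟨0,[(1,0),(57,0),(6,0)]⟩),.k,⟨false,1,⟨11,[(2,1),(4,1),(17,2),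
  (7,3),(0,7),(22,1),(5,2)]⟩,⟨73,[(0,4),(0,31),(40,4),(3,9),(11,2),(0,31),(2,9),(1,25)]⟩⟩,⟨true,0,
  ⟨0,[(2,0)]⟩,⟨0,[(0,0)]⟩⟩,⟨false,0,⟨73,[(0,4),(0,15),(6,15),(33,4),(3,9),(11,2),(4,4),(0,4)]⟩,⟨29,
  [(2,1),(4,5),(5,4),(20,11),(1,0),(4,2),(6,13),(15,20)]⟩⟩,⟨true,(-1),⟨0,[(1,0),(0,0)]⟩,⟨3,[(0,1),
  (6,1),(3,0),(21,1),(0,2),(0,1),(9,0)]⟩⟩,⟨true,(-1),⟨0,[(1,0),(32,0)]⟩,⟨53,[(2,11),(4,21),(3,9),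
  (13,8),(7,13),(14,29),(9,1),(5,4)]⟩⟩,⟨false,(-1),⟨0,[(3,0)]⟩,⟨10,[(0,2),(6,8),(3,3),(13,1),(7,8),
  (1,7),(9,1),(18,1)]⟩⟩,[]⟩) (.Q [0,0,0,0,0,0,0,0,0,1,-2] (.ed true [0,0,2] (.r 0 ⟨67,[(1,38),(5,9),
  (0,28),(32,9),(4,19),(11,1),(4,4),(0,9)]⟩ ⟨14,[(2,1),(4,5),(5,4),(20,11),(1,0),(4,2),(6,13),(15,
  5)]⟩)) (.R ⟨0,false,false,false,[0,0,1],[0,0,2],[1],(⟨0,[(52,0)]⟩,⟨0,[(51,0)]⟩),(⟨0,[(52,1)]⟩,⟨0,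
  [(0,0)]⟩),⟨0,[(41,0)]⟩,.k,.k,.k,.k,.k,.k,⟨false,1,⟨29,[(3,1),(4,5),(5,4),(20,41),(1,0),(4,2),(6,
  13),(15,20)]⟩,⟨67,[(2,38),(5,9),(0,28),(32,9),(4,19),(11,1),(4,4),(0,9)]⟩⟩,⟨true,0,⟨0,[(36,0)]⟩,
  ⟨0,[(50,0)]⟩⟩,⟨false,1,⟨29,[(3,1),(4,5),(5,4),(20,11),(1,0),(4,2),(6,13),(15,20)]⟩,⟨0,[(33,0)]⟩⟩,
  ⟨true,0,⟨0,[(38,0)]⟩,⟨0,[(48,0)]⟩⟩,⟨false,0,⟨0,[]⟩,⟨0,[]⟩⟩,⟨false,0,⟨0,[]⟩,⟨0,[]⟩⟩,[.o ⟨false,0,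
  ⟨11,[(2,0),(3,3),(2,0),(9,3),(18,5),(8,5),(17,0)]⟩,⟨6,[(8,3),(3,1),(17,0),(6,2),(21,0),(5,0)]⟩⟩,
  .o ⟨false,0,⟨0,[(6,0),(36,0)]⟩,⟨20,[(8,10),(13,8),(14,10),(4,1),(16,3),(7,11)]⟩⟩,.a ⟨true,0,⟨0,
  [(36,0)]⟩,⟨3,[(13,0),(25,1),(5,0),(6,0),(4,0)]⟩⟩ ⟨true,0,⟨0,[]⟩,⟨0,[(67,0)]⟩⟩ ⟨false,0,⟨1,[(2,0),
  (6,0),(26,1),(28,0)]⟩,⟨9,[(3,1),(4,5),(5,4),(20,1),(1,0),(4,2),(6,3),(15,0)]⟩⟩,.e ⟨false,1,⟨1,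
  [(64,0),(0,0)]⟩,⟨1,[(49,0),(0,0)]⟩⟩ ⟨false,0,⟨0,[(6,0),(36,0),(2,0)]⟩,⟨71,[(8,43),(3,10),(1,21),
  (20,0),(1,21),(11,70),(9,10),(5,5),(0,1)]⟩⟩]⟩) (.I [0,0,0,0,0,1,1] (.C [(0,1),(0,0),(10,0),(41,1),
  (12,0)]) (.C [(0,0),(0,0),(6,0),(5,0),(6,0),(15,0)])))) (.I [2,0,1,1,-1,0,0,2] (.N [0,1,2,0,1] 1
  ⟨0,[(0,0)]⟩ ⟨0,[(1,0)]⟩ (.x 0 ⟨0,[(2,0),(9,0),(37,0)]⟩ ⟨5,[(0,0),(3,2),(2,0),(22,0),(2,0),(4,2),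
  (2,4),(2,5),(4,3),(1,8),(7,0)]⟩)) (.R ⟨1,true,false,true,[2,0,-1,0,-1],[0,0,1],[1,1,0,0,0,0,0,1],
  (⟨0,[(12,0),(43,0)]⟩,⟨0,[(20,0)]⟩),(⟨0,[(51,0)]⟩,⟨0,[(50,0)]⟩),⟨0,[(12,0)]⟩,.k,.k,(.r (-1) ⟨75,
  [(0,15),(0,21),(5,4),(17,13),(7,4),(12,9),(11,1),(4,4),(0,4)]⟩ ⟨8,[(3,0),(34,2),(2,0),(4,6),(2,2),
  (9,5),(2,0)]⟩),.k,(.r (-1) ⟨0,[(0,0)]⟩ ⟨6,[(3,0),(28,5),(5,2),(2,0),(4,5),(2,1),(9,4)]⟩),.k,⟨true,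
  0,⟨0,[]⟩,⟨1,[(48,0),(0,0)]⟩⟩,⟨false,0,⟨3,[(2,1),(13,0),(18,2),(6,0)]⟩,⟨0,[(33,0),(4,0),(23,0)]⟩⟩,
  ⟨false,0,⟨0,[(32,1)]⟩,⟨0,[(0,0),(58,0)]⟩⟩,⟨true,(-1),⟨1,[(3,1),(8,0),(31,0),(6,0),(4,0),(4,3)]⟩,
  ⟨7,[(1,0),(5,2),(13,7),(8,2),(14,1),(13,2),(2,0),(1,3)]⟩⟩,⟨true,(-1),⟨1,[(3,1),(8,0),(17,1),(7,1),
  (5,0),(6,0),(4,0),(4,1)]⟩,⟨1,[(1,1),(46,0),(0,0)]⟩⟩,⟨false,(-1),⟨1,[(3,1),(8,0),(31,0),(6,0),(4,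
  0),(4,1)]⟩,⟨1,[(7,0),(13,1),(11,0),(30,1)]⟩⟩,[]⟩))) (.I [0,0,0,0,0,1,1] (.I [0,0,-1,0,0,1,-1] (.I
  [0,0,-2,0,0,-1,1,0,1] (.C [(0,0),(1,0),(0,0),(1,0),(15,0),(31,1),(12,0)]) (.C [(0,0),(12,0),(3,
  0)])) (.C [(0,0),(1,0),(1,0),(7,0),(3,0),(3,0)])) (.C [(0,0),(2,0),(7,0),(6,0),(15,0)]))) (.I [1,
  0,1,1,-1,0,0,2] (.I [1,0,-1,-1,1,0,0,-2] (.N [0,1,2] 1 ⟨0,[(1,0)]⟩ ⟨0,[(0,0)]⟩ (.x (-1) ⟨4,[(0,2),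
  (10,4),(1,0),(1,0),(2,4),(7,1),(7,2),(10,2),(11,0)]⟩ ⟨13,[(1,3),(0,1),(0,6),(2,1),(30,5),(10,7),
  (1,20),(7,1)]⟩)) (.I [0,0,0,0,0,1,1] (.I [0,0,-1,0,0,1,-1] (.I [0,0,-2,0,0,-1,1,0,1] (.C [(0,0),
  (1,0),(0,0),(1,0),(0,0),(15,0),(31,1),(6,0)]) (.C [(0,0),(13,0),(3,0)])) (.C [(0,0),(4,0),(5,0),
  (1,0),(7,0),(14,0)])) (.C [(0,0),(3,0),(7,0),(6,0),(15,0)]))) (.I [-1,0,-1,-1,1,0,0,-2] (.Q [0,0,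
  -1,0,0,0,2,0,1,-3,2,1] (.p true [-1,1,1] [2,0,-1,0,-1] (⟨0,[(38,0)]⟩,⟨0,[(11,0),(31,0)]⟩) .k 2
  (⟨0,[(11,0),(43,0)]⟩,⟨0,[(19,0)]⟩) .k (.r 0 ⟨0,[(31,1)]⟩ ⟨35,[(0,23),(5,4),(28,13),(4,4),(6,23),
  (9,0),(3,14)]⟩)) (.Q [-1,0,0,-1,1,0,-2,-2,-1,3,-2,-1] (.p false [-1,1,1] [2,0,-1,0,-1] (⟨0,[(39,
  0)]⟩,⟨0,[(12,0),(31,0)]⟩) .k 2 (⟨0,[(12,0),(43,0)]⟩,⟨0,[(20,0)]⟩) .k (.r 0 ⟨0,[(32,1)]⟩ ⟨35,[(1,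
  23),(5,4),(28,13),(4,4),(6,23),(9,0),(3,14)]⟩)) (.Q [1,0,0,2,-1,0,2,2,1,-3,2,1] (.p true [-1,1,1]
  [2,0,-1,0,-1] (⟨0,[(40,0)]⟩,⟨0,[(13,0),(31,0)]⟩) .k 2 (⟨0,[(13,0),(43,0)]⟩,⟨0,[(21,0)]⟩) .k (.r 0
  ⟨0,[(33,1)]⟩ ⟨35,[(2,23),(5,4),(28,13),(4,4),(6,23),(9,0),(3,14)]⟩)) (.Q [0,0,2,0,0,0,-2,0,-1,3,
  -2,-1] (.p false [-1,1,1] [2,0,-1,0,-1] (⟨0,[(41,0)]⟩,⟨0,[(14,0),(31,0)]⟩) .k 2 (⟨0,[(14,0),(43,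
  0)]⟩,⟨0,[(22,0)]⟩) .k (.r 0 ⟨0,[(34,1)]⟩ ⟨35,[(3,23),(5,4),(28,13),(4,4),(6,23),(9,0),(3,14)]⟩))
  (.R ⟨1,true,false,false,[2,0,-1,0,-1],[-1,1,1],[0,0,1],(⟨0,[(15,0),(43,0)]⟩,⟨0,[(23,0)]⟩),(⟨0,
  [(42,0)]⟩,⟨0,[(15,0),(31,0)]⟩),⟨0,[(15,0)]⟩,.k,.k,(.r (-1) ⟨75,[(4,37),(5,4),(17,13),(7,4),(12,9),
  (11,1),(4,4),(0,4)]⟩ ⟨55,[(0,27),(0,22),(8,4),(38,19),(11,3),(3,14),(1,9)]⟩),(.r (-1) ⟨0,[(4,0)]⟩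
  ⟨52,[(0,41),(0,31),(9,10),(33,9),(3,19),(11,5),(4,9),(0,9)]⟩),(.r (-2) ⟨37,[(4,37),(5,4),(17,13),
  (7,4),(12,9),(11,1),(4,4),(0,4)]⟩ ⟨0,[(0,0),(0,0)]⟩),.k,⟨false,1,⟨75,[(4,37),(5,4),(17,13),(7,4),
  (12,9),(11,1),(4,4),(0,4)]⟩,⟨1,[(0,0),(0,0),(64,0)]⟩⟩,⟨true,0,⟨0,[(3,0)]⟩,⟨0,[(0,0)]⟩⟩,⟨true,0,
  ⟨23,[(0,8),(0,3),(9,7),(22,4),(16,11),(0,1),(8,1)]⟩,⟨0,[(37,0)]⟩⟩,⟨false,0,⟨45,[(1,22),(6,17),(25,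
  40),(14,9),(11,1),(5,18)]⟩,⟨0,[(2,0)]⟩⟩,⟨false,0,⟨1,[(0,0),(0,0),(65,0)]⟩,⟨75,[(4,37),(5,4),(17,
  13),(7,4),(12,9),(11,1),(4,4),(0,4)]⟩⟩,⟨true,(-1),⟨0,[(1,0)]⟩,⟨0,[(6,0)]⟩⟩,[]⟩) (.Q [0,0,0,0,0,0,
  0,0,0,1,-2] (.ed true [0,0,2] (.r 0 ⟨0,[(35,1)]⟩ ⟨35,[(4,23),(5,4),(28,13),(4,4),(6,23),(9,0),(3,
  14)]⟩)) (.R ⟨0,false,false,true,[1,0,-2],[1,0,-1],[1,1,0,-1,0,0,0,-2],(⟨0,[(0,0)]⟩,⟨0,[(55,1)]⟩),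
  (⟨0,[(54,0)]⟩,⟨0,[(55,0)]⟩),⟨1,[(8,0),(46,2)]⟩,.k,.k,(.r (-1) ⟨0,[(6,0)]⟩ ⟨7,[(2,0),(33,7),(5,2),
  (2,0),(4,5),(2,1),(9,5)]⟩),.k,.k,.k,⟨false,1,⟨75,[(5,37),(5,4),(17,13),(7,4),(12,9),(11,1),(4,4),
  (0,4)]⟩,⟨1,[(31,0),(10,0),(7,0),(15,0)]⟩⟩,⟨true,0,⟨0,[(39,0)]⟩,⟨0,[(53,0)]⟩⟩,⟨true,0,⟨0,[(65,0)]⟩,
  ⟨0,[(66,0)]⟩⟩,⟨false,0,⟨0,[(41,0)]⟩,⟨11,[(3,1),(7,1),(21,2),(6,0),(21,0),(5,5)]⟩⟩,⟨false,0,⟨0,[]⟩,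
  ⟨0,[]⟩⟩,⟨false,0,⟨0,[]⟩,⟨0,[]⟩⟩,[.o ⟨false,0,⟨0,[(51,0)]⟩,⟨22,[(9,3),(25,3),(14,14),(11,2),(5,
  16)]⟩⟩,.o ⟨false,1,⟨29,[(3,2),(7,10),(28,1),(4,7),(16,3),(3,11)]⟩,⟨59,[(2,5),(6,12),(2,6),(9,6),
  (27,7),(1,6),(9,2),(2,4)]⟩⟩,.a ⟨true,0,⟨0,[(42,0)]⟩,⟨0,[(39,1)]⟩⟩ ⟨false,1,⟨1,[(5,1),(46,0),(0,
  0)]⟩,⟨1,[(12,0),(1,0),(16,0),(18,0),(12,1)]⟩⟩ ⟨true,0,⟨0,[(38,0),(13,0)]⟩,⟨20,[(2,1),(9,3),(0,0),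
  (22,7),(5,10),(10,3),(8,0)]⟩⟩,.o ⟨false,0,⟨4,[(8,0),(1,0),(3,2),(38,3),(2,3),(12,3)]⟩,⟨0,[(5,0),
  (25,0),(18,0)]⟩⟩]⟩) (.I [0,0,0,0,0,1,1] (.C [(0,1),(0,0),(13,0),(41,1),(12,0)]) (.C [(0,0),(0,0),
  (9,0),(5,0),(6,0),(15,0)])))) (.Q [0,0,0,0,0,0,0,0,0,1,-2] (.ed true [0,0,2] (.r 0 ⟨0,[(34,1)]⟩
  ⟨35,[(3,23),(5,4),(28,13),(4,4),(6,23),(9,0),(3,14)]⟩)) (.R ⟨0,false,false,true,[1,0,-2],[1,0,-1],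
  [1,1,0,-1,0,0,0,-2],(⟨0,[(0,0)]⟩,⟨0,[(54,1)]⟩),(⟨0,[(53,0)]⟩,⟨0,[(54,0)]⟩),⟨1,[(7,0),(46,2)]⟩,.k,
  .k,(.r (-1) ⟨0,[(5,0)]⟩ ⟨1,[(30,0),(4,0),(5,0),(7,1),(2,0),(9,0)]⟩),.k,.k,.k,⟨false,1,⟨75,[(4,37),
  (5,4),(17,13),(7,4),(12,9),(11,1),(4,4),(0,4)]⟩,⟨1,[(30,0),(10,0),(7,0),(15,0)]⟩⟩,⟨true,0,⟨0,[(38,
  0)]⟩,⟨0,[(52,0)]⟩⟩,⟨true,0,⟨0,[(64,0)]⟩,⟨0,[(65,0)]⟩⟩,⟨false,0,⟨0,[(40,0)]⟩,⟨11,[(2,1),(7,1),(21,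
  2),(6,0),(21,0),(5,5)]⟩⟩,⟨false,0,⟨0,[]⟩,⟨0,[]⟩⟩,⟨false,0,⟨0,[]⟩,⟨0,[]⟩⟩,[.o ⟨false,0,⟨0,[(50,
  0)]⟩,⟨22,[(8,3),(25,3),(14,14),(11,2),(5,16)]⟩⟩,.o ⟨false,1,⟨29,[(2,2),(7,10),(28,1),(4,7),(16,3),
  (3,11)]⟩,⟨9,[(3,0),(4,1),(2,0),(5,0),(3,1),(27,2),(2,1)]⟩⟩,.a ⟨true,0,⟨0,[(41,0)]⟩,⟨0,[(38,1)]⟩⟩
  ⟨false,1,⟨1,[(4,1),(46,0),(0,0)]⟩,⟨1,[(11,0),(1,0),(16,0),(18,0),(12,1)]⟩⟩ ⟨true,0,⟨0,[(37,0),(13,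
  0)]⟩,⟨3,[(11,0),(20,0),(2,2),(5,0),(10,0)]⟩⟩,.o ⟨false,0,⟨4,[(7,0),(1,0),(3,2),(38,3),(2,3),(12,
  3)]⟩,⟨0,[(4,0),(25,0),(18,0)]⟩⟩]⟩) (.I [0,0,0,0,0,1,1] (.C [(0,1),(0,0),(12,0),(41,1),(12,0)])
  (.C [(0,0),(0,0),(8,0),(5,0),(6,0),(15,0)])))) (.R ⟨1,true,false,true,[2,0,-1,0,-1],[0,0,1],[1,1,
  0,0,0,0,0,1],(⟨0,[(13,0),(43,0)]⟩,⟨0,[(21,0)]⟩),(⟨0,[(52,0)]⟩,⟨0,[(51,0)]⟩),⟨0,[(13,0)]⟩,.k,.k,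
  (.r (-1) ⟨75,[(2,37),(5,4),(17,13),(7,4),(12,9),(11,1),(4,4),(0,4)]⟩ ⟨33,[(0,1),(14,1),(23,12),(7,
  27),(2,7),(8,0),(0,25),(2,3)]⟩),.k,(.r (-1) ⟨0,[(2,0)]⟩ ⟨25,[(0,1),(14,1),(17,21),(5,12),(7,23),
  (2,3),(8,0),(0,21)]⟩),.k,⟨true,0,⟨0,[]⟩,⟨1,[(49,0),(0,0)]⟩⟩,⟨false,0,⟨3,[(1,1),(15,0),(18,2),(6,
  0)]⟩,⟨10,[(4,1),(29,1),(4,7),(2,6),(3,5),(0,3),(12,5)]⟩⟩,⟨false,0,⟨0,[(33,1)]⟩,⟨0,[(2,0),(57,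
  0)]⟩⟩,⟨true,(-1),⟨1,[(0,1),(12,0),(31,0),(6,0),(4,0),(4,1)]⟩,⟨4,[(4,2),(7,0),(24,2),(25,2),(1,
  1)]⟩⟩,⟨true,(-1),⟨1,[(0,1),(12,0),(17,1),(7,1),(5,0),(6,0),(4,0)]⟩,⟨1,[(2,1),(46,0),(0,0)]⟩⟩,
  ⟨false,(-1),⟨1,[(0,1),(12,0),(31,0),(6,0),(4,0)]⟩,⟨4,[(4,2),(3,0),(5,0),(22,0),(4,1),(22,3)]⟩⟩,
  []⟩)) (.I [0,0,0,0,0,1,1] (.I [0,0,-1,0,0,1,-1] (.I [0,0,-2,0,0,-1,1,0,1] (.C [(0,0),(1,0),(0,0),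
  (3,0),(15,0),(31,1),(12,0)]) (.C [(0,0),(14,0),(3,0)])) (.C [(0,0),(1,0),(3,0),(7,0),(3,0),(3,
  0)])) (.C [(0,0),(4,0),(7,0),(6,0),(15,0)]))) (.N [0,1,2,0,1] 1 ⟨0,[(0,0)]⟩ ⟨0,[(1,0)]⟩ (.x 0 ⟨3,
  [(5,1),(5,4),(3,3),(2,0),(15,2),(12,0),(3,2),(12,2)]⟩ ⟨2,[(0,1),(1,0),(0,0),(2,0),(12,2),(17,0),
  (2,2),(9,1),(1,0),(5,0)]⟩))))))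

theorem ok22 : chk K t22 r32 = true := by decide +kernel

noncomputable def t25 : Tre :=
  (.Q [0,0,0,0,0,-2,0,0,0,1,0,1] (.p true [1,-1,0,0,1] [] (⟨0,[(37,0),(10,0)]⟩,⟨0,[(8,0)]⟩) (.r
  (-1) ⟨27,[(18,8),(7,9),(8,9),(15,1),(4,4)]⟩ ⟨0,[(52,0),(6,0)]⟩) 0 (⟨0,[]⟩,⟨0,[]⟩) .k .k) (.Q [0,0,
  0,0,0,0,0,0,0,1,-2] (.ed true [0,0,2] (.r 0 ⟨0,[(26,1)]⟩ ⟨0,[(28,0),(12,0),(0,0),(15,0)]⟩)) (.R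
  ⟨0,false,false,false,[0,0,1],[0,0,2],[1],(⟨0,[(46,0)]⟩,⟨0,[(45,0)]⟩),(⟨0,[(46,1)]⟩,⟨0,[(0,0)]⟩),
  ⟨0,[(35,0)]⟩,.k,.k,.k,.k,.k,.k,⟨false,1,⟨1,[(29,2),(12,0),(0,0),(15,1)]⟩,⟨0,[(27,1)]⟩⟩,⟨true,0,⟨0,
  [(30,0)]⟩,⟨0,[(44,0)]⟩⟩,⟨false,1,⟨1,[(29,0),(12,0),(0,0),(15,1)]⟩,⟨0,[(27,0)]⟩⟩,⟨true,0,⟨0,[(32,
  0)]⟩,⟨0,[(42,0)]⟩⟩,⟨false,0,⟨0,[]⟩,⟨0,[]⟩⟩,⟨false,0,⟨0,[]⟩,⟨0,[]⟩⟩,[.o ⟨false,0,⟨10,[(2,1),(0,1),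
  (9,1),(18,13),(10,1),(9,0)]⟩,⟨0,[(42,1),(16,0)]⟩⟩,.o ⟨false,0,⟨7,[(2,3),(0,3),(7,0),(1,0),(23,1),
  (5,5),(15,3)]⟩,⟨1,[(36,0),(0,0),(4,3),(16,0)]⟩⟩,.a ⟨true,0,⟨0,[(30,0)]⟩,⟨5,[(1,0),(5,0),(25,2),
  (12,0),(4,2)]⟩⟩ ⟨true,0,⟨0,[]⟩,⟨0,[(61,0)]⟩⟩ ⟨false,0,⟨8,[(1,0),(0,2),(0,5),(3,0),(29,2),(5,2),(2,
  0),(4,2),(2,2),(4,2)]⟩,⟨1,[(29,0),(12,2),(0,0),(15,1)]⟩⟩,.e ⟨false,1,⟨1,[(58,0),(0,0)]⟩,⟨1,[(43,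
  0),(0,0)]⟩⟩ ⟨false,0,⟨1,[(2,0),(0,0),(26,0),(6,0),(2,0),(18,0)]⟩,⟨0,[(42,1),(0,0),(15,0)]⟩⟩]⟩)
  (.I [0,0,0,0,0,1,1] (.C [(0,1),(0,0),(4,0),(41,1),(12,0)]) (.C [(0,0),(10,0),(3,0),(15,0)]))) (.Q
  [0,0,-1,0,0,0,2,0,1,-3,2,1] (.p true [-1,1,1] [2,0,-1,0,-1] (⟨0,[(33,0)]⟩,⟨0,[(6,0),(31,0)]⟩) .k
  2 (⟨0,[(6,0),(43,0)]⟩,⟨0,[(14,0)]⟩) .k (.r 0 ⟨0,[(26,1)]⟩ ⟨0,[(28,0),(12,0),(0,0),(15,0)]⟩)) (.Q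
  [0,0,2,0,0,0,-2,0,-1,3,-2,-1] (.p false [-1,1,1] [2,0,-1,0,-1] (⟨0,[(34,0)]⟩,⟨0,[(7,0),(31,0)]⟩)
  .k 2 (⟨0,[(7,0),(43,0)]⟩,⟨0,[(15,0)]⟩) .k (.r 0 ⟨0,[(27,1)]⟩ ⟨0,[(29,0),(12,0),(0,0),(15,0)]⟩))
  (.R ⟨1,true,false,false,[2,0,-1,0,-1],[-1,1,1],[-1,0,0,0,0,0,0,-1],(⟨0,[(8,0),(43,0)]⟩,⟨0,[(16,
  0)]⟩),(⟨0,[(35,0)]⟩,⟨0,[(8,0),(31,0)]⟩),⟨0,[(8,0)]⟩,.k,.k,(.r (-1) ⟨1,[(21,0),(8,0),(12,0),(0,0),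
  (15,0)]⟩ ⟨3,[(0,0),(22,1),(3,0),(14,1),(2,1),(12,1)]⟩),(.r (-2) ⟨17,[(21,3),(7,9),(0,22),(7,9),(4,
  12),(0,12),(9,1),(5,17)]⟩ ⟨1,[(0,0),(2,1),(23,1),(6,0),(3,0)]⟩),(.r (-2) ⟨0,[(21,0),(8,0),(12,0),
  (0,0),(15,0)]⟩ ⟨0,[(0,0),(2,0),(23,1),(30,0)]⟩),.k,⟨false,2,⟨8,[(21,1),(7,4),(0,15),(7,4),(4,1),
  (0,1),(9,0),(5,8)]⟩,⟨1,[(0,0),(2,1),(23,1),(6,0),(3,0)]⟩⟩,⟨true,0,⟨0,[(1,0)]⟩,⟨0,[(0,0)]⟩⟩,⟨false,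
  1,⟨1,[(37,0),(0,0),(21,0)]⟩,⟨0,[]⟩⟩,⟨true,(-1),⟨0,[(3,0),(23,1)]⟩,⟨1,[(0,1),(20,0),(8,2),(12,0),
  (0,0),(15,0)]⟩⟩,⟨true,0,⟨0,[(58,0)]⟩,⟨0,[(57,0)]⟩⟩,⟨false,(-1),⟨0,[(3,0),(14,0),(8,0),(27,0)]⟩,⟨0,
  [(0,0),(20,0),(8,0),(12,0),(0,0),(15,0)]⟩⟩,[]⟩) (.Q [0,0,0,0,0,0,0,0,0,1,-2] (.ed true [0,0,2]
  (.r 0 ⟨0,[(28,1)]⟩ ⟨0,[(30,0),(12,0),(0,0),(15,0)]⟩)) (.R ⟨0,false,false,false,[0,0,1],[0,0,2],[0,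
  0,1],(⟨0,[(48,0)]⟩,⟨0,[(47,0)]⟩),(⟨0,[(48,1)]⟩,⟨0,[(0,0)]⟩),⟨0,[(37,0)]⟩,.k,.k,.k,.k,.k,.k,⟨false,
  1,⟨0,[(31,0),(12,0),(0,0),(15,0)]⟩,⟨1,[(5,0),(1,0),(16,0),(18,0)]⟩⟩,⟨true,0,⟨0,[(32,0)]⟩,⟨0,[(46,
  0)]⟩⟩,⟨false,1,⟨0,[(44,0),(0,0),(15,0)]⟩,⟨11,[(4,0),(0,2),(1,1),(5,0),(10,1),(17,2),(0,1),(16,
  0)]⟩⟩,⟨true,0,⟨0,[(34,0)]⟩,⟨0,[(44,0)]⟩⟩,⟨false,0,⟨0,[]⟩,⟨0,[]⟩⟩,⟨false,0,⟨0,[]⟩,⟨0,[]⟩⟩,[.o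
  ⟨false,0,⟨10,[(4,1),(0,1),(9,1),(18,13),(10,1),(9,0)]⟩,⟨0,[(44,1),(16,0)]⟩⟩,.o ⟨false,0,⟨5,[(2,0),
  (1,2),(0,2),(33,1),(5,3),(15,2)]⟩,⟨1,[(38,0),(0,0),(4,3),(16,0)]⟩⟩,.a ⟨true,0,⟨0,[(32,0)]⟩,⟨3,[(9,
  0),(25,1),(5,0),(6,0),(4,0)]⟩⟩ ⟨true,0,⟨1,[(45,0),(0,0)]⟩,⟨31,[(4,1),(8,1),(8,0),(8,3),(10,5),(11,
  13),(5,0)]⟩⟩ ⟨false,0,⟨5,[(4,1),(0,3),(3,0),(29,1),(1,0),(3,1),(2,0),(4,0),(2,1),(4,1)]⟩,⟨1,[(31,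
  0),(12,2),(0,0),(15,1)]⟩⟩,.e ⟨false,1,⟨1,[(38,0),(0,0),(21,0)]⟩,⟨0,[]⟩⟩ ⟨false,0,⟨1,[(4,0),(0,0),
  (26,0),(6,0),(2,0),(18,0)]⟩,⟨0,[(44,1),(0,0),(15,0)]⟩⟩]⟩) (.I [0,0,0,0,0,1,1] (.C [(0,1),(0,0),(6,
  0),(41,1),(12,0)]) (.C [(0,0),(0,0),(2,0),(5,0),(6,1),(15,0)])))) (.I [0,0,0,0,0,1,1] (.I [0,0,-1,
  0,0,1,-1] (.I [0,0,-2,0,0,-1,1,0,1] (.C [(0,0),(1,0),(0,0),(0,0),(13,1),(31,1),(12,0)]) (.C [(0,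
  0),(9,0),(3,0)])) (.C [(0,0),(1,0),(0,0),(5,0),(3,0),(3,1)])) (.C [(0,0),(1,0),(5,0),(6,0),(0,0),
  (14,0)]))))

theorem ok25 : chk K t25 r30 = true := by decide +kernel

noncomputable def t27 : Tre :=
  (.I [2,0,1,1,0,0,0,-2] (.I [-1,0,2,1,0,0,0,-2] (.Q [0,0,0,0,0,-2,0,0,0,1,0,1] (.p true [1,-1,0,0,
  1] [] (⟨0,[(39,0),(10,0)]⟩,⟨0,[(10,0)]⟩) (.r (-1) ⟨27,[(20,8),(7,9),(8,9),(15,1),(4,4)]⟩ ⟨6,[(0,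
  0),(40,1),(2,1),(9,2),(2,2),(3,0)]⟩) 0 (⟨0,[]⟩,⟨0,[]⟩) .k .k) (.Q [2,-1,0,-1,1,0,-1,-1,2,0,-1,2]
  (.p false [0,0,1] [0,-1,0,0,2] (⟨0,[(47,0)]⟩,⟨0,[(46,0)]⟩) .k 2 (⟨1,[(0,0),(14,0),(0,0),(23,0)]⟩,
  ⟨0,[(11,0),(27,0)]⟩) (.r (-1) ⟨27,[(21,8),(7,9),(8,9),(15,1),(4,4)]⟩ ⟨12,[(1,0),(40,1),(2,1),(9,
  1),(2,9),(2,6)]⟩) (.r 0 ⟨101,[(0,4),(4,5),(0,8),(1,4),(3,11),(15,95),(18,4),(1,14),(11,32)]⟩ ⟨13,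
  [(1,6),(19,0),(7,4),(8,4),(15,0),(4,5)]⟩)) (.R ⟨1,true,false,true,[1,-1,0,0,1],[1,0,1,0,-1],[0,1,
  0,0,0,0,0,1],(⟨0,[(1,0),(51,0)]⟩,⟨0,[(12,0)]⟩),(⟨0,[(40,0),(7,0)]⟩,⟨0,[(16,0)]⟩),⟨0,[(1,0)]⟩,(.r
  (-1) ⟨75,[(0,9),(21,22),(7,19),(12,9),(11,3),(4,14)]⟩ ⟨6,[(2,0),(40,1),(2,1),(9,2),(2,2),(3,0)]⟩),
  .k,(.r (-1) ⟨0,[(25,0)]⟩ ⟨2,[(2,0),(40,1),(2,1),(9,1),(2,2)]⟩),(.r (-1) ⟨151,[(0,9),(2,75),(18,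
  98),(7,19),(12,9),(11,3),(4,14)]⟩ ⟨2,[(29,1),(13,0),(2,0),(9,0),(2,1),(2,0)]⟩),(.r (-2) ⟨151,[(0,
  29),(2,75),(18,144),(7,59),(12,29),(11,11),(4,44)]⟩ ⟨14,[(1,3),(2,14),(1,14),(2,3),(25,17),(9,20),
  (2,3),(4,11),(8,8)]⟩),.k,⟨true,0,⟨0,[]⟩,⟨1,[(45,0),(0,0)]⟩⟩,⟨false,1,⟨1,[(6,1),(24,1),(28,0),(0,
  0)]⟩,⟨0,[(39,1),(6,0)]⟩⟩,⟨true,(-1),⟨2,[(1,0),(2,2),(1,2),(2,0),(25,2),(9,2),(2,0),(4,2),(4,2)]⟩,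
  ⟨151,[(0,9),(2,75),(18,98),(7,19),(12,9),(11,3),(4,14)]⟩⟩,⟨false,0,⟨0,[(6,0),(52,0)]⟩,⟨0,[(0,
  0)]⟩⟩,⟨false,(-1),⟨2,[(1,0),(2,2),(1,2),(2,0),(25,2),(9,2),(2,0),(4,2)]⟩,⟨30,[(0,4),(1,10),(0,1),
  (18,29),(7,9),(14,4),(9,1),(5,12)]⟩⟩,⟨true,(-1),⟨2,[(1,0),(2,2),(1,3),(1,0),(0,0),(17,1),(20,0),
  (4,2)]⟩,⟨0,[(0,0),(57,0)]⟩⟩,[]⟩) (.Q [0,-1,0,0,1,0,-1,-2,0,0,-1] (.p false [0,0,1] [] (⟨0,[(48,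
  0)]⟩,⟨0,[(47,0)]⟩) .k 0 (⟨0,[]⟩,⟨0,[]⟩) .k .k) (.Q [0,0,0,0,0,0,0,0,0,1,-2] (.ed true [0,0,2] (.r
  0 ⟨0,[(30,1)]⟩ ⟨1,[(3,1),(19,0),(37,0)]⟩)) (.R ⟨0,false,false,true,[0,0,1],[0,0,2],[1,1],(⟨0,[(50,
  0)]⟩,⟨0,[(49,0)]⟩),(⟨0,[(50,1)]⟩,⟨0,[(0,0)]⟩),⟨0,[(39,0)]⟩,.k,.k,.k,.k,.k,.k,⟨false,1,⟨1,[(5,1),
  (18,0),(37,0)]⟩,⟨0,[(31,1)]⟩⟩,⟨true,0,⟨0,[(34,0)]⟩,⟨0,[(48,0)]⟩⟩,⟨true,0,⟨4,[(5,1),(27,0),(22,0),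
  (3,1)]⟩,⟨0,[(31,0)]⟩⟩,⟨false,0,⟨0,[(36,0)]⟩,⟨19,[(1,9),(35,4),(2,2),(0,2),(15,0),(5,4)]⟩⟩,⟨false,
  0,⟨0,[]⟩,⟨0,[]⟩⟩,⟨false,0,⟨0,[]⟩,⟨0,[]⟩⟩,[.e ⟨false,0,⟨39,[(2,1),(12,3),(8,0),(8,3),(10,7),(0,1),
  (10,15),(5,0)]⟩,⟨1,[(40,0),(0,0),(21,0)]⟩⟩ ⟨false,0,⟨19,[(2,1),(6,7),(5,3),(8,0),(6,7),(4,11),(8,
  17),(16,0)]⟩,⟨0,[(1,0)]⟩⟩,.o ⟨false,0,⟨3,[(8,0),(8,1),(13,1),(4,4)]⟩,⟨38,[(1,27),(2,2),(27,2),(4,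
  16),(3,2),(4,15),(9,5),(0,3)]⟩⟩,.e ⟨false,0,⟨0,[]⟩,⟨1,[(40,0),(0,0),(21,0)]⟩⟩ ⟨false,0,⟨0,[(31,0),
  (4,0)]⟩,⟨0,[(1,0)]⟩⟩,.a ⟨true,0,⟨0,[(47,0)]⟩,⟨0,[(44,0)]⟩⟩ ⟨true,0,⟨39,[(2,1),(12,3),(8,0),(8,3),
  (10,7),(0,1),(10,15),(5,0)]⟩,⟨1,[(47,0),(0,0)]⟩⟩ ⟨false,0,⟨7,[(8,0),(0,3),(5,1),(15,1),(4,12)]⟩,
  ⟨2,[(1,1),(2,0),(43,0),(11,0),(2,0)]⟩⟩]⟩) (.I [0,0,0,0,0,1,1] (.C [(0,1),(0,0),(8,0),(41,1),(12,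
  0)]) (.C [(0,0),(14,0),(3,0),(15,0)]))) (.I [0,0,0,0,0,1,1] (.C [(0,1),(0,1),(2,1),(4,1),(4,1),(4,
  1),(4,0),(26,3),(11,0)]) (.C [(0,0),(13,0),(3,0),(15,0)])))) (.I [1,0,-1,-1,0,0,0,2] (.N [0,-1,2]
  0 ⟨0,[(0,0)]⟩ ⟨2,[(1,1),(0,2),(4,2),(8,0),(0,0),(14,5),(16,3)]⟩ (.x 0 ⟨1,[(1,1),(7,0),(6,2),(15,
  2),(12,0),(3,0),(12,0)]⟩ ⟨19,[(7,13),(27,5),(12,39),(3,19),(2,7),(4,2),(0,0),(1,1)]⟩)) (.Q [0,0,2,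
  0,0,0,-2,0,-1,3,-2,-1] (.p false [-1,1,1] [2,0,-1,0,-1] (⟨0,[(36,0)]⟩,⟨0,[(9,0),(31,0)]⟩) .k 2
  (⟨0,[(9,0),(43,0)]⟩,⟨0,[(17,0)]⟩) .k (.r 0 ⟨0,[(29,1)]⟩ ⟨1,[(2,1),(19,0),(37,0)]⟩)) (.I [-1,0,1,1,
  0,0,0,-2] (.Q [0,0,-1,0,0,0,2,0,1,-3,2,1] (.p true [-1,1,1] [2,0,-1,0,-1] (⟨0,[(38,0)]⟩,⟨0,[(11,
  0),(31,0)]⟩) .k 2 (⟨0,[(11,0),(43,0)]⟩,⟨0,[(19,0)]⟩) .k (.r 0 ⟨0,[(31,1)]⟩ ⟨1,[(4,1),(19,0),(37,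
  0)]⟩)) (.Q [-1,0,0,-1,1,0,-2,-2,-1,3,-2,-1] (.p false [-1,1,1] [2,0,-1,0,-1] (⟨0,[(39,0)]⟩,⟨0,
  [(12,0),(31,0)]⟩) .k 2 (⟨0,[(12,0),(43,0)]⟩,⟨0,[(20,0)]⟩) .k (.r 0 ⟨0,[(32,1)]⟩ ⟨1,[(5,1),(19,0),
  (37,0)]⟩)) (.R ⟨1,true,false,false,[2,0,-1,0,-1],[-1,1,1],[0,0,1],(⟨0,[(13,0),(43,0)]⟩,⟨0,[(21,
  0)]⟩),(⟨0,[(40,0)]⟩,⟨0,[(13,0),(31,0)]⟩),⟨0,[(13,0)]⟩,.k,.k,(.r (-1) ⟨3,[(6,1),(19,2),(37,0)]⟩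
  ⟨27,[(3,13),(4,6),(19,12),(18,14),(11,2),(3,0),(1,0)]⟩),(.r (-1) ⟨0,[(0,0),(0,0)]⟩ ⟨73,[(3,37),(4,
  18),(19,35),(4,71),(13,39),(11,7),(4,0),(0,1)]⟩),(.r (-2) ⟨1,[(6,1),(19,2),(37,0)]⟩ ⟨2,[(3,1),(4,
  2),(1,1),(27,3),(11,1)]⟩),.k,⟨false,1,⟨3,[(6,1),(19,2),(37,0)]⟩,⟨55,[(3,9),(4,4),(2,17),(16,27),
  (18,27),(11,1),(3,17),(0,0)]⟩⟩,⟨true,0,⟨0,[(1,0)]⟩,⟨0,[(3,0)]⟩⟩,⟨true,0,⟨0,[(38,0),(11,0)]⟩,⟨0,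
  [(35,0)]⟩⟩,⟨false,0,⟨0,[(19,0),(8,0),(4,0)]⟩,⟨0,[(0,0)]⟩⟩,⟨false,0,⟨1,[(3,0),(24,1),(3,0)]⟩,⟨3,
  [(6,1),(19,2),(37,0)]⟩⟩,⟨true,(-1),⟨3,[(8,3),(1,2),(8,1),(13,1),(4,2)]⟩,⟨0,[(0,0),(61,0)]⟩⟩,[]⟩)
  (.I [0,0,0,0,0,1,1] (.I [0,0,-1,0,0,1,-1] (.C [(0,0),(0,0),(0,0),(1,0),(0,0),(22,0),(26,1)]) (.C
  [(0,0),(6,0),(5,0),(1,0),(7,1),(14,0)])) (.C [(0,0),(5,0),(7,0),(6,0),(0,0),(14,0)]))) (.I [0,0,0,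
  0,0,1,1] (.I [0,0,-1,0,0,1,-1] (.I [0,0,-2,0,0,-1,1,0,1] (.C [(0,0),(1,0),(0,0),(3,0),(15,1),(31,
  1),(12,0)]) (.C [(0,0),(14,0),(3,0)])) (.C [(0,0),(1,0),(3,0),(7,0),(3,0),(3,1)])) (.C [(0,0),(4,
  0),(7,0),(6,0),(0,0),(14,0)]))) (.N [0,-1,2,0,1] 0 ⟨0,[(0,0)]⟩ ⟨0,[(2,0)]⟩ (.x 0 ⟨15,[(3,3),(7,
  11),(3,2),(1,6),(21,19),(1,5),(5,21)]⟩ ⟨72,[(8,7),(0,72),(0,7),(8,72),(20,40),(9,72),(0,10),(2,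
  61),(2,13),(5,3)]⟩))) (.I [2,0,-1,-1,0,0,0,2] (.N [0,-1,2,0,1] 0 ⟨0,[(0,0)]⟩ ⟨0,[(2,0)]⟩ (.x 0
  ⟨19,[(1,2),(1,4),(7,14),(5,7),(21,24),(1,8),(5,25)]⟩ ⟨72,[(8,7),(0,72),(0,7),(8,72),(20,40),(9,
  72),(0,10),(2,61),(2,13),(5,3)]⟩)) (.Q [1,-1,0,0,0,0,2,2,1,-1,2,1] (.p true [1,-1,1] [2,0,-1,0,
  -1] (⟨0,[(50,0),(3,0)]⟩,⟨0,[(39,0)]⟩) .k 2 (⟨0,[(11,0),(43,0)]⟩,⟨0,[(19,0)]⟩) .k (.r 0 ⟨0,[(31,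
  1)]⟩ ⟨1,[(4,1),(19,0),(37,0)]⟩)) (.R ⟨1,true,false,false,[2,0,-1,0,-1],[1,-1,1],[1,0,-1,-1,0,0,0,
  1],(⟨0,[(12,0),(43,0)]⟩,⟨0,[(20,0)]⟩),(⟨0,[(51,0),(3,0)]⟩,⟨0,[(40,0)]⟩),⟨0,[(12,0)]⟩,.k,.k,(.r
  (-1) ⟨3,[(5,1),(19,2),(37,0)]⟩ ⟨33,[(7,1),(6,3),(23,12),(7,29),(2,7),(8,0),(0,25)]⟩),(.r 0 ⟨0,[(1,
  0)]⟩ ⟨31,[(0,9),(24,10),(6,33),(0,9),(4,14),(7,9),(11,2),(4,4)]⟩),.k,.k,⟨true,0,⟨0,[]⟩,⟨1,[(48,0),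
  (0,0)]⟩⟩,⟨false,0,⟨2,[(2,0),(32,1),(6,1),(5,1)]⟩,⟨0,[(10,0),(30,0)]⟩⟩,⟨false,1,⟨1,[(25,0),(6,3),
  (31,0)]⟩,⟨0,[(1,0)]⟩⟩,⟨true,0,⟨0,[(0,0),(60,0)]⟩,⟨0,[(21,0),(14,0)]⟩⟩,⟨true,0,⟨22,[(0,9),(8,5),(0,
  13),(5,1),(15,19),(24,4)]⟩,⟨0,[(1,0),(59,0)]⟩⟩,⟨false,0,⟨0,[(0,0)]⟩,⟨8,[(6,4),(3,0),(10,7),(3,1),
  (7,0),(4,3),(19,0),(5,3)]⟩⟩,[]⟩) (.Q [0,0,0,0,0,0,0,0,0,1,-2] (.ed true [0,0,2] (.r 0 ⟨0,[(32,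
  1)]⟩ ⟨1,[(5,1),(19,0),(37,0)]⟩)) (.R ⟨0,false,false,false,[0,0,1],[0,0,2],[1],(⟨0,[(52,0)]⟩,⟨0,
  [(51,0)]⟩),(⟨0,[(52,1)]⟩,⟨0,[(0,0)]⟩),⟨0,[(41,0)]⟩,.k,.k,.k,.k,.k,.k,⟨false,1,⟨1,[(7,1),(18,0),
  (37,0)]⟩,⟨0,[(33,1)]⟩⟩,⟨true,0,⟨0,[(36,0)]⟩,⟨0,[(50,0)]⟩⟩,⟨false,1,⟨3,[(6,1),(19,0),(37,0),(0,
  1)]⟩,⟨0,[(33,0)]⟩⟩,⟨true,0,⟨0,[(38,0)]⟩,⟨0,[(48,0)]⟩⟩,⟨false,0,⟨0,[]⟩,⟨0,[]⟩⟩,⟨false,0,⟨0,[]⟩,⟨0,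
  []⟩⟩,[.o ⟨false,0,⟨3,[(10,0),(8,1),(13,1),(4,4)]⟩,⟨9,[(1,7),(4,1),(19,0),(12,1),(3,7),(15,1),(4,
  0),(0,3)]⟩⟩,.o ⟨false,1,⟨4,[(38,8),(8,0),(11,0),(5,2)]⟩,⟨0,[(1,0),(30,0)]⟩⟩,.e ⟨true,0,⟨0,[]⟩,⟨10,
  [(6,0),(40,1),(2,1),(7,3),(3,0)]⟩⟩ ⟨true,0,⟨0,[(33,0),(4,0)]⟩,⟨4,[(1,2),(5,1),(9,0),(14,0),(10,0),
  (18,1)]⟩⟩,.a ⟨true,0,⟨0,[(49,0)]⟩,⟨0,[(46,0)]⟩⟩ ⟨false,1,⟨1,[(64,0),(0,0)]⟩,⟨1,[(49,0),(0,0)]⟩⟩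
  ⟨true,0,⟨7,[(10,0),(0,3),(5,1),(15,1),(4,12)]⟩,⟨1,[(1,0),(4,0),(25,0),(29,0)]⟩⟩]⟩) (.I [0,0,0,0,0,
  1,1] (.C [(0,1),(0,0),(10,0),(41,1),(12,0)]) (.C [(0,0),(0,0),(4,0),(7,0),(6,1),(15,0)]))))))))
  (.N [0,-1,2,0,-1] 0 ⟨3,[(0,3),(42,0),(0,0),(15,1)]⟩ ⟨0,[(1,0)]⟩ (.x (-1) ⟨0,[(14,0),(15,0),(4,0),
  (0,0),(6,0)]⟩ ⟨0,[(5,0),(5,0),(26,0),(5,0),(1,1),(0,0),(12,0)]⟩))) (.N [0,-1,2,0,-2] 0 ⟨0,[(0,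
  0)]⟩ ⟨0,[(2,0)]⟩ (.x (-1) ⟨17,[(2,4),(0,9),(9,35),(13,4),(1,12),(5,10),(6,12),(7,17),(1,0)]⟩ ⟨1,
  [(4,0),(1,1),(3,2),(9,0),(16,1),(5,4),(1,5)]⟩)))

theorem ok27 : chk K t27 l33 = true := by decide +kernel


end Helper48.Y.Y11_c2_P2_m0n0
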