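import Pool.Agent.Helper25.KG.S1b
import Pool.Agent.Helper11.CT.Clo

set_option autoImplicit false
set_option linter.all false

namespace Helper48.Y.Y11_c2_P2_m0n0

open Helper25.KG Helper25.KW Helper55.KE Helper11.CT

noncomputable def K : Cls :=
  cE 1 [1] (kfY 1 [0,0,0,0,0,0,1,0,0,0,1])

noncomputable def base : List Con :=
  [(false,[0,0,0,0,0,0,-2,0,0,1,-2]),
  (false,[0,0,0,0,0,1,0,0,0,-1,1]),
  (false,[0,0,0,0,0,1,0,0,0,0,-1]),
  (false,[0,0,0,0,1,0,0,0,-1,0,0,-1]),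
  (false,[0,0,0,0,0,0,0,0,1,0,0,1]),
  (false,[0,0,0,0,0,0,0,0,0,1,0,-1]),
  (false,[0,0,0,0,0,0,0,0,0,0,0,1]),
  (false,[0,0,-1,0,0,0,-1,0,0,1,-1]),
  (false,[0,1,0,0,0,0,1,1,0,0,1]),
  (false,[0,1,0,0,0,0,-1,-1,0,0,-1]),
  (false,[0,0,1,0,0,0,1,0,0,0,1]),
  (false,[0,0,1,0,0,0,-1,0,0,0,-1]),
  (false,[0,0,0,0,0,0,0,0,0,1,-1]),
  (false,[0,0,0,0,0,0,0,0,0,0,1]),
  (true,[3,0,0,0,0,-1]),
  (true,[-1,0,0,0,0,1]),
  (false,[0,0,0,0,1,0,0,0,0,-2]),
  (false,[0,0,0,0,0,-1,0,0,0,1]),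
  (true,[0,0,0,0,0,1]),
  (true,[0,2,-1]),
  (false,[1,0,0,0,2,0,0,0,0,-5]),
  (true,[1,-1,1,1]),
  (true,[0,1,-1]),
  (true,[0,1,0,-1]),
  (true,[0,0,0,1]),
  (true,[0,0,-2,0,1]),
  (true,[0,-2,0,0,1]),
  (true,[-1,0,1]),
  (true,[-1,1])]

noncomputable def l0 : List Con := (false, [0,0,0,0,0,0,1,1,0,0,1]) :: base

noncomputable def r0 : List Con := (false, [0,0,0,0,0,0,-1,-1,0,0,-1]) :: base

noncomputable def l1 : List Con := (false, [0,0,0,1,0,0,-1,-1,0,0,-1]) :: l0

noncomputable def r1 : List Con := (false, [0,0,0,-1,0,0,1,1,0,0,1]) :: l0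

noncomputable def l2 : List Con := (false, [0,0,0,0,0,0,-1,0,0,0,-1]) :: l1

noncomputable def r2 : List Con := (false, [0,0,0,0,0,0,1,0,0,0,1]) :: l1

noncomputable def l3 : List Con := (true, [0,1,-1,0,0,0,0,-1]) :: r2

noncomputable def r3 : List Con := (true, [1,-1,1,0,0,0,0,1]) :: r2

noncomputable def l4 : List Con := (false, [1,0,0,1,-1,0,0,0,1,-1,0,1]) :: l3

noncomputable def r4 : List Con := (false, [-1,0,0,-1,1,0,0,0,-1,1,0,-1]) :: l3

noncomputable def l5 : List Con := (true, [1,0,0,0,0,0,0,-1]) :: r4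

noncomputable def r5 : List Con := (true, [0,0,0,0,0,0,0,1]) :: r4

noncomputable def l6 : List Con := (false, [1,0,0,0,0,0,0,0,1,-1,0,1]) :: r5

noncomputable def r6 : List Con := (false, [-1,0,0,0,0,0,0,0,-1,1,0,-1]) :: r5

noncomputable def l7 : List Con := (false, [1,-1,0,0,0,0,0,0,1,-1,0,1]) :: l6

noncomputable def r7 : List Con := (false, [-1,1,0,0,0,0,0,0,-1,1,0,-1]) :: l6

noncomputable def l8 : List Con := (false, [0,0,0,-1,0,0,1,1,0,1,1]) :: r7

noncomputable def r8 : List Con := (false, [0,0,0,1,0,0,-1,-1,0,-1,-1]) :: r7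

noncomputable def l9 : List Con := (true, [0,0,2,2,-1]) :: r8

noncomputable def r9 : List Con := (true, [1,0,-2,-2,1]) :: r8

noncomputable def l10 : List Con := (false, [0,1,0,-1,0,0,-1,-1,0,1,-1]) :: r9

noncomputable def r10 : List Con := (false, [0,-1,0,1,0,0,1,1,0,-1,1]) :: r9

noncomputable def l11 : List Con := (false, [0,0,0,0,0,0,0,0,-1,1,0,-1]) :: r10

noncomputable def r11 : List Con := (false, [0,0,0,0,0,0,0,0,1,-1,0,1]) :: r10

noncomputable def l12 : List Con := (true, [1,0,2,2,-1]) :: r11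

noncomputable def r12 : List Con := (true, [0,0,-2,-2,1]) :: r11

noncomputable def l13 : List Con := (false, [-1,1,0,0,0,0,0,0,-1,0,0,-1]) :: r12

noncomputable def r13 : List Con := (false, [1,-1,0,0,0,0,0,0,1,0,0,1]) :: r12

noncomputable def l14 : List Con := (false, [1,0,0,0,0,0,-1,-1,1,0,-1,1]) :: l13

noncomputable def r14 : List Con := (false, [-1,0,0,0,0,0,1,1,-1,0,1,-1]) :: l13

noncomputable def l15 : List Con := (false, [0,0,1,0,0,0,0,0,-1,1,0,-1]) :: r14

noncomputable def r15 : List Con := (false, [0,0,-1,0,0,0,0,0,1,-1,0,1]) :: r14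

noncomputable def l16 : List Con := (false, [1,-1,0,0,0,0,1,1,1,-1,1,1]) :: r15

noncomputable def r16 : List Con := (false, [-1,1,0,0,0,0,-1,-1,-1,1,-1,-1]) :: r15

noncomputable def l17 : List Con := (false, [0,0,0,0,0,0,0,0,0,-1,1,1]) :: r16

noncomputable def r17 : List Con := (false, [0,0,0,0,0,0,0,0,0,1,-1,-1]) :: r16

noncomputable def l18 : List Con := (false, [0,0,0,0,0,0,0,0,0,0,-1,1]) :: l17

noncomputable def r18 : List Con := (false, [0,0,0,0,0,0,0,0,0,0,1,-1]) :: l17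

noncomputable def l19 : List Con := (false, [0,0,0,0,0,0,1,0,1,-2,1,1]) :: l18

noncomputable def r19 : List Con := (false, [0,0,0,0,0,0,-1,0,-1,2,-1,-1]) :: l18

noncomputable def l20 : List Con := (false, [0,0,1,0,0,0,-1,0,-1,2,-1,-1]) :: l19

noncomputable def r20 : List Con := (false, [0,0,-1,0,0,0,1,0,1,-2,1,1]) :: l19

noncomputable def l21 : List Con := (false, [0,0,2,0,0,0,-1,0,-1,2,-1,-1]) :: r20

noncomputable def r21 : List Con := (false, [0,0,-2,0,0,0,1,0,1,-2,1,1]) :: r20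

noncomputable def l22 : List Con := (false, [0,0,0,0,0,-1,0,0,0,0,0,1]) :: r21

noncomputable def r22 : List Con := (false, [0,0,0,0,0,1,0,0,0,0,0,-1]) :: r21

noncomputable def l23 : List Con := (false, [1,1,0,-1,0,0,-1,-1,1,1,-1,1]) :: r22

noncomputable def r23 : List Con := (false, [-1,-1,0,1,0,0,1,1,-1,-1,1,-1]) :: r22

noncomputable def l24 : List Con := (false, [1,0,0,-1,0,0,1,1,1,0,1,1]) :: r23

noncomputable def r24 : List Con := (false, [-1,0,0,1,0,0,-1,-1,-1,0,-1,-1]) :: r23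

noncomputable def l25 : List Con := (false, [0,0,0,0,0,-1,0,0,0,2,-1,-1]) :: r24

noncomputable def r25 : List Con := (false, [0,0,0,0,0,1,0,0,0,-2,1,1]) :: r24

noncomputable def l26 : List Con := (false, [2,-1,0,0,0,0,1,1,2,-1,1,2]) :: l25

noncomputable def r26 : List Con := (false, [-2,1,0,0,0,0,-1,-1,-2,1,-1,-2]) :: l25

noncomputable def l27 : List Con := (false, [0,0,1,0,0,0,2,0,0,-1,2]) :: r26

noncomputable def r27 : List Con := (false, [0,0,-1,0,0,0,-2,0,0,1,-2]) :: r26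

noncomputable def l28 : List Con := (false, [2,0,0,0,0,0,-1,-1,2,0,-1,2]) :: r27

noncomputable def r28 : List Con := (false, [-2,0,0,0,0,0,1,1,-2,0,1,-2]) :: r27

noncomputable def l29 : List Con := (true, [-2,0,-1,-1,0,0,0,2]) :: r28

noncomputable def r29 : List Con := (true, [3,0,1,1,0,0,0,-2]) :: r28

noncomputable def l30 : List Con := (false, [1,0,0,-1,1,0,-2,-2,1,1,-2,1]) :: l29

noncomputable def r30 : List Con := (false, [-1,0,0,1,-1,0,2,2,-1,-1,2,-1]) :: l29

noncomputable def l31 : List Con := (false, [0,0,0,0,0,-2,0,0,0,1,1]) :: l30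

noncomputable def r31 : List Con := (false, [0,0,0,0,0,2,0,0,0,-1,-1]) :: l30

noncomputable def l32 : List Con := (false, [1,1,0,0,0,0,-2,-2,1,1,-2,1]) :: r31

noncomputable def r32 : List Con := (false, [-1,-1,0,0,0,0,2,2,-1,-1,2,-1]) :: r31

noncomputable def l33 : List Con := (false, [2,0,0,2,-1,0,0,0,2,-2,0,2]) :: r29

noncomputable def r33 : List Con := (false, [-2,0,0,-2,1,0,0,0,-2,2,0,-2]) :: r29

noncomputable def l34 : List Con := (false, [1,1,0,-1,0,0,-1,-1,1,1,-1,1]) :: r17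

noncomputable def r34 : List Con := (false, [-1,-1,0,1,0,0,1,1,-1,-1,1,-1]) :: r17

noncomputable def l35 : List Con := (false, [1,0,0,-1,0,0,1,1,1,0,1,1]) :: r34

noncomputable def r35 : List Con := (false, [-1,0,0,1,0,0,-1,-1,-1,0,-1,-1]) :: r34

noncomputable def l36 : List Con := (false, [0,0,1,0,0,0,2,0,0,-1,2]) :: r35

noncomputable def r36 : List Con := (false, [0,0,-1,0,0,0,-2,0,0,1,-2]) :: r35

noncomputable def l37 : List Con := (false, [0,0,0,0,0,1,0,0,0,-1,0,1]) :: r36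

noncomputable def r37 : List Con := (false, [0,0,0,0,0,-1,0,0,0,1,0,-1]) :: r36

noncomputable def l38 : List Con := (false, [2,-1,0,1,0,0,-1,-1,2,0,-1,2]) :: r37

noncomputable def r38 : List Con := (false, [-2,1,0,-1,0,0,1,1,-2,0,1,-2]) :: r37

noncomputable def l39 : List Con := (false, [0,0,2,0,0,0,-1,0,-1,1,-1,-1]) :: r38

noncomputable def r39 : List Con := (false, [0,0,-2,0,0,0,1,0,1,-1,1,1]) :: r38

noncomputable def l40 : List Con := (false, [0,0,2,0,0,0,1,0,-1,1,1,-1]) :: r39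

noncomputable def r40 : List Con := (false, [0,0,-2,0,0,0,-1,0,1,-1,-1,1]) :: r39

noncomputable def l41 : List Con := (false, [2,0,0,1,-1,0,1,1,2,-1,1,2]) :: r40

noncomputable def r41 : List Con := (false, [-2,0,0,-1,1,0,-1,-1,-2,1,-1,-2]) :: r40

noncomputable def l42 : List Con := (true, [0,0,-2,-2,1,0,0,-1]) :: r41

noncomputable def r42 : List Con := (true, [1,0,2,2,-1,0,0,1]) :: r41

noncomputable def l43 : List Con := (true, [1,0,-1,0,0,0,0,2]) :: r0

noncomputable def r43 : List Con := (true, [0,0,1,0,0,0,0,-2]) :: r0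

noncomputable def l44 : List Con := (false, [0,-1,0,1,0,0,-1,-1,0,0,-1]) :: r43

noncomputable def r44 : List Con := (false, [0,1,0,-1,0,0,1,1,0,0,1]) :: r43

noncomputable def l45 : List Con := (false, [0,0,0,0,0,0,-1,0,0,0,-1]) :: l44

noncomputable def r45 : List Con := (false, [0,0,0,0,0,0,1,0,0,0,1]) :: l44

noncomputable def l46 : List Con := (false, [1,0,0,1,-1,0,0,0,1,-1,0,1]) :: r45

noncomputable def r46 : List Con := (false, [-1,0,0,-1,1,0,0,0,-1,1,0,-1]) :: r45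

noncomputable def l47 : List Con := (false, [0,0,0,1,0,0,0,0,0,-1]) :: r46

noncomputable def r47 : List Con := (false, [0,0,0,-1,0,0,0,0,0,1]) :: r46

noncomputable def l48 : List Con := (false, [0,0,0,-1,0,0,-1,-1,0,1,-1]) :: l47

noncomputable def r48 : List Con := (false, [0,0,0,1,0,0,1,1,0,-1,1]) :: l47

noncomputable def l49 : List Con := (false, [1,-1,0,0,0,0,-1,0,1,0,-1,1]) :: r48

noncomputable def r49 : List Con := (false, [-1,1,0,0,0,0,1,0,-1,0,1,-1]) :: r48

noncomputable def l50 : List Con := (false, [1,0,0,0,0,0,0,0,1,-1,0,1]) :: r49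

noncomputable def r50 : List Con := (false, [-1,0,0,0,0,0,0,0,-1,1,0,-1]) :: r49

noncomputable def l51 : List Con := (false, [1,0,0,0,0,0,1,1,1,-1,1,1]) :: l50

noncomputable def r51 : List Con := (false, [-1,0,0,0,0,0,-1,-1,-1,1,-1,-1]) :: l50

noncomputable def l52 : List Con := (false, [1,-1,0,0,0,0,-1,-1,1,0,-1,1]) :: r51

noncomputable def r52 : List Con := (false, [-1,1,0,0,0,0,1,1,-1,0,1,-1]) :: r51

noncomputable def l53 : List Con := (false, [0,0,0,0,0,0,1,0,1,-1,1,1]) :: r52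

noncomputable def r53 : List Con := (false, [0,0,0,0,0,0,-1,0,-1,1,-1,-1]) :: r52

noncomputable def l54 : List Con := (false, [0,0,1,0,0,0,0,0,-1,1,0,-1]) :: l53

noncomputable def r54 : List Con := (false, [0,0,-1,0,0,0,0,0,1,-1,0,1]) :: l53

noncomputable def l55 : List Con := (false, [0,0,0,0,0,1,0,0,0,-1,0,1]) :: r54

noncomputable def r55 : List Con := (false, [0,0,0,0,0,-1,0,0,0,1,0,-1]) :: r54

noncomputable def l56 : List Con := (false, [0,0,-1,0,0,0,-1,0,1,-1,-1,1]) :: l55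

noncomputable def r56 : List Con := (false, [0,0,1,0,0,0,1,0,-1,1,1,-1]) :: l55

noncomputable def l57 : List Con := (false, [0,0,0,0,0,0,0,0,0,0,-1,1]) :: l56

noncomputable def r57 : List Con := (false, [0,0,0,0,0,0,0,0,0,0,1,-1]) :: l56


end Helper48.Y.Y11_c2_P2_m0n0
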