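import Pool.Agent.Helper48.Y.Y11_c2_P3_m1n1_q

set_option autoImplicit false
set_option linter.all false

namespace Helper48.Y.Y11_c2_P3_m1n1

open Helper25.KG Helper25.KW Helper55.KE Helper11.CT

noncomputable def t0 : Tre :=
  (.S ⟨1,0,[0,0,0,0,0,0,0,1],[0,0,1],[0,1,0,0,0,0,0,1],(⟨0,[(16,0)]⟩,⟨0,[(15,0)]⟩),⟨0,[(5,0)]⟩,.k,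
  .k,⟨true,0,⟨0,[(32,0)]⟩,⟨0,[]⟩⟩,⟨false,1,⟨1,[(6,0),(0,0),(22,0)]⟩,⟨0,[]⟩⟩,⟨false,0,⟨0,[(28,0)]⟩,
  ⟨0,[(27,0),(2,0)]⟩⟩,⟨true,0,⟨0,[(28,0)]⟩,⟨0,[(27,0)]⟩⟩,[.e ⟨false,0,⟨4,[(1,3),(9,0),(2,0),(6,1)]⟩,
  ⟨0,[(0,0)]⟩⟩ ⟨false,0,⟨0,[(1,0)]⟩,⟨0,[(0,0),(31,0)]⟩⟩,.o ⟨false,1,⟨1,[(1,1),(11,1),(4,0),(11,0)]⟩,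
  ⟨0,[(12,0)]⟩⟩,.o ⟨false,1,⟨1,[(13,1),(4,0),(10,0)]⟩,⟨0,[(2,0)]⟩⟩,.a ⟨true,0,⟨0,[(13,0)]⟩,⟨0,[(10,
  0)]⟩⟩ ⟨false,0,⟨0,[(1,0)]⟩,⟨1,[(0,1),(12,0),(0,0)]⟩⟩ ⟨true,0,⟨0,[(1,0)]⟩,⟨0,[(12,0),(0,0)]⟩⟩]⟩)

theorem ok0 : chk K t0 l2 = true := by decide +kernel

noncomputable def t1 : Tre :=
  (.S ⟨1,0,[0,0,0,0,0,0,0,1],[0,0,1],[],(⟨0,[(17,0)]⟩,⟨0,[(16,0)]⟩),⟨0,[(6,0)]⟩,.k,.k,⟨true,1,⟨0,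
  [(0,0),(27,0)]⟩,⟨0,[(1,0)]⟩⟩,⟨false,1,⟨1,[(7,0),(0,0),(22,0)]⟩,⟨0,[]⟩⟩,⟨false,1,⟨0,[(0,0)]⟩,⟨0,
  [(1,0),(26,0),(2,0)]⟩⟩,⟨true,0,⟨0,[(29,0)]⟩,⟨0,[(28,0)]⟩⟩,[.e ⟨false,1,⟨1,[(7,0),(0,0),(21,0)]⟩,
  ⟨0,[]⟩⟩ ⟨false,0,⟨0,[(2,0)]⟩,⟨0,[(0,0),(27,0)]⟩⟩,.o ⟨false,1,⟨1,[(2,1),(11,1),(4,0),(11,0)]⟩,⟨0,
  [(13,0)]⟩⟩,.o ⟨false,1,⟨1,[(14,1),(4,0),(10,0)]⟩,⟨0,[(3,0)]⟩⟩,.a ⟨true,0,⟨0,[(14,0)]⟩,⟨0,[(11,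
  0)]⟩⟩ ⟨false,1,⟨1,[(30,0),(0,0)]⟩,⟨1,[(14,0),(0,0)]⟩⟩ ⟨true,0,⟨0,[(2,0)]⟩,⟨0,[(13,0),(0,0)]⟩⟩]⟩)

theorem ok1 : chk K t1 l3 = true := by decide +kernel

noncomputable def t2 : Tre :=
  (.R ⟨2,true,false,false,[0,1],[0,1,1],[0,0,1,1],(⟨0,[]⟩,⟨0,[]⟩),(⟨22,[(8,2),(0,2),(8,22),(0,4),(4,
  5),(0,2)]⟩,⟨0,[(6,0)]⟩),⟨0,[]⟩,.k,.k,.k,.k,.k,.k,⟨true,1,⟨1,[(14,1),(0,1),(15,0),(0,0)]⟩,⟨0,[(1,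
  0),(25,0)]⟩⟩,⟨false,1,⟨0,[(15,0),(15,0)]⟩,⟨0,[(4,0)]⟩⟩,⟨false,1,⟨1,[(8,0),(0,0),(22,0)]⟩,⟨0,[]⟩⟩,
  ⟨true,0,⟨5,[(0,1),(0,1),(11,1),(1,1),(15,0),(0,0)]⟩,⟨0,[(14,0)]⟩⟩,⟨true,0,⟨0,[(30,0)]⟩,⟨0,[(29,
  0)]⟩⟩,⟨false,0,⟨0,[(0,0)]⟩,⟨0,[(14,0),(14,0),(2,0)]⟩⟩,[]⟩)

theorem ok2 : chk K t2 l4 = true := by decide +kernel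

noncomputable def t3 : Tre :=
  (.S ⟨1,0,[0,0,-1,-1],[1,-1],[0,1,-1,-1],(⟨0,[(23,0)]⟩,⟨0,[(24,0)]⟩),⟨0,[(8,0),(0,0)]⟩,.k,(.r (-1)
  ⟨0,[(0,0)]⟩ ⟨0,[(29,1),(6,1)]⟩),⟨true,0,⟨0,[(36,0)]⟩,⟨0,[]⟩⟩,⟨false,1,⟨1,[(10,0),(0,0),(22,0)]⟩,
  ⟨0,[]⟩⟩,⟨false,0,⟨0,[(32,0)]⟩,⟨0,[(31,0),(2,0)]⟩⟩,⟨true,0,⟨0,[(32,0)]⟩,⟨0,[(31,0)]⟩⟩,[.e ⟨false,1,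
  ⟨3,[(0,1),(9,0),(0,0),(13,1),(7,0)]⟩,⟨0,[(29,0)]⟩⟩ ⟨false,1,⟨1,[(0,0),(32,0)]⟩,⟨0,[(29,0),(6,
  0)]⟩⟩,.o ⟨false,1,⟨0,[(31,0),(2,0)]⟩,⟨0,[(1,0)]⟩⟩,.o ⟨false,0,⟨1,[(17,0),(0,0)]⟩,⟨1,[(22,0),(10,
  0)]⟩⟩,.a ⟨true,(-1),⟨8,[(2,4),(0,4),(4,0),(0,0),(7,4),(3,1),(5,3),(1,9),(5,2)]⟩,⟨0,[(33,0)]⟩⟩
  ⟨false,1,⟨1,[(0,0),(32,0)]⟩,⟨1,[(17,0),(0,0),(10,1)]⟩⟩ ⟨true,1,⟨1,[(0,0),(32,0)]⟩,⟨0,[(4,0),(11,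
  0),(0,0),(11,0)]⟩⟩]⟩)

theorem ok3 : chk K t3 l6 = true := by decide +kernel

noncomputable def t4 : Tre :=
  (.I [0,0,2,0,-1,2] (.S ⟨1,0,[0,1,-1,-1],[1,-1],[1,0,1],(⟨0,[(25,0)]⟩,⟨0,[(26,0)]⟩),⟨0,[(10,0),(0,
  0)]⟩,.k,(.x 1 ⟨0,[(0,0)]⟩ ⟨0,[(24,0),(0,1),(9,0)]⟩),⟨false,0,⟨1,[(19,0),(0,0),(10,1)]⟩,⟨0,[(1,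
  0)]⟩⟩,⟨true,0,⟨0,[(38,0)]⟩,⟨0,[]⟩⟩,⟨true,(-1),⟨0,[(2,0)]⟩,⟨0,[(1,0),(31,0)]⟩⟩,⟨false,0,⟨0,[(34,
  0)]⟩,⟨0,[(33,0),(2,0)]⟩⟩,[.o ⟨false,0,⟨0,[(33,0)]⟩,⟨0,[(3,0),(32,0)]⟩⟩,.e ⟨false,1,⟨1,[(12,0),(0,
  0),(22,0)]⟩,⟨0,[(32,0)]⟩⟩ ⟨false,1,⟨0,[(1,0)]⟩,⟨1,[(2,0),(9,0),(0,0)]⟩⟩,.o ⟨false,0,⟨1,[(19,0),(0,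
  0)]⟩,⟨1,[(24,0),(10,0)]⟩⟩,.a ⟨true,(-1),⟨0,[(0,0),(9,0),(0,0)]⟩,⟨0,[(35,0)]⟩⟩ ⟨true,0,⟨0,[]⟩,⟨0,
  [(38,0)]⟩⟩ ⟨false,1,⟨0,[(1,0)]⟩,⟨1,[(19,0),(0,0),(10,1)]⟩⟩]⟩) (.I [0,0,0,0,1,0,0,0,-1] (.I [1,0,0,
  0,0,3,0,0,1] (.I [0,1,1,-1,0,0,0,-1] (.I [1,0,1,0,0,2,1] (.I [0,1,0,-1,0,-1,-1,-1] (.I [5,0,0,0,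
  -1,6] (.I [-1,0,2,0,0,0,0,-1] (.C [(0,1),(6,2),(1,0),(2,1),(22,1),(0,0),(6,0)]) (.C [(0,1),(3,0),
  (4,0),(1,0),(14,0),(16,0)])) (.C [(0,0),(33,1),(0,0)])) (.C [(0,0),(8,0),(6,0)])) (.C [(0,0),(13,
  0),(8,0),(8,0)])) (.C [(0,0),(6,0),(14,0)])) (.C [(0,0),(14,0),(0,0),(13,0)])) (.C [(0,0),(12,0),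
  (2,0)])))

theorem ok4 : chk K t4 l7 = true := by decide +kernel

noncomputable def t5 : Tre :=
  (.R ⟨1,false,false,false,[0,0,1],[0,1],[],(⟨0,[(22,0)]⟩,⟨0,[(21,0)]⟩),(⟨0,[(26,0)]⟩,⟨0,[(25,0)]⟩),
  ⟨0,[(11,0)]⟩,.k,.k,.k,.k,(.r (-1) ⟨0,[(5,0),(27,0),(1,0),(0,0)]⟩ ⟨1,[(0,1),(18,2),(0,0)]⟩),.k,
  ⟨true,1,⟨1,[(33,1),(1,0),(0,0)]⟩,⟨0,[(1,0)]⟩⟩,⟨false,1,⟨1,[(16,1),(7,0),(10,0)]⟩,⟨0,[(19,0)]⟩⟩,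
  ⟨true,1,⟨1,[(18,1),(0,1),(15,0),(0,0)]⟩,⟨0,[(6,0)]⟩⟩,⟨false,1,⟨3,[(0,1),(11,0),(0,0),(4,1),(17,
  2)]⟩,⟨1,[(5,1),(13,1),(15,0),(0,0)]⟩⟩,⟨true,1,⟨3,[(0,1),(11,0),(0,0),(4,1),(0,3),(15,1),(0,0)]⟩,
  ⟨0,[(5,0)]⟩⟩,⟨true,0,⟨0,[(0,0)]⟩,⟨1,[(5,1),(13,1),(13,1),(1,0),(0,0)]⟩⟩,[.e ⟨false,1,⟨1,[(12,0),
  (0,0),(21,0)]⟩,⟨0,[]⟩⟩ ⟨false,0,⟨1,[(0,1),(4,1),(29,0),(0,0)]⟩,⟨1,[(19,1),(13,1),(1,0),(0,0)]⟩⟩,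
  .o ⟨false,1,⟨0,[(3,0),(32,0)]⟩,⟨0,[(33,0)]⟩⟩,.o ⟨false,1,⟨1,[(19,1),(4,0),(10,0)]⟩,⟨0,[(8,0)]⟩⟩,
  .a ⟨true,0,⟨0,[(19,0)]⟩,⟨0,[(16,0)]⟩⟩ ⟨false,1,⟨1,[(35,0),(0,0)]⟩,⟨1,[(19,0),(0,0)]⟩⟩ ⟨true,0,⟨1,
  [(0,1),(4,1),(29,0),(0,0)]⟩,⟨0,[(19,0),(13,0)]⟩⟩]⟩)

theorem ok5 : chk K t5 l8 = true := by decide +kernel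

noncomputable def t6 : Tre :=
  (.Q [0,0,0,0,0,2,0,0,0,-1,1] (.p true [0,0,1] [1] (⟨0,[(23,0)]⟩,⟨0,[(22,0)]⟩) .k 1 (⟨0,[]⟩,⟨0,
  []⟩) .k .k) (.R ⟨0,false,false,false,[1,-1,-1],[1,-1],[1,0,1],(⟨0,[(12,0)]⟩,⟨4,[(0,1),(13,0),(0,
  0),(8,2),(0,0),(5,0)]⟩),(⟨0,[(27,0)]⟩,⟨0,[(28,0)]⟩),⟨0,[(0,0)]⟩,.k,.k,(.r (-2) ⟨1,[(1,1),(4,1),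
  (30,0),(0,0)]⟩ ⟨2,[(4,1),(3,0),(0,0),(9,0),(2,0),(10,1)]⟩),.k,.k,.k,⟨true,(-1),⟨0,[(3,0)]⟩,⟨13,
  [(1,7),(0,1),(3,1),(4,3),(14,1),(10,2),(0,0)]⟩⟩,⟨false,1,⟨0,[(1,0),(34,0)]⟩,⟨0,[(10,0)]⟩⟩,⟨false,
  (-1),⟨0,[(3,0),(4,0),(29,0)]⟩,⟨1,[(1,1),(18,1),(16,0),(0,0)]⟩⟩,⟨true,0,⟨0,[(9,0),(11,0)]⟩,⟨0,[(20,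
  0)]⟩⟩,⟨false,0,⟨0,[]⟩,⟨0,[]⟩⟩,⟨false,0,⟨0,[]⟩,⟨0,[]⟩⟩,[.a ⟨true,0,⟨1,[(31,0),(3,1),(2,0)]⟩,⟨0,
  [(36,0)]⟩⟩ ⟨false,0,⟨0,[]⟩,⟨1,[(14,0),(0,0),(21,0)]⟩⟩ ⟨true,1,⟨0,[(1,0)]⟩,⟨0,[(3,0),(6,0)]⟩⟩,.o
  ⟨false,1,⟨4,[(1,1),(0,0),(3,0),(15,1),(15,2)]⟩,⟨0,[(5,0)]⟩⟩,.e ⟨true,0,⟨1,[(21,0),(0,0)]⟩,⟨0,[(34,
  0)]⟩⟩ ⟨true,1,⟨0,[(1,0)]⟩,⟨1,[(4,0),(3,0),(1,0),(9,0)]⟩⟩,.o ⟨false,(-1),⟨1,[(3,1),(2,0),(0,0),(2,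
  0),(27,0)]⟩,⟨1,[(1,1),(3,1),(31,0),(0,0)]⟩⟩]⟩) (.Q [0,0,0,2,0,0,1,1,0,-1,1] (.p true [0,0,1] [1]
  (⟨0,[(24,0)]⟩,⟨0,[(23,0)]⟩) .k 1 (⟨0,[]⟩,⟨0,[]⟩) .k .k) (.Q [0,0,0,-1,0,0,-1,-1,0,1,-1] (.p false
  [0,0,1] [1] (⟨0,[(25,0)]⟩,⟨0,[(24,0)]⟩) .k 1 (⟨0,[]⟩,⟨0,[]⟩) .k .k) (.R ⟨1,true,false,false,[1,0,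
  -1],[0,1],[0,1,0,0,0,0,0,-1],(⟨0,[(25,0)]⟩,⟨0,[(26,0)]⟩),(⟨0,[(30,0)]⟩,⟨0,[(29,0)]⟩),⟨0,[(14,0)]⟩,
  .k,.k,.k,.k,(.r (-2) ⟨1,[(0,1),(2,1),(24,0),(10,0)]⟩ ⟨2,[(1,0),(3,1),(4,0),(2,0),(7,0),(13,1)]⟩),
  .k,⟨true,1,⟨0,[(3,0),(18,0)]⟩,⟨0,[(5,0),(4,0),(29,0)]⟩⟩,⟨false,2,⟨1,[(3,1),(3,1),(31,0),(0,0)]⟩,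
  ⟨15,[(0,5),(4,11),(3,5),(2,1),(7,7),(12,0),(6,2)]⟩⟩,⟨true,0,⟨0,[(42,0)]⟩,⟨0,[]⟩⟩,⟨false,1,⟨3,[(1,
  1),(19,1),(6,0),(11,2)]⟩,⟨0,[(0,0)]⟩⟩,⟨false,0,⟨0,[(38,0)]⟩,⟨9,[(0,1),(2,3),(0,1),(19,3),(3,0),
  (11,4)]⟩⟩,⟨true,0,⟨0,[(1,0)]⟩,⟨0,[(0,0),(36,0)]⟩⟩,[]⟩) (.I [0,0,0,0,1,0,0,0,-1] (.I [1,0,1,0,0,1,
  1] (.I [0,1,0,-3] (.I [1,0,0,0,0,3,0,0,1] (.I [0,1,1,-1,0,0,0,-1] (.I [1,0,0,-2,0,1,1,1] (.I [0,1,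
  0,-1,0,-1,-1,-1] (.I [0,0,0,1,0,-2,1,1] (.C [(0,1),(0,1),(38,1),(0,0),(6,0)]) (.C [(0,0),(7,0),(1,
  0)])) (.C [(0,0),(14,0),(6,0)])) (.C [(0,0),(7,0),(1,0),(27,0)])) (.C [(0,0),(12,0),(14,0)])) (.C
  [(0,0),(20,0),(0,0),(13,0)])) (.C [(0,0),(6,0),(3,0)])) (.C [(0,0),(3,0),(20,0),(8,0)])) (.C [(0,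
  0),(16,0),(2,0)]))) (.Q [0,0,-2,0,0,0,-1,0,0,1,-1] (.p false [0,0,1] [1] (⟨0,[(25,0)]⟩,⟨0,[(24,
  0)]⟩) .k 1 (⟨0,[]⟩,⟨0,[]⟩) .k .k) (.R ⟨0,false,false,true,[0,-1,1],[1,-1],[0,1,0,-1],(⟨0,[(15,
  0)]⟩,⟨22,[(16,2),(0,2),(7,22),(1,4),(4,5),(0,2)]⟩),(⟨0,[(29,0)]⟩,⟨0,[(30,0)]⟩),⟨2,[(2,1),(22,0),
  (1,0),(4,2)]⟩,.k,.k,(.r (-1) ⟨2,[(0,0),(3,2),(8,0),(14,0),(10,1)]⟩ ⟨0,[(22,0),(0,0),(11,0),(2,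
  0)]⟩),.k,.k,.k,⟨true,0,⟨1,[(23,0),(0,0)]⟩,⟨0,[]⟩⟩,⟨false,0,⟨0,[(20,0)]⟩,⟨3,[(3,1),(3,1),(15,1),(4,
  0),(11,0)]⟩⟩,⟨true,0,⟨0,[(22,0),(0,0)]⟩,⟨0,[(11,0)]⟩⟩,⟨false,0,⟨2,[(1,0),(20,1),(10,0),(4,1),(1,
  0)]⟩,⟨1,[(11,1),(11,1),(4,0),(11,0)]⟩⟩,⟨false,0,⟨0,[]⟩,⟨0,[]⟩⟩,⟨false,0,⟨0,[]⟩,⟨0,[]⟩⟩,[.o ⟨false,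
  0,⟨0,[(37,0)]⟩,⟨0,[(7,0),(32,0)]⟩⟩,.a ⟨true,0,⟨61,[(1,10),(1,17),(0,10),(8,8),(13,5),(1,5),(3,17),
  (7,17)]⟩,⟨0,[(38,0)]⟩⟩ ⟨false,1,⟨9,[(1,0),(1,5),(0,0),(8,2),(14,1),(10,1)]⟩,⟨0,[(38,0)]⟩⟩ ⟨true,0,
  ⟨3,[(0,1),(0,0),(2,0),(8,0)]⟩,⟨1,[(6,0),(16,1),(4,0)]⟩⟩,.a ⟨true,0,⟨0,[(23,0)]⟩,⟨0,[(20,0)]⟩⟩
  ⟨true,0,⟨0,[(37,0)]⟩,⟨0,[(38,0)]⟩⟩ ⟨false,0,⟨3,[(0,1),(0,0),(2,0),(8,0)]⟩,⟨0,[(7,0),(15,0),(16,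
  0)]⟩⟩,.a ⟨true,0,⟨1,[(23,2),(0,0)]⟩,⟨0,[(0,0)]⟩⟩ ⟨false,1,⟨9,[(1,0),(1,5),(0,0),(8,2),(14,1),(10,
  1)]⟩,⟨0,[(35,0)]⟩⟩ ⟨true,0,⟨0,[(0,0),(36,0)]⟩,⟨1,[(6,0),(16,1),(4,0)]⟩⟩]⟩) (.Q [-1,-1,0,0,1,0,0,0,
  -1,0,0,-1] (.p false [0,0,0,0,1] [] (⟨0,[(19,0)]⟩,⟨0,[(18,0)]⟩) .k 0 (⟨0,[]⟩,⟨0,[]⟩) .k .k) (.Q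
  [-1,0,0,1,0,0,0,0,-1,0,0,-1] (.p false [0,0,0,0,1] [] (⟨0,[(20,0)]⟩,⟨0,[(19,0)]⟩) .k 0 (⟨0,[]⟩,⟨0,
  []⟩) .k .k) (.R ⟨2,true,false,true,[0,1],[0,0,0,0,1],[2,1],(⟨0,[]⟩,⟨0,[]⟩),(⟨0,[(21,0)]⟩,⟨0,[(20,
  0)]⟩),⟨0,[]⟩,.k,.k,.k,(.r 0 ⟨9,[(8,4),(9,2),(0,2),(22,1),(1,3)]⟩ ⟨9,[(3,0),(1,5),(0,0),(8,2),(14,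
  1),(10,1)]⟩),.k,.k,⟨true,0,⟨0,[]⟩,⟨2,[(2,0),(12,0),(9,0)]⟩⟩,⟨false,0,⟨0,[(19,0)]⟩,⟨5,[(0,2),(0,0),
  (4,0),(3,0),(7,1),(22,2)]⟩⟩,⟨false,1,⟨9,[(3,0),(1,5),(0,0),(8,2),(14,1),(10,1)]⟩,⟨0,[(7,0),(30,0),
  (3,0)]⟩⟩,⟨true,0,⟨0,[(19,0),(19,0)]⟩,⟨0,[(0,0)]⟩⟩,⟨true,0,⟨0,[(38,0)]⟩,⟨0,[(43,0)]⟩⟩,⟨false,0,⟨0,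
  [(19,0)]⟩,⟨0,[(1,0)]⟩⟩,[]⟩) (.Q [-1,1,0,0,0,0,0,0,-1,0,0,-1] (.p false [0,0,0,0,1] [] (⟨0,[(21,
  0)]⟩,⟨0,[(20,0)]⟩) .k 0 (⟨0,[]⟩,⟨0,[]⟩) .k .k) (.Q [0,0,0,0,0,-1,0,0,0,1,0,-1] (.ed true [0,1,0,0,
  1] .k) (.Q [0,0,1,0,0,0,0,0,-1,0,0,-1] (.p false [0,0,0,0,1] [] (⟨0,[(23,0)]⟩,⟨0,[(22,0)]⟩) .k 0
  (⟨0,[]⟩,⟨0,[]⟩) .k .k) (.S ⟨1,0,[-1,1],[1,0,0,0,-1],[-1],(⟨0,[(23,0)]⟩,⟨0,[(24,0)]⟩),⟨0,[(1,0)]⟩,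
  .k,(.r (-1) ⟨15,[(6,0),(1,5),(0,0),(8,2),(20,1),(2,5),(1,4),(0,2)]⟩ ⟨1,[(11,0),(9,0),(0,0)]⟩),
  ⟨false,1,⟨1,[(21,0),(0,0),(22,0)]⟩,⟨0,[]⟩⟩,⟨true,0,⟨0,[(47,0)]⟩,⟨0,[]⟩⟩,⟨true,0,⟨0,[(43,0)]⟩,⟨0,
  [(42,0)]⟩⟩,⟨false,0,⟨0,[(43,0)]⟩,⟨13,[(3,5),(2,1),(2,1),(11,5),(11,0),(11,6)]⟩⟩,[.o ⟨false,0,⟨0,
  [(2,0)]⟩,⟨1,[(22,1),(10,0),(11,0)]⟩⟩,.e ⟨false,1,⟨0,[(41,0),(3,0)]⟩,⟨0,[(47,0)]⟩⟩ ⟨false,1,⟨9,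
  [(21,3),(0,3),(21,4),(0,0),(1,1)]⟩,⟨0,[]⟩⟩,.a ⟨true,0,⟨1,[(2,1),(35,0),(6,0)]⟩,⟨0,[(22,0)]⟩⟩
  ⟨false,1,⟨4,[(21,1),(0,1),(22,2),(1,0)]⟩,⟨0,[]⟩⟩ ⟨true,0,⟨0,[(47,0)]⟩,⟨0,[]⟩⟩,.o ⟨false,0,⟨0,[(0,
  0)]⟩,⟨1,[(22,1),(10,0),(10,0)]⟩⟩]⟩) (.S ⟨1,4,[],[1,0,0,0,-1],[0,1,0,-1],(⟨0,[(23,0)]⟩,⟨0,[(24,
  0)]⟩),⟨0,[(1,0)]⟩,.k,(.r (-1) ⟨15,[(6,0),(1,5),(0,0),(8,2),(20,1),(2,5),(1,4),(0,2)]⟩ ⟨1,[(11,0),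
  (9,0),(0,0)]⟩),⟨true,0,⟨0,[(42,0)]⟩,⟨0,[(43,0)]⟩⟩,⟨false,0,⟨0,[(22,0)]⟩,⟨0,[(4,0)]⟩⟩,⟨false,0,⟨0,
  []⟩,⟨1,[(21,0),(0,0),(22,0)]⟩⟩,⟨true,(-1),⟨0,[(0,0),(9,0),(30,0)]⟩,⟨12,[(2,0),(1,5),(1,1),(2,1),
  (11,5),(17,0),(2,4)]⟩⟩,[.o ⟨false,0,⟨0,[(47,0)]⟩,⟨1,[(33,0),(11,0)]⟩⟩,.e ⟨false,1,⟨9,[(6,0),(1,5),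
  (0,0),(8,2),(14,1),(10,1)]⟩,⟨0,[(43,0)]⟩⟩ ⟨false,0,⟨0,[(0,0)]⟩,⟨0,[(21,0)]⟩⟩,.a ⟨true,0,⟨1,[(2,1),
  (35,0),(6,0)]⟩,⟨0,[(22,0)]⟩⟩ ⟨true,0,⟨0,[(42,0)]⟩,⟨0,[(43,0)]⟩⟩ ⟨false,0,⟨0,[(22,0)]⟩,⟨0,[(4,
  0)]⟩⟩,.e ⟨false,1,⟨9,[(6,0),(1,5),(0,0),(8,2),(14,1),(10,1)]⟩,⟨0,[(40,0)]⟩⟩ ⟨false,0,⟨0,[(0,0)]⟩,
  ⟨7,[(4,5),(0,3),(12,1),(2,1),(16,0),(6,0)]⟩⟩]⟩)) (.Q [-1,0,0,1,0,0,-1,-1,-1,1,-1,-1] (.p false [0,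
  0,1] [1,0,0,0,-1] (⟨0,[(30,0)]⟩,⟨0,[(29,0)]⟩) .k 2 (⟨0,[(22,0)]⟩,⟨0,[(23,0)]⟩) .k (.r 0 ⟨2,[(14,
  0),(0,0),(9,0),(2,0),(15,0)]⟩ ⟨1,[(7,0),(18,1),(0,0),(14,0),(1,0)]⟩)) (.S ⟨1,0,[1],[0,0,0,0,1],[0,
  1],(⟨0,[(24,0)]⟩,⟨0,[(23,0)]⟩),⟨1,[(1,0),(5,0),(12,0),(3,0)]⟩,.k,(.r (-1) ⟨9,[(6,0),(1,5),(0,0),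
  (8,2),(14,1),(10,1)]⟩ ⟨9,[(11,4),(9,2),(0,2),(22,1),(1,3)]⟩),⟨true,0,⟨0,[(47,0)]⟩,⟨0,[]⟩⟩,⟨false,
  1,⟨1,[(21,0),(0,0),(22,0)]⟩,⟨0,[]⟩⟩,⟨false,0,⟨0,[(10,0),(30,1),(3,0)]⟩,⟨13,[(3,5),(2,1),(2,1),(11,
  5),(11,0),(11,6)]⟩⟩,⟨true,0,⟨0,[(43,0)]⟩,⟨0,[(42,0)]⟩⟩,[.a ⟨true,0,⟨0,[(22,0)]⟩,⟨7,[(0,5),(1,0),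
  (1,0),(4,2),(6,2),(11,2),(9,0)]⟩⟩ ⟨false,0,⟨0,[(41,0)]⟩,⟨1,[(21,0),(0,0),(22,0)]⟩⟩ ⟨true,0,⟨0,[]⟩,
  ⟨2,[(5,0),(12,0),(9,0)]⟩⟩,.o ⟨false,1,⟨1,[(22,1),(10,0),(11,0)]⟩,⟨0,[(2,0)]⟩⟩,.e ⟨true,0,⟨0,[(47,
  0)]⟩,⟨0,[]⟩⟩ ⟨true,0,⟨0,[]⟩,⟨0,[(47,0)]⟩⟩,.o ⟨false,0,⟨1,[(3,0),(6,0),(11,0),(16,0)]⟩,⟨1,[(2,0),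
  (1,0),(39,0)]⟩⟩]⟩) (.R ⟨1,false,false,false,[0,0,0,0,1],[0,1],[0,1],(⟨0,[(24,0)]⟩,⟨0,[(23,0)]⟩),
  (⟨0,[(35,0)]⟩,⟨0,[(34,0)]⟩),⟨1,[(1,0),(5,0),(12,0),(3,0)]⟩,.k,.k,(.r (-1) ⟨9,[(6,0),(1,5),(0,0),
  (8,2),(14,1),(10,1)]⟩ ⟨9,[(11,4),(9,2),(0,2),(22,1),(1,3)]⟩),(.r (-1) ⟨9,[(6,0),(1,5),(0,0),(8,2),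
  (14,1),(10,1)]⟩ ⟨9,[(11,4),(9,2),(0,2),(22,1),(1,3)]⟩),(.r (-2) ⟨4,[(6,0),(1,5),(0,0),(8,2),(14,
  1),(10,1)]⟩ ⟨0,[(10,1),(30,1),(3,0)]⟩),.k,⟨false,1,⟨0,[(42,0),(1,0)]⟩,⟨0,[(40,0)]⟩⟩,⟨true,1,⟨1,
  [(2,0),(1,0),(39,0)]⟩,⟨7,[(0,2),(5,2),(3,8),(11,4),(18,1),(3,0)]⟩⟩,⟨true,0,⟨0,[(47,0)]⟩,⟨0,[]⟩⟩,
  ⟨false,1,⟨0,[(4,0),(38,0)]⟩,⟨0,[(3,0)]⟩⟩,⟨false,0,⟨0,[(10,0),(30,1),(3,0)]⟩,⟨13,[(3,5),(2,1),(2,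
  1),(11,5),(11,0),(11,6)]⟩⟩,⟨false,1,⟨0,[(4,0),(38,1)]⟩,⟨1,[(0,0),(2,0),(2,0)]⟩⟩,[.e ⟨false,0,⟨0,
  [(41,0)]⟩,⟨1,[(21,0),(0,0),(22,0)]⟩⟩ ⟨false,1,⟨1,[(2,0),(1,0),(38,1),(0,0)]⟩,⟨7,[(0,2),(5,2),(3,
  0),(11,4),(18,1),(3,0)]⟩⟩,.o ⟨false,1,⟨0,[(12,0),(32,0)]⟩,⟨0,[(42,0)]⟩⟩,.a ⟨true,0,⟨0,[(22,0)]⟩,
  ⟨1,[(2,1),(35,0),(6,0)]⟩⟩ ⟨true,0,⟨0,[(47,0)]⟩,⟨0,[]⟩⟩ ⟨false,1,⟨0,[(4,0),(38,0)]⟩,⟨7,[(0,2),(5,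
  2),(3,0),(11,4),(18,1),(3,0)]⟩⟩,.o ⟨false,0,⟨1,[(3,0),(6,0),(11,0),(16,0)]⟩,⟨1,[(2,0),(1,0),(39,
  0)]⟩⟩]⟩))) (.R ⟨2,true,false,false,[0,1],[0,0,0,0,1],[1,0,1],(⟨0,[]⟩,⟨0,[]⟩),(⟨0,[(22,0)]⟩,⟨0,
  [(21,0)]⟩),⟨0,[]⟩,.k,.k,.k,(.r 0 ⟨9,[(9,4),(9,2),(0,2),(22,1),(1,3)]⟩ ⟨9,[(4,0),(1,5),(0,0),(8,2),
  (14,1),(10,1)]⟩),.k,.k,⟨true,0,⟨2,[(3,0),(12,0),(9,0)]⟩,⟨0,[]⟩⟩,⟨false,0,⟨0,[(20,0)]⟩,⟨0,[(2,0),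
  (36,0)]⟩⟩,⟨false,1,⟨13,[(1,5),(2,1),(2,1),(11,5),(11,0),(11,6)]⟩,⟨0,[(41,0)]⟩⟩,⟨true,0,⟨0,[(1,
  0)]⟩,⟨0,[(2,0),(5,0),(30,1)]⟩⟩,⟨true,0,⟨0,[]⟩,⟨0,[(45,0)]⟩⟩,⟨false,0,⟨0,[(0,0)]⟩,⟨2,[(2,0),(16,1),
  (25,0)]⟩⟩,[]⟩))) (.Q [0,0,1,0,-1,0,0,0,1,0,0,1] (.p true [0,0,0,0,1] [] (⟨0,[(20,0)]⟩,⟨0,[(19,
  0)]⟩) .k 0 (⟨0,[]⟩,⟨0,[]⟩) .k .k) (.Q [0,0,0,0,0,1,0,0,0,0,0,-1] (.ed true [1,-1,0,0,1] .k) (.Q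
  [0,0,1,-1,-1,0,0,0,1,0,0,1] (.p true [0,0,0,0,1] [] (⟨0,[(22,0)]⟩,⟨0,[(21,0)]⟩) .k 0 (⟨0,[]⟩,⟨0,
  []⟩) .k .k) (.R ⟨0,false,false,true,[0,0,0,0,1],[0,1],[0,1],(⟨0,[(23,0)]⟩,⟨0,[(22,0)]⟩),(⟨0,[(34,
  0)]⟩,⟨0,[(33,0)]⟩),⟨0,[(1,0)]⟩,.k,.k,(.r (-1) ⟨9,[(5,0),(1,5),(0,0),(8,2),(14,1),(10,1)]⟩ ⟨9,[(10,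
  4),(9,2),(0,2),(22,1),(1,3)]⟩),(.r (-1) ⟨9,[(5,0),(1,5),(0,0),(8,2),(14,1),(10,1)]⟩ ⟨9,[(10,4),(9,
  2),(0,2),(22,1),(1,3)]⟩),.k,.k,⟨true,1,⟨9,[(5,0),(1,5),(0,0),(8,2),(14,1),(10,1)]⟩,⟨0,[(9,0)]⟩⟩,
  ⟨false,2,⟨0,[(20,0),(22,0)]⟩,⟨0,[(2,0)]⟩⟩,⟨true,0,⟨0,[(46,0)]⟩,⟨0,[]⟩⟩,⟨false,1,⟨0,[(20,0),(21,
  0)]⟩,⟨1,[(0,1),(42,0),(0,0)]⟩⟩,⟨false,0,⟨0,[]⟩,⟨0,[]⟩⟩,⟨false,0,⟨0,[]⟩,⟨0,[]⟩⟩,[.o ⟨false,0,⟨0,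
  [(11,0)]⟩,⟨13,[(5,1),(1,5),(0,1),(19,5),(3,0),(11,6)]⟩⟩,.a ⟨true,0,⟨0,[(42,0)]⟩,⟨61,[(5,10),(1,
  17),(0,10),(8,8),(13,5),(1,5),(3,17),(7,17)]⟩⟩ ⟨false,1,⟨1,[(20,0),(0,0),(21,0)]⟩,⟨0,[]⟩⟩ ⟨true,1,
  ⟨0,[(20,0),(21,0)]⟩,⟨0,[(0,0)]⟩⟩,.o ⟨false,0,⟨1,[(2,1),(29,0),(10,0)]⟩,⟨0,[(20,0)]⟩⟩,.e ⟨true,0,
  ⟨0,[(40,0)]⟩,⟨2,[(4,0),(12,0),(9,0)]⟩⟩ ⟨true,1,⟨2,[(11,1),(8,2),(16,0),(2,0),(1,0),(0,0)]⟩,⟨0,[(0,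
  0)]⟩⟩]⟩) (.R ⟨1,false,false,false,[1,0,0,0,-1],[0,1],[-1],(⟨0,[(22,0)]⟩,⟨0,[(23,0)]⟩),(⟨0,[(34,
  0)]⟩,⟨0,[(33,0)]⟩),⟨1,[(1,0),(4,0),(12,0),(2,0)]⟩,.k,.k,(.r (-1) ⟨15,[(5,0),(1,5),(0,0),(8,2),(20,
  1),(2,5),(1,4),(0,2)]⟩ ⟨1,[(10,0),(9,0),(0,0)]⟩),(.r (-1) ⟨15,[(5,0),(1,5),(0,0),(8,2),(20,1),(2,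
  5),(1,4),(0,2)]⟩ ⟨1,[(10,0),(9,0),(0,0)]⟩),(.r (-2) ⟨15,[(5,2),(1,17),(0,2),(8,8),(20,5),(2,1),(1,
  6),(0,0)]⟩ ⟨0,[(10,0)]⟩),.k,⟨true,1,⟨15,[(5,0),(1,5),(0,0),(8,2),(20,1),(2,5),(1,4),(0,2)]⟩,⟨0,
  [(9,0)]⟩⟩,⟨false,1,⟨1,[(2,1),(29,0),(10,2)]⟩,⟨18,[(0,6),(4,4),(0,1),(1,4),(0,12),(9,1),(0,11),(10,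
  5),(5,5)]⟩⟩,⟨false,1,⟨1,[(20,0),(0,0),(22,0)]⟩,⟨0,[]⟩⟩,⟨true,0,⟨1,[(2,1),(8,1),(31,0),(0,0)]⟩,⟨0,
  [(0,0),(4,0),(8,0),(12,0)]⟩⟩,⟨true,0,⟨0,[(42,0)]⟩,⟨0,[(41,0)]⟩⟩,⟨true,0,⟨1,[(2,1),(8,1),(30,1),(0,
  0),(0,0)]⟩,⟨0,[(0,0),(4,0),(2,0),(0,0),(30,0)]⟩⟩,[.a ⟨true,0,⟨0,[(42,0)]⟩,⟨61,[(5,10),(1,17),(0,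
  10),(8,8),(13,5),(1,5),(3,17),(7,17)]⟩⟩ ⟨false,1,⟨9,[(20,3),(0,3),(21,4),(0,0),(1,1)]⟩,⟨0,[]⟩⟩
  ⟨true,0,⟨1,[(2,1),(8,1),(31,0),(0,0)]⟩,⟨18,[(0,12),(4,11),(0,0),(1,11),(0,15),(9,0),(0,5),(10,2),
  (5,2)]⟩⟩,.o ⟨false,1,⟨0,[(11,0),(32,0)]⟩,⟨0,[(41,0)]⟩⟩,.o ⟨false,1,⟨0,[(20,0)]⟩,⟨1,[(2,1),(29,0),
  (10,0)]⟩⟩,.e ⟨false,1,⟨0,[(40,0),(3,0)]⟩,⟨2,[(4,0),(12,0),(9,0)]⟩⟩ ⟨false,1,⟨0,[(2,0),(8,0),(31,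
  0),(0,0)]⟩,⟨18,[(0,12),(4,11),(0,0),(1,11),(0,15),(9,0),(0,5),(10,2),(5,2)]⟩⟩]⟩)) (.Q [-1,1,0,2,0,
  0,0,0,-1,0,0,-1] (.p false [0,0,0,0,1] [] (⟨0,[(22,0)]⟩,⟨0,[(21,0)]⟩) .k 0 (⟨0,[]⟩,⟨0,[]⟩) .k .k)
  (.S ⟨1,0,[1],[0,0,0,0,1],[1,0,1],(⟨0,[(23,0)]⟩,⟨0,[(22,0)]⟩),⟨0,[(1,0)]⟩,.k,(.r (-1) ⟨9,[(5,0),(1,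
  5),(0,0),(8,2),(14,1),(10,1)]⟩ ⟨4,[(0,0),(9,0),(9,0),(0,1),(17,0),(5,1)]⟩),⟨true,0,⟨2,[(4,0),(12,
  0),(9,0)]⟩,⟨0,[(40,0)]⟩⟩,⟨false,1,⟨1,[(20,0),(0,0),(22,0)]⟩,⟨0,[]⟩⟩,⟨false,0,⟨1,[(10,0),(33,0)]⟩,
  ⟨9,[(5,0),(1,5),(0,0),(8,2),(14,1),(10,1)]⟩⟩,⟨true,0,⟨0,[(42,0)]⟩,⟨0,[(41,0)]⟩⟩,[.o ⟨false,0,⟨1,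
  [(2,1),(29,0),(10,0)]⟩,⟨12,[(0,1),(4,0),(0,0),(1,0),(10,0),(0,10),(10,2),(6,0),(5,0)]⟩⟩,.e ⟨false,
  1,⟨1,[(20,0),(0,0),(22,0)]⟩,⟨0,[(40,0)]⟩⟩ ⟨false,1,⟨1,[(43,0),(0,0)]⟩,⟨0,[(46,0)]⟩⟩,.o ⟨false,0,
  ⟨1,[(2,1),(29,0),(10,0)]⟩,⟨0,[(20,0)]⟩⟩,.a ⟨true,(-1),⟨0,[(2,0)]⟩,⟨29,[(0,3),(4,1),(0,1),(1,1),
  (10,1),(0,25),(10,5),(5,12),(5,14),(0,1)]⟩⟩ ⟨true,0,⟨0,[]⟩,⟨0,[(46,0)]⟩⟩ ⟨false,1,⟨1,[(43,0),(0,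
  0)]⟩,⟨2,[(4,0),(12,0),(9,0)]⟩⟩]⟩) (.R ⟨1,false,false,true,[0,0,0,0,1],[0,1],[0,1],(⟨0,[(23,0)]⟩,
  ⟨0,[(22,0)]⟩),(⟨0,[(34,0)]⟩,⟨0,[(33,0)]⟩),⟨0,[(1,0)]⟩,.k,.k,(.r (-1) ⟨9,[(5,0),(1,5),(0,0),(8,2),
  (14,1),(10,1)]⟩ ⟨9,[(10,4),(9,2),(0,2),(22,1),(1,3)]⟩),(.r (-1) ⟨9,[(5,0),(1,5),(0,0),(8,2),(14,
  1),(10,1)]⟩ ⟨9,[(10,4),(9,2),(0,2),(22,1),(1,3)]⟩),(.r (-2) ⟨4,[(5,0),(1,5),(0,0),(8,2),(14,1),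
  (10,1)]⟩ ⟨0,[(9,1),(30,1),(3,0)]⟩),.k,⟨true,1,⟨9,[(5,0),(1,5),(0,0),(8,2),(14,1),(10,1)]⟩,⟨0,[(9,
  0)]⟩⟩,⟨false,2,⟨0,[(20,0),(22,0)]⟩,⟨0,[(2,0)]⟩⟩,⟨true,0,⟨0,[(46,0)]⟩,⟨0,[]⟩⟩,⟨false,1,⟨0,[(20,0),
  (21,0)]⟩,⟨3,[(0,1),(1,1),(40,0),(0,0)]⟩⟩,⟨false,0,⟨0,[(9,0),(30,1),(3,0)]⟩,⟨2,[(0,0),(6,0),(12,0),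
  (7,0),(15,0)]⟩⟩,⟨false,1,⟨0,[(20,0),(21,1)]⟩,⟨0,[(0,0)]⟩⟩,[.o ⟨false,0,⟨0,[(11,0)]⟩,⟨2,[(0,0),(6,
  0),(12,0),(7,0),(15,0)]⟩⟩,.a ⟨true,0,⟨0,[(42,0)]⟩,⟨61,[(5,10),(1,17),(0,10),(8,8),(13,5),(1,5),(3,
  17),(7,17)]⟩⟩ ⟨false,1,⟨1,[(20,0),(0,0),(21,0)]⟩,⟨0,[]⟩⟩ ⟨true,1,⟨0,[(20,0),(21,0)]⟩,⟨0,[(0,0),(8,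
  0),(30,0)]⟩⟩,.o ⟨false,0,⟨1,[(2,1),(29,0),(10,0)]⟩,⟨0,[(20,0)]⟩⟩,.e ⟨true,0,⟨0,[(40,0)]⟩,⟨2,[(4,
  0),(12,0),(9,0)]⟩⟩ ⟨true,1,⟨2,[(11,1),(8,2),(16,0),(2,0),(1,0),(0,0)]⟩,⟨0,[(0,0),(8,0),(30,
  0)]⟩⟩]⟩))) (.R ⟨2,true,false,true,[0,1],[0,0,0,0,1],[1,1,1],(⟨0,[]⟩,⟨0,[]⟩),(⟨0,[(21,0)]⟩,⟨0,[(20,
  0)]⟩),⟨0,[]⟩,.k,.k,.k,(.r 0 ⟨9,[(8,4),(9,2),(0,2),(22,1),(1,3)]⟩ ⟨9,[(3,0),(1,5),(0,0),(8,2),(14,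
  1),(10,1)]⟩),.k,.k,⟨true,0,⟨2,[(2,0),(12,0),(9,0)]⟩,⟨0,[]⟩⟩,⟨false,0,⟨0,[(19,0)]⟩,⟨0,[(0,0)]⟩⟩,
  ⟨true,0,⟨0,[(39,0)]⟩,⟨0,[(40,0)]⟩⟩,⟨false,0,⟨7,[(1,1),(1,1),(2,1),(12,5),(10,0),(11,0)]⟩,⟨1,[(0,
  1),(6,0),(32,0),(1,0)]⟩⟩,⟨false,0,⟨0,[]⟩,⟨1,[(18,0),(0,0),(22,0)]⟩⟩,⟨true,(-1),⟨0,[(1,0)]⟩,⟨1,[(0,
  0),(17,0),(24,0)]⟩⟩,[]⟩))))))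

theorem ok6 : chk K t6 l9 = true := by decide +kernel

noncomputable def t7 : Tre :=
  (.I [0,0,-2,-2,2,0,0,-1] (.Q [0,0,0,0,0,2,0,0,0,-1,1] (.p true [0,0,1] [1] (⟨0,[(24,0)]⟩,⟨0,[(23,
  0)]⟩) .k 1 (⟨0,[]⟩,⟨0,[]⟩) .k .k) (.R ⟨0,false,false,false,[1,-1,-1],[1,-1],[1,0,1],(⟨0,[(13,0)]⟩,
  ⟨4,[(0,1),(14,0),(0,0),(8,2),(0,0),(5,0)]⟩),(⟨0,[(28,0)]⟩,⟨0,[(29,0)]⟩),⟨0,[(0,0)]⟩,.k,.k,(.r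
  (-2) ⟨0,[(1,0)]⟩ ⟨2,[(5,1),(3,0),(0,0),(9,0),(2,0),(10,1)]⟩),.k,.k,.k,⟨true,(-1),⟨0,[(4,0)]⟩,⟨75,
  [(1,31),(1,5),(6,11),(1,9),(7,13),(6,4),(11,6)]⟩⟩,⟨false,1,⟨0,[(22,0),(15,0)]⟩,⟨0,[(11,0)]⟩⟩,
  ⟨false,(-1),⟨0,[(4,0),(4,0),(29,0)]⟩,⟨0,[(1,0),(35,0)]⟩⟩,⟨true,0,⟨0,[(10,0),(11,0)]⟩,⟨0,[(21,
  0)]⟩⟩,⟨false,0,⟨0,[]⟩,⟨0,[]⟩⟩,⟨false,0,⟨0,[]⟩,⟨0,[]⟩⟩,[.e ⟨false,0,⟨0,[]⟩,⟨1,[(15,0),(0,0),(21,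
  0)]⟩⟩ ⟨false,2,⟨3,[(1,1),(18,1),(1,1),(15,2),(0,0)]⟩,⟨0,[(2,0)]⟩⟩,.o ⟨false,1,⟨7,[(1,1),(1,1),(18,
  0),(0,2),(15,3)]⟩,⟨0,[(6,0)]⟩⟩,.a ⟨true,(-1),⟨85,[(2,65),(0,21),(3,21),(4,9),(13,13),(1,13),(3,
  30),(6,10),(0,19)]⟩,⟨0,[(22,0),(15,0)]⟩⟩ ⟨true,0,⟨1,[(22,0),(0,0)]⟩,⟨0,[(35,0)]⟩⟩ ⟨false,2,⟨3,[(1,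
  1),(18,1),(1,1),(15,0),(0,2)]⟩,⟨0,[(2,0)]⟩⟩,.o ⟨false,(-1),⟨9,[(2,6),(0,3),(0,4),(2,3),(15,2),(15,
  1)]⟩,⟨1,[(22,1),(4,0),(10,2)]⟩⟩]⟩) (.Q [0,0,-2,0,0,0,-1,0,0,1,-1] (.p false [0,0,1] [1] (⟨0,[(25,
  0)]⟩,⟨0,[(24,0)]⟩) .k 1 (⟨0,[]⟩,⟨0,[]⟩) .k .k) (.R ⟨0,false,false,true,[0,-1,1],[1,-1],[0,1,0,-1],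
  (⟨0,[(15,0)]⟩,⟨22,[(16,2),(0,2),(7,22),(1,4),(4,5),(0,2)]⟩),(⟨0,[(29,0)]⟩,⟨0,[(30,0)]⟩),⟨2,[(1,1),
  (23,0),(1,0),(4,2)]⟩,.k,.k,(.r (-1) ⟨4,[(0,0),(1,1),(1,2),(6,3),(1,0),(14,0)]⟩ ⟨0,[(2,0),(3,1)]⟩),
  .k,.k,.k,⟨true,0,⟨1,[(23,0),(0,0)]⟩,⟨0,[]⟩⟩,⟨false,0,⟨0,[(20,0)]⟩,⟨1,[(23,1),(4,0),(10,0)]⟩⟩,
  ⟨true,0,⟨0,[(22,0),(0,0)]⟩,⟨0,[(11,0)]⟩⟩,⟨false,0,⟨3,[(0,1),(1,1),(2,3),(16,1),(10,0),(6,0)]⟩,⟨1,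
  [(11,1),(11,1),(4,0),(11,0)]⟩⟩,⟨false,0,⟨0,[]⟩,⟨0,[]⟩⟩,⟨false,0,⟨0,[]⟩,⟨0,[]⟩⟩,[.o ⟨false,0,⟨0,
  [(37,0)]⟩,⟨0,[(7,0),(32,0)]⟩⟩,.a ⟨true,0,⟨21,[(2,3),(1,5),(3,1),(4,1),(13,1),(1,1),(3,8),(6,0),(0,
  7)]⟩,⟨0,[(38,0)]⟩⟩ ⟨false,1,⟨75,[(2,31),(1,5),(6,11),(1,9),(7,13),(6,4),(11,6)]⟩,⟨0,[(38,0)]⟩⟩
  ⟨true,0,⟨238,[(0,125),(0,4),(1,12),(0,83),(3,83),(4,49),(1,4),(11,14),(5,28),(6,41)]⟩,⟨1,[(6,0),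
  (16,1),(4,0)]⟩⟩,.a ⟨true,0,⟨0,[(23,0)]⟩,⟨0,[(20,0)]⟩⟩ ⟨true,0,⟨0,[(37,0)]⟩,⟨0,[(38,0)]⟩⟩ ⟨false,0,
  ⟨238,[(0,125),(0,4),(1,12),(0,83),(3,83),(4,49),(1,4),(11,14),(5,28),(6,41)]⟩,⟨0,[(7,0),(15,0),
  (16,0)]⟩⟩,.a ⟨true,0,⟨1,[(23,2),(0,0)]⟩,⟨0,[(0,0)]⟩⟩ ⟨false,1,⟨75,[(2,31),(1,5),(6,11),(1,9),(7,
  13),(6,4),(11,6)]⟩,⟨0,[(35,0)]⟩⟩ ⟨true,0,⟨0,[(0,0),(36,0)]⟩,⟨1,[(6,0),(16,1),(4,0)]⟩⟩]⟩) (.Q [0,0,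
  0,2,0,0,1,1,0,-1,1] (.p true [0,0,1] [1] (⟨0,[(26,0)]⟩,⟨0,[(25,0)]⟩) .k 1 (⟨0,[]⟩,⟨0,[]⟩) .k .k)
  (.Q [0,0,0,-1,0,0,-1,-1,0,1,-1] (.p false [0,0,1] [1] (⟨0,[(27,0)]⟩,⟨0,[(26,0)]⟩) .k 1 (⟨0,[]⟩,⟨0,
  []⟩) .k .k) (.R ⟨1,true,false,false,[1,0,-1],[0,1],[0,1,0,0,0,0,0,-1],(⟨0,[(27,0)]⟩,⟨0,[(28,0)]⟩),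
  (⟨0,[(32,0)]⟩,⟨0,[(31,0)]⟩),⟨0,[(16,0)]⟩,.k,.k,.k,.k,(.r (-2) ⟨0,[(4,0)]⟩ ⟨2,[(1,0),(5,1),(4,0),
  (2,0),(7,0),(13,1)]⟩),.k,⟨true,1,⟨1,[(4,0),(19,0),(0,0),(12,0)]⟩,⟨0,[(7,0),(4,0),(29,0)]⟩⟩,⟨false,
  2,⟨0,[(1,0),(2,0)]⟩,⟨10,[(0,4),(4,2),(0,0),(0,3),(4,3),(2,1),(19,1),(6,1)]⟩⟩,⟨true,0,⟨0,[(44,0)]⟩,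
  ⟨0,[]⟩⟩,⟨false,1,⟨3,[(1,1),(21,1),(6,0),(11,2)]⟩,⟨0,[(0,0)]⟩⟩,⟨false,0,⟨0,[(40,0)]⟩,⟨3,[(2,0),(1,
  0),(1,0),(8,0),(26,1)]⟩⟩,⟨true,0,⟨0,[(1,0)]⟩,⟨0,[(0,0),(38,0)]⟩⟩,[]⟩) (.I [0,0,0,0,1,0,0,0,-1]
  (.I [1,0,1,0,0,1,1] (.I [0,1,0,-3] (.I [0,0,1,-1,-1,0,0,1] (.I [0,0,2,1,-1] (.I [0,1,1,-1,0,0,0,
  -1] (.I [1,0,0,0,0,3,0,0,1] (.I [0,0,1,1,-1,-1,-1] (.I [0,0,2,0,0,-2,1] (.I [0,0,0,1,0,-2,1,1]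
  (.I [0,1,0,-1,0,-1,-1,-1] (.C [(0,1),(0,1),(43,1),(0,0),(6,0)]) (.C [(0,0),(20,0),(6,0)])) (.C
  [(0,0),(9,0),(2,0)])) (.C [(0,0),(10,0),(0,0)])) (.C [(0,0),(12,0),(11,0)])) (.C [(0,0),(25,0),(0,
  0),(13,0)])) (.C [(0,0),(15,0),(14,0)])) (.C [(0,0),(9,0),(19,0)])) (.C [(0,0),(8,0),(0,0)])) (.C
  [(0,0),(8,0),(3,0)])) (.C [(0,0),(4,0),(21,0),(8,0)])) (.C [(0,0),(18,0),(2,0)]))) (.Q [-1,0,0,2,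
  0,0,0,0,-1,0,0,-1] (.p false [0,0,0,0,1] [] (⟨0,[(20,0)]⟩,⟨0,[(19,0)]⟩) .k 0 (⟨0,[]⟩,⟨0,[]⟩) .k
  .k) (.Q [0,0,0,0,0,1,0,0,0,-1,0,1] (.ed false [0,1,0,0,1] .k) (.R ⟨0,false,false,true,[1,0,0,0,
  -1],[0,1],[1,1,1],(⟨0,[(21,0)]⟩,⟨0,[(22,0)]⟩),(⟨0,[(33,0)]⟩,⟨0,[(32,0)]⟩),⟨0,[(0,0)]⟩,.k,.k,(.r
  (-1) ⟨95,[(5,41),(1,5),(6,21),(1,9),(7,13),(12,4),(5,6),(0,9)]⟩ ⟨1,[(9,0),(9,0),(0,0)]⟩),(.r (-1)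
  ⟨95,[(5,41),(1,5),(6,21),(1,9),(7,13),(12,4),(5,6),(0,9)]⟩ ⟨1,[(9,0),(9,0),(0,0)]⟩),.k,.k,⟨false,
  1,⟨75,[(5,31),(1,5),(6,11),(1,9),(7,13),(6,4),(11,6)]⟩,⟨0,[(41,0)]⟩⟩,⟨true,1,⟨1,[(20,1),(10,0),
  (10,0)]⟩,⟨5,[(1,4),(0,3),(4,3),(0,5),(10,0),(16,0)]⟩⟩,⟨false,0,⟨2,[(3,0),(12,0),(9,0)]⟩,⟨0,[(39,
  0),(3,0)]⟩⟩,⟨true,0,⟨0,[(10,0),(9,0)]⟩,⟨33,[(1,30),(0,23),(4,23),(11,2),(10,3),(1,3),(3,2)]⟩⟩,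
  ⟨false,0,⟨0,[]⟩,⟨0,[]⟩⟩,⟨false,0,⟨0,[]⟩,⟨0,[]⟩⟩,[.o ⟨false,0,⟨0,[(10,0)]⟩,⟨3,[(3,0),(1,0),(1,0),
  (8,0),(26,1)]⟩⟩,.e ⟨false,0,⟨0,[]⟩,⟨1,[(19,0),(0,0),(21,0)]⟩⟩ ⟨false,1,⟨1,[(10,1),(9,1),(21,0),(0,
  0)]⟩,⟨5,[(1,4),(0,3),(4,3),(11,0),(16,0)]⟩⟩,.a ⟨true,0,⟨16,[(1,11),(0,5),(4,5),(11,4),(10,0),(1,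
  0),(3,4)]⟩,⟨0,[(20,0)]⟩⟩ ⟨false,0,⟨2,[(3,0),(12,0),(9,0)]⟩,⟨1,[(42,0),(0,0)]⟩⟩ ⟨true,0,⟨0,[(10,0),
  (9,0)]⟩,⟨5,[(1,4),(0,3),(4,3),(11,0),(16,0)]⟩⟩,.o ⟨false,0,⟨17,[(1,12),(0,7),(0,5),(2,5),(0,7),
  (11,4),(11,0)]⟩,⟨1,[(20,1),(10,0),(10,0)]⟩⟩]⟩) (.S ⟨1,0,[-1,1],[1,0,0,0,-1],[1,1,1],(⟨0,[(21,0)]⟩,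
  ⟨0,[(22,0)]⟩),⟨0,[(0,0)]⟩,.k,(.r (-1) ⟨95,[(5,41),(1,5),(6,21),(1,9),(7,13),(12,4),(5,6),(0,9)]⟩
  ⟨1,[(9,0),(9,0),(0,0)]⟩),⟨false,0,⟨2,[(3,0),(12,0),(9,0)]⟩,⟨0,[(39,0),(3,0)]⟩⟩,⟨true,0,⟨0,[(45,
  0)]⟩,⟨0,[]⟩⟩,⟨true,(-1),⟨0,[(8,0),(30,0)]⟩,⟨95,[(5,41),(1,5),(6,21),(1,9),(7,13),(12,4),(5,6),(0,
  9)]⟩⟩,⟨false,0,⟨0,[(41,0)]⟩,⟨3,[(3,0),(1,0),(1,0),(8,0),(26,1)]⟩⟩,[.o ⟨false,0,⟨1,[(1,1),(5,0),(3,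
  0),(28,0)]⟩,⟨1,[(20,1),(10,0),(11,0)]⟩⟩,.e ⟨false,0,⟨0,[]⟩,⟨1,[(19,0),(0,0),(21,0)]⟩⟩ ⟨false,1,⟨9,
  [(19,3),(0,3),(21,4),(0,0),(1,1)]⟩,⟨0,[]⟩⟩,.a ⟨true,0,⟨16,[(1,11),(0,5),(4,5),(11,4),(10,0),(1,0),
  (3,4)]⟩,⟨0,[(20,0)]⟩⟩ ⟨false,0,⟨2,[(3,0),(12,0),(9,0)]⟩,⟨1,[(42,0),(0,0)]⟩⟩ ⟨true,0,⟨0,[(45,0)]⟩,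
  ⟨0,[]⟩⟩,.o ⟨false,0,⟨17,[(1,12),(0,7),(0,5),(2,5),(0,7),(11,4),(11,0)]⟩,⟨1,[(20,1),(10,0),(10,
  0)]⟩⟩]⟩)) (.Q [-1,0,0,-1,0,0,0,0,-1,1,0,-1] (.p false [0,0,0,0,1] [1] (⟨0,[(21,0)]⟩,⟨0,[(20,0)]⟩)
  .k 1 (⟨0,[]⟩,⟨0,[]⟩) .k .k) (.Q [0,0,0,0,0,0,2,2,0,-1,2] (.p true [0,0,1] [1,0,-1] (⟨0,[(29,0)]⟩,
  ⟨0,[(28,0)]⟩) .k 2 (⟨0,[(28,0)]⟩,⟨0,[(29,0)]⟩) .k (.r 1 ⟨0,[(13,1),(29,0)]⟩ ⟨0,[(5,1),(3,1)]⟩))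
  (.R ⟨0,false,false,true,[0,-1,1],[1,-1,-1],[1,1,1],(⟨0,[(19,0)]⟩,⟨22,[(20,2),(0,2),(7,22),(1,4),
  (4,5),(0,2)]⟩),(⟨0,[(18,0)]⟩,⟨22,[(20,2),(0,2),(8,22),(0,4),(4,5),(0,2)]⟩),⟨2,[(5,1),(23,0),(1,0),
  (4,2)]⟩,.k,.k,(.r (-1) ⟨1,[(6,0),(1,0),(6,1),(0,0)]⟩ ⟨0,[(6,0),(3,1)]⟩),.k,.k,.k,⟨false,(-1),⟨5,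
  [(0,2),(6,3),(2,0),(6,0),(19,0)]⟩,⟨0,[(6,0),(35,0)]⟩⟩,⟨true,(-1),⟨1,[(3,0),(3,1),(7,0),(8,0)]⟩,⟨1,
  [(27,3),(4,0),(10,0)]⟩⟩,⟨false,0,⟨3,[(3,0),(0,0),(1,2),(3,5)]⟩,⟨0,[(13,0),(29,0),(0,0)]⟩⟩,⟨true,0,
  ⟨2,[(3,0),(22,4),(10,0),(4,1),(1,0)]⟩,⟨0,[(0,0)]⟩⟩,⟨false,0,⟨0,[]⟩,⟨0,[]⟩⟩,⟨false,0,⟨0,[]⟩,⟨0,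
  []⟩⟩,[.o ⟨false,0,⟨0,[(12,0)]⟩,⟨2,[(0,0),(10,1),(13,0),(16,0),(1,2)]⟩⟩,.a ⟨true,0,⟨5,[(3,3),(22,
  1),(10,0),(4,1),(1,0)]⟩,⟨5,[(0,1),(24,1),(11,0),(4,5),(1,0)]⟩⟩ ⟨false,0,⟨0,[]⟩,⟨1,[(20,0),(0,0),
  (21,0)]⟩⟩ ⟨true,0,⟨0,[(3,0),(3,0),(35,0)]⟩,⟨2,[(0,0),(3,0),(6,0),(13,0),(1,1),(11,1)]⟩⟩,.e ⟨false,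
  0,⟨2,[(4,0),(12,0),(9,0)]⟩,⟨1,[(43,0),(0,0)]⟩⟩ ⟨false,0,⟨0,[(3,0),(3,0),(35,0)]⟩,⟨2,[(0,0),(10,1),
  (13,0),(1,2),(14,0),(1,2)]⟩⟩,.o ⟨false,0,⟨0,[(4,0)]⟩,⟨1,[(24,1),(7,0),(10,0)]⟩⟩]⟩) (.Q [1,0,0,2,0,
  0,0,0,1,-1,0,1] (.p true [0,0,0,0,1] [1] (⟨0,[(23,0)]⟩,⟨0,[(22,0)]⟩) .k 1 (⟨0,[]⟩,⟨0,[]⟩) .k .k)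
  (.R ⟨1,true,false,false,[1,-1],[0,0,0,0,1],[0,1,-1,-1],(⟨0,[(34,0)]⟩,⟨0,[(35,0)]⟩),(⟨0,[(24,0)]⟩,
  ⟨0,[(23,0)]⟩),⟨1,[(6,0),(13,0),(13,0)]⟩,.k,.k,(.r (-2) ⟨37,[(7,31),(1,5),(6,11),(1,9),(7,13),(6,
  4),(11,6)]⟩ ⟨0,[(5,1),(2,1),(29,0),(2,3),(3,1)]⟩),(.r (-1) ⟨95,[(7,41),(1,5),(6,21),(1,9),(7,13),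
  (12,4),(5,6),(0,9)]⟩ ⟨1,[(11,0),(9,0),(0,0)]⟩),(.r (-2) ⟨37,[(7,31),(1,5),(6,11),(1,9),(7,13),(6,
  4),(11,6)]⟩ ⟨0,[(11,0)]⟩),.k,⟨false,1,⟨1,[(7,0),(8,0),(19,0)]⟩,⟨0,[(40,0)]⟩⟩,⟨true,1,⟨2,[(0,0),(6,
  0),(8,0),(5,1),(10,0)]⟩,⟨0,[(2,0),(7,0)]⟩⟩,⟨true,0,⟨0,[(47,0)]⟩,⟨0,[]⟩⟩,⟨false,1,⟨3,[(0,1),(20,0),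
  (0,2),(10,0),(11,1)]⟩,⟨0,[(2,0)]⟩⟩,⟨false,0,⟨0,[(43,0)]⟩,⟨3,[(5,0),(1,0),(1,0),(8,0),(26,1)]⟩⟩,
  ⟨true,0,⟨0,[(0,0)]⟩,⟨0,[(2,0),(39,0)]⟩⟩,[]⟩) (.Q [0,0,0,0,0,-1,0,0,0,0,0,1] (.ed false [1,-1,0,0,
  1] .k) (.S ⟨1,0,[1],[0,0,0,0,1],[1,0,1],(⟨0,[(25,0)]⟩,⟨0,[(24,0)]⟩),⟨0,[(0,0)]⟩,.k,(.r (-1) ⟨75,
  [(8,31),(1,5),(6,11),(1,9),(7,13),(6,4),(11,6)]⟩ ⟨9,[(12,4),(9,2),(0,2),(22,1),(1,3)]⟩),⟨true,0,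
  ⟨2,[(6,0),(12,0),(9,0)]⟩,⟨0,[(42,0)]⟩⟩,⟨false,1,⟨1,[(22,0),(0,0),(22,0)]⟩,⟨0,[]⟩⟩,⟨false,0,⟨1,
  [(12,0),(33,0)]⟩,⟨75,[(8,31),(1,5),(6,11),(1,9),(7,13),(6,4),(11,6)]⟩⟩,⟨true,0,⟨0,[(44,0)]⟩,⟨0,
  [(43,0)]⟩⟩,[.a ⟨true,0,⟨0,[(23,0)]⟩,⟨0,[(3,0),(40,0)]⟩⟩ ⟨false,0,⟨0,[]⟩,⟨1,[(22,0),(0,0),(21,
  0)]⟩⟩ ⟨true,0,⟨0,[]⟩,⟨2,[(6,0),(12,0),(9,0)]⟩⟩,.o ⟨false,1,⟨1,[(23,1),(10,0),(11,0)]⟩,⟨0,[(3,0),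
  (9,0)]⟩⟩,.e ⟨true,0,⟨2,[(6,0),(12,0),(9,0)]⟩,⟨0,[(42,0)]⟩⟩ ⟨true,0,⟨0,[]⟩,⟨0,[(48,0)]⟩⟩,.o ⟨false,
  0,⟨5,[(4,0),(1,1),(2,1),(13,4),(10,0),(5,0)]⟩,⟨1,[(3,1),(9,1),(31,0),(0,0)]⟩⟩]⟩) (.R ⟨0,false,
  false,false,[0,0,0,0,1],[0,1],[0,1],(⟨0,[(25,0)]⟩,⟨0,[(24,0)]⟩),(⟨0,[(36,0)]⟩,⟨0,[(35,0)]⟩),⟨0,
  [(0,0)]⟩,.k,.k,(.r (-1) ⟨75,[(8,31),(1,5),(6,11),(1,9),(7,13),(6,4),(11,6)]⟩ ⟨9,[(12,4),(9,2),(0,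
  2),(22,1),(1,3)]⟩),(.r (-1) ⟨75,[(8,31),(1,5),(6,11),(1,9),(7,13),(6,4),(11,6)]⟩ ⟨9,[(12,4),(9,2),
  (0,2),(22,1),(1,3)]⟩),.k,.k,⟨false,1,⟨1,[(8,0),(8,0),(19,0)]⟩,⟨0,[(41,0)]⟩⟩,⟨true,1,⟨1,[(3,1),(9,
  1),(31,0),(0,0)]⟩,⟨4,[(4,2),(6,5),(11,1),(18,1),(3,0)]⟩⟩,⟨true,0,⟨0,[(48,0)]⟩,⟨0,[]⟩⟩,⟨false,1,⟨0,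
  [(3,0),(9,0),(30,0),(1,0)]⟩,⟨1,[(4,0),(18,0)]⟩⟩,⟨false,0,⟨0,[]⟩,⟨0,[]⟩⟩,⟨false,0,⟨0,[]⟩,⟨0,[]⟩⟩,
  [.e ⟨false,0,⟨0,[(42,0)]⟩,⟨1,[(22,0),(0,0),(22,0)]⟩⟩ ⟨false,1,⟨1,[(3,1),(9,1),(30,1),(0,0),(0,
  0)]⟩,⟨4,[(4,2),(6,0),(11,1),(18,1),(3,0)]⟩⟩,.o ⟨false,1,⟨0,[(13,0),(32,0)]⟩,⟨0,[(43,0)]⟩⟩,.a
  ⟨true,0,⟨0,[(23,0)]⟩,⟨0,[(3,0),(40,0)]⟩⟩ ⟨true,0,⟨0,[(48,0)]⟩,⟨0,[]⟩⟩ ⟨false,1,⟨0,[(3,0),(9,0),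
  (30,0),(1,0)]⟩,⟨4,[(4,2),(6,0),(11,1),(18,1),(3,0)]⟩⟩,.o ⟨false,0,⟨5,[(4,0),(1,1),(2,1),(13,4),
  (10,0),(5,0)]⟩,⟨1,[(3,1),(9,1),(31,0),(0,0)]⟩⟩]⟩)))) (.Q [0,0,0,0,0,0,2,2,0,-1,2] (.p true [0,0,
  1] [1,0,-1] (⟨0,[(29,0)]⟩,⟨0,[(28,0)]⟩) .k 2 (⟨0,[(28,0)]⟩,⟨0,[(29,0)]⟩) .k (.r 1 ⟨0,[(13,1),(29,
  0)]⟩ ⟨0,[(5,1),(3,1)]⟩)) (.R ⟨0,false,false,true,[0,-1,1],[1,-1,-1],[1,1,1],(⟨0,[(19,0)]⟩,⟨22,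
  [(20,2),(0,2),(7,22),(1,4),(4,5),(0,2)]⟩),(⟨0,[(18,0)]⟩,⟨22,[(20,2),(0,2),(8,22),(0,4),(4,5),(0,
  2)]⟩),⟨2,[(5,1),(23,0),(1,0),(4,2)]⟩,.k,.k,(.r (-1) ⟨1,[(6,0),(1,0),(6,1),(0,0)]⟩ ⟨0,[(6,0),(3,
  1)]⟩),.k,.k,.k,⟨false,(-1),⟨5,[(0,2),(6,3),(2,0),(6,0),(19,0)]⟩,⟨0,[(6,0),(35,0)]⟩⟩,⟨true,(-1),⟨1,
  [(3,0),(3,1),(7,0),(8,0)]⟩,⟨1,[(27,3),(4,0),(10,0)]⟩⟩,⟨false,0,⟨3,[(3,0),(0,0),(1,2),(3,5)]⟩,⟨0,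
  [(13,0),(29,0),(0,0)]⟩⟩,⟨true,0,⟨2,[(3,0),(22,4),(10,0),(4,1),(1,0)]⟩,⟨0,[(0,0)]⟩⟩,⟨false,0,⟨0,
  []⟩,⟨0,[]⟩⟩,⟨false,0,⟨0,[]⟩,⟨0,[]⟩⟩,[.o ⟨false,0,⟨0,[(12,0)]⟩,⟨1,[(0,0),(0,0),(18,0),(21,0),(1,
  0)]⟩⟩,.a ⟨true,0,⟨5,[(3,3),(22,1),(10,0),(4,1),(1,0)]⟩,⟨5,[(0,1),(24,1),(11,0),(4,5),(1,0)]⟩⟩
  ⟨false,0,⟨0,[]⟩,⟨1,[(20,0),(0,0),(21,0)]⟩⟩ ⟨true,0,⟨0,[(3,0),(3,0),(35,0)]⟩,⟨4,[(0,1),(0,0),(2,1),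
  (5,0),(9,0),(4,0),(1,2),(11,0),(2,0)]⟩⟩,.e ⟨false,0,⟨2,[(4,0),(12,0),(9,0)]⟩,⟨1,[(43,0),(0,0)]⟩⟩
  ⟨false,0,⟨0,[(3,0),(3,0),(35,0)]⟩,⟨1,[(0,0),(0,0),(18,0),(6,1),(14,0),(1,0)]⟩⟩,.o ⟨false,0,⟨0,[(4,
  0)]⟩,⟨1,[(24,1),(7,0),(10,0)]⟩⟩]⟩) (.Q [0,0,0,1,0,0,2,2,0,-1,2] (.p true [0,0,1] [1,0,-1] (⟨0,
  [(30,0)]⟩,⟨0,[(29,0)]⟩) .k 2 (⟨0,[(29,0)]⟩,⟨0,[(30,0)]⟩) .k (.r 1 ⟨0,[(14,1),(29,0)]⟩ ⟨0,[(6,1),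
  (3,1)]⟩)) (.I [0,0,-1,-1,2,0,0,-2] (.R ⟨1,true,false,false,[0,0,1],[1,-1,-1],[1,1,0,-1,0,0,0,1],
  (⟨0,[(32,0)]⟩,⟨0,[(31,0)]⟩),(⟨0,[(20,0)]⟩,⟨43,[(0,1),(18,1),(7,3),(4,43),(0,7),(4,11),(0,4),(1,1),
  (4,0)]⟩),⟨0,[(21,0)]⟩,.k,.k,.k,(.r 1 ⟨33,[(1,25),(7,21),(0,9),(0,5),(4,5),(2,19),(19,2),(6,2)]⟩
  ⟨0,[(0,0)]⟩),.k,.k,⟨true,(-2),⟨6,[(1,2),(7,4),(0,0),(0,0),(3,6),(3,0),(19,0)]⟩,⟨0,[(0,0),(40,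
  0)]⟩⟩,⟨false,(-1),⟨1,[(5,0),(3,1),(7,0),(8,0)]⟩,⟨0,[(0,0),(0,0)]⟩⟩,⟨true,0,⟨0,[(43,0)]⟩,⟨0,[(44,
  0)]⟩⟩,⟨false,1,⟨23,[(0,3),(1,14),(2,7),(2,1),(10,0),(10,7),(15,11)]⟩,⟨0,[(1,0)]⟩⟩,⟨false,0,⟨0,[]⟩,
  ⟨1,[(22,0),(0,0),(22,0)]⟩⟩,⟨true,0,⟨0,[(2,0)]⟩,⟨0,[(1,0),(41,0)]⟩⟩,[]⟩) (.R ⟨1,true,false,false,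
  [0,0,1],[1,-1,-1],[1,1,0,-1,0,0,0,1],(⟨0,[(32,0)]⟩,⟨0,[(31,0)]⟩),(⟨0,[(20,0)]⟩,⟨22,[(22,2),(0,2),
  (8,22),(0,4),(4,5),(0,2)]⟩),⟨0,[(21,0)]⟩,.k,.k,.k,(.x (-2) ⟨1,[(7,3),(21,3),(4,0),(3,1),(6,2)]⟩
  ⟨39,[(0,9),(4,19),(3,29),(8,3),(0,12),(12,79),(0,0),(4,12),(1,9)]⟩),.k,.k,⟨true,(-2),⟨5,[(0,2),
  (10,0),(3,3),(0,0),(10,0),(2,0)]⟩,⟨1,[(2,1),(26,3),(4,0),(10,1),(0,0)]⟩⟩,⟨false,(-1),⟨3,[(0,1),(1,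
  1),(2,0),(11,0),(0,1),(7,0)]⟩,⟨1,[(29,3),(4,0),(10,2)]⟩⟩,⟨true,0,⟨0,[(43,0)]⟩,⟨0,[(44,0)]⟩⟩,
  ⟨false,1,⟨3,[(2,2),(2,0),(0,0),(1,0),(10,0),(26,1)]⟩,⟨0,[(1,0)]⟩⟩,⟨false,0,⟨0,[]⟩,⟨1,[(22,0),(0,
  0),(22,0)]⟩⟩,⟨true,0,⟨0,[(2,0)]⟩,⟨0,[(1,0),(41,0)]⟩⟩,[]⟩)) (.Q [0,0,0,2,0,0,2,2,0,-1,2] (.p true
  [0,0,1] [1,0,-1] (⟨0,[(31,0)]⟩,⟨0,[(30,0)]⟩) .k 2 (⟨0,[(30,0)]⟩,⟨0,[(31,0)]⟩) .k (.r 1 ⟨0,[(15,1),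
  (29,0)]⟩ ⟨0,[(7,1),(3,1)]⟩)) (.R ⟨1,true,false,false,[1,0,-1],[0,1,1],[0,1,0,0,0,0,0,-1],(⟨0,[(31,
  0)]⟩,⟨0,[(32,0)]⟩),(⟨22,[(22,2),(0,2),(8,22),(0,4),(4,5),(0,2)]⟩,⟨0,[(20,0)]⟩),⟨0,[(20,0)]⟩,.k,.k,
  .k,(.r (-2) ⟨1,[(1,1),(27,3),(4,0),(10,2)]⟩ ⟨19,[(0,12),(8,15),(0,11),(0,1),(4,1),(2,10),(19,0),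
  (6,0)]⟩),(.r (-3) ⟨0,[(8,1),(3,0)]⟩ ⟨4,[(0,2),(8,5),(0,1),(0,1),(4,1),(2,0),(19,0),(6,0)]⟩),.k,
  ⟨false,2,⟨1,[(1,1),(27,3),(4,0),(7,1),(2,2)]⟩,⟨6,[(0,2),(8,6),(0,2),(5,4),(2,0),(19,0),(6,5)]⟩⟩,
  ⟨true,2,⟨1,[(29,3),(4,0),(10,2)]⟩,⟨6,[(5,3),(3,9),(0,1),(0,1),(4,1),(2,0),(19,0),(6,0)]⟩⟩,⟨true,0,
  ⟨0,[(48,0)]⟩,⟨0,[]⟩⟩,⟨false,1,⟨15,[(0,9),(9,1),(16,9),(6,2),(11,12)]⟩,⟨0,[(1,0)]⟩⟩,⟨false,0,⟨0,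
  [(44,0)]⟩,⟨3,[(6,0),(1,0),(1,0),(8,0),(26,1)]⟩⟩,⟨true,0,⟨0,[(0,0)]⟩,⟨0,[(1,0),(41,0)]⟩⟩,[]⟩) (.Q
  [1,0,0,0,0,0,0,0,1,-1,0,1] (.p true [0,0,0,0,1] [1] (⟨0,[(25,0)]⟩,⟨0,[(24,0)]⟩) .k 1 (⟨0,[]⟩,⟨0,
  []⟩) .k .k) (.Q [0,0,1,0,-1,0,0,0,1,0,0,1] (.p true [0,0,0,0,1] [] (⟨0,[(26,0)]⟩,⟨0,[(25,0)]⟩) .k
  0 (⟨0,[]⟩,⟨0,[]⟩) .k .k) (.Q [0,0,0,0,0,-1,0,0,0,0,0,1] (.ed false [1,-1,0,0,1] .k) (.Q [-1,0,0,0,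
  1,0,0,0,-1,0,0,-1] (.p false [0,0,0,0,1] [] (⟨0,[(28,0)]⟩,⟨0,[(27,0)]⟩) .k 0 (⟨0,[]⟩,⟨0,[]⟩) .k
  .k) (.S ⟨1,0,[1,1],[0,0,0,0,1],[],(⟨0,[(29,0)]⟩,⟨0,[(28,0)]⟩),⟨0,[(1,0)]⟩,.k,(.r (-1) ⟨75,[(12,
  31),(1,5),(6,11),(1,9),(7,13),(6,4),(11,6)]⟩ ⟨7,[(0,2),(15,3),(10,2),(22,0),(1,1)]⟩),⟨false,1,⟨1,
  [(0,0),(26,0),(22,0)]⟩,⟨0,[]⟩⟩,⟨true,0,⟨0,[(52,0)]⟩,⟨0,[]⟩⟩,⟨true,0,⟨1,[(10,1),(2,1),(29,0),(2,5),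
  (3,2)]⟩,⟨0,[(47,0)]⟩⟩,⟨false,0,⟨0,[(48,0)]⟩,⟨1,[(0,0),(7,0),(41,0)]⟩⟩,[.e ⟨false,1,⟨1,[(0,0),(26,
  0),(21,0)]⟩,⟨0,[]⟩⟩ ⟨false,0,⟨0,[(46,0)]⟩,⟨1,[(0,0),(26,0),(22,0)]⟩⟩,.o ⟨false,0,⟨0,[(3,0)]⟩,⟨0,
  [(0,0)]⟩⟩,.o ⟨false,0,⟨3,[(2,1),(0,1),(40,0),(4,0)]⟩,⟨0,[(26,0)]⟩⟩,.a ⟨true,(-1),⟨0,[(2,0)]⟩,⟨1,
  [(0,1),(42,0),(5,0)]⟩⟩ ⟨false,1,⟨1,[(49,0),(0,0)]⟩,⟨2,[(10,0),(12,0),(9,0)]⟩⟩ ⟨true,0,⟨0,[(46,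
  0)]⟩,⟨2,[(10,0),(12,0),(9,0)]⟩⟩]⟩) (.R ⟨2,true,false,true,[0,1],[0,0,0,0,1],[1,1],(⟨0,[]⟩,⟨0,[]⟩),
  (⟨0,[(29,0)]⟩,⟨0,[(28,0)]⟩),⟨0,[]⟩,.k,.k,.k,(.r 0 ⟨9,[(16,4),(9,2),(0,2),(22,1),(1,3)]⟩ ⟨75,[(12,
  31),(1,5),(6,11),(1,9),(7,13),(6,4),(11,6)]⟩),.k,.k,⟨false,1,⟨1,[(26,0),(0,0),(21,0)]⟩,⟨0,[]⟩⟩,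
  ⟨true,(-1),⟨0,[(2,0)]⟩,⟨0,[(26,0)]⟩⟩,⟨false,1,⟨75,[(12,31),(1,5),(6,11),(1,9),(7,13),(6,4),(11,
  6)]⟩,⟨1,[(16,0),(33,0)]⟩⟩,⟨true,(-1),⟨0,[(0,0),(46,0)]⟩,⟨0,[(26,0),(21,0)]⟩⟩,⟨true,0,⟨0,[(46,0)]⟩,
  ⟨2,[(10,0),(12,0),(9,0)]⟩⟩,⟨false,(-1),⟨0,[(0,0)]⟩,⟨4,[(26,6),(0,1),(22,2),(1,0)]⟩⟩,[]⟩)) (.Q [1,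
  1,0,-1,-1,0,-1,-1,1,0,-1,1] (.p false [0,0,1] [0,0,0,0,1] (⟨0,[(35,0)]⟩,⟨0,[(34,0)]⟩) .k 2 (⟨0,
  [(28,0)]⟩,⟨0,[(27,0)]⟩) .k (.r 0 ⟨2,[(19,0),(0,0),(9,0),(2,0),(15,0)]⟩ ⟨0,[(11,0),(3,0)]⟩)) (.R
  ⟨0,false,false,true,[0,0,0,0,1],[0,1],[0,1],(⟨0,[(29,0)]⟩,⟨0,[(28,0)]⟩),(⟨0,[(40,0)]⟩,⟨0,[(39,
  0)]⟩),⟨0,[(1,0)]⟩,.k,.k,(.r (-1) ⟨75,[(12,31),(1,5),(6,11),(1,9),(7,13),(6,4),(11,6)]⟩ ⟨9,[(16,4),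
  (9,2),(0,2),(22,1),(1,3)]⟩),(.r (-1) ⟨75,[(12,31),(1,5),(6,11),(1,9),(7,13),(6,4),(11,6)]⟩ ⟨9,
  [(16,4),(9,2),(0,2),(22,1),(1,3)]⟩),.k,.k,⟨true,1,⟨75,[(12,31),(1,5),(6,11),(1,9),(7,13),(6,4),
  (11,6)]⟩,⟨0,[(15,0)]⟩⟩,⟨false,2,⟨0,[(26,0),(22,0)]⟩,⟨0,[(2,0)]⟩⟩,⟨true,0,⟨0,[(52,0)]⟩,⟨0,[]⟩⟩,
  ⟨false,1,⟨0,[(26,0),(21,0)]⟩,⟨2,[(0,0),(1,1),(11,0),(34,0),(0,1)]⟩⟩,⟨false,0,⟨0,[]⟩,⟨0,[]⟩⟩,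
  ⟨false,0,⟨0,[]⟩,⟨0,[]⟩⟩,[.o ⟨false,0,⟨0,[(17,0)]⟩,⟨3,[(10,0),(1,0),(1,0),(8,0),(26,1)]⟩⟩,.a ⟨true,
  0,⟨0,[(48,0)]⟩,⟨91,[(9,4),(2,17),(1,22),(8,8),(13,5),(1,5),(3,35),(7,35)]⟩⟩ ⟨false,1,⟨1,[(26,0),
  (0,0),(21,0)]⟩,⟨0,[]⟩⟩ ⟨true,1,⟨0,[(26,0),(21,0)]⟩,⟨6,[(0,2),(1,3),(11,2),(0,1),(30,0),(3,1)]⟩⟩,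
  .o ⟨false,0,⟨3,[(2,1),(0,1),(40,0),(4,0)]⟩,⟨0,[(26,0)]⟩⟩,.e ⟨true,0,⟨0,[(46,0)]⟩,⟨2,[(10,0),(12,
  0),(9,0)]⟩⟩ ⟨true,1,⟨2,[(17,1),(8,2),(16,0),(2,0),(1,0),(0,0)]⟩,⟨6,[(0,2),(1,3),(11,2),(0,1),(30,
  0),(3,1)]⟩⟩]⟩) (.R ⟨1,false,false,false,[1,0,0,0,-1],[0,1],[1,1,1],(⟨0,[(28,0)]⟩,⟨0,[(29,0)]⟩),
  (⟨0,[(40,0)]⟩,⟨0,[(39,0)]⟩),⟨1,[(1,0),(9,0),(13,0),(2,0)]⟩,.k,.k,(.r (-1) ⟨110,[(0,6),(11,48),(1,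
  9),(6,24),(1,11),(3,6),(3,6),(12,5),(6,11)]⟩ ⟨1,[(16,0),(9,0),(0,0)]⟩),(.r (-1) ⟨110,[(0,6),(11,
  48),(1,9),(6,24),(1,11),(3,6),(3,6),(12,5),(6,11)]⟩ ⟨1,[(16,0),(9,0),(0,0)]⟩),(.r (-2) ⟨64,[(0,
  13),(7,13),(3,53),(1,3),(6,21),(1,15),(7,13),(6,7)]⟩ ⟨0,[(16,0)]⟩),.k,⟨true,0,⟨0,[(47,0)]⟩,⟨1,
  [(16,0),(33,0)]⟩⟩,⟨false,1,⟨0,[(3,0),(45,0)]⟩,⟨22,[(0,9),(3,8),(10,7),(4,7),(5,12),(6,7),(9,6),(2,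
  0),(5,0)]⟩⟩,⟨false,0,⟨2,[(10,0),(12,0),(9,0)]⟩,⟨0,[(46,0),(3,0)]⟩⟩,⟨true,0,⟨0,[(7,0)]⟩,⟨4,[(0,2),
  (3,2),(10,0),(3,2),(6,1),(6,2),(9,0),(2,4)]⟩⟩,⟨true,(-1),⟨0,[(15,0),(30,0)]⟩,⟨110,[(0,6),(11,48),
  (1,9),(6,24),(1,11),(3,6),(3,6),(12,5),(6,11)]⟩⟩,⟨true,0,⟨0,[(7,0),(40,0)]⟩,⟨7,[(0,6),(3,6),(5,4),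
  (3,1),(4,4),(6,0),(16,2),(2,9)]⟩⟩,[.a ⟨true,0,⟨0,[(48,0)]⟩,⟨91,[(9,4),(2,17),(1,22),(8,8),(13,5),
  (1,5),(3,35),(7,35)]⟩⟩ ⟨false,0,⟨0,[(52,0)]⟩,⟨1,[(49,0),(0,0)]⟩⟩ ⟨true,0,⟨5,[(2,1),(4,3),(36,0),
  (3,1),(0,0)]⟩,⟨4,[(0,2),(3,2),(10,0),(3,2),(6,1),(6,2),(9,0)]⟩⟩,.o ⟨false,1,⟨0,[(17,0),(32,0)]⟩,
  ⟨0,[(47,0)]⟩⟩,.o ⟨false,1,⟨0,[(26,0)]⟩,⟨3,[(2,1),(0,1),(40,0),(4,0)]⟩⟩,.e ⟨false,0,⟨0,[]⟩,⟨20,[(0,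
  4),(6,0),(2,2),(1,4),(10,3),(3,3),(17,3),(4,5)]⟩⟩ ⟨false,1,⟨1,[(7,1),(41,0),(0,0)]⟩,⟨4,[(0,2),(3,
  2),(10,0),(3,2),(6,1),(6,2),(9,0)]⟩⟩]⟩))) (.Q [1,-1,0,0,0,0,0,0,1,0,0,1] (.p true [0,0,0,0,1] []
  (⟨0,[(27,0)]⟩,⟨0,[(26,0)]⟩) .k 0 (⟨0,[]⟩,⟨0,[]⟩) .k .k) (.R ⟨2,true,false,false,[0,1],[0,0,0,0,1],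
  [1,0,1],(⟨0,[]⟩,⟨0,[]⟩),(⟨0,[(28,0)]⟩,⟨0,[(27,0)]⟩),⟨0,[]⟩,.k,.k,.k,(.r 0 ⟨9,[(15,4),(9,2),(0,2),
  (22,1),(1,3)]⟩ ⟨75,[(11,31),(1,5),(6,11),(1,9),(7,13),(6,4),(11,6)]⟩),.k,.k,⟨true,0,⟨2,[(9,0),(12,
  0),(9,0)]⟩,⟨0,[]⟩⟩,⟨false,0,⟨0,[(26,0)]⟩,⟨0,[(1,0)]⟩⟩,⟨false,1,⟨3,[(9,0),(1,0),(1,0),(8,0),(26,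
  1)]⟩,⟨0,[(47,0)]⟩⟩,⟨true,0,⟨1,[(7,0),(18,0)]⟩,⟨0,[(1,0),(12,0),(30,0)]⟩⟩,⟨true,0,⟨0,[]⟩,⟨0,[(51,
  0)]⟩⟩,⟨false,0,⟨0,[(0,0)]⟩,⟨1,[(1,0),(23,0),(24,0)]⟩⟩,[]⟩) (.R ⟨1,false,false,false,[1,0,-1],[0,0,
  0,0,1],[1,0,0,-1,0,0,0,-1],(⟨0,[(34,0)]⟩,⟨0,[(35,0)]⟩),(⟨0,[(28,0)]⟩,⟨0,[(27,0)]⟩),⟨0,[(23,0)]⟩,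
  .k,.k,.k,.k,(.r (-2) ⟨1,[(11,1),(3,0),(9,0),(0,0)]⟩ ⟨0,[(19,0),(24,0)]⟩),.k,⟨true,1,⟨11,[(5,2),(3,
  3),(1,5),(10,0),(9,3)]⟩,⟨0,[(19,0),(24,0)]⟩⟩,⟨false,1,⟨0,[(2,0),(29,0),(15,0)]⟩,⟨9,[(0,5),(0,3),
  (6,0),(3,3),(0,0),(8,2),(19,2),(6,2)]⟩⟩,⟨false,1,⟨3,[(9,0),(1,0),(1,0),(8,0),(26,1)]⟩,⟨0,[(47,
  0)]⟩⟩,⟨true,0,⟨1,[(6,1),(6,0),(6,0),(11,0)]⟩,⟨15,[(0,12),(4,7),(19,2),(10,1),(1,1),(3,2),(8,2)]⟩⟩,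
  ⟨true,0,⟨0,[]⟩,⟨0,[(51,0)]⟩⟩,⟨true,0,⟨0,[(6,0),(13,0),(11,0)]⟩,⟨23,[(0,20),(3,7),(3,7),(16,2),(10,
  1),(1,1),(3,2),(8,2)]⟩⟩,[.o ⟨false,0,⟨0,[(2,0)]⟩,⟨1,[(1,0),(23,0),(24,0)]⟩⟩,.o ⟨false,1,⟨1,[(26,
  1),(10,0),(11,0)]⟩,⟨0,[(0,0)]⟩⟩,.o ⟨false,0,⟨0,[(21,0)]⟩,⟨1,[(32,1),(4,0),(10,0)]⟩⟩,.a ⟨true,(-1),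
  ⟨18,[(8,5),(3,4),(1,6),(4,5),(2,3),(13,0),(1,0),(3,3),(6,2)]⟩,⟨0,[(32,0),(15,0)]⟩⟩ ⟨false,2,⟨0,
  [(11,0),(32,0)]⟩,⟨0,[(19,0),(24,0)]⟩⟩ ⟨true,1,⟨0,[(2,0),(29,0),(15,0)]⟩,⟨18,[(0,18),(7,5),(3,4),
  (1,6),(4,5),(2,3),(13,0),(1,0),(3,3),(6,2)]⟩⟩]⟩))) (.R ⟨2,true,false,true,[0,1],[1,0,0,0,-1],[0,
  1],(⟨0,[]⟩,⟨0,[]⟩),(⟨0,[(25,0)]⟩,⟨0,[(26,0)]⟩),⟨0,[]⟩,.k,.k,.k,(.r 0 ⟨1,[(13,0),(9,0),(0,0)]⟩ ⟨95,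
  [(9,41),(1,5),(6,21),(1,9),(7,13),(12,4),(5,6),(0,9)]⟩),.k,.k,⟨true,0,⟨0,[]⟩,⟨2,[(7,0),(12,0),(9,
  0)]⟩⟩,⟨false,0,⟨0,[(0,0)]⟩,⟨1,[(24,1),(10,0),(10,0)]⟩⟩,⟨false,1,⟨75,[(9,31),(1,5),(6,11),(1,9),(7,
  13),(6,4),(11,6)]⟩,⟨0,[(42,0)]⟩⟩,⟨true,0,⟨0,[(0,0),(43,0)]⟩,⟨0,[(4,0)]⟩⟩,⟨true,0,⟨0,[(43,0)]⟩,⟨2,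
  [(7,0),(12,0),(9,0)]⟩⟩,⟨false,0,⟨0,[(0,0)]⟩,⟨1,[(24,1),(10,0),(11,0)]⟩⟩,[]⟩)))))))))) (.I [0,0,2,
  0,-2,2,-1] (.R ⟨0,false,false,false,[1,-1,-1],[1,-1],[1,0,1],(⟨0,[(13,0)]⟩,⟨22,[(15,2),(0,2),(8,
  22),(0,4),(4,5),(0,2)]⟩),(⟨0,[(28,0)]⟩,⟨0,[(29,0)]⟩),⟨7,[(0,1),(13,5),(7,1),(8,5),(1,0),(4,2)]⟩,
  .k,.k,(.x 2 ⟨0,[(0,0)]⟩ ⟨1,[(13,1),(1,0),(0,0),(5,1),(4,1),(0,1),(9,2)]⟩),.k,.k,.k,⟨true,(-1),⟨0,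
  [(4,0)]⟩,⟨1,[(36,1),(1,0),(0,0)]⟩⟩,⟨false,1,⟨0,[(22,0),(15,0)]⟩,⟨0,[(11,0)]⟩⟩,⟨false,(-1),⟨18,[(1,
  12),(1,4),(0,2),(15,0),(2,5),(15,9)]⟩,⟨1,[(7,1),(14,1),(15,2),(0,0)]⟩⟩,⟨true,0,⟨0,[(10,0),(11,
  0)]⟩,⟨0,[(21,0)]⟩⟩,⟨false,0,⟨0,[]⟩,⟨0,[]⟩⟩,⟨false,0,⟨0,[]⟩,⟨0,[]⟩⟩,[.e ⟨false,0,⟨0,[]⟩,⟨1,[(15,0),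
  (0,0),(21,0)]⟩⟩ ⟨false,2,⟨1,[(22,1),(13,1),(1,2),(0,0)]⟩,⟨0,[(2,0)]⟩⟩,.o ⟨false,1,⟨0,[(36,0),(2,
  0)]⟩,⟨0,[(6,0)]⟩⟩,.a ⟨true,(-1),⟨3,[(0,1),(11,0),(0,2),(0,0)]⟩,⟨0,[(22,0),(15,0)]⟩⟩ ⟨true,0,⟨1,
  [(22,0),(0,0)]⟩,⟨0,[(35,0)]⟩⟩ ⟨false,2,⟨0,[(22,0),(13,0),(1,0),(0,0)]⟩,⟨0,[(2,0)]⟩⟩,.o ⟨false,
  (-1),⟨9,[(2,6),(0,3),(0,4),(2,3),(15,2),(15,1)]⟩,⟨1,[(22,1),(4,0),(10,2)]⟩⟩]⟩) (.Q [0,0,2,0,0,0,1,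
  0,0,-1,1] (.p true [0,0,1] [1] (⟨0,[(25,0)]⟩,⟨0,[(24,0)]⟩) .k 1 (⟨0,[]⟩,⟨0,[]⟩) .k .k) (.I [0,0,
  -2,0,2,-2,1] (.Q [0,0,0,0,0,2,0,0,0,-1,1] (.p true [0,0,1] [1] (⟨0,[(27,0)]⟩,⟨0,[(26,0)]⟩) .k 1
  (⟨0,[]⟩,⟨0,[]⟩) .k .k) (.R ⟨0,false,false,false,[1,-1,-1],[1,-1],[1,0,1],(⟨0,[(16,0)]⟩,⟨4,[(0,1),
  (17,0),(0,0),(8,2),(0,0),(5,0)]⟩),(⟨0,[(31,0)]⟩,⟨0,[(32,0)]⟩),⟨0,[(0,0)]⟩,.k,.k,(.x 1 ⟨25,[(0,24),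
  (5,7),(0,23),(2,7),(4,12),(12,0),(0,1),(5,5),(6,3),(0,3)]⟩ ⟨0,[(1,0)]⟩),.k,.k,.k,⟨true,(-1),⟨0,
  [(7,0)]⟩,⟨1,[(39,1),(1,0),(0,0)]⟩⟩,⟨false,1,⟨5,[(0,1),(2,1),(21,3),(9,0),(5,2)]⟩,⟨0,[(14,0)]⟩⟩,
  ⟨false,(-1),⟨3,[(2,0),(1,2),(1,0),(8,0),(26,1)]⟩,⟨5,[(0,3),(2,3),(6,5),(14,1),(9,1),(5,2),(0,
  2)]⟩⟩,⟨true,0,⟨7,[(0,1),(2,1),(0,1),(1,1),(6,1),(9,1),(1,1),(9,0),(6,0)]⟩,⟨0,[(24,0)]⟩⟩,⟨false,0,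
  ⟨0,[]⟩,⟨0,[]⟩⟩,⟨false,0,⟨0,[]⟩,⟨0,[]⟩⟩,[.e ⟨false,0,⟨0,[]⟩,⟨1,[(18,0),(0,0),(21,0)]⟩⟩ ⟨false,2,⟨1,
  [(0,1),(2,1),(31,0),(3,1),(2,0)]⟩,⟨0,[(5,0)]⟩⟩,.o ⟨false,1,⟨0,[(39,0),(2,0)]⟩,⟨0,[(9,0)]⟩⟩,.a
  ⟨true,(-1),⟨85,[(5,65),(0,21),(3,21),(4,9),(13,13),(1,13),(3,30),(6,10),(0,19)]⟩,⟨5,[(0,1),(2,1),
  (21,3),(9,0),(5,2)]⟩⟩ ⟨true,0,⟨2,[(2,0),(12,0),(9,0)]⟩,⟨0,[(38,0)]⟩⟩ ⟨false,2,⟨2,[(0,1),(2,1),(21,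
  0),(9,0),(3,2),(2,2)]⟩,⟨0,[(5,0)]⟩⟩,.o ⟨false,(-1),⟨9,[(5,6),(0,3),(0,4),(2,3),(15,2),(15,1)]⟩,⟨0,
  [(0,0),(2,0)]⟩⟩]⟩) (.R ⟨1,false,false,false,[1,-1,-1],[1,-1],[1,0,1],(⟨0,[(16,0)]⟩,⟨22,[(18,2),(0,
  2),(8,22),(0,4),(4,5),(0,2)]⟩),(⟨0,[(31,0)]⟩,⟨0,[(32,0)]⟩),⟨0,[(0,0)]⟩,.k,.k,(.x 1 ⟨21,[(5,3),(0,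
  7),(0,19),(2,7),(4,8),(12,21),(0,4),(4,12),(0,1),(6,3)]⟩ ⟨0,[(1,0)]⟩),.k,.k,.k,⟨true,(-1),⟨0,[(7,
  0)]⟩,⟨1,[(39,1),(1,0),(0,0)]⟩⟩,⟨false,1,⟨0,[(25,0),(15,0)]⟩,⟨0,[(14,0)]⟩⟩,⟨false,(-1),⟨3,[(2,0),
  (1,2),(1,0),(8,0),(26,1)]⟩,⟨1,[(10,1),(14,1),(15,2),(0,0)]⟩⟩,⟨true,0,⟨0,[(13,0),(11,0)]⟩,⟨0,[(24,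
  0)]⟩⟩,⟨true,(-2),⟨0,[(4,0)]⟩,⟨1,[(10,1),(14,1),(13,1),(1,2),(0,0)]⟩⟩,⟨true,0,⟨3,[(4,1),(18,1),(1,
  1),(15,2),(0,0)]⟩,⟨0,[(10,0)]⟩⟩,[.e ⟨false,0,⟨0,[]⟩,⟨1,[(18,0),(0,0),(21,0)]⟩⟩ ⟨false,2,⟨1,[(25,
  1),(13,1),(1,2),(0,0)]⟩,⟨0,[(5,0)]⟩⟩,.o ⟨false,1,⟨0,[(39,0),(2,0)]⟩,⟨0,[(9,0)]⟩⟩,.a ⟨true,(-1),
  ⟨85,[(5,65),(0,21),(3,21),(4,9),(13,13),(1,13),(3,30),(6,10),(0,19)]⟩,⟨0,[(25,0),(15,0)]⟩⟩ ⟨true,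
  0,⟨2,[(2,0),(12,0),(9,0)]⟩,⟨0,[(38,0)]⟩⟩ ⟨false,2,⟨0,[(25,0),(13,0),(1,0),(0,0)]⟩,⟨0,[(5,0)]⟩⟩,.o
  ⟨false,(-1),⟨9,[(5,6),(0,3),(0,4),(2,3),(15,2),(15,1)]⟩,⟨0,[(1,0),(15,0),(16,0)]⟩⟩]⟩)) (.Q [0,0,0,
  0,0,2,0,0,0,0,-1] (.p false [0,0,1] [] (⟨0,[(27,0)]⟩,⟨0,[(26,0)]⟩) .k 0 (⟨0,[]⟩,⟨0,[]⟩) .k .k)
  (.Q [0,0,1,1,0,0,2,1,0,-1,2] (.p true [0,0,1] [1,0,-1] (⟨0,[(28,0)]⟩,⟨0,[(27,0)]⟩) .k 2 (⟨0,[(27,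
  0)]⟩,⟨0,[(28,0)]⟩) .k (.r 1 ⟨12,[(4,5),(1,3),(4,3),(1,11),(1,1),(14,0),(11,1)]⟩ ⟨0,[(24,1),(0,1),
  (15,0),(0,0)]⟩)) (.R ⟨0,false,false,false,[0,-1,1],[1,-1,-1],[0,1],(⟨0,[(18,0)]⟩,⟨4,[(1,1),(17,0),
  (0,0),(7,2),(1,0),(5,0)]⟩),(⟨0,[(17,0)]⟩,⟨22,[(19,2),(0,2),(8,22),(0,4),(4,5),(0,2)]⟩),⟨0,[(1,
  0)]⟩,.k,.k,(.r (-1) ⟨1,[(7,1),(15,1),(7,0),(10,0)]⟩ ⟨0,[(25,0),(0,0),(11,0),(2,0)]⟩),.k,.k,.k,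
  ⟨false,(-1),⟨1,[(5,0),(8,0),(19,0)]⟩,⟨0,[(11,0),(14,0),(15,0),(0,0)]⟩⟩,⟨true,(-1),⟨3,[(6,3),(4,1),
  (0,1),(10,1),(12,0),(5,0),(0,1)]⟩,⟨2,[(3,1),(0,0),(13,0),(7,2),(8,0),(6,0)]⟩⟩,⟨true,0,⟨0,[(25,0),
  (0,0),(14,0)]⟩,⟨1,[(12,1),(29,0),(0,0)]⟩⟩,⟨false,1,⟨1,[(25,3),(10,0),(6,2)]⟩,⟨5,[(0,3),(4,1),(1,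
  3),(6,1),(16,0),(10,2)]⟩⟩,⟨false,0,⟨0,[]⟩,⟨0,[]⟩⟩,⟨false,0,⟨0,[]⟩,⟨0,[]⟩⟩,[.e ⟨false,0,⟨0,[(39,
  0)]⟩,⟨1,[(19,0),(0,0),(22,0)]⟩⟩ ⟨false,1,⟨1,[(11,1),(11,1),(18,0),(0,0)]⟩,⟨0,[(0,0)]⟩⟩,.o ⟨false,
  1,⟨0,[(11,0),(31,0)]⟩,⟨2,[(0,0),(9,1),(3,0),(9,0)]⟩⟩,.a ⟨true,0,⟨0,[(26,0)]⟩,⟨0,[(23,0)]⟩⟩ ⟨true,
  0,⟨0,[(45,0)]⟩,⟨0,[]⟩⟩ ⟨false,1,⟨0,[(11,0),(11,0),(19,0)]⟩,⟨0,[(0,0)]⟩⟩,.o ⟨false,0,⟨0,[(3,0)]⟩,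
  ⟨1,[(23,1),(7,0),(10,0)]⟩⟩]⟩) (.R ⟨0,false,false,false,[0,-1,1],[1,-1,-1],[0,1],(⟨0,[(18,0)]⟩,⟨4,
  [(1,1),(17,0),(0,0),(7,2),(1,0),(5,0)]⟩),(⟨0,[(17,0)]⟩,⟨22,[(19,2),(0,2),(8,22),(0,4),(4,5),(0,
  2)]⟩),⟨0,[(1,0)]⟩,.k,.k,(.r (-1) ⟨21,[(0,3),(6,19),(6,5),(1,5),(14,4),(10,16)]⟩ ⟨0,[(25,0),(0,0),
  (11,0),(2,0)]⟩),.k,.k,.k,⟨false,(-1),⟨1,[(5,0),(8,0),(19,0)]⟩,⟨0,[(11,0),(14,0),(15,0),(0,0)]⟩⟩,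
  ⟨true,(-1),⟨12,[(0,9),(4,5),(6,1),(1,1),(1,2),(26,0)]⟩,⟨2,[(3,1),(0,0),(13,0),(7,2),(8,0),(6,
  0)]⟩⟩,⟨true,0,⟨0,[(25,0),(0,0),(14,0)]⟩,⟨1,[(12,1),(29,0),(0,0)]⟩⟩,⟨false,1,⟨1,[(25,3),(10,0),(6,
  2)]⟩,⟨2,[(3,0),(0,1),(0,2),(1,2),(10,1),(16,1),(6,1)]⟩⟩,⟨false,0,⟨0,[]⟩,⟨0,[]⟩⟩,⟨false,0,⟨0,[]⟩,
  ⟨0,[]⟩⟩,[.a ⟨true,0,⟨0,[(0,0),(25,0)]⟩,⟨3,[(5,1),(18,1),(1,1),(15,2),(0,0)]⟩⟩ ⟨false,0,⟨0,[(39,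
  0)]⟩,⟨1,[(19,0),(0,0),(22,0)]⟩⟩ ⟨true,0,⟨0,[(0,0)]⟩,⟨11,[(3,7),(0,3),(0,5),(12,3),(5,5),(1,5),(8,
  3),(6,0),(0,2)]⟩⟩,.o ⟨false,1,⟨0,[(11,0),(31,0)]⟩,⟨14,[(3,1),(0,3),(0,5),(1,2),(2,8),(7,3),(5,5),
  (10,3),(6,3)]⟩⟩,.e ⟨true,0,⟨0,[(45,0)]⟩,⟨0,[]⟩⟩ ⟨true,0,⟨0,[(0,0)]⟩,⟨14,[(3,1),(0,3),(0,5),(1,2),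
  (2,8),(7,3),(5,5),(1,14),(8,3),(6,3)]⟩⟩,.o ⟨false,0,⟨0,[(3,0)]⟩,⟨13,[(0,1),(5,1),(7,1),(1,3),(14,
  2),(10,12)]⟩⟩]⟩)) (.I [1,-1,2,2,0,0,0,-1] (.S ⟨1,0,[0,0,-1,-1,0,0,0,1],[0,-1,1],[1,0,1],(⟨0,[(18,
  0)]⟩,⟨22,[(19,2),(0,2),(7,22),(1,4),(4,5),(0,2)]⟩),⟨0,[(1,0)]⟩,.k,(.r (-1) ⟨1,[(7,1),(15,1),(7,0),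
  (10,0)]⟩ ⟨0,[(0,0),(44,0)]⟩),⟨true,0,⟨0,[(0,0),(39,0)]⟩,⟨0,[(12,0),(29,0)]⟩⟩,⟨false,1,⟨1,[(19,0),
  (0,0),(22,0)]⟩,⟨0,[]⟩⟩,⟨false,0,⟨0,[(0,0)]⟩,⟨1,[(7,1),(15,1),(7,0),(10,0)]⟩⟩,⟨true,0,⟨0,[(41,0)]⟩,
  ⟨0,[(40,0)]⟩⟩,[.a ⟨true,0,⟨1,[(7,0),(6,0),(11,0)]⟩,⟨19,[(0,9),(0,0),(4,0),(4,0),(5,0),(5,8),(1,8),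
  (4,2),(5,4),(5,5)]⟩⟩ ⟨false,0,⟨0,[]⟩,⟨1,[(19,0),(0,0),(21,0)]⟩⟩ ⟨true,0,⟨1,[(12,1),(29,0),(0,0)]⟩,
  ⟨0,[(0,0),(39,0)]⟩⟩,.o ⟨false,1,⟨11,[(4,1),(0,1),(1,7),(10,1),(5,1),(6,4),(3,1),(7,6)]⟩,⟨13,[(0,
  3),(9,5),(12,3),(1,9),(10,0),(2,1),(2,0)]⟩⟩,.e ⟨true,0,⟨2,[(3,0),(12,0),(9,0)]⟩,⟨0,[(39,0)]⟩⟩
  ⟨true,0,⟨1,[(12,1),(29,0),(0,0)]⟩,⟨1,[(0,0),(24,0),(0,0),(7,0)]⟩⟩,.o ⟨false,0,⟨0,[(3,0)]⟩,⟨1,[(23,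
  1),(7,0),(10,0)]⟩⟩]⟩) (.I [0,0,0,0,1,0,0,0,-1] (.I [1,0,0,0,0,3,0,0,1] (.I [1,0,1,0,0,2,1] (.I [0,
  0,2,0,0,-1,1] (.I [0,1,0,-3] (.I [0,1,1,-1,0,0,0,-1] (.I [0,1,0,-1,0,-2,-1,-1] (.I [5,0,0,0,-1,6]
  (.I [0,0,0,1,0,-1,1,1] (.C [(0,1),(1,1),(41,1),(0,0),(6,0)]) (.C [(0,7),(4,1),(3,1),(3,5),(0,5),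
  (29,1),(0,0),(6,0)])) (.C [(0,0),(42,1),(0,0)])) (.C [(0,0),(7,0),(9,0)])) (.C [(0,0),(16,0),(14,
  0)])) (.C [(0,0),(11,0),(3,0)])) (.C [(0,0),(6,0),(13,0)])) (.C [(0,0),(19,0),(8,0),(8,0)])) (.C
  [(0,0),(21,0),(0,0),(13,0)])) (.C [(0,0),(19,0),(2,0)]))))) (.Q [0,0,0,0,0,2,0,0,0,0,-1] (.p
  false [0,0,1] [] (⟨0,[(26,0)]⟩,⟨0,[(25,0)]⟩) .k 0 (⟨0,[]⟩,⟨0,[]⟩) .k .k) (.R ⟨0,false,false,true,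
  [0,-1,1],[1,-1],[0,1,0,-1],(⟨0,[(16,0)]⟩,⟨22,[(17,2),(0,2),(7,22),(1,4),(4,5),(0,2)]⟩),(⟨0,[(30,
  0)]⟩,⟨0,[(31,0)]⟩),⟨0,[(0,0)]⟩,.k,.k,(.r (-1) ⟨2,[(1,0),(3,2),(8,0),(14,0),(10,1)]⟩ ⟨0,[(23,0),(0,
  0),(11,0),(2,0)]⟩),.k,.k,.k,⟨true,0,⟨1,[(24,0),(0,0)]⟩,⟨0,[]⟩⟩,⟨false,0,⟨0,[(21,0)]⟩,⟨2,[(2,0),
  (13,0),(7,1),(8,0),(1,0)]⟩⟩,⟨true,0,⟨0,[(23,0),(0,0)]⟩,⟨0,[(12,0)]⟩⟩,⟨false,0,⟨1,[(9,1),(24,0),(4,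
  1),(1,0)]⟩,⟨2,[(2,0),(0,0),(1,0),(10,0),(5,0),(6,0),(3,0),(7,1)]⟩⟩,⟨false,0,⟨0,[]⟩,⟨0,[]⟩⟩,⟨false,
  0,⟨0,[]⟩,⟨0,[]⟩⟩,[.o ⟨false,0,⟨0,[(38,0)]⟩,⟨0,[(8,0),(32,0)]⟩⟩,.a ⟨true,0,⟨1,[(34,0),(3,1),(2,
  0)]⟩,⟨0,[(39,0)]⟩⟩ ⟨false,1,⟨1,[(38,1),(1,0),(0,0)]⟩,⟨0,[(39,0)]⟩⟩ ⟨true,0,⟨100,[(1,53),(2,6),(0,
  35),(3,35),(4,19),(13,4),(1,4),(3,10),(6,17)]⟩,⟨1,[(7,0),(16,1),(4,0)]⟩⟩,.a ⟨true,0,⟨0,[(24,0)]⟩,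
  ⟨0,[(21,0)]⟩⟩ ⟨true,0,⟨0,[(38,0)]⟩,⟨0,[(39,0)]⟩⟩ ⟨false,0,⟨100,[(1,53),(2,6),(0,35),(3,35),(4,19),
  (13,4),(1,4),(3,10),(6,17)]⟩,⟨0,[(8,0),(15,0),(16,0)]⟩⟩,.a ⟨true,0,⟨1,[(24,2),(0,0)]⟩,⟨0,[(1,
  0)]⟩⟩ ⟨false,1,⟨1,[(38,1),(1,0),(0,0)]⟩,⟨0,[(36,0)]⟩⟩ ⟨true,0,⟨0,[(1,0),(36,0)]⟩,⟨1,[(7,0),(16,1),
  (4,0)]⟩⟩]⟩) (.S ⟨1,0,[0,0,-1,-1,0,0,0,1],[0,-1,1],[0,1,-1,-1,0,0,0,1],(⟨0,[(16,0)]⟩,⟨22,[(17,2),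
  (0,2),(7,22),(1,4),(4,5),(0,2)]⟩),⟨0,[(0,0)]⟩,.k,(.r (-1) ⟨2,[(1,0),(3,2),(8,0),(14,0),(10,1)]⟩
  ⟨0,[(23,0),(0,0),(11,0),(2,0)]⟩),⟨true,0,⟨0,[(43,0)]⟩,⟨0,[]⟩⟩,⟨false,1,⟨1,[(17,0),(0,0),(22,0)]⟩,
  ⟨0,[]⟩⟩,⟨false,0,⟨0,[(39,0)]⟩,⟨0,[(38,0),(2,0)]⟩⟩,⟨true,0,⟨0,[(39,0)]⟩,⟨0,[(38,0)]⟩⟩,[.a ⟨true,0,
  ⟨1,[(5,0),(6,0),(11,0)]⟩,⟨1,[(23,1),(10,0),(4,1),(1,0)]⟩⟩ ⟨false,0,⟨0,[(10,0),(29,0)]⟩,⟨0,[(23,0),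
  (0,0),(14,0),(1,0)]⟩⟩ ⟨true,0,⟨5,[(1,1),(3,1),(4,1),(1,1),(16,0),(11,0)]⟩,⟨0,[(23,0),(0,0),(11,
  0)]⟩⟩,.o ⟨false,1,⟨11,[(2,1),(0,1),(1,7),(10,1),(5,1),(6,4),(3,1),(7,6)]⟩,⟨0,[(23,0),(15,0)]⟩⟩,.a
  ⟨true,0,⟨0,[(24,0)]⟩,⟨0,[(21,0)]⟩⟩ ⟨false,0,⟨5,[(1,1),(3,1),(4,1),(1,1),(16,0),(11,0)]⟩,⟨0,[(23,
  0),(0,0),(14,0),(1,0)]⟩⟩ ⟨true,0,⟨5,[(1,1),(3,1),(4,1),(1,1),(16,0),(11,0)]⟩,⟨0,[(23,0),(0,0),(14,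
  0)]⟩⟩,.a ⟨true,0,⟨1,[(24,2),(0,0)]⟩,⟨0,[(1,0)]⟩⟩ ⟨true,0,⟨0,[(10,0),(29,0)]⟩,⟨0,[(23,0),(0,0),(11,
  0)]⟩⟩ ⟨false,1,⟨3,[(1,1),(3,1),(6,1),(16,0),(10,0),(0,1)]⟩,⟨0,[(23,0),(0,0),(11,0)]⟩⟩]⟩)))))

theorem ok7 : chk K t7 r9 = true := by decide +kernel

noncomputable def t12 : Tre :=
  (.R ⟨1,false,false,false,[1,0,-1],[1,-1],[1,0,0,-1,0,0,0,-1],(⟨0,[(18,0)]⟩,⟨0,[(19,0)]⟩),(⟨0,[(22,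
  0)]⟩,⟨0,[(23,0)]⟩),⟨0,[(7,0)]⟩,.k,.k,.k,.k,.k,.k,⟨false,1,⟨1,[(15,1),(0,1),(15,0),(0,0)]⟩,⟨0,[(4,
  0)]⟩⟩,⟨true,0,⟨0,[(16,0)]⟩,⟨0,[(5,0)]⟩⟩,⟨false,1,⟨0,[(30,0),(2,0)]⟩,⟨0,[(31,0)]⟩⟩,⟨true,0,⟨3,[(0,
  1),(1,1),(1,1),(11,3),(4,0),(10,0)]⟩,⟨0,[(15,0),(15,0)]⟩⟩,⟨true,0,⟨0,[]⟩,⟨0,[(35,0)]⟩⟩,⟨true,0,⟨0,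
  [(4,0),(11,0)]⟩,⟨0,[(15,0)]⟩⟩,[.a ⟨true,0,⟨8,[(0,4),(8,1),(0,1),(15,1),(3,3),(4,0)]⟩,⟨0,[(31,
  0)]⟩⟩ ⟨true,1,⟨1,[(1,1),(14,1),(15,0),(0,0)]⟩,⟨0,[(3,0),(24,0)]⟩⟩ ⟨false,1,⟨1,[(0,1),(15,1),(4,0),
  (7,1),(2,0)]⟩,⟨0,[(5,0),(25,0)]⟩⟩,.a ⟨true,0,⟨0,[(0,0)]⟩,⟨0,[(31,0),(3,0)]⟩⟩ ⟨false,2,⟨0,[(1,0),
  (14,0),(15,0),(0,0)]⟩,⟨0,[(3,0),(27,0)]⟩⟩ ⟨true,1,⟨1,[(0,1),(15,1),(4,0),(10,0)]⟩,⟨0,[(3,0),(11,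
  0),(12,0)]⟩⟩,.o ⟨false,0,⟨0,[(5,0)]⟩,⟨1,[(16,1),(4,0),(10,0)]⟩⟩,.a ⟨true,(-1),⟨3,[(0,1),(0,1),(1,
  2),(1,0),(9,0),(10,0),(1,3)]⟩,⟨0,[(16,0),(15,0)]⟩⟩ ⟨false,2,⟨0,[(1,0),(14,0),(15,0),(0,0)]⟩,⟨0,
  [(3,0),(24,0)]⟩⟩ ⟨true,1,⟨1,[(0,1),(15,1),(4,0),(7,1),(2,0)]⟩,⟨0,[(3,0),(11,0),(12,0)]⟩⟩]⟩)

theorem ok12 : chk K t12 r5 = true := by decide +kernel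

noncomputable def t17 : Tre :=
  (.R ⟨2,true,false,true,[0,1],[1,-1],[0,1],(⟨0,[]⟩,⟨0,[]⟩),(⟨0,[(19,0)]⟩,⟨0,[(20,0)]⟩),⟨0,[]⟩,.k,
  .k,.k,(.r 1 ⟨0,[(0,0),(31,0)]⟩ ⟨0,[(27,1),(1,0),(0,0)]⟩),.k,.k,⟨false,0,⟨0,[(28,0)]⟩,⟨1,[(27,1),
  (1,0),(0,0)]⟩⟩,⟨true,(-1),⟨1,[(0,1),(22,0),(3,3),(2,0)]⟩,⟨1,[(18,0),(10,0)]⟩⟩,⟨false,1,⟨1,[(27,1),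
  (1,0),(0,0)]⟩,⟨0,[(25,0)]⟩⟩,⟨true,0,⟨1,[(23,0),(3,3),(2,0)]⟩,⟨1,[(0,1),(17,0),(7,1),(2,0)]⟩⟩,
  ⟨true,0,⟨0,[(26,0)]⟩,⟨1,[(13,0),(0,0)]⟩⟩,⟨false,0,⟨1,[(23,0),(3,1),(2,0)]⟩,⟨1,[(18,0),(9,1),(1,
  0)]⟩⟩,[]⟩)

theorem ok17 : chk K t17 l10 = true := by decide +kernel

noncomputable def t18 : Tre :=
  (.I [1,0,0,0,0,0,0,-1] (.R ⟨2,true,false,true,[0,1],[0,0,1],[1,1,1],(⟨0,[]⟩,⟨0,[]⟩),(⟨0,[(18,0)]⟩,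
  ⟨0,[(17,0)]⟩),⟨0,[]⟩,.k,.k,.k,.k,.k,.k,⟨false,0,⟨0,[(0,0)]⟩,⟨1,[(12,1),(0,1),(6,0),(11,0)]⟩⟩,
  ⟨true,0,⟨0,[(15,0)]⟩,⟨0,[(4,0)]⟩⟩,⟨true,0,⟨0,[(29,0)]⟩,⟨0,[(30,0)]⟩⟩,⟨false,1,⟨0,[(13,0),(15,0),
  (2,0)]⟩,⟨0,[(1,0)]⟩⟩,⟨false,0,⟨0,[]⟩,⟨1,[(8,0),(0,0),(22,0)]⟩⟩,⟨true,0,⟨0,[(13,0)]⟩,⟨0,[(0,0),(3,
  0)]⟩⟩,[]⟩) (.R ⟨2,true,false,true,[0,1],[0,0,1],[0,1,1,1],(⟨0,[]⟩,⟨0,[]⟩),(⟨0,[(18,0)]⟩,⟨0,[(17,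
  0)]⟩),⟨0,[]⟩,.k,.k,.k,.k,.k,.k,⟨false,0,⟨0,[(1,0),(13,0),(12,0)]⟩,⟨11,[(0,7),(1,5),(2,1),(7,3),(6,
  0),(11,4)]⟩⟩,⟨true,0,⟨0,[(15,0)]⟩,⟨0,[(4,0)]⟩⟩,⟨true,0,⟨0,[(34,0)]⟩,⟨0,[]⟩⟩,⟨false,1,⟨0,[(13,0),
  (15,0),(2,0)]⟩,⟨0,[(1,0)]⟩⟩,⟨false,0,⟨0,[(30,0)]⟩,⟨0,[(29,0),(2,0)]⟩⟩,⟨true,0,⟨0,[(13,0)]⟩,⟨0,[(1,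
  0),(27,0)]⟩⟩,[]⟩))

theorem ok18 : chk K t18 l11 = true := by decide +kernel

noncomputable def t19 : Tre :=
  (.R ⟨2,true,false,true,[0,1],[1,-1],[0,1],(⟨0,[]⟩,⟨0,[]⟩),(⟨0,[(22,0)]⟩,⟨0,[(23,0)]⟩),⟨0,[]⟩,.k,
  .k,.k,(.x (-2) ⟨0,[(21,0),(0,1),(9,0)]⟩ ⟨0,[(1,0)]⟩),.k,.k,⟨false,0,⟨0,[(31,0)]⟩,⟨3,[(3,1),(5,0),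
  (0,0),(22,0)]⟩⟩,⟨true,(-1),⟨0,[(1,0),(5,0),(0,0)]⟩,⟨1,[(21,0),(10,0)]⟩⟩,⟨false,1,⟨3,[(3,1),(5,0),
  (0,0),(22,0)]⟩,⟨0,[(28,0)]⟩⟩,⟨true,0,⟨1,[(26,0),(3,3),(2,0)]⟩,⟨0,[(0,0)]⟩⟩,⟨true,0,⟨0,[(29,0)]⟩,
  ⟨1,[(16,0),(0,0)]⟩⟩,⟨false,0,⟨1,[(26,0),(3,1),(2,0)]⟩,⟨3,[(0,1),(8,0),(0,0),(10,0),(11,1)]⟩⟩,[]⟩)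

theorem ok19 : chk K t19 l13 = true := by decide +kernel

noncomputable def t20 : Tre :=
  (.S ⟨1,0,[0,0,-1,-1],[1,-1],[0,1,-1,-1],(⟨0,[(24,0)]⟩,⟨0,[(25,0)]⟩),⟨0,[(9,0),(0,0)]⟩,.k,(.x 1 ⟨0,
  [(3,0)]⟩ ⟨0,[(23,0),(0,1),(9,0)]⟩),⟨true,0,⟨0,[(37,0)]⟩,⟨0,[]⟩⟩,⟨false,1,⟨1,[(11,0),(0,0),(22,
  0)]⟩,⟨0,[]⟩⟩,⟨false,0,⟨0,[(33,0)]⟩,⟨3,[(2,1),(8,0),(0,0),(10,0),(11,1)]⟩⟩,⟨true,0,⟨0,[(33,0)]⟩,⟨0,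
  [(32,0)]⟩⟩,[.e ⟨false,1,⟨7,[(5,3),(5,0),(0,0),(13,1),(7,2)]⟩,⟨0,[(30,0)]⟩⟩ ⟨false,1,⟨0,[(0,0)]⟩,
  ⟨0,[(30,0),(6,0)]⟩⟩,.o ⟨false,1,⟨3,[(2,1),(8,0),(0,0),(10,0),(11,1)]⟩,⟨0,[(1,0)]⟩⟩,.o ⟨false,0,⟨1,
  [(18,0),(0,0)]⟩,⟨1,[(23,0),(10,0)]⟩⟩,.a ⟨true,(-1),⟨0,[(3,0),(5,0),(0,0)]⟩,⟨0,[(34,0)]⟩⟩ ⟨false,1,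
  ⟨0,[(0,0)]⟩,⟨1,[(18,0),(0,0),(10,1)]⟩⟩ ⟨true,1,⟨0,[(0,0)]⟩,⟨0,[(1,0),(1,0),(5,0),(0,0)]⟩⟩]⟩)

theorem ok20 : chk K t20 l15 = true := by decide +kernel

noncomputable def t21 : Tre :=
  (.R ⟨1,true,false,false,[1,-1],[0,1],[0,1,-1,-1],(⟨0,[(26,0)]⟩,⟨0,[(27,0)]⟩),(⟨0,[(27,0)]⟩,⟨0,
  [(26,0)]⟩),⟨0,[(11,0),(0,0)]⟩,.k,.k,(.x 1 ⟨0,[(5,0)]⟩ ⟨2,[(0,1),(0,1),(23,1),(0,5)]⟩),(.x 1 ⟨0,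
  [(5,0)]⟩ ⟨2,[(0,1),(0,1),(23,1),(0,5)]⟩),(.r (-2) ⟨0,[(1,0)]⟩ ⟨28,[(0,18),(1,26),(7,14),(9,29),(9,
  1),(1,2),(6,2)]⟩),.k,⟨true,1,⟨0,[(7,0)]⟩,⟨0,[(2,0),(29,0)]⟩⟩,⟨false,2,⟨0,[(0,0),(0,0)]⟩,⟨13,[(2,
  9),(1,4),(5,0),(9,1),(9,3),(7,5)]⟩⟩,⟨true,0,⟨0,[(39,0)]⟩,⟨0,[]⟩⟩,⟨false,1,⟨5,[(0,3),(12,1),(0,1),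
  (10,0),(11,2)]⟩,⟨0,[(4,0)]⟩⟩,⟨false,0,⟨0,[(35,0)]⟩,⟨9,[(1,1),(2,1),(15,2),(0,2),(3,0),(11,4)]⟩⟩,
  ⟨true,0,⟨0,[(0,0)]⟩,⟨0,[(4,0),(29,0)]⟩⟩,[]⟩)

theorem ok21 : chk K t21 l17 = true := by decide +kernel

noncomputable def t22 : Tre :=
  (.Q [0,0,0,1,0,0,-1,-1,0,0,-1] (.p false [0,0,1] [] (⟨0,[(25,0)]⟩,⟨0,[(24,0)]⟩) .k 0 (⟨0,[]⟩,⟨0,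
  []⟩) .k .k) (.R ⟨2,true,false,false,[0,1],[0,0,1],[1,1,1],(⟨0,[]⟩,⟨0,[]⟩),(⟨0,[(26,0)]⟩,⟨0,[(25,
  0)]⟩),⟨0,[]⟩,.k,.k,.k,.k,.k,.k,⟨false,0,⟨0,[(11,0),(24,0)]⟩,⟨1,[(2,1),(36,0),(0,0)]⟩⟩,⟨true,0,⟨0,
  [(23,0)]⟩,⟨0,[(12,0)]⟩⟩,⟨true,0,⟨0,[(37,0)]⟩,⟨0,[(38,0)]⟩⟩,⟨false,1,⟨0,[(9,0),(30,0)]⟩,⟨0,[(0,
  0)]⟩⟩,⟨false,0,⟨0,[]⟩,⟨1,[(16,0),(0,0),(22,0)]⟩⟩,⟨true,0,⟨0,[(1,0)]⟩,⟨0,[(22,0)]⟩⟩,[]⟩) (.Q [0,0,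
  1,0,-1,0,-1,0,0,1,-1] (.p false [0,0,1] [1] (⟨0,[(26,0)]⟩,⟨0,[(25,0)]⟩) .k 1 (⟨0,[]⟩,⟨0,[]⟩) .k
  .k) (.I [0,-1,0,1,0,0,0,1] (.R ⟨1,false,false,false,[1,0,-1],[1,-1],[],(⟨0,[(27,0)]⟩,⟨0,[(28,
  0)]⟩),(⟨0,[(31,0)]⟩,⟨0,[(32,0)]⟩),⟨0,[(16,0)]⟩,.k,.k,.k,.k,.k,.k,⟨false,0,⟨0,[(40,0)]⟩,⟨2,[(6,0),
  (11,0),(0,0)]⟩⟩,⟨true,0,⟨0,[(25,0)]⟩,⟨0,[(14,0)]⟩⟩,⟨true,0,⟨0,[(4,0)]⟩,⟨0,[(13,0),(24,0)]⟩⟩,⟨true,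
  0,⟨0,[(2,0)]⟩,⟨0,[(24,0),(15,0)]⟩⟩,⟨false,0,⟨0,[(0,0)]⟩,⟨2,[(6,0),(6,2),(4,0),(0,0)]⟩⟩,⟨true,0,⟨0,
  [(3,0)]⟩,⟨0,[(24,0)]⟩⟩,[.e ⟨false,1,⟨1,[(18,0),(0,0),(21,0)]⟩,⟨0,[]⟩⟩ ⟨false,1,⟨0,[(2,0),(10,0),
  (27,0)]⟩,⟨0,[(0,0),(23,0)]⟩⟩,.o ⟨false,1,⟨17,[(5,1),(0,3),(18,5),(0,5),(3,0),(11,8)]⟩,⟨0,[(8,
  0)]⟩⟩,.o ⟨false,0,⟨0,[(14,0)]⟩,⟨1,[(25,1),(4,0),(10,0)]⟩⟩,.a ⟨true,(-1),⟨0,[(1,0)]⟩,⟨0,[(25,0),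
  (15,0)]⟩⟩ ⟨false,1,⟨1,[(41,0),(0,0)]⟩,⟨1,[(25,0),(0,0)]⟩⟩ ⟨true,1,⟨0,[(2,0),(10,0),(27,0)]⟩,⟨0,
  [(1,0),(6,0)]⟩⟩]⟩) (.Q [0,0,0,2,0,0,-1,-1,0,0,-1] (.p false [0,0,1] [] (⟨0,[(28,0)]⟩,⟨0,[(27,
  0)]⟩) .k 0 (⟨0,[]⟩,⟨0,[]⟩) .k .k) (.I [0,0,-2,-2,1,0,0,1] (.R ⟨1,true,false,false,[0,0,1],[0,1],
  [0,1,0,0,0,0,0,1],(⟨0,[(30,0)]⟩,⟨0,[(29,0)]⟩),(⟨0,[(34,0)]⟩,⟨0,[(33,0)]⟩),⟨0,[(19,0)]⟩,.k,.k,.k,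
  .k,(.r (-1) ⟨0,[(0,0)]⟩ ⟨1,[(1,1),(25,2),(0,0)]⟩),.k,⟨true,0,⟨1,[(0,0),(2,0),(0,0),(5,0),(29,0)]⟩,
  ⟨0,[(15,0),(23,0)]⟩⟩,⟨false,1,⟨0,[(0,0),(0,0)]⟩,⟨0,[(27,0)]⟩⟩,⟨true,0,⟨0,[(46,0)]⟩,⟨0,[]⟩⟩,⟨false,
  1,⟨3,[(1,1),(18,0),(0,0),(4,1),(17,2)]⟩,⟨0,[(4,0)]⟩⟩,⟨false,0,⟨0,[(42,0)]⟩,⟨17,[(7,1),(0,3),(18,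
  5),(0,5),(3,0),(11,8)]⟩⟩,⟨true,0,⟨0,[(1,0)]⟩,⟨0,[(4,0),(36,0)]⟩⟩,[]⟩) (.I [0,0,2,0,-1,2,1] (.R ⟨1,
  true,false,true,[0,0,1],[0,1],[0,0,0,0,0,0,0,1],(⟨0,[(31,0)]⟩,⟨0,[(30,0)]⟩),(⟨0,[(35,0)]⟩,⟨0,[(34,
  0)]⟩),⟨0,[(20,0)]⟩,.k,.k,.k,.k,(.x 1 ⟨0,[(0,0)]⟩ ⟨3,[(18,1),(1,3),(0,0),(0,0),(10,2),(0,3),(9,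
  3)]⟩),.k,⟨true,1,⟨1,[(5,1),(19,1),(7,0),(11,0)]⟩,⟨1,[(1,0),(1,0),(6,0),(36,0)]⟩⟩,⟨false,1,⟨1,[(25,
  1),(7,0),(10,0)]⟩,⟨0,[(28,0)]⟩⟩,⟨false,1,⟨1,[(21,0),(0,0),(22,0)]⟩,⟨0,[]⟩⟩,⟨true,0,⟨1,[(2,0),(24,
  0),(19,0)]⟩,⟨0,[(5,0)]⟩⟩,⟨true,0,⟨0,[(43,0)]⟩,⟨0,[(42,0)]⟩⟩,⟨false,0,⟨0,[(2,0)]⟩,⟨5,[(5,1),(2,1),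
  (5,3),(18,0),(11,4)]⟩⟩,[]⟩) (.I [0,0,-2,0,1,-2,-1] (.R ⟨1,true,false,false,[0,0,1],[0,1],[0,1,0,0,
  0,0,0,1],(⟨0,[(32,0)]⟩,⟨0,[(31,0)]⟩),(⟨0,[(36,0)]⟩,⟨0,[(35,0)]⟩),⟨0,[(21,0)]⟩,.k,.k,.k,.k,(.x 0
  ⟨5,[(14,2),(7,0),(0,0),(5,5),(1,5),(2,1),(3,1)]⟩ ⟨0,[(0,0)]⟩),.k,⟨true,0,⟨0,[(6,0),(11,0),(23,
  0)]⟩,⟨0,[(17,0),(23,0)]⟩⟩,⟨false,1,⟨1,[(26,1),(7,0),(10,0)]⟩,⟨0,[(29,0)]⟩⟩,⟨true,0,⟨0,[(48,0)]⟩,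
  ⟨0,[]⟩⟩,⟨false,1,⟨3,[(3,1),(18,0),(0,0),(4,1),(17,2)]⟩,⟨0,[(6,0)]⟩⟩,⟨false,0,⟨0,[(44,0)]⟩,⟨17,[(9,
  1),(0,3),(18,5),(0,5),(3,0),(11,8)]⟩⟩,⟨true,0,⟨0,[(3,0)]⟩,⟨0,[(6,0),(36,0)]⟩⟩,[]⟩) (.Q [0,-1,0,1,
  0,0,-1,-1,0,1,-1] (.p false [0,0,1] [1] (⟨0,[(32,0)]⟩,⟨0,[(31,0)]⟩) .k 1 (⟨0,[]⟩,⟨0,[]⟩) .k .k)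
  (.R ⟨2,true,false,false,[0,1],[1,1,-1],[0,0,1,1],(⟨0,[]⟩,⟨0,[]⟩),(⟨22,[(23,2),(0,2),(7,22),(1,4),
  (4,5),(0,2)]⟩,⟨0,[(22,0)]⟩),⟨0,[]⟩,.k,.k,.k,.k,.k,.k,⟨true,0,⟨0,[(9,0)]⟩,⟨0,[(18,0)]⟩⟩,⟨false,0,
  ⟨0,[(27,0)]⟩,⟨1,[(30,1),(4,0),(10,0)]⟩⟩,⟨false,1,⟨1,[(23,0),(0,0),(22,0)]⟩,⟨0,[]⟩⟩,⟨true,0,⟨24,
  [(0,13),(13,6),(8,1),(0,1),(4,10),(10,1),(8,2)]⟩,⟨0,[(7,0),(5,0)]⟩⟩,⟨true,0,⟨0,[(45,0)]⟩,⟨0,[(44,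
  0)]⟩⟩,⟨false,0,⟨0,[(0,0)]⟩,⟨1,[(16,1),(18,0),(11,0)]⟩⟩,[]⟩) (.Q [0,1,-2,-1,1,0,2,1,0,-1,2] (.p
  true [0,0,1] [1,0,-1] (⟨0,[(33,0)]⟩,⟨0,[(32,0)]⟩) .k 2 (⟨0,[(32,0)]⟩,⟨0,[(33,0)]⟩) .k (.r 0 ⟨0,
  [(9,1)]⟩ ⟨0,[(18,1),(27,0)]⟩)) (.Q [0,0,0,0,0,2,0,0,0,-1,1] (.p true [0,0,1] [1] (⟨0,[(34,0)]⟩,⟨0,
  [(33,0)]⟩) .k 1 (⟨0,[]⟩,⟨0,[]⟩) .k .k) (.Q [0,0,-2,0,1,0,1,0,0,0,1] (.p true [0,0,1] [] (⟨0,[(35,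
  0)]⟩,⟨0,[(34,0)]⟩) .k 0 (⟨0,[]⟩,⟨0,[]⟩) .k .k) (.R ⟨0,false,false,false,[1,-1,-1],[1,-1],[0,0,0,
  -1],(⟨0,[(24,0)]⟩,⟨4,[(1,1),(24,0),(0,0),(8,2),(0,0),(5,0)]⟩),(⟨0,[(39,0)]⟩,⟨0,[(40,0)]⟩),⟨0,[(1,
  0)]⟩,.k,.k,(.r (-2) ⟨4,[(0,0),(6,0),(6,3),(6,3),(4,0),(0,0)]⟩ ⟨1,[(7,0),(3,0),(0,1),(2,1)]⟩),.k,
  .k,.k,⟨true,0,⟨1,[(33,0),(0,0)]⟩,⟨0,[]⟩⟩,⟨false,1,⟨2,[(0,1),(25,0),(0,0),(5,0)]⟩,⟨0,[(22,0)]⟩⟩,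
  ⟨false,0,⟨5,[(9,1),(0,1),(1,3),(2,1),(22,0),(11,2)]⟩,⟨14,[(0,5),(6,5),(6,3),(6,8),(4,0),(0,0)]⟩⟩,
  ⟨true,0,⟨0,[(11,0)]⟩,⟨0,[(32,0)]⟩⟩,⟨false,0,⟨0,[]⟩,⟨0,[]⟩⟩,⟨false,0,⟨0,[]⟩,⟨0,[]⟩⟩,[.a ⟨true,0,⟨5,
  [(17,2),(8,0),(0,0),(9,0),(1,0),(3,0)]⟩,⟨0,[(48,0)]⟩⟩ ⟨false,1,⟨2,[(14,0),(11,0),(0,0)]⟩,⟨1,[(7,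
  0),(3,0)]⟩⟩ ⟨true,1,⟨2,[(0,0),(13,0),(18,1)]⟩,⟨0,[(15,0),(6,0)]⟩⟩,.o ⟨false,1,⟨17,[(13,1),(0,3),
  (18,5),(0,5),(3,0),(11,8)]⟩,⟨0,[(16,0)]⟩⟩,.a ⟨true,(-1),⟨0,[(9,0)]⟩,⟨2,[(0,1),(25,0),(0,0),(5,
  0)]⟩⟩ ⟨false,1,⟨17,[(13,1),(0,3),(18,5),(0,5),(3,0),(11,8)]⟩,⟨1,[(7,0),(3,0)]⟩⟩ ⟨true,1,⟨2,[(0,0),
  (13,0),(18,1)]⟩,⟨0,[(9,0),(6,0)]⟩⟩,.a ⟨true,(-1),⟨1,[(15,1),(1,0),(5,0)]⟩,⟨0,[(0,0)]⟩⟩ ⟨true,1,⟨2,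
  [(14,0),(11,0),(0,0)]⟩,⟨0,[(15,0),(30,0)]⟩⟩ ⟨false,2,⟨5,[(0,3),(13,1),(11,0),(0,0),(5,1),(16,2)]⟩,
  ⟨0,[(15,0),(6,0)]⟩⟩]⟩) (.Q [0,0,1,1,-1,0,-2,-1,0,1,-2] (.p false [0,0,1] [1,0,-1] (⟨0,[(36,0)]⟩,
  ⟨0,[(35,0)]⟩) .k 2 (⟨0,[(35,0)]⟩,⟨0,[(36,0)]⟩) .k (.r 0 ⟨0,[(12,1)]⟩ ⟨0,[(21,1),(27,0)]⟩)) (.R ⟨0,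
  false,false,false,[1,-1,-1],[0,-1,1],[0,1],(⟨0,[(25,0)]⟩,⟨4,[(2,1),(24,0),(0,0),(8,2),(0,0),(5,
  0)]⟩),(⟨0,[(26,0)]⟩,⟨22,[(27,2),(0,2),(7,22),(1,4),(4,5),(0,2)]⟩),⟨0,[(2,0)]⟩,.k,.k,(.r (-2) ⟨1,
  [(8,0),(6,1),(6,0),(11,0)]⟩ ⟨1,[(8,0),(3,0),(0,1),(2,1)]⟩),.k,.k,.k,⟨false,0,⟨12,[(3,1),(3,0),(0,
  8),(0,4),(24,4),(7,2),(1,0)]⟩,⟨2,[(3,0),(7,1),(11,2),(7,0),(19,1)]⟩⟩,⟨true,1,⟨7,[(3,5),(3,1),(0,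
  0),(13,2),(11,4),(4,0),(11,2)]⟩,⟨0,[(1,0),(29,0)]⟩⟩,⟨true,(-1),⟨5,[(4,0),(5,0),(2,4),(2,2),(0,3),
  (26,1),(2,0)]⟩,⟨1,[(9,1),(40,0),(0,0)]⟩⟩,⟨false,1,⟨1,[(12,3),(26,0),(11,0)]⟩,⟨1,[(0,1),(8,1),(40,
  0),(0,0)]⟩⟩,⟨false,0,⟨0,[]⟩,⟨0,[]⟩⟩,⟨false,0,⟨0,[]⟩,⟨0,[]⟩⟩,[.e ⟨false,0,⟨0,[(47,0)]⟩,⟨1,[(27,0),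
  (0,0),(22,0)]⟩⟩ ⟨false,2,⟨1,[(3,1),(23,0),(0,0),(22,0)]⟩,⟨0,[(0,0)]⟩⟩,.o ⟨false,1,⟨1,[(11,1),(27,
  0),(11,0)]⟩,⟨1,[(8,0),(24,0),(19,0)]⟩⟩,.a ⟨true,(-1),⟨0,[(10,0)]⟩,⟨0,[(34,0),(15,0)]⟩⟩ ⟨true,0,⟨0,
  [(53,0)]⟩,⟨0,[]⟩⟩ ⟨false,2,⟨8,[(3,4),(11,0),(4,0),(11,2),(1,3),(4,1),(11,8)]⟩,⟨0,[(0,0)]⟩⟩,.o
  ⟨false,(-1),⟨0,[(1,0)]⟩,⟨11,[(3,9),(4,7),(6,1),(6,1),(4,3),(0,3),(10,0),(11,4)]⟩⟩]⟩) (.Q [0,0,0,2,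
  0,0,1,1,0,-1,1] (.p true [0,0,1] [1] (⟨0,[(37,0)]⟩,⟨0,[(36,0)]⟩) .k 1 (⟨0,[]⟩,⟨0,[]⟩) .k .k) (.R
  ⟨1,false,false,false,[1,0,-1],[0,1],[],(⟨0,[(37,0)]⟩,⟨0,[(38,0)]⟩),(⟨0,[(42,0)]⟩,⟨0,[(41,0)]⟩),⟨0,
  [(26,0)]⟩,.k,.k,.k,.k,(.r (-2) ⟨1,[(9,0),(6,1),(6,0),(11,0)]⟩ ⟨12,[(0,5),(13,4),(2,11),(7,3),(7,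
  1),(11,0),(1,1)]⟩),.k,⟨true,1,⟨2,[(16,0),(11,0),(0,0)]⟩,⟨0,[(17,0)]⟩⟩,⟨false,2,⟨11,[(4,9),(4,7),
  (6,1),(6,1),(4,3),(0,3),(10,0),(11,4)]⟩,⟨0,[(11,0)]⟩⟩,⟨true,0,⟨0,[(14,0)]⟩,⟨25,[(4,1),(3,0),(0,8),
  (0,17),(24,4),(7,2),(1,0)]⟩⟩,⟨false,1,⟨3,[(0,1),(32,1),(6,0),(11,2)]⟩,⟨0,[(9,0),(5,0)]⟩⟩,⟨true,0,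
  ⟨11,[(0,5),(13,3),(10,3),(7,1),(11,0),(6,0)]⟩,⟨0,[(10,0)]⟩⟩,⟨true,0,⟨0,[(0,0)]⟩,⟨0,[(19,0),(14,
  0)]⟩⟩,[.e ⟨false,1,⟨1,[(28,0),(0,0),(21,0)]⟩,⟨0,[]⟩⟩ ⟨false,1,⟨29,[(0,1),(3,21),(3,5),(0,17),(25,
  1),(4,2),(11,10)]⟩,⟨1,[(19,0),(5,0)]⟩⟩,.o ⟨false,1,⟨7,[(0,1),(8,1),(18,0),(0,0),(10,2),(11,3)]⟩,
  ⟨0,[(49,0)]⟩⟩,.o ⟨false,0,⟨0,[(24,0)]⟩,⟨5,[(4,1),(4,0),(13,0),(4,0),(0,0),(5,2),(4,1),(11,0)]⟩⟩,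
  .a ⟨true,(-1),⟨0,[(11,0)]⟩,⟨0,[(35,0),(15,0)]⟩⟩ ⟨false,1,⟨1,[(51,0),(0,0)]⟩,⟨1,[(35,0),(0,0)]⟩⟩
  ⟨true,1,⟨29,[(0,1),(3,21),(3,5),(0,17),(25,1),(4,2),(11,10)]⟩,⟨8,[(2,4),(8,1),(3,1),(9,0),(17,2),
  (1,1),(3,2)]⟩⟩]⟩) (.R ⟨0,false,false,false,[1,-1,-1],[0,-1,1],[0,1],(⟨0,[(26,0)]⟩,⟨4,[(3,1),(24,
  0),(0,0),(8,2),(0,0),(5,0)]⟩),(⟨0,[(27,0)]⟩,⟨22,[(28,2),(0,2),(7,22),(1,4),(4,5),(0,2)]⟩),⟨0,[(3,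
  0)]⟩,.k,.k,(.r (-2) ⟨1,[(9,0),(6,1),(6,0),(11,0)]⟩ ⟨1,[(9,0),(3,0),(0,1),(2,1)]⟩),.k,.k,.k,⟨false,
  0,⟨12,[(4,1),(3,0),(0,8),(0,4),(24,4),(7,2),(1,0)]⟩,⟨2,[(4,0),(7,1),(11,2),(7,0),(19,1)]⟩⟩,⟨true,
  1,⟨7,[(4,5),(3,1),(0,0),(13,2),(11,4),(4,0),(11,2)]⟩,⟨0,[(2,0),(29,0)]⟩⟩,⟨true,(-1),⟨5,[(5,0),(5,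
  0),(2,4),(2,2),(0,3),(26,1),(2,0)]⟩,⟨1,[(10,1),(40,0),(0,0)]⟩⟩,⟨false,1,⟨0,[(1,0),(12,0),(32,0)]⟩,
  ⟨0,[(0,0),(8,0)]⟩⟩,⟨false,0,⟨0,[]⟩,⟨0,[]⟩⟩,⟨false,0,⟨0,[]⟩,⟨0,[]⟩⟩,[.a ⟨true,0,⟨0,[(12,0)]⟩,⟨3,
  [(0,0),(8,2),(18,0),(0,0),(9,0),(1,0),(3,0)]⟩⟩ ⟨false,0,⟨0,[(48,0)]⟩,⟨1,[(28,0),(0,0),(22,0)]⟩⟩
  ⟨true,1,⟨0,[(1,0)]⟩,⟨3,[(0,0),(1,0),(5,2),(16,2)]⟩⟩,.o ⟨false,1,⟨1,[(12,1),(27,0),(11,0)]⟩,⟨1,[(9,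
  0),(24,0),(19,0)]⟩⟩,.e ⟨true,0,⟨0,[(54,0)]⟩,⟨0,[]⟩⟩ ⟨true,1,⟨0,[(1,0)]⟩,⟨3,[(8,0),(0,0),(1,2),(13,
  0),(8,1),(8,0)]⟩⟩,.o ⟨false,(-1),⟨0,[(2,0)]⟩,⟨11,[(4,9),(4,7),(6,1),(6,1),(4,3),(0,3),(10,0),(11,
  4)]⟩⟩]⟩)))) (.Q [0,0,0,1,0,0,2,2,0,-1,2] (.p true [0,0,1] [1,0,-1] (⟨0,[(35,0)]⟩,⟨0,[(34,0)]⟩) .k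
  2 (⟨0,[(34,0)]⟩,⟨0,[(35,0)]⟩) .k (.r 0 ⟨0,[(11,1)]⟩ ⟨0,[(20,1),(27,0)]⟩)) (.R ⟨1,true,false,false,
  [1,0,-1],[0,0,1],[1,1,0,-1,0,0,0,-1],(⟨0,[(35,0)]⟩,⟨0,[(36,0)]⟩),(⟨0,[(36,0)]⟩,⟨0,[(35,0)]⟩),⟨0,
  [(24,0)]⟩,.k,.k,.k,.k,(.r (-2) ⟨0,[(7,0),(6,0),(6,0),(11,0)]⟩ ⟨0,[(0,0),(8,0),(12,0)]⟩),.k,⟨false,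
  1,⟨0,[(8,0),(12,0),(27,0)]⟩,⟨1,[(0,1),(8,0),(12,1),(7,0),(19,0)]⟩⟩,⟨true,1,⟨7,[(2,5),(3,1),(0,0),
  (13,2),(11,4),(4,0),(11,2)]⟩,⟨0,[(9,0),(12,0)]⟩⟩,⟨true,0,⟨0,[(47,0)]⟩,⟨0,[(48,0)]⟩⟩,⟨false,1,⟨5,
  [(0,3),(18,3),(18,0),(11,4)]⟩,⟨2,[(1,2),(3,2),(0,2),(0,0),(0,1),(0,1),(3,1),(28,3),(3,1),(3,1)]⟩⟩,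
  ⟨false,0,⟨0,[]⟩,⟨1,[(26,0),(0,0),(22,0)]⟩⟩,⟨true,0,⟨0,[(0,0)]⟩,⟨0,[(7,0),(5,0),(18,0)]⟩⟩,[]⟩) (.I
  [0,0,1,1,-1,0,0,2] (.R ⟨1,true,false,false,[1,0,-1],[0,1,1],[1,1,0,-1,0,0,0,-1],(⟨0,[(36,0)]⟩,⟨0,
  [(37,0)]⟩),(⟨22,[(27,2),(0,2),(8,22),(0,4),(4,5),(0,2)]⟩,⟨0,[(25,0)]⟩),⟨0,[(25,0)]⟩,.k,.k,.k,(.r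
  (-2) ⟨0,[(8,0),(6,0),(6,0),(11,0)]⟩ ⟨0,[(0,0)]⟩),(.r (-2) ⟨1,[(1,1),(1,1),(18,1),(27,0),(0,0)]⟩
  ⟨12,[(0,10),(7,2),(7,1),(15,6),(2,3),(10,6)]⟩),.k,⟨true,1,⟨0,[(1,0),(1,0),(18,0)]⟩,⟨0,[(0,0),(45,
  0)]⟩⟩,⟨false,2,⟨1,[(3,1),(4,0),(13,0),(11,0),(15,0),(0,0)]⟩,⟨0,[(10,0),(12,0)]⟩⟩,⟨true,0,⟨0,[(48,
  0)]⟩,⟨0,[(49,0)]⟩⟩,⟨false,1,⟨11,[(0,4),(2,9),(4,0),(23,4),(6,0),(6,14),(4,5)]⟩,⟨0,[(1,0)]⟩⟩,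
  ⟨false,0,⟨0,[]⟩,⟨1,[(27,0),(0,0),(22,0)]⟩⟩,⟨true,0,⟨1,[(0,1),(2,1),(3,1),(42,0),(0,0)]⟩,⟨0,[(1,0),
  (46,0)]⟩⟩,[]⟩) (.I [0,0,0,0,1,0,0,0,-1] (.I [1,0,0,-1,0,1,1,1] (.C [(0,3),(1,1),(1,1),(3,5),(0,5),
  (2,3),(0,5),(31,3),(1,0),(1,1),(3,0)]) (.C [(0,0),(3,0),(8,0),(31,0)])) (.C [(0,0),(27,0),(2,
  0)]))))) (.Q [0,0,0,0,0,2,0,0,0,-1,1] (.p true [0,0,1] [1] (⟨0,[(34,0)]⟩,⟨0,[(33,0)]⟩) .k 1 (⟨0,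
  []⟩,⟨0,[]⟩) .k .k) (.R ⟨0,false,false,false,[1,-1,-1],[0,-1,1],[0,1],(⟨0,[(23,0)]⟩,⟨4,[(0,1),(24,
  0),(0,0),(8,2),(0,0),(5,0)]⟩),(⟨0,[(24,0)]⟩,⟨22,[(25,2),(0,2),(7,22),(1,4),(4,5),(0,2)]⟩),⟨0,[(0,
  0)]⟩,.k,.k,(.r (-2) ⟨1,[(6,0),(6,1),(6,0),(11,0)]⟩ ⟨1,[(6,0),(3,0),(0,1),(2,1)]⟩),.k,.k,.k,⟨false,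
  0,⟨2,[(5,0),(0,0),(0,0),(24,0),(7,0),(7,0)]⟩,⟨1,[(9,1),(19,1),(7,0),(11,0)]⟩⟩,⟨true,1,⟨3,[(5,3),
  (1,1),(1,5),(22,1),(4,1),(10,4),(0,0)]⟩,⟨0,[(8,0),(12,0)]⟩⟩,⟨true,(-1),⟨5,[(2,0),(5,0),(2,4),(2,
  2),(0,3),(26,1),(2,0)]⟩,⟨1,[(7,1),(40,0),(0,0)]⟩⟩,⟨false,1,⟨1,[(10,3),(26,0),(11,0)]⟩,⟨0,[(1,0),
  (5,0),(40,0)]⟩⟩,⟨false,0,⟨0,[]⟩,⟨0,[]⟩⟩,⟨false,0,⟨0,[]⟩,⟨0,[]⟩⟩,[.e ⟨false,0,⟨0,[(45,0)]⟩,⟨1,[(25,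
  0),(0,0),(22,0)]⟩⟩ ⟨false,2,⟨1,[(9,1),(22,1),(4,0),(10,2)]⟩,⟨0,[(1,0),(43,0)]⟩⟩,.o ⟨false,1,⟨1,
  [(9,1),(27,0),(11,0)]⟩,⟨1,[(6,0),(24,0),(19,0)]⟩⟩,.a ⟨true,(-1),⟨0,[(8,0)]⟩,⟨0,[(32,0),(15,0)]⟩⟩
  ⟨true,0,⟨0,[(51,0)]⟩,⟨0,[]⟩⟩ ⟨false,2,⟨1,[(9,1),(22,1),(4,0),(10,1),(0,0)]⟩,⟨0,[(1,0),(43,0)]⟩⟩,
  .o ⟨false,(-1),⟨0,[(1,0),(0,0)]⟩,⟨1,[(32,1),(4,0),(10,2)]⟩⟩]⟩) (.I [1,-1,2,2,-1,0,0,1] (.S ⟨1,0,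
  [0,0,-1,-1,0,0,0,-1],[1,-1,-1],[1,0,1],(⟨0,[(24,0)]⟩,⟨22,[(26,2),(0,2),(8,22),(0,4),(4,5),(0,
  2)]⟩),⟨0,[(1,0)]⟩,.k,(.r (-2) ⟨1,[(7,0),(6,1),(6,0),(11,0)]⟩ ⟨0,[(0,0),(51,0)]⟩),⟨true,(-1),⟨3,
  [(0,1),(2,0),(11,1),(3,0),(3,0)]⟩,⟨0,[(8,0),(40,0)]⟩⟩,⟨false,1,⟨1,[(26,0),(0,0),(22,0)]⟩,⟨0,[]⟩⟩,
  ⟨false,(-1),⟨0,[(0,0)]⟩,⟨1,[(7,0),(6,1),(6,0),(11,0)]⟩⟩,⟨true,0,⟨0,[(48,0)]⟩,⟨0,[(47,0)]⟩⟩,[.a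
  ⟨true,0,⟨21,[(2,8),(4,3),(0,8),(5,5),(2,5),(19,0),(1,0),(3,2)]⟩,⟨1,[(7,0),(3,2)]⟩⟩ ⟨false,0,⟨0,
  []⟩,⟨1,[(26,0),(0,0),(21,0)]⟩⟩ ⟨true,1,⟨1,[(8,1),(40,0),(0,0)]⟩,⟨3,[(0,1),(2,0),(11,1),(3,0),(3,
  0)]⟩⟩,.o ⟨false,1,⟨3,[(2,1),(11,1),(6,1),(16,0),(11,0)]⟩,⟨0,[(11,0),(4,0)]⟩⟩,.e ⟨true,0,⟨1,[(33,
  0),(0,0)]⟩,⟨0,[(46,0)]⟩⟩ ⟨true,1,⟨1,[(8,1),(40,0),(0,0)]⟩,⟨2,[(0,1),(2,0),(5,0),(31,1)]⟩⟩,.o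
  ⟨false,(-1),⟨0,[(2,0),(0,0)]⟩,⟨1,[(33,1),(4,0),(10,2)]⟩⟩]⟩) (.I [0,0,0,0,1,0,0,0,-1] (.I [1,0,0,
  -1,0,1,1,1] (.C [(0,2),(1,0),(1,0),(2,2),(0,2),(3,1),(31,0)]) (.C [(0,0),(2,0),(8,0),(31,0)]))
  (.C [(0,0),(26,0),(2,0)]))))))))) (.Q [0,0,0,2,0,0,1,1,0,-1,1] (.p true [0,0,1] [1] (⟨0,[(29,0)]⟩,
  ⟨0,[(28,0)]⟩) .k 1 (⟨0,[]⟩,⟨0,[]⟩) .k .k) (.R ⟨1,false,false,false,[1,0,-1],[0,1],[],(⟨0,[(29,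
  0)]⟩,⟨0,[(30,0)]⟩),(⟨0,[(34,0)]⟩,⟨0,[(33,0)]⟩),⟨0,[(18,0)]⟩,.k,.k,.k,.k,(.r (-2) ⟨5,[(8,3),(6,5),
  (4,0),(0,0),(21,2)]⟩ ⟨12,[(0,5),(5,4),(2,11),(7,3),(7,1),(11,0),(1,1)]⟩),.k,⟨true,1,⟨2,[(8,0),(11,
  0),(0,0)]⟩,⟨0,[(9,0)]⟩⟩,⟨false,2,⟨1,[(27,1),(4,0),(10,2)]⟩,⟨0,[(3,0)]⟩⟩,⟨true,0,⟨0,[(6,0)]⟩,⟨0,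
  [(2,0),(39,0)]⟩⟩,⟨false,1,⟨3,[(0,1),(24,1),(6,0),(11,2)]⟩,⟨1,[(2,1),(0,0),(20,0),(19,0)]⟩⟩,⟨true,
  0,⟨11,[(0,5),(5,3),(10,3),(7,1),(11,0),(6,0)]⟩,⟨0,[(2,0)]⟩⟩,⟨true,0,⟨0,[(0,0)]⟩,⟨0,[(11,0),(14,
  0)]⟩⟩,[.e ⟨false,1,⟨1,[(20,0),(0,0),(21,0)]⟩,⟨0,[]⟩⟩ ⟨false,1,⟨1,[(0,1),(1,1),(40,0),(0,0)]⟩,⟨1,
  [(11,0),(5,0)]⟩⟩,.o ⟨false,1,⟨3,[(0,1),(25,1),(5,0),(11,2)]⟩,⟨0,[(41,0)]⟩⟩,.o ⟨false,0,⟨0,[(16,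
  0)]⟩,⟨1,[(27,1),(4,0),(10,0)]⟩⟩,.a ⟨true,(-1),⟨0,[(3,0)]⟩,⟨0,[(27,0),(15,0)]⟩⟩ ⟨false,1,⟨1,[(43,
  0),(0,0)]⟩,⟨1,[(27,0),(0,0)]⟩⟩ ⟨true,1,⟨1,[(0,1),(1,1),(40,0),(0,0)]⟩,⟨0,[(3,0),(37,0)]⟩⟩]⟩) (.Q
  [-1,0,0,1,0,0,0,0,-1,0,0,-1] (.p false [0,0,0,0,1] [] (⟨0,[(23,0)]⟩,⟨0,[(22,0)]⟩) .k 0 (⟨0,[]⟩,⟨0,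
  []⟩) .k .k) (.R ⟨2,true,false,true,[0,1],[0,0,0,0,1],[2,1],(⟨0,[]⟩,⟨0,[]⟩),(⟨0,[(24,0)]⟩,⟨0,[(23,
  0)]⟩),⟨0,[]⟩,.k,.k,.k,(.r 0 ⟨0,[(40,0),(6,0)]⟩ ⟨2,[(9,0),(11,0),(0,0)]⟩),.k,.k,⟨true,0,⟨0,[]⟩,⟨1,
  [(28,0),(0,0)]⟩⟩,⟨false,0,⟨0,[(22,0)]⟩,⟨4,[(0,2),(8,0),(11,1),(22,0)]⟩⟩,⟨false,1,⟨2,[(9,0),(11,0),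
  (0,0)]⟩,⟨0,[(10,0),(30,0),(3,0)]⟩⟩,⟨true,0,⟨0,[(22,0),(19,0)]⟩,⟨0,[(0,0)]⟩⟩,⟨true,0,⟨0,[(41,0)]⟩,
  ⟨0,[(46,0)]⟩⟩,⟨false,0,⟨0,[(22,0)]⟩,⟨9,[(0,5),(7,1),(12,3),(11,0),(11,4)]⟩⟩,[]⟩) (.Q [0,0,-1,0,0,
  0,0,0,1,-1,0,1] (.p true [0,0,0,0,1] [1] (⟨0,[(24,0)]⟩,⟨0,[(23,0)]⟩) .k 1 (⟨0,[]⟩,⟨0,[]⟩) .k .k)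
  (.Q [0,0,0,0,0,-1,0,0,0,1,0,-1] (.ed true [0,1,0,0,1] .k) (.R ⟨1,false,false,false,[1,0,0,0,-1],
  [0,1],[0,1,0,-1],(⟨0,[(25,0)]⟩,⟨0,[(26,0)]⟩),(⟨0,[(37,0)]⟩,⟨0,[(36,0)]⟩),⟨0,[(0,0)]⟩,.k,.k,(.r
  (-1) ⟨14,[(11,4),(11,2),(0,2),(22,1),(1,3)]⟩ ⟨0,[(42,0),(6,0)]⟩),(.r (-1) ⟨14,[(11,4),(11,2),(0,
  2),(22,1),(1,3)]⟩ ⟨0,[(42,0),(6,0)]⟩),(.r (-2) ⟨14,[(11,9),(11,8),(0,8),(22,0),(1,1)]⟩ ⟨0,[(12,0),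
  (32,0)]⟩),.k,⟨false,1,⟨0,[(17,0)]⟩,⟨0,[(42,0),(2,0)]⟩⟩,⟨true,0,⟨0,[(1,0)]⟩,⟨13,[(12,9),(1,4),(5,
  0),(2,13),(6,1),(9,3),(7,5)]⟩⟩,⟨true,0,⟨0,[(44,0)]⟩,⟨0,[(45,0)]⟩⟩,⟨false,0,⟨0,[(1,0),(40,0)]⟩,⟨17,
  [(14,8),(8,18),(0,0),(9,6),(1,6),(3,0)]⟩⟩,⟨false,0,⟨0,[]⟩,⟨1,[(23,0),(0,0),(22,0)]⟩⟩,⟨false,0,⟨0,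
  [(1,0),(40,0),(2,0)]⟩,⟨2,[(10,1),(12,2),(10,0),(1,0)]⟩⟩,[.a ⟨true,0,⟨0,[(45,0)]⟩,⟨5,[(14,2),(8,0),
  (0,0),(9,0),(1,0),(3,0)]⟩⟩ ⟨true,0,⟨0,[(44,0)]⟩,⟨0,[(42,0)]⟩⟩ ⟨false,0,⟨0,[(1,0),(43,0)]⟩,⟨5,[(14,
  2),(8,6),(0,0),(9,0),(1,0),(3,0)]⟩⟩,.o ⟨false,1,⟨1,[(35,0),(9,1),(1,0)]⟩,⟨0,[(44,0)]⟩⟩,.o ⟨false,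
  1,⟨0,[(23,0)]⟩,⟨3,[(1,1),(0,0),(9,0),(11,0),(16,0)]⟩⟩,.o ⟨false,1,⟨1,[(23,1),(6,0),(0,0)]⟩,⟨0,[(1,
  0)]⟩⟩]⟩) (.R ⟨0,false,false,false,[1,0,0,0,-1],[0,1],[0,1,0,-1],(⟨0,[(25,0)]⟩,⟨0,[(26,0)]⟩),(⟨0,
  [(37,0)]⟩,⟨0,[(36,0)]⟩),⟨0,[(0,0)]⟩,.k,.k,(.r (-1) ⟨14,[(11,4),(11,2),(0,2),(22,1),(1,3)]⟩ ⟨0,
  [(42,0),(6,0)]⟩),(.r (-1) ⟨14,[(11,4),(11,2),(0,2),(22,1),(1,3)]⟩ ⟨0,[(42,0),(6,0)]⟩),.k,.k,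
  ⟨false,1,⟨0,[(17,0)]⟩,⟨0,[(42,0),(2,0)]⟩⟩,⟨true,0,⟨0,[(1,0)]⟩,⟨13,[(12,9),(1,4),(5,0),(2,13),(6,
  1),(9,3),(7,5)]⟩⟩,⟨true,0,⟨0,[(44,0)]⟩,⟨0,[(45,0)]⟩⟩,⟨false,0,⟨0,[(1,0),(40,0)]⟩,⟨17,[(14,8),(8,
  18),(0,0),(9,6),(1,6),(3,0)]⟩⟩,⟨false,0,⟨0,[]⟩,⟨0,[]⟩⟩,⟨false,0,⟨0,[]⟩,⟨0,[]⟩⟩,[.a ⟨true,0,⟨0,
  [(45,0)]⟩,⟨5,[(14,2),(8,0),(0,0),(9,0),(1,0),(3,0)]⟩⟩ ⟨true,0,⟨0,[(44,0)]⟩,⟨0,[(42,0)]⟩⟩ ⟨false,0,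
  ⟨0,[(1,0),(43,0)]⟩,⟨5,[(14,2),(8,6),(0,0),(9,0),(1,0),(3,0)]⟩⟩,.o ⟨false,1,⟨1,[(35,0),(9,1),(1,
  0)]⟩,⟨0,[(44,0)]⟩⟩,.o ⟨false,1,⟨0,[(23,0)]⟩,⟨3,[(1,1),(0,0),(9,0),(11,0),(16,0)]⟩⟩,.o ⟨false,1,⟨1,
  [(23,1),(6,0),(0,0)]⟩,⟨0,[(1,0)]⟩⟩]⟩)) (.Q [0,0,0,-1,0,0,0,0,1,0,0,1] (.p true [0,0,0,0,1] [] (⟨0,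
  [(25,0)]⟩,⟨0,[(24,0)]⟩) .k 0 (⟨0,[]⟩,⟨0,[]⟩) .k .k) (.Q [0,0,0,0,0,0,1,0,1,-1,1,1] (.p true [0,0,
  1] [1,0,0,0,-1] (⟨0,[(33,0)]⟩,⟨0,[(32,0)]⟩) .k 2 (⟨0,[(25,0)]⟩,⟨0,[(26,0)]⟩) .k (.r 0 ⟨0,[(9,0)]⟩
  ⟨9,[(18,9),(4,3),(0,3),(21,4),(0,0),(1,1)]⟩)) (.K ⟨0,[1,0,0,0,-1],0,0,(⟨0,[(26,0)]⟩,⟨0,[(27,0)]⟩),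
  .k,(.r (-1) ⟨14,[(12,4),(11,2),(0,2),(22,1),(1,3)]⟩ ⟨0,[(43,0),(6,0)]⟩),(.r 0 ⟨0,[(43,0),(6,0)]⟩
  ⟨2,[(12,0),(11,0),(0,0)]⟩),.k,.k,[⟨0,[(0,0)]⟩,⟨0,[(2,0)]⟩,⟨0,[(3,0),(10,0)]⟩,⟨0,[(2,0),(41,
  0)]⟩]⟩) (.Q [1,0,0,-2,0,0,0,0,1,0,0,1] (.p true [0,0,0,0,1] [] (⟨0,[(27,0)]⟩,⟨0,[(26,0)]⟩) .k 0
  (⟨0,[]⟩,⟨0,[]⟩) .k .k) (.Q [0,0,-1,-1,0,0,-1,0,0,1,-1] (.p false [0,0,1] [1] (⟨0,[(35,0)]⟩,⟨0,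
  [(34,0)]⟩) .k 1 (⟨0,[]⟩,⟨0,[]⟩) .k .k) (.Q [0,0,0,0,0,2,0,0,0,0,-1] (.p false [0,0,1] [] (⟨0,[(36,
  0)]⟩,⟨0,[(35,0)]⟩) .k 0 (⟨0,[]⟩,⟨0,[]⟩) .k .k) (.R ⟨0,false,false,false,[0,-1,1],[1,-1],[1,0,1],
  (⟨0,[(26,0)]⟩,⟨22,[(27,2),(0,2),(7,22),(1,4),(4,5),(0,2)]⟩),(⟨0,[(40,0)]⟩,⟨0,[(41,0)]⟩),⟨0,[(0,
  0)]⟩,.k,.k,(.r (-1) ⟨2,[(1,1),(6,1),(4,0),(25,0),(10,1)]⟩ ⟨0,[(33,0),(0,0),(11,0),(2,0)]⟩),.k,.k,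
  .k,⟨true,(-1),⟨0,[(16,0)]⟩,⟨2,[(15,0),(11,0),(0,0)]⟩⟩,⟨false,0,⟨0,[(31,0)]⟩,⟨1,[(34,1),(4,0),(10,
  0)]⟩⟩,⟨false,0,⟨0,[(22,0),(23,0)]⟩,⟨5,[(1,1),(6,1),(4,3),(25,0),(10,4)]⟩⟩,⟨true,0,⟨0,[(22,0),(8,
  0)]⟩,⟨0,[(11,0),(5,0)]⟩⟩,⟨false,0,⟨0,[]⟩,⟨0,[]⟩⟩,⟨false,0,⟨0,[]⟩,⟨0,[]⟩⟩,[.a ⟨true,0,⟨42,[(5,8),
  (9,2),(2,16),(9,8),(9,4),(1,4),(3,5)]⟩,⟨0,[(49,0)]⟩⟩ ⟨false,0,⟨0,[]⟩,⟨1,[(27,0),(0,0),(21,0)]⟩⟩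
  ⟨true,0,⟨0,[(1,0)]⟩,⟨2,[(16,0),(0,0),(16,2),(4,0),(6,0)]⟩⟩,.o ⟨false,1,⟨1,[(2,0),(24,0),(23,0)]⟩,
  ⟨0,[(17,0)]⟩⟩,.e ⟨true,0,⟨1,[(34,0),(0,0)]⟩,⟨0,[(47,0)]⟩⟩ ⟨true,0,⟨0,[(1,0)]⟩,⟨0,[(17,0),(16,
  0)]⟩⟩,.o ⟨false,0,⟨3,[(8,0),(7,1),(5,0),(11,2),(4,1)]⟩,⟨1,[(31,1),(7,0),(10,0)]⟩⟩]⟩) (.Q [0,0,-2,
  0,1,0,1,0,0,0,1] (.p true [0,0,1] [] (⟨0,[(37,0)]⟩,⟨0,[(36,0)]⟩) .k 0 (⟨0,[]⟩,⟨0,[]⟩) .k .k) (.R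
  ⟨0,false,false,false,[1,-1,-1],[1,-1],[0,0,0,-1],(⟨0,[(26,0)]⟩,⟨31,[(0,1),(5,3),(18,0),(3,3),(8,
  31),(0,4),(4,8),(0,1)]⟩),(⟨0,[(41,0)]⟩,⟨0,[(42,0)]⟩),⟨2,[(1,0),(25,1),(11,0),(4,2)]⟩,.k,.k,(.r
  (-2) ⟨5,[(0,1),(15,3),(6,3),(4,0),(0,0),(4,1),(17,0)]⟩ ⟨0,[(14,0),(2,0),(32,0)]⟩),.k,.k,.k,⟨true,
  0,⟨1,[(35,0),(0,0)]⟩,⟨0,[]⟩⟩,⟨false,1,⟨2,[(0,1),(27,0),(0,0),(5,0)]⟩,⟨0,[(24,0)]⟩⟩,⟨false,0,⟨3,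
  [(9,0),(4,2),(2,1),(6,0),(27,1)]⟩,⟨2,[(0,1),(22,0),(10,1),(17,0)]⟩⟩,⟨true,0,⟨0,[(13,0)]⟩,⟨0,[(34,
  0)]⟩⟩,⟨false,0,⟨0,[]⟩,⟨0,[]⟩⟩,⟨false,0,⟨0,[]⟩,⟨0,[]⟩⟩,[.a ⟨true,0,⟨21,[(0,1),(5,3),(12,10),(5,0),
  (3,3),(9,1),(1,1),(3,1)]⟩,⟨0,[(50,0)]⟩⟩ ⟨false,1,⟨2,[(16,0),(11,0),(0,0)]⟩,⟨0,[(50,0)]⟩⟩ ⟨true,1,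
  ⟨2,[(0,0),(15,0),(18,1)]⟩,⟨0,[(17,0),(6,0)]⟩⟩,.o ⟨false,1,⟨1,[(3,0),(24,0),(23,0)]⟩,⟨0,[(18,0)]⟩⟩,
  .a ⟨true,(-1),⟨0,[(11,0)]⟩,⟨2,[(0,1),(27,0),(0,0),(5,0)]⟩⟩ ⟨false,1,⟨1,[(3,0),(24,0),(23,0)]⟩,⟨0,
  [(50,0)]⟩⟩ ⟨true,1,⟨2,[(0,0),(15,0),(18,1)]⟩,⟨0,[(11,0),(6,0)]⟩⟩,.a ⟨true,(-1),⟨1,[(17,1),(1,0),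
  (5,0)]⟩,⟨0,[(0,0)]⟩⟩ ⟨true,1,⟨2,[(16,0),(11,0),(0,0)]⟩,⟨0,[(17,0),(30,0)]⟩⟩ ⟨false,2,⟨5,[(0,3),
  (15,1),(11,0),(0,0),(5,1),(16,2)]⟩,⟨0,[(17,0),(6,0)]⟩⟩]⟩) (.Q [0,0,0,0,0,0,0,0,-1,1,0,-1] (.p
  false [0,0,0,0,1] [1] (⟨0,[(31,0)]⟩,⟨0,[(30,0)]⟩) .k 1 (⟨0,[]⟩,⟨0,[]⟩) .k .k) (.Q [0,0,0,0,0,-1,0,
  0,0,0,0,1] (.ed false [1,-1,0,0,1] .k) (.R ⟨1,false,false,false,[0,0,0,0,1],[0,1],[0,1],(⟨0,[(33,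
  0)]⟩,⟨0,[(32,0)]⟩),(⟨0,[(44,0)]⟩,⟨0,[(43,0)]⟩),⟨0,[(0,0)]⟩,.k,.k,(.r (-1) ⟨2,[(18,0),(11,0),(0,
  0)]⟩ ⟨0,[(49,0),(6,0)]⟩),(.r (-1) ⟨2,[(18,0),(11,0),(0,0)]⟩ ⟨0,[(49,0),(6,0)]⟩),(.r (-2) ⟨2,[(18,
  1),(11,1),(0,1)]⟩ ⟨0,[(19,1),(30,1),(3,0)]⟩),.k,⟨false,1,⟨11,[(18,3),(11,0),(0,0),(13,5),(7,2)]⟩,
  ⟨0,[(49,0)]⟩⟩,⟨true,1,⟨1,[(1,1),(40,0),(10,0)]⟩,⟨0,[(7,0),(11,0)]⟩⟩,⟨true,0,⟨0,[(56,0)]⟩,⟨0,[]⟩⟩,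
  ⟨false,1,⟨1,[(1,1),(40,0),(9,1),(1,0)]⟩,⟨0,[(9,0)]⟩⟩,⟨false,0,⟨0,[(19,0),(30,1),(3,0)]⟩,⟨1,[(5,0),
  (24,0),(23,0)]⟩⟩,⟨false,1,⟨1,[(1,1),(40,0),(9,3),(1,0)]⟩,⟨0,[(5,0)]⟩⟩,[.e ⟨false,0,⟨0,[(50,0)]⟩,
  ⟨1,[(30,0),(0,0),(22,0)]⟩⟩ ⟨false,1,⟨1,[(1,1),(40,0),(9,1),(0,0)]⟩,⟨0,[(7,0)]⟩⟩,.o ⟨false,1,⟨1,
  [(42,0),(9,1),(1,0)]⟩,⟨0,[(51,0)]⟩⟩,.a ⟨true,0,⟨0,[(31,0)]⟩,⟨0,[(1,0)]⟩⟩ ⟨true,0,⟨0,[(56,0)]⟩,⟨0,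
  []⟩⟩ ⟨false,1,⟨1,[(1,1),(40,0),(9,1),(1,0)]⟩,⟨0,[(7,0)]⟩⟩,.o ⟨false,0,⟨1,[(7,0),(11,0),(11,0),(10,
  0)]⟩,⟨1,[(1,1),(40,0),(10,0)]⟩⟩]⟩) (.R ⟨0,false,false,false,[0,0,0,0,1],[0,1],[0,1],(⟨0,[(33,0)]⟩,
  ⟨0,[(32,0)]⟩),(⟨0,[(44,0)]⟩,⟨0,[(43,0)]⟩),⟨0,[(0,0)]⟩,.k,.k,(.r (-1) ⟨2,[(18,0),(11,0),(0,0)]⟩ ⟨0,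
  [(49,0),(6,0)]⟩),(.r (-1) ⟨2,[(18,0),(11,0),(0,0)]⟩ ⟨0,[(49,0),(6,0)]⟩),.k,.k,⟨false,1,⟨11,[(18,
  3),(11,0),(0,0),(13,5),(7,2)]⟩,⟨0,[(49,0)]⟩⟩,⟨true,1,⟨1,[(1,1),(40,0),(10,0)]⟩,⟨0,[(7,0),(11,
  0)]⟩⟩,⟨true,0,⟨0,[(56,0)]⟩,⟨0,[]⟩⟩,⟨false,1,⟨1,[(1,1),(40,0),(9,1),(1,0)]⟩,⟨0,[(9,0)]⟩⟩,⟨false,0,
  ⟨0,[]⟩,⟨0,[]⟩⟩,⟨false,0,⟨0,[]⟩,⟨0,[]⟩⟩,[.e ⟨false,0,⟨0,[(50,0)]⟩,⟨1,[(30,0),(0,0),(22,0)]⟩⟩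
  ⟨false,1,⟨1,[(1,1),(40,0),(9,1),(0,0)]⟩,⟨0,[(7,0)]⟩⟩,.o ⟨false,1,⟨1,[(42,0),(9,1),(1,0)]⟩,⟨0,[(51,
  0)]⟩⟩,.a ⟨true,0,⟨0,[(31,0)]⟩,⟨0,[(1,0)]⟩⟩ ⟨true,0,⟨0,[(56,0)]⟩,⟨0,[]⟩⟩ ⟨false,1,⟨1,[(1,1),(40,0),
  (9,1),(1,0)]⟩,⟨0,[(7,0)]⟩⟩,.o ⟨false,0,⟨1,[(7,0),(11,0),(11,0),(10,0)]⟩,⟨1,[(1,1),(40,0),(10,
  0)]⟩⟩]⟩)) (.Q [0,0,0,0,0,-1,0,0,0,1,0,-1] (.ed true [0,1,0,0,1] .k) (.R ⟨1,false,false,false,[1,0,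
  0,0,-1],[0,1],[-1],(⟨0,[(32,0)]⟩,⟨0,[(33,0)]⟩),(⟨0,[(44,0)]⟩,⟨0,[(43,0)]⟩),⟨0,[(0,0)]⟩,.k,.k,(.r
  (-1) ⟨14,[(18,4),(11,2),(0,2),(22,1),(1,3)]⟩ ⟨0,[(49,0),(6,0)]⟩),(.r (-1) ⟨14,[(18,4),(11,2),(0,
  2),(22,1),(1,3)]⟩ ⟨0,[(49,0),(6,0)]⟩),(.r (-2) ⟨14,[(18,9),(11,8),(0,8),(22,0),(1,1)]⟩ ⟨0,[(19,0),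
  (32,0)]⟩),.k,⟨true,1,⟨14,[(18,4),(11,2),(0,2),(22,1),(1,3)]⟩,⟨0,[(19,0)]⟩⟩,⟨false,1,⟨0,[(1,0),(51,
  0)]⟩,⟨0,[(8,0)]⟩⟩,⟨false,1,⟨1,[(30,0),(0,0),(22,0)]⟩,⟨0,[]⟩⟩,⟨true,0,⟨0,[(1,0),(50,0)]⟩,⟨7,[(6,2),
  (1,4),(2,2),(0,2),(6,0),(30,6),(3,0)]⟩⟩,⟨true,0,⟨0,[(52,0)]⟩,⟨0,[(51,0)]⟩⟩,⟨true,0,⟨0,[(1,0),(50,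
  1)]⟩,⟨3,[(6,2),(1,0),(2,2),(0,2),(6,0),(30,2),(3,0)]⟩⟩,[.a ⟨true,0,⟨0,[(52,0)]⟩,⟨42,[(8,8),(9,2),
  (2,16),(9,8),(9,4),(1,4),(3,5)]⟩⟩ ⟨false,1,⟨9,[(30,3),(0,3),(21,4),(0,0),(1,1)]⟩,⟨0,[]⟩⟩ ⟨true,0,
  ⟨0,[(1,0),(50,0)]⟩,⟨1,[(6,0),(1,0),(2,0),(13,0)]⟩⟩,.o ⟨false,1,⟨1,[(42,0),(9,1),(1,0)]⟩,⟨0,[(51,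
  0)]⟩⟩,.o ⟨false,1,⟨0,[(30,0)]⟩,⟨0,[(1,0)]⟩⟩,.e ⟨false,1,⟨0,[(50,0),(3,0)]⟩,⟨1,[(37,0),(0,0)]⟩⟩
  ⟨false,1,⟨1,[(1,1),(50,1),(0,0),(0,0)]⟩,⟨1,[(6,0),(1,0),(2,0),(13,0)]⟩⟩]⟩) (.R ⟨0,false,false,
  false,[1,0,0,0,-1],[0,1],[-1],(⟨0,[(32,0)]⟩,⟨0,[(33,0)]⟩),(⟨0,[(44,0)]⟩,⟨0,[(43,0)]⟩),⟨0,[(0,0)]⟩,
  .k,.k,(.r (-1) ⟨14,[(18,4),(11,2),(0,2),(22,1),(1,3)]⟩ ⟨0,[(49,0),(6,0)]⟩),(.r (-1) ⟨14,[(18,4),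
  (11,2),(0,2),(22,1),(1,3)]⟩ ⟨0,[(49,0),(6,0)]⟩),.k,.k,⟨true,1,⟨14,[(18,4),(11,2),(0,2),(22,1),(1,
  3)]⟩,⟨0,[(19,0)]⟩⟩,⟨false,1,⟨0,[(1,0),(51,0)]⟩,⟨0,[(8,0)]⟩⟩,⟨false,1,⟨1,[(30,0),(0,0),(22,0)]⟩,⟨0,
  []⟩⟩,⟨true,0,⟨0,[(1,0),(50,0)]⟩,⟨7,[(6,2),(1,4),(2,2),(0,2),(6,0),(30,6),(3,0)]⟩⟩,⟨false,0,⟨0,[]⟩,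
  ⟨0,[]⟩⟩,⟨false,0,⟨0,[]⟩,⟨0,[]⟩⟩,[.a ⟨true,0,⟨0,[(52,0)]⟩,⟨42,[(8,8),(9,2),(2,16),(9,8),(9,4),(1,
  4),(3,5)]⟩⟩ ⟨false,1,⟨9,[(30,3),(0,3),(21,4),(0,0),(1,1)]⟩,⟨0,[]⟩⟩ ⟨true,0,⟨0,[(1,0),(50,0)]⟩,⟨1,
  [(6,0),(1,0),(2,0),(13,0)]⟩⟩,.o ⟨false,1,⟨1,[(42,0),(9,1),(1,0)]⟩,⟨0,[(51,0)]⟩⟩,.o ⟨false,1,⟨0,
  [(30,0)]⟩,⟨0,[(1,0)]⟩⟩,.e ⟨false,1,⟨0,[(50,0),(3,0)]⟩,⟨1,[(37,0),(0,0)]⟩⟩ ⟨false,1,⟨1,[(1,1),(50,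
  1),(0,0),(0,0)]⟩,⟨1,[(6,0),(1,0),(2,0),(13,0)]⟩⟩]⟩))))) (.Q [0,0,0,0,0,2,0,0,0,0,-1] (.p false [0,
  0,1] [] (⟨0,[(36,0)]⟩,⟨0,[(35,0)]⟩) .k 0 (⟨0,[]⟩,⟨0,[]⟩) .k .k) (.R ⟨0,false,false,false,[0,-1,1],
  [1,-1],[1,0,1],(⟨0,[(26,0)]⟩,⟨22,[(27,2),(0,2),(7,22),(1,4),(4,5),(0,2)]⟩),(⟨0,[(40,0)]⟩,⟨0,[(41,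
  0)]⟩),⟨0,[(0,0)]⟩,.k,.k,(.r (-1) ⟨1,[(8,1),(22,1),(7,0),(10,0)]⟩ ⟨0,[(33,0),(0,0),(11,0),(2,0)]⟩),
  .k,.k,.k,⟨true,(-1),⟨0,[(16,0)]⟩,⟨2,[(15,0),(11,0),(0,0)]⟩⟩,⟨false,0,⟨0,[(31,0)]⟩,⟨2,[(1,2),(13,
  0),(11,0),(0,0)]⟩⟩,⟨false,0,⟨0,[(22,0),(23,0)]⟩,⟨3,[(8,1),(4,1),(17,1),(7,0),(10,2)]⟩⟩,⟨true,0,⟨0,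
  [(22,0),(8,0)]⟩,⟨0,[(11,0),(5,0)]⟩⟩,⟨false,0,⟨0,[]⟩,⟨0,[]⟩⟩,⟨false,0,⟨0,[]⟩,⟨0,[]⟩⟩,[.e ⟨false,0,
  ⟨0,[]⟩,⟨1,[(27,0),(0,0),(21,0)]⟩⟩ ⟨false,1,⟨11,[(15,3),(8,5),(2,0),(0,0),(15,2),(5,5)]⟩,⟨0,[(1,
  0)]⟩⟩,.o ⟨false,1,⟨1,[(2,0),(24,0),(23,0)]⟩,⟨0,[(17,0)]⟩⟩,.a ⟨true,0,⟨0,[(34,0)]⟩,⟨0,[(31,0)]⟩⟩
  ⟨true,0,⟨1,[(34,0),(0,0)]⟩,⟨0,[(47,0)]⟩⟩ ⟨false,1,⟨11,[(15,3),(8,5),(2,0),(0,0),(15,2),(6,5)]⟩,⟨0,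
  [(1,0)]⟩⟩,.o ⟨false,0,⟨3,[(1,0),(12,0),(1,1),(17,2),(4,1)]⟩,⟨1,[(31,1),(7,0),(10,0)]⟩⟩]⟩) (.Q [0,
  0,-2,0,1,0,1,0,0,0,1] (.p true [0,0,1] [] (⟨0,[(37,0)]⟩,⟨0,[(36,0)]⟩) .k 0 (⟨0,[]⟩,⟨0,[]⟩) .k .k)
  (.R ⟨0,false,false,false,[1,-1,-1],[1,-1],[0,0,0,-1],(⟨0,[(26,0)]⟩,⟨31,[(0,1),(5,3),(18,0),(3,3),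
  (8,31),(0,4),(4,8),(0,1)]⟩),(⟨0,[(41,0)]⟩,⟨0,[(42,0)]⟩),⟨2,[(1,0),(25,1),(11,0),(4,2)]⟩,.k,.k,(.r
  (-2) ⟨5,[(0,1),(15,3),(6,3),(4,0),(0,0),(4,1),(17,0)]⟩ ⟨0,[(14,0),(2,0),(32,0)]⟩),.k,.k,.k,⟨true,
  0,⟨1,[(35,0),(0,0)]⟩,⟨0,[]⟩⟩,⟨false,1,⟨2,[(0,1),(27,0),(0,0),(5,0)]⟩,⟨0,[(24,0)]⟩⟩,⟨false,0,⟨3,
  [(9,0),(4,2),(2,1),(6,0),(27,1)]⟩,⟨2,[(0,1),(22,0),(10,1),(17,0)]⟩⟩,⟨true,0,⟨0,[(13,0)]⟩,⟨0,[(34,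
  0)]⟩⟩,⟨false,0,⟨0,[]⟩,⟨0,[]⟩⟩,⟨false,0,⟨0,[]⟩,⟨0,[]⟩⟩,[.a ⟨true,0,⟨21,[(0,1),(5,3),(12,10),(5,0),
  (3,3),(9,1),(1,1),(3,1)]⟩,⟨0,[(50,0)]⟩⟩ ⟨false,1,⟨2,[(16,0),(11,0),(0,0)]⟩,⟨0,[(50,0)]⟩⟩ ⟨true,1,
  ⟨2,[(0,0),(15,0),(18,1)]⟩,⟨0,[(17,0),(6,0)]⟩⟩,.o ⟨false,1,⟨1,[(3,0),(24,0),(23,0)]⟩,⟨0,[(18,0)]⟩⟩,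
  .a ⟨true,(-1),⟨0,[(11,0)]⟩,⟨2,[(0,1),(27,0),(0,0),(5,0)]⟩⟩ ⟨false,1,⟨1,[(3,0),(24,0),(23,0)]⟩,⟨0,
  [(50,0)]⟩⟩ ⟨true,1,⟨2,[(0,0),(15,0),(18,1)]⟩,⟨0,[(11,0),(6,0)]⟩⟩,.a ⟨true,(-1),⟨1,[(17,1),(1,0),
  (5,0)]⟩,⟨0,[(0,0)]⟩⟩ ⟨true,1,⟨2,[(16,0),(11,0),(0,0)]⟩,⟨0,[(17,0),(30,0)]⟩⟩ ⟨false,2,⟨5,[(0,3),
  (15,1),(11,0),(0,0),(5,1),(16,2)]⟩,⟨0,[(17,0),(6,0)]⟩⟩]⟩) (.Q [0,0,0,0,0,0,-2,-2,0,1,-2] (.p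
  false [0,0,1] [1,0,-1] (⟨0,[(38,0)]⟩,⟨0,[(37,0)]⟩) .k 2 (⟨0,[(37,0)]⟩,⟨0,[(38,0)]⟩) .k (.r 0 ⟨0,
  [(14,1)]⟩ ⟨0,[(23,1),(27,0)]⟩)) (.R ⟨0,false,false,false,[1,-1,-1],[0,-1,1],[0,1],(⟨0,[(27,0)]⟩,
  ⟨22,[(29,2),(0,2),(8,22),(0,4),(4,5),(0,2)]⟩),(⟨0,[(28,0)]⟩,⟨22,[(29,2),(0,2),(7,22),(1,4),(4,5),
  (0,2)]⟩),⟨2,[(2,0),(25,1),(11,0),(4,2)]⟩,.k,.k,(.r (-2) ⟨5,[(17,3),(6,5),(4,0),(0,0),(21,2)]⟩ ⟨0,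
  [(15,0),(2,0),(32,0)]⟩),.k,.k,.k,⟨false,0,⟨3,[(0,1),(2,3),(40,1),(1,0),(5,0)]⟩,⟨3,[(10,1),(4,1),
  (17,1),(7,0),(10,0),(0,1)]⟩⟩,⟨true,1,⟨3,[(3,5),(13,1),(18,1),(9,0),(5,0)]⟩,⟨0,[(1,0),(31,0)]⟩⟩,
  ⟨true,(-1),⟨0,[(15,0),(2,0),(30,0)]⟩,⟨1,[(11,1),(40,0),(0,0)]⟩⟩,⟨false,1,⟨1,[(14,3),(26,0),(11,
  0)]⟩,⟨0,[(0,0)]⟩⟩,⟨false,0,⟨0,[]⟩,⟨0,[]⟩⟩,⟨false,0,⟨0,[]⟩,⟨0,[]⟩⟩,[.a ⟨true,0,⟨0,[(13,0)]⟩,⟨3,[(0,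
  1),(28,0),(0,0),(15,0),(4,3)]⟩⟩ ⟨false,0,⟨0,[(49,0)]⟩,⟨1,[(29,0),(0,0),(22,0)]⟩⟩ ⟨true,1,⟨0,[(3,
  0),(6,0),(41,0)]⟩,⟨1,[(0,0),(17,1),(7,0)]⟩⟩,.o ⟨false,1,⟨1,[(13,1),(27,0),(11,0)]⟩,⟨0,[(35,0),(15,
  0)]⟩⟩,.e ⟨true,0,⟨0,[(55,0)]⟩,⟨0,[]⟩⟩ ⟨true,1,⟨0,[(3,0),(6,0),(41,0)]⟩,⟨21,[(0,10),(11,7),(5,11),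
  (0,9),(6,4),(6,3),(10,5),(1,1)]⟩⟩,.o ⟨false,(-1),⟨0,[(1,0)]⟩,⟨2,[(3,2),(13,0),(11,0),(0,0),(21,
  2)]⟩⟩]⟩) (.Q [0,0,0,1,0,0,-2,-2,0,1,-2] (.p false [0,0,1] [1,0,-1] (⟨0,[(39,0)]⟩,⟨0,[(38,0)]⟩) .k
  2 (⟨0,[(38,0)]⟩,⟨0,[(39,0)]⟩) .k (.r 0 ⟨0,[(15,1)]⟩ ⟨0,[(24,1),(27,0)]⟩)) (.R ⟨1,true,false,false,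
  [0,0,1],[1,0,-1],[0,1,0,0,0,0,0,1],(⟨0,[(40,0)]⟩,⟨0,[(39,0)]⟩),(⟨0,[(39,0)]⟩,⟨0,[(40,0)]⟩),⟨0,
  [(29,0)]⟩,.k,.k,.k,.k,(.x (-1) ⟨2,[(4,2),(13,0),(18,2),(1,5),(2,0),(3,0)]⟩ ⟨2,[(2,0),(0,5),(22,1),
  (7,2),(11,2),(3,1),(3,0)]⟩),.k,⟨true,(-1),⟨0,[(1,0),(0,0),(31,0),(15,0)]⟩,⟨1,[(25,3),(27,0),(0,
  0)]⟩⟩,⟨false,0,⟨0,[(26,0),(7,0)]⟩,⟨3,[(4,5),(13,1),(18,1),(9,0),(5,0)]⟩⟩,⟨true,0,⟨0,[(56,0)]⟩,⟨0,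
  []⟩⟩,⟨false,1,⟨21,[(0,18),(8,6),(0,2),(7,1),(6,2),(4,6),(7,2),(15,10)]⟩,⟨0,[(1,0)]⟩⟩,⟨false,0,⟨0,
  [(52,0)]⟩,⟨1,[(5,0),(24,0),(23,0)]⟩⟩,⟨true,0,⟨0,[(0,0)]⟩,⟨0,[(1,0),(49,0)]⟩⟩,[]⟩) (.Q [0,0,0,0,0,
  -1,0,0,0,0,0,1] (.ed false [1,-1,0,0,1] .k) (.Q [-1,0,0,2,0,0,-1,-1,-1,1,-1,-1] (.p false [0,0,1]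
  [1,0,0,0,-1] (⟨0,[(41,0)]⟩,⟨0,[(40,0)]⟩) .k 2 (⟨0,[(33,0)]⟩,⟨0,[(34,0)]⟩) .k (.r 0 ⟨0,[(17,0)]⟩
  ⟨9,[(26,9),(4,3),(0,3),(21,4),(0,0),(1,1)]⟩)) (.S ⟨1,0,[1],[0,0,0,0,1],[0,1],(⟨0,[(35,0)]⟩,⟨0,
  [(34,0)]⟩),⟨0,[(1,0)]⟩,.k,(.r (-1) ⟨2,[(20,0),(11,0),(0,0)]⟩ ⟨4,[(0,0),(5,0),(26,0),(3,0),(2,0),
  (10,1),(5,0),(0,0)]⟩),⟨true,0,⟨0,[(58,0)]⟩,⟨0,[]⟩⟩,⟨false,1,⟨1,[(32,0),(0,0),(22,0)]⟩,⟨0,[]⟩⟩,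
  ⟨false,0,⟨1,[(4,1),(1,1),(42,0),(2,5),(3,2)]⟩,⟨1,[(7,0),(24,0),(23,0)]⟩⟩,⟨true,0,⟨0,[(54,0)]⟩,⟨0,
  [(53,0)]⟩⟩,[.a ⟨true,0,⟨0,[(33,0)]⟩,⟨0,[(0,0),(12,0)]⟩⟩ ⟨false,0,⟨0,[(52,0)]⟩,⟨1,[(32,0),(0,0),
  (22,0)]⟩⟩ ⟨true,0,⟨0,[]⟩,⟨1,[(39,0),(0,0)]⟩⟩,.o ⟨false,1,⟨1,[(33,1),(10,0),(11,0)]⟩,⟨4,[(0,2),(1,
  2),(1,0),(3,1),(5,2),(29,0),(7,1)]⟩⟩,.e ⟨true,0,⟨0,[(58,0)]⟩,⟨0,[]⟩⟩ ⟨true,0,⟨0,[]⟩,⟨0,[(58,0)]⟩⟩,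
  .o ⟨false,0,⟨2,[(4,0),(1,0),(2,0),(23,1),(10,0)]⟩,⟨2,[(0,2),(1,0),(10,0),(6,0),(23,0)]⟩⟩]⟩) (.Q
  [1,1,0,0,-1,0,0,0,1,0,0,1] (.p true [0,0,0,0,1] [] (⟨0,[(35,0)]⟩,⟨0,[(34,0)]⟩) .k 0 (⟨0,[]⟩,⟨0,
  []⟩) .k .k) (.Q [0,0,0,2,0,0,-2,-2,0,1,-2] (.p false [0,0,1] [1,0,-1] (⟨0,[(43,0)]⟩,⟨0,[(42,0)]⟩)
  .k 2 (⟨0,[(42,0)]⟩,⟨0,[(43,0)]⟩) .k (.r 0 ⟨0,[(19,1)]⟩ ⟨0,[(28,1),(27,0)]⟩)) (.R ⟨1,true,false,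
  false,[0,0,1],[1,1,-1],[0,1,0,0,0,0,0,1],(⟨0,[(44,0)]⟩,⟨0,[(43,0)]⟩),(⟨81,[(0,2),(11,5),(9,1),(12,
  5),(3,5),(3,81),(1,12),(4,22),(0,6),(6,2)]⟩,⟨0,[(33,0)]⟩),⟨0,[(33,0)]⟩,.k,.k,.k,(.r 0 ⟨0,[(4,0),
  (25,0),(7,0)]⟩ ⟨8,[(0,7),(7,1),(13,2),(6,1),(11,13),(4,2)]⟩),(.r (-1) ⟨1,[(4,0),(15,1),(1,0),(7,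
  0),(7,0)]⟩ ⟨2,[(0,1),(7,1),(20,1),(11,1)]⟩),.k,⟨false,0,⟨0,[(4,0),(25,0),(7,0),(15,0)]⟩,⟨5,[(0,1),
  (7,1),(20,7),(11,1),(15,2),(0,2)]⟩⟩,⟨true,0,⟨0,[(30,0),(7,0)]⟩,⟨1,[(8,2),(12,0),(19,0)]⟩⟩,⟨true,0,
  ⟨0,[(60,0)]⟩,⟨0,[]⟩⟩,⟨false,1,⟨27,[(0,24),(12,9),(0,2),(7,1),(6,2),(4,9),(7,2),(15,13)]⟩,⟨0,[(4,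
  0)]⟩⟩,⟨false,0,⟨0,[(56,0)]⟩,⟨1,[(9,0),(24,0),(23,0)]⟩⟩,⟨true,0,⟨0,[(0,0)]⟩,⟨0,[(4,0),(50,0)]⟩⟩,
  []⟩) (.Q [0,0,1,0,-1,0,0,0,1,0,0,1] (.p true [0,0,0,0,1] [] (⟨0,[(37,0)]⟩,⟨0,[(36,0)]⟩) .k 0 (⟨0,
  []⟩,⟨0,[]⟩) .k .k) (.R ⟨2,true,false,true,[0,1],[0,0,0,0,1],[0,1,1,1],(⟨0,[]⟩,⟨0,[]⟩),(⟨0,[(38,
  0)]⟩,⟨0,[(37,0)]⟩),⟨0,[]⟩,.k,.k,.k,(.r 0 ⟨0,[(54,0),(6,0)]⟩ ⟨2,[(23,0),(11,0),(0,0)]⟩),.k,.k,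
  ⟨false,0,⟨0,[(0,0),(8,0),(1,0),(43,1),(3,0)]⟩,⟨2,[(23,0),(11,0),(0,0)]⟩⟩,⟨true,(-1),⟨0,[(0,0)]⟩,
  ⟨0,[(35,0)]⟩⟩,⟨true,0,⟨0,[(61,0)]⟩,⟨0,[]⟩⟩,⟨false,0,⟨0,[(14,0)]⟩,⟨1,[(9,1),(1,1),(46,0),(0,0)]⟩⟩,
  ⟨false,0,⟨0,[(57,0)]⟩,⟨1,[(10,0),(24,0),(23,0)]⟩⟩,⟨true,(-1),⟨0,[(2,0)]⟩,⟨19,[(8,1),(0,2),(1,2),
  (11,0),(9,1),(1,16),(10,5),(6,0)]⟩⟩,[]⟩) (.R ⟨2,true,false,true,[0,1],[0,0,0,0,1],[1,1,1],(⟨0,[]⟩,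
  ⟨0,[]⟩),(⟨0,[(38,0)]⟩,⟨0,[(37,0)]⟩),⟨0,[]⟩,.k,.k,.k,(.r 0 ⟨0,[(54,0),(6,0)]⟩ ⟨2,[(23,0),(11,0),(0,
  0)]⟩),.k,.k,⟨true,0,⟨1,[(42,0),(0,0)]⟩,⟨0,[]⟩⟩,⟨false,0,⟨0,[(36,0)]⟩,⟨0,[(0,0)]⟩⟩,⟨true,0,⟨0,[(56,
  0)]⟩,⟨0,[(57,0)]⟩⟩,⟨false,0,⟨0,[(14,0)]⟩,⟨1,[(0,0),(8,0),(1,0),(45,0),(1,0)]⟩⟩,⟨false,0,⟨0,[]⟩,⟨1,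
  [(35,0),(0,0),(22,0)]⟩⟩,⟨true,(-1),⟨0,[(2,0)]⟩,⟨1,[(0,0),(34,0),(24,0)]⟩⟩,[]⟩))) (.Q [-1,1,0,0,0,
  0,0,0,-1,0,0,-1] (.p false [0,0,0,0,1] [] (⟨0,[(36,0)]⟩,⟨0,[(35,0)]⟩) .k 0 (⟨0,[]⟩,⟨0,[]⟩) .k .k)
  (.R ⟨1,false,false,false,[0,0,0,0,1],[0,1],[0,1],(⟨0,[(37,0)]⟩,⟨0,[(36,0)]⟩),(⟨0,[(48,0)]⟩,⟨0,
  [(47,0)]⟩),⟨0,[(3,0)]⟩,.k,.k,(.r (-1) ⟨2,[(22,0),(11,0),(0,0)]⟩ ⟨0,[(53,0),(6,0)]⟩),(.r (-1) ⟨2,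
  [(22,0),(11,0),(0,0)]⟩ ⟨0,[(53,0),(6,0)]⟩),(.r (-2) ⟨2,[(22,1),(11,1),(0,1)]⟩ ⟨0,[(6,1),(1,1),(42,
  0),(2,3),(3,1)]⟩),.k,⟨false,1,⟨11,[(22,3),(11,0),(0,0),(13,5),(7,2)]⟩,⟨0,[(53,0)]⟩⟩,⟨true,1,⟨1,
  [(0,0),(0,0),(55,0)]⟩,⟨0,[(11,0),(11,0)]⟩⟩,⟨true,0,⟨0,[(60,0)]⟩,⟨0,[]⟩⟩,⟨false,1,⟨0,[(1,0),(54,
  0)]⟩,⟨0,[(13,0)]⟩⟩,⟨false,0,⟨1,[(6,1),(1,1),(42,0),(2,5),(3,2)]⟩,⟨1,[(9,0),(24,0),(23,0)]⟩⟩,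
  ⟨false,1,⟨0,[(1,0),(54,1)]⟩,⟨0,[(9,0)]⟩⟩,[.e ⟨false,0,⟨0,[(54,0)]⟩,⟨1,[(34,0),(0,0),(22,0)]⟩⟩
  ⟨false,1,⟨1,[(0,0),(0,0),(54,1),(0,0)]⟩,⟨0,[(11,0)]⟩⟩,.o ⟨false,1,⟨1,[(46,0),(9,1),(1,0)]⟩,⟨0,
  [(55,0)]⟩⟩,.a ⟨true,0,⟨0,[(35,0)]⟩,⟨1,[(0,1),(50,0),(6,0)]⟩⟩ ⟨true,0,⟨0,[(60,0)]⟩,⟨0,[]⟩⟩ ⟨false,
  1,⟨0,[(1,0),(54,0)]⟩,⟨0,[(11,0)]⟩⟩,.o ⟨false,0,⟨2,[(6,0),(1,0),(2,0),(23,1),(10,0)]⟩,⟨1,[(0,0),(0,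
  0),(55,0)]⟩⟩]⟩) (.R ⟨2,true,false,false,[0,1],[0,0,0,0,1],[1,0,1],(⟨0,[]⟩,⟨0,[]⟩),(⟨0,[(37,0)]⟩,
  ⟨0,[(36,0)]⟩),⟨0,[]⟩,.k,.k,.k,(.r 0 ⟨0,[(53,0),(6,0)]⟩ ⟨2,[(22,0),(11,0),(0,0)]⟩),.k,.k,⟨true,0,
  ⟨1,[(41,0),(0,0)]⟩,⟨0,[]⟩⟩,⟨false,0,⟨0,[(35,0)]⟩,⟨0,[(1,0),(52,0)]⟩⟩,⟨false,1,⟨1,[(9,0),(24,0),
  (23,0)]⟩,⟨0,[(56,0)]⟩⟩,⟨true,0,⟨0,[(13,0)]⟩,⟨0,[(8,0),(1,0),(43,0)]⟩⟩,⟨true,0,⟨0,[]⟩,⟨0,[(60,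
  0)]⟩⟩,⟨false,0,⟨0,[(0,0)]⟩,⟨2,[(1,0),(32,1),(25,0)]⟩⟩,[]⟩)))) (.Q [0,0,0,2,0,0,-2,-2,0,1,-2] (.p
  false [0,0,1] [1,0,-1] (⟨0,[(41,0)]⟩,⟨0,[(40,0)]⟩) .k 2 (⟨0,[(40,0)]⟩,⟨0,[(41,0)]⟩) .k (.r 0 ⟨0,
  [(17,1)]⟩ ⟨0,[(26,1),(27,0)]⟩)) (.R ⟨1,true,false,false,[0,0,1],[1,1,-1],[0,1,0,0,0,0,0,1],(⟨0,
  [(42,0)]⟩,⟨0,[(41,0)]⟩),(⟨81,[(0,2),(9,5),(9,1),(12,5),(3,5),(3,81),(1,12),(4,22),(0,6),(6,2)]⟩,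
  ⟨0,[(31,0)]⟩),⟨0,[(31,0)]⟩,.k,.k,.k,(.r 0 ⟨0,[(2,0),(25,0),(7,0)]⟩ ⟨8,[(0,7),(5,1),(13,2),(6,1),
  (11,13),(4,2)]⟩),(.r (-1) ⟨1,[(2,0),(15,1),(1,0),(7,0),(7,0)]⟩ ⟨2,[(0,1),(5,1),(20,1),(11,1)]⟩),
  .k,⟨false,0,⟨0,[(2,0),(25,0),(7,0),(15,0)]⟩,⟨5,[(0,1),(5,1),(20,7),(11,1),(15,2),(0,2)]⟩⟩,⟨true,0,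
  ⟨0,[(28,0),(7,0)]⟩,⟨1,[(6,2),(12,0),(19,0)]⟩⟩,⟨true,0,⟨0,[(58,0)]⟩,⟨0,[]⟩⟩,⟨false,1,⟨17,[(0,14),
  (11,2),(7,1),(6,2),(4,4),(0,4),(6,2),(15,8)]⟩,⟨0,[(2,0)]⟩⟩,⟨false,0,⟨0,[(54,0)]⟩,⟨1,[(7,0),(24,0),
  (23,0)]⟩⟩,⟨true,0,⟨0,[(0,0)]⟩,⟨0,[(2,0),(50,0)]⟩⟩,[]⟩) (.Q [-1,-1,0,0,1,0,0,0,-1,0,0,-1] (.p
  false [0,0,0,0,1] [] (⟨0,[(35,0)]⟩,⟨0,[(34,0)]⟩) .k 0 (⟨0,[]⟩,⟨0,[]⟩) .k .k) (.Q [0,0,0,0,0,0,0,0,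
  -1,1,0,-1] (.p false [0,0,0,0,1] [1] (⟨0,[(36,0)]⟩,⟨0,[(35,0)]⟩) .k 1 (⟨0,[]⟩,⟨0,[]⟩) .k .k) (.R
  ⟨0,false,false,false,[0,0,0,0,1],[0,1],[0,1],(⟨0,[(37,0)]⟩,⟨0,[(36,0)]⟩),(⟨0,[(48,0)]⟩,⟨0,[(47,
  0)]⟩),⟨0,[(3,0)]⟩,.k,.k,(.r (-1) ⟨2,[(22,0),(11,0),(0,0)]⟩ ⟨0,[(53,0),(6,0)]⟩),(.r (-1) ⟨2,[(22,
  0),(11,0),(0,0)]⟩ ⟨0,[(53,0),(6,0)]⟩),.k,.k,⟨false,1,⟨11,[(22,3),(11,0),(0,0),(13,5),(7,2)]⟩,⟨0,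
  [(53,0)]⟩⟩,⟨true,1,⟨1,[(0,1),(45,0),(10,0)]⟩,⟨0,[(11,0),(11,0)]⟩⟩,⟨true,0,⟨0,[(60,0)]⟩,⟨0,[]⟩⟩,
  ⟨false,1,⟨0,[(1,0),(54,0)]⟩,⟨0,[(13,0)]⟩⟩,⟨false,0,⟨0,[]⟩,⟨0,[]⟩⟩,⟨false,0,⟨0,[]⟩,⟨0,[]⟩⟩,[.e
  ⟨false,0,⟨0,[(54,0)]⟩,⟨1,[(34,0),(0,0),(22,0)]⟩⟩ ⟨false,1,⟨1,[(0,0),(0,0),(22,0),(31,0),(0,0)]⟩,
  ⟨0,[(11,0)]⟩⟩,.o ⟨false,1,⟨1,[(46,0),(9,1),(1,0)]⟩,⟨0,[(55,0)]⟩⟩,.a ⟨true,0,⟨0,[(35,0)]⟩,⟨0,[(0,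
  0)]⟩⟩ ⟨true,0,⟨0,[(60,0)]⟩,⟨0,[]⟩⟩ ⟨false,1,⟨0,[(1,0),(54,0)]⟩,⟨0,[(11,0)]⟩⟩,.o ⟨false,0,⟨2,[(6,
  0),(1,0),(2,0),(23,1),(10,0)]⟩,⟨1,[(0,1),(45,0),(10,0)]⟩⟩]⟩) (.R ⟨0,false,false,false,[0,0,0,0,1],
  [0,1],[1,0,2,1],(⟨0,[(37,0)]⟩,⟨0,[(36,0)]⟩),(⟨0,[(48,0)]⟩,⟨0,[(47,0)]⟩),⟨0,[(3,0)]⟩,.k,.k,(.r
  (-1) ⟨2,[(22,0),(11,0),(0,0)]⟩ ⟨0,[(53,0),(6,0)]⟩),(.r (-1) ⟨2,[(22,0),(11,0),(0,0)]⟩ ⟨0,[(53,0),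
  (6,0)]⟩),.k,.k,⟨false,0,⟨0,[]⟩,⟨1,[(34,0),(0,0),(21,0)]⟩⟩,⟨true,1,⟨0,[(1,0),(52,0)]⟩,⟨0,[(11,0),
  (11,0)]⟩⟩,⟨true,(-1),⟨1,[(6,1),(1,1),(42,0),(2,1),(3,0)]⟩,⟨11,[(22,3),(11,0),(0,0),(13,5),(7,
  2)]⟩⟩,⟨false,1,⟨0,[(1,0),(54,0)]⟩,⟨0,[(13,0)]⟩⟩,⟨false,0,⟨0,[]⟩,⟨0,[]⟩⟩,⟨false,0,⟨0,[]⟩,⟨0,[]⟩⟩,
  [.a ⟨true,0,⟨0,[(56,0)]⟩,⟨42,[(12,8),(9,2),(2,16),(9,8),(9,4),(1,4),(3,5)]⟩⟩ ⟨true,(-1),⟨0,[(23,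
  0)]⟩,⟨2,[(22,0),(11,0),(0,0)]⟩⟩ ⟨false,1,⟨0,[(8,0),(1,0),(46,0)]⟩,⟨0,[(11,0)]⟩⟩,.o ⟨false,1,⟨1,
  [(46,0),(9,1),(1,0)]⟩,⟨0,[(55,0)]⟩⟩,.o ⟨false,0,⟨0,[(0,0)]⟩,⟨0,[(34,0)]⟩⟩,.o ⟨false,0,⟨2,[(0,0),
  (5,0),(28,1),(5,0),(4,0)]⟩,⟨0,[(1,0),(52,0)]⟩⟩]⟩)) (.R ⟨1,false,false,false,[1,0,0,0,-1],[0,1],
  [-1],(⟨0,[(35,0)]⟩,⟨0,[(36,0)]⟩),(⟨0,[(47,0)]⟩,⟨0,[(46,0)]⟩),⟨1,[(2,0),(3,0),(24,0),(3,0)]⟩,.k,.k,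
  (.r (-1) ⟨14,[(21,4),(11,2),(0,2),(22,1),(1,3)]⟩ ⟨0,[(52,0),(6,0)]⟩),(.r (-1) ⟨14,[(21,4),(11,2),
  (0,2),(22,1),(1,3)]⟩ ⟨0,[(52,0),(6,0)]⟩),(.r (-2) ⟨14,[(21,9),(11,8),(0,8),(22,0),(1,1)]⟩ ⟨0,[(22,
  0),(32,0)]⟩),.k,⟨true,1,⟨14,[(21,4),(11,2),(0,2),(22,1),(1,3)]⟩,⟨0,[(22,0)]⟩⟩,⟨false,1,⟨1,[(0,1),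
  (44,0),(10,1),(0,0)]⟩,⟨0,[(11,0)]⟩⟩,⟨false,1,⟨1,[(33,0),(0,0),(22,0)]⟩,⟨0,[]⟩⟩,⟨true,0,⟨1,[(0,1),
  (44,0),(9,1),(1,0)]⟩,⟨56,[(1,8),(4,1),(2,17),(1,38),(3,17),(4,6),(10,1),(12,5),(8,38)]⟩⟩,⟨true,0,
  ⟨0,[(55,0)]⟩,⟨0,[(54,0)]⟩⟩,⟨true,0,⟨1,[(0,1),(44,0),(9,3),(1,0)]⟩,⟨56,[(1,17),(4,3),(2,35),(1,20),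
  (3,35),(4,13),(10,3),(12,11),(8,20)]⟩⟩,[.a ⟨true,0,⟨0,[(55,0)]⟩,⟨42,[(11,8),(9,2),(2,16),(9,8),(9,
  4),(1,4),(3,5)]⟩⟩ ⟨false,1,⟨9,[(33,3),(0,3),(21,4),(0,0),(1,1)]⟩,⟨0,[]⟩⟩ ⟨true,0,⟨1,[(0,1),(44,0),
  (9,1),(1,0)]⟩,⟨3,[(1,0),(7,0),(1,2),(1,0),(14,0)]⟩⟩,.o ⟨false,1,⟨1,[(45,0),(9,1),(1,0)]⟩,⟨0,[(54,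
  0)]⟩⟩,.o ⟨false,1,⟨0,[(33,0)]⟩,⟨1,[(0,1),(50,0),(5,0)]⟩⟩,.e ⟨false,1,⟨0,[(53,0),(3,0)]⟩,⟨1,[(40,
  0),(0,0)]⟩⟩ ⟨false,1,⟨1,[(0,1),(44,0),(9,1),(0,0),(0,1)]⟩,⟨3,[(1,0),(7,0),(1,2),(1,0),(14,
  0)]⟩⟩]⟩))))))))) (.R ⟨1,true,false,false,[1,-1],[1,0,0,0,-1],[0,1,-1,-1],(⟨0,[(38,0)]⟩,⟨0,[(39,
  0)]⟩),(⟨0,[(27,0)]⟩,⟨0,[(28,0)]⟩),⟨0,[(23,0),(0,0)]⟩,.k,.k,(.x 1 ⟨0,[(17,0)]⟩ ⟨0,[(37,0),(0,1),(9,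
  0)]⟩),(.r (-1) ⟨2,[(13,0),(11,0),(0,0)]⟩ ⟨0,[(44,0),(6,0)]⟩),(.r (-2) ⟨2,[(13,1),(11,1),(0,1)]⟩
  ⟨0,[(14,1),(30,1),(3,0)]⟩),.k,⟨false,1,⟨11,[(13,3),(11,0),(0,0),(13,5),(7,2)]⟩,⟨0,[(14,0),(30,0),
  (3,0)]⟩⟩,⟨true,1,⟨11,[(0,8),(11,1),(0,3),(11,2),(11,0)]⟩,⟨0,[(2,0),(11,0)]⟩⟩,⟨true,0,⟨0,[(51,0)]⟩,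
  ⟨0,[]⟩⟩,⟨false,1,⟨1,[(0,0),(24,0),(23,0)]⟩,⟨0,[(4,0)]⟩⟩,⟨false,0,⟨0,[(47,0)]⟩,⟨9,[(4,3),(7,1),(12,
  3),(11,0),(11,4)]⟩⟩,⟨true,0,⟨0,[(0,0)]⟩,⟨0,[(4,0),(41,0)]⟩⟩,[]⟩))) (.Q [0,0,-2,0,1,0,0,0,-1,0,0,
  -1] (.p false [0,0,0,0,1] [] (⟨0,[(26,0)]⟩,⟨0,[(25,0)]⟩) .k 0 (⟨0,[]⟩,⟨0,[]⟩) .k .k) (.R ⟨1,false,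
  false,true,[1,-1],[1,0,0,0,-1],[0,1],(⟨0,[(37,0)]⟩,⟨0,[(38,0)]⟩),(⟨0,[(26,0)]⟩,⟨0,[(27,0)]⟩),⟨0,
  [(22,0),(0,0)]⟩,.k,.k,(.x 1 ⟨0,[(16,0)]⟩ ⟨0,[(36,0),(0,1),(9,0)]⟩),(.r (-1) ⟨2,[(12,0),(11,0),(0,
  0)]⟩ ⟨0,[(43,0),(6,0)]⟩),(.r (-2) ⟨2,[(12,1),(11,1),(0,1)]⟩ ⟨0,[(13,1),(30,1),(3,0)]⟩),.k,⟨true,0,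
  ⟨0,[]⟩,⟨1,[(31,0),(0,0)]⟩⟩,⟨false,1,⟨0,[(0,0)]⟩,⟨1,[(25,1),(5,0),(0,0)]⟩⟩,⟨true,(-1),⟨0,[(13,0),
  (30,0)]⟩,⟨2,[(12,0),(11,0),(0,0)]⟩⟩,⟨true,0,⟨4,[(1,3),(0,0),(11,0),(24,0),(10,1)]⟩,⟨0,[(3,0)]⟩⟩,
  ⟨true,(-1),⟨2,[(13,1),(0,1),(26,0),(2,0),(1,1)]⟩,⟨14,[(3,2),(7,3),(0,4),(11,2),(11,1)]⟩⟩,⟨false,0,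
  ⟨0,[(1,0),(44,0)]⟩,⟨9,[(3,13),(7,1),(12,3),(11,0),(11,4)]⟩⟩,[.o ⟨false,0,⟨0,[(1,0),(43,0)]⟩,⟨1,
  [(25,1),(10,0),(11,0)]⟩⟩,.a ⟨true,0,⟨11,[(0,0),(0,8),(0,1),(8,2),(23,4),(1,4),(3,0)]⟩,⟨0,[(25,
  0)]⟩⟩ ⟨false,1,⟨1,[(24,0),(0,0),(21,0)]⟩,⟨0,[]⟩⟩ ⟨true,1,⟨3,[(0,2),(23,0),(24,1)]⟩,⟨0,[(3,0),(9,
  0)]⟩⟩,.o ⟨false,0,⟨1,[(31,0),(0,0)]⟩,⟨1,[(36,0),(10,0)]⟩⟩,.e ⟨true,0,⟨0,[(44,0)]⟩,⟨1,[(31,0),(0,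
  0)]⟩⟩ ⟨true,1,⟨5,[(0,4),(23,0),(14,1),(10,1)]⟩,⟨0,[(3,0),(9,0)]⟩⟩]⟩) (.R ⟨1,true,false,false,[1,
  -1],[1,0,0,0,-1],[0,1,-1,-1],(⟨0,[(37,0)]⟩,⟨0,[(38,0)]⟩),(⟨0,[(26,0)]⟩,⟨0,[(27,0)]⟩),⟨0,[(22,0),
  (0,0)]⟩,.k,.k,(.x 1 ⟨0,[(16,0)]⟩ ⟨0,[(36,0),(0,1),(9,0)]⟩),(.r (-1) ⟨2,[(12,0),(11,0),(0,0)]⟩ ⟨0,
  [(43,0),(6,0)]⟩),(.r (-2) ⟨2,[(12,1),(11,1),(0,1)]⟩ ⟨0,[(0,1),(0,1),(42,1),(3,0)]⟩),.k,⟨false,1,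
  ⟨11,[(12,3),(11,0),(0,0),(13,5),(7,2)]⟩,⟨0,[(0,0),(0,0),(42,0),(3,0)]⟩⟩,⟨true,1,⟨4,[(1,2),(10,0),
  (11,1),(22,0)]⟩,⟨0,[(0,0)]⟩⟩,⟨true,0,⟨0,[(50,0)]⟩,⟨0,[]⟩⟩,⟨false,1,⟨1,[(1,0),(22,0),(21,0),(1,
  0)]⟩,⟨0,[(3,0)]⟩⟩,⟨false,0,⟨0,[(46,0)]⟩,⟨17,[(0,5),(10,1),(0,3),(11,5),(11,0),(11,8)]⟩⟩,⟨true,0,
  ⟨0,[(1,0),(44,0)]⟩,⟨0,[(3,0),(41,0)]⟩⟩,[]⟩)))))))) (.S ⟨1,0,[0,1,0,0,0,0,0,-1],[1,0,-1],[0,0,0,0,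
  0,0,0,-1],(⟨0,[(26,0)]⟩,⟨0,[(27,0)]⟩),⟨0,[(15,0)]⟩,.k,.k,⟨false,1,⟨1,[(17,0),(0,0),(22,0)]⟩,⟨0,
  []⟩⟩,⟨true,0,⟨0,[(43,0)]⟩,⟨0,[]⟩⟩,⟨true,0,⟨0,[(39,0)]⟩,⟨0,[(38,0)]⟩⟩,⟨false,0,⟨0,[(39,0)]⟩,⟨17,
  [(4,1),(0,3),(18,5),(0,5),(3,0),(11,8)]⟩⟩,[.o ⟨false,0,⟨0,[(23,0)]⟩,⟨1,[(2,1),(26,0),(11,0)]⟩⟩,.a
  ⟨true,0,⟨0,[(12,0),(8,0)]⟩,⟨0,[(2,0)]⟩⟩ ⟨true,1,⟨1,[(12,1),(27,0),(0,0)]⟩,⟨0,[(1,0),(4,0),(6,0),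
  (23,0)]⟩⟩ ⟨false,1,⟨0,[(12,0),(27,0)]⟩,⟨0,[(3,0)]⟩⟩,.o ⟨false,0,⟨0,[(13,0)]⟩,⟨3,[(0,1),(16,0),(0,
  0),(5,1),(4,0)]⟩⟩,.o ⟨false,0,⟨0,[(25,0)]⟩,⟨0,[(0,0)]⟩⟩]⟩)))

theorem ok22 : chk K t22 l19 = true := by decide +kernel

noncomputable def t23 : Tre :=
  (.Q [0,0,0,0,0,2,0,0,0,-1,1] (.p true [0,0,1] [1] (⟨0,[(27,0)]⟩,⟨0,[(26,0)]⟩) .k 1 (⟨0,[]⟩,⟨0,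
  []⟩) .k .k) (.R ⟨0,false,false,false,[1,-1,-1],[1,-1],[1,0,1],(⟨0,[(16,0)]⟩,⟨4,[(0,1),(17,0),(0,
  0),(8,2),(0,0),(5,0)]⟩),(⟨0,[(31,0)]⟩,⟨0,[(32,0)]⟩),⟨0,[(0,0)]⟩,.k,.k,(.r (-2) ⟨3,[(1,1),(4,1),(6,
  1),(10,1),(16,0),(0,0)]⟩ ⟨0,[(4,0),(2,0),(32,0)]⟩),.k,.k,.k,⟨true,(-1),⟨0,[(7,0)]⟩,⟨2,[(6,0),(11,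
  0),(0,0)]⟩⟩,⟨false,1,⟨0,[(25,0),(15,0)]⟩,⟨0,[(14,0)]⟩⟩,⟨true,(-1),⟨0,[(4,0),(2,0)]⟩,⟨0,[(1,0),(1,
  0),(34,0)]⟩⟩,⟨false,1,⟨0,[(23,0),(18,0)]⟩,⟨0,[(3,0)]⟩⟩,⟨false,0,⟨0,[]⟩,⟨0,[]⟩⟩,⟨false,0,⟨0,[]⟩,⟨0,
  []⟩⟩,[.a ⟨true,0,⟨6,[(1,0),(7,2),(5,0),(9,0),(3,0),(1,0),(3,0)]⟩,⟨0,[(40,0)]⟩⟩ ⟨false,0,⟨0,[]⟩,⟨1,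
  [(18,0),(0,0),(21,0)]⟩⟩ ⟨true,1,⟨0,[(1,0)]⟩,⟨0,[(7,0),(6,0)]⟩⟩,.o ⟨false,1,⟨17,[(5,1),(0,3),(18,
  5),(0,5),(3,0),(11,8)]⟩,⟨0,[(8,0)]⟩⟩,.e ⟨true,0,⟨1,[(25,0),(0,0)]⟩,⟨0,[(38,0)]⟩⟩ ⟨true,1,⟨0,[(1,
  0)]⟩,⟨0,[(7,0),(6,0),(23,0)]⟩⟩,.o ⟨false,(-1),⟨0,[(2,0),(0,0),(3,0)]⟩,⟨1,[(25,1),(4,0),(10,
  2)]⟩⟩]⟩) (.Q [0,0,0,1,0,0,1,1,0,0,1] (.p true [0,0,1] [] (⟨0,[(28,0)]⟩,⟨0,[(27,0)]⟩) .k 0 (⟨0,[]⟩,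
  ⟨0,[]⟩) .k .k) (.R ⟨2,true,false,true,[0,1],[0,1,1],[0,1],(⟨0,[]⟩,⟨0,[]⟩),(⟨22,[(19,2),(0,2),(8,
  22),(0,4),(4,5),(0,2)]⟩,⟨0,[(17,0)]⟩),⟨0,[]⟩,.k,.k,.k,.k,.k,.k,⟨true,1,⟨0,[(2,0),(1,0)]⟩,⟨0,[(5,
  0),(2,0)]⟩⟩,⟨false,1,⟨1,[(0,0),(1,0),(11,0),(27,0)]⟩,⟨0,[(15,0)]⟩⟩,⟨false,1,⟨2,[(7,0),(11,0),(0,
  0)]⟩,⟨0,[(38,0)]⟩⟩,⟨true,0,⟨0,[(24,0)]⟩,⟨0,[(4,0)]⟩⟩,⟨true,0,⟨0,[(39,0)]⟩,⟨1,[(26,0),(0,0)]⟩⟩,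
  ⟨false,0,⟨0,[(0,0)]⟩,⟨5,[(4,1),(1,1),(18,3),(5,0),(11,4)]⟩⟩,[]⟩) (.Q [0,1,0,2,0,0,1,1,0,-1,1] (.p
  true [0,0,1] [1] (⟨0,[(29,0)]⟩,⟨0,[(28,0)]⟩) .k 1 (⟨0,[]⟩,⟨0,[]⟩) .k .k) (.Q [0,-1,0,-1,0,0,-1,-1,
  0,1,-1] (.p false [0,0,1] [1] (⟨0,[(30,0)]⟩,⟨0,[(29,0)]⟩) .k 1 (⟨0,[]⟩,⟨0,[]⟩) .k .k) (.R ⟨1,true,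
  false,true,[1,0,-1],[0,1],[1,1,0,-1,0,0,0,-1],(⟨0,[(30,0)]⟩,⟨0,[(31,0)]⟩),(⟨0,[(35,0)]⟩,⟨0,[(34,
  0)]⟩),⟨0,[(19,0)]⟩,.k,.k,.k,.k,(.r (-2) ⟨3,[(4,1),(4,1),(6,1),(10,1),(16,0),(0,0)]⟩ ⟨2,[(1,0),(5,
  1),(2,2),(14,0),(14,0)]⟩),.k,⟨true,1,⟨0,[(2,0),(1,0)]⟩,⟨2,[(1,0),(5,1),(2,2),(14,0),(14,0)]⟩⟩,
  ⟨false,2,⟨5,[(1,1),(2,3),(11,1),(16,1),(10,4),(0,0)]⟩,⟨10,[(0,2),(1,1),(2,4),(4,9),(14,5),(12,0),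
  (2,2)]⟩⟩,⟨true,0,⟨0,[(42,0)]⟩,⟨0,[(43,0)]⟩⟩,⟨false,1,⟨3,[(1,1),(19,0),(0,0),(3,1),(6,0),(11,1)]⟩,
  ⟨0,[(0,0)]⟩⟩,⟨false,0,⟨0,[]⟩,⟨1,[(21,0),(0,0),(22,0)]⟩⟩,⟨true,0,⟨0,[(1,0)]⟩,⟨1,[(0,0),(7,0),(18,
  0)]⟩⟩,[]⟩) (.I [0,0,0,0,1,0,0,0,-1] (.I [1,0,0,-1,0,1] (.I [1,0,1,0,0,1,1] (.I [0,0,1,-1,0,0,0,
  -1] (.I [1,0,0,0,0,3,0,0,1] (.I [0,1,0,-3] (.I [0,0,0,-1,0,-1,-1,-1] (.I [0,0,-1,-2,1,0,0,-1] (.I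
  [1,0,-1,-1,1,1,1] (.I [0,1,0,1,0,-2,1,1] (.C [(0,1),(2,1),(43,1),(0,0),(6,0)]) (.C [(0,0),(9,0),
  (2,0)])) (.C [(0,0),(11,0),(0,0),(32,0)])) (.C [(0,0),(9,0),(1,0)])) (.C [(0,0),(8,0),(17,0)]))
  (.C [(0,0),(5,0),(1,0),(5,0)])) (.C [(0,0),(26,0),(0,0),(13,0)])) (.C [(0,0),(5,0),(25,0)])) (.C
  [(0,0),(5,0),(24,0),(8,0)])) (.C [(0,2),(9,0),(28,0)])) (.C [(0,0),(21,0),(2,0)]))) (.Q [0,-1,0,2,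
  1,0,1,1,0,-1,1] (.p true [0,0,1] [1] (⟨0,[(30,0)]⟩,⟨0,[(29,0)]⟩) .k 1 (⟨0,[]⟩,⟨0,[]⟩) .k .k) (.R
  ⟨1,true,false,false,[1,0,-1],[0,1],[1,0,0,-1,0,0,0,-1],(⟨0,[(30,0)]⟩,⟨0,[(31,0)]⟩),(⟨0,[(35,0)]⟩,
  ⟨0,[(34,0)]⟩),⟨0,[(19,0)]⟩,.k,.k,.k,.k,(.r (-2) ⟨3,[(4,1),(4,1),(6,1),(10,1),(16,0),(0,0)]⟩ ⟨6,
  [(0,1),(6,4),(2,7),(0,1),(13,1),(12,0)]⟩),.k,⟨true,1,⟨0,[(2,0),(1,0)]⟩,⟨6,[(0,1),(6,4),(2,7),(0,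
  1),(13,1),(12,0)]⟩⟩,⟨false,2,⟨3,[(0,0),(3,2),(6,0),(4,0),(16,0),(10,2)]⟩,⟨13,[(1,2),(0,1),(2,4),
  (4,12),(14,8),(12,0),(2,2)]⟩⟩,⟨false,1,⟨17,[(8,1),(0,3),(18,5),(0,5),(3,0),(11,8)]⟩,⟨0,[(43,0)]⟩⟩,
  ⟨true,1,⟨3,[(0,1),(20,0),(0,0),(3,1),(6,0)]⟩,⟨0,[(1,0),(8,0),(30,1)]⟩⟩,⟨true,0,⟨0,[]⟩,⟨0,[(47,
  0)]⟩⟩,⟨false,1,⟨0,[(0,0)]⟩,⟨1,[(1,0),(10,0),(14,0)]⟩⟩,[]⟩) (.Q [0,0,-2,0,0,0,-1,0,0,1,-1] (.p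
  false [0,0,1] [1] (⟨0,[(31,0)]⟩,⟨0,[(30,0)]⟩) .k 1 (⟨0,[]⟩,⟨0,[]⟩) .k .k) (.R ⟨0,false,false,true,
  [0,-1,1],[1,-1],[0,1,0,-1],(⟨0,[(21,0)]⟩,⟨22,[(22,2),(0,2),(7,22),(1,4),(4,5),(0,2)]⟩),(⟨0,[(35,
  0)]⟩,⟨0,[(36,0)]⟩),⟨2,[(4,1),(26,0),(1,0),(4,2)]⟩,.k,.k,(.x 0 ⟨5,[(14,2),(7,0),(0,0),(5,5),(1,5),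
  (2,1),(3,1)]⟩ ⟨8,[(0,4),(3,2),(14,1),(1,11),(12,4),(10,3)]⟩),.k,.k,.k,⟨true,0,⟨1,[(29,0),(0,0)]⟩,
  ⟨0,[]⟩⟩,⟨false,0,⟨0,[(26,0)]⟩,⟨1,[(29,1),(4,0),(10,0)]⟩⟩,⟨false,0,⟨1,[(1,1),(9,3),(17,1),(10,0),
  (1,7),(3,4)]⟩,⟨1,[(8,1),(36,0),(0,0)]⟩⟩,⟨true,(-1),⟨2,[(1,1),(5,0),(4,0),(26,0),(4,2)]⟩,⟨1,[(27,
  1),(6,0),(11,0)]⟩⟩,⟨false,0,⟨0,[]⟩,⟨0,[]⟩⟩,⟨false,0,⟨0,[]⟩,⟨0,[]⟩⟩,[.o ⟨false,0,⟨0,[(43,0)]⟩,⟨1,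
  [(34,0),(9,1),(1,0)]⟩⟩,.a ⟨true,0,⟨6,[(5,0),(7,2),(5,0),(9,0),(3,0),(1,0),(3,0)]⟩,⟨0,[(44,0)]⟩⟩
  ⟨false,1,⟨2,[(10,0),(11,0),(0,0)]⟩,⟨0,[(44,0)]⟩⟩ ⟨true,0,⟨44,[(0,20),(0,1),(0,1),(3,3),(2,9),(0,
  0),(8,9)]⟩,⟨2,[(11,0),(0,0),(16,2),(4,0),(6,0)]⟩⟩,.a ⟨true,0,⟨0,[(29,0)]⟩,⟨0,[(26,0)]⟩⟩ ⟨true,0,
  ⟨0,[(43,0)]⟩,⟨0,[(44,0)]⟩⟩ ⟨false,0,⟨44,[(0,20),(0,1),(0,1),(3,3),(2,9),(0,0),(8,9)]⟩,⟨1,[(29,1),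
  (4,0),(9,1),(1,0)]⟩⟩,.a ⟨true,0,⟨1,[(29,2),(0,0)]⟩,⟨0,[(0,0)]⟩⟩ ⟨false,1,⟨2,[(10,0),(11,0),(0,
  0)]⟩,⟨0,[(41,0)]⟩⟩ ⟨true,0,⟨60,[(0,37),(0,10),(4,10),(9,13),(2,5),(17,17),(1,2)]⟩,⟨2,[(11,0),(0,
  0),(16,2),(4,0),(6,0)]⟩⟩]⟩) (.Q [0,-1,0,2,0,0,-1,-1,0,0,-1] (.p false [0,0,1] [] (⟨0,[(32,0)]⟩,⟨0,
  [(31,0)]⟩) .k 0 (⟨0,[]⟩,⟨0,[]⟩) .k .k) (.R ⟨1,false,false,false,[0,0,1],[0,1],[],(⟨0,[(33,0)]⟩,⟨0,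
  [(32,0)]⟩),(⟨0,[(37,0)]⟩,⟨0,[(36,0)]⟩),⟨0,[(22,0)]⟩,.k,.k,.k,.k,(.x 0 ⟨24,[(1,12),(13,5),(7,5),(0,
  5),(5,11),(1,24),(1,1),(4,11)]⟩ ⟨17,[(0,5),(1,1),(2,5),(1,7),(14,23),(4,9),(7,8),(7,3),(2,10)]⟩),
  .k,⟨true,1,⟨2,[(11,0),(11,0),(0,0)]⟩,⟨0,[(12,0)]⟩⟩,⟨false,1,⟨1,[(27,1),(7,0),(10,0)]⟩,⟨0,[(30,
  0)]⟩⟩,⟨false,1,⟨3,[(0,0),(5,1),(11,1),(10,0),(17,1)]⟩,⟨0,[(9,0)]⟩⟩,⟨true,0,⟨1,[(0,0),(28,0)]⟩,⟨0,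
  [(16,0)]⟩⟩,⟨false,1,⟨7,[(0,5),(5,3),(11,1),(4,2),(0,2),(5,1),(16,0)]⟩,⟨0,[(7,0)]⟩⟩,⟨false,0,⟨0,
  [(0,0)]⟩,⟨9,[(1,1),(9,1),(2,1),(1,9),(6,0),(0,0),(6,1),(15,4)]⟩⟩,[.e ⟨false,1,⟨1,[(23,0),(0,0),
  (21,0)]⟩,⟨0,[]⟩⟩ ⟨false,0,⟨0,[(0,0),(6,0),(35,0)]⟩,⟨2,[(11,0),(11,0),(0,0),(5,2)]⟩⟩,.o ⟨false,1,
  ⟨1,[(35,0),(9,1),(1,0)]⟩,⟨0,[(44,0)]⟩⟩,.o ⟨false,1,⟨1,[(30,1),(4,0),(10,0)]⟩,⟨0,[(19,0)]⟩⟩,.a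
  ⟨true,0,⟨0,[(30,0)]⟩,⟨0,[(27,0)]⟩⟩ ⟨false,1,⟨1,[(46,0),(0,0)]⟩,⟨2,[(1,0),(18,0),(9,0)]⟩⟩ ⟨true,0,
  ⟨0,[(0,0),(6,0),(35,0)]⟩,⟨0,[(30,0),(13,0)]⟩⟩]⟩) (.Q [-1,0,1,0,0,0,1,0,-1,0,1,-1] (.p true [0,0,
  1] [0,0,0,0,1] (⟨0,[(33,0)]⟩,⟨0,[(32,0)]⟩) .k 2 (⟨0,[(26,0)]⟩,⟨0,[(25,0)]⟩) .k (.r 0 ⟨0,[(7,0),(4,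
  0),(30,1),(3,0)]⟩ ⟨1,[(18,1),(4,0),(0,0),(21,0)]⟩)) (.Q [0,0,0,0,0,-1,0,0,0,0,0,1] (.ed false [1,
  -1,0,0,1] .k) (.Q [-1,0,0,1,0,0,0,0,-1,0,0,-1] (.p false [0,0,0,0,1] [] (⟨0,[(28,0)]⟩,⟨0,[(27,
  0)]⟩) .k 0 (⟨0,[]⟩,⟨0,[]⟩) .k .k) (.R ⟨2,true,false,true,[0,1],[0,0,0,0,1],[2,1],(⟨0,[]⟩,⟨0,[]⟩),
  (⟨0,[(29,0)]⟩,⟨0,[(28,0)]⟩),⟨0,[]⟩,.k,.k,.k,(.r 0 ⟨0,[(45,0),(6,0)]⟩ ⟨2,[(14,0),(11,0),(0,0)]⟩),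
  .k,.k,⟨true,0,⟨0,[]⟩,⟨2,[(4,0),(18,0),(9,0)]⟩⟩,⟨false,0,⟨0,[(27,0)]⟩,⟨4,[(0,2),(13,0),(11,1),(22,
  0)]⟩⟩,⟨false,1,⟨2,[(14,0),(11,0),(0,0)]⟩,⟨0,[(15,0),(30,0),(3,0)]⟩⟩,⟨true,0,⟨0,[(27,0),(19,0)]⟩,
  ⟨0,[(0,0)]⟩⟩,⟨true,0,⟨0,[(46,0)]⟩,⟨0,[(51,0)]⟩⟩,⟨false,0,⟨0,[(27,0)]⟩,⟨51,[(0,23),(1,5),(3,5),(3,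
  5),(3,1),(11,21),(11,2),(11,22)]⟩⟩,[]⟩) (.S ⟨1,0,[1],[0,0,0,0,1],[0,1],(⟨0,[(29,0)]⟩,⟨0,[(28,
  0)]⟩),⟨0,[(1,0)]⟩,.k,(.r (-1) ⟨2,[(14,0),(11,0),(0,0)]⟩ ⟨0,[(45,0),(6,0)]⟩),⟨true,0,⟨0,[(52,0)]⟩,
  ⟨0,[]⟩⟩,⟨false,1,⟨1,[(26,0),(0,0),(22,0)]⟩,⟨0,[]⟩⟩,⟨false,0,⟨0,[(15,0),(30,1),(3,0)]⟩,⟨5,[(0,0),
  (3,0),(9,0),(2,0),(8,0),(7,0),(15,2)]⟩⟩,⟨true,0,⟨0,[(48,0)]⟩,⟨0,[(47,0)]⟩⟩,[.a ⟨true,0,⟨0,[(27,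
  0)]⟩,⟨0,[(2,0),(27,0)]⟩⟩ ⟨false,0,⟨0,[(46,0)]⟩,⟨1,[(26,0),(0,0),(22,0)]⟩⟩ ⟨true,0,⟨0,[]⟩,⟨2,[(4,
  0),(18,0),(9,0)]⟩⟩,.o ⟨false,1,⟨1,[(27,1),(10,0),(11,0)]⟩,⟨0,[(2,0),(19,0),(23,0)]⟩⟩,.e ⟨true,0,
  ⟨0,[(52,0)]⟩,⟨0,[]⟩⟩ ⟨true,0,⟨0,[]⟩,⟨0,[(52,0)]⟩⟩,.o ⟨false,0,⟨1,[(0,0),(14,0),(11,0),(16,0)]⟩,⟨1,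
  [(2,1),(27,1),(7,0),(10,0)]⟩⟩]⟩)) (.S ⟨1,0,[-1,1],[1,0,0,0,-1],[-1],(⟨0,[(27,0)]⟩,⟨0,[(28,0)]⟩),
  ⟨1,[(0,0),(6,0),(16,0),(2,0)]⟩,.k,(.r (-1) ⟨14,[(13,4),(11,2),(0,2),(22,1),(1,3)]⟩ ⟨0,[(44,0),(6,
  0)]⟩),⟨false,1,⟨1,[(25,0),(0,0),(22,0)]⟩,⟨0,[]⟩⟩,⟨true,0,⟨0,[(51,0)]⟩,⟨0,[]⟩⟩,⟨true,0,⟨0,[(47,
  0)]⟩,⟨0,[(46,0)]⟩⟩,⟨false,0,⟨0,[(47,0)]⟩,⟨9,[(3,1),(9,1),(2,1),(8,0),(0,0),(6,1),(15,4)]⟩⟩,[.o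
  ⟨false,0,⟨0,[(1,0),(19,0),(23,0)]⟩,⟨1,[(26,1),(10,0),(11,0)]⟩⟩,.e ⟨false,1,⟨0,[(45,0),(3,0)]⟩,⟨0,
  [(51,0)]⟩⟩ ⟨false,1,⟨9,[(25,3),(0,3),(21,4),(0,0),(1,1)]⟩,⟨0,[]⟩⟩,.a ⟨true,0,⟨0,[(1,0),(27,0)]⟩,
  ⟨0,[(26,0)]⟩⟩ ⟨false,1,⟨4,[(25,1),(0,1),(22,2),(1,0)]⟩,⟨0,[]⟩⟩ ⟨true,0,⟨0,[(51,0)]⟩,⟨0,[]⟩⟩,.o
  ⟨false,0,⟨0,[(1,0),(19,0)]⟩,⟨1,[(26,1),(10,0),(10,0)]⟩⟩]⟩)) (.Q [1,-1,0,-1,0,0,0,0,1,0,0,1] (.p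
  true [0,0,0,0,1] [] (⟨0,[(27,0)]⟩,⟨0,[(26,0)]⟩) .k 0 (⟨0,[]⟩,⟨0,[]⟩) .k .k) (.Q [0,0,0,0,0,1,0,0,
  0,0,0,-1] (.ed true [1,-1,0,0,1] .k) (.Q [1,1,0,1,-1,0,0,0,1,-1,0,1] (.p true [0,0,0,0,1] [1] (⟨0,
  [(29,0)]⟩,⟨0,[(28,0)]⟩) .k 1 (⟨0,[]⟩,⟨0,[]⟩) .k .k) (.R ⟨0,false,false,true,[0,0,0,0,1],[0,1],[0,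
  1],(⟨0,[(30,0)]⟩,⟨0,[(29,0)]⟩),(⟨0,[(41,0)]⟩,⟨0,[(40,0)]⟩),⟨0,[(1,0)]⟩,.k,.k,(.r (-1) ⟨2,[(15,0),
  (11,0),(0,0)]⟩ ⟨0,[(46,0),(6,0)]⟩),(.r (-1) ⟨2,[(15,0),(11,0),(0,0)]⟩ ⟨0,[(46,0),(6,0)]⟩),.k,.k,
  ⟨true,1,⟨2,[(15,0),(11,0),(0,0)]⟩,⟨0,[(16,0)]⟩⟩,⟨false,2,⟨0,[(27,0),(22,0)]⟩,⟨83,[(0,28),(1,42),
  (1,6),(1,6),(2,9),(6,41),(9,9),(1,11),(9,29),(5,5)]⟩⟩,⟨true,0,⟨0,[(53,0)]⟩,⟨0,[]⟩⟩,⟨false,1,⟨0,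
  [(27,0),(21,0)]⟩,⟨0,[(2,0)]⟩⟩,⟨false,0,⟨0,[]⟩,⟨0,[]⟩⟩,⟨false,0,⟨0,[]⟩,⟨0,[]⟩⟩,[.o ⟨false,0,⟨0,
  [(17,0)]⟩,⟨9,[(5,1),(9,1),(2,1),(8,0),(0,0),(6,1),(15,4)]⟩⟩,.a ⟨true,0,⟨0,[(49,0)]⟩,⟨6,[(10,0),(7,
  2),(5,0),(9,0),(3,0),(1,0),(3,0)]⟩⟩ ⟨false,1,⟨1,[(27,0),(0,0),(21,0)]⟩,⟨0,[]⟩⟩ ⟨true,1,⟨0,[(27,0),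
  (21,0)]⟩,⟨35,[(0,16),(1,18),(1,12),(1,0),(0,11),(1,3),(6,17),(9,3),(11,11)]⟩⟩,.o ⟨false,0,⟨25,[(0,
  8),(1,8),(6,0),(16,0),(1,7),(9,2),(6,8)]⟩,⟨0,[(27,0)]⟩⟩,.e ⟨true,0,⟨0,[(47,0)]⟩,⟨2,[(5,0),(18,0),
  (9,0)]⟩⟩ ⟨true,1,⟨0,[(27,0),(19,0),(1,0)]⟩,⟨35,[(0,16),(1,18),(1,12),(1,0),(0,11),(1,3),(6,17),(9,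
  3),(11,11)]⟩⟩]⟩) (.R ⟨1,false,false,false,[1,0,0,0,-1],[1,-1],[-1],(⟨0,[(29,0)]⟩,⟨0,[(30,0)]⟩),
  (⟨0,[(40,0)]⟩,⟨0,[(41,0)]⟩),⟨1,[(1,0),(7,0),(16,0),(2,0)]⟩,.k,.k,(.r (-1) ⟨14,[(15,4),(11,2),(0,
  2),(22,1),(1,3)]⟩ ⟨0,[(46,0),(6,0)]⟩),(.r 0 ⟨0,[(46,0),(6,0)]⟩ ⟨2,[(15,0),(11,0),(0,0)]⟩),.k,.k,
  ⟨false,0,⟨0,[(16,0),(30,1),(3,0)]⟩,⟨2,[(15,0),(11,0),(0,0)]⟩⟩,⟨true,(-1),⟨0,[(2,0),(13,0),(30,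
  0)]⟩,⟨0,[(27,0)]⟩⟩,⟨false,1,⟨1,[(27,0),(0,0),(22,0)]⟩,⟨0,[]⟩⟩,⟨false,0,⟨0,[(2,0)]⟩,⟨0,[(27,0),(21,
  0)]⟩⟩,⟨true,0,⟨0,[(49,0)]⟩,⟨0,[(48,0)]⟩⟩,⟨false,0,⟨0,[(2,0),(46,0)]⟩,⟨5,[(0,1),(15,0),(10,3),(17,
  0),(1,1),(1,0)]⟩⟩,[.e ⟨false,1,⟨9,[(27,3),(0,3),(21,4),(0,0),(1,1)]⟩,⟨0,[]⟩⟩ ⟨false,0,⟨0,[(2,0),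
  (44,0)]⟩,⟨0,[(27,0),(21,0)]⟩⟩,.o ⟨false,1,⟨13,[(0,1),(4,2),(8,0),(0,2),(12,1),(6,2),(15,5)]⟩,⟨0,
  [(17,0)]⟩⟩,.o ⟨false,1,⟨0,[(27,0)]⟩,⟨3,[(2,3),(13,0),(0,1),(27,0),(1,1),(1,0)]⟩⟩,.a ⟨true,0,⟨0,
  [(0,0),(15,0),(30,0)]⟩,⟨0,[(2,0),(44,0),(1,0)]⟩⟩ ⟨false,1,⟨0,[(47,0),(3,0)]⟩,⟨2,[(5,0),(18,0),(9,
  0)]⟩⟩ ⟨true,0,⟨0,[(2,0),(44,0)]⟩,⟨0,[(16,0),(10,0),(19,0)]⟩⟩]⟩)) (.Q [0,0,1,-1,-1,0,0,0,1,0,0,1]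
  (.p true [0,0,0,0,1] [] (⟨0,[(29,0)]⟩,⟨0,[(28,0)]⟩) .k 0 (⟨0,[]⟩,⟨0,[]⟩) .k .k) (.Q [0,-1,1,-1,-1,
  0,-1,-1,1,0,-1,1] (.p false [0,0,1] [0,0,0,0,1] (⟨0,[(37,0)]⟩,⟨0,[(36,0)]⟩) .k 2 (⟨0,[(30,0)]⟩,⟨0,
  [(29,0)]⟩) .k (.r 0 ⟨0,[(11,0),(4,0),(30,1),(3,0)]⟩ ⟨1,[(22,1),(4,0),(0,0),(21,0)]⟩)) (.R ⟨1,
  false,false,true,[0,0,0,0,1],[0,1],[0,1],(⟨0,[(31,0)]⟩,⟨0,[(30,0)]⟩),(⟨0,[(42,0)]⟩,⟨0,[(41,0)]⟩),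
  ⟨0,[(2,0)]⟩,.k,.k,(.r (-1) ⟨2,[(16,0),(11,0),(0,0)]⟩ ⟨0,[(47,0),(6,0)]⟩),(.r (-1) ⟨2,[(16,0),(11,
  0),(0,0)]⟩ ⟨0,[(47,0),(6,0)]⟩),(.r (-2) ⟨2,[(16,1),(11,1),(0,1)]⟩ ⟨0,[(17,1),(30,1),(3,0)]⟩),.k,
  ⟨true,1,⟨2,[(16,0),(11,0),(0,0)]⟩,⟨0,[(17,0)]⟩⟩,⟨false,2,⟨0,[(28,0),(22,0)]⟩,⟨0,[(1,0),(48,0)]⟩⟩,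
  ⟨true,0,⟨0,[(54,0)]⟩,⟨0,[]⟩⟩,⟨false,1,⟨0,[(28,0),(21,0)]⟩,⟨0,[(3,0)]⟩⟩,⟨false,0,⟨0,[(17,0),(30,1),
  (3,0)]⟩,⟨9,[(6,1),(9,1),(2,1),(8,0),(0,0),(6,1),(15,4)]⟩⟩,⟨false,1,⟨0,[(28,0),(21,1)]⟩,⟨3,[(0,1),
  (2,1),(1,1),(45,0),(0,0)]⟩⟩,[.o ⟨false,0,⟨0,[(18,0)]⟩,⟨9,[(6,1),(9,1),(2,1),(8,0),(0,0),(6,1),(15,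
  4)]⟩⟩,.a ⟨true,0,⟨0,[(50,0)]⟩,⟨6,[(11,0),(7,2),(5,0),(9,0),(3,0),(1,0),(3,0)]⟩⟩ ⟨false,1,⟨1,[(28,
  0),(0,0),(21,0)]⟩,⟨0,[]⟩⟩ ⟨true,1,⟨0,[(28,0),(21,0)]⟩,⟨0,[(1,0)]⟩⟩,.o ⟨false,0,⟨5,[(1,1),(1,3),
  (14,3),(27,0),(3,1),(0,0)]⟩,⟨0,[(28,0)]⟩⟩,.e ⟨true,0,⟨0,[(48,0)]⟩,⟨2,[(6,0),(18,0),(9,0)]⟩⟩ ⟨true,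
  1,⟨0,[(28,0),(19,0),(1,0)]⟩,⟨0,[(1,0)]⟩⟩]⟩) (.S ⟨1,0,[1],[0,0,0,0,1],[1,0,1],(⟨0,[(31,0)]⟩,⟨0,
  [(30,0)]⟩),⟨0,[(2,0)]⟩,.k,(.r (-1) ⟨2,[(16,0),(11,0),(0,0)]⟩ ⟨5,[(0,0),(16,0),(11,0),(4,0),(12,3),
  (5,0),(0,1)]⟩),⟨true,0,⟨2,[(6,0),(18,0),(9,0)]⟩,⟨0,[(48,0)]⟩⟩,⟨false,1,⟨1,[(28,0),(0,0),(22,0)]⟩,
  ⟨0,[]⟩⟩,⟨false,0,⟨0,[(17,0),(30,0),(3,0)]⟩,⟨2,[(16,0),(11,0),(0,0)]⟩⟩,⟨true,0,⟨0,[(50,0)]⟩,⟨0,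
  [(49,0)]⟩⟩,[.o ⟨false,0,⟨0,[(3,0),(14,0)]⟩,⟨5,[(0,1),(6,1),(9,1),(10,3),(17,0),(1,1),(3,2)]⟩⟩,.e
  ⟨false,1,⟨1,[(28,0),(0,0),(22,0)]⟩,⟨0,[(48,0)]⟩⟩ ⟨false,1,⟨1,[(51,0),(0,0)]⟩,⟨0,[(54,0)]⟩⟩,.o
  ⟨false,0,⟨5,[(1,1),(1,3),(14,3),(27,0),(3,1),(0,0)]⟩,⟨0,[(28,0)]⟩⟩,.a ⟨true,(-1),⟨0,[(1,0),(48,
  0)]⟩,⟨3,[(0,1),(7,1),(19,1),(16,0),(4,1),(0,0)]⟩⟩ ⟨true,0,⟨0,[]⟩,⟨0,[(54,0)]⟩⟩ ⟨false,1,⟨1,[(51,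
  0),(0,0)]⟩,⟨2,[(6,0),(18,0),(9,0)]⟩⟩]⟩)) (.R ⟨1,true,false,true,[0,0,0,0,1],[0,1],[0,1],(⟨0,[(30,
  0)]⟩,⟨0,[(29,0)]⟩),(⟨0,[(41,0)]⟩,⟨0,[(40,0)]⟩),⟨0,[(1,0)]⟩,.k,.k,(.r (-1) ⟨2,[(15,0),(11,0),(0,
  0)]⟩ ⟨0,[(46,0),(6,0)]⟩),(.r (-1) ⟨2,[(15,0),(11,0),(0,0)]⟩ ⟨0,[(46,0),(6,0)]⟩),(.r (-2) ⟨2,[(15,
  1),(11,1),(0,1)]⟩ ⟨0,[(16,1),(30,1),(3,0)]⟩),.k,⟨true,1,⟨2,[(15,0),(11,0),(0,0)]⟩,⟨0,[(16,0)]⟩⟩,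
  ⟨false,2,⟨2,[(0,2),(14,0),(11,0),(0,0)]⟩,⟨0,[(2,0),(13,0),(30,0)]⟩⟩,⟨true,0,⟨0,[(53,0)]⟩,⟨0,[]⟩⟩,
  ⟨false,1,⟨1,[(0,0),(26,0),(18,0),(6,0)]⟩,⟨0,[(2,0)]⟩⟩,⟨false,0,⟨0,[(16,0),(30,1),(3,0)]⟩,⟨9,[(5,
  1),(9,1),(2,1),(8,0),(0,0),(6,1),(15,4)]⟩⟩,⟨true,0,⟨0,[(0,0),(15,0),(30,0)]⟩,⟨8,[(2,3),(1,1),(1,
  1),(7,1),(13,4),(10,1)]⟩⟩,[]⟩))) (.Q [0,0,0,0,0,0,0,0,-1,1,0,-1] (.p false [0,0,0,0,1] [1] (⟨0,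
  [(28,0)]⟩,⟨0,[(27,0)]⟩) .k 1 (⟨0,[]⟩,⟨0,[]⟩) .k .k) (.Q [0,0,0,0,0,-1,0,0,0,0,0,1] (.ed false [1,
  -1,0,0,1] .k) (.Q [1,0,0,-2,0,0,0,0,1,0,0,1] (.p true [0,0,0,0,1] [] (⟨0,[(30,0)]⟩,⟨0,[(29,0)]⟩)
  .k 0 (⟨0,[]⟩,⟨0,[]⟩) .k .k) (.R ⟨1,false,false,false,[0,0,0,0,1],[0,1],[0,1],(⟨0,[(31,0)]⟩,⟨0,
  [(30,0)]⟩),(⟨0,[(42,0)]⟩,⟨0,[(41,0)]⟩),⟨0,[(1,0)]⟩,.k,.k,(.r (-1) ⟨2,[(16,0),(11,0),(0,0)]⟩ ⟨0,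
  [(47,0),(6,0)]⟩),(.r (-1) ⟨2,[(16,0),(11,0),(0,0)]⟩ ⟨0,[(47,0),(6,0)]⟩),(.r (-2) ⟨2,[(16,1),(11,
  1),(0,1)]⟩ ⟨0,[(17,1),(30,1),(3,0)]⟩),.k,⟨false,1,⟨11,[(16,3),(11,0),(0,0),(13,5),(7,2)]⟩,⟨0,[(47,
  0)]⟩⟩,⟨true,1,⟨1,[(2,1),(37,0),(10,0)]⟩,⟨4,[(0,2),(16,5),(11,1),(18,1),(3,0)]⟩⟩,⟨true,0,⟨0,[(54,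
  0)]⟩,⟨0,[]⟩⟩,⟨false,1,⟨0,[(3,0),(48,0)]⟩,⟨1,[(0,0),(28,0)]⟩⟩,⟨false,0,⟨0,[(17,0),(30,1),(3,0)]⟩,
  ⟨1,[(0,0),(27,0),(23,0)]⟩⟩,⟨false,1,⟨0,[(3,0),(46,0),(1,0)]⟩,⟨0,[(0,0)]⟩⟩,[.e ⟨false,0,⟨0,[(48,
  0)]⟩,⟨1,[(28,0),(0,0),(22,0)]⟩⟩ ⟨false,1,⟨1,[(3,1),(47,0),(0,0)]⟩,⟨4,[(0,2),(16,0),(11,1),(18,1),
  (3,0)]⟩⟩,.o ⟨false,1,⟨1,[(40,0),(9,1),(1,0)]⟩,⟨0,[(49,0)]⟩⟩,.a ⟨true,0,⟨0,[(29,0)]⟩,⟨0,[(2,0)]⟩⟩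
  ⟨true,0,⟨0,[(54,0)]⟩,⟨0,[]⟩⟩ ⟨false,1,⟨0,[(3,0),(48,0)]⟩,⟨4,[(0,2),(16,0),(11,1),(18,1),(3,0)]⟩⟩,
  .o ⟨false,0,⟨3,[(0,0),(16,1),(11,2),(10,0),(5,0)]⟩,⟨1,[(2,1),(37,0),(10,0)]⟩⟩]⟩) (.Q [-1,0,0,1,0,
  0,0,0,-1,0,0,-1] (.p false [0,0,0,0,1] [] (⟨0,[(31,0)]⟩,⟨0,[(30,0)]⟩) .k 0 (⟨0,[]⟩,⟨0,[]⟩) .k .k)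
  (.R ⟨2,true,false,true,[0,1],[0,0,0,0,1],[2,1],(⟨0,[]⟩,⟨0,[]⟩),(⟨0,[(32,0)]⟩,⟨0,[(31,0)]⟩),⟨0,[]⟩,
  .k,.k,.k,(.r 0 ⟨0,[(48,0),(6,0)]⟩ ⟨2,[(17,0),(11,0),(0,0)]⟩),.k,.k,⟨true,0,⟨0,[]⟩,⟨2,[(7,0),(18,
  0),(9,0)]⟩⟩,⟨false,0,⟨0,[(30,0)]⟩,⟨2,[(0,0),(0,0),(15,0),(11,0)]⟩⟩,⟨false,1,⟨2,[(17,0),(11,0),(0,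
  0)]⟩,⟨0,[(18,0),(30,0),(3,0)]⟩⟩,⟨true,0,⟨0,[(30,0),(19,0)]⟩,⟨0,[(0,0)]⟩⟩,⟨true,0,⟨0,[(49,0)]⟩,⟨0,
  [(54,0)]⟩⟩,⟨false,0,⟨0,[(30,0)]⟩,⟨9,[(0,5),(15,1),(12,3),(11,0),(11,4)]⟩⟩,[]⟩) (.S ⟨1,0,[1],[0,0,
  0,0,1],[0,1],(⟨0,[(32,0)]⟩,⟨0,[(31,0)]⟩),⟨0,[(2,0)]⟩,.k,(.r (-1) ⟨2,[(17,0),(11,0),(0,0)]⟩ ⟨0,
  [(48,0),(6,0)]⟩),⟨true,0,⟨0,[(55,0)]⟩,⟨0,[]⟩⟩,⟨false,1,⟨1,[(29,0),(0,0),(22,0)]⟩,⟨0,[]⟩⟩,⟨false,0,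
  ⟨0,[(18,0),(30,1),(3,0)]⟩,⟨7,[(0,1),(6,0),(8,0),(0,0),(11,1),(7,0),(15,3)]⟩⟩,⟨true,0,⟨0,[(51,0)]⟩,
  ⟨0,[(50,0)]⟩⟩,[.a ⟨true,0,⟨0,[(30,0)]⟩,⟨11,[(1,2),(1,8),(7,0),(4,1),(11,0),(11,2)]⟩⟩ ⟨false,0,⟨0,
  [(49,0)]⟩,⟨1,[(29,0),(0,0),(22,0)]⟩⟩ ⟨true,0,⟨0,[]⟩,⟨2,[(7,0),(18,0),(9,0)]⟩⟩,.o ⟨false,1,⟨1,[(30,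
  1),(10,0),(11,0)]⟩,⟨3,[(1,0),(1,0),(0,1),(1,0),(1,0),(38,0)]⟩⟩,.e ⟨true,0,⟨0,[(55,0)]⟩,⟨0,[]⟩⟩
  ⟨true,0,⟨0,[]⟩,⟨0,[(55,0)]⟩⟩,.o ⟨false,0,⟨1,[(0,0),(17,0),(11,0),(16,0)]⟩,⟨5,[(1,2),(1,1),(13,1),
  (11,0),(11,0)]⟩⟩]⟩))) (.Q [-1,0,0,-1,0,0,0,0,-1,1,0,-1] (.p false [0,0,0,0,1] [1] (⟨0,[(30,0)]⟩,
  ⟨0,[(29,0)]⟩) .k 1 (⟨0,[]⟩,⟨0,[]⟩) .k .k) (.S ⟨1,0,[-1,1],[1,0,0,0,-1],[-1],(⟨0,[(30,0)]⟩,⟨0,[(31,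
  0)]⟩),⟨1,[(1,0),(8,0),(16,0),(2,0)]⟩,.k,(.r (-1) ⟨14,[(16,4),(11,2),(0,2),(22,1),(1,3)]⟩ ⟨0,[(47,
  0),(6,0)]⟩),⟨false,1,⟨1,[(28,0),(0,0),(22,0)]⟩,⟨0,[]⟩⟩,⟨true,0,⟨0,[(54,0)]⟩,⟨0,[]⟩⟩,⟨true,0,⟨0,
  [(50,0)]⟩,⟨0,[(49,0)]⟩⟩,⟨false,0,⟨0,[(50,0)]⟩,⟨9,[(6,1),(9,1),(2,1),(8,0),(0,0),(6,1),(15,4)]⟩⟩,
  [.o ⟨false,0,⟨0,[(0,0),(17,0)]⟩,⟨1,[(29,1),(10,0),(11,0)]⟩⟩,.e ⟨false,1,⟨0,[(48,0),(3,0)]⟩,⟨0,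
  [(54,0)]⟩⟩ ⟨false,1,⟨9,[(28,3),(0,3),(21,4),(0,0),(1,1)]⟩,⟨0,[]⟩⟩,.a ⟨true,0,⟨0,[(2,0)]⟩,⟨0,[(29,
  0)]⟩⟩ ⟨false,1,⟨4,[(28,1),(0,1),(22,2),(1,0)]⟩,⟨0,[]⟩⟩ ⟨true,0,⟨0,[(54,0)]⟩,⟨0,[]⟩⟩,.o ⟨false,0,
  ⟨1,[(0,0),(1,0),(14,0),(22,0)]⟩,⟨1,[(29,1),(10,0),(10,0)]⟩⟩]⟩) (.R ⟨0,false,false,false,[0,0,0,0,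
  1],[0,1],[0,1],(⟨0,[(31,0)]⟩,⟨0,[(30,0)]⟩),(⟨0,[(42,0)]⟩,⟨0,[(41,0)]⟩),⟨0,[(1,0)]⟩,.k,.k,(.r (-1)
  ⟨2,[(16,0),(11,0),(0,0)]⟩ ⟨0,[(47,0),(6,0)]⟩),(.r (-1) ⟨2,[(16,0),(11,0),(0,0)]⟩ ⟨0,[(47,0),(6,
  0)]⟩),.k,.k,⟨false,1,⟨11,[(16,3),(11,0),(0,0),(13,5),(7,2)]⟩,⟨0,[(47,0)]⟩⟩,⟨true,1,⟨1,[(2,1),(37,
  0),(10,0)]⟩,⟨14,[(0,8),(9,0),(4,7),(1,14),(9,0),(1,5),(9,2)]⟩⟩,⟨true,0,⟨0,[(54,0)]⟩,⟨0,[]⟩⟩,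
  ⟨false,1,⟨0,[(3,0),(48,0)]⟩,⟨1,[(0,0),(14,0),(13,0)]⟩⟩,⟨false,0,⟨0,[]⟩,⟨0,[]⟩⟩,⟨false,0,⟨0,[]⟩,⟨0,
  []⟩⟩,[.e ⟨false,0,⟨0,[(48,0)]⟩,⟨1,[(28,0),(0,0),(22,0)]⟩⟩ ⟨false,1,⟨1,[(3,1),(47,0),(0,0)]⟩,⟨14,
  [(0,8),(9,0),(4,7),(11,0),(1,5),(9,2)]⟩⟩,.o ⟨false,1,⟨1,[(40,0),(9,1),(1,0)]⟩,⟨0,[(49,0)]⟩⟩,.a
  ⟨true,0,⟨0,[(29,0)]⟩,⟨0,[(2,0)]⟩⟩ ⟨true,0,⟨0,[(54,0)]⟩,⟨0,[]⟩⟩ ⟨false,1,⟨0,[(3,0),(48,0)]⟩,⟨14,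
  [(0,8),(9,0),(4,7),(11,0),(1,5),(9,2)]⟩⟩,.o ⟨false,0,⟨4,[(0,0),(3,0),(1,0),(8,0),(1,1),(11,2),(16,
  1)]⟩,⟨1,[(2,1),(37,0),(10,0)]⟩⟩]⟩))) (.Q [0,0,0,0,0,-1,0,0,0,1,0,-1] (.ed true [0,1,0,0,1] .k)
  (.R ⟨1,false,false,false,[1,0,0,0,-1],[0,1],[-1],(⟨0,[(29,0)]⟩,⟨0,[(30,0)]⟩),(⟨0,[(41,0)]⟩,⟨0,
  [(40,0)]⟩),⟨0,[(0,0)]⟩,.k,.k,(.r (-1) ⟨14,[(15,4),(11,2),(0,2),(22,1),(1,3)]⟩ ⟨0,[(46,0),(6,0)]⟩),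
  (.r (-1) ⟨14,[(15,4),(11,2),(0,2),(22,1),(1,3)]⟩ ⟨0,[(46,0),(6,0)]⟩),(.r (-2) ⟨14,[(15,9),(11,8),
  (0,8),(22,0),(1,1)]⟩ ⟨0,[(16,0),(32,0)]⟩),.k,⟨true,1,⟨14,[(15,4),(11,2),(0,2),(22,1),(1,3)]⟩,⟨0,
  [(16,0)]⟩⟩,⟨false,1,⟨0,[(1,0),(48,0)]⟩,⟨3,[(2,1),(13,1),(1,1),(8,1),(16,0),(6,0)]⟩⟩,⟨false,1,⟨1,
  [(27,0),(0,0),(22,0)]⟩,⟨0,[]⟩⟩,⟨true,0,⟨0,[(1,0),(47,0)]⟩,⟨0,[(2,0),(15,0)]⟩⟩,⟨true,0,⟨0,[(49,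
  0)]⟩,⟨0,[(48,0)]⟩⟩,⟨true,0,⟨0,[(1,0),(47,1)]⟩,⟨0,[(2,0),(11,0)]⟩⟩,[.a ⟨true,0,⟨0,[(49,0)]⟩,⟨6,
  [(10,0),(7,2),(5,0),(9,0),(3,0),(1,0),(3,0)]⟩⟩ ⟨false,1,⟨9,[(27,3),(0,3),(21,4),(0,0),(1,1)]⟩,⟨0,
  []⟩⟩ ⟨true,0,⟨0,[(1,0),(47,0)]⟩,⟨7,[(2,5),(11,5),(1,3),(10,1),(16,0),(6,2)]⟩⟩,.o ⟨false,1,⟨1,[(39,
  0),(9,1),(1,0)]⟩,⟨0,[(48,0)]⟩⟩,.o ⟨false,1,⟨0,[(27,0)]⟩,⟨0,[(1,0)]⟩⟩,.e ⟨false,1,⟨0,[(47,0),(3,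
  0)]⟩,⟨2,[(5,0),(18,0),(9,0)]⟩⟩ ⟨false,1,⟨1,[(1,1),(47,1),(0,0),(0,0)]⟩,⟨7,[(2,5),(11,5),(1,3),(10,
  1),(16,0),(6,2)]⟩⟩]⟩) (.R ⟨0,false,false,false,[1,0,0,0,-1],[0,1],[-1],(⟨0,[(29,0)]⟩,⟨0,[(30,
  0)]⟩),(⟨0,[(41,0)]⟩,⟨0,[(40,0)]⟩),⟨0,[(0,0)]⟩,.k,.k,(.r (-1) ⟨14,[(15,4),(11,2),(0,2),(22,1),(1,
  3)]⟩ ⟨0,[(46,0),(6,0)]⟩),(.r (-1) ⟨14,[(15,4),(11,2),(0,2),(22,1),(1,3)]⟩ ⟨0,[(46,0),(6,0)]⟩),.k,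
  .k,⟨true,1,⟨14,[(15,4),(11,2),(0,2),(22,1),(1,3)]⟩,⟨0,[(16,0)]⟩⟩,⟨false,1,⟨0,[(1,0),(48,0)]⟩,⟨3,
  [(2,1),(13,1),(1,1),(8,1),(16,0),(6,0)]⟩⟩,⟨false,1,⟨1,[(27,0),(0,0),(22,0)]⟩,⟨0,[]⟩⟩,⟨true,0,⟨0,
  [(1,0),(47,0)]⟩,⟨0,[(2,0),(15,0)]⟩⟩,⟨false,0,⟨0,[]⟩,⟨0,[]⟩⟩,⟨false,0,⟨0,[]⟩,⟨0,[]⟩⟩,[.a ⟨true,0,
  ⟨0,[(49,0)]⟩,⟨6,[(10,0),(7,2),(5,0),(9,0),(3,0),(1,0),(3,0)]⟩⟩ ⟨false,1,⟨9,[(27,3),(0,3),(21,4),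
  (0,0),(1,1)]⟩,⟨0,[]⟩⟩ ⟨true,0,⟨0,[(1,0),(47,0)]⟩,⟨7,[(2,5),(11,5),(1,3),(10,1),(16,0),(6,2)]⟩⟩,.o
  ⟨false,1,⟨1,[(39,0),(9,1),(1,0)]⟩,⟨0,[(48,0)]⟩⟩,.o ⟨false,1,⟨0,[(27,0)]⟩,⟨0,[(1,0)]⟩⟩,.e ⟨false,1,
  ⟨0,[(47,0),(3,0)]⟩,⟨2,[(5,0),(18,0),(9,0)]⟩⟩ ⟨false,1,⟨1,[(1,1),(47,1),(0,0),(0,0)]⟩,⟨7,[(2,5),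
  (11,5),(1,3),(10,1),(16,0),(6,2)]⟩⟩]⟩)))))))))))

theorem ok23 : chk K t23 l21 = true := by decide +kernel

noncomputable def t24 : Tre :=
  (.R ⟨1,false,false,false,[0,0,1],[0,1],[],(⟨0,[(28,0)]⟩,⟨0,[(27,0)]⟩),(⟨0,[(32,0)]⟩,⟨0,[(31,0)]⟩),
  ⟨0,[(17,0)]⟩,.k,.k,.k,.k,(.x 0 ⟨5,[(10,2),(7,0),(0,0),(5,5),(1,5),(2,1),(3,1)]⟩ ⟨7,[(1,5),(4,1),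
  (9,3),(0,11),(4,1),(7,2),(10,6)]⟩),.k,⟨true,1,⟨2,[(6,0),(11,0),(0,0)]⟩,⟨0,[(7,0)]⟩⟩,⟨false,1,⟨1,
  [(22,1),(7,0),(10,0)]⟩,⟨0,[(25,0)]⟩⟩,⟨false,1,⟨1,[(13,1),(27,0),(0,0)]⟩,⟨0,[(4,0)]⟩⟩,⟨true,0,⟨1,
  [(0,0),(23,0)]⟩,⟨0,[(11,0)]⟩⟩,⟨false,1,⟨3,[(0,1),(12,1),(4,0),(0,0),(5,1),(15,1),(0,0)]⟩,⟨0,[(2,
  0)]⟩⟩,⟨false,0,⟨0,[(0,0)]⟩,⟨17,[(5,1),(0,3),(4,17),(13,5),(0,5),(3,0),(11,8)]⟩⟩,[.e ⟨false,1,⟨1,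
  [(18,0),(0,0),(21,0)]⟩,⟨0,[]⟩⟩ ⟨false,0,⟨0,[(1,0),(39,0)]⟩,⟨2,[(6,0),(11,0),(0,0),(5,2)]⟩⟩,.o
  ⟨false,1,⟨1,[(30,0),(9,1),(1,0)]⟩,⟨0,[(39,0)]⟩⟩,.o ⟨false,1,⟨1,[(25,1),(4,0),(10,0)]⟩,⟨0,[(14,
  0)]⟩⟩,.a ⟨true,0,⟨0,[(25,0)]⟩,⟨0,[(22,0)]⟩⟩ ⟨false,1,⟨1,[(41,0),(0,0)]⟩,⟨1,[(25,0),(0,0)]⟩⟩ ⟨true,
  0,⟨0,[(1,0),(39,0)]⟩,⟨0,[(25,0),(13,0)]⟩⟩]⟩)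

theorem ok24 : chk K t24 l22 = true := by decide +kernel

noncomputable def t25 : Tre :=
  (.R ⟨2,true,false,true,[0,1],[0,1,1],[0,0,1,1],(⟨0,[]⟩,⟨0,[]⟩),(⟨22,[(19,2),(0,2),(8,22),(0,4),(4,
  5),(0,2)]⟩,⟨0,[(17,0)]⟩),⟨0,[]⟩,.k,.k,.k,.k,.k,.k,⟨true,1,⟨1,[(14,1),(27,0),(0,0)]⟩,⟨1,[(1,0),(0,
  1),(21,0)]⟩⟩,⟨false,1,⟨0,[(26,0),(15,0)]⟩,⟨0,[(15,0)]⟩⟩,⟨false,1,⟨1,[(19,0),(0,0),(22,0)]⟩,⟨0,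
  []⟩⟩,⟨true,0,⟨0,[(24,0)]⟩,⟨0,[(4,0)]⟩⟩,⟨true,0,⟨0,[(41,0)]⟩,⟨0,[(40,0)]⟩⟩,⟨false,0,⟨0,[(0,0)]⟩,⟨5,
  [(4,1),(1,1),(18,3),(5,0),(11,4)]⟩⟩,[]⟩)

theorem ok25 : chk K t25 l23 = true := by decide +kernel

noncomputable def t26 : Tre :=
  (.R ⟨0,false,false,false,[1,-1,-1],[1,-1],[1,0,1],(⟨0,[(19,0)]⟩,⟨4,[(0,1),(20,0),(0,0),(8,2),(0,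
  0),(5,0)]⟩),(⟨0,[(34,0)]⟩,⟨0,[(35,0)]⟩),⟨0,[(0,0)]⟩,.k,.k,(.r (-2) ⟨5,[(9,3),(6,5),(4,0),(0,0),
  (21,2)]⟩ ⟨0,[(7,0),(2,0),(32,0)]⟩),.k,.k,.k,⟨true,(-1),⟨0,[(10,0)]⟩,⟨2,[(9,0),(11,0),(0,0)]⟩⟩,
  ⟨false,1,⟨0,[(28,0),(15,0)]⟩,⟨0,[(17,0)]⟩⟩,⟨true,(-1),⟨0,[(7,0),(2,0)]⟩,⟨0,[(2,0),(25,0),(12,0),
  (2,0)]⟩⟩,⟨false,1,⟨0,[(26,0),(18,0)]⟩,⟨0,[(6,0)]⟩⟩,⟨false,0,⟨0,[]⟩,⟨0,[]⟩⟩,⟨false,0,⟨0,[]⟩,⟨0,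
  []⟩⟩,[.e ⟨false,0,⟨0,[]⟩,⟨1,[(21,0),(0,0),(21,0)]⟩⟩ ⟨false,2,⟨2,[(9,0),(11,0),(0,0),(5,2),(15,
  2)]⟩,⟨0,[(4,0)]⟩⟩,.o ⟨false,1,⟨17,[(8,1),(0,3),(18,5),(0,5),(3,0),(11,8)]⟩,⟨0,[(11,0)]⟩⟩,.a ⟨true,
  (-1),⟨10,[(4,6),(3,2),(1,1),(7,1),(13,1),(1,1),(3,1)]⟩,⟨0,[(28,0),(15,0)]⟩⟩ ⟨true,0,⟨1,[(28,0),(0,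
  0)]⟩,⟨0,[(41,0)]⟩⟩ ⟨false,2,⟨5,[(9,1),(11,1),(0,1),(5,5),(15,2),(0,2)]⟩,⟨0,[(4,0)]⟩⟩,.o ⟨false,
  (-1),⟨9,[(4,6),(3,3),(1,4),(18,2),(3,1)]⟩,⟨1,[(28,1),(4,0),(10,2)]⟩⟩]⟩)

theorem ok26 : chk K t26 l25 = true := by decide +kernel

noncomputable def t27 : Tre :=
  (.R ⟨1,true,false,false,[1,0,-1],[0,1],[0,0,0,0,0,0,0,-1],(⟨0,[(31,0)]⟩,⟨0,[(32,0)]⟩),(⟨0,[(36,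
  0)]⟩,⟨0,[(35,0)]⟩),⟨0,[(20,0)]⟩,.k,.k,.k,.k,(.r (-2) ⟨5,[(10,3),(6,5),(4,0),(0,0),(21,2)]⟩ ⟨16,
  [(0,5),(4,7),(2,4),(2,12),(7,1),(7,5),(11,1),(4,0)]⟩),.k,⟨true,1,⟨0,[(3,0),(25,0),(15,0)]⟩,⟨0,[(8,
  0),(2,0)]⟩⟩,⟨false,2,⟨1,[(29,1),(4,0),(10,2)]⟩,⟨26,[(1,1),(3,14),(3,6),(1,5),(7,5),(1,1),(11,5),
  (5,5)]⟩⟩,⟨false,1,⟨1,[(22,0),(0,0),(22,0)]⟩,⟨0,[]⟩⟩,⟨true,1,⟨3,[(0,1),(21,0),(0,0),(3,1),(6,0)]⟩,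
  ⟨0,[(2,0)]⟩⟩,⟨true,0,⟨0,[(44,0)]⟩,⟨0,[(43,0)]⟩⟩,⟨false,1,⟨0,[(0,0)]⟩,⟨11,[(2,1),(0,5),(9,7),(14,
  3),(10,0),(6,2)]⟩⟩,[]⟩)

theorem ok27 : chk K t27 l26 = true := by decide +kernel

noncomputable def t28 : Tre :=
  (.R ⟨0,false,false,true,[0,-1,1],[1,-1],[0,1,0,-1],(⟨0,[(22,0)]⟩,⟨22,[(23,2),(0,2),(7,22),(1,4),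
  (4,5),(0,2)]⟩),(⟨0,[(36,0)]⟩,⟨0,[(37,0)]⟩),⟨2,[(2,1),(29,0),(1,0),(4,2)]⟩,.k,.k,(.r (-1) ⟨1,[(0,
  1),(4,1),(29,0),(11,0)]⟩ ⟨0,[(29,0),(0,0),(11,0),(2,0)]⟩),.k,.k,.k,⟨true,0,⟨1,[(30,0),(0,0)]⟩,⟨0,
  []⟩⟩,⟨false,0,⟨0,[(27,0)]⟩,⟨1,[(30,1),(4,0),(10,0)]⟩⟩,⟨false,0,⟨1,[(1,1),(4,3),(23,5),(10,0),(1,
  7),(3,4)]⟩,⟨1,[(9,1),(36,0),(0,0)]⟩⟩,⟨true,(-1),⟨0,[(3,0),(41,0)]⟩,⟨1,[(28,1),(6,0),(11,0)]⟩⟩,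
  ⟨false,0,⟨0,[]⟩,⟨0,[]⟩⟩,⟨false,0,⟨0,[]⟩,⟨0,[]⟩⟩,[.o ⟨false,0,⟨0,[(44,0)]⟩,⟨1,[(35,0),(9,1),(1,
  0)]⟩⟩,.a ⟨true,0,⟨5,[(14,2),(8,0),(0,0),(9,0),(1,0),(3,0)]⟩,⟨0,[(45,0)]⟩⟩ ⟨false,1,⟨2,[(11,0),(11,
  0),(0,0)]⟩,⟨0,[(45,0)]⟩⟩ ⟨true,0,⟨13,[(0,6),(3,0),(2,0),(2,3),(9,2)]⟩,⟨2,[(12,0),(0,0),(16,2),(4,
  0),(6,0)]⟩⟩,.a ⟨true,0,⟨0,[(30,0)]⟩,⟨0,[(27,0)]⟩⟩ ⟨true,0,⟨0,[(44,0)]⟩,⟨0,[(45,0)]⟩⟩ ⟨false,0,⟨13,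
  [(0,6),(3,0),(2,0),(2,3),(9,2)]⟩,⟨1,[(30,1),(4,0),(9,1),(1,0)]⟩⟩,.a ⟨true,0,⟨1,[(30,2),(0,0)]⟩,⟨0,
  [(0,0)]⟩⟩ ⟨false,1,⟨2,[(11,0),(11,0),(0,0)]⟩,⟨0,[(42,0)]⟩⟩ ⟨true,0,⟨22,[(0,15),(0,3),(3,2),(1,0),
  (9,3),(2,2),(17,5)]⟩,⟨2,[(12,0),(0,0),(16,2),(4,0),(6,0)]⟩⟩]⟩)

theorem ok28 : chk K t28 l27 = true := by decide +kernel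

noncomputable def t29 : Tre :=
  (.Q [0,0,0,0,1,0,2,2,0,-1,2] (.p true [0,0,1] [1,0,-1] (⟨0,[(34,0)]⟩,⟨0,[(33,0)]⟩) .k 2 (⟨0,[(33,
  0)]⟩,⟨0,[(34,0)]⟩) .k (.r 0 ⟨0,[(10,1)]⟩ ⟨2,[(0,1),(18,1),(4,0),(0,0),(20,1)]⟩)) (.R ⟨1,true,
  false,false,[0,0,1],[1,0,-1],[0,1,0,0,0,0,0,1],(⟨0,[(35,0)]⟩,⟨0,[(34,0)]⟩),(⟨0,[(34,0)]⟩,⟨0,[(35,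
  0)]⟩),⟨0,[(24,0)]⟩,.k,.k,.k,.k,(.r (-1) ⟨2,[(0,0),(10,3),(1,0),(8,0)]⟩ ⟨0,[(1,0),(12,0),(32,0)]⟩),
  .k,⟨false,0,⟨0,[(11,1),(33,0)]⟩,⟨0,[(1,0),(42,0)]⟩⟩,⟨true,(-1),⟨9,[(3,1),(4,11),(0,1),(3,1),(15,
  5),(12,0),(6,0)]⟩,⟨3,[(0,1),(0,1),(0,0),(12,0),(16,2),(11,0)]⟩⟩,⟨true,0,⟨0,[(51,0)]⟩,⟨0,[]⟩⟩,
  ⟨false,0,⟨8,[(1,3),(3,0),(2,4),(1,8),(11,0),(6,0),(12,2),(6,4)]⟩,⟨0,[(0,0)]⟩⟩,⟨false,0,⟨0,[(47,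
  0)]⟩,⟨23,[(0,0),(0,0),(0,7),(10,4),(2,3),(5,4),(26,11)]⟩⟩,⟨true,(-1),⟨1,[(1,1),(6,3),(33,0),(5,
  0)]⟩,⟨0,[(0,0),(45,0)]⟩⟩,[]⟩) (.Q [0,0,0,1,1,0,2,2,0,-1,2] (.p true [0,0,1] [1,0,-1] (⟨0,[(35,
  0)]⟩,⟨0,[(34,0)]⟩) .k 2 (⟨0,[(34,0)]⟩,⟨0,[(35,0)]⟩) .k (.r 0 ⟨0,[(11,1)]⟩ ⟨2,[(1,1),(18,1),(4,0),
  (0,0),(20,1)]⟩)) (.R ⟨1,true,false,false,[0,0,1],[1,-1,-1],[1,1,0,-1,0,0,0,1],(⟨0,[(36,0)]⟩,⟨0,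
  [(35,0)]⟩),(⟨0,[(24,0)]⟩,⟨23,[(0,1),(1,1),(15,0),(4,1),(12,23),(0,3),(4,5),(0,2)]⟩),⟨0,[(25,0)]⟩,
  .k,.k,.k,(.r 0 ⟨1,[(0,0),(11,1),(2,0),(7,0)]⟩ ⟨0,[(2,0)]⟩),.k,.k,⟨true,(-1),⟨1,[(8,0),(0,1),(2,1),
  (18,0)]⟩,⟨0,[(2,0),(42,0)]⟩⟩,⟨false,(-1),⟨2,[(1,0),(7,1),(0,1),(19,1)]⟩,⟨0,[(0,0),(1,0)]⟩⟩,⟨true,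
  0,⟨0,[(47,0)]⟩,⟨0,[(48,0)]⟩⟩,⟨false,0,⟨45,[(1,28),(0,5),(4,15),(5,7),(7,5),(1,8),(26,22)]⟩,⟨0,[(0,
  0)]⟩⟩,⟨false,0,⟨0,[]⟩,⟨11,[(0,2),(1,2),(0,0),(19,3),(9,0),(16,5)]⟩⟩,⟨true,(-1),⟨0,[(1,0)]⟩,⟨0,[(0,
  0),(46,0)]⟩⟩,[]⟩) (.Q [0,0,0,2,1,0,2,2,0,-1,2] (.p true [0,0,1] [1,0,-1] (⟨0,[(36,0)]⟩,⟨0,[(35,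
  0)]⟩) .k 2 (⟨0,[(35,0)]⟩,⟨0,[(36,0)]⟩) .k (.r 0 ⟨0,[(12,1)]⟩ ⟨2,[(2,1),(18,1),(4,0),(0,0),(20,
  1)]⟩)) (.R ⟨1,true,false,false,[1,0,-1],[0,1,1],[0,1,0,0,0,0,0,-1],(⟨0,[(36,0)]⟩,⟨0,[(37,0)]⟩),
  (⟨81,[(0,5),(2,5),(14,2),(0,2),(4,5),(12,81),(0,12),(4,20),(0,8)]⟩,⟨0,[(25,0)]⟩),⟨0,[(25,0)]⟩,.k,
  .k,.k,(.r (-1) ⟨0,[(3,0)]⟩ ⟨1,[(0,0),(10,0),(1,0),(2,0),(7,0)]⟩),(.r (-2) ⟨2,[(3,2),(11,0),(11,0),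
  (0,0)]⟩ ⟨7,[(0,2),(9,3),(2,9),(2,5),(7,0),(19,0)]⟩),.k,⟨false,1,⟨0,[(3,0),(43,0)]⟩,⟨0,[(13,1),(32,
  0)]⟩⟩,⟨true,2,⟨1,[(34,3),(4,0),(10,2)]⟩,⟨18,[(1,2),(8,27),(2,5),(0,9),(1,4),(7,1),(19,1)]⟩⟩,⟨true,
  0,⟨0,[(53,0)]⟩,⟨0,[]⟩⟩,⟨false,2,⟨17,[(0,17),(3,5),(10,3),(2,2),(5,2),(2,0),(0,0),(22,8)]⟩,⟨0,[(1,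
  0)]⟩⟩,⟨false,0,⟨0,[(49,0)]⟩,⟨17,[(4,5),(10,3),(2,2),(5,2),(2,0),(0,0),(22,8)]⟩⟩,⟨true,1,⟨0,[(0,
  0)]⟩,⟨2,[(1,0),(3,1),(2,0),(24,0)]⟩⟩,[]⟩) (.I [2,0,2,2,-1,0,0,-1] (.I [0,0,-2,-2,1,0,0,1] (.I [0,
  0,2,0,-1,2,1,0,-1] (.N [0,-2,1,0,-1] (-1) ⟨0,[(1,0)]⟩ ⟨0,[(2,0)]⟩ (.x 1 ⟨0,[(0,0)]⟩ ⟨11,[(9,3),
  (17,5),(1,15),(0,0),(0,12),(0,11),(9,10),(10,11)]⟩)) (.I [0,0,2,0,0,2,1,0,-1] (.I [0,0,-2,0,1,-2,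
  -1,0,1] (.N [0,-2,1,0,-1] (-1) ⟨0,[(3,0)]⟩ ⟨0,[(4,0)]⟩ (.x 0 ⟨0,[(1,0)]⟩ ⟨0,[(0,0)]⟩)) (.Q [0,0,1,
  0,0,0,0,0,1,-1,0,1] (.p true [0,0,0,0,1] [1] (⟨0,[(35,0)]⟩,⟨0,[(34,0)]⟩) .k 1 (⟨0,[]⟩,⟨0,[]⟩) .k
  .k) (.S ⟨1,0,[1],[0,0,0,0,1],[0,1],(⟨0,[(36,0)]⟩,⟨0,[(35,0)]⟩),⟨12,[(1,7),(2,1),(1,0),(5,6),(3,5),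
  (15,14),(1,7),(1,4),(8,3),(10,8)]⟩,.k,(.r (-1) ⟨2,[(21,0),(11,0),(0,0)]⟩ ⟨14,[(0,0),(4,1),(24,0),
  (2,1),(0,0),(3,1),(13,9),(2,0),(3,7)]⟩),⟨true,0,⟨0,[(59,0)]⟩,⟨0,[]⟩⟩,⟨false,1,⟨1,[(33,0),(0,0),
  (22,0)]⟩,⟨0,[]⟩⟩,⟨false,0,⟨0,[(5,0),(9,0),(0,0),(36,2),(3,1)]⟩,⟨11,[(0,1),(9,1),(10,1),(2,2),(5,
  0),(2,1),(23,5)]⟩⟩,⟨true,0,⟨0,[(55,0)]⟩,⟨0,[(54,0)]⟩⟩,[.a ⟨true,0,⟨0,[(34,0)]⟩,⟨29,[(1,19),(2,5),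
  (2,1),(0,0),(3,6),(3,13),(15,26),(0,9),(1,19),(8,0),(11,20)]⟩⟩ ⟨false,0,⟨0,[(53,0)]⟩,⟨1,[(33,0),
  (0,0),(22,0)]⟩⟩ ⟨true,0,⟨0,[]⟩,⟨2,[(10,0),(19,0),(9,0)]⟩⟩,.o ⟨false,1,⟨1,[(34,1),(10,0),(11,0)]⟩,
  ⟨73,[(1,47),(2,11),(1,5),(5,15),(3,35),(15,63),(0,25),(1,47),(9,34),(7,73),(2,16)]⟩⟩,.e ⟨true,0,
  ⟨0,[(59,0)]⟩,⟨0,[]⟩⟩ ⟨true,0,⟨0,[]⟩,⟨0,[(59,0)]⟩⟩,.o ⟨false,0,⟨0,[(0,0)]⟩,⟨73,[(1,47),(2,11),(1,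
  5),(5,15),(3,35),(15,63),(0,25),(1,47),(9,34),(10,90)]⟩⟩]⟩) (.S ⟨1,0,[1],[0,0,0,0,1],[1,1],(⟨0,
  [(36,0)]⟩,⟨0,[(35,0)]⟩),⟨12,[(1,7),(2,1),(1,0),(5,6),(3,5),(15,14),(1,7),(1,4),(8,3),(10,8)]⟩,.k,
  (.r (-1) ⟨2,[(21,0),(11,0),(0,0)]⟩ ⟨42,[(5,4),(4,0),(12,1),(6,2),(2,4),(0,4),(3,4),(13,30),(6,
  23)]⟩),⟨true,0,⟨0,[(59,0)]⟩,⟨0,[]⟩⟩,⟨false,1,⟨1,[(33,0),(0,0),(22,0)]⟩,⟨0,[]⟩⟩,⟨false,0,⟨0,[(55,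
  0)]⟩,⟨17,[(10,5),(10,3),(2,2),(5,2),(2,0),(0,0),(22,8)]⟩⟩,⟨true,0,⟨0,[(55,0)]⟩,⟨0,[(54,0)]⟩⟩,[.a
  ⟨true,0,⟨0,[(34,0)]⟩,⟨45,[(0,37),(1,1),(19,5),(1,2),(5,0),(1,1),(0,5),(1,1),(10,1),(11,21)]⟩⟩
  ⟨false,0,⟨0,[(53,0)]⟩,⟨1,[(33,0),(0,0),(22,0)]⟩⟩ ⟨true,0,⟨0,[]⟩,⟨2,[(10,0),(19,0),(9,0)]⟩⟩,.o
  ⟨false,1,⟨1,[(34,1),(10,0),(11,0)]⟩,⟨6,[(0,5),(21,2),(0,1),(9,0),(17,1),(2,4)]⟩⟩,.a ⟨true,0,⟨0,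
  [(34,0)]⟩,⟨85,[(0,55),(1,5),(19,21),(1,10),(5,2),(1,5),(0,23),(1,5),(10,5),(3,1)]⟩⟩ ⟨false,0,⟨0,
  []⟩,⟨1,[(33,0),(0,0),(22,0)]⟩⟩ ⟨true,0,⟨0,[]⟩,⟨0,[(59,0)]⟩⟩,.a ⟨true,0,⟨2,[(10,0),(19,0),(3,2),(5,
  0)]⟩,⟨0,[(0,0)]⟩⟩ ⟨true,0,⟨0,[(53,0)]⟩,⟨2,[(10,0),(19,0),(9,0)]⟩⟩ ⟨false,1,⟨1,[(56,0),(0,0)]⟩,⟨2,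
  [(10,0),(19,0),(9,0)]⟩⟩]⟩))) (.I [0,0,-2,0,0,-2,-1,0,1] (.N [0,-2,1,0,-1] (-1) ⟨0,[(3,0)]⟩ ⟨0,[(4,
  0)]⟩ (.x (-1) ⟨24,[(9,12),(14,5),(7,30),(0,5),(1,24),(3,11),(1,24),(1,1),(4,11)]⟩ ⟨0,[(0,0)]⟩))
  (.Q [0,0,0,0,0,-1,0,0,0,1,0,-1] (.ed true [0,1,0,0,1] .k) (.Q [1,-1,0,2,0,0,0,0,1,-1,0,1] (.p
  true [0,0,0,0,1] [1] (⟨0,[(36,0)]⟩,⟨0,[(35,0)]⟩) .k 1 (⟨0,[]⟩,⟨0,[]⟩) .k .k) (.Q [0,0,1,0,0,0,0,0,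
  -1,1,0,-1] (.p false [0,0,0,0,1] [1] (⟨0,[(37,0)]⟩,⟨0,[(36,0)]⟩) .k 1 (⟨0,[]⟩,⟨0,[]⟩) .k .k) (.R
  ⟨1,false,false,false,[1,0,0,0,-1],[1,-1],[1,1,1],(⟨0,[(37,0)]⟩,⟨0,[(38,0)]⟩),(⟨0,[(48,0)]⟩,⟨0,
  [(49,0)]⟩),⟨0,[(2,0)]⟩,.k,.k,(.r (-1) ⟨14,[(23,4),(11,2),(0,2),(22,1),(1,3)]⟩ ⟨9,[(1,0),(5,2),(4,
  0),(19,1),(2,2),(0,1),(3,2),(13,1)]⟩),(.r 0 ⟨12,[(1,0),(5,1),(24,0),(2,1),(0,0),(3,1),(13,6),(5,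
  1),(0,5)]⟩ ⟨2,[(23,0),(11,0),(0,0)]⟩),.k,.k,⟨false,(-1),⟨0,[(24,0),(30,0)]⟩,⟨5,[(23,1),(11,1),(0,
  1),(21,2),(0,2)]⟩⟩,⟨true,(-1),⟨60,[(1,47),(2,4),(8,23),(0,4),(2,23),(4,10),(1,32),(11,7),(1,4),(3,
  4),(3,19),(5,3)]⟩,⟨0,[(35,0)]⟩⟩,⟨false,0,⟨4,[(0,0),(11,1),(19,0),(3,0)]⟩,⟨0,[(55,0),(3,0)]⟩⟩,
  ⟨false,0,⟨0,[(1,0),(20,0)]⟩,⟨0,[(35,0),(21,0)]⟩⟩,⟨true,(-1),⟨0,[(24,0),(30,0)]⟩,⟨14,[(23,4),(11,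
  2),(0,2),(22,1),(1,3)]⟩⟩,⟨false,0,⟨7,[(1,5),(20,3),(13,1),(15,0),(6,0)]⟩,⟨3,[(0,1),(34,1),(17,0),
  (1,1),(3,0)]⟩⟩,[.e ⟨false,0,⟨0,[(61,0)]⟩,⟨1,[(58,0),(0,0)]⟩⟩ ⟨false,0,⟨0,[(1,0),(20,0),(32,0)]⟩,
  ⟨0,[(35,0),(21,0)]⟩⟩,.o ⟨false,1,⟨17,[(12,5),(10,3),(2,2),(5,2),(2,0),(0,0),(22,8)]⟩,⟨0,[(25,
  0)]⟩⟩,.o ⟨false,1,⟨0,[(35,0)]⟩,⟨35,[(1,23),(2,0),(7,0),(0,11),(0,0),(2,11),(18,10),(1,0),(7,3),(6,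
  11)]⟩⟩,.a ⟨true,0,⟨0,[(0,0)]⟩,⟨57,[(1,42),(2,1),(6,0),(2,1),(2,1),(4,22),(0,3),(12,12),(1,1),(7,
  7),(5,8),(2,40)]⟩⟩ ⟨false,0,⟨0,[]⟩,⟨1,[(35,0),(0,0),(22,0)]⟩⟩ ⟨true,0,⟨0,[(1,0),(20,0),(32,0)]⟩,
  ⟨0,[(0,0),(24,0)]⟩⟩]⟩) (.R ⟨1,false,false,true,[0,0,0,0,1],[0,1],[0,1],(⟨0,[(38,0)]⟩,⟨0,[(37,
  0)]⟩),(⟨0,[(49,0)]⟩,⟨0,[(48,0)]⟩),⟨12,[(0,7),(2,7),(2,1),(1,0),(5,6),(3,5),(15,14),(3,4),(19,4)]⟩,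
  .k,.k,(.r (-1) ⟨2,[(23,0),(11,0),(0,0)]⟩ ⟨12,[(1,0),(5,1),(24,0),(2,1),(0,0),(3,1),(13,6),(5,1),
  (0,5)]⟩),(.r (-1) ⟨2,[(23,0),(11,0),(0,0)]⟩ ⟨12,[(1,0),(5,1),(24,0),(2,1),(0,0),(3,1),(13,6),(5,
  1),(0,5)]⟩),(.r (-2) ⟨2,[(23,1),(11,1),(0,1)]⟩ ⟨0,[(7,1),(9,1),(0,1),(36,3),(3,2)]⟩),.k,⟨true,1,
  ⟨2,[(23,0),(11,0),(0,0)]⟩,⟨0,[(24,0)]⟩⟩,⟨false,2,⟨0,[(35,0),(22,0)]⟩,⟨17,[(0,11),(13,0),(7,4),(1,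
  14),(9,0),(1,5),(9,2),(5,2)]⟩⟩,⟨true,0,⟨0,[(61,0)]⟩,⟨0,[]⟩⟩,⟨false,1,⟨0,[(35,0),(21,0)]⟩,⟨0,[(1,
  0),(20,0)]⟩⟩,⟨false,0,⟨0,[(7,0),(9,0),(0,0),(36,2),(3,1)]⟩,⟨17,[(12,5),(10,3),(2,2),(5,2),(2,0),
  (0,0),(22,8)]⟩⟩,⟨false,1,⟨0,[(35,0),(21,1)]⟩,⟨2,[(0,1),(0,0),(20,2),(1,0),(34,0)]⟩⟩,[.o ⟨false,0,
  ⟨0,[(25,0)]⟩,⟨17,[(12,5),(10,3),(2,2),(5,2),(2,0),(0,0),(22,8)]⟩⟩,.a ⟨true,0,⟨0,[(57,0)]⟩,⟨225,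
  [(3,17),(19,11),(2,94),(5,8),(3,17),(0,17),(7,17),(0,19),(1,55),(3,23)]⟩⟩ ⟨false,1,⟨1,[(35,0),(0,
  0),(21,0)]⟩,⟨0,[]⟩⟩ ⟨true,1,⟨0,[(35,0),(21,0)]⟩,⟨35,[(0,29),(13,0),(7,22),(1,32),(9,0),(1,5),(9,
  2),(5,2)]⟩⟩,.o ⟨false,0,⟨3,[(0,2),(11,0),(23,0),(6,0)]⟩,⟨0,[(35,0)]⟩⟩,.e ⟨true,0,⟨0,[(55,0)]⟩,⟨2,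
  [(12,0),(19,0),(9,0)]⟩⟩ ⟨true,1,⟨0,[(35,0),(19,0),(1,0)]⟩,⟨35,[(0,29),(13,0),(7,22),(1,32),(9,0),
  (1,5),(9,2),(5,2)]⟩⟩]⟩)) (.R ⟨1,false,false,false,[1,0,0,0,-1],[1,-1],[1,1,1],(⟨0,[(36,0)]⟩,⟨0,
  [(37,0)]⟩),(⟨0,[(47,0)]⟩,⟨0,[(48,0)]⟩),⟨0,[(1,0)]⟩,.k,.k,(.r (-1) ⟨14,[(22,4),(11,2),(0,2),(22,1),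
  (1,3)]⟩ ⟨10,[(6,2),(17,0),(6,0),(2,2),(0,2),(3,2),(2,0),(10,3)]⟩),(.r 0 ⟨42,[(6,4),(4,0),(12,1),
  (6,2),(2,4),(0,4),(3,4),(13,30),(6,23)]⟩ ⟨2,[(22,0),(11,0),(0,0)]⟩),.k,.k,⟨false,(-1),⟨0,[(23,0),
  (30,0)]⟩,⟨5,[(22,1),(11,1),(0,1),(21,2),(0,2)]⟩⟩,⟨true,(-1),⟨6,[(3,6),(3,0),(5,6),(2,1),(6,5),(2,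
  0),(10,6),(3,6),(3,1),(4,7),(7,0)]⟩,⟨0,[(34,0)]⟩⟩,⟨false,0,⟨2,[(11,0),(19,0),(9,0)]⟩,⟨0,[(54,0),
  (3,0)]⟩⟩,⟨false,0,⟨35,[(3,32),(3,7),(3,8),(1,32),(2,15),(6,11),(11,2),(1,32),(3,23),(8,43),(0,5),
  (6,25)]⟩,⟨0,[(34,0),(21,0)]⟩⟩,⟨true,(-1),⟨0,[(23,0),(30,0)]⟩,⟨14,[(22,4),(11,2),(0,2),(22,1),(1,
  3)]⟩⟩,⟨false,0,⟨71,[(3,56),(3,3),(3,8),(1,56),(2,7),(6,23),(11,14),(1,56),(3,47),(8,75),(0,11),(6,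
  39)]⟩,⟨7,[(0,1),(33,5),(17,0),(3,3),(1,0)]⟩⟩,[.e ⟨false,0,⟨0,[(60,0)]⟩,⟨1,[(57,0),(0,0)]⟩⟩ ⟨false,
  0,⟨2,[(3,2),(2,5),(0,0),(5,2),(2,7),(0,2),(19,2),(12,3),(3,11),(3,9)]⟩,⟨0,[(34,0),(21,0)]⟩⟩,.o
  ⟨false,1,⟨17,[(11,5),(10,3),(2,2),(5,2),(2,0),(0,0),(22,8)]⟩,⟨0,[(24,0)]⟩⟩,.o ⟨false,1,⟨0,[(34,
  0)]⟩,⟨5,[(3,4),(7,4),(1,4),(21,0),(1,4),(7,1),(4,5)]⟩⟩,.a ⟨true,0,⟨3,[(0,1),(22,0),(10,1),(16,0),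
  (1,1),(2,0)]⟩,⟨12,[(3,10),(9,10),(21,1),(1,10),(3,10),(3,4),(4,12),(0,0),(5,0)]⟩⟩ ⟨false,0,⟨0,[]⟩,
  ⟨1,[(34,0),(0,0),(22,0)]⟩⟩ ⟨true,0,⟨2,[(3,2),(2,5),(0,0),(5,2),(2,7),(0,2),(19,2),(12,3),(3,11),
  (3,9)]⟩,⟨20,[(0,5),(5,6),(10,6),(6,7),(9,14),(4,6),(11,0),(4,3)]⟩⟩]⟩)) (.R ⟨0,false,false,false,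
  [1,0,0,0,-1],[1,-1],[0,0,-1,-1],(⟨0,[(35,0)]⟩,⟨0,[(36,0)]⟩),(⟨0,[(46,0)]⟩,⟨0,[(47,0)]⟩),⟨0,[(0,
  0)]⟩,.k,.k,(.r (-1) ⟨14,[(21,4),(11,2),(0,2),(22,1),(1,3)]⟩ ⟨10,[(5,2),(17,0),(6,0),(2,2),(0,2),
  (3,2),(2,0),(10,3)]⟩),(.r 0 ⟨42,[(5,4),(4,0),(12,1),(6,2),(2,4),(0,4),(3,4),(13,30),(6,23)]⟩ ⟨2,
  [(21,0),(11,0),(0,0)]⟩),.k,.k,⟨false,1,⟨1,[(33,0),(0,0),(21,0)]⟩,⟨0,[]⟩⟩,⟨true,(-1),⟨25,[(0,19),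
  (1,19),(7,3),(1,19),(12,20),(8,5),(5,15),(8,5),(0,4)]⟩,⟨0,[(33,0)]⟩⟩,⟨true,1,⟨2,[(21,0),(11,0),(0,
  0)]⟩,⟨0,[(22,0),(30,0)]⟩⟩,⟨false,0,⟨155,[(0,95),(1,95),(3,25),(3,65),(1,95),(2,51),(9,14),(8,59),
  (5,29),(8,85),(0,62),(6,103)]⟩,⟨0,[(33,0),(21,0)]⟩⟩,⟨false,0,⟨0,[]⟩,⟨0,[]⟩⟩,⟨false,0,⟨0,[]⟩,⟨0,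
  []⟩⟩,[.a ⟨true,0,⟨225,[(1,17),(19,11),(2,94),(5,8),(3,17),(0,17),(7,17),(0,19),(1,55),(3,23)]⟩,⟨0,
  [(55,0)]⟩⟩ ⟨true,1,⟨2,[(21,0),(11,0),(0,0)]⟩,⟨0,[(22,0)]⟩⟩ ⟨false,0,⟨162,[(0,111),(1,111),(6,16),
  (2,111),(2,33),(4,25),(13,50),(5,77),(3,53),(4,93),(0,33),(6,16)]⟩,⟨0,[(33,0),(21,0)]⟩⟩,.o ⟨false,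
  1,⟨17,[(10,5),(10,3),(2,2),(5,2),(2,0),(0,0),(22,8)]⟩,⟨0,[(23,0)]⟩⟩,.o ⟨false,1,⟨0,[(33,0)]⟩,⟨18,
  [(0,9),(1,9),(7,9),(1,9),(21,8),(9,2),(4,8)]⟩⟩,.o ⟨false,1,⟨2,[(10,0),(19,0),(2,2),(6,0)]⟩,⟨0,[(0,
  0),(1,0),(2,0),(6,0),(2,0),(33,0),(3,0),(3,0)]⟩⟩]⟩))))) (.I [1,0,-2,-2,1,0,0,1] (.N [0,-2,1] (-1)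
  ⟨0,[(0,0)]⟩ ⟨0,[(1,0)]⟩ (.x 0 ⟨24,[(7,12),(14,5),(7,5),(0,5),(5,11),(1,24),(1,1),(4,11)]⟩ ⟨29,[(0,
  3),(4,1),(3,9),(3,7),(15,39),(4,17),(7,14),(10,20)]⟩)) (.I [0,0,2,0,-1,2,1,0,1] (.I [2,0,-2,-2,1,
  0,0,1] (.N [0,-2,1,0,1] (-1) ⟨0,[(0,0)]⟩ ⟨0,[(2,0)]⟩ (.x 1 ⟨0,[(1,0)]⟩ ⟨29,[(0,3),(6,1),(3,9),(3,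
  7),(15,39),(0,29),(2,29),(0,17),(7,14),(10,20)]⟩)) (.I [0,0,-2,0,2,-2,-1,0,-2] (.I [3,0,-2,-2,1,0,
  0,1] (.N [0,-2,1,0,2] (-1) ⟨0,[(0,0)]⟩ ⟨0,[(2,0)]⟩ (.x 1 ⟨63,[(0,11),(2,105),(4,5),(4,13),(3,29),
  (15,55),(1,21),(0,21),(9,20),(10,44)]⟩ ⟨0,[(1,0)]⟩)) (.Q [-1,0,0,-1,0,0,-1,-1,-1,1,-1,-1] (.p
  false [0,0,1] [1,0,0,0,-1] (⟨0,[(44,0)]⟩,⟨0,[(43,0)]⟩) .k 2 (⟨0,[(36,0)]⟩,⟨0,[(37,0)]⟩) .k (.r 0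
  ⟨0,[(20,0)]⟩ ⟨4,[(0,0),(9,1),(23,3),(0,3)]⟩)) (.Q [0,0,-1,0,1,0,1,0,1,-1,1,1] (.p true [0,0,1] [1,
  0,0,0,-1] (⟨0,[(45,0)]⟩,⟨0,[(44,0)]⟩) .k 2 (⟨0,[(37,0)]⟩,⟨0,[(38,0)]⟩) .k (.r 0 ⟨0,[(21,0)]⟩ ⟨4,
  [(1,0),(9,1),(23,3),(0,3)]⟩)) (.Q [0,0,0,0,0,-1,0,0,0,1,0,-1] (.ed true [0,1,0,0,1] .k) (.Q [1,0,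
  0,0,0,0,0,0,1,-1,0,1] (.p true [0,0,0,0,1] [1] (⟨0,[(40,0)]⟩,⟨0,[(39,0)]⟩) .k 1 (⟨0,[]⟩,⟨0,[]⟩)
  .k .k) (.Q [0,0,0,0,0,0,0,0,1,-1,0,1] (.p true [0,0,0,0,1] [1] (⟨0,[(41,0)]⟩,⟨0,[(40,0)]⟩) .k 1
  (⟨0,[]⟩,⟨0,[]⟩) .k .k) (.R ⟨1,false,false,true,[1,0,0,0,-1],[0,0,1],[1,1,1],(⟨0,[(41,0)]⟩,⟨0,[(42,
  0)]⟩),(⟨0,[(49,0)]⟩,⟨0,[(48,0)]⟩),⟨0,[(2,0)]⟩,.k,.k,(.r (-1) ⟨14,[(27,4),(11,2),(0,2),(22,1),(1,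
  3)]⟩ ⟨5,[(3,0),(6,1),(25,0),(2,0),(4,1),(2,0),(10,1)]⟩),.k,(.r (-1) ⟨29,[(15,14),(11,4),(11,2),(0,
  2),(22,1),(1,3)]⟩ ⟨4,[(25,1),(3,0),(6,0),(7,2),(2,0),(10,3)]⟩),.k,⟨true,0,⟨0,[(34,0)]⟩,⟨0,[(25,
  0)]⟩⟩,⟨false,1,⟨0,[(3,0)]⟩,⟨3,[(4,1),(17,1),(2,1),(13,1),(16,0),(5,0)]⟩⟩,⟨false,0,⟨2,[(16,0),(19,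
  0),(9,0)]⟩,⟨0,[(59,0),(3,0)]⟩⟩,⟨true,0,⟨0,[(0,0),(43,0)]⟩,⟨0,[(4,0),(56,0)]⟩⟩,⟨true,(-1),⟨0,[(28,
  0),(30,0)]⟩,⟨14,[(27,4),(11,2),(0,2),(22,1),(1,3)]⟩⟩,⟨true,0,⟨0,[(0,0),(43,0),(16,0)]⟩,⟨0,[(4,
  0)]⟩⟩,[.a ⟨true,0,⟨0,[(44,0)]⟩,⟨27,[(5,0),(4,0),(3,8),(0,3),(20,4),(19,6),(6,13)]⟩⟩ ⟨false,0,⟨0,
  [(65,0)]⟩,⟨1,[(62,0),(0,0)]⟩⟩ ⟨true,0,⟨0,[(0,0),(43,0)]⟩,⟨0,[(4,0),(53,0)]⟩⟩,.o ⟨false,1,⟨1,[(44,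
  1),(6,0),(11,0)]⟩,⟨0,[(24,0)]⟩⟩,.o ⟨false,1,⟨0,[(39,0)]⟩,⟨0,[(0,0)]⟩⟩,.e ⟨false,0,⟨0,[]⟩,⟨1,[(39,
  0),(0,0),(22,0)]⟩⟩ ⟨false,1,⟨0,[(3,0),(21,0)]⟩,⟨0,[(4,0),(53,0)]⟩⟩]⟩) (.S ⟨1,0,[-1],[1,0,0,0,-1],
  [0,1,0,-1],(⟨0,[(41,0)]⟩,⟨0,[(42,0)]⟩),⟨0,[(2,0)]⟩,.k,(.r (-1) ⟨14,[(27,4),(11,2),(0,2),(22,1),(1,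
  3)]⟩ ⟨5,[(3,0),(6,1),(25,0),(2,0),(4,1),(2,0),(10,1)]⟩),⟨true,0,⟨0,[(60,0)]⟩,⟨0,[(61,0)]⟩⟩,⟨false,
  1,⟨1,[(39,0),(0,0),(22,0)]⟩,⟨0,[]⟩⟩,⟨false,0,⟨0,[]⟩,⟨1,[(39,0),(0,0),(22,0)]⟩⟩,⟨true,0,⟨0,[(61,
  0)]⟩,⟨0,[(60,0)]⟩⟩,[.o ⟨false,1,⟨49,[(0,3),(1,3),(2,1),(0,1),(11,1),(2,1),(17,41),(10,11),(6,4),
  (5,0)]⟩,⟨0,[(1,0)]⟩⟩,.o ⟨false,1,⟨1,[(0,1),(56,0),(5,0)]⟩,⟨5,[(1,4),(14,0),(23,0),(6,0),(6,2)]⟩⟩,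
  .a ⟨true,0,⟨0,[(0,0)]⟩,⟨0,[(40,0)]⟩⟩ ⟨true,0,⟨0,[(60,0)]⟩,⟨0,[(61,0)]⟩⟩ ⟨false,1,⟨4,[(39,1),(0,1),
  (22,2),(1,0)]⟩,⟨0,[]⟩⟩,.e ⟨false,1,⟨7,[(3,1),(23,1),(2,0),(5,0),(2,1)]⟩,⟨0,[(58,0)]⟩⟩ ⟨false,1,⟨0,
  [(59,0),(3,0)]⟩,⟨2,[(16,0),(19,0),(9,0)]⟩⟩]⟩)) (.R ⟨2,true,false,false,[0,1],[1,0,0,0,-1],[0,1,1,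
  1],(⟨0,[]⟩,⟨0,[]⟩),(⟨0,[(40,0)]⟩,⟨0,[(41,0)]⟩),⟨0,[]⟩,.k,.k,.k,(.r 0 ⟨5,[(2,0),(6,1),(25,0),(2,0),
  (4,1),(2,0),(10,1)]⟩ ⟨14,[(26,4),(11,2),(0,2),(22,1),(1,3)]⟩),.k,.k,⟨true,(-1),⟨0,[(27,0),(30,
  0)]⟩,⟨47,[(2,1),(12,15),(10,9),(2,8),(5,8),(2,1),(23,23)]⟩⟩,⟨false,0,⟨0,[(0,0)]⟩,⟨0,[(2,0),(31,
  0)]⟩⟩,⟨true,0,⟨0,[(64,0)]⟩,⟨0,[]⟩⟩,⟨false,1,⟨1,[(0,0),(28,0),(8,0),(23,0)]⟩,⟨0,[(2,0),(18,0)]⟩⟩,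
  ⟨false,0,⟨0,[(60,0)]⟩,⟨47,[(2,1),(12,15),(10,9),(2,8),(5,8),(2,1),(23,23)]⟩⟩,⟨true,0,⟨0,[(0,0)]⟩,
  ⟨4,[(2,0),(13,0),(3,0),(0,0),(6,2),(10,3),(10,0)]⟩⟩,[]⟩)) (.R ⟨0,false,false,true,[1,0,0,0,-1],[0,
  0,1],[1,1,1],(⟨0,[(39,0)]⟩,⟨0,[(40,0)]⟩),(⟨0,[(47,0)]⟩,⟨0,[(46,0)]⟩),⟨0,[(0,0)]⟩,.k,.k,(.r (-1)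
  ⟨14,[(25,4),(11,2),(0,2),(22,1),(1,3)]⟩ ⟨5,[(1,0),(6,1),(25,0),(2,0),(4,1),(2,0),(10,1)]⟩),.k,.k,
  .k,⟨true,0,⟨0,[(32,0)]⟩,⟨0,[(23,0)]⟩⟩,⟨false,1,⟨0,[(1,0)]⟩,⟨3,[(2,1),(17,1),(2,1),(13,1),(16,0),
  (5,0)]⟩⟩,⟨false,0,⟨2,[(14,0),(19,0),(9,0)]⟩,⟨0,[(57,0),(3,0)]⟩⟩,⟨true,0,⟨1,[(1,1),(17,0),(0,1),
  (21,0)]⟩,⟨0,[(2,0),(56,0)]⟩⟩,⟨false,0,⟨0,[]⟩,⟨0,[]⟩⟩,⟨false,0,⟨0,[]⟩,⟨0,[]⟩⟩,[.a ⟨true,0,⟨0,[(42,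
  0)]⟩,⟨27,[(3,0),(4,0),(3,8),(0,3),(20,4),(19,6),(6,13)]⟩⟩ ⟨false,0,⟨0,[(63,0)]⟩,⟨1,[(60,0),(0,
  0)]⟩⟩ ⟨true,0,⟨1,[(1,1),(17,0),(0,1),(21,0)]⟩,⟨0,[(2,0),(53,0)]⟩⟩,.o ⟨false,1,⟨1,[(42,1),(6,0),
  (11,0)]⟩,⟨0,[(22,0)]⟩⟩,.o ⟨false,1,⟨0,[(37,0)]⟩,⟨11,[(0,5),(0,5),(4,5),(3,1),(5,3),(3,7),(0,3),
  (14,9),(12,2),(10,6)]⟩⟩,.e ⟨false,0,⟨0,[]⟩,⟨1,[(37,0),(0,0),(22,0)]⟩⟩ ⟨false,1,⟨0,[(1,0),(21,0)]⟩,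
  ⟨0,[(2,0),(53,0)]⟩⟩]⟩)) (.S ⟨1,0,[-1,1],[1,0,0,0,-1],[1,1,1],(⟨0,[(38,0)]⟩,⟨0,[(39,0)]⟩),⟨3,[(0,
  1),(4,1),(9,1),(19,3),(2,1),(9,0),(10,2)]⟩,.k,(.r (-1) ⟨14,[(24,4),(11,2),(0,2),(22,1),(1,3)]⟩
  ⟨10,[(7,2),(18,0),(6,0),(2,2),(0,2),(3,2),(2,0),(10,3)]⟩),⟨false,0,⟨2,[(13,0),(19,0),(9,0)]⟩,⟨0,
  [(56,0),(3,0)]⟩⟩,⟨true,0,⟨0,[(62,0)]⟩,⟨0,[]⟩⟩,⟨true,(-1),⟨0,[(25,0),(30,0)]⟩,⟨14,[(24,4),(11,2),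
  (0,2),(22,1),(1,3)]⟩⟩,⟨false,0,⟨0,[(58,0)]⟩,⟨17,[(13,5),(10,3),(2,2),(5,2),(2,0),(0,0),(22,8)]⟩⟩,
  [.o ⟨false,0,⟨1,[(0,1),(42,1),(4,0),(7,1),(2,0)]⟩,⟨1,[(37,1),(10,0),(11,0)]⟩⟩,.e ⟨false,0,⟨0,[]⟩,
  ⟨1,[(36,0),(0,0),(21,0)]⟩⟩ ⟨false,1,⟨9,[(36,3),(0,3),(21,4),(0,0),(1,1)]⟩,⟨0,[]⟩⟩,.a ⟨true,0,⟨0,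
  [(0,0),(42,0),(15,0)]⟩,⟨0,[(37,0)]⟩⟩ ⟨false,0,⟨2,[(13,0),(19,0),(9,0)]⟩,⟨1,[(59,0),(0,0)]⟩⟩ ⟨true,
  0,⟨0,[(62,0)]⟩,⟨0,[]⟩⟩,.o ⟨false,0,⟨1,[(0,1),(42,1),(4,0),(10,0)]⟩,⟨1,[(37,1),(10,0),(10,
  0)]⟩⟩]⟩)) (.Q [0,0,0,0,0,-1,0,0,0,0,0,1] (.ed false [1,-1,0,0,1] .k) (.R ⟨1,false,false,true,[0,0,
  0,0,1],[0,1],[0,1],(⟨0,[(39,0)]⟩,⟨0,[(38,0)]⟩),(⟨0,[(50,0)]⟩,⟨0,[(49,0)]⟩),⟨0,[(0,0)]⟩,.k,.k,(.r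
  (-1) ⟨2,[(24,0),(11,0),(0,0)]⟩ ⟨26,[(1,3),(0,8),(10,0),(19,4),(2,8),(0,4),(3,4),(13,4),(5,1)]⟩),
  (.r (-1) ⟨2,[(24,0),(11,0),(0,0)]⟩ ⟨26,[(1,3),(0,8),(10,0),(19,4),(2,8),(0,4),(3,4),(13,4),(5,
  1)]⟩),(.r (-2) ⟨2,[(24,1),(11,1),(0,1)]⟩ ⟨2,[(6,1),(12,0),(2,0),(18,0),(13,0)]⟩),.k,⟨true,1,⟨2,
  [(24,0),(11,0),(0,0)]⟩,⟨0,[(25,0)]⟩⟩,⟨false,2,⟨0,[(36,0),(22,0)]⟩,⟨54,[(1,46),(0,18),(6,14),(9,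
  16),(2,1),(0,23),(13,7),(15,3)]⟩⟩,⟨true,0,⟨0,[(62,0)]⟩,⟨0,[]⟩⟩,⟨false,1,⟨0,[(36,0),(21,0)]⟩,⟨17,
  [(1,15),(7,7),(13,5),(13,1),(15,0),(6,8)]⟩⟩,⟨false,0,⟨0,[(2,0),(15,0),(0,0),(36,2),(3,1)]⟩,⟨17,
  [(13,5),(10,3),(2,2),(5,2),(2,0),(0,0),(22,8)]⟩⟩,⟨false,1,⟨0,[(36,0),(21,1)]⟩,⟨2,[(1,2),(7,1),(8,
  0),(4,0),(36,1)]⟩⟩,[.o ⟨false,0,⟨0,[(26,0)]⟩,⟨17,[(13,5),(10,3),(2,2),(5,2),(2,0),(0,0),(22,8)]⟩⟩,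
  .a ⟨true,0,⟨0,[(58,0)]⟩,⟨97,[(3,5),(23,48),(5,2),(2,1),(0,13),(0,11),(4,11),(1,5),(1,11),(5,
  13)]⟩⟩ ⟨false,1,⟨1,[(36,0),(0,0),(21,0)]⟩,⟨0,[]⟩⟩ ⟨true,1,⟨0,[(36,0),(21,0)]⟩,⟨5,[(1,5),(0,1),(6,
  2),(10,1),(2,2),(1,0)]⟩⟩,.o ⟨false,0,⟨25,[(1,17),(7,8),(5,0),(19,0),(1,7),(9,2),(6,8)]⟩,⟨0,[(36,
  0)]⟩⟩,.e ⟨true,0,⟨0,[(56,0)]⟩,⟨2,[(13,0),(19,0),(9,0)]⟩⟩ ⟨true,1,⟨0,[(36,0),(19,0),(1,0)]⟩,⟨5,[(1,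
  5),(0,1),(6,2),(10,1),(2,2),(1,0)]⟩⟩]⟩) (.R ⟨0,false,false,true,[0,0,0,0,1],[0,1],[0,1],(⟨0,[(39,
  0)]⟩,⟨0,[(38,0)]⟩),(⟨0,[(50,0)]⟩,⟨0,[(49,0)]⟩),⟨0,[(0,0)]⟩,.k,.k,(.r (-1) ⟨2,[(24,0),(11,0),(0,
  0)]⟩ ⟨26,[(1,3),(0,8),(10,0),(19,4),(2,8),(0,4),(3,4),(13,4),(5,1)]⟩),(.r (-1) ⟨2,[(24,0),(11,0),
  (0,0)]⟩ ⟨26,[(1,3),(0,8),(10,0),(19,4),(2,8),(0,4),(3,4),(13,4),(5,1)]⟩),.k,.k,⟨true,1,⟨2,[(24,0),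
  (11,0),(0,0)]⟩,⟨0,[(25,0)]⟩⟩,⟨false,2,⟨0,[(36,0),(22,0)]⟩,⟨54,[(1,46),(0,18),(6,14),(9,16),(2,1),
  (0,23),(13,7),(15,3)]⟩⟩,⟨true,0,⟨0,[(62,0)]⟩,⟨0,[]⟩⟩,⟨false,1,⟨0,[(36,0),(21,0)]⟩,⟨17,[(1,15),(7,
  7),(13,5),(13,1),(15,0),(6,8)]⟩⟩,⟨false,0,⟨0,[]⟩,⟨0,[]⟩⟩,⟨false,0,⟨0,[]⟩,⟨0,[]⟩⟩,[.o ⟨false,0,⟨0,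
  [(26,0)]⟩,⟨17,[(13,5),(10,3),(2,2),(5,2),(2,0),(0,0),(22,8)]⟩⟩,.a ⟨true,0,⟨0,[(58,0)]⟩,⟨97,[(3,5),
  (23,48),(5,2),(2,1),(0,13),(0,11),(4,11),(1,5),(1,11),(5,13)]⟩⟩ ⟨false,1,⟨1,[(36,0),(0,0),(21,
  0)]⟩,⟨0,[]⟩⟩ ⟨true,1,⟨0,[(36,0),(21,0)]⟩,⟨5,[(1,5),(0,1),(6,2),(10,1),(2,2),(1,0)]⟩⟩,.o ⟨false,0,
  ⟨25,[(1,17),(7,8),(5,0),(19,0),(1,7),(9,2),(6,8)]⟩,⟨0,[(36,0)]⟩⟩,.e ⟨true,0,⟨0,[(56,0)]⟩,⟨2,[(13,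
  0),(19,0),(9,0)]⟩⟩ ⟨true,1,⟨0,[(36,0),(19,0),(1,0)]⟩,⟨5,[(1,5),(0,1),(6,2),(10,1),(2,2),(1,
  0)]⟩⟩]⟩)))) (.Q [0,0,0,0,0,1,0,0,0,0,0,-1] (.ed true [1,-1,0,0,1] .k) (.R ⟨0,false,false,true,[0,
  0,0,0,1],[0,1],[0,1],(⟨0,[(37,0)]⟩,⟨0,[(36,0)]⟩),(⟨0,[(48,0)]⟩,⟨0,[(47,0)]⟩),⟨0,[(0,0)]⟩,.k,.k,
  (.r (-1) ⟨2,[(22,0),(11,0),(0,0)]⟩ ⟨21,[(5,2),(18,0),(6,0),(2,2),(0,2),(3,2),(2,0),(10,14),(6,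
  10)]⟩),(.r (-1) ⟨2,[(22,0),(11,0),(0,0)]⟩ ⟨21,[(5,2),(18,0),(6,0),(2,2),(0,2),(3,2),(2,0),(10,14),
  (6,10)]⟩),.k,.k,⟨true,1,⟨2,[(22,0),(11,0),(0,0)]⟩,⟨0,[(23,0)]⟩⟩,⟨false,2,⟨0,[(34,0),(22,0)]⟩,⟨29,
  [(1,11),(5,1),(5,3),(3,7),(0,3),(14,15),(1,5),(1,23),(8,2),(10,0)]⟩⟩,⟨true,0,⟨0,[(60,0)]⟩,⟨0,[]⟩⟩,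
  ⟨false,1,⟨0,[(34,0),(21,0)]⟩,⟨101,[(1,47),(5,23),(5,15),(4,47),(3,1),(10,63),(1,5),(1,95),(8,19),
  (10,44),(0,50)]⟩⟩,⟨false,0,⟨0,[]⟩,⟨0,[]⟩⟩,⟨false,0,⟨0,[]⟩,⟨0,[]⟩⟩,[.o ⟨false,0,⟨0,[(24,0)]⟩,⟨17,
  [(11,5),(10,3),(2,2),(5,2),(2,0),(0,0),(22,8)]⟩⟩,.a ⟨true,0,⟨0,[(56,0)]⟩,⟨5,[(25,2),(8,0),(0,0),
  (9,0),(1,0),(3,0)]⟩⟩ ⟨false,1,⟨1,[(34,0),(0,0),(21,0)]⟩,⟨0,[]⟩⟩ ⟨true,1,⟨0,[(34,0),(21,0)]⟩,⟨31,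
  [(1,14),(5,7),(3,0),(1,4),(4,15),(14,19),(1,1),(1,29),(8,5)]⟩⟩,.o ⟨false,0,⟨14,[(1,5),(5,0),(5,1),
  (3,3),(0,1),(14,7),(1,2),(1,11),(8,8),(10,7)]⟩,⟨0,[(34,0)]⟩⟩,.e ⟨true,0,⟨0,[(54,0)]⟩,⟨2,[(11,0),
  (19,0),(9,0)]⟩⟩ ⟨true,1,⟨0,[(34,0),(19,0),(1,0)]⟩,⟨31,[(1,14),(5,7),(3,0),(1,4),(4,15),(14,19),(1,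
  1),(1,29),(8,5)]⟩⟩]⟩) (.R ⟨1,false,false,true,[0,0,0,0,1],[0,1],[0,1],(⟨0,[(37,0)]⟩,⟨0,[(36,0)]⟩),
  (⟨0,[(48,0)]⟩,⟨0,[(47,0)]⟩),⟨0,[(0,0)]⟩,.k,.k,(.r (-1) ⟨2,[(22,0),(11,0),(0,0)]⟩ ⟨21,[(5,2),(18,
  0),(6,0),(2,2),(0,2),(3,2),(2,0),(10,14),(6,10)]⟩),(.r (-1) ⟨2,[(22,0),(11,0),(0,0)]⟩ ⟨21,[(5,2),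
  (18,0),(6,0),(2,2),(0,2),(3,2),(2,0),(10,14),(6,10)]⟩),(.r (-2) ⟨2,[(22,1),(11,1),(0,1)]⟩ ⟨2,[(4,
  1),(12,0),(2,0),(18,0),(13,0)]⟩),.k,⟨true,1,⟨2,[(22,0),(11,0),(0,0)]⟩,⟨0,[(23,0)]⟩⟩,⟨false,2,⟨0,
  [(34,0),(22,0)]⟩,⟨17,[(0,11),(0,5),(5,0),(9,3),(0,1),(7,0),(6,4),(1,5),(8,0),(5,0)]⟩⟩,⟨true,0,⟨0,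
  [(60,0)]⟩,⟨0,[]⟩⟩,⟨false,1,⟨0,[(34,0),(21,0)]⟩,⟨125,[(0,95),(0,47),(5,23),(10,47),(3,9),(10,47),
  (1,29),(10,3),(3,15),(6,32),(0,62)]⟩⟩,⟨false,0,⟨0,[(2,0),(13,0),(0,0),(36,2),(3,1)]⟩,⟨17,[(11,5),
  (10,3),(2,2),(5,2),(2,0),(0,0),(22,8)]⟩⟩,⟨false,1,⟨0,[(34,0),(21,1)]⟩,⟨125,[(0,119),(0,59),(5,29),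
  (10,59),(2,3),(0,39),(10,59),(1,5),(10,6),(3,19),(7,62)]⟩⟩,[.o ⟨false,0,⟨0,[(24,0)]⟩,⟨17,[(11,5),
  (10,3),(2,2),(5,2),(2,0),(0,0),(22,8)]⟩⟩,.a ⟨true,0,⟨0,[(56,0)]⟩,⟨5,[(25,2),(8,0),(0,0),(9,0),(1,
  0),(3,0)]⟩⟩ ⟨false,1,⟨1,[(34,0),(0,0),(21,0)]⟩,⟨0,[]⟩⟩ ⟨true,1,⟨0,[(34,0),(21,0)]⟩,⟨29,[(0,23),(0,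
  11),(5,5),(10,11),(2,1),(4,2),(6,11),(1,5),(10,2),(3,1)]⟩⟩,.o ⟨false,0,⟨18,[(0,11),(0,5),(5,0),(9,
  3),(0,1),(14,5),(1,6),(10,8),(3,1),(6,7)]⟩,⟨0,[(34,0)]⟩⟩,.e ⟨true,0,⟨0,[(54,0)]⟩,⟨2,[(11,0),(19,
  0),(9,0)]⟩⟩ ⟨true,1,⟨0,[(34,0),(19,0),(1,0)]⟩,⟨29,[(0,23),(0,11),(5,5),(10,11),(2,1),(4,2),(6,11),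
  (1,5),(10,2),(3,1)]⟩⟩]⟩)))) (.I [-1,0,2,2,-1,0,0,-1] (.I [0,0,-2,0,0,-2,-1,0,-2] (.I [3,0,-2,-2,1,
  0,0,1] (.N [0,-2,1,0,2] (-1) ⟨0,[(0,0)]⟩ ⟨0,[(2,0)]⟩ (.x (-1) ⟨2,[(11,2),(22,0),(0,6),(0,5),(6,2),
  (6,1),(1,1)]⟩ ⟨0,[(1,0)]⟩)) (.R ⟨0,false,false,true,[1,0,0,0,-1],[0,1],[1,1,1],(⟨0,[(36,0)]⟩,⟨0,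
  [(37,0)]⟩),(⟨0,[(48,0)]⟩,⟨0,[(47,0)]⟩),⟨15,[(0,1),(0,7),(9,5),(1,7),(2,1),(18,15),(14,15),(1,0),
  (5,0)]⟩,.k,.k,(.r (-1) ⟨14,[(22,4),(11,2),(0,2),(22,1),(1,3)]⟩ ⟨10,[(5,2),(18,0),(6,0),(2,2),(0,
  2),(3,2),(2,0),(10,3)]⟩),(.r (-1) ⟨14,[(22,4),(11,2),(0,2),(22,1),(1,3)]⟩ ⟨10,[(5,2),(18,0),(6,0),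
  (2,2),(0,2),(3,2),(2,0),(10,3)]⟩),.k,.k,⟨false,1,⟨2,[(22,0),(11,0),(0,0)]⟩,⟨0,[(56,0)]⟩⟩,⟨true,1,
  ⟨1,[(35,1),(10,0),(10,0)]⟩,⟨1,[(1,0),(9,0),(1,0),(12,1),(9,1)]⟩⟩,⟨false,0,⟨2,[(11,0),(19,0),(9,
  0)]⟩,⟨0,[(54,0),(3,0)]⟩⟩,⟨true,0,⟨0,[(24,0),(10,0)]⟩,⟨35,[(1,17),(9,17),(1,4),(7,11),(14,35),(6,
  12),(1,9),(4,11)]⟩⟩,⟨false,0,⟨0,[]⟩,⟨0,[]⟩⟩,⟨false,0,⟨0,[]⟩,⟨0,[]⟩⟩,[.o ⟨false,0,⟨0,[(24,0)]⟩,⟨17,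
  [(11,5),(10,3),(2,2),(5,2),(2,0),(0,0),(22,8)]⟩⟩,.e ⟨false,0,⟨0,[]⟩,⟨1,[(34,0),(0,0),(21,0)]⟩⟩
  ⟨false,1,⟨1,[(35,1),(10,0),(9,1),(0,0)]⟩,⟨5,[(1,2),(9,2),(9,1),(14,5),(6,2),(6,1)]⟩⟩,.a ⟨true,0,
  ⟨11,[(1,4),(9,0),(14,1),(7,1),(1,9),(4,3),(1,4),(6,1)]⟩,⟨0,[(35,0)]⟩⟩ ⟨false,0,⟨2,[(11,0),(19,0),
  (9,0)]⟩,⟨1,[(57,0),(0,0)]⟩⟩ ⟨true,0,⟨0,[(24,0),(10,0)]⟩,⟨5,[(1,2),(9,2),(9,1),(14,5),(6,2),(6,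
  1)]⟩⟩,.o ⟨false,0,⟨111,[(1,36),(5,5),(3,72),(1,36),(3,23),(0,11),(7,7),(7,37),(1,73),(13,43)]⟩,⟨1,
  [(35,1),(10,0),(10,0)]⟩⟩]⟩)) (.Q [0,0,0,0,0,-1,0,0,0,1,0,-1] (.ed true [0,1,0,0,1] .k) (.Q [-1,0,
  0,0,0,0,0,0,-1,1,0,-1] (.p false [0,0,0,0,1] [1] (⟨0,[(37,0)]⟩,⟨0,[(36,0)]⟩) .k 1 (⟨0,[]⟩,⟨0,[]⟩)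
  .k .k) (.Q [0,0,1,0,0,0,0,0,-1,0,0,-1] (.p false [0,0,0,0,1] [] (⟨0,[(38,0)]⟩,⟨0,[(37,0)]⟩) .k 0
  (⟨0,[]⟩,⟨0,[]⟩) .k .k) (.S ⟨1,0,[-1,1],[1,0,0,0,-1],[1,1,1],(⟨0,[(38,0)]⟩,⟨0,[(39,0)]⟩),⟨0,[(2,
  0)]⟩,.k,(.r (-1) ⟨14,[(24,4),(11,2),(0,2),(22,1),(1,3)]⟩ ⟨10,[(7,2),(18,0),(6,0),(2,2),(0,2),(3,
  2),(2,0),(10,3)]⟩),⟨false,0,⟨2,[(13,0),(19,0),(9,0)]⟩,⟨0,[(56,0),(3,0)]⟩⟩,⟨true,0,⟨0,[(62,0)]⟩,⟨0,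
  []⟩⟩,⟨true,(-1),⟨0,[(25,0),(30,0)]⟩,⟨14,[(24,4),(11,2),(0,2),(22,1),(1,3)]⟩⟩,⟨false,0,⟨0,[(58,
  0)]⟩,⟨17,[(13,5),(10,3),(2,2),(5,2),(2,0),(0,0),(22,8)]⟩⟩,[.o ⟨false,0,⟨0,[(0,0),(55,0)]⟩,⟨1,[(37,
  1),(10,0),(11,0)]⟩⟩,.e ⟨false,0,⟨0,[]⟩,⟨1,[(36,0),(0,0),(21,0)]⟩⟩ ⟨false,1,⟨9,[(36,3),(0,3),(21,
  4),(0,0),(1,1)]⟩,⟨0,[]⟩⟩,.a ⟨true,0,⟨0,[(1,0)]⟩,⟨0,[(37,0)]⟩⟩ ⟨false,0,⟨2,[(13,0),(19,0),(9,0)]⟩,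
  ⟨1,[(59,0),(0,0)]⟩⟩ ⟨true,0,⟨0,[(62,0)]⟩,⟨0,[]⟩⟩,.o ⟨false,0,⟨0,[(0,0)]⟩,⟨1,[(37,1),(10,0),(10,
  0)]⟩⟩]⟩) (.R ⟨2,true,false,true,[0,1],[1,0,0,0,-1],[0,0,1,1],(⟨0,[]⟩,⟨0,[]⟩),(⟨0,[(38,0)]⟩,⟨0,
  [(39,0)]⟩),⟨0,[]⟩,.k,.k,.k,(.r 0 ⟨10,[(7,2),(18,0),(6,0),(2,2),(0,2),(3,2),(2,0),(10,3)]⟩ ⟨14,
  [(24,4),(11,2),(0,2),(22,1),(1,3)]⟩),.k,.k,⟨true,0,⟨0,[(55,0)]⟩,⟨0,[(57,0)]⟩⟩,⟨false,0,⟨0,[(1,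
  0)]⟩,⟨1,[(37,1),(10,0),(10,0)]⟩⟩,⟨false,1,⟨1,[(36,0),(0,0),(22,0)]⟩,⟨0,[]⟩⟩,⟨true,0,⟨0,[(1,0),(55,
  0)]⟩,⟨2,[(0,2),(24,0),(0,0),(21,0),(6,0)]⟩⟩,⟨true,0,⟨0,[(58,0)]⟩,⟨0,[(57,0)]⟩⟩,⟨false,0,⟨0,[(1,
  0)]⟩,⟨1,[(37,1),(10,0),(11,0)]⟩⟩,[]⟩)) (.Q [0,0,1,0,-1,0,0,0,1,0,0,1] (.p true [0,0,0,0,1] [] (⟨0,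
  [(38,0)]⟩,⟨0,[(37,0)]⟩) .k 0 (⟨0,[]⟩,⟨0,[]⟩) .k .k) (.S ⟨1,0,[1,1],[0,0,0,0,1],[1,1,1],(⟨0,[(39,
  0)]⟩,⟨0,[(38,0)]⟩),⟨5,[(0,5),(3,1),(0,5),(9,5),(2,1),(24,3),(8,5),(6,0),(0,0)]⟩,.k,(.r (-1) ⟨2,
  [(24,0),(11,0),(0,0)]⟩ ⟨21,[(7,2),(18,0),(6,0),(2,2),(0,2),(3,2),(2,0),(10,14),(6,10)]⟩),⟨false,0,
  ⟨2,[(13,0),(19,0),(9,0)]⟩,⟨1,[(59,0),(0,0)]⟩⟩,⟨true,0,⟨0,[(62,0)]⟩,⟨0,[]⟩⟩,⟨true,(-1),⟨0,[(25,0),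
  (30,0)]⟩,⟨2,[(24,0),(11,0),(0,0)]⟩⟩,⟨false,0,⟨0,[(58,0)]⟩,⟨17,[(13,5),(10,3),(2,2),(5,2),(2,0),(0,
  0),(22,8)]⟩⟩,[.e ⟨false,0,⟨0,[(62,0)]⟩,⟨1,[(59,0),(0,0)]⟩⟩ ⟨false,0,⟨0,[(56,0)]⟩,⟨1,[(36,0),(0,0),
  (22,0)]⟩⟩,.o ⟨false,0,⟨0,[(1,0)]⟩,⟨15,[(2,1),(1,1),(0,1),(9,1),(2,1),(17,13),(10,3),(4,1),(1,0),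
  (5,0)]⟩⟩,.e ⟨false,0,⟨2,[(13,0),(19,0),(9,0)]⟩,⟨1,[(59,0),(0,0)]⟩⟩ ⟨false,0,⟨0,[]⟩,⟨1,[(36,0),(0,
  0),(22,0)]⟩⟩,.a ⟨true,(-1),⟨0,[(0,0)]⟩,⟨17,[(2,1),(1,1),(0,1),(9,1),(2,1),(17,15),(10,3),(4,1),(0,
  7),(5,8),(0,0)]⟩⟩ ⟨false,0,⟨0,[]⟩,⟨1,[(36,0),(0,0),(22,0)]⟩⟩ ⟨true,0,⟨0,[(56,0)]⟩,⟨2,[(13,0),(19,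
  0),(9,0)]⟩⟩]⟩) (.Q [0,0,2,0,0,0,1,0,-1,0,1,-1] (.p true [0,0,1] [0,0,0,0,1] (⟨0,[(46,0)]⟩,⟨0,[(45,
  0)]⟩) .k 2 (⟨0,[(39,0)]⟩,⟨0,[(38,0)]⟩) .k (.r 0 ⟨0,[(4,0),(13,1),(0,1),(36,3),(3,2)]⟩ ⟨4,[(7,0),
  (4,1),(23,3),(0,3)]⟩)) (.R ⟨0,false,false,true,[0,-1,1],[0,0,0,0,1],[1,0,1],(⟨0,[(36,0)]⟩,⟨45,[(4,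
  1),(29,0),(2,3),(2,3),(5,43),(1,8),(4,10),(0,5),(5,1)]⟩),(⟨0,[(40,0)]⟩,⟨0,[(39,0)]⟩),⟨2,[(16,1),
  (29,0),(1,0),(4,2)]⟩,.k,.k,(.r (-2) ⟨8,[(23,0),(1,5),(8,3),(7,7),(6,1),(11,3)]⟩ ⟨0,[(7,0)]⟩),(.r
  (-1) ⟨8,[(23,4),(1,2),(8,1),(7,3),(6,0),(11,1)]⟩ ⟨4,[(8,2),(4,0),(23,1),(0,1)]⟩),.k,.k,⟨false,1,
  ⟨1,[(37,0),(0,0),(22,0)]⟩,⟨0,[(57,0)]⟩⟩,⟨true,0,⟨3,[(2,2),(9,0),(10,1),(14,0),(2,1),(18,0)]⟩,⟨0,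
  [(0,0)]⟩⟩,⟨false,0,⟨7,[(0,0),(7,3),(5,0),(17,3),(1,0),(3,0),(22,3)]⟩,⟨0,[(21,0),(38,0)]⟩⟩,⟨true,
  (-1),⟨2,[(2,0),(5,0),(3,0),(7,0),(17,1),(18,2)]⟩,⟨3,[(0,1),(0,1),(17,1),(3,1),(36,0),(0,0)]⟩⟩,
  ⟨false,0,⟨0,[]⟩,⟨0,[]⟩⟩,⟨false,0,⟨0,[]⟩,⟨0,[]⟩⟩,[.e ⟨false,0,⟨0,[]⟩,⟨1,[(37,0),(0,0),(21,0)]⟩⟩
  ⟨false,0,⟨0,[(2,0),(38,0),(15,0)]⟩,⟨1,[(0,1),(59,0),(0,0)]⟩⟩,.o ⟨false,0,⟨0,[(2,0)]⟩,⟨15,[(0,0),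
  (2,0),(2,0),(9,0),(20,13),(10,4),(6,0)]⟩⟩,.a ⟨true,0,⟨0,[(44,0)]⟩,⟨0,[(41,0)]⟩⟩ ⟨true,0,⟨3,[(0,0),
  (13,0),(19,0),(3,0)]⟩,⟨0,[(57,0)]⟩⟩ ⟨false,0,⟨0,[(2,0),(38,0)]⟩,⟨1,[(0,1),(59,0),(0,0)]⟩⟩,.o
  ⟨false,0,⟨0,[(14,0)]⟩,⟨1,[(41,1),(7,0),(10,0)]⟩⟩]⟩) (.R ⟨2,true,false,true,[0,1],[0,0,0,0,1],[1,1,
  1],(⟨0,[]⟩,⟨0,[]⟩),(⟨0,[(40,0)]⟩,⟨0,[(39,0)]⟩),⟨0,[]⟩,.k,.k,.k,(.r 0 ⟨21,[(8,2),(18,0),(6,0),(2,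
  2),(0,2),(3,2),(2,0),(10,14),(6,10)]⟩ ⟨2,[(25,0),(11,0),(0,0)]⟩),.k,.k,⟨true,0,⟨2,[(14,0),(19,0),
  (9,0)]⟩,⟨0,[]⟩⟩,⟨false,0,⟨0,[(38,0)]⟩,⟨0,[(1,0)]⟩⟩,⟨true,0,⟨0,[(58,0)]⟩,⟨0,[(59,0)]⟩⟩,⟨false,0,⟨2,
  [(2,0),(21,0),(13,1)]⟩,⟨3,[(1,3),(3,0),(17,0),(32,1),(4,0)]⟩⟩,⟨false,0,⟨0,[]⟩,⟨1,[(37,0),(0,0),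
  (22,0)]⟩⟩,⟨true,(-1),⟨0,[(0,0),(7,0),(10,0)]⟩,⟨1,[(1,0),(35,0),(24,0)]⟩⟩,[]⟩)))) (.Q [0,0,0,0,0,0,
  0,0,-1,1,0,-1] (.p false [0,0,0,0,1] [1] (⟨0,[(37,0)]⟩,⟨0,[(36,0)]⟩) .k 1 (⟨0,[]⟩,⟨0,[]⟩) .k .k)
  (.I [0,0,2,0,0,2,1,0,2] (.I [3,0,-2,-2,1,0,0,1] (.I [0,0,-2,0,1,-2,-1,0,-2] (.N [0,-2,1,0,2] (-1)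
  ⟨0,[(1,0)]⟩ ⟨0,[(6,0)]⟩ (.x 0 ⟨0,[(2,0)]⟩ ⟨0,[(0,0)]⟩)) (.R ⟨1,false,false,false,[0,0,0,0,1],[0,
  1],[1,0,1],(⟨0,[(41,0)]⟩,⟨0,[(40,0)]⟩),(⟨0,[(52,0)]⟩,⟨0,[(51,0)]⟩),⟨1,[(4,0),(12,0),(19,0),(3,
  0)]⟩,.k,.k,(.r (-1) ⟨2,[(26,0),(11,0),(0,0)]⟩ ⟨21,[(9,2),(18,0),(6,0),(2,2),(0,2),(3,2),(2,0),(10,
  14),(6,10)]⟩),(.r (-1) ⟨2,[(26,0),(11,0),(0,0)]⟩ ⟨21,[(9,2),(18,0),(6,0),(2,2),(0,2),(3,2),(2,0),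
  (10,14),(6,10)]⟩),(.r (-2) ⟨2,[(26,1),(11,1),(0,1)]⟩ ⟨2,[(8,1),(12,0),(2,0),(18,0),(13,0)]⟩),.k,
  ⟨false,1,⟨2,[(26,0),(11,0),(0,0)]⟩,⟨0,[(60,0)]⟩⟩,⟨true,1,⟨1,[(3,1),(46,0),(10,0)]⟩,⟨8,[(0,0),(3,
  1),(6,0),(3,0),(1,0),(4,1),(2,0),(1,6),(9,1),(1,6)]⟩⟩,⟨true,0,⟨2,[(15,0),(19,0),(9,0)]⟩,⟨0,[(58,
  0)]⟩⟩,⟨false,1,⟨1,[(3,1),(46,0),(9,1),(1,0)]⟩,⟨14,[(0,1),(0,1),(2,3),(6,0),(5,1),(7,2),(11,3),(1,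
  10),(10,0)]⟩⟩,⟨false,0,⟨0,[(6,0),(13,0),(0,0),(36,1),(3,1)]⟩,⟨2,[(26,0),(11,0),(0,0)]⟩⟩,⟨false,1,
  ⟨1,[(3,1),(46,0),(9,3),(1,0)]⟩,⟨14,[(0,3),(0,3),(2,7),(6,1),(5,3),(7,5),(11,7),(1,6),(10,1)]⟩⟩,
  [.e ⟨false,0,⟨0,[]⟩,⟨1,[(38,0),(0,0),(21,0)]⟩⟩ ⟨false,1,⟨1,[(3,1),(46,0),(9,1),(0,0)]⟩,⟨23,[(0,1),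
  (0,1),(2,3),(6,3),(5,1),(2,5),(16,3),(1,19),(16,0),(5,2)]⟩⟩,.o ⟨false,1,⟨1,[(50,0),(9,1),(1,0)]⟩,
  ⟨0,[(59,0)]⟩⟩,.a ⟨true,0,⟨0,[(39,0)]⟩,⟨0,[(3,0)]⟩⟩ ⟨true,0,⟨2,[(15,0),(19,0),(9,0)]⟩,⟨0,[(58,
  0)]⟩⟩ ⟨false,1,⟨1,[(3,1),(46,0),(9,1),(1,0)]⟩,⟨23,[(0,1),(0,1),(2,3),(6,3),(5,1),(2,5),(16,3),(1,
  19),(16,0),(5,2)]⟩⟩,.o ⟨false,0,⟨31,[(0,0),(3,1),(6,1),(3,10),(1,0),(3,7),(0,3),(14,1),(1,29),(10,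
  10)]⟩,⟨1,[(3,1),(46,0),(10,0)]⟩⟩]⟩)) (.Q [-1,0,0,0,0,0,0,0,-1,1,0,-1] (.p false [0,0,0,0,1] [1]
  (⟨0,[(40,0)]⟩,⟨0,[(39,0)]⟩) .k 1 (⟨0,[]⟩,⟨0,[]⟩) .k .k) (.Q [0,0,1,0,0,0,0,0,1,-1,0,1] (.p true
  [0,0,0,0,1] [1] (⟨0,[(41,0)]⟩,⟨0,[(40,0)]⟩) .k 1 (⟨0,[]⟩,⟨0,[]⟩) .k .k) (.S ⟨1,0,[1],[0,0,0,0,1],
  [0,1],(⟨0,[(42,0)]⟩,⟨0,[(41,0)]⟩),⟨1,[(5,0),(12,0),(19,0),(3,0)]⟩,.k,(.r (-1) ⟨2,[(27,0),(11,0),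
  (0,0)]⟩ ⟨6,[(0,0),(1,1),(33,0),(2,1),(0,0),(3,1),(13,1),(2,0)]⟩),⟨true,0,⟨0,[(65,0)]⟩,⟨0,[]⟩⟩,
  ⟨false,1,⟨1,[(39,0),(0,0),(22,0)]⟩,⟨0,[]⟩⟩,⟨false,0,⟨0,[(2,0),(18,0),(0,0),(36,2),(3,1)]⟩,⟨9,[(0,
  2),(25,0),(0,0),(2,1),(8,2),(23,4)]⟩⟩,⟨true,0,⟨0,[(61,0)]⟩,⟨0,[(60,0)]⟩⟩,[.a ⟨true,0,⟨0,[(40,0)]⟩,
  ⟨0,[(1,0)]⟩⟩ ⟨false,0,⟨0,[(59,0)]⟩,⟨1,[(39,0),(0,0),(22,0)]⟩⟩ ⟨true,0,⟨0,[]⟩,⟨2,[(16,0),(19,0),(9,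
  0)]⟩⟩,.e ⟨false,1,⟨1,[(39,0),(0,0),(21,0)]⟩,⟨0,[]⟩⟩ ⟨false,1,⟨1,[(62,0),(0,0)]⟩,⟨0,[(65,0)]⟩⟩,.e
  ⟨true,0,⟨0,[(65,0)]⟩,⟨0,[]⟩⟩ ⟨true,0,⟨0,[]⟩,⟨0,[(65,0)]⟩⟩,.o ⟨false,0,⟨0,[(0,0)]⟩,⟨1,[(1,1),(49,
  0),(10,0)]⟩⟩]⟩) (.S ⟨1,0,[1],[0,0,0,0,1],[1,1],(⟨0,[(42,0)]⟩,⟨0,[(41,0)]⟩),⟨1,[(5,0),(12,0),(19,
  0),(3,0)]⟩,.k,(.r (-1) ⟨2,[(27,0),(11,0),(0,0)]⟩ ⟨12,[(2,2),(26,0),(6,0),(2,2),(0,2),(3,2),(2,0),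
  (10,5),(6,1)]⟩),⟨true,0,⟨0,[(65,0)]⟩,⟨0,[]⟩⟩,⟨false,1,⟨1,[(39,0),(0,0),(22,0)]⟩,⟨0,[]⟩⟩,⟨false,0,
  ⟨0,[(61,0)]⟩,⟨17,[(16,5),(10,3),(2,2),(5,2),(2,0),(0,0),(22,8)]⟩⟩,⟨true,0,⟨0,[(61,0)]⟩,⟨0,[(60,
  0)]⟩⟩,[.a ⟨true,0,⟨0,[(40,0)]⟩,⟨0,[(1,0)]⟩⟩ ⟨false,0,⟨0,[(59,0)]⟩,⟨1,[(39,0),(0,0),(22,0)]⟩⟩
  ⟨true,0,⟨0,[]⟩,⟨2,[(16,0),(19,0),(9,0)]⟩⟩,.o ⟨false,1,⟨1,[(40,1),(10,0),(11,0)]⟩,⟨16,[(0,2),(0,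
  13),(14,0),(0,2),(3,2),(0,0),(6,10),(21,0),(5,2)]⟩⟩,.a ⟨true,0,⟨0,[(40,0)]⟩,⟨0,[(4,0)]⟩⟩ ⟨false,0,
  ⟨0,[]⟩,⟨1,[(39,0),(0,0),(22,0)]⟩⟩ ⟨true,0,⟨0,[]⟩,⟨0,[(65,0)]⟩⟩,.a ⟨true,0,⟨2,[(16,0),(19,0),(3,2),
  (5,0)]⟩,⟨0,[(0,0)]⟩⟩ ⟨true,0,⟨0,[(59,0)]⟩,⟨2,[(16,0),(19,0),(9,0)]⟩⟩ ⟨false,1,⟨1,[(62,0),(0,0)]⟩,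
  ⟨2,[(16,0),(19,0),(9,0)]⟩⟩]⟩)) (.S ⟨1,0,[1,1],[0,0,0,0,1],[1],(⟨0,[(41,0)]⟩,⟨0,[(40,0)]⟩),⟨1,[(4,
  0),(12,0),(19,0),(3,0)]⟩,.k,(.r (-1) ⟨2,[(26,0),(11,0),(0,0)]⟩ ⟨12,[(1,2),(26,0),(6,0),(2,2),(0,
  2),(3,2),(2,0),(10,5),(6,1)]⟩),⟨false,1,⟨1,[(38,0),(0,0),(22,0)]⟩,⟨0,[]⟩⟩,⟨true,0,⟨0,[(64,0)]⟩,⟨0,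
  []⟩⟩,⟨true,0,⟨0,[(60,0)]⟩,⟨0,[(59,0)]⟩⟩,⟨false,0,⟨0,[(60,0)]⟩,⟨17,[(15,5),(10,3),(2,2),(5,2),(2,
  0),(0,0),(22,8)]⟩⟩,[.o ⟨false,0,⟨5,[(0,4),(14,0),(23,0),(6,0),(6,2)]⟩,⟨1,[(3,1),(52,0),(5,0)]⟩⟩,
  .o ⟨false,0,⟨0,[(0,0)]⟩,⟨9,[(3,0),(13,0),(19,0),(0,8),(10,2),(6,0)]⟩⟩,.a ⟨true,0,⟨0,[(39,0)]⟩,⟨0,
  [(3,0)]⟩⟩ ⟨true,0,⟨0,[]⟩,⟨0,[(64,0)]⟩⟩ ⟨false,0,⟨0,[]⟩,⟨1,[(38,0),(0,0),(22,0)]⟩⟩,.o ⟨false,0,⟨4,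
  [(0,3),(14,0),(23,0),(6,0),(16,1)]⟩,⟨1,[(3,1),(46,0),(10,0)]⟩⟩]⟩))) (.R ⟨0,false,false,true,[1,0,
  0,0,-1],[0,1],[1,1,1],(⟨0,[(38,0)]⟩,⟨0,[(39,0)]⟩),(⟨0,[(50,0)]⟩,⟨0,[(49,0)]⟩),⟨0,[(2,0)]⟩,.k,.k,
  (.r (-1) ⟨14,[(24,4),(11,2),(0,2),(22,1),(1,3)]⟩ ⟨10,[(7,2),(18,0),(6,0),(2,2),(0,2),(3,2),(2,0),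
  (10,3)]⟩),(.r (-1) ⟨14,[(24,4),(11,2),(0,2),(22,1),(1,3)]⟩ ⟨10,[(7,2),(18,0),(6,0),(2,2),(0,2),(3,
  2),(2,0),(10,3)]⟩),.k,.k,⟨false,1,⟨2,[(24,0),(11,0),(0,0)]⟩,⟨0,[(58,0)]⟩⟩,⟨true,1,⟨1,[(37,1),(10,
  0),(10,0)]⟩,⟨23,[(0,2),(0,17),(7,3),(3,2),(1,2),(2,7),(6,23),(12,5),(13,3),(7,3)]⟩⟩,⟨false,0,⟨2,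
  [(13,0),(19,0),(9,0)]⟩,⟨0,[(56,0),(3,0)]⟩⟩,⟨true,0,⟨0,[(26,0),(10,0)]⟩,⟨23,[(0,4),(0,13),(7,3),(3,
  4),(1,4),(2,7),(19,9),(8,7),(4,3),(7,3)]⟩⟩,⟨false,0,⟨0,[]⟩,⟨0,[]⟩⟩,⟨false,0,⟨0,[]⟩,⟨0,[]⟩⟩,[.o
  ⟨false,0,⟨0,[(26,0)]⟩,⟨17,[(13,5),(10,3),(2,2),(5,2),(2,0),(0,0),(22,8)]⟩⟩,.e ⟨false,0,⟨0,[]⟩,⟨1,
  [(36,0),(0,0),(21,0)]⟩⟩ ⟨false,1,⟨1,[(37,1),(10,0),(9,1),(0,0)]⟩,⟨23,[(0,2),(0,17),(7,3),(3,2),(1,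
  2),(2,7),(19,5),(13,3),(7,3)]⟩⟩,.a ⟨true,0,⟨0,[(1,0)]⟩,⟨0,[(37,0)]⟩⟩ ⟨false,0,⟨2,[(13,0),(19,0),
  (9,0)]⟩,⟨1,[(59,0),(0,0)]⟩⟩ ⟨true,0,⟨0,[(26,0),(10,0)]⟩,⟨23,[(0,2),(0,17),(7,3),(3,2),(1,2),(2,7),
  (19,5),(13,3),(7,3)]⟩⟩,.o ⟨false,0,⟨63,[(0,2),(0,57),(7,3),(3,26),(1,2),(3,15),(0,7),(17,5),(9,
  15),(3,3),(1,3)]⟩,⟨1,[(37,1),(10,0),(10,0)]⟩⟩]⟩)) (.R ⟨0,false,false,false,[1,0,0,0,-1],[0,1],[1,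
  1,1],(⟨0,[(37,0)]⟩,⟨0,[(38,0)]⟩),(⟨0,[(49,0)]⟩,⟨0,[(48,0)]⟩),⟨0,[(1,0)]⟩,.k,.k,(.r (-1) ⟨14,[(23,
  4),(11,2),(0,2),(22,1),(1,3)]⟩ ⟨10,[(6,2),(18,0),(6,0),(2,2),(0,2),(3,2),(2,0),(10,3)]⟩),(.r (-1)
  ⟨14,[(23,4),(11,2),(0,2),(22,1),(1,3)]⟩ ⟨10,[(6,2),(18,0),(6,0),(2,2),(0,2),(3,2),(2,0),(10,3)]⟩),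
  .k,.k,⟨true,0,⟨0,[(56,0)]⟩,⟨0,[(3,0),(13,0),(0,0),(36,1),(3,1)]⟩⟩,⟨false,1,⟨0,[(0,0),(57,0)]⟩,⟨14,
  [(3,8),(0,2),(3,0),(5,2),(2,7),(0,2),(0,2),(15,11),(1,2),(13,3),(0,5),(6,3)]⟩⟩,⟨false,0,⟨2,[(12,
  0),(19,0),(9,0)]⟩,⟨0,[(55,0),(3,0)]⟩⟩,⟨true,0,⟨0,[(0,0),(56,0)]⟩,⟨23,[(3,17),(0,17),(3,3),(5,17),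
  (2,25),(17,5),(1,17),(8,5),(4,21),(0,2),(6,0)]⟩⟩,⟨false,0,⟨0,[]⟩,⟨0,[]⟩⟩,⟨false,0,⟨0,[]⟩,⟨0,[]⟩⟩,
  [.a ⟨true,0,⟨0,[(57,0)]⟩,⟨0,[(3,4),(4,0),(8,6),(0,4),(36,14),(3,10)]⟩⟩ ⟨false,0,⟨0,[(61,0)]⟩,⟨1,
  [(58,0),(0,0)]⟩⟩ ⟨true,0,⟨0,[(0,0),(56,0)]⟩,⟨31,[(3,17),(0,23),(3,7),(3,5),(1,23),(2,33),(6,15),
  (10,7),(1,23),(13,31),(0,6),(6,16)]⟩⟩,.o ⟨false,1,⟨1,[(47,0),(9,1),(1,0)]⟩,⟨0,[(56,0)]⟩⟩,.o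
  ⟨false,1,⟨0,[(35,0)]⟩,⟨0,[(0,0)]⟩⟩,.e ⟨false,0,⟨0,[]⟩,⟨1,[(35,0),(0,0),(22,0)]⟩⟩ ⟨false,1,⟨1,[(0,
  1),(56,1),(0,0),(0,0)]⟩,⟨31,[(3,17),(0,23),(3,7),(3,5),(1,23),(2,33),(6,15),(10,7),(1,23),(13,31),
  (0,6),(6,16)]⟩⟩]⟩)))) (.I [0,0,-2,0,1,-2,-1,0,-1] (.N [0,-2,1,0,1] (-1) ⟨0,[(1,0)]⟩ ⟨0,[(3,0)]⟩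
  (.x 0 ⟨2,[(10,2),(1,1),(21,2),(0,2),(6,0),(1,0),(4,2)]⟩ ⟨0,[(0,0)]⟩)) (.Q [0,0,1,0,-1,0,0,0,1,0,0,
  1] (.p true [0,0,0,0,1] [] (⟨0,[(36,0)]⟩,⟨0,[(35,0)]⟩) .k 0 (⟨0,[]⟩,⟨0,[]⟩) .k .k) (.S ⟨1,0,[1],
  [0,0,0,0,1],[1,0,1],(⟨0,[(37,0)]⟩,⟨0,[(36,0)]⟩),⟨2,[(0,2),(2,2),(0,0),(8,2),(2,0),(24,1),(8,2),(3,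
  0),(3,0)]⟩,.k,(.r (-1) ⟨2,[(22,0),(11,0),(0,0)]⟩ ⟨21,[(5,2),(18,0),(6,0),(2,2),(0,2),(3,2),(2,0),
  (10,14),(6,10)]⟩),⟨true,0,⟨2,[(11,0),(19,0),(9,0)]⟩,⟨0,[(54,0)]⟩⟩,⟨false,1,⟨1,[(34,0),(0,0),(22,
  0)]⟩,⟨0,[]⟩⟩,⟨false,0,⟨0,[(4,0),(11,0),(0,0),(36,1),(3,1)]⟩,⟨2,[(22,0),(11,0),(0,0)]⟩⟩,⟨true,0,⟨0,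
  [(56,0)]⟩,⟨0,[(55,0)]⟩⟩,[.o ⟨false,0,⟨1,[(0,1),(45,0),(10,0)]⟩,⟨7,[(3,1),(0,1),(8,1),(2,1),(17,5),
  (1,1),(8,1),(4,1),(1,0),(5,0)]⟩⟩,.e ⟨false,1,⟨1,[(34,0),(0,0),(22,0)]⟩,⟨0,[(54,0)]⟩⟩ ⟨false,1,⟨1,
  [(57,0),(0,0)]⟩,⟨0,[(60,0)]⟩⟩,.o ⟨false,0,⟨1,[(0,1),(45,0),(10,0)]⟩,⟨0,[(34,0)]⟩⟩,.a ⟨true,(-1),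
  ⟨0,[(0,0)]⟩,⟨1,[(34,1),(16,0),(2,1),(3,0)]⟩⟩ ⟨true,0,⟨0,[]⟩,⟨0,[(60,0)]⟩⟩ ⟨false,1,⟨1,[(57,0),(0,
  0)]⟩,⟨2,[(11,0),(19,0),(9,0)]⟩⟩]⟩) (.Q [0,0,0,0,0,0,0,0,-1,1,0,-1] (.p false [0,0,0,0,1] [1] (⟨0,
  [(37,0)]⟩,⟨0,[(36,0)]⟩) .k 1 (⟨0,[]⟩,⟨0,[]⟩) .k .k) (.Q [0,0,0,0,0,1,0,0,0,0,0,-1] (.ed true [1,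
  -1,0,0,1] .k) (.R ⟨0,false,false,false,[0,0,0,0,1],[0,1],[1,0,1],(⟨0,[(39,0)]⟩,⟨0,[(38,0)]⟩),(⟨0,
  [(50,0)]⟩,⟨0,[(49,0)]⟩),⟨0,[(0,0)]⟩,.k,.k,(.r (-1) ⟨2,[(24,0),(11,0),(0,0)]⟩ ⟨21,[(7,2),(18,0),(6,
  0),(2,2),(0,2),(3,2),(2,0),(10,14),(6,10)]⟩),(.r (-1) ⟨2,[(24,0),(11,0),(0,0)]⟩ ⟨21,[(7,2),(18,0),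
  (6,0),(2,2),(0,2),(3,2),(2,0),(10,14),(6,10)]⟩),.k,.k,⟨false,1,⟨2,[(24,0),(11,0),(0,0)]⟩,⟨0,[(58,
  0)]⟩⟩,⟨true,1,⟨0,[(2,0)]⟩,⟨12,[(3,2),(5,1),(3,2),(1,0),(3,1),(0,3),(4,5),(9,3),(1,9),(1,2)]⟩⟩,
  ⟨true,0,⟨2,[(13,0),(19,0),(9,0)]⟩,⟨0,[(56,0)]⟩⟩,⟨false,1,⟨2,[(2,2),(3,0),(15,0),(32,0),(4,0)]⟩,
  ⟨23,[(3,5),(0,5),(4,3),(5,1),(2,1),(16,7),(1,17),(1,5),(8,2),(11,0)]⟩⟩,⟨false,0,⟨0,[]⟩,⟨0,[]⟩⟩,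
  ⟨false,0,⟨0,[]⟩,⟨0,[]⟩⟩,[.e ⟨false,0,⟨0,[]⟩,⟨1,[(36,0),(0,0),(21,0)]⟩⟩ ⟨false,1,⟨0,[(2,0),(55,
  0)]⟩,⟨46,[(3,11),(0,10),(4,7),(5,3),(2,3),(1,0),(14,15),(1,34),(1,11),(14,5),(1,1),(3,2)]⟩⟩,.o
  ⟨false,1,⟨1,[(48,0),(9,1),(1,0)]⟩,⟨0,[(57,0)]⟩⟩,.a ⟨true,0,⟨0,[(37,0)]⟩,⟨0,[(1,0)]⟩⟩ ⟨true,0,⟨2,
  [(13,0),(19,0),(9,0)]⟩,⟨0,[(56,0)]⟩⟩ ⟨false,1,⟨0,[(2,0),(52,0)]⟩,⟨46,[(3,11),(0,10),(4,7),(5,3),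
  (2,3),(1,0),(14,15),(1,34),(1,11),(14,5),(1,1),(3,2)]⟩⟩,.o ⟨false,0,⟨31,[(3,2),(5,1),(3,8),(1,0),
  (3,7),(0,3),(14,3),(1,28),(1,2),(8,12)]⟩,⟨0,[(2,0)]⟩⟩]⟩) (.R ⟨1,false,false,false,[0,0,0,0,1],[0,
  1],[1,0,1],(⟨0,[(39,0)]⟩,⟨0,[(38,0)]⟩),(⟨0,[(50,0)]⟩,⟨0,[(49,0)]⟩),⟨0,[(0,0)]⟩,.k,.k,(.r (-1) ⟨2,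
  [(24,0),(11,0),(0,0)]⟩ ⟨21,[(7,2),(18,0),(6,0),(2,2),(0,2),(3,2),(2,0),(10,14),(6,10)]⟩),(.r (-1)
  ⟨2,[(24,0),(11,0),(0,0)]⟩ ⟨21,[(7,2),(18,0),(6,0),(2,2),(0,2),(3,2),(2,0),(10,14),(6,10)]⟩),(.r
  (-2) ⟨2,[(24,1),(11,1),(0,1)]⟩ ⟨2,[(6,1),(12,0),(2,0),(18,0),(13,0)]⟩),.k,⟨false,1,⟨2,[(24,0),(11,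
  0),(0,0)]⟩,⟨0,[(58,0)]⟩⟩,⟨true,1,⟨0,[(2,0)]⟩,⟨5,[(0,0),(2,0),(5,0),(3,0),(6,1),(4,3),(9,0),(1,
  4)]⟩⟩,⟨true,0,⟨2,[(13,0),(19,0),(9,0)]⟩,⟨0,[(56,0)]⟩⟩,⟨false,1,⟨2,[(2,2),(3,0),(15,0),(32,0),(4,
  0)]⟩,⟨11,[(0,1),(2,1),(0,1),(4,1),(8,1),(16,1),(1,9),(10,0),(11,0)]⟩⟩,⟨false,0,⟨0,[(6,0),(11,0),
  (0,0),(36,1),(3,1)]⟩,⟨2,[(24,0),(11,0),(0,0)]⟩⟩,⟨false,1,⟨0,[(2,0),(52,0),(2,0)]⟩,⟨5,[(0,1),(2,1),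
  (0,1),(4,1),(8,1),(16,1),(1,3),(10,0),(11,0)]⟩⟩,[.e ⟨false,0,⟨0,[]⟩,⟨1,[(36,0),(0,0),(21,0)]⟩⟩
  ⟨false,1,⟨0,[(2,0),(55,0)]⟩,⟨11,[(0,1),(2,1),(0,1),(4,1),(8,1),(16,1),(1,9),(16,0),(5,0)]⟩⟩,.o
  ⟨false,1,⟨1,[(48,0),(9,1),(1,0)]⟩,⟨0,[(57,0)]⟩⟩,.a ⟨true,0,⟨0,[(37,0)]⟩,⟨0,[(1,0)]⟩⟩ ⟨true,0,⟨2,
  [(13,0),(19,0),(9,0)]⟩,⟨0,[(56,0)]⟩⟩ ⟨false,1,⟨0,[(2,0),(52,0)]⟩,⟨11,[(0,1),(2,1),(0,1),(4,1),(8,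
  1),(16,1),(1,9),(16,0),(5,0)]⟩⟩,.o ⟨false,0,⟨15,[(0,0),(2,0),(5,0),(3,4),(5,3),(0,1),(14,0),(1,
  14),(10,5)]⟩,⟨0,[(2,0)]⟩⟩]⟩)) (.R ⟨2,true,false,false,[0,1],[0,0,0,0,1],[1,0,1],(⟨0,[]⟩,⟨0,[]⟩),
  (⟨0,[(38,0)]⟩,⟨0,[(37,0)]⟩),⟨0,[]⟩,.k,.k,.k,(.r 0 ⟨21,[(6,2),(18,0),(6,0),(2,2),(0,2),(3,2),(2,0),
  (10,14),(6,10)]⟩ ⟨2,[(23,0),(11,0),(0,0)]⟩),.k,.k,⟨true,0,⟨2,[(12,0),(19,0),(9,0)]⟩,⟨0,[]⟩⟩,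
  ⟨false,0,⟨0,[(36,0)]⟩,⟨0,[(1,0)]⟩⟩,⟨false,1,⟨17,[(12,5),(10,3),(2,2),(5,2),(2,0),(0,0),(22,8)]⟩,
  ⟨0,[(57,0)]⟩⟩,⟨true,0,⟨2,[(0,0),(21,0),(13,1)]⟩,⟨0,[(1,0),(22,0),(30,0)]⟩⟩,⟨true,0,⟨0,[]⟩,⟨0,[(61,
  0)]⟩⟩,⟨false,0,⟨1,[(0,1),(51,0),(6,0)]⟩,⟨1,[(1,0),(33,0),(24,0)]⟩⟩,[]⟩)))))))) (.I [0,0,-2,0,-1,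
  -2,-1,0,2] (.Q [0,0,0,0,0,1,0,0,0,0,0,-1] (.ed true [1,-1,0,0,1] .k) (.R ⟨0,false,false,true,[0,0,
  0,0,1],[0,1],[0,1],(⟨0,[(33,0)]⟩,⟨0,[(32,0)]⟩),(⟨0,[(44,0)]⟩,⟨0,[(43,0)]⟩),⟨0,[(0,0)]⟩,.k,.k,(.r
  (-1) ⟨2,[(18,0),(11,0),(0,0)]⟩ ⟨0,[(49,0),(6,0)]⟩),(.r (-1) ⟨2,[(18,0),(11,0),(0,0)]⟩ ⟨0,[(49,0),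
  (6,0)]⟩),.k,.k,⟨true,1,⟨2,[(18,0),(11,0),(0,0)]⟩,⟨0,[(19,0)]⟩⟩,⟨false,2,⟨0,[(30,0),(22,0)]⟩,⟨9,
  [(1,3),(5,3),(1,3),(12,4),(8,1),(1,7),(12,1),(0,0)]⟩⟩,⟨true,0,⟨0,[(56,0)]⟩,⟨0,[]⟩⟩,⟨false,1,⟨0,
  [(30,0),(21,0)]⟩,⟨29,[(1,11),(5,11),(1,11),(7,9),(13,5),(1,23),(12,15),(0,2),(6,14)]⟩⟩,⟨false,0,
  ⟨0,[]⟩,⟨0,[]⟩⟩,⟨false,0,⟨0,[]⟩,⟨0,[]⟩⟩,[.o ⟨false,0,⟨0,[(20,0)]⟩,⟨17,[(7,5),(10,3),(2,2),(5,2),(2,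
  0),(0,0),(22,8)]⟩⟩,.a ⟨true,0,⟨0,[(52,0)]⟩,⟨5,[(21,2),(8,0),(0,0),(9,0),(1,0),(3,0)]⟩⟩ ⟨false,1,
  ⟨1,[(30,0),(0,0),(21,0)]⟩,⟨0,[]⟩⟩ ⟨true,1,⟨0,[(30,0),(21,0)]⟩,⟨5,[(1,2),(5,2),(1,2),(7,1),(4,2),
  (10,5),(12,1)]⟩⟩,.o ⟨false,0,⟨9,[(1,2),(5,2),(1,2),(21,3),(1,5),(8,1),(3,3),(1,0)]⟩,⟨0,[(30,0)]⟩⟩,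
  .e ⟨true,0,⟨0,[(50,0)]⟩,⟨2,[(7,0),(19,0),(9,0)]⟩⟩ ⟨true,1,⟨0,[(30,0),(19,0),(1,0)]⟩,⟨5,[(1,2),(5,
  2),(1,2),(7,1),(4,2),(10,5),(12,1)]⟩⟩]⟩) (.R ⟨1,false,false,true,[0,0,0,0,1],[0,1],[0,1],(⟨0,[(33,
  0)]⟩,⟨0,[(32,0)]⟩),(⟨0,[(44,0)]⟩,⟨0,[(43,0)]⟩),⟨0,[(0,0)]⟩,.k,.k,(.r (-1) ⟨2,[(18,0),(11,0),(0,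
  0)]⟩ ⟨0,[(49,0),(6,0)]⟩),(.r (-1) ⟨2,[(18,0),(11,0),(0,0)]⟩ ⟨0,[(49,0),(6,0)]⟩),(.r (-2) ⟨2,[(18,
  1),(11,1),(0,1)]⟩ ⟨0,[(7,1),(5,1),(33,0),(2,3),(3,1)]⟩),.k,⟨true,1,⟨2,[(18,0),(11,0),(0,0)]⟩,⟨0,
  [(19,0)]⟩⟩,⟨false,2,⟨0,[(30,0),(22,0)]⟩,⟨5,[(0,3),(0,1),(5,1),(1,1),(12,2),(8,1),(14,1),(0,0)]⟩⟩,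
  ⟨true,0,⟨0,[(56,0)]⟩,⟨0,[]⟩⟩,⟨false,1,⟨0,[(30,0),(21,0)]⟩,⟨5,[(0,3),(0,1),(5,1),(1,1),(7,1),(13,
  1),(14,3),(0,0),(6,2)]⟩⟩,⟨false,0,⟨1,[(7,1),(5,1),(33,0),(2,5),(3,2)]⟩,⟨17,[(7,5),(10,3),(2,2),(5,
  2),(2,0),(0,0),(22,8)]⟩⟩,⟨false,1,⟨0,[(30,0),(21,1)]⟩,⟨11,[(0,9),(0,4),(5,4),(1,4),(7,7),(13,1),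
  (14,9),(0,0),(6,5)]⟩⟩,[.o ⟨false,0,⟨0,[(20,0)]⟩,⟨17,[(7,5),(10,3),(2,2),(5,2),(2,0),(0,0),(22,
  8)]⟩⟩,.a ⟨true,0,⟨0,[(52,0)]⟩,⟨5,[(21,2),(8,0),(0,0),(9,0),(1,0),(3,0)]⟩⟩ ⟨false,1,⟨1,[(30,0),(0,
  0),(21,0)]⟩,⟨0,[]⟩⟩ ⟨true,1,⟨0,[(30,0),(21,0)]⟩,⟨11,[(0,9),(0,4),(5,4),(1,4),(7,3),(4,5),(8,1),
  (14,5),(0,0)]⟩⟩,.o ⟨false,0,⟨3,[(0,1),(0,0),(5,0),(1,0),(21,1),(14,1),(1,0)]⟩,⟨0,[(30,0)]⟩⟩,.e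
  ⟨true,0,⟨0,[(50,0)]⟩,⟨2,[(7,0),(19,0),(9,0)]⟩⟩ ⟨true,1,⟨0,[(30,0),(19,0),(1,0)]⟩,⟨11,[(0,9),(0,4),
  (5,4),(1,4),(7,3),(4,5),(8,1),(14,5),(0,0)]⟩⟩]⟩)) (.Q [0,0,0,0,0,1,0,0,0,-1,0,1] (.ed false [0,1,
  0,0,1] .k) (.Q [0,0,0,0,0,0,0,0,1,-1,0,1] (.p true [0,0,0,0,1] [1] (⟨0,[(33,0)]⟩,⟨0,[(32,0)]⟩) .k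
  1 (⟨0,[]⟩,⟨0,[]⟩) .k .k) (.Q [-1,-1,0,2,1,0,0,0,-1,0,0,-1] (.p false [0,0,0,0,1] [] (⟨0,[(34,0)]⟩,
  ⟨0,[(33,0)]⟩) .k 0 (⟨0,[]⟩,⟨0,[]⟩) .k .k) (.R ⟨0,false,false,false,[1,0,0,0,-1],[0,1],[1,1,1],(⟨0,
  [(34,0)]⟩,⟨0,[(35,0)]⟩),(⟨0,[(46,0)]⟩,⟨0,[(45,0)]⟩),⟨0,[(2,0)]⟩,.k,.k,(.r (-1) ⟨22,[(0,1),(19,8),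
  (11,2),(0,4),(23,3),(0,1)]⟩ ⟨8,[(0,2),(8,0),(11,2),(7,0),(3,2),(5,0),(18,2)]⟩),(.r (-1) ⟨22,[(0,
  1),(19,8),(11,2),(0,4),(23,3),(0,1)]⟩ ⟨8,[(0,2),(8,0),(11,2),(7,0),(3,2),(5,0),(18,2)]⟩),.k,.k,
  ⟨true,0,⟨0,[(53,0)]⟩,⟨1,[(9,1),(5,1),(33,0),(2,3),(3,2)]⟩⟩,⟨false,1,⟨0,[(1,0),(53,0)]⟩,⟨89,[(0,
  47),(2,5),(6,26),(0,1),(2,20),(3,5),(0,12),(1,38),(9,7),(0,29),(1,11),(14,17)]⟩⟩,⟨false,0,⟨2,[(9,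
  0),(19,0),(9,0)]⟩,⟨0,[(52,0),(3,0)]⟩⟩,⟨true,0,⟨0,[(1,0),(52,0)]⟩,⟨0,[(0,0),(11,0),(1,0)]⟩⟩,⟨false,
  0,⟨0,[]⟩,⟨0,[]⟩⟩,⟨false,0,⟨0,[]⟩,⟨0,[]⟩⟩,[.a ⟨true,0,⟨0,[(54,0)]⟩,⟨1,[(4,3),(0,1),(3,13),(5,9),
  (33,6),(2,29),(3,14)]⟩⟩ ⟨false,0,⟨0,[(58,0)]⟩,⟨1,[(55,0),(0,0)]⟩⟩ ⟨true,0,⟨0,[(1,0),(52,0)]⟩,⟨9,
  [(0,5),(4,2),(8,5),(4,2),(1,4),(10,3),(16,1)]⟩⟩,.o ⟨false,1,⟨3,[(0,1),(0,1),(42,0),(11,0)]⟩,⟨0,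
  [(53,0)]⟩⟩,.o ⟨false,1,⟨0,[(32,0)]⟩,⟨0,[(1,0)]⟩⟩,.e ⟨false,0,⟨0,[]⟩,⟨1,[(32,0),(0,0),(22,0)]⟩⟩
  ⟨false,1,⟨1,[(1,1),(52,1),(0,0),(0,0)]⟩,⟨9,[(0,5),(4,2),(8,5),(4,2),(1,4),(10,3),(16,1)]⟩⟩]⟩) (.R
  ⟨1,false,false,false,[0,0,0,0,1],[0,1],[],(⟨0,[(35,0)]⟩,⟨0,[(34,0)]⟩),(⟨0,[(46,0)]⟩,⟨0,[(45,0)]⟩),
  ⟨1,[(2,0),(8,0),(19,0),(3,0)]⟩,.k,.k,(.r (-1) ⟨2,[(20,0),(11,0),(0,0)]⟩ ⟨0,[(51,0),(6,0)]⟩),(.r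
  (-1) ⟨2,[(20,0),(11,0),(0,0)]⟩ ⟨0,[(51,0),(6,0)]⟩),(.r (-2) ⟨2,[(20,1),(11,1),(0,1)]⟩ ⟨0,[(9,1),
  (5,1),(33,0),(2,3),(3,1)]⟩),.k,⟨true,1,⟨2,[(20,0),(11,0),(0,0)]⟩,⟨0,[(21,0)]⟩⟩,⟨false,2,⟨0,[(32,
  0),(22,0)]⟩,⟨5,[(0,3),(0,1),(19,2),(27,0),(4,4),(1,1)]⟩⟩,⟨false,1,⟨4,[(32,1),(0,1),(22,2),(1,0)]⟩,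
  ⟨0,[]⟩⟩,⟨true,1,⟨0,[(32,0),(21,0)]⟩,⟨12,[(0,7),(0,4),(19,1),(0,0),(26,2),(2,3)]⟩⟩,⟨true,0,⟨1,[(9,
  1),(5,1),(33,0),(2,5),(3,2)]⟩,⟨0,[(53,0)]⟩⟩,⟨true,1,⟨0,[(32,0),(21,1)]⟩,⟨0,[(0,0)]⟩⟩,[.a ⟨true,0,
  ⟨0,[(54,0)]⟩,⟨1,[(4,3),(0,1),(3,13),(5,9),(33,6),(2,29),(3,14)]⟩⟩ ⟨false,1,⟨1,[(32,0),(0,0),(21,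
  0)]⟩,⟨0,[]⟩⟩ ⟨true,1,⟨0,[(32,0),(21,0)]⟩,⟨1,[(0,1),(20,0),(32,0),(1,0)]⟩⟩,.o ⟨false,1,⟨1,[(44,0),
  (9,1),(1,0)]⟩,⟨0,[(53,0)]⟩⟩,.o ⟨false,0,⟨0,[(1,0)]⟩,⟨0,[(32,0)]⟩⟩,.e ⟨false,1,⟨1,[(55,0),(0,0)]⟩,
  ⟨2,[(9,0),(19,0),(9,0)]⟩⟩ ⟨false,2,⟨1,[(32,1),(21,1),(0,0),(0,0)]⟩,⟨1,[(0,1),(20,0),(32,0),(1,
  0)]⟩⟩]⟩)) (.I [0,0,2,0,-1,2,1,0,-2] (.R ⟨0,false,false,true,[1,0,0,0,-1],[0,1],[1,1,1],(⟨0,[(34,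
  0)]⟩,⟨0,[(35,0)]⟩),(⟨0,[(46,0)]⟩,⟨0,[(45,0)]⟩),⟨0,[(2,0)]⟩,.k,.k,(.r (-1) ⟨14,[(20,4),(11,2),(0,
  2),(22,1),(1,3)]⟩ ⟨0,[(51,0),(6,0)]⟩),(.r (-1) ⟨14,[(20,4),(11,2),(0,2),(22,1),(1,3)]⟩ ⟨0,[(51,0),
  (6,0)]⟩),.k,.k,⟨false,1,⟨2,[(20,0),(11,0),(0,0)]⟩,⟨0,[(54,0)]⟩⟩,⟨true,1,⟨1,[(33,1),(10,0),(10,
  0)]⟩,⟨12,[(0,2),(0,6),(3,1),(3,2),(1,0),(3,1),(0,3),(4,5),(9,3),(2,5)]⟩⟩,⟨false,0,⟨2,[(9,0),(19,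
  0),(9,0)]⟩,⟨0,[(52,0),(3,0)]⟩⟩,⟨true,0,⟨0,[(22,0),(10,0)]⟩,⟨11,[(0,2),(0,5),(2,3),(0,1),(3,0),(1,
  0),(19,3),(2,5),(15,0)]⟩⟩,⟨false,0,⟨0,[]⟩,⟨0,[]⟩⟩,⟨false,0,⟨0,[]⟩,⟨0,[]⟩⟩,[.o ⟨false,0,⟨0,[(22,
  0)]⟩,⟨17,[(9,5),(10,3),(2,2),(5,2),(2,0),(0,0),(22,8)]⟩⟩,.e ⟨false,0,⟨0,[]⟩,⟨1,[(32,0),(0,0),(21,
  0)]⟩⟩ ⟨false,1,⟨1,[(33,1),(10,0),(9,1),(0,0)]⟩,⟨23,[(0,5),(0,11),(2,5),(0,3),(5,1),(2,1),(16,7),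
  (2,11),(9,2),(11,0)]⟩⟩,.a ⟨true,0,⟨0,[(1,0)]⟩,⟨0,[(33,0)]⟩⟩ ⟨false,0,⟨2,[(9,0),(19,0),(9,0)]⟩,⟨1,
  [(55,0),(0,0)]⟩⟩ ⟨true,0,⟨0,[(22,0),(10,0)]⟩,⟨23,[(0,5),(0,11),(2,5),(0,3),(5,1),(2,1),(16,7),(2,
  11),(9,2),(11,0)]⟩⟩,.o ⟨false,0,⟨31,[(0,2),(0,25),(3,1),(3,8),(1,0),(3,7),(0,3),(14,3),(2,5),(9,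
  12)]⟩,⟨1,[(33,1),(10,0),(10,0)]⟩⟩]⟩) (.Q [0,0,1,0,0,0,0,0,-1,0,0,-1] (.p false [0,0,0,0,1] [] (⟨0,
  [(35,0)]⟩,⟨0,[(34,0)]⟩) .k 0 (⟨0,[]⟩,⟨0,[]⟩) .k .k) (.R ⟨0,false,false,false,[1,0,0,0,-1],[1,-1],
  [0,1],(⟨0,[(35,0)]⟩,⟨0,[(36,0)]⟩),(⟨0,[(46,0)]⟩,⟨0,[(47,0)]⟩),⟨0,[(3,0)]⟩,.k,.k,(.r (-1) ⟨0,[(5,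
  1),(0,0),(3,6),(5,4),(33,2),(2,15),(3,7)]⟩ ⟨3,[(1,0),(2,0),(17,1),(32,1)]⟩),(.r 0 ⟨0,[(5,1),(0,0),
  (3,8),(5,6),(33,3),(2,19),(3,9)]⟩ ⟨5,[(1,0),(2,0),(16,1)]⟩),.k,.k,⟨true,(-1),⟨0,[(22,0),(30,0)]⟩,
  ⟨5,[(1,0),(2,0),(15,1),(24,0),(11,2)]⟩⟩,⟨false,0,⟨0,[(34,0)]⟩,⟨1,[(2,1),(42,0),(10,0)]⟩⟩,⟨false,0,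
  ⟨0,[]⟩,⟨3,[(1,0),(2,0),(52,1)]⟩⟩,⟨true,0,⟨11,[(1,2),(1,5),(2,1),(3,2),(1,2),(2,3),(18,5),(14,1),
  (0,2),(6,1)]⟩,⟨1,[(0,0),(1,0),(20,0),(29,0),(1,0)]⟩⟩,⟨false,0,⟨0,[]⟩,⟨0,[]⟩⟩,⟨false,0,⟨0,[]⟩,⟨0,
  []⟩⟩,[.a ⟨true,0,⟨11,[(1,0),(2,0),(19,5),(19,1),(1,1),(3,1)]⟩,⟨0,[(55,0)]⟩⟩ ⟨false,0,⟨0,[(53,0)]⟩,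
  ⟨3,[(1,0),(2,0),(52,1)]⟩⟩ ⟨true,0,⟨17,[(1,5),(1,11),(1,5),(0,3),(5,5),(2,1),(6,5),(11,5),(5,11),
  (8,3),(0,2),(6,0)]⟩,⟨1,[(0,0),(1,0),(20,0),(28,0)]⟩⟩,.o ⟨false,1,⟨5,[(1,0),(2,0),(15,1),(24,0),
  (11,2)]⟩,⟨0,[(23,0)]⟩⟩,.e ⟨true,0,⟨0,[(59,0)]⟩,⟨0,[]⟩⟩ ⟨true,0,⟨17,[(1,5),(1,11),(1,5),(0,3),(5,
  5),(2,1),(6,5),(11,5),(5,11),(8,3),(0,2),(6,0)]⟩,⟨0,[(2,0),(20,0)]⟩⟩,.o ⟨false,0,⟨0,[(0,0)]⟩,⟨1,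
  [(34,1),(10,0),(10,0)]⟩⟩]⟩) (.R ⟨0,false,false,true,[1,0,0,0,-1],[1,-1],[1],(⟨0,[(35,0)]⟩,⟨0,[(36,
  0)]⟩),(⟨0,[(46,0)]⟩,⟨0,[(47,0)]⟩),⟨0,[(3,0)]⟩,.k,.k,(.r (-1) ⟨0,[(0,5),(1,5),(2,1),(0,0),(3,6),(5,
  4),(36,9),(3,4)]⟩ ⟨3,[(1,0),(2,0),(17,1),(32,1)]⟩),(.r 0 ⟨0,[(0,7),(1,7),(2,1),(0,0),(3,8),(5,6),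
  (36,11),(3,5)]⟩ ⟨5,[(1,0),(2,0),(16,1)]⟩),.k,.k,⟨true,0,⟨0,[(52,0)]⟩,⟨0,[(54,0)]⟩⟩,⟨false,0,⟨0,
  [(34,0)]⟩,⟨1,[(2,1),(42,0),(10,0)]⟩⟩,⟨true,0,⟨0,[]⟩,⟨0,[(59,0)]⟩⟩,⟨false,0,⟨12,[(0,3),(5,0),(3,1),
  (6,1),(2,2),(13,8),(10,0)]⟩,⟨1,[(2,1),(42,0),(9,1),(1,0)]⟩⟩,⟨false,0,⟨0,[]⟩,⟨0,[]⟩⟩,⟨false,0,⟨0,
  []⟩,⟨0,[]⟩⟩,[.o ⟨false,0,⟨0,[(54,0)]⟩,⟨1,[(45,0),(9,1),(1,0)]⟩⟩,.a ⟨true,0,⟨11,[(1,0),(2,0),(19,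
  5),(19,1),(1,1),(3,1)]⟩,⟨0,[(55,0)]⟩⟩ ⟨false,1,⟨1,[(56,0),(0,0)]⟩,⟨0,[(59,0)]⟩⟩ ⟨true,0,⟨12,[(0,
  3),(5,0),(3,1),(6,1),(2,2),(13,8),(10,0)]⟩,⟨2,[(2,2),(19,0),(0,0),(21,0),(6,0)]⟩⟩,.a ⟨true,0,⟨0,
  [(2,0)]⟩,⟨0,[(34,0)]⟩⟩ ⟨true,0,⟨0,[]⟩,⟨0,[(59,0)]⟩⟩ ⟨false,0,⟨12,[(0,3),(5,0),(3,1),(6,1),(2,2),
  (13,8),(10,0)]⟩,⟨1,[(2,1),(42,0),(9,1),(1,0)]⟩⟩,.a ⟨true,0,⟨25,[(2,19),(1,2),(5,6),(1,0),(7,0),(1,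
  2),(7,4),(1,3),(2,5)]⟩,⟨0,[(0,0)]⟩⟩ ⟨false,1,⟨1,[(56,0),(0,0)]⟩,⟨7,[(1,0),(2,0),(5,1),(11,1),(1,
  0),(5,0)]⟩⟩ ⟨true,0,⟨19,[(0,10),(10,3),(3,3),(11,1),(6,8),(10,1),(2,4)]⟩,⟨2,[(2,2),(19,0),(0,0),
  (21,0),(6,0)]⟩⟩]⟩)))) (.I [0,0,2,0,0,2,1,0,-2] (.Q [0,0,0,0,0,0,0,0,-1,1,0,-1] (.p false [0,0,0,0,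
  1] [1] (⟨0,[(34,0)]⟩,⟨0,[(33,0)]⟩) .k 1 (⟨0,[]⟩,⟨0,[]⟩) .k .k) (.Q [0,0,1,0,0,0,0,0,-1,0,0,-1]
  (.p false [0,0,0,0,1] [] (⟨0,[(35,0)]⟩,⟨0,[(34,0)]⟩) .k 0 (⟨0,[]⟩,⟨0,[]⟩) .k .k) (.S ⟨1,0,[-1,1],
  [1,0,0,0,-1],[1,1,1],(⟨0,[(35,0)]⟩,⟨0,[(36,0)]⟩),⟨0,[(3,0)]⟩,.k,(.r (-1) ⟨14,[(21,4),(11,2),(0,2),
  (22,1),(1,3)]⟩ ⟨0,[(52,0),(6,0)]⟩),⟨false,0,⟨2,[(10,0),(19,0),(9,0)]⟩,⟨0,[(53,0),(3,0)]⟩⟩,⟨true,0,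
  ⟨0,[(59,0)]⟩,⟨0,[]⟩⟩,⟨true,(-1),⟨0,[(22,0),(30,0)]⟩,⟨14,[(21,4),(11,2),(0,2),(22,1),(1,3)]⟩⟩,
  ⟨false,0,⟨0,[(55,0)]⟩,⟨17,[(10,5),(10,3),(2,2),(5,2),(2,0),(0,0),(22,8)]⟩⟩,[.o ⟨false,0,⟨0,[(0,0),
  (52,0)]⟩,⟨1,[(34,1),(10,0),(11,0)]⟩⟩,.e ⟨false,0,⟨0,[]⟩,⟨1,[(33,0),(0,0),(21,0)]⟩⟩ ⟨false,1,⟨9,
  [(33,3),(0,3),(21,4),(0,0),(1,1)]⟩,⟨0,[]⟩⟩,.a ⟨true,0,⟨0,[(1,0)]⟩,⟨0,[(34,0)]⟩⟩ ⟨false,0,⟨2,[(10,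
  0),(19,0),(9,0)]⟩,⟨1,[(56,0),(0,0)]⟩⟩ ⟨true,0,⟨0,[(59,0)]⟩,⟨0,[]⟩⟩,.o ⟨false,0,⟨0,[(0,0)]⟩,⟨1,
  [(34,1),(10,0),(10,0)]⟩⟩]⟩) (.S ⟨1,4,[],[1,0,0,0,-1],[0,1,0,-1],(⟨0,[(35,0)]⟩,⟨0,[(36,0)]⟩),⟨0,
  [(3,0)]⟩,.k,(.r (-1) ⟨14,[(21,4),(11,2),(0,2),(22,1),(1,3)]⟩ ⟨0,[(52,0),(6,0)]⟩),⟨true,0,⟨0,[(54,
  0)]⟩,⟨0,[(55,0)]⟩⟩,⟨false,0,⟨0,[(34,0)]⟩,⟨1,[(1,1),(49,0),(5,0)]⟩⟩,⟨false,0,⟨0,[]⟩,⟨1,[(33,0),(0,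
  0),(22,0)]⟩⟩,⟨true,(-1),⟨0,[(0,0),(21,0),(30,0)]⟩,⟨87,[(1,24),(3,29),(0,12),(2,1),(0,25),(22,62),
  (17,5),(6,9)]⟩⟩,[.o ⟨false,0,⟨0,[(59,0)]⟩,⟨1,[(45,0),(11,0)]⟩⟩,.e ⟨false,1,⟨2,[(21,0),(11,0),(0,
  0)]⟩,⟨0,[(55,0)]⟩⟩ ⟨false,0,⟨0,[(0,0)]⟩,⟨0,[(33,0)]⟩⟩,.a ⟨true,0,⟨0,[(1,0)]⟩,⟨0,[(34,0)]⟩⟩ ⟨true,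
  0,⟨0,[(54,0)]⟩,⟨0,[(55,0)]⟩⟩ ⟨false,0,⟨0,[(34,0)]⟩,⟨1,[(1,1),(43,0),(11,0)]⟩⟩,.e ⟨false,1,⟨2,[(21,
  0),(11,0),(0,0)]⟩,⟨0,[(52,0)]⟩⟩ ⟨false,0,⟨0,[(0,0)]⟩,⟨11,[(1,0),(4,0),(3,1),(6,1),(4,3),(10,10),
  (23,5)]⟩⟩]⟩)) (.R ⟨1,false,false,false,[1,0,0,0,-1],[0,1],[1,1,1],(⟨0,[(34,0)]⟩,⟨0,[(35,0)]⟩),(⟨0,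
  [(46,0)]⟩,⟨0,[(45,0)]⟩),⟨0,[(2,0)]⟩,.k,.k,(.r (-1) ⟨14,[(20,4),(11,2),(0,2),(22,1),(1,3)]⟩ ⟨0,
  [(51,0),(6,0)]⟩),(.r (-1) ⟨14,[(20,4),(11,2),(0,2),(22,1),(1,3)]⟩ ⟨0,[(51,0),(6,0)]⟩),(.r (-2)
  ⟨14,[(20,9),(11,8),(0,8),(22,0),(1,1)]⟩ ⟨0,[(21,0),(32,0)]⟩),.k,⟨true,0,⟨0,[(53,0)]⟩,⟨1,[(9,1),(5,
  1),(33,0),(2,3),(3,2)]⟩⟩,⟨false,1,⟨0,[(0,0),(54,0)]⟩,⟨47,[(1,13),(0,27),(12,5),(3,1),(4,6),(4,3),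
  (1,13),(0,19),(16,6)]⟩⟩,⟨false,0,⟨2,[(9,0),(19,0),(9,0)]⟩,⟨0,[(52,0),(3,0)]⟩⟩,⟨true,0,⟨0,[(0,0),
  (53,0)]⟩,⟨25,[(1,7),(0,7),(1,2),(5,7),(3,3),(0,3),(2,0),(12,7),(0,9),(1,7),(14,0),(2,13)]⟩⟩,⟨true,
  (-1),⟨0,[(21,0),(30,0)]⟩,⟨14,[(20,4),(11,2),(0,2),(22,1),(1,3)]⟩⟩,⟨true,0,⟨0,[(0,0),(53,1)]⟩,⟨17,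
  [(1,5),(0,11),(1,3),(0,2),(4,4),(3,6),(0,1),(15,5),(0,5),(15,1),(3,5)]⟩⟩,[.a ⟨true,0,⟨0,[(54,0)]⟩,
  ⟨1,[(4,3),(0,1),(3,13),(5,9),(33,6),(2,29),(3,14)]⟩⟩ ⟨false,0,⟨0,[(58,0)]⟩,⟨1,[(55,0),(0,0)]⟩⟩
  ⟨true,0,⟨0,[(0,0),(53,0)]⟩,⟨31,[(1,9),(0,19),(2,3),(9,1),(0,7),(2,5),(4,4),(6,9),(0,11),(16,0)]⟩⟩,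
  .o ⟨false,1,⟨1,[(44,0),(9,1),(1,0)]⟩,⟨0,[(53,0)]⟩⟩,.o ⟨false,1,⟨0,[(32,0)]⟩,⟨0,[(0,0)]⟩⟩,.e
  ⟨false,0,⟨0,[]⟩,⟨1,[(32,0),(0,0),(22,0)]⟩⟩ ⟨false,1,⟨1,[(0,1),(53,1),(0,0),(0,0)]⟩,⟨31,[(1,9),(0,
  19),(2,3),(9,1),(0,7),(2,5),(4,4),(6,9),(0,11),(16,0)]⟩⟩]⟩)) (.Q [1,-1,0,0,0,0,0,0,1,0,0,1] (.p
  true [0,0,0,0,1] [] (⟨0,[(34,0)]⟩,⟨0,[(33,0)]⟩) .k 0 (⟨0,[]⟩,⟨0,[]⟩) .k .k) (.Q [-1,0,0,0,0,0,-1,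
  -1,-1,1,-1,-1] (.p false [0,0,1] [1,0,0,0,-1] (⟨0,[(42,0)]⟩,⟨0,[(41,0)]⟩) .k 2 (⟨0,[(34,0)]⟩,⟨0,
  [(35,0)]⟩) .k (.r 0 ⟨0,[(18,0)]⟩ ⟨7,[(8,2),(18,1),(4,4),(0,4),(20,2),(2,0)]⟩)) (.Q [0,0,0,0,0,0,0,
  0,1,-1,0,1] (.p true [0,0,0,0,1] [1] (⟨0,[(36,0)]⟩,⟨0,[(35,0)]⟩) .k 1 (⟨0,[]⟩,⟨0,[]⟩) .k .k) (.R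
  ⟨1,false,false,false,[1,0,0,0,-1],[0,1],[1,1,1],(⟨0,[(36,0)]⟩,⟨0,[(37,0)]⟩),(⟨0,[(48,0)]⟩,⟨0,[(47,
  0)]⟩),⟨0,[(4,0)]⟩,.k,.k,(.r (-1) ⟨14,[(22,4),(11,2),(0,2),(21,1),(1,3)]⟩ ⟨0,[(53,0),(6,0)]⟩),(.r
  (-1) ⟨14,[(22,4),(11,2),(0,2),(21,1),(1,3)]⟩ ⟨0,[(53,0),(6,0)]⟩),(.r (-2) ⟨14,[(22,9),(11,8),(0,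
  8),(21,0),(1,1)]⟩ ⟨0,[(23,0),(32,0)]⟩),.k,⟨true,0,⟨0,[(55,0)]⟩,⟨1,[(11,1),(5,1),(33,0),(2,3),(3,
  2)]⟩⟩,⟨false,1,⟨0,[(0,0),(56,0)]⟩,⟨10,[(1,4),(14,1),(3,2),(2,3),(10,5),(6,2),(9,2),(6,0)]⟩⟩,
  ⟨false,0,⟨2,[(11,0),(19,0),(9,0)]⟩,⟨0,[(54,0),(3,0)]⟩⟩,⟨true,0,⟨0,[(0,0),(55,0)]⟩,⟨1,[(1,1),(14,
  0),(22,0)]⟩⟩,⟨true,(-1),⟨0,[(23,0),(30,0)]⟩,⟨14,[(22,4),(11,2),(0,2),(21,1),(1,3)]⟩⟩,⟨true,0,⟨0,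
  [(0,0),(55,1)]⟩,⟨0,[(1,0),(14,0)]⟩⟩,[.a ⟨true,0,⟨0,[(56,0)]⟩,⟨1,[(6,3),(0,1),(3,13),(5,9),(33,6),
  (2,29),(3,14)]⟩⟩ ⟨false,0,⟨0,[(60,0)]⟩,⟨1,[(57,0),(0,0)]⟩⟩ ⟨true,0,⟨0,[(0,0),(55,0)]⟩,⟨7,[(1,5),
  (14,5),(6,3),(10,1),(16,0),(6,2)]⟩⟩,.o ⟨false,1,⟨1,[(46,0),(9,1),(1,0)]⟩,⟨0,[(55,0)]⟩⟩,.o ⟨false,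
  1,⟨0,[(34,0)]⟩,⟨0,[(0,0)]⟩⟩,.e ⟨false,0,⟨0,[]⟩,⟨1,[(3,0),(1,0),(52,0)]⟩⟩ ⟨false,1,⟨1,[(0,1),(55,
  1),(0,0),(0,0)]⟩,⟨7,[(1,5),(14,5),(6,3),(10,1),(16,0),(6,2)]⟩⟩]⟩) (.R ⟨1,false,false,false,[1,0,0,
  0,-1],[0,1],[0,0,0,-1],(⟨0,[(36,0)]⟩,⟨0,[(37,0)]⟩),(⟨0,[(48,0)]⟩,⟨0,[(47,0)]⟩),⟨0,[(4,0)]⟩,.k,.k,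
  (.r (-1) ⟨14,[(22,4),(11,2),(0,2),(21,1),(1,3)]⟩ ⟨0,[(53,0),(6,0)]⟩),(.r (-1) ⟨14,[(22,4),(11,2),
  (0,2),(21,1),(1,3)]⟩ ⟨0,[(53,0),(6,0)]⟩),(.r (-2) ⟨14,[(22,9),(11,8),(0,8),(21,0),(1,1)]⟩ ⟨0,[(23,
  0),(32,0)]⟩),.k,⟨true,1,⟨5,[(11,0),(9,0),(0,2),(19,0)]⟩,⟨0,[(23,0),(32,0)]⟩⟩,⟨false,1,⟨1,[(2,1),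
  (43,0),(7,1),(2,0)]⟩,⟨17,[(0,11),(3,2),(0,2),(5,0),(9,0),(1,2),(9,2),(2,2),(5,3)]⟩⟩,⟨false,1,⟨17,
  [(3,0),(1,0),(5,5),(10,3),(2,2),(5,2),(26,8)]⟩,⟨0,[(56,0)]⟩⟩,⟨true,0,⟨0,[(2,0),(21,0)]⟩,⟨0,[(0,0),
  (54,0)]⟩⟩,⟨true,0,⟨0,[]⟩,⟨0,[(60,0)]⟩⟩,⟨true,0,⟨0,[(2,0),(21,0),(31,0)]⟩,⟨0,[(1,0),(14,0)]⟩⟩,[.a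
  ⟨true,0,⟨0,[(56,0)]⟩,⟨0,[(0,6),(1,6),(3,1),(0,0),(3,6),(5,4),(36,14),(3,3)]⟩⟩ ⟨false,1,⟨2,[(3,0),
  (1,0),(16,0)]⟩,⟨0,[(56,0)]⟩⟩ ⟨true,0,⟨3,[(2,3),(20,0),(0,1),(27,0),(1,1),(1,0)]⟩,⟨2,[(0,2),(10,0),
  (9,0),(20,0)]⟩⟩,.o ⟨false,1,⟨1,[(46,0),(9,1),(1,0)]⟩,⟨0,[(55,0)]⟩⟩,.a ⟨true,0,⟨0,[(0,0)]⟩,⟨0,[(35,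
  0)]⟩⟩ ⟨false,1,⟨17,[(3,0),(1,0),(5,5),(10,3),(2,2),(5,2),(26,8)]⟩,⟨0,[(56,0)]⟩⟩ ⟨true,0,⟨3,[(2,3),
  (20,0),(0,1),(27,0),(1,1),(1,0)]⟩,⟨0,[(0,0),(54,0)]⟩⟩,.a ⟨true,0,⟨17,[(0,11),(3,2),(0,2),(5,0),(9,
  0),(1,2),(9,2),(2,2),(5,3)]⟩,⟨0,[(2,0),(51,0)]⟩⟩ ⟨true,1,⟨2,[(3,0),(1,0),(16,0)]⟩,⟨0,[(23,0),(30,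
  0)]⟩⟩ ⟨false,1,⟨1,[(2,1),(43,0),(9,1),(0,0)]⟩,⟨2,[(0,2),(10,0),(9,0),(20,0)]⟩⟩]⟩)) (.Q [-1,0,0,0,
  1,0,0,0,-1,0,0,-1] (.p false [0,0,0,0,1] [] (⟨0,[(36,0)]⟩,⟨0,[(35,0)]⟩) .k 0 (⟨0,[]⟩,⟨0,[]⟩) .k
  .k) (.Q [0,0,1,0,0,0,0,0,-1,1,0,-1] (.p false [0,0,0,0,1] [1] (⟨0,[(37,0)]⟩,⟨0,[(36,0)]⟩) .k 1
  (⟨0,[]⟩,⟨0,[]⟩) .k .k) (.R ⟨1,false,false,false,[1,0,0,0,-1],[1,-1],[1,1,1],(⟨0,[(37,0)]⟩,⟨0,[(38,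
  0)]⟩),(⟨0,[(48,0)]⟩,⟨0,[(49,0)]⟩),⟨0,[(5,0)]⟩,.k,.k,(.r (-1) ⟨11,[(1,2),(21,3),(12,2),(22,0),(1,
  1)]⟩ ⟨0,[(54,0),(6,0)]⟩),(.r 0 ⟨0,[(54,0),(6,0)]⟩ ⟨2,[(1,0),(21,0),(12,0)]⟩),.k,.k,⟨false,(-1),⟨0,
  [(24,0),(30,0)]⟩,⟨5,[(1,1),(21,1),(12,1),(21,2),(0,2)]⟩⟩,⟨true,(-1),⟨73,[(2,52),(0,6),(5,22),(3,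
  6),(0,8),(9,36),(9,8),(1,13),(9,26),(5,6)]⟩,⟨0,[(35,0)]⟩⟩,⟨false,0,⟨4,[(0,0),(11,1),(19,0),(3,
  0)]⟩,⟨0,[(55,0),(3,0)]⟩⟩,⟨false,0,⟨4,[(2,1),(0,2),(4,0),(13,0),(36,0)]⟩,⟨0,[(1,0),(55,0)]⟩⟩,⟨true,
  (-1),⟨0,[(24,0),(30,0)]⟩,⟨11,[(1,2),(21,3),(12,2),(22,0),(1,1)]⟩⟩,⟨false,0,⟨0,[(3,0)]⟩,⟨0,[(1,
  0)]⟩⟩,[.e ⟨false,0,⟨0,[(61,0)]⟩,⟨1,[(58,0),(0,0)]⟩⟩ ⟨false,0,⟨110,[(2,66),(0,25),(0,2),(2,30),(1,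
  31),(1,16),(2,2),(21,11),(1,5),(7,11),(5,15),(2,25)]⟩,⟨0,[(1,0),(55,0)]⟩⟩,.o ⟨false,1,⟨17,[(1,0),
  (10,5),(10,3),(2,2),(5,2),(3,0),(22,8)]⟩,⟨0,[(25,0)]⟩⟩,.o ⟨false,1,⟨0,[(35,0)]⟩,⟨152,[(2,101),(1,
  3),(4,2),(0,45),(0,1),(2,3),(9,4),(11,42),(1,7),(7,15),(6,51)]⟩⟩,.a ⟨true,0,⟨0,[(0,0)]⟩,⟨0,[(3,0),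
  (51,0)]⟩⟩ ⟨false,0,⟨0,[]⟩,⟨1,[(1,0),(34,0),(22,0)]⟩⟩ ⟨true,0,⟨110,[(2,66),(0,25),(0,2),(2,30),(1,
  31),(1,16),(2,2),(21,11),(1,5),(7,11),(5,15),(2,25)]⟩,⟨0,[(0,0),(24,0)]⟩⟩]⟩) (.R ⟨1,false,false,
  false,[1,0,0,0,-1],[1,-1],[0,1,0,-1],(⟨0,[(37,0)]⟩,⟨0,[(38,0)]⟩),(⟨0,[(48,0)]⟩,⟨0,[(49,0)]⟩),⟨0,
  [(5,0)]⟩,.k,.k,(.r (-1) ⟨11,[(1,2),(21,3),(12,2),(22,0),(1,1)]⟩ ⟨0,[(54,0),(6,0)]⟩),(.r 0 ⟨0,[(54,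
  0),(6,0)]⟩ ⟨2,[(1,0),(21,0),(12,0)]⟩),.k,.k,⟨false,0,⟨0,[(61,0)]⟩,⟨1,[(58,0),(0,0)]⟩⟩,⟨true,(-1),
  ⟨96,[(0,22),(1,29),(0,29),(9,29),(0,8),(9,59),(9,8),(1,13),(9,26),(5,6)]⟩,⟨0,[(35,0)]⟩⟩,⟨true,0,
  ⟨0,[(56,0)]⟩,⟨0,[(57,0)]⟩⟩,⟨false,0,⟨4,[(2,1),(0,2),(4,0),(13,0),(36,0)]⟩,⟨0,[(1,0),(55,0)]⟩⟩,
  ⟨false,0,⟨0,[]⟩,⟨1,[(1,0),(34,0),(22,0)]⟩⟩,⟨false,0,⟨0,[(3,0)]⟩,⟨0,[(1,0)]⟩⟩,[.a ⟨true,0,⟨1,[(7,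
  3),(0,1),(3,13),(5,9),(33,6),(2,29),(3,14)]⟩,⟨0,[(57,0)]⟩⟩ ⟨true,0,⟨0,[(56,0)]⟩,⟨0,[(54,0)]⟩⟩
  ⟨false,0,⟨131,[(0,86),(6,17),(3,8),(2,3),(7,28),(11,3),(1,44),(9,11),(5,26)]⟩,⟨0,[(1,0),(55,0)]⟩⟩,
  .o ⟨false,1,⟨17,[(1,0),(10,5),(10,3),(2,2),(5,2),(3,0),(22,8)]⟩,⟨0,[(25,0)]⟩⟩,.o ⟨false,1,⟨0,[(35,
  0)]⟩,⟨10,[(0,3),(1,1),(5,0),(15,1),(11,4),(10,0),(5,1)]⟩⟩,.o ⟨false,1,⟨11,[(1,10),(3,0),(0,0),(5,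
  4),(19,2),(1,0),(1,0),(0,0)]⟩,⟨0,[(0,0)]⟩⟩]⟩)) (.R ⟨2,true,false,true,[0,1],[0,0,0,0,1],[0,1],(⟨0,
  []⟩,⟨0,[]⟩),(⟨0,[(37,0)]⟩,⟨0,[(36,0)]⟩),⟨0,[]⟩,.k,.k,.k,(.r 0 ⟨0,[(53,0),(6,0)]⟩ ⟨2,[(3,0),(1,0),
  (16,0)]⟩),.k,.k,⟨false,1,⟨4,[(34,1),(0,1),(21,2),(1,0)]⟩,⟨0,[]⟩⟩,⟨true,(-1),⟨14,[(0,11),(10,0),(9,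
  0),(1,2),(11,2),(6,0),(16,5)]⟩,⟨0,[(34,0)]⟩⟩,⟨false,1,⟨2,[(3,0),(1,0),(16,0)]⟩,⟨0,[(53,0)]⟩⟩,
  ⟨true,(-1),⟨0,[(0,0),(54,0)]⟩,⟨0,[(34,0),(21,0)]⟩⟩,⟨true,0,⟨0,[(54,0)]⟩,⟨2,[(11,0),(19,0),(9,
  0)]⟩⟩,⟨false,(-1),⟨0,[(0,0)]⟩,⟨4,[(3,1),(1,1),(28,4),(23,2),(1,0)]⟩⟩,[]⟩))) (.Q [0,0,1,0,0,0,0,0,
  -1,0,0,-1] (.p false [0,0,0,0,1] [] (⟨0,[(35,0)]⟩,⟨0,[(34,0)]⟩) .k 0 (⟨0,[]⟩,⟨0,[]⟩) .k .k) (.S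
  ⟨1,0,[-1,1],[1,0,0,0,-1],[1,1,1],(⟨0,[(35,0)]⟩,⟨0,[(36,0)]⟩),⟨0,[(3,0)]⟩,.k,(.r (-1) ⟨14,[(21,4),
  (11,2),(0,2),(21,1),(1,3)]⟩ ⟨0,[(52,0),(6,0)]⟩),⟨false,0,⟨2,[(10,0),(19,0),(9,0)]⟩,⟨0,[(53,0),(3,
  0)]⟩⟩,⟨true,0,⟨0,[(59,0)]⟩,⟨0,[]⟩⟩,⟨true,(-1),⟨0,[(22,0),(30,0)]⟩,⟨14,[(21,4),(11,2),(0,2),(21,1),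
  (1,3)]⟩⟩,⟨false,0,⟨0,[(55,0)]⟩,⟨17,[(2,0),(1,0),(5,5),(10,3),(2,2),(5,2),(26,8)]⟩⟩,[.o ⟨false,0,
  ⟨0,[(1,0)]⟩,⟨1,[(34,1),(10,0),(11,0)]⟩⟩,.e ⟨false,0,⟨0,[]⟩,⟨1,[(2,0),(1,0),(51,0)]⟩⟩ ⟨false,1,⟨4,
  [(33,1),(0,1),(21,2),(1,0)]⟩,⟨0,[]⟩⟩,.a ⟨true,0,⟨1,[(1,1),(48,0),(6,0)]⟩,⟨0,[(34,0)]⟩⟩ ⟨false,0,
  ⟨2,[(10,0),(19,0),(9,0)]⟩,⟨1,[(56,0),(0,0)]⟩⟩ ⟨true,0,⟨0,[(59,0)]⟩,⟨0,[]⟩⟩,.o ⟨false,0,⟨0,[(0,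
  0)]⟩,⟨1,[(34,1),(10,0),(10,0)]⟩⟩]⟩) (.S ⟨1,4,[],[1,0,0,0,-1],[0,1,0,-1],(⟨0,[(35,0)]⟩,⟨0,[(36,
  0)]⟩),⟨0,[(3,0)]⟩,.k,(.r (-1) ⟨14,[(21,4),(11,2),(0,2),(21,1),(1,3)]⟩ ⟨0,[(52,0),(6,0)]⟩),⟨true,0,
  ⟨0,[(54,0)]⟩,⟨0,[(55,0)]⟩⟩,⟨false,0,⟨0,[(34,0)]⟩,⟨0,[(1,0),(55,0)]⟩⟩,⟨false,0,⟨0,[]⟩,⟨1,[(2,0),(1,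
  0),(52,0)]⟩⟩,⟨true,(-1),⟨0,[(0,0),(21,0),(30,0)]⟩,⟨123,[(1,49),(3,3),(3,1),(10,37),(12,73),(17,
  18),(5,24),(0,9)]⟩⟩,[.o ⟨false,0,⟨0,[(59,0)]⟩,⟨1,[(45,0),(11,0)]⟩⟩,.e ⟨false,1,⟨2,[(2,0),(1,0),
  (16,0)]⟩,⟨0,[(55,0)]⟩⟩ ⟨false,0,⟨0,[(0,0)]⟩,⟨0,[(33,0)]⟩⟩,.a ⟨true,0,⟨1,[(1,1),(48,0),(6,0)]⟩,⟨0,
  [(34,0)]⟩⟩ ⟨true,0,⟨0,[(54,0)]⟩,⟨0,[(55,0)]⟩⟩ ⟨false,0,⟨0,[(34,0)]⟩,⟨0,[(1,0),(55,0)]⟩⟩,.e ⟨false,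
  1,⟨2,[(2,0),(1,0),(16,0)]⟩,⟨0,[(52,0)]⟩⟩ ⟨false,0,⟨0,[(0,0)]⟩,⟨17,[(1,1),(4,0),(3,1),(6,1),(2,0),
  (1,6),(10,15),(23,9)]⟩⟩]⟩))))))))))

theorem ok29 : chk K t29 l28 = true := by decide +kernel


end Helper48.Y.Y11_c2_P3_m1n1
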