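import Pool.Agent.Helper48.Y.Y11_c2_P4_m1n1_q

set_option autoImplicit false
set_option linter.all false

namespace Helper48.Y.Y11_c2_P4_m1n1

open Helper25.KG Helper25.KW Helper55.KE Helper11.CT

noncomputable def t0 : Tre :=
  (.Q [0,0,2,0,-1,0,0,0,0,1] (.pp false [-1,1]) (.S ⟨1,4,[],[1,-1],[1,0,1],(⟨0,[(19,0)]⟩,⟨0,[(20,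
  0)]⟩),⟨0,[(4,0),(0,0)]⟩,.k,(.r (-2) ⟨0,[(25,1),(1,0),(0,0)]⟩ ⟨0,[(1,0),(28,0)]⟩),⟨true,(-1),⟨0,
  [(1,0),(23,0)]⟩,⟨0,[(25,0),(1,0)]⟩⟩,⟨false,0,⟨0,[(26,0)]⟩,⟨0,[(25,0),(2,0)]⟩⟩,⟨false,(-1),⟨0,[(1,
  0)]⟩,⟨0,[(25,1),(1,0),(0,0)]⟩⟩,⟨true,(-1),⟨0,[(1,0),(22,1)]⟩,⟨0,[(25,1),(2,0)]⟩⟩,[.o ⟨false,0,⟨0,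
  [(30,0)]⟩,⟨1,[(18,0),(9,0)]⟩⟩,.e ⟨false,1,⟨1,[(6,0),(0,0),(20,0)]⟩,⟨0,[(24,0)]⟩⟩ ⟨false,1,⟨0,[(27,
  0)]⟩,⟨1,[(13,0),(0,0)]⟩⟩,.o ⟨false,0,⟨1,[(13,0),(0,0)]⟩,⟨1,[(18,0),(8,0)]⟩⟩,.a ⟨true,(-1),⟨0,[(0,
  0)]⟩,⟨0,[(27,0)]⟩⟩ ⟨true,0,⟨0,[]⟩,⟨0,[(30,0)]⟩⟩ ⟨false,1,⟨0,[(27,0)]⟩,⟨1,[(0,1),(17,0),(9,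
  0)]⟩⟩]⟩) (.R ⟨2,true,false,true,[0,1],[1,-1],[1],(⟨0,[]⟩,⟨0,[]⟩),(⟨0,[(19,0)]⟩,⟨0,[(20,0)]⟩),⟨0,
  []⟩,.k,.k,.k,(.r 1 ⟨0,[(1,0),(28,0)]⟩ ⟨0,[(25,1),(1,0),(0,0)]⟩),.k,.k,⟨true,0,⟨0,[(23,0)]⟩,⟨0,
  [(25,0)]⟩⟩,⟨false,0,⟨1,[(3,0),(6,0),(2,2)]⟩,⟨0,[(0,0)]⟩⟩,⟨true,1,⟨1,[(25,1),(1,0),(0,0)]⟩,⟨0,[(1,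
  0),(22,0),(0,0)]⟩⟩,⟨false,1,⟨0,[(10,0),(2,0),(11,1),(2,0)]⟩,⟨0,[(0,0),(0,0)]⟩⟩,⟨false,1,⟨1,[(27,
  0),(0,0)]⟩,⟨1,[(13,0),(0,0)]⟩⟩,⟨true,0,⟨0,[(10,0),(2,0),(11,0)]⟩,⟨0,[(0,0),(0,0),(23,0)]⟩⟩,[]⟩))

theorem ok0 : chk K t0 l1 = true := by decide +kernel

noncomputable def t1 : Tre :=
  (.R ⟨2,true,false,true,[0,1],[0,0,1],[1,1,1],(⟨0,[]⟩,⟨0,[]⟩),(⟨0,[(16,0)]⟩,⟨0,[(15,0)]⟩),⟨0,[]⟩,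
  .k,.k,.k,.k,.k,.k,⟨false,0,⟨0,[(0,0),(24,0)]⟩,⟨1,[(10,1),(0,1),(6,0),(9,0)]⟩⟩,⟨true,0,⟨0,[(13,
  0)]⟩,⟨0,[(2,0)]⟩⟩,⟨true,0,⟨0,[(25,0)]⟩,⟨0,[(26,0)]⟩⟩,⟨false,1,⟨0,[(11,0),(13,0),(2,0)]⟩,⟨0,[(0,0),
  (1,0)]⟩⟩,⟨false,0,⟨0,[]⟩,⟨1,[(6,0),(0,0),(20,0)]⟩⟩,⟨true,0,⟨0,[(11,0)]⟩,⟨0,[(0,0),(1,0),(22,0)]⟩⟩,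
  []⟩)

theorem ok1 : chk K t1 l2 = true := by decide +kernel

noncomputable def t2 : Tre :=
  (.I [0,-1,-1,0,1,0,0,1] (.S ⟨1,0,[0,0,1,1,0,0,0,-1],[1,1,-1],[1,1,1,0,0,0,0,-1],(⟨0,[(18,0),(4,
  0)]⟩,⟨0,[(8,0)]⟩),⟨0,[(18,0)]⟩,.k,.k,⟨true,0,⟨0,[(28,0)]⟩,⟨0,[(29,0)]⟩⟩,⟨false,1,⟨1,[(9,0),(0,0),
  (20,0)]⟩,⟨0,[]⟩⟩,⟨false,0,⟨0,[]⟩,⟨1,[(9,0),(0,0),(20,0)]⟩⟩,⟨true,0,⟨0,[(29,0)]⟩,⟨0,[(28,0)]⟩⟩,[.o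
  ⟨false,0,⟨0,[(1,0),(3,0),(23,0)]⟩,⟨1,[(2,1),(18,0),(9,0)]⟩⟩,.a ⟨true,0,⟨0,[(1,0),(11,0),(12,0)]⟩,
  ⟨0,[(2,0)]⟩⟩ ⟨false,0,⟨0,[(1,0)]⟩,⟨15,[(0,11),(5,1),(2,2),(0,2),(3,3),(6,0),(2,3)]⟩⟩ ⟨true,0,⟨0,
  [(1,0),(24,0)]⟩,⟨0,[(3,0)]⟩⟩,.e ⟨false,0,⟨1,[(1,1),(14,0),(0,0)]⟩,⟨0,[(0,0)]⟩⟩ ⟨false,0,⟨0,[(1,0),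
  (24,0)]⟩,⟨7,[(0,3),(2,3),(0,1),(4,0),(0,0),(20,0)]⟩⟩,.o ⟨false,0,⟨0,[(5,0)]⟩,⟨1,[(16,1),(4,0),(8,
  0)]⟩⟩]⟩) (.Q [0,-1,0,2,0,0,-1,-1,0,0,-1] (.p false [0,0,1] [] (⟨0,[(19,0)]⟩,⟨0,[(18,0)]⟩) .k 0
  (⟨0,[]⟩,⟨0,[]⟩) .k .k) (.R ⟨1,true,false,false,[0,0,1],[0,1],[0,0,0,0,0,0,0,1],(⟨0,[(20,0)]⟩,⟨0,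
  [(19,0)]⟩),(⟨0,[(24,0)]⟩,⟨0,[(23,0)]⟩),⟨0,[(9,0)]⟩,.k,.k,.k,.k,(.r (-2) ⟨7,[(4,3),(0,5),(1,1),(7,
  3),(6,0),(8,1),(0,6)]⟩ ⟨1,[(0,0),(0,1),(13,0),(11,1)]⟩),.k,⟨true,1,⟨1,[(4,1),(26,0),(0,0)]⟩,⟨0,
  [(1,0),(25,0)]⟩⟩,⟨false,1,⟨1,[(14,1),(7,0),(8,0)]⟩,⟨0,[(17,0)]⟩⟩,⟨false,1,⟨1,[(10,0),(0,0),(20,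
  0)]⟩,⟨0,[]⟩⟩,⟨true,0,⟨1,[(0,0),(15,0)]⟩,⟨0,[(3,0)]⟩⟩,⟨true,0,⟨0,[(30,0)]⟩,⟨0,[(29,0)]⟩⟩,⟨false,0,
  ⟨0,[(0,0)]⟩,⟨0,[(3,0),(25,0),(2,0)]⟩⟩,[]⟩) (.I [0,0,-2,-2,1] (.R ⟨1,false,false,true,[1,-1],[1,0,
  -1],[0,1,-1,-1],(⟨0,[(24,0)]⟩,⟨0,[(25,0)]⟩),(⟨0,[(20,0)]⟩,⟨0,[(21,0)]⟩),⟨0,[(9,0),(0,0)]⟩,.k,.k,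
  (.r (-1) ⟨0,[(0,0)]⟩ ⟨0,[(28,1),(6,1)]⟩),.k,(.r (-2) ⟨7,[(5,3),(0,5),(1,1),(7,3),(6,0),(8,1),(0,
  6)]⟩ ⟨0,[(2,0),(25,0),(2,0)]⟩),.k,⟨true,1,⟨1,[(5,1),(26,0),(0,0)]⟩,⟨0,[(2,0),(25,0)]⟩⟩,⟨false,1,
  ⟨1,[(15,1),(7,0),(8,0)]⟩,⟨0,[(18,0)]⟩⟩,⟨true,0,⟨0,[(35,0)]⟩,⟨0,[]⟩⟩,⟨false,0,⟨0,[(3,0),(3,0),(23,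
  0)]⟩,⟨1,[(1,0),(14,0),(16,1)]⟩⟩,⟨false,0,⟨0,[(31,0)]⟩,⟨0,[(30,0),(2,0)]⟩⟩,⟨false,0,⟨0,[(3,0),(3,
  0),(23,1)]⟩,⟨0,[(1,0),(31,0)]⟩⟩,[.a ⟨true,(-1),⟨0,[(2,0),(12,0)]⟩,⟨0,[(16,0),(16,0)]⟩⟩ ⟨false,1,
  ⟨7,[(6,3),(4,0),(0,0),(13,1),(5,2)]⟩,⟨0,[(28,0)]⟩⟩ ⟨true,0,⟨1,[(2,0),(0,0),(11,1),(7,0),(5,0)]⟩,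
  ⟨0,[(1,0),(26,1)]⟩⟩,.o ⟨false,0,⟨0,[(3,0),(3,0)]⟩,⟨1,[(16,1),(6,0),(9,0)]⟩⟩,.o ⟨false,0,⟨1,[(18,
  0),(0,0)]⟩,⟨1,[(23,0),(8,0)]⟩⟩,.e ⟨false,1,⟨1,[(0,0),(31,0)]⟩,⟨1,[(18,0),(0,0),(8,1)]⟩⟩ ⟨false,1,
  ⟨1,[(3,1),(11,1),(7,0),(8,0)]⟩,⟨0,[(1,0),(26,1)]⟩⟩]⟩) (.Q [0,0,-1,0,1,0,1,0,0,-1,1] (.p true [0,0,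
  1] [1] (⟨0,[(21,0)]⟩,⟨0,[(20,0)]⟩) .k 1 (⟨0,[]⟩,⟨0,[]⟩) .k .k) (.S ⟨1,0,[0,0,0,0,0,0,0,-1],[1,0,
  -1],[0,1,0,0,0,0,0,-1],(⟨0,[(21,0)]⟩,⟨0,[(22,0)]⟩),⟨0,[(10,0)]⟩,.k,.k,⟨true,0,⟨0,[(36,0)]⟩,⟨0,
  []⟩⟩,⟨false,1,⟨1,[(12,0),(0,0),(20,0)]⟩,⟨0,[]⟩⟩,⟨false,0,⟨0,[(32,0)]⟩,⟨0,[(31,0),(2,0)]⟩⟩,⟨true,0,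
  ⟨0,[(32,0)]⟩,⟨0,[(31,0)]⟩⟩,[.o ⟨false,0,⟨0,[(4,0),(3,0)]⟩,⟨1,[(17,1),(6,0),(9,0)]⟩⟩,.a ⟨true,0,⟨0,
  [(3,0),(12,0),(17,0)]⟩,⟨0,[(17,0)]⟩⟩ ⟨true,0,⟨0,[(4,0)]⟩,⟨1,[(1,0),(4,1),(27,0)]⟩⟩ ⟨false,1,⟨1,
  [(4,1),(28,0),(0,0)]⟩,⟨3,[(1,0),(4,1),(9,1),(0,1),(6,0)]⟩⟩,.o ⟨false,0,⟨0,[(8,0)]⟩,⟨3,[(0,1),(11,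
  0),(0,0),(5,1),(4,0)]⟩⟩,.o ⟨false,0,⟨0,[(20,0)]⟩,⟨0,[(0,0)]⟩⟩]⟩) (.I [0,0,0,1,0,0,0,1] (.R ⟨1,
  false,false,true,[1,0,-1],[1,-1],[0,1],(⟨0,[(22,0)]⟩,⟨0,[(23,0)]⟩),(⟨0,[(26,0)]⟩,⟨0,[(27,0)]⟩),⟨0,
  [(11,0)]⟩,.k,.k,.k,.k,.k,.k,⟨false,0,⟨0,[(33,0)]⟩,⟨3,[(8,1),(4,0),(0,0),(20,0)]⟩⟩,⟨true,0,⟨0,[(20,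
  0)]⟩,⟨0,[(9,0)]⟩⟩,⟨true,0,⟨13,[(0,3),(1,0),(4,5),(2,1),(7,3),(6,0),(2,1)]⟩,⟨0,[(5,0)]⟩⟩,⟨true,0,
  ⟨0,[(6,0)]⟩,⟨1,[(2,0),(2,1),(11,1),(7,0)]⟩⟩,⟨false,0,⟨0,[(0,0)]⟩,⟨0,[(5,0),(26,0),(2,0)]⟩⟩,⟨true,
  0,⟨0,[(18,0)]⟩,⟨0,[(5,0),(3,0)]⟩⟩,[.o ⟨false,0,⟨0,[(32,0)]⟩,⟨1,[(2,0),(22,0),(8,0),(0,0)]⟩⟩,.e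
  ⟨false,1,⟨1,[(13,0),(0,0),(19,0)]⟩,⟨0,[]⟩⟩ ⟨false,1,⟨3,[(3,1),(1,1),(14,1),(13,2),(0,0)]⟩,⟨1,[(2,
  0),(14,1),(7,0)]⟩⟩,.o ⟨false,0,⟨0,[(9,0)]⟩,⟨1,[(20,1),(4,0),(8,0)]⟩⟩,.a ⟨true,(-1),⟨0,[(1,0)]⟩,⟨0,
  [(20,0),(13,0)]⟩⟩ ⟨true,0,⟨0,[(31,0)]⟩,⟨1,[(20,0),(0,0)]⟩⟩ ⟨false,1,⟨3,[(3,1),(1,1),(14,1),(13,2),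
  (0,0)]⟩,⟨1,[(2,0),(6,1),(25,0)]⟩⟩]⟩) (.I [0,0,-2,-1,1] (.I [0,0,2,0,-1,2] (.S ⟨1,0,[0,1,-1,-1],[1,
  -1],[1,0,1],(⟨0,[(28,0)]⟩,⟨0,[(29,0)]⟩),⟨0,[(13,0),(0,0)]⟩,.k,(.x 1 ⟨0,[(0,0)]⟩ ⟨0,[(27,0),(0,1),
  (7,0)]⟩),⟨false,0,⟨1,[(4,0),(17,0),(0,0),(13,0)]⟩,⟨0,[(1,0)]⟩⟩,⟨true,0,⟨0,[(39,0)]⟩,⟨0,[]⟩⟩,⟨true,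
  (-1),⟨0,[(4,0)]⟩,⟨0,[(10,0)]⟩⟩,⟨false,0,⟨0,[(35,0)]⟩,⟨13,[(2,1),(2,1),(4,3),(11,2),(0,4),(13,
  9)]⟩⟩,[.o ⟨false,0,⟨0,[(34,0)]⟩,⟨1,[(4,0),(22,0),(8,0),(0,0)]⟩⟩,.e ⟨false,1,⟨1,[(15,0),(0,0),(20,
  0)]⟩,⟨0,[(33,0)]⟩⟩ ⟨false,1,⟨0,[(1,0)]⟩,⟨1,[(4,0),(10,0),(0,0)]⟩⟩,.o ⟨false,0,⟨1,[(22,0),(0,0)]⟩,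
  ⟨1,[(27,0),(8,0)]⟩⟩,.a ⟨true,(-1),⟨0,[(3,0),(18,0)]⟩,⟨0,[(36,0)]⟩⟩ ⟨true,0,⟨0,[]⟩,⟨0,[(39,0)]⟩⟩
  ⟨false,1,⟨0,[(1,0)]⟩,⟨1,[(4,0),(17,0),(0,0),(13,0)]⟩⟩]⟩) (.I [0,0,2,2,-1] (.S ⟨1,0,[0,1,-1,-1],[1,
  -1],[1,0,1],(⟨0,[(29,0)]⟩,⟨0,[(30,0)]⟩),⟨0,[(14,0),(0,0)]⟩,.k,(.r (-2) ⟨1,[(11,1),(4,0),(0,0),(20,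
  0)]⟩ ⟨0,[(0,0)]⟩),⟨false,0,⟨1,[(5,0),(17,0),(0,0),(13,0)]⟩,⟨0,[(2,0)]⟩⟩,⟨true,0,⟨0,[(40,0)]⟩,⟨0,
  []⟩⟩,⟨true,(-1),⟨0,[(5,0)]⟩,⟨0,[(11,0)]⟩⟩,⟨false,0,⟨0,[(36,0)]⟩,⟨13,[(3,1),(2,1),(4,3),(11,2),(0,
  4),(13,9)]⟩⟩,[.o ⟨false,0,⟨0,[(35,0)]⟩,⟨1,[(5,0),(22,0),(8,0),(0,0)]⟩⟩,.e ⟨false,1,⟨1,[(16,0),(0,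
  0),(20,0)]⟩,⟨0,[(34,0)]⟩⟩ ⟨false,1,⟨0,[(2,0)]⟩,⟨1,[(5,0),(10,0),(0,0)]⟩⟩,.o ⟨false,0,⟨1,[(23,0),
  (0,0)]⟩,⟨1,[(28,0),(8,0)]⟩⟩,.a ⟨true,(-1),⟨0,[(4,0),(18,0)]⟩,⟨0,[(37,0)]⟩⟩ ⟨true,0,⟨0,[]⟩,⟨0,[(40,
  0)]⟩⟩ ⟨false,1,⟨0,[(2,0)]⟩,⟨1,[(5,0),(17,0),(0,0),(13,0)]⟩⟩]⟩) (.I [0,0,-2,0,1,-2] (.N [0,2] 1 ⟨0,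
  [(6,0)]⟩ ⟨0,[(1,0)]⟩ (.x (-1) ⟨0,[(0,0)]⟩ ⟨0,[(24,0),(0,0),(5,1)]⟩)) (.Q [0,0,1,0,0,0,0,0,-1,1,0,
  -1] (.p false [0,0,0,0,1] [1] (⟨0,[(20,0)]⟩,⟨0,[(19,0)]⟩) .k 1 (⟨0,[]⟩,⟨0,[]⟩) .k .k) (.Q [0,0,0,
  0,0,-1,0,0,0,1,0,-1] (.ed true [0,1,0,0,1] .k) (.Q [0,0,-1,0,0,0,0,0,1,0,0,1] (.p true [0,0,0,0,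
  1] [] (⟨0,[(22,0)]⟩,⟨0,[(21,0)]⟩) .k 0 (⟨0,[]⟩,⟨0,[]⟩) .k .k) (.Q [0,0,1,0,-1,0,0,0,1,0,0,1] (.p
  true [0,0,0,0,1] [] (⟨0,[(23,0)]⟩,⟨0,[(22,0)]⟩) .k 0 (⟨0,[]⟩,⟨0,[]⟩) .k .k) (.R ⟨1,false,false,
  false,[1,0,0,0,-1],[1,-1],[1,0,0,-1],(⟨0,[(23,0)]⟩,⟨0,[(24,0)]⟩),(⟨0,[(34,0)]⟩,⟨0,[(35,0)]⟩),⟨0,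
  [(2,0)]⟩,.k,.k,(.r (-1) ⟨9,[(16,4),(4,1),(0,1),(20,2),(1,0)]⟩ ⟨1,[(10,0),(10,0),(0,0)]⟩),(.r 0 ⟨9,
  [(10,4),(10,2),(0,2),(20,1),(1,3)]⟩ ⟨3,[(16,1),(4,0),(0,0),(20,0)]⟩),.k,.k,⟨false,0,⟨0,[]⟩,⟨1,
  [(21,0),(0,0),(19,0)]⟩⟩,⟨true,(-1),⟨0,[(0,0)]⟩,⟨0,[(21,0)]⟩⟩,⟨false,1,⟨13,[(8,1),(2,1),(4,3),(11,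
  2),(0,4),(13,9)]⟩,⟨1,[(6,0),(3,0),(21,1)]⟩⟩,⟨false,0,⟨1,[(0,1),(4,0),(37,0)]⟩,⟨0,[(21,0),(19,
  0)]⟩⟩,⟨true,0,⟨0,[]⟩,⟨0,[(45,0)]⟩⟩,⟨false,0,⟨1,[(0,0),(0,0),(41,0)]⟩,⟨8,[(3,1),(2,0),(14,6),(10,
  1),(4,0)]⟩⟩,[.e ⟨false,1,⟨3,[(16,1),(4,0),(0,0),(20,0)]⟩,⟨0,[(41,0)]⟩⟩ ⟨false,0,⟨1,[(0,0),(0,0),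
  (3,0)]⟩,⟨1,[(10,0),(10,1),(20,0)]⟩⟩,.o ⟨false,1,⟨13,[(8,1),(2,1),(4,3),(11,2),(0,4),(13,9)]⟩,⟨1,
  [(10,0),(22,0),(5,1)]⟩⟩,.o ⟨false,1,⟨0,[(21,0)]⟩,⟨1,[(0,0),(0,0),(31,0)]⟩⟩,.a ⟨true,0,⟨0,[(3,0)]⟩,
  ⟨0,[(1,0)]⟩⟩ ⟨false,1,⟨1,[(5,0),(37,0)]⟩,⟨1,[(10,0),(10,0),(0,0)]⟩⟩ ⟨true,0,⟨1,[(0,0),(0,0),(3,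
  0)]⟩,⟨1,[(3,1),(6,0),(22,0),(5,1)]⟩⟩]⟩) (.Q [0,0,0,0,0,0,0,0,1,-1,0,1] (.p true [0,0,0,0,1] [1]
  (⟨0,[(24,0)]⟩,⟨0,[(23,0)]⟩) .k 1 (⟨0,[]⟩,⟨0,[]⟩) .k .k) (.R ⟨1,false,false,false,[1,0,0,0,-1],[0,
  1],[0,0,2,1],(⟨0,[(24,0)]⟩,⟨0,[(25,0)]⟩),(⟨0,[(36,0)]⟩,⟨0,[(35,0)]⟩),⟨0,[(3,0)]⟩,.k,.k,(.r (-1)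
  ⟨9,[(17,4),(4,1),(0,1),(20,2),(1,0)]⟩ ⟨1,[(11,0),(10,0),(0,0)]⟩),(.r (-1) ⟨9,[(17,4),(4,1),(0,1),
  (20,2),(1,0)]⟩ ⟨1,[(11,0),(10,0),(0,0)]⟩),(.r (-2) ⟨1,[(17,1),(4,0),(0,0),(20,0)]⟩ ⟨0,[(11,0)]⟩),
  .k,⟨true,0,⟨1,[(29,0),(0,0)]⟩,⟨0,[]⟩⟩,⟨false,1,⟨1,[(2,1),(31,0),(8,0)]⟩,⟨0,[(4,0)]⟩⟩,⟨false,0,⟨1,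
  [(11,0),(17,0),(0,0),(13,0)]⟩,⟨0,[(8,0)]⟩⟩,⟨true,0,⟨1,[(2,1),(8,0),(22,0)]⟩,⟨9,[(1,2),(2,6),(1,1),
  (0,0),(2,2),(1,2),(0,2),(19,1),(6,3)]⟩⟩,⟨true,(-1),⟨0,[(11,0)]⟩,⟨0,[(17,0)]⟩⟩,⟨true,0,⟨1,[(2,1),
  (8,1),(22,0),(8,0)]⟩,⟨5,[(1,3),(2,1),(1,0),(0,0),(1,1),(0,3),(1,3),(0,1),(19,1)]⟩⟩,[.a ⟨true,0,⟨0,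
  [(42,0)]⟩,⟨1,[(5,0),(0,0),(28,1)]⟩⟩ ⟨false,0,⟨1,[(11,0),(10,0),(0,0)]⟩,⟨1,[(6,0),(36,0)]⟩⟩ ⟨true,
  0,⟨1,[(2,1),(8,0),(22,0)]⟩,⟨3,[(1,1),(2,1),(4,1),(0,1),(0,0),(0,1),(31,0)]⟩⟩,.o ⟨false,1,⟨1,[(11,
  0),(22,0),(8,0),(0,0)]⟩,⟨0,[(41,0)]⟩⟩,.o ⟨false,1,⟨0,[(22,0)]⟩,⟨0,[(0,0)]⟩⟩,.e ⟨false,0,⟨1,[(11,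
  0),(32,0)]⟩,⟨3,[(17,1),(4,0),(0,0),(20,0)]⟩⟩ ⟨false,1,⟨1,[(2,1),(8,0),(22,0),(8,0),(0,0)]⟩,⟨3,[(1,
  1),(2,1),(4,1),(0,1),(0,0),(0,1),(31,0)]⟩⟩]⟩) (.R ⟨1,false,false,true,[1,0,0,0,-1],[1,-1],[0,1,0,
  -1],(⟨0,[(24,0)]⟩,⟨0,[(25,0)]⟩),(⟨0,[(35,0)]⟩,⟨0,[(36,0)]⟩),⟨0,[(3,0)]⟩,.k,.k,(.r (-1) ⟨9,[(17,4),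
  (4,1),(0,1),(20,2),(1,0)]⟩ ⟨1,[(11,0),(10,0),(0,0)]⟩),(.r 0 ⟨9,[(11,4),(10,2),(0,2),(20,1),(1,
  3)]⟩ ⟨3,[(17,1),(4,0),(0,0),(20,0)]⟩),.k,.k,⟨true,0,⟨1,[(29,0),(0,0)]⟩,⟨0,[]⟩⟩,⟨false,0,⟨0,[(23,
  0)]⟩,⟨0,[(1,0)]⟩⟩,⟨true,0,⟨0,[(41,0)]⟩,⟨0,[(42,0)]⟩⟩,⟨false,0,⟨5,[(2,1),(6,1),(0,1),(1,1),(10,3),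
  (10,0),(9,0)]⟩,⟨9,[(0,1),(0,7),(9,3),(26,0),(3,1),(1,4)]⟩⟩,⟨false,0,⟨0,[]⟩,⟨1,[(22,0),(0,0),(20,
  0)]⟩⟩,⟨false,0,⟨0,[(23,0)]⟩,⟨5,[(0,5),(33,1),(3,0),(5,2)]⟩⟩,[.o ⟨false,0,⟨0,[(41,0)]⟩,⟨1,[(11,0),
  (22,0),(8,0),(0,0)]⟩⟩,.a ⟨true,0,⟨1,[(5,0),(0,0),(28,1)]⟩,⟨0,[(42,0)]⟩⟩ ⟨false,1,⟨3,[(17,1),(4,0),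
  (0,0),(20,0)]⟩,⟨1,[(11,0),(31,0)]⟩⟩ ⟨true,0,⟨5,[(2,1),(6,1),(0,1),(1,1),(10,3),(10,0),(9,0)]⟩,⟨1,
  [(0,1),(10,0),(22,0)]⟩⟩,.a ⟨true,0,⟨0,[(0,0)]⟩,⟨0,[(23,0)]⟩⟩ ⟨true,0,⟨0,[(41,0)]⟩,⟨1,[(11,0),(31,
  0)]⟩⟩ ⟨false,0,⟨5,[(2,1),(6,1),(0,1),(1,1),(10,3),(10,0),(9,0)]⟩,⟨1,[(1,1),(9,0),(32,0)]⟩⟩,.a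
  ⟨true,0,⟨0,[(4,0)]⟩,⟨0,[(2,0)]⟩⟩ ⟨false,1,⟨3,[(17,1),(4,0),(0,0),(20,0)]⟩,⟨0,[(39,0)]⟩⟩ ⟨true,0,
  ⟨0,[(2,0),(38,0)]⟩,⟨1,[(0,1),(10,0),(22,0)]⟩⟩]⟩))) (.Q [0,0,0,0,0,0,0,0,-1,1,0,-1] (.p false [0,0,
  0,0,1] [1] (⟨0,[(23,0)]⟩,⟨0,[(22,0)]⟩) .k 1 (⟨0,[]⟩,⟨0,[]⟩) .k .k) (.S ⟨1,0,[-1,1],[1,0,0,0,-1],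
  [0,0,0,-1],(⟨0,[(23,0)]⟩,⟨0,[(24,0)]⟩),⟨0,[(2,0)]⟩,.k,(.r (-1) ⟨9,[(16,4),(4,1),(0,1),(20,2),(1,
  0)]⟩ ⟨1,[(10,0),(10,0),(0,0)]⟩),⟨false,1,⟨13,[(8,1),(2,1),(4,3),(11,2),(0,4),(13,9)]⟩,⟨0,[(41,
  0)]⟩⟩,⟨true,0,⟨0,[(45,0)]⟩,⟨0,[]⟩⟩,⟨true,0,⟨0,[]⟩,⟨0,[(45,0)]⟩⟩,⟨false,0,⟨0,[(41,0)]⟩,⟨13,[(8,1),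
  (2,1),(4,3),(11,2),(0,4),(13,9)]⟩⟩,[.o ⟨false,0,⟨0,[(1,0),(37,0)]⟩,⟨1,[(22,1),(10,0),(9,0)]⟩⟩,.e
  ⟨false,1,⟨1,[(5,0),(37,0)]⟩,⟨3,[(10,1),(10,0),(0,0),(13,1),(5,0)]⟩⟩ ⟨false,1,⟨9,[(21,3),(0,3),(19,
  4),(0,0),(1,1)]⟩,⟨0,[]⟩⟩,.a ⟨true,0,⟨0,[(0,0)]⟩,⟨0,[(22,0)]⟩⟩ ⟨false,1,⟨13,[(8,1),(2,1),(4,3),(11,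
  2),(0,4),(13,9)]⟩,⟨1,[(10,0),(31,0)]⟩⟩ ⟨true,0,⟨0,[(45,0)]⟩,⟨0,[]⟩⟩,.o ⟨false,0,⟨0,[(1,0)]⟩,⟨1,
  [(22,1),(10,0),(8,0)]⟩⟩]⟩) (.R ⟨1,false,false,false,[1,0,0,0,-1],[0,1],[0,0,0,-1],(⟨0,[(23,0)]⟩,
  ⟨0,[(24,0)]⟩),(⟨0,[(35,0)]⟩,⟨0,[(34,0)]⟩),⟨0,[(2,0)]⟩,.k,.k,(.r (-1) ⟨9,[(16,4),(4,1),(0,1),(20,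
  2),(1,0)]⟩ ⟨1,[(10,0),(10,0),(0,0)]⟩),(.r (-1) ⟨9,[(16,4),(4,1),(0,1),(20,2),(1,0)]⟩ ⟨1,[(10,0),
  (10,0),(0,0)]⟩),(.r (-2) ⟨1,[(16,1),(4,0),(0,0),(20,0)]⟩ ⟨0,[(10,0)]⟩),.k,⟨true,1,⟨7,[(5,0),(2,1),
  (2,1),(4,3),(12,1),(13,2)]⟩,⟨0,[(10,0)]⟩⟩,⟨false,1,⟨0,[(0,0),(41,0)]⟩,⟨0,[(3,0)]⟩⟩,⟨false,1,⟨13,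
  [(8,1),(2,1),(4,3),(11,2),(0,4),(13,9)]⟩,⟨0,[(41,0)]⟩⟩,⟨true,0,⟨1,[(0,1),(9,0),(31,0)]⟩,⟨15,[(1,
  2),(1,12),(1,4),(0,0),(2,2),(1,2),(0,2),(19,1),(6,9)]⟩⟩,⟨true,0,⟨0,[]⟩,⟨0,[(45,0)]⟩⟩,⟨true,0,⟨0,
  [(0,0),(9,0),(31,0)]⟩,⟨7,[(1,2),(1,4),(1,4),(0,0),(2,2),(1,2),(0,2),(19,1),(6,1)]⟩⟩,[.a ⟨true,0,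
  ⟨0,[(41,0)]⟩,⟨1,[(4,0),(0,0),(28,1)]⟩⟩ ⟨false,1,⟨3,[(16,1),(4,0),(0,0),(20,0)]⟩,⟨1,[(10,0),(31,
  0)]⟩⟩ ⟨true,0,⟨1,[(0,1),(9,0),(31,0)]⟩,⟨7,[(1,1),(1,5),(1,0),(2,1),(0,1),(1,1),(31,0)]⟩⟩,.o
  ⟨false,1,⟨1,[(10,0),(22,0),(8,0),(0,0)]⟩,⟨0,[(40,0)]⟩⟩,.o ⟨false,1,⟨0,[(21,0)]⟩,⟨0,[(0,0)]⟩⟩,.o
  ⟨false,0,⟨0,[(1,0)]⟩,⟨1,[(22,1),(10,0),(8,0)]⟩⟩]⟩))) (.Q [0,0,2,0,-1,0,0,0,-1,1,0,-1] (.p false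
  [0,0,0,0,1] [1] (⟨0,[(22,0)]⟩,⟨0,[(21,0)]⟩) .k 1 (⟨0,[]⟩,⟨0,[]⟩) .k .k) (.R ⟨0,false,false,true,
  [1,0,0,0,-1],[0,1],[0,1,1,1],(⟨0,[(22,0)]⟩,⟨0,[(23,0)]⟩),(⟨0,[(34,0)]⟩,⟨0,[(33,0)]⟩),⟨0,[(1,0)]⟩,
  .k,.k,(.r (-1) ⟨9,[(15,4),(4,1),(0,1),(20,2),(1,0)]⟩ ⟨1,[(9,0),(10,0),(0,0)]⟩),(.r (-1) ⟨9,[(15,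
  4),(4,1),(0,1),(20,2),(1,0)]⟩ ⟨1,[(9,0),(10,0),(0,0)]⟩),.k,.k,⟨false,1,⟨1,[(20,0),(0,0),(19,0)]⟩,
  ⟨0,[]⟩⟩,⟨true,1,⟨1,[(21,1),(10,0),(8,0)]⟩,⟨0,[(0,0)]⟩⟩,⟨false,0,⟨1,[(9,0),(10,0),(0,0)]⟩,⟨1,[(4,
  0),(37,0)]⟩⟩,⟨true,0,⟨1,[(9,0),(11,1),(10,0),(5,1)]⟩,⟨0,[(0,0),(5,0)]⟩⟩,⟨false,0,⟨0,[]⟩,⟨0,[]⟩⟩,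
  ⟨false,0,⟨0,[]⟩,⟨0,[]⟩⟩,[.o ⟨false,0,⟨1,[(9,0),(22,0),(5,1)]⟩,⟨13,[(7,1),(2,1),(4,3),(11,2),(0,4),
  (13,9)]⟩⟩,.e ⟨false,0,⟨0,[(40,0)]⟩,⟨3,[(15,1),(4,0),(0,0),(20,0)]⟩⟩ ⟨false,1,⟨1,[(9,0),(11,1),(10,
  0),(8,1)]⟩,⟨1,[(0,1),(3,0),(36,0)]⟩⟩,.a ⟨true,0,⟨0,[(0,0),(40,0)]⟩,⟨0,[(21,0)]⟩⟩ ⟨false,0,⟨1,[(9,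
  0),(10,0),(0,0)]⟩,⟨1,[(4,0),(37,0)]⟩⟩ ⟨true,0,⟨1,[(9,0),(11,1),(10,0),(5,1)]⟩,⟨1,[(0,1),(3,0),(36,
  0)]⟩⟩,.o ⟨false,0,⟨1,[(0,1),(31,0),(8,0)]⟩,⟨1,[(21,1),(10,0),(8,0)]⟩⟩]⟩) (.Q [0,0,-1,0,1,0,0,0,-1,
  0,0,-1] (.p false [0,0,0,0,1] [] (⟨0,[(23,0)]⟩,⟨0,[(22,0)]⟩) .k 0 (⟨0,[]⟩,⟨0,[]⟩) .k .k) (.Q [0,0,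
  0,0,0,0,0,0,1,-1,0,1] (.p true [0,0,0,0,1] [1] (⟨0,[(24,0)]⟩,⟨0,[(23,0)]⟩) .k 1 (⟨0,[]⟩,⟨0,[]⟩)
  .k .k) (.R ⟨0,false,false,false,[1,0,0,0,-1],[0,1],[0,0,0,-1],(⟨0,[(24,0)]⟩,⟨0,[(25,0)]⟩),(⟨0,
  [(36,0)]⟩,⟨0,[(35,0)]⟩),⟨0,[(3,0)]⟩,.k,.k,(.r (-1) ⟨9,[(17,4),(4,1),(0,1),(20,2),(1,0)]⟩ ⟨1,[(11,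
  0),(10,0),(0,0)]⟩),(.r (-1) ⟨9,[(17,4),(4,1),(0,1),(20,2),(1,0)]⟩ ⟨1,[(11,0),(10,0),(0,0)]⟩),.k,
  .k,⟨true,1,⟨7,[(6,0),(2,1),(2,1),(4,3),(12,1),(13,2)]⟩,⟨0,[(11,0)]⟩⟩,⟨false,1,⟨0,[(2,0)]⟩,⟨0,[(4,
  0)]⟩⟩,⟨false,1,⟨13,[(9,1),(2,1),(4,3),(11,2),(0,4),(13,9)]⟩,⟨0,[(42,0)]⟩⟩,⟨true,0,⟨1,[(0,0),(1,0),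
  (8,0)]⟩,⟨9,[(1,2),(2,6),(1,1),(0,0),(2,2),(1,2),(0,2),(19,1),(6,3)]⟩⟩,⟨false,0,⟨0,[]⟩,⟨0,[]⟩⟩,
  ⟨false,0,⟨0,[]⟩,⟨0,[]⟩⟩,[.a ⟨true,0,⟨0,[(42,0)]⟩,⟨1,[(5,0),(0,0),(28,1)]⟩⟩ ⟨false,1,⟨3,[(17,1),(4,
  0),(0,0),(20,0)]⟩,⟨1,[(11,0),(31,0)]⟩⟩ ⟨true,0,⟨1,[(0,0),(1,0),(8,0)]⟩,⟨3,[(1,1),(2,1),(4,1),(0,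
  1),(0,0),(0,1),(31,0)]⟩⟩,.o ⟨false,1,⟨5,[(1,1),(0,1),(8,2),(22,1),(9,2)]⟩,⟨0,[(41,0)]⟩⟩,.o ⟨false,
  1,⟨0,[(22,0)]⟩,⟨0,[(0,0)]⟩⟩,.e ⟨false,1,⟨1,[(6,0),(37,0)]⟩,⟨1,[(11,0),(10,0),(0,0)]⟩⟩ ⟨false,1,⟨1,
  [(2,1),(8,0),(32,0)]⟩,⟨3,[(1,1),(2,1),(4,1),(0,1),(0,0),(0,1),(31,0)]⟩⟩]⟩) (.R ⟨1,false,false,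
  false,[0,0,0,0,1],[0,1],[0,1],(⟨0,[(25,0)]⟩,⟨0,[(24,0)]⟩),(⟨0,[(36,0)]⟩,⟨0,[(35,0)]⟩),⟨0,[(3,0),
  (16,0),(0,0)]⟩,.k,.k,(.r (-1) ⟨3,[(17,1),(4,0),(0,0),(20,0)]⟩ ⟨9,[(11,4),(10,2),(0,2),(20,1),(1,
  3)]⟩),(.r (-1) ⟨3,[(17,1),(4,0),(0,0),(20,0)]⟩ ⟨9,[(11,4),(10,2),(0,2),(20,1),(1,3)]⟩),(.r (-1)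
  ⟨0,[(6,0)]⟩ ⟨4,[(11,4),(10,3),(0,3),(20,0),(1,1)]⟩),.k,⟨false,1,⟨7,[(17,3),(4,0),(0,0),(13,1),(5,
  2)]⟩,⟨0,[(39,0)]⟩⟩,⟨true,1,⟨0,[(1,0)]⟩,⟨1,[(2,1),(6,1),(0,1),(0,2),(0,1),(31,0)]⟩⟩,⟨true,0,⟨0,
  [(46,0)]⟩,⟨0,[]⟩⟩,⟨false,1,⟨9,[(0,1),(0,7),(9,3),(26,0),(3,1),(1,4)]⟩,⟨3,[(2,1),(6,1),(0,1),(0,0),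
  (0,1),(10,1),(20,0)]⟩⟩,⟨false,0,⟨1,[(7,0),(3,0),(21,1)]⟩,⟨13,[(9,1),(2,1),(4,3),(11,2),(0,4),(13,
  9)]⟩⟩,⟨false,1,⟨1,[(1,1),(9,1),(31,0),(0,0)]⟩,⟨1,[(2,1),(6,1),(0,1),(0,0),(0,1),(31,0)]⟩⟩,[.e
  ⟨false,0,⟨0,[(40,0)]⟩,⟨1,[(22,0),(0,0),(20,0)]⟩⟩ ⟨false,1,⟨1,[(1,1),(9,0),(31,0)]⟩,⟨3,[(2,1),(6,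
  1),(0,1),(0,0),(0,1),(10,1),(20,0)]⟩⟩,.o ⟨false,1,⟨5,[(1,1),(0,1),(8,2),(22,1),(9,2)]⟩,⟨0,[(41,
  0)]⟩⟩,.a ⟨true,0,⟨0,[(23,0)]⟩,⟨0,[(0,0)]⟩⟩ ⟨true,0,⟨0,[(46,0)]⟩,⟨0,[]⟩⟩ ⟨false,1,⟨1,[(1,1),(9,0),
  (32,0)]⟩,⟨3,[(2,1),(6,1),(0,1),(0,0),(0,1),(10,1),(20,0)]⟩⟩,.o ⟨false,0,⟨3,[(2,1),(6,1),(0,1),(0,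
  2),(0,1),(10,1),(10,1),(9,0)]⟩,⟨0,[(1,0)]⟩⟩]⟩)) (.S ⟨1,0,[1],[0,0,0,0,1],[1,0,1],(⟨0,[(24,0)]⟩,⟨0,
  [(23,0)]⟩),⟨0,[(2,0),(16,0),(0,0)]⟩,.k,(.r (-1) ⟨3,[(16,1),(4,0),(0,0),(20,0)]⟩ ⟨9,[(10,4),(10,2),
  (0,2),(20,1),(1,3)]⟩),⟨true,0,⟨1,[(28,0),(0,0)]⟩,⟨0,[(39,0)]⟩⟩,⟨false,1,⟨1,[(21,0),(0,0),(20,0)]⟩,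
  ⟨0,[]⟩⟩,⟨false,0,⟨1,[(10,0),(32,0)]⟩,⟨3,[(16,1),(4,0),(0,0),(20,0)]⟩⟩,⟨true,0,⟨0,[(41,0)]⟩,⟨0,
  [(40,0)]⟩⟩,[.o ⟨false,0,⟨2,[(0,1),(0,0),(31,0)]⟩,⟨8,[(3,1),(2,0),(14,6),(10,1),(4,0)]⟩⟩,.e ⟨false,
  1,⟨1,[(21,0),(0,0),(20,0)]⟩,⟨0,[(39,0)]⟩⟩ ⟨false,1,⟨1,[(42,0),(0,0)]⟩,⟨0,[(45,0)]⟩⟩,.o ⟨false,0,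
  ⟨2,[(0,1),(0,0),(31,0)]⟩,⟨0,[(21,0)]⟩⟩,.a ⟨true,(-1),⟨0,[(0,0)]⟩,⟨0,[(3,0),(38,0)]⟩⟩ ⟨true,0,⟨0,
  []⟩,⟨0,[(45,0)]⟩⟩ ⟨false,1,⟨1,[(42,0),(0,0)]⟩,⟨1,[(28,0),(0,0)]⟩⟩]⟩)))) (.Q [0,0,0,0,0,1,0,0,0,0,
  0,-1] (.ed true [1,-1,0,0,1] .k) (.R ⟨0,false,false,false,[0,0,0,0,1],[1,0,-1],[0,1],(⟨0,[(22,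
  0)]⟩,⟨0,[(21,0)]⟩),(⟨0,[(28,0)]⟩,⟨0,[(29,0)]⟩),⟨0,[(0,0)]⟩,.k,.k,(.r (-1) ⟨3,[(14,1),(4,0),(0,0),
  (20,0)]⟩ ⟨9,[(8,4),(10,2),(0,2),(20,1),(1,3)]⟩),.k,.k,.k,⟨true,0,⟨3,[(8,0),(4,1),(9,1),(0,1),(6,
  0)]⟩,⟨1,[(6,1),(1,0),(32,0)]⟩⟩,⟨false,1,⟨0,[(19,0),(3,0)]⟩,⟨0,[(1,0),(24,0)]⟩⟩,⟨true,0,⟨0,[(43,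
  0)]⟩,⟨0,[]⟩⟩,⟨false,1,⟨1,[(7,0),(3,1),(7,1),(3,0),(17,0)]⟩,⟨1,[(1,1),(6,0),(0,0),(14,0),(16,0)]⟩⟩,
  ⟨false,0,⟨0,[]⟩,⟨0,[]⟩⟩,⟨false,0,⟨0,[]⟩,⟨0,[]⟩⟩,[.o ⟨false,0,⟨0,[(11,0),(3,0)]⟩,⟨1,[(24,1),(6,0),
  (9,0)]⟩⟩,.a ⟨true,0,⟨1,[(7,0),(3,1),(11,0),(17,0)]⟩,⟨0,[(24,0)]⟩⟩ ⟨false,1,⟨1,[(19,0),(0,0),(19,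
  0)]⟩,⟨0,[]⟩⟩ ⟨true,1,⟨1,[(7,0),(3,1),(7,1),(3,0),(17,0)]⟩,⟨0,[(1,0),(6,0),(0,0)]⟩⟩,.o ⟨false,0,⟨1,
  [(1,1),(24,0),(0,0)]⟩,⟨0,[(19,0)]⟩⟩,.e ⟨true,0,⟨0,[(37,0)]⟩,⟨1,[(26,0),(0,0)]⟩⟩ ⟨true,1,⟨0,[(11,
  0),(7,0),(3,0)]⟩,⟨0,[(1,0),(6,0),(0,0)]⟩⟩]⟩) (.R ⟨1,false,false,false,[0,0,0,0,1],[1,0,-1],[0,1],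
  (⟨0,[(22,0)]⟩,⟨0,[(21,0)]⟩),(⟨0,[(28,0)]⟩,⟨0,[(29,0)]⟩),⟨0,[(0,0)]⟩,.k,.k,(.r (-1) ⟨3,[(14,1),(4,
  0),(0,0),(20,0)]⟩ ⟨9,[(8,4),(10,2),(0,2),(20,1),(1,3)]⟩),.k,(.r (-1) ⟨1,[(13,1),(26,0),(0,0)]⟩ ⟨1,
  [(8,0),(2,1),(7,0),(0,0)]⟩),.k,⟨true,0,⟨3,[(8,0),(4,1),(9,1),(0,1),(6,0)]⟩,⟨1,[(6,1),(1,0),(32,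
  0)]⟩⟩,⟨false,1,⟨0,[(19,0),(3,0)]⟩,⟨0,[(1,0),(24,0)]⟩⟩,⟨true,0,⟨0,[(43,0)]⟩,⟨0,[]⟩⟩,⟨false,1,⟨1,
  [(7,0),(3,1),(7,1),(3,0),(17,0)]⟩,⟨1,[(1,1),(6,0),(0,0),(14,0),(16,0)]⟩⟩,⟨false,0,⟨1,[(4,0),(3,0),
  (21,1)]⟩,⟨13,[(6,1),(2,1),(4,3),(11,2),(0,4),(13,9)]⟩⟩,⟨false,1,⟨1,[(8,0),(2,1),(7,1),(3,1),(17,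
  0)]⟩,⟨1,[(1,1),(6,0),(0,1),(31,0)]⟩⟩,[.o ⟨false,0,⟨0,[(11,0),(3,0)]⟩,⟨1,[(24,1),(6,0),(9,0)]⟩⟩,.a
  ⟨true,0,⟨1,[(7,0),(3,1),(11,0),(17,0)]⟩,⟨0,[(24,0)]⟩⟩ ⟨false,1,⟨1,[(19,0),(0,0),(19,0)]⟩,⟨0,[]⟩⟩
  ⟨true,1,⟨1,[(7,0),(3,1),(7,1),(3,0),(17,0)]⟩,⟨0,[(1,0),(6,0),(0,0)]⟩⟩,.o ⟨false,0,⟨1,[(1,1),(24,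
  0),(0,0)]⟩,⟨0,[(19,0)]⟩⟩,.e ⟨true,0,⟨0,[(37,0)]⟩,⟨1,[(26,0),(0,0)]⟩⟩ ⟨true,1,⟨0,[(11,0),(7,0),(3,
  0)]⟩,⟨0,[(1,0),(6,0),(0,0)]⟩⟩]⟩)))))) (.Q [0,-1,0,2,1,0,1,1,0,-1,1] (.p true [0,0,1] [1] (⟨0,[(24,
  0)]⟩,⟨0,[(23,0)]⟩) .k 1 (⟨0,[]⟩,⟨0,[]⟩) .k .k) (.I [0,0,2,0,-1,2,-1] (.R ⟨1,false,false,false,[1,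
  0,-1],[0,1],[],(⟨0,[(25,0)]⟩,⟨0,[(26,0)]⟩),(⟨0,[(30,0)]⟩,⟨0,[(29,0)]⟩),⟨0,[(14,0)]⟩,.k,.k,.k,.k,
  (.x 1 ⟨0,[(0,0)]⟩ ⟨3,[(1,3),(1,3),(7,1),(2,5),(0,1),(12,0),(5,1),(2,0)]⟩),.k,⟨true,1,⟨3,[(11,1),
  (4,0),(0,0),(20,0)]⟩,⟨0,[(2,0)]⟩⟩,⟨false,2,⟨0,[(1,0),(6,0),(2,0)]⟩,⟨0,[(4,0)]⟩⟩,⟨false,1,⟨3,[(1,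
  0),(8,1),(2,0),(7,0),(16,2)]⟩,⟨0,[(8,0)]⟩⟩,⟨true,1,⟨3,[(1,1),(14,0),(0,0),(3,1),(6,0)]⟩,⟨0,[(3,0),
  (0,0),(29,0)]⟩⟩,⟨false,1,⟨1,[(1,0),(11,0),(7,0),(16,0)]⟩,⟨0,[(3,0)]⟩⟩,⟨false,1,⟨0,[(1,0)]⟩,⟨29,
  [(0,1),(2,39),(0,2),(1,9),(6,13),(6,6),(4,1),(3,3),(8,4)]⟩⟩,[.e ⟨false,1,⟨1,[(16,0),(0,0),(19,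
  0)]⟩,⟨0,[]⟩⟩ ⟨false,1,⟨0,[(1,0),(1,0),(30,0)]⟩,⟨29,[(0,1),(2,9),(0,2),(1,9),(6,13),(6,6),(4,1),(3,
  3),(8,4)]⟩⟩,.o ⟨false,1,⟨5,[(1,1),(3,0),(2,1),(11,1),(7,2),(9,1)]⟩,⟨0,[(35,0)]⟩⟩,.o ⟨false,0,⟨0,
  [(12,0)]⟩,⟨2,[(1,0),(6,0),(2,0),(11,1),(4,0)]⟩⟩,.a ⟨true,(-1),⟨0,[(4,0)]⟩,⟨0,[(23,0),(13,0)]⟩⟩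
  ⟨false,1,⟨1,[(37,0),(0,0)]⟩,⟨1,[(23,0),(0,0)]⟩⟩ ⟨true,1,⟨0,[(1,0),(1,0),(30,0)]⟩,⟨0,[(4,0),(30,
  0)]⟩⟩]⟩) (.I [0,0,-2,-2,1,0,0,-1] (.R ⟨1,false,false,false,[1,0,-1],[0,1],[],(⟨0,[(26,0)]⟩,⟨0,
  [(27,0)]⟩),(⟨0,[(31,0)]⟩,⟨0,[(30,0)]⟩),⟨0,[(15,0)]⟩,.k,.k,.k,.k,(.r (-1) ⟨0,[(0,0)]⟩ ⟨1,[(2,0),(3,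
  0),(7,0),(7,0),(1,0),(0,0)]⟩),.k,⟨true,1,⟨3,[(12,1),(4,0),(0,0),(20,0)]⟩,⟨0,[(3,0)]⟩⟩,⟨false,2,⟨3,
  [(0,2),(1,3),(9,0),(10,0),(0,0),(7,0)]⟩,⟨0,[(5,0)]⟩⟩,⟨false,1,⟨3,[(2,0),(8,1),(2,0),(7,0),(16,
  2)]⟩,⟨0,[(9,0)]⟩⟩,⟨true,1,⟨3,[(2,1),(14,0),(0,0),(3,1),(6,0)]⟩,⟨1,[(0,0),(4,1),(2,0),(26,0)]⟩⟩,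
  ⟨false,1,⟨1,[(2,0),(11,0),(7,0),(16,0)]⟩,⟨0,[(4,0)]⟩⟩,⟨false,1,⟨0,[(2,0)]⟩,⟨9,[(0,3),(3,7),(0,4),
  (1,1),(6,4),(9,2),(14,0)]⟩⟩,[.e ⟨false,1,⟨1,[(17,0),(0,0),(19,0)]⟩,⟨0,[]⟩⟩ ⟨false,1,⟨1,[(0,0),(1,
  1),(5,0),(26,0)]⟩,⟨7,[(0,1),(4,2),(1,1),(6,3),(6,0),(2,1),(14,0)]⟩⟩,.o ⟨false,1,⟨5,[(2,1),(3,0),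
  (2,1),(11,1),(7,2),(9,1)]⟩,⟨0,[(36,0)]⟩⟩,.o ⟨false,0,⟨0,[(13,0)]⟩,⟨11,[(0,2),(1,3),(9,0),(10,0),
  (0,8),(4,3),(2,0)]⟩⟩,.a ⟨true,(-1),⟨0,[(5,0)]⟩,⟨0,[(24,0),(13,0)]⟩⟩ ⟨false,1,⟨1,[(38,0),(0,0)]⟩,
  ⟨1,[(24,0),(0,0)]⟩⟩ ⟨true,1,⟨1,[(0,0),(1,1),(5,0),(26,0)]⟩,⟨0,[(5,0),(30,0)]⟩⟩]⟩) (.I [0,0,2,2,-1,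
  0,0,1] (.R ⟨1,false,false,false,[1,0,-1],[0,1],[],(⟨0,[(27,0)]⟩,⟨0,[(28,0)]⟩),(⟨0,[(32,0)]⟩,⟨0,
  [(31,0)]⟩),⟨0,[(16,0)]⟩,.k,.k,.k,.k,(.r (-2) ⟨1,[(10,1),(2,1),(4,0),(0,0),(20,0)]⟩ ⟨0,[(0,0)]⟩),
  .k,⟨true,1,⟨3,[(13,1),(4,0),(0,0),(20,0)]⟩,⟨0,[(4,0)]⟩⟩,⟨false,2,⟨0,[(3,0),(6,0),(2,0)]⟩,⟨0,[(6,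
  0)]⟩⟩,⟨false,1,⟨3,[(3,0),(8,1),(2,0),(7,0),(16,2)]⟩,⟨0,[(10,0)]⟩⟩,⟨true,1,⟨3,[(3,1),(14,0),(0,0),
  (3,1),(6,0)]⟩,⟨0,[(5,0),(0,0),(29,0)]⟩⟩,⟨false,1,⟨1,[(3,0),(11,0),(7,0),(16,0)]⟩,⟨0,[(5,0)]⟩⟩,
  ⟨false,1,⟨0,[(3,0)]⟩,⟨5,[(5,7),(0,0),(1,1),(6,2),(6,1),(2,0),(14,0)]⟩⟩,[.e ⟨false,1,⟨1,[(18,0),(0,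
  0),(19,0)]⟩,⟨0,[]⟩⟩ ⟨false,1,⟨0,[(3,0),(1,0),(30,0)]⟩,⟨5,[(5,1),(0,0),(1,1),(6,2),(6,1),(2,0),(14,
  0)]⟩⟩,.o ⟨false,1,⟨5,[(3,1),(3,0),(2,1),(11,1),(7,2),(9,1)]⟩,⟨0,[(37,0)]⟩⟩,.o ⟨false,0,⟨0,[(14,
  0)]⟩,⟨2,[(3,0),(6,0),(2,0),(11,1),(4,0)]⟩⟩,.a ⟨true,(-1),⟨0,[(6,0)]⟩,⟨0,[(25,0),(13,0)]⟩⟩ ⟨false,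
  1,⟨1,[(39,0),(0,0)]⟩,⟨1,[(25,0),(0,0)]⟩⟩ ⟨true,1,⟨0,[(3,0),(1,0),(30,0)]⟩,⟨0,[(6,0),(30,0)]⟩⟩]⟩)
  (.Q [-1,0,0,1,0,0,0,0,-1,0,0,-1] (.p false [0,0,0,0,1] [] (⟨0,[(21,0)]⟩,⟨0,[(20,0)]⟩) .k 0 (⟨0,
  []⟩,⟨0,[]⟩) .k .k) (.R ⟨2,true,false,true,[0,1],[0,0,0,0,1],[0,0,1,1],(⟨0,[]⟩,⟨0,[]⟩),(⟨0,[(22,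
  0)]⟩,⟨0,[(21,0)]⟩),⟨0,[]⟩,.k,.k,.k,(.r 0 ⟨19,[(4,2),(3,6),(7,2),(8,2),(0,5),(14,3),(1,7)]⟩ ⟨3,
  [(14,1),(4,0),(0,0),(20,0)]⟩),.k,.k,⟨true,0,⟨41,[(3,1),(1,1),(1,1),(0,19),(9,1),(11,5),(4,0),(5,
  20)]⟩,⟨0,[(38,0)]⟩⟩,⟨false,0,⟨0,[(20,0)]⟩,⟨5,[(0,3),(13,1),(4,1),(20,0),(0,0)]⟩⟩,⟨false,1,⟨1,[(19,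
  0),(0,0),(20,0)]⟩,⟨0,[]⟩⟩,⟨true,0,⟨0,[(20,0),(17,0)]⟩,⟨0,[(0,0)]⟩⟩,⟨true,0,⟨0,[(39,0)]⟩,⟨0,[(38,
  0)]⟩⟩,⟨false,0,⟨0,[(20,0)]⟩,⟨11,[(0,6),(0,0),(4,0),(0,1),(1,1),(9,4),(11,0),(9,6)]⟩⟩,[]⟩) (.Q [-1,
  0,0,0,0,0,0,0,-1,1,0,-1] (.p false [0,0,0,0,1] [1] (⟨0,[(22,0)]⟩,⟨0,[(21,0)]⟩) .k 1 (⟨0,[]⟩,⟨0,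
  []⟩) .k .k) (.Q [0,0,0,0,0,-1,0,0,0,0,0,1] (.ed false [1,-1,0,0,1] .k) (.S ⟨1,0,[1],[0,0,0,0,1],
  [1,0,1],(⟨0,[(24,0)]⟩,⟨0,[(23,0)]⟩),⟨0,[(0,0)]⟩,.k,(.r (-1) ⟨3,[(16,1),(4,0),(0,0),(20,0)]⟩ ⟨19,
  [(6,2),(3,6),(7,2),(8,2),(0,5),(14,3),(1,7)]⟩),⟨true,0,⟨1,[(28,0),(0,0)]⟩,⟨0,[(39,0)]⟩⟩,⟨false,1,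
  ⟨1,[(21,0),(0,0),(20,0)]⟩,⟨0,[]⟩⟩,⟨false,0,⟨1,[(10,0),(32,0)]⟩,⟨3,[(16,1),(4,0),(0,0),(20,0)]⟩⟩,
  ⟨true,0,⟨0,[(41,0)]⟩,⟨0,[(40,0)]⟩⟩,[.a ⟨true,0,⟨0,[(22,0)]⟩,⟨0,[(1,0)]⟩⟩ ⟨false,0,⟨0,[]⟩,⟨1,[(21,
  0),(0,0),(19,0)]⟩⟩ ⟨true,0,⟨0,[]⟩,⟨1,[(28,0),(0,0)]⟩⟩,.e ⟨false,1,⟨1,[(21,0),(0,0),(20,0)]⟩,⟨0,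
  [(39,0)]⟩⟩ ⟨false,1,⟨1,[(42,0),(0,0)]⟩,⟨0,[(45,0)]⟩⟩,.e ⟨true,0,⟨1,[(28,0),(0,0)]⟩,⟨0,[(39,0)]⟩⟩
  ⟨true,0,⟨0,[]⟩,⟨0,[(45,0)]⟩⟩,.o ⟨false,0,⟨5,[(2,5),(7,2),(22,0),(3,1)]⟩,⟨1,[(1,1),(31,0),(8,
  0)]⟩⟩]⟩) (.R ⟨0,false,false,true,[0,0,0,0,1],[1,-1,-1],[0,1],(⟨0,[(24,0)]⟩,⟨0,[(23,0)]⟩),(⟨0,[(19,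
  0)]⟩,⟨0,[(31,0),(3,0)]⟩),⟨0,[(0,0)]⟩,.k,.k,(.r (-1) ⟨3,[(16,1),(4,0),(0,0),(20,0)]⟩ ⟨19,[(6,2),(3,
  6),(7,2),(8,2),(0,5),(14,3),(1,7)]⟩),(.r 0 ⟨2,[(4,0),(1,0),(8,0),(2,0),(9,0)]⟩ ⟨9,[(3,4),(9,4),(7,
  3),(0,3),(20,0),(1,1)]⟩),.k,.k,⟨true,0,⟨2,[(4,0),(1,0),(8,0),(2,0),(9,0)]⟩,⟨0,[(8,0)]⟩⟩,⟨false,0,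
  ⟨0,[(1,0),(15,0)]⟩,⟨28,[(2,27),(0,12),(1,1),(0,26),(5,13),(9,0),(8,1),(0,3),(4,0),(1,12)]⟩⟩,⟨true,
  0,⟨0,[(45,0)]⟩,⟨0,[]⟩⟩,⟨false,0,⟨0,[(1,0),(6,0),(8,0)]⟩,⟨0,[(2,0),(3,0)]⟩⟩,⟨false,0,⟨0,[]⟩,⟨0,
  []⟩⟩,⟨false,0,⟨0,[]⟩,⟨0,[]⟩⟩,[.e ⟨false,0,⟨0,[(39,0)]⟩,⟨1,[(21,0),(0,0),(20,0)]⟩⟩ ⟨false,0,⟨1,[(1,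
  1),(1,0),(8,0),(4,1),(21,0)]⟩,⟨21,[(2,21),(1,1),(0,1),(0,19),(13,1),(11,5),(4,0),(5,0)]⟩⟩,.o
  ⟨false,0,⟨0,[(8,0),(8,0)]⟩,⟨3,[(6,1),(14,0),(0,0),(3,1),(6,0)]⟩⟩,.a ⟨true,0,⟨0,[(22,0)]⟩,⟨0,[(1,
  0)]⟩⟩ ⟨true,0,⟨0,[(45,0)]⟩,⟨0,[]⟩⟩ ⟨false,0,⟨0,[(1,0),(6,0),(8,0)]⟩,⟨21,[(2,21),(1,1),(0,1),(0,
  19),(13,1),(11,5),(4,0),(5,0)]⟩⟩,.o ⟨false,0,⟨5,[(2,5),(7,2),(22,0),(3,1)]⟩,⟨1,[(1,1),(31,0),(8,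
  0)]⟩⟩]⟩)) (.Q [0,0,-1,0,0,0,0,0,1,-1,0,1] (.p true [0,0,0,0,1] [1] (⟨0,[(23,0)]⟩,⟨0,[(22,0)]⟩) .k
  1 (⟨0,[]⟩,⟨0,[]⟩) .k .k) (.Q [0,0,0,0,0,1,0,0,0,0,0,-1] (.ed true [1,-1,0,0,1] .k) (.R ⟨0,false,
  false,false,[0,0,0,0,1],[0,1],[],(⟨0,[(25,0)]⟩,⟨0,[(24,0)]⟩),(⟨0,[(36,0)]⟩,⟨0,[(35,0)]⟩),⟨0,[(0,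
  0)]⟩,.k,.k,(.r (-1) ⟨3,[(17,1),(4,0),(0,0),(20,0)]⟩ ⟨19,[(7,2),(3,6),(7,2),(8,2),(0,5),(14,3),(1,
  7)]⟩),(.r (-1) ⟨3,[(17,1),(4,0),(0,0),(20,0)]⟩ ⟨19,[(7,2),(3,6),(7,2),(8,2),(0,5),(14,3),(1,7)]⟩),
  .k,.k,⟨true,1,⟨3,[(17,1),(4,0),(0,0),(20,0)]⟩,⟨0,[(8,0)]⟩⟩,⟨false,2,⟨0,[(22,0),(20,0)]⟩,⟨0,[(1,0),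
  (8,0),(18,0)]⟩⟩,⟨false,1,⟨4,[(22,1),(0,1),(20,2),(1,0)]⟩,⟨0,[]⟩⟩,⟨true,1,⟨0,[(22,0),(19,0)]⟩,⟨1,
  [(1,1),(8,0),(1,0),(0,0),(12,0),(2,0)]⟩⟩,⟨false,0,⟨0,[]⟩,⟨0,[]⟩⟩,⟨false,0,⟨0,[]⟩,⟨0,[]⟩⟩,[.a
  ⟨true,0,⟨0,[(42,0)]⟩,⟨7,[(4,1),(5,2),(1,1),(13,4),(2,5),(14,0)]⟩⟩ ⟨false,1,⟨1,[(22,0),(0,0),(19,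
  0)]⟩,⟨0,[]⟩⟩ ⟨true,1,⟨1,[(11,0),(10,1),(20,0)]⟩,⟨4,[(1,4),(6,0),(0,1),(0,4),(1,1),(16,2),(14,
  0)]⟩⟩,.o ⟨false,1,⟨5,[(7,1),(3,0),(2,1),(11,1),(7,2),(9,1)]⟩,⟨0,[(41,0)]⟩⟩,.o ⟨false,0,⟨2,[(1,0),
  (0,1),(42,0)]⟩,⟨0,[(22,0)]⟩⟩,.e ⟨false,1,⟨1,[(43,0),(0,0)]⟩,⟨1,[(29,0),(0,0)]⟩⟩ ⟨false,2,⟨3,[(7,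
  1),(6,1),(7,3),(3,1),(16,0),(0,0)]⟩,⟨4,[(1,4),(6,0),(0,1),(0,4),(1,1),(16,2),(14,0)]⟩⟩]⟩) (.R ⟨1,
  true,false,true,[0,0,0,0,1],[0,1,1],[1],(⟨0,[(25,0)]⟩,⟨0,[(24,0)]⟩),(⟨0,[(32,0),(3,0)]⟩,⟨0,[(20,
  0)]⟩),⟨0,[(0,0)]⟩,.k,.k,(.r (-1) ⟨3,[(17,1),(4,0),(0,0),(20,0)]⟩ ⟨19,[(7,2),(3,6),(7,2),(8,2),(0,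
  5),(14,3),(1,7)]⟩),(.r (-1) ⟨1,[(4,0),(9,0),(7,0),(0,0)]⟩ ⟨41,[(5,13),(1,10),(8,7),(2,9),(7,8),(5,
  0),(1,0),(8,2),(0,13)]⟩),(.r (-1) ⟨0,[(4,0)]⟩ ⟨3,[(5,1),(1,1),(11,1),(9,2),(0,0),(15,1)]⟩),.k,
  ⟨true,1,⟨1,[(4,0),(9,0),(29,0)]⟩,⟨0,[(11,0),(4,0)]⟩⟩,⟨false,2,⟨0,[(6,0),(15,0),(9,0),(3,1)]⟩,⟨2,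
  [(1,0),(0,1),(7,2),(34,0)]⟩⟩,⟨false,1,⟨1,[(22,0),(0,0),(20,0)]⟩,⟨0,[]⟩⟩,⟨true,1,⟨0,[(22,0),(4,0),
  (14,0)]⟩,⟨0,[(1,0),(7,0),(0,0)]⟩⟩,⟨true,0,⟨0,[(42,0)]⟩,⟨0,[(41,0)]⟩⟩,⟨false,1,⟨0,[(5,0),(0,0),(15,
  0),(9,0),(3,1)]⟩,⟨10,[(1,5),(1,4),(0,2),(4,8),(0,11),(1,0),(21,2),(9,5)]⟩⟩,[]⟩)) (.Q [0,0,1,0,-1,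
  0,0,0,1,0,0,1] (.p true [0,0,0,0,1] [] (⟨0,[(24,0)]⟩,⟨0,[(23,0)]⟩) .k 0 (⟨0,[]⟩,⟨0,[]⟩) .k .k)
  (.Q [1,-1,0,-2,0,0,0,0,1,0,0,1] (.p true [0,0,0,0,1] [] (⟨0,[(25,0)]⟩,⟨0,[(24,0)]⟩) .k 0 (⟨0,[]⟩,
  ⟨0,[]⟩) .k .k) (.K ⟨0,[1,0,0,0,-1],0,0,(⟨0,[(25,0)]⟩,⟨0,[(26,0)]⟩),.k,(.r (-1) ⟨9,[(18,4),(4,1),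
  (0,1),(20,2),(1,0)]⟩ ⟨3,[(8,0),(3,0),(7,0),(8,0),(0,1)]⟩),(.r 0 ⟨15,[(2,2),(5,2),(3,4),(11,2),(4,
  2),(15,1),(0,2),(0,3)]⟩ ⟨3,[(18,1),(4,0),(0,0),(20,0)]⟩),.k,.k,[⟨0,[(0,0),(7,0),(5,0),(26,0)]⟩,⟨0,
  [(2,0)]⟩,⟨0,[(3,0),(43,0)]⟩,⟨0,[(2,0),(38,0)]⟩]⟩) (.K ⟨0,[0,0,0,0,1],(-1),(-1),(⟨0,[(26,0)]⟩,⟨0,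
  [(25,0)]⟩),.k,(.r (-1) ⟨3,[(18,1),(4,0),(0,0),(20,0)]⟩ ⟨31,[(0,3),(1,4),(5,4),(3,6),(11,8),(4,4),
  (15,1),(0,12)]⟩),(.r 0 ⟨3,[(8,0),(3,0),(7,0),(8,0),(0,1)]⟩ ⟨9,[(18,4),(4,1),(0,1),(20,2),(1,0)]⟩),
  .k,.k,[⟨2,[(0,0),(1,1),(2,0),(2,1),(1,1),(2,0)]⟩,⟨0,[(1,0)]⟩,⟨0,[(23,0),(23,0)]⟩,⟨0,[(1,0),(39,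
  0)]⟩]⟩)) (.Q [1,-1,0,0,0,0,0,0,1,0,0,1] (.p true [0,0,0,0,1] [] (⟨0,[(25,0)]⟩,⟨0,[(24,0)]⟩) .k 0
  (⟨0,[]⟩,⟨0,[]⟩) .k .k) (.R ⟨2,true,false,false,[0,1],[0,0,0,0,1],[1,0,1],(⟨0,[]⟩,⟨0,[]⟩),(⟨0,[(26,
  0)]⟩,⟨0,[(25,0)]⟩),⟨0,[]⟩,.k,.k,.k,(.r 0 ⟨15,[(2,2),(5,2),(3,4),(11,2),(4,2),(15,1),(0,2),(0,3)]⟩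
  ⟨3,[(18,1),(4,0),(0,0),(20,0)]⟩),.k,.k,⟨true,0,⟨1,[(30,0),(0,0)]⟩,⟨0,[]⟩⟩,⟨false,0,⟨0,[(24,0)]⟩,
  ⟨0,[(1,0)]⟩⟩,⟨false,1,⟨9,[(4,1),(0,1),(7,1),(9,1),(6,0),(0,2),(13,5)]⟩,⟨0,[(43,0)]⟩⟩,⟨true,0,⟨0,
  [(4,0)]⟩,⟨0,[(1,0),(7,0),(31,0)]⟩⟩,⟨true,0,⟨0,[]⟩,⟨0,[(47,0)]⟩⟩,⟨false,0,⟨0,[(0,0)]⟩,⟨7,[(1,1),(0,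
  1),(20,3),(15,0),(5,0),(1,1)]⟩⟩,[]⟩) (.R ⟨1,false,false,false,[1,0,-1],[0,0,0,0,1],[0,0,0,0,0,0,0,
  -1],(⟨0,[(32,0)]⟩,⟨0,[(33,0)]⟩),(⟨0,[(26,0)]⟩,⟨0,[(25,0)]⟩),⟨0,[(21,0)]⟩,.k,.k,.k,.k,(.r (-1) ⟨9,
  [(5,4),(9,4),(7,3),(0,3),(20,0),(1,1)]⟩ ⟨2,[(6,0),(1,0),(8,0),(2,0),(9,0)]⟩),.k,⟨true,0,⟨0,[(7,1),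
  (1,0),(0,0),(0,1),(10,1),(11,5),(4,0)]⟩,⟨5,[(6,1),(10,3),(12,0),(0,0),(13,1)]⟩⟩,⟨false,1,⟨1,[(3,
  0),(1,0),(2,0),(6,0),(8,0),(3,0)]⟩,⟨0,[(1,0),(9,0)]⟩⟩,⟨false,1,⟨1,[(23,0),(0,0),(20,0)]⟩,⟨0,[]⟩⟩,
  ⟨false,1,⟨2,[(3,0),(0,1),(3,1),(4,0),(31,0)]⟩,⟨0,[(1,0),(9,0),(3,0)]⟩⟩,⟨true,0,⟨0,[(43,0)]⟩,⟨0,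
  [(42,0)]⟩⟩,⟨false,1,⟨0,[(4,0),(3,0)]⟩,⟨3,[(0,1),(0,1),(3,0),(4,1),(0,3),(3,0),(29,0)]⟩⟩,[.o
  ⟨false,0,⟨0,[(3,0)]⟩,⟨3,[(0,0),(22,2),(21,0),(1,0)]⟩⟩,.o ⟨false,1,⟨1,[(24,1),(10,0),(9,0)]⟩,⟨0,
  [(0,0)]⟩⟩,.o ⟨false,0,⟨0,[(19,0)]⟩,⟨11,[(5,2),(2,3),(9,0),(10,0),(0,8),(4,3),(2,0)]⟩⟩,.a ⟨true,
  (-1),⟨0,[(11,0)]⟩,⟨0,[(30,0),(13,0)]⟩⟩ ⟨false,1,⟨1,[(15,1),(28,0),(0,0)]⟩,⟨5,[(6,1),(10,3),(12,0),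
  (0,0),(13,1)]⟩⟩ ⟨true,1,⟨1,[(3,0),(1,0),(2,0),(6,0),(8,0),(3,0)]⟩,⟨0,[(0,0),(10,0)]⟩⟩]⟩)))))))))
  (.Q [-1,0,0,1,0,0,0,0,-1,0,0,-1] (.p false [0,0,0,0,1] [] (⟨0,[(18,0)]⟩,⟨0,[(17,0)]⟩) .k 0 (⟨0,
  []⟩,⟨0,[]⟩) .k .k) (.R ⟨2,true,false,true,[0,1],[0,0,0,0,1],[2,1],(⟨0,[]⟩,⟨0,[]⟩),(⟨0,[(19,0)]⟩,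
  ⟨0,[(18,0)]⟩),⟨0,[]⟩,.k,.k,.k,(.r 0 ⟨9,[(5,4),(10,2),(0,2),(20,1),(1,3)]⟩ ⟨3,[(11,1),(4,0),(0,0),
  (20,0)]⟩),.k,.k,⟨true,0,⟨0,[]⟩,⟨1,[(23,0),(0,0)]⟩⟩,⟨false,0,⟨0,[(17,0)]⟩,⟨5,[(0,3),(10,1),(4,1),
  (20,0),(0,0)]⟩⟩,⟨false,1,⟨3,[(11,1),(4,0),(0,0),(20,0)]⟩,⟨0,[(2,0),(31,0),(3,0)]⟩⟩,⟨true,0,⟨0,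
  [(17,0),(17,0)]⟩,⟨0,[(0,0)]⟩⟩,⟨true,0,⟨0,[(34,0)]⟩,⟨0,[(39,0)]⟩⟩,⟨false,0,⟨0,[(17,0)]⟩,⟨13,[(0,7),
  (0,1),(4,1),(9,5),(11,0),(9,8)]⟩⟩,[]⟩) (.Q [0,0,1,0,-1,0,0,0,1,0,0,1] (.p true [0,0,0,0,1] [] (⟨0,
  [(19,0)]⟩,⟨0,[(18,0)]⟩) .k 0 (⟨0,[]⟩,⟨0,[]⟩) .k .k) (.Q [0,0,0,0,0,-1,0,0,0,0,0,1] (.ed false [1,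
  -1,0,0,1] .k) (.Q [-1,0,0,0,1,0,0,0,-1,0,0,-1] (.p false [0,0,0,0,1] [] (⟨0,[(21,0)]⟩,⟨0,[(20,
  0)]⟩) .k 0 (⟨0,[]⟩,⟨0,[]⟩) .k .k) (.Q [0,0,-1,0,1,0,0,0,-1,1,0,-1] (.p false [0,0,0,0,1] [1] (⟨0,
  [(22,0)]⟩,⟨0,[(21,0)]⟩) .k 1 (⟨0,[]⟩,⟨0,[]⟩) .k .k) (.S ⟨1,0,[1],[0,0,0,0,1],[1,0,1],(⟨0,[(23,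
  0)]⟩,⟨0,[(22,0)]⟩),⟨0,[(2,0)]⟩,.k,(.r (-1) ⟨3,[(15,1),(4,0),(0,0),(20,0)]⟩ ⟨7,[(1,2),(7,3),(11,2),
  (20,0),(1,1)]⟩),⟨true,0,⟨1,[(27,0),(0,0)]⟩,⟨0,[(38,0)]⟩⟩,⟨false,1,⟨1,[(20,0),(0,0),(20,0)]⟩,⟨0,
  []⟩⟩,⟨false,0,⟨1,[(9,0),(32,0)]⟩,⟨3,[(15,1),(4,0),(0,0),(20,0)]⟩⟩,⟨true,0,⟨0,[(40,0)]⟩,⟨0,[(39,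
  0)]⟩⟩,[.o ⟨false,0,⟨1,[(3,1),(28,0),(8,0)]⟩,⟨0,[(1,0)]⟩⟩,.e ⟨false,1,⟨1,[(20,0),(0,0),(20,0)]⟩,⟨0,
  [(38,0)]⟩⟩ ⟨false,1,⟨1,[(41,0),(0,0)]⟩,⟨0,[(44,0)]⟩⟩,.o ⟨false,0,⟨1,[(3,1),(28,0),(8,0)]⟩,⟨0,[(20,
  0)]⟩⟩,.a ⟨true,(-1),⟨0,[(3,0)]⟩,⟨0,[(0,0)]⟩⟩ ⟨true,0,⟨0,[]⟩,⟨0,[(44,0)]⟩⟩ ⟨false,1,⟨1,[(41,0),(0,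
  0)]⟩,⟨1,[(27,0),(0,0)]⟩⟩]⟩) (.R ⟨1,false,false,true,[0,0,0,0,1],[1,-1],[1],(⟨0,[(23,0)]⟩,⟨0,[(22,
  0)]⟩),(⟨0,[(33,0)]⟩,⟨0,[(34,0)]⟩),⟨0,[(2,0)]⟩,.k,.k,(.r (-1) ⟨3,[(15,1),(4,0),(0,0),(20,0)]⟩ ⟨7,
  [(1,2),(7,3),(11,2),(20,0),(1,1)]⟩),(.r 0 ⟨1,[(9,0),(10,0),(0,0)]⟩ ⟨3,[(1,0),(13,1),(5,0),(20,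
  0)]⟩),.k,.k,⟨true,0,⟨0,[(37,0)]⟩,⟨0,[(39,0)]⟩⟩,⟨false,1,⟨0,[(20,0),(3,0),(2,0)]⟩,⟨0,[(0,0),(40,
  0)]⟩⟩,⟨false,1,⟨1,[(20,0),(0,0),(20,0)]⟩,⟨0,[]⟩⟩,⟨false,1,⟨3,[(1,2),(3,0),(4,0),(9,0),(3,2),(2,2),
  (14,0)]⟩,⟨1,[(0,1),(8,0),(31,1),(0,0)]⟩⟩,⟨true,0,⟨0,[(40,0)]⟩,⟨0,[(39,0)]⟩⟩,⟨false,1,⟨0,[(1,0),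
  (22,0),(2,0)]⟩,⟨1,[(0,1),(40,0),(0,0)]⟩⟩,[.o ⟨false,0,⟨0,[(39,0)]⟩,⟨1,[(9,0),(22,0),(8,0),(0,
  0)]⟩⟩,.a ⟨true,0,⟨3,[(5,0),(4,0),(13,2),(2,2),(14,0)]⟩,⟨0,[(40,0)]⟩⟩ ⟨false,1,⟨1,[(41,0),(0,0)]⟩,
  ⟨0,[(44,0)]⟩⟩ ⟨true,1,⟨3,[(5,0),(4,0),(9,3),(3,2),(2,2),(14,0)]⟩,⟨1,[(0,1),(8,0),(31,0)]⟩⟩,.o
  ⟨false,0,⟨3,[(0,1),(20,1),(10,0),(8,0)]⟩,⟨0,[(20,0)]⟩⟩,.o ⟨false,(-1),⟨0,[(0,0)]⟩,⟨1,[(20,2),(0,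
  0),(19,0)]⟩⟩]⟩)) (.R ⟨2,true,false,true,[0,1],[0,0,0,0,1],[0,1],(⟨0,[]⟩,⟨0,[]⟩),(⟨0,[(22,0)]⟩,⟨0,
  [(21,0)]⟩),⟨0,[]⟩,.k,.k,.k,(.r 0 ⟨9,[(8,4),(10,2),(0,2),(20,1),(1,3)]⟩ ⟨3,[(14,1),(4,0),(0,0),(20,
  0)]⟩),.k,.k,⟨false,1,⟨9,[(19,3),(0,3),(19,4),(0,0),(1,1)]⟩,⟨0,[]⟩⟩,⟨true,(-1),⟨0,[(2,0)]⟩,⟨0,[(19,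
  0)]⟩⟩,⟨false,1,⟨3,[(14,1),(4,0),(0,0),(20,0)]⟩,⟨0,[(36,0)]⟩⟩,⟨true,(-1),⟨17,[(0,10),(1,4),(0,1),
  (0,3),(4,3),(21,1),(2,4)]⟩,⟨0,[(19,0),(19,0)]⟩⟩,⟨true,0,⟨0,[(37,0)]⟩,⟨1,[(26,0),(0,0)]⟩⟩,⟨false,
  (-1),⟨0,[(0,0)]⟩,⟨4,[(19,6),(0,1),(20,2),(1,0)]⟩⟩,[]⟩)) (.Q [0,0,1,-1,-1,0,0,0,1,0,0,1] (.p true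
  [0,0,0,0,1] [] (⟨0,[(21,0)]⟩,⟨0,[(20,0)]⟩) .k 0 (⟨0,[]⟩,⟨0,[]⟩) .k .k) (.R ⟨0,false,false,true,[0,
  0,0,0,1],[0,1],[0,1],(⟨0,[(22,0)]⟩,⟨0,[(21,0)]⟩),(⟨0,[(33,0)]⟩,⟨0,[(32,0)]⟩),⟨0,[(1,0)]⟩,.k,.k,
  (.r (-1) ⟨3,[(14,1),(4,0),(0,0),(20,0)]⟩ ⟨9,[(8,4),(10,2),(0,2),(20,1),(1,3)]⟩),(.r (-1) ⟨3,[(14,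
  1),(4,0),(0,0),(20,0)]⟩ ⟨9,[(8,4),(10,2),(0,2),(20,1),(1,3)]⟩),.k,.k,⟨true,1,⟨3,[(14,1),(4,0),(0,
  0),(20,0)]⟩,⟨0,[(5,0)]⟩⟩,⟨false,2,⟨0,[(19,0),(20,0)]⟩,⟨0,[(2,0)]⟩⟩,⟨true,0,⟨0,[(43,0)]⟩,⟨0,[]⟩⟩,
  ⟨false,1,⟨0,[(19,0),(19,0)]⟩,⟨1,[(0,1),(39,0),(0,0)]⟩⟩,⟨false,0,⟨0,[]⟩,⟨0,[]⟩⟩,⟨false,0,⟨0,[]⟩,⟨0,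
  []⟩⟩,[.o ⟨false,0,⟨1,[(8,0),(22,0),(5,1)]⟩,⟨10,[(3,2),(2,1),(2,1),(4,0),(4,2),(7,1),(13,6)]⟩⟩,.a
  ⟨true,0,⟨0,[(39,0)]⟩,⟨3,[(4,0),(4,0),(13,2),(2,2),(14,0)]⟩⟩ ⟨false,1,⟨1,[(19,0),(0,0),(19,0)]⟩,⟨0,
  []⟩⟩ ⟨true,1,⟨1,[(8,0),(10,1),(20,0)]⟩,⟨0,[(0,0)]⟩⟩,.o ⟨false,0,⟨1,[(2,1),(28,0),(8,0)]⟩,⟨0,[(19,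
  0)]⟩⟩,.e ⟨true,0,⟨0,[(37,0)]⟩,⟨1,[(26,0),(0,0)]⟩⟩ ⟨true,1,⟨1,[(8,0),(10,1),(17,1),(2,0)]⟩,⟨0,[(0,
  0)]⟩⟩]⟩) (.K ⟨0,[0,0,0,0,1],(-1),(-1),(⟨0,[(22,0)]⟩,⟨0,[(21,0)]⟩),.k,(.r (-1) ⟨3,[(14,1),(4,0),(0,
  0),(20,0)]⟩ ⟨9,[(8,4),(10,2),(0,2),(20,1),(1,3)]⟩),(.r 0 ⟨1,[(8,0),(10,0),(0,0)]⟩ ⟨9,[(14,4),(4,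
  1),(0,1),(20,2),(1,0)]⟩),.k,.k,[⟨4,[(0,4),(4,0),(0,1),(2,1),(16,2),(14,0)]⟩,⟨0,[(2,0)]⟩,⟨0,[(19,
  0),(23,0)]⟩,⟨0,[(2,0),(34,0)]⟩]⟩))) (.Q [0,-1,0,0,1,0,1,1,-1,0,1,-1] (.p true [0,0,1] [0,0,0,0,1]
  (⟨0,[(27,0)]⟩,⟨0,[(26,0)]⟩) .k 2 (⟨0,[(20,0)]⟩,⟨0,[(19,0)]⟩) .k (.r (-1) ⟨11,[(14,5),(2,2),(0,2),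
  (3,11),(6,0),(3,1),(5,5)]⟩ ⟨0,[(9,0)]⟩)) (.Q [0,0,0,0,0,-1,0,0,0,0,0,1] (.ed false [1,-1,0,0,1]
  .k) (.S ⟨1,0,[1],[0,0,0,0,1],[0,1],(⟨0,[(22,0)]⟩,⟨0,[(21,0)]⟩),⟨0,[(0,0)]⟩,.k,(.r (-1) ⟨3,[(14,1),
  (4,0),(0,0),(20,0)]⟩ ⟨9,[(8,4),(10,2),(0,2),(20,1),(1,3)]⟩),⟨true,0,⟨0,[(43,0)]⟩,⟨0,[]⟩⟩,⟨false,1,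
  ⟨1,[(19,0),(0,0),(20,0)]⟩,⟨0,[]⟩⟩,⟨false,0,⟨0,[(5,0),(31,1),(3,0)]⟩,⟨10,[(3,2),(2,1),(2,1),(4,0),
  (4,2),(7,1),(13,6)]⟩⟩,⟨true,0,⟨0,[(39,0)]⟩,⟨0,[(38,0)]⟩⟩,[.a ⟨true,0,⟨0,[(20,0)]⟩,⟨1,[(1,1),(2,0),
  (3,0),(2,0),(11,0),(13,0)]⟩⟩ ⟨false,0,⟨0,[(37,0)]⟩,⟨1,[(19,0),(0,0),(20,0)]⟩⟩ ⟨true,0,⟨0,[]⟩,⟨1,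
  [(26,0),(0,0)]⟩⟩,.o ⟨false,1,⟨1,[(20,1),(10,0),(9,0)]⟩,⟨4,[(1,1),(0,2),(1,1),(0,3),(25,0),(5,
  4)]⟩⟩,.e ⟨true,0,⟨0,[(43,0)]⟩,⟨0,[]⟩⟩ ⟨true,0,⟨0,[]⟩,⟨0,[(43,0)]⟩⟩,.o ⟨false,0,⟨5,[(3,5),(4,2),
  (22,0),(3,1)]⟩,⟨0,[(2,0)]⟩⟩]⟩) (.S ⟨1,0,[-1,1],[1,0,0,0,-1],[-1],(⟨0,[(21,0)]⟩,⟨0,[(22,0)]⟩),⟨0,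
  [(0,0),(16,0),(0,0)]⟩,.k,(.r (-1) ⟨9,[(14,4),(4,1),(0,1),(20,2),(1,0)]⟩ ⟨1,[(8,0),(10,0),(0,0)]⟩),
  ⟨false,1,⟨1,[(19,0),(0,0),(20,0)]⟩,⟨0,[]⟩⟩,⟨true,0,⟨0,[(43,0)]⟩,⟨0,[]⟩⟩,⟨true,0,⟨0,[(39,0)]⟩,⟨0,
  [(38,0)]⟩⟩,⟨false,0,⟨0,[(39,0)]⟩,⟨10,[(3,2),(2,1),(2,1),(4,0),(4,2),(7,1),(13,6)]⟩⟩,[.o ⟨false,0,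
  ⟨4,[(1,1),(0,2),(1,1),(0,3),(25,0),(5,4)]⟩,⟨1,[(20,1),(10,0),(9,0)]⟩⟩,.e ⟨false,1,⟨0,[(37,0),(3,
  0)]⟩,⟨0,[(43,0)]⟩⟩ ⟨false,1,⟨9,[(19,3),(0,3),(19,4),(0,0),(1,1)]⟩,⟨0,[]⟩⟩,.a ⟨true,0,⟨0,[(1,0),(8,
  0),(12,0)]⟩,⟨0,[(20,0)]⟩⟩ ⟨false,1,⟨4,[(19,1),(0,1),(20,2),(1,0)]⟩,⟨0,[]⟩⟩ ⟨true,0,⟨0,[(43,0)]⟩,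
  ⟨0,[]⟩⟩,.o ⟨false,0,⟨4,[(1,1),(0,2),(1,1),(0,3),(25,0)]⟩,⟨1,[(20,1),(10,0),(8,0)]⟩⟩]⟩)) (.Q [-1,1,
  0,0,0,0,0,0,-1,0,0,-1] (.p false [0,0,0,0,1] [] (⟨0,[(21,0)]⟩,⟨0,[(20,0)]⟩) .k 0 (⟨0,[]⟩,⟨0,[]⟩)
  .k .k) (.Q [0,0,0,0,0,-1,0,0,0,1,0,-1] (.ed true [0,1,0,0,1] .k) (.Q [0,0,1,0,0,0,0,0,-1,0,0,-1]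
  (.p false [0,0,0,0,1] [] (⟨0,[(23,0)]⟩,⟨0,[(22,0)]⟩) .k 0 (⟨0,[]⟩,⟨0,[]⟩) .k .k) (.R ⟨1,false,
  false,true,[1,0,0,0,-1],[1,-1],[1,1,1],(⟨0,[(23,0)]⟩,⟨0,[(24,0)]⟩),(⟨0,[(34,0)]⟩,⟨0,[(35,0)]⟩),⟨0,
  [(1,0)]⟩,.k,.k,(.r (-1) ⟨9,[(16,4),(4,1),(0,1),(20,2),(1,0)]⟩ ⟨1,[(10,0),(10,0),(0,0)]⟩),(.r 0 ⟨9,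
  [(10,4),(10,2),(0,2),(20,1),(1,3)]⟩ ⟨3,[(16,1),(4,0),(0,0),(20,0)]⟩),.k,.k,⟨true,(-1),⟨0,[(7,0)]⟩,
  ⟨3,[(16,1),(4,0),(0,0),(20,0)]⟩⟩,⟨false,0,⟨0,[(22,0)]⟩,⟨0,[(4,0)]⟩⟩,⟨false,0,⟨1,[(28,0),(0,0)]⟩,
  ⟨0,[(39,0),(3,0)]⟩⟩,⟨false,0,⟨0,[(5,0)]⟩,⟨4,[(2,0),(1,3),(5,1),(30,0),(1,2)]⟩⟩,⟨true,(-1),⟨0,[(7,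
  0),(31,0)]⟩,⟨9,[(16,4),(4,1),(0,1),(20,2),(1,0)]⟩⟩,⟨false,0,⟨0,[(22,0)]⟩,⟨2,[(0,0),(1,0),(1,0),
  (38,1)]⟩⟩,[.o ⟨false,0,⟨0,[(40,0)]⟩,⟨1,[(10,0),(22,0),(8,0),(0,0)]⟩⟩,.a ⟨true,0,⟨3,[(6,0),(4,0),
  (13,2),(2,2),(14,0)]⟩,⟨0,[(41,0)]⟩⟩ ⟨false,0,⟨0,[]⟩,⟨1,[(21,0),(0,0),(19,0)]⟩⟩ ⟨true,0,⟨2,[(3,0),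
  (1,0),(5,0),(10,0),(20,0)]⟩,⟨1,[(0,0),(3,0),(5,0)]⟩⟩,.e ⟨false,0,⟨1,[(28,0),(0,0)]⟩,⟨1,[(42,0),(0,
  0)]⟩⟩ ⟨false,0,⟨2,[(3,0),(1,0),(5,0),(10,0),(20,0)]⟩,⟨1,[(4,1),(5,0),(32,0)]⟩⟩,.o ⟨false,0,⟨0,[(0,
  0)]⟩,⟨1,[(22,1),(10,0),(8,0)]⟩⟩]⟩) (.Q [1,0,0,0,0,0,0,0,1,-1,0,1] (.p true [0,0,0,0,1] [1] (⟨0,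
  [(24,0)]⟩,⟨0,[(23,0)]⟩) .k 1 (⟨0,[]⟩,⟨0,[]⟩) .k .k) (.R ⟨1,false,false,true,[0,0,1],[1,0,0,0,-1],
  [1,1,0,-1,0,0,0,1],(⟨0,[(32,0)]⟩,⟨0,[(31,0)]⟩),(⟨0,[(24,0)]⟩,⟨0,[(25,0)]⟩),⟨0,[(21,0)]⟩,.k,.k,.k,
  .k,(.r (-1) ⟨1,[(16,1),(26,0),(0,0)]⟩ ⟨1,[(11,0),(2,1),(7,0),(0,0)]⟩),.k,⟨false,1,⟨1,[(16,1),(26,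
  0),(0,0)]⟩,⟨1,[(11,0),(2,1),(28,0)]⟩⟩,⟨true,0,⟨0,[(5,0),(4,0)]⟩,⟨25,[(0,15),(0,9),(6,5),(0,1),(2,
  1),(16,23),(8,4),(5,0)]⟩⟩,⟨true,0,⟨0,[(41,0)]⟩,⟨0,[(42,0)]⟩⟩,⟨false,0,⟨0,[(5,0),(4,0),(3,0)]⟩,⟨0,
  [(0,0),(26,0),(16,0)]⟩⟩,⟨false,0,⟨0,[]⟩,⟨1,[(22,0),(0,0),(20,0)]⟩⟩,⟨false,0,⟨1,[(5,1),(4,0),(0,0),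
  (2,1),(11,0)]⟩,⟨1,[(0,1),(11,0),(14,0),(16,1)]⟩⟩,[.o ⟨false,0,⟨0,[(3,0)]⟩,⟨1,[(23,1),(10,0),(9,
  0)]⟩⟩,.o ⟨false,1,⟨3,[(3,0),(18,2),(21,0),(1,0)]⟩,⟨0,[(0,0)]⟩⟩,.o ⟨false,1,⟨1,[(29,1),(4,0),(8,
  0)]⟩,⟨0,[(18,0)]⟩⟩,.a ⟨true,0,⟨0,[(29,0)]⟩,⟨0,[(26,0)]⟩⟩ ⟨false,1,⟨1,[(16,1),(26,0),(0,0)]⟩,⟨1,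
  [(11,0),(2,1),(29,0)]⟩⟩ ⟨true,0,⟨0,[(3,0),(22,0)]⟩,⟨0,[(0,0),(28,0)]⟩⟩]⟩) (.R ⟨2,true,false,true,
  [0,1],[1,0,0,0,-1],[0,0,1,1],(⟨0,[]⟩,⟨0,[]⟩),(⟨0,[(24,0)]⟩,⟨0,[(25,0)]⟩),⟨0,[]⟩,.k,.k,.k,(.r 0 ⟨1,
  [(11,0),(10,0),(0,0)]⟩ ⟨9,[(17,4),(4,1),(0,1),(20,2),(1,0)]⟩),.k,.k,⟨true,0,⟨0,[(39,0)]⟩,⟨0,[(41,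
  0)]⟩⟩,⟨false,0,⟨0,[(0,0)]⟩,⟨1,[(23,1),(10,0),(8,0)]⟩⟩,⟨false,1,⟨1,[(22,0),(0,0),(20,0)]⟩,⟨0,[]⟩⟩,
  ⟨true,0,⟨0,[(0,0),(40,0)]⟩,⟨1,[(1,1),(9,0),(22,0)]⟩⟩,⟨true,0,⟨0,[(42,0)]⟩,⟨0,[(41,0)]⟩⟩,⟨false,0,
  ⟨0,[(0,0)]⟩,⟨1,[(23,1),(10,0),(9,0)]⟩⟩,[]⟩))) (.Q [-1,0,0,0,0,0,0,0,-1,1,0,-1] (.p false [0,0,0,0,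
  1] [1] (⟨0,[(23,0)]⟩,⟨0,[(22,0)]⟩) .k 1 (⟨0,[]⟩,⟨0,[]⟩) .k .k) (.S ⟨1,0,[1],[0,0,0,0,1],[0,1],(⟨0,
  [(24,0)]⟩,⟨0,[(23,0)]⟩),⟨0,[(1,0),(17,0),(0,0)]⟩,.k,(.r (-1) ⟨3,[(16,1),(4,0),(0,0),(20,0)]⟩ ⟨9,
  [(10,4),(10,2),(0,2),(20,1),(1,3)]⟩),⟨true,0,⟨0,[(45,0)]⟩,⟨0,[]⟩⟩,⟨false,1,⟨1,[(21,0),(0,0),(20,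
  0)]⟩,⟨0,[]⟩⟩,⟨false,0,⟨0,[(7,0),(31,1),(3,0)]⟩,⟨10,[(5,2),(2,1),(2,1),(4,0),(4,2),(7,1),(13,6)]⟩⟩,
  ⟨true,0,⟨0,[(41,0)]⟩,⟨0,[(40,0)]⟩⟩,[.a ⟨true,0,⟨0,[(22,0)]⟩,⟨0,[(0,0)]⟩⟩ ⟨false,0,⟨0,[(39,0)]⟩,⟨1,
  [(21,0),(0,0),(20,0)]⟩⟩ ⟨true,0,⟨0,[]⟩,⟨1,[(28,0),(0,0)]⟩⟩,.o ⟨false,1,⟨1,[(22,1),(10,0),(9,0)]⟩,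
  ⟨0,[(2,0)]⟩⟩,.e ⟨true,0,⟨0,[(45,0)]⟩,⟨0,[]⟩⟩ ⟨true,0,⟨0,[]⟩,⟨0,[(45,0)]⟩⟩,.o ⟨false,0,⟨5,[(5,5),
  (4,2),(22,0),(3,1)]⟩,⟨0,[(4,0)]⟩⟩]⟩) (.R ⟨1,false,false,true,[0,0,1],[1,0,0,0,-1],[1,1,0,-1,0,0,0,
  1],(⟨0,[(31,0)]⟩,⟨0,[(30,0)]⟩),(⟨0,[(23,0)]⟩,⟨0,[(24,0)]⟩),⟨0,[(20,0)]⟩,.k,.k,.k,.k,(.r (-1) ⟨1,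
  [(15,1),(26,0),(0,0)]⟩ ⟨1,[(10,0),(2,1),(7,0),(0,0)]⟩),.k,⟨false,1,⟨1,[(15,1),(26,0),(0,0)]⟩,⟨1,
  [(10,0),(2,1),(28,0)]⟩⟩,⟨true,0,⟨0,[(4,0),(4,0)]⟩,⟨4,[(0,4),(9,0),(0,1),(1,1),(14,2),(12,1),(1,
  0)]⟩⟩,⟨true,0,⟨0,[(40,0)]⟩,⟨0,[(41,0)]⟩⟩,⟨false,0,⟨0,[(4,0),(4,0),(3,0)]⟩,⟨0,[(0,0),(25,0),(16,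
  0)]⟩⟩,⟨false,0,⟨0,[]⟩,⟨1,[(21,0),(0,0),(20,0)]⟩⟩,⟨false,0,⟨1,[(4,1),(4,0),(0,0),(2,1),(11,0)]⟩,⟨1,
  [(0,1),(10,0),(14,0),(16,1)]⟩⟩,[.o ⟨false,0,⟨0,[(2,0)]⟩,⟨1,[(22,1),(10,0),(9,0)]⟩⟩,.o ⟨false,1,⟨3,
  [(2,0),(18,2),(21,0),(1,0)]⟩,⟨0,[(0,0)]⟩⟩,.o ⟨false,1,⟨1,[(28,1),(4,0),(8,0)]⟩,⟨0,[(17,0)]⟩⟩,.a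
  ⟨true,0,⟨0,[(28,0)]⟩,⟨0,[(25,0)]⟩⟩ ⟨false,1,⟨1,[(15,1),(26,0),(0,0)]⟩,⟨1,[(10,0),(2,1),(29,0)]⟩⟩
  ⟨true,0,⟨0,[(2,0),(22,0)]⟩,⟨0,[(0,0),(27,0)]⟩⟩]⟩))) (.R ⟨2,true,false,false,[0,1],[0,0,0,0,1],[1,
  0,1],(⟨0,[]⟩,⟨0,[]⟩),(⟨0,[(22,0)]⟩,⟨0,[(21,0)]⟩),⟨0,[]⟩,.k,.k,.k,(.r 0 ⟨9,[(8,4),(10,2),(0,2),(20,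
  1),(1,3)]⟩ ⟨3,[(14,1),(4,0),(0,0),(20,0)]⟩),.k,.k,⟨true,0,⟨1,[(26,0),(0,0)]⟩,⟨0,[]⟩⟩,⟨false,0,⟨0,
  [(20,0)]⟩,⟨0,[(2,0)]⟩⟩,⟨false,1,⟨10,[(3,2),(2,1),(2,1),(4,0),(4,2),(7,1),(13,6)]⟩,⟨0,[(39,0)]⟩⟩,
  ⟨true,0,⟨0,[(3,0)]⟩,⟨0,[(2,0),(2,0),(31,0)]⟩⟩,⟨true,0,⟨0,[]⟩,⟨0,[(43,0)]⟩⟩,⟨false,0,⟨0,[(0,0)]⟩,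
  ⟨1,[(2,0),(16,0),(22,0)]⟩⟩,[]⟩))))))))))))

theorem ok2 : chk K t2 l4 = true := by decide +kernel

noncomputable def t3 : Tre :=
  (.S ⟨1,0,[0,1,1,1,0,0,0,-1],[1,1,-1],[1,0,1,0,0,0,0,-1],(⟨0,[(20,0),(4,0)]⟩,⟨0,[(10,0)]⟩),⟨0,[(20,
  0)]⟩,.k,.k,⟨false,1,⟨0,[(30,0),(2,0)]⟩,⟨0,[(31,0)]⟩⟩,⟨true,0,⟨0,[(35,0)]⟩,⟨0,[]⟩⟩,⟨true,0,⟨0,[]⟩,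
  ⟨0,[(35,0)]⟩⟩,⟨false,0,⟨0,[(31,0)]⟩,⟨0,[(30,0),(2,0)]⟩⟩,[.o ⟨false,0,⟨0,[(0,0),(34,0)]⟩,⟨0,[(1,
  0)]⟩⟩,.o ⟨false,0,⟨0,[(0,0)]⟩,⟨8,[(1,4),(3,1),(0,0),(4,0),(0,0),(3,1),(1,1),(4,1)]⟩⟩,.a ⟨true,0,
  ⟨0,[(15,0)]⟩,⟨0,[(18,0)]⟩⟩ ⟨true,0,⟨0,[(2,0)]⟩,⟨0,[(3,0),(25,0)]⟩⟩ ⟨false,0,⟨0,[(0,0),(17,0)]⟩,⟨0,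
  [(1,0),(13,0)]⟩⟩,.o ⟨false,0,⟨0,[(7,0)]⟩,⟨1,[(18,1),(4,0),(8,0)]⟩⟩]⟩)

theorem ok3 : chk K t3 l7 = true := by decide +kernel

noncomputable def t4 : Tre :=
  (.S ⟨1,0,[0,0,1,1,0,0,0,-1],[1,1,-1],[1,1,1,0,0,0,0,-1],(⟨0,[(21,0),(4,0)]⟩,⟨0,[(11,0)]⟩),⟨0,[(21,
  0)]⟩,.k,.k,⟨true,0,⟨0,[(31,0)]⟩,⟨0,[(32,0)]⟩⟩,⟨false,1,⟨1,[(12,0),(0,0),(20,0)]⟩,⟨0,[]⟩⟩,⟨false,0,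
  ⟨0,[]⟩,⟨1,[(12,0),(0,0),(20,0)]⟩⟩,⟨true,0,⟨0,[(32,0)]⟩,⟨0,[(31,0)]⟩⟩,[.a ⟨true,0,⟨0,[(0,0),(35,
  0)]⟩,⟨0,[(1,0)]⟩⟩ ⟨false,0,⟨0,[(3,0),(26,0)]⟩,⟨1,[(4,1),(28,0),(0,0)]⟩⟩ ⟨true,0,⟨0,[(3,0),(28,
  0)]⟩,⟨0,[(1,0),(6,0)]⟩⟩,.a ⟨true,0,⟨0,[(0,0)]⟩,⟨0,[(5,0)]⟩⟩ ⟨true,0,⟨0,[(3,0)]⟩,⟨0,[(1,0),(6,0),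
  (23,0)]⟩⟩ ⟨false,1,⟨1,[(0,1),(18,1),(4,0),(8,0)]⟩,⟨0,[(1,0),(6,0),(21,0)]⟩⟩,.a ⟨true,0,⟨0,[(16,
  0)]⟩,⟨0,[(19,0)]⟩⟩ ⟨false,0,⟨0,[(3,0)]⟩,⟨1,[(4,1),(28,0),(0,0)]⟩⟩ ⟨true,0,⟨0,[(3,0),(28,0)]⟩,⟨0,
  [(1,0),(6,0),(21,0)]⟩⟩,.o ⟨false,0,⟨0,[(8,0)]⟩,⟨1,[(19,1),(4,0),(8,0)]⟩⟩]⟩)

theorem ok4 : chk K t4 l8 = true := by decide +kernel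

noncomputable def t5 : Tre :=
  (.S ⟨1,0,[0,0,0,0,0,0,0,-1],[1,0,-1],[0,1,0,0,0,0,0,-1],(⟨0,[(22,0)]⟩,⟨0,[(23,0)]⟩),⟨0,[(11,0)]⟩,
  .k,.k,⟨true,0,⟨0,[(37,0)]⟩,⟨0,[]⟩⟩,⟨false,1,⟨1,[(13,0),(0,0),(20,0)]⟩,⟨0,[]⟩⟩,⟨false,0,⟨0,[(33,
  0)]⟩,⟨0,[(32,0),(2,0)]⟩⟩,⟨true,0,⟨0,[(33,0)]⟩,⟨0,[(32,0)]⟩⟩,[.a ⟨true,0,⟨0,[(4,0),(12,0)]⟩,⟨0,[(2,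
  0),(30,0)]⟩⟩ ⟨true,0,⟨0,[(4,0),(26,0)]⟩,⟨0,[(2,0),(6,0),(20,0)]⟩⟩ ⟨false,1,⟨0,[(4,0),(29,0)]⟩,⟨0,
  [(5,0)]⟩⟩,.o ⟨false,1,⟨0,[(19,0),(15,0)]⟩,⟨0,[(1,0),(31,0)]⟩⟩,.o ⟨false,0,⟨0,[(9,0)]⟩,⟨3,[(0,1),
  (12,0),(0,0),(5,1),(4,0)]⟩⟩,.o ⟨false,0,⟨0,[(21,0)]⟩,⟨0,[(0,0)]⟩⟩]⟩)

theorem ok5 : chk K t5 l9 = true := by decide +kernel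

noncomputable def t6 : Tre :=
  (.R ⟨1,false,false,false,[1,-1],[1,-1,-1],[0,1,-1,-1],(⟨0,[(27,0)]⟩,⟨0,[(28,0)]⟩),(⟨0,[(12,0)]⟩,
  ⟨0,[(24,0),(3,0)]⟩),⟨0,[(12,0),(0,0)]⟩,.k,.k,(.r (-1) ⟨0,[(0,0),(2,0)]⟩ ⟨0,[(31,1),(6,1)]⟩),.k,.k,
  .k,⟨false,0,⟨0,[(6,0),(25,0)]⟩,⟨1,[(5,1),(29,0),(0,0)]⟩⟩,⟨true,0,⟨0,[(10,0)]⟩,⟨0,[(21,0)]⟩⟩,⟨true,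
  0,⟨0,[(38,0)]⟩,⟨0,[]⟩⟩,⟨false,1,⟨0,[(20,0),(15,0)]⟩,⟨0,[(3,0),(30,0)]⟩⟩,⟨false,0,⟨0,[(34,0)]⟩,⟨0,
  [(33,0),(2,0)]⟩⟩,⟨false,1,⟨0,[(20,0),(13,0),(1,0)]⟩,⟨0,[(3,0)]⟩⟩,[.e ⟨false,1,⟨7,[(9,3),(4,0),(0,
  0),(13,1),(5,2)]⟩,⟨0,[(31,0)]⟩⟩ ⟨false,1,⟨0,[(0,0)]⟩,⟨0,[(19,0),(11,0)]⟩⟩,.o ⟨false,1,⟨2,[(0,1),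
  (0,0),(2,0),(0,1),(16,0),(13,0)]⟩,⟨0,[(2,0),(31,1)]⟩⟩,.o ⟨false,0,⟨1,[(21,0),(0,0)]⟩,⟨1,[(26,0),
  (8,0)]⟩⟩,.a ⟨true,(-1),⟨0,[(1,0),(19,0)]⟩,⟨0,[(35,0)]⟩⟩ ⟨false,1,⟨1,[(0,0),(2,0),(31,0)]⟩,⟨1,[(21,
  0),(0,0),(8,1)]⟩⟩ ⟨true,1,⟨0,[(0,0)]⟩,⟨0,[(1,0),(0,0),(18,0),(12,1)]⟩⟩]⟩)

theorem ok6 : chk K t6 l10 = true := by decide +kernel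

noncomputable def t7 : Tre :=
  (.I [0,0,-2,0,1,-2,-1] (.R ⟨1,true,false,false,[0,0,1],[0,1],[0,1,0,0,0,0,0,1],(⟨0,[(26,0)]⟩,⟨0,
  [(25,0)]⟩),(⟨0,[(30,0)]⟩,⟨0,[(29,0)]⟩),⟨0,[(15,0)]⟩,.k,.k,.k,.k,(.x 0 ⟨3,[(2,1),(1,0),(1,0),(0,3),
  (17,3),(2,0),(1,7)]⟩ ⟨0,[(0,0)]⟩),.k,⟨true,0,⟨0,[(4,0),(15,0)]⟩,⟨0,[(7,0),(25,0)]⟩⟩,⟨false,1,⟨1,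
  [(20,1),(7,0),(8,0)]⟩,⟨0,[(23,0)]⟩⟩,⟨true,0,⟨0,[(40,0)]⟩,⟨0,[]⟩⟩,⟨false,1,⟨3,[(1,1),(14,0),(0,0),
  (4,1),(15,2)]⟩,⟨0,[(5,0)]⟩⟩,⟨false,0,⟨0,[(36,0)]⟩,⟨0,[(35,0),(2,0)]⟩⟩,⟨true,0,⟨0,[(1,0)]⟩,⟨0,[(5,
  0),(29,0)]⟩⟩,[]⟩) (.I [0,0,-2,-2,1,0,0,1] (.R ⟨1,true,false,false,[0,0,1],[0,1],[0,1,0,0,0,0,0,1],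
  (⟨0,[(27,0)]⟩,⟨0,[(26,0)]⟩),(⟨0,[(31,0)]⟩,⟨0,[(30,0)]⟩),⟨0,[(16,0)]⟩,.k,.k,.k,.k,(.r (-1) ⟨0,[(0,
  0)]⟩ ⟨1,[(2,1),(21,2),(0,0)]⟩),.k,⟨true,0,⟨0,[(5,0),(15,0)]⟩,⟨0,[(8,0),(25,0)]⟩⟩,⟨false,1,⟨1,[(21,
  1),(7,0),(8,0)]⟩,⟨0,[(24,0)]⟩⟩,⟨true,0,⟨0,[(41,0)]⟩,⟨0,[]⟩⟩,⟨false,1,⟨3,[(2,1),(14,0),(0,0),(4,1),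
  (15,2)]⟩,⟨0,[(6,0)]⟩⟩,⟨false,0,⟨0,[(37,0)]⟩,⟨0,[(36,0),(2,0)]⟩⟩,⟨true,0,⟨0,[(2,0)]⟩,⟨0,[(6,0),(29,
  0)]⟩⟩,[]⟩) (.I [0,0,2,2,-1,0,0,-1] (.R ⟨1,true,false,true,[0,0,1],[0,1],[0,0,0,0,0,0,0,1],(⟨0,
  [(28,0)]⟩,⟨0,[(27,0)]⟩),(⟨0,[(32,0)]⟩,⟨0,[(31,0)]⟩),⟨0,[(17,0)]⟩,.k,.k,.k,.k,(.r (-2) ⟨7,[(8,3),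
  (4,5),(1,3),(2,0),(0,0),(3,3),(15,1),(0,2)]⟩ ⟨0,[(0,0)]⟩),.k,⟨true,1,⟨0,[(8,0),(13,0)]⟩,⟨0,[(0,0),
  (36,0)]⟩⟩,⟨false,1,⟨1,[(22,1),(7,0),(8,0)]⟩,⟨0,[(25,0)]⟩⟩,⟨false,1,⟨1,[(18,0),(0,0),(20,0)]⟩,⟨0,
  []⟩⟩,⟨true,0,⟨1,[(3,0),(20,0),(17,0)]⟩,⟨0,[(7,0)]⟩⟩,⟨true,0,⟨0,[(38,0)]⟩,⟨0,[(37,0)]⟩⟩,⟨false,0,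
  ⟨0,[(3,0)]⟩,⟨0,[(7,0),(29,0),(2,0)]⟩⟩,[]⟩) (.I [0,-1,0,1,0,0,0,1] (.S ⟨1,0,[0,0,0,0,0,0,0,-1],[1,
  0,-1],[],(⟨0,[(28,0)]⟩,⟨0,[(29,0)]⟩),⟨0,[(17,0)]⟩,.k,.k,⟨true,0,⟨1,[(0,0),(12,0)]⟩,⟨0,[(2,0),(11,
  0)]⟩⟩,⟨false,1,⟨1,[(19,0),(0,0),(20,0)]⟩,⟨0,[]⟩⟩,⟨false,0,⟨0,[(0,0)]⟩,⟨3,[(10,3),(3,1),(4,0),(0,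
  0),(20,0)]⟩⟩,⟨true,0,⟨0,[(39,0)]⟩,⟨0,[(38,0)]⟩⟩,[.e ⟨false,1,⟨1,[(19,0),(0,0),(19,0)]⟩,⟨0,[]⟩⟩
  ⟨false,1,⟨0,[(10,0),(29,0)]⟩,⟨0,[(11,0)]⟩⟩,.o ⟨false,1,⟨0,[(25,0),(15,0)]⟩,⟨0,[(7,0),(31,0)]⟩⟩,.o
  ⟨false,0,⟨0,[(15,0)]⟩,⟨1,[(26,1),(4,0),(8,0)]⟩⟩,.a ⟨true,(-1),⟨0,[(6,0)]⟩,⟨0,[(26,0),(13,0)]⟩⟩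
  ⟨false,1,⟨1,[(40,0),(0,0)]⟩,⟨1,[(26,0),(0,0)]⟩⟩ ⟨true,1,⟨0,[(10,0),(29,0)]⟩,⟨4,[(0,0),(3,0),(0,0),
  (0,3),(0,3),(26,0)]⟩⟩]⟩) (.I [0,0,2,0,-1,2,1] (.N [0,-2,1] (-1) ⟨0,[(2,0)]⟩ ⟨0,[(3,0)]⟩ (.x 1 ⟨0,
  [(0,0)]⟩ ⟨3,[(17,1),(1,3),(0,0),(0,0),(10,2),(0,3),(7,3)]⟩)) (.Q [0,0,0,2,0,0,1,1,0,-1,1] (.p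
  true [0,0,1] [1] (⟨0,[(30,0)]⟩,⟨0,[(29,0)]⟩) .k 1 (⟨0,[]⟩,⟨0,[]⟩) .k .k) (.R ⟨1,false,false,false,
  [1,0,-1],[0,1],[],(⟨0,[(30,0)]⟩,⟨0,[(31,0)]⟩),(⟨0,[(35,0)]⟩,⟨0,[(34,0)]⟩),⟨0,[(19,0)]⟩,.k,.k,.k,
  .k,(.r (-2) ⟨1,[(12,1),(3,1),(25,0),(0,0)]⟩ ⟨6,[(0,3),(3,0),(2,3),(0,1),(9,1),(10,1)]⟩),.k,⟨true,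
  1,⟨3,[(16,1),(4,0),(0,0),(20,0)]⟩,⟨7,[(4,3),(2,1),(0,3),(0,0),(1,0),(21,0)]⟩⟩,⟨false,2,⟨1,[(28,1),
  (4,0),(8,2)]⟩,⟨0,[(8,0)]⟩⟩,⟨true,0,⟨0,[(4,0),(3,1),(1,1),(26,0),(1,3),(3,1)]⟩,⟨5,[(2,3),(1,0),(1,
  0),(21,0),(7,0),(5,0)]⟩⟩,⟨false,1,⟨3,[(0,1),(25,1),(6,0),(9,2)]⟩,⟨1,[(2,1),(5,0),(16,0),(17,0)]⟩⟩,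
  ⟨true,0,⟨10,[(0,4),(6,0),(5,2),(4,2),(6,1),(0,1),(16,0)]⟩,⟨0,[(2,0)]⟩⟩,⟨true,0,⟨0,[(0,0)]⟩,⟨3,[(2,
  3),(5,2),(7,1),(1,0),(9,0),(14,0)]⟩⟩,[.e ⟨false,1,⟨1,[(21,0),(0,0),(19,0)]⟩,⟨0,[]⟩⟩ ⟨false,1,⟨1,
  [(0,1),(1,1),(39,0),(0,0)]⟩,⟨3,[(8,2),(7,1),(1,0),(9,0),(14,0)]⟩⟩,.o ⟨false,1,⟨7,[(0,1),(5,1),(14,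
  0),(0,0),(10,2),(9,3)]⟩,⟨0,[(40,0)]⟩⟩,.o ⟨false,0,⟨0,[(17,0)]⟩,⟨1,[(28,1),(4,0),(8,0)]⟩⟩,.a ⟨true,
  (-1),⟨0,[(8,0)]⟩,⟨0,[(28,0),(13,0)]⟩⟩ ⟨false,1,⟨1,[(42,0),(0,0)]⟩,⟨1,[(28,0),(0,0)]⟩⟩ ⟨true,1,⟨1,
  [(0,1),(1,1),(39,0),(0,0)]⟩,⟨0,[(8,0),(31,0)]⟩⟩]⟩) (.Q [-1,0,0,1,0,0,0,0,-1,0,0,-1] (.p false [0,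
  0,0,0,1] [] (⟨0,[(24,0)]⟩,⟨0,[(23,0)]⟩) .k 0 (⟨0,[]⟩,⟨0,[]⟩) .k .k) (.R ⟨2,true,false,false,[0,1],
  [0,0,0,0,1],[2],(⟨0,[]⟩,⟨0,[]⟩),(⟨0,[(25,0)]⟩,⟨0,[(24,0)]⟩),⟨0,[]⟩,.k,.k,.k,(.r 0 ⟨11,[(7,3),(19,
  3),(1,0),(0,0),(8,3),(5,5)]⟩ ⟨3,[(17,1),(4,0),(0,0),(20,0)]⟩),.k,.k,⟨true,0,⟨0,[]⟩,⟨1,[(29,0),(0,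
  0)]⟩⟩,⟨false,0,⟨0,[(23,0)]⟩,⟨5,[(0,3),(16,1),(4,1),(20,0),(0,0)]⟩⟩,⟨true,1,⟨3,[(17,1),(4,0),(0,0),
  (20,0)]⟩,⟨11,[(5,4),(1,0),(0,2),(0,4),(0,2),(27,0),(1,8)]⟩⟩,⟨false,1,⟨2,[(1,0),(10,0),(9,0),(0,3),
  (20,0)]⟩,⟨0,[(0,0)]⟩⟩,⟨false,1,⟨1,[(43,0),(0,0)]⟩,⟨0,[(45,0)]⟩⟩,⟨true,0,⟨0,[(23,0)]⟩,⟨0,[(0,0),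
  (40,0)]⟩⟩,[]⟩) (.Q [0,0,1,0,-1,0,0,0,1,0,0,1] (.p true [0,0,0,0,1] [] (⟨0,[(25,0)]⟩,⟨0,[(24,0)]⟩)
  .k 0 (⟨0,[]⟩,⟨0,[]⟩) .k .k) (.Q [0,0,0,0,1,0,1,0,-1,0,1,-1] (.p true [0,0,1] [0,0,0,0,1] (⟨0,[(33,
  0)]⟩,⟨0,[(32,0)]⟩) .k 2 (⟨0,[(26,0)]⟩,⟨0,[(25,0)]⟩) .k (.r 0 ⟨4,[(10,0),(1,1),(2,2),(11,0),(11,0),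
  (3,1)]⟩ ⟨1,[(14,1),(8,0),(0,0),(19,0)]⟩)) (.K ⟨0,[0,0,0,0,1],(-1),(-1),(⟨0,[(27,0)]⟩,⟨0,[(26,
  0)]⟩),.k,(.r (-1) ⟨3,[(19,1),(4,0),(0,0),(20,0)]⟩ ⟨11,[(9,3),(19,3),(1,0),(0,0),(8,3),(5,5)]⟩),
  (.r 0 ⟨2,[(9,0),(19,0),(1,0),(0,0),(8,0)]⟩ ⟨9,[(19,4),(4,1),(0,1),(20,2),(1,0)]⟩),.k,.k,[⟨0,[(0,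
  0)]⟩,⟨0,[(1,0)]⟩,⟨0,[(24,0),(23,0)]⟩,⟨0,[(1,0),(40,0)]⟩]⟩) (.Q [0,0,0,0,0,1,0,0,0,0,0,-1] (.ed
  true [1,-1,0,0,1] .k) (.R ⟨0,false,false,true,[0,0,0,0,1],[0,1],[0,1],(⟨0,[(28,0)]⟩,⟨0,[(27,0)]⟩),
  (⟨0,[(39,0)]⟩,⟨0,[(38,0)]⟩),⟨0,[(0,0)]⟩,.k,.k,(.r (-1) ⟨3,[(20,1),(4,0),(0,0),(20,0)]⟩ ⟨11,[(10,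
  3),(19,3),(1,0),(0,0),(8,3),(5,5)]⟩),(.r (-1) ⟨3,[(20,1),(4,0),(0,0),(20,0)]⟩ ⟨11,[(10,3),(19,3),
  (1,0),(0,0),(8,3),(5,5)]⟩),.k,.k,⟨true,1,⟨3,[(20,1),(4,0),(0,0),(20,0)]⟩,⟨7,[(8,3),(2,1),(0,3),(0,
  0),(1,0),(21,0)]⟩⟩,⟨false,2,⟨0,[(25,0),(20,0)]⟩,⟨0,[(2,0)]⟩⟩,⟨true,0,⟨0,[(49,0)]⟩,⟨0,[]⟩⟩,⟨false,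
  1,⟨0,[(25,0),(19,0)]⟩,⟨3,[(1,1),(0,1),(3,1),(7,1),(31,0),(0,2)]⟩⟩,⟨false,0,⟨0,[]⟩,⟨0,[]⟩⟩,⟨false,
  0,⟨0,[]⟩,⟨0,[]⟩⟩,[.o ⟨false,0,⟨0,[(10,0),(2,0)]⟩,⟨4,[(3,1),(0,0),(10,0),(9,1),(21,1)]⟩⟩,.a ⟨true,
  0,⟨0,[(45,0)]⟩,⟨2,[(4,0),(9,0),(14,1),(2,1)]⟩⟩ ⟨false,1,⟨1,[(25,0),(0,0),(19,0)]⟩,⟨0,[]⟩⟩ ⟨true,1,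
  ⟨0,[(25,0),(19,0)]⟩,⟨3,[(1,1),(0,1),(1,0),(1,0),(1,0),(5,1),(0,0)]⟩⟩,.o ⟨false,0,⟨1,[(2,1),(34,0),
  (8,0)]⟩,⟨0,[(25,0)]⟩⟩,.e ⟨true,0,⟨0,[(43,0)]⟩,⟨1,[(32,0),(0,0)]⟩⟩ ⟨true,1,⟨0,[(25,0),(17,0),(1,
  0)]⟩,⟨3,[(1,1),(0,1),(1,0),(1,0),(1,0),(5,1),(0,0)]⟩⟩]⟩) (.R ⟨1,false,false,true,[0,0,0,0,1],[0,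
  1],[0,1],(⟨0,[(28,0)]⟩,⟨0,[(27,0)]⟩),(⟨0,[(39,0)]⟩,⟨0,[(38,0)]⟩),⟨0,[(0,0)]⟩,.k,.k,(.r (-1) ⟨3,
  [(20,1),(4,0),(0,0),(20,0)]⟩ ⟨11,[(10,3),(19,3),(1,0),(0,0),(8,3),(5,5)]⟩),(.r (-1) ⟨3,[(20,1),(4,
  0),(0,0),(20,0)]⟩ ⟨11,[(10,3),(19,3),(1,0),(0,0),(8,3),(5,5)]⟩),(.r (-2) ⟨1,[(20,1),(4,0),(0,0),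
  (20,0)]⟩ ⟨5,[(8,1),(1,0),(0,2),(0,1),(28,0),(3,2)]⟩),.k,⟨true,1,⟨3,[(20,1),(4,0),(0,0),(20,0)]⟩,
  ⟨7,[(8,3),(2,1),(0,3),(0,0),(1,0),(21,0)]⟩⟩,⟨false,2,⟨0,[(25,0),(20,0)]⟩,⟨0,[(2,0)]⟩⟩,⟨true,0,⟨0,
  [(49,0)]⟩,⟨0,[]⟩⟩,⟨false,1,⟨0,[(25,0),(19,0)]⟩,⟨3,[(1,1),(0,1),(3,1),(7,1),(31,0),(0,2)]⟩⟩,⟨false,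
  0,⟨1,[(8,1),(3,1),(1,1),(26,0),(1,5),(3,2)]⟩,⟨4,[(3,1),(0,0),(10,0),(9,1),(21,1)]⟩⟩,⟨false,1,⟨0,
  [(25,0),(19,1)]⟩,⟨0,[(1,0),(4,0),(7,0),(32,0)]⟩⟩,[.o ⟨false,0,⟨0,[(10,0),(2,0)]⟩,⟨4,[(3,1),(0,0),
  (10,0),(9,1),(21,1)]⟩⟩,.a ⟨true,0,⟨0,[(45,0)]⟩,⟨2,[(4,0),(9,0),(14,1),(2,1)]⟩⟩ ⟨false,1,⟨1,[(25,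
  0),(0,0),(19,0)]⟩,⟨0,[]⟩⟩ ⟨true,1,⟨0,[(25,0),(19,0)]⟩,⟨3,[(1,1),(0,1),(1,0),(1,0),(1,0),(5,1),(0,
  0)]⟩⟩,.o ⟨false,0,⟨1,[(2,1),(34,0),(8,0)]⟩,⟨0,[(25,0)]⟩⟩,.e ⟨true,0,⟨0,[(43,0)]⟩,⟨1,[(32,0),(0,
  0)]⟩⟩ ⟨true,1,⟨0,[(25,0),(17,0),(1,0)]⟩,⟨3,[(1,1),(0,1),(1,0),(1,0),(1,0),(5,1),(0,0)]⟩⟩]⟩))) (.Q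
  [-1,0,0,2,0,0,0,0,-1,0,0,-1] (.p false [0,0,0,0,1] [] (⟨0,[(26,0)]⟩,⟨0,[(25,0)]⟩) .k 0 (⟨0,[]⟩,⟨0,
  []⟩) .k .k) (.R ⟨1,true,false,false,[1,-1],[1,0,0,0,-1],[0,1,-1,-1],(⟨0,[(37,0)]⟩,⟨0,[(38,0)]⟩),
  (⟨0,[(26,0)]⟩,⟨0,[(27,0)]⟩),⟨0,[(22,0),(0,0)]⟩,.k,.k,(.r (-2) ⟨1,[(19,1),(4,0),(0,0),(20,0)]⟩ ⟨8,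
  [(7,1),(1,3),(0,5),(0,1),(24,0)]⟩),(.r (-1) ⟨3,[(19,1),(4,0),(0,0),(20,0)]⟩ ⟨11,[(9,3),(19,3),(1,
  0),(0,0),(8,3),(5,5)]⟩),(.r (-2) ⟨1,[(19,1),(4,0),(0,0),(20,0)]⟩ ⟨5,[(7,1),(1,0),(0,2),(0,1),(28,
  0),(3,2)]⟩),.k,⟨false,1,⟨7,[(19,3),(4,0),(0,0),(13,1),(5,2)]⟩,⟨1,[(7,1),(3,1),(1,1),(26,0),(1,3),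
  (3,2)]⟩⟩,⟨true,1,⟨0,[(1,0)]⟩,⟨6,[(2,5),(4,3),(2,0),(0,3),(1,2),(11,0),(14,1)]⟩⟩,⟨true,0,⟨0,[(48,
  0)]⟩,⟨0,[]⟩⟩,⟨false,1,⟨1,[(0,0),(23,0),(21,0)]⟩,⟨0,[(2,0)]⟩⟩,⟨false,0,⟨0,[(44,0)]⟩,⟨4,[(2,1),(0,
  0),(10,0),(9,1),(21,1)]⟩⟩,⟨true,0,⟨0,[(0,0)]⟩,⟨0,[(2,0),(40,0)]⟩⟩,[]⟩) (.Q [0,0,0,1,0,0,2,2,0,-1,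
  2] (.p true [0,0,1] [1,0,-1] (⟨0,[(34,0)]⟩,⟨0,[(33,0)]⟩) .k 2 (⟨0,[(33,0)]⟩,⟨0,[(34,0)]⟩) .k (.r
  0 ⟨0,[(7,1),(3,3),(1,3),(26,1),(1,7),(3,3)]⟩ ⟨0,[(15,1),(29,0)]⟩)) (.R ⟨1,true,false,true,[1,0,
  -1],[0,0,1],[1,0,0,-1,0,0,0,-1],(⟨0,[(34,0)]⟩,⟨0,[(35,0)]⟩),(⟨0,[(35,0)]⟩,⟨0,[(34,0)]⟩),⟨0,[(23,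
  0)]⟩,.k,.k,.k,.k,(.r (-2) ⟨3,[(16,7),(3,1),(4,0),(0,0),(19,3),(0,0)]⟩ ⟨0,[(0,0),(11,0),(8,0)]⟩),
  .k,⟨false,2,⟨0,[(6,0),(9,0),(29,0),(0,0)]⟩,⟨0,[(0,0),(11,0),(8,0),(21,0)]⟩⟩,⟨true,1,⟨7,[(0,5),(5,
  9),(1,1),(23,3),(4,0),(8,3),(0,4)]⟩,⟨0,[(12,0),(8,0)]⟩⟩,⟨false,1,⟨1,[(1,0),(23,0),(21,0)]⟩,⟨0,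
  [(45,0)]⟩⟩,⟨true,0,⟨1,[(0,0),(12,0),(16,0)]⟩,⟨0,[(4,0),(5,0)]⟩⟩,⟨true,0,⟨0,[]⟩,⟨0,[(49,0)]⟩⟩,
  ⟨false,0,⟨0,[(0,0)]⟩,⟨3,[(4,3),(5,1),(14,0),(0,0),(4,1),(15,2)]⟩⟩,[]⟩) (.I [0,0,1,1,-1,0,0,2] (.Q
  [0,0,0,2,0,0,2,2,0,-1,2] (.p true [0,0,1] [1,0,-1] (⟨0,[(36,0)]⟩,⟨0,[(35,0)]⟩) .k 2 (⟨0,[(35,0)]⟩,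
  ⟨0,[(36,0)]⟩) .k (.r 0 ⟨12,[(0,7),(7,1),(7,3),(6,3),(7,3),(15,1)]⟩ ⟨0,[(17,1),(29,0)]⟩)) (.R ⟨1,
  true,false,false,[1,0,-1],[0,1,1],[1,1,0,-1,0,0,0,-1],(⟨0,[(36,0)]⟩,⟨0,[(37,0)]⟩),(⟨0,[(37,0),(3,
  0)]⟩,⟨0,[(25,0)]⟩),⟨0,[(25,0)]⟩,.k,.k,.k,(.r (-2) ⟨3,[(18,7),(3,1),(4,0),(0,0),(19,3),(0,0)]⟩ ⟨0,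
  [(1,0)]⟩),(.r (-2) ⟨0,[(8,1),(39,0),(0,0)]⟩ ⟨6,[(0,2),(0,2),(8,0),(2,2),(10,2),(10,2)]⟩),.k,⟨true,
  1,⟨1,[(8,3),(39,0),(0,0)]⟩,⟨0,[(1,0),(42,0)]⟩⟩,⟨false,2,⟨0,[(0,0),(7,1),(39,0),(0,0)]⟩,⟨0,[(1,0),
  (0,0)]⟩⟩,⟨true,0,⟨0,[(46,0)]⟩,⟨0,[(47,0)]⟩⟩,⟨false,1,⟨9,[(0,5),(16,1),(14,5),(6,0),(9,6)]⟩,⟨0,[(2,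
  0)]⟩⟩,⟨false,0,⟨0,[]⟩,⟨1,[(27,0),(0,0),(20,0)]⟩⟩,⟨true,0,⟨0,[(0,0)]⟩,⟨0,[(2,0),(43,0)]⟩⟩,[]⟩) (.Q
  [0,0,1,0,0,0,1,0,-1,0,1,-1] (.p true [0,0,1] [0,0,0,0,1] (⟨0,[(37,0)]⟩,⟨0,[(36,0)]⟩) .k 2 (⟨0,
  [(30,0)]⟩,⟨0,[(29,0)]⟩) .k (.r 0 ⟨0,[(0,1),(0,1),(8,2),(5,3),(26,0),(1,7),(3,3)]⟩ ⟨1,[(18,1),(8,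
  0),(0,0),(19,0)]⟩)) (.Q [0,0,0,0,0,-1,0,0,0,0,0,1] (.ed false [1,-1,0,0,1] .k) (.S ⟨1,0,[1],[0,0,
  0,0,1],[0,1],(⟨0,[(32,0)]⟩,⟨0,[(31,0)]⟩),⟨0,[(0,0)]⟩,.k,(.r (-1) ⟨3,[(24,1),(4,0),(0,0),(20,0)]⟩
  ⟨11,[(14,3),(19,3),(1,0),(0,0),(8,3),(5,5)]⟩),⟨true,0,⟨0,[(53,0)]⟩,⟨0,[]⟩⟩,⟨false,1,⟨1,[(29,0),(0,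
  0),(20,0)]⟩,⟨0,[]⟩⟩,⟨false,0,⟨1,[(2,1),(0,1),(8,3),(5,3),(26,0),(1,9),(3,4)]⟩,⟨1,[(5,0),(23,0),
  (21,0)]⟩⟩,⟨true,0,⟨0,[(49,0)]⟩,⟨0,[(48,0)]⟩⟩,[.a ⟨true,0,⟨0,[(30,0)]⟩,⟨2,[(1,2),(14,0),(16,1),(13,
  1),(3,0)]⟩⟩ ⟨false,0,⟨0,[(47,0)]⟩,⟨1,[(29,0),(0,0),(20,0)]⟩⟩ ⟨true,0,⟨0,[]⟩,⟨1,[(36,0),(0,0)]⟩⟩,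
  .o ⟨false,1,⟨1,[(30,1),(10,0),(9,0)]⟩,⟨20,[(1,15),(0,5),(0,7),(2,4),(7,1),(20,1),(5,2),(5,18)]⟩⟩,
  .e ⟨true,0,⟨0,[(53,0)]⟩,⟨0,[]⟩⟩ ⟨true,0,⟨0,[]⟩,⟨0,[(53,0)]⟩⟩,.o ⟨false,0,⟨29,[(3,2),(3,23),(4,8),
  (2,2),(14,5),(6,2),(3,7),(3,6)]⟩,⟨0,[(6,0)]⟩⟩]⟩) (.R ⟨0,false,false,false,[0,0,0,0,1],[0,1],[0,1],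
  (⟨0,[(32,0)]⟩,⟨0,[(31,0)]⟩),(⟨0,[(43,0)]⟩,⟨0,[(42,0)]⟩),⟨0,[(0,0)]⟩,.k,.k,(.r (-1) ⟨3,[(24,1),(4,
  0),(0,0),(20,0)]⟩ ⟨11,[(14,3),(19,3),(1,0),(0,0),(8,3),(5,5)]⟩),(.r (-1) ⟨3,[(24,1),(4,0),(0,0),
  (20,0)]⟩ ⟨11,[(14,3),(19,3),(1,0),(0,0),(8,3),(5,5)]⟩),.k,.k,⟨false,1,⟨7,[(24,3),(4,0),(0,0),(13,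
  1),(5,2)]⟩,⟨0,[(46,0)]⟩⟩,⟨true,1,⟨0,[(6,0)]⟩,⟨22,[(3,6),(1,18),(6,14),(2,0),(14,3),(6,0),(14,
  5)]⟩⟩,⟨true,0,⟨0,[(53,0)]⟩,⟨0,[]⟩⟩,⟨false,1,⟨11,[(1,3),(1,1),(2,6),(7,3),(14,0),(19,1),(1,5),(0,
  0)]⟩,⟨0,[(7,0)]⟩⟩,⟨false,0,⟨0,[]⟩,⟨0,[]⟩⟩,⟨false,0,⟨0,[]⟩,⟨0,[]⟩⟩,[.e ⟨false,0,⟨0,[(47,0)]⟩,⟨1,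
  [(29,0),(0,0),(20,0)]⟩⟩ ⟨false,1,⟨0,[(6,0),(42,0)]⟩,⟨53,[(3,1),(1,31),(6,3),(14,1),(0,1),(1,21),
  (9,3),(4,0),(1,9),(3,4)]⟩⟩,.o ⟨false,1,⟨1,[(41,0),(7,1),(1,0)]⟩,⟨0,[(48,0)]⟩⟩,.a ⟨true,0,⟨0,[(30,
  0)]⟩,⟨0,[(1,0),(31,0)]⟩⟩ ⟨true,0,⟨0,[(53,0)]⟩,⟨0,[]⟩⟩ ⟨false,1,⟨0,[(6,0),(39,0)]⟩,⟨53,[(3,1),(1,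
  31),(6,3),(14,1),(0,1),(1,21),(9,3),(4,0),(1,9),(3,4)]⟩⟩,.o ⟨false,0,⟨29,[(3,2),(3,23),(4,8),(2,
  2),(14,5),(6,2),(3,7),(3,6)]⟩,⟨0,[(6,0)]⟩⟩]⟩)) (.Q [1,0,0,0,0,0,0,0,1,-1,0,1] (.p true [0,0,0,0,
  1] [1] (⟨0,[(31,0)]⟩,⟨0,[(30,0)]⟩) .k 1 (⟨0,[]⟩,⟨0,[]⟩) .k .k) (.Q [1,-1,0,0,0,0,0,0,1,0,0,1] (.p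
  true [0,0,0,0,1] [] (⟨0,[(32,0)]⟩,⟨0,[(31,0)]⟩) .k 0 (⟨0,[]⟩,⟨0,[]⟩) .k .k) (.R ⟨2,true,false,
  false,[0,1],[0,0,0,0,1],[1,0,1],(⟨0,[]⟩,⟨0,[]⟩),(⟨0,[(33,0)]⟩,⟨0,[(32,0)]⟩),⟨0,[]⟩,.k,.k,.k,(.r 0
  ⟨11,[(15,3),(19,3),(1,0),(0,0),(8,3),(5,5)]⟩ ⟨3,[(25,1),(4,0),(0,0),(20,0)]⟩),.k,.k,⟨true,0,⟨1,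
  [(37,0),(0,0)]⟩,⟨0,[]⟩⟩,⟨false,0,⟨0,[(31,0)]⟩,⟨0,[(7,0)]⟩⟩,⟨false,1,⟨1,[(6,0),(23,0),(21,0)]⟩,⟨0,
  [(50,0)]⟩⟩,⟨true,0,⟨0,[(8,0)]⟩,⟨4,[(4,0),(2,4),(5,2),(3,0),(0,0),(29,2),(0,0)]⟩⟩,⟨true,0,⟨0,[]⟩,
  ⟨0,[(54,0)]⟩⟩,⟨false,0,⟨0,[(0,0)]⟩,⟨1,[(7,0),(22,0),(22,0)]⟩⟩,[]⟩) (.R ⟨1,false,false,true,[1,0,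
  -1],[1,0,0,0,-1],[1,1,0,-1,0,0,0,-1],(⟨0,[(39,0)]⟩,⟨0,[(40,0)]⟩),(⟨0,[(32,0)]⟩,⟨0,[(33,0)]⟩),⟨0,
  [(28,0)]⟩,.k,.k,.k,.k,(.r (-1) ⟨1,[(11,1),(39,0),(0,0)]⟩ ⟨37,[(4,6),(10,2),(11,11),(7,26),(10,5),
  (0,24),(4,0),(0,5)]⟩),.k,⟨false,1,⟨1,[(11,1),(39,0),(0,0)]⟩,⟨39,[(4,17),(10,10),(11,1),(7,14),(10,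
  0),(4,8),(0,7),(1,0)]⟩⟩,⟨true,1,⟨0,[(7,0),(29,0)]⟩,⟨1,[(1,0),(0,0),(0,0),(0,0),(8,0),(5,0)]⟩⟩,
  ⟨true,0,⟨0,[(49,0)]⟩,⟨0,[(50,0)]⟩⟩,⟨true,0,⟨1,[(0,0),(6,0),(8,0),(2,0),(28,0)]⟩,⟨4,[(1,1),(3,1),
  (9,0),(15,2)]⟩⟩,⟨false,0,⟨0,[]⟩,⟨1,[(30,0),(0,0),(20,0)]⟩⟩,⟨true,0,⟨0,[(7,0),(8,0),(31,0)]⟩,⟨1,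
  [(1,0),(3,0),(2,0)]⟩⟩,[.o ⟨false,0,⟨0,[(0,0)]⟩,⟨1,[(31,1),(10,0),(9,0)]⟩⟩,.o ⟨false,1,⟨3,[(0,0),
  (29,2),(21,0),(1,0)]⟩,⟨0,[(1,0)]⟩⟩,.o ⟨false,0,⟨0,[(26,0)]⟩,⟨1,[(37,1),(4,0),(8,0)]⟩⟩,.a ⟨true,
  (-1),⟨0,[(17,0)]⟩,⟨0,[(37,0),(13,0)]⟩⟩ ⟨false,1,⟨1,[(11,1),(39,0),(0,0)]⟩,⟨15,[(4,5),(22,1),(7,3),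
  (6,0),(4,9),(4,4)]⟩⟩ ⟨true,1,⟨0,[(7,0),(29,0),(10,0)]⟩,⟨0,[(1,0),(15,0)]⟩⟩]⟩)) (.R ⟨2,true,false,
  true,[0,1],[1,0,0,0,-1],[0,0,1,1],(⟨0,[]⟩,⟨0,[]⟩),(⟨0,[(31,0)]⟩,⟨0,[(32,0)]⟩),⟨0,[]⟩,.k,.k,.k,(.r
  0 ⟨2,[(14,0),(19,0),(1,0),(0,0),(8,0)]⟩ ⟨9,[(24,4),(4,1),(0,1),(20,2),(1,0)]⟩),.k,.k,⟨true,0,⟨0,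
  [(46,0)]⟩,⟨0,[(48,0)]⟩⟩,⟨false,0,⟨0,[(0,0)]⟩,⟨1,[(30,1),(10,0),(8,0)]⟩⟩,⟨false,1,⟨1,[(29,0),(0,0),
  (20,0)]⟩,⟨0,[]⟩⟩,⟨true,0,⟨0,[(0,0),(47,0)]⟩,⟨1,[(1,1),(10,1),(4,0),(1,0),(30,0)]⟩⟩,⟨true,0,⟨0,
  [(49,0)]⟩,⟨0,[(48,0)]⟩⟩,⟨false,0,⟨0,[(0,0)]⟩,⟨1,[(30,1),(10,0),(9,0)]⟩⟩,[]⟩)))) (.Q [-1,1,0,0,0,0,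
  0,0,-1,0,0,-1] (.p false [0,0,0,0,1] [] (⟨0,[(29,0)]⟩,⟨0,[(28,0)]⟩) .k 0 (⟨0,[]⟩,⟨0,[]⟩) .k .k)
  (.Q [0,0,0,0,0,-1,0,0,0,1,0,-1] (.ed true [0,1,0,0,1] .k) (.Q [0,0,1,0,0,0,1,0,-1,0,1,-1] (.p
  true [0,0,1] [0,0,0,0,1] (⟨0,[(38,0)]⟩,⟨0,[(37,0)]⟩) .k 2 (⟨0,[(31,0)]⟩,⟨0,[(30,0)]⟩) .k (.r 0 ⟨4,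
  [(15,0),(1,1),(2,2),(11,0),(11,0),(3,1)]⟩ ⟨9,[(2,3),(10,1),(14,5),(0,5),(5,2),(0,0)]⟩)) (.S ⟨1,0,
  [-1,1],[1,0,0,0,-1],[-1],(⟨0,[(31,0)]⟩,⟨0,[(32,0)]⟩),⟨0,[(1,0)]⟩,.k,(.r (-1) ⟨9,[(24,4),(4,1),(0,
  1),(20,2),(1,0)]⟩ ⟨2,[(14,0),(19,0),(1,0),(0,0),(8,0)]⟩),⟨false,1,⟨1,[(29,0),(0,0),(20,0)]⟩,⟨0,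
  []⟩⟩,⟨true,0,⟨0,[(53,0)]⟩,⟨0,[]⟩⟩,⟨true,0,⟨0,[(49,0)]⟩,⟨0,[(48,0)]⟩⟩,⟨false,0,⟨0,[(49,0)]⟩,⟨1,[(5,
  0),(23,0),(21,0)]⟩⟩,[.o ⟨false,0,⟨0,[(2,0)]⟩,⟨1,[(30,1),(10,0),(9,0)]⟩⟩,.e ⟨false,1,⟨0,[(47,0),(3,
  0)]⟩,⟨0,[(53,0)]⟩⟩ ⟨false,1,⟨9,[(29,3),(0,3),(19,4),(0,0),(1,1)]⟩,⟨0,[]⟩⟩,.a ⟨true,0,⟨0,[(0,0),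
  (32,0)]⟩,⟨0,[(30,0)]⟩⟩ ⟨false,1,⟨4,[(29,1),(0,1),(20,2),(1,0)]⟩,⟨0,[]⟩⟩ ⟨true,0,⟨0,[(53,0)]⟩,⟨0,
  []⟩⟩,.o ⟨false,0,⟨2,[(0,1),(5,0),(9,1),(24,0)]⟩,⟨1,[(30,1),(10,0),(8,0)]⟩⟩]⟩) (.R ⟨1,true,false,
  false,[1,0,0,0,-1],[1,1,-1],[-1],(⟨0,[(31,0)]⟩,⟨0,[(32,0)]⟩),(⟨0,[(38,0),(4,0)]⟩,⟨0,[(28,0)]⟩),⟨0,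
  [(1,0)]⟩,.k,.k,(.r (-1) ⟨9,[(24,4),(4,1),(0,1),(20,2),(1,0)]⟩ ⟨2,[(14,0),(19,0),(1,0),(0,0),(8,
  0)]⟩),(.r (-1) ⟨21,[(11,7),(11,1),(0,1),(1,5),(7,11),(10,2),(4,0),(0,7)]⟩ ⟨1,[(14,0),(5,0),(15,
  0)]⟩),(.r (-2) ⟨7,[(11,3),(12,3),(1,1),(2,2),(0,2),(3,3),(6,0),(9,3)]⟩ ⟨0,[(12,0)]⟩),.k,⟨false,1,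
  ⟨5,[(11,3),(3,1),(17,1),(11,0),(4,2)]⟩,⟨1,[(14,0),(5,0),(15,0)]⟩⟩,⟨true,0,⟨0,[(0,0)]⟩,⟨2,[(2,2),
  (5,0),(3,0),(2,0),(3,0),(16,1),(14,0)]⟩⟩,⟨false,1,⟨1,[(29,0),(0,0),(20,0)]⟩,⟨0,[]⟩⟩,⟨true,0,⟨24,
  [(0,4),(2,0),(0,3),(7,2),(1,11),(15,19),(10,1)]⟩,⟨0,[(2,0),(15,0)]⟩⟩,⟨true,0,⟨0,[(49,0)]⟩,⟨0,[(48,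
  0)]⟩⟩,⟨false,0,⟨1,[(0,1),(11,1),(37,0),(0,0)]⟩,⟨13,[(2,6),(5,3),(9,13),(0,3),(4,0),(4,6),(21,1),
  (0,1)]⟩⟩,[]⟩)) (.Q [0,0,-1,0,1,0,1,0,-1,0,1,-1] (.p true [0,0,1] [0,0,0,0,1] (⟨0,[(38,0)]⟩,⟨0,
  [(37,0)]⟩) .k 2 (⟨0,[(31,0)]⟩,⟨0,[(30,0)]⟩) .k (.r 0 ⟨4,[(15,0),(1,1),(2,2),(11,0),(11,0),(3,1)]⟩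
  ⟨9,[(2,3),(10,1),(14,5),(0,5),(5,2),(0,0)]⟩)) (.R ⟨1,false,false,false,[0,0,0,0,1],[0,1],[0,1],
  (⟨0,[(32,0)]⟩,⟨0,[(31,0)]⟩),(⟨0,[(43,0)]⟩,⟨0,[(42,0)]⟩),⟨0,[(1,0),(25,0),(0,0)]⟩,.k,.k,(.r (-1)
  ⟨3,[(24,1),(4,0),(0,0),(20,0)]⟩ ⟨11,[(14,3),(19,3),(1,0),(0,0),(8,3),(5,5)]⟩),(.r (-1) ⟨3,[(24,1),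
  (4,0),(0,0),(20,0)]⟩ ⟨11,[(14,3),(19,3),(1,0),(0,0),(8,3),(5,5)]⟩),(.r (-2) ⟨1,[(24,1),(4,0),(0,
  0),(20,0)]⟩ ⟨5,[(12,1),(1,0),(0,2),(0,1),(28,0),(3,2)]⟩),.k,⟨false,1,⟨7,[(24,3),(4,0),(0,0),(13,
  1),(5,2)]⟩,⟨0,[(46,0)]⟩⟩,⟨true,1,⟨0,[(6,0)]⟩,⟨4,[(5,2),(6,1),(2,1),(0,1),(13,1),(14,0)]⟩⟩,⟨true,0,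
  ⟨0,[(53,0)]⟩,⟨0,[]⟩⟩,⟨false,1,⟨2,[(2,0),(3,1),(39,1),(2,0),(1,0)]⟩,⟨0,[(7,0)]⟩⟩,⟨false,0,⟨1,[(12,
  1),(3,1),(1,1),(26,0),(1,5),(3,2)]⟩,⟨1,[(5,0),(23,0),(21,0)]⟩⟩,⟨false,1,⟨0,[(6,0),(39,0),(2,0)]⟩,
  ⟨0,[(5,0)]⟩⟩,[.e ⟨false,0,⟨0,[(47,0)]⟩,⟨1,[(29,0),(0,0),(20,0)]⟩⟩ ⟨false,1,⟨0,[(6,0),(42,0)]⟩,⟨21,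
  [(5,11),(6,1),(3,1),(1,1),(11,9),(14,0),(1,5),(3,2)]⟩⟩,.o ⟨false,1,⟨1,[(41,0),(7,1),(1,0)]⟩,⟨0,
  [(48,0)]⟩⟩,.a ⟨true,0,⟨0,[(30,0)]⟩,⟨0,[(0,0),(15,0)]⟩⟩ ⟨true,0,⟨0,[(53,0)]⟩,⟨0,[]⟩⟩ ⟨false,1,⟨0,
  [(6,0),(39,0)]⟩,⟨21,[(5,11),(6,1),(3,1),(1,1),(11,9),(14,0),(1,5),(3,2)]⟩⟩,.o ⟨false,0,⟨4,[(7,2),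
  (4,0),(2,0),(0,0),(13,1),(10,1),(3,0)]⟩,⟨0,[(6,0)]⟩⟩]⟩) (.Q [1,0,0,0,0,0,0,0,1,-1,0,1] (.p true
  [0,0,0,0,1] [1] (⟨0,[(32,0)]⟩,⟨0,[(31,0)]⟩) .k 1 (⟨0,[]⟩,⟨0,[]⟩) .k .k) (.R ⟨1,true,false,false,
  [0,0,0,0,1],[1,1,-1],[0,1],(⟨0,[(33,0)]⟩,⟨0,[(32,0)]⟩),(⟨0,[(39,0),(4,0)]⟩,⟨0,[(29,0)]⟩),⟨0,[(2,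
  0),(25,0),(0,0)]⟩,.k,.k,(.r (-1) ⟨3,[(25,1),(4,0),(0,0),(20,0)]⟩ ⟨11,[(15,3),(19,3),(1,0),(0,0),
  (8,3),(5,5)]⟩),(.r (-1) ⟨7,[(12,3),(14,1),(2,0),(0,0),(3,3),(6,0),(9,1)]⟩ ⟨14,[(4,2),(8,3),(1,4),
  (21,4),(14,0),(0,4),(0,1)]⟩),(.r (-1) ⟨0,[(12,0)]⟩ ⟨3,[(15,3),(21,4),(0,0),(14,1)]⟩),.k,⟨true,0,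
  ⟨0,[(18,0),(15,0)]⟩,⟨3,[(13,1),(7,1),(15,0),(0,0),(13,1)]⟩⟩,⟨false,1,⟨0,[(7,0),(26,0)]⟩,⟨9,[(0,5),
  (3,0),(8,2),(5,4),(11,3),(5,4),(8,1)]⟩⟩,⟨true,0,⟨0,[(54,0)]⟩,⟨0,[]⟩⟩,⟨false,1,⟨29,[(4,1),(0,3),(1,
  10),(5,16),(1,0),(14,18),(3,20),(6,4),(1,4),(8,14)]⟩,⟨0,[(0,0),(18,0)]⟩⟩,⟨false,0,⟨0,[(1,0),(1,0),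
  (9,0),(5,0),(28,2),(3,1)]⟩,⟨1,[(6,0),(23,0),(21,0)]⟩⟩,⟨true,0,⟨3,[(3,1),(3,1),(5,3),(20,3),(16,0),
  (0,0)]⟩,⟨2,[(0,0),(5,1),(11,1),(16,0)]⟩⟩,[]⟩) (.R ⟨2,true,false,true,[0,1],[1,0,0,0,-1],[0,0,1,1],
  (⟨0,[]⟩,⟨0,[]⟩),(⟨0,[(32,0)]⟩,⟨0,[(33,0)]⟩),⟨0,[]⟩,.k,.k,.k,(.r 0 ⟨2,[(15,0),(19,0),(1,0),(0,0),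
  (8,0)]⟩ ⟨9,[(25,4),(4,1),(0,1),(20,2),(1,0)]⟩),.k,.k,⟨true,0,⟨0,[(47,0)]⟩,⟨0,[(49,0)]⟩⟩,⟨false,0,
  ⟨0,[(0,0)]⟩,⟨1,[(31,1),(10,0),(8,0)]⟩⟩,⟨false,1,⟨1,[(30,0),(0,0),(20,0)]⟩,⟨0,[]⟩⟩,⟨true,0,⟨0,[(0,
  0),(48,0)]⟩,⟨1,[(1,1),(11,1),(4,0),(1,0),(30,2)]⟩⟩,⟨true,0,⟨0,[(50,0)]⟩,⟨0,[(49,0)]⟩⟩,⟨false,0,⟨0,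
  [(0,0)]⟩,⟨1,[(31,1),(10,0),(9,0)]⟩⟩,[]⟩)))) (.R ⟨2,true,false,false,[0,1],[0,0,0,0,1],[1,0,1],(⟨0,
  []⟩,⟨0,[]⟩),(⟨0,[(30,0)]⟩,⟨0,[(29,0)]⟩),⟨0,[]⟩,.k,.k,.k,(.r 0 ⟨11,[(12,3),(19,3),(1,0),(0,0),(8,
  3),(5,5)]⟩ ⟨3,[(22,1),(4,0),(0,0),(20,0)]⟩),.k,.k,⟨true,0,⟨1,[(34,0),(0,0)]⟩,⟨0,[]⟩⟩,⟨false,0,⟨0,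
  [(28,0)]⟩,⟨0,[(4,0)]⟩⟩,⟨false,1,⟨1,[(3,0),(23,0),(21,0)]⟩,⟨0,[(47,0)]⟩⟩,⟨true,0,⟨0,[(5,0)]⟩,⟨11,
  [(4,11),(5,4),(1,0),(0,2),(0,4),(0,2),(27,0),(1,8)]⟩⟩,⟨true,0,⟨0,[]⟩,⟨0,[(51,0)]⟩⟩,⟨false,0,⟨0,
  [(0,0)]⟩,⟨1,[(4,0),(22,0),(22,0)]⟩⟩,[]⟩)))))))))))))

theorem ok7 : chk K t7 l11 = true := by decide +kernel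

noncomputable def t8 : Tre :=
  (.I [0,0,-2,-2,1] (.R ⟨1,false,false,false,[1,-1],[1,-1,-1],[0,1,-1,-1],(⟨0,[(29,0)]⟩,⟨0,[(30,
  0)]⟩),(⟨0,[(14,0)]⟩,⟨0,[(26,0),(3,0)]⟩),⟨0,[(14,0),(0,0)]⟩,.k,.k,(.r (-1) ⟨0,[(0,0)]⟩ ⟨0,[(33,1),
  (6,1)]⟩),.k,.k,.k,⟨false,0,⟨0,[(8,0),(25,0)]⟩,⟨1,[(7,1),(29,0),(0,0)]⟩⟩,⟨true,0,⟨0,[(12,0)]⟩,⟨0,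
  [(23,0)]⟩⟩,⟨true,0,⟨0,[(40,0)]⟩,⟨0,[]⟩⟩,⟨false,1,⟨0,[(22,0),(15,0)]⟩,⟨1,[(2,0),(2,0),(31,0)]⟩⟩,
  ⟨false,0,⟨0,[(36,0)]⟩,⟨5,[(1,0),(5,0),(3,1),(11,0),(0,1),(13,3)]⟩⟩,⟨false,1,⟨0,[(22,0),(13,0),(1,
  0)]⟩,⟨0,[(5,0)]⟩⟩,[.a ⟨true,0,⟨1,[(0,0),(2,0),(3,1),(12,0)]⟩,⟨0,[(2,0),(34,0)]⟩⟩ ⟨false,1,⟨7,[(11,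
  3),(4,0),(0,0),(13,1),(5,2)]⟩,⟨0,[(33,0)]⟩⟩ ⟨true,1,⟨1,[(0,0),(21,1),(15,0)]⟩,⟨0,[(2,0)]⟩⟩,.o
  ⟨false,1,⟨3,[(0,1),(2,1),(3,1),(14,1),(5,0),(9,2)]⟩,⟨0,[(4,0),(31,1)]⟩⟩,.o ⟨false,0,⟨1,[(23,0),(0,
  0)]⟩,⟨1,[(28,0),(8,0)]⟩⟩,.e ⟨false,1,⟨1,[(0,0),(36,0)]⟩,⟨1,[(23,0),(0,0),(8,1)]⟩⟩ ⟨false,2,⟨1,[(0,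
  0),(21,1),(14,0),(0,1)]⟩,⟨0,[(2,0)]⟩⟩]⟩) (.I [0,-1,0,1,0,0,0,1] (.S ⟨1,0,[0,0,0,0,0,0,0,-1],[1,0,
  -1],[],(⟨0,[(26,0)]⟩,⟨0,[(27,0)]⟩),⟨0,[(15,0)]⟩,.k,.k,⟨true,0,⟨1,[(0,0),(10,0)]⟩,⟨0,[(8,0),(26,
  0)]⟩⟩,⟨false,1,⟨1,[(17,0),(0,0),(20,0)]⟩,⟨0,[]⟩⟩,⟨false,0,⟨0,[(0,0)]⟩,⟨3,[(8,3),(3,1),(4,0),(0,0),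
  (20,0)]⟩⟩,⟨true,0,⟨0,[(37,0)]⟩,⟨0,[(36,0)]⟩⟩,[.e ⟨false,1,⟨1,[(17,0),(0,0),(19,0)]⟩,⟨0,[]⟩⟩
  ⟨false,1,⟨0,[(8,0),(29,0)]⟩,⟨0,[(9,0)]⟩⟩,.o ⟨false,1,⟨0,[(23,0),(15,0)]⟩,⟨1,[(1,0),(3,1),(32,
  0)]⟩⟩,.o ⟨false,0,⟨0,[(13,0)]⟩,⟨1,[(24,1),(4,0),(8,0)]⟩⟩,.a ⟨true,(-1),⟨0,[(4,0)]⟩,⟨0,[(24,0),(13,
  0)]⟩⟩ ⟨false,1,⟨1,[(38,0),(0,0)]⟩,⟨1,[(24,0),(0,0)]⟩⟩ ⟨true,1,⟨0,[(8,0),(29,0)]⟩,⟨3,[(0,0),(0,0),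
  (2,2),(0,2),(26,0)]⟩⟩]⟩) (.I [0,0,2,0,-1,2] (.I [0,1,1,1,-1] (.Q [0,0,0,2,0,0,1,1,0,-1,1] (.p
  true [0,0,1] [1] (⟨0,[(29,0)]⟩,⟨0,[(28,0)]⟩) .k 1 (⟨0,[]⟩,⟨0,[]⟩) .k .k) (.R ⟨1,false,false,true,
  [1,0,-1],[0,1],[1,0,1],(⟨0,[(29,0)]⟩,⟨0,[(30,0)]⟩),(⟨0,[(34,0)]⟩,⟨0,[(33,0)]⟩),⟨0,[(18,0)]⟩,.k,.k,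
  .k,.k,(.r (-2) ⟨1,[(11,1),(3,1),(25,0),(0,0)]⟩ ⟨2,[(0,0),(3,0),(1,1),(9,0),(0,0)]⟩),.k,⟨true,1,⟨5,
  [(5,0),(5,0),(3,1),(11,0),(0,1),(13,3)]⟩,⟨0,[(1,0)]⟩⟩,⟨false,2,⟨1,[(27,1),(4,0),(8,2)]⟩,⟨0,[(7,
  0)]⟩⟩,⟨false,0,⟨3,[(4,0),(2,1),(2,1),(1,1),(29,0)]⟩,⟨0,[(11,0),(29,0)]⟩⟩,⟨true,0,⟨7,[(0,3),(3,0),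
  (3,1),(16,1),(6,0),(2,1)]⟩,⟨1,[(3,1),(3,0),(16,0),(17,0)]⟩⟩,⟨false,0,⟨1,[(4,0),(7,1),(29,0)]⟩,⟨1,
  [(3,1),(37,0),(0,0)]⟩⟩,⟨false,0,⟨0,[(0,0)]⟩,⟨8,[(2,0),(0,9),(1,0),(1,3),(7,2),(1,2),(15,1),(8,
  10)]⟩⟩,[.o ⟨false,0,⟨2,[(0,0),(0,0),(24,0),(5,0),(5,0)]⟩,⟨5,[(5,0),(5,0),(3,1),(11,0),(0,1),(13,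
  3)]⟩⟩,.e ⟨false,1,⟨1,[(20,0),(0,0),(20,0)]⟩,⟨0,[(38,0)]⟩⟩ ⟨false,1,⟨1,[(0,1),(2,1),(37,0),(0,0)]⟩,
  ⟨8,[(2,0),(0,0),(1,0),(1,3),(7,2),(1,2),(15,1),(8,1)]⟩⟩,.o ⟨false,0,⟨0,[(16,0)]⟩,⟨1,[(27,1),(4,0),
  (8,0)]⟩⟩,.a ⟨true,(-1),⟨0,[(7,0)]⟩,⟨0,[(27,0),(13,0)]⟩⟩ ⟨true,0,⟨0,[]⟩,⟨0,[(44,0)]⟩⟩ ⟨false,1,⟨1,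
  [(0,1),(2,1),(37,0),(0,0)]⟩,⟨1,[(5,0),(1,0),(3,0),(5,0),(24,0)]⟩⟩]⟩) (.Q [-1,0,0,1,0,0,0,0,-1,0,0,
  -1] (.p false [0,0,0,0,1] [] (⟨0,[(23,0)]⟩,⟨0,[(22,0)]⟩) .k 0 (⟨0,[]⟩,⟨0,[]⟩) .k .k) (.R ⟨2,true,
  false,true,[0,1],[0,0,0,0,1],[2,1],(⟨0,[]⟩,⟨0,[]⟩),(⟨0,[(24,0)]⟩,⟨0,[(23,0)]⟩),⟨0,[]⟩,.k,.k,.k,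
  (.r 0 ⟨9,[(5,4),(15,2),(0,2),(20,1),(1,3)]⟩ ⟨3,[(16,1),(4,0),(0,0),(20,0)]⟩),.k,.k,⟨true,0,⟨0,[]⟩,
  ⟨1,[(28,0),(0,0)]⟩⟩,⟨false,0,⟨0,[(22,0)]⟩,⟨5,[(0,3),(15,1),(4,1),(20,0),(0,0)]⟩⟩,⟨false,1,⟨3,[(16,
  1),(4,0),(0,0),(20,0)]⟩,⟨0,[(2,0),(40,0)]⟩⟩,⟨true,0,⟨0,[(22,0),(17,0)]⟩,⟨0,[(0,0)]⟩⟩,⟨true,0,⟨0,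
  [(39,0)]⟩,⟨0,[(44,0)]⟩⟩,⟨false,0,⟨0,[(22,0)]⟩,⟨4,[(0,2),(0,0),(9,0),(9,1),(21,1)]⟩⟩,[]⟩) (.Q [0,0,
  1,0,-1,0,0,0,1,0,0,1] (.p true [0,0,0,0,1] [] (⟨0,[(24,0)]⟩,⟨0,[(23,0)]⟩) .k 0 (⟨0,[]⟩,⟨0,[]⟩) .k
  .k) (.Q [0,0,0,0,1,0,1,0,-1,0,1,-1] (.p true [0,0,1] [0,0,0,0,1] (⟨0,[(32,0)]⟩,⟨0,[(31,0)]⟩) .k 2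
  (⟨0,[(25,0)]⟩,⟨0,[(24,0)]⟩) .k (.r 0 ⟨4,[(9,0),(1,1),(2,2),(11,0),(11,0),(3,1)]⟩ ⟨1,[(13,1),(8,0),
  (0,0),(19,0)]⟩)) (.K ⟨0,[0,0,0,0,1],(-1),(-1),(⟨0,[(26,0)]⟩,⟨0,[(25,0)]⟩),.k,(.r (-1) ⟨3,[(18,1),
  (4,0),(0,0),(20,0)]⟩ ⟨9,[(7,4),(15,2),(0,2),(20,1),(1,3)]⟩),(.r 0 ⟨1,[(7,0),(15,0),(0,0)]⟩ ⟨9,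
  [(18,4),(4,1),(0,1),(20,2),(1,0)]⟩),.k,.k,[⟨0,[(0,0)]⟩,⟨0,[(1,0)]⟩,⟨0,[(23,0),(23,0)]⟩,⟨0,[(1,0),
  (39,0)]⟩]⟩) (.Q [0,0,0,0,0,1,0,0,0,0,0,-1] (.ed true [1,-1,0,0,1] .k) (.R ⟨0,false,false,true,[0,
  0,0,0,1],[0,1],[1,0,1],(⟨0,[(27,0)]⟩,⟨0,[(26,0)]⟩),(⟨0,[(38,0)]⟩,⟨0,[(37,0)]⟩),⟨0,[(0,0)]⟩,.k,.k,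
  (.r (-1) ⟨3,[(19,1),(4,0),(0,0),(20,0)]⟩ ⟨9,[(8,4),(15,2),(0,2),(20,1),(1,3)]⟩),(.r (-1) ⟨3,[(19,
  1),(4,0),(0,0),(20,0)]⟩ ⟨9,[(8,4),(15,2),(0,2),(20,1),(1,3)]⟩),.k,.k,⟨true,1,⟨4,[(3,1),(0,0),(9,
  0),(9,1),(21,1)]⟩,⟨0,[(5,0)]⟩⟩,⟨false,2,⟨0,[(24,0),(20,0)]⟩,⟨0,[(2,0)]⟩⟩,⟨true,0,⟨1,[(31,0),(0,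
  0)]⟩,⟨0,[(42,0)]⟩⟩,⟨false,1,⟨0,[(24,0),(19,0)]⟩,⟨2,[(1,0),(0,1),(4,0),(1,0),(35,0),(0,1)]⟩⟩,
  ⟨false,0,⟨0,[]⟩,⟨0,[]⟩⟩,⟨false,0,⟨0,[]⟩,⟨0,[]⟩⟩,[.o ⟨false,0,⟨1,[(8,0),(27,0),(5,1)]⟩,⟨4,[(3,1),
  (0,0),(9,0),(9,1),(21,1)]⟩⟩,.a ⟨true,0,⟨0,[(44,0)]⟩,⟨2,[(4,0),(8,0),(14,1),(2,1)]⟩⟩ ⟨false,1,⟨1,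
  [(24,0),(0,0),(20,0)]⟩,⟨0,[(42,0)]⟩⟩ ⟨true,1,⟨1,[(8,0),(15,1),(20,0)]⟩,⟨1,[(1,0),(0,0),(6,0),(5,
  0)]⟩⟩,.o ⟨false,0,⟨1,[(2,1),(33,0),(8,0)]⟩,⟨0,[(24,0)]⟩⟩,.e ⟨true,0,⟨0,[]⟩,⟨0,[(48,0)]⟩⟩ ⟨true,1,
  ⟨1,[(8,0),(15,1),(17,1),(2,0)]⟩,⟨1,[(1,0),(0,0),(6,0),(5,0)]⟩⟩]⟩) (.R ⟨1,false,false,false,[0,0,0,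
  0,1],[0,1],[1,1,1],(⟨0,[(27,0)]⟩,⟨0,[(26,0)]⟩),(⟨0,[(38,0)]⟩,⟨0,[(37,0)]⟩),⟨0,[(0,0)]⟩,.k,.k,(.r
  (-1) ⟨3,[(19,1),(4,0),(0,0),(20,0)]⟩ ⟨9,[(8,4),(15,2),(0,2),(20,1),(1,3)]⟩),(.r (-1) ⟨3,[(19,1),
  (4,0),(0,0),(20,0)]⟩ ⟨9,[(8,4),(15,2),(0,2),(20,1),(1,3)]⟩),(.r (-2) ⟨1,[(19,1),(4,0),(0,0),(20,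
  0)]⟩ ⟨0,[(5,1),(40,0)]⟩),.k,⟨true,0,⟨0,[(43,0)]⟩,⟨1,[(8,0),(37,0)]⟩⟩,⟨false,2,⟨0,[(24,0),(20,0)]⟩,
  ⟨0,[(2,0)]⟩⟩,⟨false,0,⟨1,[(31,0),(0,0)]⟩,⟨1,[(45,0),(0,0)]⟩⟩,⟨true,1,⟨0,[(24,0),(19,0)]⟩,⟨2,[(1,
  0),(0,1),(4,0),(1,0),(32,1)]⟩⟩,⟨true,(-1),⟨0,[(5,0)]⟩,⟨3,[(19,1),(4,0),(0,0),(20,0)]⟩⟩,⟨true,1,⟨0,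
  [(8,0),(15,0),(20,0)]⟩,⟨2,[(1,1),(0,0),(4,1),(1,1),(32,0)]⟩⟩,[.a ⟨true,0,⟨0,[(44,0)]⟩,⟨2,[(4,0),
  (8,0),(14,1),(2,1)]⟩⟩ ⟨false,0,⟨0,[(48,0)]⟩,⟨1,[(45,0),(0,0)]⟩⟩ ⟨true,1,⟨1,[(8,0),(15,1),(20,0)]⟩,
  ⟨1,[(1,0),(0,0),(6,0),(5,0)]⟩⟩,.o ⟨false,1,⟨1,[(8,0),(27,0),(8,0),(0,0)]⟩,⟨0,[(43,0)]⟩⟩,.o ⟨false,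
  0,⟨1,[(2,1),(33,0),(8,0)]⟩,⟨0,[(24,0)]⟩⟩,.e ⟨false,0,⟨0,[]⟩,⟨1,[(24,0),(0,0),(20,0)]⟩⟩ ⟨false,2,
  ⟨1,[(8,0),(15,1),(20,1),(0,0)]⟩,⟨1,[(1,0),(0,0),(6,0),(5,0)]⟩⟩]⟩))) (.Q [-1,1,0,0,0,0,0,0,-1,0,0,
  -1] (.p false [0,0,0,0,1] [] (⟨0,[(25,0)]⟩,⟨0,[(24,0)]⟩) .k 0 (⟨0,[]⟩,⟨0,[]⟩) .k .k) (.Q [0,0,0,0,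
  0,-1,0,0,0,1,0,-1] (.ed true [0,1,0,0,1] .k) (.Q [0,0,0,-1,0,0,0,0,-1,1,0,-1] (.p false [0,0,0,0,
  1] [1] (⟨0,[(27,0)]⟩,⟨0,[(26,0)]⟩) .k 1 (⟨0,[]⟩,⟨0,[]⟩) .k .k) (.S ⟨1,0,[-1,1],[1,0,0,0,-1],[-1],
  (⟨0,[(27,0)]⟩,⟨0,[(28,0)]⟩),⟨0,[(1,0)]⟩,.k,(.r (-1) ⟨9,[(20,4),(4,1),(0,1),(20,2),(1,0)]⟩ ⟨1,[(9,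
  0),(15,0),(0,0)]⟩),⟨false,1,⟨1,[(25,0),(0,0),(20,0)]⟩,⟨0,[]⟩⟩,⟨true,0,⟨0,[(49,0)]⟩,⟨0,[]⟩⟩,⟨true,
  0,⟨0,[(45,0)]⟩,⟨0,[(44,0)]⟩⟩,⟨false,0,⟨0,[(45,0)]⟩,⟨4,[(4,1),(0,0),(9,0),(9,1),(21,1)]⟩⟩,[.o
  ⟨false,0,⟨0,[(2,0)]⟩,⟨1,[(26,1),(10,0),(9,0)]⟩⟩,.e ⟨false,1,⟨0,[(43,0),(3,0)]⟩,⟨0,[(49,0)]⟩⟩
  ⟨false,1,⟨9,[(25,3),(0,3),(19,4),(0,0),(1,1)]⟩,⟨0,[]⟩⟩,.a ⟨true,0,⟨1,[(0,1),(8,0),(36,0)]⟩,⟨0,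
  [(26,0)]⟩⟩ ⟨false,1,⟨4,[(25,1),(0,1),(20,2),(1,0)]⟩,⟨0,[]⟩⟩ ⟨true,0,⟨0,[(49,0)]⟩,⟨0,[]⟩⟩,.o
  ⟨false,0,⟨1,[(0,1),(8,0),(27,0)]⟩,⟨1,[(26,1),(10,0),(8,0)]⟩⟩]⟩) (.I [1,0,2,1,-1] (.Q [0,0,1,0,0,0,
  0,0,-1,0,0,-1] (.p false [0,0,0,0,1] [] (⟨0,[(29,0)]⟩,⟨0,[(28,0)]⟩) .k 0 (⟨0,[]⟩,⟨0,[]⟩) .k .k)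
  (.R ⟨1,false,false,true,[1,0,0,0,-1],[1,-1],[1,1,1],(⟨0,[(29,0)]⟩,⟨0,[(30,0)]⟩),(⟨0,[(40,0)]⟩,⟨0,
  [(41,0)]⟩),⟨0,[(3,0)]⟩,.k,.k,(.r (-1) ⟨9,[(22,4),(4,1),(0,1),(20,2),(1,0)]⟩ ⟨1,[(11,0),(15,0),(0,
  0)]⟩),(.r 0 ⟨9,[(11,4),(15,2),(0,2),(20,1),(1,3)]⟩ ⟨3,[(22,1),(4,0),(0,0),(20,0)]⟩),.k,.k,⟨true,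
  (-1),⟨0,[(1,0)]⟩,⟨3,[(22,1),(4,0),(0,0),(20,0)]⟩⟩,⟨false,0,⟨0,[(28,0)]⟩,⟨0,[(5,0)]⟩⟩,⟨false,0,⟨1,
  [(34,0),(0,0)]⟩,⟨0,[(45,0),(3,0)]⟩⟩,⟨false,0,⟨0,[(6,0)]⟩,⟨4,[(4,0),(0,3),(5,1),(35,0),(1,2)]⟩⟩,
  ⟨true,(-1),⟨0,[(8,0)]⟩,⟨9,[(22,4),(4,1),(0,1),(20,2),(1,0)]⟩⟩,⟨false,0,⟨0,[(28,0)]⟩,⟨2,[(0,0),(3,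
  0),(0,0),(43,1)]⟩⟩,[.o ⟨false,0,⟨0,[(46,0)]⟩,⟨1,[(11,0),(27,0),(8,0),(0,0)]⟩⟩,.a ⟨true,0,⟨2,[(7,
  0),(8,0),(14,1),(2,1)]⟩,⟨0,[(47,0)]⟩⟩ ⟨false,0,⟨0,[]⟩,⟨1,[(27,0),(0,0),(19,0)]⟩⟩ ⟨true,0,⟨7,[(2,
  1),(3,5),(0,0),(4,0),(12,0),(0,0),(11,1)]⟩,⟨1,[(0,0),(4,0),(5,0)]⟩⟩,.e ⟨false,0,⟨1,[(34,0),(0,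
  0)]⟩,⟨1,[(48,0),(0,0)]⟩⟩ ⟨false,0,⟨7,[(2,1),(3,5),(0,0),(4,0),(12,0),(0,0),(11,1)]⟩,⟨1,[(5,1),(5,
  0),(37,0)]⟩⟩,.o ⟨false,0,⟨0,[(0,0)]⟩,⟨1,[(28,1),(10,0),(8,0)]⟩⟩]⟩) (.Q [0,0,0,0,0,0,0,0,-1,1,0,
  -1] (.p false [0,0,0,0,1] [1] (⟨0,[(30,0)]⟩,⟨0,[(29,0)]⟩) .k 1 (⟨0,[]⟩,⟨0,[]⟩) .k .k) (.S ⟨1,4,[],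
  [1,0,0,0,-1],[0,1,0,-1],(⟨0,[(30,0)]⟩,⟨0,[(31,0)]⟩),⟨0,[(4,0)]⟩,.k,(.r (-1) ⟨9,[(23,4),(4,1),(0,
  1),(20,2),(1,0)]⟩ ⟨1,[(12,0),(15,0),(0,0)]⟩),⟨true,0,⟨0,[(47,0)]⟩,⟨0,[(48,0)]⟩⟩,⟨false,0,⟨0,[(29,
  0)]⟩,⟨2,[(0,1),(4,0),(34,0),(9,1)]⟩⟩,⟨false,0,⟨0,[]⟩,⟨1,[(28,0),(0,0),(20,0)]⟩⟩,⟨true,(-1),⟨0,[(1,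
  0),(7,0)]⟩,⟨33,[(5,10),(2,7),(4,7),(9,0),(4,22),(15,3),(5,5),(0,1)]⟩⟩,[.o ⟨false,0,⟨0,[(52,0)]⟩,
  ⟨1,[(40,0),(9,0)]⟩⟩,.e ⟨false,1,⟨3,[(23,1),(4,0),(0,0),(20,0)]⟩,⟨1,[(12,0),(36,0)]⟩⟩ ⟨false,0,⟨0,
  [(1,0)]⟩,⟨0,[(28,0)]⟩⟩,.a ⟨true,0,⟨0,[(0,0)]⟩,⟨0,[(29,0)]⟩⟩ ⟨true,0,⟨0,[(47,0)]⟩,⟨1,[(12,0),(36,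
  0)]⟩⟩ ⟨false,0,⟨0,[(29,0)]⟩,⟨1,[(0,1),(39,0),(9,0)]⟩⟩,.e ⟨false,1,⟨3,[(23,1),(4,0),(0,0),(20,0)]⟩,
  ⟨0,[(45,0)]⟩⟩ ⟨false,0,⟨0,[(1,0)]⟩,⟨11,[(0,1),(1,5),(5,1),(9,1),(9,9),(11,0),(9,4)]⟩⟩]⟩) (.S ⟨1,3,
  [],[1,0,0,0,-1],[-1],(⟨0,[(30,0)]⟩,⟨0,[(31,0)]⟩),⟨0,[(4,0)]⟩,.k,(.r (-1) ⟨9,[(23,4),(4,1),(0,1),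
  (20,2),(1,0)]⟩ ⟨1,[(12,0),(15,0),(0,0)]⟩),⟨false,1,⟨1,[(28,0),(0,0),(20,0)]⟩,⟨0,[]⟩⟩,⟨true,0,⟨0,
  [(29,0)]⟩,⟨0,[(5,0)]⟩⟩,⟨true,0,⟨0,[(48,0)]⟩,⟨0,[(47,0)]⟩⟩,⟨false,0,⟨1,[(1,1),(10,0),(37,0)]⟩,⟨33,
  [(5,10),(2,7),(4,7),(9,0),(4,22),(15,3),(5,5),(0,1)]⟩⟩,[.e ⟨false,1,⟨9,[(28,3),(0,3),(19,4),(0,0),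
  (1,1)]⟩,⟨0,[]⟩⟩ ⟨false,0,⟨0,[(1,0)]⟩,⟨0,[(28,0)]⟩⟩,.o ⟨false,1,⟨1,[(28,0),(0,0),(20,0)]⟩,⟨0,[(0,
  0),(4,0)]⟩⟩,.o ⟨false,1,⟨0,[(28,0)]⟩,⟨0,[(0,0)]⟩⟩,.a ⟨true,0,⟨0,[(6,0),(8,0),(19,0)]⟩,⟨0,[(1,
  0)]⟩⟩ ⟨false,1,⟨0,[(1,0),(3,0),(44,0)]⟩,⟨1,[(35,0),(0,0)]⟩⟩ ⟨true,0,⟨0,[(1,0)]⟩,⟨1,[(2,0),(2,0),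
  (22,0),(18,0)]⟩⟩]⟩))) (.S ⟨1,0,[0,1,-1,-1],[1,-1],[1,0,1],(⟨0,[(39,0)]⟩,⟨0,[(40,0)]⟩),⟨0,[(24,0),
  (0,0)]⟩,.k,(.x 1 ⟨0,[(8,0)]⟩ ⟨0,[(38,0),(0,1),(7,0)]⟩),⟨false,0,⟨1,[(10,0),(22,0),(0,0),(13,0)]⟩,
  ⟨0,[(0,0)]⟩⟩,⟨true,0,⟨0,[(50,0)]⟩,⟨0,[]⟩⟩,⟨true,(-1),⟨0,[(10,0)]⟩,⟨0,[(21,0)]⟩⟩,⟨false,0,⟨0,[(46,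
  0)]⟩,⟨4,[(5,1),(0,0),(9,0),(9,1),(21,1)]⟩⟩,[.o ⟨false,0,⟨0,[(45,0)]⟩,⟨1,[(10,0),(27,0),(8,0),(0,
  0)]⟩⟩,.e ⟨false,1,⟨1,[(26,0),(0,0),(20,0)]⟩,⟨0,[(44,0)]⟩⟩ ⟨false,1,⟨0,[(0,0)]⟩,⟨1,[(10,0),(15,0),
  (0,0)]⟩⟩,.o ⟨false,0,⟨1,[(33,0),(0,0)]⟩,⟨1,[(38,0),(8,0)]⟩⟩,.a ⟨true,(-1),⟨0,[(13,0),(19,0)]⟩,⟨0,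
  [(47,0)]⟩⟩ ⟨true,0,⟨0,[]⟩,⟨0,[(50,0)]⟩⟩ ⟨false,1,⟨0,[(0,0)]⟩,⟨1,[(10,0),(22,0),(0,0),(13,
  0)]⟩⟩]⟩))) (.Q [-1,0,0,0,0,0,0,0,-1,1,0,-1] (.p false [0,0,0,0,1] [1] (⟨0,[(27,0)]⟩,⟨0,[(26,0)]⟩)
  .k 1 (⟨0,[]⟩,⟨0,[]⟩) .k .k) (.S ⟨1,0,[1],[0,0,0,0,1],[0,1],(⟨0,[(28,0)]⟩,⟨0,[(27,0)]⟩),⟨0,[(1,0),
  (21,0),(0,0)]⟩,.k,(.r (-1) ⟨3,[(20,1),(4,0),(0,0),(20,0)]⟩ ⟨9,[(9,4),(15,2),(0,2),(20,1),(1,3)]⟩),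
  ⟨true,0,⟨0,[(49,0)]⟩,⟨0,[]⟩⟩,⟨false,1,⟨1,[(25,0),(0,0),(20,0)]⟩,⟨0,[]⟩⟩,⟨false,0,⟨0,[(6,0),(36,0),
  (3,0)]⟩,⟨4,[(4,1),(0,0),(9,0),(9,1),(21,1)]⟩⟩,⟨true,0,⟨0,[(45,0)]⟩,⟨0,[(44,0)]⟩⟩,[.a ⟨true,0,⟨0,
  [(26,0)]⟩,⟨0,[(0,0)]⟩⟩ ⟨false,0,⟨0,[(43,0)]⟩,⟨1,[(25,0),(0,0),(20,0)]⟩⟩ ⟨true,0,⟨0,[]⟩,⟨1,[(32,0),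
  (0,0)]⟩⟩,.o ⟨false,1,⟨1,[(26,1),(10,0),(9,0)]⟩,⟨0,[(2,0)]⟩⟩,.e ⟨true,0,⟨0,[(49,0)]⟩,⟨0,[]⟩⟩ ⟨true,
  0,⟨0,[]⟩,⟨0,[(49,0)]⟩⟩,.o ⟨false,0,⟨5,[(4,5),(4,2),(27,0),(3,1)]⟩,⟨0,[(3,0)]⟩⟩]⟩) (.R ⟨1,false,
  false,false,[0,0,1],[0,0,0,0,1],[0,0,0,0,0,0,0,1],(⟨0,[(35,0)]⟩,⟨0,[(34,0)]⟩),(⟨0,[(28,0)]⟩,⟨0,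
  [(27,0)]⟩),⟨0,[(24,0)]⟩,.k,.k,.k,.k,(.r (-1) ⟨1,[(19,1),(26,0),(0,0)]⟩ ⟨1,[(9,0),(6,1),(29,0)]⟩),
  .k,⟨true,0,⟨4,[(12,0),(1,1),(2,2),(11,0),(11,0),(3,1)]⟩,⟨0,[(16,0)]⟩⟩,⟨false,0,⟨2,[(0,2),(11,0),
  (16,1),(13,1),(3,0)]⟩,⟨0,[(3,0),(28,0)]⟩⟩,⟨false,1,⟨1,[(25,0),(0,0),(20,0)]⟩,⟨0,[]⟩⟩,⟨true,0,⟨0,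
  [(0,0),(15,0),(12,0)]⟩,⟨1,[(2,1),(8,0),(2,0),(31,0)]⟩⟩,⟨true,0,⟨0,[(45,0)]⟩,⟨0,[(44,0)]⟩⟩,⟨true,0,
  ⟨1,[(0,1),(8,0),(6,1),(12,1),(16,0)]⟩,⟨0,[(2,0),(11,0)]⟩⟩,[.o ⟨false,0,⟨0,[(0,0)]⟩,⟨3,[(2,0),(22,
  2),(21,0),(1,0)]⟩⟩,.o ⟨false,1,⟨1,[(26,1),(10,0),(9,0)]⟩,⟨0,[(2,0)]⟩⟩,.o ⟨false,1,⟨1,[(32,1),(4,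
  0),(8,0)]⟩,⟨0,[(21,0)]⟩⟩,.a ⟨true,0,⟨0,[(32,0)]⟩,⟨0,[(29,0)]⟩⟩ ⟨false,1,⟨1,[(17,1),(28,0),(0,0)]⟩,
  ⟨0,[(16,0)]⟩⟩ ⟨true,0,⟨0,[(0,0),(28,0)]⟩,⟨0,[(2,0),(29,0)]⟩⟩]⟩))) (.R ⟨2,true,false,false,[0,1],
  [0,0,0,0,1],[1,0,1],(⟨0,[]⟩,⟨0,[]⟩),(⟨0,[(26,0)]⟩,⟨0,[(25,0)]⟩),⟨0,[]⟩,.k,.k,.k,(.r 0 ⟨9,[(7,4),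
  (15,2),(0,2),(20,1),(1,3)]⟩ ⟨3,[(18,1),(4,0),(0,0),(20,0)]⟩),.k,.k,⟨true,0,⟨1,[(30,0),(0,0)]⟩,⟨0,
  []⟩⟩,⟨false,0,⟨0,[(24,0)]⟩,⟨0,[(1,0)]⟩⟩,⟨false,1,⟨4,[(2,1),(0,0),(9,0),(9,1),(21,1)]⟩,⟨0,[(43,
  0)]⟩⟩,⟨true,0,⟨0,[(2,0)]⟩,⟨0,[(1,0),(2,0)]⟩⟩,⟨true,0,⟨0,[]⟩,⟨0,[(47,0)]⟩⟩,⟨false,0,⟨0,[(0,0)]⟩,⟨1,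
  [(1,0),(21,0),(22,0)]⟩⟩,[]⟩))))) (.S ⟨1,0,[0,1,-1,-1],[1,-1],[1,0,1],(⟨0,[(32,0)]⟩,⟨0,[(33,0)]⟩),
  ⟨0,[(17,0),(0,0)]⟩,.k,(.x 1 ⟨0,[(1,0)]⟩ ⟨0,[(31,0),(0,1),(7,0)]⟩),⟨false,0,⟨1,[(3,0),(22,0),(0,0),
  (13,0)]⟩,⟨0,[(0,0),(36,0)]⟩⟩,⟨true,0,⟨0,[(43,0)]⟩,⟨0,[]⟩⟩,⟨true,(-1),⟨0,[(3,0)]⟩,⟨0,[(14,0)]⟩⟩,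
  ⟨false,0,⟨0,[(39,0)]⟩,⟨5,[(4,0),(5,0),(3,1),(11,0),(0,1),(13,3)]⟩⟩,[.o ⟨false,0,⟨0,[(38,0)]⟩,⟨1,
  [(3,0),(27,0),(8,0),(0,0)]⟩⟩,.e ⟨false,1,⟨1,[(19,0),(0,0),(20,0)]⟩,⟨0,[(37,0)]⟩⟩ ⟨false,1,⟨0,[(0,
  0),(36,0)]⟩,⟨1,[(3,0),(15,0),(0,0)]⟩⟩,.o ⟨false,0,⟨1,[(26,0),(0,0)]⟩,⟨1,[(31,0),(8,0)]⟩⟩,.a ⟨true,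
  (-1),⟨0,[(6,0),(19,0)]⟩,⟨0,[(40,0)]⟩⟩ ⟨true,0,⟨0,[]⟩,⟨0,[(43,0)]⟩⟩ ⟨false,1,⟨0,[(0,0),(36,0)]⟩,⟨1,
  [(3,0),(22,0),(0,0),(13,0)]⟩⟩]⟩)) (.I [0,0,-2,0,1,-2] (.I [0,0,-2,-1,1] (.S ⟨1,0,[0,1,-1,-1],[1,
  -1],[1,0,1],(⟨0,[(33,0)]⟩,⟨0,[(34,0)]⟩),⟨0,[(18,0),(0,0)]⟩,.k,(.x 0 ⟨0,[(27,0),(0,0),(5,1)]⟩ ⟨0,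
  [(1,0)]⟩),⟨false,0,⟨1,[(4,0),(22,0),(0,0),(13,0)]⟩,⟨0,[(0,0)]⟩⟩,⟨true,0,⟨0,[(44,0)]⟩,⟨0,[]⟩⟩,
  ⟨true,(-1),⟨0,[(4,0)]⟩,⟨0,[(15,0)]⟩⟩,⟨false,0,⟨0,[(40,0)]⟩,⟨5,[(5,0),(5,0),(3,1),(11,0),(0,1),(13,
  3)]⟩⟩,[.o ⟨false,0,⟨0,[(39,0)]⟩,⟨1,[(4,0),(27,0),(8,0),(0,0)]⟩⟩,.e ⟨false,1,⟨1,[(20,0),(0,0),(20,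
  0)]⟩,⟨0,[(38,0)]⟩⟩ ⟨false,1,⟨0,[(0,0)]⟩,⟨1,[(4,0),(15,0),(0,0)]⟩⟩,.o ⟨false,0,⟨1,[(27,0),(0,0)]⟩,
  ⟨1,[(32,0),(8,0)]⟩⟩,.a ⟨true,(-1),⟨0,[(7,0),(19,0)]⟩,⟨0,[(41,0)]⟩⟩ ⟨true,0,⟨0,[]⟩,⟨0,[(44,0)]⟩⟩
  ⟨false,1,⟨0,[(0,0)]⟩,⟨1,[(4,0),(22,0),(0,0),(13,0)]⟩⟩]⟩) (.Q [0,0,0,2,0,0,1,1,0,-1,1] (.p true [0,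
  0,1] [1] (⟨0,[(30,0)]⟩,⟨0,[(29,0)]⟩) .k 1 (⟨0,[]⟩,⟨0,[]⟩) .k .k) (.R ⟨1,false,false,false,[1,0,
  -1],[0,1],[],(⟨0,[(30,0)]⟩,⟨0,[(31,0)]⟩),(⟨0,[(35,0)]⟩,⟨0,[(34,0)]⟩),⟨0,[(19,0)]⟩,.k,.k,.k,.k,(.r
  (-2) ⟨1,[(12,1),(3,1),(25,0),(0,0)]⟩ ⟨2,[(0,0),(4,0),(1,1),(9,0),(0,0)]⟩),.k,⟨true,1,⟨3,[(16,1),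
  (4,0),(0,0),(20,0)]⟩,⟨0,[(1,0)]⟩⟩,⟨false,2,⟨1,[(28,1),(4,0),(8,2)]⟩,⟨0,[(8,0)]⟩⟩,⟨true,0,⟨1,[(1,
  3),(0,4),(3,1),(1,1),(23,9),(4,0)]⟩,⟨1,[(4,1),(0,0),(36,0)]⟩⟩,⟨false,1,⟨3,[(0,1),(25,1),(6,0),(9,
  2)]⟩,⟨1,[(4,1),(3,0),(16,0),(17,0)]⟩⟩,⟨true,0,⟨10,[(0,4),(6,0),(5,2),(4,2),(6,1),(0,1),(16,0)]⟩,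
  ⟨0,[(4,0)]⟩⟩,⟨true,0,⟨0,[(0,0)]⟩,⟨3,[(4,3),(3,2),(7,1),(1,0),(9,0),(14,0)]⟩⟩,[.e ⟨false,1,⟨1,[(21,
  0),(0,0),(19,0)]⟩,⟨0,[]⟩⟩ ⟨false,1,⟨1,[(0,1),(3,1),(37,0),(0,0)]⟩,⟨3,[(8,2),(7,1),(1,0),(9,0),(14,
  0)]⟩⟩,.o ⟨false,1,⟨3,[(0,1),(26,1),(5,0),(9,2)]⟩,⟨0,[(40,0)]⟩⟩,.o ⟨false,0,⟨0,[(17,0)]⟩,⟨1,[(28,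
  1),(4,0),(8,0)]⟩⟩,.a ⟨true,(-1),⟨0,[(8,0)]⟩,⟨0,[(28,0),(13,0)]⟩⟩ ⟨false,1,⟨1,[(42,0),(0,0)]⟩,⟨1,
  [(28,0),(0,0)]⟩⟩ ⟨true,1,⟨1,[(0,1),(3,1),(37,0),(0,0)]⟩,⟨0,[(8,0),(31,0)]⟩⟩]⟩) (.Q [-1,0,0,1,0,0,
  0,0,-1,0,0,-1] (.p false [0,0,0,0,1] [] (⟨0,[(24,0)]⟩,⟨0,[(23,0)]⟩) .k 0 (⟨0,[]⟩,⟨0,[]⟩) .k .k)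
  (.R ⟨2,true,false,true,[0,1],[0,0,0,0,1],[2,1],(⟨0,[]⟩,⟨0,[]⟩),(⟨0,[(25,0)]⟩,⟨0,[(24,0)]⟩),⟨0,[]⟩,
  .k,.k,.k,(.r 0 ⟨9,[(6,4),(15,2),(0,2),(20,1),(1,3)]⟩ ⟨3,[(17,1),(4,0),(0,0),(20,0)]⟩),.k,.k,⟨true,
  0,⟨0,[]⟩,⟨1,[(29,0),(0,0)]⟩⟩,⟨false,0,⟨0,[(23,0)]⟩,⟨5,[(0,3),(16,1),(4,1),(20,0),(0,0)]⟩⟩,⟨false,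
  1,⟨3,[(17,1),(4,0),(0,0),(20,0)]⟩,⟨1,[(2,1),(0,0),(29,1),(10,0)]⟩⟩,⟨true,0,⟨0,[(23,0),(17,0)]⟩,⟨0,
  [(0,0)]⟩⟩,⟨true,0,⟨0,[(40,0)]⟩,⟨0,[(45,0)]⟩⟩,⟨false,0,⟨0,[(23,0)]⟩,⟨4,[(0,2),(0,0),(10,0),(9,1),
  (21,1)]⟩⟩,[]⟩) (.Q [-1,-1,0,0,1,0,0,0,-1,0,0,-1] (.p false [0,0,0,0,1] [] (⟨0,[(25,0)]⟩,⟨0,[(24,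
  0)]⟩) .k 0 (⟨0,[]⟩,⟨0,[]⟩) .k .k) (.Q [0,0,0,0,0,-1,0,0,0,1,0,-1] (.ed true [0,1,0,0,1] .k) (.Q
  [-1,1,0,0,0,0,0,0,-1,0,0,-1] (.p false [0,0,0,0,1] [] (⟨0,[(27,0)]⟩,⟨0,[(26,0)]⟩) .k 0 (⟨0,[]⟩,⟨0,
  []⟩) .k .k) (.Q [-1,0,0,0,0,0,0,0,-1,1,0,-1] (.p false [0,0,0,0,1] [1] (⟨0,[(28,0)]⟩,⟨0,[(27,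
  0)]⟩) .k 1 (⟨0,[]⟩,⟨0,[]⟩) .k .k) (.Q [0,0,1,0,0,0,0,0,-1,0,0,-1] (.p false [0,0,0,0,1] [] (⟨0,
  [(29,0)]⟩,⟨0,[(28,0)]⟩) .k 0 (⟨0,[]⟩,⟨0,[]⟩) .k .k) (.S ⟨1,0,[-1,1],[1,0,0,0,-1],[-1],(⟨0,[(29,
  0)]⟩,⟨0,[(30,0)]⟩),⟨0,[(3,0)]⟩,.k,(.r (-1) ⟨9,[(22,4),(4,1),(0,1),(20,2),(1,0)]⟩ ⟨1,[(11,0),(15,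
  0),(0,0)]⟩),⟨false,1,⟨1,[(27,0),(0,0),(20,0)]⟩,⟨0,[]⟩⟩,⟨true,0,⟨0,[(51,0)]⟩,⟨0,[]⟩⟩,⟨true,0,⟨0,
  [(47,0)]⟩,⟨0,[(46,0)]⟩⟩,⟨false,0,⟨0,[(47,0)]⟩,⟨4,[(5,1),(0,0),(10,0),(9,1),(21,1)]⟩⟩,[.o ⟨false,0,
  ⟨0,[(2,0)]⟩,⟨1,[(28,1),(10,0),(9,0)]⟩⟩,.e ⟨false,1,⟨1,[(8,0),(29,1),(10,0)]⟩,⟨0,[(51,0)]⟩⟩ ⟨false,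
  1,⟨9,[(27,3),(0,3),(19,4),(0,0),(1,1)]⟩,⟨0,[]⟩⟩,.a ⟨true,0,⟨0,[(1,0)]⟩,⟨0,[(28,0)]⟩⟩ ⟨false,1,⟨4,
  [(27,1),(0,1),(20,2),(1,0)]⟩,⟨0,[]⟩⟩ ⟨true,0,⟨0,[(51,0)]⟩,⟨0,[]⟩⟩,.o ⟨false,0,⟨0,[(0,0)]⟩,⟨1,[(28,
  1),(10,0),(8,0)]⟩⟩]⟩) (.R ⟨2,true,false,true,[0,1],[1,0,0,0,-1],[0,0,1,1],(⟨0,[]⟩,⟨0,[]⟩),(⟨0,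
  [(29,0)]⟩,⟨0,[(30,0)]⟩),⟨0,[]⟩,.k,.k,.k,(.r 0 ⟨1,[(11,0),(15,0),(0,0)]⟩ ⟨9,[(22,4),(4,1),(0,1),
  (20,2),(1,0)]⟩),.k,.k,⟨true,0,⟨0,[(44,0)]⟩,⟨0,[(46,0)]⟩⟩,⟨false,0,⟨0,[(1,0)]⟩,⟨1,[(28,1),(10,0),
  (8,0)]⟩⟩,⟨false,1,⟨1,[(27,0),(0,0),(20,0)]⟩,⟨0,[]⟩⟩,⟨true,0,⟨0,[(1,0),(44,0)]⟩,⟨1,[(0,1),(10,0),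
  (27,0)]⟩⟩,⟨true,0,⟨0,[(47,0)]⟩,⟨0,[(46,0)]⟩⟩,⟨false,0,⟨0,[(1,0)]⟩,⟨1,[(28,1),(10,0),(9,0)]⟩⟩,
  []⟩)) (.R ⟨1,false,false,true,[0,0,1],[1,0,0,0,-1],[0,0,0,0,0,0,0,1],(⟨0,[(36,0)]⟩,⟨0,[(35,0)]⟩),
  (⟨0,[(28,0)]⟩,⟨0,[(29,0)]⟩),⟨0,[(25,0)]⟩,.k,.k,.k,.k,(.r (-1) ⟨1,[(20,1),(26,0),(0,0)]⟩ ⟨1,[(6,3),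
  (0,2),(1,1),(27,5),(10,0)]⟩),.k,⟨false,1,⟨1,[(18,1),(28,0),(0,0)]⟩,⟨1,[(9,1),(0,0),(36,0)]⟩⟩,
  ⟨true,0,⟨1,[(1,0),(1,0),(9,0),(16,0)]⟩,⟨13,[(0,13),(5,1),(0,1),(3,0),(5,0),(15,12),(3,3)]⟩⟩,
  ⟨false,1,⟨1,[(26,0),(0,0),(20,0)]⟩,⟨0,[]⟩⟩,⟨true,0,⟨0,[(1,0),(15,0),(12,0)]⟩,⟨1,[(0,1),(11,0),(2,
  0),(31,0)]⟩⟩,⟨true,0,⟨0,[(46,0)]⟩,⟨0,[(45,0)]⟩⟩,⟨true,0,⟨1,[(1,1),(8,0),(6,1),(12,1),(16,0)]⟩,⟨0,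
  [(0,0),(14,0)]⟩⟩,[.o ⟨false,0,⟨0,[(1,0)]⟩,⟨1,[(27,1),(10,0),(9,0)]⟩⟩,.o ⟨false,1,⟨2,[(3,0),(22,1),
  (23,0)]⟩,⟨0,[(0,0)]⟩⟩,.o ⟨false,1,⟨1,[(33,1),(4,0),(8,0)]⟩,⟨0,[(22,0)]⟩⟩,.a ⟨true,0,⟨0,[(33,0)]⟩,
  ⟨0,[(30,0)]⟩⟩ ⟨false,1,⟨1,[(18,1),(28,0),(0,0)]⟩,⟨0,[(17,0)]⟩⟩ ⟨true,0,⟨0,[(1,0),(28,0)]⟩,⟨0,[(0,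
  0),(32,0)]⟩⟩]⟩)) (.R ⟨2,true,false,false,[0,1],[0,0,0,0,1],[1,0,1],(⟨0,[]⟩,⟨0,[]⟩),(⟨0,[(28,0)]⟩,
  ⟨0,[(27,0)]⟩),⟨0,[]⟩,.k,.k,.k,(.r 0 ⟨9,[(9,4),(15,2),(0,2),(20,1),(1,3)]⟩ ⟨3,[(20,1),(4,0),(0,0),
  (20,0)]⟩),.k,.k,⟨true,0,⟨1,[(32,0),(0,0)]⟩,⟨0,[]⟩⟩,⟨false,0,⟨0,[(26,0)]⟩,⟨0,[(2,0),(40,0)]⟩⟩,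
  ⟨false,1,⟨4,[(3,1),(0,0),(10,0),(9,1),(21,1)]⟩,⟨0,[(45,0)]⟩⟩,⟨true,0,⟨0,[(3,0)]⟩,⟨0,[(2,0),(2,0),
  (37,1)]⟩⟩,⟨true,0,⟨0,[]⟩,⟨0,[(49,0)]⟩⟩,⟨false,0,⟨0,[(0,0)]⟩,⟨2,[(2,0),(22,1),(23,0)]⟩⟩,[]⟩)) (.Q
  [-1,0,0,0,0,0,0,0,-1,1,0,-1] (.p false [0,0,0,0,1] [1] (⟨0,[(27,0)]⟩,⟨0,[(26,0)]⟩) .k 1 (⟨0,[]⟩,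
  ⟨0,[]⟩) .k .k) (.S ⟨1,0,[1,1],[0,0,0,0,1],[],(⟨0,[(28,0)]⟩,⟨0,[(27,0)]⟩),⟨6,[(1,0),(2,0),(0,3),(1,
  3),(2,0),(17,5)]⟩,.k,(.r (-1) ⟨3,[(20,1),(4,0),(0,0),(20,0)]⟩ ⟨9,[(9,4),(15,2),(0,2),(20,1),(1,
  3)]⟩),⟨false,1,⟨4,[(25,1),(0,1),(20,2),(1,0)]⟩,⟨0,[]⟩⟩,⟨true,0,⟨0,[(49,0)]⟩,⟨0,[]⟩⟩,⟨true,0,⟨0,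
  [(5,0),(0,0),(29,1)]⟩,⟨0,[(44,0)]⟩⟩,⟨false,0,⟨0,[(45,0)]⟩,⟨4,[(3,1),(0,0),(10,0),(9,1),(21,1)]⟩⟩,
  [.o ⟨false,0,⟨1,[(3,1),(5,0),(27,0),(5,1)]⟩,⟨0,[(2,0)]⟩⟩,.a ⟨true,0,⟨0,[(26,0)]⟩,⟨0,[(0,0)]⟩⟩
  ⟨false,1,⟨1,[(46,0),(0,0)]⟩,⟨0,[(49,0)]⟩⟩ ⟨true,0,⟨0,[]⟩,⟨1,[(32,0),(0,0)]⟩⟩,.e ⟨false,1,⟨1,[(25,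
  0),(0,0),(20,0)]⟩,⟨0,[]⟩⟩ ⟨false,0,⟨0,[]⟩,⟨1,[(25,0),(0,0),(20,0)]⟩⟩,.o ⟨false,0,⟨5,[(3,5),(5,2),
  (27,0),(3,1)]⟩,⟨0,[(2,0),(40,0)]⟩⟩]⟩) (.R ⟨1,false,false,true,[0,0,1],[0,0,0,0,1],[0,1,0,0,0,0,0,
  1],(⟨0,[(35,0)]⟩,⟨0,[(34,0)]⟩),(⟨0,[(28,0)]⟩,⟨0,[(27,0)]⟩),⟨0,[(24,0)]⟩,.k,.k,.k,.k,(.r (-1) ⟨1,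
  [(19,1),(26,0),(0,0)]⟩ ⟨1,[(9,0),(6,1),(29,0)]⟩),.k,⟨true,0,⟨57,[(6,6),(3,1),(0,3),(0,5),(4,51),
  (18,13),(4,2)]⟩,⟨0,[(16,0)]⟩⟩,⟨false,0,⟨6,[(0,6),(5,0),(5,0),(16,5),(6,1)]⟩,⟨0,[(2,0),(29,0),(10,
  0)]⟩⟩,⟨true,0,⟨0,[(49,0)]⟩,⟨0,[]⟩⟩,⟨false,0,⟨0,[(0,0),(15,0),(12,0)]⟩,⟨1,[(2,1),(8,0),(2,0),(31,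
  0)]⟩⟩,⟨false,0,⟨0,[(45,0)]⟩,⟨4,[(3,1),(0,0),(10,0),(9,1),(21,1)]⟩⟩,⟨false,0,⟨1,[(0,1),(8,0),(6,1),
  (12,1),(16,0)]⟩,⟨0,[(2,0),(11,0)]⟩⟩,[.o ⟨false,0,⟨0,[(0,0),(48,0)]⟩,⟨0,[(2,0)]⟩⟩,.o ⟨false,0,⟨0,
  [(0,0)]⟩,⟨2,[(2,0),(22,1),(23,0)]⟩⟩,.o ⟨false,1,⟨1,[(32,1),(4,0),(8,0)]⟩,⟨0,[(21,0)]⟩⟩,.a ⟨true,0,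
  ⟨0,[(32,0)]⟩,⟨0,[(29,0)]⟩⟩ ⟨true,0,⟨0,[(17,0),(25,0)]⟩,⟨0,[(16,0)]⟩⟩ ⟨false,0,⟨0,[(0,0),(28,0)]⟩,
  ⟨0,[(2,0),(29,0)]⟩⟩]⟩))) (.Q [0,0,1,0,0,0,0,0,-1,1,0,-1] (.p false [0,0,0,0,1] [1] (⟨0,[(26,0)]⟩,
  ⟨0,[(25,0)]⟩) .k 1 (⟨0,[]⟩,⟨0,[]⟩) .k .k) (.Q [0,0,0,0,0,0,1,0,1,-1,1,1] (.p true [0,0,1] [1,0,0,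
  0,-1] (⟨0,[(34,0)]⟩,⟨0,[(33,0)]⟩) .k 2 (⟨0,[(26,0)]⟩,⟨0,[(27,0)]⟩) .k (.r 0 ⟨0,[(16,0)]⟩ ⟨9,[(15,
  9),(8,3),(0,3),(19,4),(0,0),(1,1)]⟩)) (.K ⟨0,[1,0,0,0,-1],0,0,(⟨0,[(27,0)]⟩,⟨0,[(28,0)]⟩),.k,(.r
  (-1) ⟨9,[(20,4),(4,1),(0,1),(20,2),(1,0)]⟩ ⟨1,[(9,0),(15,0),(0,0)]⟩),(.r 0 ⟨9,[(9,4),(15,2),(0,2),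
  (20,1),(1,3)]⟩ ⟨3,[(20,1),(4,0),(0,0),(20,0)]⟩),.k,.k,[⟨0,[(0,0)]⟩,⟨0,[(1,0)]⟩,⟨1,[(2,0),(23,0),
  (10,0),(11,0)]⟩,⟨0,[(1,0),(41,0)]⟩]⟩) (.Q [0,0,0,0,0,-1,0,0,0,1,0,-1] (.ed true [0,1,0,0,1] .k)
  (.R ⟨1,false,false,false,[1,0,0,0,-1],[0,1],[-1],(⟨0,[(28,0)]⟩,⟨0,[(29,0)]⟩),(⟨0,[(40,0)]⟩,⟨0,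
  [(39,0)]⟩),⟨0,[(0,0)]⟩,.k,.k,(.r (-1) ⟨9,[(21,4),(4,1),(0,1),(20,2),(1,0)]⟩ ⟨1,[(10,0),(15,0),(0,
  0)]⟩),(.r (-1) ⟨9,[(21,4),(4,1),(0,1),(20,2),(1,0)]⟩ ⟨1,[(10,0),(15,0),(0,0)]⟩),(.r (-2) ⟨1,[(21,
  1),(4,0),(0,0),(20,0)]⟩ ⟨0,[(10,0)]⟩),.k,⟨true,1,⟨9,[(21,4),(4,1),(0,1),(20,2),(1,0)]⟩,⟨0,[(6,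
  0)]⟩⟩,⟨false,1,⟨1,[(3,1),(34,0),(8,1),(0,0)]⟩,⟨0,[(2,0)]⟩⟩,⟨false,1,⟨1,[(26,0),(0,0),(20,0)]⟩,⟨0,
  []⟩⟩,⟨true,0,⟨1,[(3,1),(6,0),(27,0),(8,0),(0,0)]⟩,⟨19,[(1,6),(0,12),(3,0),(0,0),(1,6),(1,6),(25,
  1),(6,12)]⟩⟩,⟨true,0,⟨0,[(46,0)]⟩,⟨0,[(45,0)]⟩⟩,⟨true,0,⟨1,[(3,1),(6,1),(27,0),(8,1),(0,0)]⟩,⟨9,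
  [(1,6),(0,2),(3,0),(0,0),(1,6),(1,6),(25,1),(6,2)]⟩⟩,[.a ⟨true,0,⟨0,[(46,0)]⟩,⟨2,[(5,0),(9,0),(14,
  1),(2,1)]⟩⟩ ⟨false,1,⟨9,[(26,3),(0,3),(19,4),(0,0),(1,1)]⟩,⟨0,[]⟩⟩ ⟨true,0,⟨1,[(3,1),(6,0),(27,0),
  (8,0),(0,0)]⟩,⟨1,[(1,0),(0,0),(8,0),(5,0)]⟩⟩,.o ⟨false,1,⟨1,[(10,0),(27,0),(8,0),(0,0)]⟩,⟨0,[(45,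
  0)]⟩⟩,.o ⟨false,1,⟨0,[(26,0)]⟩,⟨5,[(3,5),(34,1),(3,0),(5,2)]⟩⟩,.e ⟨false,1,⟨1,[(7,0),(29,1),(10,
  0)]⟩,⟨1,[(33,0),(0,0)]⟩⟩ ⟨false,1,⟨1,[(3,1),(6,0),(27,0),(8,1),(0,1)]⟩,⟨1,[(1,0),(0,0),(8,0),(5,
  0)]⟩⟩]⟩) (.R ⟨0,false,false,false,[1,0,0,0,-1],[0,1],[-1],(⟨0,[(28,0)]⟩,⟨0,[(29,0)]⟩),(⟨0,[(40,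
  0)]⟩,⟨0,[(39,0)]⟩),⟨0,[(0,0)]⟩,.k,.k,(.r (-1) ⟨9,[(21,4),(4,1),(0,1),(20,2),(1,0)]⟩ ⟨1,[(10,0),
  (15,0),(0,0)]⟩),(.r (-1) ⟨9,[(21,4),(4,1),(0,1),(20,2),(1,0)]⟩ ⟨1,[(10,0),(15,0),(0,0)]⟩),.k,.k,
  ⟨true,1,⟨9,[(21,4),(4,1),(0,1),(20,2),(1,0)]⟩,⟨0,[(6,0)]⟩⟩,⟨false,1,⟨1,[(3,1),(34,0),(8,1),(0,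
  0)]⟩,⟨0,[(2,0)]⟩⟩,⟨false,1,⟨1,[(26,0),(0,0),(20,0)]⟩,⟨0,[]⟩⟩,⟨true,0,⟨1,[(3,1),(6,0),(27,0),(8,0),
  (0,0)]⟩,⟨19,[(1,6),(0,12),(3,0),(0,0),(1,6),(1,6),(25,1),(6,12)]⟩⟩,⟨false,0,⟨0,[]⟩,⟨0,[]⟩⟩,⟨false,
  0,⟨0,[]⟩,⟨0,[]⟩⟩,[.a ⟨true,0,⟨0,[(46,0)]⟩,⟨2,[(5,0),(9,0),(14,1),(2,1)]⟩⟩ ⟨false,1,⟨9,[(26,3),(0,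
  3),(19,4),(0,0),(1,1)]⟩,⟨0,[]⟩⟩ ⟨true,0,⟨1,[(3,1),(6,0),(27,0),(8,0),(0,0)]⟩,⟨1,[(1,0),(0,0),(8,
  0),(5,0)]⟩⟩,.o ⟨false,1,⟨1,[(10,0),(27,0),(8,0),(0,0)]⟩,⟨0,[(45,0)]⟩⟩,.o ⟨false,1,⟨0,[(26,0)]⟩,⟨5,
  [(3,5),(34,1),(3,0),(5,2)]⟩⟩,.e ⟨false,1,⟨1,[(7,0),(29,1),(10,0)]⟩,⟨1,[(33,0),(0,0)]⟩⟩ ⟨false,1,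
  ⟨1,[(3,1),(6,0),(27,0),(8,1),(0,1)]⟩,⟨1,[(1,0),(0,0),(8,0),(5,0)]⟩⟩]⟩))) (.Q [0,0,0,0,0,-1,0,0,0,
  0,0,1] (.ed false [1,-1,0,0,1] .k) (.R ⟨1,false,false,true,[0,0,0,0,1],[0,1],[0,1],(⟨0,[(28,0)]⟩,
  ⟨0,[(27,0)]⟩),(⟨0,[(39,0)]⟩,⟨0,[(38,0)]⟩),⟨0,[(0,0)]⟩,.k,.k,(.r (-1) ⟨3,[(20,1),(4,0),(0,0),(20,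
  0)]⟩ ⟨9,[(9,4),(15,2),(0,2),(20,1),(1,3)]⟩),(.r (-1) ⟨3,[(20,1),(4,0),(0,0),(20,0)]⟩ ⟨9,[(9,4),
  (15,2),(0,2),(20,1),(1,3)]⟩),(.r (-2) ⟨1,[(20,1),(4,0),(0,0),(20,0)]⟩ ⟨0,[(5,1),(0,0),(29,1)]⟩),
  .k,⟨true,1,⟨3,[(20,1),(4,0),(0,0),(20,0)]⟩,⟨0,[(5,0)]⟩⟩,⟨false,2,⟨0,[(25,0),(20,0)]⟩,⟨49,[(1,7),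
  (0,41),(1,7),(0,31),(0,2),(3,7),(25,5),(10,20)]⟩⟩,⟨true,0,⟨0,[(49,0)]⟩,⟨0,[]⟩⟩,⟨false,1,⟨0,[(25,
  0),(19,0)]⟩,⟨6,[(1,1),(0,4),(1,1),(0,0),(4,1),(36,5)]⟩⟩,⟨false,0,⟨0,[(5,0),(0,0),(29,1)]⟩,⟨4,[(3,
  1),(0,0),(10,0),(9,1),(21,1)]⟩⟩,⟨false,1,⟨0,[(9,0),(15,0),(20,0)]⟩,⟨6,[(1,3),(0,2),(1,3),(0,1),(4,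
  3),(36,4)]⟩⟩,[.o ⟨false,0,⟨1,[(9,0),(27,0),(5,1)]⟩,⟨4,[(3,1),(0,0),(10,0),(9,1),(21,1)]⟩⟩,.a
  ⟨true,0,⟨0,[(45,0)]⟩,⟨2,[(4,0),(9,0),(14,1),(2,1)]⟩⟩ ⟨false,1,⟨1,[(25,0),(0,0),(19,0)]⟩,⟨0,[]⟩⟩
  ⟨true,1,⟨1,[(9,0),(15,1),(20,0)]⟩,⟨24,[(1,10),(0,13),(1,10),(0,18),(0,0),(3,10),(25,1),(10,6)]⟩⟩,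
  .o ⟨false,0,⟨11,[(1,5),(1,5),(5,2),(27,0),(3,1)]⟩,⟨0,[(25,0)]⟩⟩,.e ⟨true,0,⟨0,[(43,0)]⟩,⟨1,[(32,
  0),(0,0)]⟩⟩ ⟨true,1,⟨1,[(9,0),(15,1),(17,1),(2,0)]⟩,⟨24,[(1,10),(0,13),(1,10),(0,18),(0,0),(3,10),
  (25,1),(10,6)]⟩⟩]⟩) (.R ⟨0,false,false,true,[0,0,0,0,1],[0,1],[0,1],(⟨0,[(28,0)]⟩,⟨0,[(27,0)]⟩),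
  (⟨0,[(39,0)]⟩,⟨0,[(38,0)]⟩),⟨0,[(0,0)]⟩,.k,.k,(.r (-1) ⟨3,[(20,1),(4,0),(0,0),(20,0)]⟩ ⟨9,[(9,4),
  (15,2),(0,2),(20,1),(1,3)]⟩),(.r (-1) ⟨3,[(20,1),(4,0),(0,0),(20,0)]⟩ ⟨9,[(9,4),(15,2),(0,2),(20,
  1),(1,3)]⟩),.k,.k,⟨true,1,⟨3,[(20,1),(4,0),(0,0),(20,0)]⟩,⟨0,[(5,0)]⟩⟩,⟨false,2,⟨0,[(25,0),(20,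
  0)]⟩,⟨49,[(1,7),(0,41),(1,7),(0,31),(0,2),(3,7),(25,5),(10,20)]⟩⟩,⟨true,0,⟨0,[(49,0)]⟩,⟨0,[]⟩⟩,
  ⟨false,1,⟨0,[(25,0),(19,0)]⟩,⟨6,[(1,1),(0,4),(1,1),(0,0),(4,1),(36,5)]⟩⟩,⟨false,0,⟨0,[]⟩,⟨0,[]⟩⟩,
  ⟨false,0,⟨0,[]⟩,⟨0,[]⟩⟩,[.o ⟨false,0,⟨1,[(9,0),(27,0),(5,1)]⟩,⟨4,[(3,1),(0,0),(10,0),(9,1),(21,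
  1)]⟩⟩,.a ⟨true,0,⟨0,[(45,0)]⟩,⟨2,[(4,0),(9,0),(14,1),(2,1)]⟩⟩ ⟨false,1,⟨1,[(25,0),(0,0),(19,0)]⟩,
  ⟨0,[]⟩⟩ ⟨true,1,⟨1,[(9,0),(15,1),(20,0)]⟩,⟨24,[(1,10),(0,13),(1,10),(0,18),(0,0),(3,10),(25,1),
  (10,6)]⟩⟩,.o ⟨false,0,⟨11,[(1,5),(1,5),(5,2),(27,0),(3,1)]⟩,⟨0,[(25,0)]⟩⟩,.e ⟨true,0,⟨0,[(43,0)]⟩,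
  ⟨1,[(32,0),(0,0)]⟩⟩ ⟨true,1,⟨1,[(9,0),(15,1),(17,1),(2,0)]⟩,⟨24,[(1,10),(0,13),(1,10),(0,18),(0,
  0),(3,10),(25,1),(10,6)]⟩⟩]⟩))))))) (.Q [0,0,-1,0,0,0,0,0,1,-1,0,1] (.p true [0,0,0,0,1] [1] (⟨0,
  [(22,0)]⟩,⟨0,[(21,0)]⟩) .k 1 (⟨0,[]⟩,⟨0,[]⟩) .k .k) (.Q [0,0,0,0,0,1,0,0,0,0,0,-1] (.ed true [1,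
  -1,0,0,1] .k) (.R ⟨0,false,false,true,[0,0,0,0,1],[1,0,-1],[0,1],(⟨0,[(24,0)]⟩,⟨0,[(23,0)]⟩),(⟨0,
  [(30,0)]⟩,⟨0,[(31,0)]⟩),⟨0,[(0,0)]⟩,.k,.k,(.r (-1) ⟨3,[(16,1),(4,0),(0,0),(20,0)]⟩ ⟨9,[(5,4),(15,
  2),(0,2),(20,1),(1,3)]⟩),.k,.k,.k,⟨true,0,⟨1,[(3,2),(1,1),(0,1),(1,1),(23,5),(4,0)]⟩,⟨0,[(12,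
  0)]⟩⟩,⟨false,1,⟨0,[(21,0),(3,0)]⟩,⟨0,[(1,0),(26,0)]⟩⟩,⟨true,0,⟨0,[(45,0)]⟩,⟨0,[]⟩⟩,⟨false,1,⟨5,
  [(3,0),(4,0),(3,5),(8,5),(3,4),(6,1)]⟩,⟨1,[(1,1),(5,0),(2,0),(32,0)]⟩⟩,⟨false,0,⟨0,[]⟩,⟨0,[]⟩⟩,
  ⟨false,0,⟨0,[]⟩,⟨0,[]⟩⟩,[.o ⟨false,0,⟨0,[(27,0)]⟩,⟨1,[(5,0),(5,1),(30,0)]⟩⟩,.a ⟨true,0,⟨0,[(12,0),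
  (12,0)]⟩,⟨1,[(7,0),(2,0),(31,0)]⟩⟩ ⟨false,1,⟨1,[(21,0),(0,0),(19,0)]⟩,⟨0,[]⟩⟩ ⟨true,1,⟨0,[(12,0),
  (8,0),(3,0)]⟩,⟨0,[(1,0),(3,0),(0,0)]⟩⟩,.o ⟨false,0,⟨13,[(1,9),(4,0),(0,1),(4,2),(9,3),(6,2),(3,
  1)]⟩,⟨0,[(21,0)]⟩⟩,.e ⟨true,0,⟨0,[(39,0)]⟩,⟨1,[(28,0),(0,0)]⟩⟩ ⟨true,1,⟨1,[(4,1),(0,0),(15,1),(3,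
  1),(16,0)]⟩,⟨0,[(1,0),(3,0),(0,0)]⟩⟩]⟩) (.R ⟨1,false,false,true,[0,0,0,0,1],[1,0,-1],[0,1],(⟨0,
  [(24,0)]⟩,⟨0,[(23,0)]⟩),(⟨0,[(30,0)]⟩,⟨0,[(31,0)]⟩),⟨0,[(0,0)]⟩,.k,.k,(.r (-1) ⟨3,[(16,1),(4,0),
  (0,0),(20,0)]⟩ ⟨9,[(5,4),(15,2),(0,2),(20,1),(1,3)]⟩),.k,(.r (-1) ⟨1,[(15,1),(26,0),(0,0)]⟩ ⟨1,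
  [(3,0),(0,1),(0,1),(26,1),(10,0)]⟩),.k,⟨true,0,⟨1,[(3,2),(1,1),(0,1),(1,1),(23,5),(4,0)]⟩,⟨0,[(12,
  0)]⟩⟩,⟨false,1,⟨0,[(21,0),(3,0)]⟩,⟨0,[(1,0),(26,0)]⟩⟩,⟨true,0,⟨0,[(45,0)]⟩,⟨0,[]⟩⟩,⟨false,1,⟨5,
  [(3,0),(4,0),(3,5),(8,5),(3,4),(6,1)]⟩,⟨1,[(1,1),(5,0),(2,0),(32,0)]⟩⟩,⟨false,0,⟨1,[(3,0),(1,0),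
  (26,1)]⟩,⟨5,[(6,0),(5,0),(3,1),(11,0),(0,1),(13,3)]⟩⟩,⟨false,1,⟨0,[(12,0),(8,0),(3,0),(15,0)]⟩,⟨1,
  [(1,1),(3,0),(0,1),(36,0)]⟩⟩,[.o ⟨false,0,⟨0,[(27,0)]⟩,⟨1,[(5,0),(5,1),(30,0)]⟩⟩,.a ⟨true,0,⟨0,
  [(12,0),(12,0)]⟩,⟨1,[(7,0),(2,0),(31,0)]⟩⟩ ⟨false,1,⟨1,[(21,0),(0,0),(19,0)]⟩,⟨0,[]⟩⟩ ⟨true,1,⟨0,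
  [(12,0),(8,0),(3,0)]⟩,⟨0,[(1,0),(3,0),(0,0)]⟩⟩,.o ⟨false,0,⟨13,[(1,9),(4,0),(0,1),(4,2),(9,3),(6,
  2),(3,1)]⟩,⟨0,[(21,0)]⟩⟩,.e ⟨true,0,⟨0,[(39,0)]⟩,⟨1,[(28,0),(0,0)]⟩⟩ ⟨true,1,⟨1,[(4,1),(0,0),(15,
  1),(3,1),(16,0)]⟩,⟨0,[(1,0),(3,0),(0,0)]⟩⟩]⟩)) (.Q [0,0,0,0,0,0,1,0,1,-1,1,1] (.p true [0,0,1] [1,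
  0,0,0,-1] (⟨0,[(30,0)]⟩,⟨0,[(29,0)]⟩) .k 2 (⟨0,[(22,0)]⟩,⟨0,[(23,0)]⟩) .k (.r 0 ⟨0,[(12,0)]⟩ ⟨9,
  [(11,9),(8,3),(0,3),(19,4),(0,0),(1,1)]⟩)) (.K ⟨0,[1,0,0,0,-1],0,0,(⟨0,[(23,0)]⟩,⟨0,[(24,0)]⟩),.k,
  (.r (-1) ⟨9,[(16,4),(4,1),(0,1),(20,2),(1,0)]⟩ ⟨1,[(5,0),(15,0),(0,0)]⟩),(.r 0 ⟨9,[(5,4),(15,2),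
  (0,2),(20,1),(1,3)]⟩ ⟨3,[(16,1),(4,0),(0,0),(20,0)]⟩),.k,.k,[⟨0,[(0,0)]⟩,⟨0,[(1,0)]⟩,⟨11,[(0,11),
  (4,0),(2,1),(6,1),(2,3),(8,1),(5,2),(2,3)]⟩,⟨0,[(1,0),(37,0)]⟩]⟩) (.Q [0,0,0,0,0,-1,0,0,0,1,0,-1]
  (.ed true [0,1,0,0,1] .k) (.Q [0,0,0,0,0,0,0,0,-1,1,0,-1] (.p false [0,0,0,0,1] [1] (⟨0,[(25,0)]⟩,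
  ⟨0,[(24,0)]⟩) .k 1 (⟨0,[]⟩,⟨0,[]⟩) .k .k) (.Q [-1,1,0,0,0,0,0,0,-1,0,0,-1] (.p false [0,0,0,0,1]
  [] (⟨0,[(26,0)]⟩,⟨0,[(25,0)]⟩) .k 0 (⟨0,[]⟩,⟨0,[]⟩) .k .k) (.Q [0,0,1,0,0,0,0,0,-1,0,0,-1] (.p
  false [0,0,0,0,1] [] (⟨0,[(27,0)]⟩,⟨0,[(26,0)]⟩) .k 0 (⟨0,[]⟩,⟨0,[]⟩) .k .k) (.S ⟨1,0,[-1,1],[1,0,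
  0,0,-1],[-1],(⟨0,[(27,0)]⟩,⟨0,[(28,0)]⟩),⟨0,[(3,0)]⟩,.k,(.r (-1) ⟨9,[(20,4),(4,1),(0,1),(20,2),(1,
  0)]⟩ ⟨1,[(9,0),(15,0),(0,0)]⟩),⟨false,1,⟨1,[(25,0),(0,0),(20,0)]⟩,⟨0,[]⟩⟩,⟨true,0,⟨0,[(49,0)]⟩,⟨0,
  []⟩⟩,⟨true,0,⟨0,[(45,0)]⟩,⟨0,[(44,0)]⟩⟩,⟨false,0,⟨0,[(45,0)]⟩,⟨5,[(10,0),(5,0),(3,1),(11,0),(0,1),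
  (13,3)]⟩⟩,[.o ⟨false,0,⟨0,[(1,0)]⟩,⟨1,[(26,1),(10,0),(9,0)]⟩⟩,.e ⟨false,1,⟨1,[(7,0),(28,1),(10,
  0)]⟩,⟨0,[(49,0)]⟩⟩ ⟨false,1,⟨9,[(25,3),(0,3),(19,4),(0,0),(1,1)]⟩,⟨0,[]⟩⟩,.a ⟨true,0,⟨0,[(2,0)]⟩,
  ⟨0,[(26,0)]⟩⟩ ⟨false,1,⟨4,[(25,1),(0,1),(20,2),(1,0)]⟩,⟨0,[]⟩⟩ ⟨true,0,⟨0,[(49,0)]⟩,⟨0,[]⟩⟩,.o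
  ⟨false,0,⟨0,[(0,0)]⟩,⟨1,[(26,1),(10,0),(8,0)]⟩⟩]⟩) (.R ⟨1,false,false,true,[1,0,0,0,-1],[0,1],[0,
  1,0,-1],(⟨0,[(27,0)]⟩,⟨0,[(28,0)]⟩),(⟨0,[(39,0)]⟩,⟨0,[(38,0)]⟩),⟨0,[(3,0)]⟩,.k,.k,(.r (-1) ⟨9,
  [(20,4),(4,1),(0,1),(20,2),(1,0)]⟩ ⟨1,[(9,0),(15,0),(0,0)]⟩),(.r (-1) ⟨9,[(20,4),(4,1),(0,1),(20,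
  2),(1,0)]⟩ ⟨1,[(9,0),(15,0),(0,0)]⟩),(.r (-2) ⟨1,[(20,1),(4,0),(0,0),(20,0)]⟩ ⟨0,[(9,0)]⟩),.k,
  ⟨true,1,⟨11,[(8,3),(1,3),(9,5),(1,1),(14,0),(9,4)]⟩,⟨0,[(9,0)]⟩⟩,⟨false,1,⟨1,[(0,1),(36,0),(8,
  0)]⟩,⟨0,[(5,0)]⟩⟩,⟨true,0,⟨0,[(44,0)]⟩,⟨0,[(45,0)]⟩⟩,⟨false,0,⟨1,[(0,1),(8,0),(27,0)]⟩,⟨6,[(2,1),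
  (1,0),(0,3),(2,0),(1,0),(9,1),(26,4)]⟩⟩,⟨false,0,⟨0,[]⟩,⟨1,[(25,0),(0,0),(20,0)]⟩⟩,⟨false,0,⟨1,
  [(0,1),(8,1),(27,0),(8,0)]⟩,⟨6,[(2,0),(1,3),(0,1),(2,3),(1,3),(9,0),(26,5)]⟩⟩,[.o ⟨false,0,⟨1,[(9,
  0),(27,0),(5,1)]⟩,⟨5,[(10,0),(5,0),(3,1),(11,0),(0,1),(13,3)]⟩⟩,.a ⟨true,0,⟨0,[(45,0)]⟩,⟨5,[(6,0),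
  (1,1),(1,1),(18,3),(2,1),(5,1),(8,0)]⟩⟩ ⟨false,1,⟨3,[(20,1),(4,0),(0,0),(20,0)]⟩,⟨1,[(9,0),(36,
  0)]⟩⟩ ⟨true,0,⟨1,[(0,1),(8,0),(27,0)]⟩,⟨1,[(4,0),(0,0),(4,0),(5,0)]⟩⟩,.a ⟨true,0,⟨0,[(2,0)]⟩,⟨0,
  [(26,0)]⟩⟩ ⟨true,0,⟨0,[(44,0)]⟩,⟨1,[(9,0),(36,0)]⟩⟩ ⟨false,0,⟨1,[(0,1),(8,0),(27,0)]⟩,⟨6,[(2,1),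
  (1,0),(0,3),(2,0),(1,0),(9,1),(26,4)]⟩⟩,.a ⟨true,0,⟨0,[(5,0)]⟩,⟨0,[(0,0)]⟩⟩ ⟨false,1,⟨3,[(20,1),
  (4,0),(0,0),(20,0)]⟩,⟨0,[(42,0)]⟩⟩ ⟨true,0,⟨1,[(0,1),(8,0),(27,0),(5,1)]⟩,⟨1,[(4,0),(0,0),(4,0),
  (5,0)]⟩⟩]⟩)) (.R ⟨2,true,false,false,[0,1],[0,0,0,0,1],[1,0,1],(⟨0,[]⟩,⟨0,[]⟩),(⟨0,[(27,0)]⟩,⟨0,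
  [(26,0)]⟩),⟨0,[]⟩,.k,.k,.k,(.r 0 ⟨9,[(8,4),(15,2),(0,2),(20,1),(1,3)]⟩ ⟨3,[(19,1),(4,0),(0,0),(20,
  0)]⟩),.k,.k,⟨true,0,⟨1,[(31,0),(0,0)]⟩,⟨0,[]⟩⟩,⟨false,0,⟨0,[(25,0)]⟩,⟨1,[(1,1),(34,0),(8,0)]⟩⟩,
  ⟨false,1,⟨5,[(9,0),(5,0),(3,1),(11,0),(0,1),(13,3)]⟩,⟨0,[(44,0)]⟩⟩,⟨true,0,⟨0,[(0,0),(42,0)]⟩,⟨1,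
  [(1,1),(6,0),(27,0),(5,1)]⟩⟩,⟨true,0,⟨0,[]⟩,⟨0,[(48,0)]⟩⟩,⟨false,0,⟨0,[(0,0)]⟩,⟨7,[(1,1),(22,5),
  (15,0),(5,0),(1,1)]⟩⟩,[]⟩)) (.I [1,-1,-1,-1,1] (.R ⟨1,false,false,false,[1,0,0,0,-1],[0,1],[0,0,2,
  1],(⟨0,[(26,0)]⟩,⟨0,[(27,0)]⟩),(⟨0,[(38,0)]⟩,⟨0,[(37,0)]⟩),⟨0,[(2,0)]⟩,.k,.k,(.r (-1) ⟨9,[(19,4),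
  (4,1),(0,1),(20,2),(1,0)]⟩ ⟨1,[(8,0),(15,0),(0,0)]⟩),(.r (-1) ⟨9,[(19,4),(4,1),(0,1),(20,2),(1,
  0)]⟩ ⟨1,[(8,0),(15,0),(0,0)]⟩),(.r (-2) ⟨1,[(19,1),(4,0),(0,0),(20,0)]⟩ ⟨0,[(8,0)]⟩),.k,⟨true,0,
  ⟨1,[(31,0),(0,0)]⟩,⟨0,[]⟩⟩,⟨false,1,⟨0,[(1,0),(43,0)]⟩,⟨0,[(4,0)]⟩⟩,⟨false,0,⟨1,[(8,0),(22,0),(0,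
  0),(13,0)]⟩,⟨0,[(0,0),(41,0)]⟩⟩,⟨true,0,⟨1,[(1,1),(6,0),(36,0)]⟩,⟨14,[(3,5),(0,8),(1,0),(0,5),(1,
  4),(0,0),(24,1),(6,8)]⟩⟩,⟨true,(-1),⟨0,[(8,0)]⟩,⟨0,[(19,0)]⟩⟩,⟨true,0,⟨0,[(1,0),(6,0),(36,0)]⟩,
  ⟨14,[(3,11),(0,2),(1,1),(0,11),(1,9),(0,1),(24,3),(6,2)]⟩⟩,[.a ⟨true,0,⟨0,[(44,0)]⟩,⟨3,[(0,0),(4,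
  0),(1,0),(1,0),(18,1),(2,0),(5,1)]⟩⟩ ⟨false,0,⟨1,[(8,0),(15,0),(0,0)]⟩,⟨0,[(0,0),(41,0)]⟩⟩ ⟨true,
  0,⟨1,[(1,1),(6,0),(36,0)]⟩,⟨1,[(3,0),(0,0),(4,0),(5,0)]⟩⟩,.o ⟨false,1,⟨1,[(8,0),(27,0),(8,0),(0,
  0)]⟩,⟨0,[(43,0)]⟩⟩,.o ⟨false,1,⟨0,[(24,0)]⟩,⟨0,[(1,0)]⟩⟩,.e ⟨false,0,⟨1,[(8,0),(37,0)]⟩,⟨3,[(19,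
  1),(4,0),(0,0),(20,0)]⟩⟩ ⟨false,1,⟨1,[(1,1),(6,0),(36,1),(0,0)]⟩,⟨1,[(3,0),(0,0),(4,0),(5,
  0)]⟩⟩]⟩) (.R ⟨1,false,false,false,[1,0,0,0,-1],[0,1],[1,1,1],(⟨0,[(26,0)]⟩,⟨0,[(27,0)]⟩),(⟨0,[(38,
  0)]⟩,⟨0,[(37,0)]⟩),⟨0,[(2,0)]⟩,.k,.k,(.r (-1) ⟨9,[(19,4),(4,1),(0,1),(20,2),(1,0)]⟩ ⟨1,[(8,0),(15,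
  0),(0,0)]⟩),(.r (-1) ⟨9,[(19,4),(4,1),(0,1),(20,2),(1,0)]⟩ ⟨1,[(8,0),(15,0),(0,0)]⟩),(.r (-2) ⟨1,
  [(19,1),(4,0),(0,0),(20,0)]⟩ ⟨0,[(8,0)]⟩),.k,⟨true,0,⟨0,[(43,0)]⟩,⟨1,[(8,0),(37,0)]⟩⟩,⟨false,1,⟨0,
  [(1,0),(43,0)]⟩,⟨0,[(4,0)]⟩⟩,⟨false,0,⟨1,[(31,0),(0,0)]⟩,⟨1,[(6,0),(28,1),(10,0)]⟩⟩,⟨true,0,⟨1,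
  [(1,1),(6,0),(36,0)]⟩,⟨16,[(0,0),(2,5),(0,10),(1,0),(0,5),(1,5),(25,1),(6,9)]⟩⟩,⟨true,(-1),⟨0,[(0,
  0)]⟩,⟨9,[(19,4),(4,1),(0,1),(20,2),(1,0)]⟩⟩,⟨true,0,⟨0,[(1,0),(6,0),(36,0)]⟩,⟨16,[(0,1),(2,11),(0,
  4),(1,1),(0,11),(1,11),(25,3),(6,2)]⟩⟩,[.a ⟨true,0,⟨0,[(44,0)]⟩,⟨5,[(5,0),(1,1),(1,1),(18,3),(2,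
  1),(5,1),(8,0)]⟩⟩ ⟨false,0,⟨0,[(48,0)]⟩,⟨1,[(45,0),(0,0)]⟩⟩ ⟨true,0,⟨1,[(1,1),(6,0),(36,0)]⟩,⟨1,
  [(3,0),(0,0),(4,0),(5,0)]⟩⟩,.o ⟨false,1,⟨1,[(8,0),(27,0),(8,0),(0,0)]⟩,⟨0,[(43,0)]⟩⟩,.o ⟨false,1,
  ⟨0,[(24,0)]⟩,⟨0,[(1,0)]⟩⟩,.e ⟨false,0,⟨0,[]⟩,⟨1,[(24,0),(0,0),(20,0)]⟩⟩ ⟨false,1,⟨1,[(1,1),(6,0),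
  (36,1),(0,0)]⟩,⟨1,[(3,0),(0,0),(4,0),(5,0)]⟩⟩]⟩))) (.Q [0,0,2,0,-1,0,0,0,-1,1,0,-1] (.p false [0,
  0,0,0,1] [1] (⟨0,[(25,0)]⟩,⟨0,[(24,0)]⟩) .k 1 (⟨0,[]⟩,⟨0,[]⟩) .k .k) (.Q [-1,0,0,0,0,0,1,1,-1,0,1,
  -1] (.p true [0,0,1] [0,0,0,0,1] (⟨0,[(33,0)]⟩,⟨0,[(32,0)]⟩) .k 2 (⟨0,[(26,0)]⟩,⟨0,[(25,0)]⟩) .k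
  (.r 0 ⟨50,[(5,6),(2,1),(0,3),(0,5),(4,44),(18,13),(4,2)]⟩ ⟨1,[(14,1),(8,0),(0,0),(19,0)]⟩)) (.R
  ⟨0,false,false,true,[1,0,0,0,-1],[0,1],[1,1,1],(⟨0,[(26,0)]⟩,⟨0,[(27,0)]⟩),(⟨0,[(38,0)]⟩,⟨0,[(37,
  0)]⟩),⟨0,[(2,0)]⟩,.k,.k,(.r (-1) ⟨9,[(19,4),(4,1),(0,1),(20,2),(1,0)]⟩ ⟨1,[(8,0),(15,0),(0,0)]⟩),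
  (.r (-1) ⟨9,[(19,4),(4,1),(0,1),(20,2),(1,0)]⟩ ⟨1,[(8,0),(15,0),(0,0)]⟩),.k,.k,⟨false,1,⟨3,[(19,
  1),(4,0),(0,0),(20,0)]⟩,⟨0,[(44,0)]⟩⟩,⟨true,1,⟨1,[(25,1),(10,0),(8,0)]⟩,⟨0,[(1,0)]⟩⟩,⟨false,0,⟨1,
  [(31,0),(0,0)]⟩,⟨1,[(6,0),(28,1),(10,0)]⟩⟩,⟨true,0,⟨1,[(8,0),(16,1),(10,0),(5,1)]⟩,⟨1,[(0,1),(6,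
  1),(3,0),(16,0),(17,0)]⟩⟩,⟨false,0,⟨0,[]⟩,⟨0,[]⟩⟩,⟨false,0,⟨0,[]⟩,⟨0,[]⟩⟩,[.o ⟨false,0,⟨1,[(8,0),
  (27,0),(5,1)]⟩,⟨5,[(9,0),(5,0),(3,1),(11,0),(0,1),(13,3)]⟩⟩,.e ⟨false,0,⟨0,[]⟩,⟨1,[(24,0),(0,0),
  (19,0)]⟩⟩ ⟨false,1,⟨1,[(8,0),(16,1),(10,0),(8,1)]⟩,⟨1,[(0,1),(6,1),(3,0),(16,0),(17,0)]⟩⟩,.a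
  ⟨true,0,⟨0,[(1,0),(43,0)]⟩,⟨0,[(25,0)]⟩⟩ ⟨false,0,⟨1,[(31,0),(0,0)]⟩,⟨1,[(45,0),(0,0)]⟩⟩ ⟨true,0,
  ⟨1,[(8,0),(16,1),(10,0),(5,1)]⟩,⟨1,[(0,1),(6,1),(3,0),(16,0),(17,0)]⟩⟩,.o ⟨false,0,⟨2,[(0,0),(0,
  0),(1,0),(11,0),(20,0)]⟩,⟨1,[(25,1),(10,0),(8,0)]⟩⟩]⟩) (.S ⟨1,0,[1],[0,0,0,0,1],[0,1],(⟨0,[(27,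
  0)]⟩,⟨0,[(26,0)]⟩),⟨0,[(2,0),(19,0),(0,0)]⟩,.k,(.r (-1) ⟨3,[(19,1),(4,0),(0,0),(20,0)]⟩ ⟨9,[(8,4),
  (15,2),(0,2),(20,1),(1,3)]⟩),⟨true,0,⟨0,[(48,0)]⟩,⟨0,[]⟩⟩,⟨false,1,⟨1,[(24,0),(0,0),(20,0)]⟩,⟨0,
  []⟩⟩,⟨false,0,⟨1,[(6,0),(1,0),(26,1)]⟩,⟨5,[(9,0),(5,0),(3,1),(11,0),(0,1),(13,3)]⟩⟩,⟨true,0,⟨0,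
  [(44,0)]⟩,⟨0,[(43,0)]⟩⟩,[.a ⟨true,0,⟨0,[(25,0)]⟩,⟨0,[(1,0),(43,0)]⟩⟩ ⟨false,0,⟨0,[(42,0)]⟩,⟨1,
  [(24,0),(0,0),(20,0)]⟩⟩ ⟨true,0,⟨0,[]⟩,⟨1,[(31,0),(0,0)]⟩⟩,.o ⟨false,1,⟨1,[(25,1),(10,0),(9,0)]⟩,
  ⟨1,[(1,1),(34,0),(5,1),(2,0)]⟩⟩,.e ⟨true,0,⟨0,[(48,0)]⟩,⟨0,[]⟩⟩ ⟨true,0,⟨0,[]⟩,⟨0,[(48,0)]⟩⟩,.o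
  ⟨false,0,⟨3,[(0,2),(8,0),(0,1),(14,0),(10,0),(3,0)]⟩,⟨1,[(1,1),(34,0),(8,2)]⟩⟩]⟩)) (.Q [0,0,0,0,0,
  0,0,0,1,-1,0,1] (.p true [0,0,0,0,1] [1] (⟨0,[(26,0)]⟩,⟨0,[(25,0)]⟩) .k 1 (⟨0,[]⟩,⟨0,[]⟩) .k .k)
  (.R ⟨0,false,false,false,[1,0,0,0,-1],[0,1],[1,1,1],(⟨0,[(26,0)]⟩,⟨0,[(27,0)]⟩),(⟨0,[(38,0)]⟩,⟨0,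
  [(37,0)]⟩),⟨0,[(2,0)]⟩,.k,.k,(.r (-1) ⟨9,[(19,4),(4,1),(0,1),(20,2),(1,0)]⟩ ⟨1,[(8,0),(15,0),(0,
  0)]⟩),(.r (-1) ⟨9,[(19,4),(4,1),(0,1),(20,2),(1,0)]⟩ ⟨1,[(8,0),(15,0),(0,0)]⟩),.k,.k,⟨true,0,⟨0,
  [(43,0)]⟩,⟨1,[(8,0),(37,0)]⟩⟩,⟨false,1,⟨0,[(1,0)]⟩,⟨0,[(4,0)]⟩⟩,⟨false,0,⟨1,[(31,0),(0,0)]⟩,⟨1,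
  [(6,0),(28,1),(10,0)]⟩⟩,⟨true,0,⟨1,[(0,0),(0,0),(6,0)]⟩,⟨14,[(3,5),(0,8),(1,0),(0,5),(1,4),(0,0),
  (24,1),(6,8)]⟩⟩,⟨false,0,⟨0,[]⟩,⟨0,[]⟩⟩,⟨false,0,⟨0,[]⟩,⟨0,[]⟩⟩,[.a ⟨true,0,⟨0,[(44,0)]⟩,⟨5,[(5,
  0),(1,1),(1,1),(18,3),(2,1),(5,1),(8,0)]⟩⟩ ⟨false,0,⟨0,[(48,0)]⟩,⟨1,[(45,0),(0,0)]⟩⟩ ⟨true,0,⟨1,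
  [(0,0),(0,0),(6,0)]⟩,⟨1,[(3,0),(0,0),(4,0),(5,0)]⟩⟩,.o ⟨false,1,⟨1,[(8,0),(27,0),(8,0),(0,0)]⟩,⟨0,
  [(43,0)]⟩⟩,.o ⟨false,1,⟨0,[(24,0)]⟩,⟨0,[(0,0)]⟩⟩,.e ⟨false,0,⟨0,[]⟩,⟨1,[(24,0),(0,0),(20,0)]⟩⟩
  ⟨false,1,⟨1,[(1,1),(6,0),(37,0)]⟩,⟨1,[(3,0),(0,0),(4,0),(5,0)]⟩⟩]⟩) (.R ⟨1,false,false,false,[0,0,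
  0,0,1],[1,-1,-1],[0,1],(⟨0,[(27,0)]⟩,⟨0,[(26,0)]⟩),(⟨0,[(22,0)]⟩,⟨0,[(34,0),(3,0)]⟩),⟨0,[(2,0),
  (19,0),(0,0)]⟩,.k,.k,(.r (-1) ⟨3,[(19,1),(4,0),(0,0),(20,0)]⟩ ⟨9,[(8,4),(15,2),(0,2),(20,1),(1,
  3)]⟩),(.r 0 ⟨5,[(8,2),(7,1),(4,1),(7,3),(6,0),(9,1)]⟩ ⟨1,[(6,0),(0,1),(27,1),(10,0)]⟩),.k,.k,
  ⟨true,(-1),⟨2,[(8,1),(2,0),(0,0),(3,1),(25,1)]⟩,⟨0,[(7,0),(38,0)]⟩⟩,⟨false,0,⟨0,[(3,0)]⟩,⟨0,[(1,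
  0),(29,0)]⟩⟩,⟨true,0,⟨0,[(48,0)]⟩,⟨0,[]⟩⟩,⟨false,1,⟨0,[(3,0),(3,0),(38,0)]⟩,⟨0,[(1,0),(8,0)]⟩⟩,
  ⟨false,0,⟨1,[(6,0),(1,0),(26,1)]⟩,⟨5,[(9,0),(5,0),(3,1),(11,0),(0,1),(13,3)]⟩⟩,⟨false,1,⟨1,[(3,1),
  (11,1),(29,0),(0,0)]⟩,⟨0,[(1,0),(6,0),(0,0)]⟩⟩,[.e ⟨false,0,⟨0,[(42,0)]⟩,⟨1,[(24,0),(0,0),(20,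
  0)]⟩⟩ ⟨false,1,⟨1,[(3,1),(3,1),(37,0),(0,0)]⟩,⟨0,[(1,0),(8,0)]⟩⟩,.o ⟨false,1,⟨0,[(7,0),(12,0),(25,
  0)]⟩,⟨0,[(8,0),(3,0),(32,0)]⟩⟩,.a ⟨true,0,⟨0,[(25,0)]⟩,⟨0,[(0,0)]⟩⟩ ⟨true,0,⟨0,[(48,0)]⟩,⟨0,[]⟩⟩
  ⟨false,1,⟨0,[(3,0),(3,0),(38,0)]⟩,⟨0,[(1,0),(8,0)]⟩⟩,.o ⟨false,0,⟨1,[(1,0),(6,0),(0,0),(1,0),(3,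
  0),(9,0),(10,0)]⟩,⟨1,[(0,1),(35,0),(8,0)]⟩⟩]⟩))))))))))

theorem ok8 : chk K t8 r11 = true := by decide +kernel

noncomputable def t14 : Tre :=
  (.S ⟨1,1,[],[1,1,-1],[1,0,1,0,0,0,0,-1],(⟨0,[(20,0),(4,0)]⟩,⟨0,[(10,0)]⟩),⟨0,[(20,0)]⟩,.k,.k,
  ⟨false,1,⟨0,[(30,0),(2,0)]⟩,⟨0,[(31,0)]⟩⟩,⟨true,1,⟨0,[(0,0),(29,0)]⟩,⟨0,[(1,0)]⟩⟩,⟨true,0,⟨0,[]⟩,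
  ⟨0,[(35,0)]⟩⟩,⟨false,1,⟨0,[(0,0)]⟩,⟨0,[(2,0),(12,0)]⟩⟩,[.fo,.o ⟨false,1,⟨1,[(23,0),(9,0)]⟩,⟨0,
  [(35,0)]⟩⟩,.a ⟨true,0,⟨0,[(15,0)]⟩,⟨0,[(18,0)]⟩⟩ ⟨true,0,⟨0,[(2,0)]⟩,⟨0,[(3,0),(25,0)]⟩⟩ ⟨false,1,
  ⟨1,[(18,1),(4,0),(9,0)]⟩,⟨0,[(15,0)]⟩⟩,.o ⟨false,0,⟨0,[(7,0)]⟩,⟨1,[(18,1),(4,0),(8,0)]⟩⟩]⟩)

theorem ok14 : chk K t14 l12 = true := by decide +kernel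

noncomputable def t15 : Tre :=
  (.S ⟨1,0,[0,0,0,0,0,0,0,1],[0,0,1],[0,1],(⟨0,[(22,0)]⟩,⟨0,[(21,0)]⟩),⟨0,[(11,0)]⟩,.k,.k,⟨true,0,
  ⟨0,[(0,0),(30,0)]⟩,⟨0,[(4,0)]⟩⟩,⟨false,1,⟨1,[(12,0),(0,0),(20,0)]⟩,⟨0,[]⟩⟩,⟨false,0,⟨0,[(0,0)]⟩,
  ⟨0,[(6,0),(27,0)]⟩⟩,⟨true,0,⟨0,[(32,0)]⟩,⟨0,[(31,0)]⟩⟩,[.o ⟨false,1,⟨1,[(17,1),(6,0),(9,0)]⟩,⟨1,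
  [(1,1),(22,0),(9,0)]⟩⟩,.e ⟨false,1,⟨1,[(12,0),(0,0),(19,0)]⟩,⟨0,[]⟩⟩ ⟨false,1,⟨1,[(4,1),(28,0),(0,
  0)]⟩,⟨0,[(0,0),(30,0)]⟩⟩,.o ⟨false,1,⟨1,[(19,1),(4,0),(8,0)]⟩,⟨0,[(8,0)]⟩⟩,.a ⟨true,0,⟨0,[(19,
  0)]⟩,⟨0,[(16,0)]⟩⟩ ⟨true,0,⟨0,[(30,0)]⟩,⟨1,[(19,0),(0,0)]⟩⟩ ⟨false,1,⟨1,[(4,1),(28,0),(0,0)]⟩,⟨0,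
  [(3,0)]⟩⟩]⟩)

theorem ok15 : chk K t15 l13 = true := by decide +kernel

noncomputable def t16 : Tre :=
  (.R ⟨2,true,false,true,[0,1],[1,0,-1],[1,1,1],(⟨0,[]⟩,⟨0,[]⟩),(⟨0,[(22,0)]⟩,⟨0,[(23,0)]⟩),⟨0,[]⟩,
  .k,.k,.k,.k,.k,.k,⟨false,0,⟨0,[(5,0)]⟩,⟨0,[(4,0),(29,0)]⟩⟩,⟨true,(-1),⟨0,[(1,0),(0,0),(27,0)]⟩,⟨1,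
  [(20,1),(4,0),(8,0)]⟩⟩,⟨true,0,⟨0,[(32,0)]⟩,⟨0,[(33,0)]⟩⟩,⟨false,0,⟨0,[(2,0),(29,0),(2,0)]⟩,⟨0,
  [(0,0)]⟩⟩,⟨false,0,⟨0,[]⟩,⟨1,[(13,0),(0,0),(20,0)]⟩⟩,⟨true,(-1),⟨0,[(2,0)]⟩,⟨13,[(0,7),(6,3),(0,
  1),(4,0),(0,0),(3,1),(1,3),(4,2)]⟩⟩,[]⟩)

theorem ok16 : chk K t16 l14 = true := by decide +kernel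

noncomputable def t17 : Tre :=
  (.R ⟨1,false,false,true,[1,-1],[0,-1,1],[0,1,-1,-1],(⟨0,[(27,0)]⟩,⟨0,[(28,0)]⟩),(⟨0,[(13,0)]⟩,⟨0,
  [(23,0),(4,0)]⟩),⟨0,[(12,0),(0,0)]⟩,.k,.k,(.r (-1) ⟨0,[(0,0)]⟩ ⟨0,[(31,1),(6,1)]⟩),.k,.k,.k,
  ⟨false,1,⟨0,[(5,0),(29,0)]⟩,⟨0,[(6,0)]⟩⟩,⟨true,1,⟨1,[(21,1),(4,0),(8,0)]⟩,⟨0,[(1,0),(4,0),(24,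
  0)]⟩⟩,⟨true,0,⟨0,[(38,0)]⟩,⟨0,[]⟩⟩,⟨false,1,⟨1,[(19,1),(6,0),(9,0)]⟩,⟨0,[(3,0),(32,0)]⟩⟩,⟨false,0,
  ⟨0,[(34,0)]⟩,⟨0,[(33,0),(2,0)]⟩⟩,⟨false,1,⟨1,[(19,1),(6,0),(7,1),(1,0)]⟩,⟨0,[(1,0),(34,0)]⟩⟩,[.a
  ⟨true,0,⟨0,[(7,0)]⟩,⟨0,[(4,0),(31,0)]⟩⟩ ⟨false,1,⟨7,[(9,3),(4,0),(0,0),(13,1),(5,2)]⟩,⟨0,[(31,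
  0)]⟩⟩ ⟨true,1,⟨1,[(0,0),(18,1),(6,0)]⟩,⟨0,[(1,0),(29,1)]⟩⟩,.o ⟨false,1,⟨1,[(7,1),(18,0),(9,0)]⟩,
  ⟨1,[(4,1),(21,0),(9,0)]⟩⟩,.o ⟨false,0,⟨1,[(21,0),(0,0)]⟩,⟨1,[(26,0),(8,0)]⟩⟩,.e ⟨false,1,⟨1,[(0,
  0),(34,0)]⟩,⟨1,[(21,0),(0,0),(8,1)]⟩⟩ ⟨false,2,⟨1,[(0,0),(18,1),(6,0),(8,0),(0,0)]⟩,⟨0,[(1,0),(29,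
  1)]⟩⟩]⟩)

theorem ok17 : chk K t17 l15 = true := by decide +kernel

noncomputable def t18 : Tre :=
  (.R ⟨1,true,false,false,[1,0,-1],[0,1],[0,0,0,0,0,0,0,-1],(⟨0,[(24,0)]⟩,⟨0,[(25,0)]⟩),(⟨0,[(29,
  0)]⟩,⟨0,[(28,0)]⟩),⟨0,[(13,0)]⟩,.k,.k,.k,.k,(.r (-2) ⟨1,[(6,1),(3,1),(25,0),(0,0)]⟩ ⟨1,[(1,2),(1,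
  1),(29,1),(3,0)]⟩),.k,⟨true,1,⟨1,[(2,1),(19,1),(4,0),(8,1),(0,0)]⟩,⟨0,[(1,0),(1,0)]⟩⟩,⟨false,2,⟨1,
  [(22,1),(4,0),(8,2)]⟩,⟨2,[(1,0),(0,1),(0,1),(15,0),(12,1)]⟩⟩,⟨false,1,⟨1,[(15,0),(0,0),(20,0)]⟩,
  ⟨0,[]⟩⟩,⟨true,1,⟨3,[(0,1),(14,0),(0,0),(3,1),(6,0)]⟩,⟨0,[(2,0)]⟩⟩,⟨true,0,⟨0,[(35,0)]⟩,⟨0,[(34,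
  0)]⟩⟩,⟨false,1,⟨0,[(0,0)]⟩,⟨0,[(2,0),(31,0),(2,0)]⟩⟩,[]⟩)

theorem ok18 : chk K t18 l16 = true := by decide +kernel

noncomputable def t19 : Tre :=
  (.S ⟨1,0,[0,1,0,0,0,0,0,-1],[1,0,-1],[0,0,0,0,0,0,0,-1],(⟨0,[(25,0)]⟩,⟨0,[(26,0)]⟩),⟨0,[(14,0)]⟩,
  .k,.k,⟨false,1,⟨1,[(16,0),(0,0),(20,0)]⟩,⟨0,[]⟩⟩,⟨true,0,⟨0,[(40,0)]⟩,⟨0,[]⟩⟩,⟨true,0,⟨0,[(36,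
  0)]⟩,⟨0,[(35,0)]⟩⟩,⟨false,0,⟨0,[(36,0)]⟩,⟨0,[(35,0),(2,0)]⟩⟩,[.a ⟨true,(-1),⟨0,[(5,0)]⟩,⟨0,[(21,
  0),(16,0)]⟩⟩ ⟨false,1,⟨4,[(0,3),(6,0),(8,0),(0,0),(13,1)]⟩,⟨0,[(8,0)]⟩⟩ ⟨true,0,⟨2,[(0,0),(4,1),
  (17,1),(4,0),(2,0)]⟩,⟨0,[(4,0),(28,0)]⟩⟩,.o ⟨false,0,⟨1,[(5,1),(22,0),(9,0)]⟩,⟨1,[(21,1),(6,0),(9,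
  0)]⟩⟩,.o ⟨false,0,⟨0,[(12,0)]⟩,⟨1,[(0,0),(20,0),(1,0),(4,0)]⟩⟩,.e ⟨false,1,⟨0,[(0,0)]⟩,⟨0,[(10,0),
  (22,0)]⟩⟩ ⟨false,1,⟨4,[(0,3),(6,0),(8,0),(0,0),(13,1)]⟩,⟨0,[(4,0),(28,0)]⟩⟩]⟩)

theorem ok19 : chk K t19 l17 = true := by decide +kernel

noncomputable def t20 : Tre :=
  (.R ⟨0,false,false,true,[1,-1,-1],[1,-1],[],(⟨0,[(16,0)]⟩,⟨1,[(0,0),(21,0),(2,0),(2,0)]⟩),(⟨0,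
  [(31,0)]⟩,⟨0,[(32,0)]⟩),⟨0,[(0,0)]⟩,.k,.k,(.r (-2) ⟨1,[(9,1),(3,1),(25,0),(0,0)]⟩ ⟨0,[(2,0),(1,0),
  (31,0),(3,0)]⟩),.k,.k,.k,⟨true,0,⟨1,[(4,0),(35,0)]⟩,⟨0,[(37,0)]⟩⟩,⟨false,1,⟨0,[(25,0),(13,0)]⟩,⟨0,
  [(14,0)]⟩⟩,⟨false,0,⟨1,[(4,0),(5,1),(29,0)]⟩,⟨5,[(1,1),(1,1),(5,3),(20,0),(8,3),(0,0)]⟩⟩,⟨true,0,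
  ⟨0,[(23,0)]⟩,⟨1,[(7,1),(22,0),(9,0)]⟩⟩,⟨false,0,⟨0,[]⟩,⟨0,[]⟩⟩,⟨false,0,⟨0,[]⟩,⟨0,[]⟩⟩,[.o ⟨false,
  0,⟨0,[(37,0)]⟩,⟨1,[(30,0),(7,1),(1,0)]⟩⟩,.a ⟨true,0,⟨2,[(3,0),(7,0),(10,1),(2,1),(14,0)]⟩,⟨0,[(38,
  0)]⟩⟩ ⟨false,1,⟨1,[(39,0),(0,0)]⟩,⟨0,[(42,0)]⟩⟩ ⟨true,1,⟨0,[(1,0)]⟩,⟨5,[(2,1),(0,1),(0,2),(9,3),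
  (15,0),(4,3)]⟩⟩,.e ⟨false,1,⟨1,[(18,0),(0,0),(20,0)]⟩,⟨0,[]⟩⟩ ⟨false,1,⟨0,[(1,0)]⟩,⟨0,[(14,0),(20,
  0)]⟩⟩,.o ⟨false,(-1),⟨2,[(2,1),(0,1),(10,0),(15,0),(4,3)]⟩,⟨1,[(25,1),(4,0),(8,2)]⟩⟩]⟩)

theorem ok20 : chk K t20 l19 = true := by decide +kernel

noncomputable def t21 : Tre :=
  (.I [0,0,-2,-1,1] (.S ⟨1,0,[0,1,-1,-1],[1,-1],[1,0,1],(⟨0,[(33,0)]⟩,⟨0,[(34,0)]⟩),⟨1,[(2,0),(16,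
  0),(13,0)]⟩,.k,(.x 1 ⟨0,[(1,0)]⟩ ⟨2,[(2,1),(16,1),(0,1),(0,1),(10,0),(8,2)]⟩),⟨false,0,⟨1,[(27,0),
  (0,0),(8,1)]⟩,⟨0,[(0,0)]⟩⟩,⟨true,0,⟨0,[(44,0)]⟩,⟨0,[]⟩⟩,⟨true,(-1),⟨0,[(6,0)]⟩,⟨0,[(15,0)]⟩⟩,
  ⟨false,0,⟨0,[(40,0)]⟩,⟨0,[(39,0),(2,0)]⟩⟩,[.o ⟨false,0,⟨0,[(39,0)]⟩,⟨1,[(32,0),(7,1),(1,0)]⟩⟩,.e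
  ⟨false,1,⟨1,[(20,0),(0,0),(20,0)]⟩,⟨0,[(38,0)]⟩⟩ ⟨false,1,⟨0,[(0,0)]⟩,⟨1,[(6,0),(13,0),(0,0)]⟩⟩,
  .o ⟨false,0,⟨1,[(27,0),(0,0)]⟩,⟨1,[(32,0),(8,0)]⟩⟩,.a ⟨true,(-1),⟨1,[(1,1),(0,0),(16,0),(13,0)]⟩,
  ⟨0,[(41,0)]⟩⟩ ⟨true,0,⟨0,[]⟩,⟨0,[(44,0)]⟩⟩ ⟨false,1,⟨0,[(0,0)]⟩,⟨1,[(27,0),(0,0),(8,1)]⟩⟩]⟩) (.Q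
  [0,-1,0,2,0,0,-1,-1,0,0,-1] (.p false [0,0,1] [] (⟨0,[(30,0)]⟩,⟨0,[(29,0)]⟩) .k 0 (⟨0,[]⟩,⟨0,[]⟩)
  .k .k) (.R ⟨1,false,false,false,[0,0,1],[0,1],[],(⟨0,[(31,0)]⟩,⟨0,[(30,0)]⟩),(⟨0,[(35,0)]⟩,⟨0,
  [(34,0)]⟩),⟨0,[(20,0)]⟩,.k,.k,.k,.k,(.x 0 ⟨1,[(2,0),(25,1),(1,1),(2,0),(1,1)]⟩ ⟨17,[(0,5),(2,5),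
  (2,1),(2,7),(10,23),(4,9),(7,8),(5,3),(2,10)]⟩),.k,⟨true,1,⟨7,[(4,3),(11,1),(1,1),(14,0),(9,0)]⟩,
  ⟨0,[(1,0)]⟩⟩,⟨false,1,⟨1,[(25,1),(7,0),(8,0)]⟩,⟨0,[(28,0)]⟩⟩,⟨false,1,⟨3,[(0,0),(3,1),(7,1),(14,
  0),(15,1)]⟩,⟨0,[(13,0)]⟩⟩,⟨true,0,⟨1,[(0,0),(26,0)]⟩,⟨0,[(14,0)]⟩⟩,⟨false,1,⟨7,[(0,5),(3,3),(7,1),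
  (8,2),(0,2),(5,1),(14,0)]⟩,⟨0,[(9,0)]⟩⟩,⟨false,0,⟨0,[(0,0)]⟩,⟨9,[(4,3),(1,1),(7,3),(0,7),(12,3),
  (4,0),(9,6)]⟩⟩,[.e ⟨false,1,⟨1,[(21,0),(0,0),(19,0)]⟩,⟨0,[]⟩⟩ ⟨false,0,⟨0,[(0,0),(8,0),(29,0)]⟩,
  ⟨1,[(4,1),(23,0),(0,0)]⟩⟩,.o ⟨false,1,⟨1,[(0,0),(25,0),(6,0),(9,0)]⟩,⟨0,[(40,0)]⟩⟩,.o ⟨false,1,⟨3,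
  [(0,0),(3,1),(21,0),(1,1),(4,1)]⟩,⟨0,[(17,0)]⟩⟩,.a ⟨true,0,⟨0,[(28,0)]⟩,⟨0,[(25,0)]⟩⟩ ⟨false,1,⟨1,
  [(42,0),(0,0)]⟩,⟨1,[(28,0),(0,0)]⟩⟩ ⟨true,0,⟨0,[(0,0),(8,0),(29,0)]⟩,⟨0,[(28,0),(11,0)]⟩⟩]⟩) (.Q
  [-1,0,0,1,0,0,0,0,-1,0,0,-1] (.p false [0,0,0,0,1] [] (⟨0,[(24,0)]⟩,⟨0,[(23,0)]⟩) .k 0 (⟨0,[]⟩,⟨0,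
  []⟩) .k .k) (.R ⟨2,true,false,true,[0,1],[0,0,0,0,1],[2,1],(⟨0,[]⟩,⟨0,[]⟩),(⟨0,[(25,0)]⟩,⟨0,[(24,
  0)]⟩),⟨0,[]⟩,.k,.k,.k,(.r 0 ⟨3,[(8,0),(13,0),(0,0),(15,1),(6,1)]⟩ ⟨7,[(5,3),(11,1),(1,1),(14,0),
  (9,0)]⟩),.k,.k,⟨true,0,⟨0,[]⟩,⟨1,[(29,0),(0,0)]⟩⟩,⟨false,0,⟨0,[(23,0)]⟩,⟨5,[(0,3),(16,1),(4,1),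
  (20,0),(0,0)]⟩⟩,⟨false,1,⟨7,[(5,3),(11,1),(1,1),(14,0),(9,0)]⟩,⟨0,[(2,0),(37,0),(3,0)]⟩⟩,⟨true,0,
  ⟨0,[(23,0),(17,0)]⟩,⟨0,[(0,0)]⟩⟩,⟨true,0,⟨0,[(40,0)]⟩,⟨0,[(45,0)]⟩⟩,⟨false,0,⟨0,[(23,0)]⟩,⟨13,[(0,
  7),(0,1),(5,1),(14,5),(11,0),(9,8)]⟩⟩,[]⟩) (.Q [-1,0,0,0,0,0,0,0,-1,1,0,-1] (.p false [0,0,0,0,1]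
  [1] (⟨0,[(25,0)]⟩,⟨0,[(24,0)]⟩) .k 1 (⟨0,[]⟩,⟨0,[]⟩) .k .k) (.Q [0,0,0,0,0,-1,0,0,0,0,0,1] (.ed
  false [1,-1,0,0,1] .k) (.S ⟨1,0,[1,1],[0,0,0,0,1],[],(⟨0,[(27,0)]⟩,⟨0,[(26,0)]⟩),⟨0,[(0,0)]⟩,.k,
  (.r (-1) ⟨7,[(7,3),(11,1),(1,1),(14,0),(9,0)]⟩ ⟨3,[(10,0),(13,0),(0,0),(15,1),(6,1)]⟩),⟨false,1,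
  ⟨4,[(24,1),(0,1),(20,2),(1,0)]⟩,⟨0,[]⟩⟩,⟨true,0,⟨0,[(48,0)]⟩,⟨0,[]⟩⟩,⟨true,0,⟨0,[(4,0),(37,1),(3,
  0)]⟩,⟨0,[(43,0)]⟩⟩,⟨false,0,⟨0,[(44,0)]⟩,⟨3,[(3,0),(11,0),(3,0),(12,0),(13,2)]⟩⟩,[.o ⟨false,0,⟨1,
  [(2,0),(1,0),(20,0),(10,0),(5,1)]⟩,⟨1,[(1,1),(34,0),(9,0)]⟩⟩,.a ⟨true,0,⟨0,[(25,0)]⟩,⟨0,[(1,0)]⟩⟩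
  ⟨false,1,⟨1,[(45,0),(0,0)]⟩,⟨0,[(48,0)]⟩⟩ ⟨true,0,⟨0,[]⟩,⟨1,[(31,0),(0,0)]⟩⟩,.e ⟨false,1,⟨1,[(24,
  0),(0,0),(20,0)]⟩,⟨0,[]⟩⟩ ⟨false,0,⟨0,[]⟩,⟨1,[(24,0),(0,0),(20,0)]⟩⟩,.o ⟨false,0,⟨5,[(2,2),(1,2),
  (20,2),(10,1),(3,0)]⟩,⟨1,[(1,1),(34,0),(8,0)]⟩⟩]⟩) (.Q [1,1,0,0,-1,0,-1,-1,1,0,-1,1] (.p false [0,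
  0,1] [0,0,0,0,1] (⟨0,[(34,0)]⟩,⟨0,[(33,0)]⟩) .k 2 (⟨0,[(27,0)]⟩,⟨0,[(26,0)]⟩) .k (.r 0 ⟨0,[(4,0),
  (7,0),(29,1),(3,0)]⟩ ⟨1,[(15,1),(8,0),(0,0),(19,0)]⟩)) (.R ⟨0,false,false,false,[0,0,0,0,1],[0,1],
  [0,1],(⟨0,[(28,0)]⟩,⟨0,[(27,0)]⟩),(⟨0,[(39,0)]⟩,⟨0,[(38,0)]⟩),⟨0,[(1,0)]⟩,.k,.k,(.r (-1) ⟨7,[(8,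
  3),(11,1),(1,1),(14,0),(9,0)]⟩ ⟨3,[(11,0),(13,0),(0,0),(15,1),(6,1)]⟩),(.r (-1) ⟨7,[(8,3),(11,1),
  (1,1),(14,0),(9,0)]⟩ ⟨3,[(11,0),(13,0),(0,0),(15,1),(6,1)]⟩),.k,.k,⟨false,1,⟨7,[(20,3),(4,0),(0,
  0),(13,1),(5,2)]⟩,⟨0,[(42,0)]⟩⟩,⟨true,1,⟨1,[(2,1),(34,0),(8,0)]⟩,⟨1,[(0,0),(3,0),(0,1),(20,0),(20,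
  0)]⟩⟩,⟨true,0,⟨0,[(49,0)]⟩,⟨0,[]⟩⟩,⟨false,1,⟨1,[(2,1),(34,0),(7,1),(1,0)]⟩,⟨0,[(3,0)]⟩⟩,⟨false,0,
  ⟨0,[]⟩,⟨0,[]⟩⟩,⟨false,0,⟨0,[]⟩,⟨0,[]⟩⟩,[.e ⟨false,0,⟨0,[(43,0)]⟩,⟨1,[(25,0),(0,0),(20,0)]⟩⟩
  ⟨false,1,⟨1,[(2,1),(34,0),(7,1),(0,0)]⟩,⟨1,[(0,0),(3,0),(21,0),(20,0)]⟩⟩,.o ⟨false,1,⟨1,[(37,0),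
  (7,1),(1,0)]⟩,⟨0,[(44,0)]⟩⟩,.a ⟨true,0,⟨0,[(26,0)]⟩,⟨0,[(2,0)]⟩⟩ ⟨true,0,⟨0,[(49,0)]⟩,⟨0,[]⟩⟩
  ⟨false,1,⟨1,[(2,1),(34,0),(7,1),(1,0)]⟩,⟨1,[(0,0),(3,0),(21,0),(20,0)]⟩⟩,.o ⟨false,0,⟨5,[(3,2),(1,
  2),(20,2),(10,1),(3,0)]⟩,⟨1,[(2,1),(34,0),(8,0)]⟩⟩]⟩) (.S ⟨1,0,[-1,1],[1,0,0,0,-1],[-1],(⟨0,[(27,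
  0)]⟩,⟨0,[(28,0)]⟩),⟨1,[(1,0),(5,0),(16,0),(2,0)]⟩,.k,(.r (-1) ⟨9,[(20,4),(4,1),(0,1),(20,2),(1,
  0)]⟩ ⟨1,[(11,0),(13,0),(0,0)]⟩),⟨false,1,⟨1,[(25,0),(0,0),(20,0)]⟩,⟨0,[]⟩⟩,⟨true,0,⟨0,[(49,0)]⟩,
  ⟨0,[]⟩⟩,⟨true,0,⟨0,[(45,0)]⟩,⟨0,[(44,0)]⟩⟩,⟨false,0,⟨0,[(45,0)]⟩,⟨3,[(4,0),(11,0),(3,0),(12,0),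
  (13,2)]⟩⟩,[.o ⟨false,0,⟨3,[(0,0),(1,2),(2,1),(4,0),(26,1),(5,3)]⟩,⟨1,[(26,1),(10,0),(9,0)]⟩⟩,.e
  ⟨false,1,⟨0,[(43,0),(3,0)]⟩,⟨0,[(49,0)]⟩⟩ ⟨false,1,⟨9,[(25,3),(0,3),(19,4),(0,0),(1,1)]⟩,⟨0,[]⟩⟩,
  .a ⟨true,0,⟨0,[(2,0)]⟩,⟨0,[(26,0)]⟩⟩ ⟨false,1,⟨4,[(25,1),(0,1),(20,2),(1,0)]⟩,⟨0,[]⟩⟩ ⟨true,0,⟨0,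
  [(49,0)]⟩,⟨0,[]⟩⟩,.o ⟨false,0,⟨3,[(0,0),(1,2),(2,1),(4,0),(26,1)]⟩,⟨1,[(26,1),(10,0),(8,
  0)]⟩⟩]⟩))) (.Q [0,0,0,0,0,-1,0,0,0,0,0,1] (.ed false [1,-1,0,0,1] .k) (.Q [1,-1,0,-2,0,0,0,0,1,0,
  0,1] (.p true [0,0,0,0,1] [] (⟨0,[(27,0)]⟩,⟨0,[(26,0)]⟩) .k 0 (⟨0,[]⟩,⟨0,[]⟩) .k .k) (.R ⟨1,false,
  false,true,[0,0,0,0,1],[0,1],[0,1],(⟨0,[(28,0)]⟩,⟨0,[(27,0)]⟩),(⟨0,[(39,0)]⟩,⟨0,[(38,0)]⟩),⟨0,[(1,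
  0)]⟩,.k,.k,(.r (-1) ⟨7,[(8,3),(11,1),(1,1),(14,0),(9,0)]⟩ ⟨3,[(11,0),(13,0),(0,0),(15,1),(6,1)]⟩),
  (.r (-1) ⟨7,[(8,3),(11,1),(1,1),(14,0),(9,0)]⟩ ⟨3,[(11,0),(13,0),(0,0),(15,1),(6,1)]⟩),(.r (-2)
  ⟨3,[(8,3),(11,1),(1,1),(14,0),(9,0)]⟩ ⟨0,[(5,1),(37,1),(3,0)]⟩),.k,⟨true,1,⟨7,[(8,3),(11,1),(1,1),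
  (14,0),(9,0)]⟩,⟨0,[(5,0)]⟩⟩,⟨false,2,⟨0,[(25,0),(20,0)]⟩,⟨0,[(0,0),(10,0),(31,0)]⟩⟩,⟨true,0,⟨0,
  [(49,0)]⟩,⟨0,[]⟩⟩,⟨false,1,⟨0,[(25,0),(19,0)]⟩,⟨0,[(0,0),(44,0)]⟩⟩,⟨false,0,⟨0,[(5,0),(37,1),(3,
  0)]⟩,⟨2,[(0,0),(2,0),(21,1),(21,0)]⟩⟩,⟨false,1,⟨0,[(25,0),(19,1)]⟩,⟨0,[(0,0)]⟩⟩,[.o ⟨false,0,⟨1,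
  [(11,0),(25,0),(5,1)]⟩,⟨15,[(0,3),(2,3),(0,0),(11,0),(3,0),(4,7),(7,0),(13,6)]⟩⟩,.a ⟨true,0,⟨0,
  [(45,0)]⟩,⟨10,[(4,1),(1,2),(1,2),(1,1),(18,2),(8,5),(8,1)]⟩⟩ ⟨false,1,⟨1,[(25,0),(0,0),(19,0)]⟩,
  ⟨0,[]⟩⟩ ⟨true,1,⟨0,[(25,0),(19,0)]⟩,⟨0,[(0,0),(4,0),(37,0)]⟩⟩,.o ⟨false,0,⟨7,[(0,1),(1,5),(2,0),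
  (35,0),(1,1),(1,2)]⟩,⟨0,[(25,0)]⟩⟩,.e ⟨true,0,⟨0,[(43,0)]⟩,⟨1,[(32,0),(0,0)]⟩⟩ ⟨true,1,⟨0,[(25,0),
  (17,0),(1,0)]⟩,⟨0,[(0,0),(4,0),(37,0)]⟩⟩]⟩) (.Q [-1,-1,0,0,1,0,0,0,-1,0,0,-1] (.p false [0,0,0,0,
  1] [] (⟨0,[(28,0)]⟩,⟨0,[(27,0)]⟩) .k 0 (⟨0,[]⟩,⟨0,[]⟩) .k .k) (.R ⟨1,false,false,true,[0,0,1],[0,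
  0,0,0,1],[0,1,0,0,0,0,0,1],(⟨0,[(36,0)]⟩,⟨0,[(35,0)]⟩),(⟨0,[(29,0)]⟩,⟨0,[(28,0)]⟩),⟨0,[(25,0)]⟩,
  .k,.k,.k,.k,(.r (-1) ⟨1,[(20,1),(26,0),(0,0)]⟩ ⟨0,[(17,0),(28,0)]⟩),.k,⟨true,0,⟨0,[(6,0),(7,0),
  (29,1),(3,0)]⟩,⟨0,[(17,0)]⟩⟩,⟨false,0,⟨5,[(3,5),(6,0),(0,0),(18,4),(13,1),(1,1),(1,1)]⟩,⟨0,[(0,0),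
  (32,0),(10,0)]⟩⟩,⟨true,0,⟨0,[(50,0)]⟩,⟨0,[]⟩⟩,⟨true,(-1),⟨0,[(3,0),(11,0)]⟩,⟨0,[(0,0),(30,0)]⟩⟩,
  ⟨false,0,⟨0,[(46,0)]⟩,⟨3,[(5,0),(11,0),(3,0),(12,0),(13,2)]⟩⟩,⟨true,(-1),⟨0,[(3,0),(12,0)]⟩,⟨1,
  [(0,1),(4,0),(25,0)]⟩⟩,[.o ⟨false,0,⟨0,[(3,0),(46,0)]⟩,⟨0,[(0,0)]⟩⟩,.o ⟨false,0,⟨0,[(3,0)]⟩,⟨2,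
  [(0,0),(25,1),(23,0)]⟩⟩,.o ⟨false,1,⟨7,[(1,1),(1,1),(5,3),(23,3),(4,2),(9,0)]⟩,⟨0,[(22,0)]⟩⟩,.a
  ⟨true,0,⟨0,[(33,0)]⟩,⟨0,[(30,0)]⟩⟩ ⟨true,0,⟨0,[(10,0),(36,0)]⟩,⟨0,[(17,0)]⟩⟩ ⟨false,0,⟨0,[(3,0),
  (26,0)]⟩,⟨0,[(0,0),(32,0)]⟩⟩]⟩) (.Q [0,0,1,0,-1,0,0,0,1,0,0,1] (.p true [0,0,0,0,1] [] (⟨0,[(29,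
  0)]⟩,⟨0,[(28,0)]⟩) .k 0 (⟨0,[]⟩,⟨0,[]⟩) .k .k) (.S ⟨1,0,[1],[0,0,0,0,1],[1,0,1],(⟨0,[(30,0)]⟩,⟨0,
  [(29,0)]⟩),⟨0,[(3,0)]⟩,.k,(.r (-1) ⟨7,[(10,3),(11,1),(1,1),(14,0),(9,0)]⟩ ⟨4,[(2,0),(10,0),(13,0),
  (0,1),(15,0),(5,1)]⟩),⟨true,0,⟨1,[(34,0),(0,0)]⟩,⟨0,[(45,0)]⟩⟩,⟨false,1,⟨1,[(27,0),(0,0),(20,0)]⟩,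
  ⟨0,[]⟩⟩,⟨false,0,⟨1,[(13,0),(35,0)]⟩,⟨7,[(10,3),(11,1),(1,1),(14,0),(9,0)]⟩⟩,⟨true,0,⟨0,[(47,0)]⟩,
  ⟨0,[(46,0)]⟩⟩,[.o ⟨false,0,⟨0,[(4,0)]⟩,⟨15,[(2,1),(3,0),(2,0),(2,0),(13,0),(0,13),(10,2),(4,0),(5,
  1)]⟩⟩,.e ⟨false,1,⟨1,[(27,0),(0,0),(20,0)]⟩,⟨0,[(45,0)]⟩⟩ ⟨false,1,⟨1,[(48,0),(0,0)]⟩,⟨0,[(51,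
  0)]⟩⟩,.o ⟨false,0,⟨5,[(0,1),(3,3),(38,0),(4,0)]⟩,⟨0,[(27,0)]⟩⟩,.a ⟨true,(-1),⟨0,[(0,0)]⟩,⟨21,[(2,
  21),(3,7),(1,0),(1,11),(1,7),(18,11),(8,1),(8,18)]⟩⟩ ⟨true,0,⟨0,[]⟩,⟨0,[(51,0)]⟩⟩ ⟨false,1,⟨1,
  [(48,0),(0,0)]⟩,⟨1,[(34,0),(0,0)]⟩⟩]⟩) (.R ⟨2,true,false,true,[0,1],[0,0,0,0,1],[1,1,1],(⟨0,[]⟩,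
  ⟨0,[]⟩),(⟨0,[(30,0)]⟩,⟨0,[(29,0)]⟩),⟨0,[]⟩,.k,.k,.k,(.r 0 ⟨4,[(2,0),(10,0),(13,0),(0,1),(15,0),(5,
  1)]⟩ ⟨7,[(10,3),(11,1),(1,1),(14,0),(9,0)]⟩),.k,.k,⟨true,0,⟨1,[(34,0),(0,0)]⟩,⟨0,[]⟩⟩,⟨false,0,⟨0,
  [(28,0)]⟩,⟨0,[(0,0)]⟩⟩,⟨true,0,⟨0,[(46,0)]⟩,⟨0,[(47,0)]⟩⟩,⟨false,0,⟨0,[(5,0)]⟩,⟨2,[(0,1),(1,0),(4,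
  0),(41,1)]⟩⟩,⟨false,0,⟨0,[]⟩,⟨1,[(27,0),(0,0),(20,0)]⟩⟩,⟨true,(-1),⟨0,[(1,0)]⟩,⟨1,[(0,0),(26,0),
  (22,0)]⟩⟩,[]⟩)))) (.Q [0,0,1,-1,-1,0,0,0,1,0,0,1] (.p true [0,0,0,0,1] [] (⟨0,[(27,0)]⟩,⟨0,[(26,
  0)]⟩) .k 0 (⟨0,[]⟩,⟨0,[]⟩) .k .k) (.R ⟨0,false,false,true,[0,0,0,0,1],[0,1],[0,1],(⟨0,[(28,0)]⟩,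
  ⟨0,[(27,0)]⟩),(⟨0,[(39,0)]⟩,⟨0,[(38,0)]⟩),⟨0,[(1,0)]⟩,.k,.k,(.r (-1) ⟨7,[(8,3),(11,1),(1,1),(14,
  0),(9,0)]⟩ ⟨3,[(11,0),(13,0),(0,0),(15,1),(6,1)]⟩),(.r (-1) ⟨7,[(8,3),(11,1),(1,1),(14,0),(9,0)]⟩
  ⟨3,[(11,0),(13,0),(0,0),(15,1),(6,1)]⟩),.k,.k,⟨true,1,⟨7,[(8,3),(11,1),(1,1),(14,0),(9,0)]⟩,⟨0,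
  [(5,0)]⟩⟩,⟨false,2,⟨0,[(25,0),(20,0)]⟩,⟨0,[(0,0),(44,0)]⟩⟩,⟨true,0,⟨0,[(49,0)]⟩,⟨0,[]⟩⟩,⟨false,1,
  ⟨0,[(25,0),(19,0)]⟩,⟨1,[(0,1),(45,0),(0,0)]⟩⟩,⟨false,0,⟨0,[]⟩,⟨0,[]⟩⟩,⟨false,0,⟨0,[]⟩,⟨0,[]⟩⟩,[.o
  ⟨false,0,⟨1,[(11,0),(25,0),(5,1)]⟩,⟨3,[(4,0),(11,0),(3,0),(12,0),(13,2)]⟩⟩,.a ⟨true,0,⟨0,[(45,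
  0)]⟩,⟨10,[(4,1),(1,2),(1,2),(1,1),(18,2),(8,5),(8,1)]⟩⟩ ⟨false,1,⟨1,[(25,0),(0,0),(19,0)]⟩,⟨0,
  []⟩⟩ ⟨true,1,⟨0,[(25,0),(19,0)]⟩,⟨0,[(0,0)]⟩⟩,.o ⟨false,0,⟨7,[(0,1),(1,5),(38,0),(3,1),(0,0)]⟩,⟨0,
  [(25,0)]⟩⟩,.e ⟨true,0,⟨0,[(43,0)]⟩,⟨1,[(32,0),(0,0)]⟩⟩ ⟨true,1,⟨0,[(25,0),(17,0),(1,0)]⟩,⟨0,[(0,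
  0)]⟩⟩]⟩) (.Q [0,0,0,0,0,0,0,0,1,-1,0,1] (.p true [0,0,0,0,1] [1] (⟨0,[(28,0)]⟩,⟨0,[(27,0)]⟩) .k 1
  (⟨0,[]⟩,⟨0,[]⟩) .k .k) (.R ⟨1,false,false,false,[1,0,0,0,-1],[0,1],[-1],(⟨0,[(28,0)]⟩,⟨0,[(29,
  0)]⟩),(⟨0,[(40,0)]⟩,⟨0,[(39,0)]⟩),⟨1,[(2,0),(5,0),(16,0),(2,0)]⟩,.k,.k,(.r (-1) ⟨9,[(21,4),(4,1),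
  (0,1),(20,2),(1,0)]⟩ ⟨1,[(12,0),(13,0),(0,0)]⟩),(.r (-1) ⟨9,[(21,4),(4,1),(0,1),(20,2),(1,0)]⟩ ⟨1,
  [(12,0),(13,0),(0,0)]⟩),(.r (-2) ⟨5,[(9,3),(11,3),(1,1),(2,0),(0,0),(10,0),(9,1)]⟩ ⟨0,[(12,0)]⟩),
  .k,⟨true,1,⟨9,[(21,4),(4,1),(0,1),(20,2),(1,0)]⟩,⟨0,[(6,0)]⟩⟩,⟨false,1,⟨0,[(0,0),(46,0)]⟩,⟨6,[(1,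
  6),(3,2),(0,4),(0,1),(3,2),(27,3),(8,2)]⟩⟩,⟨false,1,⟨1,[(26,0),(0,0),(20,0)]⟩,⟨0,[]⟩⟩,⟨true,0,⟨0,
  [(0,0),(45,0)]⟩,⟨5,[(1,5),(3,2),(1,2),(0,1),(2,2),(13,1),(11,0),(1,0)]⟩⟩,⟨true,0,⟨0,[(46,0)]⟩,⟨0,
  [(45,0)]⟩⟩,⟨true,0,⟨0,[(0,0),(45,1)]⟩,⟨5,[(1,5),(3,4),(0,1),(0,0),(0,0),(2,4),(13,0),(11,0),(10,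
  1)]⟩⟩,[.a ⟨true,0,⟨0,[(46,0)]⟩,⟨10,[(5,1),(1,2),(1,2),(1,1),(18,2),(8,5),(8,1)]⟩⟩ ⟨false,1,⟨9,
  [(26,3),(0,3),(19,4),(0,0),(1,1)]⟩,⟨0,[]⟩⟩ ⟨true,0,⟨0,[(0,0),(45,0)]⟩,⟨6,[(1,6),(3,4),(0,5),(0,0),
  (3,4),(27,1),(8,4)]⟩⟩,.o ⟨false,1,⟨3,[(0,1),(0,1),(36,0),(4,1),(4,0)]⟩,⟨0,[(45,0)]⟩⟩,.o ⟨false,1,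
  ⟨0,[(26,0)]⟩,⟨0,[(0,0)]⟩⟩,.e ⟨false,1,⟨0,[(44,0),(3,0)]⟩,⟨1,[(33,0),(0,0)]⟩⟩ ⟨false,1,⟨1,[(0,1),
  (45,1),(0,0),(0,0)]⟩,⟨6,[(1,6),(3,4),(0,5),(0,0),(3,4),(27,1),(8,4)]⟩⟩]⟩) (.R ⟨0,false,false,
  false,[0,0,0,0,1],[0,1],[0,1],(⟨0,[(29,0)]⟩,⟨0,[(28,0)]⟩),(⟨0,[(40,0)]⟩,⟨0,[(39,0)]⟩),⟨0,[(2,0)]⟩,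
  .k,.k,(.r (-1) ⟨7,[(9,3),(11,1),(1,1),(14,0),(9,0)]⟩ ⟨3,[(12,0),(13,0),(0,0),(15,1),(6,1)]⟩),(.r
  (-1) ⟨7,[(9,3),(11,1),(1,1),(14,0),(9,0)]⟩ ⟨3,[(12,0),(13,0),(0,0),(15,1),(6,1)]⟩),.k,.k,⟨false,1,
  ⟨7,[(21,3),(4,0),(0,0),(13,1),(5,2)]⟩,⟨0,[(43,0)]⟩⟩,⟨true,1,⟨1,[(0,1),(37,0),(8,0)]⟩,⟨27,[(3,3),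
  (0,23),(0,0),(0,27),(1,2),(2,0),(13,2),(11,8),(10,0)]⟩⟩,⟨true,0,⟨0,[(50,0)]⟩,⟨0,[]⟩⟩,⟨false,1,⟨3,
  [(0,1),(0,1),(40,0),(0,1),(4,0)]⟩,⟨0,[(4,0)]⟩⟩,⟨false,0,⟨0,[]⟩,⟨0,[]⟩⟩,⟨false,0,⟨0,[]⟩,⟨0,[]⟩⟩,
  [.e ⟨false,0,⟨0,[(44,0)]⟩,⟨1,[(26,0),(0,0),(20,0)]⟩⟩ ⟨false,1,⟨0,[(1,0)]⟩,⟨27,[(3,3),(0,23),(0,0),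
  (2,2),(2,0),(13,2),(11,8),(10,0)]⟩⟩,.o ⟨false,1,⟨6,[(1,2),(1,2),(34,1),(4,2),(2,0),(1,1)]⟩,⟨0,
  [(45,0)]⟩⟩,.a ⟨true,0,⟨0,[(27,0)]⟩,⟨0,[(0,0)]⟩⟩ ⟨true,0,⟨0,[(50,0)]⟩,⟨0,[]⟩⟩ ⟨false,1,⟨3,[(0,1),
  (0,1),(36,0),(4,1),(4,0)]⟩,⟨27,[(3,3),(0,23),(0,0),(2,2),(2,0),(13,2),(11,8),(10,0)]⟩⟩,.o ⟨false,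
  0,⟨3,[(3,3),(29,0),(0,0),(14,1)]⟩,⟨1,[(0,1),(37,0),(8,0)]⟩⟩]⟩))))))))

theorem ok21 : chk K t21 l20 = true := by decide +kernel

noncomputable def t22 : Tre :=
  (.Q [0,0,-2,0,0,0,-1,0,0,1,-1] (.p false [0,0,1] [1] (⟨0,[(30,0)]⟩,⟨0,[(29,0)]⟩) .k 1 (⟨0,[]⟩,⟨0,
  []⟩) .k .k) (.I [0,0,2,0,0,2,1] (.S ⟨1,0,[0,0,-1,-1,0,0,0,1],[0,-1,1],[0,1,-1,-1,0,0,0,1],(⟨0,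
  [(21,0)]⟩,⟨1,[(0,0),(0,0),(29,0)]⟩),⟨0,[(2,0)]⟩,.k,(.x 0 ⟨0,[(0,0)]⟩ ⟨5,[(1,1),(1,2),(15,1),(1,5),
  (12,1),(8,0)]⟩),⟨true,0,⟨0,[(46,0)]⟩,⟨0,[]⟩⟩,⟨false,1,⟨1,[(22,0),(0,0),(20,0)]⟩,⟨0,[]⟩⟩,⟨false,0,
  ⟨0,[(42,0)]⟩,⟨0,[(41,0),(2,0)]⟩⟩,⟨true,0,⟨0,[(42,0)]⟩,⟨0,[(41,0)]⟩⟩,[.o ⟨false,1,⟨1,[(15,1),(18,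
  0),(9,0)]⟩,⟨1,[(12,1),(21,0),(9,0)]⟩⟩,.a ⟨true,1,⟨0,[(15,0),(28,0)]⟩,⟨0,[(12,0)]⟩⟩ ⟨false,1,⟨0,
  [(10,0),(32,0)]⟩,⟨0,[(13,0),(28,0)]⟩⟩ ⟨true,1,⟨1,[(10,1),(32,0),(0,0)]⟩,⟨1,[(8,0),(2,1),(17,1),(4,
  0)]⟩⟩,.a ⟨true,0,⟨0,[(29,0)]⟩,⟨0,[(26,0)]⟩⟩ ⟨true,0,⟨0,[(10,0),(29,0)]⟩,⟨0,[(13,0),(28,0)]⟩⟩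
  ⟨false,1,⟨1,[(10,1),(32,0),(0,0)]⟩,⟨0,[(13,0),(28,0)]⟩⟩,.a ⟨true,0,⟨1,[(29,2),(0,0)]⟩,⟨0,[(1,
  0)]⟩⟩ ⟨false,1,⟨0,[(10,0),(32,0)]⟩,⟨0,[(13,0),(25,0)]⟩⟩ ⟨true,1,⟨0,[(10,0),(32,0)]⟩,⟨1,[(8,0),(2,
  1),(17,1),(4,0)]⟩⟩]⟩) (.I [0,0,-2,-2,1,0,0,1] (.S ⟨1,0,[0,0,-1,-1,0,0,0,1],[0,-1,1],[0,1,-1,-1,0,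
  0,0,1],(⟨0,[(22,0)]⟩,⟨0,[(32,0),(4,0)]⟩),⟨0,[(3,0)]⟩,.k,(.r (-1) ⟨0,[(0,0)]⟩ ⟨1,[(9,0),(4,1),(8,
  0),(0,0),(18,1)]⟩),⟨true,0,⟨0,[(47,0)]⟩,⟨0,[]⟩⟩,⟨false,1,⟨1,[(23,0),(0,0),(20,0)]⟩,⟨0,[]⟩⟩,⟨false,
  0,⟨0,[(43,0)]⟩,⟨0,[(42,0),(2,0)]⟩⟩,⟨true,0,⟨0,[(43,0)]⟩,⟨0,[(42,0)]⟩⟩,[.o ⟨false,1,⟨1,[(16,1),(18,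
  0),(9,0)]⟩,⟨1,[(13,1),(21,0),(9,0)]⟩⟩,.a ⟨true,1,⟨0,[(16,0),(28,0)]⟩,⟨0,[(13,0)]⟩⟩ ⟨false,1,⟨1,
  [(0,0),(14,0),(28,0)]⟩,⟨0,[(14,0),(28,0)]⟩⟩ ⟨true,1,⟨1,[(0,0),(14,0),(29,0)]⟩,⟨1,[(9,0),(2,1),(17,
  1),(4,0)]⟩⟩,.a ⟨true,0,⟨0,[(30,0)]⟩,⟨0,[(27,0)]⟩⟩ ⟨true,0,⟨1,[(0,0),(6,0),(33,0)]⟩,⟨0,[(14,0),(28,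
  0)]⟩⟩ ⟨false,1,⟨1,[(0,0),(14,0),(29,0)]⟩,⟨0,[(14,0),(28,0)]⟩⟩,.a ⟨true,0,⟨1,[(30,2),(0,0)]⟩,⟨0,
  [(2,0)]⟩⟩ ⟨false,1,⟨1,[(0,0),(14,0),(28,0)]⟩,⟨0,[(14,0),(25,0)]⟩⟩ ⟨true,1,⟨1,[(0,0),(14,0),(28,
  0)]⟩,⟨1,[(9,0),(2,1),(17,1),(4,0)]⟩⟩]⟩) (.I [0,0,-2,0,0,-2,-1] (.S ⟨1,0,[0,0,-1,-1,0,0,0,1],[0,-1,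
  1],[0,1,-1,-1,0,0,0,1],(⟨0,[(23,0)]⟩,⟨0,[(33,0),(4,0)]⟩),⟨0,[(4,0)]⟩,.k,(.x (-1) ⟨1,[(24,0),(0,0),
  (5,2),(0,0),(0,1),(2,0),(1,3)]⟩ ⟨0,[(0,0)]⟩),⟨true,0,⟨0,[(48,0)]⟩,⟨0,[]⟩⟩,⟨false,1,⟨1,[(24,0),(0,
  0),(20,0)]⟩,⟨0,[]⟩⟩,⟨false,0,⟨0,[(44,0)]⟩,⟨0,[(43,0),(2,0)]⟩⟩,⟨true,0,⟨0,[(44,0)]⟩,⟨0,[(43,0)]⟩⟩,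
  [.o ⟨false,1,⟨1,[(17,1),(18,0),(9,0)]⟩,⟨1,[(14,1),(21,0),(9,0)]⟩⟩,.a ⟨true,1,⟨0,[(17,0),(28,0)]⟩,
  ⟨0,[(14,0)]⟩⟩ ⟨false,1,⟨0,[(12,0),(32,0)]⟩,⟨3,[(1,1),(13,1),(8,0),(0,0),(19,0)]⟩⟩ ⟨true,1,⟨1,[(12,
  1),(32,0),(0,0)]⟩,⟨0,[(1,0),(41,0)]⟩⟩,.a ⟨true,0,⟨0,[(31,0)]⟩,⟨0,[(28,0)]⟩⟩ ⟨true,0,⟨0,[(12,0),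
  (29,0)]⟩,⟨3,[(1,1),(13,1),(8,0),(0,0),(19,0)]⟩⟩ ⟨false,1,⟨1,[(12,1),(32,0),(0,0)]⟩,⟨3,[(1,1),(13,
  1),(8,0),(0,0),(19,0)]⟩⟩,.a ⟨true,0,⟨1,[(31,2),(0,0)]⟩,⟨0,[(3,0)]⟩⟩ ⟨false,1,⟨0,[(12,0),(32,0)]⟩,
  ⟨3,[(1,1),(13,1),(15,0),(0,0),(13,1)]⟩⟩ ⟨true,1,⟨0,[(12,0),(32,0)]⟩,⟨0,[(1,0),(41,0)]⟩⟩]⟩) (.Q [0,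
  0,0,1,1,0,2,2,0,-1,2] (.p true [0,0,1] [1,0,-1] (⟨0,[(34,0)]⟩,⟨0,[(33,0)]⟩) .k 2 (⟨0,[(33,0)]⟩,⟨0,
  [(34,0)]⟩) .k (.r 0 ⟨0,[(1,1),(0,3),(3,3),(5,3),(18,3),(3,15),(4,1)]⟩ ⟨0,[(15,1),(29,0)]⟩)) (.R
  ⟨1,true,false,true,[1,0,-1],[0,0,1],[1,0,0,-1,0,0,0,-1],(⟨0,[(34,0)]⟩,⟨0,[(35,0)]⟩),(⟨0,[(35,0)]⟩,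
  ⟨0,[(34,0)]⟩),⟨0,[(23,0)]⟩,.k,.k,.k,.k,(.r (-1) ⟨1,[(2,1),(5,1),(1,1),(26,0),(8,1),(0,0)]⟩ ⟨1,[(0,
  0),(8,0),(7,0),(4,0),(19,0)]⟩),.k,⟨true,1,⟨1,[(2,1),(5,1),(1,1),(26,0),(8,0),(0,1)]⟩,⟨10,[(0,2),
  (3,3),(4,10),(1,3),(5,4),(4,0),(14,0)]⟩⟩,⟨false,2,⟨9,[(0,3),(1,3),(5,11),(7,3),(20,2),(8,4)]⟩,⟨2,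
  [(4,2),(4,1),(0,1),(10,0),(15,0),(4,3)]⟩⟩,⟨false,1,⟨0,[(44,0),(2,0)]⟩,⟨0,[(45,0)]⟩⟩,⟨true,1,⟨0,
  [(0,0),(43,0)]⟩,⟨1,[(2,1),(1,1),(5,1),(26,0),(9,0)]⟩⟩,⟨true,0,⟨0,[]⟩,⟨0,[(49,0)]⟩⟩,⟨false,1,⟨0,
  [(0,0)]⟩,⟨1,[(10,0),(3,2),(22,0),(9,2)]⟩⟩,[]⟩) (.I [0,0,2,2,-1,0,0,-1] (.S ⟨1,0,[0,0,-1,-1,0,0,0,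
  1],[0,-1,1],[0,1,-1,-1,0,0,0,1],(⟨0,[(25,0)]⟩,⟨1,[(2,0),(2,0),(29,0)]⟩),⟨0,[(6,0)]⟩,.k,(.r (-2)
  ⟨7,[(20,3),(0,5),(1,1),(7,3),(6,0),(8,1),(0,6)]⟩ ⟨0,[(0,0)]⟩),⟨true,0,⟨0,[(50,0)]⟩,⟨0,[]⟩⟩,⟨false,
  1,⟨1,[(26,0),(0,0),(20,0)]⟩,⟨0,[]⟩⟩,⟨false,0,⟨0,[(46,0)]⟩,⟨0,[(45,0),(2,0)]⟩⟩,⟨true,0,⟨0,[(46,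
  0)]⟩,⟨0,[(45,0)]⟩⟩,[.o ⟨false,1,⟨1,[(19,1),(18,0),(9,0)]⟩,⟨14,[(0,8),(0,2),(3,0),(17,3),(14,3),(8,
  7)]⟩⟩,.a ⟨true,1,⟨0,[(19,0),(28,0)]⟩,⟨0,[(16,0)]⟩⟩ ⟨false,1,⟨0,[(14,0),(32,0)]⟩,⟨3,[(0,1),(16,1),
  (8,0),(0,0),(19,0)]⟩⟩ ⟨true,1,⟨1,[(14,1),(32,0),(0,0)]⟩,⟨0,[(0,0),(44,0)]⟩⟩,.a ⟨true,0,⟨0,[(33,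
  0)]⟩,⟨0,[(30,0)]⟩⟩ ⟨true,0,⟨0,[(14,0),(29,0)]⟩,⟨3,[(0,1),(16,1),(8,0),(0,0),(19,0)]⟩⟩ ⟨false,1,⟨1,
  [(14,1),(32,0),(0,0)]⟩,⟨3,[(0,1),(16,1),(8,0),(0,0),(19,0)]⟩⟩,.a ⟨true,0,⟨1,[(33,2),(0,0)]⟩,⟨0,
  [(5,0)]⟩⟩ ⟨false,1,⟨0,[(14,0),(32,0)]⟩,⟨3,[(0,1),(16,1),(15,0),(0,0),(13,1)]⟩⟩ ⟨true,1,⟨0,[(14,0),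
  (32,0)]⟩,⟨0,[(0,0),(44,0)]⟩⟩]⟩) (.Q [0,0,0,2,1,0,2,2,0,-1,2] (.p true [0,0,1] [1,0,-1] (⟨0,[(36,
  0)]⟩,⟨0,[(35,0)]⟩) .k 2 (⟨0,[(35,0)]⟩,⟨0,[(36,0)]⟩) .k (.r 0 ⟨0,[(3,1),(0,3),(3,3),(5,3),(18,3),
  (3,15),(4,1)]⟩ ⟨0,[(17,1),(29,0)]⟩)) (.R ⟨1,true,false,false,[1,0,-1],[0,1,1],[0,1,0,0,0,0,0,-1],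
  (⟨0,[(36,0)]⟩,⟨0,[(37,0)]⟩),(⟨0,[(37,0),(3,0)]⟩,⟨0,[(25,0)]⟩),⟨0,[(25,0)]⟩,.k,.k,.k,(.r (-1) ⟨9,
  [(2,5),(1,3),(5,11),(7,3),(20,2),(8,4)]⟩ ⟨1,[(0,0),(10,1),(12,0),(24,0)]⟩),(.r (-2) ⟨3,[(2,1),(7,
  5),(7,1),(14,1),(5,0),(8,1),(0,0)]⟩ ⟨0,[(4,3),(0,5),(3,5),(5,5),(18,5),(3,23),(4,2)]⟩),.k,⟨false,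
  1,⟨13,[(2,9),(1,7),(5,19),(28,4),(2,3),(2,5),(2,6)]⟩,⟨0,[(19,1),(24,0)]⟩⟩,⟨true,2,⟨2,[(0,0),(3,0),
  (5,3),(7,0),(20,0),(8,0)]⟩,⟨4,[(2,3),(3,0),(4,7),(11,0),(20,3),(4,1)]⟩⟩,⟨true,0,⟨0,[(51,0)]⟩,⟨0,
  []⟩⟩,⟨false,2,⟨13,[(0,11),(9,5),(10,3),(12,1),(0,3),(3,0),(9,8)]⟩,⟨0,[(2,0)]⟩⟩,⟨false,0,⟨0,[(47,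
  0)]⟩,⟨0,[(46,0),(2,0)]⟩⟩,⟨true,1,⟨0,[(0,0)]⟩,⟨11,[(2,5),(9,7),(5,0),(3,0),(10,2),(1,0),(3,0)]⟩⟩,
  []⟩) (.Q [0,0,-1,0,0,0,0,0,1,-1,0,1] (.p true [0,0,0,0,1] [1] (⟨0,[(30,0)]⟩,⟨0,[(29,0)]⟩) .k 1
  (⟨0,[]⟩,⟨0,[]⟩) .k .k) (.Q [1,0,0,0,-1,0,0,0,1,0,0,1] (.p true [0,0,0,0,1] [] (⟨0,[(31,0)]⟩,⟨0,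
  [(30,0)]⟩) .k 0 (⟨0,[]⟩,⟨0,[]⟩) .k .k) (.R ⟨2,true,false,false,[0,1],[0,0,0,0,1],[1,1,1],(⟨0,[]⟩,
  ⟨0,[]⟩),(⟨0,[(32,0)]⟩,⟨0,[(31,0)]⟩),⟨0,[]⟩,.k,.k,.k,(.r 0 ⟨3,[(15,0),(13,0),(0,0),(15,1),(6,1)]⟩
  ⟨7,[(12,3),(11,1),(1,1),(14,0),(9,0)]⟩),.k,.k,⟨false,0,⟨0,[(53,0)]⟩,⟨1,[(50,0),(0,0)]⟩⟩,⟨true,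
  (-1),⟨3,[(0,3),(35,0),(0,0),(14,1)]⟩,⟨0,[(29,0)]⟩⟩,⟨true,0,⟨0,[(48,0)]⟩,⟨0,[(49,0)]⟩⟩,⟨false,0,
  ⟨17,[(0,6),(0,3),(0,3),(0,1),(13,5),(12,6),(5,7),(14,8)]⟩,⟨0,[(29,0),(19,0)]⟩⟩,⟨false,0,⟨0,[]⟩,⟨1,
  [(29,0),(0,0),(20,0)]⟩⟩,⟨true,(-1),⟨0,[(0,0)]⟩,⟨0,[(29,0),(23,0)]⟩⟩,[]⟩) (.Q [0,0,0,0,0,-1,0,0,0,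
  1,0,-1] (.ed true [0,1,0,0,1] .k) (.S ⟨1,4,[],[1,0,0,0,-1],[0,0,0,-1],(⟨0,[(32,0)]⟩,⟨0,[(33,0)]⟩),
  ⟨0,[(0,0)]⟩,.k,(.r (-1) ⟨3,[(1,0),(23,1),(5,0),(20,0)]⟩ ⟨1,[(16,0),(13,0),(0,0)]⟩),⟨false,1,⟨0,
  [(49,0),(2,0)]⟩,⟨0,[(50,0)]⟩⟩,⟨true,(-1),⟨3,[(2,2),(6,0),(4,1),(4,1),(11,0),(5,2)]⟩,⟨0,[(1,0)]⟩⟩,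
  ⟨true,0,⟨0,[]⟩,⟨0,[(54,0)]⟩⟩,⟨false,(-1),⟨0,[(2,0),(4,0),(1,0),(8,0),(18,0)]⟩,⟨0,[(30,0),(18,0),
  (2,0)]⟩⟩,[.o ⟨false,0,⟨0,[(54,0)]⟩,⟨1,[(42,0),(9,0)]⟩⟩,.fa ⟨true,1,⟨0,[(49,0),(2,0)]⟩,⟨1,[(7,0),
  (6,0),(33,0)]⟩⟩ ⟨false,0,⟨1,[(2,0),(6,0),(21,0),(5,0)]⟩,⟨0,[(30,0)]⟩⟩,.o ⟨false,1,⟨0,[(30,0)]⟩,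
  ⟨10,[(2,5),(0,0),(10,1),(16,4),(5,1),(4,2),(4,1)]⟩⟩,.o ⟨false,1,⟨1,[(30,1),(6,0),(0,0)]⟩,⟨0,[(2,
  0)]⟩⟩]⟩) (.S ⟨1,0,[1],[0,0,0,0,1],[1,0,1],(⟨0,[(33,0)]⟩,⟨0,[(32,0)]⟩),⟨2,[(0,0),(9,0),(1,0),(20,
  1)]⟩,.k,(.r (-1) ⟨7,[(13,3),(11,1),(1,1),(14,0),(9,0)]⟩ ⟨2,[(1,0),(14,0),(14,0),(15,0),(6,0)]⟩),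
  ⟨true,0,⟨1,[(37,0),(0,0)]⟩,⟨0,[(48,0)]⟩⟩,⟨false,1,⟨1,[(30,0),(0,0),(20,0)]⟩,⟨0,[]⟩⟩,⟨false,0,⟨1,
  [(16,0),(35,0)]⟩,⟨7,[(13,3),(11,1),(1,1),(14,0),(9,0)]⟩⟩,⟨true,0,⟨0,[(50,0)]⟩,⟨0,[(49,0)]⟩⟩,[.o
  ⟨false,0,⟨10,[(2,5),(0,0),(10,1),(16,4),(5,1),(4,2),(4,1)]⟩,⟨0,[(1,0)]⟩⟩,.e ⟨false,1,⟨1,[(30,0),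
  (0,0),(20,0)]⟩,⟨0,[(48,0)]⟩⟩ ⟨false,1,⟨1,[(51,0),(0,0)]⟩,⟨0,[(54,0)]⟩⟩,.o ⟨false,0,⟨10,[(2,5),(0,
  0),(10,1),(16,4),(5,1),(4,2),(4,1)]⟩,⟨0,[(30,0)]⟩⟩,.a ⟨true,(-1),⟨3,[(2,2),(6,0),(4,1),(0,1),(15,
  0),(5,2),(9,3)]⟩,⟨0,[(9,0),(20,0),(6,0)]⟩⟩ ⟨true,0,⟨0,[]⟩,⟨0,[(54,0)]⟩⟩ ⟨false,1,⟨1,[(51,0),(0,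
  0)]⟩,⟨1,[(37,0),(0,0)]⟩⟩]⟩))) (.Q [0,0,-1,0,1,0,0,0,-1,0,0,-1] (.p false [0,0,0,0,1] [] (⟨0,[(31,
  0)]⟩,⟨0,[(30,0)]⟩) .k 0 (⟨0,[]⟩,⟨0,[]⟩) .k .k) (.Q [-1,0,0,1,0,0,0,0,-1,0,0,-1] (.p false [0,0,0,
  0,1] [] (⟨0,[(32,0)]⟩,⟨0,[(31,0)]⟩) .k 0 (⟨0,[]⟩,⟨0,[]⟩) .k .k) (.R ⟨2,true,false,true,[0,1],[0,0,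
  0,0,1],[0,0,1,1],(⟨0,[]⟩,⟨0,[]⟩),(⟨0,[(33,0)]⟩,⟨0,[(32,0)]⟩),⟨0,[]⟩,.k,.k,.k,(.r 0 ⟨3,[(16,0),(13,
  0),(0,0),(15,1),(6,1)]⟩ ⟨7,[(13,3),(11,1),(1,1),(14,0),(9,0)]⟩),.k,.k,⟨true,0,⟨55,[(7,1),(0,1),(3,
  1),(1,1),(1,25),(20,1),(3,7),(4,0),(5,28)]⟩,⟨0,[(49,0)]⟩⟩,⟨false,0,⟨0,[(31,0)]⟩,⟨0,[(1,0)]⟩⟩,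
  ⟨false,1,⟨1,[(30,0),(0,0),(20,0)]⟩,⟨0,[]⟩⟩,⟨true,0,⟨0,[(31,0),(17,0)]⟩,⟨0,[(0,0)]⟩⟩,⟨true,0,⟨0,
  [(50,0)]⟩,⟨0,[(49,0)]⟩⟩,⟨false,0,⟨0,[(31,0)]⟩,⟨15,[(0,7),(0,0),(0,6),(0,0),(0,1),(8,1),(28,3),(9,
  7)]⟩⟩,[]⟩) (.Q [-1,1,0,0,0,0,0,0,-1,0,0,-1] (.p false [0,0,0,0,1] [] (⟨0,[(33,0)]⟩,⟨0,[(32,0)]⟩)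
  .k 0 (⟨0,[]⟩,⟨0,[]⟩) .k .k) (.Q [0,0,0,0,0,-1,0,0,0,0,0,1] (.ed false [1,-1,0,0,1] .k) (.Q [-1,0,
  0,0,0,0,0,0,-1,1,0,-1] (.p false [0,0,0,0,1] [1] (⟨0,[(35,0)]⟩,⟨0,[(34,0)]⟩) .k 1 (⟨0,[]⟩,⟨0,[]⟩)
  .k .k) (.S ⟨1,0,[1],[0,0,0,0,1],[0,1],(⟨0,[(36,0)]⟩,⟨0,[(35,0)]⟩),⟨0,[(1,0)]⟩,.k,(.r (-1) ⟨7,[(16,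
  3),(11,1),(1,1),(14,0),(9,0)]⟩ ⟨3,[(19,0),(13,0),(0,0),(15,1),(6,1)]⟩),⟨true,0,⟨0,[(57,0)]⟩,⟨0,
  []⟩⟩,⟨false,1,⟨1,[(33,0),(0,0),(20,0)]⟩,⟨0,[]⟩⟩,⟨false,0,⟨0,[(10,0),(0,1),(3,1),(5,0),(18,1),(3,
  7),(4,0)]⟩,⟨0,[(52,0),(2,0)]⟩⟩,⟨true,0,⟨0,[(53,0)]⟩,⟨0,[(52,0)]⟩⟩,[.a ⟨true,0,⟨0,[(34,0)]⟩,⟨0,[(0,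
  0)]⟩⟩ ⟨false,0,⟨0,[(51,0)]⟩,⟨1,[(33,0),(0,0),(20,0)]⟩⟩ ⟨true,0,⟨0,[]⟩,⟨1,[(40,0),(0,0)]⟩⟩,.o
  ⟨false,1,⟨1,[(34,1),(10,0),(9,0)]⟩,⟨0,[(2,0)]⟩⟩,.e ⟨true,0,⟨0,[(57,0)]⟩,⟨0,[]⟩⟩ ⟨true,0,⟨0,[]⟩,⟨0,
  [(57,0)]⟩⟩,.o ⟨false,0,⟨5,[(3,5),(15,2),(25,0),(3,1)]⟩,⟨0,[(4,0)]⟩⟩]⟩) (.R ⟨1,false,false,false,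
  [0,0,1],[0,0,0,0,1],[0,0,0,0,0,0,0,1],(⟨0,[(43,0)]⟩,⟨0,[(42,0)]⟩),(⟨0,[(36,0)]⟩,⟨0,[(35,0)]⟩),⟨0,
  [(32,0)]⟩,.k,.k,.k,.k,(.r (-1) ⟨21,[(7,7),(19,1),(0,1),(1,5),(7,11),(10,2),(4,0),(0,7)]⟩ ⟨3,[(10,
  1),(13,1),(8,0),(0,0),(19,0)]⟩),.k,⟨true,0,⟨29,[(11,1),(3,1),(1,3),(7,23),(12,1),(5,7),(4,0),(5,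
  2)]⟩,⟨0,[(24,0)]⟩⟩,⟨false,0,⟨15,[(0,11),(10,0),(0,6),(2,0),(14,3),(3,3),(9,3)]⟩,⟨0,[(4,0),(35,
  0)]⟩⟩,⟨false,1,⟨1,[(33,0),(0,0),(20,0)]⟩,⟨0,[]⟩⟩,⟨false,0,⟨2,[(0,1),(7,0),(14,0),(10,0),(20,1)]⟩,
  ⟨0,[(2,0),(35,0),(16,0)]⟩⟩,⟨true,0,⟨0,[(53,0)]⟩,⟨0,[(52,0)]⟩⟩,⟨false,0,⟨0,[(0,0),(22,0),(31,0)]⟩,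
  ⟨0,[(2,0),(23,0),(28,0)]⟩⟩,[.o ⟨false,0,⟨0,[(0,0)]⟩,⟨3,[(2,0),(30,2),(21,0),(1,0)]⟩⟩,.o ⟨false,1,
  ⟨1,[(34,1),(10,0),(9,0)]⟩,⟨0,[(2,0)]⟩⟩,.o ⟨false,1,⟨1,[(40,1),(4,0),(8,0)]⟩,⟨0,[(29,0)]⟩⟩,.a
  ⟨true,0,⟨0,[(40,0)]⟩,⟨0,[(37,0)]⟩⟩ ⟨false,1,⟨1,[(25,1),(28,0),(0,0)]⟩,⟨0,[(24,0)]⟩⟩ ⟨true,0,⟨3,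
  [(0,2),(11,1),(17,0),(3,0)]⟩,⟨0,[(2,0),(37,0)]⟩⟩]⟩)) (.Q [0,0,0,0,0,0,0,0,-1,1,0,-1] (.p false [0,
  0,0,0,1] [1] (⟨0,[(35,0)]⟩,⟨0,[(34,0)]⟩) .k 1 (⟨0,[]⟩,⟨0,[]⟩) .k .k) (.R ⟨0,false,false,true,[0,0,
  0,0,1],[0,-1,1],[0,1],(⟨0,[(36,0)]⟩,⟨0,[(35,0)]⟩),(⟨0,[(32,0)]⟩,⟨1,[(9,0),(2,0),(29,0)]⟩),⟨0,[(1,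
  0)]⟩,.k,.k,(.r (-1) ⟨7,[(16,3),(11,1),(1,1),(14,0),(9,0)]⟩ ⟨3,[(19,0),(13,0),(0,0),(15,1),(6,
  1)]⟩),(.r 0 ⟨3,[(10,1),(13,1),(8,0),(0,0),(19,0)]⟩ ⟨21,[(7,7),(19,1),(0,1),(1,5),(7,11),(10,2),(4,
  0),(0,7)]⟩),.k,.k,⟨true,0,⟨3,[(10,1),(13,1),(8,0),(0,0),(19,0)]⟩,⟨0,[(21,0)]⟩⟩,⟨false,1,⟨0,[(4,0),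
  (35,0)]⟩,⟨5,[(3,5),(8,5),(6,2),(25,0),(3,1)]⟩⟩,⟨true,0,⟨0,[(57,0)]⟩,⟨0,[]⟩⟩,⟨false,1,⟨0,[(2,0),
  (23,0),(28,0)]⟩,⟨1,[(3,1),(6,1),(1,1),(32,0),(9,0)]⟩⟩,⟨false,0,⟨0,[]⟩,⟨0,[]⟩⟩,⟨false,0,⟨0,[]⟩,⟨0,
  []⟩⟩,[.e ⟨false,0,⟨0,[(51,0)]⟩,⟨1,[(33,0),(0,0),(20,0)]⟩⟩ ⟨false,1,⟨0,[(4,0),(21,0)]⟩,⟨5,[(3,5),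
  (6,5),(1,5),(32,1),(3,0),(5,2)]⟩⟩,.o ⟨false,1,⟨1,[(26,1),(18,0),(9,0)]⟩,⟨14,[(8,2),(1,8),(1,0),
  (17,3),(14,3),(8,7)]⟩⟩,.a ⟨true,0,⟨0,[(34,0)]⟩,⟨0,[(0,0)]⟩⟩ ⟨true,0,⟨0,[(57,0)]⟩,⟨0,[]⟩⟩ ⟨false,1,
  ⟨0,[(2,0),(23,0),(28,0)]⟩,⟨5,[(3,5),(6,5),(1,5),(32,1),(3,0),(5,2)]⟩⟩,.o ⟨false,0,⟨5,[(3,5),(15,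
  2),(25,0),(3,1)]⟩,⟨0,[(4,0)]⟩⟩]⟩) (.S ⟨1,0,[-1,1],[1,0,0,0,-1],[-1],(⟨0,[(35,0)]⟩,⟨0,[(36,0)]⟩),
  ⟨2,[(1,0),(11,0),(1,0),(19,1)]⟩,.k,(.r (-1) ⟨9,[(28,4),(4,1),(0,1),(20,2),(1,0)]⟩ ⟨1,[(19,0),(13,
  0),(0,0)]⟩),⟨false,1,⟨1,[(33,0),(0,0),(20,0)]⟩,⟨0,[]⟩⟩,⟨true,0,⟨0,[(57,0)]⟩,⟨0,[]⟩⟩,⟨true,0,⟨0,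
  [(53,0)]⟩,⟨0,[(52,0)]⟩⟩,⟨false,0,⟨0,[(53,0)]⟩,⟨0,[(52,0),(2,0)]⟩⟩,[.o ⟨false,0,⟨0,[(2,0)]⟩,⟨1,
  [(34,1),(10,0),(9,0)]⟩⟩,.o ⟨false,1,⟨3,[(2,0),(30,2),(21,0),(1,0)]⟩,⟨0,[(0,0)]⟩⟩,.o ⟨false,1,⟨0,
  [(33,0)]⟩,⟨0,[(0,0)]⟩⟩,.a ⟨true,0,⟨0,[(5,0)]⟩,⟨0,[(0,0),(11,0),(27,0)]⟩⟩ ⟨false,1,⟨0,[(0,0),(1,0),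
  (8,0),(3,0),(24,0),(3,3),(10,0)]⟩,⟨1,[(40,0),(0,0)]⟩⟩ ⟨true,0,⟨0,[(0,0),(1,0),(8,0),(3,0),(24,0),
  (3,3)]⟩,⟨1,[(40,0),(0,0)]⟩⟩]⟩))) (.R ⟨2,true,false,false,[0,1],[0,0,0,0,1],[1,0,1],(⟨0,[]⟩,⟨0,
  []⟩),(⟨0,[(34,0)]⟩,⟨0,[(33,0)]⟩),⟨0,[]⟩,.k,.k,.k,(.r 0 ⟨3,[(17,0),(13,0),(0,0),(15,1),(6,1)]⟩ ⟨7,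
  [(14,3),(11,1),(1,1),(14,0),(9,0)]⟩),.k,.k,⟨true,0,⟨1,[(38,0),(0,0)]⟩,⟨0,[]⟩⟩,⟨false,0,⟨0,[(32,
  0)]⟩,⟨0,[(2,0)]⟩⟩,⟨false,1,⟨0,[(50,0),(2,0)]⟩,⟨0,[(51,0)]⟩⟩,⟨true,0,⟨0,[(1,0)]⟩,⟨0,[(2,0),(5,0),
  (10,0),(29,0)]⟩⟩,⟨true,0,⟨0,[]⟩,⟨0,[(55,0)]⟩⟩,⟨false,0,⟨0,[(0,0)]⟩,⟨8,[(3,1),(8,0),(18,6),(10,1),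
  (4,0)]⟩⟩,[]⟩))) (.Q [0,0,0,0,0,-1,0,0,0,0,0,1] (.ed false [1,-1,0,0,1] .k) (.S ⟨1,0,[1],[0,0,0,0,
  1],[1,0,1],(⟨0,[(33,0)]⟩,⟨0,[(32,0)]⟩),⟨0,[(0,0)]⟩,.k,(.r (-1) ⟨7,[(13,3),(11,1),(1,1),(14,0),(9,
  0)]⟩ ⟨3,[(16,0),(13,0),(0,0),(15,1),(6,1)]⟩),⟨true,0,⟨1,[(37,0),(0,0)]⟩,⟨0,[(48,0)]⟩⟩,⟨false,1,⟨1,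
  [(30,0),(0,0),(20,0)]⟩,⟨0,[]⟩⟩,⟨false,0,⟨1,[(16,0),(35,0)]⟩,⟨7,[(13,3),(11,1),(1,1),(14,0),(9,
  0)]⟩⟩,⟨true,0,⟨0,[(50,0)]⟩,⟨0,[(49,0)]⟩⟩,[.o ⟨false,0,⟨1,[(1,1),(40,0),(8,0)]⟩,⟨8,[(2,1),(8,0),
  (18,6),(10,1),(4,0)]⟩⟩,.e ⟨false,1,⟨1,[(30,0),(0,0),(20,0)]⟩,⟨0,[(48,0)]⟩⟩ ⟨false,1,⟨1,[(51,0),(0,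
  0)]⟩,⟨0,[(54,0)]⟩⟩,.o ⟨false,0,⟨1,[(1,1),(40,0),(8,0)]⟩,⟨0,[(30,0)]⟩⟩,.a ⟨true,(-1),⟨0,[(1,0)]⟩,
  ⟨0,[(2,0),(48,0)]⟩⟩ ⟨true,0,⟨0,[]⟩,⟨0,[(54,0)]⟩⟩ ⟨false,1,⟨1,[(51,0),(0,0)]⟩,⟨1,[(37,0),(0,
  0)]⟩⟩]⟩) (.Q [1,0,0,0,-1,0,-1,-1,1,0,-1,1] (.p false [0,0,1] [0,0,0,0,1] (⟨0,[(40,0)]⟩,⟨0,[(39,
  0)]⟩) .k 2 (⟨0,[(33,0)]⟩,⟨0,[(32,0)]⟩) .k (.r 0 ⟨29,[(8,1),(3,1),(1,3),(7,23),(12,1),(5,7),(4,0),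
  (5,2)]⟩ ⟨1,[(21,1),(8,0),(0,0),(19,0)]⟩)) (.R ⟨0,false,false,false,[0,0,0,0,1],[0,-1,1],[1,0,1],
  (⟨0,[(34,0)]⟩,⟨0,[(33,0)]⟩),(⟨0,[(30,0)]⟩,⟨1,[(7,0),(2,0),(29,0)]⟩),⟨0,[(1,0)]⟩,.k,.k,(.r (-1) ⟨7,
  [(14,3),(11,1),(1,1),(14,0),(9,0)]⟩ ⟨3,[(17,0),(13,0),(0,0),(15,1),(6,1)]⟩),(.r 0 ⟨3,[(8,1),(13,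
  1),(8,0),(0,0),(19,0)]⟩ ⟨21,[(5,7),(19,1),(0,1),(1,5),(7,11),(10,2),(4,0),(0,7)]⟩),.k,.k,⟨false,0,
  ⟨3,[(8,1),(13,1),(8,0),(0,0),(19,0)]⟩,⟨1,[(5,0),(17,0),(28,0)]⟩⟩,⟨true,1,⟨0,[(31,0),(6,0)]⟩,⟨5,
  [(0,3),(1,1),(7,1),(4,1),(7,1),(23,0),(5,0)]⟩⟩,⟨true,0,⟨1,[(38,0),(0,0)]⟩,⟨0,[(49,0)]⟩⟩,⟨false,2,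
  ⟨0,[(24,0),(6,0),(21,0)]⟩,⟨0,[(0,0),(50,0)]⟩⟩,⟨false,0,⟨0,[]⟩,⟨0,[]⟩⟩,⟨false,0,⟨0,[]⟩,⟨0,[]⟩⟩,[.o
  ⟨false,1,⟨1,[(24,1),(18,0),(9,0)]⟩,⟨14,[(6,2),(1,8),(1,0),(17,3),(14,3),(8,7)]⟩⟩,.a ⟨true,1,⟨0,
  [(24,0),(28,0)]⟩,⟨0,[(21,0)]⟩⟩ ⟨false,1,⟨1,[(31,0),(0,0),(20,0)]⟩,⟨0,[(49,0)]⟩⟩ ⟨true,2,⟨0,[(24,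
  0),(6,0),(21,0)]⟩,⟨0,[(0,0),(7,0),(10,0),(29,0)]⟩⟩,.o ⟨false,0,⟨1,[(2,1),(40,0),(8,0)]⟩,⟨0,[(31,
  0)]⟩⟩,.e ⟨true,0,⟨0,[]⟩,⟨0,[(55,0)]⟩⟩ ⟨true,2,⟨2,[(5,0),(8,0),(16,2),(4,1),(16,0)]⟩,⟨0,[(0,0),(7,
  0),(10,0),(29,0)]⟩⟩]⟩) (.R ⟨1,false,false,false,[1,0,0,0,-1],[0,1],[-1],(⟨0,[(33,0)]⟩,⟨0,[(34,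
  0)]⟩),(⟨0,[(45,0)]⟩,⟨0,[(44,0)]⟩),⟨2,[(1,0),(9,0),(1,0),(19,1)]⟩,.k,.k,(.r (-1) ⟨9,[(26,4),(4,1),
  (0,1),(20,2),(1,0)]⟩ ⟨9,[(0,3),(7,3),(8,0),(10,1),(3,3),(10,0)]⟩),(.r (-1) ⟨9,[(26,4),(4,1),(0,1),
  (20,2),(1,0)]⟩ ⟨9,[(0,3),(7,3),(8,0),(10,1),(3,3),(10,0)]⟩),(.r (-2) ⟨5,[(14,3),(11,3),(1,1),(2,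
  0),(0,0),(10,0),(9,1)]⟩ ⟨0,[(17,0)]⟩),.k,⟨true,1,⟨9,[(26,4),(4,1),(0,1),(20,2),(1,0)]⟩,⟨0,[(8,0),
  (10,0)]⟩⟩,⟨false,1,⟨1,[(2,1),(40,0),(8,2)]⟩,⟨0,[(3,0)]⟩⟩,⟨false,1,⟨1,[(31,0),(0,0),(20,0)]⟩,⟨0,
  []⟩⟩,⟨true,0,⟨1,[(2,1),(40,0),(7,1),(0,0)]⟩,⟨1,[(0,1),(15,0),(3,0)]⟩⟩,⟨true,0,⟨0,[(51,0)]⟩,⟨0,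
  [(50,0)]⟩⟩,⟨true,0,⟨1,[(2,1),(40,0),(7,3),(0,0)]⟩,⟨0,[(0,0),(15,0)]⟩⟩,[.a ⟨true,0,⟨0,[(51,0)]⟩,⟨8,
  [(7,1),(2,1),(5,2),(7,2),(16,1),(2,3),(8,2)]⟩⟩ ⟨false,1,⟨9,[(31,3),(0,3),(19,4),(0,0),(1,1)]⟩,⟨0,
  []⟩⟩ ⟨true,0,⟨1,[(2,1),(40,0),(7,1),(0,0)]⟩,⟨2,[(0,0),(2,1),(0,0),(14,0),(18,0)]⟩⟩,.o ⟨false,1,⟨1,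
  [(43,0),(7,1),(1,0)]⟩,⟨0,[(50,0)]⟩⟩,.o ⟨false,1,⟨0,[(31,0)]⟩,⟨1,[(2,1),(40,0),(8,0)]⟩⟩,.e ⟨false,
  1,⟨1,[(9,1),(3,1),(24,1),(3,7),(4,0),(5,0)]⟩,⟨1,[(38,0),(0,0)]⟩⟩ ⟨false,1,⟨1,[(2,1),(40,0),(7,1),
  (0,1),(0,0)]⟩,⟨2,[(0,0),(2,1),(0,0),(14,0),(18,0)]⟩⟩]⟩))))))))))) (.Q [0,0,0,0,0,-1,0,0,0,1,0,-1]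
  (.ed true [0,1,0,0,1] .k) (.Q [-1,0,0,0,0,0,0,0,-1,1,0,-1] (.p false [0,0,0,0,1] [1] (⟨0,[(25,
  0)]⟩,⟨0,[(24,0)]⟩) .k 1 (⟨0,[]⟩,⟨0,[]⟩) .k .k) (.Q [0,0,1,0,0,0,0,0,-1,0,0,-1] (.p false [0,0,0,0,
  1] [] (⟨0,[(26,0)]⟩,⟨0,[(25,0)]⟩) .k 0 (⟨0,[]⟩,⟨0,[]⟩) .k .k) (.S ⟨1,0,[-1,1],[1,0,0,0,-1],[-1],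
  (⟨0,[(26,0)]⟩,⟨0,[(27,0)]⟩),⟨0,[(2,0)]⟩,.k,(.r (-1) ⟨9,[(19,4),(4,1),(0,1),(20,2),(1,0)]⟩ ⟨1,[(10,
  0),(13,0),(0,0)]⟩),⟨false,1,⟨1,[(24,0),(0,0),(20,0)]⟩,⟨0,[]⟩⟩,⟨true,0,⟨0,[(48,0)]⟩,⟨0,[]⟩⟩,⟨true,
  0,⟨0,[(44,0)]⟩,⟨0,[(43,0)]⟩⟩,⟨false,0,⟨0,[(44,0)]⟩,⟨22,[(3,6),(3,3),(1,2),(8,2),(0,4),(1,3),(24,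
  16)]⟩⟩,[.o ⟨false,0,⟨0,[(0,0),(41,0)]⟩,⟨1,[(25,1),(10,0),(9,0)]⟩⟩,.e ⟨false,1,⟨1,[(5,0),(29,1),
  (10,0)]⟩,⟨0,[(48,0)]⟩⟩ ⟨false,1,⟨9,[(24,3),(0,3),(19,4),(0,0),(1,1)]⟩,⟨0,[]⟩⟩,.a ⟨true,0,⟨0,[(1,
  0)]⟩,⟨0,[(25,0)]⟩⟩ ⟨false,1,⟨4,[(24,1),(0,1),(20,2),(1,0)]⟩,⟨0,[]⟩⟩ ⟨true,0,⟨0,[(48,0)]⟩,⟨0,[]⟩⟩,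
  .o ⟨false,0,⟨0,[(0,0)]⟩,⟨1,[(25,1),(10,0),(8,0)]⟩⟩]⟩) (.R ⟨2,true,false,true,[0,1],[1,0,0,0,-1],
  [0,0,1,1],(⟨0,[]⟩,⟨0,[]⟩),(⟨0,[(26,0)]⟩,⟨0,[(27,0)]⟩),⟨0,[]⟩,.k,.k,.k,(.r 0 ⟨1,[(10,0),(13,0),(0,
  0)]⟩ ⟨9,[(19,4),(4,1),(0,1),(20,2),(1,0)]⟩),.k,.k,⟨true,0,⟨0,[(41,0)]⟩,⟨0,[(43,0)]⟩⟩,⟨false,0,⟨0,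
  [(1,0)]⟩,⟨1,[(25,1),(10,0),(8,0)]⟩⟩,⟨false,1,⟨1,[(24,0),(0,0),(20,0)]⟩,⟨0,[]⟩⟩,⟨true,0,⟨0,[(1,0),
  (41,0)]⟩,⟨1,[(0,1),(9,0),(25,0)]⟩⟩,⟨true,0,⟨0,[(44,0)]⟩,⟨0,[(43,0)]⟩⟩,⟨false,0,⟨0,[(1,0)]⟩,⟨1,
  [(25,1),(10,0),(9,0)]⟩⟩,[]⟩)) (.Q [0,0,1,0,0,0,0,0,-1,1,0,-1] (.p false [0,0,0,0,1] [1] (⟨0,[(26,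
  0)]⟩,⟨0,[(25,0)]⟩) .k 1 (⟨0,[]⟩,⟨0,[]⟩) .k .k) (.Q [1,1,0,-1,-1,0,0,0,1,0,0,1] (.p true [0,0,0,0,
  1] [] (⟨0,[(27,0)]⟩,⟨0,[(26,0)]⟩) .k 0 (⟨0,[]⟩,⟨0,[]⟩) .k .k) (.Q [0,0,1,0,-1,0,0,0,1,0,0,1] (.p
  true [0,0,0,0,1] [] (⟨0,[(28,0)]⟩,⟨0,[(27,0)]⟩) .k 0 (⟨0,[]⟩,⟨0,[]⟩) .k .k) (.R ⟨1,false,false,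
  false,[1,0,0,0,-1],[1,-1],[-1],(⟨0,[(28,0)]⟩,⟨0,[(29,0)]⟩),(⟨0,[(39,0)]⟩,⟨0,[(40,0)]⟩),⟨0,[(4,
  0)]⟩,.k,.k,(.r (-1) ⟨9,[(21,4),(4,1),(0,1),(20,2),(1,0)]⟩ ⟨1,[(12,0),(13,0),(0,0)]⟩),(.r 0 ⟨3,
  [(12,0),(13,0),(0,0),(15,1),(6,1)]⟩ ⟨7,[(9,3),(11,1),(1,1),(14,0),(9,0)]⟩),.k,.k,⟨false,0,⟨1,[(7,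
  0),(4,0),(24,1)]⟩,⟨7,[(9,3),(11,1),(1,1),(14,0),(9,0)]⟩⟩,⟨true,(-1),⟨0,[(0,0)]⟩,⟨0,[(26,0)]⟩⟩,
  ⟨false,1,⟨1,[(26,0),(0,0),(20,0)]⟩,⟨0,[]⟩⟩,⟨false,0,⟨0,[(1,0),(46,0)]⟩,⟨0,[(26,0),(19,0)]⟩⟩,⟨true,
  0,⟨0,[(46,0)]⟩,⟨0,[(45,0)]⟩⟩,⟨false,0,⟨1,[(0,1),(46,0),(0,0)]⟩,⟨8,[(2,1),(4,0),(18,6),(10,1),(4,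
  0)]⟩⟩,[.e ⟨false,1,⟨9,[(26,3),(0,3),(19,4),(0,0),(1,1)]⟩,⟨0,[]⟩⟩ ⟨false,0,⟨1,[(1,1),(45,0),(0,
  0)]⟩,⟨0,[(26,0),(19,0)]⟩⟩,.o ⟨false,1,⟨22,[(5,6),(3,3),(1,2),(8,2),(0,4),(1,3),(24,16)]⟩,⟨1,[(12,
  0),(25,0),(5,1)]⟩⟩,.o ⟨false,1,⟨0,[(26,0)]⟩,⟨5,[(0,1),(2,3),(38,0),(4,0)]⟩⟩,.a ⟨true,0,⟨0,[(2,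
  0)]⟩,⟨0,[(0,0),(46,0)]⟩⟩ ⟨false,1,⟨1,[(7,0),(29,1),(10,0)]⟩,⟨2,[(5,0),(17,0),(9,0)]⟩⟩ ⟨true,0,⟨1,
  [(1,1),(45,0),(0,0)]⟩,⟨1,[(2,1),(9,0),(25,0),(5,1)]⟩⟩]⟩) (.I [1,1,-1,-1] (.C [(0,0),(0,0),(0,0),
  (10,0),(35,0)]) (.C [(0,0),(0,0),(0,0)]))) (.Q [0,0,0,0,0,0,0,0,1,-1,0,1] (.p true [0,0,0,0,1]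
  [1] (⟨0,[(28,0)]⟩,⟨0,[(27,0)]⟩) .k 1 (⟨0,[]⟩,⟨0,[]⟩) .k .k) (.R ⟨1,false,false,true,[1,0,0,0,-1],
  [0,0,1],[-1],(⟨0,[(28,0)]⟩,⟨0,[(29,0)]⟩),(⟨0,[(36,0)]⟩,⟨0,[(35,0)]⟩),⟨0,[(4,0)]⟩,.k,.k,(.r (-1)
  ⟨9,[(21,4),(4,1),(0,1),(20,2),(1,0)]⟩ ⟨1,[(12,0),(13,0),(0,0)]⟩),.k,(.r (-1) ⟨17,[(9,5),(1,5),(5,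
  11),(20,1),(3,0),(4,11),(0,2)]⟩ ⟨5,[(12,0),(5,1),(4,1),(7,3),(6,0),(4,3)]⟩),.k,⟨true,1,⟨0,[(5,0),
  (1,1),(3,0),(0,0),(24,3),(10,0)]⟩,⟨0,[(10,0)]⟩⟩,⟨false,1,⟨0,[(0,0),(32,0),(13,0)]⟩,⟨1,[(1,1),(8,
  0),(0,0),(18,0)]⟩⟩,⟨false,1,⟨1,[(26,0),(0,0),(20,0)]⟩,⟨0,[]⟩⟩,⟨true,0,⟨0,[(0,0),(30,0)]⟩,⟨1,[(1,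
  1),(9,0),(3,0)]⟩⟩,⟨true,0,⟨0,[(46,0)]⟩,⟨0,[(45,0)]⟩⟩,⟨true,0,⟨0,[(0,0),(30,0),(14,0)]⟩,⟨0,[(1,0),
  (9,0)]⟩⟩,[.a ⟨true,0,⟨0,[(31,0)]⟩,⟨0,[(15,0),(32,0)]⟩⟩ ⟨false,1,⟨9,[(26,3),(0,3),(19,4),(0,0),(1,
  1)]⟩,⟨0,[]⟩⟩ ⟨true,0,⟨0,[(0,0),(30,0)]⟩,⟨0,[(1,0),(9,0),(31,0)]⟩⟩,.o ⟨false,1,⟨1,[(31,1),(6,0),(9,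
  0)]⟩,⟨1,[(15,1),(22,0),(9,0)]⟩⟩,.o ⟨false,1,⟨0,[(26,0)]⟩,⟨0,[(0,0)]⟩⟩,.e ⟨false,1,⟨1,[(7,0),(29,
  1),(10,0)]⟩,⟨2,[(5,0),(17,0),(9,0)]⟩⟩ ⟨false,1,⟨1,[(0,1),(30,1),(15,0),(0,0)]⟩,⟨0,[(1,0),(9,0),
  (31,0)]⟩⟩]⟩) (.S ⟨1,0,[-1],[1,0,0,0,-1],[0,1,0,-1],(⟨0,[(28,0)]⟩,⟨0,[(29,0)]⟩),⟨0,[(4,0)]⟩,.k,(.r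
  (-1) ⟨9,[(21,4),(4,1),(0,1),(20,2),(1,0)]⟩ ⟨1,[(12,0),(13,0),(0,0)]⟩),⟨true,0,⟨0,[(45,0)]⟩,⟨0,
  [(46,0)]⟩⟩,⟨false,1,⟨1,[(26,0),(0,0),(20,0)]⟩,⟨0,[]⟩⟩,⟨false,0,⟨0,[]⟩,⟨1,[(26,0),(0,0),(20,0)]⟩⟩,
  ⟨true,0,⟨0,[(46,0)]⟩,⟨0,[(45,0)]⟩⟩,[.o ⟨false,1,⟨7,[(1,1),(0,1),(18,0),(4,3),(15,0),(7,0)]⟩,⟨0,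
  [(3,0)]⟩⟩,.o ⟨false,1,⟨5,[(0,5),(37,1),(3,0),(5,2)]⟩,⟨5,[(3,4),(1,0),(21,0),(6,0),(6,2)]⟩⟩,.a
  ⟨true,0,⟨0,[(0,0)]⟩,⟨0,[(27,0)]⟩⟩ ⟨true,0,⟨0,[(45,0)]⟩,⟨0,[(46,0)]⟩⟩ ⟨false,1,⟨4,[(26,1),(0,1),
  (20,2),(1,0)]⟩,⟨0,[]⟩⟩,.e ⟨false,1,⟨7,[(9,3),(11,1),(1,1),(14,0),(9,0)]⟩,⟨0,[(43,0)]⟩⟩ ⟨false,1,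
  ⟨1,[(7,0),(29,1),(10,0)]⟩,⟨2,[(5,0),(17,0),(9,0)]⟩⟩]⟩))) (.R ⟨1,false,false,false,[1,0,0,0,-1],[0,
  1],[0,1,0,-1],(⟨0,[(26,0)]⟩,⟨0,[(27,0)]⟩),(⟨0,[(38,0)]⟩,⟨0,[(37,0)]⟩),⟨0,[(2,0)]⟩,.k,.k,(.r (-1)
  ⟨9,[(19,4),(4,1),(0,1),(20,2),(1,0)]⟩ ⟨1,[(10,0),(13,0),(0,0)]⟩),(.r (-1) ⟨9,[(19,4),(4,1),(0,1),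
  (20,2),(1,0)]⟩ ⟨1,[(10,0),(13,0),(0,0)]⟩),(.r (-2) ⟨5,[(7,3),(11,3),(1,1),(2,0),(0,0),(10,0),(9,
  1)]⟩ ⟨0,[(10,0)]⟩),.k,⟨false,1,⟨0,[(19,0)]⟩,⟨0,[(41,0),(2,0)]⟩⟩,⟨true,0,⟨0,[(0,0)]⟩,⟨1,[(8,0),(0,
  0),(14,1),(3,0),(2,1),(9,1)]⟩⟩,⟨true,0,⟨0,[(43,0)]⟩,⟨0,[(44,0)]⟩⟩,⟨false,0,⟨0,[(0,0),(40,0)]⟩,⟨8,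
  [(9,2),(7,2),(6,8),(3,3),(2,3),(3,1),(1,1),(8,2)]⟩⟩,⟨false,0,⟨0,[]⟩,⟨1,[(24,0),(0,0),(20,0)]⟩⟩,
  ⟨false,0,⟨0,[(0,0),(40,0),(2,0)]⟩,⟨8,[(9,5),(7,5),(6,8),(3,1),(2,1),(3,0),(1,0),(8,5)]⟩⟩,[.a
  ⟨true,0,⟨0,[(44,0)]⟩,⟨2,[(9,0),(7,0),(10,1),(2,1),(14,0)]⟩⟩ ⟨true,0,⟨0,[(43,0)]⟩,⟨0,[(41,0)]⟩⟩
  ⟨false,0,⟨0,[(0,0),(43,0)]⟩,⟨2,[(9,0),(7,0),(6,2),(3,1),(2,1),(14,0)]⟩⟩,.o ⟨false,1,⟨1,[(36,0),(7,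
  1),(1,0)]⟩,⟨0,[(43,0)]⟩⟩,.o ⟨false,1,⟨0,[(24,0)]⟩,⟨2,[(0,0),(0,1),(45,0)]⟩⟩,.o ⟨false,1,⟨2,[(3,0),
  (17,0),(2,2),(6,0)]⟩,⟨0,[(0,0)]⟩⟩]⟩))) (.Q [0,0,2,0,-1,0,0,0,-1,1,0,-1] (.p false [0,0,0,0,1] [1]
  (⟨0,[(25,0)]⟩,⟨0,[(24,0)]⟩) .k 1 (⟨0,[]⟩,⟨0,[]⟩) .k .k) (.Q [0,0,1,0,0,0,0,0,1,-1,0,1] (.p true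
  [0,0,0,0,1] [1] (⟨0,[(26,0)]⟩,⟨0,[(25,0)]⟩) .k 1 (⟨0,[]⟩,⟨0,[]⟩) .k .k) (.S ⟨1,0,[1],[0,0,0,0,1],
  [0,1],(⟨0,[(27,0)]⟩,⟨0,[(26,0)]⟩),⟨2,[(2,0),(1,0),(1,0),(20,1)]⟩,.k,(.r (-1) ⟨7,[(7,3),(11,1),(1,
  1),(14,0),(9,0)]⟩ ⟨3,[(10,0),(13,0),(0,0),(15,1),(6,1)]⟩),⟨true,0,⟨0,[(48,0)]⟩,⟨0,[]⟩⟩,⟨false,1,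
  ⟨1,[(24,0),(0,0),(20,0)]⟩,⟨0,[]⟩⟩,⟨false,0,⟨1,[(5,0),(4,0),(24,1)]⟩,⟨22,[(3,6),(3,3),(1,2),(8,2),
  (0,4),(1,3),(24,16)]⟩⟩,⟨true,0,⟨0,[(44,0)]⟩,⟨0,[(43,0)]⟩⟩,[.a ⟨true,0,⟨0,[(25,0)]⟩,⟨0,[(1,0),(43,
  0)]⟩⟩ ⟨false,0,⟨0,[(42,0)]⟩,⟨1,[(24,0),(0,0),(20,0)]⟩⟩ ⟨true,0,⟨0,[]⟩,⟨2,[(3,0),(17,0),(9,0)]⟩⟩,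
  .o ⟨false,1,⟨1,[(25,1),(10,0),(9,0)]⟩,⟨1,[(1,1),(34,0),(5,1),(2,0)]⟩⟩,.e ⟨true,0,⟨0,[(48,0)]⟩,⟨0,
  []⟩⟩ ⟨true,0,⟨0,[]⟩,⟨0,[(48,0)]⟩⟩,.o ⟨false,0,⟨0,[(0,0)]⟩,⟨1,[(1,1),(34,0),(8,2)]⟩⟩]⟩) (.S ⟨1,0,
  [1],[0,0,0,0,1],[1,1],(⟨0,[(27,0)]⟩,⟨0,[(26,0)]⟩),⟨2,[(2,0),(1,0),(1,0),(20,1)]⟩,.k,(.r (-1) ⟨7,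
  [(7,3),(11,1),(1,1),(14,0),(9,0)]⟩ ⟨3,[(10,0),(13,0),(0,0),(15,1),(6,1)]⟩),⟨true,0,⟨0,[(48,0)]⟩,
  ⟨0,[]⟩⟩,⟨false,1,⟨1,[(24,0),(0,0),(20,0)]⟩,⟨0,[]⟩⟩,⟨false,0,⟨0,[(44,0)]⟩,⟨22,[(3,6),(3,3),(1,2),
  (8,2),(0,4),(1,3),(24,16)]⟩⟩,⟨true,0,⟨0,[(44,0)]⟩,⟨0,[(43,0)]⟩⟩,[.a ⟨true,0,⟨0,[(25,0)]⟩,⟨10,[(0,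
  5),(0,2),(22,1),(10,1),(1,1),(8,0),(1,1)]⟩⟩ ⟨false,0,⟨0,[(42,0)]⟩,⟨1,[(24,0),(0,0),(20,0)]⟩⟩
  ⟨true,0,⟨0,[]⟩,⟨2,[(3,0),(17,0),(9,0)]⟩⟩,.o ⟨false,1,⟨1,[(25,1),(10,0),(9,0)]⟩,⟨5,[(0,2),(0,2),
  (34,1),(2,2),(0,0)]⟩⟩,.a ⟨true,0,⟨0,[(25,0)]⟩,⟨3,[(0,1),(0,0),(22,0),(3,0),(2,0)]⟩⟩ ⟨false,0,⟨0,
  []⟩,⟨1,[(24,0),(0,0),(20,0)]⟩⟩ ⟨true,0,⟨0,[]⟩,⟨0,[(48,0)]⟩⟩,.a ⟨true,0,⟨2,[(3,0),(17,0),(3,2),(5,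
  0)]⟩,⟨0,[(0,0)]⟩⟩ ⟨true,0,⟨0,[(42,0)]⟩,⟨2,[(3,0),(17,0),(9,0)]⟩⟩ ⟨false,1,⟨1,[(45,0),(0,0)]⟩,⟨2,
  [(3,0),(17,0),(9,0)]⟩⟩]⟩)) (.Q [0,0,0,0,0,0,0,0,1,-1,0,1] (.p true [0,0,0,0,1] [1] (⟨0,[(26,0)]⟩,
  ⟨0,[(25,0)]⟩) .k 1 (⟨0,[]⟩,⟨0,[]⟩) .k .k) (.Q [1,0,0,0,-1,0,-1,-1,1,0,-1,1] (.p false [0,0,1] [0,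
  0,0,0,1] (⟨0,[(34,0)]⟩,⟨0,[(33,0)]⟩) .k 2 (⟨0,[(27,0)]⟩,⟨0,[(26,0)]⟩) .k (.r 0 ⟨1,[(5,0),(2,1),
  (26,1),(10,0)]⟩ ⟨1,[(15,1),(8,0),(0,0),(19,0)]⟩)) (.Q [0,-1,1,1,-1,0,-1,-1,1,0,-1,1] (.p false [0,
  0,1] [0,0,0,0,1] (⟨0,[(35,0)]⟩,⟨0,[(34,0)]⟩) .k 2 (⟨0,[(28,0)]⟩,⟨0,[(27,0)]⟩) .k (.r 0 ⟨1,[(6,0),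
  (2,1),(26,1),(10,0)]⟩ ⟨1,[(16,1),(8,0),(0,0),(19,0)]⟩)) (.R ⟨1,false,false,true,[0,0,0,0,1],[0,-1,
  1],[],(⟨0,[(29,0)]⟩,⟨0,[(28,0)]⟩),(⟨0,[(25,0)]⟩,⟨0,[(35,0),(4,0)]⟩),⟨2,[(4,0),(1,0),(1,0),(20,
  1)]⟩,.k,.k,(.r (-1) ⟨7,[(9,3),(11,1),(1,1),(14,0),(9,0)]⟩ ⟨3,[(12,0),(13,0),(0,0),(15,1),(6,1)]⟩),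
  (.r 0 ⟨0,[(17,0),(28,0)]⟩ ⟨1,[(20,1),(26,0),(0,0)]⟩),.k,.k,⟨false,1,⟨1,[(17,1),(28,1),(0,0),(0,
  0)]⟩,⟨0,[(14,0),(29,0)]⟩⟩,⟨true,1,⟨0,[(26,0),(6,0)]⟩,⟨6,[(0,0),(0,5),(5,0),(2,0),(3,0),(3,4),(18,
  1)]⟩⟩,⟨false,1,⟨4,[(26,1),(0,1),(20,2),(1,0)]⟩,⟨0,[]⟩⟩,⟨true,1,⟨0,[(14,0),(11,0),(6,0),(10,0)]⟩,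
  ⟨0,[(0,0),(43,0)]⟩⟩,⟨true,0,⟨1,[(7,0),(4,0),(24,1)]⟩,⟨0,[(45,0)]⟩⟩,⟨true,1,⟨5,[(7,0),(2,0),(15,5),
  (4,4),(1,0),(3,1)]⟩,⟨0,[(1,0)]⟩⟩,[.a ⟨true,0,⟨0,[(19,0)]⟩,⟨0,[(16,0),(31,0)]⟩⟩ ⟨false,1,⟨1,[(26,
  0),(0,0),(19,0)]⟩,⟨0,[]⟩⟩ ⟨true,1,⟨0,[(19,0),(6,0)]⟩,⟨0,[(0,0)]⟩⟩,.o ⟨false,1,⟨1,[(19,1),(18,0),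
  (9,0)]⟩,⟨1,[(16,1),(21,0),(9,0)]⟩⟩,.o ⟨false,0,⟨0,[(2,0)]⟩,⟨0,[(26,0)]⟩⟩,.e ⟨false,1,⟨1,[(47,0),
  (0,0)]⟩,⟨2,[(5,0),(17,0),(9,0)]⟩⟩ ⟨false,2,⟨0,[(9,0),(8,0),(7,0)]⟩,⟨0,[(0,0)]⟩⟩]⟩) (.I [1,1,-1,
  -1] (.C [(0,0),(0,0),(0,0),(10,0),(35,0)]) (.C [(0,0),(0,0),(0,0)]))) (.R ⟨0,false,false,false,[1,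
  0,0,0,-1],[0,1],[1,1,1],(⟨0,[(27,0)]⟩,⟨0,[(28,0)]⟩),(⟨0,[(39,0)]⟩,⟨0,[(38,0)]⟩),⟨0,[(3,0)]⟩,.k,.k,
  (.r (-1) ⟨9,[(20,4),(4,1),(0,1),(20,2),(1,0)]⟩ ⟨1,[(11,0),(13,0),(0,0)]⟩),(.r (-1) ⟨9,[(20,4),(4,
  1),(0,1),(20,2),(1,0)]⟩ ⟨1,[(11,0),(13,0),(0,0)]⟩),.k,.k,⟨true,0,⟨0,[(44,0)]⟩,⟨1,[(11,0),(35,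
  0)]⟩⟩,⟨false,1,⟨0,[(2,0)]⟩,⟨1,[(0,1),(9,0),(3,0),(27,1)]⟩⟩,⟨false,0,⟨2,[(4,0),(17,0),(9,0)]⟩,⟨1,
  [(6,0),(29,1),(10,0)]⟩⟩,⟨true,0,⟨1,[(1,0),(0,0),(8,0)]⟩,⟨1,[(0,1),(9,0),(3,0)]⟩⟩,⟨false,0,⟨0,[]⟩,
  ⟨0,[]⟩⟩,⟨false,0,⟨0,[]⟩,⟨0,[]⟩⟩,[.a ⟨true,0,⟨0,[(45,0)]⟩,⟨2,[(10,0),(7,0),(10,1),(2,1),(14,0)]⟩⟩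
  ⟨false,0,⟨0,[(49,0)]⟩,⟨1,[(46,0),(0,0)]⟩⟩ ⟨true,0,⟨1,[(1,0),(0,0),(8,0)]⟩,⟨0,[(0,0),(9,0),(31,
  0)]⟩⟩,.o ⟨false,1,⟨1,[(37,0),(7,1),(1,0)]⟩,⟨0,[(44,0)]⟩⟩,.o ⟨false,1,⟨0,[(25,0)]⟩,⟨0,[(1,0)]⟩⟩,.e
  ⟨false,0,⟨0,[]⟩,⟨1,[(25,0),(0,0),(20,0)]⟩⟩ ⟨false,1,⟨0,[(2,0),(39,0)]⟩,⟨0,[(0,0),(9,0),(31,
  0)]⟩⟩]⟩)) (.R ⟨1,false,false,true,[0,0,0,0,1],[0,-1,1],[0,1],(⟨0,[(27,0)]⟩,⟨0,[(26,0)]⟩),(⟨0,[(23,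
  0)]⟩,⟨0,[(33,0),(4,0)]⟩),⟨2,[(2,0),(1,0),(1,0),(20,1)]⟩,.k,.k,(.r (-1) ⟨7,[(7,3),(11,1),(1,1),(14,
  0),(9,0)]⟩ ⟨3,[(10,0),(13,0),(0,0),(15,1),(6,1)]⟩),(.r 0 ⟨0,[(15,0),(28,0)]⟩ ⟨1,[(18,1),(26,0),(0,
  0)]⟩),.k,.k,⟨true,0,⟨0,[(15,0),(28,0)]⟩,⟨0,[(12,0)]⟩⟩,⟨false,1,⟨1,[(0,1),(30,1),(4,0),(8,0)]⟩,⟨1,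
  [(1,1),(6,0),(0,0),(18,0),(12,1)]⟩⟩,⟨true,0,⟨0,[(48,0)]⟩,⟨0,[]⟩⟩,⟨false,1,⟨5,[(0,5),(16,5),(18,1),
  (3,0),(5,2)]⟩,⟨1,[(1,1),(7,0),(3,0),(27,3)]⟩⟩,⟨false,0,⟨1,[(5,0),(4,0),(24,1)]⟩,⟨22,[(3,6),(3,3),
  (1,2),(8,2),(0,4),(1,3),(24,16)]⟩⟩,⟨false,1,⟨5,[(0,5),(28,5),(6,1),(3,0),(5,2)]⟩,⟨0,[(1,0),(7,0),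
  (31,1)]⟩⟩,[.e ⟨false,0,⟨0,[(42,0)]⟩,⟨1,[(24,0),(0,0),(20,0)]⟩⟩ ⟨false,1,⟨1,[(0,1),(16,1),(18,0),
  (8,0)]⟩,⟨1,[(1,1),(7,0),(3,0),(27,3)]⟩⟩,.o ⟨false,1,⟨1,[(17,1),(18,0),(9,0)]⟩,⟨1,[(14,1),(21,0),
  (9,0)]⟩⟩,.a ⟨true,0,⟨0,[(25,0)]⟩,⟨0,[(0,0)]⟩⟩ ⟨true,0,⟨0,[(48,0)]⟩,⟨0,[]⟩⟩ ⟨false,1,⟨1,[(0,1),(16,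
  1),(18,0),(9,0)]⟩,⟨1,[(1,1),(7,0),(3,0),(27,3)]⟩⟩,.o ⟨false,0,⟨2,[(1,0),(1,0),(4,0),(0,0),(15,1),
  (10,0),(4,1)]⟩,⟨1,[(0,1),(35,0),(8,0)]⟩⟩]⟩)))))

theorem ok22 : chk K t22 l21 = true := by decide +kernel

noncomputable def t23 : Tre :=
  (.Q [0,0,-2,0,0,0,-1,0,0,1,-1] (.p false [0,0,1] [1] (⟨0,[(30,0)]⟩,⟨0,[(29,0)]⟩) .k 1 (⟨0,[]⟩,⟨0,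
  []⟩) .k .k) (.R ⟨0,false,false,true,[0,-1,1],[1,-1],[0,1,0,-1],(⟨0,[(20,0)]⟩,⟨0,[(30,0),(4,0)]⟩),
  (⟨0,[(34,0)]⟩,⟨0,[(35,0)]⟩),⟨0,[(1,0)]⟩,.k,.k,(.x 0 ⟨1,[(1,1),(26,2),(0,0)]⟩ ⟨5,[(0,1),(1,2),(15,
  1),(1,5),(12,1),(8,0)]⟩),.k,.k,.k,⟨true,0,⟨1,[(28,0),(0,0)]⟩,⟨0,[]⟩⟩,⟨false,0,⟨0,[(25,0)]⟩,⟨1,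
  [(28,1),(4,0),(8,0)]⟩⟩,⟨false,0,⟨1,[(2,1),(3,1),(0,1),(20,1),(3,3),(4,0),(5,0)]⟩,⟨1,[(13,1),(28,
  0),(0,0)]⟩⟩,⟨true,(-1),⟨0,[(10,0)]⟩,⟨1,[(26,1),(6,0),(9,0)]⟩⟩,⟨false,0,⟨0,[]⟩,⟨0,[]⟩⟩,⟨false,0,⟨0,
  []⟩,⟨0,[]⟩⟩,[.o ⟨false,0,⟨0,[(40,0)]⟩,⟨1,[(33,0),(7,1),(1,0)]⟩⟩,.a ⟨true,0,⟨2,[(6,0),(7,0),(10,1),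
  (2,1),(14,0)]⟩,⟨0,[(41,0)]⟩⟩ ⟨false,1,⟨7,[(4,3),(11,1),(1,1),(14,0),(9,0)]⟩,⟨0,[(41,0)]⟩⟩ ⟨true,0,
  ⟨10,[(0,0),(5,2),(2,2),(6,0),(8,6),(17,1)]⟩,⟨1,[(7,0),(20,1),(4,0)]⟩⟩,.a ⟨true,0,⟨0,[(28,0)]⟩,⟨0,
  [(25,0)]⟩⟩ ⟨true,0,⟨0,[(40,0)]⟩,⟨0,[(41,0)]⟩⟩ ⟨false,0,⟨10,[(0,0),(5,2),(2,2),(6,0),(8,6),(17,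
  1)]⟩,⟨1,[(28,1),(4,0),(7,1),(1,0)]⟩⟩,.a ⟨true,0,⟨1,[(28,2),(0,0)]⟩,⟨0,[(0,0)]⟩⟩ ⟨false,1,⟨7,[(4,
  3),(11,1),(1,1),(14,0),(9,0)]⟩,⟨0,[(38,0)]⟩⟩ ⟨true,0,⟨4,[(0,2),(5,0),(8,0),(0,0),(8,0),(10,0)]⟩,
  ⟨1,[(7,0),(20,1),(4,0)]⟩⟩]⟩) (.Q [-1,0,1,0,0,0,1,0,-1,0,1,-1] (.p true [0,0,1] [0,0,0,0,1] (⟨0,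
  [(31,0)]⟩,⟨0,[(30,0)]⟩) .k 2 (⟨0,[(24,0)]⟩,⟨0,[(23,0)]⟩) .k (.r 0 ⟨1,[(2,0),(2,1),(26,1),(10,0)]⟩
  ⟨1,[(12,1),(8,0),(0,0),(19,0)]⟩)) (.R ⟨0,false,false,false,[0,-1,1],[0,0,0,0,1],[1,0,1],(⟨0,[(21,
  0)]⟩,⟨0,[(31,0),(4,0)]⟩),(⟨0,[(25,0)]⟩,⟨0,[(24,0)]⟩),⟨0,[(2,0)]⟩,.k,.k,(.x 0 ⟨2,[(1,0),(0,2),(16,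
  0),(9,3)]⟩ ⟨1,[(3,0),(17,1),(4,1),(7,0)]⟩),(.r (-1) ⟨1,[(16,1),(26,0),(0,0)]⟩ ⟨0,[(13,0),(28,
  0)]⟩),.k,.k,⟨true,0,⟨2,[(1,0),(17,0),(9,0)]⟩,⟨0,[]⟩⟩,⟨false,1,⟨1,[(23,1),(2,1),(7,0),(8,0)]⟩,⟨0,
  [(0,0)]⟩⟩,⟨false,0,⟨0,[(13,0),(25,0)]⟩,⟨0,[(10,0),(32,0)]⟩⟩,⟨true,0,⟨1,[(12,1),(10,1),(10,0),(9,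
  0)]⟩,⟨0,[(0,0),(9,0),(29,0)]⟩⟩,⟨false,0,⟨0,[]⟩,⟨0,[]⟩⟩,⟨false,0,⟨0,[]⟩,⟨0,[]⟩⟩,[.e ⟨false,0,⟨0,
  []⟩,⟨1,[(22,0),(0,0),(19,0)]⟩⟩ ⟨false,1,⟨1,[(23,1),(2,1),(7,0),(8,0)]⟩,⟨0,[(0,0)]⟩⟩,.o ⟨false,1,
  ⟨1,[(23,1),(10,0),(9,0)]⟩,⟨3,[(0,3),(5,0),(4,0),(14,2),(7,1),(5,1)]⟩⟩,.a ⟨true,0,⟨0,[(29,0)]⟩,⟨0,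
  [(26,0)]⟩⟩ ⟨true,0,⟨2,[(1,0),(17,0),(9,0)]⟩,⟨0,[(40,0)]⟩⟩ ⟨false,1,⟨1,[(23,1),(2,1),(7,0),(9,0)]⟩,
  ⟨0,[(0,0)]⟩⟩,.o ⟨false,0,⟨0,[(1,0)]⟩,⟨1,[(26,1),(7,0),(8,0)]⟩⟩]⟩) (.Q [1,-1,0,0,0,0,0,0,1,-1,0,1]
  (.p true [0,0,0,0,1] [1] (⟨0,[(25,0)]⟩,⟨0,[(24,0)]⟩) .k 1 (⟨0,[]⟩,⟨0,[]⟩) .k .k) (.Q [0,0,0,0,0,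
  -1,0,0,0,1,0,-1] (.ed true [0,1,0,0,1] .k) (.R ⟨1,false,false,false,[1,0,0,0,-1],[0,1],[0,1,0,-1],
  (⟨0,[(26,0)]⟩,⟨0,[(27,0)]⟩),(⟨0,[(38,0)]⟩,⟨0,[(37,0)]⟩),⟨0,[(0,0)]⟩,.k,.k,(.r (-1) ⟨9,[(19,4),(4,
  1),(0,1),(20,2),(1,0)]⟩ ⟨1,[(10,0),(13,0),(0,0)]⟩),(.r (-1) ⟨9,[(19,4),(4,1),(0,1),(20,2),(1,0)]⟩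
  ⟨1,[(10,0),(13,0),(0,0)]⟩),(.r (-2) ⟨5,[(7,3),(11,3),(1,1),(2,0),(0,0),(10,0),(9,1)]⟩ ⟨0,[(10,
  0)]⟩),.k,⟨false,1,⟨0,[(19,0)]⟩,⟨0,[(41,0),(2,0)]⟩⟩,⟨true,0,⟨0,[(1,0),(40,0)]⟩,⟨1,[(8,0),(0,0),(14,
  1),(3,0),(2,1),(9,1)]⟩⟩,⟨true,0,⟨0,[(43,0)]⟩,⟨0,[(44,0)]⟩⟩,⟨false,0,⟨0,[(1,0),(42,0)]⟩,⟨8,[(9,2),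
  (7,2),(6,8),(3,3),(2,3),(3,1),(1,1),(8,2)]⟩⟩,⟨false,0,⟨0,[]⟩,⟨1,[(24,0),(0,0),(20,0)]⟩⟩,⟨false,0,
  ⟨0,[(1,0),(42,1)]⟩,⟨8,[(9,5),(7,5),(6,8),(3,1),(2,1),(3,0),(1,0),(8,5)]⟩⟩,[.a ⟨true,0,⟨0,[(44,
  0)]⟩,⟨2,[(9,0),(7,0),(10,1),(2,1),(14,0)]⟩⟩ ⟨true,0,⟨0,[(43,0)]⟩,⟨0,[(41,0)]⟩⟩ ⟨false,0,⟨0,[(1,0),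
  (40,0),(1,0)]⟩,⟨2,[(9,0),(7,0),(6,2),(3,1),(2,1),(14,0)]⟩⟩,.o ⟨false,1,⟨1,[(36,0),(7,1),(1,0)]⟩,
  ⟨0,[(43,0)]⟩⟩,.o ⟨false,1,⟨0,[(24,0)]⟩,⟨34,[(1,23),(1,2),(4,2),(4,1),(11,10),(4,0),(8,8),(0,4)]⟩⟩,
  .o ⟨false,1,⟨2,[(3,0),(17,0),(2,2),(6,0)]⟩,⟨0,[(1,0),(40,0)]⟩⟩]⟩) (.R ⟨0,false,false,false,[1,0,0,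
  0,-1],[0,1],[0,1,0,-1],(⟨0,[(26,0)]⟩,⟨0,[(27,0)]⟩),(⟨0,[(38,0)]⟩,⟨0,[(37,0)]⟩),⟨0,[(0,0)]⟩,.k,.k,
  (.r (-1) ⟨9,[(19,4),(4,1),(0,1),(20,2),(1,0)]⟩ ⟨1,[(10,0),(13,0),(0,0)]⟩),(.r (-1) ⟨9,[(19,4),(4,
  1),(0,1),(20,2),(1,0)]⟩ ⟨1,[(10,0),(13,0),(0,0)]⟩),.k,.k,⟨false,1,⟨0,[(19,0)]⟩,⟨0,[(41,0),(2,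
  0)]⟩⟩,⟨true,0,⟨0,[(1,0),(40,0)]⟩,⟨1,[(8,0),(0,0),(14,1),(3,0),(2,1),(9,1)]⟩⟩,⟨true,0,⟨0,[(43,0)]⟩,
  ⟨0,[(44,0)]⟩⟩,⟨false,0,⟨0,[(1,0),(42,0)]⟩,⟨8,[(9,2),(7,2),(6,8),(3,3),(2,3),(3,1),(1,1),(8,2)]⟩⟩,
  ⟨false,0,⟨0,[]⟩,⟨0,[]⟩⟩,⟨false,0,⟨0,[]⟩,⟨0,[]⟩⟩,[.a ⟨true,0,⟨0,[(44,0)]⟩,⟨2,[(9,0),(7,0),(10,1),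
  (2,1),(14,0)]⟩⟩ ⟨true,0,⟨0,[(43,0)]⟩,⟨0,[(41,0)]⟩⟩ ⟨false,0,⟨0,[(1,0),(40,0),(1,0)]⟩,⟨2,[(9,0),(7,
  0),(6,2),(3,1),(2,1),(14,0)]⟩⟩,.o ⟨false,1,⟨1,[(36,0),(7,1),(1,0)]⟩,⟨0,[(43,0)]⟩⟩,.o ⟨false,1,⟨0,
  [(24,0)]⟩,⟨34,[(1,23),(1,2),(4,2),(4,1),(11,10),(4,0),(8,8),(0,4)]⟩⟩,.o ⟨false,1,⟨2,[(3,0),(17,0),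
  (2,2),(6,0)]⟩,⟨0,[(1,0),(40,0)]⟩⟩]⟩)) (.Q [0,0,1,0,0,0,0,0,1,-1,0,1] (.p true [0,0,0,0,1] [1] (⟨0,
  [(26,0)]⟩,⟨0,[(25,0)]⟩) .k 1 (⟨0,[]⟩,⟨0,[]⟩) .k .k) (.I [0,0,-2,0,1,-2,0,0,-1] (.Q [0,0,0,0,0,-1,
  0,0,0,0,0,1] (.ed false [1,-1,0,0,1] .k) (.Q [0,0,-1,0,1,0,0,0,-1,0,0,-1] (.p false [0,0,0,0,1]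
  [] (⟨0,[(29,0)]⟩,⟨0,[(28,0)]⟩) .k 0 (⟨0,[]⟩,⟨0,[]⟩) .k .k) (.Q [-1,0,0,0,0,0,0,0,-1,1,0,-1] (.p
  false [0,0,0,0,1] [1] (⟨0,[(30,0)]⟩,⟨0,[(29,0)]⟩) .k 1 (⟨0,[]⟩,⟨0,[]⟩) .k .k) (.S ⟨1,0,[1,1],[0,0,
  0,0,1],[],(⟨0,[(31,0)]⟩,⟨0,[(30,0)]⟩),⟨0,[(2,0)]⟩,.k,(.r (-1) ⟨7,[(11,3),(11,1),(1,1),(14,0),(9,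
  0)]⟩ ⟨3,[(14,0),(13,0),(0,0),(15,1),(6,1)]⟩),⟨false,1,⟨4,[(28,1),(0,1),(20,2),(1,0)]⟩,⟨0,[]⟩⟩,
  ⟨true,0,⟨0,[(52,0)]⟩,⟨0,[]⟩⟩,⟨true,0,⟨1,[(9,0),(4,0),(24,1)]⟩,⟨0,[(47,0)]⟩⟩,⟨false,0,⟨0,[(48,0)]⟩,
  ⟨22,[(7,6),(3,3),(1,2),(8,2),(0,4),(1,3),(24,16)]⟩⟩,[.e ⟨false,1,⟨1,[(28,0),(0,0),(19,0)]⟩,⟨0,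
  []⟩⟩ ⟨false,0,⟨0,[(46,0)]⟩,⟨1,[(28,0),(0,0),(20,0)]⟩⟩,.a ⟨true,0,⟨0,[(29,0)]⟩,⟨0,[(0,0)]⟩⟩ ⟨false,
  1,⟨1,[(49,0),(0,0)]⟩,⟨0,[(52,0)]⟩⟩ ⟨true,0,⟨0,[]⟩,⟨2,[(7,0),(17,0),(9,0)]⟩⟩,.e ⟨false,1,⟨1,[(28,
  0),(0,0),(20,0)]⟩,⟨0,[]⟩⟩ ⟨false,0,⟨0,[]⟩,⟨1,[(28,0),(0,0),(20,0)]⟩⟩,.o ⟨false,0,⟨0,[(4,0)]⟩,⟨0,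
  [(1,0)]⟩⟩]⟩) (.I [0,0,-2,-1,1] (.S ⟨1,0,[0,1,-1,-1],[1,-1],[1,0,1],(⟨0,[(42,0)]⟩,⟨0,[(43,0)]⟩),⟨1,
  [(11,0),(16,0),(13,0)]⟩,.k,(.x 0 ⟨2,[(8,1),(17,1),(9,1),(6,5)]⟩ ⟨0,[(1,0),(2,0),(26,0)]⟩),⟨false,
  0,⟨2,[(8,0),(17,0),(9,0),(9,2)]⟩,⟨0,[(0,0)]⟩⟩,⟨true,0,⟨0,[(53,0)]⟩,⟨0,[]⟩⟩,⟨true,(-1),⟨0,[(15,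
  0)]⟩,⟨0,[(24,0)]⟩⟩,⟨false,0,⟨0,[(49,0)]⟩,⟨22,[(8,6),(3,3),(1,2),(8,2),(0,4),(1,3),(24,16)]⟩⟩,[.o
  ⟨false,0,⟨0,[(48,0)]⟩,⟨1,[(41,0),(7,1),(1,0)]⟩⟩,.e ⟨false,1,⟨1,[(29,0),(0,0),(20,0)]⟩,⟨0,[(47,
  0)]⟩⟩ ⟨false,1,⟨0,[(0,0)]⟩,⟨1,[(15,0),(13,0),(0,0)]⟩⟩,.o ⟨false,0,⟨2,[(8,0),(17,0),(9,0)]⟩,⟨1,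
  [(41,0),(8,0)]⟩⟩,.a ⟨true,(-1),⟨1,[(13,0),(0,0),(18,0),(2,1),(9,1)]⟩,⟨0,[(50,0)]⟩⟩ ⟨true,0,⟨0,[]⟩,
  ⟨0,[(53,0)]⟩⟩ ⟨false,1,⟨0,[(0,0)]⟩,⟨2,[(8,0),(17,0),(9,0),(9,2)]⟩⟩]⟩) (.Q [0,0,0,0,-1,0,-2,-2,0,1,
  -2] (.p false [0,0,1] [1,0,-1] (⟨0,[(39,0)]⟩,⟨0,[(38,0)]⟩) .k 2 (⟨0,[(38,0)]⟩,⟨0,[(39,0)]⟩) .k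
  (.r 0 ⟨0,[(0,1),(0,1),(2,1),(12,1),(13,1),(8,3)]⟩ ⟨0,[(20,1),(29,0)]⟩)) (.Q [-1,-1,0,0,1,0,0,0,-1,
  0,0,-1] (.p false [0,0,0,0,1] [] (⟨0,[(33,0)]⟩,⟨0,[(32,0)]⟩) .k 0 (⟨0,[]⟩,⟨0,[]⟩) .k .k) (.R ⟨1,
  false,false,true,[0,0,1],[0,0,0,0,1],[0,1,0,0,0,0,0,1],(⟨0,[(41,0)]⟩,⟨0,[(40,0)]⟩),(⟨0,[(34,0)]⟩,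
  ⟨0,[(33,0)]⟩),⟨0,[(30,0)]⟩,.k,.k,.k,.k,(.r (-1) ⟨1,[(25,1),(26,0),(0,0)]⟩ ⟨0,[(22,0),(28,0)]⟩),.k,
  ⟨true,0,⟨0,[(2,0),(0,0),(2,0),(12,0),(13,0),(8,1)]⟩,⟨0,[(22,0)]⟩⟩,⟨false,0,⟨21,[(1,0),(1,1),(5,
  19),(2,1),(0,0),(1,1),(14,0),(11,6),(10,0)]⟩,⟨0,[(4,0),(33,0)]⟩⟩,⟨true,0,⟨0,[(55,0)]⟩,⟨0,[]⟩⟩,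
  ⟨true,(-1),⟨0,[(3,0),(16,0)]⟩,⟨0,[(0,0),(35,0)]⟩⟩,⟨false,0,⟨0,[(51,0)]⟩,⟨22,[(10,6),(3,3),(1,2),
  (8,2),(0,4),(1,3),(24,16)]⟩⟩,⟨true,(-1),⟨0,[(3,0),(17,0)]⟩,⟨0,[(0,0),(23,0)]⟩⟩,[.o ⟨false,0,⟨1,
  [(3,0),(3,0),(38,0)]⟩,⟨0,[(0,0)]⟩⟩,.o ⟨false,0,⟨0,[(3,0)]⟩,⟨2,[(0,0),(30,1),(23,0)]⟩⟩,.o ⟨false,1,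
  ⟨1,[(38,1),(4,0),(8,0)]⟩,⟨0,[(27,0)]⟩⟩,.a ⟨true,0,⟨0,[(38,0)]⟩,⟨0,[(35,0)]⟩⟩ ⟨true,0,⟨0,[(15,0),
  (36,0)]⟩,⟨0,[(22,0)]⟩⟩ ⟨false,0,⟨0,[(9,0)]⟩,⟨0,[(0,0),(37,0)]⟩⟩]⟩) (.R ⟨2,true,false,true,[0,1],
  [0,0,0,0,1],[1,1,1],(⟨0,[]⟩,⟨0,[]⟩),(⟨0,[(34,0)]⟩,⟨0,[(33,0)]⟩),⟨0,[]⟩,.k,.k,.k,(.r 0 ⟨3,[(17,0),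
  (13,0),(0,0),(15,1),(6,1)]⟩ ⟨7,[(14,3),(11,1),(1,1),(14,0),(9,0)]⟩),.k,.k,⟨true,0,⟨2,[(10,0),(17,
  0),(9,0)]⟩,⟨0,[]⟩⟩,⟨false,0,⟨0,[(32,0)]⟩,⟨0,[(4,0)]⟩⟩,⟨true,0,⟨0,[(50,0)]⟩,⟨0,[(51,0)]⟩⟩,⟨false,0,
  ⟨2,[(3,0),(12,0),(7,0),(7,1),(20,0)]⟩,⟨33,[(2,1),(1,31),(1,1),(10,15),(15,1),(8,3),(4,0),(5,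
  16)]⟩⟩,⟨false,0,⟨0,[]⟩,⟨1,[(31,0),(0,0),(20,0)]⟩⟩,⟨true,(-1),⟨0,[(0,0)]⟩,⟨5,[(8,1),(22,3),(15,0),
  (5,0)]⟩⟩,[]⟩)) (.Q [-1,-1,0,0,1,0,0,0,-1,0,0,-1] (.p false [0,0,0,0,1] [] (⟨0,[(33,0)]⟩,⟨0,[(32,
  0)]⟩) .k 0 (⟨0,[]⟩,⟨0,[]⟩) .k .k) (.R ⟨1,false,false,true,[0,0,1],[0,0,0,0,1],[0,1,0,0,0,0,0,1],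
  (⟨0,[(41,0)]⟩,⟨0,[(40,0)]⟩),(⟨0,[(34,0)]⟩,⟨0,[(33,0)]⟩),⟨0,[(30,0)]⟩,.k,.k,.k,.k,(.r (-1) ⟨3,[(1,
  0),(17,0),(5,0),(0,0),(1,0),(23,0),(0,0)]⟩ ⟨0,[(22,0),(28,0)]⟩),.k,⟨true,0,⟨0,[(2,0),(0,0),(2,0),
  (12,0),(13,0),(8,1)]⟩,⟨0,[(22,0)]⟩⟩,⟨false,0,⟨18,[(2,1),(0,0),(5,17),(2,2),(2,0),(0,0),(25,5),(10,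
  0)]⟩,⟨0,[(4,0),(33,0)]⟩⟩,⟨true,0,⟨0,[(55,0)]⟩,⟨0,[]⟩⟩,⟨true,(-1),⟨0,[(3,0),(16,0)]⟩,⟨1,[(0,0),(0,
  0),(6,0)]⟩⟩,⟨false,0,⟨0,[(51,0)]⟩,⟨22,[(10,6),(3,3),(1,2),(8,2),(0,4),(1,3),(24,16)]⟩⟩,⟨true,(-1),
  ⟨0,[(3,0),(17,0)]⟩,⟨0,[(0,0),(23,0)]⟩⟩,[.o ⟨false,0,⟨1,[(3,0),(3,0),(38,0)]⟩,⟨0,[(0,0)]⟩⟩,.o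
  ⟨false,0,⟨0,[(3,0)]⟩,⟨2,[(0,0),(30,1),(23,0)]⟩⟩,.o ⟨false,1,⟨1,[(38,1),(4,0),(8,0)]⟩,⟨0,[(27,
  0)]⟩⟩,.a ⟨true,0,⟨0,[(38,0)]⟩,⟨0,[(35,0)]⟩⟩ ⟨true,0,⟨0,[(15,0),(36,0)]⟩,⟨0,[(22,0)]⟩⟩ ⟨false,0,⟨0,
  [(9,0)]⟩,⟨0,[(0,0),(37,0)]⟩⟩]⟩) (.R ⟨2,true,false,true,[0,1],[0,0,0,0,1],[1,1,1],(⟨0,[]⟩,⟨0,[]⟩),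
  (⟨0,[(34,0)]⟩,⟨0,[(33,0)]⟩),⟨0,[]⟩,.k,.k,.k,(.r 0 ⟨3,[(17,0),(13,0),(0,0),(15,1),(6,1)]⟩ ⟨7,[(14,
  3),(11,1),(1,1),(14,0),(9,0)]⟩),.k,.k,⟨true,0,⟨2,[(10,0),(17,0),(9,0)]⟩,⟨0,[]⟩⟩,⟨false,0,⟨0,[(32,
  0)]⟩,⟨0,[(4,0)]⟩⟩,⟨true,0,⟨0,[(50,0)]⟩,⟨0,[(51,0)]⟩⟩,⟨false,0,⟨3,[(1,0),(1,0),(12,1),(15,2),(20,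
  0)]⟩,⟨33,[(2,1),(1,31),(1,1),(10,15),(15,1),(8,3),(4,0),(5,16)]⟩⟩,⟨false,0,⟨0,[]⟩,⟨1,[(31,0),(0,
  0),(20,0)]⟩⟩,⟨true,(-1),⟨0,[(0,0)]⟩,⟨5,[(8,1),(22,3),(15,0),(5,0)]⟩⟩,[]⟩))))) (.S ⟨1,0,[1,1],[0,0,
  0,0,1],[],(⟨0,[(30,0)]⟩,⟨0,[(29,0)]⟩),⟨0,[(1,0)]⟩,.k,(.r (-1) ⟨7,[(10,3),(11,1),(1,1),(14,0),(9,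
  0)]⟩ ⟨3,[(13,0),(13,0),(0,0),(15,1),(6,1)]⟩),⟨false,1,⟨4,[(27,1),(0,1),(20,2),(1,0)]⟩,⟨0,[]⟩⟩,
  ⟨true,0,⟨0,[(51,0)]⟩,⟨0,[]⟩⟩,⟨true,0,⟨1,[(0,1),(1,1),(10,0),(15,1),(8,3),(4,0)]⟩,⟨0,[(46,0)]⟩⟩,
  ⟨false,0,⟨0,[(47,0)]⟩,⟨22,[(6,6),(3,3),(1,2),(8,2),(0,4),(1,3),(24,16)]⟩⟩,[.e ⟨false,1,⟨1,[(27,0),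
  (0,0),(19,0)]⟩,⟨0,[]⟩⟩ ⟨false,0,⟨0,[(45,0)]⟩,⟨1,[(27,0),(0,0),(20,0)]⟩⟩,.o ⟨false,0,⟨1,[(0,1),(38,
  0),(8,0)]⟩,⟨5,[(4,1),(22,3),(15,0),(5,0)]⟩⟩,.e ⟨false,1,⟨1,[(27,0),(0,0),(20,0)]⟩,⟨0,[]⟩⟩ ⟨false,
  0,⟨0,[]⟩,⟨1,[(27,0),(0,0),(20,0)]⟩⟩,.a ⟨true,(-1),⟨0,[(0,0)]⟩,⟨1,[(4,1),(43,0),(0,0)]⟩⟩ ⟨false,1,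
  ⟨1,[(48,0),(0,0)]⟩,⟨2,[(6,0),(17,0),(9,0)]⟩⟩ ⟨true,0,⟨0,[(45,0)]⟩,⟨2,[(6,0),(17,0),(9,0)]⟩⟩]⟩))
  (.S ⟨1,0,[-1,1],[1,0,0,0,-1],[-1],(⟨0,[(28,0)]⟩,⟨0,[(29,0)]⟩),⟨1,[(0,0),(7,0),(16,0),(2,0)]⟩,.k,
  (.r (-1) ⟨9,[(21,4),(4,1),(0,1),(20,2),(1,0)]⟩ ⟨1,[(12,0),(13,0),(0,0)]⟩),⟨false,1,⟨1,[(26,0),(0,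
  0),(20,0)]⟩,⟨0,[]⟩⟩,⟨true,0,⟨0,[(50,0)]⟩,⟨0,[]⟩⟩,⟨true,0,⟨0,[(46,0)]⟩,⟨0,[(45,0)]⟩⟩,⟨false,0,⟨0,
  [(46,0)]⟩,⟨22,[(5,6),(3,3),(1,2),(8,2),(0,4),(1,3),(24,16)]⟩⟩,[.o ⟨false,0,⟨5,[(0,3),(0,3),(1,1),
  (1,1),(4,1),(0,0),(0,0),(2,0),(22,0),(1,3)]⟩,⟨1,[(27,1),(10,0),(9,0)]⟩⟩,.e ⟨false,1,⟨1,[(7,0),(29,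
  1),(10,0)]⟩,⟨0,[(50,0)]⟩⟩ ⟨false,1,⟨9,[(26,3),(0,3),(19,4),(0,0),(1,1)]⟩,⟨0,[]⟩⟩,.a ⟨true,0,⟨1,
  [(0,0),(0,1),(8,0),(0,0),(16,0),(4,0),(6,2),(2,1)]⟩,⟨0,[(27,0)]⟩⟩ ⟨false,1,⟨4,[(26,1),(0,1),(20,
  2),(1,0)]⟩,⟨0,[]⟩⟩ ⟨true,0,⟨0,[(50,0)]⟩,⟨0,[]⟩⟩,.o ⟨false,0,⟨3,[(0,2),(0,2),(3,1),(4,1),(0,1),(14,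
  0),(13,2),(2,3)]⟩,⟨1,[(27,1),(10,0),(8,0)]⟩⟩]⟩)) (.Q [0,0,0,1,0,0,0,0,1,-1,0,1] (.p true [0,0,0,0,
  1] [1] (⟨0,[(28,0)]⟩,⟨0,[(27,0)]⟩) .k 1 (⟨0,[]⟩,⟨0,[]⟩) .k .k) (.Q [0,0,1,0,0,0,0,0,-1,1,0,-1]
  (.p false [0,0,0,0,1] [1] (⟨0,[(29,0)]⟩,⟨0,[(28,0)]⟩) .k 1 (⟨0,[]⟩,⟨0,[]⟩) .k .k) (.Q [1,0,0,0,0,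
  0,0,0,1,-1,0,1] (.p true [0,0,0,0,1] [1] (⟨0,[(30,0)]⟩,⟨0,[(29,0)]⟩) .k 1 (⟨0,[]⟩,⟨0,[]⟩) .k .k)
  (.Q [0,0,1,-1,0,0,0,0,-1,1,0,-1] (.p false [0,0,0,0,1] [1] (⟨0,[(31,0)]⟩,⟨0,[(30,0)]⟩) .k 1 (⟨0,
  []⟩,⟨0,[]⟩) .k .k) (.Q [1,1,0,0,-1,0,0,0,1,0,0,1] (.p true [0,0,0,0,1] [] (⟨0,[(32,0)]⟩,⟨0,[(31,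
  0)]⟩) .k 0 (⟨0,[]⟩,⟨0,[]⟩) .k .k) (.Q [0,0,1,0,-1,0,0,0,1,0,0,1] (.p true [0,0,0,0,1] [] (⟨0,[(33,
  0)]⟩,⟨0,[(32,0)]⟩) .k 0 (⟨0,[]⟩,⟨0,[]⟩) .k .k) (.Q [0,0,0,0,0,-1,0,0,0,0,0,1] (.ed false [1,-1,0,
  0,1] .k) (.S ⟨1,0,[1],[0,0,0,0,1],[1,0,1],(⟨0,[(35,0)]⟩,⟨0,[(34,0)]⟩),⟨0,[(0,0)]⟩,.k,(.r (-1) ⟨7,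
  [(15,3),(11,1),(1,1),(14,0),(9,0)]⟩ ⟨3,[(18,0),(13,0),(0,0),(15,1),(6,1)]⟩),⟨true,0,⟨2,[(11,0),
  (17,0),(9,0)]⟩,⟨0,[(50,0)]⟩⟩,⟨false,1,⟨1,[(32,0),(0,0),(20,0)]⟩,⟨0,[]⟩⟩,⟨false,0,⟨1,[(18,0),(35,
  0)]⟩,⟨7,[(15,3),(11,1),(1,1),(14,0),(9,0)]⟩⟩,⟨true,0,⟨0,[(52,0)]⟩,⟨0,[(51,0)]⟩⟩,[.o ⟨false,0,⟨0,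
  [(4,0)]⟩,⟨5,[(9,1),(22,3),(15,0),(5,0)]⟩⟩,.e ⟨false,1,⟨1,[(32,0),(0,0),(20,0)]⟩,⟨0,[(50,0)]⟩⟩
  ⟨false,1,⟨1,[(53,0),(0,0)]⟩,⟨0,[(56,0)]⟩⟩,.o ⟨false,0,⟨5,[(1,1),(2,3),(43,0),(4,0)]⟩,⟨0,[(32,
  0)]⟩⟩,.a ⟨true,(-1),⟨0,[(1,0)]⟩,⟨1,[(9,1),(43,0),(0,0)]⟩⟩ ⟨true,0,⟨0,[]⟩,⟨0,[(56,0)]⟩⟩ ⟨false,1,
  ⟨1,[(53,0),(0,0)]⟩,⟨2,[(11,0),(17,0),(9,0)]⟩⟩]⟩) (.Q [0,0,0,0,-1,0,-1,0,1,0,-1,1] (.p false [0,0,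
  1] [0,0,0,0,1] (⟨0,[(42,0)]⟩,⟨0,[(41,0)]⟩) .k 2 (⟨0,[(35,0)]⟩,⟨0,[(34,0)]⟩) .k (.r 0 ⟨1,[(13,0),
  (2,1),(26,1),(10,0)]⟩ ⟨1,[(23,1),(8,0),(0,0),(19,0)]⟩)) (.Q [1,-1,0,-1,0,0,0,0,1,0,0,1] (.p true
  [0,0,0,0,1] [] (⟨0,[(36,0)]⟩,⟨0,[(35,0)]⟩) .k 0 (⟨0,[]⟩,⟨0,[]⟩) .k .k) (.R ⟨1,false,false,false,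
  [1,0,0,0,-1],[1,-1],[-1],(⟨0,[(36,0)]⟩,⟨0,[(37,0)]⟩),(⟨0,[(47,0)]⟩,⟨0,[(48,0)]⟩),⟨1,[(2,0),(13,0),
  (16,0),(2,0)]⟩,.k,.k,(.r (-1) ⟨9,[(29,4),(4,1),(0,1),(20,2),(1,0)]⟩ ⟨1,[(20,0),(13,0),(0,0)]⟩),
  (.r 0 ⟨3,[(20,0),(13,0),(0,0),(15,1),(6,1)]⟩ ⟨7,[(17,3),(11,1),(1,1),(14,0),(9,0)]⟩),.k,.k,⟨false,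
  0,⟨1,[(15,0),(4,0),(24,1)]⟩,⟨7,[(17,3),(11,1),(1,1),(14,0),(9,0)]⟩⟩,⟨true,(-1),⟨0,[(3,0)]⟩,⟨0,
  [(34,0)]⟩⟩,⟨false,1,⟨1,[(34,0),(0,0),(20,0)]⟩,⟨0,[]⟩⟩,⟨false,0,⟨0,[(0,0)]⟩,⟨0,[(34,0),(19,0)]⟩⟩,
  ⟨true,0,⟨0,[(54,0)]⟩,⟨0,[(53,0)]⟩⟩,⟨false,0,⟨1,[(3,1),(51,0),(0,0)]⟩,⟨5,[(11,1),(22,3),(15,0),(5,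
  0)]⟩⟩,[.e ⟨false,1,⟨9,[(34,3),(0,3),(19,4),(0,0),(1,1)]⟩,⟨0,[]⟩⟩ ⟨false,0,⟨0,[(1,0),(15,0)]⟩,⟨0,
  [(34,0),(19,0)]⟩⟩,.o ⟨false,1,⟨22,[(0,2),(4,2),(7,6),(3,0),(11,7),(1,3),(24,13)]⟩,⟨1,[(20,0),(25,
  0),(5,1)]⟩⟩,.o ⟨false,1,⟨0,[(34,0)]⟩,⟨3,[(0,0),(3,0),(1,0),(1,0),(41,0)]⟩⟩,.a ⟨true,0,⟨0,[(7,0)]⟩,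
  ⟨0,[(3,0),(51,0)]⟩⟩ ⟨false,1,⟨1,[(15,0),(29,1),(10,0)]⟩,⟨2,[(13,0),(17,0),(9,0)]⟩⟩ ⟨true,0,⟨0,[(1,
  0),(15,0)]⟩,⟨1,[(11,1),(8,0),(25,0)]⟩⟩]⟩) (.R ⟨2,true,false,false,[0,1],[0,0,0,0,1],[0,0,1,1],(⟨0,
  []⟩,⟨0,[]⟩),(⟨0,[(37,0)]⟩,⟨0,[(36,0)]⟩),⟨0,[]⟩,.k,.k,.k,(.r 0 ⟨3,[(20,0),(13,0),(0,0),(15,1),(6,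
  1)]⟩ ⟨7,[(17,3),(11,1),(1,1),(14,0),(9,0)]⟩),.k,.k,⟨false,0,⟨1,[(0,1),(0,1),(13,0),(25,1),(3,1),
  (10,0)]⟩,⟨7,[(17,3),(11,1),(1,1),(14,0),(9,0)]⟩⟩,⟨true,(-1),⟨0,[(3,0)]⟩,⟨0,[(34,0)]⟩⟩,⟨false,1,⟨1,
  [(34,0),(0,0),(20,0)]⟩,⟨0,[]⟩⟩,⟨true,0,⟨7,[(3,3),(6,0),(6,0),(1,0),(8,0),(0,1),(5,2),(20,1)]⟩,⟨0,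
  [(0,0)]⟩⟩,⟨true,0,⟨0,[(54,0)]⟩,⟨0,[(53,0)]⟩⟩,⟨false,0,⟨1,[(3,1),(51,0),(0,0)]⟩,⟨5,[(11,1),(22,3),
  (15,0),(5,0)]⟩⟩,[]⟩)) (.K ⟨0,[0,0,0,0,1],(-1),(-1),(⟨0,[(36,0)]⟩,⟨0,[(35,0)]⟩),.k,(.r (-1) ⟨7,
  [(16,3),(11,1),(1,1),(14,0),(9,0)]⟩ ⟨7,[(0,1),(6,0),(11,1),(10,0),(3,0),(15,2),(5,0),(0,2)]⟩),(.r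
  0 ⟨11,[(0,4),(6,1),(4,0),(6,4),(10,2),(3,2)]⟩ ⟨9,[(28,4),(4,1),(0,1),(20,2),(1,0)]⟩),.k,.k,[⟨0,
  [(0,0)]⟩,⟨0,[(2,0)]⟩,⟨0,[(33,0),(23,0)]⟩,⟨0,[(3,0)]⟩]⟩))) (.Q [-1,-1,0,1,1,0,0,0,-1,0,0,-1] (.p
  false [0,0,0,0,1] [] (⟨0,[(34,0)]⟩,⟨0,[(33,0)]⟩) .k 0 (⟨0,[]⟩,⟨0,[]⟩) .k .k) (.R ⟨2,true,false,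
  true,[0,1],[0,0,0,0,1],[1,1,1],(⟨0,[]⟩,⟨0,[]⟩),(⟨0,[(35,0)]⟩,⟨0,[(34,0)]⟩),⟨0,[]⟩,.k,.k,.k,(.r 0
  ⟨4,[(0,0),(17,1),(13,0),(0,1),(21,0),(0,0)]⟩ ⟨7,[(15,3),(11,1),(1,1),(14,0),(9,0)]⟩),.k,.k,⟨true,
  0,⟨2,[(11,0),(17,0),(9,0)]⟩,⟨0,[]⟩⟩,⟨false,0,⟨0,[(33,0)]⟩,⟨0,[(1,0)]⟩⟩,⟨true,0,⟨0,[(51,0)]⟩,⟨0,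
  [(52,0)]⟩⟩,⟨false,0,⟨2,[(4,0),(12,0),(7,0),(7,1),(20,0)]⟩,⟨0,[(0,0)]⟩⟩,⟨false,0,⟨0,[]⟩,⟨1,[(32,0),
  (0,0),(20,0)]⟩⟩,⟨true,(-1),⟨0,[(2,0)]⟩,⟨5,[(9,1),(22,3),(15,0),(5,0)]⟩⟩,[]⟩) (.I [0,0,-1,0,1,0,0,
  0,-1] (.I [1,1,-1,-1] (.C [(0,0),(1,0),(0,0),(16,0),(35,0)]) (.C [(0,0),(1,0),(0,0)])) (.C [(0,0),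
  (1,0),(33,0)])))) (.R ⟨1,false,false,true,[0,0,1],[0,0,0,0,1],[0,1,0,0,0,0,0,1],(⟨0,[(40,0)]⟩,⟨0,
  [(39,0)]⟩),(⟨0,[(33,0)]⟩,⟨0,[(32,0)]⟩),⟨0,[(29,0)]⟩,.k,.k,.k,.k,(.r (-1) ⟨1,[(24,1),(26,0),(0,
  0)]⟩ ⟨0,[(21,0),(28,0)]⟩),.k,⟨true,0,⟨1,[(11,0),(2,1),(26,1),(10,0)]⟩,⟨0,[(21,0)]⟩⟩,⟨false,0,⟨15,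
  [(4,1),(3,13),(2,1),(2,1),(0,0),(3,0),(21,3),(10,1)]⟩,⟨0,[(0,0),(36,0),(10,0)]⟩⟩,⟨true,0,⟨0,[(54,
  0)]⟩,⟨0,[]⟩⟩,⟨true,(-1),⟨1,[(4,1),(10,0),(3,0)]⟩,⟨0,[(0,0),(34,0)]⟩⟩,⟨false,0,⟨0,[(50,0)]⟩,⟨2,[(1,
  0),(4,0),(18,0),(26,1)]⟩⟩,⟨true,(-1),⟨0,[(4,0),(14,0)]⟩,⟨0,[(0,0),(22,0)]⟩⟩,[.o ⟨false,0,⟨1,[(2,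
  0),(3,0),(38,0)]⟩,⟨0,[(0,0)]⟩⟩,.o ⟨false,0,⟨0,[(2,0)]⟩,⟨2,[(0,0),(29,1),(23,0)]⟩⟩,.o ⟨false,1,⟨1,
  [(37,1),(4,0),(8,0)]⟩,⟨0,[(26,0)]⟩⟩,.a ⟨true,0,⟨0,[(37,0)]⟩,⟨0,[(34,0)]⟩⟩ ⟨true,0,⟨0,[(14,0),(36,
  0)]⟩,⟨0,[(21,0)]⟩⟩ ⟨false,0,⟨0,[(8,0)]⟩,⟨0,[(0,0),(36,0)]⟩⟩]⟩)) (.Q [1,-1,0,1,0,0,0,0,1,-1,0,1]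
  (.p true [0,0,0,0,1] [1] (⟨0,[(32,0)]⟩,⟨0,[(31,0)]⟩) .k 1 (⟨0,[]⟩,⟨0,[]⟩) .k .k) (.R ⟨2,true,
  false,true,[0,1],[1,0,0,0,-1],[1,1,1],(⟨0,[]⟩,⟨0,[]⟩),(⟨0,[(32,0)]⟩,⟨0,[(33,0)]⟩),⟨0,[]⟩,.k,.k,.k,
  (.r 0 ⟨1,[(16,0),(13,0),(0,0)]⟩ ⟨9,[(25,4),(4,1),(0,1),(20,2),(1,0)]⟩),.k,.k,⟨false,0,⟨0,[]⟩,⟨9,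
  [(30,3),(0,3),(19,4),(0,0),(1,1)]⟩⟩,⟨true,0,⟨0,[(3,0)]⟩,⟨5,[(0,1),(0,0),(0,0),(3,0),(8,0),(7,0),
  (7,0),(14,0)]⟩⟩,⟨true,0,⟨0,[(49,0)]⟩,⟨0,[(50,0)]⟩⟩,⟨false,1,⟨19,[(3,15),(3,0),(5,5),(11,6),(1,2),
  (2,2),(21,3),(0,3)]⟩,⟨0,[(0,0)]⟩⟩,⟨false,0,⟨0,[]⟩,⟨1,[(30,0),(0,0),(20,0)]⟩⟩,⟨true,0,⟨0,[(7,0)]⟩,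
  ⟨0,[(2,0)]⟩⟩,[]⟩) (.Q [0,0,0,0,0,-1,0,0,0,0,0,1] (.ed false [1,-1,0,0,1] .k) (.S ⟨1,0,[1],[0,0,0,
  0,1],[1,0,1],(⟨0,[(34,0)]⟩,⟨0,[(33,0)]⟩),⟨0,[(0,0)]⟩,.k,(.r (-1) ⟨7,[(14,3),(11,1),(1,1),(14,0),
  (9,0)]⟩ ⟨3,[(17,0),(13,0),(0,0),(15,1),(6,1)]⟩),⟨true,0,⟨2,[(10,0),(17,0),(9,0)]⟩,⟨0,[(49,0)]⟩⟩,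
  ⟨false,1,⟨1,[(31,0),(0,0),(20,0)]⟩,⟨0,[]⟩⟩,⟨false,0,⟨1,[(17,0),(35,0)]⟩,⟨7,[(14,3),(11,1),(1,1),
  (14,0),(9,0)]⟩⟩,⟨true,0,⟨0,[(51,0)]⟩,⟨0,[(50,0)]⟩⟩,[.o ⟨false,0,⟨0,[(3,0)]⟩,⟨5,[(8,1),(22,3),(15,
  0),(5,0)]⟩⟩,.e ⟨false,1,⟨1,[(31,0),(0,0),(20,0)]⟩,⟨0,[(49,0)]⟩⟩ ⟨false,1,⟨1,[(52,0),(0,0)]⟩,⟨0,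
  [(55,0)]⟩⟩,.o ⟨false,0,⟨29,[(2,5),(0,21),(3,1),(2,1),(2,1),(2,1),(2,1),(10,1),(11,5),(4,0),(5,
  0)]⟩,⟨0,[(31,0)]⟩⟩,.a ⟨true,(-1),⟨3,[(2,3),(12,2),(0,2),(18,0),(2,3),(9,1),(4,1)]⟩,⟨1,[(8,1),(43,
  0),(0,0)]⟩⟩ ⟨true,0,⟨0,[]⟩,⟨0,[(55,0)]⟩⟩ ⟨false,1,⟨1,[(52,0),(0,0)]⟩,⟨2,[(10,0),(17,0),(9,
  0)]⟩⟩]⟩) (.R ⟨1,true,false,false,[1,0,0,0,-1],[0,1],[0,0,0,-1],(⟨0,[(33,0)]⟩,⟨0,[(34,0)]⟩),(⟨0,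
  [(45,0)]⟩,⟨0,[(44,0)]⟩),⟨1,[(0,0),(12,0),(16,0),(2,0)]⟩,.k,.k,(.r (-1) ⟨9,[(26,4),(4,1),(0,1),(20,
  2),(1,0)]⟩ ⟨1,[(17,0),(13,0),(0,0)]⟩),(.r (-1) ⟨9,[(26,4),(4,1),(0,1),(20,2),(1,0)]⟩ ⟨1,[(17,0),
  (13,0),(0,0)]⟩),(.r (-2) ⟨5,[(14,3),(11,3),(1,1),(2,0),(0,0),(10,0),(9,1)]⟩ ⟨0,[(17,0)]⟩),.k,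
  ⟨true,1,⟨9,[(10,1),(5,1),(2,0),(5,0),(0,6),(26,4)]⟩,⟨0,[(17,0)]⟩⟩,⟨false,1,⟨3,[(2,1),(2,1),(20,1),
  (25,0),(0,0)]⟩,⟨0,[(4,0)]⟩⟩,⟨false,1,⟨22,[(10,6),(3,3),(1,2),(8,2),(0,4),(1,3),(24,16)]⟩,⟨0,[(51,
  0)]⟩⟩,⟨true,0,⟨0,[(5,0)]⟩,⟨0,[(1,0)]⟩⟩,⟨true,0,⟨0,[]⟩,⟨0,[(55,0)]⟩⟩,⟨false,0,⟨0,[(2,0),(45,0)]⟩,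
  ⟨4,[(1,0),(2,3),(5,0),(5,0),(8,0),(0,2),(26,2)]⟩⟩,[]⟩)))) (.R ⟨2,true,false,true,[0,1],[1,0,0,0,
  -1],[0,0,1,1],(⟨0,[]⟩,⟨0,[]⟩),(⟨0,[(30,0)]⟩,⟨0,[(31,0)]⟩),⟨0,[]⟩,.k,.k,.k,(.r 0 ⟨1,[(14,0),(13,0),
  (0,0)]⟩ ⟨9,[(23,4),(4,1),(0,1),(20,2),(1,0)]⟩),.k,.k,⟨true,0,⟨0,[(45,0)]⟩,⟨0,[(47,0)]⟩⟩,⟨false,0,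
  ⟨0,[(0,0)]⟩,⟨1,[(29,1),(10,0),(8,0)]⟩⟩,⟨false,1,⟨1,[(28,0),(0,0),(20,0)]⟩,⟨0,[]⟩⟩,⟨true,0,⟨10,[(0,
  4),(4,3),(1,0),(5,2),(7,1),(0,0),(0,0),(4,1)]⟩,⟨0,[(2,0)]⟩⟩,⟨true,0,⟨0,[(48,0)]⟩,⟨0,[(47,0)]⟩⟩,
  ⟨false,0,⟨0,[(0,0)]⟩,⟨1,[(29,1),(10,0),(9,0)]⟩⟩,[]⟩)) (.Q [0,0,0,0,0,1,0,0,0,0,0,-1] (.ed true [1,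
  -1,0,0,1] .k) (.R ⟨0,false,false,false,[0,0,0,0,1],[0,0,1],[0,1],(⟨0,[(31,0)]⟩,⟨0,[(30,0)]⟩),(⟨0,
  [(38,0)]⟩,⟨0,[(37,0)]⟩),⟨0,[(0,0)]⟩,.k,.k,(.r (-1) ⟨7,[(11,3),(11,1),(1,1),(14,0),(9,0)]⟩ ⟨3,[(14,
  0),(13,0),(0,0),(15,1),(6,1)]⟩),.k,.k,.k,⟨true,0,⟨0,[(19,0),(26,0)]⟩,⟨0,[(12,0),(37,0)]⟩⟩,⟨false,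
  2,⟨0,[(28,0),(6,0),(13,0)]⟩,⟨1,[(1,1),(10,0),(0,0),(18,0),(12,1)]⟩⟩,⟨true,0,⟨0,[(52,0)]⟩,⟨0,[]⟩⟩,
  ⟨false,2,⟨0,[(28,0),(4,0),(16,0)]⟩,⟨1,[(1,1),(11,0),(3,0),(27,1)]⟩⟩,⟨false,0,⟨0,[]⟩,⟨0,[]⟩⟩,
  ⟨false,0,⟨0,[]⟩,⟨0,[]⟩⟩,[.o ⟨false,1,⟨1,[(33,1),(6,0),(9,0)]⟩,⟨1,[(17,1),(22,0),(9,0)]⟩⟩,.a ⟨true,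
  1,⟨0,[(33,0),(16,0)]⟩,⟨0,[(17,0)]⟩⟩ ⟨false,1,⟨1,[(28,0),(0,0),(19,0)]⟩,⟨0,[]⟩⟩ ⟨true,2,⟨0,[(28,0),
  (4,0),(16,0)]⟩,⟨0,[(1,0),(11,0),(0,0)]⟩⟩,.o ⟨false,0,⟨1,[(1,0),(2,0)]⟩,⟨0,[(28,0)]⟩⟩,.e ⟨true,0,
  ⟨0,[(46,0)]⟩,⟨2,[(7,0),(17,0),(9,0)]⟩⟩ ⟨true,2,⟨1,[(28,1),(4,1),(15,0),(0,0)]⟩,⟨0,[(1,0),(11,0),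
  (0,0)]⟩⟩]⟩) (.S ⟨1,0,[1],[0,0,0,0,1],[1,0,1],(⟨0,[(31,0)]⟩,⟨0,[(30,0)]⟩),⟨0,[(0,0)]⟩,.k,(.r (-1)
  ⟨7,[(11,3),(11,1),(1,1),(14,0),(9,0)]⟩ ⟨3,[(14,0),(13,0),(0,0),(15,1),(6,1)]⟩),⟨true,0,⟨2,[(7,0),
  (17,0),(9,0)]⟩,⟨0,[(46,0)]⟩⟩,⟨false,1,⟨1,[(28,0),(0,0),(20,0)]⟩,⟨0,[]⟩⟩,⟨false,0,⟨1,[(14,0),(35,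
  0)]⟩,⟨7,[(11,3),(11,1),(1,1),(14,0),(9,0)]⟩⟩,⟨true,0,⟨0,[(48,0)]⟩,⟨0,[(47,0)]⟩⟩,[.o ⟨false,0,⟨1,
  [(1,0),(2,0)]⟩,⟨5,[(5,1),(22,3),(15,0),(5,0)]⟩⟩,.e ⟨false,1,⟨1,[(28,0),(0,0),(20,0)]⟩,⟨0,[(46,
  0)]⟩⟩ ⟨false,1,⟨1,[(49,0),(0,0)]⟩,⟨0,[(52,0)]⟩⟩,.o ⟨false,0,⟨1,[(1,0),(2,0)]⟩,⟨0,[(28,0)]⟩⟩,.a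
  ⟨true,(-1),⟨1,[(1,1),(10,0),(0,0),(18,0),(2,1),(9,1)]⟩,⟨1,[(5,1),(43,0),(0,0)]⟩⟩ ⟨true,0,⟨0,[]⟩,
  ⟨0,[(52,0)]⟩⟩ ⟨false,1,⟨1,[(49,0),(0,0)]⟩,⟨2,[(7,0),(17,0),(9,0)]⟩⟩]⟩))) (.S ⟨1,0,[-1,1],[1,0,0,0,
  -1],[-1],(⟨0,[(28,0)]⟩,⟨0,[(29,0)]⟩),⟨1,[(0,1),(0,1),(5,2),(4,0)]⟩,.k,(.r (-1) ⟨9,[(21,4),(4,1),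
  (0,1),(20,2),(1,0)]⟩ ⟨1,[(12,0),(13,0),(0,0)]⟩),⟨false,1,⟨1,[(26,0),(0,0),(20,0)]⟩,⟨0,[]⟩⟩,⟨true,
  0,⟨0,[(50,0)]⟩,⟨0,[]⟩⟩,⟨true,0,⟨0,[(46,0)]⟩,⟨0,[(45,0)]⟩⟩,⟨false,0,⟨0,[(46,0)]⟩,⟨22,[(5,6),(3,3),
  (1,2),(8,2),(0,4),(1,3),(24,16)]⟩⟩,[.o ⟨false,0,⟨1,[(0,1),(11,0),(25,0),(5,1)]⟩,⟨1,[(27,1),(10,0),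
  (9,0)]⟩⟩,.e ⟨false,1,⟨1,[(7,0),(29,1),(10,0)]⟩,⟨0,[(50,0)]⟩⟩ ⟨false,1,⟨9,[(26,3),(0,3),(19,4),(0,
  0),(1,1)]⟩,⟨0,[]⟩⟩,.a ⟨true,0,⟨0,[(0,0),(45,0)]⟩,⟨0,[(27,0)]⟩⟩ ⟨false,1,⟨4,[(26,1),(0,1),(20,2),
  (1,0)]⟩,⟨0,[]⟩⟩ ⟨true,0,⟨0,[(50,0)]⟩,⟨0,[]⟩⟩,.o ⟨false,0,⟨1,[(0,1),(11,0),(25,0)]⟩,⟨1,[(27,1),(10,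
  0),(8,0)]⟩⟩]⟩))) (.R ⟨0,false,false,false,[0,-1,1],[0,0,0,0,1],[1,0,1],(⟨0,[(23,0)]⟩,⟨0,[(33,0),
  (4,0)]⟩),(⟨0,[(27,0)]⟩,⟨0,[(26,0)]⟩),⟨0,[(4,0)]⟩,.k,.k,(.x 0 ⟨2,[(3,0),(0,2),(16,0),(9,3)]⟩ ⟨1,
  [(5,0),(17,1),(4,1),(7,0)]⟩),(.r (-1) ⟨1,[(18,1),(26,0),(0,0)]⟩ ⟨0,[(15,0),(28,0)]⟩),.k,.k,⟨true,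
  0,⟨2,[(3,0),(17,0),(9,0)]⟩,⟨0,[]⟩⟩,⟨false,1,⟨5,[(2,1),(18,1),(3,3),(10,0),(8,4)]⟩,⟨0,[(0,0),(2,
  0)]⟩⟩,⟨false,0,⟨0,[(15,0),(25,0)]⟩,⟨0,[(12,0),(32,0)]⟩⟩,⟨true,0,⟨1,[(14,1),(10,1),(10,0),(9,0)]⟩,
  ⟨0,[(0,0),(2,0),(8,0),(29,0)]⟩⟩,⟨false,0,⟨0,[]⟩,⟨0,[]⟩⟩,⟨false,0,⟨0,[]⟩,⟨0,[]⟩⟩,[.a ⟨true,0,⟨0,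
  [(25,0)]⟩,⟨10,[(0,6),(0,3),(1,0),(4,0),(0,0),(0,0),(35,2),(0,1)]⟩⟩ ⟨false,0,⟨0,[]⟩,⟨1,[(24,0),(0,
  0),(19,0)]⟩⟩ ⟨true,0,⟨0,[(2,0)]⟩,⟨10,[(0,6),(0,3),(1,11),(4,0),(0,0),(0,0),(35,2),(0,1)]⟩⟩,.o
  ⟨false,1,⟨1,[(25,1),(10,0),(9,0)]⟩,⟨35,[(0,23),(0,11),(1,8),(4,8),(4,8),(22,10),(2,2),(0,6)]⟩⟩,.e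
  ⟨true,0,⟨2,[(3,0),(17,0),(9,0)]⟩,⟨0,[(42,0)]⟩⟩ ⟨true,0,⟨0,[(2,0)]⟩,⟨3,[(0,2),(0,0),(1,3),(35,0),
  (8,0)]⟩⟩,.o ⟨false,0,⟨0,[(3,0)]⟩,⟨1,[(28,1),(7,0),(8,0)]⟩⟩]⟩)))))

theorem ok23 : chk K t23 r21 = true := by decide +kernel

noncomputable def t27 : Tre :=
  (.Q [0,0,0,0,0,2,0,0,0,-1,1] (.p true [0,0,1] [1] (⟨0,[(27,0)]⟩,⟨0,[(26,0)]⟩) .k 1 (⟨0,[]⟩,⟨0,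
  []⟩) .k .k) (.R ⟨0,false,false,true,[1,-1,-1],[1,-1],[],(⟨0,[(16,0)]⟩,⟨1,[(0,0),(21,0),(2,0),(2,
  0)]⟩),(⟨0,[(31,0)]⟩,⟨0,[(32,0)]⟩),⟨0,[(0,0)]⟩,.k,.k,(.r (-2) ⟨1,[(9,1),(3,1),(25,0),(0,0)]⟩ ⟨0,
  [(1,2),(4,0),(18,2),(10,3),(3,1)]⟩),.k,.k,.k,⟨true,0,⟨1,[(4,0),(35,0)]⟩,⟨0,[(37,0)]⟩⟩,⟨false,1,⟨0,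
  [(25,0),(13,0)]⟩,⟨0,[(14,0)]⟩⟩,⟨false,0,⟨1,[(4,0),(5,1),(29,0)]⟩,⟨3,[(3,1),(5,1),(15,1),(4,0),(8,
  3),(0,0)]⟩⟩,⟨true,0,⟨0,[(23,0)]⟩,⟨1,[(7,1),(22,0),(9,0)]⟩⟩,⟨false,0,⟨0,[]⟩,⟨0,[]⟩⟩,⟨false,0,⟨0,
  []⟩,⟨0,[]⟩⟩,[.o ⟨false,0,⟨0,[(37,0)]⟩,⟨1,[(30,0),(7,1),(1,0)]⟩⟩,.e ⟨false,1,⟨1,[(39,0),(0,0)]⟩,⟨0,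
  [(42,0)]⟩⟩ ⟨false,2,⟨3,[(13,1),(4,0),(0,0),(5,3),(13,3),(0,0)]⟩,⟨0,[(1,0)]⟩⟩,.a ⟨true,(-1),⟨1,[(2,
  0),(0,0),(18,0),(12,1)]⟩,⟨0,[(25,0),(13,0)]⟩⟩ ⟨false,1,⟨1,[(18,0),(0,0),(20,0)]⟩,⟨0,[]⟩⟩ ⟨true,1,
  ⟨7,[(13,3),(4,0),(0,0),(5,7),(7,1),(5,2)]⟩,⟨0,[(1,0)]⟩⟩,.o ⟨false,(-1),⟨9,[(1,1),(0,5),(0,5),(22,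
  1),(3,2),(4,9),(4,0)]⟩,⟨1,[(25,1),(4,0),(8,2)]⟩⟩]⟩) (.Q [0,-1,0,2,0,0,-1,-1,0,0,-1] (.p false [0,
  0,1] [] (⟨0,[(28,0)]⟩,⟨0,[(27,0)]⟩) .k 0 (⟨0,[]⟩,⟨0,[]⟩) .k .k) (.I [0,0,2,0,0,2,1] (.R ⟨1,false,
  false,false,[0,0,1],[0,1],[],(⟨0,[(30,0)]⟩,⟨0,[(29,0)]⟩),(⟨0,[(34,0)]⟩,⟨0,[(33,0)]⟩),⟨0,[(19,0)]⟩,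
  .k,.k,.k,.k,(.x 0 ⟨0,[(0,0)]⟩ ⟨17,[(2,5),(0,5),(1,1),(2,1),(10,23),(4,9),(7,8),(8,15),(0,0)]⟩),.k,
  ⟨true,1,⟨3,[(15,1),(4,0),(0,0),(20,0)]⟩,⟨0,[(3,0),(23,0)]⟩⟩,⟨false,1,⟨1,[(24,1),(7,0),(8,0)]⟩,⟨0,
  [(27,0)]⟩⟩,⟨false,1,⟨1,[(11,1),(29,0),(0,0)]⟩,⟨0,[(12,0)]⟩⟩,⟨true,0,⟨1,[(1,0),(24,0)]⟩,⟨0,[(13,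
  0)]⟩⟩,⟨false,1,⟨3,[(1,1),(9,1),(8,0),(0,0),(5,1),(13,1),(0,0)]⟩,⟨0,[(8,0)]⟩⟩,⟨false,0,⟨0,[(1,0)]⟩,
  ⟨13,[(5,1),(7,7),(0,7),(0,3),(11,7),(4,0),(9,10)]⟩⟩,[.e ⟨false,1,⟨1,[(20,0),(0,0),(19,0)]⟩,⟨0,
  []⟩⟩ ⟨false,0,⟨0,[(3,0),(37,0)]⟩,⟨3,[(15,1),(4,0),(0,0),(5,3),(14,0)]⟩⟩,.o ⟨false,1,⟨1,[(32,0),(7,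
  1),(1,0)]⟩,⟨0,[(39,0)]⟩⟩,.o ⟨false,1,⟨1,[(27,1),(4,0),(8,0)]⟩,⟨0,[(16,0)]⟩⟩,.a ⟨true,0,⟨0,[(27,
  0)]⟩,⟨0,[(24,0)]⟩⟩ ⟨false,1,⟨1,[(41,0),(0,0)]⟩,⟨1,[(27,0),(0,0)]⟩⟩ ⟨true,0,⟨0,[(3,0),(37,0)]⟩,⟨0,
  [(27,0),(11,0)]⟩⟩]⟩) (.I [0,0,2,2,-1,0,0,-1] (.R ⟨1,false,false,false,[0,0,1],[0,1],[],(⟨0,[(31,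
  0)]⟩,⟨0,[(30,0)]⟩),(⟨0,[(35,0)]⟩,⟨0,[(34,0)]⟩),⟨0,[(20,0)]⟩,.k,.k,.k,.k,(.r (-2) ⟨7,[(15,3),(0,5),
  (1,1),(7,3),(6,0),(8,1),(0,6)]⟩ ⟨0,[(0,0)]⟩),.k,⟨true,1,⟨3,[(16,1),(4,0),(0,0),(20,0)]⟩,⟨0,[(0,0),
  (8,0)]⟩⟩,⟨false,1,⟨1,[(25,1),(7,0),(8,0)]⟩,⟨0,[(28,0)]⟩⟩,⟨false,1,⟨1,[(12,1),(29,0),(0,0)]⟩,⟨0,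
  [(13,0)]⟩⟩,⟨true,0,⟨1,[(2,0),(24,0)]⟩,⟨0,[(14,0)]⟩⟩,⟨false,1,⟨3,[(0,1),(11,1),(8,0),(0,0),(19,2),
  (0,1)]⟩,⟨0,[(9,0)]⟩⟩,⟨false,0,⟨0,[(2,0)]⟩,⟨13,[(6,1),(7,7),(0,7),(0,3),(11,7),(4,0),(9,10)]⟩⟩,[.e
  ⟨false,1,⟨1,[(21,0),(0,0),(19,0)]⟩,⟨0,[]⟩⟩ ⟨false,0,⟨0,[(4,0),(37,0)]⟩,⟨3,[(16,1),(4,0),(0,0),(5,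
  3),(14,0)]⟩⟩,.o ⟨false,1,⟨1,[(33,0),(7,1),(1,0)]⟩,⟨0,[(40,0)]⟩⟩,.o ⟨false,1,⟨1,[(28,1),(4,0),(8,
  0)]⟩,⟨0,[(17,0)]⟩⟩,.a ⟨true,0,⟨0,[(28,0)]⟩,⟨0,[(25,0)]⟩⟩ ⟨false,1,⟨1,[(42,0),(0,0)]⟩,⟨1,[(28,0),
  (0,0)]⟩⟩ ⟨true,0,⟨0,[(4,0),(37,0)]⟩,⟨0,[(28,0),(11,0)]⟩⟩]⟩) (.I [0,0,-2,-2,1,0,0,1] (.R ⟨1,false,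
  false,false,[0,0,1],[0,1],[],(⟨0,[(32,0)]⟩,⟨0,[(31,0)]⟩),(⟨0,[(36,0)]⟩,⟨0,[(35,0)]⟩),⟨0,[(21,0)]⟩,
  .k,.k,.k,.k,(.r (-1) ⟨0,[(0,0)]⟩ ⟨4,[(3,1),(4,2),(4,2),(8,2),(0,2),(5,1),(7,0)]⟩),.k,⟨true,1,⟨3,
  [(17,1),(4,0),(0,0),(20,0)]⟩,⟨0,[(5,0),(23,0)]⟩⟩,⟨false,1,⟨1,[(26,1),(7,0),(8,0)]⟩,⟨0,[(29,0)]⟩⟩,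
  ⟨false,1,⟨1,[(13,1),(29,0),(0,0)]⟩,⟨0,[(14,0)]⟩⟩,⟨true,0,⟨1,[(3,0),(24,0)]⟩,⟨0,[(15,0)]⟩⟩,⟨false,
  1,⟨3,[(3,1),(9,1),(8,0),(0,0),(5,1),(13,1),(0,0)]⟩,⟨0,[(10,0)]⟩⟩,⟨false,0,⟨0,[(3,0)]⟩,⟨1,[(1,0),
  (14,0),(12,1),(11,0),(2,0)]⟩⟩,[.e ⟨false,1,⟨1,[(22,0),(0,0),(19,0)]⟩,⟨0,[]⟩⟩ ⟨false,0,⟨0,[(5,0),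
  (37,0)]⟩,⟨3,[(17,1),(4,0),(0,0),(5,3),(14,0)]⟩⟩,.o ⟨false,1,⟨1,[(34,0),(7,1),(1,0)]⟩,⟨0,[(41,
  0)]⟩⟩,.o ⟨false,1,⟨1,[(29,1),(4,0),(8,0)]⟩,⟨0,[(18,0)]⟩⟩,.a ⟨true,0,⟨0,[(29,0)]⟩,⟨0,[(26,0)]⟩⟩
  ⟨false,1,⟨1,[(43,0),(0,0)]⟩,⟨1,[(29,0),(0,0)]⟩⟩ ⟨true,0,⟨0,[(5,0),(37,0)]⟩,⟨0,[(29,0),(11,
  0)]⟩⟩]⟩) (.I [0,0,-2,0,0,-2,-1] (.N [0,-2,1] (-1) ⟨0,[(2,0)]⟩ ⟨0,[(1,0)]⟩ (.x (-1) ⟨1,[(23,0),(0,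
  0),(5,2),(0,0),(0,1),(2,0),(1,3)]⟩ ⟨0,[(0,0)]⟩)) (.Q [-1,0,0,1,0,0,0,0,-1,0,0,-1] (.p false [0,0,
  0,0,1] [] (⟨0,[(26,0)]⟩,⟨0,[(25,0)]⟩) .k 0 (⟨0,[]⟩,⟨0,[]⟩) .k .k) (.R ⟨2,true,false,true,[0,1],[0,
  0,0,0,1],[0,0,1,1],(⟨0,[]⟩,⟨0,[]⟩),(⟨0,[(27,0)]⟩,⟨0,[(26,0)]⟩),⟨0,[]⟩,.k,.k,.k,(.r 0 ⟨3,[(10,0),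
  (13,0),(0,0),(15,1),(6,1)]⟩ ⟨3,[(19,1),(4,0),(0,0),(20,0)]⟩),.k,.k,⟨true,0,⟨55,[(2,1),(1,1),(1,1),
  (1,1),(1,25),(20,1),(3,7),(4,0),(5,28)]⟩,⟨0,[(43,0)]⟩⟩,⟨false,0,⟨0,[(25,0)]⟩,⟨5,[(0,3),(18,1),(4,
  1),(20,0),(0,0)]⟩⟩,⟨false,1,⟨1,[(24,0),(0,0),(20,0)]⟩,⟨0,[]⟩⟩,⟨true,0,⟨0,[(25,0),(17,0)]⟩,⟨0,[(0,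
  0)]⟩⟩,⟨true,0,⟨0,[(44,0)]⟩,⟨0,[(43,0)]⟩⟩,⟨false,0,⟨0,[(25,0)]⟩,⟨11,[(0,6),(2,0),(5,1),(2,0),(11,
  4),(6,1),(4,0),(9,6)]⟩⟩,[]⟩) (.Q [0,0,0,0,0,0,0,0,-1,1,0,-1] (.p false [0,0,0,0,1] [1] (⟨0,[(27,
  0)]⟩,⟨0,[(26,0)]⟩) .k 1 (⟨0,[]⟩,⟨0,[]⟩) .k .k) (.Q [0,0,0,0,0,-1,0,0,0,0,0,1] (.ed false [1,-1,0,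
  0,1] .k) (.Q [-1,-1,0,1,0,0,-1,-1,-1,1,-1,-1] (.p false [0,0,1] [1,0,0,0,-1] (⟨0,[(36,0)]⟩,⟨0,
  [(35,0)]⟩) .k 2 (⟨0,[(28,0)]⟩,⟨0,[(29,0)]⟩) .k (.r 0 ⟨0,[(18,0)]⟩ ⟨9,[(17,9),(8,3),(0,3),(19,4),
  (0,0),(1,1)]⟩)) (.S ⟨1,0,[1,1],[0,0,0,0,1],[1,1,1],(⟨0,[(30,0)]⟩,⟨0,[(29,0)]⟩),⟨0,[(1,0)]⟩,.k,(.r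
  (-1) ⟨3,[(22,1),(4,0),(0,0),(20,0)]⟩ ⟨3,[(13,0),(13,0),(0,0),(15,1),(6,1)]⟩),⟨false,0,⟨1,[(34,0),
  (0,0)]⟩,⟨1,[(48,0),(0,0)]⟩⟩,⟨true,0,⟨0,[(51,0)]⟩,⟨0,[]⟩⟩,⟨true,(-1),⟨1,[(5,0),(5,0),(33,0)]⟩,⟨3,
  [(22,1),(4,0),(0,0),(20,0)]⟩⟩,⟨false,0,⟨0,[(47,0)]⟩,⟨0,[(46,0),(2,0)]⟩⟩,[.o ⟨false,0,⟨3,[(3,1),(1,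
  0),(5,0),(16,1),(10,1),(5,2)]⟩,⟨5,[(2,5),(36,1),(3,0),(5,2)]⟩⟩,.a ⟨true,0,⟨0,[(28,0)]⟩,⟨0,[(0,0),
  (19,0)]⟩⟩ ⟨false,0,⟨0,[]⟩,⟨1,[(27,0),(0,0),(19,0)]⟩⟩ ⟨true,0,⟨0,[]⟩,⟨1,[(34,0),(0,0)]⟩⟩,.e ⟨false,
  0,⟨1,[(34,0),(0,0)]⟩,⟨1,[(48,0),(0,0)]⟩⟩ ⟨false,0,⟨0,[]⟩,⟨1,[(27,0),(0,0),(20,0)]⟩⟩,.o ⟨false,0,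
  ⟨5,[(3,5),(9,2),(25,0),(3,1)]⟩,⟨1,[(2,1),(36,0),(8,0)]⟩⟩]⟩) (.R ⟨1,false,false,false,[0,0,0,0,1],
  [0,1],[1,0,1],(⟨0,[(30,0)]⟩,⟨0,[(29,0)]⟩),(⟨0,[(41,0)]⟩,⟨0,[(40,0)]⟩),⟨0,[(1,0)]⟩,.k,.k,(.r (-1)
  ⟨3,[(22,1),(4,0),(0,0),(20,0)]⟩ ⟨3,[(13,0),(13,0),(0,0),(15,1),(6,1)]⟩),(.r (-1) ⟨3,[(22,1),(4,0),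
  (0,0),(20,0)]⟩ ⟨3,[(13,0),(13,0),(0,0),(15,1),(6,1)]⟩),(.r (-2) ⟨1,[(22,1),(4,0),(0,0),(20,0)]⟩
  ⟨27,[(5,1),(1,1),(1,1),(1,1),(1,25),(20,1),(3,7),(4,0),(5,0)]⟩),.k,⟨false,1,⟨3,[(22,1),(4,0),(0,
  0),(20,0)]⟩,⟨0,[(47,0)]⟩⟩,⟨true,1,⟨1,[(2,1),(36,0),(8,0)]⟩,⟨89,[(0,19),(2,69),(1,61),(1,2),(1,2),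
  (1,58),(0,16),(25,11),(10,47),(0,2)]⟩⟩,⟨true,0,⟨1,[(34,0),(0,0)]⟩,⟨0,[(45,0)]⟩⟩,⟨false,1,⟨1,[(2,
  1),(36,0),(7,1),(1,0)]⟩,⟨0,[(3,0)]⟩⟩,⟨false,0,⟨1,[(13,0),(35,0)]⟩,⟨3,[(22,1),(4,0),(0,0),(20,
  0)]⟩⟩,⟨false,1,⟨1,[(2,1),(36,0),(7,3),(1,0)]⟩,⟨1,[(0,0),(2,0),(8,0),(36,0)]⟩⟩,[.e ⟨false,0,⟨0,[]⟩,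
  ⟨1,[(27,0),(0,0),(19,0)]⟩⟩ ⟨false,1,⟨1,[(2,1),(36,0),(7,1),(0,0)]⟩,⟨2,[(0,0),(11,0),(15,1),(20,
  0)]⟩⟩,.o ⟨false,1,⟨1,[(39,0),(7,1),(1,0)]⟩,⟨0,[(46,0)]⟩⟩,.a ⟨true,0,⟨0,[(28,0)]⟩,⟨0,[(2,0)]⟩⟩
  ⟨true,0,⟨1,[(34,0),(0,0)]⟩,⟨0,[(45,0)]⟩⟩ ⟨false,1,⟨1,[(2,1),(36,0),(7,1),(1,0)]⟩,⟨2,[(0,0),(11,0),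
  (15,1),(20,0)]⟩⟩,.o ⟨false,0,⟨5,[(3,5),(9,2),(25,0),(3,1)]⟩,⟨1,[(2,1),(36,0),(8,0)]⟩⟩]⟩)) (.R ⟨0,
  false,false,true,[0,0,0,0,1],[0,-1,1],[0,1],(⟨0,[(29,0)]⟩,⟨0,[(28,0)]⟩),(⟨0,[(25,0)]⟩,⟨0,[(35,0),
  (4,0)]⟩),⟨0,[(0,0)]⟩,.k,.k,(.r (-1) ⟨3,[(21,1),(4,0),(0,0),(20,0)]⟩ ⟨3,[(12,0),(13,0),(0,0),(15,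
  1),(6,1)]⟩),(.r 0 ⟨3,[(4,1),(12,1),(8,0),(0,0),(19,0)]⟩ ⟨21,[(5,7),(14,1),(0,1),(1,5),(7,11),(10,
  2),(4,0),(0,7)]⟩),.k,.k,⟨true,0,⟨3,[(4,1),(12,1),(8,0),(0,0),(19,0)]⟩,⟨0,[(14,0)]⟩⟩,⟨false,1,⟨1,
  [(1,1),(31,1),(4,0),(8,0)]⟩,⟨1,[(2,0),(2,0),(1,0),(1,0),(17,0),(16,0)]⟩⟩,⟨true,0,⟨0,[(50,0)]⟩,⟨0,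
  []⟩⟩,⟨false,1,⟨5,[(1,5),(17,5),(18,1),(3,0),(5,2)]⟩,⟨0,[(2,0),(4,0)]⟩⟩,⟨false,0,⟨0,[]⟩,⟨0,[]⟩⟩,
  ⟨false,0,⟨0,[]⟩,⟨0,[]⟩⟩,[.e ⟨false,0,⟨0,[(44,0)]⟩,⟨1,[(26,0),(0,0),(20,0)]⟩⟩ ⟨false,1,⟨1,[(1,1),
  (17,1),(18,0),(8,0)]⟩,⟨27,[(2,27),(1,1),(1,1),(0,25),(0,1),(28,7),(4,0),(5,0)]⟩⟩,.o ⟨false,1,⟨1,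
  [(19,1),(18,0),(9,0)]⟩,⟨1,[(7,0),(24,0)]⟩⟩,.a ⟨true,0,⟨0,[(27,0)]⟩,⟨0,[(1,0)]⟩⟩ ⟨true,0,⟨0,[(50,
  0)]⟩,⟨0,[]⟩⟩ ⟨false,1,⟨1,[(1,1),(17,1),(18,0),(9,0)]⟩,⟨27,[(2,27),(1,1),(1,1),(0,25),(0,1),(28,7),
  (4,0),(5,0)]⟩⟩,.o ⟨false,0,⟨5,[(2,5),(9,2),(25,0),(3,1)]⟩,⟨1,[(1,1),(36,0),(8,0)]⟩⟩]⟩)) (.Q [0,0,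
  1,0,0,0,0,0,-1,1,0,-1] (.p false [0,0,0,0,1] [1] (⟨0,[(28,0)]⟩,⟨0,[(27,0)]⟩) .k 1 (⟨0,[]⟩,⟨0,[]⟩)
  .k .k) (.Q [0,0,1,0,-1,0,0,0,1,0,0,1] (.p true [0,0,0,0,1] [] (⟨0,[(29,0)]⟩,⟨0,[(28,0)]⟩) .k 0
  (⟨0,[]⟩,⟨0,[]⟩) .k .k) (.Q [0,0,0,0,0,-1,0,0,0,0,0,1] (.ed false [1,-1,0,0,1] .k) (.S ⟨1,0,[1],[0,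
  0,0,0,1],[0,1],(⟨0,[(31,0)]⟩,⟨0,[(30,0)]⟩),⟨0,[(0,0)]⟩,.k,(.r (-1) ⟨3,[(23,1),(4,0),(0,0),(20,
  0)]⟩ ⟨3,[(14,0),(13,0),(0,0),(15,1),(6,1)]⟩),⟨true,0,⟨0,[(52,0)]⟩,⟨0,[]⟩⟩,⟨false,1,⟨1,[(28,0),(0,
  0),(20,0)]⟩,⟨0,[]⟩⟩,⟨false,0,⟨0,[(8,1),(1,1),(0,0),(23,2),(3,7),(4,0)]⟩,⟨0,[(47,0),(2,0)]⟩⟩,⟨true,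
  0,⟨0,[(48,0)]⟩,⟨0,[(47,0)]⟩⟩,[.o ⟨false,0,⟨0,[(3,0)]⟩,⟨3,[(2,1),(25,1),(15,0),(4,0)]⟩⟩,.e ⟨false,
  1,⟨1,[(28,0),(0,0),(19,0)]⟩,⟨0,[]⟩⟩ ⟨false,1,⟨1,[(49,0),(0,0)]⟩,⟨0,[(52,0)]⟩⟩,.o ⟨false,0,⟨0,[(3,
  0)]⟩,⟨0,[(28,0)]⟩⟩,.a ⟨true,(-1),⟨0,[(1,0)]⟩,⟨0,[(2,0),(46,0)]⟩⟩ ⟨true,0,⟨0,[(46,0)]⟩,⟨1,[(35,0),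
  (0,0)]⟩⟩ ⟨false,1,⟨1,[(49,0),(0,0)]⟩,⟨1,[(35,0),(0,0)]⟩⟩]⟩) (.Q [1,-1,0,1,0,0,0,0,1,-1,0,1] (.p
  true [0,0,0,0,1] [1] (⟨0,[(31,0)]⟩,⟨0,[(30,0)]⟩) .k 1 (⟨0,[]⟩,⟨0,[]⟩) .k .k) (.R ⟨2,true,false,
  true,[0,1],[1,0,0,0,-1],[1,1,1],(⟨0,[]⟩,⟨0,[]⟩),(⟨0,[(31,0)]⟩,⟨0,[(32,0)]⟩),⟨0,[]⟩,.k,.k,.k,(.r 0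
  ⟨1,[(15,0),(13,0),(0,0)]⟩ ⟨9,[(24,4),(4,1),(0,1),(20,2),(1,0)]⟩),.k,.k,⟨false,0,⟨0,[]⟩,⟨9,[(29,3),
  (0,3),(19,4),(0,0),(1,1)]⟩⟩,⟨true,0,⟨0,[(3,0)]⟩,⟨0,[(4,0)]⟩⟩,⟨true,0,⟨0,[(48,0)]⟩,⟨0,[(49,0)]⟩⟩,
  ⟨false,1,⟨45,[(3,35),(2,3),(17,22),(1,1),(2,9),(9,3),(2,7),(8,12),(0,1),(0,2)]⟩,⟨0,[(0,0)]⟩⟩,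
  ⟨false,0,⟨0,[]⟩,⟨1,[(29,0),(0,0),(20,0)]⟩⟩,⟨true,0,⟨0,[(3,0),(43,0)]⟩,⟨0,[(4,0)]⟩⟩,[]⟩) (.Q [-1,1,
  0,-2,0,0,0,0,-1,1,0,-1] (.p false [0,0,0,0,1] [1] (⟨0,[(32,0)]⟩,⟨0,[(31,0)]⟩) .k 1 (⟨0,[]⟩,⟨0,
  []⟩) .k .k) (.R ⟨1,false,false,false,[1,0,0,0,-1],[0,1],[1,1,1],(⟨0,[(32,0)]⟩,⟨0,[(33,0)]⟩),(⟨0,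
  [(44,0)]⟩,⟨0,[(43,0)]⟩),⟨1,[(2,0),(9,0),(16,0),(2,0)]⟩,.k,.k,(.r (-1) ⟨9,[(25,4),(4,1),(0,1),(20,
  2),(1,0)]⟩ ⟨1,[(16,0),(13,0),(0,0)]⟩),(.r (-1) ⟨9,[(25,4),(4,1),(0,1),(20,2),(1,0)]⟩ ⟨1,[(16,0),
  (13,0),(0,0)]⟩),(.r (-2) ⟨1,[(25,1),(4,0),(0,0),(20,0)]⟩ ⟨0,[(16,0)]⟩),.k,⟨true,0,⟨0,[(49,0)]⟩,⟨1,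
  [(16,0),(35,0)]⟩⟩,⟨false,1,⟨0,[(5,0),(45,0)]⟩,⟨0,[(4,0)]⟩⟩,⟨false,0,⟨1,[(37,0),(0,0)]⟩,⟨1,[(10,1),
  (1,1),(24,1),(3,7),(4,0),(5,0)]⟩⟩,⟨true,0,⟨0,[(5,0),(44,0)]⟩,⟨0,[(1,0)]⟩⟩,⟨true,(-1),⟨1,[(8,0),(5,
  0),(33,0)]⟩,⟨9,[(25,4),(4,1),(0,1),(20,2),(1,0)]⟩⟩,⟨true,0,⟨0,[(5,0),(44,1)]⟩,⟨0,[(0,0)]⟩⟩,[.a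
  ⟨true,0,⟨0,[(50,0)]⟩,⟨5,[(0,0),(2,0),(5,0),(5,0),(18,3),(2,4),(14,0)]⟩⟩ ⟨false,0,⟨0,[(54,0)]⟩,⟨1,
  [(51,0),(0,0)]⟩⟩ ⟨true,0,⟨0,[(5,0),(44,0)]⟩,⟨3,[(0,2),(3,0),(3,0),(5,0),(37,1)]⟩⟩,.o ⟨false,1,⟨1,
  [(42,0),(7,1),(1,0)]⟩,⟨0,[(49,0)]⟩⟩,.o ⟨false,1,⟨0,[(30,0)]⟩,⟨0,[(5,0)]⟩⟩,.e ⟨false,0,⟨0,[]⟩,⟨1,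
  [(30,0),(0,0),(20,0)]⟩⟩ ⟨false,1,⟨1,[(5,1),(44,1),(0,0),(0,0)]⟩,⟨3,[(0,2),(3,0),(3,0),(5,0),(37,
  1)]⟩⟩]⟩) (.R ⟨1,true,false,false,[1,0,0,0,-1],[0,1],[0,1,1],(⟨0,[(32,0)]⟩,⟨0,[(33,0)]⟩),(⟨0,[(44,
  0)]⟩,⟨0,[(43,0)]⟩),⟨1,[(2,0),(9,0),(16,0),(2,0)]⟩,.k,.k,(.r (-1) ⟨9,[(25,4),(4,1),(0,1),(20,2),(1,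
  0)]⟩ ⟨1,[(16,0),(13,0),(0,0)]⟩),(.r (-1) ⟨9,[(25,4),(4,1),(0,1),(20,2),(1,0)]⟩ ⟨1,[(16,0),(13,0),
  (0,0)]⟩),(.r (-2) ⟨1,[(25,1),(4,0),(0,0),(20,0)]⟩ ⟨0,[(16,0)]⟩),.k,⟨true,0,⟨0,[(49,0)]⟩,⟨0,[(47,
  0)]⟩⟩,⟨false,1,⟨0,[(0,0),(24,0)]⟩,⟨0,[(4,0)]⟩⟩,⟨false,0,⟨1,[(37,0),(0,0)]⟩,⟨1,[(51,0),(0,0)]⟩⟩,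
  ⟨true,0,⟨9,[(0,3),(4,3),(10,0),(14,1),(10,0),(2,1)]⟩,⟨0,[(1,0)]⟩⟩,⟨true,(-1),⟨1,[(8,0),(5,0),(33,
  0)]⟩,⟨3,[(25,1),(4,0),(0,0),(20,0)]⟩⟩,⟨false,0,⟨0,[(0,0)]⟩,⟨9,[(4,9),(4,1),(5,1),(9,3),(11,1),(4,
  0),(6,3),(2,4)]⟩⟩,[]⟩)))) (.Q [1,-1,0,0,0,0,0,0,1,0,0,1] (.p true [0,0,0,0,1] [] (⟨0,[(30,0)]⟩,⟨0,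
  [(29,0)]⟩) .k 0 (⟨0,[]⟩,⟨0,[]⟩) .k .k) (.R ⟨2,true,false,false,[0,1],[0,0,0,0,1],[1,0,1],(⟨0,[]⟩,
  ⟨0,[]⟩),(⟨0,[(31,0)]⟩,⟨0,[(30,0)]⟩),⟨0,[]⟩,.k,.k,.k,(.r 0 ⟨3,[(14,0),(13,0),(0,0),(15,1),(6,1)]⟩
  ⟨3,[(23,1),(4,0),(0,0),(20,0)]⟩),.k,.k,⟨true,0,⟨1,[(35,0),(0,0)]⟩,⟨0,[]⟩⟩,⟨false,0,⟨0,[(29,0)]⟩,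
  ⟨0,[(1,0)]⟩⟩,⟨false,1,⟨0,[(47,0),(2,0)]⟩,⟨0,[(48,0)]⟩⟩,⟨true,0,⟨0,[(4,0)]⟩,⟨0,[(1,0),(9,0),(23,0),
  (10,0)]⟩⟩,⟨true,0,⟨0,[]⟩,⟨0,[(52,0)]⟩⟩,⟨false,0,⟨0,[(0,0)]⟩,⟨7,[(1,1),(0,1),(25,3),(15,0),(5,0),
  (1,1)]⟩⟩,[]⟩) (.R ⟨1,false,false,false,[0,0,1],[0,0,0,0,1],[0,0,0,0,0,0,0,1],(⟨0,[(38,0)]⟩,⟨0,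
  [(37,0)]⟩),(⟨0,[(31,0)]⟩,⟨0,[(30,0)]⟩),⟨0,[(27,0)]⟩,.k,.k,.k,.k,(.r (-1) ⟨21,[(7,7),(14,1),(0,1),
  (1,5),(7,11),(10,2),(4,0),(0,7)]⟩ ⟨3,[(6,1),(12,1),(8,0),(0,0),(19,0)]⟩),.k,⟨true,0,⟨29,[(8,1),(1,
  1),(1,3),(7,23),(12,1),(5,7),(4,0),(5,2)]⟩,⟨0,[(19,0)]⟩⟩,⟨false,0,⟨0,[(3,0),(28,0)]⟩,⟨0,[(1,0),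
  (33,0)]⟩⟩,⟨false,1,⟨1,[(28,0),(0,0),(20,0)]⟩,⟨0,[]⟩⟩,⟨false,0,⟨2,[(3,0),(0,1),(4,1),(3,0),(36,
  0)]⟩,⟨0,[(0,0),(32,0),(16,0)]⟩⟩,⟨true,0,⟨0,[(48,0)]⟩,⟨0,[(47,0)]⟩⟩,⟨false,0,⟨0,[(4,0),(4,0)]⟩,⟨0,
  [(0,0),(20,0),(28,0)]⟩⟩,[.o ⟨false,0,⟨0,[(3,0)]⟩,⟨3,[(0,0),(27,2),(21,0),(1,0)]⟩⟩,.o ⟨false,1,⟨1,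
  [(29,1),(10,0),(9,0)]⟩,⟨0,[(0,0)]⟩⟩,.o ⟨false,1,⟨1,[(35,1),(4,0),(8,0)]⟩,⟨0,[(24,0)]⟩⟩,.a ⟨true,0,
  ⟨0,[(35,0)]⟩,⟨0,[(32,0)]⟩⟩ ⟨false,1,⟨1,[(20,1),(28,0),(0,0)]⟩,⟨0,[(19,0)]⟩⟩ ⟨true,0,⟨0,[(3,0),(28,
  0)]⟩,⟨0,[(0,0),(34,0)]⟩⟩]⟩))) (.Q [0,0,0,0,0,-1,0,0,0,1,0,-1] (.ed true [0,1,0,0,1] .k) (.R ⟨1,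
  false,false,false,[1,0,0,0,-1],[0,1],[0,0,1],(⟨0,[(29,0)]⟩,⟨0,[(30,0)]⟩),(⟨0,[(41,0)]⟩,⟨0,[(40,
  0)]⟩),⟨0,[(0,0)]⟩,.k,.k,(.r (-1) ⟨9,[(22,4),(4,1),(0,1),(20,2),(1,0)]⟩ ⟨1,[(13,0),(13,0),(0,0)]⟩),
  (.r (-1) ⟨9,[(22,4),(4,1),(0,1),(20,2),(1,0)]⟩ ⟨1,[(13,0),(13,0),(0,0)]⟩),(.r (-2) ⟨1,[(22,1),(4,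
  0),(0,0),(20,0)]⟩ ⟨0,[(13,0)]⟩),.k,⟨false,1,⟨3,[(22,1),(4,0),(0,0),(20,0)]⟩,⟨0,[(47,0)]⟩⟩,⟨true,0,
  ⟨0,[(1,0)]⟩,⟨1,[(11,0),(0,0),(14,1),(3,0),(2,1),(9,1)]⟩⟩,⟨true,0,⟨1,[(34,0),(0,0)]⟩,⟨0,[(45,0)]⟩⟩,
  ⟨false,0,⟨0,[(1,0),(42,0)]⟩,⟨8,[(12,2),(7,2),(6,8),(3,3),(2,3),(3,1),(1,1),(8,2)]⟩⟩,⟨false,0,⟨0,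
  [(44,0)]⟩,⟨3,[(22,1),(4,0),(0,0),(20,0)]⟩⟩,⟨false,0,⟨0,[(1,0),(42,0),(2,0)]⟩,⟨8,[(12,5),(7,5),(6,
  8),(3,1),(2,1),(3,0),(1,0),(8,5)]⟩⟩,[.a ⟨true,0,⟨0,[(47,0)]⟩,⟨2,[(12,0),(7,0),(10,1),(2,1),(14,
  0)]⟩⟩ ⟨true,0,⟨1,[(34,0),(0,0)]⟩,⟨0,[]⟩⟩ ⟨false,0,⟨0,[(1,0),(45,0)]⟩,⟨2,[(12,0),(7,0),(6,2),(3,1),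
  (2,1),(14,0)]⟩⟩,.o ⟨false,1,⟨1,[(39,0),(7,1),(1,0)]⟩,⟨0,[(46,0)]⟩⟩,.o ⟨false,1,⟨0,[(27,0)]⟩,⟨0,
  [(2,0)]⟩⟩,.o ⟨false,1,⟨1,[(27,1),(6,0),(0,0)]⟩,⟨0,[(1,0)]⟩⟩]⟩) (.R ⟨0,false,false,true,[1,0,0,0,
  -1],[1,-1],[0,1,-1,-1],(⟨0,[(29,0)]⟩,⟨0,[(30,0)]⟩),(⟨0,[(40,0)]⟩,⟨0,[(41,0)]⟩),⟨0,[(0,0)]⟩,.k,.k,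
  (.r (-1) ⟨9,[(22,4),(4,1),(0,1),(20,2),(1,0)]⟩ ⟨1,[(13,0),(13,0),(0,0)]⟩),(.r 0 ⟨3,[(13,0),(13,0),
  (0,0),(15,1),(6,1)]⟩ ⟨3,[(22,1),(4,0),(0,0),(20,0)]⟩),.k,.k,⟨false,1,⟨1,[(27,0),(0,0),(19,0)]⟩,⟨0,
  []⟩⟩,⟨true,(-1),⟨1,[(1,1),(9,0),(0,0),(18,0),(2,1),(9,1)]⟩,⟨0,[(27,0)]⟩⟩,⟨false,1,⟨3,[(22,1),(4,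
  0),(0,0),(20,0)]⟩,⟨1,[(13,0),(35,0)]⟩⟩,⟨true,(-1),⟨1,[(1,1),(9,0),(0,0),(18,0),(2,1)]⟩,⟨0,[(27,0),
  (19,0)]⟩⟩,⟨false,0,⟨0,[]⟩,⟨0,[]⟩⟩,⟨false,0,⟨0,[]⟩,⟨0,[]⟩⟩,[.o ⟨false,0,⟨0,[(46,0)]⟩,⟨1,[(39,0),(7,
  1),(1,0)]⟩⟩,.a ⟨true,0,⟨2,[(12,0),(7,0),(10,1),(2,1),(14,0)]⟩,⟨0,[(47,0)]⟩⟩ ⟨true,1,⟨3,[(22,1),(4,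
  0),(0,0),(20,0)]⟩,⟨0,[(10,0),(23,0)]⟩⟩ ⟨false,0,⟨2,[(1,2),(10,0),(7,0),(10,1),(2,1),(14,0)]⟩,⟨0,
  [(27,0),(19,0)]⟩⟩,.o ⟨false,1,⟨0,[(27,0)]⟩,⟨0,[(2,0)]⟩⟩,.o ⟨false,1,⟨1,[(27,1),(6,0),(0,0)]⟩,⟨0,
  [(1,0)]⟩⟩]⟩))))))))) (.Q [0,0,0,0,0,1,0,0,0,-1,0,1] (.ed false [0,1,0,0,1] .k) (.Q [-1,0,0,-1,0,0,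
  0,0,-1,1,0,-1] (.p false [0,0,0,0,1] [1] (⟨0,[(23,0)]⟩,⟨0,[(22,0)]⟩) .k 1 (⟨0,[]⟩,⟨0,[]⟩) .k .k)
  (.R ⟨0,false,false,true,[1,0,0,0,-1],[0,1],[1,1,1],(⟨0,[(23,0)]⟩,⟨0,[(24,0)]⟩),(⟨0,[(35,0)]⟩,⟨0,
  [(34,0)]⟩),⟨0,[(1,0)]⟩,.k,.k,(.r (-1) ⟨9,[(16,4),(4,1),(0,1),(20,2),(1,0)]⟩ ⟨1,[(7,0),(13,0),(0,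
  0)]⟩),(.r (-1) ⟨9,[(16,4),(4,1),(0,1),(20,2),(1,0)]⟩ ⟨1,[(7,0),(13,0),(0,0)]⟩),.k,.k,⟨false,1,⟨3,
  [(16,1),(4,0),(0,0),(20,0)]⟩,⟨0,[(41,0)]⟩⟩,⟨true,1,⟨1,[(22,1),(10,0),(8,0)]⟩,⟨0,[(0,0),(3,0),(23,
  0)]⟩⟩,⟨false,0,⟨1,[(28,0),(0,0)]⟩,⟨0,[(39,0),(3,0)]⟩⟩,⟨true,0,⟨1,[(7,0),(14,1),(10,0),(5,1)]⟩,⟨0,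
  [(0,0)]⟩⟩,⟨false,0,⟨0,[]⟩,⟨0,[]⟩⟩,⟨false,0,⟨0,[]⟩,⟨0,[]⟩⟩,[.o ⟨false,0,⟨1,[(7,0),(25,0),(5,1)]⟩,
  ⟨3,[(2,0),(9,0),(3,0),(12,0),(13,2)]⟩⟩,.e ⟨false,0,⟨0,[]⟩,⟨1,[(21,0),(0,0),(19,0)]⟩⟩ ⟨false,1,⟨1,
  [(22,1),(10,0),(7,1),(0,0)]⟩,⟨0,[(0,0)]⟩⟩,.a ⟨true,0,⟨0,[(0,0),(40,0)]⟩,⟨0,[(22,0)]⟩⟩ ⟨false,0,⟨1,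
  [(28,0),(0,0)]⟩,⟨1,[(42,0),(0,0)]⟩⟩ ⟨true,0,⟨1,[(7,0),(14,1),(10,0),(5,1)]⟩,⟨0,[(0,0)]⟩⟩,.o
  ⟨false,0,⟨1,[(0,1),(6,0),(25,0)]⟩,⟨1,[(22,1),(10,0),(8,0)]⟩⟩]⟩) (.Q [1,1,0,-2,-1,0,0,0,1,0,0,1]
  (.p true [0,0,0,0,1] [] (⟨0,[(24,0)]⟩,⟨0,[(23,0)]⟩) .k 0 (⟨0,[]⟩,⟨0,[]⟩) .k .k) (.R ⟨1,false,
  false,false,[0,0,0,0,1],[0,1],[],(⟨0,[(25,0)]⟩,⟨0,[(24,0)]⟩),(⟨0,[(36,0)]⟩,⟨0,[(35,0)]⟩),⟨1,[(2,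
  0),(1,0),(16,0),(3,0)]⟩,.k,.k,(.r (-1) ⟨3,[(17,1),(4,0),(0,0),(20,0)]⟩ ⟨3,[(8,0),(13,0),(0,0),(15,
  1),(6,1)]⟩),(.r (-1) ⟨3,[(17,1),(4,0),(0,0),(20,0)]⟩ ⟨3,[(8,0),(13,0),(0,0),(15,1),(6,1)]⟩),(.r
  (-2) ⟨1,[(17,1),(4,0),(0,0),(20,0)]⟩ ⟨0,[(5,0),(23,0),(12,0)]⟩),.k,⟨true,1,⟨3,[(17,1),(4,0),(0,0),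
  (20,0)]⟩,⟨0,[(5,0),(23,0)]⟩⟩,⟨false,2,⟨0,[(22,0),(20,0)]⟩,⟨0,[(0,0),(38,0),(2,0)]⟩⟩,⟨false,1,⟨4,
  [(22,1),(0,1),(20,2),(1,0)]⟩,⟨0,[]⟩⟩,⟨true,1,⟨0,[(22,0),(19,0)]⟩,⟨0,[(0,0),(41,0)]⟩⟩,⟨true,0,⟨0,
  [(5,0),(23,0),(10,1),(3,0)]⟩,⟨0,[(41,0)]⟩⟩,⟨true,1,⟨0,[(22,0),(19,1)]⟩,⟨0,[(0,0)]⟩⟩,[.a ⟨true,0,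
  ⟨0,[(42,0)]⟩,⟨3,[(3,0),(3,0),(18,2),(2,2),(14,0)]⟩⟩ ⟨false,1,⟨1,[(22,0),(0,0),(19,0)]⟩,⟨0,[]⟩⟩
  ⟨true,1,⟨0,[(22,0),(19,0)]⟩,⟨1,[(0,1),(4,0),(23,0),(12,0),(1,0)]⟩⟩,.o ⟨false,1,⟨1,[(34,0),(7,1),
  (1,0)]⟩,⟨0,[(41,0)]⟩⟩,.o ⟨false,0,⟨4,[(0,1),(0,2),(36,0),(3,0),(1,0)]⟩,⟨0,[(22,0)]⟩⟩,.e ⟨false,1,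
  ⟨1,[(43,0),(0,0)]⟩,⟨1,[(29,0),(0,0)]⟩⟩ ⟨false,2,⟨1,[(22,1),(19,1),(0,0),(0,0)]⟩,⟨1,[(0,1),(4,0),
  (23,0),(12,0),(1,0)]⟩⟩]⟩) (.Q [-1,1,0,0,0,0,0,0,-1,0,0,-1] (.p false [0,0,0,0,1] [] (⟨0,[(25,0)]⟩,
  ⟨0,[(24,0)]⟩) .k 0 (⟨0,[]⟩,⟨0,[]⟩) .k .k) (.Q [0,0,2,0,0,0,1,0,-1,0,1,-1] (.p true [0,0,1] [0,0,0,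
  0,1] (⟨0,[(33,0)]⟩,⟨0,[(32,0)]⟩) .k 2 (⟨0,[(26,0)]⟩,⟨0,[(25,0)]⟩) .k (.r 0 ⟨0,[(4,0),(1,1),(23,0),
  (10,2),(3,1)]⟩ ⟨1,[(1,0),(12,1),(3,0),(5,0)]⟩)) (.Q [0,0,1,0,0,0,0,0,-1,0,0,-1] (.p false [0,0,0,
  0,1] [] (⟨0,[(27,0)]⟩,⟨0,[(26,0)]⟩) .k 0 (⟨0,[]⟩,⟨0,[]⟩) .k .k) (.R ⟨0,false,false,true,[1,0,0,0,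
  -1],[1,0,-1],[0,1],(⟨0,[(27,0)]⟩,⟨0,[(28,0)]⟩),(⟨0,[(34,0)]⟩,⟨0,[(35,0)]⟩),⟨0,[(5,0)]⟩,.k,.k,(.r
  (-1) ⟨9,[(20,4),(4,1),(0,1),(20,2),(1,0)]⟩ ⟨3,[(3,0),(7,0),(14,0),(5,0),(0,0),(15,0)]⟩),.k,.k,.k,
  ⟨true,0,⟨0,[(6,0),(1,1),(23,0),(10,2),(3,1)]⟩,⟨0,[(16,0)]⟩⟩,⟨false,0,⟨61,[(4,61),(2,3),(0,3),(1,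
  21),(2,21),(10,3),(4,35),(6,11),(9,14),(0,10)]⟩,⟨0,[(1,0),(44,0)]⟩⟩,⟨false,0,⟨0,[]⟩,⟨1,[(25,0),(0,
  0),(20,0)]⟩⟩,⟨true,(-1),⟨1,[(4,1),(5,0),(3,0)]⟩,⟨0,[(3,0),(2,0)]⟩⟩,⟨false,0,⟨0,[]⟩,⟨0,[]⟩⟩,⟨false,
  0,⟨0,[]⟩,⟨0,[]⟩⟩,[.a ⟨true,(-1),⟨0,[(14,0)]⟩,⟨0,[(30,0),(16,0)]⟩⟩ ⟨false,0,⟨0,[(43,0)]⟩,⟨1,[(25,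
  0),(0,0),(20,0)]⟩⟩ ⟨true,(-1),⟨0,[(4,0),(5,0),(34,0)]⟩,⟨1,[(1,0),(1,0),(2,0),(10,0),(29,0)]⟩⟩,.o
  ⟨false,0,⟨1,[(14,1),(22,0),(9,0)]⟩,⟨1,[(30,1),(6,0),(9,0)]⟩⟩,.e ⟨true,0,⟨0,[(49,0)]⟩,⟨0,[]⟩⟩
  ⟨true,(-1),⟨0,[(4,0),(5,0),(34,0)]⟩,⟨0,[(3,0),(2,0)]⟩⟩,.o ⟨false,0,⟨0,[(0,0)]⟩,⟨1,[(26,1),(10,0),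
  (8,0)]⟩⟩]⟩) (.Q [1,0,0,0,0,0,0,0,1,-1,0,1] (.p true [0,0,0,0,1] [1] (⟨0,[(28,0)]⟩,⟨0,[(27,0)]⟩)
  .k 1 (⟨0,[]⟩,⟨0,[]⟩) .k .k) (.R ⟨1,false,false,false,[0,0,1],[0,0,0,0,1],[1,0,0,-1,0,0,0,1],(⟨0,
  [(36,0)]⟩,⟨0,[(35,0)]⟩),(⟨0,[(29,0)]⟩,⟨0,[(28,0)]⟩),⟨0,[(25,0)]⟩,.k,.k,.k,.k,(.r (-1) ⟨1,[(20,1),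
  (26,0),(0,0)]⟩ ⟨3,[(4,0),(0,0),(10,0),(0,2),(15,0)]⟩),.k,⟨true,0,⟨0,[(1,0),(1,0),(3,0),(1,0),(38,
  0)]⟩,⟨3,[(4,0),(0,0),(10,0),(0,2),(15,0)]⟩⟩,⟨false,0,⟨47,[(0,21),(0,25),(7,5),(1,1),(2,1),(8,5),
  (6,27),(11,6),(5,0)]⟩,⟨0,[(2,0),(44,0)]⟩⟩,⟨false,1,⟨3,[(7,0),(9,0),(3,0),(12,0),(13,2)]⟩,⟨0,[(46,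
  0)]⟩⟩,⟨false,0,⟨0,[(0,0),(14,0),(32,0)]⟩,⟨0,[(4,0),(2,0)]⟩⟩,⟨true,0,⟨0,[]⟩,⟨0,[(50,0)]⟩⟩,⟨false,0,
  ⟨0,[(5,0),(9,0),(32,0)]⟩,⟨1,[(3,0),(0,0),(2,1),(40,0)]⟩⟩,[.o ⟨false,0,⟨0,[(0,0)]⟩,⟨8,[(3,1),(0,0),
  (16,0),(4,5),(21,0),(0,1)]⟩⟩,.o ⟨false,1,⟨1,[(27,1),(10,0),(9,0)]⟩,⟨0,[(3,0)]⟩⟩,.o ⟨false,1,⟨1,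
  [(33,1),(4,0),(8,0)]⟩,⟨0,[(22,0)]⟩⟩,.a ⟨true,0,⟨0,[(33,0)]⟩,⟨0,[(30,0)]⟩⟩ ⟨false,1,⟨1,[(14,1),(32,
  0),(0,0)]⟩,⟨3,[(4,0),(0,0),(10,0),(0,2),(15,0)]⟩⟩ ⟨true,0,⟨0,[(0,0),(29,0)]⟩,⟨0,[(3,0),(29,
  0)]⟩⟩]⟩) (.R ⟨2,true,false,true,[0,1],[1,0,0,0,-1],[0,0,1,1],(⟨0,[]⟩,⟨0,[]⟩),(⟨0,[(28,0)]⟩,⟨0,
  [(29,0)]⟩),⟨0,[]⟩,.k,.k,.k,(.r 0 ⟨3,[(4,0),(7,0),(14,0),(5,0),(0,0),(15,0)]⟩ ⟨9,[(21,4),(4,1),(0,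
  1),(20,2),(1,0)]⟩),.k,.k,⟨true,0,⟨0,[(43,0)]⟩,⟨0,[(45,0)]⟩⟩,⟨false,0,⟨0,[(0,0)]⟩,⟨1,[(27,1),(10,
  0),(8,0)]⟩⟩,⟨false,1,⟨1,[(26,0),(0,0),(20,0)]⟩,⟨0,[]⟩⟩,⟨true,0,⟨0,[(0,0),(44,0)]⟩,⟨0,[(5,0)]⟩⟩,
  ⟨true,0,⟨0,[(46,0)]⟩,⟨0,[(45,0)]⟩⟩,⟨false,0,⟨0,[(0,0)]⟩,⟨1,[(27,1),(10,0),(9,0)]⟩⟩,[]⟩))) (.Q [1,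
  0,0,0,0,0,0,0,1,-1,0,1] (.p true [0,0,0,0,1] [1] (⟨0,[(27,0)]⟩,⟨0,[(26,0)]⟩) .k 1 (⟨0,[]⟩,⟨0,[]⟩)
  .k .k) (.R ⟨1,false,false,false,[0,0,1],[0,0,0,0,1],[1,0,0,-1,0,0,0,1],(⟨0,[(35,0)]⟩,⟨0,[(34,
  0)]⟩),(⟨0,[(28,0)]⟩,⟨0,[(27,0)]⟩),⟨0,[(24,0)]⟩,.k,.k,.k,.k,(.r (-1) ⟨1,[(19,1),(26,0),(0,0)]⟩ ⟨3,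
  [(3,0),(0,0),(10,0),(0,2),(15,0)]⟩),.k,⟨true,0,⟨0,[(1,0),(0,0),(3,0),(1,0),(23,0),(14,0)]⟩,⟨3,[(3,
  0),(0,0),(10,0),(0,2),(15,0)]⟩⟩,⟨false,0,⟨8,[(0,1),(0,4),(20,1),(3,1),(21,0)]⟩,⟨1,[(2,1),(29,1),
  (13,0),(0,0)]⟩⟩,⟨false,1,⟨3,[(6,0),(9,0),(3,0),(12,0),(13,2)]⟩,⟨0,[(45,0)]⟩⟩,⟨false,0,⟨1,[(4,1),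
  (5,0),(3,0),(32,1)]⟩,⟨0,[(3,0),(2,0)]⟩⟩,⟨true,0,⟨0,[]⟩,⟨0,[(49,0)]⟩⟩,⟨false,0,⟨0,[(4,0),(9,0),(32,
  0)]⟩,⟨1,[(2,0),(0,0),(2,1),(40,0)]⟩⟩,[.o ⟨false,0,⟨0,[(0,0)]⟩,⟨8,[(2,1),(0,0),(16,0),(4,5),(21,0),
  (0,1)]⟩⟩,.o ⟨false,1,⟨1,[(26,1),(10,0),(9,0)]⟩,⟨0,[(2,0)]⟩⟩,.o ⟨false,1,⟨1,[(32,1),(4,0),(8,0)]⟩,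
  ⟨0,[(21,0)]⟩⟩,.a ⟨true,0,⟨0,[(32,0)]⟩,⟨0,[(29,0)]⟩⟩ ⟨false,1,⟨1,[(13,1),(32,0),(0,0)]⟩,⟨3,[(3,0),
  (0,0),(10,0),(0,2),(15,0)]⟩⟩ ⟨true,0,⟨3,[(0,0),(0,1),(20,0),(3,0)]⟩,⟨0,[(2,0),(29,0)]⟩⟩]⟩) (.R ⟨2,
  true,false,true,[0,1],[1,0,0,0,-1],[0,0,1,1],(⟨0,[]⟩,⟨0,[]⟩),(⟨0,[(27,0)]⟩,⟨0,[(28,0)]⟩),⟨0,[]⟩,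
  .k,.k,.k,(.r 0 ⟨3,[(3,0),(7,0),(14,0),(5,0),(0,0),(15,0)]⟩ ⟨9,[(20,4),(4,1),(0,1),(20,2),(1,0)]⟩),
  .k,.k,⟨true,0,⟨0,[(42,0)]⟩,⟨0,[(44,0)]⟩⟩,⟨false,0,⟨0,[(0,0)]⟩,⟨1,[(26,1),(10,0),(8,0)]⟩⟩,⟨false,1,
  ⟨1,[(25,0),(0,0),(20,0)]⟩,⟨0,[]⟩⟩,⟨true,0,⟨0,[(0,0),(43,0)]⟩,⟨0,[(4,0)]⟩⟩,⟨true,0,⟨0,[(45,0)]⟩,⟨0,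
  [(44,0)]⟩⟩,⟨false,0,⟨0,[(0,0)]⟩,⟨1,[(26,1),(10,0),(9,0)]⟩⟩,[]⟩))) (.Q [0,0,1,0,-1,0,0,0,1,0,0,1]
  (.p true [0,0,0,0,1] [] (⟨0,[(26,0)]⟩,⟨0,[(25,0)]⟩) .k 0 (⟨0,[]⟩,⟨0,[]⟩) .k .k) (.S ⟨1,0,[1],[0,0,
  0,0,1],[1,0,1],(⟨0,[(27,0)]⟩,⟨0,[(26,0)]⟩),⟨1,[(4,0),(1,0),(16,0),(3,0)]⟩,.k,(.r (-1) ⟨3,[(19,1),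
  (4,0),(0,0),(20,0)]⟩ ⟨15,[(2,3),(7,3),(14,3),(5,2),(0,2),(14,1),(0,3)]⟩),⟨true,0,⟨1,[(31,0),(0,
  0)]⟩,⟨0,[(42,0)]⟩⟩,⟨false,1,⟨1,[(24,0),(0,0),(20,0)]⟩,⟨0,[]⟩⟩,⟨false,0,⟨1,[(10,0),(35,0)]⟩,⟨3,
  [(19,1),(4,0),(0,0),(20,0)]⟩⟩,⟨true,0,⟨0,[(44,0)]⟩,⟨0,[(43,0)]⟩⟩,[.o ⟨false,0,⟨1,[(0,0),(0,0),(34,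
  0),(5,0)]⟩,⟨13,[(2,1),(2,0),(0,0),(2,0),(13,0),(0,11),(10,2),(4,0)]⟩⟩,.e ⟨false,1,⟨1,[(24,0),(0,
  0),(20,0)]⟩,⟨0,[(42,0)]⟩⟩ ⟨false,1,⟨1,[(45,0),(0,0)]⟩,⟨0,[(48,0)]⟩⟩,.o ⟨false,0,⟨1,[(0,0),(0,0),
  (34,0),(5,0)]⟩,⟨0,[(24,0)]⟩⟩,.a ⟨true,(-1),⟨0,[(0,0)]⟩,⟨1,[(2,1),(2,0),(3,0),(18,0),(2,0),(13,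
  0)]⟩⟩ ⟨true,0,⟨0,[]⟩,⟨0,[(48,0)]⟩⟩ ⟨false,1,⟨1,[(45,0),(0,0)]⟩,⟨1,[(31,0),(0,0)]⟩⟩]⟩) (.R ⟨2,true,
  false,false,[0,1],[0,0,0,0,1],[1,0,1],(⟨0,[]⟩,⟨0,[]⟩),(⟨0,[(27,0)]⟩,⟨0,[(26,0)]⟩),⟨0,[]⟩,.k,.k,.k,
  (.r 0 ⟨15,[(2,3),(7,3),(14,3),(5,2),(0,2),(14,1),(0,3)]⟩ ⟨3,[(19,1),(4,0),(0,0),(20,0)]⟩),.k,.k,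
  ⟨true,0,⟨1,[(31,0),(0,0)]⟩,⟨0,[]⟩⟩,⟨false,0,⟨0,[(25,0)]⟩,⟨0,[(0,0)]⟩⟩,⟨false,1,⟨3,[(5,0),(9,0),(3,
  0),(12,0),(13,2)]⟩,⟨0,[(44,0)]⟩⟩,⟨true,0,⟨11,[(1,5),(3,2),(3,1),(5,0),(3,0),(5,5),(6,0),(3,0)]⟩,
  ⟨0,[(0,0),(6,0),(23,0),(10,0)]⟩⟩,⟨true,0,⟨0,[]⟩,⟨0,[(48,0)]⟩⟩,⟨false,0,⟨0,[(1,0)]⟩,⟨1,[(0,0),(23,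
  0),(22,0)]⟩⟩,[]⟩))))) (.Q [-1,0,0,0,0,0,0,0,-1,1,0,-1] (.p false [0,0,0,0,1] [1] (⟨0,[(23,0)]⟩,⟨0,
  [(22,0)]⟩) .k 1 (⟨0,[]⟩,⟨0,[]⟩) .k .k) (.Q [0,0,1,0,-1,0,-1,0,-1,1,-1,-1] (.p false [0,0,1] [1,0,
  0,0,-1] (⟨0,[(31,0)]⟩,⟨0,[(30,0)]⟩) .k 2 (⟨0,[(23,0)]⟩,⟨0,[(24,0)]⟩) .k (.r 0 ⟨0,[(13,0)]⟩ ⟨9,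
  [(12,9),(8,3),(0,3),(19,4),(0,0),(1,1)]⟩)) (.S ⟨1,0,[-1,1],[1,0,0,0,-1],[-1],(⟨0,[(24,0)]⟩,⟨0,
  [(25,0)]⟩),⟨0,[(2,0)]⟩,.k,(.r (-1) ⟨9,[(17,4),(4,1),(0,1),(20,2),(1,0)]⟩ ⟨1,[(8,0),(13,0),(0,
  0)]⟩),⟨false,1,⟨1,[(22,0),(0,0),(20,0)]⟩,⟨0,[]⟩⟩,⟨true,0,⟨0,[(46,0)]⟩,⟨0,[]⟩⟩,⟨true,0,⟨0,[(42,
  0)]⟩,⟨0,[(41,0)]⟩⟩,⟨false,0,⟨0,[(42,0)]⟩,⟨3,[(3,0),(9,0),(3,0),(12,0),(13,2)]⟩⟩,[.o ⟨false,0,⟨1,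
  [(0,0),(0,0),(27,0),(4,0),(5,1)]⟩,⟨1,[(23,1),(10,0),(9,0)]⟩⟩,.e ⟨false,1,⟨0,[(40,0),(3,0)]⟩,⟨0,
  [(46,0)]⟩⟩ ⟨false,1,⟨9,[(22,3),(0,3),(19,4),(0,0),(1,1)]⟩,⟨0,[]⟩⟩,.a ⟨true,0,⟨0,[(1,0)]⟩,⟨0,[(23,
  0)]⟩⟩ ⟨false,1,⟨4,[(22,1),(0,1),(20,2),(1,0)]⟩,⟨0,[]⟩⟩ ⟨true,0,⟨0,[(46,0)]⟩,⟨0,[]⟩⟩,.o ⟨false,0,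
  ⟨1,[(0,0),(0,0),(27,0),(4,0)]⟩,⟨1,[(23,1),(10,0),(8,0)]⟩⟩]⟩) (.R ⟨2,true,false,true,[0,1],[1,0,0,
  0,-1],[0,0,1,1],(⟨0,[]⟩,⟨0,[]⟩),(⟨0,[(24,0)]⟩,⟨0,[(25,0)]⟩),⟨0,[]⟩,.k,.k,.k,(.r 0 ⟨3,[(0,0),(7,1),
  (10,0),(2,0),(6,0)]⟩ ⟨9,[(0,0),(16,4),(1,0),(2,0),(6,0),(14,2),(1,0)]⟩),.k,.k,⟨true,0,⟨0,[(39,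
  0)]⟩,⟨0,[(41,0)]⟩⟩,⟨false,0,⟨0,[(1,0)]⟩,⟨1,[(0,0),(22,0),(2,0),(7,0)]⟩⟩,⟨false,1,⟨3,[(0,0),(18,0),
  (2,0),(6,0),(14,1)]⟩,⟨0,[]⟩⟩,⟨true,0,⟨0,[(1,0),(39,0)]⟩,⟨0,[(0,0),(4,0)]⟩⟩,⟨true,0,⟨0,[(42,0)]⟩,
  ⟨0,[(41,0)]⟩⟩,⟨false,0,⟨0,[(1,0)]⟩,⟨1,[(23,1),(10,0),(9,0)]⟩⟩,[]⟩)) (.Q [1,-1,0,0,0,0,0,0,1,-1,0,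
  1] (.p true [0,0,0,0,1] [1] (⟨0,[(24,0)]⟩,⟨0,[(23,0)]⟩) .k 1 (⟨0,[]⟩,⟨0,[]⟩) .k .k) (.R ⟨1,false,
  false,false,[1,0,0,0,-1],[0,1],[0,1,0,-1],(⟨0,[(24,0)]⟩,⟨0,[(25,0)]⟩),(⟨0,[(36,0)]⟩,⟨0,[(35,0)]⟩),
  ⟨0,[(2,0)]⟩,.k,.k,(.r (-1) ⟨9,[(17,4),(4,1),(0,1),(20,2),(1,0)]⟩ ⟨1,[(8,0),(13,0),(0,0)]⟩),(.r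
  (-1) ⟨9,[(17,4),(4,1),(0,1),(20,2),(1,0)]⟩ ⟨1,[(8,0),(13,0),(0,0)]⟩),(.r (-2) ⟨1,[(17,1),(4,0),(0,
  0),(20,0)]⟩ ⟨0,[(8,0)]⟩),.k,⟨false,1,⟨0,[(17,0)]⟩,⟨0,[(39,0),(2,0)]⟩⟩,⟨true,0,⟨0,[(0,0),(39,0)]⟩,
  ⟨1,[(6,0),(0,0),(14,1),(3,0),(2,1),(9,1)]⟩⟩,⟨true,0,⟨0,[(41,0)]⟩,⟨0,[(42,0)]⟩⟩,⟨false,0,⟨0,[(0,0),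
  (41,0)]⟩,⟨3,[(3,0),(3,0),(14,3),(3,1),(2,1),(3,0),(1,0),(8,0)]⟩⟩,⟨false,0,⟨0,[]⟩,⟨1,[(22,0),(0,0),
  (20,0)]⟩⟩,⟨false,0,⟨0,[(0,0),(41,1)]⟩,⟨5,[(3,2),(3,2),(14,5),(3,1),(2,1),(3,0),(1,0),(8,2)]⟩⟩,[.a
  ⟨true,0,⟨0,[(42,0)]⟩,⟨3,[(3,0),(3,0),(18,2),(2,2),(14,0)]⟩⟩ ⟨true,0,⟨0,[(41,0)]⟩,⟨0,[(39,0)]⟩⟩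
  ⟨false,0,⟨0,[(0,0),(39,0),(1,0)]⟩,⟨3,[(3,0),(3,0),(14,3),(3,2),(2,2),(14,0)]⟩⟩,.o ⟨false,1,⟨1,
  [(34,0),(7,1),(1,0)]⟩,⟨0,[(41,0)]⟩⟩,.o ⟨false,1,⟨0,[(22,0)]⟩,⟨1,[(0,0),(0,0),(44,0)]⟩⟩,.o ⟨false,
  1,⟨1,[(22,1),(6,0),(0,0)]⟩,⟨0,[(0,0),(39,0)]⟩⟩]⟩) (.Q [1,-1,0,-1,0,0,0,0,1,0,0,1] (.p true [0,0,0,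
  0,1] [] (⟨0,[(25,0)]⟩,⟨0,[(24,0)]⟩) .k 0 (⟨0,[]⟩,⟨0,[]⟩) .k .k) (.Q [0,0,1,0,0,0,0,0,-1,1,0,-1]
  (.p false [0,0,0,0,1] [1] (⟨0,[(26,0)]⟩,⟨0,[(25,0)]⟩) .k 1 (⟨0,[]⟩,⟨0,[]⟩) .k .k) (.R ⟨1,false,
  false,false,[1,0,0,0,-1],[1,-1],[-1],(⟨0,[(26,0)]⟩,⟨0,[(27,0)]⟩),(⟨0,[(37,0)]⟩,⟨0,[(38,0)]⟩),⟨0,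
  [(4,0)]⟩,.k,.k,(.r (-1) ⟨9,[(19,4),(4,1),(0,1),(20,2),(1,0)]⟩ ⟨1,[(10,0),(13,0),(0,0)]⟩),(.r 0 ⟨3,
  [(10,0),(13,0),(0,0),(15,1),(6,1)]⟩ ⟨3,[(19,1),(4,0),(0,0),(20,0)]⟩),.k,.k,⟨false,0,⟨0,[(7,0),(23,
  0),(10,1),(3,0)]⟩,⟨3,[(19,1),(4,0),(0,0),(20,0)]⟩⟩,⟨true,(-1),⟨0,[(1,0),(5,0),(23,0),(10,0)]⟩,⟨0,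
  [(24,0)]⟩⟩,⟨false,1,⟨1,[(24,0),(0,0),(20,0)]⟩,⟨0,[]⟩⟩,⟨false,0,⟨0,[(1,0)]⟩,⟨0,[(24,0),(19,0)]⟩⟩,
  ⟨true,0,⟨0,[(44,0)]⟩,⟨0,[(43,0)]⟩⟩,⟨false,0,⟨0,[(1,0),(42,0)]⟩,⟨5,[(2,1),(21,3),(15,0),(5,0)]⟩⟩,
  [.e ⟨false,1,⟨9,[(24,3),(0,3),(19,4),(0,0),(1,1)]⟩,⟨0,[]⟩⟩ ⟨false,0,⟨0,[(1,0),(40,0)]⟩,⟨0,[(24,0),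
  (19,0)]⟩⟩,.o ⟨false,1,⟨3,[(5,0),(9,0),(3,0),(12,0),(13,2)]⟩,⟨1,[(10,0),(25,0),(5,1)]⟩⟩,.o ⟨false,
  1,⟨0,[(24,0)]⟩,⟨4,[(1,1),(1,2),(6,0),(29,0),(1,1)]⟩⟩,.a ⟨true,0,⟨0,[(0,0)]⟩,⟨0,[(1,0),(40,0),(1,
  0)]⟩⟩ ⟨false,1,⟨0,[(42,0),(3,0)]⟩,⟨1,[(31,0),(0,0)]⟩⟩ ⟨true,0,⟨0,[(1,0),(40,0)]⟩,⟨1,[(2,1),(7,0),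
  (25,0)]⟩⟩]⟩) (.R ⟨1,false,false,false,[1,0,0,0,-1],[0,1],[0,1,0,-1],(⟨0,[(26,0)]⟩,⟨0,[(27,0)]⟩),
  (⟨0,[(38,0)]⟩,⟨0,[(37,0)]⟩),⟨0,[(4,0)]⟩,.k,.k,(.r (-1) ⟨9,[(19,4),(4,1),(0,1),(20,2),(1,0)]⟩ ⟨1,
  [(10,0),(13,0),(0,0)]⟩),(.r (-1) ⟨9,[(19,4),(4,1),(0,1),(20,2),(1,0)]⟩ ⟨1,[(10,0),(13,0),(0,0)]⟩),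
  (.r (-2) ⟨1,[(19,1),(4,0),(0,0),(20,0)]⟩ ⟨0,[(10,0)]⟩),.k,⟨false,1,⟨0,[(19,0)]⟩,⟨0,[(41,0),(2,
  0)]⟩⟩,⟨true,0,⟨0,[(0,0)]⟩,⟨2,[(2,1),(5,0),(0,0),(14,0),(6,1),(0,0),(8,1),(4,0)]⟩⟩,⟨true,0,⟨0,[(43,
  0)]⟩,⟨0,[(44,0)]⟩⟩,⟨false,0,⟨0,[(0,0),(40,0)]⟩,⟨13,[(2,8),(2,1),(3,1),(9,2),(1,2),(2,4),(6,5),(14,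
  7)]⟩⟩,⟨false,0,⟨0,[]⟩,⟨1,[(24,0),(0,0),(20,0)]⟩⟩,⟨false,0,⟨0,[(0,0),(40,0),(2,0)]⟩,⟨6,[(2,2),(2,
  2),(3,2),(9,0),(1,0),(2,3),(6,1),(14,4)]⟩⟩,[.a ⟨true,0,⟨0,[(44,0)]⟩,⟨0,[(1,0),(0,0)]⟩⟩ ⟨true,0,⟨0,
  [(43,0)]⟩,⟨0,[(41,0)]⟩⟩ ⟨false,0,⟨0,[(0,0),(43,0)]⟩,⟨13,[(2,8),(2,1),(3,1),(9,2),(1,2),(2,4),(6,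
  5),(14,7)]⟩⟩,.o ⟨false,1,⟨1,[(36,0),(7,1),(1,0)]⟩,⟨0,[(43,0)]⟩⟩,.o ⟨false,1,⟨0,[(24,0)]⟩,⟨2,[(0,
  0),(2,1),(43,0)]⟩⟩,.o ⟨false,1,⟨1,[(24,1),(6,0),(0,0)]⟩,⟨0,[(0,0)]⟩⟩]⟩)) (.Q [-1,-1,0,0,1,0,0,0,
  -1,0,0,-1] (.p false [0,0,0,0,1] [] (⟨0,[(26,0)]⟩,⟨0,[(25,0)]⟩) .k 0 (⟨0,[]⟩,⟨0,[]⟩) .k .k) (.R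
  ⟨1,false,false,true,[0,0,1],[0,0,0,0,1],[0,1,0,0,0,0,0,1],(⟨0,[(34,0)]⟩,⟨0,[(33,0)]⟩),(⟨0,[(27,
  0)]⟩,⟨0,[(26,0)]⟩),⟨0,[(23,0)]⟩,.k,.k,.k,.k,(.r (-1) ⟨1,[(18,1),(26,0),(0,0)]⟩ ⟨0,[(15,0),(28,
  0)]⟩),.k,⟨true,0,⟨0,[(5,0),(1,1),(23,0),(10,2),(3,1)]⟩,⟨0,[(15,0)]⟩⟩,⟨false,0,⟨61,[(3,61),(2,5),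
  (0,5),(1,1),(2,1),(10,5),(4,53),(6,17),(9,6),(0,0)]⟩,⟨0,[(0,0),(30,0),(10,0)]⟩⟩,⟨true,0,⟨0,[(48,
  0)]⟩,⟨0,[]⟩⟩,⟨true,(-1),⟨0,[(3,0),(9,0)]⟩,⟨0,[(0,0),(28,0)]⟩⟩,⟨false,0,⟨0,[(44,0)]⟩,⟨3,[(5,0),(9,
  0),(3,0),(12,0),(13,2)]⟩⟩,⟨true,(-1),⟨0,[(3,0),(10,0)]⟩,⟨1,[(0,1),(4,0),(23,0)]⟩⟩,[.o ⟨false,0,⟨0,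
  [(3,0),(44,0)]⟩,⟨0,[(0,0)]⟩⟩,.o ⟨false,0,⟨0,[(3,0)]⟩,⟨2,[(0,0),(23,1),(23,0)]⟩⟩,.o ⟨false,1,⟨1,
  [(31,1),(4,0),(8,0)]⟩,⟨0,[(20,0)]⟩⟩,.a ⟨true,0,⟨0,[(31,0)]⟩,⟨0,[(28,0)]⟩⟩ ⟨true,0,⟨0,[(8,0),(36,
  0)]⟩,⟨0,[(15,0)]⟩⟩ ⟨false,0,⟨0,[(3,0),(24,0)]⟩,⟨0,[(0,0),(30,0)]⟩⟩]⟩) (.R ⟨1,false,false,false,[1,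
  0,0,0,-1],[0,1],[-1],(⟨0,[(26,0)]⟩,⟨0,[(27,0)]⟩),(⟨0,[(38,0)]⟩,⟨0,[(37,0)]⟩),⟨0,[(4,0)]⟩,.k,.k,
  (.r (-1) ⟨9,[(19,4),(4,1),(0,1),(20,2),(1,0)]⟩ ⟨1,[(10,0),(13,0),(0,0)]⟩),(.r (-1) ⟨9,[(19,4),(4,
  1),(0,1),(20,2),(1,0)]⟩ ⟨1,[(10,0),(13,0),(0,0)]⟩),(.r (-2) ⟨1,[(19,1),(4,0),(0,0),(20,0)]⟩ ⟨0,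
  [(10,0)]⟩),.k,⟨true,1,⟨9,[(19,4),(4,1),(0,1),(20,2),(1,0)]⟩,⟨0,[(7,0),(23,0)]⟩⟩,⟨false,1,⟨0,[(3,
  0),(41,0)]⟩,⟨2,[(1,0),(0,1),(5,0),(0,0),(21,0),(9,0),(4,1)]⟩⟩,⟨false,1,⟨1,[(24,0),(0,0),(20,0)]⟩,
  ⟨0,[]⟩⟩,⟨true,0,⟨0,[(3,0),(40,0)]⟩,⟨2,[(1,0),(0,1),(2,0),(3,0),(36,0)]⟩⟩,⟨true,0,⟨0,[(44,0)]⟩,⟨0,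
  [(43,0)]⟩⟩,⟨true,0,⟨0,[(3,0),(40,1)]⟩,⟨2,[(1,1),(0,0),(2,1),(3,1),(36,1)]⟩⟩,[.a ⟨true,0,⟨0,[(44,
  0)]⟩,⟨3,[(5,0),(3,0),(18,2),(2,2),(14,0)]⟩⟩ ⟨false,1,⟨9,[(24,3),(0,3),(19,4),(0,0),(1,1)]⟩,⟨0,
  []⟩⟩ ⟨true,0,⟨0,[(3,0),(40,0)]⟩,⟨5,[(1,3),(0,1),(2,0),(2,2),(0,3),(21,2),(14,6)]⟩⟩,.o ⟨false,1,⟨1,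
  [(36,0),(7,1),(1,0)]⟩,⟨0,[(43,0)]⟩⟩,.o ⟨false,1,⟨0,[(24,0)]⟩,⟨3,[(0,1),(2,1),(36,0),(5,0)]⟩⟩,.e
  ⟨false,1,⟨0,[(42,0),(3,0)]⟩,⟨1,[(31,0),(0,0)]⟩⟩ ⟨false,1,⟨1,[(3,1),(40,1),(0,0),(0,0)]⟩,⟨5,[(1,3),
  (0,1),(2,0),(2,2),(0,3),(21,2),(14,6)]⟩⟩]⟩))))))))

theorem ok27 : chk K t27 r18 = true := by decide +kernel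


end Helper48.Y.Y11_c2_P4_m1n1
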