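import Pool.Agent.Helper48.Y.Y11_c35_P2_m1n1_CC_q

set_option autoImplicit false
set_option linter.all false

namespace Helper48.Y.Y11_c35_P2_m1n1_CC

open Helper25.KG Helper25.KW Helper55.KE Helper11.CT

noncomputable def t0 : Tre :=
  (.S ⟨1,4,[],[1,-1],[1,1],(⟨0,[(18,0)]⟩,⟨0,[(19,0)]⟩),⟨0,[(2,0),(0,0)]⟩,.k,(.r (-2) ⟨0,[(25,1),(1,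
  0),(0,0)]⟩ ⟨1,[(0,1),(10,0),(0,0),(8,1)]⟩),⟨true,(-1),⟨0,[(0,0),(20,0),(3,0)]⟩,⟨1,[(25,1),(1,0),
  (0,0)]⟩⟩,⟨false,0,⟨0,[(26,0)]⟩,⟨0,[(25,0),(2,0)]⟩⟩,⟨false,(-1),⟨0,[(0,0),(20,0)]⟩,⟨1,[(25,3),(1,
  0),(0,2)]⟩⟩,⟨true,(-1),⟨0,[(0,0)]⟩,⟨0,[(25,1),(2,0)]⟩⟩,[.o ⟨false,0,⟨0,[(30,0)]⟩,⟨9,[(4,0),(0,0),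
  (16,1),(5,4)]⟩⟩,.fa ⟨true,0,⟨0,[]⟩,⟨1,[(11,0),(0,0)]⟩⟩ ⟨false,1,⟨0,[(27,0)]⟩,⟨1,[(11,0),(0,0)]⟩⟩,
  .o ⟨false,0,⟨1,[(11,0),(0,0)]⟩,⟨9,[(4,0),(0,0),(16,1),(4,4)]⟩⟩,.e ⟨false,1,⟨1,[(4,0),(0,0),(21,
  0)]⟩,⟨0,[(21,0)]⟩⟩ ⟨false,1,⟨0,[(27,0)]⟩,⟨1,[(11,0),(0,0),(8,1)]⟩⟩]⟩)

theorem ok0 : chk K t0 l0 = true := by decide +kernel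

noncomputable def t1 : Tre :=
  (.I [1,-1,1,0,0,0,0,1] (.I [1,0,1,0,0,0,0,-1] (.Q [0,0,0,0,0,0,-1,0,0,0,-1] (.p false [0,0,1] []
  (⟨0,[(19,0)]⟩,⟨0,[(18,0)]⟩) .k 0 (⟨0,[]⟩,⟨0,[]⟩) .k .k) (.I [1,0,0,1,0,0,0,-1] (.R ⟨2,true,false,
  false,[0,1],[0,0,1],[1,1,1],(⟨0,[]⟩,⟨0,[]⟩),(⟨0,[(21,0)]⟩,⟨0,[(20,0)]⟩),⟨0,[]⟩,.k,.k,.k,.k,.k,.k,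
  ⟨false,0,⟨0,[(0,0),(31,0)]⟩,⟨0,[(3,0),(30,0)]⟩⟩,⟨true,0,⟨0,[(18,0)]⟩,⟨0,[(1,0)]⟩⟩,⟨true,0,⟨0,[(32,
  0)]⟩,⟨0,[(33,0)]⟩⟩,⟨false,1,⟨1,[(5,0),(1,0),(8,0),(18,0)]⟩,⟨0,[(0,0),(0,0)]⟩⟩,⟨false,0,⟨0,[]⟩,⟨1,
  [(11,0),(0,0),(22,0)]⟩⟩,⟨true,0,⟨0,[(5,0)]⟩,⟨0,[(17,0)]⟩⟩,[]⟩) (.Q [0,0,0,1,0,0,-1,-1,0,0,-1] (.p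
  false [0,0,1] [] (⟨0,[(21,0)]⟩,⟨0,[(20,0)]⟩) .k 0 (⟨0,[]⟩,⟨0,[]⟩) .k .k) (.R ⟨2,true,false,false,
  [0,1],[0,0,1],[0,1,1,1],(⟨0,[]⟩,⟨0,[]⟩),(⟨0,[(22,0)]⟩,⟨0,[(21,0)]⟩),⟨0,[]⟩,.k,.k,.k,.k,.k,.k,
  ⟨false,0,⟨0,[(5,0)]⟩,⟨1,[(1,1),(33,0),(0,0)]⟩⟩,⟨true,0,⟨0,[(19,0)]⟩,⟨0,[(2,0)]⟩⟩,⟨true,0,⟨0,[(38,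
  0)]⟩,⟨0,[]⟩⟩,⟨false,1,⟨1,[(6,0),(1,0),(8,0),(18,0)]⟩,⟨0,[(0,0)]⟩⟩,⟨false,0,⟨0,[(34,0)]⟩,⟨3,[(8,1),
  (3,0),(0,0),(22,0)]⟩⟩,⟨true,0,⟨0,[(6,0)]⟩,⟨0,[(18,0)]⟩⟩,[]⟩) (.I [1,0,-1,-1,1,0,0,-1] (.I [1,1,-1,
  -1,0,0,0,1] (.Q [0,-1,0,1,0,0,-1,-1,0,1,-1] (.p false [0,0,1] [1] (⟨0,[(24,0)]⟩,⟨0,[(23,0)]⟩) .k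
  1 (⟨0,[]⟩,⟨0,[]⟩) .k .k) (.S ⟨1,0,[0,0,1,1,0,0,0,-1],[1,1,-1],[0,1,1,1,0,0,0,-1],(⟨0,[(24,0),(2,
  0)]⟩,⟨0,[(14,0)]⟩),⟨0,[(24,0)]⟩,.k,.k,⟨true,0,⟨0,[(41,0)]⟩,⟨0,[]⟩⟩,⟨false,1,⟨1,[(15,0),(0,0),(22,
  0)]⟩,⟨0,[]⟩⟩,⟨false,0,⟨0,[(37,0)]⟩,⟨3,[(11,1),(3,0),(0,0),(22,0)]⟩⟩,⟨true,0,⟨0,[(37,0)]⟩,⟨0,[(36,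
  0)]⟩⟩,[.a ⟨true,0,⟨3,[(0,2),(7,0),(3,0),(9,0),(8,0)]⟩,⟨0,[(3,0)]⟩⟩ ⟨false,0,⟨0,[(8,0)]⟩,⟨0,[(1,0),
  (37,0)]⟩⟩ ⟨true,0,⟨0,[(6,0),(30,0)]⟩,⟨0,[(4,0)]⟩⟩,.a ⟨true,0,⟨0,[(0,0)]⟩,⟨1,[(3,0),(16,0),(15,
  0)]⟩⟩ ⟨true,0,⟨0,[(6,0),(30,0)]⟩,⟨0,[(4,0)]⟩⟩ ⟨false,1,⟨0,[(8,0),(30,0)]⟩,⟨0,[(1,0)]⟩⟩,.a ⟨true,0,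
  ⟨0,[(19,0)]⟩,⟨0,[(22,0)]⟩⟩ ⟨false,0,⟨0,[(6,0),(30,0)]⟩,⟨0,[(1,0),(37,0)]⟩⟩ ⟨true,0,⟨0,[(6,0),(30,
  0)]⟩,⟨0,[(1,0)]⟩⟩,.o ⟨false,0,⟨0,[(5,0)]⟩,⟨9,[(15,0),(0,0),(5,9),(10,1),(4,4)]⟩⟩]⟩) (.I [1,1,0,0,
  0,0,0,-1] (.Q [0,0,0,2,0,0,-1,-1,0,0,-1] (.p false [0,0,1] [] (⟨0,[(26,0)]⟩,⟨0,[(25,0)]⟩) .k 0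
  (⟨0,[]⟩,⟨0,[]⟩) .k .k) (.I [0,0,-2,-2,1,0,0,1] (.R ⟨1,true,false,false,[0,0,1],[0,1],[0,1,0,0,0,0,
  0,1],(⟨0,[(28,0)]⟩,⟨0,[(27,0)]⟩),(⟨0,[(33,0)]⟩,⟨0,[(32,0)]⟩),⟨0,[(17,0)]⟩,.k,.k,.k,.k,(.r (-1) ⟨0,
  [(0,0)]⟩ ⟨1,[(1,1),(23,2),(0,0)]⟩),.k,⟨true,0,⟨0,[(3,0),(18,0)]⟩,⟨1,[(1,0),(7,0),(15,0),(9,1)]⟩⟩,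
  ⟨false,1,⟨5,[(15,0),(6,3),(13,0),(4,3)]⟩,⟨0,[(25,0)]⟩⟩,⟨true,0,⟨0,[(44,0)]⟩,⟨0,[]⟩⟩,⟨false,1,⟨49,
  [(1,29),(3,9),(3,9),(5,9),(2,10),(0,10),(16,1),(5,24)]⟩,⟨0,[(6,0)]⟩⟩,⟨false,0,⟨0,[(40,0)]⟩,⟨3,
  [(14,1),(3,0),(0,0),(22,0)]⟩⟩,⟨true,0,⟨0,[(1,0)]⟩,⟨0,[(6,0),(32,0)]⟩⟩,[]⟩) (.I [0,0,-2,0,1,-2,-1]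
  (.R ⟨1,true,false,false,[0,0,1],[0,1],[0,1,0,0,0,0,0,1],(⟨0,[(29,0)]⟩,⟨0,[(28,0)]⟩),(⟨0,[(34,0)]⟩,
  ⟨0,[(33,0)]⟩),⟨0,[(18,0)]⟩,.k,.k,.k,.k,(.x 0 ⟨8,[(1,2),(2,3),(5,3),(0,2),(3,0),(10,4),(1,8),(2,
  17),(5,0)]⟩ ⟨0,[(0,0)]⟩),.k,⟨true,0,⟨0,[(4,0),(18,0)]⟩,⟨3,[(1,1),(8,1),(15,0),(0,0),(15,1)]⟩⟩,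
  ⟨false,1,⟨5,[(16,0),(6,3),(13,0),(4,3)]⟩,⟨0,[(26,0)]⟩⟩,⟨true,0,⟨0,[(45,0)]⟩,⟨0,[]⟩⟩,⟨false,1,⟨49,
  [(2,29),(3,9),(3,9),(5,9),(2,10),(0,10),(16,1),(5,24)]⟩,⟨0,[(7,0)]⟩⟩,⟨false,0,⟨0,[(41,0)]⟩,⟨3,
  [(15,1),(3,0),(0,0),(22,0)]⟩⟩,⟨true,0,⟨0,[(2,0)]⟩,⟨0,[(7,0),(32,0)]⟩⟩,[]⟩) (.R ⟨1,false,false,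
  true,[1,0,-1],[1,-1],[0,0,0,0,0,0,0,-1],(⟨0,[(28,0)]⟩,⟨0,[(29,0)]⟩),(⟨0,[(33,0)]⟩,⟨0,[(34,0)]⟩),
  ⟨0,[(17,0)]⟩,.k,.k,.k,.k,.k,.k,⟨false,1,⟨0,[(12,0),(30,0)]⟩,⟨0,[(5,0)]⟩⟩,⟨true,0,⟨0,[(26,0)]⟩,⟨0,
  [(9,0)]⟩⟩,⟨false,1,⟨1,[(19,0),(0,0),(22,0)]⟩,⟨0,[]⟩⟩,⟨false,0,⟨0,[(7,0)]⟩,⟨49,[(2,29),(3,9),(3,9),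
  (5,9),(2,10),(0,10),(16,1),(5,24)]⟩⟩,⟨true,0,⟨0,[(41,0)]⟩,⟨0,[(40,0)]⟩⟩,⟨false,0,⟨0,[(13,0)]⟩,⟨0,
  [(25,0),(17,0)]⟩⟩,[.o ⟨false,0,⟨0,[(40,0)]⟩,⟨4,[(2,0),(21,0),(12,0),(3,2),(1,2)]⟩⟩,.a ⟨true,0,⟨4,
  [(0,1),(5,0),(0,0),(7,0),(2,1),(4,2),(9,1),(6,0)]⟩,⟨0,[(41,0)]⟩⟩ ⟨true,1,⟨2,[(6,0),(3,0),(1,0),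
  (30,1)]⟩,⟨0,[(1,0),(3,0),(2,0)]⟩⟩ ⟨false,1,⟨0,[(6,0),(6,0)]⟩,⟨2,[(2,1),(2,0),(3,0),(1,0)]⟩⟩,.o
  ⟨false,0,⟨0,[(9,0)]⟩,⟨9,[(19,0),(0,0),(5,9),(10,1),(4,4)]⟩⟩,.o ⟨false,0,⟨0,[(27,0)]⟩,⟨4,[(0,1),(0,
  1),(4,0),(0,2),(10,1),(11,1),(6,0),(4,5)]⟩⟩]⟩))) (.I [0,1,0,0,0,0,0,-1] (.Q [0,0,-1,0,1,0,1,0,0,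
  -1,1] (.p true [0,0,1] [1] (⟨0,[(28,0)]⟩,⟨0,[(27,0)]⟩) .k 1 (⟨0,[]⟩,⟨0,[]⟩) .k .k) (.S ⟨1,0,[0,0,
  0,0,0,0,0,-1],[1,0,-1],[0,1,0,0,0,0,0,-1],(⟨0,[(28,0)]⟩,⟨0,[(29,0)]⟩),⟨0,[(17,0)]⟩,.k,.k,⟨true,0,
  ⟨0,[(45,0)]⟩,⟨0,[]⟩⟩,⟨false,1,⟨1,[(19,0),(0,0),(22,0)]⟩,⟨0,[]⟩⟩,⟨false,0,⟨0,[(41,0)]⟩,⟨3,[(15,1),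
  (3,0),(0,0),(22,0)]⟩⟩,⟨true,0,⟨0,[(41,0)]⟩,⟨0,[(40,0)]⟩⟩,[.a ⟨true,0,⟨0,[(10,0),(12,0)]⟩,⟨0,[(13,
  0)]⟩⟩ ⟨true,0,⟨0,[(1,0)]⟩,⟨0,[(11,0)]⟩⟩ ⟨false,1,⟨3,[(6,1),(5,1),(29,0),(0,0)]⟩,⟨1,[(5,0),(5,0),
  (29,0)]⟩⟩,.o ⟨false,1,⟨0,[(25,0),(17,0)]⟩,⟨0,[(4,0),(36,0)]⟩⟩,.o ⟨false,0,⟨0,[(9,0)]⟩,⟨20,[(0,10),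
  (18,5),(0,5),(5,9),(10,1),(6,0)]⟩⟩,.o ⟨false,0,⟨0,[(27,0)]⟩,⟨0,[(0,0)]⟩⟩]⟩) (.I [1,1,0,-1,0,0,0,
  -1] (.Q [0,0,-1,0,0,0,0,0,1,-1,0,1] (.p true [0,0,0,0,1] [1] (⟨0,[(23,0)]⟩,⟨0,[(22,0)]⟩) .k 1 (⟨0,
  []⟩,⟨0,[]⟩) .k .k) (.Q [1,0,0,0,-1,0,0,0,1,0,0,1] (.p true [0,0,0,0,1] [] (⟨0,[(24,0)]⟩,⟨0,[(23,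
  0)]⟩) .k 0 (⟨0,[]⟩,⟨0,[]⟩) .k .k) (.R ⟨2,true,false,false,[0,1],[0,0,0,0,1],[1,1,1],(⟨0,[]⟩,⟨0,
  []⟩),(⟨0,[(25,0)]⟩,⟨0,[(24,0)]⟩),⟨0,[]⟩,.k,.k,.k,(.r 0 ⟨1,[(29,0),(0,0),(13,1)]⟩ ⟨7,[(18,3),(3,0),
  (0,0),(14,1),(6,2)]⟩),.k,.k,⟨false,0,⟨0,[(48,0)]⟩,⟨1,[(45,0),(0,0)]⟩⟩,⟨true,(-1),⟨17,[(0,14),(2,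
  4),(19,2),(5,4),(10,0),(6,7)]⟩,⟨0,[(22,0)]⟩⟩,⟨true,0,⟨0,[(43,0)]⟩,⟨0,[(44,0)]⟩⟩,⟨false,0,⟨3,[(0,
  2),(17,1),(4,0),(22,0)]⟩,⟨0,[(22,0),(21,0)]⟩⟩,⟨false,0,⟨0,[]⟩,⟨1,[(22,0),(0,0),(22,0)]⟩⟩,⟨true,
  (-1),⟨0,[(0,0)]⟩,⟨0,[(22,0),(25,0)]⟩⟩,[]⟩) (.R ⟨1,false,false,true,[0,0,1],[1,0,0,0,-1],[1,1,0,-1,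
  0,0,0,1],(⟨0,[(32,0)]⟩,⟨0,[(31,0)]⟩),(⟨0,[(24,0)]⟩,⟨0,[(25,0)]⟩),⟨0,[(21,0)]⟩,.k,.k,.k,.k,(.r
  (-1) ⟨2,[(8,0),(8,1),(0,0),(26,0),(0,0)]⟩ ⟨0,[(15,0),(23,0)]⟩),.k,⟨true,0,⟨0,[(11,0)]⟩,⟨0,[(15,0),
  (23,0)]⟩⟩,⟨false,1,⟨0,[(22,0),(3,0)]⟩,⟨0,[(1,0),(27,0)]⟩⟩,⟨true,0,⟨0,[(43,0)]⟩,⟨0,[(44,0)]⟩⟩,
  ⟨false,1,⟨0,[(0,0),(12,0),(12,0)]⟩,⟨0,[(1,0),(14,0),(22,0)]⟩⟩,⟨false,0,⟨0,[]⟩,⟨1,[(22,0),(0,0),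
  (22,0)]⟩⟩,⟨false,1,⟨1,[(3,0),(11,1),(6,1),(3,0),(19,0)]⟩,⟨1,[(1,1),(3,0),(10,0),(22,1)]⟩⟩,[.o
  ⟨false,1,⟨0,[(22,0),(25,0)]⟩,⟨0,[(1,0),(37,0)]⟩⟩,.o ⟨false,1,⟨0,[(0,0)]⟩,⟨6,[(1,3),(1,1),(19,2),
  (5,1),(10,0)]⟩⟩,.o ⟨false,1,⟨9,[(22,0),(0,0),(5,9),(10,1),(4,4)]⟩,⟨0,[(12,0)]⟩⟩,.a ⟨true,0,⟨0,
  [(29,0)]⟩,⟨0,[(26,0)]⟩⟩ ⟨true,0,⟨0,[(8,0)]⟩,⟨0,[(13,0),(30,0)]⟩⟩ ⟨false,1,⟨0,[(0,0),(25,0)]⟩,⟨0,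
  [(1,0),(27,0),(9,0)]⟩⟩]⟩)) (.Q [-1,0,0,1,0,0,1,1,-1,0,1,-1] (.p true [0,0,1] [0,0,0,0,1] (⟨0,[(31,
  0)]⟩,⟨0,[(30,0)]⟩) .k 2 (⟨0,[(24,0)]⟩,⟨0,[(23,0)]⟩) .k (.r 0 ⟨3,[(2,4),(0,0),(0,4),(33,0),(0,0),
  (3,9),(0,2)]⟩ ⟨5,[(8,1),(3,1),(1,1),(6,2),(0,2),(22,0)]⟩)) (.Q [0,0,0,0,0,1,0,0,0,-1,0,1] (.ed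
  false [0,1,0,0,1] .k) (.S ⟨1,0,[1],[0,0,0,0,1],[1,1],(⟨0,[(26,0)]⟩,⟨0,[(25,0)]⟩),⟨0,[(0,0),(20,0),
  (0,0)]⟩,.k,(.r (-1) ⟨7,[(19,3),(3,0),(0,0),(14,1),(6,2)]⟩ ⟨1,[(30,0),(0,0),(13,1)]⟩),⟨true,0,⟨0,
  [(49,0)]⟩,⟨0,[]⟩⟩,⟨false,1,⟨1,[(23,0),(0,0),(22,0)]⟩,⟨0,[]⟩⟩,⟨false,0,⟨0,[(45,0)]⟩,⟨3,[(19,1),(3,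
  0),(0,0),(22,0)]⟩⟩,⟨true,0,⟨0,[(45,0)]⟩,⟨0,[(44,0)]⟩⟩,[.e ⟨true,0,⟨0,[(49,0)]⟩,⟨0,[(40,0)]⟩⟩
  ⟨true,0,⟨0,[]⟩,⟨1,[(30,0),(0,0)]⟩⟩,.o ⟨false,1,⟨9,[(23,0),(0,10),(16,1),(5,4)]⟩,⟨6,[(1,6),(1,4),
  (0,2),(5,0),(1,0),(14,1),(1,1),(11,0)]⟩⟩,.a ⟨true,0,⟨0,[(24,0)]⟩,⟨0,[(1,0),(2,0),(5,0)]⟩⟩ ⟨false,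
  0,⟨0,[]⟩,⟨1,[(23,0),(0,0),(22,0)]⟩⟩ ⟨true,0,⟨0,[]⟩,⟨0,[(49,0)]⟩⟩,.e ⟨false,1,⟨1,[(23,0),(0,0),(21,
  0)]⟩,⟨0,[(40,0)]⟩⟩ ⟨false,1,⟨1,[(46,0),(0,0)]⟩,⟨1,[(30,0),(0,0)]⟩⟩]⟩) (.S ⟨1,0,[-1,1],[1,0,0,0,
  -1],[-1],(⟨0,[(25,0)]⟩,⟨0,[(26,0)]⟩),⟨0,[(0,0)]⟩,.k,(.r (-1) ⟨13,[(19,6),(3,0),(0,0),(14,1),(6,5),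
  (2,2)]⟩ ⟨1,[(30,0),(0,0),(13,1)]⟩),⟨false,1,⟨1,[(23,0),(0,0),(22,0)]⟩,⟨0,[]⟩⟩,⟨true,0,⟨0,[(49,
  0)]⟩,⟨0,[]⟩⟩,⟨true,0,⟨0,[(45,0)]⟩,⟨0,[(44,0)]⟩⟩,⟨false,0,⟨0,[(45,0)]⟩,⟨3,[(19,1),(3,0),(0,0),(22,
  0)]⟩⟩,[.o ⟨false,0,⟨6,[(1,6),(1,4),(0,2),(5,0),(1,0),(14,1),(1,1),(11,0)]⟩,⟨9,[(23,0),(0,10),(16,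
  1),(5,4)]⟩⟩,.e ⟨false,1,⟨0,[(40,0),(5,0)]⟩,⟨0,[(49,0)]⟩⟩ ⟨false,1,⟨9,[(23,3),(0,3),(21,4),(0,0),
  (1,1)]⟩,⟨0,[]⟩⟩,.a ⟨true,0,⟨0,[(1,0),(2,0),(5,0)]⟩,⟨0,[(24,0)]⟩⟩ ⟨false,1,⟨4,[(23,1),(0,1),(22,2),
  (1,0)]⟩,⟨0,[]⟩⟩ ⟨true,0,⟨0,[(49,0)]⟩,⟨0,[]⟩⟩,.o ⟨false,0,⟨4,[(1,3),(0,0),(0,3),(0,3),(36,0),(5,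
  1)]⟩,⟨9,[(23,0),(0,10),(16,1),(4,4)]⟩⟩]⟩)) (.Q [0,0,2,0,-1,0,1,1,0,0,1] (.p true [0,0,1] [] (⟨0,
  [(32,0)]⟩,⟨0,[(31,0)]⟩) .k 0 (⟨0,[]⟩,⟨0,[]⟩) .k .k) (.I [0,0,-2,-1,1] (.I [0,0,2,0,-1,2] (.R ⟨1,
  false,false,false,[1,-1],[1,0,-1],[0,1,-1,-1],(⟨0,[(39,0)]⟩,⟨0,[(40,0)]⟩),(⟨0,[(34,0)]⟩,⟨0,[(35,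
  0)]⟩),⟨0,[(23,0),(0,0)]⟩,.k,.k,(.x 1 ⟨0,[(0,0)]⟩ ⟨4,[(25,0),(0,0),(12,9),(3,1),(4,4)]⟩),.k,(.r
  (-1) ⟨0,[(1,0),(12,0)]⟩ ⟨1,[(16,1),(15,0),(0,0),(13,3)]⟩),.k,⟨true,0,⟨0,[(1,0),(4,0),(3,0),(36,
  0)]⟩,⟨0,[(16,0),(25,0),(4,0)]⟩⟩,⟨false,1,⟨5,[(22,0),(6,3),(13,0),(4,3)]⟩,⟨0,[(32,0)]⟩⟩,⟨true,0,⟨0,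
  [(51,0)]⟩,⟨0,[]⟩⟩,⟨false,1,⟨0,[(31,0),(15,0),(1,0)]⟩,⟨0,[(13,0)]⟩⟩,⟨false,0,⟨0,[(47,0)]⟩,⟨3,[(21,
  1),(3,0),(0,0),(22,0)]⟩⟩,⟨false,1,⟨0,[(31,0),(15,1),(1,0)]⟩,⟨0,[(8,0)]⟩⟩,[.a ⟨true,0,⟨0,[(16,0),
  (12,0)]⟩,⟨0,[(19,0)]⟩⟩ ⟨false,1,⟨6,[(1,4),(19,0),(3,0),(0,0),(14,3)]⟩,⟨0,[(42,0),(4,0)]⟩⟩ ⟨true,1,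
  ⟨1,[(31,1),(16,0),(0,0)]⟩,⟨0,[(2,0)]⟩⟩,.o ⟨false,1,⟨0,[(31,0),(17,0)]⟩,⟨0,[(10,0),(36,0)]⟩⟩,.o
  ⟨false,0,⟨1,[(32,0),(0,0)]⟩,⟨9,[(25,0),(0,0),(16,1),(4,4)]⟩⟩,.e ⟨false,1,⟨0,[(1,0)]⟩,⟨0,[(16,0),
  (0,0),(29,0)]⟩⟩ ⟨false,2,⟨0,[(31,0),(16,0),(0,0)]⟩,⟨0,[(2,0)]⟩⟩]⟩) (.I [1,0,2,2,-1] (.I [0,0,2,2,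
  -1] (.S ⟨1,0,[0,1,-1,-1],[1,-1],[0,0,1],(⟨0,[(41,0)]⟩,⟨0,[(42,0)]⟩),⟨0,[(25,0),(0,0)]⟩,.k,(.r
  (-2) ⟨6,[(3,5),(19,3),(3,3),(0,3),(14,1)]⟩ ⟨0,[(0,0)]⟩),⟨false,0,⟨1,[(1,0),(32,0),(0,0),(15,0)]⟩,
  ⟨0,[(3,0)]⟩⟩,⟨true,0,⟨0,[(53,0)]⟩,⟨0,[]⟩⟩,⟨true,(-1),⟨0,[(0,0)]⟩,⟨0,[(3,0),(44,0)]⟩⟩,⟨false,0,⟨0,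
  [(49,0)]⟩,⟨3,[(23,1),(3,0),(0,0),(22,0)]⟩⟩,[.o ⟨false,0,⟨0,[(48,0)]⟩,⟨9,[(27,0),(0,0),(16,1),(3,
  9),(1,4)]⟩⟩,.a ⟨true,0,⟨2,[(8,0),(1,0),(3,0),(16,1),(2,1)]⟩,⟨0,[(49,0)]⟩⟩ ⟨true,0,⟨0,[(44,0)]⟩,⟨0,
  [(53,0)]⟩⟩ ⟨false,1,⟨0,[(3,0)]⟩,⟨1,[(1,0),(25,0),(0,0)]⟩⟩,.o ⟨false,0,⟨1,[(34,0),(0,0)]⟩,⟨9,[(27,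
  0),(0,0),(16,1),(4,4)]⟩⟩,.e ⟨false,1,⟨1,[(27,0),(0,0),(22,0)]⟩,⟨0,[]⟩⟩ ⟨false,1,⟨0,[(3,0)]⟩,⟨1,
  [(1,0),(32,0),(0,0),(15,0)]⟩⟩]⟩) (.Q [-1,-1,0,1,1,0,1,1,-1,0,1,-1] (.p true [0,0,1] [0,0,0,0,1]
  (⟨0,[(37,0)]⟩,⟨0,[(36,0)]⟩) .k 2 (⟨0,[(30,0)]⟩,⟨0,[(29,0)]⟩) .k (.r 0 ⟨7,[(1,0),(0,16),(1,9),(2,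
  1),(0,9),(30,33),(4,1),(0,1)]⟩ ⟨5,[(14,1),(3,1),(1,1),(6,2),(0,2),(22,0)]⟩)) (.Q [-1,-1,0,0,1,0,0,
  0,-1,0,0,-1] (.p false [0,0,0,0,1] [] (⟨0,[(31,0)]⟩,⟨0,[(30,0)]⟩) .k 0 (⟨0,[]⟩,⟨0,[]⟩) .k .k) (.Q
  [-2,0,0,1,0,0,0,0,-2,1,0,-2] (.p false [0,0,0,0,1] [1,0,0,0,-1] (⟨0,[(32,0)]⟩,⟨0,[(31,0)]⟩) .k 2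
  (⟨0,[(31,0)]⟩,⟨0,[(32,0)]⟩) .k (.r 0 ⟨0,[]⟩ ⟨4,[(29,2),(0,2),(22,1),(1,3)]⟩)) (.Q [0,0,0,0,0,-1,0,
  0,0,0,0,1] (.ed false [1,-1,0,0,1] .k) (.S ⟨1,0,[1],[0,0,0,0,1],[1,1],(⟨0,[(34,0)]⟩,⟨0,[(33,0)]⟩),
  ⟨0,[(0,0)]⟩,.k,(.r (-1) ⟨6,[(7,2),(19,1),(3,1),(0,1),(14,0)]⟩ ⟨3,[(3,0),(1,0),(18,0),(7,0),(6,0),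
  (16,0)]⟩),⟨true,0,⟨0,[(57,0)]⟩,⟨0,[]⟩⟩,⟨false,1,⟨1,[(31,0),(0,0),(22,0)]⟩,⟨0,[]⟩⟩,⟨false,0,⟨0,
  [(53,0)]⟩,⟨3,[(27,1),(3,0),(0,0),(22,0)]⟩⟩,⟨true,0,⟨0,[(53,0)]⟩,⟨0,[(52,0)]⟩⟩,[.e ⟨true,0,⟨0,[(57,
  0)]⟩,⟨0,[(48,0)]⟩⟩ ⟨true,0,⟨0,[]⟩,⟨1,[(38,0),(0,0)]⟩⟩,.o ⟨false,1,⟨9,[(31,0),(0,10),(16,1),(5,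
  4)]⟩,⟨1,[(1,0),(14,0),(20,0)]⟩⟩,.a ⟨true,0,⟨0,[(32,0)]⟩,⟨5,[(1,2),(10,0),(1,0),(3,0),(16,1),(2,
  1)]⟩⟩ ⟨false,0,⟨0,[]⟩,⟨1,[(31,0),(0,0),(22,0)]⟩⟩ ⟨true,0,⟨0,[]⟩,⟨0,[(57,0)]⟩⟩,.o ⟨false,0,⟨14,[(5,
  1),(2,3),(0,3),(22,10),(15,0),(0,2),(6,1),(0,0)]⟩,⟨15,[(1,4),(5,4),(23,5),(17,0),(4,2)]⟩⟩]⟩) (.S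
  ⟨1,0,[-1,1],[1,0,0,0,-1],[0,0,0,-1],(⟨0,[(33,0)]⟩,⟨0,[(34,0)]⟩),⟨2,[(0,0),(5,1),(1,0),(3,0),(9,0),
  (10,1)]⟩,.k,(.r (-1) ⟨3,[(7,1),(19,0),(3,0),(0,0),(24,0)]⟩ ⟨1,[(5,0),(25,0),(0,0)]⟩),⟨false,1,⟨3,
  [(27,1),(3,0),(0,0),(22,0)]⟩,⟨0,[(53,0)]⟩⟩,⟨true,0,⟨0,[(57,0)]⟩,⟨0,[]⟩⟩,⟨true,0,⟨0,[]⟩,⟨0,[(57,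
  0)]⟩⟩,⟨false,0,⟨0,[(53,0)]⟩,⟨3,[(27,1),(3,0),(0,0),(22,0)]⟩⟩,[.o ⟨false,0,⟨1,[(1,0),(14,0),(20,
  0)]⟩,⟨9,[(31,0),(0,10),(16,1),(5,4)]⟩⟩,.e ⟨false,1,⟨1,[(4,0),(50,0)]⟩,⟨47,[(3,9),(1,11),(18,9),(3,
  4),(3,9),(14,23),(1,0),(3,3)]⟩⟩ ⟨false,1,⟨9,[(31,3),(0,3),(21,4),(0,0),(1,1)]⟩,⟨0,[]⟩⟩,.a ⟨true,0,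
  ⟨5,[(1,2),(10,0),(1,0),(3,0),(16,1),(2,1)]⟩,⟨0,[(32,0)]⟩⟩ ⟨false,1,⟨3,[(27,1),(3,0),(0,0),(22,
  0)]⟩,⟨0,[(53,0)]⟩⟩ ⟨true,0,⟨0,[(57,0)]⟩,⟨0,[]⟩⟩,.o ⟨false,0,⟨29,[(1,11),(6,6),(1,5),(0,3),(0,6),
  (9,2),(4,3),(21,4)]⟩,⟨9,[(31,0),(0,10),(16,1),(4,4)]⟩⟩]⟩)) (.Q [1,0,0,0,0,0,0,0,1,-1,0,1] (.p
  true [0,0,0,0,1] [1] (⟨0,[(33,0)]⟩,⟨0,[(32,0)]⟩) .k 1 (⟨0,[]⟩,⟨0,[]⟩) .k .k) (.R ⟨1,false,false,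
  true,[0,0,1],[0,0,0,0,1],[1,1,0,-1,0,0,0,1],(⟨0,[(41,0)]⟩,⟨0,[(40,0)]⟩),(⟨0,[(34,0)]⟩,⟨0,[(33,
  0)]⟩),⟨0,[(30,0)]⟩,.k,.k,.k,.k,(.r (-1) ⟨7,[(1,0),(1,1),(3,2),(9,1),(8,3),(0,1),(0,0),(26,0)]⟩ ⟨3,
  [(5,0),(16,1),(1,1),(30,0)]⟩),.k,⟨true,0,⟨0,[(20,0)]⟩,⟨3,[(5,0),(16,1),(1,1),(30,0)]⟩⟩,⟨false,0,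
  ⟨3,[(0,3),(5,0),(5,0),(22,2),(7,1)]⟩,⟨0,[(3,0),(7,0)]⟩⟩,⟨true,0,⟨0,[(52,0)]⟩,⟨0,[(53,0)]⟩⟩,⟨false,
  0,⟨5,[(0,1),(4,0),(3,3),(14,1),(10,1),(19,0)]⟩,⟨2,[(2,0),(0,1),(10,0)]⟩⟩,⟨false,0,⟨0,[]⟩,⟨1,[(31,
  0),(0,0),(22,0)]⟩⟩,⟨false,0,⟨2,[(0,1),(4,0),(3,0),(14,1),(10,1),(19,0)]⟩,⟨2,[(2,1),(0,0),(10,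
  1)]⟩⟩,[.o ⟨false,0,⟨8,[(1,3),(3,1),(26,0),(14,3),(1,0),(7,0)]⟩,⟨0,[(2,0)]⟩⟩,.o ⟨false,0,⟨0,[(0,
  0)]⟩,⟨2,[(2,0),(28,1),(25,0)]⟩⟩,.o ⟨false,1,⟨10,[(1,0),(1,1),(14,1),(5,0),(11,0),(1,7),(10,1),(4,
  2)]⟩,⟨0,[(21,0)]⟩⟩,.a ⟨true,0,⟨0,[(38,0)]⟩,⟨0,[(35,0)]⟩⟩ ⟨true,0,⟨0,[(17,0)]⟩,⟨3,[(5,0),(16,1),(1,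
  1),(30,0)]⟩⟩ ⟨false,0,⟨0,[(0,0),(34,0)]⟩,⟨0,[(2,0),(35,0)]⟩⟩]⟩) (.Q [0,0,0,0,0,-1,0,0,0,1,0,-1]
  (.ed true [0,1,0,0,1] .k) (.R ⟨1,false,false,true,[1,0,0,0,-1],[1,-1],[-1],(⟨0,[(34,0)]⟩,⟨0,[(35,
  0)]⟩),(⟨0,[(46,0)]⟩,⟨0,[(47,0)]⟩),⟨0,[(0,0)]⟩,.k,.k,(.r (-1) ⟨3,[(8,1),(19,0),(3,0),(0,0),(24,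
  0)]⟩ ⟨1,[(6,0),(25,0),(0,0)]⟩),(.r 0 ⟨3,[(4,0),(1,0),(18,0),(7,0),(6,0),(16,0)]⟩ ⟨6,[(8,2),(19,1),
  (3,1),(0,1),(14,0)]⟩),.k,.k,⟨true,0,⟨1,[(6,0),(0,0),(36,1),(4,1)]⟩,⟨0,[(53,0)]⟩⟩,⟨false,0,⟨0,[(33,
  0)]⟩,⟨6,[(1,4),(1,1),(44,0),(1,0),(4,2)]⟩⟩,⟨false,1,⟨1,[(32,0),(0,0),(22,0)]⟩,⟨0,[]⟩⟩,⟨false,0,⟨2,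
  [(10,0),(4,0),(17,1)]⟩,⟨0,[(3,0),(50,0)]⟩⟩,⟨true,0,⟨0,[(54,0)]⟩,⟨0,[(53,0)]⟩⟩,⟨false,0,⟨0,[(33,
  0)]⟩,⟨0,[(3,0)]⟩⟩,[.o ⟨false,0,⟨0,[(53,0)]⟩,⟨23,[(4,1),(20,1),(3,0),(3,1),(16,4),(3,19),(1,11)]⟩⟩,
  .a ⟨true,0,⟨2,[(1,1),(11,0),(1,0),(3,0),(13,1)]⟩,⟨0,[(54,0)]⟩⟩ ⟨false,1,⟨0,[(7,0),(36,1),(4,0)]⟩,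
  ⟨0,[(58,0)]⟩⟩ ⟨true,0,⟨14,[(2,0),(4,0),(2,3),(2,0),(0,0),(0,4),(17,8),(10,1),(4,0)]⟩,⟨5,[(1,4),(4,
  2),(25,0),(17,0)]⟩⟩,.e ⟨false,1,⟨4,[(32,1),(0,1),(22,2),(1,0)]⟩,⟨0,[]⟩⟩ ⟨false,0,⟨14,[(2,0),(4,0),
  (2,3),(2,0),(0,0),(0,4),(17,8),(10,1),(4,0)]⟩,⟨0,[(3,0),(50,0)]⟩⟩,.o ⟨false,0,⟨3,[(1,3),(7,0),(3,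
  0),(9,0),(26,0)]⟩,⟨9,[(32,0),(0,10),(16,1),(4,4)]⟩⟩]⟩) (.S ⟨1,0,[1,1],[0,0,0,0,1],[2,0,0,-1],(⟨0,
  [(35,0)]⟩,⟨0,[(34,0)]⟩),⟨2,[(0,0),(6,1),(1,0),(3,0),(9,0),(11,1)]⟩,.k,(.r (-1) ⟨6,[(8,2),(19,1),
  (3,1),(0,1),(14,0)]⟩ ⟨3,[(4,0),(1,0),(18,0),(7,0),(6,0),(16,0)]⟩),⟨false,1,⟨3,[(28,1),(3,0),(0,0),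
  (22,0)]⟩,⟨0,[(54,0)]⟩⟩,⟨true,0,⟨0,[(58,0)]⟩,⟨0,[]⟩⟩,⟨true,0,⟨0,[]⟩,⟨0,[(58,0)]⟩⟩,⟨false,0,⟨0,[(54,
  0)]⟩,⟨3,[(28,1),(3,0),(0,0),(22,0)]⟩⟩,[.o ⟨false,0,⟨8,[(2,3),(3,1),(26,0),(14,3),(1,0),(7,0)]⟩,⟨0,
  [(3,0)]⟩⟩,.a ⟨true,0,⟨0,[(33,0)]⟩,⟨0,[(1,0)]⟩⟩ ⟨false,1,⟨1,[(5,0),(50,0)]⟩,⟨49,[(4,9),(1,11),(18,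
  10),(1,0),(1,4),(3,9),(14,23),(1,0),(3,4)]⟩⟩ ⟨true,0,⟨0,[]⟩,⟨1,[(39,0),(0,0)]⟩⟩,.e ⟨false,1,⟨3,
  [(28,1),(3,0),(0,0),(22,0)]⟩,⟨1,[(6,0),(0,0),(36,1)]⟩⟩ ⟨false,0,⟨0,[]⟩,⟨1,[(32,0),(0,0),(22,0)]⟩⟩,
  .o ⟨false,0,⟨35,[(2,15),(3,7),(26,3),(5,0),(0,0),(9,3),(6,17)]⟩,⟨6,[(1,4),(1,1),(44,0),(1,0),(4,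
  2)]⟩⟩]⟩)))) (.K ⟨0,[0,0,0,0,1],(-1),(-1),(⟨0,[(32,0)]⟩,⟨0,[(31,0)]⟩),.k,(.r (-1) ⟨6,[(5,2),(19,1),
  (3,1),(0,1),(14,0)]⟩ ⟨3,[(1,0),(1,0),(18,0),(7,0),(6,0),(16,0)]⟩),(.r 0 ⟨1,[(3,0),(25,0),(0,0)]⟩
  ⟨3,[(5,1),(19,0),(3,0),(0,0),(24,0)]⟩),.k,.k,[⟨0,[(1,0),(7,0)]⟩,⟨0,[(0,0),(45,0)]⟩,⟨0,[(29,0),(25,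
  0)]⟩,⟨0,[(0,0)]⟩]⟩)) (.Q [0,0,0,0,0,1,0,0,0,0,0,-1] (.ed true [1,-1,0,0,1] .k) (.R ⟨0,false,false,
  false,[0,0,0,0,1],[0,1],[0,0,2,1],(⟨0,[(32,0)]⟩,⟨0,[(31,0)]⟩),(⟨0,[(44,0)]⟩,⟨0,[(43,0)]⟩),⟨0,[(0,
  0)]⟩,.k,.k,(.r (-1) ⟨6,[(5,2),(19,1),(3,1),(0,1),(14,0)]⟩ ⟨9,[(3,4),(25,2),(0,2),(22,1),(1,3)]⟩),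
  (.r (-1) ⟨6,[(5,2),(19,1),(3,1),(0,1),(14,0)]⟩ ⟨9,[(3,4),(25,2),(0,2),(22,1),(1,3)]⟩),.k,.k,⟨true,
  0,⟨1,[(36,0),(0,0)]⟩,⟨0,[]⟩⟩,⟨false,2,⟨0,[(29,0),(22,0)]⟩,⟨3,[(1,3),(1,0),(2,0),(16,2),(27,1),(1,
  1)]⟩⟩,⟨false,0,⟨7,[(3,3),(32,2),(0,2),(15,3),(0,1)]⟩,⟨0,[(5,0)]⟩⟩,⟨true,1,⟨0,[(29,0),(21,0)]⟩,⟨0,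
  [(1,0),(21,0)]⟩⟩,⟨false,0,⟨0,[]⟩,⟨0,[]⟩⟩,⟨false,0,⟨0,[]⟩,⟨0,[]⟩⟩,[.a ⟨true,0,⟨0,[(51,0)]⟩,⟨2,[(10,
  0),(1,0),(3,0),(16,1),(2,1)]⟩⟩ ⟨false,0,⟨1,[(3,0),(25,0),(0,0)]⟩,⟨0,[(5,0)]⟩⟩ ⟨true,1,⟨0,[(29,0),
  (21,0)]⟩,⟨7,[(1,7),(2,0),(1,4),(16,2),(17,1),(11,3)]⟩⟩,.o ⟨false,1,⟨9,[(29,0),(0,0),(16,1),(3,9),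
  (1,4)]⟩,⟨0,[(50,0)]⟩⟩,.o ⟨false,0,⟨4,[(1,3),(21,3),(6,0),(16,0),(3,3),(1,1)]⟩,⟨0,[(29,0)]⟩⟩,.e
  ⟨false,0,⟨1,[(3,0),(49,0)]⟩,⟨6,[(5,2),(19,1),(3,1),(0,1),(14,0)]⟩⟩ ⟨false,2,⟨1,[(29,1),(21,1),(0,
  0),(0,0)]⟩,⟨7,[(1,7),(2,0),(1,4),(16,2),(17,1),(11,3)]⟩⟩]⟩) (.S ⟨1,0,[1,1],[0,0,0,0,1],[2,0,0,-1],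
  (⟨0,[(32,0)]⟩,⟨0,[(31,0)]⟩),⟨0,[(0,0)]⟩,.k,(.r (-1) ⟨6,[(5,2),(19,1),(3,1),(0,1),(14,0)]⟩ ⟨9,[(3,
  4),(25,2),(0,2),(22,1),(1,3)]⟩),⟨false,1,⟨3,[(25,1),(3,0),(0,0),(22,0)]⟩,⟨0,[(51,0)]⟩⟩,⟨true,0,⟨0,
  [(55,0)]⟩,⟨0,[]⟩⟩,⟨true,0,⟨0,[]⟩,⟨0,[(55,0)]⟩⟩,⟨false,0,⟨0,[(51,0)]⟩,⟨3,[(25,1),(3,0),(0,0),(22,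
  0)]⟩⟩,[.a ⟨true,(-1),⟨0,[(1,0),(21,0),(27,0)]⟩,⟨1,[(8,1),(43,0),(0,0)]⟩⟩ ⟨false,1,⟨6,[(5,2),(19,
  1),(3,1),(0,1),(14,0)]⟩,⟨1,[(3,0),(0,0),(36,1)]⟩⟩ ⟨true,0,⟨0,[(55,0)]⟩,⟨0,[(46,0)]⟩⟩,.o ⟨false,0,
  ⟨4,[(1,3),(21,3),(6,0),(16,0),(3,3),(1,1)]⟩,⟨12,[(4,2),(3,4),(20,7),(11,5),(5,0),(6,0)]⟩⟩,.o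
  ⟨false,0,⟨4,[(1,3),(21,3),(6,0),(16,0),(3,3),(1,1)]⟩,⟨0,[(29,0)]⟩⟩,.e ⟨false,1,⟨1,[(2,0),(50,0)]⟩,
  ⟨9,[(3,4),(25,2),(0,2),(22,1),(1,3)]⟩⟩ ⟨false,1,⟨1,[(29,0),(0,0),(21,0)]⟩,⟨0,[(46,0)]⟩⟩]⟩)))) (.R
  ⟨1,false,false,false,[1,-1],[1,0,-1],[0,1,-1,-1],(⟨0,[(40,0)]⟩,⟨0,[(41,0)]⟩),(⟨0,[(35,0)]⟩,⟨0,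
  [(36,0)]⟩),⟨0,[(24,0),(0,0)]⟩,.k,.k,(.r (-1) ⟨0,[(0,0)]⟩ ⟨0,[(33,0),(0,0),(13,1)]⟩),.k,(.r (-1)
  ⟨1,[(0,0),(11,1),(37,0)]⟩ ⟨1,[(17,1),(15,0),(0,0),(13,3)]⟩),.k,⟨true,0,⟨0,[(1,0),(5,0),(3,0),(26,
  1)]⟩,⟨0,[(17,0),(25,0),(4,0)]⟩⟩,⟨false,1,⟨5,[(23,0),(6,3),(13,0),(4,3)]⟩,⟨0,[(33,0)]⟩⟩,⟨true,0,⟨0,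
  [(52,0)]⟩,⟨0,[]⟩⟩,⟨false,1,⟨0,[(32,0),(15,0),(1,0)]⟩,⟨0,[(14,0)]⟩⟩,⟨false,0,⟨0,[(48,0)]⟩,⟨3,[(22,
  1),(3,0),(0,0),(22,0)]⟩⟩,⟨false,1,⟨0,[(32,0),(15,1),(1,0)]⟩,⟨0,[(9,0)]⟩⟩,[.a ⟨true,0,⟨0,[(17,0),
  (12,0)]⟩,⟨0,[(20,0)]⟩⟩ ⟨false,1,⟨6,[(2,4),(19,0),(3,0),(0,0),(14,3)]⟩,⟨0,[(43,0),(4,0)]⟩⟩ ⟨true,1,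
  ⟨1,[(32,1),(16,0),(0,0)]⟩,⟨0,[(3,0)]⟩⟩,.o ⟨false,1,⟨0,[(32,0),(17,0)]⟩,⟨0,[(11,0),(36,0)]⟩⟩,.o
  ⟨false,0,⟨1,[(33,0),(0,0)]⟩,⟨9,[(26,0),(0,0),(16,1),(4,4)]⟩⟩,.e ⟨false,1,⟨0,[(2,0)]⟩,⟨0,[(17,0),
  (0,0),(29,0)]⟩⟩ ⟨false,2,⟨0,[(32,0),(16,0),(0,0)]⟩,⟨0,[(3,0)]⟩⟩]⟩))) (.I [0,-1,-1,-1,1] (.S ⟨1,0,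
  [0,1,-1,-1],[1,-1],[0,0,-1,-1],(⟨0,[(39,0)]⟩,⟨0,[(40,0)]⟩),⟨0,[(23,0),(0,0)]⟩,.k,(.r (-2) ⟨3,[(21,
  3),(3,0),(0,0),(14,1),(6,2)]⟩ ⟨0,[(1,0),(45,0)]⟩),⟨false,1,⟨1,[(25,0),(0,0),(22,0)]⟩,⟨0,[]⟩⟩,
  ⟨true,0,⟨0,[(51,0)]⟩,⟨0,[]⟩⟩,⟨true,0,⟨0,[(47,0)]⟩,⟨0,[(46,0)]⟩⟩,⟨false,0,⟨0,[(47,0)]⟩,⟨3,[(21,1),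
  (3,0),(0,0),(22,0)]⟩⟩,[.o ⟨false,0,⟨0,[(46,0)]⟩,⟨9,[(25,0),(0,0),(16,1),(3,9),(1,4)]⟩⟩,.e ⟨true,1,
  ⟨0,[(0,0)]⟩,⟨0,[(1,0),(49,0)]⟩⟩ ⟨true,1,⟨7,[(21,3),(3,0),(0,0),(14,1),(6,2)]⟩,⟨0,[(1,0)]⟩⟩,.o
  ⟨false,0,⟨1,[(32,0),(0,0)]⟩,⟨9,[(25,0),(0,0),(16,1),(4,4)]⟩⟩,.a ⟨true,(-1),⟨0,[(6,0),(25,0)]⟩,⟨0,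
  [(48,0)]⟩⟩ ⟨false,2,⟨3,[(21,1),(3,0),(0,0),(21,3),(0,0)]⟩,⟨0,[(1,0)]⟩⟩ ⟨true,1,⟨3,[(11,0),(0,0),
  (8,0),(19,1),(6,1)]⟩,⟨0,[(1,0)]⟩⟩]⟩) (.Q [0,-1,0,0,1,0,-1,-1,-1,1,-1,-1] (.p false [0,0,1] [1,0,0,
  0,-1] (⟨0,[(35,0)]⟩,⟨0,[(34,0)]⟩) .k 2 (⟨0,[(27,0)]⟩,⟨0,[(28,0)]⟩) .k (.r 0 ⟨1,[(11,0),(5,0),(29,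
  0)]⟩ ⟨4,[(12,1),(3,0),(1,1),(6,1),(0,1),(22,0),(0,0)]⟩)) (.Q [0,0,0,0,0,0,-1,0,-1,1,-1,-1] (.p
  false [0,0,1] [1,0,0,0,-1] (⟨0,[(36,0)]⟩,⟨0,[(35,0)]⟩) .k 2 (⟨0,[(28,0)]⟩,⟨0,[(29,0)]⟩) .k (.r 0
  ⟨1,[(12,0),(5,0),(29,0)]⟩ ⟨4,[(13,1),(3,0),(1,1),(6,1),(0,1),(22,0),(0,0)]⟩)) (.Q [0,0,-1,0,1,0,0,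
  0,-1,0,0,-1] (.p false [0,0,0,0,1] [] (⟨0,[(30,0)]⟩,⟨0,[(29,0)]⟩) .k 0 (⟨0,[]⟩,⟨0,[]⟩) .k .k) (.Q
  [0,0,0,0,0,-1,0,0,0,0,0,1] (.ed false [1,-1,0,0,1] .k) (.R ⟨1,false,false,false,[0,0,0,0,1],[0,1],
  [1,1],(⟨0,[(32,0)]⟩,⟨0,[(31,0)]⟩),(⟨0,[(44,0)]⟩,⟨0,[(43,0)]⟩),⟨0,[(0,0)]⟩,.k,.k,(.r (-1) ⟨7,[(25,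
  3),(3,0),(0,0),(14,1),(6,2)]⟩ ⟨4,[(5,1),(23,1),(0,1),(20,2),(2,0)]⟩),(.r (-1) ⟨7,[(25,3),(3,0),(0,
  0),(14,1),(6,2)]⟩ ⟨4,[(5,1),(23,1),(0,1),(20,2),(2,0)]⟩),(.r (-2) ⟨3,[(25,3),(3,0),(0,0),(14,1),
  (6,2)]⟩ ⟨0,[(4,1),(41,1),(5,0)]⟩),.k,⟨false,1,⟨3,[(15,0),(0,0),(8,0),(19,1),(6,1)]⟩,⟨1,[(5,0),(45,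
  0),(1,0)]⟩⟩,⟨true,1,⟨0,[(1,0)]⟩,⟨1,[(4,0),(1,0),(0,0),(22,0),(15,0)]⟩⟩,⟨true,0,⟨0,[(55,0)]⟩,⟨0,
  []⟩⟩,⟨false,1,⟨1,[(1,1),(3,0),(45,0),(1,0)]⟩,⟨2,[(7,0),(4,0),(17,1)]⟩⟩,⟨false,0,⟨0,[(51,0)]⟩,⟨3,
  [(25,1),(3,0),(0,0),(22,0)]⟩⟩,⟨false,1,⟨1,[(1,1),(3,0),(45,2),(1,0)]⟩,⟨2,[(7,1),(4,1),(17,0)]⟩⟩,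
  [.a ⟨true,0,⟨0,[(51,0)]⟩,⟨2,[(10,0),(1,0),(3,0),(16,1),(2,1)]⟩⟩ ⟨true,0,⟨0,[(55,0)]⟩,⟨0,[(46,
  0)]⟩⟩ ⟨false,1,⟨0,[(1,0),(49,0)]⟩,⟨1,[(7,0),(4,0),(17,0),(20,0)]⟩⟩,.o ⟨false,1,⟨9,[(29,0),(0,0),
  (16,1),(3,9),(1,4)]⟩,⟨0,[(50,0)]⟩⟩,.e ⟨false,0,⟨0,[]⟩,⟨1,[(29,0),(0,0),(22,0)]⟩⟩ ⟨false,1,⟨1,[(1,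
  1),(3,0),(45,0),(1,0)]⟩,⟨1,[(7,0),(4,0),(17,0),(20,0)]⟩⟩,.o ⟨false,0,⟨4,[(5,0),(0,0),(0,0),(22,3),
  (16,0),(6,0)]⟩,⟨0,[(1,0)]⟩⟩]⟩) (.R ⟨0,false,false,false,[0,0,0,0,1],[0,1],[1,1],(⟨0,[(32,0)]⟩,⟨0,
  [(31,0)]⟩),(⟨0,[(44,0)]⟩,⟨0,[(43,0)]⟩),⟨0,[(0,0)]⟩,.k,.k,(.r (-1) ⟨7,[(25,3),(3,0),(0,0),(14,1),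
  (6,2)]⟩ ⟨4,[(5,1),(23,1),(0,1),(20,2),(2,0)]⟩),(.r (-1) ⟨7,[(25,3),(3,0),(0,0),(14,1),(6,2)]⟩ ⟨4,
  [(5,1),(23,1),(0,1),(20,2),(2,0)]⟩),.k,.k,⟨false,1,⟨3,[(15,0),(0,0),(8,0),(19,1),(6,1)]⟩,⟨1,[(5,
  0),(45,0),(1,0)]⟩⟩,⟨true,1,⟨0,[(1,0)]⟩,⟨1,[(4,0),(1,0),(0,0),(22,0),(15,0)]⟩⟩,⟨true,0,⟨0,[(55,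
  0)]⟩,⟨0,[]⟩⟩,⟨false,1,⟨1,[(1,1),(3,0),(45,0),(1,0)]⟩,⟨2,[(7,0),(4,0),(17,1)]⟩⟩,⟨false,0,⟨0,[]⟩,⟨0,
  []⟩⟩,⟨false,0,⟨0,[]⟩,⟨0,[]⟩⟩,[.a ⟨true,0,⟨0,[(51,0)]⟩,⟨2,[(10,0),(1,0),(3,0),(16,1),(2,1)]⟩⟩
  ⟨true,0,⟨0,[(55,0)]⟩,⟨0,[(46,0)]⟩⟩ ⟨false,1,⟨0,[(1,0),(49,0)]⟩,⟨1,[(7,0),(4,0),(17,0),(20,0)]⟩⟩,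
  .o ⟨false,1,⟨9,[(29,0),(0,0),(16,1),(3,9),(1,4)]⟩,⟨0,[(50,0)]⟩⟩,.e ⟨false,0,⟨0,[]⟩,⟨1,[(29,0),(0,
  0),(22,0)]⟩⟩ ⟨false,1,⟨1,[(1,1),(3,0),(45,0),(1,0)]⟩,⟨1,[(7,0),(4,0),(17,0),(20,0)]⟩⟩,.o ⟨false,0,
  ⟨4,[(5,0),(0,0),(0,0),(22,3),(16,0),(6,0)]⟩,⟨0,[(1,0)]⟩⟩]⟩)) (.Q [0,0,0,0,0,-1,0,0,0,1,0,-1] (.ed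
  true [0,1,0,0,1] .k) (.S ⟨1,0,[-1,1],[1,0,0,0,-1],[-1],(⟨0,[(31,0)]⟩,⟨0,[(32,0)]⟩),⟨0,[(0,0)]⟩,.k,
  (.r (-1) ⟨13,[(25,6),(3,0),(0,0),(14,1),(6,5),(2,2)]⟩ ⟨1,[(5,0),(23,0),(0,0),(20,0)]⟩),⟨false,1,
  ⟨1,[(29,0),(0,0),(22,0)]⟩,⟨0,[]⟩⟩,⟨true,0,⟨0,[(55,0)]⟩,⟨0,[]⟩⟩,⟨true,0,⟨0,[(51,0)]⟩,⟨0,[(50,0)]⟩⟩,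
  ⟨false,0,⟨0,[(51,0)]⟩,⟨3,[(25,1),(3,0),(0,0),(22,0)]⟩⟩,[.a ⟨true,0,⟨0,[(2,0),(8,0),(11,0)]⟩,⟨1,
  [(1,1),(50,0),(0,0)]⟩⟩ ⟨false,1,⟨9,[(29,3),(0,3),(21,4),(0,0),(1,1)]⟩,⟨0,[]⟩⟩ ⟨true,0,⟨0,[(55,
  0)]⟩,⟨0,[(46,0)]⟩⟩,.o ⟨false,1,⟨4,[(8,4),(37,0),(0,0),(4,2),(2,0)]⟩,⟨4,[(1,3),(28,0),(16,0),(4,
  1)]⟩⟩,.o ⟨false,1,⟨0,[(29,0)]⟩,⟨4,[(1,3),(28,0),(16,0),(4,1)]⟩⟩,.e ⟨false,1,⟨0,[(46,0),(5,0)]⟩,⟨1,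
  [(36,0),(0,0)]⟩⟩ ⟨false,1,⟨9,[(29,3),(0,3),(21,4),(0,0),(1,1)]⟩,⟨0,[(46,0)]⟩⟩]⟩) (.S ⟨1,0,[1],[0,
  0,0,0,1],[1,1],(⟨0,[(32,0)]⟩,⟨0,[(31,0)]⟩),⟨0,[(0,0),(26,0),(0,0)]⟩,.k,(.r (-1) ⟨7,[(25,3),(3,0),
  (0,0),(14,1),(6,2)]⟩ ⟨4,[(5,1),(23,1),(0,1),(20,2),(2,0)]⟩),⟨true,0,⟨0,[(55,0)]⟩,⟨0,[]⟩⟩,⟨false,1,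
  ⟨1,[(29,0),(0,0),(22,0)]⟩,⟨0,[]⟩⟩,⟨false,0,⟨0,[(51,0)]⟩,⟨3,[(25,1),(3,0),(0,0),(22,0)]⟩⟩,⟨true,0,
  ⟨0,[(51,0)]⟩,⟨0,[(50,0)]⟩⟩,[.o ⟨false,0,⟨4,[(1,3),(28,0),(16,0),(4,1)]⟩,⟨4,[(8,4),(37,0),(0,0),(4,
  2),(2,0)]⟩⟩,.a ⟨true,0,⟨1,[(1,1),(50,0),(0,0)]⟩,⟨0,[(2,0),(8,0),(11,0)]⟩⟩ ⟨true,0,⟨0,[]⟩,⟨1,[(36,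
  0),(0,0)]⟩⟩ ⟨false,1,⟨1,[(52,0),(0,0)]⟩,⟨0,[(55,0)]⟩⟩,.o ⟨false,0,⟨4,[(1,3),(28,0),(16,0),(4,1)]⟩,
  ⟨0,[(29,0)]⟩⟩,.e ⟨false,1,⟨1,[(29,0),(0,0),(21,0)]⟩,⟨0,[(46,0)]⟩⟩ ⟨false,1,⟨1,[(52,0),(0,0)]⟩,⟨1,
  [(36,0),(0,0)]⟩⟩]⟩))) (.K ⟨0,[1,0,0,0,-1],0,0,(⟨0,[(29,0)]⟩,⟨0,[(30,0)]⟩),.k,(.r (-1) ⟨13,[(23,6),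
  (3,0),(0,0),(14,1),(6,5),(2,2)]⟩ ⟨1,[(3,0),(23,0),(0,0),(20,0)]⟩),(.r 0 ⟨4,[(3,1),(23,1),(0,1),
  (20,2),(2,0)]⟩ ⟨7,[(23,3),(3,0),(0,0),(14,1),(6,2)]⟩),.k,.k,[⟨0,[(0,0)]⟩,⟨0,[(6,0)]⟩,⟨11,[(0,0),
  (1,3),(2,1),(6,0),(0,0),(14,8),(14,2),(1,1)]⟩,⟨0,[(1,0),(0,1),(7,0),(39,0)]⟩]⟩)) (.Q [0,0,0,0,0,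
  -1,0,0,0,0,0,1] (.ed false [1,-1,0,0,1] .k) (.S ⟨1,0,[1,1],[0,0,0,0,1],[],(⟨0,[(30,0)]⟩,⟨0,[(29,
  0)]⟩),⟨0,[(0,0)]⟩,.k,(.r (-1) ⟨7,[(23,3),(3,0),(0,0),(14,1),(6,2)]⟩ ⟨4,[(3,1),(23,1),(0,1),(20,2),
  (2,0)]⟩),⟨false,1,⟨4,[(27,1),(0,1),(22,2),(1,0)]⟩,⟨0,[]⟩⟩,⟨true,0,⟨0,[(53,0)]⟩,⟨0,[]⟩⟩,⟨true,0,⟨0,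
  [(2,0),(41,0),(5,0)]⟩,⟨0,[(48,0)]⟩⟩,⟨false,0,⟨0,[(49,0)]⟩,⟨3,[(23,1),(3,0),(0,0),(22,0)]⟩⟩,[.a
  ⟨true,(-1),⟨0,[(1,0),(16,0),(12,0)]⟩,⟨1,[(6,1),(43,0),(0,0)]⟩⟩ ⟨false,1,⟨1,[(27,0),(0,0),(21,0)]⟩,
  ⟨0,[]⟩⟩ ⟨true,0,⟨0,[(53,0)]⟩,⟨0,[(44,0)]⟩⟩,.o ⟨false,0,⟨8,[(1,3),(3,3),(22,0),(16,0),(3,3),(1,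
  1)]⟩,⟨4,[(6,4),(37,0),(0,0),(4,2),(2,0)]⟩⟩,.o ⟨false,0,⟨8,[(1,3),(3,3),(22,0),(16,0),(3,3),(1,
  1)]⟩,⟨0,[(27,0)]⟩⟩,.e ⟨false,1,⟨1,[(50,0),(0,0)]⟩,⟨1,[(34,0),(0,0)]⟩⟩ ⟨false,1,⟨1,[(27,0),(0,0),
  (21,0)]⟩,⟨0,[(44,0)]⟩⟩]⟩) (.R ⟨0,false,false,false,[0,0,0,0,1],[0,1],[],(⟨0,[(30,0)]⟩,⟨0,[(29,
  0)]⟩),(⟨0,[(42,0)]⟩,⟨0,[(41,0)]⟩),⟨0,[(0,0)]⟩,.k,.k,(.r (-1) ⟨7,[(23,3),(3,0),(0,0),(14,1),(6,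
  2)]⟩ ⟨4,[(3,1),(23,1),(0,1),(20,2),(2,0)]⟩),(.r (-1) ⟨7,[(23,3),(3,0),(0,0),(14,1),(6,2)]⟩ ⟨4,[(3,
  1),(23,1),(0,1),(20,2),(2,0)]⟩),.k,.k,⟨true,1,⟨7,[(23,3),(3,0),(0,0),(14,1),(6,2)]⟩,⟨0,[(3,0)]⟩⟩,
  ⟨false,2,⟨0,[(27,0),(22,0)]⟩,⟨1,[(1,1),(6,0),(9,1),(12,0),(19,0)]⟩⟩,⟨false,1,⟨4,[(27,1),(0,1),(22,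
  2),(1,0)]⟩,⟨0,[]⟩⟩,⟨true,1,⟨0,[(27,0),(21,0)]⟩,⟨0,[(1,0),(6,0),(5,0)]⟩⟩,⟨false,0,⟨0,[]⟩,⟨0,[]⟩⟩,
  ⟨false,0,⟨0,[]⟩,⟨0,[]⟩⟩,[.a ⟨true,0,⟨0,[(49,0)]⟩,⟨2,[(8,0),(1,0),(3,0),(16,1),(2,1)]⟩⟩ ⟨false,1,
  ⟨1,[(27,0),(0,0),(21,0)]⟩,⟨0,[]⟩⟩ ⟨true,1,⟨0,[(27,0),(21,0)]⟩,⟨0,[(1,0),(5,0),(0,0),(42,0)]⟩⟩,.o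
  ⟨false,1,⟨9,[(27,0),(0,0),(16,1),(3,9),(1,4)]⟩,⟨0,[(48,0)]⟩⟩,.o ⟨false,0,⟨8,[(1,3),(3,3),(22,0),
  (16,0),(3,3),(1,1)]⟩,⟨0,[(27,0)]⟩⟩,.e ⟨false,1,⟨1,[(50,0),(0,0)]⟩,⟨1,[(34,0),(0,0)]⟩⟩ ⟨false,2,⟨1,
  [(27,1),(21,1),(0,0),(0,0)]⟩,⟨0,[(1,0),(5,0),(0,0),(42,0)]⟩⟩]⟩))))) (.R ⟨1,false,false,false,[1,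
  -1],[1,0,-1],[0,1,-1,-1],(⟨0,[(37,0)]⟩,⟨0,[(38,0)]⟩),(⟨0,[(32,0)]⟩,⟨0,[(33,0)]⟩),⟨0,[(21,0),(0,
  0)]⟩,.k,.k,(.r (-1) ⟨0,[(0,0),(5,0)]⟩ ⟨0,[(30,0),(0,0),(13,1)]⟩),.k,(.r (-1) ⟨1,[(0,0),(5,0),(2,
  1),(37,0)]⟩ ⟨1,[(14,1),(15,0),(0,0),(13,3)]⟩),.k,⟨true,0,⟨0,[(0,0),(3,0),(1,0),(1,0),(36,1)]⟩,⟨0,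
  [(14,0),(25,0),(4,0)]⟩⟩,⟨false,1,⟨5,[(20,0),(6,3),(13,0),(4,3)]⟩,⟨0,[(30,0)]⟩⟩,⟨true,0,⟨0,[(49,
  0)]⟩,⟨0,[]⟩⟩,⟨false,1,⟨25,[(0,3),(3,7),(11,21),(3,6),(20,2),(3,3),(1,23)]⟩,⟨0,[(11,0)]⟩⟩,⟨false,0,
  ⟨0,[(45,0)]⟩,⟨3,[(19,1),(3,0),(0,0),(22,0)]⟩⟩,⟨false,1,⟨25,[(0,3),(3,7),(11,21),(3,6),(20,2),(3,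
  29),(1,23)]⟩,⟨0,[(6,0)]⟩⟩,[.e ⟨false,1,⟨3,[(9,0),(0,0),(8,0),(19,1),(6,1)]⟩,⟨0,[(40,0),(4,0)]⟩⟩
  ⟨false,1,⟨0,[(0,0)]⟩,⟨1,[(15,0),(12,0),(1,0)]⟩⟩,.o ⟨false,1,⟨0,[(29,0),(17,0)]⟩,⟨0,[(8,0),(36,
  0)]⟩⟩,.o ⟨false,0,⟨1,[(30,0),(0,0)]⟩,⟨9,[(23,0),(0,0),(16,1),(4,4)]⟩⟩,.a ⟨true,(-1),⟨0,[(4,0),(25,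
  0)]⟩,⟨0,[(46,0)]⟩⟩ ⟨false,1,⟨1,[(0,0),(5,0),(39,0)]⟩,⟨0,[(14,0),(0,0),(29,0)]⟩⟩ ⟨true,1,⟨0,[(0,
  0)]⟩,⟨0,[(4,0),(3,0),(21,0),(14,0)]⟩⟩]⟩)))) (.S ⟨1,0,[0,0,0,0,0,0,0,-1],[1,0,-1],[1,1,0,-1,0,0,0,
  -1],(⟨0,[(29,0)]⟩,⟨0,[(30,0)]⟩),⟨0,[(18,0)]⟩,.k,.k,⟨true,0,⟨0,[(41,0)]⟩,⟨0,[(42,0)]⟩⟩,⟨false,1,⟨1,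
  [(20,0),(0,0),(22,0)]⟩,⟨0,[]⟩⟩,⟨false,0,⟨0,[]⟩,⟨1,[(20,0),(0,0),(22,0)]⟩⟩,⟨true,0,⟨0,[(42,0)]⟩,⟨0,
  [(41,0)]⟩⟩,[.e ⟨false,1,⟨6,[(7,4),(3,1),(4,0),(3,0),(0,0),(14,3)]⟩,⟨0,[(0,0)]⟩⟩ ⟨false,1,⟨3,[(7,
  1),(5,1),(29,0),(0,0)]⟩,⟨3,[(0,0),(5,0),(5,0),(2,0)]⟩⟩,.o ⟨false,1,⟨0,[(26,0),(17,0)]⟩,⟨0,[(5,0),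
  (36,0)]⟩⟩,.o ⟨false,0,⟨0,[(10,0)]⟩,⟨9,[(20,0),(0,0),(5,9),(10,1),(4,4)]⟩⟩,.a ⟨true,(-1),⟨0,[(1,
  0)]⟩,⟨0,[(27,0),(15,0)]⟩⟩ ⟨false,1,⟨0,[(7,0)]⟩,⟨0,[(12,0),(29,0)]⟩⟩ ⟨true,1,⟨3,[(7,1),(5,1),(29,
  0),(0,0)]⟩,⟨0,[(1,0),(3,0),(36,0)]⟩⟩]⟩))) (.Q [0,0,-1,0,1,0,1,0,0,-1,1] (.p true [0,0,1] [1] (⟨0,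
  [(28,0)]⟩,⟨0,[(27,0)]⟩) .k 1 (⟨0,[]⟩,⟨0,[]⟩) .k .k) (.I [0,1,1,1,-1,0,0,1] (.S ⟨1,0,[0,1,0,0,0,0,
  0,-1],[1,0,-1],[1,0,0,-1,0,0,0,-1],(⟨0,[(29,0)]⟩,⟨0,[(30,0)]⟩),⟨0,[(18,0)]⟩,.k,.k,⟨false,1,⟨3,
  [(16,1),(3,0),(0,0),(22,0)]⟩,⟨0,[(42,0)]⟩⟩,⟨true,0,⟨0,[(46,0)]⟩,⟨0,[]⟩⟩,⟨true,0,⟨0,[]⟩,⟨0,[(46,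
  0)]⟩⟩,⟨false,0,⟨0,[(42,0)]⟩,⟨3,[(16,1),(3,0),(0,0),(22,0)]⟩⟩,[.o ⟨false,0,⟨0,[(26,0)]⟩,⟨4,[(14,3),
  (10,0),(12,0),(5,2)]⟩⟩,.a ⟨true,0,⟨0,[(11,0),(12,0)]⟩,⟨0,[(14,0)]⟩⟩ ⟨true,1,⟨0,[(7,0),(29,0)]⟩,⟨0,
  [(0,0)]⟩⟩ ⟨false,1,⟨3,[(7,1),(5,1),(29,0),(0,0)]⟩,⟨1,[(2,0),(12,0)]⟩⟩,.o ⟨false,0,⟨0,[(10,0)]⟩,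
  ⟨20,[(1,10),(18,5),(0,5),(5,9),(10,1),(6,0)]⟩⟩,.o ⟨false,0,⟨0,[(28,0)]⟩,⟨0,[(1,0)]⟩⟩]⟩) (.Q [0,0,
  0,0,0,2,0,0,0,0,-1] (.p false [0,0,1] [] (⟨0,[(30,0)]⟩,⟨0,[(29,0)]⟩) .k 0 (⟨0,[]⟩,⟨0,[]⟩) .k .k)
  (.Q [0,0,-1,-1,0,0,-1,0,0,1,-1] (.p false [0,0,1] [1] (⟨0,[(31,0)]⟩,⟨0,[(30,0)]⟩) .k 1 (⟨0,[]⟩,⟨0,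
  []⟩) .k .k) (.R ⟨0,false,false,true,[0,-1,1],[1,-1],[],(⟨0,[(21,0)]⟩,⟨0,[(1,0),(34,0)]⟩),(⟨0,[(36,
  0)]⟩,⟨0,[(37,0)]⟩),⟨0,[(1,0)]⟩,.k,.k,(.r (-1) ⟨2,[(2,0),(1,0),(3,2),(9,0),(26,0)]⟩ ⟨1,[(13,1),(15,
  0),(0,0),(13,3)]⟩),.k,.k,.k,⟨true,0,⟨0,[(39,0),(4,0)]⟩,⟨0,[(43,0)]⟩⟩,⟨false,0,⟨0,[(26,0)]⟩,⟨20,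
  [(3,10),(18,5),(0,5),(5,9),(10,1),(6,0)]⟩⟩,⟨true,0,⟨0,[(13,0),(30,0)]⟩,⟨0,[(8,0)]⟩⟩,⟨false,0,⟨0,
  [(13,0),(12,0)]⟩,⟨4,[(16,3),(10,0),(12,0),(5,2)]⟩⟩,⟨false,0,⟨0,[]⟩,⟨0,[]⟩⟩,⟨false,0,⟨0,[]⟩,⟨0,
  []⟩⟩,[.o ⟨false,0,⟨0,[(43,0)]⟩,⟨9,[(22,0),(0,0),(16,1),(3,9),(1,4)]⟩⟩,.a ⟨true,0,⟨0,[(0,0),(28,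
  0)]⟩,⟨0,[(44,0)]⟩⟩ ⟨false,1,⟨1,[(45,0),(0,0)]⟩,⟨0,[(48,0)]⟩⟩ ⟨true,0,⟨0,[(0,0)]⟩,⟨0,[(7,0),(5,0),
  (25,0),(4,1)]⟩⟩,.e ⟨false,1,⟨1,[(22,0),(0,0),(22,0)]⟩,⟨0,[]⟩⟩ ⟨false,0,⟨0,[(0,0)]⟩,⟨9,[(22,0),(0,
  0),(5,9),(10,1),(3,9),(1,4)]⟩⟩,.o ⟨false,0,⟨0,[(7,0),(5,0),(25,0),(4,0)]⟩,⟨5,[(19,0),(6,3),(13,0),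
  (4,3)]⟩⟩]⟩) (.R ⟨0,false,false,true,[0,-1,1],[1,-1],[],(⟨0,[(21,0)]⟩,⟨0,[(1,0),(34,0)]⟩),(⟨0,[(36,
  0)]⟩,⟨0,[(37,0)]⟩),⟨0,[(1,0)]⟩,.k,.k,(.r (-1) ⟨2,[(2,0),(1,0),(3,2),(9,0),(26,0)]⟩ ⟨1,[(0,0),(12,
  1),(5,0),(9,0),(14,2)]⟩),.k,.k,.k,⟨true,0,⟨0,[(39,0),(4,0)]⟩,⟨0,[(43,0)]⟩⟩,⟨false,0,⟨0,[(26,0)]⟩,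
  ⟨20,[(3,10),(18,5),(0,5),(5,9),(10,1),(6,0)]⟩⟩,⟨true,0,⟨0,[(13,0),(30,0)]⟩,⟨0,[(8,0)]⟩⟩,⟨false,0,
  ⟨0,[(13,0),(12,0)]⟩,⟨4,[(16,3),(10,0),(12,0),(5,2)]⟩⟩,⟨false,0,⟨0,[]⟩,⟨0,[]⟩⟩,⟨false,0,⟨0,[]⟩,⟨0,
  []⟩⟩,[.o ⟨false,0,⟨0,[(43,0)]⟩,⟨9,[(22,0),(0,0),(16,1),(3,9),(1,4)]⟩⟩,.e ⟨false,1,⟨1,[(45,0),(0,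
  0)]⟩,⟨0,[(48,0)]⟩⟩ ⟨false,1,⟨6,[(9,0),(8,2),(0,0),(6,5),(0,0),(10,0),(6,2)]⟩,⟨0,[(0,0)]⟩⟩,.a
  ⟨true,0,⟨0,[(29,0)]⟩,⟨0,[(26,0)]⟩⟩ ⟨false,1,⟨1,[(22,0),(0,0),(22,0)]⟩,⟨0,[]⟩⟩ ⟨true,0,⟨0,[(26,0),
  (16,0)]⟩,⟨0,[(0,0)]⟩⟩,.o ⟨false,0,⟨1,[(0,0),(6,0),(5,1),(0,0)]⟩,⟨5,[(19,0),(6,3),(13,0),(4,
  3)]⟩⟩]⟩)) (.S ⟨1,0,[0,1,-1,-1,0,0,0,1],[0,-1,1],[1,0,-1,-2,0,0,0,1],(⟨0,[(20,0)]⟩,⟨0,[(30,0),(2,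
  0)]⟩),⟨0,[(0,0)]⟩,.k,(.r (-1) ⟨2,[(1,0),(1,0),(3,2),(9,0),(26,0)]⟩ ⟨1,[(12,1),(15,0),(0,0),(13,
  3)]⟩),⟨false,1,⟨3,[(17,1),(3,0),(0,0),(22,0)]⟩,⟨0,[(43,0)]⟩⟩,⟨true,0,⟨0,[(47,0)]⟩,⟨0,[]⟩⟩,⟨true,0,
  ⟨0,[]⟩,⟨0,[(47,0)]⟩⟩,⟨false,0,⟨0,[(43,0)]⟩,⟨3,[(17,1),(3,0),(0,0),(22,0)]⟩⟩,[.o ⟨false,0,⟨0,[(6,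
  0)]⟩,⟨0,[(27,0),(15,0),(1,0)]⟩⟩,.e ⟨false,1,⟨0,[(1,0),(1,0),(3,0)]⟩,⟨1,[(14,1),(13,0),(0,0),(13,
  1)]⟩⟩ ⟨false,1,⟨1,[(7,1),(36,0),(0,0)]⟩,⟨0,[(12,0),(30,0)]⟩⟩,.a ⟨true,0,⟨0,[(28,0)]⟩,⟨0,[(25,
  0)]⟩⟩ ⟨false,1,⟨5,[(1,0),(1,3),(3,2),(9,3),(26,0)]⟩,⟨0,[(12,0),(30,1)]⟩⟩ ⟨true,0,⟨0,[(6,0),(18,
  0)]⟩,⟨0,[(12,0),(30,0)]⟩⟩,.o ⟨false,0,⟨0,[(6,0),(5,0),(25,0),(4,0)]⟩,⟨5,[(18,0),(6,3),(13,0),(4,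
  3)]⟩⟩]⟩))) (.S ⟨1,0,[0,1,1,1,0,0,0,1],[0,1,1],[1,0,1,0,0,0,0,1],(⟨0,[(29,0),(1,0)]⟩,⟨0,[(17,0)]⟩),
  ⟨0,[(29,0)]⟩,.k,.k,⟨false,1,⟨3,[(15,1),(3,0),(0,0),(22,0)]⟩,⟨0,[(41,0)]⟩⟩,⟨true,0,⟨0,[(45,0)]⟩,⟨0,
  []⟩⟩,⟨true,0,⟨0,[]⟩,⟨0,[(45,0)]⟩⟩,⟨false,0,⟨0,[(41,0)]⟩,⟨3,[(15,1),(3,0),(0,0),(22,0)]⟩⟩,[.o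
  ⟨false,0,⟨0,[(4,0),(36,1)]⟩,⟨6,[(0,4),(5,4),(8,0),(9,1),(11,0),(5,3)]⟩⟩,.e ⟨false,0,⟨0,[(1,0)]⟩,
  ⟨7,[(6,3),(5,3),(6,2),(0,2),(14,1),(6,0)]⟩⟩ ⟨false,0,⟨1,[(1,0),(12,0),(26,1)]⟩,⟨0,[(6,0)]⟩⟩,.a
  ⟨true,1,⟨0,[(26,0),(15,0)]⟩,⟨0,[(0,0)]⟩⟩ ⟨false,0,⟨0,[(11,0)]⟩,⟨3,[(6,1),(5,1),(29,0),(0,0)]⟩⟩
  ⟨true,(-1),⟨0,[(0,0),(3,0),(36,1)]⟩,⟨0,[(6,0)]⟩⟩,.o ⟨false,1,⟨9,[(19,0),(0,0),(5,9),(10,1),(4,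
  4)]⟩,⟨0,[(9,0)]⟩⟩]⟩)))) (.S ⟨1,0,[0,0,1,1,0,0,0,-1],[1,1,-1],[1,1,1,0,0,0,0,-1],(⟨0,[(25,0),(2,
  0)]⟩,⟨0,[(15,0)]⟩),⟨0,[(25,0)]⟩,.k,.k,⟨true,0,⟨0,[(37,0)]⟩,⟨0,[(38,0)]⟩⟩,⟨false,1,⟨1,[(16,0),(0,
  0),(22,0)]⟩,⟨0,[]⟩⟩,⟨false,0,⟨0,[]⟩,⟨1,[(16,0),(0,0),(22,0)]⟩⟩,⟨true,0,⟨0,[(38,0)]⟩,⟨0,[(37,0)]⟩⟩,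
  [.e ⟨true,0,⟨0,[(7,0),(34,0)]⟩,⟨0,[(0,0)]⟩⟩ ⟨true,0,⟨0,[(7,0),(30,0)]⟩,⟨0,[(5,0)]⟩⟩,.o ⟨false,1,
  ⟨0,[(22,0),(15,0),(1,0)]⟩,⟨0,[(1,0)]⟩⟩,.a ⟨true,0,⟨0,[(20,0)]⟩,⟨0,[(23,0)]⟩⟩ ⟨false,0,⟨0,[(7,0)]⟩,
  ⟨1,[(0,0),(10,0),(27,0),(0,0)]⟩⟩ ⟨true,0,⟨0,[(7,0),(30,0)]⟩,⟨0,[(2,0)]⟩⟩,.o ⟨false,0,⟨0,[(6,0)]⟩,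
  ⟨9,[(16,0),(0,0),(5,9),(10,1),(4,4)]⟩⟩]⟩))) (.S ⟨1,0,[0,0,1,1,0,0,0,-1],[1,1,-1],[0,1,1,1,0,0,0,
  -1],(⟨0,[(23,0),(2,0)]⟩,⟨0,[(13,0)]⟩),⟨0,[(23,0)]⟩,.k,.k,⟨true,0,⟨0,[(40,0)]⟩,⟨0,[]⟩⟩,⟨false,1,⟨1,
  [(14,0),(0,0),(22,0)]⟩,⟨0,[]⟩⟩,⟨false,0,⟨0,[(36,0)]⟩,⟨3,[(10,1),(3,0),(0,0),(22,0)]⟩⟩,⟨true,0,⟨0,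
  [(36,0)]⟩,⟨0,[(35,0)]⟩⟩,[.a ⟨true,0,⟨3,[(0,1),(6,1),(3,0),(6,2),(2,0)]⟩,⟨0,[(2,0)]⟩⟩ ⟨false,0,⟨0,
  [(7,0)]⟩,⟨1,[(3,1),(33,0),(0,0)]⟩⟩ ⟨true,0,⟨3,[(0,1),(6,1),(13,0),(0,0)]⟩,⟨0,[(3,0)]⟩⟩,.e ⟨true,0,
  ⟨3,[(0,1),(6,1),(13,0),(0,0)]⟩,⟨0,[(3,0)]⟩⟩ ⟨true,0,⟨0,[(0,0)]⟩,⟨1,[(3,0),(5,0),(25,0)]⟩⟩,.e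
  ⟨false,0,⟨3,[(0,1),(6,1),(13,0),(0,0)]⟩,⟨1,[(3,1),(33,0),(0,0)]⟩⟩ ⟨false,0,⟨0,[(0,0)]⟩,⟨5,[(3,1),
  (5,3),(0,1),(26,2),(0,0)]⟩⟩,.o ⟨false,0,⟨0,[(4,0)]⟩,⟨9,[(14,0),(0,0),(5,9),(10,1),(4,4)]⟩⟩]⟩))
  (.S ⟨1,0,[0,1,0,0,0,0,0,-1],[1,0,-1],[0,0,1],(⟨0,[(22,0)]⟩,⟨0,[(23,0)]⟩),⟨0,[(11,0)]⟩,.k,.k,
  ⟨false,0,⟨0,[(0,0),(29,1),(3,0),(1,0)]⟩,⟨0,[(4,0),(31,0)]⟩⟩,⟨true,0,⟨0,[(39,0)]⟩,⟨0,[]⟩⟩,⟨true,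
  (-1),⟨0,[(0,0)]⟩,⟨0,[(4,0),(29,0),(1,0)]⟩⟩,⟨false,0,⟨0,[(35,0)]⟩,⟨3,[(9,1),(3,0),(0,0),(22,0)]⟩⟩,
  [.o ⟨false,0,⟨0,[(19,0)]⟩,⟨4,[(7,3),(10,0),(12,0),(5,2)]⟩⟩,.a ⟨true,0,⟨0,[(4,0),(12,0)]⟩,⟨0,[(7,
  0)]⟩⟩ ⟨true,0,⟨0,[(30,0)]⟩,⟨0,[(39,0)]⟩⟩ ⟨false,1,⟨0,[(4,0),(31,0)]⟩,⟨3,[(0,0),(1,0),(2,0),(2,0),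
  (27,0)]⟩⟩,.o ⟨false,0,⟨0,[(3,0)]⟩,⟨9,[(13,0),(0,0),(5,9),(10,1),(4,4)]⟩⟩,.e ⟨false,1,⟨1,[(13,0),
  (0,0),(22,0)]⟩,⟨0,[]⟩⟩ ⟨false,1,⟨0,[(4,0),(31,0)]⟩,⟨0,[(5,0)]⟩⟩]⟩)))) (.I [0,1,-1,0,0,0,0,1] (.S
  ⟨1,0,[0,0,0,0,0,0,0,1],[0,0,1],[0,1,0,0,0,0,0,1],(⟨0,[(21,0)]⟩,⟨0,[(20,0)]⟩),⟨0,[(10,0)]⟩,.k,.k,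
  ⟨true,0,⟨0,[(37,0)]⟩,⟨0,[]⟩⟩,⟨false,1,⟨1,[(11,0),(0,0),(22,0)]⟩,⟨0,[]⟩⟩,⟨false,0,⟨0,[(33,0)]⟩,⟨3,
  [(7,1),(3,0),(0,0),(22,0)]⟩⟩,⟨true,0,⟨0,[(33,0)]⟩,⟨0,[(32,0)]⟩⟩,[.a ⟨true,0,⟨0,[(5,0)]⟩,⟨0,[(2,0),
  (12,0)]⟩⟩ ⟨false,0,⟨0,[(0,0)]⟩,⟨1,[(2,1),(31,0),(0,0)]⟩⟩ ⟨true,0,⟨1,[(0,0),(2,0)]⟩,⟨0,[(2,0)]⟩⟩,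
  .o ⟨false,1,⟨4,[(5,3),(10,0),(12,0),(5,2)]⟩,⟨0,[(17,0)]⟩⟩,.a ⟨true,0,⟨0,[(1,0)]⟩,⟨1,[(8,0),(6,0),
  (2,0)]⟩⟩ ⟨false,0,⟨1,[(0,0),(2,0)]⟩,⟨1,[(2,1),(31,0),(0,0)]⟩⟩ ⟨true,0,⟨1,[(0,0),(2,0)]⟩,⟨0,[(1,0),
  (15,0)]⟩⟩,.a ⟨true,0,⟨0,[(18,0)]⟩,⟨0,[(15,0)]⟩⟩ ⟨true,0,⟨0,[(0,0)]⟩,⟨0,[(2,0)]⟩⟩ ⟨false,1,⟨0,[(0,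
  0),(34,0)]⟩,⟨0,[(2,0)]⟩⟩]⟩) (.Q [0,0,0,-1,0,0,1,1,0,0,1] (.p true [0,0,1] [] (⟨0,[(21,0)]⟩,⟨0,
  [(20,0)]⟩) .k 0 (⟨0,[]⟩,⟨0,[]⟩) .k .k) (.Q [0,1,0,-1,0,0,-1,-1,0,0,-1] (.p false [0,0,1] [] (⟨0,
  [(22,0)]⟩,⟨0,[(21,0)]⟩) .k 0 (⟨0,[]⟩,⟨0,[]⟩) .k .k) (.Q [0,0,0,1,0,0,-1,0,0,0,-1] (.p false [0,0,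
  1] [] (⟨0,[(23,0)]⟩,⟨0,[(22,0)]⟩) .k 0 (⟨0,[]⟩,⟨0,[]⟩) .k .k) (.S ⟨1,0,[0,0,0,0,0,0,0,1],[0,0,1],
  [0,1,0,0,0,0,0,1],(⟨0,[(24,0)]⟩,⟨0,[(23,0)]⟩),⟨0,[(13,0)]⟩,.k,.k,⟨true,0,⟨0,[(40,0)]⟩,⟨0,[]⟩⟩,
  ⟨false,1,⟨1,[(14,0),(0,0),(22,0)]⟩,⟨0,[]⟩⟩,⟨false,0,⟨0,[(36,0)]⟩,⟨3,[(10,1),(3,0),(0,0),(22,0)]⟩⟩,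
  ⟨true,0,⟨0,[(36,0)]⟩,⟨0,[(35,0)]⟩⟩,[.e ⟨true,0,⟨0,[(9,0)]⟩,⟨0,[(3,0)]⟩⟩ ⟨true,0,⟨0,[(0,0),(1,0)]⟩,
  ⟨0,[(5,0)]⟩⟩,.o ⟨false,1,⟨4,[(8,3),(10,0),(12,0),(5,2)]⟩,⟨0,[(20,0)]⟩⟩,.a ⟨true,0,⟨0,[(4,0)]⟩,⟨1,
  [(11,0),(6,0),(2,0)]⟩⟩ ⟨false,0,⟨0,[(0,0),(1,0)]⟩,⟨1,[(5,1),(31,0),(0,0)]⟩⟩ ⟨true,0,⟨0,[(0,0),(1,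
  0)]⟩,⟨1,[(1,0),(2,0),(2,0)]⟩⟩,.e ⟨false,1,⟨1,[(9,1),(27,0),(0,0)]⟩,⟨0,[(3,0)]⟩⟩ ⟨false,1,⟨0,[(6,
  0),(30,0)]⟩,⟨0,[(5,0)]⟩⟩]⟩) (.K ⟨0,[0,1,1],0,0,(⟨0,[(24,0),(1,0)]⟩,⟨0,[(12,0)]⟩),.k,.k,(.r 0 ⟨3,
  [(6,1),(2,1),(11,2),(0,2),(13,7)]⟩ ⟨1,[(0,4),(2,0),(3,0),(10,4),(13,0)]⟩),.k,.k,[⟨1,[(21,0),(0,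
  0)]⟩,⟨0,[(4,0)]⟩,⟨0,[(1,0)]⟩,⟨0,[(19,0),(16,0)]⟩]⟩)) (.R ⟨2,false,false,false,[0,1],[0,1,1],[0,1],
  (⟨0,[]⟩,⟨0,[]⟩),(⟨0,[(23,0),(1,0)]⟩,⟨0,[(11,0)]⟩),⟨0,[]⟩,.k,.k,.k,.k,.k,.k,⟨false,1,⟨1,[(2,1),(0,
  4),(13,4),(11,0),(1,0),(2,1)]⟩,⟨0,[(5,0),(29,0)]⟩⟩,⟨true,0,⟨0,[(3,0)]⟩,⟨0,[(21,0)]⟩⟩,⟨false,1,⟨7,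
  [(9,3),(3,0),(0,0),(14,1),(6,2)]⟩,⟨1,[(2,0),(2,0),(29,1)]⟩⟩,⟨true,0,⟨0,[(7,0)]⟩,⟨0,[(19,0)]⟩⟩,
  ⟨false,1,⟨1,[(13,0),(0,0),(21,0)]⟩,⟨0,[(33,0)]⟩⟩,⟨false,0,⟨0,[(0,0)]⟩,⟨3,[(9,1),(3,0),(0,0),(4,3),
  (17,0)]⟩⟩,[.a ⟨true,0,⟨1,[(0,0),(17,0),(16,0)]⟩,⟨0,[(2,0),(14,0),(16,0)]⟩⟩ ⟨true,0,⟨0,[(39,0)]⟩,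
  ⟨0,[(33,0)]⟩⟩ ⟨false,0,⟨1,[(0,0),(17,0),(16,0)]⟩,⟨7,[(2,4),(6,1),(7,4),(1,2),(11,0),(2,3),(1,
  3)]⟩⟩,.e ⟨false,1,⟨1,[(13,0),(0,0),(21,0)]⟩,⟨0,[]⟩⟩ ⟨false,0,⟨0,[(0,0)]⟩,⟨7,[(9,3),(3,0),(0,0),(4,
  7),(9,1),(6,2)]⟩⟩,.o ⟨false,1,⟨9,[(13,0),(0,0),(16,1),(4,4)]⟩,⟨1,[(20,0),(0,0)]⟩⟩,.fo]⟩)) (.R ⟨2,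
  true,false,true,[0,1],[0,0,1],[1,0,1],(⟨0,[]⟩,⟨0,[]⟩),(⟨0,[(22,0)]⟩,⟨0,[(21,0)]⟩),⟨0,[]⟩,.k,.k,.k,
  .k,.k,.k,⟨true,0,⟨0,[(1,0)]⟩,⟨0,[(7,0)]⟩⟩,⟨false,0,⟨0,[(2,0)]⟩,⟨9,[(9,4),(2,2),(0,2),(16,0),(4,
  4)]⟩⟩,⟨false,1,⟨3,[(8,1),(3,0),(0,0),(22,0)]⟩,⟨0,[(34,0)]⟩⟩,⟨true,0,⟨0,[(6,0),(26,0)]⟩,⟨0,[(0,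
  0)]⟩⟩,⟨true,0,⟨0,[]⟩,⟨0,[(38,0)]⟩⟩,⟨false,0,⟨0,[(6,0)]⟩,⟨0,[(18,0),(17,0)]⟩⟩,[]⟩)))) (.S ⟨1,0,[0,
  0,0,0,0,0,0,1],[0,0,1],[1,1,1],(⟨0,[(19,0)]⟩,⟨0,[(18,0)]⟩),⟨0,[(8,0)]⟩,.k,.k,⟨true,0,⟨0,[(15,0),
  (0,0)]⟩,⟨0,[(0,0)]⟩⟩,⟨false,1,⟨1,[(9,0),(0,0),(22,0)]⟩,⟨0,[]⟩⟩,⟨false,0,⟨0,[(2,0),(23,0)]⟩,⟨7,[(0,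
  5),(3,1),(0,3),(26,0),(0,2)]⟩⟩,⟨true,0,⟨0,[(31,0)]⟩,⟨0,[(30,0)]⟩⟩,[.e ⟨false,0,⟨0,[(35,0)]⟩,⟨1,
  [(32,0),(0,0)]⟩⟩ ⟨false,0,⟨0,[(0,0)]⟩,⟨3,[(2,3),(2,1),(3,0),(0,0),(22,0)]⟩⟩,.o ⟨false,1,⟨4,[(3,3),
  (10,0),(12,0),(5,2)]⟩,⟨0,[(15,0)]⟩⟩,.o ⟨false,1,⟨9,[(9,0),(0,0),(5,9),(10,1),(4,4)]⟩,⟨0,[(0,0),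
  (14,0),(10,0)]⟩⟩,.a ⟨true,0,⟨0,[(16,0)]⟩,⟨0,[(13,0)]⟩⟩ ⟨false,0,⟨0,[]⟩,⟨1,[(9,0),(0,0),(22,0)]⟩⟩
  ⟨true,0,⟨0,[(0,0)]⟩,⟨0,[(15,0),(0,0)]⟩⟩]⟩)) (.S ⟨1,0,[0,0,0,0,0,0,0,-1],[1,0,-1],[0,1,0,0,0,0,0,
  -1],(⟨0,[(17,0)]⟩,⟨0,[(18,0)]⟩),⟨0,[(6,0)]⟩,.k,.k,⟨true,0,⟨0,[(34,0)]⟩,⟨0,[]⟩⟩,⟨false,1,⟨1,[(8,0),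
  (0,0),(22,0)]⟩,⟨0,[]⟩⟩,⟨false,0,⟨0,[(30,0)]⟩,⟨3,[(4,1),(3,0),(0,0),(22,0)]⟩⟩,⟨true,0,⟨0,[(30,0)]⟩,
  ⟨0,[(29,0)]⟩⟩,[.a ⟨true,0,⟨1,[(0,0),(11,1),(1,0),(0,0),(9,1)]⟩,⟨0,[(2,0)]⟩⟩ ⟨false,0,⟨0,[(0,0)]⟩,
  ⟨0,[(3,0),(28,0)]⟩⟩ ⟨true,0,⟨0,[(0,0),(24,0)]⟩,⟨0,[(2,0),(13,0)]⟩⟩,.a ⟨true,0,⟨0,[(0,0),(11,0),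
  (12,1)]⟩,⟨0,[(13,0)]⟩⟩ ⟨true,0,⟨0,[(0,0),(24,0)]⟩,⟨0,[(2,0),(13,0)]⟩⟩ ⟨false,1,⟨0,[(0,0),(31,0)]⟩,
  ⟨0,[(3,0)]⟩⟩,.a ⟨true,0,⟨1,[(5,0),(6,0),(2,0)]⟩,⟨0,[(0,0),(1,0),(22,0)]⟩⟩ ⟨false,0,⟨0,[(0,0),(24,
  0)]⟩,⟨0,[(3,0),(28,0)]⟩⟩ ⟨true,0,⟨0,[(0,0),(24,0)]⟩,⟨0,[(3,0)]⟩⟩,.o ⟨false,0,⟨0,[(16,0)]⟩,⟨4,[(0,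
  3),(1,3),(12,0),(10,0),(4,0),(0,1)]⟩⟩]⟩))

theorem ok1 : chk K t1 l3 = true := by decide +kernel

noncomputable def t2 : Tre :=
  (.Q [0,0,0,-1,0,0,1,1,0,0,1] (.p true [0,0,1] [] (⟨0,[(17,0)]⟩,⟨0,[(16,0)]⟩) .k 0 (⟨0,[]⟩,⟨0,[]⟩)
  .k .k) (.Q [0,0,0,0,0,0,1,1,0,-1,1] (.p true [0,0,1] [1] (⟨0,[(18,0)]⟩,⟨0,[(17,0)]⟩) .k 1 (⟨0,[]⟩,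
  ⟨0,[]⟩) .k .k) (.S ⟨1,0,[0,0,0,0,0,0,0,1],[0,0,1],[0,1,0,0,0,0,0,1],(⟨0,[(19,0)]⟩,⟨0,[(18,0)]⟩),
  ⟨0,[(8,0)]⟩,.k,.k,⟨true,0,⟨0,[(35,0)]⟩,⟨0,[]⟩⟩,⟨false,1,⟨1,[(9,0),(0,0),(22,0)]⟩,⟨0,[]⟩⟩,⟨false,0,
  ⟨0,[(31,0)]⟩,⟨3,[(5,1),(3,0),(0,0),(22,0)]⟩⟩,⟨true,0,⟨0,[(31,0)]⟩,⟨0,[(30,0)]⟩⟩,[.o ⟨false,0,⟨0,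
  [(0,0)]⟩,⟨1,[(9,0),(0,0),(4,1),(17,0)]⟩⟩,.o ⟨false,1,⟨4,[(3,3),(10,0),(12,0),(5,2)]⟩,⟨0,[(15,
  0)]⟩⟩,.o ⟨false,1,⟨9,[(9,0),(0,0),(5,9),(10,1),(4,4)]⟩,⟨0,[(2,0),(12,0),(15,0)]⟩⟩,.a ⟨true,0,⟨0,
  [(16,0)]⟩,⟨0,[(13,0)]⟩⟩ ⟨false,0,⟨0,[(0,0),(12,0)]⟩,⟨0,[(15,0),(0,0),(16,0)]⟩⟩ ⟨true,0,⟨0,[(0,0),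
  (12,0)]⟩,⟨0,[(15,0),(0,0)]⟩⟩]⟩) (.Q [0,0,0,-2,0,0,1,1,0,0,1] (.p true [0,0,1] [] (⟨0,[(19,0)]⟩,⟨0,
  [(18,0)]⟩) .k 0 (⟨0,[]⟩,⟨0,[]⟩) .k .k) (.I [1,0,-1,-1,0,0,0,1] (.I [1,1,0,-1,-1,0,0,1] (.Q [0,0,0,
  1,0,0,1,1,0,-1,1] (.p true [0,0,1] [1] (⟨0,[(22,0)]⟩,⟨0,[(21,0)]⟩) .k 1 (⟨0,[]⟩,⟨0,[]⟩) .k .k)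
  (.R ⟨2,true,false,false,[0,1],[1,0,-1],[1,1,1],(⟨0,[]⟩,⟨0,[]⟩),(⟨0,[(22,0)]⟩,⟨0,[(23,0)]⟩),⟨0,[]⟩,
  .k,.k,.k,.k,.k,.k,⟨false,(-1),⟨0,[(1,0),(33,0)]⟩,⟨9,[(4,9),(8,0),(0,0),(5,9),(10,1),(4,9),(0,
  4)]⟩⟩,⟨true,(-1),⟨0,[(1,0),(2,0),(25,0),(4,0)]⟩,⟨9,[(13,0),(0,0),(5,9),(10,1),(4,4)]⟩⟩,⟨true,0,⟨0,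
  [(34,0)]⟩,⟨0,[(35,0)]⟩⟩,⟨false,1,⟨3,[(4,3),(4,1),(3,0),(0,0),(22,0)]⟩,⟨0,[(0,0)]⟩⟩,⟨false,0,⟨0,
  []⟩,⟨1,[(13,0),(0,0),(22,0)]⟩⟩,⟨true,0,⟨0,[(4,0)]⟩,⟨24,[(0,9),(0,5),(1,1),(14,6),(1,5),(8,5),(1,
  2)]⟩⟩,[]⟩) (.Q [0,0,0,2,0,0,1,1,0,-1,1] (.p true [0,0,1] [1] (⟨0,[(23,0)]⟩,⟨0,[(22,0)]⟩) .k 1 (⟨0,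
  []⟩,⟨0,[]⟩) .k .k) (.I [0,0,-2,-2,2,0,0,-1] (.R ⟨1,false,false,false,[1,0,-1],[0,1],[1,1,1],(⟨0,
  [(24,0)]⟩,⟨0,[(25,0)]⟩),(⟨0,[(30,0)]⟩,⟨0,[(29,0)]⟩),⟨0,[(13,0)]⟩,.k,.k,.k,.k,(.r (-2) ⟨0,[(0,0)]⟩
  ⟨1,[(1,2),(1,1),(2,2),(15,0),(0,0),(8,1)]⟩),.k,⟨true,0,⟨0,[(36,0)]⟩,⟨1,[(1,0),(4,0),(25,1)]⟩⟩,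
  ⟨false,2,⟨0,[(0,0),(0,0)]⟩,⟨1,[(1,0),(1,1),(2,2),(25,1)]⟩⟩,⟨false,(-1),⟨1,[(1,0),(1,1),(2,0),(25,
  1)]⟩,⟨29,[(0,19),(0,19),(4,29),(8,0),(0,0),(5,9),(10,1),(5,14)]⟩⟩,⟨false,1,⟨19,[(1,9),(13,0),(0,
  0),(3,9),(12,1),(5,14)]⟩,⟨0,[(2,0)]⟩⟩,⟨false,(-1),⟨0,[(1,0),(1,0),(2,0),(25,0)]⟩,⟨29,[(0,19),(0,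
  4),(4,14),(8,0),(0,0),(5,9),(10,1),(5,14)]⟩⟩,⟨true,0,⟨0,[(1,0)]⟩,⟨0,[(2,0),(33,0)]⟩⟩,[.a ⟨true,0,
  ⟨0,[(37,0)]⟩,⟨1,[(5,0),(0,1),(2,0)]⟩⟩ ⟨false,0,⟨0,[(41,0)]⟩,⟨1,[(38,0),(0,0)]⟩⟩ ⟨true,1,⟨29,[(0,
  9),(0,24),(4,14),(8,1),(0,1),(5,19),(10,3)]⟩,⟨0,[(3,0),(2,0),(25,0)]⟩⟩,.o ⟨false,1,⟨9,[(1,4),(4,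
  4),(8,0),(0,0),(16,1),(5,4)]⟩,⟨0,[(36,0)]⟩⟩,.o ⟨false,0,⟨8,[(1,0),(1,1),(8,0),(6,4),(1,2),(10,4),
  (0,0)]⟩,⟨14,[(0,4),(0,4),(13,0),(0,0),(5,9),(10,1)]⟩⟩,.e ⟨false,0,⟨0,[]⟩,⟨1,[(15,0),(0,0),(22,
  0)]⟩⟩ ⟨false,2,⟨29,[(0,19),(0,34),(4,14),(8,0),(0,0),(5,9),(10,1),(5,14)]⟩,⟨0,[(3,0),(2,0),(25,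
  0)]⟩⟩]⟩) (.R ⟨1,true,false,true,[1,0,-1],[0,1],[0,0,0,0,0,0,0,-1],(⟨0,[(24,0)]⟩,⟨0,[(25,0)]⟩),(⟨0,
  [(30,0)]⟩,⟨0,[(29,0)]⟩),⟨0,[(13,0)]⟩,.k,.k,.k,.k,(.x 1 ⟨18,[(0,14),(1,14),(8,4),(10,1),(0,5),(1,
  18),(1,37),(5,2),(2,4)]⟩ ⟨7,[(13,8),(0,0),(7,7),(3,4),(2,0),(3,1),(4,11)]⟩),.k,⟨true,2,⟨4,[(2,2),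
  (3,1),(4,0),(10,4),(10,0),(4,4),(0,1)]⟩,⟨0,[(0,0),(35,0)]⟩⟩,⟨false,2,⟨9,[(15,0),(0,0),(5,9),(10,
  1),(4,14)]⟩,⟨3,[(0,1),(1,1),(2,0),(0,0),(5,0)]⟩⟩,⟨false,1,⟨1,[(15,0),(0,0),(22,0)]⟩,⟨0,[]⟩⟩,⟨true,
  0,⟨47,[(0,2),(0,22),(1,3),(16,17),(1,6),(8,12),(1,4)]⟩,⟨0,[(2,0)]⟩⟩,⟨true,0,⟨0,[(37,0)]⟩,⟨0,[(36,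
  0)]⟩⟩,⟨false,0,⟨0,[(1,0)]⟩,⟨0,[(6,0),(4,0)]⟩⟩,[]⟩)) (.Q [0,-1,-1,-1,0,0,-1,0,0,1,-1] (.p false [0,
  0,1] [1] (⟨0,[(24,0)]⟩,⟨0,[(23,0)]⟩) .k 1 (⟨0,[]⟩,⟨0,[]⟩) .k .k) (.R ⟨1,false,false,false,[0,0,1],
  [1,-1],[1,1,0,-1,0,0,0,1],(⟨0,[(25,0)]⟩,⟨0,[(24,0)]⟩),(⟨0,[(29,0)]⟩,⟨0,[(30,0)]⟩),⟨0,[(14,0)]⟩,.k,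
  .k,.k,.k,.k,.k,⟨false,(-1),⟨0,[(3,0),(33,0)]⟩,⟨9,[(6,9),(8,0),(0,0),(5,9),(10,1),(4,9),(0,4)]⟩⟩,
  ⟨true,(-1),⟨0,[(3,0),(2,0),(25,0),(4,0)]⟩,⟨9,[(15,0),(0,0),(5,9),(10,1),(4,4)]⟩⟩,⟨true,0,⟨0,[(36,
  0)]⟩,⟨0,[(37,0)]⟩⟩,⟨true,0,⟨0,[(2,0)]⟩,⟨4,[(3,2),(5,1),(12,2),(8,0),(1,0),(3,7),(0,0)]⟩⟩,⟨false,0,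
  ⟨0,[]⟩,⟨1,[(15,0),(0,0),(22,0)]⟩⟩,⟨true,0,⟨0,[(6,0)]⟩,⟨4,[(3,2),(5,1),(12,2),(8,0),(1,0),(3,2),(0,
  0)]⟩⟩,[.a ⟨true,0,⟨1,[(1,0),(4,0),(2,1)]⟩,⟨0,[(37,0)]⟩⟩ ⟨true,(-1),⟨0,[(3,0)]⟩,⟨9,[(6,9),(8,0),(0,
  0),(5,9),(10,1),(3,9),(1,4)]⟩⟩ ⟨false,0,⟨2,[(1,0),(2,0),(14,1)]⟩,⟨9,[(15,0),(0,0),(5,9),(10,1),(3,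
  9),(0,4)]⟩⟩,.e ⟨false,0,⟨0,[(4,0)]⟩,⟨9,[(6,9),(8,0),(0,0),(5,9),(10,1),(3,9),(0,4)]⟩⟩ ⟨false,0,⟨0,
  [(0,0)]⟩,⟨19,[(15,6),(0,6),(5,19),(8,9),(1,3),(3,19),(0,4)]⟩⟩,.o ⟨false,1,⟨9,[(15,0),(0,0),(5,9),
  (10,1),(4,4)]⟩,⟨9,[(0,1),(2,1),(8,2),(8,1),(10,1),(0,0),(3,3)]⟩⟩,.e ⟨false,0,⟨0,[(4,0)]⟩,⟨9,[(6,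
  9),(8,0),(0,0),(5,9),(10,1),(3,9),(1,4)]⟩⟩ ⟨false,0,⟨0,[(0,0)]⟩,⟨4,[(15,2),(0,2),(5,4),(10,0),(3,
  4)]⟩⟩]⟩) (.Q [0,0,2,0,-1,0,-1,-1,0,1,-1] (.p false [0,0,1] [1] (⟨0,[(25,0)]⟩,⟨0,[(24,0)]⟩) .k 1
  (⟨0,[]⟩,⟨0,[]⟩) .k .k) (.I [0,0,2,2,-1] (.I [1,0,-2,-1,1] (.R ⟨1,false,false,true,[1,-1],[0,0,1],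
  [0,0,1],(⟨0,[(32,0)]⟩,⟨0,[(33,0)]⟩),(⟨0,[(28,0)]⟩,⟨0,[(27,0)]⟩),⟨0,[(16,0),(0,0)]⟩,.k,.k,(.r (-2)
  ⟨3,[(14,3),(3,0),(0,0),(14,1),(6,2)]⟩ ⟨0,[(1,0)]⟩),.k,(.r (-2) ⟨5,[(0,7),(3,0),(4,3),(4,0),(9,0),
  (0,5),(10,0),(4,0)]⟩ ⟨3,[(1,4),(5,1),(5,1),(28,0)]⟩),.k,⟨true,1,⟨6,[(3,1),(5,6),(4,0),(10,4),(10,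
  0),(5,3)]⟩,⟨0,[(6,0),(33,0)]⟩⟩,⟨false,2,⟨13,[(3,3),(10,1),(10,9),(10,1),(4,20),(0,0)]⟩,⟨3,[(1,0),
  (0,1),(3,0),(4,0),(10,1)]⟩⟩,⟨false,0,⟨1,[(1,0),(23,0),(0,0),(15,0)]⟩,⟨0,[(0,0)]⟩⟩,⟨true,0,⟨7,[(3,
  2),(2,2),(5,4),(21,0),(1,0),(3,7),(0,0)]⟩,⟨0,[(5,0)]⟩⟩,⟨true,(-1),⟨0,[(1,0)]⟩,⟨0,[(0,0),(38,0)]⟩⟩,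
  ⟨true,0,⟨7,[(3,2),(2,2),(5,4),(21,0),(1,0),(3,15),(0,0)]⟩,⟨0,[(4,0)]⟩⟩,[.o ⟨false,0,⟨7,[(3,2),(2,
  2),(5,4),(21,0),(1,0),(4,0)]⟩,⟨9,[(9,9),(8,0),(0,0),(16,1),(5,4)]⟩⟩,.e ⟨true,0,⟨0,[(35,0)]⟩,⟨0,
  [(44,0)]⟩⟩ ⟨true,1,⟨9,[(12,7),(10,1),(12,1),(4,4),(0,0)]⟩,⟨0,[(2,0)]⟩⟩,.o ⟨false,0,⟨1,[(25,0),(0,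
  0)]⟩,⟨9,[(18,0),(0,0),(16,1),(4,4)]⟩⟩,.a ⟨true,(-1),⟨0,[(2,0),(9,0)]⟩,⟨0,[(41,0)]⟩⟩ ⟨false,1,⟨1,
  [(18,0),(0,0),(22,0)]⟩,⟨0,[]⟩⟩ ⟨true,1,⟨7,[(3,2),(2,2),(5,4),(21,0),(1,0),(4,8)]⟩,⟨0,[(2,0)]⟩⟩]⟩)
  (.I [0,-1,-1,-1,1] (.S ⟨1,0,[0,1,-1,-1],[1,-1],[0,0,-1,-1],(⟨0,[(33,0)]⟩,⟨0,[(34,0)]⟩),⟨0,[(17,0),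
  (0,0)]⟩,.k,(.r (-2) ⟨3,[(15,3),(3,0),(0,0),(14,1),(6,2)]⟩ ⟨0,[(2,0)]⟩),⟨false,1,⟨1,[(19,0),(0,0),
  (22,0)]⟩,⟨0,[]⟩⟩,⟨true,0,⟨0,[(45,0)]⟩,⟨0,[]⟩⟩,⟨true,0,⟨0,[(41,0)]⟩,⟨0,[(40,0)]⟩⟩,⟨false,0,⟨0,[(41,
  0)]⟩,⟨3,[(15,1),(3,0),(0,0),(22,0)]⟩⟩,[.o ⟨false,0,⟨0,[(40,0)]⟩,⟨15,[(4,1),(11,0),(20,2),(3,13),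
  (0,0),(0,8)]⟩⟩,.e ⟨true,1,⟨0,[(0,0)]⟩,⟨3,[(1,2),(1,0),(0,0),(9,0),(20,0)]⟩⟩ ⟨true,1,⟨7,[(15,3),(3,
  0),(0,0),(14,1),(6,2)]⟩,⟨0,[(1,0)]⟩⟩,.o ⟨false,0,⟨1,[(26,0),(0,0)]⟩,⟨9,[(19,0),(0,0),(16,1),(4,
  4)]⟩⟩,.a ⟨true,(-1),⟨0,[(3,0),(9,0)]⟩,⟨0,[(42,0)]⟩⟩ ⟨false,2,⟨3,[(15,1),(3,0),(0,0),(21,3),(0,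
  0)]⟩,⟨0,[(1,0)]⟩⟩ ⟨true,1,⟨0,[(0,0),(34,0)]⟩,⟨0,[(1,0)]⟩⟩]⟩) (.Q [-1,0,0,0,0,0,0,0,-1,1,0,-1] (.p
  false [0,0,0,0,1] [1] (⟨0,[(22,0)]⟩,⟨0,[(21,0)]⟩) .k 1 (⟨0,[]⟩,⟨0,[]⟩) .k .k) (.Q [0,0,0,0,0,-1,0,
  0,0,0,0,1] (.ed false [1,-1,0,0,1] .k) (.S ⟨1,0,[1],[0,0,0,0,1],[1,1],(⟨0,[(24,0)]⟩,⟨0,[(23,0)]⟩),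
  ⟨0,[(0,0)]⟩,.k,(.r (-1) ⟨7,[(17,3),(3,0),(0,0),(14,1),(6,2)]⟩ ⟨9,[(4,4),(16,3),(0,3),(22,0),(1,
  1)]⟩),⟨true,0,⟨0,[(47,0)]⟩,⟨0,[]⟩⟩,⟨false,1,⟨1,[(21,0),(0,0),(22,0)]⟩,⟨0,[]⟩⟩,⟨false,0,⟨0,[(43,
  0)]⟩,⟨3,[(17,1),(3,0),(0,0),(22,0)]⟩⟩,⟨true,0,⟨0,[(43,0)]⟩,⟨0,[(42,0)]⟩⟩,[.e ⟨true,0,⟨0,[(47,0)]⟩,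
  ⟨0,[(38,0)]⟩⟩ ⟨true,0,⟨0,[]⟩,⟨1,[(28,0),(0,0)]⟩⟩,.o ⟨false,1,⟨9,[(21,0),(0,10),(16,1),(5,4)]⟩,⟨3,
  [(1,3),(0,3),(4,0),(3,0),(27,0),(4,1)]⟩⟩,.a ⟨true,0,⟨0,[(22,0)]⟩,⟨0,[(1,0)]⟩⟩ ⟨false,0,⟨0,[]⟩,⟨1,
  [(21,0),(0,0),(22,0)]⟩⟩ ⟨true,0,⟨0,[]⟩,⟨0,[(47,0)]⟩⟩,.o ⟨false,0,⟨39,[(3,12),(1,5),(0,0),(4,5),(5,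
  0),(4,39),(6,0),(9,8)]⟩,⟨5,[(1,4),(19,0),(17,0),(4,2)]⟩⟩]⟩) (.S ⟨1,0,[-1,1],[1,0,0,0,-1],[-1],(⟨0,
  [(23,0)]⟩,⟨0,[(24,0)]⟩),⟨0,[(0,0),(18,0),(0,0)]⟩,.k,(.r (-1) ⟨13,[(17,6),(3,0),(0,0),(14,1),(6,5),
  (2,2)]⟩ ⟨1,[(4,0),(16,0),(0,0)]⟩),⟨false,1,⟨1,[(21,0),(0,0),(22,0)]⟩,⟨0,[]⟩⟩,⟨true,0,⟨0,[(47,0)]⟩,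
  ⟨0,[]⟩⟩,⟨true,0,⟨0,[(43,0)]⟩,⟨0,[(42,0)]⟩⟩,⟨false,0,⟨0,[(43,0)]⟩,⟨3,[(17,1),(3,0),(0,0),(22,0)]⟩⟩,
  [.o ⟨false,0,⟨3,[(1,3),(0,3),(4,0),(3,0),(27,0),(4,1)]⟩,⟨9,[(21,0),(0,10),(16,1),(5,4)]⟩⟩,.e
  ⟨false,1,⟨0,[(38,0),(5,0)]⟩,⟨0,[(47,0)]⟩⟩ ⟨false,1,⟨9,[(21,3),(0,3),(21,4),(0,0),(1,1)]⟩,⟨0,[]⟩⟩,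
  .a ⟨true,0,⟨0,[(1,0)]⟩,⟨0,[(22,0)]⟩⟩ ⟨false,1,⟨4,[(21,1),(0,1),(22,2),(1,0)]⟩,⟨0,[]⟩⟩ ⟨true,0,⟨0,
  [(47,0)]⟩,⟨0,[]⟩⟩,.o ⟨false,0,⟨17,[(1,16),(1,5),(1,2),(5,2),(9,0),(17,3)]⟩,⟨9,[(21,0),(0,10),(16,
  1),(4,4)]⟩⟩]⟩)) (.Q [-1,-1,0,0,1,0,0,0,-1,0,0,-1] (.p false [0,0,0,0,1] [] (⟨0,[(23,0)]⟩,⟨0,[(22,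
  0)]⟩) .k 0 (⟨0,[]⟩,⟨0,[]⟩) .k .k) (.R ⟨1,false,false,true,[1,0,-1],[0,0,0,0,1],[1,1,0,-1,0,0,0,
  -1],(⟨0,[(30,0)]⟩,⟨0,[(31,0)]⟩),(⟨0,[(24,0)]⟩,⟨0,[(23,0)]⟩),⟨0,[(19,0)]⟩,.k,.k,.k,.k,(.r (-2) ⟨0,
  [(6,0),(5,0),(4,0),(26,0)]⟩ ⟨0,[(4,0),(5,0)]⟩),.k,⟨true,1,⟨5,[(7,1),(4,2),(4,0),(9,0),(0,5),(10,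
  0),(4,2)]⟩,⟨0,[(4,0),(5,0)]⟩⟩,⟨false,1,⟨0,[(1,0),(26,0),(15,0)]⟩,⟨3,[(0,3),(1,2),(4,0),(1,0),(15,
  2)]⟩⟩,⟨true,0,⟨0,[(42,0)]⟩,⟨0,[(43,0)]⟩⟩,⟨false,0,⟨0,[(1,0),(13,0)]⟩,⟨0,[(0,0),(11,0)]⟩⟩,⟨false,0,
  ⟨0,[]⟩,⟨1,[(21,0),(0,0),(22,0)]⟩⟩,⟨false,0,⟨0,[(1,0),(13,0),(27,0)]⟩,⟨1,[(0,1),(6,0),(4,0)]⟩⟩,[.o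
  ⟨false,0,⟨7,[(1,2),(0,1),(19,4),(14,1),(1,0),(2,1)]⟩,⟨0,[(0,0)]⟩⟩,.o ⟨false,0,⟨0,[(1,0)]⟩,⟨2,[(0,
  0),(20,1),(25,0)]⟩⟩,.o ⟨false,0,⟨47,[(3,7),(1,4),(1,0),(1,2),(4,2),(3,7),(6,25),(13,7)]⟩,⟨13,[(6,
  3),(10,1),(10,9),(10,1),(4,6),(0,0)]⟩⟩,.a ⟨true,(-1),⟨3,[(4,0),(0,1),(3,0),(4,0),(10,1)]⟩,⟨0,[(28,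
  0),(15,0)]⟩⟩ ⟨true,1,⟨0,[(6,0),(0,0),(36,0)]⟩,⟨0,[(4,0),(5,0)]⟩⟩ ⟨false,1,⟨0,[(1,0),(26,0),(15,
  0)]⟩,⟨3,[(0,3),(3,0),(0,1),(3,0),(4,0),(10,1)]⟩⟩]⟩) (.Q [0,0,1,0,0,0,0,0,-1,1,0,-1] (.p false [0,
  0,0,0,1] [1] (⟨0,[(24,0)]⟩,⟨0,[(23,0)]⟩) .k 1 (⟨0,[]⟩,⟨0,[]⟩) .k .k) (.Q [0,0,0,0,0,-1,0,0,0,0,0,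
  1] (.ed false [1,-1,0,0,1] .k) (.S ⟨1,0,[1,1],[0,0,0,0,1],[],(⟨0,[(26,0)]⟩,⟨0,[(25,0)]⟩),⟨0,[(0,
  0)]⟩,.k,(.r (-1) ⟨7,[(19,3),(3,0),(0,0),(14,1),(6,2)]⟩ ⟨9,[(6,4),(16,3),(0,3),(22,0),(1,1)]⟩),
  ⟨false,1,⟨4,[(23,1),(0,1),(22,2),(1,0)]⟩,⟨0,[]⟩⟩,⟨true,0,⟨0,[(49,0)]⟩,⟨0,[]⟩⟩,⟨true,0,⟨0,[(5,0),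
  (40,0)]⟩,⟨0,[(44,0)]⟩⟩,⟨false,0,⟨0,[(45,0)]⟩,⟨3,[(19,1),(3,0),(0,0),(22,0)]⟩⟩,[.a ⟨true,(-1),⟨0,
  [(2,0)]⟩,⟨1,[(1,1),(44,0),(0,0)]⟩⟩ ⟨false,1,⟨1,[(23,0),(0,0),(21,0)]⟩,⟨0,[]⟩⟩ ⟨true,0,⟨0,[(49,
  0)]⟩,⟨0,[(40,0)]⟩⟩,.o ⟨false,0,⟨0,[(3,0)]⟩,⟨4,[(1,4),(38,0),(0,0),(4,2),(2,0)]⟩⟩,.o ⟨false,0,⟨9,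
  [(2,9),(37,1),(0,1),(4,0),(0,4),(1,1)]⟩,⟨0,[(23,0)]⟩⟩,.e ⟨false,1,⟨1,[(46,0),(0,0)]⟩,⟨1,[(30,0),
  (0,0)]⟩⟩ ⟨false,1,⟨1,[(23,0),(0,0),(21,0)]⟩,⟨0,[(40,0)]⟩⟩]⟩) (.Q [-1,1,0,0,0,0,0,0,-1,1,0,-1] (.p
  false [0,0,0,0,1] [1] (⟨0,[(26,0)]⟩,⟨0,[(25,0)]⟩) .k 1 (⟨0,[]⟩,⟨0,[]⟩) .k .k) (.S ⟨1,0,[-1,1],[1,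
  0,0,0,-1],[-1],(⟨0,[(26,0)]⟩,⟨0,[(27,0)]⟩),⟨0,[(1,0),(20,0),(0,0)]⟩,.k,(.r (-1) ⟨13,[(20,6),(3,0),
  (0,0),(14,1),(6,5),(2,2)]⟩ ⟨1,[(7,0),(16,0),(0,0)]⟩),⟨false,1,⟨1,[(24,0),(0,0),(22,0)]⟩,⟨0,[]⟩⟩,
  ⟨true,0,⟨0,[(50,0)]⟩,⟨0,[]⟩⟩,⟨true,0,⟨0,[(46,0)]⟩,⟨0,[(45,0)]⟩⟩,⟨false,0,⟨0,[(46,0)]⟩,⟨3,[(20,1),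
  (3,0),(0,0),(22,0)]⟩⟩,[.a ⟨true,0,⟨0,[(0,0)]⟩,⟨0,[(3,0),(44,0)]⟩⟩ ⟨false,1,⟨9,[(24,3),(0,3),(21,
  4),(0,0),(1,1)]⟩,⟨0,[]⟩⟩ ⟨true,0,⟨0,[(50,0)]⟩,⟨0,[(41,0)]⟩⟩,.o ⟨false,1,⟨8,[(0,4),(23,3),(17,0),
  (5,2),(1,0)]⟩,⟨0,[(4,0)]⟩⟩,.o ⟨false,1,⟨0,[(24,0)]⟩,⟨9,[(3,9),(37,1),(0,1),(4,0),(0,4),(1,1)]⟩⟩,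
  .e ⟨false,1,⟨0,[(41,0),(5,0)]⟩,⟨1,[(31,0),(0,0)]⟩⟩ ⟨false,1,⟨9,[(24,3),(0,3),(21,4),(0,0),(1,1)]⟩,
  ⟨0,[(41,0)]⟩⟩]⟩) (.S ⟨1,0,[-1,1],[1,0,0,0,-1],[0,0,0,-1],(⟨0,[(26,0)]⟩,⟨0,[(27,0)]⟩),⟨0,[(1,0),
  (20,0),(0,0)]⟩,.k,(.r (-1) ⟨13,[(20,6),(3,0),(0,0),(14,1),(6,5),(2,2)]⟩ ⟨1,[(7,0),(16,0),(0,0)]⟩),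
  ⟨false,1,⟨3,[(20,1),(3,0),(0,0),(22,0)]⟩,⟨0,[(46,0)]⟩⟩,⟨true,0,⟨0,[(50,0)]⟩,⟨0,[]⟩⟩,⟨true,0,⟨0,
  []⟩,⟨0,[(50,0)]⟩⟩,⟨false,0,⟨0,[(46,0)]⟩,⟨3,[(20,1),(3,0),(0,0),(22,0)]⟩⟩,[.o ⟨false,1,⟨0,[(24,0),
  (25,0)]⟩,⟨0,[(0,0)]⟩⟩,.o ⟨false,1,⟨4,[(2,4),(38,0),(0,0),(4,2),(2,0)]⟩,⟨0,[(4,0)]⟩⟩,.o ⟨false,1,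
  ⟨0,[(24,0)]⟩,⟨11,[(0,6),(2,1),(21,2),(16,0),(7,4)]⟩⟩,.a ⟨true,0,⟨0,[(2,0)]⟩,⟨1,[(3,1),(43,0),(0,
  0)]⟩⟩ ⟨true,1,⟨7,[(20,3),(3,0),(0,0),(14,1),(6,2)]⟩,⟨0,[(5,0)]⟩⟩ ⟨false,1,⟨9,[(24,3),(0,3),(21,4),
  (0,0),(1,1)]⟩,⟨0,[(41,0)]⟩⟩]⟩))) (.Q [1,0,0,0,-1,0,0,0,1,0,0,1] (.p true [0,0,0,0,1] [] (⟨0,[(25,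
  0)]⟩,⟨0,[(24,0)]⟩) .k 0 (⟨0,[]⟩,⟨0,[]⟩) .k .k) (.R ⟨2,true,false,false,[0,1],[0,0,0,0,1],[],(⟨0,
  []⟩,⟨0,[]⟩),(⟨0,[(26,0)]⟩,⟨0,[(25,0)]⟩),⟨0,[]⟩,.k,.k,.k,(.r 0 ⟨9,[(6,4),(16,3),(0,3),(22,0),(1,
  1)]⟩ ⟨7,[(19,3),(3,0),(0,0),(14,1),(6,2)]⟩),.k,.k,⟨false,1,⟨9,[(23,3),(0,3),(21,4),(0,0),(1,1)]⟩,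
  ⟨0,[]⟩⟩,⟨true,(-1),⟨37,[(0,24),(4,9),(1,4),(5,4),(10,12),(16,0),(6,7)]⟩,⟨0,[(23,0)]⟩⟩,⟨true,1,⟨7,
  [(19,3),(3,0),(0,0),(14,1),(6,2)]⟩,⟨0,[(4,0)]⟩⟩,⟨false,0,⟨3,[(0,2),(18,1),(4,0),(22,0)]⟩,⟨0,[(23,
  0),(21,0)]⟩⟩,⟨false,1,⟨1,[(46,0),(0,0)]⟩,⟨1,[(30,0),(0,0)]⟩⟩,⟨true,(-1),⟨0,[(0,0)]⟩,⟨0,[(23,0),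
  (25,0)]⟩⟩,[]⟩) (.R ⟨1,false,false,true,[0,0,1],[1,0,0,0,-1],[1,0,0,-1,0,0,0,1],(⟨0,[(33,0)]⟩,⟨0,
  [(32,0)]⟩),(⟨0,[(25,0)]⟩,⟨0,[(26,0)]⟩),⟨0,[(22,0)]⟩,.k,.k,.k,.k,(.r 0 ⟨0,[(12,0)]⟩ ⟨1,[(0,0),(7,
  1),(5,1),(9,0),(22,0)]⟩),.k,⟨true,0,⟨0,[(16,0)]⟩,⟨0,[(29,0),(0,0),(14,0)]⟩⟩,⟨false,1,⟨0,[(0,0),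
  (26,0)]⟩,⟨0,[(1,0),(28,0)]⟩⟩,⟨false,1,⟨3,[(0,0),(18,1),(4,0),(22,0)]⟩,⟨0,[(45,0)]⟩⟩,⟨false,1,⟨0,
  [(0,0),(13,0)]⟩,⟨3,[(1,3),(3,1),(7,0),(3,2),(29,1)]⟩⟩,⟨true,0,⟨0,[]⟩,⟨0,[(49,0)]⟩⟩,⟨false,1,⟨0,
  [(0,0),(13,0),(30,0)]⟩,⟨3,[(1,3),(3,1),(7,2),(3,0),(29,1)]⟩⟩,[.o ⟨false,1,⟨0,[(0,0),(48,0)]⟩,⟨0,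
  [(1,0),(38,0)]⟩⟩,.o ⟨false,1,⟨0,[(0,0)]⟩,⟨0,[(3,0)]⟩⟩,.o ⟨false,1,⟨13,[(8,3),(10,1),(10,9),(10,1),
  (4,6),(0,0)]⟩,⟨47,[(5,7),(1,4),(1,0),(1,2),(4,2),(3,7),(6,25),(13,7)]⟩⟩,.a ⟨true,0,⟨0,[(30,0)]⟩,
  ⟨0,[(27,0)]⟩⟩ ⟨true,0,⟨0,[(12,0)]⟩,⟨0,[(8,0),(5,0)]⟩⟩ ⟨false,1,⟨0,[(0,0),(26,0)]⟩,⟨0,[(1,0),(28,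
  0),(9,0)]⟩⟩]⟩))))))) (.I [0,0,2,0,-1,2] (.R ⟨1,false,false,false,[1,-1],[0,0,1],[1,1,-1,-2],(⟨0,
  [(32,0)]⟩,⟨0,[(33,0)]⟩),(⟨0,[(28,0)]⟩,⟨0,[(27,0)]⟩),⟨0,[(16,0),(0,0)]⟩,.k,.k,(.x 1 ⟨0,[(0,0)]⟩ ⟨4,
  [(18,0),(0,0),(12,9),(3,1),(4,4)]⟩),.k,(.r (-2) ⟨5,[(4,4),(9,0),(9,0),(0,5),(10,0),(4,8)]⟩ ⟨4,[(2,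
  0),(0,0),(2,3),(5,1),(13,1),(8,4),(4,12)]⟩),.k,⟨true,1,⟨0,[(1,0),(22,0),(0,0)]⟩,⟨0,[(6,0),(28,1),
  (4,2)]⟩⟩,⟨false,2,⟨13,[(3,3),(10,1),(10,9),(10,1),(4,20),(0,0)]⟩,⟨2,[(2,1),(3,0),(4,0),(10,0),(17,
  1)]⟩⟩,⟨true,0,⟨0,[(39,0)]⟩,⟨0,[(40,0)]⟩⟩,⟨false,1,⟨4,[(12,3),(10,0),(12,0),(3,4),(1,2)]⟩,⟨0,[(5,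
  0)]⟩⟩,⟨false,0,⟨0,[]⟩,⟨1,[(18,0),(0,0),(22,0)]⟩⟩,⟨false,1,⟨4,[(12,3),(10,0),(12,0),(3,9),(1,2)]⟩,
  ⟨0,[(4,0)]⟩⟩,[.a ⟨true,0,⟨0,[(12,0)]⟩,⟨0,[(9,0)]⟩⟩ ⟨false,1,⟨2,[(1,1),(12,0),(19,1)]⟩,⟨0,[(35,0),
  (4,1)]⟩⟩ ⟨true,1,⟨9,[(12,7),(10,1),(12,1),(4,4),(0,0)]⟩,⟨0,[(2,0)]⟩⟩,.o ⟨false,1,⟨4,[(12,3),(10,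
  0),(12,0),(5,2)]⟩,⟨0,[(24,0)]⟩⟩,.o ⟨false,0,⟨1,[(25,0),(0,0)]⟩,⟨9,[(18,0),(0,0),(16,1),(4,4)]⟩⟩,
  .e ⟨false,1,⟨0,[(1,0)]⟩,⟨3,[(2,0),(0,1),(8,0),(2,0),(19,3),(4,5),(1,0)]⟩⟩ ⟨false,2,⟨4,[(12,3),(10,
  0),(12,0),(4,4),(0,2)]⟩,⟨0,[(2,0)]⟩⟩]⟩) (.I [0,0,-2,-2,1] (.R ⟨1,false,false,false,[1,-1],[0,0,1],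
  [1,1,-1,-2],(⟨0,[(33,0)]⟩,⟨0,[(34,0)]⟩),(⟨0,[(29,0)]⟩,⟨0,[(28,0)]⟩),⟨0,[(17,0),(0,0)]⟩,.k,.k,(.r
  (-1) ⟨0,[(0,0)]⟩ ⟨1,[(3,0),(0,1),(8,0),(2,0),(24,1),(1,0)]⟩),.k,(.r (-2) ⟨11,[(0,10),(3,1),(5,11),
  (4,1),(10,9),(10,1),(4,6)]⟩ ⟨4,[(3,0),(0,0),(2,3),(5,1),(13,1),(8,4),(4,12)]⟩),.k,⟨true,1,⟨0,[(0,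
  0),(24,0),(0,0)]⟩,⟨0,[(7,0),(28,1),(4,2)]⟩⟩,⟨false,2,⟨13,[(4,3),(10,1),(10,9),(10,1),(4,20),(0,
  0)]⟩,⟨2,[(3,1),(3,0),(4,0),(10,0),(17,1)]⟩⟩,⟨true,0,⟨0,[(40,0)]⟩,⟨0,[(41,0)]⟩⟩,⟨false,1,⟨4,[(13,
  3),(10,0),(12,0),(3,4),(1,2)]⟩,⟨0,[(6,0)]⟩⟩,⟨false,0,⟨0,[]⟩,⟨1,[(19,0),(0,0),(22,0)]⟩⟩,⟨false,1,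
  ⟨4,[(13,3),(10,0),(12,0),(3,9),(1,2)]⟩,⟨0,[(5,0)]⟩⟩,[.a ⟨true,0,⟨0,[(13,0)]⟩,⟨0,[(10,0)]⟩⟩ ⟨false,
  1,⟨2,[(0,1),(14,0),(19,1)]⟩,⟨0,[(36,0),(4,1)]⟩⟩ ⟨true,1,⟨9,[(13,7),(10,1),(12,1),(4,4),(0,0)]⟩,⟨0,
  [(3,0)]⟩⟩,.o ⟨false,1,⟨4,[(13,3),(10,0),(12,0),(5,2)]⟩,⟨0,[(25,0)]⟩⟩,.o ⟨false,0,⟨1,[(26,0),(0,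
  0)]⟩,⟨9,[(19,0),(0,0),(16,1),(4,4)]⟩⟩,.e ⟨false,1,⟨0,[(2,0)]⟩,⟨3,[(3,0),(0,1),(8,0),(2,0),(19,3),
  (4,5),(1,0)]⟩⟩ ⟨false,2,⟨4,[(13,3),(10,0),(12,0),(4,4),(0,2)]⟩,⟨0,[(3,0)]⟩⟩]⟩) (.Q [0,0,0,0,0,2,0,
  0,0,-1,1] (.p true [0,0,1] [1] (⟨0,[(29,0)]⟩,⟨0,[(28,0)]⟩) .k 1 (⟨0,[]⟩,⟨0,[]⟩) .k .k) (.R ⟨0,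
  false,false,true,[1,-1,-1],[1,-1],[],(⟨0,[(18,0)]⟩,⟨1,[(0,0),(10,0),(2,0),(15,0)]⟩),(⟨0,[(34,0)]⟩,
  ⟨0,[(35,0)]⟩),⟨0,[(0,0)]⟩,.k,.k,(.r (-2) ⟨5,[(6,4),(9,0),(9,0),(0,5),(10,0),(4,8)]⟩ ⟨3,[(1,4),(7,
  1),(5,1),(28,0)]⟩),.k,.k,.k,⟨true,0,⟨1,[(1,0),(42,0)]⟩,⟨0,[(41,0)]⟩⟩,⟨false,1,⟨0,[(27,0),(15,0)]⟩,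
  ⟨35,[(1,1),(2,4),(3,4),(8,5),(6,18),(12,4),(0,5),(3,0)]⟩⟩,⟨true,(-1),⟨0,[(1,0),(0,0),(5,0),(23,1),
  (4,0)]⟩,⟨1,[(3,0),(22,1),(0,1),(15,0)]⟩⟩,⟨false,0,⟨0,[(14,0)]⟩,⟨9,[(11,9),(8,0),(0,0),(16,1),(5,
  4)]⟩⟩,⟨false,0,⟨0,[]⟩,⟨0,[]⟩⟩,⟨false,0,⟨0,[]⟩,⟨0,[]⟩⟩,[.o ⟨false,0,⟨0,[(41,0)]⟩,⟨15,[(1,6),(3,1),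
  (11,0),(20,2),(4,7),(0,8)]⟩⟩,.a ⟨true,0,⟨1,[(6,0),(4,0),(2,1)]⟩,⟨0,[(42,0)]⟩⟩ ⟨false,1,⟨1,[(43,0),
  (0,0)]⟩,⟨0,[(46,0)]⟩⟩ ⟨true,1,⟨1,[(3,0),(23,1),(15,0)]⟩,⟨47,[(1,32),(2,17),(3,12),(4,4),(3,7),(6,
  13),(12,7),(0,7)]⟩⟩,.e ⟨false,1,⟨1,[(20,0),(0,0),(22,0)]⟩,⟨0,[]⟩⟩ ⟨false,1,⟨1,[(3,0),(23,1),(15,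
  0)]⟩,⟨11,[(1,6),(2,1),(8,1),(3,1),(6,5),(13,1),(5,4)]⟩⟩,.o ⟨false,(-1),⟨47,[(1,14),(2,29),(3,18),
  (4,10),(3,7),(6,1),(12,7),(0,7)]⟩,⟨13,[(5,3),(10,1),(10,9),(10,1),(4,20),(0,0)]⟩⟩]⟩) (.I [0,0,-2,
  0,1,-2] (.N [0,2] 1 ⟨0,[(2,0)]⟩ ⟨0,[(4,0)]⟩ (.x (-1) ⟨0,[(0,0)]⟩ ⟨0,[(28,0),(0,0),(3,1)]⟩)) (.Q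
  [-1,0,0,-1,0,0,1,1,-1,0,1,-1] (.p true [0,0,1] [0,0,0,0,1] (⟨0,[(31,0)]⟩,⟨0,[(30,0)]⟩) .k 2 (⟨0,
  [(24,0)]⟩,⟨0,[(23,0)]⟩) .k (.r 0 ⟨7,[(2,8),(0,32),(1,9),(3,17),(18,9),(4,65),(4,17),(0,1)]⟩ ⟨13,
  [(6,3),(5,13),(4,1),(10,9),(10,1),(4,6),(0,0)]⟩)) (.Q [0,0,0,0,0,-1,0,0,0,0,0,1] (.ed false [1,-1,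
  0,0,1] .k) (.S ⟨1,0,[1],[0,0,0,0,1],[1,1],(⟨0,[(26,0)]⟩,⟨0,[(25,0)]⟩),⟨0,[(0,0)]⟩,.k,(.r (-1) ⟨7,
  [(19,3),(3,0),(0,0),(14,1),(6,2)]⟩ ⟨9,[(4,4),(18,2),(0,2),(22,1),(1,3)]⟩),⟨true,0,⟨0,[(49,0)]⟩,⟨0,
  []⟩⟩,⟨false,1,⟨1,[(23,0),(0,0),(22,0)]⟩,⟨0,[]⟩⟩,⟨false,0,⟨0,[(45,0)]⟩,⟨3,[(19,1),(3,0),(0,0),(22,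
  0)]⟩⟩,⟨true,0,⟨0,[(45,0)]⟩,⟨0,[(44,0)]⟩⟩,[.e ⟨true,0,⟨0,[(49,0)]⟩,⟨0,[(40,0)]⟩⟩ ⟨true,0,⟨0,[]⟩,⟨1,
  [(30,0),(0,0)]⟩⟩,.o ⟨false,1,⟨9,[(23,0),(0,10),(16,1),(5,4)]⟩,⟨1,[(1,1),(2,0),(24,1),(16,0)]⟩⟩,.a
  ⟨true,0,⟨0,[(24,0)]⟩,⟨1,[(1,1),(2,0),(9,1),(31,0)]⟩⟩ ⟨false,0,⟨0,[]⟩,⟨1,[(23,0),(0,0),(22,0)]⟩⟩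
  ⟨true,0,⟨0,[]⟩,⟨0,[(49,0)]⟩⟩,.o ⟨false,0,⟨8,[(4,0),(2,1),(0,0),(2,0),(1,0),(10,8),(15,1),(0,1)]⟩,
  ⟨11,[(1,9),(2,4),(9,9),(8,1),(17,1),(4,10)]⟩⟩]⟩) (.S ⟨1,0,[-1,1],[1,0,0,0,-1],[0,0,0,-1],(⟨0,[(25,
  0)]⟩,⟨0,[(26,0)]⟩),⟨1,[(0,0),(2,0),(18,0),(2,0)]⟩,.k,(.r (-1) ⟨13,[(19,6),(3,0),(0,0),(14,1),(6,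
  5),(2,2)]⟩ ⟨1,[(4,0),(18,0),(0,0)]⟩),⟨false,1,⟨3,[(19,1),(3,0),(0,0),(22,0)]⟩,⟨0,[(45,0)]⟩⟩,⟨true,
  0,⟨0,[(49,0)]⟩,⟨0,[]⟩⟩,⟨true,0,⟨0,[]⟩,⟨0,[(49,0)]⟩⟩,⟨false,0,⟨0,[(45,0)]⟩,⟨3,[(19,1),(3,0),(0,0),
  (22,0)]⟩⟩,[.o ⟨false,0,⟨1,[(1,1),(2,0),(24,1),(16,0)]⟩,⟨9,[(23,0),(0,10),(16,1),(5,4)]⟩⟩,.e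
  ⟨false,1,⟨1,[(6,0),(40,0)]⟩,⟨3,[(4,1),(18,0),(0,0),(14,1),(6,0)]⟩⟩ ⟨false,1,⟨9,[(23,3),(0,3),(21,
  4),(0,0),(1,1)]⟩,⟨0,[]⟩⟩,.a ⟨true,0,⟨1,[(1,1),(2,0),(9,1),(31,0)]⟩,⟨0,[(24,0)]⟩⟩ ⟨false,1,⟨3,[(19,
  1),(3,0),(0,0),(22,0)]⟩,⟨1,[(4,0),(41,0)]⟩⟩ ⟨true,0,⟨0,[(49,0)]⟩,⟨0,[]⟩⟩,.o ⟨false,0,⟨11,[(1,9),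
  (2,4),(2,0),(6,8),(8,1),(17,1)]⟩,⟨9,[(23,0),(0,10),(16,1),(4,4)]⟩⟩]⟩)) (.Q [0,0,1,0,-1,0,0,0,1,-1,
  0,1] (.p true [0,0,0,0,1] [1] (⟨0,[(25,0)]⟩,⟨0,[(24,0)]⟩) .k 1 (⟨0,[]⟩,⟨0,[]⟩) .k .k) (.Q [1,0,0,
  0,-1,0,0,0,1,0,0,1] (.p true [0,0,0,0,1] [] (⟨0,[(26,0)]⟩,⟨0,[(25,0)]⟩) .k 0 (⟨0,[]⟩,⟨0,[]⟩) .k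
  .k) (.R ⟨2,true,false,false,[0,1],[0,0,0,0,1],[1,1,1],(⟨0,[]⟩,⟨0,[]⟩),(⟨0,[(27,0)]⟩,⟨0,[(26,0)]⟩),
  ⟨0,[]⟩,.k,.k,.k,(.r 0 ⟨9,[(5,4),(18,2),(0,2),(22,1),(1,3)]⟩ ⟨7,[(20,3),(3,0),(0,0),(14,1),(6,
  2)]⟩),.k,.k,⟨false,0,⟨0,[(50,0)]⟩,⟨1,[(47,0),(0,0)]⟩⟩,⟨true,(-1),⟨6,[(0,3),(0,0),(3,0),(2,0),(5,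
  0),(10,1),(23,1)]⟩,⟨0,[(24,0)]⟩⟩,⟨true,0,⟨0,[(45,0)]⟩,⟨0,[(46,0)]⟩⟩,⟨false,0,⟨3,[(0,2),(19,1),(4,
  0),(22,0)]⟩,⟨0,[(24,0),(21,0)]⟩⟩,⟨false,0,⟨0,[]⟩,⟨1,[(24,0),(0,0),(22,0)]⟩⟩,⟨true,(-1),⟨0,[(0,
  0)]⟩,⟨0,[(24,0),(25,0)]⟩⟩,[]⟩) (.R ⟨1,false,false,true,[0,0,1],[1,0,0,0,-1],[1,0,0,-1,0,0,0,1],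
  (⟨0,[(34,0)]⟩,⟨0,[(33,0)]⟩),(⟨0,[(26,0)]⟩,⟨0,[(27,0)]⟩),⟨0,[(23,0)]⟩,.k,.k,.k,.k,(.r 0 ⟨0,[(13,
  0)]⟩ ⟨2,[(0,1),(1,1),(6,0),(5,0),(15,1),(16,0),(1,0)]⟩),.k,⟨true,0,⟨0,[(17,0)]⟩,⟨3,[(6,0),(1,0),
  (0,3),(5,2),(20,1)]⟩⟩,⟨false,1,⟨0,[(0,0),(27,0)]⟩,⟨0,[(1,0),(29,0),(15,0)]⟩⟩,⟨false,1,⟨3,[(0,0),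
  (19,1),(4,0),(22,0)]⟩,⟨0,[(46,0)]⟩⟩,⟨false,1,⟨0,[(0,0),(14,0)]⟩,⟨1,[(1,1),(16,1),(28,0),(0,0)]⟩⟩,
  ⟨true,0,⟨0,[]⟩,⟨0,[(50,0)]⟩⟩,⟨false,1,⟨1,[(0,1),(4,0),(9,1),(31,0)]⟩,⟨1,[(1,1),(5,0),(10,1),(29,
  0)]⟩⟩,[.o ⟨false,1,⟨0,[(0,0),(49,0)]⟩,⟨1,[(1,1),(45,0),(0,0)]⟩⟩,.o ⟨false,1,⟨0,[(0,0)]⟩,⟨8,[(1,3),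
  (23,4),(16,0),(4,1)]⟩⟩,.o ⟨false,1,⟨13,[(9,3),(10,1),(10,9),(10,1),(4,6),(0,0)]⟩,⟨35,[(5,1),(2,4),
  (3,4),(8,5),(6,18),(12,4),(0,5),(3,0)]⟩⟩,.a ⟨true,0,⟨0,[(31,0)]⟩,⟨0,[(28,0)]⟩⟩ ⟨true,0,⟨0,[(13,
  0)]⟩,⟨0,[(9,0),(5,0)]⟩⟩ ⟨false,1,⟨0,[(0,0),(27,0)]⟩,⟨1,[(1,1),(29,1),(15,0),(0,0)]⟩⟩]⟩)) (.Q [-1,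
  1,0,0,0,0,0,0,-1,1,0,-1] (.p false [0,0,0,0,1] [1] (⟨0,[(26,0)]⟩,⟨0,[(25,0)]⟩) .k 1 (⟨0,[]⟩,⟨0,
  []⟩) .k .k) (.Q [0,0,1,0,0,0,0,0,-1,0,0,-1] (.p false [0,0,0,0,1] [] (⟨0,[(27,0)]⟩,⟨0,[(26,0)]⟩)
  .k 0 (⟨0,[]⟩,⟨0,[]⟩) .k .k) (.Q [0,0,0,0,0,-1,0,0,0,0,0,1] (.ed false [1,-1,0,0,1] .k) (.R ⟨1,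
  false,false,false,[0,0,0,0,1],[0,1],[1,1],(⟨0,[(29,0)]⟩,⟨0,[(28,0)]⟩),(⟨0,[(41,0)]⟩,⟨0,[(40,0)]⟩),
  ⟨0,[(0,0)]⟩,.k,.k,(.r (-1) ⟨35,[(3,4),(18,17),(4,4),(14,8),(1,0),(4,10)]⟩ ⟨19,[(3,2),(0,2),(2,6),
  (3,2),(9,2),(28,3),(0,5),(0,1)]⟩),(.r (-1) ⟨35,[(3,4),(18,17),(4,4),(14,8),(1,0),(4,10)]⟩ ⟨19,[(3,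
  2),(0,2),(2,6),(3,2),(9,2),(28,3),(0,5),(0,1)]⟩),(.r (-1) ⟨0,[(9,0)]⟩ ⟨2,[(3,0),(3,1),(3,1),(11,
  0),(3,0),(22,0),(0,0)]⟩),.k,⟨false,1,⟨5,[(9,0),(12,1),(19,3),(6,2)]⟩,⟨1,[(7,0),(42,0)]⟩⟩,⟨true,1,
  ⟨0,[(1,0),(47,0)]⟩,⟨0,[(4,0),(9,0),(18,0),(9,0)]⟩⟩,⟨true,0,⟨0,[(52,0)]⟩,⟨0,[]⟩⟩,⟨false,1,⟨1,[(1,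
  1),(5,0),(41,1),(0,0)]⟩,⟨0,[(4,0),(11,0)]⟩⟩,⟨false,0,⟨0,[(48,0)]⟩,⟨3,[(22,1),(3,0),(0,0),(22,
  0)]⟩⟩,⟨false,1,⟨1,[(1,1),(5,1),(41,2),(0,0)]⟩,⟨5,[(4,5),(0,0),(3,4),(4,3),(1,1),(16,3),(3,1),(5,
  3)]⟩⟩,[.a ⟨true,0,⟨0,[(48,0)]⟩,⟨1,[(12,0),(4,0),(2,1)]⟩⟩ ⟨true,0,⟨0,[(52,0)]⟩,⟨0,[(43,0)]⟩⟩
  ⟨false,1,⟨1,[(1,1),(5,0),(41,2)]⟩,⟨1,[(4,0),(4,0),(4,0),(12,0),(5,0),(9,0)]⟩⟩,.o ⟨false,1,⟨19,[(3,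
  0),(0,0),(2,8),(3,0),(9,0),(22,3),(4,8),(0,10)]⟩,⟨0,[(47,0)]⟩⟩,.e ⟨false,0,⟨0,[]⟩,⟨1,[(26,0),(0,
  0),(22,0)]⟩⟩ ⟨false,1,⟨1,[(1,1),(5,0),(41,1),(0,0)]⟩,⟨1,[(4,0),(4,0),(4,0),(12,0),(5,0),(9,0)]⟩⟩,
  .o ⟨false,0,⟨8,[(7,0),(2,1),(0,0),(2,0),(1,0),(10,8),(15,1),(0,1)]⟩,⟨0,[(1,0),(47,0)]⟩⟩]⟩) (.R ⟨0,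
  false,false,false,[0,0,0,0,1],[0,1],[1,1],(⟨0,[(29,0)]⟩,⟨0,[(28,0)]⟩),(⟨0,[(41,0)]⟩,⟨0,[(40,0)]⟩),
  ⟨0,[(0,0)]⟩,.k,.k,(.r (-1) ⟨35,[(3,4),(18,17),(4,4),(14,8),(1,0),(4,10)]⟩ ⟨19,[(3,2),(0,2),(2,6),
  (3,2),(9,2),(28,3),(0,5),(0,1)]⟩),(.r (-1) ⟨35,[(3,4),(18,17),(4,4),(14,8),(1,0),(4,10)]⟩ ⟨19,[(3,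
  2),(0,2),(2,6),(3,2),(9,2),(28,3),(0,5),(0,1)]⟩),.k,.k,⟨false,1,⟨5,[(9,0),(12,1),(19,3),(6,2)]⟩,
  ⟨1,[(7,0),(42,0)]⟩⟩,⟨true,1,⟨0,[(1,0),(47,0)]⟩,⟨0,[(4,0),(9,0),(18,0),(9,0)]⟩⟩,⟨true,0,⟨0,[(52,
  0)]⟩,⟨0,[]⟩⟩,⟨false,1,⟨1,[(1,1),(5,0),(41,1),(0,0)]⟩,⟨0,[(4,0),(11,0)]⟩⟩,⟨false,0,⟨0,[]⟩,⟨0,[]⟩⟩,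
  ⟨false,0,⟨0,[]⟩,⟨0,[]⟩⟩,[.a ⟨true,0,⟨0,[(48,0)]⟩,⟨1,[(12,0),(4,0),(2,1)]⟩⟩ ⟨true,0,⟨0,[(52,0)]⟩,
  ⟨0,[(43,0)]⟩⟩ ⟨false,1,⟨1,[(1,1),(5,0),(41,2)]⟩,⟨1,[(4,0),(4,0),(4,0),(12,0),(5,0),(9,0)]⟩⟩,.o
  ⟨false,1,⟨19,[(3,0),(0,0),(2,8),(3,0),(9,0),(22,3),(4,8),(0,10)]⟩,⟨0,[(47,0)]⟩⟩,.e ⟨false,0,⟨0,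
  []⟩,⟨1,[(26,0),(0,0),(22,0)]⟩⟩ ⟨false,1,⟨1,[(1,1),(5,0),(41,1),(0,0)]⟩,⟨1,[(4,0),(4,0),(4,0),(12,
  0),(5,0),(9,0)]⟩⟩,.o ⟨false,0,⟨8,[(7,0),(2,1),(0,0),(2,0),(1,0),(10,8),(15,1),(0,1)]⟩,⟨0,[(1,0),
  (47,0)]⟩⟩]⟩)) (.Q [0,0,0,0,0,-1,0,0,0,0,0,1] (.ed false [1,-1,0,0,1] .k) (.S ⟨1,0,[1],[0,0,0,0,1],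
  [1,1],(⟨0,[(29,0)]⟩,⟨0,[(28,0)]⟩),⟨0,[(0,0)]⟩,.k,(.r (-1) ⟨35,[(3,4),(18,17),(4,4),(14,8),(1,0),
  (4,10)]⟩ ⟨19,[(3,2),(0,2),(2,6),(3,2),(9,2),(28,3),(0,5),(0,1)]⟩),⟨true,0,⟨0,[(52,0)]⟩,⟨0,[]⟩⟩,
  ⟨false,1,⟨1,[(26,0),(0,0),(22,0)]⟩,⟨0,[]⟩⟩,⟨false,0,⟨0,[(48,0)]⟩,⟨3,[(22,1),(3,0),(0,0),(22,0)]⟩⟩,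
  ⟨true,0,⟨0,[(48,0)]⟩,⟨0,[(47,0)]⟩⟩,[.o ⟨false,0,⟨3,[(1,3),(5,0),(2,0),(5,0),(27,0)]⟩,⟨8,[(2,4),
  (23,3),(17,0),(5,2),(1,0)]⟩⟩,.a ⟨true,0,⟨0,[(1,0),(41,0)]⟩,⟨0,[(2,0)]⟩⟩ ⟨true,0,⟨0,[]⟩,⟨1,[(33,0),
  (0,0)]⟩⟩ ⟨false,1,⟨1,[(49,0),(0,0)]⟩,⟨0,[(52,0)]⟩⟩,.o ⟨false,0,⟨8,[(1,8),(5,0),(2,1),(0,0),(2,0),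
  (1,0),(26,1),(0,1)]⟩,⟨0,[(26,0)]⟩⟩,.e ⟨false,1,⟨8,[(3,4),(23,4),(16,0),(4,1)]⟩,⟨0,[(43,0)]⟩⟩
  ⟨false,1,⟨1,[(49,0),(0,0)]⟩,⟨1,[(33,0),(0,0)]⟩⟩]⟩) (.S ⟨1,0,[-1,1],[1,0,0,0,-1],[0,0,0,-1],(⟨0,
  [(28,0)]⟩,⟨0,[(29,0)]⟩),⟨1,[(0,0),(5,0),(18,0),(2,0)]⟩,.k,(.r (-1) ⟨69,[(3,4),(18,34),(4,4),(14,
  8),(1,0),(4,27),(2,16)]⟩ ⟨1,[(7,0),(18,0),(0,0)]⟩),⟨false,1,⟨3,[(22,1),(3,0),(0,0),(22,0)]⟩,⟨0,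
  [(48,0)]⟩⟩,⟨true,0,⟨0,[(52,0)]⟩,⟨0,[]⟩⟩,⟨true,0,⟨0,[]⟩,⟨0,[(52,0)]⟩⟩,⟨false,0,⟨0,[(48,0)]⟩,⟨3,
  [(22,1),(3,0),(0,0),(22,0)]⟩⟩,[.a ⟨true,0,⟨0,[(2,0)]⟩,⟨0,[(1,0),(41,0)]⟩⟩ ⟨false,1,⟨35,[(3,4),(18,
  17),(4,4),(14,8),(1,0),(4,10)]⟩,⟨1,[(7,0),(41,0)]⟩⟩ ⟨true,0,⟨0,[(52,0)]⟩,⟨0,[(43,0)]⟩⟩,.o ⟨false,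
  1,⟨8,[(2,4),(23,3),(17,0),(5,2),(1,0)]⟩,⟨3,[(1,3),(5,0),(2,0),(5,0),(27,0)]⟩⟩,.o ⟨false,1,⟨0,[(26,
  0)]⟩,⟨8,[(1,8),(5,0),(2,1),(0,0),(2,0),(1,0),(26,1),(0,1)]⟩⟩,.e ⟨false,1,⟨1,[(9,0),(40,0)]⟩,⟨1,
  [(7,0),(18,0),(0,0)]⟩⟩ ⟨false,1,⟨12,[(3,4),(23,4),(16,0),(4,3),(0,1),(1,3)]⟩,⟨0,[(43,0)]⟩⟩]⟩)))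
  (.Q [-1,0,0,0,1,0,0,0,-1,0,0,-1] (.p false [0,0,0,0,1] [] (⟨0,[(27,0)]⟩,⟨0,[(26,0)]⟩) .k 0 (⟨0,
  []⟩,⟨0,[]⟩) .k .k) (.R ⟨1,false,false,false,[0,0,1],[0,0,0,0,1],[1,0,0,-1,0,0,0,1],(⟨0,[(35,0)]⟩,
  ⟨0,[(34,0)]⟩),(⟨0,[(28,0)]⟩,⟨0,[(27,0)]⟩),⟨0,[(24,0)]⟩,.k,.k,.k,.k,(.r 0 ⟨0,[(7,0),(5,0),(23,1),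
  (4,0)]⟩ ⟨0,[(3,0),(21,0),(6,0)]⟩),.k,⟨false,0,⟨0,[(7,0),(5,0),(23,1),(4,0)]⟩,⟨1,[(10,1),(5,1),(31,
  0),(0,0)]⟩⟩,⟨true,(-1),⟨0,[(1,0),(11,0),(2,0),(30,0)]⟩,⟨0,[(25,0),(6,0)]⟩⟩,⟨false,1,⟨3,[(21,1),(3,
  0),(0,0),(22,0)]⟩,⟨0,[(47,0)]⟩⟩,⟨false,0,⟨0,[(1,0),(14,0)]⟩,⟨0,[(0,0),(18,0)]⟩⟩,⟨true,0,⟨0,[]⟩,⟨0,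
  [(51,0)]⟩⟩,⟨false,0,⟨1,[(1,1),(4,0),(9,1),(31,0)]⟩,⟨1,[(0,1),(14,0),(3,0)]⟩⟩,[.o ⟨false,0,⟨16,[(1,
  9),(8,1),(2,1),(12,6),(4,1),(9,1),(1,0)]⟩,⟨0,[(0,0)]⟩⟩,.o ⟨false,0,⟨0,[(1,0)]⟩,⟨0,[(25,0),(25,
  0)]⟩⟩,.o ⟨false,1,⟨13,[(10,3),(10,1),(10,9),(10,1),(4,6),(0,0)]⟩,⟨35,[(6,1),(2,4),(3,4),(8,5),(6,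
  18),(12,4),(0,5),(3,0)]⟩⟩,.a ⟨true,0,⟨0,[(32,0)]⟩,⟨0,[(29,0)]⟩⟩ ⟨true,0,⟨0,[(14,0)]⟩,⟨0,[(10,0),
  (5,0)]⟩⟩ ⟨false,0,⟨0,[(1,0),(27,0)]⟩,⟨0,[(0,0),(31,0)]⟩⟩]⟩) (.R ⟨2,true,false,false,[0,1],[0,0,0,
  0,1],[1,1,1],(⟨0,[]⟩,⟨0,[]⟩),(⟨0,[(28,0)]⟩,⟨0,[(27,0)]⟩),⟨0,[]⟩,.k,.k,.k,(.r 0 ⟨19,[(2,2),(0,2),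
  (2,6),(3,2),(9,2),(28,3),(0,5),(0,1)]⟩ ⟨35,[(2,4),(18,17),(4,4),(14,8),(1,0),(4,10)]⟩),.k,.k,
  ⟨false,0,⟨0,[(51,0)]⟩,⟨1,[(48,0),(0,0)]⟩⟩,⟨true,(-1),⟨32,[(0,24),(5,4),(2,4),(5,4),(10,7),(16,0),
  (6,12)]⟩,⟨0,[(25,0)]⟩⟩,⟨true,0,⟨0,[(46,0)]⟩,⟨0,[(47,0)]⟩⟩,⟨false,0,⟨3,[(0,2),(20,1),(4,0),(22,
  0)]⟩,⟨0,[(25,0),(21,0)]⟩⟩,⟨false,0,⟨0,[]⟩,⟨1,[(25,0),(0,0),(22,0)]⟩⟩,⟨true,(-1),⟨0,[(0,0)]⟩,⟨0,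
  [(25,0),(25,0)]⟩⟩,[]⟩)))))))))) (.R ⟨1,false,false,false,[1,-1],[0,0,1],[0,1,-1,-1],(⟨0,[(30,0)]⟩,
  ⟨0,[(31,0)]⟩),(⟨0,[(26,0)]⟩,⟨0,[(25,0)]⟩),⟨0,[(14,0),(0,0)]⟩,.k,.k,(.r (-1) ⟨0,[(0,0),(1,0)]⟩ ⟨2,
  [(1,1),(11,1),(9,1),(9,1),(4,3)]⟩),.k,(.r (-2) ⟨5,[(2,4),(9,0),(9,0),(0,5),(10,0),(4,8)]⟩ ⟨2,[(1,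
  0),(2,2),(8,0),(9,0),(9,3),(4,7)]⟩),.k,⟨true,1,⟨0,[(1,0),(0,0),(36,0)]⟩,⟨0,[(4,0),(28,1),(4,1)]⟩⟩,
  ⟨false,2,⟨13,[(1,3),(10,1),(10,9),(10,1),(4,20),(0,0)]⟩,⟨0,[(4,0),(2,0),(25,0),(4,0)]⟩⟩,⟨true,0,
  ⟨0,[(42,0)]⟩,⟨0,[]⟩⟩,⟨false,1,⟨17,[(0,0),(0,1),(8,14),(0,1),(22,2),(3,15),(1,10)]⟩,⟨0,[(3,0)]⟩⟩,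
  ⟨false,0,⟨0,[(38,0)]⟩,⟨3,[(12,1),(3,0),(0,0),(22,0)]⟩⟩,⟨false,1,⟨17,[(0,0),(0,1),(8,14),(0,1),(22,
  2),(3,33),(1,10)]⟩,⟨0,[(2,0)]⟩⟩,[.e ⟨false,1,⟨5,[(0,0),(1,0),(9,1),(19,3),(6,2)]⟩,⟨0,[(33,0),(4,
  0)]⟩⟩ ⟨false,1,⟨0,[(0,0)]⟩,⟨1,[(7,1),(15,0),(0,0)]⟩⟩,.o ⟨false,1,⟨4,[(10,3),(10,0),(12,0),(5,2)]⟩,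
  ⟨0,[(22,0)]⟩⟩,.o ⟨false,0,⟨1,[(23,0),(0,0)]⟩,⟨9,[(16,0),(0,0),(16,1),(4,4)]⟩⟩,.a ⟨true,(-1),⟨0,
  [(4,0),(2,0),(15,0),(9,0),(4,0)]⟩,⟨0,[(39,0)]⟩⟩ ⟨false,1,⟨1,[(0,0),(1,0),(36,0)]⟩,⟨2,[(1,0),(11,
  0),(9,0),(9,3),(4,1)]⟩⟩ ⟨true,1,⟨0,[(0,0)]⟩,⟨0,[(1,0),(2,0),(2,1),(25,0)]⟩⟩]⟩))))) (.S ⟨1,0,[0,0,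
  0,0,0,0,0,1],[0,0,1],[1,1,0,-1,0,0,0,1],(⟨0,[(22,0)]⟩,⟨0,[(21,0)]⟩),⟨0,[(11,0)]⟩,.k,.k,⟨true,0,⟨0,
  [(33,0)]⟩,⟨0,[(34,0)]⟩⟩,⟨false,1,⟨4,[(0,1),(6,1),(0,0),(27,1)]⟩,⟨0,[]⟩⟩,⟨false,0,⟨0,[]⟩,⟨4,[(0,1),
  (6,1),(0,0),(27,1)]⟩⟩,⟨true,0,⟨0,[(34,0)]⟩,⟨0,[(33,0)]⟩⟩,[.e ⟨false,0,⟨3,[(1,2),(5,0),(20,0),(4,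
  0)]⟩,⟨0,[(0,0)]⟩⟩ ⟨false,0,⟨0,[(1,0),(32,0)]⟩,⟨2,[(0,1),(7,0),(9,0),(0,0),(8,0)]⟩⟩,.o ⟨false,1,⟨4,
  [(6,3),(10,0),(12,0),(5,2)]⟩,⟨0,[(18,0)]⟩⟩,.o ⟨false,1,⟨34,[(0,3),(7,1),(8,3),(1,30),(8,0),(1,6),
  (4,14)]⟩,⟨0,[(5,0),(12,0),(15,0)]⟩⟩,.a ⟨true,0,⟨0,[(19,0)]⟩,⟨0,[(16,0)]⟩⟩ ⟨false,0,⟨0,[(1,0)]⟩,⟨1,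
  [(0,1),(18,0),(0,0)]⟩⟩ ⟨true,0,⟨0,[(1,0),(32,0)]⟩,⟨0,[(18,0),(0,0)]⟩⟩]⟩)) (.Q [0,1,0,-1,0,0,1,1,0,
  -1,1] (.p true [0,0,1] [1] (⟨0,[(21,0)]⟩,⟨0,[(20,0)]⟩) .k 1 (⟨0,[]⟩,⟨0,[]⟩) .k .k) (.S ⟨1,0,[0,0,
  1,1,0,0,0,-1],[1,1,-1],[0,1,1,1,0,0,0,-1],(⟨0,[(21,0),(2,0)]⟩,⟨0,[(11,0)]⟩),⟨0,[(21,0)]⟩,.k,.k,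
  ⟨true,0,⟨0,[(38,0)]⟩,⟨0,[]⟩⟩,⟨false,1,⟨1,[(12,0),(0,0),(22,0)]⟩,⟨0,[]⟩⟩,⟨false,0,⟨0,[(34,0)]⟩,⟨3,
  [(8,1),(3,0),(0,0),(22,0)]⟩⟩,⟨true,0,⟨0,[(34,0)]⟩,⟨0,[(33,0)]⟩⟩,[.e ⟨true,0,⟨0,[(1,0),(36,0)]⟩,⟨0,
  [(5,0)]⟩⟩ ⟨true,0,⟨0,[(1,0)]⟩,⟨4,[(0,0),(1,0),(2,1),(1,0),(1,0)]⟩⟩,.o ⟨false,1,⟨5,[(1,5),(7,0),(6,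
  3),(13,0),(4,0),(0,2)]⟩,⟨0,[(0,0)]⟩⟩,.a ⟨true,0,⟨0,[(16,0)]⟩,⟨0,[(19,0)]⟩⟩ ⟨false,0,⟨0,[(1,0)]⟩,
  ⟨9,[(5,5),(1,3),(0,1),(26,4),(0,2)]⟩⟩ ⟨true,0,⟨0,[(1,0)]⟩,⟨0,[(5,0),(22,0)]⟩⟩,.o ⟨false,0,⟨0,[(5,
  0),(12,0),(15,0)]⟩,⟨9,[(12,0),(0,0),(5,9),(10,1),(4,4)]⟩⟩]⟩) (.Q [0,0,1,0,-1,0,-1,0,0,1,-1] (.p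
  false [0,0,1] [1] (⟨0,[(22,0)]⟩,⟨0,[(21,0)]⟩) .k 1 (⟨0,[]⟩,⟨0,[]⟩) .k .k) (.I [0,0,-2,-1,1] (.R
  ⟨1,false,false,true,[0,0,1],[1,-1],[1,0,0,-1,0,0,0,1],(⟨0,[(24,0)]⟩,⟨0,[(23,0)]⟩),(⟨0,[(28,0)]⟩,
  ⟨0,[(29,0)]⟩),⟨0,[(13,0)]⟩,.k,.k,.k,.k,.k,.k,⟨false,0,⟨0,[(7,0),(28,0)]⟩,⟨6,[(0,4),(2,6),(6,0),(3,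
  0),(0,0),(14,3)]⟩⟩,⟨true,(-1),⟨0,[(1,0)]⟩,⟨9,[(14,0),(0,0),(5,9),(10,1),(4,4)]⟩⟩,⟨false,1,⟨3,[(10,
  1),(3,0),(0,0),(22,0)]⟩,⟨0,[(36,0)]⟩⟩,⟨false,0,⟨0,[(2,0),(1,0),(15,0)]⟩,⟨4,[(8,3),(10,0),(12,0),
  (3,4),(1,2)]⟩⟩,⟨true,0,⟨0,[]⟩,⟨0,[(40,0)]⟩⟩,⟨false,0,⟨0,[(5,0)]⟩,⟨4,[(8,3),(10,0),(12,0),(5,2)]⟩⟩,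
  [.o ⟨false,0,⟨0,[(35,0)]⟩,⟨9,[(14,0),(0,0),(16,1),(3,9),(1,4)]⟩⟩,.a ⟨true,0,⟨1,[(4,0),(0,1),(2,
  0)]⟩,⟨0,[(36,0)]⟩⟩ ⟨true,0,⟨0,[(7,0)]⟩,⟨0,[(3,0),(36,0)]⟩⟩ ⟨false,0,⟨0,[(0,0),(0,0)]⟩,⟨9,[(3,9),
  (4,7),(10,1),(12,1),(4,4),(0,0)]⟩⟩,.o ⟨false,1,⟨9,[(14,0),(0,0),(5,9),(10,1),(4,4)]⟩,⟨11,[(0,0),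
  (0,4),(9,1),(6,2),(13,1),(3,0)]⟩⟩,.e ⟨false,1,⟨1,[(0,0),(6,0),(1,0),(28,0)]⟩,⟨0,[(3,0)]⟩⟩ ⟨false,
  0,⟨0,[(0,0),(0,0)]⟩,⟨4,[(3,4),(4,3),(10,0),(12,0),(5,2)]⟩⟩]⟩) (.S ⟨1,0,[0,1,-1,-1],[1,-1],[0,0,-1,
  -1],(⟨0,[(28,0)]⟩,⟨0,[(29,0)]⟩),⟨0,[(12,0),(0,0)]⟩,.k,(.r (-2) ⟨3,[(10,3),(3,0),(0,0),(14,1),(6,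
  2)]⟩ ⟨0,[(0,0),(35,0)]⟩),⟨false,1,⟨1,[(14,0),(0,0),(22,0)]⟩,⟨0,[]⟩⟩,⟨true,0,⟨0,[(40,0)]⟩,⟨0,[]⟩⟩,
  ⟨true,0,⟨0,[(36,0)]⟩,⟨0,[(35,0)]⟩⟩,⟨false,0,⟨0,[(36,0)]⟩,⟨3,[(10,1),(3,0),(0,0),(22,0)]⟩⟩,[.o
  ⟨false,0,⟨0,[(35,0)]⟩,⟨9,[(14,0),(0,0),(16,1),(3,9),(1,4)]⟩⟩,.e ⟨true,1,⟨13,[(2,9),(1,9),(5,1),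
  (21,1),(4,6),(0,0)]⟩,⟨0,[(0,0),(39,0)]⟩⟩ ⟨true,1,⟨7,[(10,3),(3,0),(0,0),(14,1),(6,2)]⟩,⟨0,[(0,
  0)]⟩⟩,.o ⟨false,0,⟨1,[(21,0),(0,0)]⟩,⟨9,[(14,0),(0,0),(16,1),(4,4)]⟩⟩,.a ⟨true,(-1),⟨0,[(1,0),(19,
  0)]⟩,⟨0,[(37,0)]⟩⟩ ⟨false,2,⟨3,[(10,1),(3,0),(0,0),(21,3),(0,0)]⟩,⟨0,[(0,0)]⟩⟩ ⟨true,1,⟨3,[(4,0),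
  (5,0),(9,0),(9,1),(6,2)]⟩,⟨0,[(0,0)]⟩⟩]⟩)) (.Q [0,-1,0,0,0,0,-1,-1,0,1,-1] (.p false [0,0,1] [1]
  (⟨0,[(23,0)]⟩,⟨0,[(22,0)]⟩) .k 1 (⟨0,[]⟩,⟨0,[]⟩) .k .k) (.I [1,-1,-1,-2,0,0,0,2] (.Q [0,0,-2,0,0,
  0,-2,0,0,1,-2] (.p false [0,0,1] [1,0,-1] (⟨0,[(25,0)]⟩,⟨0,[(24,0)]⟩) .k 2 (⟨0,[(24,0)]⟩,⟨0,[(25,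
  0)]⟩) .k (.r 0 ⟨1,[(0,0),(8,0),(0,0),(12,0),(13,1)]⟩ ⟨0,[(1,0),(0,0),(1,0),(31,0)]⟩)) (.R ⟨1,
  false,false,true,[0,0,1],[1,1,-1],[1,0,0,-1,0,0,0,1],(⟨0,[(26,0)]⟩,⟨0,[(25,0)]⟩),(⟨0,[(25,0),(2,
  0)]⟩,⟨0,[(15,0)]⟩),⟨0,[(15,0)]⟩,.k,.k,.k,(.r 0 ⟨4,[(1,3),(9,1),(20,0),(5,2)]⟩ ⟨6,[(3,2),(1,10),(1,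
  2),(4,1),(3,1),(0,1),(14,0)]⟩),(.r (-1) ⟨7,[(1,4),(9,5),(0,2),(19,0),(6,4)]⟩ ⟨0,[(5,1)]⟩),.k,
  ⟨true,0,⟨0,[(1,0)]⟩,⟨0,[(5,1),(36,0)]⟩⟩,⟨false,0,⟨0,[(0,0)]⟩,⟨49,[(3,24),(12,13),(0,13),(5,74),
  (10,4),(5,0),(1,1)]⟩⟩,⟨false,1,⟨3,[(12,1),(3,0),(0,0),(22,0)]⟩,⟨0,[(38,0)]⟩⟩,⟨false,0,⟨0,[(4,0),
  (17,0)]⟩,⟨9,[(6,2),(3,16),(1,1),(21,1),(5,3)]⟩⟩,⟨true,0,⟨0,[]⟩,⟨0,[(42,0)]⟩⟩,⟨false,0,⟨0,[(0,0),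
  (4,1)]⟩,⟨4,[(6,3),(3,5),(1,0),(21,0),(5,1)]⟩⟩,[.o ⟨false,0,⟨0,[(22,0),(15,0)]⟩,⟨9,[(6,2),(3,6),(1,
  1),(21,1),(5,3)]⟩⟩,.a ⟨true,0,⟨6,[(4,4),(0,1),(1,0),(5,0),(7,0),(10,1)]⟩,⟨0,[(8,0)]⟩⟩ ⟨true,0,⟨0,
  [(9,0)]⟩,⟨0,[(5,0),(36,0)]⟩⟩ ⟨false,0,⟨0,[(0,0),(4,0)]⟩,⟨9,[(3,4),(2,2),(3,2),(1,1),(8,3),(1,4),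
  (10,0),(5,0)]⟩⟩,.o ⟨false,1,⟨49,[(3,24),(12,13),(0,13),(5,24),(10,4),(5,0),(1,1)]⟩,⟨1,[(1,0),(20,
  1),(10,0),(4,1)]⟩⟩,.e ⟨false,1,⟨19,[(1,5),(9,7),(0,3),(26,6),(0,8)]⟩,⟨0,[(5,0)]⟩⟩ ⟨false,0,⟨0,[(0,
  0),(4,0)]⟩,⟨9,[(6,2),(3,6),(1,1),(10,9),(10,1),(5,3)]⟩⟩]⟩) (.Q [0,1,0,1,0,0,1,1,0,-1,1] (.p true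
  [0,0,1] [1] (⟨0,[(26,0)]⟩,⟨0,[(25,0)]⟩) .k 1 (⟨0,[]⟩,⟨0,[]⟩) .k .k) (.R ⟨2,false,false,false,[0,
  1],[1,0,-1],[1],(⟨0,[]⟩,⟨0,[]⟩),(⟨0,[(26,0)]⟩,⟨0,[(27,0)]⟩),⟨0,[]⟩,.k,.k,.k,.k,.k,.k,⟨true,0,⟨5,
  [(0,1),(1,0),(8,1),(2,1),(19,0)]⟩,⟨1,[(1,0),(1,0),(19,0)]⟩⟩,⟨false,0,⟨1,[(8,0),(2,0),(2,0)]⟩,⟨0,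
  [(4,0)]⟩⟩,⟨false,1,⟨11,[(2,1),(0,3),(0,3),(8,3),(26,2),(0,0)]⟩,⟨1,[(1,0),(12,0),(24,1)]⟩⟩,⟨true,0,
  ⟨0,[(3,0),(34,0)]⟩,⟨0,[(0,0)]⟩⟩,⟨false,1,⟨1,[(40,0),(0,0)]⟩,⟨1,[(1,0),(12,0)]⟩⟩,⟨false,0,⟨0,[(3,
  0)]⟩,⟨9,[(17,0),(0,0),(3,9),(12,1),(5,4)]⟩⟩,[.a ⟨true,0,⟨0,[(8,0)]⟩,⟨0,[(11,0)]⟩⟩ ⟨true,0,⟨0,[]⟩,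
  ⟨1,[(1,0),(12,0)]⟩⟩ ⟨false,0,⟨0,[(8,0)]⟩,⟨9,[(11,7),(10,1),(12,1),(4,4),(0,0)]⟩⟩,.e ⟨false,1,⟨1,
  [(40,0),(0,0)]⟩,⟨0,[(43,0)]⟩⟩ ⟨false,0,⟨0,[(3,0)]⟩,⟨9,[(17,0),(0,0),(3,9),(12,1),(4,4)]⟩⟩,.o
  ⟨false,1,⟨9,[(17,0),(0,0),(16,1),(4,4)]⟩,⟨1,[(1,0),(12,0)]⟩⟩,.fo]⟩) (.Q [0,0,0,0,0,-2,0,0,0,0,1]
  (.p true [0,0,1] [] (⟨0,[(27,0)]⟩,⟨0,[(26,0)]⟩) .k 0 (⟨0,[]⟩,⟨0,[]⟩) .k .k) (.R ⟨1,false,false,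
  true,[0,-1,1],[1,-1],[1,0,-1,-2,0,0,0,1],(⟨0,[(17,0)]⟩,⟨0,[(27,0),(2,0)]⟩),(⟨0,[(32,0)]⟩,⟨0,[(33,
  0)]⟩),⟨0,[(0,0)]⟩,.k,.k,(.r (-1) ⟨1,[(3,0),(10,0),(19,0),(6,0)]⟩ ⟨1,[(2,0),(4,1),(7,0),(24,1)]⟩),
  .k,.k,.k,⟨true,0,⟨0,[(11,0)]⟩,⟨0,[(7,0),(36,0)]⟩⟩,⟨false,0,⟨0,[(22,0)]⟩,⟨99,[(2,24),(2,49),(12,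
  38),(0,38),(16,4),(5,0),(1,1)]⟩⟩,⟨false,1,⟨3,[(14,1),(3,0),(0,0),(22,0)]⟩,⟨0,[(40,0)]⟩⟩,⟨false,0,
  ⟨0,[(9,0)]⟩,⟨4,[(12,3),(10,0),(12,0),(5,2)]⟩⟩,⟨true,0,⟨0,[]⟩,⟨0,[(44,0)]⟩⟩,⟨false,0,⟨6,[(6,4),(0,
  1),(1,0),(5,0),(7,0),(10,1)]⟩,⟨79,[(2,8),(0,11),(1,5),(6,55),(1,27),(21,12),(5,19)]⟩⟩,[.o ⟨false,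
  0,⟨0,[(39,0)]⟩,⟨9,[(18,0),(0,0),(16,1),(3,9),(1,4)]⟩⟩,.a ⟨true,0,⟨1,[(8,0),(0,1),(2,0)]⟩,⟨0,[(40,
  0)]⟩⟩ ⟨false,1,⟨36,[(1,9),(1,20),(1,4),(2,4),(5,5),(21,0),(4,23)]⟩,⟨2,[(7,3),(5,0),(20,0),(5,
  1)]⟩⟩ ⟨true,0,⟨4,[(1,1),(1,0),(18,2),(11,0),(4,0)]⟩,⟨1,[(2,1),(0,0),(20,1),(10,0),(4,3)]⟩⟩,.e
  ⟨false,1,⟨9,[(3,3),(9,1),(0,5),(26,2),(0,0)]⟩,⟨0,[(7,0),(32,0)]⟩⟩ ⟨false,0,⟨4,[(1,1),(1,0),(18,2),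
  (11,0),(4,0)]⟩,⟨6,[(2,1),(4,2),(15,2),(12,0),(3,3),(1,4)]⟩⟩,.o ⟨false,0,⟨1,[(2,1),(0,0),(20,1),
  (10,0),(4,1)]⟩,⟨5,[(15,0),(6,3),(13,0),(4,3)]⟩⟩]⟩) (.R ⟨0,false,false,true,[0,-1,1],[1,-1],[],(⟨0,
  [(17,0)]⟩,⟨1,[(0,0),(8,0),(2,0),(14,0)]⟩),(⟨0,[(32,0)]⟩,⟨0,[(33,0)]⟩),⟨0,[(0,0)]⟩,.k,.k,(.r (-1)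
  ⟨1,[(3,0),(10,0),(19,0),(6,0)]⟩ ⟨1,[(2,0),(4,1),(7,0),(24,1)]⟩),.k,.k,.k,⟨true,0,⟨0,[(35,0),(4,
  0)]⟩,⟨0,[(39,0)]⟩⟩,⟨false,0,⟨0,[(22,0)]⟩,⟨99,[(2,24),(2,49),(12,38),(0,38),(16,4),(5,0),(1,1)]⟩⟩,
  ⟨true,0,⟨0,[(7,0)]⟩,⟨6,[(3,2),(9,0),(20,3),(4,0)]⟩⟩,⟨false,0,⟨0,[(9,0)]⟩,⟨4,[(12,3),(10,0),(12,0),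
  (5,2)]⟩⟩,⟨false,0,⟨0,[]⟩,⟨0,[]⟩⟩,⟨false,0,⟨0,[]⟩,⟨0,[]⟩⟩,[.o ⟨false,0,⟨0,[(39,0)]⟩,⟨9,[(18,0),(0,
  0),(16,1),(3,9),(1,4)]⟩⟩,.a ⟨true,0,⟨1,[(8,0),(0,1),(2,0)]⟩,⟨0,[(40,0)]⟩⟩ ⟨false,1,⟨1,[(41,0),(0,
  0)]⟩,⟨0,[(44,0)]⟩⟩ ⟨true,0,⟨4,[(1,1),(1,0),(18,2),(11,0),(4,0)]⟩,⟨1,[(2,1),(0,0),(20,1),(10,0),(4,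
  3)]⟩⟩,.e ⟨false,1,⟨1,[(18,0),(0,0),(22,0)]⟩,⟨0,[]⟩⟩ ⟨false,0,⟨4,[(1,1),(1,0),(18,2),(11,0),(4,
  0)]⟩,⟨6,[(2,1),(4,2),(15,2),(12,0),(3,3),(1,4)]⟩⟩,.o ⟨false,0,⟨1,[(2,1),(0,0),(20,1),(10,0),(4,
  1)]⟩,⟨5,[(15,0),(6,3),(13,0),(4,3)]⟩⟩]⟩)))) (.Q [0,0,2,0,0,0,1,0,0,-1,1] (.p true [0,0,1] [1] (⟨0,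
  [(25,0)]⟩,⟨0,[(24,0)]⟩) .k 1 (⟨0,[]⟩,⟨0,[]⟩) .k .k) (.Q [0,0,0,0,0,2,0,0,0,0,-1] (.p false [0,0,
  1] [] (⟨0,[(26,0)]⟩,⟨0,[(25,0)]⟩) .k 0 (⟨0,[]⟩,⟨0,[]⟩) .k .k) (.R ⟨0,false,false,true,[0,-1,1],[1,
  -1],[],(⟨0,[(16,0)]⟩,⟨1,[(0,0),(7,0),(2,0),(14,0)]⟩),(⟨0,[(31,0)]⟩,⟨0,[(32,0)]⟩),⟨0,[(0,0)]⟩,.k,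
  .k,(.r (-1) ⟨5,[(7,5),(6,0),(6,3),(13,0),(4,3)]⟩ ⟨2,[(1,0),(4,3),(4,0),(2,0),(24,1)]⟩),.k,.k,.k,
  ⟨true,0,⟨0,[(34,0),(4,0)]⟩,⟨0,[(38,0)]⟩⟩,⟨false,0,⟨0,[(21,0)]⟩,⟨2,[(1,0),(2,1),(12,0),(0,0)]⟩⟩,
  ⟨true,0,⟨0,[(6,0)]⟩,⟨0,[(10,0),(22,0)]⟩⟩,⟨false,0,⟨0,[(8,0)]⟩,⟨4,[(11,3),(10,0),(12,0),(5,2)]⟩⟩,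
  ⟨false,0,⟨0,[]⟩,⟨0,[]⟩⟩,⟨false,0,⟨0,[]⟩,⟨0,[]⟩⟩,[.o ⟨false,0,⟨0,[(38,0)]⟩,⟨39,[(2,1),(9,3),(22,7),
  (3,35),(0,0),(0,22)]⟩⟩,.a ⟨true,0,⟨1,[(7,0),(0,1),(2,0)]⟩,⟨0,[(39,0)]⟩⟩ ⟨false,1,⟨1,[(40,0),(0,
  0)]⟩,⟨6,[(2,0),(9,1),(20,0),(4,1)]⟩⟩ ⟨true,0,⟨0,[(3,0),(6,0),(22,0)]⟩,⟨0,[(1,0),(37,0)]⟩⟩,.e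
  ⟨false,1,⟨1,[(17,0),(0,0),(22,0)]⟩,⟨0,[]⟩⟩ ⟨false,0,⟨0,[(3,0),(6,0),(22,0)]⟩,⟨14,[(1,4),(0,4),(8,
  7),(10,1),(12,1),(3,4),(1,10)]⟩⟩,.o ⟨false,0,⟨0,[(1,0)]⟩,⟨5,[(14,0),(6,3),(13,0),(4,3)]⟩⟩]⟩) (.R
  ⟨1,false,false,true,[0,-1,1],[1,-1],[1,0,-1,-2,0,0,0,1],(⟨0,[(16,0)]⟩,⟨0,[(26,0),(2,0)]⟩),(⟨0,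
  [(31,0)]⟩,⟨0,[(32,0)]⟩),⟨0,[(0,0)]⟩,.k,.k,(.r (-1) ⟨5,[(7,5),(6,0),(6,3),(13,0),(4,3)]⟩ ⟨2,[(1,0),
  (4,3),(4,0),(2,0),(24,1)]⟩),.k,.k,.k,⟨true,0,⟨0,[(10,0)]⟩,⟨4,[(1,0),(0,2),(11,0),(7,0),(15,0)]⟩⟩,
  ⟨false,0,⟨0,[(21,0)]⟩,⟨2,[(1,0),(2,1),(12,0),(0,0)]⟩⟩,⟨false,1,⟨3,[(13,1),(3,0),(0,0),(22,0)]⟩,⟨0,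
  [(39,0)]⟩⟩,⟨false,0,⟨0,[(8,0)]⟩,⟨4,[(11,3),(10,0),(12,0),(5,2)]⟩⟩,⟨true,0,⟨0,[]⟩,⟨6,[(2,0),(9,1),
  (20,0),(4,1)]⟩⟩,⟨false,0,⟨6,[(2,1),(2,2),(2,0),(5,0),(6,1),(0,0)]⟩,⟨9,[(7,2),(3,6),(1,1),(21,1),
  (5,3)]⟩⟩,[.o ⟨false,0,⟨0,[(38,0)]⟩,⟨39,[(2,1),(9,3),(22,7),(3,35),(0,0),(0,22)]⟩⟩,.a ⟨true,0,⟨1,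
  [(7,0),(0,1),(2,0)]⟩,⟨0,[(39,0)]⟩⟩ ⟨false,1,⟨0,[(3,0),(0,0),(5,1),(22,0)]⟩,⟨1,[(2,0),(3,0),(5,0),
  (26,0)]⟩⟩ ⟨true,0,⟨0,[(3,0),(6,0),(22,0)]⟩,⟨0,[(1,0),(37,0)]⟩⟩,.e ⟨false,1,⟨47,[(7,9),(2,31),(1,
  5),(0,21),(0,4),(20,0),(4,23)]⟩,⟨0,[(6,0),(32,0)]⟩⟩ ⟨false,0,⟨0,[(3,0),(6,0),(22,0)]⟩,⟨14,[(1,4),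
  (0,4),(8,7),(10,1),(12,1),(3,4),(1,10)]⟩⟩,.o ⟨false,0,⟨0,[(1,0)]⟩,⟨5,[(14,0),(6,3),(13,0),(4,
  3)]⟩⟩]⟩)) (.I [0,1,1,1,0,0,0,-2] (.R ⟨1,false,false,true,[0,0,1],[1,0,-1],[1,0,0,-1,0,0,0,1],(⟨0,
  [(27,0)]⟩,⟨0,[(26,0)]⟩),(⟨0,[(26,0)]⟩,⟨0,[(27,0)]⟩),⟨0,[(16,0)]⟩,.k,.k,.k,.k,(.r 0 ⟨0,[(10,1),(22,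
  0),(5,0)]⟩ ⟨3,[(2,3),(10,1),(3,0),(0,0),(22,0)]⟩),.k,⟨true,0,⟨1,[(10,2),(1,0),(26,0)]⟩,⟨0,[(0,
  0)]⟩⟩,⟨false,0,⟨0,[(1,0),(23,0)]⟩,⟨0,[(4,0),(19,0)]⟩⟩,⟨false,1,⟨3,[(13,1),(3,0),(0,0),(22,0)]⟩,⟨0,
  [(39,0)]⟩⟩,⟨false,0,⟨0,[(3,0),(19,0)]⟩,⟨4,[(11,8),(10,0),(12,0),(5,2)]⟩⟩,⟨true,0,⟨0,[]⟩,⟨5,[(0,0),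
  (11,1),(20,0),(4,0)]⟩⟩,⟨false,0,⟨0,[(5,0),(17,0)]⟩,⟨9,[(7,2),(3,16),(1,1),(21,1),(5,3)]⟩⟩,[.o
  ⟨false,0,⟨0,[(23,0)]⟩,⟨4,[(11,3),(10,0),(12,0),(5,2)]⟩⟩,.a ⟨true,0,⟨0,[(8,0)]⟩,⟨0,[(11,0)]⟩⟩
  ⟨true,0,⟨0,[(10,0)]⟩,⟨5,[(0,1),(1,1),(9,1),(11,0),(0,0)]⟩⟩ ⟨false,0,⟨1,[(1,0),(3,0),(4,0),(12,
  1)]⟩,⟨9,[(4,4),(6,3),(10,5),(1,4),(10,0),(5,2)]⟩⟩,.o ⟨false,1,⟨16,[(2,2),(1,6),(8,2),(8,5),(1,3),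
  (10,1),(5,2)]⟩,⟨0,[(10,0),(12,0),(15,0)]⟩⟩,.e ⟨false,1,⟨9,[(10,5),(1,3),(0,1),(26,4),(0,2)]⟩,⟨0,
  [(6,0)]⟩⟩ ⟨false,0,⟨1,[(1,0),(3,0),(4,0),(12,1)]⟩,⟨4,[(11,3),(10,0),(1,4),(10,0),(5,2)]⟩⟩]⟩) (.I
  [1,0,1,0,0,0,0,-1] (.Q [0,0,-2,-1,0,0,-1,0,0,1,-1] (.p false [0,0,1] [1] (⟨0,[(28,0)]⟩,⟨0,[(27,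
  0)]⟩) .k 1 (⟨0,[]⟩,⟨0,[]⟩) .k .k) (.Q [0,0,0,0,0,2,0,0,0,0,-1] (.p false [0,0,1] [] (⟨0,[(29,0)]⟩,
  ⟨0,[(28,0)]⟩) .k 0 (⟨0,[]⟩,⟨0,[]⟩) .k .k) (.R ⟨0,false,false,true,[0,-1,1],[1,-1],[1],(⟨0,[(19,
  0)]⟩,⟨1,[(0,0),(10,0),(2,0),(14,0)]⟩),(⟨0,[(34,0)]⟩,⟨0,[(35,0)]⟩),⟨0,[(0,0)]⟩,.k,.k,(.r (-1) ⟨30,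
  [(1,4),(1,12),(6,4),(5,16),(19,14),(1,0),(4,11)]⟩ ⟨1,[(9,2),(4,0),(13,0),(13,0)]⟩),.k,.k,.k,⟨true,
  0,⟨0,[(37,0),(4,0)]⟩,⟨0,[(41,0)]⟩⟩,⟨false,0,⟨0,[(24,0)]⟩,⟨16,[(5,2),(1,6),(8,2),(8,5),(1,3),(10,
  1),(5,2)]⟩⟩,⟨true,0,⟨0,[(9,0)]⟩,⟨1,[(3,0),(32,0),(4,0)]⟩⟩,⟨false,0,⟨0,[(11,0)]⟩,⟨4,[(14,3),(10,0),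
  (12,0),(5,2)]⟩⟩,⟨false,0,⟨0,[]⟩,⟨0,[]⟩⟩,⟨false,0,⟨0,[]⟩,⟨0,[]⟩⟩,[.o ⟨false,0,⟨0,[(41,0)]⟩,⟨39,[(5,
  1),(9,3),(22,7),(3,35),(0,0),(0,22)]⟩⟩,.e ⟨false,1,⟨1,[(43,0),(0,0)]⟩,⟨6,[(5,0),(9,1),(20,0),(4,
  1)]⟩⟩ ⟨false,0,⟨0,[(1,0)]⟩,⟨4,[(5,0),(3,2),(5,0),(9,3),(1,0),(10,0),(5,2)]⟩⟩,.a ⟨true,0,⟨0,[(27,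
  0)]⟩,⟨0,[(24,0)]⟩⟩ ⟨true,0,⟨0,[]⟩,⟨6,[(5,0),(9,1),(20,0),(4,1)]⟩⟩ ⟨false,0,⟨3,[(1,1),(8,0),(0,0),
  (5,0)]⟩,⟨4,[(9,4),(4,3),(10,0),(12,0),(5,2)]⟩⟩,.e ⟨false,1,⟨1,[(43,0),(0,0)]⟩,⟨1,[(27,0),(0,0)]⟩⟩
  ⟨false,0,⟨0,[(1,0)]⟩,⟨4,[(9,4),(4,3),(0,0),(11,2),(0,1),(9,0),(5,2)]⟩⟩]⟩) (.R ⟨1,false,false,true,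
  [0,-1,1],[1,-1],[0,1,-1,-1,0,0,0,1],(⟨0,[(19,0)]⟩,⟨0,[(29,0),(2,0)]⟩),(⟨0,[(34,0)]⟩,⟨0,[(35,0)]⟩),
  ⟨0,[(0,0)]⟩,.k,.k,(.r (-1) ⟨30,[(1,4),(1,12),(6,4),(5,16),(19,14),(1,0),(4,11)]⟩ ⟨1,[(9,2),(4,0),
  (13,0),(13,0)]⟩),.k,.k,.k,⟨true,0,⟨3,[(3,0),(10,0),(0,0),(12,0),(13,0)]⟩,⟨0,[(2,0)]⟩⟩,⟨false,0,⟨0,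
  [(24,0)]⟩,⟨16,[(5,2),(1,6),(8,2),(8,5),(1,3),(10,1),(5,2)]⟩⟩,⟨true,0,⟨6,[(5,0),(9,1),(20,0),(4,
  1)]⟩,⟨0,[]⟩⟩,⟨false,0,⟨0,[(11,0)]⟩,⟨4,[(14,3),(10,0),(12,0),(5,2)]⟩⟩,⟨false,0,⟨0,[(42,0)]⟩,⟨3,
  [(16,1),(3,0),(0,0),(22,0)]⟩⟩,⟨false,0,⟨6,[(5,1),(2,2),(2,0),(5,0),(6,1),(0,0)]⟩,⟨9,[(10,2),(3,6),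
  (1,1),(21,1),(5,3)]⟩⟩,[.o ⟨false,0,⟨0,[(41,0)]⟩,⟨39,[(5,1),(9,3),(22,7),(3,35),(0,0),(0,22)]⟩⟩,.e
  ⟨false,1,⟨12,[(3,4),(11,2),(0,3),(19,2),(6,8)]⟩,⟨0,[(9,0)]⟩⟩ ⟨false,0,⟨0,[(1,0)]⟩,⟨4,[(5,0),(3,2),
  (5,0),(9,3),(1,0),(10,0),(5,2)]⟩⟩,.a ⟨true,0,⟨0,[(27,0)]⟩,⟨0,[(24,0)]⟩⟩ ⟨true,0,⟨1,[(3,0),(32,0),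
  (4,0)]⟩,⟨0,[(9,0)]⟩⟩ ⟨false,0,⟨3,[(1,1),(8,0),(0,0),(5,0)]⟩,⟨4,[(9,4),(4,3),(10,0),(12,0),(5,
  2)]⟩⟩,.e ⟨false,1,⟨12,[(3,4),(11,2),(0,3),(19,2),(6,8)]⟩,⟨0,[(9,0),(27,0)]⟩⟩ ⟨false,0,⟨0,[(1,0)]⟩,
  ⟨4,[(9,4),(4,3),(0,0),(11,2),(0,1),(9,0),(5,2)]⟩⟩]⟩)) (.Q [0,0,0,0,0,2,0,0,0,0,-1] (.p false [0,0,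
  1] [] (⟨0,[(29,0)]⟩,⟨0,[(28,0)]⟩) .k 0 (⟨0,[]⟩,⟨0,[]⟩) .k .k) (.R ⟨0,false,false,true,[0,-1,1],[1,
  -1],[1],(⟨0,[(19,0)]⟩,⟨1,[(0,0),(10,0),(2,0),(14,0)]⟩),(⟨0,[(34,0)]⟩,⟨0,[(35,0)]⟩),⟨0,[(0,0)]⟩,.k,
  .k,(.r (-1) ⟨20,[(3,7),(0,4),(5,4),(5,11),(19,9),(1,0),(4,6)]⟩ ⟨14,[(1,11),(3,4),(2,7),(8,3),(7,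
  2),(1,0)]⟩),.k,.k,.k,⟨true,0,⟨2,[(1,1),(1,0),(4,1)]⟩,⟨0,[(41,0)]⟩⟩,⟨false,0,⟨0,[(24,0)]⟩,⟨74,[(1,
  19),(3,4),(1,44),(8,14),(3,10),(0,10),(3,9),(12,1)]⟩⟩,⟨true,0,⟨2,[(1,0),(3,0),(0,0)]⟩,⟨1,[(3,0),
  (32,0),(4,0)]⟩⟩,⟨false,0,⟨0,[(11,0)]⟩,⟨4,[(14,3),(10,0),(12,0),(5,2)]⟩⟩,⟨false,0,⟨0,[]⟩,⟨0,[]⟩⟩,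
  ⟨false,0,⟨0,[]⟩,⟨0,[]⟩⟩,[.o ⟨false,0,⟨0,[(41,0)]⟩,⟨39,[(5,1),(9,3),(22,7),(3,35),(0,0),(0,22)]⟩⟩,
  .a ⟨true,0,⟨1,[(10,0),(0,1),(2,0)]⟩,⟨0,[(42,0)]⟩⟩ ⟨false,1,⟨1,[(43,0),(0,0)]⟩,⟨6,[(5,0),(9,1),(20,
  0),(4,1)]⟩⟩ ⟨true,0,⟨3,[(4,1),(1,0),(3,1),(6,0),(8,0)]⟩,⟨0,[(1,0)]⟩⟩,.a ⟨true,0,⟨0,[(27,0)]⟩,⟨0,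
  [(24,0)]⟩⟩ ⟨true,0,⟨0,[]⟩,⟨6,[(5,0),(9,1),(20,0),(4,1)]⟩⟩ ⟨false,0,⟨3,[(4,1),(1,0),(3,1),(6,0),(8,
  0)]⟩,⟨1,[(1,1),(41,0),(0,0)]⟩⟩,.a ⟨true,0,⟨1,[(27,2),(0,0)]⟩,⟨0,[(4,0)]⟩⟩ ⟨false,1,⟨1,[(43,0),(0,
  0)]⟩,⟨1,[(27,0),(0,0)]⟩⟩ ⟨true,0,⟨0,[(4,0),(36,0)]⟩,⟨0,[(1,0)]⟩⟩]⟩) (.R ⟨1,false,false,true,[0,-1,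
  1],[1,-1],[0,1,-1,-1,0,0,0,1],(⟨0,[(19,0)]⟩,⟨0,[(29,0),(2,0)]⟩),(⟨0,[(34,0)]⟩,⟨0,[(35,0)]⟩),⟨0,
  [(0,0)]⟩,.k,.k,(.r (-1) ⟨20,[(3,7),(0,4),(5,4),(5,11),(19,9),(1,0),(4,6)]⟩ ⟨14,[(1,11),(3,4),(2,
  7),(8,3),(7,2),(1,0)]⟩),.k,.k,.k,⟨true,0,⟨6,[(1,0),(1,1),(10,0),(0,1),(1,0),(24,0)]⟩,⟨0,[(2,0)]⟩⟩,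
  ⟨false,0,⟨0,[(24,0)]⟩,⟨74,[(1,19),(3,4),(1,44),(8,14),(3,10),(0,10),(3,9),(12,1)]⟩⟩,⟨true,0,⟨6,
  [(5,0),(9,1),(20,0),(4,1)]⟩,⟨0,[]⟩⟩,⟨false,0,⟨0,[(11,0)]⟩,⟨4,[(14,3),(10,0),(12,0),(5,2)]⟩⟩,
  ⟨false,0,⟨0,[(42,0)]⟩,⟨3,[(16,1),(3,0),(0,0),(22,0)]⟩⟩,⟨false,0,⟨6,[(5,1),(2,2),(2,0),(5,0),(6,1),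
  (0,0)]⟩,⟨9,[(10,2),(3,6),(1,1),(21,1),(5,3)]⟩⟩,[.o ⟨false,0,⟨0,[(41,0)]⟩,⟨39,[(5,1),(9,3),(22,7),
  (3,35),(0,0),(0,22)]⟩⟩,.a ⟨true,0,⟨1,[(10,0),(0,1),(2,0)]⟩,⟨0,[(42,0)]⟩⟩ ⟨false,1,⟨12,[(3,4),(11,
  2),(0,3),(19,2),(6,8)]⟩,⟨2,[(1,0),(3,0),(0,0)]⟩⟩ ⟨true,0,⟨3,[(4,1),(1,0),(3,1),(6,0),(8,0)]⟩,⟨0,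
  [(1,0)]⟩⟩,.a ⟨true,0,⟨0,[(27,0)]⟩,⟨0,[(24,0)]⟩⟩ ⟨true,0,⟨1,[(3,0),(32,0),(4,0)]⟩,⟨2,[(1,0),(3,0),
  (0,0)]⟩⟩ ⟨false,0,⟨3,[(4,1),(1,0),(3,1),(6,0),(8,0)]⟩,⟨1,[(1,1),(41,0),(0,0)]⟩⟩,.a ⟨true,0,⟨1,
  [(27,2),(0,0)]⟩,⟨0,[(4,0)]⟩⟩ ⟨false,1,⟨12,[(3,4),(11,2),(0,3),(19,2),(6,8)]⟩,⟨0,[(1,0),(4,0)]⟩⟩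
  ⟨true,0,⟨0,[(4,0),(36,0)]⟩,⟨0,[(1,0)]⟩⟩]⟩))) (.S ⟨1,0,[0,0,0,0,0,0,0,1],[0,0,1],[1,1,1],(⟨0,[(28,
  0)]⟩,⟨0,[(27,0)]⟩),⟨0,[(17,0)]⟩,.k,.k,⟨true,0,⟨0,[(7,0),(31,0)]⟩,⟨0,[(0,0)]⟩⟩,⟨false,1,⟨1,[(18,0),
  (0,0),(22,0)]⟩,⟨0,[]⟩⟩,⟨false,0,⟨0,[(7,0)]⟩,⟨2,[(1,0),(11,0),(0,0),(26,0),(0,0)]⟩⟩,⟨true,0,⟨0,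
  [(40,0)]⟩,⟨0,[(39,0)]⟩⟩,[.e ⟨false,0,⟨6,[(3,0),(9,1),(20,0),(4,1)]⟩,⟨1,[(41,0),(0,0)]⟩⟩ ⟨false,0,
  ⟨0,[(0,0)]⟩,⟨3,[(3,1),(10,1),(3,0),(0,0),(21,0)]⟩⟩,.o ⟨false,1,⟨4,[(12,3),(10,0),(12,0),(5,2)]⟩,
  ⟨0,[(24,0)]⟩⟩,.o ⟨false,1,⟨16,[(3,2),(1,6),(8,2),(8,5),(1,3),(10,1),(5,2)]⟩,⟨1,[(1,0),(22,1),(10,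
  0),(4,0)]⟩⟩,.a ⟨true,0,⟨0,[(25,0)]⟩,⟨0,[(22,0)]⟩⟩ ⟨false,0,⟨0,[]⟩,⟨1,[(18,0),(0,0),(22,0)]⟩⟩
  ⟨true,0,⟨0,[(0,0)]⟩,⟨0,[(7,0),(31,0)]⟩⟩]⟩))))) (.R ⟨2,true,false,false,[0,1],[1,1,-1],[1,0,1],(⟨0,
  []⟩,⟨0,[]⟩),(⟨0,[(23,0),(2,0)]⟩,⟨0,[(13,0)]⟩),⟨0,[]⟩,.k,.k,.k,.k,.k,.k,⟨true,0,⟨2,[(0,0),(3,0),(2,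
  0),(3,0)]⟩,⟨0,[(3,0)]⟩⟩,⟨false,0,⟨0,[(18,0)]⟩,⟨49,[(1,24),(12,13),(0,13),(5,24),(10,4),(5,0),(1,
  1)]⟩⟩,⟨false,1,⟨3,[(10,1),(3,0),(0,0),(22,0)]⟩,⟨0,[(36,0)]⟩⟩,⟨true,0,⟨0,[(5,0)]⟩,⟨0,[(0,0)]⟩⟩,
  ⟨true,0,⟨0,[]⟩,⟨0,[(40,0)]⟩⟩,⟨false,0,⟨0,[(2,0)]⟩,⟨5,[(0,0),(7,0),(1,2),(8,3),(12,0),(5,0)]⟩⟩,
  []⟩))))) (.I [1,-1,2,1,0,0,0,-1] (.R ⟨1,true,false,false,[0,0,1],[0,1],[0,1,0,0,0,0,0,1],(⟨0,[(21,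
  0)]⟩,⟨0,[(20,0)]⟩),(⟨0,[(26,0)]⟩,⟨0,[(25,0)]⟩),⟨0,[(10,0)]⟩,.k,.k,.k,.k,(.r (-1) ⟨0,[(4,0),(27,0),
  (1,0)]⟩ ⟨6,[(0,7),(0,2),(4,0),(9,2),(10,1)]⟩),.k,⟨true,0,⟨0,[(4,0),(22,0)]⟩,⟨0,[(0,0)]⟩⟩,⟨false,1,
  ⟨5,[(8,0),(6,3),(13,0),(4,3)]⟩,⟨0,[(18,0)]⟩⟩,⟨true,0,⟨0,[(37,0)]⟩,⟨0,[]⟩⟩,⟨false,1,⟨9,[(1,4),(0,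
  4),(8,2),(0,2),(16,0),(5,4)]⟩,⟨0,[(3,0)]⟩⟩,⟨false,0,⟨0,[(33,0)]⟩,⟨3,[(7,1),(3,0),(0,0),(22,0)]⟩⟩,
  ⟨true,0,⟨0,[(1,0)]⟩,⟨0,[(3,0),(28,0)]⟩⟩,[]⟩) (.R ⟨1,true,false,false,[0,0,1],[0,1],[1,1,0,-1,0,0,
  0,1],(⟨0,[(21,0)]⟩,⟨0,[(20,0)]⟩),(⟨0,[(26,0)]⟩,⟨0,[(25,0)]⟩),⟨0,[(10,0)]⟩,.k,.k,.k,.k,(.r (-1) ⟨4,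
  [(0,3),(5,0),(0,2),(26,0),(0,0)]⟩ ⟨1,[(1,1),(16,2),(0,0)]⟩),.k,⟨true,0,⟨1,[(0,0),(3,0),(27,1)]⟩,
  ⟨0,[(1,0),(16,0),(9,0)]⟩⟩,⟨false,1,⟨5,[(8,0),(6,3),(13,0),(4,3)]⟩,⟨0,[(18,0)]⟩⟩,⟨true,0,⟨0,[(32,
  0)]⟩,⟨0,[(33,0)]⟩⟩,⟨false,1,⟨9,[(1,4),(0,4),(8,2),(0,2),(16,0),(5,4)]⟩,⟨0,[(3,0)]⟩⟩,⟨false,0,⟨0,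
  []⟩,⟨1,[(11,0),(0,0),(22,0)]⟩⟩,⟨true,0,⟨0,[(1,0)]⟩,⟨0,[(3,0),(28,0)]⟩⟩,[]⟩)))) (.R ⟨2,true,false,
  true,[0,1],[0,0,1],[0,0,1,1],(⟨0,[]⟩,⟨0,[]⟩),(⟨0,[(18,0)]⟩,⟨0,[(17,0)]⟩),⟨0,[]⟩,.k,.k,.k,.k,.k,.k,
  ⟨false,1,⟨1,[(0,1),(14,1),(15,0),(0,0)]⟩,⟨0,[(1,0),(22,0)]⟩⟩,⟨true,0,⟨0,[(15,0)]⟩,⟨2,[(0,1),(0,1),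
  (1,0),(10,0)]⟩⟩,⟨false,1,⟨1,[(8,0),(0,0),(22,0)]⟩,⟨0,[]⟩⟩,⟨true,0,⟨0,[(2,0),(26,0)]⟩,⟨0,[(0,0)]⟩⟩,
  ⟨true,0,⟨0,[(30,0)]⟩,⟨0,[(29,0)]⟩⟩,⟨false,0,⟨0,[(2,0)]⟩,⟨0,[(14,0),(17,0)]⟩⟩,[]⟩))

theorem ok2 : chk K t2 r3 = true := by decide +kernel

noncomputable def t4 : Tre :=
  (.Q [0,0,0,0,0,0,-1,0,0,0,-1] (.p false [0,0,1] [] (⟨0,[(17,0)]⟩,⟨0,[(16,0)]⟩) .k 0 (⟨0,[]⟩,⟨0,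
  []⟩) .k .k) (.I [1,1,0,-1,0,0,0,1] (.Q [0,-1,0,1,0,0,-1,-1,0,0,-1] (.p false [0,0,1] [] (⟨0,[(19,
  0)]⟩,⟨0,[(18,0)]⟩) .k 0 (⟨0,[]⟩,⟨0,[]⟩) .k .k) (.R ⟨2,true,false,true,[0,1],[0,0,1],[0,1,1,1],(⟨0,
  []⟩,⟨0,[]⟩),(⟨0,[(20,0)]⟩,⟨0,[(19,0)]⟩),⟨0,[]⟩,.k,.k,.k,.k,.k,.k,⟨false,0,⟨0,[(3,0)]⟩,⟨1,[(1,1),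
  (31,0),(0,0)]⟩⟩,⟨true,0,⟨0,[(17,0)]⟩,⟨0,[(2,0)]⟩⟩,⟨true,0,⟨0,[(36,0)]⟩,⟨0,[]⟩⟩,⟨false,1,⟨3,[(6,1),
  (3,0),(0,0),(3,3),(18,0)]⟩,⟨0,[(0,0)]⟩⟩,⟨false,0,⟨0,[(32,0)]⟩,⟨3,[(6,1),(3,0),(0,0),(22,0)]⟩⟩,
  ⟨true,0,⟨0,[(15,0)]⟩,⟨0,[(4,0)]⟩⟩,[]⟩) (.I [1,-1,-1,-1,1,0,0,1] (.S ⟨1,0,[0,0,1,1,0,0,0,-1],[1,1,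
  -1],[0,1,1,1,0,0,0,-1],(⟨0,[(20,0),(2,0)]⟩,⟨0,[(10,0)]⟩),⟨0,[(20,0)]⟩,.k,.k,⟨true,0,⟨0,[(37,0)]⟩,
  ⟨0,[]⟩⟩,⟨false,1,⟨1,[(11,0),(0,0),(22,0)]⟩,⟨0,[]⟩⟩,⟨false,0,⟨0,[(33,0)]⟩,⟨3,[(7,1),(3,0),(0,0),
  (22,0)]⟩⟩,⟨true,0,⟨0,[(33,0)]⟩,⟨0,[(32,0)]⟩⟩,[.o ⟨false,0,⟨0,[(5,0),(27,0)]⟩,⟨4,[(0,0),(0,1),(5,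
  0),(8,1),(1,0),(10,0),(5,0)]⟩⟩,.a ⟨true,0,⟨0,[(4,0),(10,0),(12,0)]⟩,⟨0,[(1,0)]⟩⟩ ⟨false,0,⟨0,[(4,
  0)]⟩,⟨6,[(0,4),(5,1),(0,0),(3,0),(0,0),(14,1)]⟩⟩ ⟨true,0,⟨0,[(4,0),(23,0)]⟩,⟨0,[(2,0)]⟩⟩,.e
  ⟨false,0,⟨1,[(4,1),(13,0),(0,0)]⟩,⟨0,[(0,0)]⟩⟩ ⟨false,0,⟨0,[(4,0),(23,0)]⟩,⟨6,[(0,4),(5,1),(0,0),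
  (3,0),(0,0),(14,1)]⟩⟩,.o ⟨false,0,⟨0,[(3,0)]⟩,⟨9,[(11,0),(0,0),(5,9),(10,1),(4,4)]⟩⟩]⟩) (.Q [0,-1,
  0,2,0,0,-1,-1,0,0,-1] (.p false [0,0,1] [] (⟨0,[(21,0)]⟩,⟨0,[(20,0)]⟩) .k 0 (⟨0,[]⟩,⟨0,[]⟩) .k
  .k) (.R ⟨1,true,false,false,[0,0,1],[0,1],[0,0,0,0,0,0,0,1],(⟨0,[(22,0)]⟩,⟨0,[(21,0)]⟩),(⟨0,[(27,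
  0)]⟩,⟨0,[(26,0)]⟩),⟨0,[(11,0)]⟩,.k,.k,.k,.k,(.r (-2) ⟨0,[(7,0),(0,0),(26,0)]⟩ ⟨0,[(1,0),(27,0),(4,
  0)]⟩),.k,⟨true,1,⟨1,[(3,1),(31,0),(0,0)]⟩,⟨0,[(1,0),(27,0)]⟩⟩,⟨false,1,⟨5,[(9,0),(6,3),(13,0),(4,
  3)]⟩,⟨0,[(19,0)]⟩⟩,⟨false,1,⟨1,[(12,0),(0,0),(22,0)]⟩,⟨0,[]⟩⟩,⟨true,0,⟨1,[(0,0),(17,0)]⟩,⟨0,[(2,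
  0)]⟩⟩,⟨true,0,⟨0,[(34,0)]⟩,⟨0,[(33,0)]⟩⟩,⟨false,0,⟨0,[(0,0)]⟩,⟨0,[(8,0),(8,0)]⟩⟩,[]⟩) (.I [0,-1,
  -1,0,1,0,0,1] (.S ⟨1,0,[0,0,1,1,0,0,0,-1],[1,1,-1],[],(⟨0,[(22,0),(2,0)]⟩,⟨0,[(12,0)]⟩),⟨0,[(22,
  0)]⟩,.k,.k,⟨true,1,⟨2,[(0,1),(3,0),(4,0),(19,0)]⟩,⟨0,[(2,0)]⟩⟩,⟨false,1,⟨1,[(13,0),(0,0),(22,0)]⟩,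
  ⟨0,[]⟩⟩,⟨false,1,⟨0,[(0,0)]⟩,⟨2,[(2,1),(6,0),(9,0),(0,0),(16,0)]⟩⟩,⟨true,0,⟨0,[(35,0)]⟩,⟨0,[(34,
  0)]⟩⟩,[.o ⟨false,0,⟨0,[(7,0),(27,0)]⟩,⟨4,[(3,2),(5,0),(8,1),(12,0),(5,1)]⟩⟩,.a ⟨true,0,⟨0,[(2,0),
  (14,0),(19,0)]⟩,⟨0,[(3,0)]⟩⟩ ⟨false,1,⟨1,[(36,0),(0,0)]⟩,⟨0,[(39,0)]⟩⟩ ⟨true,0,⟨0,[(2,0),(34,0)]⟩,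
  ⟨0,[(4,0)]⟩⟩,.e ⟨false,1,⟨1,[(13,0),(0,0),(22,0)]⟩,⟨0,[]⟩⟩ ⟨false,0,⟨0,[(2,0),(34,0)]⟩,⟨2,[(0,1),
  (3,0),(4,0),(19,0)]⟩⟩,.o ⟨false,0,⟨0,[(5,0)]⟩,⟨9,[(13,0),(0,0),(5,9),(10,1),(4,4)]⟩⟩]⟩) (.Q [0,0,
  -1,0,1,0,1,0,0,-1,1] (.p true [0,0,1] [1] (⟨0,[(23,0)]⟩,⟨0,[(22,0)]⟩) .k 1 (⟨0,[]⟩,⟨0,[]⟩) .k .k)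
  (.R ⟨1,false,false,true,[1,0,-1],[1,-1],[0,1,0,0,0,0,0,-1],(⟨0,[(23,0)]⟩,⟨0,[(24,0)]⟩),(⟨0,[(28,
  0)]⟩,⟨0,[(29,0)]⟩),⟨0,[(12,0)]⟩,.k,.k,.k,.k,.k,.k,⟨false,0,⟨0,[(7,0)]⟩,⟨1,[(5,1),(31,0),(0,0)]⟩⟩,
  ⟨true,0,⟨0,[(21,0)]⟩,⟨0,[(6,0)]⟩⟩,⟨true,0,⟨0,[(40,0)]⟩,⟨0,[]⟩⟩,⟨true,0,⟨0,[(4,0)]⟩,⟨0,[(8,0),(27,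
  0)]⟩⟩,⟨false,0,⟨0,[(36,0)]⟩,⟨3,[(10,1),(3,0),(0,0),(22,0)]⟩⟩,⟨true,0,⟨0,[(19,0)]⟩,⟨0,[(8,0)]⟩⟩,
  [.o ⟨false,0,⟨0,[(35,0)]⟩,⟨9,[(14,0),(0,0),(16,1),(3,9),(1,4)]⟩⟩,.a ⟨true,0,⟨1,[(1,0),(0,0),(15,
  1),(2,0),(16,0)]⟩,⟨0,[(36,0)]⟩⟩ ⟨true,0,⟨1,[(1,1),(35,0),(0,0)]⟩,⟨0,[(9,0),(21,0)]⟩⟩ ⟨false,1,⟨1,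
  [(1,0),(0,0),(18,0),(15,1),(0,0)]⟩,⟨0,[(6,0),(29,0)]⟩⟩,.o ⟨false,0,⟨0,[(6,0)]⟩,⟨20,[(0,10),(13,5),
  (0,5),(5,9),(10,1),(6,0)]⟩⟩,.o ⟨false,0,⟨0,[(22,0)]⟩,⟨0,[(0,0)]⟩⟩]⟩) (.I [0,0,-2,0,1,-2,0,0,-1]
  (.Q [0,1,2,0,-1,0,1,1,0,0,1] (.p true [0,0,1] [] (⟨0,[(25,0)]⟩,⟨0,[(24,0)]⟩) .k 0 (⟨0,[]⟩,⟨0,[]⟩)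
  .k .k) (.Q [0,0,0,0,0,-1,0,0,0,0,0,1] (.ed false [1,-1,0,0,1] .k) (.Q [0,0,0,0,0,0,0,0,-1,1,0,-1]
  (.p false [0,0,0,0,1] [1] (⟨0,[(20,0)]⟩,⟨0,[(19,0)]⟩) .k 1 (⟨0,[]⟩,⟨0,[]⟩) .k .k) (.Q [-1,1,0,0,0,
  0,0,0,-1,0,0,-1] (.p false [0,0,0,0,1] [] (⟨0,[(21,0)]⟩,⟨0,[(20,0)]⟩) .k 0 (⟨0,[]⟩,⟨0,[]⟩) .k .k)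
  (.S ⟨1,0,[1],[0,0,0,0,1],[1,1],(⟨0,[(22,0)]⟩,⟨0,[(21,0)]⟩),⟨0,[(2,0)]⟩,.k,(.r (-1) ⟨7,[(15,3),(3,
  0),(0,0),(14,1),(6,2)]⟩ ⟨1,[(26,0),(0,0),(13,1)]⟩),⟨true,0,⟨0,[(45,0)]⟩,⟨0,[]⟩⟩,⟨false,1,⟨1,[(19,
  0),(0,0),(22,0)]⟩,⟨0,[]⟩⟩,⟨false,0,⟨0,[(41,0)]⟩,⟨3,[(15,1),(3,0),(0,0),(22,0)]⟩⟩,⟨true,0,⟨0,[(41,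
  0)]⟩,⟨0,[(40,0)]⟩⟩,[.e ⟨true,0,⟨0,[(45,0)]⟩,⟨0,[(36,0)]⟩⟩ ⟨true,0,⟨0,[]⟩,⟨1,[(26,0),(0,0)]⟩⟩,.o
  ⟨false,1,⟨9,[(19,0),(0,10),(16,1),(5,4)]⟩,⟨0,[(0,0)]⟩⟩,.a ⟨true,0,⟨0,[(20,0)]⟩,⟨0,[(1,0)]⟩⟩
  ⟨false,0,⟨0,[]⟩,⟨1,[(19,0),(0,0),(22,0)]⟩⟩ ⟨true,0,⟨0,[]⟩,⟨0,[(45,0)]⟩⟩,.o ⟨false,0,⟨17,[(3,2),(1,
  1),(0,2),(13,17),(6,0),(8,5),(0,3)]⟩,⟨5,[(1,4),(17,0),(17,0),(4,2)]⟩⟩]⟩) (.R ⟨1,false,false,false,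
  [0,0,0,0,1],[0,1],[1,1],(⟨0,[(22,0)]⟩,⟨0,[(21,0)]⟩),(⟨0,[(34,0)]⟩,⟨0,[(33,0)]⟩),⟨0,[(2,0)]⟩,.k,.k,
  (.r (-1) ⟨7,[(15,3),(3,0),(0,0),(14,1),(6,2)]⟩ ⟨1,[(26,0),(0,0),(13,1)]⟩),(.r (-1) ⟨7,[(15,3),(3,
  0),(0,0),(14,1),(6,2)]⟩ ⟨1,[(26,0),(0,0),(13,1)]⟩),(.x 0 ⟨4,[(3,0),(2,0),(13,4),(0,4),(4,1),(0,2),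
  (3,9),(4,1),(0,0)]⟩ ⟨0,[(4,0)]⟩),.k,⟨false,1,⟨0,[(40,0),(1,0)]⟩,⟨0,[(36,0),(4,0)]⟩⟩,⟨true,1,⟨5,
  [(1,4),(17,0),(17,0),(4,2)]⟩,⟨27,[(0,9),(2,10),(1,9),(0,10),(13,17),(6,0),(8,11),(0,1)]⟩⟩,⟨true,0,
  ⟨0,[(45,0)]⟩,⟨0,[]⟩⟩,⟨false,1,⟨5,[(1,4),(17,0),(17,0),(3,5),(1,2)]⟩,⟨0,[(0,0),(39,0)]⟩⟩,⟨false,0,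
  ⟨0,[(41,0)]⟩,⟨3,[(15,1),(3,0),(0,0),(22,0)]⟩⟩,⟨false,1,⟨5,[(1,4),(17,0),(17,0),(3,11),(1,2)]⟩,⟨0,
  [(0,0),(6,0),(5,0)]⟩⟩,[.a ⟨true,0,⟨0,[(41,0)]⟩,⟨7,[(0,1),(0,4),(4,1),(0,1),(7,1),(4,2),(2,1),(7,
  0),(1,0)]⟩⟩ ⟨true,0,⟨0,[(45,0)]⟩,⟨0,[(36,0)]⟩⟩ ⟨false,1,⟨5,[(1,4),(17,0),(17,0),(3,5),(0,2)]⟩,⟨0,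
  [(0,0),(39,0)]⟩⟩,.o ⟨false,1,⟨9,[(19,0),(0,0),(16,1),(3,9),(1,4)]⟩,⟨0,[(40,0)]⟩⟩,.e ⟨false,0,⟨0,
  []⟩,⟨1,[(19,0),(0,0),(22,0)]⟩⟩ ⟨false,1,⟨5,[(1,4),(17,0),(17,0),(3,5),(1,2)]⟩,⟨0,[(0,0),(39,0)]⟩⟩,
  .o ⟨false,0,⟨27,[(0,1),(2,4),(1,1),(0,4),(13,25),(6,2),(8,7),(0,5)]⟩,⟨5,[(1,4),(17,0),(17,0),(4,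
  2)]⟩⟩]⟩)) (.R ⟨1,false,false,false,[0,0,0,0,1],[0,1],[1,1],(⟨0,[(21,0)]⟩,⟨0,[(20,0)]⟩),(⟨0,[(33,
  0)]⟩,⟨0,[(32,0)]⟩),⟨0,[(1,0)]⟩,.k,.k,(.r (-1) ⟨7,[(14,3),(3,0),(0,0),(14,1),(6,2)]⟩ ⟨1,[(25,0),(0,
  0),(13,1)]⟩),(.r (-1) ⟨7,[(14,3),(3,0),(0,0),(14,1),(6,2)]⟩ ⟨1,[(25,0),(0,0),(13,1)]⟩),(.x 0 ⟨4,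
  [(2,0),(2,0),(13,4),(0,4),(4,1),(0,2),(3,9),(4,1),(0,0)]⟩ ⟨0,[(3,0)]⟩),.k,⟨false,1,⟨0,[(39,0),(1,
  0)]⟩,⟨0,[(35,0),(4,0)]⟩⟩,⟨true,1,⟨13,[(2,1),(0,12),(0,1),(0,1),(12,0),(1,12),(9,25),(4,3),(0,2)]⟩,
  ⟨2,[(0,0),(1,0),(1,0),(0,0),(13,1),(15,1)]⟩⟩,⟨true,0,⟨0,[(44,0)]⟩,⟨0,[]⟩⟩,⟨false,1,⟨13,[(2,1),(0,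
  12),(0,1),(2,1),(10,0),(1,12),(9,25),(4,17),(0,2),(3,11)]⟩,⟨1,[(0,0),(4,0),(0,0),(12,0),(2,0),(19,
  0)]⟩⟩,⟨false,0,⟨0,[(40,0)]⟩,⟨3,[(14,1),(3,0),(0,0),(22,0)]⟩⟩,⟨false,1,⟨13,[(2,1),(0,12),(0,1),(2,
  1),(10,0),(1,12),(9,25),(4,17),(0,2),(3,25)]⟩,⟨0,[(0,0),(4,0),(0,0),(15,0),(19,0)]⟩⟩,[.a ⟨true,0,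
  ⟨0,[(40,0)]⟩,⟨1,[(5,0),(0,0),(15,1),(2,0),(16,0)]⟩⟩ ⟨true,0,⟨0,[(44,0)]⟩,⟨0,[(35,0)]⟩⟩ ⟨false,1,
  ⟨13,[(2,1),(0,12),(0,1),(2,1),(10,0),(1,12),(9,25),(4,3),(0,2),(3,11)]⟩,⟨1,[(0,0),(4,0),(0,0),(12,
  0),(2,0),(19,0)]⟩⟩,.o ⟨false,1,⟨9,[(18,0),(0,0),(16,1),(3,9),(1,4)]⟩,⟨0,[(39,0)]⟩⟩,.o ⟨false,0,⟨0,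
  [(0,0)]⟩,⟨0,[(18,0)]⟩⟩,.o ⟨false,0,⟨5,[(0,0),(1,0),(2,0),(13,4),(6,0),(8,1),(0,0)]⟩,⟨13,[(2,1),(0,
  12),(0,1),(0,1),(12,0),(1,12),(9,25),(4,3),(0,2)]⟩⟩]⟩)) (.S ⟨1,0,[-1,1],[1,0,0,0,-1],[-1],(⟨0,
  [(19,0)]⟩,⟨0,[(20,0)]⟩),⟨0,[(0,0),(14,0),(0,0)]⟩,.k,(.r (-1) ⟨13,[(13,6),(3,0),(0,0),(14,1),(6,5),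
  (2,2)]⟩ ⟨1,[(24,0),(0,0),(13,1)]⟩),⟨false,1,⟨1,[(17,0),(0,0),(22,0)]⟩,⟨0,[]⟩⟩,⟨true,0,⟨0,[(43,
  0)]⟩,⟨0,[]⟩⟩,⟨true,0,⟨0,[(39,0)]⟩,⟨0,[(38,0)]⟩⟩,⟨false,0,⟨0,[(39,0)]⟩,⟨3,[(13,1),(3,0),(0,0),(22,
  0)]⟩⟩,[.o ⟨false,0,⟨51,[(0,36),(0,19),(0,36),(0,19),(0,19),(12,14),(11,36),(3,5),(1,3)]⟩,⟨9,[(17,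
  0),(0,10),(16,1),(5,4)]⟩⟩,.e ⟨false,1,⟨0,[(0,0),(1,0),(15,0),(10,0),(4,0)]⟩,⟨0,[(43,0)]⟩⟩ ⟨false,
  1,⟨9,[(17,3),(0,3),(21,4),(0,0),(1,1)]⟩,⟨0,[]⟩⟩,.a ⟨true,0,⟨0,[(0,0),(1,0),(0,0),(20,0),(4,0)]⟩,
  ⟨0,[(18,0)]⟩⟩ ⟨false,1,⟨4,[(17,1),(0,1),(22,2),(1,0)]⟩,⟨0,[]⟩⟩ ⟨true,0,⟨0,[(43,0)]⟩,⟨0,[]⟩⟩,.o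
  ⟨false,0,⟨25,[(0,16),(0,9),(0,16),(0,9),(0,9),(12,8),(11,16),(4,19),(0,1)]⟩,⟨9,[(17,0),(0,10),(16,
  1),(4,4)]⟩⟩]⟩)) (.R ⟨1,false,false,true,[1,-1],[1,-1,-1],[1,1,-1,-2],(⟨0,[(30,0)]⟩,⟨0,[(31,0)]⟩),
  (⟨0,[(14,0)]⟩,⟨0,[(26,0),(1,0)]⟩),⟨0,[(14,0),(0,0)]⟩,.k,.k,(.r (-1) ⟨0,[(0,0),(3,0)]⟩ ⟨0,[(23,0),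
  (0,0),(13,1)]⟩),.k,.k,.k,⟨false,1,⟨1,[(7,1),(31,0),(0,0)]⟩,⟨0,[(9,0)]⟩⟩,⟨true,0,⟨0,[(8,0)]⟩,⟨0,
  [(23,0)]⟩⟩,⟨true,0,⟨0,[(37,0)]⟩,⟨0,[(38,0)]⟩⟩,⟨false,0,⟨0,[(10,0)]⟩,⟨0,[(21,0),(18,0)]⟩⟩,⟨false,0,
  ⟨0,[]⟩,⟨1,[(16,0),(0,0),(22,0)]⟩⟩,⟨false,0,⟨13,[(0,3),(4,7),(3,1),(3,4),(20,0),(3,3),(1,1)]⟩,⟨0,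
  [(6,0),(33,0)]⟩⟩,[.a ⟨true,(-1),⟨1,[(0,0),(1,0),(0,1),(0,0),(15,0)]⟩,⟨0,[(21,0),(16,0),(1,0)]⟩⟩
  ⟨false,1,⟨2,[(0,1),(3,1),(7,0),(19,1)]⟩,⟨0,[(33,0),(4,1)]⟩⟩ ⟨true,0,⟨0,[(0,0),(2,0),(3,0)]⟩,⟨0,
  [(21,0),(11,1),(4,0)]⟩⟩,.o ⟨false,0,⟨10,[(0,4),(1,4),(0,4),(0,1),(5,2),(1,2),(21,0),(2,0)]⟩,⟨9,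
  [(16,0),(0,0),(3,9),(12,1),(3,9),(1,4)]⟩⟩,.o ⟨false,0,⟨1,[(23,0),(0,0)]⟩,⟨9,[(16,0),(0,0),(16,1),
  (4,4)]⟩⟩,.e ⟨false,1,⟨0,[(0,0),(3,0)]⟩,⟨1,[(23,0),(0,0),(8,1),(4,3)]⟩⟩ ⟨false,1,⟨0,[(0,0),(36,
  0)]⟩,⟨0,[(21,0),(11,1),(4,0)]⟩⟩]⟩)) (.I [0,-1,1,1,0,0,0,1] (.S ⟨1,0,[0,0,0,0,0,0,0,-1],[1,0,-1],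
  [0,0,1],(⟨0,[(25,0)]⟩,⟨0,[(26,0)]⟩),⟨0,[(14,0)]⟩,.k,.k,⟨true,0,⟨3,[(0,1),(6,1),(15,0),(0,0)]⟩,⟨0,
  [(3,0),(35,0)]⟩⟩,⟨false,1,⟨1,[(16,0),(0,0),(22,0)]⟩,⟨0,[]⟩⟩,⟨false,0,⟨0,[(0,0)]⟩,⟨4,[(3,1),(5,2),
  (2,3),(19,0),(6,2)]⟩⟩,⟨true,0,⟨0,[(38,0)]⟩,⟨0,[(37,0)]⟩⟩,[.o ⟨false,0,⟨0,[(10,0)]⟩,⟨9,[(16,0),(0,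
  0),(3,9),(12,1),(5,4)]⟩⟩,.a ⟨true,0,⟨0,[(3,0),(16,0),(19,0)]⟩,⟨0,[(21,0)]⟩⟩ ⟨true,0,⟨0,[(33,0)]⟩,
  ⟨0,[(42,0)]⟩⟩ ⟨false,1,⟨0,[(3,0),(35,0),(0,0)]⟩,⟨0,[(11,0)]⟩⟩,.o ⟨false,0,⟨0,[(8,0)]⟩,⟨9,[(16,0),
  (0,0),(5,9),(10,1),(4,4)]⟩⟩,.e ⟨false,1,⟨1,[(16,0),(0,0),(22,0)]⟩,⟨0,[]⟩⟩ ⟨false,1,⟨0,[(3,0),(35,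
  0),(0,0)]⟩,⟨3,[(0,1),(6,1),(15,0),(0,0)]⟩⟩]⟩) (.I [1,0,2,2,-1] (.Q [0,0,-1,0,0,0,0,0,1,-1,0,1]
  (.p true [0,0,0,0,1] [1] (⟨0,[(20,0)]⟩,⟨0,[(19,0)]⟩) .k 1 (⟨0,[]⟩,⟨0,[]⟩) .k .k) (.Q [1,0,0,0,-1,
  0,0,0,1,0,0,1] (.p true [0,0,0,0,1] [] (⟨0,[(21,0)]⟩,⟨0,[(20,0)]⟩) .k 0 (⟨0,[]⟩,⟨0,[]⟩) .k .k)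
  (.R ⟨2,true,false,false,[0,1],[0,0,0,0,1],[1,1,1],(⟨0,[]⟩,⟨0,[]⟩),(⟨0,[(22,0)]⟩,⟨0,[(21,0)]⟩),⟨0,
  []⟩,.k,.k,.k,(.r 0 ⟨9,[(2,4),(16,2),(0,2),(22,1),(1,3)]⟩ ⟨7,[(15,3),(3,0),(0,0),(14,1),(6,2)]⟩),
  .k,.k,⟨false,0,⟨0,[(45,0)]⟩,⟨1,[(42,0),(0,0)]⟩⟩,⟨true,(-1),⟨67,[(0,54),(1,14),(2,4),(0,4),(0,4),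
  (7,9),(4,12),(16,0),(6,27)]⟩,⟨0,[(19,0)]⟩⟩,⟨true,0,⟨0,[(40,0)]⟩,⟨0,[(41,0)]⟩⟩,⟨false,0,⟨3,[(0,2),
  (14,1),(4,0),(22,0)]⟩,⟨0,[(19,0),(21,0)]⟩⟩,⟨false,0,⟨0,[]⟩,⟨1,[(19,0),(0,0),(22,0)]⟩⟩,⟨true,(-1),
  ⟨0,[(0,0)]⟩,⟨0,[(19,0),(25,0)]⟩⟩,[]⟩) (.R ⟨1,false,false,false,[0,0,1],[0,0,0,0,1],[0,0,0,0,0,0,0,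
  1],(⟨0,[(29,0)]⟩,⟨0,[(28,0)]⟩),(⟨0,[(22,0)]⟩,⟨0,[(21,0)]⟩),⟨0,[(18,0)]⟩,.k,.k,.k,.k,(.r (-1) ⟨3,
  [(5,4),(1,4),(0,0),(27,5),(0,0),(3,4),(0,7)]⟩ ⟨3,[(2,0),(9,1),(12,1),(0,1),(16,0)]⟩),.k,⟨false,1,
  ⟨1,[(14,1),(27,0),(0,0)]⟩,⟨2,[(3,0),(2,0),(5,0),(30,0)]⟩⟩,⟨true,(-1),⟨0,[(1,0),(3,0)]⟩,⟨0,[(0,0),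
  (25,0)]⟩⟩,⟨false,1,⟨1,[(0,0),(19,0),(22,0)]⟩,⟨0,[]⟩⟩,⟨true,(-1),⟨2,[(1,2),(1,0),(1,2),(0,0),(5,0),
  (30,0)]⟩,⟨0,[(0,0),(23,0)]⟩⟩,⟨true,0,⟨0,[(41,0)]⟩,⟨0,[(40,0)]⟩⟩,⟨true,(-1),⟨0,[(1,0),(3,0),(6,
  0)]⟩,⟨0,[(0,0),(8,0)]⟩⟩,[.o ⟨false,0,⟨24,[(1,11),(0,1),(2,1),(0,1),(0,1),(12,12),(15,3),(0,2)]⟩,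
  ⟨0,[(0,0)]⟩⟩,.o ⟨false,0,⟨0,[(1,0),(34,0)]⟩,⟨0,[(0,0),(44,0)]⟩⟩,.o ⟨false,1,⟨9,[(0,0),(19,0),(5,
  9),(10,1),(4,4)]⟩,⟨0,[(11,0)]⟩⟩,.a ⟨true,0,⟨0,[(26,0)]⟩,⟨0,[(23,0)]⟩⟩ ⟨true,1,⟨1,[(14,1),(27,0),
  (0,0)]⟩,⟨0,[(6,0)]⟩⟩ ⟨false,0,⟨1,[(1,1),(3,0),(17,0),(19,0)]⟩,⟨0,[(0,0),(25,0)]⟩⟩]⟩)) (.Q [1,-1,0,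
  -2,1,0,1,1,1,-1,1,1] (.p true [0,0,1] [1,0,0,0,-1] (⟨0,[(28,0)]⟩,⟨0,[(27,0)]⟩) .k 2 (⟨0,[(20,0)]⟩,
  ⟨0,[(21,0)]⟩) .k (.r (-1) ⟨1,[(13,1),(4,0),(0,0),(22,0)]⟩ ⟨1,[(2,0),(4,0),(27,1),(5,0)]⟩)) (.Q
  [-1,1,0,0,0,0,0,0,-1,1,0,-1] (.p false [0,0,0,0,1] [1] (⟨0,[(22,0)]⟩,⟨0,[(21,0)]⟩) .k 1 (⟨0,[]⟩,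
  ⟨0,[]⟩) .k .k) (.Q [0,0,0,0,0,0,-1,0,-1,1,-1,-1] (.p false [0,0,1] [1,0,0,0,-1] (⟨0,[(30,0)]⟩,⟨0,
  [(29,0)]⟩) .k 2 (⟨0,[(22,0)]⟩,⟨0,[(23,0)]⟩) .k (.r (-1) ⟨1,[(15,1),(4,0),(0,0),(22,0)]⟩ ⟨1,[(4,0),
  (4,0),(27,1),(5,0)]⟩)) (.Q [-1,-1,0,0,1,0,0,0,-1,0,0,-1] (.p false [0,0,0,0,1] [] (⟨0,[(24,0)]⟩,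
  ⟨0,[(23,0)]⟩) .k 0 (⟨0,[]⟩,⟨0,[]⟩) .k .k) (.Q [1,0,0,0,0,0,0,0,1,-1,0,1] (.p true [0,0,0,0,1] [1]
  (⟨0,[(25,0)]⟩,⟨0,[(24,0)]⟩) .k 1 (⟨0,[]⟩,⟨0,[]⟩) .k .k) (.R ⟨1,false,false,false,[0,0,1],[1,0,0,0,
  -1],[1,0,0,-1,0,0,0,1],(⟨0,[(33,0)]⟩,⟨0,[(32,0)]⟩),(⟨0,[(25,0)]⟩,⟨0,[(26,0)]⟩),⟨0,[(22,0)]⟩,.k,.k,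
  .k,.k,(.r (-1) ⟨1,[(14,1),(31,0),(0,0)]⟩ ⟨8,[(6,1),(9,4),(12,3),(0,3),(16,1),(0,0)]⟩),.k,⟨false,1,
  ⟨1,[(14,1),(31,0),(0,0)]⟩,⟨0,[(12,0),(27,0),(5,0)]⟩⟩,⟨true,0,⟨0,[(2,0)]⟩,⟨1,[(0,0),(3,0),(7,0),
  (17,0),(14,0)]⟩⟩,⟨false,1,⟨3,[(19,1),(3,0),(0,0),(22,0)]⟩,⟨0,[(45,0)]⟩⟩,⟨true,0,⟨1,[(2,1),(4,0),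
  (4,0),(34,0)]⟩,⟨0,[(0,0),(27,0)]⟩⟩,⟨true,0,⟨0,[]⟩,⟨0,[(49,0)]⟩⟩,⟨true,0,⟨0,[(2,0),(13,0)]⟩,⟨0,[(0,
  0),(12,0)]⟩⟩,[.o ⟨false,1,⟨2,[(1,0),(21,1),(25,0)]⟩,⟨0,[(0,0)]⟩⟩,.o ⟨false,1,⟨0,[(1,0)]⟩,⟨7,[(0,
  2),(11,1),(1,1),(9,4),(14,1),(1,0)]⟩⟩,.o ⟨false,1,⟨9,[(23,0),(0,0),(5,9),(10,1),(4,4)]⟩,⟨0,[(15,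
  0)]⟩⟩,.a ⟨true,0,⟨0,[(30,0)]⟩,⟨0,[(27,0)]⟩⟩ ⟨true,1,⟨1,[(14,1),(31,0),(0,0)]⟩,⟨0,[(12,0)]⟩⟩
  ⟨false,1,⟨1,[(2,1),(43,0),(0,0)]⟩,⟨0,[(0,0),(29,0)]⟩⟩]⟩) (.Q [0,0,0,0,0,-1,0,0,0,0,0,1] (.ed
  false [1,-1,0,0,1] .k) (.R ⟨1,false,false,true,[0,0,0,0,1],[1,0,-1],[1,1],(⟨0,[(27,0)]⟩,⟨0,[(26,
  0)]⟩),(⟨0,[(33,0)]⟩,⟨0,[(34,0)]⟩),⟨0,[(0,0)]⟩,.k,.k,(.r (-1) ⟨7,[(20,3),(3,0),(0,0),(14,1),(6,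
  2)]⟩ ⟨9,[(7,4),(16,2),(0,2),(22,1),(1,3)]⟩),.k,(.r (-1) ⟨1,[(15,1),(31,0),(0,0)]⟩ ⟨8,[(7,1),(9,4),
  (12,3),(0,3),(16,1),(0,0)]⟩),.k,⟨false,1,⟨1,[(19,1),(27,0),(0,0)]⟩,⟨2,[(8,0),(2,0),(5,0),(30,
  0)]⟩⟩,⟨true,0,⟨0,[(3,0)]⟩,⟨0,[(5,0),(7,0),(32,0)]⟩⟩,⟨true,0,⟨0,[(50,0)]⟩,⟨0,[]⟩⟩,⟨false,0,⟨0,[(1,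
  0),(16,0)]⟩,⟨0,[(5,0),(40,1)]⟩⟩,⟨false,0,⟨0,[(46,0)]⟩,⟨3,[(20,1),(3,0),(0,0),(22,0)]⟩⟩,⟨false,0,
  ⟨0,[(3,0),(13,0)]⟩,⟨0,[(5,0),(40,0)]⟩⟩,[.a ⟨true,(-1),⟨1,[(8,0),(1,0),(2,0),(14,0)]⟩,⟨0,[(29,0),
  (18,0)]⟩⟩ ⟨true,0,⟨0,[(50,0)]⟩,⟨0,[(41,0)]⟩⟩ ⟨false,0,⟨1,[(3,1),(4,0),(4,0),(33,0)]⟩,⟨0,[(5,0),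
  (40,1)]⟩⟩,.o ⟨false,0,⟨0,[(18,0)]⟩,⟨9,[(24,0),(0,0),(3,9),(12,1),(5,4)]⟩⟩,.e ⟨false,0,⟨0,[]⟩,⟨1,
  [(24,0),(0,0),(22,0)]⟩⟩ ⟨false,0,⟨0,[(1,0),(16,0)]⟩,⟨0,[(5,0),(40,1)]⟩⟩,.o ⟨false,0,⟨4,[(5,0),(1,
  0),(2,0),(0,0),(13,3),(16,0),(6,0)]⟩,⟨5,[(1,4),(22,0),(17,0),(4,2)]⟩⟩]⟩) (.R ⟨0,false,false,false,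
  [0,0,0,0,1],[0,1],[1,1],(⟨0,[(27,0)]⟩,⟨0,[(26,0)]⟩),(⟨0,[(39,0)]⟩,⟨0,[(38,0)]⟩),⟨0,[(0,0)]⟩,.k,.k,
  (.r (-1) ⟨7,[(20,3),(3,0),(0,0),(14,1),(6,2)]⟩ ⟨9,[(7,4),(16,2),(0,2),(22,1),(1,3)]⟩),(.r (-1) ⟨7,
  [(20,3),(3,0),(0,0),(14,1),(6,2)]⟩ ⟨9,[(7,4),(16,2),(0,2),(22,1),(1,3)]⟩),.k,.k,⟨false,1,⟨5,[(8,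
  0),(6,0),(4,1),(19,2),(6,3)]⟩,⟨1,[(7,0),(40,0)]⟩⟩,⟨true,1,⟨5,[(1,4),(22,0),(17,0),(4,2)]⟩,⟨2,[(5,
  1),(1,0),(2,1),(2,1),(11,0)]⟩⟩,⟨true,0,⟨0,[(50,0)]⟩,⟨0,[]⟩⟩,⟨false,1,⟨0,[(2,0),(43,0)]⟩,⟨2,[(5,0),
  (2,0),(1,0),(14,1)]⟩⟩,⟨false,0,⟨0,[]⟩,⟨0,[]⟩⟩,⟨false,0,⟨0,[]⟩,⟨0,[]⟩⟩,[.a ⟨true,0,⟨0,[(46,0)]⟩,⟨8,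
  [(1,4),(3,2),(2,2),(0,1),(0,0),(16,1),(0,1),(9,3)]⟩⟩ ⟨true,0,⟨0,[(50,0)]⟩,⟨0,[(41,0)]⟩⟩ ⟨false,1,
  ⟨5,[(1,4),(22,0),(17,0),(3,5),(0,2)]⟩,⟨3,[(5,1),(2,0),(1,1),(2,0),(11,1),(21,0)]⟩⟩,.o ⟨false,1,⟨9,
  [(24,0),(0,0),(16,1),(3,9),(1,4)]⟩,⟨0,[(45,0)]⟩⟩,.e ⟨false,0,⟨0,[]⟩,⟨1,[(24,0),(0,0),(22,0)]⟩⟩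
  ⟨false,1,⟨0,[(2,0),(43,0)]⟩,⟨3,[(5,1),(2,0),(1,1),(2,0),(11,1),(21,0)]⟩⟩,.o ⟨false,0,⟨4,[(5,0),(1,
  0),(2,0),(0,0),(13,3),(16,0),(6,0)]⟩,⟨5,[(1,4),(22,0),(17,0),(4,2)]⟩⟩]⟩))) (.Q [0,-1,-1,1,2,0,1,1,
  -1,0,1,-1] (.p true [0,0,1] [0,0,0,0,1] (⟨0,[(32,0)]⟩,⟨0,[(31,0)]⟩) .k 2 (⟨0,[(25,0)]⟩,⟨0,[(24,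
  0)]⟩) .k (.r (-1) ⟨1,[(17,1),(4,0),(0,0),(22,0)]⟩ ⟨2,[(6,0),(2,0),(5,0),(30,0)]⟩)) (.Q [-1,-1,0,1,
  1,0,0,0,-1,0,0,-1] (.p false [0,0,0,0,1] [] (⟨0,[(26,0)]⟩,⟨0,[(25,0)]⟩) .k 0 (⟨0,[]⟩,⟨0,[]⟩) .k
  .k) (.K ⟨0,[0,0,0,0,1],(-1),(-1),(⟨0,[(27,0)]⟩,⟨0,[(26,0)]⟩),.k,(.r (-1) ⟨14,[(1,0),(18,7),(4,0),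
  (4,0),(9,3),(6,4)]⟩ ⟨12,[(0,0),(0,1),(5,4),(17,2),(4,1),(18,4),(0,0)]⟩),(.r 0 ⟨4,[(1,0),(5,1),(17,
  0),(4,0),(0,0),(0,0)]⟩ ⟨26,[(1,0),(18,13),(4,0),(4,0),(9,3),(6,10),(2,5)]⟩),.k,.k,[⟨2,[(0,1),(0,
  0),(6,0),(2,0),(0,0),(18,0)]⟩,⟨0,[(2,0),(38,0)]⟩,⟨0,[(24,0),(25,0)]⟩,⟨0,[(2,0)]⟩]⟩) (.Q [0,0,0,0,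
  1,0,1,0,-1,0,1,-1] (.p true [0,0,1] [0,0,0,0,1] (⟨0,[(34,0)]⟩,⟨0,[(33,0)]⟩) .k 2 (⟨0,[(27,0)]⟩,⟨0,
  [(26,0)]⟩) .k (.r (-1) ⟨4,[(1,1),(3,0),(13,1),(1,0),(3,0),(6,0),(16,0),(0,0)]⟩ ⟨2,[(8,0),(2,0),(5,
  0),(30,0)]⟩)) (.K ⟨0,[0,0,0,0,1],(-1),(-1),(⟨0,[(28,0)]⟩,⟨0,[(27,0)]⟩),.k,(.r (-1) ⟨14,[(2,0),(18,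
  7),(4,0),(4,0),(9,3),(6,4)]⟩ ⟨188,[(2,34),(5,71),(9,9),(3,4),(3,34),(4,24),(11,0),(6,79),(0,9)]⟩),
  (.r 0 ⟨4,[(2,0),(5,1),(17,0),(4,0),(0,0),(0,0)]⟩ ⟨26,[(2,0),(18,13),(4,0),(4,0),(9,3),(6,10),(2,
  5)]⟩),.k,.k,[⟨0,[(0,0)]⟩,⟨0,[(3,0),(38,0)]⟩,⟨0,[(25,0),(25,0)]⟩,⟨0,[(3,0)]⟩]⟩) (.Q [0,0,0,0,0,-1,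
  0,0,0,0,0,1] (.ed false [1,-1,0,0,1] .k) (.S ⟨1,0,[1],[0,0,0,0,1],[1,1],(⟨0,[(29,0)]⟩,⟨0,[(28,
  0)]⟩),⟨0,[(0,0)]⟩,.k,(.r (-1) ⟨14,[(3,0),(18,7),(4,0),(4,0),(9,3),(6,4)]⟩ ⟨188,[(3,34),(5,71),(9,
  9),(3,4),(3,34),(4,24),(11,0),(6,79),(0,9)]⟩),⟨true,0,⟨0,[(52,0)]⟩,⟨0,[]⟩⟩,⟨false,1,⟨8,[(3,1),(18,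
  0),(4,1),(4,1),(0,0),(0,0),(15,3)]⟩,⟨0,[]⟩⟩,⟨false,0,⟨0,[(48,0)]⟩,⟨17,[(3,1),(18,9),(4,1),(4,1),
  (0,0),(0,0),(15,3)]⟩⟩,⟨true,0,⟨0,[(48,0)]⟩,⟨0,[(47,0)]⟩⟩,[.o ⟨false,0,⟨4,[(4,3),(22,0),(16,0),(5,
  1)]⟩,⟨8,[(6,4),(19,3),(17,0),(5,2),(1,0)]⟩⟩,.a ⟨true,0,⟨0,[(4,0),(45,0)]⟩,⟨0,[(6,0)]⟩⟩ ⟨true,0,⟨0,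
  []⟩,⟨1,[(33,0),(0,0)]⟩⟩ ⟨false,1,⟨1,[(49,0),(0,0)]⟩,⟨0,[(52,0)]⟩⟩,.o ⟨false,0,⟨21,[(1,6),(2,4),(2,
  6),(7,1),(3,4),(7,2),(16,2),(3,6),(0,0)]⟩,⟨0,[(26,0)]⟩⟩,.e ⟨false,1,⟨14,[(3,3),(18,1),(4,3),(4,3),
  (9,0),(6,4)]⟩,⟨0,[(43,0)]⟩⟩ ⟨false,1,⟨1,[(49,0),(0,0)]⟩,⟨1,[(33,0),(0,0)]⟩⟩]⟩) (.S ⟨1,0,[-1,1],[1,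
  0,0,0,-1],[-1],(⟨0,[(28,0)]⟩,⟨0,[(29,0)]⟩),⟨0,[(0,0),(23,0),(0,0)]⟩,.k,(.r (-1) ⟨26,[(3,0),(18,
  13),(4,0),(4,0),(9,3),(6,10),(2,5)]⟩ ⟨4,[(3,0),(5,1),(17,0),(4,0),(0,0),(0,0)]⟩),⟨false,1,⟨8,[(3,
  1),(18,0),(4,1),(4,1),(0,0),(0,0),(15,3)]⟩,⟨0,[]⟩⟩,⟨true,0,⟨0,[(52,0)]⟩,⟨0,[]⟩⟩,⟨true,0,⟨0,[(48,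
  0)]⟩,⟨0,[(47,0)]⟩⟩,⟨false,0,⟨0,[(48,0)]⟩,⟨17,[(3,1),(18,9),(4,1),(4,1),(0,0),(0,0),(15,3)]⟩⟩,[.a
  ⟨true,0,⟨0,[(6,0)]⟩,⟨0,[(4,0),(45,0)]⟩⟩ ⟨false,1,⟨37,[(3,7),(18,3),(4,7),(4,7),(16,14),(0,2),(1,
  9)]⟩,⟨0,[]⟩⟩ ⟨true,0,⟨0,[(52,0)]⟩,⟨0,[(43,0)]⟩⟩,.o ⟨false,1,⟨8,[(6,4),(19,3),(17,0),(5,2),(1,0)]⟩,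
  ⟨4,[(4,3),(22,0),(16,0),(5,1)]⟩⟩,.o ⟨false,1,⟨0,[(26,0)]⟩,⟨21,[(1,6),(2,4),(2,6),(7,1),(3,4),(7,
  2),(16,2),(3,6),(0,0)]⟩⟩,.e ⟨false,1,⟨0,[(43,0),(5,0)]⟩,⟨1,[(33,0),(0,0)]⟩⟩ ⟨false,1,⟨37,[(3,7),
  (18,3),(4,7),(4,7),(16,14),(0,2),(1,9)]⟩,⟨0,[(43,0)]⟩⟩]⟩)))) (.Q [0,0,0,0,0,-1,0,0,0,0,0,1] (.ed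
  false [1,-1,0,0,1] .k) (.S ⟨1,0,[1],[0,0,0,0,1],[1,1],(⟨0,[(27,0)]⟩,⟨0,[(26,0)]⟩),⟨0,[(0,0)]⟩,.k,
  (.r (-1) ⟨7,[(20,3),(3,0),(0,0),(14,1),(6,2)]⟩ ⟨9,[(7,4),(16,2),(0,2),(22,1),(1,3)]⟩),⟨true,0,⟨0,
  [(50,0)]⟩,⟨0,[]⟩⟩,⟨false,1,⟨1,[(24,0),(0,0),(22,0)]⟩,⟨0,[]⟩⟩,⟨false,0,⟨0,[(46,0)]⟩,⟨3,[(20,1),(3,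
  0),(0,0),(22,0)]⟩⟩,⟨true,0,⟨0,[(46,0)]⟩,⟨0,[(45,0)]⟩⟩,[.o ⟨false,0,⟨4,[(2,3),(22,0),(16,0),(5,
  1)]⟩,⟨8,[(4,4),(19,3),(17,0),(5,2),(1,0)]⟩⟩,.a ⟨true,0,⟨0,[(2,0),(45,0)]⟩,⟨0,[(4,0)]⟩⟩ ⟨true,0,⟨0,
  []⟩,⟨1,[(31,0),(0,0)]⟩⟩ ⟨false,1,⟨1,[(47,0),(0,0)]⟩,⟨0,[(50,0)]⟩⟩,.o ⟨false,0,⟨11,[(1,1),(0,5),(2,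
  1),(19,1),(16,1),(3,5),(0,0),(0,2)]⟩,⟨0,[(24,0)]⟩⟩,.e ⟨false,1,⟨1,[(24,0),(0,0),(21,0)]⟩,⟨0,[(41,
  0)]⟩⟩ ⟨false,1,⟨1,[(47,0),(0,0)]⟩,⟨1,[(31,0),(0,0)]⟩⟩]⟩) (.S ⟨1,0,[-1,1],[1,0,0,0,-1],[-1],(⟨0,
  [(26,0)]⟩,⟨0,[(27,0)]⟩),⟨0,[(0,0),(21,0),(0,0)]⟩,.k,(.r (-1) ⟨13,[(20,6),(3,0),(0,0),(14,1),(6,5),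
  (2,2)]⟩ ⟨1,[(7,0),(16,0),(0,0)]⟩),⟨false,1,⟨1,[(24,0),(0,0),(22,0)]⟩,⟨0,[]⟩⟩,⟨true,0,⟨0,[(50,0)]⟩,
  ⟨0,[]⟩⟩,⟨true,0,⟨0,[(46,0)]⟩,⟨0,[(45,0)]⟩⟩,⟨false,0,⟨0,[(46,0)]⟩,⟨3,[(20,1),(3,0),(0,0),(22,0)]⟩⟩,
  [.a ⟨true,0,⟨0,[(4,0)]⟩,⟨0,[(2,0),(45,0)]⟩⟩ ⟨false,1,⟨9,[(24,3),(0,3),(21,4),(0,0),(1,1)]⟩,⟨0,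
  []⟩⟩ ⟨true,0,⟨0,[(50,0)]⟩,⟨0,[(41,0)]⟩⟩,.o ⟨false,1,⟨8,[(4,4),(19,3),(17,0),(5,2),(1,0)]⟩,⟨4,[(2,
  3),(22,0),(16,0),(5,1)]⟩⟩,.o ⟨false,1,⟨0,[(24,0)]⟩,⟨11,[(1,1),(0,5),(2,1),(19,1),(16,1),(3,5),(0,
  0),(0,2)]⟩⟩,.e ⟨false,1,⟨0,[(41,0),(5,0)]⟩,⟨1,[(31,0),(0,0)]⟩⟩ ⟨false,1,⟨9,[(24,3),(0,3),(21,4),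
  (0,0),(1,1)]⟩,⟨0,[(41,0)]⟩⟩]⟩)))) (.K ⟨0,[1,0,0,0,-1],0,0,(⟨0,[(23,0)]⟩,⟨0,[(24,0)]⟩),.k,(.r (-1)
  ⟨13,[(17,6),(3,0),(0,0),(14,1),(6,5),(2,2)]⟩ ⟨1,[(4,0),(16,0),(0,0)]⟩),(.r 0 ⟨9,[(4,4),(16,2),(0,
  2),(22,1),(1,3)]⟩ ⟨7,[(17,3),(3,0),(0,0),(14,1),(6,2)]⟩),.k,.k,[⟨0,[(0,0)]⟩,⟨0,[(3,0)]⟩,⟨9,[(0,2),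
  (6,2),(2,0),(1,0),(9,6),(14,3),(1,1)]⟩,⟨0,[(1,0)]⟩]⟩)) (.Q [0,0,0,0,-1,0,-1,0,1,0,-1,1] (.p false
  [0,0,1] [0,0,0,0,1] (⟨0,[(30,0)]⟩,⟨0,[(29,0)]⟩) .k 2 (⟨0,[(23,0)]⟩,⟨0,[(22,0)]⟩) .k (.r (-1) ⟨1,
  [(15,1),(4,0),(0,0),(22,0)]⟩ ⟨2,[(4,0),(2,0),(5,0),(30,0)]⟩)) (.R ⟨1,false,false,false,[0,0,1],[0,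
  0,0,0,1],[0,0,0,0,0,0,0,1],(⟨0,[(31,0)]⟩,⟨0,[(30,0)]⟩),(⟨0,[(24,0)]⟩,⟨0,[(23,0)]⟩),⟨0,[(20,0)]⟩,
  .k,.k,.k,.k,(.r (-1) ⟨3,[(0,4),(2,4),(5,4),(0,0),(27,5),(0,0),(3,4),(0,7)]⟩ ⟨3,[(4,0),(9,1),(12,
  1),(0,1),(16,0)]⟩),.k,⟨false,1,⟨1,[(16,1),(27,0),(0,0)]⟩,⟨2,[(5,0),(2,0),(5,0),(30,0)]⟩⟩,⟨true,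
  (-1),⟨0,[(0,0)]⟩,⟨0,[(21,0),(6,0)]⟩⟩,⟨false,1,⟨1,[(21,0),(0,0),(22,0)]⟩,⟨0,[]⟩⟩,⟨true,(-1),⟨2,[(0,
  2),(4,0),(2,0),(5,0),(30,0)]⟩,⟨0,[(11,0),(9,0),(21,0)]⟩⟩,⟨true,0,⟨0,[(43,0)]⟩,⟨0,[(42,0)]⟩⟩,⟨true,
  (-1),⟨0,[(0,0),(13,0)]⟩,⟨0,[(9,0),(11,0),(21,0)]⟩⟩,[.o ⟨false,0,⟨28,[(0,3),(0,11),(0,1),(7,3),(11,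
  10),(3,1),(10,3),(1,2)]⟩,⟨4,[(3,4),(34,0),(0,0),(4,2),(2,0)]⟩⟩,.o ⟨false,0,⟨0,[(1,0)]⟩,⟨0,[(21,0),
  (25,0)]⟩⟩,.o ⟨false,1,⟨9,[(21,0),(0,0),(5,9),(10,1),(4,4)]⟩,⟨0,[(13,0)]⟩⟩,.a ⟨true,0,⟨0,[(28,0)]⟩,
  ⟨0,[(25,0)]⟩⟩ ⟨true,1,⟨1,[(16,1),(27,0),(0,0)]⟩,⟨0,[(8,0)]⟩⟩ ⟨false,0,⟨1,[(0,1),(43,0),(0,0)]⟩,⟨1,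
  [(10,0),(0,0),(9,1),(6,0),(16,0)]⟩⟩]⟩) (.K ⟨0,[0,0,0,0,1],(-1),(-1),(⟨0,[(24,0)]⟩,⟨0,[(23,0)]⟩),
  .k,(.r (-1) ⟨7,[(17,3),(3,0),(0,0),(14,1),(6,2)]⟩ ⟨9,[(4,4),(16,2),(0,2),(22,1),(1,3)]⟩),(.r 0 ⟨1,
  [(4,0),(16,0),(0,0)]⟩ ⟨13,[(17,6),(3,0),(0,0),(14,1),(6,5),(2,2)]⟩),.k,.k,[⟨0,[(0,0)]⟩,⟨5,[(1,5),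
  (3,0),(1,3),(2,1),(0,0),(14,1),(1,0),(4,1),(1,1)]⟩,⟨0,[(21,0),(25,0)]⟩,⟨1,[(1,1),(3,0),(1,0),(2,
  0),(14,0),(0,1)]⟩]⟩))) (.Q [0,0,0,0,0,-1,0,0,0,0,0,1] (.ed false [1,-1,0,0,1] .k) (.S ⟨1,0,[1],[0,
  0,0,0,1],[1,1],(⟨0,[(23,0)]⟩,⟨0,[(22,0)]⟩),⟨0,[(0,0)]⟩,.k,(.r (-1) ⟨7,[(16,3),(3,0),(0,0),(14,1),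
  (6,2)]⟩ ⟨9,[(3,4),(16,2),(0,2),(22,1),(1,3)]⟩),⟨true,0,⟨0,[(46,0)]⟩,⟨0,[]⟩⟩,⟨false,1,⟨1,[(20,0),
  (0,0),(22,0)]⟩,⟨0,[]⟩⟩,⟨false,0,⟨0,[(42,0)]⟩,⟨3,[(16,1),(3,0),(0,0),(22,0)]⟩⟩,⟨true,0,⟨0,[(42,
  0)]⟩,⟨0,[(41,0)]⟩⟩,[.e ⟨true,0,⟨0,[(46,0)]⟩,⟨0,[(37,0)]⟩⟩ ⟨true,0,⟨0,[]⟩,⟨1,[(27,0),(0,0)]⟩⟩,.o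
  ⟨false,1,⟨9,[(20,0),(0,10),(16,1),(5,4)]⟩,⟨5,[(1,4),(6,4),(11,0),(17,0),(5,1)]⟩⟩,.a ⟨true,0,⟨0,
  [(21,0)]⟩,⟨0,[(1,0),(6,0),(35,0)]⟩⟩ ⟨false,0,⟨0,[]⟩,⟨1,[(20,0),(0,0),(22,0)]⟩⟩ ⟨true,0,⟨0,[]⟩,⟨0,
  [(46,0)]⟩⟩,.o ⟨false,0,⟨12,[(3,2),(2,1),(0,1),(0,1),(7,0),(4,12),(15,2),(0,2)]⟩,⟨5,[(1,4),(6,4),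
  (11,0),(17,0),(4,2),(0,4)]⟩⟩]⟩) (.S ⟨1,0,[-1,1],[1,0,0,0,-1],[-1],(⟨0,[(22,0)]⟩,⟨0,[(23,0)]⟩),⟨0,
  [(0,0),(17,0),(0,0)]⟩,.k,(.r (-1) ⟨13,[(16,6),(3,0),(0,0),(14,1),(6,5),(2,2)]⟩ ⟨1,[(3,0),(16,0),
  (0,0)]⟩),⟨false,1,⟨1,[(20,0),(0,0),(22,0)]⟩,⟨0,[]⟩⟩,⟨true,0,⟨0,[(46,0)]⟩,⟨0,[]⟩⟩,⟨true,0,⟨0,[(42,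
  0)]⟩,⟨0,[(41,0)]⟩⟩,⟨false,0,⟨0,[(42,0)]⟩,⟨3,[(16,1),(3,0),(0,0),(22,0)]⟩⟩,[.o ⟨false,0,⟨5,[(1,4),
  (6,4),(11,0),(17,0),(5,1)]⟩,⟨9,[(20,0),(0,10),(16,1),(5,4)]⟩⟩,.e ⟨false,1,⟨0,[(37,0),(5,0)]⟩,⟨0,
  [(46,0)]⟩⟩ ⟨false,1,⟨9,[(20,3),(0,3),(21,4),(0,0),(1,1)]⟩,⟨0,[]⟩⟩,.a ⟨true,0,⟨0,[(1,0),(6,0),(35,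
  0)]⟩,⟨0,[(21,0)]⟩⟩ ⟨false,1,⟨4,[(20,1),(0,1),(22,2),(1,0)]⟩,⟨0,[]⟩⟩ ⟨true,0,⟨0,[(46,0)]⟩,⟨0,[]⟩⟩,
  .o ⟨false,0,⟨4,[(1,3),(0,0),(5,3),(28,3),(0,0),(5,1)]⟩,⟨9,[(20,0),(0,10),(16,1),(4,4)]⟩⟩]⟩))))
  (.R ⟨1,false,false,true,[1,-1],[1,-1,-1],[1,1,-1,-2],(⟨0,[(31,0)]⟩,⟨0,[(32,0)]⟩),(⟨0,[(15,0)]⟩,⟨0,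
  [(27,0),(1,0)]⟩),⟨0,[(15,0),(0,0)]⟩,.k,.k,(.r (-1) ⟨0,[(0,0)]⟩ ⟨0,[(24,0),(0,0),(13,1)]⟩),.k,.k,
  .k,⟨false,1,⟨1,[(8,1),(31,0),(0,0)]⟩,⟨0,[(10,0)]⟩⟩,⟨true,0,⟨0,[(9,0)]⟩,⟨0,[(24,0)]⟩⟩,⟨true,0,⟨0,
  [(38,0)]⟩,⟨0,[(39,0)]⟩⟩,⟨false,0,⟨0,[(11,0)]⟩,⟨0,[(22,0),(18,0)]⟩⟩,⟨false,0,⟨0,[]⟩,⟨1,[(17,0),(0,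
  0),(22,0)]⟩⟩,⟨false,0,⟨0,[(11,0),(27,0)]⟩,⟨0,[(7,0),(33,0)]⟩⟩,[.a ⟨true,(-1),⟨0,[(1,0),(1,0)]⟩,⟨0,
  [(22,0),(16,0),(1,0)]⟩⟩ ⟨false,1,⟨2,[(0,1),(12,0),(19,1)]⟩,⟨0,[(34,0),(4,1)]⟩⟩ ⟨true,0,⟨0,[(1,0),
  (7,0)]⟩,⟨0,[(22,0),(11,1),(4,0)]⟩⟩,.o ⟨false,0,⟨10,[(0,1),(0,4),(1,4),(7,5),(1,0),(20,3),(0,0)]⟩,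
  ⟨9,[(17,0),(0,0),(3,9),(12,1),(3,9),(1,4)]⟩⟩,.o ⟨false,0,⟨1,[(24,0),(0,0)]⟩,⟨9,[(17,0),(0,0),(16,
  1),(4,4)]⟩⟩,.e ⟨false,1,⟨0,[(0,0)]⟩,⟨1,[(24,0),(0,0),(8,1),(4,3)]⟩⟩ ⟨false,1,⟨1,[(0,0),(10,1),(28,
  0)]⟩,⟨0,[(22,0),(11,1),(4,0)]⟩⟩]⟩))))))))) (.R ⟨2,true,false,true,[0,1],[0,0,1],[1,1,1],(⟨0,[]⟩,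
  ⟨0,[]⟩),(⟨0,[(19,0)]⟩,⟨0,[(18,0)]⟩),⟨0,[]⟩,.k,.k,.k,.k,.k,.k,⟨false,0,⟨0,[(0,0),(29,0)]⟩,⟨1,[(4,
  1),(27,0),(0,0)]⟩⟩,⟨true,0,⟨0,[(16,0)]⟩,⟨0,[(1,0)]⟩⟩,⟨true,0,⟨0,[(30,0)]⟩,⟨0,[(31,0)]⟩⟩,⟨false,1,
  ⟨3,[(5,1),(3,0),(0,0),(3,3),(18,0)]⟩,⟨0,[(0,0),(0,0)]⟩⟩,⟨false,0,⟨0,[]⟩,⟨1,[(9,0),(0,0),(22,0)]⟩⟩,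
  ⟨true,0,⟨0,[(14,0)]⟩,⟨0,[(3,0)]⟩⟩,[]⟩)) (.Q [0,-1,0,0,1,0,1,1,0,-1,1] (.p true [0,0,1] [1] (⟨0,
  [(18,0)]⟩,⟨0,[(17,0)]⟩) .k 1 (⟨0,[]⟩,⟨0,[]⟩) .k .k) (.S ⟨1,0,[0,1,0,0,0,0,0,-1],[1,0,-1],[0,0,0,0,
  0,0,0,-1],(⟨0,[(18,0)]⟩,⟨0,[(19,0)]⟩),⟨0,[(7,0)]⟩,.k,.k,⟨false,1,⟨1,[(9,0),(0,0),(22,0)]⟩,⟨0,[]⟩⟩,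
  ⟨true,0,⟨0,[(35,0)]⟩,⟨0,[]⟩⟩,⟨true,0,⟨0,[(31,0)]⟩,⟨0,[(30,0)]⟩⟩,⟨false,0,⟨0,[(31,0)]⟩,⟨3,[(5,1),
  (3,0),(0,0),(22,0)]⟩⟩,[.o ⟨false,0,⟨0,[(15,0)]⟩,⟨0,[(0,0)]⟩⟩,.o ⟨false,0,⟨0,[(3,0)]⟩,⟨20,[(0,10),
  (8,5),(0,5),(3,9),(12,1),(7,0)]⟩⟩,.a ⟨true,0,⟨1,[(6,0),(6,0),(2,0)]⟩,⟨0,[(1,0)]⟩⟩ ⟨true,0,⟨0,[(1,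
  0),(1,0)]⟩,⟨0,[(4,0)]⟩⟩ ⟨false,0,⟨0,[(1,0),(1,0)]⟩,⟨1,[(0,0),(5,0),(7,0),(18,0)]⟩⟩,.o ⟨false,0,⟨0,
  [(17,0)]⟩,⟨4,[(1,3),(14,0),(10,0),(4,2)]⟩⟩]⟩) (.Q [0,0,0,2,0,0,0,0,0,-1] (.pp true [-1,1]) (.R ⟨2,
  true,false,true,[0,1],[1,0,-1],[1,1,1],(⟨0,[]⟩,⟨0,[]⟩),(⟨0,[(19,0)]⟩,⟨0,[(20,0)]⟩),⟨0,[]⟩,.k,.k,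
  .k,.k,.k,.k,⟨true,0,⟨0,[(5,0),(21,0)]⟩,⟨0,[(2,0),(1,0)]⟩⟩,⟨false,0,⟨1,[(7,0),(6,0),(2,0)]⟩,⟨4,[(2,
  3),(14,0),(10,0),(4,2)]⟩⟩,⟨true,0,⟨0,[(31,0)]⟩,⟨0,[(32,0)]⟩⟩,⟨false,0,⟨5,[(1,3),(1,1),(2,3),(0,0),
  (6,0),(2,0)]⟩,⟨1,[(0,0),(1,3),(11,3),(0,1),(11,3),(0,0)]⟩⟩,⟨false,0,⟨0,[]⟩,⟨1,[(10,0),(0,0),(22,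
  0)]⟩⟩,⟨true,(-1),⟨0,[(1,0)]⟩,⟨9,[(10,0),(0,0),(3,9),(12,1),(5,4)]⟩⟩,[]⟩) (.K ⟨0,[0,1,1],0,0,(⟨0,
  [(20,0),(1,0)]⟩,⟨0,[(8,0)]⟩),.k,.k,(.r 0 ⟨1,[(5,1),(11,0),(0,0),(8,1),(4,3)]⟩ ⟨0,[(0,0),(0,0),(0,
  3),(11,2),(12,0),(0,0)]⟩),.k,.k,[⟨1,[(17,0),(0,0)]⟩,⟨0,[(2,0)]⟩,⟨6,[(0,1),(0,2),(4,0),(9,3),(11,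
  0),(2,0)]⟩,⟨0,[(15,0),(16,0)]⟩]⟩))))

theorem ok4 : chk K t4 l4 = true := by decide +kernel

noncomputable def t5 : Tre :=
  (.Q [0,0,0,-1,0,0,0,0,0,1] (.pp false [-1,1]) (.R ⟨1,false,false,false,[1,0,-1],[1,-1],[0,1,0,0,0,
  0,0,-1],(⟨0,[(19,0)]⟩,⟨0,[(20,0)]⟩),(⟨0,[(24,0)]⟩,⟨0,[(25,0)]⟩),⟨0,[(8,0)]⟩,.k,.k,.k,.k,.k,.k,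
  ⟨false,0,⟨1,[(2,0),(23,0),(5,1)]⟩,⟨1,[(3,1),(29,0),(0,0)]⟩⟩,⟨true,0,⟨0,[(17,0)]⟩,⟨0,[(3,0),(0,0),
  (27,0)]⟩⟩,⟨true,0,⟨0,[(36,0)]⟩,⟨0,[]⟩⟩,⟨false,1,⟨4,[(1,0),(1,1),(2,0),(8,2),(1,0),(16,2)]⟩,⟨0,[(4,
  0),(27,0)]⟩⟩,⟨false,0,⟨0,[(32,0)]⟩,⟨3,[(6,1),(3,0),(0,0),(22,0)]⟩⟩,⟨false,1,⟨0,[(15,0),(18,0)]⟩,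
  ⟨0,[(4,0)]⟩⟩,[.a ⟨true,0,⟨0,[(0,0)]⟩,⟨0,[(32,0)]⟩⟩ ⟨true,0,⟨1,[(2,0),(23,0)]⟩,⟨0,[(3,0),(23,0),(4,
  0)]⟩⟩ ⟨false,1,⟨8,[(1,6),(4,0),(3,0),(0,0),(5,1),(8,3)]⟩,⟨0,[(3,0),(0,0),(27,1)]⟩⟩,.e ⟨false,1,⟨3,
  [(2,1),(7,0),(0,0),(21,2)]⟩,⟨0,[(3,0),(28,0)]⟩⟩ ⟨false,1,⟨0,[(1,0)]⟩,⟨0,[(4,0),(0,0),(26,0)]⟩⟩,.o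
  ⟨false,0,⟨0,[(3,0),(0,0),(27,0)]⟩,⟨9,[(10,0),(0,0),(5,9),(10,1),(4,4)]⟩⟩,.e ⟨false,1,⟨3,[(2,1),(7,
  0),(0,0),(21,2)]⟩,⟨0,[(3,0),(23,0),(4,0)]⟩⟩ ⟨false,1,⟨0,[(1,0)]⟩,⟨0,[(18,0),(13,0)]⟩⟩]⟩) (.R ⟨1,
  false,false,true,[0,0,1],[1,-1],[1,0,0,-1,0,0,0,1],(⟨0,[(20,0)]⟩,⟨0,[(19,0)]⟩),(⟨0,[(24,0)]⟩,⟨0,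
  [(25,0)]⟩),⟨0,[(9,0)]⟩,.k,.k,.k,.k,.k,.k,⟨true,0,⟨0,[(3,0),(23,0),(4,0)]⟩,⟨1,[(2,0),(23,0)]⟩⟩,
  ⟨false,0,⟨1,[(7,0),(6,0),(2,0)]⟩,⟨12,[(0,7),(0,7),(15,4),(8,3),(1,0),(4,2)]⟩⟩,⟨false,1,⟨3,[(6,1),
  (3,0),(0,0),(22,0)]⟩,⟨0,[(32,0)]⟩⟩,⟨false,0,⟨0,[(2,0),(0,0),(10,0)]⟩,⟨0,[(0,0),(14,0),(18,0)]⟩⟩,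
  ⟨true,0,⟨0,[]⟩,⟨0,[(36,0)]⟩⟩,⟨false,0,⟨3,[(2,1),(4,0),(6,2),(2,0)]⟩,⟨12,[(0,7),(0,3),(1,3),(11,8),
  (11,3),(0,0),(5,6)]⟩⟩,[.o ⟨false,0,⟨0,[(31,0)]⟩,⟨9,[(10,0),(0,0),(16,1),(3,9),(1,4)]⟩⟩,.o ⟨false,
  1,⟨1,[(6,0),(3,0),(0,0),(24,0)]⟩,⟨0,[(0,0)]⟩⟩,.o ⟨false,1,⟨9,[(10,0),(0,0),(5,9),(10,1),(4,4)]⟩,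
  ⟨2,[(0,0),(2,0),(0,0),(2,0)]⟩⟩,.a ⟨true,0,⟨0,[(17,0)]⟩,⟨0,[(14,0)]⟩⟩ ⟨false,1,⟨1,[(3,1),(29,0),(0,
  0)]⟩,⟨3,[(2,1),(14,0),(0,0),(13,3)]⟩⟩ ⟨true,0,⟨0,[(14,0),(16,0)]⟩,⟨0,[(0,0),(16,0)]⟩⟩]⟩))

theorem ok5 : chk K t5 l6 = true := by decide +kernel

noncomputable def t6 : Tre :=
  (.R ⟨1,false,false,false,[0,0,1],[1,-1],[1,0,0,-1,0,0,0,1],(⟨0,[(21,0)]⟩,⟨0,[(20,0)]⟩),(⟨0,[(25,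
  0)]⟩,⟨0,[(26,0)]⟩),⟨0,[(10,0)]⟩,.k,.k,.k,.k,.k,.k,⟨false,0,⟨0,[(4,0),(28,0)]⟩,⟨3,[(3,1),(7,0),(0,
  0),(21,2)]⟩⟩,⟨true,(-1),⟨0,[(0,0),(1,0),(15,0)]⟩,⟨9,[(11,0),(0,0),(5,9),(10,1),(4,4)]⟩⟩,⟨false,1,
  ⟨3,[(7,1),(3,0),(0,0),(22,0)]⟩,⟨0,[(33,0)]⟩⟩,⟨false,0,⟨9,[(0,8),(1,0),(0,4),(3,0),(0,0),(9,1),(9,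
  0)]⟩,⟨9,[(11,0),(0,0),(3,9),(12,1),(3,9),(1,4)]⟩⟩,⟨true,0,⟨0,[]⟩,⟨0,[(37,0)]⟩⟩,⟨false,0,⟨1,[(0,0),
  (2,0),(11,0),(12,0),(4,0)]⟩,⟨9,[(11,0),(0,0),(3,9),(12,1),(5,4)]⟩⟩,[.a ⟨true,0,⟨1,[(0,0),(14,0),
  (2,1),(13,0)]⟩,⟨0,[(33,0)]⟩⟩ ⟨true,0,⟨0,[(4,0)]⟩,⟨3,[(3,1),(14,0),(0,0),(13,3)]⟩⟩ ⟨false,0,⟨1,[(0,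
  0),(14,0),(16,0)]⟩,⟨9,[(11,0),(0,0),(5,9),(10,1),(3,9),(0,4)]⟩⟩,.e ⟨false,1,⟨1,[(4,1),(29,0),(0,
  0)]⟩,⟨1,[(3,0),(23,0),(5,1)]⟩⟩ ⟨false,0,⟨0,[(0,0)]⟩,⟨19,[(11,6),(0,6),(5,19),(8,9),(1,3),(3,19),
  (0,4)]⟩⟩,.o ⟨false,1,⟨9,[(11,0),(0,0),(5,9),(10,1),(4,4)]⟩,⟨49,[(0,10),(1,10),(5,13),(20,4),(5,0),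
  (1,1)]⟩⟩,.e ⟨false,1,⟨1,[(4,1),(29,0),(0,0)]⟩,⟨3,[(3,1),(14,0),(0,0),(13,3)]⟩⟩ ⟨false,0,⟨0,[(0,
  0)]⟩,⟨4,[(11,2),(0,2),(5,4),(10,0),(3,4)]⟩⟩]⟩)

theorem ok6 : chk K t6 l8 = true := by decide +kernel

noncomputable def t7 : Tre :=
  (.I [0,0,2,1,-1] (.I [1,1,1,2,-1] (.Q [0,-1,0,1,1,0,1,1,0,-1,1] (.p true [0,0,1] [1] (⟨0,[(24,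
  0)]⟩,⟨0,[(23,0)]⟩) .k 1 (⟨0,[]⟩,⟨0,[]⟩) .k .k) (.Q [0,0,1,1,-1,0,-1,0,0,0,-1] (.p false [0,0,1]
  [] (⟨0,[(25,0)]⟩,⟨0,[(24,0)]⟩) .k 0 (⟨0,[]⟩,⟨0,[]⟩) .k .k) (.Q [0,0,1,0,-1,0,-1,0,0,1,-1] (.p
  false [0,0,1] [1] (⟨0,[(26,0)]⟩,⟨0,[(25,0)]⟩) .k 1 (⟨0,[]⟩,⟨0,[]⟩) .k .k) (.S ⟨1,0,[0,0,1,1,0,0,0,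
  1],[0,1,1],[0,1,1,1,0,0,0,1],(⟨0,[(27,0),(1,0)]⟩,⟨0,[(15,0)]⟩),⟨0,[(27,0)]⟩,.k,.k,⟨true,0,⟨0,[(43,
  0)]⟩,⟨0,[]⟩⟩,⟨false,1,⟨1,[(17,0),(0,0),(22,0)]⟩,⟨0,[]⟩⟩,⟨false,0,⟨0,[(39,0)]⟩,⟨3,[(13,1),(3,0),(0,
  0),(22,0)]⟩⟩,⟨true,0,⟨0,[(39,0)]⟩,⟨0,[(38,0)]⟩⟩,[.o ⟨false,1,⟨4,[(2,3),(3,0),(5,0),(4,0),(0,0),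
  (14,0)]⟩,⟨0,[(7,0)]⟩⟩,.o ⟨false,1,⟨0,[(2,0)]⟩,⟨1,[(7,0),(15,0),(14,0)]⟩⟩,.a ⟨true,1,⟨0,[(24,0),
  (15,0)]⟩,⟨0,[(0,0)]⟩⟩ ⟨true,(-1),⟨0,[(1,0),(20,0)]⟩,⟨0,[(7,0),(16,0),(15,0)]⟩⟩ ⟨false,0,⟨0,[(0,0),
  (1,0)]⟩,⟨0,[(7,0),(16,0),(15,0)]⟩⟩,.o ⟨false,1,⟨22,[(2,1),(3,5),(2,0),(3,3),(10,14),(10,2),(4,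
  10)]⟩,⟨26,[(1,5),(5,2),(2,2),(3,7),(6,1),(13,1),(4,1)]⟩⟩]⟩) (.R ⟨1,false,false,true,[0,0,1],[1,
  -1],[1,0,0,-1,0,0,0,1],(⟨0,[(27,0)]⟩,⟨0,[(26,0)]⟩),(⟨0,[(31,0)]⟩,⟨0,[(32,0)]⟩),⟨0,[(16,0)]⟩,.k,.k,
  .k,.k,.k,.k,⟨true,0,⟨4,[(2,0),(1,2),(5,3),(10,0),(19,1)]⟩,⟨1,[(9,0),(23,0)]⟩⟩,⟨false,0,⟨1,[(14,0),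
  (6,0),(2,0)]⟩,⟨0,[(0,0)]⟩⟩,⟨false,1,⟨3,[(13,1),(3,0),(0,0),(22,0)]⟩,⟨0,[(39,0)]⟩⟩,⟨false,0,⟨0,[(7,
  0),(13,0),(2,0)]⟩,⟨0,[(2,0)]⟩⟩,⟨true,0,⟨0,[]⟩,⟨0,[(43,0)]⟩⟩,⟨false,0,⟨3,[(9,1),(4,0),(6,2),(2,
  0)]⟩,⟨1,[(0,0),(1,0),(7,0),(23,0)]⟩⟩,[.o ⟨false,0,⟨0,[(38,0)]⟩,⟨23,[(2,3),(0,9),(19,3),(11,3),(4,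
  4),(0,16)]⟩⟩,.o ⟨false,1,⟨1,[(13,0),(3,0),(0,0),(24,0)]⟩,⟨0,[(0,0),(0,0)]⟩⟩,.o ⟨false,1,⟨14,[(0,
  6),(1,1),(3,5),(2,0),(3,3),(3,1),(0,1)]⟩,⟨26,[(1,5),(5,2),(2,2),(3,7),(6,1),(13,1),(4,1)]⟩⟩,.a
  ⟨true,0,⟨0,[(24,0)]⟩,⟨0,[(21,0)]⟩⟩ ⟨false,1,⟨1,[(10,1),(29,0),(0,0)]⟩,⟨3,[(3,1),(5,1),(7,0),(0,0),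
  (22,0)]⟩⟩ ⟨true,0,⟨0,[(21,0),(16,0)]⟩,⟨0,[(0,0),(3,0)]⟩⟩]⟩)) (.Q [0,0,0,0,0,-2,0,0,0,1,-1] (.p
  false [0,0,1] [1] (⟨0,[(26,0)]⟩,⟨0,[(25,0)]⟩) .k 1 (⟨0,[]⟩,⟨0,[]⟩) .k .k) (.Q [0,0,1,0,-1,0,-1,0,
  0,1,-1] (.p false [0,0,1] [1] (⟨0,[(27,0)]⟩,⟨0,[(26,0)]⟩) .k 1 (⟨0,[]⟩,⟨0,[]⟩) .k .k) (.S ⟨1,0,[0,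
  1,-1,-1,0,0,0,-1],[1,-1,-1],[1,0,-1,-2,0,0,0,-1],(⟨0,[(16,0)]⟩,⟨0,[(28,0),(1,0)]⟩),⟨0,[(1,0)]⟩,.k,
  (.r (-2) ⟨6,[(2,4),(5,0),(1,0),(3,3),(9,3),(16,4)]⟩ ⟨2,[(0,1),(2,1),(0,1),(0,0),(5,0)]⟩),⟨false,1,
  ⟨3,[(14,1),(3,0),(0,0),(22,0)]⟩,⟨0,[(40,0)]⟩⟩,⟨true,0,⟨0,[(44,0)]⟩,⟨0,[]⟩⟩,⟨true,0,⟨0,[]⟩,⟨0,[(44,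
  0)]⟩⟩,⟨false,0,⟨0,[(40,0)]⟩,⟨3,[(14,1),(3,0),(0,0),(22,0)]⟩⟩,[.o ⟨false,0,⟨1,[(8,0),(15,0),(14,
  0)]⟩,⟨0,[(3,0)]⟩⟩,.o ⟨false,0,⟨0,[(8,0)]⟩,⟨4,[(3,3),(3,0),(5,0),(4,0),(0,0),(14,0)]⟩⟩,.a ⟨true,
  (-1),⟨0,[(0,0)]⟩,⟨3,[(2,3),(1,1),(36,0),(0,0)]⟩⟩ ⟨true,1,⟨0,[(2,0),(5,0)]⟩,⟨3,[(3,0),(0,4),(6,2),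
  (10,0)]⟩⟩ ⟨false,1,⟨6,[(2,2),(5,1),(1,1),(3,0),(9,0),(16,2)]⟩,⟨0,[(0,0),(2,0)]⟩⟩,.o ⟨false,(-1),
  ⟨11,[(0,9),(4,6),(2,1),(2,1),(2,0),(21,1),(2,0)]⟩,⟨48,[(2,28),(0,18),(3,9),(2,4),(13,8),(11,3),(4,
  41)]⟩⟩]⟩) (.Q [0,0,0,2,0,0,1,1,0,0,1] (.p true [0,0,1] [] (⟨0,[(28,0)]⟩,⟨0,[(27,0)]⟩) .k 0 (⟨0,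
  []⟩,⟨0,[]⟩) .k .k) (.S ⟨1,4,[],[1,-1,-1],[1,0,-1,-2,0,0,0,-1],(⟨0,[(17,0)]⟩,⟨0,[(29,0),(1,0)]⟩),
  ⟨0,[(2,0)]⟩,.k,(.r (-2) ⟨6,[(3,4),(5,0),(1,0),(3,3),(9,3),(16,4)]⟩ ⟨6,[(0,3),(5,4),(3,3),(1,2),
  (30,1)]⟩),⟨false,1,⟨3,[(15,1),(3,0),(0,0),(22,0)]⟩,⟨0,[(41,0)]⟩⟩,⟨true,0,⟨10,[(0,4),(7,0),(7,0),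
  (7,5),(1,0),(8,1)]⟩,⟨0,[(9,0)]⟩⟩,⟨true,0,⟨0,[]⟩,⟨0,[(45,0)]⟩⟩,⟨false,0,⟨0,[(0,0)]⟩,⟨0,[(13,0),(1,
  0)]⟩⟩,[.o ⟨false,0,⟨0,[(45,0)]⟩,⟨9,[(19,0),(0,0),(16,1),(5,4)]⟩⟩,.fa ⟨false,2,⟨1,[(3,1),(5,1),(32,
  0),(0,0)]⟩,⟨1,[(0,0),(4,0),(4,0),(1,0)]⟩⟩ ⟨true,1,⟨11,[(0,3),(2,7),(7,1),(7,0),(0,0),(21,2)]⟩,⟨1,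
  [(6,0),(2,0),(0,0),(1,0),(23,0)]⟩⟩,.o ⟨false,0,⟨0,[(27,0)]⟩,⟨0,[(1,0)]⟩⟩,.o ⟨false,(-1),⟨1,[(6,0),
  (2,0),(0,0),(1,0),(23,0)]⟩,⟨48,[(3,28),(0,18),(3,9),(2,4),(13,8),(11,3),(4,41)]⟩⟩]⟩) (.I [0,0,2,2,
  -1,0,0,-1] (.Q [0,1,0,0,0,0,1,1,0,-1,1] (.p true [0,0,1] [1] (⟨0,[(30,0)]⟩,⟨0,[(29,0)]⟩) .k 1 (⟨0,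
  []⟩,⟨0,[]⟩) .k .k) (.S ⟨1,0,[0,1,0,0,0,0,0,1],[0,0,1],[1,0,0,-1,0,0,0,1],(⟨0,[(31,0)]⟩,⟨0,[(30,
  0)]⟩),⟨0,[(20,0)]⟩,.k,.k,⟨false,1,⟨3,[(17,1),(3,0),(0,0),(22,0)]⟩,⟨0,[(43,0)]⟩⟩,⟨true,0,⟨0,[(47,
  0)]⟩,⟨0,[]⟩⟩,⟨true,0,⟨0,[]⟩,⟨0,[(47,0)]⟩⟩,⟨false,0,⟨0,[(43,0)]⟩,⟨3,[(17,1),(3,0),(0,0),(22,0)]⟩⟩,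
  [.o ⟨false,0,⟨0,[(0,0)]⟩,⟨0,[(27,0),(17,0)]⟩⟩,.o ⟨false,1,⟨12,[(5,1),(0,5),(3,1),(5,3),(0,2),(8,
  2),(12,0)]⟩,⟨0,[(15,0)]⟩⟩,.o ⟨false,1,⟨19,[(5,9),(4,9),(10,0),(0,0),(16,1),(5,4)]⟩,⟨33,[(2,3),(9,
  11),(1,3),(3,2),(6,11),(13,2),(5,5)]⟩⟩,.a ⟨true,0,⟨0,[(28,0)]⟩,⟨0,[(25,0)]⟩⟩ ⟨false,1,⟨1,[(14,1),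
  (29,0),(0,0)]⟩,⟨7,[(1,3),(11,1),(7,2),(0,2),(21,0)]⟩⟩ ⟨true,0,⟨0,[(0,0),(24,0)]⟩,⟨3,[(13,1),(14,
  0),(0,0)]⟩⟩]⟩) (.R ⟨1,false,false,true,[1,0,-1],[0,0,1],[0,1,0,0,0,0,0,-1],(⟨0,[(30,0)]⟩,⟨0,[(31,
  0)]⟩),(⟨0,[(31,0)]⟩,⟨0,[(30,0)]⟩),⟨0,[(19,0)]⟩,.k,.k,.k,.k,(.r (-1) ⟨0,[(1,0),(0,0),(2,0),(38,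
  0)]⟩ ⟨3,[(6,2),(0,0),(0,1),(5,2),(3,1),(6,0),(0,1)]⟩),.k,⟨false,1,⟨0,[(13,0),(30,0)]⟩,⟨1,[(6,0),
  (0,0),(6,2),(10,0)]⟩⟩,⟨true,1,⟨0,[(3,0),(24,0)]⟩,⟨0,[(0,0),(11,0),(1,0)]⟩⟩,⟨true,0,⟨0,[(47,0)]⟩,
  ⟨0,[]⟩⟩,⟨false,1,⟨2,[(3,0),(2,1),(7,1),(11,1),(1,0)]⟩,⟨0,[(0,0),(14,0)]⟩⟩,⟨false,0,⟨0,[(43,0)]⟩,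
  ⟨3,[(17,1),(3,0),(0,0),(22,0)]⟩⟩,⟨false,1,⟨0,[(6,0),(19,0)]⟩,⟨1,[(0,1),(1,0),(12,0)]⟩⟩,[.a ⟨true,
  0,⟨0,[(26,0)]⟩,⟨0,[(0,0)]⟩⟩ ⟨true,0,⟨1,[(13,0),(23,0)]⟩,⟨4,[(6,0),(1,2),(5,3),(10,0),(19,1)]⟩⟩
  ⟨false,1,⟨0,[(3,0),(22,0)]⟩,⟨28,[(0,31),(1,1),(9,8),(1,4),(3,2),(6,8),(13,2),(5,2)]⟩⟩,.o ⟨false,1,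
  ⟨12,[(5,1),(0,5),(3,1),(5,3),(0,2),(8,2),(12,0)]⟩,⟨0,[(15,0)]⟩⟩,.o ⟨false,0,⟨28,[(0,2),(1,1),(9,
  8),(1,4),(3,2),(6,8),(13,2),(5,2)]⟩,⟨19,[(5,9),(4,9),(10,0),(0,0),(16,1),(5,4)]⟩⟩,.o ⟨false,0,⟨0,
  [(29,0)]⟩,⟨0,[(3,0)]⟩⟩]⟩)) (.Q [0,1,-2,-1,1,0,1,1,0,-1,1] (.p true [0,0,1] [1] (⟨0,[(30,0)]⟩,⟨0,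
  [(29,0)]⟩) .k 1 (⟨0,[]⟩,⟨0,[]⟩) .k .k) (.S ⟨1,0,[0,0,0,0,0,0,0,1],[0,0,1],[0,1,0,0,0,0,0,1],(⟨0,
  [(31,0)]⟩,⟨0,[(30,0)]⟩),⟨0,[(20,0)]⟩,.k,.k,⟨true,0,⟨0,[(47,0)]⟩,⟨0,[]⟩⟩,⟨false,1,⟨1,[(21,0),(0,0),
  (22,0)]⟩,⟨0,[]⟩⟩,⟨false,0,⟨0,[(43,0)]⟩,⟨3,[(17,1),(3,0),(0,0),(22,0)]⟩⟩,⟨true,0,⟨0,[(43,0)]⟩,⟨0,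
  [(42,0)]⟩⟩,[.o ⟨false,1,⟨12,[(5,1),(0,5),(3,1),(5,3),(0,2),(8,2),(12,0)]⟩,⟨0,[(15,0)]⟩⟩,.o ⟨false,
  1,⟨1,[(0,0),(5,0),(31,1)]⟩,⟨0,[(27,0)]⟩⟩,.o ⟨false,1,⟨19,[(5,9),(4,9),(10,0),(0,0),(16,1),(5,4)]⟩,
  ⟨33,[(2,3),(9,11),(1,3),(3,2),(6,11),(13,2),(5,5)]⟩⟩,.a ⟨true,0,⟨0,[(28,0)]⟩,⟨0,[(25,0)]⟩⟩ ⟨true,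
  0,⟨1,[(0,0),(6,0),(6,0),(10,0)]⟩,⟨3,[(13,1),(14,0),(0,0)]⟩⟩ ⟨false,1,⟨4,[(1,0),(4,2),(7,0),(10,2),
  (19,0)]⟩,⟨3,[(13,1),(14,0),(0,0)]⟩⟩]⟩) (.I [1,0,2,2,-1,0,0,-1] (.N [0,-2,1] (-1) ⟨0,[(2,0)]⟩ ⟨0,
  [(0,0)]⟩ (.x 0 ⟨19,[(3,1),(5,8),(5,1),(2,0),(10,21),(1,19),(2,39),(5,3),(2,0)]⟩ ⟨24,[(2,0),(0,0),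
  (1,5),(3,3),(11,30),(4,23),(6,6),(6,5),(4,15)]⟩)) (.S ⟨1,0,[0,0,0,0,0,0,0,1],[0,0,1],[0,1,0,0,0,0,
  0,1],(⟨0,[(32,0)]⟩,⟨0,[(31,0)]⟩),⟨0,[(21,0)]⟩,.k,.k,⟨true,0,⟨0,[(48,0)]⟩,⟨0,[]⟩⟩,⟨false,1,⟨1,[(22,
  0),(0,0),(22,0)]⟩,⟨0,[]⟩⟩,⟨false,0,⟨0,[(44,0)]⟩,⟨3,[(18,1),(3,0),(0,0),(22,0)]⟩⟩,⟨true,0,⟨0,[(44,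
  0)]⟩,⟨0,[(43,0)]⟩⟩,[.o ⟨false,1,⟨12,[(6,1),(0,5),(3,1),(5,3),(0,2),(8,2),(12,0)]⟩,⟨0,[(16,0)]⟩⟩,
  .o ⟨false,1,⟨1,[(4,0),(2,0),(7,0),(23,0)]⟩,⟨0,[(28,0)]⟩⟩,.o ⟨false,1,⟨19,[(6,9),(4,9),(10,0),(0,
  0),(16,1),(5,4)]⟩,⟨45,[(0,5),(0,8),(1,0),(9,8),(1,3),(3,5),(6,14),(13,5)]⟩⟩,.a ⟨true,0,⟨0,[(29,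
  0)]⟩,⟨0,[(26,0)]⟩⟩ ⟨true,0,⟨0,[(0,0),(7,0)]⟩,⟨3,[(14,1),(14,0),(0,0)]⟩⟩ ⟨false,1,⟨4,[(2,0),(4,2),
  (7,0),(10,2),(19,0)]⟩,⟨3,[(14,1),(14,0),(0,0)]⟩⟩]⟩)))))) (.Q [0,0,0,-1,0,0,0,0,0,1] (.pp false
  [-1,1]) (.R ⟨0,false,false,true,[1,-1,-1],[1,-1],[1,1,1],(⟨0,[(16,0)]⟩,⟨7,[(0,2),(0,3),(0,0),(1,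
  1),(17,0),(5,3),(13,0)]⟩),(⟨0,[(32,0)]⟩,⟨0,[(33,0)]⟩),⟨0,[(1,0)]⟩,.k,.k,(.r (-2) ⟨6,[(2,4),(5,0),
  (1,0),(3,3),(9,3),(16,4)]⟩ ⟨1,[(3,0),(0,0),(0,1),(5,0),(10,0)]⟩),.k,.k,.k,⟨true,(-1),⟨0,[(6,0)]⟩,
  ⟨25,[(2,9),(11,7),(0,4),(18,3),(1,0),(4,5)]⟩⟩,⟨false,1,⟨3,[(2,3),(1,1),(36,0),(0,0)]⟩,⟨11,[(8,1),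
  (0,3),(1,1),(3,0),(6,3),(13,0),(5,1)]⟩⟩,⟨false,(-1),⟨3,[(3,0),(0,0),(0,3),(5,2),(10,0)]⟩,⟨3,[(10,
  1),(3,1),(26,4),(0,0)]⟩⟩,⟨true,0,⟨0,[(23,0)]⟩,⟨0,[(12,0)]⟩⟩,⟨false,0,⟨0,[]⟩,⟨0,[]⟩⟩,⟨false,0,⟨0,
  []⟩,⟨0,[]⟩⟩,[.o ⟨false,0,⟨0,[(39,0)]⟩,⟨23,[(3,3),(0,9),(19,3),(11,3),(4,4),(0,16)]⟩⟩,.a ⟨true,0,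
  ⟨0,[(0,0)]⟩,⟨0,[(40,0)]⟩⟩ ⟨false,0,⟨0,[]⟩,⟨1,[(18,0),(0,0),(21,0)]⟩⟩ ⟨true,1,⟨0,[(2,0)]⟩,⟨0,[(9,
  0),(25,0)]⟩⟩,.e ⟨false,0,⟨1,[(25,0),(0,0)]⟩,⟨1,[(41,0),(0,0)]⟩⟩ ⟨false,1,⟨0,[(2,0)]⟩,⟨0,[(9,0),
  (32,0)]⟩⟩,.o ⟨false,(-1),⟨1,[(5,0),(2,0),(0,0),(1,0),(23,0)]⟩,⟨48,[(2,28),(0,18),(3,9),(2,4),(13,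
  8),(11,3),(4,41)]⟩⟩]⟩) (.R ⟨1,false,false,true,[0,0,1],[1,-1],[1,0,0,-1,0,0,0,1],(⟨0,[(28,0)]⟩,⟨0,
  [(27,0)]⟩),(⟨0,[(32,0)]⟩,⟨0,[(33,0)]⟩),⟨0,[(17,0)]⟩,.k,.k,.k,.k,.k,.k,⟨true,0,⟨4,[(3,0),(1,2),(5,
  3),(10,0),(19,1)]⟩,⟨1,[(10,0),(23,0)]⟩⟩,⟨false,0,⟨1,[(15,0),(6,0),(2,0)]⟩,⟨0,[(0,0),(1,0)]⟩⟩,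
  ⟨false,1,⟨3,[(14,1),(3,0),(0,0),(22,0)]⟩,⟨0,[(40,0)]⟩⟩,⟨false,0,⟨0,[(8,0),(13,0),(2,0)]⟩,⟨0,[(3,
  0)]⟩⟩,⟨true,0,⟨0,[]⟩,⟨0,[(44,0)]⟩⟩,⟨false,0,⟨3,[(10,1),(4,0),(6,2),(2,0)]⟩,⟨1,[(0,0),(1,0),(0,0),
  (7,0),(23,0)]⟩⟩,[.o ⟨false,0,⟨0,[(39,0)]⟩,⟨23,[(3,3),(0,9),(19,3),(11,3),(4,4),(0,16)]⟩⟩,.o
  ⟨false,1,⟨1,[(14,0),(3,0),(0,0),(24,0)]⟩,⟨0,[(0,0)]⟩⟩,.o ⟨false,1,⟨19,[(2,9),(4,9),(10,0),(0,0),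
  (16,1),(5,4)]⟩,⟨4,[(0,1),(7,0),(2,0),(3,1)]⟩⟩,.a ⟨true,0,⟨0,[(25,0)]⟩,⟨0,[(22,0)]⟩⟩ ⟨false,1,⟨1,
  [(11,1),(29,0),(0,0)]⟩,⟨3,[(4,1),(5,1),(7,0),(0,0),(22,0)]⟩⟩ ⟨true,0,⟨0,[(22,0),(16,0)]⟩,⟨0,[(0,
  0),(24,0)]⟩⟩]⟩)))) (.I [0,-1,1,1,0,0,0,-1] (.S ⟨1,0,[0,0,0,0,0,0,0,1],[0,0,1],[1,1,0,-1,0,0,0,1],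
  (⟨0,[(26,0)]⟩,⟨0,[(25,0)]⟩),⟨0,[(15,0)]⟩,.k,.k,⟨true,0,⟨0,[(37,0)]⟩,⟨0,[(38,0)]⟩⟩,⟨false,1,⟨1,
  [(16,0),(0,0),(22,0)]⟩,⟨0,[]⟩⟩,⟨false,0,⟨0,[]⟩,⟨1,[(16,0),(0,0),(22,0)]⟩⟩,⟨true,0,⟨0,[(38,0)]⟩,⟨0,
  [(37,0)]⟩⟩,[.o ⟨false,1,⟨9,[(16,0),(0,0),(3,9),(12,1),(5,4)]⟩,⟨0,[(10,0)]⟩⟩,.a ⟨true,1,⟨0,[(21,0),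
  (18,0)]⟩,⟨5,[(0,0),(0,4),(0,1),(17,0),(18,0)]⟩⟩ ⟨true,0,⟨0,[(9,0)]⟩,⟨2,[(0,0),(1,0),(5,0),(7,0),
  (0,0)]⟩⟩ ⟨false,1,⟨3,[(2,1),(6,3),(29,2),(0,2)]⟩,⟨1,[(8,0),(23,0)]⟩⟩,.o ⟨false,1,⟨13,[(5,3),(6,1),
  (10,9),(10,1),(4,6),(0,0)]⟩,⟨11,[(6,1),(0,3),(1,1),(3,0),(6,3),(13,0),(5,1)]⟩⟩,.e ⟨false,1,⟨5,[(9,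
  1),(1,3),(0,1),(26,2),(0,0)]⟩,⟨0,[(0,0)]⟩⟩ ⟨false,1,⟨3,[(2,1),(6,3),(29,2),(0,2)]⟩,⟨3,[(8,1),(14,
  0),(0,0)]⟩⟩]⟩) (.Q [0,-1,0,2,1,0,1,1,0,-1,1] (.p true [0,0,1] [1] (⟨0,[(26,0)]⟩,⟨0,[(25,0)]⟩) .k
  1 (⟨0,[]⟩,⟨0,[]⟩) .k .k) (.R ⟨1,true,false,false,[1,0,-1],[0,1],[0,0,0,0,0,0,0,-1],(⟨0,[(26,0)]⟩,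
  ⟨0,[(27,0)]⟩),(⟨0,[(32,0)]⟩,⟨0,[(31,0)]⟩),⟨0,[(15,0)]⟩,.k,.k,.k,.k,(.r (-2) ⟨1,[(9,0),(3,1),(19,
  0),(6,1)]⟩ ⟨4,[(0,1),(2,1),(0,4),(5,2),(10,1)]⟩),.k,⟨true,1,⟨2,[(1,0),(7,1),(3,0),(26,1)]⟩,⟨4,[(0,
  0),(2,0),(0,4),(5,3),(10,0)]⟩⟩,⟨false,2,⟨34,[(0,1),(5,7),(2,0),(3,5),(10,24),(10,4),(4,51)]⟩,⟨2,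
  [(2,0),(1,1),(5,0),(10,1),(12,0)]⟩⟩,⟨false,1,⟨1,[(17,0),(0,0),(22,0)]⟩,⟨0,[]⟩⟩,⟨true,1,⟨42,[(0,
  28),(5,8),(5,8),(0,11),(8,4),(10,8),(1,0)]⟩,⟨0,[(2,0)]⟩⟩,⟨true,0,⟨0,[(39,0)]⟩,⟨0,[(38,0)]⟩⟩,
  ⟨false,1,⟨0,[(0,0)]⟩,⟨11,[(2,7),(6,1),(3,7),(0,0),(6,2),(2,0)]⟩⟩,[]⟩) (.Q [0,-1,0,2,0,0,-1,-1,0,0,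
  -1] (.p false [0,0,1] [] (⟨0,[(27,0)]⟩,⟨0,[(26,0)]⟩) .k 0 (⟨0,[]⟩,⟨0,[]⟩) .k .k) (.R ⟨1,false,
  false,false,[0,0,1],[0,1],[],(⟨0,[(28,0)]⟩,⟨0,[(27,0)]⟩),(⟨0,[(33,0)]⟩,⟨0,[(32,0)]⟩),⟨0,[(17,0)]⟩,
  .k,.k,.k,.k,(.x 0 ⟨27,[(1,1),(3,12),(5,1),(2,2),(10,29),(1,27),(2,55),(5,5),(2,0)]⟩ ⟨51,[(0,8),(0,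
  2),(0,11),(13,21),(0,73),(4,39),(6,7),(6,12),(4,25),(0,2)]⟩),.k,⟨true,1,⟨7,[(14,3),(3,0),(0,0),
  (14,1),(6,2)]⟩,⟨0,[(6,0)]⟩⟩,⟨false,1,⟨5,[(15,0),(6,3),(13,0),(4,3)]⟩,⟨0,[(25,0)]⟩⟩,⟨false,1,⟨3,
  [(10,1),(7,0),(0,0),(21,0),(0,1)]⟩,⟨1,[(2,0),(1,0),(6,0),(30,0)]⟩⟩,⟨true,0,⟨1,[(0,0),(23,0)]⟩,⟨0,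
  [(2,0),(22,0)]⟩⟩,⟨false,1,⟨7,[(0,3),(9,1),(7,2),(0,2),(5,3),(15,2),(0,1)]⟩,⟨0,[(11,0)]⟩⟩,⟨false,0,
  ⟨0,[(0,0)]⟩,⟨0,[(14,0),(8,0)]⟩⟩,[.e ⟨false,1,⟨1,[(18,0),(0,0),(21,0)]⟩,⟨0,[]⟩⟩ ⟨false,0,⟨0,[(0,0),
  (1,0)]⟩,⟨7,[(14,3),(3,0),(0,0),(5,7),(8,1),(6,2)]⟩⟩,.o ⟨false,1,⟨23,[(0,3),(3,5),(2,3),(5,3),(22,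
  3),(4,4),(0,16)]⟩,⟨0,[(39,0)]⟩⟩,.o ⟨false,1,⟨13,[(7,3),(6,1),(10,9),(10,1),(4,6),(0,0)]⟩,⟨36,[(0,
  3),(0,2),(7,4),(1,6),(3,7),(6,8),(12,3),(0,3)]⟩⟩,.a ⟨true,0,⟨0,[(25,0)]⟩,⟨0,[(22,0)]⟩⟩ ⟨false,1,
  ⟨1,[(41,0),(0,0)]⟩,⟨1,[(25,0),(0,0)]⟩⟩ ⟨true,0,⟨0,[(0,0),(1,0)]⟩,⟨0,[(25,0),(13,0)]⟩⟩]⟩) (.Q [-1,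
  -1,0,2,0,0,-1,-1,-1,1,-1,-1] (.p false [0,0,1] [1,0,0,0,-1] (⟨0,[(28,0)]⟩,⟨0,[(27,0)]⟩) .k 2 (⟨0,
  [(20,0)]⟩,⟨0,[(21,0)]⟩) .k (.r 0 ⟨1,[(2,0),(1,0),(6,0),(30,0)]⟩ ⟨19,[(10,9),(7,11),(0,11),(21,4),
  (0,2),(1,5)]⟩)) (.Q [0,0,0,0,0,-1,0,0,0,0,0,1] (.ed false [1,-1,0,0,1] .k) (.S ⟨1,0,[1],[0,0,0,0,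
  1],[1,1],(⟨0,[(23,0)]⟩,⟨0,[(22,0)]⟩),⟨0,[(0,0)]⟩,.k,(.r (-1) ⟨7,[(16,3),(3,0),(0,0),(14,1),(6,
  2)]⟩ ⟨24,[(1,1),(4,6),(2,6),(7,4),(3,1),(3,1),(1,2),(16,6),(0,7)]⟩),⟨true,0,⟨0,[(46,0)]⟩,⟨0,[]⟩⟩,
  ⟨false,1,⟨1,[(20,0),(0,0),(22,0)]⟩,⟨0,[]⟩⟩,⟨false,0,⟨0,[(42,0)]⟩,⟨3,[(16,1),(3,0),(0,0),(22,0)]⟩⟩,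
  ⟨true,0,⟨0,[(42,0)]⟩,⟨0,[(41,0)]⟩⟩,[.e ⟨true,0,⟨0,[(46,0)]⟩,⟨0,[(37,0)]⟩⟩ ⟨true,0,⟨0,[]⟩,⟨1,[(27,
  0),(0,0)]⟩⟩,.o ⟨false,1,⟨9,[(20,0),(0,10),(16,1),(5,4)]⟩,⟨3,[(1,3),(0,4),(0,0),(2,1),(31,0),(4,
  0)]⟩⟩,.a ⟨true,0,⟨0,[(21,0)]⟩,⟨0,[(1,0),(0,0)]⟩⟩ ⟨false,0,⟨0,[]⟩,⟨1,[(20,0),(0,0),(22,0)]⟩⟩ ⟨true,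
  0,⟨0,[]⟩,⟨0,[(46,0)]⟩⟩,.o ⟨false,0,⟨146,[(2,9),(0,7),(3,71),(4,0),(3,17),(4,146),(6,1),(9,30)]⟩,
  ⟨5,[(1,4),(0,4),(17,0),(17,0),(4,2)]⟩⟩]⟩) (.S ⟨1,0,[-1,1],[1,0,0,0,-1],[-1],(⟨0,[(22,0)]⟩,⟨0,[(23,
  0)]⟩),⟨0,[(0,0),(17,0),(0,0)]⟩,.k,(.r (-1) ⟨13,[(16,6),(3,0),(0,0),(14,1),(6,5),(2,2)]⟩ ⟨2,[(6,0),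
  (2,0),(7,0),(9,0),(16,0)]⟩),⟨false,1,⟨1,[(20,0),(0,0),(22,0)]⟩,⟨0,[]⟩⟩,⟨true,0,⟨0,[(46,0)]⟩,⟨0,
  []⟩⟩,⟨true,0,⟨0,[(42,0)]⟩,⟨0,[(41,0)]⟩⟩,⟨false,0,⟨0,[(42,0)]⟩,⟨3,[(16,1),(3,0),(0,0),(22,0)]⟩⟩,
  [.o ⟨false,0,⟨3,[(1,3),(0,4),(0,0),(2,1),(31,0),(4,0)]⟩,⟨9,[(20,0),(0,10),(16,1),(5,4)]⟩⟩,.e
  ⟨false,1,⟨0,[(37,0),(5,0)]⟩,⟨0,[(46,0)]⟩⟩ ⟨false,1,⟨9,[(20,3),(0,3),(21,4),(0,0),(1,1)]⟩,⟨0,[]⟩⟩,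
  .a ⟨true,0,⟨0,[(1,0),(0,0)]⟩,⟨0,[(21,0)]⟩⟩ ⟨false,1,⟨4,[(20,1),(0,1),(22,2),(1,0)]⟩,⟨0,[]⟩⟩ ⟨true,
  0,⟨0,[(46,0)]⟩,⟨0,[]⟩⟩,.o ⟨false,0,⟨9,[(1,8),(0,9),(0,0),(3,3),(12,0),(16,1),(0,1)]⟩,⟨9,[(20,0),
  (0,10),(16,1),(4,4)]⟩⟩]⟩)) (.Q [-1,-1,0,0,1,0,0,0,-1,1,0,-1] (.p false [0,0,0,0,1] [1] (⟨0,[(22,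
  0)]⟩,⟨0,[(21,0)]⟩) .k 1 (⟨0,[]⟩,⟨0,[]⟩) .k .k) (.Q [1,1,0,0,-1,0,0,0,1,0,0,1] (.p true [0,0,0,0,
  1] [] (⟨0,[(23,0)]⟩,⟨0,[(22,0)]⟩) .k 0 (⟨0,[]⟩,⟨0,[]⟩) .k .k) (.Q [0,0,0,0,0,-1,0,0,0,0,0,1] (.ed
  false [1,-1,0,0,1] .k) (.S ⟨1,0,[1,1],[0,0,0,0,1],[],(⟨0,[(25,0)]⟩,⟨0,[(24,0)]⟩),⟨0,[(0,0)]⟩,.k,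
  (.r (-1) ⟨7,[(18,3),(3,0),(0,0),(14,1),(6,2)]⟩ ⟨20,[(2,2),(5,6),(0,0),(1,5),(7,2),(3,2),(22,4),(0,
  5)]⟩),⟨false,1,⟨20,[(2,9),(20,9),(16,1),(5,6),(1,2)]⟩,⟨0,[]⟩⟩,⟨true,0,⟨0,[(48,0)]⟩,⟨0,[]⟩⟩,⟨true,
  0,⟨0,[(9,0),(35,0)]⟩,⟨0,[(43,0)]⟩⟩,⟨false,0,⟨0,[(44,0)]⟩,⟨17,[(2,4),(15,8),(4,4),(16,0),(5,1)]⟩⟩,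
  [.a ⟨true,(-1),⟨0,[(1,0)]⟩,⟨0,[(2,0)]⟩⟩ ⟨false,1,⟨1,[(22,0),(0,0),(21,0)]⟩,⟨0,[]⟩⟩ ⟨true,0,⟨0,
  [(48,0)]⟩,⟨0,[(39,0)]⟩⟩,.o ⟨false,0,⟨4,[(1,3),(21,0),(16,0),(5,1)]⟩,⟨3,[(2,3),(1,0),(0,0),(2,1),
  (31,0),(4,0)]⟩⟩,.o ⟨false,0,⟨9,[(1,9),(37,1),(0,1),(4,0),(0,4),(1,1)]⟩,⟨0,[(22,0)]⟩⟩,.e ⟨false,1,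
  ⟨1,[(45,0),(0,0)]⟩,⟨1,[(29,0),(0,0)]⟩⟩ ⟨false,1,⟨1,[(22,0),(0,0),(21,0)]⟩,⟨0,[(39,0)]⟩⟩]⟩) (.Q [1,
  1,0,-1,-1,0,0,0,1,0,0,1] (.p true [0,0,0,0,1] [] (⟨0,[(25,0)]⟩,⟨0,[(24,0)]⟩) .k 0 (⟨0,[]⟩,⟨0,[]⟩)
  .k .k) (.R ⟨0,false,false,false,[0,0,0,0,1],[0,1],[],(⟨0,[(26,0)]⟩,⟨0,[(25,0)]⟩),(⟨0,[(38,0)]⟩,⟨0,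
  [(37,0)]⟩),⟨0,[(1,0)]⟩,.k,.k,(.r (-1) ⟨7,[(19,3),(3,0),(0,0),(14,1),(6,2)]⟩ ⟨20,[(3,2),(5,6),(0,
  0),(1,5),(7,2),(3,2),(22,4),(0,5)]⟩),(.r (-1) ⟨7,[(19,3),(3,0),(0,0),(14,1),(6,2)]⟩ ⟨20,[(3,2),(5,
  6),(0,0),(1,5),(7,2),(3,2),(22,4),(0,5)]⟩),.k,.k,⟨true,1,⟨7,[(19,3),(3,0),(0,0),(14,1),(6,2)]⟩,⟨0,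
  [(11,0)]⟩⟩,⟨false,2,⟨0,[(23,0),(22,0)]⟩,⟨0,[(2,0),(37,0)]⟩⟩,⟨false,1,⟨20,[(3,9),(20,9),(16,1),(5,
  6),(1,2)]⟩,⟨0,[]⟩⟩,⟨true,1,⟨5,[(3,4),(5,2),(13,0),(15,0),(1,0),(4,0)]⟩,⟨0,[(0,0)]⟩⟩,⟨false,0,⟨0,
  []⟩,⟨0,[]⟩⟩,⟨false,0,⟨0,[]⟩,⟨0,[]⟩⟩,[.a ⟨true,0,⟨0,[(45,0)]⟩,⟨0,[(0,0),(2,0)]⟩⟩ ⟨false,1,⟨1,[(23,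
  0),(0,0),(21,0)]⟩,⟨0,[]⟩⟩ ⟨true,1,⟨29,[(3,15),(5,13),(2,1),(7,0),(2,13),(17,2),(4,7)]⟩,⟨0,[(0,0),
  (39,0)]⟩⟩,.o ⟨false,1,⟨31,[(9,13),(2,3),(7,1),(20,5),(4,8),(0,24)]⟩,⟨0,[(44,0)]⟩⟩,.o ⟨false,0,⟨4,
  [(0,0),(1,3),(38,0),(3,0),(1,2),(1,0)]⟩,⟨0,[(23,0)]⟩⟩,.e ⟨false,1,⟨1,[(46,0),(0,0)]⟩,⟨1,[(30,0),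
  (0,0)]⟩⟩ ⟨false,2,⟨31,[(3,31),(5,13),(2,3),(7,1),(20,5),(4,24),(0,8)]⟩,⟨0,[(0,0),(39,0)]⟩⟩]⟩) (.R
  ⟨2,true,false,true,[0,1],[0,0,0,0,1],[2,1,1],(⟨0,[]⟩,⟨0,[]⟩),(⟨0,[(26,0)]⟩,⟨0,[(25,0)]⟩),⟨0,[]⟩,
  .k,.k,.k,(.r 0 ⟨20,[(3,2),(5,6),(0,0),(1,5),(7,2),(3,2),(22,4),(0,5)]⟩ ⟨7,[(19,3),(3,0),(0,0),(14,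
  1),(6,2)]⟩),.k,.k,⟨false,0,⟨0,[]⟩,⟨1,[(23,0),(0,0),(21,0)]⟩⟩,⟨true,(-1),⟨0,[(2,0),(37,0)]⟩,⟨0,
  [(23,0)]⟩⟩,⟨true,0,⟨0,[(44,0)]⟩,⟨0,[(10,0),(35,0)]⟩⟩,⟨false,0,⟨1,[(2,0),(16,0),(4,0)]⟩,⟨0,[(0,
  0)]⟩⟩,⟨false,0,⟨0,[]⟩,⟨20,[(3,9),(20,9),(16,1),(5,6),(1,2)]⟩⟩,⟨true,(-1),⟨0,[(2,0)]⟩,⟨1,[(0,0),
  (22,0),(20,0)]⟩⟩,[]⟩))) (.Q [1,0,0,0,0,0,0,0,1,-1,0,1] (.p true [0,0,0,0,1] [1] (⟨0,[(24,0)]⟩,⟨0,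
  [(23,0)]⟩) .k 1 (⟨0,[]⟩,⟨0,[]⟩) .k .k) (.R ⟨1,false,false,true,[1,0,-1],[0,0,0,0,1],[0,0,0,0,0,0,
  0,-1],(⟨0,[(31,0)]⟩,⟨0,[(32,0)]⟩),(⟨0,[(25,0)]⟩,⟨0,[(24,0)]⟩),⟨0,[(20,0)]⟩,.k,.k,.k,.k,(.r (-1)
  ⟨47,[(4,4),(0,4),(8,23),(3,13),(21,0),(4,35),(0,0),(1,5)]⟩ ⟨2,[(8,0),(0,0),(7,2),(28,1)]⟩),.k,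
  ⟨true,1,⟨83,[(2,19),(11,41),(8,19),(16,3),(4,20),(0,34),(1,5)]⟩,⟨0,[(6,0),(2,0)]⟩⟩,⟨false,1,⟨0,
  [(0,0),(28,0),(15,0)]⟩,⟨2,[(1,2),(3,0),(0,0),(1,0),(0,0),(16,1)]⟩⟩,⟨false,1,⟨8,[(2,4),(20,4),(16,
  0),(5,1)]⟩,⟨0,[]⟩⟩,⟨true,0,⟨0,[(0,0),(26,0)]⟩,⟨3,[(1,3),(5,3),(0,1),(36,0),(0,0)]⟩⟩,⟨true,0,⟨0,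
  [(44,0)]⟩,⟨0,[(43,0)]⟩⟩,⟨true,0,⟨3,[(0,3),(7,1),(18,3),(17,0),(0,0)]⟩,⟨0,[(1,0),(5,0)]⟩⟩,[.o
  ⟨false,0,⟨9,[(0,2),(2,1),(4,1),(14,4),(4,1),(9,1),(1,0)]⟩,⟨0,[(1,0)]⟩⟩,.o ⟨false,0,⟨0,[(0,0)]⟩,⟨2,
  [(1,0),(20,1),(25,0)]⟩⟩,.o ⟨false,0,⟨8,[(5,0),(7,2),(1,0),(3,0),(6,2),(13,0),(5,1)]⟩,⟨13,[(11,3),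
  (6,1),(10,9),(10,1),(4,6),(0,0)]⟩⟩,.a ⟨true,(-1),⟨3,[(5,0),(3,2),(5,0),(10,2),(12,0)]⟩,⟨0,[(29,0),
  (15,0)]⟩⟩ ⟨true,1,⟨3,[(14,1),(7,0),(0,0),(21,2)]⟩,⟨0,[(6,0),(2,0)]⟩⟩ ⟨false,1,⟨0,[(0,0),(28,0),
  (15,0)]⟩,⟨3,[(1,3),(3,0),(3,2),(5,0),(10,2),(12,0)]⟩⟩]⟩) (.Q [0,0,0,0,0,-1,0,0,0,0,0,1] (.ed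
  false [1,-1,0,0,1] .k) (.S ⟨1,0,[1],[0,0,0,0,1],[1,1],(⟨0,[(26,0)]⟩,⟨0,[(25,0)]⟩),⟨0,[(0,0)]⟩,.k,
  (.r (-1) ⟨7,[(19,3),(3,0),(0,0),(14,1),(6,2)]⟩ ⟨20,[(3,2),(5,6),(0,0),(1,5),(7,2),(3,2),(22,4),(0,
  5)]⟩),⟨true,0,⟨0,[(49,0)]⟩,⟨0,[]⟩⟩,⟨false,1,⟨8,[(3,4),(20,4),(16,0),(5,1)]⟩,⟨0,[]⟩⟩,⟨false,0,⟨0,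
  [(45,0)]⟩,⟨17,[(3,4),(15,8),(4,4),(16,0),(5,1)]⟩⟩,⟨true,0,⟨0,[(45,0)]⟩,⟨0,[(44,0)]⟩⟩,[.e ⟨true,0,
  ⟨0,[(49,0)]⟩,⟨0,[(40,0)]⟩⟩ ⟨true,0,⟨0,[]⟩,⟨1,[(30,0),(0,0)]⟩⟩,.o ⟨false,1,⟨8,[(3,0),(20,9),(16,1),
  (5,3)]⟩,⟨3,[(1,3),(3,0),(0,0),(2,1),(31,0),(4,0)]⟩⟩,.a ⟨true,0,⟨0,[(24,0)]⟩,⟨0,[(1,0)]⟩⟩ ⟨false,0,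
  ⟨0,[]⟩,⟨8,[(3,4),(20,4),(16,0),(5,1)]⟩⟩ ⟨true,0,⟨0,[]⟩,⟨0,[(49,0)]⟩⟩,.o ⟨false,0,⟨38,[(4,3),(5,
  17),(2,1),(1,0),(3,3),(4,34),(6,1),(9,6)]⟩,⟨6,[(1,4),(0,1),(36,0),(1,0),(4,2)]⟩⟩]⟩) (.S ⟨1,0,[-1,
  1],[1,0,0,0,-1],[-1],(⟨0,[(25,0)]⟩,⟨0,[(26,0)]⟩),⟨0,[(0,0),(20,0),(0,0)]⟩,.k,(.r (-1) ⟨69,[(3,4),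
  (15,34),(4,4),(14,13),(1,0),(4,27),(2,11)]⟩ ⟨4,[(3,0),(5,0),(0,0),(1,1),(7,0),(3,0),(22,0)]⟩),
  ⟨false,1,⟨8,[(3,4),(20,4),(16,0),(5,1)]⟩,⟨0,[]⟩⟩,⟨true,0,⟨0,[(49,0)]⟩,⟨0,[]⟩⟩,⟨true,0,⟨0,[(45,
  0)]⟩,⟨0,[(44,0)]⟩⟩,⟨false,0,⟨0,[(45,0)]⟩,⟨17,[(3,4),(15,8),(4,4),(16,0),(5,1)]⟩⟩,[.o ⟨false,0,⟨3,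
  [(1,3),(3,0),(0,0),(2,1),(31,0),(4,0)]⟩,⟨8,[(3,0),(20,9),(16,1),(5,3)]⟩⟩,.e ⟨false,1,⟨0,[(40,0),
  (5,0)]⟩,⟨0,[(49,0)]⟩⟩ ⟨false,1,⟨34,[(3,14),(20,14),(14,6),(1,2),(4,13),(2,0)]⟩,⟨0,[]⟩⟩,.a ⟨true,0,
  ⟨0,[(1,0)]⟩,⟨0,[(24,0)]⟩⟩ ⟨false,1,⟨20,[(3,9),(20,9),(16,1),(5,6),(1,2)]⟩,⟨0,[]⟩⟩ ⟨true,0,⟨0,[(49,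
  0)]⟩,⟨0,[]⟩⟩,.o ⟨false,0,⟨23,[(1,16),(0,5),(2,2),(0,2),(3,11),(12,0),(17,3)]⟩,⟨9,[(23,0),(0,10),
  (16,1),(4,4)]⟩⟩]⟩)))) (.Q [0,0,0,0,0,-1,0,0,0,1,0,-1] (.ed true [0,1,0,0,1] .k) (.R ⟨1,false,
  false,false,[1,0,0,0,-1],[0,1],[-1,1],(⟨0,[(23,0)]⟩,⟨0,[(24,0)]⟩),(⟨0,[(36,0)]⟩,⟨0,[(35,0)]⟩),⟨0,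
  [(0,0)]⟩,.k,.k,(.r (-1) ⟨13,[(17,6),(3,0),(0,0),(14,1),(6,5),(2,2)]⟩ ⟨2,[(7,0),(2,0),(7,0),(9,0),
  (16,0)]⟩),(.r (-1) ⟨13,[(17,6),(3,0),(0,0),(14,1),(6,5),(2,2)]⟩ ⟨2,[(7,0),(2,0),(7,0),(9,0),(16,
  0)]⟩),(.r (-2) ⟨3,[(17,3),(3,0),(0,0),(14,1),(6,2)]⟩ ⟨2,[(7,1),(0,1),(36,0)]⟩),.k,⟨false,1,⟨63,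
  [(3,4),(0,4),(12,21),(19,37),(1,0),(4,44)]⟩,⟨2,[(7,0),(0,0),(36,1)]⟩⟩,⟨true,0,⟨1,[(1,1),(42,0),(0,
  0)]⟩,⟨4,[(3,0),(0,0),(3,3),(12,4),(3,3),(2,3),(9,1)]⟩⟩,⟨true,0,⟨0,[(47,0)]⟩,⟨0,[]⟩⟩,⟨false,0,⟨3,
  [(1,3),(5,1),(36,0),(0,4)]⟩,⟨7,[(3,1),(0,1),(16,7),(3,2),(2,2),(4,2),(1,2),(9,1)]⟩⟩,⟨false,0,⟨0,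
  [(43,0)]⟩,⟨3,[(17,1),(3,0),(0,0),(22,0)]⟩⟩,⟨false,0,⟨1,[(1,1),(5,1),(36,0),(0,2)]⟩,⟨3,[(3,1),(0,
  1),(16,3),(3,0),(2,0),(4,0),(1,0),(9,1)]⟩⟩,[.a ⟨true,0,⟨0,[(43,0)]⟩,⟨3,[(3,0),(0,0),(20,2),(2,2),
  (16,0)]⟩⟩ ⟨true,0,⟨0,[(47,0)]⟩,⟨0,[(38,0)]⟩⟩ ⟨false,0,⟨3,[(1,3),(5,1),(36,2),(0,2)]⟩,⟨3,[(3,0),(0,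
  0),(16,3),(3,2),(2,2),(16,0)]⟩⟩,.o ⟨false,1,⟨31,[(7,13),(2,3),(7,1),(20,5),(4,8),(0,24)]⟩,⟨0,[(42,
  0)]⟩⟩,.o ⟨false,1,⟨0,[(21,0)]⟩,⟨20,[(1,10),(20,9),(16,1),(5,6),(1,2)]⟩⟩,.o ⟨false,1,⟨1,[(21,1),(6,
  0),(0,0)]⟩,⟨1,[(1,1),(42,0),(0,0)]⟩⟩]⟩) (.R ⟨0,false,false,false,[1,0,0,0,-1],[0,1],[0,1,0,-1],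
  (⟨0,[(23,0)]⟩,⟨0,[(24,0)]⟩),(⟨0,[(36,0)]⟩,⟨0,[(35,0)]⟩),⟨0,[(0,0)]⟩,.k,.k,(.r (-1) ⟨13,[(17,6),(3,
  0),(0,0),(14,1),(6,5),(2,2)]⟩ ⟨2,[(7,0),(2,0),(7,0),(9,0),(16,0)]⟩),(.r (-1) ⟨13,[(17,6),(3,0),(0,
  0),(14,1),(6,5),(2,2)]⟩ ⟨2,[(7,0),(2,0),(7,0),(9,0),(16,0)]⟩),.k,.k,⟨false,1,⟨15,[(3,4),(0,4),(12,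
  5),(19,5),(1,0),(4,12)]⟩,⟨0,[(7,0),(37,0)]⟩⟩,⟨true,0,⟨1,[(1,1),(42,0),(0,0)]⟩,⟨4,[(3,0),(0,0),(3,
  3),(12,4),(3,3),(2,3),(9,1)]⟩⟩,⟨true,0,⟨0,[(42,0)]⟩,⟨0,[(43,0)]⟩⟩,⟨false,0,⟨3,[(1,3),(5,1),(36,0),
  (0,4)]⟩,⟨7,[(3,1),(0,1),(16,7),(3,2),(2,2),(4,2),(1,2),(9,1)]⟩⟩,⟨false,0,⟨0,[]⟩,⟨0,[]⟩⟩,⟨false,0,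
  ⟨0,[]⟩,⟨0,[]⟩⟩,[.a ⟨true,0,⟨0,[(43,0)]⟩,⟨3,[(3,0),(0,0),(20,2),(2,2),(16,0)]⟩⟩ ⟨true,0,⟨0,[(42,
  0)]⟩,⟨2,[(7,0),(0,0),(36,1)]⟩⟩ ⟨false,0,⟨3,[(1,3),(5,1),(36,2),(0,2)]⟩,⟨3,[(3,0),(0,0),(16,3),(3,
  2),(2,2),(16,0)]⟩⟩,.o ⟨false,1,⟨31,[(7,13),(2,3),(7,1),(20,5),(4,8),(0,24)]⟩,⟨0,[(42,0)]⟩⟩,.o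
  ⟨false,1,⟨0,[(21,0)]⟩,⟨20,[(1,10),(20,9),(16,1),(5,6),(1,2)]⟩⟩,.o ⟨false,1,⟨1,[(21,1),(6,0),(0,
  0)]⟩,⟨1,[(1,1),(42,0),(0,0)]⟩⟩]⟩)))))))) (.Q [0,0,2,0,-1,0,0,0,0,1] (.pp false [-1,1]) (.S ⟨1,0,
  [0,1,-1,-1],[1,-1],[1,0,-1,-2],(⟨0,[(29,0)]⟩,⟨0,[(30,0)]⟩),⟨0,[(13,0),(0,0)]⟩,.k,(.r (-2) ⟨3,[(11,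
  3),(3,0),(0,0),(14,1),(6,2)]⟩ ⟨0,[(2,0),(34,0)]⟩),⟨false,1,⟨3,[(11,1),(3,0),(0,0),(22,0)]⟩,⟨0,
  [(37,0)]⟩⟩,⟨true,0,⟨0,[(41,0)]⟩,⟨0,[]⟩⟩,⟨true,0,⟨0,[]⟩,⟨0,[(41,0)]⟩⟩,⟨false,0,⟨0,[(37,0)]⟩,⟨3,
  [(11,1),(3,0),(0,0),(22,0)]⟩⟩,[.o ⟨false,0,⟨0,[(36,0)]⟩,⟨15,[(4,1),(7,0),(20,2),(3,13),(0,0),(0,
  8)]⟩⟩,.e ⟨true,1,⟨0,[(1,0)]⟩,⟨1,[(0,0),(3,0),(1,0),(30,1)]⟩⟩ ⟨true,1,⟨7,[(11,3),(3,0),(0,0),(14,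
  1),(6,2)]⟩,⟨0,[(3,0)]⟩⟩,.o ⟨false,0,⟨1,[(22,0),(0,0)]⟩,⟨9,[(15,0),(0,0),(16,1),(4,4)]⟩⟩,.a ⟨true,
  (-1),⟨0,[(0,0)]⟩,⟨0,[(38,0)]⟩⟩ ⟨false,2,⟨0,[(11,0),(26,0)]⟩,⟨0,[(2,0),(34,0)]⟩⟩ ⟨true,1,⟨3,[(1,0),
  (9,0),(19,2),(6,1)]⟩,⟨0,[(3,0)]⟩⟩]⟩) (.R ⟨1,false,false,true,[0,0,1],[1,-1],[1,0,0,-1,0,0,0,1],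
  (⟨0,[(25,0)]⟩,⟨0,[(24,0)]⟩),(⟨0,[(29,0)]⟩,⟨0,[(30,0)]⟩),⟨0,[(14,0)]⟩,.k,.k,.k,.k,.k,.k,⟨true,0,⟨1,
  [(2,0),(5,1),(28,0),(1,0)]⟩,⟨1,[(7,0),(23,0)]⟩⟩,⟨false,0,⟨1,[(12,0),(6,0),(2,0)]⟩,⟨0,[(0,0),(21,
  0)]⟩⟩,⟨false,1,⟨3,[(11,1),(3,0),(0,0),(22,0)]⟩,⟨0,[(37,0)]⟩⟩,⟨false,0,⟨1,[(1,0),(0,0),(4,0),(11,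
  1),(16,0)]⟩,⟨0,[(0,0),(1,0),(17,0),(18,0)]⟩⟩,⟨true,0,⟨0,[]⟩,⟨0,[(41,0)]⟩⟩,⟨false,0,⟨3,[(7,1),(4,
  0),(6,2),(2,0)]⟩,⟨2,[(0,2),(1,1),(5,1),(11,0),(1,1),(16,1)]⟩⟩,[.o ⟨false,0,⟨0,[(36,0)]⟩,⟨15,[(4,
  1),(7,0),(20,2),(3,13),(0,0),(0,8)]⟩⟩,.o ⟨false,1,⟨1,[(11,0),(3,0),(0,0),(24,0)]⟩,⟨0,[(0,0),(1,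
  0)]⟩⟩,.o ⟨false,1,⟨13,[(4,3),(6,1),(10,9),(10,1),(4,6),(0,0)]⟩,⟨11,[(5,1),(0,3),(1,1),(3,0),(6,3),
  (13,0),(5,1)]⟩⟩,.a ⟨true,0,⟨0,[(22,0)]⟩,⟨0,[(19,0)]⟩⟩ ⟨false,1,⟨1,[(8,1),(29,0),(0,0)]⟩,⟨11,[(2,
  0),(1,1),(2,5),(4,1),(9,1),(14,8),(1,0)]⟩⟩ ⟨true,0,⟨0,[(19,0),(16,0)]⟩,⟨0,[(0,0),(1,0),(19,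
  0)]⟩⟩]⟩))) (.Q [0,0,2,0,-1,0,0,0,0,1] (.pp false [-1,1]) (.S ⟨1,0,[0,1,-1,-1],[1,-1],[0,0,1],(⟨0,
  [(28,0)]⟩,⟨0,[(29,0)]⟩),⟨0,[(12,0),(0,0)]⟩,.k,(.r (-2) ⟨3,[(10,3),(3,0),(0,0),(14,1),(6,2)]⟩ ⟨0,
  [(2,0),(33,0)]⟩),⟨false,0,⟨3,[(0,0),(1,1),(0,1),(7,0),(26,2)]⟩,⟨0,[(1,0)]⟩⟩,⟨true,0,⟨0,[(40,0)]⟩,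
  ⟨0,[]⟩⟩,⟨true,(-1),⟨0,[(2,0),(33,0)]⟩,⟨0,[(1,0),(33,0)]⟩⟩,⟨false,0,⟨0,[(36,0)]⟩,⟨3,[(10,1),(3,0),
  (0,0),(22,0)]⟩⟩,[.o ⟨false,0,⟨0,[(35,0)]⟩,⟨15,[(3,1),(7,0),(20,2),(3,13),(0,0),(0,8)]⟩⟩,.e ⟨true,
  0,⟨0,[(31,0)]⟩,⟨0,[(40,0)]⟩⟩ ⟨true,1,⟨7,[(10,3),(3,0),(0,0),(14,1),(6,2)]⟩,⟨0,[(2,0)]⟩⟩,.o ⟨false,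
  0,⟨15,[(0,3),(2,3),(6,1),(3,0),(0,0),(6,3),(15,0)]⟩,⟨9,[(14,0),(0,0),(16,1),(4,4)]⟩⟩,.a ⟨true,
  (-1),⟨0,[(0,0)]⟩,⟨0,[(37,0)]⟩⟩ ⟨false,1,⟨1,[(14,0),(0,0),(22,0)]⟩,⟨0,[]⟩⟩ ⟨true,1,⟨2,[(1,0),(8,0),
  (19,1),(6,0)]⟩,⟨0,[(2,0)]⟩⟩]⟩) (.R ⟨1,false,false,true,[0,0,1],[1,-1],[1,0,0,-1,0,0,0,1],(⟨0,[(24,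
  0)]⟩,⟨0,[(23,0)]⟩),(⟨0,[(28,0)]⟩,⟨0,[(29,0)]⟩),⟨0,[(13,0)]⟩,.k,.k,.k,.k,.k,.k,⟨true,0,⟨1,[(2,0),
  (4,1),(28,0),(1,0)]⟩,⟨1,[(6,0),(23,0)]⟩⟩,⟨false,0,⟨1,[(11,0),(6,0),(2,0)]⟩,⟨0,[(0,0),(20,0)]⟩⟩,
  ⟨false,1,⟨3,[(10,1),(3,0),(0,0),(22,0)]⟩,⟨0,[(36,0)]⟩⟩,⟨false,0,⟨0,[(4,0),(13,0),(2,0)]⟩,⟨0,[(0,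
  0),(1,0),(16,0),(18,0)]⟩⟩,⟨true,0,⟨0,[]⟩,⟨0,[(40,0)]⟩⟩,⟨false,0,⟨3,[(6,1),(4,0),(6,2),(2,0)]⟩,⟨0,
  [(0,0),(18,0),(11,1)]⟩⟩,[.o ⟨false,0,⟨0,[(35,0)]⟩,⟨15,[(3,1),(7,0),(20,2),(3,13),(0,0),(0,8)]⟩⟩,
  .o ⟨false,1,⟨1,[(10,0),(3,0),(0,0),(24,0)]⟩,⟨0,[(0,0),(1,0)]⟩⟩,.o ⟨false,1,⟨13,[(1,6),(1,8),(6,0),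
  (10,4),(10,0),(5,3)]⟩,⟨11,[(4,1),(0,3),(1,1),(3,0),(6,3),(13,0),(5,1)]⟩⟩,.a ⟨true,0,⟨0,[(21,0)]⟩,
  ⟨0,[(18,0)]⟩⟩ ⟨false,1,⟨1,[(7,1),(29,0),(0,0)]⟩,⟨11,[(2,0),(0,1),(2,5),(4,1),(9,1),(14,8),(1,
  0)]⟩⟩ ⟨true,0,⟨0,[(18,0),(16,0)]⟩,⟨0,[(0,0),(1,0),(18,0)]⟩⟩]⟩)))

theorem ok7 : chk K t7 l9 = true := by decide +kernel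

noncomputable def t8 : Tre :=
  (.I [0,0,2,0,-1,2] (.I [1,0,-2,-2,1] (.Q [0,0,0,-3,0,0,0,0,0,1] (.pp false [-1,1]) (.Q [0,0,2,-1,
  -1,0,0,0,0,1] (.pp false [-1,1]) (.R ⟨1,false,false,false,[1,-1],[0,1],[0,1,-1,-1],(⟨0,[(30,0)]⟩,
  ⟨0,[(31,0)]⟩),(⟨0,[(31,0)]⟩,⟨0,[(30,0)]⟩),⟨0,[(14,0),(0,0)]⟩,.k,.k,(.x 1 ⟨0,[(3,0)]⟩ ⟨4,[(16,0),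
  (0,0),(12,9),(3,1),(4,4)]⟩),(.x 1 ⟨0,[(3,0)]⟩ ⟨4,[(16,0),(0,0),(12,9),(3,1),(4,4)]⟩),(.r (-2) ⟨5,
  [(2,4),(9,3),(19,1),(6,2)]⟩ ⟨0,[(7,0),(15,0),(9,0),(4,1)]⟩),.k,⟨true,1,⟨2,[(2,1),(9,0),(19,1)]⟩,
  ⟨0,[(3,0),(23,1),(5,0),(4,1)]⟩⟩,⟨false,2,⟨9,[(16,0),(0,0),(16,1),(4,14)]⟩,⟨0,[(0,0),(37,0)]⟩⟩,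
  ⟨true,0,⟨0,[(42,0)]⟩,⟨0,[]⟩⟩,⟨false,1,⟨15,[(5,1),(7,0),(20,2),(3,29),(0,0),(0,8)]⟩,⟨2,[(1,1),(18,
  0),(2,0)]⟩⟩,⟨false,0,⟨0,[(38,0)]⟩,⟨3,[(12,1),(3,0),(0,0),(22,0)]⟩⟩,⟨false,1,⟨15,[(5,1),(7,0),(20,
  2),(3,45),(0,0),(0,8)]⟩,⟨0,[(1,0)]⟩⟩,[.a ⟨true,0,⟨0,[(38,0)]⟩,⟨2,[(1,0),(18,1),(2,1)]⟩⟩ ⟨false,1,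
  ⟨5,[(2,0),(9,1),(19,3),(6,2)]⟩,⟨0,[(33,0),(4,0)]⟩⟩ ⟨true,1,⟨15,[(5,1),(7,0),(20,2),(3,13),(0,8),
  (0,0)]⟩,⟨0,[(0,0)]⟩⟩,.o ⟨false,1,⟨15,[(5,1),(7,0),(20,2),(3,13),(0,0),(0,8)]⟩,⟨0,[(37,0)]⟩⟩,.o
  ⟨false,0,⟨1,[(23,0),(0,0)]⟩,⟨9,[(16,0),(0,0),(16,1),(4,4)]⟩⟩,.e ⟨false,1,⟨0,[(4,0)]⟩,⟨0,[(7,0),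
  (15,0),(16,0)]⟩⟩ ⟨false,2,⟨15,[(5,1),(7,0),(20,2),(3,13),(0,16),(0,8)]⟩,⟨0,[(0,0)]⟩⟩]⟩) (.I [0,0,
  0,0,1,0,0,0,-1] (.I [0,0,1,-1,0,0,0,-1] (.I [0,0,0,-1,0,-1,-1,-1] (.I [0,0,-1,1,1,-1,1] (.I [0,1,
  2,1,-1] (.I [0,0,-2,-2,1] (.C [(0,0),(5,1),(2,2),(10,1),(0,1),(11,1)]) (.C [(0,0),(5,0),(0,0)]))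
  (.C [(0,1),(7,0),(1,0),(1,0),(6,0),(0,0)])) (.C [(0,0),(3,0),(13,0),(8,0)])) (.C [(0,0),(8,0),(8,
  0)])) (.C [(0,0),(7,0),(16,0)])) (.C [(0,0),(16,0),(2,0)]))) (.I [0,0,0,0,1,0,0,0,-1] (.I [0,0,1,
  -1,0,0,0,-1] (.I [0,0,0,3,0,0,0,0,1] (.I [0,0,0,-1,0,-1,-1,-1] (.I [0,0,0,3,0,-2] (.C [(0,0),(4,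
  0),(0,2),(0,2),(10,0),(0,0),(11,1)]) (.C [(0,0),(4,0),(12,0),(0,0)])) (.C [(0,0),(8,0),(8,0)]))
  (.C [(0,0),(2,0),(15,0),(0,0)])) (.C [(0,0),(6,0),(16,0)])) (.C [(0,0),(15,0),(2,0)]))) (.S ⟨1,0,
  [0,1,-1,-1],[1,-1],[1,0,-1,-2],(⟨0,[(28,0)]⟩,⟨0,[(29,0)]⟩),⟨0,[(12,0),(0,0)]⟩,.k,(.r (-2) ⟨3,[(10,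
  3),(3,0),(0,0),(14,1),(6,2)]⟩ ⟨0,[(0,0)]⟩),⟨false,1,⟨3,[(10,1),(3,0),(0,0),(22,0)]⟩,⟨0,[(36,0)]⟩⟩,
  ⟨true,0,⟨0,[(40,0)]⟩,⟨0,[]⟩⟩,⟨true,0,⟨0,[]⟩,⟨0,[(40,0)]⟩⟩,⟨false,0,⟨0,[(36,0)]⟩,⟨3,[(10,1),(3,0),
  (0,0),(22,0)]⟩⟩,[.o ⟨false,0,⟨0,[(35,0)]⟩,⟨15,[(0,6),(2,1),(7,0),(20,2),(4,7),(0,8)]⟩⟩,.a ⟨true,0,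
  ⟨0,[(1,0),(0,0),(22,0),(2,0)]⟩,⟨0,[(36,0)]⟩⟩ ⟨true,1,⟨0,[(1,0),(0,1),(22,1),(5,0)]⟩,⟨0,[(0,0),(39,
  0)]⟩⟩ ⟨false,1,⟨0,[(2,0)]⟩,⟨1,[(0,0),(13,0),(0,0)]⟩⟩,.o ⟨false,0,⟨1,[(21,0),(0,0)]⟩,⟨9,[(14,0),(0,
  0),(16,1),(4,4)]⟩⟩,.e ⟨false,2,⟨0,[(10,0),(26,0)]⟩,⟨0,[(0,0)]⟩⟩ ⟨false,1,⟨0,[(2,0)]⟩,⟨1,[(0,0),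
  (20,0),(0,0),(15,0)]⟩⟩]⟩)) (.Q [0,1,0,1,0,0,0,0,0,-1] (.pp true [-1,1]) (.Q [0,1,0,-1,0,0,1,1,0,0,
  1] (.p true [0,0,1] [] (⟨0,[(24,0)]⟩,⟨0,[(23,0)]⟩) .k 0 (⟨0,[]⟩,⟨0,[]⟩) .k .k) (.I [1,0,-2,-2,1]
  (.Q [0,0,1,0,-1,0,-1,0,0,1,-1] (.p false [0,0,1] [1] (⟨0,[(26,0)]⟩,⟨0,[(25,0)]⟩) .k 1 (⟨0,[]⟩,⟨0,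
  []⟩) .k .k) (.I [0,0,-2,-2,1] (.S ⟨1,0,[0,0,-1,-1],[1,-1],[1,1,-1,-2],(⟨0,[(32,0)]⟩,⟨0,[(33,0)]⟩),
  ⟨0,[(16,0),(0,0)]⟩,.k,(.r (-1) ⟨0,[(0,0)]⟩ ⟨1,[(7,0),(1,0),(5,0),(9,1),(14,1),(1,0)]⟩),⟨true,0,⟨0,
  [(39,0)]⟩,⟨0,[(40,0)]⟩⟩,⟨false,1,⟨1,[(18,0),(0,0),(22,0)]⟩,⟨0,[]⟩⟩,⟨false,0,⟨0,[]⟩,⟨1,[(18,0),(0,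
  0),(22,0)]⟩⟩,⟨true,0,⟨0,[(40,0)]⟩,⟨0,[(39,0)]⟩⟩,[.e ⟨false,1,⟨2,[(2,1),(11,0),(19,1)]⟩,⟨0,[(35,0),
  (4,1)]⟩⟩ ⟨false,1,⟨0,[(6,0)]⟩,⟨3,[(7,0),(1,0),(5,0),(9,1),(14,1),(1,0)]⟩⟩,.o ⟨false,1,⟨3,[(14,1),
  (3,0),(0,0),(22,0)]⟩,⟨0,[(4,0)]⟩⟩,.o ⟨false,0,⟨1,[(25,0),(0,0)]⟩,⟨9,[(18,0),(0,0),(16,1),(4,4)]⟩⟩,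
  .a ⟨true,(-1),⟨0,[(1,0),(23,0)]⟩,⟨0,[(41,0)]⟩⟩ ⟨false,1,⟨0,[(2,0)]⟩,⟨0,[(9,0),(15,0),(14,0),(1,
  0)]⟩⟩ ⟨true,1,⟨0,[(6,0)]⟩,⟨0,[(9,0),(15,0)]⟩⟩]⟩) (.Q [0,0,0,0,0,2,0,0,0,-1,1] (.p true [0,0,1]
  [1] (⟨0,[(28,0)]⟩,⟨0,[(27,0)]⟩) .k 1 (⟨0,[]⟩,⟨0,[]⟩) .k .k) (.R ⟨0,false,false,true,[1,-1,-1],[1,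
  -1],[],(⟨0,[(17,0)]⟩,⟨0,[(0,0),(32,0)]⟩),(⟨0,[(33,0)]⟩,⟨0,[(34,0)]⟩),⟨0,[(0,0)]⟩,.k,.k,(.r (-2)
  ⟨1,[(11,0),(3,1),(19,0),(6,1)]⟩ ⟨0,[(1,0),(10,0),(28,0)]⟩),.k,.k,.k,⟨true,0,⟨1,[(1,0),(41,0)]⟩,⟨0,
  [(40,0)]⟩⟩,⟨false,1,⟨0,[(26,0),(15,0)]⟩,⟨23,[(2,8),(3,0),(9,3),(6,6),(7,1),(5,3)]⟩⟩,⟨false,0,⟨1,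
  [(1,0),(10,1),(28,1),(1,0)]⟩,⟨5,[(3,0),(7,2),(3,1),(19,0),(6,2)]⟩⟩,⟨true,0,⟨0,[(24,0)]⟩,⟨0,[(13,
  0)]⟩⟩,⟨false,0,⟨0,[]⟩,⟨0,[]⟩⟩,⟨false,0,⟨0,[]⟩,⟨0,[]⟩⟩,[.o ⟨false,0,⟨0,[(40,0)]⟩,⟨0,[(5,0),(37,
  0)]⟩⟩,.a ⟨true,0,⟨3,[(0,0),(1,1),(0,1),(22,1),(1,0),(4,1)]⟩,⟨0,[(41,0)]⟩⟩ ⟨false,1,⟨1,[(42,0),(0,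
  0)]⟩,⟨0,[(45,0)]⟩⟩ ⟨true,1,⟨1,[(3,0),(22,1),(15,0)]⟩,⟨6,[(1,2),(0,4),(7,0),(16,0),(8,0),(0,0)]⟩⟩,
  .e ⟨false,1,⟨1,[(19,0),(0,0),(22,0)]⟩,⟨0,[]⟩⟩ ⟨false,1,⟨1,[(3,0),(22,1),(15,0)]⟩,⟨0,[(10,0),(32,
  0)]⟩⟩,.o ⟨false,(-1),⟨0,[(1,0),(7,0),(2,0)]⟩,⟨13,[(8,3),(6,1),(10,9),(10,1),(4,20),(0,0)]⟩⟩]⟩)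
  (.I [0,0,-2,0,1,-2] (.N [0,2] 1 ⟨0,[(2,0)]⟩ ⟨0,[(4,0)]⟩ (.x (-1) ⟨0,[(0,0)]⟩ ⟨0,[(27,0),(0,0),(3,
  1)]⟩)) (.Q [0,0,0,0,0,0,0,0,1,-1,0,1] (.p true [0,0,0,0,1] [1] (⟨0,[(23,0)]⟩,⟨0,[(22,0)]⟩) .k 1
  (⟨0,[]⟩,⟨0,[]⟩) .k .k) (.Q [0,0,-1,0,0,0,0,0,1,-1,0,1] (.p true [0,0,0,0,1] [1] (⟨0,[(24,0)]⟩,⟨0,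
  [(23,0)]⟩) .k 1 (⟨0,[]⟩,⟨0,[]⟩) .k .k) (.Q [0,0,0,0,0,-1,0,0,0,1,0,-1] (.ed true [0,1,0,0,1] .k)
  (.R ⟨1,false,false,false,[1,0,0,0,-1],[0,1],[-1,1],(⟨0,[(25,0)]⟩,⟨0,[(26,0)]⟩),(⟨0,[(38,0)]⟩,⟨0,
  [(37,0)]⟩),⟨0,[(0,0)]⟩,.k,.k,(.r (-1) ⟨13,[(19,6),(3,0),(0,0),(14,1),(6,5),(2,2)]⟩ ⟨1,[(5,0),(17,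
  0),(0,0)]⟩),(.r (-1) ⟨13,[(19,6),(3,0),(0,0),(14,1),(6,5),(2,2)]⟩ ⟨1,[(5,0),(17,0),(0,0)]⟩),(.r
  (-2) ⟨3,[(19,3),(3,0),(0,0),(14,1),(6,2)]⟩ ⟨0,[(5,0)]⟩),.k,⟨false,1,⟨5,[(7,0),(11,1),(19,3),(6,
  2)]⟩,⟨1,[(5,0),(41,0)]⟩⟩,⟨true,0,⟨0,[(1,0)]⟩,⟨0,[(6,0),(16,0),(6,0)]⟩⟩,⟨true,0,⟨0,[(49,0)]⟩,⟨0,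
  []⟩⟩,⟨false,0,⟨1,[(1,1),(3,0),(41,0)]⟩,⟨1,[(6,0),(0,0),(15,1),(6,0),(4,0),(1,0)]⟩⟩,⟨false,0,⟨0,
  [(45,0)]⟩,⟨3,[(19,1),(3,0),(0,0),(22,0)]⟩⟩,⟨false,0,⟨1,[(1,1),(3,0),(39,1),(1,0)]⟩,⟨1,[(3,0),(0,
  0),(1,0),(0,1),(14,0),(0,1),(6,0),(4,0)]⟩⟩,[.a ⟨true,0,⟨0,[(45,0)]⟩,⟨1,[(3,0),(3,0),(29,1)]⟩⟩
  ⟨true,0,⟨0,[(49,0)]⟩,⟨0,[(40,0)]⟩⟩ ⟨false,0,⟨0,[(1,0),(43,0)]⟩,⟨1,[(3,0),(3,0),(15,1),(13,1)]⟩⟩,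
  .o ⟨false,1,⟨0,[(9,0),(37,0)]⟩,⟨0,[(44,0)]⟩⟩,.o ⟨false,1,⟨0,[(23,0)]⟩,⟨0,[(2,0)]⟩⟩,.o ⟨false,1,⟨1,
  [(23,1),(6,0),(0,0)]⟩,⟨0,[(1,0)]⟩⟩]⟩) (.R ⟨0,false,false,false,[1,0,0,0,-1],[0,1],[1],(⟨0,[(25,
  0)]⟩,⟨0,[(26,0)]⟩),(⟨0,[(38,0)]⟩,⟨0,[(37,0)]⟩),⟨0,[(0,0)]⟩,.k,.k,(.r (-1) ⟨13,[(19,6),(3,0),(0,0),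
  (14,1),(6,5),(2,2)]⟩ ⟨1,[(5,0),(17,0),(0,0)]⟩),(.r (-1) ⟨13,[(19,6),(3,0),(0,0),(14,1),(6,5),(2,
  2)]⟩ ⟨1,[(5,0),(17,0),(0,0)]⟩),.k,.k,⟨false,1,⟨1,[(7,0),(38,0)]⟩,⟨1,[(5,0),(17,0),(0,0)]⟩⟩,⟨true,
  0,⟨0,[(1,0)]⟩,⟨0,[(6,0),(16,0),(6,0)]⟩⟩,⟨true,0,⟨0,[]⟩,⟨0,[(49,0)]⟩⟩,⟨false,0,⟨1,[(1,1),(3,0),(41,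
  0)]⟩,⟨1,[(6,0),(0,0),(15,1),(6,0),(4,0),(1,0)]⟩⟩,⟨false,0,⟨0,[]⟩,⟨0,[]⟩⟩,⟨false,0,⟨0,[]⟩,⟨0,[]⟩⟩,
  [.a ⟨true,0,⟨0,[(45,0)]⟩,⟨1,[(3,0),(3,0),(29,1)]⟩⟩ ⟨true,0,⟨0,[]⟩,⟨1,[(30,0),(0,0)]⟩⟩ ⟨false,0,⟨0,
  [(1,0),(43,0)]⟩,⟨1,[(3,0),(3,0),(15,1),(13,1)]⟩⟩,.o ⟨false,1,⟨0,[(9,0),(37,0)]⟩,⟨0,[(44,0)]⟩⟩,.o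
  ⟨false,1,⟨0,[(23,0)]⟩,⟨0,[(2,0)]⟩⟩,.o ⟨false,1,⟨1,[(23,1),(6,0),(0,0)]⟩,⟨0,[(1,0)]⟩⟩]⟩)) (.Q [0,1,
  -1,-1,1,0,1,1,-1,0,1,-1] (.p true [0,0,1] [0,0,0,0,1] (⟨0,[(32,0)]⟩,⟨0,[(31,0)]⟩) .k 2 (⟨0,[(25,
  0)]⟩,⟨0,[(24,0)]⟩) .k (.r 0 ⟨1,[(4,0),(4,0),(5,1),(18,1)]⟩ ⟨3,[(14,1),(7,2),(0,2),(21,0)]⟩)) (.Q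
  [1,-1,0,0,0,0,0,0,1,0,0,1] (.p true [0,0,0,0,1] [] (⟨0,[(26,0)]⟩,⟨0,[(25,0)]⟩) .k 0 (⟨0,[]⟩,⟨0,
  []⟩) .k .k) (.Q [0,0,-1,0,1,0,0,0,-1,0,0,-1] (.p false [0,0,0,0,1] [] (⟨0,[(27,0)]⟩,⟨0,[(26,0)]⟩)
  .k 0 (⟨0,[]⟩,⟨0,[]⟩) .k .k) (.Q [0,0,0,0,0,-1,0,0,0,0,0,1] (.ed false [1,-1,0,0,1] .k) (.R ⟨1,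
  false,false,false,[0,0,0,0,1],[0,1],[1],(⟨0,[(29,0)]⟩,⟨0,[(28,0)]⟩),(⟨0,[(41,0)]⟩,⟨0,[(40,0)]⟩),
  ⟨0,[(0,0)]⟩,.k,.k,(.r (-1) ⟨7,[(22,3),(3,0),(0,0),(14,1),(6,2)]⟩ ⟨9,[(8,4),(17,2),(0,2),(22,1),(1,
  3)]⟩),(.r (-1) ⟨7,[(22,3),(3,0),(0,0),(14,1),(6,2)]⟩ ⟨9,[(8,4),(17,2),(0,2),(22,1),(1,3)]⟩),(.r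
  (-1) ⟨0,[(10,0)]⟩ ⟨4,[(8,4),(17,3),(0,3),(22,0),(1,1)]⟩),.k,⟨false,1,⟨1,[(10,0),(38,0)]⟩,⟨1,[(8,
  0),(17,0),(0,0)]⟩⟩,⟨true,1,⟨0,[(1,0)]⟩,⟨0,[(5,0),(3,0),(23,0)]⟩⟩,⟨false,1,⟨1,[(26,0),(0,0),(22,
  0)]⟩,⟨0,[]⟩⟩,⟨false,1,⟨2,[(1,2),(6,0),(34,0),(4,0),(1,0)]⟩,⟨0,[(2,0),(44,0)]⟩⟩,⟨true,0,⟨0,[(48,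
  0)]⟩,⟨0,[(47,0)]⟩⟩,⟨false,1,⟨1,[(1,1),(6,0),(39,1),(1,0)]⟩,⟨0,[(2,0),(8,0),(4,0)]⟩⟩,[.a ⟨true,0,
  ⟨0,[(48,0)]⟩,⟨1,[(6,0),(3,0),(29,1)]⟩⟩ ⟨true,0,⟨0,[]⟩,⟨1,[(33,0),(0,0)]⟩⟩ ⟨false,1,⟨0,[(1,0),(46,
  0)]⟩,⟨0,[(2,0),(44,0)]⟩⟩,.o ⟨false,1,⟨0,[(12,0),(37,0)]⟩,⟨0,[(47,0)]⟩⟩,.o ⟨false,0,⟨0,[(5,0)]⟩,⟨0,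
  [(26,0)]⟩⟩,.o ⟨false,0,⟨1,[(5,1),(27,0),(0,0)]⟩,⟨0,[(1,0)]⟩⟩]⟩) (.R ⟨0,false,false,false,[0,0,0,0,
  1],[0,1],[2],(⟨0,[(29,0)]⟩,⟨0,[(28,0)]⟩),(⟨0,[(41,0)]⟩,⟨0,[(40,0)]⟩),⟨0,[(0,0)]⟩,.k,.k,(.r (-1)
  ⟨7,[(22,3),(3,0),(0,0),(14,1),(6,2)]⟩ ⟨9,[(8,4),(17,2),(0,2),(22,1),(1,3)]⟩),(.r (-1) ⟨7,[(22,3),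
  (3,0),(0,0),(14,1),(6,2)]⟩ ⟨9,[(8,4),(17,2),(0,2),(22,1),(1,3)]⟩),.k,.k,⟨false,1,⟨1,[(10,0),(38,
  0)]⟩,⟨9,[(8,4),(17,2),(0,2),(22,1),(1,3)]⟩⟩,⟨true,1,⟨0,[(1,0)]⟩,⟨0,[(5,0),(3,0),(23,0)]⟩⟩,⟨true,0,
  ⟨0,[]⟩,⟨0,[(52,0)]⟩⟩,⟨false,1,⟨2,[(1,2),(6,0),(34,0),(4,0),(1,0)]⟩,⟨0,[(2,0),(44,0)]⟩⟩,⟨false,0,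
  ⟨0,[]⟩,⟨0,[]⟩⟩,⟨false,0,⟨0,[]⟩,⟨0,[]⟩⟩,[.a ⟨true,0,⟨0,[(48,0)]⟩,⟨1,[(6,0),(3,0),(29,1)]⟩⟩ ⟨true,0,
  ⟨0,[]⟩,⟨0,[(51,0)]⟩⟩ ⟨false,1,⟨0,[(1,0),(46,0)]⟩,⟨0,[(2,0),(44,0)]⟩⟩,.o ⟨false,1,⟨0,[(12,0),(37,
  0)]⟩,⟨0,[(47,0)]⟩⟩,.o ⟨false,0,⟨0,[(5,0)]⟩,⟨0,[(26,0)]⟩⟩,.o ⟨false,0,⟨1,[(5,1),(27,0),(0,0)]⟩,⟨0,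
  [(1,0)]⟩⟩]⟩)) (.Q [0,0,0,0,0,-1,0,0,0,0,0,1] (.ed false [1,-1,0,0,1] .k) (.R ⟨1,false,false,false,
  [0,0,0,0,1],[1,-1],[],(⟨0,[(29,0)]⟩,⟨0,[(28,0)]⟩),(⟨0,[(40,0)]⟩,⟨0,[(41,0)]⟩),⟨0,[(0,0)]⟩,.k,.k,
  (.r (-1) ⟨7,[(22,3),(3,0),(0,0),(14,1),(6,2)]⟩ ⟨9,[(8,4),(17,2),(0,2),(22,1),(1,3)]⟩),(.r 0 ⟨1,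
  [(8,0),(17,0),(0,0)]⟩ ⟨13,[(22,6),(3,0),(0,0),(14,1),(6,5),(2,2)]⟩),.k,.k,⟨false,0,⟨0,[(48,0)]⟩,
  ⟨7,[(22,3),(3,0),(0,0),(14,1),(6,2)]⟩⟩,⟨true,0,⟨0,[(4,0)]⟩,⟨0,[(5,0)]⟩⟩,⟨false,1,⟨4,[(26,1),(0,1),
  (22,2),(1,0)]⟩,⟨0,[]⟩⟩,⟨false,1,⟨2,[(4,2),(5,0),(3,0),(28,0),(6,0)]⟩,⟨0,[(2,0),(9,0)]⟩⟩,⟨true,0,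
  ⟨1,[(8,0),(4,0),(24,1)]⟩,⟨0,[(47,0)]⟩⟩,⟨false,1,⟨1,[(4,1),(44,0),(0,0)]⟩,⟨0,[(5,0)]⟩⟩,[.e ⟨false,
  1,⟨1,[(26,0),(0,0),(21,0)]⟩,⟨0,[]⟩⟩ ⟨false,1,⟨1,[(4,1),(5,0),(38,0)]⟩,⟨1,[(2,0),(2,0),(6,0),(35,
  0)]⟩⟩,.o ⟨false,1,⟨3,[(22,1),(3,0),(0,0),(22,0)]⟩,⟨0,[(12,0)]⟩⟩,.o ⟨false,0,⟨0,[(5,0)]⟩,⟨0,[(26,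
  0)]⟩⟩,.a ⟨true,(-1),⟨0,[(1,0)]⟩,⟨0,[(4,0),(44,0)]⟩⟩ ⟨false,1,⟨1,[(49,0),(0,0)]⟩,⟨1,[(33,0),(0,
  0)]⟩⟩ ⟨true,1,⟨1,[(4,1),(5,0),(38,0)]⟩,⟨0,[(1,0),(10,0)]⟩⟩]⟩) (.R ⟨1,false,false,false,[1,0,0,0,
  -1],[1,-1],[1,0,0,-1],(⟨0,[(28,0)]⟩,⟨0,[(29,0)]⟩),(⟨0,[(40,0)]⟩,⟨0,[(41,0)]⟩),⟨1,[(0,0),(6,0),(17,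
  0),(2,0)]⟩,.k,.k,(.r (-1) ⟨13,[(22,6),(3,0),(0,0),(14,1),(6,5),(2,2)]⟩ ⟨1,[(8,0),(17,0),(0,0)]⟩),
  (.r 0 ⟨9,[(8,4),(17,2),(0,2),(22,1),(1,3)]⟩ ⟨7,[(22,3),(3,0),(0,0),(14,1),(6,2)]⟩),.k,.k,⟨false,0,
  ⟨0,[]⟩,⟨1,[(26,0),(0,0),(21,0)]⟩⟩,⟨true,(-1),⟨0,[(1,0)]⟩,⟨0,[(26,0)]⟩⟩,⟨false,1,⟨3,[(22,1),(3,0),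
  (0,0),(22,0)]⟩,⟨1,[(8,0),(4,0),(24,1)]⟩⟩,⟨false,0,⟨1,[(1,0),(0,0),(7,0),(32,0)]⟩,⟨0,[(26,0),(21,
  0)]⟩⟩,⟨true,0,⟨0,[]⟩,⟨0,[(52,0)]⟩⟩,⟨false,0,⟨0,[(2,0)]⟩,⟨13,[(4,4),(8,2),(12,8),(11,5),(4,0),(0,
  0),(7,0)]⟩⟩,[.e ⟨false,1,⟨7,[(22,3),(3,0),(0,0),(14,1),(6,2)]⟩,⟨0,[(48,0)]⟩⟩ ⟨false,0,⟨1,[(1,1),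
  (8,0),(38,0)]⟩,⟨0,[(26,0),(21,0)]⟩⟩,.o ⟨false,1,⟨3,[(22,1),(3,0),(0,0),(22,0)]⟩,⟨0,[(12,0)]⟩⟩,.o
  ⟨false,1,⟨0,[(26,0)]⟩,⟨0,[(5,0)]⟩⟩,.a ⟨true,0,⟨0,[(4,0)]⟩,⟨0,[(1,0),(47,0)]⟩⟩ ⟨false,1,⟨1,[(10,0),
  (39,0)]⟩,⟨1,[(8,0),(17,0),(0,0)]⟩⟩ ⟨true,0,⟨1,[(1,1),(8,0),(38,0)]⟩,⟨0,[(4,0),(7,0)]⟩⟩]⟩))) (.Q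
  [1,-1,0,0,0,0,-1,-1,1,0,-1,1] (.p false [0,0,1] [0,0,0,0,1] (⟨0,[(34,0)]⟩,⟨0,[(33,0)]⟩) .k 2 (⟨0,
  [(27,0)]⟩,⟨0,[(26,0)]⟩) .k (.r 0 ⟨1,[(6,0),(4,0),(5,1),(18,1)]⟩ ⟨3,[(16,1),(7,2),(0,2),(21,0)]⟩))
  (.R ⟨1,false,false,false,[0,0,1],[0,0,0,0,1],[0,0,0,0,0,0,0,1],(⟨0,[(35,0)]⟩,⟨0,[(34,0)]⟩),(⟨0,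
  [(28,0)]⟩,⟨0,[(27,0)]⟩),⟨0,[(24,0)]⟩,.k,.k,.k,.k,(.r (-1) ⟨1,[(9,0),(10,1),(28,0)]⟩ ⟨3,[(7,0),(9,
  1),(7,0),(0,0),(20,1)]⟩),.k,⟨true,0,⟨1,[(7,0),(4,0),(5,1),(18,1)]⟩,⟨3,[(17,1),(14,0),(0,0)]⟩⟩,
  ⟨false,0,⟨0,[(4,0),(24,0)]⟩,⟨1,[(1,1),(30,1),(15,0),(0,0)]⟩⟩,⟨false,1,⟨1,[(25,0),(0,0),(22,0)]⟩,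
  ⟨0,[]⟩⟩,⟨false,0,⟨0,[(0,0)]⟩,⟨2,[(1,0),(0,1),(4,0),(22,0),(18,1)]⟩⟩,⟨true,0,⟨0,[(47,0)]⟩,⟨0,[(46,
  0)]⟩⟩,⟨false,0,⟨0,[(0,0),(46,0)]⟩,⟨0,[(2,0),(39,0)]⟩⟩,[.o ⟨false,0,⟨0,[(4,0)]⟩,⟨3,[(1,0),(23,2),
  (23,0),(1,0)]⟩⟩,.o ⟨false,1,⟨9,[(25,0),(0,10),(16,1),(5,4)]⟩,⟨0,[(1,0)]⟩⟩,.o ⟨false,1,⟨13,[(14,3),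
  (6,1),(10,9),(10,1),(4,6),(0,0)]⟩,⟨23,[(8,8),(3,0),(9,3),(6,6),(7,1),(5,3)]⟩⟩,.a ⟨true,0,⟨0,[(32,
  0)]⟩,⟨0,[(29,0)]⟩⟩ ⟨false,1,⟨1,[(18,1),(28,1),(0,0),(0,0)]⟩,⟨3,[(17,1),(14,0),(0,0)]⟩⟩ ⟨true,0,⟨0,
  [(4,0),(24,0)]⟩,⟨0,[(1,0),(30,0)]⟩⟩]⟩) (.S ⟨1,0,[0,0,0,0,0,0,0,1],[0,0,1],[1,1,0,-1,0,0,0,1],(⟨0,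
  [(35,0)]⟩,⟨0,[(34,0)]⟩),⟨0,[(24,0)]⟩,.k,.k,⟨true,0,⟨0,[(46,0)]⟩,⟨0,[(47,0)]⟩⟩,⟨false,1,⟨1,[(25,0),
  (0,0),(22,0)]⟩,⟨0,[]⟩⟩,⟨false,0,⟨0,[]⟩,⟨1,[(25,0),(0,0),(22,0)]⟩⟩,⟨true,0,⟨0,[(47,0)]⟩,⟨0,[(46,
  0)]⟩⟩,[.o ⟨false,1,⟨10,[(2,0),(11,0),(5,0),(5,0),(3,8),(12,1),(5,5)]⟩,⟨0,[(19,0)]⟩⟩,.o ⟨false,1,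
  ⟨0,[(0,0),(3,0),(44,0)]⟩,⟨0,[(31,0)]⟩⟩,.o ⟨false,1,⟨13,[(14,3),(6,1),(10,9),(10,1),(4,6),(0,0)]⟩,
  ⟨23,[(8,8),(3,0),(9,3),(6,6),(7,1),(5,3)]⟩⟩,.a ⟨true,0,⟨0,[(32,0)]⟩,⟨0,[(29,0)]⟩⟩ ⟨true,0,⟨1,[(0,
  1),(3,1),(3,0),(0,0),(19,0)]⟩,⟨3,[(7,0),(9,1),(7,0),(0,0),(20,1)]⟩⟩ ⟨false,1,⟨1,[(18,1),(28,1),(0,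
  0),(0,0)]⟩,⟨3,[(17,1),(14,0),(0,0)]⟩⟩]⟩))) (.Q [0,0,0,0,0,-1,0,0,0,0,0,1] (.ed false [1,-1,0,0,1]
  .k) (.R ⟨1,false,false,false,[0,0,0,0,1],[1,-1],[],(⟨0,[(27,0)]⟩,⟨0,[(26,0)]⟩),(⟨0,[(38,0)]⟩,⟨0,
  [(39,0)]⟩),⟨0,[(0,0)]⟩,.k,.k,(.r (-1) ⟨7,[(20,3),(3,0),(0,0),(14,1),(6,2)]⟩ ⟨9,[(6,4),(17,2),(0,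
  2),(22,1),(1,3)]⟩),(.r 0 ⟨1,[(6,0),(17,0),(0,0)]⟩ ⟨13,[(20,6),(3,0),(0,0),(14,1),(6,5),(2,2)]⟩),
  .k,.k,⟨false,0,⟨0,[(46,0)]⟩,⟨7,[(20,3),(3,0),(0,0),(14,1),(6,2)]⟩⟩,⟨true,0,⟨0,[(2,0)]⟩,⟨0,[(3,
  0)]⟩⟩,⟨false,1,⟨4,[(24,1),(0,1),(22,2),(1,0)]⟩,⟨0,[]⟩⟩,⟨false,1,⟨2,[(2,2),(5,0),(3,0),(28,0),(6,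
  0)]⟩,⟨0,[(3,0),(42,0)]⟩⟩,⟨true,0,⟨1,[(6,0),(4,0),(24,1)]⟩,⟨0,[(45,0)]⟩⟩,⟨false,1,⟨1,[(2,1),(44,0),
  (0,0)]⟩,⟨0,[(3,0)]⟩⟩,[.e ⟨false,1,⟨1,[(24,0),(0,0),(21,0)]⟩,⟨0,[]⟩⟩ ⟨false,1,⟨1,[(2,1),(5,0),(38,
  0)]⟩,⟨0,[(3,0),(42,0)]⟩⟩,.o ⟨false,1,⟨3,[(20,1),(3,0),(0,0),(22,0)]⟩,⟨0,[(10,0)]⟩⟩,.o ⟨false,0,⟨0,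
  [(3,0)]⟩,⟨0,[(24,0)]⟩⟩,.a ⟨true,(-1),⟨0,[(1,0),(7,0)]⟩,⟨0,[(2,0),(44,0)]⟩⟩ ⟨false,1,⟨1,[(47,0),(0,
  0)]⟩,⟨1,[(31,0),(0,0)]⟩⟩ ⟨true,1,⟨1,[(2,1),(5,0),(38,0)]⟩,⟨0,[(1,0),(7,0),(0,0)]⟩⟩]⟩) (.R ⟨1,
  false,false,false,[1,0,0,0,-1],[1,-1],[1,0,0,-1],(⟨0,[(26,0)]⟩,⟨0,[(27,0)]⟩),(⟨0,[(38,0)]⟩,⟨0,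
  [(39,0)]⟩),⟨1,[(0,0),(4,0),(17,0),(2,0)]⟩,.k,.k,(.r (-1) ⟨13,[(20,6),(3,0),(0,0),(14,1),(6,5),(2,
  2)]⟩ ⟨1,[(6,0),(17,0),(0,0)]⟩),(.r 0 ⟨9,[(6,4),(17,2),(0,2),(22,1),(1,3)]⟩ ⟨7,[(20,3),(3,0),(0,0),
  (14,1),(6,2)]⟩),.k,.k,⟨false,0,⟨0,[]⟩,⟨1,[(24,0),(0,0),(21,0)]⟩⟩,⟨true,(-1),⟨0,[(1,0),(7,0)]⟩,⟨0,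
  [(24,0)]⟩⟩,⟨false,1,⟨3,[(20,1),(3,0),(0,0),(22,0)]⟩,⟨1,[(6,0),(4,0),(24,1)]⟩⟩,⟨false,0,⟨1,[(1,1),
  (6,0),(0,1),(38,0)]⟩,⟨0,[(24,0),(21,0)]⟩⟩,⟨true,0,⟨0,[]⟩,⟨0,[(50,0)]⟩⟩,⟨false,0,⟨1,[(1,1),(6,0),
  (20,1),(18,0)]⟩,⟨13,[(2,4),(8,2),(12,8),(11,5),(4,0),(0,0),(7,0)]⟩⟩,[.e ⟨false,1,⟨7,[(20,3),(3,0),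
  (0,0),(14,1),(6,2)]⟩,⟨0,[(46,0)]⟩⟩ ⟨false,0,⟨0,[(1,0),(6,0),(20,0)]⟩,⟨0,[(24,0),(21,0)]⟩⟩,.o
  ⟨false,1,⟨3,[(20,1),(3,0),(0,0),(22,0)]⟩,⟨0,[(10,0)]⟩⟩,.o ⟨false,1,⟨0,[(24,0)]⟩,⟨0,[(3,0)]⟩⟩,.a
  ⟨true,0,⟨0,[(2,0)]⟩,⟨1,[(1,1),(6,0),(20,1),(17,0)]⟩⟩ ⟨false,1,⟨1,[(8,0),(39,0)]⟩,⟨1,[(6,0),(17,0),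
  (0,0)]⟩⟩ ⟨true,0,⟨0,[(1,0),(6,0),(20,0)]⟩,⟨0,[(2,0),(7,0)]⟩⟩]⟩)))) (.Q [0,0,0,-1,0,0,0,0,1,0,0,1]
  (.p true [0,0,0,0,1] [] (⟨0,[(24,0)]⟩,⟨0,[(23,0)]⟩) .k 0 (⟨0,[]⟩,⟨0,[]⟩) .k .k) (.Q [0,0,0,0,0,-1,
  0,0,0,1,0,-1] (.ed true [0,1,0,0,1] .k) (.Q [-1,0,0,0,0,0,0,0,-1,1,0,-1] (.p false [0,0,0,0,1]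
  [1] (⟨0,[(26,0)]⟩,⟨0,[(25,0)]⟩) .k 1 (⟨0,[]⟩,⟨0,[]⟩) .k .k) (.R ⟨1,false,false,true,[1,0,0,0,-1],
  [1,-1],[-1],(⟨0,[(26,0)]⟩,⟨0,[(27,0)]⟩),(⟨0,[(38,0)]⟩,⟨0,[(39,0)]⟩),⟨0,[(1,0)]⟩,.k,.k,(.r (-1)
  ⟨13,[(20,6),(3,0),(0,0),(14,1),(6,5),(2,2)]⟩ ⟨1,[(6,0),(17,0),(0,0)]⟩),(.r 0 ⟨9,[(6,4),(17,2),(0,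
  2),(22,1),(1,3)]⟩ ⟨7,[(20,3),(3,0),(0,0),(14,1),(6,2)]⟩),.k,.k,⟨true,0,⟨1,[(6,0),(4,0),(24,1),(4,
  1)]⟩,⟨0,[(45,0)]⟩⟩,⟨false,0,⟨0,[(25,0)]⟩,⟨5,[(0,4),(23,0),(17,0),(4,2)]⟩⟩,⟨false,1,⟨1,[(24,0),(0,
  0),(22,0)]⟩,⟨0,[]⟩⟩,⟨false,0,⟨0,[(2,0)]⟩,⟨5,[(0,4),(23,0),(17,0),(3,5),(1,2)]⟩⟩,⟨true,0,⟨0,[(46,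
  0)]⟩,⟨0,[(45,0)]⟩⟩,⟨false,0,⟨0,[(25,0)]⟩,⟨5,[(0,4),(23,0),(17,0),(5,2)]⟩⟩,[.o ⟨false,0,⟨0,[(45,
  0)]⟩,⟨0,[(10,0),(37,0)]⟩⟩,.a ⟨true,0,⟨1,[(4,0),(3,0),(29,1)]⟩,⟨0,[(46,0)]⟩⟩ ⟨false,1,⟨0,[(11,0),
  (24,1),(4,0)]⟩,⟨0,[(50,0)]⟩⟩ ⟨true,0,⟨0,[(2,0)]⟩,⟨5,[(0,4),(5,2),(17,0),(17,0)]⟩⟩,.e ⟨false,1,⟨4,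
  [(24,1),(0,1),(22,2),(1,0)]⟩,⟨0,[]⟩⟩ ⟨false,0,⟨0,[(2,0)]⟩,⟨5,[(0,4),(23,0),(17,0),(3,5),(1,2)]⟩⟩,
  .o ⟨false,0,⟨3,[(0,3),(3,1),(0,0),(17,0),(11,0),(6,0)]⟩,⟨9,[(24,0),(0,10),(16,1),(4,4)]⟩⟩]⟩) (.S
  ⟨1,0,[-1],[1,0,0,0,-1],[0,1,0,-1],(⟨0,[(26,0)]⟩,⟨0,[(27,0)]⟩),⟨0,[(1,0)]⟩,.k,(.r (-1) ⟨13,[(20,6),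
  (3,0),(0,0),(14,1),(6,5),(2,2)]⟩ ⟨1,[(6,0),(17,0),(0,0)]⟩),⟨true,0,⟨0,[(45,0)]⟩,⟨0,[(46,0)]⟩⟩,
  ⟨false,1,⟨1,[(24,0),(0,0),(22,0)]⟩,⟨0,[]⟩⟩,⟨false,0,⟨0,[]⟩,⟨1,[(24,0),(0,0),(22,0)]⟩⟩,⟨true,0,⟨0,
  [(46,0)]⟩,⟨0,[(45,0)]⟩⟩,[.o ⟨false,1,⟨13,[(3,4),(20,8),(17,0),(5,2),(1,5)]⟩,⟨0,[(0,0)]⟩⟩,.o
  ⟨false,1,⟨14,[(3,14),(7,0),(24,1),(5,2),(5,7),(0,1),(0,0)]⟩,⟨15,[(0,8),(12,1),(1,1),(9,6),(14,3),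
  (1,0),(2,3)]⟩⟩,.a ⟨true,0,⟨0,[(3,0)]⟩,⟨0,[(25,0)]⟩⟩ ⟨true,0,⟨0,[(45,0)]⟩,⟨0,[(46,0)]⟩⟩ ⟨false,1,
  ⟨4,[(24,1),(0,1),(22,2),(1,0)]⟩,⟨0,[]⟩⟩,.e ⟨false,1,⟨7,[(20,3),(3,0),(0,0),(14,1),(6,2)]⟩,⟨1,[(6,
  0),(41,0)]⟩⟩ ⟨false,1,⟨0,[(11,0),(24,1),(4,0)]⟩,⟨1,[(31,0),(0,0)]⟩⟩]⟩)) (.Q [0,0,0,-1,0,0,0,0,-1,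
  1,0,-1] (.p false [0,0,0,0,1] [1] (⟨0,[(26,0)]⟩,⟨0,[(25,0)]⟩) .k 1 (⟨0,[]⟩,⟨0,[]⟩) .k .k) (.S ⟨1,
  0,[1,1],[0,0,0,0,1],[2,0,0,-1],(⟨0,[(27,0)]⟩,⟨0,[(26,0)]⟩),⟨1,[(1,0),(3,0),(17,0),(3,0)]⟩,.k,(.r
  (-1) ⟨7,[(20,3),(3,0),(0,0),(14,1),(6,2)]⟩ ⟨9,[(6,4),(17,2),(0,2),(22,1),(1,3)]⟩),⟨false,1,⟨3,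
  [(20,1),(3,0),(0,0),(22,0)]⟩,⟨0,[(46,0)]⟩⟩,⟨true,0,⟨0,[(50,0)]⟩,⟨0,[]⟩⟩,⟨true,0,⟨0,[]⟩,⟨0,[(50,
  0)]⟩⟩,⟨false,0,⟨0,[(46,0)]⟩,⟨3,[(20,1),(3,0),(0,0),(22,0)]⟩⟩,[.o ⟨false,0,⟨0,[(2,0),(7,0)]⟩,⟨14,
  [(3,14),(7,0),(24,1),(5,2),(5,7),(0,1),(0,0)]⟩⟩,.a ⟨true,0,⟨0,[(25,0)]⟩,⟨0,[(0,0),(45,0)]⟩⟩
  ⟨false,1,⟨1,[(8,0),(39,0)]⟩,⟨3,[(6,0),(17,0),(0,0),(14,1),(5,1)]⟩⟩ ⟨true,0,⟨0,[]⟩,⟨1,[(31,0),(0,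
  0)]⟩⟩,.e ⟨false,1,⟨3,[(20,1),(3,0),(0,0),(22,0)]⟩,⟨1,[(6,0),(4,0),(24,1)]⟩⟩ ⟨false,0,⟨0,[]⟩,⟨1,
  [(24,0),(0,0),(22,0)]⟩⟩,.o ⟨false,0,⟨19,[(2,15),(3,7),(18,3),(5,0),(0,0),(9,3),(6,1)]⟩,⟨5,[(3,4),
  (20,0),(17,0),(4,2)]⟩⟩]⟩) (.R ⟨1,false,false,false,[0,0,0,0,1],[0,1],[1,1],(⟨0,[(27,0)]⟩,⟨0,[(26,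
  0)]⟩),(⟨0,[(39,0)]⟩,⟨0,[(38,0)]⟩),⟨1,[(1,0),(3,0),(17,0),(3,0)]⟩,.k,.k,(.r (-1) ⟨7,[(20,3),(3,0),
  (0,0),(14,1),(6,2)]⟩ ⟨9,[(6,4),(17,2),(0,2),(22,1),(1,3)]⟩),(.r (-1) ⟨7,[(20,3),(3,0),(0,0),(14,
  1),(6,2)]⟩ ⟨9,[(6,4),(17,2),(0,2),(22,1),(1,3)]⟩),(.r (-1) ⟨0,[(8,0)]⟩ ⟨4,[(6,4),(17,3),(0,3),(22,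
  0),(1,1)]⟩),.k,⟨false,1,⟨5,[(8,0),(11,1),(19,3),(6,2)]⟩,⟨1,[(6,0),(41,0)]⟩⟩,⟨true,1,⟨5,[(3,4),(20,
  0),(17,0),(4,2)]⟩,⟨1,[(0,1),(3,2),(0,1),(2,0),(14,1)]⟩⟩,⟨true,0,⟨0,[(50,0)]⟩,⟨0,[]⟩⟩,⟨false,1,⟨5,
  [(3,4),(20,0),(17,0),(3,5),(1,2)]⟩,⟨0,[(2,0)]⟩⟩,⟨false,0,⟨0,[(46,0)]⟩,⟨3,[(20,1),(3,0),(0,0),(22,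
  0)]⟩⟩,⟨false,1,⟨5,[(3,4),(20,0),(17,0),(3,11),(1,2)]⟩,⟨1,[(0,0),(1,0),(1,1),(0,0),(2,1),(14,0),
  (11,0)]⟩⟩,[.a ⟨true,0,⟨0,[(46,0)]⟩,⟨1,[(4,0),(3,0),(29,1)]⟩⟩ ⟨true,0,⟨0,[(50,0)]⟩,⟨0,[(41,0)]⟩⟩
  ⟨false,1,⟨5,[(3,4),(20,0),(17,0),(3,5),(0,2)]⟩,⟨0,[(2,0)]⟩⟩,.o ⟨false,1,⟨5,[(0,0),(23,0),(17,0),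
  (3,4),(1,2)]⟩,⟨0,[(45,0)]⟩⟩,.e ⟨false,0,⟨0,[]⟩,⟨1,[(24,0),(0,0),(22,0)]⟩⟩ ⟨false,1,⟨5,[(3,4),(20,
  0),(17,0),(3,5),(1,2)]⟩,⟨0,[(2,0)]⟩⟩,.o ⟨false,0,⟨19,[(2,15),(3,7),(18,3),(5,0),(0,0),(9,3),(6,
  1)]⟩,⟨5,[(3,4),(20,0),(17,0),(4,2)]⟩⟩]⟩))) (.Q [0,0,0,0,0,-1,0,0,0,0,0,1] (.ed false [1,-1,0,0,1]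
  .k) (.S ⟨1,0,[1],[0,0,0,0,1],[1,1],(⟨0,[(26,0)]⟩,⟨0,[(25,0)]⟩),⟨0,[(0,0)]⟩,.k,(.r (-1) ⟨7,[(19,3),
  (3,0),(0,0),(14,1),(6,2)]⟩ ⟨9,[(5,4),(17,2),(0,2),(22,1),(1,3)]⟩),⟨true,0,⟨0,[(49,0)]⟩,⟨0,[]⟩⟩,
  ⟨false,1,⟨1,[(23,0),(0,0),(22,0)]⟩,⟨0,[]⟩⟩,⟨false,0,⟨0,[(45,0)]⟩,⟨3,[(19,1),(3,0),(0,0),(22,0)]⟩⟩,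
  ⟨true,0,⟨0,[(45,0)]⟩,⟨0,[(44,0)]⟩⟩,[.e ⟨true,0,⟨0,[(49,0)]⟩,⟨0,[(40,0)]⟩⟩ ⟨true,0,⟨0,[]⟩,⟨1,[(30,
  0),(0,0)]⟩⟩,.o ⟨false,1,⟨9,[(23,0),(0,10),(16,1),(5,4)]⟩,⟨0,[(1,0),(42,0)]⟩⟩,.a ⟨true,0,⟨0,[(24,
  0)]⟩,⟨0,[(2,0)]⟩⟩ ⟨false,0,⟨0,[]⟩,⟨1,[(23,0),(0,0),(22,0)]⟩⟩ ⟨true,0,⟨0,[]⟩,⟨0,[(49,0)]⟩⟩,.e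
  ⟨false,1,⟨1,[(23,0),(0,0),(21,0)]⟩,⟨0,[(40,0)]⟩⟩ ⟨false,1,⟨1,[(46,0),(0,0)]⟩,⟨1,[(30,0),(0,
  0)]⟩⟩]⟩) (.S ⟨1,0,[-1,1],[1,0,0,0,-1],[0,0,0,-1],(⟨0,[(25,0)]⟩,⟨0,[(26,0)]⟩),⟨1,[(0,0),(3,0),(17,
  0),(2,0)]⟩,.k,(.r (-1) ⟨13,[(19,6),(3,0),(0,0),(14,1),(6,5),(2,2)]⟩ ⟨1,[(5,0),(17,0),(0,0)]⟩),
  ⟨false,1,⟨3,[(19,1),(3,0),(0,0),(22,0)]⟩,⟨0,[(45,0)]⟩⟩,⟨true,0,⟨0,[(49,0)]⟩,⟨0,[]⟩⟩,⟨true,0,⟨0,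
  []⟩,⟨0,[(49,0)]⟩⟩,⟨false,0,⟨0,[(45,0)]⟩,⟨3,[(19,1),(3,0),(0,0),(22,0)]⟩⟩,[.o ⟨false,0,⟨0,[(1,0),
  (42,0)]⟩,⟨9,[(23,0),(0,10),(16,1),(5,4)]⟩⟩,.e ⟨false,1,⟨1,[(7,0),(39,0)]⟩,⟨3,[(5,0),(17,0),(0,0),
  (14,1),(5,1)]⟩⟩ ⟨false,1,⟨9,[(23,3),(0,3),(21,4),(0,0),(1,1)]⟩,⟨0,[]⟩⟩,.a ⟨true,0,⟨0,[(2,0)]⟩,⟨0,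
  [(24,0)]⟩⟩ ⟨false,1,⟨3,[(19,1),(3,0),(0,0),(22,0)]⟩,⟨0,[(45,0)]⟩⟩ ⟨true,0,⟨0,[(49,0)]⟩,⟨0,[]⟩⟩,.o
  ⟨false,0,⟨13,[(1,2),(0,10),(0,5),(0,3),(3,0),(4,0),(8,3),(17,1),(0,2),(2,0)]⟩,⟨9,[(23,0),(0,10),
  (16,1),(4,4)]⟩⟩]⟩))))))) (.Q [0,0,0,-1,0,0,0,0,0,1] (.pp false [-1,1]) (.R ⟨1,false,false,false,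
  [1,0,-1],[1,-1],[0,1,0,0,0,0,0,-1],(⟨0,[(27,0)]⟩,⟨0,[(28,0)]⟩),(⟨0,[(32,0)]⟩,⟨0,[(33,0)]⟩),⟨0,
  [(16,0)]⟩,.k,.k,.k,.k,.k,.k,⟨false,0,⟨1,[(10,0),(23,0),(5,1)]⟩,⟨1,[(11,1),(29,0),(0,0)]⟩⟩,⟨true,0,
  ⟨0,[(25,0)]⟩,⟨11,[(8,1),(0,3),(1,1),(3,0),(6,3),(13,0),(5,1)]⟩⟩,⟨true,0,⟨0,[(44,0)]⟩,⟨0,[]⟩⟩,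
  ⟨false,1,⟨0,[(3,0),(38,0)]⟩,⟨0,[(12,0),(27,0)]⟩⟩,⟨false,0,⟨0,[(40,0)]⟩,⟨3,[(14,1),(3,0),(0,0),(22,
  0)]⟩⟩,⟨false,1,⟨0,[(23,0),(18,0)]⟩,⟨0,[(12,0)]⟩⟩,[.a ⟨true,0,⟨0,[(0,0)]⟩,⟨0,[(40,0)]⟩⟩ ⟨true,0,⟨1,
  [(10,0),(23,0)]⟩,⟨0,[(11,0),(23,0),(4,0)]⟩⟩ ⟨false,1,⟨1,[(2,0),(22,1),(15,0)]⟩,⟨9,[(9,3),(5,0),(6,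
  3),(13,0),(3,5),(1,1)]⟩⟩,.o ⟨false,1,⟨3,[(14,1),(3,0),(0,0),(22,0)]⟩,⟨0,[(4,0)]⟩⟩,.o ⟨false,0,⟨11,
  [(8,1),(0,3),(1,1),(3,0),(6,3),(13,0),(5,1)]⟩,⟨7,[(1,3),(5,3),(6,1),(3,0),(0,0),(22,0)]⟩⟩,.o
  ⟨false,0,⟨0,[(26,0)]⟩,⟨0,[(1,0)]⟩⟩]⟩) (.S ⟨1,0,[0,1,0,0,0,0,0,1],[0,0,1],[1,0,0,-1,0,0,0,1],(⟨0,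
  [(28,0)]⟩,⟨0,[(27,0)]⟩),⟨0,[(17,0)]⟩,.k,.k,⟨false,1,⟨3,[(14,1),(3,0),(0,0),(22,0)]⟩,⟨0,[(40,0)]⟩⟩,
  ⟨true,0,⟨0,[(44,0)]⟩,⟨0,[]⟩⟩,⟨true,0,⟨0,[]⟩,⟨0,[(44,0)]⟩⟩,⟨false,0,⟨0,[(40,0)]⟩,⟨3,[(14,1),(3,0),
  (0,0),(22,0)]⟩⟩,[.o ⟨false,0,⟨0,[(0,0),(2,0)]⟩,⟨0,[(24,0),(17,0)]⟩⟩,.o ⟨false,1,⟨9,[(18,0),(0,0),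
  (3,9),(12,1),(5,4)]⟩,⟨0,[(12,0)]⟩⟩,.o ⟨false,1,⟨7,[(1,3),(5,3),(6,1),(3,0),(0,0),(22,0)]⟩,⟨4,[(0,
  1),(7,0),(2,0),(3,1)]⟩⟩,.a ⟨true,0,⟨0,[(25,0)]⟩,⟨0,[(22,0)]⟩⟩ ⟨false,1,⟨1,[(11,1),(29,0),(0,0)]⟩,
  ⟨7,[(7,0),(1,0),(0,3),(4,0),(9,1),(14,5),(1,0)]⟩⟩ ⟨true,0,⟨0,[(0,0),(2,0),(18,0)]⟩,⟨3,[(10,1),(14,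
  0),(0,0)]⟩⟩]⟩))) (.Q [0,0,2,0,-1,0,0,0,0,1] (.pp false [-1,1]) (.S ⟨1,0,[0,0,-1,-1],[1,-1],[1,1,
  1],(⟨0,[(31,0)]⟩,⟨0,[(32,0)]⟩),⟨0,[(15,0),(0,0)]⟩,.k,(.r (-2) ⟨3,[(13,3),(3,0),(0,0),(14,1),(6,
  2)]⟩ ⟨0,[(1,0)]⟩),⟨true,(-1),⟨1,[(0,0),(5,0),(1,0)]⟩,⟨0,[(5,0)]⟩⟩,⟨false,1,⟨1,[(17,0),(0,0),(22,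
  0)]⟩,⟨0,[]⟩⟩,⟨false,(-1),⟨0,[(1,0)]⟩,⟨0,[(13,0),(26,0)]⟩⟩,⟨true,0,⟨0,[(39,0)]⟩,⟨0,[(38,0)]⟩⟩,[.e
  ⟨false,0,⟨0,[(43,0)]⟩,⟨1,[(40,0),(0,0)]⟩⟩ ⟨false,1,⟨0,[(5,0)]⟩,⟨1,[(1,0),(15,0),(0,0)]⟩⟩,.o
  ⟨false,1,⟨3,[(13,1),(3,0),(0,0),(22,0)]⟩,⟨0,[(3,0)]⟩⟩,.o ⟨false,0,⟨1,[(24,0),(0,0)]⟩,⟨9,[(17,0),
  (0,0),(16,1),(4,4)]⟩⟩,.a ⟨true,(-1),⟨0,[(0,0)]⟩,⟨0,[(40,0)]⟩⟩ ⟨false,0,⟨0,[]⟩,⟨1,[(17,0),(0,0),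
  (22,0)]⟩⟩ ⟨true,1,⟨0,[(5,0)]⟩,⟨1,[(0,0),(5,0),(1,0)]⟩⟩]⟩) (.Q [0,0,0,-1,0,0,0,0,0,1] (.pp false
  [-1,1]) (.S ⟨1,0,[0,1,-1,-1],[1,-1],[0,0,1],(⟨0,[(32,0)]⟩,⟨0,[(33,0)]⟩),⟨0,[(16,0),(0,0)]⟩,.k,(.r
  (-2) ⟨3,[(14,3),(3,0),(0,0),(14,1),(6,2)]⟩ ⟨0,[(2,0)]⟩),⟨false,0,⟨1,[(2,0),(22,0),(0,0),(15,0)]⟩,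
  ⟨0,[(6,0)]⟩⟩,⟨true,0,⟨0,[(44,0)]⟩,⟨0,[]⟩⟩,⟨true,(-1),⟨0,[(2,0)]⟩,⟨0,[(6,0),(32,0)]⟩⟩,⟨false,0,⟨0,
  [(40,0)]⟩,⟨3,[(14,1),(3,0),(0,0),(22,0)]⟩⟩,[.o ⟨false,0,⟨0,[(39,0)]⟩,⟨0,[(4,0),(37,0)]⟩⟩,.a ⟨true,
  0,⟨0,[(0,0)]⟩,⟨0,[(40,0)]⟩⟩ ⟨true,0,⟨0,[(35,0)]⟩,⟨0,[(44,0)]⟩⟩ ⟨false,1,⟨0,[(6,0)]⟩,⟨1,[(2,0),(15,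
  0),(0,0)]⟩⟩,.o ⟨false,0,⟨1,[(25,0),(0,0)]⟩,⟨9,[(18,0),(0,0),(16,1),(4,4)]⟩⟩,.e ⟨false,1,⟨1,[(18,
  0),(0,0),(22,0)]⟩,⟨0,[]⟩⟩ ⟨false,1,⟨0,[(6,0)]⟩,⟨1,[(2,0),(22,0),(0,0),(15,0)]⟩⟩]⟩) (.S ⟨1,0,[0,0,
  0,0,0,0,0,1],[0,0,1],[0,1,0,0,0,0,0,1],(⟨0,[(28,0)]⟩,⟨0,[(27,0)]⟩),⟨0,[(17,0)]⟩,.k,.k,⟨true,0,⟨0,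
  [(44,0)]⟩,⟨0,[]⟩⟩,⟨false,1,⟨1,[(18,0),(0,0),(22,0)]⟩,⟨0,[]⟩⟩,⟨false,0,⟨0,[(40,0)]⟩,⟨3,[(14,1),(3,
  0),(0,0),(22,0)]⟩⟩,⟨true,0,⟨0,[(40,0)]⟩,⟨0,[(39,0)]⟩⟩,[.o ⟨false,1,⟨9,[(18,0),(0,0),(3,9),(12,1),
  (5,4)]⟩,⟨0,[(12,0)]⟩⟩,.o ⟨false,1,⟨0,[(0,0),(2,0),(38,0)]⟩,⟨0,[(24,0)]⟩⟩,.o ⟨false,1,⟨13,[(7,3),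
  (6,1),(10,9),(10,1),(4,6),(0,0)]⟩,⟨4,[(0,1),(7,0),(2,0),(3,1)]⟩⟩,.a ⟨true,0,⟨0,[(25,0)]⟩,⟨0,[(22,
  0)]⟩⟩ ⟨true,0,⟨0,[(0,0),(2,0),(18,0)]⟩,⟨3,[(10,1),(14,0),(0,0)]⟩⟩ ⟨false,1,⟨4,[(0,1),(0,0),(9,1),
  (10,2),(0,2),(18,3)]⟩,⟨3,[(10,1),(14,0),(0,0)]⟩⟩]⟩)))) (.Q [0,0,2,0,-1,0,0,0,0,1] (.pp false [-1,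
  1]) (.R ⟨1,false,false,true,[1,0,-1],[1,-1],[1,1],(⟨0,[(25,0)]⟩,⟨0,[(26,0)]⟩),(⟨0,[(30,0)]⟩,⟨0,
  [(31,0)]⟩),⟨0,[(14,0)]⟩,.k,.k,.k,.k,.k,.k,⟨false,0,⟨0,[(38,0)]⟩,⟨7,[(12,3),(3,0),(0,0),(14,1),(6,
  2)]⟩⟩,⟨true,0,⟨0,[(23,0)]⟩,⟨15,[(1,2),(2,0),(1,0),(0,2),(1,3),(3,3),(6,0),(13,0)]⟩⟩,⟨false,0,⟨0,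
  [(9,0),(28,0)]⟩,⟨3,[(8,1),(7,0),(0,0),(21,0),(0,1)]⟩⟩,⟨false,1,⟨3,[(12,1),(3,0),(0,0),(3,3),(18,
  0)]⟩,⟨0,[(1,0)]⟩⟩,⟨false,0,⟨0,[(9,0),(28,1)]⟩,⟨3,[(8,1),(3,1),(26,0),(0,0)]⟩⟩,⟨true,0,⟨0,[(21,
  0)]⟩,⟨0,[(10,0)]⟩⟩,[.o ⟨false,0,⟨0,[(37,0)]⟩,⟨0,[(2,0),(37,0)]⟩⟩,.a ⟨true,0,⟨0,[(0,0),(3,0)]⟩,⟨0,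
  [(38,0)]⟩⟩ ⟨true,0,⟨0,[]⟩,⟨15,[(0,3),(4,3),(6,1),(3,0),(0,0),(6,3),(15,0)]⟩⟩ ⟨false,1,⟨0,[(4,0),
  (18,0)]⟩,⟨9,[(7,3),(5,0),(6,3),(13,0),(3,5),(1,1)]⟩⟩,.o ⟨false,0,⟨15,[(1,2),(2,0),(1,0),(0,2),(1,
  3),(3,3),(6,0),(13,0)]⟩,⟨13,[(5,3),(6,1),(10,9),(10,1),(4,6),(0,0)]⟩⟩,.e ⟨false,1,⟨1,[(16,0),(0,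
  0),(21,0)]⟩,⟨0,[(33,0)]⟩⟩ ⟨false,1,⟨0,[(4,0),(18,0)]⟩,⟨0,[(7,0),(32,0)]⟩⟩]⟩) (.Q [0,0,0,-1,0,0,0,
  0,0,1] (.pp false [-1,1]) (.R ⟨1,false,false,true,[1,0,-1],[1,-1],[1,1],(⟨0,[(26,0)]⟩,⟨0,[(27,
  0)]⟩),(⟨0,[(31,0)]⟩,⟨0,[(32,0)]⟩),⟨0,[(15,0)]⟩,.k,.k,.k,.k,.k,.k,⟨false,0,⟨0,[(39,0)]⟩,⟨7,[(13,3),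
  (3,0),(0,0),(14,1),(6,2)]⟩⟩,⟨true,0,⟨0,[(24,0)]⟩,⟨93,[(1,6),(0,15),(1,0),(2,7),(0,15),(1,23),(3,
  26),(14,1),(5,3)]⟩⟩,⟨false,0,⟨0,[(10,0),(28,0)]⟩,⟨3,[(9,1),(7,0),(0,0),(21,0),(0,1)]⟩⟩,⟨false,1,
  ⟨3,[(13,1),(3,0),(0,0),(3,3),(18,0)]⟩,⟨0,[(2,0)]⟩⟩,⟨false,0,⟨0,[(10,0),(28,1)]⟩,⟨3,[(9,1),(3,1),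
  (26,0),(0,0)]⟩⟩,⟨true,0,⟨0,[(22,0)]⟩,⟨0,[(11,0)]⟩⟩,[.o ⟨false,0,⟨0,[(38,0)]⟩,⟨0,[(3,0),(37,0)]⟩⟩,
  .a ⟨true,0,⟨0,[(0,0)]⟩,⟨0,[(39,0)]⟩⟩ ⟨true,0,⟨0,[]⟩,⟨1,[(24,0),(0,0)]⟩⟩ ⟨false,1,⟨0,[(5,0),(18,
  0)]⟩,⟨3,[(1,0),(6,1),(5,0),(24,1),(1,0)]⟩⟩,.o ⟨false,0,⟨93,[(1,6),(0,15),(1,0),(2,7),(0,15),(1,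
  23),(3,26),(14,1),(5,3)]⟩,⟨13,[(6,3),(6,1),(10,9),(10,1),(4,6),(0,0)]⟩⟩,.o ⟨false,0,⟨0,[(25,0)]⟩,
  ⟨0,[(1,0),(22,0)]⟩⟩]⟩) (.R ⟨1,false,false,true,[0,0,1],[1,-1],[1,0,0,-1,0,0,0,1],(⟨0,[(27,0)]⟩,⟨0,
  [(26,0)]⟩),(⟨0,[(31,0)]⟩,⟨0,[(32,0)]⟩),⟨0,[(16,0)]⟩,.k,.k,.k,.k,.k,.k,⟨true,0,⟨0,[(10,0),(23,0),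
  (4,0)]⟩,⟨1,[(9,0),(23,0)]⟩⟩,⟨false,0,⟨1,[(14,0),(6,0),(2,0)]⟩,⟨0,[(1,0),(22,0)]⟩⟩,⟨false,1,⟨3,
  [(13,1),(3,0),(0,0),(22,0)]⟩,⟨0,[(39,0)]⟩⟩,⟨false,0,⟨0,[(7,0),(13,0),(2,0)]⟩,⟨0,[(0,0),(21,0),(18,
  0)]⟩⟩,⟨true,0,⟨0,[]⟩,⟨0,[(43,0)]⟩⟩,⟨false,0,⟨3,[(9,1),(4,0),(6,2),(2,0)]⟩,⟨2,[(0,1),(0,0),(8,1),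
  (11,0),(1,1),(16,1)]⟩⟩,[.o ⟨false,0,⟨0,[(38,0)]⟩,⟨0,[(3,0),(37,0)]⟩⟩,.o ⟨false,1,⟨1,[(13,0),(3,0),
  (0,0),(24,0)]⟩,⟨0,[(0,0)]⟩⟩,.o ⟨false,1,⟨13,[(6,3),(6,1),(10,9),(10,1),(4,6),(0,0)]⟩,⟨93,[(1,6),
  (0,15),(1,0),(2,7),(0,15),(1,23),(3,26),(14,1),(5,3)]⟩⟩,.a ⟨true,0,⟨0,[(24,0)]⟩,⟨0,[(21,0)]⟩⟩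
  ⟨false,1,⟨1,[(10,1),(29,0),(0,0)]⟩,⟨7,[(6,0),(1,0),(0,3),(4,0),(9,1),(14,5),(1,0)]⟩⟩ ⟨true,0,⟨0,
  [(21,0),(16,0)]⟩,⟨0,[(0,0),(23,0)]⟩⟩]⟩)))) (.R ⟨1,false,false,false,[0,0,1],[1,-1],[1,0,0,-1,0,0,
  0,1],(⟨0,[(24,0)]⟩,⟨0,[(23,0)]⟩),(⟨0,[(28,0)]⟩,⟨0,[(29,0)]⟩),⟨0,[(13,0)]⟩,.k,.k,.k,.k,.k,.k,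
  ⟨false,0,⟨0,[(7,0),(28,0)]⟩,⟨3,[(6,1),(7,0),(0,0),(21,2)]⟩⟩,⟨true,(-1),⟨0,[(0,0),(4,0)]⟩,⟨13,[(3,
  3),(6,1),(10,9),(10,1),(4,6),(0,0)]⟩⟩,⟨false,1,⟨3,[(10,1),(3,0),(0,0),(22,0)]⟩,⟨0,[(36,0)]⟩⟩,
  ⟨false,0,⟨0,[(0,0),(7,0)]⟩,⟨11,[(3,1),(5,1),(9,9),(12,1),(3,9),(0,0),(0,6)]⟩⟩,⟨true,0,⟨0,[]⟩,⟨0,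
  [(40,0)]⟩⟩,⟨false,0,⟨0,[(0,0),(7,0),(27,0)]⟩,⟨9,[(14,0),(0,0),(3,9),(12,1),(5,4)]⟩⟩,[.a ⟨true,0,
  ⟨5,[(0,4),(10,0),(9,1),(8,1),(4,0)]⟩,⟨0,[(36,0)]⟩⟩ ⟨true,0,⟨0,[(7,0)]⟩,⟨7,[(3,0),(1,0),(0,3),(4,
  0),(9,1),(14,5),(1,0)]⟩⟩ ⟨false,0,⟨0,[(0,0),(1,0),(2,0)]⟩,⟨1,[(3,1),(33,0),(0,0)]⟩⟩,.a ⟨true,0,⟨0,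
  [(0,0)]⟩,⟨4,[(3,0),(7,0),(9,0),(8,1),(5,3)]⟩⟩ ⟨false,1,⟨1,[(7,1),(29,0),(0,0)]⟩,⟨1,[(6,0),(23,0),
  (5,1)]⟩⟩ ⟨true,0,⟨8,[(0,9),(3,0),(0,2),(1,0),(3,0),(6,2),(13,0),(5,0)]⟩,⟨0,[(3,0)]⟩⟩,.o ⟨false,1,
  ⟨13,[(3,3),(6,1),(10,9),(10,1),(4,6),(0,0)]⟩,⟨8,[(0,0),(3,0),(0,2),(1,0),(3,0),(6,2),(13,0),(5,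
  0)]⟩⟩,.a ⟨true,0,⟨0,[(21,0)]⟩,⟨0,[(18,0)]⟩⟩ ⟨false,1,⟨1,[(7,1),(29,0),(0,0)]⟩,⟨7,[(3,0),(1,0),(0,
  3),(4,0),(9,1),(14,5),(1,0)]⟩⟩ ⟨true,0,⟨0,[(0,0),(1,0),(2,0)]⟩,⟨0,[(3,0)]⟩⟩]⟩)))

theorem ok8 : chk K t8 r9 = true := by decide +kernel


end Helper48.Y.Y11_c35_P2_m1n1_CC
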