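import Pool.Agent.Helper48.Y.Y11_c35_P3_m1n1_CB_q

set_option autoImplicit false
set_option linter.all false

namespace Helper48.Y.Y11_c35_P3_m1n1_CB

open Helper25.KG Helper25.KW Helper55.KE Helper11.CT

noncomputable def t0 : Tre :=
  (.Q [0,0,2,0,-1,0,0,0,0,1] (.pp false [-1,1]) (.R ⟨2,true,false,true,[0,1],[1,-1],[1,0,1],(⟨0,[]⟩,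
  ⟨0,[]⟩),(⟨0,[(18,0)]⟩,⟨0,[(19,0)]⟩),⟨0,[]⟩,.k,.k,.k,(.r 1 ⟨0,[(0,0),(0,0)]⟩ ⟨0,[(29,1),(1,0),(0,
  0)]⟩),.k,.k,⟨false,0,⟨1,[(0,0),(0,0),(30,0)]⟩,⟨0,[(29,0),(1,0)]⟩⟩,⟨true,(-1),⟨0,[(0,0)]⟩,⟨1,[(17,
  0),(13,0)]⟩⟩,⟨false,1,⟨0,[(29,0),(2,0)]⟩,⟨0,[(30,0)]⟩⟩,⟨true,0,⟨1,[(25,0),(3,3),(2,0)]⟩,⟨0,[(1,
  0)]⟩⟩,⟨true,0,⟨0,[]⟩,⟨0,[(34,0)]⟩⟩,⟨false,0,⟨1,[(25,0),(3,1),(2,0)]⟩,⟨3,[(1,1),(3,0),(0,0),(10,0),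
  (14,1)]⟩⟩,[]⟩) (.N [0,2] 1 ⟨0,[(1,1),(20,1),(2,0),(3,1)]⟩ ⟨0,[(0,1),(21,1),(2,0),(3,1)]⟩ (.x (-1)
  ⟨0,[(0,0),(2,0),(0,0)]⟩ ⟨5,[(2,3),(9,8),(0,0),(10,3),(8,1)]⟩)))

theorem ok0 : chk K t0 l0 = true := by decide +kernel

noncomputable def t1 : Tre :=
  (.S ⟨1,0,[0,1,1,1,0,0,0,-1],[1,1,-1],[0,0,1,1,0,0,0,-1],(⟨37,[(3,1),(3,1),(7,1),(1,1),(1,37),(4,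
  13),(4,7),(0,2),(6,0)]⟩,⟨0,[(9,0)]⟩),⟨0,[(19,0)]⟩,.k,.k,⟨false,1,⟨1,[(3,0),(1,0),(31,0)]⟩,⟨0,[]⟩⟩,
  ⟨true,0,⟨0,[(39,0)]⟩,⟨0,[]⟩⟩,⟨true,0,⟨0,[(35,0)]⟩,⟨0,[(34,0)]⟩⟩,⟨false,0,⟨0,[(35,0)]⟩,⟨2,[(1,0),
  (1,0),(2,0),(11,0),(18,0)]⟩⟩,[.o ⟨false,0,⟨0,[(0,0),(38,0)]⟩,⟨0,[(1,0)]⟩⟩,.o ⟨false,0,⟨0,[(0,0)]⟩,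
  ⟨5,[(1,3),(1,0),(1,0),(9,1),(6,0),(11,1)]⟩⟩,.a ⟨true,0,⟨0,[(14,0)]⟩,⟨0,[(17,0)]⟩⟩ ⟨true,0,⟨0,[(0,
  0),(16,0)]⟩,⟨0,[(4,0)]⟩⟩ ⟨false,0,⟨0,[(0,0),(16,0)]⟩,⟨0,[(4,0),(32,0)]⟩⟩,.o ⟨false,0,⟨0,[(0,0),(3,
  0),(22,0)]⟩,⟨1,[(17,1),(4,0),(13,0)]⟩⟩]⟩)

theorem ok1 : chk K t1 l6 = true := by decide +kernel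

noncomputable def t2 : Tre :=
  (.S ⟨1,0,[0,0,1,1,0,0,0,-1],[1,1,-1],[1,1,1,0,0,0,0,-1],(⟨37,[(5,1),(3,1),(7,1),(1,1),(1,37),(4,
  13),(4,7),(0,2),(6,0)]⟩,⟨0,[(11,0)]⟩),⟨0,[(21,0)]⟩,.k,.k,⟨true,0,⟨0,[(36,0)]⟩,⟨0,[(37,0)]⟩⟩,
  ⟨false,1,⟨1,[(5,0),(1,0),(31,0)]⟩,⟨0,[]⟩⟩,⟨false,0,⟨0,[]⟩,⟨1,[(5,0),(1,0),(31,0)]⟩⟩,⟨true,0,⟨0,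
  [(37,0)]⟩,⟨0,[(36,0)]⟩⟩,[.a ⟨true,0,⟨0,[(0,0),(40,0)]⟩,⟨0,[(2,0)]⟩⟩ ⟨false,0,⟨0,[(4,0)]⟩,⟨0,[(6,
  0),(30,0),(1,0)]⟩⟩ ⟨true,0,⟨0,[(4,0),(24,0),(7,0)]⟩,⟨0,[(6,0),(22,0)]⟩⟩,.a ⟨true,0,⟨0,[(0,0)]⟩,⟨1,
  [(2,0),(14,0),(18,0)]⟩⟩ ⟨true,0,⟨0,[(4,0),(24,0)]⟩,⟨0,[(6,0),(22,0),(7,0)]⟩⟩ ⟨false,1,⟨3,[(0,1),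
  (4,1),(13,1),(4,0),(12,1),(1,0)]⟩,⟨0,[(6,0)]⟩⟩,.a ⟨true,0,⟨0,[(16,0)]⟩,⟨0,[(19,0)]⟩⟩ ⟨false,0,⟨0,
  [(4,0),(24,0)]⟩,⟨0,[(6,0),(30,0),(1,0)]⟩⟩ ⟨true,0,⟨0,[(4,0),(24,0),(7,0)]⟩,⟨0,[(6,0)]⟩⟩,.o ⟨false,
  0,⟨0,[(1,0)]⟩,⟨1,[(19,1),(4,0),(13,0)]⟩⟩]⟩)

theorem ok2 : chk K t2 l8 = true := by decide +kernel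

noncomputable def t3 : Tre :=
  (.Q [0,0,0,0,0,2,0,0,0,0,-1] (.p false [0,0,1] [] (⟨0,[(23,0)]⟩,⟨0,[(22,0)]⟩) .k 0 (⟨0,[]⟩,⟨0,
  []⟩) .k .k) (.R ⟨0,false,false,true,[0,-1,1],[1,-1],[],(⟨0,[(13,0)]⟩,⟨37,[(7,1),(3,1),(7,1),(1,1),
  (1,37),(4,13),(4,7),(0,2),(6,0)]⟩),(⟨0,[(27,0)]⟩,⟨0,[(28,0)]⟩),⟨0,[(0,0)]⟩,.k,.k,(.r (-1) ⟨1,[(1,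
  1),(0,0),(2,0),(34,0)]⟩ ⟨1,[(6,1),(14,0),(0,0),(8,1),(7,3)]⟩),.k,.k,.k,⟨true,0,⟨0,[(31,0),(7,0)]⟩,
  ⟨0,[(38,0)]⟩⟩,⟨false,0,⟨0,[(18,0)]⟩,⟨1,[(21,1),(4,0),(13,0)]⟩⟩,⟨true,0,⟨0,[(6,0),(24,0),(7,0)]⟩,
  ⟨0,[(8,0)]⟩⟩,⟨false,0,⟨2,[(1,0),(4,0),(13,1),(9,0),(0,0),(2,0),(4,0)]⟩,⟨0,[(5,0),(33,0)]⟩⟩,⟨false,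
  0,⟨0,[]⟩,⟨0,[]⟩⟩,⟨false,0,⟨0,[]⟩,⟨0,[]⟩⟩,[.o ⟨false,0,⟨0,[(38,0)]⟩,⟨1,[(26,0),(12,1),(1,0)]⟩⟩,.a
  ⟨true,0,⟨57,[(7,5),(2,28),(0,5),(7,5),(1,5),(3,4),(1,4),(2,2),(3,8)]⟩,⟨0,[(39,0)]⟩⟩ ⟨false,1,⟨1,
  [(40,0),(0,0)]⟩,⟨0,[(43,0)]⟩⟩ ⟨true,0,⟨0,[(1,0)]⟩,⟨0,[(2,0),(3,0),(24,1),(7,1)]⟩⟩,.e ⟨false,1,⟨1,
  [(7,0),(1,0),(31,0)]⟩,⟨0,[]⟩⟩ ⟨false,0,⟨0,[(1,0)]⟩,⟨1,[(21,1),(4,0),(12,1),(1,0)]⟩⟩,.o ⟨false,0,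
  ⟨0,[(2,0),(3,0),(24,1),(7,0)]⟩,⟨1,[(18,1),(7,0),(13,0)]⟩⟩]⟩) (.I [0,-1,-2,-1,1,0,0,1] (.S ⟨1,0,[0,
  1,-1,-1,0,0,0,1],[0,-1,1],[0,0,-1,-1,0,0,0,1],(⟨0,[(14,0)]⟩,⟨37,[(8,1),(3,1),(7,1),(1,1),(1,37),
  (4,13),(4,7),(0,2),(6,0)]⟩),⟨0,[(1,0)]⟩,.k,(.r (-1) ⟨0,[(0,0),(38,0)]⟩ ⟨1,[(7,1),(14,0),(0,0),(8,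
  1),(7,3)]⟩),⟨false,1,⟨1,[(8,0),(1,0),(31,0)]⟩,⟨0,[]⟩⟩,⟨true,0,⟨0,[(44,0)]⟩,⟨0,[]⟩⟩,⟨true,0,⟨0,
  [(40,0)]⟩,⟨0,[(39,0)]⟩⟩,⟨false,0,⟨0,[(40,0)]⟩,⟨2,[(6,0),(1,0),(2,0),(11,0),(18,0)]⟩⟩,[.o ⟨false,0,
  ⟨0,[(3,0)]⟩,⟨0,[(21,0),(18,0),(1,0)]⟩⟩,.e ⟨false,1,⟨0,[(0,0)]⟩,⟨1,[(7,1),(14,0),(0,0),(16,1)]⟩⟩
  ⟨false,1,⟨13,[(0,10),(5,1),(1,0),(3,1),(7,1),(16,4),(1,0)]⟩,⟨0,[(7,0),(24,0),(7,0)]⟩⟩,.a ⟨true,0,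
  ⟨0,[(22,0)]⟩,⟨0,[(19,0)]⟩⟩ ⟨false,1,⟨11,[(0,5),(5,3),(4,0),(0,2),(7,1),(21,1)]⟩,⟨0,[(7,0),(24,0),
  (7,0)]⟩⟩ ⟨true,0,⟨3,[(0,0),(0,0),(1,2),(0,2),(8,0),(12,2),(6,1),(1,0)]⟩,⟨0,[(7,0),(24,0),(7,0)]⟩⟩,
  .o ⟨false,0,⟨0,[(3,0),(3,0),(24,1),(7,0)]⟩,⟨1,[(19,1),(7,0),(13,0)]⟩⟩]⟩) (.Q [0,0,0,2,0,0,-1,-1,0,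
  0,-1] (.p false [0,0,1] [] (⟨0,[(25,0)]⟩,⟨0,[(24,0)]⟩) .k 0 (⟨0,[]⟩,⟨0,[]⟩) .k .k) (.R ⟨1,true,
  false,true,[0,0,1],[0,1],[0,0,0,0,0,0,0,1],(⟨0,[(26,0)]⟩,⟨0,[(25,0)]⟩),(⟨0,[(30,0)]⟩,⟨0,[(29,
  0)]⟩),⟨0,[(15,0)]⟩,.k,.k,.k,.k,(.r (-1) ⟨1,[(3,1),(0,0),(2,0),(34,0)]⟩ ⟨1,[(0,1),(22,2),(0,0)]⟩),
  .k,⟨true,1,⟨0,[(10,0),(32,0)]⟩,⟨0,[(1,0)]⟩⟩,⟨false,1,⟨1,[(20,1),(7,0),(13,0)]⟩,⟨0,[(23,0)]⟩⟩,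
  ⟨false,1,⟨1,[(9,0),(1,0),(31,0)]⟩,⟨0,[]⟩⟩,⟨true,0,⟨10,[(0,4),(0,0),(7,0),(12,3),(1,1),(13,2)]⟩,⟨0,
  [(6,0)]⟩⟩,⟨true,0,⟨0,[(41,0)]⟩,⟨0,[(40,0)]⟩⟩,⟨false,0,⟨0,[(0,0)]⟩,⟨2,[(7,1),(4,1),(8,0),(21,0)]⟩⟩,
  []⟩) (.Q [0,-1,0,2,0,0,-1,-1,0,1,-1] (.p false [0,0,1] [1] (⟨0,[(26,0)]⟩,⟨0,[(25,0)]⟩) .k 1 (⟨0,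
  []⟩,⟨0,[]⟩) .k .k) (.S ⟨1,3,[],[0,-1,1],[0,0,-1,-1,0,0,0,1],(⟨0,[(16,0)]⟩,⟨37,[(10,1),(3,1),(7,1),
  (1,1),(1,37),(4,13),(4,7),(0,2),(6,0)]⟩),⟨0,[(3,0)]⟩,.k,(.r (-1) ⟨5,[(1,1),(2,3),(3,1),(2,1),(17,
  0),(13,2)]⟩ ⟨19,[(0,13),(1,11),(7,4),(1,8),(9,1),(1,11),(4,6)]⟩),⟨false,1,⟨1,[(10,0),(1,0),(31,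
  0)]⟩,⟨0,[]⟩⟩,⟨true,0,⟨12,[(0,4),(1,2),(7,4),(3,3),(22,1),(1,0)]⟩,⟨0,[(5,0)]⟩⟩,⟨true,0,⟨0,[(42,
  0)]⟩,⟨0,[(41,0)]⟩⟩,⟨false,0,⟨0,[(0,0)]⟩,⟨0,[(8,0),(32,0)]⟩⟩,[.fa ⟨false,1,⟨1,[(11,1),(31,0),(0,
  0)]⟩,⟨7,[(0,1),(1,3),(7,1),(13,1),(4,0),(14,0)]⟩⟩ ⟨true,0,⟨0,[(21,0)]⟩,⟨0,[(2,0),(5,0)]⟩⟩,.a
  ⟨true,0,⟨0,[(0,0),(0,0)]⟩,⟨0,[(46,0)]⟩⟩ ⟨true,1,⟨0,[(11,0),(32,0)]⟩,⟨0,[(2,0)]⟩⟩ ⟨false,1,⟨1,[(21,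
  1),(21,0),(0,0)]⟩,⟨3,[(2,0),(2,1),(3,0),(14,1),(4,0),(12,0)]⟩⟩,.a ⟨true,0,⟨0,[(24,0)]⟩,⟨0,[(21,
  0)]⟩⟩ ⟨false,1,⟨0,[(11,0),(32,0)]⟩,⟨7,[(0,1),(1,3),(7,1),(13,1),(4,0),(14,0)]⟩⟩ ⟨true,0,⟨0,[(21,
  0)]⟩,⟨3,[(2,0),(2,1),(3,0),(14,1),(4,0),(12,0)]⟩⟩,.o ⟨false,0,⟨0,[(2,0),(5,0)]⟩,⟨1,[(21,1),(7,0),
  (13,0)]⟩⟩]⟩) (.I [0,1,-2,-1,1,0,0,-1] (.Q [0,0,-1,0,1,0,1,0,0,-1,1] (.p true [0,0,1] [1] (⟨0,[(28,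
  0)]⟩,⟨0,[(27,0)]⟩) .k 1 (⟨0,[]⟩,⟨0,[]⟩) .k .k) (.S ⟨1,0,[0,0,0,0,0,0,0,-1],[1,0,-1],[0,1,0,0,0,0,
  0,-1],(⟨0,[(28,0)]⟩,⟨0,[(29,0)]⟩),⟨0,[(17,0)]⟩,.k,.k,⟨true,0,⟨0,[(48,0)]⟩,⟨0,[]⟩⟩,⟨false,1,⟨1,
  [(12,0),(1,0),(31,0)]⟩,⟨0,[]⟩⟩,⟨false,0,⟨0,[(44,0)]⟩,⟨2,[(10,0),(1,0),(2,0),(11,0),(18,0)]⟩⟩,
  ⟨true,0,⟨0,[(44,0)]⟩,⟨0,[(43,0)]⟩⟩,[.a ⟨true,0,⟨4,[(4,1),(1,1),(5,0),(10,0),(1,1),(13,0),(6,1)]⟩,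
  ⟨0,[(9,0),(34,0)]⟩⟩ ⟨true,0,⟨1,[(1,0),(2,0)]⟩,⟨0,[(13,0),(22,1),(7,0)]⟩⟩ ⟨false,1,⟨0,[(12,0)]⟩,⟨0,
  [(13,0),(22,0),(7,0)]⟩⟩,.o ⟨false,1,⟨0,[(25,0),(20,0)]⟩,⟨0,[(7,0),(36,0)]⟩⟩,.o ⟨false,0,⟨0,[(8,
  0)]⟩,⟨7,[(0,1),(11,1),(11,1),(1,3),(4,2),(14,0)]⟩⟩,.o ⟨false,0,⟨0,[(27,0)]⟩,⟨0,[(0,0)]⟩⟩]⟩) (.I
  [1,1,0,-1,0,0,0,-1] (.Q [0,1,0,1,0,0,0,0,0,-1] (.pp true [-1,1]) (.I [0,0,-2,-1,1] (.S ⟨1,0,[0,0,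
  -1,-1],[1,-1],[0,1,-1,-1],(⟨0,[(35,0)]⟩,⟨0,[(36,0)]⟩),⟨1,[(8,0),(11,0),(14,0)]⟩,.k,(.x 1 ⟨4,[(3,
  2),(3,1),(4,1),(16,0),(3,0),(5,1),(1,2)]⟩ ⟨0,[(34,0),(0,1),(12,0)]⟩),⟨true,0,⟨0,[(51,0)]⟩,⟨0,[]⟩⟩,
  ⟨false,1,⟨1,[(15,0),(1,0),(31,0)]⟩,⟨0,[]⟩⟩,⟨false,0,⟨0,[(47,0)]⟩,⟨2,[(13,0),(1,0),(2,0),(11,0),
  (18,0)]⟩⟩,⟨true,0,⟨0,[(47,0)]⟩,⟨0,[(46,0)]⟩⟩,[.e ⟨false,1,⟨35,[(4,21),(8,3),(2,9),(2,5),(7,7),(6,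
  0),(13,8)]⟩,⟨0,[(39,0),(7,0)]⟩⟩ ⟨false,1,⟨0,[(0,0)]⟩,⟨5,[(7,1),(7,0),(1,2),(29,3),(1,0)]⟩⟩,.o
  ⟨false,1,⟨2,[(13,0),(1,0),(2,0),(11,0),(18,0)]⟩,⟨0,[(1,0)]⟩⟩,.o ⟨false,0,⟨1,[(29,0),(0,0)]⟩,⟨1,
  [(34,0),(13,0)]⟩⟩,.a ⟨true,(-1),⟨0,[(3,0),(25,0)]⟩,⟨0,[(48,0)]⟩⟩ ⟨false,1,⟨0,[(0,0)]⟩,⟨1,[(7,0),
  (9,0),(21,0),(7,0),(1,0)]⟩⟩ ⟨true,1,⟨0,[(0,0)]⟩,⟨2,[(1,0),(1,0),(3,1),(4,0),(4,0),(29,0)]⟩⟩]⟩)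
  (.Q [0,0,2,0,-1,0,-1,0,0,0,-1] (.p false [0,0,1] [] (⟨0,[(32,0)]⟩,⟨0,[(31,0)]⟩) .k 0 (⟨0,[]⟩,⟨0,
  []⟩) .k .k) (.Q [-1,-1,0,0,1,0,0,0,-1,0,0,-1] (.p false [0,0,0,0,1] [] (⟨0,[(26,0)]⟩,⟨0,[(25,
  0)]⟩) .k 0 (⟨0,[]⟩,⟨0,[]⟩) .k .k) (.Q [0,0,0,0,0,1,0,0,0,-1,0,1] (.ed false [0,1,0,0,1] .k) (.Q
  [-1,0,0,-1,0,0,0,0,-1,1,0,-1] (.p false [0,0,0,0,1] [1] (⟨0,[(28,0)]⟩,⟨0,[(27,0)]⟩) .k 1 (⟨0,[]⟩,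
  ⟨0,[]⟩) .k .k) (.R ⟨0,false,false,true,[1,0,0,0,-1],[0,1],[1,1,1],(⟨0,[(28,0)]⟩,⟨0,[(29,0)]⟩),(⟨0,
  [(40,0)]⟩,⟨0,[(39,0)]⟩),⟨0,[(1,0)]⟩,.k,.k,(.r (-1) ⟨7,[(8,3),(8,1),(3,1),(0,0),(0,0),(28,0),(0,
  0)]⟩ ⟨5,[(11,1),(7,0),(1,2),(29,3),(1,0)]⟩),(.r (-1) ⟨7,[(8,3),(8,1),(3,1),(0,0),(0,0),(28,0),(0,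
  0)]⟩ ⟨5,[(11,1),(7,0),(1,2),(29,3),(1,0)]⟩),.k,.k,⟨false,1,⟨11,[(8,5),(8,3),(4,0),(0,2),(7,1),(21,
  1)]⟩,⟨0,[(51,0)]⟩⟩,⟨true,1,⟨1,[(27,1),(10,0),(13,0)]⟩,⟨0,[(0,0),(3,0)]⟩⟩,⟨false,0,⟨1,[(33,0),(0,
  0)]⟩,⟨1,[(42,0),(9,0)]⟩⟩,⟨true,0,⟨0,[(5,0),(21,0)]⟩,⟨0,[(0,0)]⟩⟩,⟨false,0,⟨0,[]⟩,⟨0,[]⟩⟩,⟨false,0,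
  ⟨0,[]⟩,⟨0,[]⟩⟩,[.o ⟨false,0,⟨0,[(5,0)]⟩,⟨2,[(17,0),(1,0),(2,0),(11,0),(18,0)]⟩⟩,.e ⟨false,0,⟨0,
  []⟩,⟨1,[(19,0),(1,0),(30,0)]⟩⟩ ⟨false,1,⟨1,[(5,1),(21,1),(24,0),(0,0)]⟩,⟨0,[(0,0)]⟩⟩,.a ⟨true,0,
  ⟨0,[(0,0),(50,0)]⟩,⟨0,[(27,0)]⟩⟩ ⟨false,0,⟨1,[(33,0),(0,0)]⟩,⟨1,[(52,0),(0,0)]⟩⟩ ⟨true,0,⟨0,[(5,
  0),(21,0)]⟩,⟨0,[(0,0)]⟩⟩,.o ⟨false,0,⟨3,[(0,2),(1,0),(1,1),(0,0),(32,0)]⟩,⟨1,[(27,1),(10,0),(13,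
  0)]⟩⟩]⟩) (.Q [1,-1,0,0,0,0,0,0,1,0,0,1] (.p true [0,0,0,0,1] [] (⟨0,[(29,0)]⟩,⟨0,[(28,0)]⟩) .k 0
  (⟨0,[]⟩,⟨0,[]⟩) .k .k) (.R ⟨2,true,false,false,[0,1],[0,0,0,0,1],[1,1],(⟨0,[]⟩,⟨0,[]⟩),(⟨0,[(30,
  0)]⟩,⟨0,[(29,0)]⟩),⟨0,[]⟩,.k,.k,.k,(.r 0 ⟨29,[(1,2),(10,7),(7,0),(1,8),(1,2),(2,2),(6,5),(17,18),
  (1,3)]⟩ ⟨11,[(9,5),(8,3),(4,0),(0,2),(7,1),(21,1)]⟩),.k,.k,⟨true,0,⟨0,[(56,0)]⟩,⟨0,[(50,0)]⟩⟩,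
  ⟨false,0,⟨0,[(28,0)]⟩,⟨0,[(3,0),(41,0)]⟩⟩,⟨false,1,⟨11,[(9,5),(8,3),(4,0),(0,2),(7,1),(21,1)]⟩,⟨1,
  [(5,0),(46,0),(1,0)]⟩⟩,⟨true,0,⟨7,[(0,3),(6,1),(2,1),(12,0),(0,0),(3,3)]⟩,⟨0,[(3,0),(1,0),(39,
  1)]⟩⟩,⟨true,0,⟨0,[(45,0)]⟩,⟨1,[(34,0),(0,0)]⟩⟩,⟨false,0,⟨0,[(0,0)]⟩,⟨2,[(3,0),(23,1),(28,0)]⟩⟩,
  []⟩) (.R ⟨0,false,false,true,[1,0,0,0,-1],[1,-1],[],(⟨0,[(29,0)]⟩,⟨0,[(30,0)]⟩),(⟨0,[(40,0)]⟩,⟨0,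
  [(41,0)]⟩),⟨0,[(2,0)]⟩,.k,.k,(.r (-1) ⟨7,[(9,3),(8,1),(3,1),(0,0),(0,0),(28,0),(0,0)]⟩ ⟨7,[(1,0),
  (10,1),(9,1),(1,0),(2,0),(6,1),(17,4),(1,0)]⟩),(.r 0 ⟨29,[(1,2),(10,7),(7,0),(1,8),(1,2),(2,2),(6,
  5),(17,18),(1,3)]⟩ ⟨11,[(9,5),(8,3),(4,0),(0,2),(7,1),(21,1)]⟩),.k,.k,⟨true,0,⟨1,[(5,0),(46,0),(1,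
  0)]⟩,⟨0,[(51,0)]⟩⟩,⟨false,0,⟨0,[(28,0)]⟩,⟨1,[(0,0),(2,0),(49,0)]⟩⟩,⟨true,0,⟨0,[]⟩,⟨0,[(56,0)]⟩⟩,
  ⟨false,0,⟨0,[(1,0),(21,0)]⟩,⟨0,[(3,0),(48,0)]⟩⟩,⟨false,0,⟨0,[]⟩,⟨0,[]⟩⟩,⟨false,0,⟨0,[]⟩,⟨0,[]⟩⟩,
  [.o ⟨false,0,⟨0,[(51,0)]⟩,⟨0,[(6,0),(47,0)]⟩⟩,.a ⟨true,0,⟨57,[(20,5),(2,28),(0,5),(7,5),(1,5),(3,
  4),(1,4),(2,2),(3,8)]⟩,⟨0,[(52,0)]⟩⟩ ⟨false,1,⟨1,[(53,0),(0,0)]⟩,⟨0,[(56,0)]⟩⟩ ⟨true,0,⟨4,[(1,1),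
  (5,1),(0,0),(2,1),(2,0),(13,2),(14,0)]⟩,⟨1,[(0,0),(2,0),(1,0),(46,0)]⟩⟩,.e ⟨false,1,⟨1,[(20,0),(1,
  0),(31,0)]⟩,⟨0,[]⟩⟩ ⟨false,0,⟨4,[(1,1),(5,1),(0,0),(2,1),(2,0),(13,2),(14,0)]⟩,⟨0,[(3,0),(48,
  0)]⟩⟩,.o ⟨false,0,⟨0,[(0,0),(43,0)]⟩,⟨1,[(28,1),(10,0),(13,0)]⟩⟩]⟩))) (.Q [-1,1,0,0,0,0,0,0,-1,0,
  0,-1] (.p false [0,0,0,0,1] [] (⟨0,[(28,0)]⟩,⟨0,[(27,0)]⟩) .k 0 (⟨0,[]⟩,⟨0,[]⟩) .k .k) (.S ⟨1,0,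
  [-1,1],[1,0,0,0,-1],[-1],(⟨0,[(28,0)]⟩,⟨0,[(29,0)]⟩),⟨0,[(1,0)]⟩,.k,(.r (-1) ⟨7,[(8,3),(8,1),(3,
  1),(0,0),(0,0),(28,0),(0,0)]⟩ ⟨5,[(11,1),(7,0),(1,2),(29,3),(1,0)]⟩),⟨false,1,⟨1,[(19,0),(1,0),
  (31,0)]⟩,⟨0,[]⟩⟩,⟨true,0,⟨0,[(55,0)]⟩,⟨0,[]⟩⟩,⟨true,0,⟨0,[(51,0)]⟩,⟨0,[(50,0)]⟩⟩,⟨false,0,⟨0,[(51,
  0)]⟩,⟨2,[(17,0),(1,0),(2,0),(11,0),(18,0)]⟩⟩,[.o ⟨false,0,⟨0,[(0,0)]⟩,⟨1,[(27,1),(10,0),(14,0)]⟩⟩,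
  .e ⟨false,1,⟨1,[(42,0),(9,0)]⟩,⟨0,[(55,0)]⟩⟩ ⟨false,1,⟨1,[(19,0),(1,0),(30,0)]⟩,⟨0,[]⟩⟩,.a ⟨true,
  0,⟨3,[(0,2),(1,0),(39,0),(3,1)]⟩,⟨0,[(27,0)]⟩⟩ ⟨false,1,⟨1,[(19,0),(1,0),(31,0)]⟩,⟨0,[]⟩⟩ ⟨true,0,
  ⟨0,[(55,0)]⟩,⟨0,[]⟩⟩,.o ⟨false,0,⟨0,[(0,0),(42,0)]⟩,⟨1,[(27,1),(10,0),(13,0)]⟩⟩]⟩) (.R ⟨2,true,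
  false,false,[0,1],[0,0,0,0,1],[1,1],(⟨0,[]⟩,⟨0,[]⟩),(⟨0,[(29,0)]⟩,⟨0,[(28,0)]⟩),⟨0,[]⟩,.k,.k,.k,
  (.r 0 ⟨5,[(11,1),(7,0),(1,2),(29,3),(1,0)]⟩ ⟨11,[(8,5),(8,3),(4,0),(0,2),(7,1),(21,1)]⟩),.k,.k,
  ⟨true,0,⟨0,[(55,0)]⟩,⟨0,[(49,0)]⟩⟩,⟨false,0,⟨0,[(27,0)]⟩,⟨0,[(2,0),(41,0)]⟩⟩,⟨false,1,⟨11,[(8,5),
  (8,3),(4,0),(0,2),(7,1),(21,1)]⟩,⟨1,[(4,0),(46,0),(1,0)]⟩⟩,⟨true,0,⟨7,[(0,3),(5,1),(2,1),(12,0),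
  (0,0),(3,3)]⟩,⟨0,[(2,0),(1,0),(39,1)]⟩⟩,⟨true,0,⟨0,[(44,0)]⟩,⟨1,[(33,0),(0,0)]⟩⟩,⟨false,0,⟨0,[(0,
  0)]⟩,⟨2,[(2,0),(23,1),(28,0)]⟩⟩,[]⟩))) (.Q [0,0,0,0,0,-1,0,0,0,0,0,1] (.ed false [1,-1,0,0,1] .k)
  (.Q [1,1,0,-2,-1,0,0,0,1,0,0,1] (.p true [0,0,0,0,1] [] (⟨0,[(28,0)]⟩,⟨0,[(27,0)]⟩) .k 0 (⟨0,[]⟩,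
  ⟨0,[]⟩) .k .k) (.R ⟨1,false,false,false,[0,0,0,0,1],[0,1],[],(⟨0,[(29,0)]⟩,⟨0,[(28,0)]⟩),(⟨0,[(40,
  0)]⟩,⟨0,[(39,0)]⟩),⟨0,[(1,0)]⟩,.k,.k,(.r (-1) ⟨11,[(8,5),(8,3),(4,0),(0,2),(7,1),(21,1)]⟩ ⟨5,[(11,
  1),(7,0),(1,2),(29,3),(1,0)]⟩),(.r (-1) ⟨11,[(8,5),(8,3),(4,0),(0,2),(7,1),(21,1)]⟩ ⟨5,[(11,1),(7,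
  0),(1,2),(29,3),(1,0)]⟩),(.r (-2) ⟨5,[(8,5),(8,3),(4,0),(0,2),(7,1),(21,1)]⟩ ⟨0,[(4,1),(37,0),(1,
  1)]⟩),.k,⟨true,1,⟨11,[(8,5),(8,3),(4,0),(0,2),(7,1),(21,1)]⟩,⟨0,[(4,0)]⟩⟩,⟨false,2,⟨0,[(26,0),(25,
  0)]⟩,⟨3,[(0,0),(1,2),(1,1),(37,1)]⟩⟩,⟨false,1,⟨1,[(19,0),(1,0),(31,0)]⟩,⟨0,[]⟩⟩,⟨true,1,⟨0,[(26,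
  0),(24,0)]⟩,⟨1,[(0,0),(1,0)]⟩⟩,⟨true,0,⟨0,[(4,0),(37,0),(1,1)]⟩,⟨0,[(50,0)]⟩⟩,⟨true,1,⟨0,[(26,0),
  (24,1)]⟩,⟨0,[(0,0)]⟩⟩,[.a ⟨true,0,⟨0,[(51,0)]⟩,⟨57,[(19,5),(2,28),(0,5),(7,5),(1,5),(3,4),(1,4),
  (2,2),(3,8)]⟩⟩ ⟨false,1,⟨1,[(19,0),(1,0),(30,0)]⟩,⟨0,[]⟩⟩ ⟨true,1,⟨0,[(26,0),(24,0)]⟩,⟨3,[(0,2),
  (1,0),(1,1),(37,1)]⟩⟩,.o ⟨false,1,⟨0,[(5,0),(47,0)]⟩,⟨0,[(50,0)]⟩⟩,.o ⟨false,0,⟨1,[(2,1),(44,0),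
  (5,0)]⟩,⟨0,[(26,0)]⟩⟩,.e ⟨false,1,⟨1,[(52,0),(0,0)]⟩,⟨1,[(33,0),(0,0)]⟩⟩ ⟨false,2,⟨1,[(26,1),(24,
  1),(0,0),(0,0)]⟩,⟨3,[(0,2),(1,0),(1,1),(37,1)]⟩⟩]⟩) (.Q [0,0,1,0,-1,0,0,0,1,0,0,1] (.p true [0,0,
  0,0,1] [] (⟨0,[(29,0)]⟩,⟨0,[(28,0)]⟩) .k 0 (⟨0,[]⟩,⟨0,[]⟩) .k .k) (.K ⟨0,[0,0,0,0,1],(-1),(-1),
  (⟨0,[(30,0)]⟩,⟨0,[(29,0)]⟩),.k,(.r (-1) ⟨11,[(9,5),(8,3),(4,0),(0,2),(7,1),(21,1)]⟩ ⟨6,[(1,1),(10,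
  1),(9,1),(5,1),(23,0),(2,0)]⟩),(.r 0 ⟨2,[(1,0),(10,0),(9,0),(5,0)]⟩ ⟨7,[(9,3),(8,1),(3,1),(0,0),
  (0,0),(28,0),(0,0)]⟩),.k,.k,[⟨5,[(1,5),(5,2),(1,0),(0,1),(0,1),(22,1),(12,0)]⟩,⟨0,[(0,0)]⟩,⟨0,
  [(27,0),(28,0)]⟩,⟨0,[(3,0)]⟩]⟩) (.R ⟨2,true,false,true,[0,1],[0,0,0,0,1],[1,1,1],(⟨0,[]⟩,⟨0,[]⟩),
  (⟨0,[(30,0)]⟩,⟨0,[(29,0)]⟩),⟨0,[]⟩,.k,.k,.k,(.r 0 ⟨6,[(1,1),(10,1),(9,1),(5,1),(23,0),(2,0)]⟩ ⟨11,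
  [(9,5),(8,3),(4,0),(0,2),(7,1),(21,1)]⟩),.k,.k,⟨true,0,⟨1,[(34,0),(0,0)]⟩,⟨0,[]⟩⟩,⟨false,0,⟨0,
  [(28,0)]⟩,⟨0,[(0,0)]⟩⟩,⟨true,0,⟨0,[(51,0)]⟩,⟨0,[(52,0)]⟩⟩,⟨false,0,⟨3,[(3,1),(19,1),(4,1),(10,0),
  (14,0)]⟩,⟨2,[(0,1),(0,0),(3,0),(37,0)]⟩⟩,⟨false,0,⟨0,[]⟩,⟨1,[(20,0),(1,0),(31,0)]⟩⟩,⟨true,(-1),⟨0,
  [(3,0)]⟩,⟨1,[(0,0),(26,0),(27,0)]⟩⟩,[]⟩))) (.Q [1,1,0,0,-1,0,-1,-1,1,0,-1,1] (.p false [0,0,1] [0,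
  0,0,0,1] (⟨0,[(35,0)]⟩,⟨0,[(34,0)]⟩) .k 2 (⟨0,[(28,0)]⟩,⟨0,[(27,0)]⟩) .k (.r 0 ⟨3,[(3,1),(12,0),
  (2,2),(9,0),(11,0),(8,1)]⟩ ⟨1,[(18,1),(13,0),(0,0)]⟩)) (.R ⟨0,false,false,false,[0,0,0,0,1],[0,1],
  [],(⟨0,[(29,0)]⟩,⟨0,[(28,0)]⟩),(⟨0,[(40,0)]⟩,⟨0,[(39,0)]⟩),⟨0,[(1,0)]⟩,.k,.k,(.r (-1) ⟨11,[(8,5),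
  (8,3),(4,0),(0,2),(7,1),(21,1)]⟩ ⟨5,[(11,1),(7,0),(1,2),(29,3),(1,0)]⟩),(.r (-1) ⟨11,[(8,5),(8,3),
  (4,0),(0,2),(7,1),(21,1)]⟩ ⟨5,[(11,1),(7,0),(1,2),(29,3),(1,0)]⟩),.k,.k,⟨true,1,⟨11,[(8,5),(8,3),
  (4,0),(0,2),(7,1),(21,1)]⟩,⟨0,[(4,0)]⟩⟩,⟨false,2,⟨0,[(26,0),(25,0)]⟩,⟨3,[(0,0),(1,2),(1,1),(5,0),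
  (31,1)]⟩⟩,⟨false,1,⟨1,[(19,0),(1,0),(31,0)]⟩,⟨0,[]⟩⟩,⟨true,1,⟨0,[(26,0),(24,0)]⟩,⟨1,[(0,0),(1,0),
  (7,0)]⟩⟩,⟨false,0,⟨0,[]⟩,⟨0,[]⟩⟩,⟨false,0,⟨0,[]⟩,⟨0,[]⟩⟩,[.a ⟨true,0,⟨0,[(51,0)]⟩,⟨57,[(19,5),(2,
  28),(0,5),(7,5),(1,5),(3,4),(1,4),(2,2),(3,8)]⟩⟩ ⟨false,1,⟨1,[(19,0),(1,0),(30,0)]⟩,⟨0,[]⟩⟩ ⟨true,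
  1,⟨0,[(26,0),(24,0)]⟩,⟨3,[(0,2),(1,0),(1,1),(5,2),(31,1)]⟩⟩,.o ⟨false,1,⟨0,[(5,0),(47,0)]⟩,⟨0,
  [(50,0)]⟩⟩,.o ⟨false,0,⟨1,[(2,1),(44,0),(5,0)]⟩,⟨0,[(26,0)]⟩⟩,.e ⟨false,1,⟨1,[(52,0),(0,0)]⟩,⟨1,
  [(33,0),(0,0)]⟩⟩ ⟨false,2,⟨1,[(26,1),(24,1),(0,0),(0,0)]⟩,⟨3,[(0,2),(1,0),(1,1),(5,2),(31,
  1)]⟩⟩]⟩) (.S ⟨1,0,[-1,1],[1,0,0,0,-1],[-1],(⟨0,[(28,0)]⟩,⟨0,[(29,0)]⟩),⟨1,[(1,0),(10,0),(11,0),(3,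
  0)]⟩,.k,(.r (-1) ⟨7,[(8,3),(8,1),(3,1),(0,0),(0,0),(28,0),(0,0)]⟩ ⟨5,[(11,1),(7,0),(1,2),(29,3),
  (1,0)]⟩),⟨false,1,⟨1,[(19,0),(1,0),(31,0)]⟩,⟨0,[]⟩⟩,⟨true,0,⟨0,[(55,0)]⟩,⟨0,[]⟩⟩,⟨true,0,⟨0,[(51,
  0)]⟩,⟨0,[(50,0)]⟩⟩,⟨false,0,⟨0,[(51,0)]⟩,⟨2,[(17,0),(1,0),(2,0),(11,0),(18,0)]⟩⟩,[.a ⟨true,0,⟨13,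
  [(0,11),(5,0),(0,11),(0,4),(2,5),(14,1),(17,13),(1,0)]⟩,⟨0,[(2,0),(50,0)]⟩⟩ ⟨false,1,⟨1,[(19,0),
  (1,0),(30,0)]⟩,⟨0,[]⟩⟩ ⟨true,0,⟨0,[(55,0)]⟩,⟨0,[(43,0)]⟩⟩,.o ⟨false,1,⟨2,[(0,0),(2,0),(4,0),(17,
  1),(24,0)]⟩,⟨1,[(2,1),(35,0),(14,0)]⟩⟩,.o ⟨false,1,⟨0,[(26,0)]⟩,⟨1,[(2,1),(44,0),(5,0)]⟩⟩,.e
  ⟨false,1,⟨1,[(42,0),(9,0)]⟩,⟨1,[(33,0),(0,0)]⟩⟩ ⟨false,1,⟨1,[(19,0),(1,0),(30,0)]⟩,⟨0,[(43,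
  0)]⟩⟩]⟩)))) (.R ⟨0,false,false,false,[1,-1,-1],[1,-1],[0,0,0,-1],(⟨0,[(21,0)]⟩,⟨37,[(16,1),(3,1),
  (7,1),(1,1),(2,37),(3,13),(4,7),(0,2),(6,0)]⟩),(⟨0,[(36,0)]⟩,⟨0,[(37,0)]⟩),⟨2,[(9,0),(12,1),(11,
  0),(7,2)]⟩,.k,.k,(.r (-2) ⟨2,[(5,2),(8,0),(1,0),(2,0),(11,0),(18,0)]⟩ ⟨1,[(1,2),(15,1),(30,2),(1,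
  0)]⟩),.k,.k,.k,⟨true,0,⟨1,[(30,0),(0,0)]⟩,⟨0,[]⟩⟩,⟨false,1,⟨4,[(0,1),(15,1),(11,1),(1,0),(19,0)]⟩,
  ⟨0,[(12,0)]⟩⟩,⟨false,0,⟨0,[(1,0),(15,0),(32,0)]⟩,⟨0,[(16,0)]⟩⟩,⟨true,0,⟨0,[(13,0),(34,0)]⟩,⟨0,
  [(29,0)]⟩⟩,⟨false,0,⟨0,[]⟩,⟨0,[]⟩⟩,⟨false,0,⟨0,[]⟩,⟨0,[]⟩⟩,[.a ⟨true,0,⟨57,[(16,5),(2,28),(0,5),
  (7,5),(1,5),(3,4),(1,4),(2,2),(3,8)]⟩,⟨0,[(48,0)]⟩⟩ ⟨false,1,⟨11,[(5,5),(8,3),(4,0),(0,2),(7,1),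
  (21,1)]⟩,⟨0,[(48,0)]⟩⟩ ⟨true,1,⟨8,[(0,2),(4,2),(8,1),(4,1),(8,0),(1,2),(19,0)]⟩,⟨0,[(1,0),(10,
  0)]⟩⟩,.o ⟨false,1,⟨2,[(14,0),(1,0),(2,0),(11,0),(18,0)]⟩,⟨0,[(2,0)]⟩⟩,.a ⟨true,(-1),⟨0,[(4,0)]⟩,
  ⟨4,[(0,1),(15,1),(11,1),(1,0),(19,0)]⟩⟩ ⟨false,1,⟨2,[(14,0),(1,0),(2,0),(11,0),(18,0)]⟩,⟨0,[(48,
  0)]⟩⟩ ⟨true,1,⟨8,[(0,2),(4,2),(8,1),(4,1),(8,0),(1,2),(19,0)]⟩,⟨0,[(2,0),(1,0)]⟩⟩,.a ⟨true,(-1),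
  ⟨5,[(4,3),(3,1),(9,1),(0,0),(0,0),(19,1)]⟩,⟨0,[(0,0)]⟩⟩ ⟨true,1,⟨11,[(5,5),(8,3),(4,0),(0,2),(7,
  1),(21,1)]⟩,⟨0,[(1,0),(39,0)]⟩⟩ ⟨false,2,⟨5,[(0,2),(4,2),(8,0),(4,0),(8,1),(21,4)]⟩,⟨0,[(1,0),(10,
  0)]⟩⟩]⟩))) (.R ⟨1,false,false,false,[0,0,1],[1,-1],[0,0,0,0,0,0,0,1],(⟨0,[(31,0)]⟩,⟨0,[(30,0)]⟩),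
  (⟨0,[(34,0)]⟩,⟨0,[(35,0)]⟩),⟨0,[(20,0)]⟩,.k,.k,.k,.k,.k,.k,⟨false,0,⟨1,[(2,0),(9,0),(2,0),(30,
  3)]⟩,⟨1,[(1,0),(1,0),(44,0)]⟩⟩,⟨true,(-1),⟨0,[(2,0)]⟩,⟨1,[(28,1),(4,0),(13,0)]⟩⟩,⟨false,1,⟨1,[(14,
  0),(1,0),(31,0)]⟩,⟨0,[]⟩⟩,⟨true,0,⟨0,[(0,0),(26,0)]⟩,⟨0,[(9,0),(36,1)]⟩⟩,⟨true,0,⟨0,[(46,0)]⟩,⟨0,
  [(45,0)]⟩⟩,⟨true,0,⟨6,[(0,1),(5,1),(7,0),(10,2),(1,3),(13,0),(6,1)]⟩,⟨0,[(9,0),(36,0)]⟩⟩,[.a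
  ⟨true,0,⟨24,[(0,2),(13,2),(2,10),(0,2),(7,2),(1,2),(3,1),(1,1),(6,2)]⟩,⟨0,[(46,0)]⟩⟩ ⟨true,0,⟨1,
  [(2,0),(9,0),(2,0),(30,1)]⟩,⟨1,[(1,0),(4,0),(41,0)]⟩⟩ ⟨false,0,⟨0,[(8,0)]⟩,⟨1,[(28,1),(4,0),(12,
  1),(0,0)]⟩⟩,.a ⟨true,0,⟨0,[(0,0)]⟩,⟨6,[(6,0),(7,0),(1,1),(26,2),(2,5)]⟩⟩ ⟨false,1,⟨0,[(15,0),(30,
  0),(1,0)]⟩,⟨0,[(13,0)]⟩⟩ ⟨true,0,⟨0,[(0,0),(9,0)]⟩,⟨3,[(6,0),(2,1),(3,0),(14,1),(4,0),(12,4)]⟩⟩,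
  .o ⟨false,1,⟨1,[(28,1),(4,0),(13,0)]⟩,⟨0,[(10,0)]⟩⟩,.a ⟨true,0,⟨0,[(28,0)]⟩,⟨0,[(25,0)]⟩⟩ ⟨false,
  1,⟨0,[(15,0),(30,0),(1,0)]⟩,⟨1,[(1,0),(4,0),(41,0)]⟩⟩ ⟨true,0,⟨0,[(8,0)]⟩,⟨3,[(6,0),(2,1),(3,0),
  (14,1),(4,0),(12,4)]⟩⟩]⟩)) (.S ⟨1,0,[0,0,0,0,0,0,0,-1],[1,0,-1],[1,1,0,-1,0,0,0,-1],(⟨0,[(29,0)]⟩,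
  ⟨0,[(30,0)]⟩),⟨0,[(18,0)]⟩,.k,.k,⟨true,0,⟨0,[(44,0)]⟩,⟨0,[(45,0)]⟩⟩,⟨false,1,⟨1,[(13,0),(1,0),(31,
  0)]⟩,⟨0,[]⟩⟩,⟨false,0,⟨0,[]⟩,⟨1,[(13,0),(1,0),(31,0)]⟩⟩,⟨true,0,⟨0,[(45,0)]⟩,⟨0,[(44,0)]⟩⟩,[.e
  ⟨false,1,⟨1,[(2,1),(24,0),(0,0)]⟩,⟨0,[(0,0)]⟩⟩ ⟨false,1,⟨0,[(13,0)]⟩,⟨2,[(0,0),(13,0),(0,0)]⟩⟩,.o
  ⟨false,1,⟨0,[(26,0),(20,0)]⟩,⟨0,[(8,0),(36,0)]⟩⟩,.o ⟨false,0,⟨0,[(9,0)]⟩,⟨1,[(27,1),(4,0),(13,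
  0)]⟩⟩,.a ⟨true,(-1),⟨0,[(1,0)]⟩,⟨0,[(27,0),(18,0)]⟩⟩ ⟨false,1,⟨0,[(2,0),(34,0)]⟩,⟨3,[(0,2),(4,0),
  (9,1),(31,0)]⟩⟩ ⟨true,1,⟨0,[(13,0)]⟩,⟨1,[(0,0),(0,0),(3,0),(2,0),(5,0)]⟩⟩]⟩))) (.S ⟨1,0,[0,0,0,0,
  0,0,0,-1],[1,0,-1],[1,1,1],(⟨0,[(27,0)]⟩,⟨0,[(28,0)]⟩),⟨0,[(16,0)]⟩,.k,.k,⟨true,(-1),⟨1,[(0,0),(2,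
  0),(8,1)]⟩,⟨0,[(11,0)]⟩⟩,⟨false,1,⟨1,[(11,0),(1,0),(31,0)]⟩,⟨0,[]⟩⟩,⟨false,(-1),⟨0,[(0,0),(35,
  0)]⟩,⟨2,[(9,0),(1,3),(2,0),(11,0),(18,0)]⟩⟩,⟨true,0,⟨0,[(43,0)]⟩,⟨0,[(42,0)]⟩⟩,[.e ⟨false,0,⟨0,
  [(47,0)]⟩,⟨1,[(44,0),(0,0)]⟩⟩ ⟨false,1,⟨0,[(11,0)]⟩,⟨2,[(0,0),(11,0),(0,0),(30,0)]⟩⟩,.o ⟨false,1,
  ⟨0,[(24,0),(20,0)]⟩,⟨0,[(6,0),(36,0)]⟩⟩,.o ⟨false,0,⟨0,[(7,0)]⟩,⟨1,[(25,1),(4,0),(13,0)]⟩⟩,.a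
  ⟨true,(-1),⟨1,[(0,0),(2,0),(1,1)]⟩,⟨0,[(25,0),(18,0)]⟩⟩ ⟨false,0,⟨0,[]⟩,⟨1,[(11,0),(1,0),(31,
  0)]⟩⟩ ⟨true,1,⟨0,[(11,0)]⟩,⟨1,[(0,0),(2,0),(8,1)]⟩⟩]⟩))))))

theorem ok3 : chk K t3 l9 = true := by decide +kernel

noncomputable def t4 : Tre :=
  (.R ⟨0,false,false,true,[0,-1,1],[1,-1],[],(⟨0,[(13,0)]⟩,⟨37,[(7,1),(3,1),(7,1),(1,1),(1,37),(4,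
  13),(4,7),(0,2),(6,0)]⟩),(⟨0,[(27,0)]⟩,⟨0,[(28,0)]⟩),⟨5,[(0,1),(11,3),(5,1),(14,3),(1,0),(4,0)]⟩,
  .k,.k,(.x 1 ⟨0,[(0,0)]⟩ ⟨3,[(7,0),(1,0),(1,1),(1,3),(12,2),(0,3),(12,3)]⟩),.k,.k,.k,⟨true,0,⟨0,
  [(31,0),(7,0)]⟩,⟨0,[(38,0)]⟩⟩,⟨false,0,⟨0,[(18,0)]⟩,⟨3,[(1,0),(3,0),(1,1),(11,0),(1,0),(4,0)]⟩⟩,
  ⟨true,0,⟨0,[(6,0),(24,0),(7,0)]⟩,⟨0,[(8,0)]⟩⟩,⟨false,0,⟨0,[(6,0),(11,0),(12,0)]⟩,⟨0,[(5,0),(33,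
  0)]⟩⟩,⟨false,0,⟨0,[]⟩,⟨0,[]⟩⟩,⟨false,0,⟨0,[]⟩,⟨0,[]⟩⟩,[.o ⟨false,0,⟨0,[(38,0)]⟩,⟨1,[(26,0),(12,1),
  (1,0)]⟩⟩,.e ⟨false,1,⟨1,[(40,0),(0,0)]⟩,⟨0,[(43,0)]⟩⟩ ⟨false,1,⟨1,[(10,0),(0,0),(28,1)]⟩,⟨0,[(1,
  0)]⟩⟩,.a ⟨true,0,⟨0,[(21,0)]⟩,⟨0,[(18,0)]⟩⟩ ⟨false,1,⟨1,[(7,0),(1,0),(31,0)]⟩,⟨0,[]⟩⟩ ⟨true,0,⟨7,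
  [(8,1),(1,2),(0,0),(6,3),(1,1),(15,1)]⟩,⟨0,[(1,0)]⟩⟩,.o ⟨false,0,⟨0,[(1,0),(29,0),(6,0)]⟩,⟨1,[(18,
  1),(7,0),(13,0)]⟩⟩]⟩)

theorem ok4 : chk K t4 l10 = true := by decide +kernel

noncomputable def t5 : Tre :=
  (.I [1,-1,-1,-2,1,0,0,1] (.I [1,0,2,1,-1] (.Q [0,0,-1,0,1,0,1,0,0,-1,1] (.p true [0,0,1] [1] (⟨0,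
  [(27,0)]⟩,⟨0,[(26,0)]⟩) .k 1 (⟨0,[]⟩,⟨0,[]⟩) .k .k) (.S ⟨1,0,[0,1,0,0,0,0,0,-1],[1,0,-1],[0,0,0,0,
  0,0,0,-1],(⟨0,[(27,0)]⟩,⟨0,[(28,0)]⟩),⟨0,[(16,0)]⟩,.k,.k,⟨false,1,⟨1,[(11,0),(1,0),(31,0)]⟩,⟨0,
  []⟩⟩,⟨true,0,⟨0,[(47,0)]⟩,⟨0,[]⟩⟩,⟨true,0,⟨0,[(43,0)]⟩,⟨0,[(42,0)]⟩⟩,⟨false,0,⟨0,[(43,0)]⟩,⟨7,[(2,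
  1),(8,1),(2,1),(10,1),(0,1),(3,0),(14,2)]⟩⟩,[.o ⟨false,0,⟨0,[(24,0)]⟩,⟨0,[(9,0),(33,0)]⟩⟩,.a
  ⟨true,0,⟨0,[(10,0),(11,0),(12,0)]⟩,⟨0,[(8,0),(34,0)]⟩⟩ ⟨true,1,⟨0,[(10,0),(34,0)]⟩,⟨0,[(1,0),(10,
  0)]⟩⟩ ⟨false,1,⟨0,[(11,0)]⟩,⟨1,[(1,0),(10,1),(30,0),(1,0)]⟩⟩,.o ⟨false,0,⟨0,[(7,0)]⟩,⟨7,[(0,1),
  (10,1),(11,1),(1,3),(4,2),(14,0)]⟩⟩,.o ⟨false,0,⟨0,[(26,0)]⟩,⟨0,[(0,0)]⟩⟩]⟩) (.I [0,-1,0,1,0,0,0,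
  1] (.S ⟨1,0,[0,0,0,0,0,0,0,-1],[1,0,-1],[],(⟨0,[(28,0)]⟩,⟨0,[(29,0)]⟩),⟨0,[(17,0)]⟩,.k,.k,⟨true,0,
  ⟨2,[(0,0),(12,0),(0,0)]⟩,⟨0,[(11,0)]⟩⟩,⟨false,1,⟨1,[(12,0),(1,0),(31,0)]⟩,⟨0,[]⟩⟩,⟨false,0,⟨0,[(0,
  0)]⟩,⟨9,[(4,1),(7,7),(2,5),(10,1),(0,1),(3,2),(14,0)]⟩⟩,⟨true,0,⟨0,[(44,0)]⟩,⟨0,[(43,0)]⟩⟩,[.e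
  ⟨false,1,⟨1,[(12,0),(1,0),(30,0)]⟩,⟨0,[]⟩⟩ ⟨false,1,⟨0,[(12,0)]⟩,⟨2,[(0,0),(12,0),(0,0)]⟩⟩,.o
  ⟨false,1,⟨0,[(25,0),(20,0)]⟩,⟨2,[(0,0),(5,0),(0,1),(33,0)]⟩⟩,.o ⟨false,0,⟨0,[(8,0)]⟩,⟨3,[(6,0),(3,
  0),(1,1),(11,0),(1,0),(4,0)]⟩⟩,.a ⟨true,(-1),⟨0,[(1,0)]⟩,⟨0,[(26,0),(18,0)]⟩⟩ ⟨false,1,⟨1,[(45,0),
  (0,0)]⟩,⟨1,[(26,0),(0,0)]⟩⟩ ⟨true,1,⟨0,[(12,0)]⟩,⟨0,[(2,0),(10,0)]⟩⟩]⟩) (.Q [0,0,0,2,0,0,1,1,0,-1,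
  1] (.p true [0,0,1] [1] (⟨0,[(29,0)]⟩,⟨0,[(28,0)]⟩) .k 1 (⟨0,[]⟩,⟨0,[]⟩) .k .k) (.R ⟨1,true,false,
  false,[1,0,-1],[0,1],[1,1,0,-1,0,0,0,-1],(⟨0,[(29,0)]⟩,⟨0,[(30,0)]⟩),(⟨0,[(34,0)]⟩,⟨0,[(33,0)]⟩),
  ⟨0,[(18,0)]⟩,.k,.k,.k,.k,(.r (-2) ⟨2,[(1,0),(2,1),(8,3),(30,0)]⟩ ⟨7,[(0,4),(1,0),(0,5),(11,2),(1,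
  1),(22,0)]⟩),.k,⟨true,1,⟨2,[(1,1),(2,0),(8,1),(30,1)]⟩,⟨0,[(0,0),(1,0),(34,0)]⟩⟩,⟨false,2,⟨7,[(0,
  1),(7,0),(2,2),(1,7),(11,1),(6,0),(13,3)]⟩,⟨0,[(2,0)]⟩⟩,⟨true,0,⟨0,[(44,0)]⟩,⟨0,[(45,0)]⟩⟩,⟨false,
  1,⟨3,[(0,1),(24,1),(6,0),(14,2)]⟩,⟨1,[(1,1),(0,0),(21,0),(22,0)]⟩⟩,⟨false,0,⟨0,[]⟩,⟨1,[(13,0),(1,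
  0),(31,0)]⟩⟩,⟨true,0,⟨0,[(0,0)]⟩,⟨1,[(1,1),(14,0),(0,0)]⟩⟩,[]⟩) (.Q [0,0,1,1,-1,0,-2,-1,0,1,-2]
  (.p false [0,0,1] [1,0,-1] (⟨0,[(30,0)]⟩,⟨0,[(29,0)]⟩) .k 2 (⟨0,[(29,0)]⟩,⟨0,[(30,0)]⟩) .k (.r 0
  ⟨0,[(3,0),(10,1),(30,0),(1,0)]⟩ ⟨1,[(1,0),(3,0),(7,1),(33,0)]⟩)) (.I [0,0,-2,-2,1,0,0,1] (.R ⟨1,
  true,false,true,[0,0,1],[0,1],[0,0,0,0,0,0,0,1],(⟨0,[(32,0)]⟩,⟨0,[(31,0)]⟩),(⟨0,[(36,0)]⟩,⟨0,[(35,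
  0)]⟩),⟨0,[(21,0)]⟩,.k,.k,.k,.k,(.r (-1) ⟨0,[(0,0)]⟩ ⟨1,[(7,1),(7,0),(1,0),(29,1),(1,0)]⟩),.k,
  ⟨true,1,⟨0,[(16,0),(32,0)]⟩,⟨0,[(7,0)]⟩⟩,⟨false,1,⟨1,[(26,1),(7,0),(13,0)]⟩,⟨0,[(29,0)]⟩⟩,⟨false,
  1,⟨1,[(15,0),(1,0),(31,0)]⟩,⟨0,[]⟩⟩,⟨true,0,⟨23,[(1,10),(5,3),(7,8),(3,0),(14,5),(9,9),(2,8)]⟩,⟨0,
  [(12,0)]⟩⟩,⟨true,0,⟨0,[(47,0)]⟩,⟨0,[(46,0)]⟩⟩,⟨false,0,⟨0,[(1,0),(7,0),(38,0)]⟩,⟨0,[(6,0),(22,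
  0)]⟩⟩,[]⟩) (.Q [0,0,0,0,0,2,0,0,0,-1,1] (.p true [0,0,1] [1] (⟨0,[(32,0)]⟩,⟨0,[(31,0)]⟩) .k 1 (⟨0,
  []⟩,⟨0,[]⟩) .k .k) (.R ⟨0,false,false,true,[1,-1,-1],[0,-1,1],[],(⟨0,[(21,0)]⟩,⟨17,[(0,7),(15,1),
  (3,1),(7,1),(1,1),(2,9),(0,1),(8,2),(6,0)]⟩),(⟨0,[(22,0)]⟩,⟨37,[(16,1),(3,1),(7,1),(1,1),(1,37),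
  (4,13),(4,7),(0,2),(6,0)]⟩),⟨0,[(0,0)]⟩,.k,.k,(.r (-2) ⟨2,[(4,0),(2,1),(8,3),(30,0)]⟩ ⟨1,[(6,2),
  (10,1),(30,2),(1,0)]⟩),.k,.k,.k,⟨false,1,⟨5,[(1,1),(14,4),(1,0),(29,1),(1,2)]⟩,⟨0,[(17,0)]⟩⟩,
  ⟨true,1,⟨0,[(10,0),(2,0),(2,0)]⟩,⟨0,[(5,0),(6,0)]⟩⟩,⟨false,0,⟨0,[(6,0),(10,0),(30,0),(1,0)]⟩,⟨1,
  [(4,1),(44,0),(0,0)]⟩⟩,⟨true,0,⟨0,[(10,0),(2,0),(3,0),(30,0)]⟩,⟨5,[(1,1),(0,3),(0,3),(12,1),(18,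
  0),(13,2)]⟩⟩,⟨false,0,⟨0,[]⟩,⟨0,[]⟩⟩,⟨false,0,⟨0,[]⟩,⟨0,[]⟩⟩,[.o ⟨false,0,⟨0,[(11,0)]⟩,⟨7,[(1,1),
  (0,0),(13,4),(3,2),(14,1),(12,2),(1,3)]⟩⟩,.e ⟨false,1,⟨1,[(49,0),(0,0)]⟩,⟨0,[(52,0)]⟩⟩ ⟨false,2,
  ⟨5,[(10,1),(0,0),(1,3),(0,2),(1,3),(11,1),(20,4)]⟩,⟨0,[(2,0)]⟩⟩,.a ⟨true,(-1),⟨0,[(5,0)]⟩,⟨0,[(30,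
  0),(18,0)]⟩⟩ ⟨false,1,⟨1,[(16,0),(1,0),(31,0)]⟩,⟨0,[]⟩⟩ ⟨true,1,⟨2,[(10,0),(0,1),(1,1),(2,1),(11,
  0),(20,0)]⟩,⟨0,[(2,0)]⟩⟩,.o ⟨false,(-1),⟨0,[(2,0),(8,0),(28,0)]⟩,⟨5,[(10,1),(3,1),(1,3),(11,1),(6,
  0),(13,4)]⟩⟩]⟩) (.Q [0,0,0,-1,0,0,-2,-2,0,1,-2] (.p false [0,0,1] [1,0,-1] (⟨0,[(33,0)]⟩,⟨0,[(32,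
  0)]⟩) .k 2 (⟨0,[(32,0)]⟩,⟨0,[(33,0)]⟩) .k (.r 0 ⟨0,[(6,0),(10,1),(30,0),(1,0)]⟩ ⟨1,[(4,0),(3,0),
  (7,1),(33,0)]⟩)) (.I [0,0,1,1,-1,0,0,2] (.R ⟨1,true,false,false,[1,0,-1],[0,1,1],[1,1,0,-1,0,0,0,
  -1],(⟨0,[(34,0)]⟩,⟨0,[(35,0)]⟩),(⟨37,[(18,1),(3,1),(7,1),(1,1),(2,37),(3,13),(4,7),(0,2),(6,0)]⟩,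
  ⟨0,[(23,0)]⟩),⟨0,[(23,0)]⟩,.k,.k,.k,(.r (-2) ⟨3,[(5,1),(12,6),(1,0),(11,1),(4,0)]⟩ ⟨0,[(0,0)]⟩),
  (.r (-2) ⟨0,[(6,1),(44,0),(0,0)]⟩ ⟨3,[(0,2),(2,0),(16,2),(29,2)]⟩),.k,⟨true,1,⟨1,[(6,3),(44,0),(0,
  0)]⟩,⟨7,[(0,8),(2,2),(16,0),(29,0),(1,3)]⟩⟩,⟨false,2,⟨0,[(12,0),(2,0),(2,0),(32,0)]⟩,⟨0,[(7,0),(6,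
  0)]⟩⟩,⟨true,0,⟨0,[(49,0)]⟩,⟨0,[(50,0)]⟩⟩,⟨false,1,⟨3,[(0,1),(11,3),(2,1),(14,1),(20,2),(0,2)]⟩,⟨0,
  [(1,0)]⟩⟩,⟨false,0,⟨0,[]⟩,⟨1,[(18,0),(1,0),(31,0)]⟩⟩,⟨true,0,⟨5,[(0,2),(1,8),(0,13),(7,8),(0,0),
  (0,1),(1,17),(25,0),(2,11),(6,6)]⟩,⟨0,[(1,0),(47,0)]⟩⟩,[]⟩) (.I [0,0,0,0,1,0,0,0,-1] (.I [1,0,0,0,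
  0,3,0,0,1] (.I [1,0,0,-1,0,1,1,1] (.C [(0,1),(2,0),(1,0),(0,2),(0,1),(6,2),(1,0),(1,3),(25,0),(1,
  0),(0,1)]) (.C [(0,0),(4,0),(12,0),(28,0)])) (.C [(0,0),(27,0),(0,0),(16,0)])) (.C [(0,0),(25,0),
  (2,0)]))) (.R ⟨1,true,false,false,[1,0,-1],[0,0,1],[0,1,0,0,0,0,0,-1],(⟨0,[(33,0)]⟩,⟨0,[(34,0)]⟩),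
  (⟨0,[(34,0)]⟩,⟨0,[(33,0)]⟩),⟨0,[(22,0)]⟩,.k,.k,.k,.k,(.r (-2) ⟨3,[(4,1),(12,6),(1,0),(11,1),(4,
  0)]⟩ ⟨0,[(0,0),(5,0),(6,0)]⟩),.k,⟨false,1,⟨0,[(16,0),(0,0)]⟩,⟨0,[(0,0),(2,0),(4,0)]⟩⟩,⟨true,1,⟨0,
  [(11,0),(2,0),(2,0)]⟩,⟨0,[(6,0),(6,0)]⟩⟩,⟨true,0,⟨0,[(53,0)]⟩,⟨0,[]⟩⟩,⟨false,1,⟨1,[(0,0),(14,0),
  (13,0),(21,0)]⟩,⟨5,[(2,1),(0,3),(0,3),(12,1),(18,0),(13,2)]⟩⟩,⟨false,0,⟨0,[(49,0)]⟩,⟨15,[(4,1),(3,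
  5),(8,3),(13,5),(0,3),(3,0),(14,4)]⟩⟩,⟨true,0,⟨0,[(0,0)]⟩,⟨4,[(3,0),(0,2),(11,1),(0,0),(3,0),(8,
  2)]⟩⟩,[]⟩)))) (.I [0,0,-2,-2,1,0,0,1] (.Q [0,0,0,0,0,2,0,0,0,0,-1] (.p false [0,0,1] [] (⟨0,[(32,
  0)]⟩,⟨0,[(31,0)]⟩) .k 0 (⟨0,[]⟩,⟨0,[]⟩) .k .k) (.R ⟨0,false,false,true,[0,-1,1],[1,-1],[1,1,1],
  (⟨0,[(22,0)]⟩,⟨21,[(0,7),(15,1),(3,1),(7,1),(1,1),(1,13),(4,5),(5,2),(6,0)]⟩),(⟨0,[(36,0)]⟩,⟨0,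
  [(37,0)]⟩),⟨0,[(0,0)]⟩,.k,.k,(.r (-1) ⟨0,[(1,0)]⟩ ⟨1,[(8,1),(7,0),(1,0),(29,1),(1,0)]⟩),.k,.k,.k,
  ⟨true,(-1),⟨0,[(6,0)]⟩,⟨6,[(7,2),(8,3),(1,0),(26,0),(1,0)]⟩⟩,⟨false,0,⟨0,[(27,0)]⟩,⟨7,[(2,0),(7,
  0),(5,2),(11,1),(1,2),(4,2),(14,0)]⟩⟩,⟨true,(-1),⟨0,[(8,0)]⟩,⟨1,[(17,1),(31,0),(0,0)]⟩⟩,⟨false,0,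
  ⟨3,[(3,0),(4,1),(7,0),(10,2),(22,0)]⟩,⟨0,[(14,0),(33,0)]⟩⟩,⟨false,0,⟨0,[]⟩,⟨0,[]⟩⟩,⟨false,0,⟨0,
  []⟩,⟨0,[]⟩⟩,[.o ⟨false,0,⟨0,[(47,0)]⟩,⟨1,[(35,0),(12,1),(1,0)]⟩⟩,.e ⟨false,0,⟨0,[]⟩,⟨1,[(16,0),(1,
  0),(30,0)]⟩⟩ ⟨false,1,⟨3,[(1,1),(14,1),(3,1),(22,0),(5,0)]⟩,⟨0,[(10,0)]⟩⟩,.a ⟨true,0,⟨0,[(30,0)]⟩,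
  ⟨0,[(27,0)]⟩⟩ ⟨false,0,⟨1,[(30,0),(0,0)]⟩,⟨1,[(49,0),(0,0)]⟩⟩ ⟨true,0,⟨6,[(1,0),(1,1),(13,0),(2,
  1),(6,0),(15,0),(1,2)]⟩,⟨0,[(10,0)]⟩⟩,.o ⟨false,0,⟨0,[(8,0),(5,0)]⟩,⟨1,[(27,1),(7,0),(13,0)]⟩⟩]⟩)
  (.Q [0,0,2,0,-1,0,-1,0,0,0,-1] (.p false [0,0,1] [] (⟨0,[(33,0)]⟩,⟨0,[(32,0)]⟩) .k 0 (⟨0,[]⟩,⟨0,
  []⟩) .k .k) (.Q [0,0,0,0,0,0,-2,-2,0,1,-2] (.p false [0,0,1] [1,0,-1] (⟨0,[(34,0)]⟩,⟨0,[(33,0)]⟩)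
  .k 2 (⟨0,[(33,0)]⟩,⟨0,[(34,0)]⟩) .k (.r 0 ⟨0,[(7,0),(10,1),(30,0),(1,0)]⟩ ⟨1,[(5,0),(3,0),(7,1),
  (33,0)]⟩)) (.R ⟨0,false,false,true,[1,-1,-1],[0,-1,1],[],(⟨0,[(23,0)]⟩,⟨37,[(18,1),(3,1),(7,1),(1,
  1),(2,37),(3,13),(4,7),(0,2),(6,0)]⟩),(⟨0,[(24,0)]⟩,⟨37,[(18,1),(3,1),(7,1),(1,1),(1,37),(4,13),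
  (4,7),(0,2),(6,0)]⟩),⟨2,[(2,0),(21,1),(11,0),(7,2)]⟩,.k,.k,(.r (-2) ⟨14,[(3,0),(0,1),(0,3),(3,5),
  (8,19),(18,0),(11,5)]⟩ ⟨1,[(8,2),(10,1),(30,2),(1,0)]⟩),.k,.k,.k,⟨false,1,⟨2,[(10,0),(7,1),(31,1),
  (1,1)]⟩,⟨0,[(19,0)]⟩⟩,⟨true,1,⟨1,[(4,0),(7,0),(5,0),(13,0)]⟩,⟨0,[(7,0),(6,0)]⟩⟩,⟨false,0,⟨0,[(8,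
  0),(10,0),(30,0),(1,0)]⟩,⟨0,[(0,0),(3,0)]⟩⟩,⟨true,0,⟨0,[(12,0),(2,0),(3,0),(30,0)]⟩,⟨0,[(0,0)]⟩⟩,
  ⟨false,0,⟨0,[]⟩,⟨0,[]⟩⟩,⟨false,0,⟨0,[]⟩,⟨0,[]⟩⟩,[.o ⟨false,0,⟨0,[(13,0)]⟩,⟨5,[(0,1),(11,1),(5,1),
  (3,1),(14,0),(12,3),(1,2)]⟩⟩,.a ⟨true,0,⟨0,[(15,0)]⟩,⟨11,[(0,2),(9,1),(7,3),(3,2),(22,2),(4,9),(1,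
  0)]⟩⟩ ⟨false,1,⟨1,[(51,0),(0,0)]⟩,⟨0,[(54,0)]⟩⟩ ⟨true,1,⟨0,[(4,0)]⟩,⟨1,[(0,0),(7,1),(13,0)]⟩⟩,.e
  ⟨false,1,⟨1,[(18,0),(1,0),(31,0)]⟩,⟨0,[]⟩⟩ ⟨false,1,⟨0,[(4,0)]⟩,⟨1,[(0,0),(7,0),(13,0),(27,0),(1,
  0)]⟩⟩,.o ⟨false,(-1),⟨0,[(1,0)]⟩,⟨9,[(4,1),(7,1),(5,5),(11,3),(6,2),(13,6),(0,1)]⟩⟩]⟩) (.Q [0,0,0,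
  1,0,0,0,0,-1,0,0,-1] (.p false [0,0,0,0,1] [] (⟨0,[(28,0)]⟩,⟨0,[(27,0)]⟩) .k 0 (⟨0,[]⟩,⟨0,[]⟩) .k
  .k) (.Q [-1,0,0,1,0,0,0,0,-1,0,0,-1] (.p false [0,0,0,0,1] [] (⟨0,[(29,0)]⟩,⟨0,[(28,0)]⟩) .k 0
  (⟨0,[]⟩,⟨0,[]⟩) .k .k) (.R ⟨2,true,false,true,[0,1],[0,0,0,0,1],[2,1],(⟨0,[]⟩,⟨0,[]⟩),(⟨0,[(30,
  0)]⟩,⟨0,[(29,0)]⟩),⟨0,[]⟩,.k,.k,.k,(.r 0 ⟨5,[(12,1),(7,0),(1,2),(29,3),(1,0)]⟩ ⟨6,[(11,2),(8,3),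
  (1,0),(26,0),(1,0)]⟩),.k,.k,⟨true,0,⟨0,[]⟩,⟨1,[(34,0),(0,0)]⟩⟩,⟨false,0,⟨0,[(28,0)]⟩,⟨2,[(1,1),(3,
  0),(14,0),(6,0)]⟩⟩,⟨false,1,⟨6,[(11,2),(8,3),(1,0),(26,0),(1,0)]⟩,⟨1,[(10,0),(32,0),(8,0)]⟩⟩,
  ⟨true,0,⟨0,[(28,0),(22,0)]⟩,⟨0,[(0,0)]⟩⟩,⟨true,0,⟨0,[(45,0)]⟩,⟨0,[(55,0)]⟩⟩,⟨false,0,⟨0,[(28,0)]⟩,
  ⟨4,[(0,2),(6,0),(10,0),(8,1),(26,1)]⟩⟩,[]⟩) (.Q [0,0,2,0,-1,0,0,0,1,0,0,1] (.p true [0,0,0,0,1]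
  [] (⟨0,[(30,0)]⟩,⟨0,[(29,0)]⟩) .k 0 (⟨0,[]⟩,⟨0,[]⟩) .k .k) (.R ⟨1,true,false,false,[1,-1],[1,0,0,
  0,-1],[0,1,-1,-1],(⟨0,[(41,0)]⟩,⟨0,[(42,0)]⟩),(⟨0,[(30,0)]⟩,⟨0,[(31,0)]⟩),⟨1,[(5,0),(20,0),(14,
  0)]⟩,.k,.k,(.r (-2) ⟨4,[(1,1),(10,3),(8,3),(6,1),(21,1)]⟩ ⟨0,[(11,0),(41,0)]⟩),(.r (-1) ⟨4,[(1,0),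
  (10,1),(8,1),(6,0),(21,0)]⟩ ⟨5,[(13,1),(7,0),(1,2),(29,3),(1,0)]⟩),(.r (-2) ⟨4,[(1,1),(10,3),(8,
  3),(6,1),(21,1)]⟩ ⟨0,[(10,1),(4,1),(28,0),(1,1)]⟩),.k,⟨false,1,⟨1,[(6,0),(14,0),(28,0)]⟩,⟨1,[(11,
  0),(41,0),(1,0)]⟩⟩,⟨true,1,⟨2,[(2,1),(3,0),(14,0),(6,0)]⟩,⟨0,[(0,0)]⟩⟩,⟨true,0,⟨0,[(57,0)]⟩,⟨0,
  []⟩⟩,⟨false,1,⟨1,[(2,0),(25,0),(24,0),(1,0)]⟩,⟨0,[(1,0)]⟩⟩,⟨false,0,⟨0,[(53,0)]⟩,⟨4,[(1,1),(6,0),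
  (10,0),(8,1),(26,1)]⟩⟩,⟨true,0,⟨0,[(2,0),(50,0)]⟩,⟨0,[(1,0),(50,0)]⟩⟩,[]⟩) (.I [0,0,0,1,0,0,0,0,
  -1] (.I [0,0,1,-1,0,0,0,-1] (.I [1,0,1,0,-1,1,-1] (.I [0,0,-2,0,1,0,0,0,-1] (.I [0,0,1,1,0,-1,1]
  (.C [(0,0),(1,0),(2,0),(0,0)]) (.C [(0,0),(19,0),(10,0)])) (.C [(0,0),(3,0),(30,0)])) (.C [(0,0),
  (7,0),(4,0),(36,0)])) (.C [(0,0),(9,0),(6,0)])) (.C [(0,0),(0,0),(9,0),(4,0),(15,0)])))) (.Q [0,0,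
  0,1,0,0,-2,-2,0,1,-2] (.p false [0,0,1] [1,0,-1] (⟨0,[(36,0)]⟩,⟨0,[(35,0)]⟩) .k 2 (⟨0,[(35,0)]⟩,
  ⟨0,[(36,0)]⟩) .k (.r 0 ⟨0,[(1,0),(21,0)]⟩ ⟨1,[(7,0),(3,0),(7,1),(33,0)]⟩)) (.R ⟨1,true,false,
  false,[0,0,1],[1,0,-1],[0,1,0,0,0,0,0,1],(⟨0,[(37,0)]⟩,⟨0,[(36,0)]⟩),(⟨0,[(36,0)]⟩,⟨0,[(37,0)]⟩),
  ⟨0,[(26,0)]⟩,.k,.k,.k,.k,(.x (-1) ⟨17,[(6,4),(1,1),(5,6),(5,2),(13,18),(1,35),(2,6),(6,5),(1,1),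
  (5,0)]⟩ ⟨3,[(4,5),(4,5),(3,1),(32,3),(1,0),(4,2)]⟩),.k,⟨true,(-1),⟨0,[(2,0),(6,0),(6,0),(28,0)]⟩,
  ⟨3,[(8,2),(3,2),(7,1),(33,4)]⟩⟩,⟨false,0,⟨0,[(16,0),(14,0)]⟩,⟨1,[(6,0),(7,0),(5,0),(13,0)]⟩⟩,
  ⟨true,0,⟨0,[(56,0)]⟩,⟨0,[]⟩⟩,⟨false,1,⟨3,[(0,2),(0,0),(5,0),(12,0),(6,0),(7,0),(18,1)]⟩,⟨0,[(2,
  0)]⟩⟩,⟨false,0,⟨0,[(52,0)]⟩,⟨4,[(1,1),(5,0),(10,0),(8,1),(26,1)]⟩⟩,⟨true,0,⟨0,[(0,0)]⟩,⟨2,[(2,0),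
  (12,1),(1,0),(14,0)]⟩⟩,[]⟩) (.Q [0,0,0,2,0,0,-2,-2,0,1,-2] (.p false [0,0,1] [1,0,-1] (⟨0,[(37,
  0)]⟩,⟨0,[(36,0)]⟩) .k 2 (⟨0,[(36,0)]⟩,⟨0,[(37,0)]⟩) .k (.r 0 ⟨0,[(2,0),(21,0)]⟩ ⟨1,[(8,0),(3,0),
  (7,1),(33,0)]⟩)) (.R ⟨1,true,false,false,[0,0,1],[1,1,-1],[0,1,0,0,0,0,0,1],(⟨0,[(38,0)]⟩,⟨0,[(37,
  0)]⟩),(⟨17,[(0,0),(23,0),(8,1),(3,17),(4,5),(4,3),(0,0),(6,0)]⟩,⟨0,[(27,0)]⟩),⟨0,[(27,0)]⟩,.k,.k,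
  .k,(.r 0 ⟨0,[(1,0),(15,0),(14,0)]⟩ ⟨7,[(0,4),(7,0),(12,4),(13,11),(0,0),(3,2)]⟩),(.r (-1) ⟨1,[(3,
  0),(2,1),(18,0)]⟩ ⟨4,[(0,1),(12,3),(1,1),(5,1),(13,1),(19,1)]⟩),.k,⟨false,0,⟨0,[(1,0),(15,0),(14,
  0),(13,0)]⟩,⟨0,[(13,0),(7,0),(33,0)]⟩⟩,⟨true,0,⟨0,[(17,0),(14,0)]⟩,⟨3,[(1,0),(6,1),(6,4),(19,
  2)]⟩⟩,⟨true,0,⟨0,[(57,0)]⟩,⟨0,[]⟩⟩,⟨false,1,⟨5,[(0,4),(1,1),(5,0),(12,0),(6,1),(7,0),(18,2)]⟩,⟨0,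
  [(1,0)]⟩⟩,⟨false,0,⟨0,[(53,0)]⟩,⟨4,[(2,1),(5,0),(10,0),(8,1),(26,1)]⟩⟩,⟨true,0,⟨0,[(0,0)]⟩,⟨5,[(1,
  2),(14,4),(7,1),(8,0)]⟩⟩,[]⟩) (.Q [0,0,0,0,1,0,1,0,-1,0,1,-1] (.p true [0,0,1] [0,0,0,0,1] (⟨0,
  [(38,0)]⟩,⟨0,[(37,0)]⟩) .k 2 (⟨0,[(31,0)]⟩,⟨0,[(30,0)]⟩) .k (.r 0 ⟨17,[(3,8),(0,1),(9,1),(10,6),
  (0,1),(12,5)]⟩ ⟨1,[(21,1),(13,0),(0,0)]⟩)) (.Q [-1,0,0,0,0,0,0,0,-1,1,0,-1] (.p false [0,0,0,0,1]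
  [1] (⟨0,[(32,0)]⟩,⟨0,[(31,0)]⟩) .k 1 (⟨0,[]⟩,⟨0,[]⟩) .k .k) (.Q [0,0,0,0,0,-1,0,0,0,0,0,1] (.ed
  false [1,-1,0,0,1] .k) (.S ⟨1,0,[1,1],[0,0,0,0,1],[],(⟨0,[(34,0)]⟩,⟨0,[(33,0)]⟩),⟨0,[(0,0)]⟩,.k,
  (.r (-1) ⟨2,[(5,0),(3,0),(14,0),(6,0)]⟩ ⟨5,[(16,1),(7,0),(1,2),(29,3),(1,0)]⟩),⟨false,1,⟨1,[(24,
  0),(1,0),(31,0)]⟩,⟨0,[]⟩⟩,⟨true,0,⟨0,[(60,0)]⟩,⟨0,[]⟩⟩,⟨true,0,⟨0,[(13,0),(4,0),(28,0),(1,1)]⟩,⟨0,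
  [(55,0)]⟩⟩,⟨false,0,⟨0,[(56,0)]⟩,⟨4,[(5,1),(5,0),(10,0),(8,1),(26,1)]⟩⟩,[.o ⟨false,0,⟨1,[(5,0),(8,
  0),(17,0),(10,0),(5,1)]⟩,⟨1,[(1,1),(41,0),(14,0)]⟩⟩,.a ⟨true,0,⟨0,[(32,0)]⟩,⟨0,[(1,0)]⟩⟩ ⟨false,1,
  ⟨1,[(57,0),(0,0)]⟩,⟨0,[(60,0)]⟩⟩ ⟨true,0,⟨0,[]⟩,⟨1,[(38,0),(0,0)]⟩⟩,.e ⟨false,1,⟨1,[(24,0),(1,0),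
  (31,0)]⟩,⟨0,[]⟩⟩ ⟨false,0,⟨0,[]⟩,⟨1,[(24,0),(1,0),(31,0)]⟩⟩,.o ⟨false,0,⟨1,[(5,0),(8,0),(17,0),
  (10,0)]⟩,⟨1,[(1,1),(41,0),(13,0)]⟩⟩]⟩) (.R ⟨0,false,false,true,[0,0,0,0,1],[0,1],[1,1,1],(⟨0,[(34,
  0)]⟩,⟨0,[(33,0)]⟩),(⟨0,[(45,0)]⟩,⟨0,[(44,0)]⟩),⟨0,[(0,0)]⟩,.k,.k,(.r (-1) ⟨2,[(5,0),(3,0),(14,0),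
  (6,0)]⟩ ⟨5,[(16,1),(7,0),(1,2),(29,3),(1,0)]⟩),(.r (-1) ⟨2,[(5,0),(3,0),(14,0),(6,0)]⟩ ⟨5,[(16,1),
  (7,0),(1,2),(29,3),(1,0)]⟩),.k,.k,⟨false,1,⟨2,[(5,0),(3,0),(14,0),(6,0)]⟩,⟨0,[(56,0)]⟩⟩,⟨true,1,
  ⟨1,[(1,1),(41,0),(13,0)]⟩,⟨0,[(5,0),(8,0)]⟩⟩,⟨false,0,⟨1,[(38,0),(0,0)]⟩,⟨1,[(57,0),(0,0)]⟩⟩,
  ⟨true,0,⟨1,[(1,1),(12,0),(28,0),(5,1),(6,0)]⟩,⟨0,[(5,0)]⟩⟩,⟨false,0,⟨0,[]⟩,⟨0,[]⟩⟩,⟨false,0,⟨0,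
  []⟩,⟨0,[]⟩⟩,[.o ⟨false,0,⟨1,[(14,0),(28,0),(5,1),(6,0)]⟩,⟨4,[(5,1),(5,0),(10,0),(8,1),(26,1)]⟩⟩,
  .e ⟨false,0,⟨0,[]⟩,⟨1,[(24,0),(1,0),(30,0)]⟩⟩ ⟨false,1,⟨1,[(1,1),(41,0),(12,1),(0,0)]⟩,⟨0,[(5,
  0)]⟩⟩,.a ⟨true,0,⟨0,[(32,0)]⟩,⟨0,[(1,0)]⟩⟩ ⟨false,0,⟨1,[(38,0),(0,0)]⟩,⟨1,[(57,0),(0,0)]⟩⟩ ⟨true,
  0,⟨1,[(1,1),(12,0),(28,0),(5,1),(6,0)]⟩,⟨0,[(5,0)]⟩⟩,.o ⟨false,0,⟨1,[(5,0),(8,0),(17,0),(10,0)]⟩,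
  ⟨1,[(1,1),(41,0),(13,0)]⟩⟩]⟩)) (.Q [0,0,1,0,-1,0,0,0,1,0,0,1] (.p true [0,0,0,0,1] [] (⟨0,[(33,
  0)]⟩,⟨0,[(32,0)]⟩) .k 0 (⟨0,[]⟩,⟨0,[]⟩) .k .k) (.K ⟨0,[0,0,0,0,1],(-1),(-1),(⟨0,[(34,0)]⟩,⟨0,[(33,
  0)]⟩),.k,(.r (-1) ⟨2,[(5,0),(3,0),(14,0),(6,0)]⟩ ⟨5,[(16,1),(7,0),(1,2),(29,3),(1,0)]⟩),(.r 0 ⟨5,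
  [(16,1),(7,0),(1,2),(29,3),(1,0)]⟩ ⟨4,[(5,0),(3,0),(5,0),(8,1),(6,0),(28,0)]⟩),.k,.k,[⟨0,[(2,0)]⟩,
  ⟨0,[(0,0)]⟩,⟨0,[(31,0),(28,0)]⟩,⟨0,[(0,0),(48,0)]⟩]⟩) (.Q [-1,-1,0,0,1,0,0,0,-2,1,0,-2] (.p false
  [0,0,0,0,1] [1,0,0,0,-1] (⟨0,[(34,0)]⟩,⟨0,[(33,0)]⟩) .k 2 (⟨0,[(33,0)]⟩,⟨0,[(34,0)]⟩) .k (.r 0 ⟨0,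
  []⟩ ⟨0,[(3,1),(3,1),(3,3),(1,9),(4,11),(28,12),(1,25)]⟩)) (.R ⟨1,false,false,true,[0,0,1],[0,0,0,
  0,1],[1,1,0,-1,0,0,0,1],(⟨0,[(42,0)]⟩,⟨0,[(41,0)]⟩),(⟨0,[(35,0)]⟩,⟨0,[(34,0)]⟩),⟨0,[(31,0)]⟩,.k,
  .k,.k,.k,(.r (-1) ⟨6,[(10,1),(0,2),(13,0),(1,2),(1,2),(28,0)]⟩ ⟨2,[(17,1),(7,0),(31,0),(1,0)]⟩),
  .k,⟨true,0,⟨1,[(4,0),(24,0)]⟩,⟨2,[(17,1),(7,0),(31,0),(1,0)]⟩⟩,⟨false,0,⟨0,[(2,0),(11,0),(43,0)]⟩,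
  ⟨0,[(3,0)]⟩⟩,⟨true,0,⟨0,[(56,0)]⟩,⟨0,[(57,0)]⟩⟩,⟨false,0,⟨3,[(2,3),(9,0),(4,1),(7,0),(10,2),(22,
  0)]⟩,⟨4,[(0,1),(6,1),(24,0),(4,0),(10,0),(10,0)]⟩⟩,⟨false,0,⟨0,[]⟩,⟨1,[(25,0),(1,0),(31,0)]⟩⟩,
  ⟨false,0,⟨2,[(2,2),(14,1),(7,0),(10,2),(20,0),(1,0)]⟩,⟨41,[(0,20),(3,10),(6,5),(4,4),(6,3),(3,4),
  (11,3),(8,5),(11,1)]⟩⟩,[.o ⟨false,0,⟨6,[(2,4),(3,0),(10,0),(9,0),(5,0),(10,0),(9,2)]⟩,⟨3,[(0,1),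
  (52,0),(5,0)]⟩⟩,.o ⟨false,0,⟨0,[(2,0)]⟩,⟨12,[(0,1),(31,8),(15,0),(4,0),(7,3)]⟩⟩,.o ⟨false,1,⟨5,
  [(3,1),(7,0),(7,0),(5,0),(7,1),(5,0),(4,1)]⟩,⟨0,[(21,0)]⟩⟩,.a ⟨true,0,⟨0,[(39,0)]⟩,⟨0,[(36,0)]⟩⟩
  ⟨true,0,⟨0,[(26,0)]⟩,⟨2,[(17,1),(7,0),(31,0),(1,0)]⟩⟩ ⟨false,0,⟨0,[(2,0),(33,0)]⟩,⟨3,[(0,1),(38,
  3),(13,0),(5,0)]⟩⟩]⟩) (.Q [-1,1,0,1,0,0,0,0,-1,0,0,-1] (.p false [0,0,0,0,1] [] (⟨0,[(35,0)]⟩,⟨0,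
  [(34,0)]⟩) .k 0 (⟨0,[]⟩,⟨0,[]⟩) .k .k) (.R ⟨2,true,false,false,[0,1],[0,0,0,0,1],[1,1],(⟨0,[]⟩,⟨0,
  []⟩),(⟨0,[(36,0)]⟩,⟨0,[(35,0)]⟩),⟨0,[]⟩,.k,.k,.k,(.r 0 ⟨5,[(18,1),(7,0),(1,2),(29,3),(1,0)]⟩ ⟨2,
  [(7,0),(3,0),(14,0),(6,0)]⟩),.k,.k,⟨true,0,⟨0,[(62,0)]⟩,⟨0,[(56,0)]⟩⟩,⟨false,0,⟨0,[(34,0)]⟩,⟨0,
  [(2,0)]⟩⟩,⟨false,1,⟨2,[(7,0),(3,0),(14,0),(6,0)]⟩,⟨1,[(16,0),(41,0),(1,0)]⟩⟩,⟨true,0,⟨0,[(7,0)]⟩,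
  ⟨0,[(0,0)]⟩⟩,⟨true,0,⟨0,[(51,0)]⟩,⟨1,[(40,0),(0,0)]⟩⟩,⟨false,0,⟨3,[(1,1),(51,0),(6,2)]⟩,⟨1,[(2,0),
  (30,0),(27,0)]⟩⟩,[]⟩) (.I [1,0,0,-2,0,1] (.I [0,0,1,-1,0,0,0,-1] (.I [0,0,-1,0,1,0,0,0,-1] (.I [1,
  0,1,0,-1,1,-1] (.I [0,0,1,1,0,-1,1] (.C [(0,0),(0,0),(3,0),(1,0),(48,0)]) (.C [(0,0),(24,0),(10,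
  0)])) (.C [(0,0),(13,0),(4,0),(36,0)])) (.C [(0,0),(4,0),(33,0)])) (.C [(0,0),(14,0),(6,0)])) (.C
  [(0,2),(5,0),(7,1),(38,0)])))))) (.Q [0,0,0,0,0,1,0,0,0,0,0,-1] (.ed true [1,-1,0,0,1] .k) (.R ⟨0,
  false,false,false,[0,0,0,0,1],[0,1],[],(⟨0,[(33,0)]⟩,⟨0,[(32,0)]⟩),(⟨0,[(44,0)]⟩,⟨0,[(43,0)]⟩),⟨0,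
  [(0,0)]⟩,.k,.k,(.r (-1) ⟨2,[(4,0),(3,0),(14,0),(6,0)]⟩ ⟨5,[(15,1),(7,0),(1,2),(29,3),(1,0)]⟩),(.r
  (-1) ⟨2,[(4,0),(3,0),(14,0),(6,0)]⟩ ⟨5,[(15,1),(7,0),(1,2),(29,3),(1,0)]⟩),.k,.k,⟨true,1,⟨2,[(4,
  0),(3,0),(14,0),(6,0)]⟩,⟨0,[(13,0)]⟩⟩,⟨false,2,⟨0,[(30,0),(25,0)]⟩,⟨0,[(1,0),(35,0)]⟩⟩,⟨false,1,
  ⟨1,[(23,0),(1,0),(31,0)]⟩,⟨0,[]⟩⟩,⟨true,1,⟨0,[(30,0),(24,0)]⟩,⟨15,[(1,11),(0,5),(1,3),(6,0),(3,0),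
  (6,9),(27,2),(1,1)]⟩⟩,⟨false,0,⟨0,[]⟩,⟨0,[]⟩⟩,⟨false,0,⟨0,[]⟩,⟨0,[]⟩⟩,[.a ⟨true,0,⟨0,[(55,0)]⟩,
  ⟨57,[(23,5),(2,28),(0,5),(7,5),(1,5),(3,4),(1,4),(2,2),(3,8)]⟩⟩ ⟨false,1,⟨1,[(23,0),(1,0),(30,
  0)]⟩,⟨0,[]⟩⟩ ⟨true,1,⟨0,[(30,0),(24,0)]⟩,⟨4,[(1,4),(0,0),(7,1),(6,0),(19,3)]⟩⟩,.o ⟨false,1,⟨1,
  [(42,0),(12,1),(1,0)]⟩,⟨0,[(54,0)]⟩⟩,.o ⟨false,0,⟨6,[(1,3),(2,0),(4,0),(7,1),(5,0),(7,1),(10,1)]⟩,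
  ⟨0,[(30,0)]⟩⟩,.e ⟨false,1,⟨1,[(56,0),(0,0)]⟩,⟨1,[(37,0),(0,0)]⟩⟩ ⟨false,2,⟨1,[(30,1),(24,1),(0,0),
  (0,0)]⟩,⟨4,[(1,4),(0,0),(7,1),(6,0),(19,3)]⟩⟩]⟩) (.R ⟨1,false,false,false,[0,0,0,0,1],[0,1],[],
  (⟨0,[(33,0)]⟩,⟨0,[(32,0)]⟩),(⟨0,[(44,0)]⟩,⟨0,[(43,0)]⟩),⟨0,[(0,0)]⟩,.k,.k,(.r (-1) ⟨2,[(4,0),(3,
  0),(14,0),(6,0)]⟩ ⟨5,[(15,1),(7,0),(1,2),(29,3),(1,0)]⟩),(.r (-1) ⟨2,[(4,0),(3,0),(14,0),(6,0)]⟩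
  ⟨5,[(15,1),(7,0),(1,2),(29,3),(1,0)]⟩),(.r (-2) ⟨2,[(4,1),(3,1),(14,1),(6,1)]⟩ ⟨0,[(12,1),(4,1),
  (28,0),(1,1)]⟩),.k,⟨true,1,⟨2,[(4,0),(3,0),(14,0),(6,0)]⟩,⟨0,[(13,0)]⟩⟩,⟨false,2,⟨0,[(30,0),(25,
  0)]⟩,⟨0,[(1,0),(35,0)]⟩⟩,⟨false,1,⟨1,[(23,0),(1,0),(31,0)]⟩,⟨0,[]⟩⟩,⟨true,1,⟨0,[(30,0),(24,0)]⟩,
  ⟨15,[(1,11),(0,5),(1,3),(6,0),(3,0),(6,9),(27,2),(1,1)]⟩⟩,⟨true,0,⟨0,[(12,0),(4,0),(28,0),(1,1)]⟩,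
  ⟨0,[(54,0)]⟩⟩,⟨true,1,⟨0,[(30,0),(24,1)]⟩,⟨4,[(1,3),(0,1),(1,0),(6,3),(38,0),(3,0)]⟩⟩,[.a ⟨true,0,
  ⟨0,[(55,0)]⟩,⟨57,[(23,5),(2,28),(0,5),(7,5),(1,5),(3,4),(1,4),(2,2),(3,8)]⟩⟩ ⟨false,1,⟨1,[(23,0),
  (1,0),(30,0)]⟩,⟨0,[]⟩⟩ ⟨true,1,⟨0,[(30,0),(24,0)]⟩,⟨4,[(1,4),(0,0),(7,1),(6,0),(19,3)]⟩⟩,.o
  ⟨false,1,⟨1,[(42,0),(12,1),(1,0)]⟩,⟨0,[(54,0)]⟩⟩,.o ⟨false,0,⟨6,[(1,3),(2,0),(4,0),(7,1),(5,0),(7,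
  1),(10,1)]⟩,⟨0,[(30,0)]⟩⟩,.e ⟨false,1,⟨1,[(56,0),(0,0)]⟩,⟨1,[(37,0),(0,0)]⟩⟩ ⟨false,2,⟨1,[(30,1),
  (24,1),(0,0),(0,0)]⟩,⟨4,[(1,4),(0,0),(7,1),(6,0),(19,3)]⟩⟩]⟩))))))) (.R ⟨0,false,false,false,[1,
  -1,-1],[1,-1],[0,0,0,-1],(⟨0,[(22,0)]⟩,⟨37,[(17,1),(3,1),(7,1),(1,1),(2,37),(3,13),(4,7),(0,2),(6,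
  0)]⟩),(⟨0,[(37,0)]⟩,⟨0,[(38,0)]⟩),⟨2,[(1,0),(21,1),(11,0),(7,2)]⟩,.k,.k,(.r (-2) ⟨14,[(2,0),(0,1),
  (0,3),(3,5),(8,19),(18,0),(11,5)]⟩ ⟨1,[(7,2),(10,1),(30,2),(1,0)]⟩),.k,.k,.k,⟨true,0,⟨1,[(31,0),
  (0,0)]⟩,⟨0,[]⟩⟩,⟨false,1,⟨4,[(0,1),(16,1),(11,1),(1,0),(19,0)]⟩,⟨0,[(13,0)]⟩⟩,⟨false,0,⟨0,[(7,0),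
  (10,0),(32,0)]⟩,⟨0,[(17,0)]⟩⟩,⟨true,0,⟨0,[(14,0),(34,0)]⟩,⟨0,[(30,0)]⟩⟩,⟨false,0,⟨0,[]⟩,⟨0,[]⟩⟩,
  ⟨false,0,⟨0,[]⟩,⟨0,[]⟩⟩,[.a ⟨true,0,⟨57,[(17,5),(2,28),(0,5),(7,5),(1,5),(3,4),(1,4),(2,2),(3,
  8)]⟩,⟨0,[(49,0)]⟩⟩ ⟨false,1,⟨6,[(8,2),(8,3),(1,0),(26,0),(1,0)]⟩,⟨0,[(49,0)]⟩⟩ ⟨true,1,⟨14,[(0,1),
  (2,4),(13,6),(2,4),(8,1),(1,0),(19,0)]⟩,⟨0,[(7,0),(5,0)]⟩⟩,.o ⟨false,1,⟨15,[(4,1),(3,5),(8,3),(13,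
  5),(0,3),(3,0),(14,4)]⟩,⟨1,[(7,0),(28,0),(5,1),(6,0)]⟩⟩,.a ⟨true,(-1),⟨0,[(6,0)]⟩,⟨4,[(0,1),(16,
  1),(11,1),(1,0),(19,0)]⟩⟩ ⟨false,1,⟨15,[(4,1),(3,5),(8,3),(13,5),(0,3),(3,0),(14,4)]⟩,⟨0,[(49,
  0)]⟩⟩ ⟨true,1,⟨14,[(0,1),(2,4),(13,6),(2,4),(8,1),(1,0),(19,0)]⟩,⟨0,[(7,0),(5,0),(28,0)]⟩⟩,.a
  ⟨true,(-1),⟨1,[(6,1),(24,0),(0,0)]⟩,⟨0,[(0,0)]⟩⟩ ⟨true,1,⟨6,[(8,2),(8,3),(1,0),(26,0),(1,0)]⟩,⟨0,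
  [(7,0),(34,0)]⟩⟩ ⟨false,2,⟨18,[(0,8),(2,2),(4,4),(8,11),(2,2),(8,3),(21,8)]⟩,⟨0,[(7,0),(5,
  0)]⟩⟩]⟩))) (.Q [0,0,2,0,-1,0,-1,0,0,0,-1] (.p false [0,0,1] [] (⟨0,[(32,0)]⟩,⟨0,[(31,0)]⟩) .k 0
  (⟨0,[]⟩,⟨0,[]⟩) .k .k) (.Q [0,0,0,-1,0,0,-2,-2,0,1,-2] (.p false [0,0,1] [1,0,-1] (⟨0,[(33,0)]⟩,
  ⟨0,[(32,0)]⟩) .k 2 (⟨0,[(32,0)]⟩,⟨0,[(33,0)]⟩) .k (.r 0 ⟨0,[(6,0),(10,1),(30,0),(1,0)]⟩ ⟨1,[(4,0),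
  (3,0),(7,1),(33,0)]⟩)) (.Q [0,0,0,0,0,2,0,0,0,-1,1] (.p true [0,0,1] [1] (⟨0,[(34,0)]⟩,⟨0,[(33,
  0)]⟩) .k 1 (⟨0,[]⟩,⟨0,[]⟩) .k .k) (.R ⟨0,false,false,true,[1,-1,-1],[0,-1,1],[],(⟨0,[(23,0)]⟩,⟨17,
  [(0,7),(17,1),(3,1),(7,1),(1,1),(2,9),(0,1),(8,2),(6,0)]⟩),(⟨0,[(24,0)]⟩,⟨37,[(18,1),(3,1),(7,1),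
  (1,1),(1,37),(4,13),(4,7),(0,2),(6,0)]⟩),⟨0,[(0,0)]⟩,.k,.k,(.r (-2) ⟨12,[(4,1),(0,3),(3,5),(8,16),
  (18,0),(9,0),(1,3)]⟩ ⟨1,[(8,2),(10,1),(30,2),(1,0)]⟩),.k,.k,.k,⟨false,1,⟨5,[(3,1),(14,4),(1,0),
  (29,1),(1,2)]⟩,⟨0,[(19,0)]⟩⟩,⟨true,1,⟨1,[(4,0),(7,0),(5,0),(13,0)]⟩,⟨0,[(2,0),(26,0)]⟩⟩,⟨false,0,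
  ⟨0,[(8,0),(10,0),(30,0),(1,0)]⟩,⟨1,[(1,0),(2,0),(13,0)]⟩⟩,⟨true,0,⟨0,[(12,0),(2,0),(3,0),(30,0)]⟩,
  ⟨4,[(1,3),(1,1),(18,0),(28,1)]⟩⟩,⟨false,0,⟨0,[]⟩,⟨0,[]⟩⟩,⟨false,0,⟨0,[]⟩,⟨0,[]⟩⟩,[.o ⟨false,0,⟨0,
  [(13,0)]⟩,⟨3,[(3,1),(14,1),(3,1),(14,0),(13,0),(0,1)]⟩⟩,.a ⟨true,0,⟨0,[(15,0)]⟩,⟨4,[(3,1),(14,2),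
  (3,1),(6,0),(15,0),(4,0)]⟩⟩ ⟨false,1,⟨1,[(51,0),(0,0)]⟩,⟨0,[(54,0)]⟩⟩ ⟨true,1,⟨0,[(4,0)]⟩,⟨18,[(1,
  2),(0,3),(0,8),(3,3),(2,3),(11,11),(29,1)]⟩⟩,.e ⟨false,1,⟨1,[(18,0),(1,0),(31,0)]⟩,⟨0,[]⟩⟩ ⟨false,
  1,⟨0,[(4,0)]⟩,⟨9,[(1,1),(1,5),(18,7),(28,0),(0,4)]⟩⟩,.o ⟨false,(-1),⟨0,[(2,0)]⟩,⟨9,[(4,1),(7,1),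
  (5,5),(11,3),(6,2),(13,6),(0,1)]⟩⟩]⟩) (.I [0,0,0,0,1,0,0,0,-1] (.I [1,0,0,-1,0,1] (.I [1,0,0,0,0,
  3,0,0,1] (.I [1,0,0,-1,0,1,1,1] (.I [0,1,0,-3] (.I [0,0,2,-1,-1,0,0,1] (.I [0,0,-1,-2,1,0,0,-1]
  (.C [(0,0),(2,2),(6,2),(0,0),(2,1),(3,2),(32,0)]) (.C [(0,0),(7,0),(2,0)])) (.C [(0,0),(7,0),(1,
  0),(2,0)])) (.C [(0,0),(5,0),(2,0),(2,0),(5,0)])) (.C [(0,0),(3,0),(3,0),(2,0),(36,0)])) (.C [(0,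
  0),(28,0),(0,0),(16,0)])) (.C [(0,2),(2,0),(2,1),(2,1),(36,0)])) (.C [(0,0),(25,0),(2,0)]))) (.R
  ⟨1,true,false,false,[1,0,-1],[0,0,1],[1,1,0,-1,0,0,0,-1],(⟨0,[(33,0)]⟩,⟨0,[(34,0)]⟩),(⟨0,[(34,
  0)]⟩,⟨0,[(33,0)]⟩),⟨0,[(22,0)]⟩,.k,.k,.k,.k,(.r (-2) ⟨3,[(4,1),(12,6),(1,0),(11,1),(4,0)]⟩ ⟨0,[(0,
  0),(0,0),(26,0)]⟩),.k,⟨false,1,⟨0,[(5,0),(11,0)]⟩,⟨1,[(0,1),(0,0),(11,0),(14,1),(22,0)]⟩⟩,⟨true,1,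
  ⟨1,[(3,0),(7,0),(5,0),(13,0)]⟩,⟨0,[(1,0),(26,0)]⟩⟩,⟨true,0,⟨0,[(48,0)]⟩,⟨0,[(49,0)]⟩⟩,⟨false,1,⟨1,
  [(0,0),(2,0),(15,0),(31,0)]⟩,⟨1,[(2,1),(1,1),(23,1),(7,0),(13,0)]⟩⟩,⟨false,0,⟨0,[]⟩,⟨1,[(17,0),(1,
  0),(31,0)]⟩⟩,⟨true,0,⟨0,[(0,0)]⟩,⟨13,[(2,1),(1,8),(12,2),(3,1),(6,0),(1,13),(13,0)]⟩⟩,[]⟩)) (.Q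
  [0,0,0,0,0,2,0,0,0,-1,1] (.p true [0,0,1] [1] (⟨0,[(33,0)]⟩,⟨0,[(32,0)]⟩) .k 1 (⟨0,[]⟩,⟨0,[]⟩) .k
  .k) (.R ⟨0,false,false,false,[1,-1,-1],[1,-1],[0,0,0,-1],(⟨0,[(22,0)]⟩,⟨21,[(0,7),(16,1),(3,1),(7,
  1),(1,1),(2,13),(3,5),(5,2),(6,0)]⟩),(⟨0,[(37,0)]⟩,⟨0,[(38,0)]⟩),⟨0,[(0,0)]⟩,.k,.k,(.r (-2) ⟨12,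
  [(3,1),(0,3),(3,5),(8,16),(18,0),(9,0),(1,3)]⟩ ⟨1,[(7,2),(10,1),(30,2),(1,0)]⟩),.k,.k,.k,⟨true,0,
  ⟨1,[(31,0),(0,0)]⟩,⟨0,[]⟩⟩,⟨false,1,⟨4,[(1,1),(15,1),(11,1),(1,0),(19,0)]⟩,⟨0,[(13,0)]⟩⟩,⟨false,0,
  ⟨0,[(7,0),(10,0),(32,0)]⟩,⟨0,[(17,0)]⟩⟩,⟨true,0,⟨0,[(14,0),(34,0)]⟩,⟨0,[(30,0)]⟩⟩,⟨false,0,⟨0,[]⟩,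
  ⟨0,[]⟩⟩,⟨false,0,⟨0,[]⟩,⟨0,[]⟩⟩,[.a ⟨true,0,⟨57,[(17,5),(2,28),(0,5),(7,5),(1,5),(3,4),(1,4),(2,
  2),(3,8)]⟩,⟨0,[(49,0)]⟩⟩ ⟨false,1,⟨6,[(8,2),(8,3),(1,0),(26,0),(1,0)]⟩,⟨0,[(49,0)]⟩⟩ ⟨true,1,⟨10,
  [(1,1),(1,2),(4,0),(8,4),(2,2),(8,0),(1,1)]⟩,⟨0,[(7,0),(5,0)]⟩⟩,.o ⟨false,1,⟨15,[(4,1),(3,5),(8,
  3),(13,5),(0,3),(3,0),(14,4)]⟩,⟨1,[(2,0),(15,0),(17,0),(5,0),(6,0)]⟩⟩,.a ⟨true,(-1),⟨0,[(6,0)]⟩,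
  ⟨4,[(1,1),(15,1),(11,1),(1,0),(19,0)]⟩⟩ ⟨false,1,⟨15,[(4,1),(3,5),(8,3),(13,5),(0,3),(3,0),(14,
  4)]⟩,⟨0,[(49,0)]⟩⟩ ⟨true,1,⟨10,[(1,1),(1,2),(4,0),(8,4),(2,2),(8,0),(1,1)]⟩,⟨0,[(2,0),(10,0),(4,
  0)]⟩⟩,.a ⟨true,(-1),⟨1,[(6,1),(24,0),(0,0)]⟩,⟨0,[(1,0)]⟩⟩ ⟨true,1,⟨6,[(8,2),(8,3),(1,0),(26,0),(1,
  0)]⟩,⟨0,[(2,0),(15,0)]⟩⟩ ⟨false,2,⟨9,[(1,5),(6,4),(8,5),(11,0),(1,2),(19,2)]⟩,⟨0,[(7,0),(5,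
  0)]⟩⟩]⟩) (.I [1,0,0,-1,0,1] (.I [0,0,0,0,1,0,0,0,-1] (.I [1,0,0,0,0,3,0,0,1] (.I [1,0,0,-1,0,1,1,
  1] (.I [1,0,-1,0,0,3] (.C [(0,3),(4,2),(1,2),(1,0),(5,2),(1,3),(28,3)]) (.C [(0,0),(5,0),(4,0),
  (36,0)])) (.C [(0,0),(3,0),(2,0),(2,0),(36,0)])) (.C [(0,0),(27,0),(0,0),(16,0)])) (.C [(0,0),(25,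
  0),(2,0)])) (.C [(0,2),(3,0),(0,0),(1,0),(36,0)]))))))))) (.S ⟨1,0,[0,0,0,0,0,0,0,-1],[1,0,-1],[0,
  1,0,0,0,0,0,-1],(⟨0,[(26,0)]⟩,⟨0,[(27,0)]⟩),⟨0,[(15,0)]⟩,.k,.k,⟨true,0,⟨0,[(46,0)]⟩,⟨0,[]⟩⟩,
  ⟨false,1,⟨1,[(10,0),(1,0),(31,0)]⟩,⟨0,[]⟩⟩,⟨false,0,⟨0,[(42,0)]⟩,⟨7,[(1,1),(8,1),(2,1),(10,1),(0,
  1),(3,0),(14,2)]⟩⟩,⟨true,0,⟨0,[(42,0)]⟩,⟨0,[(41,0)]⟩⟩,[.a ⟨true,0,⟨2,[(0,0),(1,0),(18,0),(1,1),(9,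
  0),(0,0),(2,0)]⟩,⟨0,[(7,0),(34,0)]⟩⟩ ⟨true,0,⟨0,[(0,0),(1,0)]⟩,⟨0,[(11,0),(22,1),(7,0)]⟩⟩ ⟨false,
  1,⟨0,[(10,0)]⟩,⟨0,[(11,0),(22,0),(7,0)]⟩⟩,.o ⟨false,1,⟨0,[(23,0),(20,0)]⟩,⟨0,[(4,0),(6,0)]⟩⟩,.o
  ⟨false,0,⟨0,[(6,0)]⟩,⟨3,[(4,0),(3,0),(1,1),(11,0),(1,0),(4,0)]⟩⟩,.o ⟨false,0,⟨0,[(25,0)]⟩,⟨0,[(0,
  0),(3,0)]⟩⟩]⟩)) (.R ⟨1,true,false,true,[0,0,1],[0,1],[0,0,0,0,0,0,0,1],(⟨0,[(26,0)]⟩,⟨0,[(25,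
  0)]⟩),(⟨0,[(30,0)]⟩,⟨0,[(29,0)]⟩),⟨0,[(15,0)]⟩,.k,.k,.k,.k,(.r (-2) ⟨17,[(7,15),(1,13),(0,9),(1,
  4),(0,10),(7,5),(20,5)]⟩ ⟨0,[(0,0),(32,0)]⟩),.k,⟨true,1,⟨0,[(10,0),(32,0)]⟩,⟨0,[(1,0)]⟩⟩,⟨false,1,
  ⟨1,[(20,1),(7,0),(13,0)]⟩,⟨0,[(23,0)]⟩⟩,⟨false,1,⟨1,[(9,0),(1,0),(31,0)]⟩,⟨0,[]⟩⟩,⟨true,0,⟨15,[(0,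
  7),(8,3),(3,5),(8,3),(5,2),(9,1),(3,0)]⟩,⟨0,[(6,0)]⟩⟩,⟨true,0,⟨0,[(41,0)]⟩,⟨0,[(40,0)]⟩⟩,⟨false,0,
  ⟨1,[(0,1),(19,1),(7,0),(14,0)]⟩,⟨2,[(7,1),(4,1),(8,0),(21,0)]⟩⟩,[]⟩))

theorem ok5 : chk K t5 l11 = true := by decide +kernel

noncomputable def t6 : Tre :=
  (.I [0,1,1,1,-1,0,0,1] (.R ⟨1,false,false,true,[1,0,-1],[1,-1],[1,0,0,-1,0,0,0,-1],(⟨0,[(25,0)]⟩,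
  ⟨0,[(26,0)]⟩),(⟨0,[(29,0)]⟩,⟨0,[(30,0)]⟩),⟨0,[(14,0)]⟩,.k,.k,.k,.k,.k,.k,⟨false,1,⟨0,[(8,0),(34,
  0)]⟩,⟨1,[(0,0),(0,0),(36,0)]⟩⟩,⟨true,0,⟨0,[(23,0)]⟩,⟨0,[(5,0)]⟩⟩,⟨false,1,⟨2,[(7,0),(1,0),(2,0),
  (11,0),(18,0)]⟩,⟨0,[(41,0)]⟩⟩,⟨false,0,⟨0,[(6,0)]⟩,⟨0,[(22,0),(18,0),(1,0)]⟩⟩,⟨true,0,⟨0,[]⟩,⟨0,
  [(45,0)]⟩⟩,⟨false,0,⟨14,[(0,1),(0,3),(1,5),(2,4),(14,3),(10,0),(3,2),(4,0)]⟩,⟨0,[(22,0),(20,0)]⟩⟩,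
  [.o ⟨false,0,⟨0,[(40,0)]⟩,⟨1,[(28,0),(12,1),(1,0)]⟩⟩,.a ⟨true,0,⟨57,[(9,5),(2,28),(0,5),(7,5),(1,
  5),(3,4),(1,4),(2,2),(3,8)]⟩,⟨0,[(41,0)]⟩⟩ ⟨true,1,⟨0,[(1,0),(6,1),(24,1)]⟩,⟨0,[(0,0)]⟩⟩ ⟨false,1,
  ⟨0,[(6,0),(2,0)]⟩,⟨0,[(5,0),(35,0)]⟩⟩,.o ⟨false,0,⟨0,[(5,0)]⟩,⟨3,[(3,0),(3,0),(1,1),(11,0),(1,0),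
  (4,0)]⟩⟩,.o ⟨false,0,⟨0,[(24,0)]⟩,⟨0,[(1,0),(1,0),(4,0)]⟩⟩]⟩) (.I [1,1,0,-1,0,0,0,-1] (.S ⟨1,0,[0,
  0,0,0,0,0,0,-1],[1,0,-1],[1,1,0,-1,0,0,0,-1],(⟨0,[(26,0)]⟩,⟨0,[(27,0)]⟩),⟨0,[(15,0)]⟩,.k,.k,⟨true,
  0,⟨0,[(41,0)]⟩,⟨0,[(42,0)]⟩⟩,⟨false,1,⟨1,[(10,0),(1,0),(31,0)]⟩,⟨0,[]⟩⟩,⟨false,0,⟨0,[]⟩,⟨1,[(10,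
  0),(1,0),(31,0)]⟩⟩,⟨true,0,⟨0,[(42,0)]⟩,⟨0,[(41,0)]⟩⟩,[.a ⟨true,0,⟨11,[(1,0),(13,0),(0,0),(4,0),
  (1,10),(4,1),(4,3),(0,1),(2,4),(4,0)]⟩,⟨8,[(2,1),(1,3),(2,3),(3,0),(0,0),(9,0),(14,1),(4,2)]⟩⟩
  ⟨true,0,⟨0,[(0,0)]⟩,⟨1,[(2,0),(1,1),(1,1),(5,0),(21,0),(2,0),(4,0)]⟩⟩ ⟨false,1,⟨0,[(10,0)]⟩,⟨2,
  [(2,0),(1,1),(1,1),(4,0),(0,0),(24,0)]⟩⟩,.o ⟨false,1,⟨0,[(23,0),(20,0)]⟩,⟨0,[(4,0),(6,0)]⟩⟩,.o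
  ⟨false,0,⟨0,[(6,0)]⟩,⟨3,[(4,0),(3,0),(1,1),(11,0),(1,0),(4,0)]⟩⟩,.o ⟨false,0,⟨0,[(25,0)]⟩,⟨2,[(1,
  0),(2,1),(0,0),(37,1)]⟩⟩]⟩) (.I [0,0,0,0,0,-1,-1] (.I [0,0,0,0,1,0,0,0,-1] (.I [1,0,0,0,0,3,0,0,
  1] (.I [0,0,1,1,0,-1,1] (.I [0,1,0,-1,0,-1,1,1] (.I [5,0,0,0,-1,6] (.I [-2,0,0,1] (.C [(0,0),(7,
  0),(2,0),(0,0),(0,1),(30,0)]) (.C [(0,2),(2,0),(2,0),(0,0),(0,0),(2,1),(1,1),(21,1),(6,1),(1,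
  0)])) (.C [(0,0),(41,1),(0,0)])) (.C [(0,0),(9,0),(9,0)])) (.C [(0,0),(7,0),(10,0)])) (.C [(0,0),
  (20,0),(0,0),(16,0)])) (.C [(0,0),(18,0),(2,0)])) (.C [(0,0),(6,0),(9,0)]))))

theorem ok6 : chk K t6 r11 = true := by decide +kernel

noncomputable def t11 : Tre :=
  (.S ⟨1,0,[0,0,0,0,0,0,0,1],[0,0,1],[1,1,0,-1,0,0,0,1],(⟨0,[(21,0)]⟩,⟨0,[(20,0)]⟩),⟨0,[(10,0)]⟩,.k,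
  .k,⟨true,0,⟨0,[(35,0)]⟩,⟨0,[(36,0)]⟩⟩,⟨false,1,⟨1,[(4,0),(1,0),(31,0)]⟩,⟨0,[]⟩⟩,⟨false,0,⟨0,[]⟩,
  ⟨1,[(4,0),(1,0),(31,0)]⟩⟩,⟨true,0,⟨0,[(36,0)]⟩,⟨0,[(35,0)]⟩⟩,[.a ⟨true,0,⟨0,[(1,0),(34,0)]⟩,⟨0,
  [(3,0),(11,0),(12,0)]⟩⟩ ⟨false,0,⟨0,[(5,0)]⟩,⟨0,[(3,0),(32,0),(1,0)]⟩⟩ ⟨true,0,⟨0,[(5,0),(22,0),
  (7,0)]⟩,⟨0,[(3,0),(24,0)]⟩⟩,.o ⟨false,1,⟨0,[(2,0),(33,0)]⟩,⟨0,[(17,0)]⟩⟩,.a ⟨true,0,⟨0,[(0,0)]⟩,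
  ⟨57,[(4,5),(3,34),(7,5),(1,5),(3,4),(1,4),(2,2),(3,8)]⟩⟩ ⟨false,0,⟨0,[(5,0),(22,0)]⟩,⟨0,[(3,0),
  (32,0),(1,0)]⟩⟩ ⟨true,0,⟨0,[(5,0),(22,0),(7,0)]⟩,⟨0,[(3,0)]⟩⟩,.a ⟨true,0,⟨0,[(18,0)]⟩,⟨0,[(15,
  0)]⟩⟩ ⟨true,0,⟨0,[(5,0)]⟩,⟨0,[(3,0),(24,0),(7,0)]⟩⟩ ⟨false,1,⟨0,[(5,0),(30,0),(1,0)]⟩,⟨0,[(3,0),
  (24,0)]⟩⟩]⟩)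

theorem ok11 : chk K t11 r7 = true := by decide +kernel

noncomputable def t14 : Tre :=
  (.Q [0,1,0,0,-1,0,-1,-1,0,1,-1] (.p false [0,0,1] [1] (⟨0,[(19,0)]⟩,⟨0,[(18,0)]⟩) .k 1 (⟨0,[]⟩,⟨0,
  []⟩) .k .k) (.Q [0,-1,0,2,0,0,-1,-1,0,0,-1] (.p false [0,0,1] [] (⟨0,[(20,0)]⟩,⟨0,[(19,0)]⟩) .k 0
  (⟨0,[]⟩,⟨0,[]⟩) .k .k) (.R ⟨1,false,false,false,[0,0,1],[0,1],[1,1,1],(⟨0,[(21,0)]⟩,⟨0,[(20,0)]⟩),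
  (⟨0,[(25,0)]⟩,⟨0,[(24,0)]⟩),⟨0,[(10,0)]⟩,.k,.k,.k,.k,(.x 0 ⟨3,[(9,3),(8,4),(0,0),(10,3),(8,1)]⟩
  ⟨1,[(0,0),(0,0),(3,1),(3,0),(0,2),(12,0),(13,0),(0,0)]⟩),.k,⟨true,0,⟨0,[(35,0)]⟩,⟨1,[(0,0),(15,0),
  (11,1)]⟩⟩,⟨false,1,⟨1,[(15,1),(7,0),(13,0)]⟩,⟨0,[(18,0)]⟩⟩,⟨false,0,⟨0,[(3,0),(24,0)]⟩,⟨1,[(0,0),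
  (4,1),(10,0),(21,1)]⟩⟩,⟨true,0,⟨1,[(0,0),(16,0)]⟩,⟨0,[(5,0),(12,0)]⟩⟩,⟨false,0,⟨3,[(0,1),(2,1),
  (14,2),(0,0)]⟩,⟨0,[(5,0),(32,0)]⟩⟩,⟨false,0,⟨0,[(0,0)]⟩,⟨1,[(7,1),(8,1),(6,0),(14,0)]⟩⟩,[.e
  ⟨false,0,⟨0,[(40,0)]⟩,⟨1,[(37,0),(0,0)]⟩⟩ ⟨false,0,⟨0,[(0,0),(4,0)]⟩,⟨3,[(4,1),(2,1),(8,1),(1,1),
  (4,0),(14,0)]⟩⟩,.o ⟨false,1,⟨1,[(0,0),(15,0),(6,0),(14,0)]⟩,⟨0,[(35,0)]⟩⟩,.o ⟨false,1,⟨1,[(18,1),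
  (4,0),(13,0)]⟩,⟨3,[(0,0),(0,0),(3,1),(2,0),(14,0),(4,1)]⟩⟩,.a ⟨true,0,⟨0,[(18,0)]⟩,⟨0,[(15,0)]⟩⟩
  ⟨false,0,⟨0,[]⟩,⟨1,[(4,0),(1,0),(31,0)]⟩⟩ ⟨true,0,⟨0,[(0,0),(4,0)]⟩,⟨0,[(18,0),(16,0)]⟩⟩]⟩) (.Q
  [0,1,0,-1,-1,0,-1,-1,0,1,-1] (.p false [0,0,1] [1] (⟨0,[(21,0)]⟩,⟨0,[(20,0)]⟩) .k 1 (⟨0,[]⟩,⟨0,
  []⟩) .k .k) (.I [0,0,-2,-2,1] (.R ⟨1,false,false,true,[1,-1],[0,-1,1],[0,1,-1,-1],(⟨0,[(26,0)]⟩,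
  ⟨0,[(27,0)]⟩),(⟨0,[(12,0)]⟩,⟨37,[(6,1),(3,1),(7,1),(1,1),(1,37),(4,13),(4,7),(0,2),(6,0)]⟩),⟨0,
  [(11,0),(0,0)]⟩,.k,.k,(.r (-1) ⟨0,[(0,0)]⟩ ⟨0,[(20,0),(0,0),(16,1)]⟩),.k,.k,.k,⟨false,1,⟨0,[(6,
  0)]⟩,⟨0,[(7,0),(22,0),(7,0)]⟩⟩,⟨true,1,⟨1,[(20,1),(4,0),(13,0)]⟩,⟨0,[(4,0),(2,0),(22,1)]⟩⟩,⟨true,
  0,⟨0,[(42,0)]⟩,⟨0,[]⟩⟩,⟨false,1,⟨1,[(18,1),(6,0),(14,0)]⟩,⟨0,[(3,0),(36,0)]⟩⟩,⟨false,0,⟨0,[(38,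
  0)]⟩,⟨7,[(2,1),(3,1),(2,1),(11,1),(3,0),(14,4)]⟩⟩,⟨false,1,⟨1,[(18,1),(6,0),(12,1),(1,0)]⟩,⟨0,[(1,
  0),(38,0)]⟩⟩,[.a ⟨true,0,⟨1,[(2,0),(15,0)]⟩,⟨0,[(4,0),(35,0)]⟩⟩ ⟨false,1,⟨15,[(0,7),(5,3),(3,1),
  (7,3),(6,0),(9,5),(3,2)]⟩,⟨0,[(30,0),(7,0)]⟩⟩ ⟨true,1,⟨1,[(0,0),(17,1),(6,0)]⟩,⟨0,[(4,0),(25,
  1)]⟩⟩,.o ⟨false,1,⟨1,[(2,0),(15,0),(6,0),(14,0)]⟩,⟨1,[(4,1),(20,0),(14,0)]⟩⟩,.o ⟨false,0,⟨1,[(20,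
  0),(0,0)]⟩,⟨1,[(25,0),(13,0)]⟩⟩,.e ⟨false,1,⟨1,[(0,0),(38,0)]⟩,⟨1,[(20,0),(0,0),(8,1),(7,1)]⟩⟩
  ⟨false,2,⟨1,[(0,0),(17,1),(6,0),(13,0),(0,0)]⟩,⟨0,[(4,0),(25,1)]⟩⟩]⟩) (.I [1,0,2,1,-1] (.Q [0,-1,
  0,2,1,0,1,1,0,-1,1] (.p true [0,0,1] [1] (⟨0,[(24,0)]⟩,⟨0,[(23,0)]⟩) .k 1 (⟨0,[]⟩,⟨0,[]⟩) .k .k)
  (.R ⟨1,true,false,false,[1,0,-1],[0,1],[0,0,0,0,0,0,0,-1],(⟨0,[(24,0)]⟩,⟨0,[(25,0)]⟩),(⟨0,[(29,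
  0)]⟩,⟨0,[(28,0)]⟩),⟨0,[(13,0)]⟩,.k,.k,.k,.k,(.r (-2) ⟨1,[(8,1),(2,1),(15,0),(13,0)]⟩ ⟨1,[(2,2),(6,
  1),(32,0)]⟩),.k,⟨true,1,⟨1,[(3,1),(18,1),(4,0),(13,1),(0,0)]⟩,⟨0,[(2,0),(6,0),(22,0)]⟩⟩,⟨false,2,
  ⟨1,[(22,1),(4,0),(13,2)]⟩,⟨2,[(1,1),(1,0),(5,0),(9,1),(12,1)]⟩⟩,⟨false,1,⟨1,[(8,0),(1,0),(31,0)]⟩,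
  ⟨0,[]⟩⟩,⟨true,1,⟨3,[(0,1),(7,0),(1,0),(9,1),(6,0)]⟩,⟨0,[(3,0)]⟩⟩,⟨true,0,⟨0,[(40,0)]⟩,⟨0,[(39,
  0)]⟩⟩,⟨false,1,⟨0,[(0,0)]⟩,⟨5,[(3,3),(7,3),(9,1),(5,0),(14,2)]⟩⟩,[]⟩) (.Q [0,0,-1,-1,1,0,1,0,0,0,
  1] (.p true [0,0,1] [] (⟨0,[(25,0)]⟩,⟨0,[(24,0)]⟩) .k 0 (⟨0,[]⟩,⟨0,[]⟩) .k .k) (.Q [0,0,0,0,0,2,0,
  0,0,-1,1] (.p true [0,0,1] [1] (⟨0,[(26,0)]⟩,⟨0,[(25,0)]⟩) .k 1 (⟨0,[]⟩,⟨0,[]⟩) .k .k) (.R ⟨0,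
  false,false,true,[1,-1,-1],[1,-1],[1,1,1],(⟨0,[(15,0)]⟩,⟨21,[(0,7),(9,1),(3,1),(7,1),(1,1),(2,13),
  (3,5),(5,2),(6,0)]⟩),(⟨0,[(30,0)]⟩,⟨0,[(31,0)]⟩),⟨0,[(0,0)]⟩,.k,.k,(.r (-2) ⟨17,[(1,19),(0,7),(7,
  9),(3,5),(14,6),(13,2),(0,3)]⟩ ⟨1,[(4,2),(6,1),(32,0)]⟩),.k,.k,.k,⟨true,(-1),⟨0,[(3,0)]⟩,⟨3,[(1,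
  1),(11,0),(0,0),(14,0),(13,0)]⟩⟩,⟨false,1,⟨0,[(1,0),(40,0)]⟩,⟨7,[(2,0),(0,2),(7,0),(9,6),(7,3),(4,
  1)]⟩⟩,⟨false,(-1),⟨0,[(4,0),(6,0),(22,0)]⟩,⟨5,[(1,1),(0,1),(7,3),(18,0),(13,2),(0,3)]⟩⟩,⟨true,0,
  ⟨0,[(22,0)]⟩,⟨1,[(7,1),(21,0),(14,0)]⟩⟩,⟨false,0,⟨0,[]⟩,⟨0,[]⟩⟩,⟨false,0,⟨0,[]⟩,⟨0,[]⟩⟩,[.o
  ⟨false,0,⟨0,[(41,0)]⟩,⟨1,[(29,0),(12,1),(1,0)]⟩⟩,.a ⟨true,0,⟨6,[(1,0),(11,2),(0,0),(9,0),(3,0),(1,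
  0),(6,0)]⟩,⟨0,[(42,0)]⟩⟩ ⟨false,0,⟨0,[]⟩,⟨1,[(10,0),(1,0),(30,0)]⟩⟩ ⟨true,1,⟨0,[(1,0)]⟩,⟨7,[(2,0),
  (0,10),(7,0),(9,6),(7,3),(4,1)]⟩⟩,.e ⟨false,0,⟨1,[(24,0),(0,0)]⟩,⟨1,[(43,0),(0,0)]⟩⟩ ⟨false,1,⟨0,
  [(1,0)]⟩,⟨1,[(4,0),(16,1),(7,0),(4,1)]⟩⟩,.o ⟨false,(-1),⟨7,[(2,2),(0,8),(7,2),(9,4),(7,3),(4,5)]⟩,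
  ⟨1,[(1,1),(27,0),(12,1),(0,0)]⟩⟩]⟩) (.Q [0,0,-1,0,0,0,0,0,1,-1,0,1] (.p true [0,0,0,0,1] [1] (⟨0,
  [(20,0)]⟩,⟨0,[(19,0)]⟩) .k 1 (⟨0,[]⟩,⟨0,[]⟩) .k .k) (.Q [1,0,0,0,-1,0,0,0,1,0,0,1] (.p true [0,0,
  0,0,1] [] (⟨0,[(21,0)]⟩,⟨0,[(20,0)]⟩) .k 0 (⟨0,[]⟩,⟨0,[]⟩) .k .k) (.R ⟨2,true,false,true,[0,1],[0,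
  0,0,0,1],[1,1],(⟨0,[]⟩,⟨0,[]⟩),(⟨0,[(22,0)]⟩,⟨0,[(21,0)]⟩),⟨0,[]⟩,.k,.k,.k,(.r 0 ⟨1,[(4,1),(0,9),
  (2,1),(26,10),(1,17),(2,0)]⟩ ⟨3,[(3,1),(11,0),(0,0),(14,0),(13,0)]⟩),.k,.k,⟨false,1,⟨1,[(12,0),(1,
  0),(30,0)]⟩,⟨0,[]⟩⟩,⟨true,(-1),⟨30,[(0,21),(3,1),(0,7),(2,1),(11,8),(10,0),(4,3),(10,10)]⟩,⟨0,
  [(19,0)]⟩⟩,⟨false,1,⟨3,[(3,1),(11,0),(0,0),(14,0),(13,0)]⟩,⟨1,[(6,0),(39,0)]⟩⟩,⟨true,(-1),⟨0,[(0,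
  0),(42,0)]⟩,⟨0,[(19,0),(24,0)]⟩⟩,⟨true,0,⟨0,[(37,0)]⟩,⟨1,[(26,0),(0,0)]⟩⟩,⟨false,(-1),⟨0,[(0,0)]⟩,
  ⟨1,[(12,0),(1,0),(4,1),(26,0)]⟩⟩,[]⟩) (.R ⟨1,false,false,true,[0,0,1],[1,0,0,0,-1],[1,1,0,-1,0,0,
  0,1],(⟨0,[(29,0)]⟩,⟨0,[(28,0)]⟩),(⟨0,[(21,0)]⟩,⟨0,[(22,0)]⟩),⟨0,[(18,0)]⟩,.k,.k,.k,.k,(.r (-1) ⟨9,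
  [(3,3),(9,5),(0,3),(1,1),(14,0),(13,1),(0,2)]⟩ ⟨1,[(4,1),(0,5),(20,1),(8,6),(1,11),(2,0)]⟩),.k,
  ⟨true,0,⟨0,[(13,0),(22,0)]⟩,⟨1,[(4,1),(0,5),(20,1),(8,6),(1,11),(2,0)]⟩⟩,⟨false,1,⟨0,[(19,0),(3,
  0)]⟩,⟨0,[(1,0),(24,0)]⟩⟩,⟨true,0,⟨0,[(43,0)]⟩,⟨0,[(44,0)]⟩⟩,⟨true,0,⟨0,[(0,0),(8,0)]⟩,⟨1,[(1,1),
  (4,0),(1,0),(15,0),(21,0)]⟩⟩,⟨false,0,⟨0,[]⟩,⟨1,[(12,0),(1,0),(31,0)]⟩⟩,⟨true,0,⟨0,[(0,0),(9,0)]⟩,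
  ⟨1,[(1,1),(4,0),(1,1),(37,0)]⟩⟩,[.o ⟨false,1,⟨0,[(19,0),(28,0)]⟩,⟨0,[(1,0),(34,0)]⟩⟩,.o ⟨false,1,
  ⟨0,[(0,0)]⟩,⟨18,[(1,9),(2,0),(0,3),(2,0),(11,8),(10,4),(4,1)]⟩⟩,.o ⟨false,1,⟨1,[(3,1),(2,0),(24,
  0)]⟩,⟨7,[(4,0),(0,2),(7,0),(9,6),(7,3),(4,1)]⟩⟩,.a ⟨true,0,⟨0,[(26,0)]⟩,⟨0,[(23,0)]⟩⟩ ⟨true,0,⟨0,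
  [(13,0)]⟩,⟨1,[(6,0),(4,1),(34,0)]⟩⟩ ⟨false,1,⟨0,[(0,0),(22,0)]⟩,⟨0,[(1,0),(24,0),(9,0)]⟩⟩]⟩)) (.Q
  [0,0,-1,0,0,0,-1,0,-1,1,-1,-1] (.p false [0,0,1] [1,0,0,0,-1] (⟨0,[(28,0)]⟩,⟨0,[(27,0)]⟩) .k 2
  (⟨0,[(20,0)]⟩,⟨0,[(21,0)]⟩) .k (.r 0 ⟨1,[(5,0),(6,1),(32,0)]⟩ ⟨1,[(11,1),(13,0),(0,0)]⟩)) (.Q [0,
  0,0,0,0,1,0,0,0,-1,0,1] (.ed false [0,1,0,0,1] .k) (.Q [-1,-1,0,0,0,0,-1,-1,-1,1,-1,-1] (.p false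
  [0,0,1] [1,0,0,0,-1] (⟨0,[(30,0)]⟩,⟨0,[(29,0)]⟩) .k 2 (⟨0,[(22,0)]⟩,⟨0,[(23,0)]⟩) .k (.r 0 ⟨1,[(7,
  0),(6,1),(32,0)]⟩ ⟨1,[(13,1),(13,0),(0,0)]⟩)) (.R ⟨0,false,false,true,[1,0,0,0,-1],[0,1],[1,1,1],
  (⟨0,[(23,0)]⟩,⟨0,[(24,0)]⟩),(⟨0,[(35,0)]⟩,⟨0,[(34,0)]⟩),⟨0,[(1,0)]⟩,.k,.k,(.r (-1) ⟨15,[(5,5),(11,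
  2),(0,2),(18,1),(4,2),(2,3),(1,4)]⟩ ⟨1,[(8,0),(5,0),(1,0)]⟩),(.r (-1) ⟨15,[(5,5),(11,2),(0,2),(18,
  1),(4,2),(2,3),(1,4)]⟩ ⟨1,[(8,0),(5,0),(1,0)]⟩),.k,.k,⟨false,1,⟨3,[(5,1),(11,0),(0,0),(14,0),(13,
  0)]⟩,⟨0,[(46,0)]⟩⟩,⟨true,1,⟨1,[(22,1),(10,0),(13,0)]⟩,⟨0,[(0,0),(7,0),(1,0)]⟩⟩,⟨false,0,⟨1,[(28,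
  0),(0,0)]⟩,⟨1,[(37,0),(9,0)]⟩⟩,⟨true,0,⟨1,[(8,0),(13,1),(10,0),(5,1)]⟩,⟨1,[(0,1),(9,0),(15,0)]⟩⟩,
  ⟨false,0,⟨0,[]⟩,⟨0,[]⟩⟩,⟨false,0,⟨0,[]⟩,⟨0,[]⟩⟩,[.o ⟨false,0,⟨1,[(8,0),(24,0),(5,1)]⟩,⟨5,[(5,1),
  (11,1),(11,1),(3,0),(14,2)]⟩⟩,.e ⟨false,0,⟨0,[]⟩,⟨1,[(14,0),(1,0),(30,0)]⟩⟩ ⟨false,1,⟨1,[(22,1),
  (10,0),(12,1),(0,0)]⟩,⟨1,[(0,1),(9,0),(15,0)]⟩⟩,.a ⟨true,0,⟨0,[(0,0),(25,0)]⟩,⟨0,[(22,0)]⟩⟩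
  ⟨false,0,⟨1,[(28,0),(0,0)]⟩,⟨1,[(47,0),(0,0)]⟩⟩ ⟨true,0,⟨1,[(8,0),(13,1),(10,0),(5,1)]⟩,⟨1,[(0,1),
  (9,0),(15,0)]⟩⟩,.o ⟨false,0,⟨1,[(0,1),(7,0),(1,0),(15,0),(6,0)]⟩,⟨1,[(22,1),(10,0),(13,0)]⟩⟩]⟩)
  (.R ⟨1,false,false,true,[0,0,0,0,1],[0,1],[],(⟨0,[(24,0)]⟩,⟨0,[(23,0)]⟩),(⟨0,[(35,0)]⟩,⟨0,[(34,
  0)]⟩),⟨1,[(1,0),(2,0),(15,0),(3,0)]⟩,.k,.k,(.r (-1) ⟨3,[(5,1),(11,0),(0,0),(14,0),(13,0)]⟩ ⟨1,[(6,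
  1),(0,9),(2,1),(26,10),(1,17),(2,0)]⟩),(.r (-1) ⟨3,[(5,1),(11,0),(0,0),(14,0),(13,0)]⟩ ⟨1,[(6,1),
  (0,9),(2,1),(26,10),(1,17),(2,0)]⟩),(.r (-2) ⟨1,[(5,1),(11,0),(0,0),(14,0),(13,0)]⟩ ⟨0,[(7,1),(29,
  0),(1,1)]⟩),.k,⟨false,2,⟨3,[(5,1),(11,0),(0,0),(14,0),(13,2),(0,1)]⟩,⟨0,[(7,0),(31,0)]⟩⟩,⟨true,1,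
  ⟨1,[(2,1),(2,1),(2,0),(24,0)]⟩,⟨4,[(0,1),(5,1),(0,3),(14,2),(14,0),(0,1)]⟩⟩,⟨false,1,⟨1,[(14,0),
  (1,0),(31,0)]⟩,⟨0,[]⟩⟩,⟨true,0,⟨1,[(2,1),(4,0),(20,1),(10,1),(2,0),(3,0)]⟩,⟨1,[(0,0),(5,0),(15,0),
  (25,0)]⟩⟩,⟨true,0,⟨0,[(7,0),(29,0),(1,1)]⟩,⟨0,[(45,0)]⟩⟩,⟨true,0,⟨1,[(2,1),(5,0),(19,1),(4,0),(5,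
  1),(6,1)]⟩,⟨0,[(0,0),(5,0),(41,0)]⟩⟩,[.o ⟨false,0,⟨1,[(8,0),(24,0),(5,1)]⟩,⟨5,[(5,1),(11,1),(11,
  1),(3,0),(14,2)]⟩⟩,.e ⟨false,1,⟨1,[(47,0),(0,0)]⟩,⟨0,[(50,0)]⟩⟩ ⟨false,1,⟨1,[(2,1),(2,1),(2,0),
  (24,0),(12,1)]⟩,⟨1,[(0,0),(5,0),(15,0),(25,0)]⟩⟩,.a ⟨true,0,⟨0,[(22,0)]⟩,⟨0,[(2,0),(25,0)]⟩⟩
  ⟨false,1,⟨1,[(14,0),(1,0),(31,0)]⟩,⟨0,[]⟩⟩ ⟨true,0,⟨1,[(2,1),(5,0),(19,1),(4,0),(5,1)]⟩,⟨1,[(0,0),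
  (5,0),(15,0),(25,0)]⟩⟩,.o ⟨false,0,⟨5,[(0,0),(5,0),(0,1),(14,4),(10,1),(4,1),(3,0)]⟩,⟨1,[(2,1),(2,
  1),(2,0),(24,0)]⟩⟩]⟩)) (.I [0,0,-2,0,2,-2,0,0,-2] (.Q [-1,1,0,0,0,0,0,0,-1,0,0,-1] (.p false [0,0,
  0,0,1] [] (⟨0,[(24,0)]⟩,⟨0,[(23,0)]⟩) .k 0 (⟨0,[]⟩,⟨0,[]⟩) .k .k) (.S ⟨1,0,[-1,1],[1,0,0,0,-1],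
  [-1],(⟨0,[(24,0)]⟩,⟨0,[(25,0)]⟩),⟨0,[(2,0)]⟩,.k,(.r (-1) ⟨15,[(6,5),(11,2),(0,2),(18,1),(4,2),(2,
  3),(1,4)]⟩ ⟨1,[(9,0),(5,0),(1,0)]⟩),⟨false,1,⟨1,[(15,0),(1,0),(31,0)]⟩,⟨0,[]⟩⟩,⟨true,0,⟨0,[(51,
  0)]⟩,⟨0,[]⟩⟩,⟨true,0,⟨0,[(47,0)]⟩,⟨0,[(46,0)]⟩⟩,⟨false,0,⟨0,[(47,0)]⟩,⟨5,[(6,1),(11,1),(11,1),(3,
  0),(14,2)]⟩⟩,[.o ⟨false,0,⟨0,[(0,0)]⟩,⟨1,[(23,1),(10,0),(14,0)]⟩⟩,.e ⟨false,1,⟨1,[(38,0),(9,0)]⟩,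
  ⟨0,[(51,0)]⟩⟩ ⟨false,1,⟨1,[(15,0),(1,0),(30,0)]⟩,⟨0,[]⟩⟩,.a ⟨true,0,⟨1,[(0,1),(41,0),(6,0)]⟩,⟨0,
  [(23,0)]⟩⟩ ⟨false,1,⟨1,[(15,0),(1,0),(31,0)]⟩,⟨0,[]⟩⟩ ⟨true,0,⟨0,[(51,0)]⟩,⟨0,[]⟩⟩,.o ⟨false,0,⟨0,
  [(0,0),(38,0)]⟩,⟨1,[(23,1),(10,0),(13,0)]⟩⟩]⟩) (.R ⟨2,true,false,false,[0,1],[0,0,0,0,1],[1,1],
  (⟨0,[]⟩,⟨0,[]⟩),(⟨0,[(25,0)]⟩,⟨0,[(24,0)]⟩),⟨0,[]⟩,.k,.k,.k,(.r 0 ⟨1,[(7,1),(0,9),(2,1),(26,10),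
  (1,17),(2,0)]⟩ ⟨3,[(6,1),(11,0),(0,0),(14,0),(13,0)]⟩),.k,.k,⟨true,0,⟨0,[(51,0)]⟩,⟨0,[(45,0)]⟩⟩,
  ⟨false,0,⟨0,[(23,0)]⟩,⟨1,[(3,1),(2,1),(2,0),(24,0)]⟩⟩,⟨false,1,⟨3,[(6,1),(11,0),(0,0),(14,0),(13,
  0)]⟩,⟨1,[(9,0),(39,0)]⟩⟩,⟨true,0,⟨5,[(0,1),(6,0),(3,0),(6,0),(4,3),(10,0)]⟩,⟨1,[(3,1),(4,0),(20,
  1),(10,1),(2,0),(3,0)]⟩⟩,⟨true,0,⟨0,[(40,0)]⟩,⟨1,[(29,0),(0,0)]⟩⟩,⟨false,0,⟨0,[(0,0)]⟩,⟨14,[(1,0),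
  (0,1),(1,1),(17,10),(10,3),(9,1)]⟩⟩,[]⟩)) (.R ⟨0,false,false,true,[0,0,0,0,1],[0,1],[1,1,1],(⟨0,
  [(24,0)]⟩,⟨0,[(23,0)]⟩),(⟨0,[(35,0)]⟩,⟨0,[(34,0)]⟩),⟨1,[(0,0),(1,1),(2,1),(2,0),(24,0)]⟩,.k,.k,
  (.r (-1) ⟨3,[(5,1),(11,0),(0,0),(14,0),(13,0)]⟩ ⟨1,[(6,1),(0,9),(2,1),(26,10),(1,17),(2,0)]⟩),(.r
  (-1) ⟨3,[(5,1),(11,0),(0,0),(14,0),(13,0)]⟩ ⟨1,[(6,1),(0,9),(2,1),(26,10),(1,17),(2,0)]⟩),.k,.k,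
  ⟨false,1,⟨3,[(5,1),(11,0),(0,0),(14,0),(13,0)]⟩,⟨0,[(46,0)]⟩⟩,⟨true,1,⟨1,[(2,1),(2,1),(2,0),(24,
  0)]⟩,⟨22,[(0,2),(3,1),(1,3),(0,15),(2,3),(9,1),(1,16),(1,5),(8,2),(4,7)]⟩⟩,⟨false,0,⟨1,[(28,0),(0,
  0)]⟩,⟨1,[(47,0),(0,0)]⟩⟩,⟨true,0,⟨1,[(2,1),(4,0),(20,1),(10,1),(2,0),(3,0)]⟩,⟨15,[(0,2),(3,1),(0,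
  2),(0,3),(3,0),(4,2),(4,1),(1,9),(1,5),(8,2),(14,3)]⟩⟩,⟨false,0,⟨0,[]⟩,⟨0,[]⟩⟩,⟨false,0,⟨0,[]⟩,⟨0,
  []⟩⟩,[.o ⟨false,0,⟨1,[(8,0),(24,0),(5,1)]⟩,⟨5,[(5,1),(11,1),(11,1),(3,0),(14,2)]⟩⟩,.e ⟨false,0,⟨0,
  []⟩,⟨1,[(14,0),(1,0),(30,0)]⟩⟩ ⟨false,1,⟨1,[(2,1),(2,1),(2,0),(24,0),(12,1)]⟩,⟨15,[(0,2),(3,1),(0,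
  2),(0,3),(3,0),(4,2),(4,1),(1,9),(1,5),(8,2),(14,3)]⟩⟩,.a ⟨true,0,⟨0,[(22,0)]⟩,⟨0,[(2,0),(25,
  0)]⟩⟩ ⟨false,0,⟨1,[(28,0),(0,0)]⟩,⟨1,[(47,0),(0,0)]⟩⟩ ⟨true,0,⟨1,[(2,1),(5,0),(19,1),(4,0),(5,
  1)]⟩,⟨15,[(0,2),(3,1),(0,2),(0,3),(3,0),(4,2),(4,1),(1,9),(1,5),(8,2),(14,3)]⟩⟩,.o ⟨false,0,⟨45,
  [(0,2),(3,1),(1,3),(0,15),(2,3),(9,1),(1,39),(1,5),(8,25),(4,7)]⟩,⟨1,[(2,1),(2,1),(2,0),(24,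
  0)]⟩⟩]⟩))) (.I [0,0,-2,0,2,-2,0,0,-2] (.Q [0,0,1,0,-1,0,0,0,1,0,0,1] (.p true [0,0,0,0,1] [] (⟨0,
  [(23,0)]⟩,⟨0,[(22,0)]⟩) .k 0 (⟨0,[]⟩,⟨0,[]⟩) .k .k) (.S ⟨1,0,[1,1],[0,0,0,0,1],[],(⟨0,[(24,0)]⟩,
  ⟨0,[(23,0)]⟩),⟨1,[(0,1),(0,0)]⟩,.k,(.r (-1) ⟨3,[(5,1),(11,0),(0,0),(14,0),(13,0)]⟩ ⟨1,[(6,1),(0,
  9),(2,1),(26,10),(1,17),(2,0)]⟩),⟨false,1,⟨1,[(14,0),(1,0),(31,0)]⟩,⟨0,[]⟩⟩,⟨true,0,⟨0,[(50,0)]⟩,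
  ⟨0,[]⟩⟩,⟨true,0,⟨0,[(7,0),(29,0),(1,1)]⟩,⟨0,[(45,0)]⟩⟩,⟨false,0,⟨0,[(46,0)]⟩,⟨5,[(5,1),(11,1),(11,
  1),(3,0),(14,2)]⟩⟩,[.e ⟨false,1,⟨1,[(14,0),(1,0),(30,0)]⟩,⟨0,[]⟩⟩ ⟨false,0,⟨0,[(39,0)]⟩,⟨1,[(14,
  0),(1,0),(31,0)]⟩⟩,.o ⟨false,0,⟨1,[(0,1),(32,0),(13,0)]⟩,⟨8,[(1,0),(1,1),(17,4),(1,1),(8,1),(9,
  1)]⟩⟩,.o ⟨false,0,⟨1,[(0,1),(32,0),(13,0)]⟩,⟨0,[(21,0)]⟩⟩,.a ⟨true,(-1),⟨0,[(0,0)]⟩,⟨3,[(3,1),(17,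
  1),(19,0),(5,2)]⟩⟩ ⟨false,1,⟨1,[(47,0),(0,0)]⟩,⟨1,[(28,0),(0,0)]⟩⟩ ⟨true,0,⟨0,[(39,0)]⟩,⟨1,[(28,
  0),(0,0)]⟩⟩]⟩) (.Q [1,-1,0,0,0,0,0,0,1,0,0,1] (.p true [0,0,0,0,1] [] (⟨0,[(24,0)]⟩,⟨0,[(23,0)]⟩)
  .k 0 (⟨0,[]⟩,⟨0,[]⟩) .k .k) (.Q [-1,-1,0,0,1,0,0,0,-1,0,0,-1] (.p false [0,0,0,0,1] [] (⟨0,[(25,
  0)]⟩,⟨0,[(24,0)]⟩) .k 0 (⟨0,[]⟩,⟨0,[]⟩) .k .k) (.R ⟨2,true,false,false,[0,1],[0,0,0,0,1],[1,1],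
  (⟨0,[]⟩,⟨0,[]⟩),(⟨0,[(26,0)]⟩,⟨0,[(25,0)]⟩),⟨0,[]⟩,.k,.k,.k,(.r 0 ⟨1,[(8,1),(0,9),(2,1),(26,10),
  (1,17),(2,0)]⟩ ⟨3,[(7,1),(11,0),(0,0),(14,0),(13,0)]⟩),.k,.k,⟨true,0,⟨0,[(52,0)]⟩,⟨0,[(46,0)]⟩⟩,
  ⟨false,0,⟨0,[(24,0)]⟩,⟨0,[(2,0)]⟩⟩,⟨false,1,⟨3,[(7,1),(11,0),(0,0),(14,0),(13,0)]⟩,⟨1,[(10,0),(39,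
  0)]⟩⟩,⟨true,0,⟨5,[(1,1),(6,0),(3,0),(6,0),(4,3),(10,0)]⟩,⟨0,[(0,0),(8,0),(31,1)]⟩⟩,⟨true,0,⟨0,
  [(41,0)]⟩,⟨1,[(30,0),(0,0)]⟩⟩,⟨false,0,⟨0,[(1,0)]⟩,⟨2,[(0,0),(22,1),(28,0)]⟩⟩,[]⟩) (.R ⟨2,true,
  false,true,[0,1],[0,0,0,0,1],[1,1,1],(⟨0,[]⟩,⟨0,[]⟩),(⟨0,[(26,0)]⟩,⟨0,[(25,0)]⟩),⟨0,[]⟩,.k,.k,.k,
  (.r 0 ⟨1,[(8,1),(0,9),(2,1),(26,10),(1,17),(2,0)]⟩ ⟨3,[(7,1),(11,0),(0,0),(14,0),(13,0)]⟩),.k,.k,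
  ⟨true,0,⟨1,[(30,0),(0,0)]⟩,⟨0,[]⟩⟩,⟨false,0,⟨0,[(24,0)]⟩,⟨0,[(2,0)]⟩⟩,⟨true,0,⟨0,[(47,0)]⟩,⟨0,
  [(48,0)]⟩⟩,⟨false,0,⟨5,[(1,1),(6,0),(3,0),(6,0),(4,3),(10,0)]⟩,⟨1,[(2,1),(7,0),(28,0)]⟩⟩,⟨false,0,
  ⟨0,[]⟩,⟨1,[(16,0),(1,0),(31,0)]⟩⟩,⟨true,(-1),⟨0,[(0,0)]⟩,⟨1,[(2,0),(20,0),(27,0)]⟩⟩,[]⟩)) (.Q [0,
  0,0,0,0,-1,0,0,0,0,0,1] (.ed false [1,-1,0,0,1] .k) (.R ⟨1,false,false,true,[0,0,0,0,1],[0,1],[],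
  (⟨0,[(26,0)]⟩,⟨0,[(25,0)]⟩),(⟨0,[(37,0)]⟩,⟨0,[(36,0)]⟩),⟨0,[(0,0)]⟩,.k,.k,(.r (-1) ⟨3,[(7,1),(11,
  0),(0,0),(14,0),(13,0)]⟩ ⟨1,[(8,1),(0,9),(2,1),(26,10),(1,17),(2,0)]⟩),(.r (-1) ⟨3,[(7,1),(11,0),
  (0,0),(14,0),(13,0)]⟩ ⟨1,[(8,1),(0,9),(2,1),(26,10),(1,17),(2,0)]⟩),(.r (-2) ⟨1,[(7,1),(11,0),(0,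
  0),(14,0),(13,0)]⟩ ⟨0,[(9,1),(29,0),(1,1)]⟩),.k,⟨false,2,⟨3,[(7,1),(11,0),(0,0),(14,0),(13,2),(0,
  1)]⟩,⟨0,[(9,0),(31,0)]⟩⟩,⟨true,1,⟨0,[(2,0)]⟩,⟨3,[(4,0),(3,0),(0,2),(7,0),(6,2),(15,1)]⟩⟩,⟨false,1,
  ⟨1,[(16,0),(1,0),(31,0)]⟩,⟨0,[]⟩⟩,⟨true,0,⟨2,[(1,1),(0,0),(7,0),(30,0),(6,0)]⟩,⟨2,[(4,0),(3,0),(8,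
  0),(6,1),(25,0)]⟩⟩,⟨true,0,⟨0,[(9,0),(29,0),(1,1)]⟩,⟨0,[(47,0)]⟩⟩,⟨true,0,⟨2,[(1,0),(0,1),(7,1),
  (30,1),(6,1)]⟩,⟨2,[(4,1),(3,1),(8,1),(6,0),(25,1)]⟩⟩,[.o ⟨false,0,⟨1,[(10,0),(24,0),(5,1)]⟩,⟨5,
  [(7,1),(11,1),(11,1),(3,0),(14,2)]⟩⟩,.e ⟨false,1,⟨1,[(49,0),(0,0)]⟩,⟨0,[(52,0)]⟩⟩ ⟨false,1,⟨0,[(2,
  0),(45,0)]⟩,⟨2,[(4,0),(3,0),(8,0),(6,1),(25,0)]⟩⟩,.a ⟨true,0,⟨0,[(24,0)]⟩,⟨1,[(1,1),(41,0),(6,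
  0)]⟩⟩ ⟨false,1,⟨1,[(16,0),(1,0),(31,0)]⟩,⟨0,[]⟩⟩ ⟨true,0,⟨1,[(1,0),(0,0),(7,0),(30,0)]⟩,⟨2,[(4,0),
  (3,0),(8,0),(6,1),(25,0)]⟩⟩,.o ⟨false,0,⟨7,[(4,0),(3,0),(0,2),(7,0),(6,6),(10,3),(4,1)]⟩,⟨0,[(2,
  0)]⟩⟩]⟩) (.S ⟨1,0,[-1,1],[1,0,0,0,-1],[-1],(⟨0,[(25,0)]⟩,⟨0,[(26,0)]⟩),⟨1,[(0,0),(5,0),(15,0),(2,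
  0)]⟩,.k,(.r (-1) ⟨15,[(7,5),(11,2),(0,2),(18,1),(4,2),(2,3),(1,4)]⟩ ⟨1,[(10,0),(5,0),(1,0)]⟩),
  ⟨false,1,⟨1,[(16,0),(1,0),(31,0)]⟩,⟨0,[]⟩⟩,⟨true,0,⟨0,[(52,0)]⟩,⟨0,[]⟩⟩,⟨true,0,⟨0,[(48,0)]⟩,⟨0,
  [(47,0)]⟩⟩,⟨false,0,⟨0,[(48,0)]⟩,⟨5,[(7,1),(11,1),(11,1),(3,0),(14,2)]⟩⟩,[.o ⟨false,0,⟨0,[(1,0)]⟩,
  ⟨1,[(24,1),(10,0),(14,0)]⟩⟩,.e ⟨false,1,⟨1,[(39,0),(9,0)]⟩,⟨0,[(52,0)]⟩⟩ ⟨false,1,⟨1,[(16,0),(1,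
  0),(30,0)]⟩,⟨0,[]⟩⟩,.a ⟨true,0,⟨1,[(1,1),(41,0),(6,0)]⟩,⟨0,[(24,0)]⟩⟩ ⟨false,1,⟨1,[(16,0),(1,0),
  (31,0)]⟩,⟨0,[]⟩⟩ ⟨true,0,⟨0,[(52,0)]⟩,⟨0,[]⟩⟩,.o ⟨false,0,⟨0,[(1,0),(38,0)]⟩,⟨1,[(24,1),(10,0),
  (13,0)]⟩⟩]⟩)))) (.Q [0,0,0,0,0,1,0,0,0,0,0,-1] (.ed true [1,-1,0,0,1] .k) (.Q [0,0,1,0,-1,0,0,0,1,
  0,0,1] (.p true [0,0,0,0,1] [] (⟨0,[(24,0)]⟩,⟨0,[(23,0)]⟩) .k 0 (⟨0,[]⟩,⟨0,[]⟩) .k .k) (.Q [1,-1,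
  0,-1,0,0,0,0,1,0,0,1] (.p true [0,0,0,0,1] [] (⟨0,[(25,0)]⟩,⟨0,[(24,0)]⟩) .k 0 (⟨0,[]⟩,⟨0,[]⟩) .k
  .k) (.Q [0,0,-1,-1,0,0,0,0,1,0,0,1] (.p true [0,0,0,0,1] [] (⟨0,[(26,0)]⟩,⟨0,[(25,0)]⟩) .k 0 (⟨0,
  []⟩,⟨0,[]⟩) .k .k) (.R ⟨1,false,false,false,[1,0,0,0,-1],[1,-1],[-1],(⟨0,[(26,0)]⟩,⟨0,[(27,0)]⟩),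
  (⟨0,[(37,0)]⟩,⟨0,[(38,0)]⟩),⟨1,[(3,0),(3,0),(15,0),(2,0)]⟩,.k,.k,(.r (-1) ⟨15,[(8,5),(11,2),(0,2),
  (18,1),(4,2),(2,3),(1,4)]⟩ ⟨1,[(11,0),(5,0),(1,0)]⟩),(.r 0 ⟨1,[(9,1),(0,9),(2,1),(26,10),(1,17),
  (2,0)]⟩ ⟨3,[(8,1),(11,0),(0,0),(14,0),(13,0)]⟩),.k,.k,⟨false,0,⟨0,[(10,0),(29,0),(1,1)]⟩,⟨3,[(8,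
  1),(11,0),(0,0),(14,0),(13,0)]⟩⟩,⟨true,(-1),⟨0,[(2,0)]⟩,⟨0,[(24,0)]⟩⟩,⟨false,1,⟨1,[(17,0),(1,0),
  (31,0)]⟩,⟨0,[]⟩⟩,⟨false,0,⟨0,[(1,0)]⟩,⟨0,[(24,0),(24,0)]⟩⟩,⟨true,0,⟨0,[(49,0)]⟩,⟨0,[(48,0)]⟩⟩,
  ⟨false,0,⟨0,[(1,0),(47,0)]⟩,⟨1,[(6,1),(38,0),(4,0)]⟩⟩,[.e ⟨false,1,⟨1,[(17,0),(1,0),(30,0)]⟩,⟨0,
  []⟩⟩ ⟨false,0,⟨0,[(0,0)]⟩,⟨0,[(24,0),(24,0)]⟩⟩,.o ⟨false,1,⟨5,[(8,1),(11,1),(11,1),(3,0),(14,2)]⟩,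
  ⟨1,[(11,0),(24,0),(5,1)]⟩⟩,.o ⟨false,1,⟨0,[(24,0)]⟩,⟨1,[(0,0),(1,0),(33,0),(12,0)]⟩⟩,.a ⟨true,0,
  ⟨0,[(6,0)]⟩,⟨0,[(0,0),(48,0)]⟩⟩ ⟨false,1,⟨1,[(40,0),(9,0)]⟩,⟨1,[(31,0),(0,0)]⟩⟩ ⟨true,0,⟨0,[(0,
  0)]⟩,⟨1,[(6,1),(4,0),(24,0),(5,1)]⟩⟩]⟩) (.R ⟨1,false,false,false,[1,0,0,0,-1],[1,-1],[-1],(⟨0,
  [(26,0)]⟩,⟨0,[(27,0)]⟩),(⟨0,[(37,0)]⟩,⟨0,[(38,0)]⟩),⟨1,[(3,0),(3,0),(15,0),(2,0)]⟩,.k,.k,(.r (-1)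
  ⟨15,[(8,5),(11,2),(0,2),(18,1),(4,2),(2,3),(1,4)]⟩ ⟨1,[(11,0),(5,0),(1,0)]⟩),(.r 0 ⟨1,[(0,9),(1,
  9),(6,1),(3,1),(26,10),(1,17),(2,0)]⟩ ⟨3,[(8,1),(11,0),(0,0),(14,0),(13,0)]⟩),.k,.k,⟨false,0,⟨0,
  [(0,0),(1,0),(37,0),(1,1)]⟩,⟨3,[(8,1),(11,0),(0,0),(14,0),(13,0)]⟩⟩,⟨true,(-1),⟨0,[(2,0)]⟩,⟨0,
  [(24,0)]⟩⟩,⟨false,1,⟨1,[(17,0),(1,0),(31,0)]⟩,⟨0,[]⟩⟩,⟨false,0,⟨0,[(1,0)]⟩,⟨0,[(24,0),(24,0)]⟩⟩,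
  ⟨true,0,⟨0,[(49,0)]⟩,⟨0,[(48,0)]⟩⟩,⟨false,0,⟨0,[(1,0),(47,0)]⟩,⟨32,[(0,3),(6,2),(1,0),(3,0),(9,2),
  (0,28),(10,8),(4,0),(4,1),(4,1)]⟩⟩,[.a ⟨true,0,⟨15,[(6,1),(1,1),(11,6),(0,0),(3,1),(9,1),(1,1),(6,
  1)]⟩,⟨0,[(49,0)]⟩⟩ ⟨false,1,⟨1,[(17,0),(1,0),(30,0)]⟩,⟨0,[]⟩⟩ ⟨true,0,⟨1,[(1,0),(23,0),(22,0)]⟩,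
  ⟨0,[(0,0)]⟩⟩,.o ⟨false,1,⟨5,[(8,1),(11,1),(11,1),(3,0),(14,2)]⟩,⟨1,[(11,0),(24,0),(5,1)]⟩⟩,.o
  ⟨false,1,⟨0,[(24,0)]⟩,⟨1,[(2,1),(33,0),(13,0)]⟩⟩,.e ⟨false,1,⟨1,[(40,0),(9,0)]⟩,⟨1,[(31,0),(0,
  0)]⟩⟩ ⟨false,1,⟨9,[(1,5),(6,3),(12,1),(3,3),(19,0),(4,2),(0,1)]⟩,⟨0,[(0,0)]⟩⟩]⟩)) (.R ⟨2,true,
  false,false,[0,1],[0,0,0,0,1],[0,0,1,1],(⟨0,[]⟩,⟨0,[]⟩),(⟨0,[(26,0)]⟩,⟨0,[(25,0)]⟩),⟨0,[]⟩,.k,.k,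
  .k,(.r 0 ⟨1,[(0,9),(0,9),(6,1),(3,1),(26,10),(1,7),(2,0)]⟩ ⟨3,[(7,1),(11,0),(0,0),(14,0),(13,
  0)]⟩),.k,.k,⟨false,0,⟨0,[(0,0),(0,0),(37,0),(1,0)]⟩,⟨3,[(7,1),(11,0),(0,0),(14,0),(13,0)]⟩⟩,⟨true,
  (-1),⟨0,[(1,0)]⟩,⟨0,[(23,0)]⟩⟩,⟨false,1,⟨1,[(16,0),(1,0),(31,0)]⟩,⟨0,[]⟩⟩,⟨true,0,⟨7,[(1,1),(5,0),
  (0,1),(3,0),(4,0),(6,5),(10,0),(14,1)]⟩,⟨0,[(0,0)]⟩⟩,⟨true,0,⟨0,[(48,0)]⟩,⟨0,[(47,0)]⟩⟩,⟨false,0,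
  ⟨1,[(1,1),(47,0),(0,0)]⟩,⟨3,[(0,0),(22,2),(15,0),(7,0)]⟩⟩,[]⟩)) (.Q [0,0,0,0,0,0,0,0,-1,1,0,-1]
  (.p false [0,0,0,0,1] [1] (⟨0,[(25,0)]⟩,⟨0,[(24,0)]⟩) .k 1 (⟨0,[]⟩,⟨0,[]⟩) .k .k) (.R ⟨0,false,
  false,true,[0,0,0,0,1],[0,1],[1,1,1],(⟨0,[(26,0)]⟩,⟨0,[(25,0)]⟩),(⟨0,[(37,0)]⟩,⟨0,[(36,0)]⟩),⟨0,
  [(2,0)]⟩,.k,.k,(.r (-1) ⟨3,[(7,1),(11,0),(0,0),(14,0),(13,0)]⟩ ⟨1,[(8,1),(0,9),(2,1),(26,10),(1,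
  17),(2,0)]⟩),(.r (-1) ⟨3,[(7,1),(11,0),(0,0),(14,0),(13,0)]⟩ ⟨1,[(8,1),(0,9),(2,1),(26,10),(1,17),
  (2,0)]⟩),.k,.k,⟨false,1,⟨3,[(7,1),(11,0),(0,0),(14,0),(13,0)]⟩,⟨0,[(48,0)]⟩⟩,⟨true,1,⟨0,[(1,0)]⟩,
  ⟨11,[(3,2),(0,5),(1,1),(1,1),(0,3),(8,1),(1,1),(1,1),(3,5),(13,1)]⟩⟩,⟨false,0,⟨1,[(30,0),(0,0)]⟩,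
  ⟨1,[(49,0),(0,0)]⟩⟩,⟨true,0,⟨1,[(0,1),(8,0),(31,1),(2,0),(3,0)]⟩,⟨2,[(4,0),(3,0),(8,0),(6,1),(25,
  0)]⟩⟩,⟨false,0,⟨0,[]⟩,⟨0,[]⟩⟩,⟨false,0,⟨0,[]⟩,⟨0,[]⟩⟩,[.o ⟨false,0,⟨1,[(10,0),(24,0),(5,1)]⟩,⟨5,
  [(7,1),(11,1),(11,1),(3,0),(14,2)]⟩⟩,.e ⟨false,0,⟨0,[]⟩,⟨1,[(16,0),(1,0),(30,0)]⟩⟩ ⟨false,1,⟨0,
  [(1,0),(46,0)]⟩,⟨2,[(4,0),(3,0),(8,0),(6,1),(25,0)]⟩⟩,.a ⟨true,0,⟨0,[(24,0)]⟩,⟨0,[(0,0)]⟩⟩ ⟨false,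
  0,⟨1,[(30,0),(0,0)]⟩,⟨1,[(49,0),(0,0)]⟩⟩ ⟨true,0,⟨1,[(0,1),(9,0),(24,0),(5,1)]⟩,⟨2,[(4,0),(3,0),
  (8,0),(6,1),(25,0)]⟩⟩,.o ⟨false,0,⟨13,[(3,2),(0,7),(1,1),(13,3),(1,1),(3,5),(8,5)]⟩,⟨0,[(1,
  0)]⟩⟩]⟩) (.R ⟨0,false,false,false,[0,0,0,0,1],[0,1],[0,1],(⟨0,[(26,0)]⟩,⟨0,[(25,0)]⟩),(⟨0,[(37,
  0)]⟩,⟨0,[(36,0)]⟩),⟨0,[(2,0)]⟩,.k,.k,(.r (-1) ⟨3,[(7,1),(11,0),(0,0),(14,0),(13,0)]⟩ ⟨1,[(8,1),(0,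
  9),(2,1),(26,10),(1,17),(2,0)]⟩),(.r (-1) ⟨3,[(7,1),(11,0),(0,0),(14,0),(13,0)]⟩ ⟨1,[(8,1),(0,9),
  (2,1),(26,10),(1,17),(2,0)]⟩),.k,.k,⟨false,1,⟨5,[(7,2),(0,0),(8,0),(2,0),(14,0),(9,1),(3,2)]⟩,⟨1,
  [(10,0),(39,0)]⟩⟩,⟨true,1,⟨0,[(1,0)]⟩,⟨23,[(0,1),(2,2),(0,5),(1,1),(1,5),(0,11),(8,5),(3,1),(1,9),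
  (1,5),(13,5)]⟩⟩,⟨true,0,⟨0,[(52,0)]⟩,⟨0,[]⟩⟩,⟨false,1,⟨1,[(1,1),(8,0),(28,0)]⟩,⟨1,[(0,0),(18,0),
  (4,0)]⟩⟩,⟨false,0,⟨0,[]⟩,⟨0,[]⟩⟩,⟨false,0,⟨0,[]⟩,⟨0,[]⟩⟩,[.a ⟨true,0,⟨0,[(48,0)]⟩,⟨15,[(5,1),(1,
  1),(11,6),(0,0),(3,1),(9,1),(1,1),(6,1)]⟩⟩ ⟨true,0,⟨0,[(52,0)]⟩,⟨0,[(46,0)]⟩⟩ ⟨false,1,⟨0,[(1,0),
  (46,0)]⟩,⟨1,[(0,0),(18,0),(4,0)]⟩⟩,.o ⟨false,1,⟨1,[(35,0),(12,1),(1,0)]⟩,⟨0,[(47,0)]⟩⟩,.o ⟨false,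
  0,⟨0,[(0,0)]⟩,⟨0,[(23,0)]⟩⟩,.o ⟨false,0,⟨1,[(0,0),(3,0),(26,0)]⟩,⟨0,[(1,0)]⟩⟩]⟩))) (.S ⟨1,0,[1,1],
  [0,0,0,0,1],[],(⟨0,[(24,0)]⟩,⟨0,[(23,0)]⟩),⟨0,[(0,0)]⟩,.k,(.r (-1) ⟨3,[(5,1),(11,0),(0,0),(14,0),
  (13,0)]⟩ ⟨1,[(6,1),(0,9),(2,1),(26,10),(1,17),(2,0)]⟩),⟨false,1,⟨1,[(14,0),(1,0),(31,0)]⟩,⟨0,[]⟩⟩,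
  ⟨true,0,⟨0,[(50,0)]⟩,⟨0,[]⟩⟩,⟨true,0,⟨0,[(7,0),(29,0),(1,1)]⟩,⟨0,[(45,0)]⟩⟩,⟨false,0,⟨0,[(46,0)]⟩,
  ⟨5,[(5,1),(11,1),(11,1),(3,0),(14,2)]⟩⟩,[.e ⟨false,1,⟨1,[(14,0),(1,0),(30,0)]⟩,⟨0,[]⟩⟩ ⟨false,0,
  ⟨0,[(39,0)]⟩,⟨1,[(14,0),(1,0),(31,0)]⟩⟩,.o ⟨false,0,⟨1,[(0,1),(0,0),(31,0),(13,0)]⟩,⟨1,[(3,1),(38,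
  0),(4,0)]⟩⟩,.o ⟨false,0,⟨1,[(0,1),(0,0),(31,0),(13,0)]⟩,⟨0,[(21,0)]⟩⟩,.a ⟨true,(-1),⟨1,[(0,1),(0,
  0)]⟩,⟨3,[(3,1),(17,1),(19,0),(5,2)]⟩⟩ ⟨false,1,⟨1,[(47,0),(0,0)]⟩,⟨1,[(28,0),(0,0)]⟩⟩ ⟨true,0,⟨0,
  [(39,0)]⟩,⟨1,[(28,0),(0,0)]⟩⟩]⟩)))))) (.Q [0,0,0,0,0,2,0,0,0,-1,1] (.p true [0,0,1] [1] (⟨0,[(26,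
  0)]⟩,⟨0,[(25,0)]⟩) .k 1 (⟨0,[]⟩,⟨0,[]⟩) .k .k) (.R ⟨0,false,false,true,[1,-1,-1],[1,-1],[1,1,1],
  (⟨0,[(15,0)]⟩,⟨21,[(0,7),(9,1),(3,1),(7,1),(1,1),(2,13),(3,5),(5,2),(6,0)]⟩),(⟨0,[(30,0)]⟩,⟨0,
  [(31,0)]⟩),⟨0,[(0,0)]⟩,.k,.k,(.r (-2) ⟨1,[(10,1),(2,1),(15,0),(13,0)]⟩ ⟨1,[(4,2),(6,1),(32,0)]⟩),
  .k,.k,.k,⟨true,(-1),⟨0,[(3,0)]⟩,⟨5,[(6,1),(3,1),(2,0),(0,0),(14,0),(13,1),(0,0)]⟩⟩,⟨false,1,⟨0,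
  [(24,0),(18,0)]⟩,⟨11,[(1,2),(0,0),(8,0),(2,2),(6,1),(7,2),(14,0)]⟩⟩,⟨false,(-1),⟨1,[(1,0),(2,1),
  (1,0),(4,0),(32,0)]⟩,⟨3,[(2,1),(7,1),(13,1),(4,0),(13,3),(0,2)]⟩⟩,⟨true,0,⟨0,[(22,0)]⟩,⟨1,[(7,1),
  (21,0),(14,0)]⟩⟩,⟨false,0,⟨0,[]⟩,⟨0,[]⟩⟩,⟨false,0,⟨0,[]⟩,⟨0,[]⟩⟩,[.o ⟨false,0,⟨0,[(41,0)]⟩,⟨1,
  [(29,0),(12,1),(1,0)]⟩⟩,.e ⟨false,0,⟨0,[]⟩,⟨1,[(10,0),(1,0),(30,0)]⟩⟩ ⟨false,2,⟨1,[(6,0),(3,1),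
  (11,0),(20,0),(0,0)]⟩,⟨0,[(1,0)]⟩⟩,.a ⟨true,(-1),⟨79,[(1,43),(0,21),(9,21),(1,6),(13,0),(1,0),(2,
  10),(3,24),(7,13)]⟩,⟨0,[(24,0),(18,0)]⟩⟩ ⟨false,0,⟨1,[(24,0),(0,0)]⟩,⟨1,[(43,0),(0,0)]⟩⟩ ⟨true,1,
  ⟨1,[(6,0),(3,1),(11,0)]⟩,⟨0,[(1,0)]⟩⟩,.o ⟨false,(-1),⟨17,[(1,10),(0,3),(0,4),(2,3),(18,6),(3,1),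
  (4,7)]⟩,⟨1,[(24,1),(4,0),(13,2)]⟩⟩]⟩) (.Q [0,0,-2,0,0,0,-1,0,0,1,-1] (.p false [0,0,1] [1] (⟨0,
  [(27,0)]⟩,⟨0,[(26,0)]⟩) .k 1 (⟨0,[]⟩,⟨0,[]⟩) .k .k) (.R ⟨0,false,false,true,[0,-1,1],[1,-1],[0,1,
  0,-1],(⟨0,[(17,0)]⟩,⟨37,[(11,1),(3,1),(7,1),(1,1),(1,37),(4,13),(4,7),(0,2),(6,0)]⟩),(⟨0,[(31,
  0)]⟩,⟨0,[(32,0)]⟩),⟨2,[(1,1),(25,0),(1,0),(7,2)]⟩,.k,.k,(.r (-1) ⟨1,[(0,1),(6,1),(22,0),(14,0)]⟩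
  ⟨1,[(5,1),(5,1),(13,0),(0,0)]⟩),.k,.k,.k,⟨true,0,⟨1,[(25,0),(0,0)]⟩,⟨0,[]⟩⟩,⟨false,0,⟨0,[(22,0)]⟩,
  ⟨1,[(25,1),(4,0),(13,0)]⟩⟩,⟨false,0,⟨1,[(2,3),(0,1),(21,5),(8,4),(1,7),(2,0)]⟩,⟨3,[(0,1),(4,0),(6,
  1),(10,1),(6,0),(14,3)]⟩⟩,⟨true,(-1),⟨0,[(8,0)]⟩,⟨1,[(23,1),(6,0),(14,0)]⟩⟩,⟨false,0,⟨0,[]⟩,⟨0,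
  []⟩⟩,⟨false,0,⟨0,[]⟩,⟨0,[]⟩⟩,[.o ⟨false,0,⟨0,[(42,0)]⟩,⟨1,[(30,0),(12,1),(1,0)]⟩⟩,.a ⟨true,0,⟨57,
  [(11,5),(2,28),(0,5),(7,5),(1,5),(3,4),(1,4),(2,2),(3,8)]⟩,⟨0,[(43,0)]⟩⟩ ⟨false,1,⟨5,[(7,1),(3,1),
  (2,0),(0,0),(14,0),(13,1),(0,0)]⟩,⟨0,[(43,0)]⟩⟩ ⟨true,0,⟨4,[(0,1),(2,0),(8,0),(1,0),(0,0),(29,
  0)]⟩,⟨1,[(5,0),(19,1),(4,0)]⟩⟩,.a ⟨true,0,⟨0,[(25,0)]⟩,⟨0,[(22,0)]⟩⟩ ⟨true,0,⟨0,[(42,0)]⟩,⟨0,[(43,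
  0)]⟩⟩ ⟨false,0,⟨4,[(0,1),(2,0),(8,0),(1,0),(0,0),(29,0)]⟩,⟨1,[(25,1),(4,0),(12,1),(1,0)]⟩⟩,.a
  ⟨true,0,⟨1,[(25,2),(0,0)]⟩,⟨0,[(0,0)]⟩⟩ ⟨false,1,⟨5,[(7,1),(3,1),(2,0),(0,0),(14,0),(13,1),(0,
  0)]⟩,⟨1,[(5,0),(39,0)]⟩⟩ ⟨true,0,⟨7,[(0,3),(2,1),(8,1),(1,0),(0,0),(24,1),(3,1)]⟩,⟨1,[(5,0),(19,
  1),(4,0)]⟩⟩]⟩) (.Q [0,0,0,0,-1,0,-2,-2,0,1,-2] (.p false [0,0,1] [1,0,-1] (⟨0,[(28,0)]⟩,⟨0,[(27,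
  0)]⟩) .k 2 (⟨0,[(27,0)]⟩,⟨0,[(28,0)]⟩) .k (.r 0 ⟨0,[(5,0),(6,1),(32,0)]⟩ ⟨0,[(10,1),(34,0)]⟩))
  (.Q [-1,0,0,1,0,0,0,0,-1,0,0,-1] (.p false [0,0,0,0,1] [] (⟨0,[(22,0)]⟩,⟨0,[(21,0)]⟩) .k 0 (⟨0,
  []⟩,⟨0,[]⟩) .k .k) (.R ⟨2,true,false,true,[0,1],[0,0,0,0,1],[2,1],(⟨0,[]⟩,⟨0,[]⟩),(⟨0,[(23,0)]⟩,
  ⟨0,[(22,0)]⟩),⟨0,[]⟩,.k,.k,.k,(.r 0 ⟨0,[(1,0),(0,0),(1,4),(4,1),(17,3),(8,5),(1,9)]⟩ ⟨5,[(9,1),(3,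
  1),(2,0),(0,0),(14,0),(13,1),(0,0)]⟩),.k,.k,⟨true,0,⟨0,[]⟩,⟨2,[(2,0),(14,0),(9,0)]⟩⟩,⟨false,0,⟨0,
  [(21,0)]⟩,⟨13,[(0,7),(4,1),(3,1),(10,5),(11,0),(13,6),(0,1)]⟩⟩,⟨false,1,⟨5,[(9,1),(3,1),(2,0),(0,
  0),(14,0),(13,1),(0,0)]⟩,⟨0,[(4,0),(22,0),(8,0),(1,0)]⟩⟩,⟨true,0,⟨0,[(21,0),(22,0)]⟩,⟨0,[(0,0)]⟩⟩,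
  ⟨true,0,⟨0,[(38,0)]⟩,⟨0,[(48,0)]⟩⟩,⟨false,0,⟨0,[(21,0)]⟩,⟨13,[(0,7),(4,1),(3,1),(10,5),(11,0),(14,
  8)]⟩⟩,[]⟩) (.Q [0,0,0,1,1,0,2,2,0,-1,2] (.p true [0,0,1] [1,0,-1] (⟨0,[(30,0)]⟩,⟨0,[(29,0)]⟩) .k
  2 (⟨0,[(29,0)]⟩,⟨0,[(30,0)]⟩) .k (.r 0 ⟨0,[(7,0),(6,1),(32,0)]⟩ ⟨8,[(1,2),(0,3),(10,11),(3,0),(9,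
  3)]⟩)) (.R ⟨1,true,false,false,[1,0,-1],[0,0,1],[0,1,0,0,0,0,0,-1],(⟨0,[(30,0)]⟩,⟨0,[(31,0)]⟩),
  (⟨0,[(31,0)]⟩,⟨0,[(30,0)]⟩),⟨0,[(19,0)]⟩,.k,.k,.k,.k,(.x 1 ⟨7,[(5,6),(0,2),(8,0),(0,1),(1,2),(1,
  9),(10,5),(5,1),(2,5)]⟩ ⟨1,[(4,3),(23,3),(4,0),(6,1),(6,2)]⟩),.k,⟨true,0,⟨1,[(2,1),(25,3),(4,0),
  (5,1),(7,0)]⟩,⟨5,[(0,1),(4,6),(4,2),(4,2),(0,1),(24,0),(6,5)]⟩⟩,⟨false,2,⟨1,[(28,3),(4,0),(13,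
  2)]⟩,⟨2,[(5,2),(0,0),(8,0),(9,1),(22,0)]⟩⟩,⟨true,0,⟨0,[(50,0)]⟩,⟨0,[]⟩⟩,⟨false,2,⟨17,[(0,15),(0,
  7),(8,3),(10,7),(11,0),(14,10)]⟩,⟨0,[(2,0)]⟩⟩,⟨false,0,⟨0,[(46,0)]⟩,⟨5,[(1,1),(15,1),(3,1),(11,0),
  (14,2)]⟩⟩,⟨true,1,⟨0,[(0,0)]⟩,⟨1,[(2,0),(3,0),(20,0)]⟩⟩,[]⟩) (.Q [0,0,0,2,1,0,2,2,0,-1,2] (.p
  true [0,0,1] [1,0,-1] (⟨0,[(31,0)]⟩,⟨0,[(30,0)]⟩) .k 2 (⟨0,[(30,0)]⟩,⟨0,[(31,0)]⟩) .k (.r 0 ⟨0,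
  [(8,0),(6,1),(32,0)]⟩ ⟨20,[(0,5),(2,7),(4,2),(5,29),(3,1),(9,7)]⟩)) (.R ⟨1,true,false,false,[1,0,
  -1],[0,1,1],[0,1,0,0,0,0,0,-1],(⟨0,[(31,0)]⟩,⟨0,[(32,0)]⟩),(⟨38,[(0,0),(14,1),(2,0),(0,1),(9,1),
  (2,38),(3,14),(4,7),(0,2)]⟩,⟨0,[(20,0)]⟩),⟨0,[(20,0)]⟩,.k,.k,.k,(.r (-1) ⟨1,[(1,1),(27,3),(4,0),
  (13,2)]⟩ ⟨31,[(0,11),(5,13),(9,5),(0,33),(8,9),(15,0),(6,2)]⟩),(.r (-2) ⟨2,[(1,1),(9,1),(3,3),(13,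
  1),(4,0),(13,1),(0,0)]⟩ ⟨6,[(0,3),(5,9),(4,1),(5,3),(20,0),(3,1)]⟩),.k,⟨false,1,⟨1,[(1,1),(27,3),
  (4,0),(5,1),(7,2)]⟩,⟨13,[(0,5),(5,14),(4,2),(4,6),(0,5),(24,2),(6,11)]⟩⟩,⟨true,2,⟨1,[(29,3),(4,0),
  (13,2)]⟩,⟨0,[(6,1),(11,0)]⟩⟩,⟨true,0,⟨0,[(51,0)]⟩,⟨0,[]⟩⟩,⟨false,2,⟨21,[(0,19),(1,9),(8,3),(10,9),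
  (11,0),(14,12)]⟩,⟨0,[(1,0)]⟩⟩,⟨false,0,⟨0,[(47,0)]⟩,⟨5,[(2,1),(15,1),(3,1),(11,0),(14,2)]⟩⟩,⟨true,
  1,⟨0,[(0,0)]⟩,⟨7,[(1,3),(5,4),(10,0),(9,2),(5,0)]⟩⟩,[]⟩) (.Q [0,0,-1,0,1,0,1,0,1,-1,1,1] (.p true
  [0,0,1] [1,0,0,0,-1] (⟨0,[(32,0)]⟩,⟨0,[(31,0)]⟩) .k 2 (⟨0,[(24,0)]⟩,⟨0,[(25,0)]⟩) .k (.r 0 ⟨1,[(9,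
  0),(6,1),(32,0)]⟩ ⟨2,[(4,0),(10,2),(3,0),(9,0)]⟩)) (.Q [0,0,0,0,0,1,0,0,0,0,0,-1] (.ed true [1,-1,
  0,0,1] .k) (.Q [0,0,1,-1,-1,0,0,0,1,0,0,1] (.p true [0,0,0,0,1] [] (⟨0,[(27,0)]⟩,⟨0,[(26,0)]⟩) .k
  0 (⟨0,[]⟩,⟨0,[]⟩) .k .k) (.R ⟨0,false,false,false,[0,0,0,0,1],[0,1],[],(⟨0,[(28,0)]⟩,⟨0,[(27,
  0)]⟩),(⟨0,[(39,0)]⟩,⟨0,[(38,0)]⟩),⟨0,[(1,0)]⟩,.k,.k,(.r (-1) ⟨9,[(2,1),(18,4),(0,0),(2,1),(11,1),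
  (13,3)]⟩ ⟨0,[(3,0),(3,0),(1,6),(4,1),(17,5),(8,7),(1,13)]⟩),(.r (-1) ⟨9,[(2,1),(18,4),(0,0),(2,1),
  (11,1),(13,3)]⟩ ⟨0,[(3,0),(3,0),(1,6),(4,1),(17,5),(8,7),(1,13)]⟩),.k,.k,⟨true,1,⟨9,[(2,1),(18,4),
  (0,0),(2,1),(11,1),(13,3)]⟩,⟨0,[(11,0)]⟩⟩,⟨false,2,⟨0,[(25,0),(25,0)]⟩,⟨8,[(0,6),(1,1),(6,1),(2,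
  0),(32,0),(4,2)]⟩⟩,⟨false,1,⟨7,[(2,0),(15,1),(1,1),(1,0),(2,0),(6,0),(19,3)]⟩,⟨0,[]⟩⟩,⟨true,1,⟨0,
  [(25,0),(24,0)]⟩,⟨0,[(0,0),(42,0)]⟩⟩,⟨false,0,⟨0,[]⟩,⟨0,[]⟩⟩,⟨false,0,⟨0,[]⟩,⟨0,[]⟩⟩,[.a ⟨true,0,
  ⟨0,[(50,0)]⟩,⟨57,[(18,5),(2,28),(0,5),(7,5),(1,5),(3,4),(1,4),(2,2),(3,8)]⟩⟩ ⟨false,1,⟨9,[(2,3),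
  (19,1),(2,3),(19,0),(5,2)]⟩,⟨0,[]⟩⟩ ⟨true,1,⟨0,[(25,0),(24,0)]⟩,⟨0,[(0,0)]⟩⟩,.o ⟨false,1,⟨1,[(37,
  0),(12,1),(1,0)]⟩,⟨0,[(49,0)]⟩⟩,.o ⟨false,0,⟨3,[(0,1),(1,1),(6,1),(27,0),(13,0)]⟩,⟨0,[(25,0)]⟩⟩,
  .e ⟨false,1,⟨1,[(51,0),(0,0)]⟩,⟨2,[(7,0),(14,0),(9,0)]⟩⟩ ⟨false,2,⟨1,[(25,1),(24,1),(0,0),(0,0)]⟩,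
  ⟨0,[(0,0)]⟩⟩]⟩) (.Q [0,0,0,0,0,0,0,0,1,-1,0,1] (.p true [0,0,0,0,1] [1] (⟨0,[(28,0)]⟩,⟨0,[(27,
  0)]⟩) .k 1 (⟨0,[]⟩,⟨0,[]⟩) .k .k) (.S ⟨1,0,[-1,1],[1,0,0,0,-1],[-1],(⟨0,[(28,0)]⟩,⟨0,[(29,0)]⟩),
  ⟨1,[(2,0),(6,0),(15,0),(2,0)]⟩,.k,(.r (-1) ⟨5,[(15,1),(3,1),(2,0),(0,0),(23,0),(4,1),(0,0)]⟩ ⟨3,
  [(3,0),(9,1),(9,0),(2,0),(6,0)]⟩),⟨false,1,⟨3,[(3,0),(19,0),(2,0),(6,0),(19,1)]⟩,⟨0,[]⟩⟩,⟨true,0,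
  ⟨0,[(55,0)]⟩,⟨0,[]⟩⟩,⟨true,0,⟨0,[(51,0)]⟩,⟨0,[(50,0)]⟩⟩,⟨false,0,⟨0,[(51,0)]⟩,⟨5,[(6,1),(15,1),(3,
  1),(11,0),(14,2)]⟩⟩,[.a ⟨true,0,⟨10,[(1,9),(9,4),(1,4),(1,4),(10,0),(10,3),(1,3),(6,0),(8,0)]⟩,⟨1,
  [(0,1),(45,0),(6,0)]⟩⟩ ⟨false,1,⟨15,[(3,1),(15,4),(1,2),(1,1),(2,1),(4,1),(10,0),(9,5)]⟩,⟨0,[]⟩⟩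
  ⟨true,0,⟨0,[(55,0)]⟩,⟨0,[(43,0)]⟩⟩,.o ⟨false,1,⟨69,[(1,8),(2,1),(3,2),(0,6),(0,2),(4,3),(9,6),(0,
  60),(10,20),(4,1),(4,2)]⟩,⟨0,[(0,0)]⟩⟩,.o ⟨false,1,⟨0,[(26,0)]⟩,⟨0,[(0,0)]⟩⟩,.e ⟨false,1,⟨1,[(42,
  0),(9,0)]⟩,⟨2,[(8,0),(14,0),(9,0)]⟩⟩ ⟨false,1,⟨15,[(3,1),(15,4),(1,2),(1,1),(2,1),(4,1),(10,0),(9,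
  5)]⟩,⟨0,[(43,0)]⟩⟩]⟩) (.R ⟨0,false,false,true,[0,0,0,0,1],[0,1],[1,1,1],(⟨0,[(29,0)]⟩,⟨0,[(28,
  0)]⟩),(⟨0,[(40,0)]⟩,⟨0,[(39,0)]⟩),⟨0,[(2,0)]⟩,.k,.k,(.r (-1) ⟨9,[(3,1),(18,4),(0,0),(2,1),(11,1),
  (13,3)]⟩ ⟨0,[(4,0),(3,0),(1,6),(4,1),(17,5),(8,7),(1,13)]⟩),(.r (-1) ⟨9,[(3,1),(18,4),(0,0),(2,1),
  (11,1),(13,3)]⟩ ⟨0,[(4,0),(3,0),(1,6),(4,1),(17,5),(8,7),(1,13)]⟩),.k,.k,⟨false,1,⟨9,[(3,1),(18,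
  4),(0,0),(2,1),(11,1),(13,3)]⟩,⟨0,[(51,0)]⟩⟩,⟨true,1,⟨1,[(0,1),(37,0),(13,0)]⟩,⟨22,[(3,2),(0,0),
  (1,19),(2,1),(0,2),(1,22),(2,1),(9,1),(11,5),(4,0)]⟩⟩,⟨false,0,⟨2,[(8,0),(14,0),(9,0)]⟩,⟨1,[(52,
  0),(0,0)]⟩⟩,⟨true,0,⟨1,[(0,1),(11,0),(31,1),(2,0),(3,0)]⟩,⟨0,[(6,0)]⟩⟩,⟨false,0,⟨0,[]⟩,⟨0,[]⟩⟩,
  ⟨false,0,⟨0,[]⟩,⟨0,[]⟩⟩,[.o ⟨false,0,⟨1,[(13,0),(24,0),(5,1)]⟩,⟨5,[(6,1),(15,1),(3,1),(11,0),(14,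
  2)]⟩⟩,.e ⟨false,0,⟨0,[]⟩,⟨9,[(3,3),(19,1),(2,3),(19,0),(5,2)]⟩⟩ ⟨false,1,⟨0,[(1,0)]⟩,⟨22,[(3,2),
  (0,0),(1,19),(2,1),(0,2),(4,1),(9,1),(11,5),(4,0)]⟩⟩,.a ⟨true,0,⟨0,[(27,0)]⟩,⟨0,[(0,0)]⟩⟩ ⟨false,
  0,⟨2,[(8,0),(14,0),(9,0)]⟩,⟨1,[(52,0),(0,0)]⟩⟩ ⟨true,0,⟨1,[(0,1),(12,0),(24,0),(5,1)]⟩,⟨22,[(3,2),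
  (0,0),(1,19),(2,1),(0,2),(4,1),(9,1),(11,5),(4,0)]⟩⟩,.o ⟨false,0,⟨2,[(6,0),(1,0),(1,0),(16,1),(19,
  0)]⟩,⟨1,[(0,1),(37,0),(13,0)]⟩⟩]⟩))) (.Q [0,0,0,0,0,0,0,0,1,-1,0,1] (.p true [0,0,0,0,1] [1] (⟨0,
  [(27,0)]⟩,⟨0,[(26,0)]⟩) .k 1 (⟨0,[]⟩,⟨0,[]⟩) .k .k) (.Q [1,1,0,-2,-1,0,0,0,1,0,0,1] (.p true [0,0,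
  0,0,1] [] (⟨0,[(28,0)]⟩,⟨0,[(27,0)]⟩) .k 0 (⟨0,[]⟩,⟨0,[]⟩) .k .k) (.R ⟨1,false,false,false,[0,0,0,
  0,1],[0,1],[],(⟨0,[(29,0)]⟩,⟨0,[(28,0)]⟩),(⟨0,[(40,0)]⟩,⟨0,[(39,0)]⟩),⟨0,[(2,0)]⟩,.k,.k,(.r (-1)
  ⟨9,[(3,1),(18,4),(0,0),(2,1),(11,1),(13,3)]⟩ ⟨0,[(4,0),(3,0),(1,6),(4,1),(17,5),(8,7),(1,13)]⟩),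
  (.r (-1) ⟨9,[(3,1),(18,4),(0,0),(2,1),(11,1),(13,3)]⟩ ⟨0,[(4,0),(3,0),(1,6),(4,1),(17,5),(8,7),(1,
  13)]⟩),(.r (-2) ⟨4,[(3,1),(18,4),(0,0),(2,1),(11,1),(13,3)]⟩ ⟨0,[(10,1),(22,1),(8,0),(1,1)]⟩),.k,
  ⟨true,1,⟨9,[(3,1),(18,4),(0,0),(2,1),(11,1),(13,3)]⟩,⟨0,[(12,0)]⟩⟩,⟨false,2,⟨0,[(26,0),(25,0)]⟩,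
  ⟨13,[(0,9),(0,3),(11,6),(28,4),(3,1),(4,5)]⟩⟩,⟨false,1,⟨7,[(3,0),(15,1),(1,1),(1,0),(2,0),(6,0),
  (19,3)]⟩,⟨0,[]⟩⟩,⟨true,1,⟨0,[(26,0),(24,0)]⟩,⟨6,[(0,4),(0,1),(11,0),(30,1),(1,0),(4,0)]⟩⟩,⟨true,0,
  ⟨0,[(10,0),(22,0),(8,0),(1,1)]⟩,⟨0,[(50,0)]⟩⟩,⟨true,1,⟨0,[(26,0),(24,1)]⟩,⟨0,[(0,0)]⟩⟩,[.a ⟨true,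
  0,⟨0,[(51,0)]⟩,⟨57,[(19,5),(2,28),(0,5),(7,5),(1,5),(3,4),(1,4),(2,2),(3,8)]⟩⟩ ⟨false,1,⟨9,[(3,3),
  (19,1),(2,3),(19,0),(5,2)]⟩,⟨0,[]⟩⟩ ⟨true,1,⟨0,[(26,0),(24,0)]⟩,⟨1,[(0,1),(12,0),(28,0)]⟩⟩,.o
  ⟨false,1,⟨1,[(38,0),(12,1),(1,0)]⟩,⟨0,[(50,0)]⟩⟩,.o ⟨false,0,⟨0,[(1,0)]⟩,⟨0,[(26,0)]⟩⟩,.e ⟨false,
  1,⟨1,[(52,0),(0,0)]⟩,⟨2,[(8,0),(14,0),(9,0)]⟩⟩ ⟨false,2,⟨1,[(26,1),(24,1),(0,0),(0,0)]⟩,⟨1,[(0,1),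
  (12,0),(28,0)]⟩⟩]⟩) (.Q [0,0,0,0,0,1,0,0,0,-1,0,1] (.ed false [0,1,0,0,1] .k) (.R ⟨0,false,false,
  false,[1,0,0,0,-1],[0,1],[-1],(⟨0,[(29,0)]⟩,⟨0,[(30,0)]⟩),(⟨0,[(41,0)]⟩,⟨0,[(40,0)]⟩),⟨0,[(0,0)]⟩,
  .k,.k,(.r (-1) ⟨5,[(16,1),(3,1),(2,0),(0,0),(23,0),(4,1),(0,0)]⟩ ⟨17,[(1,2),(2,2),(4,1),(4,5),(9,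
  4),(9,4),(21,2)]⟩),(.r (-1) ⟨5,[(16,1),(3,1),(2,0),(0,0),(23,0),(4,1),(0,0)]⟩ ⟨17,[(1,2),(2,2),(4,
  1),(4,5),(9,4),(9,4),(21,2)]⟩),.k,.k,⟨true,1,⟨5,[(16,1),(3,1),(2,0),(0,0),(23,0),(4,1),(0,0)]⟩,⟨0,
  [(13,0)]⟩⟩,⟨false,1,⟨0,[(2,0),(50,0)]⟩,⟨9,[(1,5),(10,2),(0,3),(0,0),(1,2),(6,2),(3,3),(19,1)]⟩⟩,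
  ⟨false,1,⟨3,[(4,0),(19,0),(2,0),(6,0),(19,1)]⟩,⟨0,[]⟩⟩,⟨true,0,⟨0,[(4,0),(6,0)]⟩,⟨1,[(1,1),(10,0),
  (3,1),(0,0)]⟩⟩,⟨false,0,⟨0,[]⟩,⟨0,[]⟩⟩,⟨false,0,⟨0,[]⟩,⟨0,[]⟩⟩,[.a ⟨true,0,⟨0,[(52,0)]⟩,⟨57,[(20,
  5),(2,28),(0,5),(7,5),(1,5),(3,4),(1,4),(2,2),(3,8)]⟩⟩ ⟨false,1,⟨15,[(4,1),(15,4),(1,2),(1,1),(2,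
  1),(4,1),(10,0),(9,5)]⟩,⟨0,[]⟩⟩ ⟨true,0,⟨0,[(4,0),(6,0)]⟩,⟨24,[(1,14),(3,8),(7,10),(2,17),(6,5),
  (3,9),(16,2),(2,4)]⟩⟩,.o ⟨false,1,⟨3,[(1,1),(0,1),(36,0),(14,0)]⟩,⟨0,[(51,0)]⟩⟩,.o ⟨false,1,⟨0,
  [(27,0)]⟩,⟨0,[(2,0)]⟩⟩,.e ⟨false,1,⟨1,[(43,0),(9,0)]⟩,⟨2,[(9,0),(14,0),(9,0)]⟩⟩ ⟨false,1,⟨1,[(4,
  1),(6,1),(41,0),(0,0)]⟩,⟨24,[(1,14),(3,8),(7,10),(2,17),(6,5),(3,9),(16,2),(2,4)]⟩⟩]⟩) (.S ⟨1,0,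
  [-1,1],[1,0,0,0,-1],[-1],(⟨0,[(29,0)]⟩,⟨0,[(30,0)]⟩),⟨0,[(0,0)]⟩,.k,(.r (-1) ⟨5,[(16,1),(3,1),(2,
  0),(0,0),(23,0),(4,1),(0,0)]⟩ ⟨17,[(1,2),(2,2),(4,1),(4,5),(9,4),(9,4),(21,2)]⟩),⟨false,1,⟨3,[(4,
  0),(19,0),(2,0),(6,0),(19,1)]⟩,⟨0,[]⟩⟩,⟨true,0,⟨0,[(56,0)]⟩,⟨0,[]⟩⟩,⟨true,0,⟨0,[(52,0)]⟩,⟨0,[(51,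
  0)]⟩⟩,⟨false,0,⟨0,[(52,0)]⟩,⟨5,[(7,1),(15,1),(3,1),(11,0),(14,2)]⟩⟩,[.a ⟨true,0,⟨0,[(1,0),(14,0),
  (0,0)]⟩,⟨1,[(2,1),(44,0),(6,0)]⟩⟩ ⟨false,1,⟨15,[(4,1),(15,4),(1,2),(1,1),(2,1),(4,1),(10,0),(9,
  5)]⟩,⟨0,[]⟩⟩ ⟨true,0,⟨0,[(56,0)]⟩,⟨0,[(44,0)]⟩⟩,.o ⟨false,1,⟨16,[(1,5),(3,1),(10,3),(10,10),(15,
  0),(4,0),(7,3)]⟩,⟨0,[(2,0)]⟩⟩,.o ⟨false,1,⟨0,[(27,0)]⟩,⟨0,[(2,0)]⟩⟩,.e ⟨false,1,⟨1,[(43,0),(9,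
  0)]⟩,⟨2,[(9,0),(14,0),(9,0)]⟩⟩ ⟨false,1,⟨15,[(4,1),(15,4),(1,2),(1,1),(2,1),(4,1),(10,0),(9,5)]⟩,
  ⟨0,[(44,0)]⟩⟩]⟩))) (.R ⟨1,false,false,true,[0,0,0,0,1],[0,1],[1,1,1],(⟨0,[(28,0)]⟩,⟨0,[(27,0)]⟩),
  (⟨0,[(39,0)]⟩,⟨0,[(38,0)]⟩),⟨0,[(1,0)]⟩,.k,.k,(.r (-1) ⟨9,[(2,1),(18,4),(0,0),(2,1),(11,1),(13,
  3)]⟩ ⟨0,[(3,0),(3,0),(1,6),(4,1),(17,5),(8,7),(1,13)]⟩),(.r (-1) ⟨9,[(2,1),(18,4),(0,0),(2,1),(11,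
  1),(13,3)]⟩ ⟨0,[(3,0),(3,0),(1,6),(4,1),(17,5),(8,7),(1,13)]⟩),(.r (-2) ⟨4,[(2,1),(18,4),(0,0),(2,
  1),(11,1),(13,3)]⟩ ⟨0,[(9,1),(22,1),(8,0),(1,1)]⟩),.k,⟨false,1,⟨9,[(2,1),(18,4),(0,0),(2,1),(11,
  1),(13,3)]⟩,⟨0,[(50,0)]⟩⟩,⟨true,1,⟨1,[(0,1),(36,0),(13,0)]⟩,⟨22,[(2,2),(0,0),(1,19),(2,1),(0,2),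
  (1,22),(2,1),(9,1),(11,5),(4,0)]⟩⟩,⟨false,0,⟨2,[(7,0),(14,0),(9,0)]⟩,⟨1,[(51,0),(0,0)]⟩⟩,⟨true,0,
  ⟨1,[(0,1),(10,0),(31,1),(2,0),(3,0)]⟩,⟨0,[(5,0)]⟩⟩,⟨true,(-1),⟨0,[(9,0),(22,0),(10,0)]⟩,⟨9,[(2,1),
  (18,4),(0,0),(2,1),(11,1),(13,3)]⟩⟩,⟨true,0,⟨1,[(0,1),(11,0),(24,0),(5,1),(6,1)]⟩,⟨3,[(2,0),(0,0),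
  (1,2),(3,0),(4,1),(37,0)]⟩⟩,[.o ⟨false,0,⟨1,[(12,0),(24,0),(5,1)]⟩,⟨5,[(5,1),(15,1),(3,1),(11,0),
  (14,2)]⟩⟩,.e ⟨false,0,⟨0,[]⟩,⟨9,[(2,3),(19,1),(2,3),(19,0),(5,2)]⟩⟩ ⟨false,1,⟨1,[(0,1),(36,0),(12,
  1),(0,0)]⟩,⟨22,[(2,2),(0,0),(1,19),(2,1),(0,2),(4,1),(9,1),(11,5),(4,0)]⟩⟩,.a ⟨true,0,⟨0,[(26,
  0)]⟩,⟨0,[(0,0)]⟩⟩ ⟨false,0,⟨2,[(7,0),(14,0),(9,0)]⟩,⟨1,[(51,0),(0,0)]⟩⟩ ⟨true,0,⟨1,[(0,1),(11,0),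
  (24,0),(5,1)]⟩,⟨22,[(2,2),(0,0),(1,19),(2,1),(0,2),(4,1),(9,1),(11,5),(4,0)]⟩⟩,.o ⟨false,0,⟨2,[(5,
  0),(1,0),(1,0),(16,1),(19,0)]⟩,⟨1,[(0,1),(36,0),(13,0)]⟩⟩]⟩))) (.Q [0,0,0,0,0,-1,0,0,0,0,0,1]
  (.ed false [1,-1,0,0,1] .k) (.S ⟨1,0,[1,1],[0,0,0,0,1],[],(⟨0,[(27,0)]⟩,⟨0,[(26,0)]⟩),⟨0,[(0,0)]⟩,
  .k,(.r (-1) ⟨5,[(13,1),(3,1),(2,0),(0,0),(14,0),(13,1),(0,0)]⟩ ⟨0,[(2,0),(3,0),(1,6),(4,1),(17,5),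
  (8,7),(1,13)]⟩),⟨false,1,⟨1,[(17,0),(1,0),(31,0)]⟩,⟨0,[]⟩⟩,⟨true,0,⟨0,[(53,0)]⟩,⟨0,[]⟩⟩,⟨true,0,
  ⟨0,[(8,0),(22,0),(8,0),(1,1)]⟩,⟨0,[(48,0)]⟩⟩,⟨false,0,⟨0,[(49,0)]⟩,⟨5,[(4,1),(15,1),(3,1),(11,0),
  (14,2)]⟩⟩,[.o ⟨false,0,⟨1,[(4,1),(6,0),(24,0),(5,1)]⟩,⟨1,[(1,1),(29,1),(4,0),(13,1),(0,0)]⟩⟩,.a
  ⟨true,0,⟨0,[(25,0)]⟩,⟨0,[(1,0),(29,0),(18,0)]⟩⟩ ⟨false,1,⟨1,[(50,0),(0,0)]⟩,⟨0,[(53,0)]⟩⟩ ⟨true,0,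
  ⟨0,[]⟩,⟨2,[(6,0),(14,0),(9,0)]⟩⟩,.e ⟨false,1,⟨1,[(17,0),(1,0),(31,0)]⟩,⟨0,[]⟩⟩ ⟨false,0,⟨0,[]⟩,⟨1,
  [(17,0),(1,0),(31,0)]⟩⟩,.o ⟨false,0,⟨2,[(4,0),(1,0),(1,0),(16,1),(19,0)]⟩,⟨1,[(1,1),(29,1),(4,0),
  (13,2)]⟩⟩]⟩) (.S ⟨1,0,[-1,1],[1,0,0,0,-1],[-1],(⟨0,[(26,0)]⟩,⟨0,[(27,0)]⟩),⟨1,[(0,0),(6,0),(15,0),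
  (2,0)]⟩,.k,(.r (-1) ⟨5,[(13,1),(3,1),(2,0),(0,0),(23,0),(4,1),(0,0)]⟩ ⟨1,[(11,0),(5,0),(1,0)]⟩),
  ⟨false,1,⟨1,[(17,0),(1,0),(31,0)]⟩,⟨0,[]⟩⟩,⟨true,0,⟨0,[(53,0)]⟩,⟨0,[]⟩⟩,⟨true,0,⟨0,[(49,0)]⟩,⟨0,
  [(48,0)]⟩⟩,⟨false,0,⟨0,[(49,0)]⟩,⟨5,[(4,1),(15,1),(3,1),(11,0),(14,2)]⟩⟩,[.o ⟨false,0,⟨1,[(1,1),
  (29,1),(10,1),(2,0),(4,0)]⟩,⟨1,[(25,1),(10,0),(14,0)]⟩⟩,.e ⟨false,1,⟨1,[(40,0),(9,0)]⟩,⟨0,[(53,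
  0)]⟩⟩ ⟨false,1,⟨1,[(17,0),(1,0),(30,0)]⟩,⟨0,[]⟩⟩,.a ⟨true,0,⟨0,[(1,0),(29,0),(18,0)]⟩,⟨0,[(25,
  0)]⟩⟩ ⟨false,1,⟨1,[(17,0),(1,0),(31,0)]⟩,⟨0,[]⟩⟩ ⟨true,0,⟨0,[(53,0)]⟩,⟨0,[]⟩⟩,.o ⟨false,0,⟨1,[(1,
  1),(29,1),(4,0),(13,0)]⟩,⟨1,[(25,1),(10,0),(13,0)]⟩⟩]⟩)))))) (.I [0,0,-2,-2,1,0,0,1] (.R ⟨0,false,
  false,false,[0,-1,1],[1,-1,-1],[],(⟨0,[(19,0)]⟩,⟨34,[(1,0),(11,1),(3,1),(9,1),(1,34),(4,13),(4,6),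
  (0,2)]⟩),(⟨0,[(18,0)]⟩,⟨34,[(1,0),(11,1),(3,1),(9,1),(2,34),(3,13),(4,6),(0,2)]⟩),⟨2,[(3,1),(25,
  0),(1,0),(7,2)]⟩,.k,.k,(.r (-1) ⟨0,[(0,0)]⟩ ⟨2,[(2,0),(4,2),(5,2),(3,0),(9,0)]⟩),.k,.k,.k,⟨false,
  0,⟨1,[(1,0),(2,0),(19,0),(20,0)]⟩,⟨3,[(5,1),(7,1),(13,1),(4,0),(13,1),(0,0)]⟩⟩,⟨true,(-1),⟨14,[(0,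
  3),(3,15),(0,3),(11,0),(6,7),(15,0),(6,1)]⟩,⟨1,[(27,3),(4,0),(13,0)]⟩⟩,⟨true,0,⟨1,[(7,0),(4,1),
  (34,0)]⟩,⟨0,[(14,0)]⟩⟩,⟨false,0,⟨1,[(10,3),(21,0),(14,2)]⟩,⟨0,[(1,0)]⟩⟩,⟨false,0,⟨0,[]⟩,⟨0,[]⟩⟩,
  ⟨false,0,⟨0,[]⟩,⟨0,[]⟩⟩,[.o ⟨false,0,⟨1,[(5,0),(4,0),(21,0),(14,0)]⟩,⟨7,[(1,4),(5,0),(5,1),(3,0),
  (14,1),(12,5)]⟩⟩,.a ⟨true,0,⟨1,[(5,0),(4,0),(36,1)]⟩,⟨0,[(25,0),(19,0)]⟩⟩ ⟨false,1,⟨1,[(46,0),(0,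
  0)]⟩,⟨0,[(49,0)]⟩⟩ ⟨true,0,⟨0,[(4,0),(0,0),(40,0),(0,0)]⟩,⟨1,[(1,0),(0,0),(4,0),(19,0),(14,0)]⟩⟩,
  .e ⟨false,1,⟨17,[(1,2),(0,1),(10,5),(3,4),(9,1),(19,8)]⟩,⟨0,[]⟩⟩ ⟨false,0,⟨0,[(4,0),(0,0),(40,0),
  (0,0)]⟩,⟨17,[(1,14),(0,3),(4,8),(5,11),(3,0),(9,3)]⟩⟩,.o ⟨false,0,⟨0,[(2,0)]⟩,⟨1,[(24,1),(7,0),
  (13,0)]⟩⟩]⟩) (.R ⟨1,true,false,false,[0,0,1],[1,0,-1],[1,1,0,-1,0,0,0,1],(⟨0,[(30,0)]⟩,⟨0,[(29,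
  0)]⟩),(⟨0,[(29,0)]⟩,⟨0,[(30,0)]⟩),⟨0,[(19,0)]⟩,.k,.k,.k,.k,(.r (-1) ⟨1,[(1,0),(12,1),(2,0),(29,
  0)]⟩ ⟨3,[(0,3),(4,1),(7,1),(13,1),(4,0),(13,1),(0,0)]⟩),.k,⟨false,0,⟨15,[(1,3),(2,5),(9,21),(0,1),
  (8,1),(15,0),(6,2)]⟩,⟨3,[(0,3),(4,1),(7,1),(13,1),(4,0),(13,3),(0,2)]⟩⟩,⟨true,(-1),⟨2,[(4,2),(0,
  0),(8,0),(9,1),(22,0)]⟩,⟨1,[(27,3),(4,0),(13,0)]⟩⟩,⟨true,0,⟨0,[(44,0)]⟩,⟨0,[(45,0)]⟩⟩,⟨false,0,⟨1,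
  [(10,3),(21,0),(14,2)]⟩,⟨0,[(1,0)]⟩⟩,⟨false,0,⟨0,[]⟩,⟨17,[(1,2),(0,1),(10,5),(3,4),(9,1),(19,
  8)]⟩⟩,⟨true,(-1),⟨1,[(0,1),(3,1),(0,1),(40,2),(0,0)]⟩,⟨0,[(1,0),(42,0)]⟩⟩,[]⟩))))))) (.S ⟨1,0,[0,
  0,-1,-1],[1,-1],[1,1,1],(⟨0,[(27,0)]⟩,⟨0,[(28,0)]⟩),⟨0,[(12,0),(0,0)]⟩,.k,(.x 1 ⟨14,[(1,10),(0,3),
  (0,3),(6,4),(14,2),(5,7),(1,8)]⟩ ⟨0,[(26,0),(0,1),(12,0)]⟩),⟨true,(-1),⟨0,[(1,0),(36,0)]⟩,⟨0,[(0,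
  0)]⟩⟩,⟨false,1,⟨1,[(7,0),(1,0),(31,0)]⟩,⟨0,[]⟩⟩,⟨false,(-1),⟨0,[(1,0)]⟩,⟨13,[(0,11),(2,3),(3,3),
  (2,3),(0,1),(14,2),(14,8)]⟩⟩,⟨true,0,⟨0,[(39,0)]⟩,⟨0,[(38,0)]⟩⟩,[.e ⟨false,0,⟨0,[(43,0)]⟩,⟨1,[(40,
  0),(0,0)]⟩⟩ ⟨false,1,⟨0,[(0,0)]⟩,⟨1,[(1,0),(5,0),(1,0)]⟩⟩,.o ⟨false,1,⟨7,[(3,1),(3,1),(2,1),(11,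
  1),(3,0),(14,4)]⟩,⟨1,[(1,0),(24,0),(5,1)]⟩⟩,.o ⟨false,0,⟨1,[(21,0),(0,0)]⟩,⟨1,[(26,0),(13,0)]⟩⟩,
  .a ⟨true,(-1),⟨0,[(1,0),(8,0)]⟩,⟨0,[(40,0)]⟩⟩ ⟨false,0,⟨0,[]⟩,⟨1,[(7,0),(1,0),(31,0)]⟩⟩ ⟨true,1,
  ⟨0,[(0,0)]⟩,⟨0,[(1,0),(36,0)]⟩⟩]⟩))) (.R ⟨2,true,false,true,[0,1],[1,0,-1],[1,1,1],(⟨0,[]⟩,⟨0,
  []⟩),(⟨0,[(21,0)]⟩,⟨0,[(22,0)]⟩),⟨0,[]⟩,.k,.k,.k,.k,.k,.k,⟨false,0,⟨0,[(6,0),(22,0),(7,0)]⟩,⟨0,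
  [(5,0)]⟩⟩,⟨true,(-1),⟨0,[(3,0),(2,0),(22,1)]⟩,⟨1,[(19,1),(4,0),(13,0)]⟩⟩,⟨true,0,⟨0,[(36,0)]⟩,⟨0,
  [(37,0)]⟩⟩,⟨false,0,⟨1,[(2,0),(5,0),(9,0),(20,0)]⟩,⟨0,[(0,0)]⟩⟩,⟨false,0,⟨0,[]⟩,⟨1,[(5,0),(1,0),
  (31,0)]⟩⟩,⟨true,(-1),⟨0,[(2,0)]⟩,⟨3,[(0,1),(0,0),(3,0),(1,0),(9,0),(6,0)]⟩⟩,[]⟩))) (.R ⟨2,true,
  false,true,[0,1],[1,1,-1],[1,1,1],(⟨0,[]⟩,⟨0,[]⟩),(⟨37,[(3,1),(3,1),(7,1),(1,1),(1,37),(4,13),(4,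
  7),(0,2),(6,0)]⟩,⟨0,[(9,0)]⟩),⟨0,[]⟩,.k,.k,.k,.k,.k,.k,⟨true,0,⟨0,[(4,0),(22,0)]⟩,⟨0,[(2,0),(24,
  0),(7,0)]⟩⟩,⟨false,0,⟨0,[(14,0)]⟩,⟨0,[(0,0),(1,0)]⟩⟩,⟨true,0,⟨0,[(34,0)]⟩,⟨0,[(35,0)]⟩⟩,⟨false,0,
  ⟨3,[(1,1),(0,1),(3,0),(0,0),(29,1)]⟩,⟨0,[(0,0)]⟩⟩,⟨false,0,⟨0,[]⟩,⟨1,[(3,0),(1,0),(31,0)]⟩⟩,⟨true,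
  (-1),⟨0,[(1,0)]⟩,⟨0,[(0,0),(33,0)]⟩⟩,[]⟩))

theorem ok14 : chk K t14 r5 = true := by decide +kernel

noncomputable def t16 : Tre :=
  (.S ⟨1,0,[0,0,0,0,0,0,0,1],[0,0,1],[0,1,0,0,0,0,0,1],(⟨0,[(18,0)]⟩,⟨0,[(17,0)]⟩),⟨0,[(7,0)]⟩,.k,
  .k,⟨true,0,⟨0,[(37,0)]⟩,⟨0,[]⟩⟩,⟨false,1,⟨1,[(1,0),(1,0),(31,0)]⟩,⟨0,[]⟩⟩,⟨false,0,⟨0,[(33,0)]⟩,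
  ⟨3,[(1,0),(1,0),(0,1),(15,0),(14,1)]⟩⟩,⟨true,0,⟨0,[(33,0)]⟩,⟨0,[(32,0)]⟩⟩,[.e ⟨false,0,⟨0,[(2,0),
  (30,0)]⟩,⟨0,[(1,0),(23,0)]⟩⟩ ⟨false,0,⟨0,[(0,0),(25,0)]⟩,⟨1,[(1,1),(13,0),(0,0)]⟩⟩,.o ⟨false,1,⟨1,
  [(0,1),(14,1),(4,0),(13,0)]⟩,⟨0,[(14,0)]⟩⟩,.o ⟨false,1,⟨1,[(15,1),(4,0),(13,0)]⟩,⟨0,[(0,0),(13,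
  0)]⟩⟩,.a ⟨true,0,⟨0,[(15,0)]⟩,⟨0,[(12,0)]⟩⟩ ⟨false,0,⟨0,[(0,0),(25,0)]⟩,⟨0,[(14,0),(0,0),(19,
  0)]⟩⟩ ⟨true,0,⟨0,[(0,0),(25,0)]⟩,⟨0,[(14,0),(0,0)]⟩⟩]⟩)

theorem ok16 : chk K t16 r4 = true := by decide +kernel

noncomputable def t18 : Tre :=
  (.R ⟨2,true,false,false,[0,1],[0,1,1],[0,0,1,1],(⟨0,[]⟩,⟨0,[]⟩),(⟨10,[(8,0),(0,0),(8,10),(3,4),(4,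
  1),(0,0)]⟩,⟨0,[(6,0)]⟩),⟨0,[]⟩,.k,.k,.k,.k,.k,.k,⟨true,1,⟨1,[(14,1),(0,1),(18,0),(0,0)]⟩,⟨0,[(1,
  0)]⟩⟩,⟨false,1,⟨0,[(15,0),(18,0)]⟩,⟨2,[(1,0),(10,1),(1,0),(5,0),(4,0)]⟩⟩,⟨false,1,⟨1,[(8,0),(0,0),
  (25,0)]⟩,⟨0,[]⟩⟩,⟨true,0,⟨1,[(0,0),(1,0),(12,0)]⟩,⟨0,[(14,0)]⟩⟩,⟨true,0,⟨0,[(33,0)]⟩,⟨0,[(32,
  0)]⟩⟩,⟨false,0,⟨0,[(0,0)]⟩,⟨3,[(4,1),(3,0),(0,0),(4,3),(5,0),(14,1)]⟩⟩,[]⟩)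

theorem ok18 : chk K t18 l12 = true := by decide +kernel

noncomputable def t19 : Tre :=
  (.R ⟨0,false,false,true,[1,-1,-1],[1,-1],[],(⟨0,[(8,0)]⟩,⟨6,[(0,1),(9,0),(0,0),(8,4),(3,2),(5,
  0)]⟩),(⟨0,[(23,0)]⟩,⟨0,[(24,0)]⟩),⟨0,[(0,0)]⟩,.k,.k,(.r (-2) ⟨0,[(1,0),(0,0),(33,0)]⟩ ⟨1,[(3,1),
  (13,0),(0,0),(16,3)]⟩),.k,.k,.k,⟨true,0,⟨0,[(27,0),(7,0)]⟩,⟨0,[(34,0)]⟩⟩,⟨false,1,⟨0,[(17,0),(18,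
  0)]⟩,⟨2,[(3,0),(10,1),(1,0),(5,0),(4,0)]⟩⟩,⟨true,(-1),⟨0,[(3,0),(31,0)]⟩,⟨0,[(2,0),(14,0),(18,
  0)]⟩⟩,⟨false,0,⟨0,[(3,0),(13,0),(18,0)]⟩,⟨0,[(16,0),(20,0)]⟩⟩,⟨false,0,⟨0,[]⟩,⟨0,[]⟩⟩,⟨false,0,⟨0,
  []⟩,⟨0,[]⟩⟩,[.o ⟨false,0,⟨0,[(34,0)]⟩,⟨1,[(22,0),(12,1),(1,0)]⟩⟩,.a ⟨true,0,⟨27,[(1,5),(4,10),(0,
  2),(13,1),(1,1),(6,5),(8,5)]⟩,⟨0,[(35,0)]⟩⟩ ⟨false,1,⟨1,[(36,0),(0,0)]⟩,⟨0,[(39,0)]⟩⟩ ⟨true,1,⟨0,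
  [(1,0),(26,0)]⟩,⟨0,[(3,0),(12,0),(10,0),(7,0)]⟩⟩,.e ⟨false,1,⟨1,[(10,0),(0,0),(25,0)]⟩,⟨0,[]⟩⟩
  ⟨false,1,⟨0,[(1,0),(26,0)]⟩,⟨2,[(3,0),(10,1),(1,0),(5,0),(4,3),(7,2)]⟩⟩,.o ⟨false,(-1),⟨0,[(3,0),
  (12,0),(10,0)]⟩,⟨1,[(17,1),(4,0),(13,2)]⟩⟩]⟩)

theorem ok19 : chk K t19 l14 = true := by decide +kernel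

noncomputable def t20 : Tre :=
  (.S ⟨1,0,[0,0,0,0,0,0,0,1],[0,0,1],[],(⟨0,[(21,0)]⟩,⟨0,[(20,0)]⟩),⟨0,[(10,0)]⟩,.k,.k,⟨true,1,⟨0,
  [(0,0),(34,0)]⟩,⟨0,[(4,0),(24,0)]⟩⟩,⟨false,1,⟨13,[(0,3),(1,3),(3,3),(1,1),(14,0),(13,1),(0,2)]⟩,
  ⟨0,[]⟩⟩,⟨false,1,⟨0,[(0,0)]⟩,⟨7,[(4,2),(0,3),(0,0),(0,1),(15,0),(14,1)]⟩⟩,⟨true,0,⟨0,[(36,0)]⟩,⟨0,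
  [(35,0)]⟩⟩,[.e ⟨false,1,⟨8,[(0,1),(1,1),(5,1),(7,1),(6,0),(9,0),(3,3)]⟩,⟨0,[]⟩⟩ ⟨false,0,⟨0,[(4,
  0),(32,0)]⟩,⟨0,[(0,0),(34,0)]⟩⟩,.o ⟨false,1,⟨1,[(4,1),(13,1),(4,0),(13,1),(0,0)]⟩,⟨0,[(17,0)]⟩⟩,
  .o ⟨false,1,⟨1,[(18,1),(4,0),(13,0)]⟩,⟨2,[(4,0),(10,1),(1,0),(5,0),(4,0)]⟩⟩,.a ⟨true,0,⟨0,[(18,
  0)]⟩,⟨0,[(15,0)]⟩⟩ ⟨false,1,⟨1,[(37,0),(0,0)]⟩,⟨1,[(18,0),(0,0)]⟩⟩ ⟨true,0,⟨0,[(4,0),(32,0)]⟩,⟨0,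
  [(17,0),(0,0)]⟩⟩]⟩)

theorem ok20 : chk K t20 l15 = true := by decide +kernel

noncomputable def t21 : Tre :=
  (.R ⟨1,false,false,false,[1,0,-1],[1,-1],[0,0,0,0,0,0,0,-1],(⟨0,[(21,0)]⟩,⟨0,[(22,0)]⟩),(⟨0,[(25,
  0)]⟩,⟨0,[(26,0)]⟩),⟨0,[(10,0)]⟩,.k,.k,.k,.k,.k,.k,⟨false,1,⟨1,[(18,1),(0,1),(17,1),(0,0),(0,0)]⟩,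
  ⟨1,[(1,1),(36,0),(0,0)]⟩⟩,⟨true,0,⟨0,[(19,0)]⟩,⟨2,[(5,0),(10,1),(1,0),(5,0),(4,0)]⟩⟩,⟨false,1,⟨1,
  [(12,0),(0,0),(25,0)]⟩,⟨0,[]⟩⟩,⟨true,0,⟨1,[(1,0),(1,0),(1,0),(13,0),(18,0)]⟩,⟨0,[(18,0),(18,0)]⟩⟩,
  ⟨true,0,⟨0,[(37,0)]⟩,⟨0,[(36,0)]⟩⟩,⟨true,0,⟨0,[(5,0),(13,0),(18,0)]⟩,⟨0,[(18,0)]⟩⟩,[.a ⟨true,0,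
  ⟨27,[(3,5),(4,10),(0,2),(13,1),(1,1),(6,5),(8,5)]⟩,⟨0,[(37,0)]⟩⟩ ⟨true,1,⟨1,[(18,1),(0,1),(18,0),
  (0,0)]⟩,⟨0,[(5,0)]⟩⟩ ⟨false,1,⟨0,[(3,0),(26,0)]⟩,⟨2,[(5,0),(10,1),(1,0),(5,0),(4,0),(7,2)]⟩⟩,.a
  ⟨true,0,⟨0,[(0,0)]⟩,⟨0,[(37,0),(3,0)]⟩⟩ ⟨false,2,⟨0,[(18,0),(0,0),(18,0),(0,0)]⟩,⟨0,[(1,0),(35,
  0)]⟩⟩ ⟨true,1,⟨0,[(3,0)]⟩,⟨0,[(5,0),(12,0),(18,0)]⟩⟩,.o ⟨false,0,⟨2,[(5,0),(10,1),(1,0),(5,0),(4,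
  0)]⟩,⟨1,[(19,1),(4,0),(13,0)]⟩⟩,.a ⟨true,(-1),⟨5,[(0,2),(4,4),(10,0),(1,4),(10,1),(2,0),(4,2)]⟩,
  ⟨0,[(19,0),(18,0)]⟩⟩ ⟨false,2,⟨0,[(18,0),(0,0),(18,0),(0,0)]⟩,⟨0,[(5,0)]⟩⟩ ⟨true,1,⟨0,[(3,0),(26,
  0)]⟩,⟨0,[(5,0),(12,0),(18,0)]⟩⟩]⟩)

theorem ok21 : chk K t21 l16 = true := by decide +kernel

noncomputable def t22 : Tre :=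
  (.S ⟨1,0,[0,0,-1,-1],[1,-1],[0,1,-1,-1],(⟨0,[(26,0)]⟩,⟨0,[(27,0)]⟩),⟨1,[(3,0),(8,0),(13,0)]⟩,.k,
  (.x 1 ⟨6,[(1,4),(0,1),(2,2),(0,0),(13,2),(3,4),(5,9),(1,2),(0,3)]⟩ ⟨2,[(3,1),(8,1),(0,1),(0,1),
  (10,0),(13,2)]⟩),⟨true,0,⟨0,[(42,0)]⟩,⟨0,[]⟩⟩,⟨false,1,⟨1,[(13,0),(0,0),(25,0)]⟩,⟨0,[]⟩⟩,⟨false,0,
  ⟨0,[(38,0)]⟩,⟨3,[(4,1),(4,0),(0,0),(14,0),(14,0)]⟩⟩,⟨true,0,⟨0,[(38,0)]⟩,⟨0,[(37,0)]⟩⟩,[.e ⟨false,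
  1,⟨16,[(0,11),(3,3),(5,1),(14,0),(9,9),(1,0)]⟩,⟨0,[(30,0),(7,0)]⟩⟩ ⟨false,1,⟨0,[(0,0)]⟩,⟨1,[(20,
  0),(0,0),(16,1)]⟩⟩,.o ⟨false,1,⟨3,[(4,1),(4,0),(0,0),(14,0),(14,0)]⟩,⟨0,[(1,0)]⟩⟩,.o ⟨false,0,⟨1,
  [(20,0),(0,0)]⟩,⟨1,[(25,0),(13,0)]⟩⟩,.a ⟨true,(-1),⟨14,[(3,0),(2,7),(5,0),(6,7),(0,7),(3,2),(5,7),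
  (2,6),(7,5)]⟩,⟨0,[(39,0)]⟩⟩ ⟨false,1,⟨0,[(0,0)]⟩,⟨1,[(20,0),(0,0),(8,1),(7,1)]⟩⟩ ⟨true,1,⟨0,[(0,
  0)]⟩,⟨4,[(1,3),(4,2),(12,2),(0,3),(0,0),(8,1),(2,1),(4,0)]⟩⟩]⟩)

theorem ok22 : chk K t22 l17 = true := by decide +kernel

noncomputable def t23 : Tre :=
  (.Q [0,0,0,-1,0,0,-1,-1,0,1,-1] (.p false [0,0,1] [1] (⟨0,[(24,0)]⟩,⟨0,[(23,0)]⟩) .k 1 (⟨0,[]⟩,⟨0,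
  []⟩) .k .k) (.R ⟨1,true,false,false,[1,0,-1],[0,1],[1,1,0,-1,0,0,0,-1],(⟨0,[(24,0)]⟩,⟨0,[(25,
  0)]⟩),(⟨0,[(29,0)]⟩,⟨0,[(28,0)]⟩),⟨0,[(13,0)]⟩,.k,.k,.k,.k,(.r (-2) ⟨0,[(6,0),(0,0),(33,0)]⟩ ⟨23,
  [(1,13),(0,19),(5,0),(1,8),(1,5),(6,1),(15,2)]⟩),.k,⟨true,1,⟨0,[(6,0),(0,0),(25,0)]⟩,⟨1,[(1,0),(0,
  1),(5,0),(10,0),(22,0)]⟩⟩,⟨false,2,⟨1,[(22,1),(4,0),(13,2)]⟩,⟨1,[(0,0),(1,0),(5,0),(10,0)]⟩⟩,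
  ⟨true,0,⟨0,[(39,0)]⟩,⟨0,[(40,0)]⟩⟩,⟨false,1,⟨3,[(1,1),(18,1),(6,0),(14,2)]⟩,⟨0,[(0,0)]⟩⟩,⟨false,0,
  ⟨0,[]⟩,⟨1,[(15,0),(0,0),(25,0)]⟩⟩,⟨true,0,⟨0,[(1,0)]⟩,⟨0,[(0,0),(38,0)]⟩⟩,[]⟩) (.I [0,0,0,0,1,0,0,
  0,-1] (.I [1,0,1,0,0,1,1] (.I [1,0,0,0,0,3,0,0,1] (.I [0,1,1,-1,0,0,0,-1] (.I [0,0,0,-2,1,0,0,-1]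
  (.I [1,-1,0,-1,1,1,1] (.I [0,0,0,1,0,-2,1,1] (.I [0,1,0,-1,0,-1,-1,-1] (.C [(0,0),(0,0),(6,0),(6,
  0),(23,0),(2,0),(0,0)]) (.C [(0,0),(14,0),(6,0)])) (.C [(0,0),(6,0),(4,0)])) (.C [(0,0),(10,0),(0,
  0),(27,0)])) (.C [(0,0),(10,0),(0,0)])) (.C [(0,0),(10,0),(14,0)])) (.C [(0,0),(18,0),(0,0),(16,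
  0)])) (.C [(0,0),(6,0),(16,0),(11,0)])) (.C [(0,0),(15,0),(2,0)])))

theorem ok23 : chk K t23 l18 = true := by decide +kernel

noncomputable def t24 : Tre :=
  (.R ⟨2,true,false,true,[0,1],[0,0,0,0,1],[0,0,1,1],(⟨0,[]⟩,⟨0,[]⟩),(⟨0,[(19,0)]⟩,⟨0,[(18,0)]⟩),⟨0,
  []⟩,.k,.k,.k,(.r 0 ⟨2,[(1,0),(11,0),(9,0),(17,2)]⟩ ⟨11,[(7,5),(0,1),(1,1),(2,1),(14,0),(11,1),(1,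
  4)]⟩),.k,.k,⟨true,0,⟨1,[(3,0),(28,0),(8,0)]⟩,⟨0,[(40,0)]⟩⟩,⟨false,0,⟨0,[(17,0)]⟩,⟨11,[(0,7),(1,1),
  (4,1),(2,1),(5,3),(11,0),(13,4)]⟩⟩,⟨false,1,⟨1,[(16,0),(0,0),(25,0)]⟩,⟨0,[]⟩⟩,⟨true,0,⟨0,[(17,0),
  (22,0)]⟩,⟨0,[(0,0)]⟩⟩,⟨true,0,⟨0,[(41,0)]⟩,⟨0,[(40,0)]⟩⟩,⟨false,0,⟨0,[(17,0)]⟩,⟨13,[(0,7),(1,1),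
  (2,1),(1,1),(8,5),(11,0),(14,6)]⟩⟩,[]⟩)

theorem ok24 : chk K t24 l20 = true := by decide +kernel

noncomputable def t25 : Tre :=
  (.R ⟨2,true,false,false,[0,1],[0,0,0,0,1],[1,1,1],(⟨0,[]⟩,⟨0,[]⟩),(⟨0,[(20,0)]⟩,⟨0,[(19,0)]⟩),⟨0,
  []⟩,.k,.k,.k,(.r 0 ⟨2,[(2,0),(11,0),(9,0),(17,2)]⟩ ⟨11,[(1,3),(1,1),(4,1),(2,1),(5,3),(11,0),(13,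
  4)]⟩),.k,.k,⟨false,0,⟨0,[(46,0)]⟩,⟨1,[(43,0),(0,0)]⟩⟩,⟨true,(-1),⟨3,[(0,2),(0,0),(2,0),(40,1)]⟩,
  ⟨0,[(17,0)]⟩⟩,⟨true,0,⟨0,[(41,0)]⟩,⟨0,[(42,0)]⟩⟩,⟨false,0,⟨13,[(0,7),(0,5),(1,1),(2,1),(1,1),(20,
  0),(14,6)]⟩,⟨0,[(17,0),(24,0)]⟩⟩,⟨false,0,⟨0,[]⟩,⟨1,[(17,0),(0,0),(25,0)]⟩⟩,⟨true,(-1),⟨0,[(0,
  0)]⟩,⟨0,[(17,0),(28,0)]⟩⟩,[]⟩)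

theorem ok25 : chk K t25 l21 = true := by decide +kernel

noncomputable def t26 : Tre :=
  (.I [0,0,2,0,-1,2,0,0,2] (.Q [0,-1,0,2,0,0,1,1,0,0,1] (.p true [0,0,1] [] (⟨0,[(28,0)]⟩,⟨0,[(27,
  0)]⟩) .k 0 (⟨0,[]⟩,⟨0,[]⟩) .k .k) (.S ⟨1,3,[],[1,-1,-1],[0,0,-1,-1,0,0,0,-1],(⟨0,[(17,0)]⟩,⟨10,
  [(19,0),(0,0),(8,10),(3,4),(4,1),(0,0)]⟩),⟨0,[(9,0)]⟩,.k,(.r (-2) ⟨0,[(10,0),(0,0),(33,0)]⟩ ⟨19,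
  [(0,8),(5,15),(0,5),(4,3),(1,3),(1,5),(7,2)]⟩),⟨false,1,⟨1,[(19,0),(0,0),(25,0)]⟩,⟨0,[]⟩⟩,⟨true,0,
  ⟨1,[(0,0),(23,0)]⟩,⟨0,[(11,0)]⟩⟩,⟨true,0,⟨0,[(44,0)]⟩,⟨0,[(43,0)]⟩⟩,⟨false,0,⟨0,[(0,0)]⟩,⟨2,[(5,
  0),(4,1),(0,1),(4,0),(14,0)]⟩⟩,[.fa ⟨false,2,⟨0,[(10,0),(14,0),(19,0)]⟩,⟨3,[(0,0),(5,0),(0,0),(4,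
  2),(10,0)]⟩⟩ ⟨true,1,⟨0,[(26,0),(18,0)]⟩,⟨4,[(6,2),(4,2),(0,2),(10,1),(7,0),(4,2)]⟩⟩,.a ⟨true,0,
  ⟨0,[(0,0),(4,0)]⟩,⟨0,[(48,0)]⟩⟩ ⟨true,2,⟨1,[(10,1),(14,1),(19,0),(0,0)]⟩,⟨10,[(0,1),(5,11),(0,3),
  (0,8),(14,1),(15,0)]⟩⟩ ⟨false,2,⟨1,[(26,1),(18,2),(0,0)]⟩,⟨0,[(12,0),(12,0)]⟩⟩,.a ⟨true,(-1),⟨2,
  [(5,0),(0,1),(5,0),(10,1)]⟩,⟨0,[(26,0),(18,0)]⟩⟩ ⟨false,2,⟨1,[(10,1),(14,1),(19,0),(0,0)]⟩,⟨3,[(0,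
  0),(5,0),(0,0),(4,2),(10,0)]⟩⟩ ⟨true,1,⟨0,[(26,0),(18,0)]⟩,⟨0,[(12,0),(12,0)]⟩⟩,.o ⟨false,(-1),⟨4,
  [(6,2),(4,2),(0,2),(10,1),(7,0),(4,2)]⟩,⟨1,[(26,1),(4,0),(13,2)]⟩⟩]⟩) (.I [1,0,3,3,-1,0,0,-1] (.I
  [1,0,-3,-3,1,0,0,1] (.N [0,-3,1] (-1) ⟨0,[(0,0)]⟩ ⟨0,[(1,0)]⟩ (.x 1 ⟨11,[(7,2),(0,8),(1,2),(0,6),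
  (16,14),(1,4),(1,4),(5,2),(1,14)]⟩ ⟨2,[(11,1),(6,0),(1,4),(4,0),(7,1),(13,3)]⟩)) (.Q [0,0,0,0,0,0,
  2,2,0,-1,2] (.p true [0,0,1] [1,0,-1] (⟨0,[(31,0)]⟩,⟨0,[(30,0)]⟩) .k 2 (⟨0,[(30,0)]⟩,⟨0,[(31,
  0)]⟩) .k (.r 1 ⟨0,[(14,1),(32,0)]⟩ ⟨3,[(0,1),(11,5),(8,0),(0,0),(4,5),(19,2)]⟩)) (.Q [0,0,0,1,0,0,
  -2,-2,0,1,-2] (.p false [0,0,1] [1,0,-1] (⟨0,[(32,0)]⟩,⟨0,[(31,0)]⟩) .k 2 (⟨0,[(31,0)]⟩,⟨0,[(32,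
  0)]⟩) .k (.r 1 ⟨0,[(15,1),(32,0)]⟩ ⟨3,[(1,1),(11,5),(8,0),(0,0),(4,5),(19,2)]⟩)) (.R ⟨1,true,
  false,false,[0,0,1],[1,0,-1],[1,1,0,-1,0,0,0,1],(⟨0,[(33,0)]⟩,⟨0,[(32,0)]⟩),(⟨0,[(32,0)]⟩,⟨0,[(33,
  0)]⟩),⟨0,[(22,0)]⟩,.k,.k,.k,.k,(.r 0 ⟨5,[(1,2),(10,3),(4,1),(2,0),(6,3),(7,0),(14,2)]⟩ ⟨1,[(0,1),
  (29,3),(4,0),(13,0)]⟩),.k,⟨false,(-1),⟨0,[(12,0),(3,0),(32,0)]⟩,⟨27,[(0,19),(1,15),(11,39),(8,0),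
  (0,0),(10,9),(9,5),(3,20)]⟩⟩,⟨true,(-1),⟨1,[(0,1),(11,1),(3,1),(32,0),(0,0)]⟩,⟨1,[(30,3),(4,0),
  (13,0)]⟩⟩,⟨true,0,⟨0,[(47,0)]⟩,⟨0,[(48,0)]⟩⟩,⟨false,1,⟨25,[(0,23),(8,3),(4,15),(5,7),(14,4),(14,
  4)]⟩,⟨0,[(1,0)]⟩⟩,⟨false,0,⟨0,[]⟩,⟨1,[(23,0),(0,0),(25,0)]⟩⟩,⟨true,0,⟨0,[(0,0)]⟩,⟨0,[(1,0),(45,
  0)]⟩⟩,[]⟩) (.Q [0,0,0,2,0,0,-2,-2,0,1,-2] (.p false [0,0,1] [1,0,-1] (⟨0,[(33,0)]⟩,⟨0,[(32,0)]⟩)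
  .k 2 (⟨0,[(32,0)]⟩,⟨0,[(33,0)]⟩) .k (.r 1 ⟨0,[(16,1),(32,0)]⟩ ⟨3,[(2,1),(11,5),(8,0),(0,0),(4,5),
  (19,2)]⟩)) (.R ⟨1,true,false,false,[0,0,1],[1,1,-1],[1,1,0,-1,0,0,0,1],(⟨0,[(34,0)]⟩,⟨0,[(33,
  0)]⟩),(⟨29,[(0,0),(14,1),(5,0),(7,1),(3,29),(4,11),(4,5),(0,1)]⟩,⟨0,[(23,0)]⟩),⟨0,[(23,0)]⟩,.k,.k,
  .k,(.r 0 ⟨9,[(1,7),(11,1),(3,1),(3,1),(6,11),(7,2),(14,0)]⟩ ⟨0,[(3,0),(11,0),(0,0),(33,0)]⟩),(.r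
  0 ⟨0,[(13,1),(36,0),(0,0)]⟩ ⟨28,[(0,17),(2,21),(4,11),(0,3),(5,31),(8,11),(11,6),(9,15)]⟩),.k,
  ⟨true,(-1),⟨1,[(13,3),(36,0),(0,0)]⟩,⟨28,[(0,18),(2,19),(4,2),(0,0),(5,36),(8,2),(11,8),(9,3)]⟩⟩,
  ⟨false,0,⟨0,[(0,0),(12,1),(36,0),(0,0)]⟩,⟨1,[(31,3),(4,0),(13,0)]⟩⟩,⟨true,0,⟨0,[(48,0)]⟩,⟨0,[(49,
  0)]⟩⟩,⟨false,1,⟨9,[(0,8),(14,5),(0,1),(4,2),(14,0),(14,2)]⟩,⟨0,[(1,0)]⟩⟩,⟨false,0,⟨0,[]⟩,⟨1,[(24,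
  0),(0,0),(25,0)]⟩⟩,⟨true,0,⟨0,[(0,0)]⟩,⟨0,[(1,0),(46,0)]⟩⟩,[]⟩) (.Q [0,0,0,0,-1,0,-2,0,0,1,-2]
  (.p false [0,0,1] [1,0,-1] (⟨0,[(34,0)]⟩,⟨0,[(33,0)]⟩) .k 2 (⟨0,[(33,0)]⟩,⟨0,[(34,0)]⟩) .k (.r 1
  ⟨0,[(17,1),(32,0)]⟩ ⟨3,[(3,1),(11,5),(8,0),(0,0),(4,5),(19,2)]⟩)) (.R ⟨0,false,false,true,[0,-1,
  1],[1,-1,-1],[],(⟨0,[(24,0)]⟩,⟨37,[(4,0),(11,2),(5,1),(7,0),(3,37),(4,13),(4,7),(0,2),(1,0),(3,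
  0)]⟩),(⟨0,[(23,0)]⟩,⟨37,[(4,0),(11,2),(5,1),(7,0),(4,37),(3,13),(4,7),(0,2),(1,0),(3,0)]⟩),⟨2,
  [(15,1),(18,0),(1,0),(7,2)]⟩,.k,.k,(.r (-1) ⟨11,[(0,0),(0,2),(9,3),(7,9),(17,0),(13,6),(0,4)]⟩ ⟨7,
  [(4,5),(11,1),(8,2),(0,2),(4,1),(19,0)]⟩),.k,.k,.k,⟨false,0,⟨1,[(0,0),(2,0),(46,1),(1,0)]⟩,⟨0,
  [(17,0),(14,0),(18,0)]⟩⟩,⟨true,(-1),⟨0,[(0,0)]⟩,⟨1,[(32,3),(4,0),(13,0)]⟩⟩,⟨false,1,⟨3,[(4,1),(11,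
  1),(8,0),(0,0),(4,1),(19,0),(0,1)]⟩,⟨1,[(0,0),(0,0),(49,0)]⟩⟩,⟨true,0,⟨4,[(4,1),(6,2),(17,1),(1,
  4),(19,1)]⟩,⟨0,[(3,0)]⟩⟩,⟨false,0,⟨0,[]⟩,⟨0,[]⟩⟩,⟨false,0,⟨0,[]⟩,⟨0,[]⟩⟩,[.o ⟨false,0,⟨0,[(17,
  0)]⟩,⟨11,[(3,6),(0,3),(15,1),(1,0),(14,2),(13,6),(0,5)]⟩⟩,.e ⟨false,1,⟨1,[(51,0),(0,0)]⟩,⟨0,[(54,
  0)]⟩⟩ ⟨false,1,⟨1,[(17,1),(11,1),(21,0),(0,0)]⟩,⟨0,[(1,0),(2,0),(46,0)]⟩⟩,.a ⟨true,0,⟨0,[(32,0)]⟩,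
  ⟨0,[(29,0)]⟩⟩ ⟨false,1,⟨1,[(25,0),(0,0),(25,0)]⟩,⟨0,[]⟩⟩ ⟨true,0,⟨0,[(17,0),(11,0)]⟩,⟨0,[(1,0),(2,
  0),(46,0)]⟩⟩,.o ⟨false,0,⟨0,[(10,0)]⟩,⟨3,[(0,0),(21,0),(14,0),(13,3)]⟩⟩]⟩) (.Q [0,0,0,0,-1,0,-1,0,
  1,0,-1,1] (.p false [0,0,1] [0,0,0,0,1] (⟨0,[(35,0)]⟩,⟨0,[(34,0)]⟩) .k 2 (⟨0,[(28,0)]⟩,⟨0,[(27,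
  0)]⟩) .k (.r 0 ⟨13,[(3,2),(10,3),(5,3),(1,2),(18,1),(8,3),(0,1)]⟩ ⟨7,[(0,0),(3,1),(11,5),(5,0),(8,
  5),(19,2)]⟩)) (.Q [-1,1,0,0,0,0,0,0,-1,1,0,-1] (.p false [0,0,0,0,1] [1] (⟨0,[(29,0)]⟩,⟨0,[(28,
  0)]⟩) .k 1 (⟨0,[]⟩,⟨0,[]⟩) .k .k) (.K ⟨0,[1,0,0,0,-1],0,0,(⟨0,[(29,0)]⟩,⟨0,[(30,0)]⟩),.k,(.r (-1)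
  ⟨36,[(8,2),(9,14),(2,2),(2,5),(18,1),(4,2),(2,12),(1,16)]⟩ ⟨5,[(2,0),(3,1),(15,1),(1,0),(28,0)]⟩),
  (.r 0 ⟨35,[(2,4),(3,11),(15,11),(1,4),(18,0),(9,5),(2,1)]⟩ ⟨25,[(8,3),(2,5),(6,7),(2,3),(2,1),(2,
  5),(11,0),(13,10)]⟩),.k,.k,[⟨0,[(1,0),(0,0)]⟩,⟨0,[(0,0),(43,0)]⟩,⟨0,[(11,0),(3,0)]⟩,⟨0,[(0,
  0)]⟩]⟩) (.R ⟨1,false,false,true,[1,0,-1],[1,0,0,0,-1],[1,1,0,-1,0,0,0,-1],(⟨0,[(36,0)]⟩,⟨0,[(37,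
  0)]⟩),(⟨0,[(29,0)]⟩,⟨0,[(30,0)]⟩),⟨0,[(25,0)]⟩,.k,.k,.k,.k,(.r (-2) ⟨1,[(2,0),(15,1),(5,0),(8,1),
  (19,0)]⟩ ⟨0,[(6,0),(9,1),(26,1),(1,1)]⟩),.k,⟨true,1,⟨0,[(18,0),(14,0)]⟩,⟨0,[(6,0),(9,1),(26,1),(1,
  1)]⟩⟩,⟨false,2,⟨3,[(2,2),(7,0),(13,0),(2,2),(19,0),(5,1)]⟩,⟨0,[(1,0)]⟩⟩,⟨true,0,⟨0,[(51,0)]⟩,⟨0,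
  [(52,0)]⟩⟩,⟨false,1,⟨19,[(5,6),(4,19),(21,5),(5,0),(1,0),(2,2),(3,2)]⟩,⟨4,[(0,2),(0,1),(4,1),(6,
  2),(39,2),(0,0)]⟩⟩,⟨false,0,⟨0,[]⟩,⟨1,[(2,0),(21,0),(29,0)]⟩⟩,⟨false,1,⟨8,[(5,4),(0,2),(3,4),(16,
  3),(3,2),(0,1),(14,0),(5,2),(0,0)]⟩,⟨9,[(0,7),(0,1),(4,1),(6,7),(39,2),(0,0)]⟩⟩,[.o ⟨false,1,⟨0,
  [(27,0),(28,0)]⟩,⟨0,[(0,0)]⟩⟩,.o ⟨false,1,⟨0,[(10,0)]⟩,⟨1,[(0,0),(10,0),(3,0)]⟩⟩,.o ⟨false,0,⟨4,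
  [(14,0),(4,0),(0,0),(10,3),(7,1),(4,0)]⟩,⟨3,[(2,2),(21,0),(14,0)]⟩⟩,.a ⟨true,(-1),⟨2,[(13,0),(0,
  1),(5,0),(10,1)]⟩,⟨23,[(2,13),(3,0),(11,2),(5,3),(7,0),(14,4),(1,0),(3,12)]⟩⟩ ⟨true,1,⟨2,[(2,0),
  (10,0),(4,0),(14,1),(15,0),(3,0)]⟩,⟨0,[(20,0),(31,0)]⟩⟩ ⟨false,2,⟨23,[(2,13),(3,0),(3,23),(7,2),
  (5,3),(7,0),(14,4),(1,0),(3,12)]⟩,⟨0,[(1,0),(42,0)]⟩⟩]⟩)) (.Q [0,0,-1,0,1,0,0,0,-1,0,0,-1] (.p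
  false [0,0,0,0,1] [] (⟨0,[(29,0)]⟩,⟨0,[(28,0)]⟩) .k 0 (⟨0,[]⟩,⟨0,[]⟩) .k .k) (.Q [0,0,-2,0,0,0,-2,
  0,0,1,-2] (.p false [0,0,1] [1,0,-1] (⟨0,[(37,0)]⟩,⟨0,[(36,0)]⟩) .k 2 (⟨0,[(36,0)]⟩,⟨0,[(37,0)]⟩)
  .k (.r 1 ⟨0,[(20,1),(32,0)]⟩ ⟨3,[(2,0),(3,1),(11,5),(5,0),(8,5),(19,2)]⟩)) (.R ⟨0,false,false,
  true,[0,-1,1],[1,0,-1],[],(⟨0,[(27,0)]⟩,⟨25,[(2,1),(22,0),(3,1),(7,25),(4,10),(4,4),(0,1)]⟩),(⟨0,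
  [(37,0)]⟩,⟨0,[(38,0)]⟩),⟨2,[(18,1),(18,0),(1,0),(7,2)]⟩,.k,.k,(.r (-1) ⟨11,[(0,0),(3,2),(9,3),(7,
  9),(17,0),(13,5),(0,4)]⟩ ⟨7,[(3,2),(3,5),(11,1),(5,2),(8,1),(19,0)]⟩),(.r 0 ⟨1,[(0,0),(4,1),(19,
  0)]⟩ ⟨7,[(3,1),(3,5),(6,1),(4,5),(14,7),(19,4),(0,0)]⟩),.k,.k,⟨true,0,⟨3,[(0,0),(5,0),(14,1),(33,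
  1)]⟩,⟨8,[(2,1),(0,0),(3,2),(4,1),(1,0),(5,4),(14,1),(14,1)]⟩⟩,⟨false,0,⟨0,[(0,0)]⟩,⟨20,[(2,5),(0,
  16),(3,1),(4,5),(0,5),(9,1),(1,1),(30,0)]⟩⟩,⟨false,1,⟨3,[(3,0),(3,1),(11,1),(5,0),(8,1),(19,0),(0,
  1)]⟩,⟨1,[(0,0),(3,0)]⟩⟩,⟨true,0,⟨4,[(7,2),(6,1),(17,2),(1,4),(19,2)]⟩,⟨0,[(5,0)]⟩⟩,⟨false,0,⟨0,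
  []⟩,⟨0,[]⟩⟩,⟨false,0,⟨0,[]⟩,⟨0,[]⟩⟩,[.o ⟨false,0,⟨0,[(34,0)]⟩,⟨7,[(3,0),(2,2),(16,1),(16,1),(13,
  0),(0,3)]⟩⟩,.e ⟨false,1,⟨1,[(54,0),(0,0)]⟩,⟨0,[(57,0)]⟩⟩ ⟨false,1,⟨15,[(0,4),(6,3),(6,5),(10,4),
  (8,5),(19,16),(0,2)]⟩,⟨2,[(3,0),(0,0),(0,0),(1,0)]⟩⟩,.a ⟨true,0,⟨0,[(35,0)]⟩,⟨0,[(32,0)]⟩⟩ ⟨false,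
  1,⟨1,[(3,0),(21,0),(29,0)]⟩,⟨0,[]⟩⟩ ⟨true,0,⟨0,[(32,0),(1,0)]⟩,⟨2,[(3,0),(0,0),(0,0),(1,0)]⟩⟩,.o
  ⟨false,0,⟨0,[(13,0)]⟩,⟨3,[(0,0),(24,0),(14,0),(13,2)]⟩⟩]⟩) (.Q [-1,0,0,-1,0,0,0,0,-1,1,0,-1] (.p
  false [0,0,0,0,1] [1] (⟨0,[(31,0)]⟩,⟨0,[(30,0)]⟩) .k 1 (⟨0,[]⟩,⟨0,[]⟩) .k .k) (.Q [0,0,0,0,0,-1,0,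
  0,0,0,0,1] (.ed false [1,-1,0,0,1] .k) (.S ⟨1,0,[1,1],[0,0,0,0,1],[],(⟨0,[(33,0)]⟩,⟨0,[(32,0)]⟩),
  ⟨0,[(0,0)]⟩,.k,(.r (-1) ⟨25,[(11,3),(2,5),(6,7),(2,3),(2,1),(2,5),(11,0),(13,10)]⟩ ⟨35,[(5,4),(3,
  11),(15,11),(1,4),(18,0),(9,5),(2,1)]⟩),⟨false,1,⟨1,[(5,0),(21,0),(18,0)]⟩,⟨0,[]⟩⟩,⟨true,0,⟨0,
  [(59,0)]⟩,⟨0,[]⟩⟩,⟨true,0,⟨1,[(9,0),(9,0),(26,1),(1,2)]⟩,⟨0,[(54,0)]⟩⟩,⟨false,0,⟨0,[(55,0)]⟩,⟨3,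
  [(21,1),(4,0),(0,0),(14,0),(14,0)]⟩⟩,[.e ⟨false,1,⟨1,[(5,0),(21,0),(28,0)]⟩,⟨0,[]⟩⟩ ⟨false,0,⟨0,
  [(48,0)]⟩,⟨1,[(5,0),(21,0),(29,0)]⟩⟩,.a ⟨true,0,⟨0,[(31,0)]⟩,⟨15,[(1,11),(1,3),(5,0),(13,0),(26,
  1),(4,8)]⟩⟩ ⟨false,1,⟨1,[(56,0),(0,0)]⟩,⟨0,[(59,0)]⟩⟩ ⟨true,0,⟨0,[]⟩,⟨1,[(2,0),(24,0)]⟩⟩,.e
  ⟨false,1,⟨1,[(5,0),(21,0),(29,0)]⟩,⟨0,[]⟩⟩ ⟨false,0,⟨0,[]⟩,⟨1,[(5,0),(21,0),(29,0)]⟩⟩,.o ⟨false,0,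
  ⟨7,[(0,3),(8,0),(2,1),(1,2),(8,0),(7,0),(10,3)]⟩,⟨0,[(3,0)]⟩⟩]⟩) (.S ⟨1,0,[-1,1],[1,0,0,0,-1],
  [-1],(⟨0,[(32,0)]⟩,⟨0,[(33,0)]⟩),⟨1,[(0,0),(19,0),(8,0),(2,0)]⟩,.k,(.r (-1) ⟨36,[(11,2),(9,14),(2,
  2),(2,5),(18,1),(4,2),(2,12),(1,16)]⟩ ⟨5,[(5,0),(3,1),(15,1),(1,0),(28,0)]⟩),⟨false,1,⟨1,[(5,0),
  (21,0),(29,0)]⟩,⟨0,[]⟩⟩,⟨true,0,⟨0,[(59,0)]⟩,⟨0,[]⟩⟩,⟨true,0,⟨0,[(55,0)]⟩,⟨0,[(54,0)]⟩⟩,⟨false,0,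
  ⟨0,[(55,0)]⟩,⟨3,[(21,1),(4,0),(0,0),(14,0),(14,0)]⟩⟩,[.o ⟨false,0,⟨0,[(1,0),(16,0)]⟩,⟨1,[(31,1),
  (10,0),(14,0)]⟩⟩,.e ⟨false,1,⟨1,[(46,0),(9,0)]⟩,⟨0,[(59,0)]⟩⟩ ⟨false,1,⟨11,[(5,4),(21,4),(18,0),
  (9,5),(2,1)]⟩,⟨0,[]⟩⟩,.a ⟨true,0,⟨7,[(1,3),(1,3),(5,0),(13,0),(26,1),(4,0)]⟩,⟨0,[(31,0)]⟩⟩ ⟨false,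
  1,⟨1,[(5,0),(21,0),(18,0)]⟩,⟨0,[]⟩⟩ ⟨true,0,⟨0,[(59,0)]⟩,⟨0,[]⟩⟩,.o ⟨false,0,⟨2,[(1,1),(1,0),(13,
  1),(24,0)]⟩,⟨1,[(31,1),(10,0),(13,0)]⟩⟩]⟩)) (.Q [1,-1,0,0,0,0,0,0,1,0,0,1] (.p true [0,0,0,0,1]
  [] (⟨0,[(32,0)]⟩,⟨0,[(31,0)]⟩) .k 0 (⟨0,[]⟩,⟨0,[]⟩) .k .k) (.Q [-1,1,0,1,0,0,0,0,-1,0,0,-1] (.p
  false [0,0,0,0,1] [] (⟨0,[(33,0)]⟩,⟨0,[(32,0)]⟩) .k 0 (⟨0,[]⟩,⟨0,[]⟩) .k .k) (.R ⟨2,true,false,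
  false,[0,1],[0,0,0,0,1],[1,1],(⟨0,[]⟩,⟨0,[]⟩),(⟨0,[(34,0)]⟩,⟨0,[(33,0)]⟩),⟨0,[]⟩,.k,.k,.k,(.r 0
  ⟨35,[(6,4),(3,11),(15,11),(1,4),(18,0),(9,5),(2,1)]⟩ ⟨25,[(12,3),(2,5),(6,7),(2,3),(2,1),(2,5),
  (11,0),(13,10)]⟩),.k,.k,⟨true,0,⟨0,[(60,0)]⟩,⟨0,[(54,0)]⟩⟩,⟨false,0,⟨0,[(32,0)]⟩,⟨0,[(4,0)]⟩⟩,
  ⟨false,1,⟨25,[(12,3),(2,5),(6,7),(2,3),(2,1),(2,5),(11,0),(13,10)]⟩,⟨3,[(10,0),(13,0),(31,0),(1,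
  1)]⟩⟩,⟨true,0,⟨0,[(15,0)]⟩,⟨0,[(0,0)]⟩⟩,⟨true,0,⟨0,[(49,0)]⟩,⟨1,[(3,0),(24,0)]⟩⟩,⟨false,0,⟨0,[(1,
  0)]⟩,⟨0,[(14,0)]⟩⟩,[]⟩) (.I [0,0,-1,0,1,0,0,0,-1] (.I [1,-1,-1,-1,1] (.C [(0,1),(11,0),(9,0),(0,
  0),(8,0),(18,0),(0,0)]) (.C [(0,0),(1,0),(3,0)])) (.C [(0,0),(4,0),(29,0)]))) (.Q [-1,0,0,0,0,0,0,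
  0,-1,1,0,-1] (.p false [0,0,0,0,1] [1] (⟨0,[(33,0)]⟩,⟨0,[(32,0)]⟩) .k 1 (⟨0,[]⟩,⟨0,[]⟩) .k .k)
  (.R ⟨2,true,false,true,[0,1],[1,0,0,0,-1],[0,0,1,1],(⟨0,[]⟩,⟨0,[]⟩),(⟨0,[(33,0)]⟩,⟨0,[(34,0)]⟩),
  ⟨0,[]⟩,.k,.k,.k,(.r 0 ⟨5,[(6,0),(3,1),(15,1),(1,0),(28,0)]⟩ ⟨36,[(12,2),(9,14),(2,2),(2,5),(18,1),
  (4,2),(2,12),(1,16)]⟩),.k,.k,⟨true,0,⟨3,[(10,0),(13,0),(31,0),(1,1)]⟩,⟨0,[(55,0)]⟩⟩,⟨false,0,⟨0,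
  [(0,0)]⟩,⟨1,[(32,1),(10,0),(13,0)]⟩⟩,⟨false,1,⟨1,[(6,0),(21,0),(29,0)]⟩,⟨0,[]⟩⟩,⟨true,0,⟨0,[(0,0),
  (54,0)]⟩,⟨0,[(2,0)]⟩⟩,⟨true,0,⟨0,[(56,0)]⟩,⟨0,[(55,0)]⟩⟩,⟨false,0,⟨0,[(0,0)]⟩,⟨1,[(32,1),(10,0),
  (14,0)]⟩⟩,[]⟩) (.R ⟨1,false,false,true,[1,0,-1],[1,0,0,0,-1],[0,0,0,0,0,0,0,-1],(⟨0,[(40,0)]⟩,⟨0,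
  [(41,0)]⟩),(⟨0,[(33,0)]⟩,⟨0,[(34,0)]⟩),⟨0,[(29,0)]⟩,.k,.k,.k,.k,(.r (-2) ⟨1,[(6,0),(15,1),(5,0),
  (8,1),(19,0)]⟩ ⟨0,[(10,0),(9,1),(26,1),(1,1)]⟩),.k,⟨false,2,⟨7,[(6,0),(3,1),(11,5),(5,0),(8,5),
  (19,6),(0,3)]⟩,⟨0,[(20,0),(35,0)]⟩⟩,⟨true,1,⟨0,[(5,0)]⟩,⟨17,[(0,17),(9,7),(6,6),(2,9),(3,4),(10,
  10),(11,4)]⟩⟩,⟨false,1,⟨1,[(6,0),(21,0),(29,0)]⟩,⟨0,[]⟩⟩,⟨true,0,⟨52,[(1,46),(3,5),(3,21),(16,2),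
  (8,2),(0,5),(5,6),(1,6),(6,5)]⟩,⟨4,[(2,4),(7,0),(6,3),(17,0),(21,0)]⟩⟩,⟨true,0,⟨0,[(56,0)]⟩,⟨0,
  [(55,0)]⟩⟩,⟨true,0,⟨6,[(1,4),(2,1),(4,2),(0,0),(24,0),(0,1),(14,0),(4,3)]⟩,⟨0,[(2,0),(14,0)]⟩⟩,
  [.o ⟨false,0,⟨0,[(1,0)]⟩,⟨1,[(32,1),(10,0),(14,0)]⟩⟩,.o ⟨false,1,⟨0,[(14,0)]⟩,⟨0,[(0,0)]⟩⟩,.o
  ⟨false,0,⟨4,[(18,0),(4,0),(0,0),(10,3),(7,1),(4,0)]⟩,⟨3,[(6,2),(21,0),(14,0)]⟩⟩,.a ⟨true,(-1),⟨2,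
  [(17,0),(0,1),(5,0),(10,1)]⟩,⟨5,[(5,1),(0,1),(25,1),(18,0),(5,2)]⟩⟩ ⟨false,2,⟨7,[(6,0),(3,1),(11,
  5),(5,0),(8,5),(19,6),(0,3)]⟩,⟨0,[(24,0)]⟩⟩ ⟨true,1,⟨41,[(1,21),(3,19),(0,10),(14,0),(8,0),(11,2),
  (8,4),(1,9),(3,15)]⟩,⟨2,[(0,2),(16,0),(0,1),(5,0),(10,1)]⟩⟩]⟩))))) (.K ⟨0,[0,0,0,0,1],(-1),(-1),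
  (⟨0,[(30,0)]⟩,⟨0,[(29,0)]⟩),.k,(.r (-1) ⟨25,[(8,3),(2,5),(6,7),(2,3),(2,1),(2,5),(11,0),(13,10)]⟩
  ⟨35,[(2,4),(3,11),(15,11),(1,4),(18,0),(9,5),(2,1)]⟩),(.r 0 ⟨5,[(2,0),(3,1),(15,1),(1,0),(28,0)]⟩
  ⟨36,[(8,2),(9,14),(2,2),(2,5),(18,1),(4,2),(2,12),(1,16)]⟩),.k,.k,[⟨0,[(1,0)]⟩,⟨0,[(0,0)]⟩,⟨0,
  [(27,0),(28,0)]⟩,⟨0,[(0,0),(44,0)]⟩]⟩)))))) (.Q [0,0,0,1,0,0,2,2,0,-1,2] (.p true [0,0,1] [1,0,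
  -1] (⟨0,[(32,0)]⟩,⟨0,[(31,0)]⟩) .k 2 (⟨0,[(31,0)]⟩,⟨0,[(32,0)]⟩) .k (.r 1 ⟨0,[(15,1),(32,0)]⟩ ⟨7,
  [(0,5),(0,3),(11,11),(8,1),(0,1),(10,2),(9,5),(3,2)]⟩)) (.R ⟨1,true,false,false,[0,0,1],[1,-1,-1],
  [1,1,0,-1,0,0,0,1],(⟨0,[(33,0)]⟩,⟨0,[(32,0)]⟩),(⟨0,[(21,0)]⟩,⟨37,[(2,0),(11,2),(5,1),(7,0),(4,37),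
  (3,13),(4,7),(0,2),(1,0),(3,0)]⟩),⟨0,[(22,0)]⟩,.k,.k,.k,(.r 1 ⟨21,[(0,12),(1,2),(13,20),(3,8),(6,
  7),(7,1)]⟩ ⟨1,[(1,1),(12,1),(15,1),(4,0),(5,1),(7,0)]⟩),.k,.k,⟨true,(-2),⟨0,[(12,0),(3,0),(31,
  0)]⟩,⟨7,[(1,5),(0,3),(11,11),(20,2),(9,1),(3,4)]⟩⟩,⟨false,(-1),⟨0,[(1,0),(14,1),(32,0)]⟩,⟨1,[(30,
  3),(4,0),(13,2)]⟩⟩,⟨true,0,⟨0,[(47,0)]⟩,⟨0,[(48,0)]⟩⟩,⟨false,1,⟨9,[(1,8),(7,1),(4,5),(5,2),(14,1),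
  (14,1)]⟩,⟨0,[(0,0)]⟩⟩,⟨false,0,⟨0,[]⟩,⟨1,[(23,0),(0,0),(25,0)]⟩⟩,⟨true,0,⟨0,[(1,0)]⟩,⟨0,[(0,0),
  (46,0)]⟩⟩,[]⟩) (.Q [0,0,0,2,0,0,2,2,0,-1,2] (.p true [0,0,1] [1,0,-1] (⟨0,[(33,0)]⟩,⟨0,[(32,0)]⟩)
  .k 2 (⟨0,[(32,0)]⟩,⟨0,[(33,0)]⟩) .k (.r 1 ⟨0,[(16,1),(32,0)]⟩ ⟨7,[(1,5),(0,3),(11,11),(8,1),(0,1),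
  (10,2),(9,5),(3,2)]⟩)) (.R ⟨1,true,false,false,[1,0,-1],[0,1,1],[1,1,0,-1,0,0,0,-1],(⟨0,[(33,0)]⟩,
  ⟨0,[(34,0)]⟩),(⟨37,[(3,0),(11,2),(5,1),(7,0),(4,37),(3,13),(4,7),(0,2),(1,0),(3,0)]⟩,⟨0,[(22,
  0)]⟩),⟨0,[(22,0)]⟩,.k,.k,.k,(.r (-2) ⟨1,[(1,1),(29,3),(4,0),(13,2)]⟩ ⟨1,[(0,0),(16,1),(3,0)]⟩),
  (.r (-3) ⟨1,[(2,1),(12,3),(20,0),(9,1),(3,0)]⟩ ⟨0,[(17,1),(31,1)]⟩),.k,⟨false,2,⟨1,[(1,1),(13,1),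
  (15,1),(4,0),(5,3),(7,0)]⟩,⟨1,[(17,3),(31,3),(0,0),(0,0)]⟩⟩,⟨true,2,⟨1,[(31,3),(4,0),(13,2)]⟩,⟨0,
  [(2,0),(14,1)]⟩⟩,⟨true,0,⟨0,[(48,0)]⟩,⟨0,[(49,0)]⟩⟩,⟨false,1,⟨8,[(0,6),(14,3),(2,0),(0,2),(16,0),
  (13,0),(0,2)]⟩,⟨0,[(1,0)]⟩⟩,⟨false,0,⟨0,[]⟩,⟨1,[(24,0),(0,0),(25,0)]⟩⟩,⟨true,0,⟨0,[(0,0)]⟩,⟨0,[(1,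
  0),(46,0)]⟩⟩,[]⟩) (.I [0,0,-3,0,2,-3,-1,0,-1] (.Q [0,0,0,0,0,0,0,0,1,-1,0,1] (.p true [0,0,0,0,1]
  [1] (⟨0,[(28,0)]⟩,⟨0,[(27,0)]⟩) .k 1 (⟨0,[]⟩,⟨0,[]⟩) .k .k) (.Q [0,0,0,0,0,1,0,0,0,-1,0,1] (.ed
  false [0,1,0,0,1] .k) (.Q [-1,1,0,0,0,0,-1,-1,-1,1,-1,-1] (.p false [0,0,1] [1,0,0,0,-1] (⟨0,[(37,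
  0)]⟩,⟨0,[(36,0)]⟩) .k 2 (⟨0,[(29,0)]⟩,⟨0,[(30,0)]⟩) .k (.r 0 ⟨1,[(20,0),(1,0),(30,0)]⟩ ⟨95,[(5,
  35),(0,23),(3,10),(7,71),(9,10),(10,17),(9,33),(3,18),(2,3)]⟩)) (.R ⟨0,false,false,false,[1,0,0,0,
  -1],[0,1],[1,1,1],(⟨0,[(30,0)]⟩,⟨0,[(31,0)]⟩),(⟨0,[(42,0)]⟩,⟨0,[(41,0)]⟩),⟨0,[(1,0)]⟩,.k,.k,(.r
  (-1) ⟨36,[(9,2),(9,14),(2,2),(2,5),(18,1),(4,2),(2,12),(1,16)]⟩ ⟨5,[(7,1),(15,1),(4,0),(0,0),(24,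
  0)]⟩),(.r (-1) ⟨36,[(9,2),(9,14),(2,2),(2,5),(18,1),(4,2),(2,12),(1,16)]⟩ ⟨5,[(7,1),(15,1),(4,0),
  (0,0),(24,0)]⟩),.k,.k,⟨true,0,⟨0,[(52,0)]⟩,⟨3,[(7,0),(13,0),(31,0),(1,1)]⟩⟩,⟨false,1,⟨0,[(2,0),
  (51,0)]⟩,⟨2,[(0,0),(10,1),(9,0),(13,0),(9,0),(2,0)]⟩⟩,⟨false,0,⟨2,[(13,0),(11,0),(9,0)]⟩,⟨1,[(44,
  0),(9,0)]⟩⟩,⟨true,0,⟨0,[(2,0),(50,0)]⟩,⟨21,[(0,15),(10,5),(5,15),(1,5),(15,9),(8,1),(3,2),(5,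
  4)]⟩⟩,⟨false,0,⟨0,[]⟩,⟨0,[]⟩⟩,⟨false,0,⟨0,[]⟩,⟨0,[]⟩⟩,[.a ⟨true,0,⟨0,[(53,0)]⟩,⟨27,[(19,5),(4,10),
  (0,2),(13,1),(1,1),(6,5),(8,5)]⟩⟩ ⟨false,0,⟨0,[(57,0)]⟩,⟨1,[(54,0),(0,0)]⟩⟩ ⟨true,0,⟨0,[(2,0),(50,
  0)]⟩,⟨8,[(0,5),(12,0),(3,3),(1,4),(1,1),(6,2),(16,4),(2,1)]⟩⟩,.o ⟨false,1,⟨1,[(40,0),(12,1),(1,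
  0)]⟩,⟨0,[(52,0)]⟩⟩,.o ⟨false,1,⟨0,[(28,0)]⟩,⟨0,[(2,0)]⟩⟩,.e ⟨false,0,⟨0,[]⟩,⟨1,[(28,0),(0,0),(25,
  0)]⟩⟩ ⟨false,1,⟨1,[(2,1),(50,1),(0,0),(0,0)]⟩,⟨8,[(0,5),(12,0),(3,3),(1,4),(1,1),(6,2),(16,4),(2,
  1)]⟩⟩]⟩) (.S ⟨1,0,[1,1],[0,0,0,0,1],[1,1,1],(⟨0,[(31,0)]⟩,⟨0,[(30,0)]⟩),⟨1,[(1,0),(16,0),(8,0),(3,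
  0)]⟩,.k,(.r (-1) ⟨25,[(9,3),(2,5),(6,7),(2,3),(2,1),(2,5),(11,0),(13,10)]⟩ ⟨5,[(7,1),(3,0),(11,1),
  (5,0),(24,0)]⟩),⟨false,0,⟨2,[(13,0),(11,0),(9,0)]⟩,⟨1,[(54,0),(0,0)]⟩⟩,⟨true,0,⟨0,[(57,0)]⟩,⟨0,
  []⟩⟩,⟨true,(-1),⟨1,[(7,0),(9,0),(28,0)]⟩,⟨25,[(9,3),(2,5),(6,7),(2,3),(2,1),(2,5),(11,0),(13,
  10)]⟩⟩,⟨false,0,⟨0,[(53,0)]⟩,⟨3,[(19,1),(4,0),(0,0),(14,0),(14,0)]⟩⟩,[.e ⟨false,0,⟨0,[(57,0)]⟩,⟨1,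
  [(54,0),(0,0)]⟩⟩ ⟨false,0,⟨0,[(46,0)]⟩,⟨1,[(28,0),(0,0),(25,0)]⟩⟩,.o ⟨false,0,⟨0,[(2,0)]⟩,⟨0,[(11,
  0)]⟩⟩,.o ⟨false,0,⟨0,[(2,0)]⟩,⟨0,[(28,0)]⟩⟩,.a ⟨true,(-1),⟨161,[(0,61),(1,99),(1,36),(2,49),(9,
  61),(0,17),(5,6),(2,17),(7,11),(3,53),(8,49)]⟩,⟨1,[(11,1),(36,0),(5,0)]⟩⟩ ⟨false,0,⟨0,[]⟩,⟨1,[(28,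
  0),(0,0),(25,0)]⟩⟩ ⟨true,0,⟨0,[(46,0)]⟩,⟨2,[(13,0),(11,0),(9,0)]⟩⟩]⟩)) (.Q [-1,-1,0,2,1,0,1,1,-1,
  0,1,-1] (.p true [0,0,1] [0,0,0,0,1] (⟨0,[(37,0)]⟩,⟨0,[(36,0)]⟩) .k 2 (⟨0,[(30,0)]⟩,⟨0,[(29,0)]⟩)
  .k (.r 0 ⟨1,[(3,1),(2,6),(9,12),(1,3),(24,14),(1,20),(2,0)]⟩ ⟨15,[(5,5),(0,3),(11,11),(8,1),(0,1),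
  (10,2),(9,5),(3,2)]⟩)) (.S ⟨1,0,[-1,1],[1,0,0,0,-1],[-1],(⟨0,[(30,0)]⟩,⟨0,[(31,0)]⟩),⟨0,[(1,0)]⟩,
  .k,(.r (-1) ⟨36,[(9,2),(9,14),(2,2),(2,5),(18,1),(4,2),(2,12),(1,16)]⟩ ⟨49,[(0,3),(6,13),(15,9),
  (1,1),(2,8),(0,12),(10,0),(9,1)]⟩),⟨false,1,⟨1,[(28,0),(0,0),(25,0)]⟩,⟨0,[]⟩⟩,⟨true,0,⟨0,[(57,
  0)]⟩,⟨0,[]⟩⟩,⟨true,0,⟨0,[(53,0)]⟩,⟨0,[(52,0)]⟩⟩,⟨false,0,⟨0,[(53,0)]⟩,⟨3,[(19,1),(4,0),(0,0),(14,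
  0),(14,0)]⟩⟩,[.a ⟨true,0,⟨187,[(0,105),(0,4),(1,4),(0,95),(2,32),(3,76),(5,118),(0,4),(16,90),(3,
  29),(6,174),(1,40)]⟩,⟨1,[(2,1),(45,0),(6,0)]⟩⟩ ⟨false,1,⟨1,[(11,0),(17,0),(24,0)]⟩,⟨0,[]⟩⟩ ⟨true,
  0,⟨0,[(57,0)]⟩,⟨0,[(45,0)]⟩⟩,.o ⟨false,1,⟨0,[(11,0)]⟩,⟨0,[(2,0)]⟩⟩,.o ⟨false,1,⟨0,[(28,0)]⟩,⟨0,
  [(2,0)]⟩⟩,.e ⟨false,1,⟨1,[(44,0),(9,0)]⟩,⟨2,[(13,0),(11,0),(9,0)]⟩⟩ ⟨false,1,⟨1,[(11,0),(17,0),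
  (24,0)]⟩,⟨0,[(45,0)]⟩⟩]⟩) (.Q [0,0,1,0,0,0,0,0,-1,1,0,-1] (.p false [0,0,0,0,1] [1] (⟨0,[(31,0)]⟩,
  ⟨0,[(30,0)]⟩) .k 1 (⟨0,[]⟩,⟨0,[]⟩) .k .k) (.R ⟨1,false,false,false,[1,0,0,0,-1],[1,-1],[1,1,1],
  (⟨0,[(31,0)]⟩,⟨0,[(32,0)]⟩),(⟨0,[(42,0)]⟩,⟨0,[(43,0)]⟩),⟨0,[(2,0)]⟩,.k,.k,(.r (-1) ⟨36,[(10,2),(9,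
  14),(2,2),(2,5),(18,1),(4,2),(2,12),(1,16)]⟩ ⟨5,[(8,1),(15,1),(4,0),(0,0),(24,0)]⟩),(.r 0 ⟨5,[(8,
  1),(3,0),(11,1),(5,0),(24,0)]⟩ ⟨25,[(10,3),(2,5),(6,7),(2,3),(2,1),(2,5),(11,0),(13,10)]⟩),.k,.k,
  ⟨false,(-1),⟨1,[(8,0),(9,0),(28,0)]⟩,⟨11,[(5,0),(14,7),(2,1),(2,2),(14,1),(13,10),(0,2)]⟩⟩,⟨true,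
  (-1),⟨32,[(1,8),(1,23),(4,7),(9,16),(17,8),(8,12),(3,11),(4,10)]⟩,⟨0,[(29,0)]⟩⟩,⟨false,0,⟨2,[(14,
  0),(11,0),(9,0)]⟩,⟨1,[(45,0),(9,0)]⟩⟩,⟨false,0,⟨7,[(1,1),(1,5),(14,1),(1,1),(28,2),(6,4)]⟩,⟨0,
  [(29,0),(24,0)]⟩⟩,⟨true,(-1),⟨1,[(8,0),(9,0),(28,0)]⟩,⟨36,[(10,2),(9,14),(2,2),(2,5),(18,1),(4,2),
  (2,12),(1,16)]⟩⟩,⟨false,0,⟨1,[(3,1),(45,0),(6,0)]⟩,⟨0,[(12,0)]⟩⟩,[.e ⟨false,0,⟨0,[(58,0)]⟩,⟨1,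
  [(55,0),(0,0)]⟩⟩ ⟨false,0,⟨2,[(1,0),(1,1),(14,0),(17,0),(8,0),(3,0),(5,1)]⟩,⟨0,[(29,0),(24,0)]⟩⟩,
  .o ⟨false,1,⟨3,[(20,1),(4,0),(0,0),(14,0),(14,0)]⟩,⟨0,[(17,0)]⟩⟩,.o ⟨false,1,⟨0,[(29,0)]⟩,⟨0,[(3,
  0)]⟩⟩,.a ⟨true,0,⟨0,[(0,0)]⟩,⟨11,[(1,1),(1,9),(14,1),(17,1),(8,1),(3,4),(4,5),(0,6)]⟩⟩ ⟨false,0,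
  ⟨0,[]⟩,⟨1,[(29,0),(0,0),(25,0)]⟩⟩ ⟨true,0,⟨2,[(1,0),(1,1),(14,0),(17,0),(8,0),(3,0),(5,1)]⟩,⟨0,
  [(0,0),(16,0)]⟩⟩]⟩) (.R ⟨1,false,false,false,[1,0,0,0,-1],[1,-1],[0,1,0,-1],(⟨0,[(31,0)]⟩,⟨0,[(32,
  0)]⟩),(⟨0,[(42,0)]⟩,⟨0,[(43,0)]⟩),⟨0,[(2,0)]⟩,.k,.k,(.r (-1) ⟨36,[(10,2),(9,14),(2,2),(2,5),(18,
  1),(4,2),(2,12),(1,16)]⟩ ⟨5,[(8,1),(15,1),(4,0),(0,0),(24,0)]⟩),(.r 0 ⟨5,[(8,1),(3,0),(11,1),(5,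
  0),(24,0)]⟩ ⟨25,[(10,3),(2,5),(6,7),(2,3),(2,1),(2,5),(11,0),(13,10)]⟩),.k,.k,⟨false,0,⟨0,[(58,
  0)]⟩,⟨1,[(55,0),(0,0)]⟩⟩,⟨true,(-1),⟨0,[(0,0),(4,0),(2,2),(9,4),(1,1),(24,4),(1,6)]⟩,⟨0,[(29,
  0)]⟩⟩,⟨true,0,⟨0,[(53,0)]⟩,⟨0,[(54,0)]⟩⟩,⟨false,0,⟨4,[(0,1),(0,0),(11,1),(6,0),(1,0),(23,0),(2,0),
  (6,1)]⟩,⟨0,[(29,0),(24,0)]⟩⟩,⟨false,0,⟨0,[]⟩,⟨1,[(29,0),(0,0),(25,0)]⟩⟩,⟨false,0,⟨1,[(3,1),(45,0),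
  (6,0)]⟩,⟨0,[(12,0)]⟩⟩,[.a ⟨true,0,⟨27,[(20,5),(4,10),(0,2),(13,1),(1,1),(6,5),(8,5)]⟩,⟨0,[(54,
  0)]⟩⟩ ⟨true,0,⟨0,[(53,0)]⟩,⟨3,[(8,0),(13,0),(31,0),(1,1)]⟩⟩ ⟨false,0,⟨27,[(0,21),(24,13),(4,5),(9,
  1),(1,1),(6,2),(5,2)]⟩,⟨0,[(29,0),(24,0)]⟩⟩,.o ⟨false,1,⟨3,[(20,1),(4,0),(0,0),(14,0),(14,0)]⟩,⟨0,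
  [(17,0)]⟩⟩,.o ⟨false,1,⟨0,[(29,0)]⟩,⟨0,[(3,0)]⟩⟩,.o ⟨false,1,⟨2,[(14,0),(11,0),(2,2),(6,0)]⟩,⟨0,
  [(0,0)]⟩⟩]⟩)))) (.Q [0,0,0,0,0,-1,0,0,0,0,0,1] (.ed false [1,-1,0,0,1] .k) (.Q [0,0,0,-1,0,0,-1,
  -1,1,0,-1,1] (.p false [0,0,1] [0,0,0,0,1] (⟨0,[(37,0)]⟩,⟨0,[(36,0)]⟩) .k 2 (⟨0,[(30,0)]⟩,⟨0,[(29,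
  0)]⟩) .k (.r 0 ⟨1,[(3,1),(2,6),(9,12),(1,3),(24,14),(1,20),(2,0)]⟩ ⟨15,[(5,5),(0,3),(11,11),(8,1),
  (0,1),(10,2),(9,5),(3,2)]⟩)) (.R ⟨1,false,false,true,[0,0,0,0,1],[0,1],[],(⟨0,[(31,0)]⟩,⟨0,[(30,
  0)]⟩),(⟨0,[(42,0)]⟩,⟨0,[(41,0)]⟩),⟨0,[(1,0)]⟩,.k,.k,(.r (-1) ⟨25,[(9,3),(2,5),(6,7),(2,3),(2,1),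
  (2,5),(11,0),(13,10)]⟩ ⟨5,[(7,1),(3,0),(11,1),(5,0),(24,0)]⟩),(.r (-1) ⟨25,[(9,3),(2,5),(6,7),(2,
  3),(2,1),(2,5),(11,0),(13,10)]⟩ ⟨5,[(7,1),(3,0),(11,1),(5,0),(24,0)]⟩),(.r (-2) ⟨12,[(9,3),(2,5),
  (6,7),(2,3),(2,1),(2,5),(11,0),(13,10)]⟩ ⟨0,[(7,0),(9,0),(26,0),(1,0)]⟩),.k,⟨false,2,⟨11,[(4,0),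
  (14,7),(2,1),(2,2),(14,1),(13,10),(0,2)]⟩,⟨1,[(7,0),(9,0),(28,0)]⟩⟩,⟨true,1,⟨1,[(2,1),(37,0),(13,
  0)]⟩,⟨3,[(0,0),(0,1),(8,0),(1,0),(2,1),(5,0),(13,0)]⟩⟩,⟨false,1,⟨1,[(11,0),(17,0),(25,0)]⟩,⟨0,
  []⟩⟩,⟨true,0,⟨2,[(2,2),(4,0),(8,0),(0,0),(28,0),(2,0),(4,0)]⟩,⟨0,[(12,0)]⟩⟩,⟨true,0,⟨1,[(7,0),(9,
  0),(26,1),(1,2)]⟩,⟨0,[(52,0)]⟩⟩,⟨true,0,⟨0,[(2,0),(13,0),(36,0)]⟩,⟨1,[(0,0),(11,0),(4,0),(1,0)]⟩⟩,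
  [.o ⟨false,0,⟨0,[(16,0)]⟩,⟨3,[(19,1),(4,0),(0,0),(14,0),(14,0)]⟩⟩,.e ⟨false,1,⟨1,[(54,0),(0,0)]⟩,
  ⟨0,[(57,0)]⟩⟩ ⟨false,1,⟨1,[(2,1),(37,0),(12,1),(0,0)]⟩,⟨2,[(0,0),(16,0),(1,0),(9,1)]⟩⟩,.a ⟨true,0,
  ⟨0,[(29,0)]⟩,⟨0,[(2,0)]⟩⟩ ⟨false,1,⟨1,[(28,0),(0,0),(25,0)]⟩,⟨0,[]⟩⟩ ⟨true,0,⟨0,[(2,0),(13,0)]⟩,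
  ⟨2,[(0,0),(16,0),(1,0),(9,1)]⟩⟩,.o ⟨false,0,⟨7,[(1,3),(5,0),(2,1),(1,2),(8,0),(7,0),(10,3)]⟩,⟨1,
  [(2,1),(37,0),(13,0)]⟩⟩]⟩) (.S ⟨1,0,[1,1],[0,0,0,0,1],[],(⟨0,[(31,0)]⟩,⟨0,[(30,0)]⟩),⟨0,[(1,0)]⟩,
  .k,(.r (-1) ⟨25,[(9,3),(2,5),(6,7),(2,3),(2,1),(2,5),(11,0),(13,10)]⟩ ⟨5,[(7,1),(3,0),(11,1),(5,
  0),(24,0)]⟩),⟨false,1,⟨1,[(11,0),(17,0),(25,0)]⟩,⟨0,[]⟩⟩,⟨true,0,⟨0,[(57,0)]⟩,⟨0,[]⟩⟩,⟨true,0,⟨1,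
  [(7,0),(9,0),(26,1),(1,2)]⟩,⟨0,[(52,0)]⟩⟩,⟨false,0,⟨0,[(53,0)]⟩,⟨3,[(19,1),(4,0),(0,0),(14,0),(14,
  0)]⟩⟩,[.e ⟨false,1,⟨1,[(28,0),(0,0),(24,0)]⟩,⟨0,[]⟩⟩ ⟨false,0,⟨0,[(46,0)]⟩,⟨1,[(28,0),(0,0),(25,
  0)]⟩⟩,.a ⟨true,0,⟨0,[(29,0)]⟩,⟨8,[(0,1),(1,6),(1,0),(13,0),(8,0),(11,2)]⟩⟩ ⟨false,1,⟨1,[(54,0),(0,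
  0)]⟩,⟨0,[(57,0)]⟩⟩ ⟨true,0,⟨0,[]⟩,⟨2,[(13,0),(11,0),(9,0)]⟩⟩,.e ⟨false,1,⟨1,[(28,0),(0,0),(25,
  0)]⟩,⟨0,[]⟩⟩ ⟨false,0,⟨0,[]⟩,⟨1,[(28,0),(0,0),(25,0)]⟩⟩,.o ⟨false,0,⟨7,[(1,3),(5,0),(2,1),(1,2),
  (8,0),(7,0),(10,3)]⟩,⟨1,[(2,1),(37,0),(13,0)]⟩⟩]⟩)) (.Q [0,0,0,-1,0,0,0,0,1,0,0,1] (.p true [0,0,
  0,0,1] [] (⟨0,[(30,0)]⟩,⟨0,[(29,0)]⟩) .k 0 (⟨0,[]⟩,⟨0,[]⟩) .k .k) (.R ⟨0,false,false,true,[0,0,0,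
  0,1],[0,1],[],(⟨0,[(31,0)]⟩,⟨0,[(30,0)]⟩),(⟨0,[(42,0)]⟩,⟨0,[(41,0)]⟩),⟨0,[(1,0)]⟩,.k,.k,(.r (-1)
  ⟨25,[(9,3),(2,5),(6,7),(2,3),(2,1),(2,5),(11,0),(13,10)]⟩ ⟨5,[(7,1),(3,0),(11,1),(5,0),(24,0)]⟩),
  (.r (-1) ⟨25,[(9,3),(2,5),(6,7),(2,3),(2,1),(2,5),(11,0),(13,10)]⟩ ⟨5,[(7,1),(3,0),(11,1),(5,0),
  (24,0)]⟩),.k,.k,⟨false,2,⟨11,[(4,0),(14,7),(2,1),(2,2),(14,1),(13,10),(0,2)]⟩,⟨1,[(7,0),(9,0),(28,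
  0)]⟩⟩,⟨true,1,⟨1,[(2,1),(37,0),(13,0)]⟩,⟨0,[(0,0),(14,0)]⟩⟩,⟨false,1,⟨1,[(11,0),(17,0),(25,0)]⟩,
  ⟨0,[]⟩⟩,⟨true,0,⟨2,[(2,2),(4,0),(8,0),(0,0),(28,0),(2,0),(4,0)]⟩,⟨0,[(12,0)]⟩⟩,⟨false,0,⟨0,[]⟩,⟨0,
  []⟩⟩,⟨false,0,⟨0,[]⟩,⟨0,[]⟩⟩,[.o ⟨false,0,⟨0,[(16,0)]⟩,⟨3,[(19,1),(4,0),(0,0),(14,0),(14,0)]⟩⟩,.e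
  ⟨false,1,⟨1,[(54,0),(0,0)]⟩,⟨0,[(57,0)]⟩⟩ ⟨false,1,⟨1,[(2,1),(37,0),(12,1),(0,0)]⟩,⟨0,[(0,0)]⟩⟩,
  .a ⟨true,0,⟨0,[(29,0)]⟩,⟨0,[(2,0)]⟩⟩ ⟨false,1,⟨1,[(28,0),(0,0),(25,0)]⟩,⟨0,[]⟩⟩ ⟨true,0,⟨0,[(2,0),
  (13,0)]⟩,⟨0,[(0,0)]⟩⟩,.o ⟨false,0,⟨3,[(0,1),(6,0),(4,0),(8,0),(7,0),(10,1)]⟩,⟨1,[(2,1),(37,0),(13,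
  0)]⟩⟩]⟩) (.S ⟨1,0,[-1,1],[1,0,0,0,-1],[-1],(⟨0,[(30,0)]⟩,⟨0,[(31,0)]⟩),⟨1,[(1,0),(16,0),(8,0),(2,
  0)]⟩,.k,(.r (-1) ⟨36,[(9,2),(9,14),(2,2),(2,5),(18,1),(4,2),(2,12),(1,16)]⟩ ⟨5,[(7,1),(15,1),(4,
  0),(0,0),(24,0)]⟩),⟨false,1,⟨1,[(28,0),(0,0),(25,0)]⟩,⟨0,[]⟩⟩,⟨true,0,⟨0,[(57,0)]⟩,⟨0,[]⟩⟩,⟨true,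
  0,⟨0,[(53,0)]⟩,⟨0,[(52,0)]⟩⟩,⟨false,0,⟨0,[(53,0)]⟩,⟨3,[(19,1),(4,0),(0,0),(14,0),(14,0)]⟩⟩,[.o
  ⟨false,0,⟨0,[(0,0),(51,0)]⟩,⟨1,[(29,1),(10,0),(14,0)]⟩⟩,.e ⟨false,1,⟨1,[(44,0),(9,0)]⟩,⟨0,[(57,
  0)]⟩⟩ ⟨false,1,⟨1,[(11,0),(17,0),(24,0)]⟩,⟨0,[]⟩⟩,.a ⟨true,0,⟨0,[(2,0)]⟩,⟨0,[(29,0)]⟩⟩ ⟨false,1,
  ⟨1,[(11,0),(17,0),(25,0)]⟩,⟨0,[]⟩⟩ ⟨true,0,⟨0,[(57,0)]⟩,⟨0,[]⟩⟩,.o ⟨false,0,⟨5,[(0,1),(1,2),(1,0),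
  (8,1),(7,1),(6,0),(11,0)]⟩,⟨1,[(29,1),(10,0),(13,0)]⟩⟩]⟩)))) (.Q [1,-1,0,0,0,0,0,0,1,-1,0,1] (.p
  true [0,0,0,0,1] [1] (⟨0,[(28,0)]⟩,⟨0,[(27,0)]⟩) .k 1 (⟨0,[]⟩,⟨0,[]⟩) .k .k) (.R ⟨1,false,false,
  true,[1,0,-1],[1,0,0,0,-1],[1,1,0,-1,0,0,0,-1],(⟨0,[(35,0)]⟩,⟨0,[(36,0)]⟩),(⟨0,[(28,0)]⟩,⟨0,[(29,
  0)]⟩),⟨0,[(24,0)]⟩,.k,.k,.k,.k,(.r (-2) ⟨3,[(4,1),(12,3),(8,1),(0,1),(10,0),(9,1),(3,0)]⟩ ⟨0,[(5,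
  0),(9,1),(26,1),(1,1)]⟩),.k,⟨true,1,⟨20,[(4,5),(0,1),(4,0),(6,18),(0,6),(7,0),(11,2),(9,5)]⟩,⟨0,
  [(5,0),(9,1),(26,1),(1,1)]⟩⟩,⟨false,2,⟨0,[(26,0),(6,0),(18,0)]⟩,⟨42,[(0,42),(3,9),(0,9),(9,29),(0,
  3),(8,3),(4,22),(6,11),(6,0),(1,2),(1,5)]⟩⟩,⟨true,0,⟨0,[(50,0)]⟩,⟨0,[(51,0)]⟩⟩,⟨false,1,⟨0,[(19,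
  0),(6,0),(6,0),(18,0)]⟩,⟨7,[(0,5),(3,3),(22,1),(18,0),(6,0)]⟩⟩,⟨false,0,⟨0,[]⟩,⟨1,[(26,0),(0,0),
  (25,0)]⟩⟩,⟨false,1,⟨0,[(19,0),(6,0),(6,0),(17,0),(0,0)]⟩,⟨7,[(0,5),(1,2),(0,0),(6,0),(16,0),(14,
  0),(3,0)]⟩⟩,[.o ⟨false,1,⟨0,[(26,0),(28,0)]⟩,⟨0,[(0,0)]⟩⟩,.o ⟨false,1,⟨0,[(9,0)]⟩,⟨1,[(0,0),(9,0),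
  (3,0)]⟩⟩,.o ⟨false,0,⟨5,[(4,0),(14,1),(3,0),(6,1),(7,1)]⟩,⟨1,[(33,1),(4,0),(13,0)]⟩⟩,.a ⟨true,
  (-1),⟨28,[(3,8),(1,2),(13,20),(3,4),(6,0),(6,3),(1,3),(6,4)]⟩,⟨0,[(33,0),(18,0)]⟩⟩ ⟨true,1,⟨0,
  [(18,0),(14,0),(18,0)]⟩,⟨0,[(19,0),(31,0)]⟩⟩ ⟨false,2,⟨0,[(26,0),(6,0),(18,0)]⟩,⟨110,[(0,94),(2,
  38),(1,12),(13,90),(3,6),(3,15),(2,18),(11,7),(3,14)]⟩⟩]⟩) (.Q [1,-1,0,0,0,0,0,0,1,0,0,1] (.p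
  true [0,0,0,0,1] [] (⟨0,[(29,0)]⟩,⟨0,[(28,0)]⟩) .k 0 (⟨0,[]⟩,⟨0,[]⟩) .k .k) (.Q [1,0,0,1,-1,0,0,0,
  1,0,0,1] (.p true [0,0,0,0,1] [] (⟨0,[(30,0)]⟩,⟨0,[(29,0)]⟩) .k 0 (⟨0,[]⟩,⟨0,[]⟩) .k .k) (.R ⟨2,
  true,false,true,[0,1],[1,0,0,0,-1],[1,1,1],(⟨0,[]⟩,⟨0,[]⟩),(⟨0,[(30,0)]⟩,⟨0,[(31,0)]⟩),⟨0,[]⟩,.k,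
  .k,.k,(.r 0 ⟨5,[(7,1),(15,1),(4,0),(0,0),(24,0)]⟩ ⟨36,[(9,2),(9,14),(2,2),(2,5),(18,1),(4,2),(2,
  12),(1,16)]⟩),.k,.k,⟨false,0,⟨0,[]⟩,⟨1,[(11,0),(17,0),(24,0)]⟩⟩,⟨true,0,⟨0,[(2,0),(42,0)]⟩,⟨117,
  [(0,62),(8,1),(2,54),(4,1),(0,5),(0,1),(7,5),(11,17),(4,0),(4,61)]⟩⟩,⟨true,0,⟨0,[(52,0)]⟩,⟨0,[(53,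
  0)]⟩⟩,⟨false,1,⟨3,[(2,1),(8,1),(7,1),(4,0),(0,0)]⟩,⟨1,[(0,1),(39,0),(14,0)]⟩⟩,⟨false,0,⟨0,[]⟩,⟨1,
  [(28,0),(0,0),(25,0)]⟩⟩,⟨true,0,⟨0,[(2,0)]⟩,⟨1,[(0,0),(11,0),(27,0)]⟩⟩,[]⟩) (.Q [0,0,0,0,0,0,-1,0,
  -1,1,-1,-1] (.p false [0,0,1] [1,0,0,0,-1] (⟨0,[(38,0)]⟩,⟨0,[(37,0)]⟩) .k 2 (⟨0,[(30,0)]⟩,⟨0,[(31,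
  0)]⟩) .k (.r 0 ⟨1,[(21,0),(1,0),(30,0)]⟩ ⟨95,[(6,35),(0,23),(3,10),(7,71),(9,10),(10,17),(9,33),
  (3,18),(2,3)]⟩)) (.Q [0,0,0,0,0,0,0,0,1,-1,0,1] (.p true [0,0,0,0,1] [1] (⟨0,[(32,0)]⟩,⟨0,[(31,
  0)]⟩) .k 1 (⟨0,[]⟩,⟨0,[]⟩) .k .k) (.S ⟨1,0,[-1,1],[1,0,0,0,-1],[-1],(⟨0,[(32,0)]⟩,⟨0,[(33,0)]⟩),
  ⟨1,[(1,1),(3,1),(14,1),(8,3),(12,0),(13,2)]⟩,.k,(.r (-1) ⟨7,[(2,2),(11,2),(31,0),(7,1),(1,3)]⟩ ⟨5,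
  [(9,1),(15,1),(4,0),(0,0),(24,0)]⟩),⟨false,1,⟨1,[(30,0),(0,0),(25,0)]⟩,⟨0,[]⟩⟩,⟨true,0,⟨0,[(59,
  0)]⟩,⟨0,[]⟩⟩,⟨true,0,⟨0,[(55,0)]⟩,⟨0,[(54,0)]⟩⟩,⟨false,0,⟨0,[(55,0)]⟩,⟨1,[(2,0),(11,0),(42,0)]⟩⟩,
  [.a ⟨true,0,⟨0,[(4,0)]⟩,⟨0,[(3,0)]⟩⟩ ⟨false,1,⟨1,[(13,0),(17,0),(24,0)]⟩,⟨0,[]⟩⟩ ⟨true,0,⟨0,[(59,
  0)]⟩,⟨0,[(47,0)]⟩⟩,.o ⟨false,1,⟨0,[(13,0)]⟩,⟨0,[(0,0)]⟩⟩,.o ⟨false,1,⟨0,[(30,0)]⟩,⟨0,[(0,0)]⟩⟩,.e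
  ⟨false,1,⟨1,[(46,0),(9,0)]⟩,⟨2,[(15,0),(11,0),(9,0)]⟩⟩ ⟨false,1,⟨1,[(13,0),(17,0),(24,0)]⟩,⟨0,
  [(47,0)]⟩⟩]⟩) (.R ⟨2,true,false,false,[0,1],[0,0,0,0,1],[1,1],(⟨0,[]⟩,⟨0,[]⟩),(⟨0,[(33,0)]⟩,⟨0,
  [(32,0)]⟩),⟨0,[]⟩,.k,.k,.k,(.r 0 ⟨5,[(9,1),(3,0),(11,1),(5,0),(24,0)]⟩ ⟨1,[(2,0),(11,0),(41,0)]⟩),
  .k,.k,⟨true,0,⟨0,[(59,0)]⟩,⟨0,[(53,0)]⟩⟩,⟨false,0,⟨0,[(31,0)]⟩,⟨1,[(0,1),(41,0),(13,0)]⟩⟩,⟨false,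
  1,⟨1,[(2,0),(11,0),(41,0)]⟩,⟨3,[(9,0),(13,0),(31,0),(1,1)]⟩⟩,⟨true,0,⟨0,[(14,0)]⟩,⟨2,[(0,2),(8,0),
  (8,0),(0,0),(28,0),(2,0),(4,0)]⟩⟩,⟨true,0,⟨0,[(48,0)]⟩,⟨2,[(15,0),(11,0),(9,0)]⟩⟩,⟨false,0,⟨0,[(3,
  0)]⟩,⟨0,[(13,0)]⟩⟩,[]⟩)) (.K ⟨0,[1,0,0,0,-1],0,0,(⟨0,[(31,0)]⟩,⟨0,[(32,0)]⟩),.k,(.r (-1) ⟨7,[(1,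
  2),(11,2),(31,0),(7,1),(1,3)]⟩ ⟨5,[(8,1),(15,1),(4,0),(0,0),(24,0)]⟩),(.r 0 ⟨5,[(8,1),(3,0),(11,
  1),(5,0),(24,0)]⟩ ⟨1,[(1,0),(11,0),(41,0)]⟩),.k,.k,[⟨0,[(0,0)]⟩,⟨0,[(3,0),(42,0)]⟩,⟨0,[(13,0),(3,
  0)]⟩,⟨0,[(3,0)]⟩]⟩))) (.S ⟨1,0,[-1,1],[1,0,0,0,-1],[-1],(⟨0,[(29,0)]⟩,⟨0,[(30,0)]⟩),⟨4,[(0,1),(1,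
  1),(2,0),(11,2),(2,1),(5,4),(2,2),(9,0),(13,3),(0,0)]⟩,.k,(.r (-1) ⟨36,[(8,2),(9,14),(2,2),(2,5),
  (18,1),(4,2),(2,12),(1,16)]⟩ ⟨5,[(6,1),(15,1),(4,0),(0,0),(24,0)]⟩),⟨false,1,⟨1,[(27,0),(0,0),(25,
  0)]⟩,⟨0,[]⟩⟩,⟨true,0,⟨0,[(56,0)]⟩,⟨0,[]⟩⟩,⟨true,0,⟨0,[(52,0)]⟩,⟨0,[(51,0)]⟩⟩,⟨false,0,⟨0,[(52,
  0)]⟩,⟨3,[(18,1),(4,0),(0,0),(14,0),(14,0)]⟩⟩,[.o ⟨false,0,⟨0,[(0,0)]⟩,⟨1,[(28,1),(10,0),(14,0)]⟩⟩,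
  .e ⟨false,1,⟨1,[(43,0),(9,0)]⟩,⟨0,[(56,0)]⟩⟩ ⟨false,1,⟨1,[(10,0),(17,0),(24,0)]⟩,⟨0,[]⟩⟩,.a ⟨true,
  0,⟨1,[(0,1),(46,0),(6,0)]⟩,⟨0,[(28,0)]⟩⟩ ⟨false,1,⟨1,[(10,0),(17,0),(25,0)]⟩,⟨0,[]⟩⟩ ⟨true,0,⟨0,
  [(56,0)]⟩,⟨0,[]⟩⟩,.e ⟨false,1,⟨1,[(43,0),(9,0)]⟩,⟨2,[(12,0),(11,0),(9,0)]⟩⟩ ⟨false,1,⟨1,[(10,0),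
  (17,0),(24,0)]⟩,⟨0,[(44,0)]⟩⟩]⟩)))))))) (.Q [-1,1,0,0,0,0,0,0,-1,1,0,-1] (.p false [0,0,0,0,1]
  [1] (⟨0,[(23,0)]⟩,⟨0,[(22,0)]⟩) .k 1 (⟨0,[]⟩,⟨0,[]⟩) .k .k) (.Q [-1,0,0,0,0,0,0,0,-2,1,0,-2] (.p
  false [0,0,0,0,1] [1,0,0,0,-1] (⟨0,[(24,0)]⟩,⟨0,[(23,0)]⟩) .k 2 (⟨0,[(23,0)]⟩,⟨0,[(24,0)]⟩) .k
  (.r 0 ⟨0,[]⟩ ⟨3,[(4,2),(17,2),(25,0),(1,1)]⟩)) (.I [3,0,-2,-2,1] (.N [0,-2,0,0,2] (-1) ⟨0,[(0,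
  0)]⟩ ⟨0,[(10,1),(28,0),(1,1)]⟩ (.x 1 ⟨0,[(5,0)]⟩ ⟨8,[(1,7),(11,5),(8,5),(0,1),(2,17),(8,6),(13,
  8)]⟩)) (.Q [0,0,0,0,0,1,0,0,0,0,0,-1] (.ed true [1,-1,0,0,1] .k) (.S ⟨1,0,[-1,1],[1,0,0,0,-1],
  [-1],(⟨0,[(26,0)]⟩,⟨0,[(27,0)]⟩),⟨1,[(0,0),(13,0),(8,0),(2,0)]⟩,.k,(.r (-1) ⟨70,[(4,8),(2,5),(0,
  5),(6,28),(0,8),(4,9),(14,4),(13,21),(2,19)]⟩ ⟨1,[(1,0),(22,0),(0,0)]⟩),⟨false,1,⟨1,[(24,0),(0,0),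
  (25,0)]⟩,⟨0,[]⟩⟩,⟨true,0,⟨0,[(53,0)]⟩,⟨0,[]⟩⟩,⟨true,0,⟨0,[(49,0)]⟩,⟨0,[(48,0)]⟩⟩,⟨false,0,⟨0,[(49,
  0)]⟩,⟨25,[(4,1),(5,1),(4,15),(5,3),(10,5),(3,2),(14,4)]⟩⟩,[.o ⟨false,0,⟨18,[(1,0),(0,8),(0,0),(5,
  1),(2,1),(0,1),(2,1),(19,2),(9,5)]⟩,⟨1,[(25,1),(10,0),(14,0)]⟩⟩,.e ⟨false,1,⟨1,[(40,0),(9,0)]⟩,⟨0,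
  [(53,0)]⟩⟩ ⟨false,1,⟨1,[(7,0),(17,0),(24,0)]⟩,⟨0,[]⟩⟩,.a ⟨true,0,⟨5,[(2,1),(0,1),(40,0),(6,0)]⟩,
  ⟨0,[(25,0)]⟩⟩ ⟨false,1,⟨1,[(7,0),(17,0),(25,0)]⟩,⟨0,[]⟩⟩ ⟨true,0,⟨0,[(53,0)]⟩,⟨0,[]⟩⟩,.o ⟨false,0,
  ⟨25,[(2,12),(2,0),(3,6),(1,1),(5,0),(14,5),(3,2),(4,0)]⟩,⟨1,[(25,1),(10,0),(13,0)]⟩⟩]⟩) (.S ⟨1,0,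
  [1,1],[0,0,0,0,1],[],(⟨0,[(27,0)]⟩,⟨0,[(26,0)]⟩),⟨0,[(0,0)]⟩,.k,(.r (-1) ⟨8,[(4,0),(3,3),(6,0),(0,
  0),(7,3),(25,2)]⟩ ⟨1,[(1,0),(22,0),(0,0)]⟩),⟨false,1,⟨1,[(7,0),(17,0),(25,0)]⟩,⟨0,[]⟩⟩,⟨true,0,⟨0,
  [(53,0)]⟩,⟨0,[]⟩⟩,⟨true,0,⟨1,[(1,0),(48,0)]⟩,⟨0,[(48,0)]⟩⟩,⟨false,0,⟨0,[(49,0)]⟩,⟨25,[(4,1),(5,1),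
  (4,15),(5,3),(10,5),(3,2),(14,4)]⟩⟩,[.e ⟨false,1,⟨1,[(24,0),(0,0),(24,0)]⟩,⟨0,[]⟩⟩ ⟨false,0,⟨0,
  [(42,0)]⟩,⟨1,[(24,0),(0,0),(25,0)]⟩⟩,.a ⟨true,0,⟨0,[(25,0)]⟩,⟨17,[(2,6),(0,3),(31,2),(1,2),(2,1),
  (3,1)]⟩⟩ ⟨false,1,⟨1,[(50,0),(0,0)]⟩,⟨0,[(53,0)]⟩⟩ ⟨true,0,⟨0,[]⟩,⟨2,[(9,0),(11,0),(9,0)]⟩⟩,.e
  ⟨false,1,⟨1,[(24,0),(0,0),(25,0)]⟩,⟨0,[]⟩⟩ ⟨false,0,⟨0,[]⟩,⟨1,[(24,0),(0,0),(25,0)]⟩⟩,.o ⟨false,0,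
  ⟨1,[(1,0),(6,1),(27,0)]⟩,⟨5,[(2,1),(21,1),(11,0),(13,2)]⟩⟩]⟩))) (.Q [0,0,0,0,0,0,2,2,0,-1,2] (.p
  true [0,0,1] [1,0,-1] (⟨0,[(32,0)]⟩,⟨0,[(31,0)]⟩) .k 2 (⟨0,[(31,0)]⟩,⟨0,[(32,0)]⟩) .k (.r 1 ⟨0,
  [(15,1),(32,0)]⟩ ⟨0,[(28,1),(0,1),(18,0),(0,0)]⟩)) (.Q [0,0,-1,-1,0,0,-2,-1,0,1,-2] (.p false [0,
  0,1] [1,0,-1] (⟨0,[(33,0)]⟩,⟨0,[(32,0)]⟩) .k 2 (⟨0,[(32,0)]⟩,⟨0,[(33,0)]⟩) .k (.r 1 ⟨0,[(16,1),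
  (32,0)]⟩ ⟨0,[(29,1),(0,1),(18,0),(0,0)]⟩)) (.R ⟨0,false,false,true,[0,-1,1],[1,-1,-1],[],(⟨0,[(23,
  0)]⟩,⟨15,[(3,1),(21,1),(7,15),(4,3),(4,3),(0,0),(6,0)]⟩),(⟨0,[(22,0)]⟩,⟨15,[(3,1),(21,1),(8,15),
  (3,3),(4,3),(0,0),(6,0)]⟩),⟨2,[(14,1),(18,0),(1,0),(7,2)]⟩,.k,.k,(.r (-1) ⟨16,[(2,0),(1,10),(10,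
  0),(3,4),(1,0),(2,1),(4,0),(20,2)]⟩ ⟨1,[(11,0),(18,1),(0,1),(17,2),(1,0)]⟩),.k,.k,.k,⟨false,0,⟨1,
  [(17,1),(31,1),(0,0),(0,0)]⟩,⟨0,[(16,0),(14,0),(18,0)]⟩⟩,⟨true,(-1),⟨0,[(0,0),(16,0),(31,0)]⟩,⟨1,
  [(31,3),(4,0),(13,0)]⟩⟩,⟨false,1,⟨0,[(30,0),(0,0),(17,0),(1,0)]⟩,⟨2,[(4,0),(12,1),(32,0)]⟩⟩,⟨true,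
  0,⟨4,[(10,0),(19,8),(9,1),(3,1),(4,1)]⟩,⟨0,[(1,0)]⟩⟩,⟨false,0,⟨0,[]⟩,⟨0,[]⟩⟩,⟨false,0,⟨0,[]⟩,⟨0,
  []⟩⟩,[.o ⟨false,0,⟨0,[(16,0)]⟩,⟨2,[(1,0),(27,0),(6,0),(12,2),(1,1)]⟩⟩,.a ⟨true,0,⟨4,[(10,2),(19,
  1),(9,0),(3,0),(4,0)]⟩,⟨5,[(1,1),(27,1),(14,0),(4,5),(1,0)]⟩⟩ ⟨false,1,⟨1,[(50,0),(0,0)]⟩,⟨0,[(53,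
  0)]⟩⟩ ⟨true,0,⟨0,[(0,0)]⟩,⟨4,[(1,1),(7,2),(9,0),(11,2),(17,4)]⟩⟩,.e ⟨false,1,⟨1,[(24,0),(0,0),(25,
  0)]⟩,⟨0,[]⟩⟩ ⟨false,0,⟨0,[(0,0)]⟩,⟨2,[(1,0),(27,0),(1,2),(4,0),(12,2),(1,1)]⟩⟩,.o ⟨false,0,⟨0,[(9,
  0)]⟩,⟨1,[(28,1),(7,0),(13,0)]⟩⟩]⟩) (.Q [0,0,0,0,-1,0,-2,0,0,1,-2] (.p false [0,0,1] [1,0,-1] (⟨0,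
  [(34,0)]⟩,⟨0,[(33,0)]⟩) .k 2 (⟨0,[(33,0)]⟩,⟨0,[(34,0)]⟩) .k (.r 1 ⟨0,[(17,1),(32,0)]⟩ ⟨0,[(30,1),
  (0,1),(18,0),(0,0)]⟩)) (.R ⟨0,false,false,true,[0,-1,1],[1,-1,-1],[],(⟨0,[(24,0)]⟩,⟨15,[(4,1),(21,
  1),(7,15),(4,3),(4,3),(0,0),(6,0)]⟩),(⟨0,[(23,0)]⟩,⟨15,[(4,1),(21,1),(8,15),(3,3),(4,3),(0,0),(6,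
  0)]⟩),⟨2,[(15,1),(18,0),(1,0),(7,2)]⟩,.k,.k,(.r (-1) ⟨16,[(3,0),(1,10),(10,0),(3,4),(1,0),(2,1),
  (4,0),(20,2)]⟩ ⟨1,[(12,0),(18,1),(0,1),(17,2),(1,0)]⟩),.k,.k,.k,⟨false,0,⟨1,[(0,0),(1,0),(47,1),
  (1,0)]⟩,⟨0,[(17,0),(14,0),(18,0)]⟩⟩,⟨true,(-1),⟨0,[(0,0)]⟩,⟨1,[(32,3),(4,0),(13,0)]⟩⟩,⟨false,1,⟨0,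
  [(31,0),(0,0),(17,0),(1,0)]⟩,⟨2,[(0,0),(1,0),(2,0)]⟩⟩,⟨true,0,⟨4,[(11,0),(19,8),(9,1),(3,1),(4,
  1)]⟩,⟨0,[(2,0)]⟩⟩,⟨false,0,⟨0,[]⟩,⟨0,[]⟩⟩,⟨false,0,⟨0,[]⟩,⟨0,[]⟩⟩,[.o ⟨false,0,⟨0,[(17,0)]⟩,⟨3,
  [(1,0),(0,0),(17,0),(16,0),(12,2),(0,0),(0,1)]⟩⟩,.e ⟨false,1,⟨1,[(51,0),(0,0)]⟩,⟨0,[(54,0)]⟩⟩
  ⟨false,1,⟨1,[(17,1),(11,1),(21,0),(0,0)]⟩,⟨0,[(1,0)]⟩⟩,.a ⟨true,0,⟨0,[(32,0)]⟩,⟨0,[(29,0)]⟩⟩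
  ⟨false,1,⟨1,[(25,0),(0,0),(25,0)]⟩,⟨0,[]⟩⟩ ⟨true,0,⟨0,[(17,0),(11,0)]⟩,⟨0,[(1,0)]⟩⟩,.o ⟨false,0,
  ⟨0,[(10,0)]⟩,⟨3,[(0,0),(21,0),(14,0),(13,3)]⟩⟩]⟩) (.Q [0,0,-2,0,0,0,-2,0,0,1,-2] (.p false [0,0,
  1] [1,0,-1] (⟨0,[(35,0)]⟩,⟨0,[(34,0)]⟩) .k 2 (⟨0,[(34,0)]⟩,⟨0,[(35,0)]⟩) .k (.r 1 ⟨0,[(18,1),(32,
  0)]⟩ ⟨11,[(0,15),(3,1),(17,3),(3,1),(4,23),(13,4),(6,12)]⟩)) (.R ⟨0,false,false,true,[0,-1,1],[1,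
  0,-1],[],(⟨0,[(25,0)]⟩,⟨15,[(5,1),(21,1),(7,15),(4,3),(4,3),(0,0),(6,0)]⟩),(⟨0,[(35,0)]⟩,⟨0,[(36,
  0)]⟩),⟨2,[(16,1),(18,0),(1,0),(7,2)]⟩,.k,.k,(.r (-1) ⟨16,[(4,0),(1,10),(10,0),(3,4),(1,0),(2,1),
  (4,0),(20,2)]⟩ ⟨1,[(13,0),(18,1),(0,1),(17,2),(1,0)]⟩),(.r 0 ⟨5,[(0,0),(2,3),(2,1),(12,1),(3,2)]⟩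
  ⟨1,[(1,1),(11,0),(18,3),(13,0),(4,0),(1,1)]⟩),.k,.k,⟨true,0,⟨3,[(0,0),(2,0),(15,1),(33,1)]⟩,⟨0,
  [(32,0),(0,0)]⟩⟩,⟨false,0,⟨0,[(0,0)]⟩,⟨2,[(1,2),(9,0),(11,0),(9,0)]⟩⟩,⟨false,1,⟨0,[(32,0),(0,0),
  (17,0),(1,0)]⟩,⟨5,[(0,0),(2,0),(2,1),(12,1)]⟩⟩,⟨true,0,⟨1,[(32,3),(13,0),(4,1),(1,0)]⟩,⟨5,[(1,1),
  (1,3),(2,0),(8,2),(27,2)]⟩⟩,⟨false,0,⟨0,[]⟩,⟨0,[]⟩⟩,⟨false,0,⟨0,[]⟩,⟨0,[]⟩⟩,[.o ⟨false,0,⟨0,[(32,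
  0)]⟩,⟨7,[(1,0),(1,2),(17,1),(16,1),(13,0),(0,3)]⟩⟩,.e ⟨false,1,⟨1,[(52,0),(0,0)]⟩,⟨0,[(55,0)]⟩⟩
  ⟨false,1,⟨1,[(30,1),(1,1),(19,0),(0,0)]⟩,⟨2,[(1,1),(1,0),(9,0),(1,0),(27,0)]⟩⟩,.a ⟨true,0,⟨0,[(33,
  0)]⟩,⟨0,[(30,0)]⟩⟩ ⟨false,1,⟨1,[(1,0),(21,0),(29,0)]⟩,⟨0,[]⟩⟩ ⟨true,0,⟨0,[(30,0),(1,0)]⟩,⟨2,[(1,
  1),(1,0),(9,0),(1,0),(27,0)]⟩⟩,.o ⟨false,0,⟨0,[(11,0)]⟩,⟨3,[(0,0),(22,0),(14,0),(13,2)]⟩⟩]⟩) (.Q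
  [0,0,0,0,0,0,1,0,1,-1,1,1] (.p true [0,0,1] [1,0,0,0,-1] (⟨0,[(36,0)]⟩,⟨0,[(35,0)]⟩) .k 2 (⟨0,
  [(28,0)]⟩,⟨0,[(29,0)]⟩) .k (.r 0 ⟨1,[(3,0),(19,0)]⟩ ⟨7,[(1,3),(3,1),(21,1),(4,7),(9,3),(3,0),(6,
  0)]⟩)) (.K ⟨0,[1,0,0,0,-1],0,0,(⟨0,[(29,0)]⟩,⟨0,[(30,0)]⟩),.k,(.r (-1) ⟨87,[(5,8),(1,13),(2,17),
  (7,31),(0,13),(4,8),(18,0),(9,22),(2,19)]⟩ ⟨1,[(1,0),(22,0),(27,1)]⟩),(.r 0 ⟨1,[(1,0),(22,0),(27,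
  1)]⟩ ⟨8,[(7,0),(3,3),(6,0),(0,0),(7,3),(25,2)]⟩),.k,.k,[⟨0,[(0,0)]⟩,⟨0,[(6,0),(37,0)]⟩,⟨21,[(5,
  10),(6,2),(2,3),(0,1),(2,1),(15,0),(3,1),(9,6)]⟩,⟨0,[(6,0)]⟩]⟩) (.Q [0,0,-1,0,1,0,0,0,-1,0,0,-1]
  (.p false [0,0,0,0,1] [] (⟨0,[(30,0)]⟩,⟨0,[(29,0)]⟩) .k 0 (⟨0,[]⟩,⟨0,[]⟩) .k .k) (.Q [-1,0,0,0,0,
  0,0,0,-1,1,0,-1] (.p false [0,0,0,0,1] [1] (⟨0,[(31,0)]⟩,⟨0,[(30,0)]⟩) .k 1 (⟨0,[]⟩,⟨0,[]⟩) .k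
  .k) (.Q [0,0,0,0,0,-1,0,0,0,0,0,1] (.ed false [1,-1,0,0,1] .k) (.S ⟨1,0,[1,1],[0,0,0,0,1],[],(⟨0,
  [(33,0)]⟩,⟨0,[(32,0)]⟩),⟨0,[(0,0)]⟩,.k,(.r (-1) ⟨8,[(10,0),(3,3),(6,0),(0,0),(7,3),(25,2)]⟩ ⟨1,
  [(4,0),(22,0),(27,1)]⟩),⟨false,1,⟨1,[(5,0),(21,0),(18,0)]⟩,⟨0,[]⟩⟩,⟨true,0,⟨0,[(59,0)]⟩,⟨0,[]⟩⟩,
  ⟨true,0,⟨0,[(17,0),(28,0),(1,1)]⟩,⟨0,[(54,0)]⟩⟩,⟨false,0,⟨0,[(55,0)]⟩,⟨25,[(10,1),(5,1),(4,15),(5,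
  3),(10,5),(3,2),(14,4)]⟩⟩,[.e ⟨false,1,⟨1,[(5,0),(21,0),(28,0)]⟩,⟨0,[]⟩⟩ ⟨false,0,⟨0,[(48,0)]⟩,⟨1,
  [(5,0),(21,0),(29,0)]⟩⟩,.a ⟨true,0,⟨0,[(31,0)]⟩,⟨0,[(1,0)]⟩⟩ ⟨false,1,⟨1,[(56,0),(0,0)]⟩,⟨0,[(59,
  0)]⟩⟩ ⟨true,0,⟨0,[]⟩,⟨1,[(4,0),(22,0)]⟩⟩,.e ⟨false,1,⟨1,[(5,0),(21,0),(29,0)]⟩,⟨0,[]⟩⟩ ⟨false,0,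
  ⟨0,[]⟩,⟨1,[(5,0),(21,0),(29,0)]⟩⟩,.o ⟨false,0,⟨57,[(8,28),(2,2),(3,10),(1,5),(5,2),(14,7),(8,2),
  (3,8),(6,9)]⟩,⟨0,[(2,0)]⟩⟩]⟩) (.R ⟨0,false,false,true,[0,0,0,0,1],[0,1],[],(⟨0,[(33,0)]⟩,⟨0,[(32,
  0)]⟩),(⟨0,[(44,0)]⟩,⟨0,[(43,0)]⟩),⟨0,[(0,0)]⟩,.k,.k,(.r (-1) ⟨8,[(10,0),(3,3),(6,0),(0,0),(7,3),
  (25,2)]⟩ ⟨1,[(4,0),(22,0),(27,1)]⟩),(.r (-1) ⟨8,[(10,0),(3,3),(6,0),(0,0),(7,3),(25,2)]⟩ ⟨1,[(4,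
  0),(22,0),(27,1)]⟩),.k,.k,⟨false,2,⟨25,[(10,1),(10,17),(0,1),(4,7),(14,3),(13,22),(0,4)]⟩,⟨0,[(17,
  0),(30,0)]⟩⟩,⟨true,1,⟨0,[(2,0)]⟩,⟨35,[(4,0),(3,17),(7,1),(0,33),(2,1),(2,1),(2,14),(2,1),(11,
  5)]⟩⟩,⟨false,1,⟨1,[(5,0),(21,0),(18,0)]⟩,⟨0,[]⟩⟩,⟨true,0,⟨0,[(1,0),(16,0)]⟩,⟨0,[(14,0)]⟩⟩,⟨false,
  0,⟨0,[]⟩,⟨0,[]⟩⟩,⟨false,0,⟨0,[]⟩,⟨0,[]⟩⟩,[.o ⟨false,0,⟨0,[(18,0)]⟩,⟨25,[(10,1),(5,1),(4,15),(5,3),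
  (10,5),(3,2),(14,4)]⟩⟩,.e ⟨false,1,⟨1,[(56,0),(0,0)]⟩,⟨0,[(59,0)]⟩⟩ ⟨false,1,⟨0,[(2,0),(52,0)]⟩,
  ⟨155,[(4,2),(3,77),(1,1),(5,5),(2,3),(0,7),(5,66),(2,7),(11,23),(4,1)]⟩⟩,.a ⟨true,0,⟨0,[(31,0)]⟩,
  ⟨0,[(1,0)]⟩⟩ ⟨false,1,⟨1,[(5,0),(21,0),(29,0)]⟩,⟨0,[]⟩⟩ ⟨true,0,⟨0,[(1,0),(16,0)]⟩,⟨155,[(4,2),(3,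
  77),(1,1),(5,5),(2,3),(0,7),(5,66),(2,7),(11,23),(4,1)]⟩⟩,.o ⟨false,0,⟨57,[(8,28),(2,2),(3,10),(1,
  5),(5,2),(14,7),(8,2),(3,8),(6,9)]⟩,⟨0,[(2,0)]⟩⟩]⟩)) (.R ⟨0,false,false,false,[0,-1,1],[0,0,0,0,
  1],[],(⟨0,[(28,0)]⟩,⟨15,[(8,1),(21,1),(7,15),(4,3),(4,3),(0,0),(6,0)]⟩),(⟨0,[(32,0)]⟩,⟨0,[(31,
  0)]⟩),⟨2,[(19,1),(18,0),(1,0),(7,2)]⟩,.k,.k,(.r (-1) ⟨16,[(7,0),(1,10),(10,0),(3,4),(1,0),(2,1),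
  (4,0),(20,2)]⟩ ⟨1,[(16,0),(18,1),(0,1),(17,2),(1,0)]⟩),(.r 0 ⟨0,[(9,0),(6,1),(28,0),(1,1)]⟩ ⟨1,
  [(4,0),(21,0),(8,1),(0,1),(17,1),(1,0)]⟩),.k,.k,⟨false,1,⟨11,[(4,4),(21,4),(18,0),(9,5),(2,1)]⟩,
  ⟨0,[]⟩⟩,⟨true,0,⟨13,[(0,13),(8,0),(5,2),(2,1),(14,10),(11,0),(8,10)]⟩,⟨0,[(2,0),(0,0)]⟩⟩,⟨false,1,
  ⟨0,[(35,0),(0,0),(17,0),(1,0)]⟩,⟨2,[(9,0),(12,1),(32,0)]⟩⟩,⟨true,0,⟨1,[(0,1),(34,1),(13,0),(4,1),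
  (1,0)]⟩,⟨73,[(1,38),(1,29),(2,6),(1,34),(0,6),(8,52),(0,1),(8,1),(11,5),(4,6)]⟩⟩,⟨false,0,⟨0,[]⟩,
  ⟨0,[]⟩⟩,⟨false,0,⟨0,[]⟩,⟨0,[]⟩⟩,[.o ⟨false,0,⟨0,[(0,0)]⟩,⟨0,[(12,0)]⟩⟩,.e ⟨false,1,⟨1,[(55,0),(0,
  0)]⟩,⟨0,[(58,0)]⟩⟩ ⟨false,1,⟨1,[(0,1),(32,1),(21,0),(0,0)]⟩,⟨54,[(1,35),(1,31),(4,18),(6,8),(0,
  26),(1,8),(0,3),(8,3),(11,11),(6,26)]⟩⟩,.a ⟨true,0,⟨0,[(36,0)]⟩,⟨0,[(33,0)]⟩⟩ ⟨false,1,⟨1,[(4,0),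
  (21,0),(29,0)]⟩,⟨0,[]⟩⟩ ⟨true,0,⟨0,[(0,0),(32,0)]⟩,⟨54,[(1,35),(1,31),(4,18),(6,8),(0,26),(1,8),
  (0,3),(8,3),(11,11),(6,26)]⟩⟩,.o ⟨false,0,⟨0,[(14,0)]⟩,⟨1,[(33,1),(7,0),(13,0)]⟩⟩]⟩)) (.K ⟨0,[0,0,
  0,0,1],(-1),(-1),(⟨0,[(31,0)]⟩,⟨0,[(30,0)]⟩),.k,(.r (-1) ⟨8,[(8,0),(3,3),(6,0),(0,0),(7,3),(25,
  2)]⟩ ⟨1,[(2,0),(22,0),(27,1)]⟩),(.r 0 ⟨1,[(2,0),(22,0),(27,1)]⟩ ⟨87,[(6,8),(1,13),(2,17),(7,31),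
  (0,13),(4,8),(18,0),(9,22),(2,19)]⟩),.k,.k,[⟨0,[(1,0),(1,0)]⟩,⟨0,[(0,0)]⟩,⟨0,[(28,0),(28,0)]⟩,⟨0,
  [(0,0),(45,0)]⟩]⟩)))))) (.Q [0,0,0,1,0,0,2,2,0,-1,2] (.p true [0,0,1] [1,0,-1] (⟨0,[(33,0)]⟩,⟨0,
  [(32,0)]⟩) .k 2 (⟨0,[(32,0)]⟩,⟨0,[(33,0)]⟩) .k (.r 1 ⟨0,[(16,1),(32,0)]⟩ ⟨2,[(0,2),(0,0),(21,1),
  (6,5),(4,0),(13,2)]⟩)) (.R ⟨1,true,false,false,[0,0,1],[1,-1,-1],[1,1,0,-1,0,0,0,1],(⟨0,[(34,0)]⟩,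
  ⟨0,[(33,0)]⟩),(⟨0,[(22,0)]⟩,⟨15,[(3,1),(21,1),(8,15),(3,3),(4,3),(0,0),(6,0)]⟩),⟨0,[(23,0)]⟩,.k,
  .k,.k,(.r 1 ⟨1,[(0,0),(16,1),(3,0),(27,0)]⟩ ⟨1,[(1,1),(13,1),(15,1),(4,0),(5,1),(7,0)]⟩),.k,.k,
  ⟨true,(-2),⟨0,[(13,0),(3,0),(31,0)]⟩,⟨1,[(1,1),(29,3),(4,0),(13,1),(0,0)]⟩⟩,⟨false,(-1),⟨0,[(1,0),
  (15,1),(32,0)]⟩,⟨1,[(31,3),(4,0),(13,2)]⟩⟩,⟨true,0,⟨0,[(48,0)]⟩,⟨0,[(49,0)]⟩⟩,⟨false,1,⟨9,[(1,8),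
  (8,1),(4,5),(5,2),(14,1),(14,1)]⟩,⟨0,[(0,0)]⟩⟩,⟨false,0,⟨0,[]⟩,⟨1,[(24,0),(0,0),(25,0)]⟩⟩,⟨true,0,
  ⟨0,[(1,0)]⟩,⟨39,[(0,24),(3,5),(4,12),(3,6),(15,16),(6,0),(9,7)]⟩⟩,[]⟩) (.Q [0,0,0,2,0,0,2,2,0,-1,
  2] (.p true [0,0,1] [1,0,-1] (⟨0,[(34,0)]⟩,⟨0,[(33,0)]⟩) .k 2 (⟨0,[(33,0)]⟩,⟨0,[(34,0)]⟩) .k (.r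
  1 ⟨0,[(17,1),(32,0)]⟩ ⟨2,[(1,2),(0,0),(21,1),(6,5),(4,0),(13,2)]⟩)) (.R ⟨1,true,false,false,[1,0,
  -1],[0,1,1],[1,1,0,-1,0,0,0,-1],(⟨0,[(34,0)]⟩,⟨0,[(35,0)]⟩),(⟨15,[(4,1),(21,1),(8,15),(3,3),(4,3),
  (0,0),(6,0)]⟩,⟨0,[(23,0)]⟩),⟨0,[(23,0)]⟩,.k,.k,.k,(.r (-2) ⟨1,[(2,1),(13,1),(15,1),(4,0),(5,1),(7,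
  0)]⟩ ⟨1,[(0,0),(17,1),(3,0)]⟩),(.r (-3) ⟨1,[(2,1),(13,3),(20,0),(9,1),(3,0)]⟩ ⟨0,[(0,0),(1,0),(15,
  1)]⟩),.k,⟨false,2,⟨1,[(1,0),(0,0),(13,2),(15,0),(4,0),(5,4)]⟩,⟨1,[(0,1),(1,1),(15,3),(32,0),(0,
  0)]⟩⟩,⟨true,2,⟨1,[(32,3),(4,0),(13,2)]⟩,⟨0,[(2,0),(15,1)]⟩⟩,⟨true,0,⟨0,[(49,0)]⟩,⟨0,[(50,0)]⟩⟩,
  ⟨false,1,⟨21,[(0,17),(2,1),(1,1),(10,7),(3,5),(4,3),(11,0),(14,6)]⟩,⟨0,[(1,0)]⟩⟩,⟨false,0,⟨0,[]⟩,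
  ⟨1,[(25,0),(0,0),(25,0)]⟩⟩,⟨true,0,⟨0,[(0,0)]⟩,⟨5,[(2,1),(1,0),(4,0),(1,2),(5,4)]⟩⟩,[]⟩) (.I [0,0,
  2,0,-2,2,0,0,2] (.Q [0,0,0,0,0,-1,0,0,0,0,0,1] (.ed false [1,-1,0,0,1] .k) (.S ⟨1,0,[1,1],[0,0,0,
  0,1],[],(⟨0,[(30,0)]⟩,⟨0,[(29,0)]⟩),⟨0,[(0,0)]⟩,.k,(.r (-1) ⟨14,[(2,0),(2,0),(1,1),(3,4),(6,1),(8,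
  6),(21,0),(3,3)]⟩ ⟨2,[(12,0),(11,0),(9,0),(17,2)]⟩),⟨false,1,⟨1,[(10,0),(17,0),(25,0)]⟩,⟨0,[]⟩⟩,
  ⟨true,0,⟨0,[(56,0)]⟩,⟨0,[]⟩⟩,⟨true,0,⟨0,[(14,0),(28,0),(1,1)]⟩,⟨0,[(51,0)]⟩⟩,⟨false,0,⟨0,[(52,
  0)]⟩,⟨33,[(2,3),(4,1),(10,19),(3,5),(1,5),(14,4),(14,6)]⟩⟩,[.e ⟨false,1,⟨1,[(27,0),(0,0),(24,0)]⟩,
  ⟨0,[]⟩⟩ ⟨false,0,⟨0,[(45,0)]⟩,⟨1,[(27,0),(0,0),(25,0)]⟩⟩,.o ⟨false,0,⟨1,[(0,1),(0,0),(37,0),(13,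
  0)]⟩,⟨0,[(10,0)]⟩⟩,.e ⟨false,1,⟨1,[(27,0),(0,0),(25,0)]⟩,⟨0,[]⟩⟩ ⟨false,0,⟨0,[]⟩,⟨1,[(27,0),(0,0),
  (25,0)]⟩⟩,.a ⟨true,(-1),⟨1,[(0,1),(0,0)]⟩,⟨1,[(6,1),(46,0),(0,0)]⟩⟩ ⟨false,1,⟨1,[(53,0),(0,0)]⟩,
  ⟨2,[(12,0),(11,0),(9,0)]⟩⟩ ⟨true,0,⟨0,[(45,0)]⟩,⟨2,[(12,0),(11,0),(9,0)]⟩⟩]⟩) (.Q [1,1,0,0,-1,0,0,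
  0,1,0,0,1] (.p true [0,0,0,0,1] [] (⟨0,[(30,0)]⟩,⟨0,[(29,0)]⟩) .k 0 (⟨0,[]⟩,⟨0,[]⟩) .k .k) (.S ⟨1,
  0,[-1,1],[1,0,0,0,-1],[-1],(⟨0,[(30,0)]⟩,⟨0,[(31,0)]⟩),⟨1,[(1,0),(16,0),(8,0),(2,0)]⟩,.k,(.r (-1)
  ⟨195,[(3,16),(2,29),(1,33),(2,59),(7,59),(5,12),(24,9),(3,41),(2,39)]⟩ ⟨5,[(6,0),(8,1),(9,0),(2,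
  1),(6,1),(17,3)]⟩),⟨false,1,⟨1,[(28,0),(0,0),(25,0)]⟩,⟨0,[]⟩⟩,⟨true,0,⟨0,[(57,0)]⟩,⟨0,[]⟩⟩,⟨true,
  0,⟨0,[(53,0)]⟩,⟨0,[(52,0)]⟩⟩,⟨false,0,⟨0,[(53,0)]⟩,⟨33,[(3,3),(4,1),(10,19),(3,5),(1,5),(14,4),
  (14,6)]⟩⟩,[.a ⟨true,0,⟨0,[(7,0)]⟩,⟨0,[(0,0),(54,0)]⟩⟩ ⟨false,1,⟨1,[(11,0),(17,0),(24,0)]⟩,⟨0,[]⟩⟩
  ⟨true,0,⟨0,[(57,0)]⟩,⟨0,[(45,0)]⟩⟩,.o ⟨false,1,⟨0,[(11,0)]⟩,⟨1,[(0,1),(39,0),(14,0)]⟩⟩,.o ⟨false,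
  1,⟨0,[(28,0)]⟩,⟨1,[(0,1),(48,0),(5,0)]⟩⟩,.e ⟨false,1,⟨1,[(44,0),(9,0)]⟩,⟨2,[(13,0),(11,0),(9,
  0)]⟩⟩ ⟨false,1,⟨1,[(11,0),(17,0),(24,0)]⟩,⟨0,[(45,0)]⟩⟩]⟩) (.Q [0,0,1,0,0,0,0,0,-1,0,0,-1] (.p
  false [0,0,0,0,1] [] (⟨0,[(31,0)]⟩,⟨0,[(30,0)]⟩) .k 0 (⟨0,[]⟩,⟨0,[]⟩) .k .k) (.R ⟨1,false,false,
  true,[1,0,0,0,-1],[1,-1],[-1],(⟨0,[(31,0)]⟩,⟨0,[(32,0)]⟩),(⟨0,[(42,0)]⟩,⟨0,[(43,0)]⟩),⟨1,[(2,0),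
  (16,0),(8,0),(2,0)]⟩,.k,.k,(.r (-1) ⟨195,[(4,16),(2,29),(1,33),(2,59),(7,59),(5,12),(24,9),(3,41),
  (2,39)]⟩ ⟨5,[(7,0),(8,1),(9,0),(2,1),(6,1),(17,3)]⟩),(.r 0 ⟨2,[(14,0),(11,0),(9,0),(17,2)]⟩ ⟨14,
  [(4,0),(2,0),(1,1),(3,4),(6,1),(8,6),(21,0),(3,3)]⟩),.k,.k,⟨true,0,⟨1,[(16,0),(28,0),(8,0)]⟩,⟨0,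
  [(53,0)]⟩⟩,⟨false,0,⟨0,[(30,0)]⟩,⟨0,[(1,0),(45,0)]⟩⟩,⟨false,1,⟨1,[(29,0),(0,0),(25,0)]⟩,⟨0,[]⟩⟩,
  ⟨false,0,⟨0,[(13,0)]⟩,⟨0,[(1,0),(52,0)]⟩⟩,⟨true,0,⟨0,[(54,0)]⟩,⟨0,[(53,0)]⟩⟩,⟨false,0,⟨0,[(30,
  0)]⟩,⟨0,[(1,0)]⟩⟩,[.o ⟨false,0,⟨0,[(53,0)]⟩,⟨1,[(41,0),(12,1),(1,0)]⟩⟩,.a ⟨true,0,⟨43,[(8,9),(11,
  1),(4,20),(0,0),(3,9),(14,3),(3,5)]⟩,⟨0,[(54,0)]⟩⟩ ⟨false,1,⟨1,[(45,0),(9,0)]⟩,⟨0,[(58,0)]⟩⟩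
  ⟨true,0,⟨67,[(3,0),(0,0),(2,32),(1,1),(4,1),(4,3),(5,29),(2,3),(3,1),(7,9)]⟩,⟨0,[(0,0),(53,0)]⟩⟩,
  .e ⟨false,1,⟨1,[(12,0),(17,0),(25,0)]⟩,⟨0,[]⟩⟩ ⟨false,0,⟨67,[(3,0),(0,0),(2,32),(1,1),(4,1),(4,3),
  (5,29),(2,3),(3,1),(7,9)]⟩,⟨0,[(1,0),(52,0)]⟩⟩,.o ⟨false,0,⟨0,[(0,0)]⟩,⟨5,[(7,3),(4,0),(16,0),(11,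
  0),(13,2)]⟩⟩]⟩) (.R ⟨2,true,false,false,[0,1],[0,0,0,0,1],[1,1],(⟨0,[]⟩,⟨0,[]⟩),(⟨0,[(32,0)]⟩,⟨0,
  [(31,0)]⟩),⟨0,[]⟩,.k,.k,.k,(.r 0 ⟨2,[(14,0),(11,0),(9,0),(17,2)]⟩ ⟨14,[(4,0),(2,0),(1,1),(3,4),(6,
  1),(8,6),(21,0),(3,3)]⟩),.k,.k,⟨true,0,⟨0,[(58,0)]⟩,⟨0,[(52,0)]⟩⟩,⟨false,0,⟨0,[(30,0)]⟩,⟨0,[(1,0),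
  (45,0)]⟩⟩,⟨false,1,⟨14,[(4,0),(2,0),(1,1),(3,4),(6,1),(8,6),(21,0),(3,3)]⟩,⟨1,[(16,0),(37,0),(1,
  0)]⟩⟩,⟨true,0,⟨0,[(13,0)]⟩,⟨0,[(1,0),(14,0),(30,1)]⟩⟩,⟨true,0,⟨0,[(47,0)]⟩,⟨2,[(14,0),(11,0),(9,
  0)]⟩⟩,⟨false,0,⟨0,[(0,0),(45,0)]⟩,⟨0,[(12,0)]⟩⟩,[]⟩)))) (.Q [0,0,-1,0,1,0,0,0,-1,0,0,-1] (.p
  false [0,0,0,0,1] [] (⟨0,[(29,0)]⟩,⟨0,[(28,0)]⟩) .k 0 (⟨0,[]⟩,⟨0,[]⟩) .k .k) (.Q [0,0,0,0,0,-1,0,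
  0,0,0,0,1] (.ed false [1,-1,0,0,1] .k) (.Q [0,0,0,0,0,0,0,0,-1,1,0,-1] (.p false [0,0,0,0,1] [1]
  (⟨0,[(31,0)]⟩,⟨0,[(30,0)]⟩) .k 1 (⟨0,[]⟩,⟨0,[]⟩) .k .k) (.R ⟨1,false,false,true,[0,0,0,0,1],[0,1],
  [],(⟨0,[(32,0)]⟩,⟨0,[(31,0)]⟩),(⟨0,[(43,0)]⟩,⟨0,[(42,0)]⟩),⟨0,[(1,0)]⟩,.k,.k,(.r (-1) ⟨14,[(4,0),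
  (2,0),(1,1),(3,4),(6,1),(8,6),(21,0),(3,3)]⟩ ⟨1,[(12,0),(3,0),(13,0),(23,0)]⟩),(.r (-1) ⟨14,[(4,
  0),(2,0),(1,1),(3,4),(6,1),(8,6),(21,0),(3,3)]⟩ ⟨1,[(12,0),(3,0),(13,0),(23,0)]⟩),(.r (-2) ⟨14,
  [(4,1),(2,1),(1,3),(3,9),(6,3),(8,13),(21,1),(3,7)]⟩ ⟨0,[(16,1),(28,0),(1,1)]⟩),.k,⟨false,2,⟨27,
  [(4,0),(4,1),(10,19),(5,8),(14,4),(13,24),(0,3)]⟩,⟨0,[(16,0),(30,0)]⟩⟩,⟨true,1,⟨0,[(2,0)]⟩,⟨12,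
  [(1,7),(2,0),(2,0),(3,3),(1,2),(2,6),(1,1),(17,1),(9,1)]⟩⟩,⟨false,1,⟨1,[(12,0),(17,0),(14,0)]⟩,⟨0,
  []⟩⟩,⟨true,0,⟨1,[(0,1),(15,0),(30,1),(2,0),(3,0)]⟩,⟨0,[(13,0)]⟩⟩,⟨true,0,⟨0,[(16,0),(28,0),(1,
  1)]⟩,⟨0,[(53,0)]⟩⟩,⟨true,0,⟨0,[(0,0),(16,0),(36,0)]⟩,⟨3,[(4,0),(2,0),(5,1),(4,1),(1,1)]⟩⟩,[.o
  ⟨false,0,⟨0,[(17,0)]⟩,⟨33,[(4,3),(4,1),(10,19),(3,5),(1,5),(14,4),(14,6)]⟩⟩,.e ⟨false,1,⟨1,[(55,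
  0),(0,0)]⟩,⟨0,[(58,0)]⟩⟩ ⟨false,1,⟨0,[(2,0),(51,0)]⟩,⟨29,[(1,3),(2,0),(2,12),(1,1),(1,1),(7,0),(5,
  10),(2,0),(7,1),(3,2)]⟩⟩,.a ⟨true,0,⟨0,[(30,0)]⟩,⟨0,[(0,0)]⟩⟩ ⟨false,1,⟨1,[(3,0),(7,0),(44,0)]⟩,
  ⟨0,[]⟩⟩ ⟨true,0,⟨0,[(0,0),(16,0)]⟩,⟨29,[(1,3),(2,0),(2,12),(1,1),(1,1),(7,0),(5,10),(2,0),(7,1),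
  (3,2)]⟩⟩,.o ⟨false,0,⟨75,[(4,2),(2,37),(6,16),(1,5),(5,5),(14,10),(12,11),(6,12)]⟩,⟨0,[(2,
  0)]⟩⟩]⟩) (.S ⟨1,0,[1],[0,0,0,0,1],[1,0,1],(⟨0,[(32,0)]⟩,⟨0,[(31,0)]⟩),⟨0,[(1,0)]⟩,.k,(.r (-1) ⟨14,
  [(4,0),(2,0),(1,1),(3,4),(6,1),(8,6),(21,0),(3,3)]⟩ ⟨1,[(12,0),(3,0),(13,0),(23,0)]⟩),⟨true,0,⟨2,
  [(14,0),(11,0),(9,0)]⟩,⟨0,[(47,0)]⟩⟩,⟨false,1,⟨1,[(3,0),(7,0),(44,0)]⟩,⟨0,[]⟩⟩,⟨false,0,⟨1,[(16,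
  0),(37,0),(1,0)]⟩,⟨14,[(4,0),(2,0),(1,1),(3,4),(6,1),(8,6),(21,0),(3,3)]⟩⟩,⟨true,0,⟨0,[(54,0)]⟩,
  ⟨0,[(53,0)]⟩⟩,[.o ⟨false,0,⟨0,[(0,0)]⟩,⟨0,[(12,0)]⟩⟩,.a ⟨true,0,⟨1,[(0,1),(48,0),(6,0)]⟩,⟨0,[(8,
  0)]⟩⟩ ⟨true,0,⟨0,[(52,0)]⟩,⟨0,[(58,0)]⟩⟩ ⟨false,1,⟨1,[(55,0),(0,0)]⟩,⟨0,[(58,0)]⟩⟩,.o ⟨false,0,⟨0,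
  [(0,0)]⟩,⟨0,[(29,0)]⟩⟩,.o ⟨false,0,⟨75,[(4,2),(2,37),(6,16),(1,5),(5,5),(14,10),(12,11),(6,12)]⟩,
  ⟨0,[(2,0)]⟩⟩]⟩)) (.Q [-1,0,0,0,0,0,0,0,-1,1,0,-1] (.p false [0,0,0,0,1] [1] (⟨0,[(31,0)]⟩,⟨0,[(30,
  0)]⟩) .k 1 (⟨0,[]⟩,⟨0,[]⟩) .k .k) (.R ⟨0,false,false,true,[0,0,0,0,1],[0,1],[],(⟨0,[(32,0)]⟩,⟨0,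
  [(31,0)]⟩),(⟨0,[(43,0)]⟩,⟨0,[(42,0)]⟩),⟨0,[(1,0)]⟩,.k,.k,(.r (-1) ⟨14,[(4,0),(2,0),(1,1),(3,4),(6,
  1),(8,6),(21,0),(3,3)]⟩ ⟨1,[(12,0),(3,0),(13,0),(23,0)]⟩),(.r (-1) ⟨14,[(4,0),(2,0),(1,1),(3,4),
  (6,1),(8,6),(21,0),(3,3)]⟩ ⟨1,[(12,0),(3,0),(13,0),(23,0)]⟩),.k,.k,⟨false,2,⟨27,[(4,0),(4,1),(10,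
  19),(5,8),(14,4),(13,24),(0,3)]⟩,⟨0,[(16,0),(30,0)]⟩⟩,⟨true,1,⟨0,[(2,0)]⟩,⟨61,[(4,1),(2,30),(8,
  59),(1,3),(0,2),(5,25),(2,2),(7,3),(3,8),(4,1)]⟩⟩,⟨false,1,⟨1,[(12,0),(17,0),(14,0)]⟩,⟨0,[]⟩⟩,
  ⟨true,0,⟨0,[(0,0),(16,0)]⟩,⟨0,[(13,0)]⟩⟩,⟨false,0,⟨0,[]⟩,⟨0,[]⟩⟩,⟨false,0,⟨0,[]⟩,⟨0,[]⟩⟩,[.o
  ⟨false,0,⟨0,[(17,0)]⟩,⟨33,[(4,3),(4,1),(10,19),(3,5),(1,5),(14,4),(14,6)]⟩⟩,.e ⟨false,1,⟨1,[(55,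
  0),(0,0)]⟩,⟨0,[(58,0)]⟩⟩ ⟨false,1,⟨0,[(2,0),(51,0)]⟩,⟨101,[(4,2),(2,50),(1,1),(8,3),(0,4),(5,42),
  (2,4),(7,5),(3,14),(4,1)]⟩⟩,.a ⟨true,0,⟨0,[(30,0)]⟩,⟨0,[(0,0)]⟩⟩ ⟨false,1,⟨1,[(3,0),(7,0),(44,
  0)]⟩,⟨0,[]⟩⟩ ⟨true,0,⟨0,[(0,0),(16,0)]⟩,⟨101,[(4,2),(2,50),(1,1),(8,3),(0,4),(5,42),(2,4),(7,5),
  (3,14),(4,1)]⟩⟩,.o ⟨false,0,⟨75,[(4,2),(2,37),(6,16),(1,5),(5,5),(14,10),(12,11),(6,12)]⟩,⟨0,[(2,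
  0)]⟩⟩]⟩) (.Q [-1,1,0,1,0,0,0,0,-1,0,0,-1] (.p false [0,0,0,0,1] [] (⟨0,[(32,0)]⟩,⟨0,[(31,0)]⟩) .k
  0 (⟨0,[]⟩,⟨0,[]⟩) .k .k) (.Q [-1,-1,0,0,1,0,0,0,-1,0,0,-1] (.p false [0,0,0,0,1] [] (⟨0,[(33,0)]⟩,
  ⟨0,[(32,0)]⟩) .k 0 (⟨0,[]⟩,⟨0,[]⟩) .k .k) (.R ⟨1,false,false,true,[1,0,-1],[0,0,0,0,1],[1,1,0,-1,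
  0,0,0,-1],(⟨0,[(40,0)]⟩,⟨0,[(41,0)]⟩),(⟨0,[(34,0)]⟩,⟨0,[(33,0)]⟩),⟨0,[(29,0)]⟩,.k,.k,.k,.k,(.r
  (-2) ⟨11,[(8,5),(0,3),(4,6),(7,11),(8,0),(11,0),(9,5),(3,2)]⟩ ⟨0,[(24,0),(31,0)]⟩),.k,⟨true,1,⟨35,
  [(8,14),(0,0),(6,5),(5,29),(0,5),(7,1),(11,3),(9,11)]⟩,⟨0,[(24,0),(31,0)]⟩⟩,⟨false,1,⟨0,[(2,0),
  (35,0),(18,0)]⟩,⟨8,[(0,5),(0,2),(6,1),(11,2),(3,0),(3,1),(6,0),(15,1)]⟩⟩,⟨true,0,⟨0,[(55,0)]⟩,⟨0,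
  [(56,0)]⟩⟩,⟨false,0,⟨0,[(2,0),(21,0),(13,0),(18,0)]⟩,⟨1,[(0,0),(7,0),(1,0),(47,0)]⟩⟩,⟨false,0,⟨0,
  []⟩,⟨1,[(5,0),(7,0),(44,0)]⟩⟩,⟨false,0,⟨0,[(2,0),(21,0),(13,0),(17,0),(0,0)]⟩,⟨1,[(0,0),(5,0),(3,
  0),(47,0)]⟩⟩,[.o ⟨false,0,⟨21,[(9,10),(6,2),(2,3),(0,1),(2,1),(15,0),(3,1),(9,6)]⟩,⟨0,[(0,0)]⟩⟩,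
  .o ⟨false,0,⟨0,[(2,0)]⟩,⟨0,[(14,0)]⟩⟩,.o ⟨false,0,⟨5,[(8,0),(15,1),(3,0),(6,1),(7,1)]⟩,⟨1,[(38,1),
  (4,0),(13,0)]⟩⟩,.a ⟨true,(-1),⟨8,[(6,1),(11,3),(5,3),(3,0),(6,2),(6,0),(1,0),(6,0)]⟩,⟨0,[(38,0),
  (18,0)]⟩⟩ ⟨true,1,⟨3,[(6,1),(31,3),(4,0),(9,1),(3,2)]⟩,⟨0,[(24,0),(31,0)]⟩⟩ ⟨false,1,⟨0,[(2,0),
  (35,0),(18,0)]⟩,⟨13,[(0,10),(5,0),(1,3),(1,2),(7,1),(5,9),(3,1),(18,2),(3,1)]⟩⟩]⟩) (.R ⟨2,true,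
  false,true,[0,1],[0,0,0,0,1],[1,1,1],(⟨0,[]⟩,⟨0,[]⟩),(⟨0,[(34,0)]⟩,⟨0,[(33,0)]⟩),⟨0,[]⟩,.k,.k,.k,
  (.r 0 ⟨1,[(14,0),(3,0),(13,0),(23,0)]⟩ ⟨14,[(6,0),(2,0),(1,1),(3,4),(6,1),(8,6),(21,0),(3,3)]⟩),
  .k,.k,⟨true,0,⟨2,[(16,0),(11,0),(9,0)]⟩,⟨0,[]⟩⟩,⟨false,0,⟨0,[(32,0)]⟩,⟨0,[(4,0)]⟩⟩,⟨true,0,⟨0,
  [(55,0)]⟩,⟨0,[(56,0)]⟩⟩,⟨false,0,⟨0,[(15,0)]⟩,⟨0,[(1,0),(56,0)]⟩⟩,⟨false,0,⟨0,[]⟩,⟨1,[(5,0),(7,0),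
  (44,0)]⟩⟩,⟨true,(-1),⟨0,[(0,0)]⟩,⟨0,[(14,0)]⟩⟩,[]⟩)) (.R ⟨2,true,false,true,[0,1],[0,0,0,0,1],[1,
  1,1],(⟨0,[]⟩,⟨0,[]⟩),(⟨0,[(33,0)]⟩,⟨0,[(32,0)]⟩),⟨0,[]⟩,.k,.k,.k,(.r 0 ⟨1,[(13,0),(3,0),(13,0),
  (23,0)]⟩ ⟨14,[(5,0),(2,0),(1,1),(3,4),(6,1),(8,6),(21,0),(3,3)]⟩),.k,.k,⟨true,0,⟨2,[(15,0),(11,0),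
  (9,0)]⟩,⟨0,[]⟩⟩,⟨false,0,⟨0,[(31,0)]⟩,⟨0,[(3,0)]⟩⟩,⟨true,0,⟨0,[(54,0)]⟩,⟨0,[(55,0)]⟩⟩,⟨false,0,⟨0,
  [(14,0)]⟩,⟨1,[(3,1),(13,0),(37,0),(1,0)]⟩⟩,⟨false,0,⟨0,[]⟩,⟨1,[(4,0),(7,0),(44,0)]⟩⟩,⟨true,(-1),
  ⟨0,[(0,0),(16,0),(30,1)]⟩,⟨0,[(13,0)]⟩⟩,[]⟩)))) (.S ⟨1,0,[1,1],[0,0,0,0,1],[],(⟨0,[(30,0)]⟩,⟨0,
  [(29,0)]⟩),⟨1,[(0,1),(0,0)]⟩,.k,(.r (-1) ⟨14,[(2,0),(2,0),(1,1),(3,4),(6,1),(8,6),(21,0),(3,3)]⟩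
  ⟨1,[(10,0),(3,0),(13,0),(23,0)]⟩),⟨false,1,⟨1,[(10,0),(17,0),(14,0)]⟩,⟨0,[]⟩⟩,⟨true,0,⟨0,[(56,
  0)]⟩,⟨0,[]⟩⟩,⟨true,0,⟨0,[(14,0),(28,0),(1,1)]⟩,⟨0,[(51,0)]⟩⟩,⟨false,0,⟨0,[(52,0)]⟩,⟨33,[(2,3),(4,
  1),(10,19),(3,5),(1,5),(14,4),(14,6)]⟩⟩,[.e ⟨false,1,⟨1,[(1,0),(7,0),(43,0)]⟩,⟨0,[]⟩⟩ ⟨false,0,⟨0,
  [(45,0)]⟩,⟨1,[(1,0),(7,0),(44,0)]⟩⟩,.o ⟨false,0,⟨1,[(0,1),(38,0),(13,0)]⟩,⟨0,[(10,0)]⟩⟩,.e ⟨false,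
  1,⟨1,[(1,0),(7,0),(44,0)]⟩,⟨0,[]⟩⟩ ⟨false,0,⟨0,[]⟩,⟨1,[(1,0),(7,0),(44,0)]⟩⟩,.a ⟨true,(-1),⟨0,[(0,
  0)]⟩,⟨1,[(6,1),(46,0),(0,0)]⟩⟩ ⟨false,1,⟨1,[(53,0),(0,0)]⟩,⟨2,[(12,0),(11,0),(9,0)]⟩⟩ ⟨true,0,⟨0,
  [(45,0)]⟩,⟨2,[(12,0),(11,0),(9,0)]⟩⟩]⟩))))))) (.R ⟨1,false,false,true,[1,0,-1],[1,0,0,0,-1],[1,1,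
  0,-1,0,0,0,-1],(⟨0,[(30,0)]⟩,⟨0,[(31,0)]⟩),(⟨0,[(23,0)]⟩,⟨0,[(24,0)]⟩),⟨0,[(19,0)]⟩,.k,.k,.k,.k,
  (.r (-2) ⟨1,[(12,1),(8,0),(0,0),(4,1),(19,0)]⟩ ⟨0,[(1,0),(6,3),(28,1),(1,3)]⟩),.k,⟨true,1,⟨0,[(12,
  0),(14,0)]⟩,⟨0,[(1,0),(6,3),(28,1),(1,3)]⟩⟩,⟨false,2,⟨0,[(21,0),(6,0),(18,0)]⟩,⟨6,[(0,6),(6,2),(0,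
  0),(1,4),(14,1),(1,1),(13,0),(4,9)]⟩⟩,⟨true,0,⟨0,[(45,0)]⟩,⟨0,[(46,0)]⟩⟩,⟨false,1,⟨0,[(14,0),(6,
  0),(6,0),(18,0)]⟩,⟨4,[(0,4),(6,0),(19,3),(9,1),(3,1),(4,1)]⟩⟩,⟨false,0,⟨0,[]⟩,⟨1,[(21,0),(0,0),
  (25,0)]⟩⟩,⟨false,1,⟨0,[(14,0),(6,0),(6,0),(17,0),(0,0)]⟩,⟨4,[(0,4),(6,2),(19,1),(9,0),(3,0),(4,
  0)]⟩⟩,[.o ⟨false,1,⟨0,[(21,0),(28,0)]⟩,⟨0,[(0,0)]⟩⟩,.o ⟨false,1,⟨0,[(4,0)]⟩,⟨1,[(0,0),(4,0),(3,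
  0)]⟩⟩,.o ⟨false,0,⟨4,[(8,0),(4,0),(0,0),(10,3),(7,1),(4,0)]⟩,⟨1,[(28,1),(4,0),(13,0)]⟩⟩,.a ⟨true,
  (-1),⟨2,[(7,0),(0,1),(5,0),(10,1)]⟩,⟨0,[(28,0),(18,0)]⟩⟩ ⟨true,1,⟨0,[(13,0),(14,0),(18,0)]⟩,⟨0,
  [(14,0),(31,0)]⟩⟩ ⟨false,2,⟨0,[(21,0),(6,0),(18,0)]⟩,⟨2,[(0,2),(6,0),(0,1),(5,0),(10,1)]⟩⟩]⟩))))
  (.S ⟨1,0,[1,1],[0,0,0,0,1],[],(⟨0,[(21,0)]⟩,⟨0,[(20,0)]⟩),⟨1,[(0,0),(1,1),(2,1),(28,0),(1,1)]⟩,.k,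
  (.r (-1) ⟨11,[(2,3),(1,1),(4,1),(2,1),(5,3),(11,0),(13,4)]⟩ ⟨2,[(3,0),(11,0),(9,0),(17,2)]⟩),
  ⟨false,1,⟨1,[(1,0),(17,0),(25,0)]⟩,⟨0,[]⟩⟩,⟨true,0,⟨0,[(47,0)]⟩,⟨0,[]⟩⟩,⟨true,0,⟨0,[(5,0),(28,0),
  (1,1)]⟩,⟨0,[(42,0)]⟩⟩,⟨false,0,⟨0,[(43,0)]⟩,⟨3,[(9,1),(4,0),(0,0),(14,0),(14,0)]⟩⟩,[.e ⟨false,1,
  ⟨1,[(18,0),(0,0),(24,0)]⟩,⟨0,[]⟩⟩ ⟨false,0,⟨0,[(36,0)]⟩,⟨1,[(18,0),(0,0),(25,0)]⟩⟩,.a ⟨true,0,⟨0,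
  [(19,0)]⟩,⟨19,[(0,9),(3,0),(0,8),(1,0),(6,2),(5,19),(4,0),(3,7),(5,0),(1,3)]⟩⟩ ⟨false,1,⟨1,[(44,
  0),(0,0)]⟩,⟨0,[(47,0)]⟩⟩ ⟨true,0,⟨0,[]⟩,⟨2,[(3,0),(11,0),(9,0)]⟩⟩,.e ⟨false,1,⟨1,[(18,0),(0,0),
  (25,0)]⟩,⟨0,[]⟩⟩ ⟨false,0,⟨0,[]⟩,⟨1,[(18,0),(0,0),(25,0)]⟩⟩,.o ⟨false,0,⟨1,[(2,0),(2,0),(13,0),
  (19,0)]⟩,⟨7,[(0,2),(0,0),(16,0),(1,5),(9,1),(6,1),(6,0)]⟩⟩]⟩))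

theorem ok26 : chk K t26 r21 = true := by decide +kernel


end Helper48.Y.Y11_c35_P3_m1n1_CB
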