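import Pool.Agent.Helper48.Y.Y11_c35_P3_m1n1_CC_q

set_option autoImplicit false
set_option linter.all false

namespace Helper48.Y.Y11_c35_P3_m1n1_CC

open Helper25.KG Helper25.KW Helper55.KE Helper11.CT

noncomputable def t0 : Tre :=
  (.Q [0,0,0,0,0,0,-1,-1,0,0,-1] (.p false [0,0,1] [] (⟨0,[(14,0)]⟩,⟨0,[(13,0)]⟩) .k 0 (⟨0,[]⟩,⟨0,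
  []⟩) .k .k) (.K ⟨0,[0,1,1],0,0,(⟨22,[(5,2),(0,2),(8,22),(0,4),(5,5),(0,2)]⟩,⟨0,[(3,0)]⟩),.k,.k,
  (.r 0 ⟨0,[(10,0),(2,0),(12,0),(1,1)]⟩ ⟨1,[(0,1),(0,3),(7,1),(7,0),(11,0)]⟩),.k,.k,[⟨1,[(12,0),(0,
  0)]⟩,⟨0,[(1,0),(26,0)]⟩,⟨0,[(0,0),(26,0)]⟩,⟨0,[(10,0),(17,0)]⟩]⟩) (.Q [0,1,0,-1,0,0,-1,-1,0,0,-1]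
  (.p false [0,0,1] [] (⟨0,[(15,0)]⟩,⟨0,[(14,0)]⟩) .k 0 (⟨0,[]⟩,⟨0,[]⟩) .k .k) (.I [0,0,2,0,-1,2,
  -1] (.K ⟨0,[0,1,1],0,0,(⟨9,[(0,1),(13,1),(2,7),(6,1),(0,0),(5,2)]⟩,⟨0,[(5,0)]⟩),.k,.k,(.x (-2) ⟨3,
  [(3,1),(1,5),(0,1),(7,1),(4,2),(10,1),(0,4)]⟩ ⟨0,[(0,0)]⟩),.k,.k,[⟨1,[(14,0),(0,0)]⟩,⟨0,[(3,0),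
  (26,0)]⟩,⟨0,[(1,0)]⟩,⟨0,[(12,0),(17,0)]⟩]⟩) (.K ⟨0,[0,1,1],0,0,(⟨22,[(7,2),(0,2),(8,22),(0,4),(5,
  5),(0,2)]⟩,⟨0,[(5,0)]⟩),.k,.k,(.r 0 ⟨1,[(2,1),(11,0),(0,2),(14,3)]⟩ ⟨0,[(0,0),(0,0),(1,0),(2,0),
  (4,0),(11,0),(0,0)]⟩),.k,.k,[⟨1,[(14,0),(0,0)]⟩,⟨0,[(3,0),(26,0)]⟩,⟨0,[(1,0)]⟩,⟨0,[(12,0),(17,
  0)]⟩]⟩)) (.R ⟨2,false,false,false,[0,1],[0,1,1],[0,1],(⟨0,[]⟩,⟨0,[]⟩),(⟨22,[(6,2),(0,2),(8,22),(0,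
  4),(5,5),(0,2)]⟩,⟨0,[(4,0)]⟩),⟨0,[]⟩,.k,.k,.k,.k,.k,.k,⟨false,1,⟨0,[(2,0),(9,0),(17,0)]⟩,⟨0,[(0,
  0),(13,0)]⟩⟩,⟨true,0,⟨0,[(2,0),(26,0)]⟩,⟨0,[(14,0)]⟩⟩,⟨false,1,⟨1,[(28,1),(1,0),(0,0)]⟩,⟨0,[(27,
  0),(1,0)]⟩⟩,⟨true,0,⟨0,[(1,0)]⟩,⟨0,[(12,0)]⟩⟩,⟨false,1,⟨1,[(6,0),(0,0),(22,0)]⟩,⟨0,[(27,0)]⟩⟩,
  ⟨false,0,⟨0,[(0,0)]⟩,⟨0,[(12,0),(15,0),(2,0)]⟩⟩,[.a ⟨true,0,⟨1,[(0,0),(10,0),(17,0)]⟩,⟨0,[(2,0),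
  (7,0),(1,0),(14,0)]⟩⟩ ⟨true,0,⟨0,[(33,0)]⟩,⟨0,[(27,0)]⟩⟩ ⟨false,0,⟨1,[(0,0),(10,0),(17,0)]⟩,⟨1,
  [(2,1),(7,1),(1,1),(5,0),(12,0)]⟩⟩,.e ⟨false,1,⟨1,[(6,0),(0,0),(22,0)]⟩,⟨0,[]⟩⟩ ⟨false,0,⟨0,[(0,
  0)]⟩,⟨1,[(12,1),(15,1),(1,0),(0,0)]⟩⟩,.o ⟨false,1,⟨1,[(18,0),(11,0)]⟩,⟨1,[(13,0),(0,0)]⟩⟩,.fo]⟩)))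

theorem ok0 : chk K t0 l0 = true := by decide +kernel

noncomputable def t1 : Tre :=
  (.I [1,-1,-1,-1,1,0,0,1] (.I [1,0,0,0,0,0,0,-1] (.S ⟨1,0,[0,1,0,0,0,0,0,1],[0,0,1],[1,0,0,-1,0,0,
  0,1],(⟨0,[(25,0)]⟩,⟨0,[(24,0)]⟩),⟨0,[(14,0)]⟩,.k,.k,⟨false,1,⟨5,[(3,1),(6,1),(12,1),(3,0),(12,
  2)]⟩,⟨0,[(38,0)]⟩⟩,⟨true,0,⟨0,[(42,0)]⟩,⟨0,[]⟩⟩,⟨true,0,⟨0,[]⟩,⟨0,[(42,0)]⟩⟩,⟨false,0,⟨0,[(38,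
  0)]⟩,⟨5,[(3,1),(6,1),(12,1),(3,0),(12,2)]⟩⟩,[.a ⟨true,0,⟨0,[(20,0)]⟩,⟨5,[(2,0),(4,0),(0,3),(10,1),
  (11,3),(1,1),(6,0)]⟩⟩ ⟨false,1,⟨0,[(6,0)]⟩,⟨0,[(0,0),(37,0)]⟩⟩ ⟨true,0,⟨0,[(9,0)]⟩,⟨0,[(0,0),(35,
  0)]⟩⟩,.o ⟨false,1,⟨1,[(20,1),(6,0),(12,0)]⟩,⟨0,[(8,0)]⟩⟩,.o ⟨false,1,⟨5,[(3,1),(3,1),(12,1),(1,1),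
  (4,2),(12,0)]⟩,⟨0,[(5,0)]⟩⟩,.e ⟨false,1,⟨0,[(1,0)]⟩,⟨1,[(7,1),(14,0),(0,0)]⟩⟩ ⟨false,1,⟨3,[(6,1),
  (4,1),(8,1),(18,0),(0,0)]⟩,⟨0,[(0,0),(35,0)]⟩⟩]⟩) (.Q [0,-1,-1,-1,1,0,1,0,0,0,1] (.p true [0,0,1]
  [] (⟨0,[(25,0)]⟩,⟨0,[(24,0)]⟩) .k 0 (⟨0,[]⟩,⟨0,[]⟩) .k .k) (.R ⟨1,false,false,false,[1,0,-1],[1,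
  -1],[0,1,0,0,0,0,0,-1],(⟨0,[(25,0)]⟩,⟨0,[(26,0)]⟩),(⟨0,[(29,0)]⟩,⟨0,[(30,0)]⟩),⟨0,[(14,0)]⟩,.k,.k,
  .k,.k,.k,.k,⟨false,0,⟨0,[(8,0),(34,0)]⟩,⟨0,[(2,0)]⟩⟩,⟨true,0,⟨0,[(23,0)]⟩,⟨0,[(6,0)]⟩⟩,⟨true,0,⟨0,
  [(43,0)]⟩,⟨0,[]⟩⟩,⟨false,1,⟨0,[(2,0),(20,0)]⟩,⟨1,[(8,0),(0,0),(2,0)]⟩⟩,⟨false,0,⟨0,[(39,0)]⟩,⟨5,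
  [(4,1),(6,1),(12,1),(3,0),(12,2)]⟩⟩,⟨false,1,⟨0,[(21,0),(19,0)]⟩,⟨0,[(9,0)]⟩⟩,[.a ⟨true,0,⟨6,[(4,
  0),(6,2),(1,0),(9,0),(3,0),(1,0),(4,0)]⟩,⟨0,[(39,0)]⟩⟩ ⟨true,0,⟨0,[(8,0),(29,0)]⟩,⟨0,[(1,0),(35,
  0)]⟩⟩ ⟨false,1,⟨0,[(4,0)]⟩,⟨0,[(12,0)]⟩⟩,.e ⟨false,1,⟨1,[(3,0),(4,0),(7,0),(0,0)]⟩,⟨0,[(1,0)]⟩⟩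
  ⟨false,1,⟨0,[(0,0)]⟩,⟨0,[(12,0),(30,0)]⟩⟩,.o ⟨false,0,⟨0,[(6,0)]⟩,⟨5,[(4,1),(3,1),(12,1),(1,1),(4,
  2),(12,0)]⟩⟩,.e ⟨false,1,⟨1,[(3,0),(4,0),(7,0),(0,0)]⟩,⟨0,[(1,0),(35,0)]⟩⟩ ⟨false,1,⟨0,[(0,0)]⟩,
  ⟨1,[(12,1),(10,0),(0,0)]⟩⟩]⟩) (.Q [0,-1,0,-1,0,0,0,0,0,1] (.pp false [-1,1]) (.R ⟨1,false,false,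
  false,[1,0,-1],[1,-1],[0,1,0,0,0,0,0,-1],(⟨0,[(26,0)]⟩,⟨0,[(27,0)]⟩),(⟨0,[(30,0)]⟩,⟨0,[(31,0)]⟩),
  ⟨0,[(15,0)]⟩,.k,.k,.k,.k,.k,.k,⟨false,0,⟨0,[(9,0),(34,0)]⟩,⟨0,[(3,0)]⟩⟩,⟨true,0,⟨0,[(24,0)]⟩,⟨0,
  [(7,0)]⟩⟩,⟨true,0,⟨0,[(44,0)]⟩,⟨0,[]⟩⟩,⟨false,1,⟨0,[(3,0),(20,0)]⟩,⟨1,[(9,0),(0,0),(2,0)]⟩⟩,
  ⟨false,0,⟨0,[(40,0)]⟩,⟨5,[(5,1),(6,1),(12,1),(3,0),(12,2)]⟩⟩,⟨false,1,⟨0,[(22,0),(19,0)]⟩,⟨0,[(10,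
  0)]⟩⟩,[.a ⟨true,0,⟨6,[(5,0),(6,2),(1,0),(9,0),(3,0),(1,0),(4,0)]⟩,⟨0,[(40,0)]⟩⟩ ⟨true,0,⟨0,[(9,0),
  (29,0)]⟩,⟨0,[(2,0),(35,0)]⟩⟩ ⟨false,1,⟨0,[(5,0)]⟩,⟨0,[(13,0)]⟩⟩,.a ⟨true,0,⟨0,[(0,0)]⟩,⟨1,[(9,0),
  (3,0),(8,0),(21,0)]⟩⟩ ⟨false,1,⟨1,[(4,0),(4,0),(7,0),(0,0)]⟩,⟨0,[(2,0)]⟩⟩ ⟨true,1,⟨3,[(0,1),(4,1),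
  (18,1),(4,0),(12,0)]⟩,⟨0,[(1,0)]⟩⟩,.o ⟨false,0,⟨0,[(7,0)]⟩,⟨5,[(5,1),(3,1),(12,1),(1,1),(4,2),(12,
  0)]⟩⟩,.a ⟨true,(-1),⟨0,[(0,0),(0,0)]⟩,⟨3,[(5,1),(3,1),(12,1),(18,0),(0,0)]⟩⟩ ⟨false,1,⟨1,[(4,0),
  (4,0),(7,0),(0,0)]⟩,⟨0,[(2,0),(35,0)]⟩⟩ ⟨true,1,⟨0,[(5,0)]⟩,⟨0,[(1,0)]⟩⟩]⟩) (.Q [0,-1,0,1,0,0,-1,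
  -1,0,0,-1] (.p false [0,0,1] [] (⟨0,[(27,0)]⟩,⟨0,[(26,0)]⟩) .k 0 (⟨0,[]⟩,⟨0,[]⟩) .k .k) (.R ⟨2,
  true,false,true,[0,1],[0,0,1],[0,1,1,1],(⟨0,[]⟩,⟨0,[]⟩),(⟨0,[(28,0)]⟩,⟨0,[(27,0)]⟩),⟨0,[]⟩,.k,.k,
  .k,.k,.k,.k,⟨false,0,⟨0,[(1,1),(3,0),(28,1),(1,0)]⟩,⟨0,[(9,0)]⟩⟩,⟨true,0,⟨0,[(25,0)]⟩,⟨0,[(8,
  0)]⟩⟩,⟨true,0,⟨0,[(45,0)]⟩,⟨0,[]⟩⟩,⟨false,1,⟨0,[(9,0),(15,0)]⟩,⟨0,[(0,0)]⟩⟩,⟨false,0,⟨0,[(41,0)]⟩,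
  ⟨5,[(6,1),(6,1),(12,1),(3,0),(12,2)]⟩⟩,⟨true,0,⟨0,[(23,0)]⟩,⟨0,[(11,0)]⟩⟩,[]⟩) (.S ⟨1,0,[0,0,1,1,
  0,0,0,-1],[1,1,-1],[0,1,1,1,0,0,0,-1],(⟨22,[(18,2),(0,2),(7,22),(1,4),(5,5),(0,2)]⟩,⟨0,[(17,0)]⟩),
  ⟨0,[(27,0)]⟩,.k,.k,⟨true,0,⟨0,[(45,0)]⟩,⟨0,[]⟩⟩,⟨false,1,⟨1,[(18,0),(0,0),(23,0)]⟩,⟨0,[]⟩⟩,⟨false,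
  0,⟨0,[(41,0)]⟩,⟨5,[(6,1),(6,1),(12,1),(3,0),(12,2)]⟩⟩,⟨true,0,⟨0,[(41,0)]⟩,⟨0,[(40,0)]⟩⟩,[.o
  ⟨false,0,⟨1,[(10,0),(0,0),(2,0)]⟩,⟨1,[(0,1),(29,0),(12,0)]⟩⟩,.a ⟨true,0,⟨3,[(2,0),(7,2),(0,0),(10,
  1),(11,0),(1,0),(6,1)]⟩,⟨0,[(0,0)]⟩⟩ ⟨false,0,⟨0,[(1,1),(3,0),(28,1),(1,0)]⟩,⟨0,[(9,0)]⟩⟩ ⟨true,0,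
  ⟨0,[(1,1),(3,0),(28,2),(1,0)]⟩,⟨0,[(0,0),(7,0)]⟩⟩,.e ⟨false,0,⟨1,[(10,1),(14,0),(0,0)]⟩,⟨0,[(4,
  0)]⟩⟩ ⟨false,0,⟨0,[(1,1),(3,0),(28,2),(1,0)]⟩,⟨0,[(9,0)]⟩⟩,.o ⟨false,0,⟨0,[(8,0)]⟩,⟨5,[(6,1),(3,
  1),(12,1),(1,1),(4,2),(12,0)]⟩⟩]⟩))))) (.Q [0,-1,0,1,0,0,-1,-1,0,0,-1] (.p false [0,0,1] [] (⟨0,
  [(24,0)]⟩,⟨0,[(23,0)]⟩) .k 0 (⟨0,[]⟩,⟨0,[]⟩) .k .k) (.R ⟨2,true,false,true,[0,1],[0,0,1],[1,1,1],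
  (⟨0,[]⟩,⟨0,[]⟩),(⟨0,[(25,0)]⟩,⟨0,[(24,0)]⟩),⟨0,[]⟩,.k,.k,.k,.k,.k,.k,⟨false,0,⟨1,[(1,0),(0,0),(33,
  0)]⟩,⟨3,[(6,1),(4,1),(8,1),(18,0),(0,0)]⟩⟩,⟨true,0,⟨0,[(22,0)]⟩,⟨0,[(5,0)]⟩⟩,⟨true,0,⟨0,[(37,0)]⟩,
  ⟨0,[(38,0)]⟩⟩,⟨false,1,⟨0,[(6,0),(15,0)]⟩,⟨0,[(0,0)]⟩⟩,⟨false,0,⟨0,[]⟩,⟨1,[(15,0),(0,0),(23,0)]⟩⟩,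
  ⟨true,0,⟨0,[(20,0)]⟩,⟨0,[(8,0)]⟩⟩,[]⟩) (.Q [0,-1,0,2,0,0,-1,-1,0,0,-1] (.p false [0,0,1] [] (⟨0,
  [(25,0)]⟩,⟨0,[(24,0)]⟩) .k 0 (⟨0,[]⟩,⟨0,[]⟩) .k .k) (.R ⟨1,true,false,false,[0,0,1],[0,1],[0,0,0,
  0,0,0,0,1],(⟨0,[(26,0)]⟩,⟨0,[(25,0)]⟩),(⟨0,[(30,0)]⟩,⟨0,[(29,0)]⟩),⟨0,[(15,0)]⟩,.k,.k,.k,.k,(.r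
  (-2) ⟨11,[(3,1),(0,5),(2,13),(3,0),(1,2),(14,1)]⟩ ⟨0,[(2,0),(34,0),(1,0)]⟩),.k,⟨true,1,⟨0,[(7,
  0)]⟩,⟨0,[(2,0),(34,0)]⟩⟩,⟨false,1,⟨0,[(6,0),(33,0)]⟩,⟨0,[(23,0)]⟩⟩,⟨false,1,⟨1,[(16,0),(0,0),(23,
  0)]⟩,⟨0,[]⟩⟩,⟨true,0,⟨1,[(0,0),(21,0)]⟩,⟨0,[(1,0)]⟩⟩,⟨true,0,⟨0,[(39,0)]⟩,⟨0,[(38,0)]⟩⟩,⟨false,0,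
  ⟨0,[(0,0)]⟩,⟨3,[(1,1),(5,1),(3,1),(11,1),(4,0),(12,0)]⟩⟩,[]⟩) (.Q [0,0,-1,0,1,0,1,0,0,-1,1] (.p
  true [0,0,1] [1] (⟨0,[(26,0)]⟩,⟨0,[(25,0)]⟩) .k 1 (⟨0,[]⟩,⟨0,[]⟩) .k .k) (.R ⟨1,false,false,true,
  [1,0,-1],[1,-1],[0,1,0,0,0,0,0,-1],(⟨0,[(26,0)]⟩,⟨0,[(27,0)]⟩),(⟨0,[(30,0)]⟩,⟨0,[(31,0)]⟩),⟨0,
  [(15,0)]⟩,.k,.k,.k,.k,.k,.k,⟨false,0,⟨0,[(3,0),(29,0),(7,0)]⟩,⟨0,[(8,0)]⟩⟩,⟨true,0,⟨0,[(24,0)]⟩,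
  ⟨0,[(7,0)]⟩⟩,⟨true,0,⟨0,[(44,0)]⟩,⟨0,[]⟩⟩,⟨true,0,⟨0,[(2,0)]⟩,⟨1,[(9,0),(0,0),(2,0)]⟩⟩,⟨false,0,
  ⟨0,[(40,0)]⟩,⟨5,[(5,1),(6,1),(12,1),(3,0),(12,2)]⟩⟩,⟨true,0,⟨0,[(22,0)]⟩,⟨0,[(10,0)]⟩⟩,[.o ⟨false,
  0,⟨0,[(39,0)]⟩,⟨1,[(29,0),(10,1),(1,0)]⟩⟩,.a ⟨true,0,⟨6,[(5,0),(6,2),(1,0),(9,0),(3,0),(1,0),(4,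
  0)]⟩,⟨0,[(40,0)]⟩⟩ ⟨true,0,⟨1,[(3,0),(0,0),(33,0)]⟩,⟨0,[(11,0),(26,0)]⟩⟩ ⟨false,1,⟨0,[(5,0)]⟩,⟨0,
  [(13,0)]⟩⟩,.o ⟨false,0,⟨0,[(7,0)]⟩,⟨3,[(0,1),(16,0),(0,0),(5,1),(4,0)]⟩⟩,.o ⟨false,0,⟨0,[(25,0)]⟩,
  ⟨0,[(0,0)]⟩⟩]⟩) (.I [0,0,0,-1,0,0,0,-1] (.I [1,0,2,1,-1] (.I [0,-1,-1,-1,1] (.S ⟨1,0,[0,1,-1,-1],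
  [1,-1],[0,0,-1,-1],(⟨0,[(33,0)]⟩,⟨0,[(34,0)]⟩),⟨0,[(18,0),(0,0)]⟩,.k,(.r (-2) ⟨5,[(7,1),(0,5),(2,
  1),(3,0),(1,2),(14,1)]⟩ ⟨0,[(1,0),(41,0)]⟩),⟨false,1,⟨1,[(20,0),(0,0),(23,0)]⟩,⟨0,[]⟩⟩,⟨true,0,⟨0,
  [(47,0)]⟩,⟨0,[]⟩⟩,⟨true,0,⟨0,[(43,0)]⟩,⟨0,[(42,0)]⟩⟩,⟨false,0,⟨0,[(43,0)]⟩,⟨5,[(8,1),(6,1),(12,1),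
  (3,0),(12,2)]⟩⟩,[.o ⟨false,0,⟨0,[(42,0)]⟩,⟨1,[(32,0),(10,1),(1,0)]⟩⟩,.e ⟨true,1,⟨0,[(0,0)]⟩,⟨0,
  [(1,0),(45,0)]⟩⟩ ⟨true,1,⟨11,[(7,1),(0,5),(2,1),(3,0),(1,2),(14,1)]⟩,⟨0,[(1,0)]⟩⟩,.o ⟨false,0,⟨1,
  [(27,0),(0,0)]⟩,⟨1,[(32,0),(11,0)]⟩⟩,.a ⟨true,(-1),⟨0,[(3,0),(23,0)]⟩,⟨0,[(44,0)]⟩⟩ ⟨false,2,⟨7,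
  [(7,1),(0,3),(2,1),(5,1),(14,0),(11,2),(0,3)]⟩,⟨0,[(1,0)]⟩⟩ ⟨true,1,⟨1,[(7,0),(3,0),(28,0)]⟩,⟨0,
  [(1,0)]⟩⟩]⟩) (.Q [0,0,-1,-1,0,0,-1,0,0,1,-1] (.p false [0,0,1] [1] (⟨0,[(30,0)]⟩,⟨0,[(29,0)]⟩) .k
  1 (⟨0,[]⟩,⟨0,[]⟩) .k .k) (.Q [0,0,0,0,0,2,0,0,0,0,-1] (.p false [0,0,1] [] (⟨0,[(31,0)]⟩,⟨0,[(30,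
  0)]⟩) .k 0 (⟨0,[]⟩,⟨0,[]⟩) .k .k) (.R ⟨0,false,false,false,[0,-1,1],[1,-1],[1,1],(⟨0,[(21,0)]⟩,⟨4,
  [(0,1),(21,0),(0,0),(7,2),(1,0),(6,0)]⟩),(⟨0,[(35,0)]⟩,⟨0,[(36,0)]⟩),⟨0,[(0,0)]⟩,.k,.k,(.r (-2)
  ⟨11,[(9,1),(0,5),(2,13),(3,0),(1,2),(14,1)]⟩ ⟨0,[(2,2),(1,0),(33,2),(7,1)]⟩),.k,.k,.k,⟨true,(-1),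
  ⟨0,[(2,0)]⟩,⟨5,[(10,1),(6,1),(12,1),(3,0),(12,2)]⟩⟩,⟨false,0,⟨0,[(26,0)]⟩,⟨5,[(10,1),(3,1),(12,1),
  (1,1),(4,2),(12,0)]⟩⟩,⟨true,(-1),⟨0,[(8,0)]⟩,⟨0,[(13,0)]⟩⟩,⟨false,0,⟨3,[(5,1),(3,0),(4,0),(0,1),
  (24,0),(6,1)]⟩,⟨1,[(27,1),(6,0),(12,0)]⟩⟩,⟨false,0,⟨0,[]⟩,⟨0,[]⟩⟩,⟨false,0,⟨0,[]⟩,⟨0,[]⟩⟩,[.e
  ⟨true,0,⟨0,[(49,0)]⟩,⟨0,[(38,0)]⟩⟩ ⟨true,0,⟨0,[(1,0)]⟩,⟨1,[(3,0),(25,1),(4,0),(10,0)]⟩⟩,.o ⟨false,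
  1,⟨5,[(10,1),(6,1),(12,1),(3,0),(12,2)]⟩,⟨1,[(2,1),(31,0),(11,0)]⟩⟩,.a ⟨true,0,⟨0,[(29,0)]⟩,⟨0,
  [(26,0)]⟩⟩ ⟨false,0,⟨0,[]⟩,⟨1,[(22,0),(0,0),(23,0)]⟩⟩ ⟨true,0,⟨0,[(1,0)]⟩,⟨1,[(2,0),(11,0),(12,0),
  (1,0),(4,0)]⟩⟩,.o ⟨false,0,⟨5,[(3,2),(0,0),(1,0),(22,4),(4,2),(8,0)]⟩,⟨0,[(12,0),(33,0)]⟩⟩]⟩) (.Q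
  [-1,0,0,1,0,0,0,0,-1,0,0,-1] (.p false [0,0,0,0,1] [] (⟨0,[(25,0)]⟩,⟨0,[(24,0)]⟩) .k 0 (⟨0,[]⟩,⟨0,
  []⟩) .k .k) (.R ⟨2,true,false,true,[0,1],[0,0,0,0,1],[1,0,1],(⟨0,[]⟩,⟨0,[]⟩),(⟨0,[(26,0)]⟩,⟨0,
  [(25,0)]⟩),⟨0,[]⟩,.k,.k,.k,(.r 0 ⟨1,[(30,0),(0,0),(14,1)]⟩ ⟨11,[(10,1),(0,5),(2,1),(3,0),(1,2),
  (14,1)]⟩),.k,.k,⟨true,0,⟨0,[(39,0)]⟩,⟨0,[(50,0)]⟩⟩,⟨false,0,⟨0,[(24,0)]⟩,⟨2,[(0,1),(9,0),(3,0),(8,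
  0)]⟩⟩,⟨false,1,⟨5,[(11,1),(6,1),(12,1),(3,0),(12,2)]⟩,⟨0,[(46,0)]⟩⟩,⟨true,0,⟨0,[(24,0),(20,0)]⟩,
  ⟨0,[(0,0)]⟩⟩,⟨true,0,⟨0,[]⟩,⟨0,[(50,0)]⟩⟩,⟨false,0,⟨0,[(24,0)]⟩,⟨5,[(0,3),(17,1),(4,1),(11,0),(12,
  2)]⟩⟩,[]⟩) (.Q [0,0,1,0,-1,0,0,0,1,0,0,1] (.p true [0,0,0,0,1] [] (⟨0,[(26,0)]⟩,⟨0,[(25,0)]⟩) .k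
  0 (⟨0,[]⟩,⟨0,[]⟩) .k .k) (.Q [0,0,0,0,0,-1,0,0,0,0,0,1] (.ed false [1,-1,0,0,1] .k) (.Q [0,0,0,0,
  1,0,1,0,-1,0,1,-1] (.p true [0,0,1] [0,0,0,0,1] (⟨0,[(35,0)]⟩,⟨0,[(34,0)]⟩) .k 2 (⟨0,[(28,0)]⟩,⟨0,
  [(27,0)]⟩) .k (.r (-1) ⟨7,[(19,3),(2,1),(2,2),(0,2),(3,3),(6,0),(12,3)]⟩ ⟨1,[(7,0),(9,0)]⟩)) (.R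
  ⟨1,false,false,false,[0,0,0,0,1],[1,-1],[],(⟨0,[(29,0)]⟩,⟨0,[(28,0)]⟩),(⟨0,[(39,0)]⟩,⟨0,[(40,
  0)]⟩),⟨0,[(1,0)]⟩,.k,.k,(.r (-1) ⟨2,[(3,0),(9,0),(3,0),(8,0)]⟩ ⟨1,[(33,0),(0,0),(14,1)]⟩),(.r 0
  ⟨0,[(22,0),(10,0)]⟩ ⟨4,[(3,0),(9,1),(3,1),(8,0),(25,0)]⟩),.k,.k,⟨false,0,⟨0,[(49,0)]⟩,⟨2,[(3,0),
  (9,0),(3,0),(8,0)]⟩⟩,⟨true,0,⟨0,[(0,0),(8,0)]⟩,⟨1,[(2,1),(35,0),(11,0)]⟩⟩,⟨false,1,⟨4,[(26,1),(0,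
  1),(23,2),(1,0)]⟩,⟨0,[]⟩⟩,⟨false,1,⟨0,[(0,0),(4,0),(36,0)]⟩,⟨1,[(2,1),(35,0),(10,1),(0,0)]⟩⟩,
  ⟨true,0,⟨0,[(6,0),(35,0),(7,0)]⟩,⟨0,[(48,0)]⟩⟩,⟨false,1,⟨1,[(0,1),(8,1),(40,0),(0,0)]⟩,⟨1,[(2,1),
  (35,0),(11,0)]⟩⟩,[.e ⟨false,1,⟨1,[(26,0),(0,0),(22,0)]⟩,⟨0,[]⟩⟩ ⟨false,1,⟨0,[(0,0),(4,0)]⟩,⟨1,[(2,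
  1),(35,0),(10,1),(0,0)]⟩⟩,.o ⟨false,1,⟨5,[(3,1),(17,1),(4,1),(11,0),(12,2)]⟩,⟨1,[(6,1),(31,0),(11,
  0)]⟩⟩,.o ⟨false,0,⟨1,[(2,1),(35,0),(11,0)]⟩,⟨0,[(26,0)]⟩⟩,.a ⟨true,(-1),⟨0,[(2,0)]⟩,⟨0,[(0,0),(29,
  0)]⟩⟩ ⟨false,1,⟨1,[(50,0),(0,0)]⟩,⟨1,[(33,0),(0,0)]⟩⟩ ⟨true,1,⟨0,[(0,0),(4,0)]⟩,⟨1,[(2,1),(3,1),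
  (31,0),(11,0)]⟩⟩]⟩) (.R ⟨1,false,false,false,[0,0,0,0,1],[0,1],[],(⟨0,[(29,0)]⟩,⟨0,[(28,0)]⟩),(⟨0,
  [(40,0)]⟩,⟨0,[(39,0)]⟩),⟨0,[(1,0)]⟩,.k,.k,(.r (-1) ⟨2,[(3,0),(9,0),(3,0),(8,0)]⟩ ⟨1,[(33,0),(0,0),
  (14,1)]⟩),(.r (-1) ⟨2,[(3,0),(9,0),(3,0),(8,0)]⟩ ⟨1,[(33,0),(0,0),(14,1)]⟩),(.r (-2) ⟨2,[(3,1),(9,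
  1),(3,1),(8,1)]⟩ ⟨0,[(6,1),(35,1),(7,0)]⟩),.k,⟨true,1,⟨2,[(3,0),(9,0),(3,0),(8,0)]⟩,⟨0,[(7,0)]⟩⟩,
  ⟨false,2,⟨0,[(26,0),(23,0)]⟩,⟨0,[(2,0)]⟩⟩,⟨false,1,⟨4,[(26,1),(0,1),(23,2),(1,0)]⟩,⟨0,[]⟩⟩,⟨true,
  1,⟨0,[(26,0),(22,0)]⟩,⟨2,[(0,1),(1,0),(7,0),(0,0),(0,0),(0,0)]⟩⟩,⟨true,0,⟨0,[(6,0),(35,0),(7,0)]⟩,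
  ⟨0,[(48,0)]⟩⟩,⟨true,1,⟨0,[(26,0),(22,1)]⟩,⟨4,[(0,3),(1,0),(5,1),(1,3),(1,0),(0,0)]⟩⟩,[.a ⟨true,0,
  ⟨0,[(49,0)]⟩,⟨6,[(14,0),(6,2),(1,0),(9,0),(3,0),(1,0),(4,0)]⟩⟩ ⟨false,1,⟨1,[(26,0),(0,0),(22,0)]⟩,
  ⟨0,[]⟩⟩ ⟨true,1,⟨0,[(26,0),(22,0)]⟩,⟨2,[(0,0),(1,1),(5,0),(1,0),(36,0)]⟩⟩,.o ⟨false,1,⟨1,[(38,0),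
  (10,1),(1,0)]⟩,⟨0,[(48,0)]⟩⟩,.o ⟨false,0,⟨1,[(2,1),(35,0),(11,0)]⟩,⟨0,[(26,0)]⟩⟩,.e ⟨false,1,⟨1,
  [(50,0),(0,0)]⟩,⟨1,[(33,0),(0,0)]⟩⟩ ⟨false,2,⟨1,[(26,1),(22,1),(0,0),(0,0)]⟩,⟨2,[(0,0),(1,1),(5,
  0),(1,0),(36,0)]⟩⟩]⟩)) (.Q [1,0,0,-1,0,0,1,1,1,-1,1,1] (.p true [0,0,1] [1,0,0,0,-1] (⟨0,[(35,
  0)]⟩,⟨0,[(34,0)]⟩) .k 2 (⟨0,[(27,0)]⟩,⟨0,[(28,0)]⟩) .k (.r (-1) ⟨3,[(22,1),(2,0),(0,0),(3,3),(6,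
  0),(12,1)]⟩ ⟨0,[(5,0),(1,0),(33,0),(7,0)]⟩)) (.R ⟨0,false,false,false,[0,0,0,0,1],[0,1],[],(⟨0,
  [(29,0)]⟩,⟨0,[(28,0)]⟩),(⟨0,[(40,0)]⟩,⟨0,[(39,0)]⟩),⟨0,[(1,0)]⟩,.k,.k,(.r (-1) ⟨2,[(3,0),(9,0),(3,
  0),(8,0)]⟩ ⟨1,[(33,0),(0,0),(14,1)]⟩),(.r (-1) ⟨2,[(3,0),(9,0),(3,0),(8,0)]⟩ ⟨1,[(33,0),(0,0),(14,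
  1)]⟩),.k,.k,⟨true,1,⟨2,[(3,0),(9,0),(3,0),(8,0)]⟩,⟨0,[(7,0)]⟩⟩,⟨false,2,⟨0,[(26,0),(23,0)]⟩,⟨0,
  [(2,0)]⟩⟩,⟨false,1,⟨4,[(26,1),(0,1),(23,2),(1,0)]⟩,⟨0,[]⟩⟩,⟨true,1,⟨0,[(26,0),(22,0)]⟩,⟨0,[(0,0),
  (4,0),(6,0)]⟩⟩,⟨false,0,⟨0,[]⟩,⟨0,[]⟩⟩,⟨false,0,⟨0,[]⟩,⟨0,[]⟩⟩,[.a ⟨true,0,⟨0,[(49,0)]⟩,⟨6,[(14,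
  0),(6,2),(1,0),(9,0),(3,0),(1,0),(4,0)]⟩⟩ ⟨false,1,⟨1,[(26,0),(0,0),(22,0)]⟩,⟨0,[]⟩⟩ ⟨true,1,⟨0,
  [(26,0),(22,0)]⟩,⟨1,[(0,0),(1,0),(5,0),(0,0)]⟩⟩,.o ⟨false,1,⟨1,[(38,0),(10,1),(1,0)]⟩,⟨0,[(48,
  0)]⟩⟩,.o ⟨false,0,⟨1,[(2,1),(35,0),(11,0)]⟩,⟨0,[(26,0)]⟩⟩,.e ⟨false,1,⟨1,[(50,0),(0,0)]⟩,⟨1,[(33,
  0),(0,0)]⟩⟩ ⟨false,2,⟨1,[(26,1),(22,1),(0,0),(0,0)]⟩,⟨1,[(0,0),(1,0),(5,0),(0,0)]⟩⟩]⟩) (.S ⟨1,0,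
  [-1,1],[1,0,0,0,-1],[-1],(⟨0,[(28,0)]⟩,⟨0,[(29,0)]⟩),⟨1,[(1,0),(2,0),(19,0),(3,0)]⟩,.k,(.r (-1)
  ⟨4,[(3,0),(9,1),(3,1),(8,0),(25,0)]⟩ ⟨0,[(22,0),(10,0)]⟩),⟨false,1,⟨1,[(26,0),(0,0),(23,0)]⟩,⟨0,
  []⟩⟩,⟨true,0,⟨0,[(53,0)]⟩,⟨0,[]⟩⟩,⟨true,0,⟨0,[(49,0)]⟩,⟨0,[(48,0)]⟩⟩,⟨false,0,⟨0,[(49,0)]⟩,⟨5,[(3,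
  1),(17,1),(4,1),(11,0),(12,2)]⟩⟩,[.a ⟨true,0,⟨0,[(0,0),(10,0)]⟩,⟨1,[(2,1),(47,0),(0,0)]⟩⟩ ⟨false,
  1,⟨9,[(26,3),(0,3),(22,4),(0,0),(1,1)]⟩,⟨0,[]⟩⟩ ⟨true,0,⟨0,[(53,0)]⟩,⟨0,[(47,0)]⟩⟩,.o ⟨false,1,⟨3,
  [(0,1),(10,1),(14,1),(18,0),(5,0)]⟩,⟨1,[(2,1),(35,0),(11,0)]⟩⟩,.o ⟨false,1,⟨0,[(26,0)]⟩,⟨1,[(2,1),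
  (35,0),(11,0)]⟩⟩,.e ⟨false,1,⟨0,[(42,0),(7,0)]⟩,⟨1,[(33,0),(0,0)]⟩⟩ ⟨false,1,⟨9,[(26,3),(0,3),(22,
  4),(0,0),(1,1)]⟩,⟨0,[(47,0)]⟩⟩]⟩))) (.Q [-1,0,0,0,0,0,0,0,-1,1,0,-1] (.p false [0,0,0,0,1] [1]
  (⟨0,[(27,0)]⟩,⟨0,[(26,0)]⟩) .k 1 (⟨0,[]⟩,⟨0,[]⟩) .k .k) (.Q [0,0,0,0,0,-1,0,0,0,0,0,1] (.ed false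
  [1,-1,0,0,1] .k) (.S ⟨1,0,[1,1],[0,0,0,0,1],[],(⟨0,[(29,0)]⟩,⟨0,[(28,0)]⟩),⟨0,[(0,0)]⟩,.k,(.r
  (-1) ⟨2,[(3,0),(9,0),(3,0),(8,0)]⟩ ⟨1,[(33,0),(0,0),(14,1)]⟩),⟨false,1,⟨4,[(26,1),(0,1),(23,2),(1,
  0)]⟩,⟨0,[]⟩⟩,⟨true,0,⟨0,[(53,0)]⟩,⟨0,[]⟩⟩,⟨true,0,⟨0,[(6,0),(35,0),(7,0)]⟩,⟨0,[(48,0)]⟩⟩,⟨false,0,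
  ⟨0,[(49,0)]⟩,⟨5,[(3,1),(17,1),(4,1),(11,0),(12,2)]⟩⟩,[.o ⟨false,0,⟨1,[(3,1),(2,1),(31,0),(11,0)]⟩,
  ⟨1,[(1,1),(36,0),(12,0)]⟩⟩,.a ⟨true,0,⟨0,[(27,0)]⟩,⟨0,[(1,0)]⟩⟩ ⟨false,1,⟨1,[(50,0),(0,0)]⟩,⟨0,
  [(53,0)]⟩⟩ ⟨true,0,⟨0,[]⟩,⟨1,[(33,0),(0,0)]⟩⟩,.e ⟨false,1,⟨1,[(26,0),(0,0),(23,0)]⟩,⟨0,[]⟩⟩
  ⟨false,0,⟨0,[]⟩,⟨1,[(26,0),(0,0),(23,0)]⟩⟩,.o ⟨false,0,⟨1,[(3,0),(3,0),(19,0),(17,0)]⟩,⟨0,[(2,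
  0)]⟩⟩]⟩) (.Q [0,0,0,-1,0,0,0,0,-1,1,0,-1] (.p false [0,0,0,0,1] [1] (⟨0,[(29,0)]⟩,⟨0,[(28,0)]⟩)
  .k 1 (⟨0,[]⟩,⟨0,[]⟩) .k .k) (.S ⟨1,0,[-1,1],[1,0,0,0,-1],[-1],(⟨0,[(29,0)]⟩,⟨0,[(30,0)]⟩),⟨1,[(1,
  0),(3,0),(19,0),(3,0)]⟩,.k,(.r (-1) ⟨4,[(4,0),(9,1),(3,1),(8,0),(25,0)]⟩ ⟨0,[(23,0),(10,0)]⟩),
  ⟨false,1,⟨1,[(27,0),(0,0),(23,0)]⟩,⟨0,[]⟩⟩,⟨true,0,⟨0,[(54,0)]⟩,⟨0,[]⟩⟩,⟨true,0,⟨0,[(50,0)]⟩,⟨0,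
  [(49,0)]⟩⟩,⟨false,0,⟨0,[(50,0)]⟩,⟨5,[(4,1),(17,1),(4,1),(11,0),(12,2)]⟩⟩,[.o ⟨false,0,⟨1,[(0,1),
  (6,1),(38,0),(4,0)]⟩,⟨1,[(28,1),(10,0),(12,0)]⟩⟩,.e ⟨false,1,⟨0,[(43,0),(7,0)]⟩,⟨0,[(54,0)]⟩⟩
  ⟨false,1,⟨9,[(27,3),(0,3),(22,4),(0,0),(1,1)]⟩,⟨0,[]⟩⟩,.a ⟨true,0,⟨0,[(2,0)]⟩,⟨0,[(28,0)]⟩⟩
  ⟨false,1,⟨4,[(27,1),(0,1),(23,2),(1,0)]⟩,⟨0,[]⟩⟩ ⟨true,0,⟨0,[(54,0)]⟩,⟨0,[]⟩⟩,.o ⟨false,0,⟨1,[(0,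
  0),(1,0),(5,0),(30,0)]⟩,⟨1,[(28,1),(10,0),(11,0)]⟩⟩]⟩) (.R ⟨2,true,false,false,[0,1],[1,0,0,0,-1],
  [0,1,1,1],(⟨0,[]⟩,⟨0,[]⟩),(⟨0,[(29,0)]⟩,⟨0,[(30,0)]⟩),⟨0,[]⟩,.k,.k,.k,(.r 0 ⟨3,[(0,0),(7,0),(15,
  0),(2,0),(6,1),(15,1)]⟩ ⟨4,[(4,0),(9,1),(3,1),(8,0),(25,0)]⟩),.k,.k,⟨true,(-1),⟨0,[(7,0)]⟩,⟨5,[(4,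
  1),(17,1),(4,1),(11,0),(12,2)]⟩⟩,⟨false,0,⟨0,[(2,0)]⟩,⟨1,[(28,1),(10,0),(11,0)]⟩⟩,⟨true,0,⟨0,[(54,
  0)]⟩,⟨0,[]⟩⟩,⟨false,1,⟨1,[(2,0),(19,0),(4,0),(24,0)]⟩,⟨0,[(0,0)]⟩⟩,⟨false,0,⟨0,[(50,0)]⟩,⟨5,[(4,
  1),(17,1),(4,1),(11,0),(12,2)]⟩⟩,⟨true,0,⟨0,[(2,0)]⟩,⟨2,[(0,0),(3,1),(2,0),(31,0),(7,0)]⟩⟩,[]⟩)))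
  (.R ⟨1,false,false,false,[0,0,1],[1,0,0,0,-1],[1,0,0,-1,0,0,0,1],(⟨0,[(35,0)]⟩,⟨0,[(34,0)]⟩),(⟨0,
  [(27,0)]⟩,⟨0,[(28,0)]⟩),⟨0,[(24,0)]⟩,.k,.k,.k,.k,(.r (-1) ⟨0,[(16,0)]⟩ ⟨3,[(17,3),(14,0),(0,0),
  (17,1)]⟩),.k,⟨false,1,⟨0,[(16,0)]⟩,⟨0,[(5,1),(1,0),(33,1),(7,1)]⟩⟩,⟨true,0,⟨0,[(1,0),(6,0)]⟩,⟨2,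
  [(0,2),(6,0),(22,0),(1,1),(8,0),(6,0)]⟩⟩,⟨false,1,⟨5,[(2,1),(17,1),(4,1),(11,0),(12,2)]⟩,⟨0,[(48,
  0)]⟩⟩,⟨true,0,⟨5,[(1,5),(5,1),(0,5),(2,1),(0,0),(4,0),(32,0)]⟩,⟨0,[(0,0),(29,0)]⟩⟩,⟨true,0,⟨0,[]⟩,
  ⟨0,[(52,0)]⟩⟩,⟨true,0,⟨2,[(1,2),(6,1),(2,1),(5,0),(11,0),(20,0)]⟩,⟨0,[(0,0),(9,0)]⟩⟩,[.o ⟨false,1,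
  ⟨1,[(1,0),(23,0),(25,0)]⟩,⟨0,[(0,0)]⟩⟩,.o ⟨false,1,⟨0,[(1,0),(39,0)]⟩,⟨0,[(0,0),(51,0)]⟩⟩,.o
  ⟨false,1,⟨5,[(13,1),(3,1),(12,1),(1,1),(4,2),(12,0)]⟩,⟨0,[(15,0)]⟩⟩,.a ⟨true,0,⟨0,[(32,0)]⟩,⟨0,
  [(29,0)]⟩⟩ ⟨true,1,⟨0,[(16,0)]⟩,⟨0,[(11,0)]⟩⟩ ⟨false,1,⟨1,[(1,1),(6,1),(40,0),(0,0)]⟩,⟨0,[(0,0),
  (31,0)]⟩⟩]⟩))))) (.Q [0,0,0,0,0,2,0,0,0,0,-1] (.p false [0,0,1] [] (⟨0,[(31,0)]⟩,⟨0,[(30,0)]⟩) .k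
  0 (⟨0,[]⟩,⟨0,[]⟩) .k .k) (.R ⟨0,false,false,false,[0,-1,1],[1,-1],[1,1],(⟨0,[(21,0)]⟩,⟨4,[(0,1),
  (21,0),(0,0),(7,2),(1,0),(6,0)]⟩),(⟨0,[(35,0)]⟩,⟨0,[(36,0)]⟩),⟨0,[(0,0)]⟩,.k,.k,(.r (-2) ⟨11,[(9,
  1),(0,5),(2,13),(3,0),(1,2),(14,1)]⟩ ⟨0,[(2,2),(1,0),(33,2),(7,1)]⟩),.k,.k,.k,⟨true,(-1),⟨0,[(2,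
  0)]⟩,⟨5,[(10,1),(6,1),(12,1),(3,0),(12,2)]⟩⟩,⟨false,0,⟨0,[(26,0)]⟩,⟨3,[(1,1),(8,1),(11,0),(0,0),
  (10,0)]⟩⟩,⟨true,(-1),⟨0,[(8,0)]⟩,⟨0,[(13,0)]⟩⟩,⟨false,0,⟨3,[(5,1),(3,0),(4,0),(0,1),(24,0),(6,
  1)]⟩,⟨1,[(27,1),(6,0),(12,0)]⟩⟩,⟨false,0,⟨0,[]⟩,⟨0,[]⟩⟩,⟨false,0,⟨0,[]⟩,⟨0,[]⟩⟩,[.a ⟨true,0,⟨6,
  [(10,0),(6,2),(1,0),(9,0),(3,0),(1,0),(4,0)]⟩,⟨0,[(45,0)]⟩⟩ ⟨true,0,⟨0,[(49,0)]⟩,⟨0,[(38,0)]⟩⟩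
  ⟨false,1,⟨3,[(9,1),(3,1),(5,1),(20,0),(5,0)]⟩,⟨0,[(1,0)]⟩⟩,.o ⟨false,1,⟨5,[(10,1),(6,1),(12,1),(3,
  0),(12,2)]⟩,⟨1,[(2,1),(31,0),(11,0)]⟩⟩,.e ⟨false,0,⟨0,[]⟩,⟨1,[(22,0),(0,0),(23,0)]⟩⟩ ⟨false,1,⟨5,
  [(9,1),(3,1),(3,0),(1,2),(20,0),(6,2)]⟩,⟨0,[(1,0)]⟩⟩,.o ⟨false,0,⟨5,[(3,2),(0,0),(1,0),(22,4),(4,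
  2),(8,0)]⟩,⟨0,[(12,0),(33,0)]⟩⟩]⟩) (.I [0,0,-1,-1,1,0,0,2] (.Q [0,0,-2,0,1,0,1,0,0,0,1] (.p true
  [0,0,1] [] (⟨0,[(33,0)]⟩,⟨0,[(32,0)]⟩) .k 0 (⟨0,[]⟩,⟨0,[]⟩) .k .k) (.R ⟨0,false,false,true,[1,-1,
  -1],[1,-1],[0,1,0,-1],(⟨0,[(22,0)]⟩,⟨75,[(0,5),(20,8),(9,11),(2,75),(0,12),(5,20),(0,5)]⟩),(⟨0,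
  [(37,0)]⟩,⟨0,[(38,0)]⟩),⟨2,[(2,1),(31,0),(0,0),(5,2)]⟩,.k,.k,(.x 1 ⟨50,[(5,14),(0,4),(0,37),(0,4),
  (23,17),(1,50),(5,4),(0,33),(1,1),(6,10)]⟩ ⟨0,[(0,0),(21,0),(13,0),(0,0)]⟩),.k,.k,.k,⟨true,0,⟨1,
  [(31,0),(0,0)]⟩,⟨0,[]⟩⟩,⟨false,1,⟨2,[(0,1),(23,0),(0,0),(5,0)]⟩,⟨0,[(14,0)]⟩⟩,⟨false,0,⟨3,[(1,1),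
  (3,1),(25,0),(0,0)]⟩,⟨1,[(11,0),(4,0),(32,0)]⟩⟩,⟨true,0,⟨0,[(29,0)]⟩,⟨0,[(17,0)]⟩⟩,⟨false,0,⟨0,
  []⟩,⟨0,[]⟩⟩,⟨false,0,⟨0,[]⟩,⟨0,[]⟩⟩,[.o ⟨false,0,⟨0,[(46,0)]⟩,⟨1,[(36,0),(10,1),(1,0)]⟩⟩,.a ⟨true,
  0,⟨6,[(12,0),(6,2),(1,0),(9,0),(3,0),(1,0),(4,0)]⟩,⟨0,[(47,0)]⟩⟩ ⟨false,1,⟨11,[(11,1),(0,5),(2,1),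
  (3,0),(1,2),(14,1)]⟩,⟨0,[(47,0)]⟩⟩ ⟨true,1,⟨0,[(12,0)]⟩,⟨0,[(5,0),(8,0)]⟩⟩,.a ⟨true,(-1),⟨0,[(7,
  0)]⟩,⟨2,[(0,1),(23,0),(0,0),(5,0)]⟩⟩ ⟨true,0,⟨0,[(46,0)]⟩,⟨0,[(47,0)]⟩⟩ ⟨false,1,⟨0,[(12,0)]⟩,⟨1,
  [(5,0),(8,0),(5,0),(28,0)]⟩⟩,.a ⟨true,(-1),⟨1,[(7,1),(23,0),(0,0)]⟩,⟨0,[(0,0)]⟩⟩ ⟨false,1,⟨11,
  [(11,1),(0,5),(2,1),(3,0),(1,2),(14,1)]⟩,⟨1,[(5,0),(41,0),(1,0)]⟩⟩ ⟨true,1,⟨4,[(0,1),(7,0),(2,0),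
  (0,1),(31,1)]⟩,⟨0,[(5,0),(8,0)]⟩⟩]⟩) (.Q [0,0,0,0,1,0,2,2,0,-1,2] (.p true [0,0,1] [1,0,-1] (⟨0,
  [(34,0)]⟩,⟨0,[(33,0)]⟩) .k 2 (⟨0,[(33,0)]⟩,⟨0,[(34,0)]⟩) .k (.r (-1) ⟨0,[(1,0),(18,0),(10,0)]⟩ ⟨0,
  [(6,0),(9,0)]⟩)) (.Q [0,0,0,-1,1,0,2,2,0,-1,2] (.p true [0,0,1] [1,0,-1] (⟨0,[(35,0)]⟩,⟨0,[(34,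
  0)]⟩) .k 2 (⟨0,[(34,0)]⟩,⟨0,[(35,0)]⟩) .k (.r (-1) ⟨0,[(0,0),(21,0)]⟩ ⟨0,[(7,0),(9,0)]⟩)) (.Q [0,
  0,0,2,-1,0,-2,-2,0,1,-2] (.p false [0,0,1] [1,0,-1] (⟨0,[(36,0)]⟩,⟨0,[(35,0)]⟩) .k 2 (⟨0,[(35,
  0)]⟩,⟨0,[(36,0)]⟩) .k (.r (-1) ⟨0,[(1,0),(21,0)]⟩ ⟨0,[(8,0),(9,0)]⟩)) (.R ⟨1,true,false,true,[0,0,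
  1],[1,1,-1],[0,0,0,0,0,0,0,1],(⟨0,[(37,0)]⟩,⟨0,[(36,0)]⟩),(⟨22,[(27,2),(0,2),(7,22),(1,4),(5,5),
  (0,2)]⟩,⟨0,[(26,0)]⟩),⟨0,[(26,0)]⟩,.k,.k,.k,(.r (-1) ⟨0,[(4,0)]⟩ ⟨1,[(9,0),(9,2),(14,0),(0,0)]⟩),
  (.r (-2) ⟨0,[(18,1)]⟩ ⟨1,[(8,1),(0,0),(9,2)]⟩),.k,⟨false,2,⟨1,[(4,1),(46,0),(0,0)]⟩,⟨1,[(9,0),(3,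
  1),(5,0)]⟩⟩,⟨true,0,⟨0,[(17,0),(13,0)]⟩,⟨2,[(1,0),(4,1),(1,0),(0,1),(24,1)]⟩⟩,⟨false,1,⟨1,[(27,0),
  (0,0),(23,0)]⟩,⟨0,[]⟩⟩,⟨true,(-1),⟨0,[(0,0),(48,0)]⟩,⟨0,[(1,0)]⟩⟩,⟨true,0,⟨0,[(50,0)]⟩,⟨0,[(49,
  0)]⟩⟩,⟨false,(-1),⟨0,[(0,0)]⟩,⟨5,[(1,5),(13,1),(6,1),(12,1),(3,0),(12,2)]⟩⟩,[]⟩) (.Q [-2,0,0,0,0,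
  0,0,0,-2,1,0,-2] (.p false [0,0,0,0,1] [1,0,0,0,-1] (⟨0,[(30,0)]⟩,⟨0,[(29,0)]⟩) .k 2 (⟨0,[(29,
  0)]⟩,⟨0,[(30,0)]⟩) .k (.r 0 ⟨0,[]⟩ ⟨4,[(27,2),(0,2),(23,1),(1,3)]⟩)) (.Q [0,0,0,0,0,-1,0,0,0,0,0,
  1] (.ed false [1,-1,0,0,1] .k) (.S ⟨1,0,[1],[0,0,0,0,1],[1,1],(⟨0,[(32,0)]⟩,⟨0,[(31,0)]⟩),⟨0,[(0,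
  0)]⟩,.k,(.r (-1) ⟨11,[(16,1),(0,5),(2,1),(3,0),(1,2),(14,1)]⟩ ⟨6,[(4,1),(5,1),(10,3),(4,1),(25,0),
  (2,2)]⟩),⟨true,0,⟨0,[(56,0)]⟩,⟨0,[]⟩⟩,⟨false,1,⟨1,[(29,0),(0,0),(23,0)]⟩,⟨0,[]⟩⟩,⟨false,0,⟨0,[(52,
  0)]⟩,⟨5,[(17,1),(6,1),(12,1),(3,0),(12,2)]⟩⟩,⟨true,0,⟨0,[(52,0)]⟩,⟨0,[(51,0)]⟩⟩,[.e ⟨true,0,⟨0,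
  [(56,0)]⟩,⟨0,[(45,0)]⟩⟩ ⟨true,0,⟨0,[]⟩,⟨1,[(36,0),(0,0)]⟩⟩,.o ⟨false,1,⟨1,[(30,1),(10,0),(12,0)]⟩,
  ⟨3,[(1,1),(7,0),(31,0),(7,0),(1,0)]⟩⟩,.a ⟨true,0,⟨0,[(30,0)]⟩,⟨16,[(1,5),(27,4),(10,0),(1,0),(4,
  4)]⟩⟩ ⟨false,0,⟨0,[]⟩,⟨1,[(29,0),(0,0),(23,0)]⟩⟩ ⟨true,0,⟨0,[]⟩,⟨0,[(56,0)]⟩⟩,.e ⟨false,1,⟨1,[(29,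
  0),(0,0),(22,0)]⟩,⟨0,[(45,0)]⟩⟩ ⟨false,1,⟨1,[(53,0),(0,0)]⟩,⟨1,[(36,0),(0,0)]⟩⟩]⟩) (.S ⟨1,0,[-1,
  1],[1,0,0,0,-1],[-1],(⟨0,[(31,0)]⟩,⟨0,[(32,0)]⟩),⟨1,[(0,0),(6,0),(19,0),(3,0)]⟩,.k,(.r (-1) ⟨7,
  [(16,2),(0,1),(2,2),(16,1),(17,0)]⟩ ⟨5,[(4,1),(5,1),(10,3),(4,1),(9,0),(0,0)]⟩),⟨false,1,⟨1,[(29,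
  0),(0,0),(23,0)]⟩,⟨0,[]⟩⟩,⟨true,0,⟨0,[(56,0)]⟩,⟨0,[]⟩⟩,⟨true,0,⟨0,[(52,0)]⟩,⟨0,[(51,0)]⟩⟩,⟨false,
  0,⟨0,[(52,0)]⟩,⟨5,[(17,1),(6,1),(12,1),(3,0),(12,2)]⟩⟩,[.o ⟨false,0,⟨3,[(1,1),(7,0),(31,0),(7,0),
  (1,0)]⟩,⟨1,[(30,1),(10,0),(12,0)]⟩⟩,.e ⟨false,1,⟨0,[(45,0),(7,0)]⟩,⟨0,[(56,0)]⟩⟩ ⟨false,1,⟨9,[(29,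
  3),(0,3),(22,4),(0,0),(1,1)]⟩,⟨0,[]⟩⟩,.a ⟨true,0,⟨16,[(1,5),(27,4),(10,0),(1,0),(4,4)]⟩,⟨0,[(30,
  0)]⟩⟩ ⟨false,1,⟨4,[(29,1),(0,1),(23,2),(1,0)]⟩,⟨0,[]⟩⟩ ⟨true,0,⟨0,[(56,0)]⟩,⟨0,[]⟩⟩,.o ⟨false,0,
  ⟨8,[(1,3),(3,2),(23,0),(6,2),(4,1)]⟩,⟨1,[(30,1),(10,0),(11,0)]⟩⟩]⟩)) (.I [0,-1,1,1,0,0,0,1] (.S
  ⟨1,0,[0,0,0,0,0,0,0,-1],[1,0,-1],[1,1,0,-1,0,0,0,-1],(⟨0,[(38,0)]⟩,⟨0,[(39,0)]⟩),⟨0,[(27,0)]⟩,.k,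
  .k,⟨true,0,⟨0,[(51,0)]⟩,⟨0,[(52,0)]⟩⟩,⟨false,1,⟨1,[(29,0),(0,0),(23,0)]⟩,⟨0,[]⟩⟩,⟨false,0,⟨0,[]⟩,
  ⟨1,[(29,0),(0,0),(23,0)]⟩⟩,⟨true,0,⟨0,[(52,0)]⟩,⟨0,[(51,0)]⟩⟩,[.o ⟨false,0,⟨0,[(22,0)]⟩,⟨37,[(1,
  4),(2,18),(24,9),(11,6),(12,1),(1,3)]⟩⟩,.a ⟨true,0,⟨3,[(12,1),(3,0),(4,0),(0,1),(24,0),(6,1)]⟩,⟨0,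
  [(34,0)]⟩⟩ ⟨true,0,⟨0,[(11,0)]⟩,⟨9,[(0,3),(3,3),(4,3),(11,1),(4,3),(9,0),(0,0)]⟩⟩ ⟨false,1,⟨1,
  [(16,0),(4,0),(32,0)]⟩,⟨0,[(23,0)]⟩⟩,.o ⟨false,0,⟨0,[(19,0)]⟩,⟨113,[(1,4),(2,18),(12,37),(3,37),
  (7,9),(6,37),(4,44),(12,1),(1,3)]⟩⟩,.e ⟨false,1,⟨3,[(11,0),(4,0),(0,1),(17,1),(18,0)]⟩,⟨0,[(0,
  0)]⟩⟩ ⟨false,1,⟨1,[(16,0),(4,0),(32,0)]⟩,⟨5,[(4,2),(0,1),(6,0),(13,1),(9,0)]⟩⟩]⟩) (.Q [0,-1,0,2,1,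
  0,1,1,0,-1,1] (.p true [0,0,1] [1] (⟨0,[(39,0)]⟩,⟨0,[(38,0)]⟩) .k 1 (⟨0,[]⟩,⟨0,[]⟩) .k .k) (.R ⟨1,
  false,false,false,[1,0,-1],[0,1],[],(⟨0,[(39,0)]⟩,⟨0,[(40,0)]⟩),(⟨0,[(44,0)]⟩,⟨0,[(43,0)]⟩),⟨0,
  [(28,0)]⟩,.k,.k,.k,.k,(.x 1 ⟨8,[(6,3),(6,4),(13,0),(9,1),(2,8),(6,5),(8,2)]⟩ ⟨92,[(0,47),(4,7),(1,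
  0),(0,30),(8,65),(0,28),(9,123),(13,33),(7,23)]⟩),.k,⟨true,1,⟨11,[(17,1),(0,5),(2,1),(3,0),(1,2),
  (14,1)]⟩,⟨0,[(11,0)]⟩⟩,⟨false,2,⟨86,[(0,47),(1,6),(4,2),(9,53),(0,38),(11,13),(11,15),(7,23)]⟩,⟨0,
  [(13,0)]⟩⟩,⟨false,1,⟨1,[(5,0),(21,0),(27,0)]⟩,⟨1,[(12,0),(9,0)]⟩⟩,⟨true,1,⟨11,[(0,5),(1,0),(2,2),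
  (24,1),(11,0),(14,5)]⟩,⟨0,[(1,0),(11,0)]⟩⟩,⟨false,1,⟨22,[(0,12),(4,3),(1,0),(10,1),(8,12),(9,2),
  (10,1),(6,4)]⟩,⟨0,[(12,0)]⟩⟩,⟨false,1,⟨0,[(0,0)]⟩,⟨1,[(12,1),(12,0),(1,0)]⟩⟩,[.e ⟨false,1,⟨20,[(0,
  5),(1,0),(14,4),(0,7),(3,0),(4,6),(2,1),(19,2)]⟩,⟨0,[]⟩⟩ ⟨false,1,⟨0,[(0,0),(0,0)]⟩,⟨1,[(25,0),(1,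
  0)]⟩⟩,.o ⟨false,1,⟨7,[(0,1),(21,1),(3,1),(15,2),(12,2)]⟩,⟨0,[(52,0)]⟩⟩,.o ⟨false,0,⟨0,[(20,0)]⟩,
  ⟨44,[(0,5),(1,0),(15,17),(3,5),(7,1),(6,20),(4,18),(7,2)]⟩⟩,.a ⟨true,(-1),⟨0,[(13,0)]⟩,⟨195,[(0,
  51),(17,155),(3,51),(4,5),(13,7),(1,7),(4,18),(1,25),(3,6)]⟩⟩ ⟨false,1,⟨1,[(54,0),(0,0)]⟩,⟨1,[(37,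
  0),(0,0)]⟩⟩ ⟨true,1,⟨0,[(0,0),(0,0)]⟩,⟨0,[(13,0),(38,0)]⟩⟩]⟩) (.Q [0,0,1,0,-1,0,0,0,1,0,0,1] (.p
  true [0,0,0,0,1] [] (⟨0,[(33,0)]⟩,⟨0,[(32,0)]⟩) .k 0 (⟨0,[]⟩,⟨0,[]⟩) .k .k) (.Q [0,0,0,0,0,1,0,0,
  0,0,0,-1] (.ed true [1,-1,0,0,1] .k) (.Q [0,0,1,-1,0,0,0,0,-1,1,0,-1] (.p false [0,0,0,0,1] [1]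
  (⟨0,[(35,0)]⟩,⟨0,[(34,0)]⟩) .k 1 (⟨0,[]⟩,⟨0,[]⟩) .k .k) (.S ⟨1,0,[-1,1],[1,0,0,0,-1],[-1],(⟨0,
  [(35,0)]⟩,⟨0,[(36,0)]⟩),⟨1,[(1,0),(9,0),(19,0),(3,0)]⟩,.k,(.r (-1) ⟨7,[(20,2),(0,1),(2,2),(16,1),
  (17,0)]⟩ ⟨5,[(8,1),(5,1),(10,3),(4,1),(9,0),(0,0)]⟩),⟨false,1,⟨1,[(33,0),(0,0),(23,0)]⟩,⟨0,[]⟩⟩,
  ⟨true,0,⟨0,[(60,0)]⟩,⟨0,[]⟩⟩,⟨true,0,⟨0,[(56,0)]⟩,⟨0,[(55,0)]⟩⟩,⟨false,0,⟨0,[(56,0)]⟩,⟨5,[(5,0),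
  (22,2),(4,1),(11,0),(12,2)]⟩⟩,[.a ⟨true,0,⟨0,[(0,0),(12,0),(43,0)]⟩,⟨1,[(2,1),(54,0),(0,0)]⟩⟩
  ⟨false,1,⟨9,[(33,3),(0,3),(22,4),(0,0),(1,1)]⟩,⟨0,[]⟩⟩ ⟨true,0,⟨0,[(60,0)]⟩,⟨0,[(54,0)]⟩⟩,.o
  ⟨false,1,⟨3,[(0,1),(32,1),(18,0),(3,1),(0,0)]⟩,⟨1,[(2,1),(42,0),(11,0)]⟩⟩,.o ⟨false,1,⟨0,[(33,
  0)]⟩,⟨1,[(2,1),(42,0),(11,0)]⟩⟩,.e ⟨false,1,⟨0,[(49,0),(7,0)]⟩,⟨1,[(40,0),(0,0)]⟩⟩ ⟨false,1,⟨9,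
  [(33,3),(0,3),(22,4),(0,0),(1,1)]⟩,⟨0,[(54,0)]⟩⟩]⟩) (.R ⟨0,false,false,false,[0,0,0,0,1],[0,1],[],
  (⟨0,[(36,0)]⟩,⟨0,[(35,0)]⟩),(⟨0,[(47,0)]⟩,⟨0,[(46,0)]⟩),⟨0,[(1,0)]⟩,.k,.k,(.r (-1) ⟨11,[(20,1),(0,
  5),(2,1),(3,0),(1,2),(14,1)]⟩ ⟨6,[(8,1),(5,1),(10,3),(4,1),(25,0),(2,2)]⟩),(.r (-1) ⟨11,[(20,1),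
  (0,5),(2,1),(3,0),(1,2),(14,1)]⟩ ⟨6,[(8,1),(5,1),(10,3),(4,1),(25,0),(2,2)]⟩),.k,.k,⟨true,1,⟨11,
  [(20,1),(0,5),(2,1),(3,0),(1,2),(14,1)]⟩,⟨0,[(14,0)]⟩⟩,⟨false,2,⟨0,[(33,0),(23,0)]⟩,⟨0,[(2,0)]⟩⟩,
  ⟨false,1,⟨4,[(33,1),(0,1),(23,2),(1,0)]⟩,⟨0,[]⟩⟩,⟨true,1,⟨0,[(33,0),(22,0)]⟩,⟨1,[(0,0),(1,0),(0,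
  0),(14,0)]⟩⟩,⟨false,0,⟨0,[]⟩,⟨0,[]⟩⟩,⟨false,0,⟨0,[]⟩,⟨0,[]⟩⟩,[.a ⟨true,0,⟨0,[(56,0)]⟩,⟨6,[(21,0),
  (6,2),(1,0),(9,0),(3,0),(1,0),(4,0)]⟩⟩ ⟨false,1,⟨1,[(33,0),(0,0),(22,0)]⟩,⟨0,[]⟩⟩ ⟨true,1,⟨0,[(33,
  0),(22,0)]⟩,⟨4,[(0,0),(1,3),(0,1),(2,0),(47,1)]⟩⟩,.o ⟨false,1,⟨1,[(45,0),(10,1),(1,0)]⟩,⟨0,[(55,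
  0)]⟩⟩,.o ⟨false,0,⟨76,[(0,20),(1,23),(0,3),(1,15),(0,1),(3,2),(4,5),(36,20),(5,1)]⟩,⟨0,[(33,0)]⟩⟩,
  .e ⟨false,1,⟨1,[(57,0),(0,0)]⟩,⟨1,[(40,0),(0,0)]⟩⟩ ⟨false,2,⟨1,[(33,1),(22,1),(0,0),(0,0)]⟩,⟨4,
  [(0,0),(1,3),(0,1),(2,0),(47,1)]⟩⟩]⟩)) (.Q [1,1,0,-2,-1,0,0,0,1,0,0,1] (.p true [0,0,0,0,1] []
  (⟨0,[(35,0)]⟩,⟨0,[(34,0)]⟩) .k 0 (⟨0,[]⟩,⟨0,[]⟩) .k .k) (.R ⟨1,false,false,false,[0,0,0,0,1],[0,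
  1],[],(⟨0,[(36,0)]⟩,⟨0,[(35,0)]⟩),(⟨0,[(47,0)]⟩,⟨0,[(46,0)]⟩),⟨0,[(1,0)]⟩,.k,.k,(.r (-1) ⟨11,[(20,
  1),(0,5),(2,1),(3,0),(1,2),(14,1)]⟩ ⟨6,[(8,1),(5,1),(10,3),(4,1),(25,0),(2,2)]⟩),(.r (-1) ⟨11,
  [(20,1),(0,5),(2,1),(3,0),(1,2),(14,1)]⟩ ⟨6,[(8,1),(5,1),(10,3),(4,1),(25,0),(2,2)]⟩),(.r (-2) ⟨5,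
  [(20,1),(0,5),(2,1),(3,0),(1,2),(14,1)]⟩ ⟨0,[(13,1),(35,1),(7,0)]⟩),.k,⟨true,1,⟨11,[(20,1),(0,5),
  (2,1),(3,0),(1,2),(14,1)]⟩,⟨0,[(14,0)]⟩⟩,⟨false,2,⟨0,[(33,0),(23,0)]⟩,⟨0,[(2,0)]⟩⟩,⟨false,1,⟨4,
  [(33,1),(0,1),(23,2),(1,0)]⟩,⟨0,[]⟩⟩,⟨true,1,⟨0,[(33,0),(22,0)]⟩,⟨2,[(0,1),(1,0),(10,0),(43,0)]⟩⟩,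
  ⟨true,0,⟨0,[(13,0),(35,0),(7,0)]⟩,⟨0,[(55,0)]⟩⟩,⟨true,1,⟨0,[(33,0),(22,1)]⟩,⟨0,[(0,0)]⟩⟩,[.a
  ⟨true,0,⟨0,[(56,0)]⟩,⟨6,[(21,0),(6,2),(1,0),(9,0),(3,0),(1,0),(4,0)]⟩⟩ ⟨false,1,⟨1,[(33,0),(0,0),
  (22,0)]⟩,⟨0,[]⟩⟩ ⟨true,1,⟨0,[(33,0),(22,0)]⟩,⟨1,[(0,0),(1,0),(46,0)]⟩⟩,.o ⟨false,1,⟨1,[(45,0),(10,
  1),(1,0)]⟩,⟨0,[(55,0)]⟩⟩,.o ⟨false,0,⟨1,[(2,1),(42,0),(11,0)]⟩,⟨0,[(33,0)]⟩⟩,.e ⟨false,1,⟨1,[(57,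
  0),(0,0)]⟩,⟨1,[(40,0),(0,0)]⟩⟩ ⟨false,2,⟨1,[(33,1),(22,1),(0,0),(0,0)]⟩,⟨1,[(0,0),(1,0),(46,
  0)]⟩⟩]⟩) (.S ⟨1,0,[1],[0,0,0,0,1],[1,1],(⟨0,[(36,0)]⟩,⟨0,[(35,0)]⟩),⟨0,[(1,0)]⟩,.k,(.r (-1) ⟨11,
  [(20,1),(0,5),(2,1),(3,0),(1,2),(14,1)]⟩ ⟨8,[(0,2),(4,0),(8,2),(15,0),(3,0),(5,1),(18,0),(0,2)]⟩),
  ⟨true,0,⟨0,[(60,0)]⟩,⟨0,[]⟩⟩,⟨false,1,⟨10,[(0,0),(4,1),(15,1),(8,1),(2,2),(6,1),(17,4)]⟩,⟨0,[]⟩⟩,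
  ⟨false,0,⟨0,[(56,0)]⟩,⟨5,[(5,0),(22,2),(4,1),(11,0),(12,2)]⟩⟩,⟨true,0,⟨0,[(56,0)]⟩,⟨0,[(55,0)]⟩⟩,
  [.o ⟨false,0,⟨1,[(2,1),(42,0),(11,0)]⟩,⟨40,[(0,14),(2,7),(2,3),(3,1),(4,3),(17,25),(18,1),(6,1),
  (0,6)]⟩⟩,.a ⟨true,0,⟨1,[(2,1),(54,0),(0,0)]⟩,⟨0,[(0,0),(2,0),(34,0)]⟩⟩ ⟨true,0,⟨0,[]⟩,⟨1,[(40,0),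
  (0,0)]⟩⟩ ⟨false,1,⟨1,[(57,0),(0,0)]⟩,⟨0,[(60,0)]⟩⟩,.o ⟨false,0,⟨1,[(2,1),(42,0),(11,0)]⟩,⟨0,[(33,
  0)]⟩⟩,.e ⟨false,1,⟨61,[(0,19),(4,10),(4,5),(9,11),(0,21),(8,10),(2,1),(19,9)]⟩,⟨0,[(49,0)]⟩⟩
  ⟨false,1,⟨1,[(57,0),(0,0)]⟩,⟨1,[(40,0),(0,0)]⟩⟩]⟩))) (.Q [0,0,0,0,0,-1,0,0,0,0,0,1] (.ed false [1,
  -1,0,0,1] .k) (.R ⟨1,false,false,false,[0,0,0,0,1],[0,1],[1,1],(⟨0,[(35,0)]⟩,⟨0,[(34,0)]⟩),(⟨0,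
  [(46,0)]⟩,⟨0,[(45,0)]⟩),⟨0,[(0,0)]⟩,.k,.k,(.r (-1) ⟨11,[(19,1),(0,5),(2,1),(3,0),(1,2),(14,1)]⟩
  ⟨6,[(7,1),(5,1),(10,3),(4,1),(25,0),(2,2)]⟩),(.r (-1) ⟨11,[(19,1),(0,5),(2,1),(3,0),(1,2),(14,
  1)]⟩ ⟨6,[(7,1),(5,1),(10,3),(4,1),(25,0),(2,2)]⟩),(.r (-2) ⟨5,[(19,1),(0,5),(2,1),(3,0),(1,2),(14,
  1)]⟩ ⟨0,[(12,1),(35,1),(7,0)]⟩),.k,⟨false,1,⟨8,[(9,2),(9,4),(0,0),(17,0),(13,3)]⟩,⟨1,[(13,0),(41,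
  0),(1,0)]⟩⟩,⟨true,1,⟨0,[(1,0)]⟩,⟨4,[(2,0),(1,0),(8,3),(2,0),(16,2),(14,1)]⟩⟩,⟨true,0,⟨0,[(59,0)]⟩,
  ⟨0,[]⟩⟩,⟨false,1,⟨1,[(1,1),(11,0),(41,0),(1,0)]⟩,⟨1,[(4,0),(22,0)]⟩⟩,⟨false,0,⟨0,[(55,0)]⟩,⟨5,[(4,
  0),(22,2),(4,1),(11,0),(12,2)]⟩⟩,⟨false,1,⟨1,[(1,1),(11,0),(41,2),(1,0)]⟩,⟨3,[(2,1),(1,1),(0,0),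
  (21,0),(29,0)]⟩⟩,[.a ⟨true,0,⟨0,[(55,0)]⟩,⟨6,[(20,0),(6,2),(1,0),(9,0),(3,0),(1,0),(4,0)]⟩⟩ ⟨true,
  0,⟨0,[(59,0)]⟩,⟨0,[(48,0)]⟩⟩ ⟨false,1,⟨0,[(1,0),(53,0)]⟩,⟨37,[(2,3),(1,18),(0,1),(4,3),(16,12),(2,
  3),(12,11),(13,1)]⟩⟩,.o ⟨false,1,⟨1,[(44,0),(10,1),(1,0)]⟩,⟨0,[(54,0)]⟩⟩,.e ⟨false,0,⟨0,[]⟩,⟨1,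
  [(32,0),(0,0),(23,0)]⟩⟩ ⟨false,1,⟨1,[(1,1),(11,0),(41,0),(1,0)]⟩,⟨37,[(2,3),(1,18),(0,1),(4,3),
  (16,12),(2,3),(12,11),(13,1)]⟩⟩,.o ⟨false,0,⟨49,[(4,24),(0,0),(2,10),(2,3),(2,1),(24,4),(11,9),(6,
  18)]⟩,⟨0,[(1,0)]⟩⟩]⟩) (.R ⟨0,false,false,false,[0,0,0,0,1],[0,1],[1,1],(⟨0,[(35,0)]⟩,⟨0,[(34,
  0)]⟩),(⟨0,[(46,0)]⟩,⟨0,[(45,0)]⟩),⟨0,[(0,0)]⟩,.k,.k,(.r (-1) ⟨11,[(19,1),(0,5),(2,1),(3,0),(1,2),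
  (14,1)]⟩ ⟨6,[(7,1),(5,1),(10,3),(4,1),(25,0),(2,2)]⟩),(.r (-1) ⟨11,[(19,1),(0,5),(2,1),(3,0),(1,
  2),(14,1)]⟩ ⟨6,[(7,1),(5,1),(10,3),(4,1),(25,0),(2,2)]⟩),.k,.k,⟨false,1,⟨8,[(9,2),(9,4),(0,0),(17,
  0),(13,3)]⟩,⟨1,[(13,0),(41,0),(1,0)]⟩⟩,⟨true,1,⟨0,[(1,0)]⟩,⟨4,[(2,0),(1,0),(8,3),(2,0),(16,2),(14,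
  1)]⟩⟩,⟨true,0,⟨0,[(59,0)]⟩,⟨0,[]⟩⟩,⟨false,1,⟨1,[(1,1),(11,0),(41,0),(1,0)]⟩,⟨1,[(4,0),(22,0)]⟩⟩,
  ⟨false,0,⟨0,[]⟩,⟨0,[]⟩⟩,⟨false,0,⟨0,[]⟩,⟨0,[]⟩⟩,[.a ⟨true,0,⟨0,[(55,0)]⟩,⟨6,[(20,0),(6,2),(1,0),
  (9,0),(3,0),(1,0),(4,0)]⟩⟩ ⟨true,0,⟨0,[(59,0)]⟩,⟨0,[(48,0)]⟩⟩ ⟨false,1,⟨0,[(1,0),(53,0)]⟩,⟨37,[(2,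
  3),(1,18),(0,1),(4,3),(16,12),(2,3),(12,11),(13,1)]⟩⟩,.o ⟨false,1,⟨1,[(44,0),(10,1),(1,0)]⟩,⟨0,
  [(54,0)]⟩⟩,.e ⟨false,0,⟨0,[]⟩,⟨1,[(32,0),(0,0),(23,0)]⟩⟩ ⟨false,1,⟨1,[(1,1),(11,0),(41,0),(1,0)]⟩,
  ⟨37,[(2,3),(1,18),(0,1),(4,3),(16,12),(2,3),(12,11),(13,1)]⟩⟩,.o ⟨false,0,⟨49,[(4,24),(0,0),(2,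
  10),(2,3),(2,1),(24,4),(11,9),(6,18)]⟩,⟨0,[(1,0)]⟩⟩]⟩))))))) (.R ⟨1,true,false,false,[0,0,1],[1,0,
  -1],[0,1,0,0,0,0,0,1],(⟨0,[(36,0)]⟩,⟨0,[(35,0)]⟩),(⟨0,[(35,0)]⟩,⟨0,[(36,0)]⟩),⟨0,[(25,0)]⟩,.k,.k,
  .k,.k,(.r (-1) ⟨0,[(3,0)]⟩ ⟨1,[(8,0),(9,2),(14,0),(0,0)]⟩),.k,⟨true,0,⟨0,[(3,0),(2,0)]⟩,⟨3,[(7,1),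
  (0,4),(9,2),(32,1)]⟩⟩,⟨false,0,⟨0,[(0,0),(2,0)]⟩,⟨0,[(5,0),(8,0)]⟩⟩,⟨true,0,⟨0,[(53,0)]⟩,⟨0,[]⟩⟩,
  ⟨false,0,⟨5,[(0,3),(7,1),(12,0),(1,0),(8,1),(18,3)]⟩,⟨0,[(1,0)]⟩⟩,⟨false,0,⟨0,[(49,0)]⟩,⟨5,[(14,
  1),(6,1),(12,1),(3,0),(12,2)]⟩⟩,⟨true,(-1),⟨0,[(0,0)]⟩,⟨0,[(1,0),(46,0)]⟩⟩,[]⟩)) (.R ⟨1,true,
  false,false,[1,0,-1],[0,0,1],[0,1,0,0,0,0,0,-1],(⟨0,[(34,0)]⟩,⟨0,[(35,0)]⟩),(⟨0,[(35,0)]⟩,⟨0,[(34,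
  0)]⟩),⟨0,[(23,0)]⟩,.k,.k,.k,.k,(.r (-1) ⟨3,[(7,1),(4,2),(4,0),(13,1),(0,1),(17,0)]⟩ ⟨0,[(2,0),(3,
  0),(41,0)]⟩),.k,⟨false,0,⟨0,[(11,0),(0,0)]⟩,⟨1,[(2,1),(3,0),(41,0),(1,0)]⟩⟩,⟨true,1,⟨0,[(4,0),(8,
  0)]⟩,⟨0,[(8,0),(6,0)]⟩⟩,⟨true,0,⟨0,[(52,0)]⟩,⟨0,[]⟩⟩,⟨false,2,⟨1,[(30,3),(6,0),(12,2)]⟩,⟨0,[(0,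
  0)]⟩⟩,⟨false,0,⟨0,[(48,0)]⟩,⟨5,[(13,1),(6,1),(12,1),(3,0),(12,2)]⟩⟩,⟨true,1,⟨1,[(2,1),(1,3),(38,
  0),(5,0)]⟩,⟨0,[(0,0),(46,0)]⟩⟩,[]⟩))) (.Q [0,0,0,0,-1,0,-2,-2,0,1,-2] (.p false [0,0,1] [1,0,-1]
  (⟨0,[(33,0)]⟩,⟨0,[(32,0)]⟩) .k 2 (⟨0,[(32,0)]⟩,⟨0,[(33,0)]⟩) .k (.r (-1) ⟨0,[(17,1),(30,0)]⟩ ⟨6,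
  [(0,3),(4,0),(4,2),(18,1),(0,1),(17,0)]⟩)) (.Q [0,0,0,-1,-1,0,-2,-2,0,1,-2] (.p false [0,0,1] [1,
  0,-1] (⟨0,[(34,0)]⟩,⟨0,[(33,0)]⟩) .k 2 (⟨0,[(33,0)]⟩,⟨0,[(34,0)]⟩) .k (.r (-1) ⟨0,[(18,1),(30,
  0)]⟩ ⟨6,[(1,3),(4,0),(4,2),(18,1),(0,1),(17,0)]⟩)) (.R ⟨0,false,false,true,[1,-1,-1],[0,-1,1],[1,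
  1],(⟨0,[(23,0)]⟩,⟨22,[(25,2),(0,2),(8,22),(0,4),(5,5),(0,2)]⟩),(⟨0,[(24,0)]⟩,⟨22,[(25,2),(0,2),(7,
  22),(1,4),(5,5),(0,2)]⟩),⟨2,[(3,1),(31,0),(0,0),(5,2)]⟩,.k,.k,(.r (-1) ⟨3,[(0,1),(1,1),(6,3),(27,
  0),(11,4),(0,1)]⟩ ⟨3,[(6,1),(14,5),(8,3),(1,2),(0,0),(16,1)]⟩),.k,.k,.k,⟨false,0,⟨0,[(17,0)]⟩,⟨0,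
  [(16,0)]⟩⟩,⟨true,1,⟨0,[(4,0),(8,0)]⟩,⟨0,[(8,0),(6,0)]⟩⟩,⟨false,0,⟨1,[(6,0),(12,0),(1,0),(8,0),(19,
  0)]⟩,⟨1,[(7,0),(4,0),(37,0)]⟩⟩,⟨true,1,⟨1,[(30,3),(6,0),(12,0)]⟩,⟨0,[(1,0)]⟩⟩,⟨false,0,⟨0,[]⟩,⟨0,
  []⟩⟩,⟨false,0,⟨0,[]⟩,⟨0,[]⟩⟩,[.e ⟨true,0,⟨0,[(52,0)]⟩,⟨0,[(41,0)]⟩⟩ ⟨true,1,⟨0,[(4,0),(4,0),(39,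
  0)]⟩,⟨1,[(1,0),(4,1),(15,0),(27,0)]⟩⟩,.o ⟨false,1,⟨1,[(10,1),(26,0),(12,0)]⟩,⟨5,[(1,0),(15,3),(3,
  1),(0,0),(14,0)]⟩⟩,.a ⟨true,(-1),⟨0,[(8,0)]⟩,⟨3,[(13,1),(3,1),(12,1),(18,0),(0,0)]⟩⟩ ⟨false,0,⟨0,
  []⟩,⟨1,[(25,0),(0,0),(23,0)]⟩⟩ ⟨true,1,⟨0,[(4,0),(4,0),(39,0)]⟩,⟨1,[(2,0),(5,0),(12,0),(0,0)]⟩⟩,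
  .e ⟨false,1,⟨1,[(25,0),(0,0),(22,0)]⟩,⟨0,[(41,0)]⟩⟩ ⟨false,2,⟨1,[(4,1),(4,1),(39,2),(0,0)]⟩,⟨1,
  [(1,0),(4,1),(15,0),(27,0)]⟩⟩]⟩) (.R ⟨1,true,false,false,[1,0,-1],[0,0,1],[1,1,0,-1,0,0,0,-1],(⟨0,
  [(34,0)]⟩,⟨0,[(35,0)]⟩),(⟨0,[(35,0)]⟩,⟨0,[(34,0)]⟩),⟨0,[(23,0)]⟩,.k,.k,.k,.k,(.r (-1) ⟨6,[(2,0),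
  (4,1),(4,5),(18,3),(0,3),(17,1)]⟩ ⟨0,[(0,0),(7,0),(6,0)]⟩),.k,⟨false,0,⟨15,[(1,1),(0,7),(4,6),(1,
  3),(2,8),(24,0),(7,5)]⟩,⟨1,[(0,1),(7,0),(6,1),(13,0),(20,0)]⟩⟩,⟨true,1,⟨0,[(4,0),(8,0)]⟩,⟨0,[(8,
  0),(6,0)]⟩⟩,⟨true,0,⟨0,[(47,0)]⟩,⟨0,[(48,0)]⟩⟩,⟨false,2,⟨5,[(0,5),(12,1),(6,1),(12,1),(3,0),(12,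
  2)]⟩,⟨0,[(1,0)]⟩⟩,⟨false,0,⟨0,[]⟩,⟨1,[(25,0),(0,0),(23,0)]⟩⟩,⟨true,1,⟨0,[(0,0)]⟩,⟨0,[(1,0),(45,
  0)]⟩⟩,[]⟩)) (.R ⟨1,true,false,true,[0,0,1],[1,0,-1],[0,0,0,0,0,0,0,1],(⟨0,[(34,0)]⟩,⟨0,[(33,0)]⟩),
  (⟨0,[(33,0)]⟩,⟨0,[(34,0)]⟩),⟨0,[(23,0)]⟩,.k,.k,.k,.k,(.x (-1) ⟨11,[(0,0),(2,6),(2,1),(5,4),(18,9),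
  (1,23),(2,3),(4,3),(1,1)]⟩ ⟨0,[(2,1),(4,0),(6,0),(26,0),(6,0)]⟩),.k,⟨true,1,⟨1,[(0,1),(6,0),(6,1),
  (13,0),(20,0)]⟩,⟨0,[(1,0),(44,0)]⟩⟩,⟨false,0,⟨0,[(14,0),(13,0)]⟩,⟨0,[(3,0),(8,0)]⟩⟩,⟨false,1,⟨1,
  [(24,0),(0,0),(23,0)]⟩,⟨0,[]⟩⟩,⟨true,(-1),⟨5,[(1,3),(5,1),(5,3),(0,0),(6,0),(6,2),(15,2)]⟩,⟨0,[(0,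
  0)]⟩⟩,⟨true,0,⟨0,[(47,0)]⟩,⟨0,[(46,0)]⟩⟩,⟨false,(-1),⟨0,[(1,0),(12,0),(13,0)]⟩,⟨5,[(0,5),(11,1),
  (6,1),(12,1),(3,0),(12,2)]⟩⟩,[]⟩)))))) (.R ⟨1,false,false,true,[1,-1],[1,0,-1],[0,1,-1,-1],(⟨0,
  [(32,0)]⟩,⟨0,[(33,0)]⟩),(⟨0,[(28,0)]⟩,⟨0,[(29,0)]⟩),⟨0,[(17,0),(0,0)]⟩,.k,.k,(.x 1 ⟨2,[(2,1),(1,
  0),(0,0),(20,0),(8,0),(0,1),(3,0)]⟩ ⟨0,[(31,0),(0,1),(10,0)]⟩),.k,(.r (-2) ⟨11,[(6,1),(0,5),(2,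
  13),(3,0),(1,2),(14,1)]⟩ ⟨0,[(5,0),(34,0),(1,0)]⟩),.k,⟨true,1,⟨0,[(10,0)]⟩,⟨0,[(5,0),(34,0)]⟩⟩,
  ⟨false,1,⟨0,[(9,0),(33,0)]⟩,⟨0,[(26,0)]⟩⟩,⟨true,0,⟨0,[(46,0)]⟩,⟨0,[]⟩⟩,⟨false,0,⟨1,[(11,0),(0,0),
  (2,0)]⟩,⟨0,[(4,0),(39,0)]⟩⟩,⟨false,0,⟨0,[(42,0)]⟩,⟨5,[(7,1),(6,1),(12,1),(3,0),(12,2)]⟩⟩,⟨false,0,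
  ⟨0,[(11,0),(3,0)]⟩,⟨0,[(3,0),(40,0)]⟩⟩,[.a ⟨true,(-1),⟨0,[(0,0),(1,0),(2,0)]⟩,⟨0,[(24,0),(19,
  0)]⟩⟩ ⟨false,1,⟨1,[(6,0),(3,0),(28,0)]⟩,⟨0,[(40,0),(1,0)]⟩⟩ ⟨true,0,⟨0,[(0,0),(4,0),(3,0)]⟩,⟨0,
  [(24,0),(15,1)]⟩⟩,.o ⟨false,0,⟨0,[(12,0)]⟩,⟨1,[(24,1),(6,0),(12,0)]⟩⟩,.o ⟨false,0,⟨1,[(26,0),(0,
  0)]⟩,⟨1,[(31,0),(11,0)]⟩⟩,.e ⟨false,1,⟨0,[(0,0)]⟩,⟨0,[(15,0),(10,0),(13,0)]⟩⟩ ⟨false,1,⟨0,[(6,0),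
  (8,0)]⟩,⟨0,[(24,0),(15,1)]⟩⟩]⟩)) (.R ⟨1,false,false,true,[1,0,-1],[1,-1],[1,1],(⟨0,[(27,0)]⟩,⟨0,
  [(28,0)]⟩),(⟨0,[(31,0)]⟩,⟨0,[(32,0)]⟩),⟨0,[(16,0)]⟩,.k,.k,.k,.k,.k,.k,⟨false,0,⟨1,[(0,0),(9,0)]⟩,
  ⟨11,[(5,1),(0,5),(2,1),(3,0),(1,2),(14,1)]⟩⟩,⟨true,0,⟨0,[(25,0)]⟩,⟨0,[(8,0)]⟩⟩,⟨true,0,⟨0,[(12,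
  0)]⟩,⟨1,[(4,0),(0,0),(33,0)]⟩⟩,⟨true,0,⟨0,[(3,0)]⟩,⟨1,[(10,0),(0,0),(2,0)]⟩⟩,⟨false,0,⟨0,[(0,0)]⟩,
  ⟨17,[(5,5),(1,7),(5,1),(10,3),(0,11),(4,0),(12,10)]⟩⟩,⟨true,0,⟨0,[(23,0)]⟩,⟨0,[(11,0)]⟩⟩,[.o
  ⟨false,0,⟨0,[(40,0)]⟩,⟨1,[(0,0),(9,0),(19,0),(12,0)]⟩⟩,.a ⟨true,0,⟨6,[(6,0),(6,2),(1,0),(9,0),(3,
  0),(1,0),(4,0)]⟩,⟨0,[(41,0)]⟩⟩ ⟨true,0,⟨0,[]⟩,⟨1,[(25,0),(0,0)]⟩⟩ ⟨false,1,⟨0,[(6,0)]⟩,⟨0,[(14,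
  0)]⟩⟩,.o ⟨false,0,⟨0,[(8,0)]⟩,⟨3,[(0,0),(5,1),(3,0),(14,1),(4,1)]⟩⟩,.e ⟨false,1,⟨1,[(18,0),(0,0),
  (22,0)]⟩,⟨0,[(34,0)]⟩⟩ ⟨false,1,⟨0,[(6,0)]⟩,⟨0,[(14,0),(24,0)]⟩⟩]⟩))))))

theorem ok1 : chk K t1 l9 = true := by decide +kernel

noncomputable def t2 : Tre :=
  (.Q [0,0,0,0,0,2,0,0,0,-1,1] (.p true [0,0,1] [1] (⟨0,[(23,0)]⟩,⟨0,[(22,0)]⟩) .k 1 (⟨0,[]⟩,⟨0,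
  []⟩) .k .k) (.R ⟨0,false,false,true,[1,-1,-1],[1,-1],[],(⟨0,[(12,0)]⟩,⟨22,[(14,2),(0,2),(8,22),(0,
  4),(5,5),(0,2)]⟩),(⟨0,[(27,0)]⟩,⟨0,[(28,0)]⟩),⟨0,[(0,0)]⟩,.k,.k,(.r (-2) ⟨9,[(2,13),(0,5),(7,1),
  (8,3),(5,0),(11,2),(0,1)]⟩ ⟨0,[(1,0),(35,0)]⟩),.k,.k,.k,⟨true,0,⟨1,[(1,0),(4,0),(32,0)]⟩,⟨0,[(36,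
  0)]⟩⟩,⟨false,1,⟨3,[(2,1),(3,1),(12,1),(18,0),(0,0)]⟩,⟨0,[(4,0)]⟩⟩,⟨false,0,⟨1,[(1,1),(36,0),(0,
  0)]⟩,⟨0,[(2,0),(4,0)]⟩⟩,⟨true,0,⟨0,[(19,0)]⟩,⟨0,[(7,0)]⟩⟩,⟨false,0,⟨0,[]⟩,⟨0,[]⟩⟩,⟨false,0,⟨0,[]⟩,
  ⟨0,[]⟩⟩,[.o ⟨false,0,⟨0,[(36,0)]⟩,⟨1,[(26,0),(10,1),(1,0)]⟩⟩,.a ⟨true,0,⟨6,[(2,0),(6,2),(1,0),(9,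
  0),(3,0),(1,0),(4,0)]⟩,⟨0,[(37,0)]⟩⟩ ⟨false,1,⟨1,[(38,0),(0,0)]⟩,⟨0,[(41,0)]⟩⟩ ⟨true,1,⟨0,[(2,
  0)]⟩,⟨0,[(1,0),(5,0)]⟩⟩,.e ⟨false,1,⟨1,[(14,0),(0,0),(23,0)]⟩,⟨0,[]⟩⟩ ⟨false,1,⟨0,[(2,0)]⟩,⟨1,[(1,
  0),(5,0),(2,0),(28,0)]⟩⟩,.o ⟨false,(-1),⟨0,[(1,0),(1,0)]⟩,⟨3,[(2,1),(3,1),(12,1),(6,1),(11,2),(0,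
  0)]⟩⟩]⟩) (.I [1,0,0,0,0,0,0,1] (.Q [0,-1,0,1,0,0,-1,-1,0,0,-1] (.p false [0,0,1] [] (⟨0,[(25,0)]⟩,
  ⟨0,[(24,0)]⟩) .k 0 (⟨0,[]⟩,⟨0,[]⟩) .k .k) (.R ⟨1,false,false,true,[1,0,-1],[1,-1],[1,1],(⟨0,[(25,
  0)]⟩,⟨0,[(26,0)]⟩),(⟨0,[(29,0)]⟩,⟨0,[(30,0)]⟩),⟨0,[(14,0)]⟩,.k,.k,.k,.k,.k,.k,⟨false,0,⟨0,[(39,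
  0)]⟩,⟨9,[(4,5),(0,1),(1,1),(5,1),(14,0),(11,0)]⟩⟩,⟨true,0,⟨0,[(23,0)]⟩,⟨0,[(6,0)]⟩⟩,⟨false,0,⟨0,
  [(1,0)]⟩,⟨6,[(4,1),(0,0),(2,2),(13,2),(0,1),(17,4)]⟩⟩,⟨false,1,⟨0,[(7,0),(15,0)]⟩,⟨0,[(0,0)]⟩⟩,
  ⟨false,0,⟨0,[(1,0),(37,0)]⟩,⟨6,[(4,2),(0,4),(2,0),(13,0),(0,2),(17,3)]⟩⟩,⟨true,0,⟨0,[(21,0)]⟩,⟨0,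
  [(9,0)]⟩⟩,[.o ⟨false,0,⟨0,[(38,0)]⟩,⟨1,[(28,0),(10,1),(1,0)]⟩⟩,.a ⟨true,0,⟨6,[(4,0),(6,2),(1,0),
  (9,0),(3,0),(1,0),(4,0)]⟩,⟨0,[(39,0)]⟩⟩ ⟨true,0,⟨0,[]⟩,⟨1,[(23,0),(0,0)]⟩⟩ ⟨false,1,⟨0,[(4,0)]⟩,
  ⟨0,[(12,0)]⟩⟩,.o ⟨false,0,⟨0,[(6,0)]⟩,⟨5,[(4,1),(3,1),(12,1),(1,1),(4,2),(12,0)]⟩⟩,.e ⟨false,1,⟨1,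
  [(16,0),(0,0),(22,0)]⟩,⟨0,[(32,0)]⟩⟩ ⟨false,1,⟨0,[(4,0)]⟩,⟨2,[(0,0),(2,0),(8,0),(11,0),(16,
  0)]⟩⟩]⟩) (.I [0,0,-2,-1,1] (.Q [0,0,1,0,-1,0,-1,0,0,1,-1] (.p false [0,0,1] [1] (⟨0,[(27,0)]⟩,⟨0,
  [(26,0)]⟩) .k 1 (⟨0,[]⟩,⟨0,[]⟩) .k .k) (.I [0,0,2,0,-1,2] (.R ⟨1,false,false,true,[1,-1],[0,-1,1],
  [0,1,-1,-1],(⟨0,[(32,0)]⟩,⟨0,[(33,0)]⟩),(⟨0,[(18,0)]⟩,⟨22,[(19,2),(0,2),(7,22),(1,4),(5,5),(0,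
  2)]⟩),⟨1,[(5,0),(12,0),(13,0)]⟩,.k,.k,(.x 1 ⟨0,[(0,0)]⟩ ⟨0,[(31,0),(0,1),(10,0)]⟩),.k,.k,.k,
  ⟨false,1,⟨3,[(7,1),(3,1),(13,1),(17,0),(0,0)]⟩,⟨0,[(4,0)]⟩⟩,⟨true,1,⟨5,[(7,1),(3,1),(12,1),(1,1),
  (4,2),(12,0)]⟩,⟨0,[(1,0)]⟩⟩,⟨true,0,⟨0,[(46,0)]⟩,⟨0,[]⟩⟩,⟨false,1,⟨1,[(24,1),(6,0),(12,0)]⟩,⟨13,
  [(1,5),(0,1),(5,5),(2,7),(11,1),(13,2),(6,6)]⟩⟩,⟨false,0,⟨0,[(42,0)]⟩,⟨5,[(7,1),(6,1),(12,1),(3,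
  0),(12,2)]⟩⟩,⟨false,1,⟨1,[(24,1),(6,0),(10,1),(1,0)]⟩,⟨4,[(1,0),(0,1),(5,3),(2,0),(23,2),(1,1),(6,
  0)]⟩⟩,[.a ⟨true,0,⟨0,[(3,0)]⟩,⟨1,[(1,0),(9,1),(11,0),(20,0)]⟩⟩ ⟨false,1,⟨4,[(2,2),(4,0),(2,0),(14,
  0),(13,1)]⟩,⟨1,[(6,0),(4,0),(32,0)]⟩⟩ ⟨true,1,⟨1,[(2,0),(0,0),(20,0),(6,0)]⟩,⟨0,[(1,0),(9,0),(28,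
  0)]⟩⟩,.o ⟨false,1,⟨1,[(3,1),(27,0),(12,0)]⟩,⟨1,[(11,0),(0,0),(2,0)]⟩⟩,.o ⟨false,0,⟨1,[(26,0),(0,
  0)]⟩,⟨1,[(31,0),(11,0)]⟩⟩,.e ⟨false,1,⟨0,[(2,0)]⟩,⟨1,[(6,0),(4,0),(14,0),(0,0),(16,0)]⟩⟩ ⟨false,2,
  ⟨1,[(2,1),(21,1),(6,0),(12,0)]⟩,⟨0,[(1,0),(9,0),(28,0)]⟩⟩]⟩) (.S ⟨1,0,[0,0,0,0,0,0,0,1],[0,0,1],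
  [0,1,0,0,0,0,0,1],(⟨0,[(29,0)]⟩,⟨0,[(28,0)]⟩),⟨0,[(18,0)]⟩,.k,.k,⟨true,0,⟨0,[(46,0)]⟩,⟨0,[]⟩⟩,
  ⟨false,1,⟨1,[(19,0),(0,0),(23,0)]⟩,⟨0,[]⟩⟩,⟨false,0,⟨0,[(42,0)]⟩,⟨5,[(7,1),(6,1),(12,1),(3,0),(12,
  2)]⟩⟩,⟨true,0,⟨0,[(42,0)]⟩,⟨0,[(41,0)]⟩⟩,[.o ⟨false,1,⟨1,[(24,1),(6,0),(12,0)]⟩,⟨0,[(12,0)]⟩⟩,.o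
  ⟨false,1,⟨1,[(0,2),(2,0),(2,0),(19,0),(8,1),(0,1),(3,0)]⟩,⟨0,[(25,0)]⟩⟩,.o ⟨false,1,⟨5,[(7,1),(3,
  1),(12,1),(1,1),(4,2),(12,0)]⟩,⟨0,[(9,0)]⟩⟩,.a ⟨true,0,⟨0,[(26,0)]⟩,⟨0,[(23,0)]⟩⟩ ⟨true,0,⟨9,[(0,
  14),(2,5),(2,10),(1,5),(2,0),(18,5),(5,7),(0,3),(1,1)]⟩,⟨0,[(12,0),(13,0)]⟩⟩ ⟨false,1,⟨1,[(4,1),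
  (38,0),(0,0)]⟩,⟨0,[(12,0),(13,0)]⟩⟩]⟩)) (.I [0,0,0,0,1,0,0,0,-1] (.I [0,0,0,-1,0,-1,-1,-1] (.I [1,
  0,0,0,0,3,0,0,1] (.I [0,0,-1,0,1,-2,1] (.C [(0,1),(1,1),(2,0),(2,0),(0,1),(11,0),(17,2),(0,0),(4,
  0)]) (.C [(0,0),(3,0),(3,0)])) (.C [(0,0),(21,0),(0,0),(14,0)])) (.C [(0,0),(8,0),(9,0)])) (.C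
  [(0,0),(18,0),(2,0)]))) (.I [0,-1,-1,-1,1] (.S ⟨1,0,[0,1,-1,-1],[1,-1],[0,0,-1,-1],(⟨0,[(31,0)]⟩,
  ⟨0,[(32,0)]⟩),⟨1,[(4,0),(12,0),(13,0)]⟩,.k,(.r (-2) ⟨2,[(0,1),(5,1),(2,1),(14,1)]⟩ ⟨0,[(1,0),(39,
  0)]⟩),⟨false,1,⟨1,[(18,0),(0,0),(23,0)]⟩,⟨0,[]⟩⟩,⟨true,0,⟨0,[(45,0)]⟩,⟨0,[]⟩⟩,⟨true,0,⟨0,[(41,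
  0)]⟩,⟨0,[(40,0)]⟩⟩,⟨false,0,⟨0,[(41,0)]⟩,⟨5,[(6,1),(6,1),(12,1),(3,0),(12,2)]⟩⟩,[.o ⟨false,0,⟨0,
  [(40,0)]⟩,⟨1,[(30,0),(10,1),(1,0)]⟩⟩,.e ⟨true,1,⟨0,[(0,0)]⟩,⟨0,[(1,0),(43,0)]⟩⟩ ⟨true,1,⟨2,[(0,0),
  (5,0),(2,0),(14,0)]⟩,⟨0,[(1,0)]⟩⟩,.o ⟨false,0,⟨1,[(25,0),(0,0)]⟩,⟨1,[(30,0),(11,0)]⟩⟩,.a ⟨true,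
  (-1),⟨13,[(1,9),(11,4),(1,0),(9,1),(10,3),(7,5)]⟩,⟨0,[(42,0)]⟩⟩ ⟨false,2,⟨5,[(0,1),(5,3),(8,1),
  (14,0),(11,2),(0,1)]⟩,⟨0,[(1,0)]⟩⟩ ⟨true,1,⟨0,[(0,0),(37,0)]⟩,⟨0,[(1,0)]⟩⟩]⟩) (.Q [0,-1,0,2,0,0,
  -1,-1,0,0,-1] (.p false [0,0,1] [] (⟨0,[(28,0)]⟩,⟨0,[(27,0)]⟩) .k 0 (⟨0,[]⟩,⟨0,[]⟩) .k .k) (.R ⟨1,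
  true,false,false,[0,0,1],[0,1],[1,0,0,-1,0,0,0,1],(⟨0,[(29,0)]⟩,⟨0,[(28,0)]⟩),(⟨0,[(33,0)]⟩,⟨0,
  [(32,0)]⟩),⟨0,[(18,0)]⟩,.k,.k,.k,.k,(.r (-2) ⟨9,[(7,5),(0,1),(1,11),(5,1),(14,0),(11,0)]⟩ ⟨0,[(1,
  0),(9,0),(23,0)]⟩),.k,⟨true,1,⟨1,[(4,1),(9,1),(16,0),(11,0)]⟩,⟨0,[(1,0),(9,0),(23,0)]⟩⟩,⟨false,1,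
  ⟨0,[(9,0),(33,0)]⟩,⟨0,[(26,0)]⟩⟩,⟨false,1,⟨5,[(7,1),(6,1),(12,1),(3,0),(12,2)]⟩,⟨0,[(42,0)]⟩⟩,
  ⟨true,0,⟨1,[(0,0),(24,0)]⟩,⟨0,[(3,0)]⟩⟩,⟨true,0,⟨0,[]⟩,⟨0,[(46,0)]⟩⟩,⟨false,0,⟨0,[(0,0)]⟩,⟨3,[(3,
  1),(6,1),(3,1),(11,1),(4,0),(12,0)]⟩⟩,[]⟩) (.Q [0,0,-1,-1,0,0,-1,0,0,1,-1] (.p false [0,0,1] [1]
  (⟨0,[(29,0)]⟩,⟨0,[(28,0)]⟩) .k 1 (⟨0,[]⟩,⟨0,[]⟩) .k .k) (.Q [0,1,0,0,-1,0,-1,-1,0,1,-1] (.p false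
  [0,0,1] [1] (⟨0,[(30,0)]⟩,⟨0,[(29,0)]⟩) .k 1 (⟨0,[]⟩,⟨0,[]⟩) .k .k) (.R ⟨0,false,false,true,[0,-1,
  1],[1,-1],[],(⟨0,[(20,0)]⟩,⟨22,[(21,2),(0,2),(7,22),(1,4),(5,5),(0,2)]⟩),(⟨0,[(34,0)]⟩,⟨0,[(35,
  0)]⟩),⟨2,[(7,0),(11,1),(12,0),(5,2)]⟩,.k,.k,(.r (-2) ⟨9,[(9,5),(0,1),(1,11),(5,1),(14,0),(11,0)]⟩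
  ⟨0,[(3,0),(9,0),(23,0)]⟩),.k,.k,.k,⟨true,0,⟨1,[(8,0),(4,0),(32,0)]⟩,⟨0,[(43,0)]⟩⟩,⟨false,0,⟨0,
  [(25,0)]⟩,⟨5,[(9,1),(3,1),(12,1),(1,1),(4,2),(12,0)]⟩⟩,⟨false,0,⟨0,[(13,0),(23,0)]⟩,⟨0,[(12,0)]⟩⟩,
  ⟨true,(-1),⟨0,[(0,0)]⟩,⟨1,[(26,1),(6,0),(12,0)]⟩⟩,⟨false,0,⟨0,[]⟩,⟨0,[]⟩⟩,⟨false,0,⟨0,[]⟩,⟨0,[]⟩⟩,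
  [.o ⟨false,0,⟨0,[(43,0)]⟩,⟨1,[(33,0),(10,1),(1,0)]⟩⟩,.a ⟨true,0,⟨6,[(9,0),(6,2),(1,0),(9,0),(3,0),
  (1,0),(4,0)]⟩,⟨0,[(44,0)]⟩⟩ ⟨false,1,⟨1,[(45,0),(0,0)]⟩,⟨0,[(48,0)]⟩⟩ ⟨true,0,⟨0,[(1,0)]⟩,⟨1,[(8,
  0),(4,0),(14,1),(4,0)]⟩⟩,.e ⟨false,1,⟨1,[(21,0),(0,0),(23,0)]⟩,⟨0,[]⟩⟩ ⟨false,0,⟨0,[(1,0)]⟩,⟨1,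
  [(28,1),(4,0),(10,1),(1,0)]⟩⟩,.o ⟨false,0,⟨1,[(2,0),(1,0),(8,0),(14,0),(4,0),(8,0)]⟩,⟨3,[(1,1),
  (15,1),(15,0),(11,2)]⟩⟩]⟩) (.I [0,0,0,0,1,0,0,0,-1] (.I [0,0,0,-1,0,-1,-1,-1] (.I [1,0,0,0,0,3,0,
  0,1] (.I [0,1,0,-3] (.I [0,-1,-1,-1,1,0,0,1] (.I [0,-1,0,0,1,-2,1,1] (.C [(0,1),(3,1),(4,1),(34,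
  1),(0,0),(5,0)]) (.C [(0,0),(5,0),(6,0)])) (.C [(0,0),(4,0),(0,0)])) (.C [(0,0),(5,0),(7,0)]))
  (.C [(0,0),(24,0),(0,0),(14,0)])) (.C [(0,0),(11,0),(9,0)])) (.C [(0,0),(21,0),(2,0)]))) (.I [0,0,
  0,0,1,0,0,0,-1] (.I [0,1,0,-3] (.I [0,0,0,-1,0,-1,-1,-1] (.I [1,0,0,0,0,3,0,0,1] (.I [0,0,1,1,0,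
  -2,1] (.C [(0,1),(1,1),(7,1),(31,1),(0,0),(5,0)]) (.C [(0,0),(4,0),(5,0)])) (.C [(0,0),(24,0),(0,
  0),(14,0)])) (.C [(0,0),(11,0),(9,0)])) (.C [(0,0),(2,0),(7,0)])) (.C [(0,0),(20,0),(2,0)])))))))
  (.S ⟨1,0,[0,0,0,0,0,0,0,-1],[1,0,-1],[1,1],(⟨0,[(24,0)]⟩,⟨0,[(25,0)]⟩),⟨0,[(13,0)]⟩,.k,.k,⟨true,0,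
  ⟨0,[(9,0)]⟩,⟨0,[(0,0)]⟩⟩,⟨false,1,⟨1,[(15,0),(0,0),(23,0)]⟩,⟨0,[]⟩⟩,⟨false,0,⟨0,[(2,0),(36,0)]⟩,
  ⟨4,[(0,0),(2,1),(0,2),(16,0),(0,1),(17,2)]⟩⟩,⟨true,0,⟨0,[(38,0)]⟩,⟨0,[(37,0)]⟩⟩,[.o ⟨false,0,⟨0,
  [(8,0)]⟩,⟨1,[(20,1),(6,0),(12,0)]⟩⟩,.a ⟨true,0,⟨2,[(0,0),(7,1),(10,0),(11,0),(1,0),(6,0)]⟩,⟨0,
  [(20,0)]⟩⟩ ⟨true,0,⟨0,[]⟩,⟨1,[(22,0),(0,0)]⟩⟩ ⟨false,1,⟨1,[(0,1),(38,0),(0,0)]⟩,⟨0,[(9,0)]⟩⟩,.o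
  ⟨false,0,⟨0,[(5,0)]⟩,⟨5,[(3,1),(3,1),(12,1),(1,1),(4,2),(12,0)]⟩⟩,.e ⟨false,1,⟨1,[(15,0),(0,0),
  (22,0)]⟩,⟨0,[(31,0)]⟩⟩ ⟨false,1,⟨1,[(0,1),(38,0),(0,0)]⟩,⟨3,[(2,1),(3,1),(15,0),(0,0)]⟩⟩]⟩)))

theorem ok2 : chk K t2 r9 = true := by decide +kernel

noncomputable def t4 : Tre :=
  (.Q [0,0,0,0,0,2,0,0,0,-1,1] (.p true [0,0,1] [1] (⟨0,[(22,0)]⟩,⟨0,[(21,0)]⟩) .k 1 (⟨0,[]⟩,⟨0,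
  []⟩) .k .k) (.R ⟨0,false,false,true,[1,-1,-1],[1,-1],[],(⟨0,[(11,0)]⟩,⟨4,[(0,1),(12,0),(0,0),(8,
  2),(0,0),(6,0)]⟩),(⟨0,[(26,0)]⟩,⟨0,[(27,0)]⟩),⟨0,[(0,0)]⟩,.k,.k,(.r (-2) ⟨5,[(5,3),(2,7),(10,1),
  (0,1),(4,3),(11,6),(0,0)]⟩ ⟨1,[(1,2),(16,1),(1,0),(15,0),(1,0)]⟩),.k,.k,.k,⟨true,0,⟨1,[(1,0),(18,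
  0),(15,0),(1,0)]⟩,⟨0,[(35,0)]⟩⟩,⟨false,1,⟨0,[(20,0),(16,0)]⟩,⟨0,[(3,0)]⟩⟩,⟨false,0,⟨0,[(1,0),(16,
  0),(19,0)]⟩,⟨1,[(5,1),(2,1),(16,0),(11,0)]⟩⟩,⟨true,0,⟨0,[(18,0)]⟩,⟨0,[(6,0)]⟩⟩,⟨false,0,⟨0,[]⟩,⟨0,
  []⟩⟩,⟨false,0,⟨0,[]⟩,⟨0,[]⟩⟩,[.o ⟨false,0,⟨0,[(35,0)]⟩,⟨1,[(25,0),(10,1),(1,0)]⟩⟩,.e ⟨false,1,⟨1,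
  [(37,0),(0,0)]⟩,⟨0,[(40,0)]⟩⟩ ⟨false,2,⟨3,[(8,1),(4,0),(0,0),(5,3),(4,0),(11,5)]⟩,⟨0,[(1,0)]⟩⟩,.a
  ⟨true,(-1),⟨27,[(1,21),(6,10),(1,2),(13,1),(1,1),(4,5),(7,5)]⟩,⟨0,[(20,0),(16,0)]⟩⟩ ⟨false,1,⟨1,
  [(13,0),(0,0),(23,0)]⟩,⟨0,[]⟩⟩ ⟨true,1,⟨3,[(8,1),(11,3),(4,0),(7,1),(3,2)]⟩,⟨0,[(1,0)]⟩⟩,.o
  ⟨false,(-1),⟨5,[(1,7),(6,3),(11,2),(0,0),(3,1)]⟩,⟨1,[(20,1),(4,0),(11,2)]⟩⟩]⟩) (.I [1,0,0,0,0,0,0,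
  1] (.Q [0,-1,0,1,0,0,-1,-1,0,0,-1] (.p false [0,0,1] [] (⟨0,[(24,0)]⟩,⟨0,[(23,0)]⟩) .k 0 (⟨0,[]⟩,
  ⟨0,[]⟩) .k .k) (.R ⟨1,false,false,true,[1,0,-1],[1,-1],[0,0,1],(⟨0,[(24,0)]⟩,⟨0,[(25,0)]⟩),(⟨0,
  [(28,0)]⟩,⟨0,[(29,0)]⟩),⟨0,[(13,0)]⟩,.k,.k,.k,.k,.k,.k,⟨false,0,⟨1,[(3,0),(18,0),(15,0),(1,0)]⟩,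
  ⟨3,[(10,1),(16,0),(7,1),(3,2)]⟩⟩,⟨true,0,⟨0,[(22,0)]⟩,⟨0,[(5,0)]⟩⟩,⟨false,0,⟨0,[(1,0),(29,0)]⟩,⟨5,
  [(7,3),(2,1),(10,1),(0,1),(4,0),(11,3),(0,0)]⟩⟩,⟨false,1,⟨0,[(6,0),(15,0)]⟩,⟨0,[(0,0)]⟩⟩,⟨false,0,
  ⟨0,[(3,0),(16,0),(19,0)]⟩,⟨1,[(7,1),(2,1),(16,0),(11,0)]⟩⟩,⟨true,0,⟨0,[(20,0)]⟩,⟨0,[(8,0)]⟩⟩,[.o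
  ⟨false,0,⟨0,[(37,0)]⟩,⟨1,[(27,0),(10,1),(1,0)]⟩⟩,.e ⟨true,0,⟨0,[(31,0)]⟩,⟨0,[(42,0)]⟩⟩ ⟨true,1,⟨3,
  [(10,1),(4,0),(0,0),(5,3),(4,0),(11,1)]⟩,⟨0,[(3,0)]⟩⟩,.o ⟨false,0,⟨0,[(5,0)]⟩,⟨1,[(22,1),(4,0),
  (11,0)]⟩⟩,.a ⟨true,(-1),⟨27,[(3,21),(6,10),(1,2),(13,1),(1,1),(4,5),(7,5)]⟩,⟨0,[(22,0),(16,0)]⟩⟩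
  ⟨false,1,⟨1,[(15,0),(0,0),(23,0)]⟩,⟨0,[]⟩⟩ ⟨true,1,⟨3,[(10,1),(11,3),(4,0),(7,1),(3,2)]⟩,⟨0,[(3,
  0)]⟩⟩]⟩) (.R ⟨1,true,false,false,[0,0,1],[0,1],[1,0,0,-1,0,0,0,1],(⟨0,[(25,0)]⟩,⟨0,[(24,0)]⟩),(⟨0,
  [(29,0)]⟩,⟨0,[(28,0)]⟩),⟨0,[(14,0)]⟩,.k,.k,.k,.k,(.r (-2) ⟨3,[(6,3),(3,1),(4,0),(0,0),(10,0),(11,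
  1)]⟩ ⟨0,[(3,0),(3,0),(14,0)]⟩),.k,⟨true,1,⟨1,[(1,1),(8,1),(16,0),(11,0)]⟩,⟨0,[(3,0),(3,0),(14,
  0)]⟩⟩,⟨false,1,⟨0,[(5,0),(33,0)]⟩,⟨0,[(22,0)]⟩⟩,⟨false,1,⟨3,[(10,1),(4,0),(0,0),(10,0),(12,1)]⟩,
  ⟨0,[(38,0)]⟩⟩,⟨true,0,⟨1,[(7,0),(0,0),(2,0)]⟩,⟨0,[(0,0)]⟩⟩,⟨true,0,⟨0,[]⟩,⟨0,[(42,0)]⟩⟩,⟨false,0,
  ⟨1,[(3,1),(3,1),(31,0),(0,0)]⟩,⟨3,[(0,1),(5,1),(3,1),(11,1),(4,0),(12,0)]⟩⟩,[]⟩)) (.R ⟨2,true,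
  false,true,[0,1],[0,0,1],[1,1,1],(⟨0,[]⟩,⟨0,[]⟩),(⟨0,[(24,0)]⟩,⟨0,[(23,0)]⟩),⟨0,[]⟩,.k,.k,.k,.k,
  .k,.k,⟨false,0,⟨0,[(0,0)]⟩,⟨3,[(5,1),(4,1),(8,1),(18,0),(0,0)]⟩⟩,⟨true,0,⟨0,[(21,0)]⟩,⟨0,[(4,
  0)]⟩⟩,⟨true,0,⟨0,[(36,0)]⟩,⟨0,[(37,0)]⟩⟩,⟨false,1,⟨0,[(5,0),(15,0)]⟩,⟨1,[(0,1),(1,1),(35,0),(0,
  0)]⟩⟩,⟨false,0,⟨0,[]⟩,⟨1,[(14,0),(0,0),(23,0)]⟩⟩,⟨true,0,⟨0,[(19,0)]⟩,⟨0,[(7,0)]⟩⟩,[]⟩)))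

theorem ok4 : chk K t4 r8 = true := by decide +kernel

noncomputable def t6 : Tre :=
  (.I [0,0,0,0,0,0,0,1] (.R ⟨2,true,false,false,[0,1],[0,1,1],[0,1,1,1],(⟨0,[]⟩,⟨0,[]⟩),(⟨22,[(12,
  2),(0,2),(8,22),(0,4),(5,5),(0,2)]⟩,⟨0,[(10,0)]⟩),⟨0,[]⟩,.k,.k,.k,.k,.k,.k,⟨true,0,⟨0,[(4,0),(29,
  0)]⟩,⟨0,[(0,0),(32,0)]⟩⟩,⟨false,1,⟨0,[(19,0),(16,0)]⟩,⟨0,[(2,0)]⟩⟩,⟨true,0,⟨0,[(39,0)]⟩,⟨0,[]⟩⟩,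
  ⟨false,1,⟨0,[(17,0),(19,0)]⟩,⟨0,[(5,0)]⟩⟩,⟨false,0,⟨0,[(35,0)]⟩,⟨3,[(7,1),(4,0),(0,0),(10,0),(12,
  1)]⟩⟩,⟨true,0,⟨0,[(1,0)]⟩,⟨0,[(5,0),(28,0)]⟩⟩,[]⟩) (.R ⟨1,true,true,true,[0,1,1],[],[1,0,1],(⟨22,
  [(12,2),(0,2),(8,22),(0,4),(5,5),(0,2)]⟩,⟨0,[(10,0)]⟩),(⟨0,[]⟩,⟨0,[]⟩),⟨0,[(22,0)]⟩,.k,.k,.k,.k,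
  .k,.k,⟨true,0,⟨0,[(33,0)]⟩,⟨0,[(39,0)]⟩⟩,⟨false,0,⟨0,[(2,0)]⟩,⟨0,[(19,0),(16,0)]⟩⟩,⟨false,1,⟨7,
  [(0,5),(6,3),(10,1),(0,1),(4,1),(11,0),(0,4)]⟩,⟨0,[(1,0),(0,0)]⟩⟩,⟨true,0,⟨0,[(5,0),(28,0)]⟩,⟨0,
  [(1,0)]⟩⟩,⟨true,0,⟨0,[(0,0)]⟩,⟨0,[(6,0)]⟩⟩,⟨false,0,⟨0,[(5,0)]⟩,⟨0,[(17,0),(19,0)]⟩⟩,[]⟩))

theorem ok6 : chk K t6 r7 = true := by decide +kernel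

noncomputable def t8 : Tre :=
  (.I [0,0,-2,-2,1,0,0,-1] (.K ⟨0,[0,1,1],0,0,(⟨22,[(11,2),(0,2),(8,22),(0,4),(5,5),(0,2)]⟩,⟨0,[(9,
  0)]⟩),.k,.k,(.r 0 ⟨0,[(7,1),(8,0),(1,0),(13,0)]⟩ ⟨0,[(0,0)]⟩),.k,.k,[⟨1,[(18,0),(0,0)]⟩,⟨0,[(1,
  0)]⟩,⟨0,[(4,0),(28,0)]⟩,⟨0,[(16,0),(17,0)]⟩]⟩) (.I [0,0,2,0,-1,2,-1] (.K ⟨0,[0,1,1],0,0,(⟨9,[(0,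
  1),(18,1),(2,7),(6,1),(0,0),(5,2)]⟩,⟨0,[(10,0)]⟩),.k,.k,(.x (-2) ⟨0,[(2,0),(7,0),(13,0),(0,0),(10,
  0)]⟩ ⟨0,[(0,0)]⟩),.k,.k,[⟨1,[(19,0),(0,0)]⟩,⟨0,[(2,0)]⟩,⟨0,[(5,0),(28,0)]⟩,⟨0,[(17,0),(17,0)]⟩]⟩)
  (.I [0,0,0,0,0,0,0,-1] (.I [0,0,0,0,1,0,0,0,-1] (.I [0,0,0,0,0,-1,-1,-1] (.C [(0,0),(2,0),(0,0),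
  (5,0),(21,0)]) (.C [(0,0),(7,0),(5,0)])) (.C [(0,0),(13,0),(2,0)])) (.C [(0,0),(2,0),(2,0)]))))

theorem ok8 : chk K t8 r6 = true := by decide +kernel

noncomputable def t10 : Tre :=
  (.R ⟨2,true,false,false,[0,1],[1,1,-1],[0,1,1,1],(⟨0,[]⟩,⟨0,[]⟩),(⟨22,[(9,2),(0,2),(7,22),(1,4),
  (5,5),(0,2)]⟩,⟨0,[(8,0)]⟩),⟨0,[]⟩,.k,.k,.k,.k,.k,.k,⟨true,0,⟨0,[(3,0)]⟩,⟨5,[(0,3),(1,1),(1,1),(11,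
  1),(4,0),(12,2)]⟩⟩,⟨false,0,⟨0,[(13,0)]⟩,⟨1,[(16,1),(4,0),(11,0)]⟩⟩,⟨true,0,⟨0,[(36,0)]⟩,⟨0,[]⟩⟩,
  ⟨false,0,⟨11,[(0,3),(0,1),(0,5),(1,2),(1,0),(6,3),(13,1),(6,5)]⟩,⟨1,[(14,1),(6,0),(12,0)]⟩⟩,
  ⟨false,0,⟨0,[(32,0)]⟩,⟨3,[(4,1),(4,0),(0,0),(10,0),(12,1)]⟩⟩,⟨true,(-1),⟨0,[(0,0),(12,0)]⟩,⟨3,[(4,
  1),(4,0),(0,0),(3,3),(6,2)]⟩⟩,[]⟩)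

theorem ok10 : chk K t10 r5 = true := by decide +kernel

noncomputable def t12 : Tre :=
  (.I [0,1,0,0,0,0,0,-1] (.Q [0,1,1,1,-1,0,-1,0,0,0,-1] (.p false [0,0,1] [] (⟨0,[(19,0)]⟩,⟨0,[(18,
  0)]⟩) .k 0 (⟨0,[]⟩,⟨0,[]⟩) .k .k) (.Q [0,0,0,1,0,0,1,1,0,0,1] (.p true [0,0,1] [] (⟨0,[(20,0)]⟩,
  ⟨0,[(19,0)]⟩) .k 0 (⟨0,[]⟩,⟨0,[]⟩) .k .k) (.R ⟨2,true,false,false,[0,1],[0,1,1],[0,1,1,1],(⟨0,[]⟩,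
  ⟨0,[]⟩),(⟨22,[(11,2),(0,2),(8,22),(0,4),(5,5),(0,2)]⟩,⟨0,[(9,0)]⟩),⟨0,[]⟩,.k,.k,.k,.k,.k,.k,⟨true,
  0,⟨0,[(2,0)]⟩,⟨2,[(0,0),(0,0),(1,1),(28,1),(3,0)]⟩⟩,⟨false,1,⟨0,[(18,0),(16,0)]⟩,⟨1,[(3,0),(0,0),
  (2,0)]⟩⟩,⟨true,0,⟨0,[(38,0)]⟩,⟨0,[]⟩⟩,⟨false,1,⟨0,[(16,0),(19,0)]⟩,⟨0,[(4,0)]⟩⟩,⟨false,0,⟨0,[(34,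
  0)]⟩,⟨3,[(6,1),(4,0),(0,0),(10,0),(12,1)]⟩⟩,⟨true,0,⟨0,[(0,0)]⟩,⟨0,[(4,0),(28,0)]⟩⟩,[]⟩) (.Q [0,
  -1,-1,-1,0,0,-1,0,0,1,-1] (.p false [0,0,1] [1] (⟨0,[(21,0)]⟩,⟨0,[(20,0)]⟩) .k 1 (⟨0,[]⟩,⟨0,[]⟩)
  .k .k) (.R ⟨1,false,false,false,[0,0,1],[1,-1],[0,0,0,0,0,0,0,1],(⟨0,[(22,0)]⟩,⟨0,[(21,0)]⟩),(⟨0,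
  [(25,0)]⟩,⟨0,[(26,0)]⟩),⟨0,[(11,0)]⟩,.k,.k,.k,.k,.k,.k,⟨false,0,⟨0,[(4,0),(30,1)]⟩,⟨0,[(1,0),(17,
  0),(16,0)]⟩⟩,⟨true,(-1),⟨19,[(0,3),(0,1),(0,13),(1,1),(2,2),(2,0),(0,0),(11,1),(4,9),(1,5)]⟩,⟨1,
  [(19,1),(4,0),(11,0)]⟩⟩,⟨false,1,⟨1,[(12,0),(0,0),(23,0)]⟩,⟨0,[]⟩⟩,⟨false,0,⟨2,[(0,0),(0,1),(1,0),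
  (24,0),(1,0),(6,0)]⟩,⟨1,[(17,1),(6,0),(10,1),(1,0)]⟩⟩,⟨true,0,⟨0,[(35,0)]⟩,⟨0,[(34,0)]⟩⟩,⟨false,0,
  ⟨7,[(0,1),(2,1),(1,5),(22,1),(1,2),(4,1),(1,2)]⟩,⟨1,[(17,1),(6,0),(12,0)]⟩⟩,[.a ⟨true,0,⟨21,[(7,
  10),(1,2),(9,5),(3,1),(1,1),(4,2),(5,2)]⟩,⟨0,[(35,0)]⟩⟩ ⟨true,0,⟨0,[(4,0),(30,0)]⟩,⟨0,[(5,0),(13,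
  0)]⟩⟩ ⟨false,0,⟨5,[(0,3),(6,0),(1,0),(22,1)]⟩,⟨1,[(19,1),(4,0),(10,1),(0,0)]⟩⟩,.e ⟨false,1,⟨1,[(4,
  1),(30,1),(0,0),(0,0)]⟩,⟨0,[(3,0)]⟩⟩ ⟨false,0,⟨0,[(0,0)]⟩,⟨3,[(12,0),(0,0),(5,3),(4,1),(7,1),(2,
  3),(0,0)]⟩⟩,.o ⟨false,1,⟨1,[(19,1),(4,0),(11,0)]⟩,⟨3,[(0,0),(1,0),(6,0),(14,0)]⟩⟩,.e ⟨false,1,⟨1,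
  [(4,1),(30,1),(0,0),(0,0)]⟩,⟨0,[(5,0),(13,0)]⟩⟩ ⟨false,0,⟨0,[(0,0)]⟩,⟨1,[(12,0),(0,0),(5,1),(4,0),
  (10,1)]⟩⟩]⟩) (.Q [0,-1,0,-1,0,0,0,0,0,1] (.pp false [-1,1]) (.R ⟨1,false,false,false,[0,0,1],[1,
  -1],[0,0,0,0,0,0,0,1],(⟨0,[(23,0)]⟩,⟨0,[(22,0)]⟩),(⟨0,[(26,0)]⟩,⟨0,[(27,0)]⟩),⟨0,[(12,0)]⟩,.k,.k,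
  .k,.k,.k,.k,⟨false,0,⟨0,[(5,0),(30,1)]⟩,⟨1,[(0,1),(3,1),(20,0),(11,0)]⟩⟩,⟨true,(-1),⟨0,[(0,0),(2,
  0)]⟩,⟨1,[(20,1),(4,0),(11,0)]⟩⟩,⟨false,1,⟨1,[(13,0),(0,0),(23,0)]⟩,⟨0,[]⟩⟩,⟨false,0,⟨0,[(0,0),(5,
  0)]⟩,⟨1,[(18,1),(6,0),(10,1),(1,0)]⟩⟩,⟨true,0,⟨0,[(36,0)]⟩,⟨0,[(35,0)]⟩⟩,⟨false,0,⟨3,[(0,1),(5,3),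
  (24,0),(4,1),(1,0)]⟩,⟨1,[(18,1),(6,0),(12,0)]⟩⟩,[.a ⟨true,0,⟨21,[(8,10),(1,2),(9,5),(3,1),(1,1),
  (4,2),(5,2)]⟩,⟨0,[(36,0)]⟩⟩ ⟨true,0,⟨0,[(5,0),(30,0)]⟩,⟨0,[(6,0),(13,0)]⟩⟩ ⟨false,0,⟨3,[(2,1),(2,
  1),(11,1),(13,0),(5,0)]⟩,⟨1,[(1,1),(35,0),(0,0)]⟩⟩,.a ⟨true,0,⟨0,[(0,0)]⟩,⟨11,[(1,3),(8,1),(2,0),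
  (0,0),(16,0),(1,3),(2,7)]⟩⟩ ⟨false,1,⟨1,[(5,1),(30,1),(0,0),(0,0)]⟩,⟨0,[(4,0)]⟩⟩ ⟨true,0,⟨2,[(0,
  2),(1,0),(2,0),(3,1)]⟩,⟨0,[(1,0)]⟩⟩,.o ⟨false,1,⟨1,[(20,1),(4,0),(11,0)]⟩,⟨2,[(2,0),(2,0),(3,
  1)]⟩⟩,.a ⟨true,0,⟨0,[(20,0)]⟩,⟨0,[(17,0)]⟩⟩ ⟨false,1,⟨1,[(5,1),(30,1),(0,0),(0,0)]⟩,⟨0,[(6,0),(13,
  0)]⟩⟩ ⟨true,0,⟨3,[(2,1),(2,1),(11,1),(13,0),(5,0)]⟩,⟨0,[(1,0)]⟩⟩]⟩) (.Q [0,0,1,1,-1,0,-1,0,0,0,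
  -1] (.p false [0,0,1] [] (⟨0,[(23,0)]⟩,⟨0,[(22,0)]⟩) .k 0 (⟨0,[]⟩,⟨0,[]⟩) .k .k) (.Q [0,0,0,0,0,2,
  0,0,0,-1,1] (.p true [0,0,1] [1] (⟨0,[(24,0)]⟩,⟨0,[(23,0)]⟩) .k 1 (⟨0,[]⟩,⟨0,[]⟩) .k .k) (.R ⟨0,
  false,false,true,[1,-1,-1],[1,-1],[],(⟨0,[(13,0)]⟩,⟨4,[(0,1),(14,0),(0,0),(8,2),(0,0),(6,0)]⟩),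
  (⟨0,[(28,0)]⟩,⟨0,[(29,0)]⟩),⟨0,[(0,0)]⟩,.k,.k,(.r (-2) ⟨1,[(6,1),(3,1),(16,0),(11,1),(0,0)]⟩ ⟨1,
  [(1,2),(18,1),(1,0),(15,0),(1,0)]⟩),.k,.k,.k,⟨true,0,⟨1,[(1,0),(20,0),(15,0),(1,0)]⟩,⟨0,[(37,
  0)]⟩⟩,⟨false,1,⟨0,[(22,0),(16,0)]⟩,⟨8,[(1,1),(2,0),(2,0),(4,1),(6,1),(7,1)]⟩⟩,⟨false,0,⟨0,[(1,0),
  (18,0),(19,0)]⟩,⟨0,[(4,0),(17,0),(16,0)]⟩⟩,⟨true,0,⟨0,[(20,0)]⟩,⟨0,[(8,0)]⟩⟩,⟨false,0,⟨0,[]⟩,⟨0,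
  []⟩⟩,⟨false,0,⟨0,[]⟩,⟨0,[]⟩⟩,[.o ⟨false,0,⟨0,[(37,0)]⟩,⟨0,[(2,0),(37,0)]⟩⟩,.e ⟨false,1,⟨1,[(39,0),
  (0,0)]⟩,⟨0,[(42,0)]⟩⟩ ⟨false,2,⟨3,[(10,1),(4,0),(0,0),(5,3),(4,0),(11,5)]⟩,⟨0,[(1,0)]⟩⟩,.a ⟨true,
  (-1),⟨27,[(1,21),(8,10),(1,2),(13,1),(1,1),(4,5),(7,5)]⟩,⟨0,[(22,0),(16,0)]⟩⟩ ⟨false,1,⟨1,[(15,0),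
  (0,0),(23,0)]⟩,⟨0,[]⟩⟩ ⟨true,1,⟨3,[(10,1),(11,3),(4,0),(7,1),(3,2)]⟩,⟨0,[(1,0)]⟩⟩,.o ⟨false,(-1),
  ⟨5,[(1,7),(8,3),(11,2),(0,0),(3,1)]⟩,⟨1,[(22,1),(4,0),(11,2)]⟩⟩]⟩) (.I [0,-1,-1,-1,1] (.S ⟨1,0,[0,
  1,-1,-1],[1,-1],[1,1],(⟨0,[(29,0)]⟩,⟨0,[(30,0)]⟩),⟨1,[(1,0),(13,0),(13,0)]⟩,.k,(.r (-2) ⟨1,[(11,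
  1),(4,0),(0,0),(10,0),(11,1)]⟩ ⟨0,[(2,0),(20,0),(15,0)]⟩),⟨false,0,⟨3,[(4,0),(1,0),(6,0),(9,1),
  (15,1),(1,0)]⟩,⟨0,[(0,0)]⟩⟩,⟨true,0,⟨0,[(43,0)]⟩,⟨0,[]⟩⟩,⟨true,(-1),⟨1,[(2,0),(0,0),(0,0),(29,0),
  (4,0)]⟩,⟨1,[(11,1),(16,0),(11,0)]⟩⟩,⟨false,0,⟨0,[(39,0)]⟩,⟨3,[(11,1),(4,0),(0,0),(10,0),(12,1)]⟩⟩,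
  [.o ⟨false,0,⟨0,[(38,0)]⟩,⟨0,[(3,0),(37,0)]⟩⟩,.e ⟨true,0,⟨0,[]⟩,⟨1,[(23,0),(0,0)]⟩⟩ ⟨true,1,⟨3,
  [(11,1),(4,0),(0,0),(10,0),(11,1)]⟩,⟨0,[(2,0),(20,0)]⟩⟩,.o ⟨false,0,⟨1,[(23,0),(0,0)]⟩,⟨1,[(28,0),
  (11,0)]⟩⟩,.a ⟨true,(-1),⟨2,[(2,0),(3,0),(4,0),(11,1),(8,0),(1,0),(7,0)]⟩,⟨0,[(40,0)]⟩⟩ ⟨false,1,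
  ⟨1,[(16,0),(0,0),(22,0)]⟩,⟨0,[(32,0)]⟩⟩ ⟨true,1,⟨3,[(11,1),(16,0),(7,1),(3,2)]⟩,⟨0,[(2,0),(20,
  0)]⟩⟩]⟩) (.Q [0,-1,0,1,1,0,1,1,0,-1,1] (.p true [0,0,1] [1] (⟨0,[(26,0)]⟩,⟨0,[(25,0)]⟩) .k 1 (⟨0,
  []⟩,⟨0,[]⟩) .k .k) (.S ⟨1,0,[0,0,1,1,0,0,0,1],[0,1,1],[1,1,1,0,0,0,0,1],(⟨22,[(17,2),(0,2),(8,22),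
  (0,4),(5,5),(0,2)]⟩,⟨0,[(15,0)]⟩),⟨0,[(27,0)]⟩,.k,.k,⟨true,0,⟨0,[(39,0)]⟩,⟨0,[(40,0)]⟩⟩,⟨false,1,
  ⟨1,[(17,0),(0,0),(23,0)]⟩,⟨0,[]⟩⟩,⟨false,0,⟨0,[]⟩,⟨1,[(17,0),(0,0),(23,0)]⟩⟩,⟨true,0,⟨0,[(40,0)]⟩,
  ⟨0,[(39,0)]⟩⟩,[.o ⟨false,1,⟨19,[(0,15),(4,3),(8,1),(2,2),(0,2),(3,3),(6,0),(7,3)]⟩,⟨0,[(6,0)]⟩⟩,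
  .o ⟨false,1,⟨0,[(0,0)]⟩,⟨1,[(6,0),(16,0),(15,0)]⟩⟩,.a ⟨true,1,⟨0,[(24,0),(16,0)]⟩,⟨27,[(3,21),(8,
  10),(1,2),(13,1),(1,1),(4,5),(7,5)]⟩⟩ ⟨true,(-1),⟨0,[(1,0),(7,0)]⟩,⟨1,[(8,1),(32,0),(0,0)]⟩⟩
  ⟨false,0,⟨8,[(0,5),(2,3),(5,0),(4,1),(7,1),(10,4),(1,1)]⟩,⟨0,[(6,0),(17,0),(16,0)]⟩⟩,.o ⟨false,1,
  ⟨1,[(24,1),(4,0),(11,0)]⟩,⟨8,[(3,1),(2,0),(2,0),(4,1),(6,1),(7,1)]⟩⟩]⟩) (.Q [0,-1,0,2,1,0,1,1,0,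
  -1,1] (.p true [0,0,1] [1] (⟨0,[(27,0)]⟩,⟨0,[(26,0)]⟩) .k 1 (⟨0,[]⟩,⟨0,[]⟩) .k .k) (.R ⟨1,true,
  false,false,[1,0,-1],[0,1],[0,0,0,0,0,0,0,-1],(⟨0,[(27,0)]⟩,⟨0,[(28,0)]⟩),(⟨0,[(32,0)]⟩,⟨0,[(31,
  0)]⟩),⟨0,[(16,0)]⟩,.k,.k,.k,.k,(.r (-2) ⟨1,[(9,1),(3,1),(16,0),(11,1),(0,0)]⟩ ⟨3,[(0,1),(3,3),(3,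
  0),(1,0),(12,0),(1,1),(10,0),(7,0)]⟩),.k,⟨true,1,⟨0,[(7,0),(17,0),(16,0)]⟩,⟨6,[(0,1),(3,5),(3,1),
  (1,4),(14,5),(10,0)]⟩⟩,⟨false,2,⟨1,[(25,1),(4,0),(11,2)]⟩,⟨6,[(1,0),(2,3),(5,0),(2,0),(1,0),(18,
  0),(1,1),(7,1)]⟩⟩,⟨false,1,⟨1,[(18,0),(0,0),(23,0)]⟩,⟨0,[]⟩⟩,⟨true,1,⟨3,[(0,1),(17,0),(0,0),(3,1),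
  (6,0)]⟩,⟨0,[(1,0)]⟩⟩,⟨true,0,⟨0,[(41,0)]⟩,⟨0,[(40,0)]⟩⟩,⟨false,1,⟨0,[(0,0)]⟩,⟨0,[(11,0),(1,0)]⟩⟩,
  []⟩) (.Q [-1,0,0,1,0,0,0,0,-1,0,0,-1] (.p false [0,0,0,0,1] [] (⟨0,[(21,0)]⟩,⟨0,[(20,0)]⟩) .k 0
  (⟨0,[]⟩,⟨0,[]⟩) .k .k) (.R ⟨2,true,false,true,[0,1],[0,0,0,0,1],[1,0,1],(⟨0,[]⟩,⟨0,[]⟩),(⟨0,[(22,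
  0)]⟩,⟨0,[(21,0)]⟩),⟨0,[]⟩,.k,.k,.k,(.r 0 ⟨8,[(7,1),(1,1),(6,1),(9,3),(15,4),(1,1),(0,0)]⟩ ⟨3,[(14,
  1),(4,0),(0,0),(10,0),(11,1)]⟩),.k,.k,⟨true,0,⟨0,[(35,0)]⟩,⟨0,[(46,0)]⟩⟩,⟨false,0,⟨0,[(20,0)]⟩,⟨5,
  [(0,3),(13,1),(4,1),(11,0),(11,2)]⟩⟩,⟨false,1,⟨3,[(14,1),(4,0),(0,0),(10,0),(12,1)]⟩,⟨0,[(42,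
  0)]⟩⟩,⟨true,0,⟨0,[(20,0),(20,0)]⟩,⟨0,[(0,0)]⟩⟩,⟨true,0,⟨0,[]⟩,⟨0,[(46,0)]⟩⟩,⟨false,0,⟨0,[(20,0)]⟩,
  ⟨5,[(0,3),(13,1),(4,1),(11,0),(12,2)]⟩⟩,[]⟩) (.Q [0,0,-2,0,0,0,-1,0,0,1,-1] (.p false [0,0,1] [1]
  (⟨0,[(29,0)]⟩,⟨0,[(28,0)]⟩) .k 1 (⟨0,[]⟩,⟨0,[]⟩) .k .k) (.R ⟨0,false,false,false,[0,-1,1],[1,-1],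
  [0,0,0,-1],(⟨0,[(19,0)]⟩,⟨22,[(20,2),(0,2),(7,22),(1,4),(5,5),(0,2)]⟩),(⟨0,[(33,0)]⟩,⟨0,[(34,
  0)]⟩),⟨2,[(5,0),(12,1),(12,0),(5,2)]⟩,.k,.k,(.x 0 ⟨3,[(18,3),(8,4),(0,0),(8,3),(8,1)]⟩ ⟨8,[(0,4),
  (4,2),(11,1),(1,11),(12,4),(11,3)]⟩),.k,.k,.k,⟨true,0,⟨1,[(27,0),(0,0)]⟩,⟨0,[]⟩⟩,⟨false,0,⟨0,[(24,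
  0)]⟩,⟨1,[(27,1),(4,0),(11,0)]⟩⟩,⟨true,0,⟨0,[(13,0),(13,0)]⟩,⟨1,[(0,0),(6,0),(4,0),(12,0)]⟩⟩,
  ⟨false,0,⟨2,[(3,0),(9,1),(24,0),(4,0),(1,1)]⟩,⟨1,[(25,1),(6,0),(12,0)]⟩⟩,⟨false,0,⟨0,[]⟩,⟨0,[]⟩⟩,
  ⟨false,0,⟨0,[]⟩,⟨0,[]⟩⟩,[.a ⟨true,0,⟨21,[(15,10),(1,2),(9,5),(3,1),(1,1),(4,2),(5,2)]⟩,⟨0,[(43,
  0)]⟩⟩ ⟨false,1,⟨5,[(1,1),(13,1),(4,1),(11,0),(11,2)]⟩,⟨0,[(43,0)]⟩⟩ ⟨true,0,⟨5,[(0,2),(8,0),(2,0),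
  (2,1),(1,0)]⟩,⟨0,[(8,0),(32,0)]⟩⟩,.o ⟨false,1,⟨5,[(1,1),(13,1),(4,1),(11,0),(12,2)]⟩,⟨0,[(7,0)]⟩⟩,
  .a ⟨true,0,⟨0,[(27,0)]⟩,⟨0,[(24,0)]⟩⟩ ⟨false,1,⟨5,[(1,1),(13,1),(4,1),(11,0),(12,2)]⟩,⟨0,[(43,
  0)]⟩⟩ ⟨true,0,⟨5,[(0,2),(8,0),(2,0),(2,1),(1,0)]⟩,⟨0,[(8,0)]⟩⟩,.a ⟨true,0,⟨1,[(27,2),(0,0)]⟩,⟨0,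
  [(0,0)]⟩⟩ ⟨true,1,⟨5,[(1,1),(13,1),(4,1),(11,0),(11,2)]⟩,⟨0,[(4,0)]⟩⟩ ⟨false,1,⟨5,[(0,3),(14,2),
  (1,0),(14,0),(11,1),(0,2)]⟩,⟨0,[(8,0),(32,0)]⟩⟩]⟩) (.Q [-1,1,0,0,-1,0,-1,-1,-1,1,-1,-1] (.p false
  [0,0,1] [1,0,0,0,-1] (⟨0,[(30,0)]⟩,⟨0,[(29,0)]⟩) .k 2 (⟨0,[(22,0)]⟩,⟨0,[(23,0)]⟩) .k (.r 0 ⟨0,
  [(12,0),(30,0)]⟩ ⟨1,[(11,1),(8,0),(0,0),(23,0)]⟩)) (.Q [0,0,0,0,0,-1,0,0,0,0,0,1] (.ed false [1,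
  -1,0,0,1] .k) (.S ⟨1,0,[1],[0,0,0,0,1],[1,1],(⟨0,[(25,0)]⟩,⟨0,[(24,0)]⟩),⟨0,[(0,0)]⟩,.k,(.r (-1)
  ⟨5,[(3,1),(13,1),(4,1),(11,0),(11,2)]⟩ ⟨8,[(10,1),(1,1),(6,1),(9,3),(15,4),(1,1),(0,0)]⟩),⟨true,0,
  ⟨0,[(49,0)]⟩,⟨0,[]⟩⟩,⟨false,1,⟨1,[(22,0),(0,0),(23,0)]⟩,⟨0,[]⟩⟩,⟨false,0,⟨0,[(45,0)]⟩,⟨5,[(3,1),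
  (13,1),(4,1),(11,0),(12,2)]⟩⟩,⟨true,0,⟨0,[(45,0)]⟩,⟨0,[(44,0)]⟩⟩,[.e ⟨true,0,⟨0,[(49,0)]⟩,⟨0,[(38,
  0)]⟩⟩ ⟨true,0,⟨0,[]⟩,⟨2,[(2,0),(16,0),(9,0)]⟩⟩,.o ⟨false,1,⟨1,[(23,1),(10,0),(12,0)]⟩,⟨1,[(1,1),
  (25,1),(6,0),(12,0)]⟩⟩,.a ⟨true,0,⟨0,[(23,0)]⟩,⟨0,[(1,0),(25,0),(19,0)]⟩⟩ ⟨false,0,⟨0,[]⟩,⟨1,[(22,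
  0),(0,0),(23,0)]⟩⟩ ⟨true,0,⟨0,[]⟩,⟨0,[(49,0)]⟩⟩,.o ⟨false,0,⟨2,[(2,0),(0,0),(4,0),(14,1),(17,0)]⟩,
  ⟨1,[(1,1),(25,1),(6,0),(11,0),(0,1)]⟩⟩]⟩) (.S ⟨1,0,[-1,1],[1,0,0,0,-1],[-1],(⟨0,[(24,0)]⟩,⟨0,[(25,
  0)]⟩),⟨1,[(0,0),(6,0),(13,0),(2,0)]⟩,.k,(.r (-1) ⟨21,[(3,3),(13,3),(4,3),(11,1),(9,9),(1,10),(0,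
  4)]⟩ ⟨3,[(10,0),(1,0),(6,0),(9,1),(15,1),(1,0)]⟩),⟨false,1,⟨1,[(22,0),(0,0),(23,0)]⟩,⟨0,[]⟩⟩,
  ⟨true,0,⟨0,[(49,0)]⟩,⟨0,[]⟩⟩,⟨true,0,⟨0,[(45,0)]⟩,⟨0,[(44,0)]⟩⟩,⟨false,0,⟨0,[(45,0)]⟩,⟨5,[(3,1),
  (13,1),(4,1),(11,0),(12,2)]⟩⟩,[.o ⟨false,0,⟨1,[(1,1),(25,1),(6,0),(12,0)]⟩,⟨1,[(23,1),(10,0),(12,
  0)]⟩⟩,.e ⟨false,1,⟨0,[(38,0),(7,0)]⟩,⟨0,[(49,0)]⟩⟩ ⟨false,1,⟨9,[(22,3),(0,3),(22,4),(0,0),(1,1)]⟩,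
  ⟨0,[]⟩⟩,.a ⟨true,0,⟨0,[(1,0),(25,0),(19,0)]⟩,⟨0,[(23,0)]⟩⟩ ⟨false,1,⟨4,[(22,1),(0,1),(23,2),(1,
  0)]⟩,⟨0,[]⟩⟩ ⟨true,0,⟨0,[(49,0)]⟩,⟨0,[]⟩⟩,.o ⟨false,0,⟨9,[(1,9),(0,3),(5,1),(5,1),(12,7),(6,2),
  (12,8)]⟩,⟨1,[(23,1),(10,0),(11,0)]⟩⟩]⟩)) (.Q [0,0,0,0,-1,0,-2,-2,0,1,-2] (.p false [0,0,1] [1,0,
  -1] (⟨0,[(31,0)]⟩,⟨0,[(30,0)]⟩) .k 2 (⟨0,[(30,0)]⟩,⟨0,[(31,0)]⟩) .k (.r 0 ⟨0,[(13,1),(30,1)]⟩ ⟨0,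
  [(12,1),(33,0)]⟩)) (.Q [-1,1,0,1,-1,0,-1,-1,-1,1,-1,-1] (.p false [0,0,1] [1,0,0,0,-1] (⟨0,[(32,
  0)]⟩,⟨0,[(31,0)]⟩) .k 2 (⟨0,[(24,0)]⟩,⟨0,[(25,0)]⟩) .k (.r 0 ⟨0,[(14,0),(30,0)]⟩ ⟨1,[(13,1),(8,0),
  (0,0),(23,0)]⟩)) (.R ⟨1,true,false,true,[0,0,1],[1,0,0,0,-1],[1,1,0,-1,0,0,0,1],(⟨0,[(33,0)]⟩,⟨0,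
  [(32,0)]⟩),(⟨0,[(25,0)]⟩,⟨0,[(26,0)]⟩),⟨0,[(22,0)]⟩,.k,.k,.k,.k,(.r (-1) ⟨6,[(2,1),(12,4),(2,0),
  (1,0),(2,1),(19,0),(3,2)]⟩ ⟨7,[(1,2),(9,3),(2,1),(5,0),(9,3),(15,3),(1,2)]⟩),.k,⟨true,0,⟨0,[(15,
  0)]⟩,⟨7,[(1,2),(9,3),(2,1),(5,0),(9,3),(15,3),(1,2)]⟩⟩,⟨false,0,⟨1,[(0,1),(14,1),(31,0),(0,0)]⟩,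
  ⟨0,[(2,0),(11,0)]⟩⟩,⟨true,0,⟨0,[(45,0)]⟩,⟨0,[(46,0)]⟩⟩,⟨false,0,⟨14,[(0,7),(0,2),(3,0),(12,2),(4,
  6),(24,4),(1,0)]⟩,⟨0,[(2,0)]⟩⟩,⟨false,0,⟨0,[]⟩,⟨1,[(23,0),(0,0),(23,0)]⟩⟩,⟨true,(-1),⟨0,[(0,0)]⟩,
  ⟨0,[(2,0),(42,0)]⟩⟩,[]⟩) (.I [1,1,-1,-1,0,0,0,1] (.Q [0,-1,0,2,0,0,-1,-1,0,0,-1] (.p false [0,0,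
  1] [] (⟨0,[(34,0)]⟩,⟨0,[(33,0)]⟩) .k 0 (⟨0,[]⟩,⟨0,[]⟩) .k .k) (.R ⟨1,false,false,false,[0,0,1],[0,
  1],[],(⟨0,[(35,0)]⟩,⟨0,[(34,0)]⟩),(⟨0,[(39,0)]⟩,⟨0,[(38,0)]⟩),⟨0,[(24,0)]⟩,.k,.k,.k,.k,(.x 0 ⟨8,
  [(5,3),(16,0),(9,6),(1,8),(7,5),(8,2)]⟩ ⟨17,[(0,3),(0,3),(1,1),(6,5),(6,3),(6,23),(4,9),(7,8),(11,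
  10)]⟩),.k,⟨true,1,⟨9,[(2,1),(17,3),(4,1),(5,1),(5,0),(11,4)]⟩,⟨0,[(11,0),(20,0)]⟩⟩,⟨false,1,⟨1,
  [(29,1),(7,0),(11,0)]⟩,⟨0,[(32,0)]⟩⟩,⟨false,1,⟨0,[(16,0),(33,0)]⟩,⟨1,[(0,0),(16,1),(12,0)]⟩⟩,
  ⟨true,0,⟨1,[(0,0),(30,0)]⟩,⟨0,[(1,0),(30,0)]⟩⟩,⟨false,1,⟨3,[(0,1),(15,1),(8,0),(0,0),(5,1),(16,0),
  (0,1)]⟩,⟨0,[(17,0)]⟩⟩,⟨false,0,⟨0,[(0,0)]⟩,⟨7,[(1,0),(0,2),(14,1),(2,4),(4,2),(4,1),(1,2),(4,0),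
  (11,0)]⟩⟩,[.e ⟨false,1,⟨1,[(25,0),(0,0),(22,0)]⟩,⟨0,[]⟩⟩ ⟨false,0,⟨0,[(0,0),(0,0)]⟩,⟨2,[(2,0),(13,
  0),(3,0),(4,0),(6,1),(16,0)]⟩⟩,.o ⟨false,1,⟨0,[(12,0),(37,0)]⟩,⟨0,[(47,0)]⟩⟩,.o ⟨false,1,⟨1,[(32,
  1),(4,0),(11,0)]⟩,⟨9,[(0,0),(0,0),(1,0),(7,0),(5,1),(4,2),(14,1)]⟩⟩,.a ⟨true,0,⟨0,[(32,0)]⟩,⟨0,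
  [(29,0)]⟩⟩ ⟨false,1,⟨1,[(49,0),(0,0)]⟩,⟨2,[(5,0),(16,0),(9,0)]⟩⟩ ⟨true,0,⟨0,[(0,0),(0,0)]⟩,⟨0,
  [(32,0),(14,0)]⟩⟩]⟩) (.Q [0,0,0,1,1,0,2,2,0,-1,2] (.p true [0,0,1] [1,0,-1] (⟨0,[(35,0)]⟩,⟨0,[(34,
  0)]⟩) .k 2 (⟨0,[(34,0)]⟩,⟨0,[(35,0)]⟩) .k (.r 0 ⟨0,[(17,1),(30,1)]⟩ ⟨0,[(16,1),(33,0)]⟩)) (.R ⟨1,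
  true,false,true,[1,0,-1],[0,0,1],[0,0,0,0,0,0,0,-1],(⟨0,[(35,0)]⟩,⟨0,[(36,0)]⟩),(⟨0,[(36,0)]⟩,⟨0,
  [(35,0)]⟩),⟨0,[(24,0)]⟩,.k,.k,.k,.k,(.x 1 ⟨32,[(8,1),(3,31),(2,12),(2,14),(4,8),(10,0),(1,65),(6,
  10),(7,0)]⟩ ⟨1,[(11,3),(21,3),(4,0),(4,1),(6,2)]⟩),.k,⟨true,1,⟨1,[(4,1),(28,3),(4,0),(11,1),(0,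
  0)]⟩,⟨0,[(12,0),(5,0),(12,0)]⟩⟩,⟨false,2,⟨1,[(33,3),(4,0),(11,2)]⟩,⟨2,[(4,0),(7,1),(5,1),(11,
  1)]⟩⟩,⟨false,1,⟨1,[(26,0),(0,0),(23,0)]⟩,⟨0,[]⟩⟩,⟨true,1,⟨0,[(0,0),(47,0)]⟩,⟨0,[(4,0)]⟩⟩,⟨true,0,
  ⟨0,[(49,0)]⟩,⟨0,[(48,0)]⟩⟩,⟨false,1,⟨0,[(0,0)]⟩,⟨2,[(4,1),(10,0),(5,0),(10,0),(18,1)]⟩⟩,[]⟩) (.Q
  [0,0,1,0,-1,0,-1,0,-1,1,-1,-1] (.p false [0,0,1] [1,0,0,0,-1] (⟨0,[(36,0)]⟩,⟨0,[(35,0)]⟩) .k 2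
  (⟨0,[(28,0)]⟩,⟨0,[(29,0)]⟩) .k (.r 0 ⟨0,[(18,0),(30,0)]⟩ ⟨1,[(17,1),(8,0),(0,0),(23,0)]⟩)) (.Q [0,
  0,0,2,1,0,2,2,0,-1,2] (.p true [0,0,1] [1,0,-1] (⟨0,[(37,0)]⟩,⟨0,[(36,0)]⟩) .k 2 (⟨0,[(36,0)]⟩,⟨0,
  [(37,0)]⟩) .k (.r 0 ⟨0,[(19,1),(30,1)]⟩ ⟨0,[(18,1),(33,0)]⟩)) (.R ⟨1,true,false,true,[1,0,-1],[0,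
  1,1],[0,0,0,0,0,0,0,-1],(⟨0,[(37,0)]⟩,⟨0,[(38,0)]⟩),(⟨22,[(28,2),(0,2),(8,22),(0,4),(5,5),(0,2)]⟩,
  ⟨0,[(26,0)]⟩),⟨0,[(26,0)]⟩,.k,.k,.k,(.r (-1) ⟨1,[(2,1),(32,3),(4,0),(11,2)]⟩ ⟨16,[(0,10),(7,0),(5,
  6),(5,11),(4,3),(10,7),(9,3)]⟩),(.r (-2) ⟨1,[(10,1),(8,1),(15,1),(4,0),(11,2),(0,1)]⟩ ⟨60,[(0,40),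
  (7,7),(5,53),(3,25),(1,39),(4,4),(18,25),(1,21)]⟩),.k,⟨false,2,⟨1,[(2,1),(32,3),(4,0),(11,3),(0,
  0)]⟩,⟨5,[(0,1),(3,0),(9,4),(3,1),(1,3),(12,2),(12,0)]⟩⟩,⟨true,2,⟨1,[(35,3),(4,0),(11,2)]⟩,⟨0,[(14,
  1),(8,0)]⟩⟩,⟨false,1,⟨1,[(28,0),(0,0),(23,0)]⟩,⟨0,[]⟩⟩,⟨true,1,⟨0,[(0,0),(49,0)]⟩,⟨0,[(2,0)]⟩⟩,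
  ⟨true,0,⟨0,[(51,0)]⟩,⟨0,[(50,0)]⟩⟩,⟨false,1,⟨0,[(0,0)]⟩,⟨4,[(2,2),(14,2),(5,1),(10,0),(18,2)]⟩⟩,
  []⟩) (.Q [0,0,0,0,0,-1,0,0,0,0,0,1] (.ed false [1,-1,0,0,1] .k) (.S ⟨1,0,[1,1],[0,0,0,0,1],[],(⟨0,
  [(32,0)]⟩,⟨0,[(31,0)]⟩),⟨0,[(0,0)]⟩,.k,(.r (-1) ⟨9,[(6,1),(17,3),(4,1),(5,1),(5,0),(11,4)]⟩ ⟨8,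
  [(17,1),(1,1),(6,1),(9,3),(15,4),(1,1),(0,0)]⟩),⟨false,1,⟨4,[(29,1),(0,1),(23,2),(1,0)]⟩,⟨0,[]⟩⟩,
  ⟨true,0,⟨0,[(56,0)]⟩,⟨0,[]⟩⟩,⟨true,0,⟨0,[(13,0),(31,0),(7,0)]⟩,⟨0,[(51,0)]⟩⟩,⟨false,0,⟨0,[(52,
  0)]⟩,⟨11,[(1,0),(4,3),(17,2),(4,3),(5,1),(18,4)]⟩⟩,[.o ⟨false,0,⟨0,[(10,0),(5,0)]⟩,⟨1,[(2,1),(33,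
  1),(4,0),(11,1),(0,0)]⟩⟩,.a ⟨true,0,⟨0,[(30,0)]⟩,⟨0,[(2,0),(33,0),(16,0)]⟩⟩ ⟨false,1,⟨1,[(53,0),
  (0,0)]⟩,⟨0,[(56,0)]⟩⟩ ⟨true,0,⟨0,[]⟩,⟨2,[(9,0),(16,0),(9,0)]⟩⟩,.e ⟨false,1,⟨1,[(29,0),(0,0),(23,
  0)]⟩,⟨0,[]⟩⟩ ⟨false,0,⟨0,[]⟩,⟨1,[(29,0),(0,0),(23,0)]⟩⟩,.o ⟨false,0,⟨2,[(9,0),(0,0),(4,0),(14,1),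
  (17,0)]⟩,⟨1,[(2,1),(33,1),(4,0),(11,2)]⟩⟩]⟩) (.R ⟨0,false,false,true,[0,0,0,0,1],[0,1],[],(⟨0,
  [(32,0)]⟩,⟨0,[(31,0)]⟩),(⟨0,[(43,0)]⟩,⟨0,[(42,0)]⟩),⟨0,[(0,0)]⟩,.k,.k,(.r (-1) ⟨9,[(6,1),(17,3),
  (4,1),(5,1),(5,0),(11,4)]⟩ ⟨8,[(17,1),(1,1),(6,1),(9,3),(15,4),(1,1),(0,0)]⟩),(.r (-1) ⟨9,[(6,1),
  (17,3),(4,1),(5,1),(5,0),(11,4)]⟩ ⟨8,[(17,1),(1,1),(6,1),(9,3),(15,4),(1,1),(0,0)]⟩),.k,.k,⟨false,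
  2,⟨11,[(1,0),(4,3),(17,2),(4,3),(5,1),(17,11),(0,4)]⟩,⟨0,[(13,0)]⟩⟩,⟨true,1,⟨1,[(2,1),(33,1),(4,
  0),(11,2)]⟩,⟨0,[(10,0),(2,0),(31,0)]⟩⟩,⟨false,1,⟨4,[(29,1),(0,1),(23,2),(1,0)]⟩,⟨0,[]⟩⟩,⟨true,0,
  ⟨0,[(2,0),(14,0),(35,0)]⟩,⟨0,[(10,0)]⟩⟩,⟨false,0,⟨0,[]⟩,⟨0,[]⟩⟩,⟨false,0,⟨0,[]⟩,⟨0,[]⟩⟩,[.o
  ⟨false,0,⟨0,[(16,0)]⟩,⟨11,[(1,0),(4,3),(17,2),(4,3),(5,1),(18,4)]⟩⟩,.e ⟨false,1,⟨1,[(53,0),(0,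
  0)]⟩,⟨0,[(56,0)]⟩⟩ ⟨false,1,⟨1,[(2,1),(14,1),(35,2),(0,0)]⟩,⟨41,[(1,8),(2,7),(1,9),(6,1),(0,0),
  (13,0),(1,31),(9,2),(12,0)]⟩⟩,.a ⟨true,0,⟨0,[(30,0)]⟩,⟨0,[(2,0),(33,0),(16,0)]⟩⟩ ⟨false,1,⟨1,[(29,
  0),(0,0),(23,0)]⟩,⟨0,[]⟩⟩ ⟨true,0,⟨0,[(2,0),(14,0),(35,0)]⟩,⟨41,[(1,8),(2,7),(1,9),(6,1),(0,0),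
  (13,0),(1,31),(9,2),(12,0)]⟩⟩,.o ⟨false,0,⟨2,[(9,0),(0,0),(4,0),(14,1),(17,0)]⟩,⟨1,[(2,1),(33,1),
  (4,0),(11,2)]⟩⟩]⟩))) (.Q [0,0,0,0,0,1,0,0,0,0,0,-1] (.ed true [1,-1,0,0,1] .k) (.Q [1,1,0,-1,-1,0,
  0,0,1,0,0,1] (.p true [0,0,0,0,1] [] (⟨0,[(31,0)]⟩,⟨0,[(30,0)]⟩) .k 0 (⟨0,[]⟩,⟨0,[]⟩) .k .k) (.R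
  ⟨0,false,false,false,[0,0,0,0,1],[0,1],[],(⟨0,[(32,0)]⟩,⟨0,[(31,0)]⟩),(⟨0,[(43,0)]⟩,⟨0,[(42,0)]⟩),
  ⟨0,[(1,0)]⟩,.k,.k,(.r (-1) ⟨9,[(2,1),(21,4),(1,0),(2,1),(11,1),(11,3)]⟩ ⟨8,[(17,1),(1,1),(6,1),(9,
  3),(15,4),(1,1),(0,0)]⟩),(.r (-1) ⟨9,[(2,1),(21,4),(1,0),(2,1),(11,1),(11,3)]⟩ ⟨8,[(17,1),(1,1),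
  (6,1),(9,3),(15,4),(1,1),(0,0)]⟩),.k,.k,⟨true,1,⟨9,[(2,1),(21,4),(1,0),(2,1),(11,1),(11,3)]⟩,⟨0,
  [(15,0),(20,0)]⟩⟩,⟨false,2,⟨0,[(29,0),(23,0)]⟩,⟨6,[(0,4),(1,1),(10,0),(1,1),(29,5),(1,0),(4,1)]⟩⟩,
  ⟨false,1,⟨4,[(2,0),(23,0),(2,0),(6,0),(17,2),(1,0)]⟩,⟨0,[]⟩⟩,⟨true,1,⟨0,[(29,0),(22,0)]⟩,⟨0,[(0,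
  0)]⟩⟩,⟨false,0,⟨0,[]⟩,⟨0,[]⟩⟩,⟨false,0,⟨0,[]⟩,⟨0,[]⟩⟩,[.a ⟨true,0,⟨0,[(52,0)]⟩,⟨11,[(2,0),(21,5),
  (1,0),(2,0),(6,0),(3,1),(1,1),(4,1)]⟩⟩ ⟨false,1,⟨9,[(2,3),(23,1),(2,3),(17,0),(5,2)]⟩,⟨0,[]⟩⟩
  ⟨true,1,⟨0,[(29,0),(22,0)]⟩,⟨0,[(0,0),(44,0)]⟩⟩,.o ⟨false,1,⟨0,[(16,0),(37,0)]⟩,⟨0,[(51,0)]⟩⟩,.o
  ⟨false,0,⟨3,[(0,1),(1,1),(12,1),(32,0),(5,0)]⟩,⟨0,[(29,0)]⟩⟩,.e ⟨false,1,⟨1,[(53,0),(0,0)]⟩,⟨2,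
  [(9,0),(16,0),(9,0)]⟩⟩ ⟨false,2,⟨1,[(29,1),(22,1),(0,0),(0,0)]⟩,⟨0,[(0,0),(44,0)]⟩⟩]⟩) (.Q [0,0,1,
  0,-1,0,0,0,1,0,0,1] (.p true [0,0,0,0,1] [] (⟨0,[(32,0)]⟩,⟨0,[(31,0)]⟩) .k 0 (⟨0,[]⟩,⟨0,[]⟩) .k
  .k) (.S ⟨1,0,[-1,1],[1,0,0,0,-1],[-1],(⟨0,[(32,0)]⟩,⟨0,[(33,0)]⟩),⟨1,[(2,0),(12,0),(13,0),(2,0)]⟩,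
  .k,(.r (-1) ⟨13,[(3,1),(21,4),(1,0),(2,1),(18,1),(2,3),(1,5),(0,1)]⟩ ⟨3,[(18,0),(1,0),(6,0),(9,1),
  (15,1),(1,0)]⟩),⟨false,1,⟨3,[(3,0),(23,0),(2,0),(6,0),(17,1)]⟩,⟨0,[]⟩⟩,⟨true,0,⟨0,[(57,0)]⟩,⟨0,
  []⟩⟩,⟨true,0,⟨0,[(53,0)]⟩,⟨0,[(52,0)]⟩⟩,⟨false,0,⟨0,[(53,0)]⟩,⟨6,[(7,1),(11,0),(5,1),(4,1),(5,0),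
  (18,2)]⟩⟩,[.a ⟨true,0,⟨4,[(1,4),(10,2),(1,0),(20,2),(12,0),(1,0),(6,0)]⟩,⟨1,[(0,1),(53,0),(0,
  0)]⟩⟩ ⟨false,1,⟨25,[(3,7),(23,3),(2,7),(10,3),(1,3),(10,8),(0,0),(1,1)]⟩,⟨0,[]⟩⟩ ⟨true,0,⟨0,[(57,
  0)]⟩,⟨0,[(51,0)]⟩⟩,.o ⟨false,1,⟨1,[(1,0),(28,0),(21,0)]⟩,⟨1,[(0,1),(41,0),(11,0)]⟩⟩,.o ⟨false,1,
  ⟨0,[(30,0)]⟩,⟨1,[(0,1),(41,0),(11,0)]⟩⟩,.e ⟨false,1,⟨0,[(46,0),(7,0)]⟩,⟨2,[(10,0),(16,0),(9,0)]⟩⟩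
  ⟨false,1,⟨25,[(3,7),(23,3),(2,7),(10,3),(1,3),(10,8),(0,0),(1,1)]⟩,⟨0,[(51,0)]⟩⟩]⟩) (.R ⟨0,false,
  false,false,[0,0,0,0,1],[0,1],[1,1],(⟨0,[(33,0)]⟩,⟨0,[(32,0)]⟩),(⟨0,[(44,0)]⟩,⟨0,[(43,0)]⟩),⟨0,
  [(2,0)]⟩,.k,.k,(.r (-1) ⟨9,[(3,1),(21,4),(1,0),(2,1),(11,1),(11,3)]⟩ ⟨8,[(18,1),(1,1),(6,1),(9,3),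
  (15,4),(1,1),(0,0)]⟩),(.r (-1) ⟨9,[(3,1),(21,4),(1,0),(2,1),(11,1),(11,3)]⟩ ⟨8,[(18,1),(1,1),(6,
  1),(9,3),(15,4),(1,1),(0,0)]⟩),.k,.k,⟨false,1,⟨3,[(25,1),(16,0),(7,1),(3,2)]⟩,⟨1,[(16,0),(20,0),
  (15,0),(1,0)]⟩⟩,⟨true,1,⟨0,[(0,0)]⟩,⟨0,[(11,0),(2,0),(31,0)]⟩⟩,⟨true,0,⟨0,[(57,0)]⟩,⟨0,[]⟩⟩,
  ⟨false,1,⟨0,[(1,0)]⟩,⟨0,[(11,0)]⟩⟩,⟨false,0,⟨0,[]⟩,⟨0,[]⟩⟩,⟨false,0,⟨0,[]⟩,⟨0,[]⟩⟩,[.a ⟨true,0,⟨0,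
  [(53,0)]⟩,⟨11,[(3,0),(21,5),(1,0),(2,0),(6,0),(3,1),(1,1),(4,1)]⟩⟩ ⟨true,0,⟨0,[(57,0)]⟩,⟨0,[(46,
  0)]⟩⟩ ⟨false,1,⟨0,[(0,0),(52,0)]⟩,⟨8,[(3,0),(3,1),(4,2),(9,0),(8,5),(14,0)]⟩⟩,.o ⟨false,1,⟨0,[(17,
  0),(37,0)]⟩,⟨0,[(52,0)]⟩⟩,.e ⟨false,0,⟨0,[]⟩,⟨3,[(3,0),(23,0),(2,0),(6,0),(17,1)]⟩⟩ ⟨false,1,⟨0,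
  [(1,0)]⟩,⟨8,[(3,0),(3,1),(4,2),(9,0),(8,5),(14,0)]⟩⟩,.o ⟨false,0,⟨2,[(10,0),(0,0),(4,0),(14,1),
  (17,0)]⟩,⟨0,[(0,0)]⟩⟩]⟩))) (.Q [0,0,1,0,-1,0,0,0,1,0,0,1] (.p true [0,0,0,0,1] [] (⟨0,[(31,0)]⟩,
  ⟨0,[(30,0)]⟩) .k 0 (⟨0,[]⟩,⟨0,[]⟩) .k .k) (.Q [0,0,-1,-1,1,0,0,0,-1,1,0,-1] (.p false [0,0,0,0,1]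
  [1] (⟨0,[(32,0)]⟩,⟨0,[(31,0)]⟩) .k 1 (⟨0,[]⟩,⟨0,[]⟩) .k .k) (.R ⟨1,false,false,false,[0,0,0,0,1],
  [1,-1],[],(⟨0,[(33,0)]⟩,⟨0,[(32,0)]⟩),(⟨0,[(43,0)]⟩,⟨0,[(44,0)]⟩),⟨0,[(2,0)]⟩,.k,.k,(.r (-1) ⟨31,
  [(0,13),(2,7),(3,5),(4,5),(14,3),(14,4),(11,4)]⟩ ⟨8,[(18,1),(1,1),(6,1),(9,3),(15,4),(1,1),(0,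
  0)]⟩),(.r 0 ⟨3,[(18,0),(1,0),(6,0),(9,1),(15,1),(1,0)]⟩ ⟨11,[(0,1),(2,1),(21,2),(1,0),(21,1),(2,
  3),(1,3),(0,1)]⟩),.k,.k,⟨false,0,⟨0,[(53,0)]⟩,⟨31,[(0,13),(2,7),(3,5),(4,5),(14,3),(14,4),(11,
  4)]⟩⟩,⟨true,0,⟨4,[(0,3),(9,0),(3,2),(1,0),(13,0),(15,2),(1,0)]⟩,⟨1,[(1,1),(40,0),(11,0)]⟩⟩,⟨false,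
  1,⟨4,[(3,0),(23,0),(2,0),(6,0),(17,2),(1,0)]⟩,⟨0,[]⟩⟩,⟨false,1,⟨0,[(0,0),(45,0)]⟩,⟨0,[(3,0),(12,
  0)]⟩⟩,⟨true,0,⟨0,[(14,0),(31,0),(7,0)]⟩,⟨0,[(52,0)]⟩⟩,⟨false,1,⟨5,[(0,3),(29,1),(15,3),(1,0),(4,
  3),(1,0)]⟩,⟨1,[(1,1),(40,0),(11,0)]⟩⟩,[.e ⟨false,1,⟨4,[(0,0),(2,1),(23,0),(2,0),(22,0),(0,0)]⟩,⟨0,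
  []⟩⟩ ⟨false,1,⟨0,[(0,0)]⟩,⟨0,[(3,0),(12,0)]⟩⟩,.o ⟨false,1,⟨6,[(7,1),(11,0),(5,1),(4,1),(5,0),(18,
  2)]⟩,⟨0,[(17,0)]⟩⟩,.o ⟨false,0,⟨1,[(1,1),(40,0),(11,0)]⟩,⟨0,[(30,0)]⟩⟩,.a ⟨true,(-1),⟨0,[(1,0)]⟩,
  ⟨0,[(0,0),(52,0)]⟩⟩ ⟨false,1,⟨1,[(54,0),(0,0)]⟩,⟨2,[(10,0),(16,0),(9,0)]⟩⟩ ⟨true,1,⟨0,[(0,0)]⟩,⟨0,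
  [(1,0),(15,0)]⟩⟩]⟩) (.R ⟨1,false,false,false,[0,0,0,0,1],[0,1],[],(⟨0,[(33,0)]⟩,⟨0,[(32,0)]⟩),(⟨0,
  [(44,0)]⟩,⟨0,[(43,0)]⟩),⟨0,[(2,0)]⟩,.k,.k,(.r (-1) ⟨9,[(3,1),(21,4),(1,0),(2,1),(11,1),(11,3)]⟩
  ⟨8,[(18,1),(1,1),(6,1),(9,3),(15,4),(1,1),(0,0)]⟩),(.r (-1) ⟨9,[(3,1),(21,4),(1,0),(2,1),(11,1),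
  (11,3)]⟩ ⟨8,[(18,1),(1,1),(6,1),(9,3),(15,4),(1,1),(0,0)]⟩),(.r (-2) ⟨4,[(3,1),(21,4),(1,0),(2,1),
  (11,1),(11,3)]⟩ ⟨0,[(16,0),(20,0),(15,0)]⟩),.k,⟨true,1,⟨9,[(3,1),(21,4),(1,0),(2,1),(11,1),(11,
  3)]⟩,⟨0,[(16,0),(20,0)]⟩⟩,⟨false,2,⟨0,[(30,0),(23,0)]⟩,⟨0,[(1,0)]⟩⟩,⟨false,1,⟨4,[(3,0),(23,0),(2,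
  0),(6,0),(17,2),(1,0)]⟩,⟨0,[]⟩⟩,⟨true,1,⟨0,[(30,0),(22,0)]⟩,⟨21,[(0,10),(0,3),(1,6),(1,2),(0,6),
  (5,9),(35,3),(1,0)]⟩⟩,⟨true,0,⟨0,[(14,0),(31,0),(7,0)]⟩,⟨0,[(52,0)]⟩⟩,⟨true,1,⟨0,[(30,0),(22,1)]⟩,
  ⟨7,[(0,5),(4,3),(1,1),(4,5),(35,0),(5,2)]⟩⟩,[.a ⟨true,0,⟨0,[(53,0)]⟩,⟨11,[(3,0),(21,5),(1,0),(2,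
  0),(6,0),(3,1),(1,1),(4,1)]⟩⟩ ⟨false,1,⟨9,[(3,3),(23,1),(2,3),(17,0),(5,2)]⟩,⟨0,[]⟩⟩ ⟨true,1,⟨0,
  [(30,0),(22,0)]⟩,⟨0,[(0,0),(24,0)]⟩⟩,.o ⟨false,1,⟨0,[(17,0),(37,0)]⟩,⟨0,[(52,0)]⟩⟩,.o ⟨false,0,
  ⟨110,[(0,53),(2,39),(0,14),(1,13),(0,16),(4,2),(9,1),(4,11),(21,14)]⟩,⟨0,[(30,0)]⟩⟩,.e ⟨false,1,
  ⟨1,[(54,0),(0,0)]⟩,⟨2,[(10,0),(16,0),(9,0)]⟩⟩ ⟨false,2,⟨1,[(30,1),(22,1),(0,0),(0,0)]⟩,⟨0,[(0,0),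
  (24,0)]⟩⟩]⟩)) (.R ⟨1,false,false,false,[0,0,0,0,1],[0,1],[1,1],(⟨0,[(32,0)]⟩,⟨0,[(31,0)]⟩),(⟨0,
  [(43,0)]⟩,⟨0,[(42,0)]⟩),⟨0,[(1,0)]⟩,.k,.k,(.r (-1) ⟨9,[(2,1),(21,4),(1,0),(2,1),(11,1),(11,3)]⟩
  ⟨8,[(17,1),(1,1),(6,1),(9,3),(15,4),(1,1),(0,0)]⟩),(.r (-1) ⟨9,[(2,1),(21,4),(1,0),(2,1),(11,1),
  (11,3)]⟩ ⟨8,[(17,1),(1,1),(6,1),(9,3),(15,4),(1,1),(0,0)]⟩),(.r (-2) ⟨4,[(2,1),(21,4),(1,0),(2,1),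
  (11,1),(11,3)]⟩ ⟨0,[(15,0),(20,0),(15,0)]⟩),.k,⟨false,1,⟨3,[(24,1),(16,0),(7,1),(3,2)]⟩,⟨1,[(15,
  0),(20,0),(15,0),(1,0)]⟩⟩,⟨true,1,⟨0,[(0,0)]⟩,⟨0,[(10,0),(2,0),(31,0)]⟩⟩,⟨true,0,⟨0,[(56,0)]⟩,⟨0,
  []⟩⟩,⟨false,1,⟨1,[(0,1),(14,0),(20,0),(15,0),(1,0)]⟩,⟨0,[(10,0)]⟩⟩,⟨false,0,⟨0,[(52,0)]⟩,⟨6,[(6,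
  1),(11,0),(5,1),(4,1),(5,0),(18,2)]⟩⟩,⟨false,1,⟨1,[(0,1),(14,0),(20,0),(15,2),(1,0)]⟩,⟨1,[(6,0),
  (3,0),(0,0)]⟩⟩,[.a ⟨true,0,⟨0,[(52,0)]⟩,⟨11,[(2,0),(21,5),(1,0),(2,0),(6,0),(3,1),(1,1),(4,1)]⟩⟩
  ⟨true,0,⟨0,[(56,0)]⟩,⟨0,[(45,0)]⟩⟩ ⟨false,1,⟨0,[(0,0),(51,0)]⟩,⟨8,[(2,0),(3,1),(4,2),(9,0),(8,5),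
  (14,0)]⟩⟩,.o ⟨false,1,⟨0,[(16,0),(37,0)]⟩,⟨0,[(51,0)]⟩⟩,.e ⟨false,0,⟨0,[]⟩,⟨3,[(2,0),(23,0),(2,0),
  (6,0),(17,1)]⟩⟩ ⟨false,1,⟨1,[(0,1),(14,0),(20,0),(15,0),(1,0)]⟩,⟨8,[(2,0),(3,1),(4,2),(9,0),(8,5),
  (14,0)]⟩⟩,.o ⟨false,0,⟨2,[(9,0),(0,0),(4,0),(14,1),(17,0)]⟩,⟨0,[(0,0)]⟩⟩]⟩)))))) (.S ⟨1,0,[0,0,0,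
  0,0,0,0,1],[0,0,1],[1,1,0,-1,0,0,0,1],(⟨0,[(34,0)]⟩,⟨0,[(33,0)]⟩),⟨0,[(23,0)]⟩,.k,.k,⟨true,0,⟨0,
  [(46,0)]⟩,⟨0,[(47,0)]⟩⟩,⟨false,1,⟨1,[(24,0),(0,0),(23,0)]⟩,⟨0,[]⟩⟩,⟨false,0,⟨0,[]⟩,⟨1,[(24,0),(0,
  0),(23,0)]⟩⟩,⟨true,0,⟨0,[(47,0)]⟩,⟨0,[(46,0)]⟩⟩,[.o ⟨false,1,⟨1,[(29,1),(6,0),(12,0)]⟩,⟨0,[(17,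
  0)]⟩⟩,.a ⟨true,1,⟨0,[(29,0),(19,0)]⟩,⟨4,[(2,1),(4,0),(0,0),(33,0),(1,0),(6,0)]⟩⟩ ⟨true,0,⟨0,[(16,
  0)]⟩,⟨11,[(0,7),(11,3),(2,3),(5,1),(2,0),(0,0),(16,0)]⟩⟩ ⟨false,1,⟨1,[(16,1),(30,1),(0,0),(0,0)]⟩,
  ⟨0,[(15,0)]⟩⟩,.o ⟨false,1,⟨1,[(31,1),(4,0),(11,0)]⟩,⟨11,[(2,0),(7,1),(5,1),(4,2),(6,1),(7,2)]⟩⟩,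
  .e ⟨false,1,⟨7,[(1,1),(14,3),(1,1),(0,0),(1,0),(2,1),(23,3)]⟩,⟨0,[(0,0)]⟩⟩ ⟨false,1,⟨1,[(16,1),
  (30,1),(0,0),(0,0)]⟩,⟨3,[(0,1),(3,0),(10,0),(3,0),(10,0)]⟩⟩]⟩))) (.I [0,0,-2,-2,1,0,0,1] (.R ⟨0,
  false,false,true,[0,-1,1],[1,-1,-1],[1,1],(⟨0,[(22,0)]⟩,⟨22,[(23,2),(0,2),(7,22),(1,4),(5,5),(0,
  2)]⟩),(⟨0,[(21,0)]⟩,⟨22,[(23,2),(0,2),(8,22),(0,4),(5,5),(0,2)]⟩),⟨2,[(8,0),(12,1),(12,0),(5,2)]⟩,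
  .k,.k,(.r (-1) ⟨0,[(0,0)]⟩ ⟨3,[(11,0),(1,0),(2,3),(3,0),(9,5),(15,5),(1,0)]⟩),.k,.k,.k,⟨false,0,
  ⟨3,[(1,1),(7,1),(9,1),(21,0),(5,0)]⟩,⟨3,[(5,1),(8,1),(15,1),(4,0),(11,2),(0,1)]⟩⟩,⟨true,(-1),⟨14,
  [(0,3),(4,3),(3,15),(10,0),(6,7),(13,0),(6,1)]⟩,⟨1,[(30,3),(4,0),(11,0)]⟩⟩,⟨false,0,⟨0,[(16,0),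
  (13,0),(15,0)]⟩,⟨5,[(0,2),(0,0),(7,0),(5,0),(11,0),(20,2)]⟩⟩,⟨true,(-1),⟨4,[(6,3),(3,0),(5,5),(24,
  0),(4,2)]⟩,⟨0,[(1,0)]⟩⟩,⟨false,0,⟨0,[]⟩,⟨0,[]⟩⟩,⟨false,0,⟨0,[]⟩,⟨0,[]⟩⟩,[.e ⟨true,0,⟨0,[(50,0)]⟩,
  ⟨0,[(39,0)]⟩⟩ ⟨true,(-1),⟨0,[(5,0),(3,0),(37,0)]⟩,⟨1,[(1,0),(9,0),(1,0),(16,1),(17,1)]⟩⟩,.o
  ⟨false,0,⟨0,[(12,0)]⟩,⟨2,[(1,0),(0,0),(7,0),(12,0),(22,1)]⟩⟩,.a ⟨true,0,⟨0,[(30,0)]⟩,⟨0,[(27,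
  0)]⟩⟩ ⟨false,0,⟨0,[]⟩,⟨1,[(23,0),(0,0),(23,0)]⟩⟩ ⟨true,(-1),⟨0,[(5,0),(3,0),(37,0)]⟩,⟨2,[(1,0),(0,
  0),(8,0),(11,0),(6,1),(15,1)]⟩⟩,.o ⟨false,0,⟨0,[(3,0)]⟩,⟨6,[(0,0),(8,1),(6,0),(3,1),(14,0),(11,
  6)]⟩⟩]⟩) (.R ⟨1,true,false,false,[0,0,1],[1,0,-1],[0,1,0,0,0,0,0,1],(⟨0,[(33,0)]⟩,⟨0,[(32,0)]⟩),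
  (⟨0,[(32,0)]⟩,⟨0,[(33,0)]⟩),⟨0,[(22,0)]⟩,.k,.k,.k,.k,(.r (-1) ⟨1,[(1,0),(13,1),(4,0),(26,0)]⟩ ⟨3,
  [(0,3),(4,1),(8,1),(15,1),(4,0),(11,2),(0,1)]⟩),.k,⟨false,0,⟨0,[(9,0),(5,0),(12,0),(18,0)]⟩,⟨1,
  [(0,1),(4,1),(24,1),(4,0),(11,2),(0,1)]⟩⟩,⟨true,(-1),⟨5,[(5,1),(3,5),(5,1),(11,3),(19,0),(0,0)]⟩,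
  ⟨1,[(30,3),(4,0),(11,0)]⟩⟩,⟨true,0,⟨0,[(50,0)]⟩,⟨0,[]⟩⟩,⟨false,0,⟨11,[(0,1),(5,3),(9,17),(10,1),
  (13,2),(5,0),(0,7)]⟩,⟨0,[(1,0)]⟩⟩,⟨false,0,⟨0,[(46,0)]⟩,⟨5,[(4,1),(13,1),(4,1),(11,0),(12,2)]⟩⟩,
  ⟨true,(-1),⟨1,[(0,1),(4,1),(3,1),(37,2),(0,0)]⟩,⟨0,[(1,0),(43,0)]⟩⟩,[]⟩)))))))))) (.Q [0,1,0,0,-1,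
  0,-1,-1,0,1,-1] (.p false [0,0,1] [1] (⟨0,[(24,0)]⟩,⟨0,[(23,0)]⟩) .k 1 (⟨0,[]⟩,⟨0,[]⟩) .k .k) (.Q
  [0,0,0,0,0,2,0,0,0,-1,1] (.p true [0,0,1] [1] (⟨0,[(25,0)]⟩,⟨0,[(24,0)]⟩) .k 1 (⟨0,[]⟩,⟨0,[]⟩) .k
  .k) (.R ⟨0,false,false,true,[1,-1,-1],[1,-1],[],(⟨0,[(14,0)]⟩,⟨22,[(16,2),(0,2),(8,22),(0,4),(5,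
  5),(0,2)]⟩),(⟨0,[(29,0)]⟩,⟨0,[(30,0)]⟩),⟨0,[(0,0)]⟩,.k,.k,(.r (-2) ⟨9,[(2,13),(2,5),(7,1),(8,3),
  (5,0),(11,2),(0,1)]⟩ ⟨0,[(3,1),(4,0),(23,0),(1,0),(2,0),(1,0)]⟩),.k,.k,.k,⟨true,0,⟨0,[(37,0),(1,
  0)]⟩,⟨0,[(38,0)]⟩⟩,⟨false,1,⟨0,[(23,0),(16,0)]⟩,⟨2,[(5,0),(2,0),(3,1)]⟩⟩,⟨false,0,⟨0,[(8,0),(28,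
  0),(1,1)]⟩,⟨0,[(2,0),(6,0)]⟩⟩,⟨true,0,⟨0,[(21,0)]⟩,⟨0,[(9,0)]⟩⟩,⟨false,0,⟨0,[]⟩,⟨0,[]⟩⟩,⟨false,0,
  ⟨0,[]⟩,⟨0,[]⟩⟩,[.o ⟨false,0,⟨0,[(38,0)]⟩,⟨0,[(3,0),(37,0)]⟩⟩,.a ⟨true,0,⟨6,[(2,0),(8,2),(1,0),(9,
  0),(3,0),(1,0),(4,0)]⟩,⟨0,[(39,0)]⟩⟩ ⟨false,1,⟨1,[(40,0),(0,0)]⟩,⟨0,[(43,0)]⟩⟩ ⟨true,1,⟨0,[(2,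
  0)]⟩,⟨0,[(6,0),(30,0)]⟩⟩,.e ⟨false,1,⟨1,[(16,0),(0,0),(23,0)]⟩,⟨0,[]⟩⟩ ⟨false,1,⟨0,[(2,0)]⟩,⟨0,
  [(6,0),(34,0)]⟩⟩,.o ⟨false,(-1),⟨0,[(1,0),(1,0),(4,0),(28,1)]⟩,⟨3,[(2,1),(1,1),(23,0),(11,3),(0,
  0)]⟩⟩]⟩) (.Q [0,-1,0,1,1,0,1,1,0,-1,1] (.p true [0,0,1] [1] (⟨0,[(26,0)]⟩,⟨0,[(25,0)]⟩) .k 1 (⟨0,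
  []⟩,⟨0,[]⟩) .k .k) (.R ⟨2,true,false,true,[0,1],[1,0,-1],[1,1,1],(⟨0,[]⟩,⟨0,[]⟩),(⟨0,[(26,0)]⟩,⟨0,
  [(27,0)]⟩),⟨0,[]⟩,.k,.k,.k,.k,.k,.k,⟨false,0,⟨5,[(0,1),(3,0),(2,0),(1,3),(11,0),(13,0)]⟩,⟨1,[(8,
  1),(32,0),(0,0)]⟩⟩,⟨true,(-1),⟨5,[(2,0),(3,0),(0,2),(1,1),(11,0),(11,3),(1,1)]⟩,⟨3,[(3,1),(1,1),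
  (23,0),(12,0)]⟩⟩,⟨true,0,⟨0,[(39,0)]⟩,⟨0,[(40,0)]⟩⟩,⟨false,0,⟨5,[(2,1),(5,1),(1,1),(1,2),(1,0),
  (27,1)]⟩,⟨0,[(0,0)]⟩⟩,⟨false,0,⟨0,[]⟩,⟨1,[(17,0),(0,0),(23,0)]⟩⟩,⟨true,(-1),⟨0,[(2,0)]⟩,⟨5,[(0,2),
  (2,0),(8,0),(9,2),(2,0),(3,1)]⟩⟩,[]⟩) (.Q [0,-1,0,2,1,0,1,1,0,-1,1] (.p true [0,0,1] [1] (⟨0,[(27,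
  0)]⟩,⟨0,[(26,0)]⟩) .k 1 (⟨0,[]⟩,⟨0,[]⟩) .k .k) (.R ⟨1,true,false,false,[1,0,-1],[0,1],[0,0,0,0,0,
  0,0,-1],(⟨0,[(27,0)]⟩,⟨0,[(28,0)]⟩),(⟨0,[(32,0)]⟩,⟨0,[(31,0)]⟩),⟨0,[(16,0)]⟩,.k,.k,.k,.k,(.r (-2)
  ⟨9,[(4,13),(2,5),(7,1),(8,3),(5,0),(11,2),(0,1)]⟩ ⟨4,[(0,0),(4,8),(2,0),(1,3),(23,8),(1,4),(4,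
  1)]⟩),.k,⟨true,1,⟨0,[(4,0),(6,0)]⟩,⟨0,[(5,1),(4,0),(23,0),(1,0),(2,0)]⟩⟩,⟨false,2,⟨2,[(0,0),(3,1),
  (4,0),(20,0),(11,1)]⟩,⟨2,[(1,0),(6,1),(1,0),(23,0),(1,0),(6,0)]⟩⟩,⟨false,1,⟨1,[(18,0),(0,0),(23,
  0)]⟩,⟨0,[]⟩⟩,⟨true,1,⟨3,[(0,1),(17,0),(0,0),(3,1),(6,0)]⟩,⟨0,[(1,0)]⟩⟩,⟨true,0,⟨0,[(41,0)]⟩,⟨0,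
  [(40,0)]⟩⟩,⟨false,1,⟨0,[(0,0)]⟩,⟨0,[(11,0),(1,0)]⟩⟩,[]⟩) (.I [1,0,2,1,-1] (.I [0,-1,-1,-1,1] (.S
  ⟨1,0,[0,1,-1,-1],[1,-1],[0,0,-1,-1],(⟨0,[(33,0)]⟩,⟨0,[(34,0)]⟩),⟨1,[(4,0),(14,0),(13,0)]⟩,.k,(.r
  (-2) ⟨3,[(0,2),(5,3),(10,1),(14,0),(7,0),(1,0)]⟩ ⟨0,[(1,0),(41,0)]⟩),⟨false,1,⟨1,[(20,0),(0,0),
  (23,0)]⟩,⟨0,[]⟩⟩,⟨true,0,⟨0,[(47,0)]⟩,⟨0,[]⟩⟩,⟨true,0,⟨0,[(43,0)]⟩,⟨0,[(42,0)]⟩⟩,⟨false,0,⟨0,[(43,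
  0)]⟩,⟨5,[(6,1),(8,1),(12,1),(3,0),(12,2)]⟩⟩,[.o ⟨false,0,⟨0,[(42,0)]⟩,⟨0,[(7,0),(37,0)]⟩⟩,.e
  ⟨true,1,⟨0,[(0,0)]⟩,⟨0,[(10,0),(16,0)]⟩⟩ ⟨true,1,⟨7,[(0,2),(5,3),(10,1),(14,0),(7,0),(1,0)]⟩,⟨0,
  [(1,0)]⟩⟩,.o ⟨false,0,⟨1,[(27,0),(0,0)]⟩,⟨1,[(32,0),(11,0)]⟩⟩,.a ⟨true,(-1),⟨13,[(1,9),(13,4),(1,
  0),(9,1),(10,3),(7,5)]⟩,⟨0,[(44,0)]⟩⟩ ⟨false,2,⟨5,[(0,1),(5,3),(10,1),(14,0),(11,2),(0,1)]⟩,⟨0,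
  [(1,0)]⟩⟩ ⟨true,1,⟨0,[(0,0),(39,0)]⟩,⟨0,[(1,0)]⟩⟩]⟩) (.Q [-1,1,0,0,0,0,0,0,-1,0,0,-1] (.p false
  [0,0,0,0,1] [] (⟨0,[(23,0)]⟩,⟨0,[(22,0)]⟩) .k 0 (⟨0,[]⟩,⟨0,[]⟩) .k .k) (.Q [0,0,0,0,0,-1,0,0,0,0,
  0,1] (.ed false [1,-1,0,0,1] .k) (.S ⟨1,0,[1],[0,0,0,0,1],[1,1],(⟨0,[(25,0)]⟩,⟨0,[(24,0)]⟩),⟨0,
  [(0,0)]⟩,.k,(.r (-1) ⟨3,[(8,1),(8,0),(1,0),(14,0),(11,0)]⟩ ⟨6,[(3,0),(6,1),(8,1),(9,1),(15,3),(1,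
  0),(0,0)]⟩),⟨true,0,⟨0,[(49,0)]⟩,⟨0,[]⟩⟩,⟨false,1,⟨1,[(22,0),(0,0),(23,0)]⟩,⟨0,[]⟩⟩,⟨false,0,⟨0,
  [(45,0)]⟩,⟨5,[(8,1),(8,1),(12,1),(3,0),(12,2)]⟩⟩,⟨true,0,⟨0,[(45,0)]⟩,⟨0,[(44,0)]⟩⟩,[.e ⟨true,0,
  ⟨0,[(49,0)]⟩,⟨0,[(38,0)]⟩⟩ ⟨true,0,⟨0,[]⟩,⟨1,[(29,0),(0,0)]⟩⟩,.o ⟨false,1,⟨1,[(23,1),(10,0),(12,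
  0)]⟩,⟨0,[(1,0)]⟩⟩,.a ⟨true,0,⟨0,[(23,0)]⟩,⟨1,[(1,1),(38,0),(6,0)]⟩⟩ ⟨false,0,⟨0,[]⟩,⟨1,[(22,0),(0,
  0),(23,0)]⟩⟩ ⟨true,0,⟨0,[]⟩,⟨0,[(49,0)]⟩⟩,.e ⟨false,1,⟨1,[(22,0),(0,0),(22,0)]⟩,⟨0,[(38,0)]⟩⟩
  ⟨false,1,⟨1,[(46,0),(0,0)]⟩,⟨1,[(29,0),(0,0)]⟩⟩]⟩) (.S ⟨1,0,[-1,1],[1,0,0,0,-1],[-1],(⟨0,[(24,
  0)]⟩,⟨0,[(25,0)]⟩),⟨1,[(0,0),(5,0),(14,0),(2,0)]⟩,.k,(.r (-1) ⟨5,[(8,1),(8,0),(1,0),(21,0),(2,1),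
  (1,1),(0,0)]⟩ ⟨5,[(3,0),(6,1),(8,1),(9,1),(15,2),(1,0)]⟩),⟨false,1,⟨1,[(22,0),(0,0),(23,0)]⟩,⟨0,
  []⟩⟩,⟨true,0,⟨0,[(49,0)]⟩,⟨0,[]⟩⟩,⟨true,0,⟨0,[(45,0)]⟩,⟨0,[(44,0)]⟩⟩,⟨false,0,⟨0,[(45,0)]⟩,⟨5,[(8,
  1),(8,1),(12,1),(3,0),(12,2)]⟩⟩,[.o ⟨false,0,⟨0,[(1,0)]⟩,⟨1,[(23,1),(10,0),(12,0)]⟩⟩,.e ⟨false,1,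
  ⟨0,[(38,0),(7,0)]⟩,⟨0,[(49,0)]⟩⟩ ⟨false,1,⟨9,[(22,3),(0,3),(22,4),(0,0),(1,1)]⟩,⟨0,[]⟩⟩,.a ⟨true,
  0,⟨1,[(1,1),(38,0),(6,0)]⟩,⟨0,[(23,0)]⟩⟩ ⟨false,1,⟨4,[(22,1),(0,1),(23,2),(1,0)]⟩,⟨0,[]⟩⟩ ⟨true,0,
  ⟨0,[(49,0)]⟩,⟨0,[]⟩⟩,.o ⟨false,0,⟨0,[(1,0),(41,0)]⟩,⟨1,[(23,1),(10,0),(11,0)]⟩⟩]⟩)) (.Q [0,0,1,0,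
  -1,0,0,0,1,0,0,1] (.p true [0,0,0,0,1] [] (⟨0,[(24,0)]⟩,⟨0,[(23,0)]⟩) .k 0 (⟨0,[]⟩,⟨0,[]⟩) .k .k)
  (.Q [-1,0,0,0,1,0,0,0,-1,0,0,-1] (.p false [0,0,0,0,1] [] (⟨0,[(25,0)]⟩,⟨0,[(24,0)]⟩) .k 0 (⟨0,
  []⟩,⟨0,[]⟩) .k .k) (.Q [0,0,0,0,0,-1,0,0,0,0,0,1] (.ed false [1,-1,0,0,1] .k) (.Q [-1,0,0,-1,0,0,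
  -1,-1,-1,1,-1,-1] (.p false [0,0,1] [1,0,0,0,-1] (⟨0,[(34,0)]⟩,⟨0,[(33,0)]⟩) .k 2 (⟨0,[(26,0)]⟩,
  ⟨0,[(27,0)]⟩) .k (.r 0 ⟨0,[(16,0),(30,0)]⟩ ⟨1,[(1,0),(13,1),(9,0),(23,0)]⟩)) (.S ⟨1,0,[1],[0,0,0,
  0,1],[1,1],(⟨0,[(28,0)]⟩,⟨0,[(27,0)]⟩),⟨0,[(1,0)]⟩,.k,(.r (-1) ⟨3,[(11,1),(8,0),(1,0),(14,0),(11,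
  0)]⟩ ⟨6,[(6,0),(6,1),(8,1),(9,1),(15,3),(1,0),(0,0)]⟩),⟨true,0,⟨0,[(52,0)]⟩,⟨0,[]⟩⟩,⟨false,1,⟨1,
  [(2,0),(23,0),(23,0)]⟩,⟨0,[]⟩⟩,⟨false,0,⟨0,[(48,0)]⟩,⟨5,[(11,1),(8,1),(12,1),(3,0),(12,2)]⟩⟩,
  ⟨true,0,⟨0,[(48,0)]⟩,⟨0,[(47,0)]⟩⟩,[.o ⟨false,0,⟨1,[(3,1),(33,0),(11,0)]⟩,⟨0,[(2,0)]⟩⟩,.a ⟨true,0,
  ⟨0,[(4,0)]⟩,⟨5,[(0,3),(1,1),(2,1),(24,3),(12,0),(4,1),(0,0)]⟩⟩ ⟨true,0,⟨0,[]⟩,⟨1,[(32,0),(0,0)]⟩⟩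
  ⟨false,1,⟨1,[(49,0),(0,0)]⟩,⟨0,[(52,0)]⟩⟩,.o ⟨false,0,⟨1,[(3,1),(33,0),(11,0)]⟩,⟨0,[(25,0)]⟩⟩,.e
  ⟨false,1,⟨1,[(2,0),(23,0),(22,0)]⟩,⟨0,[(41,0)]⟩⟩ ⟨false,1,⟨1,[(49,0),(0,0)]⟩,⟨1,[(32,0),(0,
  0)]⟩⟩]⟩) (.S ⟨1,0,[1,1],[0,0,0,0,1],[],(⟨0,[(28,0)]⟩,⟨0,[(27,0)]⟩),⟨0,[(1,0)]⟩,.k,(.r (-1) ⟨3,
  [(11,1),(8,0),(1,0),(14,0),(11,0)]⟩ ⟨6,[(6,0),(6,1),(8,1),(9,1),(15,3),(1,0),(0,0)]⟩),⟨false,1,⟨1,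
  [(2,0),(23,0),(23,0)]⟩,⟨0,[]⟩⟩,⟨true,0,⟨0,[(52,0)]⟩,⟨0,[]⟩⟩,⟨true,0,⟨0,[(5,0),(35,0),(7,0)]⟩,⟨0,
  [(47,0)]⟩⟩,⟨false,0,⟨0,[(48,0)]⟩,⟨5,[(11,1),(8,1),(12,1),(3,0),(12,2)]⟩⟩,[.a ⟨true,(-1),⟨1,[(0,1),
  (6,0),(2,0)]⟩,⟨1,[(2,1),(38,1),(1,0),(5,0)]⟩⟩ ⟨false,1,⟨1,[(2,0),(23,0),(22,0)]⟩,⟨0,[]⟩⟩ ⟨true,0,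
  ⟨0,[(52,0)]⟩,⟨0,[(41,0)]⟩⟩,.o ⟨false,0,⟨2,[(0,1),(3,0),(2,0),(10,0),(18,0)]⟩,⟨0,[(2,0)]⟩⟩,.e
  ⟨false,1,⟨1,[(2,0),(23,0),(23,0)]⟩,⟨0,[]⟩⟩ ⟨false,0,⟨0,[]⟩,⟨1,[(2,0),(23,0),(23,0)]⟩⟩,.e ⟨false,1,
  ⟨1,[(49,0),(0,0)]⟩,⟨1,[(32,0),(0,0)]⟩⟩ ⟨false,1,⟨1,[(2,0),(23,0),(22,0)]⟩,⟨0,[(41,0)]⟩⟩]⟩)) (.Q
  [1,0,0,-1,0,0,1,1,1,-1,1,1] (.p true [0,0,1] [1,0,0,0,-1] (⟨0,[(34,0)]⟩,⟨0,[(33,0)]⟩) .k 2 (⟨0,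
  [(26,0)]⟩,⟨0,[(27,0)]⟩) .k (.r 0 ⟨0,[(16,0),(30,0)]⟩ ⟨1,[(1,0),(13,1),(9,0),(23,0)]⟩)) (.R ⟨0,
  false,false,false,[0,0,0,0,1],[0,1],[1,1,1],(⟨0,[(28,0)]⟩,⟨0,[(27,0)]⟩),(⟨0,[(39,0)]⟩,⟨0,[(38,
  0)]⟩),⟨0,[(1,0)]⟩,.k,.k,(.r (-1) ⟨3,[(11,1),(8,0),(1,0),(14,0),(11,0)]⟩ ⟨6,[(6,0),(6,1),(8,1),(9,
  1),(15,3),(1,0),(0,0)]⟩),(.r (-1) ⟨3,[(11,1),(8,0),(1,0),(14,0),(11,0)]⟩ ⟨6,[(6,0),(6,1),(8,1),(9,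
  1),(15,3),(1,0),(0,0)]⟩),.k,.k,⟨true,0,⟨0,[(47,0)]⟩,⟨1,[(6,0),(41,0),(1,0)]⟩⟩,⟨false,2,⟨0,[(2,0),
  (46,0)]⟩,⟨0,[(3,0)]⟩⟩,⟨false,0,⟨1,[(32,0),(0,0)]⟩,⟨1,[(49,0),(0,0)]⟩⟩,⟨true,1,⟨0,[(2,0),(45,0)]⟩,
  ⟨0,[(0,0),(9,0)]⟩⟩,⟨false,0,⟨0,[]⟩,⟨0,[]⟩⟩,⟨false,0,⟨0,[]⟩,⟨0,[]⟩⟩,[.a ⟨true,0,⟨0,[(48,0)]⟩,⟨6,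
  [(11,0),(8,2),(1,0),(9,0),(3,0),(1,0),(4,0)]⟩⟩ ⟨false,0,⟨0,[(52,0)]⟩,⟨1,[(49,0),(0,0)]⟩⟩ ⟨true,1,
  ⟨0,[(2,0),(45,0)]⟩,⟨2,[(0,0),(2,1),(3,0),(33,0)]⟩⟩,.o ⟨false,1,⟨0,[(12,0),(37,0)]⟩,⟨0,[(47,0)]⟩⟩,
  .o ⟨false,0,⟨8,[(0,0),(2,5),(0,1),(5,0),(1,0),(24,3),(11,2)]⟩,⟨0,[(25,0)]⟩⟩,.e ⟨false,0,⟨0,[]⟩,⟨1,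
  [(2,0),(23,0),(23,0)]⟩⟩ ⟨false,2,⟨1,[(2,1),(45,1),(0,0),(0,0)]⟩,⟨2,[(0,0),(2,1),(3,0),(33,
  0)]⟩⟩]⟩) (.S ⟨1,0,[-1,1],[1,0,0,0,-1],[-1],(⟨0,[(27,0)]⟩,⟨0,[(28,0)]⟩),⟨1,[(1,0),(7,0),(14,0),(2,
  0)]⟩,.k,(.r (-1) ⟨5,[(11,1),(8,0),(1,0),(21,0),(2,1),(1,1),(0,0)]⟩ ⟨5,[(6,0),(6,1),(8,1),(9,1),
  (15,2),(1,0)]⟩),⟨false,1,⟨1,[(2,0),(23,0),(23,0)]⟩,⟨0,[]⟩⟩,⟨true,0,⟨0,[(52,0)]⟩,⟨0,[]⟩⟩,⟨true,0,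
  ⟨0,[(48,0)]⟩,⟨0,[(47,0)]⟩⟩,⟨false,0,⟨0,[(48,0)]⟩,⟨5,[(11,1),(8,1),(12,1),(3,0),(12,2)]⟩⟩,[.a
  ⟨true,0,⟨0,[(0,0),(4,0),(5,0),(5,0)]⟩,⟨0,[(4,0)]⟩⟩ ⟨false,1,⟨1,[(2,0),(23,0),(22,0)]⟩,⟨0,[]⟩⟩
  ⟨true,0,⟨0,[(52,0)]⟩,⟨0,[(46,0)]⟩⟩,.o ⟨false,1,⟨0,[(2,0)]⟩,⟨1,[(3,1),(33,0),(11,0)]⟩⟩,.o ⟨false,1,
  ⟨0,[(25,0)]⟩,⟨1,[(3,1),(33,0),(11,0)]⟩⟩,.e ⟨false,1,⟨0,[(41,0),(7,0)]⟩,⟨1,[(32,0),(0,0)]⟩⟩ ⟨false,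
  1,⟨1,[(2,0),(23,0),(22,0)]⟩,⟨0,[(46,0)]⟩⟩]⟩))) (.R ⟨2,true,false,false,[0,1],[0,0,0,0,1],[1,1,1],
  (⟨0,[]⟩,⟨0,[]⟩),(⟨0,[(26,0)]⟩,⟨0,[(25,0)]⟩),⟨0,[]⟩,.k,.k,.k,(.r 0 ⟨6,[(4,0),(6,1),(8,1),(9,1),(15,
  3),(1,0),(0,0)]⟩ ⟨3,[(9,1),(8,0),(1,0),(14,0),(11,0)]⟩),.k,.k,⟨false,0,⟨0,[(50,0)]⟩,⟨1,[(47,0),(0,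
  0)]⟩⟩,⟨true,(-1),⟨0,[(1,0)]⟩,⟨0,[(23,0)]⟩⟩,⟨true,0,⟨0,[(45,0)]⟩,⟨0,[(46,0)]⟩⟩,⟨false,0,⟨3,[(0,1),
  (1,1),(15,1),(16,0),(12,0)]⟩,⟨0,[(23,0),(22,0)]⟩⟩,⟨false,0,⟨0,[]⟩,⟨1,[(23,0),(0,0),(23,0)]⟩⟩,
  ⟨true,(-1),⟨0,[(0,0)]⟩,⟨0,[(23,0),(26,0)]⟩⟩,[]⟩)) (.Q [-1,1,0,1,0,0,0,0,-1,0,0,-1] (.p false [0,0,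
  0,0,1] [] (⟨0,[(25,0)]⟩,⟨0,[(24,0)]⟩) .k 0 (⟨0,[]⟩,⟨0,[]⟩) .k .k) (.R ⟨2,true,false,false,[0,1],
  [0,0,0,0,1],[1,0,1],(⟨0,[]⟩,⟨0,[]⟩),(⟨0,[(26,0)]⟩,⟨0,[(25,0)]⟩),⟨0,[]⟩,.k,.k,.k,(.r 0 ⟨6,[(4,0),
  (6,1),(8,1),(9,1),(15,3),(1,0),(0,0)]⟩ ⟨3,[(9,1),(8,0),(1,0),(14,0),(11,0)]⟩),.k,.k,⟨true,0,⟨1,
  [(30,0),(0,0)]⟩,⟨0,[]⟩⟩,⟨false,0,⟨0,[(24,0)]⟩,⟨0,[(1,0)]⟩⟩,⟨false,1,⟨5,[(9,1),(8,1),(12,1),(3,0),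
  (12,2)]⟩,⟨0,[(46,0)]⟩⟩,⟨true,0,⟨6,[(2,1),(2,1),(3,0),(5,1),(8,4),(5,0),(4,0)]⟩,⟨0,[(0,0)]⟩⟩,⟨true,
  0,⟨0,[]⟩,⟨0,[(50,0)]⟩⟩,⟨false,0,⟨0,[(2,0)]⟩,⟨1,[(1,0),(21,0),(25,0)]⟩⟩,[]⟩) (.R ⟨1,false,false,
  false,[1,-1,-1],[1,0,0,0,-1],[0,0,-1,-1,0,0,0,-1],(⟨0,[(21,0)]⟩,⟨22,[(23,2),(0,2),(8,22),(0,4),(5,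
  5),(0,2)]⟩),(⟨0,[(25,0)]⟩,⟨0,[(26,0)]⟩),⟨0,[(7,0)]⟩,.k,.k,(.r (-2) ⟨9,[(9,13),(2,5),(7,1),(8,3),
  (5,0),(11,2),(0,1)]⟩ ⟨0,[(4,0),(10,0),(30,1)]⟩),(.r (-1) ⟨0,[(9,0),(6,0)]⟩ ⟨1,[(4,0),(12,0),(1,0),
  (8,0),(19,0)]⟩),(.r (-2) ⟨9,[(9,13),(2,5),(7,1),(8,3),(5,0),(11,2),(0,1)]⟩ ⟨0,[(4,0),(10,0),(30,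
  1)]⟩),.k,⟨true,1,⟨0,[(9,0),(6,0)]⟩,⟨0,[(4,0),(10,0),(30,0)]⟩⟩,⟨false,2,⟨0,[(1,0),(28,0),(16,0)]⟩,
  ⟨10,[(0,10),(2,0),(1,1),(7,8),(1,1),(23,0),(2,0),(3,6)]⟩⟩,⟨false,1,⟨1,[(23,0),(0,0),(23,0)]⟩,⟨0,
  []⟩⟩,⟨true,1,⟨1,[(1,1),(2,0),(23,1),(17,0),(1,0)]⟩,⟨1,[(0,1),(4,0),(2,0),(1,1)]⟩⟩,⟨true,0,⟨0,[(46,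
  0)]⟩,⟨0,[(45,0)]⟩⟩,⟨true,1,⟨1,[(1,1),(2,0),(23,1),(17,2),(1,0)]⟩,⟨0,[(0,0),(4,0),(4,0)]⟩⟩,[.o
  ⟨false,1,⟨1,[(1,0),(21,0),(25,0)]⟩,⟨0,[(0,0),(9,0)]⟩⟩,.o ⟨false,1,⟨0,[(1,0),(37,0)]⟩,⟨1,[(0,0),(9,
  1),(13,0),(20,0)]⟩⟩,.a ⟨true,(-1),⟨9,[(5,1),(7,5),(1,1),(11,1),(11,5),(1,2),(6,0)]⟩,⟨0,[(30,0),
  (16,0)]⟩⟩ ⟨true,1,⟨0,[(9,0),(6,0)]⟩,⟨0,[(3,0),(11,0),(30,0)]⟩⟩ ⟨false,2,⟨1,[(1,1),(28,1),(16,0),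
  (0,0)]⟩,⟨0,[(0,0),(12,0)]⟩⟩,.o ⟨false,(-1),⟨6,[(4,0),(0,1),(7,4),(1,1),(19,0),(8,6)]⟩,⟨3,[(9,1),
  (1,1),(23,0),(11,3),(0,0)]⟩⟩]⟩))))) (.S ⟨1,0,[0,0,-1,-1],[1,-1],[1,1,1],(⟨0,[(32,0)]⟩,⟨0,[(33,
  0)]⟩),⟨1,[(3,0),(14,0),(13,0)]⟩,.k,(.x 1 ⟨30,[(1,7),(5,12),(1,10),(1,7),(14,5),(3,4),(4,31),(0,
  18),(0,11)]⟩ ⟨0,[(31,0),(0,1),(10,0)]⟩),⟨true,(-1),⟨0,[(9,0),(16,0)]⟩,⟨0,[(0,0)]⟩⟩,⟨false,1,⟨1,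
  [(19,0),(0,0),(23,0)]⟩,⟨0,[]⟩⟩,⟨false,(-1),⟨0,[(6,1),(28,1),(1,0)]⟩,⟨9,[(0,7),(4,3),(8,3),(1,1),
  (14,2),(12,4)]⟩⟩,⟨true,0,⟨0,[(42,0)]⟩,⟨0,[(41,0)]⟩⟩,[.e ⟨false,0,⟨0,[(46,0)]⟩,⟨1,[(43,0),(0,0)]⟩⟩
  ⟨false,1,⟨0,[(0,0)]⟩,⟨3,[(7,0),(1,0),(6,0),(9,1),(15,1),(1,0)]⟩⟩,.o ⟨false,1,⟨5,[(5,1),(8,1),(12,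
  1),(3,0),(12,2)]⟩,⟨0,[(6,0)]⟩⟩,.o ⟨false,0,⟨1,[(26,0),(0,0)]⟩,⟨1,[(31,0),(11,0)]⟩⟩,.a ⟨true,(-1),
  ⟨12,[(1,0),(7,6),(1,0),(2,1),(11,7),(8,7),(1,4),(7,2)]⟩,⟨0,[(43,0)]⟩⟩ ⟨false,0,⟨0,[]⟩,⟨1,[(19,0),
  (0,0),(23,0)]⟩⟩ ⟨true,1,⟨0,[(0,0)]⟩,⟨0,[(9,0),(16,0)]⟩⟩]⟩))))) (.S ⟨1,0,[0,0,0,0,0,0,0,1],[0,0,1],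
  [0,1,0,0,0,0,0,1],(⟨0,[(25,0)]⟩,⟨0,[(24,0)]⟩),⟨0,[(14,0)]⟩,.k,.k,⟨true,0,⟨0,[(42,0)]⟩,⟨0,[]⟩⟩,
  ⟨false,1,⟨1,[(15,0),(0,0),(23,0)]⟩,⟨0,[]⟩⟩,⟨false,0,⟨0,[(38,0)]⟩,⟨5,[(1,1),(8,1),(12,1),(3,0),(12,
  2)]⟩⟩,⟨true,0,⟨0,[(38,0)]⟩,⟨0,[(37,0)]⟩⟩,[.o ⟨false,1,⟨3,[(0,1),(14,0),(0,0),(3,1),(6,0)]⟩,⟨0,[(8,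
  0)]⟩⟩,.o ⟨false,1,⟨0,[(0,0)]⟩,⟨0,[(21,0)]⟩⟩,.o ⟨false,1,⟨3,[(1,1),(1,1),(23,0),(12,0)]⟩,⟨2,[(4,0),
  (2,0),(3,1)]⟩⟩,.a ⟨true,0,⟨0,[(22,0)]⟩,⟨0,[(19,0)]⟩⟩ ⟨true,0,⟨1,[(2,1),(4,1),(25,0),(5,0)]⟩,⟨0,
  [(8,0),(13,0)]⟩⟩ ⟨false,1,⟨0,[(0,0),(18,0)]⟩,⟨0,[(8,0),(13,0)]⟩⟩]⟩)))))) (.R ⟨1,false,false,false,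
  [1,0,-1],[1,-1],[0,1,0,0,0,0,0,-1],(⟨0,[(19,0)]⟩,⟨0,[(20,0)]⟩),(⟨0,[(23,0)]⟩,⟨0,[(24,0)]⟩),⟨0,[(8,
  0)]⟩,.k,.k,.k,.k,.k,.k,⟨false,0,⟨0,[(1,0),(31,0)]⟩,⟨1,[(2,1),(31,0),(0,0)]⟩⟩,⟨true,0,⟨0,[(17,0)]⟩,
  ⟨1,[(2,0),(0,0),(2,0)]⟩⟩,⟨true,0,⟨0,[(37,0)]⟩,⟨0,[]⟩⟩,⟨false,1,⟨9,[(0,1),(1,3),(2,1),(9,5),(1,1),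
  (4,0),(12,6)]⟩,⟨0,[(3,0),(29,0)]⟩⟩,⟨false,0,⟨0,[(33,0)]⟩,⟨3,[(5,1),(4,0),(0,0),(10,0),(12,1)]⟩⟩,
  ⟨false,1,⟨0,[(15,0),(19,0)]⟩,⟨0,[(3,0)]⟩⟩,[.a ⟨true,0,⟨21,[(5,10),(1,2),(9,5),(3,1),(1,1),(4,2),
  (5,2)]⟩,⟨0,[(33,0)]⟩⟩ ⟨true,0,⟨0,[(1,0)]⟩,⟨0,[(2,0),(28,0),(1,0)]⟩⟩ ⟨false,1,⟨5,[(0,4),(9,0),(0,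
  0),(5,0),(12,1),(1,0)]⟩,⟨0,[(6,0)]⟩⟩,.e ⟨false,1,⟨1,[(1,1),(32,0),(0,0)]⟩,⟨0,[(2,0),(30,0)]⟩⟩
  ⟨false,1,⟨0,[(0,0)]⟩,⟨0,[(6,0),(30,0)]⟩⟩,.o ⟨false,0,⟨1,[(2,0),(0,0),(2,0)]⟩,⟨1,[(17,1),(4,0),(11,
  0)]⟩⟩,.e ⟨false,1,⟨1,[(1,1),(32,0),(0,0)]⟩,⟨0,[(2,0),(28,0),(1,0)]⟩⟩ ⟨false,1,⟨0,[(0,0)]⟩,⟨1,[(6,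
  1),(10,0),(0,0)]⟩⟩]⟩)) (.S ⟨1,0,[0,0,0,0,0,0,0,1],[0,0,1],[0,1,0,0,0,0,0,1],(⟨0,[(19,0)]⟩,⟨0,[(18,
  0)]⟩),⟨0,[(8,0)]⟩,.k,.k,⟨true,0,⟨0,[(36,0)]⟩,⟨0,[]⟩⟩,⟨false,1,⟨1,[(9,0),(0,0),(23,0)]⟩,⟨0,[]⟩⟩,
  ⟨false,0,⟨0,[(32,0)]⟩,⟨3,[(4,1),(4,0),(0,0),(10,0),(12,1)]⟩⟩,⟨true,0,⟨0,[(32,0)]⟩,⟨0,[(31,0)]⟩⟩,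
  [.o ⟨false,1,⟨1,[(14,1),(6,0),(12,0)]⟩,⟨0,[(2,0)]⟩⟩,.o ⟨false,1,⟨1,[(0,1),(15,1),(4,0),(11,0)]⟩,
  ⟨0,[(15,0)]⟩⟩,.o ⟨false,1,⟨1,[(16,1),(4,0),(11,0)]⟩,⟨1,[(1,0),(0,0),(2,0)]⟩⟩,.a ⟨true,0,⟨0,[(16,
  0)]⟩,⟨0,[(13,0)]⟩⟩ ⟨true,0,⟨0,[(0,0),(28,0)]⟩,⟨0,[(2,0),(13,0)]⟩⟩ ⟨false,1,⟨1,[(0,0),(2,0),(29,0),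
  (0,0)]⟩,⟨0,[(2,0),(13,0)]⟩⟩]⟩))

theorem ok12 : chk K t12 r4 = true := by decide +kernel

noncomputable def t14 : Tre :=
  (.S ⟨1,0,[0,0,0,0,0,0,0,1],[0,0,1],[1,1,0,-1,0,0,0,1],(⟨0,[(21,0)]⟩,⟨0,[(20,0)]⟩),⟨0,[(10,0)]⟩,.k,
  .k,⟨true,0,⟨0,[(33,0)]⟩,⟨0,[(34,0)]⟩⟩,⟨false,1,⟨1,[(11,0),(0,0),(23,0)]⟩,⟨0,[]⟩⟩,⟨false,0,⟨0,[]⟩,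
  ⟨1,[(11,0),(0,0),(23,0)]⟩⟩,⟨true,0,⟨0,[(34,0)]⟩,⟨0,[(33,0)]⟩⟩,[.e ⟨false,0,⟨0,[(3,0)]⟩,⟨0,[(0,
  0)]⟩⟩ ⟨false,0,⟨0,[(1,0),(32,0)]⟩,⟨0,[(0,0),(32,0)]⟩⟩,.o ⟨false,1,⟨1,[(4,1),(18,0),(12,0)]⟩,⟨0,
  [(17,0)]⟩⟩,.o ⟨false,1,⟨1,[(18,1),(4,0),(11,0)]⟩,⟨1,[(1,0),(5,0),(9,0),(14,0)]⟩⟩,.a ⟨true,0,⟨0,
  [(18,0)]⟩,⟨0,[(15,0)]⟩⟩ ⟨false,0,⟨0,[(1,0)]⟩,⟨1,[(0,1),(17,0),(0,0)]⟩⟩ ⟨true,0,⟨0,[(1,0),(32,0)]⟩,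
  ⟨0,[(17,0),(0,0)]⟩⟩]⟩)

theorem ok14 : chk K t14 l13 = true := by decide +kernel

noncomputable def t15 : Tre :=
  (.R ⟨2,true,false,false,[0,1],[0,1,1],[0,0,1,1],(⟨0,[]⟩,⟨0,[]⟩),(⟨22,[(12,2),(0,2),(8,22),(0,4),
  (5,5),(0,2)]⟩,⟨0,[(10,0)]⟩),⟨0,[]⟩,.k,.k,.k,.k,.k,.k,⟨true,1,⟨1,[(18,1),(0,1),(16,0),(0,0)]⟩,⟨0,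
  [(1,0),(31,0),(1,0)]⟩⟩,⟨false,1,⟨0,[(19,0),(16,0)]⟩,⟨1,[(2,0),(5,0),(9,0),(14,0)]⟩⟩,⟨false,1,⟨1,
  [(12,0),(0,0),(23,0)]⟩,⟨0,[]⟩⟩,⟨true,0,⟨0,[(5,0)]⟩,⟨0,[(18,0)]⟩⟩,⟨true,0,⟨0,[(35,0)]⟩,⟨0,[(34,
  0)]⟩⟩,⟨false,0,⟨0,[(0,0)]⟩,⟨3,[(7,1),(4,0),(0,0),(4,3),(5,0),(12,1)]⟩⟩,[]⟩)

theorem ok15 : chk K t15 l14 = true := by decide +kernel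

noncomputable def t16 : Tre :=
  (.R ⟨1,false,false,false,[0,0,1],[1,-1],[1,1,0,-1,0,0,0,1],(⟨0,[(23,0)]⟩,⟨0,[(22,0)]⟩),(⟨0,[(26,
  0)]⟩,⟨0,[(27,0)]⟩),⟨0,[(12,0)]⟩,.k,.k,.k,.k,.k,.k,⟨false,(-1),⟨0,[(2,0),(33,0)]⟩,⟨0,[(19,0),(0,0),
  (16,0),(0,0)]⟩⟩,⟨true,(-1),⟨19,[(0,0),(1,10),(6,5),(0,0),(8,10),(9,20),(1,8),(4,5)]⟩,⟨1,[(20,1),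
  (4,0),(11,0)]⟩⟩,⟨true,0,⟨0,[(35,0)]⟩,⟨0,[(36,0)]⟩⟩,⟨true,0,⟨0,[(0,0),(18,0),(0,0)]⟩,⟨1,[(2,1),(17,
  1),(4,0),(10,3),(0,0)]⟩⟩,⟨false,0,⟨0,[]⟩,⟨1,[(13,0),(0,0),(23,0)]⟩⟩,⟨true,0,⟨3,[(0,1),(18,3),(0,
  1),(10,0),(4,1),(1,0)]⟩,⟨1,[(2,1),(17,1),(4,0),(10,1),(0,0)]⟩⟩,[.a ⟨true,0,⟨21,[(8,10),(1,2),(9,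
  5),(3,1),(1,1),(4,2),(5,2)]⟩,⟨0,[(36,0)]⟩⟩ ⟨true,(-1),⟨0,[(2,0)]⟩,⟨0,[(19,0),(0,0),(15,0),(1,
  0)]⟩⟩ ⟨false,0,⟨5,[(0,3),(7,0),(1,0),(22,1)]⟩,⟨1,[(20,1),(4,0),(10,1),(0,0)]⟩⟩,.e ⟨false,0,⟨0,[(3,
  0)]⟩,⟨1,[(19,1),(0,1),(15,1),(0,0),(0,0)]⟩⟩ ⟨false,0,⟨0,[(0,0)]⟩,⟨3,[(13,0),(0,0),(5,3),(4,1),(7,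
  1),(2,3),(0,0)]⟩⟩,.o ⟨false,1,⟨1,[(20,1),(4,0),(11,0)]⟩,⟨8,[(0,1),(0,0),(0,0),(6,3),(11,1),(3,
  0)]⟩⟩,.e ⟨false,0,⟨0,[(3,0)]⟩,⟨0,[(19,0),(0,0),(15,0),(1,0)]⟩⟩ ⟨false,0,⟨0,[(0,0)]⟩,⟨1,[(13,0),(0,
  0),(5,1),(4,0),(10,1)]⟩⟩]⟩)

theorem ok16 : chk K t16 l15 = true := by decide +kernel

noncomputable def t17 : Tre :=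
  (.Q [0,0,0,0,0,2,0,0,0,-1,1] (.p true [0,0,1] [1] (⟨0,[(24,0)]⟩,⟨0,[(23,0)]⟩) .k 1 (⟨0,[]⟩,⟨0,
  []⟩) .k .k) (.R ⟨0,false,false,true,[1,-1,-1],[1,-1],[],(⟨0,[(13,0)]⟩,⟨4,[(0,1),(14,0),(0,0),(8,
  2),(0,0),(6,0)]⟩),(⟨0,[(28,0)]⟩,⟨0,[(29,0)]⟩),⟨0,[(0,0)]⟩,.k,.k,(.r (-2) ⟨1,[(1,1),(1,1),(35,0),
  (0,0)]⟩ ⟨2,[(2,1),(1,1),(3,0),(2,2),(21,0),(2,3),(1,2)]⟩),.k,.k,.k,⟨true,0,⟨0,[(36,0),(1,0)]⟩,⟨0,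
  [(37,0)]⟩⟩,⟨false,1,⟨0,[(22,0),(16,0)]⟩,⟨2,[(3,0),(1,0),(5,1),(24,0)]⟩⟩,⟨true,(-1),⟨0,[(4,0),(31,
  0),(1,1)]⟩,⟨0,[(1,0),(19,0)]⟩⟩,⟨false,0,⟨0,[(8,0)]⟩,⟨0,[(21,0),(18,0)]⟩⟩,⟨false,0,⟨0,[]⟩,⟨0,[]⟩⟩,
  ⟨false,0,⟨0,[]⟩,⟨0,[]⟩⟩,[.o ⟨false,0,⟨0,[(37,0)]⟩,⟨1,[(27,0),(10,1),(1,0)]⟩⟩,.a ⟨true,0,⟨6,[(1,0),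
  (8,2),(1,0),(9,0),(3,0),(1,0),(4,0)]⟩,⟨0,[(38,0)]⟩⟩ ⟨false,1,⟨1,[(39,0),(0,0)]⟩,⟨0,[(42,0)]⟩⟩
  ⟨true,1,⟨0,[(1,0)]⟩,⟨0,[(4,0),(16,0),(14,1),(1,1)]⟩⟩,.e ⟨false,1,⟨1,[(15,0),(0,0),(23,0)]⟩,⟨0,
  []⟩⟩ ⟨false,1,⟨0,[(1,0)]⟩,⟨0,[(11,0),(24,0)]⟩⟩,.o ⟨false,(-1),⟨0,[(4,0),(16,0),(14,1),(1,0)]⟩,⟨3,
  [(1,1),(0,1),(24,0),(11,3),(0,0)]⟩⟩]⟩) (.Q [0,-1,0,-1,0,0,0,0,0,1] (.pp false [-1,1]) (.R ⟨1,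
  false,false,false,[1,0,-1],[1,-1],[0,0,0,0,0,0,0,-1],(⟨0,[(25,0)]⟩,⟨0,[(26,0)]⟩),(⟨0,[(29,0)]⟩,⟨0,
  [(30,0)]⟩),⟨0,[(14,0)]⟩,.k,.k,.k,.k,.k,.k,⟨false,1,⟨1,[(3,1),(18,1),(11,0),(5,0),(0,1)]⟩,⟨0,[(6,
  0)]⟩⟩,⟨true,0,⟨0,[(23,0)]⟩,⟨2,[(4,0),(1,0),(5,1),(24,0)]⟩⟩,⟨false,1,⟨1,[(16,0),(0,0),(23,0)]⟩,⟨0,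
  []⟩⟩,⟨true,0,⟨0,[(7,0)]⟩,⟨0,[(22,0),(16,0)]⟩⟩,⟨true,0,⟨0,[(39,0)]⟩,⟨0,[(38,0)]⟩⟩,⟨true,0,⟨0,[(9,
  0)]⟩,⟨0,[(22,0)]⟩⟩,[.a ⟨true,0,⟨6,[(2,0),(8,2),(1,0),(9,0),(3,0),(1,0),(4,0)]⟩,⟨0,[(39,0)]⟩⟩
  ⟨true,1,⟨1,[(22,1),(0,1),(16,0),(0,0)]⟩,⟨0,[(5,0),(31,0),(1,0)]⟩⟩ ⟨false,1,⟨0,[(2,0)]⟩,⟨0,[(12,
  0)]⟩⟩,.a ⟨true,0,⟨0,[(0,0)]⟩,⟨7,[(3,3),(9,1),(20,0),(1,1),(2,3),(0,0)]⟩⟩ ⟨false,2,⟨0,[(22,0),(0,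
  0),(16,0),(0,0)]⟩,⟨0,[(5,0),(33,0)]⟩⟩ ⟨true,1,⟨3,[(0,1),(1,1),(20,1),(4,0),(12,0)]⟩,⟨0,[(5,0),(16,
  0),(14,0),(1,1)]⟩⟩,.o ⟨false,0,⟨2,[(4,0),(1,0),(5,1),(24,0)]⟩,⟨3,[(2,1),(0,1),(24,0),(12,0)]⟩⟩,.a
  ⟨true,(-1),⟨8,[(5,4),(6,2),(7,0),(1,4),(9,9),(1,3),(4,1)]⟩,⟨0,[(23,0),(16,0)]⟩⟩ ⟨false,2,⟨0,[(22,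
  0),(0,0),(16,0),(0,0)]⟩,⟨0,[(5,0),(31,0),(1,0)]⟩⟩ ⟨true,1,⟨0,[(2,0)]⟩,⟨0,[(5,0),(16,0),(14,0),(1,
  1)]⟩⟩]⟩) (.Q [0,-1,0,2,0,0,1,1,0,0,1] (.p true [0,0,1] [] (⟨0,[(26,0)]⟩,⟨0,[(25,0)]⟩) .k 0 (⟨0,
  []⟩,⟨0,[]⟩) .k .k) (.S ⟨1,3,[],[1,-1,-1],[1,0,-1,-2,0,0,0,-1],(⟨0,[(15,0)]⟩,⟨22,[(17,2),(0,2),(8,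
  22),(0,4),(5,5),(0,2)]⟩),⟨0,[(2,0)]⟩,.k,(.r (-2) ⟨1,[(3,1),(1,1),(35,0),(0,0)]⟩ ⟨22,[(0,8),(3,17),
  (1,13),(6,23),(11,2),(7,22),(1,8),(7,1)]⟩),⟨false,1,⟨5,[(3,1),(8,1),(12,1),(3,0),(12,2)]⟩,⟨0,[(40,
  0)]⟩⟩,⟨true,0,⟨1,[(0,0),(21,0)]⟩,⟨0,[(5,0)]⟩⟩,⟨true,0,⟨0,[]⟩,⟨0,[(44,0)]⟩⟩,⟨false,0,⟨0,[(0,0)]⟩,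
  ⟨5,[(3,1),(1,5),(6,1),(12,1),(3,0),(12,2)]⟩⟩,[.fa ⟨false,2,⟨1,[(3,1),(1,1),(35,0),(0,0)]⟩,⟨8,[(0,
  3),(0,7),(4,4),(6,3),(19,8),(1,3),(4,2)]⟩⟩ ⟨true,1,⟨0,[(24,0),(16,0)]⟩,⟨3,[(1,1),(4,2),(6,0),(9,
  2),(9,2),(1,0),(2,4)]⟩⟩,.a ⟨true,0,⟨1,[(33,1),(1,0),(5,0)]⟩,⟨0,[(44,0)]⟩⟩ ⟨true,2,⟨0,[(3,0),(1,0),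
  (36,0)]⟩,⟨0,[(1,1),(4,0),(26,1),(1,0),(4,0)]⟩⟩ ⟨false,2,⟨1,[(24,1),(16,2),(0,0)]⟩,⟨3,[(1,1),(4,2),
  (6,0),(9,2),(9,2),(1,0),(2,0)]⟩⟩,.a ⟨true,(-1),⟨8,[(6,4),(6,2),(7,0),(1,4),(9,9),(1,3),(4,1)]⟩,⟨0,
  [(24,0),(16,0)]⟩⟩ ⟨false,2,⟨0,[(3,0),(1,0),(36,0)]⟩,⟨8,[(0,3),(0,7),(4,4),(6,3),(19,8),(1,3),(4,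
  2)]⟩⟩ ⟨true,1,⟨0,[(24,0),(16,0)]⟩,⟨3,[(1,1),(4,2),(6,0),(9,2),(9,2),(1,0),(2,0)]⟩⟩,.o ⟨false,(-1),
  ⟨3,[(1,1),(4,2),(6,0),(9,2),(9,2),(1,0),(2,4)]⟩,⟨3,[(3,1),(0,1),(24,0),(11,3),(0,0)]⟩⟩]⟩) (.I [0,
  0,2,0,-1,2,0,0,1] (.I [1,0,2,1,-1] (.I [0,-1,-1,-1,1] (.S ⟨1,0,[0,1,-1,-1],[1,-1],[1,1],(⟨0,[(33,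
  0)]⟩,⟨0,[(34,0)]⟩),⟨1,[(5,0),(13,0),(13,0)]⟩,.k,(.r (-2) ⟨6,[(0,1),(2,0),(2,8),(5,0),(4,3),(14,1),
  (11,0)]⟩ ⟨0,[(1,0),(41,0)]⟩),⟨false,0,⟨5,[(1,0),(5,3),(9,1),(20,0),(4,0),(1,1)]⟩,⟨0,[(0,0)]⟩⟩,
  ⟨true,0,⟨0,[(47,0)]⟩,⟨0,[]⟩⟩,⟨true,(-1),⟨1,[(1,0),(2,1),(33,0),(4,0)]⟩,⟨9,[(0,3),(2,1),(2,3),(5,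
  1),(2,2),(1,0),(14,1)]⟩⟩,⟨false,0,⟨0,[(43,0)]⟩,⟨5,[(6,1),(8,1),(12,1),(3,0),(12,2)]⟩⟩,[.o ⟨false,
  0,⟨0,[(42,0)]⟩,⟨1,[(32,0),(10,1),(1,0)]⟩⟩,.e ⟨true,0,⟨0,[]⟩,⟨1,[(27,0),(0,0)]⟩⟩ ⟨true,1,⟨13,[(0,
  1),(2,0),(2,8),(5,0),(4,3),(14,1),(11,0)]⟩,⟨0,[(1,0)]⟩⟩,.o ⟨false,0,⟨1,[(27,0),(0,0)]⟩,⟨1,[(32,0),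
  (11,0)]⟩⟩,.a ⟨true,(-1),⟨13,[(1,9),(13,4),(1,0),(9,1),(10,3),(7,5)]⟩,⟨0,[(44,0)]⟩⟩ ⟨false,1,⟨1,
  [(20,0),(0,0),(22,0)]⟩,⟨0,[(36,0)]⟩⟩ ⟨true,1,⟨19,[(3,3),(2,7),(5,3),(4,1),(14,0),(7,5),(3,10)]⟩,
  ⟨0,[(1,0)]⟩⟩]⟩) (.Q [-1,-1,0,0,1,0,0,0,-1,0,0,-1] (.p false [0,0,0,0,1] [] (⟨0,[(23,0)]⟩,⟨0,[(22,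
  0)]⟩) .k 0 (⟨0,[]⟩,⟨0,[]⟩) .k .k) (.Q [-1,0,0,0,0,0,0,0,-1,1,0,-1] (.p false [0,0,0,0,1] [1] (⟨0,
  [(24,0)]⟩,⟨0,[(23,0)]⟩) .k 1 (⟨0,[]⟩,⟨0,[]⟩) .k .k) (.Q [0,0,0,0,0,1,0,0,0,-1,0,1] (.ed false [0,
  1,0,0,1] .k) (.Q [1,1,0,0,0,0,0,0,1,-1,0,1] (.p true [0,0,0,0,1] [1] (⟨0,[(26,0)]⟩,⟨0,[(25,0)]⟩)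
  .k 1 (⟨0,[]⟩,⟨0,[]⟩) .k .k) (.S ⟨1,0,[1,1],[0,0,0,0,1],[],(⟨0,[(27,0)]⟩,⟨0,[(26,0)]⟩),⟨1,[(1,0),
  (7,0),(13,0),(3,0)]⟩,.k,(.r (-1) ⟨3,[(10,1),(8,0),(1,0),(14,0),(11,0)]⟩ ⟨6,[(5,0),(5,1),(9,1),(9,
  1),(15,3),(1,0),(0,0)]⟩),⟨false,1,⟨4,[(24,1),(0,1),(23,2),(1,0)]⟩,⟨0,[]⟩⟩,⟨true,0,⟨0,[(51,0)]⟩,⟨0,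
  []⟩⟩,⟨true,0,⟨0,[(4,0),(35,0),(7,0)]⟩,⟨0,[(46,0)]⟩⟩,⟨false,0,⟨0,[(47,0)]⟩,⟨5,[(10,1),(8,1),(12,1),
  (3,0),(12,2)]⟩⟩,[.o ⟨false,0,⟨0,[(0,0)]⟩,⟨0,[(3,0)]⟩⟩,.a ⟨true,0,⟨0,[(25,0)]⟩,⟨0,[(2,0)]⟩⟩ ⟨false,
  1,⟨1,[(48,0),(0,0)]⟩,⟨0,[(51,0)]⟩⟩ ⟨true,0,⟨0,[]⟩,⟨1,[(31,0),(0,0)]⟩⟩,.e ⟨false,1,⟨1,[(24,0),(0,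
  0),(23,0)]⟩,⟨0,[]⟩⟩ ⟨false,0,⟨0,[]⟩,⟨1,[(24,0),(0,0),(23,0)]⟩⟩,.o ⟨false,0,⟨0,[(0,0),(39,0)]⟩,⟨1,
  [(2,1),(33,0),(11,0)]⟩⟩]⟩) (.R ⟨2,true,false,true,[0,1],[0,0,0,0,1],[1,0,1],(⟨0,[]⟩,⟨0,[]⟩),(⟨0,
  [(27,0)]⟩,⟨0,[(26,0)]⟩),⟨0,[]⟩,.k,.k,.k,(.r 0 ⟨6,[(5,0),(5,1),(9,1),(9,1),(15,3),(1,0),(0,0)]⟩ ⟨3,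
  [(10,1),(8,0),(1,0),(14,0),(11,0)]⟩),.k,.k,⟨true,0,⟨0,[(40,0)]⟩,⟨0,[(51,0)]⟩⟩,⟨false,0,⟨0,[(25,
  0)]⟩,⟨1,[(2,1),(33,0),(11,0)]⟩⟩,⟨false,1,⟨5,[(10,1),(8,1),(12,1),(3,0),(12,2)]⟩,⟨0,[(47,0)]⟩⟩,
  ⟨true,0,⟨0,[(25,0),(20,0)]⟩,⟨0,[(0,0),(7,0)]⟩⟩,⟨true,0,⟨0,[]⟩,⟨0,[(51,0)]⟩⟩,⟨false,0,⟨0,[(25,0)]⟩,
  ⟨0,[(3,0)]⟩⟩,[]⟩)) (.Q [-1,1,0,0,0,0,0,0,-1,0,0,-1] (.p false [0,0,0,0,1] [] (⟨0,[(26,0)]⟩,⟨0,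
  [(25,0)]⟩) .k 0 (⟨0,[]⟩,⟨0,[]⟩) .k .k) (.S ⟨1,0,[-1,1],[1,0,0,0,-1],[-1],(⟨0,[(26,0)]⟩,⟨0,[(27,
  0)]⟩),⟨0,[(1,0)]⟩,.k,(.r (-1) ⟨11,[(7,0),(2,4),(5,0),(4,1),(21,0),(2,3),(1,2),(0,2)]⟩ ⟨5,[(5,0),
  (5,3),(9,1),(20,0),(4,0),(1,1)]⟩),⟨false,1,⟨1,[(24,0),(0,0),(23,0)]⟩,⟨0,[]⟩⟩,⟨true,0,⟨0,[(51,0)]⟩,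
  ⟨0,[]⟩⟩,⟨true,0,⟨0,[(47,0)]⟩,⟨0,[(46,0)]⟩⟩,⟨false,0,⟨0,[(47,0)]⟩,⟨5,[(10,1),(8,1),(12,1),(3,0),
  (12,2)]⟩⟩,[.o ⟨false,0,⟨0,[(0,0)]⟩,⟨1,[(25,1),(10,0),(12,0)]⟩⟩,.e ⟨false,1,⟨0,[(40,0),(7,0)]⟩,⟨0,
  [(51,0)]⟩⟩ ⟨false,1,⟨9,[(24,3),(0,3),(22,4),(0,0),(1,1)]⟩,⟨0,[]⟩⟩,.a ⟨true,0,⟨0,[(2,0)]⟩,⟨0,[(25,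
  0)]⟩⟩ ⟨false,1,⟨4,[(24,1),(0,1),(23,2),(1,0)]⟩,⟨0,[]⟩⟩ ⟨true,0,⟨0,[(51,0)]⟩,⟨0,[]⟩⟩,.o ⟨false,0,
  ⟨0,[(0,0),(44,0)]⟩,⟨1,[(25,1),(10,0),(11,0)]⟩⟩]⟩) (.R ⟨2,true,false,false,[0,1],[0,0,0,0,1],[1,0,
  1],(⟨0,[]⟩,⟨0,[]⟩),(⟨0,[(27,0)]⟩,⟨0,[(26,0)]⟩),⟨0,[]⟩,.k,.k,.k,(.r 0 ⟨6,[(5,0),(5,1),(9,1),(9,1),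
  (15,3),(1,0),(0,0)]⟩ ⟨3,[(10,1),(8,0),(1,0),(14,0),(11,0)]⟩),.k,.k,⟨true,0,⟨1,[(31,0),(0,0)]⟩,⟨0,
  []⟩⟩,⟨false,0,⟨0,[(25,0)]⟩,⟨1,[(2,1),(33,0),(11,0)]⟩⟩,⟨false,1,⟨5,[(10,1),(8,1),(12,1),(3,0),(12,
  2)]⟩,⟨0,[(47,0)]⟩⟩,⟨true,0,⟨2,[(0,0),(6,0),(7,0),(9,1)]⟩,⟨0,[(2,0),(5,0)]⟩⟩,⟨true,0,⟨0,[]⟩,⟨0,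
  [(51,0)]⟩⟩,⟨false,0,⟨0,[(0,0)]⟩,⟨2,[(3,0),(20,1),(26,0)]⟩⟩,[]⟩))) (.R ⟨1,false,false,false,[0,0,
  1],[1,0,0,0,-1],[1,0,0,-1,0,0,0,1],(⟨0,[(32,0)]⟩,⟨0,[(31,0)]⟩),(⟨0,[(24,0)]⟩,⟨0,[(25,0)]⟩),⟨0,
  [(21,0)]⟩,.k,.k,.k,.k,(.r 0 ⟨0,[(12,0)]⟩ ⟨7,[(9,1),(12,3),(0,3),(4,7),(0,5),(10,0),(4,5),(1,4)]⟩),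
  .k,⟨false,0,⟨0,[(12,0)]⟩,⟨3,[(9,1),(18,3),(0,1),(10,0),(4,1),(0,1),(0,2)]⟩⟩,⟨true,0,⟨3,[(1,3),(0,
  1),(2,0),(5,0),(6,0),(7,1),(13,0)]⟩,⟨0,[(0,0),(1,0),(5,0),(29,0)]⟩⟩,⟨false,1,⟨5,[(8,1),(8,1),(12,
  1),(3,0),(12,2)]⟩,⟨0,[(45,0)]⟩⟩,⟨false,1,⟨1,[(1,1),(8,1),(29,0),(4,1),(1,0)]⟩,⟨0,[(0,0),(14,0)]⟩⟩,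
  ⟨true,0,⟨0,[]⟩,⟨0,[(49,0)]⟩⟩,⟨false,1,⟨1,[(1,1),(26,1),(11,0),(4,1),(1,0)]⟩,⟨0,[(0,0),(12,0)]⟩⟩,
  [.o ⟨false,1,⟨2,[(1,0),(20,1),(26,0)]⟩,⟨0,[(0,0)]⟩⟩,.o ⟨false,1,⟨0,[(1,0)]⟩,⟨9,[(0,7),(4,0),(3,1),
  (6,0),(6,1),(6,0),(11,2)]⟩⟩,.o ⟨false,1,⟨3,[(8,1),(0,1),(24,0),(12,0)]⟩,⟨3,[(5,0),(6,0),(5,2),(24,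
  0)]⟩⟩,.a ⟨true,0,⟨0,[(29,0)]⟩,⟨0,[(26,0)]⟩⟩ ⟨true,0,⟨0,[(12,0)]⟩,⟨3,[(9,1),(18,3),(0,1),(10,0),(4,
  1),(1,0)]⟩⟩ ⟨false,1,⟨0,[(1,0),(24,0)]⟩,⟨0,[(0,0),(28,0)]⟩⟩]⟩)) (.Q [0,0,0,0,0,1,0,0,0,0,0,-1]
  (.ed true [1,-1,0,0,1] .k) (.Q [1,1,0,0,-1,0,-1,-1,1,0,-1,1] (.p false [0,0,1] [0,0,0,0,1] (⟨0,
  [(32,0)]⟩,⟨0,[(31,0)]⟩) .k 2 (⟨0,[(25,0)]⟩,⟨0,[(24,0)]⟩) .k (.r 0 ⟨0,[(2,4),(2,0),(2,0),(2,1),(26,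
  7),(7,5)]⟩ ⟨1,[(28,1),(0,1),(16,0),(0,0)]⟩)) (.R ⟨0,false,false,false,[0,0,0,0,1],[0,1],[],(⟨0,
  [(26,0)]⟩,⟨0,[(25,0)]⟩),(⟨0,[(37,0)]⟩,⟨0,[(36,0)]⟩),⟨0,[(1,0)]⟩,.k,.k,(.r (-1) ⟨3,[(9,1),(8,0),(1,
  0),(14,0),(11,0)]⟩ ⟨6,[(4,0),(5,1),(9,1),(9,1),(15,3),(1,0),(0,0)]⟩),(.r (-1) ⟨3,[(9,1),(8,0),(1,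
  0),(14,0),(11,0)]⟩ ⟨6,[(4,0),(5,1),(9,1),(9,1),(15,3),(1,0),(0,0)]⟩),.k,.k,⟨true,1,⟨3,[(9,1),(8,
  0),(1,0),(14,0),(11,0)]⟩,⟨0,[(4,0)]⟩⟩,⟨false,2,⟨0,[(23,0),(23,0)]⟩,⟨0,[(2,0),(36,0)]⟩⟩,⟨false,1,
  ⟨4,[(23,1),(0,1),(23,2),(1,0)]⟩,⟨0,[]⟩⟩,⟨true,1,⟨0,[(23,0),(22,0)]⟩,⟨0,[(0,0),(13,0)]⟩⟩,⟨false,0,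
  ⟨0,[]⟩,⟨0,[]⟩⟩,⟨false,0,⟨0,[]⟩,⟨0,[]⟩⟩,[.a ⟨true,0,⟨0,[(46,0)]⟩,⟨6,[(9,0),(8,2),(1,0),(9,0),(3,0),
  (1,0),(4,0)]⟩⟩ ⟨false,1,⟨1,[(23,0),(0,0),(22,0)]⟩,⟨0,[]⟩⟩ ⟨true,1,⟨0,[(23,0),(22,0)]⟩,⟨0,[(0,0),
  (13,0),(24,0)]⟩⟩,.o ⟨false,1,⟨1,[(35,0),(10,1),(1,0)]⟩,⟨0,[(45,0)]⟩⟩,.o ⟨false,0,⟨1,[(2,1),(39,0),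
  (5,0)]⟩,⟨0,[(23,0)]⟩⟩,.e ⟨false,1,⟨1,[(47,0),(0,0)]⟩,⟨1,[(30,0),(0,0)]⟩⟩ ⟨false,2,⟨1,[(23,1),(22,
  1),(0,0),(0,0)]⟩,⟨0,[(0,0),(13,0),(24,0)]⟩⟩]⟩) (.S ⟨1,0,[-1,1],[1,0,0,0,-1],[-1],(⟨0,[(25,0)]⟩,⟨0,
  [(26,0)]⟩),⟨1,[(1,0),(6,0),(13,0),(2,0)]⟩,.k,(.r (-1) ⟨11,[(6,0),(2,4),(5,0),(4,1),(21,0),(2,3),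
  (1,2),(0,2)]⟩ ⟨5,[(4,0),(5,3),(9,1),(20,0),(4,0),(1,1)]⟩),⟨false,1,⟨1,[(23,0),(0,0),(23,0)]⟩,⟨0,
  []⟩⟩,⟨true,0,⟨0,[(50,0)]⟩,⟨0,[]⟩⟩,⟨true,0,⟨0,[(46,0)]⟩,⟨0,[(45,0)]⟩⟩,⟨false,0,⟨0,[(46,0)]⟩,⟨5,[(9,
  1),(8,1),(12,1),(3,0),(12,2)]⟩⟩,[.a ⟨true,0,⟨1,[(0,1),(2,1),(2,1),(34,0),(4,1),(0,0)]⟩,⟨0,[(2,0),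
  (45,0)]⟩⟩ ⟨false,1,⟨9,[(23,3),(0,3),(22,4),(0,0),(1,1)]⟩,⟨0,[]⟩⟩ ⟨true,0,⟨0,[(50,0)]⟩,⟨0,[(44,
  0)]⟩⟩,.o ⟨false,1,⟨1,[(0,0),(10,0),(11,0),(22,0)]⟩,⟨1,[(2,1),(32,0),(12,0)]⟩⟩,.o ⟨false,1,⟨0,[(23,
  0)]⟩,⟨1,[(2,1),(39,0),(5,0)]⟩⟩,.e ⟨false,1,⟨0,[(39,0),(7,0)]⟩,⟨1,[(30,0),(0,0)]⟩⟩ ⟨false,1,⟨9,
  [(23,3),(0,3),(22,4),(0,0),(1,1)]⟩,⟨0,[(44,0)]⟩⟩]⟩)) (.Q [0,0,0,0,0,0,-1,0,-1,1,-1,-1] (.p false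
  [0,0,1] [1,0,0,0,-1] (⟨0,[(32,0)]⟩,⟨0,[(31,0)]⟩) .k 2 (⟨0,[(24,0)]⟩,⟨0,[(25,0)]⟩) .k (.r 0 ⟨4,[(3,
  0),(8,1),(2,0),(0,1),(1,0),(28,0)]⟩ ⟨1,[(28,1),(0,1),(16,0),(0,0)]⟩)) (.S ⟨1,0,[1,1],[0,0,0,0,1],
  [],(⟨0,[(26,0)]⟩,⟨0,[(25,0)]⟩),⟨0,[(1,0)]⟩,.k,(.r (-1) ⟨3,[(9,1),(8,0),(1,0),(14,0),(11,0)]⟩ ⟨6,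
  [(4,0),(5,1),(9,1),(9,1),(15,3),(1,0),(0,0)]⟩),⟨false,1,⟨4,[(23,1),(0,1),(23,2),(1,0)]⟩,⟨0,[]⟩⟩,
  ⟨true,0,⟨0,[(50,0)]⟩,⟨0,[]⟩⟩,⟨true,0,⟨0,[(3,0),(35,0),(7,0)]⟩,⟨0,[(45,0)]⟩⟩,⟨false,0,⟨0,[(46,0)]⟩,
  ⟨5,[(9,1),(8,1),(12,1),(3,0),(12,2)]⟩⟩,[.a ⟨true,(-1),⟨0,[(2,0)]⟩,⟨1,[(0,1),(29,1),(16,0),(0,
  0)]⟩⟩ ⟨false,1,⟨1,[(23,0),(0,0),(22,0)]⟩,⟨0,[]⟩⟩ ⟨true,0,⟨0,[(50,0)]⟩,⟨0,[(39,0)]⟩⟩,.o ⟨false,0,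
  ⟨1,[(2,1),(32,0),(12,0)]⟩,⟨1,[(0,1),(29,1),(11,0),(4,0)]⟩⟩,.o ⟨false,0,⟨1,[(2,1),(39,0),(5,0)]⟩,
  ⟨0,[(23,0)]⟩⟩,.e ⟨false,1,⟨1,[(47,0),(0,0)]⟩,⟨1,[(30,0),(0,0)]⟩⟩ ⟨false,1,⟨1,[(23,0),(0,0),(22,
  0)]⟩,⟨0,[(39,0)]⟩⟩]⟩) (.R ⟨1,false,false,false,[0,0,0,0,1],[0,1],[],(⟨0,[(26,0)]⟩,⟨0,[(25,0)]⟩),
  (⟨0,[(37,0)]⟩,⟨0,[(36,0)]⟩),⟨0,[(1,0)]⟩,.k,.k,(.r (-1) ⟨3,[(9,1),(8,0),(1,0),(14,0),(11,0)]⟩ ⟨6,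
  [(4,0),(5,1),(9,1),(9,1),(15,3),(1,0),(0,0)]⟩),(.r (-1) ⟨3,[(9,1),(8,0),(1,0),(14,0),(11,0)]⟩ ⟨6,
  [(4,0),(5,1),(9,1),(9,1),(15,3),(1,0),(0,0)]⟩),(.r (-2) ⟨1,[(9,1),(8,0),(1,0),(14,0),(11,0)]⟩ ⟨0,
  [(3,1),(35,1),(7,0)]⟩),.k,⟨true,1,⟨3,[(9,1),(8,0),(1,0),(14,0),(11,0)]⟩,⟨0,[(4,0)]⟩⟩,⟨false,2,⟨0,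
  [(23,0),(23,0)]⟩,⟨0,[(2,0),(36,0)]⟩⟩,⟨false,1,⟨4,[(23,1),(0,1),(23,2),(1,0)]⟩,⟨0,[]⟩⟩,⟨true,1,⟨0,
  [(23,0),(22,0)]⟩,⟨5,[(0,1),(1,3),(3,1),(5,0),(0,0),(25,0),(1,0)]⟩⟩,⟨true,0,⟨0,[(3,0),(35,0),(7,
  0)]⟩,⟨0,[(45,0)]⟩⟩,⟨true,1,⟨0,[(23,0),(22,1)]⟩,⟨2,[(0,1),(1,0),(3,1),(5,0),(0,0),(25,0),(1,0)]⟩⟩,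
  [.a ⟨true,0,⟨0,[(46,0)]⟩,⟨6,[(9,0),(8,2),(1,0),(9,0),(3,0),(1,0),(4,0)]⟩⟩ ⟨false,1,⟨1,[(23,0),(0,
  0),(22,0)]⟩,⟨0,[]⟩⟩ ⟨true,1,⟨0,[(23,0),(22,0)]⟩,⟨5,[(0,1),(1,3),(3,1),(5,0),(0,0),(25,6),(1,0)]⟩⟩,
  .o ⟨false,1,⟨1,[(35,0),(10,1),(1,0)]⟩,⟨0,[(45,0)]⟩⟩,.o ⟨false,0,⟨1,[(2,1),(39,0),(5,0)]⟩,⟨0,[(23,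
  0)]⟩⟩,.e ⟨false,1,⟨1,[(47,0),(0,0)]⟩,⟨1,[(30,0),(0,0)]⟩⟩ ⟨false,2,⟨1,[(23,1),(22,1),(0,0),(0,0)]⟩,
  ⟨5,[(0,1),(1,3),(3,1),(5,0),(0,0),(25,6),(1,0)]⟩⟩]⟩))))) (.S ⟨1,0,[0,0,-1,-1],[1,-1],[1,1,1],(⟨0,
  [(32,0)]⟩,⟨0,[(33,0)]⟩),⟨1,[(4,0),(13,0),(13,0)]⟩,.k,(.x 1 ⟨27,[(6,12),(1,12),(16,12),(4,4),(4,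
  38),(0,16),(0,14),(7,3)]⟩ ⟨0,[(31,0),(0,1),(10,0)]⟩),⟨true,(-1),⟨1,[(6,1),(1,0),(6,0),(9,0),(9,0),
  (1,0),(2,0)]⟩,⟨0,[(0,0)]⟩⟩,⟨false,1,⟨1,[(19,0),(0,0),(23,0)]⟩,⟨0,[]⟩⟩,⟨false,(-1),⟨0,[(3,1),(31,
  1),(1,0)]⟩,⟨9,[(0,7),(4,3),(8,3),(1,1),(14,2),(12,4)]⟩⟩,⟨true,0,⟨0,[(42,0)]⟩,⟨0,[(41,0)]⟩⟩,[.e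
  ⟨false,0,⟨0,[(46,0)]⟩,⟨1,[(43,0),(0,0)]⟩⟩ ⟨false,1,⟨0,[(0,0)]⟩,⟨3,[(6,2),(8,0),(0,0),(20,0),(2,0),
  (3,0)]⟩⟩,.o ⟨false,1,⟨5,[(5,1),(8,1),(12,1),(3,0),(12,2)]⟩,⟨0,[(3,0)]⟩⟩,.o ⟨false,0,⟨1,[(26,0),(0,
  0)]⟩,⟨1,[(31,0),(11,0)]⟩⟩,.a ⟨true,(-1),⟨12,[(6,4),(0,0),(0,3),(16,2),(1,0),(7,12),(1,8),(7,6)]⟩,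
  ⟨0,[(43,0)]⟩⟩ ⟨false,0,⟨0,[]⟩,⟨1,[(19,0),(0,0),(23,0)]⟩⟩ ⟨true,1,⟨0,[(0,0)]⟩,⟨1,[(6,1),(1,0),(6,
  0),(9,0),(9,0),(1,0),(2,0)]⟩⟩]⟩)) (.Q [0,0,0,0,0,-1,0,0,0,0,0,1] (.ed false [1,-1,0,0,1] .k) (.S
  ⟨1,0,[1],[0,0,0,0,1],[1,1],(⟨0,[(22,0)]⟩,⟨0,[(21,0)]⟩),⟨0,[(0,0)]⟩,.k,(.r (-1) ⟨3,[(5,1),(8,0),(1,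
  0),(14,0),(11,0)]⟩ ⟨2,[(6,0),(9,0),(9,0),(8,0),(6,1)]⟩),⟨true,0,⟨0,[(46,0)]⟩,⟨0,[]⟩⟩,⟨false,1,⟨1,
  [(19,0),(0,0),(23,0)]⟩,⟨0,[]⟩⟩,⟨false,0,⟨0,[(42,0)]⟩,⟨5,[(5,1),(8,1),(12,1),(3,0),(12,2)]⟩⟩,⟨true,
  0,⟨0,[(42,0)]⟩,⟨0,[(41,0)]⟩⟩,[.e ⟨true,0,⟨0,[(46,0)]⟩,⟨0,[(35,0)]⟩⟩ ⟨true,0,⟨0,[]⟩,⟨1,[(26,0),(0,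
  0)]⟩⟩,.o ⟨false,1,⟨1,[(20,1),(10,0),(12,0)]⟩,⟨1,[(1,1),(0,0),(0,1),(2,0),(1,0),(12,1),(8,0),(4,2),
  (0,0),(0,0)]⟩⟩,.a ⟨true,0,⟨0,[(20,0)]⟩,⟨27,[(1,25),(4,12),(1,12),(10,1),(1,25),(3,12),(4,6),(4,
  38),(0,14),(0,14)]⟩⟩ ⟨false,0,⟨0,[]⟩,⟨1,[(19,0),(0,0),(23,0)]⟩⟩ ⟨true,0,⟨0,[]⟩,⟨0,[(46,0)]⟩⟩,.e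
  ⟨false,1,⟨1,[(19,0),(0,0),(22,0)]⟩,⟨0,[(35,0)]⟩⟩ ⟨false,1,⟨1,[(43,0),(0,0)]⟩,⟨1,[(26,0),(0,
  0)]⟩⟩]⟩) (.I [0,0,0,0,0,1,0,0,1] (.C [(0,2),(1,2),(0,0),(0,2),(0,0),(3,0),(9,0),(7,0),(8,4),(0,1),
  (0,1)]) (.C [(0,0),(0,0),(19,0)])))))))

theorem ok17 : chk K t17 l16 = true := by decide +kernel

noncomputable def t18 : Tre :=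
  (.R ⟨1,true,false,false,[1,0,-1],[0,1],[0,1,0,0,0,0,0,-1],(⟨0,[(24,0)]⟩,⟨0,[(25,0)]⟩),(⟨0,[(29,
  0)]⟩,⟨0,[(28,0)]⟩),⟨0,[(13,0)]⟩,.k,.k,.k,.k,(.r (-3) ⟨3,[(3,3),(6,1),(4,2),(0,2),(5,3),(4,0),(11,
  5),(0,1)]⟩ ⟨0,[(0,0)]⟩),.k,⟨true,1,⟨0,[(3,0),(18,0),(16,0)]⟩,⟨2,[(0,1),(5,0),(16,0),(12,0),(3,
  0)]⟩⟩,⟨false,2,⟨1,[(22,1),(4,0),(11,2)]⟩,⟨13,[(0,2),(0,4),(1,2),(6,3),(1,2),(13,0),(1,0),(2,2),(1,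
  2)]⟩⟩,⟨true,0,⟨0,[(42,0)]⟩,⟨0,[]⟩⟩,⟨false,1,⟨5,[(0,1),(1,1),(5,1),(11,1),(6,1),(11,2),(0,4)]⟩,⟨1,
  [(3,1),(27,1),(1,0),(5,0)]⟩⟩,⟨false,0,⟨0,[(38,0)]⟩,⟨3,[(10,1),(4,0),(0,0),(10,0),(12,1)]⟩⟩,⟨true,
  0,⟨1,[(0,1),(21,1),(4,0),(11,2)]⟩,⟨0,[(10,0),(10,0)]⟩⟩,[]⟩)

theorem ok18 : chk K t18 l17 = true := by decide +kernel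

noncomputable def t19 : Tre :=
  (.R ⟨1,true,false,false,[0,0,1],[0,1],[1,1,0,-1,0,0,0,1],(⟨0,[(26,0)]⟩,⟨0,[(25,0)]⟩),(⟨0,[(30,
  0)]⟩,⟨0,[(29,0)]⟩),⟨0,[(15,0)]⟩,.k,.k,.k,.k,(.r (-1) ⟨2,[(1,0),(4,1),(1,1),(32,0)]⟩ ⟨1,[(0,1),(22,
  2),(0,0)]⟩),.k,⟨true,0,⟨6,[(1,0),(3,2),(0,0),(1,3),(2,1),(16,0)]⟩,⟨0,[(0,0),(22,0),(13,0)]⟩⟩,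
  ⟨false,1,⟨1,[(20,1),(7,0),(11,0)]⟩,⟨0,[(23,0)]⟩⟩,⟨true,0,⟨0,[(38,0)]⟩,⟨0,[(39,0)]⟩⟩,⟨false,1,⟨7,
  [(0,5),(0,1),(21,0),(0,2),(16,3)]⟩,⟨0,[(7,0)]⟩⟩,⟨false,0,⟨0,[]⟩,⟨1,[(16,0),(0,0),(23,0)]⟩⟩,⟨true,
  0,⟨0,[(0,0)]⟩,⟨0,[(7,0),(30,0)]⟩⟩,[]⟩)

theorem ok19 : chk K t19 l18 = true := by decide +kernel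

noncomputable def t20 : Tre :=
  (.Q [0,0,0,0,0,2,0,0,0,-1,1] (.p true [0,0,1] [1] (⟨0,[(27,0)]⟩,⟨0,[(26,0)]⟩) .k 1 (⟨0,[]⟩,⟨0,
  []⟩) .k .k) (.R ⟨0,false,false,true,[1,-1,-1],[1,-1],[],(⟨0,[(16,0)]⟩,⟨87,[(0,38),(2,5),(11,8),(7,
  5),(1,11),(2,48),(0,9),(6,14),(4,11),(1,2)]⟩),(⟨0,[(31,0)]⟩,⟨0,[(32,0)]⟩),⟨0,[(0,0)]⟩,.k,.k,(.r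
  (-2) ⟨0,[(1,0),(4,0),(18,0),(16,0)]⟩ ⟨5,[(4,6),(0,3),(5,5),(3,1),(9,0),(10,0),(4,0),(1,1)]⟩),.k,
  .k,.k,⟨true,0,⟨3,[(4,1),(0,1),(30,0),(6,2)]⟩,⟨0,[(40,0)]⟩⟩,⟨false,1,⟨0,[(25,0),(16,0)]⟩,⟨10,[(1,
  0),(2,2),(1,0),(1,0),(6,2),(6,0),(7,1)]⟩⟩,⟨true,(-1),⟨0,[(4,0),(6,0)]⟩,⟨3,[(3,1),(1,1),(0,1),(29,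
  0),(5,0)]⟩⟩,⟨false,0,⟨0,[(11,0)]⟩,⟨0,[(24,0),(18,0)]⟩⟩,⟨false,0,⟨0,[]⟩,⟨0,[]⟩⟩,⟨false,0,⟨0,[]⟩,⟨0,
  []⟩⟩,[.o ⟨false,0,⟨0,[(40,0)]⟩,⟨1,[(30,0),(10,1),(1,0)]⟩⟩,.e ⟨false,1,⟨1,[(42,0),(0,0)]⟩,⟨0,[(45,
  0)]⟩⟩ ⟨false,2,⟨3,[(3,1),(19,1),(1,1),(16,2),(0,0)]⟩,⟨0,[(4,0)]⟩⟩,.a ⟨true,(-1),⟨27,[(4,21),(8,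
  10),(1,2),(13,1),(1,1),(4,5),(7,5)]⟩,⟨0,[(25,0),(16,0)]⟩⟩ ⟨false,1,⟨1,[(18,0),(0,0),(23,0)]⟩,⟨0,
  []⟩⟩ ⟨true,1,⟨1,[(3,0),(7,0),(13,0),(12,0)]⟩,⟨0,[(4,0)]⟩⟩,.o ⟨false,(-1),⟨2,[(2,0),(1,2),(1,0),
  (18,0),(0,0),(12,0)]⟩,⟨1,[(25,1),(4,0),(11,2)]⟩⟩]⟩) (.Q [0,0,0,0,0,0,2,2,0,-1,2] (.p true [0,0,1]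
  [1,0,-1] (⟨0,[(28,0)]⟩,⟨0,[(27,0)]⟩) .k 2 (⟨0,[(27,0)]⟩,⟨0,[(28,0)]⟩) .k (.r 1 ⟨0,[(4,0),(3,0),(2,
  0)]⟩ ⟨5,[(3,3),(1,5),(18,7),(0,1),(10,2),(4,1),(1,6)]⟩)) (.Q [0,0,-1,-1,0,0,-2,-1,0,1,-2] (.p
  false [0,0,1] [1,0,-1] (⟨0,[(29,0)]⟩,⟨0,[(28,0)]⟩) .k 2 (⟨0,[(28,0)]⟩,⟨0,[(29,0)]⟩) .k (.r 1 ⟨6,
  [(0,3),(4,5),(3,5),(6,0),(13,0),(1,0),(4,0)]⟩ ⟨5,[(4,3),(1,5),(18,7),(0,1),(10,2),(4,1),(1,6)]⟩))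
  (.R ⟨0,false,false,false,[0,-1,1],[1,-1,-1],[1,1],(⟨0,[(19,0)]⟩,⟨139,[(5,5),(11,8),(7,5),(1,11),
  (1,139),(1,22),(5,38),(0,14),(4,11),(1,2)]⟩),(⟨0,[(18,0)]⟩,⟨139,[(5,5),(11,8),(7,5),(1,11),(2,
  139),(0,22),(5,38),(0,14),(4,11),(1,2)]⟩),⟨2,[(2,1),(26,0),(1,0),(5,2)]⟩,.k,.k,(.r (-1) ⟨2,[(5,0),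
  (4,1),(1,1),(32,0)]⟩ ⟨1,[(6,0),(0,1),(18,1),(0,0),(10,0),(4,0),(1,1)]⟩),.k,.k,.k,⟨false,(-1),⟨3,
  [(1,1),(4,3),(31,0),(1,1),(3,0)]⟩,⟨5,[(5,3),(1,1),(18,1),(11,0),(6,4)]⟩⟩,⟨true,(-1),⟨6,[(0,2),(5,
  5),(3,2),(6,0),(13,0),(1,0),(4,0)]⟩,⟨1,[(27,3),(4,0),(11,0)]⟩⟩,⟨true,0,⟨1,[(7,1),(18,1),(11,0),(6,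
  0)]⟩,⟨0,[(9,0),(26,0),(7,0)]⟩⟩,⟨false,1,⟨1,[(26,3),(11,0),(6,2)]⟩,⟨0,[(1,0)]⟩⟩,⟨false,0,⟨0,[]⟩,⟨0,
  []⟩⟩,⟨false,0,⟨0,[]⟩,⟨0,[]⟩⟩,[.e ⟨true,0,⟨0,[(47,0)]⟩,⟨0,[(36,0)]⟩⟩ ⟨true,0,⟨0,[(0,0)]⟩,⟨5,[(1,2),
  (4,1),(0,3),(9,0),(9,5),(17,1)]⟩⟩,.o ⟨false,1,⟨0,[(8,0),(36,0)]⟩,⟨7,[(1,3),(4,0),(0,1),(8,0),(15,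
  0),(7,2),(2,3)]⟩⟩,.a ⟨true,0,⟨0,[(27,0)]⟩,⟨0,[(24,0)]⟩⟩ ⟨false,0,⟨0,[]⟩,⟨1,[(20,0),(0,0),(23,
  0)]⟩⟩ ⟨true,0,⟨0,[(0,0)]⟩,⟨11,[(1,3),(5,9),(17,3),(1,1),(10,0),(4,1),(1,0)]⟩⟩,.e ⟨false,1,⟨1,[(20,
  0),(0,0),(22,0)]⟩,⟨0,[(36,0)]⟩⟩ ⟨false,1,⟨1,[(0,1),(43,0),(0,0)]⟩,⟨5,[(1,2),(4,1),(0,3),(9,0),(9,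
  5),(17,1)]⟩⟩]⟩) (.I [0,0,0,0,1,0,0,0,-1] (.I [1,0,1,0,0,1,1] (.I [1,0,0,0,0,3,0,0,1] (.I [0,1,0,
  -3] (.I [0,0,2,1,-1] (.I [0,1,1,-1,0,0,0,-1] (.I [0,1,1,0,0,-2,1] (.I [0,1,0,-1,0,-1,-1,-1] (.I
  [0,0,1,1,-1,-1,-1] (.C [(0,1),(1,1),(9,1),(33,1),(0,0),(5,0)]) (.C [(0,0),(14,0),(12,0)])) (.C
  [(0,0),(15,0),(10,0)])) (.C [(0,0),(6,0),(1,0),(5,0)])) (.C [(0,0),(13,0),(18,0)])) (.C [(0,0),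
  (10,0),(20,0)])) (.C [(0,0),(7,0),(3,0)])) (.C [(0,0),(23,0),(0,0),(14,0)])) (.C [(0,0),(3,0),(24,
  0),(9,0)])) (.C [(0,0),(20,0),(2,0)]))) (.Q [0,0,0,1,0,0,2,2,0,-1,2] (.p true [0,0,1] [1,0,-1]
  (⟨0,[(29,0)]⟩,⟨0,[(28,0)]⟩) .k 2 (⟨0,[(28,0)]⟩,⟨0,[(29,0)]⟩) .k (.r 1 ⟨0,[(5,0),(3,0),(2,0)]⟩ ⟨11,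
  [(0,7),(3,7),(1,13),(12,3),(0,3),(5,1),(10,2),(4,1),(1,6)]⟩)) (.R ⟨1,true,false,false,[0,0,1],[1,
  -1,-1],[1,1,0,-1,0,0,0,1],(⟨0,[(30,0)]⟩,⟨0,[(29,0)]⟩),(⟨0,[(18,0)]⟩,⟨139,[(5,5),(11,8),(7,5),(1,
  11),(2,139),(0,22),(5,38),(0,14),(4,11),(1,2)]⟩),⟨0,[(19,0)]⟩,.k,.k,.k,(.x (-2) ⟨1,[(2,3),(24,3),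
  (4,0),(4,1),(6,2)]⟩ ⟨41,[(6,45),(1,15),(1,15),(4,6),(1,10),(12,83),(1,1),(3,11),(0,13),(7,1)]⟩),
  .k,.k,⟨true,(-2),⟨8,[(0,3),(3,0),(1,6),(2,8),(18,1),(9,1)]⟩,⟨1,[(1,1),(25,3),(4,0),(11,1),(0,
  0)]⟩⟩,⟨false,(-1),⟨3,[(1,0),(4,3),(3,1),(4,0),(8,1)]⟩,⟨1,[(27,3),(4,0),(11,2)]⟩⟩,⟨true,0,⟨0,[(42,
  0)]⟩,⟨0,[(43,0)]⟩⟩,⟨false,1,⟨5,[(1,4),(3,1),(9,0),(12,1),(12,1),(3,1)]⟩,⟨0,[(0,0)]⟩⟩,⟨false,0,⟨0,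
  []⟩,⟨1,[(20,0),(0,0),(23,0)]⟩⟩,⟨true,0,⟨0,[(1,0)]⟩,⟨6,[(0,3),(3,1),(2,2),(4,2),(12,0)]⟩⟩,[]⟩) (.I
  [0,-1,-1,-1,1] (.S ⟨1,0,[0,1,-1,-1],[1,-1],[0,0,-1,-1],(⟨0,[(34,0)]⟩,⟨0,[(35,0)]⟩),⟨1,[(3,0),(16,
  0),(13,0)]⟩,.k,(.r (-2) ⟨4,[(6,3),(6,1),(1,1),(30,1)]⟩ ⟨3,[(7,3),(0,1),(19,1),(10,0),(4,1),(1,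
  0)]⟩),⟨false,1,⟨1,[(21,0),(0,0),(23,0)]⟩,⟨0,[]⟩⟩,⟨true,0,⟨0,[(48,0)]⟩,⟨0,[]⟩⟩,⟨true,0,⟨0,[(44,
  0)]⟩,⟨0,[(43,0)]⟩⟩,⟨false,0,⟨0,[(44,0)]⟩,⟨7,[(5,1),(0,1),(21,0),(0,2),(16,3)]⟩⟩,[.o ⟨false,0,⟨0,
  [(43,0)]⟩,⟨1,[(33,0),(10,1),(1,0)]⟩⟩,.e ⟨true,1,⟨0,[(0,0)]⟩,⟨21,[(7,11),(0,15),(0,1),(0,1),(17,6),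
  (0,8),(9,7),(3,1)]⟩⟩ ⟨true,1,⟨4,[(6,1),(6,0),(1,0),(30,0)]⟩,⟨0,[(7,0),(20,0)]⟩⟩,.o ⟨false,0,⟨1,
  [(28,0),(0,0)]⟩,⟨1,[(33,0),(11,0)]⟩⟩,.a ⟨true,(-1),⟨11,[(7,7),(8,3),(11,8),(0,0),(9,3),(7,5)]⟩,⟨0,
  [(45,0)]⟩⟩ ⟨false,2,⟨9,[(6,3),(6,1),(1,1),(29,4),(0,6)]⟩,⟨0,[(7,0),(20,0)]⟩⟩ ⟨true,1,⟨2,[(6,0),(6,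
  0),(27,0),(3,0)]⟩,⟨0,[(7,0),(20,0)]⟩⟩]⟩) (.Q [0,0,0,2,0,0,2,2,0,-1,2] (.p true [0,0,1] [1,0,-1]
  (⟨0,[(31,0)]⟩,⟨0,[(30,0)]⟩) .k 2 (⟨0,[(30,0)]⟩,⟨0,[(31,0)]⟩) .k (.r 1 ⟨0,[(7,0),(3,0),(2,0)]⟩ ⟨11,
  [(2,7),(3,7),(1,13),(12,3),(0,3),(5,1),(10,2),(4,1),(1,6)]⟩)) (.R ⟨1,true,false,true,[1,0,-1],[0,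
  1,1],[0,0,0,0,0,0,0,-1],(⟨0,[(31,0)]⟩,⟨0,[(32,0)]⟩),(⟨109,[(0,2),(6,5),(11,8),(9,11),(2,109),(0,
  19),(5,29),(0,11),(4,5)]⟩,⟨0,[(20,0)]⟩),⟨0,[(20,0)]⟩,.k,.k,.k,(.r (-2) ⟨1,[(2,1),(26,3),(4,0),(11,
  2)]⟩ ⟨21,[(0,14),(5,7),(1,13),(2,5),(7,10),(10,1),(7,5),(1,1)]⟩),(.r (-3) ⟨23,[(3,7),(3,31),(1,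
  13),(12,3),(0,3),(5,1),(10,2),(4,1),(1,6)]⟩ ⟨31,[(0,22),(7,35),(2,17),(7,2),(10,3),(7,17),(1,9),
  (7,5)]⟩),.k,⟨false,3,⟨1,[(2,1),(26,3),(4,0),(11,3),(0,0)]⟩,⟨7,[(0,3),(7,6),(2,6),(4,0),(13,0),(9,
  1)]⟩⟩,⟨true,2,⟨1,[(29,3),(4,0),(11,2)]⟩,⟨0,[(8,1),(8,0)]⟩⟩,⟨false,1,⟨1,[(22,0),(0,0),(23,0)]⟩,⟨0,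
  []⟩⟩,⟨true,0,⟨7,[(0,4),(5,0),(2,2),(4,2),(12,1)]⟩,⟨0,[(2,0)]⟩⟩,⟨true,0,⟨0,[(45,0)]⟩,⟨0,[(44,0)]⟩⟩,
  ⟨false,0,⟨0,[(0,0)]⟩,⟨21,[(2,19),(4,3),(9,7),(11,1),(0,5),(3,2),(12,10)]⟩⟩,[]⟩) (.Q [1,-1,0,-1,0,
  0,0,0,1,0,0,1] (.p true [0,0,0,0,1] [] (⟨0,[(25,0)]⟩,⟨0,[(24,0)]⟩) .k 0 (⟨0,[]⟩,⟨0,[]⟩) .k .k)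
  (.Q [1,0,0,0,-1,0,0,0,1,0,0,1] (.p true [0,0,0,0,1] [] (⟨0,[(26,0)]⟩,⟨0,[(25,0)]⟩) .k 0 (⟨0,[]⟩,
  ⟨0,[]⟩) .k .k) (.R ⟨2,true,false,false,[0,1],[0,0,0,0,1],[],(⟨0,[]⟩,⟨0,[]⟩),(⟨0,[(27,0)]⟩,⟨0,[(26,
  0)]⟩),⟨0,[]⟩,.k,.k,.k,(.r 0 ⟨6,[(10,0),(0,1),(9,1),(9,2),(15,3),(1,0),(0,0)]⟩ ⟨4,[(9,1),(6,0),(1,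
  0),(30,0)]⟩),.k,.k,⟨false,1,⟨21,[(9,3),(1,3),(9,3),(7,3),(17,3),(0,8),(0,4),(1,1)]⟩,⟨0,[]⟩⟩,⟨true,
  (-1),⟨3,[(0,3),(30,0),(0,0),(17,1)]⟩,⟨0,[(24,0)]⟩⟩,⟨true,1,⟨4,[(9,1),(6,0),(1,0),(30,0)]⟩,⟨0,[(3,
  0)]⟩⟩,⟨false,0,⟨0,[(1,0)]⟩,⟨0,[(24,0),(22,0)]⟩⟩,⟨false,1,⟨1,[(48,0),(0,0)]⟩,⟨1,[(31,0),(0,0)]⟩⟩,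
  ⟨true,(-1),⟨0,[(0,0)]⟩,⟨0,[(24,0),(26,0)]⟩⟩,[]⟩) (.Q [0,0,0,0,0,-1,0,0,0,0,0,1] (.ed false [1,-1,
  0,0,1] .k) (.Q [1,-1,0,0,0,0,-1,-1,1,0,-1,1] (.p false [0,0,1] [0,0,0,0,1] (⟨0,[(35,0)]⟩,⟨0,[(34,
  0)]⟩) .k 2 (⟨0,[(28,0)]⟩,⟨0,[(27,0)]⟩) .k (.r 0 ⟨2,[(11,0),(5,0),(0,0),(0,0),(30,0)]⟩ ⟨5,[(6,1),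
  (3,1),(1,3),(12,0),(0,0),(16,0),(6,1)]⟩)) (.S ⟨1,0,[1,1],[0,0,0,0,1],[],(⟨0,[(29,0)]⟩,⟨0,[(28,
  0)]⟩),⟨0,[(1,0)]⟩,.k,(.r (-1) ⟨4,[(11,1),(6,0),(1,0),(30,0)]⟩ ⟨6,[(12,0),(0,1),(9,1),(9,2),(15,3),
  (1,0),(0,0)]⟩),⟨false,1,⟨1,[(2,0),(24,0),(23,0)]⟩,⟨0,[]⟩⟩,⟨true,0,⟨0,[(53,0)]⟩,⟨0,[]⟩⟩,⟨true,0,⟨0,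
  [(5,0),(36,0),(7,0)]⟩,⟨0,[(48,0)]⟩⟩,⟨false,0,⟨0,[(49,0)]⟩,⟨7,[(10,1),(0,1),(21,0),(0,2),(16,3)]⟩⟩,
  [.a ⟨true,(-1),⟨3,[(0,3),(4,1),(7,1),(1,3),(17,1),(10,0),(5,2)]⟩,⟨1,[(2,1),(39,1),(1,0),(5,0)]⟩⟩
  ⟨false,1,⟨1,[(26,0),(0,0),(22,0)]⟩,⟨0,[]⟩⟩ ⟨true,0,⟨0,[(53,0)]⟩,⟨0,[(42,0)]⟩⟩,.o ⟨false,0,⟨0,[(0,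
  0),(12,0),(2,0)]⟩,⟨0,[(2,0)]⟩⟩,.e ⟨false,1,⟨1,[(26,0),(0,0),(23,0)]⟩,⟨0,[]⟩⟩ ⟨false,0,⟨0,[]⟩,⟨1,
  [(26,0),(0,0),(23,0)]⟩⟩,.e ⟨false,1,⟨1,[(50,0),(0,0)]⟩,⟨1,[(33,0),(0,0)]⟩⟩ ⟨false,1,⟨1,[(26,0),(0,
  0),(22,0)]⟩,⟨0,[(42,0)]⟩⟩]⟩) (.S ⟨1,0,[1],[0,0,0,0,1],[1,1],(⟨0,[(29,0)]⟩,⟨0,[(28,0)]⟩),⟨0,[(1,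
  0)]⟩,.k,(.r (-1) ⟨4,[(11,1),(6,0),(1,0),(30,0)]⟩ ⟨6,[(12,0),(0,1),(9,1),(9,2),(15,3),(1,0),(0,
  0)]⟩),⟨true,0,⟨0,[(53,0)]⟩,⟨0,[]⟩⟩,⟨false,1,⟨1,[(26,0),(0,0),(23,0)]⟩,⟨0,[]⟩⟩,⟨false,0,⟨0,[(49,
  0)]⟩,⟨7,[(10,1),(0,1),(21,0),(0,2),(16,3)]⟩⟩,⟨true,0,⟨0,[(49,0)]⟩,⟨0,[(48,0)]⟩⟩,[.o ⟨false,0,⟨1,
  [(3,1),(1,1),(32,0),(11,0)]⟩,⟨0,[(2,0)]⟩⟩,.a ⟨true,0,⟨0,[(3,0),(45,0)]⟩,⟨10,[(0,7),(1,2),(4,3),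
  (29,0),(1,0),(4,2),(8,2)]⟩⟩ ⟨true,0,⟨0,[]⟩,⟨1,[(33,0),(0,0)]⟩⟩ ⟨false,1,⟨1,[(50,0),(0,0)]⟩,⟨0,
  [(53,0)]⟩⟩,.o ⟨false,0,⟨1,[(3,1),(1,1),(39,0),(4,0)]⟩,⟨0,[(26,0)]⟩⟩,.e ⟨false,1,⟨1,[(26,0),(0,0),
  (22,0)]⟩,⟨0,[(42,0)]⟩⟩ ⟨false,1,⟨1,[(50,0),(0,0)]⟩,⟨1,[(33,0),(0,0)]⟩⟩]⟩)) (.Q [0,0,1,-1,-1,0,0,0,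
  1,0,0,1] (.p true [0,0,0,0,1] [] (⟨0,[(28,0)]⟩,⟨0,[(27,0)]⟩) .k 0 (⟨0,[]⟩,⟨0,[]⟩) .k .k) (.R ⟨0,
  false,false,true,[0,0,0,0,1],[0,1],[1,1],(⟨0,[(29,0)]⟩,⟨0,[(28,0)]⟩),(⟨0,[(40,0)]⟩,⟨0,[(39,0)]⟩),
  ⟨0,[(1,0)]⟩,.k,.k,(.r (-1) ⟨4,[(11,1),(6,0),(1,0),(30,0)]⟩ ⟨6,[(12,0),(0,1),(9,1),(9,2),(15,3),(1,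
  0),(0,0)]⟩),(.r (-1) ⟨4,[(11,1),(6,0),(1,0),(30,0)]⟩ ⟨6,[(12,0),(0,1),(9,1),(9,2),(15,3),(1,0),(0,
  0)]⟩),.k,.k,⟨true,1,⟨4,[(11,1),(6,0),(1,0),(30,0)]⟩,⟨0,[(12,0),(20,0)]⟩⟩,⟨false,2,⟨0,[(26,0),(23,
  0)]⟩,⟨1,[(0,0),(2,0),(1,0),(43,0)]⟩⟩,⟨true,0,⟨0,[(53,0)]⟩,⟨0,[]⟩⟩,⟨false,1,⟨0,[(26,0),(22,0)]⟩,⟨0,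
  [(3,0)]⟩⟩,⟨false,0,⟨0,[]⟩,⟨0,[]⟩⟩,⟨false,0,⟨0,[]⟩,⟨0,[]⟩⟩,[.o ⟨false,0,⟨1,[(5,1),(32,0),(11,0)]⟩,
  ⟨7,[(10,1),(0,1),(21,0),(0,2),(16,3)]⟩⟩,.e ⟨true,0,⟨0,[]⟩,⟨1,[(33,0),(0,0)]⟩⟩ ⟨true,1,⟨0,[(26,0),
  (22,0)]⟩,⟨0,[(0,0)]⟩⟩,.o ⟨false,0,⟨2,[(0,0),(2,1),(1,0),(6,0),(0,0),(24,0),(11,1)]⟩,⟨0,[(26,0)]⟩⟩,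
  .a ⟨true,(-1),⟨1,[(0,0),(2,0),(1,0),(43,0)]⟩,⟨1,[(2,1),(41,0),(5,0)]⟩⟩ ⟨false,1,⟨1,[(26,0),(0,0),
  (22,0)]⟩,⟨0,[(42,0)]⟩⟩ ⟨true,1,⟨0,[(5,0),(20,0),(23,0)]⟩,⟨0,[(0,0)]⟩⟩]⟩) (.S ⟨1,0,[-1,1],[1,0,0,0,
  -1],[-1],(⟨0,[(28,0)]⟩,⟨0,[(29,0)]⟩),⟨1,[(1,0),(6,0),(16,0),(2,0)]⟩,.k,(.r (-1) ⟨1,[(4,1),(0,5),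
  (9,3),(17,3),(8,9),(2,0),(4,10)]⟩ ⟨11,[(12,1),(0,9),(9,3),(20,2),(6,4)]⟩),⟨false,1,⟨1,[(26,0),(0,
  0),(23,0)]⟩,⟨0,[]⟩⟩,⟨true,0,⟨0,[(53,0)]⟩,⟨0,[]⟩⟩,⟨true,0,⟨0,[(49,0)]⟩,⟨0,[(48,0)]⟩⟩,⟨false,0,⟨0,
  [(49,0)]⟩,⟨7,[(10,1),(0,1),(21,0),(0,2),(16,3)]⟩⟩,[.a ⟨true,0,⟨60,[(0,30),(1,29),(1,11),(0,16),(2,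
  8),(6,23),(9,8),(7,23),(3,26),(6,19),(1,9)]⟩,⟨0,[(3,0),(45,0)]⟩⟩ ⟨false,1,⟨25,[(0,7),(10,3),(8,3),
  (6,7),(22,4),(0,4),(1,5)]⟩,⟨0,[]⟩⟩ ⟨true,0,⟨0,[(53,0)]⟩,⟨0,[(47,0)]⟩⟩,.o ⟨false,1,⟨0,[(2,0)]⟩,⟨1,
  [(3,1),(1,1),(32,0),(11,0)]⟩⟩,.o ⟨false,1,⟨0,[(26,0)]⟩,⟨1,[(3,1),(1,1),(39,0),(4,0)]⟩⟩,.e ⟨false,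
  1,⟨0,[(42,0),(7,0)]⟩,⟨1,[(33,0),(0,0)]⟩⟩ ⟨false,1,⟨25,[(0,7),(10,3),(8,3),(6,7),(22,4),(0,4),(1,
  5)]⟩,⟨0,[(47,0)]⟩⟩]⟩)))) (.Q [0,0,0,0,0,-1,0,0,0,0,0,1] (.ed false [1,-1,0,0,1] .k) (.Q [-1,0,0,1,
  0,0,-1,-1,-1,1,-1,-1] (.p false [0,0,1] [1,0,0,0,-1] (⟨0,[(34,0)]⟩,⟨0,[(33,0)]⟩) .k 2 (⟨0,[(26,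
  0)]⟩,⟨0,[(27,0)]⟩) .k (.r 0 ⟨3,[(10,0),(3,0),(2,0),(0,1),(30,0)]⟩ ⟨21,[(5,6),(3,7),(1,7),(9,0),(9,
  7),(15,7),(1,5),(1,3)]⟩)) (.S ⟨1,0,[1],[0,0,0,0,1],[1,1],(⟨0,[(28,0)]⟩,⟨0,[(27,0)]⟩),⟨0,[(1,0)]⟩,
  .k,(.r (-1) ⟨4,[(10,1),(6,0),(1,0),(30,0)]⟩ ⟨6,[(11,0),(0,1),(9,1),(9,2),(15,3),(1,0),(0,0)]⟩),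
  ⟨true,0,⟨0,[(52,0)]⟩,⟨0,[]⟩⟩,⟨false,1,⟨1,[(25,0),(0,0),(23,0)]⟩,⟨0,[]⟩⟩,⟨false,0,⟨0,[(48,0)]⟩,⟨7,
  [(9,1),(0,1),(21,0),(0,2),(16,3)]⟩⟩,⟨true,0,⟨0,[(48,0)]⟩,⟨0,[(47,0)]⟩⟩,[.e ⟨true,0,⟨0,[(52,0)]⟩,
  ⟨0,[(41,0)]⟩⟩ ⟨true,0,⟨0,[]⟩,⟨1,[(32,0),(0,0)]⟩⟩,.o ⟨false,1,⟨1,[(26,1),(10,0),(12,0)]⟩,⟨3,[(0,3),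
  (8,1),(2,1),(1,1),(22,0),(11,0)]⟩⟩,.a ⟨true,0,⟨0,[(26,0)]⟩,⟨3,[(0,1),(1,1),(6,1),(33,0),(6,0)]⟩⟩
  ⟨false,0,⟨0,[]⟩,⟨1,[(25,0),(0,0),(23,0)]⟩⟩ ⟨true,0,⟨0,[]⟩,⟨0,[(52,0)]⟩⟩,.e ⟨false,1,⟨1,[(25,0),(0,
  0),(22,0)]⟩,⟨0,[(41,0)]⟩⟩ ⟨false,1,⟨1,[(49,0),(0,0)]⟩,⟨1,[(32,0),(0,0)]⟩⟩]⟩) (.R ⟨1,false,false,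
  false,[0,0,0,0,1],[0,1],[1,1],(⟨0,[(28,0)]⟩,⟨0,[(27,0)]⟩),(⟨0,[(39,0)]⟩,⟨0,[(38,0)]⟩),⟨0,[(1,0)]⟩,
  .k,.k,(.r (-1) ⟨4,[(10,1),(6,0),(1,0),(30,0)]⟩ ⟨6,[(11,0),(0,1),(9,1),(9,2),(15,3),(1,0),(0,0)]⟩),
  (.r (-1) ⟨4,[(10,1),(6,0),(1,0),(30,0)]⟩ ⟨6,[(11,0),(0,1),(9,1),(9,2),(15,3),(1,0),(0,0)]⟩),(.r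
  (-2) ⟨4,[(10,3),(6,1),(1,1),(30,1)]⟩ ⟨0,[(11,0),(20,0),(15,0)]⟩),.k,⟨false,1,⟨2,[(10,0),(6,0),(27,
  0),(3,0)]⟩,⟨3,[(11,1),(0,1),(30,0),(6,2)]⟩⟩,⟨true,1,⟨0,[(2,0),(5,0)]⟩,⟨5,[(0,1),(2,0),(0,1),(6,3),
  (8,0),(5,3),(5,3),(8,1)]⟩⟩,⟨true,0,⟨0,[(52,0)]⟩,⟨0,[]⟩⟩,⟨false,1,⟨0,[(2,0),(47,0)]⟩,⟨5,[(0,1),(2,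
  0),(16,0),(5,3)]⟩⟩,⟨false,0,⟨0,[(48,0)]⟩,⟨7,[(9,1),(0,1),(21,0),(0,2),(16,3)]⟩⟩,⟨false,1,⟨0,[(2,
  0),(45,0),(1,0)]⟩,⟨2,[(0,1),(2,0),(16,0),(5,0)]⟩⟩,[.a ⟨true,0,⟨0,[(48,0)]⟩,⟨93,[(10,5),(9,40),(1,
  8),(7,5),(1,11),(3,13),(1,13),(4,14),(6,2)]⟩⟩ ⟨true,0,⟨0,[(52,0)]⟩,⟨0,[(41,0)]⟩⟩ ⟨false,1,⟨1,[(2,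
  1),(46,0),(0,0)]⟩,⟨49,[(0,17),(2,8),(3,1),(12,6),(3,1),(1,31),(9,5)]⟩⟩,.o ⟨false,1,⟨1,[(37,0),(10,
  1),(1,0)]⟩,⟨0,[(47,0)]⟩⟩,.e ⟨false,0,⟨0,[]⟩,⟨1,[(25,0),(0,0),(23,0)]⟩⟩ ⟨false,1,⟨0,[(2,0),(47,
  0)]⟩,⟨49,[(0,17),(2,8),(3,1),(12,6),(3,1),(1,31),(9,5)]⟩⟩,.o ⟨false,0,⟨26,[(0,7),(2,3),(7,6),(0,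
  8),(13,18),(6,1),(3,6),(3,7),(4,0)]⟩,⟨0,[(2,0),(5,0)]⟩⟩]⟩)) (.Q [-1,0,0,-2,0,0,0,0,-1,1,0,-1] (.p
  false [0,0,0,0,1] [1] (⟨0,[(27,0)]⟩,⟨0,[(26,0)]⟩) .k 1 (⟨0,[]⟩,⟨0,[]⟩) .k .k) (.S ⟨1,0,[-1,1],[1,
  0,0,0,-1],[-1],(⟨0,[(27,0)]⟩,⟨0,[(28,0)]⟩),⟨1,[(1,0),(5,0),(16,0),(2,0)]⟩,.k,(.r (-1) ⟨1,[(3,1),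
  (0,5),(9,3),(17,3),(8,9),(2,0),(4,10)]⟩ ⟨11,[(11,1),(0,9),(9,3),(20,2),(6,4)]⟩),⟨false,1,⟨1,[(25,
  0),(0,0),(23,0)]⟩,⟨0,[]⟩⟩,⟨true,0,⟨0,[(52,0)]⟩,⟨0,[]⟩⟩,⟨true,0,⟨0,[(48,0)]⟩,⟨0,[(47,0)]⟩⟩,⟨false,
  0,⟨0,[(48,0)]⟩,⟨7,[(9,1),(0,1),(21,0),(0,2),(16,3)]⟩⟩,[.o ⟨false,0,⟨3,[(0,1),(1,1),(1,1),(32,0),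
  (11,0)]⟩,⟨1,[(26,1),(10,0),(12,0)]⟩⟩,.e ⟨false,1,⟨0,[(41,0),(7,0)]⟩,⟨0,[(52,0)]⟩⟩ ⟨false,1,⟨21,
  [(10,3),(1,3),(9,3),(7,3),(17,3),(0,8),(0,4),(1,1)]⟩,⟨0,[]⟩⟩,.a ⟨true,0,⟨2,[(0,0),(1,1),(40,0),(6,
  0)]⟩,⟨0,[(26,0)]⟩⟩ ⟨false,1,⟨28,[(10,3),(1,5),(9,5),(7,3),(1,1),(15,1),(1,20),(1,2)]⟩,⟨0,[]⟩⟩
  ⟨true,0,⟨0,[(52,0)]⟩,⟨0,[]⟩⟩,.o ⟨false,0,⟨6,[(0,2),(1,3),(8,0),(0,0),(24,0),(8,4)]⟩,⟨1,[(26,1),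
  (10,0),(11,0)]⟩⟩]⟩) (.R ⟨0,false,false,false,[0,0,0,0,1],[0,1],[1,1],(⟨0,[(28,0)]⟩,⟨0,[(27,0)]⟩),
  (⟨0,[(39,0)]⟩,⟨0,[(38,0)]⟩),⟨0,[(1,0)]⟩,.k,.k,(.r (-1) ⟨4,[(10,1),(6,0),(1,0),(30,0)]⟩ ⟨8,[(0,1),
  (1,1),(8,0),(10,1),(9,4),(15,1),(1,0),(0,2)]⟩),(.r (-1) ⟨4,[(10,1),(6,0),(1,0),(30,0)]⟩ ⟨8,[(0,1),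
  (1,1),(8,0),(10,1),(9,4),(15,1),(1,0),(0,2)]⟩),.k,.k,⟨false,1,⟨2,[(10,0),(6,0),(27,0),(3,0)]⟩,⟨11,
  [(0,1),(1,1),(8,5),(20,5),(10,0),(6,6)]⟩⟩,⟨true,1,⟨0,[(2,0),(5,0)]⟩,⟨3,[(0,0),(2,0),(5,0),(1,2),
  (2,0),(11,2),(5,3),(8,0)]⟩⟩,⟨true,0,⟨0,[(52,0)]⟩,⟨0,[]⟩⟩,⟨false,1,⟨0,[(2,0),(47,0)]⟩,⟨3,[(0,0),(2,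
  0),(5,1),(16,2)]⟩⟩,⟨false,0,⟨0,[]⟩,⟨0,[]⟩⟩,⟨false,0,⟨0,[]⟩,⟨0,[]⟩⟩,[.a ⟨true,0,⟨0,[(48,0)]⟩,⟨93,
  [(10,5),(9,40),(1,8),(7,5),(1,11),(3,13),(1,13),(4,14),(6,2)]⟩⟩ ⟨true,0,⟨0,[(52,0)]⟩,⟨0,[(41,
  0)]⟩⟩ ⟨false,1,⟨1,[(2,1),(46,0),(0,0)]⟩,⟨29,[(0,8),(2,7),(3,0),(1,15),(14,0),(1,20),(9,2)]⟩⟩,.o
  ⟨false,1,⟨2,[(0,0),(1,0),(34,0),(12,1)]⟩,⟨0,[(47,0)]⟩⟩,.e ⟨false,0,⟨0,[]⟩,⟨13,[(0,0),(9,1),(1,1),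
  (9,2),(2,0),(4,1),(1,1),(17,8)]⟩⟩ ⟨false,1,⟨0,[(2,0),(47,0)]⟩,⟨29,[(0,8),(2,7),(3,0),(1,15),(14,
  0),(1,20),(9,2)]⟩⟩,.o ⟨false,0,⟨7,[(0,0),(2,0),(5,0),(1,2),(2,0),(11,6),(5,3),(4,3),(3,0)]⟩,⟨0,
  [(2,0),(5,0)]⟩⟩]⟩)))))))))

theorem ok20 : chk K t20 l19 = true := by decide +kernel

noncomputable def t21 : Tre :=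
  (.I [0,0,2,0,-2,2,-1] (.R ⟨0,false,false,false,[1,-1,-1],[1,-1],[1,1],(⟨0,[(16,0)]⟩,⟨139,[(3,5),
  (11,8),(7,5),(1,11),(2,139),(0,22),(5,38),(0,14),(4,11),(1,2)]⟩),(⟨0,[(31,0)]⟩,⟨0,[(32,0)]⟩),⟨7,
  [(0,1),(16,5),(7,1),(9,5),(1,0),(4,2)]⟩,.k,.k,(.x 2 ⟨0,[(0,0)]⟩ ⟨4,[(3,1),(1,3),(6,0),(3,4),(6,0),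
  (6,2),(0,4),(10,4),(0,2)]⟩),.k,.k,.k,⟨true,(-1),⟨0,[(1,0)]⟩,⟨7,[(2,1),(0,1),(21,0),(0,2),(16,
  3)]⟩⟩,⟨false,1,⟨0,[(25,0),(16,0)]⟩,⟨15,[(4,3),(1,1),(1,1),(6,3),(6,1),(7,2),(12,0)]⟩⟩,⟨false,(-1),
  ⟨0,[(4,0),(6,0)]⟩,⟨5,[(3,3),(1,1),(18,1),(11,0),(6,4)]⟩⟩,⟨true,0,⟨0,[(11,0)]⟩,⟨0,[(24,0)]⟩⟩,
  ⟨false,0,⟨0,[]⟩,⟨0,[]⟩⟩,⟨false,0,⟨0,[]⟩,⟨0,[]⟩⟩,[.a ⟨true,0,⟨93,[(3,5),(9,40),(1,8),(7,5),(1,11),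
  (3,13),(1,13),(4,14),(6,2)]⟩,⟨0,[(41,0)]⟩⟩ ⟨true,0,⟨0,[(45,0)]⟩,⟨0,[(34,0)]⟩⟩ ⟨false,2,⟨3,[(3,1),
  (19,1),(1,1),(16,2),(0,0)]⟩,⟨0,[(4,0)]⟩⟩,.o ⟨false,1,⟨7,[(2,1),(0,1),(21,0),(0,2),(16,3)]⟩,⟨1,[(1,
  1),(28,0),(11,0)]⟩⟩,.e ⟨false,0,⟨0,[]⟩,⟨1,[(18,0),(0,0),(23,0)]⟩⟩ ⟨false,2,⟨3,[(3,1),(19,1),(1,1),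
  (16,0),(0,2)]⟩,⟨0,[(4,0)]⟩⟩,.o ⟨false,(-1),⟨2,[(2,0),(1,2),(1,0),(18,0),(0,0),(12,0)]⟩,⟨1,[(25,1),
  (4,0),(11,2)]⟩⟩]⟩) (.Q [0,0,-1,-1,0,0,-2,-1,0,1,-2] (.p false [0,0,1] [1,0,-1] (⟨0,[(28,0)]⟩,⟨0,
  [(27,0)]⟩) .k 2 (⟨0,[(27,0)]⟩,⟨0,[(28,0)]⟩) .k (.r 1 ⟨0,[(4,0),(3,0),(2,0)]⟩ ⟨5,[(3,3),(1,5),(18,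
  7),(0,1),(10,2),(4,1),(1,6)]⟩)) (.I [1,-1,0,0,2,0,0,-2] (.I [0,0,-2,-2,2,0,0,-1] (.Q [0,0,0,0,0,2,
  0,0,0,-1,1] (.p true [0,0,1] [1] (⟨0,[(31,0)]⟩,⟨0,[(30,0)]⟩) .k 1 (⟨0,[]⟩,⟨0,[]⟩) .k .k) (.R ⟨0,
  false,false,false,[1,-1,-1],[1,-1],[1,1],(⟨0,[(20,0)]⟩,⟨85,[(0,35),(1,5),(16,5),(7,11),(4,49),(0,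
  13),(6,14),(6,2)]⟩),(⟨0,[(35,0)]⟩,⟨0,[(36,0)]⟩),⟨0,[(0,0)]⟩,.k,.k,(.r (-2) ⟨0,[(1,0)]⟩ ⟨5,[(8,6),
  (0,3),(5,5),(3,1),(9,0),(10,0),(4,0),(1,1)]⟩),.k,.k,.k,⟨true,(-1),⟨0,[(5,0)]⟩,⟨29,[(2,2),(3,9),(0,
  4),(8,0),(13,9),(16,13)]⟩⟩,⟨false,1,⟨5,[(0,1),(3,1),(24,3),(10,0),(5,2)]⟩,⟨9,[(3,0),(4,1),(3,0),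
  (6,2),(14,1)]⟩⟩,⟨false,(-1),⟨0,[(8,0),(6,0)]⟩,⟨9,[(2,2),(4,4),(8,0),(30,3)]⟩⟩,⟨true,0,⟨0,[(15,
  0)]⟩,⟨0,[(28,0)]⟩⟩,⟨false,0,⟨0,[]⟩,⟨0,[]⟩⟩,⟨false,0,⟨0,[]⟩,⟨0,[]⟩⟩,[.a ⟨true,0,⟨99,[(2,5),(14,49),
  (1,5),(7,11),(5,13),(1,13),(4,14),(6,2)]⟩,⟨0,[(45,0)]⟩⟩ ⟨true,0,⟨0,[(49,0)]⟩,⟨0,[(38,0)]⟩⟩ ⟨false,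
  2,⟨3,[(2,0),(4,1),(7,2),(11,0),(18,1)]⟩,⟨0,[(8,0)]⟩⟩,.o ⟨false,1,⟨29,[(2,2),(3,9),(0,4),(8,0),(13,
  9),(16,13)]⟩,⟨1,[(5,1),(28,0),(11,0)]⟩⟩,.e ⟨false,0,⟨0,[]⟩,⟨4,[(2,0),(13,1),(30,2)]⟩⟩ ⟨false,2,⟨3,
  [(2,0),(4,1),(7,2),(11,0),(19,1)]⟩,⟨0,[(8,0)]⟩⟩,.o ⟨false,(-1),⟨2,[(6,0),(1,2),(1,0),(18,0),(0,0),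
  (12,0)]⟩,⟨0,[(0,0),(3,0)]⟩⟩]⟩) (.Q [0,0,0,0,0,0,2,2,0,-1,2] (.p true [0,0,1] [1,0,-1] (⟨0,[(32,
  0)]⟩,⟨0,[(31,0)]⟩) .k 2 (⟨0,[(31,0)]⟩,⟨0,[(32,0)]⟩) .k (.r 1 ⟨0,[(8,0),(3,0),(2,0)]⟩ ⟨0,[(2,0),
  (46,0)]⟩)) (.R ⟨0,false,false,false,[0,-1,1],[1,-1,-1],[1,1],(⟨0,[(22,0)]⟩,⟨133,[(3,5),(16,5),(7,
  11),(3,133),(1,25),(5,35),(0,14),(6,2)]⟩),(⟨0,[(21,0)]⟩,⟨133,[(3,5),(16,5),(7,11),(4,133),(0,25),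
  (5,35),(0,14),(6,2)]⟩),⟨2,[(1,0),(19,1),(12,0),(5,2)]⟩,.k,.k,(.r (-1) ⟨3,[(0,0),(7,1),(4,3),(6,
  0)]⟩ ⟨23,[(3,11),(5,19),(0,13),(9,3),(9,13),(10,4),(4,13),(1,0)]⟩),.k,.k,.k,⟨false,(-1),⟨3,[(0,1),
  (8,3),(31,0),(1,1),(3,0)]⟩,⟨9,[(3,2),(4,4),(8,0),(30,3)]⟩⟩,⟨true,(-1),⟨6,[(4,2),(4,5),(3,2),(6,0),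
  (13,0),(1,0),(4,0)]⟩,⟨4,[(5,0),(16,0),(7,8),(4,1),(4,0),(6,0)]⟩⟩,⟨true,0,⟨8,[(3,2),(2,3),(3,4),(9,
  0),(8,2),(11,1)]⟩,⟨0,[(12,0),(26,0),(7,0)]⟩⟩,⟨false,1,⟨69,[(3,51),(0,35),(4,35),(10,15),(13,3),(1,
  3),(4,6),(6,8)]⟩,⟨0,[(0,0)]⟩⟩,⟨false,0,⟨0,[]⟩,⟨0,[]⟩⟩,⟨false,0,⟨0,[]⟩,⟨0,[]⟩⟩,[.e ⟨true,0,⟨0,[(50,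
  0)]⟩,⟨0,[(39,0)]⟩⟩ ⟨true,0,⟨0,[(4,0)]⟩,⟨5,[(0,2),(8,1),(0,3),(9,0),(9,5),(17,1)]⟩⟩,.o ⟨false,1,⟨0,
  [(11,0),(36,0)]⟩,⟨7,[(0,3),(8,0),(0,1),(8,0),(15,0),(7,2),(2,3)]⟩⟩,.a ⟨true,0,⟨0,[(30,0)]⟩,⟨0,
  [(27,0)]⟩⟩ ⟨false,0,⟨0,[]⟩,⟨4,[(3,0),(13,1),(30,2)]⟩⟩ ⟨true,0,⟨0,[(4,0)]⟩,⟨11,[(0,3),(9,9),(17,3),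
  (1,1),(10,0),(4,1),(1,0)]⟩⟩,.e ⟨false,1,⟨9,[(3,1),(13,3),(29,4),(0,0)]⟩,⟨0,[(39,0)]⟩⟩ ⟨false,1,⟨1,
  [(4,1),(42,0),(0,0)]⟩,⟨5,[(0,2),(8,1),(0,3),(9,0),(9,5),(17,1)]⟩⟩]⟩) (.Q [0,0,0,1,0,0,2,2,0,-1,2]
  (.p true [0,0,1] [1,0,-1] (⟨0,[(33,0)]⟩,⟨0,[(32,0)]⟩) .k 2 (⟨0,[(32,0)]⟩,⟨0,[(33,0)]⟩) .k (.r 1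
  ⟨0,[(9,0),(3,0),(2,0)]⟩ ⟨0,[(3,0),(46,0)]⟩)) (.R ⟨1,true,false,true,[1,0,-1],[0,0,1],[0,0,0,0,0,0,
  0,-1],(⟨0,[(33,0)]⟩,⟨0,[(34,0)]⟩),(⟨0,[(34,0)]⟩,⟨0,[(33,0)]⟩),⟨0,[(22,0)]⟩,.k,.k,.k,.k,(.x 1 ⟨29,
  [(5,10),(4,21),(2,9),(0,0),(6,2),(10,9),(1,59),(1,1),(3,9),(0,9)]⟩ ⟨3,[(2,5),(3,1),(24,5),(9,3),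
  (1,0),(4,2)]⟩),.k,⟨true,2,⟨1,[(1,1),(29,3),(8,1),(2,0),(4,2)]⟩,⟨8,[(0,3),(7,0),(1,6),(2,8),(18,1),
  (9,1)]⟩⟩,⟨false,2,⟨4,[(6,2),(16,2),(7,6),(4,0),(4,2),(6,2)]⟩,⟨6,[(5,2),(4,5),(3,2),(6,0),(13,0),
  (1,0),(4,0)]⟩⟩,⟨false,1,⟨4,[(4,0),(13,1),(30,2)]⟩,⟨0,[]⟩⟩,⟨true,0,⟨6,[(0,3),(7,1),(2,2),(4,2),(12,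
  0)]⟩,⟨0,[(1,0)]⟩⟩,⟨true,0,⟨0,[(47,0)]⟩,⟨0,[(46,0)]⟩⟩,⟨false,0,⟨0,[(0,0)]⟩,⟨27,[(1,23),(2,1),(4,3),
  (9,9),(12,7),(3,2),(12,12)]⟩⟩,[]⟩) (.Q [0,0,0,2,0,0,2,2,0,-1,2] (.p true [0,0,1] [1,0,-1] (⟨0,
  [(34,0)]⟩,⟨0,[(33,0)]⟩) .k 2 (⟨0,[(33,0)]⟩,⟨0,[(34,0)]⟩) .k (.r 1 ⟨0,[(10,0),(3,0),(2,0)]⟩ ⟨0,[(4,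
  0),(46,0)]⟩)) (.R ⟨1,true,false,true,[1,0,-1],[0,1,1],[0,0,0,0,0,0,0,-1],(⟨0,[(34,0)]⟩,⟨0,[(35,
  0)]⟩),(⟨133,[(5,5),(16,5),(7,11),(4,133),(0,25),(5,35),(0,14),(6,2)]⟩,⟨0,[(23,0)]⟩),⟨0,[(23,0)]⟩,
  .k,.k,.k,(.r (-2) ⟨4,[(1,4),(5,2),(16,2),(7,6),(4,0),(4,2),(6,2)]⟩ ⟨21,[(0,14),(8,7),(1,13),(2,5),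
  (7,10),(10,1),(7,5),(1,1)]⟩),(.r (-3) ⟨11,[(5,6),(4,10),(8,0),(25,1),(1,1)]⟩ ⟨31,[(0,22),(10,35),
  (2,17),(7,2),(10,3),(7,17),(1,9),(7,5)]⟩),.k,⟨false,3,⟨1,[(1,1),(5,1),(16,1),(7,1),(9,1),(6,0),(0,
  0)]⟩,⟨12,[(0,6),(7,0),(2,9),(2,11),(7,0),(10,1),(9,2)]⟩⟩,⟨true,2,⟨4,[(7,2),(16,2),(7,6),(4,0),(4,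
  2),(6,2)]⟩,⟨0,[(11,1),(8,0)]⟩⟩,⟨false,1,⟨4,[(5,0),(13,1),(30,2)]⟩,⟨0,[]⟩⟩,⟨true,0,⟨7,[(0,4),(8,0),
  (2,2),(4,2),(12,1)]⟩,⟨0,[(1,0)]⟩⟩,⟨true,0,⟨0,[(48,0)]⟩,⟨0,[(47,0)]⟩⟩,⟨false,0,⟨0,[(0,0)]⟩,⟨31,[(1,
  27),(3,1),(4,3),(9,13),(12,7),(3,4),(12,14)]⟩⟩,[]⟩) (.Q [0,0,-1,0,0,0,0,0,1,-1,0,1] (.p true [0,0,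
  0,0,1] [1] (⟨0,[(28,0)]⟩,⟨0,[(27,0)]⟩) .k 1 (⟨0,[]⟩,⟨0,[]⟩) .k .k) (.Q [1,0,0,0,-1,0,0,0,1,0,0,1]
  (.p true [0,0,0,0,1] [] (⟨0,[(29,0)]⟩,⟨0,[(28,0)]⟩) .k 0 (⟨0,[]⟩,⟨0,[]⟩) .k .k) (.R ⟨2,true,false,
  false,[0,1],[0,0,0,0,1],[1],(⟨0,[]⟩,⟨0,[]⟩),(⟨0,[(30,0)]⟩,⟨0,[(29,0)]⟩),⟨0,[]⟩,.k,.k,.k,(.r 0 ⟨2,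
  [(10,0),(3,0),(9,0),(9,0),(15,0),(1,0)]⟩ ⟨4,[(12,1),(6,0),(1,0),(30,0)]⟩),.k,.k,⟨false,1,⟨9,[(7,
  1),(13,3),(29,4),(0,0)]⟩,⟨0,[]⟩⟩,⟨true,(-1),⟨3,[(0,3),(33,0),(0,0),(17,1)]⟩,⟨0,[(27,0)]⟩⟩,⟨true,1,
  ⟨4,[(12,1),(6,0),(1,0),(30,0)]⟩,⟨0,[(10,0)]⟩⟩,⟨false,0,⟨11,[(0,6),(1,1),(8,3),(16,4),(10,0),(12,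
  5)]⟩,⟨0,[(27,0),(22,0)]⟩⟩,⟨false,1,⟨1,[(51,0),(0,0)]⟩,⟨1,[(34,0),(0,0)]⟩⟩,⟨true,(-1),⟨0,[(0,0)]⟩,
  ⟨0,[(27,0),(26,0)]⟩⟩,[]⟩) (.R ⟨1,false,false,true,[0,0,1],[1,0,0,0,-1],[1,0,0,-1,0,0,0,1],(⟨0,
  [(37,0)]⟩,⟨0,[(36,0)]⟩),(⟨0,[(29,0)]⟩,⟨0,[(30,0)]⟩),⟨0,[(26,0)]⟩,.k,.k,.k,.k,(.r 0 ⟨0,[(17,0)]⟩
  ⟨14,[(7,7),(2,0),(3,5),(9,5),(7,0),(1,4),(15,7),(2,2)]⟩),.k,⟨true,0,⟨0,[(17,0),(30,0)]⟩,⟨19,[(4,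
  2),(2,6),(2,11),(3,7),(9,0),(20,1),(8,6)]⟩⟩,⟨false,1,⟨0,[(27,0),(3,0)]⟩,⟨0,[(1,0),(32,0)]⟩⟩,
  ⟨false,1,⟨29,[(7,2),(3,9),(0,4),(8,0),(13,9),(16,13)]⟩,⟨0,[(50,0)]⟩⟩,⟨false,1,⟨31,[(0,31),(3,12),
  (2,2),(16,2),(13,3),(1,3),(4,5),(8,2)]⟩,⟨0,[(1,0),(18,0),(27,0)]⟩⟩,⟨true,0,⟨0,[]⟩,⟨0,[(54,0)]⟩⟩,
  ⟨false,1,⟨19,[(0,13),(3,6),(2,2),(2,0),(13,2),(2,5),(17,4),(1,0),(2,18)]⟩,⟨1,[(1,1),(9,0),(8,0),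
  (27,1)]⟩⟩,[.o ⟨false,1,⟨0,[(27,0),(26,0)]⟩,⟨0,[(1,0),(46,0)]⟩⟩,.o ⟨false,1,⟨0,[(0,0)]⟩,⟨16,[(1,8),
  (0,0),(8,1),(1,2),(0,2),(13,7),(10,2),(8,2)]⟩⟩,.o ⟨false,1,⟨4,[(9,0),(16,0),(7,3),(4,1),(4,0),(6,
  0)]⟩,⟨9,[(8,0),(4,1),(3,0),(6,2),(14,1)]⟩⟩,.a ⟨true,0,⟨0,[(34,0)]⟩,⟨0,[(31,0)]⟩⟩ ⟨true,0,⟨0,[(17,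
  0)]⟩,⟨9,[(4,2),(2,1),(2,1),(3,7),(9,0),(20,1),(8,1)]⟩⟩ ⟨false,1,⟨0,[(0,0),(30,0)]⟩,⟨0,[(1,0),(32,
  0),(13,0)]⟩⟩]⟩)) (.Q [-1,-1,0,0,1,0,0,0,-1,0,0,-1] (.p false [0,0,0,0,1] [] (⟨0,[(29,0)]⟩,⟨0,[(28,
  0)]⟩) .k 0 (⟨0,[]⟩,⟨0,[]⟩) .k .k) (.Q [0,0,0,0,0,1,0,0,0,-1,0,1] (.ed false [0,1,0,0,1] .k) (.Q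
  [-1,1,0,0,0,0,0,0,-1,0,0,-1] (.p false [0,0,0,0,1] [] (⟨0,[(31,0)]⟩,⟨0,[(30,0)]⟩) .k 0 (⟨0,[]⟩,⟨0,
  []⟩) .k .k) (.S ⟨1,0,[1],[0,0,0,0,1],[1,1],(⟨0,[(32,0)]⟩,⟨0,[(31,0)]⟩),⟨1,[(1,0),(5,0),(20,0),(3,
  0)]⟩,.k,(.r (-1) ⟨4,[(14,1),(6,0),(1,0),(30,0)]⟩ ⟨2,[(12,0),(3,0),(9,0),(9,0),(15,0),(1,0)]⟩),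
  ⟨true,0,⟨0,[(56,0)]⟩,⟨0,[]⟩⟩,⟨false,1,⟨4,[(9,0),(13,1),(30,2)]⟩,⟨0,[]⟩⟩,⟨false,0,⟨0,[(52,0)]⟩,⟨29,
  [(9,2),(3,9),(0,4),(8,0),(13,9),(16,13)]⟩⟩,⟨true,0,⟨0,[(52,0)]⟩,⟨0,[(51,0)]⟩⟩,[.e ⟨true,0,⟨0,[(56,
  0)]⟩,⟨0,[(45,0)]⟩⟩ ⟨true,0,⟨0,[]⟩,⟨1,[(36,0),(0,0)]⟩⟩,.o ⟨false,1,⟨1,[(30,1),(10,0),(12,0)]⟩,⟨0,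
  [(0,0)]⟩⟩,.a ⟨true,0,⟨0,[(30,0)]⟩,⟨1,[(0,1),(46,0),(6,0)]⟩⟩ ⟨false,0,⟨0,[]⟩,⟨4,[(9,0),(13,1),(30,
  2)]⟩⟩ ⟨true,0,⟨0,[]⟩,⟨0,[(56,0)]⟩⟩,.e ⟨false,1,⟨9,[(9,1),(13,3),(29,4),(0,0)]⟩,⟨0,[(45,0)]⟩⟩
  ⟨false,1,⟨1,[(53,0),(0,0)]⟩,⟨1,[(36,0),(0,0)]⟩⟩]⟩) (.Q [1,0,0,0,0,0,0,0,1,-1,0,1] (.p true [0,0,0,
  0,1] [1] (⟨0,[(32,0)]⟩,⟨0,[(31,0)]⟩) .k 1 (⟨0,[]⟩,⟨0,[]⟩) .k .k) (.R ⟨1,false,false,true,[1,0,-1],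
  [0,0,0,0,1],[1,1,0,-1,0,0,0,-1],(⟨0,[(39,0)]⟩,⟨0,[(40,0)]⟩),(⟨0,[(33,0)]⟩,⟨0,[(32,0)]⟩),⟨0,[(28,
  0)]⟩,.k,.k,.k,.k,(.r (-2) ⟨0,[(5,1),(7,8),(0,2),(22,0),(8,8),(2,0),(4,9)]⟩ ⟨0,[(16,0),(6,0)]⟩),.k,
  ⟨true,1,⟨32,[(5,3),(4,14),(3,5),(0,0),(1,1),(24,0),(9,12)]⟩,⟨0,[(16,0),(6,0)]⟩⟩,⟨false,1,⟨0,[(0,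
  0),(36,0),(16,0)]⟩,⟨15,[(3,10),(0,4),(6,2),(4,5),(2,2),(14,3),(13,1),(1,3)]⟩⟩,⟨true,0,⟨0,[(52,
  0)]⟩,⟨0,[(53,0)]⟩⟩,⟨false,0,⟨0,[(0,0),(22,0)]⟩,⟨19,[(3,15),(0,3),(2,7),(2,1),(23,3),(6,1),(1,1),
  (4,0),(6,0)]⟩⟩,⟨false,0,⟨0,[]⟩,⟨4,[(10,0),(13,1),(30,2)]⟩⟩,⟨false,0,⟨0,[(0,0),(22,0),(29,0)]⟩,⟨1,
  [(3,1),(3,0),(17,0)]⟩⟩,[.o ⟨false,0,⟨5,[(0,4),(16,0),(13,0),(6,0),(11,1),(1,0)]⟩,⟨0,[(3,0)]⟩⟩,.o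
  ⟨false,0,⟨0,[(0,0)]⟩,⟨2,[(3,0),(26,1),(26,0)]⟩⟩,.o ⟨false,0,⟨9,[(11,0),(4,1),(3,0),(6,2),(14,1)]⟩,
  ⟨4,[(12,0),(16,0),(7,3),(4,1),(4,0),(6,0)]⟩⟩,.a ⟨true,(-1),⟨27,[(16,21),(8,10),(1,2),(13,1),(1,1),
  (4,5),(7,5)]⟩,⟨0,[(37,0),(16,0)]⟩⟩ ⟨true,1,⟨7,[(5,1),(9,3),(1,3),(30,0),(1,1),(3,0)]⟩,⟨0,[(16,0),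
  (6,0)]⟩⟩ ⟨false,1,⟨0,[(0,0),(36,0),(16,0)]⟩,⟨15,[(3,4),(0,10),(6,3),(4,7),(3,3),(20,0),(1,0),(2,
  4),(8,2)]⟩⟩]⟩) (.R ⟨2,true,false,false,[0,1],[0,0,0,0,1],[1,0,1],(⟨0,[]⟩,⟨0,[]⟩),(⟨0,[(33,0)]⟩,⟨0,
  [(32,0)]⟩),⟨0,[]⟩,.k,.k,.k,(.r 0 ⟨2,[(13,0),(3,0),(9,0),(9,0),(15,0),(1,0)]⟩ ⟨4,[(15,1),(6,0),(1,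
  0),(30,0)]⟩),.k,.k,⟨true,0,⟨1,[(37,0),(0,0)]⟩,⟨0,[]⟩⟩,⟨false,0,⟨0,[(31,0)]⟩,⟨1,[(0,1),(41,0),(11,
  0)]⟩⟩,⟨false,1,⟨29,[(10,2),(3,9),(0,4),(8,0),(13,9),(16,13)]⟩,⟨0,[(53,0)]⟩⟩,⟨true,0,⟨2,[(1,0),(12,
  0),(3,0),(12,1)]⟩,⟨1,[(0,1),(12,1),(28,0),(11,0)]⟩⟩,⟨true,0,⟨0,[]⟩,⟨0,[(57,0)]⟩⟩,⟨false,0,⟨0,[(1,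
  0)]⟩,⟨2,[(3,0),(26,1),(26,0)]⟩⟩,[]⟩))) (.Q [-1,1,0,0,0,0,0,0,-1,0,0,-1] (.p false [0,0,0,0,1] []
  (⟨0,[(31,0)]⟩,⟨0,[(30,0)]⟩) .k 0 (⟨0,[]⟩,⟨0,[]⟩) .k .k) (.S ⟨1,0,[-1,1],[1,0,0,0,-1],[-1],(⟨0,
  [(31,0)]⟩,⟨0,[(32,0)]⟩),⟨0,[(1,0)]⟩,.k,(.r (-1) ⟨1,[(4,1),(7,9),(0,3),(31,9),(2,0),(4,10)]⟩ ⟨11,
  [(15,1),(0,9),(9,3),(20,2),(6,4)]⟩),⟨false,1,⟨4,[(9,0),(13,1),(30,2)]⟩,⟨0,[]⟩⟩,⟨true,0,⟨0,[(56,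
  0)]⟩,⟨0,[]⟩⟩,⟨true,0,⟨0,[(52,0)]⟩,⟨0,[(51,0)]⟩⟩,⟨false,0,⟨0,[(52,0)]⟩,⟨29,[(9,2),(3,9),(0,4),(8,
  0),(13,9),(16,13)]⟩⟩,[.o ⟨false,0,⟨0,[(0,0)]⟩,⟨1,[(30,1),(10,0),(12,0)]⟩⟩,.e ⟨false,1,⟨0,[(45,0),
  (7,0)]⟩,⟨0,[(56,0)]⟩⟩ ⟨false,1,⟨1,[(4,1),(7,11),(0,3),(31,11),(2,0),(4,12)]⟩,⟨0,[]⟩⟩,.a ⟨true,0,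
  ⟨1,[(0,1),(46,0),(6,0)]⟩,⟨0,[(30,0)]⟩⟩ ⟨false,1,⟨1,[(4,1),(7,11),(0,3),(31,13),(2,0),(4,12)]⟩,⟨0,
  []⟩⟩ ⟨true,0,⟨0,[(56,0)]⟩,⟨0,[]⟩⟩,.o ⟨false,0,⟨0,[(0,0),(49,0)]⟩,⟨1,[(30,1),(10,0),(11,0)]⟩⟩]⟩)
  (.Q [0,0,-1,0,0,0,0,0,2,-1,0,2] (.p true [0,0,0,0,1] [1,0,0,0,-1] (⟨0,[(32,0)]⟩,⟨0,[(31,0)]⟩) .k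
  2 (⟨0,[(31,0)]⟩,⟨0,[(32,0)]⟩) .k (.r 0 ⟨0,[]⟩ ⟨0,[(4,1),(7,11),(0,3),(31,11),(2,0),(4,11)]⟩)) (.Q
  [1,0,0,0,0,0,0,0,1,-1,0,1] (.p true [0,0,0,0,1] [1] (⟨0,[(33,0)]⟩,⟨0,[(32,0)]⟩) .k 1 (⟨0,[]⟩,⟨0,
  []⟩) .k .k) (.R ⟨1,false,false,true,[1,0,-1],[0,0,0,0,1],[1,1,0,-1,0,0,0,-1],(⟨0,[(40,0)]⟩,⟨0,
  [(41,0)]⟩),(⟨0,[(34,0)]⟩,⟨0,[(33,0)]⟩),⟨0,[(29,0)]⟩,.k,.k,.k,.k,(.r (-2) ⟨0,[(6,1),(7,8),(0,2),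
  (22,0),(8,8),(2,0),(4,9)]⟩ ⟨0,[(17,0),(6,0)]⟩),.k,⟨true,1,⟨32,[(6,3),(4,14),(3,5),(0,0),(1,1),(24,
  0),(9,12)]⟩,⟨0,[(17,0),(6,0)]⟩⟩,⟨false,1,⟨9,[(1,4),(11,2),(16,2),(7,6),(4,0),(4,2),(6,2)]⟩,⟨15,
  [(4,10),(0,4),(6,2),(4,5),(2,2),(14,3),(13,1),(1,3)]⟩⟩,⟨true,0,⟨0,[(53,0)]⟩,⟨0,[(54,0)]⟩⟩,⟨false,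
  0,⟨0,[(0,0),(23,0)]⟩,⟨19,[(4,15),(0,3),(2,7),(2,1),(23,3),(6,1),(1,1),(4,0),(6,0)]⟩⟩,⟨false,0,⟨0,
  []⟩,⟨4,[(11,0),(13,1),(30,2)]⟩⟩,⟨false,0,⟨7,[(1,3),(15,1),(0,1),(5,7),(18,0),(10,3),(1,0)]⟩,⟨1,
  [(4,1),(3,0),(17,0)]⟩⟩,[.o ⟨false,0,⟨17,[(1,8),(16,6),(0,4),(0,0),(4,3),(13,1),(3,0),(9,0)]⟩,⟨0,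
  [(4,0)]⟩⟩,.o ⟨false,0,⟨0,[(0,0)]⟩,⟨2,[(4,0),(26,1),(26,0)]⟩⟩,.o ⟨false,0,⟨9,[(12,0),(4,1),(3,0),
  (6,2),(14,1)]⟩,⟨4,[(13,0),(16,0),(7,3),(4,1),(4,0),(6,0)]⟩⟩,.a ⟨true,(-1),⟨27,[(17,21),(8,10),(1,
  2),(13,1),(1,1),(4,5),(7,5)]⟩,⟨0,[(38,0),(16,0)]⟩⟩ ⟨true,1,⟨7,[(6,1),(9,3),(1,3),(30,0),(1,1),(3,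
  0)]⟩,⟨0,[(17,0),(6,0)]⟩⟩ ⟨false,1,⟨1,[(1,0),(11,0),(16,0),(7,0),(9,0)]⟩,⟨15,[(4,4),(0,10),(6,3),
  (4,7),(3,3),(20,0),(1,0),(2,4),(8,2)]⟩⟩]⟩) (.R ⟨2,true,false,false,[0,1],[0,0,0,0,1],[1,0,1],(⟨0,
  []⟩,⟨0,[]⟩),(⟨0,[(34,0)]⟩,⟨0,[(33,0)]⟩),⟨0,[]⟩,.k,.k,.k,(.r 0 ⟨2,[(14,0),(3,0),(9,0),(9,0),(15,0),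
  (1,0)]⟩ ⟨4,[(16,1),(6,0),(1,0),(30,0)]⟩),.k,.k,⟨true,0,⟨1,[(38,0),(0,0)]⟩,⟨0,[]⟩⟩,⟨false,0,⟨0,
  [(32,0)]⟩,⟨1,[(0,1),(42,0),(11,0)]⟩⟩,⟨false,1,⟨29,[(11,2),(3,9),(0,4),(8,0),(13,9),(16,13)]⟩,⟨0,
  [(54,0)]⟩⟩,⟨true,0,⟨3,[(1,1),(24,1),(11,0),(0,0)]⟩,⟨1,[(0,1),(13,1),(28,0),(11,0)]⟩⟩,⟨true,0,⟨0,
  []⟩,⟨0,[(58,0)]⟩⟩,⟨false,0,⟨0,[(2,0)]⟩,⟨2,[(4,0),(26,1),(26,0)]⟩⟩,[]⟩)) (.R ⟨2,true,false,false,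
  [0,1],[0,0,0,0,1],[1,0,1],(⟨0,[]⟩,⟨0,[]⟩),(⟨0,[(33,0)]⟩,⟨0,[(32,0)]⟩),⟨0,[]⟩,.k,.k,.k,(.r 0 ⟨2,
  [(13,0),(3,0),(9,0),(9,0),(15,0),(1,0)]⟩ ⟨4,[(15,1),(6,0),(1,0),(30,0)]⟩),.k,.k,⟨true,0,⟨1,[(37,
  0),(0,0)]⟩,⟨0,[]⟩⟩,⟨false,0,⟨0,[(31,0)]⟩,⟨3,[(0,1),(41,0),(11,2)]⟩⟩,⟨false,1,⟨29,[(10,2),(3,9),(0,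
  4),(8,0),(13,9),(16,13)]⟩,⟨0,[(53,0)]⟩⟩,⟨true,0,⟨2,[(1,0),(12,0),(3,0),(12,1)]⟩,⟨3,[(0,1),(12,3),
  (28,0),(11,2)]⟩⟩,⟨true,0,⟨0,[]⟩,⟨0,[(57,0)]⟩⟩,⟨false,0,⟨0,[(1,0)]⟩,⟨2,[(3,0),(26,1),(26,0)]⟩⟩,
  []⟩)))) (.Q [0,0,0,0,0,-1,0,0,0,0,0,1] (.ed false [1,-1,0,0,1] .k) (.S ⟨1,0,[1,1],[0,0,0,0,1],[1,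
  1,1],(⟨0,[(31,0)]⟩,⟨0,[(30,0)]⟩),⟨0,[(0,0)]⟩,.k,(.r (-1) ⟨4,[(13,1),(6,0),(1,0),(30,0)]⟩ ⟨2,[(11,
  0),(3,0),(9,0),(9,0),(15,0),(1,0)]⟩),⟨false,0,⟨1,[(35,0),(0,0)]⟩,⟨1,[(52,0),(0,0)]⟩⟩,⟨true,0,⟨0,
  [(55,0)]⟩,⟨0,[]⟩⟩,⟨true,(-1),⟨0,[(11,0)]⟩,⟨4,[(13,1),(6,0),(1,0),(30,0)]⟩⟩,⟨false,0,⟨0,[(51,0)]⟩,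
  ⟨29,[(8,2),(3,9),(0,4),(8,0),(13,9),(16,13)]⟩⟩,[.a ⟨true,(-1),⟨0,[(1,0)]⟩,⟨1,[(2,1),(49,0),(0,
  0)]⟩⟩ ⟨false,0,⟨0,[(55,0)]⟩,⟨1,[(52,0),(0,0)]⟩⟩ ⟨true,0,⟨0,[(55,0)]⟩,⟨0,[(44,0)]⟩⟩,.o ⟨false,0,⟨1,
  [(1,1),(38,0),(12,0)]⟩,⟨1,[(2,1),(44,0),(4,0)]⟩⟩,.o ⟨false,0,⟨1,[(1,1),(45,0),(5,0)]⟩,⟨0,[(28,
  0)]⟩⟩,.e ⟨false,0,⟨0,[]⟩,⟨4,[(8,0),(13,1),(30,2)]⟩⟩ ⟨false,1,⟨9,[(8,1),(13,3),(29,4),(0,0)]⟩,⟨0,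
  [(44,0)]⟩⟩]⟩) (.Q [1,1,0,0,-1,0,-1,-1,1,0,-1,1] (.p false [0,0,1] [0,0,0,0,1] (⟨0,[(38,0)]⟩,⟨0,
  [(37,0)]⟩) .k 2 (⟨0,[(31,0)]⟩,⟨0,[(30,0)]⟩) .k (.r 0 ⟨2,[(14,0),(5,0),(0,0),(0,0),(30,0)]⟩ ⟨1,[(8,
  0),(46,0)]⟩)) (.R ⟨0,false,false,true,[0,0,0,0,1],[0,1],[1,1],(⟨0,[(32,0)]⟩,⟨0,[(31,0)]⟩),(⟨0,
  [(43,0)]⟩,⟨0,[(42,0)]⟩),⟨0,[(1,0)]⟩,.k,.k,(.r (-1) ⟨4,[(14,1),(6,0),(1,0),(30,0)]⟩ ⟨2,[(12,0),(3,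
  0),(9,0),(9,0),(15,0),(1,0)]⟩),(.r (-1) ⟨4,[(14,1),(6,0),(1,0),(30,0)]⟩ ⟨2,[(12,0),(3,0),(9,0),(9,
  0),(15,0),(1,0)]⟩),.k,.k,⟨true,1,⟨4,[(14,1),(6,0),(1,0),(30,0)]⟩,⟨0,[(15,0),(20,0)]⟩⟩,⟨false,2,⟨0,
  [(29,0),(23,0)]⟩,⟨0,[(2,0),(42,0)]⟩⟩,⟨true,0,⟨0,[(56,0)]⟩,⟨0,[]⟩⟩,⟨false,1,⟨0,[(29,0),(22,0)]⟩,⟨1,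
  [(0,0),(1,0),(10,0),(40,1)]⟩⟩,⟨false,0,⟨0,[]⟩,⟨0,[]⟩⟩,⟨false,0,⟨0,[]⟩,⟨0,[]⟩⟩,[.o ⟨false,0,⟨1,
  [(12,1),(28,0),(11,0)]⟩,⟨29,[(9,2),(3,9),(0,4),(8,0),(13,9),(16,13)]⟩⟩,.e ⟨true,0,⟨0,[]⟩,⟨1,[(36,
  0),(0,0)]⟩⟩ ⟨true,1,⟨0,[(29,0),(22,0)]⟩,⟨1,[(0,0),(1,0),(10,0),(31,1)]⟩⟩,.o ⟨false,0,⟨1,[(2,1),
  (45,0),(5,0)]⟩,⟨0,[(29,0)]⟩⟩,.a ⟨true,(-1),⟨0,[(2,0),(42,0)]⟩,⟨3,[(3,1),(25,1),(17,0),(5,2)]⟩⟩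
  ⟨false,1,⟨9,[(9,1),(13,3),(29,4),(0,0)]⟩,⟨0,[(45,0)]⟩⟩ ⟨true,1,⟨0,[(12,0),(16,0),(23,0)]⟩,⟨1,[(0,
  0),(1,0),(10,0),(31,1)]⟩⟩]⟩) (.S ⟨1,0,[-1,1],[1,0,0,0,-1],[-1],(⟨0,[(31,0)]⟩,⟨0,[(32,0)]⟩),⟨1,[(1,
  0),(5,0),(20,0),(2,0)]⟩,.k,(.r (-1) ⟨1,[(4,1),(7,9),(0,3),(31,9),(2,0),(4,10)]⟩ ⟨11,[(15,1),(0,9),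
  (9,3),(20,2),(6,4)]⟩),⟨false,1,⟨4,[(9,0),(13,1),(30,2)]⟩,⟨0,[]⟩⟩,⟨true,0,⟨0,[(56,0)]⟩,⟨0,[]⟩⟩,
  ⟨true,0,⟨0,[(52,0)]⟩,⟨0,[(51,0)]⟩⟩,⟨false,0,⟨0,[(52,0)]⟩,⟨29,[(9,2),(3,9),(0,4),(8,0),(13,9),(16,
  13)]⟩⟩,[.a ⟨true,0,⟨3,[(0,3),(3,1),(7,3),(34,0),(1,1),(3,0)]⟩,⟨0,[(2,0),(51,0)]⟩⟩ ⟨false,1,⟨1,[(4,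
  1),(7,11),(0,3),(31,11),(2,0),(4,12)]⟩,⟨0,[]⟩⟩ ⟨true,0,⟨0,[(56,0)]⟩,⟨0,[(50,0)]⟩⟩,.o ⟨false,1,⟨17,
  [(0,7),(3,0),(1,2),(5,1),(16,9),(18,1),(0,1),(6,1)]⟩,⟨1,[(2,1),(38,0),(12,0)]⟩⟩,.o ⟨false,1,⟨0,
  [(29,0)]⟩,⟨1,[(2,1),(45,0),(5,0)]⟩⟩,.e ⟨false,1,⟨0,[(45,0),(7,0)]⟩,⟨1,[(36,0),(0,0)]⟩⟩ ⟨false,1,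
  ⟨1,[(4,1),(7,11),(0,3),(31,11),(2,0),(4,12)]⟩,⟨0,[(50,0)]⟩⟩]⟩))))))))) (.Q [0,0,0,0,0,2,0,0,0,0,
  -1] (.p false [0,0,1] [] (⟨0,[(31,0)]⟩,⟨0,[(30,0)]⟩) .k 0 (⟨0,[]⟩,⟨0,[]⟩) .k .k) (.R ⟨0,false,
  false,false,[0,-1,1],[1,-1,-1],[1,1],(⟨0,[(21,0)]⟩,⟨85,[(0,35),(1,5),(16,5),(7,11),(3,49),(1,13),
  (6,14),(6,2)]⟩),(⟨0,[(20,0)]⟩,⟨133,[(2,5),(16,5),(7,11),(4,133),(0,25),(5,35),(0,14),(6,2)]⟩),⟨0,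
  [(0,0)]⟩,.k,.k,(.r (-1) ⟨2,[(7,0),(4,1),(1,1),(32,0)]⟩ ⟨27,[(1,16),(0,22),(2,8),(3,12),(9,6),(7,
  0),(12,2)]⟩),.k,.k,.k,⟨false,(-1),⟨2,[(1,1),(12,0),(27,0),(3,0)]⟩,⟨9,[(2,2),(4,4),(8,0),(30,3)]⟩⟩,
  ⟨true,(-1),⟨3,[(1,1),(1,2),(8,0),(6,0)]⟩,⟨4,[(4,0),(16,0),(7,8),(4,1),(4,0),(6,0)]⟩⟩,⟨true,0,⟨8,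
  [(2,2),(2,3),(3,4),(9,0),(8,2),(11,1)]⟩,⟨0,[(1,0),(4,0),(3,0),(27,0),(7,1)]⟩⟩,⟨false,1,⟨29,[(1,7),
  (0,23),(0,19),(4,3),(10,7),(20,0),(6,2)]⟩,⟨4,[(1,4),(2,2),(1,4),(14,2),(7,1),(4,0),(4,2),(6,2)]⟩⟩,
  ⟨false,0,⟨0,[]⟩,⟨0,[]⟩⟩,⟨false,0,⟨0,[]⟩,⟨0,[]⟩⟩,[.e ⟨true,0,⟨0,[(49,0)]⟩,⟨0,[(38,0)]⟩⟩ ⟨true,0,⟨0,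
  [(3,0)]⟩,⟨2,[(1,0),(7,0),(5,0),(11,0),(1,2),(4,0),(12,0)]⟩⟩,.o ⟨false,1,⟨0,[(10,0),(36,0)]⟩,⟨5,
  [(1,1),(7,3),(2,1),(14,1),(6,0),(11,2)]⟩⟩,.a ⟨true,0,⟨0,[(29,0)]⟩,⟨0,[(26,0)]⟩⟩ ⟨false,0,⟨0,[]⟩,
  ⟨4,[(2,0),(13,1),(30,2)]⟩⟩ ⟨true,0,⟨0,[(3,0)]⟩,⟨0,[(9,0),(5,0)]⟩⟩,.e ⟨false,1,⟨9,[(2,1),(13,3),
  (29,4),(0,0)]⟩,⟨0,[(38,0)]⟩⟩ ⟨false,1,⟨1,[(3,1),(42,0),(0,0)]⟩,⟨2,[(1,0),(7,0),(5,0),(11,0),(1,2),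
  (4,0),(12,0)]⟩⟩]⟩) (.I [0,0,0,0,1,0,0,0,-1] (.I [1,0,0,0,0,3,0,0,1] (.I [0,1,0,-3] (.I [0,1,1,-1,
  0,0,0,-1] (.I [1,0,-1,-1,0,-1,-2,-1] (.C [(0,5),(0,5),(0,3),(3,11),(2,11),(33,9),(0,9),(0,4),(5,
  4)]) (.C [(0,0),(4,1),(2,0),(35,0)])) (.C [(0,0),(13,0),(18,0)])) (.C [(0,0),(8,0),(3,0)])) (.C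
  [(0,0),(24,0),(0,0),(14,0)])) (.C [(0,0),(22,0),(2,0)])))) (.Q [0,0,0,0,0,2,0,0,0,0,-1] (.p false
  [0,0,1] [] (⟨0,[(30,0)]⟩,⟨0,[(29,0)]⟩) .k 0 (⟨0,[]⟩,⟨0,[]⟩) .k .k) (.R ⟨0,false,false,false,[0,-1,
  1],[1,-1,-1],[1,1],(⟨0,[(20,0)]⟩,⟨17,[(0,8),(2,1),(14,2),(9,3),(1,6),(1,3),(6,3)]⟩),(⟨0,[(19,0)]⟩,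
  ⟨139,[(6,5),(11,8),(7,5),(1,11),(2,139),(0,22),(5,38),(0,14),(4,11),(1,2)]⟩),⟨0,[(0,0)]⟩,.k,.k,
  (.r (-1) ⟨2,[(6,0),(4,1),(1,1),(32,0)]⟩ ⟨1,[(7,0),(0,1),(18,1),(0,0),(10,0),(4,0),(1,1)]⟩),.k,.k,
  .k,⟨false,(-1),⟨6,[(1,2),(2,0),(12,0),(8,0),(14,0),(2,4)]⟩,⟨5,[(6,3),(1,1),(18,1),(11,0),(6,4)]⟩⟩,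
  ⟨true,(-1),⟨7,[(1,1),(0,3),(4,3),(10,1),(20,0),(6,0)]⟩,⟨4,[(3,0),(16,0),(7,8),(4,1),(4,0),(6,
  0)]⟩⟩,⟨true,0,⟨1,[(8,1),(18,1),(11,0),(6,0)]⟩,⟨0,[(1,0),(7,0),(18,0),(8,1),(7,1)]⟩⟩,⟨false,1,⟨1,
  [(27,3),(11,0),(6,2)]⟩,⟨5,[(1,5),(1,3),(16,3),(7,7),(4,0),(4,3),(7,2)]⟩⟩,⟨false,0,⟨0,[]⟩,⟨0,[]⟩⟩,
  ⟨false,0,⟨0,[]⟩,⟨0,[]⟩⟩,[.e ⟨true,0,⟨0,[(48,0)]⟩,⟨0,[(37,0)]⟩⟩ ⟨true,0,⟨0,[(2,0)]⟩,⟨0,[(8,0),(5,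
  0),(27,0)]⟩⟩,.o ⟨false,1,⟨0,[(9,0),(36,0)]⟩,⟨3,[(1,0),(6,1),(5,0),(11,0),(6,0),(10,1),(0,0)]⟩⟩,.a
  ⟨true,0,⟨0,[(28,0)]⟩,⟨0,[(25,0)]⟩⟩ ⟨false,0,⟨0,[]⟩,⟨1,[(21,0),(0,0),(23,0)]⟩⟩ ⟨true,0,⟨0,[(2,0)]⟩,
  ⟨0,[(8,0),(5,0)]⟩⟩,.e ⟨false,1,⟨1,[(21,0),(0,0),(22,0)]⟩,⟨0,[(37,0)]⟩⟩ ⟨false,1,⟨1,[(2,1),(42,0),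
  (0,0)]⟩,⟨0,[(8,0),(5,0),(27,0)]⟩⟩]⟩) (.I [0,0,0,0,1,0,0,0,-1] (.I [1,0,0,0,0,3,0,0,1] (.I [0,1,1,
  -1,0,0,0,-1] (.I [1,0,-1,-1,0,-1,-2,-1] (.I [0,1,0,-1,0,-2,-1,-1] (.I [0,0,1,1,-1,-2,-1] (.I [5,0,
  0,0,-1,6] (.C [(0,0),(0,0),(0,1),(5,0),(1,2),(0,0),(32,3),(0,1),(0,0)]) (.C [(0,0),(44,1),(0,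
  0)])) (.C [(0,0),(5,0),(6,0)])) (.C [(0,0),(4,0),(8,0)])) (.C [(0,0),(3,1),(1,0),(35,0)])) (.C
  [(0,0),(11,0),(18,0)])) (.C [(0,0),(23,0),(0,0),(14,0)])) (.C [(0,0),(21,0),(2,0)])))) (.Q [0,0,0,
  0,0,2,0,0,0,0,-1] (.p false [0,0,1] [] (⟨0,[(29,0)]⟩,⟨0,[(28,0)]⟩) .k 0 (⟨0,[]⟩,⟨0,[]⟩) .k .k)
  (.R ⟨0,false,false,true,[0,-1,1],[1,-1,-1],[],(⟨0,[(19,0)]⟩,⟨17,[(0,8),(1,1),(14,2),(9,3),(1,6),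
  (1,3),(6,3)]⟩),(⟨0,[(18,0)]⟩,⟨139,[(5,5),(11,8),(7,5),(1,11),(2,139),(0,22),(5,38),(0,14),(4,11),
  (1,2)]⟩),⟨0,[(0,0)]⟩,.k,.k,(.r (-1) ⟨2,[(5,0),(4,1),(1,1),(32,0)]⟩ ⟨1,[(6,0),(0,1),(18,1),(0,0),
  (10,0),(4,0),(1,1)]⟩),.k,.k,.k,⟨false,0,⟨1,[(6,0),(3,0),(2,0),(29,1),(1,0)]⟩,⟨3,[(5,1),(1,1),(0,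
  1),(29,0),(5,0)]⟩⟩,⟨true,(-1),⟨5,[(6,7),(1,1),(1,1),(4,1),(8,1),(13,0),(5,1),(0,0)]⟩,⟨5,[(1,1),(3,
  1),(1,1),(19,5),(4,0),(12,0)]⟩⟩,⟨false,1,⟨1,[(7,1),(18,1),(11,0),(6,2)]⟩,⟨0,[(10,0)]⟩⟩,⟨true,0,⟨1,
  [(8,1),(17,1),(11,0),(4,1),(1,0)]⟩,⟨0,[(1,0),(8,0)]⟩⟩,⟨false,0,⟨0,[]⟩,⟨0,[]⟩⟩,⟨false,0,⟨0,[]⟩,⟨0,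
  []⟩⟩,[.o ⟨false,0,⟨0,[(8,0)]⟩,⟨6,[(1,4),(8,0),(3,0),(1,2),(15,0),(11,1),(0,3)]⟩⟩,.e ⟨false,1,⟨1,
  [(44,0),(0,0)]⟩,⟨0,[(47,0)]⟩⟩ ⟨false,1,⟨0,[(5,0),(0,0),(17,0)]⟩,⟨0,[(1,0)]⟩⟩,.a ⟨true,0,⟨0,[(27,
  0)]⟩,⟨0,[(24,0)]⟩⟩ ⟨false,1,⟨1,[(20,0),(0,0),(23,0)]⟩,⟨0,[]⟩⟩ ⟨true,0,⟨0,[(8,0),(15,0)]⟩,⟨0,[(1,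
  0)]⟩⟩,.o ⟨false,0,⟨0,[(1,0),(6,0),(32,0)]⟩,⟨1,[(24,1),(7,0),(11,0)]⟩⟩]⟩) (.I [0,0,-2,-2,2,0,0,-1]
  (.R ⟨1,true,false,true,[1,0,-1],[0,1],[0,0,0,0,0,0,0,-1],(⟨0,[(30,0)]⟩,⟨0,[(31,0)]⟩),(⟨0,[(35,
  0)]⟩,⟨0,[(34,0)]⟩),⟨0,[(19,0)]⟩,.k,.k,.k,.k,(.r (-2) ⟨0,[(0,0)]⟩ ⟨5,[(2,5),(1,1),(2,3),(10,3),(20,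
  0),(6,0)]⟩),.k,⟨true,2,⟨5,[(6,3),(1,1),(18,1),(11,0),(6,4)]⟩,⟨4,[(2,1),(1,1),(2,3),(2,2),(17,0),
  (0,0),(9,0)]⟩⟩,⟨false,2,⟨5,[(2,1),(3,1),(1,1),(24,0),(11,5),(0,0)]⟩,⟨27,[(7,21),(8,10),(1,2),(13,
  1),(1,1),(4,5),(7,5)]⟩⟩,⟨false,1,⟨1,[(21,0),(0,0),(23,0)]⟩,⟨0,[]⟩⟩,⟨true,0,⟨7,[(2,5),(4,1),(3,1),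
  (5,1),(15,0),(7,3),(3,0)]⟩,⟨1,[(9,1),(27,1),(1,0),(5,0)]⟩⟩,⟨true,0,⟨0,[(44,0)]⟩,⟨0,[(43,0)]⟩⟩,
  ⟨false,0,⟨0,[(2,0),(4,0),(37,0)]⟩,⟨15,[(6,1),(2,13),(6,6),(1,2),(9,3),(10,2),(6,14)]⟩⟩,[]⟩) (.I
  [0,0,0,0,1,0,0,0,-1] (.I [1,0,0,0,0,3,0,0,1] (.I [1,0,1,0,0,2,1] (.I [0,1,1,0,0,-1,1] (.I [0,1,1,
  -1,0,0,0,-1] (.I [0,1,0,-3] (.I [0,1,0,-1,0,-2,-1,-1] (.C [(0,2),(0,0),(5,2),(2,2),(33,3),(0,3),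
  (0,1),(5,1)]) (.C [(0,0),(7,0),(7,0)])) (.C [(0,0),(10,0),(3,0)])) (.C [(0,0),(13,0),(18,0)]))
  (.C [(0,0),(5,0),(6,0),(9,0)])) (.C [(0,0),(21,0),(8,0),(9,0)])) (.C [(0,0),(23,0),(0,0),(14,
  0)])) (.C [(0,0),(21,0),(2,0)]))))))

theorem ok21 : chk K t21 r19 = true := by decide +kernel


end Helper48.Y.Y11_c35_P3_m1n1_CC
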