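import Pool.Agent.Helper48.Y.Y11_c35_P3_m1n1_K2_q

set_option autoImplicit false
set_option linter.all false

namespace Helper48.Y.Y11_c35_P3_m1n1_K2

open Helper25.KG Helper25.KW Helper55.KE Helper11.CT

noncomputable def t0 : Tre :=
  (.R ⟨2,true,false,false,[0,1],[1,-1],[1,1,1],(⟨0,[]⟩,⟨0,[]⟩),(⟨0,[(18,0)]⟩,⟨0,[(19,0)]⟩),⟨0,[]⟩,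
  .k,.k,.k,(.r 1 ⟨1,[(0,1),(20,0),(1,1),(2,0),(7,1)]⟩ ⟨0,[(30,1),(1,0),(0,0)]⟩),.k,.k,⟨false,(-1),
  ⟨7,[(0,3),(10,0),(0,0),(8,5),(1,3),(2,1),(7,1)]⟩,⟨0,[(30,0),(1,0),(0,0)]⟩⟩,⟨true,(-1),⟨1,[(21,0),
  (1,1),(2,0),(7,1)]⟩,⟨1,[(27,0),(4,0)]⟩⟩,⟨true,0,⟨0,[(30,0)]⟩,⟨0,[(31,0)]⟩⟩,⟨false,1,⟨1,[(26,0),(3,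
  3),(2,2)]⟩,⟨0,[(0,0)]⟩⟩,⟨false,0,⟨0,[]⟩,⟨1,[(4,0),(0,0),(27,0)]⟩⟩,⟨true,0,⟨1,[(26,0),(3,1),(2,
  0)]⟩,⟨3,[(0,1),(20,0),(5,0),(7,1)]⟩⟩,[]⟩)

theorem ok0 : chk K t0 l0 = true := by decide +kernel

noncomputable def t1 : Tre :=
  (.I [1,0,0,0,0,0,0,-1] (.R ⟨2,true,false,false,[0,1],[0,0,1],[1,0,1],(⟨0,[]⟩,⟨0,[]⟩),(⟨0,[(16,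
  0)]⟩,⟨0,[(15,0)]⟩),⟨0,[]⟩,.k,.k,.k,.k,.k,.k,⟨false,0,⟨0,[(0,0)]⟩,⟨1,[(10,1),(0,1),(17,0),(5,0)]⟩⟩,
  ⟨true,0,⟨0,[(13,0)]⟩,⟨1,[(10,1),(12,0),(1,1),(3,0)]⟩⟩,⟨false,1,⟨3,[(2,1),(3,0),(0,0),(21,0),(5,
  1)]⟩,⟨0,[(33,0)]⟩⟩,⟨true,1,⟨3,[(2,1),(3,0),(0,0),(3,3),(17,0),(5,1)]⟩,⟨0,[(1,0)]⟩⟩,⟨true,0,⟨0,[]⟩,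
  ⟨0,[(37,0)]⟩⟩,⟨false,1,⟨0,[(11,0),(23,0)]⟩,⟨5,[(1,3),(0,1),(9,1),(16,0),(5,2)]⟩⟩,[]⟩) (.R ⟨2,true,
  false,false,[0,1],[0,0,1],[0,0,1,1],(⟨0,[]⟩,⟨0,[]⟩),(⟨0,[(16,0)]⟩,⟨0,[(15,0)]⟩),⟨0,[]⟩,.k,.k,.k,
  .k,.k,.k,⟨false,0,⟨1,[(1,1),(11,1),(20,0),(0,0)]⟩,⟨5,[(0,3),(1,2),(0,0),(7,1),(17,1),(4,2),(0,
  0)]⟩⟩,⟨true,0,⟨0,[(13,0)]⟩,⟨5,[(0,1),(0,1),(0,0),(0,0),(6,1),(14,1),(3,1)]⟩⟩,⟨false,1,⟨1,[(6,0),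
  (0,0),(27,0)]⟩,⟨0,[]⟩⟩,⟨true,1,⟨3,[(2,1),(3,0),(0,0),(3,3),(17,0),(5,1)]⟩,⟨0,[(1,0)]⟩⟩,⟨true,0,⟨0,
  [(33,0)]⟩,⟨0,[(32,0)]⟩⟩,⟨false,1,⟨0,[(11,0),(23,0)]⟩,⟨5,[(1,3),(0,1),(9,1),(16,0),(5,2)]⟩⟩,[]⟩))

theorem ok1 : chk K t1 l1 = true := by decide +kernel

noncomputable def t2 : Tre :=
  (.I [0,0,0,1,0,0,0,-1] (.R ⟨1,true,false,true,[0,0,1],[0,1],[0,1,0,0,0,0,0,1],(⟨0,[(17,0)]⟩,⟨0,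
  [(16,0)]⟩),(⟨0,[(22,0)]⟩,⟨0,[(21,0)]⟩),⟨0,[(6,0)]⟩,.k,.k,.k,.k,(.r (-2) ⟨3,[(2,3),(0,1),(7,3),(11,
  1),(6,2),(4,0)]⟩ ⟨0,[(1,0),(12,0),(11,0)]⟩),.k,⟨true,1,⟨1,[(2,1),(8,1),(12,0),(5,0)]⟩,⟨0,[(0,0),
  (23,0),(1,1)]⟩⟩,⟨false,1,⟨1,[(11,1),(18,0),(4,0)]⟩,⟨0,[(14,0)]⟩⟩,⟨true,0,⟨0,[(38,0)]⟩,⟨0,[]⟩⟩,
  ⟨false,0,⟨1,[(1,0),(11,0),(22,0)]⟩,⟨0,[(2,0)]⟩⟩,⟨false,0,⟨0,[(34,0)]⟩,⟨5,[(2,1),(0,1),(9,1),(16,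
  0),(5,2)]⟩⟩,⟨true,(-1),⟨0,[(1,0)]⟩,⟨0,[(2,0),(30,0)]⟩⟩,[]⟩) (.R ⟨1,true,false,true,[0,0,1],[0,1],
  [1,1,0,-1,0,0,0,1],(⟨0,[(17,0)]⟩,⟨0,[(16,0)]⟩),(⟨0,[(22,0)]⟩,⟨0,[(21,0)]⟩),⟨0,[(6,0)]⟩,.k,.k,.k,
  .k,(.r (-2) ⟨15,[(0,3),(1,11),(0,7),(0,5),(18,5),(6,6),(4,12)]⟩ ⟨0,[(1,0),(12,0),(11,0)]⟩),.k,
  ⟨true,1,⟨15,[(0,11),(1,3),(0,7),(0,1),(18,1),(6,4),(4,6)]⟩,⟨0,[(1,0),(12,0),(11,0)]⟩⟩,⟨false,1,⟨1,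
  [(11,1),(18,0),(4,0)]⟩,⟨0,[(14,0)]⟩⟩,⟨true,0,⟨0,[(33,0)]⟩,⟨0,[(34,0)]⟩⟩,⟨false,0,⟨1,[(1,0),(11,0),
  (22,0)]⟩,⟨0,[(2,0)]⟩⟩,⟨false,0,⟨0,[]⟩,⟨1,[(7,0),(0,0),(27,0)]⟩⟩,⟨true,(-1),⟨0,[(1,0)]⟩,⟨0,[(2,0),
  (30,0)]⟩⟩,[]⟩))

theorem ok2 : chk K t2 l2 = true := by decide +kernel

noncomputable def t3 : Tre :=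
  (.R ⟨1,true,false,false,[1,-1],[0,1],[0,1,-1,-1],(⟨0,[(21,0)]⟩,⟨0,[(22,0)]⟩),(⟨0,[(22,0)]⟩,⟨0,
  [(21,0)]⟩),⟨0,[(5,0),(0,0)]⟩,.k,.k,(.r (-2) ⟨0,[(1,0),(11,0),(21,0)]⟩ ⟨2,[(0,1),(6,0),(0,0)]⟩),
  (.r (-2) ⟨0,[(1,0),(11,0),(21,0)]⟩ ⟨2,[(0,1),(6,0),(0,0)]⟩),(.r (-3) ⟨1,[(1,2),(11,2),(21,2)]⟩ ⟨0,
  [(0,0)]⟩),.k,⟨true,1,⟨1,[(3,1),(20,0),(5,0),(4,1)]⟩,⟨2,[(0,1),(13,0),(0,0),(10,0),(9,0)]⟩⟩,⟨false,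
  2,⟨1,[(30,0),(4,2)]⟩,⟨3,[(0,1),(2,2),(0,0),(9,1)]⟩⟩,⟨true,0,⟨0,[(38,0)]⟩,⟨0,[]⟩⟩,⟨false,1,⟨1,[(18,
  3),(11,0),(5,0)]⟩,⟨0,[(3,0)]⟩⟩,⟨false,0,⟨0,[(34,0)]⟩,⟨1,[(1,0),(11,0),(22,0)]⟩⟩,⟨true,0,⟨1,[(0,1),
  (29,0),(4,2)]⟩,⟨0,[(3,0),(29,0)]⟩⟩,[]⟩)

theorem ok3 : chk K t3 l3 = true := by decide +kernel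

noncomputable def t4 : Tre :=
  (.I [1,0,2,1,-1,0,0,-1] (.R ⟨1,true,false,false,[0,0,1],[0,1],[0,0,0,0,0,0,0,1],(⟨0,[(19,0)]⟩,⟨0,
  [(18,0)]⟩),(⟨0,[(24,0)]⟩,⟨0,[(23,0)]⟩),⟨0,[(8,0)]⟩,.k,.k,.k,.k,(.r (-2) ⟨3,[(2,1),(1,1),(1,1),(7,
  1),(17,0),(4,0)]⟩ ⟨0,[(0,0),(19,0)]⟩),.k,⟨true,1,⟨1,[(3,0),(9,1),(0,0),(17,0)]⟩,⟨0,[(0,0)]⟩⟩,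
  ⟨false,1,⟨1,[(13,1),(18,0),(4,0)]⟩,⟨0,[(16,0)]⟩⟩,⟨false,1,⟨1,[(9,0),(0,0),(27,0)]⟩,⟨0,[]⟩⟩,⟨true,
  0,⟨1,[(1,0),(13,0)]⟩,⟨2,[(3,1),(10,0),(5,0),(5,1)]⟩⟩,⟨true,0,⟨0,[(36,0)]⟩,⟨0,[(35,0)]⟩⟩,⟨false,0,
  ⟨0,[(1,0)]⟩,⟨0,[(3,0),(36,0)]⟩⟩,[]⟩) (.R ⟨1,false,false,false,[0,0,1],[0,1],[],(⟨0,[(19,0)]⟩,⟨0,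
  [(18,0)]⟩),(⟨0,[(24,0)]⟩,⟨0,[(23,0)]⟩),⟨0,[(8,0)]⟩,.k,.k,.k,.k,(.x 0 ⟨5,[(16,6),(0,0),(0,5),(7,0),
  (1,1),(1,3),(1,0),(6,1)]⟩ ⟨1,[(0,1),(0,1),(3,0),(1,0),(0,2),(17,0),(5,0)]⟩),.k,⟨true,1,⟨2,[(2,0),
  (6,0),(0,0)]⟩,⟨0,[(20,0),(5,0),(1,1)]⟩⟩,⟨false,1,⟨1,[(0,1),(0,0),(13,0)]⟩,⟨0,[(16,0)]⟩⟩,⟨false,1,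
  ⟨5,[(1,4),(0,1),(2,1),(9,0),(0,5),(15,0),(5,0)]⟩,⟨0,[(0,0),(19,0),(5,0),(1,1)]⟩⟩,⟨true,0,⟨1,[(1,
  0),(13,0)]⟩,⟨2,[(3,1),(10,0),(5,0),(5,1)]⟩⟩,⟨false,1,⟨1,[(1,0),(13,0),(0,1),(20,0),(0,0)]⟩,⟨0,[(0,
  0),(25,0),(1,1)]⟩⟩,⟨false,0,⟨0,[(1,0)]⟩,⟨0,[(3,0),(36,0)]⟩⟩,[.e ⟨false,1,⟨1,[(9,0),(0,0),(26,0)]⟩,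
  ⟨0,[]⟩⟩ ⟨false,0,⟨0,[(0,0),(0,0),(24,0),(1,0)]⟩,⟨2,[(2,0),(6,0),(0,0),(5,2)]⟩⟩,.o ⟨false,1,⟨1,
  [(20,1),(11,0),(5,0)]⟩,⟨0,[(35,0)]⟩⟩,.o ⟨false,1,⟨1,[(16,1),(15,0),(4,0)]⟩,⟨1,[(13,1),(12,0),(1,
  1),(3,0)]⟩⟩,.a ⟨true,0,⟨0,[(16,0)]⟩,⟨0,[(13,0)]⟩⟩ ⟨false,1,⟨1,[(37,0),(0,0)]⟩,⟨1,[(16,0),(0,0)]⟩⟩
  ⟨true,0,⟨0,[(0,0),(0,0),(24,0),(1,0)]⟩,⟨0,[(16,0),(18,0)]⟩⟩]⟩))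

theorem ok4 : chk K t4 l4 = true := by decide +kernel

noncomputable def t5 : Tre :=
  (.Q [0,0,0,0,0,0,-1,-1,0,1,-1] (.p false [0,0,1] [1] (⟨0,[(20,0)]⟩,⟨0,[(19,0)]⟩) .k 1 (⟨0,[]⟩,⟨0,
  []⟩) .k .k) (.R ⟨2,true,false,false,[0,1],[1,0,-1],[1,1,1],(⟨0,[]⟩,⟨0,[]⟩),(⟨0,[(20,0)]⟩,⟨0,[(21,
  0)]⟩),⟨0,[]⟩,.k,.k,.k,.k,.k,.k,⟨false,(-1),⟨0,[(2,0),(25,0),(1,0)]⟩,⟨0,[(17,0),(0,0),(20,0),(0,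
  0)]⟩⟩,⟨true,(-1),⟨0,[(0,0),(1,0),(25,0),(1,1)]⟩,⟨1,[(18,1),(15,0),(4,0)]⟩⟩,⟨true,0,⟨0,[(37,0)]⟩,
  ⟨0,[(38,0)]⟩⟩,⟨false,1,⟨1,[(0,1),(4,0),(11,0),(22,0)]⟩,⟨0,[(1,0)]⟩⟩,⟨false,0,⟨0,[]⟩,⟨1,[(11,0),(0,
  0),(27,0)]⟩⟩,⟨true,0,⟨0,[(0,0)]⟩,⟨3,[(1,1),(1,0),(12,0),(11,0),(5,0)]⟩⟩,[]⟩) (.R ⟨2,true,false,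
  true,[0,1],[1,1,-1],[0,0,1,1],(⟨0,[]⟩,⟨0,[]⟩),(⟨22,[(11,2),(0,2),(7,22),(2,4),(8,5),(0,2)]⟩,⟨0,
  [(10,0)]⟩),⟨0,[]⟩,.k,.k,.k,.k,.k,.k,⟨true,0,⟨0,[(2,0),(27,0)]⟩,⟨0,[(17,0),(0,0)]⟩⟩,⟨false,0,⟨0,
  [(15,0)]⟩,⟨1,[(18,1),(15,0),(4,0)]⟩⟩,⟨false,1,⟨1,[(11,0),(0,0),(27,0)]⟩,⟨0,[]⟩⟩,⟨true,0,⟨2,[(11,
  0),(0,0),(4,2),(5,0),(1,0),(7,0)]⟩,⟨0,[(0,0)]⟩⟩,⟨true,0,⟨0,[(38,0)]⟩,⟨0,[(37,0)]⟩⟩,⟨false,0,⟨1,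
  [(17,1),(4,1),(10,0),(6,0)]⟩,⟨3,[(0,1),(4,1),(28,0),(5,0)]⟩⟩,[]⟩))

theorem ok5 : chk K t5 l6 = true := by decide +kernel

noncomputable def t6 : Tre :=
  (.I [0,0,2,0,-2,2,-1] (.R ⟨0,false,false,true,[1,-1,-1],[1,-1],[],(⟨0,[(11,0)]⟩,⟨22,[(13,2),(0,2),
  (8,22),(1,4),(8,5),(0,2)]⟩),(⟨0,[(27,0)]⟩,⟨0,[(28,0)]⟩),⟨7,[(0,1),(11,5),(7,1),(13,5),(1,0),(4,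
  2)]⟩,.k,.k,(.x 2 ⟨0,[(0,0)]⟩ ⟨1,[(11,1),(1,0),(0,0),(5,1),(6,1),(8,1),(4,2)]⟩),.k,.k,.k,⟨true,0,
  ⟨0,[(24,0),(7,0)]⟩,⟨0,[(39,0)]⟩⟩,⟨false,1,⟨0,[(20,0),(20,0)]⟩,⟨6,[(1,2),(4,0),(3,1),(25,0)]⟩⟩,
  ⟨true,(-1),⟨0,[(1,0),(2,0),(15,0)]⟩,⟨1,[(3,1),(16,1),(9,0),(5,0),(4,1)]⟩⟩,⟨false,0,⟨0,[(4,0),(15,
  0)]⟩,⟨0,[(19,0),(22,0)]⟩⟩,⟨false,0,⟨0,[]⟩,⟨0,[]⟩⟩,⟨false,0,⟨0,[]⟩,⟨0,[]⟩⟩,[.o ⟨false,0,⟨0,[(39,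
  0)]⟩,⟨1,[(24,1),(11,0),(5,0)]⟩⟩,.e ⟨false,1,⟨1,[(41,0),(0,0)]⟩,⟨0,[(44,0)]⟩⟩ ⟨false,2,⟨2,[(6,0),
  (6,0),(0,0),(5,2),(20,2)]⟩,⟨0,[(1,0)]⟩⟩,.a ⟨true,(-1),⟨5,[(0,1),(0,1),(7,0),(0,0),(0,1),(15,1)]⟩,
  ⟨0,[(20,0),(20,0)]⟩⟩ ⟨false,1,⟨1,[(13,0),(0,0),(27,0)]⟩,⟨0,[]⟩⟩ ⟨true,1,⟨11,[(6,3),(6,0),(0,0),(5,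
  11),(8,5),(11,2)]⟩,⟨0,[(1,0)]⟩⟩,.o ⟨false,(-1),⟨0,[(1,0),(30,0),(6,0)]⟩,⟨1,[(20,1),(15,0),(4,
  2)]⟩⟩]⟩) (.Q [0,0,-1,-1,0,0,-2,-1,0,1,-2] (.p false [0,0,1] [1,0,-1] (⟨0,[(23,0)]⟩,⟨0,[(22,0)]⟩)
  .k 2 (⟨0,[(22,0)]⟩,⟨0,[(23,0)]⟩) .k (.r 1 ⟨0,[(1,0),(0,0),(1,0),(15,0)]⟩ ⟨0,[(19,1),(0,1),(20,0),
  (0,0)]⟩)) (.Q [0,0,0,0,0,0,-2,-2,0,1,-2] (.p false [0,0,1] [1,0,-1] (⟨0,[(24,0)]⟩,⟨0,[(23,0)]⟩)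
  .k 2 (⟨0,[(23,0)]⟩,⟨0,[(24,0)]⟩) .k (.r 1 ⟨0,[(2,0),(0,0),(1,0),(15,0)]⟩ ⟨0,[(20,1),(0,1),(20,0),
  (0,0)]⟩)) (.Q [0,0,0,2,0,0,-1,-1,0,0,-1] (.p false [0,0,1] [] (⟨0,[(25,0)]⟩,⟨0,[(24,0)]⟩) .k 0
  (⟨0,[]⟩,⟨0,[]⟩) .k .k) (.R ⟨1,true,false,false,[0,0,1],[0,1],[1,1,0,-1,0,0,0,1],(⟨0,[(26,0)]⟩,⟨0,
  [(25,0)]⟩),(⟨0,[(31,0)]⟩,⟨0,[(30,0)]⟩),⟨0,[(15,0)]⟩,.k,.k,.k,.k,(.r (-1) ⟨16,[(5,4),(1,7),(0,1),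
  (0,6),(0,1),(2,1),(25,0)]⟩ ⟨1,[(0,1),(22,2),(0,0)]⟩),.k,⟨true,0,⟨21,[(2,4),(2,14),(2,11),(4,0),
  (18,1),(0,2),(5,2)]⟩,⟨0,[(0,0),(22,0),(11,0)]⟩⟩,⟨false,1,⟨21,[(0,1),(1,3),(4,5),(5,5),(25,4),(4,
  16)]⟩,⟨0,[(23,0)]⟩⟩,⟨true,0,⟨0,[(42,0)]⟩,⟨0,[(43,0)]⟩⟩,⟨false,1,⟨7,[(0,3),(0,1),(14,2),(0,2),(21,
  0),(5,3)]⟩,⟨0,[(5,0),(17,0)]⟩⟩,⟨false,0,⟨0,[]⟩,⟨1,[(16,0),(0,0),(27,0)]⟩⟩,⟨true,0,⟨0,[(0,0)]⟩,⟨0,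
  [(8,0)]⟩⟩,[]⟩) (.Q [0,0,0,0,0,2,0,0,0,-1,1] (.p true [0,0,1] [1] (⟨0,[(26,0)]⟩,⟨0,[(25,0)]⟩) .k 1
  (⟨0,[]⟩,⟨0,[]⟩) .k .k) (.R ⟨0,false,false,true,[1,-1,-1],[1,-1],[],(⟨0,[(15,0)]⟩,⟨4,[(0,1),(16,0),
  (0,0),(8,2),(1,0),(9,0)]⟩),(⟨0,[(31,0)]⟩,⟨0,[(32,0)]⟩),⟨0,[(0,0)]⟩,.k,.k,(.r (-2) ⟨0,[(0,0),(0,0),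
  (0,0),(1,0)]⟩ ⟨0,[(5,0),(16,0),(5,0),(7,0)]⟩),.k,.k,.k,⟨true,0,⟨0,[(28,0),(7,0)]⟩,⟨0,[(43,0)]⟩⟩,
  ⟨false,1,⟨5,[(0,1),(3,1),(19,3),(14,0),(5,2)]⟩,⟨9,[(3,0),(1,1),(0,0),(7,2),(25,1)]⟩⟩,⟨true,(-1),
  ⟨0,[(5,0),(2,0),(15,0)]⟩,⟨2,[(0,0),(1,0),(1,0),(5,0),(12,0),(0,1),(9,0)]⟩⟩,⟨false,0,⟨0,[(8,0),(15,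
  0)]⟩,⟨3,[(2,1),(14,0),(0,0),(21,0),(5,1)]⟩⟩,⟨false,0,⟨0,[]⟩,⟨0,[]⟩⟩,⟨false,0,⟨0,[]⟩,⟨0,[]⟩⟩,[.o
  ⟨false,0,⟨0,[(43,0)]⟩,⟨1,[(28,1),(11,0),(5,0)]⟩⟩,.e ⟨false,1,⟨1,[(45,0),(0,0)]⟩,⟨0,[(48,0)]⟩⟩
  ⟨false,2,⟨5,[(0,1),(3,1),(5,1),(6,1),(0,1),(5,3),(14,0),(5,2)]⟩,⟨0,[(5,0)]⟩⟩,.a ⟨true,(-1),⟨27,
  [(5,21),(7,10),(0,2),(14,1),(1,1),(7,5),(7,5)]⟩,⟨5,[(0,1),(3,1),(19,3),(14,0),(5,2)]⟩⟩ ⟨false,1,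
  ⟨1,[(17,0),(0,0),(27,0)]⟩,⟨0,[]⟩⟩ ⟨true,1,⟨11,[(0,1),(3,1),(5,3),(6,0),(0,0),(5,9),(8,5),(5,0)]⟩,
  ⟨0,[(5,0)]⟩⟩,.o ⟨false,(-1),⟨0,[(5,0),(30,0),(6,0)]⟩,⟨0,[(0,0),(3,0)]⟩⟩]⟩) (.Q [0,0,0,1,0,0,2,2,0,
  -1,2] (.p true [0,0,1] [1,0,-1] (⟨0,[(27,0)]⟩,⟨0,[(26,0)]⟩) .k 2 (⟨0,[(26,0)]⟩,⟨0,[(27,0)]⟩) .k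
  (.r 1 ⟨1,[(1,0),(3,1),(2,2),(15,0)]⟩ ⟨20,[(2,20),(1,13),(12,7),(0,7),(5,27),(2,13),(1,0),(8,8),(1,
  5)]⟩)) (.R ⟨1,true,false,false,[1,0,-1],[0,0,1],[0,1,0,0,0,0,0,-1],(⟨0,[(27,0)]⟩,⟨0,[(28,0)]⟩),
  (⟨0,[(28,0)]⟩,⟨0,[(27,0)]⟩),⟨0,[(16,0)]⟩,.k,.k,.k,.k,(.x 1 ⟨145,[(2,38),(1,55),(1,150),(0,16),(18,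
  67),(1,291),(1,7),(8,45),(1,4)]⟩ ⟨3,[(1,5),(3,1),(19,5),(13,3),(1,0),(4,2)]⟩),.k,⟨true,1,⟨5,[(3,
  5),(1,1),(11,1),(7,9),(9,2),(3,1),(1,1),(4,2)]⟩,⟨4,[(0,1),(5,5),(0,3),(4,1),(24,2),(2,0)]⟩⟩,
  ⟨false,2,⟨5,[(5,3),(11,3),(7,7),(13,3),(1,0),(4,2)]⟩,⟨21,[(4,8),(1,17),(0,8),(7,3),(14,0),(1,0),
  (7,3)]⟩⟩,⟨true,0,⟨0,[(49,0)]⟩,⟨0,[]⟩⟩,⟨false,1,⟨5,[(0,3),(12,3),(27,0),(5,0)]⟩,⟨0,[(3,0)]⟩⟩,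
  ⟨false,0,⟨0,[(45,0)]⟩,⟨7,[(3,1),(8,3),(5,0),(0,0),(21,0),(5,1)]⟩⟩,⟨true,0,⟨0,[(0,0)]⟩,⟨1,[(3,0),
  (10,0),(9,1)]⟩⟩,[]⟩) (.Q [1,-1,0,-1,0,0,0,0,1,0,0,1] (.p true [0,0,0,0,1] [] (⟨0,[(21,0)]⟩,⟨0,
  [(20,0)]⟩) .k 0 (⟨0,[]⟩,⟨0,[]⟩) .k .k) (.Q [0,0,0,0,0,1,0,0,0,0,0,-1] (.ed true [1,-1,0,0,1] .k)
  (.Q [0,0,1,-1,-1,0,0,0,1,0,0,1] (.p true [0,0,0,0,1] [] (⟨0,[(23,0)]⟩,⟨0,[(22,0)]⟩) .k 0 (⟨0,[]⟩,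
  ⟨0,[]⟩) .k .k) (.R ⟨0,false,false,false,[0,0,0,0,1],[0,1],[],(⟨0,[(24,0)]⟩,⟨0,[(23,0)]⟩),(⟨0,[(36,
  0)]⟩,⟨0,[(35,0)]⟩),⟨0,[(1,0)]⟩,.k,.k,(.r (-1) ⟨2,[(14,0),(6,0),(0,0)]⟩ ⟨1,[(28,0),(0,0),(2,1)]⟩),
  (.r (-1) ⟨2,[(14,0),(6,0),(0,0)]⟩ ⟨1,[(28,0),(0,0),(2,1)]⟩),.k,.k,⟨true,1,⟨2,[(14,0),(6,0),(0,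
  0)]⟩,⟨0,[(9,0),(18,0)]⟩⟩,⟨false,2,⟨0,[(21,0),(27,0)]⟩,⟨0,[(0,0),(31,0)]⟩⟩,⟨false,1,⟨4,[(21,1),(0,
  1),(27,2),(1,0)]⟩,⟨0,[]⟩⟩,⟨true,1,⟨0,[(21,0),(10,0)]⟩,⟨3,[(0,1),(1,1),(35,2),(10,0)]⟩⟩,⟨false,0,
  ⟨0,[]⟩,⟨0,[]⟩⟩,⟨false,0,⟨0,[]⟩,⟨0,[]⟩⟩,[.a ⟨true,0,⟨0,[(48,0)]⟩,⟨27,[(6,2),(9,5),(0,10),(15,1),(1,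
  1),(7,5),(8,5)]⟩⟩ ⟨false,1,⟨1,[(21,0),(0,0),(26,0)]⟩,⟨0,[]⟩⟩ ⟨true,1,⟨0,[(21,0),(10,0)]⟩,⟨0,[(0,
  0)]⟩⟩,.o ⟨false,1,⟨1,[(32,1),(11,0),(5,0)]⟩,⟨0,[(47,0)]⟩⟩,.o ⟨false,0,⟨1,[(2,1),(29,1),(5,0),(5,
  0)]⟩,⟨0,[(21,0)]⟩⟩,.e ⟨false,1,⟨1,[(49,0),(0,0)]⟩,⟨1,[(28,0),(0,0)]⟩⟩ ⟨false,2,⟨1,[(21,1),(10,1),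
  (16,0),(0,0)]⟩,⟨0,[(0,0)]⟩⟩]⟩) (.R ⟨1,true,false,true,[1,-1],[1,0,0,0,-1],[0,1,-1,-1],(⟨0,[(35,
  0)]⟩,⟨0,[(36,0)]⟩),(⟨0,[(23,0)]⟩,⟨0,[(24,0)]⟩),⟨1,[(4,0),(15,0),(14,0)]⟩,.k,.k,(.r (-2) ⟨2,[(14,
  1),(6,1),(0,1)]⟩ ⟨0,[(9,0),(18,0),(3,0)]⟩),(.r (-1) ⟨2,[(14,0),(6,0),(0,0)]⟩ ⟨1,[(28,0),(0,0),(2,
  1)]⟩),(.r (-2) ⟨2,[(14,1),(6,1),(0,1)]⟩ ⟨0,[(9,0),(18,0),(3,0)]⟩),.k,⟨true,1,⟨2,[(14,0),(6,0),(0,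
  0)]⟩,⟨0,[(9,0),(18,0)]⟩⟩,⟨false,2,⟨2,[(0,2),(13,0),(6,0),(0,0)]⟩,⟨0,[(2,0),(29,0),(5,0),(1,0)]⟩⟩,
  ⟨true,0,⟨0,[(52,0)]⟩,⟨0,[]⟩⟩,⟨false,1,⟨0,[(21,0),(10,0)]⟩,⟨0,[(2,0)]⟩⟩,⟨false,0,⟨0,[(48,0)]⟩,⟨7,
  [(6,1),(8,3),(5,0),(0,0),(21,0),(5,1)]⟩⟩,⟨true,0,⟨0,[(0,0),(31,0),(5,0),(1,0)]⟩,⟨0,[(2,0),(44,
  0)]⟩⟩,[]⟩)) (.Q [1,1,0,-2,-1,0,0,0,1,0,0,1] (.p true [0,0,0,0,1] [] (⟨0,[(23,0)]⟩,⟨0,[(22,0)]⟩)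
  .k 0 (⟨0,[]⟩,⟨0,[]⟩) .k .k) (.R ⟨1,false,false,false,[0,0,0,0,1],[0,1],[],(⟨0,[(24,0)]⟩,⟨0,[(23,
  0)]⟩),(⟨0,[(36,0)]⟩,⟨0,[(35,0)]⟩),⟨0,[(1,0)]⟩,.k,.k,(.r (-1) ⟨2,[(14,0),(6,0),(0,0)]⟩ ⟨1,[(28,0),
  (0,0),(2,1)]⟩),(.r (-1) ⟨2,[(14,0),(6,0),(0,0)]⟩ ⟨1,[(28,0),(0,0),(2,1)]⟩),(.r (-2) ⟨2,[(14,1),(6,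
  1),(0,1)]⟩ ⟨0,[(9,0),(18,0),(3,0)]⟩),.k,⟨true,1,⟨2,[(14,0),(6,0),(0,0)]⟩,⟨0,[(9,0),(18,0)]⟩⟩,
  ⟨false,2,⟨0,[(21,0),(27,0)]⟩,⟨1,[(0,0),(1,0),(6,0),(18,0),(3,1)]⟩⟩,⟨false,1,⟨4,[(21,1),(0,1),(27,
  2),(1,0)]⟩,⟨0,[]⟩⟩,⟨true,1,⟨0,[(21,0),(10,0)]⟩,⟨0,[(0,0),(31,0)]⟩⟩,⟨true,0,⟨0,[(32,0)]⟩,⟨0,[(47,
  0)]⟩⟩,⟨true,1,⟨0,[(21,0),(10,1)]⟩,⟨0,[(0,0)]⟩⟩,[.a ⟨true,0,⟨0,[(48,0)]⟩,⟨27,[(6,2),(9,5),(0,10),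
  (15,1),(1,1),(7,5),(8,5)]⟩⟩ ⟨false,1,⟨1,[(21,0),(0,0),(26,0)]⟩,⟨0,[]⟩⟩ ⟨true,1,⟨0,[(21,0),(10,
  0)]⟩,⟨3,[(0,2),(1,0),(6,0),(18,0),(3,1),(7,1)]⟩⟩,.o ⟨false,1,⟨1,[(32,1),(11,0),(5,0)]⟩,⟨0,[(47,
  0)]⟩⟩,.o ⟨false,0,⟨1,[(0,0),(1,0),(29,2),(11,0)]⟩,⟨0,[(21,0)]⟩⟩,.e ⟨false,1,⟨1,[(49,0),(0,0)]⟩,⟨1,
  [(28,0),(0,0)]⟩⟩ ⟨false,2,⟨1,[(21,1),(10,1),(16,0),(0,0)]⟩,⟨3,[(0,2),(1,0),(6,0),(18,0),(3,1),(7,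
  1)]⟩⟩]⟩) (.S ⟨1,0,[1,1],[0,0,0,0,1],[1,1,1],(⟨0,[(24,0)]⟩,⟨0,[(23,0)]⟩),⟨0,[(1,0)]⟩,.k,(.r (-1)
  ⟨2,[(14,0),(6,0),(0,0)]⟩ ⟨1,[(28,0),(0,0),(2,1)]⟩),⟨false,0,⟨1,[(28,0),(0,0)]⟩,⟨1,[(49,0),(0,
  0)]⟩⟩,⟨true,0,⟨0,[(52,0)]⟩,⟨0,[]⟩⟩,⟨true,(-1),⟨1,[(9,0),(18,0),(3,0),(5,0)]⟩,⟨2,[(14,0),(6,0),(0,
  0)]⟩⟩,⟨false,0,⟨0,[(48,0)]⟩,⟨7,[(6,1),(8,3),(5,0),(0,0),(21,0),(5,1)]⟩⟩,[.e ⟨false,0,⟨0,[(52,0)]⟩,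
  ⟨1,[(49,0),(0,0)]⟩⟩ ⟨false,0,⟨0,[(41,0)]⟩,⟨1,[(21,0),(0,0),(27,0)]⟩⟩,.o ⟨false,0,⟨1,[(2,1),(29,1),
  (5,0),(5,0)]⟩,⟨63,[(0,9),(2,3),(0,5),(0,7),(14,5),(0,53),(11,17),(4,4),(5,4)]⟩⟩,.o ⟨false,0,⟨1,
  [(2,1),(29,1),(5,0),(5,0)]⟩,⟨0,[(21,0)]⟩⟩,.a ⟨true,(-1),⟨0,[(2,0),(29,0),(5,0),(1,0)]⟩,⟨27,[(0,
  25),(13,7),(2,13),(3,1),(15,3),(0,8),(4,6)]⟩⟩ ⟨false,0,⟨0,[]⟩,⟨1,[(21,0),(0,0),(27,0)]⟩⟩ ⟨true,0,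
  ⟨0,[(41,0)]⟩,⟨1,[(28,0),(0,0)]⟩⟩]⟩))) (.Q [0,0,0,0,0,-1,0,0,0,0,0,1] (.ed false [1,-1,0,0,1] .k)
  (.Q [-1,0,0,-1,0,0,0,0,-1,1,0,-1] (.p false [0,0,0,0,1] [1] (⟨0,[(23,0)]⟩,⟨0,[(22,0)]⟩) .k 1 (⟨0,
  []⟩,⟨0,[]⟩) .k .k) (.S ⟨1,0,[1,1],[0,0,0,0,1],[],(⟨0,[(24,0)]⟩,⟨0,[(23,0)]⟩),⟨0,[(1,0)]⟩,.k,(.r
  (-1) ⟨2,[(14,0),(6,0),(0,0)]⟩ ⟨1,[(28,0),(0,0),(2,1)]⟩),⟨false,1,⟨4,[(21,1),(0,1),(27,2),(1,0)]⟩,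
  ⟨0,[]⟩⟩,⟨true,0,⟨0,[(52,0)]⟩,⟨0,[]⟩⟩,⟨true,0,⟨0,[(32,0)]⟩,⟨0,[(47,0)]⟩⟩,⟨false,0,⟨0,[(48,0)]⟩,⟨7,
  [(6,1),(8,3),(5,0),(0,0),(21,0),(5,1)]⟩⟩,[.o ⟨false,0,⟨1,[(22,1),(15,0),(5,0)]⟩,⟨3,[(0,1),(1,1),
  (31,0),(15,2)]⟩⟩,.a ⟨true,0,⟨0,[(22,0)]⟩,⟨4,[(0,2),(1,1),(29,0),(10,0),(6,0)]⟩⟩ ⟨false,1,⟨1,[(49,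
  0),(0,0)]⟩,⟨0,[(52,0)]⟩⟩ ⟨true,0,⟨0,[]⟩,⟨1,[(28,0),(0,0)]⟩⟩,.e ⟨false,1,⟨1,[(21,0),(0,0),(27,0)]⟩,
  ⟨0,[]⟩⟩ ⟨false,0,⟨0,[]⟩,⟨1,[(21,0),(0,0),(27,0)]⟩⟩,.o ⟨false,0,⟨1,[(22,1),(15,0),(1,1),(3,0)]⟩,⟨3,
  [(0,1),(1,1),(31,0),(14,1),(0,0)]⟩⟩]⟩) (.Q [-1,-1,0,0,1,0,0,0,-1,0,0,-1] (.p false [0,0,0,0,1] []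
  (⟨0,[(24,0)]⟩,⟨0,[(23,0)]⟩) .k 0 (⟨0,[]⟩,⟨0,[]⟩) .k .k) (.Q [0,0,0,0,0,0,0,0,-1,1,0,-1] (.p false
  [0,0,0,0,1] [1] (⟨0,[(25,0)]⟩,⟨0,[(24,0)]⟩) .k 1 (⟨0,[]⟩,⟨0,[]⟩) .k .k) (.R ⟨1,false,false,true,
  [0,0,0,0,1],[0,1],[1,1,1],(⟨0,[(26,0)]⟩,⟨0,[(25,0)]⟩),(⟨0,[(38,0)]⟩,⟨0,[(37,0)]⟩),⟨0,[(3,0)]⟩,.k,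
  .k,(.r (-1) ⟨2,[(16,0),(6,0),(0,0)]⟩ ⟨1,[(30,0),(0,0),(2,1)]⟩),(.r (-1) ⟨2,[(16,0),(6,0),(0,0)]⟩
  ⟨1,[(30,0),(0,0),(2,1)]⟩),(.r (-2) ⟨2,[(16,1),(6,1),(0,1)]⟩ ⟨0,[(11,0),(18,0),(3,0)]⟩),.k,⟨false,
  1,⟨2,[(16,0),(6,0),(0,0)]⟩,⟨0,[(50,0)]⟩⟩,⟨true,1,⟨1,[(0,1),(35,0),(14,0)]⟩,⟨30,[(2,8),(2,7),(0,0),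
  (0,15),(3,30),(10,0),(1,21),(5,30),(4,2)]⟩⟩,⟨false,0,⟨1,[(30,0),(0,0)]⟩,⟨1,[(51,0),(0,0)]⟩⟩,⟨true,
  0,⟨0,[(4,0)]⟩,⟨3,[(2,0),(2,0),(1,1),(16,2)]⟩⟩,⟨true,(-1),⟨1,[(11,0),(18,0),(3,0),(5,0)]⟩,⟨2,[(16,
  0),(6,0),(0,0)]⟩⟩,⟨true,0,⟨0,[(4,0),(29,0)]⟩,⟨1,[(2,0),(2,0),(1,1),(16,0)]⟩⟩,[.o ⟨false,0,⟨3,[(2,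
  1),(1,1),(35,0),(5,0)]⟩,⟨7,[(8,1),(8,3),(5,0),(0,0),(21,0),(5,1)]⟩⟩,.e ⟨false,0,⟨0,[]⟩,⟨1,[(23,0),
  (0,0),(26,0)]⟩⟩ ⟨false,1,⟨1,[(4,1),(46,0),(0,0)]⟩,⟨30,[(2,8),(2,7),(0,0),(0,15),(14,0),(1,21),(10,
  2)]⟩⟩,.a ⟨true,0,⟨0,[(24,0)]⟩,⟨0,[(0,0)]⟩⟩ ⟨false,0,⟨1,[(30,0),(0,0)]⟩,⟨1,[(51,0),(0,0)]⟩⟩ ⟨true,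
  0,⟨0,[(4,0)]⟩,⟨30,[(2,8),(2,7),(0,0),(0,15),(14,0),(1,21),(10,2)]⟩⟩,.o ⟨false,0,⟨8,[(2,8),(2,1),
  (1,0),(3,0),(3,2),(14,0),(11,2),(3,0),(6,3)]⟩,⟨1,[(0,1),(35,0),(14,0)]⟩⟩]⟩) (.R ⟨2,true,false,
  false,[0,1],[0,0,0,0,1],[1,0,1],(⟨0,[]⟩,⟨0,[]⟩),(⟨0,[(26,0)]⟩,⟨0,[(25,0)]⟩),⟨0,[]⟩,.k,.k,.k,(.r 0
  ⟨1,[(30,0),(0,0),(2,1)]⟩ ⟨2,[(16,0),(6,0),(0,0)]⟩),.k,.k,⟨true,0,⟨1,[(30,0),(0,0)]⟩,⟨0,[]⟩⟩,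
  ⟨false,0,⟨0,[(24,0)]⟩,⟨1,[(1,1),(38,0),(10,0)]⟩⟩,⟨false,1,⟨7,[(8,1),(8,3),(5,0),(0,0),(21,0),(5,
  1)]⟩,⟨0,[(50,0)]⟩⟩,⟨true,0,⟨1,[(0,0),(18,0),(4,0)]⟩,⟨0,[(4,0)]⟩⟩,⟨true,0,⟨0,[]⟩,⟨0,[(54,0)]⟩⟩,
  ⟨false,0,⟨1,[(0,1),(44,0),(6,0)]⟩,⟨2,[(1,0),(21,1),(30,0)]⟩⟩,[]⟩)) (.Q [0,0,1,0,-1,0,0,0,1,0,0,1]
  (.p true [0,0,0,0,1] [] (⟨0,[(25,0)]⟩,⟨0,[(24,0)]⟩) .k 0 (⟨0,[]⟩,⟨0,[]⟩) .k .k) (.R ⟨2,true,false,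
  false,[0,1],[0,0,0,0,1],[2,0,1],(⟨0,[]⟩,⟨0,[]⟩),(⟨0,[(26,0)]⟩,⟨0,[(25,0)]⟩),⟨0,[]⟩,.k,.k,.k,(.r 0
  ⟨1,[(30,0),(0,0),(2,1)]⟩ ⟨2,[(16,0),(6,0),(0,0)]⟩),.k,.k,⟨false,0,⟨0,[]⟩,⟨1,[(23,0),(0,0),(26,
  0)]⟩⟩,⟨true,(-1),⟨0,[(0,0)]⟩,⟨0,[(23,0)]⟩⟩,⟨false,1,⟨7,[(8,1),(8,3),(5,0),(0,0),(21,0),(5,1)]⟩,⟨0,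
  [(34,0)]⟩⟩,⟨true,0,⟨18,[(0,8),(4,1),(9,1),(0,2),(0,1),(6,9),(21,0)]⟩,⟨0,[(4,0)]⟩⟩,⟨true,0,⟨0,[]⟩,
  ⟨0,[(54,0)]⟩⟩,⟨false,0,⟨1,[(0,1),(50,0),(0,0)]⟩,⟨55,[(4,21),(0,1),(10,3),(0,3),(5,33),(22,0),(5,
  8),(0,11)]⟩⟩,[]⟩) (.R ⟨2,true,false,false,[0,1],[0,0,0,0,1],[1,0,1],(⟨0,[]⟩,⟨0,[]⟩),(⟨0,[(26,0)]⟩,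
  ⟨0,[(25,0)]⟩),⟨0,[]⟩,.k,.k,.k,(.r 0 ⟨1,[(30,0),(0,0),(2,1)]⟩ ⟨2,[(16,0),(6,0),(0,0)]⟩),.k,.k,
  ⟨true,0,⟨1,[(30,0),(0,0)]⟩,⟨0,[]⟩⟩,⟨false,0,⟨0,[(24,0)]⟩,⟨0,[(0,0)]⟩⟩,⟨false,1,⟨7,[(8,1),(8,3),(5,
  0),(0,0),(21,0),(5,1)]⟩,⟨0,[(50,0)]⟩⟩,⟨true,0,⟨3,[(2,0),(2,0),(1,1),(16,2)]⟩,⟨0,[(4,0)]⟩⟩,⟨true,0,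
  ⟨0,[]⟩,⟨0,[(54,0)]⟩⟩,⟨false,0,⟨0,[(1,0),(50,0)]⟩,⟨1,[(0,0),(22,0),(29,0)]⟩⟩,[]⟩)))) (.Q [1,0,0,-1,
  0,0,0,0,1,0,0,1] (.p true [0,0,0,0,1] [] (⟨0,[(23,0)]⟩,⟨0,[(22,0)]⟩) .k 0 (⟨0,[]⟩,⟨0,[]⟩) .k .k)
  (.Q [-1,0,0,2,0,0,0,0,-1,0,0,-1] (.p false [0,0,0,0,1] [] (⟨0,[(24,0)]⟩,⟨0,[(23,0)]⟩) .k 0 (⟨0,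
  []⟩,⟨0,[]⟩) .k .k) (.R ⟨1,true,false,true,[1,-1],[1,0,0,0,-1],[0,0,-1,-1],(⟨0,[(36,0)]⟩,⟨0,[(37,
  0)]⟩),(⟨0,[(24,0)]⟩,⟨0,[(25,0)]⟩),⟨1,[(5,0),(15,0),(14,0)]⟩,.k,.k,(.r (-2) ⟨2,[(15,1),(6,1),(0,
  1)]⟩ ⟨0,[(10,0),(18,0),(3,0)]⟩),(.r (-1) ⟨2,[(15,0),(6,0),(0,0)]⟩ ⟨1,[(29,0),(0,0),(2,1)]⟩),(.r
  (-2) ⟨2,[(15,1),(6,1),(0,1)]⟩ ⟨0,[(10,0),(18,0),(3,0)]⟩),.k,⟨false,2,⟨5,[(15,1),(6,1),(0,1),(26,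
  2),(0,2)]⟩,⟨1,[(10,0),(18,0),(3,0),(5,0)]⟩⟩,⟨true,1,⟨23,[(0,16),(3,1),(1,3),(8,7),(6,6),(12,0)]⟩,
  ⟨0,[(1,0),(31,0),(5,0),(1,1)]⟩⟩,⟨false,1,⟨1,[(22,0),(0,0),(27,0)]⟩,⟨0,[]⟩⟩,⟨true,0,⟨0,[(3,0)]⟩,⟨0,
  [(1,0)]⟩⟩,⟨true,0,⟨0,[(49,0)]⟩,⟨0,[(48,0)]⟩⟩,⟨false,0,⟨0,[(0,0)]⟩,⟨5,[(1,1),(2,1),(11,3),(6,3),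
  (21,0),(5,0)]⟩⟩,[]⟩) (.Q [0,0,0,0,0,0,0,0,-1,1,0,-1] (.p false [0,0,0,0,1] [1] (⟨0,[(25,0)]⟩,⟨0,
  [(24,0)]⟩) .k 1 (⟨0,[]⟩,⟨0,[]⟩) .k .k) (.R ⟨0,false,false,true,[0,0,0,0,1],[0,1],[1,1,1],(⟨0,[(26,
  0)]⟩,⟨0,[(25,0)]⟩),(⟨0,[(38,0)]⟩,⟨0,[(37,0)]⟩),⟨0,[(3,0)]⟩,.k,.k,(.r (-1) ⟨2,[(16,0),(6,0),(0,
  0)]⟩ ⟨1,[(30,0),(0,0),(2,1)]⟩),(.r (-1) ⟨2,[(16,0),(6,0),(0,0)]⟩ ⟨1,[(30,0),(0,0),(2,1)]⟩),.k,.k,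
  ⟨false,1,⟨2,[(16,0),(6,0),(0,0)]⟩,⟨0,[(50,0)]⟩⟩,⟨true,1,⟨1,[(0,1),(35,0),(14,0)]⟩,⟨2,[(1,1),(9,2),
  (12,0),(5,2),(3,0)]⟩⟩,⟨false,0,⟨1,[(30,0),(0,0)]⟩,⟨1,[(51,0),(0,0)]⟩⟩,⟨true,0,⟨0,[(4,0)]⟩,⟨0,[(2,
  0)]⟩⟩,⟨false,0,⟨0,[]⟩,⟨0,[]⟩⟩,⟨false,0,⟨0,[]⟩,⟨0,[]⟩⟩,[.o ⟨false,0,⟨1,[(34,1),(5,0),(5,0)]⟩,⟨7,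
  [(8,1),(8,3),(5,0),(0,0),(21,0),(5,1)]⟩⟩,.e ⟨false,0,⟨0,[]⟩,⟨1,[(23,0),(0,0),(26,0)]⟩⟩ ⟨false,1,
  ⟨1,[(4,1),(46,0),(0,0)]⟩,⟨2,[(1,1),(22,0),(9,0)]⟩⟩,.a ⟨true,0,⟨0,[(24,0)]⟩,⟨0,[(0,0)]⟩⟩ ⟨false,0,
  ⟨1,[(30,0),(0,0)]⟩,⟨1,[(51,0),(0,0)]⟩⟩ ⟨true,0,⟨0,[(4,0)]⟩,⟨2,[(1,1),(22,0),(9,0)]⟩⟩,.o ⟨false,0,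
  ⟨1,[(2,0),(8,0),(12,0),(5,0),(15,0)]⟩,⟨1,[(0,1),(35,0),(14,0)]⟩⟩]⟩) (.Q [0,0,-1,0,1,0,0,0,-1,0,0,
  -1] (.p false [0,0,0,0,1] [] (⟨0,[(26,0)]⟩,⟨0,[(25,0)]⟩) .k 0 (⟨0,[]⟩,⟨0,[]⟩) .k .k) (.R ⟨2,true,
  false,false,[0,1],[0,0,0,0,1],[1,0,1],(⟨0,[]⟩,⟨0,[]⟩),(⟨0,[(27,0)]⟩,⟨0,[(26,0)]⟩),⟨0,[]⟩,.k,.k,.k,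
  (.r 0 ⟨1,[(31,0),(0,0),(2,1)]⟩ ⟨2,[(17,0),(6,0),(0,0)]⟩),.k,.k,⟨true,0,⟨1,[(31,0),(0,0)]⟩,⟨0,[]⟩⟩,
  ⟨false,0,⟨0,[(25,0)]⟩,⟨0,[(0,0)]⟩⟩,⟨false,1,⟨7,[(9,1),(8,3),(5,0),(0,0),(21,0),(5,1)]⟩,⟨0,[(51,
  0)]⟩⟩,⟨true,0,⟨0,[(3,0)]⟩,⟨0,[(5,0)]⟩⟩,⟨true,0,⟨0,[]⟩,⟨0,[(55,0)]⟩⟩,⟨false,0,⟨1,[(1,1),(44,0),(6,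
  0)]⟩,⟨1,[(0,0),(23,0),(29,0)]⟩⟩,[]⟩) (.R ⟨2,true,false,false,[0,1],[0,0,0,0,1],[2,0,1],(⟨0,[]⟩,⟨0,
  []⟩),(⟨0,[(27,0)]⟩,⟨0,[(26,0)]⟩),⟨0,[]⟩,.k,.k,.k,(.r 0 ⟨1,[(31,0),(0,0),(2,1)]⟩ ⟨2,[(17,0),(6,0),
  (0,0)]⟩),.k,.k,⟨false,0,⟨0,[]⟩,⟨1,[(24,0),(0,0),(26,0)]⟩⟩,⟨true,(-1),⟨0,[(0,0)]⟩,⟨0,[(24,0)]⟩⟩,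
  ⟨false,1,⟨7,[(9,1),(8,3),(5,0),(0,0),(21,0),(5,1)]⟩,⟨0,[(35,0)]⟩⟩,⟨true,0,⟨0,[(3,0)]⟩,⟨0,[(5,
  0)]⟩⟩,⟨true,0,⟨0,[]⟩,⟨0,[(55,0)]⟩⟩,⟨false,0,⟨1,[(0,1),(51,0),(0,0)]⟩,⟨55,[(5,21),(0,1),(10,3),(0,
  3),(5,33),(22,0),(5,8),(0,11)]⟩⟩,[]⟩)))) (.R ⟨2,true,false,true,[0,1],[0,0,0,0,1],[2,1],(⟨0,[]⟩,
  ⟨0,[]⟩),(⟨0,[(24,0)]⟩,⟨0,[(23,0)]⟩),⟨0,[]⟩,.k,.k,.k,(.r 0 ⟨1,[(28,0),(0,0),(2,1)]⟩ ⟨2,[(14,0),(6,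
  0),(0,0)]⟩),.k,.k,⟨true,0,⟨0,[]⟩,⟨1,[(28,0),(0,0)]⟩⟩,⟨false,0,⟨0,[(22,0)]⟩,⟨4,[(0,2),(13,0),(6,1),
  (27,0)]⟩⟩,⟨false,1,⟨2,[(14,0),(6,0),(0,0)]⟩,⟨0,[(32,0),(7,0)]⟩⟩,⟨true,0,⟨0,[(22,0),(24,0)]⟩,⟨0,
  [(0,0)]⟩⟩,⟨true,0,⟨1,[(38,0),(10,0)]⟩,⟨0,[(51,0)]⟩⟩,⟨false,0,⟨0,[(22,0)]⟩,⟨13,[(0,9),(2,1),(11,3),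
  (5,3),(12,0),(15,4)]⟩⟩,[]⟩))))))) (.Q [0,0,0,0,0,2,0,0,0,0,-1] (.p false [0,0,1] [] (⟨0,[(25,0)]⟩,
  ⟨0,[(24,0)]⟩) .k 0 (⟨0,[]⟩,⟨0,[]⟩) .k .k) (.R ⟨0,false,false,true,[0,-1,1],[1,-1,-1],[],(⟨0,[(15,
  0)]⟩,⟨4,[(0,1),(15,0),(0,0),(7,2),(2,0),(9,0)]⟩),(⟨0,[(14,0)]⟩,⟨22,[(16,2),(0,2),(8,22),(1,4),(8,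
  5),(0,2)]⟩),⟨0,[(0,0)]⟩,.k,.k,(.r (-1) ⟨3,[(1,0),(3,1),(3,1),(3,0)]⟩ ⟨0,[(22,0),(0,0),(3,1),(7,
  0)]⟩),.k,.k,.k,⟨false,0,⟨9,[(1,2),(2,3),(2,3),(5,0),(13,5),(10,0),(6,4)]⟩,⟨5,[(3,3),(2,5),(8,3),
  (7,1),(9,2),(3,3),(1,0)]⟩⟩,⟨true,(-1),⟨21,[(2,8),(1,17),(0,8),(7,3),(14,0),(1,0),(7,3)]⟩,⟨2,[(3,
  0),(11,0),(7,4),(13,0),(1,0)]⟩⟩,⟨false,1,⟨0,[(22,0),(0,0),(3,0),(17,0)]⟩,⟨0,[(5,0)]⟩⟩,⟨true,0,⟨2,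
  [(6,0),(15,4),(4,0),(10,0),(6,0)]⟩,⟨0,[(1,0)]⟩⟩,⟨false,0,⟨0,[]⟩,⟨0,[]⟩⟩,⟨false,0,⟨0,[]⟩,⟨0,[]⟩⟩,
  [.o ⟨false,0,⟨1,[(6,1),(26,0),(5,0)]⟩,⟨2,[(1,0),(9,0),(15,3),(11,0),(5,0)]⟩⟩,.a ⟨true,0,⟨0,[(6,
  0)]⟩,⟨5,[(1,1),(9,0),(9,0),(5,6),(10,0)]⟩⟩ ⟨false,1,⟨1,[(44,0),(0,0)]⟩,⟨0,[(47,0)]⟩⟩ ⟨true,0,⟨0,
  [(2,0)]⟩,⟨3,[(1,1),(2,0),(18,5),(0,0),(2,2),(11,0)]⟩⟩,.e ⟨false,1,⟨1,[(16,0),(0,0),(27,0)]⟩,⟨0,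
  []⟩⟩ ⟨false,0,⟨0,[(2,0)]⟩,⟨2,[(1,0),(9,0),(11,2),(3,3),(11,0),(5,0)]⟩⟩,.o ⟨false,0,⟨1,[(23,1),(9,
  0),(1,1),(3,0)]⟩,⟨13,[(2,1),(1,1),(2,1),(5,3),(25,2),(4,12)]⟩⟩]⟩) (.I [0,-1,2,2,0,0,0,-1] (.R ⟨1,
  true,false,true,[0,-1,1],[1,-1,-1],[],(⟨0,[(16,0)]⟩,⟨93,[(0,5),(9,3),(3,2),(7,5),(3,93),(5,36),(5,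
  18),(0,7)]⟩),(⟨0,[(15,0)]⟩,⟨93,[(0,5),(9,3),(3,2),(7,5),(4,93),(4,36),(5,18),(0,7)]⟩),⟨0,[(1,0)]⟩,
  .k,.k,(.r (-1) ⟨3,[(2,0),(3,1),(3,1),(3,0)]⟩ ⟨0,[(0,0),(47,0)]⟩),.k,(.r 0 ⟨1,[(2,0),(3,1),(7,0)]⟩
  ⟨0,[(0,1),(9,0),(23,0)]⟩),.k,⟨false,0,⟨15,[(0,5),(1,2),(2,3),(2,15),(5,0),(24,0),(6,4)]⟩,⟨0,[(0,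
  0),(9,0),(23,0)]⟩⟩,⟨true,(-1),⟨21,[(3,8),(1,17),(0,8),(7,3),(14,0),(1,0),(7,3)]⟩,⟨2,[(4,0),(11,0),
  (7,4),(13,0),(1,0)]⟩⟩,⟨false,1,⟨2,[(0,2),(9,0),(6,0),(0,0)]⟩,⟨0,[(6,0)]⟩⟩,⟨true,0,⟨7,[(0,1),(6,3),
  (13,1),(1,9),(15,0),(5,0)]⟩,⟨0,[(2,0)]⟩⟩,⟨true,0,⟨1,[(0,1),(33,0),(10,0)]⟩,⟨21,[(3,4),(2,14),(2,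
  11),(4,0),(18,1),(0,2),(5,2)]⟩⟩,⟨false,0,⟨1,[(0,1),(2,1),(30,0),(10,0)]⟩,⟨5,[(2,3),(8,1),(0,1),
  (27,0),(5,0)]⟩⟩,[]⟩) (.I [0,0,-2,-2,2,0,0,-1] (.R ⟨0,false,false,true,[1,-1,-1],[1,-1],[],(⟨0,
  [(16,0)]⟩,⟨22,[(18,2),(0,2),(8,22),(1,4),(8,5),(0,2)]⟩),(⟨0,[(32,0)]⟩,⟨0,[(33,0)]⟩),⟨2,[(2,0),(14,
  1),(12,0),(8,2)]⟩,.k,.k,(.r (-2) ⟨0,[(0,0)]⟩ ⟨0,[(6,0),(16,0),(5,0),(7,0)]⟩),.k,.k,.k,⟨true,0,⟨0,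
  [(29,0),(7,0)]⟩,⟨0,[(44,0)]⟩⟩,⟨false,1,⟨0,[(25,0),(20,0)]⟩,⟨9,[(4,0),(1,1),(0,0),(7,2),(25,1)]⟩⟩,
  ⟨true,(-1),⟨10,[(3,4),(2,8),(8,0),(7,0),(5,1),(7,0),(2,1),(7,0)]⟩,⟨2,[(0,1),(23,0),(0,0),(3,0),(5,
  0)]⟩⟩,⟨false,0,⟨19,[(3,6),(9,2),(9,2),(5,2),(0,0),(1,0),(7,2)]⟩,⟨0,[(24,0),(22,0)]⟩⟩,⟨false,0,⟨0,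
  []⟩,⟨0,[]⟩⟩,⟨false,0,⟨0,[]⟩,⟨0,[]⟩⟩,[.o ⟨false,0,⟨0,[(44,0)]⟩,⟨1,[(29,1),(11,0),(5,0)]⟩⟩,.e
  ⟨false,1,⟨1,[(46,0),(0,0)]⟩,⟨0,[(49,0)]⟩⟩ ⟨false,2,⟨3,[(0,1),(12,0),(9,0),(1,1),(3,0),(16,2)]⟩,⟨0,
  [(6,0)]⟩⟩,.a ⟨true,(-1),⟨27,[(6,21),(7,10),(0,2),(14,1),(1,1),(7,5),(7,5)]⟩,⟨0,[(25,0),(20,0)]⟩⟩
  ⟨false,1,⟨1,[(18,0),(0,0),(27,0)]⟩,⟨0,[]⟩⟩ ⟨true,1,⟨15,[(0,7),(2,1),(19,3),(1,7),(8,5),(5,0),(5,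
  0)]⟩,⟨0,[(6,0)]⟩⟩,.o ⟨false,(-1),⟨0,[(6,0),(30,0),(6,0)]⟩,⟨5,[(5,3),(11,3),(7,1),(13,3),(1,0),(4,
  2)]⟩⟩]⟩) (.Q [0,0,0,1,0,0,-2,-2,0,1,-2] (.p false [0,0,1] [1,0,-1] (⟨0,[(28,0)]⟩,⟨0,[(27,0)]⟩) .k
  2 (⟨0,[(27,0)]⟩,⟨0,[(28,0)]⟩) .k (.r 1 ⟨3,[(0,1),(2,0),(3,3),(7,0)]⟩ ⟨0,[(24,1),(0,1),(20,0),(0,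
  0)]⟩)) (.R ⟨1,false,false,true,[0,-1,1],[1,-1,-1],[],(⟨0,[(18,0)]⟩,⟨10,[(0,0),(13,0),(9,0),(3,10),
  (2,1),(8,2),(0,0)]⟩),(⟨0,[(17,0)]⟩,⟨10,[(0,0),(13,0),(9,0),(4,10),(1,1),(8,2),(0,0)]⟩),⟨0,[(3,
  0)]⟩,.k,.k,(.r (-1) ⟨33,[(2,7),(1,0),(5,15),(1,11),(0,7),(2,4),(25,1)]⟩ ⟨6,[(0,3),(0,0),(24,9),(0,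
  1),(2,7),(11,1)]⟩),.k,(.r 0 ⟨1,[(4,0),(3,1),(7,0)]⟩ ⟨2,[(0,2),(5,0),(11,0),(7,4),(13,0),(1,0)]⟩),
  .k,⟨false,0,⟨7,[(1,1),(2,0),(5,3),(5,0),(13,3),(17,3)]⟩,⟨14,[(0,5),(2,2),(2,2),(5,6),(12,2),(0,
  11),(9,5),(3,3),(1,0)]⟩⟩,⟨true,(-1),⟨3,[(1,1),(3,2),(2,0),(7,0)]⟩,⟨2,[(6,0),(11,0),(7,4),(13,0),
  (1,0)]⟩⟩,⟨false,1,⟨3,[(0,1),(18,0),(0,0),(5,3),(3,1),(11,0),(5,1)]⟩,⟨0,[(8,0)]⟩⟩,⟨true,0,⟨2,[(0,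
  1),(14,0),(9,1),(24,0)]⟩,⟨0,[(4,0)]⟩⟩,⟨false,1,⟨3,[(0,1),(18,0),(0,0),(5,3),(3,5),(11,0),(5,1)]⟩,
  ⟨0,[(2,0),(35,0)]⟩⟩,⟨false,0,⟨0,[(0,0)]⟩,⟨5,[(4,3),(8,1),(0,1),(27,0),(5,0)]⟩⟩,[.o ⟨false,0,⟨1,
  [(9,1),(26,0),(5,0)]⟩,⟨2,[(4,0),(9,0),(15,3),(11,0),(5,0)]⟩⟩,.a ⟨true,0,⟨0,[(9,0)]⟩,⟨5,[(4,1),(9,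
  0),(9,0),(5,6),(10,0)]⟩⟩ ⟨false,1,⟨1,[(47,0),(0,0)]⟩,⟨0,[(50,0)]⟩⟩ ⟨true,0,⟨0,[(5,0)]⟩,⟨8,[(1,2),
  (2,0),(9,1),(9,1),(1,11),(3,4),(11,3)]⟩⟩,.e ⟨false,1,⟨1,[(19,0),(0,0),(27,0)]⟩,⟨0,[]⟩⟩ ⟨false,0,
  ⟨0,[(5,0)]⟩,⟨2,[(4,0),(9,0),(11,2),(3,3),(11,0),(5,0)]⟩⟩,.o ⟨false,0,⟨1,[(26,1),(9,0),(1,1),(3,
  0)]⟩,⟨7,[(0,0),(4,0),(4,2),(5,1),(25,1),(4,5)]⟩⟩]⟩) (.I [1,0,0,-1,0,1] (.I [0,0,0,0,1,0,0,0,-1]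
  (.I [1,0,0,-1,0,1,-1,-1] (.I [1,0,0,0,0,3,0,0,1] (.I [1,0,1,0,0,2,1] (.C [(0,0),(1,3),(2,0),(0,2),
  (3,0),(0,2)]) (.C [(0,0),(21,0),(8,0),(13,0)])) (.C [(0,0),(23,0),(0,0),(18,0)])) (.C [(0,0),(5,
  0),(1,0),(20,0),(13,0)])) (.C [(0,0),(20,0),(2,0)])) (.C [(0,2),(0,0),(4,1),(20,1),(13,0)])))))))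
  (.Q [0,0,0,0,0,2,0,0,0,0,-1] (.p false [0,0,1] [] (⟨0,[(24,0)]⟩,⟨0,[(23,0)]⟩) .k 0 (⟨0,[]⟩,⟨0,
  []⟩) .k .k) (.R ⟨0,false,false,true,[0,-1,1],[1,-1,-1],[],(⟨0,[(14,0)]⟩,⟨4,[(0,1),(14,0),(0,0),(7,
  2),(2,0),(9,0)]⟩),(⟨0,[(13,0)]⟩,⟨22,[(15,2),(0,2),(8,22),(1,4),(8,5),(0,2)]⟩),⟨0,[(0,0)]⟩,.k,.k,
  (.r (-1) ⟨16,[(4,4),(1,7),(0,1),(0,6),(0,1),(2,1),(25,0)]⟩ ⟨0,[(21,0),(0,0),(3,1),(7,0)]⟩),.k,.k,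
  .k,⟨false,0,⟨9,[(1,2),(1,3),(2,6),(5,0),(13,2),(10,0),(6,4)]⟩,⟨5,[(2,3),(2,5),(8,3),(7,1),(9,2),
  (3,3),(1,0)]⟩⟩,⟨true,(-1),⟨1,[(3,1),(0,0),(0,0),(13,0)]⟩,⟨2,[(2,0),(11,0),(7,4),(13,0),(1,0)]⟩⟩,
  ⟨false,1,⟨0,[(21,0),(0,0),(3,0),(17,0)]⟩,⟨0,[(4,0)]⟩⟩,⟨true,0,⟨2,[(5,0),(15,4),(4,0),(10,0),(6,
  0)]⟩,⟨0,[(1,0),(2,0)]⟩⟩,⟨false,0,⟨0,[]⟩,⟨0,[]⟩⟩,⟨false,0,⟨0,[]⟩,⟨0,[]⟩⟩,[.o ⟨false,0,⟨1,[(5,1),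
  (26,0),(5,0)]⟩,⟨3,[(1,2),(4,0),(5,0),(13,0),(11,0),(4,0),(0,1)]⟩⟩,.e ⟨false,1,⟨1,[(43,0),(0,0)]⟩,
  ⟨0,[(46,0)]⟩⟩ ⟨false,1,⟨2,[(3,0),(1,0),(2,0),(10,1),(1,1),(21,0),(0,0)]⟩,⟨0,[(1,0)]⟩⟩,.a ⟨true,0,
  ⟨0,[(22,0)]⟩,⟨0,[(19,0)]⟩⟩ ⟨false,1,⟨1,[(15,0),(0,0),(27,0)]⟩,⟨0,[]⟩⟩ ⟨true,0,⟨1,[(4,0),(0,0),(13,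
  0),(1,1)]⟩,⟨0,[(1,0)]⟩⟩,.o ⟨false,0,⟨1,[(22,1),(9,0),(1,1),(3,0)]⟩,⟨1,[(19,1),(18,0),(4,0)]⟩⟩]⟩)
  (.I [0,0,-2,-2,2,0,0,-1] (.R ⟨1,true,false,false,[1,0,-1],[0,1],[0,1,0,0,0,0,0,-1],(⟨0,[(25,0)]⟩,
  ⟨0,[(26,0)]⟩),(⟨0,[(31,0)]⟩,⟨0,[(30,0)]⟩),⟨0,[(14,0)]⟩,.k,.k,.k,.k,(.r (-2) ⟨0,[(0,0)]⟩ ⟨10,[(2,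
  10),(1,8),(8,6),(9,0),(3,1),(10,1),(7,0)]⟩),.k,⟨true,1,⟨5,[(0,3),(1,1),(19,3),(10,0),(4,0)]⟩,⟨4,
  [(2,1),(1,5),(2,0),(2,0),(0,0),(23,2),(2,0)]⟩⟩,⟨false,2,⟨3,[(0,1),(1,1),(24,1),(11,0),(4,2)]⟩,⟨27,
  [(4,21),(7,10),(0,2),(14,1),(1,1),(7,5),(7,5)]⟩⟩,⟨true,0,⟨0,[(47,0)]⟩,⟨0,[]⟩⟩,⟨false,1,⟨3,[(2,2),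
  (4,0),(5,0),(13,0),(11,0),(4,0),(0,1)]⟩,⟨0,[(6,0)]⟩⟩,⟨false,0,⟨0,[(43,0)]⟩,⟨3,[(0,0),(9,0),(13,0),
  (10,0),(9,0)]⟩⟩,⟨true,0,⟨0,[(2,0),(1,0),(39,0)]⟩,⟨0,[(12,0),(9,0)]⟩⟩,[]⟩) (.I [0,-1,2,2,0,0,0,-1]
  (.S ⟨1,0,[0,1,-1,-1,0,0,0,1],[0,-1,1],[1,1,1],(⟨0,[(16,0)]⟩,⟨93,[(0,5),(9,3),(3,2),(7,5),(3,93),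
  (5,36),(5,18),(0,7)]⟩),⟨0,[(2,0)]⟩,.k,(.r (-1) ⟨16,[(6,4),(1,7),(0,1),(0,6),(0,1),(2,1),(25,0)]⟩
  ⟨0,[(0,0),(47,0)]⟩),⟨false,0,⟨3,[(0,1),(22,1),(0,2),(0,0)]⟩,⟨1,[(6,1),(38,0),(0,0)]⟩⟩,⟨true,0,⟨0,
  [(48,0)]⟩,⟨0,[]⟩⟩,⟨true,(-1),⟨0,[(0,0),(33,0)]⟩,⟨16,[(6,4),(1,7),(0,1),(0,6),(0,1),(2,1),(25,
  0)]⟩⟩,⟨false,0,⟨0,[(44,0)]⟩,⟨11,[(0,1),(6,1),(2,1),(0,3),(13,1),(14,0),(5,2)]⟩⟩,[.o ⟨false,0,⟨1,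
  [(3,0),(2,0),(6,0),(20,0),(5,0)]⟩,⟨13,[(0,5),(4,1),(8,1),(8,7),(16,0),(4,6),(0,7)]⟩⟩,.a ⟨true,0,
  ⟨1,[(3,0),(2,0),(6,0)]⟩,⟨3,[(0,1),(20,1),(1,1),(15,0),(5,0)]⟩⟩ ⟨false,0,⟨0,[]⟩,⟨1,[(17,0),(0,0),
  (26,0)]⟩⟩ ⟨true,0,⟨0,[(6,0)]⟩,⟨3,[(0,1),(22,1),(0,2),(0,0)]⟩⟩,.e ⟨false,0,⟨1,[(24,0),(0,0)]⟩,⟨1,
  [(45,0),(0,0)]⟩⟩ ⟨false,0,⟨0,[(6,0)]⟩,⟨2,[(0,2),(9,0),(6,0),(0,0)]⟩⟩,.o ⟨false,0,⟨1,[(24,1),(9,0),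
  (1,1),(3,0)]⟩,⟨1,[(21,1),(18,0),(4,0)]⟩⟩]⟩) (.Q [0,0,0,2,0,0,-2,-2,0,1,-2] (.p false [0,0,1] [1,0,
  -1] (⟨0,[(27,0)]⟩,⟨0,[(26,0)]⟩) .k 2 (⟨0,[(26,0)]⟩,⟨0,[(27,0)]⟩) .k (.r 1 ⟨16,[(1,9),(4,11),(1,7),
  (0,1),(1,1),(2,1),(25,0)]⟩ ⟨0,[(23,1),(0,1),(20,0),(0,0)]⟩)) (.I [0,0,1,1,1,0,0,-2] (.R ⟨1,false,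
  false,false,[0,0,1],[1,1,-1],[1,1,1],(⟨0,[(29,0)]⟩,⟨0,[(28,0)]⟩),(⟨39,[(0,1),(13,1),(1,0),(6,1),
  (0,1),(3,39),(2,6),(8,10),(0,3)]⟩,⟨0,[(18,0)]⟩),⟨0,[(18,0)]⟩,.k,.k,.k,(.r 0 ⟨16,[(3,2),(4,6),(1,
  15),(0,3),(1,3),(2,3),(25,1)]⟩ ⟨0,[(0,0)]⟩),(.r 0 ⟨0,[(8,1)]⟩ ⟨6,[(0,8),(2,0),(1,2),(10,2)]⟩),.k,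
  ⟨true,(-1),⟨3,[(2,1),(0,1),(11,1),(20,0),(5,0)]⟩,⟨13,[(0,8),(2,0),(1,2),(10,2),(31,6)]⟩⟩,⟨false,0,
  ⟨0,[(1,0),(6,1)]⟩,⟨3,[(0,0),(4,1),(6,0),(13,3),(15,0)]⟩⟩,⟨true,0,⟨0,[(25,0),(0,0)]⟩,⟨0,[(10,0)]⟩⟩,
  ⟨false,1,⟨33,[(0,8),(0,20),(7,7),(2,2),(3,8),(25,1),(5,16)]⟩,⟨0,[(2,0),(2,0),(32,0)]⟩⟩,⟨true,0,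
  ⟨22,[(0,14),(2,3),(20,2),(2,2),(7,2),(0,6)]⟩,⟨0,[(8,0)]⟩⟩,⟨true,0,⟨0,[(1,0)]⟩,⟨4,[(2,2),(0,0),(1,
  3),(5,1),(3,2),(26,1)]⟩⟩,[.e ⟨false,0,⟨19,[(0,1),(10,0),(12,2),(2,3),(7,5),(0,1)]⟩,⟨1,[(47,0),(0,
  0)]⟩⟩ ⟨false,0,⟨0,[(1,0),(6,0)]⟩,⟨5,[(5,3),(5,0),(0,1),(0,0),(12,1),(15,0)]⟩⟩,.o ⟨false,1,⟨27,[(0,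
  3),(0,10),(3,1),(10,4),(25,6),(4,2),(0,13)]⟩,⟨19,[(2,5),(0,1),(1,7),(5,3),(3,5),(20,4),(5,8)]⟩⟩,
  .o ⟨false,1,⟨3,[(0,0),(4,1),(6,0),(29,0)]⟩,⟨6,[(7,2),(4,0),(3,1),(25,0)]⟩⟩,.a ⟨true,0,⟨0,[(26,
  0)]⟩,⟨0,[(23,0)]⟩⟩ ⟨false,0,⟨0,[]⟩,⟨45,[(0,7),(4,3),(8,11),(1,9),(25,2),(4,5),(0,16)]⟩⟩ ⟨true,0,
  ⟨0,[(1,0),(6,0)]⟩,⟨1,[(5,1),(9,1),(20,0),(5,0)]⟩⟩]⟩) (.I [0,0,0,0,1,0,0,0,-1] (.I [1,0,1,0,0,2,1]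
  (.I [1,0,0,-1,0,1,-1,-1] (.C [(0,5),(2,1),(2,5),(1,3),(0,5),(2,7),(30,1),(1,0),(4,0)]) (.C [(0,0),
  (6,0),(4,0),(30,0)])) (.C [(0,0),(6,0),(3,0),(7,0),(22,0)])) (.C [(0,0),(19,0),(2,0)]))) (.I [0,0,
  0,0,1,0,0,0,-1] (.I [1,0,1,0,0,2,1] (.I [1,0,0,0,0,3,0,0,1] (.I [1,0,0,-1,0,1,-1,-1] (.C [(0,3),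
  (3,1),(1,7),(0,1),(0,1),(0,5),(2,9),(30,3),(1,0),(4,2)]) (.C [(0,0),(6,0),(4,0),(30,0)])) (.C [(0,
  0),(21,0),(0,0),(18,0)])) (.C [(0,0),(5,0),(3,0),(7,0),(22,0)])) (.C [(0,0),(18,0),(2,0)]))))))))

theorem ok6 : chk K t6 l8 = true := by decide +kernel

noncomputable def t7 : Tre :=
  (.R ⟨0,false,false,true,[1,-1,-1],[1,-1],[],(⟨0,[(11,0)]⟩,⟨4,[(0,1),(12,0),(0,0),(8,2),(1,0),(9,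
  0)]⟩),(⟨0,[(27,0)]⟩,⟨0,[(28,0)]⟩),⟨0,[(0,0)]⟩,.k,.k,(.r (-2) ⟨1,[(1,1),(1,1),(32,0),(4,0)]⟩ ⟨2,
  [(4,1),(13,0),(2,0),(2,5),(5,2),(1,6)]⟩),.k,.k,.k,⟨true,0,⟨0,[(24,0),(7,0)]⟩,⟨0,[(39,0)]⟩⟩,⟨false,
  1,⟨0,[(1,0),(22,0)]⟩,⟨0,[(4,0),(14,0),(12,0)]⟩⟩,⟨true,(-1),⟨0,[(4,0),(19,0),(5,0),(1,1)]⟩,⟨0,[(1,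
  0),(17,0)]⟩⟩,⟨false,0,⟨0,[(4,0),(15,0)]⟩,⟨0,[(19,0),(22,0)]⟩⟩,⟨false,0,⟨0,[]⟩,⟨0,[]⟩⟩,⟨false,0,⟨0,
  []⟩,⟨0,[]⟩⟩,[.o ⟨false,0,⟨0,[(39,0)]⟩,⟨1,[(24,1),(11,0),(5,0)]⟩⟩,.a ⟨true,0,⟨6,[(1,0),(7,2),(0,0),
  (9,0),(4,0),(1,0),(7,0)]⟩,⟨0,[(40,0)]⟩⟩ ⟨false,1,⟨1,[(41,0),(0,0)]⟩,⟨0,[(44,0)]⟩⟩ ⟨true,1,⟨0,[(1,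
  0)]⟩,⟨0,[(4,0),(14,0),(4,0),(5,0),(1,2)]⟩⟩,.e ⟨false,1,⟨1,[(13,0),(0,0),(27,0)]⟩,⟨0,[]⟩⟩ ⟨false,1,
  ⟨0,[(1,0)]⟩,⟨0,[(4,0),(14,0),(4,0),(7,1)]⟩⟩,.o ⟨false,(-1),⟨0,[(4,0),(14,0),(10,0),(1,2)]⟩,⟨1,[(1,
  1),(22,1),(11,0),(4,0)]⟩⟩]⟩)

theorem ok7 : chk K t7 l9 = true := by decide +kernel

noncomputable def t8 : Tre :=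
  (.Q [0,0,0,2,0,0,1,1,0,-1,1] (.p true [0,0,1] [1] (⟨0,[(23,0)]⟩,⟨0,[(22,0)]⟩) .k 1 (⟨0,[]⟩,⟨0,
  []⟩) .k .k) (.R ⟨1,true,false,false,[1,0,-1],[0,1],[0,1,0,0,0,0,0,-1],(⟨0,[(23,0)]⟩,⟨0,[(24,0)]⟩),
  (⟨0,[(29,0)]⟩,⟨0,[(28,0)]⟩),⟨0,[(12,0)]⟩,.k,.k,.k,.k,(.r (-2) ⟨1,[(2,1),(1,1),(32,0),(4,0)]⟩ ⟨12,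
  [(0,11),(4,0),(5,5),(13,1),(5,9),(1,19),(2,2),(7,6)]⟩),.k,⟨true,1,⟨0,[(2,0),(17,0)]⟩,⟨1,[(0,0),(4,
  0),(12,0),(12,1),(1,5)]⟩⟩,⟨false,2,⟨3,[(0,1),(1,3),(17,1),(16,0),(4,1),(0,0)]⟩,⟨4,[(3,0),(0,0),
  (13,3),(6,1),(5,4),(1,9)]⟩⟩,⟨true,0,⟨0,[(45,0)]⟩,⟨0,[]⟩⟩,⟨false,1,⟨5,[(0,3),(8,1),(4,0),(0,0),(21,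
  0),(5,1)]⟩,⟨0,[(4,0)]⟩⟩,⟨false,0,⟨0,[(41,0)]⟩,⟨1,[(8,0),(11,0),(22,0)]⟩⟩,⟨true,0,⟨0,[(0,0)]⟩,⟨0,
  [(10,0),(9,0)]⟩⟩,[]⟩) (.I [0,0,1,0,0,1,1,0,-1] (.I [2,0,1,1,0,0,0,-1] (.N [0,-1,1,0,-1] 0 ⟨0,[(5,
  0)]⟩ ⟨0,[(0,0)]⟩ (.x 0 ⟨0,[(1,0)]⟩ ⟨0,[(15,0),(1,0),(0,0),(1,0),(18,0)]⟩)) (.Q [-1,0,1,0,0,0,1,0,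
  -1,0,1,-1] (.p true [0,0,1] [0,0,0,0,1] (⟨0,[(26,0)]⟩,⟨0,[(25,0)]⟩) .k 2 (⟨0,[(19,0)]⟩,⟨0,[(18,
  0)]⟩) .k (.r 0 ⟨6,[(7,4),(13,1),(2,1),(10,1),(10,0)]⟩ ⟨1,[(4,0),(17,1),(0,0),(3,0),(17,0)]⟩)) (.R
  ⟨0,false,false,true,[0,-1,1],[0,0,0,0,1],[1,1,1],(⟨0,[(16,0)]⟩,⟨22,[(17,2),(0,2),(7,22),(2,4),(8,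
  5),(0,2)]⟩),(⟨0,[(20,0)]⟩,⟨0,[(19,0)]⟩),⟨2,[(4,1),(21,0),(2,0),(8,2)]⟩,.k,.k,(.r (-1) ⟨16,[(6,4),
  (1,7),(0,1),(0,6),(0,1),(2,1),(25,0)]⟩ ⟨0,[(23,0),(0,0),(3,1),(7,0)]⟩),(.r 0 ⟨0,[(1,0)]⟩ ⟨1,[(17,
  0),(0,0),(4,1),(0,1),(3,1),(17,0)]⟩),.k,.k,⟨true,0,⟨1,[(24,0),(0,0)]⟩,⟨0,[]⟩⟩,⟨false,1,⟨1,[(18,1),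
  (2,1),(18,0),(4,0)]⟩,⟨0,[(0,0)]⟩⟩,⟨false,0,⟨0,[(23,0),(0,0),(3,0),(7,0)]⟩,⟨1,[(6,1),(38,0),(0,
  0)]⟩⟩,⟨true,0,⟨0,[(18,0),(4,0),(4,0)]⟩,⟨0,[(0,0),(5,0)]⟩⟩,⟨false,0,⟨0,[]⟩,⟨0,[]⟩⟩,⟨false,0,⟨0,[]⟩,
  ⟨0,[]⟩⟩,[.o ⟨false,0,⟨1,[(18,1),(15,0),(5,0)]⟩,⟨1,[(0,1),(20,1),(8,0),(15,0)]⟩⟩,.e ⟨false,0,⟨0,
  []⟩,⟨1,[(17,0),(0,0),(26,0)]⟩⟩ ⟨false,1,⟨1,[(18,1),(2,1),(18,0),(4,0)]⟩,⟨0,[(0,0)]⟩⟩,.a ⟨true,0,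
  ⟨0,[(24,0)]⟩,⟨0,[(21,0)]⟩⟩ ⟨false,0,⟨1,[(24,0),(0,0)]⟩,⟨1,[(45,0),(0,0)]⟩⟩ ⟨true,0,⟨0,[(8,0),(9,
  0),(4,0)]⟩,⟨0,[(0,0)]⟩⟩,.o ⟨false,0,⟨1,[(24,1),(9,0),(1,1),(3,0)]⟩,⟨1,[(21,1),(18,0),(4,0)]⟩⟩]⟩)
  (.I [3,0,1,1,-2,0,0,2] (.Q [0,0,0,0,0,-1,0,0,0,0,0,1] (.ed false [1,-1,0,0,1] .k) (.Q [-1,0,0,0,0,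
  0,0,0,-1,1,0,-1] (.p false [0,0,0,0,1] [1] (⟨0,[(22,0)]⟩,⟨0,[(21,0)]⟩) .k 1 (⟨0,[]⟩,⟨0,[]⟩) .k
  .k) (.S ⟨1,0,[1,1],[0,0,0,0,1],[],(⟨0,[(23,0)]⟩,⟨0,[(22,0)]⟩),⟨0,[(1,0)]⟩,.k,(.r (-1) ⟨2,[(13,0),
  (6,0),(0,0)]⟩ ⟨1,[(27,0),(0,0),(2,1)]⟩),⟨false,1,⟨4,[(20,1),(0,1),(27,2),(1,0)]⟩,⟨0,[]⟩⟩,⟨true,0,
  ⟨0,[(51,0)]⟩,⟨0,[]⟩⟩,⟨true,0,⟨0,[(31,0)]⟩,⟨0,[(46,0)]⟩⟩,⟨false,0,⟨0,[(47,0)]⟩,⟨1,[(14,0),(11,0),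
  (22,0)]⟩⟩,[.o ⟨false,0,⟨1,[(21,1),(15,0),(5,0)]⟩,⟨1,[(0,1),(32,0),(15,0)]⟩⟩,.a ⟨true,0,⟨0,[(21,
  0)]⟩,⟨0,[(0,0)]⟩⟩ ⟨false,1,⟨1,[(48,0),(0,0)]⟩,⟨0,[(51,0)]⟩⟩ ⟨true,0,⟨0,[]⟩,⟨1,[(27,0),(0,0)]⟩⟩,.e
  ⟨false,1,⟨1,[(20,0),(0,0),(27,0)]⟩,⟨0,[]⟩⟩ ⟨false,0,⟨0,[]⟩,⟨1,[(20,0),(0,0),(27,0)]⟩⟩,.o ⟨false,0,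
  ⟨1,[(21,1),(15,0),(1,1),(3,0)]⟩,⟨1,[(0,1),(32,0),(14,0)]⟩⟩]⟩) (.R ⟨0,false,false,false,[0,-1,1],
  [0,0,0,0,1],[],(⟨0,[(19,0)]⟩,⟨22,[(20,2),(0,2),(7,22),(2,4),(8,5),(0,2)]⟩),(⟨0,[(23,0)]⟩,⟨0,[(22,
  0)]⟩),⟨2,[(7,1),(21,0),(2,0),(8,2)]⟩,.k,.k,(.r (-1) ⟨16,[(9,4),(1,7),(0,1),(0,6),(0,1),(2,1),(15,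
  0)]⟩ ⟨0,[(26,0),(0,0),(3,1),(7,0)]⟩),(.r 0 ⟨0,[(4,0)]⟩ ⟨1,[(20,0),(0,0),(4,1),(0,1),(3,1),(17,
  0)]⟩),.k,.k,⟨false,1,⟨9,[(20,3),(0,3),(26,4),(0,0),(1,1)]⟩,⟨0,[]⟩⟩,⟨true,0,⟨7,[(0,0),(2,6),(0,0),
  (1,0),(24,2)]⟩,⟨1,[(5,1),(13,1),(2,1),(10,0),(3,0),(1,1)]⟩⟩,⟨false,1,⟨0,[(26,0),(0,0),(3,0),(17,
  0)]⟩,⟨0,[(9,0)]⟩⟩,⟨true,0,⟨1,[(0,1),(25,1),(4,1),(10,0),(6,0)]⟩,⟨1,[(5,1),(3,1),(9,1),(2,1),(10,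
  0),(3,0)]⟩⟩,⟨false,0,⟨0,[]⟩,⟨0,[]⟩⟩,⟨false,0,⟨0,[]⟩,⟨0,[]⟩⟩,[.o ⟨false,0,⟨0,[(0,0)]⟩,⟨9,[(4,0),(0,
  0),(0,0),(12,0),(0,8),(1,0),(8,2),(11,0)]⟩⟩,.e ⟨false,1,⟨1,[(48,0),(0,0)]⟩,⟨0,[(51,0)]⟩⟩ ⟨false,1,
  ⟨1,[(3,1),(44,0),(0,0)]⟩,⟨1,[(5,1),(13,1),(2,1),(14,0),(5,0)]⟩⟩,.a ⟨true,0,⟨0,[(27,0)]⟩,⟨0,[(24,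
  0)]⟩⟩ ⟨false,1,⟨1,[(20,0),(0,0),(27,0)]⟩,⟨0,[]⟩⟩ ⟨true,0,⟨0,[(3,0)]⟩,⟨1,[(5,1),(13,1),(2,1),(14,
  0),(5,0)]⟩⟩,.o ⟨false,0,⟨1,[(27,1),(9,0),(1,1),(3,0)]⟩,⟨1,[(24,1),(18,0),(4,0)]⟩⟩]⟩)) (.Q [1,0,0,
  0,0,0,1,1,1,-1,1,1] (.p true [0,0,1] [1,0,0,0,-1] (⟨0,[(29,0)]⟩,⟨0,[(28,0)]⟩) .k 2 (⟨0,[(21,0)]⟩,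
  ⟨0,[(22,0)]⟩) .k (.r 0 ⟨16,[(1,2),(8,2),(3,3),(1,3),(7,3),(5,0),(11,1)]⟩ ⟨1,[(7,0),(17,1),(0,0),
  (3,0),(17,0)]⟩)) (.R ⟨0,false,false,true,[0,0,0,0,1],[0,1],[1,1,1],(⟨0,[(23,0)]⟩,⟨0,[(22,0)]⟩),
  (⟨0,[(35,0)]⟩,⟨0,[(34,0)]⟩),⟨0,[(1,0)]⟩,.k,.k,(.r (-1) ⟨2,[(13,0),(6,0),(0,0)]⟩ ⟨1,[(27,0),(0,0),
  (2,1)]⟩),(.r (-1) ⟨2,[(13,0),(6,0),(0,0)]⟩ ⟨1,[(27,0),(0,0),(2,1)]⟩),.k,.k,⟨false,1,⟨2,[(13,0),(6,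
  0),(0,0)]⟩,⟨0,[(47,0)]⟩⟩,⟨true,1,⟨27,[(1,23),(0,11),(2,23),(0,5),(0,7),(11,31),(0,3),(5,17),(6,6),
  (14,31),(0,8)]⟩,⟨2,[(0,0),(5,0),(14,1),(9,1),(5,2),(1,5)]⟩⟩,⟨false,0,⟨1,[(27,0),(0,0)]⟩,⟨1,[(48,
  0),(0,0)]⟩⟩,⟨true,0,⟨13,[(1,11),(0,5),(2,11),(1,3),(11,15),(0,1),(5,11),(4,7),(1,1),(3,0),(10,
  8)]⟩,⟨1,[(0,0),(5,0),(14,0)]⟩⟩,⟨false,0,⟨0,[]⟩,⟨0,[]⟩⟩,⟨false,0,⟨0,[]⟩,⟨0,[]⟩⟩,[.o ⟨false,0,⟨1,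
  [(31,1),(5,0),(5,0)]⟩,⟨1,[(14,0),(11,0),(22,0)]⟩⟩,.e ⟨false,0,⟨0,[]⟩,⟨1,[(20,0),(0,0),(26,0)]⟩⟩
  ⟨false,1,⟨6,[(1,5),(0,2),(2,5),(1,1),(11,7),(0,0),(5,5),(4,3),(11,0),(4,7),(0,2)]⟩,⟨2,[(0,1),(5,
  1),(14,0),(9,0)]⟩⟩,.a ⟨true,0,⟨0,[(21,0)]⟩,⟨13,[(1,11),(0,5),(2,11),(1,3),(2,5),(8,15),(0,1),(5,
  5),(15,1),(5,8),(0,2)]⟩⟩ ⟨false,0,⟨1,[(27,0),(0,0)]⟩,⟨1,[(48,0),(0,0)]⟩⟩ ⟨true,0,⟨13,[(1,11),(0,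
  5),(2,11),(1,3),(11,15),(0,1),(5,11),(4,7),(5,0),(5,1),(4,8)]⟩,⟨2,[(0,1),(5,1),(14,0),(9,0)]⟩⟩,.o
  ⟨false,0,⟨1,[(21,1),(15,0),(1,1),(3,0)]⟩,⟨27,[(1,23),(0,11),(2,23),(0,5),(0,7),(11,31),(0,3),(5,
  17),(6,6),(14,31),(0,8)]⟩⟩]⟩) (.Q [0,0,0,1,0,0,-2,-2,0,1,-2] (.p false [0,0,1] [1,0,-1] (⟨0,[(30,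
  0)]⟩,⟨0,[(29,0)]⟩) .k 2 (⟨0,[(29,0)]⟩,⟨0,[(30,0)]⟩) .k (.r 1 ⟨52,[(2,30),(1,24),(6,6),(3,5),(1,5),
  (7,5),(17,2),(6,0)]⟩ ⟨0,[(8,0),(17,1),(0,0),(3,0),(17,0)]⟩)) (.R ⟨1,true,false,false,[0,0,1],[1,0,
  -1],[0,1,0,0,0,0,0,1],(⟨0,[(31,0)]⟩,⟨0,[(30,0)]⟩),(⟨0,[(30,0)]⟩,⟨0,[(31,0)]⟩),⟨0,[(20,0)]⟩,.k,.k,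
  .k,.k,(.r 0 ⟨16,[(3,2),(6,3),(1,15),(0,3),(1,3),(2,3),(15,1)]⟩ ⟨1,[(0,1),(8,0),(18,2),(3,0),(11,
  0)]⟩),.k,⟨false,(-1),⟨1,[(3,0),(6,0),(1,0),(24,0)]⟩,⟨1,[(0,1),(8,1),(18,1),(15,0),(5,0)]⟩⟩,⟨true,
  (-1),⟨36,[(0,23),(2,19),(1,19),(1,11),(10,6),(15,2)]⟩,⟨1,[(9,0),(18,2),(3,0),(11,0)]⟩⟩,⟨true,0,⟨0,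
  [(52,0)]⟩,⟨0,[]⟩⟩,⟨false,1,⟨5,[(0,7),(14,3),(28,0),(5,0)]⟩,⟨1,[(3,1),(5,3),(22,1),(5,0),(1,1),(3,
  0)]⟩⟩,⟨false,0,⟨0,[(48,0)]⟩,⟨5,[(0,1),(14,3),(28,0),(5,0)]⟩⟩,⟨true,0,⟨0,[(0,0)]⟩,⟨29,[(3,15),(1,
  11),(3,23),(3,4),(12,10),(1,19),(9,6),(5,14)]⟩⟩,[]⟩) (.R ⟨0,false,false,true,[0,-1,1],[1,0,-1],[],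
  (⟨0,[(20,0)]⟩,⟨22,[(21,2),(0,2),(7,22),(2,4),(8,5),(0,2)]⟩),(⟨0,[(30,0)]⟩,⟨0,[(31,0)]⟩),⟨2,[(8,1),
  (21,0),(2,0),(8,2)]⟩,.k,.k,(.r (-1) ⟨3,[(0,0),(9,0),(1,0),(1,1),(3,0)]⟩ ⟨0,[(27,0),(0,0),(3,1),(7,
  0)]⟩),(.x (-1) ⟨1,[(2,1),(3,1),(1,0),(0,0),(12,1),(5,0),(1,0),(1,0),(11,0)]⟩ ⟨32,[(1,20),(1,6),(0,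
  20),(0,6),(12,5),(1,65),(4,11),(8,2),(7,10),(1,10)]⟩),.k,.k,⟨true,0,⟨33,[(3,9),(6,1),(1,7),(2,3),
  (2,1),(15,0),(15,14)]⟩,⟨0,[(27,0),(0,0)]⟩⟩,⟨false,0,⟨0,[(1,0),(2,0),(7,0)]⟩,⟨1,[(9,0),(18,2),(3,
  0),(11,0)]⟩⟩,⟨false,1,⟨0,[(27,0),(0,0),(3,0),(17,0)]⟩,⟨0,[(10,0)]⟩⟩,⟨true,0,⟨1,[(27,3),(4,1),(10,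
  0),(6,0)]⟩,⟨0,[(0,0)]⟩⟩,⟨false,0,⟨0,[]⟩,⟨0,[]⟩⟩,⟨false,0,⟨0,[]⟩,⟨0,[]⟩⟩,[.o ⟨false,0,⟨0,[(27,0)]⟩,
  ⟨2,[(0,0),(15,0),(15,1),(11,0),(5,0)]⟩⟩,.a ⟨true,0,⟨2,[(11,0),(15,1),(4,0),(10,0),(6,0)]⟩,⟨5,[(0,
  1),(15,0),(9,0),(5,2),(10,0)]⟩⟩ ⟨false,1,⟨1,[(49,0),(0,0)]⟩,⟨0,[(52,0)]⟩⟩ ⟨true,0,⟨0,[(1,0),(2,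
  0)]⟩,⟨47,[(0,7),(2,11),(12,3),(9,3),(1,76),(0,4),(14,19),(6,1)]⟩⟩,.e ⟨false,1,⟨1,[(21,0),(0,0),
  (27,0)]⟩,⟨0,[]⟩⟩ ⟨false,0,⟨0,[(1,0),(2,0)]⟩,⟨2,[(0,0),(15,0),(11,2),(3,1),(11,0),(5,0)]⟩⟩,.o
  ⟨false,0,⟨1,[(28,1),(9,0),(1,1),(3,0)]⟩,⟨1,[(25,1),(18,0),(4,0)]⟩⟩]⟩)))) (.Q [0,0,0,0,0,-1,0,0,0,
  0,0,1] (.ed false [1,-1,0,0,1] .k) (.Q [-1,0,0,0,0,0,0,0,-1,1,0,-1] (.p false [0,0,0,0,1] [1] (⟨0,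
  [(22,0)]⟩,⟨0,[(21,0)]⟩) .k 1 (⟨0,[]⟩,⟨0,[]⟩) .k .k) (.S ⟨1,0,[1,1],[0,0,0,0,1],[],(⟨0,[(23,0)]⟩,
  ⟨0,[(22,0)]⟩),⟨0,[(1,0)]⟩,.k,(.r (-1) ⟨17,[(2,1),(10,3),(1,3),(1,1),(18,1),(6,0),(4,0)]⟩ ⟨1,[(27,
  0),(0,0),(2,1)]⟩),⟨false,1,⟨65,[(2,3),(12,7),(1,1),(2,19),(0,19),(6,3),(2,11),(11,0),(5,28)]⟩,⟨0,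
  []⟩⟩,⟨true,0,⟨0,[(51,0)]⟩,⟨0,[]⟩⟩,⟨true,0,⟨0,[(31,0)]⟩,⟨0,[(46,0)]⟩⟩,⟨false,0,⟨0,[(47,0)]⟩,⟨63,
  [(2,7),(3,5),(7,21),(2,3),(10,7),(14,4),(5,20)]⟩⟩,[.o ⟨false,0,⟨1,[(21,1),(15,0),(5,0)]⟩,⟨1,[(0,
  1),(32,0),(15,0)]⟩⟩,.a ⟨true,0,⟨0,[(21,0)]⟩,⟨0,[(0,0)]⟩⟩ ⟨false,1,⟨1,[(48,0),(0,0)]⟩,⟨0,[(51,
  0)]⟩⟩ ⟨true,0,⟨0,[]⟩,⟨1,[(27,0),(0,0)]⟩⟩,.e ⟨false,1,⟨1,[(20,0),(0,0),(27,0)]⟩,⟨0,[]⟩⟩ ⟨false,0,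
  ⟨0,[]⟩,⟨1,[(20,0),(0,0),(27,0)]⟩⟩,.o ⟨false,0,⟨1,[(21,1),(15,0),(1,1),(3,0)]⟩,⟨1,[(0,1),(32,0),
  (14,0)]⟩⟩]⟩) (.R ⟨0,false,false,false,[0,-1,1],[0,0,0,0,1],[],(⟨0,[(19,0)]⟩,⟨153,[(2,5),(12,5),(1,
  8),(7,5),(1,5),(1,153),(1,11),(0,18),(8,44),(0,17)]⟩),(⟨0,[(23,0)]⟩,⟨0,[(22,0)]⟩),⟨2,[(7,1),(21,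
  0),(2,0),(8,2)]⟩,.k,.k,(.r (-1) ⟨16,[(9,4),(1,7),(0,1),(0,6),(0,1),(2,1),(25,0)]⟩ ⟨0,[(26,0),(0,
  0),(3,1),(7,0)]⟩),(.r 0 ⟨0,[(4,0)]⟩ ⟨3,[(2,1),(24,2),(0,2),(2,5)]⟩),.k,.k,⟨false,1,⟨27,[(2,1),(12,
  1),(1,1),(2,7),(0,7),(3,1),(5,3),(11,0),(4,12)]⟩,⟨0,[]⟩⟩,⟨true,0,⟨7,[(0,0),(2,6),(0,0),(1,0),(24,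
  2)]⟩,⟨1,[(5,1),(13,1),(2,1),(10,0),(3,0),(1,1)]⟩⟩,⟨false,1,⟨3,[(2,1),(24,0),(0,0),(2,5),(7,3)]⟩,
  ⟨0,[(9,0)]⟩⟩,⟨true,0,⟨1,[(0,1),(25,1),(4,1),(10,0),(6,0)]⟩,⟨1,[(5,1),(3,1),(9,1),(2,1),(10,0),(3,
  0)]⟩⟩,⟨false,0,⟨0,[]⟩,⟨0,[]⟩⟩,⟨false,0,⟨0,[]⟩,⟨0,[]⟩⟩,[.o ⟨false,0,⟨0,[(0,0)]⟩,⟨9,[(4,0),(0,0),(0,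
  0),(12,0),(0,8),(1,0),(8,2),(11,0)]⟩⟩,.e ⟨false,1,⟨1,[(48,0),(0,0)]⟩,⟨0,[(51,0)]⟩⟩ ⟨false,1,⟨1,
  [(3,1),(44,0),(0,0)]⟩,⟨1,[(5,1),(13,1),(2,1),(14,0),(5,0)]⟩⟩,.a ⟨true,0,⟨0,[(27,0)]⟩,⟨0,[(24,
  0)]⟩⟩ ⟨false,1,⟨1,[(20,0),(0,0),(27,0)]⟩,⟨0,[]⟩⟩ ⟨true,0,⟨0,[(3,0)]⟩,⟨1,[(5,1),(13,1),(2,1),(14,
  0),(5,0)]⟩⟩,.o ⟨false,0,⟨1,[(27,1),(9,0),(1,1),(3,0)]⟩,⟨1,[(24,1),(18,0),(4,0)]⟩⟩]⟩)) (.Q [1,0,0,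
  -1,0,0,0,0,1,0,0,1] (.p true [0,0,0,0,1] [] (⟨0,[(22,0)]⟩,⟨0,[(21,0)]⟩) .k 0 (⟨0,[]⟩,⟨0,[]⟩) .k
  .k) (.Q [-1,0,0,2,0,0,0,0,-1,0,0,-1] (.p false [0,0,0,0,1] [] (⟨0,[(23,0)]⟩,⟨0,[(22,0)]⟩) .k 0
  (⟨0,[]⟩,⟨0,[]⟩) .k .k) (.R ⟨1,true,false,false,[1,-1],[1,0,0,0,-1],[0,1,-1,-1],(⟨0,[(35,0)]⟩,⟨0,
  [(36,0)]⟩),(⟨0,[(23,0)]⟩,⟨0,[(24,0)]⟩),⟨1,[(8,0),(11,0),(14,0)]⟩,.k,.k,(.r (-2) ⟨8,[(3,1),(10,3),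
  (1,3),(1,1),(18,1),(6,0),(4,0)]⟩ ⟨0,[(32,1),(5,0),(1,1)]⟩),(.r (-1) ⟨17,[(3,1),(10,3),(1,3),(1,1),
  (18,1),(6,0),(4,0)]⟩ ⟨1,[(28,0),(0,0),(2,1)]⟩),(.r (-2) ⟨8,[(3,1),(10,3),(1,3),(1,1),(18,1),(6,0),
  (4,0)]⟩ ⟨0,[(32,1),(5,0),(1,1)]⟩),.k,⟨false,1,⟨71,[(3,1),(10,21),(1,3),(1,1),(18,37),(6,0),(4,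
  18)]⟩,⟨0,[(32,0),(7,0)]⟩⟩,⟨true,1,⟨11,[(0,9),(6,1),(5,0),(0,3),(0,0),(5,1),(12,0)]⟩,⟨0,[(1,0),(30,
  0),(5,0),(1,1)]⟩⟩,⟨true,0,⟨0,[(52,0)]⟩,⟨0,[]⟩⟩,⟨false,1,⟨1,[(0,0),(20,0),(28,0)]⟩,⟨0,[(1,0)]⟩⟩,
  ⟨false,0,⟨0,[(48,0)]⟩,⟨63,[(3,7),(3,5),(7,21),(2,3),(10,7),(14,4),(5,20)]⟩⟩,⟨true,0,⟨0,[(0,0)]⟩,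
  ⟨0,[(1,0),(45,0)]⟩⟩,[]⟩) (.Q [0,0,-1,0,1,0,0,0,-1,0,0,-1] (.p false [0,0,0,0,1] [] (⟨0,[(24,0)]⟩,
  ⟨0,[(23,0)]⟩) .k 0 (⟨0,[]⟩,⟨0,[]⟩) .k .k) (.Q [-1,0,0,0,0,0,0,0,-1,1,0,-1] (.p false [0,0,0,0,1]
  [1] (⟨0,[(25,0)]⟩,⟨0,[(24,0)]⟩) .k 1 (⟨0,[]⟩,⟨0,[]⟩) .k .k) (.R ⟨0,false,false,true,[0,0,0,0,1],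
  [0,1],[1,1,1],(⟨0,[(26,0)]⟩,⟨0,[(25,0)]⟩),(⟨0,[(38,0)]⟩,⟨0,[(37,0)]⟩),⟨0,[(4,0)]⟩,.k,.k,(.r (-1)
  ⟨17,[(5,1),(10,3),(1,3),(1,1),(18,1),(6,0),(4,0)]⟩ ⟨1,[(30,0),(0,0),(2,1)]⟩),(.r (-1) ⟨17,[(5,1),
  (10,3),(1,3),(1,1),(18,1),(6,0),(4,0)]⟩ ⟨1,[(30,0),(0,0),(2,1)]⟩),.k,.k,⟨false,1,⟨17,[(5,1),(10,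
  3),(1,3),(1,1),(18,1),(6,0),(4,0)]⟩,⟨0,[(50,0)]⟩⟩,⟨true,1,⟨0,[(1,0)]⟩,⟨2,[(2,0),(21,1),(9,1),(5,
  2),(1,5)]⟩⟩,⟨false,0,⟨1,[(30,0),(0,0)]⟩,⟨1,[(51,0),(0,0)]⟩⟩,⟨true,0,⟨1,[(0,1),(33,1),(1,0),(3,
  0)]⟩,⟨0,[(3,0)]⟩⟩,⟨false,0,⟨0,[]⟩,⟨0,[]⟩⟩,⟨false,0,⟨0,[]⟩,⟨0,[]⟩⟩,[.o ⟨false,0,⟨1,[(34,1),(5,0),
  (5,0)]⟩,⟨63,[(5,7),(3,5),(7,21),(2,3),(10,7),(14,4),(5,20)]⟩⟩,.e ⟨false,0,⟨0,[]⟩,⟨1,[(23,0),(0,0),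
  (26,0)]⟩⟩ ⟨false,1,⟨0,[(1,0),(32,0)]⟩,⟨2,[(2,1),(21,0),(9,0)]⟩⟩,.a ⟨true,0,⟨0,[(24,0)]⟩,⟨0,[(0,
  0)]⟩⟩ ⟨false,0,⟨1,[(30,0),(0,0)]⟩,⟨1,[(51,0),(0,0)]⟩⟩ ⟨true,0,⟨1,[(0,1),(33,1),(5,0),(5,0)]⟩,⟨2,
  [(2,1),(21,0),(9,0)]⟩⟩,.o ⟨false,0,⟨1,[(24,1),(15,0),(1,1),(3,0)]⟩,⟨0,[(1,0)]⟩⟩]⟩) (.R ⟨0,false,
  false,false,[0,-1,1],[0,0,0,0,1],[],(⟨0,[(22,0)]⟩,⟨153,[(5,5),(12,5),(1,8),(7,5),(1,5),(1,153),(1,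
  11),(0,18),(8,44),(0,17)]⟩),(⟨0,[(26,0)]⟩,⟨0,[(25,0)]⟩),⟨2,[(10,1),(21,0),(2,0),(8,2)]⟩,.k,.k,(.r
  (-1) ⟨16,[(12,4),(1,7),(0,1),(0,6),(0,1),(2,1),(25,0)]⟩ ⟨0,[(29,0),(0,0),(3,1),(7,0)]⟩),(.r 0 ⟨0,
  [(7,0)]⟩ ⟨3,[(5,1),(24,2),(0,2),(2,5)]⟩),.k,.k,⟨false,1,⟨27,[(5,1),(12,1),(1,1),(2,7),(0,7),(3,1),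
  (5,3),(11,0),(4,12)]⟩,⟨0,[]⟩⟩,⟨true,0,⟨7,[(0,0),(5,6),(0,0),(1,0),(24,2)]⟩,⟨9,[(4,5),(3,5),(1,1),
  (11,7),(0,3),(6,3),(5,0),(3,4),(1,9)]⟩⟩,⟨false,1,⟨3,[(5,1),(24,0),(0,0),(2,5),(7,3)]⟩,⟨0,[(12,
  0)]⟩⟩,⟨true,0,⟨1,[(0,1),(28,1),(4,1),(10,0),(6,0)]⟩,⟨7,[(4,5),(3,5),(1,1),(1,3),(1,1),(0,1),(6,7),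
  (0,1),(12,0),(3,2)]⟩⟩,⟨false,0,⟨0,[]⟩,⟨0,[]⟩⟩,⟨false,0,⟨0,[]⟩,⟨0,[]⟩⟩,[.o ⟨false,0,⟨0,[(0,0)]⟩,⟨1,
  [(1,0),(21,0),(29,0)]⟩⟩,.e ⟨false,1,⟨1,[(51,0),(0,0)]⟩,⟨0,[(54,0)]⟩⟩ ⟨false,1,⟨1,[(6,1),(44,0),(0,
  0)]⟩,⟨7,[(4,5),(3,5),(1,1),(11,7),(0,1),(6,1),(9,2),(5,0),(7,1)]⟩⟩,.a ⟨true,0,⟨0,[(30,0)]⟩,⟨0,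
  [(27,0)]⟩⟩ ⟨false,1,⟨1,[(23,0),(0,0),(27,0)]⟩,⟨0,[]⟩⟩ ⟨true,0,⟨0,[(6,0)]⟩,⟨7,[(4,5),(3,5),(1,1),
  (11,7),(0,1),(6,1),(9,2),(5,0),(7,1)]⟩⟩,.o ⟨false,0,⟨1,[(30,1),(9,0),(1,1),(3,0)]⟩,⟨1,[(27,1),(18,
  0),(4,0)]⟩⟩]⟩)) (.K ⟨0,[0,0,0,0,1],(-1),(-1),(⟨0,[(25,0)]⟩,⟨0,[(24,0)]⟩),.k,(.r (-1) ⟨17,[(4,1),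
  (10,3),(1,3),(1,1),(18,1),(6,0),(4,0)]⟩ ⟨1,[(29,0),(0,0),(2,1)]⟩),(.r 0 ⟨1,[(29,0),(0,0),(2,1)]⟩
  ⟨152,[(4,25),(8,23),(1,32),(1,27),(1,13),(18,3),(6,6),(7,19)]⟩),.k,.k,[⟨9,[(3,5),(3,5),(1,1),(0,
  3),(10,7),(0,3),(10,3),(1,0),(14,0)]⟩,⟨0,[(0,0)]⟩,⟨0,[(22,0),(30,0)]⟩,⟨1,[(0,1),(38,0),(10,
  0)]⟩]⟩))) (.R ⟨2,true,false,true,[0,1],[0,0,0,0,1],[2,1],(⟨0,[]⟩,⟨0,[]⟩),(⟨0,[(23,0)]⟩,⟨0,[(22,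
  0)]⟩),⟨0,[]⟩,.k,.k,.k,(.r 0 ⟨1,[(27,0),(0,0),(2,1)]⟩ ⟨17,[(2,1),(10,3),(1,3),(1,1),(18,1),(6,0),
  (4,0)]⟩),.k,.k,⟨true,0,⟨0,[]⟩,⟨1,[(27,0),(0,0)]⟩⟩,⟨false,0,⟨0,[(21,0)]⟩,⟨4,[(0,2),(12,0),(6,1),
  (27,0)]⟩⟩,⟨false,1,⟨17,[(2,1),(10,3),(1,3),(1,1),(18,1),(6,0),(4,0)]⟩,⟨0,[(31,0),(7,0)]⟩⟩,⟨true,0,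
  ⟨0,[(21,0),(24,0)]⟩,⟨0,[(0,0)]⟩⟩,⟨true,0,⟨1,[(37,0),(10,0)]⟩,⟨0,[(50,0)]⟩⟩,⟨false,0,⟨0,[(21,0)]⟩,
  ⟨11,[(0,7),(5,1),(7,1),(5,3),(12,0),(15,4)]⟩⟩,[]⟩)))))) (.I [2,0,1,1,0,0,0,-1] (.I [0,0,-1,0,0,-1,
  -1,0,1] (.N [0,-1,1,0,-1] 0 ⟨0,[(6,0)]⟩ ⟨0,[(1,0)]⟩ (.x (-1) ⟨0,[(4,0),(0,0),(11,0),(2,0),(7,0),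
  (5,0),(1,1),(1,0)]⟩ ⟨0,[(0,0)]⟩)) (.Q [0,0,-1,0,1,0,0,0,-1,0,0,-1] (.p false [0,0,0,0,1] [] (⟨0,
  [(20,0)]⟩,⟨0,[(19,0)]⟩) .k 0 (⟨0,[]⟩,⟨0,[]⟩) .k .k) (.Q [0,0,0,0,0,-1,0,0,0,0,0,1] (.ed false [1,
  -1,0,0,1] .k) (.Q [0,0,0,0,0,0,0,0,-1,1,0,-1] (.p false [0,0,0,0,1] [1] (⟨0,[(22,0)]⟩,⟨0,[(21,
  0)]⟩) .k 1 (⟨0,[]⟩,⟨0,[]⟩) .k .k) (.Q [1,0,0,-2,0,0,0,0,1,0,0,1] (.p true [0,0,0,0,1] [] (⟨0,[(23,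
  0)]⟩,⟨0,[(22,0)]⟩) .k 0 (⟨0,[]⟩,⟨0,[]⟩) .k .k) (.R ⟨1,false,false,true,[0,0,0,0,1],[0,1],[1,1,1],
  (⟨0,[(24,0)]⟩,⟨0,[(23,0)]⟩),(⟨0,[(36,0)]⟩,⟨0,[(35,0)]⟩),⟨0,[(2,0)]⟩,.k,.k,(.r (-1) ⟨2,[(14,0),(6,
  0),(0,0)]⟩ ⟨1,[(28,0),(0,0),(2,1)]⟩),(.r (-1) ⟨2,[(14,0),(6,0),(0,0)]⟩ ⟨1,[(28,0),(0,0),(2,1)]⟩),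
  (.r (-2) ⟨2,[(14,1),(6,1),(0,1)]⟩ ⟨0,[(32,1),(5,0),(1,1)]⟩),.k,⟨false,1,⟨2,[(14,0),(6,0),(0,0)]⟩,
  ⟨0,[(48,0)]⟩⟩,⟨true,1,⟨0,[(3,0)]⟩,⟨2,[(0,0),(21,1),(9,1),(5,2),(1,5)]⟩⟩,⟨false,0,⟨1,[(28,0),(0,
  0)]⟩,⟨1,[(49,0),(0,0)]⟩⟩,⟨true,0,⟨1,[(1,1),(30,1),(1,0),(3,0)]⟩,⟨1,[(0,0),(21,0)]⟩⟩,⟨true,(-1),⟨0,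
  [(32,0),(5,0),(1,0)]⟩,⟨2,[(14,0),(6,0),(0,0)]⟩⟩,⟨true,0,⟨1,[(1,1),(30,3),(5,0),(5,0)]⟩,⟨0,[(0,
  0)]⟩⟩,[.o ⟨false,0,⟨1,[(32,1),(5,0),(5,0)]⟩,⟨25,[(5,5),(1,1),(6,3),(0,7),(13,5),(14,0),(5,8)]⟩⟩,
  .e ⟨false,0,⟨0,[]⟩,⟨1,[(21,0),(0,0),(26,0)]⟩⟩ ⟨false,1,⟨0,[(3,0),(28,0)]⟩,⟨2,[(0,1),(21,0),(9,
  0)]⟩⟩,.a ⟨true,0,⟨0,[(22,0)]⟩,⟨0,[(1,0)]⟩⟩ ⟨false,0,⟨1,[(28,0),(0,0)]⟩,⟨1,[(49,0),(0,0)]⟩⟩ ⟨true,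
  0,⟨1,[(1,1),(30,1),(5,0),(5,0)]⟩,⟨2,[(0,1),(21,0),(9,0)]⟩⟩,.o ⟨false,0,⟨1,[(22,1),(15,0),(1,1),(3,
  0)]⟩,⟨0,[(3,0)]⟩⟩]⟩) (.I [-1,0,0,2,0,-1,0,0,-1] (.C [(0,3),(6,3),(0,0),(0,5),(0,4),(0,0),(9,1),
  (12,0),(4,4),(1,9),(1,6)]) (.C [(0,0),(0,0),(1,0)]))) (.R ⟨2,true,false,false,[0,1],[0,0,0,0,1],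
  [1,0,1],(⟨0,[]⟩,⟨0,[]⟩),(⟨0,[(23,0)]⟩,⟨0,[(22,0)]⟩),⟨0,[]⟩,.k,.k,.k,(.r 0 ⟨1,[(27,0),(0,0),(2,
  1)]⟩ ⟨2,[(13,0),(6,0),(0,0)]⟩),.k,.k,⟨true,0,⟨1,[(27,0),(0,0)]⟩,⟨0,[]⟩⟩,⟨false,0,⟨0,[(21,0)]⟩,⟨0,
  [(2,0)]⟩⟩,⟨false,1,⟨25,[(4,5),(1,1),(6,3),(0,7),(13,5),(14,0),(5,8)]⟩,⟨0,[(47,0)]⟩⟩,⟨true,0,⟨1,
  [(0,0),(15,0),(4,0)]⟩,⟨0,[(2,0),(28,0),(5,0),(1,0)]⟩⟩,⟨true,0,⟨0,[]⟩,⟨0,[(51,0)]⟩⟩,⟨false,0,⟨1,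
  [(0,1),(41,0),(6,0)]⟩,⟨1,[(2,0),(17,0),(29,0)]⟩⟩,[]⟩)) (.Q [0,0,0,-1,0,0,0,0,1,0,0,1] (.p true [0,
  0,0,0,1] [] (⟨0,[(22,0)]⟩,⟨0,[(21,0)]⟩) .k 0 (⟨0,[]⟩,⟨0,[]⟩) .k .k) (.Q [-1,0,0,0,0,0,0,0,-1,1,0,
  -1] (.p false [0,0,0,0,1] [1] (⟨0,[(23,0)]⟩,⟨0,[(22,0)]⟩) .k 1 (⟨0,[]⟩,⟨0,[]⟩) .k .k) (.R ⟨0,
  false,false,true,[0,0,0,0,1],[0,1],[1,1,1],(⟨0,[(24,0)]⟩,⟨0,[(23,0)]⟩),(⟨0,[(36,0)]⟩,⟨0,[(35,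
  0)]⟩),⟨0,[(2,0)]⟩,.k,.k,(.r (-1) ⟨2,[(14,0),(6,0),(0,0)]⟩ ⟨1,[(28,0),(0,0),(2,1)]⟩),(.r (-1) ⟨2,
  [(14,0),(6,0),(0,0)]⟩ ⟨1,[(28,0),(0,0),(2,1)]⟩),.k,.k,⟨false,1,⟨2,[(14,0),(6,0),(0,0)]⟩,⟨0,[(48,
  0)]⟩⟩,⟨true,1,⟨0,[(3,0)]⟩,⟨1,[(1,0),(20,0),(9,0),(5,1),(1,3)]⟩⟩,⟨false,0,⟨1,[(28,0),(0,0)]⟩,⟨1,
  [(49,0),(0,0)]⟩⟩,⟨true,0,⟨1,[(0,1),(31,1),(1,0),(3,0)]⟩,⟨0,[(1,0)]⟩⟩,⟨false,0,⟨0,[]⟩,⟨0,[]⟩⟩,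
  ⟨false,0,⟨0,[]⟩,⟨0,[]⟩⟩,[.o ⟨false,0,⟨1,[(32,1),(5,0),(5,0)]⟩,⟨25,[(5,5),(1,1),(6,3),(0,7),(13,5),
  (14,0),(5,8)]⟩⟩,.e ⟨false,0,⟨0,[]⟩,⟨1,[(21,0),(0,0),(26,0)]⟩⟩ ⟨false,1,⟨0,[(3,0),(28,0)]⟩,⟨0,[(1,
  0)]⟩⟩,.a ⟨true,0,⟨0,[(22,0)]⟩,⟨0,[(0,0)]⟩⟩ ⟨false,0,⟨1,[(28,0),(0,0)]⟩,⟨1,[(49,0),(0,0)]⟩⟩ ⟨true,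
  0,⟨1,[(0,1),(31,1),(5,0),(5,0)]⟩,⟨0,[(1,0)]⟩⟩,.o ⟨false,0,⟨1,[(22,1),(15,0),(1,1),(3,0)]⟩,⟨0,[(3,
  0)]⟩⟩]⟩) (.Q [-1,1,0,0,0,0,0,0,-1,0,0,-1] (.p false [0,0,0,0,1] [] (⟨0,[(24,0)]⟩,⟨0,[(23,0)]⟩) .k
  0 (⟨0,[]⟩,⟨0,[]⟩) .k .k) (.S ⟨1,0,[-1,1],[1,0,0,0,-1],[0,0,0,-1],(⟨0,[(24,0)]⟩,⟨0,[(25,0)]⟩),⟨1,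
  [(3,0),(5,0),(11,0),(2,0)]⟩,.k,(.r (-1) ⟨14,[(15,4),(6,1),(0,1),(27,2),(1,5)]⟩ ⟨1,[(29,0),(0,0),
  (2,1)]⟩),⟨false,1,⟨25,[(6,5),(1,1),(6,3),(0,7),(13,5),(14,0),(5,8)]⟩,⟨0,[(49,0)]⟩⟩,⟨true,0,⟨0,
  [(53,0)]⟩,⟨0,[]⟩⟩,⟨true,0,⟨0,[]⟩,⟨0,[(53,0)]⟩⟩,⟨false,0,⟨0,[(49,0)]⟩,⟨25,[(6,5),(1,1),(6,3),(0,7),
  (13,5),(14,0),(5,8)]⟩⟩,[.o ⟨false,0,⟨0,[(0,0)]⟩,⟨1,[(23,1),(21,0),(5,0)]⟩⟩,.o ⟨false,1,⟨3,[(0,0),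
  (21,2),(28,0),(1,0)]⟩,⟨0,[(1,0)]⟩⟩,.a ⟨true,0,⟨1,[(0,1),(43,0),(6,0)]⟩,⟨0,[(23,0)]⟩⟩ ⟨false,1,⟨25,
  [(6,5),(1,1),(6,3),(0,7),(13,5),(14,0),(5,8)]⟩,⟨0,[(33,0)]⟩⟩ ⟨true,0,⟨0,[(53,0)]⟩,⟨0,[]⟩⟩,.o
  ⟨false,0,⟨0,[(0,0),(40,0)]⟩,⟨1,[(23,1),(21,0),(4,0)]⟩⟩]⟩) (.R ⟨2,true,false,false,[0,1],[0,0,0,0,
  1],[1,1],(⟨0,[]⟩,⟨0,[]⟩),(⟨0,[(25,0)]⟩,⟨0,[(24,0)]⟩),⟨0,[]⟩,.k,.k,.k,(.r 0 ⟨1,[(29,0),(0,0),(2,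
  1)]⟩ ⟨2,[(15,0),(6,0),(0,0)]⟩),.k,.k,⟨true,0,⟨0,[(53,0)]⟩,⟨0,[(47,0)]⟩⟩,⟨false,0,⟨0,[(23,0)]⟩,⟨0,
  [(4,0)]⟩⟩,⟨false,1,⟨2,[(15,0),(6,0),(0,0)]⟩,⟨0,[(33,0),(7,0)]⟩⟩,⟨true,0,⟨0,[(2,0)]⟩,⟨0,[(4,0),(28,
  0),(5,0),(1,0)]⟩⟩,⟨true,0,⟨0,[(42,0)]⟩,⟨1,[(29,0),(0,0)]⟩⟩,⟨false,0,⟨0,[(0,0)]⟩,⟨1,[(4,0),(17,0),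
  (29,0)]⟩⟩,[]⟩))) (.Q [1,0,0,-1,0,0,0,0,1,0,0,1] (.p true [0,0,0,0,1] [] (⟨0,[(23,0)]⟩,⟨0,[(22,
  0)]⟩) .k 0 (⟨0,[]⟩,⟨0,[]⟩) .k .k) (.R ⟨1,true,false,false,[1,-1],[1,0,0,0,-1],[0,1,-1,-1],(⟨0,
  [(35,0)]⟩,⟨0,[(36,0)]⟩),(⟨0,[(23,0)]⟩,⟨0,[(24,0)]⟩),⟨1,[(8,0),(11,0),(14,0)]⟩,.k,.k,(.r (-2) ⟨2,
  [(14,1),(6,1),(0,1)]⟩ ⟨0,[(32,1),(5,0),(1,1)]⟩),(.r (-1) ⟨2,[(14,0),(6,0),(0,0)]⟩ ⟨1,[(28,0),(0,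
  0),(2,1)]⟩),(.r (-2) ⟨2,[(14,1),(6,1),(0,1)]⟩ ⟨0,[(32,1),(5,0),(1,1)]⟩),.k,⟨false,1,⟨11,[(14,3),
  (6,0),(0,0),(14,5),(11,2)]⟩,⟨0,[(32,0),(7,0)]⟩⟩,⟨true,1,⟨0,[(3,0)]⟩,⟨0,[(0,0),(31,0),(5,0),(1,
  1)]⟩⟩,⟨true,0,⟨0,[(52,0)]⟩,⟨0,[]⟩⟩,⟨false,1,⟨1,[(1,0),(19,0),(10,0),(17,0)]⟩,⟨0,[(0,0)]⟩⟩,⟨false,
  0,⟨0,[(48,0)]⟩,⟨25,[(5,5),(1,1),(6,3),(0,7),(13,5),(14,0),(5,8)]⟩⟩,⟨true,0,⟨0,[(1,0),(30,0)]⟩,⟨0,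
  [(0,0),(46,0)]⟩⟩,[]⟩) (.I [-1,0,0,1,0,0,0,0,-1] (.C [(0,0),(6,0),(1,0),(0,0),(28,0),(1,1),(1,0)])
  (.C [(0,0),(0,0),(23,0)]))))) (.K ⟨0,[0,0,0,0,1],(-1),(-1),(⟨0,[(21,0)]⟩,⟨0,[(20,0)]⟩),.k,(.r
  (-1) ⟨2,[(11,0),(6,0),(0,0)]⟩ ⟨1,[(25,0),(0,0),(2,1)]⟩),(.r 0 ⟨1,[(25,0),(0,0),(2,1)]⟩ ⟨14,[(11,
  4),(6,1),(0,1),(27,2),(1,5)]⟩),.k,.k,[⟨1,[(1,1),(15,1),(2,1),(10,0),(14,0)]⟩,⟨0,[(0,0)]⟩,⟨0,[(18,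
  0),(30,0)]⟩,⟨1,[(0,1),(34,0),(10,0)]⟩]⟩))) (.Q [0,0,-1,-1,0,0,-2,-1,0,1,-2] (.p false [0,0,1] [1,
  0,-1] (⟨0,[(26,0)]⟩,⟨0,[(25,0)]⟩) .k 2 (⟨0,[(25,0)]⟩,⟨0,[(26,0)]⟩) .k (.r 1 ⟨0,[(7,1),(25,0),(1,
  1)]⟩ ⟨0,[(4,0),(17,1),(0,0),(3,0),(17,0)]⟩)) (.Q [0,0,0,0,0,0,2,2,0,-1,2] (.p true [0,0,1] [1,0,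
  -1] (⟨0,[(27,0)]⟩,⟨0,[(26,0)]⟩) .k 2 (⟨0,[(26,0)]⟩,⟨0,[(27,0)]⟩) .k (.r 1 ⟨0,[(8,1),(25,0),(1,
  1)]⟩ ⟨0,[(5,0),(17,1),(0,0),(3,0),(17,0)]⟩)) (.R ⟨0,false,false,true,[0,-1,1],[1,-1,-1],[],(⟨0,
  [(17,0)]⟩,⟨22,[(18,2),(0,2),(7,22),(2,4),(8,5),(0,2)]⟩),(⟨0,[(16,0)]⟩,⟨22,[(18,2),(0,2),(8,22),(1,
  4),(8,5),(0,2)]⟩),⟨2,[(5,1),(21,0),(2,0),(8,2)]⟩,.k,.k,(.r (-1) ⟨3,[(0,0),(6,1),(3,1),(3,0)]⟩ ⟨0,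
  [(24,0),(0,0),(3,1),(7,0)]⟩),.k,.k,.k,⟨false,0,⟨0,[(9,0),(19,0),(7,0)]⟩,⟨0,[(6,0),(17,0)]⟩⟩,⟨true,
  (-1),⟨0,[(1,0),(7,0),(19,0),(5,0),(1,1)]⟩,⟨1,[(6,0),(18,2),(3,0),(11,0)]⟩⟩,⟨false,1,⟨0,[(24,0),(0,
  0),(3,0),(17,0)]⟩,⟨0,[(7,0)]⟩⟩,⟨true,0,⟨2,[(8,0),(15,4),(4,0),(10,0),(6,0)]⟩,⟨0,[(0,0)]⟩⟩,⟨false,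
  0,⟨0,[]⟩,⟨0,[]⟩⟩,⟨false,0,⟨0,[]⟩,⟨0,[]⟩⟩,[.o ⟨false,0,⟨3,[(4,1),(19,1),(10,0),(5,0)]⟩,⟨2,[(0,0),
  (12,0),(15,3),(11,0),(5,0)]⟩⟩,.a ⟨true,0,⟨0,[(8,0)]⟩,⟨5,[(0,1),(12,0),(9,0),(5,6),(10,0)]⟩⟩
  ⟨false,1,⟨1,[(46,0),(0,0)]⟩,⟨0,[(49,0)]⟩⟩ ⟨true,0,⟨0,[(1,0)]⟩,⟨3,[(0,1),(24,4),(0,0),(2,3),(5,0),
  (1,1),(3,0)]⟩⟩,.e ⟨false,1,⟨1,[(18,0),(0,0),(27,0)]⟩,⟨0,[]⟩⟩ ⟨false,0,⟨0,[(1,0)]⟩,⟨2,[(0,0),(12,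
  0),(11,2),(3,3),(11,0),(5,0)]⟩⟩,.o ⟨false,0,⟨1,[(25,1),(9,0),(1,1),(3,0)]⟩,⟨1,[(22,1),(18,0),(4,
  0)]⟩⟩]⟩) (.Q [0,0,0,1,0,0,2,2,0,-1,2] (.p true [0,0,1] [1,0,-1] (⟨0,[(28,0)]⟩,⟨0,[(27,0)]⟩) .k 2
  (⟨0,[(27,0)]⟩,⟨0,[(28,0)]⟩) .k (.r 1 ⟨0,[(9,1),(25,0),(1,1)]⟩ ⟨1,[(0,1),(5,1),(11,0),(0,0),(5,1),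
  (3,1),(11,0)]⟩)) (.R ⟨1,true,false,false,[1,0,-1],[0,0,1],[0,1,0,0,0,0,0,-1],(⟨0,[(28,0)]⟩,⟨0,
  [(29,0)]⟩),(⟨0,[(29,0)]⟩,⟨0,[(28,0)]⟩),⟨0,[(17,0)]⟩,.k,.k,.k,.k,(.r (-2) ⟨1,[(1,1),(5,2),(18,0),
  (3,0),(11,0)]⟩ ⟨1,[(0,0),(9,1),(5,0),(13,0),(5,1),(1,3)]⟩),.k,⟨true,1,⟨1,[(1,1),(5,1),(18,1),(3,
  1),(5,0),(5,0)]⟩,⟨0,[(10,1),(25,0),(1,2)]⟩⟩,⟨false,2,⟨1,[(7,2),(18,0),(3,2),(11,0)]⟩,⟨0,[(1,0),(8,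
  1),(25,0),(1,1)]⟩⟩,⟨true,0,⟨0,[(50,0)]⟩,⟨0,[]⟩⟩,⟨false,1,⟨5,[(0,3),(13,3),(27,0),(5,0)]⟩,⟨0,[(1,
  0)]⟩⟩,⟨false,0,⟨0,[(46,0)]⟩,⟨7,[(1,1),(11,3),(5,0),(0,0),(21,0),(5,1)]⟩⟩,⟨true,0,⟨0,[(0,0)]⟩,⟨1,
  [(1,0),(13,0),(9,1)]⟩⟩,[]⟩) (.I [0,0,-3,0,2,-3,-1,0,-1] (.Q [0,0,0,2,0,0,2,2,0,-1,2] (.p true [0,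
  0,1] [1,0,-1] (⟨0,[(30,0)]⟩,⟨0,[(29,0)]⟩) .k 2 (⟨0,[(29,0)]⟩,⟨0,[(30,0)]⟩) .k (.r 1 ⟨0,[(11,1),
  (25,0),(1,1)]⟩ ⟨1,[(2,1),(5,1),(11,0),(0,0),(5,1),(3,1),(11,0)]⟩)) (.R ⟨1,true,false,false,[1,0,
  -1],[0,1,1],[0,1,0,0,0,0,0,-1],(⟨0,[(30,0)]⟩,⟨0,[(31,0)]⟩),(⟨22,[(21,2),(0,2),(8,22),(1,4),(8,5),
  (0,2)]⟩,⟨0,[(19,0)]⟩),⟨0,[(19,0)]⟩,.k,.k,.k,(.r (-2) ⟨1,[(3,1),(5,2),(18,0),(3,0),(11,0)]⟩ ⟨1,[(0,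
  0),(11,1),(5,0),(19,1),(1,3)]⟩),(.r (-3) ⟨1,[(3,1),(5,3),(11,0),(0,0),(21,0)]⟩ ⟨0,[(12,1),(19,1),
  (5,1),(1,3)]⟩),.k,⟨false,2,⟨1,[(3,1),(5,3),(22,1),(5,0),(5,0)]⟩,⟨0,[(12,1),(19,0),(5,0),(1,2)]⟩⟩,
  ⟨true,2,⟨1,[(9,2),(18,0),(3,2),(11,0)]⟩,⟨0,[(3,0),(8,1),(25,1),(1,3)]⟩⟩,⟨true,0,⟨0,[(52,0)]⟩,⟨0,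
  []⟩⟩,⟨false,1,⟨7,[(0,5),(15,3),(4,0),(0,0),(21,0),(5,1)]⟩,⟨0,[(2,0)]⟩⟩,⟨false,0,⟨0,[(48,0)]⟩,⟨9,
  [(2,1),(12,3),(5,1),(0,1),(21,0),(5,2)]⟩⟩,⟨true,0,⟨0,[(0,0)]⟩,⟨0,[(7,0),(19,0)]⟩⟩,[]⟩) (.Q [0,0,1,
  0,-1,0,0,0,1,0,0,1] (.p true [0,0,0,0,1] [] (⟨0,[(24,0)]⟩,⟨0,[(23,0)]⟩) .k 0 (⟨0,[]⟩,⟨0,[]⟩) .k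
  .k) (.Q [0,0,0,0,0,-1,0,0,0,0,0,1] (.ed false [1,-1,0,0,1] .k) (.Q [-1,-1,0,2,1,0,1,1,-1,0,1,-1]
  (.p true [0,0,1] [0,0,0,0,1] (⟨0,[(33,0)]⟩,⟨0,[(32,0)]⟩) .k 2 (⟨0,[(26,0)]⟩,⟨0,[(25,0)]⟩) .k (.r
  0 ⟨6,[(14,4),(13,1),(2,1),(10,1),(10,0)]⟩ ⟨3,[(5,1),(5,1),(11,0),(0,0),(5,1),(3,1),(11,0)]⟩)) (.S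
  ⟨1,0,[1,1],[0,0,0,0,1],[1,1,1],(⟨0,[(27,0)]⟩,⟨0,[(26,0)]⟩),⟨0,[(1,0)]⟩,.k,(.r (-1) ⟨2,[(17,0),(6,
  0),(0,0)]⟩ ⟨1,[(31,0),(0,0),(2,1)]⟩),⟨false,0,⟨1,[(31,0),(0,0)]⟩,⟨1,[(52,0),(0,0)]⟩⟩,⟨true,0,⟨0,
  [(55,0)]⟩,⟨0,[]⟩⟩,⟨true,(-1),⟨0,[(35,0),(5,0),(1,0)]⟩,⟨2,[(17,0),(6,0),(0,0)]⟩⟩,⟨false,0,⟨0,[(51,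
  0)]⟩,⟨9,[(5,1),(12,3),(5,1),(0,1),(21,0),(5,2)]⟩⟩,[.e ⟨false,0,⟨0,[(55,0)]⟩,⟨1,[(52,0),(0,0)]⟩⟩
  ⟨false,0,⟨0,[(44,0)]⟩,⟨1,[(24,0),(0,0),(27,0)]⟩⟩,.o ⟨false,0,⟨1,[(2,1),(44,0),(4,0)]⟩,⟨16,[(0,3),
  (2,2),(4,1),(2,0),(11,0),(0,12),(6,1),(4,2),(4,1),(5,1)]⟩⟩,.o ⟨false,0,⟨1,[(2,1),(44,0),(4,0)]⟩,
  ⟨0,[(24,0)]⟩⟩,.a ⟨true,(-1),⟨0,[(2,0)]⟩,⟨61,[(0,53),(2,27),(4,1),(3,1),(4,15),(6,7),(15,9),(0,16),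
  (4,16)]⟩⟩ ⟨false,0,⟨0,[]⟩,⟨1,[(24,0),(0,0),(27,0)]⟩⟩ ⟨true,0,⟨0,[(44,0)]⟩,⟨1,[(31,0),(0,0)]⟩⟩]⟩)
  (.R ⟨1,false,false,false,[0,0,0,0,1],[0,1],[],(⟨0,[(27,0)]⟩,⟨0,[(26,0)]⟩),(⟨0,[(39,0)]⟩,⟨0,[(38,
  0)]⟩),⟨0,[(1,0)]⟩,.k,.k,(.r (-1) ⟨2,[(17,0),(6,0),(0,0)]⟩ ⟨1,[(31,0),(0,0),(2,1)]⟩),(.r (-1) ⟨2,
  [(17,0),(6,0),(0,0)]⟩ ⟨1,[(31,0),(0,0),(2,1)]⟩),(.r (-2) ⟨2,[(17,1),(6,1),(0,1)]⟩ ⟨0,[(35,1),(5,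
  0),(1,1)]⟩),.k,⟨true,1,⟨2,[(17,0),(6,0),(0,0)]⟩,⟨0,[(35,0),(5,0),(1,1)]⟩⟩,⟨false,2,⟨0,[(24,0),(27,
  0)]⟩,⟨0,[(2,0)]⟩⟩,⟨false,1,⟨4,[(24,1),(0,1),(27,2),(1,0)]⟩,⟨0,[]⟩⟩,⟨true,1,⟨0,[(24,0),(10,0)]⟩,⟨2,
  [(0,0),(1,1),(9,0),(2,0),(25,0)]⟩⟩,⟨true,0,⟨0,[(35,0)]⟩,⟨0,[(50,0)]⟩⟩,⟨true,1,⟨0,[(24,0),(10,1)]⟩,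
  ⟨4,[(0,2),(1,1),(9,0),(0,2),(17,1),(9,0)]⟩⟩,[.a ⟨true,0,⟨0,[(51,0)]⟩,⟨27,[(6,2),(12,5),(0,10),(15,
  1),(1,1),(7,5),(8,5)]⟩⟩ ⟨false,1,⟨1,[(24,0),(0,0),(26,0)]⟩,⟨0,[]⟩⟩ ⟨true,1,⟨0,[(24,0),(10,0)]⟩,⟨2,
  [(0,0),(1,1),(10,0),(17,0),(11,0)]⟩⟩,.o ⟨false,1,⟨1,[(35,1),(11,0),(5,0)]⟩,⟨0,[(50,0)]⟩⟩,.o
  ⟨false,0,⟨1,[(2,1),(44,0),(4,0)]⟩,⟨0,[(24,0)]⟩⟩,.e ⟨false,1,⟨1,[(52,0),(0,0)]⟩,⟨1,[(31,0),(0,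
  0)]⟩⟩ ⟨false,2,⟨1,[(24,1),(10,1),(16,0),(0,0)]⟩,⟨2,[(0,0),(1,1),(10,0),(17,0),(11,0)]⟩⟩]⟩)) (.Q
  [0,0,1,-1,-1,0,0,0,1,0,0,1] (.p true [0,0,0,0,1] [] (⟨0,[(26,0)]⟩,⟨0,[(25,0)]⟩) .k 0 (⟨0,[]⟩,⟨0,
  []⟩) .k .k) (.R ⟨0,false,false,false,[0,0,0,0,1],[0,1],[],(⟨0,[(27,0)]⟩,⟨0,[(26,0)]⟩),(⟨0,[(39,
  0)]⟩,⟨0,[(38,0)]⟩),⟨0,[(1,0)]⟩,.k,.k,(.r (-1) ⟨2,[(17,0),(6,0),(0,0)]⟩ ⟨1,[(31,0),(0,0),(2,1)]⟩),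
  (.r (-1) ⟨2,[(17,0),(6,0),(0,0)]⟩ ⟨1,[(31,0),(0,0),(2,1)]⟩),.k,.k,⟨true,1,⟨2,[(17,0),(6,0),(0,
  0)]⟩,⟨0,[(35,0),(5,0),(1,1)]⟩⟩,⟨false,2,⟨0,[(24,0),(27,0)]⟩,⟨0,[(2,0)]⟩⟩,⟨false,1,⟨4,[(24,1),(0,
  1),(27,2),(1,0)]⟩,⟨0,[]⟩⟩,⟨true,1,⟨0,[(24,0),(10,0)]⟩,⟨1,[(0,1),(40,0),(10,0)]⟩⟩,⟨false,0,⟨0,[]⟩,
  ⟨0,[]⟩⟩,⟨false,0,⟨0,[]⟩,⟨0,[]⟩⟩,[.a ⟨true,0,⟨0,[(51,0)]⟩,⟨27,[(6,2),(12,5),(0,10),(15,1),(1,1),(7,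
  5),(8,5)]⟩⟩ ⟨false,1,⟨1,[(24,0),(0,0),(26,0)]⟩,⟨0,[]⟩⟩ ⟨true,1,⟨0,[(24,0),(10,0)]⟩,⟨0,[(0,0)]⟩⟩,
  .o ⟨false,1,⟨1,[(35,1),(11,0),(5,0)]⟩,⟨0,[(50,0)]⟩⟩,.o ⟨false,0,⟨1,[(2,1),(44,0),(4,0)]⟩,⟨0,[(24,
  0)]⟩⟩,.e ⟨false,1,⟨1,[(52,0),(0,0)]⟩,⟨1,[(31,0),(0,0)]⟩⟩ ⟨false,2,⟨1,[(24,1),(10,1),(16,0),(0,
  0)]⟩,⟨0,[(0,0)]⟩⟩]⟩) (.Q [0,0,0,0,1,0,1,0,-1,0,1,-1] (.p true [0,0,1] [0,0,0,0,1] (⟨0,[(34,0)]⟩,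
  ⟨0,[(33,0)]⟩) .k 2 (⟨0,[(27,0)]⟩,⟨0,[(26,0)]⟩) .k (.r 0 ⟨6,[(15,4),(13,1),(2,1),(10,1),(10,0)]⟩
  ⟨11,[(0,3),(5,5),(5,3),(11,0),(0,4),(5,7),(15,2)]⟩)) (.K ⟨0,[0,0,0,0,1],(-1),(-1),(⟨0,[(28,0)]⟩,
  ⟨0,[(27,0)]⟩),.k,(.r (-1) ⟨2,[(18,0),(6,0),(0,0)]⟩ ⟨1,[(32,0),(0,0),(2,1)]⟩),(.r 0 ⟨1,[(32,0),(0,
  0),(2,1)]⟩ ⟨14,[(18,4),(6,1),(0,1),(27,2),(1,5)]⟩),.k,.k,[⟨0,[(0,0)]⟩,⟨0,[(3,0)]⟩,⟨0,[(25,0),(30,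
  0)]⟩,⟨1,[(3,1),(38,0),(10,0)]⟩]⟩) (.R ⟨1,true,false,false,[1,-1],[1,0,0,0,-1],[0,0,-1,-1],(⟨0,
  [(39,0)]⟩,⟨0,[(40,0)]⟩),(⟨0,[(27,0)]⟩,⟨0,[(28,0)]⟩),⟨1,[(12,0),(11,0),(14,0)]⟩,.k,.k,(.r (-2) ⟨2,
  [(18,1),(6,1),(0,1)]⟩ ⟨0,[(36,1),(5,0),(1,1)]⟩),(.r (-1) ⟨2,[(18,0),(6,0),(0,0)]⟩ ⟨1,[(32,0),(0,
  0),(2,1)]⟩),(.r (-2) ⟨2,[(18,1),(6,1),(0,1)]⟩ ⟨0,[(36,1),(5,0),(1,1)]⟩),.k,⟨true,1,⟨2,[(18,0),(6,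
  0),(0,0)]⟩,⟨0,[(36,0),(5,0),(1,1)]⟩⟩,⟨false,2,⟨2,[(1,2),(16,0),(6,0),(0,0)]⟩,⟨0,[(3,0)]⟩⟩,⟨false,
  1,⟨1,[(25,0),(0,0),(27,0)]⟩,⟨0,[]⟩⟩,⟨true,1,⟨3,[(1,3),(30,0),(0,0),(21,1)]⟩,⟨0,[(0,0),(12,0),(28,
  0),(1,0)]⟩⟩,⟨true,0,⟨0,[(52,0)]⟩,⟨0,[(51,0)]⟩⟩,⟨false,1,⟨0,[(1,0),(34,0),(7,0)]⟩,⟨20,[(3,17),(0,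
  3),(12,3),(0,5),(0,3),(6,2),(21,1)]⟩⟩,[]⟩)))) (.I [3,0,1,1,0,0,0,-1] (.I [0,0,1,0,1,1,1,0,-2] (.N
  [0,-1,1,0,-2] 0 ⟨0,[(8,0)]⟩ ⟨0,[(1,0)]⟩ (.x (-1) ⟨0,[(0,0)]⟩ ⟨0,[(9,1),(1,0),(0,0),(22,0),(5,0),
  (1,1),(1,0)]⟩)) (.I [0,0,-1,0,1,0,0,0,-1] (.C [(0,1),(0,0),(10,1),(0,0),(10,0),(11,0),(5,1),(1,3),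
  (1,1)]) (.C [(0,0),(2,0),(24,0)]))) (.Q [0,0,0,0,0,1,0,0,0,0,0,-1] (.ed true [1,-1,0,0,1] .k) (.Q
  [-1,0,0,0,0,0,0,0,-1,1,0,-1] (.p false [0,0,0,0,1] [1] (⟨0,[(27,0)]⟩,⟨0,[(26,0)]⟩) .k 1 (⟨0,[]⟩,
  ⟨0,[]⟩) .k .k) (.Q [0,0,0,-1,0,0,0,0,1,0,0,1] (.p true [0,0,0,0,1] [] (⟨0,[(28,0)]⟩,⟨0,[(27,0)]⟩)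
  .k 0 (⟨0,[]⟩,⟨0,[]⟩) .k .k) (.R ⟨0,false,false,true,[0,0,0,0,1],[0,1],[1,1,1],(⟨0,[(29,0)]⟩,⟨0,
  [(28,0)]⟩),(⟨0,[(41,0)]⟩,⟨0,[(40,0)]⟩),⟨0,[(2,0)]⟩,.k,.k,(.r (-1) ⟨2,[(19,0),(6,0),(0,0)]⟩ ⟨1,
  [(33,0),(0,0),(2,1)]⟩),(.r (-1) ⟨2,[(19,0),(6,0),(0,0)]⟩ ⟨1,[(33,0),(0,0),(2,1)]⟩),.k,.k,⟨false,1,
  ⟨2,[(19,0),(6,0),(0,0)]⟩,⟨0,[(53,0)]⟩⟩,⟨true,1,⟨0,[(4,0)]⟩,⟨1,[(0,0),(26,0),(9,0),(5,1),(1,3)]⟩⟩,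
  ⟨false,0,⟨1,[(33,0),(0,0)]⟩,⟨1,[(54,0),(0,0)]⟩⟩,⟨true,0,⟨1,[(1,1),(35,1),(1,0),(3,0)]⟩,⟨0,[(0,
  0)]⟩⟩,⟨false,0,⟨0,[]⟩,⟨0,[]⟩⟩,⟨false,0,⟨0,[]⟩,⟨0,[]⟩⟩,[.o ⟨false,0,⟨1,[(37,1),(5,0),(5,0)]⟩,⟨9,
  [(7,1),(12,3),(5,1),(0,1),(21,0),(5,2)]⟩⟩,.e ⟨false,0,⟨0,[]⟩,⟨1,[(26,0),(0,0),(26,0)]⟩⟩ ⟨false,1,
  ⟨0,[(4,0),(32,0)]⟩,⟨0,[(0,0)]⟩⟩,.a ⟨true,0,⟨0,[(27,0)]⟩,⟨0,[(1,0)]⟩⟩ ⟨false,0,⟨1,[(33,0),(0,0)]⟩,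
  ⟨1,[(54,0),(0,0)]⟩⟩ ⟨true,0,⟨1,[(1,1),(35,1),(5,0),(5,0)]⟩,⟨0,[(0,0)]⟩⟩,.o ⟨false,0,⟨1,[(27,1),
  (15,0),(1,1),(3,0)]⟩,⟨0,[(4,0)]⟩⟩]⟩) (.Q [1,0,0,-1,0,0,0,0,1,0,0,1] (.p true [0,0,0,0,1] [] (⟨0,
  [(29,0)]⟩,⟨0,[(28,0)]⟩) .k 0 (⟨0,[]⟩,⟨0,[]⟩) .k .k) (.R ⟨0,false,false,true,[0,0,0,0,1],[0,1],[1,
  1,1],(⟨0,[(30,0)]⟩,⟨0,[(29,0)]⟩),(⟨0,[(42,0)]⟩,⟨0,[(41,0)]⟩),⟨0,[(3,0)]⟩,.k,.k,(.r (-1) ⟨2,[(20,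
  0),(6,0),(0,0)]⟩ ⟨1,[(34,0),(0,0),(2,1)]⟩),(.r (-1) ⟨2,[(20,0),(6,0),(0,0)]⟩ ⟨1,[(34,0),(0,0),(2,
  1)]⟩),.k,.k,⟨false,1,⟨2,[(20,0),(6,0),(0,0)]⟩,⟨0,[(54,0)]⟩⟩,⟨true,1,⟨0,[(5,0)]⟩,⟨0,[(0,0),(37,0),
  (5,0),(1,1)]⟩⟩,⟨false,0,⟨1,[(34,0),(0,0)]⟩,⟨1,[(55,0),(0,0)]⟩⟩,⟨true,0,⟨0,[(1,0),(56,0)]⟩,⟨0,[(0,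
  0)]⟩⟩,⟨false,0,⟨0,[]⟩,⟨0,[]⟩⟩,⟨false,0,⟨0,[]⟩,⟨0,[]⟩⟩,[.o ⟨false,0,⟨1,[(38,1),(5,0),(5,0)]⟩,⟨9,
  [(8,1),(12,3),(5,1),(0,1),(21,0),(5,2)]⟩⟩,.a ⟨true,0,⟨0,[(54,0)]⟩,⟨27,[(9,2),(12,5),(0,10),(15,1),
  (1,1),(7,5),(8,5)]⟩⟩ ⟨false,0,⟨0,[]⟩,⟨1,[(27,0),(0,0),(26,0)]⟩⟩ ⟨true,0,⟨0,[(1,0)]⟩,⟨3,[(0,3),(33,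
  0),(0,0),(21,1)]⟩⟩,.e ⟨false,0,⟨1,[(34,0),(0,0)]⟩,⟨1,[(55,0),(0,0)]⟩⟩ ⟨false,0,⟨0,[(1,0)]⟩,⟨9,[(8,
  1),(12,3),(5,1),(0,11),(21,0),(5,2)]⟩⟩,.o ⟨false,0,⟨1,[(28,1),(15,0),(1,1),(3,0)]⟩,⟨0,[(5,
  0)]⟩⟩]⟩) (.I [-1,0,0,1,0,0,0,0,-1] (.C [(0,0),(12,0),(1,0),(0,0),(28,0),(1,1),(1,0)]) (.C [(0,0),
  (0,0),(29,0)])))) (.Q [0,0,0,0,0,0,0,0,1,-1,0,1] (.p true [0,0,0,0,1] [1] (⟨0,[(28,0)]⟩,⟨0,[(27,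
  0)]⟩) .k 1 (⟨0,[]⟩,⟨0,[]⟩) .k .k) (.R ⟨2,true,false,false,[0,1],[0,0,0,0,1],[1,0,1],(⟨0,[]⟩,⟨0,
  []⟩),(⟨0,[(29,0)]⟩,⟨0,[(28,0)]⟩),⟨0,[]⟩,.k,.k,.k,(.r 0 ⟨1,[(33,0),(0,0),(2,1)]⟩ ⟨2,[(19,0),(6,0),
  (0,0)]⟩),.k,.k,⟨true,0,⟨1,[(33,0),(0,0)]⟩,⟨0,[]⟩⟩,⟨false,0,⟨0,[(27,0)]⟩,⟨0,[(4,0)]⟩⟩,⟨false,1,⟨9,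
  [(7,1),(12,3),(5,1),(0,1),(21,0),(5,2)]⟩,⟨0,[(53,0)]⟩⟩,⟨true,0,⟨1,[(0,0),(21,0),(4,0)]⟩,⟨0,[(4,0),
  (32,0),(5,0),(1,0)]⟩⟩,⟨true,0,⟨0,[]⟩,⟨0,[(57,0)]⟩⟩,⟨false,0,⟨1,[(0,1),(47,0),(6,0)]⟩,⟨1,[(4,0),
  (21,0),(29,0)]⟩⟩,[]⟩) (.S ⟨1,0,[-1],[1,0,0,0,-1],[0,1,0,-1],(⟨0,[(28,0)]⟩,⟨0,[(29,0)]⟩),⟨1,[(2,0),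
  (10,0),(11,0),(2,0)]⟩,.k,(.r (-1) ⟨14,[(19,4),(6,1),(0,1),(27,2),(1,5)]⟩ ⟨1,[(33,0),(0,0),(2,
  1)]⟩),⟨true,0,⟨0,[(52,0)]⟩,⟨0,[(53,0)]⟩⟩,⟨false,1,⟨1,[(26,0),(0,0),(27,0)]⟩,⟨0,[]⟩⟩,⟨false,0,⟨0,
  []⟩,⟨1,[(26,0),(0,0),(27,0)]⟩⟩,⟨true,0,⟨0,[(53,0)]⟩,⟨0,[(52,0)]⟩⟩,[.o ⟨false,1,⟨1,[(4,0),(21,0),
  (29,0)]⟩,⟨0,[(1,0)]⟩⟩,.o ⟨false,1,⟨1,[(0,1),(48,0),(5,0)]⟩,⟨1,[(27,1),(15,0),(5,0)]⟩⟩,.a ⟨true,0,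
  ⟨0,[(0,0)]⟩,⟨0,[(27,0)]⟩⟩ ⟨true,0,⟨0,[(52,0)]⟩,⟨0,[(37,0)]⟩⟩ ⟨false,1,⟨4,[(26,1),(0,1),(27,2),(1,
  0)]⟩,⟨0,[]⟩⟩,.o ⟨false,0,⟨1,[(0,1),(42,0),(1,1),(3,0)]⟩,⟨1,[(27,1),(21,0),(4,0)]⟩⟩]⟩))) (.Q [-1,0,
  0,0,0,0,0,0,-1,1,0,-1] (.p false [0,0,0,0,1] [1] (⟨0,[(27,0)]⟩,⟨0,[(26,0)]⟩) .k 1 (⟨0,[]⟩,⟨0,[]⟩)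
  .k .k) (.S ⟨1,0,[1,1],[0,0,0,0,1],[],(⟨0,[(28,0)]⟩,⟨0,[(27,0)]⟩),⟨0,[(1,0)]⟩,.k,(.r (-1) ⟨2,[(18,
  0),(6,0),(0,0)]⟩ ⟨1,[(32,0),(0,0),(2,1)]⟩),⟨false,1,⟨4,[(25,1),(0,1),(27,2),(1,0)]⟩,⟨0,[]⟩⟩,⟨true,
  0,⟨0,[(56,0)]⟩,⟨0,[]⟩⟩,⟨true,0,⟨0,[(36,0)]⟩,⟨0,[(51,0)]⟩⟩,⟨false,0,⟨0,[(52,0)]⟩,⟨9,[(6,1),(12,3),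
  (5,1),(0,1),(21,0),(5,2)]⟩⟩,[.o ⟨false,0,⟨1,[(26,1),(15,0),(5,0)]⟩,⟨3,[(0,1),(2,1),(40,1),(3,0),
  (5,0)]⟩⟩,.a ⟨true,0,⟨0,[(26,0)]⟩,⟨0,[(0,0)]⟩⟩ ⟨false,1,⟨1,[(53,0),(0,0)]⟩,⟨0,[(56,0)]⟩⟩ ⟨true,0,
  ⟨0,[]⟩,⟨1,[(32,0),(0,0)]⟩⟩,.e ⟨false,1,⟨1,[(25,0),(0,0),(27,0)]⟩,⟨0,[]⟩⟩ ⟨false,0,⟨0,[]⟩,⟨1,[(25,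
  0),(0,0),(27,0)]⟩⟩,.o ⟨false,0,⟨1,[(26,1),(15,0),(1,1),(3,0)]⟩,⟨0,[(3,0)]⟩⟩]⟩) (.Q [1,-1,0,0,0,0,
  0,0,1,0,0,1] (.p true [0,0,0,0,1] [] (⟨0,[(28,0)]⟩,⟨0,[(27,0)]⟩) .k 0 (⟨0,[]⟩,⟨0,[]⟩) .k .k) (.R
  ⟨2,true,false,false,[0,1],[0,0,0,0,1],[1,1],(⟨0,[]⟩,⟨0,[]⟩),(⟨0,[(29,0)]⟩,⟨0,[(28,0)]⟩),⟨0,[]⟩,.k,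
  .k,.k,(.r 0 ⟨1,[(33,0),(0,0),(2,1)]⟩ ⟨2,[(19,0),(6,0),(0,0)]⟩),.k,.k,⟨true,0,⟨0,[(57,0)]⟩,⟨0,[(51,
  0)]⟩⟩,⟨false,0,⟨0,[(27,0)]⟩,⟨0,[(4,0)]⟩⟩,⟨false,1,⟨2,[(19,0),(6,0),(0,0)]⟩,⟨0,[(37,0),(7,0)]⟩⟩,
  ⟨true,0,⟨3,[(0,0),(0,0),(10,0),(5,0),(8,1)]⟩,⟨0,[(4,0),(32,0),(5,0),(1,0)]⟩⟩,⟨true,0,⟨0,[(46,0)]⟩,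
  ⟨1,[(33,0),(0,0)]⟩⟩,⟨false,0,⟨0,[(0,0)]⟩,⟨1,[(4,0),(21,0),(29,0)]⟩⟩,[]⟩) (.S ⟨1,0,[1],[0,0,0,0,1],
  [1,1],(⟨0,[(29,0)]⟩,⟨0,[(28,0)]⟩),⟨0,[(2,0)]⟩,.k,(.r (-1) ⟨2,[(19,0),(6,0),(0,0)]⟩ ⟨1,[(33,0),(0,
  0),(2,1)]⟩),⟨true,0,⟨0,[(57,0)]⟩,⟨0,[]⟩⟩,⟨false,1,⟨1,[(26,0),(0,0),(27,0)]⟩,⟨0,[]⟩⟩,⟨false,0,⟨0,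
  [(53,0)]⟩,⟨9,[(7,1),(12,3),(5,1),(0,1),(21,0),(5,2)]⟩⟩,⟨true,0,⟨0,[(53,0)]⟩,⟨0,[(52,0)]⟩⟩,[.o
  ⟨false,0,⟨0,[(1,0)]⟩,⟨3,[(0,0),(25,2),(28,0),(1,0)]⟩⟩,.o ⟨false,1,⟨1,[(27,1),(21,0),(5,0)]⟩,⟨0,
  [(0,0)]⟩⟩,.a ⟨true,0,⟨0,[(27,0)]⟩,⟨1,[(0,1),(47,0),(6,0)]⟩⟩ ⟨false,0,⟨0,[]⟩,⟨1,[(26,0),(0,0),(27,
  0)]⟩⟩ ⟨true,0,⟨0,[]⟩,⟨0,[(57,0)]⟩⟩,.o ⟨false,0,⟨3,[(1,3),(31,0),(0,0),(21,1)]⟩,⟨0,[(4,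
  0)]⟩⟩]⟩))))))) (.Q [0,0,0,0,0,1,0,0,0,0,0,-1] (.ed true [1,-1,0,0,1] .k) (.Q [0,0,0,0,0,0,0,0,1,
  -1,0,1] (.p true [0,0,0,0,1] [1] (⟨0,[(24,0)]⟩,⟨0,[(23,0)]⟩) .k 1 (⟨0,[]⟩,⟨0,[]⟩) .k .k) (.Q [0,0,
  1,-1,-1,0,0,0,1,0,0,1] (.p true [0,0,0,0,1] [] (⟨0,[(25,0)]⟩,⟨0,[(24,0)]⟩) .k 0 (⟨0,[]⟩,⟨0,[]⟩)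
  .k .k) (.R ⟨0,false,false,false,[0,0,0,0,1],[0,1],[],(⟨0,[(26,0)]⟩,⟨0,[(25,0)]⟩),(⟨0,[(38,0)]⟩,⟨0,
  [(37,0)]⟩),⟨0,[(2,0)]⟩,.k,.k,(.r (-1) ⟨2,[(16,0),(6,0),(0,0)]⟩ ⟨1,[(30,0),(0,0),(2,1)]⟩),(.r (-1)
  ⟨2,[(16,0),(6,0),(0,0)]⟩ ⟨1,[(30,0),(0,0),(2,1)]⟩),.k,.k,⟨true,1,⟨2,[(16,0),(6,0),(0,0)]⟩,⟨0,[(34,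
  0),(5,0),(1,1)]⟩⟩,⟨false,2,⟨0,[(23,0),(27,0)]⟩,⟨0,[(0,0),(33,0)]⟩⟩,⟨false,1,⟨4,[(23,1),(0,1),(27,
  2),(1,0)]⟩,⟨0,[]⟩⟩,⟨true,1,⟨0,[(23,0),(10,0)]⟩,⟨1,[(0,1),(39,0),(10,0)]⟩⟩,⟨false,0,⟨0,[]⟩,⟨0,[]⟩⟩,
  ⟨false,0,⟨0,[]⟩,⟨0,[]⟩⟩,[.a ⟨true,0,⟨0,[(50,0)]⟩,⟨27,[(5,2),(12,5),(0,10),(15,1),(1,1),(7,5),(8,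
  5)]⟩⟩ ⟨false,1,⟨1,[(23,0),(0,0),(26,0)]⟩,⟨0,[]⟩⟩ ⟨true,1,⟨0,[(23,0),(10,0)]⟩,⟨0,[(0,0)]⟩⟩,.o
  ⟨false,1,⟨1,[(34,1),(11,0),(5,0)]⟩,⟨0,[(49,0)]⟩⟩,.o ⟨false,0,⟨0,[(1,0)]⟩,⟨0,[(23,0)]⟩⟩,.e ⟨false,
  1,⟨1,[(51,0),(0,0)]⟩,⟨1,[(30,0),(0,0)]⟩⟩ ⟨false,2,⟨1,[(23,1),(10,1),(16,0),(0,0)]⟩,⟨0,[(0,
  0)]⟩⟩]⟩) (.Q [0,0,0,2,0,0,2,2,0,-1,2] (.p true [0,0,1] [1,0,-1] (⟨0,[(33,0)]⟩,⟨0,[(32,0)]⟩) .k 2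
  (⟨0,[(32,0)]⟩,⟨0,[(33,0)]⟩) .k (.r 1 ⟨0,[(14,1),(25,0),(1,1)]⟩ ⟨5,[(0,3),(4,5),(5,3),(11,0),(0,4),
  (5,7),(15,2)]⟩)) (.R ⟨1,true,false,false,[1,0,-1],[0,1,1],[1,1,0,-1,0,0,0,-1],(⟨0,[(33,0)]⟩,⟨0,
  [(34,0)]⟩),(⟨22,[(24,2),(0,2),(8,22),(1,4),(8,5),(0,2)]⟩,⟨0,[(22,0)]⟩),⟨0,[(22,0)]⟩,.k,.k,.k,(.r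
  (-2) ⟨1,[(6,1),(5,2),(18,0),(3,0),(11,0)]⟩ ⟨1,[(0,0),(14,1),(5,0),(19,1),(1,3)]⟩),(.r (-3) ⟨1,[(6,
  1),(5,3),(11,0),(0,0),(21,0)]⟩ ⟨0,[(15,1),(19,1),(5,1),(1,3)]⟩),.k,⟨false,2,⟨1,[(6,1),(5,3),(28,
  0),(5,0)]⟩,⟨0,[(15,1),(19,1),(5,0),(1,2)]⟩⟩,⟨true,2,⟨1,[(12,2),(18,0),(3,2),(11,0)]⟩,⟨0,[(6,0),(8,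
  1),(25,1),(1,3)]⟩⟩,⟨true,0,⟨0,[(50,0)]⟩,⟨0,[(51,0)]⟩⟩,⟨false,1,⟨7,[(0,5),(18,3),(4,0),(0,0),(21,
  0),(5,1)]⟩,⟨0,[(5,0)]⟩⟩,⟨false,0,⟨0,[]⟩,⟨1,[(24,0),(0,0),(27,0)]⟩⟩,⟨true,0,⟨0,[(0,0)]⟩,⟨0,[(10,0),
  (19,0)]⟩⟩,[]⟩) (.R ⟨0,false,false,false,[0,-1,1],[0,0,0,0,1],[],(⟨0,[(23,0)]⟩,⟨22,[(24,2),(0,2),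
  (7,22),(2,4),(8,5),(0,2)]⟩),(⟨0,[(27,0)]⟩,⟨0,[(26,0)]⟩),⟨2,[(11,1),(21,0),(2,0),(8,2)]⟩,.k,.k,(.r
  (-1) ⟨16,[(13,4),(1,7),(0,1),(0,6),(0,1),(2,1),(25,0)]⟩ ⟨0,[(30,0),(0,0),(3,1),(7,0)]⟩),(.r 0 ⟨0,
  [(8,0)]⟩ ⟨3,[(6,1),(17,2),(0,2),(5,3),(3,3),(11,0)]⟩),.k,.k,⟨false,1,⟨9,[(24,3),(0,3),(26,4),(0,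
  0),(1,1)]⟩,⟨0,[]⟩⟩,⟨true,0,⟨0,[(2,0),(25,0)]⟩,⟨7,[(0,1),(0,13),(2,5),(3,3),(2,3),(0,5),(10,9),(3,
  5),(13,10),(1,21),(3,2)]⟩⟩,⟨false,1,⟨3,[(6,1),(17,0),(0,0),(5,3),(3,3),(11,0),(5,1)]⟩,⟨0,[(13,
  0)]⟩⟩,⟨true,0,⟨1,[(2,0),(3,0),(18,0),(9,1)]⟩,⟨15,[(0,1),(0,21),(2,5),(3,19),(2,3),(0,13),(10,9),
  (3,5),(13,26),(1,37),(3,2)]⟩⟩,⟨false,0,⟨0,[]⟩,⟨0,[]⟩⟩,⟨false,0,⟨0,[]⟩,⟨0,[]⟩⟩,[.o ⟨false,0,⟨0,[(2,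
  0)]⟩,⟨30,[(0,0),(0,3),(6,1),(2,2),(11,2),(0,26),(6,1),(4,8),(4,1),(1,3),(3,1)]⟩⟩,.e ⟨false,1,⟨1,
  [(52,0),(0,0)]⟩,⟨0,[(55,0)]⟩⟩ ⟨false,1,⟨1,[(2,1),(25,1),(23,0),(0,0)]⟩,⟨15,[(0,5),(0,33),(2,17),
  (3,11),(2,11),(0,9),(10,29),(3,17),(13,16),(1,17),(3,8)]⟩⟩,.a ⟨true,0,⟨0,[(31,0)]⟩,⟨0,[(28,0)]⟩⟩
  ⟨false,1,⟨1,[(24,0),(0,0),(27,0)]⟩,⟨0,[]⟩⟩ ⟨true,0,⟨0,[(2,0),(25,0)]⟩,⟨15,[(0,5),(0,33),(2,17),(3,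
  11),(2,11),(0,9),(10,29),(3,17),(13,16),(1,17),(3,8)]⟩⟩,.o ⟨false,0,⟨1,[(31,1),(9,0),(1,1),(3,
  0)]⟩,⟨1,[(28,1),(18,0),(4,0)]⟩⟩]⟩))) (.R ⟨0,false,false,true,[0,0,0,0,1],[0,1],[1,1,1],(⟨0,[(25,
  0)]⟩,⟨0,[(24,0)]⟩),(⟨0,[(37,0)]⟩,⟨0,[(36,0)]⟩),⟨0,[(1,0)]⟩,.k,.k,(.r (-1) ⟨2,[(15,0),(6,0),(0,
  0)]⟩ ⟨1,[(29,0),(0,0),(2,1)]⟩),(.r (-1) ⟨2,[(15,0),(6,0),(0,0)]⟩ ⟨1,[(29,0),(0,0),(2,1)]⟩),.k,.k,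
  ⟨false,1,⟨2,[(15,0),(6,0),(0,0)]⟩,⟨0,[(49,0)]⟩⟩,⟨true,1,⟨1,[(0,1),(34,0),(14,0)]⟩,⟨4,[(2,2),(4,0),
  (1,1),(11,3),(1,0),(1,3),(4,1),(14,0)]⟩⟩,⟨false,0,⟨1,[(29,0),(0,0)]⟩,⟨1,[(50,0),(0,0)]⟩⟩,⟨true,0,
  ⟨1,[(0,1),(32,1),(1,0),(3,0)]⟩,⟨11,[(2,2),(4,0),(0,1),(0,1),(1,1),(3,1),(5,3),(1,7),(1,3),(19,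
  1)]⟩⟩,⟨false,0,⟨0,[]⟩,⟨0,[]⟩⟩,⟨false,0,⟨0,[]⟩,⟨0,[]⟩⟩,[.o ⟨false,0,⟨1,[(33,1),(5,0),(5,0)]⟩,⟨9,
  [(3,1),(12,3),(5,1),(0,1),(21,0),(5,2)]⟩⟩,.e ⟨false,0,⟨0,[]⟩,⟨1,[(22,0),(0,0),(26,0)]⟩⟩ ⟨false,1,
  ⟨1,[(0,1),(32,1),(11,0),(4,0)]⟩,⟨11,[(2,2),(4,0),(0,1),(0,1),(1,1),(3,1),(5,3),(1,7),(1,3),(19,
  1)]⟩⟩,.a ⟨true,0,⟨0,[(23,0)]⟩,⟨0,[(0,0)]⟩⟩ ⟨false,0,⟨1,[(29,0),(0,0)]⟩,⟨1,[(50,0),(0,0)]⟩⟩ ⟨true,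
  0,⟨1,[(0,1),(32,1),(5,0),(5,0)]⟩,⟨11,[(2,2),(4,0),(0,1),(0,1),(1,1),(3,1),(5,3),(1,7),(1,3),(19,
  1)]⟩⟩,.o ⟨false,0,⟨9,[(2,2),(4,0),(1,1),(11,3),(1,5),(1,3),(4,1),(14,5)]⟩,⟨1,[(0,1),(34,0),(14,
  0)]⟩⟩]⟩)) (.R ⟨1,false,false,false,[0,0,0,0,1],[0,1],[],(⟨0,[(24,0)]⟩,⟨0,[(23,0)]⟩),(⟨0,[(36,0)]⟩,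
  ⟨0,[(35,0)]⟩),⟨0,[(0,0)]⟩,.k,.k,(.r (-1) ⟨2,[(14,0),(6,0),(0,0)]⟩ ⟨1,[(28,0),(0,0),(2,1)]⟩),(.r
  (-1) ⟨2,[(14,0),(6,0),(0,0)]⟩ ⟨1,[(28,0),(0,0),(2,1)]⟩),(.r (-2) ⟨2,[(14,1),(6,1),(0,1)]⟩ ⟨0,[(32,
  1),(5,0),(1,1)]⟩),.k,⟨true,1,⟨2,[(14,0),(6,0),(0,0)]⟩,⟨0,[(32,0),(5,0),(1,1)]⟩⟩,⟨false,2,⟨0,[(21,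
  0),(27,0)]⟩,⟨1,[(0,1),(0,0),(4,0)]⟩⟩,⟨false,1,⟨4,[(21,1),(0,1),(27,2),(1,0)]⟩,⟨0,[]⟩⟩,⟨true,1,⟨0,
  [(21,0),(10,0)]⟩,⟨13,[(0,13),(0,9),(0,3),(3,3),(1,1),(0,1),(0,7),(9,7),(17,6),(5,2),(4,7)]⟩⟩,
  ⟨true,0,⟨0,[(32,0)]⟩,⟨0,[(47,0)]⟩⟩,⟨true,1,⟨0,[(21,0),(10,1)]⟩,⟨13,[(0,13),(0,12),(0,7),(3,0),(1,
  3),(0,3),(0,15),(9,15),(17,6),(5,5),(4,8)]⟩⟩,[.a ⟨true,0,⟨0,[(48,0)]⟩,⟨27,[(3,2),(12,5),(0,10),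
  (15,1),(1,1),(7,5),(8,5)]⟩⟩ ⟨false,1,⟨1,[(21,0),(0,0),(26,0)]⟩,⟨0,[]⟩⟩ ⟨true,1,⟨0,[(21,0),(10,
  0)]⟩,⟨13,[(0,13),(0,9),(0,3),(3,3),(1,1),(0,1),(0,7),(9,7),(23,2),(4,0)]⟩⟩,.o ⟨false,1,⟨1,[(32,1),
  (11,0),(5,0)]⟩,⟨0,[(47,0)]⟩⟩,.o ⟨false,0,⟨1,[(0,1),(0,0),(4,0),(37,0),(4,0)]⟩,⟨0,[(21,0)]⟩⟩,.e
  ⟨false,1,⟨1,[(49,0),(0,0)]⟩,⟨1,[(28,0),(0,0)]⟩⟩ ⟨false,2,⟨1,[(21,1),(10,1),(16,0),(0,0)]⟩,⟨13,[(0,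
  13),(0,9),(0,3),(3,3),(1,1),(0,1),(0,7),(9,7),(23,2),(4,0)]⟩⟩]⟩))))) (.Q [0,0,0,0,-1,0,-2,0,0,1,
  -2] (.p false [0,0,1] [1,0,-1] (⟨0,[(27,0)]⟩,⟨0,[(26,0)]⟩) .k 2 (⟨0,[(26,0)]⟩,⟨0,[(27,0)]⟩) .k
  (.r 1 ⟨0,[(8,1),(25,0),(1,1)]⟩ ⟨0,[(5,0),(17,1),(0,0),(3,0),(17,0)]⟩)) (.R ⟨0,false,false,true,[0,
  -1,1],[1,-1,-1],[],(⟨0,[(17,0)]⟩,⟨22,[(18,2),(0,2),(7,22),(2,4),(8,5),(0,2)]⟩),(⟨0,[(16,0)]⟩,⟨22,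
  [(18,2),(0,2),(8,22),(1,4),(8,5),(0,2)]⟩),⟨2,[(5,1),(21,0),(2,0),(8,2)]⟩,.k,.k,(.r (-1) ⟨16,[(7,
  4),(1,7),(0,1),(0,6),(0,1),(2,1),(25,0)]⟩ ⟨0,[(24,0),(0,0),(3,1),(7,0)]⟩),.k,.k,.k,⟨false,0,⟨1,
  [(0,0),(0,0),(7,0),(19,0),(17,0)]⟩,⟨0,[(6,0),(17,0)]⟩⟩,⟨true,(-1),⟨0,[(0,0)]⟩,⟨1,[(6,0),(18,2),(3,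
  0),(11,0)]⟩⟩,⟨false,1,⟨0,[(24,0),(0,0),(3,0),(17,0)]⟩,⟨0,[(7,0)]⟩⟩,⟨true,0,⟨2,[(8,0),(15,4),(4,0),
  (10,0),(6,0)]⟩,⟨0,[(1,0),(5,0)]⟩⟩,⟨false,0,⟨0,[]⟩,⟨0,[]⟩⟩,⟨false,0,⟨0,[]⟩,⟨0,[]⟩⟩,[.o ⟨false,0,⟨3,
  [(4,1),(19,1),(10,0),(5,0)]⟩,⟨3,[(1,2),(7,0),(5,0),(13,0),(11,0),(4,0),(0,1)]⟩⟩,.e ⟨false,1,⟨1,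
  [(46,0),(0,0)]⟩,⟨0,[(49,0)]⟩⟩ ⟨false,1,⟨4,[(0,0),(3,0),(6,0),(10,2),(1,3),(21,1),(0,1)]⟩,⟨0,[(1,
  0)]⟩⟩,.a ⟨true,0,⟨0,[(25,0)]⟩,⟨0,[(22,0)]⟩⟩ ⟨false,1,⟨1,[(18,0),(0,0),(27,0)]⟩,⟨0,[]⟩⟩ ⟨true,0,⟨6,
  [(0,1),(3,1),(6,0),(10,2),(1,4),(9,0)]⟩,⟨0,[(1,0)]⟩⟩,.o ⟨false,0,⟨1,[(25,1),(9,0),(1,1),(3,0)]⟩,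
  ⟨3,[(0,0),(14,0),(25,0),(4,3)]⟩⟩]⟩) (.Q [0,0,-2,0,0,0,-2,0,0,1,-2] (.p false [0,0,1] [1,0,-1] (⟨0,
  [(28,0)]⟩,⟨0,[(27,0)]⟩) .k 2 (⟨0,[(27,0)]⟩,⟨0,[(28,0)]⟩) .k (.r 1 ⟨0,[(9,1),(25,0),(1,1)]⟩ ⟨11,
  [(0,11),(7,1),(9,5),(0,5),(4,21),(4,1),(10,4),(6,10)]⟩)) (.R ⟨0,false,false,true,[0,-1,1],[1,0,
  -1],[],(⟨0,[(18,0)]⟩,⟨22,[(19,2),(0,2),(7,22),(2,4),(8,5),(0,2)]⟩),(⟨0,[(28,0)]⟩,⟨0,[(29,0)]⟩),⟨2,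
  [(6,1),(21,0),(2,0),(8,2)]⟩,.k,.k,(.r (-1) ⟨16,[(8,4),(1,7),(0,1),(0,6),(0,1),(2,1),(25,0)]⟩ ⟨0,
  [(25,0),(0,0),(3,1),(7,0)]⟩),(.r 0 ⟨1,[(2,0),(5,2),(7,0)]⟩ ⟨1,[(1,1),(23,3),(4,1),(7,1),(2,0),(6,
  0)]⟩),.k,.k,⟨true,0,⟨0,[(10,0),(27,0)]⟩,⟨0,[(25,0),(0,0)]⟩⟩,⟨false,0,⟨0,[(0,0)]⟩,⟨1,[(1,1),(24,0),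
  (0,0)]⟩⟩,⟨false,1,⟨0,[(25,0),(0,0),(3,0),(17,0)]⟩,⟨0,[(8,0)]⟩⟩,⟨true,0,⟨1,[(25,3),(4,1),(10,0),(6,
  0)]⟩,⟨1,[(1,0),(0,0),(5,2),(27,0),(1,1)]⟩⟩,⟨false,0,⟨0,[]⟩,⟨0,[]⟩⟩,⟨false,0,⟨0,[]⟩,⟨0,[]⟩⟩,[.o
  ⟨false,0,⟨0,[(25,0)]⟩,⟨2,[(2,0),(7,0),(3,0),(27,0),(5,0)]⟩⟩,.e ⟨false,1,⟨1,[(47,0),(0,0)]⟩,⟨0,
  [(50,0)]⟩⟩ ⟨false,1,⟨1,[(23,1),(1,1),(21,0),(0,0)]⟩,⟨1,[(1,0),(0,0),(5,0),(27,0),(1,1)]⟩⟩,.a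
  ⟨true,0,⟨0,[(26,0)]⟩,⟨0,[(23,0)]⟩⟩ ⟨false,1,⟨1,[(19,0),(0,0),(27,0)]⟩,⟨0,[]⟩⟩ ⟨true,0,⟨0,[(23,0),
  (1,0)]⟩,⟨1,[(1,0),(0,0),(5,0),(27,0),(1,1)]⟩⟩,.o ⟨false,0,⟨1,[(26,1),(9,0),(1,1),(3,0)]⟩,⟨3,[(0,
  0),(15,0),(25,0),(4,2)]⟩⟩]⟩) (.Q [1,0,0,0,0,0,0,0,1,-1,0,1] (.p true [0,0,0,0,1] [1] (⟨0,[(22,
  0)]⟩,⟨0,[(21,0)]⟩) .k 1 (⟨0,[]⟩,⟨0,[]⟩) .k .k) (.Q [0,0,0,0,0,-1,0,0,0,0,0,1] (.ed false [1,-1,0,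
  0,1] .k) (.Q [-1,1,1,0,0,0,1,0,-1,0,1,-1] (.p true [0,0,1] [0,0,0,0,1] (⟨0,[(31,0)]⟩,⟨0,[(30,
  0)]⟩) .k 2 (⟨0,[(24,0)]⟩,⟨0,[(23,0)]⟩) .k (.r 0 ⟨1,[(4,0),(0,0),(12,0)]⟩ ⟨3,[(3,1),(17,0),(0,0),
  (4,3),(15,0),(6,1)]⟩)) (.R ⟨0,false,false,false,[0,-1,1],[0,0,0,0,1],[],(⟨0,[(21,0)]⟩,⟨22,[(22,2),
  (0,2),(7,22),(2,4),(8,5),(0,2)]⟩),(⟨0,[(25,0)]⟩,⟨0,[(24,0)]⟩),⟨2,[(9,1),(21,0),(2,0),(8,2)]⟩,.k,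
  .k,(.r (-1) ⟨16,[(11,4),(1,7),(0,1),(0,6),(0,1),(2,1),(25,0)]⟩ ⟨3,[(3,2),(15,0),(8,3),(4,7),(7,1),
  (2,0),(6,0)]⟩),(.r 0 ⟨0,[(6,0)]⟩ ⟨1,[(22,0),(0,0),(4,1),(0,1),(3,1),(17,0)]⟩),.k,.k,⟨false,1,⟨9,
  [(22,3),(0,3),(26,4),(0,0),(1,1)]⟩,⟨0,[]⟩⟩,⟨true,0,⟨7,[(2,7),(3,0),(1,0),(17,6),(6,2)]⟩,⟨0,[(0,0),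
  (40,0)]⟩⟩,⟨false,1,⟨0,[(28,0),(0,0),(3,0),(17,0)]⟩,⟨0,[(11,0)]⟩⟩,⟨true,0,⟨1,[(2,1),(25,1),(4,1),
  (10,0),(6,0)]⟩,⟨0,[(0,0),(10,0)]⟩⟩,⟨false,0,⟨0,[]⟩,⟨0,[]⟩⟩,⟨false,0,⟨0,[]⟩,⟨0,[]⟩⟩,[.o ⟨false,0,
  ⟨0,[(2,0)]⟩,⟨19,[(0,1),(5,1),(1,1),(13,17),(10,5),(11,0),(5,0)]⟩⟩,.e ⟨false,1,⟨1,[(50,0),(0,0)]⟩,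
  ⟨0,[(53,0)]⟩⟩ ⟨false,1,⟨1,[(2,1),(23,1),(23,0),(0,0)]⟩,⟨0,[(0,0)]⟩⟩,.a ⟨true,0,⟨0,[(29,0)]⟩,⟨0,
  [(26,0)]⟩⟩ ⟨false,1,⟨1,[(22,0),(0,0),(27,0)]⟩,⟨0,[]⟩⟩ ⟨true,0,⟨0,[(2,0),(23,0)]⟩,⟨0,[(0,0)]⟩⟩,.o
  ⟨false,0,⟨5,[(3,3),(26,1),(8,0),(1,1),(3,0)]⟩,⟨1,[(26,1),(18,0),(4,0)]⟩⟩]⟩) (.R ⟨1,false,false,
  false,[0,0,0,0,1],[0,1],[],(⟨0,[(25,0)]⟩,⟨0,[(24,0)]⟩),(⟨0,[(37,0)]⟩,⟨0,[(36,0)]⟩),⟨0,[(1,0)]⟩,.k,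
  .k,(.r (-1) ⟨2,[(15,0),(6,0),(0,0)]⟩ ⟨1,[(3,0),(15,0),(13,1)]⟩),(.r (-1) ⟨2,[(15,0),(6,0),(0,0)]⟩
  ⟨1,[(3,0),(15,0),(13,1)]⟩),(.r (-2) ⟨2,[(15,1),(6,1),(0,1)]⟩ ⟨0,[(33,1),(5,0),(1,1)]⟩),.k,⟨true,1,
  ⟨2,[(15,0),(6,0),(0,0)]⟩,⟨0,[(33,0),(5,0),(1,1)]⟩⟩,⟨false,2,⟨0,[(22,0),(27,0)]⟩,⟨39,[(0,33),(0,5),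
  (1,19),(3,5),(1,5),(24,23),(4,32),(1,31),(2,6),(7,7)]⟩⟩,⟨false,1,⟨4,[(22,1),(0,1),(27,2),(1,0)]⟩,
  ⟨0,[]⟩⟩,⟨true,1,⟨0,[(22,0),(10,0)]⟩,⟨215,[(0,169),(0,5),(1,123),(2,71),(0,5),(0,71),(0,5),(13,39),
  (10,23),(4,192),(4,22)]⟩⟩,⟨true,0,⟨0,[(33,0)]⟩,⟨0,[(48,0)]⟩⟩,⟨true,1,⟨0,[(22,0),(10,1)]⟩,⟨5,[(0,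
  3),(1,1),(0,3),(2,3),(1,3),(30,4),(4,0)]⟩⟩,[.a ⟨true,0,⟨0,[(49,0)]⟩,⟨6,[(10,0),(7,2),(0,0),(9,0),
  (4,0),(1,0),(7,0)]⟩⟩ ⟨false,1,⟨1,[(22,0),(0,0),(26,0)]⟩,⟨0,[]⟩⟩ ⟨true,1,⟨0,[(22,0),(10,0)]⟩,⟨59,
  [(0,53),(0,5),(1,39),(2,19),(0,5),(0,19),(0,5),(24,23),(4,52),(1,51),(2,6),(7,7)]⟩⟩,.o ⟨false,1,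
  ⟨1,[(33,1),(11,0),(5,0)]⟩,⟨0,[(48,0)]⟩⟩,.o ⟨false,0,⟨15,[(0,1),(1,13),(0,1),(2,1),(1,1),(24,5),(5,
  0),(5,0)]⟩,⟨0,[(22,0)]⟩⟩,.e ⟨false,1,⟨1,[(50,0),(0,0)]⟩,⟨1,[(3,0),(15,0)]⟩⟩ ⟨false,2,⟨1,[(22,1),
  (10,1),(16,0),(0,0)]⟩,⟨59,[(0,53),(0,5),(1,39),(2,19),(0,5),(0,19),(0,5),(24,23),(4,52),(1,51),(2,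
  6),(7,7)]⟩⟩]⟩)) (.Q [1,0,-2,0,0,0,-1,0,1,0,-1,1] (.p false [0,0,1] [0,0,0,0,1] (⟨0,[(31,0)]⟩,⟨0,
  [(30,0)]⟩) .k 2 (⟨0,[(24,0)]⟩,⟨0,[(23,0)]⟩) .k (.r 0 ⟨1,[(4,0),(0,0),(12,0)]⟩ ⟨3,[(3,1),(17,0),(0,
  0),(4,3),(15,0),(6,1)]⟩)) (.R ⟨0,false,false,false,[0,0,0,0,1],[0,1],[],(⟨0,[(25,0)]⟩,⟨0,[(24,
  0)]⟩),(⟨0,[(37,0)]⟩,⟨0,[(36,0)]⟩),⟨0,[(1,0)]⟩,.k,.k,(.r (-1) ⟨2,[(15,0),(6,0),(0,0)]⟩ ⟨1,[(3,0),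
  (15,0),(13,1)]⟩),(.r (-1) ⟨2,[(15,0),(6,0),(0,0)]⟩ ⟨1,[(3,0),(15,0),(13,1)]⟩),.k,.k,⟨true,1,⟨2,
  [(15,0),(6,0),(0,0)]⟩,⟨0,[(33,0),(5,0),(1,1)]⟩⟩,⟨false,2,⟨0,[(22,0),(27,0)]⟩,⟨2,[(0,0),(1,1),(0,
  0),(2,0),(1,0),(24,2),(5,1),(1,3),(2,0)]⟩⟩,⟨false,1,⟨4,[(22,1),(0,1),(27,2),(1,0)]⟩,⟨0,[]⟩⟩,⟨true,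
  1,⟨0,[(22,0),(10,0)]⟩,⟨17,[(0,7),(1,9),(0,7),(2,7),(1,7),(24,5),(5,12),(1,7),(2,4)]⟩⟩,⟨false,0,⟨0,
  []⟩,⟨0,[]⟩⟩,⟨false,0,⟨0,[]⟩,⟨0,[]⟩⟩,[.a ⟨true,0,⟨0,[(49,0)]⟩,⟨6,[(10,0),(7,2),(0,0),(9,0),(4,0),
  (1,0),(7,0)]⟩⟩ ⟨false,1,⟨1,[(22,0),(0,0),(26,0)]⟩,⟨0,[]⟩⟩ ⟨true,1,⟨0,[(22,0),(10,0)]⟩,⟨8,[(0,4),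
  (1,3),(0,4),(2,4),(1,4),(24,5),(5,6),(1,13),(2,1)]⟩⟩,.o ⟨false,1,⟨1,[(33,1),(11,0),(5,0)]⟩,⟨0,
  [(48,0)]⟩⟩,.o ⟨false,0,⟨15,[(0,1),(1,13),(0,1),(2,1),(1,1),(24,5),(5,0),(1,1),(3,0)]⟩,⟨0,[(22,
  0)]⟩⟩,.e ⟨false,1,⟨1,[(50,0),(0,0)]⟩,⟨1,[(3,0),(15,0)]⟩⟩ ⟨false,2,⟨1,[(22,1),(10,1),(16,0),(0,
  0)]⟩,⟨8,[(0,4),(1,3),(0,4),(2,4),(1,4),(24,5),(5,6),(1,13),(2,1)]⟩⟩]⟩) (.R ⟨0,false,false,false,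
  [0,-1,1],[0,0,0,0,1],[],(⟨0,[(21,0)]⟩,⟨22,[(22,2),(0,2),(7,22),(2,4),(8,5),(0,2)]⟩),(⟨0,[(25,0)]⟩,
  ⟨0,[(24,0)]⟩),⟨2,[(9,1),(21,0),(2,0),(8,2)]⟩,.k,.k,(.r (-1) ⟨16,[(11,4),(1,7),(0,1),(0,6),(0,1),
  (2,1),(25,0)]⟩ ⟨3,[(3,2),(15,0),(8,3),(4,7),(7,1),(2,0),(6,0)]⟩),(.r 0 ⟨0,[(6,0)]⟩ ⟨1,[(22,0),(0,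
  0),(4,1),(0,1),(3,1),(17,0)]⟩),.k,.k,⟨false,1,⟨9,[(22,3),(0,3),(26,4),(0,0),(1,1)]⟩,⟨0,[]⟩⟩,⟨true,
  0,⟨7,[(2,7),(3,0),(1,0),(17,6),(6,2)]⟩,⟨0,[(0,0)]⟩⟩,⟨false,1,⟨0,[(28,0),(0,0),(3,0),(17,0)]⟩,⟨0,
  [(11,0)]⟩⟩,⟨true,0,⟨1,[(2,1),(25,1),(4,1),(10,0),(6,0)]⟩,⟨1,[(0,1),(10,1),(27,0),(10,0)]⟩⟩,⟨false,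
  0,⟨0,[]⟩,⟨0,[]⟩⟩,⟨false,0,⟨0,[]⟩,⟨0,[]⟩⟩,[.o ⟨false,0,⟨0,[(2,0)]⟩,⟨19,[(0,1),(5,1),(1,1),(13,17),
  (10,5),(11,0),(4,0)]⟩⟩,.e ⟨false,1,⟨1,[(50,0),(0,0)]⟩,⟨0,[(53,0)]⟩⟩ ⟨false,1,⟨1,[(2,1),(23,1),(23,
  0),(0,0)]⟩,⟨1,[(0,1),(38,0),(10,0)]⟩⟩,.a ⟨true,0,⟨0,[(29,0)]⟩,⟨0,[(26,0)]⟩⟩ ⟨false,1,⟨1,[(22,0),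
  (0,0),(27,0)]⟩,⟨0,[]⟩⟩ ⟨true,0,⟨0,[(2,0),(23,0)]⟩,⟨1,[(0,1),(38,0),(10,0)]⟩⟩,.o ⟨false,0,⟨5,[(3,
  3),(26,1),(8,0),(1,1),(3,0)]⟩,⟨1,[(26,1),(18,0),(4,0)]⟩⟩]⟩))) (.Q [0,0,0,0,0,1,0,0,0,0,0,-1] (.ed
  true [1,-1,0,0,1] .k) (.R ⟨0,false,false,true,[0,0,0,0,1],[0,1],[1,1,1],(⟨0,[(24,0)]⟩,⟨0,[(23,
  0)]⟩),(⟨0,[(36,0)]⟩,⟨0,[(35,0)]⟩),⟨0,[(0,0)]⟩,.k,.k,(.r (-1) ⟨2,[(14,0),(6,0),(0,0)]⟩ ⟨1,[(2,0),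
  (15,0),(13,1)]⟩),(.r (-1) ⟨2,[(14,0),(6,0),(0,0)]⟩ ⟨1,[(2,0),(15,0),(13,1)]⟩),.k,.k,⟨false,1,⟨2,
  [(14,0),(6,0),(0,0)]⟩,⟨0,[(48,0)]⟩⟩,⟨true,1,⟨1,[(1,1),(32,0),(14,0)]⟩,⟨7,[(2,0),(3,1),(1,1),(13,
  5),(1,1),(8,2),(4,7),(1,15),(1,0)]⟩⟩,⟨false,0,⟨1,[(2,0),(15,0)]⟩,⟨1,[(49,0),(0,0)]⟩⟩,⟨true,0,⟨1,
  [(1,1),(30,1),(1,0),(3,0)]⟩,⟨2,[(2,0),(3,0),(0,0),(0,0),(1,0),(11,1),(1,0),(17,0)]⟩⟩,⟨false,0,⟨0,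
  []⟩,⟨0,[]⟩⟩,⟨false,0,⟨0,[]⟩,⟨0,[]⟩⟩,[.o ⟨false,0,⟨1,[(32,1),(5,0),(5,0)]⟩,⟨1,[(15,0),(11,0),(22,
  0)]⟩⟩,.e ⟨false,0,⟨0,[]⟩,⟨1,[(21,0),(0,0),(26,0)]⟩⟩ ⟨false,1,⟨1,[(1,1),(30,1),(11,0),(4,0)]⟩,⟨2,
  [(2,0),(3,0),(0,0),(0,0),(1,0),(11,1),(1,0),(17,0)]⟩⟩,.a ⟨true,0,⟨0,[(22,0)]⟩,⟨0,[(1,0)]⟩⟩ ⟨false,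
  0,⟨1,[(2,0),(15,0)]⟩,⟨1,[(49,0),(0,0)]⟩⟩ ⟨true,0,⟨1,[(1,1),(30,1),(5,0),(5,0)]⟩,⟨2,[(2,0),(3,0),
  (0,0),(0,0),(1,0),(11,1),(1,0),(17,0)]⟩⟩,.o ⟨false,0,⟨1,[(22,1),(15,0),(1,1),(3,0)]⟩,⟨1,[(1,1),
  (32,0),(14,0)]⟩⟩]⟩) (.S ⟨1,0,[1,1],[0,0,0,0,1],[],(⟨0,[(24,0)]⟩,⟨0,[(23,0)]⟩),⟨0,[(0,0)]⟩,.k,(.r
  (-1) ⟨2,[(14,0),(6,0),(0,0)]⟩ ⟨1,[(2,0),(15,0),(13,1)]⟩),⟨false,1,⟨4,[(21,1),(0,1),(27,2),(1,0)]⟩,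
  ⟨0,[]⟩⟩,⟨true,0,⟨0,[(52,0)]⟩,⟨0,[]⟩⟩,⟨true,0,⟨0,[(32,0)]⟩,⟨0,[(47,0)]⟩⟩,⟨false,0,⟨0,[(48,0)]⟩,⟨1,
  [(15,0),(11,0),(22,0)]⟩⟩,[.o ⟨false,0,⟨1,[(22,1),(15,0),(5,0)]⟩,⟨1,[(1,1),(32,0),(15,0)]⟩⟩,.a
  ⟨true,0,⟨0,[(22,0)]⟩,⟨0,[(1,0)]⟩⟩ ⟨false,1,⟨1,[(49,0),(0,0)]⟩,⟨0,[(52,0)]⟩⟩ ⟨true,0,⟨0,[]⟩,⟨1,[(2,
  0),(15,0)]⟩⟩,.e ⟨false,1,⟨1,[(21,0),(0,0),(27,0)]⟩,⟨0,[]⟩⟩ ⟨false,0,⟨0,[]⟩,⟨1,[(21,0),(0,0),(27,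
  0)]⟩⟩,.o ⟨false,0,⟨1,[(22,1),(15,0),(1,1),(3,0)]⟩,⟨1,[(1,1),(32,0),(14,0)]⟩⟩]⟩)))))))))

theorem ok8 : chk K t8 r9 = true := by decide +kernel

noncomputable def t11 : Tre :=
  (.S ⟨1,0,[0,0,0,0,0,0,0,1],[0,0,1],[1,1,1],(⟨0,[(21,0)]⟩,⟨0,[(20,0)]⟩),⟨0,[(10,0)]⟩,.k,.k,⟨true,0,
  ⟨0,[(0,0),(36,0)]⟩,⟨0,[(2,0)]⟩⟩,⟨false,1,⟨1,[(11,0),(0,0),(27,0)]⟩,⟨0,[]⟩⟩,⟨false,0,⟨0,[(0,0)]⟩,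
  ⟨33,[(2,21),(1,3),(0,9),(0,1),(1,5),(25,2),(5,10)]⟩⟩,⟨true,0,⟨0,[(38,0)]⟩,⟨0,[(37,0)]⟩⟩,[.e
  ⟨false,0,⟨0,[(42,0)]⟩,⟨1,[(39,0),(0,0)]⟩⟩ ⟨false,0,⟨0,[(2,0)]⟩,⟨2,[(0,2),(3,0),(6,0),(0,0)]⟩⟩,.o
  ⟨false,1,⟨1,[(2,1),(15,1),(15,0),(5,0)]⟩,⟨0,[(17,0)]⟩⟩,.o ⟨false,1,⟨1,[(18,1),(15,0),(4,0)]⟩,⟨0,
  [(2,0),(14,0),(12,0)]⟩⟩,.a ⟨true,0,⟨0,[(18,0)]⟩,⟨0,[(15,0)]⟩⟩ ⟨false,0,⟨0,[]⟩,⟨1,[(11,0),(0,0),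
  (27,0)]⟩⟩ ⟨true,0,⟨0,[(2,0)]⟩,⟨0,[(0,0),(36,0)]⟩⟩]⟩)

theorem ok11 : chk K t11 r7 = true := by decide +kernel

noncomputable def t14 : Tre :=
  (.R ⟨2,true,false,false,[0,1],[0,1,1],[0,1,1,1],(⟨0,[]⟩,⟨0,[]⟩),(⟨22,[(12,2),(0,2),(8,22),(1,4),
  (8,5),(0,2)]⟩,⟨0,[(10,0)]⟩),⟨0,[]⟩,.k,.k,.k,.k,.k,.k,⟨true,0,⟨1,[(2,1),(16,1),(9,1),(5,0),(4,0)]⟩,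
  ⟨0,[(1,0),(29,0)]⟩⟩,⟨false,1,⟨0,[(19,0),(20,0)]⟩,⟨1,[(16,1),(12,0),(1,1),(3,0)]⟩⟩,⟨true,0,⟨0,[(43,
  0)]⟩,⟨0,[]⟩⟩,⟨false,1,⟨3,[(0,1),(6,1),(4,0),(0,0),(27,0)]⟩,⟨1,[(2,1),(26,0),(5,0)]⟩⟩,⟨false,0,⟨0,
  [(39,0)]⟩,⟨23,[(3,5),(1,3),(0,5),(5,0),(0,0),(6,5),(20,8)]⟩⟩,⟨true,0,⟨0,[(0,0)]⟩,⟨1,[(2,0),(5,0),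
  (9,0),(10,0),(5,0)]⟩⟩,[]⟩)

theorem ok14 : chk K t14 l12 = true := by decide +kernel

noncomputable def t15 : Tre :=
  (.Q [0,0,0,0,0,2,0,0,0,-1,1] (.p true [0,0,1] [1] (⟨0,[(23,0)]⟩,⟨0,[(22,0)]⟩) .k 1 (⟨0,[]⟩,⟨0,
  []⟩) .k .k) (.R ⟨0,false,false,true,[1,-1,-1],[1,-1],[],(⟨0,[(12,0)]⟩,⟨4,[(0,1),(13,0),(0,0),(8,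
  2),(1,0),(9,0)]⟩),(⟨0,[(28,0)]⟩,⟨0,[(29,0)]⟩),⟨0,[(0,0)]⟩,.k,.k,(.r (-2) ⟨5,[(5,5),(1,3),(6,0),(0,
  0),(26,2)]⟩ ⟨0,[(3,0),(21,1),(5,0),(1,1)]⟩),.k,.k,.k,⟨true,0,⟨0,[(25,0),(7,0)]⟩,⟨0,[(40,0)]⟩⟩,
  ⟨false,1,⟨0,[(21,0),(20,0)]⟩,⟨1,[(18,1),(12,0),(1,1),(3,0)]⟩⟩,⟨false,0,⟨0,[(3,0),(21,0),(7,0)]⟩,
  ⟨1,[(1,0),(0,0),(2,0),(36,1)]⟩⟩,⟨true,0,⟨0,[(19,0)]⟩,⟨0,[(2,0),(22,0)]⟩⟩,⟨false,0,⟨0,[]⟩,⟨0,[]⟩⟩,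
  ⟨false,0,⟨0,[]⟩,⟨0,[]⟩⟩,[.o ⟨false,0,⟨0,[(40,0)]⟩,⟨1,[(25,1),(11,0),(5,0)]⟩⟩,.a ⟨true,0,⟨5,[(10,
  2),(3,0),(0,0),(10,0),(1,0),(7,0)]⟩,⟨0,[(41,0)]⟩⟩ ⟨false,1,⟨1,[(42,0),(0,0)]⟩,⟨0,[(45,0)]⟩⟩ ⟨true,
  1,⟨0,[(1,0),(40,0)]⟩,⟨1,[(18,1),(6,1),(5,2),(1,5),(3,0)]⟩⟩,.e ⟨false,1,⟨1,[(14,0),(0,0),(27,0)]⟩,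
  ⟨0,[]⟩⟩ ⟨false,1,⟨0,[(1,0),(40,0)]⟩,⟨1,[(18,1),(6,1),(5,0),(1,3),(3,0)]⟩⟩,.o ⟨false,(-1),⟨3,[(2,
  1),(0,1),(14,1),(6,1),(5,4),(1,9),(3,0)]⟩,⟨1,[(21,1),(15,0),(4,2)]⟩⟩]⟩) (.Q [0,1,0,2,0,0,1,1,0,-1,
  1] (.p true [0,0,1] [1] (⟨0,[(24,0)]⟩,⟨0,[(23,0)]⟩) .k 1 (⟨0,[]⟩,⟨0,[]⟩) .k .k) (.Q [0,-1,0,-1,0,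
  0,-1,-1,0,1,-1] (.p false [0,0,1] [1] (⟨0,[(25,0)]⟩,⟨0,[(24,0)]⟩) .k 1 (⟨0,[]⟩,⟨0,[]⟩) .k .k) (.R
  ⟨1,true,false,true,[1,0,-1],[0,1],[1,1,0,-1,0,0,0,-1],(⟨0,[(25,0)]⟩,⟨0,[(26,0)]⟩),(⟨0,[(31,0)]⟩,
  ⟨0,[(30,0)]⟩),⟨0,[(14,0)]⟩,.k,.k,.k,.k,(.r (-2) ⟨5,[(7,5),(1,3),(6,0),(0,0),(26,2)]⟩ ⟨0,[(5,0),
  (21,1),(5,0),(1,1)]⟩),.k,⟨true,1,⟨0,[(3,0),(0,0),(39,0)]⟩,⟨0,[(5,0),(21,1),(5,0),(1,1)]⟩⟩,⟨false,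
  2,⟨1,[(23,1),(15,0),(4,2)]⟩,⟨1,[(0,0),(4,0),(14,0),(6,0),(5,1),(1,2)]⟩⟩,⟨true,0,⟨0,[(42,0)]⟩,⟨0,
  [(43,0)]⟩⟩,⟨false,1,⟨5,[(1,3),(9,1),(4,1),(0,1),(21,0),(5,0)]⟩,⟨0,[(0,0)]⟩⟩,⟨false,0,⟨0,[]⟩,⟨1,
  [(16,0),(0,0),(27,0)]⟩⟩,⟨true,0,⟨0,[(1,0)]⟩,⟨2,[(0,0),(3,0),(7,1),(9,0)]⟩⟩,[]⟩) (.I [0,0,0,0,1,0,
  0,0,-1] (.I [1,0,0,0,0,3,0,0,1] (.I [1,0,1,-1,0,1,1] (.I [0,0,0,-1,0,-1,-1,-1] (.I [0,1,0,-3] (.I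
  [0,1,0,1,0,-2,1,1] (.C [(0,1),(1,1),(40,1),(0,0),(6,0)]) (.C [(0,0),(5,0),(1,0)])) (.C [(0,0),(8,
  0),(3,0)])) (.C [(0,0),(7,0),(10,0)])) (.C [(0,0),(4,0),(0,0),(33,0)])) (.C [(0,0),(18,0),(0,0),
  (18,0)])) (.C [(0,0),(16,0),(2,0)]))) (.I [1,1,-1,-1,0,0,0,1] (.Q [0,-1,0,2,1,0,1,1,0,-1,1] (.p
  true [0,0,1] [1] (⟨0,[(26,0)]⟩,⟨0,[(25,0)]⟩) .k 1 (⟨0,[]⟩,⟨0,[]⟩) .k .k) (.R ⟨1,true,false,false,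
  [1,0,-1],[0,1],[1,0,0,-1,0,0,0,-1],(⟨0,[(26,0)]⟩,⟨0,[(27,0)]⟩),(⟨0,[(32,0)]⟩,⟨0,[(31,0)]⟩),⟨0,
  [(15,0)]⟩,.k,.k,.k,.k,(.r (-2) ⟨5,[(8,5),(1,3),(6,0),(0,0),(26,2)]⟩ ⟨0,[(6,0),(21,1),(5,0),(1,
  1)]⟩),.k,⟨true,1,⟨0,[(4,0),(0,0),(39,0)]⟩,⟨0,[(6,0),(21,1),(5,0),(1,1)]⟩⟩,⟨false,2,⟨1,[(24,1),(15,
  0),(4,2)]⟩,⟨3,[(2,0),(3,0),(14,2),(6,1),(5,3),(1,6)]⟩⟩,⟨false,1,⟨23,[(8,5),(1,3),(0,5),(5,0),(0,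
  0),(6,5),(20,8)]⟩,⟨0,[(44,0)]⟩⟩,⟨true,1,⟨3,[(0,1),(16,0),(0,0),(3,1),(17,0)]⟩,⟨3,[(2,2),(4,0),(20,
  1),(5,3)]⟩⟩,⟨true,0,⟨0,[]⟩,⟨0,[(48,0)]⟩⟩,⟨false,1,⟨0,[(0,0)]⟩,⟨1,[(2,0),(10,0),(9,0)]⟩⟩,[]⟩) (.I
  [0,0,-2,0,1,-2,-1,0,-1] (.I [3,0,0,0,0,0,0,-1] (.N [0,-2,1,0,1] (-1) ⟨0,[(0,0),(2,1),(44,0)]⟩ ⟨0,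
  [(0,0),(29,1),(5,0),(1,1)]⟩ (.x 0 ⟨7,[(5,7),(14,7),(0,7),(4,7),(4,1),(4,2),(1,5),(1,9),(1,2),(6,
  1)]⟩ ⟨0,[(1,0)]⟩)) (.Q [1,0,0,-1,0,0,0,0,1,0,0,1] (.p true [0,0,0,0,1] [] (⟨0,[(22,0)]⟩,⟨0,[(21,
  0)]⟩) .k 0 (⟨0,[]⟩,⟨0,[]⟩) .k .k) (.Q [0,0,0,0,0,-1,0,0,0,0,0,1] (.ed false [1,-1,0,0,1] .k) (.Q
  [-1,0,0,0,0,0,0,0,-1,1,0,-1] (.p false [0,0,0,0,1] [1] (⟨0,[(24,0)]⟩,⟨0,[(23,0)]⟩) .k 1 (⟨0,[]⟩,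
  ⟨0,[]⟩) .k .k) (.S ⟨1,0,[1,1],[0,0,0,0,1],[],(⟨0,[(25,0)]⟩,⟨0,[(24,0)]⟩),⟨0,[(1,0)]⟩,.k,(.r (-1)
  ⟨2,[(15,0),(6,0),(0,0)]⟩ ⟨1,[(29,0),(0,0),(2,1)]⟩),⟨false,1,⟨4,[(22,1),(0,1),(27,2),(1,0)]⟩,⟨0,
  []⟩⟩,⟨true,0,⟨0,[(53,0)]⟩,⟨0,[]⟩⟩,⟨true,0,⟨0,[(33,0)]⟩,⟨0,[(48,0)]⟩⟩,⟨false,0,⟨0,[(49,0)]⟩,⟨23,
  [(13,5),(1,3),(0,5),(5,0),(0,0),(6,5),(20,8)]⟩⟩,[.o ⟨false,0,⟨1,[(23,1),(15,0),(5,0)]⟩,⟨1,[(0,1),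
  (34,0),(15,0)]⟩⟩,.a ⟨true,0,⟨0,[(23,0)]⟩,⟨0,[(0,0)]⟩⟩ ⟨false,1,⟨1,[(50,0),(0,0)]⟩,⟨0,[(53,0)]⟩⟩
  ⟨true,0,⟨0,[]⟩,⟨1,[(29,0),(0,0)]⟩⟩,.e ⟨false,1,⟨1,[(22,0),(0,0),(27,0)]⟩,⟨0,[]⟩⟩ ⟨false,0,⟨0,[]⟩,
  ⟨1,[(22,0),(0,0),(27,0)]⟩⟩,.o ⟨false,0,⟨1,[(23,1),(15,0),(1,1),(3,0)]⟩,⟨1,[(0,1),(44,0),(4,
  0)]⟩⟩]⟩) (.Q [0,0,1,0,-1,0,0,0,1,0,0,1] (.p true [0,0,0,0,1] [] (⟨0,[(25,0)]⟩,⟨0,[(24,0)]⟩) .k 0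
  (⟨0,[]⟩,⟨0,[]⟩) .k .k) (.S ⟨1,0,[1,1],[0,0,0,0,1],[1,1,1],(⟨0,[(26,0)]⟩,⟨0,[(25,0)]⟩),⟨0,[(2,0)]⟩,
  .k,(.r (-1) ⟨2,[(16,0),(6,0),(0,0)]⟩ ⟨1,[(30,0),(0,0),(2,1)]⟩),⟨false,0,⟨1,[(30,0),(0,0)]⟩,⟨1,
  [(51,0),(0,0)]⟩⟩,⟨true,0,⟨0,[(54,0)]⟩,⟨0,[]⟩⟩,⟨true,(-1),⟨0,[(34,0),(5,0),(1,0)]⟩,⟨2,[(16,0),(6,
  0),(0,0)]⟩⟩,⟨false,0,⟨0,[(50,0)]⟩,⟨23,[(14,5),(1,3),(0,5),(5,0),(0,0),(6,5),(20,8)]⟩⟩,[.e ⟨false,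
  0,⟨0,[(54,0)]⟩,⟨1,[(51,0),(0,0)]⟩⟩ ⟨false,0,⟨0,[(43,0)]⟩,⟨1,[(23,0),(0,0),(27,0)]⟩⟩,.o ⟨false,0,
  ⟨0,[(1,0)]⟩,⟨9,[(5,1),(3,1),(0,1),(12,7),(1,1),(8,1),(0,1),(4,0),(1,1),(1,1),(1,0)]⟩⟩,.o ⟨false,0,
  ⟨3,[(0,1),(0,1),(44,0),(4,0)]⟩,⟨0,[(23,0)]⟩⟩,.a ⟨true,(-1),⟨0,[(0,0)]⟩,⟨11,[(5,1),(3,1),(0,1),(12,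
  9),(1,1),(8,1),(0,1),(8,1),(0,4),(5,4)]⟩⟩ ⟨false,0,⟨0,[]⟩,⟨1,[(23,0),(0,0),(27,0)]⟩⟩ ⟨true,0,⟨0,
  [(43,0)]⟩,⟨1,[(30,0),(0,0)]⟩⟩]⟩) (.R ⟨0,false,false,false,[0,-1,1],[0,0,0,0,1],[],(⟨0,[(22,0)]⟩,
  ⟨22,[(23,2),(0,2),(7,22),(2,4),(8,5),(0,2)]⟩),(⟨0,[(26,0)]⟩,⟨0,[(25,0)]⟩),⟨2,[(9,1),(22,0),(2,0),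
  (8,2)]⟩,.k,.k,(.x 0 ⟨3,[(9,1),(20,4),(0,0),(0,1),(11,3),(8,1)]⟩ ⟨0,[(1,0),(3,0),(19,0)]⟩),(.r
  (-1) ⟨7,[(4,3),(11,1),(1,1),(1,1),(7,1),(7,0),(14,0)]⟩ ⟨0,[(14,0),(19,0)]⟩),.k,.k,⟨false,1,⟨9,
  [(23,3),(0,3),(26,4),(0,0),(1,1)]⟩,⟨0,[]⟩⟩,⟨true,0,⟨14,[(1,14),(2,1),(1,0),(1,0),(18,12),(6,3),
  (16,0)]⟩,⟨1,[(0,1),(9,0),(19,0),(3,0),(5,1),(1,3)]⟩⟩,⟨true,0,⟨0,[(14,0),(19,0)]⟩,⟨0,[(7,0)]⟩⟩,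
  ⟨false,0,⟨0,[(1,0),(11,0),(20,0)]⟩,⟨0,[(0,0),(3,0),(5,0)]⟩⟩,⟨false,0,⟨0,[]⟩,⟨0,[]⟩⟩,⟨false,0,⟨0,
  []⟩,⟨0,[]⟩⟩,[.o ⟨false,0,⟨0,[(1,0)]⟩,⟨1,[(0,0),(22,0),(29,0)]⟩⟩,.e ⟨false,1,⟨1,[(51,0),(0,0)]⟩,⟨0,
  [(54,0)]⟩⟩ ⟨false,1,⟨1,[(1,1),(25,1),(23,0),(0,0)]⟩,⟨0,[(0,0),(9,0),(23,0),(5,0),(1,0)]⟩⟩,.a
  ⟨true,0,⟨0,[(30,0)]⟩,⟨0,[(27,0)]⟩⟩ ⟨false,1,⟨1,[(23,0),(0,0),(27,0)]⟩,⟨0,[]⟩⟩ ⟨true,0,⟨0,[(1,0),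
  (25,0)]⟩,⟨0,[(0,0),(9,0),(23,0),(5,0),(1,0)]⟩⟩,.o ⟨false,0,⟨1,[(30,1),(9,0),(1,1),(3,0)]⟩,⟨1,[(27,
  1),(8,0),(14,0)]⟩⟩]⟩))) (.Q [-1,0,0,2,0,0,0,0,-1,0,0,-1] (.p false [0,0,0,0,1] [] (⟨0,[(24,0)]⟩,
  ⟨0,[(23,0)]⟩) .k 0 (⟨0,[]⟩,⟨0,[]⟩) .k .k) (.R ⟨1,true,false,false,[1,-1],[1,0,0,0,-1],[0,1,-1,-1],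
  (⟨0,[(36,0)]⟩,⟨0,[(37,0)]⟩),(⟨0,[(24,0)]⟩,⟨0,[(25,0)]⟩),⟨1,[(8,0),(12,0),(14,0)]⟩,.k,.k,(.r (-2)
  ⟨2,[(15,1),(6,1),(0,1)]⟩ ⟨0,[(33,1),(5,0),(1,1)]⟩),(.r (-1) ⟨2,[(15,0),(6,0),(0,0)]⟩ ⟨1,[(29,0),
  (0,0),(2,1)]⟩),(.r (-2) ⟨2,[(15,1),(6,1),(0,1)]⟩ ⟨0,[(33,1),(5,0),(1,1)]⟩),.k,⟨false,1,⟨11,[(15,
  3),(6,0),(0,0),(14,5),(11,2)]⟩,⟨0,[(33,0),(7,0)]⟩⟩,⟨true,1,⟨17,[(0,12),(4,1),(9,5),(0,1),(5,4),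
  (22,0)]⟩,⟨0,[(2,0),(30,0),(5,0),(1,1)]⟩⟩,⟨true,0,⟨0,[(53,0)]⟩,⟨0,[]⟩⟩,⟨false,1,⟨1,[(0,0),(21,0),
  (28,0)]⟩,⟨0,[(2,0)]⟩⟩,⟨false,0,⟨0,[(49,0)]⟩,⟨23,[(13,5),(1,3),(0,5),(5,0),(0,0),(6,5),(20,8)]⟩⟩,
  ⟨true,0,⟨0,[(0,0)]⟩,⟨0,[(2,0),(45,0)]⟩⟩,[]⟩) (.R ⟨0,false,false,true,[0,0,0,0,1],[0,1],[1,1,1],
  (⟨0,[(25,0)]⟩,⟨0,[(24,0)]⟩),(⟨0,[(37,0)]⟩,⟨0,[(36,0)]⟩),⟨0,[(1,0)]⟩,.k,.k,(.r (-1) ⟨2,[(15,0),(6,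
  0),(0,0)]⟩ ⟨1,[(29,0),(0,0),(2,1)]⟩),(.r (-1) ⟨2,[(15,0),(6,0),(0,0)]⟩ ⟨1,[(29,0),(0,0),(2,1)]⟩),
  .k,.k,⟨false,1,⟨2,[(15,0),(6,0),(0,0)]⟩,⟨0,[(49,0)]⟩⟩,⟨true,1,⟨0,[(1,0),(2,0),(3,0),(20,0),(13,
  0)]⟩,⟨2,[(0,0),(22,1),(9,1),(5,2),(1,5)]⟩⟩,⟨false,0,⟨1,[(29,0),(0,0)]⟩,⟨1,[(50,0),(0,0)]⟩⟩,⟨true,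
  0,⟨0,[(1,0),(2,0),(3,0),(20,0),(3,0),(5,0),(1,0),(1,0)]⟩,⟨0,[(2,0)]⟩⟩,⟨false,0,⟨0,[]⟩,⟨0,[]⟩⟩,
  ⟨false,0,⟨0,[]⟩,⟨0,[]⟩⟩,[.o ⟨false,0,⟨1,[(33,1),(5,0),(5,0)]⟩,⟨23,[(13,5),(1,3),(0,5),(5,0),(0,0),
  (6,5),(20,8)]⟩⟩,.e ⟨false,0,⟨0,[]⟩,⟨1,[(22,0),(0,0),(26,0)]⟩⟩ ⟨false,1,⟨0,[(1,0),(2,0),(3,0),(20,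
  0),(3,0),(9,0)]⟩,⟨2,[(0,1),(22,0),(9,0)]⟩⟩,.a ⟨true,0,⟨0,[(23,0)]⟩,⟨1,[(1,1),(2,1),(3,1),(0,1),
  (23,1),(5,0),(1,1),(1,1),(0,0)]⟩⟩ ⟨false,0,⟨1,[(29,0),(0,0)]⟩,⟨1,[(50,0),(0,0)]⟩⟩ ⟨true,0,⟨0,[(1,
  0),(2,0),(3,0),(20,0),(3,0),(5,0),(1,0),(1,0)]⟩,⟨2,[(0,1),(22,0),(9,0)]⟩⟩,.o ⟨false,0,⟨1,[(23,1),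
  (15,0),(1,1),(3,0)]⟩,⟨0,[(1,0),(2,0),(3,0),(20,0),(13,0)]⟩⟩]⟩))) (.R ⟨2,true,false,true,[0,1],[0,
  0,0,0,1],[2,1],(⟨0,[]⟩,⟨0,[]⟩),(⟨0,[(23,0)]⟩,⟨0,[(22,0)]⟩),⟨0,[]⟩,.k,.k,.k,(.r 0 ⟨1,[(27,0),(0,0),
  (2,1)]⟩ ⟨2,[(13,0),(6,0),(0,0)]⟩),.k,.k,⟨true,0,⟨0,[]⟩,⟨1,[(27,0),(0,0)]⟩⟩,⟨false,0,⟨0,[(21,0)]⟩,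
  ⟨4,[(0,2),(12,0),(6,1),(27,0)]⟩⟩,⟨false,1,⟨2,[(13,0),(6,0),(0,0)]⟩,⟨0,[(31,0),(7,0)]⟩⟩,⟨true,0,⟨0,
  [(21,0),(24,0)]⟩,⟨0,[(0,0)]⟩⟩,⟨true,0,⟨1,[(37,0),(10,0)]⟩,⟨0,[(50,0)]⟩⟩,⟨false,0,⟨0,[(21,0)]⟩,⟨13,
  [(0,7),(4,1),(8,1),(5,5),(22,0),(5,4)]⟩⟩,[]⟩))) (.Q [0,0,0,0,0,1,0,0,0,0,0,-1] (.ed true [1,-1,0,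
  0,1] .k) (.Q [0,0,1,-1,-1,0,0,0,1,0,0,1] (.p true [0,0,0,0,1] [] (⟨0,[(22,0)]⟩,⟨0,[(21,0)]⟩) .k 0
  (⟨0,[]⟩,⟨0,[]⟩) .k .k) (.R ⟨0,false,false,false,[0,0,0,0,1],[0,1],[],(⟨0,[(23,0)]⟩,⟨0,[(22,0)]⟩),
  (⟨0,[(35,0)]⟩,⟨0,[(34,0)]⟩),⟨0,[(1,0)]⟩,.k,.k,(.r (-1) ⟨2,[(13,0),(6,0),(0,0)]⟩ ⟨1,[(27,0),(0,0),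
  (2,1)]⟩),(.r (-1) ⟨2,[(13,0),(6,0),(0,0)]⟩ ⟨1,[(27,0),(0,0),(2,1)]⟩),.k,.k,⟨true,1,⟨2,[(13,0),(6,
  0),(0,0)]⟩,⟨0,[(31,0),(5,0),(1,1)]⟩⟩,⟨false,2,⟨0,[(20,0),(27,0)]⟩,⟨0,[(0,0),(30,0)]⟩⟩,⟨false,1,⟨4,
  [(20,1),(0,1),(27,2),(1,0)]⟩,⟨0,[]⟩⟩,⟨true,1,⟨0,[(20,0),(10,0)]⟩,⟨1,[(0,1),(36,0),(10,0)]⟩⟩,
  ⟨false,0,⟨0,[]⟩,⟨0,[]⟩⟩,⟨false,0,⟨0,[]⟩,⟨0,[]⟩⟩,[.a ⟨true,0,⟨0,[(47,0)]⟩,⟨5,[(16,2),(3,0),(0,0),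
  (10,0),(1,0),(7,0)]⟩⟩ ⟨false,1,⟨1,[(20,0),(0,0),(26,0)]⟩,⟨0,[]⟩⟩ ⟨true,1,⟨0,[(20,0),(10,0)]⟩,⟨0,
  [(0,0)]⟩⟩,.o ⟨false,1,⟨1,[(31,1),(11,0),(5,0)]⟩,⟨0,[(46,0)]⟩⟩,.o ⟨false,0,⟨1,[(0,1),(30,1),(11,0),
  (4,0)]⟩,⟨0,[(20,0)]⟩⟩,.e ⟨false,1,⟨1,[(48,0),(0,0)]⟩,⟨1,[(27,0),(0,0)]⟩⟩ ⟨false,2,⟨1,[(20,1),(10,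
  1),(16,0),(0,0)]⟩,⟨0,[(0,0)]⟩⟩]⟩) (.Q [0,0,0,0,0,0,0,0,-1,1,0,-1] (.p false [0,0,0,0,1] [1] (⟨0,
  [(23,0)]⟩,⟨0,[(22,0)]⟩) .k 1 (⟨0,[]⟩,⟨0,[]⟩) .k .k) (.Q [0,0,0,-1,0,0,0,0,1,0,0,1] (.p true [0,0,
  0,0,1] [] (⟨0,[(24,0)]⟩,⟨0,[(23,0)]⟩) .k 0 (⟨0,[]⟩,⟨0,[]⟩) .k .k) (.R ⟨0,false,false,true,[0,0,0,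
  0,1],[0,1],[1,1,1],(⟨0,[(25,0)]⟩,⟨0,[(24,0)]⟩),(⟨0,[(37,0)]⟩,⟨0,[(36,0)]⟩),⟨0,[(3,0)]⟩,.k,.k,(.r
  (-1) ⟨2,[(15,0),(6,0),(0,0)]⟩ ⟨1,[(29,0),(0,0),(2,1)]⟩),(.r (-1) ⟨2,[(15,0),(6,0),(0,0)]⟩ ⟨1,[(29,
  0),(0,0),(2,1)]⟩),.k,.k,⟨false,1,⟨2,[(15,0),(6,0),(0,0)]⟩,⟨0,[(49,0)]⟩⟩,⟨true,1,⟨1,[(1,1),(33,0),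
  (14,0)]⟩,⟨1,[(0,0),(22,0),(9,0),(5,1),(1,3)]⟩⟩,⟨false,0,⟨1,[(29,0),(0,0)]⟩,⟨1,[(50,0),(0,0)]⟩⟩,
  ⟨true,0,⟨1,[(1,1),(31,1),(1,0),(3,0)]⟩,⟨0,[(0,0)]⟩⟩,⟨false,0,⟨0,[]⟩,⟨0,[]⟩⟩,⟨false,0,⟨0,[]⟩,⟨0,
  []⟩⟩,[.o ⟨false,0,⟨1,[(33,1),(5,0),(5,0)]⟩,⟨23,[(13,5),(1,3),(0,5),(5,0),(0,0),(6,5),(20,8)]⟩⟩,.e
  ⟨false,0,⟨0,[]⟩,⟨5,[(2,2),(12,0),(6,0),(0,3)]⟩⟩ ⟨false,1,⟨0,[(2,0)]⟩,⟨0,[(0,0)]⟩⟩,.a ⟨true,0,⟨0,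
  [(23,0)]⟩,⟨0,[(1,0)]⟩⟩ ⟨false,0,⟨1,[(29,0),(0,0)]⟩,⟨1,[(50,0),(0,0)]⟩⟩ ⟨true,0,⟨1,[(1,1),(31,1),
  (1,0),(3,0)]⟩,⟨0,[(0,0)]⟩⟩,.o ⟨false,0,⟨1,[(23,1),(15,0),(1,1),(3,0)]⟩,⟨1,[(1,1),(33,0),(14,
  0)]⟩⟩]⟩) (.Q [1,0,0,-1,0,0,0,0,1,0,0,1] (.p true [0,0,0,0,1] [] (⟨0,[(25,0)]⟩,⟨0,[(24,0)]⟩) .k 0
  (⟨0,[]⟩,⟨0,[]⟩) .k .k) (.R ⟨0,false,false,true,[0,0,0,0,1],[0,1],[1,1,1],(⟨0,[(26,0)]⟩,⟨0,[(25,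
  0)]⟩),(⟨0,[(38,0)]⟩,⟨0,[(37,0)]⟩),⟨0,[(4,0)]⟩,.k,.k,(.r (-1) ⟨2,[(16,0),(6,0),(0,0)]⟩ ⟨1,[(30,0),
  (0,0),(2,1)]⟩),(.r (-1) ⟨2,[(16,0),(6,0),(0,0)]⟩ ⟨1,[(30,0),(0,0),(2,1)]⟩),.k,.k,⟨false,1,⟨2,[(16,
  0),(6,0),(0,0)]⟩,⟨0,[(50,0)]⟩⟩,⟨true,1,⟨3,[(1,1),(1,0),(12,0),(6,0)]⟩,⟨0,[(0,0),(33,0),(5,0),(1,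
  1)]⟩⟩,⟨false,0,⟨1,[(30,0),(0,0)]⟩,⟨1,[(51,0),(0,0)]⟩⟩,⟨true,0,⟨0,[(1,0),(52,0)]⟩,⟨0,[(0,0)]⟩⟩,
  ⟨false,0,⟨0,[]⟩,⟨0,[]⟩⟩,⟨false,0,⟨0,[]⟩,⟨0,[]⟩⟩,[.o ⟨false,0,⟨1,[(34,1),(5,0),(5,0)]⟩,⟨23,[(14,5),
  (1,3),(0,5),(5,0),(0,0),(6,5),(20,8)]⟩⟩,.a ⟨true,0,⟨0,[(50,0)]⟩,⟨5,[(19,2),(3,0),(0,0),(10,0),(1,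
  0),(7,0)]⟩⟩ ⟨false,0,⟨0,[]⟩,⟨5,[(3,2),(12,0),(6,0),(0,3)]⟩⟩ ⟨true,0,⟨0,[(1,0)]⟩,⟨2,[(0,1),(9,0),
  (13,0),(6,0),(21,0)]⟩⟩,.e ⟨false,0,⟨1,[(30,0),(0,0)]⟩,⟨1,[(51,0),(0,0)]⟩⟩ ⟨false,0,⟨0,[(1,0)]⟩,
  ⟨23,[(14,5),(1,3),(0,5),(5,0),(0,24),(6,5),(20,8)]⟩⟩,.o ⟨false,0,⟨1,[(24,1),(15,0),(1,1),(3,0)]⟩,
  ⟨3,[(1,1),(1,0),(12,0),(6,0)]⟩⟩]⟩) (.R ⟨2,true,false,true,[0,1],[0,0,0,0,1],[2,1],(⟨0,[]⟩,⟨0,[]⟩),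
  (⟨0,[(26,0)]⟩,⟨0,[(25,0)]⟩),⟨0,[]⟩,.k,.k,.k,(.r 0 ⟨1,[(30,0),(0,0),(2,1)]⟩ ⟨2,[(16,0),(6,0),(0,
  0)]⟩),.k,.k,⟨true,0,⟨0,[]⟩,⟨1,[(30,0),(0,0)]⟩⟩,⟨false,0,⟨0,[(24,0)]⟩,⟨3,[(0,1),(2,0),(12,0),(6,
  0)]⟩⟩,⟨false,1,⟨2,[(16,0),(6,0),(0,0)]⟩,⟨0,[(34,0),(7,0)]⟩⟩,⟨true,0,⟨0,[(24,0),(24,0)]⟩,⟨0,[(0,
  0)]⟩⟩,⟨true,0,⟨1,[(40,0),(10,0)]⟩,⟨0,[(53,0)]⟩⟩,⟨false,0,⟨0,[(24,0)]⟩,⟨13,[(0,7),(7,1),(8,1),(5,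
  5),(22,0),(5,4)]⟩⟩,[]⟩))) (.Q [0,0,-1,0,1,0,0,0,-1,0,0,-1] (.p false [0,0,0,0,1] [] (⟨0,[(24,0)]⟩,
  ⟨0,[(23,0)]⟩) .k 0 (⟨0,[]⟩,⟨0,[]⟩) .k .k) (.R ⟨2,true,false,false,[0,1],[0,0,0,0,1],[1,0,1],(⟨0,
  []⟩,⟨0,[]⟩),(⟨0,[(25,0)]⟩,⟨0,[(24,0)]⟩),⟨0,[]⟩,.k,.k,.k,(.r 0 ⟨1,[(29,0),(0,0),(2,1)]⟩ ⟨2,[(15,0),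
  (6,0),(0,0)]⟩),.k,.k,⟨true,0,⟨1,[(29,0),(0,0)]⟩,⟨0,[]⟩⟩,⟨false,0,⟨0,[(23,0)]⟩,⟨0,[(0,0)]⟩⟩,⟨false,
  1,⟨23,[(13,5),(1,3),(0,5),(5,0),(0,0),(6,5),(20,8)]⟩,⟨0,[(49,0)]⟩⟩,⟨true,0,⟨1,[(1,0),(16,0),(4,
  0)]⟩,⟨0,[(0,0),(32,0),(5,0),(1,0)]⟩⟩,⟨true,0,⟨0,[]⟩,⟨0,[(53,0)]⟩⟩,⟨false,0,⟨1,[(1,1),(42,0),(6,
  0)]⟩,⟨1,[(0,0),(21,0),(29,0)]⟩⟩,[]⟩) (.K ⟨0,[0,0,0,0,1],(-1),(-1),(⟨0,[(25,0)]⟩,⟨0,[(24,0)]⟩),.k,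
  (.r (-1) ⟨2,[(15,0),(6,0),(0,0)]⟩ ⟨1,[(29,0),(0,0),(2,1)]⟩),(.r 0 ⟨1,[(29,0),(0,0),(2,1)]⟩ ⟨14,
  [(15,4),(6,1),(0,1),(27,2),(1,5)]⟩),.k,.k,[⟨0,[(2,0),(6,0)]⟩,⟨0,[(0,0)]⟩,⟨0,[(22,0),(30,0)]⟩,⟨3,
  [(0,1),(0,1),(37,1),(4,0),(5,0)]⟩]⟩)))) (.Q [1,1,0,-2,-1,0,0,0,1,0,0,1] (.p true [0,0,0,0,1] []
  (⟨0,[(22,0)]⟩,⟨0,[(21,0)]⟩) .k 0 (⟨0,[]⟩,⟨0,[]⟩) .k .k) (.R ⟨1,false,false,false,[0,0,0,0,1],[0,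
  1],[],(⟨0,[(23,0)]⟩,⟨0,[(22,0)]⟩),(⟨0,[(35,0)]⟩,⟨0,[(34,0)]⟩),⟨0,[(1,0)]⟩,.k,.k,(.r (-1) ⟨2,[(13,
  0),(6,0),(0,0)]⟩ ⟨1,[(27,0),(0,0),(2,1)]⟩),(.r (-1) ⟨2,[(13,0),(6,0),(0,0)]⟩ ⟨1,[(27,0),(0,0),(2,
  1)]⟩),(.r (-2) ⟨2,[(13,1),(6,1),(0,1)]⟩ ⟨0,[(31,1),(5,0),(1,1)]⟩),.k,⟨true,1,⟨2,[(13,0),(6,0),(0,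
  0)]⟩,⟨0,[(31,0),(5,0),(1,1)]⟩⟩,⟨false,2,⟨0,[(20,0),(27,0)]⟩,⟨0,[(0,0),(30,1),(7,0)]⟩⟩,⟨false,1,⟨4,
  [(20,1),(0,1),(27,2),(1,0)]⟩,⟨0,[]⟩⟩,⟨true,1,⟨0,[(20,0),(10,0)]⟩,⟨0,[(0,0),(30,0)]⟩⟩,⟨true,0,⟨0,
  [(31,0)]⟩,⟨0,[(46,0)]⟩⟩,⟨true,1,⟨0,[(20,0),(10,1)]⟩,⟨0,[(0,0)]⟩⟩,[.a ⟨true,0,⟨0,[(47,0)]⟩,⟨5,[(16,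
  2),(3,0),(0,0),(10,0),(1,0),(7,0)]⟩⟩ ⟨false,1,⟨1,[(20,0),(0,0),(26,0)]⟩,⟨0,[]⟩⟩ ⟨true,1,⟨0,[(20,
  0),(10,0)]⟩,⟨0,[(0,0),(30,0),(7,0)]⟩⟩,.o ⟨false,1,⟨1,[(31,1),(11,0),(5,0)]⟩,⟨0,[(46,0)]⟩⟩,.o
  ⟨false,0,⟨1,[(0,1),(30,3),(11,0),(5,0)]⟩,⟨0,[(20,0)]⟩⟩,.e ⟨false,1,⟨1,[(48,0),(0,0)]⟩,⟨1,[(27,0),
  (0,0)]⟩⟩ ⟨false,2,⟨1,[(20,1),(10,1),(16,0),(0,0)]⟩,⟨0,[(0,0),(30,0),(7,0)]⟩⟩]⟩) (.Q [0,0,-1,0,1,0,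
  0,0,-1,0,0,-1] (.p false [0,0,0,0,1] [] (⟨0,[(23,0)]⟩,⟨0,[(22,0)]⟩) .k 0 (⟨0,[]⟩,⟨0,[]⟩) .k .k)
  (.Q [0,0,0,0,0,0,0,0,1,-1,0,1] (.p true [0,0,0,0,1] [1] (⟨0,[(24,0)]⟩,⟨0,[(23,0)]⟩) .k 1 (⟨0,[]⟩,
  ⟨0,[]⟩) .k .k) (.R ⟨2,true,false,false,[0,1],[0,0,0,0,1],[1,0,1],(⟨0,[]⟩,⟨0,[]⟩),(⟨0,[(25,0)]⟩,⟨0,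
  [(24,0)]⟩),⟨0,[]⟩,.k,.k,.k,(.r 0 ⟨1,[(29,0),(0,0),(2,1)]⟩ ⟨2,[(15,0),(6,0),(0,0)]⟩),.k,.k,⟨true,0,
  ⟨1,[(29,0),(0,0)]⟩,⟨0,[]⟩⟩,⟨false,0,⟨0,[(23,0)]⟩,⟨0,[(1,0)]⟩⟩,⟨false,1,⟨23,[(13,5),(1,3),(0,5),(5,
  0),(0,0),(6,5),(20,8)]⟩,⟨0,[(49,0)]⟩⟩,⟨true,0,⟨1,[(0,0),(17,0),(4,0)]⟩,⟨0,[(1,0),(31,0),(5,0),(1,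
  0)]⟩⟩,⟨true,0,⟨0,[]⟩,⟨0,[(53,0)]⟩⟩,⟨false,0,⟨1,[(0,1),(43,0),(6,0)]⟩,⟨1,[(1,0),(20,0),(29,0)]⟩⟩,
  []⟩) (.R ⟨1,false,false,true,[0,0,0,0,1],[0,1],[1,1,1],(⟨0,[(25,0)]⟩,⟨0,[(24,0)]⟩),(⟨0,[(37,0)]⟩,
  ⟨0,[(36,0)]⟩),⟨0,[(3,0)]⟩,.k,.k,(.r (-1) ⟨2,[(15,0),(6,0),(0,0)]⟩ ⟨1,[(29,0),(0,0),(2,1)]⟩),(.r
  (-1) ⟨2,[(15,0),(6,0),(0,0)]⟩ ⟨1,[(29,0),(0,0),(2,1)]⟩),(.r (-2) ⟨2,[(15,1),(6,1),(0,1)]⟩ ⟨0,[(33,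
  1),(5,0),(1,1)]⟩),.k,⟨false,1,⟨2,[(15,0),(6,0),(0,0)]⟩,⟨0,[(49,0)]⟩⟩,⟨true,1,⟨0,[(1,0)]⟩,⟨11,[(3,
  1),(0,1),(0,1),(5,1),(9,1),(1,9),(9,3),(5,8),(1,19),(3,0)]⟩⟩,⟨false,0,⟨1,[(29,0),(0,0)]⟩,⟨1,[(50,
  0),(0,0)]⟩⟩,⟨true,0,⟨7,[(0,5),(1,1),(30,3),(5,4),(5,2)]⟩,⟨5,[(3,1),(0,1),(1,1),(0,1),(13,1),(1,3),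
  (21,0),(4,0)]⟩⟩,⟨true,(-1),⟨0,[(33,0),(5,0),(1,0)]⟩,⟨2,[(15,0),(6,0),(0,0)]⟩⟩,⟨true,0,⟨7,[(0,1),
  (1,5),(30,3),(5,6),(5,0)]⟩,⟨2,[(3,1),(0,1),(1,1),(0,1),(13,1),(1,0),(21,0),(4,0)]⟩⟩,[.o ⟨false,0,
  ⟨1,[(33,1),(5,0),(5,0)]⟩,⟨23,[(13,5),(1,3),(0,5),(5,0),(0,0),(6,5),(20,8)]⟩⟩,.e ⟨false,0,⟨0,[]⟩,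
  ⟨14,[(2,5),(12,3),(6,0),(0,6),(14,2)]⟩⟩ ⟨false,1,⟨3,[(1,1),(0,1),(36,0),(10,0)]⟩,⟨5,[(3,1),(0,1),
  (1,1),(0,1),(13,1),(1,3),(11,0),(14,0)]⟩⟩,.a ⟨true,0,⟨0,[(23,0)]⟩,⟨0,[(0,0)]⟩⟩ ⟨false,0,⟨1,[(29,
  0),(0,0)]⟩,⟨1,[(50,0),(0,0)]⟩⟩ ⟨true,0,⟨3,[(0,1),(1,1),(36,2),(5,0)]⟩,⟨5,[(3,1),(0,1),(1,1),(0,1),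
  (13,1),(1,3),(11,0),(14,0)]⟩⟩,.o ⟨false,0,⟨1,[(23,1),(15,0),(1,1),(3,0)]⟩,⟨0,[(1,0)]⟩⟩]⟩)) (.S ⟨1,
  0,[1,1],[0,0,0,0,1],[1,1,1],(⟨0,[(24,0)]⟩,⟨0,[(23,0)]⟩),⟨0,[(2,0)]⟩,.k,(.r (-1) ⟨2,[(14,0),(6,0),
  (0,0)]⟩ ⟨1,[(28,0),(0,0),(2,1)]⟩),⟨false,0,⟨1,[(28,0),(0,0)]⟩,⟨1,[(49,0),(0,0)]⟩⟩,⟨true,0,⟨0,[(52,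
  0)]⟩,⟨0,[]⟩⟩,⟨true,(-1),⟨2,[(0,0),(0,0),(30,0),(5,2),(1,1)]⟩,⟨2,[(14,0),(6,0),(0,0)]⟩⟩,⟨false,0,
  ⟨0,[(48,0)]⟩,⟨23,[(12,5),(1,3),(0,5),(5,0),(0,0),(6,5),(20,8)]⟩⟩,[.e ⟨false,0,⟨0,[(52,0)]⟩,⟨1,
  [(49,0),(0,0)]⟩⟩ ⟨false,0,⟨0,[(41,0)]⟩,⟨1,[(21,0),(0,0),(27,0)]⟩⟩,.o ⟨false,0,⟨1,[(0,1),(43,0),(4,
  0)]⟩,⟨11,[(1,1),(2,0),(2,0),(5,0),(6,0),(0,9),(11,2),(10,0)]⟩⟩,.o ⟨false,0,⟨1,[(0,1),(43,0),(4,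
  0)]⟩,⟨0,[(21,0)]⟩⟩,.a ⟨true,(-1),⟨0,[(0,0)]⟩,⟨64,[(1,51),(2,8),(8,8),(0,15),(2,9),(3,12),(15,16),
  (5,22)]⟩⟩ ⟨false,0,⟨0,[]⟩,⟨1,[(21,0),(0,0),(27,0)]⟩⟩ ⟨true,0,⟨0,[(41,0)]⟩,⟨1,[(28,0),(0,
  0)]⟩⟩]⟩)))))) (.S ⟨1,0,[0,0,1,1,0,0,0,-1],[1,1,-1],[],(⟨22,[(16,2),(0,2),(7,22),(2,4),(8,5),(0,
  2)]⟩,⟨0,[(15,0)]⟩),⟨0,[(25,0)]⟩,.k,.k,⟨true,1,⟨7,[(5,3),(3,1),(1,1),(1,1),(7,1),(17,0),(4,0)]⟩,⟨0,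
  [(0,0),(32,0)]⟩⟩,⟨false,1,⟨1,[(16,0),(0,0),(27,0)]⟩,⟨0,[]⟩⟩,⟨false,1,⟨1,[(5,1),(38,0),(0,0)]⟩,⟨0,
  [(7,0)]⟩⟩,⟨true,0,⟨0,[(43,0)]⟩,⟨0,[(42,0)]⟩⟩,[.o ⟨false,0,⟨0,[(4,0),(22,1)]⟩,⟨1,[(10,0),(10,0),
  (17,0)]⟩⟩,.a ⟨true,0,⟨0,[(0,0),(19,0)]⟩,⟨1,[(8,0),(12,0)]⟩⟩ ⟨false,1,⟨1,[(44,0),(0,0)]⟩,⟨0,[(47,
  0)]⟩⟩ ⟨true,0,⟨0,[(0,0)]⟩,⟨11,[(5,5),(2,5),(4,1),(10,1),(7,1),(0,0),(5,0)]⟩⟩,.e ⟨false,1,⟨1,[(16,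
  0),(0,0),(27,0)]⟩,⟨0,[]⟩⟩ ⟨false,0,⟨0,[(0,0)]⟩,⟨7,[(5,3),(3,1),(1,1),(1,1),(7,1),(17,0),(4,0)]⟩⟩,
  .o ⟨false,0,⟨1,[(20,1),(12,0),(1,1),(3,0)]⟩,⟨1,[(23,1),(15,0),(4,0)]⟩⟩]⟩))))

theorem ok15 : chk K t15 l13 = true := by decide +kernel

noncomputable def t16 : Tre :=
  (.Q [0,0,0,0,0,2,0,0,0,-1,1] (.p true [0,0,1] [1] (⟨0,[(24,0)]⟩,⟨0,[(23,0)]⟩) .k 1 (⟨0,[]⟩,⟨0,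
  []⟩) .k .k) (.R ⟨0,false,false,true,[1,-1,-1],[1,-1],[],(⟨0,[(13,0)]⟩,⟨4,[(0,1),(14,0),(0,0),(8,
  2),(1,0),(9,0)]⟩),(⟨0,[(29,0)]⟩,⟨0,[(30,0)]⟩),⟨0,[(0,0)]⟩,.k,.k,(.r (-2) ⟨3,[(1,1),(4,1),(1,1),
  (12,1),(21,0),(0,0)]⟩ ⟨0,[(4,0),(21,1),(5,0),(1,1)]⟩),.k,.k,.k,⟨true,0,⟨0,[(26,0),(7,0)]⟩,⟨0,[(41,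
  0)]⟩⟩,⟨false,1,⟨0,[(1,0),(24,0)]⟩,⟨2,[(2,0),(0,0),(0,0),(18,0)]⟩⟩,⟨false,0,⟨0,[(4,0),(21,0),(7,
  0)]⟩,⟨1,[(1,0),(1,0),(2,0),(36,0)]⟩⟩,⟨true,0,⟨0,[(20,0)]⟩,⟨1,[(2,0),(0,0),(2,0)]⟩⟩,⟨false,0,⟨0,
  []⟩,⟨0,[]⟩⟩,⟨false,0,⟨0,[]⟩,⟨0,[]⟩⟩,[.o ⟨false,0,⟨0,[(41,0)]⟩,⟨1,[(26,1),(11,0),(5,0)]⟩⟩,.a ⟨true,
  0,⟨6,[(1,0),(9,2),(0,0),(9,0),(4,0),(1,0),(7,0)]⟩,⟨0,[(42,0)]⟩⟩ ⟨false,1,⟨1,[(43,0),(0,0)]⟩,⟨0,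
  [(46,0)]⟩⟩ ⟨true,1,⟨0,[(1,0)]⟩,⟨1,[(2,0),(20,0),(2,0),(5,1),(1,3)]⟩⟩,.e ⟨false,1,⟨1,[(15,0),(0,0),
  (27,0)]⟩,⟨0,[]⟩⟩ ⟨false,1,⟨0,[(1,0)]⟩,⟨1,[(2,0),(20,0),(2,0),(7,1)]⟩⟩,.o ⟨false,(-1),⟨1,[(2,0),(0,
  0),(0,0),(27,1),(1,3),(10,0)]⟩,⟨1,[(1,1),(24,1),(11,0),(4,0)]⟩⟩]⟩) (.Q [-2,0,0,1,0,0,0,0,-2,1,0,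
  -2] (.p false [0,0,0,0,1] [1,0,0,0,-1] (⟨0,[(18,0)]⟩,⟨0,[(17,0)]⟩) .k 2 (⟨0,[(17,0)]⟩,⟨0,[(18,
  0)]⟩) .k (.r 0 ⟨0,[]⟩ ⟨4,[(15,2),(0,2),(27,1),(1,3)]⟩)) (.Q [0,0,0,0,0,-1,0,0,0,0,0,1] (.ed false
  [1,-1,0,0,1] .k) (.S ⟨1,0,[1,1],[0,0,0,0,1],[],(⟨0,[(20,0)]⟩,⟨0,[(19,0)]⟩),⟨0,[(0,0)]⟩,.k,(.r
  (-1) ⟨2,[(10,0),(6,0),(0,0)]⟩ ⟨1,[(24,0),(0,0),(2,1)]⟩),⟨false,1,⟨4,[(17,1),(0,1),(27,2),(1,0)]⟩,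
  ⟨0,[]⟩⟩,⟨true,0,⟨0,[(48,0)]⟩,⟨0,[]⟩⟩,⟨true,0,⟨0,[(28,0)]⟩,⟨0,[(43,0)]⟩⟩,⟨false,0,⟨0,[(44,0)]⟩,⟨23,
  [(8,5),(1,3),(0,5),(5,0),(0,0),(6,5),(20,8)]⟩⟩,[.o ⟨false,0,⟨1,[(18,1),(15,0),(5,0)]⟩,⟨15,[(1,5),
  (3,1),(5,1),(5,3),(22,2),(5,6)]⟩⟩,.a ⟨true,0,⟨0,[(18,0)]⟩,⟨30,[(1,13),(11,6),(3,2),(11,3),(1,3),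
  (7,2)]⟩⟩ ⟨false,1,⟨1,[(45,0),(0,0)]⟩,⟨0,[(48,0)]⟩⟩ ⟨true,0,⟨0,[]⟩,⟨1,[(24,0),(0,0)]⟩⟩,.e ⟨false,1,
  ⟨1,[(17,0),(0,0),(27,0)]⟩,⟨0,[]⟩⟩ ⟨false,0,⟨0,[]⟩,⟨1,[(17,0),(0,0),(27,0)]⟩⟩,.o ⟨false,0,⟨1,[(18,
  1),(15,0),(1,1),(3,0)]⟩,⟨15,[(1,5),(8,1),(6,3),(22,2),(4,4)]⟩⟩]⟩) (.Q [0,0,-1,0,0,0,-1,0,1,0,-1,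
  1] (.p false [0,0,1] [0,0,0,0,1] (⟨0,[(27,0)]⟩,⟨0,[(26,0)]⟩) .k 2 (⟨0,[(20,0)]⟩,⟨0,[(19,0)]⟩) .k
  (.r 0 ⟨1,[(4,0),(1,0),(2,0),(18,0),(7,0)]⟩ ⟨1,[(8,1),(8,0),(0,0),(26,0)]⟩)) (.Q [0,0,0,-1,0,0,0,0,
  1,0,0,1] (.p true [0,0,0,0,1] [] (⟨0,[(21,0)]⟩,⟨0,[(20,0)]⟩) .k 0 (⟨0,[]⟩,⟨0,[]⟩) .k .k) (.R ⟨0,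
  false,false,true,[0,0,0,0,1],[0,1],[1,1,1],(⟨0,[(22,0)]⟩,⟨0,[(21,0)]⟩),(⟨0,[(34,0)]⟩,⟨0,[(33,
  0)]⟩),⟨0,[(2,0)]⟩,.k,.k,(.r (-1) ⟨2,[(12,0),(6,0),(0,0)]⟩ ⟨1,[(26,0),(0,0),(2,1)]⟩),(.r (-1) ⟨2,
  [(12,0),(6,0),(0,0)]⟩ ⟨1,[(26,0),(0,0),(2,1)]⟩),.k,.k,⟨false,1,⟨2,[(12,0),(6,0),(0,0)]⟩,⟨0,[(46,
  0)]⟩⟩,⟨true,1,⟨15,[(3,5),(8,1),(6,3),(22,2),(4,4)]⟩,⟨1,[(0,0),(19,0),(9,0),(5,1),(1,3)]⟩⟩,⟨false,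
  0,⟨1,[(26,0),(0,0)]⟩,⟨1,[(47,0),(0,0)]⟩⟩,⟨true,0,⟨3,[(3,1),(26,1),(5,0),(5,0),(7,1)]⟩,⟨0,[(0,
  0)]⟩⟩,⟨false,0,⟨0,[]⟩,⟨0,[]⟩⟩,⟨false,0,⟨0,[]⟩,⟨0,[]⟩⟩,[.o ⟨false,0,⟨1,[(30,1),(5,0),(5,0)]⟩,⟨23,
  [(10,5),(1,3),(0,5),(5,0),(0,0),(6,5),(20,8)]⟩⟩,.e ⟨false,0,⟨0,[]⟩,⟨1,[(19,0),(0,0),(26,0)]⟩⟩
  ⟨false,1,⟨5,[(3,1),(15,1),(10,3),(11,0),(4,2)]⟩,⟨0,[(0,0)]⟩⟩,.a ⟨true,0,⟨0,[(20,0)]⟩,⟨4,[(3,1),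
  (11,0),(3,0),(21,0)]⟩⟩ ⟨false,0,⟨1,[(26,0),(0,0)]⟩,⟨1,[(47,0),(0,0)]⟩⟩ ⟨true,0,⟨3,[(3,1),(26,1),
  (5,0),(5,0),(7,1)]⟩,⟨0,[(0,0)]⟩⟩,.o ⟨false,0,⟨1,[(20,1),(15,0),(1,1),(3,0)]⟩,⟨15,[(3,5),(8,1),(6,
  3),(22,2),(4,4)]⟩⟩]⟩) (.R ⟨1,true,false,false,[1,-1],[1,0,0,0,-1],[0,1,-1,-1],(⟨0,[(33,0)]⟩,⟨0,
  [(34,0)]⟩),(⟨0,[(21,0)]⟩,⟨0,[(22,0)]⟩),⟨1,[(4,0),(13,0),(14,0)]⟩,.k,.k,(.r (-2) ⟨2,[(12,1),(6,1),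
  (0,1)]⟩ ⟨0,[(30,1),(5,0),(1,1)]⟩),(.r (-1) ⟨2,[(12,0),(6,0),(0,0)]⟩ ⟨1,[(26,0),(0,0),(2,1)]⟩),(.r
  (-2) ⟨2,[(12,1),(6,1),(0,1)]⟩ ⟨0,[(30,1),(5,0),(1,1)]⟩),.k,⟨false,1,⟨11,[(12,3),(6,0),(0,0),(14,
  5),(11,2)]⟩,⟨0,[(30,0),(7,0)]⟩⟩,⟨true,1,⟨15,[(3,5),(8,1),(6,3),(22,2),(4,4)]⟩,⟨0,[(1,0),(3,0),(24,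
  0),(5,1),(1,3)]⟩⟩,⟨true,0,⟨0,[(50,0)]⟩,⟨0,[]⟩⟩,⟨false,1,⟨1,[(0,0),(18,0),(10,0),(17,0)]⟩,⟨0,[(1,
  0),(3,0),(30,0),(1,1)]⟩⟩,⟨false,0,⟨0,[(46,0)]⟩,⟨23,[(10,5),(1,3),(0,5),(5,0),(0,0),(6,5),(20,
  8)]⟩⟩,⟨true,0,⟨0,[(0,0),(29,0)]⟩,⟨1,[(7,0),(3,0),(8,1),(24,0)]⟩⟩,[]⟩)) (.Q [-1,0,0,1,0,0,0,0,-1,0,
  0,-1] (.p false [0,0,0,0,1] [] (⟨0,[(21,0)]⟩,⟨0,[(20,0)]⟩) .k 0 (⟨0,[]⟩,⟨0,[]⟩) .k .k) (.R ⟨2,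
  true,false,true,[0,1],[0,0,0,0,1],[2,1],(⟨0,[]⟩,⟨0,[]⟩),(⟨0,[(22,0)]⟩,⟨0,[(21,0)]⟩),⟨0,[]⟩,.k,.k,
  .k,(.r 0 ⟨1,[(26,0),(0,0),(2,1)]⟩ ⟨2,[(12,0),(6,0),(0,0)]⟩),.k,.k,⟨true,0,⟨0,[]⟩,⟨1,[(26,0),(0,
  0)]⟩⟩,⟨false,0,⟨0,[(20,0)]⟩,⟨15,[(3,5),(8,1),(6,3),(22,2),(4,4)]⟩⟩,⟨false,1,⟨2,[(12,0),(6,0),(0,
  0)]⟩,⟨0,[(30,0),(7,0)]⟩⟩,⟨true,0,⟨0,[(20,0),(24,0)]⟩,⟨0,[(0,0)]⟩⟩,⟨true,0,⟨1,[(36,0),(10,0)]⟩,⟨0,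
  [(49,0)]⟩⟩,⟨false,0,⟨0,[(20,0)]⟩,⟨15,[(3,5),(3,1),(5,1),(5,3),(22,2),(5,6)]⟩⟩,[]⟩) (.R ⟨1,true,
  false,false,[1,-1],[1,0,0,0,-1],[0,1,-1,-1],(⟨0,[(33,0)]⟩,⟨0,[(34,0)]⟩),(⟨0,[(21,0)]⟩,⟨0,[(22,
  0)]⟩),⟨1,[(4,0),(13,0),(14,0)]⟩,.k,.k,(.r (-2) ⟨2,[(12,1),(6,1),(0,1)]⟩ ⟨0,[(30,1),(5,0),(1,1)]⟩),
  (.r (-1) ⟨2,[(12,0),(6,0),(0,0)]⟩ ⟨1,[(26,0),(0,0),(2,1)]⟩),(.r (-2) ⟨2,[(12,1),(6,1),(0,1)]⟩ ⟨0,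
  [(30,1),(5,0),(1,1)]⟩),.k,⟨false,1,⟨11,[(12,3),(6,0),(0,0),(14,5),(11,2)]⟩,⟨0,[(30,0),(7,0)]⟩⟩,
  ⟨true,1,⟨15,[(3,5),(8,1),(6,3),(22,2),(4,4)]⟩,⟨0,[(0,0),(29,0),(5,0),(1,1)]⟩⟩,⟨true,0,⟨0,[(50,
  0)]⟩,⟨0,[]⟩⟩,⟨false,1,⟨5,[(3,1),(15,1),(10,3),(11,0),(5,2)]⟩,⟨0,[(0,0)]⟩⟩,⟨false,0,⟨0,[(46,0)]⟩,
  ⟨23,[(10,5),(1,3),(0,5),(5,0),(0,0),(6,5),(20,8)]⟩⟩,⟨true,0,⟨0,[(1,0),(4,0),(23,0)]⟩,⟨0,[(0,0),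
  (44,0)]⟩⟩,[]⟩)))) (.Q [0,1,0,2,0,0,1,1,0,-1,1] (.p true [0,0,1] [1] (⟨0,[(26,0)]⟩,⟨0,[(25,0)]⟩)
  .k 1 (⟨0,[]⟩,⟨0,[]⟩) .k .k) (.Q [0,-1,0,-1,0,0,-1,-1,0,1,-1] (.p false [0,0,1] [1] (⟨0,[(27,0)]⟩,
  ⟨0,[(26,0)]⟩) .k 1 (⟨0,[]⟩,⟨0,[]⟩) .k .k) (.R ⟨1,true,false,true,[1,0,-1],[0,1],[1,1,0,-1,0,0,0,
  -1],(⟨0,[(27,0)]⟩,⟨0,[(28,0)]⟩),(⟨0,[(33,0)]⟩,⟨0,[(32,0)]⟩),⟨0,[(16,0)]⟩,.k,.k,.k,.k,(.r (-2) ⟨3,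
  [(4,1),(4,1),(1,1),(12,1),(21,0),(0,0)]⟩ ⟨15,[(1,8),(3,2),(1,6),(7,2),(13,10),(5,12),(1,34),(2,
  2)]⟩),.k,⟨true,1,⟨0,[(4,0),(1,0)]⟩,⟨15,[(1,8),(3,2),(1,6),(7,2),(13,10),(5,12),(1,34),(2,2)]⟩⟩,
  ⟨false,2,⟨5,[(1,1),(2,3),(4,1),(31,1),(4,4),(0,0)]⟩,⟨39,[(0,12),(2,5),(1,12),(1,12),(7,6),(1,5),
  (12,17),(4,32),(1,52),(2,6)]⟩⟩,⟨true,0,⟨0,[(44,0)]⟩,⟨0,[(45,0)]⟩⟩,⟨false,1,⟨5,[(1,3),(11,1),(4,1),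
  (0,1),(11,0),(15,0)]⟩,⟨0,[(0,0)]⟩⟩,⟨false,0,⟨0,[]⟩,⟨1,[(18,0),(0,0),(27,0)]⟩⟩,⟨true,0,⟨0,[(1,0)]⟩,
  ⟨2,[(0,0),(5,0),(7,1),(9,0)]⟩⟩,[]⟩) (.I [0,0,0,0,1,0,0,0,-1] (.I [0,0,-1,1,0,-1,-1] (.I [0,1,-1,
  -1,0,0,0,1] (.I [0,0,0,-1,0,-1,-1,-1] (.I [0,1,0,-3] (.I [0,0,-1,-2,1,0,0,-1] (.I [1,0,-1,-1,1,1,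
  1] (.I [3,0,0,-1,0,3,0,0,2] (.I [0,1,0,1,0,-2,1,1] (.C [(0,1),(4,1),(42,1),(0,0),(6,0)]) (.C [(0,
  0),(8,0),(2,0)])) (.C [(0,0),(9,0),(17,1),(18,0)])) (.C [(0,0),(9,0),(0,0),(34,0)])) (.C [(0,0),
  (9,0),(1,0)])) (.C [(0,0),(10,0),(3,0)])) (.C [(0,0),(9,0),(10,0)])) (.C [(0,0),(7,0),(4,0)]))
  (.C [(0,0),(6,0),(11,0)])) (.C [(0,0),(18,0),(2,0)]))) (.Q [0,0,0,0,1,0,2,2,0,-1,2] (.p true [0,0,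
  1] [1,0,-1] (⟨0,[(27,0)]⟩,⟨0,[(26,0)]⟩) .k 2 (⟨0,[(26,0)]⟩,⟨0,[(27,0)]⟩) .k (.r 0 ⟨0,[(4,1),(4,1),
  (18,1),(13,1)]⟩ ⟨0,[(8,1),(36,0)]⟩)) (.R ⟨0,false,false,false,[0,-1,1],[1,-1,-1],[],(⟨0,[(17,0)]⟩,
  ⟨22,[(18,2),(0,2),(7,22),(2,4),(8,5),(0,2)]⟩),(⟨0,[(16,0)]⟩,⟨22,[(18,2),(0,2),(8,22),(1,4),(8,5),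
  (0,2)]⟩),⟨2,[(3,1),(23,0),(2,0),(8,2)]⟩,.k,.k,(.x 0 ⟨5,[(25,6),(0,0),(0,5),(7,0),(1,1),(1,3),(1,
  0),(6,1)]⟩ ⟨20,[(3,6),(1,14),(5,4),(3,2),(1,27),(23,4),(4,5)]⟩),.k,.k,.k,⟨false,0,⟨0,[(7,0),(21,
  0)]⟩,⟨1,[(4,0),(1,0),(2,0),(36,0)]⟩⟩,⟨true,(-1),⟨15,[(1,12),(3,16),(1,12),(7,0),(13,8),(5,14),(1,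
  16),(2,0)]⟩,⟨1,[(4,0),(20,2),(3,0),(11,0)]⟩⟩,⟨true,0,⟨0,[(9,0),(19,0)]⟩,⟨0,[(5,0),(4,0)]⟩⟩,⟨false,
  0,⟨1,[(5,0),(0,0),(1,1),(0,0)]⟩,⟨0,[(0,0)]⟩⟩,⟨false,0,⟨0,[]⟩,⟨0,[]⟩⟩,⟨false,0,⟨0,[]⟩,⟨0,[]⟩⟩,[.o
  ⟨false,0,⟨0,[(6,0)]⟩,⟨3,[(0,1),(17,0),(0,0),(9,3),(11,0)]⟩⟩,.a ⟨true,0,⟨1,[(1,0),(6,0)]⟩,⟨0,[(23,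
  0),(5,0)]⟩⟩ ⟨false,1,⟨1,[(46,0),(0,0)]⟩,⟨0,[(49,0)]⟩⟩ ⟨true,0,⟨0,[(1,0),(3,0)]⟩,⟨3,[(0,1),(24,4),
  (0,0),(2,3),(5,2),(1,1),(3,0)]⟩⟩,.e ⟨false,1,⟨1,[(18,0),(0,0),(27,0)]⟩,⟨0,[]⟩⟩ ⟨false,0,⟨0,[(1,0),
  (3,0)]⟩,⟨0,[(0,0),(8,0),(19,0)]⟩⟩,.o ⟨false,0,⟨1,[(25,1),(9,0),(1,1),(3,0)]⟩,⟨6,[(5,2),(5,0),(3,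
  1),(25,0),(4,3)]⟩⟩]⟩) (.Q [0,0,0,1,1,0,2,2,0,-1,2] (.p true [0,0,1] [1,0,-1] (⟨0,[(28,0)]⟩,⟨0,
  [(27,0)]⟩) .k 2 (⟨0,[(27,0)]⟩,⟨0,[(28,0)]⟩) .k (.r 0 ⟨0,[(5,1),(4,1),(18,1),(13,1)]⟩ ⟨0,[(9,1),
  (36,0)]⟩)) (.R ⟨1,true,false,false,[1,0,-1],[0,0,1],[0,1,0,0,0,0,0,-1],(⟨0,[(28,0)]⟩,⟨0,[(29,
  0)]⟩),(⟨0,[(29,0)]⟩,⟨0,[(28,0)]⟩),⟨0,[(17,0)]⟩,.k,.k,.k,.k,(.r (-1) ⟨1,[(1,1),(3,2),(20,0),(3,0),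
  (11,0)]⟩ ⟨5,[(0,1),(7,7),(18,3),(2,3),(5,0),(1,1),(2,0)]⟩),.k,⟨true,0,⟨1,[(1,1),(3,1),(20,1),(3,
  1),(5,0),(5,0)]⟩,⟨0,[(8,1),(29,0)]⟩⟩,⟨false,2,⟨1,[(5,2),(20,0),(3,2),(11,0)]⟩,⟨0,[(1,0),(6,1)]⟩⟩,
  ⟨true,0,⟨0,[(50,0)]⟩,⟨0,[]⟩⟩,⟨false,2,⟨5,[(0,4),(2,0),(9,1),(5,2),(0,0),(27,1)]⟩,⟨0,[(1,0)]⟩⟩,
  ⟨false,0,⟨0,[(46,0)]⟩,⟨26,[(3,0),(6,6),(1,3),(0,6),(2,0),(2,1),(7,4),(20,9)]⟩⟩,⟨true,1,⟨0,[(0,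
  0)]⟩,⟨0,[(1,0),(43,0)]⟩⟩,[]⟩) (.Q [0,0,0,2,1,0,2,2,0,-1,2] (.p true [0,0,1] [1,0,-1] (⟨0,[(29,
  0)]⟩,⟨0,[(28,0)]⟩) .k 2 (⟨0,[(28,0)]⟩,⟨0,[(29,0)]⟩) .k (.r 0 ⟨0,[(6,1),(4,1),(18,1),(13,1)]⟩ ⟨0,
  [(10,1),(36,0)]⟩)) (.R ⟨1,true,false,false,[1,0,-1],[0,1,1],[0,1,0,0,0,0,0,-1],(⟨0,[(29,0)]⟩,⟨0,
  [(30,0)]⟩),(⟨78,[(0,2),(5,5),(4,5),(5,5),(12,78),(1,15),(8,20),(0,8)]⟩,⟨0,[(18,0)]⟩),⟨0,[(18,0)]⟩,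
  .k,.k,.k,(.r (-1) ⟨1,[(2,1),(3,2),(20,0),(3,0),(11,0)]⟩ ⟨5,[(0,1),(8,7),(18,3),(2,1),(5,0),(1,1),
  (2,0)]⟩),(.r (-2) ⟨4,[(2,1),(3,3),(4,5),(1,1),(29,0),(4,2)]⟩ ⟨5,[(0,1),(6,2),(1,7),(18,0),(2,4),
  (5,6),(1,13),(2,0)]⟩),.k,⟨false,1,⟨1,[(2,1),(3,3),(24,1),(5,0),(5,0)]⟩,⟨6,[(0,1),(6,2),(1,9),(18,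
  0),(8,0),(1,8),(2,0)]⟩⟩,⟨true,2,⟨1,[(6,2),(20,0),(3,2),(11,0)]⟩,⟨1,[(1,0),(0,0),(6,3),(21,0),(5,
  1),(1,3)]⟩⟩,⟨true,0,⟨0,[(51,0)]⟩,⟨0,[]⟩⟩,⟨false,2,⟨5,[(0,4),(3,0),(9,0),(0,0),(4,2),(0,0),(27,
  1)]⟩,⟨0,[(1,0)]⟩⟩,⟨false,0,⟨0,[(47,0)]⟩,⟨26,[(4,0),(6,6),(1,3),(0,6),(2,0),(2,1),(7,4),(20,9)]⟩⟩,
  ⟨true,1,⟨0,[(0,0)]⟩,⟨0,[(1,0),(44,0)]⟩⟩,[]⟩) (.Q [-1,-1,0,0,1,0,0,0,-1,0,0,-1] (.p false [0,0,0,0,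
  1] [] (⟨0,[(23,0)]⟩,⟨0,[(22,0)]⟩) .k 0 (⟨0,[]⟩,⟨0,[]⟩) .k .k) (.Q [0,0,0,0,0,1,0,0,0,-1,0,1] (.ed
  false [0,1,0,0,1] .k) (.R ⟨0,false,false,false,[1,0,0,0,-1],[1,0,-1],[],(⟨0,[(24,0)]⟩,⟨0,[(25,
  0)]⟩),(⟨0,[(31,0)]⟩,⟨0,[(32,0)]⟩),⟨0,[(0,0)]⟩,.k,.k,(.r (-1) ⟨14,[(15,4),(6,1),(0,1),(27,2),(1,
  5)]⟩ ⟨1,[(29,0),(0,0),(2,1)]⟩),.k,.k,.k,⟨true,0,⟨0,[(9,0),(4,0),(18,0),(13,0)]⟩,⟨0,[(13,0)]⟩⟩,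
  ⟨false,0,⟨27,[(2,0),(3,13),(0,2),(1,15),(1,1),(9,2),(4,9),(7,8),(15,0)]⟩,⟨1,[(1,1),(6,0),(20,0),
  (3,0),(5,0)]⟩⟩,⟨true,0,⟨0,[]⟩,⟨0,[(53,0)]⟩⟩,⟨false,0,⟨1,[(4,0),(1,0),(26,0),(17,0)]⟩,⟨0,[(1,0),
  (25,0)]⟩⟩,⟨false,0,⟨0,[]⟩,⟨0,[]⟩⟩,⟨false,0,⟨0,[]⟩,⟨0,[]⟩⟩,[.o ⟨false,0,⟨5,[(4,1),(23,1),(16,0),(5,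
  0)]⟩,⟨1,[(17,0),(9,0),(5,0),(11,0)]⟩⟩,.a ⟨true,0,⟨0,[(12,0)]⟩,⟨0,[(27,0)]⟩⟩ ⟨false,1,⟨1,[(50,0),
  (0,0)]⟩,⟨0,[(53,0)]⟩⟩ ⟨true,0,⟨1,[(4,0),(1,0),(26,0),(17,0)]⟩,⟨0,[(1,0),(9,0),(17,0),(9,0)]⟩⟩,.e
  ⟨false,1,⟨1,[(22,0),(0,0),(27,0)]⟩,⟨0,[]⟩⟩ ⟨false,0,⟨1,[(4,0),(1,0),(26,0),(17,0)]⟩,⟨0,[(1,0),(25,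
  0)]⟩⟩,.o ⟨false,0,⟨0,[(1,0),(37,0),(1,0)]⟩,⟨1,[(23,1),(21,0),(4,0)]⟩⟩]⟩) (.Q [0,0,0,0,0,1,0,0,0,0,
  0,-1] (.ed true [1,-1,0,0,1] .k) (.Q [0,0,0,0,0,0,0,0,-1,1,0,-1] (.p false [0,0,0,0,1] [1] (⟨0,
  [(26,0)]⟩,⟨0,[(25,0)]⟩) .k 1 (⟨0,[]⟩,⟨0,[]⟩) .k .k) (.R ⟨0,false,false,true,[0,0,0,0,1],[0,1],[1,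
  1,1],(⟨0,[(27,0)]⟩,⟨0,[(26,0)]⟩),(⟨0,[(39,0)]⟩,⟨0,[(38,0)]⟩),⟨0,[(1,0)]⟩,.k,.k,(.r (-1) ⟨2,[(17,
  0),(6,0),(0,0)]⟩ ⟨1,[(31,0),(0,0),(2,1)]⟩),(.r (-1) ⟨2,[(17,0),(6,0),(0,0)]⟩ ⟨1,[(31,0),(0,0),(2,
  1)]⟩),.k,.k,⟨false,1,⟨2,[(17,0),(6,0),(0,0)]⟩,⟨0,[(51,0)]⟩⟩,⟨true,1,⟨1,[(0,1),(36,0),(14,0)]⟩,⟨47,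
  [(4,1),(3,23),(7,3),(18,35),(5,34),(1,73),(2,10),(7,21)]⟩⟩,⟨false,0,⟨1,[(31,0),(0,0)]⟩,⟨1,[(52,0),
  (0,0)]⟩⟩,⟨true,0,⟨1,[(0,1),(34,1),(1,0),(3,0)]⟩,⟨2,[(8,0),(11,0),(4,0)]⟩⟩,⟨false,0,⟨0,[]⟩,⟨0,[]⟩⟩,
  ⟨false,0,⟨0,[]⟩,⟨0,[]⟩⟩,[.o ⟨false,0,⟨1,[(35,1),(5,0),(5,0)]⟩,⟨26,[(8,0),(6,6),(1,3),(0,6),(2,0),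
  (2,1),(7,4),(20,9)]⟩⟩,.e ⟨false,0,⟨0,[]⟩,⟨1,[(24,0),(0,0),(26,0)]⟩⟩ ⟨false,1,⟨1,[(0,1),(34,1),(11,
  0),(4,0)]⟩,⟨22,[(8,8),(0,1),(10,6),(2,1),(1,4),(10,5)]⟩⟩,.a ⟨true,0,⟨0,[(25,0)]⟩,⟨0,[(0,0)]⟩⟩
  ⟨false,0,⟨1,[(31,0),(0,0)]⟩,⟨1,[(52,0),(0,0)]⟩⟩ ⟨true,0,⟨1,[(0,1),(34,1),(1,0),(3,0)]⟩,⟨22,[(8,8),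
  (0,1),(10,6),(2,1),(1,4),(10,5)]⟩⟩,.o ⟨false,0,⟨3,[(8,1),(22,0),(0,0),(2,1),(5,0),(1,1),(3,0)]⟩,
  ⟨1,[(0,1),(36,0),(14,0)]⟩⟩]⟩) (.R ⟨2,true,false,false,[0,1],[0,0,0,0,1],[1,0,1],(⟨0,[]⟩,⟨0,[]⟩),
  (⟨0,[(27,0)]⟩,⟨0,[(26,0)]⟩),⟨0,[]⟩,.k,.k,.k,(.r 0 ⟨1,[(31,0),(0,0),(2,1)]⟩ ⟨2,[(17,0),(6,0),(0,
  0)]⟩),.k,.k,⟨true,0,⟨1,[(31,0),(0,0)]⟩,⟨0,[]⟩⟩,⟨false,0,⟨0,[(25,0)]⟩,⟨1,[(3,1),(37,0),(10,0)]⟩⟩,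
  ⟨false,1,⟨26,[(8,0),(6,6),(1,3),(0,6),(2,0),(2,1),(7,4),(20,9)]⟩,⟨0,[(51,0)]⟩⟩,⟨true,0,⟨2,[(8,0),
  (11,0),(4,0)]⟩,⟨0,[(3,0),(31,0),(5,0)]⟩⟩,⟨true,0,⟨0,[]⟩,⟨0,[(55,0)]⟩⟩,⟨false,0,⟨1,[(0,1),(45,0),
  (6,0)]⟩,⟨2,[(3,0),(20,1),(30,0)]⟩⟩,[]⟩)) (.Q [-1,0,0,0,0,0,0,0,-1,1,0,-1] (.p false [0,0,0,0,1]
  [1] (⟨0,[(26,0)]⟩,⟨0,[(25,0)]⟩) .k 1 (⟨0,[]⟩,⟨0,[]⟩) .k .k) (.S ⟨1,0,[1,1],[0,0,0,0,1],[],(⟨0,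
  [(27,0)]⟩,⟨0,[(26,0)]⟩),⟨0,[(1,0)]⟩,.k,(.r (-1) ⟨2,[(17,0),(6,0),(0,0)]⟩ ⟨1,[(31,0),(0,0),(2,
  1)]⟩),⟨false,1,⟨4,[(24,1),(0,1),(27,2),(1,0)]⟩,⟨0,[]⟩⟩,⟨true,0,⟨0,[(55,0)]⟩,⟨0,[]⟩⟩,⟨true,0,⟨0,
  [(35,0)]⟩,⟨0,[(50,0)]⟩⟩,⟨false,0,⟨0,[(51,0)]⟩,⟨26,[(8,0),(6,6),(1,3),(0,6),(2,0),(2,1),(7,4),(20,
  9)]⟩⟩,[.o ⟨false,0,⟨3,[(8,1),(26,1),(5,0),(5,0),(7,1)]⟩,⟨0,[(3,0)]⟩⟩,.a ⟨true,0,⟨0,[(25,0)]⟩,⟨0,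
  [(0,0)]⟩⟩ ⟨false,1,⟨1,[(52,0),(0,0)]⟩,⟨0,[(55,0)]⟩⟩ ⟨true,0,⟨0,[]⟩,⟨1,[(31,0),(0,0)]⟩⟩,.e ⟨false,
  1,⟨1,[(24,0),(0,0),(27,0)]⟩,⟨0,[]⟩⟩ ⟨false,0,⟨0,[]⟩,⟨1,[(24,0),(0,0),(27,0)]⟩⟩,.o ⟨false,0,⟨3,[(8,
  1),(22,0),(0,0),(2,1),(5,0),(1,1),(3,0)]⟩,⟨1,[(0,1),(36,0),(14,0)]⟩⟩]⟩) (.R ⟨1,false,false,true,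
  [0,0,1],[0,0,0,0,1],[0,1,0,0,0,0,0,1],(⟨0,[(34,0)]⟩,⟨0,[(33,0)]⟩),(⟨0,[(27,0)]⟩,⟨0,[(26,0)]⟩),⟨0,
  [(23,0)]⟩,.k,.k,.k,.k,(.r (-1) ⟨13,[(13,9),(3,3),(1,3),(1,1),(13,1),(11,0),(4,0),(2,3)]⟩ ⟨0,[(15,
  0),(19,0)]⟩),.k,⟨true,0,⟨1,[(11,0),(1,0),(2,0),(18,0),(7,0)]⟩,⟨0,[(15,0)]⟩⟩,⟨false,0,⟨27,[(4,0),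
  (3,13),(0,2),(1,15),(1,1),(9,2),(4,9),(7,8),(15,0)]⟩,⟨1,[(3,1),(6,0),(20,0),(3,0),(5,0)]⟩⟩,⟨true,
  0,⟨0,[(55,0)]⟩,⟨0,[]⟩⟩,⟨true,(-1),⟨1,[(0,0),(5,0),(18,0),(15,0)]⟩,⟨0,[(3,0),(25,0)]⟩⟩,⟨false,0,⟨0,
  [(51,0)]⟩,⟨26,[(8,0),(6,6),(1,3),(0,6),(2,0),(2,1),(7,4),(20,9)]⟩⟩,⟨true,(-1),⟨1,[(0,0),(5,0),(18,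
  0),(9,1),(5,0)]⟩,⟨1,[(3,1),(12,0),(12,0)]⟩⟩,[.o ⟨false,0,⟨0,[(0,0),(54,0)]⟩,⟨0,[(3,0)]⟩⟩,.o
  ⟨false,0,⟨0,[(0,0)]⟩,⟨2,[(3,0),(20,1),(30,0)]⟩⟩,.o ⟨false,1,⟨1,[(10,0),(20,0),(3,0),(11,0)]⟩,⟨7,
  [(4,0),(6,1),(1,1),(7,0),(10,1),(4,0)]⟩⟩,.a ⟨true,0,⟨0,[(31,0)]⟩,⟨0,[(28,0)]⟩⟩ ⟨true,0,⟨1,[(11,1),
  (4,0),(12,0)]⟩,⟨0,[(15,0)]⟩⟩ ⟨false,0,⟨1,[(8,0),(2,0),(16,0)]⟩,⟨0,[(3,0),(27,0)]⟩⟩]⟩)))) (.Q [0,0,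
  0,0,0,1,0,0,0,0,0,-1] (.ed true [1,-1,0,0,1] .k) (.Q [0,0,1,-1,-1,0,0,0,1,0,0,1] (.p true [0,0,0,
  0,1] [] (⟨0,[(25,0)]⟩,⟨0,[(24,0)]⟩) .k 0 (⟨0,[]⟩,⟨0,[]⟩) .k .k) (.R ⟨0,false,false,false,[0,0,0,0,
  1],[0,1],[],(⟨0,[(26,0)]⟩,⟨0,[(25,0)]⟩),(⟨0,[(38,0)]⟩,⟨0,[(37,0)]⟩),⟨0,[(1,0)]⟩,.k,.k,(.r (-1) ⟨2,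
  [(16,0),(6,0),(0,0)]⟩ ⟨1,[(30,0),(0,0),(2,1)]⟩),(.r (-1) ⟨2,[(16,0),(6,0),(0,0)]⟩ ⟨1,[(30,0),(0,
  0),(2,1)]⟩),.k,.k,⟨true,1,⟨2,[(16,0),(6,0),(0,0)]⟩,⟨0,[(34,0),(5,0),(1,1)]⟩⟩,⟨false,2,⟨0,[(23,0),
  (27,0)]⟩,⟨2,[(0,0),(1,1),(31,0),(7,1)]⟩⟩,⟨false,1,⟨4,[(23,1),(0,1),(27,2),(1,0)]⟩,⟨0,[]⟩⟩,⟨true,1,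
  ⟨0,[(23,0),(10,0)]⟩,⟨1,[(0,1),(39,0),(10,0)]⟩⟩,⟨false,0,⟨0,[]⟩,⟨0,[]⟩⟩,⟨false,0,⟨0,[]⟩,⟨0,[]⟩⟩,
  [.a ⟨true,0,⟨0,[(50,0)]⟩,⟨6,[(9,0),(9,2),(0,0),(9,0),(4,0),(1,0),(7,0)]⟩⟩ ⟨false,1,⟨1,[(23,0),(0,
  0),(26,0)]⟩,⟨0,[]⟩⟩ ⟨true,1,⟨0,[(23,0),(10,0)]⟩,⟨0,[(0,0)]⟩⟩,.o ⟨false,1,⟨1,[(34,1),(11,0),(5,
  0)]⟩,⟨0,[(49,0)]⟩⟩,.o ⟨false,0,⟨1,[(2,1),(43,0),(5,0)]⟩,⟨0,[(23,0)]⟩⟩,.e ⟨false,1,⟨1,[(51,0),(0,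
  0)]⟩,⟨1,[(30,0),(0,0)]⟩⟩ ⟨false,2,⟨1,[(23,1),(10,1),(16,0),(0,0)]⟩,⟨0,[(0,0)]⟩⟩]⟩) (.Q [0,0,-1,0,
  1,0,0,0,-1,0,0,-1] (.p false [0,0,0,0,1] [] (⟨0,[(26,0)]⟩,⟨0,[(25,0)]⟩) .k 0 (⟨0,[]⟩,⟨0,[]⟩) .k
  .k) (.R ⟨2,true,false,true,[0,1],[0,0,0,0,1],[1,1,1],(⟨0,[]⟩,⟨0,[]⟩),(⟨0,[(27,0)]⟩,⟨0,[(26,0)]⟩),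
  ⟨0,[]⟩,.k,.k,.k,(.r 0 ⟨1,[(31,0),(0,0),(2,1)]⟩ ⟨2,[(17,0),(6,0),(0,0)]⟩),.k,.k,⟨true,0,⟨1,[(31,0),
  (0,0)]⟩,⟨0,[]⟩⟩,⟨false,0,⟨0,[(25,0)]⟩,⟨0,[(0,0)]⟩⟩,⟨true,0,⟨0,[(50,0)]⟩,⟨0,[(51,0)]⟩⟩,⟨false,0,⟨2,
  [(8,0),(11,0),(4,0)]⟩,⟨1,[(0,0),(0,0),(33,0),(7,1)]⟩⟩,⟨false,0,⟨0,[]⟩,⟨1,[(24,0),(0,0),(27,0)]⟩⟩,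
  ⟨true,(-1),⟨0,[(3,0)]⟩,⟨1,[(0,0),(23,0),(29,0)]⟩⟩,[]⟩) (.Q [0,0,0,0,1,0,1,0,-1,0,1,-1] (.p true
  [0,0,1] [0,0,0,0,1] (⟨0,[(34,0)]⟩,⟨0,[(33,0)]⟩) .k 2 (⟨0,[(27,0)]⟩,⟨0,[(26,0)]⟩) .k (.r 0 ⟨1,[(11,
  0),(1,0),(2,0),(18,0),(7,0)]⟩ ⟨5,[(1,1),(8,1),(4,3),(8,0),(0,2),(4,1),(22,0)]⟩)) (.K ⟨0,[0,0,0,0,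
  1],(-1),(-1),(⟨0,[(28,0)]⟩,⟨0,[(27,0)]⟩),.k,(.r (-1) ⟨2,[(18,0),(6,0),(0,0)]⟩ ⟨1,[(32,0),(0,0),(2,
  1)]⟩),(.r 0 ⟨1,[(32,0),(0,0),(2,1)]⟩ ⟨14,[(18,4),(6,1),(0,1),(27,2),(1,5)]⟩),.k,.k,[⟨0,[(0,0)]⟩,
  ⟨0,[(1,0)]⟩,⟨0,[(25,0),(30,0)]⟩,⟨0,[(4,0)]⟩]⟩) (.R ⟨1,true,false,false,[1,-1],[1,0,0,0,-1],[0,0,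
  -1,-1],(⟨0,[(39,0)]⟩,⟨0,[(40,0)]⟩),(⟨0,[(27,0)]⟩,⟨0,[(28,0)]⟩),⟨1,[(10,0),(13,0),(14,0)]⟩,.k,.k,
  (.r (-2) ⟨2,[(18,1),(6,1),(0,1)]⟩ ⟨0,[(36,1),(5,0),(1,1)]⟩),(.r (-1) ⟨2,[(18,0),(6,0),(0,0)]⟩ ⟨1,
  [(32,0),(0,0),(2,1)]⟩),(.r (-2) ⟨2,[(18,1),(6,1),(0,1)]⟩ ⟨0,[(36,1),(5,0),(1,1)]⟩),.k,⟨true,1,⟨2,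
  [(18,0),(6,0),(0,0)]⟩,⟨0,[(36,0),(5,0),(1,1)]⟩⟩,⟨false,2,⟨2,[(2,2),(15,0),(6,0),(0,0)]⟩,⟨0,[(1,
  0)]⟩⟩,⟨false,1,⟨1,[(25,0),(0,0),(27,0)]⟩,⟨0,[]⟩⟩,⟨true,1,⟨0,[(25,0),(10,0)]⟩,⟨0,[(0,0),(10,0),(30,
  0),(1,0)]⟩⟩,⟨true,0,⟨0,[(52,0)]⟩,⟨0,[(51,0)]⟩⟩,⟨false,1,⟨0,[(2,0),(33,0),(7,0)]⟩,⟨7,[(5,0),(3,3),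
  (7,0),(1,0),(1,2)]⟩⟩,[]⟩)))) (.Q [1,1,0,-2,-1,0,0,0,1,0,0,1] (.p true [0,0,0,0,1] [] (⟨0,[(25,
  0)]⟩,⟨0,[(24,0)]⟩) .k 0 (⟨0,[]⟩,⟨0,[]⟩) .k .k) (.R ⟨1,false,false,false,[0,0,0,0,1],[0,1],[],(⟨0,
  [(26,0)]⟩,⟨0,[(25,0)]⟩),(⟨0,[(38,0)]⟩,⟨0,[(37,0)]⟩),⟨0,[(1,0)]⟩,.k,.k,(.r (-1) ⟨2,[(16,0),(6,0),
  (0,0)]⟩ ⟨1,[(30,0),(0,0),(2,1)]⟩),(.r (-1) ⟨2,[(16,0),(6,0),(0,0)]⟩ ⟨1,[(30,0),(0,0),(2,1)]⟩),(.r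
  (-2) ⟨2,[(16,1),(6,1),(0,1)]⟩ ⟨0,[(34,1),(5,0),(1,1)]⟩),.k,⟨true,1,⟨2,[(16,0),(6,0),(0,0)]⟩,⟨0,
  [(34,0),(5,0),(1,1)]⟩⟩,⟨false,2,⟨0,[(23,0),(27,0)]⟩,⟨3,[(0,0),(1,2),(31,1),(7,3)]⟩⟩,⟨false,1,⟨4,
  [(23,1),(0,1),(27,2),(1,0)]⟩,⟨0,[]⟩⟩,⟨true,1,⟨0,[(23,0),(10,0)]⟩,⟨1,[(0,0),(1,0)]⟩⟩,⟨true,0,⟨0,
  [(34,0)]⟩,⟨0,[(49,0)]⟩⟩,⟨true,1,⟨0,[(23,0),(10,1)]⟩,⟨0,[(0,0)]⟩⟩,[.a ⟨true,0,⟨0,[(50,0)]⟩,⟨6,[(9,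
  0),(9,2),(0,0),(9,0),(4,0),(1,0),(7,0)]⟩⟩ ⟨false,1,⟨1,[(23,0),(0,0),(26,0)]⟩,⟨0,[]⟩⟩ ⟨true,1,⟨0,
  [(23,0),(10,0)]⟩,⟨3,[(0,2),(1,0),(31,1),(7,3)]⟩⟩,.o ⟨false,1,⟨1,[(34,1),(11,0),(5,0)]⟩,⟨0,[(49,
  0)]⟩⟩,.o ⟨false,0,⟨1,[(2,1),(43,0),(5,0)]⟩,⟨0,[(23,0)]⟩⟩,.e ⟨false,1,⟨1,[(51,0),(0,0)]⟩,⟨1,[(30,
  0),(0,0)]⟩⟩ ⟨false,2,⟨1,[(23,1),(10,1),(16,0),(0,0)]⟩,⟨3,[(0,2),(1,0),(31,1),(7,3)]⟩⟩]⟩) (.Q [0,0,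
  -1,0,1,0,0,0,-1,0,0,-1] (.p false [0,0,0,0,1] [] (⟨0,[(26,0)]⟩,⟨0,[(25,0)]⟩) .k 0 (⟨0,[]⟩,⟨0,[]⟩)
  .k .k) (.R ⟨2,true,false,true,[0,1],[0,0,0,0,1],[1,1,1],(⟨0,[]⟩,⟨0,[]⟩),(⟨0,[(27,0)]⟩,⟨0,[(26,
  0)]⟩),⟨0,[]⟩,.k,.k,.k,(.r 0 ⟨1,[(31,0),(0,0),(2,1)]⟩ ⟨2,[(17,0),(6,0),(0,0)]⟩),.k,.k,⟨true,0,⟨1,
  [(31,0),(0,0)]⟩,⟨0,[]⟩⟩,⟨false,0,⟨0,[(25,0)]⟩,⟨0,[(0,0)]⟩⟩,⟨true,0,⟨0,[(50,0)]⟩,⟨0,[(51,0)]⟩⟩,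
  ⟨false,0,⟨2,[(8,0),(11,0),(4,0)]⟩,⟨2,[(0,1),(0,0),(33,0),(7,1)]⟩⟩,⟨false,0,⟨0,[]⟩,⟨1,[(24,0),(0,
  0),(27,0)]⟩⟩,⟨true,(-1),⟨0,[(3,0)]⟩,⟨1,[(0,0),(23,0),(29,0)]⟩⟩,[]⟩) (.S ⟨1,0,[1,1],[0,0,0,0,1],[1,
  1,1],(⟨0,[(27,0)]⟩,⟨0,[(26,0)]⟩),⟨0,[(2,0)]⟩,.k,(.r (-1) ⟨2,[(17,0),(6,0),(0,0)]⟩ ⟨3,[(0,1),(0,1),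
  (29,0),(0,0),(22,1)]⟩),⟨false,0,⟨1,[(31,0),(0,0)]⟩,⟨1,[(52,0),(0,0)]⟩⟩,⟨true,0,⟨0,[(55,0)]⟩,⟨0,
  []⟩⟩,⟨true,(-1),⟨2,[(0,0),(0,0),(33,0),(5,2),(1,1)]⟩,⟨2,[(17,0),(6,0),(0,0)]⟩⟩,⟨false,0,⟨0,[(51,
  0)]⟩,⟨26,[(8,0),(6,6),(1,3),(0,6),(2,0),(2,1),(7,4),(20,9)]⟩⟩,[.e ⟨false,0,⟨0,[(55,0)]⟩,⟨1,[(52,
  0),(0,0)]⟩⟩ ⟨false,0,⟨0,[(44,0)]⟩,⟨1,[(24,0),(0,0),(27,0)]⟩⟩,.o ⟨false,0,⟨1,[(3,1),(43,0),(5,0)]⟩,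
  ⟨14,[(1,2),(2,0),(4,0),(6,1),(6,0),(0,11),(11,2),(10,0),(7,0)]⟩⟩,.o ⟨false,0,⟨1,[(3,1),(43,0),(5,
  0)]⟩,⟨0,[(24,0)]⟩⟩,.a ⟨true,(-1),⟨0,[(0,0)]⟩,⟨94,[(1,75),(2,8),(11,17),(0,21),(2,15),(3,18),(15,
  28),(5,34)]⟩⟩ ⟨false,0,⟨0,[]⟩,⟨1,[(24,0),(0,0),(27,0)]⟩⟩ ⟨true,0,⟨0,[(44,0)]⟩,⟨1,[(31,0),(0,
  0)]⟩⟩]⟩)))))))))))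

theorem ok16 : chk K t16 l14 = true := by decide +kernel

noncomputable def t17 : Tre :=
  (.Q [0,0,0,0,0,2,0,0,0,-1,1] (.p true [0,0,1] [1] (⟨0,[(24,0)]⟩,⟨0,[(23,0)]⟩) .k 1 (⟨0,[]⟩,⟨0,
  []⟩) .k .k) (.R ⟨0,false,false,true,[1,-1,-1],[1,-1],[],(⟨0,[(13,0)]⟩,⟨4,[(0,1),(14,0),(0,0),(8,
  2),(1,0),(9,0)]⟩),(⟨0,[(29,0)]⟩,⟨0,[(30,0)]⟩),⟨0,[(0,0)]⟩,.k,.k,(.r (-2) ⟨5,[(6,5),(1,3),(6,0),(0,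
  0),(26,2)]⟩ ⟨0,[(1,0),(2,0),(17,0),(3,0)]⟩),.k,.k,.k,⟨true,0,⟨0,[(26,0),(7,0)]⟩,⟨0,[(41,0)]⟩⟩,
  ⟨false,1,⟨0,[(22,0),(20,0)]⟩,⟨6,[(1,2),(6,0),(3,1),(25,0)]⟩⟩,⟨false,0,⟨0,[(4,0),(21,0),(7,0)]⟩,⟨0,
  [(3,0),(18,0),(20,0)]⟩⟩,⟨true,0,⟨0,[(20,0)]⟩,⟨1,[(2,0),(0,0),(2,0)]⟩⟩,⟨false,0,⟨0,[]⟩,⟨0,[]⟩⟩,
  ⟨false,0,⟨0,[]⟩,⟨0,[]⟩⟩,[.o ⟨false,0,⟨0,[(41,0)]⟩,⟨1,[(26,1),(11,0),(5,0)]⟩⟩,.e ⟨false,1,⟨1,[(43,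
  0),(0,0)]⟩,⟨0,[(46,0)]⟩⟩ ⟨false,2,⟨2,[(8,0),(6,0),(0,0),(5,2),(20,2)]⟩,⟨0,[(1,0)]⟩⟩,.a ⟨true,(-1),
  ⟨27,[(1,21),(9,10),(0,2),(14,1),(1,1),(7,5),(7,5)]⟩,⟨0,[(22,0),(20,0)]⟩⟩ ⟨false,1,⟨1,[(15,0),(0,
  0),(27,0)]⟩,⟨0,[]⟩⟩ ⟨true,1,⟨11,[(8,3),(6,0),(0,0),(5,11),(8,5),(11,2)]⟩,⟨0,[(1,0)]⟩⟩,.o ⟨false,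
  (-1),⟨6,[(1,6),(1,0),(2,1),(0,2),(15,1),(10,2)]⟩,⟨1,[(22,1),(15,0),(4,2)]⟩⟩]⟩) (.Q [0,1,0,2,0,0,1,
  1,0,-1,1] (.p true [0,0,1] [1] (⟨0,[(25,0)]⟩,⟨0,[(24,0)]⟩) .k 1 (⟨0,[]⟩,⟨0,[]⟩) .k .k) (.Q [0,-1,
  0,-1,0,0,-1,-1,0,1,-1] (.p false [0,0,1] [1] (⟨0,[(26,0)]⟩,⟨0,[(25,0)]⟩) .k 1 (⟨0,[]⟩,⟨0,[]⟩) .k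
  .k) (.R ⟨1,true,false,true,[1,0,-1],[0,1],[0,1,0,0,0,0,0,-1],(⟨0,[(26,0)]⟩,⟨0,[(27,0)]⟩),(⟨0,[(32,
  0)]⟩,⟨0,[(31,0)]⟩),⟨0,[(15,0)]⟩,.k,.k,.k,.k,(.r (-2) ⟨5,[(8,5),(1,3),(6,0),(0,0),(26,2)]⟩ ⟨11,[(1,
  7),(1,7),(2,3),(17,0),(0,0),(10,7),(2,3),(7,5)]⟩),.k,⟨true,1,⟨0,[(5,0),(18,0),(20,0)]⟩,⟨0,[(3,0),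
  (2,0),(17,0)]⟩⟩,⟨false,2,⟨1,[(24,1),(15,0),(4,2)]⟩,⟨27,[(3,21),(9,10),(0,2),(14,1),(1,1),(7,5),(7,
  5)]⟩⟩,⟨true,0,⟨0,[(48,0)]⟩,⟨0,[]⟩⟩,⟨false,1,⟨5,[(1,3),(10,1),(4,1),(0,1),(21,0),(5,0)]⟩,⟨0,[(0,
  0)]⟩⟩,⟨false,0,⟨0,[(44,0)]⟩,⟨23,[(8,5),(1,3),(0,5),(5,0),(0,0),(6,5),(20,8)]⟩⟩,⟨true,0,⟨0,[(1,
  0)]⟩,⟨2,[(0,0),(4,0),(7,1),(9,0)]⟩⟩,[]⟩) (.I [0,0,0,0,1,0,0,0,-1] (.I [0,0,1,-1,0,0,0,-1] (.I [1,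
  0,1,0,0,1,1] (.I [1,0,0,0,0,3,0,0,1] (.I [0,0,0,-1,0,-1,-1,-1] (.I [0,1,0,-3] (.I [0,1,1,-1,-1,0,
  0,1] (.I [0,0,1,1,-1,-1,-1] (.I [0,1,0,1,0,-2,1,1] (.C [(0,1),(3,1),(42,1),(0,0),(6,0)]) (.C [(0,
  0),(8,0),(1,0)])) (.C [(0,0),(10,0),(12,0)])) (.C [(0,0),(9,0),(5,0)])) (.C [(0,0),(10,0),(3,
  0)])) (.C [(0,0),(9,0),(10,0)])) (.C [(0,0),(21,0),(0,0),(18,0)])) (.C [(0,0),(4,0),(21,0),(13,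
  0)])) (.C [(0,0),(6,0),(18,0)])) (.C [(0,0),(17,0),(2,0)]))) (.I [0,1,0,0,0,0,0,-2] (.Q [0,0,1,0,
  -1,0,-1,0,-1,1,-1,-1] (.p false [0,0,1] [1,0,0,0,-1] (⟨0,[(27,0)]⟩,⟨0,[(26,0)]⟩) .k 2 (⟨0,[(19,
  0)]⟩,⟨0,[(20,0)]⟩) .k (.r 0 ⟨0,[(6,0)]⟩ ⟨9,[(0,4),(16,6),(0,6),(27,2),(1,0)]⟩)) (.Q [0,0,0,0,0,-1,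
  0,0,0,0,0,1] (.ed false [1,-1,0,0,1] .k) (.S ⟨1,0,[1,1],[0,0,0,0,1],[],(⟨0,[(22,0)]⟩,⟨0,[(21,
  0)]⟩),⟨0,[(0,0)]⟩,.k,(.r (-1) ⟨2,[(12,0),(6,0),(0,0)]⟩ ⟨1,[(26,0),(0,0),(2,1)]⟩),⟨false,1,⟨4,[(19,
  1),(0,1),(27,2),(1,0)]⟩,⟨0,[]⟩⟩,⟨true,0,⟨0,[(50,0)]⟩,⟨0,[]⟩⟩,⟨true,0,⟨0,[(30,0)]⟩,⟨0,[(45,0)]⟩⟩,
  ⟨false,0,⟨0,[(46,0)]⟩,⟨23,[(10,5),(1,3),(0,5),(5,0),(0,0),(6,5),(20,8)]⟩⟩,[.o ⟨false,0,⟨1,[(20,1),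
  (15,0),(5,0)]⟩,⟨1,[(1,1),(24,1),(5,0),(14,1),(0,0)]⟩⟩,.a ⟨true,0,⟨0,[(20,0)]⟩,⟨0,[(1,0),(24,0),
  (20,0)]⟩⟩ ⟨false,1,⟨1,[(47,0),(0,0)]⟩,⟨0,[(50,0)]⟩⟩ ⟨true,0,⟨0,[]⟩,⟨1,[(26,0),(0,0)]⟩⟩,.e ⟨false,
  1,⟨1,[(19,0),(0,0),(27,0)]⟩,⟨0,[]⟩⟩ ⟨false,0,⟨0,[]⟩,⟨1,[(19,0),(0,0),(27,0)]⟩⟩,.o ⟨false,0,⟨1,
  [(20,1),(15,0),(1,1),(3,0)]⟩,⟨1,[(1,1),(24,1),(5,0),(14,2)]⟩⟩]⟩) (.Q [0,0,0,-1,0,0,0,0,1,0,0,1]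
  (.p true [0,0,0,0,1] [] (⟨0,[(22,0)]⟩,⟨0,[(21,0)]⟩) .k 0 (⟨0,[]⟩,⟨0,[]⟩) .k .k) (.R ⟨0,false,
  false,true,[0,0,0,0,1],[0,1],[1,1,1],(⟨0,[(23,0)]⟩,⟨0,[(22,0)]⟩),(⟨0,[(35,0)]⟩,⟨0,[(34,0)]⟩),⟨0,
  [(1,0)]⟩,.k,.k,(.r (-1) ⟨2,[(13,0),(6,0),(0,0)]⟩ ⟨1,[(27,0),(0,0),(2,1)]⟩),(.r (-1) ⟨2,[(13,0),(6,
  0),(0,0)]⟩ ⟨1,[(27,0),(0,0),(2,1)]⟩),.k,.k,⟨false,1,⟨2,[(13,0),(6,0),(0,0)]⟩,⟨0,[(47,0)]⟩⟩,⟨true,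
  1,⟨1,[(2,1),(24,1),(5,0),(14,2)]⟩,⟨0,[(0,0),(5,0),(20,0)]⟩⟩,⟨false,0,⟨1,[(27,0),(0,0)]⟩,⟨1,[(48,
  0),(0,0)]⟩⟩,⟨true,0,⟨1,[(2,1),(24,1),(3,1),(5,0),(5,0),(4,1)]⟩,⟨0,[(0,0)]⟩⟩,⟨false,0,⟨0,[]⟩,⟨0,
  []⟩⟩,⟨false,0,⟨0,[]⟩,⟨0,[]⟩⟩,[.o ⟨false,0,⟨1,[(31,1),(5,0),(5,0)]⟩,⟨23,[(11,5),(1,3),(0,5),(5,0),
  (0,0),(6,5),(20,8)]⟩⟩,.e ⟨false,0,⟨0,[]⟩,⟨1,[(20,0),(0,0),(26,0)]⟩⟩ ⟨false,1,⟨1,[(2,1),(24,1),(3,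
  1),(11,0),(4,2)]⟩,⟨0,[(0,0)]⟩⟩,.a ⟨true,0,⟨0,[(21,0)]⟩,⟨0,[(2,0),(24,0),(20,0)]⟩⟩ ⟨false,0,⟨1,
  [(27,0),(0,0)]⟩,⟨1,[(48,0),(0,0)]⟩⟩ ⟨true,0,⟨1,[(2,1),(24,1),(3,1),(5,0),(5,0),(4,1)]⟩,⟨0,[(0,
  0)]⟩⟩,.o ⟨false,0,⟨1,[(0,0),(5,0),(14,0),(5,0),(15,0)]⟩,⟨1,[(2,1),(24,1),(5,0),(14,2)]⟩⟩]⟩) (.Q
  [-1,0,0,1,0,0,0,0,-1,0,0,-1] (.p false [0,0,0,0,1] [] (⟨0,[(23,0)]⟩,⟨0,[(22,0)]⟩) .k 0 (⟨0,[]⟩,⟨0,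
  []⟩) .k .k) (.R ⟨2,true,false,true,[0,1],[0,0,0,0,1],[2,1],(⟨0,[]⟩,⟨0,[]⟩),(⟨0,[(24,0)]⟩,⟨0,[(23,
  0)]⟩),⟨0,[]⟩,.k,.k,.k,(.r 0 ⟨1,[(28,0),(0,0),(2,1)]⟩ ⟨2,[(14,0),(6,0),(0,0)]⟩),.k,.k,⟨true,0,⟨0,
  []⟩,⟨1,[(28,0),(0,0)]⟩⟩,⟨false,0,⟨0,[(22,0)]⟩,⟨4,[(0,2),(13,0),(6,1),(27,0)]⟩⟩,⟨false,1,⟨2,[(14,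
  0),(6,0),(0,0)]⟩,⟨0,[(32,0),(7,0)]⟩⟩,⟨true,0,⟨0,[(22,0),(24,0)]⟩,⟨0,[(0,0)]⟩⟩,⟨true,0,⟨1,[(38,0),
  (10,0)]⟩,⟨0,[(51,0)]⟩⟩,⟨false,0,⟨0,[(22,0)]⟩,⟨13,[(0,7),(4,1),(9,1),(5,5),(22,0),(5,4)]⟩⟩,[]⟩)
  (.R ⟨1,true,false,false,[1,-1],[1,0,0,0,-1],[0,1,-1,-1],(⟨0,[(35,0)]⟩,⟨0,[(36,0)]⟩),(⟨0,[(23,0)]⟩,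
  ⟨0,[(24,0)]⟩),⟨1,[(6,0),(13,0),(14,0)]⟩,.k,.k,(.r (-2) ⟨2,[(14,1),(6,1),(0,1)]⟩ ⟨0,[(7,0),(20,0),
  (3,0)]⟩),(.r (-1) ⟨2,[(14,0),(6,0),(0,0)]⟩ ⟨1,[(28,0),(0,0),(2,1)]⟩),(.r (-2) ⟨2,[(14,1),(6,1),(0,
  1)]⟩ ⟨0,[(7,0),(20,0),(3,0)]⟩),.k,⟨false,1,⟨11,[(14,3),(6,0),(0,0),(14,5),(11,2)]⟩,⟨0,[(32,0),(7,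
  0)]⟩⟩,⟨true,1,⟨4,[(1,2),(12,0),(6,1),(27,0)]⟩,⟨0,[(0,0),(31,0),(5,0),(1,1)]⟩⟩,⟨true,0,⟨0,[(52,
  0)]⟩,⟨0,[]⟩⟩,⟨false,1,⟨1,[(1,0),(19,0),(10,0),(17,0)]⟩,⟨0,[(0,0)]⟩⟩,⟨false,0,⟨0,[(48,0)]⟩,⟨23,
  [(12,5),(1,3),(0,5),(5,0),(0,0),(6,5),(20,8)]⟩⟩,⟨true,0,⟨0,[(1,0),(30,0)]⟩,⟨0,[(0,0),(46,0)]⟩⟩,
  []⟩)))) (.Q [0,0,0,0,1,0,2,2,0,-1,2] (.p true [0,0,1] [1,0,-1] (⟨0,[(28,0)]⟩,⟨0,[(27,0)]⟩) .k 2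
  (⟨0,[(27,0)]⟩,⟨0,[(28,0)]⟩) .k (.r 0 ⟨0,[(4,1),(5,1),(18,1),(16,0),(0,0)]⟩ ⟨1,[(0,0),(0,0),(6,0),
  (0,0),(8,0)]⟩)) (.R ⟨0,false,false,false,[0,-1,1],[1,-1,-1],[],(⟨0,[(18,0)]⟩,⟨22,[(19,2),(0,2),(7,
  22),(2,4),(8,5),(0,2)]⟩),(⟨0,[(17,0)]⟩,⟨22,[(19,2),(0,2),(8,22),(1,4),(8,5),(0,2)]⟩),⟨2,[(4,1),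
  (23,0),(2,0),(8,2)]⟩,.k,.k,(.x 0 ⟨11,[(5,1),(4,0),(0,0),(14,14),(0,1),(0,11),(9,0),(1,7),(1,1),(6,
  2)]⟩ ⟨20,[(4,6),(1,14),(5,4),(3,2),(1,27),(23,4),(4,5)]⟩),.k,.k,.k,⟨false,0,⟨5,[(0,2),(4,1),(0,1),
  (9,0),(13,1),(10,0)]⟩,⟨11,[(1,0),(0,4),(6,0),(0,0),(1,3),(6,0),(28,1)]⟩⟩,⟨true,(-1),⟨2,[(3,0),(1,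
  2),(0,0),(4,0),(11,1)]⟩,⟨3,[(0,1),(1,1),(23,3),(15,0),(5,0)]⟩⟩,⟨true,0,⟨0,[(10,0),(19,0)]⟩,⟨0,[(6,
  0),(4,0)]⟩⟩,⟨false,0,⟨6,[(2,0),(2,0),(0,0),(0,1),(1,8),(15,0),(16,0)]⟩,⟨0,[(0,0)]⟩⟩,⟨false,0,⟨0,
  []⟩,⟨0,[]⟩⟩,⟨false,0,⟨0,[]⟩,⟨0,[]⟩⟩,[.o ⟨false,0,⟨0,[(7,0)]⟩,⟨5,[(0,2),(0,0),(17,0),(7,0),(2,5),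
  (11,0)]⟩⟩,.a ⟨true,0,⟨1,[(3,0),(5,0)]⟩,⟨0,[(24,0),(5,0)]⟩⟩ ⟨false,1,⟨1,[(47,0),(0,0)]⟩,⟨0,[(50,
  0)]⟩⟩ ⟨true,0,⟨0,[(3,0),(2,0)]⟩,⟨1,[(0,1),(4,0),(4,1),(15,0),(3,0),(5,0)]⟩⟩,.e ⟨false,1,⟨1,[(19,
  0),(0,0),(27,0)]⟩,⟨0,[]⟩⟩ ⟨false,0,⟨0,[(3,0),(2,0)]⟩,⟨0,[(0,0),(9,0),(19,0)]⟩⟩,.o ⟨false,0,⟨1,
  [(26,1),(9,0),(1,1),(3,0)]⟩,⟨6,[(6,2),(5,0),(3,1),(25,0),(4,3)]⟩⟩]⟩) (.Q [0,0,0,0,0,1,0,0,0,0,0,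
  -1] (.ed true [1,-1,0,0,1] .k) (.Q [1,0,0,0,-1,0,-1,-1,1,0,-1,1] (.p false [0,0,1] [0,0,0,0,1]
  (⟨0,[(30,0)]⟩,⟨0,[(29,0)]⟩) .k 2 (⟨0,[(23,0)]⟩,⟨0,[(22,0)]⟩) .k (.r 0 ⟨3,[(6,0),(0,0),(1,1),(2,0),
  (1,0),(16,1)]⟩ ⟨19,[(2,10),(0,2),(6,2),(0,10),(5,3),(2,10),(21,1)]⟩)) (.R ⟨0,false,false,false,[0,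
  0,0,0,1],[0,1],[],(⟨0,[(24,0)]⟩,⟨0,[(23,0)]⟩),(⟨0,[(36,0)]⟩,⟨0,[(35,0)]⟩),⟨0,[(1,0)]⟩,.k,.k,(.r
  (-1) ⟨2,[(14,0),(6,0),(0,0)]⟩ ⟨1,[(28,0),(0,0),(2,1)]⟩),(.r (-1) ⟨2,[(14,0),(6,0),(0,0)]⟩ ⟨1,[(28,
  0),(0,0),(2,1)]⟩),.k,.k,⟨true,1,⟨2,[(14,0),(6,0),(0,0)]⟩,⟨0,[(7,0),(20,0)]⟩⟩,⟨false,2,⟨0,[(21,0),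
  (27,0)]⟩,⟨1,[(0,1),(6,0),(7,0),(10,0),(1,0),(3,0)]⟩⟩,⟨false,1,⟨4,[(21,1),(0,1),(27,2),(1,0)]⟩,⟨0,
  []⟩⟩,⟨true,1,⟨0,[(21,0),(10,0)]⟩,⟨1,[(0,1),(12,0),(12,0)]⟩⟩,⟨false,0,⟨0,[]⟩,⟨0,[]⟩⟩,⟨false,0,⟨0,
  []⟩,⟨0,[]⟩⟩,[.a ⟨true,0,⟨0,[(48,0)]⟩,⟨5,[(17,2),(3,0),(0,0),(10,0),(1,0),(7,0)]⟩⟩ ⟨false,1,⟨9,[(3,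
  3),(14,1),(2,3),(21,0),(5,2)]⟩,⟨0,[]⟩⟩ ⟨true,1,⟨0,[(21,0),(10,0)]⟩,⟨1,[(0,1),(6,0),(5,0),(1,0),
  (12,0),(3,0)]⟩⟩,.o ⟨false,1,⟨1,[(32,1),(11,0),(5,0)]⟩,⟨0,[(47,0)]⟩⟩,.o ⟨false,0,⟨10,[(0,3),(2,6),
  (3,6),(5,1),(1,1),(16,0),(11,1)]⟩,⟨0,[(21,0)]⟩⟩,.e ⟨false,1,⟨1,[(49,0),(0,0)]⟩,⟨1,[(28,0),(0,
  0)]⟩⟩ ⟨false,2,⟨1,[(21,1),(10,1),(16,0),(0,0)]⟩,⟨1,[(0,1),(6,0),(5,0),(1,0),(12,0),(3,0)]⟩⟩]⟩)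
  (.Q [0,0,0,1,1,0,2,2,0,-1,2] (.p true [0,0,1] [1,0,-1] (⟨0,[(31,0)]⟩,⟨0,[(30,0)]⟩) .k 2 (⟨0,[(30,
  0)]⟩,⟨0,[(31,0)]⟩) .k (.r 0 ⟨0,[(7,1),(5,1),(18,1),(16,0),(0,0)]⟩ ⟨3,[(0,0),(2,0),(0,3),(7,0),(5,
  0),(31,1)]⟩)) (.R ⟨1,true,false,false,[1,0,-1],[0,0,1],[0,1,0,0,0,0,0,-1],(⟨0,[(31,0)]⟩,⟨0,[(32,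
  0)]⟩),(⟨0,[(32,0)]⟩,⟨0,[(31,0)]⟩),⟨0,[(20,0)]⟩,.k,.k,.k,.k,(.x 1 ⟨3,[(6,0),(1,3),(5,0),(4,1),(1,
  5),(10,1),(1,0),(8,2)]⟩ ⟨1,[(7,3),(21,3),(13,1),(1,0),(4,2)]⟩),.k,⟨true,0,⟨0,[(5,0)]⟩,⟨0,[(11,1),
  (29,0)]⟩⟩,⟨false,2,⟨1,[(29,3),(15,0),(4,2)]⟩,⟨2,[(6,0),(1,2),(0,0),(4,0),(11,1)]⟩⟩,⟨true,0,⟨0,
  [(53,0)]⟩,⟨0,[]⟩⟩,⟨false,2,⟨3,[(0,2),(3,0),(11,0),(0,0),(4,0),(7,0),(20,0)]⟩,⟨0,[(3,0)]⟩⟩,⟨false,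
  0,⟨0,[(49,0)]⟩,⟨37,[(4,0),(8,9),(1,5),(0,9),(2,0),(2,0),(7,8),(20,13)]⟩⟩,⟨true,1,⟨0,[(0,0)]⟩,⟨0,
  [(3,0),(44,0)]⟩⟩,[]⟩) (.Q [0,0,0,2,1,0,2,2,0,-1,2] (.p true [0,0,1] [1,0,-1] (⟨0,[(32,0)]⟩,⟨0,
  [(31,0)]⟩) .k 2 (⟨0,[(31,0)]⟩,⟨0,[(32,0)]⟩) .k (.r 0 ⟨0,[(8,1),(5,1),(18,1),(16,0),(0,0)]⟩ ⟨3,[(1,
  0),(2,0),(0,3),(7,0),(5,0),(31,1)]⟩)) (.R ⟨1,true,false,false,[1,0,-1],[0,1,1],[0,1,0,0,0,0,0,-1],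
  (⟨0,[(32,0)]⟩,⟨0,[(33,0)]⟩),(⟨84,[(2,8),(3,2),(6,2),(6,2),(3,8),(8,84),(1,12),(8,23),(0,8)]⟩,⟨0,
  [(21,0)]⟩),⟨0,[(21,0)]⟩,.k,.k,.k,(.r (-1) ⟨1,[(1,1),(28,3),(15,0),(4,2)]⟩ ⟨55,[(0,36),(8,49),(2,
  3),(2,16),(1,16),(2,28),(24,3),(7,5)]⟩),(.r (-2) ⟨11,[(2,0),(2,0),(0,11),(7,0),(1,7),(3,0),(31,
  5)]⟩ ⟨13,[(0,8),(8,21),(2,3),(2,2),(1,2),(2,0),(24,3),(7,5)]⟩),.k,⟨false,1,⟨1,[(1,1),(28,3),(9,0),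
  (5,0),(4,3)]⟩,⟨6,[(0,2),(8,6),(2,4),(4,2),(2,0),(24,0),(6,1)]⟩⟩,⟨true,2,⟨1,[(30,3),(15,0),(4,2)]⟩,
  ⟨0,[(9,1),(9,0)]⟩⟩,⟨true,0,⟨0,[(54,0)]⟩,⟨0,[]⟩⟩,⟨false,2,⟨21,[(0,18),(4,4),(8,1),(2,7),(2,1),(2,
  4),(7,2),(20,6)]⟩,⟨0,[(1,0)]⟩⟩,⟨false,0,⟨0,[(50,0)]⟩,⟨37,[(5,0),(8,9),(1,5),(0,9),(2,0),(2,0),(7,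
  8),(20,13)]⟩⟩,⟨true,1,⟨0,[(0,0)]⟩,⟨0,[(1,0),(47,0)]⟩⟩,[]⟩) (.Q [0,0,-1,1,1,0,0,0,-1,0,0,-1] (.p
  false [0,0,0,0,1] [] (⟨0,[(26,0)]⟩,⟨0,[(25,0)]⟩) .k 0 (⟨0,[]⟩,⟨0,[]⟩) .k .k) (.Q [0,0,0,0,0,0,0,0,
  -1,1,0,-1] (.p false [0,0,0,0,1] [1] (⟨0,[(27,0)]⟩,⟨0,[(26,0)]⟩) .k 1 (⟨0,[]⟩,⟨0,[]⟩) .k .k) (.R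
  ⟨0,false,false,true,[0,0,0,0,1],[0,1],[1,1,1],(⟨0,[(28,0)]⟩,⟨0,[(27,0)]⟩),(⟨0,[(40,0)]⟩,⟨0,[(39,
  0)]⟩),⟨0,[(5,0)]⟩,.k,.k,(.r (-1) ⟨5,[(4,0),(2,0),(8,0),(1,1),(3,0)]⟩ ⟨1,[(32,0),(0,0),(2,1)]⟩),
  (.r (-1) ⟨5,[(4,0),(2,0),(8,0),(1,1),(3,0)]⟩ ⟨1,[(32,0),(0,0),(2,1)]⟩),.k,.k,⟨false,1,⟨5,[(4,0),
  (2,0),(8,0),(1,1),(3,0)]⟩,⟨0,[(52,0)]⟩⟩,⟨true,1,⟨1,[(0,1),(37,0),(14,0)]⟩,⟨5,[(2,0),(4,0),(3,5),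
  (5,1),(8,4),(5,4),(11,1)]⟩⟩,⟨false,0,⟨1,[(32,0),(0,0)]⟩,⟨1,[(53,0),(0,0)]⟩⟩,⟨true,0,⟨13,[(0,9),(0,
  3),(9,1),(20,1),(3,7),(5,6),(5,4)]⟩,⟨4,[(2,0),(4,0),(3,0),(5,0),(1,0),(6,3)]⟩⟩,⟨false,0,⟨0,[]⟩,⟨0,
  []⟩⟩,⟨false,0,⟨0,[]⟩,⟨0,[]⟩⟩,[.o ⟨false,0,⟨1,[(36,1),(5,0),(5,0)]⟩,⟨37,[(7,0),(8,9),(1,5),(0,9),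
  (2,0),(2,0),(7,8),(20,13)]⟩⟩,.e ⟨false,0,⟨0,[]⟩,⟨137,[(1,38),(2,20),(2,59),(0,6),(6,6),(2,12),(3,
  36),(24,7)]⟩⟩ ⟨false,1,⟨0,[(1,0)]⟩,⟨4,[(2,0),(4,0),(3,0),(5,0),(1,0),(6,3)]⟩⟩,.a ⟨true,0,⟨0,[(26,
  0)]⟩,⟨0,[(0,0)]⟩⟩ ⟨false,0,⟨1,[(32,0),(0,0)]⟩,⟨1,[(53,0),(0,0)]⟩⟩ ⟨true,0,⟨13,[(0,5),(0,7),(9,3),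
  (20,3),(3,1),(5,6),(5,2)]⟩,⟨4,[(2,0),(4,0),(3,0),(5,0),(1,0),(6,3)]⟩⟩,.o ⟨false,0,⟨11,[(2,0),(4,
  0),(3,5),(5,1),(8,10),(5,4),(11,1),(3,5)]⟩,⟨1,[(0,1),(37,0),(14,0)]⟩⟩]⟩) (.Q [0,0,1,0,-1,0,0,0,1,
  0,0,1] (.p true [0,0,0,0,1] [] (⟨0,[(28,0)]⟩,⟨0,[(27,0)]⟩) .k 0 (⟨0,[]⟩,⟨0,[]⟩) .k .k) (.Q [1,1,0,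
  -1,-1,0,0,0,1,0,0,1] (.p true [0,0,0,0,1] [] (⟨0,[(29,0)]⟩,⟨0,[(28,0)]⟩) .k 0 (⟨0,[]⟩,⟨0,[]⟩) .k
  .k) (.R ⟨1,true,false,false,[1,-1],[1,0,0,0,-1],[0,0,-1,-1],(⟨0,[(41,0)]⟩,⟨0,[(42,0)]⟩),(⟨0,[(29,
  0)]⟩,⟨0,[(30,0)]⟩),⟨1,[(12,0),(13,0),(14,0)]⟩,.k,.k,(.r (-2) ⟨2,[(6,0),(2,0),(8,0),(1,1),(3,0)]⟩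
  ⟨0,[(13,0),(20,0),(3,0)]⟩),(.r (-1) ⟨5,[(6,0),(2,0),(8,0),(1,1),(3,0)]⟩ ⟨1,[(34,0),(0,0),(2,1)]⟩),
  (.r (-2) ⟨2,[(6,0),(2,0),(8,0),(1,1),(3,0)]⟩ ⟨0,[(13,0),(20,0),(3,0)]⟩),.k,⟨true,1,⟨5,[(6,0),(2,
  0),(8,0),(1,1),(3,0)]⟩,⟨0,[(13,0),(20,0)]⟩⟩,⟨false,2,⟨19,[(3,17),(2,2),(2,3),(0,0),(6,0),(2,5),(3,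
  2),(2,2)]⟩,⟨0,[(1,0)]⟩⟩,⟨false,1,⟨3,[(6,0),(2,0),(8,0),(5,0),(31,1)]⟩,⟨0,[]⟩⟩,⟨true,1,⟨2,[(3,1),
  (2,0),(11,0),(16,0),(2,0)]⟩,⟨0,[(0,0)]⟩⟩,⟨true,0,⟨0,[(54,0)]⟩,⟨0,[(53,0)]⟩⟩,⟨false,1,⟨0,[(3,0),
  (34,0),(7,0)]⟩,⟨2,[(2,0),(1,0),(14,0),(1,0),(6,1)]⟩⟩,[]⟩) (.R ⟨2,true,false,true,[0,1],[0,0,0,0,
  1],[2,1,1],(⟨0,[]⟩,⟨0,[]⟩),(⟨0,[(30,0)]⟩,⟨0,[(29,0)]⟩),⟨0,[]⟩,.k,.k,.k,(.r 0 ⟨1,[(34,0),(0,0),(2,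
  1)]⟩ ⟨5,[(6,0),(2,0),(8,0),(1,1),(3,0)]⟩),.k,.k,⟨false,0,⟨0,[]⟩,⟨137,[(3,38),(2,20),(2,59),(0,6),
  (6,6),(2,12),(3,36),(24,7)]⟩⟩,⟨true,(-1),⟨0,[(1,0)]⟩,⟨0,[(27,0)]⟩⟩,⟨true,0,⟨0,[(53,0)]⟩,⟨0,[(38,
  0)]⟩⟩,⟨false,0,⟨5,[(2,0),(1,0),(14,0),(1,0),(6,4)]⟩,⟨0,[(0,0)]⟩⟩,⟨false,0,⟨0,[]⟩,⟨20,[(6,4),(2,4),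
  (0,0),(7,2),(5,4),(31,10),(0,1)]⟩⟩,⟨true,(-1),⟨1,[(1,1),(42,0),(10,0)]⟩,⟨48,[(0,10),(3,3),(1,7),
  (13,0),(6,29),(22,1),(6,2),(0,10)]⟩⟩,[]⟩)) (.R ⟨2,true,false,false,[0,1],[0,0,0,0,1],[1,0,1],(⟨0,
  []⟩,⟨0,[]⟩),(⟨0,[(29,0)]⟩,⟨0,[(28,0)]⟩),⟨0,[]⟩,.k,.k,.k,(.r 0 ⟨1,[(33,0),(0,0),(2,1)]⟩ ⟨5,[(5,0),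
  (2,0),(8,0),(1,1),(3,0)]⟩),.k,.k,⟨true,0,⟨1,[(33,0),(0,0)]⟩,⟨0,[]⟩⟩,⟨false,0,⟨0,[(27,0)]⟩,⟨0,[(0,
  0)]⟩⟩,⟨false,1,⟨37,[(8,0),(8,9),(1,5),(0,9),(2,0),(2,0),(7,8),(20,13)]⟩,⟨0,[(53,0)]⟩⟩,⟨true,0,⟨5,
  [(1,0),(1,0),(14,0),(1,0),(6,4)]⟩,⟨0,[(0,0),(36,0),(5,0),(1,0)]⟩⟩,⟨true,0,⟨0,[]⟩,⟨0,[(57,0)]⟩⟩,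
  ⟨false,0,⟨1,[(1,1),(46,0),(6,0)]⟩,⟨1,[(0,0),(25,0),(29,0)]⟩⟩,[]⟩))) (.R ⟨0,false,false,false,[0,0,
  0,0,1],[0,1],[],(⟨0,[(27,0)]⟩,⟨0,[(26,0)]⟩),(⟨0,[(39,0)]⟩,⟨0,[(38,0)]⟩),⟨0,[(4,0)]⟩,.k,.k,(.r
  (-1) ⟨5,[(3,0),(2,0),(8,0),(1,1),(3,0)]⟩ ⟨1,[(31,0),(0,0),(2,1)]⟩),(.r (-1) ⟨5,[(3,0),(2,0),(8,0),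
  (1,1),(3,0)]⟩ ⟨1,[(31,0),(0,0),(2,1)]⟩),.k,.k,⟨true,1,⟨5,[(3,0),(2,0),(8,0),(1,1),(3,0)]⟩,⟨0,[(10,
  0),(20,0)]⟩⟩,⟨false,2,⟨0,[(24,0),(27,0)]⟩,⟨0,[(0,0),(34,0)]⟩⟩,⟨false,1,⟨20,[(3,4),(2,4),(0,0),(7,
  2),(5,4),(31,10),(0,1)]⟩,⟨0,[]⟩⟩,⟨true,1,⟨0,[(24,0),(10,0)]⟩,⟨1,[(0,1),(40,0),(10,0)]⟩⟩,⟨false,0,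
  ⟨0,[]⟩,⟨0,[]⟩⟩,⟨false,0,⟨0,[]⟩,⟨0,[]⟩⟩,[.a ⟨true,0,⟨0,[(51,0)]⟩,⟨57,[(3,8),(3,2),(6,2),(5,28),(0,
  2),(3,8),(10,4),(1,4),(7,8)]⟩⟩ ⟨false,1,⟨9,[(6,3),(14,1),(2,3),(21,0),(5,2)]⟩,⟨0,[]⟩⟩ ⟨true,1,⟨0,
  [(24,0),(10,0)]⟩,⟨0,[(0,0)]⟩⟩,.o ⟨false,1,⟨1,[(35,1),(11,0),(5,0)]⟩,⟨0,[(50,0)]⟩⟩,.o ⟨false,0,⟨3,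
  [(0,1),(5,1),(3,0),(0,0),(35,0)]⟩,⟨0,[(24,0)]⟩⟩,.e ⟨false,1,⟨1,[(52,0),(0,0)]⟩,⟨1,[(31,0),(0,
  0)]⟩⟩ ⟨false,2,⟨1,[(24,1),(10,1),(16,0),(0,0)]⟩,⟨0,[(0,0)]⟩⟩]⟩))))) (.Q [0,0,0,0,0,0,0,0,-1,1,0,
  -1] (.p false [0,0,0,0,1] [1] (⟨0,[(23,0)]⟩,⟨0,[(22,0)]⟩) .k 1 (⟨0,[]⟩,⟨0,[]⟩) .k .k) (.R ⟨1,
  false,false,true,[0,0,0,0,1],[0,1],[1,1,1],(⟨0,[(24,0)]⟩,⟨0,[(23,0)]⟩),(⟨0,[(36,0)]⟩,⟨0,[(35,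
  0)]⟩),⟨0,[(1,0)]⟩,.k,.k,(.r (-1) ⟨2,[(14,0),(6,0),(0,0)]⟩ ⟨1,[(28,0),(0,0),(2,1)]⟩),(.r (-1) ⟨2,
  [(14,0),(6,0),(0,0)]⟩ ⟨1,[(28,0),(0,0),(2,1)]⟩),(.r (-2) ⟨2,[(14,1),(6,1),(0,1)]⟩ ⟨0,[(7,0),(20,
  0),(3,0)]⟩),.k,⟨false,1,⟨2,[(14,0),(6,0),(0,0)]⟩,⟨0,[(48,0)]⟩⟩,⟨true,1,⟨1,[(0,1),(33,0),(14,0)]⟩,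
  ⟨2,[(3,0),(1,0),(1,3),(5,0),(8,1),(5,2)]⟩⟩,⟨false,0,⟨1,[(28,0),(0,0)]⟩,⟨1,[(49,0),(0,0)]⟩⟩,⟨true,
  0,⟨1,[(0,1),(31,1),(1,0),(3,0)]⟩,⟨2,[(3,0),(1,0),(1,0),(5,0),(8,1)]⟩⟩,⟨true,(-1),⟨1,[(7,0),(20,0),
  (3,0),(5,0)]⟩,⟨2,[(14,0),(6,0),(0,0)]⟩⟩,⟨true,0,⟨1,[(0,1),(31,3),(5,0),(5,0)]⟩,⟨2,[(3,1),(1,1),(1,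
  1),(5,1),(8,0)]⟩⟩,[.o ⟨false,0,⟨1,[(32,1),(5,0),(5,0)]⟩,⟨37,[(3,0),(8,9),(1,5),(0,9),(2,0),(2,0),
  (7,8),(20,13)]⟩⟩,.e ⟨false,0,⟨0,[]⟩,⟨9,[(3,3),(14,1),(2,3),(21,0),(5,2)]⟩⟩ ⟨false,1,⟨1,[(0,1),(31,
  1),(11,0),(4,0)]⟩,⟨2,[(3,0),(1,0),(1,0),(5,0),(8,1)]⟩⟩,.a ⟨true,0,⟨0,[(22,0)]⟩,⟨0,[(0,0)]⟩⟩
  ⟨false,0,⟨1,[(28,0),(0,0)]⟩,⟨1,[(49,0),(0,0)]⟩⟩ ⟨true,0,⟨1,[(0,1),(31,1),(5,0),(5,0)]⟩,⟨2,[(3,0),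
  (1,0),(1,0),(5,0),(8,1)]⟩⟩,.o ⟨false,0,⟨2,[(3,0),(3,1),(4,0),(0,0),(8,1),(17,0),(3,0)]⟩,⟨1,[(0,1),
  (33,0),(14,0)]⟩⟩]⟩) (.Q [1,1,0,-2,-1,0,0,0,1,0,0,1] (.p true [0,0,0,0,1] [] (⟨0,[(24,0)]⟩,⟨0,[(23,
  0)]⟩) .k 0 (⟨0,[]⟩,⟨0,[]⟩) .k .k) (.R ⟨1,false,false,false,[0,0,0,0,1],[0,1],[],(⟨0,[(25,0)]⟩,⟨0,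
  [(24,0)]⟩),(⟨0,[(37,0)]⟩,⟨0,[(36,0)]⟩),⟨0,[(2,0)]⟩,.k,.k,(.r (-1) ⟨2,[(15,0),(6,0),(0,0)]⟩ ⟨1,
  [(29,0),(0,0),(2,1)]⟩),(.r (-1) ⟨2,[(15,0),(6,0),(0,0)]⟩ ⟨1,[(29,0),(0,0),(2,1)]⟩),(.r (-2) ⟨2,
  [(15,1),(6,1),(0,1)]⟩ ⟨0,[(8,0),(20,0),(3,0)]⟩),.k,⟨true,1,⟨2,[(15,0),(6,0),(0,0)]⟩,⟨0,[(8,0),(20,
  0)]⟩⟩,⟨false,2,⟨0,[(22,0),(27,0)]⟩,⟨10,[(0,4),(0,5),(6,2),(20,2),(3,6),(7,4),(2,2)]⟩⟩,⟨false,1,⟨4,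
  [(22,1),(0,1),(27,2),(1,0)]⟩,⟨0,[]⟩⟩,⟨true,1,⟨0,[(22,0),(10,0)]⟩,⟨4,[(0,2),(0,1),(31,0),(5,0),(4,
  0)]⟩⟩,⟨true,0,⟨0,[(33,0)]⟩,⟨0,[(48,0)]⟩⟩,⟨true,1,⟨0,[(22,0),(10,1)]⟩,⟨0,[(0,0)]⟩⟩,[.a ⟨true,0,⟨0,
  [(49,0)]⟩,⟨5,[(18,2),(3,0),(0,0),(10,0),(1,0),(7,0)]⟩⟩ ⟨false,1,⟨9,[(4,3),(14,1),(2,3),(21,0),(5,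
  2)]⟩,⟨0,[]⟩⟩ ⟨true,1,⟨0,[(22,0),(10,0)]⟩,⟨10,[(0,8),(0,1),(6,0),(20,0),(3,5),(7,8),(2,0)]⟩⟩,.o
  ⟨false,1,⟨1,[(33,1),(11,0),(5,0)]⟩,⟨0,[(48,0)]⟩⟩,.o ⟨false,0,⟨0,[(1,0)]⟩,⟨0,[(22,0)]⟩⟩,.e ⟨false,
  1,⟨1,[(50,0),(0,0)]⟩,⟨1,[(29,0),(0,0)]⟩⟩ ⟨false,2,⟨1,[(22,1),(10,1),(16,0),(0,0)]⟩,⟨10,[(0,8),(0,
  1),(6,0),(20,0),(3,5),(7,8),(2,0)]⟩⟩]⟩) (.Q [0,0,-1,0,1,0,0,0,-1,0,0,-1] (.p false [0,0,0,0,1] []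
  (⟨0,[(25,0)]⟩,⟨0,[(24,0)]⟩) .k 0 (⟨0,[]⟩,⟨0,[]⟩) .k .k) (.R ⟨2,true,false,false,[0,1],[0,0,0,0,1],
  [1,0,1],(⟨0,[]⟩,⟨0,[]⟩),(⟨0,[(26,0)]⟩,⟨0,[(25,0)]⟩),⟨0,[]⟩,.k,.k,.k,(.r 0 ⟨5,[(1,1),(7,1),(14,1),
  (5,2),(0,0),(22,1)]⟩ ⟨2,[(16,0),(6,0),(0,0)]⟩),.k,.k,⟨true,0,⟨1,[(30,0),(0,0)]⟩,⟨0,[]⟩⟩,⟨false,0,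
  ⟨0,[(24,0)]⟩,⟨0,[(0,0)]⟩⟩,⟨false,1,⟨37,[(5,0),(8,9),(1,5),(0,9),(2,0),(2,0),(7,8),(20,13)]⟩,⟨0,
  [(50,0)]⟩⟩,⟨true,0,⟨1,[(2,0),(16,0),(4,0)]⟩,⟨0,[(0,0),(33,0),(5,0),(1,0)]⟩⟩,⟨true,0,⟨0,[]⟩,⟨0,
  [(54,0)]⟩⟩,⟨false,0,⟨1,[(2,1),(42,0),(6,0)]⟩,⟨1,[(0,0),(22,0),(29,0)]⟩⟩,[]⟩) (.S ⟨1,0,[1,1],[0,0,
  0,0,1],[1,1,1],(⟨0,[(26,0)]⟩,⟨0,[(25,0)]⟩),⟨0,[(3,0)]⟩,.k,(.r (-1) ⟨2,[(16,0),(6,0),(0,0)]⟩ ⟨5,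
  [(1,1),(7,1),(14,1),(5,2),(0,0),(22,1)]⟩),⟨false,0,⟨1,[(30,0),(0,0)]⟩,⟨1,[(51,0),(0,0)]⟩⟩,⟨true,0,
  ⟨0,[(54,0)]⟩,⟨0,[]⟩⟩,⟨true,(-1),⟨1,[(9,0),(20,0),(3,0),(5,0)]⟩,⟨2,[(16,0),(6,0),(0,0)]⟩⟩,⟨false,0,
  ⟨0,[(50,0)]⟩,⟨37,[(5,0),(8,9),(1,5),(0,9),(2,0),(2,0),(7,8),(20,13)]⟩⟩,[.e ⟨false,0,⟨0,[(54,0)]⟩,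
  ⟨1,[(51,0),(0,0)]⟩⟩ ⟨false,0,⟨0,[(43,0)]⟩,⟨8,[(1,0),(3,1),(8,1),(3,1),(1,1),(2,0),(28,2)]⟩⟩,.o
  ⟨false,0,⟨0,[(2,0)]⟩,⟨11,[(1,1),(2,0),(3,0),(6,1),(6,0),(0,9),(11,2),(10,0)]⟩⟩,.o ⟨false,0,⟨0,[(2,
  0)]⟩,⟨0,[(23,0)]⟩⟩,.a ⟨true,(-1),⟨0,[(0,0)]⟩,⟨64,[(1,51),(2,8),(10,17),(0,15),(2,9),(3,12),(15,
  16),(5,22)]⟩⟩ ⟨false,0,⟨0,[]⟩,⟨8,[(1,0),(3,1),(8,1),(3,1),(1,1),(2,0),(28,2)]⟩⟩ ⟨true,0,⟨0,[(43,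
  0)]⟩,⟨1,[(30,0),(0,0)]⟩⟩]⟩))))))) (.R ⟨0,false,false,false,[0,-1,1],[1,-1,-1],[],(⟨0,[(16,0)]⟩,
  ⟨22,[(17,2),(0,2),(7,22),(2,4),(8,5),(0,2)]⟩),(⟨0,[(15,0)]⟩,⟨22,[(17,2),(0,2),(8,22),(1,4),(8,5),
  (0,2)]⟩),⟨2,[(2,1),(23,0),(2,0),(8,2)]⟩,.k,.k,(.r (-1) ⟨3,[(0,1),(0,1),(7,1),(20,0),(3,0),(10,
  3)]⟩ ⟨1,[(8,1),(15,0),(0,0),(2,3)]⟩),.k,.k,.k,⟨false,0,⟨18,[(0,6),(2,0),(10,1),(7,4),(5,17),(4,0),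
  (6,0)]⟩,⟨3,[(1,1),(6,1),(15,1),(9,0),(5,0),(4,3)]⟩⟩,⟨true,(-1),⟨18,[(0,3),(0,7),(1,17),(0,0),(5,
  0),(10,10),(11,2),(0,2)]⟩,⟨1,[(24,3),(15,0),(4,0)]⟩⟩,⟨true,0,⟨0,[(8,0),(19,0)]⟩,⟨79,[(0,37),(8,3),
  (0,23),(3,1),(18,7),(0,48),(5,0)]⟩⟩,⟨false,0,⟨1,[(4,0),(0,0),(1,1),(0,0)]⟩,⟨1,[(0,1),(23,3),(9,0),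
  (5,0),(4,1)]⟩⟩,⟨false,0,⟨0,[]⟩,⟨0,[]⟩⟩,⟨false,0,⟨0,[]⟩,⟨0,[]⟩⟩,[.o ⟨false,0,⟨0,[(5,0)]⟩,⟨1,[(12,
  0),(9,0),(5,2),(11,0)]⟩⟩,.a ⟨true,0,⟨1,[(1,0),(5,0)]⟩,⟨0,[(22,0),(5,0)]⟩⟩ ⟨false,1,⟨1,[(45,0),(0,
  0)]⟩,⟨0,[(48,0)]⟩⟩ ⟨true,0,⟨0,[(1,0),(2,0)]⟩,⟨1,[(3,0),(18,1),(1,2),(3,0),(11,0)]⟩⟩,.e ⟨false,1,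
  ⟨1,[(17,0),(0,0),(27,0)]⟩,⟨0,[]⟩⟩ ⟨false,0,⟨0,[(1,0),(2,0)]⟩,⟨1,[(12,0),(9,0),(1,1),(3,2),(11,
  0)]⟩⟩,.o ⟨false,0,⟨1,[(24,1),(9,0),(1,1),(3,0)]⟩,⟨6,[(4,2),(5,0),(3,1),(25,0),(4,3)]⟩⟩]⟩))))

theorem ok17 : chk K t17 r14 = true := by decide +kernel


end Helper48.Y.Y11_c35_P3_m1n1_K2
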