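import Pool.Agent.Helper48.Y.Y11_c35_P4_m1n1_CB_q

set_option autoImplicit false
set_option linter.all false

namespace Helper48.Y.Y11_c35_P4_m1n1_CB

open Helper25.KG Helper25.KW Helper55.KE Helper11.CT

noncomputable def t0 : Tre :=
  (.S ⟨1,0,[0,0,0,0,0,0,0,-1],[1,0,-1],[0,1,0,0,0,0,0,-1],(⟨0,[(13,0)]⟩,⟨0,[(14,0)]⟩),⟨0,[(2,0)]⟩,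
  .k,.k,⟨true,0,⟨0,[(31,0)]⟩,⟨0,[]⟩⟩,⟨false,1,⟨1,[(4,0),(0,0),(23,0)]⟩,⟨0,[]⟩⟩,⟨false,0,⟨0,[(27,
  0)]⟩,⟨0,[(26,0),(2,0)]⟩⟩,⟨true,0,⟨0,[(27,0)]⟩,⟨0,[(26,0)]⟩⟩,[.o ⟨false,0,⟨0,[(0,0),(11,0),(9,0)]⟩,
  ⟨1,[(9,1),(6,0),(12,0)]⟩⟩,.a ⟨true,0,⟨1,[(0,1),(0,0),(4,0),(0,0)]⟩,⟨0,[(9,0)]⟩⟩ ⟨false,0,⟨0,[(0,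
  0),(21,0)]⟩,⟨3,[(1,1),(2,0),(0,0),(3,3),(6,0),(12,1)]⟩⟩ ⟨true,0,⟨0,[(0,0)]⟩,⟨0,[(9,0),(2,0)]⟩⟩,.e
  ⟨false,0,⟨3,[(0,2),(9,0),(0,0),(12,0)]⟩,⟨1,[(8,1),(0,1),(6,0),(4,1),(7,0)]⟩⟩ ⟨false,0,⟨0,[(0,0)]⟩,
  ⟨3,[(1,1),(2,0),(0,0),(3,3),(6,0),(12,1)]⟩⟩,.o ⟨false,0,⟨0,[(12,0)]⟩,⟨1,[(0,1),(8,1),(6,0),(11,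
  0)]⟩⟩]⟩)

theorem ok0 : chk K t0 l0 = true := by decide +kernel

noncomputable def t1 : Tre :=
  (.S ⟨1,0,[0,0,0,0,0,0,0,1],[0,0,1],[0,1,0,0,0,0,0,1],(⟨0,[(16,0)]⟩,⟨0,[(15,0)]⟩),⟨0,[(5,0)]⟩,.k,
  .k,⟨true,0,⟨0,[(33,0)]⟩,⟨0,[]⟩⟩,⟨false,1,⟨1,[(6,0),(0,0),(23,0)]⟩,⟨0,[]⟩⟩,⟨false,0,⟨0,[(29,0)]⟩,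
  ⟨0,[(28,0),(2,0)]⟩⟩,⟨true,0,⟨0,[(29,0)]⟩,⟨0,[(28,0)]⟩⟩,[.e ⟨false,0,⟨2,[(0,1),(1,0),(23,0)]⟩,⟨0,
  [(1,0)]⟩⟩ ⟨false,0,⟨0,[(0,0)]⟩,⟨0,[(1,0),(31,0)]⟩⟩,.o ⟨false,1,⟨1,[(0,1),(12,1),(4,0),(12,0)]⟩,⟨0,
  [(12,0)]⟩⟩,.o ⟨false,1,⟨1,[(13,1),(4,0),(11,0)]⟩,⟨0,[(0,0),(11,0),(10,0)]⟩⟩,.a ⟨true,0,⟨0,[(13,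
  0)]⟩,⟨0,[(10,0)]⟩⟩ ⟨false,0,⟨0,[(0,0)]⟩,⟨1,[(1,1),(11,0),(0,0)]⟩⟩ ⟨true,0,⟨0,[(0,0)]⟩,⟨0,[(12,0),
  (0,0)]⟩⟩]⟩)

theorem ok1 : chk K t1 l2 = true := by decide +kernel

noncomputable def t2 : Tre :=
  (.R ⟨2,true,false,true,[0,1],[0,0,1],[0,1,1,1],(⟨0,[]⟩,⟨0,[]⟩),(⟨0,[(19,0)]⟩,⟨0,[(18,0)]⟩),⟨0,[]⟩,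
  .k,.k,.k,.k,.k,.k,⟨false,0,⟨0,[(0,0),(15,0),(10,0)]⟩,⟨1,[(1,1),(31,0),(0,0)]⟩⟩,⟨true,0,⟨0,[(16,
  0)]⟩,⟨0,[(2,0)]⟩⟩,⟨true,0,⟨0,[(36,0)]⟩,⟨0,[]⟩⟩,⟨false,1,⟨0,[(14,0),(16,0),(2,0)]⟩,⟨0,[(0,0)]⟩⟩,
  ⟨false,0,⟨0,[(32,0)]⟩,⟨0,[(31,0),(2,0)]⟩⟩,⟨true,0,⟨0,[(14,0)]⟩,⟨0,[(0,0),(30,0)]⟩⟩,[]⟩)

theorem ok2 : chk K t2 l5 = true := by decide +kernel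

noncomputable def t3 : Tre :=
  (.Q [0,-1,0,-2,1,0,0,0,0,1] (.pp false [-1,1]) (.R ⟨1,true,false,true,[1,-1],[0,1],[1,1,1,1],(⟨0,
  [(24,0)]⟩,⟨0,[(25,0)]⟩),(⟨0,[(25,0)]⟩,⟨0,[(24,0)]⟩),⟨0,[(9,0),(0,0)]⟩,.k,.k,(.r (-2) ⟨2,[(0,1),
  (22,0),(9,1),(1,2)]⟩ ⟨5,[(1,3),(4,1),(9,1),(1,0),(0,2)]⟩),(.r (-2) ⟨2,[(0,1),(22,0),(9,1),(1,2)]⟩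
  ⟨5,[(1,3),(4,1),(9,1),(1,0),(0,2)]⟩),(.r (-3) ⟨1,[(0,1),(22,0),(9,1),(1,2)]⟩ ⟨1,[(1,1),(16,0),(0,
  0)]⟩),.k,⟨true,0,⟨0,[]⟩,⟨1,[(18,0),(0,0)]⟩⟩,⟨false,2,⟨1,[(23,0),(11,2)]⟩,⟨0,[(0,0),(0,0),(31,
  0)]⟩⟩,⟨true,(-2),⟨0,[(1,0),(31,0)]⟩,⟨2,[(0,1),(22,0),(9,1),(1,2)]⟩⟩,⟨false,0,⟨1,[(1,0),(21,0),(10,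
  0),(0,0)]⟩,⟨0,[(0,0)]⟩⟩,⟨false,(-2),⟨0,[(1,0)]⟩,⟨2,[(0,3),(22,1),(9,0),(1,2)]⟩⟩,⟨true,(-1),⟨1,[(1,
  1),(21,0),(5,1),(5,0)]⟩,⟨0,[(0,0),(32,0)]⟩⟩,[]⟩) (.R ⟨1,true,false,false,[1,-1],[1,0,-1],[1,1,1],
  (⟨0,[(24,0)]⟩,⟨0,[(25,0)]⟩),(⟨0,[(20,0)]⟩,⟨0,[(21,0)]⟩),⟨0,[(9,0),(0,0)]⟩,.k,.k,(.r (-2) ⟨0,[(33,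
  1),(1,0),(0,0)]⟩ ⟨5,[(1,3),(4,1),(9,1),(1,0),(0,2)]⟩),.k,(.r (-2) ⟨0,[(3,0),(29,0),(1,0),(0,0)]⟩
  ⟨2,[(1,1),(3,0),(0,0),(10,0),(0,0)]⟩),.k,⟨true,(-1),⟨0,[(0,0),(1,0),(12,0),(12,1),(4,0)]⟩,⟨0,[(5,
  0),(21,0),(1,0)]⟩⟩,⟨false,1,⟨1,[(15,1),(7,0),(11,0)]⟩,⟨0,[(18,0)]⟩⟩,⟨false,(-1),⟨3,[(1,1),(16,0),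
  (0,0),(8,1),(4,1)]⟩,⟨0,[(33,0),(1,0),(0,0)]⟩⟩,⟨true,0,⟨1,[(0,0),(5,0),(8,0),(1,0),(10,0)]⟩,⟨0,[(2,
  0)]⟩⟩,⟨true,(-2),⟨0,[(1,0),(31,0)]⟩,⟨0,[(33,1),(1,0),(0,0)]⟩⟩,⟨false,0,⟨0,[(0,0),(5,0),(8,0),(12,
  0)]⟩,⟨0,[(2,0),(30,0),(2,0)]⟩⟩,[]⟩))

theorem ok3 : chk K t3 l6 = true := by decide +kernel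

noncomputable def t4 : Tre :=
  (.Q [0,-1,0,-1,1,0,1,1,0,-1,1] (.p true [0,0,1] [1] (⟨0,[(22,0)]⟩,⟨0,[(21,0)]⟩) .k 1 (⟨0,[]⟩,⟨0,
  []⟩) .k .k) (.S ⟨1,0,[0,1,1,1,0,0,0,-1],[1,1,-1],[1,0,1,0,0,0,0,-1],(⟨0,[(22,0),(1,0)]⟩,⟨0,[(12,
  0)]⟩),⟨0,[(22,0)]⟩,.k,.k,⟨false,1,⟨5,[(3,1),(16,0),(0,0),(8,1),(7,1)]⟩,⟨0,[(36,0)]⟩⟩,⟨true,0,⟨0,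
  [(40,0)]⟩,⟨0,[]⟩⟩,⟨true,0,⟨0,[]⟩,⟨0,[(40,0)]⟩⟩,⟨false,0,⟨0,[(36,0)]⟩,⟨5,[(3,1),(16,0),(0,0),(8,1),
  (7,1)]⟩⟩,[.o ⟨false,0,⟨0,[(1,0),(38,0)]⟩,⟨0,[(0,0)]⟩⟩,.o ⟨false,0,⟨0,[(1,0)]⟩,⟨15,[(0,7),(2,1),(1,
  1),(12,5),(1,2),(0,0),(3,3)]⟩⟩,.a ⟨true,0,⟨0,[(17,0)]⟩,⟨0,[(20,0)]⟩⟩ ⟨true,0,⟨0,[(7,0)]⟩,⟨0,[(2,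
  0),(33,0)]⟩⟩ ⟨false,0,⟨0,[(1,0),(18,0)]⟩,⟨0,[(0,0),(16,0)]⟩⟩,.o ⟨false,0,⟨0,[(6,0)]⟩,⟨1,[(20,1),
  (4,0),(11,0)]⟩⟩]⟩) (.Q [0,-1,0,0,1,0,1,1,0,-1,1] (.p true [0,0,1] [1] (⟨0,[(23,0)]⟩,⟨0,[(22,0)]⟩)
  .k 1 (⟨0,[]⟩,⟨0,[]⟩) .k .k) (.R ⟨2,true,false,true,[0,1],[1,1,-1],[0,1,1,1],(⟨0,[]⟩,⟨0,[]⟩),(⟨0,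
  [(23,0),(1,0)]⟩,⟨0,[(13,0)]⟩),⟨0,[]⟩,.k,.k,.k,.k,.k,.k,⟨true,0,⟨0,[(3,0),(27,0),(5,0)]⟩,⟨0,[(8,
  0)]⟩⟩,⟨false,0,⟨0,[(18,0)]⟩,⟨1,[(21,1),(4,0),(11,0)]⟩⟩,⟨true,0,⟨0,[(41,0)]⟩,⟨0,[]⟩⟩,⟨false,0,⟨7,
  [(1,5),(2,1),(4,1),(1,0),(4,0),(0,0),(13,3)]⟩,⟨0,[(0,0)]⟩⟩,⟨false,0,⟨0,[(37,0)]⟩,⟨5,[(4,1),(16,0),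
  (0,0),(8,1),(7,1)]⟩⟩,⟨true,(-1),⟨0,[(1,0)]⟩,⟨6,[(0,2),(3,0),(0,2),(0,0),(14,0),(4,1),(4,0)]⟩⟩,
  []⟩) (.Q [0,-1,0,1,1,0,1,1,0,-1,1] (.p true [0,0,1] [1] (⟨0,[(24,0)]⟩,⟨0,[(23,0)]⟩) .k 1 (⟨0,[]⟩,
  ⟨0,[]⟩) .k .k) (.R ⟨2,true,false,true,[0,1],[1,0,-1],[1,1,1],(⟨0,[]⟩,⟨0,[]⟩),(⟨0,[(24,0)]⟩,⟨0,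
  [(25,0)]⟩),⟨0,[]⟩,.k,.k,.k,.k,.k,.k,⟨false,0,⟨1,[(0,0),(1,0),(1,1),(27,1)]⟩,⟨0,[(9,0),(29,0)]⟩⟩,
  ⟨true,(-1),⟨0,[(2,0),(1,0),(27,1)]⟩,⟨1,[(22,1),(4,0),(11,0)]⟩⟩,⟨true,0,⟨0,[(37,0)]⟩,⟨0,[(38,0)]⟩⟩,
  ⟨false,0,⟨8,[(1,7),(3,2),(4,0),(1,0),(9,0),(9,4),(7,0)]⟩,⟨0,[(0,0)]⟩⟩,⟨false,0,⟨0,[]⟩,⟨11,[(0,2),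
  (4,0),(4,3),(1,2),(7,0),(1,1),(17,2)]⟩⟩,⟨true,(-1),⟨0,[(1,0)]⟩,⟨15,[(0,7),(4,1),(1,1),(12,5),(1,
  2),(0,0),(3,3)]⟩⟩,[]⟩) (.I [1,1,1,0,-1,0,0,1] (.Q [0,-1,0,2,1,0,1,1,0,-1,1] (.p true [0,0,1] [1]
  (⟨0,[(26,0)]⟩,⟨0,[(25,0)]⟩) .k 1 (⟨0,[]⟩,⟨0,[]⟩) .k .k) (.R ⟨1,true,false,false,[1,0,-1],[0,1],[0,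
  0,0,0,0,0,0,-1],(⟨0,[(26,0)]⟩,⟨0,[(27,0)]⟩),(⟨0,[(31,0)]⟩,⟨0,[(30,0)]⟩),⟨0,[(15,0)]⟩,.k,.k,.k,.k,
  (.r (-2) ⟨3,[(2,1),(4,1),(4,1),(11,1),(4,0),(11,2)]⟩ ⟨2,[(0,1),(0,2),(2,1),(29,2)]⟩),.k,⟨true,1,
  ⟨1,[(2,1),(21,1),(4,0),(11,1),(0,0)]⟩,⟨2,[(0,0),(0,2),(2,0),(29,2)]⟩⟩,⟨false,2,⟨1,[(24,1),(4,0),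
  (11,2)]⟩,⟨3,[(1,1),(0,0),(1,0),(16,1),(12,3)]⟩⟩,⟨false,1,⟨27,[(0,5),(6,3),(4,5),(1,5),(9,6),(0,0),
  (16,7)]⟩,⟨0,[]⟩⟩,⟨true,1,⟨10,[(0,6),(6,0),(14,3),(1,0),(0,0),(3,1),(14,2)]⟩,⟨0,[(2,0)]⟩⟩,⟨true,0,
  ⟨0,[(40,0)]⟩,⟨0,[(39,0)]⟩⟩,⟨false,1,⟨0,[(0,0)]⟩,⟨10,[(2,9),(4,3),(4,0),(1,0),(9,0),(9,6),(7,0)]⟩⟩,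
  []⟩) (.Q [0,-1,0,2,0,0,-1,-1,0,0,-1] (.p false [0,0,1] [] (⟨0,[(27,0)]⟩,⟨0,[(26,0)]⟩) .k 0 (⟨0,
  []⟩,⟨0,[]⟩) .k .k) (.I [0,0,2,0,0,2,1] (.R ⟨1,false,false,false,[0,0,1],[0,1],[1,1,1],(⟨0,[(29,
  0)]⟩,⟨0,[(28,0)]⟩),(⟨0,[(33,0)]⟩,⟨0,[(32,0)]⟩),⟨0,[(18,0)]⟩,.k,.k,.k,.k,(.x 0 ⟨0,[(0,0)]⟩ ⟨5,[(1,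
  2),(0,0),(5,3),(8,2),(0,8),(4,1),(7,2),(11,2),(0,0)]⟩),.k,⟨true,0,⟨0,[(41,0)]⟩,⟨1,[(1,0),(22,0),
  (11,1)]⟩⟩,⟨false,1,⟨1,[(23,1),(7,0),(11,0)]⟩,⟨0,[(26,0)]⟩⟩,⟨false,0,⟨0,[(13,0)]⟩,⟨1,[(1,0),(6,1),
  (15,0),(19,1)]⟩⟩,⟨true,0,⟨0,[(7,0)]⟩,⟨0,[(10,0)]⟩⟩,⟨false,0,⟨1,[(1,0),(23,0),(0,1)]⟩,⟨0,[(8,0),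
  (35,0)]⟩⟩,⟨false,0,⟨0,[(1,0)]⟩,⟨2,[(9,0),(0,1),(0,0),(14,0),(9,0),(7,0)]⟩⟩,[.e ⟨false,0,⟨0,[(46,
  0)]⟩,⟨1,[(43,0),(0,0)]⟩⟩ ⟨false,0,⟨0,[(1,0),(6,0)]⟩,⟨2,[(9,0),(4,0),(9,0),(1,1)]⟩⟩,.o ⟨false,1,⟨1,
  [(1,0),(22,0),(6,0),(12,0)]⟩,⟨0,[(41,0)]⟩⟩,.o ⟨false,1,⟨1,[(26,1),(4,0),(11,0)]⟩,⟨0,[(12,0)]⟩⟩,.a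
  ⟨true,0,⟨0,[(26,0)]⟩,⟨0,[(23,0)]⟩⟩ ⟨false,0,⟨0,[]⟩,⟨1,[(19,0),(0,0),(23,0)]⟩⟩ ⟨true,0,⟨0,[(1,0),
  (6,0)]⟩,⟨0,[(26,0),(14,0)]⟩⟩]⟩) (.I [0,0,-2,-2,1,0,0,1] (.R ⟨1,false,false,false,[0,0,1],[0,1],[1,
  1,1],(⟨0,[(30,0)]⟩,⟨0,[(29,0)]⟩),(⟨0,[(34,0)]⟩,⟨0,[(33,0)]⟩),⟨0,[(19,0)]⟩,.k,.k,.k,.k,(.r (-1) ⟨0,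
  [(0,0)]⟩ ⟨1,[(2,1),(24,2),(0,0),(18,1)]⟩),.k,⟨true,0,⟨0,[(42,0)]⟩,⟨1,[(2,0),(22,0),(11,1)]⟩⟩,
  ⟨false,1,⟨7,[(0,3),(1,3),(14,1),(14,0),(7,1),(3,2)]⟩,⟨0,[(27,0)]⟩⟩,⟨false,0,⟨0,[(14,0)]⟩,⟨2,[(0,
  1),(1,1),(1,0),(20,1),(19,1)]⟩⟩,⟨true,0,⟨0,[(8,0)]⟩,⟨0,[(11,0)]⟩⟩,⟨false,0,⟨1,[(2,0),(23,0),(0,
  1)]⟩,⟨5,[(0,3),(1,0),(1,1),(20,0),(19,3)]⟩⟩,⟨false,0,⟨0,[(2,0)]⟩,⟨2,[(10,0),(0,1),(0,0),(14,0),(9,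
  0),(7,0)]⟩⟩,[.e ⟨false,0,⟨0,[(47,0)]⟩,⟨1,[(44,0),(0,0)]⟩⟩ ⟨false,0,⟨0,[(2,0),(6,0)]⟩,⟨2,[(10,0),
  (4,0),(9,0),(1,1)]⟩⟩,.o ⟨false,1,⟨1,[(2,0),(22,0),(6,0),(12,0)]⟩,⟨0,[(42,0)]⟩⟩,.o ⟨false,1,⟨1,
  [(27,1),(4,0),(11,0)]⟩,⟨0,[(13,0)]⟩⟩,.a ⟨true,0,⟨0,[(27,0)]⟩,⟨0,[(24,0)]⟩⟩ ⟨false,0,⟨0,[]⟩,⟨1,
  [(20,0),(0,0),(23,0)]⟩⟩ ⟨true,0,⟨0,[(2,0),(6,0)]⟩,⟨0,[(27,0),(14,0)]⟩⟩]⟩) (.I [0,0,2,2,-1,0,0,-1]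
  (.R ⟨1,false,false,false,[0,0,1],[0,1],[1,1,1],(⟨0,[(31,0)]⟩,⟨0,[(30,0)]⟩),(⟨0,[(35,0)]⟩,⟨0,[(34,
  0)]⟩),⟨0,[(20,0)]⟩,.k,.k,.k,.k,(.r (-2) ⟨9,[(10,1),(0,5),(5,7),(27,2),(0,4)]⟩ ⟨0,[(0,0)]⟩),.k,
  ⟨true,0,⟨0,[(43,0)]⟩,⟨5,[(1,1),(1,0),(1,1),(20,0),(19,3)]⟩⟩,⟨false,1,⟨1,[(25,1),(7,0),(11,0)]⟩,⟨0,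
  [(28,0)]⟩⟩,⟨false,0,⟨0,[(15,0)]⟩,⟨1,[(3,0),(6,1),(15,0),(19,1)]⟩⟩,⟨true,0,⟨0,[(9,0)]⟩,⟨0,[(12,
  0)]⟩⟩,⟨false,0,⟨1,[(1,0),(14,0),(31,0)]⟩,⟨0,[(10,0),(35,0)]⟩⟩,⟨false,0,⟨0,[(3,0)]⟩,⟨2,[(11,0),(0,
  1),(0,0),(14,0),(9,0),(7,0)]⟩⟩,[.e ⟨false,0,⟨0,[(48,0)]⟩,⟨1,[(45,0),(0,0)]⟩⟩ ⟨false,0,⟨0,[(3,0),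
  (6,0)]⟩,⟨2,[(11,0),(4,0),(9,0),(1,1)]⟩⟩,.o ⟨false,1,⟨1,[(3,0),(22,0),(6,0),(12,0)]⟩,⟨0,[(43,0)]⟩⟩,
  .o ⟨false,1,⟨1,[(28,1),(4,0),(11,0)]⟩,⟨0,[(14,0)]⟩⟩,.a ⟨true,0,⟨0,[(28,0)]⟩,⟨0,[(25,0)]⟩⟩ ⟨false,
  0,⟨0,[]⟩,⟨1,[(21,0),(0,0),(23,0)]⟩⟩ ⟨true,0,⟨0,[(3,0),(6,0)]⟩,⟨0,[(28,0),(14,0)]⟩⟩]⟩) (.I [0,0,-2,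
  0,0,-2,-1] (.N [0,-2,1] (-1) ⟨0,[(1,0)]⟩ ⟨0,[(2,0)]⟩ (.x (-1) ⟨3,[(17,1),(9,1),(1,4),(0,2),(0,3),
  (1,7),(0,1)]⟩ ⟨0,[(0,0)]⟩)) (.Q [0,0,-1,-1,1,0,1,0,0,0,1] (.p true [0,0,1] [] (⟨0,[(32,0)]⟩,⟨0,
  [(31,0)]⟩) .k 0 (⟨0,[]⟩,⟨0,[]⟩) .k .k) (.Q [0,0,0,0,0,2,0,0,0,-1,1] (.p true [0,0,1] [1] (⟨0,[(33,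
  0)]⟩,⟨0,[(32,0)]⟩) .k 1 (⟨0,[]⟩,⟨0,[]⟩) .k .k) (.R ⟨0,false,false,true,[1,-1,-1],[1,-1],[],(⟨0,
  [(22,0)]⟩,⟨1,[(0,0),(25,0),(0,0),(6,0)]⟩),(⟨0,[(37,0)]⟩,⟨0,[(38,0)]⟩),⟨0,[(0,0)]⟩,.k,.k,(.r (-2)
  ⟨27,[(1,13),(5,5),(6,9),(4,13),(10,7),(5,2),(11,10)]⟩ ⟨2,[(4,0),(1,1),(1,3),(20,1),(19,1)]⟩),.k,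
  .k,.k,⟨true,0,⟨5,[(4,1),(1,0),(1,1),(20,0),(19,3)]⟩,⟨0,[(46,0)]⟩⟩,⟨false,1,⟨1,[(1,1),(4,0),(22,
  0)]⟩,⟨0,[(17,0)]⟩⟩,⟨false,0,⟨1,[(6,0),(1,1),(20,0),(19,1)]⟩,⟨3,[(1,1),(7,1),(9,1),(16,0),(11,
  0)]⟩⟩,⟨true,0,⟨0,[(29,0)]⟩,⟨13,[(6,4),(0,4),(11,1),(1,0),(8,1),(5,2)]⟩⟩,⟨false,0,⟨0,[]⟩,⟨0,[]⟩⟩,
  ⟨false,0,⟨0,[]⟩,⟨0,[]⟩⟩,[.o ⟨false,0,⟨0,[(46,0)]⟩,⟨1,[(6,0),(22,0),(6,0),(12,0)]⟩⟩,.a ⟨true,0,⟨2,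
  [(7,0),(7,0),(10,1),(0,1),(21,0)]⟩,⟨0,[(47,0)]⟩⟩ ⟨false,1,⟨1,[(48,0),(0,0)]⟩,⟨0,[(51,0)]⟩⟩ ⟨true,
  1,⟨0,[(1,0)]⟩,⟨15,[(4,2),(1,6),(0,1),(0,11),(23,6),(3,0),(4,6)]⟩⟩,.e ⟨false,1,⟨1,[(24,0),(0,0),
  (23,0)]⟩,⟨0,[]⟩⟩ ⟨false,1,⟨0,[(1,0)]⟩,⟨1,[(6,0),(1,0),(23,0),(16,0)]⟩⟩,.o ⟨false,(-1),⟨15,[(4,0),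
  (1,4),(0,5),(0,11),(23,4),(3,2),(4,12)]⟩,⟨1,[(1,1),(4,0),(22,0),(6,0),(11,0)]⟩⟩]⟩) (.Q [-1,0,0,1,
  0,0,0,0,-1,0,0,-1] (.p false [0,0,0,0,1] [] (⟨0,[(27,0)]⟩,⟨0,[(26,0)]⟩) .k 0 (⟨0,[]⟩,⟨0,[]⟩) .k
  .k) (.R ⟨2,true,false,true,[0,1],[0,0,0,0,1],[0,0,1,1],(⟨0,[]⟩,⟨0,[]⟩),(⟨0,[(28,0)]⟩,⟨0,[(27,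
  0)]⟩),⟨0,[]⟩,.k,.k,.k,(.r 0 ⟨4,[(5,1),(15,1),(3,0),(0,0),(14,0),(6,0),(2,0)]⟩ ⟨5,[(15,1),(9,0),(0,
  0),(22,0)]⟩),.k,.k,⟨true,0,⟨5,[(5,1),(1,0),(1,1),(20,0),(10,3)]⟩,⟨0,[(47,0)]⟩⟩,⟨false,0,⟨0,[(26,
  0)]⟩,⟨3,[(0,2),(14,0),(9,0),(23,0)]⟩⟩,⟨false,1,⟨1,[(25,0),(0,0),(23,0)]⟩,⟨0,[]⟩⟩,⟨true,0,⟨0,[(26,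
  0),(20,0)]⟩,⟨0,[(0,0)]⟩⟩,⟨true,0,⟨0,[(48,0)]⟩,⟨0,[(47,0)]⟩⟩,⟨false,0,⟨0,[(26,0)]⟩,⟨3,[(0,2),(14,
  0),(9,0),(16,1),(7,0)]⟩⟩,[]⟩) (.Q [-1,1,0,0,0,0,0,0,-1,1,0,-1] (.p false [0,0,0,0,1] [1] (⟨0,[(28,
  0)]⟩,⟨0,[(27,0)]⟩) .k 1 (⟨0,[]⟩,⟨0,[]⟩) .k .k) (.Q [0,0,0,0,0,0,0,0,1,-1,0,1] (.p true [0,0,0,0,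
  1] [1] (⟨0,[(29,0)]⟩,⟨0,[(28,0)]⟩) .k 1 (⟨0,[]⟩,⟨0,[]⟩) .k .k) (.Q [0,0,0,0,0,-1,0,0,0,1,0,-1]
  (.ed true [0,1,0,0,1] .k) (.S ⟨1,0,[-1,1],[1,0,0,0,-1],[-1],(⟨0,[(30,0)]⟩,⟨0,[(31,0)]⟩),⟨0,[(0,
  0)]⟩,.k,(.r (-1) ⟨11,[(18,3),(9,0),(0,0),(14,0),(7,1),(2,1)]⟩ ⟨3,[(8,1),(15,1),(3,0),(0,0),(23,
  0)]⟩),⟨false,1,⟨1,[(28,0),(0,0),(23,0)]⟩,⟨0,[]⟩⟩,⟨true,0,⟨0,[(55,0)]⟩,⟨0,[]⟩⟩,⟨true,0,⟨0,[(51,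
  0)]⟩,⟨0,[(50,0)]⟩⟩,⟨false,0,⟨0,[(51,0)]⟩,⟨5,[(18,1),(16,0),(0,0),(8,1),(7,1)]⟩⟩,[.a ⟨true,0,⟨0,
  [(2,0)]⟩,⟨0,[(1,0),(7,0),(25,0),(1,0),(1,1),(5,0)]⟩⟩ ⟨false,1,⟨11,[(28,4),(0,4),(14,0),(7,5),(2,
  1)]⟩,⟨0,[]⟩⟩ ⟨true,0,⟨0,[(55,0)]⟩,⟨0,[(45,0)]⟩⟩,.o ⟨false,1,⟨6,[(2,1),(25,4),(15,0),(2,0)]⟩,⟨0,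
  [(1,0)]⟩⟩,.o ⟨false,1,⟨0,[(28,0)]⟩,⟨0,[(1,0)]⟩⟩,.e ⟨false,1,⟨1,[(44,0),(7,0)]⟩,⟨1,[(35,0),(0,
  0)]⟩⟩ ⟨false,1,⟨11,[(28,4),(0,4),(14,0),(7,5),(2,1)]⟩,⟨0,[(45,0)]⟩⟩]⟩) (.Q [0,0,-1,0,1,0,0,0,-1,0,
  0,-1] (.p false [0,0,0,0,1] [] (⟨0,[(31,0)]⟩,⟨0,[(30,0)]⟩) .k 0 (⟨0,[]⟩,⟨0,[]⟩) .k .k) (.S ⟨1,0,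
  [1],[0,0,0,0,1],[1,0,1],(⟨0,[(32,0)]⟩,⟨0,[(31,0)]⟩),⟨1,[(1,0),(3,0),(22,0),(3,0)]⟩,.k,(.r (-1) ⟨5,
  [(19,1),(9,0),(0,0),(22,0)]⟩ ⟨4,[(9,1),(15,1),(3,0),(0,0),(14,0),(6,0),(2,0)]⟩),⟨true,0,⟨1,[(36,
  0),(0,0)]⟩,⟨0,[(47,0)]⟩⟩,⟨false,1,⟨1,[(29,0),(0,0),(23,0)]⟩,⟨0,[]⟩⟩,⟨false,0,⟨5,[(9,1),(1,0),(1,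
  1),(20,0),(19,3)]⟩,⟨5,[(19,1),(9,0),(0,0),(22,0)]⟩⟩,⟨true,0,⟨0,[(52,0)]⟩,⟨0,[(51,0)]⟩⟩,[.o ⟨false,
  0,⟨0,[(2,0)]⟩,⟨6,[(3,1),(25,4),(15,0),(2,0)]⟩⟩,.a ⟨true,0,⟨0,[(2,0),(7,0),(25,0),(1,0),(1,1),(5,
  0)]⟩,⟨0,[(3,0)]⟩⟩ ⟨true,0,⟨0,[(50,0)]⟩,⟨0,[(56,0)]⟩⟩ ⟨false,1,⟨1,[(53,0),(0,0)]⟩,⟨0,[(56,0)]⟩⟩,.o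
  ⟨false,0,⟨0,[(2,0)]⟩,⟨0,[(29,0)]⟩⟩,.o ⟨false,0,⟨1,[(2,1),(33,0),(0,0)]⟩,⟨0,[(0,0)]⟩⟩]⟩) (.S ⟨1,0,
  [1,1],[0,0,0,0,1],[],(⟨0,[(32,0)]⟩,⟨0,[(31,0)]⟩),⟨1,[(1,0),(3,0),(22,0),(3,0)]⟩,.k,(.r (-1) ⟨5,
  [(19,1),(9,0),(0,0),(22,0)]⟩ ⟨4,[(9,1),(15,1),(3,0),(0,0),(14,0),(6,0),(2,0)]⟩),⟨false,1,⟨1,[(29,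
  0),(0,0),(14,0)]⟩,⟨0,[]⟩⟩,⟨true,0,⟨0,[(56,0)]⟩,⟨0,[]⟩⟩,⟨true,0,⟨1,[(5,3),(3,0),(0,3),(2,0),(22,3),
  (3,15),(7,1),(1,0)]⟩,⟨0,[(51,0)]⟩⟩,⟨false,0,⟨0,[(52,0)]⟩,⟨5,[(19,1),(16,0),(0,0),(8,1),(7,1)]⟩⟩,
  [.e ⟨false,1,⟨1,[(29,0),(0,0),(22,0)]⟩,⟨0,[]⟩⟩ ⟨false,0,⟨0,[(47,0)]⟩,⟨1,[(29,0),(0,0),(23,0)]⟩⟩,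
  .o ⟨false,0,⟨0,[(2,0)]⟩,⟨6,[(3,1),(25,4),(15,0),(2,0)]⟩⟩,.o ⟨false,0,⟨0,[(2,0)]⟩,⟨0,[(29,0)]⟩⟩,.a
  ⟨true,(-1),⟨0,[(0,0)]⟩,⟨1,[(3,1),(49,0),(0,0)]⟩⟩ ⟨false,1,⟨1,[(53,0),(0,0)]⟩,⟨1,[(36,0),(0,0)]⟩⟩
  ⟨true,0,⟨0,[(47,0)]⟩,⟨1,[(36,0),(0,0)]⟩⟩]⟩))) (.Q [-1,-1,0,-1,0,0,-1,-1,-1,1,-1,-1] (.p false [0,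
  0,1] [1,0,0,0,-1] (⟨0,[(37,0)]⟩,⟨0,[(36,0)]⟩) .k 2 (⟨0,[(29,0)]⟩,⟨0,[(30,0)]⟩) .k (.r 0 ⟨2,[(6,0),
  (2,0),(1,1),(20,0),(19,0)]⟩ ⟨0,[(22,0),(31,0)]⟩)) (.Q [0,0,0,0,0,-1,0,0,0,0,0,1] (.ed false [1,-1,
  0,0,1] .k) (.S ⟨1,0,[1,1],[0,0,0,0,1],[],(⟨0,[(32,0)]⟩,⟨0,[(31,0)]⟩),⟨0,[(0,0)]⟩,.k,(.r (-1) ⟨5,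
  [(19,1),(9,0),(0,0),(22,0)]⟩ ⟨4,[(9,1),(15,1),(3,0),(0,0),(14,0),(6,0),(2,0)]⟩),⟨false,1,⟨1,[(29,
  0),(0,0),(14,0)]⟩,⟨0,[]⟩⟩,⟨true,0,⟨0,[(56,0)]⟩,⟨0,[]⟩⟩,⟨true,0,⟨1,[(5,3),(3,0),(0,3),(2,0),(22,3),
  (3,15),(7,1),(1,0)]⟩,⟨0,[(51,0)]⟩⟩,⟨false,0,⟨0,[(52,0)]⟩,⟨5,[(19,1),(16,0),(0,0),(8,1),(7,1)]⟩⟩,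
  [.e ⟨false,1,⟨1,[(29,0),(0,0),(22,0)]⟩,⟨0,[]⟩⟩ ⟨false,0,⟨0,[(47,0)]⟩,⟨1,[(29,0),(0,0),(23,0)]⟩⟩,
  .a ⟨true,0,⟨0,[(30,0)]⟩,⟨194,[(1,3),(0,190),(2,13),(3,1),(0,13),(2,5),(22,17),(3,55),(4,0),(2,
  6)]⟩⟩ ⟨false,1,⟨1,[(53,0),(0,0)]⟩,⟨0,[(56,0)]⟩⟩ ⟨true,0,⟨0,[]⟩,⟨1,[(36,0),(0,0)]⟩⟩,.e ⟨false,1,⟨1,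
  [(29,0),(0,0),(23,0)]⟩,⟨0,[]⟩⟩ ⟨false,0,⟨0,[]⟩,⟨1,[(29,0),(0,0),(23,0)]⟩⟩,.o ⟨false,0,⟨11,[(4,5),
  (4,2),(3,2),(16,5),(10,3),(4,2),(1,1)]⟩,⟨1,[(2,1),(38,0),(11,0)]⟩⟩]⟩) (.S ⟨1,0,[-1,1],[1,0,0,0,
  -1],[-1],(⟨0,[(31,0)]⟩,⟨0,[(32,0)]⟩),⟨30,[(0,0),(4,7),(3,0),(0,7),(1,0),(0,1),(17,29),(4,8),(4,3),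
  (4,2)]⟩,.k,(.r (-1) ⟨11,[(19,3),(9,0),(0,0),(14,0),(7,1),(2,1)]⟩ ⟨3,[(9,1),(15,1),(3,0),(0,0),(23,
  0)]⟩),⟨false,1,⟨1,[(29,0),(0,0),(23,0)]⟩,⟨0,[]⟩⟩,⟨true,0,⟨0,[(56,0)]⟩,⟨0,[]⟩⟩,⟨true,0,⟨0,[(52,
  0)]⟩,⟨0,[(51,0)]⟩⟩,⟨false,0,⟨0,[(52,0)]⟩,⟨5,[(19,1),(16,0),(0,0),(8,1),(7,1)]⟩⟩,[.o ⟨false,0,⟨3,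
  [(1,0),(0,2),(6,0),(3,0),(6,0),(20,0),(5,2),(0,0)]⟩,⟨1,[(30,1),(10,0),(12,0)]⟩⟩,.e ⟨false,1,⟨1,
  [(45,0),(7,0)]⟩,⟨0,[(56,0)]⟩⟩ ⟨false,1,⟨11,[(29,4),(0,4),(14,0),(7,5),(2,1)]⟩,⟨0,[]⟩⟩,.a ⟨true,0,
  ⟨0,[(2,0)]⟩,⟨0,[(30,0)]⟩⟩ ⟨false,1,⟨1,[(29,0),(0,0),(14,0)]⟩,⟨0,[]⟩⟩ ⟨true,0,⟨0,[(56,0)]⟩,⟨0,[]⟩⟩,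
  .o ⟨false,0,⟨7,[(1,1),(0,5),(6,0),(3,2),(22,1),(4,3),(4,0)]⟩,⟨1,[(30,1),(10,0),(11,0)]⟩⟩]⟩)) (.Q
  [1,-1,0,0,0,0,0,0,1,0,0,1] (.p true [0,0,0,0,1] [] (⟨0,[(31,0)]⟩,⟨0,[(30,0)]⟩) .k 0 (⟨0,[]⟩,⟨0,
  []⟩) .k .k) (.R ⟨2,true,false,false,[0,1],[0,0,0,0,1],[1,1],(⟨0,[]⟩,⟨0,[]⟩),(⟨0,[(32,0)]⟩,⟨0,[(31,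
  0)]⟩),⟨0,[]⟩,.k,.k,.k,(.r 0 ⟨5,[(1,0),(7,1),(16,0),(2,0),(4,0),(10,0),(6,0),(2,1)]⟩ ⟨14,[(1,0),(4,
  0),(12,4),(4,0),(1,0),(2,0),(23,1)]⟩),.k,.k,⟨true,0,⟨0,[(56,0)]⟩,⟨0,[(50,0)]⟩⟩,⟨false,0,⟨0,[(30,
  0)]⟩,⟨1,[(2,1),(38,0),(11,0)]⟩⟩,⟨false,1,⟨14,[(1,0),(4,0),(12,4),(4,0),(1,0),(2,0),(23,1)]⟩,⟨5,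
  [(9,1),(1,0),(1,1),(20,0),(19,3)]⟩⟩,⟨true,0,⟨0,[(4,0)]⟩,⟨11,[(2,11),(6,2),(1,2),(1,2),(20,2),(6,
  1),(5,8),(0,3)]⟩⟩,⟨true,0,⟨0,[(47,0)]⟩,⟨1,[(36,0),(0,0)]⟩⟩,⟨false,0,⟨0,[(0,0)]⟩,⟨6,[(3,1),(25,4),
  (15,0),(2,0)]⟩⟩,[]⟩) (.Q [0,0,0,0,0,-1,0,0,0,0,0,1] (.ed false [1,-1,0,0,1] .k) (.S ⟨1,0,[1,1],[0,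
  0,0,0,1],[],(⟨0,[(33,0)]⟩,⟨0,[(32,0)]⟩),⟨0,[(0,0)]⟩,.k,(.r (-1) ⟨14,[(2,0),(4,0),(12,4),(4,0),(1,
  0),(2,0),(23,1)]⟩ ⟨5,[(2,0),(7,1),(16,0),(2,0),(4,0),(10,0),(6,0),(2,1)]⟩),⟨false,1,⟨19,[(2,2),
  (17,0),(4,4),(1,2),(2,2),(4,1),(1,0),(8,9),(9,0)]⟩,⟨0,[]⟩⟩,⟨true,0,⟨0,[(57,0)]⟩,⟨0,[]⟩⟩,⟨true,0,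
  ⟨1,[(6,3),(3,0),(0,3),(2,0),(22,3),(3,15),(7,1),(1,0)]⟩,⟨0,[(52,0)]⟩⟩,⟨false,0,⟨0,[(53,0)]⟩,⟨5,
  [(20,1),(16,0),(0,0),(8,1),(7,1)]⟩⟩,[.e ⟨false,1,⟨4,[(2,0),(4,0),(17,0),(1,0),(2,0),(23,1)]⟩,⟨0,
  []⟩⟩ ⟨false,0,⟨0,[(48,0)]⟩,⟨47,[(2,8),(5,0),(11,2),(4,8),(1,6),(2,8),(6,3),(2,0),(2,1),(11,23)]⟩⟩,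
  .a ⟨true,0,⟨0,[(31,0)]⟩,⟨12,[(1,0),(1,11),(2,0),(4,0),(25,0),(3,3),(5,0)]⟩⟩ ⟨false,1,⟨1,[(54,0),
  (0,0)]⟩,⟨0,[(57,0)]⟩⟩ ⟨true,0,⟨0,[]⟩,⟨1,[(37,0),(0,0)]⟩⟩,.e ⟨false,1,⟨47,[(2,8),(5,0),(11,2),(4,
  8),(1,6),(2,8),(6,3),(2,0),(2,1),(11,23)]⟩,⟨0,[]⟩⟩ ⟨false,0,⟨0,[]⟩,⟨47,[(2,8),(5,0),(11,2),(4,8),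
  (1,6),(2,8),(6,3),(2,0),(2,1),(11,23)]⟩⟩,.o ⟨false,0,⟨11,[(2,1),(2,9),(4,2),(1,0),(1,1),(23,0),(3,
  0),(4,2),(1,3)]⟩,⟨1,[(3,1),(38,0),(11,0)]⟩⟩]⟩) (.S ⟨1,0,[-1,1],[1,0,0,0,-1],[-1],(⟨0,[(32,0)]⟩,⟨0,
  [(33,0)]⟩),⟨1,[(0,0),(5,0),(22,0),(2,0)]⟩,.k,(.r (-1) ⟨149,[(2,5),(1,2),(15,51),(4,5),(1,2),(2,2),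
  (15,13),(7,22),(2,24)]⟩ ⟨9,[(2,1),(7,3),(16,1),(2,1),(4,1),(1,0),(0,0),(16,1)]⟩),⟨false,1,⟨47,[(2,
  8),(5,0),(11,2),(4,8),(1,6),(2,8),(6,3),(2,0),(2,1),(11,23)]⟩,⟨0,[]⟩⟩,⟨true,0,⟨0,[(57,0)]⟩,⟨0,
  []⟩⟩,⟨true,0,⟨0,[(53,0)]⟩,⟨0,[(52,0)]⟩⟩,⟨false,0,⟨0,[(53,0)]⟩,⟨5,[(20,1),(16,0),(0,0),(8,1),(7,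
  1)]⟩⟩,[.o ⟨false,0,⟨0,[(1,0)]⟩,⟨1,[(31,1),(10,0),(12,0)]⟩⟩,.e ⟨false,1,⟨1,[(46,0),(7,0)]⟩,⟨0,[(57,
  0)]⟩⟩ ⟨false,1,⟨29,[(2,5),(1,2),(15,1),(4,5),(1,2),(2,2),(15,3),(7,12),(2,4)]⟩,⟨0,[]⟩⟩,.a ⟨true,0,
  ⟨0,[(3,0)]⟩,⟨0,[(31,0)]⟩⟩ ⟨false,1,⟨19,[(2,2),(17,0),(4,4),(1,2),(2,2),(4,1),(1,0),(8,9),(9,0)]⟩,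
  ⟨0,[]⟩⟩ ⟨true,0,⟨0,[(57,0)]⟩,⟨0,[]⟩⟩,.o ⟨false,0,⟨0,[(1,0),(45,0)]⟩,⟨1,[(31,1),(10,0),(11,
  0)]⟩⟩]⟩))))) (.Q [0,0,-1,0,0,0,0,0,1,-1,0,1] (.p true [0,0,0,0,1] [1] (⟨0,[(29,0)]⟩,⟨0,[(28,0)]⟩)
  .k 1 (⟨0,[]⟩,⟨0,[]⟩) .k .k) (.Q [-1,0,0,0,1,0,0,0,-1,0,0,-1] (.p false [0,0,0,0,1] [] (⟨0,[(30,
  0)]⟩,⟨0,[(29,0)]⟩) .k 0 (⟨0,[]⟩,⟨0,[]⟩) .k .k) (.R ⟨1,false,false,true,[0,0,1],[1,0,0,0,-1],[1,1,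
  0,-1,0,0,0,1],(⟨0,[(38,0)]⟩,⟨0,[(37,0)]⟩),(⟨0,[(30,0)]⟩,⟨0,[(31,0)]⟩),⟨0,[(27,0)]⟩,.k,.k,.k,.k,
  (.r (-1) ⟨13,[(7,3),(10,1),(5,9),(27,0),(0,4)]⟩ ⟨1,[(4,13),(3,2),(0,13),(1,1),(0,2),(22,15),(3,
  55),(7,7),(1,4)]⟩),.k,⟨true,0,⟨1,[(7,0),(4,0),(32,0)]⟩,⟨1,[(4,13),(3,2),(0,13),(1,1),(0,2),(22,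
  15),(3,55),(7,7),(1,4)]⟩⟩,⟨false,1,⟨0,[(0,0),(31,0)]⟩,⟨0,[(1,0),(33,0)]⟩⟩,⟨true,0,⟨0,[(50,0)]⟩,⟨0,
  [(51,0)]⟩⟩,⟨true,0,⟨1,[(0,1),(12,0),(1,0)]⟩,⟨0,[(2,0),(30,0)]⟩⟩,⟨false,0,⟨0,[]⟩,⟨1,[(0,0),(28,0),
  (23,0)]⟩⟩,⟨true,0,⟨0,[(0,0),(14,0)]⟩,⟨0,[(2,0),(16,0)]⟩⟩,[.o ⟨false,1,⟨0,[(0,0),(54,0)]⟩,⟨0,[(2,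
  0)]⟩⟩,.o ⟨false,1,⟨0,[(0,0)]⟩,⟨7,[(1,2),(0,0),(0,1),(4,0),(3,0),(16,1),(10,1)]⟩⟩,.o ⟨false,1,⟨3,
  [(5,1),(4,0),(22,0),(1,1),(4,1)]⟩,⟨0,[(21,0)]⟩⟩,.a ⟨true,0,⟨0,[(35,0)]⟩,⟨0,[(32,0)]⟩⟩ ⟨true,0,⟨0,
  [(17,0)]⟩,⟨1,[(8,0),(14,0),(31,0)]⟩⟩ ⟨false,1,⟨0,[(0,0),(31,0)]⟩,⟨0,[(2,0),(32,0)]⟩⟩]⟩) (.R ⟨2,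
  true,false,false,[0,1],[0,0,0,0,1],[1,1,1],(⟨0,[]⟩,⟨0,[]⟩),(⟨0,[(31,0)]⟩,⟨0,[(30,0)]⟩),⟨0,[]⟩,.k,
  .k,.k,(.r 0 ⟨4,[(8,1),(15,1),(3,0),(0,0),(14,0),(6,0),(2,0)]⟩ ⟨5,[(18,1),(9,0),(0,0),(22,0)]⟩),.k,
  .k,⟨false,0,⟨0,[(55,0)]⟩,⟨1,[(52,0),(0,0)]⟩⟩,⟨true,(-1),⟨7,[(0,5),(2,1),(4,0),(3,0),(32,0),(8,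
  3)]⟩,⟨0,[(28,0)]⟩⟩,⟨true,0,⟨0,[(50,0)]⟩,⟨0,[(51,0)]⟩⟩,⟨false,0,⟨3,[(0,2),(2,0),(14,0),(26,1),(7,
  0)]⟩,⟨0,[(28,0),(22,0)]⟩⟩,⟨false,0,⟨0,[]⟩,⟨1,[(28,0),(0,0),(23,0)]⟩⟩,⟨true,(-1),⟨0,[(0,0)]⟩,⟨0,
  [(28,0),(26,0)]⟩⟩,[]⟩)) (.R ⟨2,true,false,false,[0,1],[1,0,0,0,-1],[0,0,1,1],(⟨0,[]⟩,⟨0,[]⟩),(⟨0,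
  [(29,0)]⟩,⟨0,[(30,0)]⟩),⟨0,[]⟩,.k,.k,.k,(.r 0 ⟨3,[(7,1),(15,1),(3,0),(0,0),(23,0)]⟩ ⟨11,[(17,3),
  (9,0),(0,0),(14,0),(7,1),(2,1)]⟩),.k,.k,⟨false,0,⟨1,[(9,0),(22,0)]⟩,⟨5,[(17,1),(9,0),(0,0),(22,
  0)]⟩⟩,⟨true,0,⟨0,[(0,0)]⟩,⟨10,[(1,6),(0,1),(4,0),(3,0),(16,1),(17,1),(0,2)]⟩⟩,⟨false,1,⟨1,[(27,0),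
  (0,0),(23,0)]⟩,⟨0,[]⟩⟩,⟨true,1,⟨38,[(0,35),(3,5),(12,10),(6,2),(2,2),(15,3),(7,3),(2,7)]⟩,⟨1,[(1,
  1),(5,0),(3,0),(33,2)]⟩⟩,⟨true,0,⟨0,[(50,0)]⟩,⟨0,[(49,0)]⟩⟩,⟨false,1,⟨1,[(0,1),(50,0),(0,0)]⟩,⟨10,
  [(1,6),(0,1),(4,0),(3,0),(16,1),(10,1),(7,2)]⟩⟩,[]⟩))))) (.Q [0,0,0,0,0,2,0,0,0,-1,1] (.p true [0,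
  0,1] [1] (⟨0,[(33,0)]⟩,⟨0,[(32,0)]⟩) .k 1 (⟨0,[]⟩,⟨0,[]⟩) .k .k) (.R ⟨0,false,false,true,[1,-1,
  -1],[1,-1],[],(⟨0,[(22,0)]⟩,⟨1,[(0,0),(25,0),(0,0),(6,0)]⟩),(⟨0,[(37,0)]⟩,⟨0,[(38,0)]⟩),⟨0,[(0,
  0)]⟩,.k,.k,(.r (-2) ⟨7,[(7,1),(6,3),(4,5),(11,1),(4,0),(5,3),(5,2)]⟩ ⟨2,[(1,3),(2,0),(24,3),(19,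
  1)]⟩),.k,.k,.k,⟨true,0,⟨2,[(1,0),(2,0),(24,0),(19,1)]⟩,⟨0,[(46,0)]⟩⟩,⟨false,1,⟨0,[(31,0),(16,0)]⟩,
  ⟨0,[(17,0)]⟩⟩,⟨false,0,⟨0,[(1,0),(27,0),(19,0)]⟩,⟨3,[(7,1),(11,1),(11,1),(4,0),(11,2)]⟩⟩,⟨true,0,
  ⟨0,[(29,0)]⟩,⟨13,[(6,4),(0,4),(11,1),(1,0),(8,1),(5,2)]⟩⟩,⟨false,0,⟨0,[]⟩,⟨0,[]⟩⟩,⟨false,0,⟨0,[]⟩,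
  ⟨0,[]⟩⟩,[.o ⟨false,0,⟨0,[(46,0)]⟩,⟨1,[(6,0),(22,0),(6,0),(12,0)]⟩⟩,.e ⟨false,1,⟨1,[(48,0),(0,0)]⟩,
  ⟨0,[(51,0)]⟩⟩ ⟨false,2,⟨2,[(14,0),(4,0),(9,0),(1,1),(16,2)]⟩,⟨0,[(1,0)]⟩⟩,.a ⟨true,(-1),⟨3,[(8,1),
  (0,0),(1,0),(16,1),(12,3)]⟩,⟨0,[(31,0),(16,0)]⟩⟩ ⟨false,1,⟨1,[(24,0),(0,0),(23,0)]⟩,⟨0,[]⟩⟩ ⟨true,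
  1,⟨2,[(14,0),(16,2),(10,0),(1,0),(3,0)]⟩,⟨0,[(1,0)]⟩⟩,.o ⟨false,(-1),⟨27,[(1,9),(2,2),(2,7),(0,
  10),(23,9),(3,3),(4,18)]⟩,⟨1,[(31,1),(4,0),(11,2)]⟩⟩]⟩) (.Q [-1,0,0,1,0,0,0,0,-1,0,0,-1] (.p
  false [0,0,0,0,1] [] (⟨0,[(27,0)]⟩,⟨0,[(26,0)]⟩) .k 0 (⟨0,[]⟩,⟨0,[]⟩) .k .k) (.R ⟨2,true,false,
  true,[0,1],[0,0,0,0,1],[0,0,1,1],(⟨0,[]⟩,⟨0,[]⟩),(⟨0,[(28,0)]⟩,⟨0,[(27,0)]⟩),⟨0,[]⟩,.k,.k,.k,(.r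
  0 ⟨4,[(5,1),(15,1),(3,0),(0,0),(14,0),(6,0),(2,0)]⟩ ⟨5,[(15,1),(9,0),(0,0),(22,0)]⟩),.k,.k,⟨true,
  0,⟨2,[(2,0),(2,0),(24,0),(10,0),(8,0)]⟩,⟨0,[(47,0)]⟩⟩,⟨false,0,⟨0,[(26,0)]⟩,⟨3,[(0,2),(14,0),(9,
  0),(23,0)]⟩⟩,⟨false,1,⟨1,[(25,0),(0,0),(23,0)]⟩,⟨0,[]⟩⟩,⟨true,0,⟨0,[(26,0),(20,0)]⟩,⟨0,[(0,0)]⟩⟩,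
  ⟨true,0,⟨0,[(48,0)]⟩,⟨0,[(47,0)]⟩⟩,⟨false,0,⟨0,[(26,0)]⟩,⟨3,[(0,2),(14,0),(9,0),(16,1),(7,0)]⟩⟩,
  []⟩) (.Q [-1,-1,0,2,1,0,1,1,-1,0,1,-1] (.p true [0,0,1] [0,0,0,0,1] (⟨0,[(35,0)]⟩,⟨0,[(34,0)]⟩)
  .k 2 (⟨0,[(28,0)]⟩,⟨0,[(27,0)]⟩) .k (.r 0 ⟨1,[(2,0),(11,0),(15,0),(10,0)]⟩ ⟨0,[(20,0),(31,0)]⟩))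
  (.Q [0,0,0,0,0,-1,0,0,0,0,0,1] (.ed false [1,-1,0,0,1] .k) (.S ⟨1,0,[1,1],[0,0,0,0,1],[],(⟨0,[(30,
  0)]⟩,⟨0,[(29,0)]⟩),⟨0,[(0,0)]⟩,.k,(.r (-1) ⟨57,[(1,3),(15,21),(4,3),(1,1),(3,3),(10,0),(7,3),(3,
  4)]⟩ ⟨15,[(1,3),(5,3),(20,3),(5,0),(0,4),(17,1),(0,3)]⟩),⟨false,1,⟨13,[(1,2),(15,1),(4,2),(5,2),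
  (6,2),(7,2),(8,0),(0,0)]⟩,⟨0,[]⟩⟩,⟨true,0,⟨0,[(54,0)]⟩,⟨0,[]⟩⟩,⟨true,0,⟨0,[(3,1),(0,0),(3,1),(25,
  2),(3,7),(7,0)]⟩,⟨0,[(49,0)]⟩⟩,⟨false,0,⟨0,[(50,0)]⟩,⟨5,[(17,1),(16,0),(0,0),(8,1),(7,1)]⟩⟩,[.e
  ⟨false,1,⟨57,[(1,11),(15,7),(4,11),(1,5),(3,11),(10,2),(7,11),(3,14)]⟩,⟨0,[]⟩⟩ ⟨false,0,⟨0,[(45,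
  0)]⟩,⟨27,[(1,5),(15,3),(4,5),(5,5),(5,0),(0,6),(16,7)]⟩⟩,.a ⟨true,0,⟨0,[(28,0)]⟩,⟨0,[(1,0),(8,
  0)]⟩⟩ ⟨false,1,⟨1,[(51,0),(0,0)]⟩,⟨0,[(54,0)]⟩⟩ ⟨true,0,⟨0,[]⟩,⟨1,[(34,0),(0,0)]⟩⟩,.e ⟨false,1,
  ⟨27,[(1,5),(15,3),(4,5),(5,5),(5,0),(0,6),(16,7)]⟩,⟨0,[]⟩⟩ ⟨false,0,⟨0,[]⟩,⟨27,[(1,5),(15,3),(4,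
  5),(5,5),(5,0),(0,6),(16,7)]⟩⟩,.o ⟨false,0,⟨11,[(2,5),(4,2),(3,2),(16,5),(10,3),(4,2),(1,1)]⟩,⟨1,
  [(1,1),(8,1),(28,0),(11,0)]⟩⟩]⟩) (.Q [0,1,0,-1,-1,0,-1,-1,-1,1,-1,-1] (.p false [0,0,1] [1,0,0,0,
  -1] (⟨0,[(37,0)]⟩,⟨0,[(36,0)]⟩) .k 2 (⟨0,[(29,0)]⟩,⟨0,[(30,0)]⟩) .k (.r 0 ⟨8,[(1,1),(2,1),(1,2),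
  (4,3),(16,1),(23,0)]⟩ ⟨0,[(22,0),(31,0)]⟩)) (.S ⟨1,0,[-1,1],[1,0,0,0,-1],[-1],(⟨0,[(30,0)]⟩,⟨0,
  [(31,0)]⟩),⟨1,[(1,0),(2,0),(22,0),(2,0)]⟩,.k,(.r (-1) ⟨93,[(2,3),(15,33),(4,3),(1,1),(3,3),(14,3),
  (2,0),(4,12),(2,15)]⟩ ⟨7,[(2,1),(5,1),(20,1),(5,0),(0,2),(18,1)]⟩),⟨false,1,⟨27,[(2,5),(15,3),(4,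
  5),(5,5),(5,0),(0,6),(16,7)]⟩,⟨0,[]⟩⟩,⟨true,0,⟨0,[(55,0)]⟩,⟨0,[]⟩⟩,⟨true,0,⟨0,[(51,0)]⟩,⟨0,[(50,
  0)]⟩⟩,⟨false,0,⟨0,[(51,0)]⟩,⟨5,[(18,1),(16,0),(0,0),(8,1),(7,1)]⟩⟩,[.o ⟨false,0,⟨68,[(0,41),(1,
  17),(5,2),(3,2),(15,8),(4,23),(6,6),(6,13),(0,8)]⟩,⟨1,[(29,1),(10,0),(12,0)]⟩⟩,.e ⟨false,1,⟨1,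
  [(44,0),(7,0)]⟩,⟨0,[(55,0)]⟩⟩ ⟨false,1,⟨175,[(2,35),(15,23),(4,35),(1,17),(3,35),(17,8),(0,33),(3,
  46),(2,3)]⟩,⟨0,[]⟩⟩,.a ⟨true,0,⟨0,[(2,0),(8,0)]⟩,⟨0,[(29,0)]⟩⟩ ⟨false,1,⟨13,[(2,2),(15,1),(4,2),
  (5,2),(6,2),(7,2),(8,0),(0,0)]⟩,⟨0,[]⟩⟩ ⟨true,0,⟨0,[(55,0)]⟩,⟨0,[]⟩⟩,.o ⟨false,0,⟨3,[(0,1),(1,0),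
  (9,0),(15,0),(6,0),(4,0),(4,1)]⟩,⟨1,[(29,1),(10,0),(11,0)]⟩⟩]⟩) (.R ⟨0,false,false,true,[0,0,0,0,
  1],[0,1],[],(⟨0,[(31,0)]⟩,⟨0,[(30,0)]⟩),(⟨0,[(42,0)]⟩,⟨0,[(41,0)]⟩),⟨0,[(1,0)]⟩,.k,.k,(.r (-1)
  ⟨23,[(0,0),(1,0),(15,8),(4,1),(1,0),(22,1),(3,1)]⟩ ⟨6,[(0,0),(1,0),(5,1),(16,0),(9,0),(0,0),(17,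
  0),(0,1)]⟩),(.r (-1) ⟨23,[(0,0),(1,0),(15,8),(4,1),(1,0),(22,1),(3,1)]⟩ ⟨6,[(0,0),(1,0),(5,1),(16,
  0),(9,0),(0,0),(17,0),(0,1)]⟩),.k,.k,⟨false,2,⟨17,[(0,0),(1,0),(15,6),(4,1),(1,0),(26,10),(0,6)]⟩,
  ⟨1,[(8,0),(3,0),(33,0)]⟩⟩,⟨true,1,⟨1,[(2,1),(8,1),(28,0),(11,0)]⟩,⟨1,[(0,1),(7,0),(2,1),(0,0),(32,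
  0)]⟩⟩,⟨false,1,⟨7,[(0,0),(1,0),(15,0),(4,1),(1,0),(27,1),(0,1)]⟩,⟨0,[]⟩⟩,⟨true,0,⟨47,[(2,41),(2,
  5),(2,14),(2,35),(0,8),(15,5),(11,15),(5,44),(0,1)]⟩,⟨0,[(3,0)]⟩⟩,⟨false,0,⟨0,[]⟩,⟨0,[]⟩⟩,⟨false,
  0,⟨0,[]⟩,⟨0,[]⟩⟩,[.o ⟨false,0,⟨20,[(0,0),(1,0),(2,5),(2,5),(24,3),(6,9),(5,16),(1,0)]⟩,⟨5,[(18,1),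
  (16,0),(0,0),(8,1),(7,1)]⟩⟩,.e ⟨false,1,⟨1,[(52,0),(0,0)]⟩,⟨0,[(55,0)]⟩⟩ ⟨false,1,⟨3,[(2,2),(7,0),
  (0,1),(16,0),(11,0),(5,1),(5,0)]⟩,⟨0,[(0,0),(10,0)]⟩⟩,.a ⟨true,0,⟨0,[(29,0)]⟩,⟨0,[(2,0),(8,0)]⟩⟩
  ⟨false,1,⟨39,[(0,6),(1,0),(15,2),(4,7),(1,6),(2,5),(6,5),(17,11)]⟩,⟨0,[]⟩⟩ ⟨true,0,⟨15,[(2,13),(2,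
  1),(2,4),(2,11),(0,2),(15,1),(11,5),(5,14)]⟩,⟨0,[(0,0),(10,0)]⟩⟩,.o ⟨false,0,⟨27,[(0,3),(2,23),(1,
  1),(2,8),(3,4),(23,1),(3,3),(4,0),(1,7)]⟩,⟨1,[(2,1),(8,1),(28,0),(11,0)]⟩⟩]⟩))) (.Q [-1,0,0,0,1,0,
  0,0,-1,0,0,-1] (.p false [0,0,0,0,1] [] (⟨0,[(29,0)]⟩,⟨0,[(28,0)]⟩) .k 0 (⟨0,[]⟩,⟨0,[]⟩) .k .k)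
  (.Q [0,0,0,0,0,0,0,0,1,-1,0,1] (.p true [0,0,0,0,1] [1] (⟨0,[(30,0)]⟩,⟨0,[(29,0)]⟩) .k 1 (⟨0,[]⟩,
  ⟨0,[]⟩) .k .k) (.Q [1,-1,0,0,0,0,0,0,1,-1,0,1] (.p true [0,0,0,0,1] [1] (⟨0,[(31,0)]⟩,⟨0,[(30,
  0)]⟩) .k 1 (⟨0,[]⟩,⟨0,[]⟩) .k .k) (.R ⟨1,false,false,false,[0,0,1],[0,0,0,0,1],[1,1,0,-1,0,0,0,1],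
  (⟨0,[(39,0)]⟩,⟨0,[(38,0)]⟩),(⟨0,[(32,0)]⟩,⟨0,[(31,0)]⟩),⟨0,[(28,0)]⟩,.k,.k,.k,.k,(.r (-1) ⟨0,[(5,
  8),(0,4),(1,1),(1,8),(1,0),(23,14),(3,35),(7,4),(1,0)]⟩ ⟨1,[(9,0),(14,0),(31,0)]⟩),.k,⟨false,0,⟨0,
  [(6,0),(1,0),(27,0),(10,0)]⟩,⟨1,[(11,0),(12,1),(9,0)]⟩⟩,⟨true,(-1),⟨39,[(0,35),(5,3),(3,3),(2,17),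
  (0,10),(1,6),(10,3),(2,3),(2,13),(6,11)]⟩,⟨0,[(29,0),(6,0)]⟩⟩,⟨true,0,⟨0,[(51,0)]⟩,⟨0,[(52,0)]⟩⟩,
  ⟨true,(-1),⟨1,[(0,1),(13,0),(1,0)]⟩,⟨0,[(2,0),(31,0)]⟩⟩,⟨false,0,⟨0,[]⟩,⟨1,[(29,0),(0,0),(23,
  0)]⟩⟩,⟨true,(-1),⟨0,[(0,0),(15,0)]⟩,⟨0,[(2,0),(17,0)]⟩⟩,[.o ⟨false,0,⟨0,[(1,0)]⟩,⟨0,[(2,0)]⟩⟩,.o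
  ⟨false,0,⟨0,[(0,0)]⟩,⟨0,[(29,0),(26,0)]⟩⟩,.o ⟨false,1,⟨1,[(36,1),(4,0),(11,0)]⟩,⟨0,[(22,0)]⟩⟩,.a
  ⟨true,0,⟨0,[(36,0)]⟩,⟨0,[(33,0)]⟩⟩ ⟨true,0,⟨0,[(18,0)]⟩,⟨1,[(9,0),(14,0),(31,0)]⟩⟩ ⟨false,0,⟨0,
  [(0,0),(32,0)]⟩,⟨0,[(2,0),(33,0)]⟩⟩]⟩) (.Q [0,0,0,0,0,-1,0,0,0,1,0,-1] (.ed true [0,1,0,0,1] .k)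
  (.S ⟨1,0,[-1,1],[1,0,0,0,-1],[-1],(⟨0,[(32,0)]⟩,⟨0,[(33,0)]⟩),⟨0,[(0,0)]⟩,.k,(.r (-1) ⟨29,[(3,2),
  (16,9),(10,2),(14,1),(7,4),(2,3)]⟩ ⟨3,[(10,1),(15,1),(3,0),(0,0),(23,0)]⟩),⟨false,1,⟨1,[(30,0),(0,
  0),(23,0)]⟩,⟨0,[]⟩⟩,⟨true,0,⟨0,[(57,0)]⟩,⟨0,[]⟩⟩,⟨true,0,⟨0,[(53,0)]⟩,⟨0,[(52,0)]⟩⟩,⟨false,0,⟨0,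
  [(53,0)]⟩,⟨5,[(20,1),(16,0),(0,0),(8,1),(7,1)]⟩⟩,[.a ⟨true,0,⟨0,[(1,0)]⟩,⟨0,[(2,0),(8,0),(25,0),
  (1,0),(1,1),(5,0)]⟩⟩ ⟨false,1,⟨1,[(3,0),(27,0),(22,0)]⟩,⟨0,[]⟩⟩ ⟨true,0,⟨0,[(57,0)]⟩,⟨0,[(47,
  0)]⟩⟩,.o ⟨false,1,⟨0,[(3,0)]⟩,⟨0,[(2,0)]⟩⟩,.o ⟨false,1,⟨0,[(30,0)]⟩,⟨0,[(2,0)]⟩⟩,.e ⟨false,1,⟨1,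
  [(46,0),(7,0)]⟩,⟨1,[(37,0),(0,0)]⟩⟩ ⟨false,1,⟨1,[(3,0),(27,0),(22,0)]⟩,⟨0,[(47,0)]⟩⟩]⟩) (.Q [0,0,
  1,0,-1,0,0,0,1,0,0,1] (.p true [0,0,0,0,1] [] (⟨0,[(33,0)]⟩,⟨0,[(32,0)]⟩) .k 0 (⟨0,[]⟩,⟨0,[]⟩) .k
  .k) (.S ⟨1,0,[1,1],[0,0,0,0,1],[1,1,1],(⟨0,[(34,0)]⟩,⟨0,[(33,0)]⟩),⟨1,[(1,0),(5,0),(22,0),(3,0)]⟩,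
  .k,(.r (-1) ⟨5,[(21,1),(9,0),(0,0),(22,0)]⟩ ⟨8,[(4,1),(6,3),(15,3),(4,1),(14,1),(6,0),(2,0)]⟩),
  ⟨false,0,⟨1,[(38,0),(0,0)]⟩,⟨1,[(55,0),(0,0)]⟩⟩,⟨true,0,⟨0,[(58,0)]⟩,⟨0,[]⟩⟩,⟨true,(-1),⟨0,[(8,0),
  (29,0),(10,0)]⟩,⟨5,[(21,1),(9,0),(0,0),(22,0)]⟩⟩,⟨false,0,⟨0,[(54,0)]⟩,⟨5,[(21,1),(16,0),(0,0),(8,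
  1),(7,1)]⟩⟩,[.e ⟨false,0,⟨0,[(58,0)]⟩,⟨1,[(55,0),(0,0)]⟩⟩ ⟨false,0,⟨0,[(49,0)]⟩,⟨1,[(31,0),(0,0),
  (23,0)]⟩⟩,.o ⟨false,0,⟨0,[(3,0)]⟩,⟨0,[(4,0)]⟩⟩,.o ⟨false,0,⟨0,[(3,0)]⟩,⟨0,[(31,0)]⟩⟩,.a ⟨true,
  (-1),⟨0,[(0,0)]⟩,⟨1,[(2,1),(52,0),(0,0)]⟩⟩ ⟨false,0,⟨0,[]⟩,⟨1,[(31,0),(0,0),(23,0)]⟩⟩ ⟨true,0,⟨0,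
  [(49,0)]⟩,⟨1,[(38,0),(0,0)]⟩⟩]⟩) (.S ⟨1,0,[1],[0,0,0,0,1],[1,0,1],(⟨0,[(34,0)]⟩,⟨0,[(33,0)]⟩),⟨1,
  [(1,0),(5,0),(22,0),(3,0)]⟩,.k,(.r (-1) ⟨5,[(21,1),(9,0),(0,0),(22,0)]⟩ ⟨8,[(4,1),(6,3),(15,3),(4,
  1),(14,1),(6,0),(2,0)]⟩),⟨true,0,⟨1,[(38,0),(0,0)]⟩,⟨0,[(49,0)]⟩⟩,⟨false,1,⟨1,[(31,0),(0,0),(23,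
  0)]⟩,⟨0,[]⟩⟩,⟨false,0,⟨2,[(8,0),(2,0),(24,0),(19,1)]⟩,⟨5,[(21,1),(9,0),(0,0),(22,0)]⟩⟩,⟨true,0,⟨0,
  [(54,0)]⟩,⟨0,[(53,0)]⟩⟩,[.o ⟨false,0,⟨0,[(3,0)]⟩,⟨0,[(4,0)]⟩⟩,.a ⟨true,0,⟨0,[(3,0),(8,0),(25,0),
  (1,0),(1,1),(5,0)]⟩,⟨0,[(2,0)]⟩⟩ ⟨true,0,⟨0,[(52,0)]⟩,⟨0,[(58,0)]⟩⟩ ⟨false,1,⟨1,[(55,0),(0,0)]⟩,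
  ⟨0,[(58,0)]⟩⟩,.o ⟨false,0,⟨0,[(3,0)]⟩,⟨0,[(31,0)]⟩⟩,.o ⟨false,0,⟨1,[(3,1),(34,0),(0,0)]⟩,⟨0,[(0,
  0)]⟩⟩]⟩)))) (.Q [0,0,0,0,0,-1,0,0,0,0,0,1] (.ed false [1,-1,0,0,1] .k) (.R ⟨1,false,false,true,[0,
  0,0,0,1],[0,1],[],(⟨0,[(32,0)]⟩,⟨0,[(31,0)]⟩),(⟨0,[(43,0)]⟩,⟨0,[(42,0)]⟩),⟨0,[(0,0)]⟩,.k,.k,(.r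
  (-1) ⟨5,[(19,1),(9,0),(0,0),(22,0)]⟩ ⟨8,[(2,1),(6,3),(15,3),(4,1),(14,1),(6,0),(2,0)]⟩),(.r (-1)
  ⟨5,[(19,1),(9,0),(0,0),(22,0)]⟩ ⟨8,[(2,1),(6,3),(15,3),(4,1),(14,1),(6,0),(2,0)]⟩),(.r (-2) ⟨2,
  [(19,1),(9,0),(0,0),(22,0)]⟩ ⟨2,[(6,0),(2,1),(3,0),(20,0),(10,0),(6,0)]⟩),.k,⟨false,2,⟨5,[(19,1),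
  (9,0),(0,0),(22,3),(0,2)]⟩,⟨1,[(9,0),(3,0),(33,0)]⟩⟩,⟨true,1,⟨1,[(1,1),(39,0),(11,0)]⟩,⟨6,[(3,1),
  (5,1),(3,3),(16,4),(5,1),(8,0),(0,3)]⟩⟩,⟨false,1,⟨1,[(2,0),(27,0),(23,0)]⟩,⟨0,[]⟩⟩,⟨true,0,⟨23,
  [(1,23),(4,5),(2,5),(1,2),(22,8),(6,3),(5,17),(0,7)]⟩,⟨0,[(4,0)]⟩⟩,⟨true,0,⟨0,[(5,1),(0,0),(3,1),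
  (25,2),(3,7),(7,0)]⟩,⟨0,[(51,0)]⟩⟩,⟨true,0,⟨23,[(1,23),(4,5),(2,5),(1,14),(22,20),(6,3),(5,17),(0,
  7)]⟩,⟨2,[(3,0),(0,1),(3,0),(27,0),(9,0)]⟩⟩,[.o ⟨false,0,⟨7,[(6,1),(2,1),(1,0),(22,2),(6,3),(5,
  5)]⟩,⟨5,[(19,1),(16,0),(0,0),(8,1),(7,1)]⟩⟩,.e ⟨false,1,⟨1,[(53,0),(0,0)]⟩,⟨0,[(56,0)]⟩⟩ ⟨false,1,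
  ⟨1,[(1,1),(9,0),(22,0),(6,0),(11,0)]⟩,⟨3,[(3,0),(0,0),(15,0),(9,1),(14,0)]⟩⟩,.a ⟨true,0,⟨0,[(30,
  0)]⟩,⟨0,[(1,0)]⟩⟩ ⟨false,1,⟨1,[(29,0),(0,0),(23,0)]⟩,⟨0,[]⟩⟩ ⟨true,0,⟨7,[(1,7),(4,1),(2,1),(1,0),
  (22,2),(6,3),(5,5)]⟩,⟨3,[(3,0),(0,0),(15,0),(9,1),(14,0)]⟩⟩,.o ⟨false,0,⟨11,[(4,5),(4,2),(3,2),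
  (16,5),(10,3),(4,2),(1,1)]⟩,⟨1,[(1,1),(39,0),(11,0)]⟩⟩]⟩) (.R ⟨0,false,false,true,[0,0,0,0,1],[0,
  1],[],(⟨0,[(32,0)]⟩,⟨0,[(31,0)]⟩),(⟨0,[(43,0)]⟩,⟨0,[(42,0)]⟩),⟨0,[(0,0)]⟩,.k,.k,(.r (-1) ⟨5,[(19,
  1),(9,0),(0,0),(22,0)]⟩ ⟨8,[(2,1),(6,3),(15,3),(4,1),(14,1),(6,0),(2,0)]⟩),(.r (-1) ⟨5,[(19,1),(9,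
  0),(0,0),(22,0)]⟩ ⟨8,[(2,1),(6,3),(15,3),(4,1),(14,1),(6,0),(2,0)]⟩),.k,.k,⟨false,2,⟨5,[(19,1),(9,
  0),(0,0),(22,3),(0,2)]⟩,⟨1,[(9,0),(3,0),(33,0)]⟩⟩,⟨true,1,⟨1,[(1,1),(39,0),(11,0)]⟩,⟨6,[(3,1),(5,
  1),(3,3),(16,4),(5,1),(8,0),(0,3)]⟩⟩,⟨false,1,⟨1,[(2,0),(27,0),(23,0)]⟩,⟨0,[]⟩⟩,⟨true,0,⟨23,[(1,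
  23),(4,5),(2,5),(1,2),(22,8),(6,3),(5,17),(0,7)]⟩,⟨0,[(4,0)]⟩⟩,⟨false,0,⟨0,[]⟩,⟨0,[]⟩⟩,⟨false,0,
  ⟨0,[]⟩,⟨0,[]⟩⟩,[.o ⟨false,0,⟨7,[(6,1),(2,1),(1,0),(22,2),(6,3),(5,5)]⟩,⟨5,[(19,1),(16,0),(0,0),(8,
  1),(7,1)]⟩⟩,.e ⟨false,1,⟨1,[(53,0),(0,0)]⟩,⟨0,[(56,0)]⟩⟩ ⟨false,1,⟨1,[(1,1),(9,0),(22,0),(6,0),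
  (11,0)]⟩,⟨3,[(3,0),(0,0),(15,0),(9,1),(14,0)]⟩⟩,.a ⟨true,0,⟨0,[(30,0)]⟩,⟨0,[(1,0)]⟩⟩ ⟨false,1,⟨1,
  [(29,0),(0,0),(23,0)]⟩,⟨0,[]⟩⟩ ⟨true,0,⟨7,[(1,7),(4,1),(2,1),(1,0),(22,2),(6,3),(5,5)]⟩,⟨3,[(3,0),
  (0,0),(15,0),(9,1),(14,0)]⟩⟩,.o ⟨false,0,⟨11,[(4,5),(4,2),(3,2),(16,5),(10,3),(4,2),(1,1)]⟩,⟨1,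
  [(1,1),(39,0),(11,0)]⟩⟩]⟩))) (.R ⟨2,true,false,false,[0,1],[0,0,0,0,1],[1,1,1],(⟨0,[]⟩,⟨0,[]⟩),
  (⟨0,[(30,0)]⟩,⟨0,[(29,0)]⟩),⟨0,[]⟩,.k,.k,.k,(.r 0 ⟨4,[(7,1),(15,1),(3,0),(0,0),(14,0),(6,0),(2,
  0)]⟩ ⟨5,[(17,1),(9,0),(0,0),(22,0)]⟩),.k,.k,⟨false,0,⟨0,[(54,0)]⟩,⟨1,[(51,0),(0,0)]⟩⟩,⟨true,(-1),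
  ⟨7,[(0,5),(1,1),(4,0),(3,0),(32,0),(8,3)]⟩,⟨0,[(27,0)]⟩⟩,⟨true,0,⟨0,[(49,0)]⟩,⟨0,[(50,0)]⟩⟩,
  ⟨false,0,⟨3,[(0,2),(1,0),(14,0),(26,1),(7,0)]⟩,⟨0,[(27,0),(22,0)]⟩⟩,⟨false,0,⟨0,[]⟩,⟨1,[(27,0),(0,
  0),(23,0)]⟩⟩,⟨true,(-1),⟨0,[(0,0)]⟩,⟨0,[(27,0),(26,0)]⟩⟩,[]⟩)))))))))) (.I [0,0,-2,-2,1] (.R ⟨1,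
  false,false,true,[1,-1],[0,-1,1],[0,1,-1,-1],(⟨0,[(32,0)]⟩,⟨0,[(33,0)]⟩),(⟨0,[(18,0)]⟩,⟨0,[(28,0),
  (1,0)]⟩),⟨0,[(17,0),(0,0)]⟩,.k,.k,(.r (-1) ⟨0,[(0,0)]⟩ ⟨0,[(26,0),(0,0),(14,1)]⟩),.k,.k,.k,⟨false,
  1,⟨0,[(13,0),(29,0)]⟩,⟨1,[(3,0),(4,0),(33,0),(1,0)]⟩⟩,⟨true,1,⟨1,[(26,1),(4,0),(11,0)]⟩,⟨3,[(3,1),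
  (0,0),(1,0),(16,1),(12,3)]⟩⟩,⟨true,0,⟨0,[(46,0)]⟩,⟨0,[]⟩⟩,⟨false,1,⟨1,[(24,1),(6,0),(12,0)]⟩,⟨1,
  [(4,0),(1,0),(37,1)]⟩⟩,⟨false,0,⟨0,[(42,0)]⟩,⟨5,[(9,1),(16,0),(0,0),(8,1),(7,1)]⟩⟩,⟨false,1,⟨1,
  [(24,1),(6,0),(10,1),(1,0)]⟩,⟨0,[(4,0),(39,0)]⟩⟩,[.a ⟨true,0,⟨0,[(10,0)]⟩,⟨0,[(6,0),(37,0)]⟩⟩
  ⟨false,1,⟨7,[(0,0),(8,1),(29,3),(3,2)]⟩,⟨0,[(36,0),(5,0)]⟩⟩ ⟨true,1,⟨1,[(1,0),(22,0),(6,0),(11,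
  0)]⟩,⟨0,[(6,0),(29,1)]⟩⟩,.o ⟨false,1,⟨1,[(1,0),(22,0),(6,0),(12,0)]⟩,⟨0,[(7,0)]⟩⟩,.o ⟨false,0,⟨1,
  [(26,0),(0,0)]⟩,⟨1,[(31,0),(11,0)]⟩⟩,.e ⟨false,1,⟨1,[(0,0),(42,0)]⟩,⟨1,[(26,0),(0,0),(8,1),(5,
  1)]⟩⟩ ⟨false,2,⟨1,[(1,0),(22,0),(6,0),(11,1),(0,0)]⟩,⟨0,[(6,0),(29,1)]⟩⟩]⟩) (.I [-1,0,0,1] (.Q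
  [-1,0,0,1,0,0,0,0,-1,0,0,-1] (.p false [0,0,0,0,1] [] (⟨0,[(23,0)]⟩,⟨0,[(22,0)]⟩) .k 0 (⟨0,[]⟩,⟨0,
  []⟩) .k .k) (.R ⟨2,true,false,true,[0,1],[0,0,0,0,1],[2,1],(⟨0,[]⟩,⟨0,[]⟩),(⟨0,[(24,0)]⟩,⟨0,[(23,
  0)]⟩),⟨0,[]⟩,.k,.k,.k,(.r 0 ⟨7,[(1,1),(0,2),(18,2),(0,2),(24,1)]⟩ ⟨5,[(11,1),(9,0),(0,0),(22,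
  0)]⟩),.k,.k,⟨true,0,⟨0,[]⟩,⟨1,[(28,0),(0,0)]⟩⟩,⟨false,0,⟨0,[(22,0)]⟩,⟨3,[(0,2),(10,0),(9,0),(23,
  0)]⟩⟩,⟨false,1,⟨5,[(11,1),(9,0),(0,0),(22,0)]⟩,⟨0,[(1,0),(40,0)]⟩⟩,⟨true,0,⟨0,[(22,0),(20,0)]⟩,⟨0,
  [(0,0)]⟩⟩,⟨true,0,⟨0,[(39,0)]⟩,⟨0,[(47,0)]⟩⟩,⟨false,0,⟨0,[(22,0)]⟩,⟨13,[(0,7),(2,1),(0,1),(16,5),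
  (11,0),(12,8)]⟩⟩,[]⟩) (.Q [1,0,0,0,-1,0,0,0,1,0,0,1] (.p true [0,0,0,0,1] [] (⟨0,[(24,0)]⟩,⟨0,
  [(23,0)]⟩) .k 0 (⟨0,[]⟩,⟨0,[]⟩) .k .k) (.R ⟨2,true,false,true,[0,1],[0,0,0,0,1],[1,1],(⟨0,[]⟩,⟨0,
  []⟩),(⟨0,[(25,0)]⟩,⟨0,[(24,0)]⟩),⟨0,[]⟩,.k,.k,.k,(.r 0 ⟨7,[(2,1),(0,2),(18,2),(0,2),(24,1)]⟩ ⟨5,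
  [(12,1),(9,0),(0,0),(22,0)]⟩),.k,.k,⟨false,1,⟨1,[(22,0),(0,0),(22,0)]⟩,⟨0,[]⟩⟩,⟨true,(-1),⟨40,[(0,
  30),(0,9),(1,8),(0,1),(0,1),(33,3),(1,0),(6,18)]⟩,⟨0,[(22,0)]⟩⟩,⟨false,1,⟨5,[(12,1),(9,0),(0,0),
  (22,0)]⟩,⟨1,[(3,0),(43,0)]⟩⟩,⟨true,(-1),⟨0,[(0,0),(43,0)]⟩,⟨0,[(2,0),(19,0)]⟩⟩,⟨true,0,⟨0,[(40,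
  0)]⟩,⟨1,[(29,0),(0,0)]⟩⟩,⟨false,(-1),⟨0,[(0,0)]⟩,⟨1,[(22,2),(0,0),(14,0)]⟩⟩,[]⟩) (.Q [0,0,0,0,0,2,
  0,0,0,-1,1] (.p true [0,0,1] [1] (⟨0,[(32,0)]⟩,⟨0,[(31,0)]⟩) .k 1 (⟨0,[]⟩,⟨0,[]⟩) .k .k) (.Q [0,0,
  -1,-1,1,0,1,0,0,0,1] (.p true [0,0,1] [] (⟨0,[(33,0)]⟩,⟨0,[(32,0)]⟩) .k 0 (⟨0,[]⟩,⟨0,[]⟩) .k .k)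
  (.R ⟨0,false,false,true,[1,-1,-1],[1,-1],[],(⟨0,[(22,0)]⟩,⟨1,[(1,0),(24,0),(0,0),(6,0)]⟩),(⟨0,
  [(37,0)]⟩,⟨0,[(38,0)]⟩),⟨0,[(1,0)]⟩,.k,.k,(.r (-2) ⟨35,[(0,9),(6,9),(6,13),(4,25),(16,4),(7,7),(3,
  12)]⟩ ⟨1,[(4,1),(0,0),(2,1),(40,0)]⟩),.k,.k,.k,⟨true,0,⟨1,[(5,0),(43,0)]⟩,⟨0,[(46,0)]⟩⟩,⟨false,1,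
  ⟨0,[(31,0),(16,0)]⟩,⟨0,[(17,0)]⟩⟩,⟨false,0,⟨0,[(4,0),(3,0),(40,0)]⟩,⟨3,[(0,1),(8,1),(9,1),(16,0),
  (11,0)]⟩⟩,⟨true,0,⟨0,[(29,0)]⟩,⟨5,[(7,1),(4,3),(23,0),(12,0)]⟩⟩,⟨false,0,⟨0,[]⟩,⟨0,[]⟩⟩,⟨false,0,
  ⟨0,[]⟩,⟨0,[]⟩⟩,[.o ⟨false,0,⟨0,[(46,0)]⟩,⟨1,[(4,1),(31,0),(12,0)]⟩⟩,.a ⟨true,0,⟨3,[(6,0),(0,0),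
  (18,2),(0,2),(21,0)]⟩,⟨0,[(47,0)]⟩⟩ ⟨false,1,⟨1,[(48,0),(0,0)]⟩,⟨0,[(51,0)]⟩⟩ ⟨true,1,⟨0,[(0,0)]⟩,
  ⟨9,[(5,6),(1,1),(0,1),(8,7),(18,0),(4,3)]⟩⟩,.e ⟨false,1,⟨1,[(24,0),(0,0),(23,0)]⟩,⟨0,[]⟩⟩ ⟨false,
  1,⟨0,[(0,0)]⟩,⟨1,[(5,0),(11,1),(31,0)]⟩⟩,.o ⟨false,(-1),⟨4,[(5,1),(1,1),(0,1),(8,2),(18,0),(4,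
  3)]⟩,⟨1,[(31,1),(4,0),(11,2)]⟩⟩]⟩) (.R ⟨0,false,false,true,[1,-1,-1],[1,-1],[],(⟨0,[(22,0)]⟩,⟨1,
  [(1,0),(24,0),(0,0),(6,0)]⟩),(⟨0,[(37,0)]⟩,⟨0,[(38,0)]⟩),⟨0,[(1,0)]⟩,.k,.k,(.r (-2) ⟨7,[(7,1),(6,
  3),(4,5),(11,1),(4,0),(5,3),(5,2)]⟩ ⟨1,[(0,1),(4,0),(23,1),(19,0)]⟩),.k,.k,.k,⟨true,0,⟨1,[(5,0),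
  (43,0)]⟩,⟨0,[(46,0)]⟩⟩,⟨false,1,⟨0,[(31,0),(16,0)]⟩,⟨0,[(17,0)]⟩⟩,⟨false,0,⟨0,[(0,0),(28,0),(19,
  0)]⟩,⟨3,[(7,1),(11,1),(11,1),(4,0),(11,2)]⟩⟩,⟨true,0,⟨0,[(29,0)]⟩,⟨5,[(7,1),(4,3),(23,0),(12,
  0)]⟩⟩,⟨false,0,⟨0,[]⟩,⟨0,[]⟩⟩,⟨false,0,⟨0,[]⟩,⟨0,[]⟩⟩,[.o ⟨false,0,⟨0,[(46,0)]⟩,⟨1,[(4,1),(31,0),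
  (12,0)]⟩⟩,.e ⟨false,1,⟨1,[(48,0),(0,0)]⟩,⟨0,[(51,0)]⟩⟩ ⟨false,2,⟨2,[(14,0),(4,0),(9,0),(1,1),(16,
  2)]⟩,⟨0,[(0,0)]⟩⟩,.a ⟨true,(-1),⟨2,[(5,0),(1,0),(0,0),(19,1),(12,1)]⟩,⟨0,[(31,0),(16,0)]⟩⟩ ⟨false,
  1,⟨1,[(24,0),(0,0),(23,0)]⟩,⟨0,[]⟩⟩ ⟨true,1,⟨2,[(14,0),(16,2),(10,0),(1,0),(3,0)]⟩,⟨0,[(0,0)]⟩⟩,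
  .o ⟨false,(-1),⟨5,[(0,1),(4,0),(1,1),(0,1),(23,1),(3,0),(4,3)]⟩,⟨1,[(31,1),(4,0),(11,2)]⟩⟩]⟩))
  (.I [0,0,-2,0,1,-2,0,0,-2] (.Q [0,0,0,0,0,-1,0,0,0,0,0,1] (.ed false [1,-1,0,0,1] .k) (.Q [-1,0,0,
  0,0,0,0,0,-1,1,0,-1] (.p false [0,0,0,0,1] [1] (⟨0,[(28,0)]⟩,⟨0,[(27,0)]⟩) .k 1 (⟨0,[]⟩,⟨0,[]⟩)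
  .k .k) (.S ⟨1,0,[1,1],[0,0,0,0,1],[],(⟨0,[(29,0)]⟩,⟨0,[(28,0)]⟩),⟨0,[(1,0)]⟩,.k,(.r (-1) ⟨5,[(16,
  1),(9,0),(0,0),(22,0)]⟩ ⟨6,[(4,2),(1,0),(0,2),(19,2),(24,0)]⟩),⟨false,1,⟨1,[(4,0),(22,0),(23,0)]⟩,
  ⟨0,[]⟩⟩,⟨true,0,⟨0,[(53,0)]⟩,⟨0,[]⟩⟩,⟨true,0,⟨0,[(6,0)]⟩,⟨0,[(48,0)]⟩⟩,⟨false,0,⟨0,[(49,0)]⟩,⟨5,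
  [(16,1),(16,0),(0,0),(8,1),(7,1)]⟩⟩,[.o ⟨false,0,⟨1,[(5,1),(1,0),(30,0),(5,1)]⟩,⟨1,[(0,1),(37,0),
  (12,0)]⟩⟩,.a ⟨true,0,⟨0,[(27,0)]⟩,⟨0,[(0,0)]⟩⟩ ⟨false,1,⟨1,[(50,0),(0,0)]⟩,⟨0,[(53,0)]⟩⟩ ⟨true,0,
  ⟨0,[]⟩,⟨1,[(33,0),(0,0)]⟩⟩,.e ⟨false,1,⟨1,[(26,0),(0,0),(23,0)]⟩,⟨0,[]⟩⟩ ⟨false,0,⟨0,[]⟩,⟨1,[(26,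
  0),(0,0),(23,0)]⟩⟩,.o ⟨false,0,⟨5,[(5,5),(1,2),(30,0),(6,1)]⟩,⟨1,[(0,1),(37,0),(11,0)]⟩⟩]⟩) (.R
  ⟨1,false,false,true,[0,0,1],[0,0,0,0,1],[0,1,0,0,0,0,0,1],(⟨0,[(36,0)]⟩,⟨0,[(35,0)]⟩),(⟨0,[(29,
  0)]⟩,⟨0,[(28,0)]⟩),⟨0,[(25,0)]⟩,.k,.k,.k,.k,(.r (-1) ⟨9,[(15,3),(0,1),(5,5),(19,4),(7,0)]⟩ ⟨3,[(7,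
  0),(5,1),(7,1),(11,1),(4,0)]⟩),.k,⟨true,0,⟨1,[(6,0),(3,0),(4,0),(35,0)]⟩,⟨0,[(20,0)]⟩⟩,⟨false,0,
  ⟨7,[(0,7),(5,2),(2,0),(5,0),(14,6),(11,0)]⟩,⟨1,[(2,0),(25,1),(4,1),(3,1),(0,0)]⟩⟩,⟨true,0,⟨0,[(53,
  0)]⟩,⟨0,[]⟩⟩,⟨true,(-1),⟨1,[(0,1),(10,0),(1,0)]⟩,⟨1,[(2,0),(25,1),(2,1),(5,1),(0,0),(4,1)]⟩⟩,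
  ⟨false,0,⟨0,[(49,0)]⟩,⟨5,[(16,1),(16,0),(0,0),(8,1),(7,1)]⟩⟩,⟨true,(-1),⟨0,[(0,0),(12,0)]⟩,⟨1,[(2,
  0),(5,0),(19,1),(2,0),(5,1),(0,0),(4,1)]⟩⟩,[.o ⟨false,0,⟨0,[(0,0),(52,0)]⟩,⟨1,[(2,0),(25,1),(8,1),
  (0,0),(4,1)]⟩⟩,.o ⟨false,0,⟨0,[(0,0)]⟩,⟨0,[(4,0)]⟩⟩,.o ⟨false,1,⟨1,[(33,1),(4,0),(11,0)]⟩,⟨0,[(19,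
  0)]⟩⟩,.a ⟨true,0,⟨0,[(33,0)]⟩,⟨0,[(30,0)]⟩⟩ ⟨true,0,⟨0,[(6,0),(8,0)]⟩,⟨0,[(20,0)]⟩⟩ ⟨false,0,⟨0,
  [(0,0),(29,0)]⟩,⟨1,[(2,0),(25,1),(4,1),(3,1),(0,0),(4,1)]⟩⟩]⟩)) (.I [1,0,0,-1,0,1,0,0,1] (.C [(0,
  0),(0,0),(0,0),(2,0),(1,0)]) (.C [(0,0),(0,0),(3,0)]))) (.Q [-1,1,0,0,0,0,0,0,-1,1,0,-1] (.p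
  false [0,0,0,0,1] [1] (⟨0,[(27,0)]⟩,⟨0,[(26,0)]⟩) .k 1 (⟨0,[]⟩,⟨0,[]⟩) .k .k) (.Q [-1,0,0,0,0,0,0,
  0,-1,1,0,-1] (.p false [0,0,0,0,1] [1] (⟨0,[(28,0)]⟩,⟨0,[(27,0)]⟩) .k 1 (⟨0,[]⟩,⟨0,[]⟩) .k .k)
  (.Q [0,0,0,0,0,1,0,0,0,0,0,-1] (.ed true [1,-1,0,0,1] .k) (.Q [0,0,2,0,-1,0,0,0,-1,1,0,-1] (.p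
  false [0,0,0,0,1] [1] (⟨0,[(30,0)]⟩,⟨0,[(29,0)]⟩) .k 1 (⟨0,[]⟩,⟨0,[]⟩) .k .k) (.S ⟨1,0,[-1,1],[1,
  0,0,0,-1],[-1],(⟨0,[(30,0)]⟩,⟨0,[(31,0)]⟩),⟨1,[(1,0),(3,0),(21,0),(2,0)]⟩,.k,(.r (-1) ⟨9,[(6,0),
  (1,1),(9,3),(10,0),(22,0)]⟩ ⟨1,[(9,0),(18,0),(0,0)]⟩),⟨false,1,⟨1,[(28,0),(0,0),(23,0)]⟩,⟨0,[]⟩⟩,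
  ⟨true,0,⟨0,[(55,0)]⟩,⟨0,[]⟩⟩,⟨true,0,⟨0,[(51,0)]⟩,⟨0,[(50,0)]⟩⟩,⟨false,0,⟨0,[(51,0)]⟩,⟨5,[(18,1),
  (16,0),(0,0),(8,1),(7,1)]⟩⟩,[.o ⟨false,0,⟨5,[(0,2),(1,2),(37,1),(5,5),(0,0)]⟩,⟨1,[(29,1),(10,0),
  (12,0)]⟩⟩,.e ⟨false,1,⟨1,[(44,0),(7,0)]⟩,⟨0,[(55,0)]⟩⟩ ⟨false,1,⟨1,[(6,0),(22,0),(22,0)]⟩,⟨0,[]⟩⟩,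
  .a ⟨true,0,⟨0,[(2,0)]⟩,⟨0,[(29,0)]⟩⟩ ⟨false,1,⟨1,[(6,0),(22,0),(23,0)]⟩,⟨0,[]⟩⟩ ⟨true,0,⟨0,[(55,
  0)]⟩,⟨0,[]⟩⟩,.o ⟨false,0,⟨1,[(0,0),(1,0),(37,0)]⟩,⟨1,[(29,1),(10,0),(11,0)]⟩⟩]⟩) (.R ⟨0,false,
  false,true,[0,0,0,0,1],[0,1],[1,1,1],(⟨0,[(31,0)]⟩,⟨0,[(30,0)]⟩),(⟨0,[(42,0)]⟩,⟨0,[(41,0)]⟩),⟨0,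
  [(1,0)]⟩,.k,.k,(.r (-1) ⟨17,[(0,0),(17,5),(4,1),(1,0),(2,0),(4,1),(18,1)]⟩ ⟨6,[(6,2),(1,0),(0,2),
  (19,2),(24,0)]⟩),(.r (-1) ⟨17,[(0,0),(17,5),(4,1),(1,0),(2,0),(4,1),(18,1)]⟩ ⟨6,[(6,2),(1,0),(0,
  2),(19,2),(24,0)]⟩),.k,.k,⟨false,1,⟨17,[(0,0),(17,5),(4,1),(1,0),(2,0),(4,1),(18,1)]⟩,⟨0,[(51,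
  0)]⟩⟩,⟨true,1,⟨1,[(2,1),(37,0),(11,0)]⟩,⟨1,[(0,0),(8,1),(0,0),(0,0),(17,0),(15,1)]⟩⟩,⟨false,0,⟨1,
  [(35,0),(0,0)]⟩,⟨1,[(52,0),(0,0)]⟩⟩,⟨true,0,⟨1,[(2,1),(6,0),(30,0),(5,1)]⟩,⟨0,[(7,0)]⟩⟩,⟨false,0,
  ⟨0,[]⟩,⟨0,[]⟩⟩,⟨false,0,⟨0,[]⟩,⟨0,[]⟩⟩,[.o ⟨false,0,⟨1,[(9,0),(30,0),(5,1)]⟩,⟨5,[(18,1),(16,0),(0,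
  0),(8,1),(7,1)]⟩⟩,.e ⟨false,0,⟨0,[]⟩,⟨5,[(0,0),(22,1),(1,0),(2,0),(4,1),(18,1)]⟩⟩ ⟨false,1,⟨1,[(2,
  1),(5,1),(31,0),(11,0)]⟩,⟨3,[(0,0),(9,0),(0,0),(17,2),(15,1)]⟩⟩,.a ⟨true,0,⟨0,[(29,0)]⟩,⟨0,[(2,
  0)]⟩⟩ ⟨false,0,⟨1,[(35,0),(0,0)]⟩,⟨1,[(52,0),(0,0)]⟩⟩ ⟨true,0,⟨1,[(2,1),(6,0),(30,0),(5,1)]⟩,⟨3,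
  [(0,0),(9,0),(0,0),(17,2),(15,1)]⟩⟩,.o ⟨false,0,⟨5,[(7,5),(1,2),(30,0),(6,1)]⟩,⟨1,[(2,1),(37,0),
  (11,0)]⟩⟩]⟩)) (.S ⟨1,0,[1,1],[0,0,0,0,1],[],(⟨0,[(30,0)]⟩,⟨0,[(29,0)]⟩),⟨0,[(0,0)]⟩,.k,(.r (-1)
  ⟨5,[(17,1),(9,0),(0,0),(22,0)]⟩ ⟨6,[(5,2),(1,0),(0,2),(19,2),(24,0)]⟩),⟨false,1,⟨1,[(5,0),(22,0),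
  (23,0)]⟩,⟨0,[]⟩⟩,⟨true,0,⟨0,[(54,0)]⟩,⟨0,[]⟩⟩,⟨true,0,⟨0,[(7,0)]⟩,⟨0,[(49,0)]⟩⟩,⟨false,0,⟨0,[(50,
  0)]⟩,⟨5,[(17,1),(16,0),(0,0),(8,1),(7,1)]⟩⟩,[.o ⟨false,0,⟨1,[(0,1),(2,0),(35,0),(5,1)]⟩,⟨1,[(1,1),
  (37,0),(12,0)]⟩⟩,.a ⟨true,0,⟨0,[(28,0)]⟩,⟨0,[(1,0)]⟩⟩ ⟨false,1,⟨1,[(51,0),(0,0)]⟩,⟨0,[(54,0)]⟩⟩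
  ⟨true,0,⟨0,[]⟩,⟨1,[(34,0),(0,0)]⟩⟩,.e ⟨false,1,⟨1,[(27,0),(0,0),(23,0)]⟩,⟨0,[]⟩⟩ ⟨false,0,⟨0,[]⟩,
  ⟨1,[(27,0),(0,0),(23,0)]⟩⟩,.o ⟨false,0,⟨1,[(0,1),(2,0),(35,0)]⟩,⟨1,[(1,1),(37,0),(11,0)]⟩⟩]⟩))
  (.Q [-1,-1,0,0,1,0,0,0,-1,0,0,-1] (.p false [0,0,0,0,1] [] (⟨0,[(29,0)]⟩,⟨0,[(28,0)]⟩) .k 0 (⟨0,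
  []⟩,⟨0,[]⟩) .k .k) (.R ⟨1,false,false,true,[0,0,1],[0,0,0,0,1],[0,1,0,0,0,0,0,1],(⟨0,[(37,0)]⟩,⟨0,
  [(36,0)]⟩),(⟨0,[(30,0)]⟩,⟨0,[(29,0)]⟩),⟨0,[(26,0)]⟩,.k,.k,.k,.k,(.r (-1) ⟨9,[(16,3),(0,1),(5,5),
  (19,4),(7,0)]⟩ ⟨3,[(8,0),(5,1),(7,1),(11,1),(4,0)]⟩),.k,⟨true,0,⟨1,[(7,0),(3,0),(4,0),(35,0)]⟩,⟨0,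
  [(21,0)]⟩⟩,⟨false,0,⟨7,[(1,7),(5,2),(2,0),(5,0),(14,6),(11,0)]⟩,⟨0,[(0,0),(33,0),(10,0)]⟩⟩,⟨true,
  0,⟨0,[(54,0)]⟩,⟨0,[]⟩⟩,⟨true,(-1),⟨1,[(1,1),(10,0),(1,0)]⟩,⟨0,[(0,0),(31,0)]⟩⟩,⟨false,0,⟨0,[(50,
  0)]⟩,⟨5,[(17,1),(16,0),(0,0),(8,1),(7,1)]⟩⟩,⟨true,(-1),⟨0,[(1,0),(12,0)]⟩,⟨1,[(0,1),(8,0),(22,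
  0)]⟩⟩,[.o ⟨false,0,⟨0,[(1,0),(52,0)]⟩,⟨0,[(0,0)]⟩⟩,.o ⟨false,0,⟨0,[(1,0)]⟩,⟨0,[(5,0)]⟩⟩,.o ⟨false,
  1,⟨1,[(34,1),(4,0),(11,0)]⟩,⟨0,[(20,0)]⟩⟩,.a ⟨true,0,⟨0,[(34,0)]⟩,⟨0,[(31,0)]⟩⟩ ⟨true,0,⟨0,[(7,0),
  (8,0)]⟩,⟨0,[(21,0)]⟩⟩ ⟨false,0,⟨0,[(1,0),(29,0)]⟩,⟨0,[(0,0),(33,0)]⟩⟩]⟩) (.Q [0,0,0,0,0,-1,0,0,0,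
  1,0,-1] (.ed true [0,1,0,0,1] .k) (.S ⟨1,0,[-1,1],[1,0,0,0,-1],[-1],(⟨0,[(30,0)]⟩,⟨0,[(31,0)]⟩),
  ⟨0,[(0,0)]⟩,.k,(.r (-1) ⟨9,[(6,0),(1,1),(9,3),(10,0),(22,0)]⟩ ⟨1,[(9,0),(18,0),(0,0)]⟩),⟨false,1,
  ⟨1,[(28,0),(0,0),(23,0)]⟩,⟨0,[]⟩⟩,⟨true,0,⟨0,[(55,0)]⟩,⟨0,[]⟩⟩,⟨true,0,⟨0,[(51,0)]⟩,⟨0,[(50,0)]⟩⟩,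
  ⟨false,0,⟨0,[(51,0)]⟩,⟨5,[(18,1),(16,0),(0,0),(8,1),(7,1)]⟩⟩,[.a ⟨true,0,⟨0,[(3,0)]⟩,⟨0,[(1,0),
  (51,0)]⟩⟩ ⟨false,1,⟨1,[(6,0),(22,0),(22,0)]⟩,⟨0,[]⟩⟩ ⟨true,0,⟨0,[(55,0)]⟩,⟨0,[(45,0)]⟩⟩,.o ⟨false,
  1,⟨0,[(6,0)]⟩,⟨0,[(2,0)]⟩⟩,.o ⟨false,1,⟨0,[(28,0)]⟩,⟨4,[(1,1),(0,2),(41,0),(2,0)]⟩⟩,.e ⟨false,1,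
  ⟨1,[(44,0),(7,0)]⟩,⟨1,[(35,0),(0,0)]⟩⟩ ⟨false,1,⟨1,[(6,0),(22,0),(22,0)]⟩,⟨0,[(45,0)]⟩⟩]⟩) (.Q [0,
  -1,1,0,-1,0,-1,-1,1,0,-1,1] (.p false [0,0,1] [0,0,0,0,1] (⟨0,[(38,0)]⟩,⟨0,[(37,0)]⟩) .k 2 (⟨0,
  [(31,0)]⟩,⟨0,[(30,0)]⟩) .k (.r 0 ⟨1,[(8,0),(3,0),(4,0),(35,0)]⟩ ⟨0,[(23,0),(31,0)]⟩)) (.S ⟨1,0,[1,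
  1],[0,0,0,0,1],[],(⟨0,[(32,0)]⟩,⟨0,[(31,0)]⟩),⟨1,[(1,0),(4,0),(21,0),(3,0)]⟩,.k,(.r (-1) ⟨5,[(19,
  1),(9,0),(0,0),(22,0)]⟩ ⟨6,[(7,2),(1,0),(0,2),(19,2),(24,0)]⟩),⟨false,1,⟨1,[(7,0),(22,0),(23,0)]⟩,
  ⟨0,[]⟩⟩,⟨true,0,⟨0,[(56,0)]⟩,⟨0,[]⟩⟩,⟨true,0,⟨0,[(9,0)]⟩,⟨0,[(51,0)]⟩⟩,⟨false,0,⟨0,[(52,0)]⟩,⟨5,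
  [(19,1),(16,0),(0,0),(8,1),(7,1)]⟩⟩,[.e ⟨false,1,⟨1,[(29,0),(0,0),(22,0)]⟩,⟨0,[]⟩⟩ ⟨false,0,⟨0,
  [(47,0)]⟩,⟨1,[(29,0),(0,0),(23,0)]⟩⟩,.o ⟨false,0,⟨0,[(3,0)]⟩,⟨0,[(7,0)]⟩⟩,.o ⟨false,0,⟨4,[(2,1),
  (0,2),(41,0),(2,0)]⟩,⟨0,[(29,0)]⟩⟩,.a ⟨true,(-1),⟨0,[(0,0),(33,0)]⟩,⟨1,[(4,1),(48,0),(0,0)]⟩⟩
  ⟨false,1,⟨1,[(53,0),(0,0)]⟩,⟨1,[(36,0),(0,0)]⟩⟩ ⟨true,0,⟨0,[(47,0)]⟩,⟨1,[(36,0),(0,0)]⟩⟩]⟩) (.R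
  ⟨0,false,false,false,[1,0,0,0,-1],[0,1],[1,1,1],(⟨0,[(31,0)]⟩,⟨0,[(32,0)]⟩),(⟨0,[(43,0)]⟩,⟨0,[(42,
  0)]⟩),⟨0,[(1,0)]⟩,.k,.k,(.r (-1) ⟨81,[(0,3),(8,19),(9,33),(4,3),(1,1),(3,3),(17,0),(4,4)]⟩ ⟨1,
  [(10,0),(18,0),(0,0)]⟩),(.r (-1) ⟨81,[(0,3),(8,19),(9,33),(4,3),(1,1),(3,3),(17,0),(4,4)]⟩ ⟨1,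
  [(10,0),(18,0),(0,0)]⟩),.k,.k,⟨true,0,⟨0,[(51,0)]⟩,⟨1,[(10,0),(43,0)]⟩⟩,⟨false,1,⟨0,[(3,0),(49,
  0)]⟩,⟨0,[(4,0),(41,0)]⟩⟩,⟨false,0,⟨1,[(36,0),(0,0)]⟩,⟨1,[(45,0),(7,0)]⟩⟩,⟨true,0,⟨0,[(3,0),(5,
  0)]⟩,⟨2,[(0,1),(3,0),(4,0),(2,1),(33,1)]⟩⟩,⟨false,0,⟨0,[]⟩,⟨0,[]⟩⟩,⟨false,0,⟨0,[]⟩,⟨0,[]⟩⟩,[.a
  ⟨true,0,⟨0,[(52,0)]⟩,⟨3,[(11,0),(0,0),(18,2),(0,2),(21,0)]⟩⟩ ⟨false,0,⟨0,[(56,0)]⟩,⟨1,[(53,0),(0,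
  0)]⟩⟩ ⟨true,0,⟨0,[(3,0),(5,0)]⟩,⟨1,[(0,0),(3,0),(7,0),(33,2)]⟩⟩,.o ⟨false,1,⟨1,[(9,1),(31,0),(12,
  0)]⟩,⟨0,[(51,0)]⟩⟩,.o ⟨false,1,⟨0,[(29,0)]⟩,⟨4,[(2,1),(0,2),(41,0),(2,0)]⟩⟩,.e ⟨false,0,⟨0,[]⟩,⟨1,
  [(29,0),(0,0),(23,0)]⟩⟩ ⟨false,1,⟨1,[(3,1),(5,1),(43,0),(0,0)]⟩,⟨1,[(0,0),(3,0),(7,0),(33,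
  2)]⟩⟩]⟩))))) (.R ⟨1,false,false,false,[0,0,1],[0,0,0,0,1],[0,1,0,0,0,0,0,1],(⟨0,[(35,0)]⟩,⟨0,[(34,
  0)]⟩),(⟨0,[(28,0)]⟩,⟨0,[(27,0)]⟩),⟨0,[(24,0)]⟩,.k,.k,.k,.k,(.r (-1) ⟨9,[(14,3),(0,1),(5,5),(19,4),
  (7,0)]⟩ ⟨3,[(6,0),(5,1),(7,1),(11,1),(4,0)]⟩),.k,⟨false,0,⟨0,[(5,0),(8,0)]⟩,⟨0,[(20,0)]⟩⟩,⟨true,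
  (-1),⟨1,[(0,1),(4,0),(3,0),(0,0),(18,0)]⟩,⟨0,[(25,0),(6,0)]⟩⟩,⟨true,0,⟨0,[(52,0)]⟩,⟨0,[]⟩⟩,⟨true,
  (-1),⟨1,[(0,1),(9,0),(1,0)]⟩,⟨0,[(3,0),(26,0)]⟩⟩,⟨false,0,⟨0,[(48,0)]⟩,⟨5,[(15,1),(16,0),(0,0),(8,
  1),(7,1)]⟩⟩,⟨true,(-1),⟨0,[(0,0),(11,0)]⟩,⟨1,[(3,1),(3,0),(22,0)]⟩⟩,[.o ⟨false,0,⟨5,[(0,3),(3,1),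
  (1,0),(30,0),(7,1)]⟩,⟨0,[(3,0)]⟩⟩,.o ⟨false,0,⟨0,[(0,0)]⟩,⟨0,[(25,0),(26,0)]⟩⟩,.o ⟨false,1,⟨1,
  [(32,1),(4,0),(11,0)]⟩,⟨0,[(18,0)]⟩⟩,.a ⟨true,0,⟨0,[(32,0)]⟩,⟨0,[(29,0)]⟩⟩ ⟨true,0,⟨0,[(5,0),(8,
  0)]⟩,⟨0,[(19,0)]⟩⟩ ⟨false,0,⟨0,[(0,0),(28,0)]⟩,⟨0,[(3,0),(28,0)]⟩⟩]⟩)))))) (.N [0,2] 1 ⟨0,[(1,
  0)]⟩ ⟨0,[(0,1),(35,0),(1,1)]⟩ (.x (-2) ⟨0,[(32,0),(0,1),(10,0)]⟩ ⟨0,[(0,1),(0,0),(29,1)]⟩))))))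
  (.S ⟨1,0,[0,1,0,0,0,0,0,-1],[1,0,-1],[0,0,0,0,0,0,0,-1],(⟨0,[(25,0)]⟩,⟨0,[(26,0)]⟩),⟨0,[(14,0)]⟩,
  .k,.k,⟨false,1,⟨1,[(16,0),(0,0),(23,0)]⟩,⟨0,[]⟩⟩,⟨true,0,⟨0,[(43,0)]⟩,⟨0,[]⟩⟩,⟨true,0,⟨0,[(39,
  0)]⟩,⟨0,[(38,0)]⟩⟩,⟨false,0,⟨0,[(39,0)]⟩,⟨5,[(6,1),(16,0),(0,0),(8,1),(7,1)]⟩⟩,[.a ⟨true,(-1),⟨0,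
  [(2,0)]⟩,⟨0,[(21,0),(19,0)]⟩⟩ ⟨false,1,⟨1,[(0,0),(10,0),(24,0)]⟩,⟨0,[(5,0),(27,0),(5,0)]⟩⟩ ⟨true,
  0,⟨3,[(0,0),(0,2),(12,0),(0,0),(7,2),(3,1),(6,1),(0,1),(3,2)]⟩,⟨0,[(5,0),(27,1),(5,0)]⟩⟩,.o
  ⟨false,0,⟨3,[(1,1),(2,1),(23,0),(12,0)]⟩,⟨1,[(21,1),(6,0),(12,0)]⟩⟩,.o ⟨false,0,⟨0,[(9,0)]⟩,⟨1,
  [(23,1),(4,0),(11,0)]⟩⟩,.e ⟨false,1,⟨0,[(0,0)]⟩,⟨0,[(12,0),(20,0)]⟩⟩ ⟨false,1,⟨1,[(0,0),(10,0),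
  (24,0)]⟩,⟨0,[(5,0),(27,1),(5,0)]⟩⟩]⟩)))))

theorem ok4 : chk K t4 l8 = true := by decide +kernel

noncomputable def t5 : Tre :=
  (.Q [0,-1,0,1,0,0,-1,-1,0,1,-1] (.p false [0,0,1] [1] (⟨0,[(22,0)]⟩,⟨0,[(21,0)]⟩) .k 1 (⟨0,[]⟩,⟨0,
  []⟩) .k .k) (.S ⟨1,0,[0,0,1,1,0,0,0,-1],[1,1,-1],[1,1,1,0,0,0,0,-1],(⟨0,[(22,0),(1,0)]⟩,⟨0,[(12,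
  0)]⟩),⟨0,[(22,0)]⟩,.k,.k,⟨true,0,⟨0,[(35,0)]⟩,⟨0,[(36,0)]⟩⟩,⟨false,1,⟨1,[(13,0),(0,0),(23,0)]⟩,⟨0,
  []⟩⟩,⟨false,0,⟨0,[]⟩,⟨1,[(13,0),(0,0),(23,0)]⟩⟩,⟨true,0,⟨0,[(36,0)]⟩,⟨0,[(35,0)]⟩⟩,[.a ⟨true,0,⟨0,
  [(0,0),(39,0)]⟩,⟨0,[(1,0)]⟩⟩ ⟨false,0,⟨0,[(7,0),(23,0)]⟩,⟨0,[(2,0),(33,0),(1,0)]⟩⟩ ⟨true,0,⟨0,[(7,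
  0),(28,0)]⟩,⟨0,[(1,0),(4,0)]⟩⟩,.a ⟨true,0,⟨0,[(0,0)]⟩,⟨0,[(4,0)]⟩⟩ ⟨true,0,⟨0,[(7,0)]⟩,⟨0,[(1,0),
  (4,0),(29,0)]⟩⟩ ⟨false,1,⟨0,[(8,0),(27,0)]⟩,⟨0,[(2,0)]⟩⟩,.a ⟨true,0,⟨0,[(17,0)]⟩,⟨0,[(20,0)]⟩⟩
  ⟨false,0,⟨0,[(7,0)]⟩,⟨0,[(2,0),(33,0),(1,0)]⟩⟩ ⟨true,0,⟨0,[(7,0),(28,0)]⟩,⟨0,[(2,0)]⟩⟩,.o ⟨false,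
  0,⟨0,[(6,0)]⟩,⟨1,[(20,1),(4,0),(11,0)]⟩⟩]⟩) (.Q [0,-1,0,-1,1,0,-1,-1,0,0,-1] (.p false [0,0,1] []
  (⟨0,[(23,0)]⟩,⟨0,[(22,0)]⟩) .k 0 (⟨0,[]⟩,⟨0,[]⟩) .k .k) (.Q [0,0,0,2,0,0,-1,-1,0,0,-1] (.p false
  [0,0,1] [] (⟨0,[(24,0)]⟩,⟨0,[(23,0)]⟩) .k 0 (⟨0,[]⟩,⟨0,[]⟩) .k .k) (.I [0,0,-2,-2,1,0,0,1] (.R ⟨1,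
  true,false,false,[0,0,1],[0,1],[0,1,0,0,0,0,0,1],(⟨0,[(26,0)]⟩,⟨0,[(25,0)]⟩),(⟨0,[(30,0)]⟩,⟨0,
  [(29,0)]⟩),⟨0,[(15,0)]⟩,.k,.k,.k,.k,(.r (-1) ⟨0,[(0,0)]⟩ ⟨1,[(1,1),(21,2),(0,0)]⟩),.k,⟨true,0,⟨0,
  [(3,0),(16,0)]⟩,⟨1,[(1,0),(8,0),(12,0),(9,1)]⟩⟩,⟨false,1,⟨0,[(0,0),(0,0)]⟩,⟨0,[(23,0)]⟩⟩,⟨true,0,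
  ⟨0,[(43,0)]⟩,⟨0,[]⟩⟩,⟨false,1,⟨7,[(1,3),(9,3),(1,1),(2,0),(0,0),(10,0),(12,1)]⟩,⟨0,[(4,0)]⟩⟩,
  ⟨false,0,⟨0,[(39,0)]⟩,⟨5,[(6,1),(16,0),(0,0),(8,1),(7,1)]⟩⟩,⟨true,0,⟨0,[(1,0)]⟩,⟨0,[(4,0),(33,
  0)]⟩⟩,[]⟩) (.I [0,0,-2,0,1,-2,-1] (.R ⟨1,true,false,false,[0,0,1],[0,1],[0,1,0,0,0,0,0,1],(⟨0,
  [(27,0)]⟩,⟨0,[(26,0)]⟩),(⟨0,[(31,0)]⟩,⟨0,[(30,0)]⟩),⟨0,[(16,0)]⟩,.k,.k,.k,.k,(.x 0 ⟨7,[(1,1),(2,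
  3),(6,1),(12,4),(0,0),(0,7),(1,15),(0,1),(4,3)]⟩ ⟨0,[(0,0)]⟩),.k,⟨true,0,⟨0,[(4,0),(16,0)]⟩,⟨3,
  [(1,1),(10,1),(11,0),(0,0),(8,1)]⟩⟩,⟨false,1,⟨1,[(21,1),(7,0),(11,0)]⟩,⟨0,[(24,0)]⟩⟩,⟨true,0,⟨0,
  [(44,0)]⟩,⟨0,[]⟩⟩,⟨false,1,⟨7,[(2,3),(9,3),(1,1),(2,0),(0,0),(10,0),(12,1)]⟩,⟨0,[(5,0)]⟩⟩,⟨false,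
  0,⟨0,[(40,0)]⟩,⟨5,[(7,1),(16,0),(0,0),(8,1),(7,1)]⟩⟩,⟨true,0,⟨0,[(2,0)]⟩,⟨0,[(5,0),(33,0)]⟩⟩,[]⟩)
  (.Q [0,0,-1,0,1,0,1,0,0,-1,1] (.p true [0,0,1] [1] (⟨0,[(27,0)]⟩,⟨0,[(26,0)]⟩) .k 1 (⟨0,[]⟩,⟨0,
  []⟩) .k .k) (.S ⟨1,0,[0,1,0,0,0,0,0,-1],[1,0,-1],[0,0,0,0,0,0,0,-1],(⟨0,[(27,0)]⟩,⟨0,[(28,0)]⟩),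
  ⟨0,[(16,0)]⟩,.k,.k,⟨false,1,⟨1,[(18,0),(0,0),(23,0)]⟩,⟨0,[]⟩⟩,⟨true,0,⟨0,[(45,0)]⟩,⟨0,[]⟩⟩,⟨true,
  0,⟨0,[(41,0)]⟩,⟨0,[(40,0)]⟩⟩,⟨false,0,⟨0,[(41,0)]⟩,⟨5,[(8,1),(16,0),(0,0),(8,1),(7,1)]⟩⟩,[.o
  ⟨false,0,⟨0,[(24,0)]⟩,⟨0,[(5,0),(35,0),(1,0)]⟩⟩,.a ⟨true,0,⟨0,[(12,0),(9,0)]⟩,⟨0,[(6,0),(34,0)]⟩⟩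
  ⟨true,1,⟨5,[(1,3),(0,1),(1,3),(11,1),(0,5),(16,6),(1,11),(0,0)]⟩,⟨0,[(2,0),(3,0),(0,0),(3,0)]⟩⟩
  ⟨false,1,⟨0,[(12,0),(29,0)]⟩,⟨0,[(6,0),(4,0),(29,0)]⟩⟩,.o ⟨false,0,⟨0,[(11,0)]⟩,⟨2,[(0,0),(12,0),
  (9,0),(1,0),(4,0)]⟩⟩,.o ⟨false,0,⟨0,[(26,0)]⟩,⟨0,[(0,0)]⟩⟩]⟩) (.I [0,-1,0,1,0,0,0,1] (.S ⟨1,0,[0,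
  0,0,0,0,0,0,-1],[1,0,-1],[],(⟨0,[(28,0)]⟩,⟨0,[(29,0)]⟩),⟨0,[(17,0)]⟩,.k,.k,⟨true,0,⟨1,[(0,0),(10,
  0)]⟩,⟨0,[(13,0),(23,0)]⟩⟩,⟨false,1,⟨1,[(19,0),(0,0),(23,0)]⟩,⟨0,[]⟩⟩,⟨false,0,⟨0,[(0,0)]⟩,⟨2,[(9,
  0),(3,0),(0,0),(10,0),(0,0)]⟩⟩,⟨true,0,⟨0,[(42,0)]⟩,⟨0,[(41,0)]⟩⟩,[.e ⟨false,1,⟨13,[(4,5),(4,3),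
  (14,5),(18,2),(0,2)]⟩,⟨0,[]⟩⟩ ⟨false,1,⟨0,[(13,0),(29,0)]⟩,⟨1,[(0,0),(10,0)]⟩⟩,.o ⟨false,1,⟨9,[(4,
  1),(0,3),(8,3),(1,1),(14,0),(12,0)]⟩,⟨0,[(6,0),(35,0)]⟩⟩,.o ⟨false,0,⟨0,[(12,0)]⟩,⟨1,[(26,1),(4,
  0),(11,0)]⟩⟩,.a ⟨true,(-1),⟨0,[(1,0)]⟩,⟨0,[(26,0),(16,0)]⟩⟩ ⟨false,1,⟨1,[(43,0),(0,0)]⟩,⟨1,[(26,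
  0),(0,0)]⟩⟩ ⟨true,1,⟨0,[(13,0),(29,0)]⟩,⟨8,[(0,2),(0,6),(1,1),(2,6),(8,0),(23,1)]⟩⟩]⟩) (.I [0,0,2,
  0,-1,2,1] (.R ⟨1,true,false,false,[0,0,1],[0,1],[0,1,0,0,0,0,0,1],(⟨0,[(30,0)]⟩,⟨0,[(29,0)]⟩),(⟨0,
  [(34,0)]⟩,⟨0,[(33,0)]⟩),⟨0,[(19,0)]⟩,.k,.k,.k,.k,(.x 1 ⟨0,[(0,0)]⟩ ⟨21,[(5,5),(4,3),(5,5),(0,7),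
  (1,21),(12,14),(0,21),(10,17),(0,2)]⟩),.k,⟨true,0,⟨1,[(2,1),(5,1),(27,0),(1,3),(0,0)]⟩,⟨3,[(4,1),
  (10,1),(11,0),(0,0),(8,1)]⟩⟩,⟨false,1,⟨1,[(24,1),(7,0),(11,0)]⟩,⟨0,[(27,0)]⟩⟩,⟨true,0,⟨0,[(47,
  0)]⟩,⟨0,[]⟩⟩,⟨false,1,⟨7,[(5,3),(9,3),(1,1),(2,0),(0,0),(10,0),(12,1)]⟩,⟨0,[(8,0)]⟩⟩,⟨false,0,⟨0,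
  [(43,0)]⟩,⟨5,[(10,1),(16,0),(0,0),(8,1),(7,1)]⟩⟩,⟨true,0,⟨0,[(5,0)]⟩,⟨0,[(8,0),(33,0)]⟩⟩,[]⟩) (.Q
  [0,0,0,2,0,0,1,1,0,-1,1] (.p true [0,0,1] [1] (⟨0,[(30,0)]⟩,⟨0,[(29,0)]⟩) .k 1 (⟨0,[]⟩,⟨0,[]⟩) .k
  .k) (.R ⟨1,true,false,false,[1,0,-1],[0,1],[1,1,0,-1,0,0,0,-1],(⟨0,[(30,0)]⟩,⟨0,[(31,0)]⟩),(⟨0,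
  [(35,0)]⟩,⟨0,[(34,0)]⟩),⟨0,[(19,0)]⟩,.k,.k,.k,.k,(.r (-2) ⟨1,[(2,0),(8,0),(4,0),(28,0)]⟩ ⟨1,[(0,
  1),(2,1),(24,0),(0,0)]⟩),.k,⟨true,1,⟨4,[(2,3),(8,1),(4,0),(24,0)]⟩,⟨0,[(0,0),(2,0),(34,0)]⟩⟩,
  ⟨false,2,⟨1,[(28,1),(4,0),(11,2)]⟩,⟨0,[(3,0)]⟩⟩,⟨true,0,⟨0,[(43,0)]⟩,⟨0,[(44,0)]⟩⟩,⟨false,1,⟨3,
  [(0,1),(25,1),(6,0),(12,2)]⟩,⟨1,[(2,1),(0,0),(21,0),(20,0)]⟩⟩,⟨false,0,⟨0,[]⟩,⟨1,[(21,0),(0,0),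
  (23,0)]⟩⟩,⟨true,0,⟨0,[(0,0)]⟩,⟨14,[(2,14),(0,8),(0,0),(6,4),(6,2),(6,0),(5,0),(2,1)]⟩⟩,[]⟩) (.I
  [0,0,2,2,-1,0,0,-1] (.R ⟨1,true,false,false,[0,0,1],[0,1],[0,1,0,0,0,0,0,1],(⟨0,[(32,0)]⟩,⟨0,[(31,
  0)]⟩),(⟨0,[(36,0)]⟩,⟨0,[(35,0)]⟩),⟨0,[(21,0)]⟩,.k,.k,.k,.k,(.r (-2) ⟨9,[(11,1),(0,5),(5,7),(27,2),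
  (0,4)]⟩ ⟨0,[(0,0)]⟩),.k,⟨true,0,⟨1,[(4,1),(5,1),(27,0),(1,3),(0,0)]⟩,⟨3,[(0,1),(16,1),(11,0),(0,
  0),(8,1)]⟩⟩,⟨false,1,⟨1,[(26,1),(7,0),(11,0)]⟩,⟨0,[(29,0)]⟩⟩,⟨true,0,⟨0,[(49,0)]⟩,⟨0,[]⟩⟩,⟨false,
  1,⟨7,[(7,3),(9,3),(1,1),(2,0),(0,0),(10,0),(12,1)]⟩,⟨0,[(10,0)]⟩⟩,⟨false,0,⟨0,[(45,0)]⟩,⟨5,[(12,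
  1),(16,0),(0,0),(8,1),(7,1)]⟩⟩,⟨true,0,⟨0,[(7,0)]⟩,⟨2,[(1,0),(7,0),(0,0),(2,1)]⟩⟩,[]⟩) (.Q [0,0,1,
  0,-1,0,0,0,1,0,0,1] (.p true [0,0,0,0,1] [] (⟨0,[(25,0)]⟩,⟨0,[(24,0)]⟩) .k 0 (⟨0,[]⟩,⟨0,[]⟩) .k
  .k) (.Q [0,0,0,0,1,0,1,0,-1,0,1,-1] (.p true [0,0,1] [0,0,0,0,1] (⟨0,[(33,0)]⟩,⟨0,[(32,0)]⟩) .k 2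
  (⟨0,[(26,0)]⟩,⟨0,[(25,0)]⟩) .k (.r 0 ⟨1,[(5,0),(4,0),(1,0),(33,1),(1,0)]⟩ ⟨0,[(18,0),(31,0)]⟩))
  (.K ⟨0,[0,0,0,0,1],(-1),(-1),(⟨0,[(27,0)]⟩,⟨0,[(26,0)]⟩),.k,(.r (-1) ⟨13,[(9,1),(4,5),(14,1),(18,
  0),(0,0)]⟩ ⟨7,[(8,1),(0,1),(10,0),(8,2),(2,0),(16,1),(0,2)]⟩),(.r 0 ⟨7,[(8,1),(0,1),(19,3),(1,0),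
  (0,2),(16,1)]⟩ ⟨35,[(9,2),(4,13),(14,2),(10,3),(7,3),(2,4)]⟩),.k,.k,[⟨0,[(0,0)]⟩,⟨0,[(1,0)]⟩,⟨0,
  [(24,0),(26,0)]⟩,⟨0,[(1,0),(40,0)]⟩]⟩) (.Q [0,0,0,0,0,1,0,0,0,0,0,-1] (.ed true [1,-1,0,0,1] .k)
  (.R ⟨0,false,false,false,[0,0,0,0,1],[0,1],[],(⟨0,[(28,0)]⟩,⟨0,[(27,0)]⟩),(⟨0,[(39,0)]⟩,⟨0,[(38,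
  0)]⟩),⟨0,[(0,0)]⟩,.k,.k,(.r (-1) ⟨13,[(10,1),(4,5),(14,1),(18,0),(0,0)]⟩ ⟨7,[(9,1),(0,1),(10,0),
  (8,2),(2,0),(16,1),(0,2)]⟩),(.r (-1) ⟨13,[(10,1),(4,5),(14,1),(18,0),(0,0)]⟩ ⟨7,[(9,1),(0,1),(10,
  0),(8,2),(2,0),(16,1),(0,2)]⟩),.k,.k,⟨true,1,⟨13,[(10,1),(4,5),(14,1),(18,0),(0,0)]⟩,⟨1,[(7,0),(1,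
  0),(2,0),(29,0),(5,0)]⟩⟩,⟨false,2,⟨0,[(25,0),(23,0)]⟩,⟨0,[(2,0)]⟩⟩,⟨false,1,⟨1,[(25,0),(0,0),(14,
  0)]⟩,⟨0,[]⟩⟩,⟨true,1,⟨0,[(25,0),(22,0)]⟩,⟨1,[(1,0),(0,0),(3,0),(6,0),(29,0)]⟩⟩,⟨false,0,⟨0,[]⟩,⟨0,
  []⟩⟩,⟨false,0,⟨0,[]⟩,⟨0,[]⟩⟩,[.a ⟨true,0,⟨0,[(48,0)]⟩,⟨14,[(4,2),(3,3),(4,2),(1,1),(13,3),(5,3),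
  (2,7)]⟩⟩ ⟨false,1,⟨13,[(10,5),(4,3),(14,5),(18,2),(0,2)]⟩,⟨0,[]⟩⟩ ⟨true,1,⟨0,[(25,0),(22,0)]⟩,⟨1,
  [(1,0),(0,0),(3,0),(6,0),(28,0)]⟩⟩,.o ⟨false,1,⟨1,[(37,0),(10,1),(1,0)]⟩,⟨0,[(47,0)]⟩⟩,.o ⟨false,
  0,⟨1,[(2,1),(34,0),(11,0)]⟩,⟨0,[(25,0)]⟩⟩,.e ⟨false,1,⟨1,[(49,0),(0,0)]⟩,⟨1,[(32,0),(0,0)]⟩⟩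
  ⟨false,2,⟨1,[(25,1),(22,1),(0,0),(0,0)]⟩,⟨1,[(1,0),(0,0),(3,0),(6,0),(28,0)]⟩⟩]⟩) (.R ⟨1,false,
  false,false,[0,0,0,0,1],[0,1],[],(⟨0,[(28,0)]⟩,⟨0,[(27,0)]⟩),(⟨0,[(39,0)]⟩,⟨0,[(38,0)]⟩),⟨0,[(0,
  0)]⟩,.k,.k,(.r (-1) ⟨13,[(10,1),(4,5),(14,1),(18,0),(0,0)]⟩ ⟨7,[(9,1),(0,1),(10,0),(8,2),(2,0),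
  (16,1),(0,2)]⟩),(.r (-1) ⟨13,[(10,1),(4,5),(14,1),(18,0),(0,0)]⟩ ⟨7,[(9,1),(0,1),(10,0),(8,2),(2,
  0),(16,1),(0,2)]⟩),(.r (-2) ⟨6,[(10,1),(4,5),(14,1),(18,0),(0,0)]⟩ ⟨1,[(7,0),(1,0),(2,0),(29,0),
  (5,2)]⟩),.k,⟨true,1,⟨13,[(10,1),(4,5),(14,1),(18,0),(0,0)]⟩,⟨1,[(7,0),(1,0),(2,0),(29,0),(5,0)]⟩⟩,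
  ⟨false,2,⟨0,[(25,0),(23,0)]⟩,⟨0,[(2,0)]⟩⟩,⟨false,1,⟨1,[(25,0),(0,0),(14,0)]⟩,⟨0,[]⟩⟩,⟨true,1,⟨0,
  [(25,0),(22,0)]⟩,⟨1,[(1,0),(0,0),(3,0),(6,0),(29,0)]⟩⟩,⟨true,0,⟨1,[(7,1),(1,1),(3,1),(27,2),(1,5),
  (0,0)]⟩,⟨0,[(47,0)]⟩⟩,⟨true,1,⟨0,[(25,0),(22,1)]⟩,⟨0,[(1,0),(4,0),(6,0)]⟩⟩,[.a ⟨true,0,⟨0,[(48,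
  0)]⟩,⟨14,[(4,2),(3,3),(4,2),(1,1),(13,3),(5,3),(2,7)]⟩⟩ ⟨false,1,⟨13,[(10,5),(4,3),(14,5),(18,2),
  (0,2)]⟩,⟨0,[]⟩⟩ ⟨true,1,⟨0,[(25,0),(22,0)]⟩,⟨1,[(1,0),(0,0),(3,0),(6,0),(28,0)]⟩⟩,.o ⟨false,1,⟨1,
  [(37,0),(10,1),(1,0)]⟩,⟨0,[(47,0)]⟩⟩,.o ⟨false,0,⟨1,[(2,1),(34,0),(11,0)]⟩,⟨0,[(25,0)]⟩⟩,.e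
  ⟨false,1,⟨1,[(49,0),(0,0)]⟩,⟨1,[(32,0),(0,0)]⟩⟩ ⟨false,2,⟨1,[(25,1),(22,1),(0,0),(0,0)]⟩,⟨1,[(1,
  0),(0,0),(3,0),(6,0),(28,0)]⟩⟩]⟩))) (.Q [-1,0,0,1,0,0,0,0,-1,0,0,-1] (.p false [0,0,0,0,1] [] (⟨0,
  [(26,0)]⟩,⟨0,[(25,0)]⟩) .k 0 (⟨0,[]⟩,⟨0,[]⟩) .k .k) (.R ⟨2,true,false,false,[0,1],[0,0,0,0,1],[2],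
  (⟨0,[]⟩,⟨0,[]⟩),(⟨0,[(27,0)]⟩,⟨0,[(26,0)]⟩),⟨0,[]⟩,.k,.k,.k,(.r 0 ⟨7,[(8,1),(0,1),(10,0),(8,2),(2,
  0),(16,1),(0,2)]⟩ ⟨13,[(9,1),(4,5),(14,1),(18,0),(0,0)]⟩),.k,.k,⟨true,0,⟨0,[]⟩,⟨1,[(31,0),(0,
  0)]⟩⟩,⟨false,0,⟨0,[(25,0)]⟩,⟨0,[(1,0)]⟩⟩,⟨true,1,⟨13,[(9,1),(4,5),(14,1),(18,0),(0,0)]⟩,⟨4,[(6,2),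
  (1,2),(2,0),(0,1),(29,3),(0,0),(3,1)]⟩⟩,⟨false,1,⟨5,[(14,1),(10,5),(5,0),(0,0),(8,1),(7,1)]⟩,⟨0,
  [(0,0)]⟩⟩,⟨false,1,⟨1,[(48,0),(0,0)]⟩,⟨0,[(50,0)]⟩⟩,⟨true,0,⟨0,[(25,0)]⟩,⟨0,[(0,0),(45,0)]⟩⟩,[]⟩)
  (.Q [0,0,-1,0,1,0,1,0,-1,0,1,-1] (.p true [0,0,1] [0,0,0,0,1] (⟨0,[(34,0)]⟩,⟨0,[(33,0)]⟩) .k 2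
  (⟨0,[(27,0)]⟩,⟨0,[(26,0)]⟩) .k (.r 0 ⟨1,[(6,0),(4,0),(1,0),(33,1),(1,0)]⟩ ⟨0,[(19,0),(31,0)]⟩))
  (.Q [0,0,0,0,0,-1,0,0,0,1,0,-1] (.ed true [0,1,0,0,1] .k) (.Q [-1,0,0,-1,0,0,0,0,-1,1,0,-1] (.p
  false [0,0,0,0,1] [1] (⟨0,[(29,0)]⟩,⟨0,[(28,0)]⟩) .k 1 (⟨0,[]⟩,⟨0,[]⟩) .k .k) (.S ⟨1,0,[-1,1],[1,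
  0,0,0,-1],[-1],(⟨0,[(29,0)]⟩,⟨0,[(30,0)]⟩),⟨0,[(1,0)]⟩,.k,(.r (-1) ⟨35,[(12,2),(4,13),(14,2),(10,
  3),(7,3),(2,4)]⟩ ⟨7,[(11,1),(0,1),(19,3),(1,0),(0,2),(16,1)]⟩),⟨false,1,⟨1,[(27,0),(0,0),(23,0)]⟩,
  ⟨0,[]⟩⟩,⟨true,0,⟨0,[(54,0)]⟩,⟨0,[]⟩⟩,⟨true,0,⟨0,[(50,0)]⟩,⟨0,[(49,0)]⟩⟩,⟨false,0,⟨0,[(50,0)]⟩,⟨5,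
  [(17,1),(16,0),(0,0),(8,1),(7,1)]⟩⟩,[.o ⟨false,0,⟨0,[(0,0),(11,0),(1,0)]⟩,⟨1,[(28,1),(10,0),(12,
  0)]⟩⟩,.e ⟨false,1,⟨1,[(43,0),(7,0)]⟩,⟨0,[(54,0)]⟩⟩ ⟨false,1,⟨35,[(12,14),(4,9),(14,14),(10,7),(7,
  7),(2,0)]⟩,⟨0,[]⟩⟩,.a ⟨true,0,⟨0,[(2,0),(6,0)]⟩,⟨0,[(28,0)]⟩⟩ ⟨false,1,⟨1,[(27,0),(0,0),(14,0)]⟩,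
  ⟨0,[]⟩⟩ ⟨true,0,⟨0,[(54,0)]⟩,⟨0,[]⟩⟩,.o ⟨false,0,⟨4,[(0,1),(3,2),(4,1),(1,1),(2,1),(24,0),(4,1)]⟩,
  ⟨1,[(28,1),(10,0),(11,0)]⟩⟩]⟩) (.Q [-1,0,0,0,0,0,0,0,-1,1,0,-1] (.p false [0,0,0,0,1] [1] (⟨0,
  [(30,0)]⟩,⟨0,[(29,0)]⟩) .k 1 (⟨0,[]⟩,⟨0,[]⟩) .k .k) (.R ⟨2,true,false,true,[0,1],[1,0,0,0,-1],[1,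
  1],(⟨0,[]⟩,⟨0,[]⟩),(⟨0,[(30,0)]⟩,⟨0,[(31,0)]⟩),⟨0,[]⟩,.k,.k,.k,(.r 0 ⟨7,[(12,1),(0,1),(19,3),(1,
  0),(0,2),(16,1)]⟩ ⟨35,[(13,2),(4,13),(14,2),(10,3),(7,3),(2,4)]⟩),.k,.k,⟨true,0,⟨0,[]⟩,⟨0,[(54,
  0)]⟩⟩,⟨false,0,⟨0,[(0,0)]⟩,⟨65,[(1,55),(11,7),(4,23),(10,9),(3,7),(10,3),(2,4),(4,8)]⟩⟩,⟨false,1,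
  ⟨13,[(13,1),(4,5),(14,1),(18,0),(0,0)]⟩,⟨0,[(45,0),(5,0)]⟩⟩,⟨true,0,⟨0,[(0,0),(49,0)]⟩,⟨0,[(1,
  0)]⟩⟩,⟨true,0,⟨0,[(46,0)]⟩,⟨1,[(35,0),(0,0)]⟩⟩,⟨false,0,⟨0,[(0,0)]⟩,⟨1,[(29,1),(10,0),(12,0)]⟩⟩,
  []⟩) (.S ⟨1,0,[-1],[1,0,0,0,-1],[0,1,0,-1],(⟨0,[(30,0)]⟩,⟨0,[(31,0)]⟩),⟨0,[(2,0)]⟩,.k,(.r (-1)
  ⟨35,[(13,2),(4,13),(14,2),(10,3),(7,3),(2,4)]⟩ ⟨7,[(12,1),(0,1),(19,3),(1,0),(0,2),(16,1)]⟩),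
  ⟨true,0,⟨0,[(50,0)]⟩,⟨0,[(51,0)]⟩⟩,⟨false,1,⟨1,[(28,0),(0,0),(23,0)]⟩,⟨0,[]⟩⟩,⟨false,0,⟨0,[]⟩,⟨1,
  [(28,0),(0,0),(23,0)]⟩⟩,⟨true,0,⟨0,[(51,0)]⟩,⟨0,[(50,0)]⟩⟩,[.o ⟨false,1,⟨1,[(5,0),(22,0),(25,0)]⟩,
  ⟨0,[(0,0)]⟩⟩,.o ⟨false,1,⟨4,[(3,1),(1,2),(4,1),(33,0),(0,2),(1,0)]⟩,⟨0,[(0,0),(54,0)]⟩⟩,.a ⟨true,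
  0,⟨0,[(3,0),(6,0)]⟩,⟨0,[(29,0)]⟩⟩ ⟨true,0,⟨0,[(50,0)]⟩,⟨0,[(51,0)]⟩⟩ ⟨false,1,⟨1,[(28,0),(0,0),
  (14,0)]⟩,⟨0,[]⟩⟩,.e ⟨false,1,⟨13,[(13,1),(4,5),(14,1),(18,0),(0,0)]⟩,⟨0,[(45,0),(5,0)]⟩⟩ ⟨false,1,
  ⟨1,[(44,0),(7,0)]⟩,⟨1,[(35,0),(0,0)]⟩⟩]⟩))) (.Q [-2,0,0,1,0,0,0,0,-2,1,0,-2] (.p false [0,0,0,0,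
  1] [1,0,0,0,-1] (⟨0,[(29,0)]⟩,⟨0,[(28,0)]⟩) .k 2 (⟨0,[(28,0)]⟩,⟨0,[(29,0)]⟩) .k (.r 0 ⟨0,[]⟩ ⟨2,
  [(26,1),(0,1),(14,0),(10,1)]⟩)) (.S ⟨1,0,[1,1],[0,0,0,0,1],[],(⟨0,[(30,0)]⟩,⟨0,[(29,0)]⟩),⟨0,[(1,
  0),(23,0),(0,0)]⟩,.k,(.r (-1) ⟨13,[(12,1),(4,5),(14,1),(18,0),(0,0)]⟩ ⟨7,[(11,1),(0,1),(10,0),(8,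
  2),(2,0),(16,1),(0,2)]⟩),⟨false,1,⟨1,[(27,0),(0,0),(14,0)]⟩,⟨0,[]⟩⟩,⟨true,0,⟨0,[(54,0)]⟩,⟨0,[]⟩⟩,
  ⟨true,0,⟨1,[(9,1),(1,1),(3,1),(27,2),(1,5),(0,0)]⟩,⟨0,[(49,0)]⟩⟩,⟨false,0,⟨0,[(50,0)]⟩,⟨5,[(17,1),
  (16,0),(0,0),(8,1),(7,1)]⟩⟩,[.o ⟨false,0,⟨0,[(3,0),(8,0),(1,0)]⟩,⟨13,[(0,5),(16,1),(9,1),(11,2),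
  (4,3),(7,4)]⟩⟩,.a ⟨true,0,⟨0,[(28,0)]⟩,⟨29,[(0,14),(5,2),(3,3),(4,2),(1,1),(13,3),(5,3),(2,7)]⟩⟩
  ⟨false,1,⟨1,[(51,0),(0,0)]⟩,⟨0,[(54,0)]⟩⟩ ⟨true,0,⟨0,[]⟩,⟨1,[(34,0),(0,0)]⟩⟩,.e ⟨false,1,⟨1,[(27,
  0),(0,0),(23,0)]⟩,⟨0,[]⟩⟩ ⟨false,0,⟨0,[]⟩,⟨1,[(27,0),(0,0),(23,0)]⟩⟩,.o ⟨false,0,⟨11,[(3,2),(5,2),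
  (1,2),(2,2),(13,8),(10,4),(4,2),(1,0)]⟩,⟨0,[(4,0)]⟩⟩]⟩) (.R ⟨1,false,false,true,[0,0,0,0,1],[0,1],
  [1,1,1],(⟨0,[(30,0)]⟩,⟨0,[(29,0)]⟩),(⟨0,[(41,0)]⟩,⟨0,[(40,0)]⟩),⟨0,[(1,0),(23,0),(0,0)]⟩,.k,.k,
  (.r (-1) ⟨13,[(12,1),(4,5),(14,1),(18,0),(0,0)]⟩ ⟨7,[(11,1),(0,1),(10,0),(8,2),(2,0),(16,1),(0,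
  2)]⟩),(.r (-1) ⟨13,[(12,1),(4,5),(14,1),(18,0),(0,0)]⟩ ⟨7,[(11,1),(0,1),(10,0),(8,2),(2,0),(16,1),
  (0,2)]⟩),(.r (-2) ⟨6,[(12,1),(4,5),(14,1),(18,0),(0,0)]⟩ ⟨1,[(9,0),(1,0),(2,0),(29,0),(5,2)]⟩),.k,
  ⟨false,1,⟨13,[(12,1),(4,5),(14,1),(18,0),(0,0)]⟩,⟨0,[(50,0)]⟩⟩,⟨true,1,⟨0,[(4,0)]⟩,⟨1,[(0,0),(8,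
  0),(1,0),(3,0),(37,0)]⟩⟩,⟨false,0,⟨1,[(34,0),(0,0)]⟩,⟨1,[(51,0),(0,0)]⟩⟩,⟨true,0,⟨6,[(2,1),(1,4),
  (4,4),(1,2),(2,2),(30,3),(0,0),(3,3)]⟩,⟨0,[(3,0)]⟩⟩,⟨true,(-1),⟨1,[(9,1),(1,1),(3,1),(27,0),(1,3),
  (0,0)]⟩,⟨13,[(12,1),(4,5),(14,1),(18,0),(0,0)]⟩⟩,⟨true,0,⟨0,[(4,0),(6,0),(4,0),(33,0)]⟩,⟨1,[(0,0),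
  (5,0),(8,0)]⟩⟩,[.o ⟨false,0,⟨0,[(12,0),(1,0)]⟩,⟨5,[(17,1),(16,0),(0,0),(8,1),(7,1)]⟩⟩,.e ⟨false,0,
  ⟨0,[]⟩,⟨13,[(12,5),(4,3),(14,5),(18,2),(0,2)]⟩⟩ ⟨false,1,⟨0,[(4,0),(45,0)]⟩,⟨5,[(0,2),(5,0),(8,0),
  (22,1),(1,1)]⟩⟩,.a ⟨true,0,⟨0,[(28,0)]⟩,⟨0,[(2,0),(6,0)]⟩⟩ ⟨false,0,⟨1,[(34,0),(0,0)]⟩,⟨1,[(51,0),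
  (0,0)]⟩⟩ ⟨true,0,⟨0,[(4,0),(6,0),(4,0)]⟩,⟨5,[(0,2),(5,0),(8,0),(22,1),(1,1)]⟩⟩,.o ⟨false,0,⟨7,[(0,
  3),(10,1),(11,0),(8,0),(2,0),(8,1),(1,1),(6,0)]⟩,⟨0,[(4,0)]⟩⟩]⟩))) (.Q [1,-1,0,0,0,0,0,0,1,0,0,1]
  (.p true [0,0,0,0,1] [] (⟨0,[(28,0)]⟩,⟨0,[(27,0)]⟩) .k 0 (⟨0,[]⟩,⟨0,[]⟩) .k .k) (.R ⟨2,true,false,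
  false,[0,1],[0,0,0,0,1],[1,1],(⟨0,[]⟩,⟨0,[]⟩),(⟨0,[(29,0)]⟩,⟨0,[(28,0)]⟩),⟨0,[]⟩,.k,.k,.k,(.r 0
  ⟨7,[(10,1),(0,1),(10,0),(8,2),(2,0),(16,1),(0,2)]⟩ ⟨13,[(11,1),(4,5),(14,1),(18,0),(0,0)]⟩),.k,.k,
  ⟨true,0,⟨0,[(53,0)]⟩,⟨0,[(47,0)]⟩⟩,⟨false,0,⟨0,[(27,0)]⟩,⟨0,[(3,0)]⟩⟩,⟨false,1,⟨13,[(11,1),(4,5),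
  (14,1),(18,0),(0,0)]⟩,⟨0,[(43,0),(5,0)]⟩⟩,⟨true,0,⟨0,[(2,0)]⟩,⟨4,[(3,4),(4,2),(1,2),(2,0),(0,1),
  (29,3),(0,0),(3,1)]⟩⟩,⟨true,0,⟨0,[(44,0)]⟩,⟨1,[(33,0),(0,0)]⟩⟩,⟨false,0,⟨0,[(0,0)]⟩,⟨1,[(3,0),(22,
  0),(25,0)]⟩⟩,[]⟩) (.Q [-1,0,0,0,0,0,0,0,-1,1,0,-1] (.p false [0,0,0,0,1] [1] (⟨0,[(29,0)]⟩,⟨0,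
  [(28,0)]⟩) .k 1 (⟨0,[]⟩,⟨0,[]⟩) .k .k) (.R ⟨2,true,false,true,[0,1],[1,0,0,0,-1],[1,1],(⟨0,[]⟩,⟨0,
  []⟩),(⟨0,[(29,0)]⟩,⟨0,[(30,0)]⟩),⟨0,[]⟩,.k,.k,.k,(.r 0 ⟨7,[(11,1),(0,1),(19,3),(1,0),(0,2),(16,
  1)]⟩ ⟨35,[(12,2),(4,13),(14,2),(10,3),(7,3),(2,4)]⟩),.k,.k,⟨true,0,⟨0,[]⟩,⟨0,[(53,0)]⟩⟩,⟨false,0,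
  ⟨0,[(0,0)]⟩,⟨1,[(28,1),(10,0),(11,0)]⟩⟩,⟨false,1,⟨13,[(12,1),(4,5),(14,1),(18,0),(0,0)]⟩,⟨0,[(44,
  0),(5,0)]⟩⟩,⟨true,0,⟨0,[(0,0),(48,0)]⟩,⟨1,[(2,1),(8,1),(2,1),(36,2),(0,0)]⟩⟩,⟨true,0,⟨0,[(45,0)]⟩,
  ⟨1,[(34,0),(0,0)]⟩⟩,⟨false,0,⟨0,[(0,0)]⟩,⟨1,[(28,1),(10,0),(12,0)]⟩⟩,[]⟩) (.R ⟨1,false,false,true,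
  [1,0,-1],[1,0,0,0,-1],[1,1,0,-1,0,0,0,-1],(⟨0,[(36,0)]⟩,⟨0,[(37,0)]⟩),(⟨0,[(29,0)]⟩,⟨0,[(30,0)]⟩),
  ⟨0,[(25,0)]⟩,.k,.k,.k,.k,(.r (-1) ⟨1,[(8,1),(42,0),(0,0)]⟩ ⟨1,[(1,11),(0,11),(3,1),(4,9),(3,13),
  (27,20),(1,29),(0,0)]⟩),.k,⟨false,1,⟨1,[(8,1),(42,0),(0,0)]⟩,⟨1,[(9,0),(4,0),(1,0),(33,3),(1,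
  0)]⟩⟩,⟨true,1,⟨0,[(4,0),(29,0)]⟩,⟨0,[(2,0)]⟩⟩,⟨true,0,⟨0,[(49,0)]⟩,⟨0,[(50,0)]⟩⟩,⟨true,0,⟨0,[(1,
  0),(13,0),(34,0)]⟩,⟨2,[(0,0),(2,1),(2,0),(5,1)]⟩⟩,⟨false,0,⟨0,[]⟩,⟨1,[(27,0),(0,0),(23,0)]⟩⟩,
  ⟨true,0,⟨0,[(1,0),(13,0),(34,1)]⟩,⟨2,[(0,1),(2,0),(2,1),(5,0)]⟩⟩,[.o ⟨false,0,⟨0,[(1,0)]⟩,⟨1,[(28,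
  1),(10,0),(12,0)]⟩⟩,.o ⟨false,1,⟨4,[(1,0),(25,3),(15,0),(10,0)]⟩,⟨0,[(0,0)]⟩⟩,.o ⟨false,0,⟨0,[(20,
  0)]⟩,⟨1,[(34,1),(4,0),(11,0)]⟩⟩,.a ⟨true,(-1),⟨0,[(9,0)]⟩,⟨0,[(34,0),(16,0)]⟩⟩ ⟨false,1,⟨1,[(8,1),
  (42,0),(0,0)]⟩,⟨0,[(9,0),(4,0),(35,1),(1,0)]⟩⟩ ⟨true,1,⟨1,[(1,0),(2,0),(29,1),(10,0),(5,0)]⟩,⟨0,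
  [(2,0)]⟩⟩]⟩))))))))))))) (.Q [0,0,-1,0,1,0,1,0,0,-1,1] (.p true [0,0,1] [1] (⟨0,[(25,0)]⟩,⟨0,[(24,
  0)]⟩) .k 1 (⟨0,[]⟩,⟨0,[]⟩) .k .k) (.I [0,1,0,0,0,0,0,-1] (.S ⟨1,0,[0,0,0,0,0,0,0,-1],[1,0,-1],[0,
  1,0,0,0,0,0,-1],(⟨0,[(26,0)]⟩,⟨0,[(27,0)]⟩),⟨0,[(15,0)]⟩,.k,.k,⟨true,0,⟨0,[(44,0)]⟩,⟨0,[]⟩⟩,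
  ⟨false,1,⟨1,[(17,0),(0,0),(23,0)]⟩,⟨0,[]⟩⟩,⟨false,0,⟨0,[(40,0)]⟩,⟨5,[(7,1),(16,0),(0,0),(8,1),(7,
  1)]⟩⟩,⟨true,0,⟨0,[(40,0)]⟩,⟨0,[(39,0)]⟩⟩,[.a ⟨true,0,⟨0,[(11,0),(9,0)]⟩,⟨0,[(5,0),(34,0)]⟩⟩ ⟨true,
  0,⟨0,[(0,0)]⟩,⟨0,[(5,0),(4,0),(23,0),(5,0)]⟩⟩ ⟨false,1,⟨1,[(0,0),(11,0),(28,0)]⟩,⟨0,[(5,0),(4,0),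
  (29,0)]⟩⟩,.o ⟨false,1,⟨0,[(10,0),(1,0)]⟩,⟨0,[(4,0),(35,0)]⟩⟩,.o ⟨false,0,⟨0,[(10,0)]⟩,⟨2,[(1,0),
  (10,0),(9,0),(1,0),(4,0)]⟩⟩,.o ⟨false,0,⟨0,[(25,0)]⟩,⟨0,[(1,0)]⟩⟩]⟩) (.I [1,1,1,0,-1,0,0,1] (.S
  ⟨1,0,[0,1,0,0,0,0,0,-1],[1,0,-1],[0,0,0,0,0,0,0,-1],(⟨0,[(27,0)]⟩,⟨0,[(28,0)]⟩),⟨0,[(16,0)]⟩,.k,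
  .k,⟨false,1,⟨1,[(18,0),(0,0),(23,0)]⟩,⟨0,[]⟩⟩,⟨true,0,⟨0,[(45,0)]⟩,⟨0,[]⟩⟩,⟨true,0,⟨0,[(41,0)]⟩,
  ⟨0,[(40,0)]⟩⟩,⟨false,0,⟨0,[(41,0)]⟩,⟨5,[(8,1),(16,0),(0,0),(8,1),(7,1)]⟩⟩,[.o ⟨false,0,⟨0,[(24,
  0)]⟩,⟨2,[(1,1),(0,0),(20,0),(1,0),(4,0),(12,0)]⟩⟩,.a ⟨true,0,⟨0,[(12,0),(9,0)]⟩,⟨0,[(6,0),(34,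
  0)]⟩⟩ ⟨true,1,⟨0,[(12,0),(21,0),(1,0)]⟩,⟨0,[(0,0)]⟩⟩ ⟨false,1,⟨0,[(12,0),(29,0)]⟩,⟨1,[(1,0),(12,
  0)]⟩⟩,.o ⟨false,0,⟨0,[(11,0)]⟩,⟨2,[(2,0),(10,0),(9,0),(1,0),(4,0)]⟩⟩,.o ⟨false,0,⟨0,[(26,0)]⟩,⟨0,
  [(2,0)]⟩⟩]⟩) (.Q [0,0,0,0,0,2,0,0,0,0,-1] (.p false [0,0,1] [] (⟨0,[(28,0)]⟩,⟨0,[(27,0)]⟩) .k 0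
  (⟨0,[]⟩,⟨0,[]⟩) .k .k) (.Q [0,0,-1,-1,0,0,-1,0,0,1,-1] (.p false [0,0,1] [1] (⟨0,[(29,0)]⟩,⟨0,
  [(28,0)]⟩) .k 1 (⟨0,[]⟩,⟨0,[]⟩) .k .k) (.R ⟨0,false,false,true,[0,-1,1],[1,-1],[],(⟨0,[(19,0)]⟩,
  ⟨1,[(1,0),(20,0),(0,0),(5,0)]⟩),(⟨0,[(33,0)]⟩,⟨0,[(34,0)]⟩),⟨0,[(1,0)]⟩,.k,.k,(.r (-1) ⟨13,[(0,5),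
  (2,3),(1,5),(3,3),(0,1),(21,2),(11,6)]⟩ ⟨1,[(14,1),(12,0),(0,0),(14,3)]⟩),.k,.k,.k,⟨true,0,⟨0,
  [(37,0),(5,0)]⟩,⟨0,[(42,0)]⟩⟩,⟨false,0,⟨0,[(24,0)]⟩,⟨2,[(4,0),(10,0),(9,0),(1,0),(4,0)]⟩⟩,⟨true,0,
  ⟨0,[(14,0),(28,0)]⟩,⟨0,[(9,0)]⟩⟩,⟨false,0,⟨0,[(14,0),(9,0)]⟩,⟨2,[(3,1),(0,0),(20,0),(1,0),(4,0),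
  (12,0)]⟩⟩,⟨false,0,⟨0,[]⟩,⟨0,[]⟩⟩,⟨false,0,⟨0,[]⟩,⟨0,[]⟩⟩,[.o ⟨false,0,⟨0,[(42,0)]⟩,⟨1,[(32,0),
  (10,1),(1,0)]⟩⟩,.a ⟨true,0,⟨0,[(0,0),(26,0)]⟩,⟨0,[(43,0)]⟩⟩ ⟨false,1,⟨1,[(44,0),(0,0)]⟩,⟨0,[(47,
  0)]⟩⟩ ⟨true,0,⟨0,[(0,0)]⟩,⟨0,[(7,0),(6,0),(22,0),(5,1)]⟩⟩,.e ⟨false,1,⟨1,[(20,0),(0,0),(23,0)]⟩,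
  ⟨0,[]⟩⟩ ⟨false,0,⟨0,[(0,0)]⟩,⟨1,[(27,1),(4,0),(10,1),(1,0)]⟩⟩,.o ⟨false,0,⟨0,[(7,0),(6,0),(22,0),
  (5,0)]⟩,⟨1,[(24,1),(7,0),(11,0)]⟩⟩]⟩) (.R ⟨0,false,false,true,[0,-1,1],[1,-1],[],(⟨0,[(19,0)]⟩,⟨1,
  [(1,0),(20,0),(0,0),(5,0)]⟩),(⟨0,[(33,0)]⟩,⟨0,[(34,0)]⟩),⟨0,[(1,0)]⟩,.k,.k,(.r (-1) ⟨4,[(2,2),(0,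
  1),(1,0),(3,4),(0,0),(2,0)]⟩ ⟨1,[(0,0),(13,1),(2,0),(9,0),(15,2)]⟩),.k,.k,.k,⟨true,0,⟨0,[(37,0),
  (5,0)]⟩,⟨0,[(42,0)]⟩⟩,⟨false,0,⟨0,[(24,0)]⟩,⟨2,[(4,0),(10,0),(9,0),(1,0),(4,0)]⟩⟩,⟨true,0,⟨0,[(14,
  0),(28,0)]⟩,⟨0,[(9,0)]⟩⟩,⟨false,0,⟨0,[(14,0),(9,0)]⟩,⟨4,[(0,0),(2,1),(0,0),(2,0),(17,1),(6,0),(12,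
  2)]⟩⟩,⟨false,0,⟨0,[]⟩,⟨0,[]⟩⟩,⟨false,0,⟨0,[]⟩,⟨0,[]⟩⟩,[.o ⟨false,0,⟨0,[(42,0)]⟩,⟨1,[(32,0),(10,1),
  (1,0)]⟩⟩,.e ⟨false,1,⟨1,[(44,0),(0,0)]⟩,⟨0,[(47,0)]⟩⟩ ⟨false,1,⟨8,[(10,2),(4,0),(1,0),(6,7),(0,0),
  (18,1)]⟩,⟨0,[(0,0)]⟩⟩,.a ⟨true,0,⟨0,[(27,0)]⟩,⟨0,[(24,0)]⟩⟩ ⟨false,1,⟨1,[(20,0),(0,0),(23,0)]⟩,⟨0,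
  []⟩⟩ ⟨true,0,⟨0,[(24,0),(17,0)]⟩,⟨0,[(0,0)]⟩⟩,.o ⟨false,0,⟨3,[(0,1),(6,1),(6,1),(12,0),(0,0),(8,
  1)]⟩,⟨1,[(24,1),(7,0),(11,0)]⟩⟩]⟩)) (.S ⟨1,0,[0,1,-1,-1,0,0,0,1],[0,-1,1],[1,0,-1,-2,0,0,0,1],(⟨0,
  [(18,0)]⟩,⟨0,[(28,0),(1,0)]⟩),⟨0,[(0,0)]⟩,.k,(.r (-1) ⟨4,[(1,2),(0,1),(1,0),(3,4),(0,0),(2,0)]⟩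
  ⟨1,[(13,1),(12,0),(0,0),(14,3)]⟩),⟨false,1,⟨5,[(9,1),(16,0),(0,0),(8,1),(7,1)]⟩,⟨0,[(42,0)]⟩⟩,
  ⟨true,0,⟨0,[(46,0)]⟩,⟨0,[]⟩⟩,⟨true,0,⟨0,[]⟩,⟨0,[(46,0)]⟩⟩,⟨false,0,⟨0,[(42,0)]⟩,⟨5,[(9,1),(16,0),
  (0,0),(8,1),(7,1)]⟩⟩,[.o ⟨false,0,⟨0,[(6,0)]⟩,⟨4,[(1,1),(12,1),(1,1),(8,0),(5,0),(4,1),(5,4)]⟩⟩,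
  .e ⟨false,1,⟨0,[(1,0),(0,0),(1,0),(7,0),(24,0)]⟩,⟨0,[(25,0),(0,0),(15,1)]⟩⟩ ⟨false,1,⟨9,[(2,4),(5,
  3),(0,1),(5,0),(27,5)]⟩,⟨0,[(13,0),(28,0)]⟩⟩,.a ⟨true,0,⟨0,[(26,0)]⟩,⟨0,[(23,0)]⟩⟩ ⟨false,1,⟨4,
  [(1,0),(0,3),(1,1),(4,1),(2,1)]⟩,⟨0,[(13,0),(28,1)]⟩⟩ ⟨true,0,⟨2,[(0,0),(1,0),(1,0),(1,0),(5,1),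
  (4,0),(12,2),(6,2)]⟩,⟨0,[(13,0),(28,0)]⟩⟩,.o ⟨false,0,⟨0,[(6,0),(6,0),(22,0),(5,0)]⟩,⟨1,[(23,1),
  (7,0),(11,0)]⟩⟩]⟩)))) (.I [0,-1,0,1,0,0,0,1] (.S ⟨1,0,[0,0,0,0,0,0,0,-1],[1,0,-1],[],(⟨0,[(26,
  0)]⟩,⟨0,[(27,0)]⟩),⟨0,[(15,0)]⟩,.k,.k,⟨true,0,⟨1,[(0,0),(8,0)]⟩,⟨0,[(11,0),(23,0)]⟩⟩,⟨false,1,⟨1,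
  [(17,0),(0,0),(23,0)]⟩,⟨0,[]⟩⟩,⟨false,0,⟨0,[(0,0)]⟩,⟨2,[(7,0),(3,0),(0,0),(10,0),(0,0)]⟩⟩,⟨true,0,
  ⟨0,[(40,0)]⟩,⟨0,[(39,0)]⟩⟩,[.e ⟨false,1,⟨1,[(17,0),(0,0),(22,0)]⟩,⟨0,[]⟩⟩ ⟨false,1,⟨0,[(11,0),(29,
  0)]⟩,⟨1,[(0,0),(8,0)]⟩⟩,.o ⟨false,1,⟨0,[(10,0),(1,0)]⟩,⟨0,[(4,0),(35,0)]⟩⟩,.o ⟨false,0,⟨0,[(10,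
  0)]⟩,⟨1,[(24,1),(4,0),(11,0)]⟩⟩,.a ⟨true,(-1),⟨0,[(1,0)]⟩,⟨0,[(24,0),(16,0)]⟩⟩ ⟨false,1,⟨1,[(41,
  0),(0,0)]⟩,⟨1,[(24,0),(0,0)]⟩⟩ ⟨true,1,⟨0,[(11,0),(29,0)]⟩,⟨0,[(1,0),(2,0),(35,0)]⟩⟩]⟩) (.Q [0,0,
  2,0,-1,0,1,1,0,0,1] (.p true [0,0,1] [] (⟨0,[(27,0)]⟩,⟨0,[(26,0)]⟩) .k 0 (⟨0,[]⟩,⟨0,[]⟩) .k .k)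
  (.I [1,0,-2,-2,1] (.I [0,0,2,0,-1,2] (.R ⟨1,false,false,false,[1,-1],[1,-1,-1],[1,1,-1,-2],(⟨0,
  [(33,0)]⟩,⟨0,[(34,0)]⟩),(⟨0,[(18,0)]⟩,⟨1,[(0,0),(29,1),(13,0)]⟩),⟨0,[(18,0),(0,0)]⟩,.k,.k,(.x 1
  ⟨0,[(0,0)]⟩ ⟨0,[(32,0),(0,1),(10,0)]⟩),.k,.k,.k,⟨false,0,⟨0,[(9,0)]⟩,⟨0,[(15,0),(27,0)]⟩⟩,⟨true,0,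
  ⟨0,[(13,0)]⟩,⟨0,[(27,0)]⟩⟩,⟨true,0,⟨0,[(42,0)]⟩,⟨0,[(43,0)]⟩⟩,⟨false,1,⟨0,[(13,0),(1,0)]⟩,⟨0,[(2,
  0),(41,0)]⟩⟩,⟨false,0,⟨0,[]⟩,⟨1,[(20,0),(0,0),(23,0)]⟩⟩,⟨false,1,⟨0,[(13,0),(1,0),(27,0)]⟩,⟨0,[(8,
  0)]⟩⟩,[.a ⟨true,0,⟨3,[(1,0),(1,1),(0,2),(10,1),(8,0)]⟩,⟨0,[(2,0),(40,0),(0,0)]⟩⟩ ⟨false,1,⟨4,[(1,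
  2),(8,0),(29,1),(1,0)]⟩,⟨0,[(37,0),(5,1)]⟩⟩ ⟨true,1,⟨3,[(1,0),(4,1),(19,1),(17,0)]⟩,⟨0,[(2,0),(40,
  0)]⟩⟩,.o ⟨false,1,⟨0,[(6,0)]⟩,⟨0,[(7,0),(35,1)]⟩⟩,.o ⟨false,0,⟨1,[(27,0),(0,0)]⟩,⟨1,[(32,0),(11,
  0)]⟩⟩,.e ⟨false,1,⟨0,[(1,0)]⟩,⟨1,[(27,0),(0,0),(8,1),(5,3)]⟩⟩ ⟨false,2,⟨0,[(6,0),(37,0)]⟩,⟨0,[(2,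
  0),(40,0)]⟩⟩]⟩) (.I [0,0,-2,-2,1] (.R ⟨1,false,false,false,[1,-1],[1,-1,-1],[1,1,-1,-2],(⟨0,[(34,
  0)]⟩,⟨0,[(35,0)]⟩),(⟨0,[(19,0)]⟩,⟨0,[(31,0),(0,0)]⟩),⟨0,[(19,0),(0,0)]⟩,.k,.k,(.r (-1) ⟨0,[(0,
  0)]⟩ ⟨0,[(28,0),(0,0),(14,1)]⟩),.k,.k,.k,⟨false,0,⟨0,[(10,0)]⟩,⟨0,[(16,0),(27,0)]⟩⟩,⟨true,0,⟨0,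
  [(14,0)]⟩,⟨0,[(28,0)]⟩⟩,⟨true,0,⟨0,[(43,0)]⟩,⟨0,[(44,0)]⟩⟩,⟨false,1,⟨0,[(14,0),(1,0)]⟩,⟨0,[(3,0),
  (41,0)]⟩⟩,⟨false,0,⟨0,[]⟩,⟨1,[(21,0),(0,0),(23,0)]⟩⟩,⟨false,1,⟨0,[(14,0),(1,0),(27,0)]⟩,⟨0,[(9,
  0)]⟩⟩,[.a ⟨true,0,⟨3,[(2,0),(1,1),(0,2),(10,1),(8,0)]⟩,⟨0,[(3,0),(40,0),(0,0)]⟩⟩ ⟨false,1,⟨4,[(2,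
  2),(8,0),(29,1),(1,0)]⟩,⟨0,[(38,0),(5,1)]⟩⟩ ⟨true,1,⟨3,[(2,0),(4,1),(19,1),(17,0)]⟩,⟨0,[(3,0),(40,
  0)]⟩⟩,.o ⟨false,1,⟨0,[(7,0)]⟩,⟨0,[(8,0),(35,1)]⟩⟩,.o ⟨false,0,⟨1,[(28,0),(0,0)]⟩,⟨1,[(33,0),(11,
  0)]⟩⟩,.e ⟨false,1,⟨0,[(2,0)]⟩,⟨1,[(28,0),(0,0),(8,1),(5,3)]⟩⟩ ⟨false,2,⟨0,[(7,0),(37,0)]⟩,⟨0,[(3,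
  0),(40,0)]⟩⟩]⟩) (.Q [0,0,0,0,0,-2,0,0,0,0,1] (.p true [0,0,1] [] (⟨0,[(31,0)]⟩,⟨0,[(30,0)]⟩) .k 0
  (⟨0,[]⟩,⟨0,[]⟩) .k .k) (.Q [0,-1,0,2,0,0,-1,-1,0,1,-1] (.p false [0,0,1] [1] (⟨0,[(32,0)]⟩,⟨0,
  [(31,0)]⟩) .k 1 (⟨0,[]⟩,⟨0,[]⟩) .k .k) (.S ⟨1,3,[],[0,-1,1],[1,0,-1,-2,0,0,0,1],(⟨0,[(22,0)]⟩,⟨0,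
  [(32,0),(1,0)]⟩),⟨0,[(1,0)]⟩,.k,(.r (-1) ⟨1,[(4,0),(7,1),(35,0)]⟩ ⟨0,[(2,0),(15,0),(31,0)]⟩),
  ⟨false,1,⟨6,[(5,0),(3,0),(3,1),(16,0),(0,0),(16,2)]⟩,⟨0,[(46,0)]⟩⟩,⟨true,0,⟨11,[(0,7),(5,3),(13,
  2),(4,0),(0,0),(3,1),(12,1)]⟩,⟨0,[(10,0)]⟩⟩,⟨true,0,⟨0,[]⟩,⟨0,[(50,0)]⟩⟩,⟨false,0,⟨0,[(0,0)]⟩,⟨3,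
  [(5,1),(4,1),(2,1),(21,0),(12,0)]⟩⟩,[.fa ⟨false,1,⟨1,[(4,0),(7,1),(35,0)]⟩,⟨7,[(0,5),(1,2),(3,1),
  (23,5),(4,2),(5,3)]⟩⟩ ⟨true,0,⟨0,[(27,0)]⟩,⟨1,[(5,0),(11,0),(12,0),(4,0)]⟩⟩,.a ⟨true,0,⟨0,[(0,0),
  (7,0)]⟩,⟨0,[(50,0)]⟩⟩ ⟨true,1,⟨3,[(4,0),(3,1),(3,1),(3,1),(31,2)]⟩,⟨7,[(0,1),(1,8),(3,5),(23,1),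
  (4,0),(5,3)]⟩⟩ ⟨false,1,⟨1,[(27,1),(19,0),(0,0)]⟩,⟨2,[(2,0),(3,0),(3,0),(19,1),(4,0),(5,0)]⟩⟩,.a
  ⟨true,0,⟨0,[(30,0)]⟩,⟨0,[(27,0)]⟩⟩ ⟨false,1,⟨3,[(4,0),(3,1),(3,1),(3,1),(31,2)]⟩,⟨7,[(0,5),(1,2),
  (3,1),(23,5),(4,2),(5,3)]⟩⟩ ⟨true,0,⟨0,[(27,0)]⟩,⟨2,[(2,0),(3,0),(3,0),(19,1),(4,0),(5,0)]⟩⟩,.o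
  ⟨false,0,⟨1,[(5,0),(11,0),(12,0),(4,0)]⟩,⟨1,[(27,1),(7,0),(11,0)]⟩⟩]⟩) (.I [0,0,-2,0,1,-2] (.N [0,
  2] 1 ⟨0,[(3,0)]⟩ ⟨0,[(5,0)]⟩ (.x (-1) ⟨0,[(0,0)]⟩ ⟨0,[(31,0),(0,0),(2,1)]⟩)) (.Q [-1,0,0,1,0,0,0,
  0,-1,0,0,-1] (.p false [0,0,0,0,1] [] (⟨0,[(27,0)]⟩,⟨0,[(26,0)]⟩) .k 0 (⟨0,[]⟩,⟨0,[]⟩) .k .k) (.R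
  ⟨2,true,false,true,[0,1],[0,0,0,0,1],[2,1],(⟨0,[]⟩,⟨0,[]⟩),(⟨0,[(28,0)]⟩,⟨0,[(27,0)]⟩),⟨0,[]⟩,.k,
  .k,.k,(.r 0 ⟨5,[(4,2),(20,1),(0,1),(14,0),(10,1)]⟩ ⟨5,[(15,1),(9,0),(0,0),(22,0)]⟩),.k,.k,⟨true,0,
  ⟨0,[]⟩,⟨1,[(32,0),(0,0)]⟩⟩,⟨false,0,⟨0,[(26,0)]⟩,⟨3,[(0,2),(14,0),(9,0),(23,0)]⟩⟩,⟨false,1,⟨5,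
  [(15,1),(9,0),(0,0),(22,0)]⟩,⟨1,[(4,0),(0,0),(30,1),(9,1)]⟩⟩,⟨true,0,⟨0,[(26,0),(20,0)]⟩,⟨0,[(0,
  0)]⟩⟩,⟨true,0,⟨0,[(43,0)]⟩,⟨0,[(51,0)]⟩⟩,⟨false,0,⟨0,[(26,0)]⟩,⟨4,[(0,2),(9,0),(0,0),(13,1),(24,
  1)]⟩⟩,[]⟩) (.Q [0,0,0,0,0,0,0,0,1,-1,0,1] (.p true [0,0,0,0,1] [1] (⟨0,[(28,0)]⟩,⟨0,[(27,0)]⟩) .k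
  1 (⟨0,[]⟩,⟨0,[]⟩) .k .k) (.Q [-1,-1,0,-1,1,0,0,0,-1,1,0,-1] (.p false [0,0,0,0,1] [1] (⟨0,[(29,
  0)]⟩,⟨0,[(28,0)]⟩) .k 1 (⟨0,[]⟩,⟨0,[]⟩) .k .k) (.Q [1,1,0,0,-1,0,0,0,1,0,0,1] (.p true [0,0,0,0,
  1] [] (⟨0,[(30,0)]⟩,⟨0,[(29,0)]⟩) .k 0 (⟨0,[]⟩,⟨0,[]⟩) .k .k) (.Q [-1,1,0,0,0,0,0,0,-1,1,0,-1]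
  (.p false [0,0,0,0,1] [1] (⟨0,[(31,0)]⟩,⟨0,[(30,0)]⟩) .k 1 (⟨0,[]⟩,⟨0,[]⟩) .k .k) (.Q [0,0,0,0,0,
  -1,0,0,0,1,0,-1] (.ed true [0,1,0,0,1] .k) (.S ⟨1,0,[-1,1],[1,0,0,0,-1],[0,0,0,-1],(⟨0,[(32,0)]⟩,
  ⟨0,[(33,0)]⟩),⟨0,[(0,0)]⟩,.k,(.r (-1) ⟨11,[(20,3),(9,0),(0,0),(14,0),(7,1),(2,1)]⟩ ⟨1,[(9,0),(20,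
  0),(0,0)]⟩),⟨false,1,⟨6,[(12,0),(3,0),(3,1),(16,0),(0,0),(16,2)]⟩,⟨0,[(53,0)]⟩⟩,⟨true,0,⟨0,[(57,
  0)]⟩,⟨0,[]⟩⟩,⟨true,0,⟨0,[]⟩,⟨0,[(57,0)]⟩⟩,⟨false,0,⟨0,[(53,0)]⟩,⟨6,[(12,0),(3,0),(3,1),(16,0),(0,
  0),(16,2)]⟩⟩,[.a ⟨true,0,⟨0,[(1,0)]⟩,⟨0,[(2,0),(52,0)]⟩⟩ ⟨false,1,⟨5,[(20,1),(9,0),(0,0),(22,0)]⟩,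
  ⟨0,[(53,0)]⟩⟩ ⟨true,0,⟨0,[(57,0)]⟩,⟨0,[(47,0)]⟩⟩,.o ⟨false,1,⟨6,[(1,1),(28,4),(15,0),(2,0)]⟩,⟨0,
  [(4,0)]⟩⟩,.o ⟨false,1,⟨0,[(30,0)]⟩,⟨0,[(4,0)]⟩⟩,.e ⟨false,1,⟨1,[(11,0),(43,0)]⟩,⟨1,[(9,0),(20,0),
  (0,0)]⟩⟩ ⟨false,1,⟨11,[(30,4),(0,4),(14,0),(7,5),(2,1)]⟩,⟨0,[(47,0)]⟩⟩]⟩) (.Q [0,0,1,0,0,0,1,1,-1,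
  0,1,-1] (.p true [0,0,1] [0,0,0,0,1] (⟨0,[(40,0)]⟩,⟨0,[(39,0)]⟩) .k 2 (⟨0,[(33,0)]⟩,⟨0,[(32,0)]⟩)
  .k (.r 0 ⟨0,[(7,0),(1,0),(0,1),(3,0),(26,3),(9,0)]⟩ ⟨0,[(25,0),(31,0)]⟩)) (.R ⟨0,false,false,
  false,[1,0,0,0,-1],[0,1],[0,0,0,-1],(⟨0,[(33,0)]⟩,⟨0,[(34,0)]⟩),(⟨0,[(45,0)]⟩,⟨0,[(44,0)]⟩),⟨0,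
  [(1,0)]⟩,.k,.k,(.r (-1) ⟨11,[(21,3),(9,0),(0,0),(14,0),(7,1),(2,1)]⟩ ⟨1,[(10,0),(20,0),(0,0)]⟩),
  (.r (-1) ⟨11,[(21,3),(9,0),(0,0),(14,0),(7,1),(2,1)]⟩ ⟨1,[(10,0),(20,0),(0,0)]⟩),.k,.k,⟨true,1,
  ⟨16,[(8,0),(3,1),(1,0),(0,0),(0,1),(0,1),(3,6)]⟩,⟨0,[(10,0)]⟩⟩,⟨false,1,⟨0,[(5,0),(49,0)]⟩,⟨4,[(0,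
  0),(1,1),(1,1),(5,0),(4,0),(9,0)]⟩⟩,⟨false,1,⟨6,[(13,0),(3,0),(3,1),(16,0),(0,0),(16,2)]⟩,⟨0,[(54,
  0)]⟩⟩,⟨true,0,⟨0,[(5,0),(48,0)]⟩,⟨15,[(0,5),(1,9),(8,0),(0,4),(1,5),(0,5),(26,1)]⟩⟩,⟨false,0,⟨0,
  []⟩,⟨0,[]⟩⟩,⟨false,0,⟨0,[]⟩,⟨0,[]⟩⟩,[.a ⟨true,0,⟨0,[(54,0)]⟩,⟨0,[(3,0),(0,0)]⟩⟩ ⟨false,1,⟨5,[(21,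
  1),(9,0),(0,0),(22,0)]⟩,⟨0,[(54,0)]⟩⟩ ⟨true,0,⟨0,[(5,0),(48,0)]⟩,⟨1,[(0,0),(3,0),(9,0),(0,0)]⟩⟩,
  .o ⟨false,1,⟨1,[(43,0),(10,1),(1,0)]⟩,⟨0,[(53,0)]⟩⟩,.o ⟨false,1,⟨0,[(31,0)]⟩,⟨0,[(5,0)]⟩⟩,.e
  ⟨false,1,⟨1,[(12,0),(43,0)]⟩,⟨1,[(10,0),(20,0),(0,0)]⟩⟩ ⟨false,1,⟨1,[(5,1),(48,1),(0,0),(0,0)]⟩,
  ⟨1,[(0,0),(3,0),(9,0),(0,0)]⟩⟩]⟩) (.S ⟨1,0,[1,1],[0,0,0,0,1],[2,0,0,-1],(⟨0,[(34,0)]⟩,⟨0,[(33,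
  0)]⟩),⟨1,[(1,0),(7,0),(19,0),(4,0)]⟩,.k,(.r (-1) ⟨5,[(21,1),(9,0),(0,0),(22,0)]⟩ ⟨5,[(10,2),(20,
  1),(0,1),(14,0),(10,1)]⟩),⟨false,1,⟨6,[(13,0),(3,0),(3,1),(16,0),(0,0),(16,2)]⟩,⟨0,[(54,0)]⟩⟩,
  ⟨true,0,⟨0,[(58,0)]⟩,⟨0,[]⟩⟩,⟨true,0,⟨0,[]⟩,⟨0,[(58,0)]⟩⟩,⟨false,0,⟨0,[(54,0)]⟩,⟨6,[(13,0),(3,0),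
  (3,1),(16,0),(0,0),(16,2)]⟩⟩,[.e ⟨false,1,⟨5,[(21,1),(9,0),(0,0),(22,0)]⟩,⟨1,[(10,0),(0,0),(30,
  1)]⟩⟩ ⟨false,0,⟨0,[(49,0)]⟩,⟨1,[(31,0),(0,0),(23,0)]⟩⟩,.o ⟨false,0,⟨0,[(5,0)]⟩,⟨6,[(2,1),(28,4),
  (15,0),(2,0)]⟩⟩,.o ⟨false,0,⟨0,[(5,0)]⟩,⟨0,[(31,0)]⟩⟩,.a ⟨true,(-1),⟨0,[(0,0),(12,0)]⟩,⟨1,[(2,1),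
  (52,0),(0,0)]⟩⟩ ⟨false,1,⟨1,[(12,0),(43,0)]⟩,⟨5,[(10,2),(20,1),(0,1),(14,0),(10,1)]⟩⟩ ⟨true,0,⟨0,
  [(49,0)]⟩,⟨1,[(38,0),(0,0)]⟩⟩]⟩))) (.R ⟨1,false,false,true,[0,0,1],[1,0,0,0,-1],[1,1,0,-1,0,0,0,
  1],(⟨0,[(39,0)]⟩,⟨0,[(38,0)]⟩),(⟨0,[(31,0)]⟩,⟨0,[(32,0)]⟩),⟨0,[(28,0)]⟩,.k,.k,.k,.k,(.r (-1) ⟨9,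
  [(18,3),(0,1),(5,5),(27,0),(0,4)]⟩ ⟨0,[(8,0),(0,0),(2,0),(27,1),(9,0)]⟩),.k,⟨true,0,⟨3,[(11,0),(2,
  0),(3,1),(3,1),(31,0)]⟩,⟨0,[(8,0),(0,0),(2,0),(27,1),(9,0)]⟩⟩,⟨false,1,⟨0,[(29,0),(3,0)]⟩,⟨17,[(0,
  17),(7,0),(0,2),(1,1),(0,1),(23,15),(3,5),(6,15)]⟩⟩,⟨true,0,⟨0,[(51,0)]⟩,⟨0,[(52,0)]⟩⟩,⟨false,1,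
  ⟨0,[(2,0),(32,0),(16,0)]⟩,⟨0,[(0,0),(10,0),(41,0)]⟩⟩,⟨false,0,⟨0,[]⟩,⟨1,[(29,0),(0,0),(23,0)]⟩⟩,
  ⟨false,1,⟨0,[(2,0),(32,0),(16,1)]⟩,⟨0,[(0,0),(16,0)]⟩⟩,[.o ⟨false,1,⟨0,[(29,0),(26,0)]⟩,⟨0,[(0,
  0)]⟩⟩,.o ⟨false,1,⟨4,[(2,1),(5,0),(20,2),(17,1),(0,0)]⟩,⟨0,[(3,0)]⟩⟩,.o ⟨false,1,⟨1,[(36,1),(4,0),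
  (11,0)]⟩,⟨0,[(22,0)]⟩⟩,.a ⟨true,0,⟨0,[(36,0)]⟩,⟨0,[(33,0)]⟩⟩ ⟨true,0,⟨0,[(18,0)]⟩,⟨1,[(8,0),(3,0),
  (11,0),(27,0)]⟩⟩ ⟨false,1,⟨5,[(9,0),(3,0),(15,5),(3,4),(6,1)]⟩,⟨0,[(0,0),(35,0)]⟩⟩]⟩)) (.R ⟨1,
  false,false,true,[0,0,1],[0,0,0,0,1],[1,1,0,-1,0,0,0,1],(⟨0,[(38,0)]⟩,⟨0,[(37,0)]⟩),(⟨0,[(31,0)]⟩,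
  ⟨0,[(30,0)]⟩),⟨0,[(27,0)]⟩,.k,.k,.k,.k,(.r (-1) ⟨9,[(17,3),(0,1),(5,5),(19,4),(7,0)]⟩ ⟨1,[(7,0),
  (3,0),(11,0),(27,0)]⟩),.k,⟨true,0,⟨3,[(10,0),(2,0),(3,1),(3,1),(31,0)]⟩,⟨1,[(7,0),(3,0),(11,0),
  (27,0)]⟩⟩,⟨false,0,⟨0,[(2,0),(29,0)]⟩,⟨0,[(0,0),(34,0),(10,0)]⟩⟩,⟨true,0,⟨0,[(50,0)]⟩,⟨0,[(51,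
  0)]⟩⟩,⟨false,0,⟨0,[(2,0),(19,0),(9,0)]⟩,⟨0,[(0,0),(15,0),(34,0)]⟩⟩,⟨false,0,⟨0,[]⟩,⟨1,[(28,0),(0,
  0),(23,0)]⟩⟩,⟨false,0,⟨1,[(2,1),(4,0),(3,0),(11,0),(8,1),(18,0)]⟩,⟨0,[(0,0),(15,0)]⟩⟩,[.o ⟨false,
  0,⟨3,[(2,1),(0,1),(3,0),(32,0),(7,1)]⟩,⟨0,[(0,0)]⟩⟩,.o ⟨false,0,⟨0,[(2,0)]⟩,⟨2,[(0,0),(27,1),(26,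
  0)]⟩⟩,.o ⟨false,1,⟨1,[(35,1),(4,0),(11,0)]⟩,⟨0,[(21,0)]⟩⟩,.a ⟨true,0,⟨0,[(35,0)]⟩,⟨0,[(32,0)]⟩⟩
  ⟨true,0,⟨0,[(17,0)]⟩,⟨1,[(7,0),(3,0),(11,0),(27,0)]⟩⟩ ⟨false,0,⟨0,[(2,0),(29,0)]⟩,⟨0,[(0,0),(34,
  0)]⟩⟩]⟩)) (.Q [-1,0,0,0,1,0,0,0,-1,0,0,-1] (.p false [0,0,0,0,1] [] (⟨0,[(30,0)]⟩,⟨0,[(29,0)]⟩)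
  .k 0 (⟨0,[]⟩,⟨0,[]⟩) .k .k) (.R ⟨1,false,false,true,[0,0,1],[1,0,0,0,-1],[1,1,0,-1,0,0,0,1],(⟨0,
  [(38,0)]⟩,⟨0,[(37,0)]⟩),(⟨0,[(30,0)]⟩,⟨0,[(31,0)]⟩),⟨0,[(27,0)]⟩,.k,.k,.k,.k,(.r (-1) ⟨9,[(17,3),
  (0,1),(5,5),(27,0),(0,4)]⟩ ⟨0,[(7,0),(0,0),(2,0),(27,1),(9,0)]⟩),.k,⟨true,0,⟨3,[(10,0),(2,0),(3,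
  1),(3,1),(31,0)]⟩,⟨0,[(7,0),(0,0),(2,0),(27,1),(9,0)]⟩⟩,⟨false,1,⟨0,[(0,0),(31,0)]⟩,⟨1,[(1,1),(7,
  0),(25,1),(8,0)]⟩⟩,⟨true,0,⟨0,[(50,0)]⟩,⟨0,[(51,0)]⟩⟩,⟨false,1,⟨0,[(0,0),(21,0),(9,0)]⟩,⟨0,[(1,0),
  (14,0),(36,0)]⟩⟩,⟨false,0,⟨0,[]⟩,⟨1,[(0,0),(28,0),(23,0)]⟩⟩,⟨false,1,⟨1,[(0,1),(6,0),(3,0),(11,0),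
  (8,1),(18,0)]⟩,⟨0,[(1,0),(11,0),(39,0)]⟩⟩,[.o ⟨false,1,⟨0,[(0,0),(54,0)]⟩,⟨1,[(1,1),(7,0),(35,1),
  (7,0)]⟩⟩,.o ⟨false,1,⟨0,[(0,0)]⟩,⟨0,[(2,0)]⟩⟩,.o ⟨false,1,⟨1,[(35,1),(4,0),(11,0)]⟩,⟨0,[(21,0)]⟩⟩,
  .a ⟨true,0,⟨0,[(35,0)]⟩,⟨0,[(32,0)]⟩⟩ ⟨true,0,⟨0,[(17,0)]⟩,⟨1,[(7,0),(3,0),(11,0),(27,0)]⟩⟩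
  ⟨false,1,⟨0,[(0,0),(31,0)]⟩,⟨1,[(1,1),(11,0),(9,0),(11,0),(9,0),(7,0)]⟩⟩]⟩) (.R ⟨2,true,false,
  true,[0,1],[0,0,0,0,1],[1,1],(⟨0,[]⟩,⟨0,[]⟩),(⟨0,[(31,0)]⟩,⟨0,[(30,0)]⟩),⟨0,[]⟩,.k,.k,.k,(.r 0 ⟨5,
  [(7,2),(20,1),(0,1),(14,0),(10,1)]⟩ ⟨5,[(18,1),(9,0),(0,0),(22,0)]⟩),.k,.k,⟨false,1,⟨1,[(28,0),(0,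
  0),(22,0)]⟩,⟨0,[]⟩⟩,⟨true,(-1),⟨11,[(0,9),(2,1),(3,0),(2,0),(11,0),(13,0),(17,5)]⟩,⟨0,[(28,0)]⟩⟩,
  ⟨false,1,⟨5,[(18,1),(9,0),(0,0),(22,0)]⟩,⟨1,[(7,0),(45,0)]⟩⟩,⟨true,(-1),⟨0,[(0,0),(49,0)]⟩,⟨0,
  [(28,0),(22,0)]⟩⟩,⟨true,0,⟨0,[(46,0)]⟩,⟨1,[(35,0),(0,0)]⟩⟩,⟨false,(-1),⟨0,[(0,0)]⟩,⟨1,[(28,2),(0,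
  0),(14,0)]⟩⟩,[]⟩))) (.Q [0,0,0,0,0,-1,0,0,0,0,0,1] (.ed false [1,-1,0,0,1] .k) (.Q [0,0,2,0,-1,0,
  0,0,-1,1,0,-1] (.p false [0,0,0,0,1] [1] (⟨0,[(30,0)]⟩,⟨0,[(29,0)]⟩) .k 1 (⟨0,[]⟩,⟨0,[]⟩) .k .k)
  (.S ⟨1,0,[1,1],[0,0,0,0,1],[2,0,0,-1],(⟨0,[(31,0)]⟩,⟨0,[(30,0)]⟩),⟨0,[(1,0)]⟩,.k,(.r (-1) ⟨5,[(18,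
  1),(9,0),(0,0),(22,0)]⟩ ⟨5,[(7,2),(20,1),(0,1),(14,0),(10,1)]⟩),⟨false,1,⟨6,[(10,0),(3,0),(3,1),
  (16,0),(0,0),(16,2)]⟩,⟨0,[(51,0)]⟩⟩,⟨true,0,⟨0,[(55,0)]⟩,⟨0,[]⟩⟩,⟨true,0,⟨0,[]⟩,⟨0,[(55,0)]⟩⟩,
  ⟨false,0,⟨0,[(51,0)]⟩,⟨6,[(10,0),(3,0),(3,1),(16,0),(0,0),(16,2)]⟩⟩,[.o ⟨false,0,⟨1,[(3,1),(3,0),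
  (32,0),(5,1)]⟩,⟨5,[(2,5),(37,1),(6,0),(5,2)]⟩⟩,.a ⟨true,0,⟨0,[(29,0)]⟩,⟨5,[(0,0),(1,4),(5,0),(30,
  1)]⟩⟩ ⟨false,1,⟨1,[(9,0),(43,0)]⟩,⟨3,[(7,0),(20,0),(0,0),(18,1),(2,1)]⟩⟩ ⟨true,0,⟨0,[]⟩,⟨1,[(35,
  0),(0,0)]⟩⟩,.e ⟨false,1,⟨6,[(10,0),(3,0),(3,1),(16,0),(0,0),(16,2)]⟩,⟨1,[(7,0),(0,0),(30,1)]⟩⟩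
  ⟨false,0,⟨0,[]⟩,⟨1,[(28,0),(0,0),(23,0)]⟩⟩,.o ⟨false,0,⟨5,[(3,5),(3,2),(32,0),(6,1)]⟩,⟨1,[(2,1),
  (37,0),(11,0)]⟩⟩]⟩) (.R ⟨1,false,false,true,[0,0,0,0,1],[1,-1,-1],[],(⟨0,[(31,0)]⟩,⟨0,[(30,0)]⟩),
  (⟨0,[(26,0)]⟩,⟨0,[(38,0),(0,0)]⟩),⟨0,[(1,0)]⟩,.k,.k,(.r (-1) ⟨17,[(0,0),(17,5),(4,1),(1,0),(2,0),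
  (4,1),(18,1)]⟩ ⟨5,[(7,2),(20,1),(0,1),(14,0),(10,1)]⟩),(.r 0 ⟨1,[(7,0),(16,1),(28,0)]⟩ ⟨0,[(8,0),
  (2,0),(27,1),(9,0)]⟩),.k,.k,⟨true,0,⟨0,[(7,0),(9,0),(35,0)]⟩,⟨0,[(11,0)]⟩⟩,⟨false,0,⟨0,[(2,0),(18,
  0)]⟩,⟨0,[(0,0),(34,0)]⟩⟩,⟨false,1,⟨1,[(28,0),(0,0),(14,0)]⟩,⟨0,[]⟩⟩,⟨true,0,⟨29,[(2,29),(5,0),(0,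
  6),(1,15),(0,15),(21,13),(4,1),(7,7)]⟩,⟨0,[(0,0),(9,0),(40,0)]⟩⟩,⟨true,0,⟨1,[(7,0),(0,0),(30,1)]⟩,
  ⟨0,[(50,0)]⟩⟩,⟨true,0,⟨14,[(2,14),(4,0),(0,1),(2,1),(0,1),(21,12),(4,3),(7,0)]⟩,⟨0,[(0,0),(9,
  0)]⟩⟩,[.o ⟨false,0,⟨0,[(11,0),(9,0)]⟩,⟨0,[(15,0),(35,1),(1,0)]⟩⟩,.e ⟨false,1,⟨1,[(52,0),(0,0)]⟩,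
  ⟨0,[(55,0)]⟩⟩ ⟨false,1,⟨3,[(2,3),(6,0),(4,1),(19,1),(17,0)]⟩,⟨0,[(0,0),(9,0),(40,0)]⟩⟩,.a ⟨true,0,
  ⟨0,[(29,0)]⟩,⟨0,[(2,0)]⟩⟩ ⟨false,1,⟨1,[(28,0),(0,0),(23,0)]⟩,⟨0,[]⟩⟩ ⟨true,0,⟨0,[(2,0),(8,0),(9,
  0)]⟩,⟨0,[(0,0),(9,0),(40,0)]⟩⟩,.o ⟨false,0,⟨5,[(3,5),(3,2),(32,0),(6,1)]⟩,⟨1,[(2,1),(37,0),(11,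
  0)]⟩⟩]⟩)) (.Q [1,0,0,-1,0,0,1,1,1,-1,1,1] (.p true [0,0,1] [1,0,0,0,-1] (⟨0,[(37,0)]⟩,⟨0,[(36,
  0)]⟩) .k 2 (⟨0,[(29,0)]⟩,⟨0,[(30,0)]⟩) .k (.r 0 ⟨1,[(6,0),(9,1),(35,0)]⟩ ⟨0,[(22,0),(31,0)]⟩))
  (.R ⟨0,false,false,true,[0,0,0,0,1],[0,1],[0,1,1,1],(⟨0,[(31,0)]⟩,⟨0,[(30,0)]⟩),(⟨0,[(42,0)]⟩,⟨0,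
  [(41,0)]⟩),⟨0,[(1,0)]⟩,.k,.k,(.r (-1) ⟨5,[(18,1),(9,0),(0,0),(22,0)]⟩ ⟨5,[(7,2),(20,1),(0,1),(14,
  0),(10,1)]⟩),(.r (-1) ⟨5,[(18,1),(9,0),(0,0),(22,0)]⟩ ⟨5,[(7,2),(20,1),(0,1),(14,0),(10,1)]⟩),.k,
  .k,⟨false,1,⟨1,[(28,0),(0,0),(22,0)]⟩,⟨0,[]⟩⟩,⟨true,1,⟨1,[(2,1),(37,0),(11,0)]⟩,⟨7,[(0,5),(6,2),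
  (0,0),(3,5),(9,5),(6,1),(9,1)]⟩⟩,⟨false,0,⟨5,[(7,2),(20,1),(0,1),(14,0),(10,1)]⟩,⟨1,[(9,0),(43,
  0)]⟩⟩,⟨true,0,⟨5,[(2,5),(4,2),(32,0),(5,5),(0,1)]⟩,⟨0,[(3,0)]⟩⟩,⟨false,0,⟨0,[]⟩,⟨0,[]⟩⟩,⟨false,0,
  ⟨0,[]⟩,⟨0,[]⟩⟩,[.o ⟨false,0,⟨1,[(7,0),(32,0),(5,1)]⟩,⟨6,[(10,0),(3,0),(3,1),(16,0),(0,0),(16,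
  2)]⟩⟩,.e ⟨false,0,⟨0,[(51,0)]⟩,⟨5,[(18,1),(9,0),(0,0),(22,0)]⟩⟩ ⟨false,1,⟨1,[(2,1),(37,0),(10,1),
  (0,0)]⟩,⟨9,[(0,1),(2,5),(4,0),(2,1),(0,1),(16,1),(9,1),(4,0)]⟩⟩,.a ⟨true,0,⟨0,[(29,0)]⟩,⟨0,[(2,
  0)]⟩⟩ ⟨false,0,⟨1,[(7,0),(20,0),(0,0)]⟩,⟨1,[(9,0),(43,0)]⟩⟩ ⟨true,0,⟨1,[(2,1),(4,0),(32,0),(5,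
  1)]⟩,⟨9,[(0,1),(2,5),(4,0),(2,1),(0,1),(16,1),(9,1),(4,0)]⟩⟩,.o ⟨false,0,⟨5,[(3,5),(3,2),(32,0),
  (6,1)]⟩,⟨1,[(2,1),(37,0),(11,0)]⟩⟩]⟩) (.S ⟨1,0,[-1,1],[1,0,0,0,-1],[0,0,0,-1],(⟨0,[(30,0)]⟩,⟨0,
  [(31,0)]⟩),⟨1,[(1,0),(4,0),(19,0),(3,0)]⟩,.k,(.r (-1) ⟨11,[(18,3),(9,0),(0,0),(14,0),(7,1),(2,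
  1)]⟩ ⟨1,[(7,0),(20,0),(0,0)]⟩),⟨false,1,⟨6,[(10,0),(3,0),(3,1),(16,0),(0,0),(16,2)]⟩,⟨0,[(51,
  0)]⟩⟩,⟨true,0,⟨0,[(55,0)]⟩,⟨0,[]⟩⟩,⟨true,0,⟨0,[]⟩,⟨0,[(55,0)]⟩⟩,⟨false,0,⟨0,[(51,0)]⟩,⟨6,[(10,0),
  (3,0),(3,1),(16,0),(0,0),(16,2)]⟩⟩,[.o ⟨false,0,⟨0,[(0,0),(14,0)]⟩,⟨1,[(29,1),(10,0),(12,0)]⟩⟩,.e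
  ⟨false,1,⟨1,[(9,0),(43,0)]⟩,⟨3,[(7,0),(20,0),(0,0),(18,1),(2,1)]⟩⟩ ⟨false,1,⟨11,[(28,4),(0,4),(14,
  0),(7,5),(2,1)]⟩,⟨0,[]⟩⟩,.a ⟨true,0,⟨0,[(2,0)]⟩,⟨0,[(29,0)]⟩⟩ ⟨false,1,⟨6,[(10,0),(3,0),(3,1),(16,
  0),(0,0),(16,2)]⟩,⟨0,[(51,0)]⟩⟩ ⟨true,0,⟨0,[(55,0)]⟩,⟨0,[]⟩⟩,.o ⟨false,0,⟨2,[(0,1),(1,0),(2,0),(4,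
  0),(29,0),(4,0)]⟩,⟨1,[(29,1),(10,0),(11,0)]⟩⟩]⟩))))))) (.R ⟨0,false,false,true,[0,-1,1],[1,-1],[],
  (⟨0,[(21,0)]⟩,⟨0,[(0,0),(34,0)]⟩),(⟨0,[(35,0)]⟩,⟨0,[(36,0)]⟩),⟨0,[(0,0)]⟩,.k,.k,(.r (-1) ⟨1,[(3,
  0),(7,1),(35,0)]⟩ ⟨0,[(1,0),(15,0),(31,0)]⟩),.k,.k,.k,⟨true,0,⟨1,[(1,0),(45,0)]⟩,⟨0,[(44,0)]⟩⟩,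
  ⟨false,0,⟨0,[(26,0)]⟩,⟨1,[(29,1),(4,0),(11,0)]⟩⟩,⟨true,0,⟨1,[(1,0),(3,0),(11,0),(27,0)]⟩,⟨0,[(11,
  0)]⟩⟩,⟨false,0,⟨0,[(16,0),(9,0)]⟩,⟨0,[(9,0),(35,0),(1,0)]⟩⟩,⟨false,0,⟨0,[]⟩,⟨0,[]⟩⟩,⟨false,0,⟨0,
  []⟩,⟨0,[]⟩⟩,[.o ⟨false,0,⟨0,[(44,0)]⟩,⟨1,[(34,0),(10,1),(1,0)]⟩⟩,.a ⟨true,0,⟨4,[(5,0),(0,0),(0,1),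
  (9,0),(6,2),(0,2),(0,0)]⟩,⟨0,[(45,0)]⟩⟩ ⟨false,1,⟨1,[(46,0),(0,0)]⟩,⟨0,[(49,0)]⟩⟩ ⟨true,0,⟨1,[(3,
  0),(2,0),(19,0)]⟩,⟨1,[(1,0),(27,1),(4,0)]⟩⟩,.e ⟨false,1,⟨1,[(22,0),(0,0),(23,0)]⟩,⟨0,[]⟩⟩ ⟨false,
  0,⟨1,[(3,0),(2,0),(19,0)]⟩,⟨1,[(29,1),(4,0),(10,1),(1,0)]⟩⟩,.o ⟨false,0,⟨1,[(4,0),(11,0),(12,0),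
  (4,0)]⟩,⟨1,[(26,1),(7,0),(11,0)]⟩⟩]⟩)))) (.Q [-1,-1,0,0,1,0,0,0,-1,0,0,-1] (.p false [0,0,0,0,1]
  [] (⟨0,[(22,0)]⟩,⟨0,[(21,0)]⟩) .k 0 (⟨0,[]⟩,⟨0,[]⟩) .k .k) (.I [1,0,2,1,-1] (.Q [1,0,0,-1,0,0,0,0,
  1,0,0,1] (.p true [0,0,0,0,1] [] (⟨0,[(24,0)]⟩,⟨0,[(23,0)]⟩) .k 0 (⟨0,[]⟩,⟨0,[]⟩) .k .k) (.Q [0,0,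
  0,0,0,0,0,0,-1,1,0,-1] (.p false [0,0,0,0,1] [1] (⟨0,[(25,0)]⟩,⟨0,[(24,0)]⟩) .k 1 (⟨0,[]⟩,⟨0,[]⟩)
  .k .k) (.Q [0,0,0,0,0,-1,0,0,0,1,0,-1] (.ed true [0,1,0,0,1] .k) (.Q [-1,0,0,0,0,0,0,0,-1,1,0,-1]
  (.p false [0,0,0,0,1] [1] (⟨0,[(27,0)]⟩,⟨0,[(26,0)]⟩) .k 1 (⟨0,[]⟩,⟨0,[]⟩) .k .k) (.Q [0,0,1,0,0,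
  0,0,0,-1,0,0,-1] (.p false [0,0,0,0,1] [] (⟨0,[(28,0)]⟩,⟨0,[(27,0)]⟩) .k 0 (⟨0,[]⟩,⟨0,[]⟩) .k .k)
  (.Q [-1,1,0,0,0,0,0,0,-1,0,0,-1] (.p false [0,0,0,0,1] [] (⟨0,[(29,0)]⟩,⟨0,[(28,0)]⟩) .k 0 (⟨0,
  []⟩,⟨0,[]⟩) .k .k) (.S ⟨1,0,[-1,1],[1,0,0,0,-1],[-1],(⟨0,[(29,0)]⟩,⟨0,[(30,0)]⟩),⟨0,[(3,0)]⟩,.k,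
  (.r (-1) ⟨11,[(17,3),(9,0),(0,0),(14,0),(7,1),(2,1)]⟩ ⟨1,[(8,0),(18,0),(0,0)]⟩),⟨false,1,⟨1,[(27,
  0),(0,0),(23,0)]⟩,⟨0,[]⟩⟩,⟨true,0,⟨0,[(54,0)]⟩,⟨0,[]⟩⟩,⟨true,0,⟨0,[(50,0)]⟩,⟨0,[(49,0)]⟩⟩,⟨false,
  0,⟨0,[(50,0)]⟩,⟨6,[(9,0),(3,0),(3,1),(16,0),(0,0),(16,2)]⟩⟩,[.o ⟨false,0,⟨0,[(0,0)]⟩,⟨1,[(28,1),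
  (10,0),(12,0)]⟩⟩,.e ⟨false,1,⟨1,[(43,0),(7,0)]⟩,⟨0,[(54,0)]⟩⟩ ⟨false,1,⟨11,[(27,4),(0,4),(14,0),
  (7,5),(2,1)]⟩,⟨0,[]⟩⟩,.a ⟨true,0,⟨0,[(4,0)]⟩,⟨0,[(28,0)]⟩⟩ ⟨false,1,⟨1,[(27,0),(0,0),(14,0)]⟩,⟨0,
  []⟩⟩ ⟨true,0,⟨0,[(54,0)]⟩,⟨0,[]⟩⟩,.o ⟨false,0,⟨0,[(1,0)]⟩,⟨1,[(28,1),(10,0),(11,0)]⟩⟩]⟩) (.R ⟨2,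
  true,false,true,[0,1],[1,0,0,0,-1],[1,0,1],(⟨0,[]⟩,⟨0,[]⟩),(⟨0,[(29,0)]⟩,⟨0,[(30,0)]⟩),⟨0,[]⟩,.k,
  .k,.k,(.r 0 ⟨1,[(8,0),(18,0),(0,0)]⟩ ⟨11,[(17,3),(9,0),(0,0),(14,0),(7,1),(2,1)]⟩),.k,.k,⟨true,0,
  ⟨0,[(44,0)]⟩,⟨0,[(54,0)]⟩⟩,⟨false,0,⟨0,[(4,0)]⟩,⟨1,[(28,1),(10,0),(11,0)]⟩⟩,⟨false,1,⟨6,[(9,0),(3,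
  0),(3,1),(16,0),(0,0),(16,2)]⟩,⟨0,[(50,0)]⟩⟩,⟨true,0,⟨0,[(4,0),(44,0)]⟩,⟨1,[(0,1),(7,0),(30,0),(5,
  1)]⟩⟩,⟨true,0,⟨0,[]⟩,⟨0,[(54,0)]⟩⟩,⟨false,0,⟨0,[(2,0)]⟩,⟨1,[(28,1),(10,0),(12,0)]⟩⟩,[]⟩)) (.R ⟨2,
  true,false,true,[0,1],[1,0,0,0,-1],[1,0,1],(⟨0,[]⟩,⟨0,[]⟩),(⟨0,[(28,0)]⟩,⟨0,[(29,0)]⟩),⟨0,[]⟩,.k,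
  .k,.k,(.r 0 ⟨1,[(7,0),(18,0),(0,0)]⟩ ⟨11,[(16,3),(9,0),(0,0),(14,0),(7,1),(2,1)]⟩),.k,.k,⟨true,0,
  ⟨0,[(43,0)]⟩,⟨0,[(53,0)]⟩⟩,⟨false,0,⟨0,[(3,0)]⟩,⟨1,[(27,1),(10,0),(11,0)]⟩⟩,⟨false,1,⟨6,[(8,0),(3,
  0),(3,1),(16,0),(0,0),(16,2)]⟩,⟨0,[(49,0)]⟩⟩,⟨true,0,⟨0,[(3,0),(44,0)]⟩,⟨1,[(0,1),(6,0),(30,0)]⟩⟩,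
  ⟨true,0,⟨0,[]⟩,⟨0,[(53,0)]⟩⟩,⟨false,0,⟨0,[(1,0)]⟩,⟨1,[(27,1),(10,0),(12,0)]⟩⟩,[]⟩)) (.S ⟨1,0,[-1],
  [1,0,0,0,-1],[0,1,0,-1],(⟨0,[(27,0)]⟩,⟨0,[(28,0)]⟩),⟨0,[(1,0)]⟩,.k,(.r (-1) ⟨11,[(15,3),(9,0),(0,
  0),(14,0),(7,1),(2,1)]⟩ ⟨1,[(6,0),(18,0),(0,0)]⟩),⟨true,0,⟨0,[(47,0)]⟩,⟨0,[(48,0)]⟩⟩,⟨false,1,⟨1,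
  [(25,0),(0,0),(23,0)]⟩,⟨0,[]⟩⟩,⟨false,0,⟨0,[]⟩,⟨1,[(25,0),(0,0),(23,0)]⟩⟩,⟨true,0,⟨0,[(48,0)]⟩,⟨0,
  [(47,0)]⟩⟩,[.o ⟨false,1,⟨2,[(5,0),(19,1),(26,0)]⟩,⟨0,[(0,0)]⟩⟩,.o ⟨false,1,⟨0,[(5,0)]⟩,⟨0,[(0,0),
  (51,0)]⟩⟩,.a ⟨true,0,⟨0,[(2,0)]⟩,⟨0,[(26,0)]⟩⟩ ⟨true,0,⟨0,[(47,0)]⟩,⟨0,[(48,0)]⟩⟩ ⟨false,1,⟨1,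
  [(25,0),(0,0),(14,0)]⟩,⟨0,[]⟩⟩,.e ⟨false,1,⟨5,[(15,1),(9,0),(0,0),(22,0)]⟩,⟨1,[(6,0),(43,0)]⟩⟩
  ⟨false,1,⟨1,[(41,0),(7,0)]⟩,⟨1,[(32,0),(0,0)]⟩⟩]⟩)) (.Q [-2,0,0,1,0,0,0,0,-2,1,0,-2] (.p false [0,
  0,0,0,1] [1,0,0,0,-1] (⟨0,[(27,0)]⟩,⟨0,[(26,0)]⟩) .k 2 (⟨0,[(26,0)]⟩,⟨0,[(27,0)]⟩) .k (.r 0 ⟨0,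
  []⟩ ⟨2,[(24,1),(0,1),(14,0),(10,1)]⟩)) (.S ⟨1,0,[1,1],[0,0,0,0,1],[],(⟨0,[(28,0)]⟩,⟨0,[(27,0)]⟩),
  ⟨0,[(1,0),(21,0),(0,0)]⟩,.k,(.r (-1) ⟨5,[(15,1),(9,0),(0,0),(22,0)]⟩ ⟨11,[(6,5),(18,4),(0,4),(14,
  0),(10,1)]⟩),⟨false,1,⟨1,[(25,0),(0,0),(14,0)]⟩,⟨0,[]⟩⟩,⟨true,0,⟨0,[(52,0)]⟩,⟨0,[]⟩⟩,⟨true,0,⟨0,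
  [(4,0),(36,0),(1,1)]⟩,⟨0,[(47,0)]⟩⟩,⟨false,0,⟨0,[(48,0)]⟩,⟨6,[(7,0),(3,0),(3,1),(16,0),(0,0),(16,
  2)]⟩⟩,[.o ⟨false,0,⟨1,[(3,1),(2,0),(30,0),(5,1)]⟩,⟨0,[(5,0)]⟩⟩,.a ⟨true,0,⟨0,[(26,0)]⟩,⟨25,[(0,5),
  (1,13),(5,1),(0,0),(0,1),(18,0),(6,3),(1,3),(2,0)]⟩⟩ ⟨false,1,⟨1,[(49,0),(0,0)]⟩,⟨0,[(52,0)]⟩⟩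
  ⟨true,0,⟨0,[]⟩,⟨1,[(32,0),(0,0)]⟩⟩,.e ⟨false,1,⟨1,[(25,0),(0,0),(23,0)]⟩,⟨0,[]⟩⟩ ⟨false,0,⟨0,[]⟩,
  ⟨1,[(25,0),(0,0),(23,0)]⟩⟩,.o ⟨false,0,⟨5,[(3,5),(2,2),(30,1),(6,0)]⟩,⟨13,[(0,5),(14,1),(9,1),(11,
  2),(11,4)]⟩⟩]⟩) (.R ⟨1,false,false,true,[0,0,0,0,1],[0,1],[],(⟨0,[(28,0)]⟩,⟨0,[(27,0)]⟩),(⟨0,[(39,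
  0)]⟩,⟨0,[(38,0)]⟩),⟨0,[(1,0),(21,0),(0,0)]⟩,.k,.k,(.r (-1) ⟨5,[(15,1),(9,0),(0,0),(22,0)]⟩ ⟨11,
  [(6,5),(18,4),(0,4),(14,0),(10,1)]⟩),(.r (-1) ⟨5,[(15,1),(9,0),(0,0),(22,0)]⟩ ⟨11,[(6,5),(18,4),
  (0,4),(14,0),(10,1)]⟩),(.r (-2) ⟨2,[(15,1),(9,0),(0,0),(22,0)]⟩ ⟨0,[(4,1),(36,0),(1,1)]⟩),.k,
  ⟨false,2,⟨5,[(15,1),(9,0),(0,0),(22,3),(0,2)]⟩,⟨0,[(4,0),(38,0)]⟩⟩,⟨true,1,⟨1,[(2,1),(34,0),(11,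
  0)]⟩,⟨7,[(0,3),(5,2),(0,2),(0,1),(0,2),(9,0),(16,0),(1,0),(2,0)]⟩⟩,⟨false,1,⟨1,[(25,0),(0,0),(14,
  0)]⟩,⟨0,[]⟩⟩,⟨true,0,⟨5,[(2,5),(3,2),(30,1),(5,5),(0,0)]⟩,⟨0,[(3,0)]⟩⟩,⟨true,0,⟨0,[(4,0),(36,0),
  (1,1)]⟩,⟨0,[(47,0)]⟩⟩,⟨true,0,⟨1,[(2,1),(3,0),(30,0),(5,1),(4,1)]⟩,⟨3,[(0,1),(7,1),(0,0),(0,1),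
  (18,0),(20,0)]⟩⟩,[.o ⟨false,0,⟨1,[(6,0),(30,0),(5,1)]⟩,⟨6,[(7,0),(3,0),(3,1),(16,0),(0,0),(16,
  2)]⟩⟩,.e ⟨false,1,⟨1,[(49,0),(0,0)]⟩,⟨0,[(52,0)]⟩⟩ ⟨false,1,⟨1,[(2,1),(34,0),(10,1),(0,0)]⟩,⟨13,
  [(0,5),(2,1),(4,1),(0,0),(0,1),(18,0),(6,3),(1,3),(2,0)]⟩⟩,.a ⟨true,0,⟨0,[(26,0)]⟩,⟨0,[(2,0)]⟩⟩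
  ⟨false,1,⟨1,[(25,0),(0,0),(23,0)]⟩,⟨0,[]⟩⟩ ⟨true,0,⟨1,[(2,1),(3,0),(30,0),(5,1)]⟩,⟨13,[(0,5),(2,
  1),(4,1),(0,0),(0,1),(18,0),(6,3),(1,3),(2,0)]⟩⟩,.o ⟨false,0,⟨15,[(0,7),(5,3),(25,0),(0,0),(3,3),
  (13,5)]⟩,⟨1,[(2,1),(34,0),(11,0)]⟩⟩]⟩))) (.R ⟨1,false,false,true,[0,0,1],[0,0,0,0,1],[1,1,0,-1,0,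
  0,0,1],(⟨0,[(33,0)]⟩,⟨0,[(32,0)]⟩),(⟨0,[(26,0)]⟩,⟨0,[(25,0)]⟩),⟨0,[(22,0)]⟩,.k,.k,.k,.k,(.r (-1)
  ⟨9,[(12,3),(0,1),(5,5),(19,4),(7,0)]⟩ ⟨2,[(4,1),(1,0),(11,1),(22,0)]⟩),.k,⟨true,0,⟨3,[(5,0),(2,0),
  (3,1),(3,1),(31,0)]⟩,⟨2,[(4,1),(1,0),(11,1),(22,0)]⟩⟩,⟨false,0,⟨0,[(0,0),(26,0)]⟩,⟨0,[(3,0),(26,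
  0),(10,0)]⟩⟩,⟨true,0,⟨0,[(45,0)]⟩,⟨0,[(46,0)]⟩⟩,⟨false,0,⟨0,[(0,0),(16,0),(9,0)]⟩,⟨0,[(3,0),(1,0),
  (41,0)]⟩⟩,⟨false,0,⟨0,[]⟩,⟨1,[(23,0),(0,0),(23,0)]⟩⟩,⟨false,0,⟨2,[(0,2),(3,1),(1,0),(11,1),(8,2),
  (13,0)]⟩,⟨0,[(3,0),(7,0)]⟩⟩,[.o ⟨false,0,⟨0,[(0,0),(49,0)]⟩,⟨0,[(3,0)]⟩⟩,.o ⟨false,0,⟨0,[(0,0)]⟩,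
  ⟨2,[(3,0),(19,1),(26,0)]⟩⟩,.o ⟨false,1,⟨1,[(30,1),(4,0),(11,0)]⟩,⟨0,[(16,0)]⟩⟩,.a ⟨true,0,⟨0,[(30,
  0)]⟩,⟨0,[(27,0)]⟩⟩ ⟨true,0,⟨0,[(12,0)]⟩,⟨2,[(4,1),(1,0),(11,1),(22,0)]⟩⟩ ⟨false,0,⟨0,[(0,0),(26,
  0)]⟩,⟨0,[(3,0),(26,0)]⟩⟩]⟩)) (.R ⟨2,true,false,true,[0,1],[0,0,0,0,1],[2,1],(⟨0,[]⟩,⟨0,[]⟩),(⟨0,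
  [(25,0)]⟩,⟨0,[(24,0)]⟩),⟨0,[]⟩,.k,.k,.k,(.r 0 ⟨11,[(3,5),(18,4),(0,4),(14,0),(10,1)]⟩ ⟨5,[(12,1),
  (9,0),(0,0),(22,0)]⟩),.k,.k,⟨true,0,⟨0,[]⟩,⟨1,[(29,0),(0,0)]⟩⟩,⟨false,0,⟨0,[(23,0)]⟩,⟨3,[(0,2),
  (11,0),(9,0),(23,0)]⟩⟩,⟨false,1,⟨5,[(12,1),(9,0),(0,0),(22,0)]⟩,⟨1,[(3,0),(34,0)]⟩⟩,⟨true,0,⟨0,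
  [(23,0),(20,0)]⟩,⟨0,[(0,0)]⟩⟩,⟨true,0,⟨0,[(40,0)]⟩,⟨0,[(48,0)]⟩⟩,⟨false,0,⟨0,[(23,0)]⟩,⟨0,[(2,
  0)]⟩⟩,[]⟩)) (.S ⟨1,0,[0,0,-1,-1],[1,-1],[1,1,1],(⟨0,[(34,0)]⟩,⟨0,[(35,0)]⟩),⟨0,[(19,0),(0,0)]⟩,.k,
  (.r (-2) ⟨2,[(11,1),(9,0),(0,0),(22,0)]⟩ ⟨0,[(2,0)]⟩),⟨true,(-1),⟨1,[(2,0),(0,0),(23,0),(20,0)]⟩,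
  ⟨0,[(0,0)]⟩⟩,⟨false,1,⟨1,[(21,0),(0,0),(23,0)]⟩,⟨0,[]⟩⟩,⟨false,(-1),⟨0,[(2,0)]⟩,⟨1,[(0,0),(10,0),
  (34,0)]⟩⟩,⟨true,0,⟨0,[(44,0)]⟩,⟨0,[(43,0)]⟩⟩,[.e ⟨false,0,⟨0,[(48,0)]⟩,⟨1,[(45,0),(0,0)]⟩⟩ ⟨false,
  1,⟨0,[(0,0)]⟩,⟨1,[(2,0),(18,0),(0,0)]⟩⟩,.o ⟨false,1,⟨6,[(3,0),(3,0),(3,1),(16,0),(0,0),(16,2)]⟩,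
  ⟨1,[(2,0),(30,0),(5,1)]⟩⟩,.o ⟨false,0,⟨1,[(28,0),(0,0)]⟩,⟨1,[(33,0),(11,0)]⟩⟩,.a ⟨true,(-1),⟨0,
  [(5,0),(22,0)]⟩,⟨0,[(45,0)]⟩⟩ ⟨false,0,⟨0,[]⟩,⟨1,[(21,0),(0,0),(23,0)]⟩⟩ ⟨true,1,⟨0,[(0,0)]⟩,⟨1,
  [(2,0),(0,0),(23,0),(20,0)]⟩⟩]⟩)) (.Q [0,0,0,0,0,1,0,0,0,0,0,-1] (.ed true [1,-1,0,0,1] .k) (.Q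
  [1,-1,0,1,0,0,0,0,1,-1,0,1] (.p true [0,0,0,0,1] [1] (⟨0,[(24,0)]⟩,⟨0,[(23,0)]⟩) .k 1 (⟨0,[]⟩,⟨0,
  []⟩) .k .k) (.R ⟨0,false,false,false,[0,0,0,0,1],[0,1],[1,1,1],(⟨0,[(25,0)]⟩,⟨0,[(24,0)]⟩),(⟨0,
  [(36,0)]⟩,⟨0,[(35,0)]⟩),⟨0,[(1,0)]⟩,.k,.k,(.r (-1) ⟨5,[(12,1),(9,0),(0,0),(22,0)]⟩ ⟨11,[(3,5),(18,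
  4),(0,4),(14,0),(10,1)]⟩),(.r (-1) ⟨5,[(12,1),(9,0),(0,0),(22,0)]⟩ ⟨11,[(3,5),(18,4),(0,4),(14,0),
  (10,1)]⟩),.k,.k,⟨true,0,⟨0,[(44,0)]⟩,⟨1,[(3,0),(43,0)]⟩⟩,⟨false,2,⟨0,[(22,0),(23,0)]⟩,⟨21,[(0,9),
  (1,11),(1,6),(0,7),(0,7),(0,0),(12,1),(0,1),(11,3),(4,4)]⟩⟩,⟨false,0,⟨1,[(29,0),(0,0)]⟩,⟨1,[(46,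
  0),(0,0)]⟩⟩,⟨true,1,⟨0,[(22,0),(22,0)]⟩,⟨1,[(0,0),(1,0),(2,0),(0,0),(0,0),(32,0)]⟩⟩,⟨false,0,⟨0,
  []⟩,⟨0,[]⟩⟩,⟨false,0,⟨0,[]⟩,⟨0,[]⟩⟩,[.a ⟨true,0,⟨0,[(45,0)]⟩,⟨4,[(5,0),(0,0),(0,1),(9,0),(6,2),(0,
  2),(0,0)]⟩⟩ ⟨false,0,⟨0,[(49,0)]⟩,⟨1,[(46,0),(0,0)]⟩⟩ ⟨true,1,⟨0,[(22,0),(22,0)]⟩,⟨6,[(0,5),(1,0),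
  (0,0),(1,4),(0,4),(0,4),(12,0),(0,0),(11,1)]⟩⟩,.o ⟨false,1,⟨1,[(34,0),(10,1),(1,0)]⟩,⟨0,[(44,
  0)]⟩⟩,.o ⟨false,0,⟨26,[(0,8),(1,11),(4,2),(0,2),(14,5),(10,1),(6,6)]⟩,⟨0,[(22,0)]⟩⟩,.e ⟨false,0,
  ⟨0,[]⟩,⟨1,[(22,0),(0,0),(23,0)]⟩⟩ ⟨false,2,⟨1,[(22,1),(22,1),(0,0),(0,0)]⟩,⟨6,[(0,5),(1,0),(0,0),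
  (1,4),(0,4),(0,4),(12,0),(0,0),(11,1)]⟩⟩]⟩) (.S ⟨1,0,[-1,1],[1,0,0,0,-1],[-1],(⟨0,[(24,0)]⟩,⟨0,
  [(25,0)]⟩),⟨0,[(1,0),(18,0),(0,0)]⟩,.k,(.r (-1) ⟨11,[(12,3),(9,0),(0,0),(14,0),(7,1),(2,1)]⟩ ⟨1,
  [(3,0),(18,0),(0,0)]⟩),⟨false,1,⟨1,[(22,0),(0,0),(23,0)]⟩,⟨0,[]⟩⟩,⟨true,0,⟨0,[(49,0)]⟩,⟨0,[]⟩⟩,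
  ⟨true,0,⟨0,[(45,0)]⟩,⟨0,[(44,0)]⟩⟩,⟨false,0,⟨0,[(45,0)]⟩,⟨6,[(4,0),(3,0),(3,1),(16,0),(0,0),(16,
  2)]⟩⟩,[.a ⟨true,0,⟨0,[(0,0),(44,0)]⟩,⟨0,[(2,0),(44,0)]⟩⟩ ⟨false,1,⟨11,[(22,4),(0,4),(14,0),(7,5),
  (2,1)]⟩,⟨0,[]⟩⟩ ⟨true,0,⟨0,[(49,0)]⟩,⟨0,[(39,0)]⟩⟩,.o ⟨false,1,⟨8,[(0,1),(21,6),(15,0),(2,0),(3,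
  1)]⟩,⟨1,[(2,1),(31,0),(12,0)]⟩⟩,.o ⟨false,1,⟨0,[(22,0)]⟩,⟨5,[(2,5),(31,1),(6,0),(5,2)]⟩⟩,.e
  ⟨false,1,⟨1,[(38,0),(7,0)]⟩,⟨1,[(29,0),(0,0)]⟩⟩ ⟨false,1,⟨11,[(22,4),(0,4),(14,0),(7,5),(2,1)]⟩,
  ⟨0,[(39,0)]⟩⟩]⟩)) (.Q [0,0,1,0,-1,0,0,0,1,0,0,1] (.p true [0,0,0,0,1] [] (⟨0,[(24,0)]⟩,⟨0,[(23,
  0)]⟩) .k 0 (⟨0,[]⟩,⟨0,[]⟩) .k .k) (.Q [-1,-1,0,1,1,0,-1,-1,-1,1,-1,-1] (.p false [0,0,1] [1,0,0,0,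
  -1] (⟨0,[(32,0)]⟩,⟨0,[(31,0)]⟩) .k 2 (⟨0,[(24,0)]⟩,⟨0,[(25,0)]⟩) .k (.r 0 ⟨1,[(3,0),(7,1),(35,
  0)]⟩ ⟨0,[(17,0),(31,0)]⟩)) (.S ⟨1,0,[1,1],[0,0,0,0,1],[],(⟨0,[(26,0)]⟩,⟨0,[(25,0)]⟩),⟨0,[(2,0)]⟩,
  .k,(.r (-1) ⟨21,[(0,1),(12,7),(10,1),(3,1),(6,0),(11,2)]⟩ ⟨31,[(0,7),(3,11),(19,7),(3,7),(1,0),(0,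
  0),(3,3),(13,5)]⟩),⟨false,1,⟨103,[(0,23),(12,7),(10,23),(3,23),(1,2),(0,2),(3,11),(12,51),(0,9)]⟩,
  ⟨0,[]⟩⟩,⟨true,0,⟨0,[(50,0)]⟩,⟨0,[]⟩⟩,⟨true,0,⟨1,[(4,0),(34,0),(1,1)]⟩,⟨0,[(45,0)]⟩⟩,⟨false,0,⟨0,
  [(46,0)]⟩,⟨6,[(5,0),(3,0),(3,1),(16,0),(0,0),(16,2)]⟩⟩,[.e ⟨false,1,⟨21,[(0,5),(12,1),(10,5),(3,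
  5),(6,2),(11,8)]⟩,⟨0,[]⟩⟩ ⟨false,0,⟨0,[(41,0)]⟩,⟨33,[(0,5),(12,1),(4,3),(5,5),(3,9),(2,3),(3,2),
  (12,16)]⟩⟩,.o ⟨false,0,⟨1,[(3,1),(31,0),(12,0)]⟩,⟨0,[(0,0),(9,0)]⟩⟩,.o ⟨false,0,⟨5,[(3,5),(31,1),
  (6,0),(5,2)]⟩,⟨0,[(23,0)]⟩⟩,.a ⟨true,(-1),⟨0,[(1,0)]⟩,⟨0,[(0,0),(10,0),(29,0)]⟩⟩ ⟨false,1,⟨1,[(47,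
  0),(0,0)]⟩,⟨1,[(30,0),(0,0)]⟩⟩ ⟨true,0,⟨0,[(41,0)]⟩,⟨1,[(30,0),(0,0)]⟩⟩]⟩) (.R ⟨1,false,false,
  false,[0,0,0,0,1],[1,0,-1],[],(⟨0,[(26,0)]⟩,⟨0,[(25,0)]⟩),(⟨0,[(32,0)]⟩,⟨0,[(33,0)]⟩),⟨0,[(2,0)]⟩,
  .k,.k,(.r (-1) ⟨5,[(13,1),(9,0),(0,0),(22,0)]⟩ ⟨11,[(4,5),(18,4),(0,4),(14,0),(10,1)]⟩),.k,(.r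
  (-1) ⟨9,[(12,3),(0,1),(5,5),(27,0),(0,4)]⟩ ⟨0,[(4,0),(1,0),(32,0),(1,0)]⟩),.k,⟨true,0,⟨1,[(4,0),
  (7,1),(35,0)]⟩,⟨0,[(17,0)]⟩⟩,⟨false,1,⟨0,[(23,0),(3,0)]⟩,⟨0,[(0,0),(17,0),(27,0)]⟩⟩,⟨false,1,⟨1,
  [(23,0),(0,0),(14,0)]⟩,⟨0,[]⟩⟩,⟨true,1,⟨9,[(4,3),(1,7),(0,0),(10,1),(4,9),(3,8),(11,2)]⟩,⟨0,[(0,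
  0),(45,0)]⟩⟩,⟨true,0,⟨1,[(4,0),(34,0),(1,1)]⟩,⟨0,[(45,0)]⟩⟩,⟨true,1,⟨1,[(4,0),(1,0),(11,0),(4,1),
  (3,1),(18,0)]⟩,⟨0,[(0,0)]⟩⟩,[.a ⟨true,0,⟨0,[(17,0),(9,0)]⟩,⟨0,[(5,0),(41,0)]⟩⟩ ⟨false,1,⟨1,[(23,
  0),(0,0),(22,0)]⟩,⟨0,[]⟩⟩ ⟨true,1,⟨0,[(17,0),(5,0),(3,0)]⟩,⟨1,[(0,1),(3,0),(43,0)]⟩⟩,.o ⟨false,1,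
  ⟨0,[(16,0),(1,0)]⟩,⟨0,[(10,0),(35,0)]⟩⟩,.o ⟨false,0,⟨5,[(3,5),(31,1),(6,0),(5,2)]⟩,⟨0,[(23,0)]⟩⟩,
  .e ⟨false,1,⟨1,[(47,0),(0,0)]⟩,⟨1,[(30,0),(0,0)]⟩⟩ ⟨false,2,⟨0,[(18,0),(4,0),(3,0)]⟩,⟨1,[(0,1),(3,
  0),(43,0)]⟩⟩]⟩)) (.R ⟨2,true,false,true,[0,1],[0,0,0,0,1],[1,1,1],(⟨0,[]⟩,⟨0,[]⟩),(⟨0,[(25,0)]⟩,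
  ⟨0,[(24,0)]⟩),⟨0,[]⟩,.k,.k,.k,(.r 0 ⟨11,[(3,5),(18,4),(0,4),(14,0),(10,1)]⟩ ⟨5,[(12,1),(9,0),(0,
  0),(22,0)]⟩),.k,.k,⟨true,0,⟨1,[(29,0),(0,0)]⟩,⟨0,[]⟩⟩,⟨false,0,⟨0,[(23,0)]⟩,⟨0,[(0,0)]⟩⟩,⟨true,0,
  ⟨0,[(44,0)]⟩,⟨0,[(45,0)]⟩⟩,⟨false,0,⟨2,[(2,0),(4,0),(0,0),(14,1)]⟩,⟨1,[(0,1),(2,0),(43,0)]⟩⟩,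
  ⟨false,0,⟨0,[]⟩,⟨1,[(22,0),(0,0),(23,0)]⟩⟩,⟨true,(-1),⟨0,[(2,0)]⟩,⟨1,[(0,0),(21,0),(25,0)]⟩⟩,
  []⟩))))) (.R ⟨1,false,false,false,[1,-1],[1,0,-1],[0,1,-1,-1],(⟨0,[(31,0)]⟩,⟨0,[(32,0)]⟩),(⟨0,
  [(27,0)]⟩,⟨0,[(28,0)]⟩),⟨0,[(16,0),(0,0)]⟩,.k,.k,(.r (-1) ⟨0,[(0,0),(2,0)]⟩ ⟨0,[(25,0),(0,0),(14,
  1)]⟩),.k,(.r (-1) ⟨1,[(0,0),(2,0),(3,1),(35,0)]⟩ ⟨1,[(12,1),(12,0),(0,0),(14,3)]⟩),.k,⟨true,0,⟨1,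
  [(0,0),(1,1),(0,2),(32,1),(0,0),(3,3)]⟩,⟨0,[(12,0),(22,0),(5,0)]⟩⟩,⟨false,1,⟨1,[(22,1),(7,0),(11,
  0)]⟩,⟨0,[(25,0)]⟩⟩,⟨true,0,⟨0,[(45,0)]⟩,⟨0,[]⟩⟩,⟨false,1,⟨6,[(0,1),(12,3),(1,1),(8,0),(5,0),(4,3),
  (5,6)]⟩,⟨0,[(6,0)]⟩⟩,⟨false,0,⟨0,[(41,0)]⟩,⟨5,[(8,1),(16,0),(0,0),(8,1),(7,1)]⟩⟩,⟨false,1,⟨6,[(0,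
  1),(12,3),(1,1),(8,0),(5,0),(4,3),(5,13)]⟩,⟨0,[(3,0)]⟩⟩,[.e ⟨false,1,⟨2,[(8,0),(27,0),(1,0),(3,
  0)]⟩,⟨0,[(35,0),(5,0)]⟩⟩ ⟨false,1,⟨0,[(0,0)]⟩,⟨0,[(23,0),(11,0)]⟩⟩,.o ⟨false,1,⟨6,[(0,1),(12,3),
  (1,1),(8,0),(5,0),(4,3)]⟩,⟨0,[(5,0),(35,0)]⟩⟩,.o ⟨false,0,⟨1,[(25,0),(0,0)]⟩,⟨1,[(30,0),(11,0)]⟩⟩,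
  .a ⟨true,(-1),⟨0,[(2,0),(22,0)]⟩,⟨0,[(42,0)]⟩⟩ ⟨false,1,⟨1,[(0,0),(2,0),(38,0)]⟩,⟨1,[(25,0),(0,0),
  (8,1),(5,1)]⟩⟩ ⟨true,1,⟨0,[(0,0)]⟩,⟨0,[(2,0),(2,0),(19,0),(15,0)]⟩⟩]⟩))))) (.R ⟨2,true,false,
  false,[0,1],[0,1,1],[1,0,1],(⟨0,[]⟩,⟨0,[]⟩),(⟨0,[(24,0),(0,0)]⟩,⟨0,[(12,0)]⟩),⟨0,[]⟩,.k,.k,.k,.k,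
  .k,.k,⟨true,1,⟨2,[(4,0),(3,0),(0,0),(10,0),(0,0)]⟩,⟨0,[(0,0),(6,0),(23,0)]⟩⟩,⟨false,1,⟨0,[(21,0),
  (16,0)]⟩,⟨0,[(7,0)]⟩⟩,⟨false,1,⟨5,[(4,1),(16,0),(0,0),(8,1),(7,1)]⟩,⟨0,[(37,0)]⟩⟩,⟨true,0,⟨2,[(0,
  0),(1,0),(16,0),(19,0)]⟩,⟨0,[(20,0)]⟩⟩,⟨true,0,⟨0,[]⟩,⟨0,[(41,0)]⟩⟩,⟨false,0,⟨0,[(0,0),(38,0)]⟩,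
  ⟨2,[(4,0),(4,0),(10,1),(1,0),(8,0)]⟩⟩,[]⟩)))

theorem ok5 : chk K t5 r8 = true := by decide +kernel

noncomputable def t7 : Tre :=
  (.I [1,-1,-1,-1,1,0,0,1] (.S ⟨1,0,[0,0,1,1,0,0,0,-1],[1,1,-1],[0,1,1,1,0,0,0,-1],(⟨0,[(21,0),(1,
  0)]⟩,⟨0,[(11,0)]⟩),⟨0,[(21,0)]⟩,.k,.k,⟨true,0,⟨0,[(39,0)]⟩,⟨0,[]⟩⟩,⟨false,1,⟨1,[(12,0),(0,0),(23,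
  0)]⟩,⟨0,[]⟩⟩,⟨false,0,⟨0,[(35,0)]⟩,⟨5,[(2,1),(16,0),(0,0),(8,1),(7,1)]⟩⟩,⟨true,0,⟨0,[(35,0)]⟩,⟨0,
  [(34,0)]⟩⟩,[.o ⟨false,0,⟨0,[(1,0),(3,0),(24,0)]⟩,⟨1,[(0,0),(2,0),(15,0),(4,0)]⟩⟩,.a ⟨true,0,⟨0,
  [(1,0),(14,0)]⟩,⟨0,[(3,0)]⟩⟩ ⟨false,0,⟨0,[(1,0),(28,0)]⟩,⟨9,[(0,3),(1,1),(5,5),(27,0),(0,0)]⟩⟩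
  ⟨true,0,⟨0,[(1,0)]⟩,⟨0,[(4,0)]⟩⟩,.e ⟨false,0,⟨0,[(1,0),(37,0)]⟩,⟨0,[(0,0)]⟩⟩ ⟨false,0,⟨0,[(1,0)]⟩,
  ⟨9,[(0,3),(1,1),(5,5),(27,0),(0,0)]⟩⟩,.o ⟨false,0,⟨0,[(5,0)]⟩,⟨1,[(19,1),(4,0),(11,0)]⟩⟩]⟩) (.Q
  [0,-1,0,2,0,0,-1,-1,0,0,-1] (.p false [0,0,1] [] (⟨0,[(22,0)]⟩,⟨0,[(21,0)]⟩) .k 0 (⟨0,[]⟩,⟨0,[]⟩)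
  .k .k) (.R ⟨1,true,false,false,[0,0,1],[0,1],[0,0,0,0,0,0,0,1],(⟨0,[(23,0)]⟩,⟨0,[(22,0)]⟩),(⟨0,
  [(27,0)]⟩,⟨0,[(26,0)]⟩),⟨0,[(12,0)]⟩,.k,.k,.k,.k,(.r (-2) ⟨1,[(3,0),(1,0),(3,0),(27,0),(0,0)]⟩ ⟨1,
  [(0,0),(0,1),(16,0),(11,1)]⟩),.k,⟨true,1,⟨1,[(5,1),(31,0),(0,0)]⟩,⟨0,[(1,0),(28,0)]⟩⟩,⟨false,1,⟨1,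
  [(17,1),(7,0),(11,0)]⟩,⟨0,[(20,0)]⟩⟩,⟨false,1,⟨1,[(13,0),(0,0),(23,0)]⟩,⟨0,[]⟩⟩,⟨true,0,⟨1,[(0,0),
  (18,0)]⟩,⟨0,[(4,0)]⟩⟩,⟨true,0,⟨0,[(36,0)]⟩,⟨0,[(35,0)]⟩⟩,⟨false,0,⟨0,[(0,0)]⟩,⟨2,[(3,0),(0,1),(0,
  0),(14,0),(9,0),(7,0)]⟩⟩,[]⟩) (.I [0,-1,-1,0,1,0,0,1] (.S ⟨1,0,[0,0,1,1,0,0,0,-1],[1,1,-1],[],(⟨0,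
  [(23,0),(1,0)]⟩,⟨0,[(13,0)]⟩),⟨0,[(23,0)]⟩,.k,.k,⟨true,1,⟨3,[(0,1),(3,0),(1,0),(3,0)]⟩,⟨0,[(2,
  0)]⟩⟩,⟨false,1,⟨3,[(0,0),(8,1),(9,0),(2,0),(16,0)]⟩,⟨0,[]⟩⟩,⟨false,1,⟨0,[(0,0)]⟩,⟨0,[(8,0)]⟩⟩,
  ⟨true,0,⟨0,[(37,0)]⟩,⟨0,[(36,0)]⟩⟩,[.o ⟨false,0,⟨1,[(2,0),(0,0),(14,1),(7,0)]⟩,⟨1,[(1,0),(17,0),
  (6,0),(12,0)]⟩⟩,.a ⟨true,0,⟨0,[(3,0),(14,0)]⟩,⟨0,[(5,0)]⟩⟩ ⟨false,1,⟨1,[(38,0),(0,0)]⟩,⟨0,[(41,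
  0)]⟩⟩ ⟨true,0,⟨0,[(3,0)]⟩,⟨0,[(6,0)]⟩⟩,.e ⟨false,1,⟨3,[(0,0),(8,1),(9,0),(2,0),(16,0)]⟩,⟨0,[]⟩⟩
  ⟨false,0,⟨0,[(3,0)]⟩,⟨3,[(0,1),(3,0),(1,0),(3,0)]⟩⟩,.o ⟨false,0,⟨0,[(7,0)]⟩,⟨1,[(21,1),(4,0),(11,
  0)]⟩⟩]⟩) (.Q [0,0,-1,0,1,0,1,0,0,-1,1] (.p true [0,0,1] [1] (⟨0,[(24,0)]⟩,⟨0,[(23,0)]⟩) .k 1 (⟨0,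
  []⟩,⟨0,[]⟩) .k .k) (.S ⟨1,0,[0,0,0,0,0,0,0,-1],[1,0,-1],[0,1,0,0,0,0,0,-1],(⟨0,[(24,0)]⟩,⟨0,[(25,
  0)]⟩),⟨0,[(13,0)]⟩,.k,.k,⟨true,0,⟨0,[(42,0)]⟩,⟨0,[]⟩⟩,⟨false,1,⟨1,[(15,0),(0,0),(23,0)]⟩,⟨0,[]⟩⟩,
  ⟨false,0,⟨0,[(38,0)]⟩,⟨5,[(5,1),(16,0),(0,0),(8,1),(7,1)]⟩⟩,⟨true,0,⟨0,[(38,0)]⟩,⟨0,[(37,0)]⟩⟩,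
  [.o ⟨false,0,⟨1,[(1,1),(17,1),(7,0),(12,0)]⟩,⟨1,[(20,1),(6,0),(12,0)]⟩⟩,.a ⟨true,0,⟨0,[(1,0),(17,
  0),(20,0)]⟩,⟨0,[(20,0)]⟩⟩ ⟨true,0,⟨1,[(1,1),(37,0),(0,0)]⟩,⟨0,[(11,0),(20,0)]⟩⟩ ⟨false,1,⟨0,[(1,
  0),(37,0),(0,0)]⟩,⟨0,[(11,0)]⟩⟩,.o ⟨false,0,⟨0,[(8,0)]⟩,⟨2,[(0,0),(9,0),(9,0),(1,0),(4,0)]⟩⟩,.o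
  ⟨false,0,⟨0,[(23,0)]⟩,⟨0,[(0,0)]⟩⟩]⟩) (.I [0,0,0,1,0,0,0,1] (.S ⟨1,0,[0,1,0,0,0,0,0,-1],[1,0,-1],
  [],(⟨0,[(25,0)]⟩,⟨0,[(26,0)]⟩),⟨0,[(14,0)]⟩,.k,.k,⟨false,1,⟨0,[(12,0),(28,0)]⟩,⟨1,[(2,1),(37,0),
  (0,0)]⟩⟩,⟨true,0,⟨0,[(43,0)]⟩,⟨0,[]⟩⟩,⟨true,0,⟨0,[(0,0)]⟩,⟨1,[(2,0),(1,0),(1,0)]⟩⟩,⟨false,0,⟨0,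
  [(39,0)]⟩,⟨5,[(6,1),(16,0),(0,0),(8,1),(7,1)]⟩⟩,[.e ⟨false,1,⟨1,[(16,0),(0,0),(22,0)]⟩,⟨0,[]⟩⟩
  ⟨false,0,⟨0,[(2,0),(37,0)]⟩,⟨0,[(12,0),(28,0)]⟩⟩,.o ⟨false,0,⟨1,[(2,1),(17,1),(7,0),(12,0)]⟩,⟨1,
  [(21,1),(6,0),(12,0)]⟩⟩,.o ⟨false,0,⟨0,[(9,0)]⟩,⟨1,[(23,1),(4,0),(11,0)]⟩⟩,.a ⟨true,(-1),⟨0,[(1,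
  0)]⟩,⟨0,[(23,0),(16,0)]⟩⟩ ⟨false,1,⟨1,[(40,0),(0,0)]⟩,⟨1,[(23,0),(0,0)]⟩⟩ ⟨true,0,⟨0,[(2,0),(37,
  0)]⟩,⟨2,[(0,0),(7,0),(12,0),(2,0),(8,1)]⟩⟩]⟩) (.I [1,0,2,2,-1] (.I [0,0,-2,-1,1] (.I [0,0,2,0,-1,
  2] (.S ⟨1,0,[0,0,-1,-1],[1,-1],[1,1,1],(⟨0,[(32,0)]⟩,⟨0,[(33,0)]⟩),⟨0,[(17,0),(0,0)]⟩,.k,(.x 1 ⟨0,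
  [(0,0)]⟩ ⟨0,[(31,0),(0,1),(10,0)]⟩),⟨true,(-1),⟨0,[(2,0),(38,0)]⟩,⟨0,[(1,0)]⟩⟩,⟨false,1,⟨1,[(19,
  0),(0,0),(23,0)]⟩,⟨0,[]⟩⟩,⟨false,(-1),⟨0,[(2,0)]⟩,⟨1,[(1,0),(7,0),(34,0)]⟩⟩,⟨true,0,⟨0,[(42,0)]⟩,
  ⟨0,[(41,0)]⟩⟩,[.e ⟨false,0,⟨0,[(46,0)]⟩,⟨1,[(43,0),(0,0)]⟩⟩ ⟨false,1,⟨0,[(1,0)]⟩,⟨1,[(2,0),(16,0),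
  (0,0)]⟩⟩,.o ⟨false,1,⟨5,[(9,1),(16,0),(0,0),(8,1),(7,1)]⟩,⟨1,[(2,0),(28,0),(5,1)]⟩⟩,.o ⟨false,0,
  ⟨1,[(26,0),(0,0)]⟩,⟨1,[(31,0),(11,0)]⟩⟩,.a ⟨true,(-1),⟨0,[(4,0),(21,0)]⟩,⟨0,[(43,0)]⟩⟩ ⟨false,0,
  ⟨0,[]⟩,⟨1,[(19,0),(0,0),(23,0)]⟩⟩ ⟨true,1,⟨0,[(1,0)]⟩,⟨0,[(2,0),(38,0)]⟩⟩]⟩) (.I [0,0,2,2,-1] (.S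
  ⟨1,0,[0,0,-1,-1],[1,-1],[1,1,1],(⟨0,[(33,0)]⟩,⟨0,[(34,0)]⟩),⟨0,[(18,0),(0,0)]⟩,.k,(.r (-2) ⟨2,
  [(10,1),(9,0),(0,0),(22,0)]⟩ ⟨0,[(0,0)]⟩),⟨true,(-1),⟨0,[(0,0),(41,0)]⟩,⟨0,[(2,0)]⟩⟩,⟨false,1,⟨1,
  [(20,0),(0,0),(23,0)]⟩,⟨0,[]⟩⟩,⟨false,(-1),⟨0,[(3,0)]⟩,⟨1,[(2,0),(7,0),(34,0)]⟩⟩,⟨true,0,⟨0,[(43,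
  0)]⟩,⟨0,[(42,0)]⟩⟩,[.e ⟨false,0,⟨0,[(47,0)]⟩,⟨1,[(44,0),(0,0)]⟩⟩ ⟨false,1,⟨0,[(2,0)]⟩,⟨1,[(0,0),
  (19,0),(0,0)]⟩⟩,.o ⟨false,1,⟨5,[(10,1),(16,0),(0,0),(8,1),(7,1)]⟩,⟨1,[(0,0),(31,0),(5,1)]⟩⟩,.o
  ⟨false,0,⟨1,[(27,0),(0,0)]⟩,⟨1,[(32,0),(11,0)]⟩⟩,.a ⟨true,(-1),⟨0,[(5,0),(21,0)]⟩,⟨0,[(44,0)]⟩⟩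
  ⟨false,0,⟨0,[]⟩,⟨1,[(20,0),(0,0),(23,0)]⟩⟩ ⟨true,1,⟨0,[(2,0)]⟩,⟨0,[(0,0),(41,0)]⟩⟩]⟩) (.Q [-1,0,0,
  1,0,0,0,0,-1,0,0,-1] (.p false [0,0,0,0,1] [] (⟨0,[(23,0)]⟩,⟨0,[(22,0)]⟩) .k 0 (⟨0,[]⟩,⟨0,[]⟩) .k
  .k) (.R ⟨2,true,false,true,[0,1],[0,0,0,0,1],[2,1],(⟨0,[]⟩,⟨0,[]⟩),(⟨0,[(24,0)]⟩,⟨0,[(23,0)]⟩),⟨0,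
  []⟩,.k,.k,.k,(.r 0 ⟨5,[(4,2),(16,1),(0,1),(14,0),(10,1)]⟩ ⟨5,[(11,1),(9,0),(0,0),(22,0)]⟩),.k,.k,
  ⟨true,0,⟨0,[]⟩,⟨1,[(28,0),(0,0)]⟩⟩,⟨false,0,⟨0,[(22,0)]⟩,⟨1,[(0,0),(2,0),(17,0)]⟩⟩,⟨false,1,⟨5,
  [(11,1),(9,0),(0,0),(22,0)]⟩,⟨1,[(2,0),(1,0),(27,1),(9,1)]⟩⟩,⟨true,0,⟨0,[(22,0),(20,0)]⟩,⟨0,[(0,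
  0)]⟩⟩,⟨true,0,⟨0,[(39,0)]⟩,⟨0,[(47,0)]⟩⟩,⟨false,0,⟨0,[(22,0)]⟩,⟨7,[(0,4),(0,0),(9,0),(9,2),(16,3),
  (7,1)]⟩⟩,[]⟩) (.Q [1,0,0,0,-1,0,0,0,1,0,0,1] (.p true [0,0,0,0,1] [] (⟨0,[(24,0)]⟩,⟨0,[(23,0)]⟩)
  .k 0 (⟨0,[]⟩,⟨0,[]⟩) .k .k) (.R ⟨2,true,false,true,[0,1],[0,0,0,0,1],[1,1],(⟨0,[]⟩,⟨0,[]⟩),(⟨0,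
  [(25,0)]⟩,⟨0,[(24,0)]⟩),⟨0,[]⟩,.k,.k,.k,(.r 0 ⟨5,[(5,2),(16,1),(0,1),(14,0),(10,1)]⟩ ⟨5,[(12,1),
  (9,0),(0,0),(22,0)]⟩),.k,.k,⟨false,1,⟨1,[(22,0),(0,0),(22,0)]⟩,⟨0,[]⟩⟩,⟨true,(-1),⟨19,[(0,15),(0,
  3),(3,2),(2,0),(0,0),(20,0),(8,1),(8,9)]⟩,⟨0,[(22,0)]⟩⟩,⟨false,1,⟨5,[(12,1),(9,0),(0,0),(22,0)]⟩,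
  ⟨1,[(5,0),(41,0)]⟩⟩,⟨true,(-1),⟨0,[(0,0),(43,0)]⟩,⟨0,[(22,0),(22,0)]⟩⟩,⟨true,0,⟨0,[(40,0)]⟩,⟨1,
  [(29,0),(0,0)]⟩⟩,⟨false,(-1),⟨0,[(0,0)]⟩,⟨1,[(22,2),(0,0),(14,0)]⟩⟩,[]⟩) (.Q [-1,0,0,0,0,0,0,0,-1,
  1,0,-1] (.p false [0,0,0,0,1] [1] (⟨0,[(25,0)]⟩,⟨0,[(24,0)]⟩) .k 1 (⟨0,[]⟩,⟨0,[]⟩) .k .k) (.Q [0,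
  0,0,0,0,-1,0,0,0,0,0,1] (.ed false [1,-1,0,0,1] .k) (.S ⟨1,0,[1,1],[0,0,0,0,1],[2,0,0,-1],(⟨0,
  [(27,0)]⟩,⟨0,[(26,0)]⟩),⟨0,[(0,0)]⟩,.k,(.r (-1) ⟨5,[(14,1),(9,0),(0,0),(22,0)]⟩ ⟨9,[(2,3),(4,4),
  (17,3),(14,0),(10,1)]⟩),⟨false,1,⟨5,[(14,1),(16,0),(0,0),(8,1),(7,1)]⟩,⟨0,[(47,0)]⟩⟩,⟨true,0,⟨0,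
  [(51,0)]⟩,⟨0,[]⟩⟩,⟨true,0,⟨0,[]⟩,⟨0,[(51,0)]⟩⟩,⟨false,0,⟨0,[(47,0)]⟩,⟨5,[(14,1),(16,0),(0,0),(8,
  1),(7,1)]⟩⟩,[.o ⟨false,0,⟨1,[(3,1),(3,0),(28,0),(5,1)]⟩,⟨1,[(1,1),(34,0),(12,0)]⟩⟩,.a ⟨true,0,⟨0,
  [(25,0)]⟩,⟨0,[(1,0)]⟩⟩ ⟨false,1,⟨1,[(4,0),(44,0)]⟩,⟨3,[(7,0),(16,0),(0,0),(18,1),(2,1)]⟩⟩ ⟨true,0,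
  ⟨0,[]⟩,⟨1,[(31,0),(0,0)]⟩⟩,.e ⟨false,1,⟨5,[(14,1),(16,0),(0,0),(8,1),(7,1)]⟩,⟨1,[(5,0),(1,0),(27,
  1)]⟩⟩ ⟨false,0,⟨0,[]⟩,⟨1,[(24,0),(0,0),(23,0)]⟩⟩,.o ⟨false,0,⟨5,[(3,5),(3,2),(28,0),(6,1)]⟩,⟨1,
  [(1,1),(34,0),(11,0)]⟩⟩]⟩) (.Q [0,0,1,0,0,0,1,0,-1,0,1,-1] (.p true [0,0,1] [0,0,0,0,1] (⟨0,[(34,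
  0)]⟩,⟨0,[(33,0)]⟩) .k 2 (⟨0,[(27,0)]⟩,⟨0,[(26,0)]⟩) .k (.r (-1) ⟨1,[(2,0),(17,1),(4,0),(23,0)]⟩
  ⟨3,[(8,1),(3,0),(0,0),(34,0)]⟩)) (.S ⟨1,0,[-1,1],[1,0,0,0,-1],[0,0,0,-1],(⟨0,[(27,0)]⟩,⟨0,[(28,
  0)]⟩),⟨4,[(1,0),(4,2),(1,0),(1,0),(0,0),(0,0),(14,3),(14,1)]⟩,.k,(.r (-1) ⟨29,[(3,2),(11,9),(10,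
  2),(14,1),(7,4),(2,3)]⟩ ⟨1,[(8,0),(16,0),(0,0)]⟩),⟨false,1,⟨5,[(15,1),(16,0),(0,0),(8,1),(7,1)]⟩,
  ⟨0,[(48,0)]⟩⟩,⟨true,0,⟨0,[(52,0)]⟩,⟨0,[]⟩⟩,⟨true,0,⟨0,[]⟩,⟨0,[(52,0)]⟩⟩,⟨false,0,⟨0,[(48,0)]⟩,⟨5,
  [(15,1),(16,0),(0,0),(8,1),(7,1)]⟩⟩,[.o ⟨false,0,⟨5,[(0,2),(1,2),(7,2),(26,1),(5,5),(0,0)]⟩,⟨1,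
  [(26,1),(10,0),(12,0)]⟩⟩,.e ⟨false,1,⟨1,[(5,0),(44,0)]⟩,⟨3,[(8,0),(16,0),(0,0),(18,1),(2,1)]⟩⟩
  ⟨false,1,⟨1,[(3,0),(22,0),(22,0)]⟩,⟨0,[]⟩⟩,.a ⟨true,0,⟨0,[(2,0)]⟩,⟨0,[(26,0)]⟩⟩ ⟨false,1,⟨5,[(15,
  1),(16,0),(0,0),(8,1),(7,1)]⟩,⟨0,[(48,0)]⟩⟩ ⟨true,0,⟨0,[(52,0)]⟩,⟨0,[]⟩⟩,.o ⟨false,0,⟨1,[(0,0),(1,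
  0),(7,0),(26,0)]⟩,⟨1,[(26,1),(10,0),(11,0)]⟩⟩]⟩) (.R ⟨0,false,false,true,[0,0,0,0,1],[0,1],[0,1,1,
  1],(⟨0,[(28,0)]⟩,⟨0,[(27,0)]⟩),(⟨0,[(39,0)]⟩,⟨0,[(38,0)]⟩),⟨0,[(1,0)]⟩,.k,.k,(.r (-1) ⟨5,[(15,1),
  (9,0),(0,0),(22,0)]⟩ ⟨9,[(3,3),(4,4),(17,3),(14,0),(10,1)]⟩),(.r (-1) ⟨5,[(15,1),(9,0),(0,0),(22,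
  0)]⟩ ⟨9,[(3,3),(4,4),(17,3),(14,0),(10,1)]⟩),.k,.k,⟨false,1,⟨1,[(25,0),(0,0),(22,0)]⟩,⟨0,[]⟩⟩,
  ⟨true,1,⟨1,[(2,1),(34,0),(11,0)]⟩,⟨1,[(0,0),(7,0),(2,0),(0,0),(13,0),(15,1)]⟩⟩,⟨false,0,⟨9,[(3,3),
  (4,4),(17,3),(14,0),(10,1)]⟩,⟨1,[(5,0),(44,0)]⟩⟩,⟨true,0,⟨1,[(2,1),(5,0),(28,0),(5,1)]⟩,⟨0,[(4,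
  0)]⟩⟩,⟨false,0,⟨0,[]⟩,⟨0,[]⟩⟩,⟨false,0,⟨0,[]⟩,⟨0,[]⟩⟩,[.o ⟨false,0,⟨1,[(8,0),(28,0),(5,1)]⟩,⟨5,
  [(15,1),(16,0),(0,0),(8,1),(7,1)]⟩⟩,.e ⟨false,0,⟨0,[(48,0)]⟩,⟨5,[(15,1),(9,0),(0,0),(22,0)]⟩⟩
  ⟨false,1,⟨1,[(2,1),(34,0),(10,1),(0,0)]⟩,⟨3,[(0,0),(3,1),(6,0),(0,0),(13,0),(14,0)]⟩⟩,.a ⟨true,0,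
  ⟨0,[(26,0)]⟩,⟨0,[(2,0)]⟩⟩ ⟨false,0,⟨1,[(8,0),(16,0),(0,0)]⟩,⟨1,[(5,0),(44,0)]⟩⟩ ⟨true,0,⟨1,[(2,1),
  (5,0),(28,0),(5,1)]⟩,⟨3,[(0,0),(3,1),(6,0),(0,0),(13,0),(14,0)]⟩⟩,.o ⟨false,0,⟨5,[(4,5),(3,2),(28,
  0),(6,1)]⟩,⟨1,[(2,1),(34,0),(11,0)]⟩⟩]⟩))) (.Q [0,0,1,0,-1,0,0,0,1,0,0,1] (.p true [0,0,0,0,1] []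
  (⟨0,[(26,0)]⟩,⟨0,[(25,0)]⟩) .k 0 (⟨0,[]⟩,⟨0,[]⟩) .k .k) (.Q [0,0,0,0,0,-1,0,0,0,0,0,1] (.ed false
  [1,-1,0,0,1] .k) (.Q [0,0,-1,0,1,0,0,0,-1,1,0,-1] (.p false [0,0,0,0,1] [1] (⟨0,[(28,0)]⟩,⟨0,[(27,
  0)]⟩) .k 1 (⟨0,[]⟩,⟨0,[]⟩) .k .k) (.S ⟨1,0,[1,1],[0,0,0,0,1],[2,0,0,-1],(⟨0,[(29,0)]⟩,⟨0,[(28,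
  0)]⟩),⟨0,[(1,0)]⟩,.k,(.r (-1) ⟨5,[(16,1),(9,0),(0,0),(22,0)]⟩ ⟨9,[(4,3),(4,4),(17,3),(14,0),(10,
  1)]⟩),⟨false,1,⟨5,[(16,1),(16,0),(0,0),(8,1),(7,1)]⟩,⟨0,[(49,0)]⟩⟩,⟨true,0,⟨0,[(53,0)]⟩,⟨0,[]⟩⟩,
  ⟨true,0,⟨0,[]⟩,⟨0,[(53,0)]⟩⟩,⟨false,0,⟨0,[(49,0)]⟩,⟨5,[(16,1),(16,0),(0,0),(8,1),(7,1)]⟩⟩,[.e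
  ⟨false,1,⟨5,[(16,1),(9,0),(0,0),(22,0)]⟩,⟨1,[(7,0),(1,0),(27,1)]⟩⟩ ⟨false,0,⟨0,[(44,0)]⟩,⟨1,[(26,
  0),(0,0),(23,0)]⟩⟩,.o ⟨false,0,⟨0,[(3,0)]⟩,⟨0,[(4,0)]⟩⟩,.o ⟨false,0,⟨10,[(2,1),(0,8),(3,0),(29,1),
  (7,0)]⟩,⟨0,[(26,0)]⟩⟩,.a ⟨true,(-1),⟨0,[(2,0)]⟩,⟨0,[(0,0)]⟩⟩ ⟨false,1,⟨1,[(6,0),(44,0)]⟩,⟨9,[(4,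
  3),(4,4),(17,3),(14,0),(10,1)]⟩⟩ ⟨true,0,⟨0,[(44,0)]⟩,⟨1,[(33,0),(0,0)]⟩⟩]⟩) (.R ⟨1,false,false,
  true,[0,0,1],[1,0,0,0,-1],[1,0,0,-1,0,0,0,1],(⟨0,[(36,0)]⟩,⟨0,[(35,0)]⟩),(⟨0,[(28,0)]⟩,⟨0,[(29,
  0)]⟩),⟨0,[(25,0)]⟩,.k,.k,.k,.k,(.r (-1) ⟨1,[(8,0),(9,0),(3,0),(28,0)]⟩ ⟨1,[(0,1),(3,1),(2,8),(1,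
  2),(1,1),(0,3),(0,1),(23,17),(9,5)]⟩),.k,⟨true,1,⟨0,[(18,0),(32,0)]⟩,⟨1,[(7,0),(1,0),(2,1),(24,
  1)]⟩⟩,⟨false,1,⟨0,[(26,0),(3,0)]⟩,⟨0,[(0,0),(32,0),(16,0)]⟩⟩,⟨false,1,⟨5,[(16,1),(16,0),(0,0),(8,
  1),(7,1)]⟩,⟨0,[(49,0)]⟩⟩,⟨true,0,⟨0,[(4,0),(7,0),(17,0)]⟩,⟨1,[(0,1),(30,1),(18,0),(0,0)]⟩⟩,⟨true,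
  0,⟨0,[]⟩,⟨0,[(53,0)]⟩⟩,⟨true,0,⟨0,[(14,0),(11,0),(3,0)]⟩,⟨3,[(0,3),(7,1),(4,0),(17,2),(19,1)]⟩⟩,
  [.o ⟨false,1,⟨0,[(26,0),(26,0)]⟩,⟨1,[(0,1),(49,0),(0,0)]⟩⟩,.o ⟨false,1,⟨0,[(4,0)]⟩,⟨0,[(3,0)]⟩⟩,
  .o ⟨false,1,⟨1,[(33,1),(4,0),(11,0)]⟩,⟨0,[(19,0)]⟩⟩,.a ⟨true,0,⟨0,[(33,0)]⟩,⟨0,[(30,0)]⟩⟩ ⟨true,1,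
  ⟨1,[(8,0),(9,0),(3,0),(28,0)]⟩,⟨0,[(14,0)]⟩⟩ ⟨false,1,⟨0,[(4,0),(25,0)]⟩,⟨1,[(0,1),(32,1),(16,0),
  (0,0)]⟩⟩]⟩)) (.Q [-1,1,0,-1,0,0,0,0,-1,1,0,-1] (.p false [0,0,0,0,1] [1] (⟨0,[(28,0)]⟩,⟨0,[(27,
  0)]⟩) .k 1 (⟨0,[]⟩,⟨0,[]⟩) .k .k) (.S ⟨1,0,[-1,1],[1,0,0,0,-1],[0,0,0,-1],(⟨0,[(28,0)]⟩,⟨0,[(29,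
  0)]⟩),⟨4,[(1,0),(5,2),(1,0),(1,0),(0,0),(0,0),(14,3),(14,1)]⟩,.k,(.r (-1) ⟨29,[(4,2),(11,9),(10,
  2),(14,1),(7,4),(2,3)]⟩ ⟨1,[(9,0),(16,0),(0,0)]⟩),⟨false,1,⟨5,[(16,1),(16,0),(0,0),(8,1),(7,1)]⟩,
  ⟨0,[(49,0)]⟩⟩,⟨true,0,⟨0,[(53,0)]⟩,⟨0,[]⟩⟩,⟨true,0,⟨0,[]⟩,⟨0,[(53,0)]⟩⟩,⟨false,0,⟨0,[(49,0)]⟩,⟨5,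
  [(16,1),(16,0),(0,0),(8,1),(7,1)]⟩⟩,[.a ⟨true,0,⟨0,[(0,0),(48,0)]⟩,⟨1,[(2,1),(47,0),(0,0)]⟩⟩
  ⟨false,1,⟨5,[(16,1),(9,0),(0,0),(22,0)]⟩,⟨0,[(49,0)]⟩⟩ ⟨true,0,⟨0,[(53,0)]⟩,⟨0,[(43,0)]⟩⟩,.o
  ⟨false,1,⟨0,[(4,0)]⟩,⟨0,[(3,0)]⟩⟩,.o ⟨false,1,⟨0,[(26,0)]⟩,⟨10,[(2,1),(0,8),(3,0),(29,1),(7,0)]⟩⟩,
  .e ⟨false,1,⟨1,[(6,0),(44,0)]⟩,⟨1,[(9,0),(16,0),(0,0)]⟩⟩ ⟨false,1,⟨1,[(4,0),(22,0),(22,0)]⟩,⟨0,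
  [(43,0)]⟩⟩]⟩) (.R ⟨0,false,false,false,[0,0,0,0,1],[0,1],[0,0,2,1],(⟨0,[(29,0)]⟩,⟨0,[(28,0)]⟩),
  (⟨0,[(40,0)]⟩,⟨0,[(39,0)]⟩),⟨0,[(1,0)]⟩,.k,.k,(.r (-1) ⟨5,[(16,1),(9,0),(0,0),(22,0)]⟩ ⟨9,[(4,3),
  (4,4),(17,3),(14,0),(10,1)]⟩),(.r (-1) ⟨5,[(16,1),(9,0),(0,0),(22,0)]⟩ ⟨9,[(4,3),(4,4),(17,3),(14,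
  0),(10,1)]⟩),.k,.k,⟨true,0,⟨1,[(33,0),(0,0)]⟩,⟨0,[]⟩⟩,⟨false,2,⟨0,[(26,0),(23,0)]⟩,⟨0,[(2,0)]⟩⟩,
  ⟨false,0,⟨7,[(9,3),(23,2),(0,2),(16,3),(0,1)]⟩,⟨0,[(8,0)]⟩⟩,⟨true,1,⟨0,[(26,0),(22,0)]⟩,⟨2,[(0,0),
  (1,1),(3,0),(4,0),(0,0),(0,0),(30,1)]⟩⟩,⟨false,0,⟨0,[]⟩,⟨0,[]⟩⟩,⟨false,0,⟨0,[]⟩,⟨0,[]⟩⟩,[.a ⟨true,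
  0,⟨0,[(49,0)]⟩,⟨1,[(6,0),(4,0),(16,0),(0,0),(3,0)]⟩⟩ ⟨false,0,⟨1,[(9,0),(16,0),(0,0)]⟩,⟨0,[(8,
  0)]⟩⟩ ⟨true,1,⟨0,[(26,0),(22,0)]⟩,⟨15,[(0,5),(1,9),(3,4),(0,0),(3,5),(0,5),(0,5),(23,1),(5,5)]⟩⟩,
  .o ⟨false,1,⟨1,[(38,0),(10,1),(1,0)]⟩,⟨0,[(48,0)]⟩⟩,.o ⟨false,0,⟨17,[(0,1),(1,4),(0,9),(4,1),(18,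
  0),(17,2),(0,0)]⟩,⟨0,[(26,0)]⟩⟩,.e ⟨false,0,⟨1,[(9,0),(41,0)]⟩,⟨5,[(16,1),(9,0),(0,0),(22,0)]⟩⟩
  ⟨false,2,⟨1,[(26,1),(22,1),(0,0),(0,0)]⟩,⟨15,[(0,5),(1,9),(3,4),(0,0),(3,5),(0,5),(0,5),(23,1),(5,
  5)]⟩⟩]⟩))) (.Q [-1,-1,0,0,1,0,0,0,-1,0,0,-1] (.p false [0,0,0,0,1] [] (⟨0,[(27,0)]⟩,⟨0,[(26,0)]⟩)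
  .k 0 (⟨0,[]⟩,⟨0,[]⟩) .k .k) (.R ⟨1,false,false,false,[0,0,1],[1,0,0,0,-1],[1,0,0,-1,0,0,0,1],(⟨0,
  [(35,0)]⟩,⟨0,[(34,0)]⟩),(⟨0,[(27,0)]⟩,⟨0,[(28,0)]⟩),⟨0,[(24,0)]⟩,.k,.k,.k,.k,(.r (-1) ⟨1,[(7,0),
  (9,0),(3,0),(28,0)]⟩ ⟨1,[(6,7),(1,2),(1,1),(0,3),(0,1),(23,15),(7,0),(1,5)]⟩),.k,⟨false,1,⟨1,[(7,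
  0),(9,0),(3,0),(28,0)]⟩,⟨1,[(13,0),(0,0),(34,0)]⟩⟩,⟨true,0,⟨0,[(1,0),(8,0)]⟩,⟨11,[(2,11),(3,0),(1,
  0),(3,1),(0,1),(18,9),(3,1),(4,1)]⟩⟩,⟨false,1,⟨5,[(15,1),(16,0),(0,0),(8,1),(7,1)]⟩,⟨0,[(48,0)]⟩⟩,
  ⟨true,0,⟨1,[(0,0),(0,0),(7,0),(0,0),(2,0),(15,0)]⟩,⟨0,[(2,0),(27,0)]⟩⟩,⟨true,0,⟨0,[]⟩,⟨0,[(52,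
  0)]⟩⟩,⟨true,0,⟨0,[(0,0),(12,0),(15,0)]⟩,⟨1,[(2,1),(9,0),(17,0)]⟩⟩,[.o ⟨false,1,⟨0,[(3,0)]⟩,⟨0,[(2,
  0)]⟩⟩,.o ⟨false,1,⟨0,[(0,0)]⟩,⟨0,[(2,0),(49,0)]⟩⟩,.o ⟨false,1,⟨1,[(32,1),(4,0),(11,0)]⟩,⟨0,[(18,
  0)]⟩⟩,.a ⟨true,0,⟨0,[(32,0)]⟩,⟨0,[(29,0)]⟩⟩ ⟨true,1,⟨1,[(7,0),(9,0),(3,0),(28,0)]⟩,⟨0,[(13,0)]⟩⟩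
  ⟨false,1,⟨0,[(0,0),(28,0)]⟩,⟨0,[(2,0),(29,0)]⟩⟩]⟩) (.R ⟨2,true,false,true,[0,1],[0,0,0,0,1],[1,1,
  1],(⟨0,[]⟩,⟨0,[]⟩),(⟨0,[(28,0)]⟩,⟨0,[(27,0)]⟩),⟨0,[]⟩,.k,.k,.k,(.r 0 ⟨9,[(3,3),(4,4),(17,3),(14,
  0),(10,1)]⟩ ⟨5,[(15,1),(9,0),(0,0),(22,0)]⟩),.k,.k,⟨true,0,⟨1,[(32,0),(0,0)]⟩,⟨0,[]⟩⟩,⟨false,0,⟨0,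
  [(26,0)]⟩,⟨0,[(1,0)]⟩⟩,⟨true,0,⟨0,[(47,0)]⟩,⟨0,[(48,0)]⟩⟩,⟨false,0,⟨0,[(4,0)]⟩,⟨1,[(1,1),(6,0),
  (32,0)]⟩⟩,⟨false,0,⟨0,[]⟩,⟨1,[(25,0),(0,0),(23,0)]⟩⟩,⟨true,(-1),⟨0,[(0,0)]⟩,⟨0,[(3,0)]⟩⟩,
  []⟩)))))))) (.Q [0,-1,0,2,1,0,1,1,0,-1,1] (.p true [0,0,1] [1] (⟨0,[(28,0)]⟩,⟨0,[(27,0)]⟩) .k 1
  (⟨0,[]⟩,⟨0,[]⟩) .k .k) (.I [0,0,2,0,-1,2,-1] (.R ⟨1,false,false,false,[1,0,-1],[0,1],[],(⟨0,[(29,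
  0)]⟩,⟨0,[(30,0)]⟩),(⟨0,[(34,0)]⟩,⟨0,[(33,0)]⟩),⟨0,[(18,0)]⟩,.k,.k,.k,.k,(.x 1 ⟨0,[(0,0)]⟩ ⟨5,[(1,
  2),(2,3),(2,0),(10,8),(0,2),(7,1),(4,2),(5,1),(5,5)]⟩),.k,⟨true,1,⟨18,[(1,0),(8,6),(4,1),(1,0),(7,
  0),(14,0),(3,1)]⟩,⟨0,[(2,0)]⟩⟩,⟨false,2,⟨1,[(27,1),(4,0),(11,2)]⟩,⟨0,[(5,0)]⟩⟩,⟨false,1,⟨3,[(1,0),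
  (10,1),(4,0),(7,0),(19,2)]⟩,⟨3,[(4,1),(3,0),(0,0),(34,0)]⟩⟩,⟨true,1,⟨10,[(1,6),(8,0),(14,3),(1,0),
  (0,0),(3,1),(14,2)]⟩,⟨0,[(4,0),(0,0),(32,0)]⟩⟩,⟨false,1,⟨1,[(1,0),(15,0),(7,0),(19,0)]⟩,⟨0,[(4,
  0)]⟩⟩,⟨false,1,⟨0,[(1,0)]⟩,⟨6,[(4,4),(0,5),(0,0),(3,2),(4,0),(8,0)]⟩⟩,[.e ⟨false,1,⟨18,[(1,2),(8,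
  1),(4,5),(1,2),(7,2),(14,2),(3,5)]⟩,⟨0,[]⟩⟩ ⟨false,1,⟨0,[(1,0),(2,0),(33,0)]⟩,⟨14,[(0,0),(4,8),(4,
  4),(6,1),(6,0),(4,0),(3,1)]⟩⟩,.o ⟨false,1,⟨5,[(1,1),(7,1),(14,1),(7,2),(12,0)]⟩,⟨0,[(42,0)]⟩⟩,.o
  ⟨false,0,⟨0,[(13,0)]⟩,⟨1,[(27,1),(4,0),(11,0)]⟩⟩,.a ⟨true,(-1),⟨0,[(5,0)]⟩,⟨0,[(27,0),(16,0)]⟩⟩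
  ⟨false,1,⟨1,[(44,0),(0,0)]⟩,⟨1,[(27,0),(0,0)]⟩⟩ ⟨true,1,⟨0,[(1,0),(2,0),(33,0)]⟩,⟨0,[(5,0),(36,
  0)]⟩⟩]⟩) (.I [0,0,-2,-2,1,0,0,-1] (.R ⟨1,false,false,false,[1,0,-1],[0,1],[],(⟨0,[(30,0)]⟩,⟨0,
  [(31,0)]⟩),(⟨0,[(35,0)]⟩,⟨0,[(34,0)]⟩),⟨0,[(19,0)]⟩,.k,.k,.k,.k,(.r (-1) ⟨0,[(0,0)]⟩ ⟨1,[(2,0),(1,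
  0),(13,0),(7,0),(1,0),(0,0)]⟩),.k,⟨true,1,⟨18,[(2,0),(8,6),(4,1),(1,0),(7,0),(14,0),(3,1)]⟩,⟨0,
  [(3,0)]⟩⟩,⟨false,2,⟨58,[(0,41),(1,50),(8,5),(4,8),(11,7),(4,3),(7,29)]⟩,⟨0,[(6,0)]⟩⟩,⟨false,1,⟨3,
  [(2,0),(10,1),(4,0),(7,0),(19,2)]⟩,⟨2,[(0,0),(8,0),(0,0)]⟩⟩,⟨true,1,⟨10,[(2,6),(8,0),(14,3),(1,0),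
  (0,0),(3,1),(14,2)]⟩,⟨1,[(0,0),(5,1),(0,0),(31,0)]⟩⟩,⟨false,1,⟨1,[(2,0),(15,0),(7,0),(19,0)]⟩,⟨0,
  [(5,0)]⟩⟩,⟨false,1,⟨0,[(2,0)]⟩,⟨2,[(0,0),(4,0),(0,2),(4,0),(3,0)]⟩⟩,[.e ⟨false,1,⟨18,[(2,2),(8,1),
  (4,5),(1,2),(7,2),(14,2),(3,5)]⟩,⟨0,[]⟩⟩ ⟨false,1,⟨1,[(0,0),(1,1),(4,0),(31,0)]⟩,⟨5,[(6,3),(4,1),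
  (6,0),(4,0),(0,0)]⟩⟩,.o ⟨false,1,⟨5,[(2,1),(7,1),(14,1),(7,2),(12,0)]⟩,⟨0,[(43,0)]⟩⟩,.o ⟨false,0,
  ⟨0,[(14,0)]⟩,⟨58,[(0,13),(1,16),(8,1),(4,2),(11,41),(4,20),(7,9)]⟩⟩,.a ⟨true,(-1),⟨0,[(6,0)]⟩,⟨0,
  [(28,0),(16,0)]⟩⟩ ⟨false,1,⟨1,[(45,0),(0,0)]⟩,⟨1,[(28,0),(0,0)]⟩⟩ ⟨true,1,⟨1,[(0,0),(1,1),(4,0),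
  (31,0)]⟩,⟨0,[(6,0),(36,0)]⟩⟩]⟩) (.I [0,0,2,2,-1,0,0,1] (.R ⟨1,false,false,false,[1,0,-1],[0,1],[],
  (⟨0,[(31,0)]⟩,⟨0,[(32,0)]⟩),(⟨0,[(36,0)]⟩,⟨0,[(35,0)]⟩),⟨0,[(20,0)]⟩,.k,.k,.k,.k,(.r (-2) ⟨12,[(6,
  4),(5,6),(4,7),(24,3),(3,3)]⟩ ⟨0,[(0,0)]⟩),.k,⟨true,1,⟨18,[(3,0),(8,6),(4,1),(1,0),(7,0),(14,0),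
  (3,1)]⟩,⟨0,[(4,0)]⟩⟩,⟨false,2,⟨1,[(29,1),(4,0),(11,2)]⟩,⟨0,[(7,0)]⟩⟩,⟨false,1,⟨1,[(3,0),(5,0),(9,
  0),(27,0)]⟩,⟨3,[(6,1),(3,0),(0,0),(34,0)]⟩⟩,⟨true,1,⟨10,[(3,6),(8,0),(14,3),(1,0),(0,0),(3,1),(14,
  2)]⟩,⟨0,[(6,0),(0,0),(32,0)]⟩⟩,⟨false,1,⟨1,[(3,0),(15,0),(7,0),(19,0)]⟩,⟨0,[(6,0)]⟩⟩,⟨false,1,⟨0,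
  [(3,0)]⟩,⟨6,[(6,4),(0,5),(0,0),(3,2),(4,0),(8,0)]⟩⟩,[.e ⟨false,1,⟨18,[(3,2),(8,1),(4,5),(1,2),(7,
  2),(14,2),(3,5)]⟩,⟨0,[]⟩⟩ ⟨false,1,⟨0,[(3,0),(2,0),(33,0)]⟩,⟨5,[(7,3),(4,1),(6,0),(4,0),(0,0)]⟩⟩,
  .o ⟨false,1,⟨5,[(3,1),(7,1),(14,1),(7,2),(12,0)]⟩,⟨0,[(44,0)]⟩⟩,.o ⟨false,0,⟨0,[(15,0)]⟩,⟨1,[(29,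
  1),(4,0),(11,0)]⟩⟩,.a ⟨true,(-1),⟨0,[(7,0)]⟩,⟨0,[(29,0),(16,0)]⟩⟩ ⟨false,1,⟨1,[(46,0),(0,0)]⟩,⟨1,
  [(29,0),(0,0)]⟩⟩ ⟨true,1,⟨0,[(3,0),(2,0),(33,0)]⟩,⟨0,[(7,0),(36,0)]⟩⟩]⟩) (.I [0,0,-2,0,1,-2,1]
  (.N [0,2,1] 1 ⟨0,[(2,0)]⟩ ⟨0,[(1,0)]⟩ (.x (-1) ⟨0,[(0,0)]⟩ ⟨1,[(30,0),(0,2),(1,1),(0,3)]⟩)) (.Q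
  [-1,0,0,1,0,0,0,0,-1,0,0,-1] (.p false [0,0,0,0,1] [] (⟨0,[(26,0)]⟩,⟨0,[(25,0)]⟩) .k 0 (⟨0,[]⟩,⟨0,
  []⟩) .k .k) (.R ⟨2,true,false,true,[0,1],[0,0,0,0,1],[0,0,1,1],(⟨0,[]⟩,⟨0,[]⟩),(⟨0,[(27,0)]⟩,⟨0,
  [(26,0)]⟩),⟨0,[]⟩,.k,.k,.k,(.r 0 ⟨5,[(5,0),(1,1),(11,0),(1,0),(9,0),(18,0),(0,1)]⟩ ⟨18,[(5,0),(8,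
  6),(4,1),(1,0),(7,0),(14,0),(3,1)]⟩),.k,.k,⟨true,0,⟨0,[(4,1),(1,0),(2,1),(13,1),(11,5),(7,0),(1,
  0)]⟩,⟨0,[(46,0)]⟩⟩,⟨false,0,⟨0,[(25,0)]⟩,⟨3,[(0,2),(13,0),(9,0),(23,0)]⟩⟩,⟨false,1,⟨27,[(5,5),(8,
  3),(4,5),(1,5),(9,6),(0,0),(16,7)]⟩,⟨0,[]⟩⟩,⟨true,0,⟨0,[(25,0),(20,0)]⟩,⟨0,[(0,0)]⟩⟩,⟨true,0,⟨0,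
  [(47,0)]⟩,⟨0,[(46,0)]⟩⟩,⟨false,0,⟨0,[(25,0)]⟩,⟨3,[(0,2),(13,0),(9,0),(16,1),(7,0)]⟩⟩,[]⟩) (.Q [0,
  0,-1,0,0,0,0,0,1,-1,0,1] (.p true [0,0,0,0,1] [1] (⟨0,[(27,0)]⟩,⟨0,[(26,0)]⟩) .k 1 (⟨0,[]⟩,⟨0,
  []⟩) .k .k) (.Q [0,0,0,0,0,-1,0,0,0,1,0,-1] (.ed true [0,1,0,0,1] .k) (.S ⟨1,2,[],[1,0,0,0,-1],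
  [-1,1],(⟨0,[(28,0)]⟩,⟨0,[(29,0)]⟩),⟨0,[(0,0)]⟩,.k,(.r (-1) ⟨125,[(7,5),(8,45),(4,5),(1,2),(13,2),
  (1,2),(2,4),(7,16),(2,21)]⟩ ⟨11,[(7,1),(1,3),(11,1),(1,1),(9,2),(0,0),(18,3)]⟩),⟨true,0,⟨0,[(53,
  0)]⟩,⟨0,[]⟩⟩,⟨false,0,⟨3,[(1,1),(0,0),(5,0),(18,0),(10,0)]⟩,⟨0,[(6,0),(4,0),(14,0),(9,0),(0,1),(5,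
  0)]⟩⟩,⟨false,0,⟨0,[(49,0)]⟩,⟨5,[(16,1),(16,0),(0,0),(8,1),(7,1)]⟩⟩,⟨true,(-1),⟨1,[(1,1),(3,0),(6,
  0),(31,0)]⟩,⟨23,[(4,5),(6,8),(1,5),(12,23),(1,7),(0,7),(3,2),(3,6),(1,6),(11,2)]⟩⟩,[.a ⟨true,0,⟨0,
  [(53,0)]⟩,⟨0,[(6,0),(4,0),(24,0),(0,1),(5,0)]⟩⟩ ⟨true,0,⟨0,[(53,0)]⟩,⟨0,[(43,0)]⟩⟩ ⟨false,0,⟨7,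
  [(1,5),(0,0),(5,0),(18,0),(10,0),(7,3)]⟩,⟨0,[(6,0),(4,0),(14,0),(9,0),(0,1),(5,0)]⟩⟩,.fo,.o
  ⟨false,1,⟨0,[(26,0)]⟩,⟨11,[(1,5),(0,2),(5,2),(18,2),(10,1),(6,0)]⟩⟩,.o ⟨false,1,⟨1,[(26,1),(6,0),
  (0,0)]⟩,⟨0,[(1,0)]⟩⟩]⟩) (.R ⟨0,false,false,true,[1,0,0,0,-1],[1,-1],[0,1,-1,-1],(⟨0,[(28,0)]⟩,⟨0,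
  [(29,0)]⟩),(⟨0,[(39,0)]⟩,⟨0,[(40,0)]⟩),⟨0,[(0,0)]⟩,.k,.k,(.r (-1) ⟨125,[(7,5),(8,45),(4,5),(1,2),
  (13,2),(1,2),(2,4),(7,16),(2,21)]⟩ ⟨11,[(7,1),(1,3),(11,1),(1,1),(9,2),(0,0),(18,3)]⟩),(.r 0 ⟨5,
  [(7,0),(1,1),(11,0),(1,0),(9,0),(18,0),(0,1)]⟩ ⟨18,[(7,0),(8,6),(4,1),(1,0),(7,0),(14,0),(3,1)]⟩),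
  .k,.k,⟨false,1,⟨18,[(7,2),(8,1),(4,5),(1,2),(7,2),(14,2),(3,5)]⟩,⟨0,[]⟩⟩,⟨true,(-1),⟨0,[(1,0),(9,
  0),(21,0)]⟩,⟨0,[(26,0)]⟩⟩,⟨false,1,⟨18,[(7,0),(8,6),(4,1),(1,0),(7,0),(14,0),(3,1)]⟩,⟨1,[(9,0),
  (41,0)]⟩⟩,⟨true,(-1),⟨1,[(1,1),(9,0),(0,0),(0,0),(14,0),(0,0)]⟩,⟨0,[(26,0),(22,0)]⟩⟩,⟨false,0,⟨0,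
  []⟩,⟨0,[]⟩⟩,⟨false,0,⟨0,[]⟩,⟨0,[]⟩⟩,[.o ⟨false,0,⟨0,[(48,0)]⟩,⟨5,[(7,1),(7,1),(14,1),(7,2),(12,
  0)]⟩⟩,.a ⟨true,0,⟨7,[(4,1),(6,2),(1,1),(14,4),(0,4),(3,0),(17,0)]⟩,⟨0,[(49,0)]⟩⟩ ⟨true,1,⟨18,[(7,
  0),(8,6),(4,1),(1,0),(7,0),(14,0),(3,1)]⟩,⟨0,[(8,0)]⟩⟩ ⟨false,0,⟨7,[(1,7),(2,1),(6,2),(1,1),(14,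
  4),(0,4),(3,0),(17,0)]⟩,⟨0,[(26,0),(22,0)]⟩⟩,.o ⟨false,1,⟨0,[(26,0)]⟩,⟨11,[(1,5),(0,2),(5,2),(18,
  2),(10,1),(6,0)]⟩⟩,.o ⟨false,1,⟨1,[(26,1),(6,0),(0,0)]⟩,⟨0,[(1,0)]⟩⟩]⟩)) (.Q [0,0,1,0,-1,0,0,0,1,
  0,0,1] (.p true [0,0,0,0,1] [] (⟨0,[(28,0)]⟩,⟨0,[(27,0)]⟩) .k 0 (⟨0,[]⟩,⟨0,[]⟩) .k .k) (.Q [-1,0,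
  0,1,1,0,1,1,-1,0,1,-1] (.p true [0,0,1] [0,0,0,0,1] (⟨0,[(36,0)]⟩,⟨0,[(35,0)]⟩) .k 2 (⟨0,[(29,
  0)]⟩,⟨0,[(28,0)]⟩) .k (.r (-1) ⟨19,[(5,3),(1,7),(8,7),(6,7),(7,7),(1,0),(0,0),(17,5)]⟩ ⟨2,[(4,0),
  (9,0),(0,0)]⟩)) (.K ⟨0,[0,0,0,0,1],(-1),(-1),(⟨0,[(30,0)]⟩,⟨0,[(29,0)]⟩),.k,(.r (-1) ⟨50,[(0,1),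
  (7,1),(8,18),(4,3),(1,1),(3,1),(18,2),(3,4)]⟩ ⟨15,[(0,1),(7,0),(1,5),(11,2),(1,0),(3,1),(6,0),(17,
  2),(0,3)]⟩),(.r 0 ⟨15,[(0,3),(9,5),(11,1),(5,3),(4,1),(0,0),(0,2)]⟩ ⟨137,[(0,2),(7,2),(8,48),(4,
  5),(1,2),(3,2),(14,7),(7,19),(2,24)]⟩),.k,.k,[⟨0,[(0,0),(10,0)]⟩,⟨0,[(1,0)]⟩,⟨0,[(27,0),(26,0)]⟩,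
  ⟨0,[(1,0),(43,0)]⟩]⟩) (.Q [0,0,0,0,1,0,1,0,-1,0,1,-1] (.p true [0,0,1] [0,0,0,0,1] (⟨0,[(37,0)]⟩,
  ⟨0,[(36,0)]⟩) .k 2 (⟨0,[(30,0)]⟩,⟨0,[(29,0)]⟩) .k (.r (-1) ⟨19,[(6,3),(1,7),(8,7),(6,7),(7,7),(1,
  0),(0,0),(17,5)]⟩ ⟨2,[(5,0),(9,0),(0,0)]⟩)) (.K ⟨0,[0,0,0,0,1],(-1),(-1),(⟨0,[(31,0)]⟩,⟨0,[(30,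
  0)]⟩),.k,(.r (-1) ⟨18,[(9,0),(8,6),(4,1),(1,0),(7,0),(14,0),(3,1)]⟩ ⟨5,[(9,0),(1,1),(11,0),(1,0),
  (9,0),(18,0),(0,1)]⟩),(.r 0 ⟨11,[(9,1),(1,3),(11,1),(1,1),(9,2),(0,0),(18,3)]⟩ ⟨125,[(9,5),(8,45),
  (4,5),(1,2),(13,2),(1,2),(2,4),(7,16),(2,21)]⟩),.k,.k,[⟨0,[(0,0)]⟩,⟨0,[(2,0)]⟩,⟨0,[(28,0),(26,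
  0)]⟩,⟨0,[(2,0),(43,0)]⟩]⟩) (.Q [1,1,0,1,-1,0,0,0,1,-1,0,1] (.p true [0,0,0,0,1] [1] (⟨0,[(31,0)]⟩,
  ⟨0,[(30,0)]⟩) .k 1 (⟨0,[]⟩,⟨0,[]⟩) .k .k) (.R ⟨2,true,false,false,[0,1],[1,0,0,0,-1],[0,0,1,1],
  (⟨0,[]⟩,⟨0,[]⟩),(⟨0,[(31,0)]⟩,⟨0,[(32,0)]⟩),⟨0,[]⟩,.k,.k,.k,(.r 0 ⟨11,[(10,1),(1,3),(11,1),(1,1),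
  (9,2),(0,0),(18,3)]⟩ ⟨125,[(10,5),(8,45),(4,5),(1,2),(13,2),(1,2),(2,4),(7,16),(2,21)]⟩),.k,.k,
  ⟨false,0,⟨0,[(52,0)]⟩,⟨18,[(10,0),(8,6),(4,1),(1,0),(7,0),(14,0),(3,1)]⟩⟩,⟨true,0,⟨0,[(4,0)]⟩,⟨3,
  [(0,1),(4,1),(42,0),(5,0)]⟩⟩,⟨false,1,⟨27,[(10,5),(8,3),(4,5),(1,5),(9,6),(0,0),(16,7)]⟩,⟨0,[]⟩⟩,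
  ⟨true,1,⟨125,[(4,125),(5,5),(8,45),(4,5),(1,2),(13,2),(1,2),(2,4),(7,16),(2,21)]⟩,⟨0,[(0,0)]⟩⟩,
  ⟨true,0,⟨0,[(52,0)]⟩,⟨0,[(51,0)]⟩⟩,⟨false,1,⟨1,[(4,1),(48,0),(0,0)]⟩,⟨3,[(0,1),(4,1),(35,0),(12,
  0)]⟩⟩,[]⟩) (.K ⟨0,[1,0,0,0,-1],0,0,(⟨0,[(31,0)]⟩,⟨0,[(32,0)]⟩),.k,(.r (-1) ⟨125,[(10,5),(8,45),(4,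
  5),(1,2),(13,2),(1,2),(2,4),(7,16),(2,21)]⟩ ⟨11,[(10,1),(1,3),(11,1),(1,1),(9,2),(0,0),(18,3)]⟩),
  (.r 0 ⟨5,[(10,0),(1,1),(11,0),(1,0),(9,0),(18,0),(0,1)]⟩ ⟨18,[(10,0),(8,6),(4,1),(1,0),(7,0),(14,
  0),(3,1)]⟩),.k,.k,[⟨1,[(2,0),(0,0),(3,0),(2,1),(5,0),(0,0)]⟩,⟨0,[(4,0)]⟩,⟨1,[(3,0),(26,0),(10,0),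
  (7,0)]⟩,⟨1,[(0,1),(7,0),(6,0),(31,2)]⟩]⟩)))) (.Q [1,-1,0,2,0,0,-1,-1,1,0,-1,1] (.p false [0,0,1]
  [0,0,0,0,1] (⟨0,[(36,0)]⟩,⟨0,[(35,0)]⟩) .k 2 (⟨0,[(29,0)]⟩,⟨0,[(28,0)]⟩) .k (.r (-1) ⟨19,[(5,3),
  (1,7),(8,7),(6,7),(7,7),(1,0),(0,0),(17,5)]⟩ ⟨2,[(4,0),(9,0),(0,0)]⟩)) (.Q [-1,0,0,0,0,0,0,0,-1,1,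
  0,-1] (.p false [0,0,0,0,1] [1] (⟨0,[(30,0)]⟩,⟨0,[(29,0)]⟩) .k 1 (⟨0,[]⟩,⟨0,[]⟩) .k .k) (.Q [0,0,
  0,0,0,-1,0,0,0,0,0,1] (.ed false [1,-1,0,0,1] .k) (.S ⟨1,0,[1,1],[0,0,0,0,1],[],(⟨0,[(32,0)]⟩,⟨0,
  [(31,0)]⟩),⟨0,[(0,0)]⟩,.k,(.r (-1) ⟨13,[(2,0),(1,0),(5,0),(8,5),(29,0),(3,0)]⟩ ⟨5,[(10,0),(1,1),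
  (11,0),(1,0),(9,0),(18,0),(0,1)]⟩),⟨false,1,⟨13,[(4,0),(5,2),(8,1),(4,2),(1,1),(3,0),(5,0),(8,3),
  (9,1)]⟩,⟨0,[]⟩⟩,⟨true,0,⟨0,[(56,0)]⟩,⟨0,[]⟩⟩,⟨true,0,⟨0,[(9,1),(1,0),(2,1),(13,1),(11,5),(7,0)]⟩,
  ⟨0,[(51,0)]⟩⟩,⟨false,0,⟨0,[(52,0)]⟩,⟨5,[(19,1),(16,0),(0,0),(8,1),(7,1)]⟩⟩,[.e ⟨false,1,⟨13,[(2,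
  2),(1,2),(5,2),(8,3),(29,2),(3,2)]⟩,⟨0,[]⟩⟩ ⟨false,0,⟨0,[(47,0)]⟩,⟨27,[(10,5),(8,3),(4,5),(1,5),
  (9,6),(0,0),(16,7)]⟩⟩,.a ⟨true,0,⟨0,[(30,0)]⟩,⟨0,[(1,0)]⟩⟩ ⟨false,1,⟨1,[(53,0),(0,0)]⟩,⟨0,[(56,
  0)]⟩⟩ ⟨true,0,⟨0,[]⟩,⟨1,[(36,0),(0,0)]⟩⟩,.e ⟨false,1,⟨27,[(10,5),(8,3),(4,5),(1,5),(9,6),(0,0),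
  (16,7)]⟩,⟨0,[]⟩⟩ ⟨false,0,⟨0,[]⟩,⟨27,[(10,5),(8,3),(4,5),(1,5),(9,6),(0,0),(16,7)]⟩⟩,.o ⟨false,0,
  ⟨5,[(5,2),(5,2),(18,2),(10,1),(6,0)]⟩,⟨0,[(3,0)]⟩⟩]⟩) (.Q [-1,0,0,-1,0,0,0,0,-1,1,0,-1] (.p false
  [0,0,0,0,1] [1] (⟨0,[(32,0)]⟩,⟨0,[(31,0)]⟩) .k 1 (⟨0,[]⟩,⟨0,[]⟩) .k .k) (.S ⟨1,0,[-1,1],[1,0,0,0,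
  -1],[1,1,1],(⟨0,[(32,0)]⟩,⟨0,[(33,0)]⟩),⟨22,[(1,0),(8,7),(1,1),(2,8),(0,0),(0,0),(11,7),(2,21),(9,
  3),(4,1)]⟩,.k,(.r (-1) ⟨125,[(11,5),(8,45),(4,5),(1,2),(13,2),(1,2),(2,4),(7,16),(2,21)]⟩ ⟨7,[(3,
  0),(7,0),(1,1),(13,0),(2,0),(6,2),(0,0),(18,1)]⟩),⟨false,0,⟨1,[(37,0),(0,0)]⟩,⟨1,[(46,0),(7,0)]⟩⟩,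
  ⟨true,0,⟨0,[(57,0)]⟩,⟨0,[]⟩⟩,⟨true,(-1),⟨1,[(9,0),(6,0),(31,0)]⟩,⟨125,[(11,5),(8,45),(4,5),(1,2),
  (13,2),(1,2),(2,4),(7,16),(2,21)]⟩⟩,⟨false,0,⟨0,[(53,0)]⟩,⟨5,[(20,1),(16,0),(0,0),(8,1),(7,1)]⟩⟩,
  [.o ⟨false,0,⟨3,[(0,1),(1,1),(6,0),(6,0),(25,1),(5,2)]⟩,⟨1,[(31,1),(10,0),(12,0)]⟩⟩,.e ⟨false,0,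
  ⟨0,[]⟩,⟨13,[(3,2),(1,2),(5,2),(8,3),(29,2),(3,2)]⟩⟩ ⟨false,1,⟨78,[(11,17),(8,11),(4,17),(1,8),(13,
  8),(1,8),(6,16),(3,18),(2,1)]⟩,⟨0,[]⟩⟩,.a ⟨true,0,⟨0,[(2,0)]⟩,⟨0,[(31,0)]⟩⟩ ⟨false,0,⟨1,[(37,0),
  (0,0)]⟩,⟨1,[(54,0),(0,0)]⟩⟩ ⟨true,0,⟨0,[(57,0)]⟩,⟨0,[]⟩⟩,.o ⟨false,0,⟨1,[(0,0),(1,0),(9,0),(29,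
  0)]⟩,⟨1,[(31,1),(10,0),(11,0)]⟩⟩]⟩) (.R ⟨2,true,false,false,[0,1],[1,0,0,0,-1],[],(⟨0,[]⟩,⟨0,[]⟩),
  (⟨0,[(32,0)]⟩,⟨0,[(33,0)]⟩),⟨0,[]⟩,.k,.k,.k,(.r 0 ⟨7,[(3,0),(7,0),(1,1),(13,0),(2,0),(6,2),(0,0),
  (18,1)]⟩ ⟨125,[(11,5),(8,45),(4,5),(1,2),(13,2),(1,2),(2,4),(7,16),(2,21)]⟩),.k,.k,⟨true,0,⟨0,[]⟩,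
  ⟨1,[(37,0),(0,0)]⟩⟩,⟨false,0,⟨0,[(2,0)]⟩,⟨10,[(0,7),(2,0),(7,0),(8,3),(10,1),(17,0),(0,0),(3,
  0)]⟩⟩,⟨true,1,⟨13,[(3,0),(1,0),(5,0),(8,5),(29,0),(3,0)]⟩,⟨1,[(9,0),(6,0),(31,0)]⟩⟩,⟨false,1,⟨2,
  [(2,1),(2,0),(14,0),(26,0),(7,0)]⟩,⟨0,[(0,0)]⟩⟩,⟨false,1,⟨1,[(54,0),(0,0)]⟩,⟨1,[(37,0),(0,0)]⟩⟩,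
  ⟨true,0,⟨0,[(2,0)]⟩,⟨0,[(0,0),(51,0)]⟩⟩,[]⟩))) (.Q [-1,1,0,1,0,0,0,0,-1,0,0,-1] (.p false [0,0,0,
  0,1] [] (⟨0,[(31,0)]⟩,⟨0,[(30,0)]⟩) .k 0 (⟨0,[]⟩,⟨0,[]⟩) .k .k) (.R ⟨2,true,false,false,[0,1],[0,
  0,0,0,1],[1,1],(⟨0,[]⟩,⟨0,[]⟩),(⟨0,[(32,0)]⟩,⟨0,[(31,0)]⟩),⟨0,[]⟩,.k,.k,.k,(.r 0 ⟨5,[(10,0),(1,1),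
  (11,0),(1,0),(9,0),(18,0),(0,1)]⟩ ⟨13,[(2,0),(1,0),(5,0),(8,5),(29,0),(3,0)]⟩),.k,.k,⟨true,0,⟨0,
  [(56,0)]⟩,⟨0,[(50,0)]⟩⟩,⟨false,0,⟨0,[(30,0)]⟩,⟨0,[(3,0)]⟩⟩,⟨false,1,⟨13,[(2,0),(1,0),(5,0),(8,5),
  (29,0),(3,0)]⟩,⟨1,[(12,0),(41,0)]⟩⟩,⟨true,0,⟨0,[(5,0)]⟩,⟨0,[(0,0)]⟩⟩,⟨true,0,⟨0,[(47,0)]⟩,⟨1,[(36,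
  0),(0,0)]⟩⟩,⟨false,0,⟨0,[(1,0),(7,0),(4,0),(24,0),(0,1),(5,0)]⟩,⟨12,[(0,2),(3,1),(14,0),(9,7),(15,
  1),(2,0),(7,0)]⟩⟩,[]⟩) (.R ⟨2,true,false,true,[0,1],[0,0,0,0,1],[1,1,1],(⟨0,[]⟩,⟨0,[]⟩),(⟨0,[(32,
  0)]⟩,⟨0,[(31,0)]⟩),⟨0,[]⟩,.k,.k,.k,(.r 0 ⟨5,[(10,0),(1,1),(11,0),(1,0),(9,0),(18,0),(0,1)]⟩ ⟨13,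
  [(2,0),(1,0),(5,0),(8,5),(29,0),(3,0)]⟩),.k,.k,⟨true,0,⟨1,[(36,0),(0,0)]⟩,⟨0,[]⟩⟩,⟨false,0,⟨0,
  [(30,0)]⟩,⟨0,[(3,0)]⟩⟩,⟨true,0,⟨0,[(51,0)]⟩,⟨0,[(52,0)]⟩⟩,⟨false,0,⟨0,[(5,0)]⟩,⟨1,[(3,1),(8,0),
  (32,0)]⟩⟩,⟨false,0,⟨0,[]⟩,⟨27,[(10,5),(8,3),(4,5),(1,5),(9,6),(0,0),(16,7)]⟩⟩,⟨true,(-1),⟨1,[(0,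
  1),(7,0),(6,0),(31,2)]⟩,⟨8,[(3,1),(0,1),(24,4),(15,0),(2,0),(7,1)]⟩⟩,[]⟩))) (.Q [0,0,0,0,0,-1,0,0,
  0,0,0,1] (.ed false [1,-1,0,0,1] .k) (.S ⟨1,0,[1,1],[0,0,0,0,1],[],(⟨0,[(31,0)]⟩,⟨0,[(30,0)]⟩),⟨0,
  [(0,0)]⟩,.k,(.r (-1) ⟨18,[(9,0),(8,6),(4,1),(1,0),(7,0),(14,0),(3,1)]⟩ ⟨5,[(9,0),(1,1),(11,0),(1,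
  0),(9,0),(18,0),(0,1)]⟩),⟨false,1,⟨13,[(3,0),(5,2),(8,1),(4,2),(1,1),(3,0),(5,0),(8,3),(9,1)]⟩,⟨0,
  []⟩⟩,⟨true,0,⟨0,[(55,0)]⟩,⟨0,[]⟩⟩,⟨true,0,⟨0,[(8,1),(1,0),(2,1),(13,1),(11,5),(7,0)]⟩,⟨0,[(50,
  0)]⟩⟩,⟨false,0,⟨0,[(51,0)]⟩,⟨5,[(18,1),(16,0),(0,0),(8,1),(7,1)]⟩⟩,[.e ⟨false,1,⟨18,[(9,2),(8,1),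
  (4,5),(1,2),(7,2),(14,2),(3,5)]⟩,⟨0,[]⟩⟩ ⟨false,0,⟨0,[(46,0)]⟩,⟨27,[(9,5),(8,3),(4,5),(1,5),(9,6),
  (0,0),(16,7)]⟩⟩,.a ⟨true,0,⟨0,[(29,0)]⟩,⟨4,[(1,3),(0,0),(5,0),(2,1),(5,3),(14,4),(5,0),(0,1)]⟩⟩
  ⟨false,1,⟨1,[(52,0),(0,0)]⟩,⟨0,[(55,0)]⟩⟩ ⟨true,0,⟨0,[]⟩,⟨1,[(35,0),(0,0)]⟩⟩,.e ⟨false,1,⟨27,[(9,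
  5),(8,3),(4,5),(1,5),(9,6),(0,0),(16,7)]⟩,⟨0,[]⟩⟩ ⟨false,0,⟨0,[]⟩,⟨27,[(9,5),(8,3),(4,5),(1,5),(9,
  6),(0,0),(16,7)]⟩⟩,.o ⟨false,0,⟨5,[(4,2),(5,2),(18,2),(10,1),(6,0)]⟩,⟨0,[(2,0)]⟩⟩]⟩) (.S ⟨1,0,[-1,
  1],[1,0,0,0,-1],[1,1,1],(⟨0,[(30,0)]⟩,⟨0,[(31,0)]⟩),⟨22,[(0,0),(7,7),(1,1),(2,8),(0,0),(0,0),(11,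
  7),(2,21),(9,3),(4,1)]⟩,.k,(.r (-1) ⟨125,[(9,5),(8,45),(4,5),(1,2),(13,2),(1,2),(2,4),(7,16),(2,
  21)]⟩ ⟨11,[(9,1),(1,3),(11,1),(1,1),(9,2),(0,0),(18,3)]⟩),⟨false,0,⟨1,[(35,0),(0,0)]⟩,⟨1,[(44,0),
  (7,0)]⟩⟩,⟨true,0,⟨0,[(55,0)]⟩,⟨0,[]⟩⟩,⟨true,(-1),⟨1,[(7,0),(6,0),(31,0)]⟩,⟨125,[(9,5),(8,45),(4,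
  5),(1,2),(13,2),(1,2),(2,4),(7,16),(2,21)]⟩⟩,⟨false,0,⟨0,[(51,0)]⟩,⟨5,[(18,1),(16,0),(0,0),(8,1),
  (7,1)]⟩⟩,[.o ⟨false,0,⟨30,[(1,11),(0,18),(4,3),(8,15),(4,9),(10,1),(13,2),(0,0)]⟩,⟨1,[(29,1),(10,
  0),(12,0)]⟩⟩,.e ⟨false,0,⟨0,[]⟩,⟨18,[(9,2),(8,1),(4,5),(1,2),(7,2),(14,2),(3,5)]⟩⟩ ⟨false,1,⟨78,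
  [(9,17),(8,11),(4,17),(1,8),(13,8),(1,8),(6,16),(3,18),(2,1)]⟩,⟨0,[]⟩⟩,.a ⟨true,0,⟨4,[(1,3),(0,0),
  (5,0),(2,1),(5,3),(14,4),(5,0),(0,1)]⟩,⟨0,[(29,0)]⟩⟩ ⟨false,0,⟨1,[(35,0),(0,0)]⟩,⟨1,[(52,0),(0,
  0)]⟩⟩ ⟨true,0,⟨0,[(55,0)]⟩,⟨0,[]⟩⟩,.o ⟨false,0,⟨4,[(1,1),(0,2),(7,1),(2,1),(3,1),(22,0)]⟩,⟨1,[(29,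
  1),(10,0),(11,0)]⟩⟩]⟩)))))))))) (.Q [-1,0,0,0,1,0,0,0,-1,0,0,-1] (.p false [0,0,0,0,1] [] (⟨0,
  [(22,0)]⟩,⟨0,[(21,0)]⟩) .k 0 (⟨0,[]⟩,⟨0,[]⟩) .k .k) (.Q [0,0,1,0,-1,0,0,0,1,0,0,1] (.p true [0,0,
  0,0,1] [] (⟨0,[(23,0)]⟩,⟨0,[(22,0)]⟩) .k 0 (⟨0,[]⟩,⟨0,[]⟩) .k .k) (.Q [0,0,0,0,1,0,1,0,-1,0,1,-1]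
  (.p true [0,0,1] [0,0,0,0,1] (⟨0,[(31,0)]⟩,⟨0,[(30,0)]⟩) .k 2 (⟨0,[(24,0)]⟩,⟨0,[(23,0)]⟩) .k (.r
  (-1) ⟨1,[(1,0),(15,1),(4,0),(23,0)]⟩ ⟨3,[(5,1),(3,0),(0,0),(34,0)]⟩)) (.K ⟨0,[0,0,0,0,1],(-1),
  (-1),(⟨0,[(25,0)]⟩,⟨0,[(24,0)]⟩),.k,(.r (-1) ⟨5,[(12,1),(9,0),(0,0),(22,0)]⟩ ⟨9,[(2,3),(2,4),(17,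
  3),(14,0),(10,1)]⟩),(.r 0 ⟨1,[(5,0),(16,0),(0,0)]⟩ ⟨29,[(2,2),(9,9),(10,2),(14,1),(7,4),(2,3)]⟩),
  .k,.k,[⟨0,[(0,0)]⟩,⟨0,[(1,0)]⟩,⟨0,[(22,0),(26,0)]⟩,⟨0,[(1,0),(38,0)]⟩]⟩) (.Q [0,0,0,0,0,-1,0,0,0,
  0,0,1] (.ed false [1,-1,0,0,1] .k) (.R ⟨1,false,false,false,[0,0,0,0,1],[0,1],[],(⟨0,[(26,0)]⟩,⟨0,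
  [(25,0)]⟩),(⟨0,[(37,0)]⟩,⟨0,[(36,0)]⟩),⟨0,[(0,0)]⟩,.k,.k,(.r (-1) ⟨5,[(13,1),(9,0),(0,0),(22,0)]⟩
  ⟨9,[(3,3),(2,4),(17,3),(14,0),(10,1)]⟩),(.r (-1) ⟨5,[(13,1),(9,0),(0,0),(22,0)]⟩ ⟨9,[(3,3),(2,4),
  (17,3),(14,0),(10,1)]⟩),(.r (-2) ⟨2,[(13,1),(9,0),(0,0),(22,0)]⟩ ⟨0,[(5,1),(33,0),(1,1)]⟩),.k,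
  ⟨true,1,⟨5,[(13,1),(9,0),(0,0),(22,0)]⟩,⟨0,[(5,0)]⟩⟩,⟨false,2,⟨0,[(23,0),(23,0)]⟩,⟨0,[(2,0)]⟩⟩,
  ⟨false,1,⟨1,[(3,0),(20,0),(23,0)]⟩,⟨0,[]⟩⟩,⟨true,1,⟨0,[(23,0),(22,0)]⟩,⟨2,[(1,0),(0,1),(4,0),(2,
  0),(30,1)]⟩⟩,⟨true,0,⟨0,[(5,0),(33,0),(1,1)]⟩,⟨0,[(45,0)]⟩⟩,⟨true,1,⟨0,[(23,0),(22,1)]⟩,⟨2,[(1,1),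
  (0,0),(4,1),(2,1),(30,0)]⟩⟩,[.a ⟨true,0,⟨0,[(46,0)]⟩,⟨3,[(4,0),(5,0),(14,2),(0,2),(21,0)]⟩⟩
  ⟨false,1,⟨1,[(23,0),(0,0),(22,0)]⟩,⟨0,[]⟩⟩ ⟨true,1,⟨0,[(23,0),(22,0)]⟩,⟨2,[(1,0),(0,1),(4,0),(2,
  0),(29,0)]⟩⟩,.o ⟨false,1,⟨1,[(35,0),(10,1),(1,0)]⟩,⟨0,[(45,0)]⟩⟩,.o ⟨false,0,⟨1,[(2,1),(32,0),(11,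
  0)]⟩,⟨0,[(23,0)]⟩⟩,.e ⟨false,1,⟨1,[(47,0),(0,0)]⟩,⟨1,[(30,0),(0,0)]⟩⟩ ⟨false,2,⟨1,[(23,1),(22,1),
  (0,0),(0,0)]⟩,⟨2,[(1,0),(0,1),(4,0),(2,0),(29,0)]⟩⟩]⟩) (.R ⟨0,false,false,false,[0,0,0,0,1],[0,1],
  [],(⟨0,[(26,0)]⟩,⟨0,[(25,0)]⟩),(⟨0,[(37,0)]⟩,⟨0,[(36,0)]⟩),⟨0,[(0,0)]⟩,.k,.k,(.r (-1) ⟨5,[(13,1),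
  (9,0),(0,0),(22,0)]⟩ ⟨9,[(3,3),(2,4),(17,3),(14,0),(10,1)]⟩),(.r (-1) ⟨5,[(13,1),(9,0),(0,0),(22,
  0)]⟩ ⟨9,[(3,3),(2,4),(17,3),(14,0),(10,1)]⟩),.k,.k,⟨true,1,⟨5,[(13,1),(9,0),(0,0),(22,0)]⟩,⟨0,[(5,
  0)]⟩⟩,⟨false,2,⟨0,[(23,0),(23,0)]⟩,⟨0,[(2,0)]⟩⟩,⟨false,1,⟨1,[(3,0),(20,0),(23,0)]⟩,⟨0,[]⟩⟩,⟨true,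
  1,⟨0,[(23,0),(22,0)]⟩,⟨2,[(1,0),(0,1),(4,0),(2,0),(30,1)]⟩⟩,⟨false,0,⟨0,[]⟩,⟨0,[]⟩⟩,⟨false,0,⟨0,
  []⟩,⟨0,[]⟩⟩,[.a ⟨true,0,⟨0,[(46,0)]⟩,⟨3,[(4,0),(5,0),(14,2),(0,2),(21,0)]⟩⟩ ⟨false,1,⟨1,[(23,0),
  (0,0),(22,0)]⟩,⟨0,[]⟩⟩ ⟨true,1,⟨0,[(23,0),(22,0)]⟩,⟨2,[(1,0),(0,1),(4,0),(2,0),(29,0)]⟩⟩,.o
  ⟨false,1,⟨1,[(35,0),(10,1),(1,0)]⟩,⟨0,[(45,0)]⟩⟩,.o ⟨false,0,⟨1,[(2,1),(32,0),(11,0)]⟩,⟨0,[(23,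
  0)]⟩⟩,.e ⟨false,1,⟨1,[(47,0),(0,0)]⟩,⟨1,[(30,0),(0,0)]⟩⟩ ⟨false,2,⟨1,[(23,1),(22,1),(0,0),(0,0)]⟩,
  ⟨2,[(1,0),(0,1),(4,0),(2,0),(29,0)]⟩⟩]⟩))) (.Q [-1,0,0,1,0,0,0,0,-1,0,0,-1] (.p false [0,0,0,0,1]
  [] (⟨0,[(24,0)]⟩,⟨0,[(23,0)]⟩) .k 0 (⟨0,[]⟩,⟨0,[]⟩) .k .k) (.R ⟨2,true,false,true,[0,1],[0,0,0,0,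
  1],[2,1],(⟨0,[]⟩,⟨0,[]⟩),(⟨0,[(25,0)]⟩,⟨0,[(24,0)]⟩),⟨0,[]⟩,.k,.k,.k,(.r 0 ⟨9,[(2,3),(2,4),(17,3),
  (14,0),(10,1)]⟩ ⟨5,[(12,1),(9,0),(0,0),(22,0)]⟩),.k,.k,⟨true,0,⟨0,[]⟩,⟨1,[(29,0),(0,0)]⟩⟩,⟨false,
  0,⟨0,[(23,0)]⟩,⟨0,[(1,0)]⟩⟩,⟨false,1,⟨5,[(12,1),(9,0),(0,0),(22,0)]⟩,⟨0,[(4,0),(33,0),(1,0)]⟩⟩,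
  ⟨true,0,⟨0,[(23,0),(20,0)]⟩,⟨0,[(0,0)]⟩⟩,⟨true,0,⟨0,[(40,0)]⟩,⟨0,[(48,0)]⟩⟩,⟨false,0,⟨0,[(23,0)]⟩,
  ⟨3,[(0,2),(11,0),(9,0),(16,1),(7,0)]⟩⟩,[]⟩) (.Q [0,0,0,0,0,1,0,0,0,-1,0,1] (.ed false [0,1,0,0,1]
  .k) (.Q [-1,0,0,0,0,0,0,0,-1,1,0,-1] (.p false [0,0,0,0,1] [1] (⟨0,[(26,0)]⟩,⟨0,[(25,0)]⟩) .k 1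
  (⟨0,[]⟩,⟨0,[]⟩) .k .k) (.S ⟨1,0,[1,1],[0,0,0,0,1],[],(⟨0,[(27,0)]⟩,⟨0,[(26,0)]⟩),⟨0,[(1,0),(20,0),
  (0,0)]⟩,.k,(.r (-1) ⟨5,[(14,1),(9,0),(0,0),(22,0)]⟩ ⟨9,[(4,3),(2,4),(17,3),(14,0),(10,1)]⟩),
  ⟨false,1,⟨1,[(4,0),(20,0),(23,0)]⟩,⟨0,[]⟩⟩,⟨true,0,⟨0,[(51,0)]⟩,⟨0,[]⟩⟩,⟨true,0,⟨0,[(6,0),(33,0),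
  (1,1)]⟩,⟨0,[(46,0)]⟩⟩,⟨false,0,⟨0,[(47,0)]⟩,⟨5,[(14,1),(16,0),(0,0),(8,1),(7,1)]⟩⟩,[.o ⟨false,0,
  ⟨1,[(2,0),(3,0),(18,0),(10,0),(5,1)]⟩,⟨1,[(0,1),(35,0),(12,0)]⟩⟩,.a ⟨true,0,⟨0,[(25,0)]⟩,⟨0,[(0,
  0)]⟩⟩ ⟨false,1,⟨1,[(48,0),(0,0)]⟩,⟨0,[(51,0)]⟩⟩ ⟨true,0,⟨0,[]⟩,⟨1,[(31,0),(0,0)]⟩⟩,.e ⟨false,1,⟨1,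
  [(24,0),(0,0),(23,0)]⟩,⟨0,[]⟩⟩ ⟨false,0,⟨0,[]⟩,⟨1,[(24,0),(0,0),(23,0)]⟩⟩,.o ⟨false,0,⟨5,[(2,2),
  (3,2),(18,2),(10,1),(6,0)]⟩,⟨0,[(3,0)]⟩⟩]⟩) (.Q [0,0,0,0,0,0,0,0,1,-1,0,1] (.p true [0,0,0,0,1]
  [1] (⟨0,[(27,0)]⟩,⟨0,[(26,0)]⟩) .k 1 (⟨0,[]⟩,⟨0,[]⟩) .k .k) (.R ⟨0,false,false,false,[1,0,0,0,-1],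
  [0,1],[-1],(⟨0,[(27,0)]⟩,⟨0,[(28,0)]⟩),(⟨0,[(39,0)]⟩,⟨0,[(38,0)]⟩),⟨0,[(2,0)]⟩,.k,.k,(.r (-1) ⟨29,
  [(5,2),(9,9),(10,2),(14,1),(7,4),(2,3)]⟩ ⟨1,[(8,0),(16,0),(0,0)]⟩),(.r (-1) ⟨29,[(5,2),(9,9),(10,
  2),(14,1),(7,4),(2,3)]⟩ ⟨1,[(8,0),(16,0),(0,0)]⟩),.k,.k,⟨true,1,⟨29,[(5,2),(9,9),(10,2),(14,1),(7,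
  4),(2,3)]⟩,⟨0,[(7,0)]⟩⟩,⟨false,1,⟨0,[(0,0),(48,0)]⟩,⟨0,[(4,0),(5,0),(21,0)]⟩⟩,⟨false,1,⟨1,[(25,0),
  (0,0),(23,0)]⟩,⟨0,[]⟩⟩,⟨true,0,⟨0,[(0,0),(47,0)]⟩,⟨7,[(4,7),(1,1),(3,3),(1,2),(0,1),(16,0),(1,1),
  (3,1),(1,1)]⟩⟩,⟨false,0,⟨0,[]⟩,⟨0,[]⟩⟩,⟨false,0,⟨0,[]⟩,⟨0,[]⟩⟩,[.a ⟨true,0,⟨0,[(48,0)]⟩,⟨3,[(6,0),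
  (5,0),(14,2),(0,2),(21,0)]⟩⟩ ⟨false,1,⟨1,[(5,0),(20,0),(22,0)]⟩,⟨0,[]⟩⟩ ⟨true,0,⟨0,[(0,0),(47,
  0)]⟩,⟨3,[(4,3),(1,0),(3,2),(1,0),(19,2),(9,1)]⟩⟩,.o ⟨false,1,⟨1,[(37,0),(10,1),(1,0)]⟩,⟨0,[(47,
  0)]⟩⟩,.o ⟨false,1,⟨0,[(25,0)]⟩,⟨0,[(0,0)]⟩⟩,.e ⟨false,1,⟨1,[(41,0),(7,0)]⟩,⟨1,[(32,0),(0,0)]⟩⟩
  ⟨false,1,⟨1,[(0,1),(47,1),(0,0),(0,0)]⟩,⟨3,[(4,3),(1,0),(3,2),(1,0),(19,2),(9,1)]⟩⟩]⟩) (.S ⟨1,0,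
  [1,1],[0,0,0,0,1],[1],(⟨0,[(28,0)]⟩,⟨0,[(27,0)]⟩),⟨0,[(2,0),(20,0),(0,0)]⟩,.k,(.r (-1) ⟨5,[(15,1),
  (9,0),(0,0),(22,0)]⟩ ⟨9,[(5,3),(2,4),(17,3),(14,0),(10,1)]⟩),⟨false,1,⟨1,[(25,0),(0,0),(23,0)]⟩,
  ⟨0,[]⟩⟩,⟨true,0,⟨0,[(52,0)]⟩,⟨0,[]⟩⟩,⟨true,0,⟨0,[(48,0)]⟩,⟨0,[(47,0)]⟩⟩,⟨false,0,⟨0,[(48,0)]⟩,⟨5,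
  [(15,1),(16,0),(0,0),(8,1),(7,1)]⟩⟩,[.o ⟨false,0,⟨0,[(1,0),(50,0)]⟩,⟨5,[(0,5),(36,1),(6,0),(5,
  2)]⟩⟩,.o ⟨false,0,⟨0,[(1,0)]⟩,⟨0,[(5,0)]⟩⟩,.a ⟨true,0,⟨0,[(26,0)]⟩,⟨0,[(0,0)]⟩⟩ ⟨true,0,⟨0,[]⟩,⟨0,
  [(52,0)]⟩⟩ ⟨false,0,⟨0,[]⟩,⟨1,[(25,0),(0,0),(23,0)]⟩⟩,.o ⟨false,0,⟨5,[(3,2),(3,2),(18,2),(10,1),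
  (6,0)]⟩,⟨0,[(4,0)]⟩⟩]⟩))) (.Q [-1,0,0,0,0,0,0,0,-1,1,0,-1] (.p false [0,0,0,0,1] [1] (⟨0,[(26,
  0)]⟩,⟨0,[(25,0)]⟩) .k 1 (⟨0,[]⟩,⟨0,[]⟩) .k .k) (.Q [0,0,1,0,0,0,0,0,-1,0,0,-1] (.p false [0,0,0,0,
  1] [] (⟨0,[(27,0)]⟩,⟨0,[(26,0)]⟩) .k 0 (⟨0,[]⟩,⟨0,[]⟩) .k .k) (.Q [-1,1,0,0,0,0,0,0,-1,0,0,-1]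
  (.p false [0,0,0,0,1] [] (⟨0,[(28,0)]⟩,⟨0,[(27,0)]⟩) .k 0 (⟨0,[]⟩,⟨0,[]⟩) .k .k) (.S ⟨1,0,[-1,1],
  [1,0,0,0,-1],[-1],(⟨0,[(28,0)]⟩,⟨0,[(29,0)]⟩),⟨0,[(3,0)]⟩,.k,(.r (-1) ⟨29,[(6,2),(9,9),(10,2),(14,
  1),(7,4),(2,3)]⟩ ⟨1,[(9,0),(16,0),(0,0)]⟩),⟨false,1,⟨1,[(26,0),(0,0),(23,0)]⟩,⟨0,[]⟩⟩,⟨true,0,⟨0,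
  [(53,0)]⟩,⟨0,[]⟩⟩,⟨true,0,⟨0,[(49,0)]⟩,⟨0,[(48,0)]⟩⟩,⟨false,0,⟨0,[(49,0)]⟩,⟨5,[(16,1),(16,0),(0,
  0),(8,1),(7,1)]⟩⟩,[.o ⟨false,0,⟨0,[(0,0)]⟩,⟨1,[(27,1),(10,0),(12,0)]⟩⟩,.e ⟨false,1,⟨1,[(42,0),(7,
  0)]⟩,⟨0,[(53,0)]⟩⟩ ⟨false,1,⟨1,[(6,0),(20,0),(22,0)]⟩,⟨0,[]⟩⟩,.a ⟨true,0,⟨0,[(2,0)]⟩,⟨0,[(27,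
  0)]⟩⟩ ⟨false,1,⟨1,[(6,0),(20,0),(23,0)]⟩,⟨0,[]⟩⟩ ⟨true,0,⟨0,[(53,0)]⟩,⟨0,[]⟩⟩,.o ⟨false,0,⟨0,[(1,
  0)]⟩,⟨1,[(27,1),(10,0),(11,0)]⟩⟩]⟩) (.R ⟨2,true,false,true,[0,1],[1,0,0,0,-1],[0,0,1,1],(⟨0,[]⟩,
  ⟨0,[]⟩),(⟨0,[(28,0)]⟩,⟨0,[(29,0)]⟩),⟨0,[]⟩,.k,.k,.k,(.r 0 ⟨1,[(9,0),(16,0),(0,0)]⟩ ⟨29,[(6,2),(9,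
  9),(10,2),(14,1),(7,4),(2,3)]⟩),.k,.k,⟨true,0,⟨1,[(9,0),(41,0)]⟩,⟨0,[(48,0)]⟩⟩,⟨false,0,⟨0,[(2,
  0)]⟩,⟨1,[(27,1),(10,0),(11,0)]⟩⟩,⟨false,1,⟨1,[(26,0),(0,0),(23,0)]⟩,⟨0,[]⟩⟩,⟨true,0,⟨0,[(2,0),(45,
  0)]⟩,⟨1,[(0,1),(8,0),(28,0),(5,1)]⟩⟩,⟨true,0,⟨0,[(49,0)]⟩,⟨0,[(48,0)]⟩⟩,⟨false,0,⟨0,[(2,0)]⟩,⟨1,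
  [(27,1),(10,0),(12,0)]⟩⟩,[]⟩)) (.R ⟨2,true,false,true,[0,1],[1,0,0,0,-1],[1,0,1],(⟨0,[]⟩,⟨0,[]⟩),
  (⟨0,[(27,0)]⟩,⟨0,[(28,0)]⟩),⟨0,[]⟩,.k,.k,.k,(.r 0 ⟨1,[(8,0),(16,0),(0,0)]⟩ ⟨29,[(5,2),(9,9),(10,
  2),(14,1),(7,4),(2,3)]⟩),.k,.k,⟨true,0,⟨0,[(42,0)]⟩,⟨0,[(52,0)]⟩⟩,⟨false,0,⟨0,[(1,0)]⟩,⟨1,[(26,1),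
  (10,0),(11,0)]⟩⟩,⟨false,1,⟨5,[(15,1),(16,0),(0,0),(8,1),(7,1)]⟩,⟨0,[(48,0)]⟩⟩,⟨true,0,⟨0,[(1,0),
  (45,0)]⟩,⟨1,[(0,1),(7,0),(28,0)]⟩⟩,⟨true,0,⟨0,[]⟩,⟨0,[(52,0)]⟩⟩,⟨false,0,⟨0,[(1,0)]⟩,⟨1,[(26,1),
  (10,0),(12,0)]⟩⟩,[]⟩)) (.Q [-1,-1,0,0,1,0,0,0,-1,0,0,-1] (.p false [0,0,0,0,1] [] (⟨0,[(27,0)]⟩,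
  ⟨0,[(26,0)]⟩) .k 0 (⟨0,[]⟩,⟨0,[]⟩) .k .k) (.R ⟨1,false,false,false,[0,0,1],[1,0,0,0,-1],[1,0,0,-1,
  0,0,0,1],(⟨0,[(35,0)]⟩,⟨0,[(34,0)]⟩),(⟨0,[(27,0)]⟩,⟨0,[(28,0)]⟩),⟨0,[(24,0)]⟩,.k,.k,.k,.k,(.r
  (-1) ⟨1,[(17,1),(31,0),(0,0)]⟩ ⟨1,[(6,1),(0,9),(3,1),(0,1),(28,12),(1,19),(0,0)]⟩),.k,⟨false,1,⟨1,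
  [(17,1),(31,0),(0,0)]⟩,⟨1,[(13,0),(0,0),(34,0)]⟩⟩,⟨true,0,⟨0,[(4,0),(5,0)]⟩,⟨5,[(1,5),(10,0),(0,
  1),(16,0),(1,3),(8,1)]⟩⟩,⟨false,1,⟨5,[(15,1),(16,0),(0,0),(8,1),(7,1)]⟩,⟨0,[(48,0)]⟩⟩,⟨true,0,⟨2,
  [(0,2),(5,0),(6,1),(15,1)]⟩,⟨0,[(1,0),(28,0)]⟩⟩,⟨true,0,⟨0,[]⟩,⟨0,[(52,0)]⟩⟩,⟨true,0,⟨0,[(0,0),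
  (12,0),(15,0)]⟩,⟨1,[(1,1),(10,0),(17,0)]⟩⟩,[.o ⟨false,1,⟨0,[(5,0)]⟩,⟨0,[(1,0)]⟩⟩,.o ⟨false,1,⟨0,
  [(0,0)]⟩,⟨0,[(1,0),(50,0)]⟩⟩,.o ⟨false,1,⟨1,[(32,1),(4,0),(11,0)]⟩,⟨0,[(18,0)]⟩⟩,.a ⟨true,0,⟨0,
  [(32,0)]⟩,⟨0,[(29,0)]⟩⟩ ⟨true,1,⟨1,[(17,1),(31,0),(0,0)]⟩,⟨0,[(13,0)]⟩⟩ ⟨false,1,⟨0,[(0,0),(28,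
  0)]⟩,⟨0,[(1,0),(30,0)]⟩⟩]⟩) (.R ⟨2,true,false,true,[0,1],[0,0,0,0,1],[1,1,1],(⟨0,[]⟩,⟨0,[]⟩),(⟨0,
  [(28,0)]⟩,⟨0,[(27,0)]⟩),⟨0,[]⟩,.k,.k,.k,(.r 0 ⟨9,[(5,3),(2,4),(17,3),(14,0),(10,1)]⟩ ⟨5,[(15,1),
  (9,0),(0,0),(22,0)]⟩),.k,.k,⟨true,0,⟨1,[(32,0),(0,0)]⟩,⟨0,[]⟩⟩,⟨false,0,⟨0,[(26,0)]⟩,⟨0,[(4,0)]⟩⟩,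
  ⟨true,0,⟨0,[(47,0)]⟩,⟨0,[(48,0)]⟩⟩,⟨false,0,⟨0,[(3,0)]⟩,⟨1,[(4,1),(3,0),(32,0)]⟩⟩,⟨false,0,⟨0,[]⟩,
  ⟨1,[(25,0),(0,0),(23,0)]⟩⟩,⟨true,(-1),⟨0,[(0,0)]⟩,⟨0,[(5,0)]⟩⟩,[]⟩)))))) (.R ⟨2,true,false,true,
  [0,1],[0,0,0,0,1],[1,1],(⟨0,[]⟩,⟨0,[]⟩),(⟨0,[(23,0)]⟩,⟨0,[(22,0)]⟩),⟨0,[]⟩,.k,.k,.k,(.r 0 ⟨5,[(3,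
  2),(16,1),(0,1),(14,0),(10,1)]⟩ ⟨5,[(10,1),(9,0),(0,0),(22,0)]⟩),.k,.k,⟨false,1,⟨1,[(20,0),(0,0),
  (22,0)]⟩,⟨0,[]⟩⟩,⟨true,(-1),⟨27,[(0,18),(0,1),(0,7),(4,1),(13,8),(15,3),(1,0),(6,7)]⟩,⟨0,[(20,
  0)]⟩⟩,⟨false,1,⟨5,[(10,1),(9,0),(0,0),(22,0)]⟩,⟨1,[(3,0),(41,0)]⟩⟩,⟨true,(-1),⟨0,[(0,0),(41,0)]⟩,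
  ⟨0,[(20,0),(22,0)]⟩⟩,⟨true,0,⟨0,[(38,0)]⟩,⟨1,[(27,0),(0,0)]⟩⟩,⟨false,(-1),⟨0,[(0,0)]⟩,⟨1,[(20,2),
  (0,0),(14,0)]⟩⟩,[]⟩)))) (.R ⟨1,false,false,true,[1,-1],[1,-1,-1],[0,1,-1,-1],(⟨0,[(30,0)]⟩,⟨0,
  [(31,0)]⟩),(⟨0,[(15,0)]⟩,⟨0,[(27,0),(0,0)]⟩),⟨0,[(15,0),(0,0)]⟩,.k,.k,(.r (-1) ⟨0,[(0,0)]⟩ ⟨0,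
  [(24,0),(0,0),(14,1)]⟩),.k,.k,.k,⟨false,1,⟨1,[(13,1),(27,0),(0,0)]⟩,⟨3,[(1,1),(3,0),(0,0),(34,
  0)]⟩⟩,⟨true,0,⟨0,[(10,0)]⟩,⟨0,[(24,0)]⟩⟩,⟨true,0,⟨0,[(44,0)]⟩,⟨0,[]⟩⟩,⟨false,0,⟨3,[(1,1),(3,0),(0,
  0),(3,1),(10,1),(7,0)]⟩,⟨0,[(22,0),(19,0)]⟩⟩,⟨false,0,⟨0,[(40,0)]⟩,⟨5,[(7,1),(16,0),(0,0),(8,1),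
  (7,1)]⟩⟩,⟨false,0,⟨1,[(5,0),(0,0),(14,1),(7,0)]⟩,⟨1,[(4,0),(17,0),(19,1)]⟩⟩,[.a ⟨true,(-1),⟨1,[(0,
  0),(1,0),(0,1),(17,0)]⟩,⟨0,[(22,0),(17,0),(1,0)]⟩⟩ ⟨false,1,⟨7,[(0,0),(6,1),(29,3),(3,2)]⟩,⟨0,
  [(34,0),(5,0)]⟩⟩ ⟨true,0,⟨0,[(0,0),(4,0),(4,0)]⟩,⟨0,[(22,0),(11,1),(5,0)]⟩⟩,.o ⟨false,0,⟨0,[(1,0),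
  (8,0)]⟩,⟨1,[(22,1),(6,0),(10,1),(1,0)]⟩⟩,.o ⟨false,0,⟨1,[(24,0),(0,0)]⟩,⟨1,[(29,0),(11,0)]⟩⟩,.e
  ⟨false,1,⟨1,[(0,0),(40,0)]⟩,⟨1,[(24,0),(0,0),(8,1),(5,1)]⟩⟩ ⟨false,1,⟨1,[(1,1),(19,1),(7,0),(11,
  0)]⟩,⟨0,[(22,0),(11,1),(5,0)]⟩⟩]⟩)))))))

theorem ok7 : chk K t7 r7 = true := by decide +kernel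

noncomputable def t11 : Tre :=
  (.R ⟨2,true,false,true,[0,1],[0,0,1],[1,1,1],(⟨0,[]⟩,⟨0,[]⟩),(⟨0,[(18,0)]⟩,⟨0,[(17,0)]⟩),⟨0,[]⟩,
  .k,.k,.k,.k,.k,.k,⟨false,0,⟨0,[(0,0),(29,0)]⟩,⟨1,[(4,1),(27,0),(0,0)]⟩⟩,⟨true,0,⟨0,[(15,0)]⟩,⟨0,
  [(1,0)]⟩⟩,⟨true,0,⟨0,[(30,0)]⟩,⟨0,[(31,0)]⟩⟩,⟨false,1,⟨0,[(13,0),(16,0),(2,0)]⟩,⟨0,[(0,0),(0,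
  0)]⟩⟩,⟨false,0,⟨0,[]⟩,⟨1,[(8,0),(0,0),(23,0)]⟩⟩,⟨true,0,⟨0,[(13,0)]⟩,⟨0,[(0,0),(0,0),(28,0)]⟩⟩,
  []⟩)

theorem ok11 : chk K t11 r4 = true := by decide +kernel

noncomputable def t13 : Tre :=
  (.I [1,0,0,0,0,0,0,-1] (.Q [0,0,0,2,0,0,0,0,0,-1] (.pp true [-1,1]) (.Q [0,0,2,0,-1,0,0,0,0,1]
  (.pp false [-1,1]) (.R ⟨2,true,false,true,[0,1],[1,-1],[1,0,1],(⟨0,[]⟩,⟨0,[]⟩),(⟨0,[(23,0)]⟩,⟨0,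
  [(24,0)]⟩),⟨0,[]⟩,.k,.k,.k,(.r 1 ⟨0,[(0,0),(0,0)]⟩ ⟨0,[(32,1),(1,0),(0,0)]⟩),.k,.k,⟨false,0,⟨1,
  [(0,0),(0,0),(33,0)]⟩,⟨0,[(32,0),(1,0)]⟩⟩,⟨true,(-1),⟨0,[(0,0)]⟩,⟨1,[(22,0),(11,0)]⟩⟩,⟨false,1,⟨0,
  [(32,0),(2,0)]⟩,⟨0,[(33,0)]⟩⟩,⟨true,0,⟨0,[(3,0),(10,0),(12,0),(4,1)]⟩,⟨0,[(1,0)]⟩⟩,⟨true,0,⟨0,[]⟩,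
  ⟨0,[(37,0)]⟩⟩,⟨false,0,⟨0,[(3,0),(10,0),(12,0),(4,0)]⟩,⟨3,[(1,1),(8,0),(0,0),(10,0),(12,1)]⟩⟩,
  []⟩) (.Q [0,0,0,0,0,0,-1,-1,0,0,-1] (.p false [0,0,1] [] (⟨0,[(20,0)]⟩,⟨0,[(19,0)]⟩) .k 0 (⟨0,[]⟩,
  ⟨0,[]⟩) .k .k) (.S ⟨1,0,[0,1,0,0,0,0,0,-1],[1,0,-1],[0,0,0,0,0,0,0,-1],(⟨0,[(20,0)]⟩,⟨0,[(21,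
  0)]⟩),⟨0,[(9,0)]⟩,.k,.k,⟨false,1,⟨1,[(11,0),(0,0),(23,0)]⟩,⟨0,[]⟩⟩,⟨true,0,⟨0,[(38,0)]⟩,⟨0,[]⟩⟩,
  ⟨true,0,⟨0,[(34,0)]⟩,⟨0,[(33,0)]⟩⟩,⟨false,0,⟨0,[(34,0)]⟩,⟨0,[(33,0),(2,0)]⟩⟩,[.o ⟨false,0,⟨0,[(17,
  0)]⟩,⟨0,[(1,0),(14,0),(11,1)]⟩⟩,.o ⟨false,0,⟨0,[(0,0)]⟩,⟨1,[(16,1),(6,0),(12,0)]⟩⟩,.a ⟨true,0,⟨1,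
  [(8,0),(4,0),(0,0)]⟩,⟨0,[(4,0)]⟩⟩ ⟨true,0,⟨0,[(0,0),(3,0)]⟩,⟨0,[(7,0)]⟩⟩ ⟨false,0,⟨0,[(0,0),(3,
  0)]⟩,⟨0,[(7,0),(28,0)]⟩⟩,.o ⟨false,0,⟨0,[(19,0)]⟩,⟨0,[(1,0),(16,0)]⟩⟩]⟩) (.R ⟨2,true,false,true,
  [0,1],[0,0,1],[1,1],(⟨0,[]⟩,⟨0,[]⟩),(⟨0,[(21,0)]⟩,⟨0,[(20,0)]⟩),⟨0,[]⟩,.k,.k,.k,.k,.k,.k,⟨true,0,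
  ⟨0,[(3,0)]⟩,⟨0,[(0,0),(18,0)]⟩⟩,⟨false,0,⟨0,[(4,0)]⟩,⟨3,[(8,1),(2,0),(0,0),(10,0),(11,1)]⟩⟩,
  ⟨false,1,⟨1,[(33,1),(1,0),(0,0)]⟩,⟨0,[(28,0),(5,0)]⟩⟩,⟨true,0,⟨0,[(0,0),(32,0)]⟩,⟨1,[(2,0),(0,1),
  (4,0)]⟩⟩,⟨true,0,⟨0,[(29,0)]⟩,⟨1,[(18,0),(0,0)]⟩⟩,⟨false,0,⟨0,[(0,0)]⟩,⟨3,[(3,1),(2,1),(1,1),(14,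
  0),(12,0)]⟩⟩,[]⟩))) (.I [1,1,-1,-2,0,0,0,-1] (.K ⟨0,[0,1,1],0,0,(⟨0,[(20,0),(0,0)]⟩,⟨0,[(8,0)]⟩),
  .k,.k,(.r 0 ⟨0,[(15,0),(2,0),(8,0),(5,1)]⟩ ⟨1,[(0,1),(33,0),(0,0)]⟩),.k,.k,[⟨1,[(17,0),(0,0)]⟩,⟨0,
  [(3,0)]⟩,⟨1,[(0,0),(15,0),(1,0)]⟩,⟨0,[(15,0),(17,0)]⟩]⟩) (.I [0,0,2,0,-1,2,-1] (.Q [0,1,0,-1,0,0,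
  -1,-1,0,0,-1] (.p false [0,0,1] [] (⟨0,[(21,0)]⟩,⟨0,[(20,0)]⟩) .k 0 (⟨0,[]⟩,⟨0,[]⟩) .k .k) (.K ⟨0,
  [0,1,1],0,0,(⟨0,[(22,0),(0,0)]⟩,⟨0,[(10,0)]⟩),.k,.k,(.x (-2) ⟨0,[(5,0),(4,0),(13,0),(0,0),(10,
  0)]⟩ ⟨0,[(1,0)]⟩),.k,.k,[⟨1,[(19,0),(0,0)]⟩,⟨0,[(5,0)]⟩,⟨0,[(0,0)]⟩,⟨1,[(2,0),(2,0),(11,0),(14,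
  0)]⟩]⟩) (.R ⟨2,true,false,false,[0,1],[0,1,1],[1,0,1],(⟨0,[]⟩,⟨0,[]⟩),(⟨0,[(22,0),(0,0)]⟩,⟨0,[(10,
  0)]⟩),⟨0,[]⟩,.k,.k,.k,.k,.k,.k,⟨false,1,⟨5,[(3,1),(0,3),(2,1),(16,0),(9,1),(1,2)]⟩,⟨0,[(0,0),(19,
  0),(9,0)]⟩⟩,⟨true,0,⟨0,[(5,0)]⟩,⟨0,[(20,0)]⟩⟩,⟨false,1,⟨3,[(3,1),(8,0),(0,0),(10,0),(12,1)]⟩,⟨0,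
  [(35,0)]⟩⟩,⟨true,0,⟨0,[(0,0),(33,0)]⟩,⟨0,[(18,0)]⟩⟩,⟨true,0,⟨0,[]⟩,⟨0,[(39,0)]⟩⟩,⟨false,0,⟨0,[(0,
  0)]⟩,⟨2,[(3,0),(3,1),(1,0),(8,0),(5,0),(9,0)]⟩⟩,[]⟩)) (.Q [0,1,0,-1,0,0,-1,-1,0,0,-1] (.p false
  [0,0,1] [] (⟨0,[(21,0)]⟩,⟨0,[(20,0)]⟩) .k 0 (⟨0,[]⟩,⟨0,[]⟩) .k .k) (.I [0,0,-2,-2,1,0,0,-1] (.K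
  ⟨0,[0,1,1],0,0,(⟨0,[(23,0),(0,0)]⟩,⟨0,[(11,0)]⟩),.k,.k,(.r 0 ⟨1,[(3,1),(16,0),(0,0),(18,1)]⟩ ⟨0,
  [(0,0)]⟩),.k,.k,[⟨1,[(20,0),(0,0)]⟩,⟨0,[(6,0)]⟩,⟨0,[(1,0)]⟩,⟨1,[(3,0),(2,0),(11,0),(14,0)]⟩]⟩)
  (.I [0,0,0,1,0,0,0,1] (.S ⟨1,0,[0,0,1,1,0,0,0,1],[0,1,1],[1,1,1],(⟨0,[(24,0),(0,0)]⟩,⟨0,[(12,
  0)]⟩),⟨0,[(24,0)]⟩,.k,.k,⟨true,0,⟨0,[(6,0),(29,0)]⟩,⟨0,[(0,0)]⟩⟩,⟨false,1,⟨1,[(14,0),(0,0),(23,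
  0)]⟩,⟨0,[]⟩⟩,⟨false,0,⟨0,[(6,0)]⟩,⟨0,[(10,0),(28,0)]⟩⟩,⟨true,0,⟨0,[(37,0)]⟩,⟨0,[(36,0)]⟩⟩,[.e
  ⟨false,0,⟨0,[(41,0)]⟩,⟨1,[(38,0),(0,0)]⟩⟩ ⟨false,0,⟨0,[(0,0)]⟩,⟨5,[(5,1),(0,3),(2,1),(16,0),(9,1),
  (1,2)]⟩⟩,.o ⟨false,1,⟨1,[(0,1),(6,1),(18,0),(12,0)]⟩,⟨0,[(2,0)]⟩⟩,.o ⟨false,1,⟨1,[(7,1),(18,0),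
  (11,0)]⟩,⟨0,[(22,0)]⟩⟩,.a ⟨true,0,⟨0,[(7,0)]⟩,⟨1,[(11,0),(4,0),(0,0)]⟩⟩ ⟨false,0,⟨0,[]⟩,⟨1,[(14,
  0),(0,0),(23,0)]⟩⟩ ⟨true,0,⟨0,[(0,0)]⟩,⟨0,[(6,0),(29,0)]⟩⟩]⟩) (.S ⟨1,0,[0,1,0,0,0,0,0,1],[0,0,1],
  [0,0,0,0,0,0,0,1],(⟨0,[(24,0)]⟩,⟨0,[(23,0)]⟩),⟨0,[(13,0)]⟩,.k,.k,⟨false,1,⟨1,[(14,0),(0,0),(23,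
  0)]⟩,⟨0,[]⟩⟩,⟨true,0,⟨0,[(41,0)]⟩,⟨0,[]⟩⟩,⟨true,0,⟨0,[(37,0)]⟩,⟨0,[(36,0)]⟩⟩,⟨false,0,⟨0,[(37,
  0)]⟩,⟨3,[(5,1),(8,0),(0,0),(10,0),(12,1)]⟩⟩,[.a ⟨true,0,⟨0,[(19,0)]⟩,⟨0,[(6,0),(11,0),(12,0)]⟩⟩
  ⟨false,1,⟨1,[(10,1),(27,0),(0,0)]⟩,⟨0,[(6,0)]⟩⟩ ⟨true,0,⟨2,[(1,2),(1,0),(1,2),(7,0),(4,0),(6,2),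
  (6,2),(0,1)]⟩,⟨0,[(6,0),(24,0)]⟩⟩,.o ⟨false,1,⟨1,[(19,1),(6,0),(12,0)]⟩,⟨1,[(0,1),(0,0),(4,0),(11,
  1),(7,0)]⟩⟩,.a ⟨true,0,⟨0,[(7,0)]⟩,⟨1,[(11,0),(4,0),(0,0)]⟩⟩ ⟨false,1,⟨0,[(10,0),(28,0)]⟩,⟨0,[(6,
  0)]⟩⟩ ⟨true,0,⟨2,[(1,2),(1,0),(1,2),(7,0),(4,0),(6,2),(6,2),(0,1)]⟩,⟨0,[(6,0)]⟩⟩,.a ⟨true,0,⟨0,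
  [(21,0)]⟩,⟨0,[(18,0)]⟩⟩ ⟨true,1,⟨1,[(10,1),(27,0),(0,0)]⟩,⟨0,[(0,1),(0,0),(30,0)]⟩⟩ ⟨false,1,⟨1,
  [(10,1),(27,0),(0,0)]⟩,⟨0,[(6,0),(24,0)]⟩⟩]⟩))) (.R ⟨2,true,false,false,[0,1],[0,1,1],[1,0,1],(⟨0,
  []⟩,⟨0,[]⟩),(⟨0,[(22,0),(0,0)]⟩,⟨0,[(10,0)]⟩),⟨0,[]⟩,.k,.k,.k,.k,.k,.k,⟨false,1,⟨5,[(3,1),(0,3),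
  (2,1),(16,0),(9,1),(1,2)]⟩,⟨0,[(0,0),(19,0),(9,0)]⟩⟩,⟨true,0,⟨0,[(5,0)]⟩,⟨0,[(20,0)]⟩⟩,⟨false,1,
  ⟨3,[(3,1),(8,0),(0,0),(10,0),(12,1)]⟩,⟨0,[(35,0)]⟩⟩,⟨true,0,⟨0,[(0,0),(33,0)]⟩,⟨0,[(18,0)]⟩⟩,
  ⟨true,0,⟨0,[]⟩,⟨0,[(39,0)]⟩⟩,⟨false,0,⟨0,[(0,0)]⟩,⟨2,[(3,0),(3,1),(1,0),(8,0),(5,0),(9,0)]⟩⟩,
  []⟩))))) (.S ⟨1,0,[0,0,0,0,0,0,0,1],[0,0,1],[0,1,0,0,0,0,0,1],(⟨0,[(18,0)]⟩,⟨0,[(17,0)]⟩),⟨0,[(7,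
  0)]⟩,.k,.k,⟨true,0,⟨0,[(35,0)]⟩,⟨0,[]⟩⟩,⟨false,1,⟨1,[(8,0),(0,0),(23,0)]⟩,⟨0,[]⟩⟩,⟨false,0,⟨0,
  [(31,0)]⟩,⟨0,[(30,0),(2,0)]⟩⟩,⟨true,0,⟨0,[(31,0)]⟩,⟨0,[(30,0)]⟩⟩,[.a ⟨true,0,⟨0,[(0,0),(0,0)]⟩,⟨0,
  [(2,0),(9,0)]⟩⟩ ⟨false,0,⟨0,[(0,0),(25,0)]⟩,⟨0,[(3,0)]⟩⟩ ⟨true,0,⟨0,[(0,0)]⟩,⟨0,[(2,0)]⟩⟩,.o
  ⟨false,1,⟨1,[(0,1),(0,1),(18,0),(12,0)]⟩,⟨0,[(14,0)]⟩⟩,.a ⟨true,0,⟨0,[(1,0)]⟩,⟨1,[(5,0),(4,0),(0,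
  0)]⟩⟩ ⟨false,0,⟨0,[(0,0)]⟩,⟨0,[(3,0)]⟩⟩ ⟨true,0,⟨0,[(0,0)]⟩,⟨0,[(1,0),(12,0)]⟩⟩,.a ⟨true,0,⟨0,
  [(15,0)]⟩,⟨0,[(12,0)]⟩⟩ ⟨true,0,⟨0,[(0,0),(25,0)]⟩,⟨0,[(2,0)]⟩⟩ ⟨false,1,⟨1,[(0,1),(31,0),(0,0)]⟩,
  ⟨0,[(2,0)]⟩⟩]⟩))

theorem ok13 : chk K t13 r3 = true := by decide +kernel

noncomputable def t16 : Tre :=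
  (.R ⟨2,true,false,false,[0,1],[0,1,1],[0,0,1,1],(⟨0,[]⟩,⟨0,[]⟩),(⟨0,[(16,0),(0,0)]⟩,⟨0,[(4,0)]⟩),
  ⟨0,[]⟩,.k,.k,.k,.k,.k,.k,⟨true,1,⟨1,[(12,1),(0,1),(16,0),(0,0)]⟩,⟨0,[(1,0),(21,0)]⟩⟩,⟨false,1,⟨0,
  [(13,0),(16,0)]⟩,⟨2,[(1,0),(8,1),(1,0),(5,0),(4,1)]⟩⟩,⟨false,1,⟨1,[(6,0),(0,0),(23,0)]⟩,⟨0,[]⟩⟩,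
  ⟨true,0,⟨0,[(0,0),(27,0)]⟩,⟨0,[(12,0)]⟩⟩,⟨true,0,⟨0,[(29,0)]⟩,⟨0,[(28,0)]⟩⟩,⟨false,0,⟨0,[(0,0)]⟩,
  ⟨0,[(12,0),(15,0),(2,0)]⟩⟩,[]⟩)

theorem ok16 : chk K t16 l9 = true := by decide +kernel

noncomputable def t17 : Tre :=
  (.S ⟨1,0,[0,0,0,0,0,0,0,1],[0,0,1],[],(⟨0,[(17,0)]⟩,⟨0,[(16,0)]⟩),⟨0,[(6,0)]⟩,.k,.k,⟨true,1,⟨0,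
  [(0,0),(28,0)]⟩,⟨0,[(2,0)]⟩⟩,⟨false,1,⟨1,[(7,0),(0,0),(23,0)]⟩,⟨0,[]⟩⟩,⟨false,1,⟨0,[(0,0)]⟩,⟨0,
  [(2,0),(26,0),(2,0)]⟩⟩,⟨true,0,⟨0,[(30,0)]⟩,⟨0,[(29,0)]⟩⟩,[.e ⟨false,1,⟨1,[(7,0),(0,0),(22,0)]⟩,
  ⟨0,[]⟩⟩ ⟨false,0,⟨1,[(2,1),(28,0),(0,0)]⟩,⟨0,[(0,0),(28,0)]⟩⟩,.o ⟨false,1,⟨1,[(2,1),(11,1),(4,0),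
  (11,0),(0,1)]⟩,⟨0,[(13,0)]⟩⟩,.o ⟨false,1,⟨1,[(14,1),(4,0),(11,0)]⟩,⟨2,[(2,0),(8,1),(1,0),(5,0),(4,
  1)]⟩⟩,.a ⟨true,0,⟨0,[(14,0)]⟩,⟨0,[(11,0)]⟩⟩ ⟨false,1,⟨1,[(31,0),(0,0)]⟩,⟨1,[(14,0),(0,0)]⟩⟩ ⟨true,
  0,⟨1,[(2,1),(28,0),(0,0)]⟩,⟨0,[(13,0),(0,0)]⟩⟩]⟩)

theorem ok17 : chk K t17 l10 = true := by decide +kernel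

noncomputable def t18 : Tre :=
  (.R ⟨1,false,false,false,[1,0,-1],[1,-1],[0,0,0,0,0,0,0,-1],(⟨0,[(17,0)]⟩,⟨0,[(18,0)]⟩),(⟨0,[(21,
  0)]⟩,⟨0,[(22,0)]⟩),⟨0,[(6,0)]⟩,.k,.k,.k,.k,.k,.k,⟨false,1,⟨1,[(14,1),(0,1),(15,1),(0,0),(0,0)]⟩,
  ⟨1,[(1,1),(30,0),(0,0)]⟩⟩,⟨true,0,⟨0,[(15,0)]⟩,⟨2,[(3,0),(8,1),(1,0),(5,0),(4,1)]⟩⟩,⟨false,1,⟨1,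
  [(8,0),(0,0),(23,0)]⟩,⟨0,[]⟩⟩,⟨true,0,⟨1,[(1,1),(13,1),(16,0),(0,0)]⟩,⟨0,[(14,0),(16,0)]⟩⟩,⟨true,
  0,⟨0,[(31,0)]⟩,⟨0,[(30,0)]⟩⟩,⟨true,0,⟨1,[(3,1),(11,1),(16,0),(0,0)]⟩,⟨0,[(14,0)]⟩⟩,[.a ⟨true,0,⟨5,
  [(0,4),(4,0),(9,1),(12,1),(1,0)]⟩,⟨0,[(31,0)]⟩⟩ ⟨true,1,⟨1,[(14,1),(0,1),(16,0),(0,0)]⟩,⟨0,[(3,0),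
  (21,0)]⟩⟩ ⟨false,1,⟨1,[(0,1),(14,1),(4,0),(5,1),(5,0)]⟩,⟨2,[(3,0),(8,1),(1,0),(5,0),(4,1),(5,
  2)]⟩⟩,.a ⟨true,0,⟨0,[(0,0)]⟩,⟨0,[(31,0),(3,0)]⟩⟩ ⟨false,2,⟨0,[(14,0),(0,0),(16,0),(0,0)]⟩,⟨0,[(3,
  0)]⟩⟩ ⟨true,1,⟨1,[(0,1),(14,1),(4,0),(11,0)]⟩,⟨0,[(3,0),(10,0),(10,0),(5,0)]⟩⟩,.o ⟨false,0,⟨2,[(3,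
  0),(8,1),(1,0),(5,0),(4,1)]⟩,⟨1,[(15,1),(4,0),(11,0)]⟩⟩,.a ⟨true,(-1),⟨0,[(0,0),(2,0),(10,0),(10,
  0),(5,0)]⟩,⟨0,[(15,0),(16,0)]⟩⟩ ⟨false,2,⟨0,[(14,0),(0,0),(16,0),(0,0)]⟩,⟨0,[(3,0),(21,0)]⟩⟩
  ⟨true,1,⟨1,[(0,1),(14,1),(4,0),(5,1),(5,0)]⟩,⟨0,[(3,0),(10,0),(10,0),(5,0)]⟩⟩]⟩)

theorem ok18 : chk K t18 l11 = true := by decide +kernel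

noncomputable def t19 : Tre :=
  (.R ⟨1,true,false,false,[0,0,1],[0,1],[1,1,0,-1,0,0,0,1],(⟨0,[(19,0)]⟩,⟨0,[(18,0)]⟩),(⟨0,[(23,
  0)]⟩,⟨0,[(22,0)]⟩),⟨0,[(8,0)]⟩,.k,.k,.k,.k,(.r (-1) ⟨0,[(2,0),(28,0),(1,0),(0,0)]⟩ ⟨1,[(0,1),(15,
  2),(0,0)]⟩),.k,⟨true,0,⟨1,[(2,1),(28,1),(1,0),(0,0)]⟩,⟨0,[(0,0),(15,0),(9,0)]⟩⟩,⟨false,1,⟨1,[(13,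
  1),(7,0),(11,0)]⟩,⟨0,[(16,0)]⟩⟩,⟨true,0,⟨0,[(31,0)]⟩,⟨0,[(32,0)]⟩⟩,⟨false,1,⟨3,[(0,1),(8,0),(0,0),
  (4,1),(18,2)]⟩,⟨1,[(2,1),(13,1),(16,0),(0,0)]⟩⟩,⟨false,0,⟨0,[]⟩,⟨1,[(9,0),(0,0),(23,0)]⟩⟩,⟨true,0,
  ⟨0,[(0,0)]⟩,⟨1,[(2,1),(13,1),(14,1),(1,0),(0,0)]⟩⟩,[]⟩)

theorem ok19 : chk K t19 l12 = true := by decide +kernel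

noncomputable def t20 : Tre :=
  (.I [3,0,-1,-1,1,0,0,-1] (.N [0,2] 1 ⟨0,[(3,0)]⟩ ⟨1,[(0,1),(7,1),(22,0),(7,0)]⟩ (.x (-2) ⟨0,[(27,
  0),(0,1),(10,0)]⟩ ⟨0,[(0,0),(2,0),(4,0),(17,1),(5,0)]⟩)) (.I [-1,0,0,1] (.Q [-1,0,0,1,0,0,0,0,-1,
  0,0,-1] (.p false [0,0,0,0,1] [] (⟨0,[(19,0)]⟩,⟨0,[(18,0)]⟩) .k 0 (⟨0,[]⟩,⟨0,[]⟩) .k .k) (.R ⟨2,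
  true,false,true,[0,1],[0,0,0,0,1],[2,1],(⟨0,[]⟩,⟨0,[]⟩),(⟨0,[(20,0)]⟩,⟨0,[(19,0)]⟩),⟨0,[]⟩,.k,.k,
  .k,(.r 0 ⟨5,[(5,2),(11,1),(0,1),(14,0),(10,1)]⟩ ⟨7,[(3,1),(4,1),(8,2),(0,2),(10,0),(11,3)]⟩),.k,
  .k,⟨true,0,⟨0,[]⟩,⟨1,[(24,0),(0,0)]⟩⟩,⟨false,0,⟨0,[(18,0)]⟩,⟨13,[(0,7),(2,1),(4,1),(8,5),(11,0),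
  (11,6)]⟩⟩,⟨false,1,⟨7,[(3,1),(4,1),(8,2),(0,2),(10,0),(11,3)]⟩,⟨0,[(1,0),(36,0)]⟩⟩,⟨true,0,⟨0,
  [(18,0),(20,0)]⟩,⟨0,[(0,0)]⟩⟩,⟨true,0,⟨0,[(35,0)]⟩,⟨0,[(43,0)]⟩⟩,⟨false,0,⟨0,[(18,0)]⟩,⟨13,[(0,7),
  (2,1),(4,1),(8,5),(11,0),(12,6)]⟩⟩,[]⟩) (.Q [2,-1,0,0,-1,0,0,0,2,-1,0,2] (.p true [0,0,0,0,1] [1,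
  0,0,0,-1] (⟨0,[(20,0)]⟩,⟨0,[(19,0)]⟩) .k 2 (⟨0,[(19,0)]⟩,⟨0,[(20,0)]⟩) .k (.r 0 ⟨0,[]⟩ ⟨2,[(17,1),
  (0,1),(14,0),(10,1)]⟩)) (.Q [1,0,0,0,-1,0,0,0,1,0,0,1] (.p true [0,0,0,0,1] [] (⟨0,[(21,0)]⟩,⟨0,
  [(20,0)]⟩) .k 0 (⟨0,[]⟩,⟨0,[]⟩) .k .k) (.R ⟨2,true,false,true,[0,1],[0,0,0,0,1],[1,1],(⟨0,[]⟩,⟨0,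
  []⟩),(⟨0,[(22,0)]⟩,⟨0,[(21,0)]⟩),⟨0,[]⟩,.k,.k,.k,(.r 0 ⟨5,[(7,2),(11,1),(0,1),(14,0),(10,1)]⟩ ⟨13,
  [(2,5),(2,1),(4,1),(8,5),(11,0),(11,6)]⟩),.k,.k,⟨false,1,⟨1,[(19,0),(0,0),(22,0)]⟩,⟨0,[]⟩⟩,⟨true,
  (-1),⟨3,[(0,0),(0,0),(0,0),(1,0),(1,0),(19,1),(14,0)]⟩,⟨0,[(19,0)]⟩⟩,⟨false,1,⟨13,[(2,5),(2,1),(4,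
  1),(8,5),(11,0),(11,6)]⟩,⟨1,[(7,0),(36,0)]⟩⟩,⟨true,(-1),⟨0,[(0,0),(40,0)]⟩,⟨0,[(19,0),(22,0)]⟩⟩,
  ⟨true,0,⟨0,[(37,0)]⟩,⟨1,[(26,0),(0,0)]⟩⟩,⟨false,(-1),⟨0,[(0,0)]⟩,⟨1,[(19,2),(0,0),(14,0)]⟩⟩,[]⟩)
  (.R ⟨1,false,false,true,[0,0,1],[1,0,0,0,-1],[1,0,0,-1,0,0,0,1],(⟨0,[(29,0)]⟩,⟨0,[(28,0)]⟩),(⟨0,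
  [(21,0)]⟩,⟨0,[(22,0)]⟩),⟨0,[(18,0)]⟩,.k,.k,.k,.k,(.r 0 ⟨1,[(12,1),(30,0),(0,0)]⟩ ⟨7,[(9,7),(1,5),
  (7,3),(0,3),(5,7),(11,0),(3,1),(1,2)]⟩),.k,⟨true,0,⟨0,[(12,0),(31,0)]⟩,⟨1,[(3,0),(5,0),(1,0),(13,
  0),(0,1)]⟩⟩,⟨false,1,⟨0,[(19,0),(3,0)]⟩,⟨3,[(1,1),(24,3),(10,1),(0,0),(4,0)]⟩⟩,⟨false,1,⟨13,[(2,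
  5),(2,1),(4,1),(8,5),(11,0),(12,6)]⟩,⟨0,[(42,0)]⟩⟩,⟨false,1,⟨0,[(0,0),(8,0)]⟩,⟨11,[(1,5),(2,7),(5,
  3),(15,7),(4,2),(11,7),(0,2)]⟩⟩,⟨true,0,⟨0,[]⟩,⟨0,[(46,0)]⟩⟩,⟨false,1,⟨0,[(9,0),(9,0),(22,0)]⟩,
  ⟨11,[(1,5),(2,3),(5,7),(15,3),(4,2),(11,3),(0,2)]⟩⟩,[.o ⟨false,1,⟨0,[(19,0),(26,0)]⟩,⟨3,[(1,1),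
  (29,0),(12,0)]⟩⟩,.o ⟨false,1,⟨0,[(0,0)]⟩,⟨3,[(1,0),(0,0),(8,0),(8,0),(10,0)]⟩⟩,.o ⟨false,1,⟨1,
  [(26,1),(4,0),(11,0)]⟩,⟨9,[(6,1),(5,1),(3,1),(6,1),(7,2),(12,0)]⟩⟩,.a ⟨true,0,⟨0,[(26,0)]⟩,⟨0,
  [(23,0)]⟩⟩ ⟨true,0,⟨1,[(12,1),(30,0),(0,0)]⟩,⟨0,[(9,0),(1,0),(14,0)]⟩⟩ ⟨false,1,⟨0,[(0,0),(22,
  0)]⟩,⟨3,[(1,1),(24,3),(4,0),(12,0)]⟩⟩]⟩)) (.Q [0,0,-1,0,1,0,0,0,-1,0,0,-1] (.p false [0,0,0,0,1]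
  [] (⟨0,[(21,0)]⟩,⟨0,[(20,0)]⟩) .k 0 (⟨0,[]⟩,⟨0,[]⟩) .k .k) (.I [0,0,-2,0,1,-2,0,0,-2] (.Q [0,0,0,
  0,0,-1,0,0,0,0,0,1] (.ed false [1,-1,0,0,1] .k) (.Q [-1,0,0,0,0,0,0,0,-1,1,0,-1] (.p false [0,0,0,
  0,1] [1] (⟨0,[(24,0)]⟩,⟨0,[(23,0)]⟩) .k 1 (⟨0,[]⟩,⟨0,[]⟩) .k .k) (.S ⟨1,0,[1,1],[0,0,0,0,1],[],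
  (⟨0,[(25,0)]⟩,⟨0,[(24,0)]⟩),⟨0,[(1,0)]⟩,.k,(.r (-1) ⟨27,[(4,5),(0,11),(2,3),(4,3),(20,4),(11,13),
  (0,2)]⟩ ⟨7,[(4,1),(5,3),(12,3),(17,0),(5,0)]⟩),⟨false,1,⟨7,[(4,1),(18,3),(10,0),(12,4)]⟩,⟨0,[]⟩⟩,
  ⟨true,0,⟨0,[(49,0)]⟩,⟨0,[]⟩⟩,⟨true,0,⟨0,[(6,0)]⟩,⟨0,[(44,0)]⟩⟩,⟨false,0,⟨0,[(45,0)]⟩,⟨27,[(4,5),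
  (0,11),(2,3),(4,3),(20,4),(12,16)]⟩⟩,[.o ⟨false,0,⟨0,[(5,0),(8,0)]⟩,⟨1,[(0,1),(33,0),(12,0)]⟩⟩,.a
  ⟨true,0,⟨0,[(23,0)]⟩,⟨0,[(0,0)]⟩⟩ ⟨false,1,⟨1,[(46,0),(0,0)]⟩,⟨0,[(49,0)]⟩⟩ ⟨true,0,⟨0,[]⟩,⟨1,
  [(29,0),(0,0)]⟩⟩,.e ⟨false,1,⟨7,[(4,1),(18,3),(10,0),(12,4)]⟩,⟨0,[]⟩⟩ ⟨false,0,⟨0,[]⟩,⟨7,[(4,1),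
  (18,3),(10,0),(12,4)]⟩⟩,.o ⟨false,0,⟨5,[(5,5),(4,2),(23,0),(6,1)]⟩,⟨0,[(3,0)]⟩⟩]⟩) (.R ⟨1,false,
  false,true,[0,0,1],[0,0,0,0,1],[1,0,0,-1,0,0,0,1],(⟨0,[(32,0)]⟩,⟨0,[(31,0)]⟩),(⟨0,[(25,0)]⟩,⟨0,
  [(24,0)]⟩),⟨0,[(21,0)]⟩,.k,.k,.k,.k,(.r 0 ⟨1,[(15,1),(22,0),(7,0)]⟩ ⟨7,[(4,1),(7,7),(1,7),(8,3),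
  (5,7),(4,0),(12,4)]⟩),.k,⟨true,0,⟨0,[(15,0),(31,0)]⟩,⟨0,[(12,0),(1,0),(14,0)]⟩⟩,⟨false,0,⟨13,[(0,
  12),(6,2),(0,1),(0,0),(13,0),(2,9),(19,3)]⟩,⟨0,[(3,0),(25,0)]⟩⟩,⟨false,1,⟨27,[(4,5),(0,11),(2,3),
  (4,3),(20,4),(12,16)]⟩,⟨0,[(45,0)]⟩⟩,⟨false,0,⟨0,[(0,0),(11,0)]⟩,⟨5,[(3,5),(3,3),(5,1),(15,3),(16,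
  0),(0,2)]⟩⟩,⟨true,0,⟨0,[]⟩,⟨0,[(49,0)]⟩⟩,⟨false,0,⟨0,[(0,0),(11,0),(32,0)]⟩,⟨2,[(3,2),(3,0),(5,1),
  (15,0),(9,0),(7,0)]⟩⟩,[.o ⟨false,0,⟨0,[(5,0),(8,0)]⟩,⟨9,[(2,0),(0,7),(20,1),(8,1),(5,9),(1,0)]⟩⟩,
  .o ⟨false,0,⟨0,[(0,0)]⟩,⟨3,[(4,1),(29,0),(12,0)]⟩⟩,.o ⟨false,1,⟨1,[(29,1),(4,0),(11,0)]⟩,⟨9,[(9,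
  1),(5,1),(3,1),(6,1),(7,2),(12,0)]⟩⟩,.a ⟨true,0,⟨0,[(29,0)]⟩,⟨0,[(26,0)]⟩⟩ ⟨true,0,⟨1,[(15,1),(30,
  0),(0,0)]⟩,⟨0,[(12,0),(1,0),(14,0)]⟩⟩ ⟨false,0,⟨0,[(0,0),(25,0)]⟩,⟨9,[(2,0),(0,7),(20,1),(4,9),(3,
  1),(5,9),(1,0)]⟩⟩]⟩)) (.I [1,0,0,-1,0,1,0,0,1] (.C [(0,0),(0,0),(0,0),(2,0),(4,0)]) (.C [(0,0),(0,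
  0),(3,0)]))) (.Q [0,0,-1,-1,1,0,1,0,0,0,1] (.p true [0,0,1] [] (⟨0,[(30,0)]⟩,⟨0,[(29,0)]⟩) .k 0
  (⟨0,[]⟩,⟨0,[]⟩) .k .k) (.Q [0,0,0,0,0,2,0,0,0,-1,1] (.p true [0,0,1] [1] (⟨0,[(31,0)]⟩,⟨0,[(30,
  0)]⟩) .k 1 (⟨0,[]⟩,⟨0,[]⟩) .k .k) (.R ⟨0,false,false,true,[1,-1,-1],[1,-1],[],(⟨0,[(20,0)]⟩,⟨1,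
  [(0,0),(23,0),(0,0),(6,0)]⟩),(⟨0,[(35,0)]⟩,⟨0,[(36,0)]⟩),⟨0,[(0,0)]⟩,.k,.k,(.r (-2) ⟨1,[(1,1),(6,
  0),(3,0),(21,0),(11,0)]⟩ ⟨3,[(7,1),(2,2),(7,1),(28,0)]⟩),.k,.k,.k,⟨true,0,⟨1,[(10,0),(36,0)]⟩,⟨0,
  [(44,0)]⟩⟩,⟨false,1,⟨0,[(29,0),(16,0)]⟩,⟨9,[(9,1),(5,1),(3,1),(6,1),(7,2),(12,0)]⟩⟩,⟨true,(-1),⟨0,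
  [(7,0)]⟩,⟨0,[(1,0),(26,0)]⟩⟩,⟨false,0,⟨0,[(1,0),(5,0)]⟩,⟨1,[(12,1),(21,0),(12,0)]⟩⟩,⟨false,0,⟨0,
  []⟩,⟨0,[]⟩⟩,⟨false,0,⟨0,[]⟩,⟨0,[]⟩⟩,[.o ⟨false,0,⟨0,[(44,0)]⟩,⟨0,[(14,0),(32,0)]⟩⟩,.a ⟨true,0,⟨3,
  [(8,0),(4,0),(10,2),(0,2)]⟩,⟨0,[(45,0)]⟩⟩ ⟨false,1,⟨1,[(46,0),(0,0)]⟩,⟨0,[(49,0)]⟩⟩ ⟨true,1,⟨0,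
  [(1,0)]⟩,⟨5,[(9,1),(0,2),(4,1),(14,1),(3,0),(4,1)]⟩⟩,.e ⟨false,1,⟨7,[(4,1),(18,3),(10,0),(12,4)]⟩,
  ⟨0,[]⟩⟩ ⟨false,1,⟨0,[(1,0)]⟩,⟨3,[(7,0),(1,0),(0,0),(8,0),(14,0),(12,1)]⟩⟩,.o ⟨false,(-1),⟨17,[(8,
  5),(0,3),(0,8),(4,9),(14,3),(3,4),(4,9)]⟩,⟨1,[(29,1),(4,0),(11,2)]⟩⟩]⟩) (.Q [-1,-1,0,0,1,0,0,0,-1,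
  0,0,-1] (.p false [0,0,0,0,1] [] (⟨0,[(25,0)]⟩,⟨0,[(24,0)]⟩) .k 0 (⟨0,[]⟩,⟨0,[]⟩) .k .k) (.Q [-1,
  0,0,0,0,0,0,0,-1,1,0,-1] (.p false [0,0,0,0,1] [1] (⟨0,[(26,0)]⟩,⟨0,[(25,0)]⟩) .k 1 (⟨0,[]⟩,⟨0,
  []⟩) .k .k) (.Q [0,0,0,0,0,-1,0,0,0,0,0,1] (.ed false [1,-1,0,0,1] .k) (.S ⟨1,0,[1,1],[0,0,0,0,1],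
  [],(⟨0,[(28,0)]⟩,⟨0,[(27,0)]⟩),⟨0,[(0,0)]⟩,.k,(.r (-1) ⟨9,[(4,5),(6,0),(4,0),(5,2),(14,1),(11,
  1)]⟩ ⟨7,[(7,1),(5,3),(12,3),(17,0),(5,0)]⟩),⟨false,1,⟨7,[(7,1),(18,3),(10,0),(12,4)]⟩,⟨0,[]⟩⟩,
  ⟨true,0,⟨0,[(52,0)]⟩,⟨0,[]⟩⟩,⟨true,0,⟨0,[(9,0)]⟩,⟨0,[(47,0)]⟩⟩,⟨false,0,⟨0,[(48,0)]⟩,⟨27,[(7,5),
  (0,11),(2,3),(4,3),(20,4),(12,16)]⟩⟩,[.o ⟨false,0,⟨0,[(8,0),(8,0)]⟩,⟨0,[(2,0)]⟩⟩,.a ⟨true,0,⟨0,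
  [(26,0)]⟩,⟨0,[(1,0)]⟩⟩ ⟨false,1,⟨1,[(49,0),(0,0)]⟩,⟨0,[(52,0)]⟩⟩ ⟨true,0,⟨0,[]⟩,⟨1,[(32,0),(0,
  0)]⟩⟩,.e ⟨false,1,⟨7,[(7,1),(18,3),(10,0),(12,4)]⟩,⟨0,[]⟩⟩ ⟨false,0,⟨0,[]⟩,⟨7,[(7,1),(18,3),(10,
  0),(12,4)]⟩⟩,.o ⟨false,0,⟨1,[(0,1),(4,0),(31,0)]⟩,⟨0,[(6,0)]⟩⟩]⟩) (.Q [0,0,0,-1,0,0,1,1,1,-1,1,1]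
  (.p true [0,0,1] [1,0,0,0,-1] (⟨0,[(35,0)]⟩,⟨0,[(34,0)]⟩) .k 2 (⟨0,[(27,0)]⟩,⟨0,[(28,0)]⟩) .k (.r
  0 ⟨1,[(20,0),(0,0),(28,0)]⟩ ⟨5,[(15,5),(16,5),(4,1),(6,0),(4,2)]⟩)) (.R ⟨0,false,false,true,[0,0,
  0,0,1],[0,1],[1,1,1],(⟨0,[(29,0)]⟩,⟨0,[(28,0)]⟩),(⟨0,[(40,0)]⟩,⟨0,[(39,0)]⟩),⟨0,[(1,0)]⟩,.k,.k,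
  (.r (-1) ⟨9,[(5,5),(6,0),(4,0),(5,2),(14,1),(11,1)]⟩ ⟨7,[(8,1),(5,3),(12,3),(17,0),(5,0)]⟩),(.r
  (-1) ⟨9,[(5,5),(6,0),(4,0),(5,2),(14,1),(11,1)]⟩ ⟨7,[(8,1),(5,3),(12,3),(17,0),(5,0)]⟩),.k,.k,
  ⟨false,1,⟨9,[(5,5),(6,0),(4,0),(5,2),(14,1),(11,1)]⟩,⟨0,[(49,0)]⟩⟩,⟨true,1,⟨0,[(7,0)]⟩,⟨2,[(0,1),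
  (11,1),(1,2),(12,0)]⟩⟩,⟨false,0,⟨1,[(33,0),(0,0)]⟩,⟨1,[(50,0),(0,0)]⟩⟩,⟨true,0,⟨0,[(2,0),(15,0)]⟩,
  ⟨0,[(9,0)]⟩⟩,⟨false,0,⟨0,[]⟩,⟨0,[]⟩⟩,⟨false,0,⟨0,[]⟩,⟨0,[]⟩⟩,[.o ⟨false,0,⟨0,[(18,0)]⟩,⟨27,[(8,5),
  (0,11),(2,3),(4,3),(20,4),(12,16)]⟩⟩,.e ⟨false,0,⟨0,[]⟩,⟨7,[(8,1),(18,3),(10,0),(11,3),(0,0)]⟩⟩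
  ⟨false,1,⟨0,[(7,0),(41,0)]⟩,⟨2,[(0,0),(11,0),(14,1)]⟩⟩,.a ⟨true,0,⟨0,[(27,0)]⟩,⟨0,[(2,0)]⟩⟩
  ⟨false,0,⟨1,[(33,0),(0,0)]⟩,⟨1,[(50,0),(0,0)]⟩⟩ ⟨true,0,⟨0,[(2,0),(15,0)]⟩,⟨2,[(0,0),(11,0),(14,
  1)]⟩⟩,.o ⟨false,0,⟨5,[(9,5),(4,2),(23,0),(6,1)]⟩,⟨0,[(7,0)]⟩⟩]⟩) (.S ⟨1,0,[-1,1],[1,0,0,0,-1],
  [-1],(⟨0,[(28,0)]⟩,⟨0,[(29,0)]⟩),⟨1,[(1,0),(2,0),(20,0),(2,0)]⟩,.k,(.r (-1) ⟨33,[(5,17),(6,2),(4,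
  2),(5,8),(18,1),(2,5),(2,3),(1,7)]⟩ ⟨7,[(8,1),(5,3),(12,3),(10,0),(12,0)]⟩),⟨false,1,⟨7,[(8,1),
  (18,3),(10,0),(12,4)]⟩,⟨0,[]⟩⟩,⟨true,0,⟨0,[(53,0)]⟩,⟨0,[]⟩⟩,⟨true,0,⟨0,[(49,0)]⟩,⟨0,[(48,0)]⟩⟩,
  ⟨false,0,⟨0,[(49,0)]⟩,⟨27,[(8,5),(0,11),(2,3),(4,3),(20,4),(12,16)]⟩⟩,[.o ⟨false,0,⟨5,[(0,2),(1,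
  2),(16,2),(13,2),(4,1),(5,2),(0,0)]⟩,⟨1,[(27,1),(10,0),(12,0)]⟩⟩,.e ⟨false,1,⟨1,[(42,0),(7,0)]⟩,
  ⟨0,[(53,0)]⟩⟩ ⟨false,1,⟨7,[(8,1),(18,3),(10,0),(11,3),(0,0)]⟩,⟨0,[]⟩⟩,.a ⟨true,0,⟨0,[(2,0)]⟩,⟨0,
  [(27,0)]⟩⟩ ⟨false,1,⟨7,[(8,1),(18,3),(10,0),(12,4)]⟩,⟨0,[]⟩⟩ ⟨true,0,⟨0,[(53,0)]⟩,⟨0,[]⟩⟩,.o
  ⟨false,0,⟨2,[(0,1),(2,0),(15,1),(13,1),(4,0),(4,0)]⟩,⟨1,[(27,1),(10,0),(11,0)]⟩⟩]⟩))) (.R ⟨1,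
  false,false,true,[0,0,1],[0,0,0,0,1],[0,0,0,0,0,0,0,1],(⟨0,[(34,0)]⟩,⟨0,[(33,0)]⟩),(⟨0,[(27,0)]⟩,
  ⟨0,[(26,0)]⟩),⟨0,[(23,0)]⟩,.k,.k,.k,.k,(.r 0 ⟨1,[(17,1),(22,0),(7,0)]⟩ ⟨7,[(6,1),(7,7),(1,7),(8,
  3),(5,7),(4,0),(12,4)]⟩),.k,⟨true,0,⟨0,[(19,0),(29,0)]⟩,⟨0,[(30,0),(0,0)]⟩⟩,⟨false,0,⟨13,[(0,12),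
  (8,2),(0,1),(0,0),(13,0),(2,9),(19,3)]⟩,⟨0,[(5,0),(25,0)]⟩⟩,⟨false,1,⟨7,[(6,1),(18,3),(10,0),(12,
  4)]⟩,⟨0,[]⟩⟩,⟨false,0,⟨0,[(0,0),(13,0)]⟩,⟨0,[(1,0),(1,0),(5,0)]⟩⟩,⟨true,0,⟨0,[(47,0)]⟩,⟨0,[(46,
  0)]⟩⟩,⟨false,0,⟨0,[(0,0),(13,0),(32,0)]⟩,⟨1,[(1,1),(1,0),(5,0),(5,0)]⟩⟩,[.o ⟨false,0,⟨0,[(7,0),(8,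
  0)]⟩,⟨0,[(1,0)]⟩⟩,.o ⟨false,0,⟨0,[(0,0)]⟩,⟨3,[(6,1),(29,0),(12,0)]⟩⟩,.o ⟨false,1,⟨1,[(31,1),(4,0),
  (11,0)]⟩,⟨9,[(11,1),(5,1),(3,1),(6,1),(7,2),(12,0)]⟩⟩,.a ⟨true,0,⟨0,[(31,0)]⟩,⟨0,[(28,0)]⟩⟩ ⟨true,
  0,⟨1,[(19,1),(28,0),(0,0)]⟩,⟨0,[(30,0),(0,0)]⟩⟩ ⟨false,0,⟨0,[(0,0),(27,0)]⟩,⟨0,[(1,0),(29,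
  0)]⟩⟩]⟩)) (.R ⟨2,true,false,true,[0,1],[0,0,0,0,1],[1,1,1],(⟨0,[]⟩,⟨0,[]⟩),(⟨0,[(26,0)]⟩,⟨0,[(25,
  0)]⟩),⟨0,[]⟩,.k,.k,.k,(.r 0 ⟨7,[(5,1),(5,3),(12,3),(17,0),(5,0)]⟩ ⟨9,[(2,5),(6,0),(4,0),(5,2),(14,
  1),(11,1)]⟩),.k,.k,⟨true,0,⟨1,[(30,0),(0,0)]⟩,⟨0,[]⟩⟩,⟨false,0,⟨0,[(24,0)]⟩,⟨0,[(4,0)]⟩⟩,⟨true,0,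
  ⟨0,[(45,0)]⟩,⟨0,[(46,0)]⟩⟩,⟨false,0,⟨0,[(6,0)]⟩,⟨1,[(4,1),(6,0),(27,0)]⟩⟩,⟨false,0,⟨0,[]⟩,⟨7,[(5,
  1),(18,3),(10,0),(12,4)]⟩⟩,⟨true,(-1),⟨0,[(0,0)]⟩,⟨3,[(5,1),(29,0),(12,0)]⟩⟩,[]⟩))) (.Q [0,0,0,0,
  0,2,0,0,0,-1,1] (.p true [0,0,1] [1] (⟨0,[(31,0)]⟩,⟨0,[(30,0)]⟩) .k 1 (⟨0,[]⟩,⟨0,[]⟩) .k .k) (.R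
  ⟨0,false,false,true,[1,-1,-1],[1,-1],[],(⟨0,[(20,0)]⟩,⟨1,[(0,0),(23,0),(0,0),(6,0)]⟩),(⟨0,[(35,
  0)]⟩,⟨0,[(36,0)]⟩),⟨0,[(0,0)]⟩,.k,.k,(.r (-2) ⟨1,[(8,1),(20,1),(4,0),(11,2)]⟩ ⟨3,[(7,1),(2,2),(7,
  1),(28,0)]⟩),.k,.k,.k,⟨true,0,⟨1,[(10,0),(36,0)]⟩,⟨0,[(44,0)]⟩⟩,⟨false,1,⟨0,[(29,0),(16,0)]⟩,⟨9,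
  [(9,1),(5,1),(3,1),(6,1),(7,2),(12,0)]⟩⟩,⟨true,(-1),⟨0,[(7,0)]⟩,⟨0,[(16,0),(12,0),(16,0)]⟩⟩,
  ⟨false,0,⟨2,[(7,1),(5,0),(15,1),(16,1)]⟩,⟨1,[(12,1),(21,0),(12,0)]⟩⟩,⟨false,0,⟨0,[]⟩,⟨0,[]⟩⟩,
  ⟨false,0,⟨0,[]⟩,⟨0,[]⟩⟩,[.o ⟨false,0,⟨0,[(44,0)]⟩,⟨0,[(14,0),(32,0)]⟩⟩,.e ⟨false,1,⟨1,[(46,0),(0,
  0)]⟩,⟨0,[(49,0)]⟩⟩ ⟨false,2,⟨27,[(4,5),(0,11),(2,3),(4,3),(15,27),(4,4),(11,41),(0,2)]⟩,⟨0,[(1,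
  0)]⟩⟩,.a ⟨true,(-1),⟨3,[(7,0),(1,2),(3,1),(10,0),(0,0)]⟩,⟨0,[(29,0),(16,0)]⟩⟩ ⟨false,1,⟨7,[(4,1),
  (18,3),(10,0),(12,4)]⟩,⟨0,[]⟩⟩ ⟨true,1,⟨0,[(29,0),(14,0),(1,0)]⟩,⟨0,[(1,0)]⟩⟩,.o ⟨false,(-1),⟨13,
  [(1,3),(6,5),(1,6),(4,5),(14,3),(3,2),(4,5)]⟩,⟨1,[(29,1),(4,0),(11,2)]⟩⟩]⟩) (.Q [-1,1,0,0,0,0,0,0,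
  -1,0,0,-1] (.p false [0,0,0,0,1] [] (⟨0,[(25,0)]⟩,⟨0,[(24,0)]⟩) .k 0 (⟨0,[]⟩,⟨0,[]⟩) .k .k) (.Q
  [0,0,0,0,0,-1,0,0,0,1,0,-1] (.ed true [0,1,0,0,1] .k) (.Q [1,0,0,-1,0,0,1,1,1,-1,1,1] (.p true [0,
  0,1] [1,0,0,0,-1] (⟨0,[(34,0)]⟩,⟨0,[(33,0)]⟩) .k 2 (⟨0,[(26,0)]⟩,⟨0,[(27,0)]⟩) .k (.r 0 ⟨1,[(19,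
  0),(0,0),(28,0)]⟩ ⟨5,[(14,5),(16,5),(4,1),(6,0),(4,2)]⟩)) (.R ⟨1,false,false,true,[1,0,0,0,-1],[1,
  -1],[-1],(⟨0,[(27,0)]⟩,⟨0,[(28,0)]⟩),(⟨0,[(38,0)]⟩,⟨0,[(39,0)]⟩),⟨0,[(1,0)]⟩,.k,.k,(.r (-1) ⟨83,
  [(7,17),(0,35),(2,11),(4,11),(20,3),(6,10),(4,41),(0,8)]⟩ ⟨7,[(7,1),(5,3),(12,3),(10,0),(12,0)]⟩),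
  (.r 0 ⟨7,[(7,1),(5,3),(12,3),(17,0),(5,0)]⟩ ⟨27,[(7,5),(0,11),(2,3),(4,3),(20,4),(11,13),(0,2)]⟩),
  .k,.k,⟨true,0,⟨0,[(4,0),(27,0),(8,0),(1,0)]⟩,⟨0,[(47,0)]⟩⟩,⟨false,0,⟨0,[(26,0)]⟩,⟨0,[(6,0)]⟩⟩,
  ⟨false,1,⟨7,[(7,1),(18,3),(10,0),(12,4)]⟩,⟨0,[]⟩⟩,⟨false,0,⟨0,[(8,0)]⟩,⟨1,[(6,1),(6,0),(27,0)]⟩⟩,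
  ⟨true,0,⟨0,[(48,0)]⟩,⟨0,[(47,0)]⟩⟩,⟨false,0,⟨0,[(26,0)]⟩,⟨0,[(2,0),(47,0)]⟩⟩,[.o ⟨false,0,⟨0,[(47,
  0)]⟩,⟨0,[(17,0),(32,0)]⟩⟩,.a ⟨true,0,⟨3,[(11,0),(4,0),(10,2),(0,2)]⟩,⟨0,[(48,0)]⟩⟩ ⟨false,1,⟨1,
  [(41,0),(7,0)]⟩,⟨0,[(52,0)]⟩⟩ ⟨true,0,⟨4,[(0,1),(8,0),(1,1),(14,2)]⟩,⟨1,[(2,1),(10,0),(36,0)]⟩⟩,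
  .e ⟨false,1,⟨7,[(7,1),(18,3),(10,0),(12,4)]⟩,⟨0,[]⟩⟩ ⟨false,0,⟨4,[(0,1),(8,0),(1,1),(14,2)]⟩,⟨1,
  [(6,1),(6,0),(36,0)]⟩⟩,.o ⟨false,0,⟨0,[(2,0),(39,0)]⟩,⟨1,[(26,1),(10,0),(11,0)]⟩⟩]⟩) (.S ⟨1,0,[-1,
  1],[1,0,0,0,-1],[-1],(⟨0,[(27,0)]⟩,⟨0,[(28,0)]⟩),⟨0,[(1,0)]⟩,.k,(.r (-1) ⟨83,[(7,17),(0,35),(2,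
  11),(4,11),(20,3),(6,10),(4,41),(0,8)]⟩ ⟨7,[(7,1),(5,3),(12,3),(10,0),(12,0)]⟩),⟨false,1,⟨7,[(7,
  1),(18,3),(10,0),(12,4)]⟩,⟨0,[]⟩⟩,⟨true,0,⟨0,[(52,0)]⟩,⟨0,[]⟩⟩,⟨true,0,⟨0,[(48,0)]⟩,⟨0,[(47,0)]⟩⟩,
  ⟨false,0,⟨0,[(48,0)]⟩,⟨27,[(7,5),(0,11),(2,3),(4,3),(20,4),(12,16)]⟩⟩,[.o ⟨false,0,⟨0,[(2,0)]⟩,⟨1,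
  [(26,1),(10,0),(12,0)]⟩⟩,.e ⟨false,1,⟨1,[(41,0),(7,0)]⟩,⟨0,[(52,0)]⟩⟩ ⟨false,1,⟨7,[(7,1),(18,3),
  (10,0),(11,3),(0,0)]⟩,⟨0,[]⟩⟩,.a ⟨true,0,⟨2,[(0,2),(9,0),(5,1),(15,0),(16,0)]⟩,⟨0,[(26,0)]⟩⟩
  ⟨false,1,⟨7,[(7,1),(18,3),(10,0),(12,4)]⟩,⟨0,[]⟩⟩ ⟨true,0,⟨0,[(52,0)]⟩,⟨0,[]⟩⟩,.o ⟨false,0,⟨0,[(2,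
  0),(39,0)]⟩,⟨1,[(26,1),(10,0),(11,0)]⟩⟩]⟩)) (.R ⟨0,false,false,true,[1,0,0,0,-1],[1,-1],[],(⟨0,
  [(26,0)]⟩,⟨0,[(27,0)]⟩),(⟨0,[(37,0)]⟩,⟨0,[(38,0)]⟩),⟨0,[(0,0)]⟩,.k,.k,(.r (-1) ⟨83,[(6,17),(0,35),
  (2,11),(4,11),(20,3),(6,10),(4,41),(0,8)]⟩ ⟨7,[(6,1),(5,3),(12,3),(10,0),(12,0)]⟩),(.r 0 ⟨7,[(6,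
  1),(5,3),(12,3),(17,0),(5,0)]⟩ ⟨27,[(6,5),(0,11),(2,3),(4,3),(20,4),(11,13),(0,2)]⟩),.k,.k,⟨true,
  0,⟨1,[(12,0),(36,0)]⟩,⟨0,[(46,0)]⟩⟩,⟨false,0,⟨0,[(25,0)]⟩,⟨0,[(5,0)]⟩⟩,⟨true,0,⟨0,[]⟩,⟨0,[(51,
  0)]⟩⟩,⟨false,0,⟨0,[(7,0)]⟩,⟨1,[(5,1),(6,0),(27,0)]⟩⟩,⟨false,0,⟨0,[]⟩,⟨0,[]⟩⟩,⟨false,0,⟨0,[]⟩,⟨0,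
  []⟩⟩,[.o ⟨false,0,⟨0,[(46,0)]⟩,⟨0,[(16,0),(32,0)]⟩⟩,.a ⟨true,0,⟨3,[(10,0),(4,0),(10,2),(0,2)]⟩,⟨0,
  [(47,0)]⟩⟩ ⟨false,1,⟨1,[(48,0),(0,0)]⟩,⟨0,[(51,0)]⟩⟩ ⟨true,0,⟨8,[(0,3),(1,2),(1,1),(2,4),(2,0),(4,
  0),(7,2),(11,0),(12,1)]⟩,⟨1,[(1,1),(10,0),(36,0)]⟩⟩,.e ⟨false,1,⟨7,[(6,1),(18,3),(10,0),(12,4)]⟩,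
  ⟨0,[]⟩⟩ ⟨false,0,⟨8,[(0,3),(1,2),(1,1),(2,4),(2,0),(4,0),(7,2),(11,0),(12,1)]⟩,⟨1,[(5,1),(6,0),
  (36,0)]⟩⟩,.o ⟨false,0,⟨0,[(1,0),(39,0)]⟩,⟨1,[(25,1),(10,0),(11,0)]⟩⟩]⟩)) (.Q [-1,1,0,1,0,0,0,0,-1,
  0,0,-1] (.p false [0,0,0,0,1] [] (⟨0,[(26,0)]⟩,⟨0,[(25,0)]⟩) .k 0 (⟨0,[]⟩,⟨0,[]⟩) .k .k) (.R ⟨2,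
  true,false,false,[0,1],[0,0,0,0,1],[1,1],(⟨0,[]⟩,⟨0,[]⟩),(⟨0,[(27,0)]⟩,⟨0,[(26,0)]⟩),⟨0,[]⟩,.k,.k,
  .k,(.r 0 ⟨7,[(6,1),(5,3),(12,3),(17,0),(5,0)]⟩ ⟨27,[(6,5),(0,11),(2,3),(4,3),(20,4),(11,13),(0,
  2)]⟩),.k,.k,⟨true,0,⟨0,[(51,0)]⟩,⟨0,[(45,0)]⟩⟩,⟨false,0,⟨0,[(25,0)]⟩,⟨0,[(5,0)]⟩⟩,⟨false,1,⟨27,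
  [(6,5),(0,11),(2,3),(4,3),(20,4),(11,13),(0,2)]⟩,⟨1,[(12,0),(36,0)]⟩⟩,⟨true,0,⟨0,[(7,0)]⟩,⟨0,[(0,
  0)]⟩⟩,⟨true,0,⟨0,[(42,0)]⟩,⟨1,[(31,0),(0,0)]⟩⟩,⟨false,0,⟨0,[(1,0)]⟩,⟨3,[(6,1),(29,0),(12,0)]⟩⟩,
  []⟩) (.I [0,0,-1,0,1,0,0,0,-1] (.I [0,0,2,1,-1] (.C [(0,0),(1,0),(4,0),(36,0)]) (.C [(0,0),(4,0),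
  (27,0)])) (.C [(0,0),(5,0),(21,0)]))))))) (.Q [0,0,0,0,0,-1,0,0,0,0,0,1] (.ed false [1,-1,0,0,1]
  .k) (.Q [0,0,-1,0,1,0,0,0,-1,1,0,-1] (.p false [0,0,0,0,1] [1] (⟨0,[(23,0)]⟩,⟨0,[(22,0)]⟩) .k 1
  (⟨0,[]⟩,⟨0,[]⟩) .k .k) (.S ⟨1,0,[1,1],[0,0,0,0,1],[],(⟨0,[(24,0)]⟩,⟨0,[(23,0)]⟩),⟨0,[(1,0)]⟩,.k,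
  (.r (-1) ⟨27,[(3,5),(0,11),(2,3),(4,3),(20,4),(11,13),(0,2)]⟩ ⟨7,[(3,1),(5,3),(12,3),(17,0),(5,
  0)]⟩),⟨false,1,⟨7,[(3,1),(18,3),(10,0),(12,4)]⟩,⟨0,[]⟩⟩,⟨true,0,⟨0,[(48,0)]⟩,⟨0,[]⟩⟩,⟨true,0,⟨0,
  [(5,0)]⟩,⟨0,[(43,0)]⟩⟩,⟨false,0,⟨0,[(44,0)]⟩,⟨27,[(3,5),(0,11),(2,3),(4,3),(20,4),(12,16)]⟩⟩,[.e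
  ⟨false,1,⟨7,[(3,1),(18,3),(10,0),(11,3),(0,0)]⟩,⟨0,[]⟩⟩ ⟨false,0,⟨0,[(39,0)]⟩,⟨7,[(3,1),(18,3),
  (10,0),(12,4)]⟩⟩,.o ⟨false,0,⟨1,[(2,1),(30,0),(11,0)]⟩,⟨3,[(3,1),(29,0),(12,0)]⟩⟩,.o ⟨false,0,⟨1,
  [(2,1),(30,0),(11,0)]⟩,⟨0,[(21,0)]⟩⟩,.a ⟨true,(-1),⟨0,[(2,0)]⟩,⟨0,[(0,0)]⟩⟩ ⟨false,1,⟨1,[(45,0),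
  (0,0)]⟩,⟨1,[(28,0),(0,0)]⟩⟩ ⟨true,0,⟨0,[(39,0)]⟩,⟨1,[(28,0),(0,0)]⟩⟩]⟩) (.R ⟨1,false,false,false,
  [0,0,0,0,1],[0,0,1],[],(⟨0,[(24,0)]⟩,⟨0,[(23,0)]⟩),(⟨0,[(31,0)]⟩,⟨0,[(30,0)]⟩),⟨0,[(1,0)]⟩,.k,.k,
  (.r (-1) ⟨27,[(3,5),(0,11),(2,3),(4,3),(20,4),(11,13),(0,2)]⟩ ⟨7,[(3,1),(5,3),(12,3),(17,0),(5,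
  0)]⟩),.k,(.r (-2) ⟨7,[(3,1),(0,3),(2,1),(3,5),(16,7),(4,4),(11,7),(0,0)]⟩ ⟨0,[(6,0)]⟩),.k,⟨true,1,
  ⟨1,[(11,1),(16,1),(4,0),(11,0)]⟩,⟨1,[(6,0),(7,0),(23,0)]⟩⟩,⟨false,2,⟨3,[(3,1),(24,3),(4,0),(11,3),
  (0,0)]⟩,⟨0,[(0,0),(24,0)]⟩⟩,⟨false,1,⟨7,[(3,1),(18,3),(10,0),(12,4)]⟩,⟨0,[]⟩⟩,⟨true,1,⟨11,[(3,5),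
  (2,7),(5,3),(15,7),(4,2),(11,7),(0,2)]⟩,⟨0,[(0,0),(10,0),(27,0)]⟩⟩,⟨true,0,⟨0,[(5,0)]⟩,⟨0,[(43,
  0)]⟩⟩,⟨true,1,⟨3,[(3,1),(2,3),(21,3),(4,0),(11,3),(0,0)]⟩,⟨1,[(0,1),(6,0),(3,0),(27,1)]⟩⟩,[.a
  ⟨true,0,⟨2,[(6,1),(5,0),(15,1),(16,1)]⟩,⟨0,[(11,0)]⟩⟩ ⟨false,1,⟨7,[(3,1),(18,3),(10,0),(11,3),(0,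
  0)]⟩,⟨0,[]⟩⟩ ⟨true,1,⟨11,[(3,5),(2,7),(5,3),(15,7),(4,2),(11,7),(0,2)]⟩,⟨0,[(0,0),(10,0)]⟩⟩,.o
  ⟨false,1,⟨5,[(6,3),(5,1),(15,3),(4,2),(11,3),(0,2)]⟩,⟨0,[(27,0)]⟩⟩,.o ⟨false,0,⟨3,[(0,1),(21,1),
  (10,0),(11,0)]⟩,⟨0,[(21,0)]⟩⟩,.o ⟨false,(-1),⟨0,[(0,0)]⟩,⟨7,[(3,5),(18,3),(10,2),(11,3),(0,
  2)]⟩⟩]⟩)) (.Q [0,0,1,1,-1,0,-1,-1,1,0,-1,1] (.p false [0,0,1] [0,0,0,0,1] (⟨0,[(30,0)]⟩,⟨0,[(29,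
  0)]⟩) .k 2 (⟨0,[(23,0)]⟩,⟨0,[(22,0)]⟩) .k (.r 0 ⟨1,[(15,0),(0,0),(19,0)]⟩ ⟨1,[(10,1),(16,1),(4,0),
  (11,0)]⟩)) (.R ⟨0,false,false,false,[0,0,0,0,1],[0,1],[1,1,1],(⟨0,[(24,0)]⟩,⟨0,[(23,0)]⟩),(⟨0,
  [(35,0)]⟩,⟨0,[(34,0)]⟩),⟨0,[(1,0)]⟩,.k,.k,(.r (-1) ⟨27,[(3,5),(0,11),(2,3),(4,3),(20,4),(11,13),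
  (0,2)]⟩ ⟨7,[(3,1),(5,3),(12,3),(17,0),(5,0)]⟩),(.r (-1) ⟨27,[(3,5),(0,11),(2,3),(4,3),(20,4),(11,
  13),(0,2)]⟩ ⟨7,[(3,1),(5,3),(12,3),(17,0),(5,0)]⟩),.k,.k,⟨true,0,⟨0,[(43,0)]⟩,⟨1,[(9,0),(36,0)]⟩⟩,
  ⟨false,2,⟨3,[(3,1),(29,0),(11,3),(0,0)]⟩,⟨0,[(2,0)]⟩⟩,⟨false,0,⟨1,[(28,0),(0,0)]⟩,⟨1,[(45,0),(0,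
  0)]⟩⟩,⟨true,1,⟨1,[(3,0),(9,0),(30,0),(1,0)]⟩,⟨0,[(0,0),(11,0),(26,0)]⟩⟩,⟨false,0,⟨0,[]⟩,⟨0,[]⟩⟩,
  ⟨false,0,⟨0,[]⟩,⟨0,[]⟩⟩,[.a ⟨true,0,⟨0,[(44,0)]⟩,⟨3,[(7,0),(4,0),(10,2),(0,2)]⟩⟩ ⟨false,0,⟨0,[(48,
  0)]⟩,⟨1,[(45,0),(0,0)]⟩⟩ ⟨true,1,⟨1,[(3,0),(9,0),(30,0),(1,0)]⟩,⟨0,[(0,0),(11,0)]⟩⟩,.o ⟨false,1,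
  ⟨0,[(13,0),(32,0)]⟩,⟨0,[(43,0)]⟩⟩,.o ⟨false,0,⟨1,[(2,1),(30,0),(11,0)]⟩,⟨0,[(21,0)]⟩⟩,.e ⟨false,0,
  ⟨0,[]⟩,⟨7,[(3,1),(18,3),(10,0),(12,4)]⟩⟩ ⟨false,2,⟨1,[(3,0),(9,0),(30,0),(0,0),(0,1)]⟩,⟨0,[(0,0),
  (11,0)]⟩⟩]⟩) (.S ⟨1,0,[-1,1],[1,0,0,0,-1],[-1],(⟨0,[(23,0)]⟩,⟨0,[(24,0)]⟩),⟨0,[(1,0),(17,0),(0,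
  0)]⟩,.k,(.r (-1) ⟨111,[(0,13),(2,19),(0,53),(2,17),(4,3),(24,9),(2,18),(4,48)]⟩ ⟨7,[(3,1),(5,3),
  (12,3),(10,0),(12,0)]⟩),⟨false,1,⟨7,[(3,1),(18,3),(10,0),(12,4)]⟩,⟨0,[]⟩⟩,⟨true,0,⟨0,[(48,0)]⟩,⟨0,
  []⟩⟩,⟨true,0,⟨0,[(44,0)]⟩,⟨0,[(43,0)]⟩⟩,⟨false,0,⟨0,[(44,0)]⟩,⟨27,[(3,5),(0,11),(2,3),(4,3),(20,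
  4),(12,16)]⟩⟩,[.a ⟨true,0,⟨1,[(0,1),(4,0),(1,0),(0,0),(0,0),(18,0),(10,1)]⟩,⟨1,[(2,1),(42,0),(0,
  0)]⟩⟩ ⟨false,1,⟨7,[(3,1),(18,3),(10,0),(11,3),(0,0)]⟩,⟨0,[]⟩⟩ ⟨true,0,⟨0,[(48,0)]⟩,⟨0,[(38,0)]⟩⟩,
  .o ⟨false,1,⟨3,[(3,1),(29,0),(12,0)]⟩,⟨1,[(2,1),(30,0),(11,0)]⟩⟩,.o ⟨false,1,⟨0,[(21,0)]⟩,⟨1,[(2,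
  1),(30,0),(11,0)]⟩⟩,.e ⟨false,1,⟨1,[(37,0),(7,0)]⟩,⟨1,[(28,0),(0,0)]⟩⟩ ⟨false,1,⟨7,[(3,1),(18,3),
  (10,0),(11,3),(0,0)]⟩,⟨0,[(38,0)]⟩⟩]⟩)))))) (.N [0,2] 1 ⟨0,[(4,0)]⟩ ⟨0,[(0,1),(31,0),(1,1)]⟩ (.x
  (-2) ⟨0,[(28,0),(0,1),(10,0)]⟩ ⟨0,[(0,1),(3,0),(22,1)]⟩))))

theorem ok20 : chk K t20 l17 = true := by decide +kernel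


end Helper48.Y.Y11_c35_P4_m1n1_CB
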