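import Pool.Agent.Helper48.Y.Y11_c35_P4_m1n1_CC_q

set_option autoImplicit false
set_option linter.all false

namespace Helper48.Y.Y11_c35_P4_m1n1_CC

open Helper25.KG Helper25.KW Helper55.KE Helper11.CT

noncomputable def t25 : Tre :=
  (.Q [0,0,1,0,-1,0,-1,0,0,1,-1] (.p false [0,0,1] [1] (⟨0,[(27,0)]⟩,⟨0,[(26,0)]⟩) .k 1 (⟨0,[]⟩,⟨0,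
  []⟩) .k .k) (.Q [0,0,0,0,0,-2,0,0,0,1,-1] (.p false [0,0,1] [1] (⟨0,[(28,0)]⟩,⟨0,[(27,0)]⟩) .k 1
  (⟨0,[]⟩,⟨0,[]⟩) .k .k) (.I [1,0,2,2,-1] (.Q [0,1,0,2,0,0,1,1,0,-1,1] (.p true [0,0,1] [1] (⟨0,
  [(30,0)]⟩,⟨0,[(29,0)]⟩) .k 1 (⟨0,[]⟩,⟨0,[]⟩) .k .k) (.Q [0,-1,0,1,1,0,1,1,0,-1,1] (.p true [0,0,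
  1] [1] (⟨0,[(31,0)]⟩,⟨0,[(30,0)]⟩) .k 1 (⟨0,[]⟩,⟨0,[]⟩) .k .k) (.S ⟨1,0,[0,1,-1,-1,0,0,0,-1],[1,
  -1,-1],[1,0,-1,-2,0,0,0,-1],(⟨0,[(20,0)]⟩,⟨0,[(32,0),(0,0)]⟩),⟨0,[(3,0)]⟩,.k,(.r (-2) ⟨5,[(5,5),
  (4,1),(7,1),(9,3),(15,2),(0,0)]⟩ ⟨0,[(1,0),(2,0),(33,0)]⟩),⟨false,1,⟨3,[(18,1),(3,0),(0,0),(21,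
  0)]⟩,⟨0,[(43,0)]⟩⟩,⟨true,0,⟨0,[(47,0)]⟩,⟨0,[]⟩⟩,⟨true,0,⟨0,[]⟩,⟨0,[(47,0)]⟩⟩,⟨false,0,⟨0,[(43,
  0)]⟩,⟨3,[(18,1),(3,0),(0,0),(21,0)]⟩⟩,[.o ⟨false,0,⟨1,[(10,0),(17,0),(13,0)]⟩,⟨0,[(0,0)]⟩⟩,.o
  ⟨false,0,⟨0,[(10,0)]⟩,⟨4,[(0,3),(6,0),(9,0),(4,0),(0,0),(13,0)]⟩⟩,.a ⟨true,(-1),⟨0,[(4,0)]⟩,⟨1,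
  [(2,0),(2,1),(38,0)]⟩⟩ ⟨true,1,⟨0,[(5,0),(4,0)]⟩,⟨0,[(1,0),(2,0)]⟩⟩ ⟨false,1,⟨3,[(5,1),(4,1),(2,
  1),(30,0),(0,0)]⟩,⟨1,[(2,0),(8,1),(33,0)]⟩⟩,.o ⟨false,(-1),⟨0,[(2,0),(5,0),(1,0)]⟩,⟨3,[(5,1),(1,
  1),(31,0),(4,3),(0,0)]⟩⟩]⟩) (.R ⟨1,true,false,true,[1,0,-1],[0,1],[1,1,0,-1,0,0,0,-1],(⟨0,[(31,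
  0)]⟩,⟨0,[(32,0)]⟩),(⟨0,[(36,0)]⟩,⟨0,[(35,0)]⟩),⟨0,[(20,0)]⟩,.k,.k,.k,.k,(.r (-2) ⟨5,[(5,5),(4,1),
  (7,1),(9,3),(15,2),(0,0)]⟩ ⟨0,[(0,2),(0,2),(6,0),(29,5),(5,1)]⟩),.k,⟨true,1,⟨0,[(5,0),(4,0)]⟩,⟨0,
  [(0,2),(0,2),(6,0),(29,5),(5,1)]⟩⟩,⟨false,2,⟨3,[(5,1),(1,1),(31,0),(4,3),(0,0)]⟩,⟨0,[(4,0)]⟩⟩,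
  ⟨true,0,⟨0,[(42,0)]⟩,⟨0,[(43,0)]⟩⟩,⟨false,1,⟨7,[(1,3),(3,1),(1,1),(9,3),(21,0),(5,4)]⟩,⟨0,[(0,0),
  (44,0)]⟩⟩,⟨false,0,⟨0,[]⟩,⟨1,[(22,0),(0,0),(21,0)]⟩⟩,⟨true,0,⟨0,[(1,0)]⟩,⟨2,[(0,0),(9,0),(4,1),
  (12,0),(16,0)]⟩⟩,[]⟩)) (.I [1,0,2,1,-1] (.I [0,-1,-1,-1,1] (.S ⟨1,0,[0,1,-1,-1],[1,-1],[0,0,-1,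
  -1],(⟨0,[(36,0)]⟩,⟨0,[(37,0)]⟩),⟨1,[(4,0),(17,0),(13,0)]⟩,.k,(.r (-2) ⟨5,[(6,3),(12,3),(0,1),(17,
  1),(1,0),(4,2)]⟩ ⟨0,[(1,0),(42,0)]⟩),⟨false,1,⟨1,[(23,0),(0,0),(21,0)]⟩,⟨0,[]⟩⟩,⟨true,0,⟨0,[(48,
  0)]⟩,⟨0,[]⟩⟩,⟨true,0,⟨0,[(44,0)]⟩,⟨0,[(43,0)]⟩⟩,⟨false,0,⟨0,[(44,0)]⟩,⟨3,[(19,1),(3,0),(0,0),(21,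
  0)]⟩⟩,[.o ⟨false,0,⟨0,[(43,0)]⟩,⟨0,[(7,0),(38,0)]⟩⟩,.e ⟨true,1,⟨0,[(0,0)]⟩,⟨0,[(3,0),(39,0)]⟩⟩
  ⟨true,1,⟨11,[(6,3),(12,3),(0,1),(17,1),(1,0),(4,2)]⟩,⟨0,[(1,0)]⟩⟩,.o ⟨false,0,⟨1,[(30,0),(0,0)]⟩,
  ⟨1,[(40,0),(4,0)]⟩⟩,.a ⟨true,(-1),⟨0,[(3,0),(12,0)]⟩,⟨0,[(45,0)]⟩⟩ ⟨false,2,⟨3,[(19,1),(3,0),(0,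
  0),(20,3),(0,0)]⟩,⟨0,[(1,0)]⟩⟩ ⟨true,1,⟨4,[(6,0),(2,0),(1,0),(7,0),(18,2),(6,2)]⟩,⟨0,[(1,0)]⟩⟩]⟩)
  (.Q [0,0,0,2,0,0,1,1,0,0,1] (.p true [0,0,1] [] (⟨0,[(33,0)]⟩,⟨0,[(32,0)]⟩) .k 0 (⟨0,[]⟩,⟨0,[]⟩)
  .k .k) (.S ⟨1,3,[],[1,-1,-1],[0,1,-1,-1,0,0,0,-1],(⟨0,[(22,0)]⟩,⟨0,[(34,0),(0,0)]⟩),⟨0,[(5,0)]⟩,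
  .k,(.r (-2) ⟨5,[(7,5),(4,1),(7,1),(9,3),(15,2),(0,0)]⟩ ⟨1,[(0,5),(0,5),(1,5),(6,1),(30,2),(4,
  0)]⟩),⟨true,0,⟨0,[(49,0)]⟩,⟨0,[]⟩⟩,⟨false,1,⟨3,[(0,1),(23,0),(0,0),(3,1),(17,2)]⟩,⟨0,[(12,0)]⟩⟩,
  ⟨false,0,⟨0,[(45,0)]⟩,⟨3,[(20,1),(3,0),(0,0),(21,0)]⟩⟩,⟨true,0,⟨0,[(0,0)]⟩,⟨0,[(12,0),(31,0)]⟩⟩,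
  [.fa ⟨false,1,⟨0,[(1,0),(5,0),(4,0),(33,0)]⟩,⟨1,[(4,0),(8,1),(33,0)]⟩⟩ ⟨true,1,⟨5,[(0,1),(6,3),(7,
  1),(30,0),(0,0)]⟩,⟨2,[(2,1),(3,1),(3,0),(1,0),(28,0)]⟩⟩,.a ⟨true,0,⟨0,[(0,0),(2,0)]⟩,⟨0,[(49,
  0)]⟩⟩ ⟨true,1,⟨3,[(7,1),(4,1),(2,1),(30,0),(0,0)]⟩,⟨0,[(4,0),(5,0)]⟩⟩ ⟨false,2,⟨2,[(0,0),(6,1),(7,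
  0),(30,1),(0,1)]⟩,⟨1,[(1,0),(8,0),(0,0),(0,0)]⟩⟩,.a ⟨true,(-1),⟨0,[(6,0)]⟩,⟨5,[(0,1),(6,3),(7,1),
  (30,0),(0,0)]⟩⟩ ⟨false,1,⟨3,[(7,1),(4,1),(2,1),(30,0),(0,0)]⟩,⟨1,[(4,0),(8,1),(33,0)]⟩⟩ ⟨true,1,
  ⟨5,[(0,1),(6,3),(7,1),(30,0),(0,0)]⟩,⟨1,[(1,0),(8,0),(0,0),(0,0)]⟩⟩,.o ⟨false,(-1),⟨2,[(2,1),(3,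
  1),(3,0),(1,0),(28,0)]⟩,⟨3,[(7,1),(1,1),(31,0),(4,3),(0,0)]⟩⟩]⟩) (.I [0,-1,1,1,0,0,0,-1] (.S ⟨1,0,
  [0,0,0,0,0,0,0,1],[0,0,1],[1,1,0,-1,0,0,0,1],(⟨0,[(35,0)]⟩,⟨0,[(34,0)]⟩),⟨0,[(24,0)]⟩,.k,.k,⟨true,
  0,⟨0,[(45,0)]⟩,⟨0,[(46,0)]⟩⟩,⟨false,1,⟨1,[(25,0),(0,0),(21,0)]⟩,⟨0,[]⟩⟩,⟨false,0,⟨0,[]⟩,⟨1,[(25,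
  0),(0,0),(21,0)]⟩⟩,⟨true,0,⟨0,[(46,0)]⟩,⟨0,[(45,0)]⟩⟩,[.o ⟨false,1,⟨1,[(30,1),(11,0),(5,0)]⟩,⟨0,
  [(19,0)]⟩⟩,.a ⟨true,1,⟨0,[(30,0),(17,0)]⟩,⟨0,[(2,1),(1,0),(42,0)]⟩⟩ ⟨true,0,⟨0,[(11,0)]⟩,⟨3,[(0,
  1),(4,0),(10,1),(8,0),(0,0)]⟩⟩ ⟨false,1,⟨1,[(14,1),(32,0),(0,0)]⟩,⟨0,[(16,0)]⟩⟩,.o ⟨false,1,⟨3,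
  [(8,1),(1,1),(31,0),(5,0)]⟩,⟨0,[(17,0)]⟩⟩,.e ⟨false,1,⟨5,[(11,1),(8,3),(0,1),(25,2),(0,0)]⟩,⟨0,
  [(0,0)]⟩⟩ ⟨false,1,⟨1,[(14,1),(32,0),(0,0)]⟩,⟨4,[(0,1),(0,0),(14,1),(15,1),(0,0)]⟩⟩]⟩) (.Q [1,0,0,
  -1,0,0,0,0,1,0,0,1] (.p true [0,0,0,0,1] [] (⟨0,[(28,0)]⟩,⟨0,[(27,0)]⟩) .k 0 (⟨0,[]⟩,⟨0,[]⟩) .k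
  .k) (.Q [1,0,0,0,-1,0,0,0,1,0,0,1] (.p true [0,0,0,0,1] [] (⟨0,[(29,0)]⟩,⟨0,[(28,0)]⟩) .k 0 (⟨0,
  []⟩,⟨0,[]⟩) .k .k) (.R ⟨2,true,false,false,[0,1],[0,0,0,0,1],[],(⟨0,[]⟩,⟨0,[]⟩),(⟨0,[(30,0)]⟩,⟨0,
  [(29,0)]⟩),⟨0,[]⟩,.k,.k,.k,(.r 0 ⟨9,[(7,4),(19,2),(0,2),(21,1),(1,3)]⟩ ⟨11,[(10,3),(12,3),(0,1),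
  (17,1),(1,0),(4,2)]⟩),.k,.k,⟨false,1,⟨9,[(27,3),(0,3),(20,4),(0,0),(1,1)]⟩,⟨0,[]⟩⟩,⟨true,(-1),⟨3,
  [(0,2),(0,0),(3,0),(45,1)]⟩,⟨0,[(27,0)]⟩⟩,⟨true,1,⟨11,[(10,3),(12,3),(0,1),(17,1),(1,0),(4,2)]⟩,
  ⟨0,[(4,0)]⟩⟩,⟨false,0,⟨2,[(0,1),(0,0),(21,0),(26,0)]⟩,⟨0,[(27,0),(20,0)]⟩⟩,⟨false,1,⟨1,[(49,0),(0,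
  0)]⟩,⟨1,[(34,0),(0,0)]⟩⟩,⟨true,(-1),⟨0,[(0,0)]⟩,⟨0,[(27,0),(24,0)]⟩⟩,[]⟩) (.Q [-1,-1,0,0,1,0,0,0,
  -1,0,0,-1] (.p false [0,0,0,0,1] [] (⟨0,[(30,0)]⟩,⟨0,[(29,0)]⟩) .k 0 (⟨0,[]⟩,⟨0,[]⟩) .k .k) (.Q
  [-1,0,0,2,0,0,0,0,-1,0,0,-1] (.p false [0,0,0,0,1] [] (⟨0,[(31,0)]⟩,⟨0,[(30,0)]⟩) .k 0 (⟨0,[]⟩,⟨0,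
  []⟩) .k .k) (.R ⟨1,true,false,false,[1,-1],[1,0,0,0,-1],[0,1,-1,-1],(⟨0,[(42,0)]⟩,⟨0,[(43,0)]⟩),
  (⟨0,[(31,0)]⟩,⟨0,[(32,0)]⟩),⟨1,[(10,0),(17,0),(13,0)]⟩,.k,.k,(.r (-2) ⟨5,[(12,3),(12,3),(0,1),(17,
  1),(1,0),(4,2)]⟩ ⟨0,[(6,1),(38,1),(5,0)]⟩),(.r (-1) ⟨11,[(12,3),(12,3),(0,1),(17,1),(1,0),(4,2)]⟩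
  ⟨7,[(2,2),(6,3),(20,2),(21,0),(1,1)]⟩),(.r (-2) ⟨5,[(12,3),(12,3),(0,1),(17,1),(1,0),(4,2)]⟩ ⟨0,
  [(6,1),(38,1),(5,0)]⟩),.k,⟨false,1,⟨9,[(4,0),(0,0),(6,0),(12,2),(18,5),(6,5)]⟩,⟨1,[(9,0),(42,
  0)]⟩⟩,⟨true,1,⟨3,[(0,1),(0,0),(2,0),(0,0),(6,0),(16,0),(21,0)]⟩,⟨0,[(3,0),(2,0),(38,0)]⟩⟩,⟨true,0,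
  ⟨0,[(54,0)]⟩,⟨0,[]⟩⟩,⟨false,1,⟨1,[(0,0),(28,0),(22,0)]⟩,⟨0,[(3,0)]⟩⟩,⟨false,0,⟨0,[(50,0)]⟩,⟨3,
  [(25,1),(3,0),(0,0),(21,0)]⟩⟩,⟨true,0,⟨0,[(0,0)]⟩,⟨0,[(3,0),(45,0)]⟩⟩,[]⟩) (.Q [0,0,0,0,0,-1,0,0,
  0,0,0,1] (.ed false [1,-1,0,0,1] .k) (.Q [0,0,-1,0,1,0,0,0,-1,0,0,-1] (.p false [0,0,0,0,1] []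
  (⟨0,[(33,0)]⟩,⟨0,[(32,0)]⟩) .k 0 (⟨0,[]⟩,⟨0,[]⟩) .k .k) (.R ⟨1,false,false,false,[0,0,0,0,1],[0,
  1],[1,1],(⟨0,[(34,0)]⟩,⟨0,[(33,0)]⟩),(⟨0,[(45,0)]⟩,⟨0,[(44,0)]⟩),⟨0,[(1,0)]⟩,.k,.k,(.r (-1) ⟨11,
  [(14,3),(12,3),(0,1),(17,1),(1,0),(4,2)]⟩ ⟨7,[(4,2),(6,3),(20,2),(21,0),(1,1)]⟩),(.r (-1) ⟨11,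
  [(14,3),(12,3),(0,1),(17,1),(1,0),(4,2)]⟩ ⟨7,[(4,2),(6,3),(20,2),(21,0),(1,1)]⟩),(.r (-2) ⟨5,[(14,
  3),(12,3),(0,1),(17,1),(1,0),(4,2)]⟩ ⟨0,[(8,1),(38,1),(5,0)]⟩),.k,⟨false,1,⟨9,[(6,0),(0,0),(6,0),
  (12,2),(18,5),(6,5)]⟩,⟨1,[(11,0),(42,0)]⟩⟩,⟨true,1,⟨0,[(0,0)]⟩,⟨1,[(2,0),(5,0),(0,0),(22,0),(14,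
  0)]⟩⟩,⟨true,0,⟨0,[(56,0)]⟩,⟨0,[]⟩⟩,⟨false,1,⟨2,[(0,1),(2,0),(7,0),(40,0),(1,0)]⟩,⟨0,[(5,0)]⟩⟩,
  ⟨false,0,⟨0,[(52,0)]⟩,⟨3,[(27,1),(3,0),(0,0),(21,0)]⟩⟩,⟨false,1,⟨1,[(0,1),(10,1),(41,0),(0,0)]⟩,
  ⟨0,[(2,0)]⟩⟩,[.a ⟨true,0,⟨0,[(52,0)]⟩,⟨1,[(24,0),(15,0),(0,0)]⟩⟩ ⟨true,0,⟨0,[(56,0)]⟩,⟨0,[(47,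
  0)]⟩⟩ ⟨false,1,⟨1,[(0,1),(10,0),(41,0)]⟩,⟨0,[(2,0),(49,0)]⟩⟩,.o ⟨false,1,⟨0,[(15,0),(38,0)]⟩,⟨0,
  [(51,0)]⟩⟩,.e ⟨false,0,⟨0,[]⟩,⟨1,[(31,0),(0,0),(21,0)]⟩⟩ ⟨false,1,⟨1,[(0,1),(10,0),(42,0)]⟩,⟨0,
  [(2,0),(49,0)]⟩⟩,.o ⟨false,0,⟨1,[(2,0),(8,0),(20,0),(15,0)]⟩,⟨0,[(0,0)]⟩⟩]⟩) (.S ⟨1,0,[1],[0,0,0,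
  0,1],[1,1],(⟨0,[(34,0)]⟩,⟨0,[(33,0)]⟩),⟨0,[(1,0)]⟩,.k,(.r (-1) ⟨11,[(14,3),(12,3),(0,1),(17,1),(1,
  0),(4,2)]⟩ ⟨7,[(4,2),(6,3),(20,2),(21,0),(1,1)]⟩),⟨true,0,⟨0,[(56,0)]⟩,⟨0,[]⟩⟩,⟨false,1,⟨1,[(31,
  0),(0,0),(21,0)]⟩,⟨0,[]⟩⟩,⟨false,0,⟨0,[(52,0)]⟩,⟨3,[(27,1),(3,0),(0,0),(21,0)]⟩⟩,⟨true,0,⟨0,[(52,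
  0)]⟩,⟨0,[(51,0)]⟩⟩,[.o ⟨false,0,⟨1,[(0,1),(47,0),(4,0)]⟩,⟨0,[(4,0)]⟩⟩,.a ⟨true,0,⟨1,[(0,1),(52,0),
  (0,0)]⟩,⟨0,[(3,0),(4,1),(15,0),(28,0)]⟩⟩ ⟨true,0,⟨0,[]⟩,⟨1,[(38,0),(0,0)]⟩⟩ ⟨false,1,⟨1,[(53,0),
  (0,0)]⟩,⟨0,[(56,0)]⟩⟩,.o ⟨false,0,⟨1,[(0,1),(47,0),(4,0)]⟩,⟨0,[(31,0)]⟩⟩,.e ⟨false,1,⟨1,[(31,0),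
  (0,0),(20,0)]⟩,⟨0,[(47,0)]⟩⟩ ⟨false,1,⟨1,[(53,0),(0,0)]⟩,⟨1,[(38,0),(0,0)]⟩⟩]⟩)) (.Q [0,0,-1,0,1,
  0,0,0,-1,0,0,-1] (.p false [0,0,0,0,1] [] (⟨0,[(33,0)]⟩,⟨0,[(32,0)]⟩) .k 0 (⟨0,[]⟩,⟨0,[]⟩) .k .k)
  (.R ⟨0,false,false,false,[0,0,0,0,1],[0,1],[1,1],(⟨0,[(34,0)]⟩,⟨0,[(33,0)]⟩),(⟨0,[(45,0)]⟩,⟨0,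
  [(44,0)]⟩),⟨0,[(1,0)]⟩,.k,.k,(.r (-1) ⟨11,[(14,3),(12,3),(0,1),(17,1),(1,0),(4,2)]⟩ ⟨7,[(4,2),(6,
  3),(20,2),(21,0),(1,1)]⟩),(.r (-1) ⟨11,[(14,3),(12,3),(0,1),(17,1),(1,0),(4,2)]⟩ ⟨7,[(4,2),(6,3),
  (20,2),(21,0),(1,1)]⟩),.k,.k,⟨false,1,⟨9,[(6,0),(0,0),(6,0),(12,2),(18,5),(6,5)]⟩,⟨1,[(11,0),(42,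
  0)]⟩⟩,⟨true,1,⟨0,[(0,0)]⟩,⟨1,[(2,0),(5,0),(0,0),(22,0),(14,0)]⟩⟩,⟨true,0,⟨0,[(56,0)]⟩,⟨0,[]⟩⟩,
  ⟨false,1,⟨2,[(0,1),(2,0),(7,0),(40,0),(1,0)]⟩,⟨0,[(5,0)]⟩⟩,⟨false,0,⟨0,[]⟩,⟨0,[]⟩⟩,⟨false,0,⟨0,
  []⟩,⟨0,[]⟩⟩,[.a ⟨true,0,⟨0,[(52,0)]⟩,⟨1,[(24,0),(15,0),(0,0)]⟩⟩ ⟨true,0,⟨0,[(56,0)]⟩,⟨0,[(47,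
  0)]⟩⟩ ⟨false,1,⟨1,[(0,1),(10,0),(41,0)]⟩,⟨0,[(2,0),(49,0)]⟩⟩,.o ⟨false,1,⟨0,[(15,0),(38,0)]⟩,⟨0,
  [(51,0)]⟩⟩,.e ⟨false,0,⟨0,[]⟩,⟨1,[(31,0),(0,0),(21,0)]⟩⟩ ⟨false,1,⟨1,[(0,1),(10,0),(42,0)]⟩,⟨0,
  [(2,0),(49,0)]⟩⟩,.o ⟨false,0,⟨1,[(2,0),(8,0),(20,0),(15,0)]⟩,⟨0,[(0,0)]⟩⟩]⟩) (.S ⟨1,0,[-1,1],[1,0,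
  0,0,-1],[-1],(⟨0,[(33,0)]⟩,⟨0,[(34,0)]⟩),⟨1,[(1,0),(10,0),(17,0),(2,0)]⟩,.k,(.r (-1) ⟨19,[(14,3),
  (12,7),(0,1),(17,1),(1,0),(4,6),(2,3)]⟩ ⟨1,[(11,0),(19,0),(0,0)]⟩),⟨false,1,⟨1,[(31,0),(0,0),(21,
  0)]⟩,⟨0,[]⟩⟩,⟨true,0,⟨0,[(56,0)]⟩,⟨0,[]⟩⟩,⟨true,0,⟨0,[(52,0)]⟩,⟨0,[(51,0)]⟩⟩,⟨false,0,⟨0,[(52,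
  0)]⟩,⟨3,[(27,1),(3,0),(0,0),(21,0)]⟩⟩,[.a ⟨true,0,⟨0,[(3,0),(4,1),(15,0),(28,0)]⟩,⟨1,[(0,1),(52,
  0),(0,0)]⟩⟩ ⟨false,1,⟨1,[(4,0),(27,0),(20,0)]⟩,⟨0,[]⟩⟩ ⟨true,0,⟨0,[(56,0)]⟩,⟨0,[(47,0)]⟩⟩,.o
  ⟨false,1,⟨0,[(4,0)]⟩,⟨1,[(0,1),(47,0),(4,0)]⟩⟩,.o ⟨false,1,⟨0,[(31,0)]⟩,⟨1,[(0,1),(47,0),(4,0)]⟩⟩,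
  .e ⟨false,1,⟨0,[(0,0),(2,0),(49,0)]⟩,⟨1,[(38,0),(0,0)]⟩⟩ ⟨false,1,⟨1,[(4,0),(27,0),(20,0)]⟩,⟨0,
  [(47,0)]⟩⟩]⟩)))) (.Q [0,0,0,0,0,-1,0,0,0,0,0,1] (.ed false [1,-1,0,0,1] .k) (.Q [0,0,1,0,0,0,0,0,
  -1,1,0,-1] (.p false [0,0,0,0,1] [1] (⟨0,[(32,0)]⟩,⟨0,[(31,0)]⟩) .k 1 (⟨0,[]⟩,⟨0,[]⟩) .k .k) (.S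
  ⟨1,0,[1,1],[0,0,0,0,1],[],(⟨0,[(33,0)]⟩,⟨0,[(32,0)]⟩),⟨0,[(1,0)]⟩,.k,(.r (-1) ⟨11,[(13,3),(12,3),
  (0,1),(17,1),(1,0),(4,2)]⟩ ⟨7,[(3,2),(6,3),(20,2),(21,0),(1,1)]⟩),⟨false,1,⟨1,[(3,0),(27,0),(21,
  0)]⟩,⟨0,[]⟩⟩,⟨true,0,⟨0,[(55,0)]⟩,⟨0,[]⟩⟩,⟨true,0,⟨0,[(7,0),(38,0),(5,0)]⟩,⟨0,[(50,0)]⟩⟩,⟨false,0,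
  ⟨0,[(51,0)]⟩,⟨3,[(26,1),(3,0),(0,0),(21,0)]⟩⟩,[.a ⟨true,(-1),⟨0,[(2,0)]⟩,⟨1,[(0,1),(51,0),(0,
  0)]⟩⟩ ⟨false,1,⟨1,[(30,0),(0,0),(20,0)]⟩,⟨0,[]⟩⟩ ⟨true,0,⟨0,[(55,0)]⟩,⟨0,[(46,0)]⟩⟩,.o ⟨false,0,
  ⟨1,[(2,1),(44,0),(5,0)]⟩,⟨0,[(3,0)]⟩⟩,.o ⟨false,0,⟨1,[(2,1),(44,0),(5,0)]⟩,⟨0,[(30,0)]⟩⟩,.e
  ⟨false,1,⟨1,[(52,0),(0,0)]⟩,⟨1,[(37,0),(0,0)]⟩⟩ ⟨false,1,⟨1,[(30,0),(0,0),(20,0)]⟩,⟨0,[(46,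
  0)]⟩⟩]⟩) (.R ⟨1,false,false,true,[0,0,1],[1,0,0,0,-1],[1,1,0,-1,0,0,0,1],(⟨0,[(40,0)]⟩,⟨0,[(39,
  0)]⟩),(⟨0,[(32,0)]⟩,⟨0,[(33,0)]⟩),⟨0,[(29,0)]⟩,.k,.k,.k,.k,(.r (-1) ⟨2,[(5,0),(19,1),(0,0),(25,0),
  (0,0)]⟩ ⟨1,[(10,0),(10,1),(31,0)]⟩),.k,⟨true,0,⟨0,[(16,0)]⟩,⟨1,[(10,0),(10,1),(31,0)]⟩⟩,⟨false,1,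
  ⟨0,[(30,0),(3,0)]⟩,⟨0,[(0,0),(36,0)]⟩⟩,⟨true,0,⟨0,[(50,0)]⟩,⟨0,[(51,0)]⟩⟩,⟨true,0,⟨0,[(7,1),(1,0),
  (20,0),(21,0)]⟩,⟨1,[(0,1),(9,0),(9,1),(32,0)]⟩⟩,⟨false,0,⟨0,[]⟩,⟨1,[(30,0),(0,0),(21,0)]⟩⟩,⟨true,
  0,⟨1,[(7,3),(1,1),(0,0),(19,1),(21,2)]⟩,⟨0,[(0,0),(19,0),(25,0)]⟩⟩,[.o ⟨false,1,⟨0,[(30,0),(24,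
  0)]⟩,⟨0,[(0,0),(45,0)]⟩⟩,.o ⟨false,1,⟨0,[(3,0)]⟩,⟨3,[(0,1),(3,0),(3,0),(22,0),(15,0)]⟩⟩,.o ⟨false,
  1,⟨3,[(13,1),(1,1),(31,0),(5,0)]⟩,⟨0,[(22,0)]⟩⟩,.a ⟨true,0,⟨0,[(37,0)]⟩,⟨0,[(34,0)]⟩⟩ ⟨true,0,⟨0,
  [(5,0)]⟩,⟨1,[(10,0),(10,1),(31,0)]⟩⟩ ⟨false,1,⟨0,[(3,0),(30,0)]⟩,⟨0,[(0,0),(36,0),(8,0)]⟩⟩]⟩))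
  (.Q [-1,1,0,0,0,0,0,0,-1,1,0,-1] (.p false [0,0,0,0,1] [1] (⟨0,[(32,0)]⟩,⟨0,[(31,0)]⟩) .k 1 (⟨0,
  []⟩,⟨0,[]⟩) .k .k) (.S ⟨1,0,[-1,1],[1,0,0,0,-1],[-1],(⟨0,[(32,0)]⟩,⟨0,[(33,0)]⟩),⟨1,[(1,0),(9,0),
  (17,0),(2,0)]⟩,.k,(.r (-1) ⟨19,[(13,3),(12,7),(0,1),(17,1),(1,0),(4,6),(2,3)]⟩ ⟨1,[(10,0),(19,0),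
  (0,0)]⟩),⟨false,1,⟨1,[(30,0),(0,0),(21,0)]⟩,⟨0,[]⟩⟩,⟨true,0,⟨0,[(55,0)]⟩,⟨0,[]⟩⟩,⟨true,0,⟨0,[(51,
  0)]⟩,⟨0,[(50,0)]⟩⟩,⟨false,0,⟨0,[(51,0)]⟩,⟨3,[(26,1),(3,0),(0,0),(21,0)]⟩⟩,[.a ⟨true,0,⟨0,[(0,0)]⟩,
  ⟨0,[(2,0),(50,0)]⟩⟩ ⟨false,1,⟨1,[(3,0),(27,0),(20,0)]⟩,⟨0,[]⟩⟩ ⟨true,0,⟨0,[(55,0)]⟩,⟨0,[(46,0)]⟩⟩,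
  .o ⟨false,1,⟨0,[(3,0)]⟩,⟨1,[(2,1),(44,0),(5,0)]⟩⟩,.o ⟨false,1,⟨0,[(30,0)]⟩,⟨1,[(2,1),(44,0),(5,
  0)]⟩⟩,.e ⟨false,1,⟨0,[(46,0),(5,0)]⟩,⟨1,[(37,0),(0,0)]⟩⟩ ⟨false,1,⟨1,[(3,0),(27,0),(20,0)]⟩,⟨0,
  [(46,0)]⟩⟩]⟩) (.R ⟨0,false,false,false,[0,0,0,0,1],[0,1],[],(⟨0,[(33,0)]⟩,⟨0,[(32,0)]⟩),(⟨0,[(44,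
  0)]⟩,⟨0,[(43,0)]⟩),⟨0,[(1,0)]⟩,.k,.k,(.r (-1) ⟨11,[(13,3),(12,3),(0,1),(17,1),(1,0),(4,2)]⟩ ⟨7,
  [(3,2),(6,3),(20,2),(21,0),(1,1)]⟩),(.r (-1) ⟨11,[(13,3),(12,3),(0,1),(17,1),(1,0),(4,2)]⟩ ⟨7,[(3,
  2),(6,3),(20,2),(21,0),(1,1)]⟩),.k,.k,⟨true,1,⟨11,[(13,3),(12,3),(0,1),(17,1),(1,0),(4,2)]⟩,⟨0,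
  [(8,0)]⟩⟩,⟨false,2,⟨0,[(30,0),(21,0)]⟩,⟨0,[(2,0),(43,0)]⟩⟩,⟨false,1,⟨1,[(3,0),(27,0),(21,0)]⟩,⟨0,
  []⟩⟩,⟨true,1,⟨0,[(30,0),(20,0)]⟩,⟨1,[(0,0),(1,0),(2,0),(1,1),(1,0),(3,0)]⟩⟩,⟨false,0,⟨0,[]⟩,⟨0,
  []⟩⟩,⟨false,0,⟨0,[]⟩,⟨0,[]⟩⟩,[.a ⟨true,0,⟨0,[(51,0)]⟩,⟨1,[(23,0),(15,0),(0,0)]⟩⟩ ⟨false,1,⟨1,[(30,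
  0),(0,0),(20,0)]⟩,⟨0,[]⟩⟩ ⟨true,1,⟨1,[(10,0),(19,1),(21,0)]⟩,⟨8,[(0,5),(1,2),(4,2),(0,2),(0,4),(1,
  0),(8,4),(8,0),(11,2)]⟩⟩,.o ⟨false,1,⟨0,[(14,0),(38,0)]⟩,⟨0,[(50,0)]⟩⟩,.o ⟨false,0,⟨8,[(0,2),(1,
  2),(28,2),(10,0),(4,1)]⟩,⟨0,[(30,0)]⟩⟩,.e ⟨false,1,⟨1,[(52,0),(0,0)]⟩,⟨1,[(37,0),(0,0)]⟩⟩ ⟨false,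
  2,⟨1,[(10,0),(19,1),(21,1),(0,0)]⟩,⟨8,[(0,5),(1,2),(4,2),(0,2),(0,4),(1,0),(8,4),(8,0),(11,
  2)]⟩⟩]⟩))))) (.R ⟨2,true,false,true,[0,1],[0,0,0,0,1],[1,0,1],(⟨0,[]⟩,⟨0,[]⟩),(⟨0,[(29,0)]⟩,⟨0,
  [(28,0)]⟩),⟨0,[]⟩,.k,.k,.k,(.r 0 ⟨9,[(6,4),(19,2),(0,2),(21,1),(1,3)]⟩ ⟨11,[(9,3),(12,3),(0,1),
  (17,1),(1,0),(4,2)]⟩),.k,.k,⟨true,0,⟨0,[(42,0)]⟩,⟨0,[(51,0)]⟩⟩,⟨false,0,⟨0,[(27,0)]⟩,⟨9,[(0,5),(0,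
  0),(0,0),(6,0),(12,0),(3,3),(21,3)]⟩⟩,⟨false,1,⟨3,[(22,1),(3,0),(0,0),(21,0)]⟩,⟨0,[(47,0)]⟩⟩,
  ⟨true,0,⟨0,[(27,0),(18,0)]⟩,⟨0,[(0,0)]⟩⟩,⟨true,0,⟨0,[]⟩,⟨0,[(51,0)]⟩⟩,⟨false,0,⟨0,[(27,0)]⟩,⟨2,
  [(0,1),(21,0),(3,0),(22,0)]⟩⟩,[]⟩))))) (.I [0,0,2,0,-1,2] (.S ⟨1,0,[0,0,-1,-1],[1,-1],[1,1,1],(⟨0,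
  [(36,0)]⟩,⟨0,[(37,0)]⟩),⟨1,[(4,0),(17,0),(13,0)]⟩,.k,(.x 1 ⟨0,[(0,0)]⟩ ⟨2,[(4,1),(17,1),(0,1),(0,
  1),(15,0),(4,2)]⟩),⟨true,(-1),⟨0,[(3,0),(39,0)]⟩,⟨0,[(1,0)]⟩⟩,⟨false,1,⟨1,[(23,0),(0,0),(21,0)]⟩,
  ⟨0,[]⟩⟩,⟨false,(-1),⟨0,[(3,0)]⟩,⟨0,[(19,0),(25,0)]⟩⟩,⟨true,0,⟨0,[(44,0)]⟩,⟨0,[(43,0)]⟩⟩,[.e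
  ⟨false,0,⟨0,[(48,0)]⟩,⟨1,[(45,0),(0,0)]⟩⟩ ⟨false,1,⟨0,[(1,0)]⟩,⟨1,[(3,0),(19,0),(0,0)]⟩⟩,.o
  ⟨false,1,⟨3,[(19,1),(3,0),(0,0),(21,0)]⟩,⟨0,[(7,0)]⟩⟩,.o ⟨false,0,⟨1,[(30,0),(0,0)]⟩,⟨1,[(40,0),
  (4,0)]⟩⟩,.a ⟨true,(-1),⟨0,[(3,0),(12,0)]⟩,⟨0,[(45,0)]⟩⟩ ⟨false,0,⟨0,[]⟩,⟨1,[(23,0),(0,0),(21,
  0)]⟩⟩ ⟨true,1,⟨0,[(1,0)]⟩,⟨0,[(3,0),(39,0)]⟩⟩]⟩) (.I [0,0,2,2,-1] (.S ⟨1,0,[0,0,-1,-1],[1,-1],[1,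
  1,1],(⟨0,[(37,0)]⟩,⟨0,[(38,0)]⟩),⟨1,[(5,0),(17,0),(13,0)]⟩,.k,(.r (-2) ⟨14,[(2,5),(4,15),(12,3),
  (0,7),(17,1),(1,3)]⟩ ⟨0,[(0,0)]⟩),⟨true,(-1),⟨0,[(4,0),(39,0)]⟩,⟨0,[(2,0)]⟩⟩,⟨false,1,⟨1,[(24,0),
  (0,0),(21,0)]⟩,⟨0,[]⟩⟩,⟨false,(-1),⟨0,[(4,0)]⟩,⟨0,[(20,0),(25,0)]⟩⟩,⟨true,0,⟨0,[(45,0)]⟩,⟨0,[(44,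
  0)]⟩⟩,[.e ⟨false,0,⟨0,[(49,0)]⟩,⟨1,[(46,0),(0,0)]⟩⟩ ⟨false,1,⟨0,[(2,0)]⟩,⟨1,[(4,0),(19,0),(0,
  0)]⟩⟩,.o ⟨false,1,⟨3,[(20,1),(3,0),(0,0),(21,0)]⟩,⟨0,[(8,0)]⟩⟩,.o ⟨false,0,⟨1,[(31,0),(0,0)]⟩,⟨1,
  [(41,0),(4,0)]⟩⟩,.a ⟨true,(-1),⟨0,[(4,0),(12,0)]⟩,⟨0,[(46,0)]⟩⟩ ⟨false,0,⟨0,[]⟩,⟨1,[(24,0),(0,0),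
  (21,0)]⟩⟩ ⟨true,1,⟨0,[(2,0)]⟩,⟨0,[(4,0),(39,0)]⟩⟩]⟩) (.Q [0,0,1,-1,-1,0,-1,0,0,1,-1] (.p false [0,
  0,1] [1] (⟨0,[(34,0)]⟩,⟨0,[(33,0)]⟩) .k 1 (⟨0,[]⟩,⟨0,[]⟩) .k .k) (.Q [0,0,0,2,0,0,1,1,0,0,1] (.p
  true [0,0,1] [] (⟨0,[(35,0)]⟩,⟨0,[(34,0)]⟩) .k 0 (⟨0,[]⟩,⟨0,[]⟩) .k .k) (.S ⟨1,0,[0,1,-1,-1,0,0,0,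
  -1],[1,-1,-1],[1,0,-1,-2,0,0,0,-1],(⟨0,[(24,0)]⟩,⟨0,[(36,0),(0,0)]⟩),⟨0,[(7,0)]⟩,.k,(.r (-2) ⟨5,
  [(4,2),(4,5),(4,0),(7,0),(9,4),(16,1)]⟩ ⟨1,[(3,0),(2,2),(5,1),(24,1)]⟩),⟨false,1,⟨3,[(22,1),(3,0),
  (0,0),(21,0)]⟩,⟨0,[(47,0)]⟩⟩,⟨true,0,⟨0,[(51,0)]⟩,⟨0,[]⟩⟩,⟨true,0,⟨0,[]⟩,⟨0,[(51,0)]⟩⟩,⟨false,0,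
  ⟨0,[(47,0)]⟩,⟨3,[(22,1),(3,0),(0,0),(21,0)]⟩⟩,[.o ⟨false,0,⟨1,[(14,0),(17,0),(13,0)]⟩,⟨1,[(0,1),
  (1,0),(39,1),(0,0)]⟩⟩,.o ⟨false,0,⟨0,[(14,0)]⟩,⟨7,[(0,3),(8,1),(1,1),(9,3),(21,2),(5,2)]⟩⟩,.a
  ⟨true,(-1),⟨0,[(8,0)]⟩,⟨5,[(0,1),(8,3),(7,1),(30,0),(0,0)]⟩⟩ ⟨true,1,⟨0,[(9,0),(4,0)]⟩,⟨0,[(0,0),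
  (0,0),(8,0)]⟩⟩ ⟨false,1,⟨2,[(4,0),(4,0),(4,0),(2,1),(31,0)]⟩,⟨1,[(6,0),(8,1),(33,0)]⟩⟩,.o ⟨false,
  (-1),⟨1,[(1,1),(4,0),(36,0)]⟩,⟨3,[(9,1),(1,1),(31,0),(4,3),(0,0)]⟩⟩]⟩) (.Q [0,0,-1,0,0,0,0,0,1,-1,
  0,1] (.p true [0,0,0,0,1] [1] (⟨0,[(29,0)]⟩,⟨0,[(28,0)]⟩) .k 1 (⟨0,[]⟩,⟨0,[]⟩) .k .k) (.Q [0,0,0,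
  0,0,-1,0,0,0,1,0,-1] (.ed true [0,1,0,0,1] .k) (.R ⟨1,false,false,false,[1,0,0,0,-1],[0,1],[-1,1],
  (⟨0,[(30,0)]⟩,⟨0,[(31,0)]⟩),(⟨0,[(42,0)]⟩,⟨0,[(41,0)]⟩),⟨0,[(0,0)]⟩,.k,.k,(.r (-1) ⟨43,[(6,11),(4,
  19),(12,5),(0,9),(19,4),(5,0),(1,7)]⟩ ⟨1,[(8,0),(19,0),(0,0)]⟩),(.r (-1) ⟨43,[(6,11),(4,19),(12,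
  5),(0,9),(19,4),(5,0),(1,7)]⟩ ⟨1,[(8,0),(19,0),(0,0)]⟩),(.r (-2) ⟨14,[(6,5),(4,15),(12,3),(0,7),
  (17,1),(1,3)]⟩ ⟨0,[(8,0)]⟩),.k,⟨false,1,⟨14,[(6,8),(4,3),(12,0),(0,1),(17,7),(1,0)]⟩,⟨1,[(8,0),
  (42,0)]⟩⟩,⟨true,0,⟨0,[(1,0)]⟩,⟨0,[(8,0),(12,0),(6,0)]⟩⟩,⟨true,0,⟨0,[(53,0)]⟩,⟨0,[]⟩⟩,⟨false,0,⟨1,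
  [(1,1),(6,0),(42,0)]⟩,⟨5,[(21,2),(6,5),(8,0),(0,0),(0,1),(1,1)]⟩⟩,⟨false,0,⟨0,[(49,0)]⟩,⟨3,[(24,
  1),(3,0),(0,0),(21,0)]⟩⟩,⟨false,0,⟨1,[(1,1),(6,1),(41,0),(0,0)]⟩,⟨8,[(7,1),(1,0),(8,1),(2,5),(5,
  0),(0,8),(10,2)]⟩⟩,[.a ⟨true,0,⟨0,[(49,0)]⟩,⟨1,[(21,0),(15,0),(0,0)]⟩⟩ ⟨true,0,⟨0,[(53,0)]⟩,⟨0,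
  [(44,0)]⟩⟩ ⟨false,0,⟨1,[(1,1),(6,0),(41,0)]⟩,⟨1,[(21,0),(6,1),(8,0),(0,0)]⟩⟩,.o ⟨false,1,⟨0,[(12,
  0),(38,0)]⟩,⟨0,[(48,0)]⟩⟩,.o ⟨false,1,⟨0,[(28,0)]⟩,⟨4,[(1,2),(1,0),(9,0),(15,1),(14,0),(0,0)]⟩⟩,
  .o ⟨false,1,⟨1,[(28,1),(6,0),(0,0)]⟩,⟨0,[(1,0)]⟩⟩]⟩) (.R ⟨0,false,false,false,[1,0,0,0,-1],[0,1],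
  [1],(⟨0,[(30,0)]⟩,⟨0,[(31,0)]⟩),(⟨0,[(42,0)]⟩,⟨0,[(41,0)]⟩),⟨0,[(0,0)]⟩,.k,.k,(.r (-1) ⟨43,[(6,
  11),(4,19),(12,5),(0,9),(19,4),(5,0),(1,7)]⟩ ⟨1,[(8,0),(19,0),(0,0)]⟩),(.r (-1) ⟨43,[(6,11),(4,
  19),(12,5),(0,9),(19,4),(5,0),(1,7)]⟩ ⟨1,[(8,0),(19,0),(0,0)]⟩),.k,.k,⟨false,1,⟨0,[(6,0)]⟩,⟨1,[(8,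
  0),(19,0),(0,0)]⟩⟩,⟨true,0,⟨0,[(1,0)]⟩,⟨0,[(8,0),(12,0),(6,0)]⟩⟩,⟨true,0,⟨0,[]⟩,⟨0,[(53,0)]⟩⟩,
  ⟨false,0,⟨1,[(1,1),(6,0),(42,0)]⟩,⟨5,[(21,2),(6,5),(8,0),(0,0),(0,1),(1,1)]⟩⟩,⟨false,0,⟨0,[]⟩,⟨0,
  []⟩⟩,⟨false,0,⟨0,[]⟩,⟨0,[]⟩⟩,[.a ⟨true,0,⟨0,[(49,0)]⟩,⟨1,[(21,0),(15,0),(0,0)]⟩⟩ ⟨true,0,⟨0,[]⟩,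
  ⟨1,[(35,0),(0,0)]⟩⟩ ⟨false,0,⟨1,[(1,1),(6,0),(41,0)]⟩,⟨1,[(21,0),(6,1),(8,0),(0,0)]⟩⟩,.o ⟨false,1,
  ⟨0,[(12,0),(38,0)]⟩,⟨0,[(48,0)]⟩⟩,.o ⟨false,1,⟨0,[(28,0)]⟩,⟨4,[(1,2),(1,0),(9,0),(15,1),(14,0),(0,
  0)]⟩⟩,.o ⟨false,1,⟨1,[(28,1),(6,0),(0,0)]⟩,⟨0,[(1,0)]⟩⟩]⟩)) (.Q [0,-1,0,0,1,0,0,0,-1,0,0,-1] (.p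
  false [0,0,0,0,1] [] (⟨0,[(30,0)]⟩,⟨0,[(29,0)]⟩) .k 0 (⟨0,[]⟩,⟨0,[]⟩) .k .k) (.Q [-1,1,0,1,-1,0,
  -1,-1,-1,1,-1,-1] (.p false [0,0,1] [1,0,0,0,-1] (⟨0,[(38,0)]⟩,⟨0,[(37,0)]⟩) .k 2 (⟨0,[(30,0)]⟩,
  ⟨0,[(31,0)]⟩) .k (.r 0 ⟨0,[(17,0)]⟩ ⟨1,[(19,1),(8,0),(0,0),(21,0)]⟩)) (.Q [0,0,0,0,0,1,0,0,0,-1,0,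
  1] (.ed false [0,1,0,0,1] .k) (.S ⟨1,0,[1],[0,0,0,0,1],[1,1],(⟨0,[(33,0)]⟩,⟨0,[(32,0)]⟩),⟨1,[(0,
  0),(10,0),(17,0),(3,0)]⟩,.k,(.r (-1) ⟨14,[(8,2),(4,7),(12,1),(0,3),(17,0),(1,1)]⟩ ⟨9,[(10,4),(19,
  2),(0,2),(21,1),(1,3)]⟩),⟨true,0,⟨0,[(55,0)]⟩,⟨0,[]⟩⟩,⟨false,1,⟨1,[(30,0),(0,0),(21,0)]⟩,⟨0,[]⟩⟩,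
  ⟨false,0,⟨0,[(51,0)]⟩,⟨3,[(26,1),(3,0),(0,0),(21,0)]⟩⟩,⟨true,0,⟨0,[(51,0)]⟩,⟨0,[(50,0)]⟩⟩,[.e
  ⟨true,0,⟨0,[(55,0)]⟩,⟨0,[(46,0)]⟩⟩ ⟨true,0,⟨0,[]⟩,⟨1,[(37,0),(0,0)]⟩⟩,.o ⟨false,1,⟨1,[(31,1),(15,
  0),(5,0)]⟩,⟨8,[(1,5),(0,2),(17,5),(21,1),(4,0)]⟩⟩,.a ⟨true,0,⟨0,[(31,0)]⟩,⟨0,[(1,0),(18,0),(32,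
  0)]⟩⟩ ⟨false,0,⟨0,[]⟩,⟨1,[(30,0),(0,0),(21,0)]⟩⟩ ⟨true,0,⟨0,[]⟩,⟨0,[(55,0)]⟩⟩,.e ⟨false,1,⟨1,[(30,
  0),(0,0),(20,0)]⟩,⟨0,[(46,0)]⟩⟩ ⟨false,1,⟨1,[(52,0),(0,0)]⟩,⟨1,[(37,0),(0,0)]⟩⟩]⟩) (.S ⟨1,0,[-1,
  1],[1,0,0,0,-1],[0,0,0,-1],(⟨0,[(32,0)]⟩,⟨0,[(33,0)]⟩),⟨0,[(0,0)]⟩,.k,(.r (-1) ⟨43,[(8,11),(4,19),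
  (12,5),(0,9),(19,4),(5,0),(1,7)]⟩ ⟨1,[(10,0),(19,0),(0,0)]⟩),⟨false,1,⟨3,[(26,1),(3,0),(0,0),(21,
  0)]⟩,⟨0,[(51,0)]⟩⟩,⟨true,0,⟨0,[(55,0)]⟩,⟨0,[]⟩⟩,⟨true,0,⟨0,[]⟩,⟨0,[(55,0)]⟩⟩,⟨false,0,⟨0,[(51,
  0)]⟩,⟨3,[(26,1),(3,0),(0,0),(21,0)]⟩⟩,[.o ⟨false,0,⟨8,[(1,5),(0,2),(17,5),(21,1),(4,0)]⟩,⟨1,[(31,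
  1),(15,0),(5,0)]⟩⟩,.e ⟨false,1,⟨1,[(6,0),(46,0)]⟩,⟨3,[(10,1),(19,0),(0,0),(13,1),(6,0)]⟩⟩ ⟨false,
  1,⟨9,[(30,3),(0,3),(20,4),(0,0),(1,1)]⟩,⟨0,[]⟩⟩,.a ⟨true,0,⟨0,[(1,0),(18,0),(32,0)]⟩,⟨0,[(31,
  0)]⟩⟩ ⟨false,1,⟨3,[(26,1),(3,0),(0,0),(21,0)]⟩,⟨1,[(10,0),(41,0)]⟩⟩ ⟨true,0,⟨0,[(55,0)]⟩,⟨0,[]⟩⟩,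
  .o ⟨false,0,⟨2,[(1,1),(0,0),(17,1),(25,2),(0,0)]⟩,⟨1,[(31,1),(15,0),(4,0)]⟩⟩]⟩)) (.I [0,0,-2,0,1,
  -2] (.N [0,2] 1 ⟨0,[(10,0)]⟩ ⟨0,[(6,0)]⟩ (.x (-1) ⟨0,[(0,0)]⟩ ⟨0,[(37,0),(0,0),(2,1)]⟩)) (.I [0,1,
  -1,0,0,0,0,1] (.Q [0,-1,0,1,1,0,1,1,0,-1,1] (.p true [0,0,1] [1] (⟨0,[(41,0)]⟩,⟨0,[(40,0)]⟩) .k 1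
  (⟨0,[]⟩,⟨0,[]⟩) .k .k) (.S ⟨1,0,[0,1,-1,-1,0,0,0,-1],[1,-1,-1],[1,0,-1,-2,0,0,0,-1],(⟨0,[(30,0)]⟩,
  ⟨1,[(2,0),(39,1),(11,0)]⟩),⟨0,[(13,0)]⟩,.k,(.r (-2) ⟨5,[(10,2),(4,5),(4,0),(7,0),(9,4),(16,1)]⟩
  ⟨1,[(9,0),(2,2),(5,1),(24,1)]⟩),⟨false,1,⟨3,[(28,1),(3,0),(0,0),(21,0)]⟩,⟨0,[(53,0)]⟩⟩,⟨true,0,⟨0,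
  [(57,0)]⟩,⟨0,[]⟩⟩,⟨true,0,⟨0,[]⟩,⟨0,[(57,0)]⟩⟩,⟨false,0,⟨0,[(53,0)]⟩,⟨3,[(28,1),(3,0),(0,0),(21,
  0)]⟩⟩,[.o ⟨false,0,⟨2,[(6,0),(31,1),(13,0)]⟩,⟨0,[(0,0)]⟩⟩,.o ⟨false,0,⟨0,[(20,0)]⟩,⟨4,[(0,3),(16,
  0),(9,0),(4,0),(0,0),(13,0)]⟩⟩,.a ⟨true,(-1),⟨0,[(14,0)]⟩,⟨1,[(12,0),(2,1),(38,0)]⟩⟩ ⟨true,1,⟨0,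
  [(15,0),(4,0)]⟩,⟨0,[(1,0),(10,0)]⟩⟩ ⟨false,1,⟨2,[(10,0),(4,0),(4,0),(2,1),(31,0)]⟩,⟨1,[(12,0),(8,
  1),(33,0)]⟩⟩,.o ⟨false,(-1),⟨1,[(7,1),(4,0),(36,0)]⟩,⟨3,[(15,1),(1,1),(31,0),(4,3),(0,0)]⟩⟩]⟩)
  (.Q [0,-1,0,2,1,0,1,1,0,-1,1] (.p true [0,0,1] [1] (⟨0,[(42,0)]⟩,⟨0,[(41,0)]⟩) .k 1 (⟨0,[]⟩,⟨0,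
  []⟩) .k .k) (.R ⟨1,true,false,false,[1,0,-1],[0,1],[1,0,0,-1,0,0,0,-1],(⟨0,[(42,0)]⟩,⟨0,[(43,
  0)]⟩),(⟨0,[(47,0)]⟩,⟨0,[(46,0)]⟩),⟨0,[(31,0)]⟩,.k,.k,.k,.k,(.r (-2) ⟨5,[(11,2),(4,5),(4,0),(7,0),
  (9,4),(16,1)]⟩ ⟨1,[(10,0),(2,2),(5,1),(24,1)]⟩),.k,⟨true,1,⟨0,[(16,0),(4,0)]⟩,⟨1,[(10,0),(2,2),(5,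
  1),(24,1)]⟩⟩,⟨false,2,⟨2,[(0,0),(15,1),(7,0),(25,0),(4,1)]⟩,⟨0,[(15,0)]⟩⟩,⟨false,1,⟨3,[(29,1),(3,
  0),(0,0),(21,0)]⟩,⟨0,[(54,0)]⟩⟩,⟨true,1,⟨18,[(0,9),(3,3),(13,2),(9,2),(4,3),(4,1),(9,2),(1,0)]⟩,
  ⟨0,[(1,0)]⟩⟩,⟨true,0,⟨0,[]⟩,⟨0,[(58,0)]⟩⟩,⟨false,1,⟨0,[(0,0)]⟩,⟨1,[(12,0),(13,0),(12,0)]⟩⟩,[]⟩)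
  (.I [0,-1,-1,0,1,0,0,-1] (.S ⟨1,0,[0,1,0,0,0,0,0,-1],[1,0,-1],[0,0,0,0,0,0,0,-1],(⟨0,[(43,0)]⟩,⟨0,
  [(44,0)]⟩),⟨0,[(32,0)]⟩,.k,.k,⟨false,1,⟨1,[(34,0),(0,0),(21,0)]⟩,⟨0,[]⟩⟩,⟨true,0,⟨0,[(59,0)]⟩,⟨0,
  []⟩⟩,⟨true,0,⟨0,[(55,0)]⟩,⟨0,[(54,0)]⟩⟩,⟨false,0,⟨0,[(55,0)]⟩,⟨3,[(30,1),(3,0),(0,0),(21,0)]⟩⟩,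
  [.a ⟨true,(-1),⟨1,[(2,1),(11,0),(41,0)]⟩,⟨0,[(39,0),(17,0)]⟩⟩ ⟨false,1,⟨3,[(0,2),(24,0),(8,0),(0,
  0),(13,0)]⟩,⟨0,[(23,0)]⟩⟩ ⟨true,0,⟨0,[(25,0)]⟩,⟨1,[(14,0),(5,1),(36,0)]⟩⟩,.o ⟨false,0,⟨0,[(28,
  0)]⟩,⟨1,[(39,1),(11,0),(5,0)]⟩⟩,.o ⟨false,0,⟨0,[(26,0)]⟩,⟨3,[(17,1),(1,1),(31,0),(5,0)]⟩⟩,.e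
  ⟨false,1,⟨0,[(0,0)]⟩,⟨3,[(5,0),(1,0),(6,0),(5,0),(2,0),(5,0),(12,0)]⟩⟩ ⟨false,1,⟨3,[(0,2),(24,0),
  (8,0),(0,0),(13,0)]⟩,⟨1,[(14,0),(5,1),(36,0)]⟩⟩]⟩) (.Q [0,0,-1,0,1,0,0,0,-1,0,0,-1] (.p false [0,
  0,0,0,1] [] (⟨0,[(37,0)]⟩,⟨0,[(36,0)]⟩) .k 0 (⟨0,[]⟩,⟨0,[]⟩) .k .k) (.Q [0,0,0,0,0,-1,0,0,0,0,0,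
  1] (.ed false [1,-1,0,0,1] .k) (.R ⟨1,false,false,false,[0,0,0,0,1],[0,1],[1,1],(⟨0,[(39,0)]⟩,⟨0,
  [(38,0)]⟩),(⟨0,[(50,0)]⟩,⟨0,[(49,0)]⟩),⟨0,[(0,0)]⟩,.k,.k,(.r (-1) ⟨14,[(7,1),(6,4),(4,3),(12,1),
  (0,1),(2,1),(5,1),(8,0)]⟩ ⟨9,[(16,4),(19,2),(0,2),(21,1),(1,3)]⟩),(.r (-1) ⟨14,[(7,1),(6,4),(4,3),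
  (12,1),(0,1),(2,1),(5,1),(8,0)]⟩ ⟨9,[(16,4),(19,2),(0,2),(21,1),(1,3)]⟩),(.r (-1) ⟨0,[(12,0)]⟩ ⟨4,
  [(16,4),(19,3),(0,3),(21,0),(1,1)]⟩),.k,⟨false,1,⟨14,[(7,0),(6,9),(4,1),(12,0),(0,0),(2,0),(5,0),
  (8,7)]⟩,⟨1,[(16,0),(42,0)]⟩⟩,⟨true,1,⟨0,[(1,0)]⟩,⟨7,[(3,5),(3,5),(5,0),(2,8),(20,1),(9,1)]⟩⟩,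
  ⟨true,0,⟨0,[(61,0)]⟩,⟨0,[]⟩⟩,⟨false,1,⟨9,[(1,7),(6,1),(4,0),(2,4),(30,1),(11,3)]⟩,⟨2,[(3,0),(3,0),
  (29,1)]⟩⟩,⟨false,0,⟨0,[(57,0)]⟩,⟨3,[(32,1),(3,0),(0,0),(21,0)]⟩⟩,⟨false,1,⟨1,[(1,1),(14,1),(41,0),
  (0,0)]⟩,⟨2,[(3,1),(3,1),(29,0)]⟩⟩,[.a ⟨true,0,⟨0,[(57,0)]⟩,⟨4,[(6,0),(12,0),(9,1),(10,0),(8,1)]⟩⟩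
  ⟨true,0,⟨0,[(61,0)]⟩,⟨0,[(52,0)]⟩⟩ ⟨false,1,⟨1,[(1,1),(14,0),(41,0)]⟩,⟨15,[(3,5),(3,5),(5,0),(2,
  0),(20,9),(9,1)]⟩⟩,.o ⟨false,1,⟨0,[(20,0),(38,0)]⟩,⟨0,[(56,0)]⟩⟩,.e ⟨false,0,⟨0,[]⟩,⟨1,[(36,0),(0,
  0),(21,0)]⟩⟩ ⟨false,1,⟨1,[(1,1),(14,0),(42,0)]⟩,⟨15,[(3,5),(3,5),(5,0),(2,0),(20,9),(9,1)]⟩⟩,.o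
  ⟨false,0,⟨5,[(3,1),(3,1),(8,2),(20,3),(15,2)]⟩,⟨0,[(1,0)]⟩⟩]⟩) (.R ⟨0,false,false,false,[0,0,0,0,
  1],[0,1],[1,1],(⟨0,[(39,0)]⟩,⟨0,[(38,0)]⟩),(⟨0,[(50,0)]⟩,⟨0,[(49,0)]⟩),⟨0,[(0,0)]⟩,.k,.k,(.r (-1)
  ⟨14,[(7,1),(6,4),(4,3),(12,1),(0,1),(2,1),(5,1),(8,0)]⟩ ⟨9,[(16,4),(19,2),(0,2),(21,1),(1,3)]⟩),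
  (.r (-1) ⟨14,[(7,1),(6,4),(4,3),(12,1),(0,1),(2,1),(5,1),(8,0)]⟩ ⟨9,[(16,4),(19,2),(0,2),(21,1),
  (1,3)]⟩),.k,.k,⟨false,1,⟨14,[(7,0),(6,9),(4,1),(12,0),(0,0),(2,0),(5,0),(8,7)]⟩,⟨1,[(16,0),(42,
  0)]⟩⟩,⟨true,1,⟨0,[(1,0)]⟩,⟨7,[(3,5),(3,5),(5,0),(2,8),(20,1),(9,1)]⟩⟩,⟨true,0,⟨0,[(61,0)]⟩,⟨0,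
  []⟩⟩,⟨false,1,⟨9,[(1,7),(6,1),(4,0),(2,4),(30,1),(11,3)]⟩,⟨2,[(3,0),(3,0),(29,1)]⟩⟩,⟨false,0,⟨0,
  []⟩,⟨0,[]⟩⟩,⟨false,0,⟨0,[]⟩,⟨0,[]⟩⟩,[.a ⟨true,0,⟨0,[(57,0)]⟩,⟨4,[(6,0),(12,0),(9,1),(10,0),(8,
  1)]⟩⟩ ⟨true,0,⟨0,[(61,0)]⟩,⟨0,[(52,0)]⟩⟩ ⟨false,1,⟨1,[(1,1),(14,0),(41,0)]⟩,⟨15,[(3,5),(3,5),(5,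
  0),(2,0),(20,9),(9,1)]⟩⟩,.o ⟨false,1,⟨0,[(20,0),(38,0)]⟩,⟨0,[(56,0)]⟩⟩,.e ⟨false,0,⟨0,[]⟩,⟨1,[(36,
  0),(0,0),(21,0)]⟩⟩ ⟨false,1,⟨1,[(1,1),(14,0),(42,0)]⟩,⟨15,[(3,5),(3,5),(5,0),(2,0),(20,9),(9,
  1)]⟩⟩,.o ⟨false,0,⟨5,[(3,1),(3,1),(8,2),(20,3),(15,2)]⟩,⟨0,[(1,0)]⟩⟩]⟩)) (.Q [0,0,0,0,0,-1,0,0,0,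
  0,0,1] (.ed false [1,-1,0,0,1] .k) (.S ⟨1,0,[1],[0,0,0,0,1],[1,1],(⟨0,[(39,0)]⟩,⟨0,[(38,0)]⟩),⟨0,
  [(0,0)]⟩,.k,(.r (-1) ⟨14,[(7,1),(6,4),(4,3),(12,1),(0,1),(2,1),(5,1),(8,0)]⟩ ⟨9,[(16,4),(19,2),(0,
  2),(21,1),(1,3)]⟩),⟨true,0,⟨0,[(61,0)]⟩,⟨0,[]⟩⟩,⟨false,1,⟨1,[(36,0),(0,0),(21,0)]⟩,⟨0,[]⟩⟩,⟨false,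
  0,⟨0,[(57,0)]⟩,⟨3,[(32,1),(3,0),(0,0),(21,0)]⟩⟩,⟨true,0,⟨0,[(57,0)]⟩,⟨0,[(56,0)]⟩⟩,[.o ⟨false,0,
  ⟨1,[(1,1),(51,0),(4,0)]⟩,⟨8,[(9,1),(3,0),(22,6),(10,1),(5,0)]⟩⟩,.a ⟨true,0,⟨1,[(1,1),(56,0),(0,
  0)]⟩,⟨0,[(4,0),(3,0),(32,0),(15,0)]⟩⟩ ⟨true,0,⟨0,[]⟩,⟨1,[(43,0),(0,0)]⟩⟩ ⟨false,1,⟨1,[(58,0),(0,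
  0)]⟩,⟨0,[(61,0)]⟩⟩,.o ⟨false,0,⟨1,[(1,1),(51,0),(4,0)]⟩,⟨0,[(36,0)]⟩⟩,.e ⟨false,1,⟨1,[(36,0),(0,
  0),(20,0)]⟩,⟨0,[(52,0)]⟩⟩ ⟨false,1,⟨1,[(58,0),(0,0)]⟩,⟨1,[(43,0),(0,0)]⟩⟩]⟩) (.S ⟨1,0,[-1,1],[1,0,
  0,0,-1],[0,0,0,-1],(⟨0,[(38,0)]⟩,⟨0,[(39,0)]⟩),⟨1,[(0,0),(16,0),(17,0),(2,0)]⟩,.k,(.r (-1) ⟨43,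
  [(14,11),(4,19),(12,5),(0,9),(19,4),(5,0),(1,7)]⟩ ⟨1,[(16,0),(19,0),(0,0)]⟩),⟨false,1,⟨3,[(32,1),
  (3,0),(0,0),(21,0)]⟩,⟨0,[(57,0)]⟩⟩,⟨true,0,⟨0,[(61,0)]⟩,⟨0,[]⟩⟩,⟨true,0,⟨0,[]⟩,⟨0,[(61,0)]⟩⟩,
  ⟨false,0,⟨0,[(57,0)]⟩,⟨3,[(32,1),(3,0),(0,0),(21,0)]⟩⟩,[.a ⟨true,0,⟨0,[(4,0),(3,0),(32,0),(15,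
  0)]⟩,⟨1,[(1,1),(56,0),(0,0)]⟩⟩ ⟨false,1,⟨14,[(7,1),(6,4),(4,3),(12,1),(0,1),(2,1),(5,1),(8,0)]⟩,
  ⟨1,[(16,0),(41,0)]⟩⟩ ⟨true,0,⟨0,[(61,0)]⟩,⟨0,[(52,0)]⟩⟩,.o ⟨false,1,⟨8,[(9,1),(3,0),(22,6),(10,1),
  (5,0)]⟩,⟨1,[(1,1),(51,0),(4,0)]⟩⟩,.o ⟨false,1,⟨0,[(36,0)]⟩,⟨1,[(1,1),(51,0),(4,0)]⟩⟩,.e ⟨false,1,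
  ⟨1,[(12,0),(46,0)]⟩,⟨1,[(16,0),(19,0),(0,0)]⟩⟩ ⟨false,1,⟨9,[(36,3),(0,3),(20,4),(0,0),(1,1)]⟩,⟨0,
  [(52,0)]⟩⟩]⟩)))))) (.Q [0,1,0,1,-1,0,-1,-1,0,1,-1] (.p false [0,0,1] [1] (⟨0,[(41,0)]⟩,⟨0,[(40,
  0)]⟩) .k 1 (⟨0,[]⟩,⟨0,[]⟩) .k .k) (.S ⟨1,0,[0,1,1,1,0,0,0,-1],[1,1,-1],[1,0,1,0,0,0,0,-1],(⟨1,[(2,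
  0),(38,1),(12,0)]⟩,⟨0,[(31,0)]⟩),⟨0,[(41,0)]⟩,.k,.k,⟨false,1,⟨3,[(28,1),(3,0),(0,0),(21,0)]⟩,⟨0,
  [(53,0)]⟩⟩,⟨true,0,⟨0,[(57,0)]⟩,⟨0,[]⟩⟩,⟨true,0,⟨0,[]⟩,⟨0,[(57,0)]⟩⟩,⟨false,0,⟨0,[(53,0)]⟩,⟨3,
  [(28,1),(3,0),(0,0),(21,0)]⟩⟩,[.a ⟨true,(-1),⟨0,[(0,0)]⟩,⟨0,[(22,0),(32,0)]⟩⟩ ⟨true,0,⟨3,[(1,1),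
  (21,1),(15,0),(0,0)]⟩,⟨1,[(9,0),(2,0),(5,1),(24,1)]⟩⟩ ⟨false,0,⟨3,[(0,1),(16,1),(5,1),(30,0),(0,
  0)]⟩,⟨1,[(10,0),(7,0),(2,0),(33,0)]⟩⟩,.e ⟨true,0,⟨0,[(1,0)]⟩,⟨0,[(27,0)]⟩⟩ ⟨true,0,⟨1,[(12,0),(10,
  1),(31,0)]⟩,⟨0,[(18,0)]⟩⟩,.e ⟨false,0,⟨0,[(1,0)]⟩,⟨1,[(27,1),(26,0),(0,0)]⟩⟩ ⟨false,0,⟨1,[(12,0),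
  (10,1),(31,0)]⟩,⟨1,[(10,0),(7,0),(2,0),(33,0)]⟩⟩,.o ⟨false,0,⟨0,[(24,0)]⟩,⟨3,[(15,1),(1,1),(31,0),
  (5,0)]⟩⟩]⟩) (.R ⟨1,false,false,true,[0,0,1],[1,-1],[1,1,0,-1,0,0,0,1],(⟨0,[(42,0)]⟩,⟨0,[(41,0)]⟩),
  (⟨0,[(45,0)]⟩,⟨0,[(46,0)]⟩),⟨0,[(31,0)]⟩,.k,.k,.k,.k,.k,.k,⟨false,0,⟨0,[(21,0)]⟩,⟨1,[(23,1),(30,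
  0),(0,0)]⟩⟩,⟨true,(-1),⟨0,[(14,0)]⟩,⟨3,[(15,1),(1,1),(31,0),(5,0)]⟩⟩,⟨true,0,⟨0,[(52,0)]⟩,⟨0,[(53,
  0)]⟩⟩,⟨false,0,⟨5,[(5,0),(5,2),(11,2),(5,0),(3,0),(2,0)]⟩,⟨0,[(0,0),(11,0),(41,0)]⟩⟩,⟨false,0,⟨0,
  []⟩,⟨1,[(32,0),(0,0),(21,0)]⟩⟩,⟨false,0,⟨5,[(1,2),(3,0),(17,2),(5,0),(3,0),(2,3)]⟩,⟨1,[(0,1),(11,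
  0),(41,0)]⟩⟩,[.o ⟨false,0,⟨0,[(52,0)]⟩,⟨0,[(16,0),(38,0)]⟩⟩,.a ⟨true,0,⟨4,[(2,0),(12,0),(9,1),(10,
  0),(8,1)]⟩,⟨0,[(53,0)]⟩⟩ ⟨true,0,⟨0,[(18,0)]⟩,⟨1,[(12,0),(10,1),(31,0)]⟩⟩ ⟨false,0,⟨2,[(7,0),(0,
  0),(27,1)]⟩,⟨1,[(17,1),(36,0),(0,0)]⟩⟩,.o ⟨false,1,⟨3,[(15,1),(1,1),(31,0),(5,0)]⟩,⟨0,[(24,0)]⟩⟩,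
  .e ⟨false,1,⟨7,[(0,1),(9,3),(14,0),(1,5),(1,0),(25,1)]⟩,⟨1,[(1,1),(10,0),(41,0)]⟩⟩ ⟨false,0,⟨2,
  [(7,0),(0,0),(27,1)]⟩,⟨0,[(17,0),(37,0)]⟩⟩]⟩))))) (.Q [0,0,0,0,0,-1,0,0,0,0,0,1] (.ed false [1,-1,
  0,0,1] .k) (.S ⟨1,0,[1,1],[0,0,0,0,1],[2,0,0,-1],(⟨0,[(32,0)]⟩,⟨0,[(31,0)]⟩),⟨0,[(0,0)]⟩,.k,(.r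
  (-1) ⟨14,[(7,2),(4,7),(12,1),(0,3),(17,0),(1,1)]⟩ ⟨9,[(9,4),(19,2),(0,2),(21,1),(1,3)]⟩),⟨false,1,
  ⟨3,[(25,1),(3,0),(0,0),(21,0)]⟩,⟨0,[(50,0)]⟩⟩,⟨true,0,⟨0,[(54,0)]⟩,⟨0,[]⟩⟩,⟨true,0,⟨0,[]⟩,⟨0,[(54,
  0)]⟩⟩,⟨false,0,⟨0,[(50,0)]⟩,⟨3,[(25,1),(3,0),(0,0),(21,0)]⟩⟩,[.a ⟨true,(-1),⟨0,[(1,0)]⟩,⟨1,[(2,1),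
  (48,0),(0,0)]⟩⟩ ⟨false,1,⟨14,[(7,2),(4,7),(12,1),(0,3),(17,0),(1,1)]⟩,⟨1,[(6,0),(2,0),(30,1)]⟩⟩
  ⟨true,0,⟨0,[(54,0)]⟩,⟨0,[(45,0)]⟩⟩,.o ⟨false,0,⟨1,[(1,1),(44,0),(5,0)]⟩,⟨8,[(2,1),(3,0),(22,6),
  (10,1),(5,0)]⟩⟩,.o ⟨false,0,⟨1,[(1,1),(44,0),(5,0)]⟩,⟨0,[(29,0)]⟩⟩,.e ⟨false,1,⟨1,[(5,0),(46,0)]⟩,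
  ⟨9,[(9,4),(19,2),(0,2),(21,1),(1,3)]⟩⟩ ⟨false,1,⟨1,[(29,0),(0,0),(20,0)]⟩,⟨0,[(45,0)]⟩⟩]⟩) (.R ⟨1,
  false,false,false,[1,0,0,0,-1],[1,-1],[1,0,0,-1],(⟨0,[(31,0)]⟩,⟨0,[(32,0)]⟩),(⟨0,[(42,0)]⟩,⟨0,
  [(43,0)]⟩),⟨1,[(0,0),(9,0),(17,0),(2,0)]⟩,.k,.k,(.r (-1) ⟨43,[(7,11),(4,19),(12,5),(0,9),(19,4),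
  (5,0),(1,7)]⟩ ⟨1,[(9,0),(19,0),(0,0)]⟩),(.r 0 ⟨9,[(9,4),(19,2),(0,2),(21,1),(1,3)]⟩ ⟨14,[(7,2),(4,
  7),(12,1),(0,3),(17,0),(1,1)]⟩),.k,.k,⟨false,0,⟨0,[]⟩,⟨1,[(29,0),(0,0),(20,0)]⟩⟩,⟨true,(-1),⟨0,
  [(1,0),(43,0)]⟩,⟨0,[(29,0)]⟩⟩,⟨false,1,⟨3,[(25,1),(3,0),(0,0),(21,0)]⟩,⟨1,[(6,0),(2,0),(30,1)]⟩⟩,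
  ⟨false,0,⟨1,[(1,1),(3,0),(39,1),(6,0)]⟩,⟨0,[(29,0),(20,0)]⟩⟩,⟨true,0,⟨0,[]⟩,⟨0,[(54,0)]⟩⟩,⟨false,
  0,⟨0,[(1,0),(50,0)]⟩,⟨8,[(2,1),(3,0),(22,6),(10,1),(5,0)]⟩⟩,[.e ⟨false,1,⟨14,[(7,2),(4,7),(12,1),
  (0,3),(17,0),(1,1)]⟩,⟨0,[(50,0)]⟩⟩ ⟨false,0,⟨1,[(1,1),(3,0),(46,0)]⟩,⟨1,[(9,0),(19,1),(21,0)]⟩⟩,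
  .o ⟨false,1,⟨3,[(25,1),(3,0),(0,0),(21,0)]⟩,⟨0,[(13,0)]⟩⟩,.o ⟨false,1,⟨0,[(29,0)]⟩,⟨1,[(1,1),(44,
  0),(5,0)]⟩⟩,.a ⟨true,0,⟨0,[(2,0)]⟩,⟨1,[(1,1),(49,0),(0,0)]⟩⟩ ⟨false,1,⟨1,[(5,0),(46,0)]⟩,⟨1,[(9,
  0),(19,0),(0,0)]⟩⟩ ⟨true,0,⟨1,[(1,1),(3,0),(46,0)]⟩,⟨0,[(2,0),(10,0)]⟩⟩]⟩))))) (.R ⟨1,false,false,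
  true,[0,0,1],[1,-1],[1,1,0,-1,0,0,0,1],(⟨0,[(35,0)]⟩,⟨0,[(34,0)]⟩),(⟨0,[(38,0)]⟩,⟨0,[(39,0)]⟩),⟨0,
  [(24,0)]⟩,.k,.k,.k,.k,.k,.k,⟨false,0,⟨0,[(14,0)]⟩,⟨1,[(16,1),(30,0),(0,0)]⟩⟩,⟨true,(-1),⟨0,[(7,
  0)]⟩,⟨1,[(0,0),(9,0),(10,0)]⟩⟩,⟨true,0,⟨0,[(45,0)]⟩,⟨0,[(46,0)]⟩⟩,⟨false,0,⟨3,[(4,1),(11,1),(5,0),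
  (11,0),(0,0)]⟩,⟨1,[(0,1),(4,0),(5,1),(36,0)]⟩⟩,⟨false,0,⟨0,[]⟩,⟨1,[(25,0),(0,0),(21,0)]⟩⟩,⟨false,
  0,⟨7,[(4,1),(0,1),(10,5),(5,0),(6,3),(4,0),(0,0),(12,1)]⟩,⟨0,[(0,0),(10,0),(29,0)]⟩⟩,[.o ⟨false,0,
  ⟨0,[(45,0)]⟩,⟨3,[(0,1),(4,0),(11,1),(24,0),(5,1)]⟩⟩,.a ⟨true,0,⟨1,[(18,0),(15,0),(0,0)]⟩,⟨0,[(46,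
  0)]⟩⟩ ⟨true,0,⟨0,[(11,0)]⟩,⟨1,[(5,0),(10,1),(31,0)]⟩⟩ ⟨false,0,⟨1,[(1,0),(5,0),(21,0)]⟩,⟨3,[(0,1),
  (9,1),(14,0),(0,0),(21,0)]⟩⟩,.o ⟨false,1,⟨1,[(0,0),(9,0),(10,0)]⟩,⟨0,[(17,0)]⟩⟩,.e ⟨false,1,⟨5,
  [(3,2),(7,0),(8,4),(0,0),(26,1)]⟩,⟨0,[(0,0),(3,0),(0,0)]⟩⟩ ⟨false,0,⟨1,[(1,0),(5,0),(21,0)]⟩,⟨0,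
  [(10,0),(37,0)]⟩⟩]⟩)))))) (.S ⟨1,0,[0,0,-1,-1],[1,-1],[1,1,-1,-2],(⟨0,[(33,0)]⟩,⟨0,[(34,0)]⟩),⟨1,
  [(1,0),(17,0),(13,0)]⟩,.k,(.r (-1) ⟨0,[(0,0)]⟩ ⟨1,[(2,0),(2,1),(11,0),(9,0),(13,1),(1,0)]⟩),⟨true,
  0,⟨0,[(40,0)]⟩,⟨0,[(41,0)]⟩⟩,⟨false,1,⟨1,[(20,0),(0,0),(21,0)]⟩,⟨0,[]⟩⟩,⟨false,0,⟨0,[]⟩,⟨1,[(20,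
  0),(0,0),(21,0)]⟩⟩,⟨true,0,⟨0,[(41,0)]⟩,⟨0,[(40,0)]⟩⟩,[.e ⟨false,1,⟨2,[(0,1),(15,0),(18,1)]⟩,⟨0,
  [(36,0),(4,1)]⟩⟩ ⟨false,1,⟨1,[(0,0),(41,0)]⟩,⟨3,[(2,0),(2,1),(11,0),(9,0),(13,1),(1,0)]⟩⟩,.o
  ⟨false,1,⟨3,[(16,1),(3,0),(0,0),(21,0)]⟩,⟨0,[(4,0)]⟩⟩,.o ⟨false,0,⟨1,[(27,0),(0,0)]⟩,⟨1,[(37,0),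
  (4,0)]⟩⟩,.a ⟨true,(-1),⟨0,[(2,0),(24,0)]⟩,⟨0,[(42,0)]⟩⟩ ⟨false,1,⟨0,[(0,0)]⟩,⟨0,[(2,0),(2,0),(35,
  0),(1,0)]⟩⟩ ⟨true,1,⟨1,[(0,0),(41,0)]⟩,⟨0,[(2,0),(2,0)]⟩⟩]⟩)) (.I [1,0,2,2,-1] (.R ⟨0,false,false,
  true,[1,-1,-1],[1,-1],[],(⟨0,[(18,0)]⟩,⟨0,[(30,0),(0,0)]⟩),(⟨0,[(33,0)]⟩,⟨0,[(34,0)]⟩),⟨0,[(1,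
  0)]⟩,.k,.k,(.r (-2) ⟨5,[(3,5),(4,1),(7,1),(9,3),(15,2),(0,0)]⟩ ⟨0,[(0,0),(5,0),(34,0)]⟩),.k,.k,.k,
  ⟨true,0,⟨1,[(0,0),(42,0)]⟩,⟨0,[(40,0)]⟩⟩,⟨false,1,⟨1,[(0,0),(2,1),(38,0)]⟩,⟨0,[(12,0)]⟩⟩,⟨false,0,
  ⟨1,[(0,0),(8,1),(33,0)]⟩,⟨3,[(3,1),(4,1),(2,1),(30,0),(0,0)]⟩⟩,⟨true,0,⟨0,[(25,0)]⟩,⟨0,[(14,0)]⟩⟩,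
  ⟨false,0,⟨0,[]⟩,⟨0,[]⟩⟩,⟨false,0,⟨0,[]⟩,⟨0,[]⟩⟩,[.o ⟨false,0,⟨0,[(40,0)]⟩,⟨0,[(4,0),(38,0)]⟩⟩,.a
  ⟨true,0,⟨1,[(13,0),(15,0),(0,0)]⟩,⟨0,[(41,0)]⟩⟩ ⟨false,1,⟨1,[(42,0),(0,0)]⟩,⟨0,[(45,0)]⟩⟩ ⟨true,1,
  ⟨0,[(3,0)]⟩,⟨1,[(0,0),(1,1),(34,0)]⟩⟩,.e ⟨false,1,⟨1,[(20,0),(0,0),(21,0)]⟩,⟨0,[]⟩⟩ ⟨false,1,⟨0,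
  [(3,0)]⟩,⟨1,[(0,0),(11,1),(30,0)]⟩⟩,.o ⟨false,(-1),⟨0,[(0,0),(5,0),(1,0)]⟩,⟨3,[(3,1),(1,1),(31,0),
  (4,3),(0,0)]⟩⟩]⟩) (.S ⟨1,0,[0,0,-1,-1],[1,-1],[1,1,-1,-2],(⟨0,[(33,0)]⟩,⟨0,[(34,0)]⟩),⟨0,[(18,0),
  (0,0)]⟩,.k,(.r (-1) ⟨0,[(0,0)]⟩ ⟨1,[(2,0),(2,1),(11,0),(9,0),(13,1),(1,0)]⟩),⟨true,0,⟨0,[(40,0)]⟩,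
  ⟨0,[(41,0)]⟩⟩,⟨false,1,⟨1,[(20,0),(0,0),(21,0)]⟩,⟨0,[]⟩⟩,⟨false,0,⟨0,[]⟩,⟨1,[(20,0),(0,0),(21,
  0)]⟩⟩,⟨true,0,⟨0,[(41,0)]⟩,⟨0,[(40,0)]⟩⟩,[.e ⟨false,1,⟨2,[(0,1),(15,0),(18,1)]⟩,⟨0,[(36,0),(4,
  1)]⟩⟩ ⟨false,1,⟨1,[(0,0),(41,0)]⟩,⟨3,[(2,0),(2,1),(11,0),(9,0),(13,1),(1,0)]⟩⟩,.o ⟨false,1,⟨3,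
  [(16,1),(3,0),(0,0),(21,0)]⟩,⟨0,[(4,0)]⟩⟩,.o ⟨false,0,⟨1,[(27,0),(0,0)]⟩,⟨1,[(37,0),(4,0)]⟩⟩,.a
  ⟨true,(-1),⟨0,[(2,0),(24,0)]⟩,⟨0,[(42,0)]⟩⟩ ⟨false,1,⟨0,[(0,0)]⟩,⟨0,[(2,0),(2,0),(35,0),(1,0)]⟩⟩
  ⟨true,1,⟨1,[(0,0),(41,0)]⟩,⟨0,[(2,0),(2,0)]⟩⟩]⟩))) (.R ⟨1,false,false,false,[1,0,-1],[1,-1],[0,1,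
  0,0,0,0,0,-1],(⟨0,[(27,0)]⟩,⟨0,[(28,0)]⟩),(⟨0,[(31,0)]⟩,⟨0,[(32,0)]⟩),⟨0,[(16,0)]⟩,.k,.k,.k,.k,.k,
  .k,⟨false,0,⟨0,[(9,0),(29,0)]⟩,⟨1,[(4,1),(35,0),(0,0)]⟩⟩,⟨true,0,⟨0,[(25,0)]⟩,⟨0,[(10,0)]⟩⟩,⟨true,
  0,⟨0,[(43,0)]⟩,⟨0,[]⟩⟩,⟨false,1,⟨0,[(8,0),(32,0)]⟩,⟨0,[(12,0),(26,0)]⟩⟩,⟨false,0,⟨0,[(39,0)]⟩,⟨3,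
  [(14,1),(3,0),(0,0),(21,0)]⟩⟩,⟨false,1,⟨0,[(23,0),(17,0)]⟩,⟨0,[(12,0)]⟩⟩,[.a ⟨true,0,⟨1,[(11,0),
  (15,0),(0,0)]⟩,⟨0,[(39,0)]⟩⟩ ⟨true,0,⟨0,[(9,0)]⟩,⟨0,[(7,0),(26,0)]⟩⟩ ⟨false,1,⟨0,[(1,0)]⟩,⟨1,[(2,
  0),(2,0),(16,0),(18,0)]⟩⟩,.o ⟨false,1,⟨3,[(14,1),(3,0),(0,0),(21,0)]⟩,⟨0,[(2,0)]⟩⟩,.o ⟨false,0,⟨0,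
  [(10,0)]⟩,⟨3,[(1,1),(1,1),(31,0),(5,0)]⟩⟩,.o ⟨false,0,⟨0,[(26,0)]⟩,⟨0,[(0,0)]⟩⟩]⟩))

theorem ok25 : chk K t25 r21 = true := by decide +kernel

noncomputable def t27 : Tre :=
  (.Q [0,0,-1,-1,0,0,-1,0,0,1,-1] (.p false [0,0,1] [1] (⟨0,[(26,0)]⟩,⟨0,[(25,0)]⟩) .k 1 (⟨0,[]⟩,⟨0,
  []⟩) .k .k) (.R ⟨1,false,false,false,[0,0,1],[1,-1],[1,0,0,-1,0,0,0,1],(⟨0,[(27,0)]⟩,⟨0,[(26,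
  0)]⟩),(⟨0,[(30,0)]⟩,⟨0,[(31,0)]⟩),⟨0,[(16,0)]⟩,.k,.k,.k,.k,.k,.k,⟨false,0,⟨0,[(6,0)]⟩,⟨1,[(8,1),
  (30,0),(0,0)]⟩⟩,⟨true,(-1),⟨0,[(1,0),(2,0)]⟩,⟨1,[(24,1),(9,0),(4,0)]⟩⟩,⟨false,1,⟨3,[(13,1),(3,0),
  (0,0),(21,0)]⟩,⟨0,[(38,0)]⟩⟩,⟨false,0,⟨0,[(1,0),(9,0)]⟩,⟨1,[(22,1),(11,0),(3,1),(1,0)]⟩⟩,⟨true,0,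
  ⟨0,[]⟩,⟨0,[(42,0)]⟩⟩,⟨false,0,⟨0,[(1,0),(9,0),(26,0)]⟩,⟨1,[(22,1),(11,0),(5,0)]⟩⟩,[.a ⟨true,0,⟨1,
  [(10,0),(15,0),(0,0)]⟩,⟨0,[(38,0)]⟩⟩ ⟨true,0,⟨0,[(3,0)]⟩,⟨0,[(8,0),(24,0),(4,0)]⟩⟩ ⟨false,0,⟨0,
  [(0,0)]⟩,⟨1,[(2,1),(36,0),(0,0)]⟩⟩,.a ⟨true,0,⟨0,[(1,0)]⟩,⟨4,[(2,0),(5,0),(5,0),(7,0),(9,0),(5,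
  3)]⟩⟩ ⟨false,1,⟨1,[(3,1),(35,0),(0,0)]⟩,⟨0,[(8,0),(29,0)]⟩⟩ ⟨true,0,⟨0,[(0,0),(32,0)]⟩,⟨0,[(2,
  0)]⟩⟩,.o ⟨false,1,⟨1,[(24,1),(9,0),(4,0)]⟩,⟨0,[(9,0)]⟩⟩,.a ⟨true,0,⟨0,[(24,0)]⟩,⟨0,[(21,0)]⟩⟩
  ⟨false,1,⟨1,[(3,1),(35,0),(0,0)]⟩,⟨0,[(8,0),(24,0),(4,0)]⟩⟩ ⟨true,0,⟨0,[(0,0)]⟩,⟨0,[(2,0)]⟩⟩]⟩)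
  (.R ⟨1,false,false,false,[0,0,1],[1,-1],[1,0,0,-1,0,0,0,1],(⟨0,[(27,0)]⟩,⟨0,[(26,0)]⟩),(⟨0,[(30,
  0)]⟩,⟨0,[(31,0)]⟩),⟨0,[(16,0)]⟩,.k,.k,.k,.k,.k,.k,⟨false,0,⟨0,[(6,0)]⟩,⟨1,[(8,1),(30,0),(0,0)]⟩⟩,
  ⟨true,(-1),⟨0,[(1,0),(2,0)]⟩,⟨1,[(0,0),(1,0),(10,0),(25,0)]⟩⟩,⟨false,1,⟨3,[(13,1),(3,0),(0,0),(21,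
  0)]⟩,⟨0,[(38,0)]⟩⟩,⟨false,0,⟨0,[(1,0),(9,0)]⟩,⟨1,[(0,1),(11,1),(26,0),(0,0)]⟩⟩,⟨true,0,⟨0,[]⟩,⟨0,
  [(42,0)]⟩⟩,⟨false,0,⟨0,[(1,0),(9,0),(26,0)]⟩,⟨1,[(22,1),(11,0),(5,0)]⟩⟩,[.e ⟨true,0,⟨0,[(3,0)]⟩,
  ⟨0,[(8,0),(24,0),(4,0)]⟩⟩ ⟨true,0,⟨1,[(10,0),(3,0)]⟩,⟨0,[(0,0)]⟩⟩,.a ⟨true,0,⟨0,[(1,0)]⟩,⟨4,[(2,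
  0),(5,0),(5,0),(7,0),(9,0),(5,3)]⟩⟩ ⟨false,1,⟨1,[(3,1),(35,0),(0,0)]⟩,⟨0,[(8,0),(29,0)]⟩⟩ ⟨true,0,
  ⟨0,[(1,0),(7,0)]⟩,⟨0,[(2,0)]⟩⟩,.o ⟨false,1,⟨1,[(0,0),(1,0),(10,0),(25,0)]⟩,⟨0,[(9,0)]⟩⟩,.e ⟨false,
  1,⟨1,[(3,1),(35,0),(0,0)]⟩,⟨0,[(8,0),(24,0),(4,0)]⟩⟩ ⟨false,1,⟨1,[(10,0),(3,0),(24,0),(0,0)]⟩,⟨0,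
  [(0,0)]⟩⟩]⟩))

theorem ok27 : chk K t27 r20 = true := by decide +kernel

noncomputable def t30 : Tre :=
  (.S ⟨1,0,[0,0,1,1,0,0,0,-1],[1,1,-1],[1,1,1],(⟨0,[(23,0),(1,0)]⟩,⟨0,[(13,0)]⟩),⟨0,[(23,0)]⟩,.k,.k,
  ⟨true,0,⟨1,[(2,0),(0,0),(0,0),(4,0)]⟩,⟨0,[(0,0)]⟩⟩,⟨false,1,⟨1,[(14,0),(0,0),(21,0)]⟩,⟨0,[]⟩⟩,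
  ⟨false,0,⟨0,[(3,0)]⟩,⟨0,[(5,0),(31,0)]⟩⟩,⟨true,0,⟨0,[(35,0)]⟩,⟨0,[(34,0)]⟩⟩,[.o ⟨false,0,⟨0,[(8,
  0),(26,0)]⟩,⟨1,[(4,1),(26,0),(5,0)]⟩⟩,.a ⟨true,0,⟨0,[(0,0),(17,0),(11,0)]⟩,⟨0,[(4,0)]⟩⟩ ⟨false,0,
  ⟨0,[]⟩,⟨1,[(14,0),(0,0),(20,0)]⟩⟩ ⟨true,0,⟨0,[(0,0),(29,0)]⟩,⟨1,[(2,0),(0,0),(0,0),(4,0)]⟩⟩,.e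
  ⟨false,0,⟨1,[(21,0),(0,0)]⟩,⟨1,[(36,0),(0,0)]⟩⟩ ⟨false,0,⟨0,[(0,0),(29,0)]⟩,⟨1,[(3,0),(5,0),(0,0),
  (25,0)]⟩⟩,.o ⟨false,0,⟨0,[(6,0)]⟩,⟨1,[(21,1),(9,0),(4,0)]⟩⟩]⟩)

theorem ok30 : chk K t30 r18 = true := by decide +kernel

noncomputable def t34 : Tre :=
  (.Q [0,0,-1,0,1,0,1,0,0,-1,1] (.p true [0,0,1] [1] (⟨0,[(21,0)]⟩,⟨0,[(20,0)]⟩) .k 1 (⟨0,[]⟩,⟨0,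
  []⟩) .k .k) (.S ⟨1,0,[0,0,0,0,0,0,0,-1],[1,0,-1],[0,1,0,0,0,0,0,-1],(⟨0,[(21,0)]⟩,⟨0,[(22,0)]⟩),
  ⟨0,[(10,0)]⟩,.k,.k,⟨true,0,⟨0,[(37,0)]⟩,⟨0,[]⟩⟩,⟨false,1,⟨1,[(12,0),(0,0),(21,0)]⟩,⟨0,[]⟩⟩,⟨false,
  0,⟨0,[(33,0)]⟩,⟨3,[(8,1),(3,0),(0,0),(21,0)]⟩⟩,⟨true,0,⟨0,[(33,0)]⟩,⟨0,[(32,0)]⟩⟩,[.o ⟨false,0,⟨0,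
  [(6,0)]⟩,⟨1,[(17,1),(11,0),(5,0)]⟩⟩,.a ⟨true,0,⟨0,[(1,0),(14,0),(11,0)]⟩,⟨0,[(17,0)]⟩⟩ ⟨true,0,⟨0,
  [(1,0)]⟩,⟨0,[(7,0),(20,0)]⟩⟩ ⟨false,1,⟨1,[(1,1),(32,0),(0,0)]⟩,⟨0,[(7,0)]⟩⟩,.o ⟨false,0,⟨0,[(4,
  0)]⟩,⟨3,[(0,1),(11,0),(0,0),(5,1),(9,0)]⟩⟩,.o ⟨false,0,⟨0,[(20,0)]⟩,⟨0,[(0,0)]⟩⟩]⟩) (.I [1,1,1,0,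
  -1,0,0,-1] (.Q [0,-1,0,2,0,0,-1,-1,0,0,-1] (.p false [0,0,1] [] (⟨0,[(23,0)]⟩,⟨0,[(22,0)]⟩) .k 0
  (⟨0,[]⟩,⟨0,[]⟩) .k .k) (.R ⟨1,true,false,false,[0,0,1],[0,1],[0,0,0,0,0,0,0,1],(⟨0,[(24,0)]⟩,⟨0,
  [(23,0)]⟩),(⟨0,[(28,0)]⟩,⟨0,[(27,0)]⟩),⟨0,[(13,0)]⟩,.k,.k,.k,.k,(.r (-2) ⟨0,[(9,0),(0,0),(25,0)]⟩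
  ⟨0,[(0,0),(0,0),(17,0),(10,0)]⟩),.k,⟨true,1,⟨1,[(4,1),(13,1),(12,0),(5,0)]⟩,⟨1,[(0,0),(0,1),(17,
  0),(10,1)]⟩⟩,⟨false,1,⟨1,[(18,1),(12,0),(4,0)]⟩,⟨0,[(21,0)]⟩⟩,⟨false,1,⟨1,[(14,0),(0,0),(21,0)]⟩,
  ⟨0,[]⟩⟩,⟨true,0,⟨1,[(0,0),(19,0)]⟩,⟨0,[(4,0)]⟩⟩,⟨true,0,⟨0,[(35,0)]⟩,⟨0,[(34,0)]⟩⟩,⟨false,0,⟨0,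
  [(0,0)]⟩,⟨0,[(10,0),(8,0)]⟩⟩,[]⟩) (.I [0,0,-2,0,1,-2,0,0,-1] (.Q [0,0,0,0,0,-1,0,0,0,0,0,1] (.ed
  false [1,-1,0,0,1] .k) (.Q [0,0,0,0,0,0,0,0,-1,1,0,-1] (.p false [0,0,0,0,1] [1] (⟨0,[(19,0)]⟩,⟨0,
  [(18,0)]⟩) .k 1 (⟨0,[]⟩,⟨0,[]⟩) .k .k) (.Q [-1,1,0,0,0,0,0,0,-1,0,0,-1] (.p false [0,0,0,0,1] []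
  (⟨0,[(20,0)]⟩,⟨0,[(19,0)]⟩) .k 0 (⟨0,[]⟩,⟨0,[]⟩) .k .k) (.S ⟨1,0,[1],[0,0,0,0,1],[1,1],(⟨0,[(21,
  0)]⟩,⟨0,[(20,0)]⟩),⟨0,[(2,0)]⟩,.k,(.r (-1) ⟨7,[(14,3),(3,0),(0,0),(13,1),(6,2)]⟩ ⟨1,[(25,0),(0,0),
  (12,1)]⟩),⟨true,0,⟨0,[(43,0)]⟩,⟨0,[]⟩⟩,⟨false,1,⟨1,[(18,0),(0,0),(21,0)]⟩,⟨0,[]⟩⟩,⟨false,0,⟨0,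
  [(39,0)]⟩,⟨3,[(14,1),(3,0),(0,0),(21,0)]⟩⟩,⟨true,0,⟨0,[(39,0)]⟩,⟨0,[(38,0)]⟩⟩,[.e ⟨true,0,⟨0,[(43,
  0)]⟩,⟨0,[(34,0)]⟩⟩ ⟨true,0,⟨0,[]⟩,⟨1,[(25,0),(0,0)]⟩⟩,.o ⟨false,1,⟨1,[(19,1),(15,0),(5,0)]⟩,⟨0,
  [(0,0)]⟩⟩,.a ⟨true,0,⟨0,[(19,0)]⟩,⟨0,[(1,0)]⟩⟩ ⟨false,0,⟨0,[]⟩,⟨1,[(18,0),(0,0),(21,0)]⟩⟩ ⟨true,0,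
  ⟨0,[]⟩,⟨0,[(43,0)]⟩⟩,.e ⟨false,1,⟨1,[(18,0),(0,0),(20,0)]⟩,⟨0,[(34,0)]⟩⟩ ⟨false,1,⟨1,[(40,0),(0,
  0)]⟩,⟨1,[(25,0),(0,0)]⟩⟩]⟩) (.R ⟨1,false,false,false,[0,0,0,0,1],[0,1],[1,1],(⟨0,[(21,0)]⟩,⟨0,
  [(20,0)]⟩),(⟨0,[(32,0)]⟩,⟨0,[(31,0)]⟩),⟨0,[(2,0)]⟩,.k,.k,(.r (-1) ⟨7,[(14,3),(3,0),(0,0),(13,1),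
  (6,2)]⟩ ⟨1,[(25,0),(0,0),(12,1)]⟩),(.r (-1) ⟨7,[(14,3),(3,0),(0,0),(13,1),(6,2)]⟩ ⟨1,[(25,0),(0,
  0),(12,1)]⟩),(.x 0 ⟨1,[(5,0),(13,1),(0,1),(2,0),(2,0),(2,3),(4,1),(0,0)]⟩ ⟨0,[(3,0)]⟩),.k,⟨false,
  1,⟨0,[(38,0),(1,0)]⟩,⟨0,[(34,0),(4,0)]⟩⟩,⟨true,1,⟨1,[(1,1),(33,0),(4,0)]⟩,⟨2,[(0,1),(4,1),(0,1),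
  (12,0),(3,1),(10,1),(0,0)]⟩⟩,⟨true,0,⟨0,[(43,0)]⟩,⟨0,[]⟩⟩,⟨false,1,⟨1,[(1,1),(33,0),(3,1),(1,0)]⟩,
  ⟨0,[(0,0),(37,0)]⟩⟩,⟨false,0,⟨0,[(39,0)]⟩,⟨3,[(14,1),(3,0),(0,0),(21,0)]⟩⟩,⟨false,1,⟨1,[(1,1),(33,
  0),(3,3),(1,0)]⟩,⟨0,[(0,0),(3,0),(7,0)]⟩⟩,[.a ⟨true,0,⟨0,[(39,0)]⟩,⟨1,[(11,0),(15,0),(0,0)]⟩⟩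
  ⟨true,0,⟨0,[(43,0)]⟩,⟨0,[(34,0)]⟩⟩ ⟨false,1,⟨1,[(1,1),(33,0),(3,1),(0,0)]⟩,⟨0,[(0,0),(37,0)]⟩⟩,.o
  ⟨false,1,⟨1,[(35,0),(3,1),(1,0)]⟩,⟨0,[(38,0)]⟩⟩,.e ⟨false,0,⟨0,[]⟩,⟨1,[(18,0),(0,0),(21,0)]⟩⟩
  ⟨false,1,⟨1,[(1,1),(33,0),(3,1),(1,0)]⟩,⟨0,[(0,0),(37,0)]⟩⟩,.o ⟨false,0,⟨2,[(0,0),(4,0),(0,0),(12,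
  1),(3,0),(10,0),(0,1)]⟩,⟨1,[(1,1),(33,0),(4,0)]⟩⟩]⟩)) (.Q [1,-1,0,0,0,0,0,0,1,0,0,1] (.p true [0,
  0,0,0,1] [] (⟨0,[(20,0)]⟩,⟨0,[(19,0)]⟩) .k 0 (⟨0,[]⟩,⟨0,[]⟩) .k .k) (.S ⟨1,0,[1],[0,0,0,0,1],[1,
  1],(⟨0,[(21,0)]⟩,⟨0,[(20,0)]⟩),⟨0,[(2,0)]⟩,.k,(.r (-1) ⟨7,[(14,3),(3,0),(0,0),(13,1),(6,2)]⟩ ⟨1,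
  [(25,0),(0,0),(12,1)]⟩),⟨true,0,⟨0,[(43,0)]⟩,⟨0,[]⟩⟩,⟨false,1,⟨1,[(18,0),(0,0),(21,0)]⟩,⟨0,[]⟩⟩,
  ⟨false,0,⟨0,[(39,0)]⟩,⟨3,[(14,1),(3,0),(0,0),(21,0)]⟩⟩,⟨true,0,⟨0,[(39,0)]⟩,⟨0,[(38,0)]⟩⟩,[.e
  ⟨true,0,⟨0,[(43,0)]⟩,⟨0,[(34,0)]⟩⟩ ⟨true,0,⟨0,[]⟩,⟨1,[(25,0),(0,0)]⟩⟩,.a ⟨true,0,⟨0,[(0,0)]⟩,⟨1,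
  [(3,0),(1,0),(0,0),(11,0),(1,0),(2,0),(5,1)]⟩⟩ ⟨true,0,⟨0,[]⟩,⟨1,[(25,0),(0,0)]⟩⟩ ⟨false,1,⟨1,
  [(40,0),(0,0)]⟩,⟨0,[(43,0)]⟩⟩,.o ⟨false,0,⟨0,[(1,0)]⟩,⟨0,[(18,0)]⟩⟩,.e ⟨false,1,⟨1,[(18,0),(0,0),
  (20,0)]⟩,⟨0,[(34,0)]⟩⟩ ⟨false,1,⟨1,[(40,0),(0,0)]⟩,⟨1,[(25,0),(0,0)]⟩⟩]⟩) (.R ⟨1,false,false,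
  false,[0,0,0,0,1],[0,1],[1,1],(⟨0,[(21,0)]⟩,⟨0,[(20,0)]⟩),(⟨0,[(32,0)]⟩,⟨0,[(31,0)]⟩),⟨0,[(2,0)]⟩,
  .k,.k,(.r (-1) ⟨7,[(14,3),(3,0),(0,0),(13,1),(6,2)]⟩ ⟨1,[(25,0),(0,0),(12,1)]⟩),(.r (-1) ⟨7,[(14,
  3),(3,0),(0,0),(13,1),(6,2)]⟩ ⟨1,[(25,0),(0,0),(12,1)]⟩),(.x 0 ⟨0,[(1,0),(18,0),(4,0),(0,0),(2,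
  1)]⟩ ⟨0,[(3,0)]⟩),.k,⟨false,1,⟨0,[(38,0),(1,0)]⟩,⟨0,[(34,0),(4,0)]⟩⟩,⟨true,1,⟨1,[(0,1),(39,0),(0,
  0)]⟩,⟨0,[(1,0),(4,0),(18,0)]⟩⟩,⟨true,0,⟨0,[(43,0)]⟩,⟨0,[]⟩⟩,⟨false,1,⟨0,[(0,0),(38,0),(1,0)]⟩,⟨1,
  [(1,0),(9,0),(7,0)]⟩⟩,⟨false,0,⟨0,[(39,0)]⟩,⟨3,[(14,1),(3,0),(0,0),(21,0)]⟩⟩,⟨false,1,⟨0,[(0,0),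
  (38,1),(1,0)]⟩,⟨0,[(1,0),(9,0)]⟩⟩,[.a ⟨true,0,⟨0,[(39,0)]⟩,⟨1,[(11,0),(15,0),(0,0)]⟩⟩ ⟨true,0,⟨0,
  [(43,0)]⟩,⟨0,[(34,0)]⟩⟩ ⟨false,1,⟨1,[(0,1),(38,1),(0,0),(0,0)]⟩,⟨1,[(1,0),(9,0),(7,0)]⟩⟩,.o
  ⟨false,1,⟨1,[(35,0),(3,1),(1,0)]⟩,⟨0,[(38,0)]⟩⟩,.o ⟨false,0,⟨0,[(1,0)]⟩,⟨0,[(18,0)]⟩⟩,.o ⟨false,0,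
  ⟨1,[(1,1),(23,0),(0,0)]⟩,⟨1,[(0,1),(39,0),(0,0)]⟩⟩]⟩))) (.S ⟨1,0,[-1,1],[1,0,0,0,-1],[-1],(⟨0,
  [(18,0)]⟩,⟨0,[(19,0)]⟩),⟨0,[(0,0),(13,0),(0,0)]⟩,.k,(.r (-1) ⟨13,[(12,6),(3,0),(0,0),(13,1),(6,5),
  (2,2)]⟩ ⟨1,[(23,0),(0,0),(12,1)]⟩),⟨false,1,⟨1,[(16,0),(0,0),(21,0)]⟩,⟨0,[]⟩⟩,⟨true,0,⟨0,[(41,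
  0)]⟩,⟨0,[]⟩⟩,⟨true,0,⟨0,[(37,0)]⟩,⟨0,[(36,0)]⟩⟩,⟨false,0,⟨0,[(37,0)]⟩,⟨3,[(12,1),(3,0),(0,0),(21,
  0)]⟩⟩,[.o ⟨false,0,⟨5,[(0,4),(0,4),(1,3),(0,3),(11,0),(4,3),(5,4),(0,1),(3,1)]⟩,⟨1,[(17,1),(15,0),
  (5,0)]⟩⟩,.e ⟨false,1,⟨0,[(0,0),(0,0),(15,0),(9,0),(4,0)]⟩,⟨0,[(41,0)]⟩⟩ ⟨false,1,⟨9,[(16,3),(0,3),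
  (20,4),(0,0),(1,1)]⟩,⟨0,[]⟩⟩,.a ⟨true,0,⟨0,[(0,0),(0,0),(2,0),(18,0),(3,0)]⟩,⟨0,[(17,0)]⟩⟩ ⟨false,
  1,⟨4,[(16,1),(0,1),(21,2),(1,0)]⟩,⟨0,[]⟩⟩ ⟨true,0,⟨0,[(41,0)]⟩,⟨0,[]⟩⟩,.o ⟨false,0,⟨5,[(0,4),(0,
  4),(1,3),(0,3),(11,0),(4,3),(5,4),(4,7),(0,1)]⟩,⟨1,[(17,1),(15,0),(4,0)]⟩⟩]⟩)) (.I [0,-1,1,1,0,0,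
  0,1] (.S ⟨1,0,[0,0,0,0,0,0,0,-1],[1,0,-1],[0,0,1],(⟨0,[(25,0)]⟩,⟨0,[(26,0)]⟩),⟨0,[(14,0)]⟩,.k,.k,
  ⟨true,0,⟨1,[(0,0),(5,0),(17,0)]⟩,⟨0,[(3,0),(34,0)]⟩⟩,⟨false,1,⟨1,[(16,0),(0,0),(21,0)]⟩,⟨0,[]⟩⟩,
  ⟨false,0,⟨0,[(0,0)]⟩,⟨1,[(5,0),(1,0),(4,0),(25,0)]⟩⟩,⟨true,0,⟨0,[(37,0)]⟩,⟨0,[(36,0)]⟩⟩,[.o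
  ⟨false,0,⟨0,[(10,0)]⟩,⟨1,[(21,1),(11,0),(5,0)]⟩⟩,.a ⟨true,0,⟨1,[(4,0),(0,1),(14,0),(18,0)]⟩,⟨0,
  [(21,0)]⟩⟩ ⟨true,0,⟨0,[(32,0)]⟩,⟨0,[(41,0)]⟩⟩ ⟨false,1,⟨1,[(5,1),(32,0),(0,0)]⟩,⟨0,[(11,0)]⟩⟩,.o
  ⟨false,0,⟨0,[(8,0)]⟩,⟨1,[(23,1),(9,0),(4,0)]⟩⟩,.e ⟨false,1,⟨1,[(16,0),(0,0),(21,0)]⟩,⟨0,[]⟩⟩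
  ⟨false,1,⟨1,[(5,1),(32,0),(0,0)]⟩,⟨1,[(0,0),(5,0),(17,0)]⟩⟩]⟩) (.I [0,0,-2,-1,1] (.I [0,0,2,0,-1,
  2] (.R ⟨1,false,false,true,[1,-1],[1,-1,-1],[0,1,-1,-1],(⟨0,[(31,0)]⟩,⟨0,[(32,0)]⟩),(⟨0,[(16,0)]⟩,
  ⟨0,[(28,0),(0,0)]⟩),⟨0,[(16,0),(0,0)]⟩,.k,.k,(.x 1 ⟨0,[(0,0)]⟩ ⟨0,[(31,1),(3,0),(4,0)]⟩),.k,.k,.k,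
  ⟨false,1,⟨1,[(13,1),(26,0),(0,0)]⟩,⟨0,[(7,0)]⟩⟩,⟨true,0,⟨0,[(10,0)]⟩,⟨0,[(25,0)]⟩⟩,⟨true,0,⟨0,
  [(43,0)]⟩,⟨0,[]⟩⟩,⟨false,0,⟨0,[(12,0)]⟩,⟨0,[(23,0),(17,0)]⟩⟩,⟨false,0,⟨0,[(39,0)]⟩,⟨3,[(14,1),(3,
  0),(0,0),(21,0)]⟩⟩,⟨false,0,⟨0,[(12,0),(26,0)]⟩,⟨0,[(8,0),(32,0)]⟩⟩,[.a ⟨true,(-1),⟨0,[(2,0),(3,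
  0)]⟩,⟨0,[(23,0),(15,0),(1,0)]⟩⟩ ⟨false,1,⟨6,[(1,4),(12,0),(3,0),(0,0),(13,3)]⟩,⟨0,[(34,0),(4,
  0)]⟩⟩ ⟨true,0,⟨0,[(2,0),(7,0)]⟩,⟨0,[(23,0),(10,1),(4,0)]⟩⟩,.o ⟨false,0,⟨1,[(2,1),(3,1),(28,0),(5,
  0)]⟩,⟨1,[(23,1),(11,0),(3,1),(1,0)]⟩⟩,.o ⟨false,0,⟨1,[(25,0),(0,0)]⟩,⟨1,[(35,0),(4,0)]⟩⟩,.e
  ⟨false,1,⟨0,[(1,0)]⟩,⟨1,[(25,0),(0,0),(7,1),(4,1)]⟩⟩ ⟨false,1,⟨0,[(1,0),(10,0)]⟩,⟨0,[(23,0),(10,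
  1),(4,0)]⟩⟩]⟩) (.I [0,0,-2,-2,1] (.R ⟨1,false,false,true,[1,-1],[1,-1,-1],[0,1,-1,-1],(⟨0,[(32,
  0)]⟩,⟨0,[(33,0)]⟩),(⟨0,[(17,0)]⟩,⟨0,[(29,0),(0,0)]⟩),⟨0,[(17,0),(0,0)]⟩,.k,.k,(.r (-1) ⟨0,[(0,
  0)]⟩ ⟨0,[(26,0),(0,0),(12,1)]⟩),.k,.k,.k,⟨false,1,⟨1,[(14,1),(26,0),(0,0)]⟩,⟨0,[(8,0)]⟩⟩,⟨true,0,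
  ⟨0,[(11,0)]⟩,⟨0,[(26,0)]⟩⟩,⟨true,0,⟨0,[(44,0)]⟩,⟨0,[]⟩⟩,⟨false,0,⟨0,[(13,0)]⟩,⟨0,[(24,0),(17,
  0)]⟩⟩,⟨false,0,⟨0,[(40,0)]⟩,⟨3,[(15,1),(3,0),(0,0),(21,0)]⟩⟩,⟨false,0,⟨0,[(13,0),(26,0)]⟩,⟨0,[(9,
  0),(32,0)]⟩⟩,[.a ⟨true,(-1),⟨0,[(3,0),(3,0)]⟩,⟨0,[(24,0),(15,0),(1,0)]⟩⟩ ⟨false,1,⟨6,[(2,4),(12,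
  0),(3,0),(0,0),(13,3)]⟩,⟨0,[(35,0),(4,0)]⟩⟩ ⟨true,0,⟨0,[(3,0),(7,0)]⟩,⟨0,[(24,0),(10,1),(4,0)]⟩⟩,
  .o ⟨false,0,⟨5,[(0,2),(5,1),(0,1),(5,3),(21,1),(0,0)]⟩,⟨1,[(24,1),(11,0),(3,1),(1,0)]⟩⟩,.o ⟨false,
  0,⟨1,[(26,0),(0,0)]⟩,⟨1,[(36,0),(4,0)]⟩⟩,.e ⟨false,1,⟨0,[(2,0)]⟩,⟨1,[(26,0),(0,0),(7,1),(4,1)]⟩⟩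
  ⟨false,1,⟨0,[(2,0),(10,0)]⟩,⟨0,[(24,0),(10,1),(4,0)]⟩⟩]⟩) (.I [0,0,2,2,-1] (.S ⟨1,0,[0,1,-1,-1],
  [1,-1],[0,0,1],(⟨0,[(33,0)]⟩,⟨0,[(34,0)]⟩),⟨0,[(18,0),(0,0)]⟩,.k,(.r (-2) ⟨6,[(3,5),(12,3),(3,3),
  (0,3),(13,1)]⟩ ⟨0,[(0,0)]⟩),⟨false,0,⟨1,[(0,0),(26,0),(0,0),(14,0)]⟩,⟨0,[(3,0)]⟩⟩,⟨true,0,⟨0,[(45,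
  0)]⟩,⟨0,[]⟩⟩,⟨true,(-1),⟨0,[(0,0)]⟩,⟨0,[(3,0),(36,0)]⟩⟩,⟨false,0,⟨0,[(41,0)]⟩,⟨3,[(16,1),(3,0),(0,
  0),(21,0)]⟩⟩,[.o ⟨false,0,⟨0,[(40,0)]⟩,⟨1,[(0,0),(36,0),(4,0),(0,0)]⟩⟩,.a ⟨true,0,⟨1,[(13,0),(15,
  0),(0,0)]⟩,⟨0,[(41,0)]⟩⟩ ⟨true,0,⟨0,[(36,0)]⟩,⟨0,[(45,0)]⟩⟩ ⟨false,1,⟨0,[(3,0)]⟩,⟨1,[(0,0),(19,0),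
  (0,0)]⟩⟩,.o ⟨false,0,⟨1,[(27,0),(0,0)]⟩,⟨1,[(37,0),(4,0)]⟩⟩,.e ⟨false,1,⟨1,[(20,0),(0,0),(21,0)]⟩,
  ⟨0,[]⟩⟩ ⟨false,1,⟨0,[(3,0)]⟩,⟨1,[(0,0),(26,0),(0,0),(14,0)]⟩⟩]⟩) (.Q [1,-1,0,0,0,0,0,0,1,0,0,1]
  (.p true [0,0,0,0,1] [] (⟨0,[(23,0)]⟩,⟨0,[(22,0)]⟩) .k 0 (⟨0,[]⟩,⟨0,[]⟩) .k .k) (.Q [0,0,-1,-1,1,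
  0,0,0,-1,1,0,-1] (.p false [0,0,0,0,1] [1] (⟨0,[(24,0)]⟩,⟨0,[(23,0)]⟩) .k 1 (⟨0,[]⟩,⟨0,[]⟩) .k
  .k) (.Q [0,0,-1,-1,0,0,0,0,1,0,0,1] (.p true [0,0,0,0,1] [] (⟨0,[(25,0)]⟩,⟨0,[(24,0)]⟩) .k 0 (⟨0,
  []⟩,⟨0,[]⟩) .k .k) (.Q [-1,1,0,0,0,0,0,0,-1,1,0,-1] (.p false [0,0,0,0,1] [1] (⟨0,[(26,0)]⟩,⟨0,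
  [(25,0)]⟩) .k 1 (⟨0,[]⟩,⟨0,[]⟩) .k .k) (.Q [0,0,0,0,0,-1,0,0,0,0,0,1] (.ed false [1,-1,0,0,1] .k)
  (.S ⟨1,0,[1],[0,0,0,0,1],[1,1],(⟨0,[(28,0)]⟩,⟨0,[(27,0)]⟩),⟨0,[(0,0)]⟩,.k,(.r (-1) ⟨6,[(8,2),(12,
  1),(3,1),(0,1),(13,0)]⟩ ⟨9,[(6,4),(18,2),(0,2),(21,1),(1,3)]⟩),⟨true,0,⟨0,[(50,0)]⟩,⟨0,[]⟩⟩,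
  ⟨false,1,⟨1,[(25,0),(0,0),(21,0)]⟩,⟨0,[]⟩⟩,⟨false,0,⟨0,[(46,0)]⟩,⟨3,[(21,1),(3,0),(0,0),(21,0)]⟩⟩,
  ⟨true,0,⟨0,[(46,0)]⟩,⟨0,[(45,0)]⟩⟩,[.o ⟨false,0,⟨1,[(2,1),(3,0),(35,0)]⟩,⟨5,[(1,1),(23,3),(16,0),
  (5,0)]⟩⟩,.a ⟨true,0,⟨0,[(4,0)]⟩,⟨0,[(1,0)]⟩⟩ ⟨true,0,⟨0,[]⟩,⟨1,[(32,0),(0,0)]⟩⟩ ⟨false,1,⟨1,[(47,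
  0),(0,0)]⟩,⟨0,[(50,0)]⟩⟩,.o ⟨false,0,⟨1,[(2,1),(3,0),(35,0)]⟩,⟨0,[(25,0)]⟩⟩,.e ⟨false,1,⟨1,[(25,
  0),(0,0),(20,0)]⟩,⟨0,[(41,0)]⟩⟩ ⟨false,1,⟨1,[(47,0),(0,0)]⟩,⟨1,[(32,0),(0,0)]⟩⟩]⟩) (.S ⟨1,0,[-1,
  1],[1,0,0,0,-1],[0,0,0,-1],(⟨0,[(27,0)]⟩,⟨0,[(28,0)]⟩),⟨0,[(0,0),(22,0),(0,0)]⟩,.k,(.r (-1) ⟨3,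
  [(8,1),(12,0),(3,0),(0,0),(23,0)]⟩ ⟨1,[(6,0),(18,0),(0,0)]⟩),⟨false,1,⟨3,[(21,1),(3,0),(0,0),(21,
  0)]⟩,⟨0,[(46,0)]⟩⟩,⟨true,0,⟨0,[(50,0)]⟩,⟨0,[]⟩⟩,⟨true,0,⟨0,[]⟩,⟨0,[(50,0)]⟩⟩,⟨false,0,⟨0,[(46,
  0)]⟩,⟨3,[(21,1),(3,0),(0,0),(21,0)]⟩⟩,[.a ⟨true,0,⟨0,[(1,0)]⟩,⟨0,[(4,0)]⟩⟩ ⟨false,1,⟨6,[(8,2),(12,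
  1),(3,1),(0,1),(13,0)]⟩,⟨0,[(46,0)]⟩⟩ ⟨true,0,⟨0,[(50,0)]⟩,⟨0,[(41,0)]⟩⟩,.o ⟨false,1,⟨5,[(1,1),
  (23,3),(16,0),(5,0)]⟩,⟨1,[(2,1),(3,0),(35,0)]⟩⟩,.o ⟨false,1,⟨0,[(25,0)]⟩,⟨1,[(2,1),(3,0),(35,
  0)]⟩⟩,.e ⟨false,1,⟨1,[(5,0),(42,0)]⟩,⟨1,[(6,0),(18,0),(0,0)]⟩⟩ ⟨false,1,⟨9,[(25,3),(0,3),(20,4),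
  (0,0),(1,1)]⟩,⟨0,[(41,0)]⟩⟩]⟩)) (.R ⟨1,false,false,true,[0,0,1],[1,0,0,0,-1],[1,0,0,-1,0,0,0,1],
  (⟨0,[(34,0)]⟩,⟨0,[(33,0)]⟩),(⟨0,[(26,0)]⟩,⟨0,[(27,0)]⟩),⟨0,[(23,0)]⟩,.k,.k,.k,.k,(.r (-1) ⟨1,[(4,
  0),(14,1),(27,0)]⟩ ⟨1,[(5,0),(9,1),(31,0)]⟩),.k,⟨true,1,⟨1,[(10,0),(5,0),(2,0),(27,1)]⟩,⟨1,[(5,0),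
  (0,0),(4,1),(23,1)]⟩⟩,⟨false,1,⟨0,[(24,0),(3,0)]⟩,⟨0,[(0,0),(12,0),(15,0)]⟩⟩,⟨false,1,⟨3,[(20,1),
  (3,0),(0,0),(21,0)]⟩,⟨0,[(45,0)]⟩⟩,⟨true,0,⟨5,[(6,0),(4,5),(0,0),(11,5),(3,4),(6,1)]⟩,⟨0,[(0,0),
  (28,0)]⟩⟩,⟨true,0,⟨0,[]⟩,⟨0,[(49,0)]⟩⟩,⟨true,0,⟨0,[(11,0),(12,0),(3,0),(16,0)]⟩,⟨0,[(0,0),(13,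
  0)]⟩⟩,[.o ⟨false,1,⟨0,[(24,0),(24,0)]⟩,⟨0,[(0,0)]⟩⟩,.o ⟨false,1,⟨2,[(2,1),(2,0),(18,0),(16,0)]⟩,
  ⟨5,[(0,3),(10,0),(7,0),(5,1),(13,0),(1,0)]⟩⟩,.o ⟨false,1,⟨1,[(31,1),(9,0),(4,0)]⟩,⟨0,[(16,0)]⟩⟩,
  .a ⟨true,0,⟨0,[(31,0)]⟩,⟨0,[(28,0)]⟩⟩ ⟨true,1,⟨1,[(4,0),(14,1),(27,0)]⟩,⟨1,[(5,0),(5,1),(34,0)]⟩⟩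
  ⟨false,1,⟨5,[(6,0),(5,0),(11,5),(3,4),(6,1)]⟩,⟨0,[(0,0),(30,0)]⟩⟩]⟩)) (.Q [0,0,0,0,0,-1,0,0,0,0,0,
  1] (.ed false [1,-1,0,0,1] .k) (.R ⟨1,false,false,false,[0,0,0,0,1],[0,1],[1,1],(⟨0,[(27,0)]⟩,⟨0,
  [(26,0)]⟩),(⟨0,[(38,0)]⟩,⟨0,[(37,0)]⟩),⟨0,[(0,0)]⟩,.k,.k,(.r (-1) ⟨6,[(7,2),(12,1),(3,1),(0,1),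
  (13,0)]⟩ ⟨9,[(5,4),(18,2),(0,2),(21,1),(1,3)]⟩),(.r (-1) ⟨6,[(7,2),(12,1),(3,1),(0,1),(13,0)]⟩ ⟨9,
  [(5,4),(18,2),(0,2),(21,1),(1,3)]⟩),(.r (-1) ⟨0,[(4,0)]⟩ ⟨4,[(5,4),(18,3),(0,3),(21,0),(1,1)]⟩),
  .k,⟨false,1,⟨6,[(7,4),(12,0),(3,0),(0,0),(13,3)]⟩,⟨1,[(5,0),(41,0)]⟩⟩,⟨true,1,⟨0,[(1,0),(5,0)]⟩,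
  ⟨15,[(3,9),(1,6),(4,6),(0,6),(0,3),(12,5),(6,2),(7,3),(0,1)]⟩⟩,⟨true,0,⟨0,[(49,0)]⟩,⟨0,[]⟩⟩,
  ⟨false,1,⟨1,[(1,1),(44,0),(0,0)]⟩,⟨0,[(3,0),(40,0)]⟩⟩,⟨false,0,⟨0,[(45,0)]⟩,⟨3,[(20,1),(3,0),(0,
  0),(21,0)]⟩⟩,⟨false,1,⟨1,[(1,1),(43,1),(0,0),(0,0)]⟩,⟨6,[(3,6),(0,1),(5,1),(0,1),(0,1),(7,0),(20,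
  0),(2,3)]⟩⟩,[.a ⟨true,0,⟨0,[(45,0)]⟩,⟨1,[(17,0),(15,0),(0,0)]⟩⟩ ⟨true,0,⟨0,[(49,0)]⟩,⟨0,[(40,
  0)]⟩⟩ ⟨false,1,⟨0,[(1,0),(44,0)]⟩,⟨0,[(3,0),(40,0)]⟩⟩,.o ⟨false,1,⟨1,[(41,0),(3,1),(1,0)]⟩,⟨0,
  [(44,0)]⟩⟩,.e ⟨false,0,⟨0,[]⟩,⟨1,[(24,0),(0,0),(21,0)]⟩⟩ ⟨false,1,⟨1,[(1,1),(44,0),(0,0)]⟩,⟨0,[(3,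
  0),(40,0)]⟩⟩,.o ⟨false,0,⟨3,[(3,1),(1,0),(4,0),(0,0),(13,1),(6,0),(8,1)]⟩,⟨0,[(1,0),(5,0)]⟩⟩]⟩)
  (.R ⟨0,false,false,false,[0,0,0,0,1],[0,1],[1,1],(⟨0,[(27,0)]⟩,⟨0,[(26,0)]⟩),(⟨0,[(38,0)]⟩,⟨0,
  [(37,0)]⟩),⟨0,[(0,0)]⟩,.k,.k,(.r (-1) ⟨6,[(7,2),(12,1),(3,1),(0,1),(13,0)]⟩ ⟨9,[(5,4),(18,2),(0,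
  2),(21,1),(1,3)]⟩),(.r (-1) ⟨6,[(7,2),(12,1),(3,1),(0,1),(13,0)]⟩ ⟨9,[(5,4),(18,2),(0,2),(21,1),
  (1,3)]⟩),.k,.k,⟨false,1,⟨6,[(7,4),(12,0),(3,0),(0,0),(13,3)]⟩,⟨1,[(5,0),(41,0)]⟩⟩,⟨true,1,⟨0,[(1,
  0),(5,0)]⟩,⟨15,[(3,9),(1,6),(4,6),(0,6),(0,3),(12,5),(6,2),(7,3),(0,1)]⟩⟩,⟨true,0,⟨0,[(49,0)]⟩,⟨0,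
  []⟩⟩,⟨false,1,⟨1,[(1,1),(44,0),(0,0)]⟩,⟨0,[(3,0),(40,0)]⟩⟩,⟨false,0,⟨0,[]⟩,⟨0,[]⟩⟩,⟨false,0,⟨0,
  []⟩,⟨0,[]⟩⟩,[.a ⟨true,0,⟨0,[(45,0)]⟩,⟨1,[(17,0),(15,0),(0,0)]⟩⟩ ⟨true,0,⟨0,[(49,0)]⟩,⟨0,[(40,
  0)]⟩⟩ ⟨false,1,⟨0,[(1,0),(44,0)]⟩,⟨0,[(3,0),(40,0)]⟩⟩,.o ⟨false,1,⟨1,[(41,0),(3,1),(1,0)]⟩,⟨0,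
  [(44,0)]⟩⟩,.e ⟨false,0,⟨0,[]⟩,⟨1,[(24,0),(0,0),(21,0)]⟩⟩ ⟨false,1,⟨1,[(1,1),(44,0),(0,0)]⟩,⟨0,[(3,
  0),(40,0)]⟩⟩,.o ⟨false,0,⟨3,[(3,1),(1,0),(4,0),(0,0),(13,1),(6,0),(8,1)]⟩,⟨0,[(1,0),(5,0)]⟩⟩]⟩)))
  (.Q [1,0,0,0,-1,0,0,0,1,0,0,1] (.p true [0,0,0,0,1] [] (⟨0,[(25,0)]⟩,⟨0,[(24,0)]⟩) .k 0 (⟨0,[]⟩,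
  ⟨0,[]⟩) .k .k) (.R ⟨2,true,false,false,[0,1],[0,0,0,0,1],[1,1,1],(⟨0,[]⟩,⟨0,[]⟩),(⟨0,[(26,0)]⟩,⟨0,
  [(25,0)]⟩),⟨0,[]⟩,.k,.k,.k,(.r 0 ⟨9,[(4,4),(18,2),(0,2),(21,1),(1,3)]⟩ ⟨6,[(6,2),(12,1),(3,1),(0,
  1),(13,0)]⟩),.k,.k,⟨false,0,⟨0,[(48,0)]⟩,⟨1,[(45,0),(0,0)]⟩⟩,⟨true,(-1),⟨6,[(0,1),(0,3),(6,0),(7,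
  1),(9,0),(9,1),(10,0)]⟩,⟨0,[(23,0)]⟩⟩,⟨true,0,⟨0,[(43,0)]⟩,⟨0,[(44,0)]⟩⟩,⟨false,0,⟨1,[(0,0),(1,0),
  (16,0)]⟩,⟨0,[(23,0),(20,0)]⟩⟩,⟨false,0,⟨0,[]⟩,⟨1,[(23,0),(0,0),(21,0)]⟩⟩,⟨true,(-1),⟨0,[(0,0)]⟩,
  ⟨0,[(23,0),(24,0)]⟩⟩,[]⟩) (.R ⟨1,false,false,false,[0,0,1],[0,0,0,0,1],[0,0,0,0,0,0,0,1],(⟨0,[(33,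
  0)]⟩,⟨0,[(32,0)]⟩),(⟨0,[(26,0)]⟩,⟨0,[(25,0)]⟩),⟨0,[(22,0)]⟩,.k,.k,.k,.k,(.r (-1) ⟨1,[(3,0),(14,1),
  (27,0)]⟩ ⟨1,[(4,0),(9,1),(31,0)]⟩),.k,⟨false,1,⟨1,[(18,1),(26,0),(0,0)]⟩,⟨0,[(12,0)]⟩⟩,⟨true,(-1),
  ⟨1,[(1,1),(1,0),(7,0),(15,0)]⟩,⟨0,[(23,0),(6,0)]⟩⟩,⟨false,1,⟨1,[(23,0),(0,0),(21,0)]⟩,⟨0,[]⟩⟩,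
  ⟨true,(-1),⟨1,[(1,1),(1,0),(7,0),(0,1),(14,0)]⟩,⟨0,[(0,0),(27,0)]⟩⟩,⟨true,0,⟨0,[(44,0)]⟩,⟨0,[(43,
  0)]⟩⟩,⟨true,(-1),⟨0,[(1,0),(10,0),(14,0)]⟩,⟨0,[(0,0),(12,0)]⟩⟩,[.o ⟨false,0,⟨3,[(1,1),(1,0),(20,
  1),(15,0)]⟩,⟨0,[(0,0)]⟩⟩,.o ⟨false,0,⟨1,[(1,1),(1,0),(42,0)]⟩,⟨0,[(23,0),(24,0)]⟩⟩,.o ⟨false,1,⟨1,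
  [(30,1),(9,0),(4,0)]⟩,⟨0,[(15,0)]⟩⟩,.a ⟨true,0,⟨0,[(30,0)]⟩,⟨0,[(27,0)]⟩⟩ ⟨true,1,⟨1,[(18,1),(26,
  0),(0,0)]⟩,⟨0,[(10,0)]⟩⟩ ⟨false,0,⟨1,[(1,1),(1,0),(23,1),(18,0)]⟩,⟨0,[(0,0),(29,0)]⟩⟩]⟩))) (.Q [0,
  0,0,0,0,-1,0,0,0,1,0,-1] (.ed true [0,1,0,0,1] .k) (.Q [0,0,0,0,0,0,0,0,-1,1,0,-1] (.p false [0,0,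
  0,0,1] [1] (⟨0,[(25,0)]⟩,⟨0,[(24,0)]⟩) .k 1 (⟨0,[]⟩,⟨0,[]⟩) .k .k) (.S ⟨1,0,[-1,1],[1,0,0,0,-1],
  [0,0,0,-1],(⟨0,[(25,0)]⟩,⟨0,[(26,0)]⟩),⟨0,[(1,0)]⟩,.k,(.r (-1) ⟨3,[(6,1),(12,0),(3,0),(0,0),(23,
  0)]⟩ ⟨1,[(4,0),(18,0),(0,0)]⟩),⟨false,1,⟨3,[(19,1),(3,0),(0,0),(21,0)]⟩,⟨0,[(44,0)]⟩⟩,⟨true,0,⟨0,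
  [(48,0)]⟩,⟨0,[]⟩⟩,⟨true,0,⟨0,[]⟩,⟨0,[(48,0)]⟩⟩,⟨false,0,⟨0,[(44,0)]⟩,⟨3,[(19,1),(3,0),(0,0),(21,
  0)]⟩⟩,[.o ⟨false,0,⟨0,[(2,0)]⟩,⟨1,[(24,1),(15,0),(5,0)]⟩⟩,.e ⟨false,1,⟨1,[(3,0),(42,0)]⟩,⟨3,[(4,
  0),(18,0),(0,0),(13,1),(5,1)]⟩⟩ ⟨false,1,⟨9,[(23,3),(0,3),(20,4),(0,0),(1,1)]⟩,⟨0,[]⟩⟩,.a ⟨true,0,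
  ⟨0,[(0,0)]⟩,⟨0,[(24,0)]⟩⟩ ⟨false,1,⟨3,[(19,1),(3,0),(0,0),(21,0)]⟩,⟨0,[(44,0)]⟩⟩ ⟨true,0,⟨0,[(48,
  0)]⟩,⟨0,[]⟩⟩,.o ⟨false,0,⟨0,[(2,0),(36,0)]⟩,⟨1,[(24,1),(15,0),(4,0)]⟩⟩]⟩) (.R ⟨1,false,false,true,
  [1,0,0,0,-1],[1,-1],[0,0,0,-1],(⟨0,[(25,0)]⟩,⟨0,[(26,0)]⟩),(⟨0,[(36,0)]⟩,⟨0,[(37,0)]⟩),⟨0,[(1,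
  0)]⟩,.k,.k,(.r (-1) ⟨3,[(6,1),(12,0),(3,0),(0,0),(23,0)]⟩ ⟨1,[(4,0),(18,0),(0,0)]⟩),(.r 0 ⟨9,[(4,
  4),(18,2),(0,2),(21,1),(1,3)]⟩ ⟨6,[(6,2),(12,1),(3,1),(0,1),(13,0)]⟩),.k,.k,⟨true,0,⟨0,[(39,0)]⟩,
  ⟨0,[(48,0)]⟩⟩,⟨false,0,⟨0,[(24,0)]⟩,⟨1,[(2,1),(42,0),(0,0)]⟩⟩,⟨false,1,⟨3,[(19,1),(3,0),(0,0),(21,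
  0)]⟩,⟨0,[(44,0)]⟩⟩,⟨false,0,⟨1,[(0,0),(15,0),(7,0)]⟩,⟨0,[(2,0),(41,0),(1,0)]⟩⟩,⟨true,0,⟨0,[]⟩,⟨0,
  [(48,0)]⟩⟩,⟨false,0,⟨0,[(24,0)]⟩,⟨0,[(2,0),(43,0)]⟩⟩,[.o ⟨false,0,⟨0,[(43,0)]⟩,⟨1,[(40,0),(3,1),
  (1,0)]⟩⟩,.a ⟨true,0,⟨1,[(16,0),(15,0),(0,0)]⟩,⟨0,[(44,0)]⟩⟩ ⟨false,1,⟨1,[(3,0),(42,0)]⟩,⟨3,[(4,0),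
  (18,0),(0,0),(13,1),(5,1)]⟩⟩ ⟨true,0,⟨1,[(0,0),(15,0),(7,0)]⟩,⟨1,[(2,1),(1,0),(41,0)]⟩⟩,.o ⟨false,
  1,⟨0,[(23,0)]⟩,⟨0,[(0,0)]⟩⟩,.o ⟨false,0,⟨0,[(2,0),(36,0)]⟩,⟨1,[(24,1),(15,0),(4,0)]⟩⟩]⟩)) (.R ⟨0,
  false,false,true,[1,0,0,0,-1],[0,1],[],(⟨0,[(24,0)]⟩,⟨0,[(25,0)]⟩),(⟨0,[(36,0)]⟩,⟨0,[(35,0)]⟩),⟨0,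
  [(0,0)]⟩,.k,.k,(.r (-1) ⟨3,[(5,1),(12,0),(3,0),(0,0),(23,0)]⟩ ⟨1,[(3,0),(18,0),(0,0)]⟩),(.r (-1)
  ⟨3,[(5,1),(12,0),(3,0),(0,0),(23,0)]⟩ ⟨1,[(3,0),(18,0),(0,0)]⟩),.k,.k,⟨true,1,⟨1,[(2,0),(42,0)]⟩,
  ⟨0,[(3,0),(38,0)]⟩⟩,⟨false,1,⟨1,[(0,1),(3,2),(2,1),(36,0)]⟩,⟨1,[(1,1),(1,0),(11,0),(15,0),(0,0),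
  (12,0)]⟩⟩,⟨true,0,⟨0,[]⟩,⟨0,[(47,0)]⟩⟩,⟨false,0,⟨1,[(0,1),(2,0),(0,2),(2,1)]⟩,⟨1,[(1,1),(13,0),
  (15,0),(0,0),(12,1)]⟩⟩,⟨false,0,⟨0,[]⟩,⟨0,[]⟩⟩,⟨false,0,⟨0,[]⟩,⟨0,[]⟩⟩,[.o ⟨false,0,⟨1,[(0,1),(0,
  1),(1,0),(0,2),(2,1)]⟩,⟨3,[(18,1),(3,0),(0,0),(21,0)]⟩⟩,.a ⟨true,0,⟨0,[(43,0)]⟩,⟨1,[(15,0),(15,0),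
  (0,0)]⟩⟩ ⟨false,1,⟨1,[(44,0),(0,0)]⟩,⟨0,[(47,0)]⟩⟩ ⟨true,0,⟨1,[(0,1),(2,0),(0,2),(2,1)]⟩,⟨1,[(1,
  1),(1,0),(11,1),(29,0)]⟩⟩,.e ⟨false,1,⟨1,[(22,0),(0,0),(21,0)]⟩,⟨0,[]⟩⟩ ⟨false,0,⟨1,[(0,1),(2,0),
  (0,2),(2,1)]⟩,⟨1,[(1,1),(13,0),(15,0),(0,0),(12,1)]⟩⟩,.o ⟨false,0,⟨0,[(1,0),(36,0)]⟩,⟨1,[(23,1),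
  (15,0),(4,0)]⟩⟩]⟩)))))) (.I [0,-1,-1,-1,1] (.S ⟨1,0,[0,1,-1,-1],[1,-1],[0,0,-1,-1],(⟨0,[(31,0)]⟩,
  ⟨0,[(32,0)]⟩),⟨0,[(16,0),(0,0)]⟩,.k,(.r (-2) ⟨3,[(14,3),(3,0),(0,0),(13,1),(6,2)]⟩ ⟨0,[(1,0),(37,
  0)]⟩),⟨false,1,⟨1,[(18,0),(0,0),(21,0)]⟩,⟨0,[]⟩⟩,⟨true,0,⟨0,[(43,0)]⟩,⟨0,[]⟩⟩,⟨true,0,⟨0,[(39,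
  0)]⟩,⟨0,[(38,0)]⟩⟩,⟨false,0,⟨0,[(39,0)]⟩,⟨3,[(14,1),(3,0),(0,0),(21,0)]⟩⟩,[.o ⟨false,0,⟨0,[(38,
  0)]⟩,⟨1,[(35,0),(3,1),(1,0)]⟩⟩,.e ⟨true,1,⟨0,[(0,0)]⟩,⟨0,[(1,0),(41,0)]⟩⟩ ⟨true,1,⟨7,[(14,3),(3,
  0),(0,0),(13,1),(6,2)]⟩,⟨0,[(1,0)]⟩⟩,.o ⟨false,0,⟨1,[(25,0),(0,0)]⟩,⟨1,[(35,0),(4,0)]⟩⟩,.a ⟨true,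
  (-1),⟨0,[(6,0),(18,0)]⟩,⟨0,[(40,0)]⟩⟩ ⟨false,2,⟨3,[(14,1),(3,0),(0,0),(20,3),(0,0)]⟩,⟨0,[(1,0)]⟩⟩
  ⟨true,1,⟨27,[(2,3),(1,3),(9,7),(0,1),(17,13),(1,0),(4,18)]⟩,⟨0,[(1,0)]⟩⟩]⟩) (.Q [0,-1,0,2,1,0,1,1,
  0,-1,1] (.p true [0,0,1] [1] (⟨0,[(28,0)]⟩,⟨0,[(27,0)]⟩) .k 1 (⟨0,[]⟩,⟨0,[]⟩) .k .k) (.I [0,0,2,0,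
  -1,2,-1] (.R ⟨1,false,false,false,[1,0,-1],[0,1],[],(⟨0,[(29,0)]⟩,⟨0,[(30,0)]⟩),(⟨0,[(34,0)]⟩,⟨0,
  [(33,0)]⟩),⟨0,[(18,0)]⟩,.k,.k,.k,.k,(.x 1 ⟨0,[(0,0)]⟩ ⟨7,[(1,6),(2,7),(1,0),(9,1),(1,10),(0,2),
  (13,1),(3,2),(4,3)]⟩),.k,⟨true,1,⟨7,[(16,3),(3,0),(0,0),(13,1),(6,2)]⟩,⟨0,[(3,0)]⟩⟩,⟨false,2,⟨9,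
  [(1,7),(2,5),(5,1),(0,3),(4,3),(20,0),(4,6)]⟩,⟨0,[(8,0)]⟩⟩,⟨false,1,⟨0,[(15,0),(27,0)]⟩,⟨0,[(9,
  0)]⟩⟩,⟨true,1,⟨3,[(1,1),(18,0),(0,0),(3,1),(11,0)]⟩,⟨0,[(4,0),(3,0)]⟩⟩,⟨false,1,⟨1,[(1,0),(15,0),
  (7,0),(17,0)]⟩,⟨0,[(4,0),(31,0)]⟩⟩,⟨false,1,⟨0,[(1,0)]⟩,⟨0,[(13,0),(0,0)]⟩⟩,[.e ⟨false,1,⟨1,[(20,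
  0),(0,0),(20,0)]⟩,⟨0,[]⟩⟩ ⟨false,1,⟨0,[(1,0),(2,0)]⟩,⟨1,[(13,0),(3,0)]⟩⟩,.o ⟨false,1,⟨3,[(1,1),
  (12,1),(22,0),(5,0)]⟩,⟨0,[(40,0)]⟩⟩,.o ⟨false,0,⟨0,[(12,0)]⟩,⟨7,[(1,3),(2,2),(5,0),(0,1),(4,1),
  (10,2),(9,1)]⟩⟩,.a ⟨true,(-1),⟨0,[(8,0)]⟩,⟨0,[(27,0),(14,0)]⟩⟩ ⟨false,1,⟨1,[(42,0),(0,0)]⟩,⟨1,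
  [(27,0),(0,0)]⟩⟩ ⟨true,1,⟨0,[(1,0),(2,0)]⟩,⟨0,[(8,0),(31,0)]⟩⟩]⟩) (.I [0,0,-2,-2,1,0,0,-1] (.R ⟨1,
  false,false,false,[1,0,-1],[0,1],[],(⟨0,[(30,0)]⟩,⟨0,[(31,0)]⟩),(⟨0,[(35,0)]⟩,⟨0,[(34,0)]⟩),⟨0,
  [(19,0)]⟩,.k,.k,.k,.k,(.r (-1) ⟨0,[(0,0)]⟩ ⟨5,[(2,3),(1,3),(13,3),(7,1),(1,2),(0,0),(16,1)]⟩),.k,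
  ⟨true,1,⟨7,[(17,3),(3,0),(0,0),(13,1),(6,2)]⟩,⟨0,[(4,0)]⟩⟩,⟨false,2,⟨3,[(0,2),(1,3),(9,0),(4,0),
  (18,1)]⟩,⟨0,[(9,0)]⟩⟩,⟨false,1,⟨0,[(16,0),(27,0)]⟩,⟨0,[(10,0)]⟩⟩,⟨true,1,⟨3,[(2,1),(18,0),(0,0),
  (3,1),(11,0)]⟩,⟨0,[(5,0),(3,0)]⟩⟩,⟨false,1,⟨1,[(2,0),(15,0),(7,0),(17,0)]⟩,⟨1,[(0,0),(7,0),(28,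
  0)]⟩⟩,⟨false,1,⟨0,[(2,0)]⟩,⟨0,[(14,0),(0,0)]⟩⟩,[.e ⟨false,1,⟨1,[(21,0),(0,0),(20,0)]⟩,⟨0,[]⟩⟩
  ⟨false,1,⟨0,[(2,0),(2,0)]⟩,⟨1,[(14,0),(3,0)]⟩⟩,.o ⟨false,1,⟨3,[(2,1),(12,1),(22,0),(5,0)]⟩,⟨0,
  [(41,0)]⟩⟩,.o ⟨false,0,⟨0,[(13,0)]⟩,⟨11,[(0,2),(1,3),(9,2),(4,0),(8,1),(1,5),(9,3)]⟩⟩,.a ⟨true,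
  (-1),⟨0,[(9,0)]⟩,⟨0,[(28,0),(14,0)]⟩⟩ ⟨false,1,⟨1,[(43,0),(0,0)]⟩,⟨1,[(28,0),(0,0)]⟩⟩ ⟨true,1,⟨0,
  [(2,0),(2,0)]⟩,⟨0,[(9,0),(31,0)]⟩⟩]⟩) (.I [0,0,2,2,-1,0,0,1] (.R ⟨1,false,false,false,[1,0,-1],[0,
  1],[],(⟨0,[(31,0)]⟩,⟨0,[(32,0)]⟩),(⟨0,[(36,0)]⟩,⟨0,[(35,0)]⟩),⟨0,[(20,0)]⟩,.k,.k,.k,.k,(.r (-2)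
  ⟨0,[(13,0),(4,0),(25,0)]⟩ ⟨0,[(0,0)]⟩),.k,⟨true,1,⟨7,[(18,3),(3,0),(0,0),(13,1),(6,2)]⟩,⟨0,[(5,
  0)]⟩⟩,⟨false,2,⟨9,[(3,7),(2,5),(5,1),(0,3),(4,3),(20,0),(4,6)]⟩,⟨0,[(10,0)]⟩⟩,⟨false,1,⟨0,[(17,0),
  (27,0)]⟩,⟨0,[(11,0)]⟩⟩,⟨true,1,⟨3,[(3,1),(18,0),(0,0),(3,1),(11,0)]⟩,⟨0,[(6,0),(3,0)]⟩⟩,⟨false,1,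
  ⟨1,[(3,0),(15,0),(7,0),(17,0)]⟩,⟨0,[(6,0),(31,0)]⟩⟩,⟨false,1,⟨0,[(3,0)]⟩,⟨0,[(15,0),(0,0)]⟩⟩,[.e
  ⟨false,1,⟨1,[(22,0),(0,0),(20,0)]⟩,⟨0,[]⟩⟩ ⟨false,1,⟨0,[(3,0),(2,0)]⟩,⟨1,[(15,0),(3,0)]⟩⟩,.o
  ⟨false,1,⟨3,[(3,1),(12,1),(22,0),(5,0)]⟩,⟨0,[(42,0)]⟩⟩,.o ⟨false,0,⟨0,[(14,0)]⟩,⟨7,[(3,3),(2,2),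
  (5,0),(0,1),(4,1),(10,2),(9,1)]⟩⟩,.a ⟨true,(-1),⟨0,[(10,0)]⟩,⟨0,[(29,0),(14,0)]⟩⟩ ⟨false,1,⟨1,
  [(44,0),(0,0)]⟩,⟨1,[(29,0),(0,0)]⟩⟩ ⟨true,1,⟨0,[(3,0),(2,0)]⟩,⟨0,[(10,0),(31,0)]⟩⟩]⟩) (.I [0,0,-2,
  0,1,-2,1] (.N [0,2,1] 1 ⟨0,[(2,0)]⟩ ⟨0,[(1,0)]⟩ (.x (-1) ⟨0,[(0,0)]⟩ ⟨1,[(8,0),(14,0),(2,0),(4,1),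
  (1,1),(0,1)]⟩)) (.Q [0,0,1,0,0,0,0,0,-1,0,0,-1] (.p false [0,0,0,0,1] [] (⟨0,[(26,0)]⟩,⟨0,[(25,
  0)]⟩) .k 0 (⟨0,[]⟩,⟨0,[]⟩) .k .k) (.Q [0,0,2,0,-1,0,0,0,-1,1,0,-1] (.p false [0,0,0,0,1] [1] (⟨0,
  [(27,0)]⟩,⟨0,[(26,0)]⟩) .k 1 (⟨0,[]⟩,⟨0,[]⟩) .k .k) (.Q [0,-1,0,1,1,0,1,1,1,-1,1,1] (.p true [0,0,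
  1] [1,0,0,0,-1] (⟨0,[(35,0)]⟩,⟨0,[(34,0)]⟩) .k 2 (⟨0,[(27,0)]⟩,⟨0,[(28,0)]⟩) .k (.r (-1) ⟨2,[(6,
  0),(13,0),(0,0),(0,0),(2,0),(0,0),(3,0)]⟩ ⟨0,[(5,1),(1,0),(1,0),(3,1),(10,1),(11,5),(4,1),(0,
  0)]⟩)) (.R ⟨1,false,false,false,[1,0,0,0,-1],[0,1,1],[1,1,1],(⟨0,[(28,0)]⟩,⟨0,[(29,0)]⟩),(⟨0,[(36,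
  0),(0,0)]⟩,⟨0,[(24,0)]⟩),⟨9,[(1,0),(4,3),(4,0),(2,3),(10,3),(2,8),(14,1)]⟩,.k,.k,(.r (-1) ⟨13,
  [(22,6),(3,0),(0,0),(13,1),(6,5),(2,2)]⟩ ⟨31,[(0,4),(2,0),(1,11),(3,2),(7,16),(5,1),(2,4),(8,0),
  (3,1),(9,5)]⟩),(.r (-1) ⟨7,[(4,2),(12,4),(4,0),(3,0),(0,0),(20,0),(0,1)]⟩ ⟨5,[(0,1),(0,0),(3,1),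
  (15,1),(1,0),(2,0)]⟩),(.r (-2) ⟨1,[(4,0),(12,0),(4,0),(3,0),(0,0),(20,0)]⟩ ⟨0,[(5,0)]⟩),.k,⟨false,
  0,⟨0,[(10,0)]⟩,⟨1,[(7,0),(15,0),(7,0),(17,0)]⟩⟩,⟨true,1,⟨0,[(0,0),(9,0)]⟩,⟨0,[(2,0),(11,0)]⟩⟩,
  ⟨false,0,⟨1,[(33,0),(0,0)]⟩,⟨0,[(6,1),(7,1),(10,1),(11,5),(4,0),(0,0)]⟩⟩,⟨false,1,⟨0,[(0,0)]⟩,⟨3,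
  [(1,3),(2,1),(15,1),(9,1),(12,0),(4,0)]⟩⟩,⟨true,(-1),⟨0,[(8,0)]⟩,⟨13,[(22,6),(3,0),(0,0),(13,1),
  (6,5),(2,2)]⟩⟩,⟨false,1,⟨0,[(7,0),(19,0)]⟩,⟨2,[(1,1),(0,0),(1,2),(9,1),(15,0),(12,0)]⟩⟩,[.o
  ⟨false,1,⟨28,[(0,6),(4,0),(1,9),(9,0),(8,6),(4,11),(9,1),(1,5)]⟩,⟨5,[(4,2),(8,0),(0,3),(5,1),(21,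
  0),(0,1)]⟩⟩,.a ⟨true,1,⟨1,[(7,0),(23,0),(3,0),(0,0),(12,0)]⟩,⟨0,[(10,0),(3,0)]⟩⟩ ⟨false,0,⟨0,[]⟩,
  ⟨1,[(26,0),(0,0),(20,0)]⟩⟩ ⟨true,1,⟨0,[(0,0)]⟩,⟨0,[(2,0),(7,0),(3,0)]⟩⟩,.e ⟨false,0,⟨1,[(33,0),(0,
  0)]⟩,⟨1,[(48,0),(0,0)]⟩⟩ ⟨false,1,⟨0,[(0,0)]⟩,⟨1,[(1,0),(0,0),(1,0),(15,0),(9,0)]⟩⟩,.o ⟨false,0,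
  ⟨0,[(2,0)]⟩,⟨1,[(27,1),(15,0),(4,0)]⟩⟩]⟩) (.S ⟨1,0,[-1,1],[1,0,0,0,-1],[1,1,1],(⟨0,[(28,0)]⟩,⟨0,
  [(29,0)]⟩),⟨9,[(1,0),(4,3),(4,0),(2,3),(10,3),(2,8),(14,1)]⟩,.k,(.r (-1) ⟨13,[(22,6),(3,0),(0,0),
  (13,1),(6,5),(2,2)]⟩ ⟨2,[(7,0),(1,0),(7,0),(5,0),(9,0)]⟩),⟨false,0,⟨1,[(33,0),(0,0)]⟩,⟨0,[(6,1),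
  (7,1),(10,1),(11,5),(4,0),(0,0)]⟩⟩,⟨true,0,⟨0,[(51,0)]⟩,⟨0,[]⟩⟩,⟨true,(-1),⟨0,[(8,0)]⟩,⟨13,[(22,
  6),(3,0),(0,0),(13,1),(6,5),(2,2)]⟩⟩,⟨false,0,⟨0,[(47,0)]⟩,⟨3,[(22,1),(3,0),(0,0),(21,0)]⟩⟩,[.o
  ⟨false,0,⟨71,[(0,35),(1,35),(3,1),(0,17),(13,1),(3,1),(5,15),(5,5),(3,17),(1,8),(4,6)]⟩,⟨1,[(27,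
  1),(15,0),(5,0)]⟩⟩,.e ⟨false,0,⟨0,[]⟩,⟨1,[(26,0),(0,0),(20,0)]⟩⟩ ⟨false,1,⟨9,[(26,3),(0,3),(20,4),
  (0,0),(1,1)]⟩,⟨0,[]⟩⟩,.a ⟨true,0,⟨0,[(1,0),(46,0)]⟩,⟨0,[(27,0)]⟩⟩ ⟨false,0,⟨1,[(33,0),(0,0)]⟩,⟨1,
  [(48,0),(0,0)]⟩⟩ ⟨true,0,⟨0,[(51,0)]⟩,⟨0,[]⟩⟩,.o ⟨false,0,⟨0,[(2,0)]⟩,⟨1,[(27,1),(15,0),(4,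
  0)]⟩⟩]⟩)) (.R ⟨2,true,false,false,[0,1],[1,0,0,0,-1],[],(⟨0,[]⟩,⟨0,[]⟩),(⟨0,[(27,0)]⟩,⟨0,[(28,
  0)]⟩),⟨0,[]⟩,.k,.k,.k,(.r 0 ⟨2,[(6,0),(1,0),(7,0),(5,0),(9,0)]⟩ ⟨13,[(21,6),(3,0),(0,0),(13,1),(6,
  5),(2,2)]⟩),.k,.k,⟨true,0,⟨0,[]⟩,⟨1,[(32,0),(0,0)]⟩⟩,⟨false,0,⟨0,[(1,0),(3,0),(7,0),(21,0),(0,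
  1)]⟩,⟨3,[(0,1),(24,0),(0,2),(15,0)]⟩⟩,⟨true,1,⟨1,[(0,0),(17,0),(6,0)]⟩,⟨0,[(7,0)]⟩⟩,⟨false,1,⟨1,
  [(1,1),(16,0),(15,0),(0,0),(11,0),(0,0)]⟩,⟨0,[(0,0),(7,0)]⟩⟩,⟨false,1,⟨1,[(47,0),(0,0)]⟩,⟨1,[(32,
  0),(0,0)]⟩⟩,⟨true,0,⟨0,[(1,0),(3,0),(7,0),(21,0),(0,1)]⟩,⟨7,[(0,2),(6,3),(3,0),(0,0),(0,0),(12,4),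
  (15,2),(2,1)]⟩⟩,[]⟩)) (.Q [0,0,-1,0,0,0,0,0,1,-1,0,1] (.p true [0,0,0,0,1] [1] (⟨0,[(27,0)]⟩,⟨0,
  [(26,0)]⟩) .k 1 (⟨0,[]⟩,⟨0,[]⟩) .k .k) (.Q [0,0,0,0,0,-1,0,0,0,1,0,-1] (.ed true [0,1,0,0,1] .k)
  (.S ⟨1,2,[],[1,0,0,0,-1],[0,1,0,-1],(⟨0,[(28,0)]⟩,⟨0,[(29,0)]⟩),⟨0,[(0,0)]⟩,.k,(.r (-1) ⟨13,[(22,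
  6),(3,0),(0,0),(13,1),(6,5),(2,2)]⟩ ⟨2,[(7,0),(1,0),(7,0),(5,0),(9,0)]⟩),⟨true,0,⟨0,[(46,0)]⟩,⟨0,
  [(47,0)]⟩⟩,⟨false,0,⟨23,[(1,13),(7,5),(2,0),(0,0),(8,1),(4,9),(6,0),(8,4)]⟩,⟨0,[(6,0),(7,0),(11,
  0),(9,0),(0,1),(4,0)]⟩⟩,⟨false,0,⟨0,[]⟩,⟨1,[(26,0),(0,0),(21,0)]⟩⟩,⟨true,(-1),⟨0,[(1,0),(6,0)]⟩,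
  ⟨5,[(19,2),(6,5),(8,0),(0,0),(0,1),(1,1)]⟩⟩,[.a ⟨true,0,⟨0,[(51,0)]⟩,⟨0,[(6,0),(7,0),(21,0),(0,1),
  (4,0)]⟩⟩ ⟨true,0,⟨0,[(46,0)]⟩,⟨1,[(9,0),(37,0),(1,0)]⟩⟩ ⟨false,0,⟨8,[(1,6),(7,0),(17,1),(13,3),(1,
  0),(2,0)]⟩,⟨0,[(6,0),(7,0),(11,0),(9,0),(0,1),(4,0)]⟩⟩,.fo,.o ⟨false,1,⟨0,[(26,0)]⟩,⟨23,[(1,13),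
  (7,5),(2,0),(0,0),(8,1),(4,9),(6,0),(8,4)]⟩⟩,.o ⟨false,1,⟨1,[(26,1),(6,0),(0,0)]⟩,⟨0,[(1,0)]⟩⟩]⟩)
  (.R ⟨0,false,false,false,[1,0,0,0,-1],[0,1],[1,0,2,1],(⟨0,[(28,0)]⟩,⟨0,[(29,0)]⟩),(⟨0,[(40,0)]⟩,
  ⟨0,[(39,0)]⟩),⟨0,[(0,0)]⟩,.k,.k,(.r (-1) ⟨13,[(22,6),(3,0),(0,0),(13,1),(6,5),(2,2)]⟩ ⟨2,[(7,0),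
  (1,0),(7,0),(5,0),(9,0)]⟩),(.r (-1) ⟨13,[(22,6),(3,0),(0,0),(13,1),(6,5),(2,2)]⟩ ⟨2,[(7,0),(1,0),
  (7,0),(5,0),(9,0)]⟩),.k,.k,⟨false,0,⟨0,[]⟩,⟨1,[(26,0),(0,0),(20,0)]⟩⟩,⟨true,0,⟨0,[(1,0)]⟩,⟨0,[(14,
  0),(11,0),(6,0)]⟩⟩,⟨true,(-1),⟨0,[(9,0)]⟩,⟨3,[(4,0),(16,0),(0,0),(18,1),(6,1)]⟩⟩,⟨false,0,⟨1,[(1,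
  1),(7,0),(37,0),(1,0)]⟩,⟨5,[(19,2),(6,5),(8,0),(0,0),(0,1),(1,1)]⟩⟩,⟨false,0,⟨0,[]⟩,⟨0,[]⟩⟩,
  ⟨false,0,⟨0,[]⟩,⟨0,[]⟩⟩,[.a ⟨true,0,⟨0,[(47,0)]⟩,⟨1,[(19,0),(15,0),(0,0)]⟩⟩ ⟨true,(-1),⟨0,[(9,
  0)]⟩,⟨7,[(22,3),(3,0),(0,0),(13,1),(6,2)]⟩⟩ ⟨false,0,⟨0,[(1,0),(45,0)]⟩,⟨1,[(19,0),(6,1),(8,0),(0,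
  0)]⟩⟩,.o ⟨false,1,⟨3,[(7,1),(12,1),(22,0),(5,0)]⟩,⟨0,[(46,0)]⟩⟩,.o ⟨false,1,⟨0,[(26,0)]⟩,⟨23,[(1,
  13),(7,5),(2,0),(0,0),(8,1),(4,9),(6,0),(8,4)]⟩⟩,.o ⟨false,1,⟨1,[(26,1),(6,0),(0,0)]⟩,⟨0,[(1,
  0)]⟩⟩]⟩)) (.Q [1,1,0,0,-1,0,0,0,1,0,0,1] (.p true [0,0,0,0,1] [] (⟨0,[(28,0)]⟩,⟨0,[(27,0)]⟩) .k 0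
  (⟨0,[]⟩,⟨0,[]⟩) .k .k) (.Q [0,0,-1,-1,1,0,0,0,-1,1,0,-1] (.p false [0,0,0,0,1] [1] (⟨0,[(29,0)]⟩,
  ⟨0,[(28,0)]⟩) .k 1 (⟨0,[]⟩,⟨0,[]⟩) .k .k) (.Q [0,0,0,0,1,0,1,0,-1,0,1,-1] (.p true [0,0,1] [0,0,0,
  0,1] (⟨0,[(37,0)]⟩,⟨0,[(36,0)]⟩) .k 2 (⟨0,[(30,0)]⟩,⟨0,[(29,0)]⟩) .k (.r (-1) ⟨38,[(0,1),(1,1),(5,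
  7),(13,30),(0,6),(0,3),(2,13),(0,17),(21,7)]⟩ ⟨0,[(16,0)]⟩)) (.K ⟨0,[0,0,0,0,1],(-1),(-1),(⟨0,
  [(31,0)]⟩,⟨0,[(30,0)]⟩),.k,(.r (-1) ⟨7,[(24,3),(3,0),(0,0),(13,1),(6,2)]⟩ ⟨17,[(3,1),(3,5),(1,2),
  (9,8),(5,0),(3,1),(6,0),(14,2),(0,2)]⟩),(.r 0 ⟨2,[(3,0),(5,0),(1,0),(17,0),(4,0)]⟩ ⟨13,[(24,6),(3,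
  0),(0,0),(13,1),(6,5),(2,2)]⟩),.k,.k,[⟨0,[(0,0)]⟩,⟨0,[(2,0),(41,0)]⟩,⟨0,[(28,0),(24,0)]⟩,⟨0,[(2,
  0)]⟩]⟩) (.R ⟨1,true,false,true,[1,-1],[0,0,0,0,1],[1,1,-1,-2],(⟨0,[(41,0)]⟩,⟨0,[(42,0)]⟩),(⟨0,
  [(31,0)]⟩,⟨0,[(30,0)]⟩),⟨0,[(26,0),(0,0)]⟩,.k,.k,(.r (-2) ⟨3,[(24,3),(3,0),(0,0),(13,1),(6,2)]⟩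
  ⟨0,[(11,0),(37,0)]⟩),(.r (-1) ⟨13,[(24,6),(3,0),(0,0),(13,1),(6,5),(2,2)]⟩ ⟨2,[(3,0),(5,0),(1,0),
  (17,0),(4,0)]⟩),(.r (-2) ⟨3,[(24,3),(3,0),(0,0),(13,1),(6,2)]⟩ ⟨0,[(11,0),(37,0)]⟩),.k,⟨true,1,⟨1,
  [(6,0),(16,0),(0,0)]⟩,⟨0,[(11,0),(37,0)]⟩⟩,⟨false,1,⟨1,[(4,1),(40,0),(4,0)]⟩,⟨0,[(3,0)]⟩⟩,⟨true,0,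
  ⟨0,[(48,0)]⟩,⟨0,[(49,0)]⟩⟩,⟨false,0,⟨3,[(0,0),(1,1),(6,1),(7,0),(4,0),(6,0),(15,0)]⟩,⟨0,[(1,0),
  (42,0)]⟩⟩,⟨false,0,⟨0,[]⟩,⟨1,[(28,0),(0,0),(21,0)]⟩⟩,⟨true,(-1),⟨0,[(0,0),(8,0),(0,0),(1,0)]⟩,⟨6,
  [(1,3),(1,2),(17,1),(2,1),(20,0),(2,1),(3,0)]⟩⟩,[]⟩)) (.Q [0,0,0,0,1,0,1,0,-1,0,1,-1] (.p true [0,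
  0,1] [0,0,0,0,1] (⟨0,[(37,0)]⟩,⟨0,[(36,0)]⟩) .k 2 (⟨0,[(30,0)]⟩,⟨0,[(29,0)]⟩) .k (.r (-1) ⟨6,[(8,
  0),(13,4),(0,0),(0,0),(2,2),(0,2),(3,0),(17,1)]⟩ ⟨0,[(16,0)]⟩)) (.K ⟨0,[0,0,0,0,1],(-1),(-1),(⟨0,
  [(31,0)]⟩,⟨0,[(30,0)]⟩),.k,(.r (-1) ⟨7,[(24,3),(3,0),(0,0),(13,1),(6,2)]⟩ ⟨17,[(3,1),(3,5),(1,2),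
  (9,8),(5,0),(3,1),(6,0),(14,2),(0,2)]⟩),(.r 0 ⟨2,[(3,0),(5,0),(1,0),(17,0),(4,0)]⟩ ⟨13,[(24,6),(3,
  0),(0,0),(13,1),(6,5),(2,2)]⟩),.k,.k,[⟨0,[(0,0)]⟩,⟨1,[(1,0),(2,0),(6,0),(9,0)]⟩,⟨0,[(28,0),(24,
  0)]⟩,⟨0,[(2,0)]⟩]⟩) (.Q [1,1,0,1,-1,0,0,0,1,-1,0,1] (.p true [0,0,0,0,1] [1] (⟨0,[(31,0)]⟩,⟨0,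
  [(30,0)]⟩) .k 1 (⟨0,[]⟩,⟨0,[]⟩) .k .k) (.R ⟨2,true,false,false,[0,1],[1,0,0,0,-1],[0,0,1,1],(⟨0,
  []⟩,⟨0,[]⟩),(⟨0,[(31,0)]⟩,⟨0,[(32,0)]⟩),⟨0,[]⟩,.k,.k,.k,(.r 0 ⟨2,[(4,0),(5,0),(1,0),(17,0),(4,
  0)]⟩ ⟨13,[(25,6),(3,0),(0,0),(13,1),(6,5),(2,2)]⟩),.k,.k,⟨false,0,⟨0,[(50,0)]⟩,⟨7,[(25,3),(3,0),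
  (0,0),(13,1),(6,2)]⟩⟩,⟨true,0,⟨0,[(4,0)]⟩,⟨3,[(0,0),(1,0),(2,0),(19,0),(4,0),(15,0)]⟩⟩,⟨false,1,
  ⟨1,[(29,0),(0,0),(21,0)]⟩,⟨0,[]⟩⟩,⟨true,1,⟨19,[(4,9),(17,9),(6,11),(0,1),(20,4),(0,2),(1,5)]⟩,⟨0,
  [(0,0)]⟩⟩,⟨true,0,⟨0,[(50,0)]⟩,⟨0,[(49,0)]⟩⟩,⟨false,1,⟨1,[(4,1),(46,0),(0,0)]⟩,⟨3,[(0,0),(1,0),(2,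
  0),(19,0),(4,0),(15,0)]⟩⟩,[]⟩) (.R ⟨1,true,false,true,[1,-1],[0,0,0,0,1],[1,1,-1,-2],(⟨0,[(42,
  0)]⟩,⟨0,[(43,0)]⟩),(⟨0,[(32,0)]⟩,⟨0,[(31,0)]⟩),⟨0,[(27,0),(0,0)]⟩,.k,.k,(.r (-2) ⟨3,[(25,3),(3,0),
  (0,0),(13,1),(6,2)]⟩ ⟨0,[(12,0),(37,0)]⟩),(.r (-1) ⟨13,[(25,6),(3,0),(0,0),(13,1),(6,5),(2,2)]⟩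
  ⟨2,[(4,0),(5,0),(1,0),(17,0),(4,0)]⟩),(.r (-2) ⟨3,[(25,3),(3,0),(0,0),(13,1),(6,2)]⟩ ⟨0,[(12,0),
  (37,0)]⟩),.k,⟨true,1,⟨1,[(7,0),(16,0),(0,0)]⟩,⟨0,[(12,0),(37,0)]⟩⟩,⟨false,1,⟨1,[(5,1),(40,0),(4,
  0)]⟩,⟨0,[(4,0)]⟩⟩,⟨true,0,⟨0,[(49,0)]⟩,⟨0,[(50,0)]⟩⟩,⟨false,0,⟨6,[(2,2),(2,2),(4,1),(19,0),(4,1),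
  (10,0)]⟩,⟨0,[(0,0)]⟩⟩,⟨false,0,⟨0,[]⟩,⟨1,[(29,0),(0,0),(21,0)]⟩⟩,⟨true,(-1),⟨0,[(2,0),(8,0),(39,
  0)]⟩,⟨1,[(0,0),(21,0),(6,0),(19,0)]⟩⟩,[]⟩)))) (.Q [1,0,0,0,0,0,0,0,1,-1,0,1] (.p true [0,0,0,0,1]
  [1] (⟨0,[(29,0)]⟩,⟨0,[(28,0)]⟩) .k 1 (⟨0,[]⟩,⟨0,[]⟩) .k .k) (.R ⟨1,false,false,true,[0,0,1],[0,0,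
  0,0,1],[0,0,0,0,0,0,0,1],(⟨0,[(37,0)]⟩,⟨0,[(36,0)]⟩),(⟨0,[(30,0)]⟩,⟨0,[(29,0)]⟩),⟨0,[(26,0)]⟩,.k,
  .k,.k,.k,(.r (-1) ⟨3,[(13,1),(8,1),(8,1),(7,0),(9,0),(0,1)]⟩ ⟨1,[(10,0),(7,1),(29,0),(1,0)]⟩),.k,
  ⟨true,1,⟨0,[(22,0),(27,0)]⟩,⟨0,[(14,0)]⟩⟩,⟨false,0,⟨0,[(3,0),(15,0)]⟩,⟨2,[(1,1),(0,0),(5,0),(2,1),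
  (20,0),(1,0)]⟩⟩,⟨false,1,⟨1,[(27,0),(0,0),(21,0)]⟩,⟨0,[]⟩⟩,⟨true,(-1),⟨1,[(0,0),(2,0),(5,0),(1,0),
  (3,0),(5,0)]⟩,⟨0,[(1,0),(30,0)]⟩⟩,⟨true,0,⟨0,[(48,0)]⟩,⟨0,[(47,0)]⟩⟩,⟨true,(-1),⟨0,[(3,0),(5,0),
  (11,0)]⟩,⟨0,[(1,0),(15,0)]⟩⟩,[.o ⟨false,0,⟨0,[(0,0),(51,0)]⟩,⟨0,[(1,0)]⟩⟩,.o ⟨false,0,⟨0,[(0,0)]⟩,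
  ⟨2,[(1,0),(25,1),(24,0)]⟩⟩,.o ⟨false,1,⟨11,[(5,2),(2,3),(9,2),(4,0),(8,1),(1,5),(9,3)]⟩,⟨0,[(19,
  0)]⟩⟩,.a ⟨true,0,⟨0,[(34,0)]⟩,⟨0,[(31,0)]⟩⟩ ⟨true,1,⟨1,[(22,1),(26,0),(0,0)]⟩,⟨0,[(14,0)]⟩⟩
  ⟨false,0,⟨0,[(0,0),(30,0)]⟩,⟨0,[(1,0),(32,0)]⟩⟩]⟩) (.R ⟨2,true,false,false,[0,1],[1,0,0,0,-1],[],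
  (⟨0,[]⟩,⟨0,[]⟩),(⟨0,[(29,0)]⟩,⟨0,[(30,0)]⟩),⟨0,[]⟩,.k,.k,.k,(.r 0 ⟨2,[(2,0),(5,0),(1,0),(17,0),(4,
  0)]⟩ ⟨13,[(23,6),(3,0),(0,0),(13,1),(6,5),(2,2)]⟩),.k,.k,⟨true,0,⟨0,[]⟩,⟨1,[(34,0),(0,0)]⟩⟩,
  ⟨false,0,⟨0,[(0,0)]⟩,⟨1,[(28,1),(15,0),(4,0)]⟩⟩,⟨true,1,⟨7,[(23,3),(3,0),(0,0),(13,1),(6,2)]⟩,⟨0,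
  [(9,0)]⟩⟩,⟨false,1,⟨1,[(0,0),(19,0),(6,0),(22,0)]⟩,⟨4,[(3,4),(4,0),(0,0),(0,1),(10,0),(22,1)]⟩⟩,
  ⟨false,1,⟨1,[(49,0),(0,0)]⟩,⟨1,[(34,0),(0,0)]⟩⟩,⟨true,0,⟨0,[(0,0)]⟩,⟨1,[(3,0),(5,0),(18,0),(15,0),
  (2,0)]⟩⟩,[]⟩))))))))) (.Q [0,0,-1,0,0,0,0,0,1,-1,0,1] (.p true [0,0,0,0,1] [1] (⟨0,[(22,0)]⟩,⟨0,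
  [(21,0)]⟩) .k 1 (⟨0,[]⟩,⟨0,[]⟩) .k .k) (.Q [1,0,0,0,-1,0,0,0,1,0,0,1] (.p true [0,0,0,0,1] [] (⟨0,
  [(23,0)]⟩,⟨0,[(22,0)]⟩) .k 0 (⟨0,[]⟩,⟨0,[]⟩) .k .k) (.R ⟨2,true,false,false,[0,1],[0,0,0,0,1],[],
  (⟨0,[]⟩,⟨0,[]⟩),(⟨0,[(24,0)]⟩,⟨0,[(23,0)]⟩),⟨0,[]⟩,.k,.k,.k,(.r 0 ⟨4,[(4,1),(16,1),(0,1),(19,2),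
  (2,0)]⟩ ⟨7,[(17,3),(3,0),(0,0),(13,1),(6,2)]⟩),.k,.k,⟨false,1,⟨9,[(21,3),(0,3),(20,4),(0,0),(1,
  1)]⟩,⟨0,[]⟩⟩,⟨true,(-1),⟨47,[(0,34),(1,1),(1,15),(2,1),(9,3),(4,12),(15,0),(6,15)]⟩,⟨0,[(21,0)]⟩⟩,
  ⟨true,1,⟨7,[(17,3),(3,0),(0,0),(13,1),(6,2)]⟩,⟨0,[(3,0)]⟩⟩,⟨false,0,⟨3,[(0,2),(16,1),(4,0),(21,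
  0)]⟩,⟨0,[(21,0),(20,0)]⟩⟩,⟨false,1,⟨1,[(43,0),(0,0)]⟩,⟨1,[(28,0),(0,0)]⟩⟩,⟨true,(-1),⟨0,[(0,0)]⟩,
  ⟨0,[(21,0),(24,0)]⟩⟩,[]⟩) (.R ⟨1,false,false,false,[0,0,1],[0,0,0,0,1],[0,0,0,0,0,0,0,1],(⟨0,[(31,
  0)]⟩,⟨0,[(30,0)]⟩),(⟨0,[(24,0)]⟩,⟨0,[(23,0)]⟩),⟨0,[(20,0)]⟩,.k,.k,.k,.k,(.r (-1) ⟨3,[(7,1),(8,1),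
  (8,1),(7,0),(9,0),(0,1)]⟩ ⟨1,[(4,0),(7,1),(29,0),(1,0)]⟩),.k,⟨false,1,⟨1,[(16,1),(26,0),(0,0)]⟩,
  ⟨0,[(10,0)]⟩⟩,⟨true,(-1),⟨0,[(1,0),(7,0)]⟩,⟨0,[(21,0),(6,0)]⟩⟩,⟨false,1,⟨1,[(21,0),(0,0),(21,0)]⟩,
  ⟨0,[]⟩⟩,⟨true,(-1),⟨0,[(1,0),(7,0),(0,0)]⟩,⟨0,[(0,0),(25,0)]⟩⟩,⟨true,0,⟨0,[(42,0)]⟩,⟨0,[(41,0)]⟩⟩,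
  ⟨true,(-1),⟨0,[(1,0),(7,0),(0,0),(31,0)]⟩,⟨0,[(0,0),(10,0)]⟩⟩,[.o ⟨false,0,⟨28,[(1,15),(0,0),(1,
  7),(2,0),(9,1),(4,12),(15,6)]⟩,⟨0,[(0,0)]⟩⟩,.o ⟨false,0,⟨0,[(1,0),(35,0)]⟩,⟨0,[(21,0),(24,0)]⟩⟩,
  .o ⟨false,1,⟨1,[(28,1),(9,0),(4,0)]⟩,⟨0,[(13,0)]⟩⟩,.a ⟨true,0,⟨0,[(28,0)]⟩,⟨0,[(25,0)]⟩⟩ ⟨true,1,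
  ⟨1,[(16,1),(26,0),(0,0)]⟩,⟨0,[(8,0)]⟩⟩ ⟨false,0,⟨1,[(1,1),(7,0),(15,0),(18,0)]⟩,⟨0,[(0,0),(27,
  0)]⟩⟩]⟩)) (.Q [0,0,1,0,-1,0,0,0,1,0,0,1] (.p true [0,0,0,0,1] [] (⟨0,[(23,0)]⟩,⟨0,[(22,0)]⟩) .k 0
  (⟨0,[]⟩,⟨0,[]⟩) .k .k) (.Q [0,0,0,0,0,-1,0,0,0,0,0,1] (.ed false [1,-1,0,0,1] .k) (.Q [1,1,0,0,-1,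
  0,0,0,1,0,0,1] (.p true [0,0,0,0,1] [] (⟨0,[(25,0)]⟩,⟨0,[(24,0)]⟩) .k 0 (⟨0,[]⟩,⟨0,[]⟩) .k .k)
  (.S ⟨1,0,[1,1],[0,0,0,0,1],[],(⟨0,[(26,0)]⟩,⟨0,[(25,0)]⟩),⟨0,[(1,0)]⟩,.k,(.r (-1) ⟨7,[(19,3),(3,
  0),(0,0),(13,1),(6,2)]⟩ ⟨4,[(6,1),(16,1),(0,1),(19,2),(2,0)]⟩),⟨false,1,⟨4,[(23,1),(0,1),(21,2),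
  (1,0)]⟩,⟨0,[]⟩⟩,⟨true,0,⟨0,[(48,0)]⟩,⟨0,[]⟩⟩,⟨true,0,⟨0,[(5,0),(33,0),(5,0)]⟩,⟨0,[(43,0)]⟩⟩,
  ⟨false,0,⟨0,[(44,0)]⟩,⟨3,[(19,1),(3,0),(0,0),(21,0)]⟩⟩,[.a ⟨true,(-1),⟨0,[(0,0)]⟩,⟨1,[(3,1),(41,
  0),(0,0)]⟩⟩ ⟨false,1,⟨1,[(23,0),(0,0),(20,0)]⟩,⟨0,[]⟩⟩ ⟨true,0,⟨0,[(48,0)]⟩,⟨0,[(39,0)]⟩⟩,.o
  ⟨false,0,⟨1,[(0,1),(39,0),(5,0)]⟩,⟨3,[(3,1),(19,1),(16,0),(4,0)]⟩⟩,.o ⟨false,0,⟨1,[(0,1),(39,0),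
  (5,0)]⟩,⟨0,[(23,0)]⟩⟩,.e ⟨false,1,⟨1,[(45,0),(0,0)]⟩,⟨1,[(30,0),(0,0)]⟩⟩ ⟨false,1,⟨1,[(23,0),(0,
  0),(20,0)]⟩,⟨0,[(39,0)]⟩⟩]⟩) (.S ⟨1,0,[1],[0,0,0,0,1],[1,1],(⟨0,[(26,0)]⟩,⟨0,[(25,0)]⟩),⟨0,[(1,
  0)]⟩,.k,(.r (-1) ⟨7,[(19,3),(3,0),(0,0),(13,1),(6,2)]⟩ ⟨4,[(6,1),(16,1),(0,1),(19,2),(2,0)]⟩),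
  ⟨true,0,⟨0,[(48,0)]⟩,⟨0,[]⟩⟩,⟨false,1,⟨1,[(23,0),(0,0),(21,0)]⟩,⟨0,[]⟩⟩,⟨false,0,⟨0,[(44,0)]⟩,⟨3,
  [(19,1),(3,0),(0,0),(21,0)]⟩⟩,⟨true,0,⟨0,[(44,0)]⟩,⟨0,[(43,0)]⟩⟩,[.o ⟨false,0,⟨1,[(2,1),(37,0),(4,
  0)]⟩,⟨2,[(0,0),(22,1),(24,0)]⟩⟩,.a ⟨true,0,⟨1,[(2,1),(42,0),(0,0)]⟩,⟨2,[(0,0),(2,1),(0,0),(0,1),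
  (22,0),(16,1)]⟩⟩ ⟨true,0,⟨0,[]⟩,⟨1,[(30,0),(0,0)]⟩⟩ ⟨false,1,⟨1,[(45,0),(0,0)]⟩,⟨0,[(48,0)]⟩⟩,.o
  ⟨false,0,⟨1,[(2,1),(37,0),(4,0)]⟩,⟨0,[(23,0)]⟩⟩,.e ⟨false,1,⟨1,[(23,0),(0,0),(20,0)]⟩,⟨0,[(39,
  0)]⟩⟩ ⟨false,1,⟨1,[(45,0),(0,0)]⟩,⟨1,[(30,0),(0,0)]⟩⟩]⟩)) (.Q [-1,0,0,-1,1,0,1,1,-1,0,1,-1] (.p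
  true [0,0,1] [0,0,0,0,1] (⟨0,[(32,0)]⟩,⟨0,[(31,0)]⟩) .k 2 (⟨0,[(25,0)]⟩,⟨0,[(24,0)]⟩) .k (.r (-1)
  ⟨1,[(17,1),(4,0),(0,0),(21,0)]⟩ ⟨0,[(11,0)]⟩)) (.S ⟨1,0,[-1,1],[1,0,0,0,-1],[-1],(⟨0,[(25,0)]⟩,⟨0,
  [(26,0)]⟩),⟨0,[(1,0),(19,0),(0,0)]⟩,.k,(.r (-1) ⟨13,[(19,6),(3,0),(0,0),(13,1),(6,5),(2,2)]⟩ ⟨1,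
  [(6,0),(16,0),(0,0),(19,0)]⟩),⟨false,1,⟨1,[(23,0),(0,0),(21,0)]⟩,⟨0,[]⟩⟩,⟨true,0,⟨0,[(48,0)]⟩,⟨0,
  []⟩⟩,⟨true,0,⟨0,[(44,0)]⟩,⟨0,[(43,0)]⟩⟩,⟨false,0,⟨0,[(44,0)]⟩,⟨3,[(19,1),(3,0),(0,0),(21,0)]⟩⟩,
  [.a ⟨true,0,⟨3,[(0,0),(2,2),(0,0),(0,2),(39,2)]⟩,⟨1,[(2,1),(42,0),(0,0)]⟩⟩ ⟨false,1,⟨9,[(23,3),(0,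
  3),(20,4),(0,0),(1,1)]⟩,⟨0,[]⟩⟩ ⟨true,0,⟨0,[(48,0)]⟩,⟨0,[(39,0)]⟩⟩,.o ⟨false,1,⟨3,[(3,1),(19,1),
  (16,0),(4,0)]⟩,⟨1,[(2,1),(37,0),(4,0)]⟩⟩,.o ⟨false,1,⟨0,[(23,0)]⟩,⟨1,[(2,1),(37,0),(4,0)]⟩⟩,.e
  ⟨false,1,⟨0,[(39,0),(5,0)]⟩,⟨1,[(30,0),(0,0)]⟩⟩ ⟨false,1,⟨9,[(23,3),(0,3),(20,4),(0,0),(1,1)]⟩,⟨0,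
  [(39,0)]⟩⟩]⟩) (.R ⟨0,false,false,false,[0,0,0,0,1],[0,1],[],(⟨0,[(26,0)]⟩,⟨0,[(25,0)]⟩),(⟨0,[(37,
  0)]⟩,⟨0,[(36,0)]⟩),⟨0,[(1,0)]⟩,.k,.k,(.r (-1) ⟨7,[(19,3),(3,0),(0,0),(13,1),(6,2)]⟩ ⟨4,[(6,1),(16,
  1),(0,1),(19,2),(2,0)]⟩),(.r (-1) ⟨7,[(19,3),(3,0),(0,0),(13,1),(6,2)]⟩ ⟨4,[(6,1),(16,1),(0,1),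
  (19,2),(2,0)]⟩),.k,.k,⟨true,1,⟨7,[(19,3),(3,0),(0,0),(13,1),(6,2)]⟩,⟨0,[(6,0)]⟩⟩,⟨false,2,⟨0,[(23,
  0),(21,0)]⟩,⟨0,[(2,0)]⟩⟩,⟨false,1,⟨4,[(23,1),(0,1),(21,2),(1,0)]⟩,⟨0,[]⟩⟩,⟨true,1,⟨0,[(23,0),(20,
  0)]⟩,⟨0,[(0,0),(8,0)]⟩⟩,⟨false,0,⟨0,[]⟩,⟨0,[]⟩⟩,⟨false,0,⟨0,[]⟩,⟨0,[]⟩⟩,[.a ⟨true,0,⟨0,[(44,0)]⟩,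
  ⟨1,[(16,0),(15,0),(0,0)]⟩⟩ ⟨false,1,⟨1,[(23,0),(0,0),(20,0)]⟩,⟨0,[]⟩⟩ ⟨true,1,⟨0,[(23,0),(20,0)]⟩,
  ⟨0,[(0,0),(8,0),(29,0)]⟩⟩,.o ⟨false,1,⟨1,[(40,0),(3,1),(1,0)]⟩,⟨0,[(43,0)]⟩⟩,.o ⟨false,0,⟨1,[(2,
  1),(37,0),(4,0)]⟩,⟨0,[(23,0)]⟩⟩,.e ⟨false,1,⟨1,[(45,0),(0,0)]⟩,⟨1,[(30,0),(0,0)]⟩⟩ ⟨false,2,⟨1,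
  [(23,1),(20,1),(0,0),(0,0)]⟩,⟨0,[(0,0),(8,0),(29,0)]⟩⟩]⟩))) (.Q [0,0,0,0,0,-1,0,0,0,0,0,1] (.ed
  false [1,-1,0,0,1] .k) (.Q [-1,-1,0,-1,0,0,-1,-1,-1,1,-1,-1] (.p false [0,0,1] [1,0,0,0,-1] (⟨0,
  [(32,0)]⟩,⟨0,[(31,0)]⟩) .k 2 (⟨0,[(24,0)]⟩,⟨0,[(25,0)]⟩) .k (.r (-1) ⟨1,[(17,1),(4,0),(0,0),(21,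
  0)]⟩ ⟨0,[(4,0),(1,0),(31,1),(5,0)]⟩)) (.Q [0,0,1,0,0,0,0,0,1,-1,0,1] (.p true [0,0,0,0,1] [1] (⟨0,
  [(26,0)]⟩,⟨0,[(25,0)]⟩) .k 1 (⟨0,[]⟩,⟨0,[]⟩) .k .k) (.S ⟨1,0,[1],[0,0,0,0,1],[1,1],(⟨0,[(27,0)]⟩,
  ⟨0,[(26,0)]⟩),⟨0,[(2,0)]⟩,.k,(.r (-1) ⟨7,[(20,3),(3,0),(0,0),(13,1),(6,2)]⟩ ⟨1,[(0,0),(3,0),(40,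
  1)]⟩),⟨true,0,⟨0,[(49,0)]⟩,⟨0,[]⟩⟩,⟨false,1,⟨1,[(24,0),(0,0),(21,0)]⟩,⟨0,[]⟩⟩,⟨false,0,⟨0,[(45,
  0)]⟩,⟨3,[(20,1),(3,0),(0,0),(21,0)]⟩⟩,⟨true,0,⟨0,[(45,0)]⟩,⟨0,[(44,0)]⟩⟩,[.e ⟨true,0,⟨0,[(49,0)]⟩,
  ⟨0,[(40,0)]⟩⟩ ⟨true,0,⟨0,[]⟩,⟨1,[(0,0),(3,0)]⟩⟩,.o ⟨false,1,⟨1,[(25,1),(15,0),(5,0)]⟩,⟨5,[(1,1),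
  (1,3),(2,5),(3,1),(30,0),(4,0)]⟩⟩,.a ⟨true,0,⟨0,[(25,0)]⟩,⟨0,[(1,0),(27,0),(15,0)]⟩⟩ ⟨false,0,⟨0,
  []⟩,⟨1,[(24,0),(0,0),(21,0)]⟩⟩ ⟨true,0,⟨0,[]⟩,⟨0,[(49,0)]⟩⟩,.o ⟨false,0,⟨0,[(0,0)]⟩,⟨0,[(3,
  0)]⟩⟩]⟩) (.S ⟨1,0,[1],[0,0,0,0,1],[1,1],(⟨0,[(27,0)]⟩,⟨0,[(26,0)]⟩),⟨0,[(2,0)]⟩,.k,(.r (-1) ⟨7,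
  [(20,3),(3,0),(0,0),(13,1),(6,2)]⟩ ⟨4,[(7,1),(16,1),(0,1),(19,2),(2,0)]⟩),⟨true,0,⟨0,[(49,0)]⟩,⟨0,
  []⟩⟩,⟨false,1,⟨1,[(24,0),(0,0),(21,0)]⟩,⟨0,[]⟩⟩,⟨false,0,⟨0,[(45,0)]⟩,⟨3,[(20,1),(3,0),(0,0),(21,
  0)]⟩⟩,⟨true,0,⟨0,[(45,0)]⟩,⟨0,[(44,0)]⟩⟩,[.e ⟨true,0,⟨0,[(49,0)]⟩,⟨0,[(40,0)]⟩⟩ ⟨true,0,⟨0,[]⟩,⟨1,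
  [(31,0),(0,0)]⟩⟩,.o ⟨false,1,⟨1,[(25,1),(15,0),(5,0)]⟩,⟨95,[(0,56),(4,14),(0,59),(3,14),(13,38),
  (11,4),(2,2),(1,30)]⟩⟩,.a ⟨true,0,⟨0,[(25,0)]⟩,⟨1,[(0,0),(3,0)]⟩⟩ ⟨false,0,⟨0,[]⟩,⟨1,[(24,0),(0,
  0),(21,0)]⟩⟩ ⟨true,0,⟨0,[]⟩,⟨0,[(49,0)]⟩⟩,.e ⟨false,1,⟨1,[(24,0),(0,0),(20,0)]⟩,⟨0,[(40,0)]⟩⟩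
  ⟨false,1,⟨1,[(46,0),(0,0)]⟩,⟨1,[(31,0),(0,0)]⟩⟩]⟩)) (.Q [1,0,0,-2,0,0,0,0,1,0,0,1] (.p true [0,0,
  0,0,1] [] (⟨0,[(26,0)]⟩,⟨0,[(25,0)]⟩) .k 0 (⟨0,[]⟩,⟨0,[]⟩) .k .k) (.R ⟨1,false,false,false,[0,0,0,
  0,1],[0,1],[1,1],(⟨0,[(27,0)]⟩,⟨0,[(26,0)]⟩),(⟨0,[(38,0)]⟩,⟨0,[(37,0)]⟩),⟨0,[(2,0)]⟩,.k,.k,(.r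
  (-1) ⟨7,[(20,3),(3,0),(0,0),(13,1),(6,2)]⟩ ⟨4,[(7,1),(16,1),(0,1),(19,2),(2,0)]⟩),(.r (-1) ⟨7,
  [(20,3),(3,0),(0,0),(13,1),(6,2)]⟩ ⟨4,[(7,1),(16,1),(0,1),(19,2),(2,0)]⟩),(.r (-2) ⟨3,[(20,3),(3,
  0),(0,0),(13,1),(6,2)]⟩ ⟨0,[(6,1),(33,1),(5,0)]⟩),.k,⟨false,1,⟨23,[(5,1),(4,1),(9,7),(18,13),(1,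
  0),(4,16)]⟩,⟨1,[(7,0),(37,0),(1,0)]⟩⟩,⟨true,1,⟨0,[(3,0)]⟩,⟨3,[(0,0),(0,0),(3,0),(1,2),(17,1),(14,
  1)]⟩⟩,⟨true,0,⟨0,[(49,0)]⟩,⟨0,[]⟩⟩,⟨false,1,⟨1,[(3,1),(3,0),(37,0),(1,0)]⟩,⟨1,[(0,0),(24,0)]⟩⟩,
  ⟨false,0,⟨0,[(45,0)]⟩,⟨3,[(20,1),(3,0),(0,0),(21,0)]⟩⟩,⟨false,1,⟨1,[(3,1),(3,0),(37,2),(1,0)]⟩,⟨0,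
  [(0,0)]⟩⟩,[.a ⟨true,0,⟨0,[(45,0)]⟩,⟨1,[(17,0),(15,0),(0,0)]⟩⟩ ⟨true,0,⟨0,[(49,0)]⟩,⟨0,[(40,0)]⟩⟩
  ⟨false,1,⟨0,[(3,0),(41,0)]⟩,⟨4,[(0,1),(0,0),(3,0),(19,1),(14,1),(5,0)]⟩⟩,.o ⟨false,1,⟨1,[(41,0),
  (3,1),(1,0)]⟩,⟨0,[(44,0)]⟩⟩,.e ⟨false,0,⟨0,[]⟩,⟨1,[(24,0),(0,0),(21,0)]⟩⟩ ⟨false,1,⟨1,[(3,1),(3,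
  0),(37,0),(1,0)]⟩,⟨4,[(0,1),(0,0),(3,0),(19,1),(14,1),(5,0)]⟩⟩,.o ⟨false,0,⟨3,[(0,0),(6,1),(17,2),
  (15,1)]⟩,⟨0,[(3,0)]⟩⟩]⟩) (.R ⟨1,true,false,false,[0,0,0,0,1],[0,1],[1,1],(⟨0,[(27,0)]⟩,⟨0,[(26,
  0)]⟩),(⟨0,[(38,0)]⟩,⟨0,[(37,0)]⟩),⟨0,[(2,0)]⟩,.k,.k,(.r (-1) ⟨7,[(20,3),(3,0),(0,0),(13,1),(6,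
  2)]⟩ ⟨4,[(7,1),(16,1),(0,1),(19,2),(2,0)]⟩),(.r (-1) ⟨7,[(20,3),(3,0),(0,0),(13,1),(6,2)]⟩ ⟨4,[(7,
  1),(16,1),(0,1),(19,2),(2,0)]⟩),(.r (-2) ⟨3,[(20,3),(3,0),(0,0),(13,1),(6,2)]⟩ ⟨0,[(0,1),(0,1),(3,
  1),(34,3),(5,0)]⟩),.k,⟨false,1,⟨23,[(5,1),(4,1),(9,7),(18,13),(1,0),(4,16)]⟩,⟨3,[(0,0),(6,1),(17,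
  0),(21,1)]⟩⟩,⟨true,1,⟨0,[(3,0)]⟩,⟨1,[(1,0),(3,0),(1,0),(17,0),(14,1)]⟩⟩,⟨true,0,⟨0,[(49,0)]⟩,⟨0,
  []⟩⟩,⟨false,1,⟨1,[(0,0),(23,0),(22,0)]⟩,⟨0,[(1,0),(3,0),(41,0)]⟩⟩,⟨false,0,⟨0,[(45,0)]⟩,⟨3,[(20,
  1),(3,0),(0,0),(21,0)]⟩⟩,⟨true,0,⟨0,[(0,0)]⟩,⟨6,[(5,1),(4,1),(9,0),(4,6),(15,0),(2,3)]⟩⟩,[]⟩)))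
  (.Q [0,0,1,0,0,0,1,0,-1,0,1,-1] (.p true [0,0,1] [0,0,0,0,1] (⟨0,[(32,0)]⟩,⟨0,[(31,0)]⟩) .k 2 (⟨0,
  [(25,0)]⟩,⟨0,[(24,0)]⟩) .k (.r (-1) ⟨1,[(17,1),(4,0),(0,0),(21,0)]⟩ ⟨0,[(11,0)]⟩)) (.Q [-1,1,0,0,
  0,0,0,0,-1,0,0,-1] (.p false [0,0,0,0,1] [] (⟨0,[(26,0)]⟩,⟨0,[(25,0)]⟩) .k 0 (⟨0,[]⟩,⟨0,[]⟩) .k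
  .k) (.S ⟨1,0,[-1,1],[1,0,0,0,-1],[-1],(⟨0,[(26,0)]⟩,⟨0,[(27,0)]⟩),⟨0,[(2,0),(19,0),(0,0)]⟩,.k,(.r
  (-1) ⟨13,[(20,6),(3,0),(0,0),(13,1),(6,5),(2,2)]⟩ ⟨1,[(7,0),(16,0),(0,0),(19,0)]⟩),⟨false,1,⟨1,
  [(24,0),(0,0),(21,0)]⟩,⟨0,[]⟩⟩,⟨true,0,⟨0,[(49,0)]⟩,⟨0,[]⟩⟩,⟨true,0,⟨0,[(45,0)]⟩,⟨0,[(44,0)]⟩⟩,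
  ⟨false,0,⟨0,[(45,0)]⟩,⟨3,[(20,1),(3,0),(0,0),(21,0)]⟩⟩,[.o ⟨false,0,⟨0,[(0,0)]⟩,⟨1,[(25,1),(15,0),
  (5,0)]⟩⟩,.e ⟨false,1,⟨0,[(40,0),(5,0)]⟩,⟨0,[(49,0)]⟩⟩ ⟨false,1,⟨9,[(24,3),(0,3),(20,4),(0,0),(1,
  1)]⟩,⟨0,[]⟩⟩,.a ⟨true,0,⟨0,[(1,0),(26,0)]⟩,⟨0,[(25,0)]⟩⟩ ⟨false,1,⟨4,[(24,1),(0,1),(21,2),(1,0)]⟩,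
  ⟨0,[]⟩⟩ ⟨true,0,⟨0,[(49,0)]⟩,⟨0,[]⟩⟩,.o ⟨false,0,⟨0,[(0,0),(39,0)]⟩,⟨1,[(25,1),(15,0),(4,0)]⟩⟩]⟩)
  (.R ⟨2,true,false,true,[0,1],[1,0,0,0,-1],[0,0,1,1],(⟨0,[]⟩,⟨0,[]⟩),(⟨0,[(26,0)]⟩,⟨0,[(27,0)]⟩),
  ⟨0,[]⟩,.k,.k,.k,(.r 0 ⟨1,[(7,0),(16,0),(0,0),(19,0)]⟩ ⟨13,[(20,6),(3,0),(0,0),(13,1),(6,5),(2,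
  2)]⟩),.k,.k,⟨true,0,⟨1,[(7,0),(37,0),(1,0)]⟩,⟨0,[(44,0)]⟩⟩,⟨false,0,⟨0,[(1,0),(26,0)]⟩,⟨1,[(25,1),
  (15,0),(4,0)]⟩⟩,⟨false,1,⟨1,[(24,0),(0,0),(21,0)]⟩,⟨0,[]⟩⟩,⟨true,0,⟨13,[(1,4),(1,4),(0,3),(0,4),
  (4,1),(8,2),(8,1),(6,2),(1,2),(1,1)]⟩,⟨1,[(0,1),(5,1),(34,0),(4,0)]⟩⟩,⟨true,0,⟨0,[(45,0)]⟩,⟨0,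
  [(44,0)]⟩⟩,⟨false,0,⟨0,[(1,0),(10,0),(33,0)]⟩,⟨1,[(25,1),(15,0),(5,0)]⟩⟩,[]⟩)) (.R ⟨0,false,false,
  false,[0,0,0,0,1],[0,1],[1,1],(⟨0,[(26,0)]⟩,⟨0,[(25,0)]⟩),(⟨0,[(37,0)]⟩,⟨0,[(36,0)]⟩),⟨0,[(1,0)]⟩,
  .k,.k,(.r (-1) ⟨7,[(19,3),(3,0),(0,0),(13,1),(6,2)]⟩ ⟨4,[(6,1),(16,1),(0,1),(19,2),(2,0)]⟩),(.r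
  (-1) ⟨7,[(19,3),(3,0),(0,0),(13,1),(6,2)]⟩ ⟨4,[(6,1),(16,1),(0,1),(19,2),(2,0)]⟩),.k,.k,⟨false,1,
  ⟨23,[(4,1),(4,1),(9,7),(18,13),(1,0),(4,16)]⟩,⟨1,[(6,0),(37,0),(1,0)]⟩⟩,⟨true,1,⟨0,[(2,0)]⟩,⟨2,
  [(0,0),(5,1),(2,0),(0,0),(13,1),(14,1)]⟩⟩,⟨true,0,⟨0,[(48,0)]⟩,⟨0,[]⟩⟩,⟨false,1,⟨1,[(2,1),(3,0),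
  (37,0),(1,0)]⟩,⟨2,[(0,0),(6,0),(1,0),(14,1),(14,1)]⟩⟩,⟨false,0,⟨0,[]⟩,⟨0,[]⟩⟩,⟨false,0,⟨0,[]⟩,⟨0,
  []⟩⟩,[.a ⟨true,0,⟨0,[(44,0)]⟩,⟨1,[(16,0),(15,0),(0,0)]⟩⟩ ⟨true,0,⟨0,[(48,0)]⟩,⟨0,[(39,0)]⟩⟩
  ⟨false,1,⟨0,[(2,0),(41,0)]⟩,⟨2,[(0,0),(6,0),(1,0),(14,1),(14,1)]⟩⟩,.o ⟨false,1,⟨1,[(40,0),(3,1),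
  (1,0)]⟩,⟨0,[(43,0)]⟩⟩,.e ⟨false,0,⟨0,[]⟩,⟨1,[(23,0),(0,0),(21,0)]⟩⟩ ⟨false,1,⟨1,[(2,1),(3,0),(37,
  0),(1,0)]⟩,⟨2,[(0,0),(6,0),(1,0),(14,1),(14,1)]⟩⟩,.o ⟨false,0,⟨5,[(0,0),(5,1),(2,0),(0,0),(13,4),
  (14,1),(0,2)]⟩,⟨0,[(2,0)]⟩⟩]⟩))))))))))) (.S ⟨1,0,[0,1,0,0,0,0,0,1],[0,0,1],[0,0,0,0,0,0,0,1],(⟨0,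
  [(23,0)]⟩,⟨0,[(22,0)]⟩),⟨0,[(12,0)]⟩,.k,.k,⟨false,1,⟨1,[(13,0),(0,0),(21,0)]⟩,⟨0,[]⟩⟩,⟨true,0,⟨0,
  [(38,0)]⟩,⟨0,[]⟩⟩,⟨true,0,⟨0,[(34,0)]⟩,⟨0,[(33,0)]⟩⟩,⟨false,0,⟨0,[(34,0)]⟩,⟨3,[(9,1),(3,0),(0,0),
  (21,0)]⟩⟩,[.a ⟨true,0,⟨0,[(18,0)]⟩,⟨1,[(1,0),(0,1),(14,0),(18,0)]⟩⟩ ⟨false,1,⟨3,[(0,2),(7,0),(4,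
  0),(0,0),(13,0)]⟩,⟨0,[(2,0)]⟩⟩ ⟨true,0,⟨0,[(8,0)]⟩,⟨0,[(2,0),(26,0)]⟩⟩,.o ⟨false,1,⟨1,[(18,1),(11,
  0),(5,0)]⟩,⟨0,[(7,0)]⟩⟩,.o ⟨false,1,⟨1,[(20,1),(9,0),(4,0)]⟩,⟨0,[(5,0)]⟩⟩,.e ⟨false,1,⟨0,[(0,0)]⟩,
  ⟨0,[(4,0),(24,0)]⟩⟩ ⟨false,1,⟨3,[(0,2),(7,0),(4,0),(0,0),(13,0)]⟩,⟨0,[(2,0),(26,0)]⟩⟩]⟩)))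

theorem ok34 : chk K t34 r15 = true := by decide +kernel

noncomputable def t37 : Tre :=
  (.S ⟨1,0,[0,0,0,0,0,0,0,1],[0,0,1],[0,1,0,0,0,0,0,1],(⟨0,[(19,0)]⟩,⟨0,[(18,0)]⟩),⟨0,[(8,0)]⟩,.k,
  .k,⟨true,0,⟨0,[(34,0)]⟩,⟨0,[]⟩⟩,⟨false,1,⟨1,[(9,0),(0,0),(21,0)]⟩,⟨0,[]⟩⟩,⟨false,0,⟨0,[(30,0)]⟩,
  ⟨3,[(5,1),(3,0),(0,0),(21,0)]⟩⟩,⟨true,0,⟨0,[(30,0)]⟩,⟨0,[(29,0)]⟩⟩,[.o ⟨false,1,⟨1,[(14,1),(11,0),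
  (5,0)]⟩,⟨0,[(3,0)]⟩⟩,.o ⟨false,1,⟨1,[(0,1),(15,1),(9,0),(4,0)]⟩,⟨0,[(15,0)]⟩⟩,.o ⟨false,1,⟨1,[(16,
  1),(9,0),(4,0)]⟩,⟨0,[(1,0)]⟩⟩,.a ⟨true,0,⟨0,[(16,0)]⟩,⟨0,[(13,0)]⟩⟩ ⟨true,0,⟨0,[(0,0),(23,0)]⟩,⟨0,
  [(3,0),(12,0)]⟩⟩ ⟨false,1,⟨1,[(0,0),(3,0),(26,0),(0,0)]⟩,⟨0,[(3,0),(12,0)]⟩⟩]⟩)

theorem ok37 : chk K t37 r13 = true := by decide +kernel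

noncomputable def t39 : Tre :=
  (.I [0,0,-2,-2,1,0,0,-1] (.K ⟨0,[0,1,1],0,0,(⟨0,[(19,0),(0,0)]⟩,⟨0,[(7,0)]⟩),.k,.k,(.r 0 ⟨0,[(14,
  0),(2,0),(7,0),(4,1)]⟩ ⟨0,[(0,0)]⟩),.k,.k,[⟨1,[(16,0),(0,0)]⟩,⟨0,[(1,0)]⟩,⟨0,[(3,0),(25,0)]⟩,⟨0,
  [(14,0),(15,0)]⟩]⟩) (.I [0,0,2,0,-1,2,-1] (.K ⟨0,[0,1,1],0,0,(⟨0,[(20,0),(0,0)]⟩,⟨0,[(8,0)]⟩),.k,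
  .k,(.x (-2) ⟨0,[(2,0),(5,0),(14,0),(3,0),(4,0)]⟩ ⟨0,[(0,0)]⟩),.k,.k,[⟨1,[(17,0),(0,0)]⟩,⟨0,[(2,
  0)]⟩,⟨0,[(4,0),(25,0)]⟩,⟨0,[(15,0),(15,0)]⟩]⟩) (.Q [0,-1,0,0,1,0,1,1,0,-1,1] (.p true [0,0,1] [1]
  (⟨0,[(20,0)]⟩,⟨0,[(19,0)]⟩) .k 1 (⟨0,[]⟩,⟨0,[]⟩) .k .k) (.S ⟨1,0,[0,1,0,0,0,0,0,-1],[1,0,-1],[0,0,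
  0,0,0,0,0,-1],(⟨0,[(20,0)]⟩,⟨0,[(21,0)]⟩),⟨0,[(9,0)]⟩,.k,.k,⟨false,1,⟨1,[(11,0),(0,0),(21,0)]⟩,⟨0,
  []⟩⟩,⟨true,0,⟨0,[(36,0)]⟩,⟨0,[]⟩⟩,⟨true,0,⟨0,[(32,0)]⟩,⟨0,[(31,0)]⟩⟩,⟨false,0,⟨0,[(32,0)]⟩,⟨3,[(7,
  1),(3,0),(0,0),(21,0)]⟩⟩,[.o ⟨false,0,⟨0,[(17,0)]⟩,⟨0,[(0,0)]⟩⟩,.o ⟨false,0,⟨0,[(5,0)]⟩,⟨3,[(0,1),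
  (10,0),(0,0),(3,1),(11,0)]⟩⟩,.a ⟨true,0,⟨1,[(8,0),(11,0),(0,0)]⟩,⟨0,[(3,0)]⟩⟩ ⟨true,0,⟨0,[(3,0),
  (1,0)]⟩,⟨0,[(6,0)]⟩⟩ ⟨false,0,⟨0,[(3,0),(1,0)]⟩,⟨0,[(6,0),(27,0)]⟩⟩,.o ⟨false,0,⟨0,[(19,0)]⟩,⟨1,
  [(3,1),(24,0),(4,0)]⟩⟩]⟩) (.I [1,-1,-1,0,1,0,0,1] (.R ⟨2,true,false,true,[0,1],[1,0,-1],[1,1,1],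
  (⟨0,[]⟩,⟨0,[]⟩),(⟨0,[(21,0)]⟩,⟨0,[(22,0)]⟩),⟨0,[]⟩,.k,.k,.k,.k,.k,.k,⟨true,0,⟨1,[(3,0),(3,0),(0,
  0)]⟩,⟨0,[(4,0),(1,0)]⟩⟩,⟨false,0,⟨1,[(9,0),(11,0),(0,0)]⟩,⟨1,[(4,1),(24,0),(4,0)]⟩⟩,⟨true,0,⟨0,
  [(32,0)]⟩,⟨0,[(33,0)]⟩⟩,⟨false,0,⟨1,[(1,0),(3,0),(12,0),(16,0)]⟩,⟨5,[(0,3),(2,1),(0,5),(24,2),(3,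
  1),(1,0)]⟩⟩,⟨false,0,⟨0,[]⟩,⟨1,[(12,0),(0,0),(21,0)]⟩⟩,⟨true,(-1),⟨0,[(1,0)]⟩,⟨1,[(17,1),(11,0),
  (5,0)]⟩⟩,[]⟩) (.S ⟨1,0,[0,0,0,0,0,0,0,1],[0,0,1],[0,1,0,0,0,0,0,1],(⟨0,[(22,0)]⟩,⟨0,[(21,0)]⟩),⟨0,
  [(11,0)]⟩,.k,.k,⟨true,0,⟨0,[(37,0)]⟩,⟨0,[]⟩⟩,⟨false,1,⟨1,[(12,0),(0,0),(21,0)]⟩,⟨0,[]⟩⟩,⟨false,0,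
  ⟨0,[(33,0)]⟩,⟨3,[(8,1),(3,0),(0,0),(21,0)]⟩⟩,⟨true,0,⟨0,[(33,0)]⟩,⟨0,[(32,0)]⟩⟩,[.o ⟨false,1,⟨1,
  [(17,1),(11,0),(5,0)]⟩,⟨0,[(6,0)]⟩⟩,.a ⟨true,1,⟨0,[(17,0),(17,0)]⟩,⟨0,[(1,0)]⟩⟩ ⟨false,1,⟨1,[(7,
  1),(26,0),(0,0)]⟩,⟨1,[(0,1),(33,0),(0,0)]⟩⟩ ⟨true,1,⟨0,[(7,0),(27,0)]⟩,⟨0,[(0,0)]⟩⟩,.a ⟨true,0,⟨0,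
  [(4,0)]⟩,⟨1,[(9,0),(11,0),(0,0)]⟩⟩ ⟨true,0,⟨0,[(7,0)]⟩,⟨1,[(0,1),(33,0),(0,0)]⟩⟩ ⟨false,1,⟨0,[(7,
  0),(27,0)]⟩,⟨1,[(0,1),(33,0),(0,0)]⟩⟩,.a ⟨true,0,⟨0,[(19,0)]⟩,⟨0,[(16,0)]⟩⟩ ⟨false,1,⟨1,[(7,1),
  (26,0),(0,0)]⟩,⟨0,[(0,0),(34,0)]⟩⟩ ⟨true,1,⟨1,[(7,1),(26,0),(0,0)]⟩,⟨0,[(0,0)]⟩⟩]⟩)))))

theorem ok39 : chk K t39 r12 = true := by decide +kernel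


end Helper48.Y.Y11_c35_P4_m1n1_CC
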