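import Pool.Agent.Helper48.Y.Y11_c35_P4_m1n1_CC_q

set_option autoImplicit false
set_option linter.all false

namespace Helper48.Y.Y11_c35_P4_m1n1_CC

open Helper25.KG Helper25.KW Helper55.KE Helper11.CT

noncomputable def t0 : Tre :=
  (.S ⟨1,4,[],[1,-1],[1,1],(⟨0,[(17,0)]⟩,⟨0,[(18,0)]⟩),⟨0,[(2,0),(0,0)]⟩,.k,(.r (-2) ⟨0,[(24,1),(1,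
  0),(0,0)]⟩ ⟨1,[(0,1),(10,0),(0,0),(7,1)]⟩),⟨true,(-1),⟨0,[(0,0),(19,0),(3,0)]⟩,⟨1,[(24,1),(1,0),
  (0,0)]⟩⟩,⟨false,0,⟨0,[(25,0)]⟩,⟨0,[(24,0),(2,0)]⟩⟩,⟨false,(-1),⟨0,[(0,0),(19,0)]⟩,⟨1,[(24,3),(1,
  0),(0,2)]⟩⟩,⟨true,(-1),⟨0,[(0,0)]⟩,⟨0,[(24,1),(2,0)]⟩⟩,[.o ⟨false,0,⟨0,[(29,0)]⟩,⟨1,[(21,0),(5,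
  0)]⟩⟩,.fa ⟨true,0,⟨0,[]⟩,⟨1,[(11,0),(0,0)]⟩⟩ ⟨false,1,⟨0,[(26,0)]⟩,⟨1,[(11,0),(0,0)]⟩⟩,.o ⟨false,
  0,⟨1,[(11,0),(0,0)]⟩,⟨1,[(21,0),(4,0)]⟩⟩,.e ⟨false,1,⟨1,[(4,0),(0,0),(20,0)]⟩,⟨0,[(20,0)]⟩⟩
  ⟨false,1,⟨0,[(26,0)]⟩,⟨1,[(11,0),(0,0),(7,1)]⟩⟩]⟩)

theorem ok0 : chk K t0 l0 = true := by decide +kernel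

noncomputable def t1 : Tre :=
  (.I [0,-1,-1,-2,1] (.Q [0,1,0,-1,0,0,-1,-1,0,0,-1] (.p false [0,0,1] [] (⟨0,[(16,0)]⟩,⟨0,[(15,
  0)]⟩) .k 0 (⟨0,[]⟩,⟨0,[]⟩) .k .k) (.K ⟨0,[0,1,1],0,0,(⟨0,[(17,0),(0,0)]⟩,⟨0,[(5,0)]⟩),.k,.k,(.r 0
  ⟨0,[(12,0),(2,0),(7,0),(4,1)]⟩ ⟨0,[(1,0),(0,0),(19,0)]⟩),.k,.k,[⟨1,[(14,0),(0,0)]⟩,⟨0,[(2,0),(9,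
  0)]⟩,⟨0,[(0,0)]⟩,⟨0,[(12,0),(15,0)]⟩]⟩) (.R ⟨2,false,false,false,[0,1],[0,1,1],[1],(⟨0,[]⟩,⟨0,
  []⟩),(⟨0,[(17,0),(0,0)]⟩,⟨0,[(5,0)]⟩),⟨0,[]⟩,.k,.k,.k,.k,.k,.k,⟨false,1,⟨3,[(1,0),(0,3),(0,0),(18,
  2),(6,1)]⟩,⟨1,[(0,0),(11,0),(2,1),(12,0)]⟩⟩,⟨true,0,⟨0,[(2,0),(9,0)]⟩,⟨0,[(15,0)]⟩⟩,⟨false,1,⟨3,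
  [(1,1),(27,0),(0,0)]⟩,⟨1,[(14,0),(0,0),(12,1)]⟩⟩,⟨true,0,⟨0,[(0,0),(26,0)]⟩,⟨0,[(13,0)]⟩⟩,⟨false,
  1,⟨1,[(29,0),(0,0)]⟩,⟨1,[(14,0),(0,0)]⟩⟩,⟨false,0,⟨0,[(0,0)]⟩,⟨3,[(3,1),(3,0),(0,0),(4,3),(16,
  0)]⟩⟩,[.a ⟨true,0,⟨1,[(0,0),(11,0),(15,0)]⟩,⟨1,[(2,1),(1,0),(11,0),(0,0),(9,1)]⟩⟩ ⟨true,0,⟨0,[]⟩,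
  ⟨1,[(14,0),(0,0)]⟩⟩ ⟨false,0,⟨1,[(0,0),(11,0),(15,0)]⟩,⟨3,[(1,1),(11,3),(15,0),(0,0)]⟩⟩,.e ⟨false,
  1,⟨1,[(29,0),(0,0)]⟩,⟨0,[(32,0)]⟩⟩ ⟨false,0,⟨0,[(0,0)]⟩,⟨7,[(3,3),(3,0),(0,0),(4,7),(8,1),(6,
  2)]⟩⟩,.o ⟨false,1,⟨1,[(24,0),(4,0)]⟩,⟨1,[(14,0),(0,0)]⟩⟩,.fo]⟩)) (.R ⟨1,false,false,true,[1,0,-1],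
  [1,-1],[],(⟨0,[(15,0)]⟩,⟨0,[(16,0)]⟩),(⟨0,[(19,0)]⟩,⟨0,[(20,0)]⟩),⟨0,[(4,0)]⟩,.k,.k,.k,.k,.k,.k,
  ⟨true,0,⟨1,[(0,0),(21,0),(6,0)]⟩,⟨0,[(26,0)]⟩⟩,⟨false,0,⟨0,[(1,0),(9,0)]⟩,⟨3,[(3,1),(2,0),(0,0),
  (15,0),(4,1)]⟩⟩,⟨false,1,⟨1,[(10,1),(0,1),(10,1),(0,0),(5,0)]⟩,⟨3,[(1,2),(10,0),(0,0),(7,0)]⟩⟩,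
  ⟨false,1,⟨3,[(2,1),(3,0),(0,0),(3,3),(17,0)]⟩,⟨1,[(0,0),(0,1),(8,1),(11,0),(0,0)]⟩⟩,⟨false,1,⟨1,
  [(0,0),(9,1),(0,1),(10,0),(0,0),(5,1)]⟩,⟨0,[(1,0),(24,0)]⟩⟩,⟨true,0,⟨0,[(11,0)]⟩,⟨2,[(0,0),(0,2),
  (1,0),(6,0),(12,0),(2,1)]⟩⟩,[.o ⟨false,0,⟨0,[(26,0)]⟩,⟨1,[(23,0),(3,1),(1,0)]⟩⟩,.e ⟨false,1,⟨1,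
  [(28,0),(0,0)]⟩,⟨0,[(31,0)]⟩⟩ ⟨false,1,⟨3,[(1,2),(0,1),(8,2),(1,0),(7,0),(6,1)]⟩,⟨1,[(0,0),(9,1),
  (11,0),(0,0)]⟩⟩,.a ⟨true,0,⟨1,[(3,0),(11,0),(0,0)]⟩,⟨0,[(1,0),(9,0)]⟩⟩ ⟨false,1,⟨1,[(6,0),(0,0),
  (21,0)]⟩,⟨0,[]⟩⟩ ⟨true,0,⟨0,[(1,0),(9,0),(14,0)]⟩,⟨1,[(0,0),(9,1),(11,0),(0,0)]⟩⟩,.o ⟨false,0,⟨0,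
  [(14,0)]⟩,⟨1,[(1,1),(9,1),(11,0),(4,0)]⟩⟩]⟩))

theorem ok1 : chk K t1 l1 = true := by decide +kernel

noncomputable def t2 : Tre :=
  (.I [0,-1,0,0,0,0,0,1] (.R ⟨1,false,false,true,[0,0,1],[1,-1],[0,0,0,0,0,0,0,1],(⟨0,[(25,0)]⟩,⟨0,
  [(24,0)]⟩),(⟨0,[(28,0)]⟩,⟨0,[(29,0)]⟩),⟨0,[(14,0)]⟩,.k,.k,.k,.k,.k,.k,⟨false,0,⟨0,[(0,0),(35,0)]⟩,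
  ⟨4,[(2,3),(3,0),(8,0),(0,0),(13,1),(4,0)]⟩⟩,⟨true,(-1),⟨0,[(1,0),(20,0)]⟩,⟨1,[(22,1),(9,0),(4,
  0)]⟩⟩,⟨false,1,⟨1,[(15,0),(0,0),(21,0)]⟩,⟨0,[]⟩⟩,⟨false,0,⟨2,[(1,1),(0,1),(3,1),(1,0),(15,0),(0,
  0)]⟩,⟨1,[(9,1),(22,0),(3,1),(1,0)]⟩⟩,⟨true,0,⟨0,[(36,0)]⟩,⟨0,[(35,0)]⟩⟩,⟨false,0,⟨0,[(6,0),(12,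
  0)]⟩,⟨1,[(9,1),(22,0),(5,0)]⟩⟩,[.o ⟨false,0,⟨0,[(35,0)]⟩,⟨1,[(32,0),(3,1),(1,0)]⟩⟩,.a ⟨true,0,⟨2,
  [(1,0),(0,0),(3,0),(1,1),(15,1),(0,1)]⟩,⟨0,[(36,0)]⟩⟩ ⟨true,0,⟨0,[(0,0)]⟩,⟨0,[(6,0),(33,0)]⟩⟩
  ⟨false,0,⟨1,[(1,0),(0,0),(5,0),(10,0)]⟩,⟨1,[(22,1),(9,0),(3,1),(0,0)]⟩⟩,.o ⟨false,1,⟨1,[(22,1),(9,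
  0),(4,0)]⟩,⟨0,[(4,0)]⟩⟩,.e ⟨false,1,⟨1,[(0,0),(9,0),(26,0),(0,0)]⟩,⟨0,[(6,0)]⟩⟩ ⟨false,0,⟨1,[(1,
  0),(0,0),(5,0),(10,0)]⟩,⟨1,[(22,1),(9,0),(3,1),(1,0)]⟩⟩]⟩) (.Q [0,0,0,2,0,0,-1,-1,0,0,-1] (.p
  false [0,0,1] [] (⟨0,[(25,0)]⟩,⟨0,[(24,0)]⟩) .k 0 (⟨0,[]⟩,⟨0,[]⟩) .k .k) (.R ⟨1,true,false,false,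
  [0,0,1],[0,1],[0,1,0,0,0,0,0,1],(⟨0,[(26,0)]⟩,⟨0,[(25,0)]⟩),(⟨0,[(30,0)]⟩,⟨0,[(29,0)]⟩),⟨0,[(15,
  0)]⟩,.k,.k,.k,.k,(.r (-1) ⟨3,[(2,1),(0,0),(0,0),(4,3),(2,0),(20,0),(4,2)]⟩ ⟨1,[(0,1),(22,2),(0,
  0)]⟩),.k,⟨true,0,⟨1,[(1,1),(0,1),(6,3),(23,0),(3,1),(0,0)]⟩,⟨1,[(0,0),(6,0),(15,0),(8,1)]⟩⟩,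
  ⟨false,1,⟨3,[(2,0),(10,0),(19,0),(4,3)]⟩,⟨0,[(23,0)]⟩⟩,⟨true,0,⟨1,[(1,0),(9,0)]⟩,⟨0,[]⟩⟩,⟨false,1,
  ⟨7,[(0,3),(7,3),(4,1),(2,0),(0,0),(15,0),(5,1)]⟩,⟨0,[(9,0)]⟩⟩,⟨false,0,⟨0,[(37,0)]⟩,⟨3,[(12,1),(3,
  0),(0,0),(21,0)]⟩⟩,⟨true,0,⟨0,[(0,0)]⟩,⟨0,[(9,0),(26,0)]⟩⟩,[]⟩) (.Q [0,-1,0,1,0,0,-1,-1,0,1,-1]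
  (.p false [0,0,1] [1] (⟨0,[(26,0)]⟩,⟨0,[(25,0)]⟩) .k 1 (⟨0,[]⟩,⟨0,[]⟩) .k .k) (.S ⟨1,0,[0,0,1,1,0,
  0,0,-1],[1,1,-1],[1,1,1,0,0,0,0,-1],(⟨0,[(26,0),(1,0)]⟩,⟨0,[(16,0)]⟩),⟨0,[(26,0)]⟩,.k,.k,⟨true,0,
  ⟨0,[(37,0)]⟩,⟨0,[(38,0)]⟩⟩,⟨false,1,⟨1,[(17,0),(0,0),(21,0)]⟩,⟨0,[]⟩⟩,⟨false,0,⟨0,[]⟩,⟨1,[(17,0),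
  (0,0),(21,0)]⟩⟩,⟨true,0,⟨0,[(38,0)]⟩,⟨0,[(37,0)]⟩⟩,[.a ⟨true,0,⟨1,[(0,1),(1,0),(9,0)]⟩,⟨0,[(10,
  0)]⟩⟩ ⟨false,0,⟨0,[(2,0)]⟩,⟨0,[(7,0),(31,0)]⟩⟩ ⟨true,0,⟨0,[(8,0),(29,0)]⟩,⟨19,[(1,4),(1,1),(1,7),
  (1,6),(5,0),(11,0),(8,0)]⟩⟩,.a ⟨true,0,⟨0,[(0,0)]⟩,⟨2,[(1,0),(20,1),(14,0)]⟩⟩ ⟨true,0,⟨0,[(8,0)]⟩,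
  ⟨1,[(5,0),(1,0),(30,0)]⟩⟩ ⟨false,1,⟨0,[(9,0),(28,0)]⟩,⟨0,[(5,0)]⟩⟩,.a ⟨true,0,⟨0,[(21,0)]⟩,⟨0,
  [(24,0)]⟩⟩ ⟨false,0,⟨0,[(8,0)]⟩,⟨0,[(7,0),(31,0)]⟩⟩ ⟨true,0,⟨0,[(8,0),(29,0)]⟩,⟨0,[(5,0)]⟩⟩,.o
  ⟨false,0,⟨0,[(6,0)]⟩,⟨1,[(24,1),(9,0),(4,0)]⟩⟩]⟩) (.I [0,-1,0,1,0,0,0,1] (.S ⟨1,0,[0,0,0,0,0,0,0,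
  -1],[1,0,-1],[1,1,0,-1,0,0,0,-1],(⟨0,[(27,0)]⟩,⟨0,[(28,0)]⟩),⟨0,[(16,0)]⟩,.k,.k,⟨true,0,⟨0,[(38,
  0)]⟩,⟨0,[(39,0)]⟩⟩,⟨false,1,⟨1,[(18,0),(0,0),(21,0)]⟩,⟨0,[]⟩⟩,⟨false,0,⟨0,[]⟩,⟨1,[(18,0),(0,0),
  (21,0)]⟩⟩,⟨true,0,⟨0,[(39,0)]⟩,⟨0,[(38,0)]⟩⟩,[.e ⟨false,1,⟨4,[(3,1),(1,2),(8,0),(3,0),(0,0),(13,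
  1)]⟩,⟨0,[(0,0)]⟩⟩ ⟨false,1,⟨1,[(3,0),(6,0),(29,0)]⟩,⟨3,[(0,0),(5,0),(1,0),(4,0)]⟩⟩,.o ⟨false,1,⟨3,
  [(4,0),(5,3),(4,0),(19,0)]⟩,⟨0,[(1,0),(37,0)]⟩⟩,.o ⟨false,0,⟨0,[(7,0)]⟩,⟨1,[(25,1),(9,0),(4,0)]⟩⟩,
  .a ⟨true,(-1),⟨0,[(4,0),(20,0)]⟩,⟨0,[(25,0),(14,0)]⟩⟩ ⟨false,1,⟨0,[(5,0)]⟩,⟨0,[(8,0),(30,0)]⟩⟩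
  ⟨true,1,⟨1,[(3,0),(6,0),(29,0)]⟩,⟨0,[(1,0),(2,0),(20,0),(13,0)]⟩⟩]⟩) (.Q [0,0,0,0,0,2,0,0,0,0,-1]
  (.p false [0,0,1] [] (⟨0,[(28,0)]⟩,⟨0,[(27,0)]⟩) .k 0 (⟨0,[]⟩,⟨0,[]⟩) .k .k) (.R ⟨0,false,false,
  true,[0,-1,1],[1,-1],[],(⟨0,[(18,0)]⟩,⟨0,[(0,0),(31,0)]⟩),(⟨0,[(32,0)]⟩,⟨0,[(33,0)]⟩),⟨0,[(0,0)]⟩,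
  .k,.k,(.r (-1) ⟨7,[(3,3),(1,1),(1,3),(7,1),(20,0),(4,5),(0,0)]⟩ ⟨1,[(10,1),(15,0),(0,0),(12,3)]⟩),
  .k,.k,.k,⟨true,0,⟨0,[(35,0),(4,0)]⟩,⟨0,[(39,0)]⟩⟩,⟨false,0,⟨0,[(23,0)]⟩,⟨1,[(26,1),(9,0),(4,0)]⟩⟩,
  ⟨true,0,⟨0,[(10,0),(29,0)]⟩,⟨0,[(7,0)]⟩⟩,⟨false,0,⟨0,[(10,0),(12,0)]⟩,⟨1,[(13,1),(22,0),(5,0)]⟩⟩,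
  ⟨false,0,⟨0,[]⟩,⟨0,[]⟩⟩,⟨false,0,⟨0,[]⟩,⟨0,[]⟩⟩,[.o ⟨false,0,⟨0,[(39,0)]⟩,⟨1,[(36,0),(3,1),(1,
  0)]⟩⟩,.a ⟨true,0,⟨3,[(0,0),(2,1),(6,1),(12,1),(5,0),(2,1)]⟩,⟨0,[(40,0)]⟩⟩ ⟨false,1,⟨1,[(41,0),(0,
  0)]⟩,⟨1,[(4,0),(9,0)]⟩⟩ ⟨true,0,⟨2,[(3,0),(1,0),(0,0),(16,1)]⟩,⟨0,[(2,0),(7,0),(24,0),(4,1)]⟩⟩,.e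
  ⟨false,1,⟨1,[(19,0),(0,0),(21,0)]⟩,⟨0,[]⟩⟩ ⟨false,0,⟨2,[(3,0),(1,0),(0,0),(16,1)]⟩,⟨1,[(26,1),(9,
  0),(3,1),(1,0)]⟩⟩,.o ⟨false,0,⟨0,[(2,0),(7,0),(24,0),(4,0)]⟩,⟨3,[(5,0),(10,0),(19,0),(4,3)]⟩⟩]⟩)
  (.Q [-1,0,0,-1,0,0,-1,-1,-1,1,-1,-1] (.p false [0,0,1] [1,0,0,0,-1] (⟨0,[(29,0)]⟩,⟨0,[(28,0)]⟩)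
  .k 2 (⟨0,[(21,0)]⟩,⟨0,[(22,0)]⟩) .k (.r 0 ⟨1,[(7,0),(1,0),(30,0)]⟩ ⟨4,[(4,1),(6,2),(7,1),(0,1),
  (23,0)]⟩)) (.Q [0,0,0,0,0,-1,0,0,0,0,0,1] (.ed false [1,-1,0,0,1] .k) (.S ⟨1,0,[1],[0,0,0,0,1],[1,
  1],(⟨0,[(24,0)]⟩,⟨0,[(23,0)]⟩),⟨0,[(0,0)]⟩,.k,(.r (-1) ⟨2,[(8,0),(7,0),(0,0),(25,0)]⟩ ⟨1,[(28,0),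
  (0,0),(12,1)]⟩),⟨true,0,⟨1,[(6,0),(9,0)]⟩,⟨0,[]⟩⟩,⟨false,1,⟨1,[(21,0),(0,0),(21,0)]⟩,⟨0,[]⟩⟩,
  ⟨false,0,⟨0,[(42,0)]⟩,⟨3,[(17,1),(3,0),(0,0),(21,0)]⟩⟩,⟨true,0,⟨0,[(42,0)]⟩,⟨0,[(41,0)]⟩⟩,[.e
  ⟨true,0,⟨1,[(6,0),(9,0)]⟩,⟨0,[(37,0)]⟩⟩ ⟨true,0,⟨0,[]⟩,⟨1,[(28,0),(0,0)]⟩⟩,.o ⟨false,1,⟨1,[(22,1),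
  (15,0),(5,0)]⟩,⟨0,[(1,0),(2,0),(37,1)]⟩⟩,.a ⟨true,0,⟨0,[(22,0)]⟩,⟨0,[(1,0),(13,0),(26,0)]⟩⟩
  ⟨false,0,⟨0,[]⟩,⟨1,[(21,0),(0,0),(21,0)]⟩⟩ ⟨true,0,⟨0,[]⟩,⟨1,[(6,0),(9,0)]⟩⟩,.e ⟨false,1,⟨1,[(21,
  0),(0,0),(20,0)]⟩,⟨0,[(37,0)]⟩⟩ ⟨false,1,⟨1,[(43,0),(0,0)]⟩,⟨1,[(28,0),(0,0)]⟩⟩]⟩) (.S ⟨1,0,[-1,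
  1],[1,0,0,0,-1],[-1],(⟨0,[(23,0)]⟩,⟨0,[(24,0)]⟩),⟨1,[(0,0),(1,0),(16,0),(3,0)]⟩,.k,(.r (-1) ⟨1,
  [(3,3),(1,3),(1,1),(29,3),(0,0),(3,9),(0,2)]⟩ ⟨1,[(28,0),(0,0),(12,1)]⟩),⟨false,1,⟨1,[(21,0),(0,
  0),(21,0)]⟩,⟨0,[]⟩⟩,⟨true,0,⟨1,[(6,0),(9,0)]⟩,⟨0,[]⟩⟩,⟨true,0,⟨0,[(42,0)]⟩,⟨0,[(41,0)]⟩⟩,⟨false,0,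
  ⟨0,[(42,0)]⟩,⟨3,[(17,1),(3,0),(0,0),(21,0)]⟩⟩,[.o ⟨false,0,⟨0,[(1,0),(2,0),(37,1)]⟩,⟨1,[(22,1),
  (15,0),(5,0)]⟩⟩,.e ⟨false,1,⟨0,[(37,0),(5,0)]⟩,⟨1,[(6,0),(9,0)]⟩⟩ ⟨false,1,⟨3,[(13,0),(2,0),(4,0),
  (0,0),(20,1)]⟩,⟨0,[]⟩⟩,.a ⟨true,0,⟨0,[(1,0),(13,0),(26,0)]⟩,⟨0,[(22,0)]⟩⟩ ⟨false,1,⟨3,[(13,0),(2,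
  0),(4,0),(0,0),(21,1)]⟩,⟨0,[]⟩⟩ ⟨true,0,⟨0,[(46,0)]⟩,⟨0,[]⟩⟩,.o ⟨false,0,⟨0,[(1,0),(2,0),(32,0),
  (4,1)]⟩,⟨1,[(22,1),(15,0),(4,0)]⟩⟩]⟩)) (.Q [0,0,-1,0,0,0,0,0,1,-1,0,1] (.p true [0,0,0,0,1] [1]
  (⟨0,[(23,0)]⟩,⟨0,[(22,0)]⟩) .k 1 (⟨0,[]⟩,⟨0,[]⟩) .k .k) (.Q [0,0,0,0,0,-1,0,0,0,1,0,-1] (.ed true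
  [0,1,0,0,1] .k) (.R ⟨1,false,false,false,[1,0,0,0,-1],[1,0,-1],[-1,1],(⟨0,[(24,0)]⟩,⟨0,[(25,0)]⟩),
  (⟨0,[(31,0)]⟩,⟨0,[(32,0)]⟩),⟨0,[(0,0)]⟩,.k,.k,(.r (-1) ⟨1,[(4,3),(1,3),(1,1),(29,3),(0,0),(3,9),
  (0,2)]⟩ ⟨1,[(29,0),(0,0),(12,1)]⟩),.k,(.r (-1) ⟨2,[(10,0),(6,1),(0,0),(25,0),(0,0)]⟩ ⟨0,[(13,0),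
  (29,0)]⟩),.k,⟨false,0,⟨1,[(4,1),(1,3),(1,1),(30,0),(3,9),(0,0)]⟩,⟨0,[(14,0)]⟩⟩,⟨true,(-1),⟨0,[(1,
  0),(6,0),(20,0)]⟩,⟨0,[(22,0),(6,0)]⟩⟩,⟨true,0,⟨1,[(7,0),(9,0)]⟩,⟨0,[]⟩⟩,⟨false,0,⟨1,[(1,1),(6,0),
  (4,1),(17,0),(0,0),(12,0)]⟩,⟨0,[(15,0),(6,0),(20,0)]⟩⟩,⟨false,0,⟨0,[(43,0)]⟩,⟨3,[(18,1),(3,0),(0,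
  0),(21,0)]⟩⟩,⟨false,0,⟨1,[(1,1),(6,0),(4,1),(17,0),(0,0),(10,1),(1,0)]⟩,⟨0,[(6,0),(15,0),(20,
  0)]⟩⟩,[.a ⟨true,0,⟨0,[(13,0),(12,0)]⟩,⟨0,[(16,0)]⟩⟩ ⟨true,0,⟨0,[(47,0)]⟩,⟨0,[(38,0)]⟩⟩ ⟨false,0,
  ⟨0,[(1,0),(11,0),(12,0)]⟩,⟨0,[(16,0),(5,0)]⟩⟩,.o ⟨false,1,⟨3,[(8,0),(5,3),(4,0),(19,0)]⟩,⟨0,[(5,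
  0),(37,0)]⟩⟩,.o ⟨false,1,⟨0,[(22,0)]⟩,⟨6,[(1,4),(0,0),(2,0),(7,1),(9,0),(6,1),(7,0)]⟩⟩,.o ⟨false,
  1,⟨1,[(22,1),(6,0),(0,0)]⟩,⟨0,[(1,0)]⟩⟩]⟩) (.R ⟨0,false,false,false,[1,0,0,0,-1],[0,1],[0,1,0,-1],
  (⟨0,[(24,0)]⟩,⟨0,[(25,0)]⟩),(⟨0,[(36,0)]⟩,⟨0,[(35,0)]⟩),⟨0,[(0,0)]⟩,.k,.k,(.r (-1) ⟨1,[(4,3),(1,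
  3),(1,1),(29,3),(0,0),(3,9),(0,2)]⟩ ⟨1,[(29,0),(0,0),(12,1)]⟩),(.r (-1) ⟨1,[(4,3),(1,3),(1,1),(29,
  3),(0,0),(3,9),(0,2)]⟩ ⟨1,[(29,0),(0,0),(12,1)]⟩),.k,.k,⟨false,1,⟨1,[(4,3),(1,3),(1,1),(29,1),(0,
  0),(3,7),(0,2)]⟩,⟨0,[(38,0),(4,1)]⟩⟩,⟨true,0,⟨0,[(1,0)]⟩,⟨0,[(8,0),(13,0),(6,1)]⟩⟩,⟨true,0,⟨0,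
  [(42,0)]⟩,⟨0,[(43,0)]⟩⟩,⟨false,0,⟨0,[(1,0),(36,0),(4,0)]⟩,⟨5,[(6,2),(6,2),(8,5),(3,2),(4,0),(0,0),
  (0,1),(1,1)]⟩⟩,⟨false,0,⟨0,[]⟩,⟨0,[]⟩⟩,⟨false,0,⟨0,[]⟩,⟨0,[]⟩⟩,[.a ⟨true,0,⟨0,[(43,0)]⟩,⟨1,[(6,0),
  (6,0),(12,0),(4,0),(0,0)]⟩⟩ ⟨true,0,⟨0,[(42,0)]⟩,⟨0,[(38,0),(4,0)]⟩⟩ ⟨false,0,⟨0,[(1,0),(41,0)]⟩,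
  ⟨1,[(6,0),(6,0),(8,1),(3,0),(4,0),(0,0)]⟩⟩,.o ⟨false,1,⟨1,[(39,0),(3,1),(1,0)]⟩,⟨0,[(42,0)]⟩⟩,.o
  ⟨false,1,⟨0,[(22,0)]⟩,⟨6,[(1,4),(0,0),(2,0),(7,1),(9,0),(6,1),(7,0)]⟩⟩,.o ⟨false,1,⟨1,[(22,1),(6,
  0),(0,0)]⟩,⟨0,[(1,0)]⟩⟩]⟩)) (.Q [-1,0,0,0,0,0,-1,-1,-1,1,-1,-1] (.p false [0,0,1] [1,0,0,0,-1]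
  (⟨0,[(31,0)]⟩,⟨0,[(30,0)]⟩) .k 2 (⟨0,[(23,0)]⟩,⟨0,[(24,0)]⟩) .k (.r 0 ⟨3,[(1,0),(5,0),(1,0),(1,0),
  (3,0),(5,0)]⟩ ⟨4,[(6,1),(6,2),(7,1),(0,1),(23,0)]⟩)) (.R ⟨1,true,false,true,[1,0,-1],[0,0,0,0,1],
  [0,0,0,0,0,0,0,-1],(⟨0,[(31,0)]⟩,⟨0,[(32,0)]⟩),(⟨0,[(25,0)]⟩,⟨0,[(24,0)]⟩),⟨0,[(20,0)]⟩,.k,.k,.k,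
  .k,(.r (-1) ⟨0,[(4,0),(33,0),(5,0)]⟩ ⟨2,[(1,0),(0,0),(9,0),(4,0),(12,0),(12,1)]⟩),.k,⟨true,1,⟨0,
  [(4,0),(33,1),(4,0),(0,0)]⟩,⟨0,[(5,0),(2,0),(20,0),(13,0)]⟩⟩,⟨false,1,⟨1,[(2,1),(1,1),(39,0),(0,
  0)]⟩,⟨1,[(0,0),(7,0),(7,0),(5,0)]⟩⟩,⟨false,1,⟨1,[(22,0),(0,0),(21,0)]⟩,⟨0,[]⟩⟩,⟨true,0,⟨0,[(2,0),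
  (39,0)]⟩,⟨0,[(0,0)]⟩⟩,⟨true,0,⟨0,[(43,0)]⟩,⟨0,[(42,0)]⟩⟩,⟨false,0,⟨0,[(2,0)]⟩,⟨13,[(0,10),(0,0),
  (12,2),(3,6),(0,0),(2,1),(3,0),(18,1)]⟩⟩,[]⟩) (.Q [0,-1,0,-1,0,0,0,0,0,1] (.pp false [-1,1]) (.R
  ⟨1,false,false,false,[1,0,-1],[1,-1],[1,1,0,-1,0,0,0,-1],(⟨0,[(32,0)]⟩,⟨0,[(33,0)]⟩),(⟨0,[(36,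
  0)]⟩,⟨0,[(37,0)]⟩),⟨0,[(21,0)]⟩,.k,.k,.k,.k,.k,.k,⟨false,0,⟨0,[(8,0)]⟩,⟨0,[(13,0),(31,0)]⟩⟩,⟨true,
  0,⟨0,[(30,0)]⟩,⟨0,[(12,0)]⟩⟩,⟨true,0,⟨0,[(43,0)]⟩,⟨0,[(44,0)]⟩⟩,⟨true,0,⟨0,[(16,0)]⟩,⟨0,[(29,0),
  (14,0)]⟩⟩,⟨false,0,⟨0,[]⟩,⟨1,[(23,0),(0,0),(21,0)]⟩⟩,⟨true,0,⟨0,[(17,0)]⟩,⟨0,[(29,0)]⟩⟩,[.a ⟨true,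
  0,⟨3,[(0,2),(1,0),(21,0),(13,0),(4,0)]⟩,⟨0,[(44,0)]⟩⟩ ⟨true,0,⟨0,[(5,0)]⟩,⟨0,[(13,0),(30,0)]⟩⟩
  ⟨false,1,⟨1,[(10,0),(5,0),(13,0),(14,0)]⟩,⟨3,[(9,0),(10,0),(19,0),(3,3)]⟩⟩,.a ⟨true,0,⟨0,[(0,0)]⟩,
  ⟨1,[(8,0),(9,0),(25,1)]⟩⟩ ⟨false,1,⟨0,[(10,0)]⟩,⟨1,[(3,0),(5,0),(7,0),(5,0),(20,0)]⟩⟩ ⟨true,1,⟨1,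
  [(10,0),(5,0),(13,0),(15,0)]⟩,⟨0,[(6,0),(2,0),(4,0),(29,1)]⟩⟩,.o ⟨false,0,⟨0,[(12,0)]⟩,⟨1,[(30,1),
  (9,0),(4,0)]⟩⟩,.a ⟨true,(-1),⟨0,[(9,0),(20,0)]⟩,⟨0,[(30,0),(14,0)]⟩⟩ ⟨false,1,⟨0,[(10,0)]⟩,⟨0,
  [(13,0),(30,0)]⟩⟩ ⟨true,1,⟨1,[(10,0),(5,0),(13,0),(14,0)]⟩,⟨0,[(6,0),(2,0),(4,0),(29,1)]⟩⟩]⟩) (.I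
  [1,0,2,1,-1] (.I [0,-1,-1,-1,1] (.S ⟨1,0,[0,1,-1,-1],[1,-1],[0,0,-1,-1],(⟨0,[(38,0)]⟩,⟨0,[(39,
  0)]⟩),⟨1,[(6,0),(16,0),(14,0)]⟩,.k,(.r (-2) ⟨2,[(12,1),(7,1),(0,1),(25,1)]⟩ ⟨0,[(1,0),(44,0)]⟩),
  ⟨false,1,⟨1,[(25,0),(0,0),(21,0)]⟩,⟨0,[]⟩⟩,⟨true,0,⟨1,[(10,0),(9,0)]⟩,⟨0,[]⟩⟩,⟨true,0,⟨0,[(46,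
  0)]⟩,⟨0,[(45,0)]⟩⟩,⟨false,0,⟨0,[(46,0)]⟩,⟨3,[(21,1),(3,0),(0,0),(21,0)]⟩⟩,[.o ⟨false,0,⟨0,[(45,
  0)]⟩,⟨1,[(42,0),(3,1),(1,0)]⟩⟩,.e ⟨true,1,⟨0,[(0,0)]⟩,⟨1,[(1,1),(8,0),(9,0)]⟩⟩ ⟨true,1,⟨2,[(12,0),
  (7,0),(0,0),(25,0)]⟩,⟨0,[(1,0)]⟩⟩,.o ⟨false,0,⟨1,[(32,0),(0,0)]⟩,⟨1,[(42,0),(4,0)]⟩⟩,.a ⟨true,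
  (-1),⟨0,[(11,0),(20,1)]⟩,⟨0,[(47,0)]⟩⟩ ⟨false,2,⟨3,[(21,1),(3,0),(0,0),(20,3),(0,0)]⟩,⟨0,[(1,
  0)]⟩⟩ ⟨true,1,⟨3,[(12,0),(0,0),(7,0),(18,1),(6,1)]⟩,⟨0,[(1,0)]⟩⟩]⟩) (.Q [0,0,1,0,-1,0,0,0,1,0,0,
  1] (.p true [0,0,0,0,1] [] (⟨0,[(28,0)]⟩,⟨0,[(27,0)]⟩) .k 0 (⟨0,[]⟩,⟨0,[]⟩) .k .k) (.Q [0,0,0,0,0,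
  -1,0,0,0,0,0,1] (.ed false [1,-1,0,0,1] .k) (.Q [-1,1,0,0,0,0,0,0,-1,1,0,-1] (.p false [0,0,0,0,
  1] [1] (⟨0,[(30,0)]⟩,⟨0,[(29,0)]⟩) .k 1 (⟨0,[]⟩,⟨0,[]⟩) .k .k) (.S ⟨1,0,[1],[0,0,0,0,1],[1,1],(⟨0,
  [(31,0)]⟩,⟨0,[(30,0)]⟩),⟨0,[(1,0)]⟩,.k,(.r (-1) ⟨2,[(15,0),(7,0),(0,0),(25,0)]⟩ ⟨4,[(4,1),(23,1),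
  (0,1),(19,2),(2,0)]⟩),⟨true,0,⟨1,[(13,0),(9,0)]⟩,⟨0,[]⟩⟩,⟨false,1,⟨1,[(28,0),(0,0),(21,0)]⟩,⟨0,
  []⟩⟩,⟨false,0,⟨0,[(49,0)]⟩,⟨3,[(24,1),(3,0),(0,0),(21,0)]⟩⟩,⟨true,0,⟨0,[(49,0)]⟩,⟨0,[(48,0)]⟩⟩,
  [.o ⟨false,0,⟨1,[(2,1),(42,0),(4,0)]⟩,⟨5,[(0,1),(27,3),(16,0),(5,0)]⟩⟩,.a ⟨true,0,⟨1,[(2,1),(47,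
  0),(0,0)]⟩,⟨0,[(0,0)]⟩⟩ ⟨true,0,⟨0,[]⟩,⟨1,[(35,0),(0,0)]⟩⟩ ⟨false,1,⟨1,[(50,0),(0,0)]⟩,⟨1,[(13,0),
  (9,0)]⟩⟩,.o ⟨false,0,⟨1,[(2,1),(42,0),(4,0)]⟩,⟨0,[(28,0)]⟩⟩,.e ⟨false,1,⟨1,[(28,0),(0,0),(20,0)]⟩,
  ⟨0,[(44,0)]⟩⟩ ⟨false,1,⟨1,[(50,0),(0,0)]⟩,⟨1,[(35,0),(0,0)]⟩⟩]⟩) (.S ⟨1,4,[],[0,0,0,0,1],[1,1],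
  (⟨0,[(31,0)]⟩,⟨0,[(30,0)]⟩),⟨0,[(1,0)]⟩,.k,(.r (-1) ⟨2,[(15,0),(7,0),(0,0),(25,0)]⟩ ⟨4,[(4,1),(23,
  1),(0,1),(19,2),(2,0)]⟩),⟨true,0,⟨1,[(13,0),(9,0)]⟩,⟨0,[]⟩⟩,⟨false,1,⟨10,[(7,7),(12,3),(4,1),(2,
  2),(4,3),(5,0),(1,0),(8,3)]⟩,⟨0,[(0,0)]⟩⟩,⟨false,0,⟨0,[(49,0)]⟩,⟨3,[(24,1),(3,0),(0,0),(21,0)]⟩⟩,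
  ⟨true,0,⟨0,[(3,0),(3,0),(42,0)]⟩,⟨0,[(0,0),(47,0)]⟩⟩,[.o ⟨false,0,⟨1,[(13,0),(9,0)]⟩,⟨1,[(45,0),
  (5,0)]⟩⟩,.fa ⟨true,0,⟨0,[]⟩,⟨1,[(35,0),(0,0)]⟩⟩ ⟨false,1,⟨0,[(7,0),(42,0)]⟩,⟨5,[(0,2),(1,0),(3,0),
  (22,0),(4,0),(8,0),(1,0)]⟩⟩,.o ⟨false,0,⟨5,[(0,2),(1,0),(3,0),(22,0),(4,0),(8,0),(1,0)]⟩,⟨0,[(28,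
  0)]⟩⟩,.e ⟨false,1,⟨1,[(28,0),(0,0),(20,0)]⟩,⟨0,[(44,0)]⟩⟩ ⟨false,1,⟨0,[(7,0),(42,0)]⟩,⟨5,[(0,2),
  (1,1),(3,0),(11,0),(0,1),(16,0),(8,0),(5,0)]⟩⟩]⟩)) (.Q [0,0,-1,1,0,0,1,1,1,-1,1,1] (.p true [0,0,
  1] [1,0,0,0,-1] (⟨0,[(37,0)]⟩,⟨0,[(36,0)]⟩) .k 2 (⟨0,[(29,0)]⟩,⟨0,[(30,0)]⟩) .k (.r 0 ⟨6,[(4,0),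
  (8,0),(1,0),(1,2),(3,1),(0,0),(26,0)]⟩ ⟨4,[(12,1),(6,2),(7,1),(0,1),(23,0)]⟩)) (.R ⟨0,false,false,
  true,[0,0,0,0,1],[0,1],[1,1],(⟨0,[(31,0)]⟩,⟨0,[(30,0)]⟩),(⟨0,[(42,0)]⟩,⟨0,[(41,0)]⟩),⟨0,[(1,0)]⟩,
  .k,.k,(.r (-1) ⟨2,[(15,0),(7,0),(0,0),(25,0)]⟩ ⟨4,[(4,1),(23,1),(0,1),(19,2),(2,0)]⟩),(.r (-1) ⟨2,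
  [(15,0),(7,0),(0,0),(25,0)]⟩ ⟨4,[(4,1),(23,1),(0,1),(19,2),(2,0)]⟩),.k,.k,⟨true,1,⟨2,[(15,0),(7,
  0),(0,0),(25,0)]⟩,⟨0,[(3,0),(40,0)]⟩⟩,⟨false,2,⟨0,[(28,0),(21,0)]⟩,⟨0,[(2,0)]⟩⟩,⟨true,0,⟨1,[(13,
  0),(9,0)]⟩,⟨0,[]⟩⟩,⟨false,1,⟨0,[(28,0),(20,0)]⟩,⟨2,[(0,0),(1,1),(7,0),(1,0),(1,0),(0,0),(35,1)]⟩⟩,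
  ⟨false,0,⟨0,[]⟩,⟨0,[]⟩⟩,⟨false,0,⟨0,[]⟩,⟨0,[]⟩⟩,[.o ⟨false,0,⟨0,[(5,0)]⟩,⟨3,[(24,1),(3,0),(0,0),
  (21,0)]⟩⟩,.e ⟨true,0,⟨0,[]⟩,⟨1,[(35,0),(0,0)]⟩⟩ ⟨true,1,⟨0,[(28,0),(20,0)]⟩,⟨2,[(0,0),(1,1),(7,1),
  (1,0),(1,0),(29,1)]⟩⟩,.o ⟨false,0,⟨6,[(0,1),(1,3),(11,0),(0,1),(13,0),(15,2)]⟩,⟨0,[(28,0)]⟩⟩,.a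
  ⟨true,(-1),⟨0,[(2,0)]⟩,⟨0,[(7,0),(42,0)]⟩⟩ ⟨false,1,⟨1,[(28,0),(0,0),(20,0)]⟩,⟨0,[(44,0)]⟩⟩ ⟨true,
  1,⟨0,[(3,0),(24,0),(21,0)]⟩,⟨2,[(0,0),(1,1),(7,1),(1,0),(1,0),(29,1)]⟩⟩]⟩) (.S ⟨1,0,[-1,1],[1,0,0,
  0,-1],[-1],(⟨0,[(30,0)]⟩,⟨0,[(31,0)]⟩),⟨1,[(1,0),(7,0),(16,0),(3,0)]⟩,.k,(.r (-1) ⟨1,[(3,9),(6,3),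
  (1,3),(1,1),(29,13),(0,0),(4,12)]⟩ ⟨1,[(4,0),(23,0),(0,0),(19,0)]⟩),⟨false,1,⟨1,[(28,0),(0,0),(21,
  0)]⟩,⟨0,[]⟩⟩,⟨true,0,⟨1,[(13,0),(9,0)]⟩,⟨0,[]⟩⟩,⟨true,0,⟨0,[(49,0)]⟩,⟨0,[(48,0)]⟩⟩,⟨false,0,⟨0,
  [(49,0)]⟩,⟨3,[(24,1),(3,0),(0,0),(21,0)]⟩⟩,[.a ⟨true,0,⟨2,[(0,0),(2,2),(3,1),(4,0),(37,2)]⟩,⟨1,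
  [(2,1),(47,0),(0,0)]⟩⟩ ⟨false,1,⟨3,[(20,0),(2,0),(4,0),(0,0),(20,1)]⟩,⟨0,[]⟩⟩ ⟨true,0,⟨0,[(53,
  0)]⟩,⟨0,[(44,0)]⟩⟩,.o ⟨false,1,⟨3,[(7,1),(20,1),(16,0),(4,0)]⟩,⟨1,[(2,1),(42,0),(4,0)]⟩⟩,.o
  ⟨false,1,⟨0,[(28,0)]⟩,⟨1,[(2,1),(42,0),(4,0)]⟩⟩,.e ⟨false,1,⟨0,[(44,0),(5,0)]⟩,⟨1,[(35,0),(0,
  0)]⟩⟩ ⟨false,1,⟨3,[(20,0),(2,0),(4,0),(0,0),(20,1)]⟩,⟨0,[(44,0)]⟩⟩]⟩))) (.Q [0,0,0,0,0,-1,0,0,0,0,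
  0,1] (.ed false [1,-1,0,0,1] .k) (.R ⟨1,false,false,false,[0,0,0,0,1],[0,1],[1,1],(⟨0,[(30,0)]⟩,
  ⟨0,[(29,0)]⟩),(⟨0,[(41,0)]⟩,⟨0,[(40,0)]⟩),⟨0,[(0,0)]⟩,.k,.k,(.r (-1) ⟨2,[(14,0),(7,0),(0,0),(25,
  0)]⟩ ⟨4,[(3,1),(23,1),(0,1),(19,2),(2,0)]⟩),(.r (-1) ⟨2,[(14,0),(7,0),(0,0),(25,0)]⟩ ⟨4,[(3,1),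
  (23,1),(0,1),(19,2),(2,0)]⟩),(.r (-2) ⟨2,[(14,1),(7,1),(0,1),(25,1)]⟩ ⟨0,[(2,1),(40,1),(5,0)]⟩),
  .k,⟨false,1,⟨3,[(14,0),(0,0),(7,0),(18,1),(6,1)]⟩,⟨1,[(3,0),(44,0),(1,0)]⟩⟩,⟨true,1,⟨0,[(1,0)]⟩,
  ⟨3,[(3,2),(1,0),(3,0),(1,0),(1,0),(4,0),(9,2),(14,0)]⟩⟩,⟨true,0,⟨1,[(12,0),(9,0)]⟩,⟨0,[]⟩⟩,⟨false,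
  1,⟨1,[(1,1),(1,0),(44,0),(1,0)]⟩,⟨3,[(5,0),(3,1),(1,0),(1,0),(14,2),(21,0)]⟩⟩,⟨false,0,⟨0,[(48,
  0)]⟩,⟨3,[(23,1),(3,0),(0,0),(21,0)]⟩⟩,⟨false,1,⟨1,[(1,1),(1,0),(44,2),(1,0)]⟩,⟨1,[(5,0),(3,1),(1,
  0),(1,0),(14,0),(21,0)]⟩⟩,[.a ⟨true,0,⟨0,[(48,0)]⟩,⟨1,[(11,0),(6,0),(12,0),(4,0),(0,0)]⟩⟩ ⟨true,0,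
  ⟨1,[(12,0),(9,0)]⟩,⟨0,[(43,0)]⟩⟩ ⟨false,1,⟨0,[(1,0),(46,0)]⟩,⟨3,[(5,0),(3,1),(1,0),(1,0),(14,2),
  (21,0)]⟩⟩,.o ⟨false,1,⟨1,[(44,0),(3,1),(1,0)]⟩,⟨0,[(47,0)]⟩⟩,.e ⟨false,0,⟨0,[]⟩,⟨1,[(27,0),(0,0),
  (21,0)]⟩⟩ ⟨false,1,⟨1,[(1,1),(1,0),(44,0),(1,0)]⟩,⟨3,[(5,0),(3,1),(1,0),(1,0),(14,2),(21,0)]⟩⟩,.o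
  ⟨false,0,⟨3,[(5,2),(7,0),(4,2),(9,0),(6,0),(8,0)]⟩,⟨0,[(1,0)]⟩⟩]⟩) (.R ⟨0,false,false,false,[0,0,
  0,0,1],[0,1],[1,1],(⟨0,[(30,0)]⟩,⟨0,[(29,0)]⟩),(⟨0,[(41,0)]⟩,⟨0,[(40,0)]⟩),⟨0,[(0,0)]⟩,.k,.k,(.r
  (-1) ⟨2,[(14,0),(7,0),(0,0),(25,0)]⟩ ⟨4,[(3,1),(23,1),(0,1),(19,2),(2,0)]⟩),(.r (-1) ⟨2,[(14,0),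
  (7,0),(0,0),(25,0)]⟩ ⟨4,[(3,1),(23,1),(0,1),(19,2),(2,0)]⟩),.k,.k,⟨false,1,⟨3,[(14,0),(0,0),(7,0),
  (18,1),(6,1)]⟩,⟨1,[(3,0),(44,0),(1,0)]⟩⟩,⟨true,1,⟨0,[(1,0)]⟩,⟨3,[(3,2),(1,0),(3,0),(1,0),(1,0),(4,
  0),(9,2),(14,0)]⟩⟩,⟨true,0,⟨1,[(12,0),(9,0)]⟩,⟨0,[]⟩⟩,⟨false,1,⟨1,[(1,1),(1,0),(44,0),(1,0)]⟩,⟨3,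
  [(5,0),(3,1),(1,0),(1,0),(14,2),(21,0)]⟩⟩,⟨false,0,⟨0,[]⟩,⟨0,[]⟩⟩,⟨false,0,⟨0,[]⟩,⟨0,[]⟩⟩,[.a
  ⟨true,0,⟨0,[(48,0)]⟩,⟨1,[(11,0),(6,0),(12,0),(4,0),(0,0)]⟩⟩ ⟨true,0,⟨1,[(12,0),(9,0)]⟩,⟨0,[(43,
  0)]⟩⟩ ⟨false,1,⟨0,[(1,0),(46,0)]⟩,⟨3,[(5,0),(3,1),(1,0),(1,0),(14,2),(21,0)]⟩⟩,.o ⟨false,1,⟨1,
  [(44,0),(3,1),(1,0)]⟩,⟨0,[(47,0)]⟩⟩,.e ⟨false,0,⟨0,[]⟩,⟨1,[(27,0),(0,0),(21,0)]⟩⟩ ⟨false,1,⟨1,[(1,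
  1),(1,0),(44,0),(1,0)]⟩,⟨3,[(5,0),(3,1),(1,0),(1,0),(14,2),(21,0)]⟩⟩,.o ⟨false,0,⟨3,[(5,2),(7,0),
  (4,2),(9,0),(6,0),(8,0)]⟩,⟨0,[(1,0)]⟩⟩]⟩)))) (.I [0,0,2,0,-1,2] (.S ⟨1,0,[0,0,-1,-1],[1,-1],[0,1,
  -1,-1],(⟨0,[(38,0)]⟩,⟨0,[(39,0)]⟩),⟨1,[(6,0),(16,0),(14,0)]⟩,.k,(.x 1 ⟨0,[(0,0)]⟩ ⟨2,[(6,1),(16,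
  1),(1,1),(0,1),(15,0),(4,2)]⟩),⟨true,0,⟨1,[(10,0),(9,0)]⟩,⟨0,[]⟩⟩,⟨false,1,⟨1,[(25,0),(0,0),(21,
  0)]⟩,⟨0,[]⟩⟩,⟨false,0,⟨0,[(46,0)]⟩,⟨3,[(21,1),(3,0),(0,0),(21,0)]⟩⟩,⟨true,0,⟨0,[(46,0)]⟩,⟨0,[(45,
  0)]⟩⟩,[.e ⟨false,1,⟨2,[(1,0),(19,0),(18,1),(6,0)]⟩,⟨0,[(41,0),(4,0)]⟩⟩ ⟨false,1,⟨0,[(1,0)]⟩,⟨2,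
  [(4,0),(0,0),(10,0),(16,0),(12,1)]⟩⟩,.o ⟨false,1,⟨3,[(21,1),(3,0),(0,0),(21,0)]⟩,⟨0,[(2,0)]⟩⟩,.o
  ⟨false,0,⟨1,[(32,0),(0,0)]⟩,⟨1,[(42,0),(4,0)]⟩⟩,.a ⟨true,(-1),⟨1,[(0,1),(5,0),(16,0),(14,0)]⟩,⟨0,
  [(47,0)]⟩⟩ ⟨false,1,⟨0,[(1,0)]⟩,⟨0,[(15,0),(0,0),(29,0)]⟩⟩ ⟨true,1,⟨0,[(1,0)]⟩,⟨1,[(0,1),(1,1),(3,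
  0),(16,0),(14,0)]⟩⟩]⟩) (.I [0,0,-2,-2,1] (.S ⟨1,0,[0,0,-1,-1],[1,-1],[1,1,-1,-2],(⟨0,[(39,0)]⟩,⟨0,
  [(40,0)]⟩),⟨1,[(7,0),(16,0),(14,0)]⟩,.k,(.r (-1) ⟨0,[(0,0)]⟩ ⟨2,[(5,1),(0,1),(10,1),(16,1),(12,
  3)]⟩),⟨true,0,⟨0,[(46,0)]⟩,⟨0,[(47,0)]⟩⟩,⟨false,1,⟨1,[(26,0),(0,0),(21,0)]⟩,⟨0,[]⟩⟩,⟨false,0,⟨0,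
  []⟩,⟨1,[(26,0),(0,0),(21,0)]⟩⟩,⟨true,0,⟨0,[(47,0)]⟩,⟨0,[(46,0)]⟩⟩,[.e ⟨false,1,⟨2,[(0,1),(21,0),
  (18,1)]⟩,⟨0,[(42,0),(4,1)]⟩⟩ ⟨false,1,⟨0,[(2,0)]⟩,⟨2,[(5,0),(0,0),(10,0),(16,0),(12,1)]⟩⟩,.o
  ⟨false,1,⟨3,[(22,1),(3,0),(0,0),(21,0)]⟩,⟨0,[(3,0)]⟩⟩,.o ⟨false,0,⟨1,[(33,0),(0,0)]⟩,⟨1,[(43,0),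
  (4,0)]⟩⟩,.a ⟨true,(-1),⟨0,[(12,0),(20,1)]⟩,⟨0,[(48,0)]⟩⟩ ⟨false,1,⟨0,[(0,0)]⟩,⟨0,[(16,0),(0,0),
  (29,1)]⟩⟩ ⟨true,1,⟨0,[(2,0)]⟩,⟨0,[(3,0),(8,0),(20,1)]⟩⟩]⟩) (.Q [0,-1,0,2,0,0,-1,-1,0,1,-1] (.p
  false [0,0,1] [1] (⟨0,[(36,0)]⟩,⟨0,[(35,0)]⟩) .k 1 (⟨0,[]⟩,⟨0,[]⟩) .k .k) (.S ⟨1,3,[],[0,-1,1],[1,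
  0,-1,-2,0,0,0,1],(⟨0,[(26,0)]⟩,⟨0,[(36,0),(1,0)]⟩),⟨0,[(8,0)]⟩,.k,(.r (-1) ⟨19,[(3,11),(7,3),(1,
  1),(1,15),(7,1),(20,0),(5,6)]⟩ ⟨1,[(1,1),(10,0),(6,0),(7,0),(0,0)]⟩),⟨false,1,⟨3,[(23,1),(3,0),(0,
  0),(21,0)]⟩,⟨0,[(48,0)]⟩⟩,⟨true,0,⟨5,[(0,2),(5,0),(5,2),(11,0),(3,0),(2,0)]⟩,⟨0,[(10,0)]⟩⟩,⟨true,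
  0,⟨0,[]⟩,⟨1,[(12,0),(9,0)]⟩⟩,⟨false,0,⟨0,[(0,0)]⟩,⟨21,[(7,3),(2,15),(12,15),(3,3),(4,1),(11,0),(5,
  0)]⟩⟩,[.fa ⟨false,1,⟨19,[(3,11),(7,3),(1,1),(1,15),(7,1),(20,0),(5,6)]⟩,⟨3,[(0,1),(0,0),(2,1),(7,
  0),(6,0),(14,1)]⟩⟩ ⟨true,0,⟨0,[(31,0)]⟩,⟨3,[(1,0),(8,1),(7,1),(15,1),(8,1),(0,0)]⟩⟩,.a ⟨true,0,⟨0,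
  [(0,0),(10,0)]⟩,⟨1,[(12,0),(9,0)]⟩⟩ ⟨true,1,⟨9,[(3,1),(7,3),(1,1),(1,5),(7,1),(20,0),(5,6)]⟩,⟨1,
  [(1,2),(0,0),(6,1),(28,1)]⟩⟩ ⟨false,1,⟨1,[(31,1),(17,0),(0,0)]⟩,⟨3,[(1,0),(8,1),(1,1),(21,1),(9,
  0)]⟩⟩,.a ⟨true,0,⟨0,[(34,0)]⟩,⟨0,[(31,0)]⟩⟩ ⟨false,1,⟨9,[(3,1),(7,3),(1,1),(1,5),(7,1),(20,0),(5,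
  6)]⟩,⟨3,[(0,1),(0,0),(2,1),(7,0),(6,0),(14,1)]⟩⟩ ⟨true,0,⟨0,[(31,0)]⟩,⟨3,[(1,0),(8,1),(1,1),(21,
  1),(9,0)]⟩⟩,.o ⟨false,0,⟨3,[(1,0),(8,1),(7,1),(15,1),(8,1),(0,0)]⟩,⟨3,[(13,0),(10,0),(19,0),(4,
  3)]⟩⟩]⟩) (.Q [0,0,-1,0,1,0,0,0,-1,0,0,-1] (.p false [0,0,0,0,1] [] (⟨0,[(30,0)]⟩,⟨0,[(29,0)]⟩) .k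
  0 (⟨0,[]⟩,⟨0,[]⟩) .k .k) (.Q [0,0,0,0,0,-1,0,0,0,0,0,1] (.ed false [1,-1,0,0,1] .k) (.R ⟨1,false,
  false,false,[0,0,0,0,1],[1,-1,-1],[1,1],(⟨0,[(32,0)]⟩,⟨0,[(31,0)]⟩),(⟨0,[(27,0)]⟩,⟨0,[(39,0),(0,
  0)]⟩),⟨0,[(0,0)]⟩,.k,.k,(.r (-1) ⟨2,[(16,0),(7,0),(0,0),(25,0)]⟩ ⟨1,[(2,1),(0,6),(0,8),(6,3),(1,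
  1),(1,1),(24,17),(4,5)]⟩),(.r 0 ⟨2,[(3,0),(5,0),(9,0),(6,0),(2,0),(4,0)]⟩ ⟨0,[(4,0),(6,0),(28,1),
  (4,0)]⟩),.k,.k,⟨true,(-1),⟨0,[(3,0),(13,0)]⟩,⟨0,[(11,0),(40,0)]⟩⟩,⟨false,0,⟨1,[(1,0),(6,0),(6,
  0)]⟩,⟨6,[(4,0),(2,1),(1,4),(4,0),(1,4),(4,0),(18,1)]⟩⟩,⟨true,0,⟨1,[(14,0),(9,0)]⟩,⟨0,[]⟩⟩,⟨false,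
  1,⟨1,[(1,0),(6,0),(2,1),(3,0),(36,1)]⟩,⟨0,[(9,0)]⟩⟩,⟨false,0,⟨0,[(50,0)]⟩,⟨3,[(25,1),(3,0),(0,0),
  (21,0)]⟩⟩,⟨false,1,⟨1,[(1,0),(6,0),(6,0),(5,1)]⟩,⟨0,[(7,0)]⟩⟩,[.a ⟨true,0,⟨2,[(13,0),(1,0),(0,0),
  (3,2),(12,1)]⟩,⟨0,[(23,0),(26,0)]⟩⟩ ⟨true,0,⟨1,[(14,0),(9,0)]⟩,⟨0,[(45,0)]⟩⟩ ⟨false,1,⟨1,[(1,0),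
  (6,0),(6,0),(0,1)]⟩,⟨5,[(3,0),(0,0),(2,1),(1,3),(30,1)]⟩⟩,.o ⟨false,1,⟨8,[(15,3),(0,0),(3,0),(0,
  5),(3,3),(9,0),(10,1)]⟩,⟨0,[(6,0),(16,0)]⟩⟩,.e ⟨false,0,⟨0,[]⟩,⟨1,[(29,0),(0,0),(21,0)]⟩⟩ ⟨false,
  1,⟨1,[(1,0),(6,0),(2,1),(3,0),(36,1)]⟩,⟨5,[(3,0),(0,0),(2,1),(1,3),(30,1)]⟩⟩,.o ⟨false,0,⟨3,[(7,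
  2),(7,0),(4,2),(9,0),(6,0),(8,0)]⟩,⟨0,[(1,0)]⟩⟩]⟩) (.R ⟨0,false,false,false,[0,0,0,0,1],[0,1],[1,
  1],(⟨0,[(32,0)]⟩,⟨0,[(31,0)]⟩),(⟨0,[(43,0)]⟩,⟨0,[(42,0)]⟩),⟨0,[(0,0)]⟩,.k,.k,(.r (-1) ⟨2,[(16,0),
  (7,0),(0,0),(25,0)]⟩ ⟨1,[(2,1),(0,6),(0,8),(6,3),(1,1),(1,1),(24,17),(4,5)]⟩),(.r (-1) ⟨2,[(16,0),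
  (7,0),(0,0),(25,0)]⟩ ⟨1,[(2,1),(0,6),(0,8),(6,3),(1,1),(1,1),(24,17),(4,5)]⟩),.k,.k,⟨false,1,⟨2,
  [(5,0),(19,0),(18,1),(6,0)]⟩,⟨1,[(3,0),(48,0)]⟩⟩,⟨true,1,⟨0,[(1,0)]⟩,⟨4,[(3,2),(3,1),(3,1),(1,1),
  (1,1),(4,1),(9,2),(14,1)]⟩⟩,⟨true,0,⟨1,[(14,0),(9,0)]⟩,⟨0,[]⟩⟩,⟨false,1,⟨13,[(1,13),(1,6),(0,0),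
  (35,1),(4,1),(6,5)]⟩,⟨3,[(7,0),(3,1),(1,0),(1,0),(14,2),(21,0)]⟩⟩,⟨false,0,⟨0,[]⟩,⟨0,[]⟩⟩,⟨false,
  0,⟨0,[]⟩,⟨0,[]⟩⟩,[.a ⟨true,0,⟨0,[(50,0)]⟩,⟨1,[(13,0),(6,0),(12,0),(4,0),(0,0)]⟩⟩ ⟨true,0,⟨1,[(14,
  0),(9,0)]⟩,⟨0,[(45,0)]⟩⟩ ⟨false,1,⟨0,[(1,0),(48,0)]⟩,⟨3,[(7,0),(3,1),(1,0),(1,0),(14,2),(21,0)]⟩⟩,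
  .o ⟨false,1,⟨1,[(46,0),(3,1),(1,0)]⟩,⟨0,[(49,0)]⟩⟩,.e ⟨false,0,⟨0,[]⟩,⟨1,[(29,0),(0,0),(21,0)]⟩⟩
  ⟨false,1,⟨1,[(1,1),(1,0),(48,0)]⟩,⟨3,[(7,0),(3,1),(1,0),(1,0),(14,2),(21,0)]⟩⟩,.o ⟨false,0,⟨3,[(7,
  2),(7,0),(4,2),(9,0),(6,0),(8,0)]⟩,⟨0,[(1,0)]⟩⟩]⟩)) (.Q [0,0,0,0,0,1,0,0,0,0,0,-1] (.ed true [1,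
  -1,0,0,1] .k) (.R ⟨1,false,false,false,[1,0,0,0,-1],[1,-1],[1,0,0,-1],(⟨0,[(31,0)]⟩,⟨0,[(32,0)]⟩),
  (⟨0,[(42,0)]⟩,⟨0,[(43,0)]⟩),⟨1,[(0,0),(9,0),(16,0),(3,0)]⟩,.k,.k,(.r (-1) ⟨1,[(2,1),(0,4),(0,8),
  (6,3),(1,1),(1,1),(24,17),(4,5)]⟩ ⟨1,[(3,0),(25,0),(0,0)]⟩),(.r 0 ⟨1,[(2,1),(0,6),(0,8),(6,3),(1,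
  1),(1,1),(24,17),(4,5)]⟩ ⟨2,[(16,0),(7,0),(0,0),(25,0)]⟩),.k,.k,⟨false,0,⟨0,[]⟩,⟨1,[(29,0),(0,0),
  (20,0)]⟩⟩,⟨true,(-1),⟨0,[(1,0)]⟩,⟨0,[(29,0)]⟩⟩,⟨false,1,⟨3,[(25,1),(3,0),(0,0),(21,0)]⟩,⟨1,[(3,0),
  (0,0),(35,1)]⟩⟩,⟨false,0,⟨0,[(1,0),(3,0),(39,0)]⟩,⟨0,[(29,0),(20,0)]⟩⟩,⟨true,0,⟨0,[]⟩,⟨0,[(54,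
  0)]⟩⟩,⟨false,0,⟨1,[(1,1),(49,0),(0,0)]⟩,⟨8,[(4,0),(3,1),(20,6),(10,1),(5,0)]⟩⟩,[.e ⟨false,1,⟨2,
  [(16,0),(7,0),(0,0),(25,0)]⟩,⟨0,[(50,0)]⟩⟩ ⟨false,0,⟨0,[(1,0),(3,0)]⟩,⟨0,[(29,0),(20,0)]⟩⟩,.o
  ⟨false,1,⟨3,[(25,1),(3,0),(0,0),(21,0)]⟩,⟨0,[(6,0)]⟩⟩,.o ⟨false,1,⟨0,[(29,0)]⟩,⟨1,[(1,1),(44,0),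
  (4,0)]⟩⟩,.a ⟨true,0,⟨0,[(8,0)]⟩,⟨0,[(1,0),(49,0)]⟩⟩ ⟨false,1,⟨0,[(5,0),(39,0)]⟩,⟨1,[(3,0),(25,0),
  (0,0)]⟩⟩ ⟨true,0,⟨0,[(1,0),(3,0)]⟩,⟨0,[(6,0),(1,0)]⟩⟩]⟩) (.R ⟨1,false,false,false,[0,0,0,0,1],[1,
  -1],[],(⟨0,[(32,0)]⟩,⟨0,[(31,0)]⟩),(⟨0,[(42,0)]⟩,⟨0,[(43,0)]⟩),⟨0,[(0,0)]⟩,.k,.k,(.r (-1) ⟨2,[(16,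
  0),(7,0),(0,0),(25,0)]⟩ ⟨1,[(2,1),(0,6),(0,8),(6,3),(1,1),(1,1),(24,17),(4,5)]⟩),(.r 0 ⟨1,[(3,0),
  (25,0),(0,0)]⟩ ⟨1,[(2,1),(0,4),(0,8),(6,3),(1,1),(1,1),(24,17),(4,5)]⟩),.k,.k,⟨false,0,⟨0,[(50,
  0)]⟩,⟨2,[(16,0),(7,0),(0,0),(25,0)]⟩⟩,⟨true,0,⟨0,[(8,0)]⟩,⟨1,[(1,1),(44,0),(4,0)]⟩⟩,⟨false,1,⟨3,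
  [(21,0),(2,0),(4,0),(0,0),(21,1)]⟩,⟨0,[]⟩⟩,⟨false,1,⟨0,[(5,0),(2,0),(36,0)]⟩,⟨1,[(1,1),(44,0),(3,
  1),(0,0)]⟩⟩,⟨true,0,⟨1,[(3,0),(0,0),(35,1)]⟩,⟨0,[(49,0)]⟩⟩,⟨false,1,⟨1,[(8,1),(42,0),(0,0)]⟩,⟨1,
  [(1,1),(44,0),(4,0)]⟩⟩,[.e ⟨false,1,⟨1,[(29,0),(0,0),(20,0)]⟩,⟨0,[]⟩⟩ ⟨false,1,⟨0,[(5,0),(2,0)]⟩,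
  ⟨1,[(1,1),(44,0),(3,1),(0,0)]⟩⟩,.o ⟨false,1,⟨3,[(25,1),(3,0),(0,0),(21,0)]⟩,⟨0,[(6,0)]⟩⟩,.o
  ⟨false,0,⟨1,[(1,1),(44,0),(4,0)]⟩,⟨0,[(29,0)]⟩⟩,.a ⟨true,(-1),⟨0,[(1,0)]⟩,⟨0,[(8,0),(42,0)]⟩⟩
  ⟨false,1,⟨1,[(51,0),(0,0)]⟩,⟨1,[(36,0),(0,0)]⟩⟩ ⟨true,1,⟨0,[(5,0),(2,0)]⟩,⟨0,[(1,0),(4,
  0)]⟩⟩]⟩))))))))))))))))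

theorem ok2 : chk K t2 l10 = true := by decide +kernel

noncomputable def t3 : Tre :=
  (.I [0,1,-1,-1,0,0,0,1] (.Q [0,0,0,2,0,0,-1,-1,0,0,-1] (.p false [0,0,1] [] (⟨0,[(25,0)]⟩,⟨0,[(24,
  0)]⟩) .k 0 (⟨0,[]⟩,⟨0,[]⟩) .k .k) (.I [0,0,-2,-2,1,0,0,1] (.R ⟨1,true,false,false,[0,0,1],[0,1],
  [0,1,0,0,0,0,0,1],(⟨0,[(27,0)]⟩,⟨0,[(26,0)]⟩),(⟨0,[(31,0)]⟩,⟨0,[(30,0)]⟩),⟨0,[(16,0)]⟩,.k,.k,.k,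
  .k,(.r (-1) ⟨0,[(0,0)]⟩ ⟨1,[(1,1),(22,2),(0,0)]⟩),.k,⟨true,0,⟨0,[(2,0)]⟩,⟨1,[(1,0),(6,0),(15,0),
  (8,1)]⟩⟩,⟨false,1,⟨0,[(0,0),(0,0)]⟩,⟨0,[(24,0)]⟩⟩,⟨true,0,⟨0,[(42,0)]⟩,⟨0,[]⟩⟩,⟨false,1,⟨7,[(1,3),
  (7,3),(4,1),(2,0),(0,0),(15,0),(5,1)]⟩,⟨0,[(10,0)]⟩⟩,⟨false,0,⟨0,[(38,0)]⟩,⟨3,[(13,1),(3,0),(0,0),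
  (21,0)]⟩⟩,⟨true,0,⟨0,[(1,0)]⟩,⟨0,[(10,0),(26,0)]⟩⟩,[]⟩) (.Q [0,0,-1,0,1,0,1,0,0,-1,1] (.p true [0,
  0,1] [1] (⟨0,[(27,0)]⟩,⟨0,[(26,0)]⟩) .k 1 (⟨0,[]⟩,⟨0,[]⟩) .k .k) (.S ⟨1,0,[0,1,0,0,0,0,0,-1],[1,0,
  -1],[1,0,0,-1,0,0,0,-1],(⟨0,[(27,0)]⟩,⟨0,[(28,0)]⟩),⟨0,[(16,0)]⟩,.k,.k,⟨false,1,⟨3,[(14,1),(3,0),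
  (0,0),(21,0)]⟩,⟨0,[(39,0)]⟩⟩,⟨true,0,⟨0,[(43,0)]⟩,⟨0,[]⟩⟩,⟨true,0,⟨0,[]⟩,⟨0,[(43,0)]⟩⟩,⟨false,0,
  ⟨0,[(39,0)]⟩,⟨3,[(14,1),(3,0),(0,0),(21,0)]⟩⟩,[.o ⟨false,0,⟨0,[(24,0)]⟩,⟨0,[(0,0),(7,0)]⟩⟩,.a
  ⟨true,0,⟨0,[(9,0),(12,0)]⟩,⟨0,[(12,0)]⟩⟩ ⟨true,1,⟨0,[(5,0),(28,0)]⟩,⟨1,[(1,1),(1,2),(4,0),(30,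
  0)]⟩⟩ ⟨false,1,⟨4,[(1,0),(3,1),(4,1),(22,0),(6,1)]⟩,⟨1,[(3,0),(4,0),(30,0)]⟩⟩,.o ⟨false,0,⟨0,[(7,
  0)]⟩,⟨3,[(4,1),(13,0),(0,0),(15,0)]⟩⟩,.o ⟨false,0,⟨0,[(26,0)]⟩,⟨0,[(0,0)]⟩⟩]⟩) (.I [0,0,-2,0,1,-2,
  -1] (.R ⟨1,true,false,false,[0,0,1],[0,1],[0,1,0,0,0,0,0,1],(⟨0,[(29,0)]⟩,⟨0,[(28,0)]⟩),(⟨0,[(33,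
  0)]⟩,⟨0,[(32,0)]⟩),⟨0,[(18,0)]⟩,.k,.k,.k,.k,(.x 0 ⟨3,[(2,1),(6,0),(0,1),(1,2),(13,0),(1,3),(1,7),
  (5,1),(2,0)]⟩ ⟨0,[(0,0)]⟩),.k,⟨true,0,⟨0,[(4,0)]⟩,⟨3,[(2,1),(7,1),(15,0),(0,0),(14,1)]⟩⟩,⟨false,1,
  ⟨1,[(23,1),(12,0),(4,0)]⟩,⟨0,[(26,0)]⟩⟩,⟨true,0,⟨0,[(44,0)]⟩,⟨0,[]⟩⟩,⟨false,1,⟨7,[(3,3),(7,3),(4,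
  1),(2,0),(0,0),(15,0),(5,1)]⟩,⟨0,[(12,0)]⟩⟩,⟨false,0,⟨0,[(40,0)]⟩,⟨3,[(15,1),(3,0),(0,0),(21,
  0)]⟩⟩,⟨true,0,⟨0,[(3,0)]⟩,⟨0,[(12,0),(26,0)]⟩⟩,[]⟩) (.Q [0,-1,0,1,0,0,-1,-1,0,1,-1] (.p false [0,
  0,1] [1] (⟨0,[(29,0)]⟩,⟨0,[(28,0)]⟩) .k 1 (⟨0,[]⟩,⟨0,[]⟩) .k .k) (.R ⟨2,true,false,false,[0,1],[1,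
  1,-1],[0,0,1,1],(⟨0,[]⟩,⟨0,[]⟩),(⟨0,[(29,0),(1,0)]⟩,⟨0,[(19,0)]⟩),⟨0,[]⟩,.k,.k,.k,.k,.k,.k,⟨true,
  0,⟨1,[(5,0),(4,0),(30,0)]⟩,⟨0,[(11,0)]⟩⟩,⟨false,0,⟨0,[(24,0)]⟩,⟨3,[(6,1),(13,0),(0,0),(15,0)]⟩⟩,
  ⟨false,1,⟨1,[(20,0),(0,0),(21,0)]⟩,⟨0,[]⟩⟩,⟨true,0,⟨0,[(0,0),(39,0)]⟩,⟨1,[(3,1),(1,1),(7,1),(23,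
  0),(4,0)]⟩⟩,⟨true,0,⟨0,[(41,0)]⟩,⟨0,[(40,0)]⟩⟩,⟨false,0,⟨0,[(0,0)]⟩,⟨2,[(5,0),(0,0),(3,0),(5,0),
  (8,0),(11,0)]⟩⟩,[]⟩) (.I [0,0,2,0,-1,2,1] (.R ⟨1,true,false,false,[0,0,1],[0,1],[0,1,0,0,0,0,0,1],
  (⟨0,[(31,0)]⟩,⟨0,[(30,0)]⟩),(⟨0,[(35,0)]⟩,⟨0,[(34,0)]⟩),⟨0,[(20,0)]⟩,.k,.k,.k,.k,(.x 1 ⟨0,[(0,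
  0)]⟩ ⟨3,[(18,1),(1,3),(0,0),(0,0),(11,3),(3,2),(4,3)]⟩),.k,⟨true,0,⟨0,[(6,0)]⟩,⟨3,[(4,1),(7,1),
  (15,0),(0,0),(14,1)]⟩⟩,⟨false,1,⟨1,[(25,1),(12,0),(4,0)]⟩,⟨0,[(28,0)]⟩⟩,⟨true,0,⟨0,[(46,0)]⟩,⟨0,
  []⟩⟩,⟨false,1,⟨7,[(5,3),(7,3),(4,1),(2,0),(0,0),(15,0),(5,1)]⟩,⟨0,[(14,0)]⟩⟩,⟨false,0,⟨0,[(42,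
  0)]⟩,⟨3,[(17,1),(3,0),(0,0),(21,0)]⟩⟩,⟨true,0,⟨0,[(5,0)]⟩,⟨0,[(14,0),(26,0)]⟩⟩,[]⟩) (.Q [0,0,0,2,
  0,0,1,1,0,-1,1] (.p true [0,0,1] [1] (⟨0,[(31,0)]⟩,⟨0,[(30,0)]⟩) .k 1 (⟨0,[]⟩,⟨0,[]⟩) .k .k) (.R
  ⟨1,true,false,false,[1,0,-1],[0,1],[1,1,0,-1,0,0,0,-1],(⟨0,[(31,0)]⟩,⟨0,[(32,0)]⟩),(⟨0,[(36,0)]⟩,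
  ⟨0,[(35,0)]⟩),⟨0,[(20,0)]⟩,.k,.k,.k,.k,(.r (-2) ⟨2,[(9,3),(7,0),(0,0),(25,0)]⟩ ⟨1,[(0,0),(3,0),(0,
  0),(6,0),(4,0)]⟩),.k,⟨true,1,⟨0,[(9,0),(32,0)]⟩,⟨0,[(0,0),(3,0),(33,0)]⟩⟩,⟨false,2,⟨3,[(8,1),(13,
  0),(0,0),(15,0),(4,3)]⟩,⟨0,[(4,0)]⟩⟩,⟨true,0,⟨0,[(42,0)]⟩,⟨0,[(43,0)]⟩⟩,⟨false,1,⟨10,[(0,5),(1,0),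
  (5,1),(8,3),(21,0),(5,7)]⟩,⟨0,[(4,0),(4,0)]⟩⟩,⟨false,0,⟨0,[]⟩,⟨1,[(22,0),(0,0),(21,0)]⟩⟩,⟨true,0,
  ⟨0,[(0,0)]⟩,⟨0,[(4,0),(4,0),(32,0)]⟩⟩,[]⟩) (.I [0,0,2,2,-1,0,0,-1] (.R ⟨1,true,false,false,[0,0,
  1],[0,1],[0,1,0,0,0,0,0,1],(⟨0,[(33,0)]⟩,⟨0,[(32,0)]⟩),(⟨0,[(37,0)]⟩,⟨0,[(36,0)]⟩),⟨0,[(22,0)]⟩,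
  .k,.k,.k,.k,(.r (-2) ⟨0,[(18,0),(0,0),(25,0)]⟩ ⟨0,[(0,0)]⟩),.k,⟨true,0,⟨0,[(8,0)]⟩,⟨3,[(6,1),(7,
  1),(15,0),(0,0),(14,1)]⟩⟩,⟨false,1,⟨1,[(27,1),(12,0),(4,0)]⟩,⟨0,[(30,0)]⟩⟩,⟨true,0,⟨0,[(48,0)]⟩,
  ⟨0,[]⟩⟩,⟨false,1,⟨7,[(7,3),(7,3),(4,1),(2,0),(0,0),(15,0),(5,1)]⟩,⟨0,[(16,0)]⟩⟩,⟨false,0,⟨0,[(44,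
  0)]⟩,⟨3,[(19,1),(3,0),(0,0),(21,0)]⟩⟩,⟨true,0,⟨0,[(7,0)]⟩,⟨1,[(1,0),(1,0),(12,0),(11,0)]⟩⟩,[]⟩)
  (.Q [0,0,-1,0,1,0,0,0,-1,0,0,-1] (.p false [0,0,0,0,1] [] (⟨0,[(26,0)]⟩,⟨0,[(25,0)]⟩) .k 0 (⟨0,
  []⟩,⟨0,[]⟩) .k .k) (.Q [-1,0,0,1,0,0,0,0,-1,0,0,-1] (.p false [0,0,0,0,1] [] (⟨0,[(27,0)]⟩,⟨0,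
  [(26,0)]⟩) .k 0 (⟨0,[]⟩,⟨0,[]⟩) .k .k) (.R ⟨2,true,false,true,[0,1],[0,0,0,0,1],[1,0,1],(⟨0,[]⟩,
  ⟨0,[]⟩),(⟨0,[(28,0)]⟩,⟨0,[(27,0)]⟩),⟨0,[]⟩,.k,.k,.k,(.r 0 ⟨7,[(8,3),(8,0),(2,4),(4,0),(0,0),(21,
  1)]⟩ ⟨2,[(2,0),(9,0),(12,0),(0,0)]⟩),.k,.k,⟨true,0,⟨0,[(41,0)]⟩,⟨0,[(50,0)]⟩⟩,⟨false,0,⟨0,[(26,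
  0)]⟩,⟨0,[(1,0)]⟩⟩,⟨false,1,⟨3,[(21,1),(3,0),(0,0),(21,0)]⟩,⟨0,[(46,0)]⟩⟩,⟨true,0,⟨0,[(26,0),(18,
  0)]⟩,⟨0,[(0,0)]⟩⟩,⟨true,0,⟨0,[]⟩,⟨0,[(50,0)]⟩⟩,⟨false,0,⟨0,[(26,0)]⟩,⟨2,[(0,1),(20,0),(3,0),(22,
  0)]⟩⟩,[]⟩) (.Q [-1,1,0,0,0,0,0,0,-1,0,0,-1] (.p false [0,0,0,0,1] [] (⟨0,[(28,0)]⟩,⟨0,[(27,0)]⟩)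
  .k 0 (⟨0,[]⟩,⟨0,[]⟩) .k .k) (.Q [0,0,0,0,0,-1,0,0,0,0,0,1] (.ed false [1,-1,0,0,1] .k) (.Q [0,0,
  -1,0,1,0,1,0,-1,0,1,-1] (.p true [0,0,1] [0,0,0,0,1] (⟨0,[(37,0)]⟩,⟨0,[(36,0)]⟩) .k 2 (⟨0,[(30,
  0)]⟩,⟨0,[(29,0)]⟩) .k (.r 0 ⟨0,[(9,1),(0,0),(9,1),(23,0),(4,1)]⟩ ⟨2,[(18,0),(0,1),(7,0),(0,0),(13,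
  0)]⟩)) (.S ⟨1,0,[1],[0,0,0,0,1],[1,1],(⟨0,[(31,0)]⟩,⟨0,[(30,0)]⟩),⟨0,[(1,0)]⟩,.k,(.r (-1) ⟨2,[(5,
  0),(9,0),(12,0),(0,0)]⟩ ⟨7,[(11,3),(8,0),(2,4),(4,0),(0,0),(21,1)]⟩),⟨true,0,⟨0,[(53,0)]⟩,⟨0,[]⟩⟩,
  ⟨false,1,⟨1,[(28,0),(0,0),(21,0)]⟩,⟨0,[]⟩⟩,⟨false,0,⟨0,[(49,0)]⟩,⟨3,[(24,1),(3,0),(0,0),(21,0)]⟩⟩,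
  ⟨true,0,⟨0,[(49,0)]⟩,⟨0,[(48,0)]⟩⟩,[.e ⟨true,0,⟨0,[(53,0)]⟩,⟨0,[(44,0)]⟩⟩ ⟨true,0,⟨0,[]⟩,⟨1,[(35,
  0),(0,0)]⟩⟩,.o ⟨false,1,⟨1,[(29,1),(15,0),(5,0)]⟩,⟨0,[(2,0)]⟩⟩,.a ⟨true,0,⟨0,[(29,0)]⟩,⟨0,[(0,0),
  (9,0)]⟩⟩ ⟨false,0,⟨0,[]⟩,⟨1,[(28,0),(0,0),(21,0)]⟩⟩ ⟨true,0,⟨0,[]⟩,⟨0,[(53,0)]⟩⟩,.o ⟨false,0,⟨5,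
  [(3,2),(4,0),(1,0),(0,1),(6,0),(10,2),(15,2)]⟩,⟨0,[(4,0)]⟩⟩]⟩) (.R ⟨1,false,false,false,[0,0,0,0,
  1],[0,1],[1,1],(⟨0,[(31,0)]⟩,⟨0,[(30,0)]⟩),(⟨0,[(42,0)]⟩,⟨0,[(41,0)]⟩),⟨0,[(1,0)]⟩,.k,.k,(.r (-1)
  ⟨2,[(5,0),(9,0),(12,0),(0,0)]⟩ ⟨7,[(11,3),(8,0),(2,4),(4,0),(0,0),(21,1)]⟩),(.r (-1) ⟨2,[(5,0),(9,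
  0),(12,0),(0,0)]⟩ ⟨7,[(11,3),(8,0),(2,4),(4,0),(0,0),(21,1)]⟩),(.r (-2) ⟨2,[(5,1),(9,1),(12,1),(0,
  1)]⟩ ⟨0,[(0,1),(1,1),(8,1),(9,1),(22,1),(5,2)]⟩),.k,⟨false,1,⟨11,[(5,3),(9,3),(12,0),(0,0),(13,5),
  (6,2)]⟩,⟨2,[(11,0),(6,0),(30,0),(1,0)]⟩⟩,⟨true,1,⟨0,[(4,0)]⟩,⟨0,[(0,0),(34,0)]⟩⟩,⟨true,0,⟨0,[(53,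
  0)]⟩,⟨0,[]⟩⟩,⟨false,1,⟨6,[(2,0),(1,5),(6,1),(6,1),(30,2),(1,2)]⟩,⟨0,[(3,0)]⟩⟩,⟨false,0,⟨0,[(49,
  0)]⟩,⟨3,[(24,1),(3,0),(0,0),(21,0)]⟩⟩,⟨false,1,⟨2,[(4,2),(6,0),(6,0),(30,3),(1,0)]⟩,⟨0,[(0,0),(14,
  0),(5,0)]⟩⟩,[.a ⟨true,0,⟨0,[(49,0)]⟩,⟨9,[(6,3),(2,1),(11,1),(10,1),(0,1),(4,1),(2,3),(8,0),(0,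
  0)]⟩⟩ ⟨true,0,⟨0,[(53,0)]⟩,⟨0,[(44,0)]⟩⟩ ⟨false,1,⟨0,[(4,0),(44,0)]⟩,⟨10,[(0,3),(2,6),(10,0),(0,
  1),(5,1),(4,0),(0,0),(11,1),(10,0)]⟩⟩,.o ⟨false,1,⟨1,[(45,0),(3,1),(1,0)]⟩,⟨0,[(48,0)]⟩⟩,.e
  ⟨false,0,⟨0,[]⟩,⟨1,[(28,0),(0,0),(21,0)]⟩⟩ ⟨false,1,⟨2,[(4,2),(6,0),(6,0),(30,0),(1,0)]⟩,⟨10,[(0,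
  3),(2,6),(10,0),(0,1),(5,1),(4,0),(0,0),(11,1),(10,0)]⟩⟩,.o ⟨false,0,⟨3,[(0,2),(13,1),(14,0),(6,
  0),(8,0)]⟩,⟨0,[(4,0)]⟩⟩]⟩)) (.Q [-1,0,0,0,0,0,0,0,-1,1,0,-1] (.p false [0,0,0,0,1] [1] (⟨0,[(30,
  0)]⟩,⟨0,[(29,0)]⟩) .k 1 (⟨0,[]⟩,⟨0,[]⟩) .k .k) (.S ⟨1,0,[-1,1],[1,0,0,0,-1],[-1],(⟨0,[(30,0)]⟩,⟨0,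
  [(31,0)]⟩),⟨0,[(1,0),(24,0),(0,0)]⟩,.k,(.r (-1) ⟨1,[(6,1),(3,3),(0,3),(9,5),(23,2),(4,6)]⟩ ⟨3,
  [(11,1),(11,1),(4,0),(0,0),(21,0)]⟩),⟨false,1,⟨1,[(28,0),(0,0),(21,0)]⟩,⟨0,[]⟩⟩,⟨true,0,⟨0,[(53,
  0)]⟩,⟨0,[]⟩⟩,⟨true,0,⟨0,[(49,0)]⟩,⟨0,[(48,0)]⟩⟩,⟨false,0,⟨0,[(49,0)]⟩,⟨3,[(24,1),(3,0),(0,0),(21,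
  0)]⟩⟩,[.o ⟨false,0,⟨0,[(2,0)]⟩,⟨1,[(29,1),(15,0),(5,0)]⟩⟩,.e ⟨false,1,⟨0,[(44,0),(5,0)]⟩,⟨0,[(53,
  0)]⟩⟩ ⟨false,1,⟨3,[(20,0),(2,0),(4,0),(0,0),(20,1)]⟩,⟨0,[]⟩⟩,.a ⟨true,0,⟨0,[(0,0)]⟩,⟨0,[(29,0)]⟩⟩
  ⟨false,1,⟨3,[(20,0),(2,0),(4,0),(0,0),(21,1)]⟩,⟨0,[]⟩⟩ ⟨true,0,⟨0,[(53,0)]⟩,⟨0,[]⟩⟩,.o ⟨false,0,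
  ⟨0,[(2,0),(41,0)]⟩,⟨1,[(29,1),(15,0),(4,0)]⟩⟩]⟩) (.R ⟨0,false,false,false,[0,0,0,0,1],[0,1],[1,1],
  (⟨0,[(31,0)]⟩,⟨0,[(30,0)]⟩),(⟨0,[(42,0)]⟩,⟨0,[(41,0)]⟩),⟨0,[(1,0)]⟩,.k,.k,(.r (-1) ⟨2,[(5,0),(9,
  0),(12,0),(0,0)]⟩ ⟨7,[(11,3),(8,0),(2,4),(4,0),(0,0),(21,1)]⟩),(.r (-1) ⟨2,[(5,0),(9,0),(12,0),(0,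
  0)]⟩ ⟨7,[(11,3),(8,0),(2,4),(4,0),(0,0),(21,1)]⟩),.k,.k,⟨false,1,⟨11,[(5,3),(9,3),(12,0),(0,0),
  (13,5),(6,2)]⟩,⟨2,[(11,0),(6,0),(30,0),(1,0)]⟩⟩,⟨true,1,⟨0,[(4,0)]⟩,⟨1,[(3,0),(4,0),(1,0),(0,0),
  (17,0),(14,0)]⟩⟩,⟨true,0,⟨0,[(53,0)]⟩,⟨0,[]⟩⟩,⟨false,1,⟨6,[(2,0),(1,5),(6,1),(6,1),(30,2),(1,2)]⟩,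
  ⟨0,[(3,0)]⟩⟩,⟨false,0,⟨0,[]⟩,⟨0,[]⟩⟩,⟨false,0,⟨0,[]⟩,⟨0,[]⟩⟩,[.a ⟨true,0,⟨0,[(49,0)]⟩,⟨9,[(6,3),
  (2,1),(11,1),(10,1),(0,1),(4,1),(2,3),(8,0),(0,0)]⟩⟩ ⟨true,0,⟨0,[(53,0)]⟩,⟨0,[(44,0)]⟩⟩ ⟨false,1,
  ⟨0,[(4,0),(44,0)]⟩,⟨11,[(0,2),(2,8),(2,0),(14,0),(4,1),(0,1),(11,3)]⟩⟩,.o ⟨false,1,⟨1,[(45,0),(3,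
  1),(1,0)]⟩,⟨0,[(48,0)]⟩⟩,.e ⟨false,0,⟨0,[]⟩,⟨1,[(28,0),(0,0),(21,0)]⟩⟩ ⟨false,1,⟨2,[(4,2),(6,0),
  (6,0),(30,0),(1,0)]⟩,⟨11,[(0,2),(2,8),(2,0),(14,0),(4,1),(0,1),(11,3)]⟩⟩,.o ⟨false,0,⟨19,[(0,5),
  (2,8),(4,2),(2,5),(2,0),(3,2),(10,4),(6,4),(8,4)]⟩,⟨0,[(4,0)]⟩⟩]⟩))) (.R ⟨2,true,false,false,[0,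
  1],[0,0,0,0,1],[1,0,1],(⟨0,[]⟩,⟨0,[]⟩),(⟨0,[(29,0)]⟩,⟨0,[(28,0)]⟩),⟨0,[]⟩,.k,.k,.k,(.r 0 ⟨7,[(9,
  3),(8,0),(2,4),(4,0),(0,0),(21,1)]⟩ ⟨2,[(3,0),(9,0),(12,0),(0,0)]⟩),.k,.k,⟨true,0,⟨1,[(33,0),(0,
  0)]⟩,⟨0,[]⟩⟩,⟨false,0,⟨0,[(27,0)]⟩,⟨0,[(2,0)]⟩⟩,⟨false,1,⟨3,[(22,1),(3,0),(0,0),(21,0)]⟩,⟨0,[(47,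
  0)]⟩⟩,⟨true,0,⟨0,[(1,0)]⟩,⟨0,[(2,0),(6,0),(1,0)]⟩⟩,⟨true,0,⟨0,[]⟩,⟨0,[(51,0)]⟩⟩,⟨false,0,⟨0,[(0,
  0)]⟩,⟨1,[(2,0),(23,0),(23,0)]⟩⟩,[]⟩))) (.Q [0,0,0,1,0,0,2,2,0,-1,2] (.p true [0,0,1] [1,0,-1] (⟨0,
  [(34,0)]⟩,⟨0,[(33,0)]⟩) .k 2 (⟨0,[(33,0)]⟩,⟨0,[(34,0)]⟩) .k (.r 0 ⟨0,[(9,0),(4,0),(30,0)]⟩ ⟨2,[(7,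
  0),(3,1),(3,0),(0,1),(22,0)]⟩)) (.R ⟨1,true,false,false,[1,0,-1],[0,0,1],[1,1,0,-1,0,0,0,-1],(⟨0,
  [(34,0)]⟩,⟨0,[(35,0)]⟩),(⟨0,[(35,0)]⟩,⟨0,[(34,0)]⟩),⟨0,[(23,0)]⟩,.k,.k,.k,.k,(.r (-2) ⟨4,[(3,0),
  (7,0),(0,2),(4,4),(7,0),(0,0),(4,0),(8,1)]⟩ ⟨0,[(0,0),(6,0),(6,0)]⟩),.k,⟨false,1,⟨2,[(3,0),(1,0),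
  (2,1),(3,3),(27,0),(6,0)]⟩,⟨1,[(0,1),(6,0),(6,1),(14,0),(18,0)]⟩⟩,⟨true,1,⟨0,[(11,0)]⟩,⟨0,[(7,0),
  (6,0)]⟩⟩,⟨true,0,⟨0,[(45,0)]⟩,⟨0,[(46,0)]⟩⟩,⟨false,1,⟨6,[(0,5),(10,0),(8,1),(0,2),(26,2)]⟩,⟨0,[(3,
  0),(5,0)]⟩⟩,⟨false,0,⟨0,[]⟩,⟨1,[(25,0),(0,0),(21,0)]⟩⟩,⟨true,0,⟨0,[(0,0)]⟩,⟨7,[(3,6),(4,0),(0,1),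
  (7,0),(4,0),(8,4),(8,1)]⟩⟩,[]⟩) (.I [1,1,2,1,-2,0,0,2] (.Q [-1,-1,0,0,1,0,0,0,-1,1,0,-1] (.p
  false [0,0,0,0,1] [1] (⟨0,[(29,0)]⟩,⟨0,[(28,0)]⟩) .k 1 (⟨0,[]⟩,⟨0,[]⟩) .k .k) (.Q [0,0,0,2,0,0,2,
  2,0,-1,2] (.p true [0,0,1] [1,0,-1] (⟨0,[(37,0)]⟩,⟨0,[(36,0)]⟩) .k 2 (⟨0,[(36,0)]⟩,⟨0,[(37,0)]⟩)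
  .k (.r 0 ⟨10,[(1,3),(2,1),(12,7),(4,3),(26,5)]⟩ ⟨2,[(2,0),(7,0),(2,0),(0,0),(4,1),(22,0)]⟩)) (.R
  ⟨1,true,false,true,[1,0,-1],[0,1,1],[0,0,0,0,0,0,0,-1],(⟨0,[(37,0)]⟩,⟨0,[(38,0)]⟩),(⟨0,[(38,0),(0,
  0)]⟩,⟨0,[(26,0)]⟩),⟨0,[(26,0)]⟩,.k,.k,.k,(.r (-2) ⟨2,[(3,0),(10,0),(0,1),(4,1),(7,0),(0,0),(13,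
  0)]⟩ ⟨1,[(2,1),(47,0),(0,0)]⟩),(.r (-2) ⟨0,[(3,1),(7,1),(9,3),(23,0),(4,2)]⟩ ⟨19,[(0,8),(1,5),(8,
  7),(6,11),(4,5),(1,8)]⟩),.k,⟨true,2,⟨0,[(15,0),(4,0)]⟩,⟨0,[(2,0)]⟩⟩,⟨false,2,⟨0,[(14,0),(35,0)]⟩,
  ⟨0,[(10,0),(6,0)]⟩⟩,⟨false,1,⟨1,[(28,0),(0,0),(21,0)]⟩,⟨0,[]⟩⟩,⟨true,0,⟨16,[(0,9),(1,0),(5,3),(5,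
  0),(18,7),(9,1),(1,0)]⟩,⟨0,[(3,0)]⟩⟩,⟨true,0,⟨0,[(49,0)]⟩,⟨0,[(48,0)]⟩⟩,⟨false,0,⟨0,[(0,0)]⟩,⟨4,
  [(3,3),(16,1),(3,2),(0,0)]⟩⟩,[]⟩) (.Q [0,0,0,0,0,1,0,0,0,-1,0,1] (.ed false [0,1,0,0,1] .k) (.Q
  [0,0,0,0,1,0,1,0,-1,0,1,-1] (.p true [0,0,1] [0,0,0,0,1] (⟨0,[(39,0)]⟩,⟨0,[(38,0)]⟩) .k 2 (⟨0,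
  [(32,0)]⟩,⟨0,[(31,0)]⟩) .k (.r 0 ⟨0,[(1,1),(1,1),(8,2),(9,3),(22,1),(0,0),(4,5)]⟩ ⟨2,[(2,0),(12,
  0),(5,0),(8,0),(4,1)]⟩)) (.S ⟨1,0,[1],[0,0,0,0,1],[1,1],(⟨0,[(33,0)]⟩,⟨0,[(32,0)]⟩),⟨0,[(1,0),(26,
  0),(0,0)]⟩,.k,(.r (-1) ⟨2,[(7,0),(9,0),(12,0),(0,0)]⟩ ⟨9,[(3,0),(9,3),(0,0),(1,0),(8,4),(5,0),(6,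
  0),(14,1),(0,0)]⟩),⟨true,0,⟨0,[(55,0)]⟩,⟨0,[]⟩⟩,⟨false,1,⟨1,[(30,0),(0,0),(21,0)]⟩,⟨0,[]⟩⟩,⟨false,
  0,⟨0,[(51,0)]⟩,⟨3,[(26,1),(3,0),(0,0),(21,0)]⟩⟩,⟨true,0,⟨0,[(51,0)]⟩,⟨0,[(50,0)]⟩⟩,[.o ⟨false,0,
  ⟨1,[(6,1),(40,0),(4,0)]⟩,⟨15,[(0,5),(1,1),(0,3),(0,1),(9,1),(0,1),(14,5),(16,2),(4,0)]⟩⟩,.a ⟨true,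
  0,⟨1,[(6,1),(45,0),(0,0)]⟩,⟨0,[(0,0),(1,0),(1,0),(8,0),(9,0),(28,1)]⟩⟩ ⟨true,0,⟨0,[]⟩,⟨1,[(37,0),
  (0,0)]⟩⟩ ⟨false,1,⟨1,[(52,0),(0,0)]⟩,⟨0,[(55,0)]⟩⟩,.o ⟨false,0,⟨1,[(6,1),(40,0),(4,0)]⟩,⟨0,[(30,
  0)]⟩⟩,.e ⟨false,1,⟨1,[(30,0),(0,0),(20,0)]⟩,⟨0,[(46,0)]⟩⟩ ⟨false,1,⟨1,[(52,0),(0,0)]⟩,⟨1,[(37,0),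
  (0,0)]⟩⟩]⟩) (.R ⟨0,false,false,true,[1,0,0,0,-1],[1,-1],[1,1],(⟨0,[(32,0)]⟩,⟨0,[(33,0)]⟩),(⟨0,
  [(43,0)]⟩,⟨0,[(44,0)]⟩),⟨0,[(1,0)]⟩,.k,.k,(.r (-1) ⟨23,[(3,1),(22,11),(4,1),(15,0),(0,5),(3,8),(2,
  1)]⟩ ⟨5,[(3,0),(9,1),(0,0),(1,0),(3,0),(4,1),(5,0),(6,0)]⟩),(.r 0 ⟨9,[(3,0),(9,3),(0,0),(1,0),(8,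
  4),(5,0),(6,0),(14,1),(0,0)]⟩ ⟨2,[(7,0),(9,0),(12,0),(0,0)]⟩),.k,.k,⟨false,0,⟨0,[(51,0)]⟩,⟨2,[(7,
  0),(9,0),(12,0),(0,0)]⟩⟩,⟨true,(-1),⟨0,[(6,0)]⟩,⟨0,[(30,0)]⟩⟩,⟨false,0,⟨0,[]⟩,⟨7,[(3,1),(26,1),(0,
  3),(15,0),(5,2)]⟩⟩,⟨true,(-1),⟨4,[(0,4),(1,0),(7,0),(2,2),(3,1),(5,5),(21,1),(6,0)]⟩,⟨0,[(30,0),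
  (20,0)]⟩⟩,⟨false,0,⟨0,[]⟩,⟨0,[]⟩⟩,⟨false,0,⟨0,[]⟩,⟨0,[]⟩⟩,[.o ⟨false,0,⟨0,[(50,0)]⟩,⟨1,[(47,0),(3,
  1),(1,0)]⟩⟩,.a ⟨true,0,⟨10,[(3,0),(4,3),(2,1),(11,2),(7,0),(2,1),(0,0),(4,1),(2,3),(8,0)]⟩,⟨0,
  [(51,0)]⟩⟩ ⟨true,0,⟨0,[]⟩,⟨1,[(37,0),(0,0)]⟩⟩ ⟨false,0,⟨1,[(0,0),(5,0),(10,0),(5,0),(28,0)]⟩,⟨0,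
  [(30,0),(20,0)]⟩⟩,.o ⟨false,1,⟨0,[(30,0)]⟩,⟨2,[(0,1),(15,0),(14,0),(15,0)]⟩⟩,.e ⟨false,1,⟨1,[(30,
  0),(0,0),(20,0)]⟩,⟨0,[(46,0)]⟩⟩ ⟨false,0,⟨1,[(0,0),(5,0),(10,0),(5,0),(28,0)]⟩,⟨10,[(3,0),(0,0),
  (8,2),(0,1),(1,0),(3,2),(9,9),(22,3)]⟩⟩]⟩)) (.Q [0,0,0,0,1,0,1,0,-1,0,1,-1] (.p true [0,0,1] [0,0,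
  0,0,1] (⟨0,[(39,0)]⟩,⟨0,[(38,0)]⟩) .k 2 (⟨0,[(32,0)]⟩,⟨0,[(31,0)]⟩) .k (.r 0 ⟨0,[(1,1),(1,1),(8,
  2),(9,3),(22,1),(0,0),(4,5)]⟩ ⟨2,[(2,0),(12,0),(5,0),(8,0),(4,1)]⟩)) (.S ⟨1,0,[-1,1],[1,0,0,0,-1],
  [-1],(⟨0,[(32,0)]⟩,⟨0,[(33,0)]⟩),⟨0,[(1,0)]⟩,.k,(.r (-1) ⟨23,[(3,1),(22,11),(4,1),(15,0),(0,5),(3,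
  8),(2,1)]⟩ ⟨5,[(3,0),(9,1),(0,0),(1,0),(3,0),(4,1),(5,0),(6,0)]⟩),⟨false,1,⟨1,[(30,0),(0,0),(21,
  0)]⟩,⟨0,[]⟩⟩,⟨true,0,⟨0,[(55,0)]⟩,⟨0,[]⟩⟩,⟨true,0,⟨0,[(51,0)]⟩,⟨0,[(50,0)]⟩⟩,⟨false,0,⟨0,[(51,
  0)]⟩,⟨3,[(26,1),(3,0),(0,0),(21,0)]⟩⟩,[.a ⟨true,0,⟨0,[(0,0),(1,0),(1,0),(8,0),(9,0),(28,1)]⟩,⟨1,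
  [(6,1),(45,0),(0,0)]⟩⟩ ⟨false,1,⟨3,[(22,0),(2,0),(4,0),(0,0),(20,1)]⟩,⟨0,[]⟩⟩ ⟨true,0,⟨0,[(55,
  0)]⟩,⟨0,[(46,0)]⟩⟩,.o ⟨false,1,⟨15,[(0,5),(1,1),(0,3),(0,1),(9,1),(0,1),(14,5),(16,2),(4,0)]⟩,⟨1,
  [(6,1),(40,0),(4,0)]⟩⟩,.o ⟨false,1,⟨0,[(30,0)]⟩,⟨1,[(6,1),(40,0),(4,0)]⟩⟩,.e ⟨false,1,⟨0,[(46,0),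
  (5,0)]⟩,⟨1,[(37,0),(0,0)]⟩⟩ ⟨false,1,⟨3,[(22,0),(2,0),(4,0),(0,0),(20,1)]⟩,⟨0,[(46,0)]⟩⟩]⟩) (.R
  ⟨1,true,false,false,[1,0,0,0,-1],[1,1,-1],[-1,1],(⟨0,[(32,0)]⟩,⟨0,[(33,0)]⟩),(⟨0,[(39,0),(1,0)]⟩,
  ⟨0,[(29,0)]⟩),⟨0,[(1,0)]⟩,.k,.k,(.r (-1) ⟨23,[(3,1),(22,11),(4,1),(15,0),(0,5),(3,8),(2,1)]⟩ ⟨5,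
  [(3,0),(9,1),(0,0),(1,0),(3,0),(4,1),(5,0),(6,0)]⟩),(.r (-1) ⟨7,[(7,2),(17,4),(0,0),(3,0),(0,0),
  (20,0),(0,1)]⟩ ⟨5,[(3,0),(9,2),(2,0),(5,0),(8,0),(4,1)]⟩),(.r (-2) ⟨1,[(7,0),(17,0),(0,0),(3,0),
  (0,0),(20,0)]⟩ ⟨0,[(13,0)]⟩),.k,⟨true,0,⟨1,[(2,1),(1,1),(8,1),(9,3),(23,0),(4,4)]⟩,⟨3,[(13,1),(7,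
  1),(15,0),(0,0),(14,1)]⟩⟩,⟨false,0,⟨0,[(0,0),(51,0)]⟩,⟨0,[(30,0),(6,0)]⟩⟩,⟨true,0,⟨0,[(55,0)]⟩,⟨0,
  []⟩⟩,⟨false,0,⟨3,[(0,2),(12,0),(0,0),(7,1),(8,0),(20,0),(0,0)]⟩,⟨0,[(3,0),(6,0)]⟩⟩,⟨false,0,⟨0,
  [(51,0)]⟩,⟨3,[(26,1),(3,0),(0,0),(21,0)]⟩⟩,⟨true,(-1),⟨0,[(0,0),(12,0),(38,0)]⟩,⟨2,[(3,1),(4,0),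
  (1,2),(19,0),(4,0),(14,0)]⟩⟩,[]⟩)))) (.Q [0,0,0,2,0,0,2,2,0,-1,2] (.p true [0,0,1] [1,0,-1] (⟨0,
  [(37,0)]⟩,⟨0,[(36,0)]⟩) .k 2 (⟨0,[(36,0)]⟩,⟨0,[(37,0)]⟩) .k (.r 0 ⟨10,[(1,3),(2,1),(12,7),(4,3),
  (26,5)]⟩ ⟨2,[(2,0),(7,0),(2,0),(0,0),(4,1),(22,0)]⟩)) (.R ⟨1,true,false,true,[1,0,-1],[0,1,1],[0,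
  0,0,0,0,0,0,-1],(⟨0,[(37,0)]⟩,⟨0,[(38,0)]⟩),(⟨0,[(38,0),(0,0)]⟩,⟨0,[(26,0)]⟩),⟨0,[(26,0)]⟩,.k,.k,
  .k,(.r (-2) ⟨2,[(3,0),(10,0),(0,1),(4,1),(7,0),(0,0),(13,0)]⟩ ⟨1,[(2,1),(47,0),(0,0)]⟩),(.r (-2)
  ⟨0,[(3,1),(7,1),(9,3),(23,0),(4,2)]⟩ ⟨19,[(0,8),(1,5),(8,7),(6,11),(4,5),(1,8)]⟩),.k,⟨true,2,⟨0,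
  [(15,0),(4,0)]⟩,⟨0,[(2,0)]⟩⟩,⟨false,2,⟨0,[(14,0),(35,0)]⟩,⟨0,[(10,0),(6,0)]⟩⟩,⟨false,1,⟨1,[(28,0),
  (0,0),(21,0)]⟩,⟨0,[]⟩⟩,⟨true,0,⟨16,[(0,9),(1,0),(5,3),(5,0),(18,7),(9,1),(1,0)]⟩,⟨0,[(3,0)]⟩⟩,
  ⟨true,0,⟨0,[(49,0)]⟩,⟨0,[(48,0)]⟩⟩,⟨false,0,⟨0,[(0,0)]⟩,⟨4,[(3,3),(16,1),(3,2),(0,0)]⟩⟩,[]⟩) (.Q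
  [1,0,0,0,-1,0,0,0,1,0,0,1] (.p true [0,0,0,0,1] [] (⟨0,[(31,0)]⟩,⟨0,[(30,0)]⟩) .k 0 (⟨0,[]⟩,⟨0,
  []⟩) .k .k) (.R ⟨2,true,false,false,[0,1],[0,0,0,0,1],[1],(⟨0,[]⟩,⟨0,[]⟩),(⟨0,[(32,0)]⟩,⟨0,[(31,
  0)]⟩),⟨0,[]⟩,.k,.k,.k,(.r 0 ⟨7,[(12,3),(8,0),(2,4),(4,0),(0,0),(21,1)]⟩ ⟨2,[(6,0),(9,0),(12,0),(0,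
  0)]⟩),.k,.k,⟨false,1,⟨1,[(29,0),(0,0),(20,0)]⟩,⟨0,[]⟩⟩,⟨true,(-1),⟨0,[(5,0)]⟩,⟨0,[(29,0)]⟩⟩,⟨true,
  1,⟨2,[(6,0),(9,0),(12,0),(0,0)]⟩,⟨0,[(12,0),(1,0)]⟩⟩,⟨false,0,⟨3,[(0,2),(24,1),(4,0),(21,0)]⟩,⟨0,
  [(29,0),(20,0)]⟩⟩,⟨false,1,⟨1,[(51,0),(0,0)]⟩,⟨1,[(36,0),(0,0)]⟩⟩,⟨true,(-1),⟨0,[(0,0)]⟩,⟨0,[(29,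
  0),(24,0)]⟩⟩,[]⟩) (.R ⟨1,false,false,false,[1,0,-1],[1,0,0,0,-1],[1,1,0,-1,0,0,0,-1],(⟨0,[(38,
  0)]⟩,⟨0,[(39,0)]⟩),(⟨0,[(31,0)]⟩,⟨0,[(32,0)]⟩),⟨0,[(27,0)]⟩,.k,.k,.k,.k,(.r (-1) ⟨0,[(16,0)]⟩ ⟨3,
  [(12,0),(0,0),(5,1),(4,2),(9,0),(17,0)]⟩),.k,⟨true,0,⟨4,[(1,2),(7,2),(2,3),(3,0),(5,2),(21,0),(6,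
  2)]⟩,⟨16,[(3,6),(9,4),(5,1),(4,0),(9,4),(17,13),(0,0)]⟩⟩,⟨false,2,⟨1,[(15,0),(13,1),(8,0),(0,0),
  (11,0)]⟩,⟨0,[(2,0),(30,0),(11,0)]⟩⟩,⟨true,0,⟨0,[(49,0)]⟩,⟨0,[(50,0)]⟩⟩,⟨true,1,⟨0,[(0,0),(22,0)]⟩,
  ⟨4,[(2,2),(1,1),(0,1),(6,0),(20,0),(10,0),(6,0)]⟩⟩,⟨false,0,⟨0,[]⟩,⟨1,[(29,0),(0,0),(21,0)]⟩⟩,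
  ⟨true,1,⟨0,[(23,0),(5,0),(20,0)]⟩,⟨10,[(2,8),(1,1),(0,1),(1,4),(4,0),(3,0),(16,1),(10,0)]⟩⟩,[.o
  ⟨false,1,⟨0,[(0,0)]⟩,⟨3,[(2,1),(27,1),(15,0),(5,0)]⟩⟩,.o ⟨false,2,⟨3,[(21,0),(2,0),(4,4),(0,0),
  (21,1)]⟩,⟨0,[(2,0)]⟩⟩,.o ⟨false,0,⟨0,[(18,0)]⟩,⟨3,[(15,1),(13,0),(0,0),(15,0)]⟩⟩,.a ⟨true,(-1),⟨0,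
  [(11,0)]⟩,⟨1,[(15,0),(22,0),(0,0),(11,0)]⟩⟩ ⟨false,1,⟨0,[(16,0)]⟩,⟨0,[(19,0),(30,0)]⟩⟩ ⟨true,2,⟨5,
  [(15,2),(13,5),(8,1),(0,1),(0,0),(1,0),(8,2)]⟩,⟨0,[(2,0),(8,0)]⟩⟩]⟩)))) (.Q [1,-1,0,0,0,0,-1,-1,1,
  0,-1,1] (.p false [0,0,1] [0,0,0,0,1] (⟨0,[(36,0)]⟩,⟨0,[(35,0)]⟩) .k 2 (⟨0,[(29,0)]⟩,⟨0,[(28,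
  0)]⟩) .k (.r 0 ⟨0,[(8,1),(0,0),(9,1),(23,0),(4,1)]⟩ ⟨2,[(17,0),(0,1),(7,0),(0,0),(13,0)]⟩)) (.Q
  [0,0,0,0,1,0,1,0,-1,0,1,-1] (.p true [0,0,1] [0,0,0,0,1] (⟨0,[(37,0)]⟩,⟨0,[(36,0)]⟩) .k 2 (⟨0,
  [(30,0)]⟩,⟨0,[(29,0)]⟩) .k (.r 0 ⟨0,[(9,1),(0,0),(9,1),(23,0),(4,1)]⟩ ⟨2,[(18,0),(0,1),(7,0),(0,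
  0),(13,0)]⟩)) (.Q [1,1,0,0,-1,0,0,0,1,0,0,1] (.p true [0,0,0,0,1] [] (⟨0,[(31,0)]⟩,⟨0,[(30,0)]⟩)
  .k 0 (⟨0,[]⟩,⟨0,[]⟩) .k .k) (.K ⟨0,[0,0,0,0,1],(-1),(-1),(⟨0,[(32,0)]⟩,⟨0,[(31,0)]⟩),.k,(.r (-1)
  ⟨5,[(3,1),(2,0),(17,2),(0,0)]⟩ ⟨7,[(12,3),(8,0),(2,4),(4,0),(0,0),(21,1)]⟩),(.r 0 ⟨3,[(12,1),(11,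
  1),(4,0),(0,0),(21,0)]⟩ ⟨1,[(3,1),(5,1),(1,7),(0,3),(9,5),(23,2),(4,6)]⟩),.k,.k,[⟨0,[(1,0)]⟩,⟨0,
  [(5,0)]⟩,⟨0,[(29,0),(24,0)]⟩,⟨0,[(0,0)]⟩]⟩) (.K ⟨0,[1,0,0,0,-1],0,0,(⟨0,[(31,0)]⟩,⟨0,[(32,0)]⟩),
  .k,(.r (-1) ⟨0,[(0,2),(1,2),(0,0),(5,6),(1,6),(0,4),(9,2),(28,7)]⟩ ⟨3,[(12,1),(11,1),(4,0),(0,0),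
  (21,0)]⟩),(.r 0 ⟨7,[(12,3),(8,0),(2,4),(4,0),(0,0),(21,1)]⟩ ⟨5,[(3,1),(2,0),(17,2),(0,0)]⟩),.k,.k,
  [⟨0,[(2,0),(6,0),(2,0),(9,0),(28,0)]⟩,⟨0,[(1,0),(9,0)]⟩,⟨1,[(5,0),(24,0),(13,0),(1,0)]⟩,⟨3,[(0,1),
  (0,1),(1,0),(3,0),(4,5),(1,6),(7,1),(10,2)]⟩]⟩)) (.Q [0,0,0,0,0,1,0,0,0,0,0,-1] (.ed true [1,-1,0,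
  0,1] .k) (.R ⟨0,false,false,false,[0,0,0,0,1],[0,1],[],(⟨0,[(32,0)]⟩,⟨0,[(31,0)]⟩),(⟨0,[(43,0)]⟩,
  ⟨0,[(42,0)]⟩),⟨0,[(0,0)]⟩,.k,.k,(.r (-1) ⟨5,[(3,1),(2,0),(17,2),(0,0)]⟩ ⟨7,[(12,3),(8,0),(2,4),(4,
  0),(0,0),(21,1)]⟩),(.r (-1) ⟨5,[(3,1),(2,0),(17,2),(0,0)]⟩ ⟨7,[(12,3),(8,0),(2,4),(4,0),(0,0),(21,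
  1)]⟩),.k,.k,⟨true,1,⟨5,[(3,1),(2,0),(17,2),(0,0)]⟩,⟨2,[(9,0),(1,0),(0,1),(6,0)]⟩⟩,⟨false,2,⟨0,
  [(29,0),(21,0)]⟩,⟨0,[(5,0)]⟩⟩,⟨false,1,⟨3,[(21,0),(2,0),(4,0),(0,0),(21,1)]⟩,⟨0,[]⟩⟩,⟨true,1,⟨0,
  [(29,0),(20,0)]⟩,⟨3,[(1,3),(1,0),(3,0),(1,0),(2,1),(9,3),(21,1)]⟩⟩,⟨false,0,⟨0,[]⟩,⟨0,[]⟩⟩,⟨false,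
  0,⟨0,[]⟩,⟨0,[]⟩⟩,[.a ⟨true,0,⟨0,[(50,0)]⟩,⟨21,[(3,0),(3,7),(2,3),(11,4),(10,5),(0,4),(4,3),(2,7),
  (9,1)]⟩⟩ ⟨false,1,⟨1,[(29,0),(0,0),(20,0)]⟩,⟨0,[]⟩⟩ ⟨true,1,⟨0,[(29,0),(20,0)]⟩,⟨9,[(1,3),(1,0),
  (1,5),(1,2),(1,2),(2,1),(9,3),(22,1)]⟩⟩,.o ⟨false,1,⟨1,[(46,0),(3,1),(1,0)]⟩,⟨0,[(49,0)]⟩⟩,.o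
  ⟨false,0,⟨2,[(1,1),(13,0),(14,0),(15,0)]⟩,⟨0,[(29,0)]⟩⟩,.e ⟨false,1,⟨1,[(51,0),(0,0)]⟩,⟨1,[(36,0),
  (0,0)]⟩⟩ ⟨false,2,⟨1,[(29,1),(20,1),(0,0),(0,0)]⟩,⟨9,[(1,3),(1,0),(1,5),(1,2),(1,2),(2,1),(9,3),
  (22,1)]⟩⟩]⟩) (.R ⟨1,false,false,false,[0,0,0,0,1],[0,1],[],(⟨0,[(32,0)]⟩,⟨0,[(31,0)]⟩),(⟨0,[(43,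
  0)]⟩,⟨0,[(42,0)]⟩),⟨0,[(0,0)]⟩,.k,.k,(.r (-1) ⟨5,[(3,1),(2,0),(17,2),(0,0)]⟩ ⟨7,[(12,3),(8,0),(2,
  4),(4,0),(0,0),(21,1)]⟩),(.r (-1) ⟨5,[(3,1),(2,0),(17,2),(0,0)]⟩ ⟨7,[(12,3),(8,0),(2,4),(4,0),(0,
  0),(21,1)]⟩),(.r (-2) ⟨2,[(3,1),(2,0),(17,2),(0,0)]⟩ ⟨0,[(11,1),(0,1),(9,1),(23,0),(4,1)]⟩),.k,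
  ⟨true,1,⟨5,[(3,1),(2,0),(17,2),(0,0)]⟩,⟨2,[(9,0),(1,0),(0,1),(6,0)]⟩⟩,⟨false,2,⟨0,[(29,0),(21,
  0)]⟩,⟨0,[(5,0)]⟩⟩,⟨false,1,⟨3,[(21,0),(2,0),(4,0),(0,0),(21,1)]⟩,⟨0,[]⟩⟩,⟨true,1,⟨0,[(29,0),(20,
  0)]⟩,⟨3,[(1,3),(1,0),(3,0),(1,0),(2,1),(9,3),(21,1)]⟩⟩,⟨true,0,⟨1,[(11,1),(0,1),(9,1),(23,0),(4,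
  2)]⟩,⟨0,[(49,0)]⟩⟩,⟨true,1,⟨0,[(29,0),(20,1)]⟩,⟨1,[(1,1),(1,0),(3,0),(1,0),(2,1),(1,1),(7,1)]⟩⟩,
  [.a ⟨true,0,⟨0,[(50,0)]⟩,⟨21,[(3,0),(3,7),(2,3),(11,4),(10,5),(0,4),(4,3),(2,7),(9,1)]⟩⟩ ⟨false,1,
  ⟨1,[(29,0),(0,0),(20,0)]⟩,⟨0,[]⟩⟩ ⟨true,1,⟨0,[(29,0),(20,0)]⟩,⟨9,[(1,3),(1,0),(1,5),(1,2),(1,2),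
  (2,1),(9,3),(22,1)]⟩⟩,.o ⟨false,1,⟨1,[(46,0),(3,1),(1,0)]⟩,⟨0,[(49,0)]⟩⟩,.o ⟨false,0,⟨2,[(1,1),
  (13,0),(14,0),(15,0)]⟩,⟨0,[(29,0)]⟩⟩,.e ⟨false,1,⟨1,[(51,0),(0,0)]⟩,⟨1,[(36,0),(0,0)]⟩⟩ ⟨false,2,
  ⟨1,[(29,1),(20,1),(0,0),(0,0)]⟩,⟨9,[(1,3),(1,0),(1,5),(1,2),(1,2),(2,1),(9,3),(22,1)]⟩⟩]⟩))) (.Q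
  [2,-1,0,-1,0,0,0,0,2,-1,0,2] (.p true [0,0,0,0,1] [1,0,0,0,-1] (⟨0,[(30,0)]⟩,⟨0,[(29,0)]⟩) .k 2
  (⟨0,[(29,0)]⟩,⟨0,[(30,0)]⟩) .k (.r 0 ⟨0,[]⟩ ⟨0,[(1,1),(5,1),(1,9),(0,5),(9,7),(23,3),(4,8)]⟩))
  (.Q [1,-1,0,1,0,0,-1,-1,1,0,-1,1] (.p false [0,0,1] [0,0,0,0,1] (⟨0,[(38,0)]⟩,⟨0,[(37,0)]⟩) .k 2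
  (⟨0,[(31,0)]⟩,⟨0,[(30,0)]⟩) .k (.r 0 ⟨0,[(10,1),(0,0),(9,1),(23,0),(4,1)]⟩ ⟨2,[(19,0),(0,1),(7,0),
  (0,0),(13,0)]⟩)) (.R ⟨1,true,false,false,[0,0,1],[0,0,0,0,1],[1,0,0,-1,0,0,0,1],(⟨0,[(39,0)]⟩,⟨0,
  [(38,0)]⟩),(⟨0,[(32,0)]⟩,⟨0,[(31,0)]⟩),⟨0,[(28,0)]⟩,.k,.k,.k,.k,(.r (-1) ⟨17,[(3,1),(2,6),(17,14),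
  (0,0),(26,5)]⟩ ⟨5,[(12,2),(7,0),(0,1),(7,0),(0,0),(13,0)]⟩),.k,⟨true,0,⟨2,[(6,0),(2,0),(1,0),(7,
  0)]⟩,⟨5,[(12,2),(7,0),(0,1),(7,0),(0,0),(13,0)]⟩⟩,⟨false,0,⟨0,[(0,0),(13,0)]⟩,⟨16,[(2,9),(0,3),(6,
  0),(1,1),(2,1),(13,6),(6,1),(2,0),(2,1),(9,2)]⟩⟩,⟨false,1,⟨3,[(25,1),(3,0),(0,0),(21,0)]⟩,⟨0,[(50,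
  0)]⟩⟩,⟨true,0,⟨6,[(0,1),(0,0),(2,0),(25,2),(4,2)]⟩,⟨0,[(2,0)]⟩⟩,⟨true,0,⟨0,[]⟩,⟨0,[(54,0)]⟩⟩,
  ⟨false,0,⟨0,[(0,0)]⟩,⟨3,[(2,2),(22,1),(3,0),(4,0),(17,0)]⟩⟩,[]⟩) (.K ⟨0,[1,0,0,0,-1],0,0,(⟨0,[(31,
  0)]⟩,⟨0,[(32,0)]⟩),.k,(.r (-1) ⟨0,[(0,7),(0,3),(1,0),(7,7),(0,5),(32,2),(0,1),(4,10)]⟩ ⟨3,[(12,1),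
  (11,1),(4,0),(0,0),(21,0)]⟩),(.r 0 ⟨7,[(12,3),(8,0),(2,4),(4,0),(0,0),(21,1)]⟩ ⟨5,[(3,1),(2,0),
  (17,2),(0,0)]⟩),.k,.k,[⟨0,[(0,0),(0,0),(10,0),(38,0)]⟩,⟨14,[(2,9),(1,3),(5,2),(0,4),(0,1),(16,4),
  (9,2),(2,5),(9,4)]⟩,⟨11,[(1,4),(7,0),(2,2),(11,1),(5,1),(6,0),(6,6),(1,2)]⟩,⟨119,[(2,104),(0,2),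
  (0,38),(7,20),(16,14),(3,79),(2,52),(3,0),(1,0),(1,8)]⟩]⟩)) (.R ⟨2,true,false,false,[0,1],[0,0,0,
  0,1],[2,0,1],(⟨0,[]⟩,⟨0,[]⟩),(⟨0,[(31,0)]⟩,⟨0,[(30,0)]⟩),⟨0,[]⟩,.k,.k,.k,(.r 0 ⟨7,[(11,3),(8,0),
  (2,4),(4,0),(0,0),(21,1)]⟩ ⟨5,[(2,1),(2,0),(17,2),(0,0)]⟩),.k,.k,⟨false,0,⟨0,[]⟩,⟨1,[(28,0),(0,0),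
  (20,0)]⟩⟩,⟨true,(-1),⟨0,[(4,0)]⟩,⟨0,[(28,0)]⟩⟩,⟨false,1,⟨3,[(24,1),(3,0),(0,0),(21,0)]⟩,⟨1,[(0,1),
  (3,3),(39,1),(0,0),(4,2)]⟩⟩,⟨true,0,⟨17,[(2,0),(1,5),(0,1),(0,2),(1,2),(15,1),(4,11)]⟩,⟨1,[(0,0),
  (7,0),(3,0)]⟩⟩,⟨true,0,⟨0,[]⟩,⟨0,[(53,0)]⟩⟩,⟨false,0,⟨1,[(4,1),(45,0),(0,0)]⟩,⟨14,[(0,1),(23,0),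
  (3,10),(16,0),(5,1),(1,2)]⟩⟩,[]⟩))))))))))))) (.Q [0,0,0,0,0,-2,0,0,0,0,1] (.p true [0,0,1] []
  (⟨0,[(26,0)]⟩,⟨0,[(25,0)]⟩) .k 0 (⟨0,[]⟩,⟨0,[]⟩) .k .k) (.Q [0,0,2,1,0,0,1,0,0,-1,1] (.p true [0,
  0,1] [1] (⟨0,[(27,0)]⟩,⟨0,[(26,0)]⟩) .k 1 (⟨0,[]⟩,⟨0,[]⟩) .k .k) (.Q [0,1,0,-1,0,0,1,1,0,-1,1]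
  (.p true [0,0,1] [1] (⟨0,[(28,0)]⟩,⟨0,[(27,0)]⟩) .k 1 (⟨0,[]⟩,⟨0,[]⟩) .k .k) (.I [0,-1,-2,-1,1,0,
  0,1] (.S ⟨1,0,[0,1,-1,-1,0,0,0,1],[0,-1,1],[0,0,-1,-1,0,0,0,1],(⟨0,[(19,0)]⟩,⟨0,[(29,0),(1,0)]⟩),
  ⟨0,[(3,0)]⟩,.k,(.r (-1) ⟨3,[(0,1),(4,2),(1,0),(8,0)]⟩ ⟨2,[(2,0),(8,2),(5,0),(9,0),(13,4)]⟩),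
  ⟨false,1,⟨1,[(20,0),(0,0),(21,0)]⟩,⟨0,[]⟩⟩,⟨true,0,⟨0,[(45,0)]⟩,⟨0,[]⟩⟩,⟨true,0,⟨0,[(41,0)]⟩,⟨0,
  [(40,0)]⟩⟩,⟨false,0,⟨0,[(41,0)]⟩,⟨3,[(16,1),(3,0),(0,0),(21,0)]⟩⟩,[.o ⟨false,0,⟨0,[(1,0)]⟩,⟨0,
  [(26,0),(14,0),(1,0)]⟩⟩,.e ⟨false,1,⟨0,[(0,0)]⟩,⟨6,[(2,0),(8,7),(5,0),(7,0),(9,2),(5,5)]⟩⟩ ⟨false,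
  1,⟨6,[(0,4),(14,1),(0,0),(18,1),(6,0)]⟩,⟨0,[(11,0),(29,0)]⟩⟩,.a ⟨true,0,⟨0,[(27,0)]⟩,⟨0,[(24,
  0)]⟩⟩ ⟨false,1,⟨8,[(0,4),(9,0),(4,2),(0,1),(26,1)]⟩,⟨0,[(11,0),(29,0)]⟩⟩ ⟨true,0,⟨0,[(5,0)]⟩,⟨0,
  [(11,0),(29,0)]⟩⟩,.o ⟨false,0,⟨1,[(1,0),(0,0),(8,0),(24,0)]⟩,⟨1,[(24,1),(12,0),(4,0)]⟩⟩]⟩) (.Q [0,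
  -1,0,2,0,0,-1,-1,0,1,-1] (.p false [0,0,1] [1] (⟨0,[(30,0)]⟩,⟨0,[(29,0)]⟩) .k 1 (⟨0,[]⟩,⟨0,[]⟩)
  .k .k) (.S ⟨1,3,[],[0,-1,1],[0,0,-1,-1,0,0,0,1],(⟨0,[(20,0)]⟩,⟨0,[(30,0),(1,0)]⟩),⟨0,[(4,0)]⟩,.k,
  (.r (-1) ⟨1,[(5,1),(19,1),(12,0),(4,0)]⟩ ⟨1,[(0,0),(0,0),(1,0),(17,0),(0,0)]⟩),⟨false,1,⟨1,[(21,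
  0),(0,0),(21,0)]⟩,⟨0,[]⟩⟩,⟨true,0,⟨15,[(0,7),(0,3),(6,3),(9,2),(6,1),(4,2),(0,2),(4,1)]⟩,⟨0,[(2,
  0)]⟩⟩,⟨true,0,⟨0,[(42,0)]⟩,⟨0,[(41,0)]⟩⟩,⟨false,0,⟨0,[(0,0)]⟩,⟨5,[(2,2),(3,0),(0,0),(3,0),(5,3),
  (8,0),(11,0)]⟩⟩,[.fa ⟨false,1,⟨1,[(6,1),(36,0),(0,0)]⟩,⟨7,[(0,1),(0,2),(1,0),(3,0),(5,1),(13,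
  0)]⟩⟩ ⟨true,0,⟨0,[(25,0)]⟩,⟨4,[(1,0),(1,2),(1,1),(6,0),(24,0),(0,0)]⟩⟩,.a ⟨true,0,⟨0,[(0,0),(4,
  0)]⟩,⟨0,[(46,0)]⟩⟩ ⟨true,1,⟨0,[(6,0),(37,0)]⟩,⟨0,[(1,0)]⟩⟩ ⟨false,1,⟨1,[(25,1),(17,0),(0,0)]⟩,⟨16,
  [(1,5),(0,5),(0,2),(3,3),(28,0),(1,1),(2,2)]⟩⟩,.a ⟨true,0,⟨0,[(28,0)]⟩,⟨0,[(25,0)]⟩⟩ ⟨false,1,⟨0,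
  [(6,0),(37,0)]⟩,⟨7,[(0,1),(0,2),(1,0),(3,0),(5,1),(13,0)]⟩⟩ ⟨true,0,⟨0,[(25,0)]⟩,⟨16,[(1,5),(0,5),
  (0,2),(3,3),(28,0),(1,1),(2,2)]⟩⟩,.o ⟨false,0,⟨4,[(1,0),(1,2),(1,1),(6,0),(24,0),(0,0)]⟩,⟨1,[(25,
  1),(12,0),(4,0)]⟩⟩]⟩) (.Q [0,0,1,0,-1,0,-1,0,0,1,-1] (.p false [0,0,1] [1] (⟨0,[(31,0)]⟩,⟨0,[(30,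
  0)]⟩) .k 1 (⟨0,[]⟩,⟨0,[]⟩) .k .k) (.I [0,-1,0,1,0,0,0,1] (.S ⟨1,0,[0,0,0,0,0,0,0,-1],[1,0,-1],[1,
  1,0,-1,0,0,0,-1],(⟨0,[(32,0)]⟩,⟨0,[(33,0)]⟩),⟨0,[(21,0)]⟩,.k,.k,⟨true,0,⟨0,[(43,0)]⟩,⟨0,[(44,
  0)]⟩⟩,⟨false,1,⟨1,[(23,0),(0,0),(21,0)]⟩,⟨0,[]⟩⟩,⟨false,0,⟨0,[]⟩,⟨1,[(23,0),(0,0),(21,0)]⟩⟩,⟨true,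
  0,⟨0,[(44,0)]⟩,⟨0,[(43,0)]⟩⟩,[.e ⟨false,1,⟨8,[(3,0),(6,7),(12,1),(0,1),(13,2),(4,1)]⟩,⟨0,[(0,
  0)]⟩⟩ ⟨false,1,⟨2,[(3,0),(6,0),(4,0),(29,1)]⟩,⟨3,[(0,0),(7,0),(4,0),(4,0)]⟩⟩,.o ⟨false,1,⟨0,[(29,
  0),(16,0)]⟩,⟨0,[(4,0),(39,0)]⟩⟩,.o ⟨false,0,⟨0,[(12,0)]⟩,⟨3,[(9,1),(13,0),(0,0),(15,0)]⟩⟩,.a
  ⟨true,(-1),⟨0,[(1,0)]⟩,⟨1,[(9,0),(22,0),(0,0),(11,0)]⟩⟩ ⟨false,1,⟨0,[(10,0)]⟩,⟨5,[(0,3),(2,0),(1,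
  0),(7,1),(6,0),(7,0),(17,0)]⟩⟩ ⟨true,1,⟨2,[(3,0),(6,0),(4,0),(29,1)]⟩,⟨1,[(0,0),(0,0),(1,0),(0,0),
  (3,0)]⟩⟩]⟩) (.Q [0,0,0,0,0,0,1,1,-1,0,1,-1] (.p true [0,0,1] [0,0,0,0,1] (⟨0,[(33,0)]⟩,⟨0,[(32,
  0)]⟩) .k 2 (⟨0,[(26,0)]⟩,⟨0,[(25,0)]⟩) .k (.r 0 ⟨1,[(1,1),(5,1),(32,0),(3,3),(0,0)]⟩ ⟨4,[(3,0),(6,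
  0),(4,2),(7,1),(0,1),(13,0)]⟩)) (.Q [0,0,0,0,0,-1,0,0,0,0,0,1] (.ed false [1,-1,0,0,1] .k) (.S ⟨1,
  0,[1],[0,0,0,0,1],[1,1],(⟨0,[(28,0)]⟩,⟨0,[(27,0)]⟩),⟨0,[(0,0)]⟩,.k,(.r (-1) ⟨2,[(12,0),(7,0),(0,
  0),(25,0)]⟩ ⟨8,[(5,1),(1,1),(14,1),(7,1),(15,4),(1,1),(0,0)]⟩),⟨true,0,⟨0,[(50,0)]⟩,⟨0,[]⟩⟩,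
  ⟨false,1,⟨1,[(25,0),(0,0),(21,0)]⟩,⟨0,[]⟩⟩,⟨false,0,⟨0,[(46,0)]⟩,⟨3,[(21,1),(3,0),(0,0),(21,0)]⟩⟩,
  ⟨true,0,⟨0,[(46,0)]⟩,⟨0,[(45,0)]⟩⟩,[.e ⟨true,0,⟨0,[(50,0)]⟩,⟨0,[(41,0)]⟩⟩ ⟨true,0,⟨0,[]⟩,⟨1,[(32,
  0),(0,0)]⟩⟩,.o ⟨false,1,⟨1,[(26,1),(15,0),(5,0)]⟩,⟨4,[(1,4),(0,0),(0,1),(1,0),(25,2),(10,0),(4,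
  1)]⟩⟩,.a ⟨true,0,⟨0,[(26,0)]⟩,⟨2,[(1,2),(1,0),(1,0),(6,0),(4,0),(11,1)]⟩⟩ ⟨false,0,⟨0,[]⟩,⟨1,[(25,
  0),(0,0),(21,0)]⟩⟩ ⟨true,0,⟨0,[]⟩,⟨0,[(50,0)]⟩⟩,.e ⟨false,1,⟨1,[(25,0),(0,0),(20,0)]⟩,⟨0,[(41,
  0)]⟩⟩ ⟨false,1,⟨1,[(47,0),(0,0)]⟩,⟨1,[(32,0),(0,0)]⟩⟩]⟩) (.S ⟨1,0,[-1,1],[1,0,0,0,-1],[-1],(⟨0,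
  [(27,0)]⟩,⟨0,[(28,0)]⟩),⟨1,[(0,0),(7,0),(14,0),(3,0)]⟩,.k,(.r (-1) ⟨5,[(2,1),(0,1),(4,3),(0,1),
  (13,3),(12,11),(4,1),(0,2),(4,4)]⟩ ⟨3,[(5,0),(1,0),(14,0),(7,0),(15,1),(1,0)]⟩),⟨false,1,⟨1,[(25,
  0),(0,0),(21,0)]⟩,⟨0,[]⟩⟩,⟨true,0,⟨0,[(50,0)]⟩,⟨0,[]⟩⟩,⟨true,0,⟨0,[(46,0)]⟩,⟨0,[(45,0)]⟩⟩,⟨false,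
  0,⟨0,[(46,0)]⟩,⟨3,[(21,1),(3,0),(0,0),(21,0)]⟩⟩,[.o ⟨false,0,⟨4,[(1,4),(0,0),(0,1),(1,0),(25,2),
  (10,0),(4,1)]⟩,⟨1,[(26,1),(15,0),(5,0)]⟩⟩,.e ⟨false,1,⟨0,[(41,0),(5,0)]⟩,⟨0,[(50,0)]⟩⟩ ⟨false,1,
  ⟨3,[(17,0),(2,0),(4,0),(0,0),(20,1)]⟩,⟨0,[]⟩⟩,.a ⟨true,0,⟨2,[(1,2),(1,0),(1,0),(6,0),(4,0),(11,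
  1)]⟩,⟨0,[(26,0)]⟩⟩ ⟨false,1,⟨3,[(17,0),(2,0),(4,0),(0,0),(21,1)]⟩,⟨0,[]⟩⟩ ⟨true,0,⟨0,[(50,0)]⟩,⟨0,
  []⟩⟩,.o ⟨false,0,⟨3,[(1,3),(1,1),(12,1),(14,1),(10,0),(5,0)]⟩,⟨1,[(26,1),(15,0),(4,0)]⟩⟩]⟩)) (.Q
  [0,-1,0,-1,0,0,0,0,0,1] (.pp false [-1,1]) (.I [1,0,-2,-1,1] (.R ⟨1,false,false,false,[0,0,1],[1,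
  -1],[0,0,0,0,0,0,0,1],(⟨0,[(36,0)]⟩,⟨0,[(35,0)]⟩),(⟨0,[(39,0)]⟩,⟨0,[(40,0)]⟩),⟨0,[(25,0)]⟩,.k,.k,
  .k,.k,.k,.k,⟨false,0,⟨1,[(11,0),(4,0),(30,2)]⟩,⟨0,[(13,0)]⟩⟩,⟨true,(-1),⟨0,[(4,0)]⟩,⟨3,[(12,1),
  (13,0),(0,0),(15,0)]⟩⟩,⟨false,1,⟨1,[(26,0),(0,0),(21,0)]⟩,⟨0,[]⟩⟩,⟨true,0,⟨0,[(1,0),(30,0)]⟩,⟨0,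
  [(7,0),(39,1)]⟩⟩,⟨true,0,⟨0,[(47,0)]⟩,⟨0,[(46,0)]⟩⟩,⟨true,0,⟨2,[(1,0),(4,0),(11,0),(11,1),(1,0)]⟩,
  ⟨0,[(7,0),(39,0)]⟩⟩,[.a ⟨true,0,⟨6,[(1,5),(4,0),(6,0),(9,0),(7,1),(9,0),(4,0)]⟩,⟨0,[(47,0)]⟩⟩
  ⟨true,0,⟨1,[(11,0),(4,0),(30,0)]⟩,⟨0,[(17,0)]⟩⟩ ⟨false,0,⟨0,[(0,0),(3,0)]⟩,⟨0,[(8,0),(39,0)]⟩⟩,.a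
  ⟨true,0,⟨0,[(1,0)]⟩,⟨9,[(6,0),(1,0),(14,0),(2,0),(0,0),(3,0),(9,3),(5,7)]⟩⟩ ⟨false,1,⟨0,[(16,0),
  (31,0)]⟩,⟨1,[(3,0),(2,0),(41,0)]⟩⟩ ⟨true,0,⟨0,[(1,0),(13,0)]⟩,⟨9,[(6,2),(0,2),(0,2),(3,1),(28,1),
  (1,0),(3,6)]⟩⟩,.o ⟨false,1,⟨3,[(12,1),(13,0),(0,0),(15,0)]⟩,⟨0,[(15,0)]⟩⟩,.a ⟨true,0,⟨0,[(33,0)]⟩,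
  ⟨0,[(30,0)]⟩⟩ ⟨false,1,⟨0,[(16,0),(31,0)]⟩,⟨0,[(17,0)]⟩⟩ ⟨true,0,⟨0,[(0,0),(3,0)]⟩,⟨9,[(6,2),(0,
  2),(0,2),(3,1),(28,1),(1,0),(3,6)]⟩⟩]⟩) (.S ⟨1,0,[0,1,-1,-1],[1,-1],[0,0,-1,-1],(⟨0,[(39,0)]⟩,⟨0,
  [(40,0)]⟩),⟨1,[(9,0),(14,0),(14,0)]⟩,.k,(.r (-2) ⟨2,[(13,1),(7,1),(0,1),(25,1)]⟩ ⟨0,[(0,0),(46,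
  0)]⟩),⟨false,1,⟨1,[(26,0),(0,0),(21,0)]⟩,⟨0,[]⟩⟩,⟨true,0,⟨0,[(51,0)]⟩,⟨0,[]⟩⟩,⟨true,0,⟨0,[(47,
  0)]⟩,⟨0,[(46,0)]⟩⟩,⟨false,0,⟨0,[(47,0)]⟩,⟨3,[(22,1),(3,0),(0,0),(21,0)]⟩⟩,[.o ⟨false,0,⟨0,[(46,
  0)]⟩,⟨1,[(43,0),(3,1),(1,0)]⟩⟩,.e ⟨true,1,⟨1,[(1,1),(41,0),(4,0)]⟩,⟨1,[(0,0),(5,0),(14,0)]⟩⟩
  ⟨true,1,⟨2,[(13,0),(7,0),(0,0),(25,0)]⟩,⟨0,[(0,0)]⟩⟩,.o ⟨false,0,⟨1,[(33,0),(0,0)]⟩,⟨1,[(43,0),(4,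
  0)]⟩⟩,.a ⟨true,(-1),⟨0,[(4,0),(28,0)]⟩,⟨0,[(48,0)]⟩⟩ ⟨false,2,⟨3,[(22,1),(3,0),(0,0),(20,3),(0,
  0)]⟩,⟨0,[(0,0)]⟩⟩ ⟨true,1,⟨3,[(11,0),(1,0),(8,0),(18,1),(6,1)]⟩,⟨0,[(0,0)]⟩⟩]⟩)) (.Q [0,0,0,1,0,0,
  -1,-1,-1,1,-1,-1] (.p false [0,0,1] [1,0,0,0,-1] (⟨0,[(35,0)]⟩,⟨0,[(34,0)]⟩) .k 2 (⟨0,[(27,0)]⟩,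
  ⟨0,[(28,0)]⟩) .k (.r 0 ⟨1,[(10,0),(4,0),(30,0)]⟩ ⟨14,[(1,3),(3,1),(6,1),(4,10),(7,3),(4,3),(9,1),
  (9,0)]⟩)) (.Q [0,0,0,0,0,-1,0,0,0,0,0,1] (.ed false [1,-1,0,0,1] .k) (.S ⟨1,0,[1],[0,0,0,0,1],[1,
  1],(⟨0,[(30,0)]⟩,⟨0,[(29,0)]⟩),⟨0,[(0,0)]⟩,.k,(.r (-1) ⟨2,[(14,0),(7,0),(0,0),(25,0)]⟩ ⟨8,[(7,1),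
  (1,1),(14,1),(7,1),(15,4),(1,1),(0,0)]⟩),⟨true,0,⟨0,[(52,0)]⟩,⟨0,[]⟩⟩,⟨false,1,⟨1,[(27,0),(0,0),
  (21,0)]⟩,⟨0,[]⟩⟩,⟨false,0,⟨0,[(48,0)]⟩,⟨3,[(23,1),(3,0),(0,0),(21,0)]⟩⟩,⟨true,0,⟨0,[(48,0)]⟩,⟨0,
  [(47,0)]⟩⟩,[.e ⟨true,0,⟨0,[(52,0)]⟩,⟨0,[(43,0)]⟩⟩ ⟨true,0,⟨0,[]⟩,⟨1,[(34,0),(0,0)]⟩⟩,.o ⟨false,1,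
  ⟨1,[(28,1),(15,0),(5,0)]⟩,⟨0,[(1,0),(4,0),(41,0)]⟩⟩,.a ⟨true,0,⟨0,[(28,0)]⟩,⟨0,[(1,0),(18,0)]⟩⟩
  ⟨false,0,⟨0,[]⟩,⟨1,[(27,0),(0,0),(21,0)]⟩⟩ ⟨true,0,⟨0,[]⟩,⟨0,[(52,0)]⟩⟩,.o ⟨false,0,⟨2,[(2,1),(0,
  0),(2,0),(21,1),(14,2)]⟩,⟨1,[(1,1),(6,1),(40,0),(0,0)]⟩⟩]⟩) (.S ⟨1,0,[-1,1],[1,0,0,0,-1],[-1],(⟨0,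
  [(29,0)]⟩,⟨0,[(30,0)]⟩),⟨1,[(0,0),(9,0),(14,0),(3,0)]⟩,.k,(.r (-1) ⟨5,[(4,1),(0,1),(4,3),(0,1),
  (13,3),(12,11),(4,1),(0,2),(4,4)]⟩ ⟨3,[(7,0),(1,0),(14,0),(7,0),(15,1),(1,0)]⟩),⟨false,1,⟨1,[(27,
  0),(0,0),(21,0)]⟩,⟨0,[]⟩⟩,⟨true,0,⟨0,[(52,0)]⟩,⟨0,[]⟩⟩,⟨true,0,⟨0,[(48,0)]⟩,⟨0,[(47,0)]⟩⟩,⟨false,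
  0,⟨0,[(48,0)]⟩,⟨3,[(23,1),(3,0),(0,0),(21,0)]⟩⟩,[.o ⟨false,0,⟨0,[(1,0),(4,0),(41,0)]⟩,⟨1,[(28,1),
  (15,0),(5,0)]⟩⟩,.e ⟨false,1,⟨0,[(43,0),(5,0)]⟩,⟨0,[(52,0)]⟩⟩ ⟨false,1,⟨3,[(19,0),(2,0),(4,0),(0,
  0),(20,1)]⟩,⟨0,[]⟩⟩,.a ⟨true,0,⟨0,[(1,0),(18,0)]⟩,⟨0,[(28,0)]⟩⟩ ⟨false,1,⟨3,[(19,0),(2,0),(4,0),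
  (0,0),(21,1)]⟩,⟨0,[]⟩⟩ ⟨true,0,⟨0,[(52,0)]⟩,⟨0,[]⟩⟩,.o ⟨false,0,⟨0,[(1,0),(6,0),(34,0)]⟩,⟨1,[(28,
  1),(15,0),(4,0)]⟩⟩]⟩)) (.Q [1,0,0,0,-1,0,0,0,1,0,0,1] (.p true [0,0,0,0,1] [] (⟨0,[(29,0)]⟩,⟨0,
  [(28,0)]⟩) .k 0 (⟨0,[]⟩,⟨0,[]⟩) .k .k) (.R ⟨2,true,false,false,[0,1],[0,0,0,0,1],[1,1,1],(⟨0,[]⟩,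
  ⟨0,[]⟩),(⟨0,[(30,0)]⟩,⟨0,[(29,0)]⟩),⟨0,[]⟩,.k,.k,.k,(.r 0 ⟨8,[(7,1),(1,1),(14,1),(7,1),(15,4),(1,
  1),(0,0)]⟩ ⟨2,[(14,0),(7,0),(0,0),(25,0)]⟩),.k,.k,⟨false,0,⟨0,[(52,0)]⟩,⟨1,[(49,0),(0,0)]⟩⟩,⟨true,
  (-1),⟨4,[(0,2),(0,0),(3,0),(1,0),(20,0),(14,0),(7,0)]⟩,⟨0,[(27,0)]⟩⟩,⟨true,0,⟨0,[(47,0)]⟩,⟨0,[(48,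
  0)]⟩⟩,⟨false,0,⟨3,[(0,2),(22,1),(4,0),(21,0)]⟩,⟨0,[(27,0),(20,0)]⟩⟩,⟨false,0,⟨0,[]⟩,⟨1,[(27,0),(0,
  0),(21,0)]⟩⟩,⟨true,(-1),⟨0,[(0,0)]⟩,⟨0,[(27,0),(24,0)]⟩⟩,[]⟩) (.Q [0,0,0,0,0,0,1,0,1,-1,1,1] (.p
  true [0,0,1] [1,0,0,0,-1] (⟨0,[(37,0)]⟩,⟨0,[(36,0)]⟩) .k 2 (⟨0,[(29,0)]⟩,⟨0,[(30,0)]⟩) .k (.r 0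
  ⟨1,[(12,0),(4,0),(30,0)]⟩ ⟨14,[(3,3),(3,1),(6,1),(4,10),(7,3),(4,3),(9,1),(9,0)]⟩)) (.Q [-1,1,0,0,
  0,0,0,0,-1,1,0,-1] (.p false [0,0,0,0,1] [1] (⟨0,[(31,0)]⟩,⟨0,[(30,0)]⟩) .k 1 (⟨0,[]⟩,⟨0,[]⟩) .k
  .k) (.K ⟨0,[1,0,0,0,-1],0,0,(⟨0,[(31,0)]⟩,⟨0,[(32,0)]⟩),.k,(.r (-1) ⟨15,[(2,0),(22,7),(4,0),(16,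
  3),(3,6),(1,1)]⟩ ⟨3,[(9,0),(1,0),(14,0),(7,0),(15,1),(1,0)]⟩),(.r 0 ⟨8,[(9,1),(1,1),(14,1),(7,1),
  (15,4),(1,1),(0,0)]⟩ ⟨2,[(16,0),(7,0),(0,0),(25,0)]⟩),.k,.k,[⟨0,[(1,0)]⟩,⟨0,[(0,0),(44,0)]⟩,⟨16,
  [(3,7),(0,5),(0,8),(3,0),(1,0),(12,1),(19,3),(1,0)]⟩,⟨0,[(0,0)]⟩]⟩) (.R ⟨1,false,false,true,[0,0,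
  1],[1,0,0,0,-1],[1,1,0,-1,0,0,0,1],(⟨0,[(39,0)]⟩,⟨0,[(38,0)]⟩),(⟨0,[(31,0)]⟩,⟨0,[(32,0)]⟩),⟨0,
  [(28,0)]⟩,.k,.k,.k,.k,(.r (-1) ⟨2,[(14,0),(9,1),(0,0),(25,0),(0,0)]⟩ ⟨0,[(6,0),(38,0),(4,1)]⟩),.k,
  ⟨true,0,⟨2,[(13,0),(0,0),(3,0),(0,0)]⟩,⟨0,[(6,0),(38,0),(4,1)]⟩⟩,⟨false,1,⟨0,[(29,0),(3,0)]⟩,⟨0,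
  [(1,0)]⟩⟩,⟨true,0,⟨0,[(49,0)]⟩,⟨0,[(50,0)]⟩⟩,⟨false,1,⟨2,[(2,1),(4,0),(1,0),(6,0),(4,0),(7,0),(3,
  1)]⟩,⟨0,[(0,0),(22,0)]⟩⟩,⟨false,0,⟨0,[]⟩,⟨1,[(29,0),(0,0),(21,0)]⟩⟩,⟨false,1,⟨1,[(9,0),(11,0),(7,
  1),(3,1),(16,0)]⟩,⟨0,[(0,0),(21,0)]⟩⟩,[.o ⟨false,1,⟨0,[(29,0),(24,0)]⟩,⟨0,[(0,0)]⟩⟩,.o ⟨false,1,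
  ⟨0,[(2,0)]⟩,⟨2,[(0,0),(2,0),(0,0),(0,0)]⟩⟩,.o ⟨false,1,⟨3,[(15,1),(13,0),(0,0),(15,0)]⟩,⟨0,[(18,
  0)]⟩⟩,.a ⟨true,0,⟨0,[(36,0)]⟩,⟨0,[(33,0)]⟩⟩ ⟨true,0,⟨0,[(17,0)]⟩,⟨1,[(9,0),(11,0),(28,0)]⟩⟩
  ⟨false,1,⟨0,[(2,0),(30,0)]⟩,⟨0,[(0,0),(35,0)]⟩⟩]⟩)) (.Q [-1,-1,0,0,1,0,0,0,-1,0,0,-1] (.p false
  [0,0,0,0,1] [] (⟨0,[(31,0)]⟩,⟨0,[(30,0)]⟩) .k 0 (⟨0,[]⟩,⟨0,[]⟩) .k .k) (.Q [1,0,0,0,0,0,0,0,1,-1,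
  0,1] (.p true [0,0,0,0,1] [1] (⟨0,[(32,0)]⟩,⟨0,[(31,0)]⟩) .k 1 (⟨0,[]⟩,⟨0,[]⟩) .k .k) (.R ⟨1,
  false,false,false,[0,0,1],[1,0,0,0,-1],[0,1,0,0,0,0,0,1],(⟨0,[(40,0)]⟩,⟨0,[(39,0)]⟩),(⟨0,[(32,
  0)]⟩,⟨0,[(33,0)]⟩),⟨0,[(29,0)]⟩,.k,.k,.k,.k,(.r (-1) ⟨2,[(15,0),(9,1),(0,0),(25,0),(0,0)]⟩ ⟨0,[(7,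
  0),(38,0),(4,1)]⟩),.k,⟨false,0,⟨0,[(15,0),(35,0)]⟩,⟨0,[(22,0)]⟩⟩,⟨true,0,⟨0,[(2,0)]⟩,⟨3,[(0,0),(3,
  1),(5,1),(5,0),(14,0),(21,0)]⟩⟩,⟨true,0,⟨0,[(55,0)]⟩,⟨0,[]⟩⟩,⟨false,1,⟨0,[(2,0),(19,0)]⟩,⟨0,[(0,
  0),(23,0)]⟩⟩,⟨false,0,⟨0,[(51,0)]⟩,⟨3,[(26,1),(3,0),(0,0),(21,0)]⟩⟩,⟨false,1,⟨0,[(2,0),(19,0),(28,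
  0)]⟩,⟨0,[(4,0)]⟩⟩,[.o ⟨false,1,⟨0,[(3,0)]⟩,⟨0,[(0,0)]⟩⟩,.o ⟨false,1,⟨0,[(1,0)]⟩,⟨5,[(0,4),(5,0),
  (5,0),(12,0),(19,1),(4,0)]⟩⟩,.o ⟨false,1,⟨3,[(16,1),(13,0),(0,0),(15,0)]⟩,⟨0,[(19,0)]⟩⟩,.a ⟨true,
  0,⟨0,[(37,0)]⟩,⟨0,[(34,0)]⟩⟩ ⟨true,0,⟨0,[(15,0),(35,0)]⟩,⟨0,[(21,0)]⟩⟩ ⟨false,1,⟨0,[(1,0),(32,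
  0)]⟩,⟨3,[(0,0),(3,1),(5,1),(5,0),(14,0),(21,0)]⟩⟩]⟩) (.Q [0,0,0,0,0,-1,0,0,0,0,0,1] (.ed false [1,
  -1,0,0,1] .k) (.R ⟨1,false,false,false,[0,0,0,0,1],[1,0,-1],[1,1],(⟨0,[(34,0)]⟩,⟨0,[(33,0)]⟩),(⟨0,
  [(40,0)]⟩,⟨0,[(41,0)]⟩),⟨0,[(0,0)]⟩,.k,.k,(.r (-1) ⟨2,[(18,0),(7,0),(0,0),(25,0)]⟩ ⟨8,[(11,1),(1,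
  1),(14,1),(7,1),(15,4),(1,1),(0,0)]⟩),.k,(.r (-1) ⟨2,[(16,0),(9,1),(0,0),(25,0),(0,0)]⟩ ⟨0,[(8,0),
  (38,0),(4,1)]⟩),.k,⟨false,0,⟨0,[(16,0),(35,0)]⟩,⟨0,[(23,0)]⟩⟩,⟨true,0,⟨0,[(3,0)]⟩,⟨3,[(5,2),(1,0),
  (3,1),(5,0),(34,0),(1,0)]⟩⟩,⟨true,0,⟨0,[(56,0)]⟩,⟨0,[]⟩⟩,⟨false,1,⟨0,[(3,0),(19,0)]⟩,⟨0,[(5,0),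
  (46,0)]⟩⟩,⟨false,0,⟨0,[(52,0)]⟩,⟨3,[(27,1),(3,0),(0,0),(21,0)]⟩⟩,⟨false,1,⟨0,[(3,0),(19,0),(28,
  0)]⟩,⟨0,[(5,0)]⟩⟩,[.a ⟨true,0,⟨0,[(1,0),(5,0)]⟩,⟨0,[(25,0)]⟩⟩ ⟨true,0,⟨0,[(56,0)]⟩,⟨0,[(47,0)]⟩⟩
  ⟨false,1,⟨1,[(1,0),(1,0),(19,0),(13,0),(15,0)]⟩,⟨0,[(5,0),(46,0)]⟩⟩,.o ⟨false,1,⟨0,[(37,0),(16,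
  0)]⟩,⟨1,[(6,0),(5,0),(12,0)]⟩⟩,.e ⟨false,0,⟨0,[]⟩,⟨1,[(31,0),(0,0),(21,0)]⟩⟩ ⟨false,1,⟨0,[(3,0),
  (19,0)]⟩,⟨0,[(5,0),(46,0)]⟩⟩,.o ⟨false,0,⟨8,[(5,3),(0,0),(0,4),(3,0),(1,1),(7,1),(17,0),(8,0)]⟩,
  ⟨1,[(1,1),(46,0),(4,0)]⟩⟩]⟩) (.R ⟨0,false,false,false,[0,0,0,0,1],[0,1],[1,1],(⟨0,[(34,0)]⟩,⟨0,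
  [(33,0)]⟩),(⟨0,[(45,0)]⟩,⟨0,[(44,0)]⟩),⟨0,[(0,0)]⟩,.k,.k,(.r (-1) ⟨2,[(18,0),(7,0),(0,0),(25,0)]⟩
  ⟨8,[(11,1),(1,1),(14,1),(7,1),(15,4),(1,1),(0,0)]⟩),(.r (-1) ⟨2,[(18,0),(7,0),(0,0),(25,0)]⟩ ⟨8,
  [(11,1),(1,1),(14,1),(7,1),(15,4),(1,1),(0,0)]⟩),.k,.k,⟨false,1,⟨3,[(16,0),(1,0),(8,0),(18,1),(6,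
  1)]⟩,⟨0,[(47,0),(4,0)]⟩⟩,⟨true,1,⟨1,[(1,1),(46,0),(4,0)]⟩,⟨1,[(5,0),(3,0),(1,0),(20,0),(14,0)]⟩⟩,
  ⟨true,0,⟨0,[(56,0)]⟩,⟨0,[]⟩⟩,⟨false,1,⟨0,[(2,0),(49,0)]⟩,⟨1,[(7,0),(7,0),(16,0)]⟩⟩,⟨false,0,⟨0,
  []⟩,⟨0,[]⟩⟩,⟨false,0,⟨0,[]⟩,⟨0,[]⟩⟩,[.a ⟨true,0,⟨0,[(52,0)]⟩,⟨2,[(1,1),(7,0),(5,0),(2,0),(13,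
  1)]⟩⟩ ⟨true,0,⟨0,[(56,0)]⟩,⟨0,[(47,0)]⟩⟩ ⟨false,1,⟨1,[(1,0),(0,0),(3,0),(45,0),(0,0)]⟩,⟨1,[(7,0),
  (7,0),(16,0)]⟩⟩,.o ⟨false,1,⟨0,[(6,0),(47,0)]⟩,⟨0,[(51,0)]⟩⟩,.e ⟨false,0,⟨0,[]⟩,⟨1,[(31,0),(0,0),
  (21,0)]⟩⟩ ⟨false,1,⟨0,[(2,0),(49,0)]⟩,⟨1,[(7,0),(7,0),(16,0)]⟩⟩,.o ⟨false,0,⟨8,[(5,3),(0,0),(0,4),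
  (3,0),(1,1),(7,1),(17,0),(8,0)]⟩,⟨1,[(1,1),(46,0),(4,0)]⟩⟩]⟩))) (.K ⟨0,[0,0,0,0,1],(-1),(-1),(⟨0,
  [(32,0)]⟩,⟨0,[(31,0)]⟩),.k,(.r (-1) ⟨2,[(16,0),(7,0),(0,0),(25,0)]⟩ ⟨8,[(9,1),(1,1),(14,1),(7,1),
  (15,4),(1,1),(0,0)]⟩),(.r 0 ⟨3,[(9,0),(1,0),(14,0),(7,0),(15,1),(1,0)]⟩ ⟨15,[(2,0),(22,7),(4,0),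
  (16,3),(3,6),(1,1)]⟩),.k,.k,[⟨0,[(1,0),(13,0)]⟩,⟨0,[(0,0),(44,0)]⟩,⟨0,[(29,0),(24,0)]⟩,⟨0,[(0,
  0)]⟩]⟩)))))))) (.I [0,1,1,1,-1,0,0,1] (.S ⟨1,0,[0,1,0,0,0,0,0,-1],[1,0,-1],[1,0,0,-1,0,0,0,-1],
  (⟨0,[(32,0)]⟩,⟨0,[(33,0)]⟩),⟨0,[(21,0)]⟩,.k,.k,⟨false,1,⟨3,[(19,1),(3,0),(0,0),(21,0)]⟩,⟨0,[(44,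
  0)]⟩⟩,⟨true,0,⟨0,[(48,0)]⟩,⟨0,[]⟩⟩,⟨true,0,⟨0,[]⟩,⟨0,[(48,0)]⟩⟩,⟨false,0,⟨0,[(44,0)]⟩,⟨3,[(19,1),
  (3,0),(0,0),(21,0)]⟩⟩,[.o ⟨false,0,⟨0,[(29,0)]⟩,⟨0,[(1,0),(11,0)]⟩⟩,.a ⟨true,0,⟨0,[(14,0),(12,
  0)]⟩,⟨0,[(17,0)]⟩⟩ ⟨true,1,⟨0,[(10,0),(28,0)]⟩,⟨0,[(0,0)]⟩⟩ ⟨false,1,⟨2,[(3,0),(6,0),(4,0),(29,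
  1)]⟩,⟨3,[(0,0),(7,0),(4,1),(31,0)]⟩⟩,.o ⟨false,0,⟨0,[(12,0)]⟩,⟨3,[(9,1),(13,0),(0,0),(15,0)]⟩⟩,.o
  ⟨false,0,⟨0,[(31,0)]⟩,⟨0,[(1,0)]⟩⟩]⟩) (.S ⟨1,0,[0,0,0,0,0,0,0,-1],[1,0,-1],[1,1,0,-1,0,0,0,-1],
  (⟨0,[(32,0)]⟩,⟨0,[(33,0)]⟩),⟨0,[(21,0)]⟩,.k,.k,⟨true,0,⟨0,[(43,0)]⟩,⟨0,[(44,0)]⟩⟩,⟨false,1,⟨1,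
  [(23,0),(0,0),(21,0)]⟩,⟨0,[]⟩⟩,⟨false,0,⟨0,[]⟩,⟨1,[(23,0),(0,0),(21,0)]⟩⟩,⟨true,0,⟨0,[(44,0)]⟩,⟨0,
  [(43,0)]⟩⟩,[.a ⟨true,0,⟨0,[(14,0),(12,0)]⟩,⟨0,[(17,0)]⟩⟩ ⟨true,0,⟨3,[(0,2),(1,1),(0,2),(23,1),(10,
  0)]⟩,⟨0,[(13,0),(30,0)]⟩⟩ ⟨false,1,⟨2,[(3,0),(6,0),(4,0),(29,1)]⟩,⟨1,[(8,0),(4,0),(30,0)]⟩⟩,.o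
  ⟨false,1,⟨0,[(29,0),(16,0)]⟩,⟨0,[(4,0),(39,0)]⟩⟩,.o ⟨false,0,⟨0,[(12,0)]⟩,⟨3,[(9,1),(13,0),(0,0),
  (15,0)]⟩⟩,.o ⟨false,0,⟨0,[(31,0)]⟩,⟨0,[(1,0)]⟩⟩]⟩))))) (.I [0,1,0,1,0,0,0,-1] (.S ⟨1,0,[0,0,1,1,0,
  0,0,-1],[1,1,-1],[0,1,1,1,0,0,0,-1],(⟨0,[(29,0),(1,0)]⟩,⟨0,[(19,0)]⟩),⟨0,[(29,0)]⟩,.k,.k,⟨true,0,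
  ⟨2,[(0,0),(14,0),(24,0)]⟩,⟨0,[]⟩⟩,⟨false,1,⟨1,[(20,0),(0,0),(21,0)]⟩,⟨0,[]⟩⟩,⟨false,0,⟨0,[(41,
  0)]⟩,⟨3,[(16,1),(3,0),(0,0),(21,0)]⟩⟩,⟨true,0,⟨0,[(41,0)]⟩,⟨0,[(40,0)]⟩⟩,[.a ⟨true,0,⟨3,[(0,1),(0,
  1),(15,0),(11,0),(0,0)]⟩,⟨0,[(13,0)]⟩⟩ ⟨false,0,⟨0,[(0,0)]⟩,⟨0,[(5,0),(37,0)]⟩⟩ ⟨true,0,⟨2,[(0,0),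
  (0,0),(0,0),(8,0)]⟩,⟨2,[(4,0),(0,0),(3,0),(0,0)]⟩⟩,.a ⟨true,0,⟨0,[(1,0)]⟩,⟨2,[(4,0),(20,1),(14,
  0)]⟩⟩ ⟨true,0,⟨2,[(0,0),(0,0),(0,0),(8,0)]⟩,⟨2,[(4,0),(0,0),(3,0),(0,0)]⟩⟩ ⟨false,1,⟨0,[(0,0),(42,
  0)]⟩,⟨0,[(8,0)]⟩⟩,.a ⟨true,0,⟨0,[(24,0)]⟩,⟨0,[(27,0)]⟩⟩ ⟨false,0,⟨2,[(0,0),(0,0),(0,0),(8,0)]⟩,⟨0,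
  [(5,0),(37,0)]⟩⟩ ⟨true,0,⟨2,[(0,0),(0,0),(0,0),(8,0)]⟩,⟨0,[(8,0)]⟩⟩,.o ⟨false,0,⟨0,[(9,0)]⟩,⟨3,
  [(6,1),(13,0),(0,0),(15,0)]⟩⟩]⟩) (.Q [0,0,2,0,0,0,1,0,0,-1,1] (.p true [0,0,1] [1] (⟨0,[(30,0)]⟩,
  ⟨0,[(29,0)]⟩) .k 1 (⟨0,[]⟩,⟨0,[]⟩) .k .k) (.Q [0,0,-1,-1,0,0,-1,0,0,1,-1] (.p false [0,0,1] [1]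
  (⟨0,[(31,0)]⟩,⟨0,[(30,0)]⟩) .k 1 (⟨0,[]⟩,⟨0,[]⟩) .k .k) (.R ⟨1,false,false,true,[0,-1,1],[1,-1],
  [0,0,-1,-1,0,0,0,1],(⟨0,[(21,0)]⟩,⟨0,[(31,0),(1,0)]⟩),(⟨0,[(35,0)]⟩,⟨0,[(36,0)]⟩),⟨0,[(5,0)]⟩,.k,
  .k,(.r (-1) ⟨3,[(2,1),(4,2),(1,0),(8,0),(25,1)]⟩ ⟨12,[(3,11),(0,13),(8,2),(5,1),(7,1),(9,4)]⟩),.k,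
  .k,.k,⟨true,0,⟨0,[(2,0),(40,0)]⟩,⟨0,[(13,0),(33,0)]⟩⟩,⟨false,0,⟨0,[(26,0)]⟩,⟨3,[(8,1),(13,0),(0,
  0),(15,0)]⟩⟩,⟨false,1,⟨1,[(22,0),(0,0),(21,0)]⟩,⟨0,[]⟩⟩,⟨false,0,⟨9,[(0,3),(2,3),(9,5),(5,0),(11,
  0),(0,0),(4,1)]⟩,⟨1,[(16,1),(22,0),(5,0)]⟩⟩,⟨true,0,⟨0,[(43,0)]⟩,⟨0,[(42,0)]⟩⟩,⟨false,0,⟨12,[(3,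
  11),(0,0),(8,2),(5,1),(7,1),(9,4)]⟩,⟨19,[(2,15),(5,9),(8,3),(0,1),(20,4),(5,2)]⟩⟩,[.o ⟨false,0,⟨0,
  [(42,0)]⟩,⟨1,[(39,0),(3,1),(1,0)]⟩⟩,.a ⟨true,0,⟨0,[(0,0),(28,0)]⟩,⟨0,[(43,0)]⟩⟩ ⟨false,1,⟨0,[(2,
  0),(41,0)]⟩,⟨12,[(3,5),(0,6),(8,7),(5,0),(7,0),(9,8)]⟩⟩ ⟨true,0,⟨0,[(0,0)]⟩,⟨0,[(4,0)]⟩⟩,.e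
  ⟨false,1,⟨0,[(7,0),(37,0)]⟩,⟨0,[(13,0),(29,0)]⟩⟩ ⟨false,0,⟨0,[(0,0)]⟩,⟨1,[(4,1),(39,0),(0,0)]⟩⟩,
  .o ⟨false,0,⟨0,[(1,0)]⟩,⟨1,[(26,1),(12,0),(4,0)]⟩⟩]⟩) (.R ⟨1,false,false,true,[0,-1,1],[1,-1],[0,
  0,-1,-1,0,0,0,1],(⟨0,[(21,0)]⟩,⟨0,[(31,0),(1,0)]⟩),(⟨0,[(35,0)]⟩,⟨0,[(36,0)]⟩),⟨0,[(5,0)]⟩,.k,.k,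
  (.r (-1) ⟨3,[(2,1),(4,2),(1,0),(8,0),(25,1)]⟩ ⟨12,[(3,11),(0,13),(8,2),(5,1),(7,1),(9,4)]⟩),.k,.k,
  .k,⟨true,0,⟨0,[(2,0),(40,0)]⟩,⟨0,[(13,0),(33,0)]⟩⟩,⟨false,0,⟨0,[(26,0)]⟩,⟨3,[(8,1),(13,0),(0,0),
  (15,0)]⟩⟩,⟨false,1,⟨1,[(22,0),(0,0),(21,0)]⟩,⟨0,[]⟩⟩,⟨false,0,⟨0,[(3,0),(38,0)]⟩,⟨1,[(16,1),(22,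
  0),(5,0)]⟩⟩,⟨true,0,⟨0,[(43,0)]⟩,⟨0,[(42,0)]⟩⟩,⟨false,0,⟨12,[(3,11),(0,0),(8,2),(5,1),(7,1),(9,
  4)]⟩,⟨19,[(2,15),(5,9),(8,3),(0,1),(20,4),(5,2)]⟩⟩,[.o ⟨false,0,⟨0,[(42,0)]⟩,⟨1,[(39,0),(3,1),(1,
  0)]⟩⟩,.e ⟨false,1,⟨0,[(2,0),(41,0)]⟩,⟨12,[(3,5),(0,6),(8,7),(5,0),(7,0),(9,8)]⟩⟩ ⟨false,1,⟨6,[(9,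
  0),(8,2),(0,0),(6,5),(0,0),(9,0),(6,2)]⟩,⟨0,[(0,0)]⟩⟩,.a ⟨true,0,⟨0,[(29,0)]⟩,⟨0,[(26,0)]⟩⟩
  ⟨false,1,⟨0,[(7,0),(37,0)]⟩,⟨3,[(0,0),(2,1),(0,0),(8,1),(23,0)]⟩⟩ ⟨true,0,⟨0,[(26,0),(15,0)]⟩,⟨0,
  [(0,0)]⟩⟩,.o ⟨false,0,⟨0,[(1,0)]⟩,⟨1,[(26,1),(12,0),(4,0)]⟩⟩]⟩)) (.R ⟨1,false,false,true,[0,-1,1],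
  [1,-1],[0,1,-1,-1,0,0,0,1],(⟨0,[(20,0)]⟩,⟨0,[(30,0),(1,0)]⟩),(⟨0,[(34,0)]⟩,⟨0,[(35,0)]⟩),⟨0,[(4,
  0)]⟩,.k,.k,(.r (-1) ⟨9,[(0,1),(0,1),(3,1),(0,5),(10,3),(20,0),(4,4)]⟩ ⟨12,[(2,11),(0,13),(8,2),(5,
  1),(7,1),(9,4)]⟩),.k,.k,.k,⟨true,0,⟨1,[(6,0),(4,0),(30,0)]⟩,⟨0,[(12,0)]⟩⟩,⟨false,0,⟨0,[(25,0)]⟩,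
  ⟨3,[(7,1),(13,0),(0,0),(15,0)]⟩⟩,⟨true,0,⟨0,[(46,0)]⟩,⟨0,[]⟩⟩,⟨false,0,⟨0,[(2,0),(38,0)]⟩,⟨1,[(15,
  1),(22,0),(5,0)]⟩⟩,⟨false,0,⟨0,[(42,0)]⟩,⟨3,[(17,1),(3,0),(0,0),(21,0)]⟩⟩,⟨false,0,⟨12,[(2,11),(0,
  0),(8,2),(5,1),(7,1),(9,4)]⟩,⟨19,[(1,15),(5,9),(8,3),(0,1),(20,4),(5,2)]⟩⟩,[.o ⟨false,0,⟨0,[(41,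
  0)]⟩,⟨1,[(38,0),(3,1),(1,0)]⟩⟩,.a ⟨true,0,⟨1,[(2,0),(2,0),(24,0),(0,0),(9,0)]⟩,⟨0,[(42,0)]⟩⟩
  ⟨false,1,⟨1,[(6,1),(36,0),(0,0)]⟩,⟨0,[(12,0),(29,0)]⟩⟩ ⟨true,0,⟨9,[(0,4),(0,0),(0,2),(2,5),(12,1),
  (8,3)]⟩,⟨0,[(3,0)]⟩⟩,.a ⟨true,0,⟨0,[(28,0)]⟩,⟨0,[(25,0)]⟩⟩ ⟨true,0,⟨0,[(6,0)]⟩,⟨0,[(12,0),(29,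
  0)]⟩⟩ ⟨false,0,⟨9,[(0,4),(0,0),(0,2),(2,5),(12,1),(8,3)]⟩,⟨1,[(3,1),(39,0),(0,0)]⟩⟩,.a ⟨true,0,⟨1,
  [(28,2),(0,0)]⟩,⟨0,[(0,0)]⟩⟩ ⟨false,1,⟨1,[(6,1),(36,0),(0,0)]⟩,⟨1,[(2,0),(0,0),(8,0),(24,0)]⟩⟩
  ⟨true,0,⟨0,[(0,0),(40,0)]⟩,⟨0,[(3,0)]⟩⟩]⟩)))) (.R ⟨1,false,false,true,[0,-1,1],[1,-1],[0,1,-1,-1,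
  0,0,0,1],(⟨0,[(17,0)]⟩,⟨0,[(27,0),(1,0)]⟩),(⟨0,[(31,0)]⟩,⟨0,[(32,0)]⟩),⟨0,[(1,0)]⟩,.k,.k,(.r (-1)
  ⟨7,[(0,1),(1,1),(0,5),(10,1),(20,0),(4,2),(0,1)]⟩ ⟨1,[(9,1),(15,0),(0,0),(12,3)]⟩),.k,.k,.k,⟨true,
  0,⟨1,[(3,0),(4,0),(30,0)]⟩,⟨0,[(9,0)]⟩⟩,⟨false,0,⟨0,[(22,0)]⟩,⟨3,[(4,1),(13,0),(0,0),(15,0)]⟩⟩,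
  ⟨true,0,⟨0,[(43,0)]⟩,⟨0,[]⟩⟩,⟨false,0,⟨0,[(9,0),(12,0)]⟩,⟨1,[(12,1),(22,0),(5,0)]⟩⟩,⟨false,0,⟨0,
  [(39,0)]⟩,⟨3,[(14,1),(3,0),(0,0),(21,0)]⟩⟩,⟨false,0,⟨0,[(9,0),(12,0),(16,0)]⟩,⟨1,[(11,1),(23,0),
  (5,0)]⟩⟩,[.o ⟨false,0,⟨0,[(38,0)]⟩,⟨1,[(35,0),(3,1),(1,0)]⟩⟩,.e ⟨false,1,⟨1,[(3,1),(36,0),(0,0)]⟩,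
  ⟨0,[(9,0),(29,0)]⟩⟩ ⟨false,0,⟨0,[(0,0)]⟩,⟨0,[(4,0),(21,0),(12,0)]⟩⟩,.a ⟨true,0,⟨0,[(25,0)]⟩,⟨0,
  [(22,0)]⟩⟩ ⟨true,0,⟨0,[(3,0)]⟩,⟨0,[(9,0),(29,0)]⟩⟩ ⟨false,0,⟨9,[(0,5),(1,1),(6,1),(5,2),(11,0),(0,
  0)]⟩,⟨3,[(4,1),(3,1),(0,1),(25,0),(3,3),(1,0)]⟩⟩,.e ⟨false,1,⟨1,[(3,1),(36,0),(0,0)]⟩,⟨0,[(9,0),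
  (24,0),(4,0)]⟩⟩ ⟨false,0,⟨0,[(0,0)]⟩,⟨7,[(4,5),(3,5),(0,5),(16,3),(8,0),(3,7),(1,0)]⟩⟩]⟩)) (.Q [0,
  0,2,1,0,0,1,0,0,-1,1] (.p true [0,0,1] [1] (⟨0,[(27,0)]⟩,⟨0,[(26,0)]⟩) .k 1 (⟨0,[]⟩,⟨0,[]⟩) .k
  .k) (.Q [0,0,-1,-1,0,0,-1,0,0,1,-1] (.p false [0,0,1] [1] (⟨0,[(28,0)]⟩,⟨0,[(27,0)]⟩) .k 1 (⟨0,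
  []⟩,⟨0,[]⟩) .k .k) (.Q [0,0,2,0,0,0,1,0,0,-1,1] (.p true [0,0,1] [1] (⟨0,[(29,0)]⟩,⟨0,[(28,0)]⟩)
  .k 1 (⟨0,[]⟩,⟨0,[]⟩) .k .k) (.R ⟨0,false,false,true,[0,-1,1],[1,-1],[],(⟨0,[(19,0)]⟩,⟨0,[(3,0),
  (29,0)]⟩),(⟨0,[(33,0)]⟩,⟨0,[(34,0)]⟩),⟨0,[(3,0)]⟩,.k,.k,(.r (-1) ⟨3,[(1,1),(2,1),(0,1),(31,0),(4,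
  1),(0,0)]⟩ ⟨2,[(2,0),(8,2),(5,0),(9,0),(13,4)]⟩),.k,.k,.k,⟨true,0,⟨0,[(36,0),(4,0)]⟩,⟨0,[(40,
  0)]⟩⟩,⟨false,0,⟨0,[(24,0)]⟩,⟨3,[(6,1),(13,0),(0,0),(15,0)]⟩⟩,⟨true,0,⟨0,[(11,0),(29,0)]⟩,⟨0,[(8,
  0)]⟩⟩,⟨false,0,⟨0,[(11,0),(12,0)]⟩,⟨1,[(14,1),(22,0),(5,0)]⟩⟩,⟨false,0,⟨0,[]⟩,⟨0,[]⟩⟩,⟨false,0,⟨0,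
  []⟩,⟨0,[]⟩⟩,[.o ⟨false,0,⟨0,[(40,0)]⟩,⟨1,[(37,0),(3,1),(1,0)]⟩⟩,.a ⟨true,0,⟨0,[(1,0),(25,0)]⟩,⟨0,
  [(41,0)]⟩⟩ ⟨false,1,⟨1,[(42,0),(0,0)]⟩,⟨0,[(45,0)]⟩⟩ ⟨true,0,⟨0,[(1,0)]⟩,⟨0,[(2,0)]⟩⟩,.e ⟨false,1,
  ⟨1,[(20,0),(0,0),(21,0)]⟩,⟨0,[]⟩⟩ ⟨false,0,⟨0,[(1,0)]⟩,⟨1,[(2,1),(39,0),(0,0)]⟩⟩,.o ⟨false,0,⟨0,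
  [(0,0)]⟩,⟨1,[(24,1),(12,0),(4,0)]⟩⟩]⟩) (.R ⟨0,false,false,true,[0,-1,1],[1,-1],[1],(⟨0,[(19,0)]⟩,
  ⟨0,[(3,0),(29,0)]⟩),(⟨0,[(33,0)]⟩,⟨0,[(34,0)]⟩),⟨0,[(3,0)]⟩,.k,.k,(.r (-1) ⟨5,[(0,1),(3,1),(0,3),
  (10,1),(20,0),(4,1),(0,0)]⟩ ⟨2,[(2,0),(8,2),(5,0),(9,0),(13,4)]⟩),.k,.k,.k,⟨true,0,⟨0,[(36,0),(4,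
  0)]⟩,⟨0,[(40,0)]⟩⟩,⟨false,0,⟨0,[(24,0)]⟩,⟨3,[(6,1),(13,0),(0,0),(15,0)]⟩⟩,⟨true,0,⟨0,[(11,0),(29,
  0)]⟩,⟨0,[(5,0)]⟩⟩,⟨false,0,⟨0,[(11,0),(12,0)]⟩,⟨1,[(14,1),(22,0),(5,0)]⟩⟩,⟨false,0,⟨0,[]⟩,⟨0,[]⟩⟩,
  ⟨false,0,⟨0,[]⟩,⟨0,[]⟩⟩,[.o ⟨false,0,⟨0,[(40,0)]⟩,⟨1,[(37,0),(3,1),(1,0)]⟩⟩,.a ⟨true,0,⟨0,[(1,0),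
  (25,0)]⟩,⟨0,[(41,0)]⟩⟩ ⟨false,1,⟨1,[(42,0),(0,0)]⟩,⟨0,[(45,0)]⟩⟩ ⟨true,0,⟨0,[(1,0)]⟩,⟨0,[(2,0)]⟩⟩,
  .a ⟨true,0,⟨0,[(27,0)]⟩,⟨0,[(24,0)]⟩⟩ ⟨true,0,⟨0,[]⟩,⟨0,[(45,0)]⟩⟩ ⟨false,0,⟨0,[(1,0)]⟩,⟨1,[(2,1),
  (39,0),(0,0)]⟩⟩,.a ⟨true,0,⟨1,[(27,2),(0,0)]⟩,⟨0,[(0,0)]⟩⟩ ⟨false,1,⟨1,[(42,0),(0,0)]⟩,⟨1,[(27,0),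
  (0,0)]⟩⟩ ⟨true,0,⟨0,[(0,0),(39,0)]⟩,⟨0,[(2,0)]⟩⟩]⟩)) (.R ⟨0,false,false,true,[0,-1,1],[1,-1],[],
  (⟨0,[(18,0)]⟩,⟨0,[(2,0),(29,0)]⟩),(⟨0,[(32,0)]⟩,⟨0,[(33,0)]⟩),⟨0,[(2,0)]⟩,.k,.k,(.r (-1) ⟨1,[(3,
  1),(19,1),(12,0),(4,0)]⟩ ⟨2,[(1,0),(8,2),(5,0),(9,0),(13,4)]⟩),.k,.k,.k,⟨true,0,⟨0,[(35,0),(4,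
  0)]⟩,⟨0,[(39,0)]⟩⟩,⟨false,0,⟨0,[(23,0)]⟩,⟨3,[(5,1),(13,0),(0,0),(15,0)]⟩⟩,⟨true,0,⟨0,[(10,0),(29,
  0)]⟩,⟨0,[(7,0)]⟩⟩,⟨false,0,⟨0,[(10,0),(12,0)]⟩,⟨1,[(13,1),(22,0),(5,0)]⟩⟩,⟨false,0,⟨0,[]⟩,⟨0,[]⟩⟩,
  ⟨false,0,⟨0,[]⟩,⟨0,[]⟩⟩,[.o ⟨false,0,⟨0,[(39,0)]⟩,⟨1,[(36,0),(3,1),(1,0)]⟩⟩,.e ⟨false,1,⟨1,[(41,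
  0),(0,0)]⟩,⟨0,[(44,0)]⟩⟩ ⟨false,1,⟨6,[(6,0),(8,2),(0,0),(6,5),(0,0),(9,0),(6,2)]⟩,⟨0,[(0,0)]⟩⟩,.a
  ⟨true,0,⟨0,[(26,0)]⟩,⟨0,[(23,0)]⟩⟩ ⟨false,1,⟨1,[(19,0),(0,0),(21,0)]⟩,⟨0,[]⟩⟩ ⟨true,0,⟨0,[(23,0),
  (15,0)]⟩,⟨0,[(0,0)]⟩⟩,.o ⟨false,0,⟨1,[(0,1),(2,0),(6,0),(16,0)]⟩,⟨1,[(23,1),(12,0),(4,0)]⟩⟩]⟩))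
  (.R ⟨0,false,false,true,[0,-1,1],[1,-1],[1],(⟨0,[(17,0)]⟩,⟨0,[(1,0),(29,0)]⟩),(⟨0,[(31,0)]⟩,⟨0,
  [(32,0)]⟩),⟨0,[(1,0)]⟩,.k,.k,(.r (-1) ⟨7,[(0,1),(1,1),(0,5),(10,1),(20,0),(4,2),(0,1)]⟩ ⟨1,[(9,1),
  (15,0),(0,0),(12,3)]⟩),.k,.k,.k,⟨true,0,⟨0,[(34,0),(4,0)]⟩,⟨0,[(38,0)]⟩⟩,⟨false,0,⟨0,[(22,0)]⟩,⟨3,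
  [(4,1),(13,0),(0,0),(15,0)]⟩⟩,⟨true,0,⟨0,[(9,0),(29,0)]⟩,⟨0,[(3,0)]⟩⟩,⟨false,0,⟨0,[(9,0),(12,0)]⟩,
  ⟨1,[(12,1),(22,0),(5,0)]⟩⟩,⟨false,0,⟨0,[]⟩,⟨0,[]⟩⟩,⟨false,0,⟨0,[]⟩,⟨0,[]⟩⟩,[.o ⟨false,0,⟨0,[(38,
  0)]⟩,⟨1,[(35,0),(3,1),(1,0)]⟩⟩,.e ⟨false,1,⟨1,[(40,0),(0,0)]⟩,⟨0,[(43,0)]⟩⟩ ⟨false,0,⟨0,[(0,0)]⟩,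
  ⟨0,[(4,0),(21,0),(12,0)]⟩⟩,.a ⟨true,0,⟨0,[(25,0)]⟩,⟨0,[(22,0)]⟩⟩ ⟨true,0,⟨0,[]⟩,⟨0,[(43,0)]⟩⟩
  ⟨false,0,⟨19,[(0,11),(0,0),(0,3),(6,3),(5,5),(12,0),(2,1)]⟩,⟨3,[(4,1),(3,1),(0,1),(25,0),(3,3),(1,
  0)]⟩⟩,.e ⟨false,1,⟨1,[(40,0),(0,0)]⟩,⟨1,[(25,0),(0,0)]⟩⟩ ⟨false,0,⟨0,[(0,0)]⟩,⟨7,[(4,5),(3,5),(0,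
  5),(16,3),(8,0),(3,7),(1,0)]⟩⟩]⟩)))) (.S ⟨1,0,[0,0,1,1,0,0,0,-1],[1,1,-1],[0,1,1,1,0,0,0,-1],(⟨0,
  [(24,0),(1,0)]⟩,⟨0,[(14,0)]⟩),⟨0,[(24,0)]⟩,.k,.k,⟨true,0,⟨0,[(40,0)]⟩,⟨0,[]⟩⟩,⟨false,1,⟨1,[(15,0),
  (0,0),(21,0)]⟩,⟨0,[]⟩⟩,⟨false,0,⟨0,[(36,0)]⟩,⟨3,[(11,1),(3,0),(0,0),(21,0)]⟩⟩,⟨true,0,⟨0,[(36,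
  0)]⟩,⟨0,[(35,0)]⟩⟩,[.a ⟨true,0,⟨3,[(0,3),(11,0),(6,1),(4,0),(0,0),(4,1)]⟩,⟨0,[(8,0)]⟩⟩ ⟨false,0,
  ⟨0,[(0,0),(29,0)]⟩,⟨0,[(3,0),(34,0)]⟩⟩ ⟨true,0,⟨0,[(0,0),(39,0)]⟩,⟨0,[(3,0),(27,0)]⟩⟩,.a ⟨true,0,
  ⟨0,[(0,0),(18,0)]⟩,⟨1,[(8,0),(11,0),(14,0)]⟩⟩ ⟨true,0,⟨0,[(0,0),(39,0)]⟩,⟨0,[(3,0),(27,0)]⟩⟩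
  ⟨false,1,⟨0,[(7,0),(28,0)]⟩,⟨0,[(3,0)]⟩⟩,.a ⟨true,0,⟨0,[(19,0)]⟩,⟨0,[(22,0)]⟩⟩ ⟨false,0,⟨0,[(0,0),
  (39,0)]⟩,⟨0,[(3,0),(34,0)]⟩⟩ ⟨true,0,⟨0,[(0,0),(39,0)]⟩,⟨0,[(3,0)]⟩⟩,.o ⟨false,0,⟨0,[(4,0)]⟩,⟨3,
  [(1,1),(13,0),(0,0),(15,0)]⟩⟩]⟩))

theorem ok3 : chk K t3 r10 = true := by decide +kernel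

noncomputable def t5 : Tre :=
  (.S ⟨1,0,[0,1,0,0,0,0,0,-1],[1,0,-1],[0,0,1],(⟨0,[(22,0)]⟩,⟨0,[(23,0)]⟩),⟨0,[(11,0)]⟩,.k,.k,
  ⟨false,0,⟨1,[(0,0),(5,0),(4,0),(0,0),(4,0),(6,1),(4,1),(0,0)]⟩,⟨0,[(4,0),(30,0)]⟩⟩,⟨true,0,⟨0,
  [(38,0)]⟩,⟨0,[]⟩⟩,⟨true,(-1),⟨0,[(0,0)]⟩,⟨0,[(4,0),(28,0),(1,0)]⟩⟩,⟨false,0,⟨0,[(34,0)]⟩,⟨3,[(9,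
  1),(3,0),(0,0),(21,0)]⟩⟩,[.o ⟨false,0,⟨0,[(19,0)]⟩,⟨1,[(7,1),(22,0),(5,0)]⟩⟩,.a ⟨true,0,⟨0,[(4,0),
  (12,0)]⟩,⟨0,[(7,0)]⟩⟩ ⟨true,0,⟨0,[(29,0)]⟩,⟨0,[(38,0)]⟩⟩ ⟨false,1,⟨0,[(4,0),(30,0)]⟩,⟨4,[(0,0),(0,
  0),(1,1),(4,0),(26,0)]⟩⟩,.o ⟨false,0,⟨0,[(2,0)]⟩,⟨1,[(20,1),(9,0),(4,0)]⟩⟩,.e ⟨false,1,⟨1,[(13,0),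
  (0,0),(21,0)]⟩,⟨0,[]⟩⟩ ⟨false,1,⟨0,[(4,0),(30,0)]⟩,⟨0,[(3,0)]⟩⟩]⟩)

theorem ok5 : chk K t5 r9 = true := by decide +kernel

noncomputable def t7 : Tre :=
  (.S ⟨1,0,[0,0,1,1,0,0,0,-1],[1,1,-1],[0,1,1,1,0,0,0,-1],(⟨0,[(21,0),(1,0)]⟩,⟨0,[(11,0)]⟩),⟨0,[(21,
  0)]⟩,.k,.k,⟨true,0,⟨0,[(37,0)]⟩,⟨0,[]⟩⟩,⟨false,1,⟨1,[(12,0),(0,0),(21,0)]⟩,⟨0,[]⟩⟩,⟨false,0,⟨0,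
  [(33,0)]⟩,⟨3,[(8,1),(3,0),(0,0),(21,0)]⟩⟩,⟨true,0,⟨0,[(33,0)]⟩,⟨0,[(32,0)]⟩⟩,[.a ⟨true,0,⟨3,[(0,
  3),(8,0),(6,1),(4,0),(0,0),(4,1)]⟩,⟨0,[(5,0)]⟩⟩ ⟨false,0,⟨0,[(0,0),(26,0)]⟩,⟨1,[(5,1),(10,1),(12,
  0),(5,0)]⟩⟩ ⟨true,0,⟨0,[(0,0),(36,0)]⟩,⟨0,[(1,0),(3,0)]⟩⟩,.e ⟨true,0,⟨0,[(0,0),(36,0)]⟩,⟨0,[(1,0),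
  (3,0)]⟩⟩ ⟨true,0,⟨0,[(0,0)]⟩,⟨1,[(1,0),(3,0),(1,0),(24,0)]⟩⟩,.e ⟨false,0,⟨0,[(0,0),(36,0)]⟩,⟨1,
  [(5,1),(10,1),(12,0),(5,0)]⟩⟩ ⟨false,0,⟨0,[(0,0)]⟩,⟨11,[(2,1),(2,3),(1,5),(0,3),(0,1),(19,0),(4,
  6)]⟩⟩,.o ⟨false,0,⟨0,[(1,0)]⟩,⟨1,[(19,1),(9,0),(4,0)]⟩⟩]⟩)

theorem ok7 : chk K t7 r8 = true := by decide +kernel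

noncomputable def t9 : Tre :=
  (.I [1,-1,1,0,0,0,0,-1] (.I [0,0,0,0,0,0,0,-1] (.Q [0,0,1,0,0,0,2,1,0,-1,2] (.p true [0,0,1] [1,0,
  -1] (⟨0,[(23,0)]⟩,⟨0,[(22,0)]⟩) .k 2 (⟨0,[(22,0)]⟩,⟨0,[(23,0)]⟩) .k (.r (-1) ⟨0,[(8,1),(27,0)]⟩
  ⟨0,[(0,1)]⟩)) (.R ⟨1,false,false,true,[0,0,1],[1,0,-1],[0,1,0,0,0,0,0,1],(⟨0,[(24,0)]⟩,⟨0,[(23,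
  0)]⟩),(⟨0,[(23,0)]⟩,⟨0,[(24,0)]⟩),⟨0,[(13,0)]⟩,.k,.k,.k,.k,(.r (-1) ⟨3,[(4,1),(2,3),(1,1),(1,1),
  (19,0),(4,2)]⟩ ⟨0,[(1,0),(3,0),(29,0)]⟩),.k,⟨false,1,⟨0,[(4,0),(4,0),(26,0)]⟩,⟨0,[(1,1)]⟩⟩,⟨true,
  0,⟨0,[(11,0)]⟩,⟨0,[(0,0),(0,0)]⟩⟩,⟨true,0,⟨0,[(39,0)]⟩,⟨0,[]⟩⟩,⟨false,0,⟨0,[(2,0),(15,0),(1,0)]⟩,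
  ⟨0,[(0,0),(3,0),(31,0)]⟩⟩,⟨false,0,⟨0,[(35,0)]⟩,⟨3,[(10,1),(3,0),(0,0),(21,0)]⟩⟩,⟨false,0,⟨0,[(2,
  0),(15,0),(1,0),(14,0)]⟩,⟨3,[(0,1),(3,1),(2,3),(23,0),(4,1),(0,0)]⟩⟩,[.o ⟨false,0,⟨0,[(20,0)]⟩,⟨3,
  [(0,1),(3,1),(26,0),(4,1),(0,0)]⟩⟩,.a ⟨true,0,⟨0,[(5,0),(12,0)]⟩,⟨0,[(8,0)]⟩⟩ ⟨false,1,⟨1,[(9,1),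
  (26,0),(0,0)]⟩,⟨0,[(1,0)]⟩⟩ ⟨true,0,⟨1,[(2,0),(8,0),(6,0),(1,0)]⟩,⟨0,[(0,0)]⟩⟩,.a ⟨true,0,⟨0,[(3,
  0)]⟩,⟨1,[(11,0),(11,0),(0,0)]⟩⟩ ⟨true,0,⟨0,[(9,0)]⟩,⟨0,[(1,0)]⟩⟩ ⟨false,0,⟨1,[(2,0),(8,0),(6,0),
  (1,0)]⟩,⟨1,[(0,1),(35,0),(0,0)]⟩⟩,.a ⟨true,0,⟨0,[(21,0)]⟩,⟨0,[(18,0)]⟩⟩ ⟨false,1,⟨1,[(9,1),(26,0),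
  (0,0)]⟩,⟨0,[(2,0)]⟩⟩ ⟨true,0,⟨0,[(18,0),(1,0)]⟩,⟨0,[(0,0)]⟩⟩]⟩) (.I [1,0,0,1,0,0,0,1] (.R ⟨1,
  false,false,true,[0,0,1],[1,-1],[0,1,0,-1],(⟨0,[(25,0)]⟩,⟨0,[(24,0)]⟩),(⟨0,[(28,0)]⟩,⟨0,[(29,
  0)]⟩),⟨0,[(14,0)]⟩,.k,.k,.k,.k,.k,.k,⟨true,0,⟨1,[(22,0),(0,0)]⟩,⟨0,[]⟩⟩,⟨false,0,⟨1,[(12,0),(11,
  0),(0,0)]⟩,⟨1,[(4,1),(27,0),(4,0)]⟩⟩,⟨true,0,⟨0,[(2,0),(32,0)]⟩,⟨0,[(0,0)]⟩⟩,⟨false,0,⟨2,[(1,1),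
  (1,1),(4,0),(15,0),(0,0),(9,1)]⟩,⟨1,[(0,1),(3,1),(27,0),(5,0)]⟩⟩,⟨false,0,⟨0,[(2,0)]⟩,⟨0,[(10,0),
  (27,0)]⟩⟩,⟨false,0,⟨1,[(1,0),(4,0),(17,0),(0,0)]⟩,⟨1,[(9,1),(22,0),(5,0)]⟩⟩,[.o ⟨false,0,⟨0,[(35,
  0)]⟩,⟨1,[(32,0),(3,1),(1,0)]⟩⟩,.e ⟨false,1,⟨7,[(11,3),(3,0),(0,0),(13,1),(6,2)]⟩,⟨0,[(36,0)]⟩⟩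
  ⟨false,0,⟨0,[(1,0),(6,0)]⟩,⟨1,[(4,0),(2,0),(12,0),(11,0),(3,1)]⟩⟩,.a ⟨true,0,⟨0,[(4,0)]⟩,⟨1,[(12,
  0),(11,0),(0,0)]⟩⟩ ⟨true,0,⟨0,[(35,0)]⟩,⟨0,[(36,0)]⟩⟩ ⟨false,0,⟨5,[(1,1),(1,1),(4,3),(3,2),(11,0),
  (0,0),(9,1)]⟩,⟨1,[(4,1),(27,0),(3,1),(1,0)]⟩⟩,.e ⟨false,1,⟨7,[(11,3),(3,0),(0,0),(13,1),(6,2)]⟩,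
  ⟨0,[(0,0),(2,0)]⟩⟩ ⟨false,0,⟨0,[(1,0),(6,0)]⟩,⟨1,[(22,1),(9,0),(3,1),(1,0)]⟩⟩]⟩) (.R ⟨1,false,
  false,true,[0,0,1],[1,-1],[0,1,0,0,0,0,0,1],(⟨0,[(25,0)]⟩,⟨0,[(24,0)]⟩),(⟨0,[(28,0)]⟩,⟨0,[(29,
  0)]⟩),⟨0,[(14,0)]⟩,.k,.k,.k,.k,.k,.k,⟨true,0,⟨1,[(5,0),(14,0),(2,0),(12,1)]⟩,⟨0,[(0,0)]⟩⟩,⟨false,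
  0,⟨1,[(12,0),(11,0),(0,0)]⟩,⟨1,[(4,1),(27,0),(4,0)]⟩⟩,⟨true,0,⟨0,[(40,0)]⟩,⟨0,[]⟩⟩,⟨false,0,⟨1,
  [(0,1),(11,0),(11,0),(0,0)]⟩,⟨1,[(9,1),(22,0),(3,1),(1,0)]⟩⟩,⟨false,0,⟨0,[(36,0)]⟩,⟨3,[(11,1),(3,
  0),(0,0),(21,0)]⟩⟩,⟨false,0,⟨1,[(1,0),(4,0),(17,0),(0,0)]⟩,⟨1,[(9,1),(22,0),(5,0)]⟩⟩,[.o ⟨false,0,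
  ⟨0,[(35,0)]⟩,⟨1,[(32,0),(3,1),(1,0)]⟩⟩,.e ⟨false,1,⟨1,[(10,1),(26,0),(0,0)]⟩,⟨0,[(2,0)]⟩⟩ ⟨false,
  0,⟨0,[(1,0),(6,0)]⟩,⟨1,[(4,0),(2,0),(12,0),(11,0),(3,1)]⟩⟩,.a ⟨true,0,⟨0,[(4,0)]⟩,⟨1,[(12,0),(11,
  0),(0,0)]⟩⟩ ⟨true,0,⟨0,[(10,0)]⟩,⟨0,[(2,0)]⟩⟩ ⟨false,0,⟨3,[(0,1),(7,1),(3,2),(11,0),(0,0)]⟩,⟨1,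
  [(4,1),(27,0),(3,1),(1,0)]⟩⟩,.e ⟨false,1,⟨1,[(10,1),(26,0),(0,0)]⟩,⟨0,[(3,0)]⟩⟩ ⟨false,0,⟨0,[(1,
  0),(6,0)]⟩,⟨1,[(22,1),(9,0),(3,1),(1,0)]⟩⟩]⟩))) (.S ⟨1,0,[0,1,0,0,0,0,0,-1],[1,0,-1],[0,0,0,0,0,0,
  0,-1],(⟨0,[(22,0)]⟩,⟨0,[(23,0)]⟩),⟨0,[(11,0)]⟩,.k,.k,⟨false,1,⟨1,[(13,0),(0,0),(21,0)]⟩,⟨0,[]⟩⟩,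
  ⟨true,0,⟨0,[(38,0)]⟩,⟨0,[]⟩⟩,⟨true,0,⟨0,[(34,0)]⟩,⟨0,[(33,0)]⟩⟩,⟨false,0,⟨0,[(34,0)]⟩,⟨3,[(9,1),
  (3,0),(0,0),(21,0)]⟩⟩,[.o ⟨false,0,⟨0,[(19,0)]⟩,⟨1,[(7,1),(22,0),(5,0)]⟩⟩,.e ⟨false,1,⟨0,[(1,0),
  (33,0)]⟩,⟨0,[(8,0)]⟩⟩ ⟨false,1,⟨1,[(1,0),(3,0),(22,0),(6,0)]⟩,⟨0,[(0,0)]⟩⟩,.a ⟨true,0,⟨1,[(10,0),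
  (11,0),(0,0)]⟩,⟨0,[(2,0)]⟩⟩ ⟨false,1,⟨0,[(5,0)]⟩,⟨0,[(0,0)]⟩⟩ ⟨true,0,⟨0,[(1,0),(26,0)]⟩,⟨0,[(0,
  0)]⟩⟩,.o ⟨false,0,⟨0,[(21,0)]⟩,⟨1,[(2,1),(27,0),(4,0)]⟩⟩]⟩)) (.S ⟨1,0,[0,0,0,0,0,0,0,1],[0,0,1],
  [0,1,0,0,0,0,0,1],(⟨0,[(22,0)]⟩,⟨0,[(21,0)]⟩),⟨0,[(11,0)]⟩,.k,.k,⟨true,0,⟨0,[(37,0)]⟩,⟨0,[]⟩⟩,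
  ⟨false,1,⟨1,[(12,0),(0,0),(21,0)]⟩,⟨0,[]⟩⟩,⟨false,0,⟨0,[(33,0)]⟩,⟨3,[(8,1),(3,0),(0,0),(21,0)]⟩⟩,
  ⟨true,0,⟨0,[(33,0)]⟩,⟨0,[(32,0)]⟩⟩,[.a ⟨true,0,⟨0,[(6,0)]⟩,⟨0,[(3,0),(12,0)]⟩⟩ ⟨false,0,⟨0,[(0,
  0)]⟩,⟨0,[(4,0)]⟩⟩ ⟨true,0,⟨1,[(0,0),(1,0)]⟩,⟨0,[(3,0)]⟩⟩,.o ⟨false,1,⟨1,[(6,1),(22,0),(5,0)]⟩,⟨0,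
  [(18,0)]⟩⟩,.a ⟨true,0,⟨0,[(1,0)]⟩,⟨1,[(9,0),(11,0),(0,0)]⟩⟩ ⟨false,0,⟨1,[(0,0),(1,0)]⟩,⟨0,[(4,
  0)]⟩⟩ ⟨true,0,⟨1,[(0,0),(1,0)]⟩,⟨0,[(1,0),(16,0)]⟩⟩,.a ⟨true,0,⟨0,[(19,0)]⟩,⟨0,[(16,0)]⟩⟩ ⟨true,0,
  ⟨0,[(0,0)]⟩,⟨0,[(3,0)]⟩⟩ ⟨false,1,⟨0,[(0,0),(34,0)]⟩,⟨0,[(3,0)]⟩⟩]⟩))

theorem ok9 : chk K t9 r7 = true := by decide +kernel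

noncomputable def t11 : Tre :=
  (.S ⟨1,0,[0,0,0,0,0,0,0,-1],[1,0,-1],[0,1,0,0,0,0,0,-1],(⟨0,[(19,0)]⟩,⟨0,[(20,0)]⟩),⟨0,[(8,0)]⟩,
  .k,.k,⟨true,0,⟨0,[(35,0)]⟩,⟨0,[]⟩⟩,⟨false,1,⟨1,[(10,0),(0,0),(21,0)]⟩,⟨0,[]⟩⟩,⟨false,0,⟨0,[(31,
  0)]⟩,⟨3,[(6,1),(3,0),(0,0),(21,0)]⟩⟩,⟨true,0,⟨0,[(31,0)]⟩,⟨0,[(30,0)]⟩⟩,[.a ⟨true,0,⟨0,[(1,0),(12,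
  0)]⟩,⟨0,[(4,0)]⟩⟩ ⟨false,0,⟨0,[(0,0)]⟩,⟨0,[(5,0),(27,0)]⟩⟩ ⟨true,0,⟨0,[(0,0),(25,0)]⟩,⟨0,[(5,0),
  (20,0)]⟩⟩,.a ⟨true,0,⟨0,[(0,0),(13,0),(11,1)]⟩,⟨0,[(15,0)]⟩⟩ ⟨true,0,⟨0,[(0,0),(25,0)]⟩,⟨0,[(5,0),
  (20,0)]⟩⟩ ⟨false,1,⟨0,[(0,0),(32,0)]⟩,⟨0,[(5,0)]⟩⟩,.a ⟨true,0,⟨1,[(7,0),(11,0),(0,0)]⟩,⟨0,[(0,0),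
  (3,0),(21,0)]⟩⟩ ⟨false,0,⟨0,[(0,0),(25,0)]⟩,⟨0,[(5,0),(27,0)]⟩⟩ ⟨true,0,⟨0,[(0,0),(25,0)]⟩,⟨0,[(5,
  0)]⟩⟩,.o ⟨false,0,⟨0,[(18,0)]⟩,⟨1,[(0,1),(3,1),(22,0),(5,0)]⟩⟩]⟩)

theorem ok11 : chk K t11 r6 = true := by decide +kernel

noncomputable def t13 : Tre :=
  (.S ⟨1,0,[0,0,0,0,0,0,0,1],[0,0,1],[0,1,0,0,0,0,0,1],(⟨0,[(19,0)]⟩,⟨0,[(18,0)]⟩),⟨0,[(8,0)]⟩,.k,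
  .k,⟨true,0,⟨0,[(34,0)]⟩,⟨0,[]⟩⟩,⟨false,1,⟨1,[(9,0),(0,0),(21,0)]⟩,⟨0,[]⟩⟩,⟨false,0,⟨0,[(30,0)]⟩,
  ⟨3,[(5,1),(3,0),(0,0),(21,0)]⟩⟩,⟨true,0,⟨0,[(30,0)]⟩,⟨0,[(29,0)]⟩⟩,[.e ⟨false,0,⟨2,[(0,1),(3,0),
  (19,0)]⟩,⟨0,[(1,0)]⟩⟩ ⟨false,0,⟨0,[(0,0)]⟩,⟨0,[(1,0),(32,0)]⟩⟩,.o ⟨false,1,⟨1,[(3,1),(22,0),(5,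
  0)]⟩,⟨0,[(15,0)]⟩⟩,.o ⟨false,1,⟨1,[(16,1),(9,0),(4,0)]⟩,⟨0,[(0,0),(14,0),(9,0)]⟩⟩,.a ⟨true,0,⟨0,
  [(16,0)]⟩,⟨0,[(13,0)]⟩⟩ ⟨false,0,⟨0,[(0,0)]⟩,⟨1,[(1,1),(14,0),(0,0)]⟩⟩ ⟨true,0,⟨0,[(0,0)]⟩,⟨0,
  [(15,0),(0,0)]⟩⟩]⟩)

theorem ok13 : chk K t13 r5 = true := by decide +kernel

noncomputable def t15 : Tre :=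
  (.Q [0,-1,0,1,0,0,1,1,0,0,1] (.p true [0,0,1] [] (⟨0,[(18,0)]⟩,⟨0,[(17,0)]⟩) .k 0 (⟨0,[]⟩,⟨0,[]⟩)
  .k .k) (.R ⟨2,true,false,false,[0,1],[0,1,1],[0,0,1,1],(⟨0,[]⟩,⟨0,[]⟩),(⟨0,[(19,0),(0,0)]⟩,⟨0,[(7,
  0)]⟩),⟨0,[]⟩,.k,.k,.k,.k,.k,.k,⟨true,1,⟨1,[(15,1),(0,1),(14,0),(0,0)]⟩,⟨0,[(1,0),(23,0)]⟩⟩,⟨false,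
  1,⟨0,[(16,0),(14,0)]⟩,⟨2,[(1,0),(11,1),(1,0),(9,1),(0,0)]⟩⟩,⟨false,1,⟨1,[(9,0),(0,0),(21,0)]⟩,⟨0,
  []⟩⟩,⟨true,0,⟨0,[(3,0)]⟩,⟨0,[(15,0)]⟩⟩,⟨true,0,⟨0,[(30,0)]⟩,⟨0,[(29,0)]⟩⟩,⟨false,0,⟨0,[(0,0)]⟩,⟨3,
  [(5,1),(3,0),(0,0),(4,3),(16,0)]⟩⟩,[]⟩) (.I [0,-1,0,1,1,0,0,-1] (.S ⟨1,0,[0,0,0,0,0,0,0,1],[0,0,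
  1],[],(⟨0,[(20,0)]⟩,⟨0,[(19,0)]⟩),⟨0,[(9,0)]⟩,.k,.k,⟨true,1,⟨0,[(0,0),(29,0)]⟩,⟨0,[(2,0)]⟩⟩,
  ⟨false,1,⟨4,[(0,1),(4,1),(0,0),(26,1)]⟩,⟨0,[]⟩⟩,⟨false,1,⟨0,[(0,0)]⟩,⟨3,[(2,2),(2,0),(0,1),(26,
  0)]⟩⟩,⟨true,0,⟨0,[(31,0)]⟩,⟨0,[(30,0)]⟩⟩,[.e ⟨false,1,⟨10,[(0,3),(4,3),(0,1),(18,0),(6,4)]⟩,⟨0,
  []⟩⟩ ⟨false,0,⟨1,[(2,1),(29,0),(0,0)]⟩,⟨0,[(0,0),(29,0)]⟩⟩,.o ⟨false,1,⟨1,[(4,1),(22,0),(5,0)]⟩,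
  ⟨0,[(16,0)]⟩⟩,.o ⟨false,1,⟨1,[(17,1),(9,0),(4,0)]⟩,⟨2,[(2,0),(11,1),(1,0),(9,1),(0,0)]⟩⟩,.a ⟨true,
  0,⟨0,[(17,0)]⟩,⟨0,[(14,0)]⟩⟩ ⟨false,1,⟨1,[(32,0),(0,0)]⟩,⟨1,[(17,0),(0,0)]⟩⟩ ⟨true,0,⟨1,[(2,1),
  (29,0),(0,0)]⟩,⟨0,[(16,0),(0,0)]⟩⟩]⟩) (.Q [0,0,0,-1,0,0,-1,-1,0,1,-1] (.p false [0,0,1] [1] (⟨0,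
  [(20,0)]⟩,⟨0,[(19,0)]⟩) .k 1 (⟨0,[]⟩,⟨0,[]⟩) .k .k) (.Q [0,-1,-1,-1,0,0,-1,0,0,1,-1] (.p false [0,
  0,1] [1] (⟨0,[(21,0)]⟩,⟨0,[(20,0)]⟩) .k 1 (⟨0,[]⟩,⟨0,[]⟩) .k .k) (.R ⟨1,false,false,false,[0,0,1],
  [1,-1],[1,1,0,-1,0,0,0,1],(⟨0,[(22,0)]⟩,⟨0,[(21,0)]⟩),(⟨0,[(25,0)]⟩,⟨0,[(26,0)]⟩),⟨0,[(11,0)]⟩,.k,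
  .k,.k,.k,.k,.k,⟨false,(-1),⟨0,[(4,0)]⟩,⟨0,[(18,0),(0,0),(14,0),(0,0)]⟩⟩,⟨true,(-1),⟨0,[(1,0),(2,
  0),(23,0),(4,0)]⟩,⟨1,[(19,1),(9,0),(4,0)]⟩⟩,⟨true,0,⟨0,[(32,0)]⟩,⟨0,[(33,0)]⟩⟩,⟨true,0,⟨0,[(1,
  0)]⟩,⟨1,[(4,1),(14,1),(9,0),(3,1),(0,0)]⟩⟩,⟨false,0,⟨0,[]⟩,⟨1,[(12,0),(0,0),(21,0)]⟩⟩,⟨true,0,⟨0,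
  [(1,0),(31,0)]⟩,⟨1,[(4,1),(14,1),(9,0),(4,0)]⟩⟩,[.a ⟨true,0,⟨1,[(1,0),(3,0),(15,0),(0,0)]⟩,⟨0,
  [(33,0)]⟩⟩ ⟨true,(-1),⟨0,[(2,0)]⟩,⟨0,[(18,0),(0,0),(13,0),(1,0)]⟩⟩ ⟨false,0,⟨3,[(0,2),(0,0),(5,0),
  (19,0)]⟩,⟨1,[(19,1),(9,0),(3,1),(0,0)]⟩⟩,.e ⟨false,0,⟨1,[(2,1),(31,0),(0,0)]⟩,⟨1,[(18,1),(0,1),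
  (13,1),(0,0),(0,0)]⟩⟩ ⟨false,0,⟨0,[(0,0)]⟩,⟨3,[(12,0),(0,0),(5,3),(7,1),(1,1),(3,3),(0,0)]⟩⟩,.o
  ⟨false,1,⟨1,[(19,1),(9,0),(4,0)]⟩,⟨4,[(0,1),(3,0),(13,0),(1,1),(8,0),(3,1)]⟩⟩,.e ⟨false,0,⟨1,[(2,
  1),(31,0),(0,0)]⟩,⟨0,[(18,0),(0,0),(13,0),(1,0)]⟩⟩ ⟨false,0,⟨0,[(0,0)]⟩,⟨1,[(12,0),(0,0),(5,1),(9,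
  0),(3,1)]⟩⟩]⟩) (.Q [0,1,0,1,0,0,0,0,0,-1] (.pp true [-1,1]) (.Q [0,0,0,-2,0,0,-1,-1,0,1,-1] (.p
  false [0,0,1] [1] (⟨0,[(23,0)]⟩,⟨0,[(22,0)]⟩) .k 1 (⟨0,[]⟩,⟨0,[]⟩) .k .k) (.Q [0,0,1,1,-1,0,-1,0,
  0,0,-1] (.p false [0,0,1] [] (⟨0,[(24,0)]⟩,⟨0,[(23,0)]⟩) .k 0 (⟨0,[]⟩,⟨0,[]⟩) .k .k) (.Q [0,0,0,0,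
  0,2,0,0,0,-1,1] (.p true [0,0,1] [1] (⟨0,[(25,0)]⟩,⟨0,[(24,0)]⟩) .k 1 (⟨0,[]⟩,⟨0,[]⟩) .k .k) (.R
  ⟨0,false,false,false,[1,-1,-1],[1,-1],[0,0,1],(⟨0,[(14,0)]⟩,⟨0,[(26,0),(0,0)]⟩),(⟨0,[(29,0)]⟩,⟨0,
  [(30,0)]⟩),⟨0,[(0,0)]⟩,.k,.k,(.r (-2) ⟨1,[(2,1),(20,1),(9,0),(4,2)]⟩ ⟨1,[(1,2),(19,1),(1,0),(13,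
  0),(1,0)]⟩),.k,.k,.k,⟨true,(-1),⟨0,[(1,0),(21,0)]⟩,⟨7,[(12,3),(3,0),(0,0),(13,1),(6,2)]⟩⟩,⟨false,
  1,⟨0,[(23,0),(14,0)]⟩,⟨25,[(1,5),(0,1),(3,1),(6,5),(6,5),(12,6),(5,0)]⟩⟩,⟨false,(-1),⟨0,[(1,0),(8,
  0),(21,0)]⟩,⟨1,[(2,1),(1,1),(33,2),(0,0)]⟩⟩,⟨true,0,⟨0,[(10,0)]⟩,⟨0,[(22,0)]⟩⟩,⟨false,0,⟨0,[]⟩,⟨0,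
  []⟩⟩,⟨false,0,⟨0,[]⟩,⟨0,[]⟩⟩,[.a ⟨true,0,⟨2,[(2,0),(6,0),(15,1),(0,1)]⟩,⟨0,[(37,0)]⟩⟩ ⟨true,0,⟨1,
  [(23,0),(0,0)]⟩,⟨0,[]⟩⟩ ⟨false,2,⟨7,[(12,3),(3,0),(0,0),(5,7),(7,1),(6,10)]⟩,⟨0,[(1,0)]⟩⟩,.o
  ⟨false,1,⟨3,[(12,1),(3,0),(0,0),(21,0)]⟩,⟨0,[(3,0)]⟩⟩,.e ⟨false,0,⟨0,[(32,0)]⟩,⟨1,[(16,0),(0,0),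
  (20,0)]⟩⟩ ⟨false,2,⟨3,[(12,1),(3,0),(0,0),(5,3),(14,3),(0,0)]⟩,⟨0,[(1,0)]⟩⟩,.o ⟨false,(-1),⟨2,[(1,
  1),(0,0),(1,0),(1,0),(17,0),(7,1)]⟩,⟨1,[(23,1),(9,0),(4,2)]⟩⟩]⟩) (.I [0,-1,-1,-1,1] (.S ⟨1,0,[0,1,
  -1,-1],[1,-1],[0,0,-1,-1],(⟨0,[(30,0)]⟩,⟨0,[(31,0)]⟩),⟨1,[(1,0),(14,0),(13,0)]⟩,.k,(.r (-2) ⟨3,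
  [(13,3),(3,0),(0,0),(13,1),(6,2)]⟩ ⟨0,[(2,0),(21,0),(13,0)]⟩),⟨false,1,⟨1,[(17,0),(0,0),(21,0)]⟩,
  ⟨0,[]⟩⟩,⟨true,0,⟨0,[(42,0)]⟩,⟨0,[]⟩⟩,⟨true,0,⟨0,[(38,0)]⟩,⟨0,[(37,0)]⟩⟩,⟨false,0,⟨0,[(38,0)]⟩,⟨3,
  [(13,1),(3,0),(0,0),(21,0)]⟩⟩,[.o ⟨false,0,⟨0,[(37,0)]⟩,⟨1,[(34,0),(3,1),(1,0)]⟩⟩,.e ⟨true,1,⟨0,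
  [(0,0)]⟩,⟨1,[(2,1),(2,0),(0,0),(15,0),(1,0)]⟩⟩ ⟨true,1,⟨7,[(13,3),(3,0),(0,0),(13,1),(6,2)]⟩,⟨0,
  [(2,0),(21,0)]⟩⟩,.o ⟨false,0,⟨1,[(24,0),(0,0)]⟩,⟨1,[(34,0),(4,0)]⟩⟩,.a ⟨true,(-1),⟨2,[(2,2),(0,0),
  (6,0),(13,2),(1,1),(0,1)]⟩,⟨0,[(39,0)]⟩⟩ ⟨false,2,⟨3,[(13,1),(3,0),(0,0),(20,3),(0,0)]⟩,⟨0,[(2,0),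
  (21,0)]⟩⟩ ⟨true,1,⟨0,[(0,0),(31,0)]⟩,⟨0,[(2,0),(21,0)]⟩⟩]⟩) (.Q [0,0,0,2,0,0,-1,-1,0,0,-1] (.p
  false [0,0,1] [] (⟨0,[(27,0)]⟩,⟨0,[(26,0)]⟩) .k 0 (⟨0,[]⟩,⟨0,[]⟩) .k .k) (.R ⟨1,true,false,false,
  [0,0,1],[0,1],[1,1,0,-1,0,0,0,1],(⟨0,[(28,0)]⟩,⟨0,[(27,0)]⟩),(⟨0,[(32,0)]⟩,⟨0,[(31,0)]⟩),⟨0,[(17,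
  0)]⟩,.k,.k,.k,.k,(.r (-1) ⟨4,[(8,3),(4,0),(0,2),(25,4),(0,0)]⟩ ⟨1,[(0,1),(24,2),(0,0)]⟩),.k,⟨true,
  0,⟨10,[(8,9),(4,0),(0,5),(18,2),(6,3)]⟩,⟨0,[(0,0),(24,0),(8,0)]⟩⟩,⟨false,1,⟨1,[(22,1),(12,0),(4,
  0)]⟩,⟨0,[(25,0)]⟩⟩,⟨true,0,⟨0,[(38,0)]⟩,⟨0,[(39,0)]⟩⟩,⟨false,1,⟨3,[(0,1),(17,0),(0,0),(4,1),(16,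
  2)]⟩,⟨0,[(11,0)]⟩⟩,⟨false,0,⟨0,[]⟩,⟨1,[(18,0),(0,0),(21,0)]⟩⟩,⟨true,0,⟨0,[(0,0)]⟩,⟨0,[(11,0),(26,
  0)]⟩⟩,[]⟩) (.Q [0,-1,0,2,0,0,1,1,0,0,1] (.p true [0,0,1] [] (⟨0,[(28,0)]⟩,⟨0,[(27,0)]⟩) .k 0 (⟨0,
  []⟩,⟨0,[]⟩) .k .k) (.S ⟨1,3,[],[1,-1,-1],[1,0,-1,-2,0,0,0,-1],(⟨0,[(17,0)]⟩,⟨0,[(29,0),(0,0)]⟩),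
  ⟨0,[(3,0)]⟩,.k,(.r (-2) ⟨1,[(5,1),(20,1),(9,0),(4,2)]⟩ ⟨1,[(0,0),(1,0),(1,0),(19,0),(2,0),(7,
  0)]⟩),⟨false,1,⟨3,[(15,1),(3,0),(0,0),(21,0)]⟩,⟨0,[(40,0)]⟩⟩,⟨true,0,⟨1,[(0,0),(23,0)]⟩,⟨0,[(10,
  0)]⟩⟩,⟨true,0,⟨0,[]⟩,⟨0,[(44,0)]⟩⟩,⟨false,0,⟨0,[(0,0)]⟩,⟨0,[(15,0),(9,0)]⟩⟩,[.fa ⟨false,2,⟨1,[(5,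
  1),(20,1),(9,0),(4,2)]⟩,⟨1,[(0,0),(3,1),(19,0)]⟩⟩ ⟨true,1,⟨0,[(26,0),(14,0)]⟩,⟨2,[(4,1),(0,0),(1,
  0),(1,0),(17,0),(7,1)]⟩⟩,.a ⟨true,0,⟨0,[(0,0),(4,0)]⟩,⟨0,[(44,0)]⟩⟩ ⟨true,2,⟨1,[(5,1),(20,1),(9,
  0),(4,1),(0,0)]⟩,⟨3,[(0,0),(1,3),(1,3),(7,1),(11,0)]⟩⟩ ⟨false,2,⟨1,[(26,1),(14,2),(0,0)]⟩,⟨2,[(2,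
  0),(1,0),(4,0),(0,0),(16,0)]⟩⟩,.a ⟨true,(-1),⟨8,[(0,3),(1,3),(1,4),(0,6),(6,2),(3,1)]⟩,⟨0,[(26,0),
  (14,0)]⟩⟩ ⟨false,2,⟨1,[(5,1),(20,1),(9,0),(4,1),(0,0)]⟩,⟨1,[(0,0),(3,1),(19,0)]⟩⟩ ⟨true,1,⟨0,[(26,
  0),(14,0)]⟩,⟨2,[(2,0),(1,0),(4,0),(0,0),(16,0)]⟩⟩,.o ⟨false,(-1),⟨2,[(4,1),(0,0),(1,0),(1,0),(17,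
  0),(7,1)]⟩,⟨1,[(26,1),(9,0),(4,2)]⟩⟩]⟩) (.Q [0,0,-1,0,1,0,0,0,-1,0,0,-1] (.p false [0,0,0,0,1] []
  (⟨0,[(22,0)]⟩,⟨0,[(21,0)]⟩) .k 0 (⟨0,[]⟩,⟨0,[]⟩) .k .k) (.Q [-1,0,0,0,0,0,0,0,-1,1,0,-1] (.p
  false [0,0,0,0,1] [1] (⟨0,[(23,0)]⟩,⟨0,[(22,0)]⟩) .k 1 (⟨0,[]⟩,⟨0,[]⟩) .k .k) (.Q [0,0,0,0,0,1,0,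
  0,0,-1,0,1] (.ed false [0,1,0,0,1] .k) (.Q [1,1,0,0,0,0,0,0,1,-1,0,1] (.p true [0,0,0,0,1] [1]
  (⟨0,[(25,0)]⟩,⟨0,[(24,0)]⟩) .k 1 (⟨0,[]⟩,⟨0,[]⟩) .k .k) (.S ⟨1,0,[1,1],[0,0,0,0,1],[],(⟨0,[(26,
  0)]⟩,⟨0,[(25,0)]⟩),⟨1,[(1,0),(5,0),(14,0),(3,0)]⟩,.k,(.r (-1) ⟨7,[(19,3),(3,0),(0,0),(13,1),(6,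
  2)]⟩ ⟨6,[(6,1),(4,1),(8,1),(9,1),(13,2),(1,1),(0,0)]⟩),⟨false,1,⟨4,[(23,1),(0,1),(21,2),(1,0)]⟩,
  ⟨0,[]⟩⟩,⟨true,0,⟨0,[(48,0)]⟩,⟨0,[]⟩⟩,⟨true,0,⟨0,[(6,0),(32,0),(5,0)]⟩,⟨0,[(43,0)]⟩⟩,⟨false,0,⟨0,
  [(44,0)]⟩,⟨3,[(19,1),(3,0),(0,0),(21,0)]⟩⟩,[.o ⟨false,0,⟨0,[(0,0)]⟩,⟨0,[(3,0),(35,0)]⟩⟩,.a ⟨true,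
  0,⟨0,[(24,0)]⟩,⟨0,[(2,0)]⟩⟩ ⟨false,1,⟨1,[(45,0),(0,0)]⟩,⟨0,[(48,0)]⟩⟩ ⟨true,0,⟨0,[]⟩,⟨1,[(30,0),
  (0,0)]⟩⟩,.e ⟨false,1,⟨1,[(23,0),(0,0),(21,0)]⟩,⟨0,[]⟩⟩ ⟨false,0,⟨0,[]⟩,⟨1,[(23,0),(0,0),(21,0)]⟩⟩,
  .o ⟨false,0,⟨0,[(0,0),(38,0)]⟩,⟨0,[(3,0)]⟩⟩]⟩) (.R ⟨2,true,false,true,[0,1],[0,0,0,0,1],[1,0,1],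
  (⟨0,[]⟩,⟨0,[]⟩),(⟨0,[(26,0)]⟩,⟨0,[(25,0)]⟩),⟨0,[]⟩,.k,.k,.k,(.r 0 ⟨6,[(6,1),(4,1),(8,1),(9,1),(13,
  2),(1,1),(0,0)]⟩ ⟨7,[(19,3),(3,0),(0,0),(13,1),(6,2)]⟩),.k,.k,⟨true,0,⟨0,[(39,0)]⟩,⟨0,[(48,0)]⟩⟩,
  ⟨false,0,⟨0,[(24,0)]⟩,⟨0,[(3,0)]⟩⟩,⟨false,1,⟨3,[(19,1),(3,0),(0,0),(21,0)]⟩,⟨0,[(44,0)]⟩⟩,⟨true,0,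
  ⟨0,[(24,0),(18,0)]⟩,⟨0,[(0,0),(9,0)]⟩⟩,⟨true,0,⟨0,[]⟩,⟨0,[(48,0)]⟩⟩,⟨false,0,⟨0,[(24,0)]⟩,⟨11,[(0,
  5),(22,5),(11,1),(4,0),(5,2)]⟩⟩,[]⟩)) (.Q [-1,1,0,0,0,0,0,0,-1,0,0,-1] (.p false [0,0,0,0,1] []
  (⟨0,[(25,0)]⟩,⟨0,[(24,0)]⟩) .k 0 (⟨0,[]⟩,⟨0,[]⟩) .k .k) (.S ⟨1,0,[-1,1],[1,0,0,0,-1],[-1],(⟨0,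
  [(25,0)]⟩,⟨0,[(26,0)]⟩),⟨0,[(1,0)]⟩,.k,(.r (-1) ⟨13,[(19,6),(3,0),(0,0),(13,1),(6,5),(2,2)]⟩ ⟨2,
  [(6,0),(4,0),(8,0),(9,0),(13,0),(1,0)]⟩),⟨false,1,⟨1,[(23,0),(0,0),(21,0)]⟩,⟨0,[]⟩⟩,⟨true,0,⟨0,
  [(48,0)]⟩,⟨0,[]⟩⟩,⟨true,0,⟨0,[(44,0)]⟩,⟨0,[(43,0)]⟩⟩,⟨false,0,⟨0,[(44,0)]⟩,⟨3,[(19,1),(3,0),(0,0),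
  (21,0)]⟩⟩,[.o ⟨false,0,⟨0,[(0,0)]⟩,⟨1,[(24,1),(15,0),(5,0)]⟩⟩,.e ⟨false,1,⟨0,[(39,0),(5,0)]⟩,⟨0,
  [(48,0)]⟩⟩ ⟨false,1,⟨9,[(23,3),(0,3),(20,4),(0,0),(1,1)]⟩,⟨0,[]⟩⟩,.a ⟨true,0,⟨0,[(2,0)]⟩,⟨0,[(24,
  0)]⟩⟩ ⟨false,1,⟨4,[(23,1),(0,1),(21,2),(1,0)]⟩,⟨0,[]⟩⟩ ⟨true,0,⟨0,[(48,0)]⟩,⟨0,[]⟩⟩,.o ⟨false,0,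
  ⟨0,[(0,0),(38,0)]⟩,⟨1,[(24,1),(15,0),(4,0)]⟩⟩]⟩) (.R ⟨2,true,false,false,[0,1],[0,0,0,0,1],[1,0,
  1],(⟨0,[]⟩,⟨0,[]⟩),(⟨0,[(26,0)]⟩,⟨0,[(25,0)]⟩),⟨0,[]⟩,.k,.k,.k,(.r 0 ⟨6,[(6,1),(4,1),(8,1),(9,1),
  (13,2),(1,1),(0,0)]⟩ ⟨7,[(19,3),(3,0),(0,0),(13,1),(6,2)]⟩),.k,.k,⟨true,0,⟨1,[(30,0),(0,0)]⟩,⟨0,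
  []⟩⟩,⟨false,0,⟨0,[(24,0)]⟩,⟨0,[(3,0)]⟩⟩,⟨false,1,⟨3,[(19,1),(3,0),(0,0),(21,0)]⟩,⟨0,[(44,0)]⟩⟩,
  ⟨true,0,⟨3,[(0,0),(3,0),(0,0),(18,2)]⟩,⟨0,[(2,0),(7,0)]⟩⟩,⟨true,0,⟨0,[]⟩,⟨0,[(48,0)]⟩⟩,⟨false,0,
  ⟨0,[(0,0)]⟩,⟨9,[(2,1),(20,7),(16,0),(5,0),(1,1)]⟩⟩,[]⟩))) (.R ⟨1,false,false,true,[0,0,1],[0,0,0,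
  0,1],[0,0,0,0,0,0,0,1],(⟨0,[(31,0)]⟩,⟨0,[(30,0)]⟩),(⟨0,[(24,0)]⟩,⟨0,[(23,0)]⟩),⟨0,[(20,0)]⟩,.k,.k,
  .k,.k,(.r 0 ⟨0,[(11,0),(25,0),(5,0)]⟩ ⟨1,[(9,1),(0,1),(10,0),(0,0),(19,1),(1,0)]⟩),.k,⟨true,0,⟨0,
  [(4,0),(6,0),(25,2),(5,1)]⟩,⟨0,[(9,0),(0,0)]⟩⟩,⟨false,0,⟨61,[(0,61),(4,5),(0,5),(0,1),(3,1),(8,5),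
  (4,53),(6,17),(10,6),(0,0)]⟩,⟨0,[(1,0),(26,0)]⟩⟩,⟨false,1,⟨1,[(21,0),(0,0),(21,0)]⟩,⟨0,[]⟩⟩,
  ⟨false,0,⟨0,[(0,0),(9,0),(31,0)]⟩,⟨0,[(1,0),(13,0),(21,0)]⟩⟩,⟨true,0,⟨0,[(42,0)]⟩,⟨0,[(41,0)]⟩⟩,
  ⟨false,0,⟨0,[(0,0),(9,0),(31,1)]⟩,⟨0,[(1,0),(12,0),(22,0)]⟩⟩,[.o ⟨false,0,⟨9,[(0,7),(1,0),(6,1),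
  (6,0),(5,1),(6,0),(6,2)]⟩,⟨0,[(1,0),(35,0)]⟩⟩,.o ⟨false,0,⟨0,[(0,0)]⟩,⟨1,[(1,0),(19,0),(23,0)]⟩⟩,
  .o ⟨false,1,⟨1,[(28,1),(9,0),(4,0)]⟩,⟨12,[(2,0),(3,2),(4,0),(6,2),(6,2),(12,2),(5,0)]⟩⟩,.a ⟨true,
  0,⟨0,[(28,0)]⟩,⟨0,[(25,0)]⟩⟩ ⟨true,0,⟨1,[(13,1),(29,0),(0,0)]⟩,⟨0,[(9,0),(0,0)]⟩⟩ ⟨false,0,⟨0,[(0,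
  0),(24,0)]⟩,⟨0,[(1,0),(26,0),(8,0)]⟩⟩]⟩)) (.Q [0,0,1,0,0,0,0,0,-1,1,0,-1] (.p false [0,0,0,0,1]
  [1] (⟨0,[(23,0)]⟩,⟨0,[(22,0)]⟩) .k 1 (⟨0,[]⟩,⟨0,[]⟩) .k .k) (.Q [0,0,0,0,0,-1,0,0,0,0,0,1] (.ed
  false [1,-1,0,0,1] .k) (.Q [-1,-1,1,0,1,0,0,0,-2,1,0,-2] (.p false [0,0,0,0,1] [1,0,0,0,-1] (⟨0,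
  [(25,0)]⟩,⟨0,[(24,0)]⟩) .k 2 (⟨0,[(24,0)]⟩,⟨0,[(25,0)]⟩) .k (.r 0 ⟨0,[]⟩ ⟨4,[(22,2),(0,2),(21,1),
  (1,3)]⟩)) (.S ⟨1,0,[1],[0,0,0,0,1],[1,1],(⟨0,[(26,0)]⟩,⟨0,[(25,0)]⟩),⟨0,[(1,0)]⟩,.k,(.r (-1) ⟨7,
  [(19,3),(3,0),(0,0),(13,1),(6,2)]⟩ ⟨14,[(2,3),(0,1),(7,3),(12,1),(6,3),(12,10),(1,1),(0,0)]⟩),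
  ⟨true,0,⟨0,[(48,0)]⟩,⟨0,[]⟩⟩,⟨false,1,⟨1,[(23,0),(0,0),(21,0)]⟩,⟨0,[]⟩⟩,⟨false,0,⟨0,[(44,0)]⟩,⟨3,
  [(19,1),(3,0),(0,0),(21,0)]⟩⟩,⟨true,0,⟨0,[(44,0)]⟩,⟨0,[(43,0)]⟩⟩,[.o ⟨false,0,⟨1,[(3,1),(36,0),(4,
  0)]⟩,⟨9,[(0,1),(22,5),(16,0),(4,0),(2,1)]⟩⟩,.a ⟨true,0,⟨1,[(3,1),(41,0),(0,0)]⟩,⟨2,[(0,0),(1,0),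
  (3,2),(2,0),(3,0),(16,0),(14,2)]⟩⟩ ⟨true,0,⟨0,[]⟩,⟨1,[(30,0),(0,0)]⟩⟩ ⟨false,1,⟨1,[(45,0),(0,0)]⟩,
  ⟨0,[(48,0)]⟩⟩,.o ⟨false,0,⟨1,[(3,1),(36,0),(4,0)]⟩,⟨0,[(23,0)]⟩⟩,.e ⟨false,1,⟨1,[(23,0),(0,0),(20,
  0)]⟩,⟨0,[(39,0)]⟩⟩ ⟨false,1,⟨1,[(45,0),(0,0)]⟩,⟨1,[(30,0),(0,0)]⟩⟩]⟩) (.S ⟨1,0,[1,1],[0,0,0,0,1],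
  [],(⟨0,[(26,0)]⟩,⟨0,[(25,0)]⟩),⟨0,[(1,0)]⟩,.k,(.r (-1) ⟨7,[(19,3),(3,0),(0,0),(13,1),(6,2)]⟩ ⟨14,
  [(2,3),(0,1),(7,3),(12,1),(6,3),(12,10),(1,1),(0,0)]⟩),⟨false,1,⟨4,[(23,1),(0,1),(21,2),(1,0)]⟩,
  ⟨0,[]⟩⟩,⟨true,0,⟨0,[(48,0)]⟩,⟨0,[]⟩⟩,⟨true,0,⟨0,[(6,0),(32,0),(5,0)]⟩,⟨0,[(43,0)]⟩⟩,⟨false,0,⟨0,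
  [(44,0)]⟩,⟨3,[(19,1),(3,0),(0,0),(21,0)]⟩⟩,[.a ⟨true,(-1),⟨5,[(0,2),(5,2),(2,0),(6,0),(15,1),(0,
  1)]⟩,⟨1,[(2,1),(42,0),(0,0)]⟩⟩ ⟨false,1,⟨1,[(23,0),(0,0),(20,0)]⟩,⟨0,[]⟩⟩ ⟨true,0,⟨0,[(48,0)]⟩,⟨0,
  [(39,0)]⟩⟩,.o ⟨false,0,⟨7,[(0,1),(2,1),(20,1),(15,2),(5,0)]⟩,⟨3,[(2,1),(20,1),(16,0),(4,0)]⟩⟩,.o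
  ⟨false,0,⟨7,[(0,1),(2,1),(20,1),(15,2),(5,0)]⟩,⟨0,[(23,0)]⟩⟩,.e ⟨false,1,⟨1,[(45,0),(0,0)]⟩,⟨1,
  [(30,0),(0,0)]⟩⟩ ⟨false,1,⟨1,[(23,0),(0,0),(20,0)]⟩,⟨0,[(39,0)]⟩⟩]⟩)) (.Q [1,-1,0,-1,0,0,1,1,1,-1,
  1,1] (.p true [0,0,1] [1,0,0,0,-1] (⟨0,[(32,0)]⟩,⟨0,[(31,0)]⟩) .k 2 (⟨0,[(24,0)]⟩,⟨0,[(25,0)]⟩)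
  .k (.r 0 ⟨1,[(14,0),(2,0),(27,0)]⟩ ⟨1,[(10,1),(0,1),(32,0),(0,0)]⟩)) (.R ⟨0,false,false,true,[0,0,
  0,0,1],[0,1],[1,1],(⟨0,[(26,0)]⟩,⟨0,[(25,0)]⟩),(⟨0,[(37,0)]⟩,⟨0,[(36,0)]⟩),⟨0,[(1,0)]⟩,.k,.k,(.r
  (-1) ⟨7,[(19,3),(3,0),(0,0),(13,1),(6,2)]⟩ ⟨14,[(2,3),(0,1),(7,3),(12,1),(6,3),(12,10),(1,1),(0,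
  0)]⟩),(.r (-1) ⟨7,[(19,3),(3,0),(0,0),(13,1),(6,2)]⟩ ⟨14,[(2,3),(0,1),(7,3),(12,1),(6,3),(12,10),
  (1,1),(0,0)]⟩),.k,.k,⟨true,1,⟨7,[(19,3),(3,0),(0,0),(13,1),(6,2)]⟩,⟨0,[(6,0),(32,0)]⟩⟩,⟨false,2,
  ⟨0,[(23,0),(21,0)]⟩,⟨0,[(3,0)]⟩⟩,⟨true,0,⟨0,[(48,0)]⟩,⟨0,[]⟩⟩,⟨false,1,⟨0,[(23,0),(20,0)]⟩,⟨2,[(0,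
  0),(2,1),(5,0),(35,0),(0,0)]⟩⟩,⟨false,0,⟨0,[]⟩,⟨0,[]⟩⟩,⟨false,0,⟨0,[]⟩,⟨0,[]⟩⟩,[.o ⟨false,0,⟨0,
  [(10,0)]⟩,⟨3,[(19,1),(3,0),(0,0),(21,0)]⟩⟩,.e ⟨true,0,⟨0,[]⟩,⟨1,[(30,0),(0,0)]⟩⟩ ⟨true,1,⟨0,[(23,
  0),(20,0)]⟩,⟨2,[(0,1),(2,0),(2,2),(2,1),(29,0),(5,0)]⟩⟩,.o ⟨false,0,⟨1,[(3,1),(36,0),(4,0)]⟩,⟨0,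
  [(23,0)]⟩⟩,.a ⟨true,(-1),⟨0,[(3,0)]⟩,⟨0,[(2,0),(42,0)]⟩⟩ ⟨false,1,⟨1,[(23,0),(0,0),(20,0)]⟩,⟨0,
  [(39,0)]⟩⟩ ⟨true,1,⟨0,[(6,0),(16,0),(21,0)]⟩,⟨2,[(0,1),(2,0),(2,2),(2,1),(29,0),(5,0)]⟩⟩]⟩) (.S
  ⟨1,0,[-1,1],[1,0,0,0,-1],[-1],(⟨0,[(25,0)]⟩,⟨0,[(26,0)]⟩),⟨1,[(1,0),(5,0),(14,0),(2,0)]⟩,.k,(.r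
  (-1) ⟨13,[(19,6),(3,0),(0,0),(13,1),(6,5),(2,2)]⟩ ⟨5,[(2,1),(5,0),(2,1),(12,1),(6,0),(12,2),(1,
  0)]⟩),⟨false,1,⟨1,[(23,0),(0,0),(21,0)]⟩,⟨0,[]⟩⟩,⟨true,0,⟨0,[(48,0)]⟩,⟨0,[]⟩⟩,⟨true,0,⟨0,[(44,
  0)]⟩,⟨0,[(43,0)]⟩⟩,⟨false,0,⟨0,[(44,0)]⟩,⟨3,[(19,1),(3,0),(0,0),(21,0)]⟩⟩,[.a ⟨true,0,⟨0,[(0,0),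
  (15,0)]⟩,⟨1,[(3,1),(41,0),(0,0)]⟩⟩ ⟨false,1,⟨9,[(23,3),(0,3),(20,4),(0,0),(1,1)]⟩,⟨0,[]⟩⟩ ⟨true,0,
  ⟨0,[(48,0)]⟩,⟨0,[(39,0)]⟩⟩,.o ⟨false,1,⟨3,[(2,1),(20,1),(16,0),(4,0)]⟩,⟨1,[(3,1),(36,0),(4,0)]⟩⟩,
  .o ⟨false,1,⟨0,[(23,0)]⟩,⟨1,[(3,1),(36,0),(4,0)]⟩⟩,.e ⟨false,1,⟨0,[(39,0),(5,0)]⟩,⟨1,[(30,0),(0,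
  0)]⟩⟩ ⟨false,1,⟨9,[(23,3),(0,3),(20,4),(0,0),(1,1)]⟩,⟨0,[(39,0)]⟩⟩]⟩))) (.Q [0,0,0,0,0,-1,0,0,0,1,
  0,-1] (.ed true [0,1,0,0,1] .k) (.R ⟨1,false,false,true,[1,0,0,0,-1],[0,1],[0,0,0,-1],(⟨0,[(24,
  0)]⟩,⟨0,[(25,0)]⟩),(⟨0,[(36,0)]⟩,⟨0,[(35,0)]⟩),⟨0,[(0,0)]⟩,.k,.k,(.r (-1) ⟨13,[(18,6),(3,0),(0,0),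
  (13,1),(6,5),(2,2)]⟩ ⟨2,[(5,0),(4,0),(8,0),(9,0),(13,0),(1,0)]⟩),(.r (-1) ⟨13,[(18,6),(3,0),(0,0),
  (13,1),(6,5),(2,2)]⟩ ⟨2,[(5,0),(4,0),(8,0),(9,0),(13,0),(1,0)]⟩),(.r (-2) ⟨3,[(18,3),(3,0),(0,0),
  (13,1),(6,2)]⟩ ⟨0,[(5,1),(39,0)]⟩),.k,⟨false,2,⟨0,[(18,0),(25,0)]⟩,⟨0,[(5,0),(37,0)]⟩⟩,⟨true,0,⟨0,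
  [(1,0)]⟩,⟨2,[(5,2),(2,0),(6,0),(6,2),(8,1),(0,1),(5,2)]⟩⟩,⟨false,1,⟨3,[(18,1),(3,0),(0,0),(21,
  0)]⟩,⟨0,[(43,0)]⟩⟩,⟨true,(-1),⟨0,[(1,0),(3,0)]⟩,⟨2,[(8,0),(6,0),(6,2),(8,0),(0,0),(0,0),(1,0)]⟩⟩,
  ⟨true,0,⟨0,[]⟩,⟨0,[(47,0)]⟩⟩,⟨true,(-1),⟨0,[(1,0),(3,0),(37,0)]⟩,⟨2,[(8,1),(6,1),(6,2),(10,0),(1,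
  0)]⟩⟩,[.o ⟨false,0,⟨0,[(9,0)]⟩,⟨3,[(18,1),(3,0),(0,0),(21,0)]⟩⟩,.a ⟨true,0,⟨0,[(43,0)]⟩,⟨2,[(8,0),
  (6,0),(15,1),(0,1)]⟩⟩ ⟨true,1,⟨3,[(18,1),(3,0),(0,0),(21,0)]⟩,⟨0,[(5,0)]⟩⟩ ⟨false,0,⟨0,[(1,0),(41,
  0)]⟩,⟨2,[(8,0),(6,0),(6,2),(8,1),(0,1)]⟩⟩,.o ⟨false,1,⟨0,[(22,0)]⟩,⟨2,[(1,0),(0,0),(20,0),(15,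
  0)]⟩⟩,.o ⟨false,1,⟨1,[(22,1),(6,0),(0,0)]⟩,⟨0,[(1,0)]⟩⟩]⟩) (.R ⟨0,false,false,true,[1,0,0,0,-1],
  [0,1],[0,0,0,-1],(⟨0,[(24,0)]⟩,⟨0,[(25,0)]⟩),(⟨0,[(36,0)]⟩,⟨0,[(35,0)]⟩),⟨0,[(0,0)]⟩,.k,.k,(.r
  (-1) ⟨13,[(18,6),(3,0),(0,0),(13,1),(6,5),(2,2)]⟩ ⟨2,[(5,0),(4,0),(8,0),(9,0),(13,0),(1,0)]⟩),(.r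
  (-1) ⟨13,[(18,6),(3,0),(0,0),(13,1),(6,5),(2,2)]⟩ ⟨2,[(5,0),(4,0),(8,0),(9,0),(13,0),(1,0)]⟩),.k,
  .k,⟨false,2,⟨0,[(18,0),(25,0)]⟩,⟨0,[(5,0),(37,0)]⟩⟩,⟨true,0,⟨0,[(1,0)]⟩,⟨2,[(5,2),(2,0),(6,0),(6,
  2),(8,1),(0,1),(5,2)]⟩⟩,⟨false,1,⟨3,[(18,1),(3,0),(0,0),(21,0)]⟩,⟨0,[(43,0)]⟩⟩,⟨true,(-1),⟨0,[(1,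
  0),(3,0)]⟩,⟨2,[(8,0),(6,0),(6,2),(8,0),(0,0),(0,0),(1,0)]⟩⟩,⟨false,0,⟨0,[]⟩,⟨0,[]⟩⟩,⟨false,0,⟨0,
  []⟩,⟨0,[]⟩⟩,[.o ⟨false,0,⟨0,[(9,0)]⟩,⟨3,[(18,1),(3,0),(0,0),(21,0)]⟩⟩,.a ⟨true,0,⟨0,[(43,0)]⟩,⟨2,
  [(8,0),(6,0),(15,1),(0,1)]⟩⟩ ⟨true,1,⟨3,[(18,1),(3,0),(0,0),(21,0)]⟩,⟨0,[(5,0)]⟩⟩ ⟨false,0,⟨0,[(1,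
  0),(41,0)]⟩,⟨2,[(8,0),(6,0),(6,2),(8,1),(0,1)]⟩⟩,.o ⟨false,1,⟨0,[(22,0)]⟩,⟨2,[(1,0),(0,0),(20,0),
  (15,0)]⟩⟩,.o ⟨false,1,⟨1,[(22,1),(6,0),(0,0)]⟩,⟨0,[(1,0)]⟩⟩]⟩)))))))) (.Q [0,0,0,0,0,2,0,0,0,-1,
  1] (.p true [0,0,1] [1] (⟨0,[(25,0)]⟩,⟨0,[(24,0)]⟩) .k 1 (⟨0,[]⟩,⟨0,[]⟩) .k .k) (.R ⟨0,false,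
  false,true,[1,-1,-1],[1,-1],[],(⟨0,[(14,0)]⟩,⟨0,[(26,0),(0,0)]⟩),(⟨0,[(29,0)]⟩,⟨0,[(30,0)]⟩),⟨0,
  [(0,0)]⟩,.k,.k,(.r (-2) ⟨1,[(1,1),(5,1),(30,0),(0,0)]⟩ ⟨1,[(8,1),(14,0),(0,0),(7,1),(4,3)]⟩),.k,
  .k,.k,⟨true,0,⟨0,[(32,0),(4,0)]⟩,⟨0,[(36,0)]⟩⟩,⟨false,1,⟨0,[(1,0),(35,0)]⟩,⟨2,[(8,0),(11,1),(1,0),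
  (9,1),(0,0)]⟩⟩,⟨true,(-1),⟨0,[(8,0),(23,0),(4,0)]⟩,⟨0,[(1,0),(20,0)]⟩⟩,⟨false,0,⟨0,[(10,0)]⟩,⟨0,
  [(22,0),(16,0)]⟩⟩,⟨false,0,⟨0,[]⟩,⟨0,[]⟩⟩,⟨false,0,⟨0,[]⟩,⟨0,[]⟩⟩,[.o ⟨false,0,⟨0,[(36,0)]⟩,⟨1,
  [(33,0),(3,1),(1,0)]⟩⟩,.a ⟨true,0,⟨2,[(2,0),(6,0),(15,1),(0,1)]⟩,⟨0,[(37,0)]⟩⟩ ⟨false,1,⟨1,[(38,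
  0),(0,0)]⟩,⟨0,[(41,0)]⟩⟩ ⟨true,1,⟨0,[(1,0)]⟩,⟨0,[(8,0),(13,0),(9,1),(4,0)]⟩⟩,.e ⟨false,1,⟨1,[(16,
  0),(0,0),(21,0)]⟩,⟨0,[]⟩⟩ ⟨false,1,⟨0,[(1,0)]⟩,⟨0,[(3,0),(16,0),(11,1)]⟩⟩,.o ⟨false,(-1),⟨0,[(8,
  0),(13,0),(9,1)]⟩,⟨3,[(1,1),(2,1),(28,0),(4,3),(0,0)]⟩⟩]⟩) (.I [0,0,-2,-1,1] (.I [0,0,2,0,-1,2]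
  (.S ⟨1,0,[0,0,-1,-1],[1,-1],[0,1,-1,-1],(⟨0,[(31,0)]⟩,⟨0,[(32,0)]⟩),⟨1,[(2,0),(14,0),(13,0)]⟩,.k,
  (.x 1 ⟨0,[(0,0)]⟩ ⟨0,[(31,1),(3,0),(4,0)]⟩),⟨true,0,⟨0,[(43,0)]⟩,⟨0,[]⟩⟩,⟨false,1,⟨1,[(18,0),(0,
  0),(21,0)]⟩,⟨0,[]⟩⟩,⟨false,0,⟨0,[(39,0)]⟩,⟨3,[(14,1),(3,0),(0,0),(21,0)]⟩⟩,⟨true,0,⟨0,[(39,0)]⟩,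
  ⟨0,[(38,0)]⟩⟩,[.e ⟨false,1,⟨14,[(1,8),(1,3),(10,0),(0,1),(17,7),(1,0)]⟩,⟨0,[(34,0),(4,0)]⟩⟩
  ⟨false,1,⟨0,[(1,0)]⟩,⟨5,[(0,0),(5,1),(19,1),(4,1),(7,3),(1,0)]⟩⟩,.o ⟨false,1,⟨3,[(14,1),(3,0),(0,
  0),(21,0)]⟩,⟨0,[(5,0)]⟩⟩,.o ⟨false,0,⟨1,[(25,0),(0,0)]⟩,⟨1,[(35,0),(4,0)]⟩⟩,.a ⟨true,(-1),⟨1,[(0,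
  1),(1,0),(14,0),(13,0)]⟩,⟨0,[(40,0)]⟩⟩ ⟨false,1,⟨0,[(1,0)]⟩,⟨5,[(0,0),(5,1),(19,1),(4,1),(2,5),(4,
  3),(1,0)]⟩⟩ ⟨true,1,⟨0,[(1,0)]⟩,⟨7,[(0,5),(1,3),(2,0),(0,2),(3,1),(6,3),(6,1),(1,0),(12,3)]⟩⟩]⟩)
  (.I [1,0,2,2,-1] (.Q [0,-1,0,2,0,0,1,1,0,0,1] (.p true [0,0,1] [] (⟨0,[(29,0)]⟩,⟨0,[(28,0)]⟩) .k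
  0 (⟨0,[]⟩,⟨0,[]⟩) .k .k) (.S ⟨1,3,[],[1,-1,-1],[1,0,-1,-2,0,0,0,-1],(⟨0,[(18,0)]⟩,⟨0,[(30,0),(0,
  0)]⟩),⟨0,[(4,0)]⟩,.k,(.r (-2) ⟨1,[(3,0),(1,1),(5,0),(14,0),(16,0)]⟩ ⟨10,[(0,4),(0,7),(8,2),(2,0),
  (1,1),(12,5)]⟩),⟨false,1,⟨3,[(16,1),(3,0),(0,0),(21,0)]⟩,⟨0,[(41,0)]⟩⟩,⟨true,0,⟨1,[(0,0),(24,0)]⟩,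
  ⟨0,[(11,0)]⟩⟩,⟨true,0,⟨0,[]⟩,⟨0,[(45,0)]⟩⟩,⟨false,0,⟨0,[(0,0)]⟩,⟨0,[(16,0),(9,0)]⟩⟩,[.fa ⟨false,2,
  ⟨1,[(3,0),(1,1),(5,0),(14,0),(16,0)]⟩,⟨5,[(0,1),(0,3),(10,3),(11,1),(12,0),(5,0)]⟩⟩ ⟨true,1,⟨1,
  [(0,0),(4,1),(20,0)]⟩,⟨4,[(1,2),(8,2),(0,2),(12,1),(11,5),(0,0)]⟩⟩,.a ⟨true,0,⟨0,[(0,0),(5,0)]⟩,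
  ⟨0,[(45,0)]⟩⟩ ⟨true,2,⟨0,[(5,0),(5,0),(31,0)]⟩,⟨1,[(1,2),(0,0),(7,1),(20,1)]⟩⟩ ⟨false,2,⟨1,[(0,0),
  (4,1),(20,0),(15,0),(0,0)]⟩,⟨4,[(1,2),(8,2),(0,2),(12,1),(11,0),(0,0)]⟩⟩,.a ⟨true,(-1),⟨4,[(1,2),
  (4,1),(3,1),(13,2),(11,1)]⟩,⟨1,[(0,0),(4,1),(20,0)]⟩⟩ ⟨false,2,⟨0,[(5,0),(5,0),(31,0)]⟩,⟨5,[(0,1),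
  (0,3),(10,3),(11,1),(12,0),(5,0)]⟩⟩ ⟨true,1,⟨1,[(0,0),(4,1),(20,0)]⟩,⟨4,[(1,2),(8,2),(0,2),(12,1),
  (11,0),(0,0)]⟩⟩,.o ⟨false,(-1),⟨4,[(1,2),(8,2),(0,2),(12,1),(11,5),(0,0)]⟩,⟨3,[(5,1),(2,1),(28,0),
  (4,3),(0,0)]⟩⟩]⟩) (.Q [0,0,-1,0,0,0,0,0,1,-1,0,1] (.p true [0,0,0,0,1] [1] (⟨0,[(23,0)]⟩,⟨0,[(22,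
  0)]⟩) .k 1 (⟨0,[]⟩,⟨0,[]⟩) .k .k) (.Q [-1,0,0,0,1,0,0,0,-1,0,0,-1] (.p false [0,0,0,0,1] [] (⟨0,
  [(24,0)]⟩,⟨0,[(23,0)]⟩) .k 0 (⟨0,[]⟩,⟨0,[]⟩) .k .k) (.R ⟨1,false,false,true,[0,0,1],[1,0,0,0,-1],
  [1,0,0,-1,0,0,0,1],(⟨0,[(32,0)]⟩,⟨0,[(31,0)]⟩),(⟨0,[(24,0)]⟩,⟨0,[(25,0)]⟩),⟨0,[(21,0)]⟩,.k,.k,.k,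
  .k,(.r 0 ⟨1,[(12,1),(31,0),(0,0)]⟩ ⟨1,[(0,0),(2,1),(3,1),(15,0),(4,1),(16,0)]⟩),.k,⟨true,0,⟨0,
  [(12,0),(32,0)]⟩,⟨0,[(10,0),(0,0),(31,0)]⟩⟩,⟨false,1,⟨0,[(22,0),(3,0)]⟩,⟨0,[(1,0),(27,0)]⟩⟩,
  ⟨false,1,⟨3,[(18,1),(3,0),(0,0),(21,0)]⟩,⟨0,[(43,0)]⟩⟩,⟨false,1,⟨0,[(11,0),(10,0),(20,0)]⟩,⟨1,[(1,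
  1),(1,0),(11,1),(29,0)]⟩⟩,⟨true,0,⟨0,[]⟩,⟨0,[(47,0)]⟩⟩,⟨false,1,⟨0,[(11,0),(10,0),(20,1)]⟩,⟨0,[(1,
  0),(13,0),(22,0)]⟩⟩,[.o ⟨false,1,⟨0,[(22,0),(24,0)]⟩,⟨0,[(1,0),(36,0)]⟩⟩,.o ⟨false,1,⟨0,[(0,0)]⟩,
  ⟨10,[(1,5),(0,0),(0,0),(6,0),(1,0),(10,4),(14,2),(0,1)]⟩⟩,.o ⟨false,1,⟨3,[(7,1),(2,1),(28,0),(5,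
  0)]⟩,⟨11,[(2,1),(0,2),(8,1),(13,9),(11,3),(0,4)]⟩⟩,.a ⟨true,0,⟨0,[(29,0)]⟩,⟨0,[(26,0)]⟩⟩ ⟨true,0,
  ⟨1,[(12,1),(31,0),(0,0)]⟩,⟨0,[(3,0),(3,0),(20,0)]⟩⟩ ⟨false,1,⟨0,[(0,0),(25,0)]⟩,⟨0,[(1,0),(27,0),
  (8,0)]⟩⟩]⟩) (.R ⟨2,true,false,false,[0,1],[0,0,0,0,1],[1,1,1],(⟨0,[]⟩,⟨0,[]⟩),(⟨0,[(25,0)]⟩,⟨0,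
  [(24,0)]⟩),⟨0,[]⟩,.k,.k,.k,(.r 0 ⟨9,[(3,4),(18,2),(0,2),(21,1),(1,3)]⟩ ⟨14,[(5,2),(1,7),(10,1),(0,
  3),(17,0),(1,1)]⟩),.k,.k,⟨false,0,⟨0,[(47,0)]⟩,⟨1,[(44,0),(0,0)]⟩⟩,⟨true,(-1),⟨3,[(0,3),(28,0),(0,
  0),(15,1)]⟩,⟨0,[(22,0)]⟩⟩,⟨true,0,⟨1,[(2,0),(24,0)]⟩,⟨0,[(43,0)]⟩⟩,⟨false,0,⟨3,[(0,2),(17,1),(4,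
  0),(21,0)]⟩,⟨0,[(22,0),(20,0)]⟩⟩,⟨false,0,⟨0,[]⟩,⟨1,[(22,0),(0,0),(21,0)]⟩⟩,⟨true,(-1),⟨0,[(0,
  0)]⟩,⟨0,[(22,0),(24,0)]⟩⟩,[]⟩)) (.Q [-1,-1,0,0,1,0,0,0,-1,0,0,-1] (.p false [0,0,0,0,1] [] (⟨0,
  [(24,0)]⟩,⟨0,[(23,0)]⟩) .k 0 (⟨0,[]⟩,⟨0,[]⟩) .k .k) (.Q [-1,0,0,0,0,0,0,0,-1,1,0,-1] (.p false [0,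
  0,0,0,1] [1] (⟨0,[(25,0)]⟩,⟨0,[(24,0)]⟩) .k 1 (⟨0,[]⟩,⟨0,[]⟩) .k .k) (.Q [-1,0,0,1,0,0,0,0,-1,0,0,
  -1] (.p false [0,0,0,0,1] [] (⟨0,[(26,0)]⟩,⟨0,[(25,0)]⟩) .k 0 (⟨0,[]⟩,⟨0,[]⟩) .k .k) (.R ⟨2,true,
  false,true,[0,1],[0,0,0,0,1],[1,0,1],(⟨0,[]⟩,⟨0,[]⟩),(⟨0,[(27,0)]⟩,⟨0,[(26,0)]⟩),⟨0,[]⟩,.k,.k,.k,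
  (.r 0 ⟨9,[(5,4),(18,2),(0,2),(21,1),(1,3)]⟩ ⟨14,[(7,2),(1,7),(10,1),(0,3),(17,0),(1,1)]⟩),.k,.k,
  ⟨true,0,⟨0,[(40,0)]⟩,⟨0,[(49,0)]⟩⟩,⟨false,0,⟨0,[(25,0)]⟩,⟨1,[(0,0),(6,0),(16,0)]⟩⟩,⟨false,1,⟨3,
  [(20,1),(3,0),(0,0),(21,0)]⟩,⟨0,[(45,0)]⟩⟩,⟨true,0,⟨1,[(4,0),(20,1),(3,0)]⟩,⟨0,[(0,0)]⟩⟩,⟨true,0,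
  ⟨0,[]⟩,⟨0,[(49,0)]⟩⟩,⟨false,0,⟨0,[(25,0)]⟩,⟨0,[(2,0)]⟩⟩,[]⟩) (.Q [0,0,0,0,0,-1,0,0,0,0,0,1] (.ed
  false [1,-1,0,0,1] .k) (.S ⟨1,0,[1,1],[0,0,0,0,1],[2,0,0,-1],(⟨0,[(28,0)]⟩,⟨0,[(27,0)]⟩),⟨0,[(0,
  0)]⟩,.k,(.r (-1) ⟨14,[(8,2),(1,7),(10,1),(0,3),(17,0),(1,1)]⟩ ⟨9,[(6,4),(18,2),(0,2),(21,1),(1,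
  3)]⟩),⟨false,1,⟨3,[(21,1),(3,0),(0,0),(21,0)]⟩,⟨0,[(46,0)]⟩⟩,⟨true,0,⟨0,[(50,0)]⟩,⟨0,[]⟩⟩,⟨true,0,
  ⟨0,[]⟩,⟨0,[(50,0)]⟩⟩,⟨false,0,⟨0,[(46,0)]⟩,⟨3,[(21,1),(3,0),(0,0),(21,0)]⟩⟩,[.o ⟨false,0,⟨0,[(1,
  0),(10,0)]⟩,⟨0,[(3,0)]⟩⟩,.a ⟨true,0,⟨0,[(26,0)]⟩,⟨0,[(2,0)]⟩⟩ ⟨false,1,⟨0,[(8,0),(32,0)]⟩,⟨3,[(6,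
  0),(18,0),(0,0),(13,1),(5,1)]⟩⟩ ⟨true,0,⟨0,[]⟩,⟨1,[(32,0),(0,0)]⟩⟩,.e ⟨false,1,⟨3,[(21,1),(3,0),
  (0,0),(21,0)]⟩,⟨1,[(6,0),(0,0),(28,1)]⟩⟩ ⟨false,0,⟨0,[]⟩,⟨1,[(25,0),(0,0),(21,0)]⟩⟩,.o ⟨false,0,
  ⟨1,[(1,1),(4,0),(35,0)]⟩,⟨1,[(2,0),(0,0),(4,0),(3,0)]⟩⟩]⟩) (.Q [-1,0,0,-1,0,0,1,1,-1,0,1,-1] (.p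
  true [0,0,1] [0,0,0,0,1] (⟨0,[(35,0)]⟩,⟨0,[(34,0)]⟩) .k 2 (⟨0,[(28,0)]⟩,⟨0,[(27,0)]⟩) .k (.r 0 ⟨0,
  [(5,0),(0,1),(0,3),(7,1),(16,0),(3,7),(4,2)]⟩ ⟨1,[(6,0),(3,1),(20,1),(16,0)]⟩)) (.S ⟨1,0,[-1,1],
  [1,0,0,0,-1],[0,0,0,-1],(⟨0,[(28,0)]⟩,⟨0,[(29,0)]⟩),⟨1,[(1,0),(8,0),(14,0),(2,0)]⟩,.k,(.r (-1)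
  ⟨43,[(9,11),(1,19),(10,5),(0,9),(19,4),(5,0),(1,7)]⟩ ⟨1,[(7,0),(18,0),(0,0)]⟩),⟨false,1,⟨3,[(22,
  1),(3,0),(0,0),(21,0)]⟩,⟨0,[(47,0)]⟩⟩,⟨true,0,⟨0,[(51,0)]⟩,⟨0,[]⟩⟩,⟨true,0,⟨0,[]⟩,⟨0,[(51,0)]⟩⟩,
  ⟨false,0,⟨0,[(47,0)]⟩,⟨3,[(22,1),(3,0),(0,0),(21,0)]⟩⟩,[.o ⟨false,0,⟨1,[(0,0),(2,0),(9,0),(18,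
  0)]⟩,⟨1,[(27,1),(15,0),(5,0)]⟩⟩,.e ⟨false,1,⟨0,[(9,0),(32,0)]⟩,⟨3,[(7,0),(18,0),(0,0),(13,1),(5,
  1)]⟩⟩ ⟨false,1,⟨9,[(26,3),(0,3),(20,4),(0,0),(1,1)]⟩,⟨0,[]⟩⟩,.a ⟨true,0,⟨0,[(3,0)]⟩,⟨0,[(27,0)]⟩⟩
  ⟨false,1,⟨3,[(22,1),(3,0),(0,0),(21,0)]⟩,⟨0,[(47,0)]⟩⟩ ⟨true,0,⟨0,[(51,0)]⟩,⟨0,[]⟩⟩,.o ⟨false,0,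
  ⟨3,[(0,1),(3,1),(1,0),(0,1),(24,0)]⟩,⟨1,[(27,1),(15,0),(4,0)]⟩⟩]⟩) (.R ⟨0,false,false,true,[0,0,0,
  0,1],[0,1],[0,1,1,1],(⟨0,[(29,0)]⟩,⟨0,[(28,0)]⟩),(⟨0,[(40,0)]⟩,⟨0,[(39,0)]⟩),⟨0,[(1,0)]⟩,.k,.k,
  (.r (-1) ⟨14,[(9,2),(1,7),(10,1),(0,3),(17,0),(1,1)]⟩ ⟨16,[(0,2),(6,6),(18,2),(4,2),(17,3),(0,2),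
  (0,4)]⟩),(.r (-1) ⟨14,[(9,2),(1,7),(10,1),(0,3),(17,0),(1,1)]⟩ ⟨16,[(0,2),(6,6),(18,2),(4,2),(17,
  3),(0,2),(0,4)]⟩),.k,.k,⟨false,1,⟨7,[(0,1),(10,1),(9,1),(4,1),(21,2),(0,0)]⟩,⟨0,[]⟩⟩,⟨true,1,⟨1,
  [(3,0),(0,0),(4,0),(3,0)]⟩,⟨0,[(0,0),(15,0),(16,0),(8,0)]⟩⟩,⟨false,0,⟨16,[(0,2),(6,6),(18,2),(4,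
  2),(17,3),(0,2),(0,4)]⟩,⟨0,[(9,0),(32,0)]⟩⟩,⟨true,0,⟨0,[(3,0),(9,0)]⟩,⟨0,[(2,0)]⟩⟩,⟨false,0,⟨0,
  []⟩,⟨0,[]⟩⟩,⟨false,0,⟨0,[]⟩,⟨0,[]⟩⟩,[.o ⟨false,0,⟨0,[(13,0)]⟩,⟨3,[(22,1),(3,0),(0,0),(21,0)]⟩⟩,.e
  ⟨false,0,⟨0,[(47,0)]⟩,⟨14,[(9,2),(1,7),(10,1),(0,3),(17,0),(1,1)]⟩⟩ ⟨false,1,⟨1,[(3,0),(0,0),(8,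
  0),(33,0),(0,0)]⟩,⟨1,[(0,0),(1,0),(6,0),(6,0),(16,0),(8,0)]⟩⟩,.a ⟨true,0,⟨0,[(27,0)]⟩,⟨0,[(3,
  0)]⟩⟩ ⟨false,0,⟨1,[(7,0),(18,0),(0,0)]⟩,⟨0,[(9,0),(32,0)]⟩⟩ ⟨true,0,⟨0,[(3,0),(9,0)]⟩,⟨1,[(0,0),
  (1,0),(6,0),(6,0),(16,0),(8,0)]⟩⟩,.o ⟨false,0,⟨1,[(2,1),(4,0),(35,0)]⟩,⟨1,[(3,0),(0,0),(4,0),(3,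
  0)]⟩⟩]⟩)))) (.R ⟨1,false,false,true,[1,0,-1],[0,0,0,0,1],[1,1,0,-1,0,0,0,-1],(⟨0,[(32,0)]⟩,⟨0,
  [(33,0)]⟩),(⟨0,[(26,0)]⟩,⟨0,[(25,0)]⟩),⟨0,[(21,0)]⟩,.k,.k,.k,.k,(.r (-2) ⟨4,[(8,4),(14,1),(0,1),
  (4,4),(16,2),(1,0)]⟩ ⟨1,[(4,0),(10,1),(30,0)]⟩),.k,⟨true,1,⟨1,[(8,0),(0,0),(1,0),(17,0),(16,0)]⟩,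
  ⟨1,[(4,0),(10,1),(30,0)]⟩⟩,⟨false,1,⟨0,[(0,0),(7,0),(35,0)]⟩,⟨0,[(1,0),(10,0),(2,0),(28,0)]⟩⟩,
  ⟨true,0,⟨1,[(3,0),(24,0)]⟩,⟨0,[(44,0)]⟩⟩,⟨false,0,⟨0,[(0,0),(16,0)]⟩,⟨0,[(1,0),(10,0),(31,0)]⟩⟩,
  ⟨false,0,⟨0,[]⟩,⟨1,[(23,0),(0,0),(21,0)]⟩⟩,⟨false,0,⟨0,[(0,0),(16,0),(26,0)]⟩,⟨0,[(1,0),(10,0)]⟩⟩,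
  [.o ⟨false,0,⟨9,[(0,7),(2,0),(7,1),(6,0),(5,1),(6,0),(6,2)]⟩,⟨0,[(1,0)]⟩⟩,.o ⟨false,0,⟨0,[(0,0)]⟩,
  ⟨2,[(1,0),(21,1),(24,0)]⟩⟩,.o ⟨false,0,⟨11,[(3,1),(0,2),(8,1),(13,9),(11,3),(0,4)]⟩,⟨3,[(8,1),(2,
  1),(28,0),(5,0)]⟩⟩,.a ⟨true,(-1),⟨4,[(4,2),(4,1),(3,1),(13,2),(11,1)]⟩,⟨0,[(8,0),(35,0)]⟩⟩ ⟨true,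
  1,⟨0,[(8,0),(20,0)]⟩,⟨1,[(4,0),(10,1),(30,0)]⟩⟩ ⟨false,1,⟨0,[(0,0),(7,0),(35,0)]⟩,⟨4,[(1,4),(2,2),
  (4,1),(3,1),(13,2),(11,1)]⟩⟩]⟩)) (.Q [0,0,0,0,0,-1,0,0,0,0,0,1] (.ed false [1,-1,0,0,1] .k) (.S
  ⟨1,0,[1,1],[0,0,0,0,1],[2,0,0,-1],(⟨0,[(26,0)]⟩,⟨0,[(25,0)]⟩),⟨0,[(0,0)]⟩,.k,(.r (-1) ⟨14,[(6,2),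
  (1,7),(10,1),(0,3),(17,0),(1,1)]⟩ ⟨9,[(4,4),(18,2),(0,2),(21,1),(1,3)]⟩),⟨false,1,⟨3,[(19,1),(3,
  0),(0,0),(21,0)]⟩,⟨0,[(44,0)]⟩⟩,⟨true,0,⟨0,[(48,0)]⟩,⟨0,[]⟩⟩,⟨true,0,⟨0,[]⟩,⟨0,[(48,0)]⟩⟩,⟨false,
  0,⟨0,[(44,0)]⟩,⟨3,[(19,1),(3,0),(0,0),(21,0)]⟩⟩,[.a ⟨true,(-1),⟨0,[(1,0)]⟩,⟨1,[(2,1),(42,0),(0,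
  0)]⟩⟩ ⟨false,1,⟨14,[(6,2),(1,7),(10,1),(0,3),(17,0),(1,1)]⟩,⟨1,[(4,0),(0,0),(28,1)]⟩⟩ ⟨true,0,⟨0,
  [(48,0)]⟩,⟨0,[(39,0)]⟩⟩,.o ⟨false,0,⟨1,[(1,1),(38,0),(5,0)]⟩,⟨8,[(2,1),(2,0),(17,6),(10,1),(5,
  0)]⟩⟩,.o ⟨false,0,⟨1,[(1,1),(38,0),(5,0)]⟩,⟨0,[(23,0)]⟩⟩,.e ⟨false,1,⟨0,[(6,0),(32,0)]⟩,⟨9,[(4,4),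
  (18,2),(0,2),(21,1),(1,3)]⟩⟩ ⟨false,1,⟨1,[(23,0),(0,0),(20,0)]⟩,⟨0,[(39,0)]⟩⟩]⟩) (.R ⟨1,false,
  false,false,[1,0,0,0,-1],[1,-1],[1,0,0,-1],(⟨0,[(25,0)]⟩,⟨0,[(26,0)]⟩),(⟨0,[(36,0)]⟩,⟨0,[(37,
  0)]⟩),⟨1,[(0,0),(6,0),(14,0),(2,0)]⟩,.k,.k,(.r (-1) ⟨43,[(6,11),(1,19),(10,5),(0,9),(19,4),(5,0),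
  (1,7)]⟩ ⟨1,[(4,0),(18,0),(0,0)]⟩),(.r 0 ⟨9,[(4,4),(18,2),(0,2),(21,1),(1,3)]⟩ ⟨14,[(6,2),(1,7),
  (10,1),(0,3),(17,0),(1,1)]⟩),.k,.k,⟨false,0,⟨0,[]⟩,⟨1,[(23,0),(0,0),(20,0)]⟩⟩,⟨true,(-1),⟨0,[(1,
  0),(37,0)]⟩,⟨0,[(23,0)]⟩⟩,⟨false,1,⟨3,[(19,1),(3,0),(0,0),(21,0)]⟩,⟨1,[(4,0),(0,0),(28,1)]⟩⟩,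
  ⟨false,0,⟨0,[(1,0),(4,0),(32,1)]⟩,⟨0,[(23,0),(20,0)]⟩⟩,⟨true,0,⟨0,[]⟩,⟨0,[(48,0)]⟩⟩,⟨false,0,⟨0,
  [(1,0),(44,0)]⟩,⟨8,[(2,1),(2,0),(17,6),(10,1),(5,0)]⟩⟩,[.e ⟨false,1,⟨14,[(6,2),(1,7),(10,1),(0,3),
  (17,0),(1,1)]⟩,⟨0,[(44,0)]⟩⟩ ⟨false,0,⟨0,[(1,0),(4,0),(32,0)]⟩,⟨0,[(23,0),(20,0)]⟩⟩,.o ⟨false,1,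
  ⟨3,[(19,1),(3,0),(0,0),(21,0)]⟩,⟨0,[(10,0)]⟩⟩,.o ⟨false,1,⟨0,[(23,0)]⟩,⟨1,[(1,1),(38,0),(5,0)]⟩⟩,
  .a ⟨true,0,⟨0,[(2,0)]⟩,⟨1,[(1,1),(43,0),(0,0)]⟩⟩ ⟨false,1,⟨0,[(6,0),(32,0)]⟩,⟨1,[(4,0),(18,0),(0,
  0)]⟩⟩ ⟨true,0,⟨0,[(1,0),(4,0),(32,0)]⟩,⟨0,[(2,0),(7,0)]⟩⟩]⟩))))) (.S ⟨1,0,[0,0,-1,-1],[1,-1],[1,1,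
  -1,-2],(⟨0,[(32,0)]⟩,⟨0,[(33,0)]⟩),⟨1,[(3,0),(14,0),(13,0)]⟩,.k,(.r (-1) ⟨0,[(0,0)]⟩ ⟨0,[(26,0),
  (0,0),(12,1)]⟩),⟨true,0,⟨0,[(39,0)]⟩,⟨0,[(40,0)]⟩⟩,⟨false,1,⟨1,[(19,0),(0,0),(21,0)]⟩,⟨0,[]⟩⟩,
  ⟨false,0,⟨0,[]⟩,⟨1,[(19,0),(0,0),(21,0)]⟩⟩,⟨true,0,⟨0,[(40,0)]⟩,⟨0,[(39,0)]⟩⟩,[.e ⟨false,1,⟨2,[(0,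
  1),(14,0),(18,1)]⟩,⟨0,[(35,0),(4,1)]⟩⟩ ⟨false,1,⟨0,[(2,0)]⟩,⟨1,[(26,0),(0,0),(12,1)]⟩⟩,.o ⟨false,
  1,⟨3,[(15,1),(3,0),(0,0),(21,0)]⟩,⟨0,[(6,0)]⟩⟩,.o ⟨false,0,⟨1,[(26,0),(0,0)]⟩,⟨1,[(36,0),(4,0)]⟩⟩,
  .a ⟨true,(-1),⟨0,[(8,0),(2,0),(14,0),(8,0),(4,0)]⟩,⟨0,[(41,0)]⟩⟩ ⟨false,1,⟨0,[(0,0)]⟩,⟨1,[(26,0),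
  (0,0),(7,1),(4,3)]⟩⟩ ⟨true,1,⟨0,[(2,0)]⟩,⟨0,[(7,0),(0,0),(2,0),(23,0),(4,0)]⟩⟩]⟩))) (.I [0,-1,-1,
  -1,1] (.S ⟨1,0,[0,1,-1,-1],[1,-1],[0,0,-1,-1],(⟨0,[(31,0)]⟩,⟨0,[(32,0)]⟩),⟨1,[(2,0),(14,0),(13,
  0)]⟩,.k,(.r (-2) ⟨5,[(3,3),(10,3),(0,1),(17,1),(1,0),(4,2)]⟩ ⟨0,[(1,0),(37,0)]⟩),⟨false,1,⟨1,[(18,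
  0),(0,0),(21,0)]⟩,⟨0,[]⟩⟩,⟨true,0,⟨0,[(43,0)]⟩,⟨0,[]⟩⟩,⟨true,0,⟨0,[(39,0)]⟩,⟨0,[(38,0)]⟩⟩,⟨false,
  0,⟨0,[(39,0)]⟩,⟨3,[(14,1),(3,0),(0,0),(21,0)]⟩⟩,[.o ⟨false,0,⟨0,[(38,0)]⟩,⟨1,[(35,0),(3,1),(1,
  0)]⟩⟩,.e ⟨true,1,⟨0,[(0,0)]⟩,⟨0,[(1,0),(41,0)]⟩⟩ ⟨true,1,⟨11,[(3,3),(10,3),(0,1),(17,1),(1,0),(4,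
  2)]⟩,⟨0,[(1,0)]⟩⟩,.o ⟨false,0,⟨1,[(25,0),(0,0)]⟩,⟨1,[(35,0),(4,0)]⟩⟩,.a ⟨true,(-1),⟨2,[(1,2),(2,
  0),(6,0),(15,1),(0,1)]⟩,⟨0,[(40,0)]⟩⟩ ⟨false,2,⟨7,[(3,3),(10,1),(0,1),(19,0),(4,5),(0,2)]⟩,⟨0,[(1,
  0)]⟩⟩ ⟨true,1,⟨8,[(3,0),(4,0),(0,0),(4,2),(18,4),(6,5)]⟩,⟨0,[(1,0)]⟩⟩]⟩) (.Q [-1,0,0,2,0,0,-1,-1,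
  -1,1,-1,-1] (.p false [0,0,1] [1,0,0,0,-1] (⟨0,[(28,0)]⟩,⟨0,[(27,0)]⟩) .k 2 (⟨0,[(20,0)]⟩,⟨0,[(21,
  0)]⟩) .k (.r 0 ⟨1,[(10,0),(2,0),(27,0)]⟩ ⟨1,[(3,0),(2,0),(0,0),(16,0),(14,0),(1,0)]⟩)) (.Q [0,0,0,
  0,0,-1,0,0,0,0,0,1] (.ed false [1,-1,0,0,1] .k) (.Q [-1,1,0,0,0,0,0,0,-1,0,0,-1] (.p false [0,0,0,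
  0,1] [] (⟨0,[(23,0)]⟩,⟨0,[(22,0)]⟩) .k 0 (⟨0,[]⟩,⟨0,[]⟩) .k .k) (.S ⟨1,0,[1],[0,0,0,0,1],[1,1],
  (⟨0,[(24,0)]⟩,⟨0,[(23,0)]⟩),⟨0,[(1,0)]⟩,.k,(.r (-1) ⟨11,[(6,3),(10,3),(0,1),(17,1),(1,0),(4,2)]⟩
  ⟨11,[(2,2),(1,2),(4,2),(6,1),(5,2),(3,0),(2,0),(14,2),(0,1)]⟩),⟨true,0,⟨0,[(46,0)]⟩,⟨0,[]⟩⟩,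
  ⟨false,1,⟨1,[(21,0),(0,0),(21,0)]⟩,⟨0,[]⟩⟩,⟨false,0,⟨0,[(42,0)]⟩,⟨3,[(17,1),(3,0),(0,0),(21,0)]⟩⟩,
  ⟨true,0,⟨0,[(42,0)]⟩,⟨0,[(41,0)]⟩⟩,[.e ⟨true,0,⟨0,[(46,0)]⟩,⟨0,[(37,0)]⟩⟩ ⟨true,0,⟨0,[]⟩,⟨1,[(28,
  0),(0,0)]⟩⟩,.o ⟨false,1,⟨1,[(22,1),(15,0),(5,0)]⟩,⟨0,[(0,0)]⟩⟩,.a ⟨true,0,⟨0,[(22,0)]⟩,⟨0,[(2,0),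
  (3,0),(4,0),(25,0)]⟩⟩ ⟨false,0,⟨0,[]⟩,⟨1,[(21,0),(0,0),(21,0)]⟩⟩ ⟨true,0,⟨0,[]⟩,⟨0,[(46,0)]⟩⟩,.e
  ⟨false,1,⟨1,[(21,0),(0,0),(20,0)]⟩,⟨0,[(37,0)]⟩⟩ ⟨false,1,⟨1,[(43,0),(0,0)]⟩,⟨1,[(28,0),(0,
  0)]⟩⟩]⟩) (.R ⟨2,true,false,false,[0,1],[0,0,0,0,1],[1,0,1],(⟨0,[]⟩,⟨0,[]⟩),(⟨0,[(24,0)]⟩,⟨0,[(23,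
  0)]⟩),⟨0,[]⟩,.k,.k,.k,(.r 0 ⟨11,[(2,2),(1,2),(4,2),(6,1),(5,2),(3,0),(2,0),(14,2),(0,1)]⟩ ⟨11,[(6,
  3),(10,3),(0,1),(17,1),(1,0),(4,2)]⟩),.k,.k,⟨true,0,⟨1,[(28,0),(0,0)]⟩,⟨0,[]⟩⟩,⟨false,0,⟨0,[(22,
  0)]⟩,⟨1,[(2,1),(3,1),(4,1),(26,0),(5,0)]⟩⟩,⟨false,1,⟨3,[(17,1),(3,0),(0,0),(21,0)]⟩,⟨0,[(42,0)]⟩⟩,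
  ⟨true,0,⟨0,[(0,0),(40,0)]⟩,⟨2,[(2,2),(3,0),(2,0),(1,1),(2,0),(23,0)]⟩⟩,⟨true,0,⟨0,[]⟩,⟨0,[(46,
  0)]⟩⟩,⟨false,0,⟨0,[(0,0)]⟩,⟨29,[(2,2),(2,1),(1,0),(6,3),(5,1),(0,26),(10,5),(5,2)]⟩⟩,[]⟩)) (.Q
  [-1,0,0,-2,0,0,0,0,-1,1,0,-1] (.p false [0,0,0,0,1] [1] (⟨0,[(23,0)]⟩,⟨0,[(22,0)]⟩) .k 1 (⟨0,[]⟩,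
  ⟨0,[]⟩) .k .k) (.S ⟨1,0,[-1,1],[1,0,0,0,-1],[-1],(⟨0,[(23,0)]⟩,⟨0,[(24,0)]⟩),⟨1,[(1,0),(3,0),(14,
  0),(2,0)]⟩,.k,(.r (-1) ⟨19,[(6,3),(10,7),(0,1),(17,1),(1,0),(4,6),(2,3)]⟩ ⟨3,[(2,0),(1,0),(4,0),
  (12,0),(3,0),(2,0),(14,0)]⟩),⟨false,1,⟨1,[(21,0),(0,0),(21,0)]⟩,⟨0,[]⟩⟩,⟨true,0,⟨0,[(46,0)]⟩,⟨0,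
  []⟩⟩,⟨true,0,⟨0,[(42,0)]⟩,⟨0,[(41,0)]⟩⟩,⟨false,0,⟨0,[(42,0)]⟩,⟨3,[(17,1),(3,0),(0,0),(21,0)]⟩⟩,
  [.o ⟨false,0,⟨3,[(0,2),(1,0),(5,3),(6,0)]⟩,⟨1,[(22,1),(15,0),(5,0)]⟩⟩,.e ⟨false,1,⟨0,[(37,0),(5,
  0)]⟩,⟨0,[(46,0)]⟩⟩ ⟨false,1,⟨9,[(21,3),(0,3),(20,4),(0,0),(1,1)]⟩,⟨0,[]⟩⟩,.a ⟨true,0,⟨1,[(0,0),(1,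
  0),(12,0)]⟩,⟨0,[(22,0)]⟩⟩ ⟨false,1,⟨4,[(21,1),(0,1),(21,2),(1,0)]⟩,⟨0,[]⟩⟩ ⟨true,0,⟨0,[(46,0)]⟩,
  ⟨0,[]⟩⟩,.o ⟨false,0,⟨7,[(0,4),(1,2),(1,3),(10,2),(22,3)]⟩,⟨1,[(22,1),(15,0),(4,0)]⟩⟩]⟩) (.R ⟨0,
  false,false,false,[0,0,0,0,1],[0,1],[1,1],(⟨0,[(24,0)]⟩,⟨0,[(23,0)]⟩),(⟨0,[(35,0)]⟩,⟨0,[(34,0)]⟩),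
  ⟨0,[(1,0)]⟩,.k,.k,(.r (-1) ⟨11,[(6,3),(10,3),(0,1),(17,1),(1,0),(4,2)]⟩ ⟨17,[(0,3),(1,3),(1,1),
  (21,3),(1,2),(0,2),(14,1),(0,7)]⟩),(.r (-1) ⟨11,[(6,3),(10,3),(0,1),(17,1),(1,0),(4,2)]⟩ ⟨17,[(0,
  3),(1,3),(1,1),(21,3),(1,2),(0,2),(14,1),(0,7)]⟩),.k,.k,⟨false,1,⟨8,[(6,0),(4,0),(0,0),(4,2),(18,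
  4),(6,5)]⟩,⟨7,[(0,0),(1,0),(1,3),(10,0),(28,3)]⟩⟩,⟨true,1,⟨1,[(2,1),(3,1),(4,1),(26,0),(5,0)]⟩,⟨1,
  [(0,0),(3,0),(2,0),(3,0),(10,0),(5,0),(8,0)]⟩⟩,⟨true,0,⟨0,[(46,0)]⟩,⟨0,[]⟩⟩,⟨false,1,⟨1,[(2,1),
  (11,1),(23,0),(5,0)]⟩,⟨1,[(0,0),(5,0),(0,0),(3,0),(10,0),(14,0)]⟩⟩,⟨false,0,⟨0,[]⟩,⟨0,[]⟩⟩,⟨false,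
  0,⟨0,[]⟩,⟨0,[]⟩⟩,[.a ⟨true,0,⟨0,[(42,0)]⟩,⟨2,[(7,0),(6,0),(15,1),(0,1)]⟩⟩ ⟨true,0,⟨0,[(46,0)]⟩,⟨0,
  [(37,0)]⟩⟩ ⟨false,1,⟨1,[(2,1),(11,1),(23,0),(4,0)]⟩,⟨1,[(0,0),(5,0),(0,0),(3,0),(10,0),(14,0)]⟩⟩,
  .o ⟨false,1,⟨3,[(0,0),(1,0),(12,0),(22,1),(5,1)]⟩,⟨0,[(41,0)]⟩⟩,.e ⟨false,0,⟨0,[]⟩,⟨1,[(21,0),(0,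
  0),(21,0)]⟩⟩ ⟨false,1,⟨1,[(2,1),(11,1),(23,0),(5,0)]⟩,⟨1,[(0,0),(5,0),(0,0),(3,0),(10,0),(14,
  0)]⟩⟩,.o ⟨false,0,⟨3,[(0,0),(3,0),(2,0),(3,0),(10,2),(5,0),(8,0),(0,1)]⟩,⟨1,[(2,1),(3,1),(4,1),
  (26,0),(5,0)]⟩⟩]⟩))) (.Q [-1,0,0,0,1,0,0,0,-1,0,0,-1] (.p false [0,0,0,0,1] [] (⟨0,[(22,0)]⟩,⟨0,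
  [(21,0)]⟩) .k 0 (⟨0,[]⟩,⟨0,[]⟩) .k .k) (.Q [0,0,1,0,-1,0,0,0,1,0,0,1] (.p true [0,0,0,0,1] [] (⟨0,
  [(23,0)]⟩,⟨0,[(22,0)]⟩) .k 0 (⟨0,[]⟩,⟨0,[]⟩) .k .k) (.Q [-1,1,0,0,0,0,0,0,-1,1,0,-1] (.p false [0,
  0,0,0,1] [1] (⟨0,[(24,0)]⟩,⟨0,[(23,0)]⟩) .k 1 (⟨0,[]⟩,⟨0,[]⟩) .k .k) (.Q [0,0,0,0,0,-1,0,0,0,0,0,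
  1] (.ed false [1,-1,0,0,1] .k) (.S ⟨1,0,[1],[0,0,0,0,1],[1,1],(⟨0,[(26,0)]⟩,⟨0,[(25,0)]⟩),⟨0,[(0,
  0)]⟩,.k,(.r (-1) ⟨11,[(8,3),(10,3),(0,1),(17,1),(1,0),(4,2)]⟩ ⟨10,[(1,1),(4,2),(4,3),(8,1),(3,1),
  (19,3),(1,2),(0,0)]⟩),⟨true,0,⟨0,[(48,0)]⟩,⟨0,[]⟩⟩,⟨false,1,⟨1,[(23,0),(0,0),(21,0)]⟩,⟨0,[]⟩⟩,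
  ⟨false,0,⟨0,[(44,0)]⟩,⟨3,[(19,1),(3,0),(0,0),(21,0)]⟩⟩,⟨true,0,⟨0,[(44,0)]⟩,⟨0,[(43,0)]⟩⟩,[.o
  ⟨false,0,⟨1,[(2,1),(37,0),(4,0)]⟩,⟨0,[(3,0)]⟩⟩,.a ⟨true,0,⟨1,[(2,1),(42,0),(0,0)]⟩,⟨0,[(1,0)]⟩⟩
  ⟨true,0,⟨0,[]⟩,⟨1,[(30,0),(0,0)]⟩⟩ ⟨false,1,⟨1,[(45,0),(0,0)]⟩,⟨0,[(48,0)]⟩⟩,.o ⟨false,0,⟨1,[(2,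
  1),(37,0),(4,0)]⟩,⟨0,[(23,0)]⟩⟩,.e ⟨false,1,⟨1,[(23,0),(0,0),(20,0)]⟩,⟨0,[(39,0)]⟩⟩ ⟨false,1,⟨1,
  [(45,0),(0,0)]⟩,⟨1,[(30,0),(0,0)]⟩⟩]⟩) (.S ⟨1,0,[-1,1],[1,0,0,0,-1],[-1],(⟨0,[(25,0)]⟩,⟨0,[(26,
  0)]⟩),⟨1,[(0,0),(6,0),(14,0),(2,0)]⟩,.k,(.r (-1) ⟨19,[(8,3),(10,7),(0,1),(17,1),(1,0),(4,6),(2,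
  3)]⟩ ⟨9,[(1,1),(4,2),(4,3),(8,1),(3,1),(19,2),(1,2)]⟩),⟨false,1,⟨1,[(23,0),(0,0),(21,0)]⟩,⟨0,[]⟩⟩,
  ⟨true,0,⟨0,[(48,0)]⟩,⟨0,[]⟩⟩,⟨true,0,⟨0,[(44,0)]⟩,⟨0,[(43,0)]⟩⟩,⟨false,0,⟨0,[(44,0)]⟩,⟨3,[(19,1),
  (3,0),(0,0),(21,0)]⟩⟩,[.a ⟨true,0,⟨0,[(1,0)]⟩,⟨1,[(2,1),(42,0),(0,0)]⟩⟩ ⟨false,1,⟨1,[(3,0),(20,0),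
  (20,0)]⟩,⟨0,[]⟩⟩ ⟨true,0,⟨0,[(48,0)]⟩,⟨0,[(39,0)]⟩⟩,.o ⟨false,1,⟨0,[(3,0)]⟩,⟨1,[(2,1),(37,0),(4,
  0)]⟩⟩,.o ⟨false,1,⟨0,[(23,0)]⟩,⟨1,[(2,1),(37,0),(4,0)]⟩⟩,.e ⟨false,1,⟨0,[(39,0),(5,0)]⟩,⟨1,[(30,
  0),(0,0)]⟩⟩ ⟨false,1,⟨1,[(3,0),(20,0),(20,0)]⟩,⟨0,[(39,0)]⟩⟩]⟩)) (.R ⟨1,false,false,false,[0,0,1],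
  [0,0,0,0,1],[0,0,0,0,0,0,0,1],(⟨0,[(32,0)]⟩,⟨0,[(31,0)]⟩),(⟨0,[(25,0)]⟩,⟨0,[(24,0)]⟩),⟨0,[(21,
  0)]⟩,.k,.k,.k,.k,(.r 0 ⟨0,[(12,0),(25,0),(5,0)]⟩ ⟨1,[(10,1),(0,1),(10,0),(0,0),(19,1),(1,0)]⟩),.k,
  ⟨false,0,⟨0,[(4,0),(7,0),(25,1),(5,1)]⟩,⟨1,[(7,0),(2,0),(0,0),(16,0),(14,0),(1,0)]⟩⟩,⟨true,(-1),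
  ⟨2,[(0,2),(3,0),(6,1),(0,1),(13,0),(16,2)]⟩,⟨0,[(22,0),(6,0)]⟩⟩,⟨false,1,⟨1,[(22,0),(0,0),(21,
  0)]⟩,⟨0,[]⟩⟩,⟨false,0,⟨0,[(0,0),(10,0),(31,0)]⟩,⟨0,[(2,0),(13,0)]⟩⟩,⟨true,0,⟨0,[(43,0)]⟩,⟨0,[(42,
  0)]⟩⟩,⟨false,0,⟨0,[(0,0),(10,0),(31,1)]⟩,⟨0,[(2,0),(12,0)]⟩⟩,[.o ⟨false,0,⟨3,[(0,1),(0,0),(21,0),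
  (13,0),(1,0)]⟩,⟨0,[(2,0)]⟩⟩,.o ⟨false,0,⟨0,[(0,0)]⟩,⟨0,[(22,0),(24,0)]⟩⟩,.o ⟨false,1,⟨3,[(7,1),(2,
  1),(28,0),(5,0)]⟩,⟨7,[(5,2),(2,0),(3,0),(13,6),(11,0),(0,3)]⟩⟩,.a ⟨true,0,⟨0,[(29,0)]⟩,⟨0,[(26,
  0)]⟩⟩ ⟨true,0,⟨1,[(14,1),(29,0),(0,0)]⟩,⟨0,[(10,0),(0,0)]⟩⟩ ⟨false,0,⟨0,[(0,0),(25,0)]⟩,⟨0,[(2,0),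
  (26,0)]⟩⟩]⟩)) (.Q [0,0,0,0,0,-1,0,0,0,0,0,1] (.ed false [1,-1,0,0,1] .k) (.R ⟨1,false,false,false,
  [0,0,0,0,1],[0,1],[1,1],(⟨0,[(25,0)]⟩,⟨0,[(24,0)]⟩),(⟨0,[(36,0)]⟩,⟨0,[(35,0)]⟩),⟨0,[(0,0)]⟩,.k,.k,
  (.r (-1) ⟨11,[(7,3),(10,3),(0,1),(17,1),(1,0),(4,2)]⟩ ⟨6,[(5,0),(4,1),(8,1),(9,1),(13,3),(1,0),(0,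
  0)]⟩),(.r (-1) ⟨11,[(7,3),(10,3),(0,1),(17,1),(1,0),(4,2)]⟩ ⟨6,[(5,0),(4,1),(8,1),(9,1),(13,3),(1,
  0),(0,0)]⟩),(.r (-2) ⟨5,[(7,3),(10,3),(0,1),(17,1),(1,0),(4,2)]⟩ ⟨0,[(4,1),(33,1),(5,0)]⟩),.k,
  ⟨false,1,⟨8,[(7,0),(4,0),(0,0),(4,2),(18,4),(6,5)]⟩,⟨1,[(5,0),(37,0),(1,0)]⟩⟩,⟨true,1,⟨0,[(1,0)]⟩,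
  ⟨3,[(3,0),(0,0),(0,2),(2,0),(14,2),(14,0)]⟩⟩,⟨true,0,⟨0,[(47,0)]⟩,⟨0,[]⟩⟩,⟨false,1,⟨1,[(1,1),(3,
  0),(37,0),(1,0)]⟩,⟨3,[(3,0),(4,0),(14,2)]⟩⟩,⟨false,0,⟨0,[(43,0)]⟩,⟨3,[(18,1),(3,0),(0,0),(21,
  0)]⟩⟩,⟨false,1,⟨1,[(1,1),(3,0),(37,2),(1,0)]⟩,⟨1,[(3,0),(4,0),(14,0)]⟩⟩,[.a ⟨true,0,⟨0,[(43,0)]⟩,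
  ⟨2,[(8,0),(6,0),(15,1),(0,1)]⟩⟩ ⟨true,0,⟨0,[(47,0)]⟩,⟨0,[(38,0)]⟩⟩ ⟨false,1,⟨0,[(1,0),(41,0)]⟩,⟨2,
  [(3,0),(4,0),(14,1),(19,0)]⟩⟩,.o ⟨false,1,⟨1,[(39,0),(3,1),(1,0)]⟩,⟨0,[(42,0)]⟩⟩,.e ⟨false,0,⟨0,
  []⟩,⟨1,[(22,0),(0,0),(21,0)]⟩⟩ ⟨false,1,⟨1,[(1,1),(3,0),(37,0),(1,0)]⟩,⟨2,[(3,0),(4,0),(14,1),(19,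
  0)]⟩⟩,.o ⟨false,0,⟨7,[(3,0),(1,3),(2,0),(14,6),(15,3)]⟩,⟨0,[(1,0)]⟩⟩]⟩) (.R ⟨0,false,false,false,
  [0,0,0,0,1],[0,1],[1,1],(⟨0,[(25,0)]⟩,⟨0,[(24,0)]⟩),(⟨0,[(36,0)]⟩,⟨0,[(35,0)]⟩),⟨0,[(0,0)]⟩,.k,.k,
  (.r (-1) ⟨11,[(7,3),(10,3),(0,1),(17,1),(1,0),(4,2)]⟩ ⟨6,[(5,0),(4,1),(8,1),(9,1),(13,3),(1,0),(0,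
  0)]⟩),(.r (-1) ⟨11,[(7,3),(10,3),(0,1),(17,1),(1,0),(4,2)]⟩ ⟨6,[(5,0),(4,1),(8,1),(9,1),(13,3),(1,
  0),(0,0)]⟩),.k,.k,⟨false,1,⟨8,[(7,0),(4,0),(0,0),(4,2),(18,4),(6,5)]⟩,⟨1,[(5,0),(37,0),(1,0)]⟩⟩,
  ⟨true,1,⟨0,[(1,0)]⟩,⟨3,[(3,0),(0,0),(0,2),(2,0),(14,2),(14,0)]⟩⟩,⟨true,0,⟨0,[(47,0)]⟩,⟨0,[]⟩⟩,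
  ⟨false,1,⟨1,[(1,1),(3,0),(37,0),(1,0)]⟩,⟨3,[(3,0),(4,0),(14,2)]⟩⟩,⟨false,0,⟨0,[]⟩,⟨0,[]⟩⟩,⟨false,
  0,⟨0,[]⟩,⟨0,[]⟩⟩,[.a ⟨true,0,⟨0,[(43,0)]⟩,⟨2,[(8,0),(6,0),(15,1),(0,1)]⟩⟩ ⟨true,0,⟨0,[(47,0)]⟩,⟨0,
  [(38,0)]⟩⟩ ⟨false,1,⟨0,[(1,0),(41,0)]⟩,⟨2,[(3,0),(4,0),(14,1),(19,0)]⟩⟩,.o ⟨false,1,⟨1,[(39,0),(3,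
  1),(1,0)]⟩,⟨0,[(42,0)]⟩⟩,.e ⟨false,0,⟨0,[]⟩,⟨1,[(22,0),(0,0),(21,0)]⟩⟩ ⟨false,1,⟨1,[(1,1),(3,0),
  (37,0),(1,0)]⟩,⟨2,[(3,0),(4,0),(14,1),(19,0)]⟩⟩,.o ⟨false,0,⟨7,[(3,0),(1,3),(2,0),(14,6),(15,3)]⟩,
  ⟨0,[(1,0)]⟩⟩]⟩))) (.R ⟨2,true,false,false,[0,1],[0,0,0,0,1],[],(⟨0,[]⟩,⟨0,[]⟩),(⟨0,[(23,0)]⟩,⟨0,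
  [(22,0)]⟩),⟨0,[]⟩,.k,.k,.k,(.r 0 ⟨6,[(3,0),(4,1),(8,1),(9,1),(13,3),(1,0),(0,0)]⟩ ⟨11,[(5,3),(10,
  3),(0,1),(17,1),(1,0),(4,2)]⟩),.k,.k,⟨false,1,⟨9,[(20,3),(0,3),(20,4),(0,0),(1,1)]⟩,⟨0,[]⟩⟩,⟨true,
  (-1),⟨12,[(0,8),(0,0),(1,3),(2,0),(14,2),(22,4)]⟩,⟨0,[(20,0)]⟩⟩,⟨true,1,⟨11,[(5,3),(10,3),(0,1),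
  (17,1),(1,0),(4,2)]⟩,⟨0,[(2,0)]⟩⟩,⟨false,0,⟨3,[(0,2),(15,1),(4,0),(21,0)]⟩,⟨0,[(20,0),(20,0)]⟩⟩,
  ⟨false,1,⟨1,[(42,0),(0,0)]⟩,⟨1,[(27,0),(0,0)]⟩⟩,⟨true,(-1),⟨0,[(0,0)]⟩,⟨0,[(20,0),(24,0)]⟩⟩,
  []⟩))))))) (.I [0,0,-2,-2,2,0,0,-1] (.R ⟨1,true,false,false,[1,0,-1],[0,1],[0,1,0,0,0,0,0,-1],(⟨0,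
  [(24,0)]⟩,⟨0,[(25,0)]⟩),(⟨0,[(29,0)]⟩,⟨0,[(28,0)]⟩),⟨0,[(13,0)]⟩,.k,.k,.k,.k,(.r (-2) ⟨0,[(0,0)]⟩
  ⟨1,[(7,1),(14,0),(0,0),(7,1),(4,3)]⟩),.k,⟨true,1,⟨0,[(6,0),(15,0),(14,0)]⟩,⟨0,[(7,0),(23,1),(4,
  0)]⟩⟩,⟨false,2,⟨0,[(0,0),(0,0)]⟩,⟨0,[(4,0),(2,0),(23,0),(4,0)]⟩⟩,⟨true,0,⟨0,[(40,0)]⟩,⟨0,[]⟩⟩,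
  ⟨false,1,⟨3,[(1,1),(18,1),(11,0),(5,2)]⟩,⟨0,[(4,0)]⟩⟩,⟨false,0,⟨0,[(36,0)]⟩,⟨15,[(0,1),(10,5),(8,
  1),(1,0),(0,2),(14,5)]⟩⟩,⟨true,0,⟨0,[(1,0)]⟩,⟨0,[(4,0),(30,0)]⟩⟩,[]⟩) (.I [0,0,-2,0,2,-2,1] (.R
  ⟨1,true,false,false,[1,0,-1],[0,1],[0,1,0,0,0,0,0,-1],(⟨0,[(25,0)]⟩,⟨0,[(26,0)]⟩),(⟨0,[(30,0)]⟩,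
  ⟨0,[(29,0)]⟩),⟨0,[(14,0)]⟩,.k,.k,.k,.k,(.x 1 ⟨2,[(1,1),(5,1),(4,0),(11,0),(1,2),(0,5),(4,0)]⟩ ⟨0,
  [(0,0)]⟩),.k,⟨true,1,⟨0,[(7,0),(15,0),(14,0)]⟩,⟨5,[(1,4),(10,1),(8,0),(2,0),(7,0),(6,1)]⟩⟩,⟨false,
  2,⟨1,[(23,1),(9,0),(4,2)]⟩,⟨3,[(1,1),(3,2),(3,0),(3,0)]⟩⟩,⟨true,0,⟨0,[(41,0)]⟩,⟨0,[]⟩⟩,⟨false,1,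
  ⟨3,[(2,1),(18,1),(11,0),(5,2)]⟩,⟨0,[(5,0)]⟩⟩,⟨false,0,⟨0,[(37,0)]⟩,⟨3,[(12,1),(3,0),(0,0),(21,
  0)]⟩⟩,⟨true,0,⟨0,[(2,0)]⟩,⟨0,[(5,0),(30,0)]⟩⟩,[]⟩) (.I [0,0,2,0,-2,2,-1] (.R ⟨1,true,false,false,
  [1,0,-1],[0,1],[0,1,0,0,0,0,0,-1],(⟨0,[(26,0)]⟩,⟨0,[(27,0)]⟩),(⟨0,[(31,0)]⟩,⟨0,[(30,0)]⟩),⟨0,[(15,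
  0)]⟩,.k,.k,.k,.k,(.x 2 ⟨0,[(0,0)]⟩ ⟨3,[(5,3),(7,1),(1,3),(1,0),(0,0),(11,3),(3,1),(4,5),(0,0)]⟩),
  .k,⟨true,1,⟨0,[(8,0),(15,0),(14,0)]⟩,⟨5,[(2,4),(10,1),(8,0),(2,0),(7,0),(6,1)]⟩⟩,⟨false,2,⟨1,[(24,
  1),(9,0),(4,2)]⟩,⟨13,[(0,2),(1,3),(3,4),(0,0),(5,0),(0,2),(0,2),(14,2)]⟩⟩,⟨true,0,⟨0,[(42,0)]⟩,⟨0,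
  []⟩⟩,⟨false,1,⟨3,[(3,1),(18,1),(11,0),(5,2)]⟩,⟨0,[(6,0)]⟩⟩,⟨false,0,⟨0,[(38,0)]⟩,⟨3,[(13,1),(3,0),
  (0,0),(21,0)]⟩⟩,⟨true,0,⟨0,[(3,0)]⟩,⟨0,[(6,0),(30,0)]⟩⟩,[]⟩) (.I [0,0,2,2,-2,0,0,1] (.R ⟨1,true,
  false,false,[1,0,-1],[0,1],[0,1,0,0,0,0,0,-1],(⟨0,[(27,0)]⟩,⟨0,[(28,0)]⟩),(⟨0,[(32,0)]⟩,⟨0,[(31,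
  0)]⟩),⟨0,[(16,0)]⟩,.k,.k,.k,.k,(.r (-3) ⟨1,[(6,1),(0,1),(6,1),(3,0),(0,0),(20,2)]⟩ ⟨0,[(0,0)]⟩),
  .k,⟨true,1,⟨0,[(9,0),(15,0),(14,0)]⟩,⟨5,[(3,4),(10,1),(8,0),(2,0),(7,0),(6,1)]⟩⟩,⟨false,2,⟨1,[(25,
  1),(9,0),(4,2)]⟩,⟨13,[(2,2),(0,3),(3,4),(0,0),(5,0),(0,2),(0,2),(14,2)]⟩⟩,⟨true,0,⟨0,[(43,0)]⟩,⟨0,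
  []⟩⟩,⟨false,1,⟨3,[(4,1),(18,1),(11,0),(5,2)]⟩,⟨0,[(7,0)]⟩⟩,⟨false,0,⟨0,[(39,0)]⟩,⟨3,[(14,1),(3,0),
  (0,0),(21,0)]⟩⟩,⟨true,0,⟨0,[(4,0)]⟩,⟨0,[(7,0),(30,0)]⟩⟩,[]⟩) (.Q [0,0,0,2,0,0,-1,-1,0,0,-1] (.p
  false [0,0,1] [] (⟨0,[(28,0)]⟩,⟨0,[(27,0)]⟩) .k 0 (⟨0,[]⟩,⟨0,[]⟩) .k .k) (.R ⟨1,true,false,false,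
  [0,0,1],[0,1],[1,1,0,-1,0,0,0,1],(⟨0,[(29,0)]⟩,⟨0,[(28,0)]⟩),(⟨0,[(33,0)]⟩,⟨0,[(32,0)]⟩),⟨0,[(18,
  0)]⟩,.k,.k,.k,.k,(.r (-1) ⟨4,[(9,3),(4,0),(0,2),(25,4),(0,0)]⟩ ⟨1,[(0,1),(25,2),(0,0)]⟩),.k,⟨true,
  0,⟨3,[(1,0),(7,3),(4,0),(0,0),(25,0)]⟩,⟨0,[(0,0),(25,0),(8,0)]⟩⟩,⟨false,1,⟨1,[(23,1),(12,0),(4,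
  0)]⟩,⟨0,[(26,0)]⟩⟩,⟨true,0,⟨0,[(39,0)]⟩,⟨0,[(40,0)]⟩⟩,⟨false,1,⟨7,[(0,5),(0,1),(24,0),(0,2),(14,
  3)]⟩,⟨0,[(12,0)]⟩⟩,⟨false,0,⟨0,[]⟩,⟨1,[(19,0),(0,0),(21,0)]⟩⟩,⟨true,0,⟨0,[(0,0)]⟩,⟨0,[(12,0),(26,
  0)]⟩⟩,[]⟩) (.Q [-1,0,0,0,0,0,0,0,-1,1,0,-1] (.p false [0,0,0,0,1] [1] (⟨0,[(22,0)]⟩,⟨0,[(21,0)]⟩)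
  .k 1 (⟨0,[]⟩,⟨0,[]⟩) .k .k) (.Q [0,0,0,0,0,-1,0,0,0,1,0,-1] (.ed true [0,1,0,0,1] .k) (.Q [-1,0,0,
  -1,0,0,0,0,-1,1,0,-1] (.p false [0,0,0,0,1] [1] (⟨0,[(24,0)]⟩,⟨0,[(23,0)]⟩) .k 1 (⟨0,[]⟩,⟨0,[]⟩)
  .k .k) (.S ⟨1,0,[-1,1],[1,0,0,0,-1],[-1],(⟨0,[(24,0)]⟩,⟨0,[(25,0)]⟩),⟨0,[(1,0)]⟩,.k,(.r (-1) ⟨27,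
  [(3,3),(0,6),(12,2),(0,2),(0,1),(19,0),(4,9),(1,5)]⟩ ⟨8,[(7,0),(2,3),(0,0),(7,2),(9,2),(13,3),(1,
  1)]⟩),⟨false,1,⟨1,[(22,0),(0,0),(21,0)]⟩,⟨0,[]⟩⟩,⟨true,0,⟨0,[(47,0)]⟩,⟨0,[]⟩⟩,⟨true,0,⟨0,[(43,
  0)]⟩,⟨0,[(42,0)]⟩⟩,⟨false,0,⟨0,[(43,0)]⟩,⟨3,[(18,1),(3,0),(0,0),(21,0)]⟩⟩,[.o ⟨false,0,⟨0,[(0,0),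
  (8,0)]⟩,⟨1,[(23,1),(15,0),(5,0)]⟩⟩,.e ⟨false,1,⟨0,[(38,0),(5,0)]⟩,⟨0,[(47,0)]⟩⟩ ⟨false,1,⟨9,[(22,
  3),(0,3),(20,4),(0,0),(1,1)]⟩,⟨0,[]⟩⟩,.a ⟨true,0,⟨0,[(2,0)]⟩,⟨0,[(23,0)]⟩⟩ ⟨false,1,⟨4,[(22,1),(0,
  1),(21,2),(1,0)]⟩,⟨0,[]⟩⟩ ⟨true,0,⟨0,[(47,0)]⟩,⟨0,[]⟩⟩,.o ⟨false,0,⟨4,[(0,1),(1,2),(4,0),(2,0),(2,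
  0),(24,1),(0,1)]⟩,⟨1,[(23,1),(15,0),(4,0)]⟩⟩]⟩) (.R ⟨2,true,false,true,[0,1],[1,0,0,0,-1],[1,0,1],
  (⟨0,[]⟩,⟨0,[]⟩),(⟨0,[(24,0)]⟩,⟨0,[(25,0)]⟩),⟨0,[]⟩,.k,.k,.k,(.r 0 ⟨8,[(7,0),(2,3),(0,0),(7,2),(9,
  2),(13,3),(1,1)]⟩ ⟨27,[(3,3),(0,6),(12,2),(0,2),(0,1),(19,0),(4,9),(1,5)]⟩),.k,.k,⟨true,0,⟨0,[(38,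
  0)]⟩,⟨0,[(47,0)]⟩⟩,⟨false,0,⟨0,[(2,0)]⟩,⟨9,[(0,7),(3,1),(12,1),(0,1),(4,1),(15,0),(4,2)]⟩⟩,⟨false,
  1,⟨3,[(18,1),(3,0),(0,0),(21,0)]⟩,⟨0,[(43,0)]⟩⟩,⟨true,0,⟨0,[(2,0),(39,0)]⟩,⟨0,[(0,0)]⟩⟩,⟨true,0,
  ⟨0,[]⟩,⟨0,[(47,0)]⟩⟩,⟨false,0,⟨0,[(2,0)]⟩,⟨1,[(23,1),(15,0),(5,0)]⟩⟩,[]⟩)) (.Q [-1,0,0,1,0,0,-1,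
  -1,-1,1,-1,-1] (.p false [0,0,1] [1,0,0,0,-1] (⟨0,[(31,0)]⟩,⟨0,[(30,0)]⟩) .k 2 (⟨0,[(23,0)]⟩,⟨0,
  [(24,0)]⟩) .k (.r 0 ⟨18,[(6,0),(0,1),(3,5),(4,9),(8,1),(18,7)]⟩ ⟨2,[(3,0),(5,1),(0,1),(31,1),(1,
  0)]⟩)) (.S ⟨1,0,[1],[0,0,0,0,1],[1,1],(⟨0,[(25,0)]⟩,⟨0,[(24,0)]⟩),⟨0,[(1,0),(18,0),(0,0)]⟩,.k,(.r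
  (-1) ⟨3,[(4,0),(12,0),(0,0),(25,0)]⟩ ⟨62,[(0,16),(6,8),(2,27),(8,10),(3,16),(3,7),(1,2),(15,17),
  (0,13)]⟩),⟨true,0,⟨0,[(47,0)]⟩,⟨0,[]⟩⟩,⟨false,1,⟨1,[(22,0),(0,0),(21,0)]⟩,⟨0,[]⟩⟩,⟨false,0,⟨0,
  [(43,0)]⟩,⟨3,[(18,1),(3,0),(0,0),(21,0)]⟩⟩,⟨true,0,⟨0,[(43,0)]⟩,⟨0,[(42,0)]⟩⟩,[.e ⟨true,0,⟨0,[(47,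
  0)]⟩,⟨0,[(38,0)]⟩⟩ ⟨true,0,⟨0,[]⟩,⟨1,[(29,0),(0,0)]⟩⟩,.o ⟨false,1,⟨1,[(23,1),(15,0),(5,0)]⟩,⟨4,
  [(0,4),(2,1),(0,0),(3,0),(1,1),(1,2),(21,0)]⟩⟩,.a ⟨true,0,⟨0,[(23,0)]⟩,⟨0,[(2,0)]⟩⟩ ⟨false,0,⟨0,
  []⟩,⟨1,[(22,0),(0,0),(21,0)]⟩⟩ ⟨true,0,⟨0,[]⟩,⟨0,[(47,0)]⟩⟩,.e ⟨false,1,⟨1,[(22,0),(0,0),(20,0)]⟩,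
  ⟨0,[(38,0)]⟩⟩ ⟨false,1,⟨1,[(44,0),(0,0)]⟩,⟨1,[(29,0),(0,0)]⟩⟩]⟩) (.S ⟨1,0,[1,1],[0,0,0,0,1],[],
  (⟨0,[(25,0)]⟩,⟨0,[(24,0)]⟩),⟨0,[(1,0),(18,0),(0,0)]⟩,.k,(.r (-1) ⟨3,[(4,0),(12,0),(0,0),(25,0)]⟩
  ⟨1,[(29,0),(0,0),(12,1)]⟩),⟨false,1,⟨4,[(22,1),(0,1),(21,2),(1,0)]⟩,⟨0,[]⟩⟩,⟨true,0,⟨0,[(47,0)]⟩,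
  ⟨0,[]⟩⟩,⟨true,0,⟨1,[(7,1),(3,1),(17,1),(9,0),(4,2)]⟩,⟨0,[(42,0)]⟩⟩,⟨false,0,⟨0,[(43,0)]⟩,⟨3,[(18,
  1),(3,0),(0,0),(21,0)]⟩⟩,[.o ⟨false,0,⟨1,[(0,0),(8,0),(13,0),(4,0)]⟩,⟨1,[(2,1),(31,0),(10,0)]⟩⟩,
  .a ⟨true,0,⟨0,[(23,0)]⟩,⟨0,[(2,0)]⟩⟩ ⟨false,1,⟨1,[(44,0),(0,0)]⟩,⟨0,[(47,0)]⟩⟩ ⟨true,0,⟨0,[]⟩,⟨1,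
  [(29,0),(0,0)]⟩⟩,.e ⟨false,1,⟨1,[(22,0),(0,0),(21,0)]⟩,⟨0,[]⟩⟩ ⟨false,0,⟨0,[]⟩,⟨1,[(22,0),(0,0),
  (21,0)]⟩⟩,.o ⟨false,0,⟨5,[(0,0),(6,0),(2,0),(2,1),(9,4),(14,2),(0,1)]⟩,⟨1,[(2,1),(36,0),(4,
  0)]⟩⟩]⟩))) (.Q [1,1,0,-1,-1,0,-1,-1,1,0,-1,1] (.p false [0,0,1] [0,0,0,0,1] (⟨0,[(30,0)]⟩,⟨0,[(29,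
  0)]⟩) .k 2 (⟨0,[(23,0)]⟩,⟨0,[(22,0)]⟩) .k (.r 0 ⟨25,[(5,1),(0,1),(3,7),(4,13),(8,1),(17,0),(0,
  10)]⟩ ⟨2,[(2,0),(5,1),(0,1),(31,1),(1,0)]⟩)) (.Q [0,0,0,0,0,1,0,0,0,0,0,-1] (.ed true [1,-1,0,0,
  1] .k) (.R ⟨0,false,false,false,[0,0,0,0,1],[0,1],[],(⟨0,[(25,0)]⟩,⟨0,[(24,0)]⟩),(⟨0,[(36,0)]⟩,⟨0,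
  [(35,0)]⟩),⟨0,[(0,0)]⟩,.k,.k,(.r (-1) ⟨3,[(4,0),(12,0),(0,0),(25,0)]⟩ ⟨1,[(29,0),(0,0),(12,1)]⟩),
  (.r (-1) ⟨3,[(4,0),(12,0),(0,0),(25,0)]⟩ ⟨1,[(29,0),(0,0),(12,1)]⟩),.k,.k,⟨true,1,⟨3,[(4,0),(12,
  0),(0,0),(25,0)]⟩,⟨1,[(7,0),(2,0),(0,0),(26,0)]⟩⟩,⟨false,2,⟨0,[(22,0),(21,0)]⟩,⟨38,[(1,23),(3,0),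
  (1,15),(7,7),(5,0),(1,14),(5,14),(3,2),(10,2),(0,11)]⟩⟩,⟨false,1,⟨4,[(22,1),(0,1),(21,2),(1,0)]⟩,
  ⟨0,[]⟩⟩,⟨true,1,⟨0,[(22,0),(20,0)]⟩,⟨0,[(1,0),(14,0)]⟩⟩,⟨false,0,⟨0,[]⟩,⟨0,[]⟩⟩,⟨false,0,⟨0,[]⟩,
  ⟨0,[]⟩⟩,[.a ⟨true,0,⟨0,[(43,0)]⟩,⟨1,[(11,0),(3,0),(15,0),(0,0)]⟩⟩ ⟨false,1,⟨1,[(22,0),(0,0),(20,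
  0)]⟩,⟨0,[]⟩⟩ ⟨true,1,⟨0,[(22,0),(20,0)]⟩,⟨66,[(1,48),(1,28),(1,1),(1,19),(13,1),(1,17),(5,17),(3,
  5),(4,12),(6,17)]⟩⟩,.o ⟨false,1,⟨3,[(8,1),(19,1),(10,0),(5,2)]⟩,⟨0,[(42,0)]⟩⟩,.o ⟨false,0,⟨34,[(1,
  3),(0,30),(0,0),(1,2),(1,2),(13,2),(11,8),(5,1),(5,1)]⟩,⟨0,[(22,0)]⟩⟩,.e ⟨false,1,⟨1,[(44,0),(0,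
  0)]⟩,⟨1,[(29,0),(0,0)]⟩⟩ ⟨false,2,⟨1,[(22,1),(20,1),(0,0),(0,0)]⟩,⟨66,[(1,48),(1,28),(1,1),(1,19),
  (13,1),(1,17),(5,17),(3,5),(4,12),(6,17)]⟩⟩]⟩) (.R ⟨1,true,false,false,[0,0,0,0,1],[0,1,1],[1],
  (⟨0,[(25,0)]⟩,⟨0,[(24,0)]⟩),(⟨0,[(32,0),(0,0)]⟩,⟨0,[(20,0)]⟩),⟨0,[(0,0)]⟩,.k,.k,(.r (-1) ⟨3,[(4,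
  0),(12,0),(0,0),(25,0)]⟩ ⟨1,[(29,0),(0,0),(12,1)]⟩),(.r (-2) ⟨5,[(4,3),(5,1),(0,1),(10,2),(0,2),
  (19,1),(1,0)]⟩ ⟨115,[(5,5),(1,67),(4,19),(4,27),(3,5),(4,5),(6,17),(5,2),(4,0),(0,23)]⟩),(.r (-2)
  ⟨0,[(4,0)]⟩ ⟨30,[(7,20),(2,11),(8,11),(7,9),(1,1),(13,7),(1,10),(0,5)]⟩),.k,⟨false,2,⟨0,[(4,0),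
  (38,0)]⟩,⟨18,[(7,9),(0,0),(3,2),(4,4),(8,0),(18,3)]⟩⟩,⟨true,2,⟨0,[(22,0),(6,0),(14,0)]⟩,⟨24,[(1,
  18),(0,2),(4,13),(4,4),(5,1),(0,2),(3,2),(14,21)]⟩⟩,⟨false,1,⟨1,[(22,0),(0,0),(21,0)]⟩,⟨0,[]⟩⟩,
  ⟨true,1,⟨5,[(8,2),(7,2),(5,5),(8,0),(0,0),(0,1),(1,1)]⟩,⟨0,[(1,0)]⟩⟩,⟨true,0,⟨0,[(43,0)]⟩,⟨0,[(42,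
  0)]⟩⟩,⟨false,1,⟨1,[(7,1),(14,1),(6,1),(14,2),(0,0)]⟩,⟨1,[(1,0),(0,0),(8,0),(6,0)]⟩⟩,[]⟩)) (.Q [1,
  1,0,0,-1,0,0,0,1,0,0,1] (.p true [0,0,0,0,1] [] (⟨0,[(24,0)]⟩,⟨0,[(23,0)]⟩) .k 0 (⟨0,[]⟩,⟨0,[]⟩)
  .k .k) (.Q [0,0,0,0,0,-1,0,0,0,0,0,1] (.ed false [1,-1,0,0,1] .k) (.S ⟨1,0,[1,1],[0,0,0,0,1],[1,1,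
  1],(⟨0,[(26,0)]⟩,⟨0,[(25,0)]⟩),⟨0,[(0,0)]⟩,.k,(.r (-1) ⟨3,[(5,0),(12,0),(0,0),(25,0)]⟩ ⟨1,[(30,0),
  (0,0),(12,1)]⟩),⟨false,0,⟨1,[(30,0),(0,0)]⟩,⟨1,[(45,0),(0,0)]⟩⟩,⟨true,0,⟨0,[(48,0)]⟩,⟨0,[]⟩⟩,
  ⟨true,(-1),⟨0,[(8,0),(5,0),(15,0),(14,0)]⟩,⟨3,[(5,0),(12,0),(0,0),(25,0)]⟩⟩,⟨false,0,⟨0,[(44,0)]⟩,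
  ⟨3,[(19,1),(3,0),(0,0),(21,0)]⟩⟩,[.a ⟨true,(-1),⟨0,[(1,0)]⟩,⟨0,[(2,0),(9,0)]⟩⟩ ⟨false,0,⟨0,[(48,
  0)]⟩,⟨1,[(45,0),(0,0)]⟩⟩ ⟨true,0,⟨0,[(48,0)]⟩,⟨0,[(39,0)]⟩⟩,.o ⟨false,0,⟨0,[(3,0)]⟩,⟨0,[(2,0),(11,
  0)]⟩⟩,.o ⟨false,0,⟨3,[(1,1),(1,1),(36,0),(5,0)]⟩,⟨0,[(23,0)]⟩⟩,.e ⟨false,0,⟨0,[]⟩,⟨1,[(23,0),(0,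
  0),(21,0)]⟩⟩ ⟨false,1,⟨4,[(2,0),(2,0),(5,0),(8,0),(3,0),(20,1)]⟩,⟨0,[(39,0)]⟩⟩]⟩) (.Q [1,-1,0,0,0,
  0,0,0,1,-1,0,1] (.p true [0,0,0,0,1] [1] (⟨0,[(26,0)]⟩,⟨0,[(25,0)]⟩) .k 1 (⟨0,[]⟩,⟨0,[]⟩) .k .k)
  (.R ⟨0,false,false,false,[0,0,0,0,1],[0,1],[],(⟨0,[(27,0)]⟩,⟨0,[(26,0)]⟩),(⟨0,[(38,0)]⟩,⟨0,[(37,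
  0)]⟩),⟨0,[(1,0)]⟩,.k,.k,(.r (-1) ⟨3,[(6,0),(12,0),(0,0),(25,0)]⟩ ⟨1,[(31,0),(0,0),(12,1)]⟩),(.r
  (-1) ⟨3,[(6,0),(12,0),(0,0),(25,0)]⟩ ⟨1,[(31,0),(0,0),(12,1)]⟩),.k,.k,⟨true,1,⟨3,[(6,0),(12,0),(0,
  0),(25,0)]⟩,⟨1,[(9,0),(2,0),(0,0),(26,0)]⟩⟩,⟨false,2,⟨0,[(24,0),(21,0)]⟩,⟨0,[(2,0),(37,0)]⟩⟩,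
  ⟨false,1,⟨4,[(24,1),(0,1),(21,2),(1,0)]⟩,⟨0,[]⟩⟩,⟨true,1,⟨0,[(24,0),(20,0)]⟩,⟨0,[(0,0),(8,0),(3,
  0),(0,0),(0,0),(15,1),(14,1)]⟩⟩,⟨false,0,⟨0,[]⟩,⟨0,[]⟩⟩,⟨false,0,⟨0,[]⟩,⟨0,[]⟩⟩,[.a ⟨true,0,⟨0,
  [(45,0)]⟩,⟨1,[(13,0),(3,0),(15,0),(0,0)]⟩⟩ ⟨false,1,⟨4,[(3,0),(2,0),(5,0),(8,0),(3,0),(20,1)]⟩,⟨0,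
  []⟩⟩ ⟨true,1,⟨0,[(24,0),(20,0)]⟩,⟨6,[(0,3),(1,2),(2,2),(3,1),(3,2),(1,1),(6,0),(0,0),(7,1),(3,1),
  (4,0)]⟩⟩,.o ⟨false,1,⟨3,[(10,1),(19,1),(10,0),(5,2)]⟩,⟨0,[(44,0)]⟩⟩,.o ⟨false,0,⟨3,[(0,0),(1,0),
  (1,0),(20,0),(15,0)]⟩,⟨0,[(24,0)]⟩⟩,.e ⟨false,1,⟨1,[(46,0),(0,0)]⟩,⟨1,[(31,0),(0,0)]⟩⟩ ⟨false,2,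
  ⟨1,[(24,1),(20,1),(0,0),(0,0)]⟩,⟨6,[(0,3),(1,2),(2,2),(3,1),(3,2),(1,1),(6,0),(0,0),(7,1),(3,1),
  (4,0)]⟩⟩]⟩) (.S ⟨1,0,[-1,1],[1,0,0,0,-1],[-1],(⟨0,[(26,0)]⟩,⟨0,[(27,0)]⟩),⟨0,[(1,0),(20,0),(0,
  0)]⟩,.k,(.r (-1) ⟨27,[(5,3),(0,6),(12,2),(0,2),(0,1),(19,0),(4,9),(1,5)]⟩ ⟨8,[(9,0),(2,3),(0,0),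
  (7,2),(9,2),(13,3),(1,1)]⟩),⟨false,1,⟨1,[(24,0),(0,0),(21,0)]⟩,⟨0,[]⟩⟩,⟨true,0,⟨0,[(49,0)]⟩,⟨0,
  []⟩⟩,⟨true,0,⟨0,[(45,0)]⟩,⟨0,[(44,0)]⟩⟩,⟨false,0,⟨0,[(45,0)]⟩,⟨3,[(20,1),(3,0),(0,0),(21,0)]⟩⟩,
  [.a ⟨true,0,⟨0,[(0,0)]⟩,⟨0,[(2,0),(44,0)]⟩⟩ ⟨false,1,⟨32,[(3,6),(2,6),(5,2),(8,4),(3,6),(15,0),(3,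
  3),(0,10),(2,3)]⟩,⟨0,[]⟩⟩ ⟨true,0,⟨0,[(49,0)]⟩,⟨0,[(40,0)]⟩⟩,.o ⟨false,1,⟨5,[(0,1),(23,3),(16,0),
  (5,0)]⟩,⟨0,[(4,0)]⟩⟩,.o ⟨false,1,⟨0,[(24,0)]⟩,⟨3,[(2,1),(1,1),(36,0),(5,0)]⟩⟩,.e ⟨false,1,⟨0,[(40,
  0),(5,0)]⟩,⟨1,[(31,0),(0,0)]⟩⟩ ⟨false,1,⟨32,[(3,6),(2,6),(5,2),(8,4),(3,6),(15,0),(3,3),(0,10),(2,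
  3)]⟩,⟨0,[(40,0)]⟩⟩]⟩))) (.R ⟨1,false,false,true,[1,0,-1],[0,0,0,0,1],[1,1,0,-1,0,0,0,-1],(⟨0,[(31,
  0)]⟩,⟨0,[(32,0)]⟩),(⟨0,[(25,0)]⟩,⟨0,[(24,0)]⟩),⟨0,[(20,0)]⟩,.k,.k,.k,.k,(.r (-2) ⟨14,[(4,10),(5,
  3),(0,3),(10,5),(0,5),(19,6),(1,1),(0,2)]⟩ ⟨18,[(7,9),(0,0),(3,2),(4,4),(8,0),(18,3)]⟩),.k,⟨true,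
  1,⟨2,[(4,0),(5,0),(0,0),(1,0),(15,0),(15,0)]⟩,⟨18,[(7,9),(0,0),(3,2),(4,4),(8,0),(18,3)]⟩⟩,⟨false,
  1,⟨0,[(2,0),(26,0),(14,0)]⟩,⟨4,[(0,4),(6,1),(3,2),(0,0),(13,1),(10,1)]⟩⟩,⟨true,0,⟨0,[(42,0)]⟩,⟨0,
  [(43,0)]⟩⟩,⟨false,0,⟨2,[(2,1),(5,0),(6,1),(7,0)]⟩,⟨0,[(0,0),(10,0),(31,0)]⟩⟩,⟨false,0,⟨0,[]⟩,⟨1,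
  [(22,0),(0,0),(21,0)]⟩⟩,⟨false,0,⟨2,[(2,0),(5,1),(6,0),(7,1)]⟩,⟨0,[(0,0),(10,0)]⟩⟩,[.o ⟨false,0,
  ⟨4,[(2,3),(7,0),(2,0),(3,0),(5,0),(13,0)]⟩,⟨0,[(0,0)]⟩⟩,.o ⟨false,0,⟨0,[(2,0)]⟩,⟨2,[(0,0),(21,1),
  (24,0)]⟩⟩,.o ⟨false,0,⟨10,[(7,1),(4,0),(0,2),(5,1),(6,3),(12,2),(5,1)]⟩,⟨2,[(4,0),(3,0),(20,1),(9,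
  0)]⟩⟩,.a ⟨true,(-1),⟨7,[(3,0),(2,0),(0,2),(3,3),(7,1),(0,0),(14,0)]⟩,⟨0,[(29,0),(14,0)]⟩⟩ ⟨true,1,
  ⟨0,[(13,0),(15,0),(14,0)]⟩,⟨18,[(7,9),(0,0),(3,2),(4,4),(8,0),(18,3)]⟩⟩ ⟨false,1,⟨0,[(2,0),(26,0),
  (14,0)]⟩,⟨7,[(0,7),(2,0),(2,0),(0,2),(3,3),(7,1),(0,0),(14,0)]⟩⟩]⟩)))))))))) (.R ⟨1,false,false,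
  false,[0,0,1],[1,-1],[1,1,0,-1,0,0,0,1],(⟨0,[(23,0)]⟩,⟨0,[(22,0)]⟩),(⟨0,[(26,0)]⟩,⟨0,[(27,0)]⟩),
  ⟨0,[(12,0)]⟩,.k,.k,.k,.k,.k,.k,⟨false,(-1),⟨0,[(5,0)]⟩,⟨0,[(1,0),(0,0),(32,0),(0,0)]⟩⟩,⟨true,(-1),
  ⟨0,[(2,0),(2,0),(23,0),(4,0)]⟩,⟨1,[(20,1),(9,0),(4,0)]⟩⟩,⟨true,0,⟨0,[(33,0)]⟩,⟨0,[(34,0)]⟩⟩,⟨true,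
  0,⟨0,[(2,0)]⟩,⟨3,[(1,1),(3,1),(1,1),(22,0),(3,1),(0,0)]⟩⟩,⟨false,0,⟨0,[]⟩,⟨1,[(13,0),(0,0),(21,
  0)]⟩⟩,⟨true,0,⟨0,[(2,0),(31,0)]⟩,⟨3,[(1,1),(1,1),(3,1),(22,0),(4,0)]⟩⟩,[.a ⟨true,0,⟨1,[(0,0),(1,
  0),(15,0)]⟩,⟨0,[(34,0)]⟩⟩ ⟨true,(-1),⟨0,[(3,0)]⟩,⟨0,[(1,0),(0,0),(31,0),(1,0)]⟩⟩ ⟨false,0,⟨3,[(2,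
  1),(0,1),(13,1),(17,0),(0,0)]⟩,⟨1,[(1,1),(33,0),(0,0)]⟩⟩,.a ⟨true,0,⟨0,[(0,0)]⟩,⟨5,[(1,1),(8,0),
  (11,0),(0,0),(4,1),(5,3)]⟩⟩ ⟨false,0,⟨1,[(3,1),(31,0),(0,0)]⟩,⟨1,[(1,1),(0,1),(31,1),(0,0),(0,
  0)]⟩⟩ ⟨true,0,⟨1,[(2,0),(0,0),(13,0),(11,0),(6,0)]⟩,⟨0,[(1,0)]⟩⟩,.o ⟨false,1,⟨1,[(20,1),(9,0),(4,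
  0)]⟩,⟨2,[(5,0),(11,1),(1,0),(9,1),(0,0)]⟩⟩,.a ⟨true,0,⟨0,[(20,0)]⟩,⟨0,[(17,0)]⟩⟩ ⟨false,0,⟨1,[(3,
  1),(31,0),(0,0)]⟩,⟨0,[(1,0),(0,0),(31,0),(1,0)]⟩⟩ ⟨true,0,⟨3,[(2,1),(0,1),(13,1),(17,0),(0,0)]⟩,
  ⟨0,[(1,0)]⟩⟩]⟩))) (.Q [0,0,1,0,-1,0,-1,0,0,1,-1] (.p false [0,0,1] [1] (⟨0,[(21,0)]⟩,⟨0,[(20,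
  0)]⟩) .k 1 (⟨0,[]⟩,⟨0,[]⟩) .k .k) (.S ⟨1,0,[0,0,1,1,0,0,0,1],[0,1,1],[1,1,1,0,0,0,0,1],(⟨0,[(22,
  0),(0,0)]⟩,⟨0,[(10,0)]⟩),⟨0,[(22,0)]⟩,.k,.k,⟨true,0,⟨0,[(32,0)]⟩,⟨0,[(33,0)]⟩⟩,⟨false,1,⟨1,[(12,
  0),(0,0),(21,0)]⟩,⟨0,[]⟩⟩,⟨false,0,⟨0,[]⟩,⟨1,[(12,0),(0,0),(21,0)]⟩⟩,⟨true,0,⟨0,[(33,0)]⟩,⟨0,[(32,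
  0)]⟩⟩,[.o ⟨false,0,⟨0,[(1,0)]⟩,⟨3,[(8,1),(3,0),(0,0),(4,3),(16,0)]⟩⟩,.o ⟨false,1,⟨3,[(1,1),(15,1),
  (11,0),(3,1),(1,2)]⟩,⟨0,[(3,0)]⟩⟩,.a ⟨true,1,⟨0,[(19,0),(14,0)]⟩,⟨0,[(0,0)]⟩⟩ ⟨false,(-1),⟨1,[(0,
  0),(0,0),(0,0),(25,0)]⟩,⟨0,[(18,0),(0,0),(14,0),(0,0)]⟩⟩ ⟨true,(-1),⟨0,[(0,0),(0,0)]⟩,⟨0,[(3,0),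
  (15,0),(14,0)]⟩⟩,.o ⟨false,1,⟨1,[(19,1),(9,0),(4,0)]⟩,⟨1,[(0,0),(15,0),(12,0)]⟩⟩]⟩) (.S ⟨1,0,[0,0,
  0,0,0,0,0,1],[0,0,1],[0,1,0,0,0,0,0,1],(⟨0,[(22,0)]⟩,⟨0,[(21,0)]⟩),⟨0,[(11,0)]⟩,.k,.k,⟨true,0,⟨0,
  [(37,0)]⟩,⟨0,[]⟩⟩,⟨false,1,⟨1,[(12,0),(0,0),(21,0)]⟩,⟨0,[]⟩⟩,⟨false,0,⟨0,[(33,0)]⟩,⟨3,[(8,1),(3,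
  0),(0,0),(21,0)]⟩⟩,⟨true,0,⟨0,[(33,0)]⟩,⟨0,[(32,0)]⟩⟩,[.o ⟨false,0,⟨1,[(0,0),(0,0),(0,0),(25,0)]⟩,
  ⟨1,[(12,0),(0,0),(4,1),(16,0)]⟩⟩,.o ⟨false,1,⟨2,[(1,0),(3,0),(11,0),(11,0),(5,1)]⟩,⟨0,[(18,0)]⟩⟩,
  .o ⟨false,1,⟨3,[(0,1),(11,0),(0,0),(5,1),(9,0)]⟩,⟨2,[(4,0),(11,1),(1,0),(9,1),(0,0)]⟩⟩,.a ⟨true,0,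
  ⟨0,[(19,0)]⟩,⟨0,[(16,0)]⟩⟩ ⟨false,0,⟨3,[(1,1),(0,1),(13,1),(17,0),(0,0)]⟩,⟨0,[(18,0),(0,0),(15,
  0)]⟩⟩ ⟨true,0,⟨3,[(1,1),(0,1),(13,1),(17,0),(0,0)]⟩,⟨0,[(18,0),(0,0)]⟩⟩]⟩)))))

theorem ok15 : chk K t15 r4 = true := by decide +kernel

noncomputable def t17 : Tre :=
  (.I [1,1,-1,-1,0,0,0,1] (.R ⟨2,true,false,true,[0,1],[0,0,1],[0,0,1,1],(⟨0,[]⟩,⟨0,[]⟩),(⟨0,[(18,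
  0)]⟩,⟨0,[(17,0)]⟩),⟨0,[]⟩,.k,.k,.k,.k,.k,.k,⟨false,1,⟨1,[(1,1),(13,1),(14,0),(0,0)]⟩,⟨0,[(0,0)]⟩⟩,
  ⟨true,0,⟨0,[(15,0)]⟩,⟨0,[(0,0),(0,0),(22,0)]⟩⟩,⟨false,1,⟨1,[(8,0),(0,0),(21,0)]⟩,⟨0,[]⟩⟩,⟨true,0,
  ⟨0,[(2,0),(25,0)]⟩,⟨0,[(1,0)]⟩⟩,⟨true,0,⟨0,[(29,0)]⟩,⟨0,[(28,0)]⟩⟩,⟨false,0,⟨0,[(2,0)]⟩,⟨0,[(14,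
  0),(16,0)]⟩⟩,[]⟩) (.I [1,0,0,0,0,0,0,-1] (.R ⟨2,true,false,true,[0,1],[0,0,1],[1,0,1],(⟨0,[]⟩,⟨0,
  []⟩),(⟨0,[(19,0)]⟩,⟨0,[(18,0)]⟩),⟨0,[]⟩,.k,.k,.k,.k,.k,.k,⟨true,0,⟨0,[(0,0),(24,0)]⟩,⟨0,[(4,0)]⟩⟩,
  ⟨false,0,⟨0,[(0,0),(2,0)]⟩,⟨3,[(6,1),(2,0),(0,0),(15,0),(4,1)]⟩⟩,⟨false,1,⟨3,[(5,1),(3,0),(0,0),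
  (21,0)]⟩,⟨0,[(30,0)]⟩⟩,⟨true,0,⟨0,[(3,0),(25,0)]⟩,⟨0,[(2,0)]⟩⟩,⟨true,0,⟨0,[]⟩,⟨0,[(34,0)]⟩⟩,
  ⟨false,0,⟨0,[(3,0)]⟩,⟨0,[(15,0),(16,0)]⟩⟩,[]⟩) (.I [1,0,0,-1,0,0,0,1] (.R ⟨2,true,false,false,[0,
  1],[0,0,1],[0,1,1,1],(⟨0,[]⟩,⟨0,[]⟩),(⟨0,[(20,0)]⟩,⟨0,[(19,0)]⟩),⟨0,[]⟩,.k,.k,.k,.k,.k,.k,⟨false,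
  0,⟨0,[(2,0),(22,0)]⟩,⟨1,[(0,1),(31,0),(0,0)]⟩⟩,⟨true,0,⟨0,[(17,0)]⟩,⟨0,[(0,0),(2,0)]⟩⟩,⟨true,0,⟨0,
  [(35,0)]⟩,⟨0,[]⟩⟩,⟨false,1,⟨1,[(4,0),(1,0),(8,0),(17,0)]⟩,⟨0,[(3,0)]⟩⟩,⟨false,0,⟨0,[(31,0)]⟩,⟨3,
  [(6,1),(3,0),(0,0),(21,0)]⟩⟩,⟨true,0,⟨0,[(4,0)]⟩,⟨0,[(16,0)]⟩⟩,[]⟩) (.Q [0,0,0,0,0,0,-1,0,0,0,-1]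
  (.p false [0,0,1] [] (⟨0,[(20,0)]⟩,⟨0,[(19,0)]⟩) .k 0 (⟨0,[]⟩,⟨0,[]⟩) .k .k) (.R ⟨2,true,false,
  false,[0,1],[0,0,1],[1,1,1],(⟨0,[]⟩,⟨0,[]⟩),(⟨0,[(21,0)]⟩,⟨0,[(20,0)]⟩),⟨0,[]⟩,.k,.k,.k,.k,.k,.k,
  ⟨false,0,⟨0,[(1,0),(29,0)]⟩,⟨1,[(2,1),(30,0),(0,0)]⟩⟩,⟨true,0,⟨0,[(18,0)]⟩,⟨0,[(0,0)]⟩⟩,⟨true,0,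
  ⟨0,[(31,0)]⟩,⟨0,[(32,0)]⟩⟩,⟨false,1,⟨1,[(5,0),(1,0),(8,0),(17,0)]⟩,⟨0,[(4,0)]⟩⟩,⟨false,0,⟨0,[]⟩,
  ⟨1,[(11,0),(0,0),(21,0)]⟩⟩,⟨true,0,⟨0,[(5,0)]⟩,⟨0,[(17,0)]⟩⟩,[]⟩) (.R ⟨2,true,false,true,[0,1],[0,
  0,1],[0,0,1,1],(⟨0,[]⟩,⟨0,[]⟩),(⟨0,[(21,0)]⟩,⟨0,[(20,0)]⟩),⟨0,[]⟩,.k,.k,.k,.k,.k,.k,⟨true,0,⟨0,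
  [(3,0)]⟩,⟨0,[(2,0),(28,0)]⟩⟩,⟨false,0,⟨0,[(0,0)]⟩,⟨3,[(8,1),(2,0),(0,0),(15,0),(4,1)]⟩⟩,⟨false,1,
  ⟨1,[(11,0),(0,0),(21,0)]⟩,⟨0,[]⟩⟩,⟨true,0,⟨0,[(5,0),(25,0)]⟩,⟨0,[(4,0)]⟩⟩,⟨true,0,⟨0,[(32,0)]⟩,⟨0,
  [(31,0)]⟩⟩,⟨false,0,⟨0,[(5,0)]⟩,⟨0,[(17,0),(16,0)]⟩⟩,[]⟩)))))

theorem ok17 : chk K t17 r3 = true := by decide +kernel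

noncomputable def t19 : Tre :=
  (.Q [0,0,2,0,-1,0,0,0,0,1] (.pp false [-1,1]) (.Q [0,0,0,-1,0,0,0,0,0,1] (.pp false [-1,1]) (.R
  ⟨2,false,false,true,[0,1],[1,-1],[1,1],(⟨0,[]⟩,⟨0,[]⟩),(⟨0,[(22,0)]⟩,⟨0,[(23,0)]⟩),⟨0,[]⟩,.k,.k,
  .k,(.r 1 ⟨0,[(1,0),(0,0)]⟩ ⟨3,[(5,3),(3,0),(0,0),(13,1),(6,2)]⟩),.k,.k,⟨false,0,⟨0,[(30,0)]⟩,⟨7,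
  [(5,3),(3,0),(0,0),(13,1),(6,2)]⟩⟩,⟨true,(-1),⟨0,[(1,0)]⟩,⟨1,[(26,0),(4,0)]⟩⟩,⟨false,1,⟨7,[(5,3),
  (3,0),(0,0),(13,1),(6,2)]⟩,⟨1,[(1,0),(0,0),(29,0)]⟩⟩,⟨true,0,⟨0,[(0,0),(28,0)]⟩,⟨0,[(2,0)]⟩⟩,
  ⟨false,1,⟨1,[(9,0),(0,0),(20,0)]⟩,⟨0,[(25,0)]⟩⟩,⟨false,0,⟨0,[(0,0)]⟩,⟨3,[(2,1),(6,0),(0,0),(15,0),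
  (5,1)]⟩⟩,[.o ⟨false,0,⟨0,[(29,0)]⟩,⟨3,[(2,1),(6,0),(0,0),(15,0),(5,1)]⟩⟩,.a ⟨true,0,⟨0,[(0,0)]⟩,
  ⟨0,[(30,0)]⟩⟩ ⟨true,0,⟨0,[]⟩,⟨1,[(16,0),(0,0)]⟩⟩ ⟨false,0,⟨0,[(0,0)]⟩,⟨3,[(2,1),(6,0),(0,0),(15,
  0),(4,1)]⟩⟩,.o ⟨false,1,⟨1,[(26,0),(4,0)]⟩,⟨1,[(16,0),(0,0)]⟩⟩,.fo]⟩) (.S ⟨1,0,[0,1,-1,-1],[1,-1],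
  [1,0,-1,-2],(⟨0,[(22,0)]⟩,⟨0,[(23,0)]⟩),⟨0,[(7,0),(0,0)]⟩,.k,(.r (-2) ⟨3,[(5,3),(3,0),(0,0),(13,
  1),(6,2)]⟩ ⟨0,[(1,0),(0,0)]⟩),⟨false,1,⟨3,[(5,1),(3,0),(0,0),(21,0)]⟩,⟨0,[(30,0)]⟩⟩,⟨true,0,⟨0,
  [(34,0)]⟩,⟨0,[]⟩⟩,⟨true,0,⟨0,[]⟩,⟨0,[(34,0)]⟩⟩,⟨false,0,⟨0,[(30,0)]⟩,⟨3,[(5,1),(3,0),(0,0),(21,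
  0)]⟩⟩,[.o ⟨false,0,⟨0,[(29,0)]⟩,⟨3,[(2,1),(6,0),(0,0),(15,0),(5,1)]⟩⟩,.o ⟨false,1,⟨2,[(5,0),(3,1),
  (0,1),(18,0)]⟩,⟨0,[(0,0)]⟩⟩,.o ⟨false,0,⟨1,[(16,0),(0,0)]⟩,⟨1,[(26,0),(4,0)]⟩⟩,.a ⟨true,(-1),⟨0,
  [(1,0)]⟩,⟨0,[(31,0)]⟩⟩ ⟨false,2,⟨0,[(5,0),(25,0)]⟩,⟨0,[(1,0),(0,0)]⟩⟩ ⟨true,1,⟨0,[(29,0),(1,0)]⟩,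
  ⟨0,[(0,0),(0,0)]⟩⟩]⟩)) (.I [1,-1,1,0,0,0,0,-1] (.Q [0,0,0,0,0,0,-1,0,0,0,-1] (.p false [0,0,1] []
  (⟨0,[(19,0)]⟩,⟨0,[(18,0)]⟩) .k 0 (⟨0,[]⟩,⟨0,[]⟩) .k .k) (.Q [0,-1,0,-1,0,0,-1,-1,0,1,-1] (.p
  false [0,0,1] [1] (⟨0,[(20,0)]⟩,⟨0,[(19,0)]⟩) .k 1 (⟨0,[]⟩,⟨0,[]⟩) .k .k) (.R ⟨1,false,false,true,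
  [1,0,-1],[1,-1],[0,1,1],(⟨0,[(20,0)]⟩,⟨0,[(21,0)]⟩),(⟨0,[(24,0)]⟩,⟨0,[(25,0)]⟩),⟨0,[(9,0)]⟩,.k,.k,
  .k,.k,.k,.k,⟨false,0,⟨1,[(18,0),(0,0),(12,1)]⟩,⟨0,[(0,0),(2,0),(12,0)]⟩⟩,⟨true,0,⟨0,[(18,0)]⟩,⟨0,
  [(1,0)]⟩⟩,⟨false,0,⟨0,[(6,0),(20,0)]⟩,⟨0,[(2,0),(30,0)]⟩⟩,⟨false,1,⟨3,[(7,1),(3,0),(0,0),(3,3),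
  (17,0)]⟩,⟨0,[(0,0),(3,0)]⟩⟩,⟨false,0,⟨1,[(4,0),(3,0),(7,1),(10,1)]⟩,⟨0,[(0,0),(2,0),(14,0)]⟩⟩,
  ⟨true,0,⟨0,[(16,0)]⟩,⟨0,[(5,0)]⟩⟩,[.o ⟨false,0,⟨0,[(31,0)]⟩,⟨3,[(4,1),(6,0),(0,0),(15,0),(5,1)]⟩⟩,
  .a ⟨true,0,⟨0,[(0,0),(15,0)]⟩,⟨0,[(32,0)]⟩⟩ ⟨true,0,⟨1,[(18,0),(0,0)]⟩,⟨0,[]⟩⟩ ⟨false,1,⟨0,[(0,0),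
  (2,0),(12,0),(1,0)]⟩,⟨1,[(4,0),(3,0)]⟩⟩,.o ⟨false,0,⟨0,[(1,0)]⟩,⟨1,[(18,1),(9,0),(4,0)]⟩⟩,.o
  ⟨false,0,⟨0,[(19,0)]⟩,⟨0,[(3,0),(14,0)]⟩⟩]⟩) (.I [0,-1,1,0,0,0,0,-1] (.R ⟨2,false,false,false,[0,
  1],[1,0,-1],[1,1],(⟨0,[]⟩,⟨0,[]⟩),(⟨0,[(21,0)]⟩,⟨0,[(22,0)]⟩),⟨0,[]⟩,.k,.k,.k,.k,.k,.k,⟨true,0,⟨0,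
  [(7,0)]⟩,⟨0,[(0,0)]⟩⟩,⟨false,0,⟨1,[(9,0),(11,0),(0,0)]⟩,⟨0,[(4,0),(14,0)]⟩⟩,⟨false,1,⟨7,[(8,3),(3,
  0),(0,0),(13,1),(6,2)]⟩,⟨0,[(28,0),(4,0)]⟩⟩,⟨true,0,⟨0,[(0,0),(15,0),(15,0)]⟩,⟨0,[(1,0)]⟩⟩,⟨false,
  1,⟨1,[(12,0),(0,0),(20,0)]⟩,⟨0,[(28,0)]⟩⟩,⟨false,0,⟨0,[(0,0),(15,0)]⟩,⟨1,[(17,1),(11,0),(5,0)]⟩⟩,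
  [.o ⟨false,0,⟨0,[(6,0)]⟩,⟨1,[(17,1),(11,0),(5,0)]⟩⟩,.a ⟨true,0,⟨0,[(0,0),(15,0)]⟩,⟨0,[(17,0)]⟩⟩
  ⟨true,0,⟨0,[]⟩,⟨1,[(19,0),(0,0)]⟩⟩ ⟨false,0,⟨0,[(0,0),(15,0)]⟩,⟨1,[(17,1),(11,0),(4,0)]⟩⟩,.o
  ⟨false,1,⟨1,[(29,0),(4,0)]⟩,⟨1,[(19,0),(0,0)]⟩⟩,.fo]⟩) (.Q [0,0,0,-1,0,0,0,0,0,1] (.pp false [-1,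
  1]) (.R ⟨1,false,false,false,[1,0,-1],[1,-1],[0,1,0,0,0,0,0,-1],(⟨0,[(22,0)]⟩,⟨0,[(23,0)]⟩),(⟨0,
  [(26,0)]⟩,⟨0,[(27,0)]⟩),⟨0,[(11,0)]⟩,.k,.k,.k,.k,.k,.k,⟨false,0,⟨0,[(4,0),(23,0),(5,0)]⟩,⟨0,[(0,
  0),(0,0),(3,0),(23,1)]⟩⟩,⟨true,0,⟨0,[(20,0)]⟩,⟨0,[(3,0)]⟩⟩,⟨true,0,⟨0,[(38,0)]⟩,⟨0,[]⟩⟩,⟨false,1,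
  ⟨0,[(0,0),(4,0),(12,0),(10,1)]⟩,⟨1,[(4,0),(1,0),(10,0),(1,0)]⟩⟩,⟨false,0,⟨0,[(34,0)]⟩,⟨3,[(9,1),
  (3,0),(0,0),(21,0)]⟩⟩,⟨false,1,⟨0,[(18,0),(17,0)]⟩,⟨0,[(7,0)]⟩⟩,[.a ⟨true,0,⟨0,[(0,0)]⟩,⟨0,[(34,
  0)]⟩⟩ ⟨true,0,⟨0,[(4,0),(23,0)]⟩,⟨0,[(1,0),(27,1)]⟩⟩ ⟨false,1,⟨0,[(0,0),(4,0),(14,0)]⟩,⟨1,[(6,0),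
  (3,0)]⟩⟩,.o ⟨false,1,⟨3,[(9,1),(3,0),(0,0),(21,0)]⟩,⟨0,[(6,0),(26,0)]⟩⟩,.o ⟨false,0,⟨0,[(3,0)]⟩,
  ⟨1,[(20,1),(9,0),(4,0)]⟩⟩,.o ⟨false,0,⟨0,[(21,0)]⟩,⟨0,[(5,0),(14,0)]⟩⟩]⟩) (.I [0,0,0,1,0,0,0,-1]
  (.R ⟨2,true,false,true,[0,1],[0,0,1],[0,1,1,1],(⟨0,[]⟩,⟨0,[]⟩),(⟨0,[(24,0)]⟩,⟨0,[(23,0)]⟩),⟨0,[]⟩,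
  .k,.k,.k,.k,.k,.k,⟨false,0,⟨0,[(0,0)]⟩,⟨3,[(2,1),(6,1),(0,1),(25,0),(0,0)]⟩⟩,⟨true,0,⟨0,[(21,0)]⟩,
  ⟨0,[(4,0)]⟩⟩,⟨true,0,⟨0,[(39,0)]⟩,⟨0,[]⟩⟩,⟨false,1,⟨3,[(10,1),(3,0),(0,0),(3,3),(17,0)]⟩,⟨0,[(1,
  0),(3,0),(12,0)]⟩⟩,⟨false,0,⟨0,[(35,0)]⟩,⟨3,[(10,1),(3,0),(0,0),(21,0)]⟩⟩,⟨true,0,⟨0,[(19,0)]⟩,⟨0,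
  [(8,0)]⟩⟩,[]⟩) (.R ⟨1,false,false,true,[0,0,1],[1,-1],[1,0,0,-1,0,0,0,1],(⟨0,[(24,0)]⟩,⟨0,[(23,
  0)]⟩),(⟨0,[(27,0)]⟩,⟨0,[(28,0)]⟩),⟨0,[(13,0)]⟩,.k,.k,.k,.k,.k,.k,⟨true,0,⟨2,[(0,1),(6,0),(10,0),
  (0,0),(10,3)]⟩,⟨0,[(5,0),(23,0)]⟩⟩,⟨false,0,⟨1,[(11,0),(11,0),(0,0)]⟩,⟨0,[(6,0),(14,0)]⟩⟩,⟨false,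
  1,⟨3,[(10,1),(3,0),(0,0),(21,0)]⟩,⟨0,[(35,0)]⟩⟩,⟨false,0,⟨0,[(5,0),(12,0),(15,0)]⟩,⟨0,[(3,0),(33,
  0)]⟩⟩,⟨true,0,⟨0,[]⟩,⟨0,[(39,0)]⟩⟩,⟨false,0,⟨1,[(5,0),(12,0),(1,0),(2,0),(0,0)]⟩,⟨2,[(0,1),(2,1),
  (1,0),(0,0),(14,0),(15,1)]⟩⟩,[.o ⟨false,0,⟨0,[(34,0)]⟩,⟨3,[(7,1),(6,0),(0,0),(15,0),(5,1)]⟩⟩,.o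
  ⟨false,1,⟨2,[(10,0),(3,1),(0,1),(18,0)]⟩,⟨0,[(1,0)]⟩⟩,.o ⟨false,1,⟨1,[(21,1),(9,0),(4,0)]⟩,⟨0,[(4,
  0)]⟩⟩,.a ⟨true,0,⟨0,[(21,0)]⟩,⟨0,[(18,0)]⟩⟩ ⟨false,1,⟨1,[(0,1),(35,0),(0,0)]⟩,⟨1,[(5,0),(14,0),(0,
  0),(13,1)]⟩⟩ ⟨true,0,⟨0,[(18,0),(15,0)]⟩,⟨0,[(3,0),(1,0)]⟩⟩]⟩))))) (.S ⟨1,0,[0,1,0,0,0,0,0,-1],[1,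
  0,-1],[0,0,0,0,0,0,0,-1],(⟨0,[(19,0)]⟩,⟨0,[(20,0)]⟩),⟨0,[(8,0)]⟩,.k,.k,⟨false,1,⟨1,[(10,0),(0,0),
  (21,0)]⟩,⟨0,[]⟩⟩,⟨true,0,⟨0,[(35,0)]⟩,⟨0,[]⟩⟩,⟨true,0,⟨0,[(31,0)]⟩,⟨0,[(30,0)]⟩⟩,⟨false,0,⟨0,[(31,
  0)]⟩,⟨3,[(6,1),(3,0),(0,0),(21,0)]⟩⟩,[.o ⟨false,0,⟨0,[(16,0)]⟩,⟨0,[(2,0),(12,0),(10,1)]⟩⟩,.o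
  ⟨false,0,⟨0,[(4,0)]⟩,⟨1,[(15,1),(11,0),(5,0)]⟩⟩,.a ⟨true,0,⟨1,[(7,0),(11,0),(0,0)]⟩,⟨0,[(0,0)]⟩⟩
  ⟨true,0,⟨0,[(0,0),(3,0)]⟩,⟨0,[(5,0)]⟩⟩ ⟨false,0,⟨0,[(0,0),(3,0)]⟩,⟨0,[(5,0),(27,0)]⟩⟩,.o ⟨false,0,
  ⟨0,[(18,0)]⟩,⟨1,[(0,1),(26,0),(4,0)]⟩⟩]⟩)) (.S ⟨1,0,[0,0,0,0,0,0,0,1],[0,0,1],[0,1,0,0,0,0,0,1],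
  (⟨0,[(19,0)]⟩,⟨0,[(18,0)]⟩),⟨0,[(8,0)]⟩,.k,.k,⟨true,0,⟨0,[(34,0)]⟩,⟨0,[]⟩⟩,⟨false,1,⟨1,[(9,0),(0,
  0),(21,0)]⟩,⟨0,[]⟩⟩,⟨false,0,⟨0,[(30,0)]⟩,⟨3,[(5,1),(3,0),(0,0),(21,0)]⟩⟩,⟨true,0,⟨0,[(30,0)]⟩,⟨0,
  [(29,0)]⟩⟩,[.o ⟨false,1,⟨1,[(14,1),(11,0),(5,0)]⟩,⟨0,[(3,0)]⟩⟩,.o ⟨false,1,⟨0,[(1,0),(12,0),(10,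
  1)]⟩,⟨0,[(15,0)]⟩⟩,.o ⟨false,1,⟨1,[(16,1),(9,0),(4,0)]⟩,⟨0,[(0,0),(2,0),(21,0)]⟩⟩,.a ⟨true,0,⟨0,
  [(16,0)]⟩,⟨0,[(13,0)]⟩⟩ ⟨true,0,⟨0,[(0,0)]⟩,⟨0,[(3,0),(12,0)]⟩⟩ ⟨false,1,⟨0,[(0,0),(31,0)]⟩,⟨0,
  [(3,0),(12,0)]⟩⟩]⟩)))

theorem ok19 : chk K t19 l11 = true := by decide +kernel

noncomputable def t20 : Tre :=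
  (.I [1,0,0,0,0,0,0,-1] (.R ⟨2,true,false,true,[0,1],[0,0,1],[1,1,1],(⟨0,[]⟩,⟨0,[]⟩),(⟨0,[(21,0)]⟩,
  ⟨0,[(20,0)]⟩),⟨0,[]⟩,.k,.k,.k,.k,.k,.k,⟨false,0,⟨0,[(0,0)]⟩,⟨1,[(6,1),(26,0),(0,0)]⟩⟩,⟨true,0,⟨0,
  [(18,0)]⟩,⟨0,[(3,0)]⟩⟩,⟨true,0,⟨0,[(31,0)]⟩,⟨0,[(32,0)]⟩⟩,⟨false,1,⟨3,[(7,1),(3,0),(0,0),(3,3),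
  (17,0)]⟩,⟨0,[(1,0)]⟩⟩,⟨false,0,⟨0,[]⟩,⟨1,[(11,0),(0,0),(21,0)]⟩⟩,⟨true,0,⟨0,[(16,0)]⟩,⟨0,[(5,
  0)]⟩⟩,[]⟩) (.Q [0,0,1,1,-1,0,-1,0,0,0,-1] (.p false [0,0,1] [] (⟨0,[(21,0)]⟩,⟨0,[(20,0)]⟩) .k 0
  (⟨0,[]⟩,⟨0,[]⟩) .k .k) (.R ⟨1,false,false,true,[1,0,-1],[1,-1],[1,1],(⟨0,[(21,0)]⟩,⟨0,[(22,0)]⟩),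
  (⟨0,[(25,0)]⟩,⟨0,[(26,0)]⟩),⟨0,[(10,0)]⟩,.k,.k,.k,.k,.k,.k,⟨false,0,⟨0,[(33,0)]⟩,⟨7,[(8,3),(3,0),
  (0,0),(13,1),(6,2)]⟩⟩,⟨true,0,⟨0,[(19,0)]⟩,⟨0,[(4,0)]⟩⟩,⟨false,0,⟨0,[(1,0)]⟩,⟨0,[(3,0),(31,0)]⟩⟩,
  ⟨false,1,⟨3,[(8,1),(3,0),(0,0),(3,3),(17,0)]⟩,⟨0,[(2,0)]⟩⟩,⟨false,0,⟨0,[(1,0),(31,0)]⟩,⟨1,[(2,1),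
  (2,1),(13,1),(9,0),(4,0)]⟩⟩,⟨true,0,⟨0,[(17,0)]⟩,⟨0,[(6,0)]⟩⟩,[.o ⟨false,0,⟨0,[(32,0)]⟩,⟨1,[(29,
  0),(3,1),(1,0)]⟩⟩,.e ⟨true,0,⟨0,[]⟩,⟨1,[(19,0),(0,0)]⟩⟩ ⟨true,1,⟨7,[(3,1),(4,3),(3,0),(0,0),(3,1),
  (1,5),(14,2)]⟩,⟨0,[(0,0)]⟩⟩,.o ⟨false,0,⟨0,[(4,0)]⟩,⟨1,[(19,1),(9,0),(4,0)]⟩⟩,.a ⟨true,(-1),⟨1,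
  [(0,1),(4,0),(15,0),(0,0)]⟩,⟨0,[(19,0),(14,0)]⟩⟩ ⟨false,1,⟨1,[(12,0),(0,0),(20,0)]⟩,⟨0,[(28,0)]⟩⟩
  ⟨true,1,⟨3,[(3,1),(1,1),(11,1),(1,1),(9,0),(4,2)]⟩,⟨0,[(0,0)]⟩⟩]⟩) (.R ⟨1,false,false,true,[1,0,
  -1],[1,-1],[1,1],(⟨0,[(21,0)]⟩,⟨0,[(22,0)]⟩),(⟨0,[(25,0)]⟩,⟨0,[(26,0)]⟩),⟨0,[(10,0)]⟩,.k,.k,.k,.k,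
  .k,.k,⟨false,0,⟨0,[(33,0)]⟩,⟨11,[(0,3),(7,3),(0,1),(17,1),(1,0),(4,2)]⟩⟩,⟨true,0,⟨0,[(19,0)]⟩,⟨0,
  [(4,0)]⟩⟩,⟨false,0,⟨0,[(1,0)]⟩,⟨0,[(3,0),(31,0)]⟩⟩,⟨false,1,⟨3,[(8,1),(3,0),(0,0),(3,3),(17,0)]⟩,
  ⟨0,[(2,0)]⟩⟩,⟨false,0,⟨0,[(1,0),(31,0)]⟩,⟨2,[(0,0),(1,1),(0,0),(4,1),(10,0)]⟩⟩,⟨true,0,⟨0,[(17,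
  0)]⟩,⟨0,[(6,0)]⟩⟩,[.o ⟨false,0,⟨0,[(32,0)]⟩,⟨1,[(29,0),(3,1),(1,0)]⟩⟩,.a ⟨true,0,⟨1,[(5,0),(15,0),
  (0,0)]⟩,⟨0,[(33,0)]⟩⟩ ⟨true,0,⟨0,[]⟩,⟨1,[(19,0),(0,0)]⟩⟩ ⟨false,1,⟨0,[(0,0)]⟩,⟨0,[(2,0),(4,0)]⟩⟩,
  .o ⟨false,0,⟨0,[(4,0)]⟩,⟨1,[(0,0),(18,0),(9,0),(3,0)]⟩⟩,.e ⟨false,1,⟨1,[(12,0),(0,0),(20,0)]⟩,⟨0,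
  [(28,0)]⟩⟩ ⟨false,1,⟨0,[(0,0)]⟩,⟨1,[(1,0),(0,0),(17,0),(7,0),(4,0)]⟩⟩]⟩)))

theorem ok20 : chk K t20 l14 = true := by decide +kernel

noncomputable def t21 : Tre :=
  (.R ⟨2,true,false,false,[0,1],[0,1,1],[0,1,1,1],(⟨0,[]⟩,⟨0,[]⟩),(⟨0,[(22,0),(0,0)]⟩,⟨0,[(10,0)]⟩),
  ⟨0,[]⟩,.k,.k,.k,.k,.k,.k,⟨true,0,⟨0,[(3,0)]⟩,⟨0,[(1,0),(26,0)]⟩⟩,⟨false,1,⟨0,[(19,0),(14,0)]⟩,⟨0,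
  [(4,0)]⟩⟩,⟨true,0,⟨0,[(37,0)]⟩,⟨0,[]⟩⟩,⟨false,1,⟨0,[(17,0),(17,0)]⟩,⟨0,[(6,0)]⟩⟩,⟨false,0,⟨0,[(33,
  0)]⟩,⟨3,[(8,1),(3,0),(0,0),(21,0)]⟩⟩,⟨true,0,⟨0,[(0,0)]⟩,⟨0,[(6,0),(25,0)]⟩⟩,[]⟩)

theorem ok21 : chk K t21 l16 = true := by decide +kernel

noncomputable def t22 : Tre :=
  (.R ⟨1,false,false,false,[1,0,-1],[1,-1],[0,1,0,0,0,0,0,-1],(⟨0,[(22,0)]⟩,⟨0,[(23,0)]⟩),(⟨0,[(26,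
  0)]⟩,⟨0,[(27,0)]⟩),⟨0,[(11,0)]⟩,.k,.k,.k,.k,.k,.k,⟨false,0,⟨0,[(4,0),(29,0)]⟩,⟨3,[(0,1),(0,1),(0,
  5),(32,0),(0,0)]⟩⟩,⟨true,0,⟨0,[(20,0)]⟩,⟨0,[(5,0)]⟩⟩,⟨true,0,⟨0,[(38,0)]⟩,⟨0,[]⟩⟩,⟨false,1,⟨0,[(3,
  0),(32,0)]⟩,⟨0,[(7,0),(26,0)]⟩⟩,⟨false,0,⟨0,[(34,0)]⟩,⟨3,[(9,1),(3,0),(0,0),(21,0)]⟩⟩,⟨false,1,⟨0,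
  [(18,0),(17,0)]⟩,⟨0,[(7,0)]⟩⟩,[.a ⟨true,0,⟨1,[(6,0),(15,0),(0,0)]⟩,⟨0,[(34,0)]⟩⟩ ⟨true,0,⟨0,[(4,
  0)]⟩,⟨0,[(2,0),(26,0)]⟩⟩ ⟨false,1,⟨8,[(0,6),(3,1),(4,0),(3,0),(0,0),(3,1),(9,1)]⟩,⟨0,[(5,0),(28,
  0)]⟩⟩,.e ⟨false,1,⟨1,[(4,1),(30,0),(0,0)]⟩,⟨0,[(2,0)]⟩⟩ ⟨false,1,⟨0,[(0,0)]⟩,⟨1,[(5,0),(15,0),(6,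
  0),(5,1)]⟩⟩,.o ⟨false,0,⟨0,[(5,0)]⟩,⟨1,[(20,1),(9,0),(4,0)]⟩⟩,.e ⟨false,1,⟨1,[(4,1),(30,0),(0,
  0)]⟩,⟨0,[(2,0),(26,0)]⟩⟩ ⟨false,1,⟨0,[(0,0)]⟩,⟨0,[(21,0),(12,0)]⟩⟩]⟩)

theorem ok22 : chk K t22 l17 = true := by decide +kernel

noncomputable def t23 : Tre :=
  (.R ⟨1,false,false,false,[0,0,1],[1,-1],[1,0,0,-1,0,0,0,1],(⟨0,[(25,0)]⟩,⟨0,[(24,0)]⟩),(⟨0,[(28,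
  0)]⟩,⟨0,[(29,0)]⟩),⟨0,[(14,0)]⟩,.k,.k,.k,.k,.k,.k,⟨false,0,⟨0,[(4,0)]⟩,⟨1,[(6,1),(30,0),(0,0)]⟩⟩,
  ⟨true,(-1),⟨0,[(0,0),(1,0),(19,0)]⟩,⟨1,[(22,1),(9,0),(4,0)]⟩⟩,⟨false,1,⟨3,[(11,1),(3,0),(0,0),(21,
  0)]⟩,⟨0,[(36,0)]⟩⟩,⟨false,0,⟨0,[(0,0),(5,0),(24,0)]⟩,⟨1,[(20,1),(11,0),(3,1),(1,0)]⟩⟩,⟨true,0,⟨0,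
  []⟩,⟨0,[(40,0)]⟩⟩,⟨false,0,⟨0,[(0,0),(5,0),(24,0),(4,0)]⟩,⟨1,[(20,1),(11,0),(5,0)]⟩⟩,[.a ⟨true,0,
  ⟨1,[(8,0),(15,0),(0,0)]⟩,⟨0,[(36,0)]⟩⟩ ⟨true,0,⟨0,[(1,0)]⟩,⟨0,[(6,0),(24,0),(4,0)]⟩⟩ ⟨false,0,⟨5,
  [(0,3),(7,0),(3,0),(17,1)]⟩,⟨1,[(22,1),(9,0),(3,1),(0,0)]⟩⟩,.e ⟨false,1,⟨1,[(1,1),(35,0),(0,0)]⟩,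
  ⟨0,[(6,0),(29,0)]⟩⟩ ⟨false,0,⟨0,[(0,0)]⟩,⟨3,[(6,1),(8,0),(0,0),(3,1),(1,1),(9,1),(3,3),(0,0)]⟩⟩,
  .o ⟨false,1,⟨1,[(22,1),(9,0),(4,0)]⟩,⟨0,[(7,0)]⟩⟩,.e ⟨false,1,⟨1,[(1,1),(35,0),(0,0)]⟩,⟨0,[(6,0),
  (24,0),(4,0)]⟩⟩ ⟨false,0,⟨0,[(0,0)]⟩,⟨1,[(15,0),(0,0),(5,1),(9,0),(3,1)]⟩⟩]⟩)

theorem ok23 : chk K t23 l19 = true := by decide +kernel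

noncomputable def t24 : Tre :=
  (.Q [0,-1,0,2,0,0,-1,-1,0,0,-1] (.p false [0,0,1] [] (⟨0,[(27,0)]⟩,⟨0,[(26,0)]⟩) .k 0 (⟨0,[]⟩,⟨0,
  []⟩) .k .k) (.I [0,0,2,0,0,2,1] (.R ⟨1,false,false,false,[0,0,1],[0,1],[],(⟨0,[(29,0)]⟩,⟨0,[(28,
  0)]⟩),(⟨0,[(33,0)]⟩,⟨0,[(32,0)]⟩),⟨0,[(18,0)]⟩,.k,.k,.k,.k,(.x 0 ⟨0,[(0,0)]⟩ ⟨7,[(2,3),(2,1),(1,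
  1),(9,3),(0,11),(4,1),(12,2),(4,8)]⟩),.k,⟨true,1,⟨7,[(15,3),(3,0),(0,0),(13,1),(6,2)]⟩,⟨0,[(2,0),
  (23,0)]⟩⟩,⟨false,1,⟨1,[(23,1),(12,0),(4,0)]⟩,⟨0,[(26,0)]⟩⟩,⟨false,1,⟨0,[(10,0),(31,0)]⟩,⟨0,[(8,
  0)]⟩⟩,⟨true,0,⟨1,[(1,0),(23,0)]⟩,⟨0,[(9,0)]⟩⟩,⟨false,1,⟨7,[(0,0),(0,2),(2,1),(5,4),(18,0),(2,1),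
  (8,1),(0,5)]⟩,⟨0,[(5,0)]⟩⟩,⟨false,0,⟨0,[(1,0)]⟩,⟨0,[(15,0),(8,0)]⟩⟩,[.e ⟨false,1,⟨1,[(19,0),(0,0),
  (20,0)]⟩,⟨0,[]⟩⟩ ⟨false,0,⟨0,[(2,0),(38,0)]⟩,⟨7,[(10,1),(4,3),(3,0),(0,0),(3,1),(1,5),(14,2)]⟩⟩,
  .o ⟨false,1,⟨0,[(3,0),(38,0)]⟩,⟨0,[(39,0)]⟩⟩,.o ⟨false,1,⟨1,[(26,1),(9,0),(4,0)]⟩,⟨0,[(11,0)]⟩⟩,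
  .a ⟨true,0,⟨0,[(26,0)]⟩,⟨0,[(23,0)]⟩⟩ ⟨false,1,⟨1,[(41,0),(0,0)]⟩,⟨1,[(26,0),(0,0)]⟩⟩ ⟨true,0,⟨0,
  [(2,0),(38,0)]⟩,⟨0,[(4,0),(7,0)]⟩⟩]⟩) (.Q [0,-1,0,1,1,0,1,1,0,-1,1] (.p true [0,0,1] [1] (⟨0,[(29,
  0)]⟩,⟨0,[(28,0)]⟩) .k 1 (⟨0,[]⟩,⟨0,[]⟩) .k .k) (.S ⟨1,0,[0,0,1,1,0,0,0,1],[0,1,1],[1,1,1,0,0,0,0,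
  1],(⟨0,[(30,0),(0,0)]⟩,⟨0,[(18,0)]⟩),⟨0,[(30,0)]⟩,.k,.k,⟨true,0,⟨0,[(40,0)]⟩,⟨0,[(41,0)]⟩⟩,⟨false,
  1,⟨1,[(20,0),(0,0),(21,0)]⟩,⟨0,[]⟩⟩,⟨false,0,⟨0,[]⟩,⟨1,[(20,0),(0,0),(21,0)]⟩⟩,⟨true,0,⟨0,[(41,
  0)]⟩,⟨0,[(40,0)]⟩⟩,[.o ⟨false,1,⟨4,[(0,3),(4,0),(9,0),(4,0),(0,0),(13,0)]⟩,⟨0,[(8,0)]⟩⟩,.o ⟨false,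
  1,⟨0,[(0,0)]⟩,⟨1,[(8,0),(17,0),(13,0)]⟩⟩,.a ⟨true,1,⟨0,[(27,0),(14,0)]⟩,⟨1,[(3,1),(9,0),(15,0),(0,
  0)]⟩⟩ ⟨true,(-1),⟨0,[(3,0),(6,0)]⟩,⟨1,[(11,1),(30,0),(0,0)]⟩⟩ ⟨false,0,⟨0,[(3,0),(21,0),(17,0)]⟩,
  ⟨0,[(8,0),(18,0),(14,0)]⟩⟩,.o ⟨false,1,⟨1,[(27,1),(9,0),(4,0)]⟩,⟨0,[(12,0)]⟩⟩]⟩) (.Q [0,0,0,0,0,2,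
  0,0,0,-1,1] (.p true [0,0,1] [1] (⟨0,[(30,0)]⟩,⟨0,[(29,0)]⟩) .k 1 (⟨0,[]⟩,⟨0,[]⟩) .k .k) (.R ⟨0,
  false,false,true,[1,-1,-1],[1,-1],[1,1,1],(⟨0,[(19,0)]⟩,⟨0,[(31,0),(0,0)]⟩),(⟨0,[(34,0)]⟩,⟨0,[(35,
  0)]⟩),⟨0,[(0,0)]⟩,.k,.k,(.r (-2) ⟨0,[(12,0),(4,0),(25,0)]⟩ ⟨3,[(3,0),(0,5),(21,4),(1,1),(15,1)]⟩),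
  .k,.k,.k,⟨true,(-1),⟨0,[(4,0),(23,0)]⟩,⟨7,[(17,3),(3,0),(0,0),(13,1),(6,2)]⟩⟩,⟨false,1,⟨0,[(28,0),
  (14,0)]⟩,⟨0,[(13,0)]⟩⟩,⟨false,(-1),⟨0,[(4,0),(21,0),(10,0)]⟩,⟨1,[(9,1),(18,1),(14,2),(0,0)]⟩⟩,
  ⟨true,0,⟨0,[(26,0)]⟩,⟨0,[(15,0)]⟩⟩,⟨false,0,⟨0,[]⟩,⟨0,[]⟩⟩,⟨false,0,⟨0,[]⟩,⟨0,[]⟩⟩,[.o ⟨false,0,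
  ⟨0,[(41,0)]⟩,⟨0,[(5,0),(38,0)]⟩⟩,.e ⟨false,0,⟨0,[]⟩,⟨1,[(21,0),(0,0),(20,0)]⟩⟩ ⟨false,2,⟨7,[(12,
  1),(4,3),(3,0),(0,0),(3,1),(1,5),(14,10)]⟩,⟨0,[(4,0)]⟩⟩,.a ⟨true,(-1),⟨1,[(4,1),(9,0),(15,0),(0,
  0)]⟩,⟨0,[(28,0),(14,0)]⟩⟩ ⟨false,0,⟨1,[(28,0),(0,0)]⟩,⟨1,[(43,0),(0,0)]⟩⟩ ⟨true,1,⟨2,[(11,0),(0,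
  1),(4,0),(8,0),(1,0),(14,1)]⟩,⟨0,[(4,0)]⟩⟩,.o ⟨false,(-1),⟨1,[(4,2),(1,0),(7,0),(2,0)]⟩,⟨1,[(28,
  1),(9,0),(4,2)]⟩⟩]⟩) (.I [1,0,2,2,-1,0,0,-1] (.I [0,0,2,2,-1,0,0,-1] (.R ⟨1,false,false,false,[0,
  0,1],[0,1],[],(⟨0,[(33,0)]⟩,⟨0,[(32,0)]⟩),(⟨0,[(37,0)]⟩,⟨0,[(36,0)]⟩),⟨0,[(22,0)]⟩,.k,.k,.k,.k,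
  (.r (-2) ⟨0,[(18,0),(0,0),(25,0)]⟩ ⟨0,[(0,0)]⟩),.k,⟨true,1,⟨7,[(19,3),(3,0),(0,0),(13,1),(6,2)]⟩,
  ⟨1,[(1,0),(4,0),(6,0),(25,0)]⟩⟩,⟨false,1,⟨1,[(27,1),(12,0),(4,0)]⟩,⟨0,[(30,0)]⟩⟩,⟨false,1,⟨0,[(14,
  0),(31,0)]⟩,⟨0,[(12,0)]⟩⟩,⟨true,0,⟨1,[(5,0),(23,0)]⟩,⟨0,[(13,0)]⟩⟩,⟨false,1,⟨3,[(1,1),(12,1),(8,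
  0),(0,0),(20,1),(0,2)]⟩,⟨0,[(9,0)]⟩⟩,⟨false,0,⟨0,[(5,0)]⟩,⟨0,[(19,0),(8,0)]⟩⟩,[.e ⟨false,1,⟨1,
  [(23,0),(0,0),(20,0)]⟩,⟨0,[]⟩⟩ ⟨false,0,⟨0,[(6,0),(38,0)]⟩,⟨7,[(14,1),(4,3),(3,0),(0,0),(3,1),(1,
  5),(14,2)]⟩⟩,.o ⟨false,1,⟨0,[(7,0),(38,0)]⟩,⟨0,[(43,0)]⟩⟩,.o ⟨false,1,⟨1,[(30,1),(9,0),(4,0)]⟩,⟨0,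
  [(15,0)]⟩⟩,.a ⟨true,0,⟨0,[(30,0)]⟩,⟨0,[(27,0)]⟩⟩ ⟨false,1,⟨1,[(45,0),(0,0)]⟩,⟨1,[(30,0),(0,0)]⟩⟩
  ⟨true,0,⟨0,[(6,0),(38,0)]⟩,⟨0,[(8,0),(7,0)]⟩⟩]⟩) (.Q [0,-1,0,2,1,0,1,1,0,-1,1] (.p true [0,0,1]
  [1] (⟨0,[(33,0)]⟩,⟨0,[(32,0)]⟩) .k 1 (⟨0,[]⟩,⟨0,[]⟩) .k .k) (.R ⟨1,true,false,false,[1,0,-1],[0,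
  1],[0,0,0,0,0,0,0,-1],(⟨0,[(33,0)]⟩,⟨0,[(34,0)]⟩),(⟨0,[(38,0)]⟩,⟨0,[(37,0)]⟩),⟨0,[(22,0)]⟩,.k,.k,
  .k,.k,(.r (-2) ⟨0,[(15,0),(4,0),(25,0)]⟩ ⟨0,[(2,2),(0,3),(1,3),(8,3),(20,15),(4,3),(0,1)]⟩),.k,
  ⟨true,1,⟨0,[(12,0),(18,0),(14,0)]⟩,⟨0,[(7,0),(21,0),(10,0)]⟩⟩,⟨false,2,⟨1,[(31,1),(9,0),(4,2)]⟩,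
  ⟨2,[(2,0),(4,1),(5,0),(3,1),(10,0)]⟩⟩,⟨false,1,⟨1,[(24,0),(0,0),(21,0)]⟩,⟨0,[]⟩⟩,⟨true,1,⟨14,[(0,
  9),(8,2),(9,2),(0,3),(8,1),(9,2),(1,0)]⟩,⟨0,[(4,0)]⟩⟩,⟨true,0,⟨0,[(45,0)]⟩,⟨0,[(44,0)]⟩⟩,⟨false,1,
  ⟨0,[(0,0)]⟩,⟨2,[(4,0),(7,0),(4,1),(12,0),(16,0)]⟩⟩,[]⟩) (.Q [-1,-1,0,2,1,0,1,1,-1,0,1,-1] (.p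
  true [0,0,1] [0,0,0,0,1] (⟨0,[(34,0)]⟩,⟨0,[(33,0)]⟩) .k 2 (⟨0,[(27,0)]⟩,⟨0,[(26,0)]⟩) .k (.r 0
  ⟨29,[(3,1),(1,1),(1,0),(2,0),(2,25),(15,2),(5,7),(4,2),(0,0)]⟩ ⟨1,[(15,1),(8,0),(0,0),(21,0)]⟩))
  (.Q [-1,-1,0,1,1,0,1,1,-1,0,1,-1] (.p true [0,0,1] [0,0,0,0,1] (⟨0,[(35,0)]⟩,⟨0,[(34,0)]⟩) .k 2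
  (⟨0,[(28,0)]⟩,⟨0,[(27,0)]⟩) .k (.r 0 ⟨29,[(4,1),(1,1),(1,0),(2,0),(2,25),(15,2),(5,7),(4,2),(0,
  0)]⟩ ⟨1,[(16,1),(8,0),(0,0),(21,0)]⟩)) (.Q [-1,-1,0,0,1,0,1,1,-1,0,1,-1] (.p true [0,0,1] [0,0,0,
  0,1] (⟨0,[(36,0)]⟩,⟨0,[(35,0)]⟩) .k 2 (⟨0,[(29,0)]⟩,⟨0,[(28,0)]⟩) .k (.r 0 ⟨29,[(5,1),(1,1),(1,0),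
  (2,0),(2,25),(15,2),(5,7),(4,2),(0,0)]⟩ ⟨1,[(17,1),(8,0),(0,0),(21,0)]⟩)) (.Q [0,0,0,0,0,-1,0,0,0,
  0,0,1] (.ed false [1,-1,0,0,1] .k) (.S ⟨1,0,[1],[0,0,0,0,1],[1,1],(⟨0,[(31,0)]⟩,⟨0,[(30,0)]⟩),⟨0,
  [(0,0)]⟩,.k,(.r (-1) ⟨7,[(24,3),(3,0),(0,0),(13,1),(6,2)]⟩ ⟨4,[(3,0),(2,0),(6,0),(11,0),(3,0),(22,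
  1)]⟩),⟨true,0,⟨0,[(53,0)]⟩,⟨0,[]⟩⟩,⟨false,1,⟨1,[(28,0),(0,0),(21,0)]⟩,⟨0,[]⟩⟩,⟨false,0,⟨0,[(49,
  0)]⟩,⟨3,[(24,1),(3,0),(0,0),(21,0)]⟩⟩,⟨true,0,⟨0,[(49,0)]⟩,⟨0,[(48,0)]⟩⟩,[.e ⟨true,0,⟨0,[(53,0)]⟩,
  ⟨0,[(44,0)]⟩⟩ ⟨true,0,⟨0,[]⟩,⟨1,[(35,0),(0,0)]⟩⟩,.o ⟨false,1,⟨1,[(29,1),(15,0),(5,0)]⟩,⟨0,[(1,0),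
  (6,0),(3,0)]⟩⟩,.a ⟨true,0,⟨0,[(29,0)]⟩,⟨1,[(1,0),(1,0),(4,1)]⟩⟩ ⟨false,0,⟨0,[]⟩,⟨1,[(28,0),(0,0),
  (21,0)]⟩⟩ ⟨true,0,⟨0,[]⟩,⟨0,[(53,0)]⟩⟩,.e ⟨false,1,⟨1,[(28,0),(0,0),(20,0)]⟩,⟨0,[(44,0)]⟩⟩ ⟨false,
  1,⟨1,[(50,0),(0,0)]⟩,⟨1,[(35,0),(0,0)]⟩⟩]⟩) (.S ⟨1,0,[-1,1],[1,0,0,0,-1],[-1],(⟨0,[(30,0)]⟩,⟨0,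
  [(31,0)]⟩),⟨1,[(0,0),(6,0),(19,0),(2,0)]⟩,.k,(.r (-1) ⟨13,[(24,6),(3,0),(0,0),(13,1),(6,5),(2,
  2)]⟩ ⟨4,[(3,0),(2,0),(6,0),(11,0),(3,0),(5,0),(0,0)]⟩),⟨false,1,⟨1,[(28,0),(0,0),(21,0)]⟩,⟨0,[]⟩⟩,
  ⟨true,0,⟨0,[(53,0)]⟩,⟨0,[]⟩⟩,⟨true,0,⟨0,[(49,0)]⟩,⟨0,[(48,0)]⟩⟩,⟨false,0,⟨0,[(49,0)]⟩,⟨3,[(24,1),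
  (3,0),(0,0),(21,0)]⟩⟩,[.o ⟨false,0,⟨0,[(1,0),(6,0),(3,0)]⟩,⟨1,[(29,1),(15,0),(5,0)]⟩⟩,.e ⟨false,1,
  ⟨0,[(7,1),(1,1),(25,1),(3,7),(4,0),(0,0)]⟩,⟨0,[(53,0)]⟩⟩ ⟨false,1,⟨9,[(28,3),(0,3),(20,4),(0,0),
  (1,1)]⟩,⟨0,[]⟩⟩,.a ⟨true,0,⟨1,[(1,0),(1,0),(4,1)]⟩,⟨0,[(29,0)]⟩⟩ ⟨false,1,⟨4,[(28,1),(0,1),(21,2),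
  (1,0)]⟩,⟨0,[]⟩⟩ ⟨true,0,⟨0,[(53,0)]⟩,⟨0,[]⟩⟩,.o ⟨false,0,⟨12,[(1,9),(2,6),(1,2),(4,4),(0,0),(0,1),
  (14,2),(16,1)]⟩,⟨1,[(29,1),(15,0),(4,0)]⟩⟩]⟩)) (.R ⟨1,true,false,false,[1,0,-1],[1,0,0,0,-1],[0,0,
  0,0,0,0,0,-1],(⟨0,[(36,0)]⟩,⟨0,[(37,0)]⟩),(⟨0,[(29,0)]⟩,⟨0,[(30,0)]⟩),⟨0,[(25,0)]⟩,.k,.k,.k,.k,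
  (.r (-1) ⟨3,[(3,1),(14,1),(15,1),(9,0),(4,2),(0,1)]⟩ ⟨9,[(2,2),(2,0),(4,1),(11,7),(5,2),(6,0),(7,
  4)]⟩),.k,⟨false,1,⟨1,[(18,1),(30,0),(0,0)]⟩,⟨0,[(5,0),(0,1),(1,1),(8,1),(20,7),(4,1),(0,0)]⟩⟩,
  ⟨true,1,⟨3,[(1,3),(1,1),(14,1),(15,1),(9,0),(4,0)]⟩,⟨1,[(0,0),(9,0),(2,0),(14,0),(14,0)]⟩⟩,⟨false,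
  1,⟨1,[(27,0),(0,0),(21,0)]⟩,⟨0,[]⟩⟩,⟨true,1,⟨2,[(1,1),(15,0),(9,0),(19,0)]⟩,⟨0,[(0,0)]⟩⟩,⟨true,0,
  ⟨0,[(48,0)]⟩,⟨0,[(47,0)]⟩⟩,⟨false,1,⟨0,[(1,0)]⟩,⟨0,[(15,0),(12,0)]⟩⟩,[]⟩)) (.R ⟨1,true,false,
  false,[1,-1,-1],[1,0,0,0,-1],[0,0,-1,-1,0,0,0,-1],(⟨0,[(24,0)]⟩,⟨0,[(36,0),(0,0)]⟩),(⟨0,[(28,0)]⟩,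
  ⟨0,[(29,0)]⟩),⟨0,[(5,0)]⟩,.k,.k,(.r (-2) ⟨0,[(17,0),(4,0),(25,0)]⟩ ⟨6,[(1,1),(2,0),(4,7),(17,1),
  (3,5),(10,3)]⟩),(.r (-1) ⟨3,[(2,1),(14,1),(15,1),(9,0),(4,2),(0,1)]⟩ ⟨9,[(1,2),(2,0),(4,1),(11,7),
  (5,2),(6,0),(7,4)]⟩),(.r (-2) ⟨0,[(17,0),(4,0),(25,0)]⟩ ⟨201,[(1,56),(2,29),(0,1),(1,1),(1,229),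
  (17,56),(3,174),(5,7),(4,117),(0,0)]⟩),.k,⟨true,1,⟨3,[(2,1),(14,1),(15,1),(9,0),(4,2),(0,1)]⟩,⟨0,
  [(9,0),(21,0),(10,0)]⟩⟩,⟨false,2,⟨1,[(1,1),(0,1),(30,1),(9,0),(4,2)]⟩,⟨2,[(0,0),(8,1),(2,0),(14,
  1),(14,0)]⟩⟩,⟨false,1,⟨1,[(26,0),(0,0),(21,0)]⟩,⟨0,[]⟩⟩,⟨true,1,⟨4,[(1,2),(14,0),(9,1),(4,0),(19,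
  0)]⟩,⟨0,[(0,0)]⟩⟩,⟨true,0,⟨0,[(47,0)]⟩,⟨0,[(46,0)]⟩⟩,⟨false,1,⟨0,[(1,0)]⟩,⟨1,[(0,0),(13,0),(7,0),
  (4,0)]⟩⟩,[]⟩)) (.Q [0,0,-1,0,1,0,0,0,-1,0,0,-1] (.p false [0,0,0,0,1] [] (⟨0,[(28,0)]⟩,⟨0,[(27,
  0)]⟩) .k 0 (⟨0,[]⟩,⟨0,[]⟩) .k .k) (.Q [0,0,0,0,0,-1,0,0,0,0,0,1] (.ed false [1,-1,0,0,1] .k) (.R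
  ⟨1,false,false,false,[0,0,0,0,1],[0,1],[1,1],(⟨0,[(30,0)]⟩,⟨0,[(29,0)]⟩),(⟨0,[(41,0)]⟩,⟨0,[(40,
  0)]⟩),⟨0,[(0,0)]⟩,.k,.k,(.r (-1) ⟨7,[(23,3),(3,0),(0,0),(13,1),(6,2)]⟩ ⟨9,[(5,4),(16,4),(4,1),(0,
  1),(21,2),(1,0)]⟩),(.r (-1) ⟨7,[(23,3),(3,0),(0,0),(13,1),(6,2)]⟩ ⟨9,[(5,4),(16,4),(4,1),(0,1),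
  (21,2),(1,0)]⟩),(.r (-2) ⟨3,[(23,3),(3,0),(0,0),(13,1),(6,2)]⟩ ⟨1,[(5,0),(4,0),(21,0),(10,0),(4,
  0)]⟩),.k,⟨false,1,⟨3,[(4,0),(13,0),(4,0),(18,1),(6,1)]⟩,⟨1,[(5,0),(10,0),(33,0)]⟩⟩,⟨true,1,⟨0,[(1,
  0)]⟩,⟨7,[(2,1),(2,2),(4,2),(6,4),(10,5),(14,6)]⟩⟩,⟨true,0,⟨0,[(52,0)]⟩,⟨0,[]⟩⟩,⟨false,1,⟨2,[(1,2),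
  (3,0),(10,0),(26,0),(4,0),(1,0)]⟩,⟨2,[(2,0),(14,0),(10,1),(21,0)]⟩⟩,⟨false,0,⟨0,[(48,0)]⟩,⟨3,[(23,
  1),(3,0),(0,0),(21,0)]⟩⟩,⟨false,1,⟨3,[(1,3),(3,1),(3,0),(6,1),(15,0),(15,1),(1,1)]⟩,⟨2,[(2,1),(14,
  1),(10,0),(21,1)]⟩⟩,[.a ⟨true,0,⟨0,[(48,0)]⟩,⟨1,[(20,0),(15,0),(0,0)]⟩⟩ ⟨true,0,⟨0,[(52,0)]⟩,⟨0,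
  [(43,0)]⟩⟩ ⟨false,1,⟨1,[(1,1),(7,0),(22,0)]⟩,⟨2,[(2,0),(14,0),(10,1),(21,0)]⟩⟩,.o ⟨false,1,⟨0,
  [(11,0),(38,0)]⟩,⟨0,[(47,0)]⟩⟩,.e ⟨false,0,⟨0,[]⟩,⟨1,[(27,0),(0,0),(21,0)]⟩⟩ ⟨false,1,⟨1,[(1,1),
  (3,0),(10,0),(33,0)]⟩,⟨2,[(2,0),(14,0),(10,1),(21,0)]⟩⟩,.o ⟨false,0,⟨5,[(2,0),(7,0),(1,1),(0,0),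
  (14,4),(14,2),(0,1)]⟩,⟨0,[(1,0)]⟩⟩]⟩) (.R ⟨0,false,false,false,[0,0,0,0,1],[0,1],[1,1],(⟨0,[(30,
  0)]⟩,⟨0,[(29,0)]⟩),(⟨0,[(41,0)]⟩,⟨0,[(40,0)]⟩),⟨0,[(0,0)]⟩,.k,.k,(.r (-1) ⟨7,[(23,3),(3,0),(0,0),
  (13,1),(6,2)]⟩ ⟨9,[(5,4),(16,4),(4,1),(0,1),(21,2),(1,0)]⟩),(.r (-1) ⟨7,[(23,3),(3,0),(0,0),(13,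
  1),(6,2)]⟩ ⟨9,[(5,4),(16,4),(4,1),(0,1),(21,2),(1,0)]⟩),.k,.k,⟨false,1,⟨3,[(4,0),(13,0),(4,0),(18,
  1),(6,1)]⟩,⟨1,[(5,0),(10,0),(33,0)]⟩⟩,⟨true,1,⟨0,[(1,0)]⟩,⟨7,[(2,1),(2,2),(4,2),(6,4),(10,5),(14,
  6)]⟩⟩,⟨true,0,⟨0,[(52,0)]⟩,⟨0,[]⟩⟩,⟨false,1,⟨2,[(1,2),(3,0),(10,0),(26,0),(4,0),(1,0)]⟩,⟨2,[(2,0),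
  (14,0),(10,1),(21,0)]⟩⟩,⟨false,0,⟨0,[]⟩,⟨0,[]⟩⟩,⟨false,0,⟨0,[]⟩,⟨0,[]⟩⟩,[.a ⟨true,0,⟨0,[(48,0)]⟩,
  ⟨1,[(20,0),(15,0),(0,0)]⟩⟩ ⟨true,0,⟨0,[(52,0)]⟩,⟨0,[(43,0)]⟩⟩ ⟨false,1,⟨1,[(1,1),(7,0),(22,0)]⟩,
  ⟨2,[(2,0),(14,0),(10,1),(21,0)]⟩⟩,.o ⟨false,1,⟨0,[(11,0),(38,0)]⟩,⟨0,[(47,0)]⟩⟩,.e ⟨false,0,⟨0,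
  []⟩,⟨1,[(27,0),(0,0),(21,0)]⟩⟩ ⟨false,1,⟨1,[(1,1),(3,0),(10,0),(33,0)]⟩,⟨2,[(2,0),(14,0),(10,1),
  (21,0)]⟩⟩,.o ⟨false,0,⟨5,[(2,0),(7,0),(1,1),(0,0),(14,4),(14,2),(0,1)]⟩,⟨0,[(1,0)]⟩⟩]⟩)) (.Q [0,0,
  1,0,0,0,0,0,-1,1,0,-1] (.p false [0,0,0,0,1] [1] (⟨0,[(29,0)]⟩,⟨0,[(28,0)]⟩) .k 1 (⟨0,[]⟩,⟨0,[]⟩)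
  .k .k) (.Q [-1,0,0,1,0,0,0,0,-1,1,0,-1] (.p false [0,0,0,0,1] [1] (⟨0,[(30,0)]⟩,⟨0,[(29,0)]⟩) .k
  1 (⟨0,[]⟩,⟨0,[]⟩) .k .k) (.Q [0,0,0,0,0,-1,0,0,0,1,0,-1] (.ed true [0,1,0,0,1] .k) (.S ⟨1,0,[-1,
  1],[1,0,0,0,-1],[-1],(⟨0,[(31,0)]⟩,⟨0,[(32,0)]⟩),⟨0,[(0,0)]⟩,.k,(.r (-1) ⟨13,[(25,6),(3,0),(0,0),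
  (13,1),(6,5),(2,2)]⟩ ⟨2,[(7,0),(6,0),(11,0),(7,0),(17,0)]⟩),⟨false,1,⟨1,[(29,0),(0,0),(21,0)]⟩,⟨0,
  []⟩⟩,⟨true,0,⟨0,[(54,0)]⟩,⟨0,[]⟩⟩,⟨true,0,⟨0,[(50,0)]⟩,⟨0,[(49,0)]⟩⟩,⟨false,0,⟨0,[(50,0)]⟩,⟨3,
  [(25,1),(3,0),(0,0),(21,0)]⟩⟩,[.a ⟨true,0,⟨6,[(1,3),(0,1),(2,0),(13,0),(9,0),(14,1),(4,0)]⟩,⟨1,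
  [(3,1),(47,0),(0,0)]⟩⟩ ⟨false,1,⟨9,[(29,3),(0,3),(20,4),(0,0),(1,1)]⟩,⟨0,[]⟩⟩ ⟨true,0,⟨0,[(54,
  0)]⟩,⟨0,[(45,0)]⟩⟩,.o ⟨false,1,⟨17,[(1,3),(20,1),(6,13),(16,2),(5,0),(1,1)]⟩,⟨1,[(3,1),(42,0),(4,
  0)]⟩⟩,.o ⟨false,1,⟨0,[(29,0)]⟩,⟨1,[(3,1),(42,0),(4,0)]⟩⟩,.e ⟨false,1,⟨0,[(8,1),(1,1),(25,1),(3,7),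
  (4,0),(0,0)]⟩,⟨1,[(36,0),(0,0)]⟩⟩ ⟨false,1,⟨9,[(29,3),(0,3),(20,4),(0,0),(1,1)]⟩,⟨0,[(45,0)]⟩⟩]⟩)
  (.S ⟨1,0,[1],[0,0,0,0,1],[1,1],(⟨0,[(32,0)]⟩,⟨0,[(31,0)]⟩),⟨1,[(0,0),(7,0),(19,0),(3,0)]⟩,.k,(.r
  (-1) ⟨7,[(25,3),(3,0),(0,0),(13,1),(6,2)]⟩ ⟨6,[(1,0),(5,1),(6,1),(9,1),(1,0),(3,0),(21,1),(0,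
  0)]⟩),⟨true,0,⟨0,[(54,0)]⟩,⟨0,[]⟩⟩,⟨false,1,⟨1,[(29,0),(0,0),(21,0)]⟩,⟨0,[]⟩⟩,⟨false,0,⟨0,[(50,
  0)]⟩,⟨3,[(25,1),(3,0),(0,0),(21,0)]⟩⟩,⟨true,0,⟨0,[(50,0)]⟩,⟨0,[(49,0)]⟩⟩,[.o ⟨false,0,⟨1,[(3,1),
  (42,0),(4,0)]⟩,⟨17,[(1,3),(20,1),(6,13),(16,2),(5,0),(1,1)]⟩⟩,.a ⟨true,0,⟨1,[(3,1),(47,0),(0,0)]⟩,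
  ⟨6,[(1,3),(0,1),(2,0),(13,0),(9,0),(14,1),(4,0)]⟩⟩ ⟨true,0,⟨0,[]⟩,⟨1,[(36,0),(0,0)]⟩⟩ ⟨false,1,⟨1,
  [(51,0),(0,0)]⟩,⟨0,[(54,0)]⟩⟩,.o ⟨false,0,⟨1,[(3,1),(42,0),(4,0)]⟩,⟨0,[(29,0)]⟩⟩,.e ⟨false,1,⟨1,
  [(29,0),(0,0),(20,0)]⟩,⟨0,[(45,0)]⟩⟩ ⟨false,1,⟨1,[(51,0),(0,0)]⟩,⟨1,[(36,0),(0,0)]⟩⟩]⟩)) (.Q [0,0,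
  0,0,0,-1,0,0,0,0,0,1] (.ed false [1,-1,0,0,1] .k) (.S ⟨1,0,[1,1],[0,0,0,0,1],[],(⟨0,[(32,0)]⟩,⟨0,
  [(31,0)]⟩),⟨0,[(0,0)]⟩,.k,(.r (-1) ⟨7,[(25,3),(3,0),(0,0),(13,1),(6,2)]⟩ ⟨9,[(7,4),(16,4),(4,1),
  (0,1),(21,2),(1,0)]⟩),⟨false,1,⟨4,[(29,1),(0,1),(21,2),(1,0)]⟩,⟨0,[]⟩⟩,⟨true,0,⟨0,[(54,0)]⟩,⟨0,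
  []⟩⟩,⟨true,0,⟨0,[(7,0),(0,1),(1,1),(8,0),(16,0),(3,7),(4,0),(0,0)]⟩,⟨0,[(49,0)]⟩⟩,⟨false,0,⟨0,
  [(50,0)]⟩,⟨3,[(25,1),(3,0),(0,0),(21,0)]⟩⟩,[.a ⟨true,(-1),⟨0,[(1,0),(5,0),(2,0),(8,0),(18,0),(1,
  1)]⟩,⟨1,[(2,1),(48,0),(0,0)]⟩⟩ ⟨false,1,⟨1,[(29,0),(0,0),(20,0)]⟩,⟨0,[]⟩⟩ ⟨true,0,⟨0,[(54,0)]⟩,⟨0,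
  [(45,0)]⟩⟩,.o ⟨false,0,⟨1,[(1,1),(9,0),(22,0)]⟩,⟨14,[(2,0),(5,0),(1,0),(18,13),(6,0),(3,3),(5,
  0)]⟩⟩,.e ⟨false,1,⟨1,[(29,0),(0,0),(21,0)]⟩,⟨0,[]⟩⟩ ⟨false,0,⟨0,[]⟩,⟨1,[(29,0),(0,0),(21,0)]⟩⟩,.e
  ⟨false,1,⟨1,[(51,0),(0,0)]⟩,⟨1,[(36,0),(0,0)]⟩⟩ ⟨false,1,⟨1,[(29,0),(0,0),(20,0)]⟩,⟨0,[(45,
  0)]⟩⟩]⟩) (.R ⟨0,false,false,true,[0,0,0,0,1],[0,-1,1],[1,1,1],(⟨0,[(32,0)]⟩,⟨0,[(31,0)]⟩),(⟨0,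
  [(28,0)]⟩,⟨0,[(38,0),(1,0)]⟩),⟨0,[(0,0)]⟩,.k,.k,(.r (-1) ⟨7,[(25,3),(3,0),(0,0),(13,1),(6,2)]⟩ ⟨9,
  [(7,4),(16,4),(4,1),(0,1),(21,2),(1,0)]⟩),(.r 0 ⟨3,[(7,1),(12,1),(8,0),(0,0),(21,0)]⟩ ⟨7,[(6,2),
  (17,4),(0,0),(3,0),(0,0),(20,0),(0,1)]⟩),.k,.k,⟨false,0,⟨3,[(7,1),(12,1),(8,0),(0,0),(21,0)]⟩,⟨1,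
  [(6,0),(11,0),(32,0)]⟩⟩,⟨true,1,⟨0,[(29,0),(6,0)]⟩,⟨1,[(1,0),(1,0),(6,0),(1,0),(25,0),(1,1)]⟩⟩,
  ⟨false,0,⟨1,[(36,0),(0,0)]⟩,⟨1,[(51,0),(0,0)]⟩⟩,⟨true,1,⟨14,[(2,0),(5,0),(1,0),(8,14),(9,13),(6,
  0),(3,3),(5,0)]⟩,⟨0,[(1,0),(5,0),(2,0),(27,0),(1,1)]⟩⟩,⟨false,0,⟨0,[]⟩,⟨0,[]⟩⟩,⟨false,0,⟨0,[]⟩,⟨0,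
  []⟩⟩,[.a ⟨true,0,⟨0,[(19,0)]⟩,⟨1,[(11,1),(10,0),(15,0),(0,0)]⟩⟩ ⟨false,0,⟨0,[(54,0)]⟩,⟨1,[(51,0),
  (0,0)]⟩⟩ ⟨true,1,⟨0,[(19,0),(9,0)]⟩,⟨0,[(1,0),(5,0),(2,0),(27,0),(1,1),(4,0)]⟩⟩,.o ⟨false,1,⟨1,
  [(19,1),(26,0),(5,0)]⟩,⟨1,[(11,0),(23,0)]⟩⟩,.o ⟨false,0,⟨0,[(1,0),(48,0)]⟩,⟨0,[(29,0)]⟩⟩,.e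
  ⟨false,0,⟨0,[]⟩,⟨1,[(29,0),(0,0),(21,0)]⟩⟩ ⟨false,2,⟨1,[(19,1),(9,1),(21,0),(0,0)]⟩,⟨0,[(1,0),(5,
  0),(2,0),(27,0),(1,1),(4,0)]⟩⟩]⟩))) (.Q [0,0,0,0,0,-1,0,0,0,1,0,-1] (.ed true [0,1,0,0,1] .k) (.R
  ⟨1,false,false,false,[1,0,0,0,-1],[0,1],[-1,1],(⟨0,[(30,0)]⟩,⟨0,[(31,0)]⟩),(⟨0,[(42,0)]⟩,⟨0,[(41,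
  0)]⟩),⟨0,[(0,0)]⟩,.k,.k,(.r (-1) ⟨13,[(24,6),(3,0),(0,0),(13,1),(6,5),(2,2)]⟩ ⟨2,[(6,0),(6,0),(11,
  0),(7,0),(17,0)]⟩),(.r (-1) ⟨13,[(24,6),(3,0),(0,0),(13,1),(6,5),(2,2)]⟩ ⟨2,[(6,0),(6,0),(11,0),
  (7,0),(17,0)]⟩),(.r (-2) ⟨3,[(24,3),(3,0),(0,0),(13,1),(6,2)]⟩ ⟨0,[(6,0),(10,0)]⟩),.k,⟨false,1,⟨3,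
  [(5,0),(13,0),(4,0),(18,1),(6,1)]⟩,⟨1,[(6,0),(10,0),(33,0)]⟩⟩,⟨true,0,⟨0,[(1,0)]⟩,⟨0,[(6,0),(10,
  0),(3,0),(6,0)]⟩⟩,⟨true,0,⟨0,[(53,0)]⟩,⟨0,[]⟩⟩,⟨false,0,⟨1,[(1,1),(4,0),(10,0),(33,0)]⟩,⟨5,[(21,
  2),(6,5),(8,0),(0,0),(0,1),(1,1)]⟩⟩,⟨false,0,⟨0,[(49,0)]⟩,⟨3,[(24,1),(3,0),(0,0),(21,0)]⟩⟩,⟨false,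
  0,⟨1,[(1,1),(4,0),(3,0),(6,0),(15,0),(17,0)]⟩,⟨66,[(4,1),(2,4),(1,3),(8,1),(2,63),(5,0),(0,66),(6,
  3),(3,18),(4,3),(0,1)]⟩⟩,[.a ⟨true,0,⟨0,[(49,0)]⟩,⟨1,[(21,0),(15,0),(0,0)]⟩⟩ ⟨true,0,⟨0,[(53,0)]⟩,
  ⟨0,[(44,0)]⟩⟩ ⟨false,0,⟨1,[(1,1),(8,0),(22,0)]⟩,⟨1,[(21,0),(6,1),(8,0),(0,0)]⟩⟩,.o ⟨false,1,⟨0,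
  [(12,0),(38,0)]⟩,⟨0,[(48,0)]⟩⟩,.o ⟨false,1,⟨0,[(28,0)]⟩,⟨2,[(1,0),(0,0),(26,0),(15,0)]⟩⟩,.o
  ⟨false,1,⟨1,[(28,1),(6,0),(0,0)]⟩,⟨0,[(1,0)]⟩⟩]⟩) (.R ⟨0,false,false,true,[1,0,0,0,-1],[1,-1],[0,
  1,-1,-1],(⟨0,[(30,0)]⟩,⟨0,[(31,0)]⟩),(⟨0,[(41,0)]⟩,⟨0,[(42,0)]⟩),⟨0,[(0,0)]⟩,.k,.k,(.r (-1) ⟨13,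
  [(24,6),(3,0),(0,0),(13,1),(6,5),(2,2)]⟩ ⟨2,[(6,0),(6,0),(11,0),(7,0),(17,0)]⟩),(.r 0 ⟨9,[(6,4),
  (16,4),(4,1),(0,1),(21,2),(1,0)]⟩ ⟨7,[(24,3),(3,0),(0,0),(13,1),(6,2)]⟩),.k,.k,⟨false,1,⟨1,[(28,
  0),(0,0),(20,0)]⟩,⟨0,[]⟩⟩,⟨true,(-1),⟨0,[(2,0)]⟩,⟨0,[(28,0)]⟩⟩,⟨false,1,⟨7,[(24,3),(3,0),(0,0),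
  (13,1),(6,2)]⟩,⟨1,[(6,0),(10,0),(33,0)]⟩⟩,⟨true,(-1),⟨1,[(1,0),(0,0),(5,0),(9,0)]⟩,⟨0,[(28,0),(20,
  0)]⟩⟩,⟨false,0,⟨0,[]⟩,⟨0,[]⟩⟩,⟨false,0,⟨0,[]⟩,⟨0,[]⟩⟩,[.o ⟨false,0,⟨0,[(48,0)]⟩,⟨0,[(12,0),(38,
  0)]⟩⟩,.a ⟨true,0,⟨1,[(21,0),(15,0),(0,0)]⟩,⟨0,[(49,0)]⟩⟩ ⟨true,1,⟨7,[(24,3),(3,0),(0,0),(13,1),(6,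
  2)]⟩,⟨1,[(6,0),(4,0),(6,0),(25,0)]⟩⟩ ⟨false,0,⟨1,[(1,0),(0,0),(18,0),(28,0)]⟩,⟨1,[(10,0),(17,1),
  (4,0)]⟩⟩,.o ⟨false,1,⟨0,[(28,0)]⟩,⟨2,[(1,0),(0,0),(26,0),(15,0)]⟩⟩,.o ⟨false,1,⟨1,[(28,1),(6,0),
  (0,0)]⟩,⟨0,[(1,0)]⟩⟩]⟩))))))) (.R ⟨1,false,false,false,[0,0,1],[0,1],[],(⟨0,[(32,0)]⟩,⟨0,[(31,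
  0)]⟩),(⟨0,[(36,0)]⟩,⟨0,[(35,0)]⟩),⟨0,[(21,0)]⟩,.k,.k,.k,.k,(.r (-1) ⟨0,[(0,0)]⟩ ⟨7,[(4,5),(2,3),
  (5,1),(5,3),(9,10),(0,0)]⟩),.k,⟨true,1,⟨7,[(18,3),(3,0),(0,0),(13,1),(6,2)]⟩,⟨0,[(5,0),(23,0)]⟩⟩,
  ⟨false,1,⟨7,[(0,3),(3,3),(14,1),(17,1),(1,0),(4,2)]⟩,⟨0,[(29,0)]⟩⟩,⟨false,1,⟨0,[(13,0),(31,0)]⟩,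
  ⟨0,[(11,0)]⟩⟩,⟨true,0,⟨1,[(4,0),(23,0)]⟩,⟨0,[(12,0)]⟩⟩,⟨false,1,⟨3,[(4,1),(8,1),(8,0),(0,0),(5,1),
  (14,0),(0,1)]⟩,⟨0,[(8,0)]⟩⟩,⟨false,0,⟨0,[(4,0)]⟩,⟨0,[(18,0),(8,0)]⟩⟩,[.e ⟨false,1,⟨1,[(22,0),(0,
  0),(20,0)]⟩,⟨0,[]⟩⟩ ⟨false,0,⟨0,[(5,0),(38,0)]⟩,⟨7,[(13,1),(4,3),(3,0),(0,0),(3,1),(1,5),(14,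
  2)]⟩⟩,.o ⟨false,1,⟨0,[(6,0),(38,0)]⟩,⟨0,[(42,0)]⟩⟩,.o ⟨false,1,⟨1,[(29,1),(9,0),(4,0)]⟩,⟨0,[(14,
  0)]⟩⟩,.a ⟨true,0,⟨0,[(29,0)]⟩,⟨0,[(26,0)]⟩⟩ ⟨false,1,⟨1,[(44,0),(0,0)]⟩,⟨1,[(29,0),(0,0)]⟩⟩ ⟨true,
  0,⟨0,[(5,0),(38,0)]⟩,⟨0,[(7,0),(7,0)]⟩⟩]⟩))))) (.Q [0,0,0,0,0,2,0,0,0,-1,1] (.p true [0,0,1] [1]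
  (⟨0,[(28,0)]⟩,⟨0,[(27,0)]⟩) .k 1 (⟨0,[]⟩,⟨0,[]⟩) .k .k) (.R ⟨0,false,false,true,[1,-1,-1],[1,-1],
  [],(⟨0,[(17,0)]⟩,⟨0,[(29,0),(0,0)]⟩),(⟨0,[(32,0)]⟩,⟨0,[(33,0)]⟩),⟨0,[(0,0)]⟩,.k,.k,(.r (-2) ⟨0,
  [(10,0),(4,0),(25,0)]⟩ ⟨1,[(2,2),(21,1),(1,0),(13,0),(1,0)]⟩),.k,.k,.k,⟨true,0,⟨1,[(2,0),(23,0),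
  (13,0),(1,0)]⟩,⟨0,[(39,0)]⟩⟩,⟨false,1,⟨0,[(26,0),(14,0)]⟩,⟨0,[(11,0)]⟩⟩,⟨false,0,⟨0,[(2,0),(21,0),
  (17,0)]⟩,⟨0,[(7,0),(18,0),(14,0)]⟩⟩,⟨true,0,⟨0,[(24,0)]⟩,⟨0,[(13,0)]⟩⟩,⟨false,0,⟨0,[]⟩,⟨0,[]⟩⟩,
  ⟨false,0,⟨0,[]⟩,⟨0,[]⟩⟩,[.o ⟨false,0,⟨0,[(39,0)]⟩,⟨0,[(3,0),(38,0)]⟩⟩,.e ⟨false,1,⟨1,[(41,0),(0,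
  0)]⟩,⟨0,[(44,0)]⟩⟩ ⟨false,2,⟨7,[(10,1),(4,3),(3,0),(0,0),(3,1),(1,5),(14,10)]⟩,⟨0,[(2,0)]⟩⟩,.a
  ⟨true,(-1),⟨1,[(2,1),(9,0),(15,0),(0,0)]⟩,⟨0,[(26,0),(14,0)]⟩⟩ ⟨false,1,⟨1,[(19,0),(0,0),(21,0)]⟩,
  ⟨0,[]⟩⟩ ⟨true,1,⟨2,[(9,0),(0,1),(4,0),(8,0),(1,0),(14,1)]⟩,⟨0,[(2,0)]⟩⟩,.o ⟨false,(-1),⟨2,[(1,0),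
  (0,2),(4,0),(18,0),(0,0),(7,0)]⟩,⟨1,[(26,1),(9,0),(4,2)]⟩⟩]⟩) (.Q [0,-1,0,1,1,0,1,1,0,-1,1] (.p
  true [0,0,1] [1] (⟨0,[(29,0)]⟩,⟨0,[(28,0)]⟩) .k 1 (⟨0,[]⟩,⟨0,[]⟩) .k .k) (.S ⟨1,0,[0,0,1,1,0,0,0,
  1],[0,1,1],[1,1,1,0,0,0,0,1],(⟨0,[(30,0),(0,0)]⟩,⟨0,[(18,0)]⟩),⟨0,[(30,0)]⟩,.k,.k,⟨true,0,⟨0,[(40,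
  0)]⟩,⟨0,[(41,0)]⟩⟩,⟨false,1,⟨1,[(20,0),(0,0),(21,0)]⟩,⟨0,[]⟩⟩,⟨false,0,⟨0,[]⟩,⟨1,[(20,0),(0,0),
  (21,0)]⟩⟩,⟨true,0,⟨0,[(41,0)]⟩,⟨0,[(40,0)]⟩⟩,[.o ⟨false,1,⟨4,[(0,3),(4,0),(9,0),(4,0),(0,0),(13,
  0)]⟩,⟨0,[(8,0)]⟩⟩,.o ⟨false,1,⟨0,[(0,0)]⟩,⟨1,[(8,0),(17,0),(13,0)]⟩⟩,.a ⟨true,1,⟨0,[(27,0),(14,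
  0)]⟩,⟨1,[(3,1),(9,0),(15,0),(0,0)]⟩⟩ ⟨true,(-1),⟨0,[(3,0),(6,0)]⟩,⟨1,[(11,1),(30,0),(0,0)]⟩⟩
  ⟨false,0,⟨0,[(3,0),(21,0),(17,0)]⟩,⟨0,[(8,0),(18,0),(14,0)]⟩⟩,.o ⟨false,1,⟨1,[(27,1),(9,0),(4,
  0)]⟩,⟨0,[(12,0)]⟩⟩]⟩) (.Q [0,-1,0,2,1,0,1,1,0,-1,1] (.p true [0,0,1] [1] (⟨0,[(30,0)]⟩,⟨0,[(29,
  0)]⟩) .k 1 (⟨0,[]⟩,⟨0,[]⟩) .k .k) (.R ⟨1,true,false,false,[1,0,-1],[0,1],[0,0,0,0,0,0,0,-1],(⟨0,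
  [(30,0)]⟩,⟨0,[(31,0)]⟩),(⟨0,[(35,0)]⟩,⟨0,[(34,0)]⟩),⟨0,[(19,0)]⟩,.k,.k,.k,.k,(.r (-2) ⟨0,[(12,0),
  (4,0),(25,0)]⟩ ⟨2,[(0,0),(3,3),(21,1),(1,0),(1,0),(0,0),(5,0)]⟩),.k,⟨true,1,⟨0,[(9,0),(18,0),(14,
  0)]⟩,⟨0,[(4,0),(21,0),(10,0)]⟩⟩,⟨false,2,⟨1,[(28,1),(9,0),(4,2)]⟩,⟨1,[(4,1),(9,0),(15,0),(0,0)]⟩⟩,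
  ⟨false,1,⟨1,[(21,0),(0,0),(21,0)]⟩,⟨0,[]⟩⟩,⟨true,1,⟨14,[(0,9),(5,2),(9,2),(0,3),(8,1),(9,2),(1,
  0)]⟩,⟨0,[(1,0)]⟩⟩,⟨true,0,⟨0,[(42,0)]⟩,⟨0,[(41,0)]⟩⟩,⟨false,1,⟨0,[(0,0)]⟩,⟨2,[(1,0),(7,0),(4,1),
  (12,0),(16,0)]⟩⟩,[]⟩) (.I [1,1,1,1,-1] (.Q [0,0,-1,0,1,0,0,0,-1,0,0,-1] (.p false [0,0,0,0,1] []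
  (⟨0,[(25,0)]⟩,⟨0,[(24,0)]⟩) .k 0 (⟨0,[]⟩,⟨0,[]⟩) .k .k) (.Q [0,0,0,0,0,1,0,0,0,-1,0,1] (.ed false
  [0,1,0,0,1] .k) (.Q [-1,-1,0,1,0,0,-1,-1,-1,1,-1,-1] (.p false [0,0,1] [1,0,0,0,-1] (⟨0,[(34,0)]⟩,
  ⟨0,[(33,0)]⟩) .k 2 (⟨0,[(26,0)]⟩,⟨0,[(27,0)]⟩) .k (.r 0 ⟨0,[(13,0)]⟩ ⟨1,[(15,1),(8,0),(0,0),(21,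
  0)]⟩)) (.S ⟨1,0,[1],[0,0,0,0,1],[1,1],(⟨0,[(28,0)]⟩,⟨0,[(27,0)]⟩),⟨1,[(1,0),(4,0),(17,0),(3,0)]⟩,
  .k,(.r (-1) ⟨7,[(21,3),(3,0),(0,0),(13,1),(6,2)]⟩ ⟨6,[(3,1),(6,1),(11,1),(9,1),(13,2),(1,1),(0,
  0)]⟩),⟨true,0,⟨0,[(50,0)]⟩,⟨0,[]⟩⟩,⟨false,1,⟨1,[(25,0),(0,0),(21,0)]⟩,⟨0,[]⟩⟩,⟨false,0,⟨0,[(46,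
  0)]⟩,⟨3,[(21,1),(3,0),(0,0),(21,0)]⟩⟩,⟨true,0,⟨0,[(46,0)]⟩,⟨0,[(45,0)]⟩⟩,[.e ⟨true,0,⟨0,[(50,0)]⟩,
  ⟨0,[(41,0)]⟩⟩ ⟨true,0,⟨0,[]⟩,⟨1,[(32,0),(0,0)]⟩⟩,.o ⟨false,1,⟨1,[(26,1),(15,0),(5,0)]⟩,⟨0,[(0,0),
  (6,0),(1,0)]⟩⟩,.a ⟨true,0,⟨0,[(26,0)]⟩,⟨0,[(0,0),(14,0)]⟩⟩ ⟨false,0,⟨0,[]⟩,⟨1,[(25,0),(0,0),(21,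
  0)]⟩⟩ ⟨true,0,⟨0,[]⟩,⟨0,[(50,0)]⟩⟩,.e ⟨false,1,⟨1,[(25,0),(0,0),(20,0)]⟩,⟨0,[(41,0)]⟩⟩ ⟨false,1,
  ⟨1,[(47,0),(0,0)]⟩,⟨1,[(32,0),(0,0)]⟩⟩]⟩) (.R ⟨1,false,false,false,[0,0,0,0,1],[0,1],[1,1],(⟨0,
  [(28,0)]⟩,⟨0,[(27,0)]⟩),(⟨0,[(39,0)]⟩,⟨0,[(38,0)]⟩),⟨1,[(1,0),(4,0),(17,0),(3,0)]⟩,.k,.k,(.r (-1)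
  ⟨7,[(21,3),(3,0),(0,0),(13,1),(6,2)]⟩ ⟨6,[(3,1),(6,1),(11,1),(9,1),(13,2),(1,1),(0,0)]⟩),(.r (-1)
  ⟨7,[(21,3),(3,0),(0,0),(13,1),(6,2)]⟩ ⟨6,[(3,1),(6,1),(11,1),(9,1),(13,2),(1,1),(0,0)]⟩),(.r (-2)
  ⟨3,[(21,3),(3,0),(0,0),(13,1),(6,2)]⟩ ⟨0,[(8,0),(23,0),(13,0)]⟩),.k,⟨false,1,⟨23,[(4,1),(2,1),(13,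
  7),(18,13),(1,0),(4,16)]⟩,⟨0,[(3,0),(44,0)]⟩⟩,⟨true,1,⟨0,[(2,0)]⟩,⟨3,[(0,0),(2,2),(0,0),(21,2),
  (14,4)]⟩⟩,⟨true,0,⟨0,[(50,0)]⟩,⟨0,[]⟩⟩,⟨false,1,⟨0,[(2,0),(0,0),(44,0)]⟩,⟨2,[(0,0),(3,0),(21,1),
  (21,0)]⟩⟩,⟨false,0,⟨0,[(46,0)]⟩,⟨3,[(21,1),(3,0),(0,0),(21,0)]⟩⟩,⟨false,1,⟨0,[(2,0),(0,0),(42,0),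
  (1,0)]⟩,⟨2,[(0,1),(3,1),(21,0),(21,1)]⟩⟩,[.a ⟨true,0,⟨0,[(46,0)]⟩,⟨1,[(18,0),(15,0),(0,0)]⟩⟩
  ⟨true,0,⟨0,[(50,0)]⟩,⟨0,[(41,0)]⟩⟩ ⟨false,1,⟨0,[(2,0),(43,0)]⟩,⟨2,[(0,0),(3,0),(21,1),(21,0)]⟩⟩,
  .o ⟨false,1,⟨0,[(9,0),(38,0)]⟩,⟨0,[(45,0)]⟩⟩,.e ⟨false,0,⟨0,[]⟩,⟨1,[(25,0),(0,0),(21,0)]⟩⟩ ⟨false,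
  1,⟨0,[(2,0),(0,0),(44,0)]⟩,⟨2,[(0,0),(3,0),(21,1),(21,0)]⟩⟩,.o ⟨false,0,⟨3,[(0,0),(7,0),(1,0),(2,
  0),(12,2),(14,1),(0,0)]⟩,⟨0,[(2,0)]⟩⟩]⟩)) (.Q [-1,1,0,0,0,0,0,0,-1,0,0,-1] (.p false [0,0,0,0,1]
  [] (⟨0,[(27,0)]⟩,⟨0,[(26,0)]⟩) .k 0 (⟨0,[]⟩,⟨0,[]⟩) .k .k) (.Q [-1,0,0,-1,0,0,0,0,-1,1,0,-1] (.p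
  false [0,0,0,0,1] [1] (⟨0,[(28,0)]⟩,⟨0,[(27,0)]⟩) .k 1 (⟨0,[]⟩,⟨0,[]⟩) .k .k) (.S ⟨1,0,[-1,1],[1,
  0,0,0,-1],[-1],(⟨0,[(28,0)]⟩,⟨0,[(29,0)]⟩),⟨0,[(2,0)]⟩,.k,(.r (-1) ⟨13,[(22,6),(3,0),(0,0),(13,1),
  (6,5),(2,2)]⟩ ⟨2,[(4,0),(6,0),(11,0),(9,0),(13,0),(1,0)]⟩),⟨false,1,⟨1,[(26,0),(0,0),(21,0)]⟩,⟨0,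
  []⟩⟩,⟨true,0,⟨0,[(51,0)]⟩,⟨0,[]⟩⟩,⟨true,0,⟨0,[(47,0)]⟩,⟨0,[(46,0)]⟩⟩,⟨false,0,⟨0,[(47,0)]⟩,⟨3,
  [(22,1),(3,0),(0,0),(21,0)]⟩⟩,[.o ⟨false,0,⟨0,[(1,0)]⟩,⟨1,[(27,1),(15,0),(5,0)]⟩⟩,.e ⟨false,1,⟨0,
  [(42,0),(5,0)]⟩,⟨0,[(51,0)]⟩⟩ ⟨false,1,⟨9,[(26,3),(0,3),(20,4),(0,0),(1,1)]⟩,⟨0,[]⟩⟩,.a ⟨true,0,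
  ⟨0,[(0,0),(46,0)]⟩,⟨0,[(27,0)]⟩⟩ ⟨false,1,⟨4,[(26,1),(0,1),(21,2),(1,0)]⟩,⟨0,[]⟩⟩ ⟨true,0,⟨0,[(51,
  0)]⟩,⟨0,[]⟩⟩,.o ⟨false,0,⟨0,[(1,0),(40,0)]⟩,⟨1,[(27,1),(15,0),(4,0)]⟩⟩]⟩) (.R ⟨1,false,false,true,
  [1,0,0,0,-1],[1,-1],[-1],(⟨0,[(28,0)]⟩,⟨0,[(29,0)]⟩),(⟨0,[(39,0)]⟩,⟨0,[(40,0)]⟩),⟨0,[(2,0)]⟩,.k,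
  .k,(.r (-1) ⟨13,[(22,6),(3,0),(0,0),(13,1),(6,5),(2,2)]⟩ ⟨2,[(4,0),(6,0),(11,0),(9,0),(13,0),(1,
  0)]⟩),(.r 0 ⟨6,[(4,1),(6,1),(11,1),(9,1),(13,2),(1,1),(0,0)]⟩ ⟨7,[(22,3),(3,0),(0,0),(13,1),(6,
  2)]⟩),.k,.k,⟨true,0,⟨1,[(9,0),(23,0),(13,0),(1,0)]⟩,⟨0,[(46,0)]⟩⟩,⟨false,0,⟨0,[(27,0)]⟩,⟨0,[(3,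
  0)]⟩⟩,⟨false,1,⟨1,[(26,0),(0,0),(21,0)]⟩,⟨0,[]⟩⟩,⟨false,0,⟨0,[(0,0),(18,0)]⟩,⟨0,[(1,0),(45,0),(1,
  0)]⟩⟩,⟨true,0,⟨0,[(47,0)]⟩,⟨0,[(46,0)]⟩⟩,⟨false,0,⟨0,[(27,0)]⟩,⟨0,[(1,0),(47,0)]⟩⟩,[.o ⟨false,0,
  ⟨0,[(46,0)]⟩,⟨0,[(10,0),(38,0)]⟩⟩,.a ⟨true,0,⟨1,[(19,0),(15,0),(0,0)]⟩,⟨0,[(47,0)]⟩⟩ ⟨false,1,⟨0,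
  [(42,0),(5,0)]⟩,⟨0,[(51,0)]⟩⟩ ⟨true,0,⟨2,[(0,0),(4,0),(2,0),(18,1),(21,0)]⟩,⟨0,[(1,0),(2,0),(44,
  0)]⟩⟩,.e ⟨false,1,⟨4,[(26,1),(0,1),(21,2),(1,0)]⟩,⟨0,[]⟩⟩ ⟨false,0,⟨2,[(0,0),(4,0),(2,0),(18,1),
  (21,0)]⟩,⟨0,[(1,0),(45,0),(1,0)]⟩⟩,.o ⟨false,0,⟨0,[(1,0),(40,0)]⟩,⟨1,[(27,1),(15,0),(4,0)]⟩⟩]⟩))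
  (.Q [-1,1,0,1,0,0,0,0,-1,0,0,-1] (.p false [0,0,0,0,1] [] (⟨0,[(28,0)]⟩,⟨0,[(27,0)]⟩) .k 0 (⟨0,
  []⟩,⟨0,[]⟩) .k .k) (.R ⟨2,true,false,false,[0,1],[0,0,0,0,1],[1,0,1],(⟨0,[]⟩,⟨0,[]⟩),(⟨0,[(29,
  0)]⟩,⟨0,[(28,0)]⟩),⟨0,[]⟩,.k,.k,.k,(.r 0 ⟨6,[(4,1),(6,1),(11,1),(9,1),(13,2),(1,1),(0,0)]⟩ ⟨7,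
  [(22,3),(3,0),(0,0),(13,1),(6,2)]⟩),.k,.k,⟨true,0,⟨1,[(33,0),(0,0)]⟩,⟨0,[]⟩⟩,⟨false,0,⟨0,[(27,
  0)]⟩,⟨0,[(3,0)]⟩⟩,⟨false,1,⟨3,[(22,1),(3,0),(0,0),(21,0)]⟩,⟨0,[(47,0)]⟩⟩,⟨true,0,⟨9,[(1,2),(3,1),
  (2,1),(13,0),(4,6),(15,0)]⟩,⟨0,[(0,0)]⟩⟩,⟨true,0,⟨0,[]⟩,⟨0,[(51,0)]⟩⟩,⟨false,0,⟨0,[(1,0)]⟩,⟨14,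
  [(0,1),(6,0),(11,0),(5,0),(0,12),(10,2),(5,0),(5,0)]⟩⟩,[]⟩) (.S ⟨1,0,[-1,1],[1,0,0,0,-1],[-1],(⟨0,
  [(28,0)]⟩,⟨0,[(29,0)]⟩),⟨0,[(2,0)]⟩,.k,(.r (-1) ⟨13,[(22,6),(3,0),(0,0),(13,1),(6,5),(2,2)]⟩ ⟨2,
  [(4,0),(6,0),(11,0),(9,0),(13,0),(1,0)]⟩),⟨false,1,⟨1,[(26,0),(0,0),(21,0)]⟩,⟨0,[]⟩⟩,⟨true,0,⟨0,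
  [(51,0)]⟩,⟨0,[]⟩⟩,⟨true,0,⟨0,[(47,0)]⟩,⟨0,[(46,0)]⟩⟩,⟨false,0,⟨0,[(47,0)]⟩,⟨3,[(22,1),(3,0),(0,0),
  (21,0)]⟩⟩,[.a ⟨true,0,⟨5,[(3,5),(0,5),(14,2),(15,0),(0,0),(0,1),(1,1)]⟩,⟨0,[(1,0)]⟩⟩ ⟨false,1,⟨9,
  [(26,3),(0,3),(20,4),(0,0),(1,1)]⟩,⟨0,[]⟩⟩ ⟨true,0,⟨0,[(51,0)]⟩,⟨0,[(42,0)]⟩⟩,.o ⟨false,1,⟨101,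
  [(3,9),(0,3),(0,0),(1,8),(0,0),(16,8),(0,91),(10,26),(4,5),(0,4)]⟩,⟨0,[(0,0),(9,0)]⟩⟩,.o ⟨false,1,
  ⟨0,[(26,0)]⟩,⟨3,[(0,3),(3,1),(5,1),(32,0),(4,0)]⟩⟩,.e ⟨false,1,⟨0,[(42,0),(5,0)]⟩,⟨1,[(33,0),(0,
  0)]⟩⟩ ⟨false,1,⟨9,[(26,3),(0,3),(20,4),(0,0),(1,1)]⟩,⟨0,[(42,0)]⟩⟩]⟩)))) (.Q [0,0,1,0,0,0,0,0,-1,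
  1,0,-1] (.p false [0,0,0,0,1] [1] (⟨0,[(26,0)]⟩,⟨0,[(25,0)]⟩) .k 1 (⟨0,[]⟩,⟨0,[]⟩) .k .k) (.Q [0,
  0,0,0,0,-1,0,0,0,0,0,1] (.ed false [1,-1,0,0,1] .k) (.Q [1,1,0,0,-1,0,0,0,1,0,0,1] (.p true [0,0,
  0,0,1] [] (⟨0,[(28,0)]⟩,⟨0,[(27,0)]⟩) .k 0 (⟨0,[]⟩,⟨0,[]⟩) .k .k) (.S ⟨1,0,[1,1],[0,0,0,0,1],[],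
  (⟨0,[(29,0)]⟩,⟨0,[(28,0)]⟩),⟨0,[(1,0)]⟩,.k,(.r (-1) ⟨7,[(22,3),(3,0),(0,0),(13,1),(6,2)]⟩ ⟨8,[(2,
  1),(1,1),(6,1),(15,1),(6,1),(12,4),(1,1),(0,0)]⟩),⟨false,1,⟨4,[(26,1),(0,1),(21,2),(1,0)]⟩,⟨0,
  []⟩⟩,⟨true,0,⟨0,[(51,0)]⟩,⟨0,[]⟩⟩,⟨true,0,⟨0,[(4,0),(37,0),(5,0)]⟩,⟨0,[(46,0)]⟩⟩,⟨false,0,⟨0,[(47,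
  0)]⟩,⟨3,[(22,1),(3,0),(0,0),(21,0)]⟩⟩,[.a ⟨true,(-1),⟨0,[(0,0)]⟩,⟨1,[(2,1),(45,0),(0,0)]⟩⟩ ⟨false,
  1,⟨1,[(26,0),(0,0),(20,0)]⟩,⟨0,[]⟩⟩ ⟨true,0,⟨0,[(51,0)]⟩,⟨0,[(42,0)]⟩⟩,.o ⟨false,0,⟨1,[(0,1),(42,
  0),(5,0)]⟩,⟨3,[(2,1),(23,1),(16,0),(4,0)]⟩⟩,.o ⟨false,0,⟨1,[(0,1),(42,0),(5,0)]⟩,⟨0,[(26,0)]⟩⟩,.e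
  ⟨false,1,⟨1,[(48,0),(0,0)]⟩,⟨1,[(33,0),(0,0)]⟩⟩ ⟨false,1,⟨1,[(26,0),(0,0),(20,0)]⟩,⟨0,[(42,
  0)]⟩⟩]⟩) (.S ⟨1,0,[1],[0,0,0,0,1],[1,1],(⟨0,[(29,0)]⟩,⟨0,[(28,0)]⟩),⟨0,[(1,0)]⟩,.k,(.r (-1) ⟨7,
  [(22,3),(3,0),(0,0),(13,1),(6,2)]⟩ ⟨8,[(2,1),(1,1),(6,1),(15,1),(6,1),(12,4),(1,1),(0,0)]⟩),⟨true,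
  0,⟨0,[(51,0)]⟩,⟨0,[]⟩⟩,⟨false,1,⟨1,[(26,0),(0,0),(21,0)]⟩,⟨0,[]⟩⟩,⟨false,0,⟨0,[(47,0)]⟩,⟨3,[(22,
  1),(3,0),(0,0),(21,0)]⟩⟩,⟨true,0,⟨0,[(47,0)]⟩,⟨0,[(46,0)]⟩⟩,[.o ⟨false,0,⟨1,[(3,1),(39,0),(4,0)]⟩,
  ⟨2,[(0,0),(25,1),(24,0)]⟩⟩,.a ⟨true,0,⟨1,[(3,1),(44,0),(0,0)]⟩,⟨1,[(0,0),(1,0),(1,0),(1,0),(24,0),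
  (16,0)]⟩⟩ ⟨true,0,⟨0,[]⟩,⟨1,[(33,0),(0,0)]⟩⟩ ⟨false,1,⟨1,[(48,0),(0,0)]⟩,⟨0,[(51,0)]⟩⟩,.o ⟨false,
  0,⟨1,[(3,1),(39,0),(4,0)]⟩,⟨0,[(26,0)]⟩⟩,.e ⟨false,1,⟨1,[(26,0),(0,0),(20,0)]⟩,⟨0,[(42,0)]⟩⟩
  ⟨false,1,⟨1,[(48,0),(0,0)]⟩,⟨1,[(33,0),(0,0)]⟩⟩]⟩)) (.Q [-1,1,0,-1,0,0,0,0,-1,1,0,-1] (.p false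
  [0,0,0,0,1] [1] (⟨0,[(28,0)]⟩,⟨0,[(27,0)]⟩) .k 1 (⟨0,[]⟩,⟨0,[]⟩) .k .k) (.S ⟨1,0,[-1,1],[1,0,0,0,
  -1],[-1],(⟨0,[(28,0)]⟩,⟨0,[(29,0)]⟩),⟨1,[(1,0),(5,0),(17,0),(2,0)]⟩,.k,(.r (-1) ⟨13,[(22,6),(3,0),
  (0,0),(13,1),(6,5),(2,2)]⟩ ⟨5,[(2,1),(6,0),(1,1),(15,1),(6,0),(12,2),(1,0)]⟩),⟨false,1,⟨1,[(26,0),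
  (0,0),(21,0)]⟩,⟨0,[]⟩⟩,⟨true,0,⟨0,[(51,0)]⟩,⟨0,[]⟩⟩,⟨true,0,⟨0,[(47,0)]⟩,⟨0,[(46,0)]⟩⟩,⟨false,0,
  ⟨0,[(47,0)]⟩,⟨3,[(22,1),(3,0),(0,0),(21,0)]⟩⟩,[.a ⟨true,0,⟨1,[(0,0),(1,0),(1,0),(43,0)]⟩,⟨1,[(3,
  1),(44,0),(0,0)]⟩⟩ ⟨false,1,⟨9,[(26,3),(0,3),(20,4),(0,0),(1,1)]⟩,⟨0,[]⟩⟩ ⟨true,0,⟨0,[(51,0)]⟩,⟨0,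
  [(42,0)]⟩⟩,.o ⟨false,1,⟨7,[(0,1),(25,5),(16,0),(3,1),(1,0)]⟩,⟨1,[(3,1),(39,0),(4,0)]⟩⟩,.o ⟨false,
  1,⟨0,[(26,0)]⟩,⟨1,[(3,1),(39,0),(4,0)]⟩⟩,.e ⟨false,1,⟨0,[(42,0),(5,0)]⟩,⟨1,[(33,0),(0,0)]⟩⟩
  ⟨false,1,⟨9,[(26,3),(0,3),(20,4),(0,0),(1,1)]⟩,⟨0,[(42,0)]⟩⟩]⟩) (.R ⟨0,false,false,true,[0,0,0,0,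
  1],[0,1],[1,1],(⟨0,[(29,0)]⟩,⟨0,[(28,0)]⟩),(⟨0,[(40,0)]⟩,⟨0,[(39,0)]⟩),⟨0,[(1,0)]⟩,.k,.k,(.r (-1)
  ⟨7,[(22,3),(3,0),(0,0),(13,1),(6,2)]⟩ ⟨8,[(2,1),(1,1),(6,1),(15,1),(6,1),(12,4),(1,1),(0,0)]⟩),
  (.r (-1) ⟨7,[(22,3),(3,0),(0,0),(13,1),(6,2)]⟩ ⟨8,[(2,1),(1,1),(6,1),(15,1),(6,1),(12,4),(1,1),(0,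
  0)]⟩),.k,.k,⟨true,1,⟨7,[(22,3),(3,0),(0,0),(13,1),(6,2)]⟩,⟨0,[(4,0),(37,0)]⟩⟩,⟨false,2,⟨0,[(26,0),
  (21,0)]⟩,⟨0,[(3,0)]⟩⟩,⟨true,0,⟨0,[(51,0)]⟩,⟨0,[]⟩⟩,⟨false,1,⟨0,[(26,0),(20,0)]⟩,⟨0,[(0,0),(18,
  0)]⟩⟩,⟨false,0,⟨0,[]⟩,⟨0,[]⟩⟩,⟨false,0,⟨0,[]⟩,⟨0,[]⟩⟩,[.o ⟨false,0,⟨0,[(10,0)]⟩,⟨3,[(22,1),(3,0),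
  (0,0),(21,0)]⟩⟩,.e ⟨true,0,⟨0,[]⟩,⟨1,[(33,0),(0,0)]⟩⟩ ⟨true,1,⟨0,[(26,0),(20,0)]⟩,⟨2,[(0,0),(2,1),
  (1,0),(2,0),(33,0)]⟩⟩,.o ⟨false,0,⟨6,[(0,3),(2,0),(1,0),(2,0),(18,1),(13,0),(1,1)]⟩,⟨0,[(26,0)]⟩⟩,
  .a ⟨true,(-1),⟨0,[(3,0)]⟩,⟨0,[(2,0),(45,0)]⟩⟩ ⟨false,1,⟨1,[(26,0),(0,0),(20,0)]⟩,⟨0,[(42,0)]⟩⟩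
  ⟨true,1,⟨0,[(4,0),(21,0),(21,0)]⟩,⟨2,[(0,0),(2,1),(1,0),(2,0),(33,0)]⟩⟩]⟩))) (.Q [1,0,0,0,-1,0,0,
  0,1,0,0,1] (.p true [0,0,0,0,1] [] (⟨0,[(27,0)]⟩,⟨0,[(26,0)]⟩) .k 0 (⟨0,[]⟩,⟨0,[]⟩) .k .k) (.R ⟨2,
  true,false,false,[0,1],[0,0,0,0,1],[],(⟨0,[]⟩,⟨0,[]⟩),(⟨0,[(28,0)]⟩,⟨0,[(27,0)]⟩),⟨0,[]⟩,.k,.k,.k,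
  (.r 0 ⟨6,[(3,1),(6,1),(11,1),(9,1),(13,2),(1,1),(0,0)]⟩ ⟨7,[(21,3),(3,0),(0,0),(13,1),(6,2)]⟩),.k,
  .k,⟨false,1,⟨9,[(25,3),(0,3),(20,4),(0,0),(1,1)]⟩,⟨0,[]⟩⟩,⟨true,(-1),⟨0,[(2,0)]⟩,⟨0,[(25,0)]⟩⟩,
  ⟨true,1,⟨7,[(21,3),(3,0),(0,0),(13,1),(6,2)]⟩,⟨0,[(3,0)]⟩⟩,⟨false,0,⟨3,[(0,2),(20,1),(4,0),(21,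
  0)]⟩,⟨0,[(25,0),(20,0)]⟩⟩,⟨false,1,⟨1,[(47,0),(0,0)]⟩,⟨1,[(32,0),(0,0)]⟩⟩,⟨true,(-1),⟨0,[(0,0)]⟩,
  ⟨0,[(25,0),(24,0)]⟩⟩,[]⟩) (.R ⟨1,false,false,true,[0,0,1],[1,0,0,0,-1],[0,1,0,0,0,0,0,1],(⟨0,[(35,
  0)]⟩,⟨0,[(34,0)]⟩),(⟨0,[(27,0)]⟩,⟨0,[(28,0)]⟩),⟨0,[(24,0)]⟩,.k,.k,.k,.k,(.r (-1) ⟨5,[(11,1),(8,3),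
  (0,1),(25,2),(0,0)]⟩ ⟨0,[(3,0),(12,0),(31,0)]⟩),.k,⟨true,0,⟨0,[(14,0)]⟩,⟨0,[(16,0),(24,0)]⟩⟩,
  ⟨false,1,⟨0,[(25,0),(3,0)]⟩,⟨0,[(1,0),(30,0)]⟩⟩,⟨true,0,⟨0,[(50,0)]⟩,⟨0,[]⟩⟩,⟨true,0,⟨0,[(5,0),
  (19,0),(20,0)]⟩,⟨0,[(1,0),(28,0),(10,0)]⟩⟩,⟨false,0,⟨0,[(46,0)]⟩,⟨3,[(21,1),(3,0),(0,0),(21,0)]⟩⟩,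
  ⟨true,0,⟨0,[(5,0),(19,0),(20,1)]⟩,⟨0,[(1,0),(13,0),(25,0)]⟩⟩,[.o ⟨false,1,⟨0,[(25,0),(24,0)]⟩,⟨0,
  [(1,0),(39,0)]⟩⟩,.o ⟨false,1,⟨0,[(0,0)]⟩,⟨2,[(1,0),(0,0),(23,0),(15,0)]⟩⟩,.o ⟨false,1,⟨1,[(32,1),
  (9,0),(4,0)]⟩,⟨0,[(17,0)]⟩⟩,.a ⟨true,0,⟨0,[(32,0)]⟩,⟨0,[(29,0)]⟩⟩ ⟨true,0,⟨0,[(8,0),(6,0),(31,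
  0)]⟩,⟨0,[(16,0),(24,0)]⟩⟩ ⟨false,1,⟨0,[(0,0),(28,0)]⟩,⟨0,[(1,0),(30,0),(8,0)]⟩⟩]⟩)))) (.S ⟨1,0,[0,
  1,-1,-1],[1,-1],[0,0,-1,-1],(⟨0,[(35,0)]⟩,⟨0,[(36,0)]⟩),⟨1,[(3,0),(17,0),(13,0)]⟩,.k,(.r (-2) ⟨3,
  [(18,3),(3,0),(0,0),(13,1),(6,2)]⟩ ⟨0,[(5,0),(23,0),(13,0)]⟩),⟨false,1,⟨1,[(22,0),(0,0),(21,0)]⟩,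
  ⟨0,[]⟩⟩,⟨true,0,⟨0,[(47,0)]⟩,⟨0,[]⟩⟩,⟨true,0,⟨0,[(43,0)]⟩,⟨0,[(42,0)]⟩⟩,⟨false,0,⟨0,[(43,0)]⟩,⟨3,
  [(18,1),(3,0),(0,0),(21,0)]⟩⟩,[.o ⟨false,0,⟨0,[(42,0)]⟩,⟨0,[(6,0),(38,0)]⟩⟩,.e ⟨true,1,⟨0,[(0,
  0)]⟩,⟨0,[(9,0),(19,0)]⟩⟩ ⟨true,1,⟨7,[(18,3),(3,0),(0,0),(13,1),(6,2)]⟩,⟨0,[(5,0),(23,0)]⟩⟩,.o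
  ⟨false,0,⟨1,[(29,0),(0,0)]⟩,⟨1,[(39,0),(4,0)]⟩⟩,.a ⟨true,(-1),⟨1,[(5,1),(9,0),(13,1),(1,0),(0,
  0)]⟩,⟨0,[(44,0)]⟩⟩ ⟨false,2,⟨3,[(18,1),(3,0),(0,0),(20,3),(0,0)]⟩,⟨0,[(5,0),(23,0)]⟩⟩ ⟨true,1,⟨0,
  [(0,0),(36,0)]⟩,⟨0,[(5,0),(23,0)]⟩⟩]⟩))))))

theorem ok24 : chk K t24 l21 = true := by decide +kernel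


end Helper48.Y.Y11_c35_P4_m1n1_CC
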